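import Pool.Agent.MP_61a8e3_al.G4.KL0
import Pool.Agent.MP_61a8e3_al.G4.KL1
import Pool.Agent.MP_61a8e3_al.G4.KL2
import Pool.Agent.MP_61a8e3_al.G4.KL3
import Pool.Agent.MP_61a8e3_al.G4.KL4
import Pool.Agent.MP_61a8e3_al.G4.KL5
import Pool.Agent.MP_61a8e3_al.G4.KL6
import Pool.Agent.MP_61a8e3_al.G4.KL7

/-! Part K: classes, part 4. -/

set_option autoImplicit false
set_option maxRecDepth 100000
set_option linter.all false

namespace Pool.Agent.MP_61a8e3_al.G4.K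

noncomputable def a441 : T16 Cl := @T16.mk Cl
  (@Cl.mk (nat_lit 0x200060005000b00050009000d000d000500030003000a0007000b000e000b) (nat_lit 0x50124000601b7) (nat_lit 16) Lb.e (@T16.mk En
    (@En.n l3247 (nat_lit 7052) (nat_lit 10) (nat_lit 11))
    (@En.i (nat_lit 5925) (nat_lit 4) (nat_lit 14))
    (@En.n l1203 (nat_lit 2736) (nat_lit 2) (nat_lit 11))
    (@En.n l11295 (nat_lit 7165) (nat_lit 3) (nat_lit 7))
    (@En.i (nat_lit 11497) (nat_lit 4) (nat_lit 10))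
    (@En.n l21903 (nat_lit 7055) (nat_lit 13) (nat_lit 3))
    (@En.n l28 (nat_lit 7057) (nat_lit 6) (nat_lit 3))
    (@En.i (nat_lit 8076) (nat_lit 7) (nat_lit 5))
    (@En.n l77 (nat_lit 7057) (nat_lit 9) (nat_lit 13))
    (@En.i (nat_lit 8596) (nat_lit 10) (nat_lit 13))
    (@En.n l7611 (nat_lit 3794) (nat_lit 11) (nat_lit 9))
    (@En.n l117 (nat_lit 5518) (nat_lit 4) (nat_lit 5))
    (@En.n l4711 (nat_lit 7674) (nat_lit 13) (nat_lit 11))
    (@En.n l17 (nat_lit 7058) (nat_lit 14) (nat_lit 5))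
    (@En.i (nat_lit 4491) (nat_lit 7) (nat_lit 6))
    (@En.n l3 (nat_lit 7056) (nat_lit 15) (nat_lit 2))))
  (@Cl.mk (nat_lit 0x200060005000c00050009000d0004000e00030002000a0007000b000e000b) (nat_lit 0x50130c0060135) (nat_lit 16) Lb.e (@T16.mk En
    (@En.n l5646 (nat_lit 7037) (nat_lit 11) (nat_lit 11))
    (@En.i (nat_lit 5927) (nat_lit 12) (nat_lit 14))
    (@En.n l1203 (nat_lit 2900) (nat_lit 2) (nat_lit 11))
    (@En.n l7611 (nat_lit 7166) (nat_lit 14) (nat_lit 7))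
    (@En.i (nat_lit 11496) (nat_lit 4) (nat_lit 10))
    (@En.n l7 (nat_lit 7057) (nat_lit 5) (nat_lit 2))
    (@En.i (nat_lit 7056) (nat_lit 6) (nat_lit 3))
    (@En.i (nat_lit 13596) (nat_lit 0) (nat_lit 14))
    (@En.i (nat_lit 8023) (nat_lit 8) (nat_lit 4))
    (@En.i (nat_lit 8597) (nat_lit 10) (nat_lit 13))
    (@En.n l7611 (nat_lit 3795) (nat_lit 11) (nat_lit 9))
    (@En.n l117 (nat_lit 5522) (nat_lit 5) (nat_lit 5))
    (@En.n l3337 (nat_lit 8004) (nat_lit 13) (nat_lit 12))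
    (@En.n l17 (nat_lit 7064) (nat_lit 14) (nat_lit 5))
    (@En.i (nat_lit 4502) (nat_lit 8) (nat_lit 6))
    (@En.n l3 (nat_lit 7057) (nat_lit 15) (nat_lit 2))))
  (@Cl.mk (nat_lit 0x20005000b00040009000d000d000500030003000d0007000b0003000e000c) (nat_lit 0x402240006020c4) (nat_lit 16) Lb.e (@T16.mk En
    (@En.n l345 (nat_lit 7035) (nat_lit 9) (nat_lit 12))
    (@En.i (nat_lit 7056) (nat_lit 1) (nat_lit 14))
    (@En.n l2869 (nat_lit 7062) (nat_lit 2) (nat_lit 3))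
    (@En.i (nat_lit 2901) (nat_lit 3) (nat_lit 11))
    (@En.i (nat_lit 7168) (nat_lit 4) (nat_lit 7))
    (@En.i (nat_lit 11216) (nat_lit 6) (nat_lit 13))
    (@En.n l9965 (nat_lit 7059) (nat_lit 6) (nat_lit 3))
    (@En.n l28 (nat_lit 7064) (nat_lit 7) (nat_lit 3))
    (@En.i (nat_lit 8075) (nat_lit 8) (nat_lit 5))
    (@En.n l77 (nat_lit 7064) (nat_lit 10) (nat_lit 13))
    (@En.i (nat_lit 8592) (nat_lit 11) (nat_lit 13))
    (@En.n l3815 (nat_lit 3792) (nat_lit 12) (nat_lit 9))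
    (@En.n l117 (nat_lit 3926) (nat_lit 4) (nat_lit 4))
    (@En.n l3337 (nat_lit 6983) (nat_lit 14) (nat_lit 11))
    (@En.i (nat_lit 4076) (nat_lit 13) (nat_lit 5))
    (@En.n l3 (nat_lit 7058) (nat_lit 15) (nat_lit 2))))
  (@Cl.mk (nat_lit 0x20005000a00040009000e000d000200060003000d0007000b0003000e000c) (nat_lit 0x301a3000602047) (nat_lit 16) Lb.e (@T16.mk En
    (@En.n l3112 (nat_lit 7060) (nat_lit 8) (nat_lit 12))
    (@En.n l343 (nat_lit 7055) (nat_lit 9) (nat_lit 14))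
    (@En.n l28 (nat_lit 7061) (nat_lit 9) (nat_lit 3))
    (@En.n l502 (nat_lit 3050) (nat_lit 3) (nat_lit 11))
    (@En.i (nat_lit 7170) (nat_lit 4) (nat_lit 7))
    (@En.i (nat_lit 11011) (nat_lit 6) (nat_lit 13))
    (@En.n l1386 (nat_lit 7058) (nat_lit 6) (nat_lit 3))
    (@En.n l170 (nat_lit 5117) (nat_lit 7) (nat_lit 6))
    (@En.n l3 (nat_lit 7059) (nat_lit 8) (nat_lit 2))
    (@En.n l4037 (nat_lit 7058) (nat_lit 10) (nat_lit 13))
    (@En.n l1386 (nat_lit 8668) (nat_lit 11) (nat_lit 14))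
    (@En.i (nat_lit 3793) (nat_lit 2) (nat_lit 9))
    (@En.n l3510 (nat_lit 5526) (nat_lit 3) (nat_lit 4))
    (@En.i (nat_lit 6978) (nat_lit 4) (nat_lit 10))
    (@En.n l1386 (nat_lit 4080) (nat_lit 5) (nat_lit 5))
    (@En.n l50 (nat_lit 7059) (nat_lit 15) (nat_lit 2))))
  (@Cl.mk (nat_lit 0x200070003000d0007000c0003000c000c00040009000400040009000e000d) (nat_lit 0xb020670700246) (nat_lit 16) Lb.e (@T16.mk En
    (@En.n l11392 (nat_lit 7035) (nat_lit 2) (nat_lit 13))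
    (@En.n l1596 (nat_lit 8673) (nat_lit 1) (nat_lit 14))
    (@En.n l11393 (nat_lit 7208) (nat_lit 2) (nat_lit 9))
    (@En.n l3489 (nat_lit 7059) (nat_lit 12) (nat_lit 4))
    (@En.n l1098 (nat_lit 7108) (nat_lit 4) (nat_lit 4))
    (@En.n l3490 (nat_lit 6976) (nat_lit 5) (nat_lit 9))
    (@En.n l11394 (nat_lit 5524) (nat_lit 6) (nat_lit 4))
    (@En.n l11395 (nat_lit 7066) (nat_lit 8) (nat_lit 12))
    (@En.n l11396 (nat_lit 5517) (nat_lit 9) (nat_lit 12))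
    (@En.n l11397 (nat_lit 7063) (nat_lit 9) (nat_lit 3))
    (@En.n l3637 (nat_lit 3049) (nat_lit 11) (nat_lit 12))
    (@En.n l11396 (nat_lit 7070) (nat_lit 12) (nat_lit 7))
    (@En.n l3638 (nat_lit 11007) (nat_lit 13) (nat_lit 13))
    (@En.n l1596 (nat_lit 7035) (nat_lit 14) (nat_lit 3))
    (@En.n l3476 (nat_lit 5108) (nat_lit 0) (nat_lit 7))
    (@En.n l67 (nat_lit 7060) (nat_lit 15) (nat_lit 2))))
  (@Cl.mk (nat_lit 0x200060003000d000a00080003000e000c00020006000a00040008000e000d) (nat_lit 0x5720970020185) (nat_lit 16) Lb.e (@T16.mk En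
    (@En.n l4130 (nat_lit 7062) (nat_lit 10) (nat_lit 13))
    (@En.n l10505 (nat_lit 8671) (nat_lit 11) (nat_lit 14))
    (@En.i (nat_lit 2663) (nat_lit 2) (nat_lit 8))
    (@En.i (nat_lit 5528) (nat_lit 3) (nat_lit 4))
    (@En.i (nat_lit 6977) (nat_lit 4) (nat_lit 10))
    (@En.i (nat_lit 6083) (nat_lit 5) (nat_lit 6))
    (@En.n l50 (nat_lit 7061) (nat_lit 6) (nat_lit 2))
    (@En.n l396 (nat_lit 7063) (nat_lit 8) (nat_lit 12))
    (@En.i (nat_lit 5932) (nat_lit 9) (nat_lit 14))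
    (@En.i (nat_lit 7059) (nat_lit 2) (nat_lit 3))
    (@En.n l725 (nat_lit 4888) (nat_lit 11) (nat_lit 8))
    (@En.i (nat_lit 7055) (nat_lit 12) (nat_lit 10))
    (@En.i (nat_lit 11028) (nat_lit 13) (nat_lit 13))
    (@En.n l2832 (nat_lit 7062) (nat_lit 6) (nat_lit 3))
    (@En.i (nat_lit 5118) (nat_lit 7) (nat_lit 6))
    (@En.n l3 (nat_lit 7061) (nat_lit 15) (nat_lit 2))))
  (@Cl.mk (nat_lit 0x20006000b00040008000d000d000500030003000d000a00080003000e000c) (nat_lit 0x101450005710ca) (nat_lit 16) Lb.e (@T16.mk En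
    (@En.n l25356 (nat_lit 7036) (nat_lit 9) (nat_lit 12))
    (@En.i (nat_lit 5929) (nat_lit 1) (nat_lit 14))
    (@En.n l1865 (nat_lit 7058) (nat_lit 2) (nat_lit 3))
    (@En.n l4758 (nat_lit 4596) (nat_lit 3) (nat_lit 8))
    (@En.n l1867 (nat_lit 7056) (nat_lit 4) (nat_lit 10))
    (@En.i (nat_lit 11215) (nat_lit 6) (nat_lit 13))
    (@En.n l3519 (nat_lit 7061) (nat_lit 13) (nat_lit 3))
    (@En.n l18 (nat_lit 7065) (nat_lit 7) (nat_lit 3))
    (@En.n l11245 (nat_lit 8074) (nat_lit 8) (nat_lit 5))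
    (@En.n l61 (nat_lit 7065) (nat_lit 10) (nat_lit 13))
    (@En.n l649 (nat_lit 8593) (nat_lit 11) (nat_lit 13))
    (@En.n l2038 (nat_lit 666) (nat_lit 12) (nat_lit 8))
    (@En.n l3528 (nat_lit 5527) (nat_lit 4) (nat_lit 4))
    (@En.n l3517 (nat_lit 5567) (nat_lit 14) (nat_lit 11))
    (@En.i (nat_lit 6085) (nat_lit 6) (nat_lit 6))
    (@En.n l28 (nat_lit 7062) (nat_lit 15) (nat_lit 2))))
  (@Cl.mk (nat_lit 0x200070003000d000b00080003000c000c00050009000400040008000e000d) (nat_lit 0xb720620300284) (nat_lit 16) Lb.e (@T16.mk En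
    (@En.n l725 (nat_lit 7036) (nat_lit 2) (nat_lit 13))
    (@En.n l25068 (nat_lit 8674) (nat_lit 1) (nat_lit 14))
    (@En.n l1353 (nat_lit 7425) (nat_lit 2) (nat_lit 8))
    (@En.n l18 (nat_lit 7061) (nat_lit 3) (nat_lit 4))
    (@En.n l2197 (nat_lit 7109) (nat_lit 4) (nat_lit 4))
    (@En.i (nat_lit 6973) (nat_lit 5) (nat_lit 9))
    (@En.n l2348 (nat_lit 5572) (nat_lit 6) (nat_lit 5))
    (@En.n l10895 (nat_lit 7067) (nat_lit 8) (nat_lit 12))
    (@En.n l3749 (nat_lit 5430) (nat_lit 9) (nat_lit 12))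
    (@En.n l4315 (nat_lit 7060) (nat_lit 9) (nat_lit 3))
    (@En.n l7244 (nat_lit 4594) (nat_lit 11) (nat_lit 8))
    (@En.n l2346 (nat_lit 7053) (nat_lit 12) (nat_lit 11))
    (@En.n l3749 (nat_lit 11030) (nat_lit 13) (nat_lit 13))
    (@En.n l25069 (nat_lit 7036) (nat_lit 14) (nat_lit 3))
    (@En.i (nat_lit 5114) (nat_lit 0) (nat_lit 7))
    (@En.n l3 (nat_lit 7063) (nat_lit 15) (nat_lit 2))))
  (@Cl.mk (nat_lit 0x20005000c00040009000d0004000e00030002000d0007000b0003000e000c) (nat_lit 0x40130c0060104a) (nat_lit 16) Lb.e (@T16.mk En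
    (@En.i (nat_lit 7033) (nat_lit 10) (nat_lit 12))
    (@En.i (nat_lit 7057) (nat_lit 1) (nat_lit 14))
    (@En.n l2869 (nat_lit 7065) (nat_lit 2) (nat_lit 3))
    (@En.i (nat_lit 2899) (nat_lit 3) (nat_lit 11))
    (@En.i (nat_lit 7167) (nat_lit 4) (nat_lit 7))
    (@En.i (nat_lit 11214) (nat_lit 6) (nat_lit 13))
    (@En.n l7 (nat_lit 7064) (nat_lit 6) (nat_lit 2))
    (@En.i (nat_lit 7058) (nat_lit 7) (nat_lit 3))
    (@En.i (nat_lit 13801) (nat_lit 0) (nat_lit 14))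
    (@En.i (nat_lit 8021) (nat_lit 9) (nat_lit 4))
    (@En.i (nat_lit 8311) (nat_lit 11) (nat_lit 13))
    (@En.i (nat_lit 3791) (nat_lit 12) (nat_lit 9))
    (@En.n l117 (nat_lit 5530) (nat_lit 5) (nat_lit 4))
    (@En.n l3337 (nat_lit 6967) (nat_lit 14) (nat_lit 12))
    (@En.i (nat_lit 4072) (nat_lit 7) (nat_lit 5))
    (@En.n l3 (nat_lit 7064) (nat_lit 15) (nat_lit 2))))
  (@Cl.mk (nat_lit 0x20006000c00040008000d0004000e00030002000d000a00080003000e000c) (nat_lit 0x40140b005710ca) (nat_lit 16) Lb.e (@T16.mk En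
    (@En.i (nat_lit 7034) (nat_lit 10) (nat_lit 12))
    (@En.i (nat_lit 5930) (nat_lit 1) (nat_lit 14))
    (@En.n l1865 (nat_lit 7064) (nat_lit 2) (nat_lit 3))
    (@En.n l4758 (nat_lit 4845) (nat_lit 3) (nat_lit 8))
    (@En.n l1867 (nat_lit 7057) (nat_lit 4) (nat_lit 10))
    (@En.i (nat_lit 11212) (nat_lit 6) (nat_lit 13))
    (@En.n l17 (nat_lit 7065) (nat_lit 6) (nat_lit 2))
    (@En.i (nat_lit 7062) (nat_lit 7) (nat_lit 3))
    (@En.n l476 (nat_lit 13800) (nat_lit 0) (nat_lit 14))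
    (@En.i (nat_lit 8022) (nat_lit 9) (nat_lit 4))
    (@En.n l649 (nat_lit 8594) (nat_lit 11) (nat_lit 13))
    (@En.n l2038 (nat_lit 662) (nat_lit 12) (nat_lit 8))
    (@En.n l3528 (nat_lit 5529) (nat_lit 5) (nat_lit 4))
    (@En.n l476 (nat_lit 6966) (nat_lit 14) (nat_lit 12))
    (@En.i (nat_lit 6229) (nat_lit 7) (nat_lit 6))
    (@En.n l28 (nat_lit 7065) (nat_lit 15) (nat_lit 2))))
  (@Cl.mk (nat_lit 0x200080003000d0007000d0003000c00030008000e000400020009000e000d) (nat_lit 0x20a090606600355) (nat_lit 16) Lb.e (@T16.mk En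
    (@En.n l1144 (nat_lit 7030) (nat_lit 13) (nat_lit 13))
    (@En.n l11 (nat_lit 4620) (nat_lit 1) (nat_lit 14))
    (@En.i (nat_lit 7213) (nat_lit 2) (nat_lit 9))
    (@En.n l17 (nat_lit 7066) (nat_lit 3) (nat_lit 2))
    (@En.n l4489 (nat_lit 7060) (nat_lit 4) (nat_lit 4))
    (@En.i (nat_lit 3715) (nat_lit 6) (nat_lit 14))
    (@En.n l4489 (nat_lit 6975) (nat_lit 6) (nat_lit 8))
    (@En.i (nat_lit 7054) (nat_lit 7) (nat_lit 3))
    (@En.n l7126 (nat_lit 7023) (nat_lit 0) (nat_lit 12))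
    (@En.n l23051 (nat_lit 7067) (nat_lit 9) (nat_lit 3))
    (@En.n l4489 (nat_lit 1597) (nat_lit 7) (nat_lit 13))
    (@En.n l7126 (nat_lit 7069) (nat_lit 12) (nat_lit 7))
    (@En.n l5584 (nat_lit 11034) (nat_lit 13) (nat_lit 13))
    (@En.n l11 (nat_lit 7030) (nat_lit 9) (nat_lit 3))
    (@En.n l2263 (nat_lit 6646) (nat_lit 11) (nat_lit 8))
    (@En.n l1157 (nat_lit 7066) (nat_lit 15) (nat_lit 2))))
  (@Cl.mk (nat_lit 0x200080003000d000c00080003000c00040008000e000400020008000e000d) (nat_lit 0x20b820106700375) (nat_lit 16) Lb.e (@T16.mk En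
    (@En.n l32002 (nat_lit 7029) (nat_lit 13) (nat_lit 13))
    (@En.n l25506 (nat_lit 4621) (nat_lit 1) (nat_lit 14))
    (@En.n l810 (nat_lit 7424) (nat_lit 2) (nat_lit 8))
    (@En.n l11 (nat_lit 7067) (nat_lit 3) (nat_lit 2))
    (@En.n l23144 (nat_lit 7063) (nat_lit 4) (nat_lit 4))
    (@En.n l12271 (nat_lit 3716) (nat_lit 6) (nat_lit 14))
    (@En.n l23382 (nat_lit 6971) (nat_lit 2) (nat_lit 8))
    (@En.n l33736 (nat_lit 3298) (nat_lit 3) (nat_lit 4))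
    (@En.n l810 (nat_lit 3985) (nat_lit 9) (nat_lit 12))
    (@En.n l8566 (nat_lit 7066) (nat_lit 9) (nat_lit 3))
    (@En.n l14576 (nat_lit 4826) (nat_lit 6) (nat_lit 8))
    (@En.n l6735 (nat_lit 7054) (nat_lit 12) (nat_lit 12))
    (@En.i (nat_lit 11032) (nat_lit 13) (nat_lit 13))
    (@En.n l25506 (nat_lit 7029) (nat_lit 9) (nat_lit 3))
    (@En.i (nat_lit 5345) (nat_lit 11) (nat_lit 8))
    (@En.n l50 (nat_lit 7067) (nat_lit 15) (nat_lit 2))))
  (@Cl.mk (nat_lit 0x200090008000d000d0008000300030007000d0008000c00030008000e0004) (nat_lit 0x263400009160240) (nat_lit 16) Lb.e (@T16.mk En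
    (@En.n l22708 (nat_lit 7073) (nat_lit 6) (nat_lit 4))
    (@En.i (nat_lit 665) (nat_lit 1) (nat_lit 14))
    (@En.n l6825 (nat_lit 7024) (nat_lit 2) (nat_lit 8))
    (@En.i (nat_lit 7072) (nat_lit 3) (nat_lit 3))
    (@En.n l6825 (nat_lit 6973) (nat_lit 0) (nat_lit 12))
    (@En.n l12066 (nat_lit 3987) (nat_lit 5) (nat_lit 8))
    (@En.n l27752 (nat_lit 7445) (nat_lit 7) (nat_lit 13))
    (@En.n l12583 (nat_lit 12125) (nat_lit 7) (nat_lit 7))
    (@En.n l7126 (nat_lit 7069) (nat_lit 13) (nat_lit 3))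
    (@En.n l152 (nat_lit 7074) (nat_lit 0) (nat_lit 3))
    (@En.n l6825 (nat_lit 7705) (nat_lit 0) (nat_lit 8))
    (@En.n l619 (nat_lit 7074) (nat_lit 3) (nat_lit 13))
    (@En.i (nat_lit 8090) (nat_lit 13) (nat_lit 13))
    (@En.n l77 (nat_lit 7029) (nat_lit 14) (nat_lit 8))
    (@En.i (nat_lit 7232) (nat_lit 4) (nat_lit 9))
    (@En.n l17 (nat_lit 7068) (nat_lit 15) (nat_lit 2))))
  (@Cl.mk (nat_lit 0x2000900030007000d0008000c00030007000e0004000200090008000e000d) (nat_lit 0x200914004002414) (nat_lit 16) Lb.e (@T16.mk En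
    (@En.n l4270 (nat_lit 7068) (nat_lit 12) (nat_lit 13))
    (@En.i (nat_lit 902) (nat_lit 13) (nat_lit 14))
    (@En.i (nat_lit 7067) (nat_lit 2) (nat_lit 8))
    (@En.i (nat_lit 7234) (nat_lit 3) (nat_lit 9))
    (@En.n l11 (nat_lit 7069) (nat_lit 4) (nat_lit 2))
    (@En.n l117 (nat_lit 7070) (nat_lit 5) (nat_lit 4))
    (@En.n l725 (nat_lit 3909) (nat_lit 7) (nat_lit 14))
    (@En.i (nat_lit 6909) (nat_lit 2) (nat_lit 7))
    (@En.n l2576 (nat_lit 7071) (nat_lit 8) (nat_lit 3))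
    (@En.i (nat_lit 6977) (nat_lit 0) (nat_lit 12))
    (@En.i (nat_lit 3988) (nat_lit 5) (nat_lit 8))
    (@En.i (nat_lit 7698) (nat_lit 7) (nat_lit 13))
    (@En.i (nat_lit 7198) (nat_lit 7) (nat_lit 7))
    (@En.n l3749 (nat_lit 7068) (nat_lit 8) (nat_lit 3))
    (@En.i (nat_lit 5347) (nat_lit 0) (nat_lit 9))
    (@En.n l50 (nat_lit 7069) (nat_lit 15) (nat_lit 2))))
  (@Cl.mk (nat_lit 0x2000800030007000c0008000c000c000400080004000400090008000e000d) (nat_lit 0x200625503003355) (nat_lit 16) Lb.e (@T16.mk En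
    (@En.n l396 (nat_lit 7073) (nat_lit 2) (nat_lit 13))
    (@En.i (nat_lit 7640) (nat_lit 1) (nat_lit 14))
    (@En.n l6825 (nat_lit 7063) (nat_lit 2) (nat_lit 8))
    (@En.n l649 (nat_lit 7220) (nat_lit 3) (nat_lit 9))
    (@En.n l7126 (nat_lit 7170) (nat_lit 12) (nat_lit 4))
    (@En.i (nat_lit 7075) (nat_lit 5) (nat_lit 4))
    (@En.i (nat_lit 6911) (nat_lit 6) (nat_lit 8))
    (@En.n l1865 (nat_lit 5568) (nat_lit 7) (nat_lit 4))
    (@En.n l619 (nat_lit 7069) (nat_lit 9) (nat_lit 12))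
    (@En.i (nat_lit 5411) (nat_lit 10) (nat_lit 12))
    (@En.n l1769 (nat_lit 3995) (nat_lit 11) (nat_lit 8))
    (@En.i (nat_lit 7114) (nat_lit 12) (nat_lit 12))
    (@En.i (nat_lit 7205) (nat_lit 13) (nat_lit 7))
    (@En.i (nat_lit 7073) (nat_lit 14) (nat_lit 3))
    (@En.i (nat_lit 5355) (nat_lit 0) (nat_lit 8))
    (@En.n l50 (nat_lit 7070) (nat_lit 15) (nat_lit 2))))
  (@Cl.mk (nat_lit 0x2000900030007000d000b000900030007000e0005000200090007000e000d) (nat_lit 0x200a01003002016) (nat_lit 16) Lb.e (@T16.mk En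
    (@En.n l14381 (nat_lit 7072) (nat_lit 12) (nat_lit 13))
    (@En.i (nat_lit 899) (nat_lit 13) (nat_lit 14))
    (@En.n l3751 (nat_lit 3298) (nat_lit 14) (nat_lit 7))
    (@En.n l614 (nat_lit 2948) (nat_lit 3) (nat_lit 9))
    (@En.n l11 (nat_lit 7071) (nat_lit 4) (nat_lit 2))
    (@En.n l117 (nat_lit 7076) (nat_lit 5) (nat_lit 5))
    (@En.n l725 (nat_lit 3908) (nat_lit 7) (nat_lit 14))
    (@En.i (nat_lit 8914) (nat_lit 2) (nat_lit 7))
    (@En.n l936 (nat_lit 7069) (nat_lit 8) (nat_lit 3))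
    (@En.i (nat_lit 4132) (nat_lit 0) (nat_lit 9))
    (@En.n l936 (nat_lit 7075) (nat_lit 11) (nat_lit 11))
    (@En.i (nat_lit 7697) (nat_lit 7) (nat_lit 13))
    (@En.i (nat_lit 7195) (nat_lit 7) (nat_lit 7))
    (@En.n l6441 (nat_lit 7072) (nat_lit 8) (nat_lit 3))
    (@En.i (nat_lit 5351) (nat_lit 0) (nat_lit 9))
    (@En.n l50 (nat_lit 7071) (nat_lit 15) (nat_lit 2))))
noncomputable def a442 : T16 Cl := @T16.mk Cl
  (@Cl.mk (nat_lit 0x200090007000d000d0008000300030007000d000b000900030008000e0005) (nat_lit 0x20540000a110330) (nat_lit 16) Lb.e (@T16.mk En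
    (@En.n l21265 (nat_lit 7077) (nat_lit 6) (nat_lit 5))
    (@En.i (nat_lit 664) (nat_lit 1) (nat_lit 14))
    (@En.n l15954 (nat_lit 8916) (nat_lit 2) (nat_lit 8))
    (@En.n l50 (nat_lit 7068) (nat_lit 3) (nat_lit 3))
    (@En.n l15954 (nat_lit 4127) (nat_lit 0) (nat_lit 9))
    (@En.n l217 (nat_lit 5538) (nat_lit 12) (nat_lit 11))
    (@En.n l27752 (nat_lit 3535) (nat_lit 7) (nat_lit 13))
    (@En.n l27753 (nat_lit 12126) (nat_lit 7) (nat_lit 7))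
    (@En.n l15956 (nat_lit 7071) (nat_lit 13) (nat_lit 3))
    (@En.n l152 (nat_lit 7078) (nat_lit 0) (nat_lit 3))
    (@En.n l15954 (nat_lit 7704) (nat_lit 0) (nat_lit 8))
    (@En.n l619 (nat_lit 7078) (nat_lit 3) (nat_lit 13))
    (@En.i (nat_lit 8093) (nat_lit 13) (nat_lit 13))
    (@En.n l27754 (nat_lit 3291) (nat_lit 14) (nat_lit 7))
    (@En.n l13923 (nat_lit 2941) (nat_lit 4) (nat_lit 9))
    (@En.n l17 (nat_lit 7072) (nat_lit 15) (nat_lit 2))))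
  (@Cl.mk (nat_lit 0x300030007000c0008000c000c000400090004000400090008000d000d0007) (nat_lit 0x4187030033470) (nat_lit 16) Lb.e (@T16.mk En
    (@En.i (nat_lit 7707) (nat_lit 0) (nat_lit 7))
    (@En.n l31538 (nat_lit 7079) (nat_lit 3) (nat_lit 13))
    (@En.n l15662 (nat_lit 7638) (nat_lit 2) (nat_lit 13))
    (@En.n l14455 (nat_lit 7036) (nat_lit 3) (nat_lit 8))
    (@En.n l39679 (nat_lit 3531) (nat_lit 4) (nat_lit 9))
    (@En.n l23369 (nat_lit 7168) (nat_lit 12) (nat_lit 4))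
    (@En.n l15662 (nat_lit 5538) (nat_lit 6) (nat_lit 4))
    (@En.i (nat_lit 7020) (nat_lit 0) (nat_lit 9))
    (@En.n l39680 (nat_lit 5535) (nat_lit 8) (nat_lit 4))
    (@En.n l29442 (nat_lit 7068) (nat_lit 4) (nat_lit 12))
    (@En.i (nat_lit 5409) (nat_lit 11) (nat_lit 12))
    (@En.n l39681 (nat_lit 3990) (nat_lit 12) (nat_lit 8))
    (@En.n l11434 (nat_lit 7115) (nat_lit 13) (nat_lit 12))
    (@En.i (nat_lit 12463) (nat_lit 14) (nat_lit 7))
    (@En.n l18 (nat_lit 7070) (nat_lit 13) (nat_lit 3))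
    (@En.n l29444 (nat_lit 7079) (nat_lit 0) (nat_lit 3))))
  (@Cl.mk (nat_lit 0x20007000d0008000c00030009000e0004000200090008000d0007000e0003) (nat_lit 0xa1607400243070) (nat_lit 16) Lb.e (@T16.mk En
    (@En.n l117 (nat_lit 7068) (nat_lit 9) (nat_lit 3))
    (@En.n l781 (nat_lit 13956) (nat_lit 0) (nat_lit 14))
    (@En.i (nat_lit 8105) (nat_lit 2) (nat_lit 7))
    (@En.n l810 (nat_lit 8089) (nat_lit 13) (nat_lit 13))
    (@En.n l77 (nat_lit 7028) (nat_lit 14) (nat_lit 8))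
    (@En.n l2125 (nat_lit 7238) (nat_lit 5) (nat_lit 9))
    (@En.n l17 (nat_lit 7074) (nat_lit 6) (nat_lit 2))
    (@En.n l3098 (nat_lit 7079) (nat_lit 7) (nat_lit 4))
    (@En.i (nat_lit 662) (nat_lit 9) (nat_lit 14))
    (@En.i (nat_lit 5508) (nat_lit 10) (nat_lit 9))
    (@En.i (nat_lit 7078) (nat_lit 10) (nat_lit 3))
    (@En.n l23382 (nat_lit 6971) (nat_lit 12) (nat_lit 12))
    (@En.n l10067 (nat_lit 3989) (nat_lit 5) (nat_lit 8))
    (@En.n l11828 (nat_lit 7446) (nat_lit 7) (nat_lit 13))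
    (@En.n l810 (nat_lit 7890) (nat_lit 7) (nat_lit 7))
    (@En.n l11 (nat_lit 7074) (nat_lit 15) (nat_lit 2))))
  (@Cl.mk (nat_lit 0x2000a00030007000b0008000c0006000d00050004000300090008000e000d) (nat_lit 0x3009180400035a7) (nat_lit 16) Lb.e (@T16.mk En
    (@En.n l16961 (nat_lit 5538) (nat_lit 2) (nat_lit 13))
    (@En.n l4814 (nat_lit 7612) (nat_lit 1) (nat_lit 14))
    (@En.n l28284 (nat_lit 7109) (nat_lit 2) (nat_lit 8))
    (@En.n l2213 (nat_lit 7118) (nat_lit 3) (nat_lit 9))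
    (@En.n l28285 (nat_lit 5539) (nat_lit 4) (nat_lit 3))
    (@En.n l152 (nat_lit 7069) (nat_lit 5) (nat_lit 4))
    (@En.n l21574 (nat_lit 5558) (nat_lit 6) (nat_lit 5))
    (@En.n l725 (nat_lit 3907) (nat_lit 8) (nat_lit 13))
    (@En.i (nat_lit 9160) (nat_lit 8) (nat_lit 6))
    (@En.i (nat_lit 5567) (nat_lit 10) (nat_lit 12))
    (@En.n l8776 (nat_lit 3635) (nat_lit 11) (nat_lit 8))
    (@En.n l8776 (nat_lit 7219) (nat_lit 12) (nat_lit 11))
    (@En.i (nat_lit 7292) (nat_lit 13) (nat_lit 7))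
    (@En.n l15662 (nat_lit 5538) (nat_lit 14) (nat_lit 3))
    (@En.i (nat_lit 6635) (nat_lit 0) (nat_lit 10))
    (@En.n l50 (nat_lit 7075) (nat_lit 15) (nat_lit 2))))
  (@Cl.mk (nat_lit 0x2000800030007000c000b000b000a000400080005000500090006000e000d) (nat_lit 0x200641204001015) (nat_lit 16) Lb.e (@T16.mk En
    (@En.n l396 (nat_lit 7077) (nat_lit 2) (nat_lit 13))
    (@En.i (nat_lit 904) (nat_lit 1) (nat_lit 14))
    (@En.n l3107 (nat_lit 3299) (nat_lit 2) (nat_lit 6))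
    (@En.n l14270 (nat_lit 2947) (nat_lit 3) (nat_lit 9))
    (@En.n l11 (nat_lit 7169) (nat_lit 4) (nat_lit 5))
    (@En.i (nat_lit 7250) (nat_lit 5) (nat_lit 5))
    (@En.i (nat_lit 8846) (nat_lit 6) (nat_lit 8))
    (@En.n l936 (nat_lit 7070) (nat_lit 7) (nat_lit 4))
    (@En.n l55 (nat_lit 5408) (nat_lit 9) (nat_lit 10))
    (@En.n l619 (nat_lit 7071) (nat_lit 10) (nat_lit 11))
    (@En.n l3866 (nat_lit 5558) (nat_lit 11) (nat_lit 11))
    (@En.i (nat_lit 7116) (nat_lit 12) (nat_lit 12))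
    (@En.i (nat_lit 7391) (nat_lit 13) (nat_lit 7))
    (@En.i (nat_lit 7077) (nat_lit 14) (nat_lit 3))
    (@En.i (nat_lit 5357) (nat_lit 0) (nat_lit 8))
    (@En.n l50 (nat_lit 7076) (nat_lit 15) (nat_lit 2))))
  (@Cl.mk (nat_lit 0x300030007000c000b000b000a000400090005000500090006000d000d0007) (nat_lit 0x7522030010460) (nat_lit 16) Lb.e (@T16.mk En
    (@En.i (nat_lit 7706) (nat_lit 0) (nat_lit 7))
    (@En.n l35239 (nat_lit 7164) (nat_lit 3) (nat_lit 13))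
    (@En.i (nat_lit 7635) (nat_lit 2) (nat_lit 13))
    (@En.n l9845 (nat_lit 3296) (nat_lit 3) (nat_lit 6))
    (@En.n l14270 (nat_lit 2943) (nat_lit 4) (nat_lit 9))
    (@En.n l11 (nat_lit 7165) (nat_lit 11) (nat_lit 5))
    (@En.n l6042 (nat_lit 7249) (nat_lit 6) (nat_lit 5))
    (@En.i (nat_lit 8813) (nat_lit 8) (nat_lit 9))
    (@En.n l936 (nat_lit 7073) (nat_lit 8) (nat_lit 4))
    (@En.n l55 (nat_lit 5405) (nat_lit 10) (nat_lit 10))
    (@En.n l30753 (nat_lit 7072) (nat_lit 5) (nat_lit 11))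
    (@En.n l3866 (nat_lit 5556) (nat_lit 12) (nat_lit 11))
    (@En.i (nat_lit 7117) (nat_lit 13) (nat_lit 12))
    (@En.i (nat_lit 12472) (nat_lit 14) (nat_lit 7))
    (@En.n l18 (nat_lit 7076) (nat_lit 13) (nat_lit 3))
    (@En.n l8194 (nat_lit 7164) (nat_lit 0) (nat_lit 3))))
  (@Cl.mk (nat_lit 0x20007000d000b000900030009000e0005000200090007000d0007000e0003) (nat_lit 0x901022002030a0) (nat_lit 16) Lb.e (@T16.mk En
    (@En.n l117 (nat_lit 7072) (nat_lit 9) (nat_lit 3))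
    (@En.n l781 (nat_lit 13954) (nat_lit 0) (nat_lit 14))
    (@En.i (nat_lit 8104) (nat_lit 2) (nat_lit 7))
    (@En.n l810 (nat_lit 8092) (nat_lit 13) (nat_lit 13))
    (@En.n l2900 (nat_lit 3293) (nat_lit 14) (nat_lit 7))
    (@En.n l3928 (nat_lit 2940) (nat_lit 5) (nat_lit 9))
    (@En.n l17 (nat_lit 7078) (nat_lit 6) (nat_lit 2))
    (@En.n l18861 (nat_lit 7164) (nat_lit 7) (nat_lit 5))
    (@En.i (nat_lit 663) (nat_lit 9) (nat_lit 14))
    (@En.n l998 (nat_lit 8923) (nat_lit 10) (nat_lit 9))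
    (@En.n l50 (nat_lit 7074) (nat_lit 10) (nat_lit 3))
    (@En.n l18862 (nat_lit 4128) (nat_lit 4) (nat_lit 9))
    (@En.n l217 (nat_lit 7080) (nat_lit 13) (nat_lit 11))
    (@En.n l11828 (nat_lit 7447) (nat_lit 7) (nat_lit 13))
    (@En.n l810 (nat_lit 7888) (nat_lit 7) (nat_lit 7))
    (@En.n l11 (nat_lit 7078) (nat_lit 15) (nat_lit 2))))
  (@Cl.mk (nat_lit 0x20007000c0008000c000c0004000a0004000400090008000d0006000e0003) (nat_lit 0x82870700336060) (nat_lit 16) Lb.e (@T16.mk En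
    (@En.n l11294 (nat_lit 7073) (nat_lit 15) (nat_lit 3))
    (@En.n l5592 (nat_lit 13140) (nat_lit 0) (nat_lit 14))
    (@En.i (nat_lit 7176) (nat_lit 2) (nat_lit 6))
    (@En.n l6826 (nat_lit 8088) (nat_lit 4) (nat_lit 13))
    (@En.n l2579 (nat_lit 7034) (nat_lit 4) (nat_lit 8))
    (@En.n l899 (nat_lit 7221) (nat_lit 5) (nat_lit 9))
    (@En.n l152 (nat_lit 7167) (nat_lit 12) (nat_lit 4))
    (@En.n l3851 (nat_lit 7080) (nat_lit 7) (nat_lit 4))
    (@En.n l25493 (nat_lit 5511) (nat_lit 9) (nat_lit 10))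
    (@En.n l2125 (nat_lit 5569) (nat_lit 9) (nat_lit 4))
    (@En.n l3536 (nat_lit 7074) (nat_lit 11) (nat_lit 12))
    (@En.n l26178 (nat_lit 5413) (nat_lit 12) (nat_lit 12))
    (@En.n l2912 (nat_lit 3998) (nat_lit 13) (nat_lit 8))
    (@En.n l245 (nat_lit 7444) (nat_lit 14) (nat_lit 12))
    (@En.n l6826 (nat_lit 12462) (nat_lit 14) (nat_lit 7))
    (@En.n l7 (nat_lit 7079) (nat_lit 15) (nat_lit 2))))
  (@Cl.mk (nat_lit 0x20007000b0008000c0008000d00050004000300090008000d0008000e0003) (nat_lit 0x91852000337180) (nat_lit 16) Lb.e (@T16.mk En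
    (@En.n l117 (nat_lit 5538) (nat_lit 15) (nat_lit 3))
    (@En.n l15092 (nat_lit 13865) (nat_lit 0) (nat_lit 14))
    (@En.i (nat_lit 5289) (nat_lit 2) (nat_lit 8))
    (@En.n l810 (nat_lit 7615) (nat_lit 4) (nat_lit 13))
    (@En.n l77 (nat_lit 7026) (nat_lit 4) (nat_lit 8))
    (@En.n l6080 (nat_lit 7121) (nat_lit 5) (nat_lit 9))
    (@En.n l3180 (nat_lit 5537) (nat_lit 6) (nat_lit 3))
    (@En.n l18 (nat_lit 7074) (nat_lit 7) (nat_lit 4))
    (@En.n l6081 (nat_lit 5557) (nat_lit 8) (nat_lit 5))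
    (@En.i (nat_lit 666) (nat_lit 10) (nat_lit 13))
    (@En.n l61 (nat_lit 10880) (nat_lit 11) (nat_lit 8))
    (@En.n l8252 (nat_lit 5566) (nat_lit 12) (nat_lit 12))
    (@En.i (nat_lit 3633) (nat_lit 13) (nat_lit 8))
    (@En.n l4909 (nat_lit 7292) (nat_lit 14) (nat_lit 11))
    (@En.n l810 (nat_lit 10538) (nat_lit 14) (nat_lit 7))
    (@En.n l11 (nat_lit 7080) (nat_lit 15) (nat_lit 2))))
  (@Cl.mk (nat_lit 0x3000b00080007000c000c00050009000400040008000c0009000d00070004) (nat_lit 0x960000300300600) (nat_lit 16) Lb.e (@T16.mk En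
    (@En.n l29632 (nat_lit 7800) (nat_lit 0) (nat_lit 4))
    (@En.n l61 (nat_lit 7088) (nat_lit 0) (nat_lit 7))
    (@En.n l14455 (nat_lit 7036) (nat_lit 1) (nat_lit 13))
    (@En.i (nat_lit 7933) (nat_lit 3) (nat_lit 9))
    (@En.n l41586 (nat_lit 7302) (nat_lit 7) (nat_lit 12))
    (@En.n l38348 (nat_lit 10427) (nat_lit 11) (nat_lit 8))
    (@En.n l43642 (nat_lit 7675) (nat_lit 12) (nat_lit 4))
    (@En.i (nat_lit 10460) (nat_lit 0) (nat_lit 4))
    (@En.i (nat_lit 5538) (nat_lit 0) (nat_lit 9))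
    (@En.n l1992 (nat_lit 9998) (nat_lit 1) (nat_lit 5))
    (@En.n l619 (nat_lit 7082) (nat_lit 4) (nat_lit 12))
    (@En.i (nat_lit 10887) (nat_lit 12) (nat_lit 12))
    (@En.n l77 (nat_lit 8695) (nat_lit 13) (nat_lit 7))
    (@En.n l42005 (nat_lit 8855) (nat_lit 14) (nat_lit 8))
    (@En.i (nat_lit 11548) (nat_lit 14) (nat_lit 11))
    (@En.n l18 (nat_lit 7084) (nat_lit 13) (nat_lit 3))))
  (@Cl.mk (nat_lit 0x20008000c0009000d000800040003000c00080007000c00040008000e0004) (nat_lit 0x4004000a50a0210) (nat_lit 16) Lb.e (@T16.mk En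
    (@En.n l117 (nat_lit 7081) (nat_lit 7) (nat_lit 4))
    (@En.n l25506 (nat_lit 6243) (nat_lit 1) (nat_lit 14))
    (@En.i (nat_lit 7080) (nat_lit 2) (nat_lit 8))
    (@En.n l2576 (nat_lit 7496) (nat_lit 3) (nat_lit 4))
    (@En.n l810 (nat_lit 10883) (nat_lit 0) (nat_lit 12))
    (@En.n l77 (nat_lit 8693) (nat_lit 5) (nat_lit 7))
    (@En.i (nat_lit 8919) (nat_lit 6) (nat_lit 8))
    (@En.i (nat_lit 11547) (nat_lit 8) (nat_lit 12))
    (@En.n l18 (nat_lit 7083) (nat_lit 8) (nat_lit 3))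
    (@En.n l3348 (nat_lit 7797) (nat_lit 9) (nat_lit 4))
    (@En.n l61 (nat_lit 7086) (nat_lit 11) (nat_lit 8))
    (@En.n l25506 (nat_lit 7029) (nat_lit 12) (nat_lit 13))
    (@En.i (nat_lit 7930) (nat_lit 13) (nat_lit 9))
    (@En.n l25506 (nat_lit 7301) (nat_lit 14) (nat_lit 12))
    (@En.n l810 (nat_lit 10376) (nat_lit 5) (nat_lit 8))
    (@En.n l11 (nat_lit 7082) (nat_lit 15) (nat_lit 2))))
  (@Cl.mk (nat_lit 0x20008000d0009000d000300090003000c00080007000c00040007000e0004) (nat_lit 0x4606030a5090050) (nat_lit 16) Lb.e (@T16.mk En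
    (@En.n l117 (nat_lit 7084) (nat_lit 5) (nat_lit 4))
    (@En.i (nat_lit 6244) (nat_lit 1) (nat_lit 14))
    (@En.i (nat_lit 7074) (nat_lit 2) (nat_lit 7))
    (@En.n l2576 (nat_lit 7495) (nat_lit 3) (nat_lit 4))
    (@En.n l810 (nat_lit 10889) (nat_lit 0) (nat_lit 12))
    (@En.n l77 (nat_lit 8692) (nat_lit 5) (nat_lit 7))
    (@En.i (nat_lit 8920) (nat_lit 6) (nat_lit 8))
    (@En.i (nat_lit 7086) (nat_lit 8) (nat_lit 12))
    (@En.i (nat_lit 7082) (nat_lit 8) (nat_lit 3))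
    (@En.i (nat_lit 6838) (nat_lit 10) (nat_lit 9))
    (@En.i (nat_lit 7085) (nat_lit 10) (nat_lit 3))
    (@En.i (nat_lit 7067) (nat_lit 0) (nat_lit 13))
    (@En.i (nat_lit 7929) (nat_lit 13) (nat_lit 9))
    (@En.n l1599 (nat_lit 7450) (nat_lit 14) (nat_lit 13))
    (@En.n l810 (nat_lit 10375) (nat_lit 3) (nat_lit 8))
    (@En.n l11 (nat_lit 7083) (nat_lit 15) (nat_lit 2))))
  (@Cl.mk (nat_lit 0x300080003000b00080007000c000c00050008000400040008000d0009000d) (nat_lit 0x309600a01003a05) (nat_lit 16) Lb.e (@T16.mk En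
    (@En.n l6825 (nat_lit 7063) (nat_lit 0) (nat_lit 13))
    (@En.i (nat_lit 7932) (nat_lit 3) (nat_lit 9))
    (@En.n l1836 (nat_lit 10006) (nat_lit 2) (nat_lit 13))
    (@En.i (nat_lit 10428) (nat_lit 11) (nat_lit 8))
    (@En.n l7126 (nat_lit 7093) (nat_lit 12) (nat_lit 4))
    (@En.i (nat_lit 10461) (nat_lit 0) (nat_lit 4))
    (@En.i (nat_lit 7068) (nat_lit 10) (nat_lit 8))
    (@En.n l1992 (nat_lit 9999) (nat_lit 1) (nat_lit 5))
    (@En.n l619 (nat_lit 7083) (nat_lit 4) (nat_lit 12))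
    (@En.i (nat_lit 10890) (nat_lit 10) (nat_lit 12))
    (@En.n l77 (nat_lit 8694) (nat_lit 13) (nat_lit 7))
    (@En.n l1769 (nat_lit 8854) (nat_lit 14) (nat_lit 8))
    (@En.i (nat_lit 7088) (nat_lit 13) (nat_lit 11))
    (@En.i (nat_lit 7081) (nat_lit 15) (nat_lit 3))
    (@En.i (nat_lit 6841) (nat_lit 0) (nat_lit 8))
    (@En.i (nat_lit 7087) (nat_lit 15) (nat_lit 3))))
  (@Cl.mk (nat_lit 0x20008000d000c000a000300090004000c00080006000c00040007000e0004) (nat_lit 0x4a13010a4090010) (nat_lit 16) Lb.e (@T16.mk En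
    (@En.n l117 (nat_lit 7087) (nat_lit 5) (nat_lit 4))
    (@En.n l12316 (nat_lit 4503) (nat_lit 1) (nat_lit 14))
    (@En.i (nat_lit 7078) (nat_lit 2) (nat_lit 7))
    (@En.n l2576 (nat_lit 7498) (nat_lit 3) (nat_lit 4))
    (@En.n l810 (nat_lit 10256) (nat_lit 0) (nat_lit 12))
    (@En.n l6029 (nat_lit 8510) (nat_lit 5) (nat_lit 6))
    (@En.n l34771 (nat_lit 8917) (nat_lit 6) (nat_lit 8))
    (@En.i (nat_lit 7090) (nat_lit 8) (nat_lit 12))
    (@En.n l6029 (nat_lit 7091) (nat_lit 8) (nat_lit 4))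
    (@En.n l998 (nat_lit 6206) (nat_lit 10) (nat_lit 9))
    (@En.n l50 (nat_lit 7083) (nat_lit 10) (nat_lit 3))
    (@En.n l34772 (nat_lit 7005) (nat_lit 0) (nat_lit 10))
    (@En.n l217 (nat_lit 7082) (nat_lit 13) (nat_lit 12))
    (@En.n l1599 (nat_lit 6864) (nat_lit 14) (nat_lit 13))
    (@En.n l810 (nat_lit 10374) (nat_lit 3) (nat_lit 8))
    (@En.n l11 (nat_lit 7085) (nat_lit 15) (nat_lit 2))))
  (@Cl.mk (nat_lit 0x20009000d000a000800030009000c00070006000b000400080007000e0005) (nat_lit 0x4706039004040b0) (nat_lit 16) Lb.e (@T16.mk En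
    (@En.n l117 (nat_lit 7088) (nat_lit 5) (nat_lit 5))
    (@En.n l13103 (nat_lit 11142) (nat_lit 1) (nat_lit 14))
    (@En.n l17 (nat_lit 7083) (nat_lit 2) (nat_lit 7))
    (@En.i (nat_lit 10880) (nat_lit 3) (nat_lit 8))
    (@En.n l2576 (nat_lit 7492) (nat_lit 4) (nat_lit 4))
    (@En.n l810 (nat_lit 10892) (nat_lit 0) (nat_lit 11))
    (@En.n l77 (nat_lit 8691) (nat_lit 6) (nat_lit 6))
    (@En.n l5646 (nat_lit 9338) (nat_lit 7) (nat_lit 7))
    (@En.i (nat_lit 11540) (nat_lit 9) (nat_lit 12))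
    (@En.i (nat_lit 6835) (nat_lit 10) (nat_lit 9))
    (@En.i (nat_lit 7090) (nat_lit 10) (nat_lit 3))
    (@En.n l6606 (nat_lit 11035) (nat_lit 0) (nat_lit 8))
    (@En.i (nat_lit 7931) (nat_lit 13) (nat_lit 10))
    (@En.n l1599 (nat_lit 10010) (nat_lit 14) (nat_lit 13))
    (@En.n l810 (nat_lit 10373) (nat_lit 3) (nat_lit 9))
    (@En.n l11 (nat_lit 7086) (nat_lit 15) (nat_lit 2))))
  (@Cl.mk (nat_lit 0x300080004000b00080006000c000c00050008000400040008000d000c000a) (nat_lit 0x309500a01003b13) (nat_lit 16) Lb.e (@T16.mk En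
    (@En.n l2826 (nat_lit 7006) (nat_lit 0) (nat_lit 10))
    (@En.n l217 (nat_lit 7081) (nat_lit 4) (nat_lit 12))
    (@En.n l1836 (nat_lit 6868) (nat_lit 2) (nat_lit 13))
    (@En.n l38349 (nat_lit 6221) (nat_lit 11) (nat_lit 8))
    (@En.n l7098 (nat_lit 7672) (nat_lit 12) (nat_lit 4))
    (@En.n l31750 (nat_lit 10464) (nat_lit 0) (nat_lit 4))
    (@En.i (nat_lit 7072) (nat_lit 10) (nat_lit 8))
    (@En.n l1992 (nat_lit 10000) (nat_lit 1) (nat_lit 5))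
    (@En.n l619 (nat_lit 7085) (nat_lit 4) (nat_lit 12))
    (@En.i (nat_lit 10897) (nat_lit 10) (nat_lit 12))
    (@En.n l12788 (nat_lit 8520) (nat_lit 10) (nat_lit 6))
    (@En.n l31062 (nat_lit 8849) (nat_lit 12) (nat_lit 8))
    (@En.i (nat_lit 7089) (nat_lit 13) (nat_lit 11))
    (@En.n l50 (nat_lit 7092) (nat_lit 7) (nat_lit 4))
    (@En.n l31062 (nat_lit 8802) (nat_lit 0) (nat_lit 8))
    (@En.n l50 (nat_lit 7084) (nat_lit 15) (nat_lit 3))))
noncomputable def a443 : T16 Cl := @T16.mk Cl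
  (@Cl.mk (nat_lit 0x30008000b00070006000b000b000500090008000500050009000d000a0007) (nat_lit 0x380005002003900) (nat_lit 16) Lb.e (@T16.mk En
    (@En.n l19309 (nat_lit 11001) (nat_lit 0) (nat_lit 7))
    (@En.i (nat_lit 11224) (nat_lit 12) (nat_lit 10))
    (@En.n l1836 (nat_lit 10007) (nat_lit 6) (nat_lit 13))
    (@En.n l38347 (nat_lit 6224) (nat_lit 10) (nat_lit 9))
    (@En.n l7126 (nat_lit 7676) (nat_lit 11) (nat_lit 5))
    (@En.i (nat_lit 11987) (nat_lit 5) (nat_lit 5))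
    (@En.n l17 (nat_lit 7084) (nat_lit 6) (nat_lit 8))
    (@En.i (nat_lit 9165) (nat_lit 10) (nat_lit 9))
    (@En.n l1992 (nat_lit 10001) (nat_lit 8) (nat_lit 5))
    (@En.n l619 (nat_lit 7086) (nat_lit 5) (nat_lit 11))
    (@En.i (nat_lit 10893) (nat_lit 11) (nat_lit 11))
    (@En.n l77 (nat_lit 8153) (nat_lit 10) (nat_lit 6))
    (@En.n l36657 (nat_lit 9336) (nat_lit 13) (nat_lit 7))
    (@En.i (nat_lit 11533) (nat_lit 7) (nat_lit 11))
    (@En.i (nat_lit 6840) (nat_lit 12) (nat_lit 8))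
    (@En.i (nat_lit 7089) (nat_lit 15) (nat_lit 3))))
  (@Cl.mk (nat_lit 0x30008000b00070005000b000b0005000a0008000500050009000d0006000b) (nat_lit 0x280009062004803) (nat_lit 16) Lb.e (@T16.mk En
    (@En.n l42405 (nat_lit 7004) (nat_lit 0) (nat_lit 11))
    (@En.i (nat_lit 8008) (nat_lit 8) (nat_lit 6))
    (@En.n l33039 (nat_lit 10008) (nat_lit 6) (nat_lit 13))
    (@En.n l42406 (nat_lit 6219) (nat_lit 10) (nat_lit 9))
    (@En.n l1147 (nat_lit 7673) (nat_lit 11) (nat_lit 5))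
    (@En.n l29989 (nat_lit 11986) (nat_lit 5) (nat_lit 5))
    (@En.n l17 (nat_lit 7087) (nat_lit 6) (nat_lit 8))
    (@En.n l38899 (nat_lit 10158) (nat_lit 1) (nat_lit 10))
    (@En.n l42407 (nat_lit 10004) (nat_lit 8) (nat_lit 5))
    (@En.n l619 (nat_lit 7090) (nat_lit 5) (nat_lit 11))
    (@En.i (nat_lit 10896) (nat_lit 11) (nat_lit 11))
    (@En.n l33032 (nat_lit 8422) (nat_lit 11) (nat_lit 5))
    (@En.n l38190 (nat_lit 9337) (nat_lit 13) (nat_lit 7))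
    (@En.n l10402 (nat_lit 11536) (nat_lit 7) (nat_lit 11))
    (@En.n l37878 (nat_lit 8804) (nat_lit 12) (nat_lit 8))
    (@En.n l50 (nat_lit 7088) (nat_lit 15) (nat_lit 3))))
  (@Cl.mk (nat_lit 0x20009000d0007000b00030009000c00070005000b000400090007000e0005) (nat_lit 0x4703019008050a0) (nat_lit 16) Lb.e (@T16.mk En
    (@En.n l117 (nat_lit 7089) (nat_lit 5) (nat_lit 5))
    (@En.n l20265 (nat_lit 11144) (nat_lit 1) (nat_lit 14))
    (@En.n l17 (nat_lit 7085) (nat_lit 2) (nat_lit 7))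
    (@En.i (nat_lit 10270) (nat_lit 3) (nat_lit 9))
    (@En.n l10252 (nat_lit 7528) (nat_lit 4) (nat_lit 4))
    (@En.n l810 (nat_lit 10895) (nat_lit 0) (nat_lit 11))
    (@En.n l3871 (nat_lit 8414) (nat_lit 6) (nat_lit 5))
    (@En.n l37188 (nat_lit 9339) (nat_lit 7) (nat_lit 7))
    (@En.n l3871 (nat_lit 11541) (nat_lit 9) (nat_lit 12))
    (@En.n l998 (nat_lit 6210) (nat_lit 10) (nat_lit 9))
    (@En.n l50 (nat_lit 7086) (nat_lit 10) (nat_lit 3))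
    (@En.n l3871 (nat_lit 7002) (nat_lit 0) (nat_lit 11))
    (@En.i (nat_lit 8014) (nat_lit 13) (nat_lit 7))
    (@En.n l20263 (nat_lit 10014) (nat_lit 14) (nat_lit 13))
    (@En.n l810 (nat_lit 10372) (nat_lit 3) (nat_lit 9))
    (@En.n l11 (nat_lit 7090) (nat_lit 15) (nat_lit 2))))
  (@Cl.mk (nat_lit 0x20008000c000c0007000b00040004000c00080005000c00040009000e0004) (nat_lit 0x500040083000290) (nat_lit 16) Lb.e (@T16.mk En
    (@En.n l13958 (nat_lit 7092) (nat_lit 15) (nat_lit 4))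
    (@En.n l16802 (nat_lit 6415) (nat_lit 1) (nat_lit 14))
    (@En.n l4172 (nat_lit 7248) (nat_lit 2) (nat_lit 9))
    (@En.n l685 (nat_lit 6341) (nat_lit 3) (nat_lit 4))
    (@En.n l14088 (nat_lit 10251) (nat_lit 5) (nat_lit 12))
    (@En.i (nat_lit 6876) (nat_lit 5) (nat_lit 5))
    (@En.n l14174 (nat_lit 8916) (nat_lit 6) (nat_lit 8))
    (@En.n l5579 (nat_lit 11549) (nat_lit 8) (nat_lit 12))
    (@En.n l11 (nat_lit 7094) (nat_lit 12) (nat_lit 4))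
    (@En.n l2254 (nat_lit 7082) (nat_lit 9) (nat_lit 4))
    (@En.i (nat_lit 3762) (nat_lit 11) (nat_lit 11))
    (@En.n l7967 (nat_lit 7090) (nat_lit 12) (nat_lit 7))
    (@En.n l16634 (nat_lit 7797) (nat_lit 13) (nat_lit 12))
    (@En.n l1596 (nat_lit 9535) (nat_lit 14) (nat_lit 12))
    (@En.n l32922 (nat_lit 8117) (nat_lit 4) (nat_lit 8))
    (@En.n l17 (nat_lit 7091) (nat_lit 15) (nat_lit 2))))
  (@Cl.mk (nat_lit 0x400040008000c000c0006000b00040004000b00080005000c000c0005000a) (nat_lit 0x38004007300103) (nat_lit 16) Lb.e (@T16.mk En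
    (@En.n l30813 (nat_lit 7249) (nat_lit 0) (nat_lit 10))
    (@En.n l40779 (nat_lit 7987) (nat_lit 1) (nat_lit 5))
    (@En.n l40780 (nat_lit 7091) (nat_lit 4) (nat_lit 12))
    (@En.n l22963 (nat_lit 8715) (nat_lit 11) (nat_lit 12))
    (@En.n l4476 (nat_lit 6877) (nat_lit 4) (nat_lit 5))
    (@En.n l40779 (nat_lit 8813) (nat_lit 13) (nat_lit 8))
    (@En.n l16699 (nat_lit 11552) (nat_lit 14) (nat_lit 11))
    (@En.n l40781 (nat_lit 7095) (nat_lit 12) (nat_lit 4))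
    (@En.i (nat_lit 7081) (nat_lit 0) (nat_lit 4))
    (@En.n l40779 (nat_lit 3691) (nat_lit 0) (nat_lit 11))
    (@En.n l742 (nat_lit 7089) (nat_lit 1) (nat_lit 6))
    (@En.n l30667 (nat_lit 7800) (nat_lit 4) (nat_lit 12))
    (@En.n l40782 (nat_lit 9537) (nat_lit 7) (nat_lit 12))
    (@En.n l40783 (nat_lit 8119) (nat_lit 11) (nat_lit 8))
    (@En.n l28386 (nat_lit 7674) (nat_lit 12) (nat_lit 4))
    (@En.n l40784 (nat_lit 7098) (nat_lit 0) (nat_lit 4))))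
  (@Cl.mk (nat_lit 0x20006000900040008000d0009000d000300070003000a00080007000e000c) (nat_lit 0x30286600075011) (nat_lit 16) Lb.e (@T16.mk En
    (@En.n l4270 (nat_lit 7084) (nat_lit 9) (nat_lit 12))
    (@En.n l3749 (nat_lit 5178) (nat_lit 1) (nat_lit 14))
    (@En.n l1357 (nat_lit 10976) (nat_lit 2) (nat_lit 7))
    (@En.n l725 (nat_lit 8852) (nat_lit 3) (nat_lit 8))
    (@En.i (nat_lit 7676) (nat_lit 4) (nat_lit 10))
    (@En.n l2832 (nat_lit 7675) (nat_lit 5) (nat_lit 3))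
    (@En.i (nat_lit 6903) (nat_lit 6) (nat_lit 7))
    (@En.n l30468 (nat_lit 7672) (nat_lit 7) (nat_lit 3))
    (@En.i (nat_lit 7061) (nat_lit 0) (nat_lit 13))
    (@En.n l24823 (nat_lit 11220) (nat_lit 10) (nat_lit 9))
    (@En.n l24824 (nat_lit 10611) (nat_lit 11) (nat_lit 13))
    (@En.i (nat_lit 5537) (nat_lit 12) (nat_lit 8))
    (@En.n l3749 (nat_lit 10457) (nat_lit 13) (nat_lit 4))
    (@En.i (nat_lit 7069) (nat_lit 14) (nat_lit 9))
    (@En.i (nat_lit 10546) (nat_lit 6) (nat_lit 6))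
    (@En.n l50 (nat_lit 7093) (nat_lit 15) (nat_lit 2))))
  (@Cl.mk (nat_lit 0x20008000c0004000c00080004000c00040008000e000400020008000e000c) (nat_lit 0x150820002100491) (nat_lit 16) Lb.e (@T16.mk En
    (@En.n l68 (nat_lit 7091) (nat_lit 13) (nat_lit 12))
    (@En.n l831 (nat_lit 6860) (nat_lit 1) (nat_lit 14))
    (@En.n l13031 (nat_lit 8124) (nat_lit 2) (nat_lit 8))
    (@En.n l17 (nat_lit 7094) (nat_lit 3) (nat_lit 2))
    (@En.n l15799 (nat_lit 7095) (nat_lit 4) (nat_lit 4))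
    (@En.n l23889 (nat_lit 6411) (nat_lit 6) (nat_lit 14))
    (@En.n l4172 (nat_lit 6972) (nat_lit 2) (nat_lit 8))
    (@En.n l23890 (nat_lit 6770) (nat_lit 3) (nat_lit 4))
    (@En.n l23891 (nat_lit 10245) (nat_lit 9) (nat_lit 12))
    (@En.i (nat_lit 7001) (nat_lit 9) (nat_lit 4))
    (@En.n l14174 (nat_lit 8914) (nat_lit 6) (nat_lit 8))
    (@En.n l23892 (nat_lit 6472) (nat_lit 12) (nat_lit 12))
    (@En.n l1055 (nat_lit 7085) (nat_lit 8) (nat_lit 4))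
    (@En.i (nat_lit 3770) (nat_lit 10) (nat_lit 12))
    (@En.n l23893 (nat_lit 6205) (nat_lit 11) (nat_lit 8))
    (@En.n l67 (nat_lit 7094) (nat_lit 15) (nat_lit 2))))
  (@Cl.mk (nat_lit 0x20007000c0004000b00080004000c000c00050009000400040008000e000c) (nat_lit 0x307200103003c9) (nat_lit 16) Lb.e (@T16.mk En
    (@En.n l27885 (nat_lit 7092) (nat_lit 12) (nat_lit 12))
    (@En.n l4316 (nat_lit 6862) (nat_lit 1) (nat_lit 14))
    (@En.n l8087 (nat_lit 8126) (nat_lit 2) (nat_lit 8))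
    (@En.n l5760 (nat_lit 7671) (nat_lit 12) (nat_lit 4))
    (@En.n l152 (nat_lit 7096) (nat_lit 4) (nat_lit 4))
    (@En.n l3087 (nat_lit 6974) (nat_lit 5) (nat_lit 9))
    (@En.i (nat_lit 7985) (nat_lit 6) (nat_lit 5))
    (@En.n l15891 (nat_lit 7094) (nat_lit 8) (nat_lit 12))
    (@En.n l21461 (nat_lit 10249) (nat_lit 9) (nat_lit 12))
    (@En.n l27886 (nat_lit 7003) (nat_lit 9) (nat_lit 4))
    (@En.i (nat_lit 8846) (nat_lit 11) (nat_lit 8))
    (@En.n l3571 (nat_lit 6476) (nat_lit 12) (nat_lit 11))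
    (@En.n l21461 (nat_lit 7087) (nat_lit 13) (nat_lit 4))
    (@En.i (nat_lit 3774) (nat_lit 14) (nat_lit 12))
    (@En.n l3087 (nat_lit 8803) (nat_lit 1) (nat_lit 7))
    (@En.n l50 (nat_lit 7095) (nat_lit 15) (nat_lit 2))))
  (@Cl.mk (nat_lit 0x20009000c0004000a00080004000c0007000d0006000400030008000e000c) (nat_lit 0x750630002000240) (nat_lit 16) Lb.e (@T16.mk En
    (@En.n l396 (nat_lit 7098) (nat_lit 13) (nat_lit 12))
    (@En.n l4316 (nat_lit 9827) (nat_lit 1) (nat_lit 14))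
    (@En.n l287 (nat_lit 9580) (nat_lit 2) (nat_lit 8))
    (@En.n l11 (nat_lit 7099) (nat_lit 3) (nat_lit 3))
    (@En.n l6442 (nat_lit 7094) (nat_lit 4) (nat_lit 4))
    (@En.i (nat_lit 7106) (nat_lit 5) (nat_lit 6))
    (@En.n l4073 (nat_lit 6412) (nat_lit 7) (nat_lit 13))
    (@En.n l10356 (nat_lit 7097) (nat_lit 7) (nat_lit 7))
    (@En.i (nat_lit 10254) (nat_lit 9) (nat_lit 12))
    (@En.n l6442 (nat_lit 7000) (nat_lit 9) (nat_lit 4))
    (@En.i (nat_lit 8863) (nat_lit 11) (nat_lit 8))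
    (@En.n l10459 (nat_lit 9775) (nat_lit 12) (nat_lit 10))
    (@En.n l3098 (nat_lit 10464) (nat_lit 8) (nat_lit 4))
    (@En.i (nat_lit 4000) (nat_lit 14) (nat_lit 12))
    (@En.n l4073 (nat_lit 10501) (nat_lit 11) (nat_lit 9))
    (@En.n l50 (nat_lit 7096) (nat_lit 15) (nat_lit 2))))
  (@Cl.mk (nat_lit 0x200090007000c0005000b000900040007000d0005000900030007000e000b) (nat_lit 0x506075004030080) (nat_lit 16) Lb.e (@T16.mk En
    (@En.n l24102 (nat_lit 7105) (nat_lit 13) (nat_lit 11))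
    (@En.n l7 (nat_lit 9828) (nat_lit 1) (nat_lit 14))
    (@En.n l644 (nat_lit 9582) (nat_lit 2) (nat_lit 7))
    (@En.n l20955 (nat_lit 7101) (nat_lit 3) (nat_lit 3))
    (@En.n l992 (nat_lit 5805) (nat_lit 0) (nat_lit 9))
    (@En.n l10166 (nat_lit 7986) (nat_lit 5) (nat_lit 5))
    (@En.n l5838 (nat_lit 6416) (nat_lit 7) (nat_lit 13))
    (@En.n l3034 (nat_lit 12310) (nat_lit 11) (nat_lit 7))
    (@En.n l6238 (nat_lit 6484) (nat_lit 8) (nat_lit 4))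
    (@En.n l10166 (nat_lit 8864) (nat_lit 10) (nat_lit 9))
    (@En.n l3036 (nat_lit 9774) (nat_lit 11) (nat_lit 11))
    (@En.n l24103 (nat_lit 11791) (nat_lit 7) (nat_lit 5))
    (@En.n l23413 (nat_lit 7096) (nat_lit 13) (nat_lit 12))
    (@En.n l23413 (nat_lit 7095) (nat_lit 14) (nat_lit 7))
    (@En.i (nat_lit 11957) (nat_lit 11) (nat_lit 9))
    (@En.n l3 (nat_lit 7097) (nat_lit 15) (nat_lit 2))))
  (@Cl.mk (nat_lit 0x30008000c000c0008000b00040004000a00080005000c0008000d00060004) (nat_lit 0x2a0420074004100) (nat_lit 16) Lb.e (@T16.mk En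
    (@En.n l6442 (nat_lit 7091) (nat_lit 0) (nat_lit 4))
    (@En.i (nat_lit 7107) (nat_lit 0) (nat_lit 6))
    (@En.n l30751 (nat_lit 6336) (nat_lit 1) (nat_lit 13))
    (@En.n l30752 (nat_lit 7105) (nat_lit 3) (nat_lit 8))
    (@En.n l30753 (nat_lit 10255) (nat_lit 11) (nat_lit 12))
    (@En.n l6442 (nat_lit 6880) (nat_lit 5) (nat_lit 5))
    (@En.i (nat_lit 8806) (nat_lit 6) (nat_lit 8))
    (@En.n l6443 (nat_lit 11775) (nat_lit 8) (nat_lit 10))
    (@En.n l18 (nat_lit 7096) (nat_lit 12) (nat_lit 4))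
    (@En.n l30754 (nat_lit 10460) (nat_lit 9) (nat_lit 4))
    (@En.i (nat_lit 3689) (nat_lit 7) (nat_lit 11))
    (@En.n l9088 (nat_lit 11983) (nat_lit 12) (nat_lit 8))
    (@En.n l30755 (nat_lit 7798) (nat_lit 4) (nat_lit 12))
    (@En.n l30753 (nat_lit 9539) (nat_lit 7) (nat_lit 12))
    (@En.n l287 (nat_lit 7394) (nat_lit 4) (nat_lit 8))
    (@En.n l11 (nat_lit 7102) (nat_lit 13) (nat_lit 3))))
  (@Cl.mk (nat_lit 0x20009000c0004000900080004000d0007000d0003000700030008000e000c) (nat_lit 0x500306020001c0) (nat_lit 16) Lb.e (@T16.mk En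
    (@En.n l396 (nat_lit 7102) (nat_lit 11) (nat_lit 12))
    (@En.n l4316 (nat_lit 9825) (nat_lit 1) (nat_lit 14))
    (@En.n l2650 (nat_lit 4549) (nat_lit 2) (nat_lit 8))
    (@En.i (nat_lit 7096) (nat_lit 3) (nat_lit 3))
    (@En.i (nat_lit 11228) (nat_lit 0) (nat_lit 7))
    (@En.n l117 (nat_lit 7100) (nat_lit 5) (nat_lit 3))
    (@En.n l170 (nat_lit 6414) (nat_lit 7) (nat_lit 13))
    (@En.i (nat_lit 7101) (nat_lit 7) (nat_lit 7))
    (@En.i (nat_lit 10204) (nat_lit 9) (nat_lit 13))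
    (@En.n l3219 (nat_lit 7007) (nat_lit 9) (nat_lit 4))
    (@En.i (nat_lit 8861) (nat_lit 11) (nat_lit 8))
    (@En.n l3213 (nat_lit 11141) (nat_lit 12) (nat_lit 9))
    (@En.n l3098 (nat_lit 10462) (nat_lit 6) (nat_lit 4))
    (@En.i (nat_lit 4001) (nat_lit 14) (nat_lit 12))
    (@En.i (nat_lit 10499) (nat_lit 1) (nat_lit 9))
    (@En.n l50 (nat_lit 7099) (nat_lit 15) (nat_lit 2))))
  (@Cl.mk (nat_lit 0x20008000c0004000900080004000d000c00080003000700040008000e000c) (nat_lit 0x4200305150001c0) (nat_lit 16) Lb.e (@T16.mk En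
    (@En.n l396 (nat_lit 7103) (nat_lit 11) (nat_lit 12))
    (@En.n l4316 (nat_lit 9824) (nat_lit 1) (nat_lit 14))
    (@En.n l27012 (nat_lit 4531) (nat_lit 2) (nat_lit 8))
    (@En.i (nat_lit 7095) (nat_lit 3) (nat_lit 4))
    (@En.n l19713 (nat_lit 11215) (nat_lit 4) (nat_lit 7))
    (@En.n l152 (nat_lit 7099) (nat_lit 5) (nat_lit 3))
    (@En.i (nat_lit 7998) (nat_lit 0) (nat_lit 8))
    (@En.n l619 (nat_lit 7096) (nat_lit 8) (nat_lit 12))
    (@En.i (nat_lit 10205) (nat_lit 9) (nat_lit 13))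
    (@En.n l12842 (nat_lit 7008) (nat_lit 9) (nat_lit 4))
    (@En.i (nat_lit 8850) (nat_lit 11) (nat_lit 8))
    (@En.n l4316 (nat_lit 11140) (nat_lit 12) (nat_lit 9))
    (@En.i (nat_lit 10463) (nat_lit 6) (nat_lit 4))
    (@En.i (nat_lit 3965) (nat_lit 14) (nat_lit 12))
    (@En.i (nat_lit 10497) (nat_lit 1) (nat_lit 8))
    (@En.n l50 (nat_lit 7100) (nat_lit 15) (nat_lit 2))))
  (@Cl.mk (nat_lit 0x200090008000c0005000a000900040007000d0008000600030007000e000b) (nat_lit 0x56005003300020) (nat_lit 16) Lb.e (@T16.mk En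
    (@En.n l396 (nat_lit 7104) (nat_lit 13) (nat_lit 11))
    (@En.n l4316 (nat_lit 9826) (nat_lit 1) (nat_lit 14))
    (@En.n l2650 (nat_lit 4548) (nat_lit 2) (nat_lit 7))
    (@En.n l10356 (nat_lit 7097) (nat_lit 3) (nat_lit 3))
    (@En.n l6731 (nat_lit 11227) (nat_lit 0) (nat_lit 6))
    (@En.i (nat_lit 7719) (nat_lit 5) (nat_lit 8))
    (@En.n l5236 (nat_lit 6417) (nat_lit 7) (nat_lit 13))
    (@En.n l3106 (nat_lit 12304) (nat_lit 11) (nat_lit 7))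
    (@En.n l3219 (nat_lit 6483) (nat_lit 8) (nat_lit 4))
    (@En.i (nat_lit 8862) (nat_lit 10) (nat_lit 9))
    (@En.n l3213 (nat_lit 11142) (nat_lit 11) (nat_lit 10))
    (@En.n l3098 (nat_lit 10423) (nat_lit 7) (nat_lit 5))
    (@En.n l3 (nat_lit 7099) (nat_lit 13) (nat_lit 12))
    (@En.n l3 (nat_lit 7100) (nat_lit 14) (nat_lit 8))
    (@En.i (nat_lit 10509) (nat_lit 11) (nat_lit 9))
    (@En.n l50 (nat_lit 7101) (nat_lit 15) (nat_lit 2))))
  (@Cl.mk (nat_lit 0x3000700030008000c000c0008000b00040004000900080005000d0008000d) (nat_lit 0x1a05200040742) (nat_lit 16) Lb.e (@T16.mk En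
    (@En.n l3749 (nat_lit 6337) (nat_lit 0) (nat_lit 13))
    (@En.i (nat_lit 7104) (nat_lit 3) (nat_lit 8))
    (@En.i (nat_lit 10208) (nat_lit 2) (nat_lit 13))
    (@En.n l3219 (nat_lit 7051) (nat_lit 3) (nat_lit 5))
    (@En.i (nat_lit 8808) (nat_lit 6) (nat_lit 8))
    (@En.n l6446 (nat_lit 10572) (nat_lit 5) (nat_lit 9))
    (@En.n l18 (nat_lit 7099) (nat_lit 12) (nat_lit 4))
    (@En.n l6081 (nat_lit 10456) (nat_lit 7) (nat_lit 4))
    (@En.i (nat_lit 3686) (nat_lit 7) (nat_lit 11))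
    (@En.n l3098 (nat_lit 11982) (nat_lit 12) (nat_lit 8))
    (@En.n l10895 (nat_lit 7801) (nat_lit 4) (nat_lit 12))
    (@En.n l3749 (nat_lit 9548) (nat_lit 7) (nat_lit 12))
    (@En.n l2650 (nat_lit 4522) (nat_lit 13) (nat_lit 8))
    (@En.i (nat_lit 7098) (nat_lit 15) (nat_lit 3))
    (@En.n l3219 (nat_lit 11226) (nat_lit 0) (nat_lit 7))
    (@En.n l117 (nat_lit 7103) (nat_lit 15) (nat_lit 3))))
  (@Cl.mk (nat_lit 0x3000700040008000c000c0007000b00040004000900080005000d000c0009) (nat_lit 0x1a60400040615) (nat_lit 16) Lb.e (@T16.mk En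
    (@En.i (nat_lit 7997) (nat_lit 0) (nat_lit 9))
    (@En.n l619 (nat_lit 7098) (nat_lit 4) (nat_lit 12))
    (@En.n l32975 (nat_lit 10207) (nat_lit 2) (nat_lit 13))
    (@En.n l12842 (nat_lit 7122) (nat_lit 3) (nat_lit 5))
    (@En.i (nat_lit 8811) (nat_lit 8) (nat_lit 8))
    (@En.n l24739 (nat_lit 10573) (nat_lit 5) (nat_lit 9))
    (@En.n l18 (nat_lit 7100) (nat_lit 12) (nat_lit 4))
    (@En.n l28329 (nat_lit 10458) (nat_lit 7) (nat_lit 4))
    (@En.i (nat_lit 3687) (nat_lit 8) (nat_lit 11))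
    (@En.i (nat_lit 10425) (nat_lit 1) (nat_lit 7))
    (@En.n l41234 (nat_lit 7802) (nat_lit 4) (nat_lit 12))
    (@En.n l28329 (nat_lit 9551) (nat_lit 7) (nat_lit 12))
    (@En.n l25392 (nat_lit 4520) (nat_lit 13) (nat_lit 8))
    (@En.n l41235 (nat_lit 7092) (nat_lit 14) (nat_lit 4))
    (@En.n l34121 (nat_lit 11110) (nat_lit 0) (nat_lit 7))
    (@En.n l152 (nat_lit 7102) (nat_lit 15) (nat_lit 3))))
noncomputable def a444 : T16 Cl := @T16.mk Cl
  (@Cl.mk (nat_lit 0x30007000b000b00080007000b00050005000a000900050008000d00090006) (nat_lit 0x90603000603800) (nat_lit 16) Lb.e (@T16.mk En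
    (@En.n l42353 (nat_lit 11225) (nat_lit 0) (nat_lit 6))
    (@En.i (nat_lit 8010) (nat_lit 13) (nat_lit 9))
    (@En.n l42354 (nat_lit 8147) (nat_lit 2) (nat_lit 13))
    (@En.n l23500 (nat_lit 12313) (nat_lit 10) (nat_lit 8))
    (@En.n l3219 (nat_lit 7130) (nat_lit 4) (nat_lit 5))
    (@En.i (nat_lit 8807) (nat_lit 5) (nat_lit 9))
    (@En.n l6446 (nat_lit 10575) (nat_lit 1) (nat_lit 10))
    (@En.n l18 (nat_lit 7101) (nat_lit 11) (nat_lit 5))
    (@En.n l6081 (nat_lit 10415) (nat_lit 8) (nat_lit 5))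
    (@En.n l3 (nat_lit 7102) (nat_lit 8) (nat_lit 11))
    (@En.n l3 (nat_lit 7103) (nat_lit 9) (nat_lit 7))
    (@En.n l7642 (nat_lit 11984) (nat_lit 12) (nat_lit 8))
    (@En.n l10895 (nat_lit 7803) (nat_lit 5) (nat_lit 11))
    (@En.n l3749 (nat_lit 9547) (nat_lit 8) (nat_lit 11))
    (@En.n l42355 (nat_lit 4524) (nat_lit 12) (nat_lit 7))
    (@En.n l30752 (nat_lit 7105) (nat_lit 15) (nat_lit 3))))
  (@Cl.mk (nat_lit 0x30007000b000b00080006000b00050005000b000900050008000d0005000a) (nat_lit 0x90503008603701) (nat_lit 16) Lb.e (@T16.mk En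
    (@En.n l38895 (nat_lit 5296) (nat_lit 0) (nat_lit 10))
    (@En.n l37878 (nat_lit 7988) (nat_lit 8) (nat_lit 5))
    (@En.i (nat_lit 8146) (nat_lit 2) (nat_lit 13))
    (@En.n l38896 (nat_lit 12314) (nat_lit 10) (nat_lit 8))
    (@En.n l27481 (nat_lit 6882) (nat_lit 4) (nat_lit 5))
    (@En.n l37878 (nat_lit 8805) (nat_lit 5) (nat_lit 9))
    (@En.n l28100 (nat_lit 11776) (nat_lit 1) (nat_lit 11))
    (@En.n l38897 (nat_lit 7097) (nat_lit 11) (nat_lit 5))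
    (@En.n l38898 (nat_lit 10416) (nat_lit 8) (nat_lit 5))
    (@En.n l38899 (nat_lit 7098) (nat_lit 10) (nat_lit 11))
    (@En.n l38898 (nat_lit 7092) (nat_lit 10) (nat_lit 6))
    (@En.n l29991 (nat_lit 11985) (nat_lit 12) (nat_lit 8))
    (@En.n l38900 (nat_lit 7799) (nat_lit 5) (nat_lit 11))
    (@En.i (nat_lit 9541) (nat_lit 8) (nat_lit 11))
    (@En.n l23331 (nat_lit 9414) (nat_lit 12) (nat_lit 7))
    (@En.n l32081 (nat_lit 7104) (nat_lit 15) (nat_lit 3))))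
  (@Cl.mk (nat_lit 0x20008000b0004000a000900090005000d00080006000300070007000e000c) (nat_lit 0x40613034000090) (nat_lit 16) Lb.e (@T16.mk En
    (@En.n l396 (nat_lit 7107) (nat_lit 12) (nat_lit 12))
    (@En.n l4316 (nat_lit 9829) (nat_lit 1) (nat_lit 14))
    (@En.n l4494 (nat_lit 11028) (nat_lit 9) (nat_lit 7))
    (@En.n l9826 (nat_lit 11220) (nat_lit 3) (nat_lit 7))
    (@En.n l117 (nat_lit 7985) (nat_lit 4) (nat_lit 3))
    (@En.n l11456 (nat_lit 8986) (nat_lit 0) (nat_lit 6))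
    (@En.i (nat_lit 7986) (nat_lit 6) (nat_lit 8))
    (@En.i (nat_lit 5591) (nat_lit 8) (nat_lit 13))
    (@En.n l3219 (nat_lit 6193) (nat_lit 8) (nat_lit 5))
    (@En.n l5995 (nat_lit 7980) (nat_lit 10) (nat_lit 9))
    (@En.i (nat_lit 7099) (nat_lit 11) (nat_lit 9))
    (@En.n l9264 (nat_lit 11547) (nat_lit 12) (nat_lit 10))
    (@En.n l3098 (nat_lit 9039) (nat_lit 7) (nat_lit 4))
    (@En.i (nat_lit 3986) (nat_lit 7) (nat_lit 11))
    (@En.i (nat_lit 9914) (nat_lit 1) (nat_lit 8))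
    (@En.n l50 (nat_lit 7106) (nat_lit 15) (nat_lit 2))))
  (@Cl.mk (nat_lit 0x300070007000c000c0007000a00040004000a000900090006000d00090006) (nat_lit 0xa004008140850) (nat_lit 16) Lb.e (@T16.mk En
    (@En.n l39329 (nat_lit 8977) (nat_lit 0) (nat_lit 6))
    (@En.i (nat_lit 7988) (nat_lit 9) (nat_lit 9))
    (@En.n l39330 (nat_lit 5593) (nat_lit 2) (nat_lit 13))
    (@En.n l3219 (nat_lit 6666) (nat_lit 3) (nat_lit 6))
    (@En.n l15824 (nat_lit 7983) (nat_lit 7) (nat_lit 9))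
    (@En.i (nat_lit 7102) (nat_lit 5) (nat_lit 9))
    (@En.n l15825 (nat_lit 11401) (nat_lit 7) (nat_lit 10))
    (@En.n l18 (nat_lit 7106) (nat_lit 12) (nat_lit 4))
    (@En.n l39331 (nat_lit 9997) (nat_lit 8) (nat_lit 4))
    (@En.i (nat_lit 3912) (nat_lit 8) (nat_lit 10))
    (@En.n l3098 (nat_lit 10790) (nat_lit 1) (nat_lit 7))
    (@En.n l39332 (nat_lit 7804) (nat_lit 4) (nat_lit 12))
    (@En.n l3749 (nat_lit 10589) (nat_lit 13) (nat_lit 12))
    (@En.n l39333 (nat_lit 11030) (nat_lit 9) (nat_lit 7))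
    (@En.n l30690 (nat_lit 7932) (nat_lit 12) (nat_lit 7))
    (@En.n l117 (nat_lit 7987) (nat_lit 15) (nat_lit 3))))
  (@Cl.mk (nat_lit 0x200090003000d0007000b0003000c0007000d0005000400030009000e000d) (nat_lit 0x309010505000487) (nat_lit 16) Lb.e (@T16.mk En
    (@En.n l3013 (nat_lit 3927) (nat_lit 2) (nat_lit 13))
    (@En.n l936 (nat_lit 10233) (nat_lit 1) (nat_lit 14))
    (@En.n l9885 (nat_lit 7114) (nat_lit 2) (nat_lit 9))
    (@En.n l25032 (nat_lit 3923) (nat_lit 3) (nat_lit 3))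
    (@En.n l11683 (nat_lit 7066) (nat_lit 4) (nat_lit 4))
    (@En.n l2316 (nat_lit 5555) (nat_lit 5) (nat_lit 5))
    (@En.i (nat_lit 3717) (nat_lit 7) (nat_lit 13))
    (@En.n l18765 (nat_lit 10245) (nat_lit 7) (nat_lit 7))
    (@En.n l25033 (nat_lit 7022) (nat_lit 9) (nat_lit 12))
    (@En.n l25034 (nat_lit 7109) (nat_lit 9) (nat_lit 3))
    (@En.n l25035 (nat_lit 3052) (nat_lit 11) (nat_lit 11))
    (@En.n l25033 (nat_lit 7075) (nat_lit 12) (nat_lit 7))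
    (@En.n l9885 (nat_lit 11006) (nat_lit 13) (nat_lit 13))
    (@En.n l936 (nat_lit 3927) (nat_lit 14) (nat_lit 3))
    (@En.n l25036 (nat_lit 6640) (nat_lit 0) (nat_lit 9))
    (@En.n l67 (nat_lit 7108) (nat_lit 15) (nat_lit 2))))
  (@Cl.mk (nat_lit 0x200090003000d000a00080003000c0007000d0006000400030008000e000d) (nat_lit 0x209820503000476) (nat_lit 16) Lb.e (@T16.mk En
    (@En.n l24726 (nat_lit 3929) (nat_lit 2) (nat_lit 13))
    (@En.n l15827 (nat_lit 10232) (nat_lit 1) (nat_lit 14))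
    (@En.n l2588 (nat_lit 7111) (nat_lit 2) (nat_lit 8))
    (@En.n l8121 (nat_lit 3925) (nat_lit 3) (nat_lit 3))
    (@En.n l5909 (nat_lit 7067) (nat_lit 4) (nat_lit 4))
    (@En.i (nat_lit 5342) (nat_lit 5) (nat_lit 6))
    (@En.n l32932 (nat_lit 3836) (nat_lit 7) (nat_lit 13))
    (@En.n l5802 (nat_lit 10247) (nat_lit 7) (nat_lit 7))
    (@En.n l32933 (nat_lit 5627) (nat_lit 9) (nat_lit 12))
    (@En.n l32934 (nat_lit 7108) (nat_lit 9) (nat_lit 3))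
    (@En.n l25672 (nat_lit 4668) (nat_lit 11) (nat_lit 8))
    (@En.n l17110 (nat_lit 7017) (nat_lit 12) (nat_lit 10))
    (@En.n l5912 (nat_lit 9038) (nat_lit 13) (nat_lit 13))
    (@En.n l15827 (nat_lit 3929) (nat_lit 14) (nat_lit 3))
    (@En.i (nat_lit 6913) (nat_lit 0) (nat_lit 9))
    (@En.n l3 (nat_lit 7109) (nat_lit 15) (nat_lit 2))))
  (@Cl.mk (nat_lit 0x200090003000d0009000c0003000b00070004000d000700050003000e000d) (nat_lit 0x208720700400071) (nat_lit 16) Lb.e (@T16.mk En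
    (@En.n l10140 (nat_lit 4209) (nat_lit 2) (nat_lit 13))
    (@En.i (nat_lit 9184) (nat_lit 1) (nat_lit 14))
    (@En.n l17263 (nat_lit 4200) (nat_lit 2) (nat_lit 3))
    (@En.n l3348 (nat_lit 3434) (nat_lit 3) (nat_lit 5))
    (@En.n l61 (nat_lit 7111) (nat_lit 4) (nat_lit 7))
    (@En.n l2197 (nat_lit 7109) (nat_lit 6) (nat_lit 13))
    (@En.n l429 (nat_lit 4573) (nat_lit 6) (nat_lit 4))
    (@En.i (nat_lit 8742) (nat_lit 7) (nat_lit 7))
    (@En.n l3348 (nat_lit 5624) (nat_lit 9) (nat_lit 11))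
    (@En.n l4204 (nat_lit 7112) (nat_lit 9) (nat_lit 3))
    (@En.n l13395 (nat_lit 3283) (nat_lit 6) (nat_lit 12))
    (@En.n l16500 (nat_lit 7362) (nat_lit 12) (nat_lit 9))
    (@En.n l16500 (nat_lit 11589) (nat_lit 13) (nat_lit 13))
    (@En.n l10143 (nat_lit 4209) (nat_lit 14) (nat_lit 3))
    (@En.n l6081 (nat_lit 6915) (nat_lit 0) (nat_lit 9))
    (@En.n l3 (nat_lit 7110) (nat_lit 15) (nat_lit 2))))
  (@Cl.mk (nat_lit 0x200080003000c00090008000c0004000c00080004000700040008000e000d) (nat_lit 0x2086130a0000351) (nat_lit 16) Lb.e (@T16.mk En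
    (@En.n l2429 (nat_lit 4587) (nat_lit 2) (nat_lit 13))
    (@En.n l25101 (nat_lit 9182) (nat_lit 1) (nat_lit 14))
    (@En.n l11697 (nat_lit 2961) (nat_lit 2) (nat_lit 8))
    (@En.n l3327 (nat_lit 7424) (nat_lit 3) (nat_lit 4))
    (@En.n l21567 (nat_lit 5578) (nat_lit 11) (nat_lit 7))
    (@En.n l12047 (nat_lit 4585) (nat_lit 5) (nat_lit 4))
    (@En.i (nat_lit 8744) (nat_lit 6) (nat_lit 8))
    (@En.n l20711 (nat_lit 5533) (nat_lit 8) (nat_lit 12))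
    (@En.n l4711 (nat_lit 7116) (nat_lit 8) (nat_lit 4))
    (@En.n l617 (nat_lit 7110) (nat_lit 10) (nat_lit 12))
    (@En.n l12047 (nat_lit 4200) (nat_lit 11) (nat_lit 8))
    (@En.n l11697 (nat_lit 7363) (nat_lit 12) (nat_lit 9))
    (@En.n l25102 (nat_lit 11590) (nat_lit 13) (nat_lit 12))
    (@En.n l2427 (nat_lit 4587) (nat_lit 14) (nat_lit 3))
    (@En.i (nat_lit 6916) (nat_lit 0) (nat_lit 8))
    (@En.n l3 (nat_lit 7111) (nat_lit 15) (nat_lit 2))))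
  (@Cl.mk (nat_lit 0x200090003000d000b000a0003000b00070005000d000600050003000e000d) (nat_lit 0x307680900600086) (nat_lit 16) Lb.e (@T16.mk En
    (@En.n l396 (nat_lit 7113) (nat_lit 2) (nat_lit 13))
    (@En.i (nat_lit 9186) (nat_lit 1) (nat_lit 14))
    (@En.n l4037 (nat_lit 4202) (nat_lit 2) (nat_lit 3))
    (@En.n l16314 (nat_lit 3433) (nat_lit 3) (nat_lit 5))
    (@En.i (nat_lit 7116) (nat_lit 4) (nat_lit 6))
    (@En.n l3593 (nat_lit 7108) (nat_lit 6) (nat_lit 13))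
    (@En.i (nat_lit 7377) (nat_lit 6) (nat_lit 5))
    (@En.n l2364 (nat_lit 8639) (nat_lit 7) (nat_lit 7))
    (@En.i (nat_lit 7268) (nat_lit 9) (nat_lit 11))
    (@En.n l2413 (nat_lit 7110) (nat_lit 9) (nat_lit 3))
    (@En.n l619 (nat_lit 7349) (nat_lit 11) (nat_lit 10))
    (@En.i (nat_lit 4581) (nat_lit 12) (nat_lit 11))
    (@En.i (nat_lit 11591) (nat_lit 13) (nat_lit 13))
    (@En.i (nat_lit 7113) (nat_lit 14) (nat_lit 3))
    (@En.n l699 (nat_lit 6917) (nat_lit 0) (nat_lit 9))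
    (@En.n l50 (nat_lit 7112) (nat_lit 15) (nat_lit 2))))
  (@Cl.mk (nat_lit 0x30003000d000b000a0003000b00080005000d000600050003000d000d0008) (nat_lit 0xa4109503000572) (nat_lit 16) Lb.e (@T16.mk En
    (@En.n l3593 (nat_lit 7149) (nat_lit 0) (nat_lit 8))
    (@En.n l21494 (nat_lit 7431) (nat_lit 3) (nat_lit 13))
    (@En.n l11434 (nat_lit 10134) (nat_lit 2) (nat_lit 13))
    (@En.n l28559 (nat_lit 4203) (nat_lit 3) (nat_lit 3))
    (@En.n l16314 (nat_lit 3427) (nat_lit 0) (nat_lit 5))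
    (@En.i (nat_lit 7117) (nat_lit 5) (nat_lit 6))
    (@En.n l11434 (nat_lit 3927) (nat_lit 7) (nat_lit 13))
    (@En.n l8139 (nat_lit 7376) (nat_lit 7) (nat_lit 5))
    (@En.n l403 (nat_lit 8640) (nat_lit 14) (nat_lit 8))
    (@En.i (nat_lit 7269) (nat_lit 10) (nat_lit 11))
    (@En.n l26584 (nat_lit 4209) (nat_lit 10) (nat_lit 3))
    (@En.n l619 (nat_lit 3058) (nat_lit 0) (nat_lit 10))
    (@En.n l6919 (nat_lit 4578) (nat_lit 13) (nat_lit 11))
    (@En.i (nat_lit 11989) (nat_lit 2) (nat_lit 13))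
    (@En.n l18 (nat_lit 7112) (nat_lit 13) (nat_lit 3))
    (@En.n l22216 (nat_lit 7431) (nat_lit 0) (nat_lit 3))))
  (@Cl.mk (nat_lit 0x200080003000c0007000b000b0004000c00080005000500040009000e000d) (nat_lit 0x2050720a4000375) (nat_lit 16) Lb.e (@T16.mk En
    (@En.n l11428 (nat_lit 7115) (nat_lit 2) (nat_lit 13))
    (@En.n l11429 (nat_lit 8536) (nat_lit 1) (nat_lit 14))
    (@En.n l11430 (nat_lit 7053) (nat_lit 2) (nat_lit 9))
    (@En.n l11431 (nat_lit 7213) (nat_lit 3) (nat_lit 4))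
    (@En.n l7126 (nat_lit 7193) (nat_lit 11) (nat_lit 5))
    (@En.n l8776 (nat_lit 7219) (nat_lit 5) (nat_lit 5))
    (@En.n l2364 (nat_lit 8718) (nat_lit 6) (nat_lit 8))
    (@En.n l8776 (nat_lit 4735) (nat_lit 8) (nat_lit 12))
    (@En.n l11432 (nat_lit 7111) (nat_lit 8) (nat_lit 4))
    (@En.n l619 (nat_lit 7698) (nat_lit 5) (nat_lit 11))
    (@En.i (nat_lit 7112) (nat_lit 11) (nat_lit 11))
    (@En.n l11433 (nat_lit 7118) (nat_lit 12) (nat_lit 7))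
    (@En.i (nat_lit 11433) (nat_lit 13) (nat_lit 12))
    (@En.n l11434 (nat_lit 7115) (nat_lit 14) (nat_lit 3))
    (@En.n l699 (nat_lit 6938) (nat_lit 0) (nat_lit 8))
    (@En.n l50 (nat_lit 7114) (nat_lit 15) (nat_lit 2))))
  (@Cl.mk (nat_lit 0x30003000c0007000b000b0004000c00090005000500040009000d000d0007) (nat_lit 0x30520840004460) (nat_lit 16) Lb.e (@T16.mk En
    (@En.i (nat_lit 7703) (nat_lit 0) (nat_lit 7))
    (@En.n l19401 (nat_lit 7444) (nat_lit 3) (nat_lit 13))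
    (@En.n l15535 (nat_lit 8487) (nat_lit 6) (nat_lit 13))
    (@En.n l22123 (nat_lit 7052) (nat_lit 3) (nat_lit 9))
    (@En.n l18 (nat_lit 7216) (nat_lit 4) (nat_lit 4))
    (@En.n l22467 (nat_lit 4755) (nat_lit 11) (nat_lit 5))
    (@En.n l1769 (nat_lit 7202) (nat_lit 6) (nat_lit 5))
    (@En.n l24948 (nat_lit 8704) (nat_lit 0) (nat_lit 9))
    (@En.n l13889 (nat_lit 4677) (nat_lit 9) (nat_lit 12))
    (@En.n l15535 (nat_lit 4587) (nat_lit 9) (nat_lit 4))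
    (@En.n l3530 (nat_lit 7445) (nat_lit 5) (nat_lit 11))
    (@En.n l24949 (nat_lit 7113) (nat_lit 12) (nat_lit 11))
    (@En.n l24950 (nat_lit 7119) (nat_lit 13) (nat_lit 7))
    (@En.n l24949 (nat_lit 12160) (nat_lit 14) (nat_lit 12))
    (@En.n l16563 (nat_lit 7114) (nat_lit 13) (nat_lit 3))
    (@En.n l19409 (nat_lit 7444) (nat_lit 0) (nat_lit 3))))
  (@Cl.mk (nat_lit 0x200080003000c000a000a00090004000c00080006000600040007000e000d) (nat_lit 0x205681083000055) (nat_lit 16) Lb.e (@T16.mk En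
    (@En.n l396 (nat_lit 7117) (nat_lit 2) (nat_lit 13))
    (@En.n l20637 (nat_lit 8569) (nat_lit 1) (nat_lit 14))
    (@En.n l19073 (nat_lit 3297) (nat_lit 2) (nat_lit 7))
    (@En.n l20638 (nat_lit 7236) (nat_lit 3) (nat_lit 4))
    (@En.n l11 (nat_lit 4865) (nat_lit 4) (nat_lit 6))
    (@En.n l14271 (nat_lit 7374) (nat_lit 5) (nat_lit 6))
    (@En.n l2364 (nat_lit 8679) (nat_lit 6) (nat_lit 8))
    (@En.n l18752 (nat_lit 7118) (nat_lit 8) (nat_lit 12))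
    (@En.n l936 (nat_lit 7114) (nat_lit 8) (nat_lit 4))
    (@En.n l14271 (nat_lit 4202) (nat_lit 10) (nat_lit 9))
    (@En.n l619 (nat_lit 7697) (nat_lit 6) (nat_lit 10))
    (@En.n l6913 (nat_lit 4582) (nat_lit 12) (nat_lit 10))
    (@En.i (nat_lit 11426) (nat_lit 13) (nat_lit 12))
    (@En.i (nat_lit 7117) (nat_lit 14) (nat_lit 3))
    (@En.n l699 (nat_lit 2025) (nat_lit 0) (nat_lit 8))
    (@En.n l50 (nat_lit 7116) (nat_lit 15) (nat_lit 2))))
  (@Cl.mk (nat_lit 0x30003000c000a000a00090004000c00090006000600040007000d000d0007) (nat_lit 0x62110940000460) (nat_lit 16) Lb.e (@T16.mk En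
    (@En.n l3593 (nat_lit 7701) (nat_lit 0) (nat_lit 7))
    (@En.n l30166 (nat_lit 7120) (nat_lit 3) (nat_lit 13))
    (@En.n l10226 (nat_lit 8481) (nat_lit 2) (nat_lit 13))
    (@En.n l30167 (nat_lit 3292) (nat_lit 11) (nat_lit 7))
    (@En.n l30168 (nat_lit 7235) (nat_lit 4) (nat_lit 4))
    (@En.n l15665 (nat_lit 4862) (nat_lit 10) (nat_lit 6))
    (@En.n l8139 (nat_lit 7226) (nat_lit 6) (nat_lit 6))
    (@En.n l403 (nat_lit 8505) (nat_lit 8) (nat_lit 9))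
    (@En.n l18752 (nat_lit 7119) (nat_lit 9) (nat_lit 12))
    (@En.n l8129 (nat_lit 7115) (nat_lit 9) (nat_lit 4))
    (@En.n l8139 (nat_lit 4203) (nat_lit 11) (nat_lit 9))
    (@En.n l8125 (nat_lit 3535) (nat_lit 6) (nat_lit 10))
    (@En.n l13888 (nat_lit 4580) (nat_lit 13) (nat_lit 10))
    (@En.i (nat_lit 12176) (nat_lit 14) (nat_lit 12))
    (@En.n l18 (nat_lit 7116) (nat_lit 13) (nat_lit 3))
    (@En.n l30169 (nat_lit 7120) (nat_lit 0) (nat_lit 3))))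
  (@Cl.mk (nat_lit 0x2000900030007000b000b0009000c000700050005000400090007000e000d) (nat_lit 0x200491700002066) (nat_lit 16) Lb.e (@T16.mk En
    (@En.n l1578 (nat_lit 7119) (nat_lit 2) (nat_lit 13))
    (@En.n l23118 (nat_lit 7894) (nat_lit 1) (nat_lit 14))
    (@En.n l23119 (nat_lit 7116) (nat_lit 2) (nat_lit 7))
    (@En.n l6080 (nat_lit 7076) (nat_lit 3) (nat_lit 9))
    (@En.n l1778 (nat_lit 7234) (nat_lit 4) (nat_lit 4))
    (@En.n l2172 (nat_lit 4866) (nat_lit 5) (nat_lit 5))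
    (@En.i (nat_lit 7223) (nat_lit 6) (nat_lit 5))
    (@En.n l6080 (nat_lit 8720) (nat_lit 7) (nat_lit 7))
    (@En.i (nat_lit 4731) (nat_lit 9) (nat_lit 12))
    (@En.n l742 (nat_lit 4204) (nat_lit 10) (nat_lit 9))
    (@En.n l5913 (nat_lit 7696) (nat_lit 5) (nat_lit 11))
    (@En.n l2869 (nat_lit 4584) (nat_lit 12) (nat_lit 11))
    (@En.i (nat_lit 7016) (nat_lit 13) (nat_lit 7))
    (@En.i (nat_lit 7119) (nat_lit 14) (nat_lit 3))
    (@En.i (nat_lit 6939) (nat_lit 0) (nat_lit 9))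
    (@En.n l11 (nat_lit 7118) (nat_lit 15) (nat_lit 2))))
  (@Cl.mk (nat_lit 0x300030007000b000b0009000c000800050005000400090007000d000d0008) (nat_lit 0x2918300020572) (nat_lit 16) Lb.e (@T16.mk En
    (@En.i (nat_lit 7702) (nat_lit 0) (nat_lit 8))
    (@En.n l35213 (nat_lit 7121) (nat_lit 3) (nat_lit 13))
    (@En.n l29730 (nat_lit 7905) (nat_lit 2) (nat_lit 13))
    (@En.n l23119 (nat_lit 7117) (nat_lit 3) (nat_lit 7))
    (@En.n l6080 (nat_lit 7077) (nat_lit 4) (nat_lit 9))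
    (@En.n l35214 (nat_lit 7232) (nat_lit 5) (nat_lit 4))
    (@En.n l35215 (nat_lit 4863) (nat_lit 11) (nat_lit 5))
    (@En.i (nat_lit 7222) (nat_lit 7) (nat_lit 5))
    (@En.n l35216 (nat_lit 8719) (nat_lit 9) (nat_lit 8))
    (@En.i (nat_lit 4599) (nat_lit 6) (nat_lit 12))
    (@En.n l742 (nat_lit 4205) (nat_lit 11) (nat_lit 9))
    (@En.n l35217 (nat_lit 3530) (nat_lit 5) (nat_lit 11))
    (@En.n l3541 (nat_lit 3658) (nat_lit 13) (nat_lit 11))
    (@En.n l810 (nat_lit 12131) (nat_lit 14) (nat_lit 7))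
    (@En.n l28 (nat_lit 7118) (nat_lit 13) (nat_lit 3))
    (@En.n l10013 (nat_lit 7121) (nat_lit 0) (nat_lit 3))))
noncomputable def a445 : T16 Cl := @T16.mk Cl
  (@Cl.mk (nat_lit 0x2000c000a000a00090004000c000a0006000600040007000d0006000e0003) (nat_lit 0x6282053000050a0) (nat_lit 16) Lb.e (@T16.mk En
    (@En.n l35373 (nat_lit 7117) (nat_lit 15) (nat_lit 3))
    (@En.i (nat_lit 13329) (nat_lit 0) (nat_lit 14))
    (@En.n l21772 (nat_lit 7437) (nat_lit 2) (nat_lit 6))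
    (@En.n l5098 (nat_lit 8482) (nat_lit 2) (nat_lit 13))
    (@En.n l35374 (nat_lit 3294) (nat_lit 11) (nat_lit 7))
    (@En.n l12023 (nat_lit 7237) (nat_lit 5) (nat_lit 4))
    (@En.n l12024 (nat_lit 4864) (nat_lit 10) (nat_lit 6))
    (@En.i (nat_lit 7375) (nat_lit 7) (nat_lit 6))
    (@En.n l21772 (nat_lit 8732) (nat_lit 9) (nat_lit 10))
    (@En.n l25731 (nat_lit 7121) (nat_lit 10) (nat_lit 12))
    (@En.n l5098 (nat_lit 7444) (nat_lit 10) (nat_lit 4))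
    (@En.i (nat_lit 4206) (nat_lit 12) (nat_lit 9))
    (@En.n l25732 (nat_lit 7447) (nat_lit 6) (nat_lit 10))
    (@En.n l35375 (nat_lit 4579) (nat_lit 14) (nat_lit 10))
    (@En.n l12290 (nat_lit 12174) (nat_lit 14) (nat_lit 12))
    (@En.n l17 (nat_lit 7120) (nat_lit 15) (nat_lit 2))))
  (@Cl.mk (nat_lit 0x20007000b000b0009000c000900050005000400090007000d0007000e0003) (nat_lit 0x291430002060a0) (nat_lit 16) Lb.e (@T16.mk En
    (@En.n l22696 (nat_lit 7119) (nat_lit 15) (nat_lit 3))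
    (@En.n l13131 (nat_lit 13331) (nat_lit 0) (nat_lit 14))
    (@En.i (nat_lit 7439) (nat_lit 2) (nat_lit 7))
    (@En.n l17324 (nat_lit 8622) (nat_lit 4) (nat_lit 13))
    (@En.n l13131 (nat_lit 7120) (nat_lit 4) (nat_lit 7))
    (@En.n l8991 (nat_lit 7164) (nat_lit 5) (nat_lit 9))
    (@En.n l3535 (nat_lit 7238) (nat_lit 6) (nat_lit 4))
    (@En.n l152 (nat_lit 4867) (nat_lit 7) (nat_lit 5))
    (@En.n l22697 (nat_lit 7224) (nat_lit 8) (nat_lit 5))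
    (@En.n l870 (nat_lit 8730) (nat_lit 10) (nat_lit 9))
    (@En.n l7233 (nat_lit 4727) (nat_lit 11) (nat_lit 12))
    (@En.n l7231 (nat_lit 4207) (nat_lit 12) (nat_lit 9))
    (@En.n l3536 (nat_lit 3537) (nat_lit 5) (nat_lit 11))
    (@En.n l7247 (nat_lit 3661) (nat_lit 14) (nat_lit 11))
    (@En.n l9071 (nat_lit 12155) (nat_lit 14) (nat_lit 7))
    (@En.n l50 (nat_lit 7121) (nat_lit 15) (nat_lit 2))))
  (@Cl.mk (nat_lit 0x300060004000b000b000b0007000b000500050005000a0005000d000c0009) (nat_lit 0x8220400030626) (nat_lit 16) Lb.e (@T16.mk En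
    (@En.n l18636 (nat_lit 5705) (nat_lit 0) (nat_lit 9))
    (@En.n l6444 (nat_lit 6880) (nat_lit 4) (nat_lit 12))
    (@En.n l27970 (nat_lit 5313) (nat_lit 2) (nat_lit 13))
    (@En.n l1392 (nat_lit 5855) (nat_lit 3) (nat_lit 5))
    (@En.n l19587 (nat_lit 11718) (nat_lit 4) (nat_lit 10))
    (@En.n l11 (nat_lit 7008) (nat_lit 11) (nat_lit 5))
    (@En.n l19274 (nat_lit 7911) (nat_lit 11) (nat_lit 5))
    (@En.n l4189 (nat_lit 8655) (nat_lit 7) (nat_lit 5))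
    (@En.i (nat_lit 3074) (nat_lit 8) (nat_lit 11))
    (@En.n l4780 (nat_lit 9730) (nat_lit 1) (nat_lit 7))
    (@En.n l11363 (nat_lit 7123) (nat_lit 5) (nat_lit 11))
    (@En.n l9976 (nat_lit 7045) (nat_lit 5) (nat_lit 11))
    (@En.i (nat_lit 9627) (nat_lit 13) (nat_lit 11))
    (@En.n l11386 (nat_lit 6877) (nat_lit 14) (nat_lit 4))
    (@En.i (nat_lit 5604) (nat_lit 12) (nat_lit 6))
    (@En.n l18 (nat_lit 7051) (nat_lit 15) (nat_lit 3))))
  (@Cl.mk (nat_lit 0x2000a0006000d000c000a000300060004000c000b0006000a0004000e0005) (nat_lit 0x608750008101020) (nat_lit 16) Lb.e (@T16.mk En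
    (@En.n l22266 (nat_lit 7122) (nat_lit 6) (nat_lit 5))
    (@En.n l601 (nat_lit 7853) (nat_lit 1) (nat_lit 14))
    (@En.i (nat_lit 8660) (nat_lit 2) (nat_lit 4))
    (@En.n l13540 (nat_lit 3648) (nat_lit 3) (nat_lit 10))
    (@En.i (nat_lit 11284) (nat_lit 4) (nat_lit 6))
    (@En.n l77 (nat_lit 4340) (nat_lit 5) (nat_lit 11))
    (@En.i (nat_lit 9626) (nat_lit 7) (nat_lit 12))
    (@En.i (nat_lit 7131) (nat_lit 7) (nat_lit 4))
    (@En.i (nat_lit 5597) (nat_lit 8) (nat_lit 6))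
    (@En.n l10847 (nat_lit 7124) (nat_lit 9) (nat_lit 3))
    (@En.n l619 (nat_lit 7443) (nat_lit 0) (nat_lit 10))
    (@En.n l3866 (nat_lit 7128) (nat_lit 12) (nat_lit 12))
    (@En.n l17017 (nat_lit 7125) (nat_lit 13) (nat_lit 13))
    (@En.n l20138 (nat_lit 7245) (nat_lit 14) (nat_lit 6))
    (@En.n l2129 (nat_lit 11864) (nat_lit 4) (nat_lit 10))
    (@En.n l50 (nat_lit 7123) (nat_lit 15) (nat_lit 2))))
  (@Cl.mk (nat_lit 0x2000a0006000d0009000d000300060003000c000b0007000a0004000e0005) (nat_lit 0x408780008103020) (nat_lit 16) Lb.e (@T16.mk En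
    (@En.n l117 (nat_lit 7051) (nat_lit 6) (nat_lit 5))
    (@En.n l2691 (nat_lit 7846) (nat_lit 1) (nat_lit 14))
    (@En.n l936 (nat_lit 8659) (nat_lit 2) (nat_lit 4))
    (@En.i (nat_lit 3805) (nat_lit 3) (nat_lit 10))
    (@En.i (nat_lit 8571) (nat_lit 4) (nat_lit 7))
    (@En.n l936 (nat_lit 4345) (nat_lit 5) (nat_lit 11))
    (@En.i (nat_lit 9625) (nat_lit 7) (nat_lit 12))
    (@En.n l14445 (nat_lit 7128) (nat_lit 7) (nat_lit 3))
    (@En.i (nat_lit 5203) (nat_lit 12) (nat_lit 6))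
    (@En.n l4185 (nat_lit 7123) (nat_lit 9) (nat_lit 3))
    (@En.n l3290 (nat_lit 2379) (nat_lit 0) (nat_lit 13))
    (@En.n l3895 (nat_lit 7127) (nat_lit 12) (nat_lit 9))
    (@En.n l41313 (nat_lit 7126) (nat_lit 13) (nat_lit 13))
    (@En.n l4473 (nat_lit 7244) (nat_lit 14) (nat_lit 6))
    (@En.n l614 (nat_lit 11863) (nat_lit 4) (nat_lit 10))
    (@En.n l11 (nat_lit 7124) (nat_lit 15) (nat_lit 2))))
  (@Cl.mk (nat_lit 0x2000a000d000b00090003000a00060005000c000b000700060004000e0005) (nat_lit 0x477405004100090) (nat_lit 16) Lb.e (@T16.mk En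
    (@En.n l39363 (nat_lit 5313) (nat_lit 5) (nat_lit 5))
    (@En.n l6557 (nat_lit 7852) (nat_lit 1) (nat_lit 14))
    (@En.n l10787 (nat_lit 9082) (nat_lit 2) (nat_lit 4))
    (@En.i (nat_lit 3337) (nat_lit 3) (nat_lit 6))
    (@En.n l6565 (nat_lit 11287) (nat_lit 4) (nat_lit 7))
    (@En.n l217 (nat_lit 4341) (nat_lit 5) (nat_lit 11))
    (@En.n l1770 (nat_lit 9621) (nat_lit 7) (nat_lit 12))
    (@En.n l10787 (nat_lit 7768) (nat_lit 7) (nat_lit 5))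
    (@En.n l11010 (nat_lit 7123) (nat_lit 8) (nat_lit 6))
    (@En.n l11008 (nat_lit 8018) (nat_lit 10) (nat_lit 10))
    (@En.n l34894 (nat_lit 7126) (nat_lit 10) (nat_lit 3))
    (@En.n l8689 (nat_lit 7441) (nat_lit 0) (nat_lit 9))
    (@En.n l15520 (nat_lit 7247) (nat_lit 13) (nat_lit 11))
    (@En.n l2038 (nat_lit 7411) (nat_lit 5) (nat_lit 13))
    (@En.n l39364 (nat_lit 11865) (nat_lit 3) (nat_lit 10))
    (@En.n l17 (nat_lit 7125) (nat_lit 15) (nat_lit 2))))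
  (@Cl.mk (nat_lit 0x2000a000d0008000c0003000a00060004000c000b000800060004000e0005) (nat_lit 0x476704008130020) (nat_lit 16) Lb.e (@T16.mk En
    (@En.n l15346 (nat_lit 7050) (nat_lit 5) (nat_lit 5))
    (@En.n l33843 (nat_lit 7850) (nat_lit 1) (nat_lit 14))
    (@En.i (nat_lit 8661) (nat_lit 2) (nat_lit 4))
    (@En.n l21805 (nat_lit 3336) (nat_lit 3) (nat_lit 6))
    (@En.n l575 (nat_lit 7820) (nat_lit 4) (nat_lit 8))
    (@En.n l33844 (nat_lit 4343) (nat_lit 5) (nat_lit 11))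
    (@En.n l10851 (nat_lit 9619) (nat_lit 7) (nat_lit 12))
    (@En.n l33845 (nat_lit 7766) (nat_lit 7) (nat_lit 4))
    (@En.n l33846 (nat_lit 7124) (nat_lit 8) (nat_lit 6))
    (@En.n l33847 (nat_lit 7127) (nat_lit 10) (nat_lit 10))
    (@En.n l33848 (nat_lit 7125) (nat_lit 10) (nat_lit 3))
    (@En.n l33849 (nat_lit 2380) (nat_lit 0) (nat_lit 12))
    (@En.n l33850 (nat_lit 6041) (nat_lit 13) (nat_lit 8))
    (@En.i (nat_lit 7412) (nat_lit 5) (nat_lit 13))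
    (@En.n l33851 (nat_lit 11862) (nat_lit 3) (nat_lit 10))
    (@En.n l7 (nat_lit 7126) (nat_lit 15) (nat_lit 2))))
  (@Cl.mk (nat_lit 0x2000b00060009000d000a00050003000b000a00070006000a0005000e0006) (nat_lit 0x406830071004030) (nat_lit 16) Lb.e (@T16.mk En
    (@En.n l20066 (nat_lit 7130) (nat_lit 7) (nat_lit 6))
    (@En.n l601 (nat_lit 7839) (nat_lit 1) (nat_lit 14))
    (@En.n l1236 (nat_lit 8747) (nat_lit 2) (nat_lit 5))
    (@En.n l40347 (nat_lit 7124) (nat_lit 3) (nat_lit 10))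
    (@En.i (nat_lit 7123) (nat_lit 4) (nat_lit 6))
    (@En.n l24598 (nat_lit 8567) (nat_lit 5) (nat_lit 7))
    (@En.n l16465 (nat_lit 4347) (nat_lit 6) (nat_lit 10))
    (@En.n l24602 (nat_lit 9624) (nat_lit 8) (nat_lit 11))
    (@En.n l3536 (nat_lit 7129) (nat_lit 8) (nat_lit 3))
    (@En.n l30423 (nat_lit 5200) (nat_lit 9) (nat_lit 5))
    (@En.n l68 (nat_lit 7438) (nat_lit 11) (nat_lit 10))
    (@En.n l3866 (nat_lit 2389) (nat_lit 12) (nat_lit 13))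
    (@En.n l24598 (nat_lit 6031) (nat_lit 9) (nat_lit 9))
    (@En.n l32120 (nat_lit 7243) (nat_lit 14) (nat_lit 6))
    (@En.n l1790 (nat_lit 9921) (nat_lit 6) (nat_lit 11))
    (@En.n l50 (nat_lit 7127) (nat_lit 15) (nat_lit 2))))
  (@Cl.mk (nat_lit 0x2000b0006000c0009000d000500040003000c000b0007000a0004000e0005) (nat_lit 0x506750008103050) (nat_lit 16) Lb.e (@T16.mk En
    (@En.n l14312 (nat_lit 6880) (nat_lit 8) (nat_lit 5))
    (@En.n l1578 (nat_lit 7849) (nat_lit 1) (nat_lit 14))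
    (@En.n l117 (nat_lit 8746) (nat_lit 2) (nat_lit 4))
    (@En.n l14314 (nat_lit 3804) (nat_lit 3) (nat_lit 10))
    (@En.i (nat_lit 8574) (nat_lit 4) (nat_lit 7))
    (@En.n l575 (nat_lit 4349) (nat_lit 5) (nat_lit 11))
    (@En.i (nat_lit 9430) (nat_lit 7) (nat_lit 12))
    (@En.n l3153 (nat_lit 7124) (nat_lit 7) (nat_lit 3))
    (@En.n l18 (nat_lit 7934) (nat_lit 0) (nat_lit 4))
    (@En.n l6081 (nat_lit 7132) (nat_lit 9) (nat_lit 5))
    (@En.i (nat_lit 2377) (nat_lit 11) (nat_lit 13))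
    (@En.n l61 (nat_lit 7129) (nat_lit 12) (nat_lit 9))
    (@En.n l16237 (nat_lit 7766) (nat_lit 13) (nat_lit 12))
    (@En.n l7916 (nat_lit 7242) (nat_lit 14) (nat_lit 6))
    (@En.n l14311 (nat_lit 10639) (nat_lit 12) (nat_lit 11))
    (@En.n l28 (nat_lit 7128) (nat_lit 15) (nat_lit 2))))
  (@Cl.mk (nat_lit 0x2000c00060009000d0004000b0003000b000a00070005000a0005000e0006) (nat_lit 0x506505078004030) (nat_lit 16) Lb.e (@T16.mk En
    (@En.i (nat_lit 6882) (nat_lit 7) (nat_lit 6))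
    (@En.n l1578 (nat_lit 7842) (nat_lit 1) (nat_lit 14))
    (@En.n l117 (nat_lit 8748) (nat_lit 2) (nat_lit 5))
    (@En.n l617 (nat_lit 7128) (nat_lit 3) (nat_lit 10))
    (@En.n l3480 (nat_lit 7131) (nat_lit 4) (nat_lit 5))
    (@En.n l8657 (nat_lit 8568) (nat_lit 5) (nat_lit 7))
    (@En.n l28475 (nat_lit 7216) (nat_lit 6) (nat_lit 10))
    (@En.i (nat_lit 9456) (nat_lit 8) (nat_lit 11))
    (@En.n l6081 (nat_lit 7127) (nat_lit 8) (nat_lit 3))
    (@En.n l1329 (nat_lit 4760) (nat_lit 10) (nat_lit 11))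
    (@En.i (nat_lit 7133) (nat_lit 10) (nat_lit 4))
    (@En.i (nat_lit 2388) (nat_lit 12) (nat_lit 13))
    (@En.n l2433 (nat_lit 6032) (nat_lit 9) (nat_lit 9))
    (@En.i (nat_lit 7241) (nat_lit 14) (nat_lit 6))
    (@En.i (nat_lit 10640) (nat_lit 3) (nat_lit 12))
    (@En.n l28 (nat_lit 7129) (nat_lit 15) (nat_lit 2))))
  (@Cl.mk (nat_lit 0x3000a000a000a00080007000b000600060006000b00050008000d00090005) (nat_lit 0x782405000404630) (nat_lit 16) Lb.e (@T16.mk En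
    (@En.n l4172 (nat_lit 5196) (nat_lit 0) (nat_lit 5))
    (@En.i (nat_lit 7710) (nat_lit 0) (nat_lit 9))
    (@En.n l35172 (nat_lit 2502) (nat_lit 2) (nat_lit 13))
    (@En.n l40934 (nat_lit 6034) (nat_lit 10) (nat_lit 8))
    (@En.n l1393 (nat_lit 2597) (nat_lit 4) (nat_lit 5))
    (@En.n l287 (nat_lit 11720) (nat_lit 0) (nat_lit 11))
    (@En.n l11 (nat_lit 6483) (nat_lit 10) (nat_lit 6))
    (@En.n l152 (nat_lit 7914) (nat_lit 10) (nat_lit 6))
    (@En.n l28018 (nat_lit 8750) (nat_lit 8) (nat_lit 6))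
    (@En.n l50 (nat_lit 7051) (nat_lit 8) (nat_lit 11))
    (@En.n l217 (nat_lit 7122) (nat_lit 9) (nat_lit 7))
    (@En.n l4780 (nat_lit 8768) (nat_lit 12) (nat_lit 8))
    (@En.n l21442 (nat_lit 7127) (nat_lit 6) (nat_lit 10))
    (@En.n l1867 (nat_lit 7042) (nat_lit 6) (nat_lit 10))
    (@En.i (nat_lit 9622) (nat_lit 14) (nat_lit 10))
    (@En.n l40935 (nat_lit 6882) (nat_lit 15) (nat_lit 3))))
  (@Cl.mk (nat_lit 0x2000c0006000c000c0004000b00040004000c000b0005000a0004000e0005) (nat_lit 0xa03709008701050) (nat_lit 16) Lb.e (@T16.mk En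
    (@En.n l17536 (nat_lit 6877) (nat_lit 7) (nat_lit 5))
    (@En.n l601 (nat_lit 7878) (nat_lit 1) (nat_lit 14))
    (@En.n l345 (nat_lit 7457) (nat_lit 2) (nat_lit 4))
    (@En.n l6195 (nat_lit 3646) (nat_lit 3) (nat_lit 10))
    (@En.i (nat_lit 11313) (nat_lit 4) (nat_lit 5))
    (@En.n l77 (nat_lit 7207) (nat_lit 5) (nat_lit 11))
    (@En.n l3333 (nat_lit 9450) (nat_lit 7) (nat_lit 12))
    (@En.n l152 (nat_lit 7474) (nat_lit 12) (nat_lit 4))
    (@En.n l3851 (nat_lit 7128) (nat_lit 8) (nat_lit 4))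
    (@En.n l617 (nat_lit 5836) (nat_lit 10) (nat_lit 11))
    (@En.i (nat_lit 7134) (nat_lit 10) (nat_lit 4))
    (@En.n l3536 (nat_lit 7934) (nat_lit 4) (nat_lit 12))
    (@En.n l965 (nat_lit 7768) (nat_lit 13) (nat_lit 12))
    (@En.i (nat_lit 7246) (nat_lit 14) (nat_lit 6))
    (@En.i (nat_lit 11177) (nat_lit 3) (nat_lit 12))
    (@En.n l50 (nat_lit 7131) (nat_lit 15) (nat_lit 2))))
  (@Cl.mk (nat_lit 0x2000b000a0007000d000a000500030006000c000b000600090004000e0005) (nat_lit 0x150350008904020) (nat_lit 16) Lb.e (@T16.mk En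
    (@En.n l20300 (nat_lit 6666) (nat_lit 7) (nat_lit 5))
    (@En.n l601 (nat_lit 7847) (nat_lit 1) (nat_lit 14))
    (@En.n l1236 (nat_lit 8733) (nat_lit 2) (nat_lit 4))
    (@En.n l15358 (nat_lit 3908) (nat_lit 9) (nat_lit 9))
    (@En.n l25178 (nat_lit 7817) (nat_lit 4) (nat_lit 6))
    (@En.n l17986 (nat_lit 7420) (nat_lit 5) (nat_lit 11))
    (@En.n l3530 (nat_lit 9443) (nat_lit 7) (nat_lit 12))
    (@En.i (nat_lit 1642) (nat_lit 7) (nat_lit 6))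
    (@En.n l152 (nat_lit 7134) (nat_lit 8) (nat_lit 3))
    (@En.n l3866 (nat_lit 6892) (nat_lit 0) (nat_lit 5))
    (@En.n l22465 (nat_lit 7133) (nat_lit 11) (nat_lit 10))
    (@En.n l20336 (nat_lit 7135) (nat_lit 12) (nat_lit 13))
    (@En.n l38555 (nat_lit 4471) (nat_lit 13) (nat_lit 7))
    (@En.n l15358 (nat_lit 7124) (nat_lit 14) (nat_lit 10))
    (@En.n l7393 (nat_lit 4319) (nat_lit 6) (nat_lit 11))
    (@En.n l50 (nat_lit 7132) (nat_lit 15) (nat_lit 2))))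
  (@Cl.mk (nat_lit 0x2000c000b0007000a0004000b0005000b000a0006000500090005000e0006) (nat_lit 0x550405078005030) (nat_lit 16) Lb.e (@T16.mk En
    (@En.n l34689 (nat_lit 6668) (nat_lit 5) (nat_lit 6))
    (@En.n l34690 (nat_lit 7838) (nat_lit 1) (nat_lit 14))
    (@En.n l117 (nat_lit 8751) (nat_lit 2) (nat_lit 5))
    (@En.n l18910 (nat_lit 7132) (nat_lit 3) (nat_lit 9))
    (@En.n l3480 (nat_lit 7134) (nat_lit 4) (nat_lit 5))
    (@En.n l34691 (nat_lit 7818) (nat_lit 5) (nat_lit 6))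
    (@En.n l28475 (nat_lit 7422) (nat_lit 6) (nat_lit 10))
    (@En.n l13633 (nat_lit 9448) (nat_lit 8) (nat_lit 11))
    (@En.n l18911 (nat_lit 1639) (nat_lit 8) (nat_lit 5))
    (@En.n l18912 (nat_lit 7176) (nat_lit 10) (nat_lit 11))
    (@En.i (nat_lit 7240) (nat_lit 10) (nat_lit 4))
    (@En.n l34691 (nat_lit 6033) (nat_lit 8) (nat_lit 10))
    (@En.n l18290 (nat_lit 3147) (nat_lit 13) (nat_lit 7))
    (@En.n l3480 (nat_lit 7127) (nat_lit 14) (nat_lit 11))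
    (@En.n l34573 (nat_lit 4320) (nat_lit 3) (nat_lit 12))
    (@En.n l28 (nat_lit 7133) (nat_lit 15) (nat_lit 2))))
  (@Cl.mk (nat_lit 0x2000c000a0007000d0004000b00030006000c000b000500090004000e0005) (nat_lit 0x870309002901020) (nat_lit 16) Lb.e (@T16.mk En
    (@En.n l9902 (nat_lit 6667) (nat_lit 7) (nat_lit 5))
    (@En.n l24531 (nat_lit 7859) (nat_lit 1) (nat_lit 14))
    (@En.i (nat_lit 7428) (nat_lit 2) (nat_lit 4))
    (@En.n l10089 (nat_lit 664) (nat_lit 3) (nat_lit 9))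
    (@En.n l25167 (nat_lit 11250) (nat_lit 4) (nat_lit 5))
    (@En.n l77 (nat_lit 7417) (nat_lit 5) (nat_lit 11))
    (@En.n l2125 (nat_lit 9447) (nat_lit 7) (nat_lit 12))
    (@En.n l152 (nat_lit 5599) (nat_lit 12) (nat_lit 6))
    (@En.n l117 (nat_lit 7132) (nat_lit 8) (nat_lit 3))
    (@En.n l781 (nat_lit 7172) (nat_lit 0) (nat_lit 11))
    (@En.n l19001 (nat_lit 7477) (nat_lit 10) (nat_lit 4))
    (@En.n l17017 (nat_lit 7769) (nat_lit 12) (nat_lit 13))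
    (@En.n l10089 (nat_lit 4472) (nat_lit 13) (nat_lit 7))
    (@En.i (nat_lit 7123) (nat_lit 14) (nat_lit 10))
    (@En.i (nat_lit 11095) (nat_lit 3) (nat_lit 12))
    (@En.n l50 (nat_lit 7134) (nat_lit 15) (nat_lit 2))))
  (@Cl.mk (nat_lit 0x2000c000a000d000900040003000b0006000c000b000700050004000e0005) (nat_lit 0x1523006089000a0) (nat_lit 16) Lb.e (@T16.mk En
    (@En.n l12328 (nat_lit 6197) (nat_lit 6) (nat_lit 5))
    (@En.n l24377 (nat_lit 7857) (nat_lit 1) (nat_lit 14))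
    (@En.n l7402 (nat_lit 7775) (nat_lit 2) (nat_lit 4))
    (@En.i (nat_lit 2999) (nat_lit 3) (nat_lit 5))
    (@En.n l681 (nat_lit 7815) (nat_lit 4) (nat_lit 7))
    (@En.n l217 (nat_lit 7327) (nat_lit 5) (nat_lit 11))
    (@En.n l1836 (nat_lit 7691) (nat_lit 7) (nat_lit 12))
    (@En.n l10861 (nat_lit 7132) (nat_lit 7) (nat_lit 6))
    (@En.n l8017 (nat_lit 7133) (nat_lit 9) (nat_lit 11))
    (@En.n l10862 (nat_lit 7769) (nat_lit 9) (nat_lit 3))
    (@En.n l5162 (nat_lit 6893) (nat_lit 0) (nat_lit 4))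
    (@En.n l9530 (nat_lit 6038) (nat_lit 12) (nat_lit 9))
    (@En.i (nat_lit 1948) (nat_lit 5) (nat_lit 13))
    (@En.n l11281 (nat_lit 7126) (nat_lit 14) (nat_lit 10))
    (@En.i (nat_lit 4321) (nat_lit 3) (nat_lit 12))
    (@En.n l17 (nat_lit 7135) (nat_lit 15) (nat_lit 2))))
noncomputable def a446 : T16 Cl := @T16.mk Cl
  (@Cl.mk (nat_lit 0x200060006000e000b0002000c0008000b00050004000a000a0005000e0008) (nat_lit 0x5305100044046) (nat_lit 16) Lb.e (@T16.mk En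
    (@En.n l10794 (nat_lit 7137) (nat_lit 5) (nat_lit 8))
    (@En.n l18 (nat_lit 5706) (nat_lit 1) (nat_lit 14))
    (@En.n l10795 (nat_lit 1556) (nat_lit 2) (nat_lit 5))
    (@En.n l61 (nat_lit 7141) (nat_lit 9) (nat_lit 10))
    (@En.n l3860 (nat_lit 7178) (nat_lit 10) (nat_lit 10))
    (@En.i (nat_lit 5143) (nat_lit 5) (nat_lit 4))
    (@En.n l10796 (nat_lit 9015) (nat_lit 6) (nat_lit 5))
    (@En.n l10795 (nat_lit 13898) (nat_lit 7) (nat_lit 11))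
    (@En.n l3860 (nat_lit 7106) (nat_lit 14) (nat_lit 8))
    (@En.n l10797 (nat_lit 6025) (nat_lit 10) (nat_lit 12))
    (@En.n l11 (nat_lit 7136) (nat_lit 10) (nat_lit 2))
    (@En.n l10798 (nat_lit 5020) (nat_lit 12) (nat_lit 11))
    (@En.n l10799 (nat_lit 6934) (nat_lit 13) (nat_lit 14))
    (@En.n l10800 (nat_lit 5384) (nat_lit 10) (nat_lit 6))
    (@En.n l6081 (nat_lit 6357) (nat_lit 3) (nat_lit 6))
    (@En.n l3 (nat_lit 7136) (nat_lit 15) (nat_lit 2))))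
  (@Cl.mk (nat_lit 0x2000b00080008000b00060005000b000b00050008000800050005000e000a) (nat_lit 0x502100540520043) (nat_lit 16) Lb.e (@T16.mk En
    (@En.n l19167 (nat_lit 5015) (nat_lit 13) (nat_lit 10))
    (@En.n l19168 (nat_lit 6927) (nat_lit 1) (nat_lit 14))
    (@En.n l19169 (nat_lit 5382) (nat_lit 11) (nat_lit 5))
    (@En.n l13633 (nat_lit 6356) (nat_lit 3) (nat_lit 5))
    (@En.n l19170 (nat_lit 7138) (nat_lit 4) (nat_lit 8))
    (@En.n l13633 (nat_lit 5707) (nat_lit 10) (nat_lit 8))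
    (@En.n l19171 (nat_lit 1565) (nat_lit 6) (nat_lit 5))
    (@En.n l19172 (nat_lit 7139) (nat_lit 8) (nat_lit 11))
    (@En.n l19173 (nat_lit 7179) (nat_lit 9) (nat_lit 11))
    (@En.i (nat_lit 5140) (nat_lit 9) (nat_lit 5))
    (@En.n l19174 (nat_lit 9013) (nat_lit 11) (nat_lit 6))
    (@En.n l217 (nat_lit 7136) (nat_lit 7) (nat_lit 11))
    (@En.n l13637 (nat_lit 7136) (nat_lit 8) (nat_lit 8))
    (@En.n l19173 (nat_lit 7986) (nat_lit 14) (nat_lit 8))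
    (@En.n l19175 (nat_lit 5773) (nat_lit 3) (nat_lit 11))
    (@En.n l11 (nat_lit 7137) (nat_lit 15) (nat_lit 2))))
  (@Cl.mk (nat_lit 0x2000a000e00080002000b00070006000c000c0005000800040004000e0009) (nat_lit 0x591020044010024) (nat_lit 16) Lb.e (@T16.mk En
    (@En.n l9635 (nat_lit 5019) (nat_lit 4) (nat_lit 9))
    (@En.n l3786 (nat_lit 6928) (nat_lit 1) (nat_lit 14))
    (@En.n l4686 (nat_lit 5383) (nat_lit 12) (nat_lit 4))
    (@En.n l3832 (nat_lit 7142) (nat_lit 7) (nat_lit 4))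
    (@En.n l2900 (nat_lit 5499) (nat_lit 10) (nat_lit 8))
    (@En.n l77 (nat_lit 1578) (nat_lit 5) (nat_lit 5))
    (@En.n l9636 (nat_lit 7140) (nat_lit 7) (nat_lit 12))
    (@En.n l9637 (nat_lit 7183) (nat_lit 8) (nat_lit 12))
    (@En.n l7573 (nat_lit 5138) (nat_lit 8) (nat_lit 6))
    (@En.n l2900 (nat_lit 9012) (nat_lit 14) (nat_lit 7))
    (@En.n l9638 (nat_lit 7137) (nat_lit 11) (nat_lit 11))
    (@En.n l3 (nat_lit 7138) (nat_lit 11) (nat_lit 2))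
    (@En.n l9639 (nat_lit 7137) (nat_lit 13) (nat_lit 8))
    (@En.i (nat_lit 12564) (nat_lit 1) (nat_lit 14))
    (@En.n l9640 (nat_lit 5770) (nat_lit 2) (nat_lit 10))
    (@En.n l17 (nat_lit 7138) (nat_lit 15) (nat_lit 2))))
  (@Cl.mk (nat_lit 0x2000b00090009000c00060005000b000400070007000e00050002000e000a) (nat_lit 0x666000300090056) (nat_lit 16) Lb.e (@T16.mk En
    (@En.n l7931 (nat_lit 5016) (nat_lit 14) (nat_lit 10))
    (@En.n l6232 (nat_lit 6932) (nat_lit 1) (nat_lit 14))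
    (@En.n l18 (nat_lit 7139) (nat_lit 2) (nat_lit 2))
    (@En.n l7982 (nat_lit 7137) (nat_lit 3) (nat_lit 5))
    (@En.n l7983 (nat_lit 7514) (nat_lit 1) (nat_lit 14))
    (@En.n l7984 (nat_lit 7140) (nat_lit 5) (nat_lit 7))
    (@En.n l7985 (nat_lit 5702) (nat_lit 11) (nat_lit 7))
    (@En.n l7986 (nat_lit 1866) (nat_lit 7) (nat_lit 4))
    (@En.n l7987 (nat_lit 5112) (nat_lit 9) (nat_lit 11))
    (@En.n l7986 (nat_lit 4153) (nat_lit 9) (nat_lit 5))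
    (@En.n l4578 (nat_lit 9014) (nat_lit 7) (nat_lit 6))
    (@En.n l7988 (nat_lit 7141) (nat_lit 12) (nat_lit 12))
    (@En.n l7989 (nat_lit 7141) (nat_lit 13) (nat_lit 9))
    (@En.n l420 (nat_lit 7981) (nat_lit 14) (nat_lit 9))
    (@En.n l4646 (nat_lit 5775) (nat_lit 12) (nat_lit 11))
    (@En.n l3 (nat_lit 7139) (nat_lit 15) (nat_lit 2))))
  (@Cl.mk (nat_lit 0x2000a000e00090002000c00070006000c00040007000e00040002000e0009) (nat_lit 0x6a7010030090035) (nat_lit 16) Lb.e (@T16.mk En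
    (@En.n l3385 (nat_lit 5018) (nat_lit 14) (nat_lit 9))
    (@En.i (nat_lit 6931) (nat_lit 1) (nat_lit 14))
    (@En.n l11 (nat_lit 7140) (nat_lit 2) (nat_lit 2))
    (@En.n l3386 (nat_lit 7138) (nat_lit 3) (nat_lit 4))
    (@En.n l387 (nat_lit 4852) (nat_lit 5) (nat_lit 14))
    (@En.n l3387 (nat_lit 5500) (nat_lit 11) (nat_lit 7))
    (@En.n l3388 (nat_lit 1868) (nat_lit 6) (nat_lit 4))
    (@En.n l810 (nat_lit 6629) (nat_lit 8) (nat_lit 12))
    (@En.n l3387 (nat_lit 5136) (nat_lit 8) (nat_lit 6))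
    (@En.n l3389 (nat_lit 8087) (nat_lit 14) (nat_lit 7))
    (@En.n l3390 (nat_lit 7139) (nat_lit 11) (nat_lit 12))
    (@En.n l18 (nat_lit 7140) (nat_lit 11) (nat_lit 2))
    (@En.n l3391 (nat_lit 7139) (nat_lit 13) (nat_lit 9))
    (@En.n l3392 (nat_lit 12613) (nat_lit 1) (nat_lit 14))
    (@En.n l3393 (nat_lit 5776) (nat_lit 12) (nat_lit 10))
    (@En.n l172 (nat_lit 7140) (nat_lit 15) (nat_lit 2))))
  (@Cl.mk (nat_lit 0x2000c0009000c00050004000a0004000e00070002000e00060002000e000b) (nat_lit 0x65a003030070067) (nat_lit 16) Lb.e (@T16.mk En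
    (@En.n l3868 (nat_lit 5017) (nat_lit 14) (nat_lit 11))
    (@En.n l3869 (nat_lit 6935) (nat_lit 1) (nat_lit 14))
    (@En.n l17 (nat_lit 7141) (nat_lit 2) (nat_lit 2))
    (@En.i (nat_lit 7136) (nat_lit 14) (nat_lit 6))
    (@En.n l1531 (nat_lit 5889) (nat_lit 1) (nat_lit 14))
    (@En.n l3 (nat_lit 7141) (nat_lit 5) (nat_lit 2))
    (@En.n l3806 (nat_lit 7139) (nat_lit 6) (nat_lit 7))
    (@En.n l3870 (nat_lit 5704) (nat_lit 1) (nat_lit 14))
    (@En.n l3871 (nat_lit 1867) (nat_lit 8) (nat_lit 4))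
    (@En.n l3806 (nat_lit 5117) (nat_lit 10) (nat_lit 10))
    (@En.i (nat_lit 5146) (nat_lit 10) (nat_lit 4))
    (@En.n l3868 (nat_lit 9016) (nat_lit 8) (nat_lit 5))
    (@En.n l3872 (nat_lit 12860) (nat_lit 6) (nat_lit 12))
    (@En.n l3806 (nat_lit 7980) (nat_lit 14) (nat_lit 9))
    (@En.n l3806 (nat_lit 6028) (nat_lit 12) (nat_lit 12))
    (@En.n l11 (nat_lit 7141) (nat_lit 15) (nat_lit 2))))
  (@Cl.mk (nat_lit 0x2000a00070006000c0006000d000600040003000e00090002000a000e000a) (nat_lit 0x700501000370561) (nat_lit 16) Lb.e (@T16.mk En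
    (@En.n l9677 (nat_lit 6361) (nat_lit 13) (nat_lit 10))
    (@En.n l1029 (nat_lit 12570) (nat_lit 1) (nat_lit 14))
    (@En.n l9678 (nat_lit 7827) (nat_lit 2) (nat_lit 10))
    (@En.n l50 (nat_lit 7142) (nat_lit 3) (nat_lit 2))
    (@En.i (nat_lit 5911) (nat_lit 4) (nat_lit 9))
    (@En.n l9679 (nat_lit 9838) (nat_lit 1) (nat_lit 14))
    (@En.n l28 (nat_lit 7145) (nat_lit 6) (nat_lit 3))
    (@En.n l9680 (nat_lit 7140) (nat_lit 3) (nat_lit 4))
    (@En.n l9681 (nat_lit 1568) (nat_lit 4) (nat_lit 6))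
    (@En.n l9682 (nat_lit 4851) (nat_lit 6) (nat_lit 13))
    (@En.n l9683 (nat_lit 7726) (nat_lit 6) (nat_lit 6))
    (@En.n l9683 (nat_lit 9519) (nat_lit 8) (nat_lit 12))
    (@En.n l763 (nat_lit 3052) (nat_lit 8) (nat_lit 6))
    (@En.i (nat_lit 8332) (nat_lit 14) (nat_lit 7))
    (@En.n l763 (nat_lit 6356) (nat_lit 11) (nat_lit 10))
    (@En.n l3 (nat_lit 7142) (nat_lit 15) (nat_lit 2))))
  (@Cl.mk (nat_lit 0x2000900070006000d000c0007000300070004000e00090002000a000e0009) (nat_lit 0x700560000970696) (nat_lit 16) Lb.e (@T16.mk En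
    (@En.n l6267 (nat_lit 7144) (nat_lit 13) (nat_lit 9))
    (@En.n l1029 (nat_lit 11749) (nat_lit 1) (nat_lit 14))
    (@En.n l12215 (nat_lit 7823) (nat_lit 2) (nat_lit 10))
    (@En.n l50 (nat_lit 7143) (nat_lit 3) (nat_lit 2))
    (@En.i (nat_lit 5909) (nat_lit 4) (nat_lit 9))
    (@En.n l3966 (nat_lit 6501) (nat_lit 1) (nat_lit 14))
    (@En.n l12216 (nat_lit 7138) (nat_lit 2) (nat_lit 4))
    (@En.n l12217 (nat_lit 1390) (nat_lit 7) (nat_lit 7))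
    (@En.n l11 (nat_lit 7145) (nat_lit 8) (nat_lit 3))
    (@En.n l12218 (nat_lit 7699) (nat_lit 0) (nat_lit 7))
    (@En.n l55 (nat_lit 7142) (nat_lit 11) (nat_lit 12))
    (@En.n l12219 (nat_lit 11518) (nat_lit 8) (nat_lit 13))
    (@En.n l763 (nat_lit 7349) (nat_lit 8) (nat_lit 6))
    (@En.i (nat_lit 8334) (nat_lit 14) (nat_lit 7))
    (@En.n l12220 (nat_lit 7147) (nat_lit 11) (nat_lit 9))
    (@En.n l3 (nat_lit 7143) (nat_lit 15) (nat_lit 2))))
  (@Cl.mk (nat_lit 0x2000b00090009000800060005000c000b00070007000400080005000e000a) (nat_lit 0x155600a60001021) (nat_lit 16) Lb.e (@T16.mk En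
    (@En.n l25886 (nat_lit 5917) (nat_lit 12) (nat_lit 10))
    (@En.n l21485 (nat_lit 6951) (nat_lit 1) (nat_lit 14))
    (@En.n l8547 (nat_lit 7137) (nat_lit 2) (nat_lit 5))
    (@En.n l1898 (nat_lit 1396) (nat_lit 3) (nat_lit 8))
    (@En.n l15454 (nat_lit 7520) (nat_lit 4) (nat_lit 4))
    (@En.n l15455 (nat_lit 7143) (nat_lit 9) (nat_lit 7))
    (@En.n l25559 (nat_lit 7518) (nat_lit 6) (nat_lit 7))
    (@En.n l8548 (nat_lit 6361) (nat_lit 8) (nat_lit 11))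
    (@En.n l2720 (nat_lit 9384) (nat_lit 9) (nat_lit 12))
    (@En.i (nat_lit 7347) (nat_lit 9) (nat_lit 5))
    (@En.n l2750 (nat_lit 8331) (nat_lit 11) (nat_lit 6))
    (@En.n l5861 (nat_lit 7525) (nat_lit 12) (nat_lit 8))
    (@En.n l15458 (nat_lit 6294) (nat_lit 7) (nat_lit 9))
    (@En.n l15488 (nat_lit 9837) (nat_lit 14) (nat_lit 9))
    (@En.n l14435 (nat_lit 5460) (nat_lit 10) (nat_lit 11))
    (@En.n l7 (nat_lit 7144) (nat_lit 15) (nat_lit 2))))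
  (@Cl.mk (nat_lit 0x2000900070006000d0006000d000300070003000e00090002000a000e000a) (nat_lit 0x700702000970586) (nat_lit 16) Lb.e (@T16.mk En
    (@En.n l19493 (nat_lit 7146) (nat_lit 13) (nat_lit 10))
    (@En.n l1029 (nat_lit 12569) (nat_lit 1) (nat_lit 14))
    (@En.i (nat_lit 7828) (nat_lit 2) (nat_lit 10))
    (@En.n l50 (nat_lit 7145) (nat_lit 3) (nat_lit 2))
    (@En.i (nat_lit 5910) (nat_lit 4) (nat_lit 9))
    (@En.i (nat_lit 6502) (nat_lit 1) (nat_lit 14))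
    (@En.i (nat_lit 7142) (nat_lit 6) (nat_lit 3))
    (@En.n l11750 (nat_lit 1698) (nat_lit 7) (nat_lit 7))
    (@En.i (nat_lit 7143) (nat_lit 8) (nat_lit 3))
    (@En.i (nat_lit 4853) (nat_lit 0) (nat_lit 13))
    (@En.n l22303 (nat_lit 7149) (nat_lit 6) (nat_lit 6))
    (@En.i (nat_lit 11519) (nat_lit 8) (nat_lit 13))
    (@En.n l763 (nat_lit 3057) (nat_lit 8) (nat_lit 6))
    (@En.i (nat_lit 8333) (nat_lit 14) (nat_lit 7))
    (@En.n l763 (nat_lit 7148) (nat_lit 11) (nat_lit 9))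
    (@En.n l3 (nat_lit 7145) (nat_lit 15) (nat_lit 2))))
  (@Cl.mk (nat_lit 0x2000b000a000a000800060005000c00060006000d000400080003000e000a) (nat_lit 0x155500a007030c8) (nat_lit 16) Lb.e (@T16.mk En
    (@En.n l68 (nat_lit 5915) (nat_lit 14) (nat_lit 10))
    (@En.n l1236 (nat_lit 6953) (nat_lit 1) (nat_lit 14))
    (@En.n l16457 (nat_lit 6361) (nat_lit 2) (nat_lit 3))
    (@En.n l16458 (nat_lit 1695) (nat_lit 3) (nat_lit 8))
    (@En.n l16459 (nat_lit 7144) (nat_lit 4) (nat_lit 4))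
    (@En.i (nat_lit 7516) (nat_lit 6) (nat_lit 13))
    (@En.n l11469 (nat_lit 7145) (nat_lit 10) (nat_lit 6))
    (@En.n l16460 (nat_lit 3354) (nat_lit 7) (nat_lit 6))
    (@En.n l601 (nat_lit 9388) (nat_lit 9) (nat_lit 12))
    (@En.n l16461 (nat_lit 7319) (nat_lit 9) (nat_lit 5))
    (@En.n l16462 (nat_lit 8330) (nat_lit 11) (nat_lit 6))
    (@En.n l16463 (nat_lit 7641) (nat_lit 12) (nat_lit 8))
    (@En.n l16464 (nat_lit 6293) (nat_lit 13) (nat_lit 10))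
    (@En.n l16465 (nat_lit 10243) (nat_lit 14) (nat_lit 10))
    (@En.n l8015 (nat_lit 5186) (nat_lit 12) (nat_lit 11))
    (@En.n l67 (nat_lit 7146) (nat_lit 15) (nat_lit 2))))
  (@Cl.mk (nat_lit 0x2000b0006000a000900060005000d000b000600030007000a0005000e000a) (nat_lit 0x208600a60006031) (nat_lit 16) Lb.e (@T16.mk En
    (@En.n l25924 (nat_lit 6299) (nat_lit 11) (nat_lit 10))
    (@En.n l1897 (nat_lit 11208) (nat_lit 1) (nat_lit 14))
    (@En.i (nat_lit 7144) (nat_lit 2) (nat_lit 5))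
    (@En.n l3530 (nat_lit 7996) (nat_lit 8) (nat_lit 10))
    (@En.i (nat_lit 1288) (nat_lit 4) (nat_lit 7))
    (@En.n l4659 (nat_lit 7148) (nat_lit 5) (nat_lit 3))
    (@En.n l14750 (nat_lit 5252) (nat_lit 0) (nat_lit 6))
    (@En.n l1767 (nat_lit 6356) (nat_lit 8) (nat_lit 11))
    (@En.i (nat_lit 9868) (nat_lit 9) (nat_lit 13))
    (@En.i (nat_lit 7262) (nat_lit 9) (nat_lit 5))
    (@En.n l20455 (nat_lit 10293) (nat_lit 4) (nat_lit 6))
    (@En.n l627 (nat_lit 7526) (nat_lit 12) (nat_lit 9))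
    (@En.n l14750 (nat_lit 7525) (nat_lit 13) (nat_lit 10))
    (@En.n l8604 (nat_lit 7676) (nat_lit 14) (nat_lit 6))
    (@En.n l630 (nat_lit 5476) (nat_lit 9) (nat_lit 11))
    (@En.n l7 (nat_lit 7147) (nat_lit 15) (nat_lit 2))))
  (@Cl.mk (nat_lit 0x2000b0006000b000900060005000d0005000c00030007000a0004000e000a) (nat_lit 0x1056007060060a1) (nat_lit 16) Lb.e (@T16.mk En
    (@En.n l6444 (nat_lit 6301) (nat_lit 11) (nat_lit 10))
    (@En.i (nat_lit 11207) (nat_lit 1) (nat_lit 14))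
    (@En.n l28323 (nat_lit 7520) (nat_lit 2) (nat_lit 4))
    (@En.i (nat_lit 7994) (nat_lit 8) (nat_lit 10))
    (@En.n l1081 (nat_lit 1547) (nat_lit 4) (nat_lit 7))
    (@En.n l1080 (nat_lit 7147) (nat_lit 5) (nat_lit 3))
    (@En.n l7645 (nat_lit 7587) (nat_lit 0) (nat_lit 12))
    (@En.n l117 (nat_lit 5155) (nat_lit 7) (nat_lit 5))
    (@En.i (nat_lit 9869) (nat_lit 9) (nat_lit 13))
    (@En.i (nat_lit 7264) (nat_lit 9) (nat_lit 5))
    (@En.n l6444 (nat_lit 10291) (nat_lit 4) (nat_lit 6))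
    (@En.n l2642 (nat_lit 7584) (nat_lit 12) (nat_lit 9))
    (@En.n l1003 (nat_lit 7641) (nat_lit 13) (nat_lit 11))
    (@En.n l1353 (nat_lit 7673) (nat_lit 14) (nat_lit 6))
    (@En.n l18 (nat_lit 5472) (nat_lit 9) (nat_lit 11))
    (@En.n l50 (nat_lit 7148) (nat_lit 15) (nat_lit 2))))
  (@Cl.mk (nat_lit 0x20009000d000a00090003000a000800070006000d000700060003000e0008) (nat_lit 0x361708600600021) (nat_lit 16) Lb.e (@T16.mk En
    (@En.n l22951 (nat_lit 5441) (nat_lit 14) (nat_lit 8))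
    (@En.n l23990 (nat_lit 7243) (nat_lit 1) (nat_lit 14))
    (@En.n l3489 (nat_lit 7726) (nat_lit 2) (nat_lit 3))
    (@En.n l18 (nat_lit 6043) (nat_lit 3) (nat_lit 6))
    (@En.i (nat_lit 7701) (nat_lit 4) (nat_lit 7))
    (@En.n l936 (nat_lit 6578) (nat_lit 6) (nat_lit 13))
    (@En.n l55 (nat_lit 9992) (nat_lit 6) (nat_lit 6))
    (@En.n l9885 (nat_lit 7112) (nat_lit 7) (nat_lit 7))
    (@En.n l22951 (nat_lit 10191) (nat_lit 14) (nat_lit 8))
    (@En.n l9885 (nat_lit 5155) (nat_lit 10) (nat_lit 10))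
    (@En.n l25298 (nat_lit 6533) (nat_lit 10) (nat_lit 3))
    (@En.n l7011 (nat_lit 7143) (nat_lit 0) (nat_lit 9))
    (@En.n l22959 (nat_lit 3354) (nat_lit 13) (nat_lit 10))
    (@En.n l9970 (nat_lit 12224) (nat_lit 14) (nat_lit 13))
    (@En.i (nat_lit 6919) (nat_lit 12) (nat_lit 9))
    (@En.n l67 (nat_lit 7149) (nat_lit 15) (nat_lit 2))))
  (@Cl.mk (nat_lit 0x20006000a000e000b0002000a000800060005000d000a00060003000e0008) (nat_lit 0x661084003300b1) (nat_lit 16) Lb.e (@T16.mk En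
    (@En.n l9718 (nat_lit 6196) (nat_lit 5) (nat_lit 8))
    (@En.n l396 (nat_lit 4760) (nat_lit 1) (nat_lit 14))
    (@En.n l9719 (nat_lit 7151) (nat_lit 2) (nat_lit 3))
    (@En.i (nat_lit 1905) (nat_lit 8) (nat_lit 6))
    (@En.n l420 (nat_lit 7152) (nat_lit 4) (nat_lit 10))
    (@En.n l645 (nat_lit 9860) (nat_lit 6) (nat_lit 13))
    (@En.i (nat_lit 6134) (nat_lit 6) (nat_lit 5))
    (@En.n l1652 (nat_lit 8671) (nat_lit 7) (nat_lit 6))
    (@En.n l9718 (nat_lit 3740) (nat_lit 14) (nat_lit 8))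
    (@En.n l9720 (nat_lit 9357) (nat_lit 10) (nat_lit 10))
    (@En.n l67 (nat_lit 7150) (nat_lit 10) (nat_lit 2))
    (@En.n l68 (nat_lit 5314) (nat_lit 12) (nat_lit 11))
    (@En.n l4003 (nat_lit 6627) (nat_lit 13) (nat_lit 14))
    (@En.n l9718 (nat_lit 7145) (nat_lit 2) (nat_lit 10))
    (@En.n l9721 (nat_lit 6191) (nat_lit 3) (nat_lit 6))
    (@En.n l18 (nat_lit 7150) (nat_lit 15) (nat_lit 2))))
  (@Cl.mk (nat_lit 0x20005000a000e000b0002000b000800060005000d0005000b0003000e0008) (nat_lit 0x682051004030b5) (nat_lit 16) Lb.e (@T16.mk En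
    (@En.n l517 (nat_lit 6481) (nat_lit 5) (nat_lit 8))
    (@En.n l3422 (nat_lit 7152) (nat_lit 1) (nat_lit 14))
    (@En.n l3423 (nat_lit 7150) (nat_lit 2) (nat_lit 3))
    (@En.i (nat_lit 2478) (nat_lit 9) (nat_lit 11))
    (@En.n l3423 (nat_lit 1567) (nat_lit 4) (nat_lit 5))
    (@En.i (nat_lit 9864) (nat_lit 6) (nat_lit 13))
    (@En.n l3423 (nat_lit 6132) (nat_lit 6) (nat_lit 5))
    (@En.i (nat_lit 8668) (nat_lit 7) (nat_lit 6))
    (@En.n l1924 (nat_lit 1031) (nat_lit 14) (nat_lit 8))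
    (@En.n l3424 (nat_lit 9524) (nat_lit 10) (nat_lit 11))
    (@En.n l28 (nat_lit 7151) (nat_lit 10) (nat_lit 2))
    (@En.n l77 (nat_lit 7153) (nat_lit 12) (nat_lit 11))
    (@En.n l1578 (nat_lit 6625) (nat_lit 13) (nat_lit 14))
    (@En.n l3425 (nat_lit 7142) (nat_lit 2) (nat_lit 10))
    (@En.i (nat_lit 6890) (nat_lit 13) (nat_lit 5))
    (@En.n l3 (nat_lit 7151) (nat_lit 15) (nat_lit 2))))
noncomputable def a447 : T16 Cl := @T16.mk Cl
  (@Cl.mk (nat_lit 0x200060005000a000e000b0002000b000900060005000a0005000b000e0007) (nat_lit 0x8b207100204a0) (nat_lit 16) Lb.e (@T16.mk En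
    (@En.n l8496 (nat_lit 6482) (nat_lit 6) (nat_lit 7))
    (@En.i (nat_lit 5834) (nat_lit 4) (nat_lit 14))
    (@En.n l8497 (nat_lit 2464) (nat_lit 2) (nat_lit 11))
    (@En.i (nat_lit 1570) (nat_lit 3) (nat_lit 5))
    (@En.n l645 (nat_lit 11268) (nat_lit 4) (nat_lit 10))
    (@En.i (nat_lit 6129) (nat_lit 5) (nat_lit 5))
    (@En.n l8498 (nat_lit 8669) (nat_lit 6) (nat_lit 6))
    (@En.n l77 (nat_lit 1030) (nat_lit 14) (nat_lit 9))
    (@En.n l197 (nat_lit 9523) (nat_lit 9) (nat_lit 11))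
    (@En.n l67 (nat_lit 7152) (nat_lit 9) (nat_lit 2))
    (@En.n l68 (nat_lit 7154) (nat_lit 11) (nat_lit 11))
    (@En.n l645 (nat_lit 6622) (nat_lit 12) (nat_lit 14))
    (@En.n l4554 (nat_lit 9838) (nat_lit 13) (nat_lit 10))
    (@En.n l8499 (nat_lit 7151) (nat_lit 14) (nat_lit 5))
    (@En.n l2179 (nat_lit 6491) (nat_lit 4) (nat_lit 6))
    (@En.n l50 (nat_lit 7152) (nat_lit 15) (nat_lit 2))))
  (@Cl.mk (nat_lit 0x20005000b000b000b000a0007000500050005000d0006000b0003000e0009) (nat_lit 0x212400005060c2) (nat_lit 16) Lb.e (@T16.mk En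
    (@En.n l833 (nat_lit 6039) (nat_lit 14) (nat_lit 9))
    (@En.n l3621 (nat_lit 7154) (nat_lit 1) (nat_lit 14))
    (@En.n l2243 (nat_lit 5314) (nat_lit 2) (nat_lit 3))
    (@En.i (nat_lit 2476) (nat_lit 3) (nat_lit 11))
    (@En.n l2243 (nat_lit 1571) (nat_lit 4) (nat_lit 6))
    (@En.n l564 (nat_lit 9885) (nat_lit 6) (nat_lit 13))
    (@En.n l237 (nat_lit 7151) (nat_lit 6) (nat_lit 5))
    (@En.n l575 (nat_lit 7156) (nat_lit 7) (nat_lit 5))
    (@En.i (nat_lit 8665) (nat_lit 8) (nat_lit 5))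
    (@En.n l2727 (nat_lit 3860) (nat_lit 10) (nat_lit 7))
    (@En.n l4380 (nat_lit 8086) (nat_lit 11) (nat_lit 10))
    (@En.n l134 (nat_lit 7412) (nat_lit 12) (nat_lit 11))
    (@En.n l577 (nat_lit 7048) (nat_lit 13) (nat_lit 11))
    (@En.i (nat_lit 6361) (nat_lit 14) (nat_lit 11))
    (@En.i (nat_lit 6888) (nat_lit 13) (nat_lit 5))
    (@En.n l3 (nat_lit 7153) (nat_lit 15) (nat_lit 2))))
  (@Cl.mk (nat_lit 0x200060005000b000b000b000a0008000500050005000a0006000b000e0008) (nat_lit 0x31272000305b1) (nat_lit 16) Lb.e (@T16.mk En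
    (@En.n l13478 (nat_lit 6042) (nat_lit 2) (nat_lit 8))
    (@En.i (nat_lit 5202) (nat_lit 4) (nat_lit 14))
    (@En.n l4316 (nat_lit 2475) (nat_lit 2) (nat_lit 11))
    (@En.i (nat_lit 1576) (nat_lit 3) (nat_lit 6))
    (@En.n l287 (nat_lit 11515) (nat_lit 4) (nat_lit 10))
    (@En.n l11 (nat_lit 7152) (nat_lit 5) (nat_lit 5))
    (@En.n l152 (nat_lit 7155) (nat_lit 6) (nat_lit 5))
    (@En.n l4155 (nat_lit 8664) (nat_lit 7) (nat_lit 5))
    (@En.n l77 (nat_lit 3861) (nat_lit 9) (nat_lit 8))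
    (@En.n l55 (nat_lit 9012) (nat_lit 10) (nat_lit 10))
    (@En.n l15437 (nat_lit 7738) (nat_lit 11) (nat_lit 11))
    (@En.n l13481 (nat_lit 7047) (nat_lit 12) (nat_lit 11))
    (@En.n l15438 (nat_lit 9617) (nat_lit 13) (nat_lit 11))
    (@En.n l8520 (nat_lit 7153) (nat_lit 14) (nat_lit 5))
    (@En.n l2179 (nat_lit 7050) (nat_lit 13) (nat_lit 6))
    (@En.n l50 (nat_lit 7154) (nat_lit 15) (nat_lit 2))))
  (@Cl.mk (nat_lit 0x200060005000e000b0002000c000b000900050004000a0005000b000e0007) (nat_lit 0x3403720020490) (nat_lit 16) Lb.e (@T16.mk En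
    (@En.n l6204 (nat_lit 7159) (nat_lit 5) (nat_lit 7))
    (@En.i (nat_lit 5703) (nat_lit 7) (nat_lit 14))
    (@En.n l20054 (nat_lit 2479) (nat_lit 2) (nat_lit 11))
    (@En.n l11 (nat_lit 1623) (nat_lit 3) (nat_lit 5))
    (@En.n l287 (nat_lit 12842) (nat_lit 10) (nat_lit 10))
    (@En.n l11 (nat_lit 6136) (nat_lit 5) (nat_lit 4))
    (@En.n l4155 (nat_lit 8483) (nat_lit 6) (nat_lit 5))
    (@En.n l77 (nat_lit 3864) (nat_lit 13) (nat_lit 9))
    (@En.n l55 (nat_lit 9003) (nat_lit 9) (nat_lit 11))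
    (@En.n l615 (nat_lit 7740) (nat_lit 10) (nat_lit 12))
    (@En.n l3 (nat_lit 7155) (nat_lit 10) (nat_lit 2))
    (@En.i (nat_lit 7154) (nat_lit 12) (nat_lit 11))
    (@En.i (nat_lit 9890) (nat_lit 13) (nat_lit 14))
    (@En.n l8520 (nat_lit 7156) (nat_lit 14) (nat_lit 5))
    (@En.n l2179 (nat_lit 7160) (nat_lit 3) (nat_lit 6))
    (@En.n l50 (nat_lit 7155) (nat_lit 15) (nat_lit 2))))
  (@Cl.mk (nat_lit 0x20005000e000b0002000c000b000800050004000d0005000b0003000e0008) (nat_lit 0x230072004050a3) (nat_lit 16) Lb.e (@T16.mk En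
    (@En.i (nat_lit 7158) (nat_lit 4) (nat_lit 8))
    (@En.n l3621 (nat_lit 7155) (nat_lit 1) (nat_lit 14))
    (@En.n l2243 (nat_lit 7157) (nat_lit 2) (nat_lit 3))
    (@En.i (nat_lit 2477) (nat_lit 3) (nat_lit 11))
    (@En.n l6511 (nat_lit 1608) (nat_lit 4) (nat_lit 5))
    (@En.n l564 (nat_lit 9889) (nat_lit 6) (nat_lit 13))
    (@En.n l6511 (nat_lit 6135) (nat_lit 6) (nat_lit 4))
    (@En.i (nat_lit 8485) (nat_lit 7) (nat_lit 5))
    (@En.n l2727 (nat_lit 3867) (nat_lit 13) (nat_lit 8))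
    (@En.n l644 (nat_lit 9001) (nat_lit 10) (nat_lit 11))
    (@En.n l287 (nat_lit 7741) (nat_lit 11) (nat_lit 12))
    (@En.n l11 (nat_lit 7156) (nat_lit 11) (nat_lit 2))
    (@En.i (nat_lit 7153) (nat_lit 13) (nat_lit 11))
    (@En.i (nat_lit 3946) (nat_lit 1) (nat_lit 14))
    (@En.i (nat_lit 6895) (nat_lit 13) (nat_lit 5))
    (@En.n l3 (nat_lit 7156) (nat_lit 15) (nat_lit 2))))
  (@Cl.mk (nat_lit 0x20006000e000b0002000c000a000800050004000d000a00060003000e0008) (nat_lit 0x230085003300a4) (nat_lit 16) Lb.e (@T16.mk En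
    (@En.i (nat_lit 7161) (nat_lit 4) (nat_lit 8))
    (@En.n l396 (nat_lit 5306) (nat_lit 1) (nat_lit 14))
    (@En.n l3917 (nat_lit 7156) (nat_lit 2) (nat_lit 3))
    (@En.n l11 (nat_lit 4630) (nat_lit 3) (nat_lit 6))
    (@En.n l420 (nat_lit 7155) (nat_lit 4) (nat_lit 10))
    (@En.n l287 (nat_lit 9888) (nat_lit 6) (nat_lit 13))
    (@En.n l11 (nat_lit 6137) (nat_lit 6) (nat_lit 4))
    (@En.n l916 (nat_lit 8491) (nat_lit 7) (nat_lit 5))
    (@En.i (nat_lit 3868) (nat_lit 13) (nat_lit 8))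
    (@En.i (nat_lit 8938) (nat_lit 10) (nat_lit 10))
    (@En.n l10352 (nat_lit 7742) (nat_lit 11) (nat_lit 12))
    (@En.n l3 (nat_lit 7157) (nat_lit 11) (nat_lit 2))
    (@En.i (nat_lit 5314) (nat_lit 13) (nat_lit 11))
    (@En.i (nat_lit 3950) (nat_lit 1) (nat_lit 14))
    (@En.n l916 (nat_lit 7163) (nat_lit 2) (nat_lit 6))
    (@En.n l18 (nat_lit 7157) (nat_lit 15) (nat_lit 2))))
  (@Cl.mk (nat_lit 0x2000b000a0008000800060005000d0006000c0003000800080004000e000a) (nat_lit 0x753005060240a6) (nat_lit 16) Lb.e (@T16.mk En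
    (@En.n l833 (nat_lit 6039) (nat_lit 11) (nat_lit 10))
    (@En.n l322 (nat_lit 3954) (nat_lit 1) (nat_lit 14))
    (@En.n l9819 (nat_lit 7818) (nat_lit 2) (nat_lit 4))
    (@En.n l9820 (nat_lit 8172) (nat_lit 8) (nat_lit 8))
    (@En.n l22032 (nat_lit 7816) (nat_lit 4) (nat_lit 8))
    (@En.n l2243 (nat_lit 7161) (nat_lit 5) (nat_lit 3))
    (@En.n l993 (nat_lit 753) (nat_lit 0) (nat_lit 12))
    (@En.n l22033 (nat_lit 1620) (nat_lit 7) (nat_lit 6))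
    (@En.n l22034 (nat_lit 8180) (nat_lit 9) (nat_lit 13))
    (@En.n l22035 (nat_lit 6172) (nat_lit 9) (nat_lit 5))
    (@En.n l19165 (nat_lit 9394) (nat_lit 4) (nat_lit 6))
    (@En.n l152 (nat_lit 7156) (nat_lit 8) (nat_lit 8))
    (@En.n l19165 (nat_lit 7907) (nat_lit 13) (nat_lit 8))
    (@En.n l644 (nat_lit 9006) (nat_lit 14) (nat_lit 10))
    (@En.n l22036 (nat_lit 7751) (nat_lit 9) (nat_lit 11))
    (@En.n l11 (nat_lit 7158) (nat_lit 15) (nat_lit 2))))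
  (@Cl.mk (nat_lit 0x2000b000a0009000900060005000b0006000c0007000700050004000e000a) (nat_lit 0x3563002060000a3) (nat_lit 16) Lb.e (@T16.mk En
    (@En.n l27451 (nat_lit 6042) (nat_lit 14) (nat_lit 10))
    (@En.i (nat_lit 8178) (nat_lit 1) (nat_lit 14))
    (@En.n l35625 (nat_lit 7158) (nat_lit 2) (nat_lit 4))
    (@En.i (nat_lit 7914) (nat_lit 3) (nat_lit 5))
    (@En.n l31021 (nat_lit 8174) (nat_lit 9) (nat_lit 7))
    (@En.n l35626 (nat_lit 5270) (nat_lit 5) (nat_lit 7))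
    (@En.n l5937 (nat_lit 760) (nat_lit 7) (nat_lit 12))
    (@En.n l31024 (nat_lit 1621) (nat_lit 7) (nat_lit 6))
    (@En.n l287 (nat_lit 9326) (nat_lit 9) (nat_lit 11))
    (@En.n l11 (nat_lit 6171) (nat_lit 9) (nat_lit 5))
    (@En.n l26068 (nat_lit 9173) (nat_lit 11) (nat_lit 6))
    (@En.n l22544 (nat_lit 7155) (nat_lit 7) (nat_lit 9))
    (@En.n l35627 (nat_lit 7162) (nat_lit 13) (nat_lit 9))
    (@En.n l35628 (nat_lit 9008) (nat_lit 14) (nat_lit 10))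
    (@En.n l615 (nat_lit 7744) (nat_lit 12) (nat_lit 11))
    (@En.n l3 (nat_lit 7159) (nat_lit 15) (nat_lit 2))))
  (@Cl.mk (nat_lit 0x2000c000a000800050004000a000d0006000c0003000800060004000e000b) (nat_lit 0x352002503020089) (nat_lit 16) Lb.e (@T16.mk En
    (@En.i (nat_lit 7050) (nat_lit 11) (nat_lit 11))
    (@En.i (nat_lit 7550) (nat_lit 1) (nat_lit 14))
    (@En.n l29364 (nat_lit 7916) (nat_lit 2) (nat_lit 4))
    (@En.n l7 (nat_lit 7912) (nat_lit 3) (nat_lit 6))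
    (@En.n l644 (nat_lit 7914) (nat_lit 4) (nat_lit 8))
    (@En.n l2943 (nat_lit 7162) (nat_lit 5) (nat_lit 3))
    (@En.n l14803 (nat_lit 881) (nat_lit 0) (nat_lit 12))
    (@En.n l7 (nat_lit 7159) (nat_lit 7) (nat_lit 6))
    (@En.n l6238 (nat_lit 7156) (nat_lit 5) (nat_lit 13))
    (@En.n l287 (nat_lit 11681) (nat_lit 10) (nat_lit 10))
    (@En.n l11 (nat_lit 6170) (nat_lit 10) (nat_lit 4))
    (@En.n l6238 (nat_lit 9094) (nat_lit 0) (nat_lit 5))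
    (@En.n l396 (nat_lit 3865) (nat_lit 13) (nat_lit 8))
    (@En.n l26588 (nat_lit 8770) (nat_lit 14) (nat_lit 10))
    (@En.n l615 (nat_lit 7747) (nat_lit 9) (nat_lit 12))
    (@En.n l3 (nat_lit 7160) (nat_lit 15) (nat_lit 2))))
  (@Cl.mk (nat_lit 0x2000b00090008000800060005000d000b00070003000800080005000e000a) (nat_lit 0x756004300350a6) (nat_lit 16) Lb.e (@T16.mk En
    (@En.n l13379 (nat_lit 6040) (nat_lit 11) (nat_lit 10))
    (@En.n l322 (nat_lit 3953) (nat_lit 1) (nat_lit 14))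
    (@En.n l22531 (nat_lit 7910) (nat_lit 2) (nat_lit 5))
    (@En.n l22532 (nat_lit 8173) (nat_lit 8) (nat_lit 8))
    (@En.n l22533 (nat_lit 7732) (nat_lit 4) (nat_lit 8))
    (@En.n l3917 (nat_lit 7158) (nat_lit 5) (nat_lit 3))
    (@En.n l11 (nat_lit 4631) (nat_lit 0) (nat_lit 7))
    (@En.n l22531 (nat_lit 7159) (nat_lit 8) (nat_lit 11))
    (@En.n l22534 (nat_lit 8179) (nat_lit 9) (nat_lit 13))
    (@En.n l11 (nat_lit 6173) (nat_lit 9) (nat_lit 5))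
    (@En.n l22535 (nat_lit 9393) (nat_lit 4) (nat_lit 6))
    (@En.n l217 (nat_lit 7157) (nat_lit 8) (nat_lit 8))
    (@En.n l13380 (nat_lit 7906) (nat_lit 13) (nat_lit 8))
    (@En.i (nat_lit 8935) (nat_lit 14) (nat_lit 9))
    (@En.n l10352 (nat_lit 7749) (nat_lit 9) (nat_lit 11))
    (@En.n l3 (nat_lit 7161) (nat_lit 15) (nat_lit 2))))
  (@Cl.mk (nat_lit 0x2000c0009000800050004000a000d000b00070003000800060005000e000b) (nat_lit 0x352002440040031) (nat_lit 16) Lb.e (@T16.mk En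
    (@En.n l17023 (nat_lit 5313) (nat_lit 11) (nat_lit 11))
    (@En.n l24658 (nat_lit 11672) (nat_lit 1) (nat_lit 14))
    (@En.n l17023 (nat_lit 7907) (nat_lit 2) (nat_lit 5))
    (@En.n l17 (nat_lit 7911) (nat_lit 3) (nat_lit 6))
    (@En.i (nat_lit 8032) (nat_lit 4) (nat_lit 8))
    (@En.n l20805 (nat_lit 7160) (nat_lit 5) (nat_lit 3))
    (@En.n l97 (nat_lit 5273) (nat_lit 0) (nat_lit 7))
    (@En.n l10040 (nat_lit 7917) (nat_lit 8) (nat_lit 11))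
    (@En.n l24659 (nat_lit 7157) (nat_lit 5) (nat_lit 13))
    (@En.n l5021 (nat_lit 11677) (nat_lit 10) (nat_lit 10))
    (@En.i (nat_lit 5657) (nat_lit 10) (nat_lit 4))
    (@En.n l17023 (nat_lit 9084) (nat_lit 0) (nat_lit 5))
    (@En.n l24091 (nat_lit 3866) (nat_lit 13) (nat_lit 8))
    (@En.n l24659 (nat_lit 9731) (nat_lit 14) (nat_lit 9))
    (@En.n l24660 (nat_lit 7851) (nat_lit 9) (nat_lit 12))
    (@En.n l28 (nat_lit 7162) (nat_lit 15) (nat_lit 2))))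
  (@Cl.mk (nat_lit 0x2000c0009000700050004000c000a000d00070004000300090006000e000b) (nat_lit 0x700033700060b9) (nat_lit 16) Lb.e (@T16.mk En
    (@En.i (nat_lit 6197) (nat_lit 12) (nat_lit 11))
    (@En.n l23761 (nat_lit 6489) (nat_lit 1) (nat_lit 14))
    (@En.n l20149 (nat_lit 7909) (nat_lit 2) (nat_lit 6))
    (@En.n l23762 (nat_lit 7910) (nat_lit 3) (nat_lit 9))
    (@En.n l15740 (nat_lit 7906) (nat_lit 4) (nat_lit 3))
    (@En.n l18 (nat_lit 6895) (nat_lit 0) (nat_lit 4))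
    (@En.n l2054 (nat_lit 7161) (nat_lit 6) (nat_lit 7))
    (@En.i (nat_lit 3943) (nat_lit 8) (nat_lit 13))
    (@En.n l23763 (nat_lit 7160) (nat_lit 9) (nat_lit 10))
    (@En.n l23764 (nat_lit 7549) (nat_lit 10) (nat_lit 12))
    (@En.n l4904 (nat_lit 6174) (nat_lit 10) (nat_lit 4))
    (@En.i (nat_lit 9401) (nat_lit 6) (nat_lit 5))
    (@En.n l137 (nat_lit 3871) (nat_lit 13) (nat_lit 7))
    (@En.i (nat_lit 8933) (nat_lit 14) (nat_lit 9))
    (@En.n l23765 (nat_lit 7856) (nat_lit 10) (nat_lit 12))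
    (@En.n l11 (nat_lit 7163) (nat_lit 15) (nat_lit 2))))
  (@Cl.mk (nat_lit 0x20007000c000b000b000a0004000a0005000500090006000d0006000e0003) (nat_lit 0x73120200105090) (nat_lit 16) Lb.e (@T16.mk En
    (@En.n l19588 (nat_lit 7077) (nat_lit 15) (nat_lit 3))
    (@En.n l8012 (nat_lit 13328) (nat_lit 0) (nat_lit 14))
    (@En.n l18149 (nat_lit 7177) (nat_lit 2) (nat_lit 6))
    (@En.n l9865 (nat_lit 7637) (nat_lit 4) (nat_lit 13))
    (@En.n l5403 (nat_lit 3295) (nat_lit 4) (nat_lit 6))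
    (@En.n l9865 (nat_lit 2942) (nat_lit 5) (nat_lit 9))
    (@En.n l575 (nat_lit 7166) (nat_lit 6) (nat_lit 5))
    (@En.n l5403 (nat_lit 7248) (nat_lit 7) (nat_lit 5))
    (@En.n l8012 (nat_lit 10749) (nat_lit 9) (nat_lit 10))
    (@En.n l2669 (nat_lit 7079) (nat_lit 9) (nat_lit 4))
    (@En.n l565 (nat_lit 5407) (nat_lit 11) (nat_lit 10))
    (@En.n l19589 (nat_lit 7078) (nat_lit 12) (nat_lit 11))
    (@En.n l19590 (nat_lit 5557) (nat_lit 13) (nat_lit 11))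
    (@En.n l19591 (nat_lit 7120) (nat_lit 14) (nat_lit 12))
    (@En.n l18149 (nat_lit 12470) (nat_lit 14) (nat_lit 7))
    (@En.n l17 (nat_lit 7164) (nat_lit 15) (nat_lit 2))))
  (@Cl.mk (nat_lit 0x2000b0005000a000500090005000d000d0006000300030007000b000e000b) (nat_lit 0x207020340000716) (nat_lit 16) Lb.e (@T16.mk En
    (@En.n l68 (nat_lit 7077) (nat_lit 11) (nat_lit 11))
    (@En.n l38205 (nat_lit 1959) (nat_lit 4) (nat_lit 14))
    (@En.n l11468 (nat_lit 4862) (nat_lit 2) (nat_lit 11))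
    (@En.n l3471 (nat_lit 12469) (nat_lit 3) (nat_lit 7))
    (@En.n l18 (nat_lit 7169) (nat_lit 13) (nat_lit 3))
    (@En.n l16425 (nat_lit 7166) (nat_lit 0) (nat_lit 3))
    (@En.i (nat_lit 7173) (nat_lit 0) (nat_lit 6))
    (@En.n l25241 (nat_lit 7166) (nat_lit 3) (nat_lit 13))
    (@En.n l11385 (nat_lit 7629) (nat_lit 9) (nat_lit 13))
    (@En.n l27666 (nat_lit 4847) (nat_lit 9) (nat_lit 5))
    (@En.n l27666 (nat_lit 3082) (nat_lit 11) (nat_lit 9))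
    (@En.i (nat_lit 5536) (nat_lit 5) (nat_lit 5))
    (@En.n l1075 (nat_lit 8847) (nat_lit 13) (nat_lit 10))
    (@En.n l16907 (nat_lit 7168) (nat_lit 14) (nat_lit 5))
    (@En.n l11385 (nat_lit 5429) (nat_lit 9) (nat_lit 11))
    (@En.n l67 (nat_lit 7165) (nat_lit 15) (nat_lit 2))))
  (@Cl.mk (nat_lit 0x20007000b000e000b0002000b0005000b000500090005000d0005000e0003) (nat_lit 0x71402020203050) (nat_lit 16) Lb.e (@T16.mk En
    (@En.n l22633 (nat_lit 7165) (nat_lit 5) (nat_lit 3))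
    (@En.n l8012 (nat_lit 13325) (nat_lit 0) (nat_lit 14))
    (@En.i (nat_lit 7171) (nat_lit 2) (nat_lit 5))
    (@En.n l8874 (nat_lit 7633) (nat_lit 9) (nat_lit 13))
    (@En.i (nat_lit 4846) (nat_lit 4) (nat_lit 5))
    (@En.i (nat_lit 3084) (nat_lit 5) (nat_lit 9))
    (@En.i (nat_lit 5625) (nat_lit 6) (nat_lit 5))
    (@En.n l8012 (nat_lit 10750) (nat_lit 8) (nat_lit 11))
    (@En.n l2669 (nat_lit 7167) (nat_lit 14) (nat_lit 5))
    (@En.n l8874 (nat_lit 5431) (nat_lit 10) (nat_lit 11))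
    (@En.n l11 (nat_lit 7166) (nat_lit 10) (nat_lit 2))
    (@En.i (nat_lit 7164) (nat_lit 12) (nat_lit 11))
    (@En.n l2038 (nat_lit 1960) (nat_lit 13) (nat_lit 14))
    (@En.n l8689 (nat_lit 4864) (nat_lit 2) (nat_lit 11))
    (@En.i (nat_lit 12468) (nat_lit 3) (nat_lit 7))
    (@En.n l17 (nat_lit 7166) (nat_lit 15) (nat_lit 2))))
  (@Cl.mk (nat_lit 0x20005000b000400090008000d0005000e000300020007000b0008000e000c) (nat_lit 0x90225030007129) (nat_lit 16) Lb.e (@T16.mk En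
    (@En.i (nat_lit 7079) (nat_lit 11) (nat_lit 12))
    (@En.n l7611 (nat_lit 7166) (nat_lit 12) (nat_lit 14))
    (@En.n l2912 (nat_lit 4884) (nat_lit 13) (nat_lit 8))
    (@En.n l245 (nat_lit 7192) (nat_lit 3) (nat_lit 11))
    (@En.n l4172 (nat_lit 12465) (nat_lit 4) (nat_lit 7))
    (@En.n l7 (nat_lit 7167) (nat_lit 5) (nat_lit 2))
    (@En.i (nat_lit 7168) (nat_lit 6) (nat_lit 3))
    (@En.n l5592 (nat_lit 13324) (nat_lit 0) (nat_lit 14))
    (@En.i (nat_lit 7172) (nat_lit 8) (nat_lit 5))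
    (@En.i (nat_lit 7634) (nat_lit 10) (nat_lit 13))
    (@En.n l2579 (nat_lit 7065) (nat_lit 11) (nat_lit 8))
    (@En.n l250 (nat_lit 3904) (nat_lit 12) (nat_lit 9))
    (@En.n l117 (nat_lit 5532) (nat_lit 6) (nat_lit 4))
    (@En.n l12896 (nat_lit 7021) (nat_lit 8) (nat_lit 11))
    (@En.i (nat_lit 6006) (nat_lit 8) (nat_lit 5))
    (@En.n l3 (nat_lit 7167) (nat_lit 15) (nat_lit 2))))
noncomputable def a448 : T16 Cl := @T16.mk Cl
  (@Cl.mk (nat_lit 0x20005000a000400090008000d000d0006000300030007000b0008000e000c) (nat_lit 0x40225600007129) (nat_lit 16) Lb.e (@T16.mk En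
    (@En.n l11294 (nat_lit 7073) (nat_lit 10) (nat_lit 12))
    (@En.n l11295 (nat_lit 7165) (nat_lit 1) (nat_lit 14))
    (@En.n l2912 (nat_lit 4882) (nat_lit 2) (nat_lit 8))
    (@En.n l245 (nat_lit 4755) (nat_lit 3) (nat_lit 11))
    (@En.n l25355 (nat_lit 12466) (nat_lit 4) (nat_lit 7))
    (@En.n l9965 (nat_lit 7170) (nat_lit 5) (nat_lit 3))
    (@En.n l28 (nat_lit 7167) (nat_lit 6) (nat_lit 3))
    (@En.n l1544 (nat_lit 7174) (nat_lit 7) (nat_lit 6))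
    (@En.n l77 (nat_lit 7167) (nat_lit 9) (nat_lit 13))
    (@En.i (nat_lit 7631) (nat_lit 10) (nat_lit 13))
    (@En.n l2579 (nat_lit 7062) (nat_lit 11) (nat_lit 8))
    (@En.n l3815 (nat_lit 3897) (nat_lit 12) (nat_lit 9))
    (@En.n l117 (nat_lit 5531) (nat_lit 5) (nat_lit 4))
    (@En.n l9964 (nat_lit 7022) (nat_lit 14) (nat_lit 10))
    (@En.i (nat_lit 5453) (nat_lit 13) (nat_lit 5))
    (@En.n l3 (nat_lit 7168) (nat_lit 15) (nat_lit 2))))
  (@Cl.mk (nat_lit 0x2000700030007000b000e000b0002000b00050009000500090005000e000d) (nat_lit 0x8850203020a4) (nat_lit 16) Lb.e (@T16.mk En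
    (@En.n l396 (nat_lit 7165) (nat_lit 8) (nat_lit 13))
    (@En.i (nat_lit 7627) (nat_lit 9) (nat_lit 14))
    (@En.n l5200 (nat_lit 4849) (nat_lit 2) (nat_lit 5))
    (@En.n l645 (nat_lit 3895) (nat_lit 3) (nat_lit 9))
    (@En.i (nat_lit 5624) (nat_lit 4) (nat_lit 5))
    (@En.n l3082 (nat_lit 8845) (nat_lit 5) (nat_lit 9))
    (@En.n l3017 (nat_lit 7170) (nat_lit 14) (nat_lit 5))
    (@En.n l8015 (nat_lit 5430) (nat_lit 8) (nat_lit 11))
    (@En.n l67 (nat_lit 7169) (nat_lit 8) (nat_lit 2))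
    (@En.n l68 (nat_lit 7076) (nat_lit 10) (nat_lit 11))
    (@En.n l3866 (nat_lit 5988) (nat_lit 11) (nat_lit 14))
    (@En.i (nat_lit 4865) (nat_lit 12) (nat_lit 11))
    (@En.i (nat_lit 7389) (nat_lit 13) (nat_lit 7))
    (@En.i (nat_lit 7165) (nat_lit 4) (nat_lit 3))
    (@En.n l3082 (nat_lit 7181) (nat_lit 0) (nat_lit 7))
    (@En.n l50 (nat_lit 7169) (nat_lit 15) (nat_lit 2))))
  (@Cl.mk (nat_lit 0x200050009000400090008000e000d0002000700030007000b0008000e000c) (nat_lit 0x2022a600006196) (nat_lit 16) Lb.e (@T16.mk En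
    (@En.n l4270 (nat_lit 7070) (nat_lit 9) (nat_lit 12))
    (@En.n l3749 (nat_lit 7169) (nat_lit 10) (nat_lit 14))
    (@En.n l4471 (nat_lit 4883) (nat_lit 11) (nat_lit 8))
    (@En.i (nat_lit 7193) (nat_lit 3) (nat_lit 11))
    (@En.n l8566 (nat_lit 4010) (nat_lit 4) (nat_lit 7))
    (@En.n l1386 (nat_lit 7168) (nat_lit 5) (nat_lit 3))
    (@En.i (nat_lit 7178) (nat_lit 6) (nat_lit 7))
    (@En.n l3 (nat_lit 7170) (nat_lit 7) (nat_lit 2))
    (@En.n l4037 (nat_lit 7168) (nat_lit 9) (nat_lit 13))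
    (@En.n l1386 (nat_lit 7628) (nat_lit 10) (nat_lit 14))
    (@En.i (nat_lit 7061) (nat_lit 2) (nat_lit 8))
    (@En.n l8572 (nat_lit 3896) (nat_lit 12) (nat_lit 9))
    (@En.n l4272 (nat_lit 5533) (nat_lit 4) (nat_lit 4))
    (@En.i (nat_lit 7023) (nat_lit 5) (nat_lit 9))
    (@En.n l8573 (nat_lit 5455) (nat_lit 6) (nat_lit 5))
    (@En.n l50 (nat_lit 7170) (nat_lit 15) (nat_lit 2))))
  (@Cl.mk (nat_lit 0x20006000b000e000a0002000a0005000b000a0006000a00060005000e0006) (nat_lit 0x63401098010090) (nat_lit 16) Lb.e (@T16.mk En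
    (@En.n l10782 (nat_lit 5854) (nat_lit 5) (nat_lit 6))
    (@En.n l6557 (nat_lit 5233) (nat_lit 1) (nat_lit 14))
    (@En.n l10783 (nat_lit 7662) (nat_lit 2) (nat_lit 5))
    (@En.i (nat_lit 4848) (nat_lit 8) (nat_lit 6))
    (@En.i (nat_lit 3078) (nat_lit 4) (nat_lit 10))
    (@En.n l6563 (nat_lit 12264) (nat_lit 5) (nat_lit 6))
    (@En.n l16069 (nat_lit 7165) (nat_lit 12) (nat_lit 10))
    (@En.n l476 (nat_lit 11348) (nat_lit 8) (nat_lit 11))
    (@En.n l2669 (nat_lit 7172) (nat_lit 14) (nat_lit 5))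
    (@En.n l8874 (nat_lit 5438) (nat_lit 10) (nat_lit 10))
    (@En.n l11 (nat_lit 7171) (nat_lit 10) (nat_lit 2))
    (@En.n l18149 (nat_lit 7177) (nat_lit 12) (nat_lit 10))
    (@En.n l2038 (nat_lit 1957) (nat_lit 13) (nat_lit 14))
    (@En.n l8689 (nat_lit 7441) (nat_lit 2) (nat_lit 11))
    (@En.n l14883 (nat_lit 11674) (nat_lit 3) (nat_lit 6))
    (@En.n l17 (nat_lit 7171) (nat_lit 15) (nat_lit 2))))
  (@Cl.mk (nat_lit 0x20005000b000a0005000a00090005000e000600020006000b0007000e000b) (nat_lit 0x95012090008048) (nat_lit 16) Lb.e (@T16.mk En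
    (@En.i (nat_lit 7176) (nat_lit 11) (nat_lit 11))
    (@En.n l7611 (nat_lit 7171) (nat_lit 12) (nat_lit 14))
    (@En.n l7882 (nat_lit 4889) (nat_lit 13) (nat_lit 7))
    (@En.n l245 (nat_lit 7443) (nat_lit 3) (nat_lit 11))
    (@En.n l5934 (nat_lit 11677) (nat_lit 4) (nat_lit 6))
    (@En.n l7 (nat_lit 7172) (nat_lit 5) (nat_lit 2))
    (@En.n l5246 (nat_lit 7175) (nat_lit 6) (nat_lit 6))
    (@En.n l134 (nat_lit 5235) (nat_lit 8) (nat_lit 14))
    (@En.i (nat_lit 7657) (nat_lit 8) (nat_lit 5))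
    (@En.n l2579 (nat_lit 8022) (nat_lit 10) (nat_lit 9))
    (@En.n l9109 (nat_lit 2666) (nat_lit 11) (nat_lit 10))
    (@En.i (nat_lit 12263) (nat_lit 5) (nat_lit 5))
    (@En.n l55 (nat_lit 7168) (nat_lit 13) (nat_lit 10))
    (@En.n l12896 (nat_lit 11571) (nat_lit 8) (nat_lit 11))
    (@En.i (nat_lit 6008) (nat_lit 8) (nat_lit 5))
    (@En.n l3 (nat_lit 7172) (nat_lit 15) (nat_lit 2))))
  (@Cl.mk (nat_lit 0x200070006000b000e000a0002000a0005000a00090006000a0006000e0006) (nat_lit 0x73401084010b0) (nat_lit 16) Lb.e (@T16.mk En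
    (@En.n l36963 (nat_lit 5854) (nat_lit 6) (nat_lit 6))
    (@En.n l36964 (nat_lit 9530) (nat_lit 8) (nat_lit 14))
    (@En.n l36965 (nat_lit 5250) (nat_lit 2) (nat_lit 6))
    (@En.n l645 (nat_lit 2646) (nat_lit 3) (nat_lit 10))
    (@En.n l23341 (nat_lit 9777) (nat_lit 4) (nat_lit 6))
    (@En.i (nat_lit 7169) (nat_lit 5) (nat_lit 9))
    (@En.n l1075 (nat_lit 9340) (nat_lit 13) (nat_lit 10))
    (@En.n l3017 (nat_lit 7174) (nat_lit 14) (nat_lit 5))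
    (@En.n l8015 (nat_lit 5432) (nat_lit 9) (nat_lit 10))
    (@En.n l67 (nat_lit 7173) (nat_lit 9) (nat_lit 2))
    (@En.n l68 (nat_lit 7706) (nat_lit 11) (nat_lit 10))
    (@En.n l3866 (nat_lit 1977) (nat_lit 12) (nat_lit 14))
    (@En.n l3126 (nat_lit 7708) (nat_lit 13) (nat_lit 11))
    (@En.n l16498 (nat_lit 11432) (nat_lit 14) (nat_lit 6))
    (@En.n l23342 (nat_lit 7180) (nat_lit 4) (nat_lit 7))
    (@En.n l50 (nat_lit 7173) (nat_lit 15) (nat_lit 2))))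
  (@Cl.mk (nat_lit 0x20005000a00090005000a0009000e0006000200070006000b0007000e000b) (nat_lit 0x3015600005048) (nat_lit 16) Lb.e (@T16.mk En
    (@En.n l4270 (nat_lit 7707) (nat_lit 10) (nat_lit 11))
    (@En.n l3749 (nat_lit 7173) (nat_lit 11) (nat_lit 14))
    (@En.n l4471 (nat_lit 3171) (nat_lit 12) (nat_lit 7))
    (@En.n l4275 (nat_lit 7709) (nat_lit 3) (nat_lit 11))
    (@En.n l21191 (nat_lit 11670) (nat_lit 4) (nat_lit 6))
    (@En.n l107 (nat_lit 7179) (nat_lit 5) (nat_lit 7))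
    (@En.n l3 (nat_lit 7174) (nat_lit 6) (nat_lit 2))
    (@En.n l21192 (nat_lit 7175) (nat_lit 7) (nat_lit 6))
    (@En.n l21193 (nat_lit 9531) (nat_lit 9) (nat_lit 14))
    (@En.i (nat_lit 8074) (nat_lit 10) (nat_lit 9))
    (@En.n l21194 (nat_lit 1170) (nat_lit 11) (nat_lit 10))
    (@En.n l21195 (nat_lit 9776) (nat_lit 4) (nat_lit 5))
    (@En.i (nat_lit 7170) (nat_lit 13) (nat_lit 9))
    (@En.n l117 (nat_lit 10204) (nat_lit 14) (nat_lit 10))
    (@En.n l1386 (nat_lit 5742) (nat_lit 7) (nat_lit 5))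
    (@En.n l50 (nat_lit 7174) (nat_lit 15) (nat_lit 2))))
  (@Cl.mk (nat_lit 0x20005000a000a000a0006000b000a0006000600060005000b0006000e000a) (nat_lit 0x71601500005036) (nat_lit 16) Lb.e (@T16.mk En
    (@En.n l16428 (nat_lit 7736) (nat_lit 1) (nat_lit 10))
    (@En.n l16429 (nat_lit 5854) (nat_lit 1) (nat_lit 14))
    (@En.n l16407 (nat_lit 3169) (nat_lit 2) (nat_lit 6))
    (@En.n l250 (nat_lit 5705) (nat_lit 3) (nat_lit 11))
    (@En.n l16430 (nat_lit 11664) (nat_lit 4) (nat_lit 5))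
    (@En.n l16431 (nat_lit 7185) (nat_lit 5) (nat_lit 6))
    (@En.n l575 (nat_lit 7733) (nat_lit 6) (nat_lit 6))
    (@En.n l11446 (nat_lit 7661) (nat_lit 7) (nat_lit 6))
    (@En.n l11350 (nat_lit 8026) (nat_lit 9) (nat_lit 10))
    (@En.n l3872 (nat_lit 2974) (nat_lit 10) (nat_lit 11))
    (@En.n l810 (nat_lit 10851) (nat_lit 11) (nat_lit 6))
    (@En.n l565 (nat_lit 7172) (nat_lit 12) (nat_lit 10))
    (@En.n l8946 (nat_lit 7174) (nat_lit 13) (nat_lit 10))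
    (@En.n l16432 (nat_lit 11572) (nat_lit 14) (nat_lit 10))
    (@En.i (nat_lit 5158) (nat_lit 13) (nat_lit 5))
    (@En.n l3 (nat_lit 7175) (nat_lit 15) (nat_lit 2))))
  (@Cl.mk (nat_lit 0x20006000c0007000b000b0004000a000900050005000a00090006000e0007) (nat_lit 0x60740640023040) (nat_lit 16) Lb.e (@T16.mk En
    (@En.n l11294 (nat_lit 7736) (nat_lit 6) (nat_lit 7))
    (@En.n l134 (nat_lit 5244) (nat_lit 1) (nat_lit 14))
    (@En.n l6451 (nat_lit 7663) (nat_lit 2) (nat_lit 6))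
    (@En.n l2579 (nat_lit 8020) (nat_lit 3) (nat_lit 9))
    (@En.n l899 (nat_lit 7246) (nat_lit 4) (nat_lit 10))
    (@En.n l152 (nat_lit 7172) (nat_lit 11) (nat_lit 5))
    (@En.n l25203 (nat_lit 10859) (nat_lit 6) (nat_lit 5))
    (@En.n l26178 (nat_lit 7073) (nat_lit 7) (nat_lit 9))
    (@En.n l12896 (nat_lit 10745) (nat_lit 9) (nat_lit 10))
    (@En.n l2125 (nat_lit 7542) (nat_lit 9) (nat_lit 4))
    (@En.n l3536 (nat_lit 8105) (nat_lit 11) (nat_lit 11))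
    (@En.n l26178 (nat_lit 5803) (nat_lit 12) (nat_lit 11))
    (@En.n l7882 (nat_lit 4892) (nat_lit 13) (nat_lit 7))
    (@En.n l245 (nat_lit 7438) (nat_lit 14) (nat_lit 12))
    (@En.n l26178 (nat_lit 11716) (nat_lit 13) (nat_lit 6))
    (@En.n l7 (nat_lit 7176) (nat_lit 15) (nat_lit 2))))
  (@Cl.mk (nat_lit 0x20006000c000a000a00090004000a000900060006000a00070006000e0007) (nat_lit 0x63240840020030) (nat_lit 16) Lb.e (@T16.mk En
    (@En.n l35368 (nat_lit 7735) (nat_lit 6) (nat_lit 7))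
    (@En.n l29126 (nat_lit 5241) (nat_lit 1) (nat_lit 14))
    (@En.n l35369 (nat_lit 11700) (nat_lit 2) (nat_lit 6))
    (@En.n l17194 (nat_lit 5740) (nat_lit 3) (nat_lit 7))
    (@En.n l35369 (nat_lit 7245) (nat_lit 4) (nat_lit 10))
    (@En.n l8306 (nat_lit 7171) (nat_lit 5) (nat_lit 6))
    (@En.n l12811 (nat_lit 12265) (nat_lit 6) (nat_lit 6))
    (@En.i (nat_lit 7077) (nat_lit 7) (nat_lit 9))
    (@En.n l33269 (nat_lit 11339) (nat_lit 9) (nat_lit 10))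
    (@En.n l30932 (nat_lit 7176) (nat_lit 9) (nat_lit 4))
    (@En.n l17326 (nat_lit 5801) (nat_lit 11) (nat_lit 9))
    (@En.n l19620 (nat_lit 8104) (nat_lit 12) (nat_lit 10))
    (@En.n l35370 (nat_lit 5291) (nat_lit 13) (nat_lit 10))
    (@En.n l403 (nat_lit 7437) (nat_lit 14) (nat_lit 12))
    (@En.i (nat_lit 11673) (nat_lit 13) (nat_lit 6))
    (@En.n l18 (nat_lit 7177) (nat_lit 15) (nat_lit 2))))
  (@Cl.mk (nat_lit 0x200050009000c0005000a00090004000e000700020006000b0007000e000b) (nat_lit 0x160360700080c4) (nat_lit 16) Lb.e (@T16.mk En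
    (@En.n l4270 (nat_lit 5355) (nat_lit 11) (nat_lit 11))
    (@En.n l4316 (nat_lit 7181) (nat_lit 12) (nat_lit 14))
    (@En.n l14871 (nat_lit 5222) (nat_lit 13) (nat_lit 7))
    (@En.i (nat_lit 6935) (nat_lit 3) (nat_lit 11))
    (@En.i (nat_lit 9493) (nat_lit 4) (nat_lit 6))
    (@En.n l107 (nat_lit 7178) (nat_lit 5) (nat_lit 2))
    (@En.i (nat_lit 7179) (nat_lit 6) (nat_lit 7))
    (@En.n l97 (nat_lit 7174) (nat_lit 8) (nat_lit 14))
    (@En.n l3219 (nat_lit 1453) (nat_lit 8) (nat_lit 4))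
    (@En.i (nat_lit 5118) (nat_lit 10) (nat_lit 9))
    (@En.n l3213 (nat_lit 1077) (nat_lit 11) (nat_lit 10))
    (@En.n l3098 (nat_lit 9904) (nat_lit 5) (nat_lit 5))
    (@En.i (nat_lit 13902) (nat_lit 6) (nat_lit 12))
    (@En.i (nat_lit 7099) (nat_lit 14) (nat_lit 9))
    (@En.n l4469 (nat_lit 6943) (nat_lit 8) (nat_lit 5))
    (@En.n l50 (nat_lit 7178) (nat_lit 15) (nat_lit 2))))
  (@Cl.mk (nat_lit 0x2000500090009000c0006000b000a0004000700070005000b0006000e000a) (nat_lit 0x127045000060c3) (nat_lit 16) Lb.e (@T16.mk En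
    (@En.n l4270 (nat_lit 5353) (nat_lit 1) (nat_lit 10))
    (@En.n l4316 (nat_lit 7180) (nat_lit 1) (nat_lit 14))
    (@En.n l22307 (nat_lit 5221) (nat_lit 2) (nat_lit 6))
    (@En.n l9259 (nat_lit 6932) (nat_lit 3) (nat_lit 11))
    (@En.n l20932 (nat_lit 9500) (nat_lit 4) (nat_lit 5))
    (@En.n l22308 (nat_lit 7183) (nat_lit 5) (nat_lit 7))
    (@En.n l3106 (nat_lit 7185) (nat_lit 6) (nat_lit 7))
    (@En.n l3219 (nat_lit 1294) (nat_lit 7) (nat_lit 4))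
    (@En.i (nat_lit 5116) (nat_lit 9) (nat_lit 10))
    (@En.n l9237 (nat_lit 1078) (nat_lit 10) (nat_lit 11))
    (@En.n l22309 (nat_lit 7190) (nat_lit 11) (nat_lit 6))
    (@En.n l3 (nat_lit 7178) (nat_lit 12) (nat_lit 12))
    (@En.n l527 (nat_lit 7178) (nat_lit 13) (nat_lit 9))
    (@En.i (nat_lit 7101) (nat_lit 14) (nat_lit 9))
    (@En.n l9233 (nat_lit 6944) (nat_lit 13) (nat_lit 5))
    (@En.n l50 (nat_lit 7179) (nat_lit 15) (nat_lit 2))))
  (@Cl.mk (nat_lit 0x20009000500090009000c0007000b00070004000700070005000b000e0009) (nat_lit 0x2000002000006b6) (nat_lit 16) Lb.e (@T16.mk En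
    (@En.n l9926 (nat_lit 5352) (nat_lit 2) (nat_lit 9))
    (@En.n l14555 (nat_lit 2088) (nat_lit 4) (nat_lit 14))
    (@En.n l21022 (nat_lit 6930) (nat_lit 2) (nat_lit 11))
    (@En.n l32259 (nat_lit 9522) (nat_lit 3) (nat_lit 5))
    (@En.n l28397 (nat_lit 7182) (nat_lit 4) (nat_lit 7))
    (@En.n l20187 (nat_lit 7184) (nat_lit 5) (nat_lit 7))
    (@En.n l12374 (nat_lit 1292) (nat_lit 6) (nat_lit 4))
    (@En.n l21024 (nat_lit 4967) (nat_lit 7) (nat_lit 7))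
    (@En.n l2869 (nat_lit 1072) (nat_lit 9) (nat_lit 11))
    (@En.n l14555 (nat_lit 7189) (nat_lit 10) (nat_lit 7))
    (@En.n l3 (nat_lit 7181) (nat_lit 6) (nat_lit 12))
    (@En.n l527 (nat_lit 7181) (nat_lit 7) (nat_lit 9))
    (@En.i (nat_lit 9826) (nat_lit 13) (nat_lit 9))
    (@En.n l11948 (nat_lit 7179) (nat_lit 14) (nat_lit 5))
    (@En.i (nat_lit 1744) (nat_lit 0) (nat_lit 9))
    (@En.n l7 (nat_lit 7180) (nat_lit 15) (nat_lit 2))))
  (@Cl.mk (nat_lit 0x20006000b000e000a0002000a00050009000c0006000a00060004000e0007) (nat_lit 0x7b20207a0200c0) (nat_lit 16) Lb.e (@T16.mk En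
    (@En.i (nat_lit 7180) (nat_lit 5) (nat_lit 7))
    (@En.n l3523 (nat_lit 7173) (nat_lit 1) (nat_lit 14))
    (@En.n l5205 (nat_lit 1454) (nat_lit 2) (nat_lit 4))
    (@En.n l21024 (nat_lit 4968) (nat_lit 8) (nat_lit 6))
    (@En.n l2869 (nat_lit 1071) (nat_lit 4) (nat_lit 10))
    (@En.n l6081 (nat_lit 9903) (nat_lit 5) (nat_lit 6))
    (@En.i (nat_lit 13903) (nat_lit 6) (nat_lit 12))
    (@En.i (nat_lit 9825) (nat_lit 13) (nat_lit 9))
    (@En.n l11948 (nat_lit 7178) (nat_lit 14) (nat_lit 5))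
    (@En.i (nat_lit 5387) (nat_lit 10) (nat_lit 10))
    (@En.n l7 (nat_lit 7181) (nat_lit 10) (nat_lit 2))
    (@En.n l9926 (nat_lit 5357) (nat_lit 12) (nat_lit 10))
    (@En.n l5205 (nat_lit 1983) (nat_lit 13) (nat_lit 14))
    (@En.i (nat_lit 6933) (nat_lit 2) (nat_lit 11))
    (@En.n l2869 (nat_lit 9528) (nat_lit 3) (nat_lit 6))
    (@En.n l107 (nat_lit 7181) (nat_lit 15) (nat_lit 2))))
  (@Cl.mk (nat_lit 0x200080005000e00090002000c0008000c0008000400070004000b000e0008) (nat_lit 0x4061014330005b2) (nat_lit 16) Lb.e (@T16.mk En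
    (@En.n l26419 (nat_lit 5356) (nat_lit 5) (nat_lit 8))
    (@En.n l13491 (nat_lit 2090) (nat_lit 7) (nat_lit 14))
    (@En.n l26420 (nat_lit 6929) (nat_lit 2) (nat_lit 11))
    (@En.i (nat_lit 9518) (nat_lit 3) (nat_lit 4))
    (@En.n l11253 (nat_lit 5549) (nat_lit 4) (nat_lit 7))
    (@En.n l26421 (nat_lit 1289) (nat_lit 5) (nat_lit 4))
    (@En.n l26422 (nat_lit 4974) (nat_lit 6) (nat_lit 8))
    (@En.i (nat_lit 1086) (nat_lit 8) (nat_lit 12))
    (@En.n l26423 (nat_lit 7191) (nat_lit 14) (nat_lit 8))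
    (@En.n l26424 (nat_lit 7180) (nat_lit 10) (nat_lit 12))
    (@En.n l7 (nat_lit 7182) (nat_lit 10) (nat_lit 2))
    (@En.n l26425 (nat_lit 7180) (nat_lit 12) (nat_lit 9))
    (@En.n l26426 (nat_lit 9922) (nat_lit 1) (nat_lit 14))
    (@En.n l14980 (nat_lit 7183) (nat_lit 14) (nat_lit 5))
    (@En.n l26427 (nat_lit 5386) (nat_lit 3) (nat_lit 8))
    (@En.n l3 (nat_lit 7182) (nat_lit 15) (nat_lit 2))))
  (@Cl.mk (nat_lit 0x20005000e00090002000c0007000c000b000400070004000b0005000e0009) (nat_lit 0x620803400060c6) (nat_lit 16) Lb.e (@T16.mk En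
    (@En.n l4935 (nat_lit 5354) (nat_lit 4) (nat_lit 9))
    (@En.n l16433 (nat_lit 7182) (nat_lit 1) (nat_lit 14))
    (@En.n l16434 (nat_lit 5223) (nat_lit 2) (nat_lit 5))
    (@En.n l16435 (nat_lit 6931) (nat_lit 3) (nat_lit 11))
    (@En.n l16436 (nat_lit 9519) (nat_lit 4) (nat_lit 4))
    (@En.n l9642 (nat_lit 5507) (nat_lit 5) (nat_lit 7))
    (@En.n l16437 (nat_lit 1291) (nat_lit 6) (nat_lit 4))
    (@En.n l16438 (nat_lit 6631) (nat_lit 8) (nat_lit 11))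
    (@En.n l2038 (nat_lit 1081) (nat_lit 9) (nat_lit 12))
    (@En.n l9644 (nat_lit 9880) (nat_lit 14) (nat_lit 7))
    (@En.n l16439 (nat_lit 7179) (nat_lit 11) (nat_lit 12))
    (@En.n l18 (nat_lit 7183) (nat_lit 11) (nat_lit 2))
    (@En.n l16440 (nat_lit 7179) (nat_lit 13) (nat_lit 9))
    (@En.n l16441 (nat_lit 7720) (nat_lit 1) (nat_lit 14))
    (@En.n l16435 (nat_lit 6945) (nat_lit 13) (nat_lit 5))
    (@En.n l476 (nat_lit 7183) (nat_lit 15) (nat_lit 2))))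
noncomputable def a449 : T16 Cl := @T16.mk Cl
  (@Cl.mk (nat_lit 0x2000800050009000e000a00020008000c0008000700060004000b000e0008) (nat_lit 0x407710524000323) (nat_lit 16) Lb.e (@T16.mk En
    (@En.n l14710 (nat_lit 7186) (nat_lit 6) (nat_lit 8))
    (@En.n l14711 (nat_lit 1913) (nat_lit 8) (nat_lit 14))
    (@En.n l14712 (nat_lit 7716) (nat_lit 2) (nat_lit 11))
    (@En.n l7611 (nat_lit 8163) (nat_lit 3) (nat_lit 4))
    (@En.n l14713 (nat_lit 5544) (nat_lit 4) (nat_lit 6))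
    (@En.n l14714 (nat_lit 12629) (nat_lit 12) (nat_lit 7))
    (@En.i (nat_lit 5724) (nat_lit 6) (nat_lit 8))
    (@En.n l7611 (nat_lit 1379) (nat_lit 8) (nat_lit 12))
    (@En.n l14711 (nat_lit 11097) (nat_lit 9) (nat_lit 8))
    (@En.n l3 (nat_lit 7184) (nat_lit 9) (nat_lit 2))
    (@En.n l14715 (nat_lit 5854) (nat_lit 11) (nat_lit 10))
    (@En.n l14716 (nat_lit 7182) (nat_lit 12) (nat_lit 14))
    (@En.i (nat_lit 12540) (nat_lit 2) (nat_lit 9))
    (@En.n l252 (nat_lit 7185) (nat_lit 14) (nat_lit 5))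
    (@En.n l14717 (nat_lit 7188) (nat_lit 4) (nat_lit 8))
    (@En.n l7 (nat_lit 7184) (nat_lit 15) (nat_lit 2))))
  (@Cl.mk (nat_lit 0x200050009000e000a00020007000c000b000700060004000b0005000e0009) (nat_lit 0x77200160004035) (nat_lit 16) Lb.e (@T16.mk En
    (@En.n l6619 (nat_lit 7187) (nat_lit 5) (nat_lit 9))
    (@En.n l601 (nat_lit 7184) (nat_lit 1) (nat_lit 14))
    (@En.n l6620 (nat_lit 4891) (nat_lit 7) (nat_lit 5))
    (@En.n l4275 (nat_lit 7712) (nat_lit 3) (nat_lit 11))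
    (@En.n l2475 (nat_lit 8161) (nat_lit 4) (nat_lit 4))
    (@En.n l1386 (nat_lit 5540) (nat_lit 5) (nat_lit 6))
    (@En.n l6621 (nat_lit 11754) (nat_lit 6) (nat_lit 7))
    (@En.i (nat_lit 8158) (nat_lit 8) (nat_lit 11))
    (@En.n l1246 (nat_lit 1375) (nat_lit 9) (nat_lit 12))
    (@En.n l6622 (nat_lit 11098) (nat_lit 10) (nat_lit 7))
    (@En.n l3 (nat_lit 7185) (nat_lit 10) (nat_lit 2))
    (@En.n l6623 (nat_lit 7175) (nat_lit 12) (nat_lit 10))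
    (@En.n l6624 (nat_lit 7183) (nat_lit 13) (nat_lit 14))
    (@En.i (nat_lit 12304) (nat_lit 2) (nat_lit 9))
    (@En.n l1386 (nat_lit 6949) (nat_lit 3) (nat_lit 5))
    (@En.n l50 (nat_lit 7185) (nat_lit 15) (nat_lit 2))))
  (@Cl.mk (nat_lit 0x200080008000c0009000800070004000c00080008000700040008000e0009) (nat_lit 0x4634600426006a0) (nat_lit 16) Lb.e (@T16.mk En
    (@En.n l6067 (nat_lit 7735) (nat_lit 13) (nat_lit 9))
    (@En.n l5 (nat_lit 5356) (nat_lit 1) (nat_lit 14))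
    (@En.n l28973 (nat_lit 11306) (nat_lit 2) (nat_lit 8))
    (@En.i (nat_lit 7187) (nat_lit 3) (nat_lit 4))
    (@En.n l8163 (nat_lit 5801) (nat_lit 4) (nat_lit 7))
    (@En.n l152 (nat_lit 7721) (nat_lit 8) (nat_lit 8))
    (@En.n l9862 (nat_lit 6545) (nat_lit 6) (nat_lit 8))
    (@En.n l565 (nat_lit 7714) (nat_lit 8) (nat_lit 12))
    (@En.n l6071 (nat_lit 12522) (nat_lit 8) (nat_lit 4))
    (@En.n l8807 (nat_lit 3257) (nat_lit 9) (nat_lit 7))
    (@En.n l6072 (nat_lit 11710) (nat_lit 11) (nat_lit 8))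
    (@En.n l5403 (nat_lit 5726) (nat_lit 12) (nat_lit 9))
    (@En.n l6072 (nat_lit 6490) (nat_lit 13) (nat_lit 12))
    (@En.n l28974 (nat_lit 7184) (nat_lit 8) (nat_lit 8))
    (@En.n l28975 (nat_lit 9944) (nat_lit 5) (nat_lit 8))
    (@En.n l17 (nat_lit 7186) (nat_lit 15) (nat_lit 2))))
  (@Cl.mk (nat_lit 0x200070007000c000b000800070004000c00050009000900040008000e0009) (nat_lit 0x3760040430610) (nat_lit 16) Lb.e (@T16.mk En
    (@En.n l16419 (nat_lit 7736) (nat_lit 13) (nat_lit 9))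
    (@En.n l5 (nat_lit 5354) (nat_lit 1) (nat_lit 14))
    (@En.n l11503 (nat_lit 12313) (nat_lit 2) (nat_lit 8))
    (@En.n l11109 (nat_lit 7543) (nat_lit 3) (nat_lit 4))
    (@En.n l152 (nat_lit 7722) (nat_lit 7) (nat_lit 9))
    (@En.i (nat_lit 5800) (nat_lit 5) (nat_lit 9))
    (@En.n l7572 (nat_lit 4892) (nat_lit 6) (nat_lit 5))
    (@En.n l16420 (nat_lit 7711) (nat_lit 8) (nat_lit 12))
    (@En.n l16421 (nat_lit 12515) (nat_lit 8) (nat_lit 4))
    (@En.n l16422 (nat_lit 3628) (nat_lit 9) (nat_lit 7))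
    (@En.i (nat_lit 11747) (nat_lit 11) (nat_lit 8))
    (@En.n l11503 (nat_lit 5299) (nat_lit 12) (nat_lit 11))
    (@En.n l619 (nat_lit 7006) (nat_lit 13) (nat_lit 12))
    (@En.n l16423 (nat_lit 7185) (nat_lit 9) (nat_lit 7))
    (@En.n l16424 (nat_lit 10813) (nat_lit 13) (nat_lit 7))
    (@En.n l17 (nat_lit 7187) (nat_lit 15) (nat_lit 2))))
  (@Cl.mk (nat_lit 0x20007000b0008000b000800070005000c00050009000800040008000e0009) (nat_lit 0x42760070330612) (nat_lit 16) Lb.e (@T16.mk En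
    (@En.n l3693 (nat_lit 5435) (nat_lit 13) (nat_lit 9))
    (@En.n l28983 (nat_lit 5386) (nat_lit 1) (nat_lit 14))
    (@En.n l28984 (nat_lit 11453) (nat_lit 2) (nat_lit 8))
    (@En.n l28985 (nat_lit 6953) (nat_lit 3) (nat_lit 4))
    (@En.n l551 (nat_lit 7435) (nat_lit 4) (nat_lit 8))
    (@En.n l20299 (nat_lit 5801) (nat_lit 5) (nat_lit 9))
    (@En.n l4110 (nat_lit 4467) (nat_lit 6) (nat_lit 5))
    (@En.n l23641 (nat_lit 6541) (nat_lit 8) (nat_lit 12))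
    (@En.n l24568 (nat_lit 9752) (nat_lit 8) (nat_lit 5))
    (@En.n l3691 (nat_lit 4205) (nat_lit 9) (nat_lit 7))
    (@En.n l24106 (nat_lit 11293) (nat_lit 11) (nat_lit 8))
    (@En.n l16423 (nat_lit 7185) (nat_lit 7) (nat_lit 11))
    (@En.n l20304 (nat_lit 5012) (nat_lit 13) (nat_lit 8))
    (@En.n l28986 (nat_lit 4357) (nat_lit 14) (nat_lit 11))
    (@En.n l23642 (nat_lit 11090) (nat_lit 13) (nat_lit 7))
    (@En.n l17 (nat_lit 7188) (nat_lit 15) (nat_lit 2))))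
  (@Cl.mk (nat_lit 0x3000a0006000a000a0007000b00060009000600060005000a000d00090007) (nat_lit 0x600003050004230) (nat_lit 16) Lb.e (@T16.mk En
    (@En.n l12061 (nat_lit 1710) (nat_lit 0) (nat_lit 7))
    (@En.i (nat_lit 9641) (nat_lit 3) (nat_lit 9))
    (@En.i (nat_lit 11193) (nat_lit 5) (nat_lit 13))
    (@En.n l6080 (nat_lit 9021) (nat_lit 3) (nat_lit 10))
    (@En.n l1778 (nat_lit 9544) (nat_lit 11) (nat_lit 5))
    (@En.n l2172 (nat_lit 7191) (nat_lit 10) (nat_lit 6))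
    (@En.i (nat_lit 11097) (nat_lit 6) (nat_lit 6))
    (@En.i (nat_lit 7892) (nat_lit 9) (nat_lit 9))
    (@En.n l1347 (nat_lit 4526) (nat_lit 8) (nat_lit 6))
    (@En.i (nat_lit 6298) (nat_lit 8) (nat_lit 11))
    (@En.n l742 (nat_lit 9846) (nat_lit 11) (nat_lit 7))
    (@En.n l6840 (nat_lit 9903) (nat_lit 6) (nat_lit 10))
    (@En.n l5911 (nat_lit 10624) (nat_lit 13) (nat_lit 10))
    (@En.n l28982 (nat_lit 7190) (nat_lit 14) (nat_lit 6))
    (@En.n l40335 (nat_lit 9840) (nat_lit 0) (nat_lit 10))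
    (@En.n l117 (nat_lit 9884) (nat_lit 15) (nat_lit 3))))
  (@Cl.mk (nat_lit 0x30006000a000a0006000b000a0008000600060005000a0006000d000a0008) (nat_lit 0x30500050351) (nat_lit 16) Lb.e (@T16.mk En
    (@En.n l31593 (nat_lit 495) (nat_lit 0) (nat_lit 8))
    (@En.n l31594 (nat_lit 9873) (nat_lit 2) (nat_lit 10))
    (@En.n l16427 (nat_lit 7189) (nat_lit 2) (nat_lit 13))
    (@En.n l19313 (nat_lit 8183) (nat_lit 3) (nat_lit 6))
    (@En.n l31595 (nat_lit 9017) (nat_lit 4) (nat_lit 10))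
    (@En.n l10783 (nat_lit 9543) (nat_lit 5) (nat_lit 5))
    (@En.n l55 (nat_lit 9880) (nat_lit 10) (nat_lit 6))
    (@En.i (nat_lit 11098) (nat_lit 7) (nat_lit 6))
    (@En.n l31596 (nat_lit 7893) (nat_lit 8) (nat_lit 8))
    (@En.n l21200 (nat_lit 10009) (nat_lit 10) (nat_lit 10))
    (@En.n l19313 (nat_lit 6292) (nat_lit 11) (nat_lit 11))
    (@En.n l31568 (nat_lit 4320) (nat_lit 12) (nat_lit 6))
    (@En.n l31597 (nat_lit 9904) (nat_lit 6) (nat_lit 10))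
    (@En.n l15364 (nat_lit 10423) (nat_lit 9) (nat_lit 10))
    (@En.n l19704 (nat_lit 9615) (nat_lit 12) (nat_lit 6))
    (@En.n l27533 (nat_lit 9883) (nat_lit 15) (nat_lit 3))))
  (@Cl.mk (nat_lit 0x20008000c0007000a00060004000a000d00080006000300090006000e000a) (nat_lit 0x320600443006071) (nat_lit 16) Lb.e (@T16.mk En
    (@En.n l217 (nat_lit 7189) (nat_lit 12) (nat_lit 10))
    (@En.n l29041 (nat_lit 11281) (nat_lit 1) (nat_lit 14))
    (@En.n l23629 (nat_lit 9880) (nat_lit 2) (nat_lit 6))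
    (@En.n l29042 (nat_lit 9839) (nat_lit 3) (nat_lit 9))
    (@En.n l29043 (nat_lit 9881) (nat_lit 4) (nat_lit 3))
    (@En.n l10880 (nat_lit 1709) (nat_lit 0) (nat_lit 6))
    (@En.n l15944 (nat_lit 9637) (nat_lit 6) (nat_lit 8))
    (@En.i (nat_lit 6459) (nat_lit 8) (nat_lit 13))
    (@En.n l29044 (nat_lit 9528) (nat_lit 9) (nat_lit 10))
    (@En.n l763 (nat_lit 7355) (nat_lit 9) (nat_lit 4))
    (@En.i (nat_lit 10894) (nat_lit 5) (nat_lit 6))
    (@En.n l7647 (nat_lit 7765) (nat_lit 8) (nat_lit 10))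
    (@En.n l29045 (nat_lit 4547) (nat_lit 13) (nat_lit 7))
    (@En.i (nat_lit 7526) (nat_lit 14) (nat_lit 12))
    (@En.n l2026 (nat_lit 9845) (nat_lit 4) (nat_lit 8))
    (@En.n l50 (nat_lit 7191) (nat_lit 15) (nat_lit 2))))
  (@Cl.mk (nat_lit 0x20005000d000b000500030009000d0005000e00030002000b0007000e000b) (nat_lit 0x38002b030060b4) (nat_lit 16) Lb.e (@T16.mk En
    (@En.i (nat_lit 7444) (nat_lit 12) (nat_lit 11))
    (@En.i (nat_lit 4864) (nat_lit 1) (nat_lit 14))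
    (@En.i (nat_lit 4867) (nat_lit 14) (nat_lit 7))
    (@En.i (nat_lit 12180) (nat_lit 3) (nat_lit 11))
    (@En.n l50 (nat_lit 7192) (nat_lit 4) (nat_lit 2))
    (@En.i (nat_lit 4755) (nat_lit 5) (nat_lit 3))
    (@En.i (nat_lit 13293) (nat_lit 0) (nat_lit 14))
    (@En.i (nat_lit 7443) (nat_lit 7) (nat_lit 5))
    (@En.i (nat_lit 8486) (nat_lit 9) (nat_lit 13))
    (@En.n l287 (nat_lit 7057) (nat_lit 10) (nat_lit 9))
    (@En.n l11 (nat_lit 4753) (nat_lit 10) (nat_lit 3))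
    (@En.i (nat_lit 7195) (nat_lit 0) (nat_lit 5))
    (@En.n l55 (nat_lit 8706) (nat_lit 13) (nat_lit 11))
    (@En.n l617 (nat_lit 4745) (nat_lit 9) (nat_lit 13))
    (@En.i (nat_lit 5610) (nat_lit 9) (nat_lit 5))
    (@En.n l3 (nat_lit 7192) (nat_lit 15) (nat_lit 2))))
  (@Cl.mk (nat_lit 0x20005000d0009000500030009000e000d000200070003000b0007000e000b) (nat_lit 0x230026100050b8) (nat_lit 16) Lb.e (@T16.mk En
    (@En.n l4270 (nat_lit 7114) (nat_lit 10) (nat_lit 11))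
    (@En.n l3749 (nat_lit 4865) (nat_lit 11) (nat_lit 14))
    (@En.n l4271 (nat_lit 4866) (nat_lit 12) (nat_lit 7))
    (@En.n l4272 (nat_lit 11665) (nat_lit 3) (nat_lit 11))
    (@En.n l4273 (nat_lit 4755) (nat_lit 4) (nat_lit 3))
    (@En.i (nat_lit 6935) (nat_lit 5) (nat_lit 7))
    (@En.n l3 (nat_lit 7193) (nat_lit 6) (nat_lit 2))
    (@En.n l4274 (nat_lit 4755) (nat_lit 8) (nat_lit 13))
    (@En.n l4273 (nat_lit 8522) (nat_lit 9) (nat_lit 14))
    (@En.i (nat_lit 7055) (nat_lit 2) (nat_lit 9))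
    (@En.n l4275 (nat_lit 7206) (nat_lit 10) (nat_lit 3))
    (@En.n l4272 (nat_lit 7196) (nat_lit 0) (nat_lit 5))
    (@En.n l4276 (nat_lit 8708) (nat_lit 13) (nat_lit 9))
    (@En.n l4272 (nat_lit 4739) (nat_lit 7) (nat_lit 13))
    (@En.n l1324 (nat_lit 5582) (nat_lit 7) (nat_lit 5))
    (@En.n l50 (nat_lit 7193) (nat_lit 15) (nat_lit 2))))
  (@Cl.mk (nat_lit 0x20009000d000d000900030003000a0007000d000b000700030006000e0005) (nat_lit 0x698100609800020) (nat_lit 16) Lb.e (@T16.mk En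
    (@En.n l117 (nat_lit 7203) (nat_lit 5) (nat_lit 5))
    (@En.n l7027 (nat_lit 4795) (nat_lit 1) (nat_lit 14))
    (@En.n l25244 (nat_lit 4477) (nat_lit 2) (nat_lit 6))
    (@En.n l936 (nat_lit 7197) (nat_lit 3) (nat_lit 3))
    (@En.i (nat_lit 12550) (nat_lit 0) (nat_lit 7))
    (@En.n l9374 (nat_lit 7202) (nat_lit 11) (nat_lit 11))
    (@En.n l16131 (nat_lit 4810) (nat_lit 7) (nat_lit 13))
    (@En.n l23439 (nat_lit 4807) (nat_lit 7) (nat_lit 7))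
    (@En.n l7027 (nat_lit 9899) (nat_lit 9) (nat_lit 10))
    (@En.n l9377 (nat_lit 7196) (nat_lit 9) (nat_lit 3))
    (@En.n l7 (nat_lit 7195) (nat_lit 10) (nat_lit 3))
    (@En.n l7027 (nat_lit 5151) (nat_lit 0) (nat_lit 9))
    (@En.n l644 (nat_lit 7195) (nat_lit 13) (nat_lit 13))
    (@En.i (nat_lit 8686) (nat_lit 14) (nat_lit 13))
    (@En.n l614 (nat_lit 5518) (nat_lit 3) (nat_lit 9))
    (@En.n l11 (nat_lit 7194) (nat_lit 15) (nat_lit 2))))
  (@Cl.mk (nat_lit 0x20009000d0008000e00030002000a0007000d000b000800030006000e0005) (nat_lit 0x675c0060a740020) (nat_lit 16) Lb.e (@T16.mk En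
    (@En.n l117 (nat_lit 7391) (nat_lit 6) (nat_lit 5))
    (@En.n l617 (nat_lit 4799) (nat_lit 8) (nat_lit 14))
    (@En.i (nat_lit 4481) (nat_lit 2) (nat_lit 6))
    (@En.n l936 (nat_lit 7198) (nat_lit 3) (nat_lit 3))
    (@En.i (nat_lit 11367) (nat_lit 0) (nat_lit 8))
    (@En.n l936 (nat_lit 7292) (nat_lit 12) (nat_lit 11))
    (@En.n l12686 (nat_lit 4811) (nat_lit 7) (nat_lit 13))
    (@En.i (nat_lit 4805) (nat_lit 14) (nat_lit 7))
    (@En.i (nat_lit 9022) (nat_lit 9) (nat_lit 10))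
    (@En.n l50 (nat_lit 7195) (nat_lit 9) (nat_lit 2))
    (@En.i (nat_lit 7194) (nat_lit 10) (nat_lit 3))
    (@En.n l12686 (nat_lit 13356) (nat_lit 0) (nat_lit 14))
    (@En.i (nat_lit 6950) (nat_lit 2) (nat_lit 8))
    (@En.i (nat_lit 8683) (nat_lit 14) (nat_lit 13))
    (@En.n l614 (nat_lit 5522) (nat_lit 4) (nat_lit 9))
    (@En.n l11 (nat_lit 7195) (nat_lit 15) (nat_lit 2))))
  (@Cl.mk (nat_lit 0x20009000e000d0002000a0003000a0007000d000b000600030006000e0005) (nat_lit 0x67a05060a800020) (nat_lit 16) Lb.e (@T16.mk En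
    (@En.n l3203 (nat_lit 7363) (nat_lit 4) (nat_lit 5))
    (@En.i (nat_lit 4794) (nat_lit 1) (nat_lit 14))
    (@En.n l3204 (nat_lit 4478) (nat_lit 2) (nat_lit 6))
    (@En.n l50 (nat_lit 7199) (nat_lit 3) (nat_lit 3))
    (@En.i (nat_lit 12548) (nat_lit 0) (nat_lit 6))
    (@En.n l217 (nat_lit 7219) (nat_lit 10) (nat_lit 11))
    (@En.n l1690 (nat_lit 7364) (nat_lit 7) (nat_lit 13))
    (@En.n l152 (nat_lit 4809) (nat_lit 7) (nat_lit 7))
    (@En.i (nat_lit 8050) (nat_lit 9) (nat_lit 10))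
    (@En.n l5975 (nat_lit 7194) (nat_lit 9) (nat_lit 3))
    (@En.i (nat_lit 5148) (nat_lit 0) (nat_lit 10))
    (@En.n l11 (nat_lit 7196) (nat_lit 11) (nat_lit 2))
    (@En.n l3202 (nat_lit 7194) (nat_lit 13) (nat_lit 13))
    (@En.n l11549 (nat_lit 8293) (nat_lit 1) (nat_lit 14))
    (@En.n l3203 (nat_lit 5519) (nat_lit 2) (nat_lit 9))
    (@En.n l17 (nat_lit 7196) (nat_lit 15) (nat_lit 2))))
  (@Cl.mk (nat_lit 0x20009000d000d000a00030003000a0007000d0006000c00030006000e0004) (nat_lit 0x78950060a060040) (nat_lit 16) Lb.e (@T16.mk En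
    (@En.n l117 (nat_lit 7201) (nat_lit 5) (nat_lit 4))
    (@En.n l5572 (nat_lit 4683) (nat_lit 1) (nat_lit 14))
    (@En.i (nat_lit 3974) (nat_lit 12) (nat_lit 6))
    (@En.n l2576 (nat_lit 7194) (nat_lit 3) (nat_lit 3))
    (@En.i (nat_lit 4754) (nat_lit 0) (nat_lit 12))
    (@En.n l4817 (nat_lit 8730) (nat_lit 5) (nat_lit 6))
    (@En.n l9771 (nat_lit 7200) (nat_lit 7) (nat_lit 13))
    (@En.n l7234 (nat_lit 4808) (nat_lit 7) (nat_lit 7))
    (@En.n l5572 (nat_lit 7463) (nat_lit 9) (nat_lit 10))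
    (@En.n l3643 (nat_lit 7199) (nat_lit 9) (nat_lit 3))
    (@En.n l7 (nat_lit 7198) (nat_lit 10) (nat_lit 3))
    (@En.n l5572 (nat_lit 7514) (nat_lit 12) (nat_lit 10))
    (@En.n l644 (nat_lit 7198) (nat_lit 13) (nat_lit 13))
    (@En.i (nat_lit 8692) (nat_lit 14) (nat_lit 13))
    (@En.n l564 (nat_lit 3917) (nat_lit 3) (nat_lit 9))
    (@En.n l11 (nat_lit 7197) (nat_lit 15) (nat_lit 2))))
  (@Cl.mk (nat_lit 0x20009000d0009000e00030002000a0007000d0007000c00030006000e0004) (nat_lit 0x684c00609050040) (nat_lit 16) Lb.e (@T16.mk En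
    (@En.n l117 (nat_lit 7205) (nat_lit 6) (nat_lit 4))
    (@En.n l617 (nat_lit 4798) (nat_lit 8) (nat_lit 14))
    (@En.i (nat_lit 3975) (nat_lit 12) (nat_lit 6))
    (@En.n l2576 (nat_lit 7195) (nat_lit 3) (nat_lit 3))
    (@En.i (nat_lit 4753) (nat_lit 0) (nat_lit 12))
    (@En.n l4817 (nat_lit 8729) (nat_lit 5) (nat_lit 7))
    (@En.i (nat_lit 7458) (nat_lit 7) (nat_lit 13))
    (@En.i (nat_lit 4806) (nat_lit 14) (nat_lit 7))
    (@En.i (nat_lit 7465) (nat_lit 9) (nat_lit 10))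
    (@En.n l50 (nat_lit 7198) (nat_lit 9) (nat_lit 2))
    (@En.i (nat_lit 7197) (nat_lit 10) (nat_lit 3))
    (@En.i (nat_lit 13355) (nat_lit 0) (nat_lit 14))
    (@En.i (nat_lit 7460) (nat_lit 2) (nat_lit 9))
    (@En.i (nat_lit 8687) (nat_lit 14) (nat_lit 13))
    (@En.i (nat_lit 3918) (nat_lit 4) (nat_lit 9))
    (@En.n l11 (nat_lit 7198) (nat_lit 15) (nat_lit 2))))
  (@Cl.mk (nat_lit 0x20009000e000d0002000b0003000a0007000d0005000c00030006000e0004) (nat_lit 0x649060609060040) (nat_lit 16) Lb.e (@T16.mk En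
    (@En.n l2710 (nat_lit 7204) (nat_lit 4) (nat_lit 4))
    (@En.i (nat_lit 4793) (nat_lit 1) (nat_lit 14))
    (@En.n l8932 (nat_lit 3979) (nat_lit 12) (nat_lit 6))
    (@En.i (nat_lit 7196) (nat_lit 3) (nat_lit 3))
    (@En.n l5011 (nat_lit 7206) (nat_lit 0) (nat_lit 12))
    (@En.n l3197 (nat_lit 10748) (nat_lit 5) (nat_lit 5))
    (@En.n l1690 (nat_lit 7367) (nat_lit 7) (nat_lit 13))
    (@En.n l152 (nat_lit 7500) (nat_lit 7) (nat_lit 7))
    (@En.i (nat_lit 8047) (nat_lit 9) (nat_lit 10))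
    (@En.n l5011 (nat_lit 7197) (nat_lit 9) (nat_lit 3))
    (@En.i (nat_lit 7506) (nat_lit 0) (nat_lit 11))
    (@En.n l11 (nat_lit 7199) (nat_lit 11) (nat_lit 2))
    (@En.n l7088 (nat_lit 7197) (nat_lit 13) (nat_lit 13))
    (@En.n l11549 (nat_lit 8297) (nat_lit 1) (nat_lit 14))
    (@En.n l4659 (nat_lit 3924) (nat_lit 2) (nat_lit 9))
    (@En.n l17 (nat_lit 7199) (nat_lit 15) (nat_lit 2))))
noncomputable def a450 : T16 Cl := @T16.mk Cl
  (@Cl.mk (nat_lit 0x20005000d000d000b00030003000a000d0005000b0003000b0006000e0005) (nat_lit 0x9a500590205050) (nat_lit 16) Lb.e (@T16.mk En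
    (@En.n l24756 (nat_lit 7366) (nat_lit 5) (nat_lit 5))
    (@En.n l3 (nat_lit 4808) (nat_lit 1) (nat_lit 14))
    (@En.n l11106 (nat_lit 7197) (nat_lit 2) (nat_lit 6))
    (@En.n l3763 (nat_lit 3775) (nat_lit 3) (nat_lit 11))
    (@En.i (nat_lit 4810) (nat_lit 4) (nat_lit 3))
    (@En.n l5236 (nat_lit 4856) (nat_lit 0) (nat_lit 11))
    (@En.n l3763 (nat_lit 7371) (nat_lit 6) (nat_lit 5))
    (@En.n l31635 (nat_lit 3565) (nat_lit 8) (nat_lit 13))
    (@En.i (nat_lit 7462) (nat_lit 9) (nat_lit 10))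
    (@En.n l28 (nat_lit 7367) (nat_lit 9) (nat_lit 3))
    (@En.n l1732 (nat_lit 7458) (nat_lit 10) (nat_lit 3))
    (@En.i (nat_lit 5889) (nat_lit 12) (nat_lit 11))
    (@En.n l16743 (nat_lit 7458) (nat_lit 13) (nat_lit 13))
    (@En.n l5236 (nat_lit 8691) (nat_lit 14) (nat_lit 13))
    (@En.n l3106 (nat_lit 5545) (nat_lit 13) (nat_lit 5))
    (@En.n l17 (nat_lit 7200) (nat_lit 15) (nat_lit 2))))
  (@Cl.mk (nat_lit 0x3000300090007000c0006000c000c00040007000400040009000d000d000a) (nat_lit 0x6040a700007592) (nat_lit 16) Lb.e (@T16.mk En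
    (@En.n l12541 (nat_lit 6365) (nat_lit 0) (nat_lit 10))
    (@En.n l644 (nat_lit 7205) (nat_lit 3) (nat_lit 13))
    (@En.i (nat_lit 8694) (nat_lit 6) (nat_lit 13))
    (@En.n l3528 (nat_lit 7020) (nat_lit 3) (nat_lit 9))
    (@En.n l11022 (nat_lit 4007) (nat_lit 12) (nat_lit 4))
    (@En.n l18230 (nat_lit 7202) (nat_lit 5) (nat_lit 4))
    (@En.i (nat_lit 3102) (nat_lit 11) (nat_lit 7))
    (@En.n l24994 (nat_lit 7284) (nat_lit 7) (nat_lit 4))
    (@En.n l619 (nat_lit 7197) (nat_lit 4) (nat_lit 12))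
    (@En.i (nat_lit 4340) (nat_lit 10) (nat_lit 12))
    (@En.n l18230 (nat_lit 8719) (nat_lit 4) (nat_lit 6))
    (@En.n l18227 (nat_lit 7366) (nat_lit 12) (nat_lit 12))
    (@En.n l30382 (nat_lit 7267) (nat_lit 13) (nat_lit 7))
    (@En.i (nat_lit 9490) (nat_lit 14) (nat_lit 9))
    (@En.n l30383 (nat_lit 7204) (nat_lit 13) (nat_lit 3))
    (@En.n l7 (nat_lit 7205) (nat_lit 0) (nat_lit 3))))
  (@Cl.mk (nat_lit 0x30003000b0007000b0006000c0005000d0005000400030009000d000d000a) (nat_lit 0x90703050006780) (nat_lit 16) Lb.e (@T16.mk En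
    (@En.n l55 (nat_lit 7515) (nat_lit 0) (nat_lit 10))
    (@En.n l39613 (nat_lit 7292) (nat_lit 3) (nat_lit 13))
    (@En.n l39614 (nat_lit 8696) (nat_lit 6) (nat_lit 13))
    (@En.n l39615 (nat_lit 7015) (nat_lit 3) (nat_lit 9))
    (@En.n l18 (nat_lit 7290) (nat_lit 4) (nat_lit 3))
    (@En.n l11394 (nat_lit 7197) (nat_lit 0) (nat_lit 4))
    (@En.n l61 (nat_lit 7294) (nat_lit 6) (nat_lit 5))
    (@En.n l18369 (nat_lit 4679) (nat_lit 8) (nat_lit 13))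
    (@En.n l19348 (nat_lit 3662) (nat_lit 8) (nat_lit 5))
    (@En.n l39614 (nat_lit 7207) (nat_lit 10) (nat_lit 12))
    (@En.i (nat_lit 8726) (nat_lit 5) (nat_lit 6))
    (@En.n l27655 (nat_lit 7376) (nat_lit 12) (nat_lit 11))
    (@En.n l18371 (nat_lit 7222) (nat_lit 13) (nat_lit 7))
    (@En.n l5579 (nat_lit 10665) (nat_lit 9) (nat_lit 11))
    (@En.n l39616 (nat_lit 7219) (nat_lit 13) (nat_lit 3))
    (@En.n l6420 (nat_lit 7292) (nat_lit 0) (nat_lit 3))))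
  (@Cl.mk (nat_lit 0x3000300090007000c000b000b000800040007000500050009000d000d0008) (nat_lit 0x50789500004671) (nat_lit 16) Lb.e (@T16.mk En
    (@En.n l17334 (nat_lit 5150) (nat_lit 0) (nat_lit 8))
    (@En.n l644 (nat_lit 7391) (nat_lit 3) (nat_lit 13))
    (@En.i (nat_lit 8502) (nat_lit 6) (nat_lit 13))
    (@En.n l17334 (nat_lit 5516) (nat_lit 3) (nat_lit 9))
    (@En.n l11 (nat_lit 4012) (nat_lit 11) (nat_lit 5))
    (@En.n l11547 (nat_lit 7115) (nat_lit 5) (nat_lit 5))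
    (@En.i (nat_lit 4480) (nat_lit 11) (nat_lit 7))
    (@En.n l936 (nat_lit 7201) (nat_lit 7) (nat_lit 4))
    (@En.i (nat_lit 8655) (nat_lit 0) (nat_lit 8))
    (@En.n l619 (nat_lit 7194) (nat_lit 5) (nat_lit 11))
    (@En.n l25014 (nat_lit 7294) (nat_lit 11) (nat_lit 11))
    (@En.n l9451 (nat_lit 7361) (nat_lit 12) (nat_lit 12))
    (@En.n l17334 (nat_lit 7269) (nat_lit 13) (nat_lit 7))
    (@En.i (nat_lit 9896) (nat_lit 14) (nat_lit 9))
    (@En.n l4200 (nat_lit 7363) (nat_lit 13) (nat_lit 3))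
    (@En.n l7 (nat_lit 7391) (nat_lit 0) (nat_lit 3))))
  (@Cl.mk (nat_lit 0x2000b000300090007000c0005000c000c00040007000400040009000e000d) (nat_lit 0x306060a70000636) (nat_lit 16) Lb.e (@T16.mk En
    (@En.n l24529 (nat_lit 7201) (nat_lit 2) (nat_lit 13))
    (@En.n l532 (nat_lit 8554) (nat_lit 1) (nat_lit 14))
    (@En.n l899 (nat_lit 7022) (nat_lit 2) (nat_lit 9))
    (@En.n l152 (nat_lit 4006) (nat_lit 12) (nat_lit 4))
    (@En.n l870 (nat_lit 7219) (nat_lit 4) (nat_lit 4))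
    (@En.n l15963 (nat_lit 3978) (nat_lit 11) (nat_lit 7))
    (@En.n l2125 (nat_lit 7288) (nat_lit 6) (nat_lit 4))
    (@En.n l833 (nat_lit 7199) (nat_lit 4) (nat_lit 12))
    (@En.n l5646 (nat_lit 7212) (nat_lit 9) (nat_lit 12))
    (@En.i (nat_lit 8712) (nat_lit 9) (nat_lit 5))
    (@En.n l207 (nat_lit 7365) (nat_lit 11) (nat_lit 12))
    (@En.i (nat_lit 7266) (nat_lit 12) (nat_lit 7))
    (@En.n l870 (nat_lit 8054) (nat_lit 13) (nat_lit 9))
    (@En.n l15753 (nat_lit 7201) (nat_lit 14) (nat_lit 3))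
    (@En.i (nat_lit 7511) (nat_lit 0) (nat_lit 11))
    (@En.n l7 (nat_lit 7204) (nat_lit 15) (nat_lit 2))))
  (@Cl.mk (nat_lit 0x200090007000c0007000c000c00040007000400040009000d0009000e0003) (nat_lit 0x6030a60000781b0) (nat_lit 16) Lb.e (@T16.mk En
    (@En.i (nat_lit 7201) (nat_lit 15) (nat_lit 3))
    (@En.i (nat_lit 13357) (nat_lit 0) (nat_lit 14))
    (@En.i (nat_lit 6575) (nat_lit 2) (nat_lit 9))
    (@En.i (nat_lit 8154) (nat_lit 4) (nat_lit 13))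
    (@En.n l649 (nat_lit 7024) (nat_lit 4) (nat_lit 9))
    (@En.i (nat_lit 4010) (nat_lit 12) (nat_lit 4))
    (@En.i (nat_lit 7292) (nat_lit 6) (nat_lit 4))
    (@En.i (nat_lit 3973) (nat_lit 11) (nat_lit 7))
    (@En.n l1865 (nat_lit 7283) (nat_lit 8) (nat_lit 4))
    (@En.n l619 (nat_lit 7198) (nat_lit 4) (nat_lit 12))
    (@En.i (nat_lit 4339) (nat_lit 11) (nat_lit 12))
    (@En.n l1769 (nat_lit 8722) (nat_lit 12) (nat_lit 7))
    (@En.n l4817 (nat_lit 7373) (nat_lit 13) (nat_lit 12))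
    (@En.n l10971 (nat_lit 7274) (nat_lit 14) (nat_lit 7))
    (@En.i (nat_lit 9489) (nat_lit 14) (nat_lit 9))
    (@En.n l50 (nat_lit 7205) (nat_lit 15) (nat_lit 2))))
  (@Cl.mk (nat_lit 0x20005000d0004000a00030009000e000d000200060003000b0007000e000c) (nat_lit 0x304016b0005095) (nat_lit 16) Lb.e (@T16.mk En
    (@En.n l9451 (nat_lit 7208) (nat_lit 10) (nat_lit 12))
    (@En.n l9771 (nat_lit 4861) (nat_lit 11) (nat_lit 14))
    (@En.n l7234 (nat_lit 4860) (nat_lit 12) (nat_lit 7))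
    (@En.n l5572 (nat_lit 11670) (nat_lit 3) (nat_lit 11))
    (@En.i (nat_lit 4754) (nat_lit 4) (nat_lit 3))
    (@En.n l8274 (nat_lit 2539) (nat_lit 5) (nat_lit 6))
    (@En.n l7 (nat_lit 7206) (nat_lit 6) (nat_lit 2))
    (@En.n l3230 (nat_lit 4754) (nat_lit 8) (nat_lit 13))
    (@En.i (nat_lit 8523) (nat_lit 9) (nat_lit 14))
    (@En.n l9076 (nat_lit 3586) (nat_lit 2) (nat_lit 9))
    (@En.n l4059 (nat_lit 7193) (nat_lit 10) (nat_lit 3))
    (@En.n l5572 (nat_lit 12761) (nat_lit 12) (nat_lit 10))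
    (@En.n l9076 (nat_lit 7212) (nat_lit 5) (nat_lit 4))
    (@En.n l5572 (nat_lit 4740) (nat_lit 7) (nat_lit 13))
    (@En.n l11241 (nat_lit 5580) (nat_lit 7) (nat_lit 5))
    (@En.n l3 (nat_lit 7206) (nat_lit 15) (nat_lit 2))))
  (@Cl.mk (nat_lit 0x30003000c0007000c000c0004000c00040004000b00040009000d000d0005) (nat_lit 0x90420700602540) (nat_lit 16) Lb.e (@T16.mk En
    (@En.i (nat_lit 6878) (nat_lit 0) (nat_lit 5))
    (@En.n l644 (nat_lit 7303) (nat_lit 3) (nat_lit 13))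
    (@En.i (nat_lit 8308) (nat_lit 6) (nat_lit 13))
    (@En.n l7441 (nat_lit 3790) (nat_lit 3) (nat_lit 9))
    (@En.n l11547 (nat_lit 7115) (nat_lit 4) (nat_lit 4))
    (@En.n l4817 (nat_lit 7302) (nat_lit 0) (nat_lit 11))
    (@En.n l152 (nat_lit 4754) (nat_lit 12) (nat_lit 4))
    (@En.n l3851 (nat_lit 4349) (nat_lit 7) (nat_lit 4))
    (@En.n l617 (nat_lit 4685) (nat_lit 9) (nat_lit 12))
    (@En.i (nat_lit 7417) (nat_lit 9) (nat_lit 4))
    (@En.n l3536 (nat_lit 3532) (nat_lit 4) (nat_lit 12))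
    (@En.n l35246 (nat_lit 7328) (nat_lit 12) (nat_lit 12))
    (@En.i (nat_lit 3531) (nat_lit 13) (nat_lit 7))
    (@En.i (nat_lit 10677) (nat_lit 14) (nat_lit 12))
    (@En.n l35247 (nat_lit 7208) (nat_lit 13) (nat_lit 3))
    (@En.n l7 (nat_lit 7303) (nat_lit 0) (nat_lit 3))))
  (@Cl.mk (nat_lit 0x200060003000c0007000c000c0004000c00040004000a00040009000e000d) (nat_lit 0x50400a00801a6) (nat_lit 16) Lb.e (@T16.mk En
    (@En.n l23419 (nat_lit 7207) (nat_lit 2) (nat_lit 13))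
    (@En.n l11429 (nat_lit 8532) (nat_lit 1) (nat_lit 14))
    (@En.n l23420 (nat_lit 3714) (nat_lit 2) (nat_lit 9))
    (@En.i (nat_lit 7114) (nat_lit 3) (nat_lit 4))
    (@En.n l11432 (nat_lit 10610) (nat_lit 4) (nat_lit 10))
    (@En.n l15665 (nat_lit 7206) (nat_lit 12) (nat_lit 4))
    (@En.n l23421 (nat_lit 7211) (nat_lit 6) (nat_lit 4))
    (@En.n l23422 (nat_lit 4738) (nat_lit 8) (nat_lit 12))
    (@En.n l11432 (nat_lit 7425) (nat_lit 8) (nat_lit 4))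
    (@En.n l619 (nat_lit 7209) (nat_lit 10) (nat_lit 12))
    (@En.i (nat_lit 7325) (nat_lit 11) (nat_lit 12))
    (@En.n l23423 (nat_lit 7220) (nat_lit 12) (nat_lit 7))
    (@En.n l17 (nat_lit 11447) (nat_lit 13) (nat_lit 12))
    (@En.n l11429 (nat_lit 7207) (nat_lit 14) (nat_lit 3))
    (@En.n l11432 (nat_lit 6656) (nat_lit 0) (nat_lit 6))
    (@En.n l50 (nat_lit 7208) (nat_lit 15) (nat_lit 2))))
  (@Cl.mk (nat_lit 0x200060003000d0007000c0003000b000e00040002000a00050009000e000d) (nat_lit 0x90a0940080171) (nat_lit 16) Lb.e (@T16.mk En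
    (@En.n l10166 (nat_lit 3532) (nat_lit 11) (nat_lit 13))
    (@En.n l723 (nat_lit 8564) (nat_lit 12) (nat_lit 14))
    (@En.n l695 (nat_lit 3711) (nat_lit 2) (nat_lit 9))
    (@En.i (nat_lit 7698) (nat_lit 14) (nat_lit 5))
    (@En.n l10167 (nat_lit 10611) (nat_lit 4) (nat_lit 10))
    (@En.n l11 (nat_lit 7209) (nat_lit 5) (nat_lit 2))
    (@En.n l117 (nat_lit 7208) (nat_lit 6) (nat_lit 4))
    (@En.n l10168 (nat_lit 3516) (nat_lit 8) (nat_lit 14))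
    (@En.i (nat_lit 4737) (nat_lit 9) (nat_lit 11))
    (@En.n l10168 (nat_lit 3534) (nat_lit 9) (nat_lit 3))
    (@En.i (nat_lit 7323) (nat_lit 11) (nat_lit 12))
    (@En.n l6674 (nat_lit 3528) (nat_lit 12) (nat_lit 7))
    (@En.n l698 (nat_lit 12123) (nat_lit 13) (nat_lit 13))
    (@En.n l723 (nat_lit 3532) (nat_lit 7) (nat_lit 3))
    (@En.n l721 (nat_lit 6705) (nat_lit 8) (nat_lit 6))
    (@En.n l50 (nat_lit 7209) (nat_lit 15) (nat_lit 2))))
  (@Cl.mk (nat_lit 0x200060003000c000b000b00090004000c00050005000a00040007000e000d) (nat_lit 0x83130a0080071) (nat_lit 16) Lb.e (@T16.mk En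
    (@En.n l10225 (nat_lit 3536) (nat_lit 2) (nat_lit 13))
    (@En.n l10226 (nat_lit 8534) (nat_lit 1) (nat_lit 14))
    (@En.n l10227 (nat_lit 1165) (nat_lit 2) (nat_lit 7))
    (@En.i (nat_lit 7116) (nat_lit 3) (nat_lit 4))
    (@En.n l10228 (nat_lit 7356) (nat_lit 4) (nat_lit 10))
    (@En.n l10229 (nat_lit 4861) (nat_lit 5) (nat_lit 5))
    (@En.n l1133 (nat_lit 7324) (nat_lit 6) (nat_lit 5))
    (@En.n l10230 (nat_lit 7220) (nat_lit 8) (nat_lit 12))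
    (@En.n l936 (nat_lit 7208) (nat_lit 8) (nat_lit 4))
    (@En.n l3586 (nat_lit 4198) (nat_lit 10) (nat_lit 9))
    (@En.n l10231 (nat_lit 3534) (nat_lit 11) (nat_lit 11))
    (@En.n l10232 (nat_lit 7423) (nat_lit 12) (nat_lit 11))
    (@En.n l10233 (nat_lit 11428) (nat_lit 13) (nat_lit 12))
    (@En.n l10226 (nat_lit 3536) (nat_lit 14) (nat_lit 3))
    (@En.n l10228 (nat_lit 6713) (nat_lit 0) (nat_lit 6))
    (@En.n l50 (nat_lit 7210) (nat_lit 15) (nat_lit 2))))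
  (@Cl.mk (nat_lit 0x200060003000b0007000c000a000d000500040003000a00060009000e000d) (nat_lit 0x9088a00080151) (nat_lit 16) Lb.e (@T16.mk En
    (@En.n l55 (nat_lit 4349) (nat_lit 2) (nat_lit 13))
    (@En.n l218 (nat_lit 9742) (nat_lit 1) (nat_lit 14))
    (@En.n l8559 (nat_lit 3803) (nat_lit 2) (nat_lit 9))
    (@En.n l8560 (nat_lit 7218) (nat_lit 3) (nat_lit 6))
    (@En.n l3625 (nat_lit 10609) (nat_lit 4) (nat_lit 10))
    (@En.n l8561 (nat_lit 7214) (nat_lit 5) (nat_lit 3))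
    (@En.n l8562 (nat_lit 7209) (nat_lit 6) (nat_lit 4))
    (@En.n l3625 (nat_lit 7423) (nat_lit 7) (nat_lit 5))
    (@En.i (nat_lit 3512) (nat_lit 9) (nat_lit 13))
    (@En.n l6277 (nat_lit 7213) (nat_lit 10) (nat_lit 10))
    (@En.n l2960 (nat_lit 7320) (nat_lit 11) (nat_lit 12))
    (@En.n l8559 (nat_lit 2949) (nat_lit 12) (nat_lit 7))
    (@En.n l8563 (nat_lit 11445) (nat_lit 13) (nat_lit 11))
    (@En.n l218 (nat_lit 4349) (nat_lit 14) (nat_lit 3))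
    (@En.n l716 (nat_lit 6650) (nat_lit 0) (nat_lit 6))
    (@En.n l28 (nat_lit 7211) (nat_lit 15) (nat_lit 2))))
  (@Cl.mk (nat_lit 0x200060003000a0007000d000c000b000300060004000a00050009000e000d) (nat_lit 0x6079900080141) (nat_lit 16) Lb.e (@T16.mk En
    (@En.n l11399 (nat_lit 4340) (nat_lit 2) (nat_lit 13))
    (@En.n l11400 (nat_lit 9740) (nat_lit 1) (nat_lit 14))
    (@En.i (nat_lit 3798) (nat_lit 2) (nat_lit 9))
    (@En.i (nat_lit 7363) (nat_lit 3) (nat_lit 5))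
    (@En.n l21960 (nat_lit 8126) (nat_lit 4) (nat_lit 10))
    (@En.n l11402 (nat_lit 7208) (nat_lit 5) (nat_lit 4))
    (@En.n l10882 (nat_lit 5583) (nat_lit 6) (nat_lit 6))
    (@En.n l152 (nat_lit 7214) (nat_lit 7) (nat_lit 3))
    (@En.n l6641 (nat_lit 7193) (nat_lit 0) (nat_lit 11))
    (@En.n l21961 (nat_lit 7211) (nat_lit 10) (nat_lit 12))
    (@En.n l21962 (nat_lit 7360) (nat_lit 11) (nat_lit 13))
    (@En.i (nat_lit 2947) (nat_lit 12) (nat_lit 7))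
    (@En.n l21463 (nat_lit 10867) (nat_lit 13) (nat_lit 10))
    (@En.n l11400 (nat_lit 4340) (nat_lit 14) (nat_lit 3))
    (@En.n l21963 (nat_lit 6677) (nat_lit 0) (nat_lit 6))
    (@En.n l50 (nat_lit 7212) (nat_lit 15) (nat_lit 2))))
  (@Cl.mk (nat_lit 0x200070003000c0007000a000d0004000c00030009000600040009000e000d) (nat_lit 0xa079030700265) (nat_lit 16) Lb.e (@T16.mk En
    (@En.n l1144 (nat_lit 7216) (nat_lit 2) (nat_lit 13))
    (@En.n l16562 (nat_lit 8537) (nat_lit 1) (nat_lit 14))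
    (@En.n l13941 (nat_lit 7211) (nat_lit 2) (nat_lit 9))
    (@En.n l16563 (nat_lit 7208) (nat_lit 3) (nat_lit 4))
    (@En.n l1483 (nat_lit 7217) (nat_lit 4) (nat_lit 6))
    (@En.n l4489 (nat_lit 10608) (nat_lit 5) (nat_lit 9))
    (@En.n l7102 (nat_lit 7215) (nat_lit 6) (nat_lit 3))
    (@En.n l3072 (nat_lit 4733) (nat_lit 8) (nat_lit 12))
    (@En.n l16564 (nat_lit 7424) (nat_lit 8) (nat_lit 4))
    (@En.n l3530 (nat_lit 3509) (nat_lit 5) (nat_lit 13))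
    (@En.n l1483 (nat_lit 3433) (nat_lit 11) (nat_lit 10))
    (@En.n l7126 (nat_lit 7234) (nat_lit 12) (nat_lit 7))
    (@En.n l11993 (nat_lit 11439) (nat_lit 13) (nat_lit 12))
    (@En.n l11 (nat_lit 7216) (nat_lit 14) (nat_lit 3))
    (@En.n l16565 (nat_lit 6648) (nat_lit 0) (nat_lit 7))
    (@En.n l1157 (nat_lit 7213) (nat_lit 15) (nat_lit 2))))
  (@Cl.mk (nat_lit 0x200060003000a0007000d000a000d000300060003000a00060009000e000d) (nat_lit 0x507740008014a) (nat_lit 16) Lb.e (@T16.mk En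
    (@En.n l6635 (nat_lit 4345) (nat_lit 2) (nat_lit 13))
    (@En.n l16466 (nat_lit 9741) (nat_lit 1) (nat_lit 14))
    (@En.i (nat_lit 3894) (nat_lit 2) (nat_lit 9))
    (@En.i (nat_lit 7288) (nat_lit 3) (nat_lit 6))
    (@En.n l698 (nat_lit 8123) (nat_lit 4) (nat_lit 10))
    (@En.n l16467 (nat_lit 7211) (nat_lit 5) (nat_lit 3))
    (@En.n l6638 (nat_lit 5190) (nat_lit 6) (nat_lit 6))
    (@En.n l117 (nat_lit 7212) (nat_lit 7) (nat_lit 3))
    (@En.n l16468 (nat_lit 3513) (nat_lit 0) (nat_lit 13))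
    (@En.n l6675 (nat_lit 7215) (nat_lit 10) (nat_lit 10))
    (@En.n l10882 (nat_lit 7331) (nat_lit 11) (nat_lit 13))
    (@En.i (nat_lit 2944) (nat_lit 12) (nat_lit 7))
    (@En.n l6642 (nat_lit 10866) (nat_lit 13) (nat_lit 10))
    (@En.n l6636 (nat_lit 4345) (nat_lit 14) (nat_lit 3))
    (@En.n l6643 (nat_lit 5973) (nat_lit 0) (nat_lit 6))
    (@En.n l50 (nat_lit 7214) (nat_lit 15) (nat_lit 2))))
  (@Cl.mk (nat_lit 0x200070003000b0007000a000d000b000500030009000600050009000e000d) (nat_lit 0x506a300700251) (nat_lit 16) Lb.e (@T16.mk En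
    (@En.n l16599 (nat_lit 4347) (nat_lit 2) (nat_lit 13))
    (@En.n l532 (nat_lit 8538) (nat_lit 1) (nat_lit 14))
    (@En.n l5646 (nat_lit 7214) (nat_lit 2) (nat_lit 9))
    (@En.n l5646 (nat_lit 7212) (nat_lit 3) (nat_lit 5))
    (@En.n l17 (nat_lit 7289) (nat_lit 4) (nat_lit 6))
    (@En.i (nat_lit 8124) (nat_lit 5) (nat_lit 9))
    (@En.n l7094 (nat_lit 7213) (nat_lit 6) (nat_lit 3))
    (@En.n l97 (nat_lit 2136) (nat_lit 7) (nat_lit 5))
    (@En.n l16600 (nat_lit 7114) (nat_lit 9) (nat_lit 11))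
    (@En.n l16601 (nat_lit 3511) (nat_lit 5) (nat_lit 13))
    (@En.n l7940 (nat_lit 3435) (nat_lit 11) (nat_lit 10))
    (@En.i (nat_lit 2948) (nat_lit 12) (nat_lit 7))
    (@En.n l16602 (nat_lit 10869) (nat_lit 13) (nat_lit 11))
    (@En.n l5895 (nat_lit 4347) (nat_lit 14) (nat_lit 3))
    (@En.i (nat_lit 6649) (nat_lit 0) (nat_lit 7))
    (@En.n l7 (nat_lit 7215) (nat_lit 15) (nat_lit 2))))
noncomputable def a451 : T16 Cl := @T16.mk Cl
  (@Cl.mk (nat_lit 0x30003000c0007000a000d0004000c0003000a000600040009000d000d0006) (nat_lit 0xa07a0707003450) (nat_lit 16) Lb.e (@T16.mk En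
    (@En.i (nat_lit 6881) (nat_lit 0) (nat_lit 6))
    (@En.n l1767 (nat_lit 7295) (nat_lit 3) (nat_lit 13))
    (@En.n l3530 (nat_lit 9095) (nat_lit 6) (nat_lit 13))
    (@En.n l13941 (nat_lit 4349) (nat_lit 3) (nat_lit 9))
    (@En.n l15535 (nat_lit 7207) (nat_lit 4) (nat_lit 4))
    (@En.n l1769 (nat_lit 7290) (nat_lit 5) (nat_lit 6))
    (@En.n l3531 (nat_lit 7299) (nat_lit 1) (nat_lit 10))
    (@En.i (nat_lit 4347) (nat_lit 7) (nat_lit 3))
    (@En.i (nat_lit 4734) (nat_lit 0) (nat_lit 12))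
    (@En.i (nat_lit 7422) (nat_lit 9) (nat_lit 4))
    (@En.n l3530 (nat_lit 3505) (nat_lit 5) (nat_lit 13))
    (@En.n l1769 (nat_lit 3427) (nat_lit 8) (nat_lit 10))
    (@En.i (nat_lit 7232) (nat_lit 13) (nat_lit 7))
    (@En.i (nat_lit 10672) (nat_lit 14) (nat_lit 12))
    (@En.i (nat_lit 7213) (nat_lit 13) (nat_lit 3))
    (@En.n l4659 (nat_lit 7295) (nat_lit 0) (nat_lit 3))))
  (@Cl.mk (nat_lit 0x2000b0003000b0007000a0005000d0005000d0003000600030009000e000d) (nat_lit 0x207060a05000658) (nat_lit 16) Lb.e (@T16.mk En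
    (@En.n l68 (nat_lit 7290) (nat_lit 2) (nat_lit 13))
    (@En.n l17251 (nat_lit 8539) (nat_lit 1) (nat_lit 14))
    (@En.n l17618 (nat_lit 7218) (nat_lit 2) (nat_lit 9))
    (@En.n l18369 (nat_lit 7219) (nat_lit 3) (nat_lit 3))
    (@En.n l19460 (nat_lit 2008) (nat_lit 12) (nat_lit 6))
    (@En.n l13031 (nat_lit 7289) (nat_lit 5) (nat_lit 3))
    (@En.n l3082 (nat_lit 4736) (nat_lit 0) (nat_lit 13))
    (@En.n l18772 (nat_lit 4584) (nat_lit 7) (nat_lit 5))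
    (@En.n l1445 (nat_lit 7213) (nat_lit 9) (nat_lit 13))
    (@En.i (nat_lit 9154) (nat_lit 9) (nat_lit 5))
    (@En.n l3082 (nat_lit 3439) (nat_lit 11) (nat_lit 10))
    (@En.n l1448 (nat_lit 7228) (nat_lit 12) (nat_lit 7))
    (@En.n l3638 (nat_lit 11437) (nat_lit 13) (nat_lit 11))
    (@En.i (nat_lit 7290) (nat_lit 14) (nat_lit 3))
    (@En.n l8015 (nat_lit 5178) (nat_lit 0) (nat_lit 11))
    (@En.n l67 (nat_lit 7217) (nat_lit 15) (nat_lit 2))))
  (@Cl.mk (nat_lit 0x2000a0003000a0007000b000a0006000d00060005000300060009000e000d) (nat_lit 0x2060770b000054a) (nat_lit 16) Lb.e (@T16.mk En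
    (@En.n l20189 (nat_lit 7294) (nat_lit 2) (nat_lit 13))
    (@En.n l13137 (nat_lit 9747) (nat_lit 1) (nat_lit 14))
    (@En.n l3530 (nat_lit 7019) (nat_lit 9) (nat_lit 9))
    (@En.i (nat_lit 2009) (nat_lit 12) (nat_lit 6))
    (@En.n l4659 (nat_lit 7288) (nat_lit 4) (nat_lit 3))
    (@En.n l18775 (nat_lit 7698) (nat_lit 0) (nat_lit 5))
    (@En.n l3530 (nat_lit 4582) (nat_lit 6) (nat_lit 6))
    (@En.n l20236 (nat_lit 7211) (nat_lit 8) (nat_lit 13))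
    (@En.n l7797 (nat_lit 8653) (nat_lit 8) (nat_lit 6))
    (@En.n l15864 (nat_lit 7217) (nat_lit 10) (nat_lit 10))
    (@En.n l20237 (nat_lit 7319) (nat_lit 11) (nat_lit 11))
    (@En.i (nat_lit 7262) (nat_lit 12) (nat_lit 7))
    (@En.n l20238 (nat_lit 11440) (nat_lit 13) (nat_lit 10))
    (@En.n l7797 (nat_lit 7294) (nat_lit 14) (nat_lit 3))
    (@En.i (nat_lit 5176) (nat_lit 0) (nat_lit 10))
    (@En.n l7 (nat_lit 7218) (nat_lit 15) (nat_lit 2))))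
  (@Cl.mk (nat_lit 0x2000b0003000b0007000b0005000c0005000d0005000400030009000e000d) (nat_lit 0x108070105000658) (nat_lit 16) Lb.e (@T16.mk En
    (@En.n l25043 (nat_lit 7202) (nat_lit 2) (nat_lit 13))
    (@En.n l2038 (nat_lit 8541) (nat_lit 1) (nat_lit 14))
    (@En.n l19409 (nat_lit 7017) (nat_lit 2) (nat_lit 9))
    (@En.n l25044 (nat_lit 7217) (nat_lit 3) (nat_lit 3))
    (@En.n l18 (nat_lit 7199) (nat_lit 0) (nat_lit 4))
    (@En.n l9876 (nat_lit 7218) (nat_lit 5) (nat_lit 5))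
    (@En.i (nat_lit 4682) (nat_lit 7) (nat_lit 13))
    (@En.n l25045 (nat_lit 4585) (nat_lit 7) (nat_lit 5))
    (@En.n l6679 (nat_lit 7208) (nat_lit 9) (nat_lit 12))
    (@En.n l22886 (nat_lit 9155) (nat_lit 9) (nat_lit 5))
    (@En.n l5801 (nat_lit 7377) (nat_lit 11) (nat_lit 11))
    (@En.n l152 (nat_lit 7223) (nat_lit 12) (nat_lit 7))
    (@En.i (nat_lit 11438) (nat_lit 13) (nat_lit 11))
    (@En.n l22886 (nat_lit 7202) (nat_lit 14) (nat_lit 3))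
    (@En.n l18234 (nat_lit 5180) (nat_lit 0) (nat_lit 11))
    (@En.n l11 (nat_lit 7219) (nat_lit 15) (nat_lit 2))))
  (@Cl.mk (nat_lit 0x2000700030007000c000c0009000c000400040009000400090007000e000d) (nat_lit 0x211900702041) (nat_lit 16) Lb.e (@T16.mk En
    (@En.n l23402 (nat_lit 3531) (nat_lit 2) (nat_lit 13))
    (@En.i (nat_lit 7756) (nat_lit 1) (nat_lit 14))
    (@En.n l23258 (nat_lit 7210) (nat_lit 2) (nat_lit 7))
    (@En.n l3588 (nat_lit 3898) (nat_lit 3) (nat_lit 9))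
    (@En.n l403 (nat_lit 7118) (nat_lit 4) (nat_lit 4))
    (@En.n l1353 (nat_lit 7357) (nat_lit 5) (nat_lit 9))
    (@En.n l18 (nat_lit 4860) (nat_lit 6) (nat_lit 4))
    (@En.n l23403 (nat_lit 2949) (nat_lit 7) (nat_lit 4))
    (@En.i (nat_lit 4721) (nat_lit 9) (nat_lit 12))
    (@En.n l4990 (nat_lit 1605) (nat_lit 10) (nat_lit 9))
    (@En.n l5913 (nat_lit 3528) (nat_lit 11) (nat_lit 12))
    (@En.n l2869 (nat_lit 7424) (nat_lit 12) (nat_lit 12))
    (@En.i (nat_lit 7024) (nat_lit 13) (nat_lit 7))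
    (@En.n l23404 (nat_lit 3531) (nat_lit 14) (nat_lit 3))
    (@En.n l1353 (nat_lit 6804) (nat_lit 0) (nat_lit 7))
    (@En.n l11 (nat_lit 7220) (nat_lit 15) (nat_lit 2))))
  (@Cl.mk (nat_lit 0x20007000c000c0009000c00040004000b000400090007000d0005000e0003) (nat_lit 0x21250080206090) (nat_lit 16) Lb.e (@T16.mk En
    (@En.i (nat_lit 3531) (nat_lit 15) (nat_lit 3))
    (@En.n l7233 (nat_lit 13332) (nat_lit 0) (nat_lit 14))
    (@En.i (nat_lit 7246) (nat_lit 2) (nat_lit 5))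
    (@En.n l6042 (nat_lit 8607) (nat_lit 4) (nat_lit 13))
    (@En.i (nat_lit 7426) (nat_lit 4) (nat_lit 7))
    (@En.n l19951 (nat_lit 3903) (nat_lit 5) (nat_lit 9))
    (@En.i (nat_lit 7121) (nat_lit 6) (nat_lit 4))
    (@En.n l899 (nat_lit 9534) (nat_lit 8) (nat_lit 11))
    (@En.n l152 (nat_lit 4858) (nat_lit 8) (nat_lit 4))
    (@En.n l3851 (nat_lit 2946) (nat_lit 9) (nat_lit 4))
    (@En.n l7233 (nat_lit 4716) (nat_lit 11) (nat_lit 12))
    (@En.n l7231 (nat_lit 4462) (nat_lit 12) (nat_lit 9))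
    (@En.n l3536 (nat_lit 3527) (nat_lit 13) (nat_lit 12))
    (@En.n l16584 (nat_lit 7421) (nat_lit 14) (nat_lit 12))
    (@En.n l7233 (nat_lit 12152) (nat_lit 14) (nat_lit 7))
    (@En.n l50 (nat_lit 7221) (nat_lit 15) (nat_lit 2))))
  (@Cl.mk (nat_lit 0x300030007000b0005000c000a000d00050004000300090006000d000d000b) (nat_lit 0x6023800060892) (nat_lit 16) Lb.e (@T16.mk En
    (@En.i (nat_lit 7527) (nat_lit 0) (nat_lit 11))
    (@En.n l23292 (nat_lit 7224) (nat_lit 3) (nat_lit 13))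
    (@En.i (nat_lit 10539) (nat_lit 13) (nat_lit 13))
    (@En.n l41248 (nat_lit 7226) (nat_lit 3) (nat_lit 6))
    (@En.n l32697 (nat_lit 7249) (nat_lit 4) (nat_lit 9))
    (@En.n l3180 (nat_lit 7225) (nat_lit 5) (nat_lit 3))
    (@En.n l18 (nat_lit 4808) (nat_lit 0) (nat_lit 4))
    (@En.n l6081 (nat_lit 7229) (nat_lit 7) (nat_lit 5))
    (@En.i (nat_lit 4597) (nat_lit 5) (nat_lit 13))
    (@En.n l61 (nat_lit 6985) (nat_lit 10) (nat_lit 10))
    (@En.n l23404 (nat_lit 3531) (nat_lit 11) (nat_lit 12))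
    (@En.n l2678 (nat_lit 8855) (nat_lit 5) (nat_lit 5))
    (@En.n l3815 (nat_lit 4382) (nat_lit 13) (nat_lit 11))
    (@En.n l810 (nat_lit 7615) (nat_lit 14) (nat_lit 7))
    (@En.n l28 (nat_lit 7223) (nat_lit 13) (nat_lit 3))
    (@En.n l22608 (nat_lit 7224) (nat_lit 0) (nat_lit 3))))
  (@Cl.mk (nat_lit 0x2000c00030007000b0004000c000a000d00050004000300090006000e000d) (nat_lit 0x1006023700070a9) (nat_lit 16) Lb.e (@T16.mk En
    (@En.n l1578 (nat_lit 7222) (nat_lit 2) (nat_lit 13))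
    (@En.i (nat_lit 7870) (nat_lit 1) (nat_lit 14))
    (@En.n l23504 (nat_lit 7374) (nat_lit 2) (nat_lit 6))
    (@En.n l6080 (nat_lit 7250) (nat_lit 3) (nat_lit 9))
    (@En.n l5331 (nat_lit 7228) (nat_lit 4) (nat_lit 3))
    (@En.n l18 (nat_lit 7500) (nat_lit 0) (nat_lit 4))
    (@En.n l6081 (nat_lit 7262) (nat_lit 6) (nat_lit 5))
    (@En.i (nat_lit 4600) (nat_lit 8) (nat_lit 13))
    (@En.n l61 (nat_lit 6986) (nat_lit 9) (nat_lit 10))
    (@En.i (nat_lit 7220) (nat_lit 10) (nat_lit 12))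
    (@En.i (nat_lit 8853) (nat_lit 10) (nat_lit 4))
    (@En.n l2869 (nat_lit 4383) (nat_lit 12) (nat_lit 11))
    (@En.i (nat_lit 7025) (nat_lit 13) (nat_lit 7))
    (@En.i (nat_lit 7222) (nat_lit 14) (nat_lit 3))
    (@En.i (nat_lit 5485) (nat_lit 0) (nat_lit 12))
    (@En.n l11 (nat_lit 7223) (nat_lit 15) (nat_lit 2))))
  (@Cl.mk (nat_lit 0x20007000b0006000c000a000d00050004000300090006000d000a000e0003) (nat_lit 0x502480006081b0) (nat_lit 16) Lb.e (@T16.mk En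
    (@En.n l10098 (nat_lit 7222) (nat_lit 15) (nat_lit 3))
    (@En.n l21433 (nat_lit 13887) (nat_lit 0) (nat_lit 14))
    (@En.n l23374 (nat_lit 4446) (nat_lit 2) (nat_lit 10))
    (@En.n l34609 (nat_lit 10327) (nat_lit 4) (nat_lit 13))
    (@En.n l21433 (nat_lit 7375) (nat_lit 4) (nat_lit 6))
    (@En.n l34610 (nat_lit 7248) (nat_lit 5) (nat_lit 9))
    (@En.n l34611 (nat_lit 7227) (nat_lit 6) (nat_lit 3))
    (@En.n l34612 (nat_lit 4806) (nat_lit 7) (nat_lit 4))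
    (@En.n l34613 (nat_lit 7277) (nat_lit 8) (nat_lit 5))
    (@En.n l23375 (nat_lit 4801) (nat_lit 10) (nat_lit 13))
    (@En.i (nat_lit 6989) (nat_lit 11) (nat_lit 10))
    (@En.n l9882 (nat_lit 7221) (nat_lit 12) (nat_lit 12))
    (@En.n l34614 (nat_lit 8919) (nat_lit 13) (nat_lit 6))
    (@En.n l24510 (nat_lit 4417) (nat_lit 14) (nat_lit 11))
    (@En.n l34615 (nat_lit 7614) (nat_lit 14) (nat_lit 7))
    (@En.n l17 (nat_lit 7224) (nat_lit 15) (nat_lit 2))))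
  (@Cl.mk (nat_lit 0x300030007000a0005000d000a000d00030006000300090006000d000d000b) (nat_lit 0x60a4800060892) (nat_lit 16) Lb.e (@T16.mk En
    (@En.n l2348 (nat_lit 7526) (nat_lit 0) (nat_lit 11))
    (@En.n l18665 (nat_lit 7227) (nat_lit 3) (nat_lit 13))
    (@En.n l5378 (nat_lit 10325) (nat_lit 11) (nat_lit 13))
    (@En.n l20087 (nat_lit 7231) (nat_lit 3) (nat_lit 6))
    (@En.n l2611 (nat_lit 7229) (nat_lit 4) (nat_lit 9))
    (@En.n l12871 (nat_lit 7222) (nat_lit 5) (nat_lit 3))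
    (@En.n l781 (nat_lit 1236) (nat_lit 0) (nat_lit 6))
    (@En.n l2604 (nat_lit 7230) (nat_lit 7) (nat_lit 3))
    (@En.i (nat_lit 4598) (nat_lit 0) (nat_lit 13))
    (@En.n l2605 (nat_lit 6991) (nat_lit 10) (nat_lit 10))
    (@En.n l13103 (nat_lit 7232) (nat_lit 11) (nat_lit 13))
    (@En.n l20087 (nat_lit 8854) (nat_lit 5) (nat_lit 5))
    (@En.i (nat_lit 1853) (nat_lit 8) (nat_lit 10))
    (@En.i (nat_lit 7618) (nat_lit 5) (nat_lit 7))
    (@En.n l2593 (nat_lit 7228) (nat_lit 13) (nat_lit 3))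
    (@En.n l18664 (nat_lit 7227) (nat_lit 0) (nat_lit 3))))
  (@Cl.mk (nat_lit 0x30003000b000a0005000b000a0005000d0006000500030006000d000d000b) (nat_lit 0x660230900009a2) (nat_lit 16) Lb.e (@T16.mk En
    (@En.n l10734 (nat_lit 7524) (nat_lit 0) (nat_lit 11))
    (@En.n l12851 (nat_lit 7375) (nat_lit 3) (nat_lit 13))
    (@En.n l40700 (nat_lit 8698) (nat_lit 2) (nat_lit 13))
    (@En.n l27563 (nat_lit 4139) (nat_lit 12) (nat_lit 6))
    (@En.n l26586 (nat_lit 7231) (nat_lit 4) (nat_lit 3))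
    (@En.n l17502 (nat_lit 7200) (nat_lit 0) (nat_lit 5))
    (@En.i (nat_lit 7314) (nat_lit 6) (nat_lit 6))
    (@En.n l40701 (nat_lit 7222) (nat_lit 8) (nat_lit 13))
    (@En.n l15557 (nat_lit 7202) (nat_lit 8) (nat_lit 5))
    (@En.i (nat_lit 6984) (nat_lit 10) (nat_lit 10))
    (@En.n l28656 (nat_lit 3536) (nat_lit 11) (nat_lit 11))
    (@En.n l13902 (nat_lit 9167) (nat_lit 6) (nat_lit 5))
    (@En.n l77 (nat_lit 4386) (nat_lit 13) (nat_lit 10))
    (@En.n l3519 (nat_lit 10948) (nat_lit 9) (nat_lit 11))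
    (@En.n l6962 (nat_lit 7374) (nat_lit 13) (nat_lit 3))
    (@En.n l14014 (nat_lit 7375) (nat_lit 0) (nat_lit 3))))
  (@Cl.mk (nat_lit 0x20007000a0006000d000a000d00030006000300090006000d000a000e0003) (nat_lit 0x60a38000608230) (nat_lit 16) Lb.e (@T16.mk En
    (@En.n l7743 (nat_lit 7225) (nat_lit 15) (nat_lit 3))
    (@En.n l2038 (nat_lit 13889) (nat_lit 0) (nat_lit 14))
    (@En.n l2673 (nat_lit 4447) (nat_lit 2) (nat_lit 10))
    (@En.n l810 (nat_lit 10324) (nat_lit 11) (nat_lit 13))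
    (@En.i (nat_lit 7239) (nat_lit 4) (nat_lit 6))
    (@En.n l24340 (nat_lit 7277) (nat_lit 5) (nat_lit 9))
    (@En.n l18843 (nat_lit 7224) (nat_lit 6) (nat_lit 3))
    (@En.n l21281 (nat_lit 1889) (nat_lit 7) (nat_lit 6))
    (@En.n l7834 (nat_lit 7276) (nat_lit 8) (nat_lit 3))
    (@En.n l7741 (nat_lit 4812) (nat_lit 0) (nat_lit 13))
    (@En.n l34413 (nat_lit 6995) (nat_lit 11) (nat_lit 10))
    (@En.n l899 (nat_lit 7238) (nat_lit 12) (nat_lit 13))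
    (@En.i (nat_lit 8920) (nat_lit 13) (nat_lit 6))
    (@En.i (nat_lit 1857) (nat_lit 8) (nat_lit 10))
    (@En.n l7741 (nat_lit 7617) (nat_lit 5) (nat_lit 7))
    (@En.n l11 (nat_lit 7227) (nat_lit 15) (nat_lit 2))))
  (@Cl.mk (nat_lit 0x2000c00030007000a0004000d000a000d00030006000300090006000e000d) (nat_lit 0x2004093700070a9) (nat_lit 16) Lb.e (@T16.mk En
    (@En.n l564 (nat_lit 7225) (nat_lit 2) (nat_lit 13))
    (@En.n l2031 (nat_lit 7865) (nat_lit 1) (nat_lit 14))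
    (@En.i (nat_lit 7233) (nat_lit 2) (nat_lit 6))
    (@En.n l2037 (nat_lit 7262) (nat_lit 3) (nat_lit 9))
    (@En.n l2221 (nat_lit 7223) (nat_lit 4) (nat_lit 3))
    (@En.n l1643 (nat_lit 1285) (nat_lit 0) (nat_lit 6))
    (@En.n l3596 (nat_lit 7265) (nat_lit 6) (nat_lit 3))
    (@En.i (nat_lit 4730) (nat_lit 0) (nat_lit 13))
    (@En.n l5891 (nat_lit 6993) (nat_lit 9) (nat_lit 10))
    (@En.i (nat_lit 7234) (nat_lit 10) (nat_lit 13))
    (@En.i (nat_lit 8852) (nat_lit 10) (nat_lit 4))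
    (@En.i (nat_lit 1854) (nat_lit 8) (nat_lit 10))
    (@En.i (nat_lit 3919) (nat_lit 13) (nat_lit 7))
    (@En.n l1353 (nat_lit 7225) (nat_lit 14) (nat_lit 3))
    (@En.i (nat_lit 5484) (nat_lit 0) (nat_lit 12))
    (@En.n l50 (nat_lit 7228) (nat_lit 15) (nat_lit 2))))
  (@Cl.mk (nat_lit 0x300030007000b000a0006000d000b00050003000600090005000d000d000a) (nat_lit 0x770a500050a82) (nat_lit 16) Lb.e (@T16.mk En
    (@En.i (nat_lit 7147) (nat_lit 0) (nat_lit 10))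
    (@En.n l19496 (nat_lit 7277) (nat_lit 3) (nat_lit 13))
    (@En.n l1897 (nat_lit 12477) (nat_lit 12) (nat_lit 13))
    (@En.n l8550 (nat_lit 7314) (nat_lit 3) (nat_lit 5))
    (@En.n l3530 (nat_lit 6974) (nat_lit 9) (nat_lit 9))
    (@En.i (nat_lit 1229) (nat_lit 12) (nat_lit 6))
    (@En.n l4659 (nat_lit 7263) (nat_lit 6) (nat_lit 3))
    (@En.n l9969 (nat_lit 3530) (nat_lit 0) (nat_lit 5))
    (@En.n l1767 (nat_lit 7279) (nat_lit 9) (nat_lit 11))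
    (@En.n l10358 (nat_lit 2945) (nat_lit 10) (nat_lit 13))
    (@En.n l8638 (nat_lit 9141) (nat_lit 3) (nat_lit 6))
    (@En.n l831 (nat_lit 7225) (nat_lit 12) (nat_lit 10))
    (@En.n l9969 (nat_lit 7231) (nat_lit 13) (nat_lit 11))
    (@En.n l8604 (nat_lit 7624) (nat_lit 6) (nat_lit 7))
    (@En.n l50 (nat_lit 7262) (nat_lit 13) (nat_lit 3))
    (@En.n l19497 (nat_lit 7277) (nat_lit 0) (nat_lit 3))))
  (@Cl.mk (nat_lit 0x300030007000a0005000d000c000b00030006000400090005000d000d000b) (nat_lit 0x60a3100060452) (nat_lit 16) Lb.e (@T16.mk En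
    (@En.i (nat_lit 7584) (nat_lit 0) (nat_lit 11))
    (@En.n l601 (nat_lit 7276) (nat_lit 3) (nat_lit 13))
    (@En.i (nat_lit 10318) (nat_lit 11) (nat_lit 13))
    (@En.i (nat_lit 4603) (nat_lit 3) (nat_lit 5))
    (@En.n l899 (nat_lit 7263) (nat_lit 4) (nat_lit 9))
    (@En.n l4172 (nat_lit 7267) (nat_lit 5) (nat_lit 4))
    (@En.i (nat_lit 2777) (nat_lit 12) (nat_lit 6))
    (@En.n l830 (nat_lit 7225) (nat_lit 7) (nat_lit 3))
    (@En.n l619 (nat_lit 4005) (nat_lit 0) (nat_lit 11))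
    (@En.n l3866 (nat_lit 7222) (nat_lit 10) (nat_lit 12))
    (@En.i (nat_lit 2941) (nat_lit 11) (nat_lit 13))
    (@En.n l4172 (nat_lit 8849) (nat_lit 3) (nat_lit 5))
    (@En.i (nat_lit 2282) (nat_lit 8) (nat_lit 10))
    (@En.i (nat_lit 7621) (nat_lit 5) (nat_lit 7))
    (@En.n l50 (nat_lit 7265) (nat_lit 13) (nat_lit 3))
    (@En.i (nat_lit 7276) (nat_lit 0) (nat_lit 3))))
  (@Cl.mk (nat_lit 0x30003000b00090005000c000a0005000d0004000700030006000d000d000b) (nat_lit 0x650940900008a2) (nat_lit 16) Lb.e (@T16.mk En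
    (@En.n l55 (nat_lit 7525) (nat_lit 0) (nat_lit 11))
    (@En.n l2691 (nat_lit 7239) (nat_lit 3) (nat_lit 13))
    (@En.n l30189 (nat_lit 10288) (nat_lit 2) (nat_lit 13))
    (@En.n l30190 (nat_lit 7310) (nat_lit 12) (nat_lit 6))
    (@En.n l19348 (nat_lit 7226) (nat_lit 4) (nat_lit 3))
    (@En.n l27761 (nat_lit 1240) (nat_lit 0) (nat_lit 7))
    (@En.n l13031 (nat_lit 4603) (nat_lit 6) (nat_lit 4))
    (@En.n l26670 (nat_lit 7225) (nat_lit 8) (nat_lit 13))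
    (@En.i (nat_lit 7290) (nat_lit 8) (nat_lit 5))
    (@En.n l19342 (nat_lit 6990) (nat_lit 10) (nat_lit 10))
    (@En.n l1596 (nat_lit 7235) (nat_lit 11) (nat_lit 12))
    (@En.n l19165 (nat_lit 9166) (nat_lit 6) (nat_lit 5))
    (@En.n l7221 (nat_lit 1852) (nat_lit 13) (nat_lit 9))
    (@En.n l24320 (nat_lit 10946) (nat_lit 9) (nat_lit 11))
    (@En.n l6303 (nat_lit 7233) (nat_lit 13) (nat_lit 3))
    (@En.n l5870 (nat_lit 7239) (nat_lit 0) (nat_lit 3))))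
noncomputable def a452 : T16 Cl := @T16.mk Cl
  (@Cl.mk (nat_lit 0x300030007000a000d0009000c000300090006000400090007000d000d0007) (nat_lit 0x6937060010560) (nat_lit 16) Lb.e (@T16.mk En
    (@En.n l6825 (nat_lit 2590) (nat_lit 0) (nat_lit 7))
    (@En.n l1767 (nat_lit 7238) (nat_lit 3) (nat_lit 13))
    (@En.i (nat_lit 10319) (nat_lit 10) (nat_lit 13))
    (@En.i (nat_lit 7235) (nat_lit 3) (nat_lit 7))
    (@En.n l19469 (nat_lit 2945) (nat_lit 4) (nat_lit 9))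
    (@En.n l15535 (nat_lit 3531) (nat_lit 5) (nat_lit 4))
    (@En.n l19470 (nat_lit 7225) (nat_lit 6) (nat_lit 6))
    (@En.n l12583 (nat_lit 7359) (nat_lit 1) (nat_lit 9))
    (@En.n l13923 (nat_lit 2941) (nat_lit 8) (nat_lit 3))
    (@En.n l12583 (nat_lit 4732) (nat_lit 0) (nat_lit 12))
    (@En.n l19471 (nat_lit 1604) (nat_lit 11) (nat_lit 9))
    (@En.n l3530 (nat_lit 3491) (nat_lit 5) (nat_lit 13))
    (@En.i (nat_lit 1847) (nat_lit 8) (nat_lit 10))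
    (@En.n l12583 (nat_lit 12148) (nat_lit 14) (nat_lit 7))
    (@En.n l7126 (nat_lit 7234) (nat_lit 13) (nat_lit 3))
    (@En.n l4659 (nat_lit 7238) (nat_lit 0) (nat_lit 3))))
  (@Cl.mk (nat_lit 0x2000c0003000b00090004000c000a0005000d0004000700030006000e000d) (nat_lit 0x10650a408000049) (nat_lit 16) Lb.e (@T16.mk En
    (@En.n l3212 (nat_lit 7231) (nat_lit 2) (nat_lit 13))
    (@En.n l14305 (nat_lit 8764) (nat_lit 1) (nat_lit 14))
    (@En.n l6083 (nat_lit 7313) (nat_lit 12) (nat_lit 6))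
    (@En.n l7743 (nat_lit 7374) (nat_lit 3) (nat_lit 3))
    (@En.n l2067 (nat_lit 1284) (nat_lit 0) (nat_lit 7))
    (@En.n l3596 (nat_lit 4607) (nat_lit 5) (nat_lit 4))
    (@En.n l28 (nat_lit 7228) (nat_lit 7) (nat_lit 13))
    (@En.n l3219 (nat_lit 7217) (nat_lit 7) (nat_lit 5))
    (@En.n l7741 (nat_lit 6992) (nat_lit 9) (nat_lit 10))
    (@En.i (nat_lit 7236) (nat_lit 10) (nat_lit 12))
    (@En.n l20239 (nat_lit 9158) (nat_lit 10) (nat_lit 4))
    (@En.n l14305 (nat_lit 1855) (nat_lit 12) (nat_lit 9))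
    (@En.n l2068 (nat_lit 11424) (nat_lit 13) (nat_lit 11))
    (@En.n l3219 (nat_lit 7231) (nat_lit 14) (nat_lit 3))
    (@En.n l14305 (nat_lit 5462) (nat_lit 0) (nat_lit 12))
    (@En.n l50 (nat_lit 7233) (nat_lit 15) (nat_lit 2))))
  (@Cl.mk (nat_lit 0x2000800030007000a000d0009000c000300080006000400090007000e000d) (nat_lit 0x3006836060010a6) (nat_lit 16) Lb.e (@T16.mk En
    (@En.n l4270 (nat_lit 7232) (nat_lit 2) (nat_lit 13))
    (@En.n l2031 (nat_lit 7864) (nat_lit 1) (nat_lit 14))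
    (@En.i (nat_lit 7236) (nat_lit 2) (nat_lit 7))
    (@En.n l5227 (nat_lit 2949) (nat_lit 3) (nat_lit 9))
    (@En.n l2221 (nat_lit 7220) (nat_lit 4) (nat_lit 4))
    (@En.n l725 (nat_lit 7228) (nat_lit 5) (nat_lit 6))
    (@En.i (nat_lit 7355) (nat_lit 6) (nat_lit 8))
    (@En.n l3596 (nat_lit 2948) (nat_lit 7) (nat_lit 3))
    (@En.i (nat_lit 4729) (nat_lit 0) (nat_lit 12))
    (@En.n l5891 (nat_lit 1601) (nat_lit 10) (nat_lit 9))
    (@En.i (nat_lit 3492) (nat_lit 5) (nat_lit 13))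
    (@En.i (nat_lit 1845) (nat_lit 8) (nat_lit 10))
    (@En.i (nat_lit 3918) (nat_lit 13) (nat_lit 7))
    (@En.n l3749 (nat_lit 7232) (nat_lit 14) (nat_lit 3))
    (@En.i (nat_lit 6795) (nat_lit 0) (nat_lit 8))
    (@En.n l50 (nat_lit 7234) (nat_lit 15) (nat_lit 2))))
  (@Cl.mk (nat_lit 0x30003000c0009000c00090004000c0004000a000700040007000d000d0006) (nat_lit 0x96830807000450) (nat_lit 16) Lb.e (@T16.mk En
    (@En.n l15531 (nat_lit 2592) (nat_lit 0) (nat_lit 6))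
    (@En.n l15532 (nat_lit 7237) (nat_lit 3) (nat_lit 13))
    (@En.n l15533 (nat_lit 10286) (nat_lit 2) (nat_lit 13))
    (@En.n l15534 (nat_lit 7315) (nat_lit 11) (nat_lit 7))
    (@En.n l15535 (nat_lit 3536) (nat_lit 4) (nat_lit 4))
    (@En.n l1769 (nat_lit 7231) (nat_lit 5) (nat_lit 7))
    (@En.n l15536 (nat_lit 7358) (nat_lit 1) (nat_lit 10))
    (@En.n l15537 (nat_lit 4606) (nat_lit 7) (nat_lit 4))
    (@En.n l15538 (nat_lit 7232) (nat_lit 9) (nat_lit 12))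
    (@En.i (nat_lit 7216) (nat_lit 9) (nat_lit 4))
    (@En.n l15539 (nat_lit 1602) (nat_lit 11) (nat_lit 9))
    (@En.n l15533 (nat_lit 3507) (nat_lit 6) (nat_lit 12))
    (@En.n l15540 (nat_lit 1846) (nat_lit 13) (nat_lit 9))
    (@En.i (nat_lit 10951) (nat_lit 14) (nat_lit 12))
    (@En.n l7126 (nat_lit 7236) (nat_lit 13) (nat_lit 3))
    (@En.n l15541 (nat_lit 7237) (nat_lit 0) (nat_lit 3))))
  (@Cl.mk (nat_lit 0x200070003000c0009000c00090004000c00040009000700040007000e000d) (nat_lit 0x9693070700055) (nat_lit 16) Lb.e (@T16.mk En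
    (@En.n l4270 (nat_lit 7235) (nat_lit 2) (nat_lit 13))
    (@En.n l8564 (nat_lit 8770) (nat_lit 1) (nat_lit 14))
    (@En.n l6083 (nat_lit 7346) (nat_lit 11) (nat_lit 7))
    (@En.n l6399 (nat_lit 7210) (nat_lit 3) (nat_lit 4))
    (@En.n l725 (nat_lit 7233) (nat_lit 4) (nat_lit 7))
    (@En.n l8565 (nat_lit 7354) (nat_lit 5) (nat_lit 9))
    (@En.n l3596 (nat_lit 4608) (nat_lit 6) (nat_lit 4))
    (@En.n l28 (nat_lit 7234) (nat_lit 8) (nat_lit 12))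
    (@En.n l8566 (nat_lit 7213) (nat_lit 8) (nat_lit 4))
    (@En.n l8567 (nat_lit 1599) (nat_lit 10) (nat_lit 9))
    (@En.n l3603 (nat_lit 3510) (nat_lit 6) (nat_lit 12))
    (@En.n l2678 (nat_lit 1848) (nat_lit 12) (nat_lit 9))
    (@En.n l8568 (nat_lit 11425) (nat_lit 13) (nat_lit 12))
    (@En.n l3749 (nat_lit 7235) (nat_lit 14) (nat_lit 3))
    (@En.i (nat_lit 6796) (nat_lit 0) (nat_lit 7))
    (@En.n l50 (nat_lit 7236) (nat_lit 15) (nat_lit 2))))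
  (@Cl.mk (nat_lit 0x2000c0009000c00090004000c0004000b000700040007000d0005000e0003) (nat_lit 0x968308090004030) (nat_lit 16) Lb.e (@T16.mk En
    (@En.n l6269 (nat_lit 7235) (nat_lit 15) (nat_lit 3))
    (@En.i (nat_lit 13491) (nat_lit 0) (nat_lit 14))
    (@En.i (nat_lit 7240) (nat_lit 2) (nat_lit 5))
    (@En.i (nat_lit 10287) (nat_lit 2) (nat_lit 13))
    (@En.n l617 (nat_lit 7335) (nat_lit 11) (nat_lit 7))
    (@En.n l15186 (nat_lit 7426) (nat_lit 5) (nat_lit 4))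
    (@En.n l18712 (nat_lit 7239) (nat_lit 6) (nat_lit 7))
    (@En.n l29828 (nat_lit 9533) (nat_lit 8) (nat_lit 11))
    (@En.n l29829 (nat_lit 4605) (nat_lit 8) (nat_lit 4))
    (@En.n l612 (nat_lit 7238) (nat_lit 10) (nat_lit 12))
    (@En.n l50 (nat_lit 7295) (nat_lit 10) (nat_lit 4))
    (@En.n l7670 (nat_lit 4465) (nat_lit 12) (nat_lit 9))
    (@En.i (nat_lit 3500) (nat_lit 6) (nat_lit 12))
    (@En.i (nat_lit 1850) (nat_lit 14) (nat_lit 9))
    (@En.i (nat_lit 10950) (nat_lit 14) (nat_lit 12))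
    (@En.n l28 (nat_lit 7237) (nat_lit 15) (nat_lit 2))))
  (@Cl.mk (nat_lit 0x20007000a000d0009000c0003000a0006000400090007000d0006000e0003) (nat_lit 0x69370700105030) (nat_lit 16) Lb.e (@T16.mk En
    (@En.n l1080 (nat_lit 7232) (nat_lit 15) (nat_lit 3))
    (@En.n l7471 (nat_lit 13894) (nat_lit 0) (nat_lit 14))
    (@En.i (nat_lit 7241) (nat_lit 2) (nat_lit 6))
    (@En.n l21632 (nat_lit 10323) (nat_lit 4) (nat_lit 13))
    (@En.n l644 (nat_lit 7237) (nat_lit 4) (nat_lit 7))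
    (@En.n l617 (nat_lit 2946) (nat_lit 5) (nat_lit 9))
    (@En.n l3480 (nat_lit 7221) (nat_lit 6) (nat_lit 4))
    (@En.n l2642 (nat_lit 7227) (nat_lit 7) (nat_lit 6))
    (@En.i (nat_lit 9532) (nat_lit 9) (nat_lit 10))
    (@En.n l6081 (nat_lit 2940) (nat_lit 9) (nat_lit 3))
    (@En.n l34368 (nat_lit 4759) (nat_lit 11) (nat_lit 12))
    (@En.n l13716 (nat_lit 4464) (nat_lit 12) (nat_lit 9))
    (@En.i (nat_lit 3498) (nat_lit 5) (nat_lit 13))
    (@En.n l2642 (nat_lit 1849) (nat_lit 8) (nat_lit 10))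
    (@En.n l21632 (nat_lit 12150) (nat_lit 14) (nat_lit 7))
    (@En.n l28 (nat_lit 7238) (nat_lit 15) (nat_lit 2))))
  (@Cl.mk (nat_lit 0x2000b00090006000c000a0005000d0004000700030006000d000a000e0003) (nat_lit 0x660940900009130) (nat_lit 16) Lb.e (@T16.mk En
    (@En.n l1992 (nat_lit 7231) (nat_lit 15) (nat_lit 3))
    (@En.n l2038 (nat_lit 13489) (nat_lit 0) (nat_lit 14))
    (@En.n l2673 (nat_lit 4445) (nat_lit 2) (nat_lit 10))
    (@En.n l18663 (nat_lit 10289) (nat_lit 2) (nat_lit 13))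
    (@En.n l18874 (nat_lit 7309) (nat_lit 12) (nat_lit 6))
    (@En.n l18875 (nat_lit 7375) (nat_lit 5) (nat_lit 3))
    (@En.n l18876 (nat_lit 1888) (nat_lit 0) (nat_lit 7))
    (@En.n l18877 (nat_lit 4604) (nat_lit 7) (nat_lit 4))
    (@En.n l10882 (nat_lit 7227) (nat_lit 9) (nat_lit 13))
    (@En.i (nat_lit 7291) (nat_lit 9) (nat_lit 5))
    (@En.n l18877 (nat_lit 6994) (nat_lit 11) (nat_lit 10))
    (@En.n l17532 (nat_lit 7237) (nat_lit 12) (nat_lit 12))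
    (@En.i (nat_lit 8926) (nat_lit 13) (nat_lit 6))
    (@En.n l7744 (nat_lit 1856) (nat_lit 14) (nat_lit 9))
    (@En.i (nat_lit 10945) (nat_lit 9) (nat_lit 11))
    (@En.n l11 (nat_lit 7239) (nat_lit 15) (nat_lit 2))))
  (@Cl.mk (nat_lit 0x2000c0008000c00080004000b0004000b000a0008000500080005000e0006) (nat_lit 0x557305098302010) (nat_lit 16) Lb.e (@T16.mk En
    (@En.n l36791 (nat_lit 6891) (nat_lit 5) (nat_lit 6))
    (@En.n l1578 (nat_lit 4649) (nat_lit 1) (nat_lit 14))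
    (@En.n l117 (nat_lit 8755) (nat_lit 2) (nat_lit 5))
    (@En.n l617 (nat_lit 6892) (nat_lit 10) (nat_lit 8))
    (@En.n l15186 (nat_lit 7477) (nat_lit 4) (nat_lit 5))
    (@En.n l36792 (nat_lit 9182) (nat_lit 5) (nat_lit 8))
    (@En.n l36793 (nat_lit 7235) (nat_lit 6) (nat_lit 10))
    (@En.n l15016 (nat_lit 9301) (nat_lit 8) (nat_lit 11))
    (@En.n l29829 (nat_lit 6041) (nat_lit 8) (nat_lit 4))
    (@En.n l612 (nat_lit 7241) (nat_lit 10) (nat_lit 11))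
    (@En.n l50 (nat_lit 7129) (nat_lit 10) (nat_lit 4))
    (@En.n l7670 (nat_lit 4468) (nat_lit 12) (nat_lit 8))
    (@En.i (nat_lit 2600) (nat_lit 13) (nat_lit 12))
    (@En.i (nat_lit 1518) (nat_lit 14) (nat_lit 8))
    (@En.n l25521 (nat_lit 11084) (nat_lit 3) (nat_lit 12))
    (@En.n l28 (nat_lit 7240) (nat_lit 15) (nat_lit 2))))
  (@Cl.mk (nat_lit 0x200060009000d0008000b0003000a000900070005000a00080006000e0007) (nat_lit 0x57340870023010) (nat_lit 16) Lb.e (@T16.mk En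
    (@En.n l18791 (nat_lit 2594) (nat_lit 6) (nat_lit 7))
    (@En.n l1578 (nat_lit 4646) (nat_lit 1) (nat_lit 14))
    (@En.n l17923 (nat_lit 9976) (nat_lit 2) (nat_lit 6))
    (@En.n l644 (nat_lit 7240) (nat_lit 3) (nat_lit 8))
    (@En.n l38651 (nat_lit 7242) (nat_lit 4) (nat_lit 10))
    (@En.n l3480 (nat_lit 7246) (nat_lit 5) (nat_lit 5))
    (@En.n l38652 (nat_lit 9184) (nat_lit 6) (nat_lit 7))
    (@En.n l28475 (nat_lit 7232) (nat_lit 7) (nat_lit 9))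
    (@En.n l37573 (nat_lit 8828) (nat_lit 9) (nat_lit 10))
    (@En.n l38653 (nat_lit 7243) (nat_lit 9) (nat_lit 3))
    (@En.n l20356 (nat_lit 4765) (nat_lit 11) (nat_lit 11))
    (@En.n l18290 (nat_lit 4467) (nat_lit 12) (nat_lit 8))
    (@En.i (nat_lit 2603) (nat_lit 13) (nat_lit 13))
    (@En.n l38654 (nat_lit 1517) (nat_lit 9) (nat_lit 9))
    (@En.n l20356 (nat_lit 10361) (nat_lit 13) (nat_lit 6))
    (@En.n l28 (nat_lit 7241) (nat_lit 15) (nat_lit 2))))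
  (@Cl.mk (nat_lit 0x20006000c0009000d000900040003000b000a0007000a00070005000e0006) (nat_lit 0x66840098010010) (nat_lit 16) Lb.e (@T16.mk En
    (@En.n l50 (nat_lit 2596) (nat_lit 7) (nat_lit 6))
    (@En.n l23745 (nat_lit 4647) (nat_lit 1) (nat_lit 14))
    (@En.i (nat_lit 9974) (nat_lit 2) (nat_lit 5))
    (@En.n l23746 (nat_lit 7247) (nat_lit 3) (nat_lit 7))
    (@En.i (nat_lit 3080) (nat_lit 4) (nat_lit 10))
    (@En.n l23747 (nat_lit 9183) (nat_lit 5) (nat_lit 7))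
    (@En.n l7584 (nat_lit 2945) (nat_lit 6) (nat_lit 10))
    (@En.n l23748 (nat_lit 9298) (nat_lit 8) (nat_lit 11))
    (@En.n l11 (nat_lit 7244) (nat_lit 8) (nat_lit 3))
    (@En.n l23749 (nat_lit 7936) (nat_lit 9) (nat_lit 4))
    (@En.i (nat_lit 4466) (nat_lit 11) (nat_lit 9))
    (@En.n l23746 (nat_lit 2303) (nat_lit 12) (nat_lit 13))
    (@En.n l23750 (nat_lit 7241) (nat_lit 13) (nat_lit 9))
    (@En.n l18089 (nat_lit 7240) (nat_lit 14) (nat_lit 12))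
    (@En.n l23747 (nat_lit 10363) (nat_lit 13) (nat_lit 6))
    (@En.n l18 (nat_lit 7242) (nat_lit 15) (nat_lit 2))))
  (@Cl.mk (nat_lit 0x200060009000d000a00090003000a000900070006000a00070006000e0007) (nat_lit 0x57810870020010) (nat_lit 16) Lb.e (@T16.mk En
    (@En.n l50 (nat_lit 2597) (nat_lit 6) (nat_lit 7))
    (@En.n l38751 (nat_lit 4656) (nat_lit 1) (nat_lit 14))
    (@En.i (nat_lit 9973) (nat_lit 2) (nat_lit 6))
    (@En.n l38603 (nat_lit 6041) (nat_lit 3) (nat_lit 7))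
    (@En.n l3 (nat_lit 7244) (nat_lit 4) (nat_lit 10))
    (@En.n l3 (nat_lit 7245) (nat_lit 5) (nat_lit 6))
    (@En.n l38752 (nat_lit 9186) (nat_lit 6) (nat_lit 7))
    (@En.n l38753 (nat_lit 2941) (nat_lit 7) (nat_lit 9))
    (@En.n l38754 (nat_lit 11185) (nat_lit 9) (nat_lit 10))
    (@En.n l23750 (nat_lit 7241) (nat_lit 9) (nat_lit 3))
    (@En.n l10795 (nat_lit 6501) (nat_lit 11) (nat_lit 9))
    (@En.n l38755 (nat_lit 7439) (nat_lit 12) (nat_lit 10))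
    (@En.n l38756 (nat_lit 2605) (nat_lit 13) (nat_lit 13))
    (@En.n l38757 (nat_lit 1521) (nat_lit 9) (nat_lit 9))
    (@En.n l23747 (nat_lit 10366) (nat_lit 13) (nat_lit 6))
    (@En.n l18 (nat_lit 7243) (nat_lit 15) (nat_lit 2))))
  (@Cl.mk (nat_lit 0x20006000d0009000d0003000a0003000b000a0007000a00060005000e0006) (nat_lit 0x76801098010030) (nat_lit 16) Lb.e (@T16.mk En
    (@En.n l50 (nat_lit 2598) (nat_lit 5) (nat_lit 6))
    (@En.n l2650 (nat_lit 7808) (nat_lit 1) (nat_lit 14))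
    (@En.i (nat_lit 9972) (nat_lit 2) (nat_lit 5))
    (@En.n l24384 (nat_lit 7126) (nat_lit 3) (nat_lit 6))
    (@En.i (nat_lit 3079) (nat_lit 4) (nat_lit 10))
    (@En.n l23747 (nat_lit 9185) (nat_lit 5) (nat_lit 7))
    (@En.n l7584 (nat_lit 2938) (nat_lit 6) (nat_lit 10))
    (@En.n l28 (nat_lit 11187) (nat_lit 8) (nat_lit 11))
    (@En.i (nat_lit 7242) (nat_lit 8) (nat_lit 3))
    (@En.n l10795 (nat_lit 6503) (nat_lit 10) (nat_lit 10))
    (@En.n l117 (nat_lit 7245) (nat_lit 10) (nat_lit 3))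
    (@En.n l2922 (nat_lit 2351) (nat_lit 12) (nat_lit 13))
    (@En.i (nat_lit 7243) (nat_lit 13) (nat_lit 9))
    (@En.n l16116 (nat_lit 6037) (nat_lit 14) (nat_lit 13))
    (@En.n l23747 (nat_lit 10367) (nat_lit 13) (nat_lit 6))
    (@En.n l18 (nat_lit 7244) (nat_lit 15) (nat_lit 2))))
  (@Cl.mk (nat_lit 0x20006000d000c000a0003000a0004000b000a0006000a00060005000e0006) (nat_lit 0x57404071010030) (nat_lit 16) Lb.e (@T16.mk En
    (@En.n l50 (nat_lit 5855) (nat_lit 5) (nat_lit 6))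
    (@En.n l31760 (nat_lit 7810) (nat_lit 1) (nat_lit 14))
    (@En.i (nat_lit 9975) (nat_lit 2) (nat_lit 5))
    (@En.n l31761 (nat_lit 7125) (nat_lit 3) (nat_lit 6))
    (@En.i (nat_lit 3077) (nat_lit 4) (nat_lit 10))
    (@En.n l77 (nat_lit 11292) (nat_lit 5) (nat_lit 6))
    (@En.n l7584 (nat_lit 2943) (nat_lit 6) (nat_lit 10))
    (@En.n l18987 (nat_lit 11188) (nat_lit 8) (nat_lit 11))
    (@En.n l11361 (nat_lit 7246) (nat_lit 8) (nat_lit 4))
    (@En.n l11361 (nat_lit 6549) (nat_lit 10) (nat_lit 10))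
    (@En.n l152 (nat_lit 7244) (nat_lit 10) (nat_lit 3))
    (@En.n l31762 (nat_lit 5852) (nat_lit 12) (nat_lit 10))
    (@En.n l619 (nat_lit 7242) (nat_lit 13) (nat_lit 12))
    (@En.n l24303 (nat_lit 6038) (nat_lit 14) (nat_lit 13))
    (@En.n l31763 (nat_lit 10369) (nat_lit 13) (nat_lit 6))
    (@En.n l18 (nat_lit 7245) (nat_lit 15) (nat_lit 2))))
  (@Cl.mk (nat_lit 0x20006000c000c0008000b00040004000b000a0005000a00080005000e0006) (nat_lit 0x67280091012080) (nat_lit 16) Lb.e (@T16.mk En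
    (@En.n l17536 (nat_lit 6883) (nat_lit 6) (nat_lit 6))
    (@En.n l601 (nat_lit 5987) (nat_lit 1) (nat_lit 14))
    (@En.n l20138 (nat_lit 7371) (nat_lit 2) (nat_lit 5))
    (@En.i (nat_lit 7477) (nat_lit 3) (nat_lit 8))
    (@En.n l20138 (nat_lit 2667) (nat_lit 4) (nat_lit 10))
    (@En.i (nat_lit 11336) (nat_lit 5) (nat_lit 5))
    (@En.n l77 (nat_lit 3531) (nat_lit 6) (nat_lit 10))
    (@En.n l899 (nat_lit 9451) (nat_lit 8) (nat_lit 11))
    (@En.n l152 (nat_lit 7472) (nat_lit 8) (nat_lit 4))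
    (@En.n l32120 (nat_lit 7242) (nat_lit 9) (nat_lit 4))
    (@En.n l7233 (nat_lit 5838) (nat_lit 11) (nat_lit 11))
    (@En.n l10089 (nat_lit 4469) (nat_lit 12) (nat_lit 8))
    (@En.n l3536 (nat_lit 7936) (nat_lit 13) (nat_lit 12))
    (@En.n l16584 (nat_lit 7133) (nat_lit 14) (nat_lit 12))
    (@En.n l32121 (nat_lit 11210) (nat_lit 13) (nat_lit 6))
    (@En.n l50 (nat_lit 7246) (nat_lit 15) (nat_lit 2))))
  (@Cl.mk (nat_lit 0x2000b000b0008000c0009000500050004000c000b000800070004000e0005) (nat_lit 0x466840008930050) (nat_lit 16) Lb.e (@T16.mk En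
    (@En.n l20899 (nat_lit 2318) (nat_lit 8) (nat_lit 5))
    (@En.n l1578 (nat_lit 7892) (nat_lit 1) (nat_lit 14))
    (@En.n l117 (nat_lit 7343) (nat_lit 2) (nat_lit 4))
    (@En.n l6272 (nat_lit 302) (nat_lit 3) (nat_lit 7))
    (@En.n l9916 (nat_lit 9180) (nat_lit 4) (nat_lit 8))
    (@En.n l575 (nat_lit 7332) (nat_lit 5) (nat_lit 11))
    (@En.n l9916 (nat_lit 9296) (nat_lit 7) (nat_lit 12))
    (@En.n l20900 (nat_lit 7126) (nat_lit 7) (nat_lit 4))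
    (@En.n l20901 (nat_lit 7344) (nat_lit 11) (nat_lit 5))
    (@En.i (nat_lit 7128) (nat_lit 9) (nat_lit 5))
    (@En.n l20902 (nat_lit 2914) (nat_lit 11) (nat_lit 9))
    (@En.i (nat_lit 2378) (nat_lit 12) (nat_lit 12))
    (@En.n l742 (nat_lit 7240) (nat_lit 13) (nat_lit 8))
    (@En.n l396 (nat_lit 6892) (nat_lit 5) (nat_lit 11))
    (@En.n l20903 (nat_lit 11076) (nat_lit 12) (nat_lit 11))
    (@En.n l28 (nat_lit 7247) (nat_lit 15) (nat_lit 2))))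
noncomputable def a453 : T16 Cl := @T16.mk Cl
  (@Cl.mk (nat_lit 0x20007000b000b0007000c000b00050005000400090005000d0009000e0003) (nat_lit 0x770250005081a0) (nat_lit 16) Lb.e (@T16.mk En
    (@En.n l19624 (nat_lit 7249) (nat_lit 15) (nat_lit 3))
    (@En.n l4514 (nat_lit 13868) (nat_lit 0) (nat_lit 14))
    (@En.i (nat_lit 5296) (nat_lit 2) (nat_lit 9))
    (@En.n l4509 (nat_lit 12131) (nat_lit 4) (nat_lit 13))
    (@En.i (nat_lit 4138) (nat_lit 4) (nat_lit 5))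
    (@En.n l4966 (nat_lit 7272) (nat_lit 5) (nat_lit 9))
    (@En.n l2309 (nat_lit 5563) (nat_lit 6) (nat_lit 4))
    (@En.n l11 (nat_lit 6972) (nat_lit 7) (nat_lit 5))
    (@En.n l1393 (nat_lit 7080) (nat_lit 8) (nat_lit 5))
    (@En.n l77 (nat_lit 6982) (nat_lit 10) (nat_lit 11))
    (@En.i (nat_lit 3903) (nat_lit 11) (nat_lit 12))
    (@En.n l8390 (nat_lit 10270) (nat_lit 12) (nat_lit 7))
    (@En.n l19625 (nat_lit 6959) (nat_lit 5) (nat_lit 11))
    (@En.n l4514 (nat_lit 7375) (nat_lit 14) (nat_lit 11))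
    (@En.n l19626 (nat_lit 8623) (nat_lit 14) (nat_lit 7))
    (@En.n l17 (nat_lit 7248) (nat_lit 15) (nat_lit 2))))
  (@Cl.mk (nat_lit 0x300030007000b000b0006000c000b00050005000400090005000d000d000a) (nat_lit 0x7702500050792) (nat_lit 16) Lb.e (@T16.mk En
    (@En.n l396 (nat_lit 7252) (nat_lit 0) (nat_lit 10))
    (@En.n l27588 (nat_lit 7248) (nat_lit 3) (nat_lit 13))
    (@En.n l27589 (nat_lit 12154) (nat_lit 2) (nat_lit 13))
    (@En.n l3107 (nat_lit 4133) (nat_lit 3) (nat_lit 5))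
    (@En.n l27590 (nat_lit 7269) (nat_lit 4) (nat_lit 9))
    (@En.n l27591 (nat_lit 5562) (nat_lit 5) (nat_lit 4))
    (@En.n l20790 (nat_lit 6974) (nat_lit 11) (nat_lit 5))
    (@En.n l27589 (nat_lit 5538) (nat_lit 7) (nat_lit 5))
    (@En.n l16240 (nat_lit 6981) (nat_lit 9) (nat_lit 11))
    (@En.n l27592 (nat_lit 3902) (nat_lit 10) (nat_lit 12))
    (@En.n l396 (nat_lit 10158) (nat_lit 11) (nat_lit 6))
    (@En.n l27593 (nat_lit 6962) (nat_lit 5) (nat_lit 11))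
    (@En.n l23367 (nat_lit 7226) (nat_lit 13) (nat_lit 11))
    (@En.n l11547 (nat_lit 8622) (nat_lit 14) (nat_lit 7))
    (@En.n l644 (nat_lit 7250) (nat_lit 13) (nat_lit 3))
    (@En.n l27594 (nat_lit 7248) (nat_lit 0) (nat_lit 3))))
  (@Cl.mk (nat_lit 0x2000b00030007000b000b0005000c000b00050005000400090005000e000d) (nat_lit 0x300750950006058) (nat_lit 16) Lb.e (@T16.mk En
    (@En.i (nat_lit 7249) (nat_lit 2) (nat_lit 13))
    (@En.i (nat_lit 7512) (nat_lit 1) (nat_lit 14))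
    (@En.n l3107 (nat_lit 4137) (nat_lit 2) (nat_lit 5))
    (@En.n l14270 (nat_lit 7268) (nat_lit 3) (nat_lit 9))
    (@En.n l3535 (nat_lit 5564) (nat_lit 4) (nat_lit 4))
    (@En.n l152 (nat_lit 6979) (nat_lit 11) (nat_lit 5))
    (@En.n l936 (nat_lit 7075) (nat_lit 6) (nat_lit 5))
    (@En.n l870 (nat_lit 6983) (nat_lit 8) (nat_lit 11))
    (@En.n l725 (nat_lit 3898) (nat_lit 9) (nat_lit 12))
    (@En.i (nat_lit 10328) (nat_lit 9) (nat_lit 5))
    (@En.n l3536 (nat_lit 7251) (nat_lit 5) (nat_lit 11))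
    (@En.n l14271 (nat_lit 7374) (nat_lit 12) (nat_lit 11))
    (@En.i (nat_lit 7444) (nat_lit 13) (nat_lit 7))
    (@En.n l6042 (nat_lit 7249) (nat_lit 14) (nat_lit 3))
    (@En.i (nat_lit 7254) (nat_lit 0) (nat_lit 11))
    (@En.n l50 (nat_lit 7250) (nat_lit 15) (nat_lit 2))))
  (@Cl.mk (nat_lit 0x2000500090006000e000d0002000c00030007000b0004000b000a000e0005) (nat_lit 0x70a90300408420) (nat_lit 16) Lb.e (@T16.mk En
    (@En.n l3098 (nat_lit 7250) (nat_lit 6) (nat_lit 5))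
    (@En.n l3 (nat_lit 6966) (nat_lit 8) (nat_lit 14))
    (@En.n l3 (nat_lit 6967) (nat_lit 9) (nat_lit 10))
    (@En.i (nat_lit 3896) (nat_lit 3) (nat_lit 11))
    (@En.i (nat_lit 11567) (nat_lit 4) (nat_lit 4))
    (@En.n l2571 (nat_lit 4387) (nat_lit 12) (nat_lit 11))
    (@En.i (nat_lit 7446) (nat_lit 6) (nat_lit 7))
    (@En.i (nat_lit 6962) (nat_lit 7) (nat_lit 3))
    (@En.i (nat_lit 7255) (nat_lit 9) (nat_lit 12))
    (@En.n l28 (nat_lit 7251) (nat_lit 9) (nat_lit 2))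
    (@En.n l134 (nat_lit 6962) (nat_lit 11) (nat_lit 13))
    (@En.i (nat_lit 7504) (nat_lit 12) (nat_lit 14))
    (@En.n l10028 (nat_lit 5837) (nat_lit 13) (nat_lit 6))
    (@En.n l3105 (nat_lit 4809) (nat_lit 14) (nat_lit 9))
    (@En.n l3106 (nat_lit 5991) (nat_lit 13) (nat_lit 5))
    (@En.n l17 (nat_lit 7251) (nat_lit 15) (nat_lit 2))))
  (@Cl.mk (nat_lit 0x2000b0006000a000a00060005000c000b000600060004000a0005000e000a) (nat_lit 0x3056004600050b1) (nat_lit 16) Lb.e (@T16.mk En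
    (@En.n l19354 (nat_lit 5608) (nat_lit 12) (nat_lit 10))
    (@En.i (nat_lit 10043) (nat_lit 1) (nat_lit 14))
    (@En.n l3107 (nat_lit 5700) (nat_lit 2) (nat_lit 5))
    (@En.n l14270 (nat_lit 5155) (nat_lit 3) (nat_lit 10))
    (@En.n l3535 (nat_lit 6585) (nat_lit 4) (nat_lit 4))
    (@En.n l152 (nat_lit 7996) (nat_lit 10) (nat_lit 6))
    (@En.n l936 (nat_lit 6583) (nat_lit 6) (nat_lit 6))
    (@En.n l870 (nat_lit 7993) (nat_lit 8) (nat_lit 11))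
    (@En.n l2348 (nat_lit 11556) (nat_lit 9) (nat_lit 12))
    (@En.i (nat_lit 7250) (nat_lit 9) (nat_lit 5))
    (@En.n l16306 (nat_lit 10154) (nat_lit 11) (nat_lit 6))
    (@En.n l3536 (nat_lit 7253) (nat_lit 6) (nat_lit 10))
    (@En.n l14271 (nat_lit 7524) (nat_lit 13) (nat_lit 10))
    (@En.n l7247 (nat_lit 11500) (nat_lit 14) (nat_lit 6))
    (@En.n l19355 (nat_lit 7256) (nat_lit 10) (nat_lit 11))
    (@En.n l50 (nat_lit 7252) (nat_lit 15) (nat_lit 2))))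
  (@Cl.mk (nat_lit 0x20005000a0006000e000b0002000c0006000a00050004000b000a000e0006) (nat_lit 0x60510305003580) (nat_lit 16) Lb.e (@T16.mk En
    (@En.n l3098 (nat_lit 7252) (nat_lit 6) (nat_lit 6))
    (@En.n l3 (nat_lit 7990) (nat_lit 8) (nat_lit 14))
    (@En.n l3 (nat_lit 7991) (nat_lit 9) (nat_lit 10))
    (@En.n l9364 (nat_lit 12762) (nat_lit 3) (nat_lit 11))
    (@En.i (nat_lit 7251) (nat_lit 4) (nat_lit 4))
    (@En.i (nat_lit 11933) (nat_lit 5) (nat_lit 5))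
    (@En.n l6727 (nat_lit 4389) (nat_lit 13) (nat_lit 10))
    (@En.n l4589 (nat_lit 11570) (nat_lit 7) (nat_lit 6))
    (@En.n l7 (nat_lit 7257) (nat_lit 9) (nat_lit 12))
    (@En.n l28 (nat_lit 7253) (nat_lit 9) (nat_lit 2))
    (@En.i (nat_lit 5605) (nat_lit 11) (nat_lit 11))
    (@En.n l6646 (nat_lit 10039) (nat_lit 12) (nat_lit 14))
    (@En.n l9365 (nat_lit 5306) (nat_lit 13) (nat_lit 6))
    (@En.n l3105 (nat_lit 5154) (nat_lit 14) (nat_lit 10))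
    (@En.n l3106 (nat_lit 7479) (nat_lit 13) (nat_lit 5))
    (@En.n l17 (nat_lit 7253) (nat_lit 15) (nat_lit 2))))
  (@Cl.mk (nat_lit 0x20006000a000a00050008000c000b000600060004000a00050008000e000b) (nat_lit 0x620025000601c2) (nat_lit 16) Lb.e (@T16.mk En
    (@En.n l19379 (nat_lit 7256) (nat_lit 11) (nat_lit 11))
    (@En.n l396 (nat_lit 7252) (nat_lit 1) (nat_lit 14))
    (@En.n l709 (nat_lit 754) (nat_lit 2) (nat_lit 8))
    (@En.n l3107 (nat_lit 5758) (nat_lit 3) (nat_lit 5))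
    (@En.n l14270 (nat_lit 7572) (nat_lit 4) (nat_lit 10))
    (@En.n l3535 (nat_lit 7557) (nat_lit 5) (nat_lit 4))
    (@En.n l152 (nat_lit 5363) (nat_lit 10) (nat_lit 6))
    (@En.n l936 (nat_lit 6635) (nat_lit 7) (nat_lit 6))
    (@En.n l14271 (nat_lit 7563) (nat_lit 9) (nat_lit 11))
    (@En.n l19118 (nat_lit 12608) (nat_lit 10) (nat_lit 12))
    (@En.n l387 (nat_lit 13831) (nat_lit 10) (nat_lit 8))
    (@En.i (nat_lit 10600) (nat_lit 12) (nat_lit 5))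
    (@En.n l3536 (nat_lit 7255) (nat_lit 6) (nat_lit 10))
    (@En.n l9409 (nat_lit 5464) (nat_lit 14) (nat_lit 10))
    (@En.i (nat_lit 12184) (nat_lit 13) (nat_lit 6))
    (@En.n l18 (nat_lit 7254) (nat_lit 15) (nat_lit 2))))
  (@Cl.mk (nat_lit 0x20005000a00060009000e000c00020006000a00040007000b000a000e0006) (nat_lit 0x80562001003430) (nat_lit 16) Lb.e (@T16.mk En
    (@En.n l3098 (nat_lit 7254) (nat_lit 7) (nat_lit 6))
    (@En.n l3 (nat_lit 7258) (nat_lit 9) (nat_lit 14))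
    (@En.n l2571 (nat_lit 7259) (nat_lit 10) (nat_lit 10))
    (@En.n l5032 (nat_lit 12740) (nat_lit 3) (nat_lit 11))
    (@En.i (nat_lit 13834) (nat_lit 11) (nat_lit 7))
    (@En.n l17733 (nat_lit 12480) (nat_lit 5) (nat_lit 4))
    (@En.n l5032 (nat_lit 650) (nat_lit 14) (nat_lit 10))
    (@En.i (nat_lit 7452) (nat_lit 7) (nat_lit 6))
    (@En.n l7 (nat_lit 7255) (nat_lit 8) (nat_lit 2))
    (@En.i (nat_lit 7257) (nat_lit 10) (nat_lit 12))
    (@En.n l134 (nat_lit 7253) (nat_lit 11) (nat_lit 14))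
    (@En.n l8915 (nat_lit 758) (nat_lit 2) (nat_lit 9))
    (@En.n l3550 (nat_lit 5765) (nat_lit 13) (nat_lit 6))
    (@En.n l3105 (nat_lit 5077) (nat_lit 4) (nat_lit 10))
    (@En.n l3106 (nat_lit 5981) (nat_lit 5) (nat_lit 5))
    (@En.n l17 (nat_lit 7255) (nat_lit 15) (nat_lit 2))))
  (@Cl.mk (nat_lit 0x4000b00050008000b000b000500090009000500050008000c000b00070007) (nat_lit 0x701120520013600) (nat_lit 16) Lb.e (@T16.mk En
    (@En.n l29979 (nat_lit 5366) (nat_lit 9) (nat_lit 7))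
    (@En.n l649 (nat_lit 6632) (nat_lit 1) (nat_lit 7))
    (@En.n l29980 (nat_lit 7561) (nat_lit 5) (nat_lit 11))
    (@En.n l26751 (nat_lit 12111) (nat_lit 7) (nat_lit 12))
    (@En.n l29981 (nat_lit 7254) (nat_lit 10) (nat_lit 8))
    (@En.n l29982 (nat_lit 7254) (nat_lit 11) (nat_lit 5))
    (@En.n l29983 (nat_lit 10597) (nat_lit 0) (nat_lit 5))
    (@En.n l7103 (nat_lit 7257) (nat_lit 7) (nat_lit 9))
    (@En.n l29984 (nat_lit 5465) (nat_lit 10) (nat_lit 9))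
    (@En.n l29985 (nat_lit 12192) (nat_lit 2) (nat_lit 5))
    (@En.n l217 (nat_lit 7564) (nat_lit 5) (nat_lit 11))
    (@En.i (nat_lit 5602) (nat_lit 7) (nat_lit 11))
    (@En.n l29986 (nat_lit 755) (nat_lit 10) (nat_lit 8))
    (@En.n l12924 (nat_lit 48) (nat_lit 6) (nat_lit 5))
    (@En.n l29987 (nat_lit 7571) (nat_lit 0) (nat_lit 11))
    (@En.n l29988 (nat_lit 6556) (nat_lit 1) (nat_lit 4))))
  (@Cl.mk (nat_lit 0x20005000b00060009000c000c00050009000400040007000b000a000e0007) (nat_lit 0x90512010004540) (nat_lit 16) Lb.e (@T16.mk En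
    (@En.n l15340 (nat_lit 7256) (nat_lit 1) (nat_lit 7))
    (@En.n l3 (nat_lit 7261) (nat_lit 1) (nat_lit 14))
    (@En.n l8476 (nat_lit 7260) (nat_lit 2) (nat_lit 10))
    (@En.n l15341 (nat_lit 12117) (nat_lit 3) (nat_lit 11))
    (@En.n l28 (nat_lit 7255) (nat_lit 4) (nat_lit 7))
    (@En.n l77 (nat_lit 7255) (nat_lit 5) (nat_lit 4))
    (@En.n l8913 (nat_lit 12077) (nat_lit 6) (nat_lit 4))
    (@En.n l15342 (nat_lit 646) (nat_lit 0) (nat_lit 9))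
    (@En.i (nat_lit 12166) (nat_lit 8) (nat_lit 5))
    (@En.n l14612 (nat_lit 7567) (nat_lit 10) (nat_lit 12))
    (@En.n l3039 (nat_lit 5599) (nat_lit 11) (nat_lit 12))
    (@En.n l15343 (nat_lit 2061) (nat_lit 12) (nat_lit 9))
    (@En.n l15341 (nat_lit 5371) (nat_lit 13) (nat_lit 6))
    (@En.n l3105 (nat_lit 5075) (nat_lit 14) (nat_lit 11))
    (@En.n l3106 (nat_lit 5979) (nat_lit 13) (nat_lit 5))
    (@En.n l17 (nat_lit 7257) (nat_lit 15) (nat_lit 2))))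
  (@Cl.mk (nat_lit 0x20006000b00040007000b000e00050002000d0005000a00030009000e000c) (nat_lit 0x10032004080672) (nat_lit 16) Lb.e (@T16.mk En
    (@En.i (nat_lit 7261) (nat_lit 9) (nat_lit 12))
    (@En.n l134 (nat_lit 7990) (nat_lit 1) (nat_lit 14))
    (@En.n l253 (nat_lit 2066) (nat_lit 11) (nat_lit 9))
    (@En.n l11610 (nat_lit 7259) (nat_lit 3) (nat_lit 3))
    (@En.n l781 (nat_lit 5074) (nat_lit 4) (nat_lit 10))
    (@En.i (nat_lit 7255) (nat_lit 14) (nat_lit 5))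
    (@En.n l2125 (nat_lit 7869) (nat_lit 7) (nat_lit 13))
    (@En.n l17 (nat_lit 7258) (nat_lit 7) (nat_lit 2))
    (@En.n l3098 (nat_lit 7560) (nat_lit 8) (nat_lit 5))
    (@En.i (nat_lit 5896) (nat_lit 10) (nat_lit 14))
    (@En.n l253 (nat_lit 12741) (nat_lit 11) (nat_lit 11))
    (@En.i (nat_lit 13833) (nat_lit 11) (nat_lit 7))
    (@En.i (nat_lit 12481) (nat_lit 4) (nat_lit 4))
    (@En.n l2571 (nat_lit 652) (nat_lit 14) (nat_lit 11))
    (@En.i (nat_lit 11959) (nat_lit 6) (nat_lit 6))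
    (@En.n l7 (nat_lit 7258) (nat_lit 15) (nat_lit 2))))
  (@Cl.mk (nat_lit 0x20007000b00040007000a000e00050002000d0009000600030009000e000c) (nat_lit 0x10038003700672) (nat_lit 16) Lb.e (@T16.mk En
    (@En.n l180 (nat_lit 7260) (nat_lit 9) (nat_lit 12))
    (@En.n l9960 (nat_lit 7991) (nat_lit 1) (nat_lit 14))
    (@En.n l9502 (nat_lit 7255) (nat_lit 11) (nat_lit 9))
    (@En.n l2199 (nat_lit 7258) (nat_lit 3) (nat_lit 3))
    (@En.n l1722 (nat_lit 5760) (nat_lit 0) (nat_lit 6))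
    (@En.n l12896 (nat_lit 7577) (nat_lit 5) (nat_lit 9))
    (@En.i (nat_lit 7866) (nat_lit 7) (nat_lit 13))
    (@En.n l7 (nat_lit 7259) (nat_lit 7) (nat_lit 2))
    (@En.i (nat_lit 7563) (nat_lit 8) (nat_lit 5))
    (@En.n l3337 (nat_lit 5894) (nat_lit 10) (nat_lit 14))
    (@En.n l781 (nat_lit 12809) (nat_lit 11) (nat_lit 10))
    (@En.i (nat_lit 13832) (nat_lit 11) (nat_lit 7))
    (@En.i (nat_lit 12479) (nat_lit 4) (nat_lit 4))
    (@En.i (nat_lit 644) (nat_lit 14) (nat_lit 11))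
    (@En.n l3337 (nat_lit 12172) (nat_lit 6) (nat_lit 7))
    (@En.n l107 (nat_lit 7259) (nat_lit 15) (nat_lit 2))))
  (@Cl.mk (nat_lit 0x2000d000a000600030009000c000c0006000a000400040007000a000e0006) (nat_lit 0x370061201000480) (nat_lit 16) Lb.e (@T16.mk En
    (@En.n l5732 (nat_lit 7561) (nat_lit 4) (nat_lit 6))
    (@En.n l26239 (nat_lit 5892) (nat_lit 1) (nat_lit 14))
    (@En.n l3447 (nat_lit 8955) (nat_lit 2) (nat_lit 10))
    (@En.n l159 (nat_lit 7259) (nat_lit 11) (nat_lit 7))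
    (@En.n l11 (nat_lit 7259) (nat_lit 12) (nat_lit 4))
    (@En.n l27121 (nat_lit 12074) (nat_lit 5) (nat_lit 4))
    (@En.i (nat_lit 642) (nat_lit 0) (nat_lit 10))
    (@En.n l26239 (nat_lit 12171) (nat_lit 7) (nat_lit 6))
    (@En.n l27462 (nat_lit 7566) (nat_lit 4) (nat_lit 12))
    (@En.n l27121 (nat_lit 5597) (nat_lit 6) (nat_lit 12))
    (@En.n l27463 (nat_lit 7257) (nat_lit 11) (nat_lit 9))
    (@En.n l27464 (nat_lit 7261) (nat_lit 11) (nat_lit 3))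
    (@En.n l3478 (nat_lit 5762) (nat_lit 0) (nat_lit 6))
    (@En.n l27465 (nat_lit 7576) (nat_lit 14) (nat_lit 10))
    (@En.n l615 (nat_lit 7848) (nat_lit 2) (nat_lit 13))
    (@En.n l7 (nat_lit 7260) (nat_lit 15) (nat_lit 2))))
  (@Cl.mk (nat_lit 0x2000d0005000b00030009000c000c0005000a000400040007000b000e0006) (nat_lit 0x309061201000430) (nat_lit 16) Lb.e (@T16.mk En
    (@En.n l3098 (nat_lit 7558) (nat_lit 4) (nat_lit 6))
    (@En.i (nat_lit 5897) (nat_lit 4) (nat_lit 14))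
    (@En.n l248 (nat_lit 12768) (nat_lit 2) (nat_lit 11))
    (@En.n l28 (nat_lit 7258) (nat_lit 11) (nat_lit 7))
    (@En.n l77 (nat_lit 7258) (nat_lit 12) (nat_lit 4))
    (@En.n l3039 (nat_lit 12076) (nat_lit 5) (nat_lit 4))
    (@En.n l8476 (nat_lit 647) (nat_lit 0) (nat_lit 10))
    (@En.i (nat_lit 11963) (nat_lit 7) (nat_lit 5))
    (@En.n l14612 (nat_lit 7565) (nat_lit 4) (nat_lit 12))
    (@En.n l3039 (nat_lit 5598) (nat_lit 6) (nat_lit 12))
    (@En.n l253 (nat_lit 2060) (nat_lit 11) (nat_lit 9))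
    (@En.n l28823 (nat_lit 7260) (nat_lit 11) (nat_lit 3))
    (@En.n l781 (nat_lit 5072) (nat_lit 0) (nat_lit 11))
    (@En.i (nat_lit 7257) (nat_lit 14) (nat_lit 5))
    (@En.n l2125 (nat_lit 7858) (nat_lit 2) (nat_lit 13))
    (@En.n l17 (nat_lit 7261) (nat_lit 15) (nat_lit 2))))
  (@Cl.mk (nat_lit 0x2000b00030007000b000a0005000d000b00050003000600090005000e000d) (nat_lit 0x100750a3000604b) (nat_lit 16) Lb.e (@T16.mk En
    (@En.n l601 (nat_lit 7229) (nat_lit 2) (nat_lit 13))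
    (@En.n l1897 (nat_lit 7866) (nat_lit 1) (nat_lit 14))
    (@En.i (nat_lit 7347) (nat_lit 2) (nat_lit 5))
    (@En.n l3530 (nat_lit 6979) (nat_lit 9) (nat_lit 9))
    (@En.i (nat_lit 1235) (nat_lit 4) (nat_lit 6))
    (@En.n l4659 (nat_lit 7264) (nat_lit 5) (nat_lit 3))
    (@En.n l4660 (nat_lit 7696) (nat_lit 0) (nat_lit 5))
    (@En.n l1767 (nat_lit 7280) (nat_lit 8) (nat_lit 11))
    (@En.n l10358 (nat_lit 2949) (nat_lit 9) (nat_lit 13))
    (@En.n l3530 (nat_lit 9143) (nat_lit 9) (nat_lit 5))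
    (@En.n l637 (nat_lit 7228) (nat_lit 11) (nat_lit 10))
    (@En.n l638 (nat_lit 7233) (nat_lit 12) (nat_lit 11))
    (@En.i (nat_lit 5554) (nat_lit 13) (nat_lit 7))
    (@En.i (nat_lit 7229) (nat_lit 14) (nat_lit 3))
    (@En.i (nat_lit 5475) (nat_lit 0) (nat_lit 11))
    (@En.n l7 (nat_lit 7262) (nat_lit 15) (nat_lit 2))))
  (@Cl.mk (nat_lit 0x300030007000c000a0006000d0004000c0003000600090004000d000d000a) (nat_lit 0x370a010050ab2) (nat_lit 16) Lb.e (@T16.mk En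
    (@En.i (nat_lit 7148) (nat_lit 0) (nat_lit 10))
    (@En.n l396 (nat_lit 7275) (nat_lit 3) (nat_lit 13))
    (@En.i (nat_lit 12474) (nat_lit 12) (nat_lit 13))
    (@En.i (nat_lit 7282) (nat_lit 3) (nat_lit 4))
    (@En.i (nat_lit 6973) (nat_lit 9) (nat_lit 9))
    (@En.n l1081 (nat_lit 1823) (nat_lit 12) (nat_lit 6))
    (@En.n l1080 (nat_lit 7229) (nat_lit 6) (nat_lit 3))
    (@En.n l7645 (nat_lit 4007) (nat_lit 0) (nat_lit 12))
    (@En.n l117 (nat_lit 7269) (nat_lit 8) (nat_lit 4))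
    (@En.n l725 (nat_lit 2938) (nat_lit 10) (nat_lit 13))
    (@En.n l6081 (nat_lit 9142) (nat_lit 3) (nat_lit 6))
    (@En.n l2642 (nat_lit 7230) (nat_lit 12) (nat_lit 10))
    (@En.n l1003 (nat_lit 7379) (nat_lit 13) (nat_lit 12))
    (@En.n l1353 (nat_lit 7625) (nat_lit 6) (nat_lit 7))
    (@En.n l18 (nat_lit 7264) (nat_lit 13) (nat_lit 3))
    (@En.i (nat_lit 7275) (nat_lit 0) (nat_lit 3))))
noncomputable def a454 : T16 Cl := @T16.mk Cl
  (@Cl.mk (nat_lit 0x2000b00030007000c000a0005000d0004000c0003000600090004000e000d) (nat_lit 0x200a60a0100408b) (nat_lit 16) Lb.e (@T16.mk En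
    (@En.n l396 (nat_lit 7263) (nat_lit 2) (nat_lit 13))
    (@En.i (nat_lit 7869) (nat_lit 1) (nat_lit 14))
    (@En.i (nat_lit 7287) (nat_lit 2) (nat_lit 4))
    (@En.i (nat_lit 6977) (nat_lit 9) (nat_lit 9))
    (@En.n l1081 (nat_lit 2773) (nat_lit 12) (nat_lit 6))
    (@En.n l1080 (nat_lit 7262) (nat_lit 5) (nat_lit 3))
    (@En.n l7645 (nat_lit 4006) (nat_lit 0) (nat_lit 12))
    (@En.n l117 (nat_lit 7268) (nat_lit 7) (nat_lit 4))
    (@En.n l725 (nat_lit 2944) (nat_lit 9) (nat_lit 13))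
    (@En.i (nat_lit 9144) (nat_lit 9) (nat_lit 5))
    (@En.n l2642 (nat_lit 7265) (nat_lit 11) (nat_lit 10))
    (@En.n l1003 (nat_lit 7380) (nat_lit 12) (nat_lit 12))
    (@En.i (nat_lit 5525) (nat_lit 13) (nat_lit 7))
    (@En.i (nat_lit 7263) (nat_lit 14) (nat_lit 3))
    (@En.i (nat_lit 5479) (nat_lit 0) (nat_lit 11))
    (@En.n l50 (nat_lit 7264) (nat_lit 15) (nat_lit 2))))
  (@Cl.mk (nat_lit 0x2000c00030007000a0004000d000c000b00030006000400090005000e000d) (nat_lit 0x2005083100050a5) (nat_lit 16) Lb.e (@T16.mk En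
    (@En.n l601 (nat_lit 7230) (nat_lit 2) (nat_lit 13))
    (@En.i (nat_lit 7863) (nat_lit 1) (nat_lit 14))
    (@En.i (nat_lit 4607) (nat_lit 2) (nat_lit 5))
    (@En.n l899 (nat_lit 7264) (nat_lit 3) (nat_lit 9))
    (@En.i (nat_lit 7266) (nat_lit 4) (nat_lit 4))
    (@En.i (nat_lit 2775) (nat_lit 5) (nat_lit 6))
    (@En.n l1106 (nat_lit 7228) (nat_lit 6) (nat_lit 3))
    (@En.n l619 (nat_lit 4003) (nat_lit 0) (nat_lit 11))
    (@En.n l3866 (nat_lit 7223) (nat_lit 9) (nat_lit 12))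
    (@En.i (nat_lit 2948) (nat_lit 10) (nat_lit 13))
    (@En.i (nat_lit 8848) (nat_lit 10) (nat_lit 4))
    (@En.i (nat_lit 2307) (nat_lit 8) (nat_lit 10))
    (@En.i (nat_lit 5530) (nat_lit 13) (nat_lit 7))
    (@En.i (nat_lit 7230) (nat_lit 14) (nat_lit 3))
    (@En.i (nat_lit 5482) (nat_lit 0) (nat_lit 12))
    (@En.n l7 (nat_lit 7265) (nat_lit 15) (nat_lit 2))))
  (@Cl.mk (nat_lit 0x2000c00030007000c0004000c000c0004000c0004000400090004000e000d) (nat_lit 0x200601505007089) (nat_lit 16) Lb.e (@T16.mk En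
    (@En.i (nat_lit 7267) (nat_lit 2) (nat_lit 13))
    (@En.i (nat_lit 7873) (nat_lit 1) (nat_lit 14))
    (@En.i (nat_lit 7365) (nat_lit 2) (nat_lit 4))
    (@En.n l899 (nat_lit 5567) (nat_lit 3) (nat_lit 9))
    (@En.n l152 (nat_lit 4002) (nat_lit 12) (nat_lit 4))
    (@En.n l3851 (nat_lit 7223) (nat_lit 5) (nat_lit 4))
    (@En.n l1722 (nat_lit 3965) (nat_lit 7) (nat_lit 12))
    (@En.n l2125 (nat_lit 7264) (nat_lit 7) (nat_lit 4))
    (@En.n l3536 (nat_lit 7500) (nat_lit 4) (nat_lit 12))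
    (@En.n l5646 (nat_lit 2947) (nat_lit 10) (nat_lit 12))
    (@En.i (nat_lit 8847) (nat_lit 10) (nat_lit 4))
    (@En.n l766 (nat_lit 3560) (nat_lit 12) (nat_lit 12))
    (@En.i (nat_lit 7033) (nat_lit 13) (nat_lit 7))
    (@En.n l4172 (nat_lit 7267) (nat_lit 14) (nat_lit 3))
    (@En.i (nat_lit 5497) (nat_lit 0) (nat_lit 12))
    (@En.n l7 (nat_lit 7266) (nat_lit 15) (nat_lit 2))))
  (@Cl.mk (nat_lit 0x300030007000c0005000c000c0004000c0004000400090004000d000d000b) (nat_lit 0x4017050070874) (nat_lit 16) Lb.e (@T16.mk En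
    (@En.n l601 (nat_lit 6364) (nat_lit 0) (nat_lit 11))
    (@En.n l19310 (nat_lit 7274) (nat_lit 3) (nat_lit 13))
    (@En.i (nat_lit 12461) (nat_lit 2) (nat_lit 13))
    (@En.i (nat_lit 7366) (nat_lit 3) (nat_lit 4))
    (@En.n l899 (nat_lit 5565) (nat_lit 4) (nat_lit 9))
    (@En.n l24527 (nat_lit 4004) (nat_lit 12) (nat_lit 4))
    (@En.n l35308 (nat_lit 7222) (nat_lit 6) (nat_lit 4))
    (@En.n l24530 (nat_lit 3687) (nat_lit 0) (nat_lit 12))
    (@En.n l24531 (nat_lit 7263) (nat_lit 8) (nat_lit 4))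
    (@En.n l24532 (nat_lit 4808) (nat_lit 4) (nat_lit 12))
    (@En.n l35309 (nat_lit 2943) (nat_lit 11) (nat_lit 12))
    (@En.n l8050 (nat_lit 8813) (nat_lit 4) (nat_lit 5))
    (@En.n l35310 (nat_lit 3561) (nat_lit 13) (nat_lit 12))
    (@En.n l345 (nat_lit 8088) (nat_lit 14) (nat_lit 7))
    (@En.n l77 (nat_lit 7266) (nat_lit 13) (nat_lit 3))
    (@En.n l29989 (nat_lit 7274) (nat_lit 0) (nat_lit 3))))
  (@Cl.mk (nat_lit 0x2000a00030007000c000b000b00060004000c0005000500090004000e000d) (nat_lit 0x500688005005068) (nat_lit 16) Lb.e (@T16.mk En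
    (@En.n l396 (nat_lit 7269) (nat_lit 2) (nat_lit 13))
    (@En.i (nat_lit 7874) (nat_lit 1) (nat_lit 14))
    (@En.n l25076 (nat_lit 7362) (nat_lit 2) (nat_lit 4))
    (@En.i (nat_lit 5411) (nat_lit 3) (nat_lit 9))
    (@En.n l11401 (nat_lit 7270) (nat_lit 11) (nat_lit 5))
    (@En.n l18752 (nat_lit 7118) (nat_lit 5) (nat_lit 5))
    (@En.n l16495 (nat_lit 7022) (nat_lit 7) (nat_lit 12))
    (@En.n l1003 (nat_lit 7266) (nat_lit 7) (nat_lit 4))
    (@En.i (nat_lit 9145) (nat_lit 8) (nat_lit 6))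
    (@En.n l8906 (nat_lit 4809) (nat_lit 5) (nat_lit 11))
    (@En.n l11403 (nat_lit 7262) (nat_lit 11) (nat_lit 11))
    (@En.n l6917 (nat_lit 3657) (nat_lit 12) (nat_lit 12))
    (@En.i (nat_lit 7037) (nat_lit 13) (nat_lit 7))
    (@En.i (nat_lit 7269) (nat_lit 14) (nat_lit 3))
    (@En.i (nat_lit 7572) (nat_lit 0) (nat_lit 10))
    (@En.n l50 (nat_lit 7268) (nat_lit 15) (nat_lit 2))))
  (@Cl.mk (nat_lit 0x300030007000c000b000b00070004000c0005000500090004000d000d0009) (nat_lit 0x3880080040781) (nat_lit 16) Lb.e (@T16.mk En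
    (@En.i (nat_lit 5155) (nat_lit 0) (nat_lit 9))
    (@En.n l28520 (nat_lit 7272) (nat_lit 3) (nat_lit 13))
    (@En.i (nat_lit 12471) (nat_lit 2) (nat_lit 13))
    (@En.n l25076 (nat_lit 7361) (nat_lit 3) (nat_lit 4))
    (@En.i (nat_lit 5409) (nat_lit 4) (nat_lit 9))
    (@En.n l11401 (nat_lit 7271) (nat_lit 11) (nat_lit 5))
    (@En.n l18752 (nat_lit 7119) (nat_lit 6) (nat_lit 5))
    (@En.n l11434 (nat_lit 7020) (nat_lit 8) (nat_lit 12))
    (@En.n l31805 (nat_lit 7267) (nat_lit 8) (nat_lit 4))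
    (@En.i (nat_lit 9146) (nat_lit 0) (nat_lit 7))
    (@En.n l8906 (nat_lit 4807) (nat_lit 5) (nat_lit 11))
    (@En.n l11403 (nat_lit 7229) (nat_lit 12) (nat_lit 11))
    (@En.i (nat_lit 3653) (nat_lit 13) (nat_lit 12))
    (@En.i (nat_lit 7637) (nat_lit 14) (nat_lit 7))
    (@En.n l18 (nat_lit 7268) (nat_lit 13) (nat_lit 3))
    (@En.n l28523 (nat_lit 7272) (nat_lit 0) (nat_lit 3))))
  (@Cl.mk (nat_lit 0x200070005000d000500090003000e000d0002000900030007000b000e000b) (nat_lit 0x4040a60100689) (nat_lit 16) Lb.e (@T16.mk En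
    (@En.n l5646 (nat_lit 7268) (nat_lit 10) (nat_lit 11))
    (@En.i (nat_lit 1231) (nat_lit 11) (nat_lit 14))
    (@En.i (nat_lit 3549) (nat_lit 2) (nat_lit 11))
    (@En.i (nat_lit 7057) (nat_lit 3) (nat_lit 7))
    (@En.i (nat_lit 7271) (nat_lit 4) (nat_lit 3))
    (@En.i (nat_lit 5032) (nat_lit 0) (nat_lit 9))
    (@En.n l7 (nat_lit 7270) (nat_lit 6) (nat_lit 2))
    (@En.n l601 (nat_lit 7271) (nat_lit 8) (nat_lit 13))
    (@En.i (nat_lit 5981) (nat_lit 1) (nat_lit 14))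
    (@En.i (nat_lit 4013) (nat_lit 9) (nat_lit 3))
    (@En.i (nat_lit 4726) (nat_lit 3) (nat_lit 9))
    (@En.n l117 (nat_lit 2948) (nat_lit 4) (nat_lit 5))
    (@En.n l1722 (nat_lit 7023) (nat_lit 13) (nat_lit 13))
    (@En.n l17 (nat_lit 4002) (nat_lit 14) (nat_lit 5))
    (@En.i (nat_lit 9577) (nat_lit 7) (nat_lit 7))
    (@En.n l3 (nat_lit 7270) (nat_lit 15) (nat_lit 2))))
  (@Cl.mk (nat_lit 0x200080005000d000500090003000d000d0008000300030007000b000e000b) (nat_lit 0x504030572000669) (nat_lit 16) Lb.e (@T16.mk En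
    (@En.n l5646 (nat_lit 7269) (nat_lit 11) (nat_lit 11))
    (@En.i (nat_lit 1232) (nat_lit 4) (nat_lit 14))
    (@En.i (nat_lit 3545) (nat_lit 2) (nat_lit 11))
    (@En.i (nat_lit 7633) (nat_lit 3) (nat_lit 7))
    (@En.n l50 (nat_lit 7270) (nat_lit 4) (nat_lit 3))
    (@En.n l7678 (nat_lit 7273) (nat_lit 0) (nat_lit 3))
    (@En.i (nat_lit 7964) (nat_lit 6) (nat_lit 8))
    (@En.n l20263 (nat_lit 7273) (nat_lit 3) (nat_lit 13))
    (@En.n l3327 (nat_lit 12467) (nat_lit 9) (nat_lit 13))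
    (@En.i (nat_lit 4011) (nat_lit 9) (nat_lit 3))
    (@En.n l3325 (nat_lit 4715) (nat_lit 11) (nat_lit 9))
    (@En.n l117 (nat_lit 2941) (nat_lit 5) (nat_lit 5))
    (@En.n l3327 (nat_lit 6911) (nat_lit 13) (nat_lit 13))
    (@En.n l17 (nat_lit 4004) (nat_lit 14) (nat_lit 5))
    (@En.i (nat_lit 7397) (nat_lit 4) (nat_lit 8))
    (@En.n l3 (nat_lit 7271) (nat_lit 15) (nat_lit 2))))
  (@Cl.mk (nat_lit 0x20007000c000b000b00080004000c0005000500090004000d0008000e0003) (nat_lit 0x28750600407160) (nat_lit 16) Lb.e (@T16.mk En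
    (@En.n l17334 (nat_lit 7269) (nat_lit 15) (nat_lit 3))
    (@En.n l2322 (nat_lit 13884) (nat_lit 0) (nat_lit 14))
    (@En.n l23006 (nat_lit 6953) (nat_lit 2) (nat_lit 8))
    (@En.i (nat_lit 12472) (nat_lit 4) (nat_lit 13))
    (@En.n l61 (nat_lit 7372) (nat_lit 4) (nat_lit 4))
    (@En.n l23006 (nat_lit 5413) (nat_lit 5) (nat_lit 9))
    (@En.n l8088 (nat_lit 7273) (nat_lit 6) (nat_lit 5))
    (@En.i (nat_lit 7121) (nat_lit 7) (nat_lit 5))
    (@En.n l9885 (nat_lit 7024) (nat_lit 9) (nat_lit 12))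
    (@En.n l35339 (nat_lit 7274) (nat_lit 9) (nat_lit 4))
    (@En.n l31236 (nat_lit 9149) (nat_lit 11) (nat_lit 8))
    (@En.n l619 (nat_lit 4805) (nat_lit 12) (nat_lit 11))
    (@En.n l3866 (nat_lit 7277) (nat_lit 13) (nat_lit 11))
    (@En.n l8766 (nat_lit 3652) (nat_lit 14) (nat_lit 12))
    (@En.n l23006 (nat_lit 7636) (nat_lit 14) (nat_lit 7))
    (@En.n l50 (nat_lit 7272) (nat_lit 15) (nat_lit 2))))
  (@Cl.mk (nat_lit 0x20007000b000e000b000200090005000d000500090003000d0007000e0003) (nat_lit 0x68905040306080) (nat_lit 16) Lb.e (@T16.mk En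
    (@En.n l18528 (nat_lit 7271) (nat_lit 5) (nat_lit 3))
    (@En.n l619 (nat_lit 13844) (nat_lit 0) (nat_lit 14))
    (@En.n l12335 (nat_lit 6502) (nat_lit 2) (nat_lit 7))
    (@En.n l2125 (nat_lit 12469) (nat_lit 9) (nat_lit 13))
    (@En.n l3588 (nat_lit 7390) (nat_lit 4) (nat_lit 3))
    (@En.n l12585 (nat_lit 4717) (nat_lit 5) (nat_lit 9))
    (@En.n l3593 (nat_lit 2940) (nat_lit 6) (nat_lit 5))
    (@En.i (nat_lit 6909) (nat_lit 8) (nat_lit 13))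
    (@En.n l3902 (nat_lit 4009) (nat_lit 14) (nat_lit 5))
    (@En.n l9871 (nat_lit 7396) (nat_lit 10) (nat_lit 9))
    (@En.n l50 (nat_lit 7273) (nat_lit 10) (nat_lit 2))
    (@En.n l3584 (nat_lit 7272) (nat_lit 12) (nat_lit 11))
    (@En.n l19539 (nat_lit 1230) (nat_lit 13) (nat_lit 14))
    (@En.n l10855 (nat_lit 2568) (nat_lit 2) (nat_lit 11))
    (@En.n l5891 (nat_lit 7630) (nat_lit 3) (nat_lit 7))
    (@En.n l11 (nat_lit 7273) (nat_lit 15) (nat_lit 2))))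
  (@Cl.mk (nat_lit 0x20007000c0006000c000c0004000c0004000400090004000d000a000e0003) (nat_lit 0x60150500706370) (nat_lit 16) Lb.e (@T16.mk En
    (@En.n l19517 (nat_lit 7267) (nat_lit 15) (nat_lit 3))
    (@En.n l476 (nat_lit 13885) (nat_lit 0) (nat_lit 14))
    (@En.n l19518 (nat_lit 6767) (nat_lit 2) (nat_lit 10))
    (@En.n l18240 (nat_lit 12463) (nat_lit 4) (nat_lit 13))
    (@En.n l476 (nat_lit 7373) (nat_lit 4) (nat_lit 4))
    (@En.n l17308 (nat_lit 5566) (nat_lit 5) (nat_lit 9))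
    (@En.n l19519 (nat_lit 4009) (nat_lit 12) (nat_lit 4))
    (@En.n l9591 (nat_lit 7224) (nat_lit 7) (nat_lit 4))
    (@En.n l2817 (nat_lit 3685) (nat_lit 9) (nat_lit 12))
    (@En.n l4488 (nat_lit 7275) (nat_lit 9) (nat_lit 4))
    (@En.n l8932 (nat_lit 4806) (nat_lit 11) (nat_lit 12))
    (@En.n l18240 (nat_lit 2942) (nat_lit 12) (nat_lit 12))
    (@En.n l10979 (nat_lit 8916) (nat_lit 13) (nat_lit 6))
    (@En.n l619 (nat_lit 3651) (nat_lit 14) (nat_lit 12))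
    (@En.n l19520 (nat_lit 7639) (nat_lit 14) (nat_lit 7))
    (@En.n l17 (nat_lit 7274) (nat_lit 15) (nat_lit 2))))
  (@Cl.mk (nat_lit 0x20007000c000a0007000d0004000c0003000600090004000d0009000e0003) (nat_lit 0x470a010050a170) (nat_lit 16) Lb.e (@T16.mk En
    (@En.n l50 (nat_lit 7263) (nat_lit 15) (nat_lit 3))
    (@En.n l1854 (nat_lit 13881) (nat_lit 0) (nat_lit 14))
    (@En.n l6081 (nat_lit 6568) (nat_lit 2) (nat_lit 9))
    (@En.n l7638 (nat_lit 12473) (nat_lit 12) (nat_lit 13))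
    (@En.n l28592 (nat_lit 7281) (nat_lit 4) (nat_lit 4))
    (@En.i (nat_lit 6971) (nat_lit 5) (nat_lit 9))
    (@En.n l20963 (nat_lit 1820) (nat_lit 12) (nat_lit 6))
    (@En.n l8131 (nat_lit 7277) (nat_lit 7) (nat_lit 3))
    (@En.n l8140 (nat_lit 4010) (nat_lit 0) (nat_lit 12))
    (@En.n l34605 (nat_lit 7272) (nat_lit 9) (nat_lit 4))
    (@En.n l2197 (nat_lit 2939) (nat_lit 11) (nat_lit 13))
    (@En.n l403 (nat_lit 9147) (nat_lit 12) (nat_lit 7))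
    (@En.n l2642 (nat_lit 7276) (nat_lit 13) (nat_lit 10))
    (@En.n l22216 (nat_lit 7381) (nat_lit 14) (nat_lit 12))
    (@En.n l1353 (nat_lit 8242) (nat_lit 6) (nat_lit 7))
    (@En.n l18 (nat_lit 7275) (nat_lit 15) (nat_lit 2))))
  (@Cl.mk (nat_lit 0x20007000a0006000d000c000b00030006000400090005000d000a000e0003) (nat_lit 0x60a31000604180) (nat_lit 16) Lb.e (@T16.mk En
    (@En.n l7 (nat_lit 7230) (nat_lit 15) (nat_lit 3))
    (@En.n l1420 (nat_lit 13888) (nat_lit 0) (nat_lit 14))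
    (@En.i (nat_lit 6768) (nat_lit 2) (nat_lit 10))
    (@En.n l18065 (nat_lit 10321) (nat_lit 11) (nat_lit 13))
    (@En.n l7973 (nat_lit 4604) (nat_lit 4) (nat_lit 5))
    (@En.n l899 (nat_lit 7275) (nat_lit 5) (nat_lit 9))
    (@En.n l8151 (nat_lit 7274) (nat_lit 6) (nat_lit 4))
    (@En.i (nat_lit 2782) (nat_lit 7) (nat_lit 6))
    (@En.n l18652 (nat_lit 7227) (nat_lit 8) (nat_lit 3))
    (@En.n l619 (nat_lit 4008) (nat_lit 0) (nat_lit 11))
    (@En.n l18833 (nat_lit 7224) (nat_lit 11) (nat_lit 12))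
    (@En.n l6388 (nat_lit 2940) (nat_lit 12) (nat_lit 13))
    (@En.n l6319 (nat_lit 8917) (nat_lit 13) (nat_lit 6))
    (@En.n l2696 (nat_lit 2280) (nat_lit 8) (nat_lit 10))
    (@En.i (nat_lit 7620) (nat_lit 5) (nat_lit 7))
    (@En.n l50 (nat_lit 7276) (nat_lit 15) (nat_lit 2))))
  (@Cl.mk (nat_lit 0x20007000b000a0007000d000b00050003000600090005000d0009000e0003) (nat_lit 0x770a5000507130) (nat_lit 16) Lb.e (@T16.mk En
    (@En.n l34371 (nat_lit 7229) (nat_lit 15) (nat_lit 3))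
    (@En.n l12062 (nat_lit 13880) (nat_lit 0) (nat_lit 14))
    (@En.n l31194 (nat_lit 6567) (nat_lit 2) (nat_lit 9))
    (@En.n l34372 (nat_lit 12476) (nat_lit 12) (nat_lit 13))
    (@En.n l12062 (nat_lit 7334) (nat_lit 4) (nat_lit 5))
    (@En.n l34373 (nat_lit 6972) (nat_lit 5) (nat_lit 9))
    (@En.n l20187 (nat_lit 1234) (nat_lit 6) (nat_lit 6))
    (@En.n l34374 (nat_lit 7275) (nat_lit 7) (nat_lit 3))
    (@En.n l18 (nat_lit 3537) (nat_lit 0) (nat_lit 5))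
    (@En.n l34375 (nat_lit 7278) (nat_lit 10) (nat_lit 11))
    (@En.n l3 (nat_lit 2946) (nat_lit 11) (nat_lit 13))
    (@En.n l3 (nat_lit 9148) (nat_lit 12) (nat_lit 7))
    (@En.n l7642 (nat_lit 7227) (nat_lit 13) (nat_lit 10))
    (@En.n l34376 (nat_lit 7239) (nat_lit 14) (nat_lit 11))
    (@En.n l34377 (nat_lit 7623) (nat_lit 6) (nat_lit 7))
    (@En.n l28 (nat_lit 7277) (nat_lit 15) (nat_lit 2))))
  (@Cl.mk (nat_lit 0x20008000c000b0007000b0004000c0005000800050004000d0009000e0003) (nat_lit 0x642040705005190) (nat_lit 16) Lb.e (@T16.mk En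
    (@En.n l37736 (nat_lit 7279) (nat_lit 15) (nat_lit 3))
    (@En.n l27822 (nat_lit 13197) (nat_lit 0) (nat_lit 14))
    (@En.n l37737 (nat_lit 4441) (nat_lit 2) (nat_lit 9))
    (@En.n l8361 (nat_lit 8835) (nat_lit 2) (nat_lit 13))
    (@En.n l37738 (nat_lit 7275) (nat_lit 4) (nat_lit 4))
    (@En.n l27822 (nat_lit 7304) (nat_lit 5) (nat_lit 5))
    (@En.n l22253 (nat_lit 6975) (nat_lit 10) (nat_lit 8))
    (@En.n l37739 (nat_lit 340) (nat_lit 7) (nat_lit 5))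
    (@En.n l11010 (nat_lit 7205) (nat_lit 9) (nat_lit 12))
    (@En.n l37740 (nat_lit 4207) (nat_lit 9) (nat_lit 4))
    (@En.i (nat_lit 4336) (nat_lit 11) (nat_lit 11))
    (@En.n l22198 (nat_lit 10218) (nat_lit 12) (nat_lit 7))
    (@En.n l22188 (nat_lit 6995) (nat_lit 13) (nat_lit 11))
    (@En.n l1770 (nat_lit 6994) (nat_lit 14) (nat_lit 12))
    (@En.n l29865 (nat_lit 10303) (nat_lit 14) (nat_lit 8))
    (@En.n l17 (nat_lit 7278) (nat_lit 15) (nat_lit 2))))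
  (@Cl.mk (nat_lit 0x300030008000c000b0006000b0004000c0005000800050004000d000d000a) (nat_lit 0x63204080500562) (nat_lit 16) Lb.e (@T16.mk En
    (@En.i (nat_lit 6356) (nat_lit 0) (nat_lit 10))
    (@En.n l25003 (nat_lit 7278) (nat_lit 3) (nat_lit 13))
    (@En.n l1306 (nat_lit 8836) (nat_lit 2) (nat_lit 13))
    (@En.n l28 (nat_lit 7263) (nat_lit 3) (nat_lit 4))
    (@En.n l25004 (nat_lit 3056) (nat_lit 4) (nat_lit 5))
    (@En.i (nat_lit 6976) (nat_lit 10) (nat_lit 8))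
    (@En.n l2257 (nat_lit 338) (nat_lit 6) (nat_lit 5))
    (@En.n l8820 (nat_lit 7201) (nat_lit 8) (nat_lit 12))
    (@En.n l4427 (nat_lit 4205) (nat_lit 8) (nat_lit 4))
    (@En.n l1306 (nat_lit 4265) (nat_lit 10) (nat_lit 11))
    (@En.n l6081 (nat_lit 10177) (nat_lit 1) (nat_lit 6))
    (@En.n l4428 (nat_lit 6991) (nat_lit 12) (nat_lit 11))
    (@En.n l25005 (nat_lit 6990) (nat_lit 13) (nat_lit 12))
    (@En.n l22306 (nat_lit 10304) (nat_lit 14) (nat_lit 8))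
    (@En.n l18 (nat_lit 7280) (nat_lit 13) (nat_lit 3))
    (@En.n l25006 (nat_lit 7278) (nat_lit 0) (nat_lit 3))))
noncomputable def a455 : T16 Cl := @T16.mk Cl
  (@Cl.mk (nat_lit 0x2000b00030008000c000b0005000b0004000c0005000800050004000e000d) (nat_lit 0x205320208050056) (nat_lit 16) Lb.e (@T16.mk En
    (@En.n l396 (nat_lit 7279) (nat_lit 2) (nat_lit 13))
    (@En.n l4425 (nat_lit 7353) (nat_lit 1) (nat_lit 14))
    (@En.n l28 (nat_lit 7264) (nat_lit 2) (nat_lit 4))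
    (@En.n l502 (nat_lit 7318) (nat_lit 3) (nat_lit 5))
    (@En.i (nat_lit 6978) (nat_lit 10) (nat_lit 8))
    (@En.n l2257 (nat_lit 342) (nat_lit 5) (nat_lit 5))
    (@En.n l4426 (nat_lit 7204) (nat_lit 7) (nat_lit 12))
    (@En.n l4427 (nat_lit 4204) (nat_lit 7) (nat_lit 4))
    (@En.n l502 (nat_lit 1016) (nat_lit 9) (nat_lit 11))
    (@En.i (nat_lit 10202) (nat_lit 9) (nat_lit 5))
    (@En.n l4428 (nat_lit 6993) (nat_lit 11) (nat_lit 11))
    (@En.n l4429 (nat_lit 6992) (nat_lit 12) (nat_lit 12))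
    (@En.i (nat_lit 10874) (nat_lit 13) (nat_lit 8))
    (@En.i (nat_lit 7279) (nat_lit 14) (nat_lit 3))
    (@En.i (nat_lit 5491) (nat_lit 0) (nat_lit 11))
    (@En.n l50 (nat_lit 7280) (nat_lit 15) (nat_lit 2))))
  (@Cl.mk (nat_lit 0x20009000c00090007000c0004000c0007000400070004000d0009000e0003) (nat_lit 0x6470a0000002180) (nat_lit 16) Lb.e (@T16.mk En
    (@En.n l19236 (nat_lit 7282) (nat_lit 15) (nat_lit 3))
    (@En.n l22230 (nat_lit 14008) (nat_lit 0) (nat_lit 14))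
    (@En.i (nat_lit 6570) (nat_lit 2) (nat_lit 9))
    (@En.n l10173 (nat_lit 9765) (nat_lit 2) (nat_lit 13))
    (@En.n l9619 (nat_lit 7278) (nat_lit 4) (nat_lit 4))
    (@En.n l22231 (nat_lit 1819) (nat_lit 11) (nat_lit 7))
    (@En.n l22232 (nat_lit 7296) (nat_lit 6) (nat_lit 4))
    (@En.n l22233 (nat_lit 7283) (nat_lit 7) (nat_lit 7))
    (@En.n l22234 (nat_lit 7286) (nat_lit 9) (nat_lit 12))
    (@En.n l10174 (nat_lit 7372) (nat_lit 9) (nat_lit 4))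
    (@En.n l22235 (nat_lit 4342) (nat_lit 11) (nat_lit 12))
    (@En.i (nat_lit 8661) (nat_lit 12) (nat_lit 7))
    (@En.n l22236 (nat_lit 4604) (nat_lit 13) (nat_lit 9))
    (@En.i (nat_lit 7387) (nat_lit 6) (nat_lit 12))
    (@En.n l22237 (nat_lit 9068) (nat_lit 14) (nat_lit 9))
    (@En.n l7 (nat_lit 7281) (nat_lit 15) (nat_lit 2))))
  (@Cl.mk (nat_lit 0x300030009000c00090006000c0004000c0007000400070004000d000d000a) (nat_lit 0x5670a050000230) (nat_lit 16) Lb.e (@T16.mk En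
    (@En.n l28323 (nat_lit 7520) (nat_lit 0) (nat_lit 10))
    (@En.n l28590 (nat_lit 7281) (nat_lit 3) (nat_lit 13))
    (@En.n l25506 (nat_lit 9766) (nat_lit 2) (nat_lit 13))
    (@En.i (nat_lit 7279) (nat_lit 3) (nat_lit 4))
    (@En.n l1081 (nat_lit 1818) (nat_lit 11) (nat_lit 7))
    (@En.n l28591 (nat_lit 3061) (nat_lit 5) (nat_lit 4))
    (@En.n l6636 (nat_lit 7284) (nat_lit 6) (nat_lit 7))
    (@En.n l4426 (nat_lit 7285) (nat_lit 8) (nat_lit 12))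
    (@En.n l16336 (nat_lit 7361) (nat_lit 8) (nat_lit 4))
    (@En.n l25506 (nat_lit 4343) (nat_lit 10) (nat_lit 12))
    (@En.n l28592 (nat_lit 8657) (nat_lit 1) (nat_lit 6))
    (@En.n l2642 (nat_lit 4603) (nat_lit 12) (nat_lit 9))
    (@En.n l28592 (nat_lit 7383) (nat_lit 6) (nat_lit 12))
    (@En.n l2642 (nat_lit 9069) (nat_lit 14) (nat_lit 9))
    (@En.n l18 (nat_lit 7287) (nat_lit 13) (nat_lit 3))
    (@En.n l28592 (nat_lit 7281) (nat_lit 0) (nat_lit 3))))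
  (@Cl.mk (nat_lit 0x200090007000c000a0008000d00040007000300060009000d0008000e0003) (nat_lit 0x60585a000069170) (nat_lit 16) Lb.e (@T16.mk En
    (@En.n l29114 (nat_lit 7284) (nat_lit 15) (nat_lit 3))
    (@En.n l10357 (nat_lit 14038) (nat_lit 0) (nat_lit 14))
    (@En.i (nat_lit 6571) (nat_lit 2) (nat_lit 8))
    (@En.n l2117 (nat_lit 9760) (nat_lit 13) (nat_lit 13))
    (@En.i (nat_lit 6909) (nat_lit 4) (nat_lit 9))
    (@En.n l2125 (nat_lit 1821) (nat_lit 12) (nat_lit 6))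
    (@En.n l22246 (nat_lit 7293) (nat_lit 6) (nat_lit 3))
    (@En.n l12585 (nat_lit 2450) (nat_lit 0) (nat_lit 7))
    (@En.n l2116 (nat_lit 7391) (nat_lit 8) (nat_lit 4))
    (@En.i (nat_lit 4344) (nat_lit 10) (nat_lit 13))
    (@En.n l253 (nat_lit 8659) (nat_lit 11) (nat_lit 8))
    (@En.n l29134 (nat_lit 7286) (nat_lit 12) (nat_lit 10))
    (@En.n l30380 (nat_lit 7281) (nat_lit 13) (nat_lit 12))
    (@En.n l23382 (nat_lit 7275) (nat_lit 14) (nat_lit 7))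
    (@En.i (nat_lit 8407) (nat_lit 14) (nat_lit 9))
    (@En.n l11 (nat_lit 7283) (nat_lit 15) (nat_lit 2))))
  (@Cl.mk (nat_lit 0x3000300090007000c000a0007000d00040007000300060009000d000d0009) (nat_lit 0x50780a000049a0) (nat_lit 16) Lb.e (@T16.mk En
    (@En.n l8361 (nat_lit 7519) (nat_lit 0) (nat_lit 9))
    (@En.n l19441 (nat_lit 7283) (nat_lit 3) (nat_lit 13))
    (@En.n l1770 (nat_lit 9757) (nat_lit 13) (nat_lit 13))
    (@En.n l1770 (nat_lit 6911) (nat_lit 9) (nat_lit 9))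
    (@En.n l19442 (nat_lit 1822) (nat_lit 12) (nat_lit 6))
    (@En.n l35250 (nat_lit 7294) (nat_lit 5) (nat_lit 3))
    (@En.i (nat_lit 2131) (nat_lit 0) (nat_lit 7))
    (@En.n l3522 (nat_lit 7203) (nat_lit 7) (nat_lit 4))
    (@En.n l1770 (nat_lit 4345) (nat_lit 9) (nat_lit 13))
    (@En.n l1769 (nat_lit 8654) (nat_lit 1) (nat_lit 7))
    (@En.n l14333 (nat_lit 7285) (nat_lit 11) (nat_lit 10))
    (@En.n l14416 (nat_lit 7282) (nat_lit 12) (nat_lit 12))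
    (@En.n l8361 (nat_lit 7263) (nat_lit 13) (nat_lit 7))
    (@En.n l1867 (nat_lit 9070) (nat_lit 14) (nat_lit 9))
    (@En.n l2261 (nat_lit 7288) (nat_lit 13) (nat_lit 3))
    (@En.n l19440 (nat_lit 7283) (nat_lit 0) (nat_lit 3))))
  (@Cl.mk (nat_lit 0x30003000a0007000a0006000d000c00060003000600040009000d000d000a) (nat_lit 0x6070b400005340) (nat_lit 16) Lb.e (@T16.mk En
    (@En.n l5896 (nat_lit 7517) (nat_lit 0) (nat_lit 10))
    (@En.n l7890 (nat_lit 7286) (nat_lit 3) (nat_lit 13))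
    (@En.n l532 (nat_lit 8548) (nat_lit 12) (nat_lit 13))
    (@En.n l30436 (nat_lit 7284) (nat_lit 3) (nat_lit 9))
    (@En.n l15753 (nat_lit 7201) (nat_lit 4) (nat_lit 4))
    (@En.i (nat_lit 1827) (nat_lit 12) (nat_lit 6))
    (@En.n l7008 (nat_lit 7290) (nat_lit 6) (nat_lit 3))
    (@En.n l97 (nat_lit 2126) (nat_lit 0) (nat_lit 6))
    (@En.n l15864 (nat_lit 7202) (nat_lit 9) (nat_lit 12))
    (@En.n l5895 (nat_lit 4347) (nat_lit 10) (nat_lit 13))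
    (@En.n l13622 (nat_lit 8723) (nat_lit 3) (nat_lit 6))
    (@En.n l13622 (nat_lit 3437) (nat_lit 8) (nat_lit 10))
    (@En.i (nat_lit 7230) (nat_lit 13) (nat_lit 7))
    (@En.n l30437 (nat_lit 9073) (nat_lit 14) (nat_lit 10))
    (@En.n l50 (nat_lit 7289) (nat_lit 13) (nat_lit 3))
    (@En.n l2696 (nat_lit 7286) (nat_lit 0) (nat_lit 3))))
  (@Cl.mk (nat_lit 0x2000a0007000a0007000d000c00060003000600040009000d0009000e0003) (nat_lit 0x6070ba0000731b0) (nat_lit 16) Lb.e (@T16.mk En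
    (@En.n l2671 (nat_lit 7285) (nat_lit 15) (nat_lit 3))
    (@En.n l2038 (nat_lit 13978) (nat_lit 0) (nat_lit 14))
    (@En.n l2576 (nat_lit 6573) (nat_lit 2) (nat_lit 9))
    (@En.n l3819 (nat_lit 9088) (nat_lit 12) (nat_lit 13))
    (@En.n l24611 (nat_lit 7283) (nat_lit 4) (nat_lit 9))
    (@En.n l3819 (nat_lit 7205) (nat_lit 5) (nat_lit 4))
    (@En.n l8931 (nat_lit 1826) (nat_lit 6) (nat_lit 6))
    (@En.n l50 (nat_lit 7291) (nat_lit 7) (nat_lit 3))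
    (@En.i (nat_lit 2128) (nat_lit 0) (nat_lit 6))
    (@En.n l10625 (nat_lit 7292) (nat_lit 10) (nat_lit 12))
    (@En.n l3819 (nat_lit 4346) (nat_lit 11) (nat_lit 13))
    (@En.i (nat_lit 8724) (nat_lit 12) (nat_lit 7))
    (@En.i (nat_lit 4602) (nat_lit 13) (nat_lit 10))
    (@En.n l7834 (nat_lit 7276) (nat_lit 14) (nat_lit 7))
    (@En.i (nat_lit 8426) (nat_lit 14) (nat_lit 10))
    (@En.n l11 (nat_lit 7286) (nat_lit 15) (nat_lit 2))))
  (@Cl.mk (nat_lit 0x2000b00030009000c00090005000c0004000c0007000400070004000e000d) (nat_lit 0x205370403000033) (nat_lit 16) Lb.e (@T16.mk En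
    (@En.n l396 (nat_lit 7282) (nat_lit 2) (nat_lit 13))
    (@En.i (nat_lit 9752) (nat_lit 1) (nat_lit 14))
    (@En.i (nat_lit 7280) (nat_lit 2) (nat_lit 4))
    (@En.n l1081 (nat_lit 2771) (nat_lit 11) (nat_lit 7))
    (@En.n l6685 (nat_lit 7319) (nat_lit 4) (nat_lit 4))
    (@En.i (nat_lit 7288) (nat_lit 5) (nat_lit 7))
    (@En.n l4426 (nat_lit 7289) (nat_lit 7) (nat_lit 12))
    (@En.n l16336 (nat_lit 7362) (nat_lit 7) (nat_lit 4))
    (@En.n l725 (nat_lit 7331) (nat_lit 9) (nat_lit 12))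
    (@En.n l3585 (nat_lit 8649) (nat_lit 9) (nat_lit 5))
    (@En.n l2642 (nat_lit 4607) (nat_lit 11) (nat_lit 9))
    (@En.n l3585 (nat_lit 7386) (nat_lit 6) (nat_lit 12))
    (@En.n l2642 (nat_lit 10865) (nat_lit 13) (nat_lit 9))
    (@En.i (nat_lit 7282) (nat_lit 14) (nat_lit 3))
    (@En.i (nat_lit 5470) (nat_lit 0) (nat_lit 11))
    (@En.n l50 (nat_lit 7287) (nat_lit 15) (nat_lit 2))))
  (@Cl.mk (nat_lit 0x2000a000300090007000c000a0006000d00040007000300060009000e000d) (nat_lit 0x20504705000057a) (nat_lit 16) Lb.e (@T16.mk En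
    (@En.n l6635 (nat_lit 7284) (nat_lit 2) (nat_lit 13))
    (@En.n l17007 (nat_lit 9744) (nat_lit 1) (nat_lit 14))
    (@En.i (nat_lit 7023) (nat_lit 9) (nat_lit 9))
    (@En.n l1081 (nat_lit 2770) (nat_lit 12) (nat_lit 6))
    (@En.n l1080 (nat_lit 7218) (nat_lit 4) (nat_lit 3))
    (@En.n l12006 (nat_lit 2451) (nat_lit 0) (nat_lit 7))
    (@En.n l117 (nat_lit 7363) (nat_lit 6) (nat_lit 4))
    (@En.n l725 (nat_lit 7214) (nat_lit 8) (nat_lit 13))
    (@En.i (nat_lit 8651) (nat_lit 8) (nat_lit 6))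
    (@En.n l2642 (nat_lit 7289) (nat_lit 10) (nat_lit 10))
    (@En.n l10882 (nat_lit 7287) (nat_lit 11) (nat_lit 12))
    (@En.i (nat_lit 7264) (nat_lit 12) (nat_lit 7))
    (@En.n l3213 (nat_lit 10870) (nat_lit 13) (nat_lit 9))
    (@En.n l6636 (nat_lit 7284) (nat_lit 14) (nat_lit 3))
    (@En.i (nat_lit 1307) (nat_lit 0) (nat_lit 10))
    (@En.n l50 (nat_lit 7288) (nat_lit 15) (nat_lit 2))))
  (@Cl.mk (nat_lit 0x2000b0003000a0007000a0005000d000c00060003000600040009000e000d) (nat_lit 0x206060b20000644) (nat_lit 16) Lb.e (@T16.mk En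
    (@En.n l601 (nat_lit 7285) (nat_lit 2) (nat_lit 13))
    (@En.n l532 (nat_lit 8540) (nat_lit 1) (nat_lit 14))
    (@En.n l899 (nat_lit 7288) (nat_lit 2) (nat_lit 9))
    (@En.i (nat_lit 7204) (nat_lit 3) (nat_lit 4))
    (@En.i (nat_lit 2768) (nat_lit 4) (nat_lit 6))
    (@En.n l7008 (nat_lit 7217) (nat_lit 5) (nat_lit 3))
    (@En.n l97 (nat_lit 2130) (nat_lit 0) (nat_lit 6))
    (@En.n l2824 (nat_lit 7219) (nat_lit 8) (nat_lit 12))
    (@En.i (nat_lit 7215) (nat_lit 9) (nat_lit 13))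
    (@En.i (nat_lit 9153) (nat_lit 9) (nat_lit 5))
    (@En.n l7622 (nat_lit 4616) (nat_lit 11) (nat_lit 10))
    (@En.i (nat_lit 7265) (nat_lit 12) (nat_lit 7))
    (@En.n l532 (nat_lit 10871) (nat_lit 13) (nat_lit 10))
    (@En.i (nat_lit 7285) (nat_lit 14) (nat_lit 3))
    (@En.i (nat_lit 5179) (nat_lit 0) (nat_lit 11))
    (@En.n l7 (nat_lit 7289) (nat_lit 15) (nat_lit 2))))
  (@Cl.mk (nat_lit 0x30003000b0007000a0006000d0005000d0003000600030009000d000d000a) (nat_lit 0x7070b050006780) (nat_lit 16) Lb.e (@T16.mk En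
    (@En.n l55 (nat_lit 7516) (nat_lit 0) (nat_lit 10))
    (@En.n l2691 (nat_lit 7291) (nat_lit 3) (nat_lit 13))
    (@En.n l1096 (nat_lit 8547) (nat_lit 12) (nat_lit 13))
    (@En.i (nat_lit 7294) (nat_lit 3) (nat_lit 9))
    (@En.i (nat_lit 7202) (nat_lit 4) (nat_lit 3))
    (@En.i (nat_lit 2005) (nat_lit 12) (nat_lit 6))
    (@En.n l13031 (nat_lit 7285) (nat_lit 6) (nat_lit 3))
    (@En.n l3082 (nat_lit 4680) (nat_lit 0) (nat_lit 13))
    (@En.i (nat_lit 3658) (nat_lit 8) (nat_lit 5))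
    (@En.n l1596 (nat_lit 7216) (nat_lit 10) (nat_lit 13))
    (@En.i (nat_lit 8725) (nat_lit 5) (nat_lit 6))
    (@En.i (nat_lit 3436) (nat_lit 8) (nat_lit 10))
    (@En.n l27259 (nat_lit 7225) (nat_lit 13) (nat_lit 7))
    (@En.n l5579 (nat_lit 10662) (nat_lit 9) (nat_lit 11))
    (@En.n l11 (nat_lit 7217) (nat_lit 13) (nat_lit 3))
    (@En.n l5870 (nat_lit 7291) (nat_lit 0) (nat_lit 3))))
  (@Cl.mk (nat_lit 0x2000b0007000a0007000d0005000d0003000600030009000d0009000e0003) (nat_lit 0x7070b05000771b0) (nat_lit 16) Lb.e (@T16.mk En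
    (@En.n l1992 (nat_lit 7290) (nat_lit 15) (nat_lit 3))
    (@En.n l2038 (nat_lit 13976) (nat_lit 0) (nat_lit 14))
    (@En.n l2576 (nat_lit 6572) (nat_lit 2) (nat_lit 9))
    (@En.n l2125 (nat_lit 9090) (nat_lit 12) (nat_lit 13))
    (@En.n l24340 (nat_lit 7293) (nat_lit 4) (nat_lit 9))
    (@En.n l5801 (nat_lit 7292) (nat_lit 5) (nat_lit 3))
    (@En.i (nat_lit 2006) (nat_lit 12) (nat_lit 6))
    (@En.i (nat_lit 7286) (nat_lit 7) (nat_lit 3))
    (@En.i (nat_lit 4686) (nat_lit 0) (nat_lit 13))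
    (@En.i (nat_lit 3661) (nat_lit 9) (nat_lit 5))
    (@En.n l899 (nat_lit 7295) (nat_lit 11) (nat_lit 13))
    (@En.i (nat_lit 8728) (nat_lit 12) (nat_lit 7))
    (@En.i (nat_lit 3438) (nat_lit 13) (nat_lit 10))
    (@En.i (nat_lit 7227) (nat_lit 14) (nat_lit 7))
    (@En.i (nat_lit 10656) (nat_lit 9) (nat_lit 11))
    (@En.n l11 (nat_lit 7291) (nat_lit 15) (nat_lit 2))))
  (@Cl.mk (nat_lit 0x2000b0007000b0007000c0005000d0005000400030009000d0009000e0003) (nat_lit 0x8060905000771b0) (nat_lit 16) Lb.e (@T16.mk En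
    (@En.n l18230 (nat_lit 7202) (nat_lit 15) (nat_lit 3))
    (@En.n l4814 (nat_lit 13977) (nat_lit 0) (nat_lit 14))
    (@En.i (nat_lit 6574) (nat_lit 2) (nat_lit 9))
    (@En.i (nat_lit 8700) (nat_lit 4) (nat_lit 13))
    (@En.n l2213 (nat_lit 7016) (nat_lit 4) (nat_lit 9))
    (@En.n l28285 (nat_lit 7291) (nat_lit 5) (nat_lit 3))
    (@En.n l152 (nat_lit 7198) (nat_lit 0) (nat_lit 4))
    (@En.n l21574 (nat_lit 7293) (nat_lit 7) (nat_lit 5))
    (@En.n l617 (nat_lit 4681) (nat_lit 9) (nat_lit 13))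
    (@En.n l13116 (nat_lit 3663) (nat_lit 9) (nat_lit 5))
    (@En.i (nat_lit 7303) (nat_lit 11) (nat_lit 12))
    (@En.n l8776 (nat_lit 8727) (nat_lit 12) (nat_lit 7))
    (@En.n l4817 (nat_lit 7378) (nat_lit 13) (nat_lit 11))
    (@En.n l7231 (nat_lit 7224) (nat_lit 14) (nat_lit 7))
    (@En.i (nat_lit 10660) (nat_lit 9) (nat_lit 11))
    (@En.n l50 (nat_lit 7292) (nat_lit 15) (nat_lit 2))))
  (@Cl.mk (nat_lit 0x2000a0007000b000a0008000d00060005000300060009000d0008000e0003) (nat_lit 0x60785a0000661b0) (nat_lit 16) Lb.e (@T16.mk En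
    (@En.n l15523 (nat_lit 7294) (nat_lit 15) (nat_lit 3))
    (@En.n l23501 (nat_lit 14039) (nat_lit 0) (nat_lit 14))
    (@En.i (nat_lit 6569) (nat_lit 2) (nat_lit 8))
    (@En.i (nat_lit 9755) (nat_lit 13) (nat_lit 13))
    (@En.n l27330 (nat_lit 6910) (nat_lit 4) (nat_lit 9))
    (@En.n l20187 (nat_lit 2004) (nat_lit 12) (nat_lit 6))
    (@En.n l13686 (nat_lit 7283) (nat_lit 6) (nat_lit 3))
    (@En.n l18 (nat_lit 7446) (nat_lit 0) (nat_lit 5))
    (@En.n l6081 (nat_lit 4579) (nat_lit 8) (nat_lit 6))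
    (@En.n l3 (nat_lit 4348) (nat_lit 10) (nat_lit 13))
    (@En.n l3 (nat_lit 8746) (nat_lit 11) (nat_lit 8))
    (@En.n l7642 (nat_lit 7291) (nat_lit 12) (nat_lit 10))
    (@En.n l16560 (nat_lit 7296) (nat_lit 13) (nat_lit 11))
    (@En.i (nat_lit 7277) (nat_lit 14) (nat_lit 7))
    (@En.i (nat_lit 10654) (nat_lit 14) (nat_lit 10))
    (@En.n l28 (nat_lit 7293) (nat_lit 15) (nat_lit 2))))
  (@Cl.mk (nat_lit 0x30003000a0007000b000a0007000d00060005000300060009000d000d0009) (nat_lit 0x80780a00005970) (nat_lit 16) Lb.e (@T16.mk En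
    (@En.n l55 (nat_lit 7518) (nat_lit 0) (nat_lit 9))
    (@En.n l30170 (nat_lit 7293) (nat_lit 3) (nat_lit 13))
    (@En.n l27760 (nat_lit 9756) (nat_lit 13) (nat_lit 13))
    (@En.n l30171 (nat_lit 7018) (nat_lit 9) (nat_lit 9))
    (@En.n l19458 (nat_lit 2007) (nat_lit 12) (nat_lit 6))
    (@En.n l30172 (nat_lit 7284) (nat_lit 5) (nat_lit 3))
    (@En.n l30173 (nat_lit 7445) (nat_lit 0) (nat_lit 5))
    (@En.n l27579 (nat_lit 4580) (nat_lit 7) (nat_lit 6))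
    (@En.n l14253 (nat_lit 4349) (nat_lit 9) (nat_lit 13))
    (@En.n l14253 (nat_lit 8658) (nat_lit 3) (nat_lit 7))
    (@En.n l17 (nat_lit 7290) (nat_lit 11) (nat_lit 10))
    (@En.i (nat_lit 3061) (nat_lit 12) (nat_lit 11))
    (@En.n l17618 (nat_lit 7229) (nat_lit 13) (nat_lit 7))
    (@En.n l5579 (nat_lit 10669) (nat_lit 14) (nat_lit 10))
    (@En.n l30174 (nat_lit 7218) (nat_lit 13) (nat_lit 3))
    (@En.n l30175 (nat_lit 7293) (nat_lit 0) (nat_lit 3))))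
  (@Cl.mk (nat_lit 0x2000c0007000a000d0004000c0003000b000600040009000d0005000e0003) (nat_lit 0xa07a080000340c0) (nat_lit 16) Lb.e (@T16.mk En
    (@En.n l1080 (nat_lit 7216) (nat_lit 15) (nat_lit 3))
    (@En.i (nat_lit 13979) (nat_lit 0) (nat_lit 14))
    (@En.i (nat_lit 7129) (nat_lit 2) (nat_lit 5))
    (@En.i (nat_lit 8600) (nat_lit 6) (nat_lit 13))
    (@En.n l617 (nat_lit 4348) (nat_lit 4) (nat_lit 9))
    (@En.n l3480 (nat_lit 7303) (nat_lit 5) (nat_lit 4))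
    (@En.n l2642 (nat_lit 7291) (nat_lit 6) (nat_lit 6))
    (@En.i (nat_lit 7297) (nat_lit 8) (nat_lit 11))
    (@En.n l6081 (nat_lit 4346) (nat_lit 8) (nat_lit 3))
    (@En.n l1329 (nat_lit 4758) (nat_lit 10) (nat_lit 12))
    (@En.i (nat_lit 7421) (nat_lit 10) (nat_lit 4))
    (@En.i (nat_lit 3502) (nat_lit 5) (nat_lit 13))
    (@En.n l2642 (nat_lit 3428) (nat_lit 8) (nat_lit 10))
    (@En.i (nat_lit 7238) (nat_lit 14) (nat_lit 7))
    (@En.i (nat_lit 10658) (nat_lit 14) (nat_lit 12))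
    (@En.n l28 (nat_lit 7295) (nat_lit 15) (nat_lit 2))))
noncomputable def a456 : T16 Cl := @T16.mk Cl
  (@Cl.mk (nat_lit 0x2000b000b00090007000c00050005000d000400070003000d0009000e0003) (nat_lit 0x96709006000b7a0) (nat_lit 16) Lb.e (@T16.mk En
    (@En.n l1992 (nat_lit 3061) (nat_lit 15) (nat_lit 3))
    (@En.n l2038 (nat_lit 13487) (nat_lit 0) (nat_lit 14))
    (@En.n l24339 (nat_lit 6565) (nat_lit 2) (nat_lit 9))
    (@En.n l24340 (nat_lit 8807) (nat_lit 2) (nat_lit 13))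
    (@En.n l24341 (nat_lit 7304) (nat_lit 4) (nat_lit 3))
    (@En.n l9645 (nat_lit 1895) (nat_lit 11) (nat_lit 7))
    (@En.n l24342 (nat_lit 7334) (nat_lit 6) (nat_lit 4))
    (@En.i (nat_lit 7291) (nat_lit 8) (nat_lit 13))
    (@En.n l24343 (nat_lit 3059) (nat_lit 11) (nat_lit 5))
    (@En.n l19691 (nat_lit 4577) (nat_lit 9) (nat_lit 5))
    (@En.n l899 (nat_lit 7340) (nat_lit 11) (nat_lit 12))
    (@En.n l24339 (nat_lit 7776) (nat_lit 12) (nat_lit 7))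
    (@En.n l17 (nat_lit 7381) (nat_lit 13) (nat_lit 9))
    (@En.n l24344 (nat_lit 7307) (nat_lit 14) (nat_lit 11))
    (@En.i (nat_lit 10626) (nat_lit 14) (nat_lit 11))
    (@En.n l11 (nat_lit 7296) (nat_lit 15) (nat_lit 2))))
  (@Cl.mk (nat_lit 0x2000c0008000b00070004000d000b000500030008000c00050009000e0004) (nat_lit 0xa580019004002b0) (nat_lit 16) Lb.e (@T16.mk En
    (@En.n l3745 (nat_lit 7299) (nat_lit 9) (nat_lit 4))
    (@En.n l18571 (nat_lit 6310) (nat_lit 1) (nat_lit 14))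
    (@En.n l1003 (nat_lit 7291) (nat_lit 2) (nat_lit 9))
    (@En.i (nat_lit 9456) (nat_lit 3) (nat_lit 5))
    (@En.i (nat_lit 8602) (nat_lit 7) (nat_lit 12))
    (@En.n l617 (nat_lit 7298) (nat_lit 5) (nat_lit 8))
    (@En.n l11724 (nat_lit 7301) (nat_lit 6) (nat_lit 3))
    (@En.n l2642 (nat_lit 3193) (nat_lit 0) (nat_lit 5))
    (@En.n l18571 (nat_lit 9462) (nat_lit 9) (nat_lit 11))
    (@En.n l20423 (nat_lit 3411) (nat_lit 10) (nat_lit 13))
    (@En.n l13633 (nat_lit 7904) (nat_lit 10) (nat_lit 4))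
    (@En.i (nat_lit 8212) (nat_lit 12) (nat_lit 7))
    (@En.n l18571 (nat_lit 8312) (nat_lit 7) (nat_lit 11))
    (@En.i (nat_lit 9532) (nat_lit 14) (nat_lit 8))
    (@En.n l5646 (nat_lit 9879) (nat_lit 8) (nat_lit 12))
    (@En.n l28 (nat_lit 7297) (nat_lit 15) (nat_lit 2))))
  (@Cl.mk (nat_lit 0x2000b0008000c000b000800050004000c00050008000c00040008000e0004) (nat_lit 0x9519400a0300290) (nat_lit 16) Lb.e (@T16.mk En
    (@En.i (nat_lit 7300) (nat_lit 15) (nat_lit 4))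
    (@En.n l4991 (nat_lit 6318) (nat_lit 1) (nat_lit 14))
    (@En.n l152 (nat_lit 7293) (nat_lit 2) (nat_lit 8))
    (@En.i (nat_lit 9430) (nat_lit 3) (nat_lit 4))
    (@En.i (nat_lit 9397) (nat_lit 0) (nat_lit 12))
    (@En.n l2921 (nat_lit 8676) (nat_lit 10) (nat_lit 8))
    (@En.n l26600 (nat_lit 3195) (nat_lit 6) (nat_lit 5))
    (@En.n l6081 (nat_lit 9461) (nat_lit 8) (nat_lit 12))
    (@En.n l18 (nat_lit 7450) (nat_lit 8) (nat_lit 4))
    (@En.n l26601 (nat_lit 7903) (nat_lit 9) (nat_lit 5))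
    (@En.i (nat_lit 8204) (nat_lit 11) (nat_lit 8))
    (@En.n l61 (nat_lit 7297) (nat_lit 12) (nat_lit 11))
    (@En.n l4991 (nat_lit 4624) (nat_lit 13) (nat_lit 12))
    (@En.i (nat_lit 6863) (nat_lit 14) (nat_lit 8))
    (@En.i (nat_lit 9876) (nat_lit 11) (nat_lit 11))
    (@En.n l28 (nat_lit 7298) (nat_lit 15) (nat_lit 2))))
  (@Cl.mk (nat_lit 0x30008000c000c0006000a00040004000c0008000b00060004000d000a0005) (nat_lit 0x4310100a5800260) (nat_lit 16) Lb.e (@T16.mk En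
    (@En.n l1098 (nat_lit 3192) (nat_lit 0) (nat_lit 5))
    (@En.n l32922 (nat_lit 9464) (nat_lit 14) (nat_lit 10))
    (@En.n l3082 (nat_lit 4522) (nat_lit 2) (nat_lit 13))
    (@En.n l32814 (nat_lit 8609) (nat_lit 3) (nat_lit 4))
    (@En.i (nat_lit 10009) (nat_lit 4) (nat_lit 6))
    (@En.n l17147 (nat_lit 7777) (nat_lit 7) (nat_lit 11))
    (@En.n l27259 (nat_lit 7359) (nat_lit 6) (nat_lit 8))
    (@En.n l134 (nat_lit 9952) (nat_lit 8) (nat_lit 12))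
    (@En.n l11 (nat_lit 10608) (nat_lit 12) (nat_lit 4))
    (@En.n l28435 (nat_lit 10444) (nat_lit 9) (nat_lit 4))
    (@En.i (nat_lit 7290) (nat_lit 0) (nat_lit 10))
    (@En.n l25680 (nat_lit 10403) (nat_lit 1) (nat_lit 6))
    (@En.n l32289 (nat_lit 7297) (nat_lit 4) (nat_lit 12))
    (@En.n l26668 (nat_lit 9197) (nat_lit 7) (nat_lit 12))
    (@En.n l14253 (nat_lit 7300) (nat_lit 4) (nat_lit 8))
    (@En.n l32923 (nat_lit 7302) (nat_lit 15) (nat_lit 3))))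
  (@Cl.mk (nat_lit 0x40004000b0008000c000b000700050004000b00050008000c000c00050009) (nat_lit 0x94090009032101) (nat_lit 16) Lb.e (@T16.mk En
    (@En.n l14276 (nat_lit 7294) (nat_lit 0) (nat_lit 9))
    (@En.n l936 (nat_lit 10401) (nat_lit 1) (nat_lit 5))
    (@En.n l55 (nat_lit 7298) (nat_lit 4) (nat_lit 12))
    (@En.i (nat_lit 9175) (nat_lit 7) (nat_lit 12))
    (@En.n l2202 (nat_lit 8718) (nat_lit 10) (nat_lit 8))
    (@En.n l26600 (nat_lit 3194) (nat_lit 5) (nat_lit 5))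
    (@En.n l669 (nat_lit 9463) (nat_lit 0) (nat_lit 11))
    (@En.n l18 (nat_lit 10006) (nat_lit 12) (nat_lit 4))
    (@En.n l30132 (nat_lit 8608) (nat_lit 0) (nat_lit 5))
    (@En.i (nat_lit 8140) (nat_lit 1) (nat_lit 7))
    (@En.n l27597 (nat_lit 7299) (nat_lit 5) (nat_lit 11))
    (@En.n l4991 (nat_lit 8672) (nat_lit 7) (nat_lit 12))
    (@En.n l14670 (nat_lit 6866) (nat_lit 13) (nat_lit 8))
    (@En.n l2940 (nat_lit 9955) (nat_lit 14) (nat_lit 11))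
    (@En.n l3625 (nat_lit 10609) (nat_lit 12) (nat_lit 4))
    (@En.n l3535 (nat_lit 10442) (nat_lit 0) (nat_lit 4))))
  (@Cl.mk (nat_lit 0x2000c0008000c00070004000d0004000c00030008000c00040009000e0004) (nat_lit 0xa40009000410250) (nat_lit 16) Lb.e (@T16.mk En
    (@En.i (nat_lit 7302) (nat_lit 9) (nat_lit 4))
    (@En.i (nat_lit 6317) (nat_lit 1) (nat_lit 14))
    (@En.n l10976 (nat_lit 7292) (nat_lit 2) (nat_lit 9))
    (@En.n l3506 (nat_lit 9450) (nat_lit 3) (nat_lit 4))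
    (@En.n l10976 (nat_lit 4335) (nat_lit 0) (nat_lit 12))
    (@En.n l3506 (nat_lit 7455) (nat_lit 5) (nat_lit 8))
    (@En.n l34396 (nat_lit 7297) (nat_lit 6) (nat_lit 3))
    (@En.n l10976 (nat_lit 8115) (nat_lit 0) (nat_lit 12))
    (@En.n l4538 (nat_lit 7298) (nat_lit 8) (nat_lit 4))
    (@En.n l18240 (nat_lit 4519) (nat_lit 10) (nat_lit 13))
    (@En.n l3498 (nat_lit 8620) (nat_lit 10) (nat_lit 4))
    (@En.n l34014 (nat_lit 10010) (nat_lit 12) (nat_lit 7))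
    (@En.i (nat_lit 8305) (nat_lit 13) (nat_lit 12))
    (@En.n l564 (nat_lit 9534) (nat_lit 14) (nat_lit 8))
    (@En.n l4003 (nat_lit 9950) (nat_lit 8) (nat_lit 12))
    (@En.n l17 (nat_lit 7301) (nat_lit 15) (nat_lit 2))))
  (@Cl.mk (nat_lit 0x30008000c000c0005000a00040004000c0008000c00060004000d0004000b) (nat_lit 0x4020100a5500805) (nat_lit 16) Lb.e (@T16.mk En
    (@En.n l10976 (nat_lit 11555) (nat_lit 0) (nat_lit 11))
    (@En.n l4538 (nat_lit 7300) (nat_lit 7) (nat_lit 4))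
    (@En.n l18240 (nat_lit 4520) (nat_lit 2) (nat_lit 13))
    (@En.n l34013 (nat_lit 8607) (nat_lit 3) (nat_lit 4))
    (@En.n l34014 (nat_lit 10007) (nat_lit 4) (nat_lit 6))
    (@En.i (nat_lit 8595) (nat_lit 1) (nat_lit 12))
    (@En.n l34015 (nat_lit 9536) (nat_lit 6) (nat_lit 8))
    (@En.n l34016 (nat_lit 9951) (nat_lit 8) (nat_lit 12))
    (@En.n l34017 (nat_lit 10610) (nat_lit 12) (nat_lit 4))
    (@En.i (nat_lit 10445) (nat_lit 9) (nat_lit 4))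
    (@En.n l19662 (nat_lit 7202) (nat_lit 0) (nat_lit 10))
    (@En.n l34018 (nat_lit 10692) (nat_lit 1) (nat_lit 5))
    (@En.n l61 (nat_lit 7301) (nat_lit 4) (nat_lit 12))
    (@En.n l10976 (nat_lit 9195) (nat_lit 7) (nat_lit 12))
    (@En.n l18222 (nat_lit 8704) (nat_lit 4) (nat_lit 8))
    (@En.n l21922 (nat_lit 7299) (nat_lit 15) (nat_lit 3))))
  (@Cl.mk (nat_lit 0x2000c0007000c000c0004000c00040004000c00040009000d0004000e0003) (nat_lit 0x9038060010230b0) (nat_lit 16) Lb.e (@T16.mk En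
    (@En.i (nat_lit 7207) (nat_lit 15) (nat_lit 3))
    (@En.i (nat_lit 13334) (nat_lit 0) (nat_lit 14))
    (@En.i (nat_lit 7131) (nat_lit 2) (nat_lit 4))
    (@En.i (nat_lit 8304) (nat_lit 4) (nat_lit 13))
    (@En.n l2213 (nat_lit 3786) (nat_lit 4) (nat_lit 9))
    (@En.i (nat_lit 7444) (nat_lit 5) (nat_lit 4))
    (@En.n l4817 (nat_lit 7301) (nat_lit 7) (nat_lit 12))
    (@En.n l152 (nat_lit 4753) (nat_lit 12) (nat_lit 4))
    (@En.n l3851 (nat_lit 4348) (nat_lit 8) (nat_lit 4))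
    (@En.n l617 (nat_lit 4743) (nat_lit 10) (nat_lit 12))
    (@En.i (nat_lit 7418) (nat_lit 10) (nat_lit 4))
    (@En.n l3536 (nat_lit 7448) (nat_lit 4) (nat_lit 12))
    (@En.n l4817 (nat_lit 7341) (nat_lit 13) (nat_lit 12))
    (@En.i (nat_lit 7221) (nat_lit 14) (nat_lit 7))
    (@En.i (nat_lit 11976) (nat_lit 14) (nat_lit 12))
    (@En.n l50 (nat_lit 7303) (nat_lit 15) (nat_lit 2))))
  (@Cl.mk (nat_lit 0x2000b000b000a0007000b00050005000d000600050003000d0009000e0003) (nat_lit 0x96204006000b150) (nat_lit 16) Lb.e (@T16.mk En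
    (@En.n l11217 (nat_lit 3056) (nat_lit 15) (nat_lit 3))
    (@En.i (nat_lit 13192) (nat_lit 0) (nat_lit 14))
    (@En.n l5 (nat_lit 4442) (nat_lit 2) (nat_lit 9))
    (@En.n l14808 (nat_lit 7956) (nat_lit 2) (nat_lit 13))
    (@En.n l10821 (nat_lit 7296) (nat_lit 4) (nat_lit 3))
    (@En.n l282 (nat_lit 4167) (nat_lit 5) (nat_lit 5))
    (@En.i (nat_lit 344) (nat_lit 6) (nat_lit 6))
    (@En.n l2747 (nat_lit 7292) (nat_lit 8) (nat_lit 13))
    (@En.n l5584 (nat_lit 3054) (nat_lit 11) (nat_lit 5))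
    (@En.n l152 (nat_lit 4576) (nat_lit 9) (nat_lit 5))
    (@En.n l14097 (nat_lit 2996) (nat_lit 11) (nat_lit 11))
    (@En.n l19366 (nat_lit 7777) (nat_lit 12) (nat_lit 7))
    (@En.n l55 (nat_lit 6994) (nat_lit 13) (nat_lit 10))
    (@En.n l619 (nat_lit 7306) (nat_lit 14) (nat_lit 11))
    (@En.i (nat_lit 10624) (nat_lit 14) (nat_lit 11))
    (@En.n l17 (nat_lit 7304) (nat_lit 15) (nat_lit 2))))
  (@Cl.mk (nat_lit 0x2000d000700060003000d000d000b00030003000b00090005000a000e0005) (nat_lit 0xa0008a200510380) (nat_lit 16) Lb.e (@T16.mk En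
    (@En.i (nat_lit 3056) (nat_lit 8) (nat_lit 5))
    (@En.i (nat_lit 4096) (nat_lit 1) (nat_lit 14))
    (@En.n l11259 (nat_lit 2727) (nat_lit 2) (nat_lit 10))
    (@En.n l3503 (nat_lit 8316) (nat_lit 3) (nat_lit 5))
    (@En.n l32613 (nat_lit 2212) (nat_lit 4) (nat_lit 9))
    (@En.n l35448 (nat_lit 11469) (nat_lit 14) (nat_lit 11))
    (@En.n l6962 (nat_lit 7312) (nat_lit 13) (nat_lit 3))
    (@En.n l5368 (nat_lit 7306) (nat_lit 0) (nat_lit 3))
    (@En.n l14921 (nat_lit 6295) (nat_lit 0) (nat_lit 11))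
    (@En.n l3471 (nat_lit 7306) (nat_lit 3) (nat_lit 13))
    (@En.i (nat_lit 7952) (nat_lit 11) (nat_lit 13))
    (@En.n l4121 (nat_lit 7308) (nat_lit 11) (nat_lit 3))
    (@En.n l18 (nat_lit 5145) (nat_lit 0) (nat_lit 6))
    (@En.n l32613 (nat_lit 1051) (nat_lit 14) (nat_lit 7))
    (@En.n l17331 (nat_lit 7226) (nat_lit 7) (nat_lit 13))
    (@En.n l7 (nat_lit 7305) (nat_lit 15) (nat_lit 2))))
  (@Cl.mk (nat_lit 0x2000b00090006000a000e00050002000d000700060003000d000a000e0003) (nat_lit 0x5103800a0009150) (nat_lit 16) Lb.e (@T16.mk En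
    (@En.n l2843 (nat_lit 7305) (nat_lit 7) (nat_lit 3))
    (@En.i (nat_lit 13485) (nat_lit 0) (nat_lit 14))
    (@En.n l10833 (nat_lit 4443) (nat_lit 2) (nat_lit 10))
    (@En.n l12412 (nat_lit 7953) (nat_lit 11) (nat_lit 13))
    (@En.n l128 (nat_lit 7307) (nat_lit 4) (nat_lit 3))
    (@En.n l24352 (nat_lit 5147) (nat_lit 5) (nat_lit 6))
    (@En.n l2603 (nat_lit 1052) (nat_lit 14) (nat_lit 7))
    (@En.n l3886 (nat_lit 7375) (nat_lit 8) (nat_lit 13))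
    (@En.n l11 (nat_lit 7306) (nat_lit 8) (nat_lit 2))
    (@En.n l117 (nat_lit 7304) (nat_lit 9) (nat_lit 5))
    (@En.n l10833 (nat_lit 4094) (nat_lit 11) (nat_lit 14))
    (@En.n l4750 (nat_lit 2995) (nat_lit 2) (nat_lit 10))
    (@En.n l10833 (nat_lit 8312) (nat_lit 13) (nat_lit 6))
    (@En.i (nat_lit 2219) (nat_lit 14) (nat_lit 9))
    (@En.n l936 (nat_lit 11470) (nat_lit 14) (nat_lit 11))
    (@En.n l17 (nat_lit 7306) (nat_lit 15) (nat_lit 2))))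
  (@Cl.mk (nat_lit 0x2000b00080006000b000e00050002000d000500080003000d000a000e0003) (nat_lit 0x5608800a030a030) (nat_lit 16) Lb.e (@T16.mk En
    (@En.n l28 (nat_lit 7308) (nat_lit 7) (nat_lit 3))
    (@En.n l329 (nat_lit 13479) (nat_lit 0) (nat_lit 14))
    (@En.i (nat_lit 7682) (nat_lit 2) (nat_lit 10))
    (@En.n l10176 (nat_lit 9977) (nat_lit 11) (nat_lit 13))
    (@En.n l10830 (nat_lit 7306) (nat_lit 4) (nat_lit 3))
    (@En.n l1219 (nat_lit 1890) (nat_lit 5) (nat_lit 8))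
    (@En.n l10831 (nat_lit 7309) (nat_lit 14) (nat_lit 5))
    (@En.n l10832 (nat_lit 7239) (nat_lit 8) (nat_lit 13))
    (@En.n l17 (nat_lit 7307) (nat_lit 8) (nat_lit 2))
    (@En.n l10832 (nat_lit 7296) (nat_lit 9) (nat_lit 5))
    (@En.i (nat_lit 4107) (nat_lit 4) (nat_lit 14))
    (@En.n l12 (nat_lit 7317) (nat_lit 2) (nat_lit 11))
    (@En.i (nat_lit 8313) (nat_lit 13) (nat_lit 6))
    (@En.n l1044 (nat_lit 2141) (nat_lit 14) (nat_lit 8))
    (@En.n l564 (nat_lit 10618) (nat_lit 14) (nat_lit 11))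
    (@En.n l7 (nat_lit 7307) (nat_lit 15) (nat_lit 2))))
  (@Cl.mk (nat_lit 0x2000d000500080003000d000d000b00030003000b00080005000b000e0005) (nat_lit 0xa030ab200550280) (nat_lit 16) Lb.e (@T16.mk En
    (@En.n l9775 (nat_lit 3061) (nat_lit 8) (nat_lit 5))
    (@En.i (nat_lit 4104) (nat_lit 4) (nat_lit 14))
    (@En.n l12 (nat_lit 7316) (nat_lit 2) (nat_lit 11))
    (@En.i (nat_lit 8315) (nat_lit 3) (nat_lit 5))
    (@En.n l1044 (nat_lit 2148) (nat_lit 4) (nat_lit 8))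
    (@En.n l564 (nat_lit 10619) (nat_lit 14) (nat_lit 11))
    (@En.n l19802 (nat_lit 7311) (nat_lit 13) (nat_lit 3))
    (@En.i (nat_lit 7307) (nat_lit 0) (nat_lit 3))
    (@En.n l4380 (nat_lit 6293) (nat_lit 0) (nat_lit 11))
    (@En.n l134 (nat_lit 7307) (nat_lit 3) (nat_lit 13))
    (@En.n l11 (nat_lit 10776) (nat_lit 11) (nat_lit 13))
    (@En.n l5240 (nat_lit 7305) (nat_lit 11) (nat_lit 3))
    (@En.n l1219 (nat_lit 1891) (nat_lit 0) (nat_lit 8))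
    (@En.n l19803 (nat_lit 7310) (nat_lit 14) (nat_lit 5))
    (@En.n l9775 (nat_lit 7231) (nat_lit 7) (nat_lit 13))
    (@En.n l17 (nat_lit 7308) (nat_lit 15) (nat_lit 2))))
  (@Cl.mk (nat_lit 0x2000500080006000d000a000e00030002000a00080006000b000a000e0006) (nat_lit 0x20909005609490) (nat_lit 16) Lb.e (@T16.mk En
    (@En.n l21153 (nat_lit 7334) (nat_lit 8) (nat_lit 6))
    (@En.n l23446 (nat_lit 7307) (nat_lit 10) (nat_lit 14))
    (@En.n l24161 (nat_lit 7306) (nat_lit 11) (nat_lit 10))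
    (@En.n l3 (nat_lit 7335) (nat_lit 3) (nat_lit 11))
    (@En.n l24162 (nat_lit 8314) (nat_lit 4) (nat_lit 6))
    (@En.n l24163 (nat_lit 2180) (nat_lit 5) (nat_lit 8))
    (@En.n l24164 (nat_lit 10840) (nat_lit 7) (nat_lit 10))
    (@En.n l28 (nat_lit 7309) (nat_lit 7) (nat_lit 2))
    (@En.n l24165 (nat_lit 7310) (nat_lit 8) (nat_lit 3))
    (@En.n l24166 (nat_lit 13481) (nat_lit 0) (nat_lit 14))
    (@En.n l23241 (nat_lit 7683) (nat_lit 11) (nat_lit 10))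
    (@En.i (nat_lit 9973) (nat_lit 12) (nat_lit 13))
    (@En.n l13685 (nat_lit 5144) (nat_lit 13) (nat_lit 6))
    (@En.n l24167 (nat_lit 1887) (nat_lit 14) (nat_lit 8))
    (@En.n l24168 (nat_lit 4611) (nat_lit 13) (nat_lit 5))
    (@En.n l18 (nat_lit 7309) (nat_lit 15) (nat_lit 2))))
  (@Cl.mk (nat_lit 0x2000500080006000d000d000b00030003000a00080005000b000a000e0006) (nat_lit 0x10aa2005502490) (nat_lit 16) Lb.e (@T16.mk En
    (@En.n l22019 (nat_lit 7314) (nat_lit 7) (nat_lit 6))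
    (@En.n l28894 (nat_lit 7308) (nat_lit 1) (nat_lit 14))
    (@En.n l22019 (nat_lit 7305) (nat_lit 2) (nat_lit 10))
    (@En.n l3749 (nat_lit 7315) (nat_lit 3) (nat_lit 11))
    (@En.n l28895 (nat_lit 8317) (nat_lit 4) (nat_lit 5))
    (@En.i (nat_lit 2181) (nat_lit 5) (nat_lit 8))
    (@En.n l6446 (nat_lit 10838) (nat_lit 7) (nat_lit 10))
    (@En.n l18 (nat_lit 7313) (nat_lit 7) (nat_lit 3))
    (@En.n l28896 (nat_lit 7309) (nat_lit 8) (nat_lit 3))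
    (@En.n l28897 (nat_lit 6294) (nat_lit 10) (nat_lit 11))
    (@En.n l28898 (nat_lit 7309) (nat_lit 11) (nat_lit 13))
    (@En.n l2680 (nat_lit 9976) (nat_lit 12) (nat_lit 13))
    (@En.n l2669 (nat_lit 5142) (nat_lit 13) (nat_lit 6))
    (@En.n l1643 (nat_lit 1260) (nat_lit 14) (nat_lit 8))
    (@En.n l2682 (nat_lit 4609) (nat_lit 13) (nat_lit 5))
    (@En.n l11 (nat_lit 7310) (nat_lit 15) (nat_lit 2))))
  (@Cl.mk (nat_lit 0x2000c0003000b00080004000b000e00050002000d000500080003000e000d) (nat_lit 0x20550270090306b) (nat_lit 16) Lb.e (@T16.mk En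
    (@En.n l11301 (nat_lit 7308) (nat_lit 10) (nat_lit 13))
    (@En.n l11302 (nat_lit 8943) (nat_lit 1) (nat_lit 14))
    (@En.n l170 (nat_lit 7312) (nat_lit 2) (nat_lit 3))
    (@En.n l3303 (nat_lit 1898) (nat_lit 3) (nat_lit 8))
    (@En.n l159 (nat_lit 7313) (nat_lit 14) (nat_lit 5))
    (@En.n l11303 (nat_lit 7233) (nat_lit 6) (nat_lit 13))
    (@En.n l107 (nat_lit 7311) (nat_lit 6) (nat_lit 2))
    (@En.n l11304 (nat_lit 7319) (nat_lit 7) (nat_lit 5))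
    (@En.n l11305 (nat_lit 4108) (nat_lit 4) (nat_lit 14))
    (@En.n l11306 (nat_lit 7322) (nat_lit 10) (nat_lit 11))
    (@En.n l11305 (nat_lit 8321) (nat_lit 10) (nat_lit 4))
    (@En.i (nat_lit 2187) (nat_lit 4) (nat_lit 8))
    (@En.n l11307 (nat_lit 11456) (nat_lit 13) (nat_lit 11))
    (@En.n l3306 (nat_lit 7308) (nat_lit 6) (nat_lit 3))
    (@En.n l5995 (nat_lit 5456) (nat_lit 0) (nat_lit 12))
    (@En.n l50 (nat_lit 7311) (nat_lit 15) (nat_lit 2))))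
noncomputable def a457 : T16 Cl := @T16.mk Cl
  (@Cl.mk (nat_lit 0x2000c0003000b00090004000a000e00050002000d000700060003000e000d) (nat_lit 0x205103700900069) (nat_lit 16) Lb.e (@T16.mk En
    (@En.n l617 (nat_lit 7305) (nat_lit 10) (nat_lit 13))
    (@En.i (nat_lit 7352) (nat_lit 1) (nat_lit 14))
    (@En.n l4806 (nat_lit 7311) (nat_lit 2) (nat_lit 3))
    (@En.n l1252 (nat_lit 5146) (nat_lit 3) (nat_lit 6))
    (@En.n l1501 (nat_lit 1054) (nat_lit 14) (nat_lit 7))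
    (@En.n l7025 (nat_lit 7374) (nat_lit 6) (nat_lit 13))
    (@En.n l7 (nat_lit 7312) (nat_lit 6) (nat_lit 2))
    (@En.n l28 (nat_lit 7318) (nat_lit 7) (nat_lit 5))
    (@En.n l617 (nat_lit 4103) (nat_lit 9) (nat_lit 14))
    (@En.i (nat_lit 2728) (nat_lit 10) (nat_lit 10))
    (@En.n l562 (nat_lit 8323) (nat_lit 10) (nat_lit 4))
    (@En.n l1501 (nat_lit 2211) (nat_lit 4) (nat_lit 9))
    (@En.n l1252 (nat_lit 11465) (nat_lit 13) (nat_lit 11))
    (@En.n l6680 (nat_lit 7305) (nat_lit 6) (nat_lit 3))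
    (@En.i (nat_lit 821) (nat_lit 0) (nat_lit 12))
    (@En.n l3 (nat_lit 7312) (nat_lit 15) (nat_lit 2))))
  (@Cl.mk (nat_lit 0x2000500080006000e000d0002000c0003000a00080004000b000a000e0006) (nat_lit 0x105b0105502480) (nat_lit 16) Lb.e (@T16.mk En
    (@En.n l2675 (nat_lit 7347) (nat_lit 6) (nat_lit 6))
    (@En.n l180 (nat_lit 7311) (nat_lit 8) (nat_lit 14))
    (@En.n l5011 (nat_lit 7312) (nat_lit 9) (nat_lit 10))
    (@En.i (nat_lit 7346) (nat_lit 3) (nat_lit 11))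
    (@En.n l20240 (nat_lit 8322) (nat_lit 4) (nat_lit 4))
    (@En.i (nat_lit 2182) (nat_lit 5) (nat_lit 8))
    (@En.n l3213 (nat_lit 11450) (nat_lit 13) (nat_lit 10))
    (@En.i (nat_lit 7310) (nat_lit 7) (nat_lit 3))
    (@En.n l2680 (nat_lit 5457) (nat_lit 9) (nat_lit 12))
    (@En.n l50 (nat_lit 7313) (nat_lit 9) (nat_lit 2))
    (@En.n l396 (nat_lit 7310) (nat_lit 11) (nat_lit 13))
    (@En.n l2680 (nat_lit 8945) (nat_lit 12) (nat_lit 14))
    (@En.n l2669 (nat_lit 5143) (nat_lit 13) (nat_lit 6))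
    (@En.n l1643 (nat_lit 1261) (nat_lit 14) (nat_lit 8))
    (@En.n l2682 (nat_lit 4613) (nat_lit 13) (nat_lit 5))
    (@En.n l11 (nat_lit 7313) (nat_lit 15) (nat_lit 2))))
  (@Cl.mk (nat_lit 0x30003000a000a00090006000c000b00060006000400070005000d000d000a) (nat_lit 0x8660a500000782) (nat_lit 16) Lb.e (@T16.mk En
    (@En.n l15548 (nat_lit 7144) (nat_lit 0) (nat_lit 10))
    (@En.n l12851 (nat_lit 7334) (nat_lit 3) (nat_lit 13))
    (@En.n l15549 (nat_lit 9964) (nat_lit 2) (nat_lit 13))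
    (@En.n l15550 (nat_lit 5139) (nat_lit 3) (nat_lit 5))
    (@En.n l15551 (nat_lit 1238) (nat_lit 11) (nat_lit 7))
    (@En.n l15552 (nat_lit 7282) (nat_lit 5) (nat_lit 4))
    (@En.n l15553 (nat_lit 3058) (nat_lit 10) (nat_lit 6))
    (@En.n l15554 (nat_lit 7294) (nat_lit 7) (nat_lit 6))
    (@En.i (nat_lit 3056) (nat_lit 9) (nat_lit 11))
    (@En.n l15555 (nat_lit 7332) (nat_lit 10) (nat_lit 12))
    (@En.n l15556 (nat_lit 8320) (nat_lit 11) (nat_lit 6))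
    (@En.n l15557 (nat_lit 7231) (nat_lit 12) (nat_lit 9))
    (@En.n l15558 (nat_lit 7310) (nat_lit 6) (nat_lit 10))
    (@En.n l15548 (nat_lit 11070) (nat_lit 14) (nat_lit 10))
    (@En.n l15559 (nat_lit 7347) (nat_lit 13) (nat_lit 3))
    (@En.n l14014 (nat_lit 7334) (nat_lit 0) (nat_lit 3))))
  (@Cl.mk (nat_lit 0x20005000b00080007000d000d000500030003000b0008000b0009000e0005) (nat_lit 0x62023000661380) (nat_lit 16) Lb.e (@T16.mk En
    (@En.n l2183 (nat_lit 7332) (nat_lit 8) (nat_lit 5))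
    (@En.n l14674 (nat_lit 7316) (nat_lit 1) (nat_lit 14))
    (@En.n l14674 (nat_lit 3037) (nat_lit 2) (nat_lit 9))
    (@En.n l6359 (nat_lit 2566) (nat_lit 3) (nat_lit 11))
    (@En.i (nat_lit 1851) (nat_lit 4) (nat_lit 8))
    (@En.n l649 (nat_lit 10843) (nat_lit 6) (nat_lit 11))
    (@En.n l7126 (nat_lit 7346) (nat_lit 6) (nat_lit 3))
    (@En.n l7392 (nat_lit 7335) (nat_lit 7) (nat_lit 3))
    (@En.n l14675 (nat_lit 6885) (nat_lit 8) (nat_lit 5))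
    (@En.n l14676 (nat_lit 7335) (nat_lit 10) (nat_lit 13))
    (@En.n l6359 (nat_lit 9974) (nat_lit 11) (nat_lit 13))
    (@En.n l77 (nat_lit 1161) (nat_lit 12) (nat_lit 7))
    (@En.n l8361 (nat_lit 7310) (nat_lit 13) (nat_lit 8))
    (@En.i (nat_lit 7949) (nat_lit 14) (nat_lit 11))
    (@En.i (nat_lit 4610) (nat_lit 13) (nat_lit 5))
    (@En.n l17 (nat_lit 7315) (nat_lit 15) (nat_lit 2))))
  (@Cl.mk (nat_lit 0x2000c0005000b00080004000d000d000500030003000c0008000b000e0004) (nat_lit 0x90740a300066170) (nat_lit 16) Lb.e (@T16.mk En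
    (@En.n l8332 (nat_lit 7321) (nat_lit 9) (nat_lit 4))
    (@En.i (nat_lit 3284) (nat_lit 4) (nat_lit 14))
    (@En.n l243 (nat_lit 2570) (nat_lit 7) (nat_lit 11))
    (@En.n l8333 (nat_lit 2140) (nat_lit 3) (nat_lit 8))
    (@En.n l564 (nat_lit 10621) (nat_lit 5) (nat_lit 12))
    (@En.n l237 (nat_lit 7322) (nat_lit 13) (nat_lit 3))
    (@En.i (nat_lit 7317) (nat_lit 6) (nat_lit 3))
    (@En.n l55 (nat_lit 6886) (nat_lit 0) (nat_lit 5))
    (@En.n l134 (nat_lit 7317) (nat_lit 9) (nat_lit 13))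
    (@En.n l8334 (nat_lit 8913) (nat_lit 10) (nat_lit 13))
    (@En.n l2855 (nat_lit 2727) (nat_lit 10) (nat_lit 4))
    (@En.i (nat_lit 7308) (nat_lit 12) (nat_lit 8))
    (@En.n l5090 (nat_lit 7539) (nat_lit 13) (nat_lit 11))
    (@En.n l8335 (nat_lit 7315) (nat_lit 14) (nat_lit 5))
    (@En.n l8332 (nat_lit 7235) (nat_lit 8) (nat_lit 12))
    (@En.n l17 (nat_lit 7316) (nat_lit 15) (nat_lit 2))))
  (@Cl.mk (nat_lit 0x2000c0005000c00080004000d0004000e00030002000c0008000b000e0004) (nat_lit 0x906402030066770) (nat_lit 16) Lb.e (@T16.mk En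
    (@En.n l18639 (nat_lit 7340) (nat_lit 10) (nat_lit 4))
    (@En.i (nat_lit 4100) (nat_lit 4) (nat_lit 14))
    (@En.n l2813 (nat_lit 3541) (nat_lit 7) (nat_lit 11))
    (@En.n l4112 (nat_lit 2139) (nat_lit 14) (nat_lit 8))
    (@En.n l564 (nat_lit 11788) (nat_lit 5) (nat_lit 12))
    (@En.n l7 (nat_lit 7317) (nat_lit 5) (nat_lit 2))
    (@En.n l28 (nat_lit 7316) (nat_lit 6) (nat_lit 3))
    (@En.n l18640 (nat_lit 13483) (nat_lit 0) (nat_lit 14))
    (@En.n l11 (nat_lit 6893) (nat_lit 8) (nat_lit 4))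
    (@En.n l10176 (nat_lit 8815) (nat_lit 10) (nat_lit 13))
    (@En.n l4112 (nat_lit 2995) (nat_lit 10) (nat_lit 4))
    (@En.i (nat_lit 7307) (nat_lit 5) (nat_lit 8))
    (@En.n l18640 (nat_lit 7535) (nat_lit 7) (nat_lit 12))
    (@En.n l10831 (nat_lit 7335) (nat_lit 14) (nat_lit 5))
    (@En.n l2813 (nat_lit 7237) (nat_lit 9) (nat_lit 12))
    (@En.n l17 (nat_lit 7317) (nat_lit 15) (nat_lit 2))))
  (@Cl.mk (nat_lit 0x2000b0003000b000b000a0005000b00050005000d000600050003000e000d) (nat_lit 0x209620200600091) (nat_lit 16) Lb.e (@T16.mk En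
    (@En.n l6904 (nat_lit 3056) (nat_lit 2) (nat_lit 13))
    (@En.i (nat_lit 7350) (nat_lit 1) (nat_lit 14))
    (@En.n l4212 (nat_lit 7319) (nat_lit 2) (nat_lit 3))
    (@En.n l2730 (nat_lit 4153) (nat_lit 3) (nat_lit 5))
    (@En.n l7 (nat_lit 345) (nat_lit 4) (nat_lit 6))
    (@En.n l11381 (nat_lit 7219) (nat_lit 6) (nat_lit 13))
    (@En.n l4216 (nat_lit 3052) (nat_lit 6) (nat_lit 5))
    (@En.i (nat_lit 4583) (nat_lit 7) (nat_lit 5))
    (@En.i (nat_lit 2720) (nat_lit 9) (nat_lit 11))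
    (@En.n l2856 (nat_lit 8325) (nat_lit 9) (nat_lit 5))
    (@En.n l4380 (nat_lit 6992) (nat_lit 11) (nat_lit 10))
    (@En.n l134 (nat_lit 7312) (nat_lit 12) (nat_lit 11))
    (@En.n l11 (nat_lit 10350) (nat_lit 13) (nat_lit 11))
    (@En.n l6909 (nat_lit 3056) (nat_lit 14) (nat_lit 3))
    (@En.i (nat_lit 5461) (nat_lit 0) (nat_lit 11))
    (@En.n l3 (nat_lit 7318) (nat_lit 15) (nat_lit 2))))
  (@Cl.mk (nat_lit 0x2000b0003000b000b00090005000c00050005000d000400070003000e000d) (nat_lit 0x209670900600091) (nat_lit 16) Lb.e (@T16.mk En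
    (@En.n l16333 (nat_lit 3061) (nat_lit 2) (nat_lit 13))
    (@En.i (nat_lit 8936) (nat_lit 1) (nat_lit 14))
    (@En.n l1311 (nat_lit 7318) (nat_lit 2) (nat_lit 3))
    (@En.n l1082 (nat_lit 2908) (nat_lit 11) (nat_lit 7))
    (@En.n l3745 (nat_lit 7347) (nat_lit 4) (nat_lit 4))
    (@En.n l3588 (nat_lit 7217) (nat_lit 6) (nat_lit 13))
    (@En.n l152 (nat_lit 3057) (nat_lit 6) (nat_lit 5))
    (@En.n l117 (nat_lit 4581) (nat_lit 7) (nat_lit 5))
    (@En.n l725 (nat_lit 7320) (nat_lit 9) (nat_lit 12))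
    (@En.n l2364 (nat_lit 8324) (nat_lit 9) (nat_lit 5))
    (@En.n l1003 (nat_lit 7380) (nat_lit 11) (nat_lit 9))
    (@En.n l16334 (nat_lit 7311) (nat_lit 12) (nat_lit 11))
    (@En.n l1003 (nat_lit 10348) (nat_lit 13) (nat_lit 11))
    (@En.n l3588 (nat_lit 3061) (nat_lit 14) (nat_lit 3))
    (@En.i (nat_lit 5187) (nat_lit 0) (nat_lit 11))
    (@En.n l50 (nat_lit 7319) (nat_lit 15) (nat_lit 2))))
  (@Cl.mk (nat_lit 0x200060003000c000c0009000c00040004000c0004000a00070004000e000d) (nat_lit 0x8768004080093) (nat_lit 16) Lb.e (@T16.mk En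
    (@En.n l6676 (nat_lit 7321) (nat_lit 2) (nat_lit 13))
    (@En.n l2411 (nat_lit 8937) (nat_lit 1) (nat_lit 14))
    (@En.n l6586 (nat_lit 2720) (nat_lit 2) (nat_lit 4))
    (@En.i (nat_lit 7319) (nat_lit 3) (nat_lit 7))
    (@En.n l2413 (nat_lit 8666) (nat_lit 4) (nat_lit 10))
    (@En.n l1133 (nat_lit 7324) (nat_lit 5) (nat_lit 4))
    (@En.n l6677 (nat_lit 7213) (nat_lit 7) (nat_lit 12))
    (@En.n l152 (nat_lit 7323) (nat_lit 7) (nat_lit 4))
    (@En.n l2413 (nat_lit 7326) (nat_lit 8) (nat_lit 4))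
    (@En.n l6678 (nat_lit 3555) (nat_lit 6) (nat_lit 12))
    (@En.i (nat_lit 7385) (nat_lit 11) (nat_lit 9))
    (@En.n l2418 (nat_lit 7322) (nat_lit 12) (nat_lit 12))
    (@En.i (nat_lit 10347) (nat_lit 13) (nat_lit 12))
    (@En.n l6679 (nat_lit 7321) (nat_lit 14) (nat_lit 3))
    (@En.n l2413 (nat_lit 6746) (nat_lit 0) (nat_lit 6))
    (@En.n l50 (nat_lit 7320) (nat_lit 15) (nat_lit 2))))
  (@Cl.mk (nat_lit 0x30003000c000c0009000c00040004000c0004000b00070004000d000d0005) (nat_lit 0xa7780080800240) (nat_lit 16) Lb.e (@T16.mk En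
    (@En.n l10181 (nat_lit 2311) (nat_lit 0) (nat_lit 5))
    (@En.n l1767 (nat_lit 7340) (nat_lit 3) (nat_lit 13))
    (@En.n l13941 (nat_lit 8806) (nat_lit 2) (nat_lit 13))
    (@En.n l13942 (nat_lit 2723) (nat_lit 3) (nat_lit 4))
    (@En.n l1769 (nat_lit 3061) (nat_lit 4) (nat_lit 7))
    (@En.n l13943 (nat_lit 8672) (nat_lit 1) (nat_lit 11))
    (@En.n l13944 (nat_lit 7332) (nat_lit 6) (nat_lit 4))
    (@En.i (nat_lit 7216) (nat_lit 8) (nat_lit 12))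
    (@En.n l11433 (nat_lit 3060) (nat_lit 12) (nat_lit 4))
    (@En.n l13945 (nat_lit 7327) (nat_lit 9) (nat_lit 4))
    (@En.n l9858 (nat_lit 3547) (nat_lit 6) (nat_lit 12))
    (@En.n l13946 (nat_lit 7382) (nat_lit 12) (nat_lit 9))
    (@En.n l13947 (nat_lit 7316) (nat_lit 4) (nat_lit 12))
    (@En.n l13948 (nat_lit 10631) (nat_lit 14) (nat_lit 12))
    (@En.n l13949 (nat_lit 7320) (nat_lit 13) (nat_lit 3))
    (@En.n l4659 (nat_lit 7340) (nat_lit 0) (nat_lit 3))))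
  (@Cl.mk (nat_lit 0x200060003000c0008000b000e00040002000c0005000a00080004000e000d) (nat_lit 0x641600808407b) (nat_lit 16) Lb.e (@T16.mk En
    (@En.n l77 (nat_lit 7316) (nat_lit 9) (nat_lit 13))
    (@En.n l78 (nat_lit 8942) (nat_lit 1) (nat_lit 14))
    (@En.n l4083 (nat_lit 2728) (nat_lit 2) (nat_lit 4))
    (@En.n l4134 (nat_lit 7311) (nat_lit 3) (nat_lit 8))
    (@En.n l448 (nat_lit 7413) (nat_lit 4) (nat_lit 10))
    (@En.n l4135 (nat_lit 7346) (nat_lit 14) (nat_lit 5))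
    (@En.n l4136 (nat_lit 7236) (nat_lit 7) (nat_lit 12))
    (@En.n l17 (nat_lit 7322) (nat_lit 7) (nat_lit 2))
    (@En.n l1275 (nat_lit 7320) (nat_lit 8) (nat_lit 4))
    (@En.i (nat_lit 4109) (nat_lit 10) (nat_lit 14))
    (@En.n l78 (nat_lit 2569) (nat_lit 7) (nat_lit 11))
    (@En.n l4137 (nat_lit 2194) (nat_lit 12) (nat_lit 8))
    (@En.i (nat_lit 11458) (nat_lit 13) (nat_lit 12))
    (@En.n l28 (nat_lit 7316) (nat_lit 5) (nat_lit 3))
    (@En.n l448 (nat_lit 3467) (nat_lit 6) (nat_lit 6))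
    (@En.n l28 (nat_lit 7322) (nat_lit 15) (nat_lit 2))))
  (@Cl.mk (nat_lit 0x200060003000e000c0002000a000d0004000c0003000a00060004000e000d) (nat_lit 0xa908208080081) (nat_lit 16) Lb.e (@T16.mk En
    (@En.n l1131 (nat_lit 3060) (nat_lit 6) (nat_lit 13))
    (@En.n l889 (nat_lit 8869) (nat_lit 1) (nat_lit 14))
    (@En.n l693 (nat_lit 2721) (nat_lit 2) (nat_lit 4))
    (@En.i (nat_lit 3057) (nat_lit 3) (nat_lit 6))
    (@En.n l2268 (nat_lit 8671) (nat_lit 4) (nat_lit 10))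
    (@En.i (nat_lit 7348) (nat_lit 5) (nat_lit 3))
    (@En.i (nat_lit 4699) (nat_lit 7) (nat_lit 12))
    (@En.n l117 (nat_lit 7325) (nat_lit 7) (nat_lit 4))
    (@En.n l719 (nat_lit 3554) (nat_lit 5) (nat_lit 13))
    (@En.i (nat_lit 2944) (nat_lit 10) (nat_lit 10))
    (@En.n l3 (nat_lit 7323) (nat_lit 10) (nat_lit 2))
    (@En.i (nat_lit 7320) (nat_lit 12) (nat_lit 12))
    (@En.n l698 (nat_lit 11502) (nat_lit 1) (nat_lit 14))
    (@En.n l403 (nat_lit 3060) (nat_lit 2) (nat_lit 3))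
    (@En.n l699 (nat_lit 6747) (nat_lit 3) (nat_lit 6))
    (@En.n l50 (nat_lit 7323) (nat_lit 15) (nat_lit 2))))
  (@Cl.mk (nat_lit 0x200060003000b000b0009000c000a000500050004000a00070006000e000d) (nat_lit 0x5779400080093) (nat_lit 16) Lb.e (@T16.mk En
    (@En.n l2924 (nat_lit 7332) (nat_lit 2) (nat_lit 13))
    (@En.n l2925 (nat_lit 8933) (nat_lit 1) (nat_lit 14))
    (@En.n l18 (nat_lit 1014) (nat_lit 2) (nat_lit 6))
    (@En.n l2926 (nat_lit 7347) (nat_lit 3) (nat_lit 7))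
    (@En.n l1522 (nat_lit 7350) (nat_lit 4) (nat_lit 10))
    (@En.n l2927 (nat_lit 7331) (nat_lit 5) (nat_lit 4))
    (@En.n l2928 (nat_lit 7348) (nat_lit 6) (nat_lit 5))
    (@En.n l2929 (nat_lit 7211) (nat_lit 7) (nat_lit 5))
    (@En.n l2930 (nat_lit 1598) (nat_lit 9) (nat_lit 10))
    (@En.n l2929 (nat_lit 3520) (nat_lit 10) (nat_lit 12))
    (@En.n l2931 (nat_lit 7236) (nat_lit 11) (nat_lit 9))
    (@En.n l2932 (nat_lit 7346) (nat_lit 5) (nat_lit 11))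
    (@En.n l2933 (nat_lit 11449) (nat_lit 13) (nat_lit 11))
    (@En.n l2925 (nat_lit 7332) (nat_lit 14) (nat_lit 3))
    (@En.i (nat_lit 6754) (nat_lit 0) (nat_lit 6))
    (@En.n l3 (nat_lit 7324) (nat_lit 15) (nat_lit 2))))
  (@Cl.mk (nat_lit 0x200060003000d000c000b0003000b0004000c0005000a00050004000e000d) (nat_lit 0xb370708080083) (nat_lit 16) Lb.e (@T16.mk En
    (@En.n l6653 (nat_lit 7328) (nat_lit 2) (nat_lit 13))
    (@En.n l889 (nat_lit 8876) (nat_lit 1) (nat_lit 14))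
    (@En.n l6654 (nat_lit 4257) (nat_lit 2) (nat_lit 4))
    (@En.i (nat_lit 7112) (nat_lit 3) (nat_lit 5))
    (@En.n l3586 (nat_lit 8593) (nat_lit 4) (nat_lit 10))
    (@En.i (nat_lit 7210) (nat_lit 5) (nat_lit 5))
    (@En.n l6655 (nat_lit 7060) (nat_lit 7) (nat_lit 12))
    (@En.i (nat_lit 7320) (nat_lit 7) (nat_lit 4))
    (@En.i (nat_lit 2947) (nat_lit 9) (nat_lit 11))
    (@En.n l2413 (nat_lit 7329) (nat_lit 9) (nat_lit 3))
    (@En.n l619 (nat_lit 7348) (nat_lit 11) (nat_lit 11))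
    (@En.n l6656 (nat_lit 7326) (nat_lit 12) (nat_lit 12))
    (@En.n l17 (nat_lit 11490) (nat_lit 13) (nat_lit 13))
    (@En.n l6657 (nat_lit 7328) (nat_lit 14) (nat_lit 3))
    (@En.n l3586 (nat_lit 6733) (nat_lit 0) (nat_lit 6))
    (@En.n l50 (nat_lit 7325) (nat_lit 15) (nat_lit 2))))
  (@Cl.mk (nat_lit 0x200060003000c000a000d000a00040003000c0006000a00060004000e000d) (nat_lit 0x2616007080073) (nat_lit 16) Lb.e (@T16.mk En
    (@En.n l11285 (nat_lit 7327) (nat_lit 2) (nat_lit 13))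
    (@En.i (nat_lit 10525) (nat_lit 1) (nat_lit 14))
    (@En.n l18 (nat_lit 4258) (nat_lit 2) (nat_lit 4))
    (@En.n l11286 (nat_lit 4581) (nat_lit 3) (nat_lit 6))
    (@En.i (nat_lit 8530) (nat_lit 4) (nat_lit 10))
    (@En.n l61 (nat_lit 7423) (nat_lit 5) (nat_lit 6))
    (@En.n l6840 (nat_lit 7424) (nat_lit 7) (nat_lit 12))
    (@En.n l7 (nat_lit 7329) (nat_lit 7) (nat_lit 3))
    (@En.n l1547 (nat_lit 7322) (nat_lit 8) (nat_lit 4))
    (@En.i (nat_lit 7405) (nat_lit 10) (nat_lit 10))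
    (@En.n l5537 (nat_lit 3282) (nat_lit 11) (nat_lit 13))
    (@En.n l11287 (nat_lit 7331) (nat_lit 12) (nat_lit 10))
    (@En.i (nat_lit 10342) (nat_lit 13) (nat_lit 12))
    (@En.n l11288 (nat_lit 7327) (nat_lit 14) (nat_lit 3))
    (@En.i (nat_lit 4461) (nat_lit 0) (nat_lit 6))
    (@En.n l3 (nat_lit 7326) (nat_lit 15) (nat_lit 2))))
  (@Cl.mk (nat_lit 0x30003000c000a000d000a00040003000c0006000b00060004000d000d0005) (nat_lit 0x26920090800230) (nat_lit 16) Lb.e (@T16.mk En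
    (@En.n l19794 (nat_lit 6663) (nat_lit 0) (nat_lit 5))
    (@En.n l61 (nat_lit 7410) (nat_lit 3) (nat_lit 13))
    (@En.n l9526 (nat_lit 10152) (nat_lit 2) (nat_lit 13))
    (@En.i (nat_lit 3001) (nat_lit 3) (nat_lit 4))
    (@En.n l1658 (nat_lit 4578) (nat_lit 4) (nat_lit 6))
    (@En.n l19795 (nat_lit 8606) (nat_lit 1) (nat_lit 11))
    (@En.n l19796 (nat_lit 7420) (nat_lit 6) (nat_lit 6))
    (@En.n l19416 (nat_lit 7422) (nat_lit 8) (nat_lit 12))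
    (@En.n l10862 (nat_lit 7330) (nat_lit 8) (nat_lit 3))
    (@En.n l5161 (nat_lit 7316) (nat_lit 0) (nat_lit 4))
    (@En.n l9530 (nat_lit 7406) (nat_lit 11) (nat_lit 10))
    (@En.i (nat_lit 3280) (nat_lit 5) (nat_lit 13))
    (@En.n l14018 (nat_lit 4343) (nat_lit 13) (nat_lit 10))
    (@En.n l11412 (nat_lit 4317) (nat_lit 14) (nat_lit 12))
    (@En.n l19797 (nat_lit 7326) (nat_lit 13) (nat_lit 3))
    (@En.n l18 (nat_lit 7410) (nat_lit 0) (nat_lit 3))))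
noncomputable def a458 : T16 Cl := @T16.mk Cl
  (@Cl.mk (nat_lit 0x30003000d000c000b0003000b0004000c0005000b00050004000d000d0005) (nat_lit 0x93805080800230) (nat_lit 16) Lb.e (@T16.mk En
    (@En.n l10593 (nat_lit 2315) (nat_lit 0) (nat_lit 5))
    (@En.n l14382 (nat_lit 7341) (nat_lit 3) (nat_lit 13))
    (@En.n l14383 (nat_lit 8873) (nat_lit 2) (nat_lit 13))
    (@En.i (nat_lit 4260) (nat_lit 3) (nat_lit 4))
    (@En.n l14384 (nat_lit 7113) (nat_lit 4) (nat_lit 5))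
    (@En.n l14385 (nat_lit 8595) (nat_lit 11) (nat_lit 11))
    (@En.n l8256 (nat_lit 3536) (nat_lit 6) (nat_lit 5))
    (@En.n l14386 (nat_lit 7035) (nat_lit 8) (nat_lit 12))
    (@En.n l11335 (nat_lit 7321) (nat_lit 8) (nat_lit 4))
    (@En.n l14384 (nat_lit 2943) (nat_lit 10) (nat_lit 11))
    (@En.n l152 (nat_lit 7330) (nat_lit 10) (nat_lit 3))
    (@En.n l14387 (nat_lit 7337) (nat_lit 0) (nat_lit 11))
    (@En.n l5879 (nat_lit 7327) (nat_lit 13) (nat_lit 12))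
    (@En.n l14388 (nat_lit 11102) (nat_lit 2) (nat_lit 13))
    (@En.n l14389 (nat_lit 7325) (nat_lit 13) (nat_lit 3))
    (@En.n l14390 (nat_lit 7341) (nat_lit 0) (nat_lit 3))))
  (@Cl.mk (nat_lit 0x200060003000d000a000d0003000b0003000c0006000a00050004000e000d) (nat_lit 0xa720603080032) (nat_lit 16) Lb.e (@T16.mk En
    (@En.n l10140 (nat_lit 7330) (nat_lit 2) (nat_lit 13))
    (@En.i (nat_lit 10524) (nat_lit 1) (nat_lit 14))
    (@En.n l18 (nat_lit 4256) (nat_lit 2) (nat_lit 4))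
    (@En.i (nat_lit 7110) (nat_lit 3) (nat_lit 5))
    (@En.i (nat_lit 8594) (nat_lit 4) (nat_lit 10))
    (@En.n l61 (nat_lit 7425) (nat_lit 5) (nat_lit 6))
    (@En.i (nat_lit 7063) (nat_lit 7) (nat_lit 12))
    (@En.i (nat_lit 7326) (nat_lit 7) (nat_lit 3))
    (@En.n l3348 (nat_lit 7169) (nat_lit 9) (nat_lit 11))
    (@En.n l4204 (nat_lit 7325) (nat_lit 9) (nat_lit 3))
    (@En.i (nat_lit 3283) (nat_lit 11) (nat_lit 13))
    (@En.i (nat_lit 7360) (nat_lit 12) (nat_lit 10))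
    (@En.i (nat_lit 11491) (nat_lit 13) (nat_lit 13))
    (@En.n l10143 (nat_lit 7330) (nat_lit 14) (nat_lit 3))
    (@En.i (nat_lit 6735) (nat_lit 0) (nat_lit 6))
    (@En.n l3 (nat_lit 7329) (nat_lit 15) (nat_lit 2))))
  (@Cl.mk (nat_lit 0x30003000d000a000d0003000b0003000c0006000b00050004000d000d0005) (nat_lit 0x97a07030800130) (nat_lit 16) Lb.e (@T16.mk En
    (@En.n l24301 (nat_lit 6665) (nat_lit 0) (nat_lit 5))
    (@En.n l61 (nat_lit 7416) (nat_lit 3) (nat_lit 13))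
    (@En.n l11008 (nat_lit 4333) (nat_lit 2) (nat_lit 13))
    (@En.i (nat_lit 3005) (nat_lit 3) (nat_lit 4))
    (@En.i (nat_lit 4209) (nat_lit 4) (nat_lit 5))
    (@En.n l19415 (nat_lit 8307) (nat_lit 11) (nat_lit 11))
    (@En.n l11010 (nat_lit 7417) (nat_lit 6) (nat_lit 6))
    (@En.n l28560 (nat_lit 7036) (nat_lit 8) (nat_lit 12))
    (@En.n l10969 (nat_lit 7327) (nat_lit 8) (nat_lit 3))
    (@En.n l22633 (nat_lit 7165) (nat_lit 0) (nat_lit 11))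
    (@En.n l117 (nat_lit 7328) (nat_lit 10) (nat_lit 3))
    (@En.n l2038 (nat_lit 3281) (nat_lit 0) (nat_lit 13))
    (@En.i (nat_lit 4341) (nat_lit 13) (nat_lit 10))
    (@En.n l21974 (nat_lit 11106) (nat_lit 2) (nat_lit 13))
    (@En.n l19419 (nat_lit 7329) (nat_lit 13) (nat_lit 3))
    (@En.n l18 (nat_lit 7416) (nat_lit 0) (nat_lit 3))))
  (@Cl.mk (nat_lit 0x200060003000a000d0009000c0003000b00060004000a00070005000e000d) (nat_lit 0x5663040080041) (nat_lit 16) Lb.e (@T16.mk En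
    (@En.n l6682 (nat_lit 4343) (nat_lit 2) (nat_lit 13))
    (@En.i (nat_lit 9745) (nat_lit 1) (nat_lit 14))
    (@En.n l6683 (nat_lit 1016) (nat_lit 2) (nat_lit 5))
    (@En.i (nat_lit 7287) (nat_lit 3) (nat_lit 7))
    (@En.n l6684 (nat_lit 8125) (nat_lit 4) (nat_lit 10))
    (@En.n l6685 (nat_lit 7320) (nat_lit 5) (nat_lit 4))
    (@En.i (nat_lit 7214) (nat_lit 6) (nat_lit 6))
    (@En.n l6686 (nat_lit 7215) (nat_lit 8) (nat_lit 11))
    (@En.n l6687 (nat_lit 7360) (nat_lit 8) (nat_lit 3))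
    (@En.n l3590 (nat_lit 3522) (nat_lit 10) (nat_lit 12))
    (@En.n l6675 (nat_lit 4608) (nat_lit 11) (nat_lit 9))
    (@En.n l3585 (nat_lit 7402) (nat_lit 5) (nat_lit 13))
    (@En.i (nat_lit 10863) (nat_lit 13) (nat_lit 10))
    (@En.n l6688 (nat_lit 4343) (nat_lit 14) (nat_lit 3))
    (@En.n l6684 (nat_lit 6675) (nat_lit 0) (nat_lit 6))
    (@En.n l50 (nat_lit 7331) (nat_lit 15) (nat_lit 2))))
  (@Cl.mk (nat_lit 0x30003000b000b0009000c000a000500050004000b00070006000d000d0005) (nat_lit 0x67794000800230) (nat_lit 16) Lb.e (@T16.mk En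
    (@En.n l6271 (nat_lit 2314) (nat_lit 0) (nat_lit 5))
    (@En.n l55 (nat_lit 7333) (nat_lit 3) (nat_lit 13))
    (@En.i (nat_lit 9968) (nat_lit 2) (nat_lit 13))
    (@En.n l6272 (nat_lit 1158) (nat_lit 3) (nat_lit 6))
    (@En.n l6273 (nat_lit 7314) (nat_lit 4) (nat_lit 7))
    (@En.n l6274 (nat_lit 6867) (nat_lit 6) (nat_lit 11))
    (@En.n l5729 (nat_lit 4343) (nat_lit 6) (nat_lit 4))
    (@En.n l6275 (nat_lit 7337) (nat_lit 11) (nat_lit 5))
    (@En.i (nat_lit 4349) (nat_lit 8) (nat_lit 5))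
    (@En.n l6276 (nat_lit 3034) (nat_lit 10) (nat_lit 10))
    (@En.i (nat_lit 3521) (nat_lit 6) (nat_lit 12))
    (@En.n l6277 (nat_lit 7235) (nat_lit 12) (nat_lit 9))
    (@En.n l6278 (nat_lit 7315) (nat_lit 5) (nat_lit 11))
    (@En.n l7 (nat_lit 11073) (nat_lit 14) (nat_lit 11))
    (@En.n l6279 (nat_lit 7324) (nat_lit 13) (nat_lit 3))
    (@En.n l11 (nat_lit 7333) (nat_lit 0) (nat_lit 3))))
  (@Cl.mk (nat_lit 0x2000b000b0009000c000a000500050004000c00070006000d0004000e0003) (nat_lit 0x677840006002090) (nat_lit 16) Lb.e (@T16.mk En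
    (@En.i (nat_lit 7332) (nat_lit 15) (nat_lit 3))
    (@En.i (nat_lit 13490) (nat_lit 0) (nat_lit 14))
    (@En.i (nat_lit 7247) (nat_lit 2) (nat_lit 4))
    (@En.i (nat_lit 9967) (nat_lit 2) (nat_lit 13))
    (@En.n l6272 (nat_lit 1160) (nat_lit 4) (nat_lit 6))
    (@En.n l12062 (nat_lit 7334) (nat_lit 5) (nat_lit 7))
    (@En.n l15200 (nat_lit 6861) (nat_lit 7) (nat_lit 12))
    (@En.n l12824 (nat_lit 4342) (nat_lit 7) (nat_lit 4))
    (@En.n l2172 (nat_lit 7336) (nat_lit 11) (nat_lit 5))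
    (@En.i (nat_lit 4348) (nat_lit 9) (nat_lit 5))
    (@En.n l13206 (nat_lit 3035) (nat_lit 11) (nat_lit 10))
    (@En.i (nat_lit 3544) (nat_lit 6) (nat_lit 12))
    (@En.n l742 (nat_lit 7237) (nat_lit 13) (nat_lit 9))
    (@En.n l396 (nat_lit 7335) (nat_lit 5) (nat_lit 11))
    (@En.n l7 (nat_lit 11072) (nat_lit 14) (nat_lit 11))
    (@En.n l28 (nat_lit 7333) (nat_lit 15) (nat_lit 2))))
  (@Cl.mk (nat_lit 0x2000a000a00090007000c000b00060006000400070005000d0009000e0003) (nat_lit 0x667095000007680) (nat_lit 16) Lb.e (@T16.mk En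
    (@En.n l11217 (nat_lit 7314) (nat_lit 15) (nat_lit 3))
    (@En.i (nat_lit 13488) (nat_lit 0) (nat_lit 14))
    (@En.n l5 (nat_lit 6566) (nat_lit 2) (nat_lit 9))
    (@En.n l17435 (nat_lit 9965) (nat_lit 2) (nat_lit 13))
    (@En.n l29830 (nat_lit 5141) (nat_lit 4) (nat_lit 5))
    (@En.n l12299 (nat_lit 1241) (nat_lit 5) (nat_lit 7))
    (@En.n l29831 (nat_lit 7281) (nat_lit 6) (nat_lit 4))
    (@En.n l5584 (nat_lit 7338) (nat_lit 10) (nat_lit 6))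
    (@En.n l17435 (nat_lit 7293) (nat_lit 8) (nat_lit 6))
    (@En.i (nat_lit 7304) (nat_lit 10) (nat_lit 11))
    (@En.n l12026 (nat_lit 7333) (nat_lit 11) (nat_lit 12))
    (@En.n l12026 (nat_lit 7343) (nat_lit 12) (nat_lit 7))
    (@En.n l29832 (nat_lit 7239) (nat_lit 13) (nat_lit 9))
    (@En.n l29833 (nat_lit 7309) (nat_lit 6) (nat_lit 10))
    (@En.i (nat_lit 11071) (nat_lit 14) (nat_lit 10))
    (@En.n l17 (nat_lit 7334) (nat_lit 15) (nat_lit 2))))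
  (@Cl.mk (nat_lit 0x20005000c00080007000d0004000e00030002000b0008000b0009000e0005) (nat_lit 0x63020a00668380) (nat_lit 16) Lb.e (@T16.mk En
    (@En.n l50 (nat_lit 7333) (nat_lit 9) (nat_lit 5))
    (@En.n l23446 (nat_lit 7317) (nat_lit 1) (nat_lit 14))
    (@En.n l23446 (nat_lit 3036) (nat_lit 12) (nat_lit 9))
    (@En.i (nat_lit 3539) (nat_lit 3) (nat_lit 11))
    (@En.n l7055 (nat_lit 2138) (nat_lit 4) (nat_lit 8))
    (@En.n l3348 (nat_lit 10844) (nat_lit 6) (nat_lit 11))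
    (@En.n l28 (nat_lit 7335) (nat_lit 6) (nat_lit 2))
    (@En.n l5949 (nat_lit 7315) (nat_lit 7) (nat_lit 3))
    (@En.n l947 (nat_lit 13484) (nat_lit 0) (nat_lit 14))
    (@En.i (nat_lit 6892) (nat_lit 9) (nat_lit 4))
    (@En.i (nat_lit 9972) (nat_lit 11) (nat_lit 13))
    (@En.n l1295 (nat_lit 1159) (nat_lit 12) (nat_lit 7))
    (@En.i (nat_lit 7309) (nat_lit 13) (nat_lit 8))
    (@En.n l28781 (nat_lit 7948) (nat_lit 7) (nat_lit 12))
    (@En.n l671 (nat_lit 4612) (nat_lit 13) (nat_lit 5))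
    (@En.n l18 (nat_lit 7335) (nat_lit 15) (nat_lit 2))))
  (@Cl.mk (nat_lit 0x2000a000d000b00050003000c00060005000d0004000e00030002000e000b) (nat_lit 0x8250010020300b7) (nat_lit 16) Lb.e (@T16.mk En
    (@En.n l217 (nat_lit 7333) (nat_lit 14) (nat_lit 11))
    (@En.n l1364 (nat_lit 12349) (nat_lit 1) (nat_lit 14))
    (@En.n l28 (nat_lit 7336) (nat_lit 2) (nat_lit 2))
    (@En.n l852 (nat_lit 7337) (nat_lit 3) (nat_lit 3))
    (@En.n l7647 (nat_lit 13876) (nat_lit 0) (nat_lit 14))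
    (@En.n l3732 (nat_lit 7344) (nat_lit 5) (nat_lit 4))
    (@En.i (nat_lit 8264) (nat_lit 7) (nat_lit 13))
    (@En.n l7648 (nat_lit 1113) (nat_lit 7) (nat_lit 5))
    (@En.n l7649 (nat_lit 7338) (nat_lit 8) (nat_lit 6))
    (@En.n l7650 (nat_lit 6860) (nat_lit 10) (nat_lit 12))
    (@En.n l763 (nat_lit 7339) (nat_lit 10) (nat_lit 3))
    (@En.i (nat_lit 3533) (nat_lit 0) (nat_lit 5))
    (@En.n l7651 (nat_lit 2904) (nat_lit 13) (nat_lit 11))
    (@En.i (nat_lit 3551) (nat_lit 5) (nat_lit 13))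
    (@En.n l847 (nat_lit 2946) (nat_lit 12) (nat_lit 10))
    (@En.n l50 (nat_lit 7336) (nat_lit 15) (nat_lit 2))))
  (@Cl.mk (nat_lit 0x2000a000d000b00050003000b00060005000d000d000500030003000e000b) (nat_lit 0x8250080023000b7) (nat_lit 16) Lb.e (@T16.mk En
    (@En.n l2775 (nat_lit 7332) (nat_lit 13) (nat_lit 11))
    (@En.n l2776 (nat_lit 12347) (nat_lit 1) (nat_lit 14))
    (@En.n l2777 (nat_lit 7348) (nat_lit 13) (nat_lit 3))
    (@En.n l2354 (nat_lit 7336) (nat_lit 3) (nat_lit 3))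
    (@En.n l644 (nat_lit 2310) (nat_lit 0) (nat_lit 5))
    (@En.n l2778 (nat_lit 7336) (nat_lit 6) (nat_lit 13))
    (@En.n l2779 (nat_lit 8262) (nat_lit 7) (nat_lit 13))
    (@En.n l2780 (nat_lit 1114) (nat_lit 7) (nat_lit 5))
    (@En.n l2781 (nat_lit 3058) (nat_lit 8) (nat_lit 6))
    (@En.n l2782 (nat_lit 6862) (nat_lit 10) (nat_lit 11))
    (@En.n l11 (nat_lit 3060) (nat_lit 10) (nat_lit 3))
    (@En.n l2779 (nat_lit 3529) (nat_lit 0) (nat_lit 5))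
    (@En.n l2782 (nat_lit 3048) (nat_lit 13) (nat_lit 11))
    (@En.n l2783 (nat_lit 3552) (nat_lit 5) (nat_lit 13))
    (@En.n l2781 (nat_lit 2945) (nat_lit 11) (nat_lit 10))
    (@En.n l3 (nat_lit 7337) (nat_lit 15) (nat_lit 2))))
  (@Cl.mk (nat_lit 0x2000a0008000d000c0006000300060004000d0008000e00030002000e000a) (nat_lit 0x84350000b5300a7) (nat_lit 16) Lb.e (@T16.mk En
    (@En.n l5551 (nat_lit 7334) (nat_lit 14) (nat_lit 10))
    (@En.n l18590 (nat_lit 12348) (nat_lit 1) (nat_lit 14))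
    (@En.n l50 (nat_lit 7338) (nat_lit 2) (nat_lit 2))
    (@En.n l14680 (nat_lit 3058) (nat_lit 3) (nat_lit 3))
    (@En.n l5276 (nat_lit 13874) (nat_lit 0) (nat_lit 14))
    (@En.n l18591 (nat_lit 6564) (nat_lit 5) (nat_lit 8))
    (@En.n l18592 (nat_lit 8261) (nat_lit 7) (nat_lit 13))
    (@En.n l18590 (nat_lit 4166) (nat_lit 7) (nat_lit 4))
    (@En.n l18593 (nat_lit 1831) (nat_lit 8) (nat_lit 6))
    (@En.n l18594 (nat_lit 3059) (nat_lit 9) (nat_lit 3))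
    (@En.n l18592 (nat_lit 7447) (nat_lit 0) (nat_lit 6))
    (@En.i (nat_lit 3054) (nat_lit 12) (nat_lit 12))
    (@En.n l18595 (nat_lit 7336) (nat_lit 13) (nat_lit 13))
    (@En.n l18591 (nat_lit 7342) (nat_lit 14) (nat_lit 8))
    (@En.n l18596 (nat_lit 7277) (nat_lit 12) (nat_lit 10))
    (@En.n l17 (nat_lit 7338) (nat_lit 15) (nat_lit 2))))
  (@Cl.mk (nat_lit 0x2000a000d0004000c0003000c00060004000d0004000e00030002000e000c) (nat_lit 0x83090200b030096) (nat_lit 16) Lb.e (@T16.mk En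
    (@En.n l564 (nat_lit 7340) (nat_lit 14) (nat_lit 12))
    (@En.n l1998 (nat_lit 12353) (nat_lit 1) (nat_lit 14))
    (@En.n l28 (nat_lit 7339) (nat_lit 2) (nat_lit 2))
    (@En.n l14380 (nat_lit 3060) (nat_lit 3) (nat_lit 3))
    (@En.i (nat_lit 13875) (nat_lit 0) (nat_lit 14))
    (@En.n l7288 (nat_lit 7767) (nat_lit 5) (nat_lit 4))
    (@En.i (nat_lit 8861) (nat_lit 7) (nat_lit 13))
    (@En.n l3340 (nat_lit 967) (nat_lit 7) (nat_lit 4))
    (@En.n l2383 (nat_lit 3059) (nat_lit 8) (nat_lit 6))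
    (@En.n l4991 (nat_lit 4621) (nat_lit 10) (nat_lit 12))
    (@En.n l2364 (nat_lit 7336) (nat_lit 10) (nat_lit 3))
    (@En.n l3340 (nat_lit 4690) (nat_lit 0) (nat_lit 12))
    (@En.n l4991 (nat_lit 7341) (nat_lit 9) (nat_lit 4))
    (@En.i (nat_lit 3548) (nat_lit 5) (nat_lit 13))
    (@En.n l2383 (nat_lit 2939) (nat_lit 12) (nat_lit 10))
    (@En.n l50 (nat_lit 7339) (nat_lit 15) (nat_lit 2))))
  (@Cl.mk (nat_lit 0x2000c000c0009000c00040004000c0004000c00070004000d0004000e0003) (nat_lit 0x577800902003070) (nat_lit 16) Lb.e (@T16.mk En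
    (@En.n l1080 (nat_lit 7321) (nat_lit 15) (nat_lit 3))
    (@En.n l25682 (nat_lit 13877) (nat_lit 0) (nat_lit 14))
    (@En.n l27749 (nat_lit 7766) (nat_lit 2) (nat_lit 4))
    (@En.n l617 (nat_lit 8808) (nat_lit 2) (nat_lit 13))
    (@En.n l18290 (nat_lit 2996) (nat_lit 4) (nat_lit 4))
    (@En.n l2642 (nat_lit 7296) (nat_lit 5) (nat_lit 7))
    (@En.n l25682 (nat_lit 4624) (nat_lit 7) (nat_lit 12))
    (@En.n l775 (nat_lit 7333) (nat_lit 7) (nat_lit 4))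
    (@En.i (nat_lit 7295) (nat_lit 9) (nat_lit 12))
    (@En.n l2593 (nat_lit 7339) (nat_lit 12) (nat_lit 4))
    (@En.n l18290 (nat_lit 7410) (nat_lit 10) (nat_lit 4))
    (@En.i (nat_lit 3543) (nat_lit 6) (nat_lit 12))
    (@En.n l27750 (nat_lit 7384) (nat_lit 13) (nat_lit 9))
    (@En.n l27751 (nat_lit 7317) (nat_lit 4) (nat_lit 12))
    (@En.i (nat_lit 10629) (nat_lit 14) (nat_lit 12))
    (@En.n l28 (nat_lit 7340) (nat_lit 15) (nat_lit 2))))
  (@Cl.mk (nat_lit 0x2000d000c000b0003000b0004000c0005000c00050004000d0004000e0003) (nat_lit 0x928050902002030) (nat_lit 16) Lb.e (@T16.mk En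
    (@En.n l28552 (nat_lit 7328) (nat_lit 15) (nat_lit 3))
    (@En.i (nat_lit 13878) (nat_lit 0) (nat_lit 14))
    (@En.n l28553 (nat_lit 7768) (nat_lit 2) (nat_lit 4))
    (@En.n l10976 (nat_lit 8872) (nat_lit 2) (nat_lit 13))
    (@En.n l28554 (nat_lit 3004) (nat_lit 4) (nat_lit 4))
    (@En.n l12130 (nat_lit 7431) (nat_lit 5) (nat_lit 5))
    (@En.i (nat_lit 8305) (nat_lit 7) (nat_lit 12))
    (@En.n l1553 (nat_lit 7426) (nat_lit 7) (nat_lit 5))
    (@En.n l12128 (nat_lit 7033) (nat_lit 9) (nat_lit 12))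
    (@En.n l12396 (nat_lit 7340) (nat_lit 9) (nat_lit 4))
    (@En.n l18240 (nat_lit 2942) (nat_lit 11) (nat_lit 11))
    (@En.n l10977 (nat_lit 7416) (nat_lit 11) (nat_lit 3))
    (@En.n l4536 (nat_lit 7336) (nat_lit 0) (nat_lit 11))
    (@En.n l28555 (nat_lit 7410) (nat_lit 14) (nat_lit 12))
    (@En.i (nat_lit 11101) (nat_lit 2) (nat_lit 13))
    (@En.n l17 (nat_lit 7341) (nat_lit 15) (nat_lit 2))))
  (@Cl.mk (nat_lit 0x20008000d000c00050003000c0004000c00080004000e00040002000e000b) (nat_lit 0x3240050050a00b0) (nat_lit 16) Lb.e (@T16.mk En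
    (@En.n l2938 (nat_lit 7343) (nat_lit 14) (nat_lit 11))
    (@En.i (nat_lit 12357) (nat_lit 1) (nat_lit 14))
    (@En.n l18 (nat_lit 7342) (nat_lit 2) (nat_lit 2))
    (@En.n l50 (nat_lit 7345) (nat_lit 3) (nat_lit 4))
    (@En.n l2809 (nat_lit 6972) (nat_lit 1) (nat_lit 14))
    (@En.n l2354 (nat_lit 7336) (nat_lit 5) (nat_lit 4))
    (@En.i (nat_lit 9103) (nat_lit 6) (nat_lit 8))
    (@En.n l2351 (nat_lit 8266) (nat_lit 8) (nat_lit 12))
    (@En.n l1032 (nat_lit 8970) (nat_lit 8) (nat_lit 4))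
    (@En.n l796 (nat_lit 9292) (nat_lit 10) (nat_lit 12))
    (@En.n l11 (nat_lit 7778) (nat_lit 10) (nat_lit 3))
    (@En.n l2351 (nat_lit 7456) (nat_lit 0) (nat_lit 5))
    (@En.n l55 (nat_lit 7779) (nat_lit 13) (nat_lit 12))
    (@En.n l2351 (nat_lit 4034) (nat_lit 14) (nat_lit 13))
    (@En.i (nat_lit 9974) (nat_lit 12) (nat_lit 8))
    (@En.n l3 (nat_lit 7342) (nat_lit 15) (nat_lit 2))))
  (@Cl.mk (nat_lit 0x2000b000b0007000c000b000500050004000c0005000c00090004000e0004) (nat_lit 0x9009400050860b0) (nat_lit 16) Lb.e (@T16.mk En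
    (@En.n l13918 (nat_lit 8320) (nat_lit 15) (nat_lit 4))
    (@En.n l5643 (nat_lit 7248) (nat_lit 1) (nat_lit 14))
    (@En.n l152 (nat_lit 7333) (nat_lit 2) (nat_lit 4))
    (@En.n l13918 (nat_lit 9181) (nat_lit 3) (nat_lit 9))
    (@En.i (nat_lit 9970) (nat_lit 5) (nat_lit 12))
    (@En.n l5643 (nat_lit 8968) (nat_lit 5) (nat_lit 5))
    (@En.n l14639 (nat_lit 9277) (nat_lit 7) (nat_lit 12))
    (@En.n l7430 (nat_lit 8661) (nat_lit 7) (nat_lit 4))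
    (@En.n l14637 (nat_lit 7342) (nat_lit 11) (nat_lit 5))
    (@En.i (nat_lit 8746) (nat_lit 9) (nat_lit 5))
    (@En.n l28839 (nat_lit 7777) (nat_lit 11) (nat_lit 11))
    (@En.i (nat_lit 2870) (nat_lit 12) (nat_lit 12))
    (@En.n l742 (nat_lit 8755) (nat_lit 13) (nat_lit 7))
    (@En.n l14641 (nat_lit 8314) (nat_lit 5) (nat_lit 11))
    (@En.n l7 (nat_lit 11075) (nat_lit 12) (nat_lit 11))
    (@En.n l28 (nat_lit 7343) (nat_lit 15) (nat_lit 2))))
noncomputable def a459 : T16 Cl := @T16.mk Cl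
  (@Cl.mk (nat_lit 0x20009000d000a00050003000c000b000700060004000e00050002000e000b) (nat_lit 0x7230089000500b5) (nat_lit 16) Lb.e (@T16.mk En
    (@En.n l10480 (nat_lit 7247) (nat_lit 14) (nat_lit 11))
    (@En.n l10481 (nat_lit 12641) (nat_lit 1) (nat_lit 14))
    (@En.n l18 (nat_lit 7344) (nat_lit 2) (nat_lit 2))
    (@En.n l50 (nat_lit 2313) (nat_lit 3) (nat_lit 5))
    (@En.n l10482 (nat_lit 7765) (nat_lit 1) (nat_lit 14))
    (@En.i (nat_lit 7342) (nat_lit 5) (nat_lit 4))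
    (@En.n l10483 (nat_lit 1115) (nat_lit 6) (nat_lit 6))
    (@En.n l77 (nat_lit 7835) (nat_lit 7) (nat_lit 7))
    (@En.n l77 (nat_lit 7337) (nat_lit 9) (nat_lit 11))
    (@En.n l10484 (nat_lit 9294) (nat_lit 10) (nat_lit 12))
    (@En.n l11 (nat_lit 7767) (nat_lit 10) (nat_lit 3))
    (@En.n l10485 (nat_lit 7935) (nat_lit 0) (nat_lit 5))
    (@En.n l10486 (nat_lit 2907) (nat_lit 13) (nat_lit 10))
    (@En.n l10485 (nat_lit 2384) (nat_lit 14) (nat_lit 13))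
    (@En.i (nat_lit 7242) (nat_lit 12) (nat_lit 9))
    (@En.n l3 (nat_lit 7344) (nat_lit 15) (nat_lit 2))))
  (@Cl.mk (nat_lit 0x20007000d000c00050003000b0004000c000c0009000500040004000e000b) (nat_lit 0x250050016000b0) (nat_lit 16) Lb.e (@T16.mk En
    (@En.n l644 (nat_lit 8320) (nat_lit 13) (nat_lit 11))
    (@En.i (nat_lit 12398) (nat_lit 1) (nat_lit 14))
    (@En.n l2172 (nat_lit 8638) (nat_lit 2) (nat_lit 4))
    (@En.i (nat_lit 8490) (nat_lit 3) (nat_lit 4))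
    (@En.i (nat_lit 7337) (nat_lit 4) (nat_lit 5))
    (@En.n l742 (nat_lit 8334) (nat_lit 5) (nat_lit 9))
    (@En.n l396 (nat_lit 7342) (nat_lit 7) (nat_lit 12))
    (@En.n l2175 (nat_lit 8267) (nat_lit 8) (nat_lit 12))
    (@En.n l1032 (nat_lit 8644) (nat_lit 8) (nat_lit 4))
    (@En.n l6270 (nat_lit 8442) (nat_lit 10) (nat_lit 11))
    (@En.n l11 (nat_lit 8634) (nat_lit 10) (nat_lit 3))
    (@En.n l2175 (nat_lit 8678) (nat_lit 0) (nat_lit 5))
    (@En.n l55 (nat_lit 8635) (nat_lit 13) (nat_lit 12))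
    (@En.n l2175 (nat_lit 3562) (nat_lit 14) (nat_lit 13))
    (@En.i (nat_lit 9968) (nat_lit 3) (nat_lit 7))
    (@En.n l3 (nat_lit 7345) (nat_lit 15) (nat_lit 2))))
  (@Cl.mk (nat_lit 0x20005000a00080007000e000d000200060003000b0008000b0009000e0005) (nat_lit 0x82063000661370) (nat_lit 16) Lb.e (@T16.mk En
    (@En.n l8569 (nat_lit 7324) (nat_lit 7) (nat_lit 5))
    (@En.n l8570 (nat_lit 7322) (nat_lit 9) (nat_lit 14))
    (@En.n l8570 (nat_lit 3038) (nat_lit 10) (nat_lit 9))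
    (@En.n l8571 (nat_lit 2565) (nat_lit 3) (nat_lit 11))
    (@En.i (nat_lit 2188) (nat_lit 4) (nat_lit 8))
    (@En.n l8572 (nat_lit 11451) (nat_lit 13) (nat_lit 11))
    (@En.n l3749 (nat_lit 7315) (nat_lit 6) (nat_lit 3))
    (@En.n l8573 (nat_lit 6884) (nat_lit 7) (nat_lit 6))
    (@En.n l50 (nat_lit 7346) (nat_lit 8) (nat_lit 2))
    (@En.n l4270 (nat_lit 7315) (nat_lit 10) (nat_lit 13))
    (@En.n l2680 (nat_lit 8944) (nat_lit 11) (nat_lit 14))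
    (@En.n l2669 (nat_lit 1017) (nat_lit 2) (nat_lit 7))
    (@En.n l725 (nat_lit 7313) (nat_lit 13) (nat_lit 8))
    (@En.n l5234 (nat_lit 7352) (nat_lit 4) (nat_lit 10))
    (@En.n l2682 (nat_lit 4614) (nat_lit 5) (nat_lit 5))
    (@En.n l11 (nat_lit 7346) (nat_lit 15) (nat_lit 2))))
  (@Cl.mk (nat_lit 0x2000b0003000a000a00090005000c000b00060006000400070005000e000d) (nat_lit 0x106660a30000098) (nat_lit 16) Lb.e (@T16.mk En
    (@En.n l8546 (nat_lit 7314) (nat_lit 2) (nat_lit 13))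
    (@En.n l2747 (nat_lit 8931) (nat_lit 1) (nat_lit 14))
    (@En.n l8547 (nat_lit 5140) (nat_lit 2) (nat_lit 5))
    (@En.n l1898 (nat_lit 1239) (nat_lit 3) (nat_lit 7))
    (@En.n l4659 (nat_lit 7287) (nat_lit 4) (nat_lit 4))
    (@En.n l1096 (nat_lit 7349) (nat_lit 5) (nat_lit 6))
    (@En.i (nat_lit 7218) (nat_lit 6) (nat_lit 6))
    (@En.n l8548 (nat_lit 7318) (nat_lit 8) (nat_lit 11))
    (@En.n l8549 (nat_lit 7324) (nat_lit 9) (nat_lit 12))
    (@En.n l2750 (nat_lit 8648) (nat_lit 9) (nat_lit 5))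
    (@En.n l637 (nat_lit 7233) (nat_lit 11) (nat_lit 9))
    (@En.n l1953 (nat_lit 7313) (nat_lit 6) (nat_lit 10))
    (@En.i (nat_lit 11448) (nat_lit 13) (nat_lit 10))
    (@En.n l8550 (nat_lit 7314) (nat_lit 14) (nat_lit 3))
    (@En.n l8551 (nat_lit 5459) (nat_lit 0) (nat_lit 11))
    (@En.n l7 (nat_lit 7347) (nat_lit 15) (nat_lit 2))))
  (@Cl.mk (nat_lit 0x200060003000e000b0002000a000d000b00050003000a00060005000e000d) (nat_lit 0xb608350080093) (nat_lit 16) Lb.e (@T16.mk En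
    (@En.n l1131 (nat_lit 7337) (nat_lit 6) (nat_lit 13))
    (@En.n l889 (nat_lit 8928) (nat_lit 1) (nat_lit 14))
    (@En.n l694 (nat_lit 1368) (nat_lit 2) (nat_lit 5))
    (@En.i (nat_lit 7349) (nat_lit 3) (nat_lit 6))
    (@En.n l717 (nat_lit 7351) (nat_lit 4) (nat_lit 10))
    (@En.n l11 (nat_lit 7323) (nat_lit 5) (nat_lit 3))
    (@En.n l1132 (nat_lit 3534) (nat_lit 6) (nat_lit 5))
    (@En.n l55 (nat_lit 3049) (nat_lit 8) (nat_lit 11))
    (@En.n l719 (nat_lit 3553) (nat_lit 9) (nat_lit 13))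
    (@En.i (nat_lit 2949) (nat_lit 10) (nat_lit 10))
    (@En.n l3 (nat_lit 7348) (nat_lit 10) (nat_lit 2))
    (@En.n l1133 (nat_lit 7324) (nat_lit 12) (nat_lit 11))
    (@En.n l698 (nat_lit 11503) (nat_lit 1) (nat_lit 14))
    (@En.n l403 (nat_lit 7337) (nat_lit 2) (nat_lit 3))
    (@En.n l1133 (nat_lit 6753) (nat_lit 3) (nat_lit 6))
    (@En.n l50 (nat_lit 7348) (nat_lit 15) (nat_lit 2))))
  (@Cl.mk (nat_lit 0x2000a0003000e000a0002000a0006000d000c0006000300060004000e000d) (nat_lit 0x30a706046000091) (nat_lit 16) Lb.e (@T16.mk En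
    (@En.n l396 (nat_lit 3058) (nat_lit 6) (nat_lit 13))
    (@En.i (nat_lit 8929) (nat_lit 1) (nat_lit 14))
    (@En.n l11 (nat_lit 5138) (nat_lit 2) (nat_lit 4))
    (@En.n l1080 (nat_lit 1388) (nat_lit 3) (nat_lit 6))
    (@En.n l11 (nat_lit 3057) (nat_lit 4) (nat_lit 3))
    (@En.i (nat_lit 7697) (nat_lit 0) (nat_lit 6))
    (@En.n l55 (nat_lit 3052) (nat_lit 7) (nat_lit 12))
    (@En.n l725 (nat_lit 7348) (nat_lit 8) (nat_lit 13))
    (@En.n l2364 (nat_lit 8638) (nat_lit 14) (nat_lit 6))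
    (@En.n l1080 (nat_lit 7262) (nat_lit 10) (nat_lit 10))
    (@En.n l3 (nat_lit 7349) (nat_lit 10) (nat_lit 2))
    (@En.n l3745 (nat_lit 7347) (nat_lit 12) (nat_lit 10))
    (@En.i (nat_lit 12382) (nat_lit 1) (nat_lit 14))
    (@En.i (nat_lit 3058) (nat_lit 2) (nat_lit 3))
    (@En.i (nat_lit 7832) (nat_lit 3) (nat_lit 10))
    (@En.n l50 (nat_lit 7349) (nat_lit 15) (nat_lit 2))))
  (@Cl.mk (nat_lit 0x20006000b0004000b000b000a0005000b00050005000a00060005000e000c) (nat_lit 0x20708040070081) (nat_lit 16) Lb.e (@T16.mk En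
    (@En.n l8552 (nat_lit 6867) (nat_lit 3) (nat_lit 12))
    (@En.n l3621 (nat_lit 8932) (nat_lit 1) (nat_lit 14))
    (@En.n l4336 (nat_lit 2541) (nat_lit 2) (nat_lit 5))
    (@En.n l8553 (nat_lit 1270) (nat_lit 3) (nat_lit 6))
    (@En.n l8554 (nat_lit 9563) (nat_lit 4) (nat_lit 10))
    (@En.n l8555 (nat_lit 7351) (nat_lit 5) (nat_lit 5))
    (@En.i (nat_lit 10609) (nat_lit 6) (nat_lit 5))
    (@En.n l8556 (nat_lit 2717) (nat_lit 8) (nat_lit 11))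
    (@En.n l3235 (nat_lit 8131) (nat_lit 8) (nat_lit 5))
    (@En.n l4380 (nat_lit 7354) (nat_lit 10) (nat_lit 10))
    (@En.n l134 (nat_lit 7352) (nat_lit 11) (nat_lit 11))
    (@En.n l8557 (nat_lit 11295) (nat_lit 12) (nat_lit 11))
    (@En.n l8556 (nat_lit 7958) (nat_lit 13) (nat_lit 4))
    (@En.n l8558 (nat_lit 7347) (nat_lit 14) (nat_lit 11))
    (@En.i (nat_lit 9410) (nat_lit 1) (nat_lit 6))
    (@En.n l3 (nat_lit 7350) (nat_lit 15) (nat_lit 2))))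
  (@Cl.mk (nat_lit 0x20006000a0004000e000b0002000b0006000c0005000a00050004000e000c) (nat_lit 0x40b80404070071) (nat_lit 16) Lb.e (@T16.mk En
    (@En.n l68 (nat_lit 6862) (nat_lit 7) (nat_lit 12))
    (@En.n l3488 (nat_lit 8930) (nat_lit 1) (nat_lit 14))
    (@En.n l3489 (nat_lit 6781) (nat_lit 2) (nat_lit 4))
    (@En.n l18 (nat_lit 1328) (nat_lit 3) (nat_lit 5))
    (@En.n l3490 (nat_lit 8081) (nat_lit 4) (nat_lit 10))
    (@En.n l265 (nat_lit 10612) (nat_lit 5) (nat_lit 5))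
    (@En.i (nat_lit 2718) (nat_lit 7) (nat_lit 12))
    (@En.n l61 (nat_lit 8130) (nat_lit 7) (nat_lit 6))
    (@En.n l3491 (nat_lit 7353) (nat_lit 9) (nat_lit 11))
    (@En.n l7 (nat_lit 7351) (nat_lit 9) (nat_lit 2))
    (@En.n l3492 (nat_lit 7350) (nat_lit 11) (nat_lit 11))
    (@En.n l3493 (nat_lit 12526) (nat_lit 12) (nat_lit 14))
    (@En.i (nat_lit 9824) (nat_lit 2) (nat_lit 4))
    (@En.n l2322 (nat_lit 7349) (nat_lit 14) (nat_lit 10))
    (@En.n l3476 (nat_lit 9416) (nat_lit 4) (nat_lit 6))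
    (@En.n l67 (nat_lit 7351) (nat_lit 15) (nat_lit 2))))
  (@Cl.mk (nat_lit 0x20006000c0004000b00090004000a000e00050002000a00070006000e000c) (nat_lit 0x20970380070050) (nat_lit 16) Lb.e (@T16.mk En
    (@En.n l20266 (nat_lit 7949) (nat_lit 11) (nat_lit 12))
    (@En.n l4809 (nat_lit 8946) (nat_lit 1) (nat_lit 14))
    (@En.n l1252 (nat_lit 2539) (nat_lit 2) (nat_lit 6))
    (@En.n l9770 (nat_lit 1259) (nat_lit 14) (nat_lit 7))
    (@En.n l13056 (nat_lit 9608) (nat_lit 4) (nat_lit 10))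
    (@En.n l7 (nat_lit 7352) (nat_lit 5) (nat_lit 2))
    (@En.n l28 (nat_lit 7350) (nat_lit 6) (nat_lit 5))
    (@En.n l617 (nat_lit 7413) (nat_lit 8) (nat_lit 14))
    (@En.i (nat_lit 2725) (nat_lit 9) (nat_lit 10))
    (@En.n l562 (nat_lit 8200) (nat_lit 9) (nat_lit 4))
    (@En.n l9770 (nat_lit 7759) (nat_lit 11) (nat_lit 9))
    (@En.n l20267 (nat_lit 11296) (nat_lit 12) (nat_lit 11))
    (@En.n l6680 (nat_lit 7952) (nat_lit 6) (nat_lit 4))
    (@En.n l13056 (nat_lit 7313) (nat_lit 8) (nat_lit 12))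
    (@En.i (nat_lit 9407) (nat_lit 8) (nat_lit 6))
    (@En.n l3 (nat_lit 7352) (nat_lit 15) (nat_lit 2))))
  (@Cl.mk (nat_lit 0x20007000b00040008000c000b0005000b00040009000500080005000e000c) (nat_lit 0x20383020603041) (nat_lit 16) Lb.e (@T16.mk En
    (@En.n l9851 (nat_lit 6866) (nat_lit 3) (nat_lit 12))
    (@En.n l9852 (nat_lit 7868) (nat_lit 1) (nat_lit 14))
    (@En.n l8551 (nat_lit 7350) (nat_lit 2) (nat_lit 5))
    (@En.n l9853 (nat_lit 7671) (nat_lit 3) (nat_lit 8))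
    (@En.n l17 (nat_lit 994) (nat_lit 4) (nat_lit 5))
    (@En.n l9854 (nat_lit 9562) (nat_lit 5) (nat_lit 9))
    (@En.n l6918 (nat_lit 10613) (nat_lit 6) (nat_lit 4))
    (@En.n l9855 (nat_lit 1029) (nat_lit 8) (nat_lit 11))
    (@En.n l9856 (nat_lit 9344) (nat_lit 8) (nat_lit 5))
    (@En.n l637 (nat_lit 7355) (nat_lit 10) (nat_lit 11))
    (@En.n l9857 (nat_lit 7354) (nat_lit 11) (nat_lit 12))
    (@En.n l9858 (nat_lit 5431) (nat_lit 12) (nat_lit 8))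
    (@En.n l9855 (nat_lit 8836) (nat_lit 13) (nat_lit 4))
    (@En.i (nat_lit 7262) (nat_lit 14) (nat_lit 11))
    (@En.n l9859 (nat_lit 10567) (nat_lit 1) (nat_lit 7))
    (@En.n l7 (nat_lit 7353) (nat_lit 15) (nat_lit 2))))
  (@Cl.mk (nat_lit 0x20007000c0004000c000a0004000a0004000d0009000600030006000e000c) (nat_lit 0x20770306600070) (nat_lit 16) Lb.e (@T16.mk En
    (@En.n l3247 (nat_lit 7358) (nat_lit 13) (nat_lit 12))
    (@En.n l20262 (nat_lit 8765) (nat_lit 1) (nat_lit 14))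
    (@En.n l612 (nat_lit 7352) (nat_lit 2) (nat_lit 6))
    (@En.n l50 (nat_lit 7356) (nat_lit 3) (nat_lit 3))
    (@En.n l5556 (nat_lit 993) (nat_lit 0) (nat_lit 6))
    (@En.n l9850 (nat_lit 9361) (nat_lit 5) (nat_lit 9))
    (@En.n l20263 (nat_lit 7355) (nat_lit 7) (nat_lit 13))
    (@En.n l20264 (nat_lit 10608) (nat_lit 7) (nat_lit 4))
    (@En.n l2259 (nat_lit 1031) (nat_lit 9) (nat_lit 10))
    (@En.n l339 (nat_lit 10017) (nat_lit 9) (nat_lit 4))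
    (@En.n l4839 (nat_lit 7758) (nat_lit 11) (nat_lit 10))
    (@En.n l5556 (nat_lit 11234) (nat_lit 12) (nat_lit 12))
    (@En.n l2259 (nat_lit 9552) (nat_lit 8) (nat_lit 4))
    (@En.n l20265 (nat_lit 7233) (nat_lit 14) (nat_lit 12))
    (@En.i (nat_lit 10569) (nat_lit 1) (nat_lit 7))
    (@En.n l3 (nat_lit 7354) (nat_lit 15) (nat_lit 2))))
  (@Cl.mk (nat_lit 0x20008000c00040008000b0004000a000d00080005000300080006000e000c) (nat_lit 0x30320255004090) (nat_lit 16) Lb.e (@T16.mk En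
    (@En.n l564 (nat_lit 7359) (nat_lit 12) (nat_lit 12))
    (@En.n l14615 (nat_lit 7844) (nat_lit 1) (nat_lit 14))
    (@En.n l8565 (nat_lit 7354) (nat_lit 2) (nat_lit 6))
    (@En.n l2037 (nat_lit 7353) (nat_lit 3) (nat_lit 8))
    (@En.n l11610 (nat_lit 7357) (nat_lit 4) (nat_lit 3))
    (@En.n l3340 (nat_lit 992) (nat_lit 0) (nat_lit 5))
    (@En.n l3596 (nat_lit 9564) (nat_lit 6) (nat_lit 8))
    (@En.i (nat_lit 3449) (nat_lit 8) (nat_lit 13))
    (@En.n l4991 (nat_lit 1030) (nat_lit 9) (nat_lit 10))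
    (@En.i (nat_lit 10019) (nat_lit 9) (nat_lit 4))
    (@En.i (nat_lit 7760) (nat_lit 7) (nat_lit 11))
    (@En.n l3340 (nat_lit 3983) (nat_lit 12) (nat_lit 8))
    (@En.n l4991 (nat_lit 9554) (nat_lit 7) (nat_lit 4))
    (@En.i (nat_lit 7228) (nat_lit 14) (nat_lit 12))
    (@En.n l13756 (nat_lit 10568) (nat_lit 1) (nat_lit 8))
    (@En.n l50 (nat_lit 7355) (nat_lit 15) (nat_lit 2))))
  (@Cl.mk (nat_lit 0x20006000c0004000c000b0004000a0004000d0005000a00030006000e000c) (nat_lit 0x20750206070070) (nat_lit 16) Lb.e (@T16.mk En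
    (@En.n l3247 (nat_lit 9537) (nat_lit 13) (nat_lit 12))
    (@En.i (nat_lit 8763) (nat_lit 1) (nat_lit 14))
    (@En.n l387 (nat_lit 8186) (nat_lit 2) (nat_lit 6))
    (@En.i (nat_lit 7354) (nat_lit 3) (nat_lit 3))
    (@En.i (nat_lit 12086) (nat_lit 0) (nat_lit 10))
    (@En.n l28 (nat_lit 7350) (nat_lit 5) (nat_lit 5))
    (@En.n l11835 (nat_lit 7357) (nat_lit 7) (nat_lit 13))
    (@En.n l28 (nat_lit 10610) (nat_lit 7) (nat_lit 4))
    (@En.i (nat_lit 4254) (nat_lit 9) (nat_lit 10))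
    (@En.i (nat_lit 10015) (nat_lit 9) (nat_lit 4))
    (@En.n l77 (nat_lit 8531) (nat_lit 11) (nat_lit 11))
    (@En.i (nat_lit 11236) (nat_lit 12) (nat_lit 12))
    (@En.n l6680 (nat_lit 9551) (nat_lit 8) (nat_lit 4))
    (@En.n l17 (nat_lit 7374) (nat_lit 14) (nat_lit 12))
    (@En.i (nat_lit 10574) (nat_lit 1) (nat_lit 6))
    (@En.n l3 (nat_lit 7356) (nat_lit 15) (nat_lit 2))))
  (@Cl.mk (nat_lit 0x20007000c00040008000c0004000a000d00040009000300080006000e000c) (nat_lit 0x20150250604080) (nat_lit 16) Lb.e (@T16.mk En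
    (@En.i (nat_lit 9536) (nat_lit 12) (nat_lit 12))
    (@En.i (nat_lit 7871) (nat_lit 1) (nat_lit 14))
    (@En.n l15957 (nat_lit 7356) (nat_lit 2) (nat_lit 6))
    (@En.n l33657 (nat_lit 7674) (nat_lit 3) (nat_lit 8))
    (@En.n l2199 (nat_lit 7355) (nat_lit 4) (nat_lit 3))
    (@En.n l387 (nat_lit 12778) (nat_lit 0) (nat_lit 9))
    (@En.n l18910 (nat_lit 7353) (nat_lit 6) (nat_lit 4))
    (@En.i (nat_lit 3453) (nat_lit 8) (nat_lit 13))
    (@En.n l7507 (nat_lit 4255) (nat_lit 9) (nat_lit 10))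
    (@En.i (nat_lit 10614) (nat_lit 9) (nat_lit 4))
    (@En.n l3328 (nat_lit 8610) (nat_lit 11) (nat_lit 12))
    (@En.i (nat_lit 3982) (nat_lit 12) (nat_lit 8))
    (@En.i (nat_lit 9553) (nat_lit 13) (nat_lit 4))
    (@En.n l617 (nat_lit 7223) (nat_lit 14) (nat_lit 12))
    (@En.i (nat_lit 10572) (nat_lit 1) (nat_lit 7))
    (@En.n l11 (nat_lit 7357) (nat_lit 15) (nat_lit 2))))
  (@Cl.mk (nat_lit 0x30006000c000c0006000b00040004000c000a0005000a0004000d000a0006) (nat_lit 0xa0030074030360) (nat_lit 16) Lb.e (@T16.mk En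
    (@En.n l16016 (nat_lit 990) (nat_lit 0) (nat_lit 6))
    (@En.n l29673 (nat_lit 9358) (nat_lit 14) (nat_lit 10))
    (@En.n l29674 (nat_lit 7359) (nat_lit 2) (nat_lit 13))
    (@En.n l29675 (nat_lit 7299) (nat_lit 3) (nat_lit 4))
    (@En.n l6572 (nat_lit 3860) (nat_lit 4) (nat_lit 10))
    (@En.n l25870 (nat_lit 10013) (nat_lit 5) (nat_lit 5))
    (@En.n l29676 (nat_lit 7755) (nat_lit 6) (nat_lit 10))
    (@En.n l29677 (nat_lit 9958) (nat_lit 8) (nat_lit 12))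
    (@En.n l8639 (nat_lit 7354) (nat_lit 12) (nat_lit 4))
    (@En.n l29678 (nat_lit 9540) (nat_lit 9) (nat_lit 4))
    (@En.n l29675 (nat_lit 7231) (nat_lit 0) (nat_lit 11))
    (@En.n l29679 (nat_lit 10557) (nat_lit 1) (nat_lit 6))
    (@En.n l61 (nat_lit 9533) (nat_lit 4) (nat_lit 12))
    (@En.n l5 (nat_lit 10182) (nat_lit 14) (nat_lit 12))
    (@En.n l29680 (nat_lit 7949) (nat_lit 12) (nat_lit 6))
    (@En.n l28 (nat_lit 9537) (nat_lit 15) (nat_lit 3))))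
  (@Cl.mk (nat_lit 0x300080006000c000c0007000b000400040008000b0005000a000d00090005) (nat_lit 0x40a003004403250) (nat_lit 16) Lb.e (@T16.mk En
    (@En.n l25816 (nat_lit 991) (nat_lit 0) (nat_lit 5))
    (@En.n l2604 (nat_lit 9468) (nat_lit 0) (nat_lit 9))
    (@En.i (nat_lit 4592) (nat_lit 5) (nat_lit 13))
    (@En.n l25682 (nat_lit 3861) (nat_lit 3) (nat_lit 10))
    (@En.n l20087 (nat_lit 10018) (nat_lit 4) (nat_lit 5))
    (@En.n l25682 (nat_lit 7757) (nat_lit 7) (nat_lit 11))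
    (@En.i (nat_lit 10601) (nat_lit 11) (nat_lit 8))
    (@En.n l2593 (nat_lit 7355) (nat_lit 12) (nat_lit 4))
    (@En.n l35077 (nat_lit 8843) (nat_lit 8) (nat_lit 4))
    (@En.i (nat_lit 7225) (nat_lit 0) (nat_lit 11))
    (@En.n l25682 (nat_lit 10556) (nat_lit 1) (nat_lit 7))
    (@En.n l35078 (nat_lit 9532) (nat_lit 4) (nat_lit 12))
    (@En.n l5378 (nat_lit 10303) (nat_lit 13) (nat_lit 12))
    (@En.n l35079 (nat_lit 7358) (nat_lit 14) (nat_lit 6))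
    (@En.n l25814 (nat_lit 6866) (nat_lit 5) (nat_lit 8))
    (@En.n l17173 (nat_lit 9536) (nat_lit 15) (nat_lit 3))))
noncomputable def a460 : T16 Cl := @T16.mk Cl
  (@Cl.mk (nat_lit 0x200060003000a000d000b000a0003000b00060005000a00060005000e000d) (nat_lit 0x6688040080041) (nat_lit 16) Lb.e (@T16.mk En
    (@En.n l10140 (nat_lit 4341) (nat_lit 2) (nat_lit 13))
    (@En.n l7246 (nat_lit 9737) (nat_lit 1) (nat_lit 14))
    (@En.n l18 (nat_lit 4259) (nat_lit 2) (nat_lit 5))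
    (@En.n l16500 (nat_lit 7362) (nat_lit 3) (nat_lit 6))
    (@En.i (nat_lit 8127) (nat_lit 4) (nat_lit 10))
    (@En.n l16500 (nat_lit 7325) (nat_lit 5) (nat_lit 5))
    (@En.n l11415 (nat_lit 7212) (nat_lit 6) (nat_lit 6))
    (@En.n l2346 (nat_lit 7053) (nat_lit 8) (nat_lit 11))
    (@En.n l11287 (nat_lit 7331) (nat_lit 8) (nat_lit 3))
    (@En.n l3348 (nat_lit 4865) (nat_lit 10) (nat_lit 10))
    (@En.i (nat_lit 7324) (nat_lit 11) (nat_lit 11))
    (@En.n l2195 (nat_lit 7404) (nat_lit 12) (nat_lit 13))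
    (@En.n l4861 (nat_lit 10864) (nat_lit 13) (nat_lit 10))
    (@En.n l10143 (nat_lit 4341) (nat_lit 14) (nat_lit 3))
    (@En.i (nat_lit 6676) (nat_lit 0) (nat_lit 6))
    (@En.n l3 (nat_lit 7360) (nat_lit 15) (nat_lit 2))))
  (@Cl.mk (nat_lit 0x300030009000c000a000a00070004000c0007000600060004000d000d0009) (nat_lit 0x66780050000681) (nat_lit 16) Lb.e (@T16.mk En
    (@En.n l3593 (nat_lit 5153) (nat_lit 0) (nat_lit 9))
    (@En.n l22897 (nat_lit 7372) (nat_lit 3) (nat_lit 13))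
    (@En.n l11429 (nat_lit 8501) (nat_lit 2) (nat_lit 13))
    (@En.n l11469 (nat_lit 4205) (nat_lit 3) (nat_lit 4))
    (@En.n l17135 (nat_lit 4011) (nat_lit 10) (nat_lit 6))
    (@En.i (nat_lit 7113) (nat_lit 5) (nat_lit 6))
    (@En.n l10226 (nat_lit 7203) (nat_lit 6) (nat_lit 7))
    (@En.n l11434 (nat_lit 7015) (nat_lit 8) (nat_lit 12))
    (@En.n l32700 (nat_lit 7366) (nat_lit 8) (nat_lit 4))
    (@En.n l403 (nat_lit 8656) (nat_lit 0) (nat_lit 7))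
    (@En.n l17138 (nat_lit 4810) (nat_lit 6) (nat_lit 10))
    (@En.n l32701 (nat_lit 7314) (nat_lit 12) (nat_lit 10))
    (@En.n l6919 (nat_lit 3615) (nat_lit 6) (nat_lit 12))
    (@En.n l32702 (nat_lit 9895) (nat_lit 14) (nat_lit 9))
    (@En.n l18 (nat_lit 7362) (nat_lit 13) (nat_lit 3))
    (@En.n l22900 (nat_lit 7372) (nat_lit 0) (nat_lit 3))))
  (@Cl.mk (nat_lit 0x2000a00030009000c000a000a00060004000c0007000600060004000e000d) (nat_lit 0x606578006000077) (nat_lit 16) Lb.e (@T16.mk En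
    (@En.n l396 (nat_lit 7361) (nat_lit 2) (nat_lit 13))
    (@En.i (nat_lit 8296) (nat_lit 1) (nat_lit 14))
    (@En.n l11469 (nat_lit 4204) (nat_lit 2) (nat_lit 4))
    (@En.n l17135 (nat_lit 4013) (nat_lit 10) (nat_lit 6))
    (@En.i (nat_lit 7112) (nat_lit 4) (nat_lit 6))
    (@En.n l17136 (nat_lit 7363) (nat_lit 5) (nat_lit 7))
    (@En.n l17137 (nat_lit 7017) (nat_lit 7) (nat_lit 12))
    (@En.n l7646 (nat_lit 7365) (nat_lit 7) (nat_lit 4))
    (@En.n l2364 (nat_lit 8650) (nat_lit 8) (nat_lit 6))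
    (@En.n l17138 (nat_lit 7364) (nat_lit 6) (nat_lit 10))
    (@En.n l17139 (nat_lit 7347) (nat_lit 11) (nat_lit 10))
    (@En.n l17140 (nat_lit 3620) (nat_lit 6) (nat_lit 12))
    (@En.n l7646 (nat_lit 10990) (nat_lit 13) (nat_lit 9))
    (@En.i (nat_lit 7361) (nat_lit 14) (nat_lit 3))
    (@En.n l699 (nat_lit 5056) (nat_lit 0) (nat_lit 10))
    (@En.n l50 (nat_lit 7362) (nat_lit 15) (nat_lit 2))))
  (@Cl.mk (nat_lit 0x20009000300090007000c000b000b000700040007000500050009000e000d) (nat_lit 0x205068900000467) (nat_lit 16) Lb.e (@T16.mk En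
    (@En.n l11399 (nat_lit 7203) (nat_lit 2) (nat_lit 13))
    (@En.n l11400 (nat_lit 8294) (nat_lit 1) (nat_lit 14))
    (@En.i (nat_lit 5517) (nat_lit 2) (nat_lit 9))
    (@En.n l11401 (nat_lit 7388) (nat_lit 3) (nat_lit 5))
    (@En.n l11402 (nat_lit 7114) (nat_lit 4) (nat_lit 5))
    (@En.n l10882 (nat_lit 4479) (nat_lit 5) (nat_lit 7))
    (@En.n l1003 (nat_lit 7204) (nat_lit 6) (nat_lit 4))
    (@En.i (nat_lit 8652) (nat_lit 7) (nat_lit 7))
    (@En.n l3081 (nat_lit 7196) (nat_lit 5) (nat_lit 11))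
    (@En.n l11403 (nat_lit 7218) (nat_lit 10) (nat_lit 11))
    (@En.n l11402 (nat_lit 7362) (nat_lit 11) (nat_lit 12))
    (@En.i (nat_lit 7268) (nat_lit 12) (nat_lit 7))
    (@En.n l11404 (nat_lit 10991) (nat_lit 13) (nat_lit 9))
    (@En.n l11400 (nat_lit 7203) (nat_lit 14) (nat_lit 3))
    (@En.i (nat_lit 5149) (nat_lit 0) (nat_lit 9))
    (@En.n l50 (nat_lit 7363) (nat_lit 15) (nat_lit 2))))
  (@Cl.mk (nat_lit 0x20005000e000d0002000b0003000a000d000a00050003000b0006000e0006) (nat_lit 0x81050597005030) (nat_lit 16) Lb.e (@T16.mk En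
    (@En.n l11560 (nat_lit 7362) (nat_lit 4) (nat_lit 6))
    (@En.n l3 (nat_lit 4809) (nat_lit 1) (nat_lit 14))
    (@En.n l3 (nat_lit 7196) (nat_lit 2) (nat_lit 6))
    (@En.n l6645 (nat_lit 7014) (nat_lit 3) (nat_lit 11))
    (@En.n l50 (nat_lit 7367) (nat_lit 4) (nat_lit 3))
    (@En.n l3264 (nat_lit 12547) (nat_lit 5) (nat_lit 5))
    (@En.n l6645 (nat_lit 7374) (nat_lit 11) (nat_lit 10))
    (@En.n l17725 (nat_lit 3617) (nat_lit 8) (nat_lit 13))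
    (@En.i (nat_lit 8049) (nat_lit 9) (nat_lit 10))
    (@En.i (nat_lit 4810) (nat_lit 9) (nat_lit 3))
    (@En.n l3264 (nat_lit 5062) (nat_lit 11) (nat_lit 11))
    (@En.n l11 (nat_lit 7364) (nat_lit 11) (nat_lit 2))
    (@En.n l1578 (nat_lit 4810) (nat_lit 13) (nat_lit 13))
    (@En.n l19554 (nat_lit 8295) (nat_lit 1) (nat_lit 14))
    (@En.n l3106 (nat_lit 5543) (nat_lit 13) (nat_lit 5))
    (@En.n l17 (nat_lit 7364) (nat_lit 15) (nat_lit 2))))
  (@Cl.mk (nat_lit 0x2000c00030009000c0004000b000b0004000c0007000500050004000e000d) (nat_lit 0x306509606000039) (nat_lit 16) Lb.e (@T16.mk En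
    (@En.i (nat_lit 7366) (nat_lit 2) (nat_lit 13))
    (@En.n l134 (nat_lit 8559) (nat_lit 1) (nat_lit 14))
    (@En.n l3535 (nat_lit 6986) (nat_lit 2) (nat_lit 4))
    (@En.n l152 (nat_lit 4003) (nat_lit 11) (nat_lit 5))
    (@En.n l3647 (nat_lit 7377) (nat_lit 4) (nat_lit 5))
    (@En.i (nat_lit 7204) (nat_lit 5) (nat_lit 7))
    (@En.n l1722 (nat_lit 3774) (nat_lit 7) (nat_lit 12))
    (@En.n l2125 (nat_lit 7287) (nat_lit 7) (nat_lit 4))
    (@En.n l3536 (nat_lit 7367) (nat_lit 5) (nat_lit 11))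
    (@En.n l2711 (nat_lit 7360) (nat_lit 10) (nat_lit 11))
    (@En.n l2938 (nat_lit 7368) (nat_lit 10) (nat_lit 4))
    (@En.n l709 (nat_lit 3557) (nat_lit 6) (nat_lit 12))
    (@En.i (nat_lit 8053) (nat_lit 13) (nat_lit 9))
    (@En.n l4172 (nat_lit 7366) (nat_lit 14) (nat_lit 3))
    (@En.i (nat_lit 7512) (nat_lit 0) (nat_lit 12))
    (@En.n l7 (nat_lit 7365) (nat_lit 15) (nat_lit 2))))
  (@Cl.mk (nat_lit 0x300030009000c0005000b000b0004000c0007000500050004000d000d000b) (nat_lit 0x530930800008a2) (nat_lit 16) Lb.e (@T16.mk En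
    (@En.n l601 (nat_lit 6363) (nat_lit 0) (nat_lit 11))
    (@En.n l24525 (nat_lit 7373) (nat_lit 3) (nat_lit 13))
    (@En.n l23411 (nat_lit 8153) (nat_lit 2) (nat_lit 13))
    (@En.n l24526 (nat_lit 6985) (nat_lit 3) (nat_lit 4))
    (@En.n l24527 (nat_lit 4005) (nat_lit 11) (nat_lit 5))
    (@En.n l24528 (nat_lit 7376) (nat_lit 5) (nat_lit 5))
    (@En.n l24529 (nat_lit 7201) (nat_lit 6) (nat_lit 7))
    (@En.n l24530 (nat_lit 3691) (nat_lit 8) (nat_lit 12))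
    (@En.n l24531 (nat_lit 7282) (nat_lit 8) (nat_lit 4))
    (@En.n l24532 (nat_lit 7200) (nat_lit 5) (nat_lit 11))
    (@En.n l8680 (nat_lit 4341) (nat_lit 11) (nat_lit 11))
    (@En.n l24533 (nat_lit 7370) (nat_lit 12) (nat_lit 5))
    (@En.n l24534 (nat_lit 3559) (nat_lit 6) (nat_lit 12))
    (@En.n l9966 (nat_lit 9495) (nat_lit 14) (nat_lit 9))
    (@En.n l77 (nat_lit 7365) (nat_lit 13) (nat_lit 3))
    (@En.n l7543 (nat_lit 7373) (nat_lit 0) (nat_lit 3))))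
  (@Cl.mk (nat_lit 0x20005000e000d0002000c0003000a000d0004000b0003000b0006000e0005) (nat_lit 0x4a050580505050) (nat_lit 16) Lb.e (@T16.mk En
    (@En.n l3098 (nat_lit 7365) (nat_lit 4) (nat_lit 5))
    (@En.n l3 (nat_lit 7500) (nat_lit 1) (nat_lit 14))
    (@En.n l3 (nat_lit 7199) (nat_lit 2) (nat_lit 6))
    (@En.n l16483 (nat_lit 3967) (nat_lit 3) (nat_lit 11))
    (@En.i (nat_lit 7364) (nat_lit 4) (nat_lit 3))
    (@En.i (nat_lit 4861) (nat_lit 10) (nat_lit 11))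
    (@En.i (nat_lit 7369) (nat_lit 6) (nat_lit 4))
    (@En.n l5033 (nat_lit 3618) (nat_lit 8) (nat_lit 13))
    (@En.i (nat_lit 8048) (nat_lit 9) (nat_lit 10))
    (@En.i (nat_lit 7200) (nat_lit 9) (nat_lit 3))
    (@En.i (nat_lit 7504) (nat_lit 11) (nat_lit 12))
    (@En.n l11 (nat_lit 7367) (nat_lit 11) (nat_lit 2))
    (@En.n l1578 (nat_lit 7200) (nat_lit 13) (nat_lit 13))
    (@En.n l6647 (nat_lit 8760) (nat_lit 1) (nat_lit 14))
    (@En.n l3106 (nat_lit 5546) (nat_lit 13) (nat_lit 5))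
    (@En.n l17 (nat_lit 7367) (nat_lit 15) (nat_lit 2))))
  (@Cl.mk (nat_lit 0x2000c000a0004000a0004000b000b0006000c0006000500050004000e000c) (nat_lit 0x770701705000066) (nat_lit 16) Lb.e (@T16.mk En
    (@En.n l68 (nat_lit 7370) (nat_lit 3) (nat_lit 12))
    (@En.i (nat_lit 8292) (nat_lit 1) (nat_lit 14))
    (@En.n l7430 (nat_lit 10238) (nat_lit 2) (nat_lit 4))
    (@En.n l14637 (nat_lit 8844) (nat_lit 11) (nat_lit 5))
    (@En.i (nat_lit 10233) (nat_lit 4) (nat_lit 5))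
    (@En.n l13918 (nat_lit 8712) (nat_lit 5) (nat_lit 6))
    (@En.i (nat_lit 3587) (nat_lit 7) (nat_lit 12))
    (@En.n l742 (nat_lit 9833) (nat_lit 7) (nat_lit 6))
    (@En.n l14641 (nat_lit 7369) (nat_lit 5) (nat_lit 11))
    (@En.n l29532 (nat_lit 7350) (nat_lit 10) (nat_lit 11))
    (@En.n l29533 (nat_lit 6363) (nat_lit 10) (nat_lit 4))
    (@En.n l30510 (nat_lit 10881) (nat_lit 12) (nat_lit 10))
    (@En.i (nat_lit 9970) (nat_lit 1) (nat_lit 4))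
    (@En.n l9885 (nat_lit 7362) (nat_lit 14) (nat_lit 10))
    (@En.n l8015 (nat_lit 12154) (nat_lit 1) (nat_lit 12))
    (@En.n l67 (nat_lit 7368) (nat_lit 15) (nat_lit 2))))
  (@Cl.mk (nat_lit 0x20005000e000c0002000c000b0004000b0004000b0005000b0005000e0005) (nat_lit 0x97006000604020) (nat_lit 16) Lb.e (@T16.mk En
    (@En.n l17524 (nat_lit 7368) (nat_lit 4) (nat_lit 5))
    (@En.n l3 (nat_lit 10750) (nat_lit 1) (nat_lit 14))
    (@En.n l17525 (nat_lit 10748) (nat_lit 2) (nat_lit 5))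
    (@En.n l3763 (nat_lit 3064) (nat_lit 3) (nat_lit 11))
    (@En.n l17526 (nat_lit 11343) (nat_lit 4) (nat_lit 5))
    (@En.n l6646 (nat_lit 7356) (nat_lit 10) (nat_lit 11))
    (@En.n l7 (nat_lit 5889) (nat_lit 6) (nat_lit 4))
    (@En.i (nat_lit 8051) (nat_lit 8) (nat_lit 11))
    (@En.n l3763 (nat_lit 9975) (nat_lit 8) (nat_lit 4))
    (@En.n l644 (nat_lit 7364) (nat_lit 10) (nat_lit 11))
    (@En.n l16478 (nat_lit 12129) (nat_lit 11) (nat_lit 12))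
    (@En.n l11 (nat_lit 7369) (nat_lit 11) (nat_lit 2))
    (@En.n l17527 (nat_lit 7371) (nat_lit 13) (nat_lit 12))
    (@En.n l6647 (nat_lit 8291) (nat_lit 1) (nat_lit 14))
    (@En.n l3106 (nat_lit 10340) (nat_lit 13) (nat_lit 5))
    (@En.n l17 (nat_lit 7369) (nat_lit 15) (nat_lit 2))))
  (@Cl.mk (nat_lit 0x40004000a0005000b000b0007000c0006000500050004000c000c000b0009) (nat_lit 0x70100400005062) (nat_lit 16) Lb.e (@T16.mk En
    (@En.n l9885 (nat_lit 7361) (nat_lit 0) (nat_lit 9))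
    (@En.n l55 (nat_lit 9971) (nat_lit 5) (nat_lit 11))
    (@En.n l619 (nat_lit 8918) (nat_lit 4) (nat_lit 12))
    (@En.i (nat_lit 8752) (nat_lit 3) (nat_lit 12))
    (@En.n l29499 (nat_lit 10240) (nat_lit 12) (nat_lit 4))
    (@En.n l2172 (nat_lit 8267) (nat_lit 11) (nat_lit 5))
    (@En.i (nat_lit 10230) (nat_lit 11) (nat_lit 5))
    (@En.n l13906 (nat_lit 8719) (nat_lit 0) (nat_lit 6))
    (@En.i (nat_lit 3818) (nat_lit 8) (nat_lit 12))
    (@En.n l742 (nat_lit 8754) (nat_lit 2) (nat_lit 7))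
    (@En.n l396 (nat_lit 7371) (nat_lit 5) (nat_lit 11))
    (@En.n l7 (nat_lit 6867) (nat_lit 12) (nat_lit 11))
    (@En.i (nat_lit 5883) (nat_lit 7) (nat_lit 5))
    (@En.i (nat_lit 9353) (nat_lit 14) (nat_lit 10))
    (@En.n l11 (nat_lit 7368) (nat_lit 12) (nat_lit 4))
    (@En.n l152 (nat_lit 9968) (nat_lit 0) (nat_lit 4))))
  (@Cl.mk (nat_lit 0x20005000c000c000b000a00040004000b0005000b0006000b0005000e0005) (nat_lit 0x60010000904090) (nat_lit 16) Lb.e (@T16.mk En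
    (@En.n l50 (nat_lit 7370) (nat_lit 6) (nat_lit 5))
    (@En.n l33239 (nat_lit 10749) (nat_lit 1) (nat_lit 14))
    (@En.n l18266 (nat_lit 8730) (nat_lit 2) (nat_lit 5))
    (@En.i (nat_lit 3847) (nat_lit 3) (nat_lit 11))
    (@En.i (nat_lit 11337) (nat_lit 4) (nat_lit 6))
    (@En.n l2944 (nat_lit 9537) (nat_lit 6) (nat_lit 11))
    (@En.n l33240 (nat_lit 5881) (nat_lit 6) (nat_lit 5))
    (@En.n l8304 (nat_lit 9470) (nat_lit 8) (nat_lit 11))
    (@En.n l8304 (nat_lit 7369) (nat_lit 8) (nat_lit 4))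
    (@En.n l152 (nat_lit 9974) (nat_lit 9) (nat_lit 4))
    (@En.n l10576 (nat_lit 4810) (nat_lit 11) (nat_lit 10))
    (@En.n l55 (nat_lit 8912) (nat_lit 12) (nat_lit 11))
    (@En.n l2940 (nat_lit 8924) (nat_lit 13) (nat_lit 12))
    (@En.n l8030 (nat_lit 8751) (nat_lit 14) (nat_lit 12))
    (@En.n l33241 (nat_lit 11128) (nat_lit 13) (nat_lit 5))
    (@En.n l18 (nat_lit 7371) (nat_lit 15) (nat_lit 2))))
  (@Cl.mk (nat_lit 0x20009000c000a000a00080004000c0007000600060004000d0008000e0003) (nat_lit 0x567560500007430) (nat_lit 16) Lb.e (@T16.mk En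
    (@En.n l9451 (nat_lit 7361) (nat_lit 15) (nat_lit 3))
    (@En.n l2711 (nat_lit 13854) (nat_lit 0) (nat_lit 14))
    (@En.n l1240 (nat_lit 6951) (nat_lit 2) (nat_lit 8))
    (@En.i (nat_lit 8499) (nat_lit 2) (nat_lit 13))
    (@En.n l17017 (nat_lit 4207) (nat_lit 4) (nat_lit 4))
    (@En.n l11 (nat_lit 7390) (nat_lit 5) (nat_lit 6))
    (@En.n l18752 (nat_lit 7431) (nat_lit 6) (nat_lit 6))
    (@En.n l17 (nat_lit 7391) (nat_lit 7) (nat_lit 7))
    (@En.n l18752 (nat_lit 7016) (nat_lit 9) (nat_lit 12))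
    (@En.n l12686 (nat_lit 7373) (nat_lit 9) (nat_lit 4))
    (@En.n l1240 (nat_lit 9082) (nat_lit 11) (nat_lit 8))
    (@En.n l5581 (nat_lit 4811) (nat_lit 6) (nat_lit 10))
    (@En.n l5582 (nat_lit 7334) (nat_lit 13) (nat_lit 10))
    (@En.n l8766 (nat_lit 3616) (nat_lit 6) (nat_lit 12))
    (@En.i (nat_lit 9019) (nat_lit 14) (nat_lit 9))
    (@En.n l50 (nat_lit 7372) (nat_lit 15) (nat_lit 2))))
  (@Cl.mk (nat_lit 0x20009000c0006000b000b0004000c0007000500050004000d000a000e0003) (nat_lit 0x5209505000091b0) (nat_lit 16) Lb.e (@T16.mk En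
    (@En.n l10975 (nat_lit 7366) (nat_lit 15) (nat_lit 3))
    (@En.i (nat_lit 13365) (nat_lit 0) (nat_lit 14))
    (@En.n l5 (nat_lit 6763) (nat_lit 2) (nat_lit 10))
    (@En.n l10976 (nat_lit 8150) (nat_lit 2) (nat_lit 13))
    (@En.n l10977 (nat_lit 6989) (nat_lit 4) (nat_lit 4))
    (@En.n l10978 (nat_lit 4008) (nat_lit 11) (nat_lit 5))
    (@En.i (nat_lit 7378) (nat_lit 6) (nat_lit 5))
    (@En.n l1553 (nat_lit 7205) (nat_lit 7) (nat_lit 7))
    (@En.n l2817 (nat_lit 3690) (nat_lit 9) (nat_lit 12))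
    (@En.n l9626 (nat_lit 7281) (nat_lit 9) (nat_lit 4))
    (@En.n l3258 (nat_lit 7458) (nat_lit 5) (nat_lit 11))
    (@En.n l10977 (nat_lit 4338) (nat_lit 12) (nat_lit 11))
    (@En.n l10979 (nat_lit 8918) (nat_lit 13) (nat_lit 6))
    (@En.n l158 (nat_lit 3564) (nat_lit 6) (nat_lit 12))
    (@En.i (nat_lit 9492) (nat_lit 14) (nat_lit 9))
    (@En.n l17 (nat_lit 7373) (nat_lit 15) (nat_lit 2))))
  (@Cl.mk (nat_lit 0x2000c0003000b000a0004000b000a0005000d0006000500030006000e000d) (nat_lit 0x10660240800008a) (nat_lit 16) Lb.e (@T16.mk En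
    (@En.n l617 (nat_lit 7226) (nat_lit 2) (nat_lit 13))
    (@En.i (nat_lit 8761) (nat_lit 1) (nat_lit 14))
    (@En.n l11153 (nat_lit 5822) (nat_lit 12) (nat_lit 6))
    (@En.n l18664 (nat_lit 7233) (nat_lit 3) (nat_lit 3))
    (@En.n l11150 (nat_lit 7367) (nat_lit 0) (nat_lit 5))
    (@En.n l14061 (nat_lit 7347) (nat_lit 5) (nat_lit 6))
    (@En.n l24642 (nat_lit 7223) (nat_lit 7) (nat_lit 13))
    (@En.n l24642 (nat_lit 7219) (nat_lit 7) (nat_lit 5))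
    (@En.i (nat_lit 6987) (nat_lit 9) (nat_lit 10))
    (@En.n l4204 (nat_lit 7210) (nat_lit 10) (nat_lit 11))
    (@En.n l4315 (nat_lit 9159) (nat_lit 10) (nat_lit 4))
    (@En.n l77 (nat_lit 4384) (nat_lit 12) (nat_lit 10))
    (@En.n l28400 (nat_lit 11422) (nat_lit 13) (nat_lit 11))
    (@En.n l6680 (nat_lit 7226) (nat_lit 14) (nat_lit 3))
    (@En.n l61 (nat_lit 5464) (nat_lit 0) (nat_lit 12))
    (@En.n l3 (nat_lit 7374) (nat_lit 15) (nat_lit 2))))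
  (@Cl.mk (nat_lit 0x2000b000a0006000b000a0005000d0006000500030006000d000a000e0003) (nat_lit 0x6302309000091b0) (nat_lit 16) Lb.e (@T16.mk En
    (@En.n l11217 (nat_lit 7226) (nat_lit 15) (nat_lit 3))
    (@En.i (nat_lit 13897) (nat_lit 0) (nat_lit 14))
    (@En.n l5 (nat_lit 4444) (nat_lit 2) (nat_lit 10))
    (@En.n l420 (nat_lit 8703) (nat_lit 2) (nat_lit 13))
    (@En.n l4525 (nat_lit 5820) (nat_lit 12) (nat_lit 6))
    (@En.n l7839 (nat_lit 7239) (nat_lit 5) (nat_lit 3))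
    (@En.n l4847 (nat_lit 7458) (nat_lit 0) (nat_lit 5))
    (@En.i (nat_lit 7334) (nat_lit 7) (nat_lit 6))
    (@En.n l9591 (nat_lit 7224) (nat_lit 9) (nat_lit 13))
    (@En.n l1553 (nat_lit 7292) (nat_lit 9) (nat_lit 5))
    (@En.i (nat_lit 6988) (nat_lit 11) (nat_lit 10))
    (@En.n l1553 (nat_lit 7426) (nat_lit 12) (nat_lit 11))
    (@En.n l34672 (nat_lit 8925) (nat_lit 13) (nat_lit 6))
    (@En.n l619 (nat_lit 4416) (nat_lit 14) (nat_lit 10))
    (@En.i (nat_lit 10947) (nat_lit 9) (nat_lit 11))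
    (@En.n l17 (nat_lit 7375) (nat_lit 15) (nat_lit 2))))
noncomputable def a461 : T16 Cl := @T16.mk Cl
  (@Cl.mk (nat_lit 0x30003000c000b0005000b0004000c0005000d000500040003000d000d000b) (nat_lit 0x36090807000892) (nat_lit 16) Lb.e (@T16.mk En
    (@En.n l35235 (nat_lit 6362) (nat_lit 0) (nat_lit 11))
    (@En.n l12851 (nat_lit 7378) (nat_lit 3) (nat_lit 13))
    (@En.n l28959 (nat_lit 12457) (nat_lit 2) (nat_lit 13))
    (@En.n l72 (nat_lit 6984) (nat_lit 3) (nat_lit 3))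
    (@En.n l35176 (nat_lit 3436) (nat_lit 0) (nat_lit 4))
    (@En.i (nat_lit 7226) (nat_lit 5) (nat_lit 5))
    (@En.n l13902 (nat_lit 3764) (nat_lit 1) (nat_lit 13))
    (@En.n l24944 (nat_lit 3061) (nat_lit 7) (nat_lit 5))
    (@En.n l35236 (nat_lit 7267) (nat_lit 9) (nat_lit 12))
    (@En.i (nat_lit 3659) (nat_lit 9) (nat_lit 4))
    (@En.n l35237 (nat_lit 7328) (nat_lit 11) (nat_lit 11))
    (@En.n l13902 (nat_lit 10230) (nat_lit 1) (nat_lit 5))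
    (@En.n l77 (nat_lit 4415) (nat_lit 13) (nat_lit 11))
    (@En.n l3519 (nat_lit 10447) (nat_lit 14) (nat_lit 12))
    (@En.n l35238 (nat_lit 7377) (nat_lit 13) (nat_lit 3))
    (@En.n l14014 (nat_lit 7378) (nat_lit 0) (nat_lit 3))))
  (@Cl.mk (nat_lit 0x2000c0003000c000b0004000b0004000c0005000d000500040003000e000d) (nat_lit 0x301608060700089) (nat_lit 16) Lb.e (@T16.mk En
    (@En.n l23367 (nat_lit 7376) (nat_lit 2) (nat_lit 13))
    (@En.i (nat_lit 12460) (nat_lit 1) (nat_lit 14))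
    (@En.n l4037 (nat_lit 6987) (nat_lit 2) (nat_lit 3))
    (@En.n l2643 (nat_lit 3439) (nat_lit 3) (nat_lit 4))
    (@En.n l14271 (nat_lit 7374) (nat_lit 4) (nat_lit 5))
    (@En.n l3593 (nat_lit 3767) (nat_lit 6) (nat_lit 13))
    (@En.i (nat_lit 7319) (nat_lit 6) (nat_lit 5))
    (@En.n l1003 (nat_lit 7266) (nat_lit 8) (nat_lit 12))
    (@En.n l23368 (nat_lit 4573) (nat_lit 8) (nat_lit 4))
    (@En.n l725 (nat_lit 7325) (nat_lit 10) (nat_lit 11))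
    (@En.n l3593 (nat_lit 10233) (nat_lit 10) (nat_lit 4))
    (@En.n l6915 (nat_lit 4419) (nat_lit 12) (nat_lit 11))
    (@En.i (nat_lit 4709) (nat_lit 13) (nat_lit 12))
    (@En.n l8139 (nat_lit 7376) (nat_lit 14) (nat_lit 3))
    (@En.n l14271 (nat_lit 7612) (nat_lit 0) (nat_lit 12))
    (@En.n l50 (nat_lit 7377) (nat_lit 15) (nat_lit 2))))
  (@Cl.mk (nat_lit 0x2000c000b0006000b0004000c0005000d000500040003000d000a000e0003) (nat_lit 0x3509060300081b0) (nat_lit 16) Lb.e (@T16.mk En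
    (@En.n l11217 (nat_lit 7376) (nat_lit 15) (nat_lit 3))
    (@En.i (nat_lit 14002) (nat_lit 0) (nat_lit 14))
    (@En.n l5 (nat_lit 2416) (nat_lit 2) (nat_lit 10))
    (@En.n l10976 (nat_lit 12456) (nat_lit 2) (nat_lit 13))
    (@En.n l7 (nat_lit 6988) (nat_lit 4) (nat_lit 3))
    (@En.n l3865 (nat_lit 3438) (nat_lit 5) (nat_lit 4))
    (@En.i (nat_lit 7375) (nat_lit 6) (nat_lit 5))
    (@En.n l2817 (nat_lit 3768) (nat_lit 8) (nat_lit 13))
    (@En.n l10821 (nat_lit 7296) (nat_lit 8) (nat_lit 5))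
    (@En.i (nat_lit 7274) (nat_lit 10) (nat_lit 12))
    (@En.n l152 (nat_lit 3660) (nat_lit 10) (nat_lit 4))
    (@En.i (nat_lit 7341) (nat_lit 12) (nat_lit 11))
    (@En.n l10979 (nat_lit 7540) (nat_lit 13) (nat_lit 6))
    (@En.n l619 (nat_lit 4413) (nat_lit 14) (nat_lit 11))
    (@En.i (nat_lit 10448) (nat_lit 14) (nat_lit 12))
    (@En.n l17 (nat_lit 7378) (nat_lit 15) (nat_lit 2))))
  (@Cl.mk (nat_lit 0x30003000c00090005000c0004000c000c0004000700040004000d000d000b) (nat_lit 0x260804400008a2) (nat_lit 16) Lb.e (@T16.mk En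
    (@En.i (nat_lit 7641) (nat_lit 0) (nat_lit 11))
    (@En.n l19410 (nat_lit 7381) (nat_lit 3) (nat_lit 13))
    (@En.i (nat_lit 10299) (nat_lit 2) (nat_lit 13))
    (@En.n l2828 (nat_lit 7383) (nat_lit 12) (nat_lit 4))
    (@En.n l19411 (nat_lit 7376) (nat_lit 4) (nat_lit 4))
    (@En.n l3531 (nat_lit 970) (nat_lit 11) (nat_lit 7))
    (@En.n l19412 (nat_lit 7231) (nat_lit 6) (nat_lit 4))
    (@En.n l8772 (nat_lit 3436) (nat_lit 4) (nat_lit 12))
    (@En.i (nat_lit 7230) (nat_lit 9) (nat_lit 12))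
    (@En.n l19413 (nat_lit 3653) (nat_lit 9) (nat_lit 4))
    (@En.n l19414 (nat_lit 7382) (nat_lit 11) (nat_lit 12))
    (@En.n l3523 (nat_lit 8667) (nat_lit 1) (nat_lit 5))
    (@En.n l3531 (nat_lit 2146) (nat_lit 13) (nat_lit 9))
    (@En.n l2698 (nat_lit 10006) (nat_lit 14) (nat_lit 12))
    (@En.n l50 (nat_lit 7380) (nat_lit 13) (nat_lit 3))
    (@En.n l2830 (nat_lit 7381) (nat_lit 0) (nat_lit 3))))
  (@Cl.mk (nat_lit 0x2000c0003000c00090004000c0004000c000c0004000700040004000e000d) (nat_lit 0x30960a044000089) (nat_lit 16) Lb.e (@T16.mk En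
    (@En.n l601 (nat_lit 7379) (nat_lit 2) (nat_lit 13))
    (@En.i (nat_lit 12737) (nat_lit 1) (nat_lit 14))
    (@En.n l1154 (nat_lit 7386) (nat_lit 12) (nat_lit 4))
    (@En.n l899 (nat_lit 7377) (nat_lit 3) (nat_lit 4))
    (@En.n l3531 (nat_lit 969) (nat_lit 11) (nat_lit 7))
    (@En.n l10138 (nat_lit 7233) (nat_lit 5) (nat_lit 4))
    (@En.n l619 (nat_lit 3439) (nat_lit 7) (nat_lit 12))
    (@En.i (nat_lit 7265) (nat_lit 8) (nat_lit 12))
    (@En.n l10139 (nat_lit 3657) (nat_lit 8) (nat_lit 4))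
    (@En.n l5646 (nat_lit 7385) (nat_lit 10) (nat_lit 12))
    (@En.n l3523 (nat_lit 8673) (nat_lit 10) (nat_lit 4))
    (@En.n l3531 (nat_lit 2222) (nat_lit 12) (nat_lit 9))
    (@En.i (nat_lit 4700) (nat_lit 13) (nat_lit 12))
    (@En.i (nat_lit 7379) (nat_lit 14) (nat_lit 3))
    (@En.i (nat_lit 7640) (nat_lit 0) (nat_lit 12))
    (@En.n l7 (nat_lit 7380) (nat_lit 15) (nat_lit 2))))
  (@Cl.mk (nat_lit 0x2000c00090006000c0004000c000c0004000700040004000d000a000e0003) (nat_lit 0x360904400009140) (nat_lit 16) Lb.e (@T16.mk En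
    (@En.n l8238 (nat_lit 7379) (nat_lit 15) (nat_lit 3))
    (@En.n l2038 (nat_lit 14004) (nat_lit 0) (nat_lit 14))
    (@En.n l8239 (nat_lit 2414) (nat_lit 2) (nat_lit 10))
    (@En.i (nat_lit 10298) (nat_lit 2) (nat_lit 13))
    (@En.n l8230 (nat_lit 7387) (nat_lit 12) (nat_lit 4))
    (@En.n l8240 (nat_lit 7378) (nat_lit 5) (nat_lit 4))
    (@En.i (nat_lit 972) (nat_lit 11) (nat_lit 7))
    (@En.n l8241 (nat_lit 7239) (nat_lit 7) (nat_lit 4))
    (@En.n l61 (nat_lit 3438) (nat_lit 9) (nat_lit 12))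
    (@En.n l8224 (nat_lit 7276) (nat_lit 10) (nat_lit 12))
    (@En.n l8242 (nat_lit 3652) (nat_lit 10) (nat_lit 4))
    (@En.n l476 (nat_lit 7384) (nat_lit 12) (nat_lit 12))
    (@En.n l8239 (nat_lit 7538) (nat_lit 13) (nat_lit 6))
    (@En.n l3900 (nat_lit 2147) (nat_lit 14) (nat_lit 9))
    (@En.n l8243 (nat_lit 6868) (nat_lit 14) (nat_lit 12))
    (@En.n l11 (nat_lit 7381) (nat_lit 15) (nat_lit 2))))
  (@Cl.mk (nat_lit 0x30003000d0009000c0003000b000b0004000a000700050005000d000d0006) (nat_lit 0xb6701108000350) (nat_lit 16) Lb.e (@T16.mk En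
    (@En.i (nat_lit 7040) (nat_lit 0) (nat_lit 6))
    (@En.n l2691 (nat_lit 7384) (nat_lit 3) (nat_lit 13))
    (@En.n l936 (nat_lit 10295) (nat_lit 2) (nat_lit 13))
    (@En.n l2751 (nat_lit 4615) (nat_lit 11) (nat_lit 5))
    (@En.n l8081 (nat_lit 7328) (nat_lit 4) (nat_lit 5))
    (@En.n l1075 (nat_lit 7379) (nat_lit 5) (nat_lit 7))
    (@En.n l8082 (nat_lit 8319) (nat_lit 12) (nat_lit 10))
    (@En.n l8083 (nat_lit 7235) (nat_lit 7) (nat_lit 4))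
    (@En.n l61 (nat_lit 3427) (nat_lit 5) (nat_lit 11))
    (@En.n l8084 (nat_lit 2941) (nat_lit 10) (nat_lit 11))
    (@En.n l8085 (nat_lit 7406) (nat_lit 10) (nat_lit 3))
    (@En.n l2748 (nat_lit 2546) (nat_lit 6) (nat_lit 12))
    (@En.n l8086 (nat_lit 2143) (nat_lit 13) (nat_lit 9))
    (@En.n l8087 (nat_lit 10007) (nat_lit 2) (nat_lit 13))
    (@En.n l8088 (nat_lit 7385) (nat_lit 13) (nat_lit 3))
    (@En.n l5870 (nat_lit 7384) (nat_lit 0) (nat_lit 3))))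
  (@Cl.mk (nat_lit 0x2000500080004000d000d000b00030003000c00080005000b0004000e000c) (nat_lit 0x109a0005609065) (nat_lit 16) Lb.e (@T16.mk En
    (@En.n l1240 (nat_lit 7379) (nat_lit 8) (nat_lit 12))
    (@En.n l1241 (nat_lit 4609) (nat_lit 1) (nat_lit 14))
    (@En.i (nat_lit 3615) (nat_lit 2) (nat_lit 4))
    (@En.n l12 (nat_lit 4615) (nat_lit 3) (nat_lit 11))
    (@En.i (nat_lit 8665) (nat_lit 4) (nat_lit 5))
    (@En.n l1043 (nat_lit 2150) (nat_lit 5) (nat_lit 8))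
    (@En.n l564 (nat_lit 10611) (nat_lit 7) (nat_lit 12))
    (@En.n l237 (nat_lit 7386) (nat_lit 7) (nat_lit 3))
    (@En.i (nat_lit 7387) (nat_lit 8) (nat_lit 3))
    (@En.n l4380 (nat_lit 7642) (nat_lit 10) (nat_lit 11))
    (@En.n l134 (nat_lit 7387) (nat_lit 11) (nat_lit 13))
    (@En.n l11 (nat_lit 11139) (nat_lit 12) (nat_lit 13))
    (@En.n l6889 (nat_lit 6990) (nat_lit 3) (nat_lit 4))
    (@En.n l1043 (nat_lit 974) (nat_lit 10) (nat_lit 8))
    (@En.i (nat_lit 7308) (nat_lit 13) (nat_lit 5))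
    (@En.n l3 (nat_lit 7383) (nat_lit 15) (nat_lit 2))))
  (@Cl.mk (nat_lit 0x2000d0009000c0003000b000b0004000b000700050005000d0005000e0003) (nat_lit 0xb68011070004030) (nat_lit 16) Lb.e (@T16.mk En
    (@En.n l1992 (nat_lit 7382) (nat_lit 15) (nat_lit 3))
    (@En.n l619 (nat_lit 14005) (nat_lit 0) (nat_lit 14))
    (@En.n l8239 (nat_lit 6037) (nat_lit 2) (nat_lit 5))
    (@En.n l6080 (nat_lit 10296) (nat_lit 2) (nat_lit 13))
    (@En.n l8230 (nat_lit 7409) (nat_lit 11) (nat_lit 5))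
    (@En.n l8223 (nat_lit 7341) (nat_lit 5) (nat_lit 5))
    (@En.i (nat_lit 7381) (nat_lit 6) (nat_lit 7))
    (@En.n l8223 (nat_lit 8316) (nat_lit 8) (nat_lit 11))
    (@En.n l18270 (nat_lit 7237) (nat_lit 8) (nat_lit 4))
    (@En.n l61 (nat_lit 3428) (nat_lit 5) (nat_lit 11))
    (@En.n l3593 (nat_lit 2940) (nat_lit 11) (nat_lit 11))
    (@En.n l8242 (nat_lit 7407) (nat_lit 11) (nat_lit 3))
    (@En.n l18270 (nat_lit 2548) (nat_lit 6) (nat_lit 12))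
    (@En.n l10854 (nat_lit 2142) (nat_lit 14) (nat_lit 9))
    (@En.n l18577 (nat_lit 10008) (nat_lit 2) (nat_lit 13))
    (@En.n l11 (nat_lit 7384) (nat_lit 15) (nat_lit 2))))
  (@Cl.mk (nat_lit 0x200070003000d0009000c0003000b000b00040009000700050005000e000d) (nat_lit 0xb590110700084) (nat_lit 16) Lb.e (@T16.mk En
    (@En.n l3584 (nat_lit 7382) (nat_lit 2) (nat_lit 13))
    (@En.n l889 (nat_lit 12736) (nat_lit 1) (nat_lit 14))
    (@En.n l3585 (nat_lit 7402) (nat_lit 11) (nat_lit 5))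
    (@En.i (nat_lit 7325) (nat_lit 3) (nat_lit 5))
    (@En.n l1003 (nat_lit 7380) (nat_lit 4) (nat_lit 7))
    (@En.n l3586 (nat_lit 8635) (nat_lit 5) (nat_lit 9))
    (@En.n l3587 (nat_lit 7236) (nat_lit 6) (nat_lit 4))
    (@En.n l3588 (nat_lit 3433) (nat_lit 8) (nat_lit 11))
    (@En.n l3589 (nat_lit 2948) (nat_lit 9) (nat_lit 11))
    (@En.n l2413 (nat_lit 7405) (nat_lit 9) (nat_lit 3))
    (@En.n l3590 (nat_lit 2547) (nat_lit 6) (nat_lit 12))
    (@En.n l3591 (nat_lit 2151) (nat_lit 12) (nat_lit 9))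
    (@En.n l3592 (nat_lit 3422) (nat_lit 13) (nat_lit 13))
    (@En.n l3593 (nat_lit 7382) (nat_lit 14) (nat_lit 3))
    (@En.n l3586 (nat_lit 6808) (nat_lit 0) (nat_lit 7))
    (@En.n l50 (nat_lit 7385) (nat_lit 15) (nat_lit 2))))
  (@Cl.mk (nat_lit 0x2000500080004000e000d0002000c0003000c00080004000b0004000e000c) (nat_lit 0x10aa0302608045) (nat_lit 16) Lb.e (@T16.mk En
    (@En.n l965 (nat_lit 7380) (nat_lit 7) (nat_lit 12))
    (@En.n l1246 (nat_lit 4613) (nat_lit 1) (nat_lit 14))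
    (@En.n l3538 (nat_lit 3620) (nat_lit 2) (nat_lit 4))
    (@En.n l12 (nat_lit 7402) (nat_lit 3) (nat_lit 11))
    (@En.i (nat_lit 8668) (nat_lit 4) (nat_lit 4))
    (@En.n l1041 (nat_lit 2204) (nat_lit 5) (nat_lit 8))
    (@En.n l1243 (nat_lit 4559) (nat_lit 7) (nat_lit 12))
    (@En.n l28 (nat_lit 7383) (nat_lit 7) (nat_lit 3))
    (@En.n l3424 (nat_lit 7628) (nat_lit 9) (nat_lit 12))
    (@En.n l28 (nat_lit 7386) (nat_lit 9) (nat_lit 2))
    (@En.n l77 (nat_lit 7383) (nat_lit 11) (nat_lit 13))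
    (@En.n l706 (nat_lit 8161) (nat_lit 12) (nat_lit 14))
    (@En.n l290 (nat_lit 6992) (nat_lit 2) (nat_lit 4))
    (@En.n l1041 (nat_lit 1597) (nat_lit 10) (nat_lit 8))
    (@En.n l4134 (nat_lit 7311) (nat_lit 4) (nat_lit 5))
    (@En.n l3 (nat_lit 7386) (nat_lit 15) (nat_lit 2))))
  (@Cl.mk (nat_lit 0x2000500080004000d000a000e00030002000c00080006000b0004000e000c) (nat_lit 0x10906003603075) (nat_lit 16) Lb.e (@T16.mk En
    (@En.n l4061 (nat_lit 7381) (nat_lit 9) (nat_lit 12))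
    (@En.i (nat_lit 4611) (nat_lit 1) (nat_lit 14))
    (@En.n l137 (nat_lit 3616) (nat_lit 2) (nat_lit 4))
    (@En.n l12 (nat_lit 7409) (nat_lit 3) (nat_lit 11))
    (@En.i (nat_lit 8662) (nat_lit 4) (nat_lit 6))
    (@En.i (nat_lit 2149) (nat_lit 5) (nat_lit 8))
    (@En.n l564 (nat_lit 10612) (nat_lit 7) (nat_lit 12))
    (@En.n l7 (nat_lit 7387) (nat_lit 7) (nat_lit 2))
    (@En.n l28 (nat_lit 7383) (nat_lit 8) (nat_lit 3))
    (@En.n l539 (nat_lit 14007) (nat_lit 0) (nat_lit 14))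
    (@En.i (nat_lit 7647) (nat_lit 11) (nat_lit 10))
    (@En.i (nat_lit 12316) (nat_lit 12) (nat_lit 13))
    (@En.n l539 (nat_lit 6994) (nat_lit 4) (nat_lit 4))
    (@En.i (nat_lit 1596) (nat_lit 10) (nat_lit 8))
    (@En.i (nat_lit 7307) (nat_lit 6) (nat_lit 5))
    (@En.n l3 (nat_lit 7387) (nat_lit 15) (nat_lit 2))))
  (@Cl.mk (nat_lit 0x20008000300080007000b000e000b000200080005000800050009000e000d) (nat_lit 0x506076906060321) (nat_lit 16) Lb.e (@T16.mk En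
    (@En.n l16552 (nat_lit 4012) (nat_lit 9) (nat_lit 13))
    (@En.n l532 (nat_lit 8552) (nat_lit 10) (nat_lit 14))
    (@En.n l16553 (nat_lit 4737) (nat_lit 2) (nat_lit 9))
    (@En.n l117 (nat_lit 7215) (nat_lit 3) (nat_lit 5))
    (@En.n l16553 (nat_lit 5318) (nat_lit 4) (nat_lit 8))
    (@En.n l17 (nat_lit 4006) (nat_lit 14) (nat_lit 5))
    (@En.i (nat_lit 9580) (nat_lit 6) (nat_lit 8))
    (@En.n l3 (nat_lit 7388) (nat_lit 7) (nat_lit 2))
    (@En.n l5646 (nat_lit 7363) (nat_lit 9) (nat_lit 11))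
    (@En.i (nat_lit 3216) (nat_lit 10) (nat_lit 14))
    (@En.n l207 (nat_lit 4013) (nat_lit 2) (nat_lit 11))
    (@En.i (nat_lit 7270) (nat_lit 3) (nat_lit 7))
    (@En.n l11802 (nat_lit 10988) (nat_lit 4) (nat_lit 8))
    (@En.n l15754 (nat_lit 4012) (nat_lit 5) (nat_lit 3))
    (@En.i (nat_lit 5030) (nat_lit 0) (nat_lit 8))
    (@En.n l7 (nat_lit 7388) (nat_lit 15) (nat_lit 2))))
  (@Cl.mk (nat_lit 0x200080007000b000e000b0002000a0005000800050009000d0006000e0003) (nat_lit 0x60789080504b030) (nat_lit 16) Lb.e (@T16.mk En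
    (@En.i (nat_lit 4012) (nat_lit 6) (nat_lit 3))
    (@En.i (nat_lit 13846) (nat_lit 0) (nat_lit 14))
    (@En.i (nat_lit 6503) (nat_lit 2) (nat_lit 6))
    (@En.i (nat_lit 8716) (nat_lit 10) (nat_lit 13))
    (@En.n l645 (nat_lit 4756) (nat_lit 4) (nat_lit 9))
    (@En.i (nat_lit 4346) (nat_lit 5) (nat_lit 5))
    (@En.n l5588 (nat_lit 5317) (nat_lit 6) (nat_lit 8))
    (@En.n l3015 (nat_lit 4010) (nat_lit 14) (nat_lit 5))
    (@En.n l8015 (nat_lit 7392) (nat_lit 9) (nat_lit 10))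
    (@En.n l67 (nat_lit 7389) (nat_lit 9) (nat_lit 2))
    (@En.n l68 (nat_lit 7391) (nat_lit 11) (nat_lit 11))
    (@En.n l3866 (nat_lit 2011) (nat_lit 4) (nat_lit 14))
    (@En.i (nat_lit 7390) (nat_lit 13) (nat_lit 11))
    (@En.n l9885 (nat_lit 7273) (nat_lit 14) (nat_lit 7))
    (@En.n l255 (nat_lit 9528) (nat_lit 4) (nat_lit 8))
    (@En.n l50 (nat_lit 7389) (nat_lit 15) (nat_lit 2))))
  (@Cl.mk (nat_lit 0x20008000b000e000a000200090005000d000800060003000d0007000e0003) (nat_lit 0x66a80503600b030) (nat_lit 16) Lb.e (@T16.mk En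
    (@En.n l11014 (nat_lit 4011) (nat_lit 5) (nat_lit 3))
    (@En.n l4821 (nat_lit 13845) (nat_lit 0) (nat_lit 14))
    (@En.i (nat_lit 6501) (nat_lit 2) (nat_lit 7))
    (@En.i (nat_lit 10974) (nat_lit 9) (nat_lit 13))
    (@En.n l9713 (nat_lit 7273) (nat_lit 4) (nat_lit 3))
    (@En.n l9715 (nat_lit 3429) (nat_lit 5) (nat_lit 6))
    (@En.n l17 (nat_lit 7389) (nat_lit 6) (nat_lit 8))
    (@En.n l9715 (nat_lit 6910) (nat_lit 8) (nat_lit 13))
    (@En.n l11015 (nat_lit 4008) (nat_lit 14) (nat_lit 5))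
    (@En.n l11016 (nat_lit 7393) (nat_lit 10) (nat_lit 9))
    (@En.n l67 (nat_lit 7390) (nat_lit 10) (nat_lit 2))
    (@En.n l68 (nat_lit 7372) (nat_lit 12) (nat_lit 10))
    (@En.n l4821 (nat_lit 1817) (nat_lit 13) (nat_lit 14))
    (@En.n l268 (nat_lit 2567) (nat_lit 7) (nat_lit 11))
    (@En.n l4821 (nat_lit 9526) (nat_lit 3) (nat_lit 8))
    (@En.n l50 (nat_lit 7390) (nat_lit 15) (nat_lit 2))))
  (@Cl.mk (nat_lit 0x200090007000c000b000b000900040007000500050009000d0007000e0003) (nat_lit 0x5078870000560c0) (nat_lit 16) Lb.e (@T16.mk En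
    (@En.i (nat_lit 7203) (nat_lit 15) (nat_lit 3))
    (@En.i (nat_lit 13853) (nat_lit 0) (nat_lit 14))
    (@En.i (nat_lit 6952) (nat_lit 2) (nat_lit 7))
    (@En.i (nat_lit 8500) (nat_lit 4) (nat_lit 13))
    (@En.n l21561 (nat_lit 5521) (nat_lit 4) (nat_lit 9))
    (@En.n l11 (nat_lit 7389) (nat_lit 5) (nat_lit 5))
    (@En.i (nat_lit 7444) (nat_lit 6) (nat_lit 5))
    (@En.i (nat_lit 4482) (nat_lit 7) (nat_lit 7))
    (@En.n l936 (nat_lit 7205) (nat_lit 8) (nat_lit 4))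
    (@En.n l55 (nat_lit 8660) (nat_lit 10) (nat_lit 9))
    (@En.n l619 (nat_lit 7195) (nat_lit 5) (nat_lit 11))
    (@En.n l3866 (nat_lit 7293) (nat_lit 12) (nat_lit 11))
    (@En.i (nat_lit 7372) (nat_lit 13) (nat_lit 12))
    (@En.i (nat_lit 7272) (nat_lit 14) (nat_lit 7))
    (@En.i (nat_lit 9021) (nat_lit 14) (nat_lit 9))
    (@En.n l50 (nat_lit 7391) (nat_lit 15) (nat_lit 2))))
noncomputable def a462 : T16 Cl := @T16.mk Cl
  (@Cl.mk (nat_lit 0x200090008000c0007000c000a0004000700040008000c00060009000e0004) (nat_lit 0x74a007000200170) (nat_lit 16) Lb.e (@T16.mk En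
    (@En.n l39472 (nat_lit 7394) (nat_lit 15) (nat_lit 4))
    (@En.n l1836 (nat_lit 7427) (nat_lit 1) (nat_lit 14))
    (@En.n l9530 (nat_lit 4010) (nat_lit 9) (nat_lit 9))
    (@En.i (nat_lit 11280) (nat_lit 3) (nat_lit 6))
    (@En.i (nat_lit 10890) (nat_lit 5) (nat_lit 12))
    (@En.n l10674 (nat_lit 4518) (nat_lit 5) (nat_lit 8))
    (@En.n l10862 (nat_lit 8116) (nat_lit 6) (nat_lit 4))
    (@En.n l10674 (nat_lit 11032) (nat_lit 11) (nat_lit 7))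
    (@En.n l6822 (nat_lit 2808) (nat_lit 8) (nat_lit 4))
    (@En.n l22188 (nat_lit 7399) (nat_lit 10) (nat_lit 10))
    (@En.i (nat_lit 8660) (nat_lit 11) (nat_lit 12))
    (@En.n l39473 (nat_lit 9418) (nat_lit 12) (nat_lit 7))
    (@En.n l34276 (nat_lit 7393) (nat_lit 13) (nat_lit 12))
    (@En.n l21642 (nat_lit 7396) (nat_lit 14) (nat_lit 8))
    (@En.i (nat_lit 9694) (nat_lit 5) (nat_lit 9))
    (@En.n l50 (nat_lit 7392) (nat_lit 15) (nat_lit 2))))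
  (@Cl.mk (nat_lit 0x20009000c0006000b00090004000d000700050003000c0007000a000e0004) (nat_lit 0x790240600000180) (nat_lit 16) Lb.e (@T16.mk En
    (@En.n l24588 (nat_lit 7395) (nat_lit 10) (nat_lit 4))
    (@En.i (nat_lit 7430) (nat_lit 1) (nat_lit 14))
    (@En.n l24589 (nat_lit 4008) (nat_lit 8) (nat_lit 10))
    (@En.n l24590 (nat_lit 11208) (nat_lit 3) (nat_lit 7))
    (@En.n l24591 (nat_lit 10893) (nat_lit 5) (nat_lit 12))
    (@En.i (nat_lit 7396) (nat_lit 5) (nat_lit 3))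
    (@En.n l16069 (nat_lit 8202) (nat_lit 0) (nat_lit 5))
    (@En.n l24592 (nat_lit 7392) (nat_lit 7) (nat_lit 7))
    (@En.n l24593 (nat_lit 7798) (nat_lit 9) (nat_lit 13))
    (@En.n l24594 (nat_lit 2787) (nat_lit 9) (nat_lit 4))
    (@En.i (nat_lit 7398) (nat_lit 11) (nat_lit 9))
    (@En.n l16069 (nat_lit 9082) (nat_lit 12) (nat_lit 11))
    (@En.n l19715 (nat_lit 9267) (nat_lit 13) (nat_lit 6))
    (@En.n l2038 (nat_lit 7322) (nat_lit 6) (nat_lit 12))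
    (@En.i (nat_lit 9698) (nat_lit 14) (nat_lit 9))
    (@En.n l17 (nat_lit 7393) (nat_lit 15) (nat_lit 2))))
  (@Cl.mk (nat_lit 0x4000400090008000c0006000c00090004000700040008000c000c0007000a) (nat_lit 0x73607700010101) (nat_lit 16) Lb.e (@T16.mk En
    (@En.i (nat_lit 4007) (nat_lit 8) (nat_lit 10))
    (@En.i (nat_lit 12051) (nat_lit 1) (nat_lit 7))
    (@En.n l36582 (nat_lit 7392) (nat_lit 4) (nat_lit 12))
    (@En.n l36583 (nat_lit 10958) (nat_lit 7) (nat_lit 12))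
    (@En.n l27455 (nat_lit 4521) (nat_lit 11) (nat_lit 8))
    (@En.n l36584 (nat_lit 8117) (nat_lit 5) (nat_lit 4))
    (@En.n l27455 (nat_lit 11030) (nat_lit 11) (nat_lit 7))
    (@En.n l20560 (nat_lit 2797) (nat_lit 1) (nat_lit 4))
    (@En.n l36583 (nat_lit 9414) (nat_lit 0) (nat_lit 9))
    (@En.n l15753 (nat_lit 8655) (nat_lit 1) (nat_lit 12))
    (@En.n l3348 (nat_lit 9420) (nat_lit 4) (nat_lit 6))
    (@En.n l207 (nat_lit 7395) (nat_lit 7) (nat_lit 12))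
    (@En.i (nat_lit 7397) (nat_lit 8) (nat_lit 8))
    (@En.n l12225 (nat_lit 9700) (nat_lit 5) (nat_lit 9))
    (@En.n l50 (nat_lit 9580) (nat_lit 12) (nat_lit 4))
    (@En.n l20559 (nat_lit 10439) (nat_lit 0) (nat_lit 4))))
  (@Cl.mk (nat_lit 0x3000c000c0008000b000400040009000c0005000b00080004000d00070005) (nat_lit 0x13100750060200) (nat_lit 16) Lb.e (@T16.mk En
    (@En.n l20559 (nat_lit 8203) (nat_lit 0) (nat_lit 5))
    (@En.i (nat_lit 7394) (nat_lit 6) (nat_lit 7))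
    (@En.n l1722 (nat_lit 7098) (nat_lit 2) (nat_lit 13))
    (@En.n l20560 (nat_lit 2796) (nat_lit 3) (nat_lit 4))
    (@En.n l1284 (nat_lit 7400) (nat_lit 4) (nat_lit 8))
    (@En.n l20559 (nat_lit 8656) (nat_lit 1) (nat_lit 11))
    (@En.n l2351 (nat_lit 9269) (nat_lit 6) (nat_lit 5))
    (@En.n l1284 (nat_lit 7320) (nat_lit 6) (nat_lit 12))
    (@En.i (nat_lit 9699) (nat_lit 11) (nat_lit 9))
    (@En.n l50 (nat_lit 9578) (nat_lit 12) (nat_lit 4))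
    (@En.n l20559 (nat_lit 10438) (nat_lit 0) (nat_lit 4))
    (@En.i (nat_lit 4005) (nat_lit 7) (nat_lit 11))
    (@En.n l1284 (nat_lit 12052) (nat_lit 1) (nat_lit 8))
    (@En.n l20561 (nat_lit 7393) (nat_lit 4) (nat_lit 12))
    (@En.n l2275 (nat_lit 10411) (nat_lit 3) (nat_lit 12))
    (@En.n l11 (nat_lit 7397) (nat_lit 15) (nat_lit 3))))
  (@Cl.mk (nat_lit 0x20008000c0006000c00090004000d000400080003000c0007000a000e0004) (nat_lit 0x3a0740501000110) (nat_lit 16) Lb.e (@T16.mk En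
    (@En.n l32711 (nat_lit 7397) (nat_lit 10) (nat_lit 4))
    (@En.i (nat_lit 4208) (nat_lit 1) (nat_lit 14))
    (@En.n l19519 (nat_lit 4009) (nat_lit 8) (nat_lit 10))
    (@En.n l24568 (nat_lit 11207) (nat_lit 3) (nat_lit 7))
    (@En.n l34396 (nat_lit 10604) (nat_lit 5) (nat_lit 12))
    (@En.n l7 (nat_lit 7393) (nat_lit 5) (nat_lit 3))
    (@En.i (nat_lit 3400) (nat_lit 6) (nat_lit 8))
    (@En.n l28 (nat_lit 8097) (nat_lit 7) (nat_lit 4))
    (@En.n l4096 (nat_lit 7801) (nat_lit 9) (nat_lit 13))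
    (@En.n l4147 (nat_lit 2784) (nat_lit 9) (nat_lit 4))
    (@En.i (nat_lit 7401) (nat_lit 11) (nat_lit 9))
    (@En.n l1361 (nat_lit 9149) (nat_lit 12) (nat_lit 12))
    (@En.n l15603 (nat_lit 9271) (nat_lit 13) (nat_lit 6))
    (@En.n l619 (nat_lit 7316) (nat_lit 14) (nat_lit 12))
    (@En.n l19519 (nat_lit 10089) (nat_lit 6) (nat_lit 8))
    (@En.n l17 (nat_lit 7396) (nat_lit 15) (nat_lit 2))))
  (@Cl.mk (nat_lit 0x3000c000c0008000b000400040008000c0005000c00080004000d00040008) (nat_lit 0x14100290640302) (nat_lit 16) Lb.e (@T16.mk En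
    (@En.i (nat_lit 4590) (nat_lit 0) (nat_lit 8))
    (@En.n l117 (nat_lit 9576) (nat_lit 6) (nat_lit 4))
    (@En.n l1722 (nat_lit 7102) (nat_lit 0) (nat_lit 13))
    (@En.n l20560 (nat_lit 2788) (nat_lit 1) (nat_lit 4))
    (@En.i (nat_lit 9583) (nat_lit 4) (nat_lit 8))
    (@En.n l5646 (nat_lit 9146) (nat_lit 1) (nat_lit 12))
    (@En.n l3348 (nat_lit 9274) (nat_lit 6) (nat_lit 5))
    (@En.n l5649 (nat_lit 7321) (nat_lit 7) (nat_lit 12))
    (@En.i (nat_lit 9585) (nat_lit 11) (nat_lit 8))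
    (@En.n l50 (nat_lit 9577) (nat_lit 12) (nat_lit 4))
    (@En.n l18287 (nat_lit 10437) (nat_lit 0) (nat_lit 4))
    (@En.i (nat_lit 4004) (nat_lit 7) (nat_lit 11))
    (@En.i (nat_lit 12055) (nat_lit 1) (nat_lit 8))
    (@En.n l17172 (nat_lit 7396) (nat_lit 4) (nat_lit 12))
    (@En.i (nat_lit 10026) (nat_lit 11) (nat_lit 12))
    (@En.i (nat_lit 7395) (nat_lit 15) (nat_lit 3))))
  (@Cl.mk (nat_lit 0x2000a000d000600090003000d0006000c0003000b00070004000a000e0005) (nat_lit 0x8a0305000000290) (nat_lit 16) Lb.e (@T16.mk En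
    (@En.n l39399 (nat_lit 7400) (nat_lit 9) (nat_lit 5))
    (@En.i (nat_lit 7772) (nat_lit 1) (nat_lit 14))
    (@En.n l181 (nat_lit 7393) (nat_lit 2) (nat_lit 10))
    (@En.i (nat_lit 8098) (nat_lit 3) (nat_lit 4))
    (@En.n l39400 (nat_lit 11205) (nat_lit 4) (nat_lit 7))
    (@En.n l39401 (nat_lit 10891) (nat_lit 11) (nat_lit 11))
    (@En.i (nat_lit 7401) (nat_lit 6) (nat_lit 3))
    (@En.n l19712 (nat_lit 7684) (nat_lit 8) (nat_lit 12))
    (@En.n l39402 (nat_lit 7399) (nat_lit 8) (nat_lit 6))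
    (@En.n l31642 (nat_lit 7799) (nat_lit 10) (nat_lit 13))
    (@En.n l39403 (nat_lit 9407) (nat_lit 10) (nat_lit 3))
    (@En.n l3616 (nat_lit 11647) (nat_lit 12) (nat_lit 9))
    (@En.n l34345 (nat_lit 9268) (nat_lit 13) (nat_lit 6))
    (@En.n l39400 (nat_lit 7311) (nat_lit 5) (nat_lit 13))
    (@En.n l39133 (nat_lit 8771) (nat_lit 3) (nat_lit 10))
    (@En.n l17 (nat_lit 7398) (nat_lit 15) (nat_lit 2))))
  (@Cl.mk (nat_lit 0x2000a0009000d0007000a00030006000c0007000b000600040009000e0005) (nat_lit 0x84b0600000002c0) (nat_lit 16) Lb.e (@T16.mk En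
    (@En.n l28 (nat_lit 9414) (nat_lit 6) (nat_lit 5))
    (@En.n l476 (nat_lit 7428) (nat_lit 1) (nat_lit 14))
    (@En.i (nat_lit 7392) (nat_lit 2) (nat_lit 9))
    (@En.n l28 (nat_lit 8099) (nat_lit 3) (nat_lit 4))
    (@En.n l31598 (nat_lit 11281) (nat_lit 4) (nat_lit 6))
    (@En.i (nat_lit 10888) (nat_lit 12) (nat_lit 11))
    (@En.n l23409 (nat_lit 3421) (nat_lit 6) (nat_lit 7))
    (@En.n l2125 (nat_lit 9137) (nat_lit 8) (nat_lit 12))
    (@En.i (nat_lit 11033) (nat_lit 12) (nat_lit 6))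
    (@En.n l6822 (nat_lit 9406) (nat_lit 9) (nat_lit 3))
    (@En.n l2038 (nat_lit 11649) (nat_lit 0) (nat_lit 10))
    (@En.n l1236 (nat_lit 9318) (nat_lit 12) (nat_lit 7))
    (@En.n l33492 (nat_lit 7398) (nat_lit 13) (nat_lit 13))
    (@En.n l27110 (nat_lit 7401) (nat_lit 14) (nat_lit 9))
    (@En.i (nat_lit 9690) (nat_lit 4) (nat_lit 10))
    (@En.n l50 (nat_lit 7399) (nat_lit 15) (nat_lit 2))))
  (@Cl.mk (nat_lit 0x3000b000b00080005000b00050005000a000d000500080003000d0006000b) (nat_lit 0x14020087050800) (nat_lit 16) Lb.e (@T16.mk En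
    (@En.n l992 (nat_lit 9181) (nat_lit 0) (nat_lit 11))
    (@En.n l9099 (nat_lit 9414) (nat_lit 14) (nat_lit 6))
    (@En.n l24102 (nat_lit 7105) (nat_lit 2) (nat_lit 13))
    (@En.n l1311 (nat_lit 9410) (nat_lit 3) (nat_lit 3))
    (@En.n l1082 (nat_lit 11650) (nat_lit 10) (nat_lit 8))
    (@En.n l9103 (nat_lit 9270) (nat_lit 5) (nat_lit 5))
    (@En.i (nat_lit 7319) (nat_lit 5) (nat_lit 13))
    (@En.n l26199 (nat_lit 9702) (nat_lit 3) (nat_lit 10))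
    (@En.n l152 (nat_lit 9581) (nat_lit 11) (nat_lit 5))
    (@En.n l36176 (nat_lit 10919) (nat_lit 9) (nat_lit 5))
    (@En.n l36177 (nat_lit 7395) (nat_lit 11) (nat_lit 11))
    (@En.n l36178 (nat_lit 8121) (nat_lit 7) (nat_lit 5))
    (@En.n l1003 (nat_lit 11866) (nat_lit 13) (nat_lit 8))
    (@En.n l36179 (nat_lit 7398) (nat_lit 5) (nat_lit 11))
    (@En.n l9182 (nat_lit 10407) (nat_lit 11) (nat_lit 11))
    (@En.n l2419 (nat_lit 9583) (nat_lit 15) (nat_lit 3))))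
  (@Cl.mk (nat_lit 0x20009000d000600090003000d000b00070003000b00070005000a000e0005) (nat_lit 0x3b0304300000270) (nat_lit 16) Lb.e (@T16.mk En
    (@En.n l32711 (nat_lit 9583) (nat_lit 9) (nat_lit 5))
    (@En.i (nat_lit 7773) (nat_lit 1) (nat_lit 14))
    (@En.n l181 (nat_lit 7396) (nat_lit 2) (nat_lit 10))
    (@En.i (nat_lit 8095) (nat_lit 3) (nat_lit 5))
    (@En.n l33391 (nat_lit 11201) (nat_lit 4) (nat_lit 7))
    (@En.n l33392 (nat_lit 10033) (nat_lit 11) (nat_lit 11))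
    (@En.n l7 (nat_lit 7398) (nat_lit 6) (nat_lit 3))
    (@En.n l32732 (nat_lit 3401) (nat_lit 7) (nat_lit 7))
    (@En.n l644 (nat_lit 9621) (nat_lit 9) (nat_lit 11))
    (@En.n l4096 (nat_lit 7803) (nat_lit 10) (nat_lit 13))
    (@En.n l28995 (nat_lit 9408) (nat_lit 10) (nat_lit 3))
    (@En.n l23458 (nat_lit 11648) (nat_lit 12) (nat_lit 9))
    (@En.n l33393 (nat_lit 9272) (nat_lit 13) (nat_lit 6))
    (@En.n l619 (nat_lit 7308) (nat_lit 14) (nat_lit 13))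
    (@En.i (nat_lit 9821) (nat_lit 3) (nat_lit 9))
    (@En.n l17 (nat_lit 7401) (nat_lit 15) (nat_lit 2))))
  (@Cl.mk (nat_lit 0x20005000a00080005000e000d000200060003000d0008000b0003000e000b) (nat_lit 0x820a1000557062) (nat_lit 16) Lb.e (@T16.mk En
    (@En.n l1259 (nat_lit 7385) (nat_lit 8) (nat_lit 11))
    (@En.n l75 (nat_lit 4614) (nat_lit 9) (nat_lit 14))
    (@En.n l451 (nat_lit 7404) (nat_lit 9) (nat_lit 3))
    (@En.i (nat_lit 2628) (nat_lit 3) (nat_lit 11))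
    (@En.n l1260 (nat_lit 2195) (nat_lit 4) (nat_lit 8))
    (@En.i (nat_lit 4557) (nat_lit 6) (nat_lit 13))
    (@En.n l28 (nat_lit 4615) (nat_lit 6) (nat_lit 3))
    (@En.n l27 (nat_lit 6626) (nat_lit 7) (nat_lit 6))
    (@En.n l28 (nat_lit 7402) (nat_lit 8) (nat_lit 2))
    (@En.n l77 (nat_lit 4615) (nat_lit 10) (nat_lit 13))
    (@En.n l447 (nat_lit 8162) (nat_lit 11) (nat_lit 14))
    (@En.n l79 (nat_lit 4261) (nat_lit 2) (nat_lit 5))
    (@En.i (nat_lit 7386) (nat_lit 13) (nat_lit 8))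
    (@En.n l79 (nat_lit 8637) (nat_lit 4) (nat_lit 10))
    (@En.i (nat_lit 7322) (nat_lit 5) (nat_lit 5))
    (@En.n l3 (nat_lit 7402) (nat_lit 15) (nat_lit 2))))
  (@Cl.mk (nat_lit 0x20006000b00070005000d000d000500030003000d000a00090003000e000b) (nat_lit 0x80034000561054) (nat_lit 16) Lb.e (@T16.mk En
    (@En.i (nat_lit 7406) (nat_lit 9) (nat_lit 11))
    (@En.n l8328 (nat_lit 4816) (nat_lit 1) (nat_lit 14))
    (@En.n l5161 (nat_lit 4615) (nat_lit 2) (nat_lit 3))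
    (@En.n l8329 (nat_lit 2104) (nat_lit 3) (nat_lit 9))
    (@En.n l8330 (nat_lit 4610) (nat_lit 4) (nat_lit 10))
    (@En.n l8331 (nat_lit 10016) (nat_lit 6) (nat_lit 13))
    (@En.n l3519 (nat_lit 7404) (nat_lit 13) (nat_lit 3))
    (@En.n l18 (nat_lit 7408) (nat_lit 7) (nat_lit 3))
    (@En.n l8331 (nat_lit 7049) (nat_lit 8) (nat_lit 5))
    (@En.n l61 (nat_lit 7408) (nat_lit 10) (nat_lit 13))
    (@En.n l2440 (nat_lit 10936) (nat_lit 11) (nat_lit 13))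
    (@En.i (nat_lit 3744) (nat_lit 3) (nat_lit 5))
    (@En.n l1658 (nat_lit 3615) (nat_lit 13) (nat_lit 7))
    (@En.n l3517 (nat_lit 8324) (nat_lit 14) (nat_lit 11))
    (@En.i (nat_lit 7327) (nat_lit 6) (nat_lit 6))
    (@En.n l28 (nat_lit 7403) (nat_lit 15) (nat_lit 2))))
  (@Cl.mk (nat_lit 0x200060003000d000a00090003000e000b00020006000a00070005000e000d) (nat_lit 0x5620230080084) (nat_lit 16) Lb.e (@T16.mk En
    (@En.n l4130 (nat_lit 7403) (nat_lit 10) (nat_lit 13))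
    (@En.n l763 (nat_lit 8165) (nat_lit 11) (nat_lit 14))
    (@En.i (nat_lit 3743) (nat_lit 2) (nat_lit 5))
    (@En.n l4131 (nat_lit 3620) (nat_lit 13) (nat_lit 7))
    (@En.i (nat_lit 8636) (nat_lit 4) (nat_lit 10))
    (@En.n l847 (nat_lit 7326) (nat_lit 5) (nat_lit 6))
    (@En.n l50 (nat_lit 7404) (nat_lit 6) (nat_lit 2))
    (@En.n l217 (nat_lit 7405) (nat_lit 8) (nat_lit 11))
    (@En.n l875 (nat_lit 4815) (nat_lit 9) (nat_lit 14))
    (@En.n l1565 (nat_lit 7402) (nat_lit 2) (nat_lit 3))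
    (@En.n l4132 (nat_lit 4868) (nat_lit 11) (nat_lit 9))
    (@En.n l4133 (nat_lit 4614) (nat_lit 12) (nat_lit 10))
    (@En.i (nat_lit 4556) (nat_lit 13) (nat_lit 13))
    (@En.n l2832 (nat_lit 7403) (nat_lit 6) (nat_lit 3))
    (@En.i (nat_lit 6628) (nat_lit 7) (nat_lit 6))
    (@En.n l3 (nat_lit 7404) (nat_lit 15) (nat_lit 2))))
  (@Cl.mk (nat_lit 0x200070003000d000b000a0003000b000b00050009000600050005000e000d) (nat_lit 0xb650210700084) (nat_lit 16) Lb.e (@T16.mk En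
    (@En.n l10140 (nat_lit 7406) (nat_lit 2) (nat_lit 13))
    (@En.i (nat_lit 10529) (nat_lit 1) (nat_lit 14))
    (@En.n l2172 (nat_lit 7404) (nat_lit 2) (nat_lit 5))
    (@En.i (nat_lit 7329) (nat_lit 3) (nat_lit 5))
    (@En.n l10141 (nat_lit 3657) (nat_lit 4) (nat_lit 6))
    (@En.i (nat_lit 8634) (nat_lit 5) (nat_lit 9))
    (@En.n l10142 (nat_lit 7424) (nat_lit 6) (nat_lit 5))
    (@En.n l6840 (nat_lit 3434) (nat_lit 8) (nat_lit 11))
    (@En.n l5911 (nat_lit 7076) (nat_lit 9) (nat_lit 11))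
    (@En.n l4204 (nat_lit 7385) (nat_lit 9) (nat_lit 3))
    (@En.i (nat_lit 2105) (nat_lit 11) (nat_lit 10))
    (@En.n l4861 (nat_lit 4608) (nat_lit 12) (nat_lit 11))
    (@En.n l5911 (nat_lit 3424) (nat_lit 13) (nat_lit 13))
    (@En.n l10143 (nat_lit 7406) (nat_lit 14) (nat_lit 3))
    (@En.i (nat_lit 6806) (nat_lit 0) (nat_lit 7))
    (@En.n l3 (nat_lit 7405) (nat_lit 15) (nat_lit 2))))
  (@Cl.mk (nat_lit 0x30003000d000b000a0003000b000b0005000a000600050005000d000d0006) (nat_lit 0xb6103108000350) (nat_lit 16) Lb.e (@T16.mk En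
    (@En.n l19313 (nat_lit 6670) (nat_lit 0) (nat_lit 6))
    (@En.n l61 (nat_lit 7407) (nat_lit 3) (nat_lit 13))
    (@En.n l8017 (nat_lit 11849) (nat_lit 2) (nat_lit 13))
    (@En.n l55 (nat_lit 7403) (nat_lit 11) (nat_lit 5))
    (@En.i (nat_lit 7330) (nat_lit 4) (nat_lit 5))
    (@En.n l8336 (nat_lit 3653) (nat_lit 5) (nat_lit 6))
    (@En.n l19415 (nat_lit 8318) (nat_lit 12) (nat_lit 10))
    (@En.n l19416 (nat_lit 7422) (nat_lit 7) (nat_lit 5))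
    (@En.n l19417 (nat_lit 3432) (nat_lit 5) (nat_lit 11))
    (@En.n l15519 (nat_lit 7077) (nat_lit 10) (nat_lit 11))
    (@En.n l19418 (nat_lit 7382) (nat_lit 10) (nat_lit 3))
    (@En.n l8303 (nat_lit 2100) (nat_lit 0) (nat_lit 10))
    (@En.i (nat_lit 4606) (nat_lit 13) (nat_lit 11))
    (@En.n l19313 (nat_lit 10009) (nat_lit 2) (nat_lit 13))
    (@En.n l19419 (nat_lit 7405) (nat_lit 13) (nat_lit 3))
    (@En.n l18 (nat_lit 7407) (nat_lit 0) (nat_lit 3))))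
  (@Cl.mk (nat_lit 0x2000d000b000a0003000b000b0005000b000600050005000d0005000e0003) (nat_lit 0xb61021070004030) (nat_lit 16) Lb.e (@T16.mk En
    (@En.i (nat_lit 7406) (nat_lit 15) (nat_lit 3))
    (@En.n l8012 (nat_lit 14019) (nat_lit 0) (nat_lit 14))
    (@En.i (nat_lit 6038) (nat_lit 2) (nat_lit 5))
    (@En.n l8017 (nat_lit 11847) (nat_lit 2) (nat_lit 13))
    (@En.n l55 (nat_lit 7408) (nat_lit 11) (nat_lit 5))
    (@En.i (nat_lit 7416) (nat_lit 5) (nat_lit 5))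
    (@En.i (nat_lit 3652) (nat_lit 6) (nat_lit 6))
    (@En.n l8012 (nat_lit 8315) (nat_lit 8) (nat_lit 11))
    (@En.n l8017 (nat_lit 7421) (nat_lit 8) (nat_lit 5))
    (@En.n l8301 (nat_lit 3431) (nat_lit 5) (nat_lit 11))
    (@En.n l11 (nat_lit 7164) (nat_lit 11) (nat_lit 11))
    (@En.n l8302 (nat_lit 7384) (nat_lit 11) (nat_lit 3))
    (@En.n l8303 (nat_lit 2099) (nat_lit 0) (nat_lit 10))
    (@En.i (nat_lit 4605) (nat_lit 14) (nat_lit 11))
    (@En.i (nat_lit 10013) (nat_lit 2) (nat_lit 13))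
    (@En.n l17 (nat_lit 7407) (nat_lit 15) (nat_lit 2))))
noncomputable def a463 : T16 Cl := @T16.mk Cl
  (@Cl.mk (nat_lit 0x20006000c00070005000d0004000e00030002000d000a00090003000e000b) (nat_lit 0x80030700561063) (nat_lit 16) Lb.e (@T16.mk En
    (@En.i (nat_lit 7407) (nat_lit 10) (nat_lit 11))
    (@En.i (nat_lit 4818) (nat_lit 1) (nat_lit 14))
    (@En.n l146 (nat_lit 7409) (nat_lit 2) (nat_lit 3))
    (@En.n l4108 (nat_lit 2103) (nat_lit 3) (nat_lit 9))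
    (@En.n l4109 (nat_lit 4612) (nat_lit 4) (nat_lit 10))
    (@En.i (nat_lit 10017) (nat_lit 6) (nat_lit 13))
    (@En.n l17 (nat_lit 7408) (nat_lit 6) (nat_lit 2))
    (@En.i (nat_lit 7403) (nat_lit 7) (nat_lit 3))
    (@En.n l476 (nat_lit 14021) (nat_lit 0) (nat_lit 14))
    (@En.i (nat_lit 7411) (nat_lit 9) (nat_lit 4))
    (@En.n l2440 (nat_lit 10935) (nat_lit 11) (nat_lit 13))
    (@En.i (nat_lit 3002) (nat_lit 4) (nat_lit 5))
    (@En.i (nat_lit 3616) (nat_lit 13) (nat_lit 7))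
    (@En.n l476 (nat_lit 8321) (nat_lit 14) (nat_lit 12))
    (@En.i (nat_lit 7410) (nat_lit 7) (nat_lit 6))
    (@En.n l28 (nat_lit 7408) (nat_lit 15) (nat_lit 2))))
  (@Cl.mk (nat_lit 0x20005000c00080005000d0004000e00030002000d0008000b0003000e000b) (nat_lit 0x820b0700562062) (nat_lit 16) Lb.e (@T16.mk En
    (@En.n l4061 (nat_lit 7384) (nat_lit 10) (nat_lit 11))
    (@En.n l2663 (nat_lit 4612) (nat_lit 1) (nat_lit 14))
    (@En.n l137 (nat_lit 7408) (nat_lit 2) (nat_lit 3))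
    (@En.n l238 (nat_lit 2499) (nat_lit 3) (nat_lit 11))
    (@En.n l238 (nat_lit 2144) (nat_lit 4) (nat_lit 8))
    (@En.n l564 (nat_lit 10015) (nat_lit 6) (nat_lit 13))
    (@En.n l7 (nat_lit 7409) (nat_lit 6) (nat_lit 2))
    (@En.n l28 (nat_lit 4615) (nat_lit 7) (nat_lit 3))
    (@En.n l562 (nat_lit 14023) (nat_lit 0) (nat_lit 14))
    (@En.n l11 (nat_lit 7412) (nat_lit 9) (nat_lit 4))
    (@En.n l238 (nat_lit 10938) (nat_lit 11) (nat_lit 13))
    (@En.n l4112 (nat_lit 3340) (nat_lit 4) (nat_lit 5))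
    (@En.i (nat_lit 7387) (nat_lit 13) (nat_lit 8))
    (@En.n l562 (nat_lit 8323) (nat_lit 14) (nat_lit 12))
    (@En.i (nat_lit 7317) (nat_lit 13) (nat_lit 5))
    (@En.n l3 (nat_lit 7409) (nat_lit 15) (nat_lit 2))))
  (@Cl.mk (nat_lit 0x2000c000a000d000a00040003000c0006000c00060004000d0004000e0003) (nat_lit 0x161200908002030) (nat_lit 16) Lb.e (@T16.mk En
    (@En.i (nat_lit 7327) (nat_lit 15) (nat_lit 3))
    (@En.n l475 (nat_lit 14030) (nat_lit 0) (nat_lit 14))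
    (@En.i (nat_lit 7135) (nat_lit 2) (nat_lit 4))
    (@En.n l9526 (nat_lit 10151) (nat_lit 2) (nat_lit 13))
    (@En.i (nat_lit 3000) (nat_lit 4) (nat_lit 4))
    (@En.i (nat_lit 4577) (nat_lit 5) (nat_lit 6))
    (@En.n l475 (nat_lit 8306) (nat_lit 7) (nat_lit 12))
    (@En.n l10861 (nat_lit 7419) (nat_lit 7) (nat_lit 6))
    (@En.n l8017 (nat_lit 7421) (nat_lit 9) (nat_lit 12))
    (@En.n l10862 (nat_lit 7416) (nat_lit 9) (nat_lit 3))
    (@En.n l146 (nat_lit 7317) (nat_lit 0) (nat_lit 4))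
    (@En.n l9530 (nat_lit 7407) (nat_lit 12) (nat_lit 10))
    (@En.i (nat_lit 3285) (nat_lit 5) (nat_lit 13))
    (@En.n l10863 (nat_lit 4342) (nat_lit 14) (nat_lit 10))
    (@En.i (nat_lit 4316) (nat_lit 14) (nat_lit 12))
    (@En.n l17 (nat_lit 7410) (nat_lit 15) (nat_lit 2))))
  (@Cl.mk (nat_lit 0x20006000c000b000800060004000e00050002000d000a00080003000e000a) (nat_lit 0x296008006520b4) (nat_lit 16) Lb.e (@T16.mk En
    (@En.i (nat_lit 6038) (nat_lit 10) (nat_lit 10))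
    (@En.i (nat_lit 5305) (nat_lit 1) (nat_lit 14))
    (@En.n l5162 (nat_lit 7412) (nat_lit 2) (nat_lit 3))
    (@En.n l11280 (nat_lit 2097) (nat_lit 3) (nat_lit 8))
    (@En.n l11281 (nat_lit 7738) (nat_lit 4) (nat_lit 10))
    (@En.i (nat_lit 9880) (nat_lit 6) (nat_lit 13))
    (@En.n l17 (nat_lit 7411) (nat_lit 6) (nat_lit 2))
    (@En.n l11282 (nat_lit 5314) (nat_lit 7) (nat_lit 5))
    (@En.n l7145 (nat_lit 7414) (nat_lit 9) (nat_lit 14))
    (@En.n l7402 (nat_lit 7413) (nat_lit 9) (nat_lit 4))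
    (@En.i (nat_lit 3331) (nat_lit 3) (nat_lit 6))
    (@En.n l681 (nat_lit 7919) (nat_lit 12) (nat_lit 8))
    (@En.n l217 (nat_lit 7403) (nat_lit 13) (nat_lit 11))
    (@En.n l476 (nat_lit 6293) (nat_lit 14) (nat_lit 12))
    (@En.i (nat_lit 7135) (nat_lit 7) (nat_lit 6))
    (@En.n l28 (nat_lit 7411) (nat_lit 15) (nat_lit 2))))
  (@Cl.mk (nat_lit 0x20005000c000b000900060004000e00050002000d0007000b0003000e000a) (nat_lit 0x215008006070b1) (nat_lit 16) Lb.e (@T16.mk En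
    (@En.n l575 (nat_lit 6037) (nat_lit 10) (nat_lit 10))
    (@En.i (nat_lit 7738) (nat_lit 1) (nat_lit 14))
    (@En.n l10850 (nat_lit 7411) (nat_lit 2) (nat_lit 3))
    (@En.i (nat_lit 2480) (nat_lit 3) (nat_lit 11))
    (@En.i (nat_lit 1762) (nat_lit 4) (nat_lit 7))
    (@En.n l564 (nat_lit 9882) (nat_lit 6) (nat_lit 13))
    (@En.n l7 (nat_lit 7412) (nat_lit 6) (nat_lit 2))
    (@En.n l28 (nat_lit 7153) (nat_lit 7) (nat_lit 5))
    (@En.n l10151 (nat_lit 7415) (nat_lit 9) (nat_lit 14))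
    (@En.i (nat_lit 8662) (nat_lit 9) (nat_lit 4))
    (@En.n l7998 (nat_lit 3335) (nat_lit 3) (nat_lit 6))
    (@En.n l575 (nat_lit 8522) (nat_lit 12) (nat_lit 9))
    (@En.n l575 (nat_lit 4615) (nat_lit 13) (nat_lit 11))
    (@En.n l10851 (nat_lit 6295) (nat_lit 14) (nat_lit 12))
    (@En.i (nat_lit 6893) (nat_lit 13) (nat_lit 5))
    (@En.n l3 (nat_lit 7412) (nat_lit 15) (nat_lit 2))))
  (@Cl.mk (nat_lit 0x20006000c0004000c00090004000e00040002000d000a00070003000e000c) (nat_lit 0x30030700770084) (nat_lit 16) Lb.e (@T16.mk En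
    (@En.n l137 (nat_lit 7539) (nat_lit 10) (nat_lit 12))
    (@En.i (nat_lit 8947) (nat_lit 1) (nat_lit 14))
    (@En.n l18 (nat_lit 8662) (nat_lit 2) (nat_lit 3))
    (@En.n l4855 (nat_lit 3133) (nat_lit 3) (nat_lit 7))
    (@En.n l61 (nat_lit 8663) (nat_lit 4) (nat_lit 10))
    (@En.n l564 (nat_lit 7354) (nat_lit 6) (nat_lit 13))
    (@En.n l7 (nat_lit 7413) (nat_lit 6) (nat_lit 2))
    (@En.n l28 (nat_lit 8666) (nat_lit 7) (nat_lit 4))
    (@En.n l1547 (nat_lit 5997) (nat_lit 9) (nat_lit 14))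
    (@En.n l137 (nat_lit 7408) (nat_lit 9) (nat_lit 4))
    (@En.i (nat_lit 7918) (nat_lit 11) (nat_lit 9))
    (@En.n l11308 (nat_lit 10937) (nat_lit 12) (nat_lit 12))
    (@En.n l117 (nat_lit 10220) (nat_lit 5) (nat_lit 4))
    (@En.n l4806 (nat_lit 7311) (nat_lit 14) (nat_lit 12))
    (@En.i (nat_lit 7775) (nat_lit 7) (nat_lit 6))
    (@En.n l3 (nat_lit 7413) (nat_lit 15) (nat_lit 2))))
  (@Cl.mk (nat_lit 0x200060009000c00080006000e000400020007000d000a00080003000e000a) (nat_lit 0x29207000556076) (nat_lit 16) Lb.e (@T16.mk En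
    (@En.n l77 (nat_lit 7836) (nat_lit 9) (nat_lit 10))
    (@En.n l1735 (nat_lit 5763) (nat_lit 1) (nat_lit 14))
    (@En.n l117 (nat_lit 7415) (nat_lit 2) (nat_lit 3))
    (@En.n l1736 (nat_lit 1809) (nat_lit 12) (nat_lit 8))
    (@En.i (nat_lit 7739) (nat_lit 4) (nat_lit 10))
    (@En.n l1737 (nat_lit 8087) (nat_lit 6) (nat_lit 13))
    (@En.n l1738 (nat_lit 7742) (nat_lit 6) (nat_lit 7))
    (@En.n l18 (nat_lit 7414) (nat_lit 7) (nat_lit 2))
    (@En.i (nat_lit 7742) (nat_lit 8) (nat_lit 4))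
    (@En.n l309 (nat_lit 5503) (nat_lit 10) (nat_lit 14))
    (@En.i (nat_lit 465) (nat_lit 2) (nat_lit 6))
    (@En.i (nat_lit 7652) (nat_lit 3) (nat_lit 8))
    (@En.n l253 (nat_lit 7408) (nat_lit 13) (nat_lit 12))
    (@En.i (nat_lit 868) (nat_lit 5) (nat_lit 9))
    (@En.n l115 (nat_lit 7857) (nat_lit 6) (nat_lit 6))
    (@En.n l28 (nat_lit 7414) (nat_lit 15) (nat_lit 2))))
  (@Cl.mk (nat_lit 0x200050009000c00090006000e000400020007000d0007000b0003000e000a) (nat_lit 0x39507000607076) (nat_lit 16) Lb.e (@T16.mk En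
    (@En.n l77 (nat_lit 7753) (nat_lit 9) (nat_lit 10))
    (@En.n l1690 (nat_lit 7739) (nat_lit 1) (nat_lit 14))
    (@En.n l152 (nat_lit 7414) (nat_lit 2) (nat_lit 3))
    (@En.n l1235 (nat_lit 2058) (nat_lit 3) (nat_lit 11))
    (@En.n l97 (nat_lit 1511) (nat_lit 4) (nat_lit 7))
    (@En.n l5210 (nat_lit 8080) (nat_lit 6) (nat_lit 13))
    (@En.n l5211 (nat_lit 7741) (nat_lit 6) (nat_lit 7))
    (@En.n l18 (nat_lit 7415) (nat_lit 7) (nat_lit 2))
    (@En.n l5212 (nat_lit 7741) (nat_lit 8) (nat_lit 4))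
    (@En.n l5213 (nat_lit 5502) (nat_lit 10) (nat_lit 14))
    (@En.i (nat_lit 475) (nat_lit 2) (nat_lit 6))
    (@En.n l5210 (nat_lit 7648) (nat_lit 12) (nat_lit 9))
    (@En.n l5214 (nat_lit 7409) (nat_lit 13) (nat_lit 12))
    (@En.i (nat_lit 866) (nat_lit 5) (nat_lit 9))
    (@En.n l5210 (nat_lit 7900) (nat_lit 6) (nat_lit 5))
    (@En.n l28 (nat_lit 7415) (nat_lit 15) (nat_lit 2))))
  (@Cl.mk (nat_lit 0x2000d000a000d0003000b0003000c0006000c00050004000d0004000e0003) (nat_lit 0x972050304002030) (nat_lit 16) Lb.e (@T16.mk En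
    (@En.i (nat_lit 7330) (nat_lit 15) (nat_lit 3))
    (@En.n l8012 (nat_lit 14032) (nat_lit 0) (nat_lit 14))
    (@En.i (nat_lit 7769) (nat_lit 2) (nat_lit 4))
    (@En.n l11008 (nat_lit 4331) (nat_lit 2) (nat_lit 13))
    (@En.i (nat_lit 3003) (nat_lit 4) (nat_lit 4))
    (@En.i (nat_lit 7430) (nat_lit 5) (nat_lit 5))
    (@En.n l8012 (nat_lit 8300) (nat_lit 7) (nat_lit 12))
    (@En.n l11010 (nat_lit 7418) (nat_lit 7) (nat_lit 6))
    (@En.n l28 (nat_lit 7034) (nat_lit 9) (nat_lit 12))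
    (@En.n l10969 (nat_lit 7410) (nat_lit 9) (nat_lit 3))
    (@En.i (nat_lit 7166) (nat_lit 11) (nat_lit 11))
    (@En.n l14486 (nat_lit 7341) (nat_lit 11) (nat_lit 3))
    (@En.n l2038 (nat_lit 4102) (nat_lit 0) (nat_lit 13))
    (@En.i (nat_lit 4338) (nat_lit 14) (nat_lit 10))
    (@En.i (nat_lit 11104) (nat_lit 2) (nat_lit 13))
    (@En.n l17 (nat_lit 7416) (nat_lit 15) (nat_lit 2))))
  (@Cl.mk (nat_lit 0x30003000c000a0008000d0004000c00030006000b00040008000d000d0005) (nat_lit 0x671b0a00801120) (nat_lit 16) Lb.e (@T16.mk En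
    (@En.n l6524 (nat_lit 6664) (nat_lit 0) (nat_lit 5))
    (@En.n l644 (nat_lit 7418) (nat_lit 3) (nat_lit 13))
    (@En.i (nat_lit 4328) (nat_lit 11) (nat_lit 13))
    (@En.n l10089 (nat_lit 667) (nat_lit 11) (nat_lit 8))
    (@En.i (nat_lit 4587) (nat_lit 4) (nat_lit 4))
    (@En.n l29619 (nat_lit 8607) (nat_lit 0) (nat_lit 11))
    (@En.n l152 (nat_lit 5573) (nat_lit 12) (nat_lit 6))
    (@En.n l9956 (nat_lit 7420) (nat_lit 7) (nat_lit 3))
    (@En.n l781 (nat_lit 7168) (nat_lit 0) (nat_lit 12))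
    (@En.n l19001 (nat_lit 3536) (nat_lit 9) (nat_lit 4))
    (@En.n l17017 (nat_lit 7330) (nat_lit 11) (nat_lit 13))
    (@En.n l7231 (nat_lit 3043) (nat_lit 12) (nat_lit 8))
    (@En.i (nat_lit 4340) (nat_lit 13) (nat_lit 10))
    (@En.n l16798 (nat_lit 11108) (nat_lit 14) (nat_lit 12))
    (@En.n l7258 (nat_lit 7425) (nat_lit 13) (nat_lit 3))
    (@En.n l7 (nat_lit 7418) (nat_lit 0) (nat_lit 3))))
  (@Cl.mk (nat_lit 0x2000c000a0008000d0004000c00030006000c00040008000d0004000e0003) (nat_lit 0x67130a0000110b0) (nat_lit 16) Lb.e (@T16.mk En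
    (@En.i (nat_lit 7417) (nat_lit 15) (nat_lit 3))
    (@En.n l2125 (nat_lit 14034) (nat_lit 0) (nat_lit 14))
    (@En.i (nat_lit 7134) (nat_lit 2) (nat_lit 4))
    (@En.i (nat_lit 4325) (nat_lit 11) (nat_lit 13))
    (@En.n l10089 (nat_lit 665) (nat_lit 4) (nat_lit 8))
    (@En.i (nat_lit 7427) (nat_lit 5) (nat_lit 4))
    (@En.n l2125 (nat_lit 8620) (nat_lit 7) (nat_lit 12))
    (@En.n l152 (nat_lit 5574) (nat_lit 12) (nat_lit 6))
    (@En.n l117 (nat_lit 7419) (nat_lit 8) (nat_lit 3))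
    (@En.n l781 (nat_lit 7167) (nat_lit 0) (nat_lit 12))
    (@En.n l19001 (nat_lit 7426) (nat_lit 10) (nat_lit 4))
    (@En.n l17017 (nat_lit 7416) (nat_lit 12) (nat_lit 13))
    (@En.n l7231 (nat_lit 3045) (nat_lit 13) (nat_lit 8))
    (@En.i (nat_lit 4339) (nat_lit 14) (nat_lit 10))
    (@En.i (nat_lit 11107) (nat_lit 14) (nat_lit 12))
    (@En.n l50 (nat_lit 7418) (nat_lit 15) (nat_lit 2))))
  (@Cl.mk (nat_lit 0x2000b000a0008000d000b000500030006000c00050008000d0004000e0003) (nat_lit 0x171230000011070) (nat_lit 16) Lb.e (@T16.mk En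
    (@En.n l1140 (nat_lit 7420) (nat_lit 15) (nat_lit 3))
    (@En.i (nat_lit 14035) (nat_lit 0) (nat_lit 14))
    (@En.i (nat_lit 7132) (nat_lit 2) (nat_lit 4))
    (@En.i (nat_lit 4330) (nat_lit 11) (nat_lit 13))
    (@En.n l1867 (nat_lit 3909) (nat_lit 10) (nat_lit 8))
    (@En.i (nat_lit 4579) (nat_lit 5) (nat_lit 5))
    (@En.n l3530 (nat_lit 7903) (nat_lit 7) (nat_lit 12))
    (@En.i (nat_lit 2453) (nat_lit 7) (nat_lit 6))
    (@En.n l152 (nat_lit 7418) (nat_lit 8) (nat_lit 3))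
    (@En.n l3866 (nat_lit 7335) (nat_lit 0) (nat_lit 5))
    (@En.n l22465 (nat_lit 7421) (nat_lit 11) (nat_lit 11))
    (@En.n l20336 (nat_lit 7410) (nat_lit 12) (nat_lit 13))
    (@En.n l12291 (nat_lit 3040) (nat_lit 13) (nat_lit 8))
    (@En.n l1867 (nat_lit 4344) (nat_lit 14) (nat_lit 10))
    (@En.i (nat_lit 4313) (nat_lit 14) (nat_lit 11))
    (@En.n l50 (nat_lit 7419) (nat_lit 15) (nat_lit 2))))
  (@Cl.mk (nat_lit 0x30003000b000a0008000d000b000500030006000b00050008000d000d0005) (nat_lit 0x972a3000803220) (nat_lit 16) Lb.e (@T16.mk En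
    (@En.n l28258 (nat_lit 6662) (nat_lit 0) (nat_lit 5))
    (@En.n l30176 (nat_lit 7419) (nat_lit 3) (nat_lit 13))
    (@En.n l13800 (nat_lit 9168) (nat_lit 11) (nat_lit 13))
    (@En.i (nat_lit 3907) (nat_lit 10) (nat_lit 8))
    (@En.n l30177 (nat_lit 4580) (nat_lit 4) (nat_lit 5))
    (@En.n l30178 (nat_lit 8608) (nat_lit 14) (nat_lit 11))
    (@En.n l13800 (nat_lit 2454) (nat_lit 12) (nat_lit 6))
    (@En.n l3522 (nat_lit 7417) (nat_lit 7) (nat_lit 3))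
    (@En.n l889 (nat_lit 7315) (nat_lit 0) (nat_lit 5))
    (@En.n l30179 (nat_lit 7422) (nat_lit 10) (nat_lit 11))
    (@En.n l28257 (nat_lit 7327) (nat_lit 11) (nat_lit 13))
    (@En.n l30180 (nat_lit 3039) (nat_lit 12) (nat_lit 8))
    (@En.i (nat_lit 4345) (nat_lit 13) (nat_lit 10))
    (@En.n l26659 (nat_lit 4315) (nat_lit 14) (nat_lit 11))
    (@En.n l30181 (nat_lit 7423) (nat_lit 13) (nat_lit 3))
    (@En.n l30182 (nat_lit 7419) (nat_lit 0) (nat_lit 3))))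
  (@Cl.mk (nat_lit 0x2000c000b0008000b0004000c0005000b000500040008000d0005000e0003) (nat_lit 0x171208000023080) (nat_lit 16) Lb.e (@T16.mk En
    (@En.n l1080 (nat_lit 7422) (nat_lit 15) (nat_lit 3))
    (@En.n l13633 (nat_lit 13981) (nat_lit 0) (nat_lit 14))
    (@En.i (nat_lit 7133) (nat_lit 2) (nat_lit 5))
    (@En.i (nat_lit 9170) (nat_lit 2) (nat_lit 13))
    (@En.n l18910 (nat_lit 7419) (nat_lit 4) (nat_lit 8))
    (@En.n l3480 (nat_lit 7418) (nat_lit 5) (nat_lit 4))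
    (@En.n l2642 (nat_lit 3661) (nat_lit 6) (nat_lit 5))
    (@En.n l13633 (nat_lit 7904) (nat_lit 8) (nat_lit 11))
    (@En.n l18911 (nat_lit 2457) (nat_lit 8) (nat_lit 5))
    (@En.n l18912 (nat_lit 7079) (nat_lit 10) (nat_lit 12))
    (@En.i (nat_lit 7237) (nat_lit 10) (nat_lit 4))
    (@En.n l18913 (nat_lit 3431) (nat_lit 7) (nat_lit 11))
    (@En.n l13716 (nat_lit 3047) (nat_lit 13) (nat_lit 8))
    (@En.n l3480 (nat_lit 4346) (nat_lit 14) (nat_lit 11))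
    (@En.i (nat_lit 4311) (nat_lit 14) (nat_lit 12))
    (@En.n l28 (nat_lit 7421) (nat_lit 15) (nat_lit 2))))
  (@Cl.mk (nat_lit 0x30003000c000b0008000b0004000c0005000a000500040008000d000d0006) (nat_lit 0x37220807004340) (nat_lit 16) Lb.e (@T16.mk En
    (@En.n l8148 (nat_lit 6661) (nat_lit 0) (nat_lit 6))
    (@En.n l1767 (nat_lit 7421) (nat_lit 3) (nat_lit 13))
    (@En.n l3530 (nat_lit 9169) (nat_lit 2) (nat_lit 13))
    (@En.n l34685 (nat_lit 7420) (nat_lit 3) (nat_lit 8))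
    (@En.n l15535 (nat_lit 7417) (nat_lit 4) (nat_lit 4))
    (@En.n l1769 (nat_lit 3658) (nat_lit 5) (nat_lit 5))
    (@En.n l34686 (nat_lit 8609) (nat_lit 1) (nat_lit 10))
    (@En.n l34687 (nat_lit 2456) (nat_lit 7) (nat_lit 5))
    (@En.n l21138 (nat_lit 7073) (nat_lit 9) (nat_lit 12))
    (@En.n l7 (nat_lit 7235) (nat_lit 9) (nat_lit 4))
    (@En.n l21138 (nat_lit 3432) (nat_lit 7) (nat_lit 11))
    (@En.n l19471 (nat_lit 3042) (nat_lit 12) (nat_lit 8))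
    (@En.n l644 (nat_lit 4347) (nat_lit 13) (nat_lit 11))
    (@En.n l34688 (nat_lit 4310) (nat_lit 14) (nat_lit 12))
    (@En.n l16564 (nat_lit 7424) (nat_lit 13) (nat_lit 3))
    (@En.n l4659 (nat_lit 7421) (nat_lit 0) (nat_lit 3))))
  (@Cl.mk (nat_lit 0x200060003000b000a0008000d000b000500030006000a00050008000e000d) (nat_lit 0x2622700080163) (nat_lit 16) Lb.e (@T16.mk En
    (@En.n l20282 (nat_lit 7420) (nat_lit 2) (nat_lit 13))
    (@En.n l20283 (nat_lit 10527) (nat_lit 1) (nat_lit 14))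
    (@En.n l5414 (nat_lit 3900) (nat_lit 2) (nat_lit 8))
    (@En.n l20284 (nat_lit 4582) (nat_lit 3) (nat_lit 5))
    (@En.i (nat_lit 8531) (nat_lit 4) (nat_lit 10))
    (@En.n l13056 (nat_lit 2455) (nat_lit 5) (nat_lit 6))
    (@En.n l7 (nat_lit 7425) (nat_lit 6) (nat_lit 3))
    (@En.n l13056 (nat_lit 7346) (nat_lit 0) (nat_lit 5))
    (@En.n l1540 (nat_lit 7424) (nat_lit 9) (nat_lit 11))
    (@En.n l617 (nat_lit 7326) (nat_lit 10) (nat_lit 13))
    (@En.n l17 (nat_lit 3041) (nat_lit 11) (nat_lit 8))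
    (@En.n l20284 (nat_lit 7214) (nat_lit 12) (nat_lit 10))
    (@En.n l13056 (nat_lit 4543) (nat_lit 13) (nat_lit 11))
    (@En.n l20285 (nat_lit 7420) (nat_lit 14) (nat_lit 3))
    (@En.i (nat_lit 4459) (nat_lit 0) (nat_lit 6))
    (@En.n l3 (nat_lit 7423) (nat_lit 15) (nat_lit 2))))
noncomputable def a464 : T16 Cl := @T16.mk Cl
  (@Cl.mk (nat_lit 0x200070003000c000b0008000b0004000c00050009000500040008000e000d) (nat_lit 0x1626060700274) (nat_lit 16) Lb.e (@T16.mk En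
    (@En.n l23370 (nat_lit 7422) (nat_lit 2) (nat_lit 13))
    (@En.n l5839 (nat_lit 10528) (nat_lit 1) (nat_lit 14))
    (@En.n l23371 (nat_lit 7423) (nat_lit 2) (nat_lit 8))
    (@En.n l3072 (nat_lit 7425) (nat_lit 3) (nat_lit 4))
    (@En.n l725 (nat_lit 4584) (nat_lit 4) (nat_lit 5))
    (@En.n l4790 (nat_lit 8610) (nat_lit 5) (nat_lit 9))
    (@En.n l7075 (nat_lit 2459) (nat_lit 6) (nat_lit 5))
    (@En.i (nat_lit 7070) (nat_lit 8) (nat_lit 12))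
    (@En.n l2038 (nat_lit 7236) (nat_lit 8) (nat_lit 4))
    (@En.i (nat_lit 3434) (nat_lit 10) (nat_lit 11))
    (@En.n l7075 (nat_lit 4196) (nat_lit 11) (nat_lit 8))
    (@En.n l14205 (nat_lit 7215) (nat_lit 12) (nat_lit 11))
    (@En.i (nat_lit 4544) (nat_lit 13) (nat_lit 12))
    (@En.n l11792 (nat_lit 7422) (nat_lit 14) (nat_lit 3))
    (@En.n l4790 (nat_lit 6660) (nat_lit 0) (nat_lit 7))
    (@En.n l50 (nat_lit 7424) (nat_lit 15) (nat_lit 2))))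
  (@Cl.mk (nat_lit 0x200060003000c000a0008000d0004000c00030006000a00040008000e000d) (nat_lit 0xa723070080132) (nat_lit 16) Lb.e (@T16.mk En
    (@En.n l2429 (nat_lit 7417) (nat_lit 2) (nat_lit 13))
    (@En.n l2427 (nat_lit 10526) (nat_lit 1) (nat_lit 14))
    (@En.n l387 (nat_lit 3906) (nat_lit 2) (nat_lit 8))
    (@En.i (nat_lit 7111) (nat_lit 3) (nat_lit 4))
    (@En.i (nat_lit 8611) (nat_lit 4) (nat_lit 10))
    (@En.n l2373 (nat_lit 5575) (nat_lit 12) (nat_lit 6))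
    (@En.i (nat_lit 7423) (nat_lit 6) (nat_lit 3))
    (@En.n l1722 (nat_lit 7170) (nat_lit 0) (nat_lit 12))
    (@En.n l4711 (nat_lit 7210) (nat_lit 8) (nat_lit 4))
    (@En.n l617 (nat_lit 7329) (nat_lit 10) (nat_lit 13))
    (@En.n l17 (nat_lit 4197) (nat_lit 11) (nat_lit 8))
    (@En.n l11697 (nat_lit 7212) (nat_lit 12) (nat_lit 10))
    (@En.i (nat_lit 11493) (nat_lit 13) (nat_lit 12))
    (@En.n l2427 (nat_lit 7417) (nat_lit 14) (nat_lit 3))
    (@En.i (nat_lit 4460) (nat_lit 0) (nat_lit 6))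
    (@En.n l3 (nat_lit 7425) (nat_lit 15) (nat_lit 2))))
  (@Cl.mk (nat_lit 0x2000c000b000b00090004000c00050005000c00040007000d0004000e0003) (nat_lit 0x82110600900b090) (nat_lit 16) Lb.e (@T16.mk En
    (@En.i (nat_lit 3536) (nat_lit 15) (nat_lit 3))
    (@En.n l4818 (nat_lit 13330) (nat_lit 0) (nat_lit 14))
    (@En.i (nat_lit 7477) (nat_lit 2) (nat_lit 4))
    (@En.i (nat_lit 8599) (nat_lit 2) (nat_lit 13))
    (@En.n l19428 (nat_lit 1162) (nat_lit 11) (nat_lit 7))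
    (@En.n l13131 (nat_lit 7120) (nat_lit 5) (nat_lit 4))
    (@En.n l19430 (nat_lit 9535) (nat_lit 7) (nat_lit 12))
    (@En.n l9272 (nat_lit 4857) (nat_lit 11) (nat_lit 5))
    (@En.n l3851 (nat_lit 7333) (nat_lit 8) (nat_lit 5))
    (@En.n l2196 (nat_lit 7221) (nat_lit 10) (nat_lit 12))
    (@En.i (nat_lit 7303) (nat_lit 10) (nat_lit 4))
    (@En.n l34363 (nat_lit 3046) (nat_lit 12) (nat_lit 9))
    (@En.n l9279 (nat_lit 3533) (nat_lit 5) (nat_lit 11))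
    (@En.n l3518 (nat_lit 7419) (nat_lit 14) (nat_lit 11))
    (@En.n l18 (nat_lit 11967) (nat_lit 14) (nat_lit 12))
    (@En.n l50 (nat_lit 7426) (nat_lit 15) (nat_lit 2))))
  (@Cl.mk (nat_lit 0x2000c00090008000c0004000c000a0004000700040008000d0006000e0003) (nat_lit 0x76240a80001b060) (nat_lit 16) Lb.e (@T16.mk En
    (@En.i (nat_lit 4587) (nat_lit 15) (nat_lit 3))
    (@En.n l2125 (nat_lit 13856) (nat_lit 0) (nat_lit 14))
    (@En.i (nat_lit 7436) (nat_lit 2) (nat_lit 6))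
    (@En.i (nat_lit 9178) (nat_lit 2) (nat_lit 13))
    (@En.n l21561 (nat_lit 2962) (nat_lit 4) (nat_lit 8))
    (@En.n l3535 (nat_lit 7421) (nat_lit 5) (nat_lit 4))
    (@En.n l152 (nat_lit 5577) (nat_lit 11) (nat_lit 7))
    (@En.n l5043 (nat_lit 3663) (nat_lit 7) (nat_lit 4))
    (@En.n l55 (nat_lit 7428) (nat_lit 9) (nat_lit 10))
    (@En.n l3447 (nat_lit 5532) (nat_lit 10) (nat_lit 12))
    (@En.n l25935 (nat_lit 7120) (nat_lit 10) (nat_lit 4))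
    (@En.n l17017 (nat_lit 7430) (nat_lit 12) (nat_lit 12))
    (@En.n l7231 (nat_lit 4208) (nat_lit 13) (nat_lit 8))
    (@En.i (nat_lit 7391) (nat_lit 14) (nat_lit 9))
    (@En.i (nat_lit 11614) (nat_lit 14) (nat_lit 12))
    (@En.n l50 (nat_lit 7427) (nat_lit 15) (nat_lit 2))))
  (@Cl.mk (nat_lit 0x2000c000a0009000d0004000a00030006000c0007000c00060004000e0004) (nat_lit 0x8857070000100b0) (nat_lit 16) Lb.e (@T16.mk En
    (@En.n l28 (nat_lit 7429) (nat_lit 7) (nat_lit 4))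
    (@En.n l24531 (nat_lit 5569) (nat_lit 1) (nat_lit 14))
    (@En.n l28 (nat_lit 7418) (nat_lit 2) (nat_lit 4))
    (@En.n l38995 (nat_lit 11248) (nat_lit 3) (nat_lit 6))
    (@En.i (nat_lit 4323) (nat_lit 12) (nat_lit 12))
    (@En.n l3213 (nat_lit 7806) (nat_lit 5) (nat_lit 7))
    (@En.n l2125 (nat_lit 9446) (nat_lit 7) (nat_lit 12))
    (@En.n l152 (nat_lit 5613) (nat_lit 12) (nat_lit 6))
    (@En.n l345 (nat_lit 8733) (nat_lit 8) (nat_lit 3))
    (@En.n l781 (nat_lit 7657) (nat_lit 0) (nat_lit 10))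
    (@En.n l22588 (nat_lit 8732) (nat_lit 10) (nat_lit 4))
    (@En.n l16317 (nat_lit 7772) (nat_lit 12) (nat_lit 13))
    (@En.n l11426 (nat_lit 7773) (nat_lit 13) (nat_lit 9))
    (@En.i (nat_lit 8660) (nat_lit 14) (nat_lit 10))
    (@En.i (nat_lit 11612) (nat_lit 3) (nat_lit 12))
    (@En.n l50 (nat_lit 7428) (nat_lit 15) (nat_lit 2))))
  (@Cl.mk (nat_lit 0x30006000b0007000c000c0007000500040004000c000a0009000d00040009) (nat_lit 0x20000884807) (nat_lit 16) Lb.e (@T16.mk En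
    (@En.n l16188 (nat_lit 7661) (nat_lit 0) (nat_lit 9))
    (@En.n l29617 (nat_lit 8505) (nat_lit 9) (nat_lit 4))
    (@En.n l29618 (nat_lit 8737) (nat_lit 0) (nat_lit 13))
    (@En.n l7231 (nat_lit 8738) (nat_lit 1) (nat_lit 9))
    (@En.i (nat_lit 8655) (nat_lit 4) (nat_lit 10))
    (@En.n l16798 (nat_lit 12020) (nat_lit 6) (nat_lit 12))
    (@En.n l7258 (nat_lit 8744) (nat_lit 12) (nat_lit 4))
    (@En.n l16188 (nat_lit 9762) (nat_lit 7) (nat_lit 4))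
    (@En.i (nat_lit 7417) (nat_lit 0) (nat_lit 5))
    (@En.n l16192 (nat_lit 10201) (nat_lit 1) (nat_lit 7))
    (@En.n l4380 (nat_lit 7428) (nat_lit 4) (nat_lit 12))
    (@En.i (nat_lit 9166) (nat_lit 12) (nat_lit 12))
    (@En.n l17334 (nat_lit 7987) (nat_lit 13) (nat_lit 7))
    (@En.n l29619 (nat_lit 9441) (nat_lit 14) (nat_lit 11))
    (@En.n l152 (nat_lit 5589) (nat_lit 12) (nat_lit 6))
    (@En.n l29620 (nat_lit 8734) (nat_lit 15) (nat_lit 3))))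
  (@Cl.mk (nat_lit 0x2000d0009000c0003000b00090004000d000700050003000d0007000e0003) (nat_lit 0x76309607000b070) (nat_lit 16) Lb.e (@T16.mk En
    (@En.i (nat_lit 4209) (nat_lit 15) (nat_lit 3))
    (@En.n l8012 (nat_lit 13855) (nat_lit 0) (nat_lit 14))
    (@En.i (nat_lit 7433) (nat_lit 2) (nat_lit 7))
    (@En.n l11008 (nat_lit 10138) (nat_lit 2) (nat_lit 13))
    (@En.i (nat_lit 4208) (nat_lit 4) (nat_lit 3))
    (@En.n l8012 (nat_lit 3431) (nat_lit 0) (nat_lit 5))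
    (@En.n l11010 (nat_lit 7427) (nat_lit 6) (nat_lit 7))
    (@En.n l12363 (nat_lit 7026) (nat_lit 8) (nat_lit 13))
    (@En.n l8016 (nat_lit 3660) (nat_lit 8) (nat_lit 4))
    (@En.i (nat_lit 7772) (nat_lit 10) (nat_lit 9))
    (@En.i (nat_lit 5625) (nat_lit 11) (nat_lit 11))
    (@En.n l8302 (nat_lit 7431) (nat_lit 11) (nat_lit 3))
    (@En.n l2038 (nat_lit 4109) (nat_lit 6) (nat_lit 12))
    (@En.n l11008 (nat_lit 7372) (nat_lit 14) (nat_lit 9))
    (@En.i (nat_lit 12009) (nat_lit 2) (nat_lit 13))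
    (@En.n l17 (nat_lit 7430) (nat_lit 15) (nat_lit 2))))
  (@Cl.mk (nat_lit 0x2000d000b000a0003000b00090005000d000600050003000d0007000e0003) (nat_lit 0xa28086070006070) (nat_lit 16) Lb.e (@T16.mk En
    (@En.n l9601 (nat_lit 7113) (nat_lit 15) (nat_lit 3))
    (@En.n l619 (nat_lit 13879) (nat_lit 0) (nat_lit 14))
    (@En.n l24560 (nat_lit 7432) (nat_lit 2) (nat_lit 7))
    (@En.n l6080 (nat_lit 10135) (nat_lit 2) (nat_lit 13))
    (@En.n l16981 (nat_lit 4206) (nat_lit 4) (nat_lit 3))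
    (@En.n l18 (nat_lit 3428) (nat_lit 0) (nat_lit 5))
    (@En.n l8240 (nat_lit 7120) (nat_lit 6) (nat_lit 6))
    (@En.i (nat_lit 7025) (nat_lit 8) (nat_lit 13))
    (@En.n l8240 (nat_lit 7378) (nat_lit 8) (nat_lit 5))
    (@En.n l24560 (nat_lit 7770) (nat_lit 10) (nat_lit 9))
    (@En.n l3593 (nat_lit 7272) (nat_lit 11) (nat_lit 11))
    (@En.n l8242 (nat_lit 7430) (nat_lit 11) (nat_lit 3))
    (@En.n l2869 (nat_lit 7338) (nat_lit 0) (nat_lit 10))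
    (@En.n l39372 (nat_lit 4577) (nat_lit 14) (nat_lit 11))
    (@En.i (nat_lit 11988) (nat_lit 2) (nat_lit 13))
    (@En.n l11 (nat_lit 7431) (nat_lit 15) (nat_lit 2))))
  (@Cl.mk (nat_lit 0x2000d000a00090003000a000900080006000d0007000600030007000e0008) (nat_lit 0x427047608000011) (nat_lit 16) Lb.e (@T16.mk En
    (@En.n l61 (nat_lit 5441) (nat_lit 13) (nat_lit 8))
    (@En.n l30964 (nat_lit 1736) (nat_lit 1) (nat_lit 14))
    (@En.n l30965 (nat_lit 7947) (nat_lit 2) (nat_lit 7))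
    (@En.n l30966 (nat_lit 7435) (nat_lit 3) (nat_lit 3))
    (@En.n l24679 (nat_lit 6032) (nat_lit 0) (nat_lit 6))
    (@En.i (nat_lit 7437) (nat_lit 5) (nat_lit 7))
    (@En.n l28515 (nat_lit 6538) (nat_lit 7) (nat_lit 13))
    (@En.n l12811 (nat_lit 9747) (nat_lit 7) (nat_lit 6))
    (@En.n l2781 (nat_lit 7113) (nat_lit 8) (nat_lit 8))
    (@En.i (nat_lit 11309) (nat_lit 10) (nat_lit 9))
    (@En.n l2781 (nat_lit 6953) (nat_lit 11) (nat_lit 10))
    (@En.n l15575 (nat_lit 7433) (nat_lit 11) (nat_lit 3))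
    (@En.n l619 (nat_lit 6564) (nat_lit 0) (nat_lit 9))
    (@En.n l3866 (nat_lit 4359) (nat_lit 14) (nat_lit 10))
    (@En.n l2781 (nat_lit 11949) (nat_lit 2) (nat_lit 13))
    (@En.n l18 (nat_lit 7432) (nat_lit 15) (nat_lit 2))))
  (@Cl.mk (nat_lit 0x2000d0008000b0003000a000900080005000d0008000600030007000e0008) (nat_lit 0x555077108400012) (nat_lit 16) Lb.e (@T16.mk En
    (@En.i (nat_lit 6526) (nat_lit 13) (nat_lit 8))
    (@En.n l5 (nat_lit 5282) (nat_lit 1) (nat_lit 14))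
    (@En.n l6558 (nat_lit 7941) (nat_lit 2) (nat_lit 7))
    (@En.i (nat_lit 7434) (nat_lit 3) (nat_lit 3))
    (@En.n l16067 (nat_lit 6033) (nat_lit 0) (nat_lit 6))
    (@En.n l11010 (nat_lit 7436) (nat_lit 5) (nat_lit 8))
    (@En.n l12363 (nat_lit 6536) (nat_lit 7) (nat_lit 13))
    (@En.n l16068 (nat_lit 7909) (nat_lit 7) (nat_lit 5))
    (@En.n l217 (nat_lit 4209) (nat_lit 8) (nat_lit 8))
    (@En.n l16068 (nat_lit 11247) (nat_lit 10) (nat_lit 9))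
    (@En.n l16069 (nat_lit 7543) (nat_lit 11) (nat_lit 10))
    (@En.n l6564 (nat_lit 7432) (nat_lit 11) (nat_lit 3))
    (@En.n l16068 (nat_lit 3722) (nat_lit 7) (nat_lit 11))
    (@En.n l6565 (nat_lit 6951) (nat_lit 14) (nat_lit 8))
    (@En.n l11007 (nat_lit 11948) (nat_lit 2) (nat_lit 13))
    (@En.n l17 (nat_lit 7433) (nat_lit 15) (nat_lit 2))))
  (@Cl.mk (nat_lit 0x2000d0007000b0003000b000900080005000d0005000900030007000e0008) (nat_lit 0x805087108060082) (nat_lit 16) Lb.e (@T16.mk En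
    (@En.n l16419 (nat_lit 5437) (nat_lit 13) (nat_lit 8))
    (@En.n l5 (nat_lit 5361) (nat_lit 1) (nat_lit 14))
    (@En.n l11535 (nat_lit 11455) (nat_lit 2) (nat_lit 7))
    (@En.n l7 (nat_lit 7433) (nat_lit 3) (nat_lit 3))
    (@En.i (nat_lit 5798) (nat_lit 0) (nat_lit 9))
    (@En.n l4110 (nat_lit 3147) (nat_lit 5) (nat_lit 5))
    (@En.n l19538 (nat_lit 6537) (nat_lit 7) (nat_lit 13))
    (@En.n l16421 (nat_lit 7908) (nat_lit 7) (nat_lit 5))
    (@En.n l217 (nat_lit 4201) (nat_lit 8) (nat_lit 8))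
    (@En.i (nat_lit 11251) (nat_lit 10) (nat_lit 9))
    (@En.i (nat_lit 7187) (nat_lit 11) (nat_lit 11))
    (@En.n l23060 (nat_lit 7435) (nat_lit 11) (nat_lit 3))
    (@En.n l619 (nat_lit 3720) (nat_lit 0) (nat_lit 11))
    (@En.i (nat_lit 7188) (nat_lit 14) (nat_lit 7))
    (@En.n l19537 (nat_lit 11768) (nat_lit 2) (nat_lit 13))
    (@En.n l17 (nat_lit 7434) (nat_lit 15) (nat_lit 2))))
  (@Cl.mk (nat_lit 0x2000d000a00080003000b000900080006000d0005000800030007000e0008) (nat_lit 0x4220871080200b2) (nat_lit 16) Lb.e (@T16.mk En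
    (@En.n l38694 (nat_lit 5436) (nat_lit 13) (nat_lit 8))
    (@En.n l5 (nat_lit 1740) (nat_lit 1) (nat_lit 14))
    (@En.n l38695 (nat_lit 11452) (nat_lit 2) (nat_lit 7))
    (@En.n l21772 (nat_lit 7432) (nat_lit 3) (nat_lit 3))
    (@En.n l38696 (nat_lit 5806) (nat_lit 0) (nat_lit 8))
    (@En.n l1792 (nat_lit 4468) (nat_lit 5) (nat_lit 5))
    (@En.n l5515 (nat_lit 6539) (nat_lit 7) (nat_lit 13))
    (@En.n l38697 (nat_lit 9744) (nat_lit 7) (nat_lit 6))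
    (@En.n l26652 (nat_lit 4203) (nat_lit 8) (nat_lit 8))
    (@En.n l25983 (nat_lit 11310) (nat_lit 10) (nat_lit 9))
    (@En.n l16847 (nat_lit 7188) (nat_lit 11) (nat_lit 11))
    (@En.n l4939 (nat_lit 7434) (nat_lit 11) (nat_lit 3))
    (@En.n l38698 (nat_lit 5013) (nat_lit 0) (nat_lit 8))
    (@En.n l38699 (nat_lit 4358) (nat_lit 14) (nat_lit 10))
    (@En.n l38689 (nat_lit 11950) (nat_lit 2) (nat_lit 13))
    (@En.n l17 (nat_lit 7435) (nat_lit 15) (nat_lit 2))))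
  (@Cl.mk (nat_lit 0x2000c00080007000b0004000b000a000900050008000500090006000e0007) (nat_lit 0x560605710304010) (nat_lit 16) Lb.e (@T16.mk En
    (@En.n l11051 (nat_lit 6527) (nat_lit 5) (nat_lit 7))
    (@En.n l601 (nat_lit 5279) (nat_lit 1) (nat_lit 14))
    (@En.n l11 (nat_lit 7944) (nat_lit 2) (nat_lit 6))
    (@En.n l21561 (nat_lit 5600) (nat_lit 3) (nat_lit 9))
    (@En.n l3535 (nat_lit 7133) (nat_lit 4) (nat_lit 5))
    (@En.n l152 (nat_lit 6436) (nat_lit 10) (nat_lit 8))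
    (@En.n l30962 (nat_lit 7910) (nat_lit 6) (nat_lit 5))
    (@En.n l77 (nat_lit 4587) (nat_lit 7) (nat_lit 9))
    (@En.n l30962 (nat_lit 11248) (nat_lit 9) (nat_lit 10))
    (@En.n l3447 (nat_lit 7544) (nat_lit 10) (nat_lit 11))
    (@En.n l30963 (nat_lit 7437) (nat_lit 10) (nat_lit 4))
    (@En.n l17017 (nat_lit 7433) (nat_lit 12) (nat_lit 11))
    (@En.n l7231 (nat_lit 7434) (nat_lit 13) (nat_lit 7))
    (@En.i (nat_lit 6952) (nat_lit 14) (nat_lit 8))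
    (@En.n l24578 (nat_lit 9850) (nat_lit 3) (nat_lit 12))
    (@En.n l50 (nat_lit 7436) (nat_lit 15) (nat_lit 2))))
  (@Cl.mk (nat_lit 0x2000c0009000900080004000b000a000900070007000500080006000e0007) (nat_lit 0x527305650003040) (nat_lit 16) Lb.e (@T16.mk En
    (@En.n l38645 (nat_lit 7440) (nat_lit 5) (nat_lit 7))
    (@En.n l16233 (nat_lit 5275) (nat_lit 1) (nat_lit 14))
    (@En.n l38646 (nat_lit 11644) (nat_lit 2) (nat_lit 6))
    (@En.n l38647 (nat_lit 5746) (nat_lit 3) (nat_lit 8))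
    (@En.n l38648 (nat_lit 7240) (nat_lit 4) (nat_lit 5))
    (@En.n l2828 (nat_lit 7441) (nat_lit 9) (nat_lit 7))
    (@En.n l38649 (nat_lit 9190) (nat_lit 6) (nat_lit 7))
    (@En.n l2781 (nat_lit 7117) (nat_lit 7) (nat_lit 9))
    (@En.i (nat_lit 11311) (nat_lit 9) (nat_lit 10))
    (@En.n l18265 (nat_lit 7439) (nat_lit 10) (nat_lit 11))
    (@En.n l16268 (nat_lit 7438) (nat_lit 10) (nat_lit 4))
    (@En.n l35802 (nat_lit 7435) (nat_lit 12) (nat_lit 8))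
    (@En.n l6941 (nat_lit 7442) (nat_lit 7) (nat_lit 9))
    (@En.n l38650 (nat_lit 4361) (nat_lit 14) (nat_lit 9))
    (@En.n l33887 (nat_lit 10523) (nat_lit 3) (nat_lit 12))
    (@En.n l18 (nat_lit 7437) (nat_lit 15) (nat_lit 2))))
  (@Cl.mk (nat_lit 0x2000c0006000a000a0004000b000a0009000600060005000a0006000e0007) (nat_lit 0x503206750003040) (nat_lit 16) Lb.e (@T16.mk En
    (@En.n l22980 (nat_lit 7710) (nat_lit 5) (nat_lit 7))
    (@En.n l601 (nat_lit 5278) (nat_lit 1) (nat_lit 14))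
    (@En.n l9966 (nat_lit 11364) (nat_lit 2) (nat_lit 6))
    (@En.n l14270 (nat_lit 8018) (nat_lit 3) (nat_lit 10))
    (@En.n l3535 (nat_lit 7129) (nat_lit 4) (nat_lit 5))
    (@En.n l152 (nat_lit 7443) (nat_lit 10) (nat_lit 6))
    (@En.n l20075 (nat_lit 11042) (nat_lit 6) (nat_lit 6))
    (@En.n l31523 (nat_lit 7115) (nat_lit 7) (nat_lit 9))
    (@En.n l1240 (nat_lit 11312) (nat_lit 9) (nat_lit 10))
    (@En.n l617 (nat_lit 5304) (nat_lit 10) (nat_lit 11))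
    (@En.i (nat_lit 7436) (nat_lit 10) (nat_lit 4))
    (@En.n l3536 (nat_lit 7451) (nat_lit 6) (nat_lit 10))
    (@En.n l1240 (nat_lit 7432) (nat_lit 13) (nat_lit 10))
    (@En.i (nat_lit 7439) (nat_lit 14) (nat_lit 6))
    (@En.n l2150 (nat_lit 11478) (nat_lit 3) (nat_lit 12))
    (@En.n l50 (nat_lit 7438) (nat_lit 15) (nat_lit 2))))
  (@Cl.mk (nat_lit 0x20006000a000a0008000b00090008000600060005000a00080007000e0008) (nat_lit 0x27345400034052) (nat_lit 16) Lb.e (@T16.mk En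
    (@En.n l23004 (nat_lit 5849) (nat_lit 1) (nat_lit 8))
    (@En.n l601 (nat_lit 5274) (nat_lit 1) (nat_lit 14))
    (@En.n l23005 (nat_lit 10778) (nat_lit 2) (nat_lit 7))
    (@En.n l19427 (nat_lit 7437) (nat_lit 3) (nat_lit 8))
    (@En.n l23006 (nat_lit 7177) (nat_lit 4) (nat_lit 10))
    (@En.n l3535 (nat_lit 7241) (nat_lit 5) (nat_lit 5))
    (@En.n l152 (nat_lit 5852) (nat_lit 6) (nat_lit 6))
    (@En.n l23007 (nat_lit 9189) (nat_lit 7) (nat_lit 6))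
    (@En.n l23008 (nat_lit 7119) (nat_lit 8) (nat_lit 8))
    (@En.n l19427 (nat_lit 11338) (nat_lit 10) (nat_lit 9))
    (@En.n l23008 (nat_lit 5302) (nat_lit 11) (nat_lit 11))
    (@En.n l7231 (nat_lit 7188) (nat_lit 12) (nat_lit 8))
    (@En.n l23009 (nat_lit 7486) (nat_lit 13) (nat_lit 10))
    (@En.n l23010 (nat_lit 4360) (nat_lit 14) (nat_lit 10))
    (@En.n l9067 (nat_lit 10862) (nat_lit 13) (nat_lit 6))
    (@En.n l50 (nat_lit 7439) (nat_lit 15) (nat_lit 2))))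
noncomputable def a465 : T16 Cl := @T16.mk Cl
  (@Cl.mk (nat_lit 0x4000a0009000900090008000800060009000700070007000c000800080007) (nat_lit 0x760654060004360) (nat_lit 16) Lb.e (@T16.mk En
    (@En.n l22273 (nat_lit 5436) (nat_lit 9) (nat_lit 7))
    (@En.n l4972 (nat_lit 7487) (nat_lit 8) (nat_lit 8))
    (@En.n l42096 (nat_lit 3153) (nat_lit 8) (nat_lit 8))
    (@En.n l34351 (nat_lit 12093) (nat_lit 8) (nat_lit 12))
    (@En.n l36067 (nat_lit 7714) (nat_lit 9) (nat_lit 7))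
    (@En.n l42097 (nat_lit 5270) (nat_lit 9) (nat_lit 7))
    (@En.n l21634 (nat_lit 11307) (nat_lit 6) (nat_lit 7))
    (@En.n l14830 (nat_lit 5701) (nat_lit 9) (nat_lit 9))
    (@En.n l4969 (nat_lit 6891) (nat_lit 8) (nat_lit 6))
    (@En.n l42098 (nat_lit 5850) (nat_lit 8) (nat_lit 8))
    (@En.n l644 (nat_lit 11582) (nat_lit 8) (nat_lit 8))
    (@En.n l42099 (nat_lit 7437) (nat_lit 7) (nat_lit 9))
    (@En.n l2824 (nat_lit 7701) (nat_lit 7) (nat_lit 9))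
    (@En.n l34597 (nat_lit 11322) (nat_lit 7) (nat_lit 9))
    (@En.n l36304 (nat_lit 5849) (nat_lit 11) (nat_lit 10))
    (@En.n l42100 (nat_lit 7710) (nat_lit 15) (nat_lit 4))))
  (@Cl.mk (nat_lit 0x200090005000c000b000a0007000400070005000e00060002000b000e0009) (nat_lit 0x406910000a00523) (nat_lit 16) Lb.e (@T16.mk En
    (@En.n l1240 (nat_lit 7437) (nat_lit 13) (nat_lit 9))
    (@En.n l2394 (nat_lit 2097) (nat_lit 4) (nat_lit 14))
    (@En.n l21849 (nat_lit 11483) (nat_lit 2) (nat_lit 11))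
    (@En.n l50 (nat_lit 7441) (nat_lit 3) (nat_lit 2))
    (@En.n l24013 (nat_lit 5850) (nat_lit 4) (nat_lit 6))
    (@En.n l601 (nat_lit 5276) (nat_lit 1) (nat_lit 14))
    (@En.n l11 (nat_lit 10803) (nat_lit 2) (nat_lit 5))
    (@En.n l1719 (nat_lit 5750) (nat_lit 7) (nat_lit 7))
    (@En.n l11 (nat_lit 7473) (nat_lit 8) (nat_lit 4))
    (@En.n l2394 (nat_lit 11161) (nat_lit 5) (nat_lit 7))
    (@En.n l77 (nat_lit 4862) (nat_lit 11) (nat_lit 10))
    (@En.n l1241 (nat_lit 11318) (nat_lit 12) (nat_lit 11))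
    (@En.n l617 (nat_lit 5852) (nat_lit 9) (nat_lit 12))
    (@En.n l17 (nat_lit 7443) (nat_lit 14) (nat_lit 5))
    (@En.n l1080 (nat_lit 6540) (nat_lit 11) (nat_lit 9))
    (@En.n l3 (nat_lit 7441) (nat_lit 15) (nat_lit 2))))
  (@Cl.mk (nat_lit 0x2000600090007000e00080002000d000900070003000a00090008000e0007) (nat_lit 0x60300860087140) (nat_lit 16) Lb.e (@T16.mk En
    (@En.n l18741 (nat_lit 7437) (nat_lit 6) (nat_lit 7))
    (@En.n l3 (nat_lit 9264) (nat_lit 1) (nat_lit 14))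
    (@En.n l575 (nat_lit 3535) (nat_lit 2) (nat_lit 8))
    (@En.n l3 (nat_lit 7940) (nat_lit 3) (nat_lit 9))
    (@En.n l25284 (nat_lit 7486) (nat_lit 11) (nat_lit 10))
    (@En.n l50 (nat_lit 7451) (nat_lit 5) (nat_lit 3))
    (@En.n l872 (nat_lit 5374) (nat_lit 6) (nat_lit 7))
    (@En.n l217 (nat_lit 6569) (nat_lit 14) (nat_lit 9))
    (@En.n l8916 (nat_lit 11453) (nat_lit 9) (nat_lit 13))
    (@En.n l28 (nat_lit 7442) (nat_lit 9) (nat_lit 2))
    (@En.n l34599 (nat_lit 7487) (nat_lit 11) (nat_lit 8))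
    (@En.n l1578 (nat_lit 5207) (nat_lit 12) (nat_lit 14))
    (@En.i (nat_lit 10789) (nat_lit 13) (nat_lit 7))
    (@En.n l3105 (nat_lit 5743) (nat_lit 14) (nat_lit 9))
    (@En.n l3106 (nat_lit 2602) (nat_lit 4) (nat_lit 6))
    (@En.n l17 (nat_lit 7442) (nat_lit 15) (nat_lit 2))))
  (@Cl.mk (nat_lit 0x20005000c000b000a00060004000a0005000e00060002000b0006000e000a) (nat_lit 0x89100209007034) (nat_lit 16) Lb.e (@T16.mk En
    (@En.i (nat_lit 7438) (nat_lit 12) (nat_lit 10))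
    (@En.i (nat_lit 7441) (nat_lit 1) (nat_lit 14))
    (@En.i (nat_lit 5852) (nat_lit 14) (nat_lit 6))
    (@En.i (nat_lit 11481) (nat_lit 3) (nat_lit 11))
    (@En.n l50 (nat_lit 7443) (nat_lit 4) (nat_lit 2))
    (@En.n l11051 (nat_lit 5705) (nat_lit 5) (nat_lit 6))
    (@En.n l601 (nat_lit 5277) (nat_lit 7) (nat_lit 14))
    (@En.n l11 (nat_lit 7660) (nat_lit 7) (nat_lit 5))
    (@En.n l287 (nat_lit 8023) (nat_lit 9) (nat_lit 10))
    (@En.n l11 (nat_lit 7474) (nat_lit 9) (nat_lit 4))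
    (@En.i (nat_lit 11160) (nat_lit 5) (nat_lit 6))
    (@En.n l77 (nat_lit 4755) (nat_lit 12) (nat_lit 10))
    (@En.n l55 (nat_lit 11315) (nat_lit 13) (nat_lit 11))
    (@En.n l617 (nat_lit 5306) (nat_lit 9) (nat_lit 12))
    (@En.i (nat_lit 5609) (nat_lit 13) (nat_lit 5))
    (@En.n l3 (nat_lit 7443) (nat_lit 15) (nat_lit 2))))
  (@Cl.mk (nat_lit 0x2000c0007000b000b0004000c000a0005000500040009000d0006000e0003) (nat_lit 0x70320a700045060) (nat_lit 16) Lb.e (@T16.mk En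
    (@En.n l11547 (nat_lit 7115) (nat_lit 15) (nat_lit 3))
    (@En.i (nat_lit 13333) (nat_lit 0) (nat_lit 14))
    (@En.i (nat_lit 7438) (nat_lit 2) (nat_lit 6))
    (@En.i (nat_lit 8488) (nat_lit 6) (nat_lit 13))
    (@En.n l14270 (nat_lit 7037) (nat_lit 4) (nat_lit 9))
    (@En.n l3535 (nat_lit 7295) (nat_lit 5) (nat_lit 4))
    (@En.n l152 (nat_lit 7192) (nat_lit 11) (nat_lit 5))
    (@En.n l936 (nat_lit 7292) (nat_lit 7) (nat_lit 5))
    (@En.n l870 (nat_lit 7457) (nat_lit 9) (nat_lit 10))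
    (@En.n l617 (nat_lit 4757) (nat_lit 10) (nat_lit 12))
    (@En.i (nat_lit 7427) (nat_lit 10) (nat_lit 4))
    (@En.n l3536 (nat_lit 7446) (nat_lit 5) (nat_lit 11))
    (@En.n l18752 (nat_lit 7431) (nat_lit 13) (nat_lit 11))
    (@En.i (nat_lit 7121) (nat_lit 14) (nat_lit 7))
    (@En.i (nat_lit 12184) (nat_lit 14) (nat_lit 12))
    (@En.n l50 (nat_lit 7444) (nat_lit 15) (nat_lit 2))))
  (@Cl.mk (nat_lit 0x200050009000d000d000800030003000d0007000b0003000b0008000e0005) (nat_lit 0x55700080109370) (nat_lit 16) Lb.e (@T16.mk En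
    (@En.n l6277 (nat_lit 7115) (nat_lit 6) (nat_lit 5))
    (@En.n l3 (nat_lit 3532) (nat_lit 1) (nat_lit 14))
    (@En.n l3 (nat_lit 7455) (nat_lit 2) (nat_lit 8))
    (@En.n l4750 (nat_lit 4674) (nat_lit 3) (nat_lit 11))
    (@En.i (nat_lit 3535) (nat_lit 4) (nat_lit 3))
    (@En.n l3651 (nat_lit 3055) (nat_lit 0) (nat_lit 11))
    (@En.n l19425 (nat_lit 3530) (nat_lit 6) (nat_lit 7))
    (@En.n l3651 (nat_lit 12162) (nat_lit 8) (nat_lit 13))
    (@En.n l3605 (nat_lit 7698) (nat_lit 8) (nat_lit 3))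
    (@En.n l11 (nat_lit 7446) (nat_lit 9) (nat_lit 3))
    (@En.n l21696 (nat_lit 7700) (nat_lit 11) (nat_lit 8))
    (@En.n l55 (nat_lit 7446) (nat_lit 12) (nat_lit 13))
    (@En.i (nat_lit 8342) (nat_lit 13) (nat_lit 13))
    (@En.n l19439 (nat_lit 7032) (nat_lit 14) (nat_lit 9))
    (@En.n l3106 (nat_lit 3504) (nat_lit 13) (nat_lit 5))
    (@En.n l17 (nat_lit 7445) (nat_lit 15) (nat_lit 2))))
  (@Cl.mk (nat_lit 0x200050009000d0007000e00030002000d0007000b0003000b0009000e0005) (nat_lit 0x56070090109750) (nat_lit 16) Lb.e (@T16.mk En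
    (@En.n l3098 (nat_lit 7444) (nat_lit 7) (nat_lit 5))
    (@En.n l3 (nat_lit 7448) (nat_lit 1) (nat_lit 14))
    (@En.n l3 (nat_lit 7449) (nat_lit 2) (nat_lit 9))
    (@En.i (nat_lit 4675) (nat_lit 3) (nat_lit 11))
    (@En.i (nat_lit 7447) (nat_lit 4) (nat_lit 3))
    (@En.n l2383 (nat_lit 3059) (nat_lit 0) (nat_lit 11))
    (@En.i (nat_lit 3537) (nat_lit 6) (nat_lit 7))
    (@En.i (nat_lit 7452) (nat_lit 8) (nat_lit 13))
    (@En.n l28 (nat_lit 7446) (nat_lit 8) (nat_lit 2))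
    (@En.i (nat_lit 7445) (nat_lit 9) (nat_lit 3))
    (@En.i (nat_lit 13955) (nat_lit 0) (nat_lit 14))
    (@En.i (nat_lit 7451) (nat_lit 12) (nat_lit 7))
    (@En.i (nat_lit 7454) (nat_lit 13) (nat_lit 13))
    (@En.n l3105 (nat_lit 7031) (nat_lit 14) (nat_lit 9))
    (@En.n l3106 (nat_lit 3501) (nat_lit 13) (nat_lit 5))
    (@En.n l17 (nat_lit 7446) (nat_lit 15) (nat_lit 2))))
  (@Cl.mk (nat_lit 0x200050008000d0007000e00030002000d000a00080003000b0009000e0006) (nat_lit 0x260b0087209370) (nat_lit 16) Lb.e (@T16.mk En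
    (@En.n l21153 (nat_lit 7120) (nat_lit 7) (nat_lit 6))
    (@En.n l3 (nat_lit 3533) (nat_lit 1) (nat_lit 14))
    (@En.n l3 (nat_lit 7456) (nat_lit 2) (nat_lit 9))
    (@En.n l612 (nat_lit 3537) (nat_lit 3) (nat_lit 11))
    (@En.n l50 (nat_lit 7446) (nat_lit 4) (nat_lit 3))
    (@En.n l872 (nat_lit 5377) (nat_lit 5) (nat_lit 8))
    (@En.n l217 (nat_lit 7293) (nat_lit 14) (nat_lit 10))
    (@En.i (nat_lit 12164) (nat_lit 8) (nat_lit 13))
    (@En.n l28 (nat_lit 7447) (nat_lit 8) (nat_lit 2))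
    (@En.i (nat_lit 3535) (nat_lit 9) (nat_lit 3))
    (@En.n l11820 (nat_lit 13841) (nat_lit 0) (nat_lit 14))
    (@En.i (nat_lit 7442) (nat_lit 12) (nat_lit 7))
    (@En.i (nat_lit 8240) (nat_lit 13) (nat_lit 13))
    (@En.n l3105 (nat_lit 3290) (nat_lit 14) (nat_lit 8))
    (@En.n l3106 (nat_lit 3499) (nat_lit 13) (nat_lit 5))
    (@En.n l17 (nat_lit 7447) (nat_lit 15) (nat_lit 2))))
  (@Cl.mk (nat_lit 0x2000c00050009000d0004000e00030002000d0007000c0003000b000e0004) (nat_lit 0x2b0b009070940) (nat_lit 16) Lb.e (@T16.mk En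
    (@En.n l3098 (nat_lit 7303) (nat_lit 8) (nat_lit 4))
    (@En.i (nat_lit 3567) (nat_lit 4) (nat_lit 14))
    (@En.i (nat_lit 4756) (nat_lit 11) (nat_lit 11))
    (@En.i (nat_lit 3533) (nat_lit 3) (nat_lit 3))
    (@En.i (nat_lit 7339) (nat_lit 0) (nat_lit 12))
    (@En.i (nat_lit 3527) (nat_lit 14) (nat_lit 7))
    (@En.i (nat_lit 11959) (nat_lit 7) (nat_lit 13))
    (@En.n l28 (nat_lit 7448) (nat_lit 7) (nat_lit 2))
    (@En.i (nat_lit 3532) (nat_lit 8) (nat_lit 3))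
    (@En.i (nat_lit 13957) (nat_lit 0) (nat_lit 14))
    (@En.i (nat_lit 7934) (nat_lit 10) (nat_lit 4))
    (@En.i (nat_lit 8299) (nat_lit 12) (nat_lit 13))
    (@En.n l781 (nat_lit 3779) (nat_lit 4) (nat_lit 9))
    (@En.i (nat_lit 7446) (nat_lit 14) (nat_lit 5))
    (@En.i (nat_lit 7450) (nat_lit 7) (nat_lit 12))
    (@En.n l17 (nat_lit 7448) (nat_lit 15) (nat_lit 2))))
  (@Cl.mk (nat_lit 0x2000c0008000c00070004000e00040002000d0008000c00030009000e0004) (nat_lit 0x50008009400640) (nat_lit 16) Lb.e (@T16.mk En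
    (@En.i (nat_lit 7457) (nat_lit 8) (nat_lit 4))
    (@En.i (nat_lit 2873) (nat_lit 1) (nat_lit 14))
    (@En.i (nat_lit 7012) (nat_lit 11) (nat_lit 9))
    (@En.i (nat_lit 7456) (nat_lit 3) (nat_lit 3))
    (@En.n l3082 (nat_lit 7778) (nat_lit 0) (nat_lit 12))
    (@En.i (nat_lit 8729) (nat_lit 14) (nat_lit 8))
    (@En.i (nat_lit 12172) (nat_lit 7) (nat_lit 13))
    (@En.n l28 (nat_lit 7449) (nat_lit 7) (nat_lit 2))
    (@En.i (nat_lit 7455) (nat_lit 8) (nat_lit 4))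
    (@En.n l2038 (nat_lit 7074) (nat_lit 1) (nat_lit 14))
    (@En.n l152 (nat_lit 7448) (nat_lit 10) (nat_lit 4))
    (@En.i (nat_lit 11314) (nat_lit 3) (nat_lit 7))
    (@En.i (nat_lit 8303) (nat_lit 13) (nat_lit 12))
    (@En.i (nat_lit 7797) (nat_lit 14) (nat_lit 8))
    (@En.i (nat_lit 9657) (nat_lit 7) (nat_lit 12))
    (@En.n l17 (nat_lit 7449) (nat_lit 15) (nat_lit 2))))
  (@Cl.mk (nat_lit 0x2000d0008000c0003000c00090004000c00040008000c00040007000e0004) (nat_lit 0x5410240a0510010) (nat_lit 16) Lb.e (@T16.mk En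
    (@En.i (nat_lit 10006) (nat_lit 4) (nat_lit 4))
    (@En.n l2125 (nat_lit 4502) (nat_lit 1) (nat_lit 14))
    (@En.n l152 (nat_lit 7446) (nat_lit 11) (nat_lit 7))
    (@En.i (nat_lit 9596) (nat_lit 3) (nat_lit 4))
    (@En.i (nat_lit 4325) (nat_lit 0) (nat_lit 12))
    (@En.n l781 (nat_lit 8681) (nat_lit 5) (nat_lit 8))
    (@En.n l19001 (nat_lit 3475) (nat_lit 6) (nat_lit 4))
    (@En.i (nat_lit 10010) (nat_lit 8) (nat_lit 12))
    (@En.n l4991 (nat_lit 7301) (nat_lit 8) (nat_lit 4))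
    (@En.i (nat_lit 8206) (nat_lit 10) (nat_lit 9))
    (@En.n l513 (nat_lit 4518) (nat_lit 11) (nat_lit 12))
    (@En.i (nat_lit 6864) (nat_lit 11) (nat_lit 3))
    (@En.n l4991 (nat_lit 4621) (nat_lit 0) (nat_lit 12))
    (@En.i (nat_lit 6865) (nat_lit 14) (nat_lit 8))
    (@En.n l2125 (nat_lit 11955) (nat_lit 2) (nat_lit 13))
    (@En.n l28 (nat_lit 7450) (nat_lit 15) (nat_lit 2))))
  (@Cl.mk (nat_lit 0x20006000a0007000e00080002000d0006000a0003000a00090008000e0006) (nat_lit 0x60300701087460) (nat_lit 16) Lb.e (@T16.mk En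
    (@En.n l3098 (nat_lit 7438) (nat_lit 6) (nat_lit 6))
    (@En.n l3 (nat_lit 9266) (nat_lit 1) (nat_lit 14))
    (@En.n l575 (nat_lit 7445) (nat_lit 2) (nat_lit 8))
    (@En.n l3 (nat_lit 11314) (nat_lit 10) (nat_lit 9))
    (@En.i (nat_lit 5307) (nat_lit 11) (nat_lit 10))
    (@En.i (nat_lit 7442) (nat_lit 5) (nat_lit 3))
    (@En.n l2383 (nat_lit 6563) (nat_lit 0) (nat_lit 10))
    (@En.n l13119 (nat_lit 7486) (nat_lit 14) (nat_lit 6))
    (@En.i (nat_lit 11451) (nat_lit 9) (nat_lit 13))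
    (@En.n l28 (nat_lit 7451) (nat_lit 9) (nat_lit 2))
    (@En.n l21696 (nat_lit 7488) (nat_lit 11) (nat_lit 8))
    (@En.n l1578 (nat_lit 5209) (nat_lit 12) (nat_lit 14))
    (@En.n l10028 (nat_lit 11351) (nat_lit 13) (nat_lit 7))
    (@En.n l3105 (nat_lit 5745) (nat_lit 14) (nat_lit 10))
    (@En.n l3106 (nat_lit 2601) (nat_lit 4) (nat_lit 6))
    (@En.n l17 (nat_lit 7451) (nat_lit 15) (nat_lit 2))))
  (@Cl.mk (nat_lit 0x20005000a000d0007000a0003000d0006000a00030006000b0009000e0006) (nat_lit 0x78020805003330) (nat_lit 16) Lb.e (@T16.mk En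
    (@En.n l3098 (nat_lit 12184) (nat_lit 6) (nat_lit 6))
    (@En.n l3 (nat_lit 11959) (nat_lit 1) (nat_lit 14))
    (@En.n l3 (nat_lit 12172) (nat_lit 2) (nat_lit 9))
    (@En.n l3549 (nat_lit 12042) (nat_lit 3) (nat_lit 11))
    (@En.i (nat_lit 7453) (nat_lit 4) (nat_lit 6))
    (@En.i (nat_lit 12164) (nat_lit 5) (nat_lit 3))
    (@En.n l8824 (nat_lit 12352) (nat_lit 0) (nat_lit 10))
    (@En.i (nat_lit 10047) (nat_lit 7) (nat_lit 6))
    (@En.i (nat_lit 12166) (nat_lit 9) (nat_lit 13))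
    (@En.n l3651 (nat_lit 12162) (nat_lit 9) (nat_lit 3))
    (@En.n l5033 (nat_lit 2483) (nat_lit 11) (nat_lit 10))
    (@En.i (nat_lit 11451) (nat_lit 12) (nat_lit 7))
    (@En.i (nat_lit 2773) (nat_lit 13) (nat_lit 13))
    (@En.n l3105 (nat_lit 10970) (nat_lit 14) (nat_lit 10))
    (@En.n l3106 (nat_lit 11679) (nat_lit 13) (nat_lit 5))
    (@En.n l17 (nat_lit 7452) (nat_lit 15) (nat_lit 2))))
  (@Cl.mk (nat_lit 0x200050009000c0007000a000e000400020007000b0006000b0009000e0005) (nat_lit 0x710180006087a0) (nat_lit 16) Lb.e (@T16.mk En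
    (@En.n l3187 (nat_lit 7599) (nat_lit 8) (nat_lit 5))
    (@En.n l3 (nat_lit 7508) (nat_lit 10) (nat_lit 14))
    (@En.n l3 (nat_lit 7509) (nat_lit 11) (nat_lit 9))
    (@En.n l1203 (nat_lit 3736) (nat_lit 3) (nat_lit 11))
    (@En.n l6154 (nat_lit 5060) (nat_lit 4) (nat_lit 6))
    (@En.n l15766 (nat_lit 11908) (nat_lit 14) (nat_lit 11))
    (@En.n l3100 (nat_lit 7505) (nat_lit 6) (nat_lit 7))
    (@En.n l28 (nat_lit 7453) (nat_lit 7) (nat_lit 2))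
    (@En.n l5611 (nat_lit 7505) (nat_lit 8) (nat_lit 4))
    (@En.i (nat_lit 7446) (nat_lit 10) (nat_lit 14))
    (@En.n l6154 (nat_lit 748) (nat_lit 11) (nat_lit 10))
    (@En.n l15766 (nat_lit 11506) (nat_lit 3) (nat_lit 7))
    (@En.i (nat_lit 4074) (nat_lit 13) (nat_lit 12))
    (@En.n l3105 (nat_lit 7881) (nat_lit 5) (nat_lit 9))
    (@En.n l3106 (nat_lit 7789) (nat_lit 13) (nat_lit 5))
    (@En.n l17 (nat_lit 7453) (nat_lit 15) (nat_lit 2))))
  (@Cl.mk (nat_lit 0x20005000d0006000d0003000d0003000d0003000b0003000b000a000e0005) (nat_lit 0x50b0a080002370) (nat_lit 16) Lb.e (@T16.mk En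
    (@En.n l3098 (nat_lit 8488) (nat_lit 9) (nat_lit 5))
    (@En.n l3 (nat_lit 8299) (nat_lit 1) (nat_lit 14))
    (@En.n l3 (nat_lit 8303) (nat_lit 2) (nat_lit 10))
    (@En.i (nat_lit 4424) (nat_lit 3) (nat_lit 11))
    (@En.i (nat_lit 8240) (nat_lit 4) (nat_lit 3))
    (@En.i (nat_lit 8862) (nat_lit 0) (nat_lit 11))
    (@En.i (nat_lit 8343) (nat_lit 6) (nat_lit 3))
    (@En.i (nat_lit 2773) (nat_lit 8) (nat_lit 13))
    (@En.i (nat_lit 8341) (nat_lit 8) (nat_lit 3))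
    (@En.i (nat_lit 7251) (nat_lit 10) (nat_lit 13))
    (@En.i (nat_lit 8342) (nat_lit 10) (nat_lit 3))
    (@En.i (nat_lit 7367) (nat_lit 12) (nat_lit 13))
    (@En.i (nat_lit 9027) (nat_lit 13) (nat_lit 6))
    (@En.n l3105 (nat_lit 8358) (nat_lit 14) (nat_lit 13))
    (@En.n l3106 (nat_lit 8597) (nat_lit 13) (nat_lit 5))
    (@En.n l17 (nat_lit 7454) (nat_lit 15) (nat_lit 2))))
  (@Cl.mk (nat_lit 0x2000b0008000c000c0008000500040004000d0008000c00030008000e0004) (nat_lit 0x61100009300240) (nat_lit 16) Lb.e (@T16.mk En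
    (@En.n l15273 (nat_lit 8704) (nat_lit 15) (nat_lit 4))
    (@En.i (nat_lit 3605) (nat_lit 1) (nat_lit 14))
    (@En.n l5760 (nat_lit 7016) (nat_lit 2) (nat_lit 8))
    (@En.i (nat_lit 8678) (nat_lit 3) (nat_lit 3))
    (@En.n l5760 (nat_lit 8634) (nat_lit 0) (nat_lit 12))
    (@En.n l4770 (nat_lit 8722) (nat_lit 5) (nat_lit 8))
    (@En.i (nat_lit 10738) (nat_lit 7) (nat_lit 13))
    (@En.n l5759 (nat_lit 8676) (nat_lit 12) (nat_lit 4))
    (@En.n l5760 (nat_lit 8688) (nat_lit 8) (nat_lit 4))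
    (@En.n l152 (nat_lit 3532) (nat_lit 9) (nat_lit 5))
    (@En.n l1101 (nat_lit 8152) (nat_lit 11) (nat_lit 8))
    (@En.n l55 (nat_lit 7449) (nat_lit 12) (nat_lit 12))
    (@En.i (nat_lit 4623) (nat_lit 13) (nat_lit 12))
    (@En.n l25111 (nat_lit 7091) (nat_lit 14) (nat_lit 8))
    (@En.i (nat_lit 9656) (nat_lit 11) (nat_lit 11))
    (@En.n l17 (nat_lit 7455) (nat_lit 15) (nat_lit 2))))
noncomputable def a466 : T16 Cl := @T16.mk Cl
  (@Cl.mk (nat_lit 0x2000c0007000c00070004000e00040002000d000b000900030009000e0005) (nat_lit 0x100b00a000220) (nat_lit 16) Lb.e (@T16.mk En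
    (@En.n l8605 (nat_lit 8732) (nat_lit 8) (nat_lit 5))
    (@En.i (nat_lit 2874) (nat_lit 1) (nat_lit 14))
    (@En.i (nat_lit 8924) (nat_lit 11) (nat_lit 9))
    (@En.n l50 (nat_lit 7449) (nat_lit 3) (nat_lit 3))
    (@En.n l773 (nat_lit 8998) (nat_lit 0) (nat_lit 9))
    (@En.n l217 (nat_lit 8746) (nat_lit 14) (nat_lit 11))
    (@En.i (nat_lit 12170) (nat_lit 7) (nat_lit 13))
    (@En.n l28 (nat_lit 7456) (nat_lit 7) (nat_lit 2))
    (@En.i (nat_lit 8678) (nat_lit 8) (nat_lit 4))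
    (@En.n l2038 (nat_lit 7078) (nat_lit 1) (nat_lit 14))
    (@En.n l152 (nat_lit 3533) (nat_lit 10) (nat_lit 4))
    (@En.i (nat_lit 7940) (nat_lit 12) (nat_lit 7))
    (@En.i (nat_lit 4629) (nat_lit 13) (nat_lit 12))
    (@En.i (nat_lit 7794) (nat_lit 14) (nat_lit 7))
    (@En.n l5774 (nat_lit 9659) (nat_lit 7) (nat_lit 12))
    (@En.n l17 (nat_lit 7456) (nat_lit 15) (nat_lit 2))))
  (@Cl.mk (nat_lit 0x2000c0008000c000c0004000a00040004000c0008000c00060004000e0004) (nat_lit 0x640106000400070) (nat_lit 16) Lb.e (@T16.mk En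
    (@En.n l15273 (nat_lit 8704) (nat_lit 7) (nat_lit 4))
    (@En.n l16956 (nat_lit 7079) (nat_lit 1) (nat_lit 14))
    (@En.n l2710 (nat_lit 7303) (nat_lit 2) (nat_lit 4))
    (@En.n l1075 (nat_lit 11312) (nat_lit 3) (nat_lit 6))
    (@En.i (nat_lit 8309) (nat_lit 5) (nat_lit 12))
    (@En.n l38520 (nat_lit 7800) (nat_lit 5) (nat_lit 8))
    (@En.n l32608 (nat_lit 9462) (nat_lit 7) (nat_lit 12))
    (@En.n l1071 (nat_lit 8706) (nat_lit 12) (nat_lit 4))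
    (@En.i (nat_lit 8746) (nat_lit 8) (nat_lit 4))
    (@En.n l1075 (nat_lit 7013) (nat_lit 10) (nat_lit 10))
    (@En.n l3532 (nat_lit 7428) (nat_lit 10) (nat_lit 4))
    (@En.n l61 (nat_lit 7449) (nat_lit 4) (nat_lit 12))
    (@En.n l1075 (nat_lit 7770) (nat_lit 13) (nat_lit 12))
    (@En.i (nat_lit 8730) (nat_lit 14) (nat_lit 8))
    (@En.i (nat_lit 12190) (nat_lit 3) (nat_lit 12))
    (@En.n l28 (nat_lit 7457) (nat_lit 15) (nat_lit 2))))
  (@Cl.mk (nat_lit 0x20005000d000a000e00030002000a000d0006000b0003000b0006000e0005) (nat_lit 0x93800580404050) (nat_lit 16) Lb.e (@T16.mk En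
    (@En.n l7608 (nat_lit 7373) (nat_lit 6) (nat_lit 5))
    (@En.n l617 (nat_lit 4806) (nat_lit 8) (nat_lit 14))
    (@En.n l17 (nat_lit 7198) (nat_lit 2) (nat_lit 6))
    (@En.n l16307 (nat_lit 3961) (nat_lit 3) (nat_lit 11))
    (@En.n l7610 (nat_lit 4811) (nat_lit 4) (nat_lit 3))
    (@En.i (nat_lit 4857) (nat_lit 0) (nat_lit 11))
    (@En.n l7435 (nat_lit 8924) (nat_lit 6) (nat_lit 6))
    (@En.i (nat_lit 3611) (nat_lit 8) (nat_lit 13))
    (@En.i (nat_lit 7466) (nat_lit 9) (nat_lit 10))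
    (@En.n l50 (nat_lit 7458) (nat_lit 9) (nat_lit 2))
    (@En.n l9771 (nat_lit 7200) (nat_lit 10) (nat_lit 3))
    (@En.n l7610 (nat_lit 13358) (nat_lit 0) (nat_lit 14))
    (@En.i (nat_lit 7459) (nat_lit 13) (nat_lit 10))
    (@En.i (nat_lit 8689) (nat_lit 14) (nat_lit 13))
    (@En.n l2644 (nat_lit 5551) (nat_lit 13) (nat_lit 5))
    (@En.n l11 (nat_lit 7458) (nat_lit 15) (nat_lit 2))))
  (@Cl.mk (nat_lit 0x20005000a000e000b00020009000c00060005000b0004000b0007000e0005) (nat_lit 0x23104200505090) (nat_lit 16) Lb.e (@T16.mk En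
    (@En.n l31822 (nat_lit 6763) (nat_lit 5) (nat_lit 5))
    (@En.n l5569 (nat_lit 7461) (nat_lit 7) (nat_lit 14))
    (@En.n l17 (nat_lit 7460) (nat_lit 7) (nat_lit 7))
    (@En.n l16307 (nat_lit 3702) (nat_lit 3) (nat_lit 11))
    (@En.n l4104 (nat_lit 6948) (nat_lit 4) (nat_lit 4))
    (@En.n l6606 (nat_lit 7463) (nat_lit 11) (nat_lit 11))
    (@En.n l16013 (nat_lit 7200) (nat_lit 6) (nat_lit 5))
    (@En.n l6759 (nat_lit 8944) (nat_lit 7) (nat_lit 6))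
    (@En.n l3806 (nat_lit 3612) (nat_lit 9) (nat_lit 12))
    (@En.n l16013 (nat_lit 7470) (nat_lit 10) (nat_lit 9))
    (@En.n l50 (nat_lit 7459) (nat_lit 10) (nat_lit 2))
    (@En.n l9771 (nat_lit 5881) (nat_lit 12) (nat_lit 11))
    (@En.n l9024 (nat_lit 3462) (nat_lit 13) (nat_lit 14))
    (@En.n l6606 (nat_lit 11033) (nat_lit 2) (nat_lit 10))
    (@En.n l31823 (nat_lit 8160) (nat_lit 13) (nat_lit 5))
    (@En.n l11 (nat_lit 7459) (nat_lit 15) (nat_lit 2))))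
  (@Cl.mk (nat_lit 0x200090006000c00070006000c00040007000e00040002000a0009000e000a) (nat_lit 0x503006009006331) (nat_lit 16) Lb.e (@T16.mk En
    (@En.n l21092 (nat_lit 5882) (nat_lit 12) (nat_lit 10))
    (@En.n l601 (nat_lit 3463) (nat_lit 13) (nat_lit 14))
    (@En.i (nat_lit 11032) (nat_lit 2) (nat_lit 9))
    (@En.i (nat_lit 6541) (nat_lit 3) (nat_lit 10))
    (@En.n l11 (nat_lit 7460) (nat_lit 4) (nat_lit 2))
    (@En.n l117 (nat_lit 6575) (nat_lit 5) (nat_lit 4))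
    (@En.n l24480 (nat_lit 4818) (nat_lit 7) (nat_lit 14))
    (@En.i (nat_lit 3976) (nat_lit 11) (nat_lit 7))
    (@En.n l2576 (nat_lit 6950) (nat_lit 8) (nat_lit 4))
    (@En.n l3213 (nat_lit 7464) (nat_lit 10) (nat_lit 12))
    (@En.n l77 (nat_lit 7197) (nat_lit 5) (nat_lit 6))
    (@En.n l4817 (nat_lit 8941) (nat_lit 6) (nat_lit 7))
    (@En.i (nat_lit 7459) (nat_lit 8) (nat_lit 12))
    (@En.n l5570 (nat_lit 7461) (nat_lit 14) (nat_lit 6))
    (@En.i (nat_lit 7471) (nat_lit 10) (nat_lit 9))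
    (@En.n l50 (nat_lit 7460) (nat_lit 15) (nat_lit 2))))
  (@Cl.mk (nat_lit 0x20006000c00060005000c0004000b000e00040002000a0005000a000e000b) (nat_lit 0x30090580060441) (nat_lit 16) Lb.e (@T16.mk En
    (@En.n l11 (nat_lit 5880) (nat_lit 11) (nat_lit 11))
    (@En.n l24755 (nat_lit 3464) (nat_lit 12) (nat_lit 14))
    (@En.n l9207 (nat_lit 5613) (nat_lit 2) (nat_lit 10))
    (@En.n l1732 (nat_lit 7459) (nat_lit 14) (nat_lit 5))
    (@En.n l2125 (nat_lit 5292) (nat_lit 4) (nat_lit 10))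
    (@En.n l17 (nat_lit 7461) (nat_lit 5) (nat_lit 2))
    (@En.n l24756 (nat_lit 6767) (nat_lit 6) (nat_lit 4))
    (@En.i (nat_lit 4817) (nat_lit 8) (nat_lit 14))
    (@En.n l1254 (nat_lit 3958) (nat_lit 9) (nat_lit 11))
    (@En.i (nat_lit 6949) (nat_lit 9) (nat_lit 4))
    (@En.n l9207 (nat_lit 7462) (nat_lit 11) (nat_lit 12))
    (@En.i (nat_lit 4808) (nat_lit 5) (nat_lit 5))
    (@En.n l78 (nat_lit 8942) (nat_lit 13) (nat_lit 6))
    (@En.n l3815 (nat_lit 3590) (nat_lit 8) (nat_lit 12))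
    (@En.n l810 (nat_lit 8098) (nat_lit 8) (nat_lit 6))
    (@En.n l28 (nat_lit 7461) (nat_lit 15) (nat_lit 2))))
  (@Cl.mk (nat_lit 0x20006000d0006000c0003000a000d0004000a0003000a0006000a000e0006) (nat_lit 0x50804606010460) (nat_lit 16) Lb.e (@T16.mk En
    (@En.n l17859 (nat_lit 9495) (nat_lit 5) (nat_lit 6))
    (@En.n l17860 (nat_lit 12672) (nat_lit 1) (nat_lit 14))
    (@En.i (nat_lit 8341) (nat_lit 2) (nat_lit 10))
    (@En.n l3 (nat_lit 7463) (nat_lit 3) (nat_lit 6))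
    (@En.n l17862 (nat_lit 4430) (nat_lit 4) (nat_lit 10))
    (@En.i (nat_lit 9898) (nat_lit 5) (nat_lit 3))
    (@En.n l5236 (nat_lit 11971) (nat_lit 0) (nat_lit 10))
    (@En.n l28 (nat_lit 9470) (nat_lit 7) (nat_lit 4))
    (@En.n l15291 (nat_lit 9029) (nat_lit 9) (nat_lit 13))
    (@En.n l2678 (nat_lit 8052) (nat_lit 10) (nat_lit 10))
    (@En.n l1732 (nat_lit 7466) (nat_lit 10) (nat_lit 3))
    (@En.n l6105 (nat_lit 7472) (nat_lit 12) (nat_lit 12))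
    (@En.i (nat_lit 7469) (nat_lit 13) (nat_lit 6))
    (@En.n l5236 (nat_lit 6597) (nat_lit 14) (nat_lit 13))
    (@En.n l17859 (nat_lit 10892) (nat_lit 13) (nat_lit 6))
    (@En.n l17 (nat_lit 7462) (nat_lit 15) (nat_lit 2))))
  (@Cl.mk (nat_lit 0x2000a000d0006000b0003000a0006000d0005000b00030006000a000e0005) (nat_lit 0x550405070700550) (nat_lit 16) Lb.e (@T16.mk En
    (@En.n l16954 (nat_lit 9490) (nat_lit 5) (nat_lit 5))
    (@En.n l810 (nat_lit 12670) (nat_lit 1) (nat_lit 14))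
    (@En.i (nat_lit 8091) (nat_lit 2) (nat_lit 10))
    (@En.n l23410 (nat_lit 11233) (nat_lit 12) (nat_lit 6))
    (@En.i (nat_lit 9899) (nat_lit 4) (nat_lit 3))
    (@En.n l5011 (nat_lit 11974) (nat_lit 0) (nat_lit 11))
    (@En.n l7742 (nat_lit 9467) (nat_lit 6) (nat_lit 5))
    (@En.n l1690 (nat_lit 7462) (nat_lit 8) (nat_lit 13))
    (@En.n l10862 (nat_lit 7464) (nat_lit 8) (nat_lit 6))
    (@En.n l2678 (nat_lit 8055) (nat_lit 10) (nat_lit 10))
    (@En.n l5012 (nat_lit 7465) (nat_lit 10) (nat_lit 3))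
    (@En.n l7457 (nat_lit 7473) (nat_lit 0) (nat_lit 11))
    (@En.n l5013 (nat_lit 7468) (nat_lit 13) (nat_lit 6))
    (@En.n l5011 (nat_lit 6956) (nat_lit 14) (nat_lit 13))
    (@En.n l38973 (nat_lit 9542) (nat_lit 10) (nat_lit 10))
    (@En.n l17 (nat_lit 7463) (nat_lit 15) (nat_lit 2))))
  (@Cl.mk (nat_lit 0x2000a0006000d0007000c00030006000d0004000b0003000a0009000e0005) (nat_lit 0x506050070604350) (nat_lit 16) Lb.e (@T16.mk En
    (@En.i (nat_lit 9496) (nat_lit 6) (nat_lit 5))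
    (@En.i (nat_lit 12671) (nat_lit 1) (nat_lit 14))
    (@En.n l8015 (nat_lit 8090) (nat_lit 2) (nat_lit 9))
    (@En.n l9591 (nat_lit 8922) (nat_lit 3) (nat_lit 10))
    (@En.i (nat_lit 9900) (nat_lit 4) (nat_lit 3))
    (@En.i (nat_lit 11979) (nat_lit 0) (nat_lit 11))
    (@En.i (nat_lit 9466) (nat_lit 6) (nat_lit 4))
    (@En.n l1690 (nat_lit 9027) (nat_lit 8) (nat_lit 13))
    (@En.i (nat_lit 6471) (nat_lit 12) (nat_lit 6))
    (@En.i (nat_lit 7467) (nat_lit 9) (nat_lit 3))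
    (@En.n l5588 (nat_lit 7474) (nat_lit 0) (nat_lit 12))
    (@En.i (nat_lit 9308) (nat_lit 12) (nat_lit 7))
    (@En.n l1578 (nat_lit 7463) (nat_lit 13) (nat_lit 13))
    (@En.n l2038 (nat_lit 7462) (nat_lit 14) (nat_lit 6))
    (@En.n l23295 (nat_lit 9541) (nat_lit 4) (nat_lit 10))
    (@En.n l17 (nat_lit 7464) (nat_lit 15) (nat_lit 2))))
  (@Cl.mk (nat_lit 0x2000a000d000a00070003000a0006000d0006000b000300060009000e0005) (nat_lit 0x5500050a0000250) (nat_lit 16) Lb.e (@T16.mk En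
    (@En.n l117 (nat_lit 9489) (nat_lit 5) (nat_lit 5))
    (@En.n l5381 (nat_lit 12676) (nat_lit 1) (nat_lit 14))
    (@En.n l2568 (nat_lit 901) (nat_lit 9) (nat_lit 9))
    (@En.n l253 (nat_lit 11232) (nat_lit 12) (nat_lit 6))
    (@En.n l2576 (nat_lit 9022) (nat_lit 4) (nat_lit 3))
    (@En.i (nat_lit 11972) (nat_lit 0) (nat_lit 11))
    (@En.n l4817 (nat_lit 9482) (nat_lit 6) (nat_lit 6))
    (@En.i (nat_lit 7466) (nat_lit 8) (nat_lit 13))
    (@En.n l14148 (nat_lit 7467) (nat_lit 8) (nat_lit 6))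
    (@En.i (nat_lit 7468) (nat_lit 10) (nat_lit 10))
    (@En.n l5572 (nat_lit 7463) (nat_lit 10) (nat_lit 3))
    (@En.n l1253 (nat_lit 1789) (nat_lit 0) (nat_lit 7))
    (@En.i (nat_lit 7471) (nat_lit 13) (nat_lit 10))
    (@En.i (nat_lit 6603) (nat_lit 5) (nat_lit 13))
    (@En.i (nat_lit 9544) (nat_lit 10) (nat_lit 10))
    (@En.n l11 (nat_lit 7465) (nat_lit 15) (nat_lit 2))))
  (@Cl.mk (nat_lit 0x20006000d000b00070003000a000d0005000a0003000a00060009000e0006) (nat_lit 0x50004900010360) (nat_lit 16) Lb.e (@T16.mk En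
    (@En.n l7608 (nat_lit 9492) (nat_lit 5) (nat_lit 6))
    (@En.n l5381 (nat_lit 12710) (nat_lit 1) (nat_lit 14))
    (@En.n l16013 (nat_lit 8349) (nat_lit 2) (nat_lit 9))
    (@En.n l17 (nat_lit 7465) (nat_lit 3) (nat_lit 6))
    (@En.i (nat_lit 4432) (nat_lit 4) (nat_lit 10))
    (@En.n l37472 (nat_lit 9020) (nat_lit 5) (nat_lit 3))
    (@En.i (nat_lit 11969) (nat_lit 0) (nat_lit 10))
    (@En.n l37473 (nat_lit 9796) (nat_lit 7) (nat_lit 5))
    (@En.n l4106 (nat_lit 9032) (nat_lit 9) (nat_lit 13))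
    (@En.n l19524 (nat_lit 7469) (nat_lit 10) (nat_lit 10))
    (@En.n l9771 (nat_lit 7462) (nat_lit 10) (nat_lit 3))
    (@En.n l37474 (nat_lit 1790) (nat_lit 12) (nat_lit 7))
    (@En.n l16013 (nat_lit 7470) (nat_lit 13) (nat_lit 11))
    (@En.i (nat_lit 6600) (nat_lit 14) (nat_lit 13))
    (@En.n l17796 (nat_lit 10891) (nat_lit 13) (nat_lit 6))
    (@En.n l11 (nat_lit 7466) (nat_lit 15) (nat_lit 2))))
  (@Cl.mk (nat_lit 0x2000a0006000d000b000800030006000d0005000b0003000a0008000e0005) (nat_lit 0x5060400a0000250) (nat_lit 16) Lb.e (@T16.mk En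
    (@En.n l16955 (nat_lit 9488) (nat_lit 6) (nat_lit 5))
    (@En.n l14731 (nat_lit 12714) (nat_lit 1) (nat_lit 14))
    (@En.n l14221 (nat_lit 900) (nat_lit 2) (nat_lit 8))
    (@En.n l1792 (nat_lit 8921) (nat_lit 3) (nat_lit 10))
    (@En.i (nat_lit 9018) (nat_lit 4) (nat_lit 3))
    (@En.n l28161 (nat_lit 11975) (nat_lit 0) (nat_lit 11))
    (@En.n l28 (nat_lit 9483) (nat_lit 6) (nat_lit 5))
    (@En.n l1690 (nat_lit 9026) (nat_lit 8) (nat_lit 13))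
    (@En.i (nat_lit 9307) (nat_lit 8) (nat_lit 6))
    (@En.n l28 (nat_lit 7464) (nat_lit 9) (nat_lit 3))
    (@En.n l21760 (nat_lit 1788) (nat_lit 0) (nat_lit 8))
    (@En.i (nat_lit 9460) (nat_lit 12) (nat_lit 11))
    (@En.n l5013 (nat_lit 7465) (nat_lit 13) (nat_lit 13))
    (@En.n l29861 (nat_lit 7466) (nat_lit 14) (nat_lit 6))
    (@En.n l1236 (nat_lit 9543) (nat_lit 4) (nat_lit 10))
    (@En.n l17 (nat_lit 7467) (nat_lit 15) (nat_lit 2))))
  (@Cl.mk (nat_lit 0x2000b0006000b0007000a0005000d0005000a00030006000a0009000e0006) (nat_lit 0x600040900001360) (nat_lit 16) Lb.e (@T16.mk En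
    (@En.n l117 (nat_lit 9491) (nat_lit 11) (nat_lit 6))
    (@En.n l35983 (nat_lit 11173) (nat_lit 1) (nat_lit 14))
    (@En.n l50 (nat_lit 7465) (nat_lit 2) (nat_lit 9))
    (@En.n l35984 (nat_lit 7467) (nat_lit 3) (nat_lit 10))
    (@En.n l35983 (nat_lit 11231) (nat_lit 12) (nat_lit 6))
    (@En.n l35985 (nat_lit 9025) (nat_lit 5) (nat_lit 3))
    (@En.i (nat_lit 11973) (nat_lit 0) (nat_lit 10))
    (@En.n l4817 (nat_lit 9484) (nat_lit 7) (nat_lit 5))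
    (@En.n l19524 (nat_lit 7469) (nat_lit 9) (nat_lit 13))
    (@En.n l35986 (nat_lit 9308) (nat_lit 9) (nat_lit 5))
    (@En.n l10436 (nat_lit 12518) (nat_lit 11) (nat_lit 10))
    (@En.n l35987 (nat_lit 1724) (nat_lit 12) (nat_lit 7))
    (@En.n l35988 (nat_lit 9449) (nat_lit 13) (nat_lit 11))
    (@En.n l5 (nat_lit 11010) (nat_lit 14) (nat_lit 6))
    (@En.i (nat_lit 8832) (nat_lit 9) (nat_lit 11))
    (@En.n l11 (nat_lit 7468) (nat_lit 15) (nat_lit 2))))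
  (@Cl.mk (nat_lit 0x200070006000c0007000a000d00040009000300090006000a0009000e0007) (nat_lit 0x38000200470) (nat_lit 16) Lb.e (@T16.mk En
    (@En.n l2947 (nat_lit 9494) (nat_lit 7) (nat_lit 7))
    (@En.n l3548 (nat_lit 11174) (nat_lit 1) (nat_lit 14))
    (@En.n l5236 (nat_lit 7466) (nat_lit 2) (nat_lit 9))
    (@En.i (nat_lit 9026) (nat_lit 3) (nat_lit 10))
    (@En.n l11105 (nat_lit 7468) (nat_lit 4) (nat_lit 6))
    (@En.n l1328 (nat_lit 6352) (nat_lit 5) (nat_lit 9))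
    (@En.n l21697 (nat_lit 9907) (nat_lit 6) (nat_lit 3))
    (@En.n l16743 (nat_lit 11970) (nat_lit 0) (nat_lit 9))
    (@En.n l21698 (nat_lit 9797) (nat_lit 8) (nat_lit 4))
    (@En.n l15291 (nat_lit 8172) (nat_lit 10) (nat_lit 13))
    (@En.n l21699 (nat_lit 12516) (nat_lit 11) (nat_lit 10))
    (@En.n l8429 (nat_lit 1487) (nat_lit 12) (nat_lit 7))
    (@En.n l21700 (nat_lit 9451) (nat_lit 13) (nat_lit 12))
    (@En.n l21701 (nat_lit 11009) (nat_lit 14) (nat_lit 6))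
    (@En.n l2947 (nat_lit 10893) (nat_lit 7) (nat_lit 7))
    (@En.n l17 (nat_lit 7469) (nat_lit 15) (nat_lit 2))))
  (@Cl.mk (nat_lit 0x20006000b0006000c0009000c00050004000a0004000a0007000a000e0006) (nat_lit 0x90833000060360) (nat_lit 16) Lb.e (@T16.mk En
    (@En.n l17859 (nat_lit 9457) (nat_lit 8) (nat_lit 6))
    (@En.n l17860 (nat_lit 9062) (nat_lit 1) (nat_lit 14))
    (@En.i (nat_lit 8322) (nat_lit 2) (nat_lit 10))
    (@En.n l3706 (nat_lit 7471) (nat_lit 3) (nat_lit 7))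
    (@En.n l42631 (nat_lit 6340) (nat_lit 4) (nat_lit 10))
    (@En.n l16454 (nat_lit 9363) (nat_lit 5) (nat_lit 4))
    (@En.n l42632 (nat_lit 9542) (nat_lit 7) (nat_lit 10))
    (@En.i (nat_lit 7462) (nat_lit 7) (nat_lit 4))
    (@En.n l42633 (nat_lit 9297) (nat_lit 8) (nat_lit 5))
    (@En.n l42634 (nat_lit 9030) (nat_lit 10) (nat_lit 12))
    (@En.n l42635 (nat_lit 9451) (nat_lit 11) (nat_lit 9))
    (@En.n l42636 (nat_lit 7246) (nat_lit 12) (nat_lit 12))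
    (@En.n l19251 (nat_lit 8992) (nat_lit 13) (nat_lit 6))
    (@En.n l10676 (nat_lit 9445) (nat_lit 14) (nat_lit 11))
    (@En.n l17859 (nat_lit 11105) (nat_lit 13) (nat_lit 6))
    (@En.n l17 (nat_lit 7470) (nat_lit 15) (nat_lit 2))))
  (@Cl.mk (nat_lit 0x2000b000a0006000b00090005000c00060005000b00040007000a000e0005) (nat_lit 0x7808404000002a0) (nat_lit 16) Lb.e (@T16.mk En
    (@En.n l117 (nat_lit 9458) (nat_lit 15) (nat_lit 5))
    (@En.n l16779 (nat_lit 9063) (nat_lit 1) (nat_lit 14))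
    (@En.n l24480 (nat_lit 8200) (nat_lit 8) (nat_lit 10))
    (@En.n l13144 (nat_lit 6871) (nat_lit 11) (nat_lit 7))
    (@En.n l39544 (nat_lit 9365) (nat_lit 4) (nat_lit 4))
    (@En.n l16779 (nat_lit 9541) (nat_lit 0) (nat_lit 11))
    (@En.n l24480 (nat_lit 7463) (nat_lit 6) (nat_lit 5))
    (@En.n l4817 (nat_lit 9295) (nat_lit 7) (nat_lit 6))
    (@En.n l16013 (nat_lit 7470) (nat_lit 9) (nat_lit 12))
    (@En.n l14148 (nat_lit 9460) (nat_lit 9) (nat_lit 5))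
    (@En.n l35988 (nat_lit 9449) (nat_lit 11) (nat_lit 9))
    (@En.n l30221 (nat_lit 7477) (nat_lit 12) (nat_lit 11))
    (@En.n l1013 (nat_lit 8993) (nat_lit 13) (nat_lit 6))
    (@En.i (nat_lit 9437) (nat_lit 14) (nat_lit 10))
    (@En.i (nat_lit 9940) (nat_lit 10) (nat_lit 11))
    (@En.n l11 (nat_lit 7471) (nat_lit 15) (nat_lit 2))))
noncomputable def a467 : T16 Cl := @T16.mk Cl
  (@Cl.mk (nat_lit 0x20006000e000c00020009000c0004000b000a0004000a00070005000e0006) (nat_lit 0x17035095010010) (nat_lit 16) Lb.e (@T16.mk En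
    (@En.n l9902 (nat_lit 5856) (nat_lit 4) (nat_lit 6))
    (@En.n l601 (nat_lit 5978) (nat_lit 1) (nat_lit 14))
    (@En.n l7407 (nat_lit 7369) (nat_lit 2) (nat_lit 5))
    (@En.n l61 (nat_lit 7473) (nat_lit 7) (nat_lit 7))
    (@En.n l7461 (nat_lit 2665) (nat_lit 4) (nat_lit 10))
    (@En.i (nat_lit 5791) (nat_lit 5) (nat_lit 4))
    (@En.n l77 (nat_lit 4859) (nat_lit 11) (nat_lit 10))
    (@En.n l7490 (nat_lit 11370) (nat_lit 8) (nat_lit 11))
    (@En.n l7461 (nat_lit 7245) (nat_lit 8) (nat_lit 4))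
    (@En.n l5570 (nat_lit 5839) (nat_lit 6) (nat_lit 12))
    (@En.i (nat_lit 6548) (nat_lit 11) (nat_lit 9))
    (@En.n l3 (nat_lit 7472) (nat_lit 11) (nat_lit 2))
    (@En.i (nat_lit 7246) (nat_lit 13) (nat_lit 12))
    (@En.i (nat_lit 1636) (nat_lit 1) (nat_lit 14))
    (@En.n l14148 (nat_lit 11211) (nat_lit 2) (nat_lit 6))
    (@En.n l50 (nat_lit 7472) (nat_lit 15) (nat_lit 2))))
  (@Cl.mk (nat_lit 0x200090005000c0005000c000b000400070004000e00050002000b000e000b) (nat_lit 0x4060a6000100913) (nat_lit 16) Lb.e (@T16.mk En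
    (@En.n l17 (nat_lit 7477) (nat_lit 13) (nat_lit 11))
    (@En.i (nat_lit 1637) (nat_lit 4) (nat_lit 14))
    (@En.i (nat_lit 12080) (nat_lit 2) (nat_lit 11))
    (@En.n l50 (nat_lit 7473) (nat_lit 3) (nat_lit 2))
    (@En.n l9902 (nat_lit 7475) (nat_lit 4) (nat_lit 5))
    (@En.n l601 (nat_lit 5982) (nat_lit 1) (nat_lit 14))
    (@En.i (nat_lit 8710) (nat_lit 6) (nat_lit 4))
    (@En.n l2644 (nat_lit 4772) (nat_lit 11) (nat_lit 7))
    (@En.i (nat_lit 11320) (nat_lit 8) (nat_lit 4))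
    (@En.n l77 (nat_lit 4856) (nat_lit 10) (nat_lit 11))
    (@En.n l6606 (nat_lit 11375) (nat_lit 11) (nat_lit 12))
    (@En.n l2644 (nat_lit 7125) (nat_lit 7) (nat_lit 5))
    (@En.n l617 (nat_lit 7472) (nat_lit 9) (nat_lit 12))
    (@En.n l17 (nat_lit 7474) (nat_lit 14) (nat_lit 5))
    (@En.i (nat_lit 6547) (nat_lit 11) (nat_lit 9))
    (@En.n l3 (nat_lit 7473) (nat_lit 15) (nat_lit 2))))
  (@Cl.mk (nat_lit 0x20005000c0004000c000b0004000a0004000e00050002000b0006000e000c) (nat_lit 0xa0a60301009024) (nat_lit 16) Lb.e (@T16.mk En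
    (@En.i (nat_lit 7131) (nat_lit 12) (nat_lit 12))
    (@En.i (nat_lit 7473) (nat_lit 1) (nat_lit 14))
    (@En.i (nat_lit 7472) (nat_lit 14) (nat_lit 6))
    (@En.i (nat_lit 12079) (nat_lit 3) (nat_lit 11))
    (@En.n l50 (nat_lit 7474) (nat_lit 4) (nat_lit 2))
    (@En.n l9902 (nat_lit 7476) (nat_lit 5) (nat_lit 5))
    (@En.n l601 (nat_lit 5984) (nat_lit 7) (nat_lit 14))
    (@En.i (nat_lit 8706) (nat_lit 7) (nat_lit 4))
    (@En.i (nat_lit 3640) (nat_lit 9) (nat_lit 10))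
    (@En.i (nat_lit 11319) (nat_lit 9) (nat_lit 4))
    (@En.n l77 (nat_lit 4754) (nat_lit 11) (nat_lit 11))
    (@En.i (nat_lit 8106) (nat_lit 12) (nat_lit 12))
    (@En.n l117 (nat_lit 7123) (nat_lit 7) (nat_lit 4))
    (@En.n l617 (nat_lit 5837) (nat_lit 9) (nat_lit 12))
    (@En.i (nat_lit 5598) (nat_lit 9) (nat_lit 5))
    (@En.n l3 (nat_lit 7474) (nat_lit 15) (nat_lit 2))))
  (@Cl.mk (nat_lit 0x200080005000b0005000b000b000b00050008000500050005000b000e000b) (nat_lit 0x403080704000967) (nat_lit 16) Lb.e (@T16.mk En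
    (@En.n l17023 (nat_lit 6672) (nat_lit 2) (nat_lit 11))
    (@En.n l11045 (nat_lit 1644) (nat_lit 4) (nat_lit 14))
    (@En.n l7272 (nat_lit 12083) (nat_lit 2) (nat_lit 11))
    (@En.n l134 (nat_lit 7669) (nat_lit 11) (nat_lit 5))
    (@En.n l55 (nat_lit 7479) (nat_lit 4) (nat_lit 5))
    (@En.n l7270 (nat_lit 8707) (nat_lit 5) (nat_lit 5))
    (@En.n l11042 (nat_lit 3031) (nat_lit 10) (nat_lit 8))
    (@En.n l30603 (nat_lit 8196) (nat_lit 7) (nat_lit 5))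
    (@En.n l1415 (nat_lit 7473) (nat_lit 9) (nat_lit 11))
    (@En.n l11087 (nat_lit 8187) (nat_lit 5) (nat_lit 11))
    (@En.n l7272 (nat_lit 10753) (nat_lit 11) (nat_lit 11))
    (@En.n l7270 (nat_lit 5313) (nat_lit 12) (nat_lit 5))
    (@En.n l617 (nat_lit 5856) (nat_lit 13) (nat_lit 11))
    (@En.n l17 (nat_lit 7476) (nat_lit 14) (nat_lit 5))
    (@En.i (nat_lit 5170) (nat_lit 2) (nat_lit 8))
    (@En.n l3 (nat_lit 7475) (nat_lit 15) (nat_lit 2))))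
  (@Cl.mk (nat_lit 0x20005000b0004000b000b000b0005000b000500050005000b0005000e000c) (nat_lit 0x30807040004072) (nat_lit 16) Lb.e (@T16.mk En
    (@En.n l13657 (nat_lit 6877) (nat_lit 3) (nat_lit 12))
    (@En.i (nat_lit 7475) (nat_lit 1) (nat_lit 14))
    (@En.i (nat_lit 5856) (nat_lit 2) (nat_lit 5))
    (@En.n l7084 (nat_lit 12084) (nat_lit 3) (nat_lit 11))
    (@En.n l134 (nat_lit 7670) (nat_lit 4) (nat_lit 5))
    (@En.n l55 (nat_lit 7478) (nat_lit 5) (nat_lit 5))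
    (@En.n l11084 (nat_lit 8705) (nat_lit 6) (nat_lit 5))
    (@En.n l11620 (nat_lit 3585) (nat_lit 8) (nat_lit 11))
    (@En.n l8632 (nat_lit 8198) (nat_lit 8) (nat_lit 5))
    (@En.n l1415 (nat_lit 7474) (nat_lit 10) (nat_lit 11))
    (@En.n l11087 (nat_lit 8186) (nat_lit 11) (nat_lit 11))
    (@En.i (nat_lit 7663) (nat_lit 12) (nat_lit 11))
    (@En.n l11621 (nat_lit 7122) (nat_lit 13) (nat_lit 4))
    (@En.n l617 (nat_lit 4137) (nat_lit 14) (nat_lit 11))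
    (@En.i (nat_lit 5603) (nat_lit 13) (nat_lit 5))
    (@En.n l3 (nat_lit 7476) (nat_lit 15) (nat_lit 2))))
  (@Cl.mk (nat_lit 0x2000c000b000b00080004000b00050005000c000b000500080004000e0005) (nat_lit 0xa2730900a101090) (nat_lit 16) Lb.e (@T16.mk En
    (@En.n l33975 (nat_lit 6672) (nat_lit 5) (nat_lit 5))
    (@En.n l33976 (nat_lit 7887) (nat_lit 1) (nat_lit 14))
    (@En.n l7492 (nat_lit 8732) (nat_lit 2) (nat_lit 4))
    (@En.n l19428 (nat_lit 1164) (nat_lit 10) (nat_lit 8))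
    (@En.n l33792 (nat_lit 7942) (nat_lit 4) (nat_lit 5))
    (@En.n l77 (nat_lit 3536) (nat_lit 5) (nat_lit 11))
    (@En.n l19430 (nat_lit 9449) (nat_lit 7) (nat_lit 12))
    (@En.n l9272 (nat_lit 7473) (nat_lit 11) (nat_lit 5))
    (@En.n l3851 (nat_lit 7247) (nat_lit 8) (nat_lit 5))
    (@En.n l2196 (nat_lit 7246) (nat_lit 10) (nat_lit 11))
    (@En.i (nat_lit 7131) (nat_lit 10) (nat_lit 4))
    (@En.n l33977 (nat_lit 4470) (nat_lit 12) (nat_lit 8))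
    (@En.n l9279 (nat_lit 7935) (nat_lit 5) (nat_lit 11))
    (@En.n l3518 (nat_lit 7132) (nat_lit 14) (nat_lit 11))
    (@En.n l18 (nat_lit 11088) (nat_lit 3) (nat_lit 12))
    (@En.n l50 (nat_lit 7477) (nat_lit 15) (nat_lit 2))))
  (@Cl.mk (nat_lit 0x20005000a0004000e000b0002000c0006000c00050004000b0004000e000c) (nat_lit 0x20b90704003046) (nat_lit 16) Lb.e (@T16.mk En
    (@En.i (nat_lit 7484) (nat_lit 7) (nat_lit 12))
    (@En.i (nat_lit 7479) (nat_lit 1) (nat_lit 14))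
    (@En.i (nat_lit 7480) (nat_lit 2) (nat_lit 4))
    (@En.i (nat_lit 12563) (nat_lit 3) (nat_lit 11))
    (@En.i (nat_lit 5992) (nat_lit 4) (nat_lit 4))
    (@En.i (nat_lit 7483) (nat_lit 5) (nat_lit 5))
    (@En.n l644 (nat_lit 4017) (nat_lit 7) (nat_lit 12))
    (@En.n l564 (nat_lit 8553) (nat_lit 7) (nat_lit 6))
    (@En.n l7 (nat_lit 5980) (nat_lit 9) (nat_lit 12))
    (@En.n l28 (nat_lit 7478) (nat_lit 9) (nat_lit 2))
    (@En.i (nat_lit 7476) (nat_lit 11) (nat_lit 11))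
    (@En.i (nat_lit 9322) (nat_lit 12) (nat_lit 14))
    (@En.n l117 (nat_lit 7911) (nat_lit 2) (nat_lit 4))
    (@En.n l617 (nat_lit 4665) (nat_lit 14) (nat_lit 10))
    (@En.i (nat_lit 7990) (nat_lit 4) (nat_lit 5))
    (@En.n l3 (nat_lit 7478) (nat_lit 15) (nat_lit 2))))
  (@Cl.mk (nat_lit 0x200070005000a0005000e000b0002000c0006000900050004000b000e000b) (nat_lit 0x3089080400234) (nat_lit 16) Lb.e (@T16.mk En
    (@En.n l17 (nat_lit 7481) (nat_lit 8) (nat_lit 11))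
    (@En.i (nat_lit 4635) (nat_lit 4) (nat_lit 14))
    (@En.i (nat_lit 12561) (nat_lit 2) (nat_lit 11))
    (@En.i (nat_lit 5991) (nat_lit 3) (nat_lit 4))
    (@En.n l7270 (nat_lit 7482) (nat_lit 4) (nat_lit 5))
    (@En.n l644 (nat_lit 4770) (nat_lit 9) (nat_lit 9))
    (@En.n l1363 (nat_lit 8555) (nat_lit 14) (nat_lit 6))
    (@En.n l7 (nat_lit 5979) (nat_lit 8) (nat_lit 12))
    (@En.n l28 (nat_lit 7479) (nat_lit 8) (nat_lit 2))
    (@En.i (nat_lit 7475) (nat_lit 10) (nat_lit 11))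
    (@En.i (nat_lit 9323) (nat_lit 11) (nat_lit 14))
    (@En.n l117 (nat_lit 7162) (nat_lit 2) (nat_lit 5))
    (@En.n l617 (nat_lit 7480) (nat_lit 13) (nat_lit 10))
    (@En.n l17 (nat_lit 7478) (nat_lit 14) (nat_lit 5))
    (@En.i (nat_lit 6585) (nat_lit 5) (nat_lit 7))
    (@En.n l3 (nat_lit 7479) (nat_lit 15) (nat_lit 2))))
  (@Cl.mk (nat_lit 0x20007000a0004000e000a0002000b0006000c0009000600050004000e000c) (nat_lit 0x20710705500095) (nat_lit 16) Lb.e (@T16.mk En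
    (@En.i (nat_lit 7485) (nat_lit 7) (nat_lit 12))
    (@En.i (nat_lit 4633) (nat_lit 1) (nat_lit 14))
    (@En.n l18 (nat_lit 11221) (nat_lit 2) (nat_lit 4))
    (@En.i (nat_lit 5989) (nat_lit 3) (nat_lit 5))
    (@En.n l15827 (nat_lit 10232) (nat_lit 4) (nat_lit 6))
    (@En.n l61 (nat_lit 7479) (nat_lit 5) (nat_lit 9))
    (@En.n l15827 (nat_lit 4085) (nat_lit 7) (nat_lit 12))
    (@En.n l564 (nat_lit 8556) (nat_lit 14) (nat_lit 6))
    (@En.n l12438 (nat_lit 5976) (nat_lit 9) (nat_lit 11))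
    (@En.n l28 (nat_lit 7480) (nat_lit 9) (nat_lit 2))
    (@En.i (nat_lit 5856) (nat_lit 11) (nat_lit 10))
    (@En.i (nat_lit 9321) (nat_lit 12) (nat_lit 14))
    (@En.n l117 (nat_lit 7813) (nat_lit 2) (nat_lit 4))
    (@En.n l617 (nat_lit 4662) (nat_lit 8) (nat_lit 10))
    (@En.i (nat_lit 6586) (nat_lit 4) (nat_lit 7))
    (@En.n l3 (nat_lit 7480) (nat_lit 15) (nat_lit 2))))
  (@Cl.mk (nat_lit 0x2000c0007000a00050004000c000b000b00060004000900050005000e000b) (nat_lit 0x10500a360060049) (nat_lit 16) Lb.e (@T16.mk En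
    (@En.n l15718 (nat_lit 6672) (nat_lit 11) (nat_lit 11))
    (@En.n l899 (nat_lit 9354) (nat_lit 1) (nat_lit 14))
    (@En.n l9272 (nat_lit 7479) (nat_lit 11) (nat_lit 5))
    (@En.n l3851 (nat_lit 7917) (nat_lit 3) (nat_lit 5))
    (@En.n l2196 (nat_lit 7485) (nat_lit 4) (nat_lit 9))
    (@En.i (nat_lit 7484) (nat_lit 5) (nat_lit 4))
    (@En.n l61 (nat_lit 4357) (nat_lit 6) (nat_lit 6))
    (@En.n l15719 (nat_lit 7921) (nat_lit 8) (nat_lit 11))
    (@En.n l15720 (nat_lit 7909) (nat_lit 9) (nat_lit 11))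
    (@En.n l15721 (nat_lit 12524) (nat_lit 10) (nat_lit 12))
    (@En.i (nat_lit 6000) (nat_lit 10) (nat_lit 4))
    (@En.n l15718 (nat_lit 8504) (nat_lit 0) (nat_lit 5))
    (@En.n l15722 (nat_lit 2642) (nat_lit 8) (nat_lit 10))
    (@En.n l15723 (nat_lit 8296) (nat_lit 14) (nat_lit 7))
    (@En.n l15724 (nat_lit 5985) (nat_lit 2) (nat_lit 12))
    (@En.n l28 (nat_lit 7481) (nat_lit 15) (nat_lit 2))))
  (@Cl.mk (nat_lit 0x2000a000500090005000d000b00060003000d000700050003000b000e000b) (nat_lit 0x7040300060005b4) (nat_lit 16) Lb.e (@T16.mk En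
    (@En.n l68 (nat_lit 8504) (nat_lit 13) (nat_lit 11))
    (@En.n l3866 (nat_lit 7835) (nat_lit 4) (nat_lit 14))
    (@En.i (nat_lit 12290) (nat_lit 2) (nat_lit 11))
    (@En.n l18 (nat_lit 10972) (nat_lit 3) (nat_lit 3))
    (@En.n l3451 (nat_lit 7473) (nat_lit 4) (nat_lit 5))
    (@En.n l61 (nat_lit 10973) (nat_lit 5) (nat_lit 7))
    (@En.n l25241 (nat_lit 12468) (nat_lit 7) (nat_lit 13))
    (@En.n l7 (nat_lit 8711) (nat_lit 7) (nat_lit 3))
    (@En.n l3503 (nat_lit 2120) (nat_lit 8) (nat_lit 6))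
    (@En.i (nat_lit 8707) (nat_lit 10) (nat_lit 11))
    (@En.n l645 (nat_lit 12204) (nat_lit 11) (nat_lit 13))
    (@En.i (nat_lit 9084) (nat_lit 7) (nat_lit 5))
    (@En.i (nat_lit 10232) (nat_lit 13) (nat_lit 9))
    (@En.n l9382 (nat_lit 7483) (nat_lit 14) (nat_lit 5))
    (@En.n l9380 (nat_lit 10959) (nat_lit 11) (nat_lit 10))
    (@En.n l67 (nat_lit 7482) (nat_lit 15) (nat_lit 2))))
  (@Cl.mk (nat_lit 0x2000500090004000d000b00090003000d000700050003000b0007000e000c) (nat_lit 0x309000600060c5) (nat_lit 16) Lb.e (@T16.mk En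
    (@En.n l17023 (nat_lit 8695) (nat_lit 12) (nat_lit 12))
    (@En.n l7270 (nat_lit 7482) (nat_lit 1) (nat_lit 14))
    (@En.i (nat_lit 9157) (nat_lit 2) (nat_lit 7))
    (@En.n l7081 (nat_lit 12293) (nat_lit 3) (nat_lit 11))
    (@En.i (nat_lit 10976) (nat_lit 4) (nat_lit 3))
    (@En.n l7081 (nat_lit 7474) (nat_lit 5) (nat_lit 5))
    (@En.n l564 (nat_lit 10975) (nat_lit 6) (nat_lit 7))
    (@En.n l1415 (nat_lit 12465) (nat_lit 8) (nat_lit 13))
    (@En.n l7081 (nat_lit 8709) (nat_lit 8) (nat_lit 3))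
    (@En.i (nat_lit 11221) (nat_lit 10) (nat_lit 9))
    (@En.n l11084 (nat_lit 8705) (nat_lit 11) (nat_lit 11))
    (@En.i (nat_lit 10985) (nat_lit 12) (nat_lit 13))
    (@En.n l117 (nat_lit 9092) (nat_lit 13) (nat_lit 4))
    (@En.n l617 (nat_lit 7109) (nat_lit 14) (nat_lit 9))
    (@En.i (nat_lit 4172) (nat_lit 13) (nat_lit 5))
    (@En.n l3 (nat_lit 7483) (nat_lit 15) (nat_lit 2))))
  (@Cl.mk (nat_lit 0x2000c0007000c00050004000c0004000c000c0004000900040004000e000b) (nat_lit 0x40400a050070069) (nat_lit 16) Lb.e (@T16.mk En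
    (@En.n l13657 (nat_lit 6877) (nat_lit 13) (nat_lit 11))
    (@En.n l899 (nat_lit 9352) (nat_lit 1) (nat_lit 14))
    (@En.n l152 (nat_lit 7478) (nat_lit 12) (nat_lit 4))
    (@En.n l3851 (nat_lit 7913) (nat_lit 3) (nat_lit 4))
    (@En.n l617 (nat_lit 4664) (nat_lit 4) (nat_lit 9))
    (@En.i (nat_lit 7908) (nat_lit 5) (nat_lit 4))
    (@En.n l27788 (nat_lit 7922) (nat_lit 7) (nat_lit 12))
    (@En.n l17023 (nat_lit 7907) (nat_lit 8) (nat_lit 12))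
    (@En.i (nat_lit 7485) (nat_lit 8) (nat_lit 4))
    (@En.i (nat_lit 12266) (nat_lit 10) (nat_lit 12))
    (@En.i (nat_lit 4069) (nat_lit 10) (nat_lit 4))
    (@En.n l17023 (nat_lit 8695) (nat_lit 0) (nat_lit 5))
    (@En.n l9135 (nat_lit 3816) (nat_lit 13) (nat_lit 12))
    (@En.i (nat_lit 8559) (nat_lit 14) (nat_lit 7))
    (@En.n l7 (nat_lit 7875) (nat_lit 2) (nat_lit 12))
    (@En.n l28 (nat_lit 7484) (nat_lit 15) (nat_lit 2))))
  (@Cl.mk (nat_lit 0x2000b0007000c000a000600050004000c000c0006000900040004000e000a) (nat_lit 0x102600047050038) (nat_lit 16) Lb.e (@T16.mk En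
    (@En.n l13657 (nat_lit 6883) (nat_lit 13) (nat_lit 10))
    (@En.n l17133 (nat_lit 9357) (nat_lit 1) (nat_lit 14))
    (@En.n l152 (nat_lit 7480) (nat_lit 12) (nat_lit 4))
    (@En.n l30339 (nat_lit 7815) (nat_lit 3) (nat_lit 4))
    (@En.n l617 (nat_lit 4661) (nat_lit 9) (nat_lit 9))
    (@En.i (nat_lit 4358) (nat_lit 5) (nat_lit 6))
    (@En.n l13561 (nat_lit 7920) (nat_lit 7) (nat_lit 12))
    (@En.n l30340 (nat_lit 7910) (nat_lit 8) (nat_lit 12))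
    (@En.n l2514 (nat_lit 7927) (nat_lit 8) (nat_lit 4))
    (@En.i (nat_lit 5999) (nat_lit 9) (nat_lit 5))
    (@En.n l24726 (nat_lit 10231) (nat_lit 11) (nat_lit 6))
    (@En.i (nat_lit 7481) (nat_lit 12) (nat_lit 10))
    (@En.n l2213 (nat_lit 2683) (nat_lit 13) (nat_lit 12))
    (@En.n l30109 (nat_lit 8292) (nat_lit 14) (nat_lit 7))
    (@En.n l7 (nat_lit 5986) (nat_lit 11) (nat_lit 11))
    (@En.n l28 (nat_lit 7485) (nat_lit 15) (nat_lit 2))))
  (@Cl.mk (nat_lit 0x20006000a0007000a00080007000e000600020006000a00090008000e0009) (nat_lit 0x60760b00047641) (nat_lit 16) Lb.e (@T16.mk En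
    (@En.n l3279 (nat_lit 5253) (nat_lit 10) (nat_lit 9))
    (@En.n l2051 (nat_lit 5206) (nat_lit 11) (nat_lit 14))
    (@En.n l24892 (nat_lit 10785) (nat_lit 2) (nat_lit 8))
    (@En.n l24893 (nat_lit 7442) (nat_lit 13) (nat_lit 9))
    (@En.n l15832 (nat_lit 8104) (nat_lit 4) (nat_lit 10))
    (@En.n l24894 (nat_lit 2604) (nat_lit 5) (nat_lit 6))
    (@En.n l50 (nat_lit 7486) (nat_lit 6) (nat_lit 2))
    (@En.n l10003 (nat_lit 7439) (nat_lit 7) (nat_lit 6))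
    (@En.n l5580 (nat_lit 9265) (nat_lit 9) (nat_lit 14))
    (@En.i (nat_lit 3530) (nat_lit 2) (nat_lit 7))
    (@En.n l5580 (nat_lit 11365) (nat_lit 11) (nat_lit 8))
    (@En.n l24895 (nat_lit 4822) (nat_lit 12) (nat_lit 10))
    (@En.n l24896 (nat_lit 5373) (nat_lit 5) (nat_lit 7))
    (@En.i (nat_lit 6572) (nat_lit 14) (nat_lit 10))
    (@En.n l2228 (nat_lit 10864) (nat_lit 7) (nat_lit 6))
    (@En.n l11 (nat_lit 7486) (nat_lit 15) (nat_lit 2))))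
  (@Cl.mk (nat_lit 0x20007000a000800080008000d0008000600030009000800080008000e0008) (nat_lit 0x45627500750256) (nat_lit 16) Lb.e (@T16.mk En
    (@En.n l12122 (nat_lit 7440) (nat_lit 10) (nat_lit 8))
    (@En.n l5577 (nat_lit 11510) (nat_lit 1) (nat_lit 14))
    (@En.n l19827 (nat_lit 7442) (nat_lit 2) (nat_lit 8))
    (@En.n l34359 (nat_lit 7699) (nat_lit 3) (nat_lit 8))
    (@En.n l13507 (nat_lit 7947) (nat_lit 4) (nat_lit 8))
    (@En.n l34360 (nat_lit 5253) (nat_lit 5) (nat_lit 9))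
    (@En.n l30587 (nat_lit 7488) (nat_lit 6) (nat_lit 3))
    (@En.i (nat_lit 5259) (nat_lit 7) (nat_lit 6))
    (@En.n l20804 (nat_lit 7493) (nat_lit 9) (nat_lit 8))
    (@En.n l34361 (nat_lit 12092) (nat_lit 10) (nat_lit 13))
    (@En.n l20805 (nat_lit 7717) (nat_lit 11) (nat_lit 8))
    (@En.n l152 (nat_lit 7490) (nat_lit 12) (nat_lit 8))
    (@En.n l8118 (nat_lit 11354) (nat_lit 13) (nat_lit 8))
    (@En.i (nat_lit 5697) (nat_lit 8) (nat_lit 10))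
    (@En.n l34362 (nat_lit 2505) (nat_lit 7) (nat_lit 7))
    (@En.n l28 (nat_lit 7487) (nat_lit 15) (nat_lit 2))))
noncomputable def a468 : T16 Cl := @T16.mk Cl
  (@Cl.mk (nat_lit 0x20007000b000800080008000d0005000900030009000800080008000e0007) (nat_lit 0x75626010750570) (nat_lit 16) Lb.e (@T16.mk En
    (@En.n l19385 (nat_lit 7710) (nat_lit 10) (nat_lit 7))
    (@En.n l19386 (nat_lit 11512) (nat_lit 1) (nat_lit 14))
    (@En.n l19387 (nat_lit 7451) (nat_lit 2) (nat_lit 8))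
    (@En.n l644 (nat_lit 7700) (nat_lit 3) (nat_lit 8))
    (@En.i (nat_lit 9931) (nat_lit 4) (nat_lit 8))
    (@En.n l19388 (nat_lit 5709) (nat_lit 5) (nat_lit 9))
    (@En.n l19389 (nat_lit 7487) (nat_lit 6) (nat_lit 3))
    (@En.i (nat_lit 5910) (nat_lit 0) (nat_lit 9))
    (@En.n l8668 (nat_lit 5253) (nat_lit 8) (nat_lit 5))
    (@En.n l19390 (nat_lit 10355) (nat_lit 10) (nat_lit 13))
    (@En.n l19391 (nat_lit 7713) (nat_lit 11) (nat_lit 8))
    (@En.n l19392 (nat_lit 7491) (nat_lit 12) (nat_lit 8))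
    (@En.n l19393 (nat_lit 11353) (nat_lit 13) (nat_lit 8))
    (@En.n l19394 (nat_lit 6468) (nat_lit 14) (nat_lit 11))
    (@En.n l19395 (nat_lit 2503) (nat_lit 7) (nat_lit 7))
    (@En.n l11 (nat_lit 7488) (nat_lit 15) (nat_lit 2))))
  (@Cl.mk (nat_lit 0x20008000c000b000900080004000800050008000e000700020008000e0008) (nat_lit 0x1a57106054003c1) (nat_lit 16) Lb.e (@T16.mk En
    (@En.n l33723 (nat_lit 5269) (nat_lit 13) (nat_lit 8))
    (@En.n l33724 (nat_lit 12818) (nat_lit 1) (nat_lit 14))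
    (@En.n l614 (nat_lit 5205) (nat_lit 2) (nat_lit 8))
    (@En.n l11 (nat_lit 7489) (nat_lit 3) (nat_lit 2))
    (@En.n l117 (nat_lit 5253) (nat_lit 4) (nat_lit 7))
    (@En.n l33725 (nat_lit 6436) (nat_lit 6) (nat_lit 14))
    (@En.n l8429 (nat_lit 5125) (nat_lit 2) (nat_lit 8))
    (@En.n l17948 (nat_lit 5254) (nat_lit 3) (nat_lit 5))
    (@En.i (nat_lit 7495) (nat_lit 4) (nat_lit 8))
    (@En.n l33726 (nat_lit 11035) (nat_lit 9) (nat_lit 4))
    (@En.n l6454 (nat_lit 6072) (nat_lit 6) (nat_lit 8))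
    (@En.n l936 (nat_lit 9038) (nat_lit 12) (nat_lit 9))
    (@En.n l9212 (nat_lit 7490) (nat_lit 13) (nat_lit 11))
    (@En.n l17948 (nat_lit 8038) (nat_lit 10) (nat_lit 12))
    (@En.n l33727 (nat_lit 1756) (nat_lit 11) (nat_lit 8))
    (@En.n l50 (nat_lit 7489) (nat_lit 15) (nat_lit 2))))
  (@Cl.mk (nat_lit 0x20008000b00080007000d0007000500030008000e000800020009000e0009) (nat_lit 0x145060006360665) (nat_lit 16) Lb.e (@T16.mk En
    (@En.i (nat_lit 5270) (nat_lit 13) (nat_lit 9))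
    (@En.n l5577 (nat_lit 12819) (nat_lit 1) (nat_lit 14))
    (@En.n l13768 (nat_lit 5208) (nat_lit 2) (nat_lit 9))
    (@En.n l3 (nat_lit 7490) (nat_lit 3) (nat_lit 2))
    (@En.i (nat_lit 7487) (nat_lit 4) (nat_lit 8))
    (@En.i (nat_lit 8042) (nat_lit 6) (nat_lit 14))
    (@En.n l26982 (nat_lit 7489) (nat_lit 6) (nat_lit 8))
    (@En.n l18 (nat_lit 7491) (nat_lit 7) (nat_lit 3))
    (@En.i (nat_lit 5904) (nat_lit 8) (nat_lit 5))
    (@En.n l12864 (nat_lit 7492) (nat_lit 5) (nat_lit 7))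
    (@En.n l4021 (nat_lit 11695) (nat_lit 7) (nat_lit 13))
    (@En.i (nat_lit 6073) (nat_lit 7) (nat_lit 7))
    (@En.n l8118 (nat_lit 11037) (nat_lit 13) (nat_lit 8))
    (@En.i (nat_lit 5695) (nat_lit 10) (nat_lit 11))
    (@En.n l13098 (nat_lit 2509) (nat_lit 11) (nat_lit 8))
    (@En.n l28 (nat_lit 7490) (nat_lit 15) (nat_lit 2))))
  (@Cl.mk (nat_lit 0x20008000c00080007000d0004000800030008000e000800020009000e0008) (nat_lit 0x165050604c60281) (nat_lit 16) Lb.e (@T16.mk En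
    (@En.n l13099 (nat_lit 5271) (nat_lit 13) (nat_lit 8))
    (@En.n l19826 (nat_lit 12820) (nat_lit 1) (nat_lit 14))
    (@En.n l19827 (nat_lit 5210) (nat_lit 2) (nat_lit 9))
    (@En.n l3 (nat_lit 7491) (nat_lit 3) (nat_lit 2))
    (@En.n l19828 (nat_lit 7488) (nat_lit 4) (nat_lit 8))
    (@En.n l13094 (nat_lit 8041) (nat_lit 6) (nat_lit 14))
    (@En.n l19829 (nat_lit 5132) (nat_lit 6) (nat_lit 8))
    (@En.i (nat_lit 7490) (nat_lit 7) (nat_lit 3))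
    (@En.n l19830 (nat_lit 5908) (nat_lit 0) (nat_lit 8))
    (@En.n l19831 (nat_lit 7489) (nat_lit 9) (nat_lit 4))
    (@En.n l19832 (nat_lit 11694) (nat_lit 7) (nat_lit 13))
    (@En.i (nat_lit 5651) (nat_lit 7) (nat_lit 7))
    (@En.n l19833 (nat_lit 11038) (nat_lit 13) (nat_lit 8))
    (@En.i (nat_lit 8033) (nat_lit 10) (nat_lit 12))
    (@En.n l13098 (nat_lit 2510) (nat_lit 11) (nat_lit 8))
    (@En.n l28 (nat_lit 7491) (nat_lit 15) (nat_lit 2))))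
  (@Cl.mk (nat_lit 0x20008000d0009000800030009000c000900080007000400080007000e0007) (nat_lit 0x1a5201866001020) (nat_lit 16) Lb.e (@T16.mk En
    (@En.n l117 (nat_lit 7493) (nat_lit 5) (nat_lit 7))
    (@En.n l32583 (nat_lit 11551) (nat_lit 1) (nat_lit 14))
    (@En.n l17 (nat_lit 7495) (nat_lit 2) (nat_lit 7))
    (@En.i (nat_lit 5913) (nat_lit 3) (nat_lit 8))
    (@En.n l936 (nat_lit 6304) (nat_lit 4) (nat_lit 4))
    (@En.n l77 (nat_lit 8690) (nat_lit 5) (nat_lit 7))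
    (@En.n l9212 (nat_lit 6074) (nat_lit 6) (nat_lit 8))
    (@En.n l7290 (nat_lit 11981) (nat_lit 8) (nat_lit 9))
    (@En.n l9212 (nat_lit 6906) (nat_lit 9) (nat_lit 12))
    (@En.n l14778 (nat_lit 1461) (nat_lit 10) (nat_lit 9))
    (@En.n l3621 (nat_lit 7528) (nat_lit 10) (nat_lit 3))
    (@En.n l9212 (nat_lit 7491) (nat_lit 0) (nat_lit 8))
    (@En.n l30998 (nat_lit 3145) (nat_lit 13) (nat_lit 9))
    (@En.n l39384 (nat_lit 9597) (nat_lit 14) (nat_lit 13))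
    (@En.n l38974 (nat_lit 6822) (nat_lit 3) (nat_lit 8))
    (@En.n l11 (nat_lit 7492) (nat_lit 15) (nat_lit 2))))
  (@Cl.mk (nat_lit 0x30008000b0009000900090008000500090008000700070007000d00080007) (nat_lit 0x186724055000a30) (nat_lit 16) Lb.e (@T16.mk En
    (@En.n l19073 (nat_lit 7488) (nat_lit 0) (nat_lit 7))
    (@En.i (nat_lit 3153) (nat_lit 0) (nat_lit 8))
    (@En.n l601 (nat_lit 9080) (nat_lit 2) (nat_lit 13))
    (@En.n l38776 (nat_lit 6569) (nat_lit 9) (nat_lit 7))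
    (@En.n l11 (nat_lit 7518) (nat_lit 9) (nat_lit 7))
    (@En.n l9966 (nat_lit 9049) (nat_lit 9) (nat_lit 7))
    (@En.n l17 (nat_lit 7494) (nat_lit 6) (nat_lit 8))
    (@En.i (nat_lit 5915) (nat_lit 10) (nat_lit 9))
    (@En.n l1393 (nat_lit 6299) (nat_lit 8) (nat_lit 5))
    (@En.n l77 (nat_lit 8501) (nat_lit 8) (nat_lit 8))
    (@En.n l55 (nat_lit 6389) (nat_lit 7) (nat_lit 9))
    (@En.n l619 (nat_lit 7492) (nat_lit 7) (nat_lit 9))
    (@En.n l10040 (nat_lit 10005) (nat_lit 13) (nat_lit 9))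
    (@En.n l8767 (nat_lit 6440) (nat_lit 7) (nat_lit 11))
    (@En.i (nat_lit 1421) (nat_lit 12) (nat_lit 8))
    (@En.i (nat_lit 7521) (nat_lit 15) (nat_lit 3))))
  (@Cl.mk (nat_lit 0x300080003000b000a000a000a000900050008000600060006000d0007000d) (nat_lit 0x209742504000907) (nat_lit 16) Lb.e (@T16.mk En
    (@En.n l3107 (nat_lit 3299) (nat_lit 0) (nat_lit 13))
    (@En.i (nat_lit 3149) (nat_lit 3) (nat_lit 7))
    (@En.n l601 (nat_lit 9079) (nat_lit 2) (nat_lit 13))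
    (@En.n l218 (nat_lit 6572) (nat_lit 10) (nat_lit 6))
    (@En.n l11 (nat_lit 7516) (nat_lit 10) (nat_lit 6))
    (@En.n l9966 (nat_lit 9009) (nat_lit 7) (nat_lit 6))
    (@En.i (nat_lit 2413) (nat_lit 10) (nat_lit 8))
    (@En.n l1393 (nat_lit 6298) (nat_lit 7) (nat_lit 5))
    (@En.n l77 (nat_lit 8502) (nat_lit 11) (nat_lit 9))
    (@En.n l55 (nat_lit 6391) (nat_lit 6) (nat_lit 10))
    (@En.n l619 (nat_lit 7495) (nat_lit 6) (nat_lit 10))
    (@En.n l3866 (nat_lit 9037) (nat_lit 6) (nat_lit 10))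
    (@En.i (nat_lit 7493) (nat_lit 13) (nat_lit 11))
    (@En.i (nat_lit 7497) (nat_lit 15) (nat_lit 3))
    (@En.i (nat_lit 1673) (nat_lit 0) (nat_lit 8))
    (@En.i (nat_lit 7499) (nat_lit 15) (nat_lit 3))))
  (@Cl.mk (nat_lit 0x20007000d0008000d000300090003000c000a0009000800040007000e0006) (nat_lit 0x91201093150010) (nat_lit 16) Lb.e (@T16.mk En
    (@En.n l117 (nat_lit 7494) (nat_lit 5) (nat_lit 6))
    (@En.i (nat_lit 6246) (nat_lit 1) (nat_lit 14))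
    (@En.i (nat_lit 7532) (nat_lit 2) (nat_lit 7))
    (@En.n l17704 (nat_lit 6302) (nat_lit 3) (nat_lit 4))
    (@En.n l77 (nat_lit 8686) (nat_lit 4) (nat_lit 8))
    (@En.i (nat_lit 6078) (nat_lit 5) (nat_lit 9))
    (@En.n l936 (nat_lit 10461) (nat_lit 7) (nat_lit 10))
    (@En.i (nat_lit 7492) (nat_lit 8) (nat_lit 12))
    (@En.i (nat_lit 7496) (nat_lit 8) (nat_lit 3))
    (@En.i (nat_lit 1458) (nat_lit 10) (nat_lit 9))
    (@En.i (nat_lit 7498) (nat_lit 10) (nat_lit 3))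
    (@En.n l3751 (nat_lit 3298) (nat_lit 12) (nat_lit 13))
    (@En.i (nat_lit 2990) (nat_lit 13) (nat_lit 8))
    (@En.n l7619 (nat_lit 9596) (nat_lit 14) (nat_lit 13))
    (@En.n l38974 (nat_lit 6823) (nat_lit 3) (nat_lit 7))
    (@En.n l11 (nat_lit 7495) (nat_lit 15) (nat_lit 2))))
  (@Cl.mk (nat_lit 0x20007000c0008000d000800040003000c000a0009000800040008000e0006) (nat_lit 0x42130093160210) (nat_lit 16) Lb.e (@T16.mk En
    (@En.n l117 (nat_lit 7497) (nat_lit 7) (nat_lit 6))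
    (@En.n l4315 (nat_lit 6245) (nat_lit 1) (nat_lit 14))
    (@En.i (nat_lit 4427) (nat_lit 2) (nat_lit 8))
    (@En.n l18860 (nat_lit 6303) (nat_lit 3) (nat_lit 4))
    (@En.n l77 (nat_lit 7943) (nat_lit 4) (nat_lit 8))
    (@En.n l2243 (nat_lit 6084) (nat_lit 5) (nat_lit 9))
    (@En.n l936 (nat_lit 10460) (nat_lit 7) (nat_lit 10))
    (@En.n l9212 (nat_lit 6587) (nat_lit 8) (nat_lit 12))
    (@En.n l18 (nat_lit 7495) (nat_lit 8) (nat_lit 3))
    (@En.n l2351 (nat_lit 7794) (nat_lit 9) (nat_lit 4))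
    (@En.n l61 (nat_lit 7492) (nat_lit 11) (nat_lit 8))
    (@En.n l35315 (nat_lit 3291) (nat_lit 12) (nat_lit 13))
    (@En.n l2243 (nat_lit 3146) (nat_lit 13) (nat_lit 8))
    (@En.n l9934 (nat_lit 9450) (nat_lit 14) (nat_lit 12))
    (@En.n l17706 (nat_lit 6826) (nat_lit 5) (nat_lit 7))
    (@En.n l11 (nat_lit 7496) (nat_lit 15) (nat_lit 2))))
  (@Cl.mk (nat_lit 0x3000b000a000a000a000900050009000600060006000c0007000d00070004) (nat_lit 0x974270100050200) (nat_lit 16) Lb.e (@T16.mk En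
    (@En.n l17194 (nat_lit 5882) (nat_lit 0) (nat_lit 4))
    (@En.n l61 (nat_lit 7493) (nat_lit 0) (nat_lit 7))
    (@En.n l9845 (nat_lit 3296) (nat_lit 1) (nat_lit 13))
    (@En.i (nat_lit 2123) (nat_lit 3) (nat_lit 7))
    (@En.i (nat_lit 9454) (nat_lit 3) (nat_lit 12))
    (@En.n l16880 (nat_lit 6574) (nat_lit 10) (nat_lit 6))
    (@En.n l11 (nat_lit 7515) (nat_lit 10) (nat_lit 6))
    (@En.n l9966 (nat_lit 8981) (nat_lit 7) (nat_lit 6))
    (@En.i (nat_lit 2417) (nat_lit 10) (nat_lit 9))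
    (@En.n l1392 (nat_lit 6297) (nat_lit 9) (nat_lit 5))
    (@En.n l77 (nat_lit 8504) (nat_lit 11) (nat_lit 9))
    (@En.n l55 (nat_lit 6393) (nat_lit 6) (nat_lit 10))
    (@En.n l619 (nat_lit 7496) (nat_lit 6) (nat_lit 10))
    (@En.n l3866 (nat_lit 9997) (nat_lit 6) (nat_lit 10))
    (@En.i (nat_lit 6438) (nat_lit 14) (nat_lit 11))
    (@En.n l18 (nat_lit 7494) (nat_lit 13) (nat_lit 3))))
  (@Cl.mk (nat_lit 0x20007000d000c0009000300090004000c000a0009000700040007000e0006) (nat_lit 0x95101097100010) (nat_lit 16) Lb.e (@T16.mk En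
    (@En.n l117 (nat_lit 7499) (nat_lit 5) (nat_lit 6))
    (@En.n l23508 (nat_lit 6247) (nat_lit 1) (nat_lit 14))
    (@En.i (nat_lit 7531) (nat_lit 2) (nat_lit 7))
    (@En.n l23509 (nat_lit 6305) (nat_lit 3) (nat_lit 4))
    (@En.n l3469 (nat_lit 8509) (nat_lit 4) (nat_lit 7))
    (@En.n l2243 (nat_lit 6332) (nat_lit 5) (nat_lit 9))
    (@En.n l9824 (nat_lit 10464) (nat_lit 7) (nat_lit 10))
    (@En.n l3621 (nat_lit 7528) (nat_lit 8) (nat_lit 12))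
    (@En.n l3622 (nat_lit 6341) (nat_lit 8) (nat_lit 4))
    (@En.n l21298 (nat_lit 988) (nat_lit 10) (nat_lit 9))
    (@En.n l50 (nat_lit 7495) (nat_lit 10) (nat_lit 3))
    (@En.n l23510 (nat_lit 1812) (nat_lit 0) (nat_lit 9))
    (@En.n l217 (nat_lit 7496) (nat_lit 13) (nat_lit 12))
    (@En.n l23511 (nat_lit 9595) (nat_lit 14) (nat_lit 13))
    (@En.n l23512 (nat_lit 6818) (nat_lit 3) (nat_lit 7))
    (@En.n l11 (nat_lit 7498) (nat_lit 15) (nat_lit 2))))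
  (@Cl.mk (nat_lit 0x300080004000b000a000a000a000800050008000600060006000d000c0008) (nat_lit 0x109782405000961) (nat_lit 16) Lb.e (@T16.mk En
    (@En.n l30313 (nat_lit 1658) (nat_lit 0) (nat_lit 8))
    (@En.n l217 (nat_lit 7497) (nat_lit 4) (nat_lit 12))
    (@En.n l601 (nat_lit 9588) (nat_lit 2) (nat_lit 13))
    (@En.n l218 (nat_lit 6573) (nat_lit 10) (nat_lit 6))
    (@En.n l11 (nat_lit 7517) (nat_lit 10) (nat_lit 6))
    (@En.n l9966 (nat_lit 9010) (nat_lit 5) (nat_lit 6))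
    (@En.i (nat_lit 2411) (nat_lit 10) (nat_lit 8))
    (@En.n l15704 (nat_lit 6300) (nat_lit 7) (nat_lit 5))
    (@En.i (nat_lit 8506) (nat_lit 8) (nat_lit 8))
    (@En.n l55 (nat_lit 6392) (nat_lit 6) (nat_lit 10))
    (@En.n l619 (nat_lit 7498) (nat_lit 6) (nat_lit 10))
    (@En.n l30314 (nat_lit 9039) (nat_lit 6) (nat_lit 10))
    (@En.i (nat_lit 7521) (nat_lit 13) (nat_lit 11))
    (@En.n l50 (nat_lit 5884) (nat_lit 14) (nat_lit 4))
    (@En.i (nat_lit 983) (nat_lit 0) (nat_lit 8))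
    (@En.n l50 (nat_lit 7494) (nat_lit 15) (nat_lit 3))))
  (@Cl.mk (nat_lit 0x200090005000e000d0002000c00030007000d0004000c0003000b000e0004) (nat_lit 0x708a07009040540) (nat_lit 16) Lb.e (@T16.mk En
    (@En.n l3098 (nat_lit 7266) (nat_lit 5) (nat_lit 4))
    (@En.i (nat_lit 4841) (nat_lit 7) (nat_lit 14))
    (@En.n l253 (nat_lit 3964) (nat_lit 2) (nat_lit 11))
    (@En.i (nat_lit 4809) (nat_lit 3) (nat_lit 3))
    (@En.i (nat_lit 4860) (nat_lit 10) (nat_lit 12))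
    (@En.i (nat_lit 10750) (nat_lit 5) (nat_lit 4))
    (@En.n l2544 (nat_lit 4029) (nat_lit 7) (nat_lit 13))
    (@En.i (nat_lit 7027) (nat_lit 7) (nat_lit 7))
    (@En.i (nat_lit 4808) (nat_lit 8) (nat_lit 3))
    (@En.i (nat_lit 7502) (nat_lit 0) (nat_lit 12))
    (@En.n l11 (nat_lit 7500) (nat_lit 10) (nat_lit 2))
    (@En.n l1578 (nat_lit 4808) (nat_lit 12) (nat_lit 13))
    (@En.n l781 (nat_lit 7876) (nat_lit 1) (nat_lit 14))
    (@En.i (nat_lit 7367) (nat_lit 14) (nat_lit 5))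
    (@En.n l2125 (nat_lit 5564) (nat_lit 3) (nat_lit 9))
    (@En.n l17 (nat_lit 7500) (nat_lit 15) (nat_lit 2))))
  (@Cl.mk (nat_lit 0x2000a0005000e000b0002000c0006000c00050004000c0004000b000e0004) (nat_lit 0x608403080060250) (nat_lit 16) Lb.e (@T16.mk En
    (@En.n l3098 (nat_lit 6364) (nat_lit 5) (nat_lit 4))
    (@En.i (nat_lit 4842) (nat_lit 7) (nat_lit 14))
    (@En.n l253 (nat_lit 1379) (nat_lit 2) (nat_lit 11))
    (@En.i (nat_lit 5154) (nat_lit 3) (nat_lit 4))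
    (@En.n l6103 (nat_lit 11524) (nat_lit 10) (nat_lit 12))
    (@En.i (nat_lit 7500) (nat_lit 5) (nat_lit 4))
    (@En.i (nat_lit 8908) (nat_lit 6) (nat_lit 5))
    (@En.n l3872 (nat_lit 4028) (nat_lit 8) (nat_lit 12))
    (@En.n l810 (nat_lit 8004) (nat_lit 14) (nat_lit 6))
    (@En.n l28 (nat_lit 7503) (nat_lit 10) (nat_lit 12))
    (@En.n l11 (nat_lit 7501) (nat_lit 10) (nat_lit 2))
    (@En.i (nat_lit 5880) (nat_lit 12) (nat_lit 11))
    (@En.n l781 (nat_lit 11196) (nat_lit 1) (nat_lit 14))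
    (@En.i (nat_lit 5889) (nat_lit 14) (nat_lit 5))
    (@En.n l2125 (nat_lit 6585) (nat_lit 3) (nat_lit 10))
    (@En.n l17 (nat_lit 7501) (nat_lit 15) (nat_lit 2))))
  (@Cl.mk (nat_lit 0x20006000c00040007000c0004000b000e00040002000a00050009000e000c) (nat_lit 0x100206a0080296) (nat_lit 16) Lb.e (@T16.mk En
    (@En.i (nat_lit 7503) (nat_lit 11) (nat_lit 12))
    (@En.n l1578 (nat_lit 7501) (nat_lit 12) (nat_lit 14))
    (@En.n l781 (nat_lit 2191) (nat_lit 2) (nat_lit 9))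
    (@En.i (nat_lit 7504) (nat_lit 14) (nat_lit 5))
    (@En.n l2125 (nat_lit 7557) (nat_lit 4) (nat_lit 10))
    (@En.n l17 (nat_lit 7502) (nat_lit 5) (nat_lit 2))
    (@En.n l3098 (nat_lit 5497) (nat_lit 6) (nat_lit 4))
    (@En.i (nat_lit 5871) (nat_lit 8) (nat_lit 14))
    (@En.n l253 (nat_lit 3211) (nat_lit 9) (nat_lit 11))
    (@En.i (nat_lit 5077) (nat_lit 9) (nat_lit 4))
    (@En.n l2571 (nat_lit 12421) (nat_lit 11) (nat_lit 12))
    (@En.i (nat_lit 13957) (nat_lit 11) (nat_lit 7))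
    (@En.i (nat_lit 12133) (nat_lit 6) (nat_lit 4))
    (@En.n l2544 (nat_lit 746) (nat_lit 8) (nat_lit 12))
    (@En.i (nat_lit 11143) (nat_lit 8) (nat_lit 6))
    (@En.n l28 (nat_lit 7502) (nat_lit 15) (nat_lit 2))))
  (@Cl.mk (nat_lit 0x2000b00050009000c000c0005000b000400040007000c0005000b000e0004) (nat_lit 0x9025201000301a0) (nat_lit 16) Lb.e (@T16.mk En
    (@En.n l6690 (nat_lit 5496) (nat_lit 8) (nat_lit 4))
    (@En.i (nat_lit 5870) (nat_lit 4) (nat_lit 14))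
    (@En.n l14951 (nat_lit 862) (nat_lit 2) (nat_lit 11))
    (@En.i (nat_lit 5075) (nat_lit 3) (nat_lit 5))
    (@En.n l13339 (nat_lit 12420) (nat_lit 5) (nat_lit 12))
    (@En.n l11 (nat_lit 7502) (nat_lit 11) (nat_lit 7))
    (@En.n l55 (nat_lit 7502) (nat_lit 12) (nat_lit 4))
    (@En.n l6698 (nat_lit 12156) (nat_lit 7) (nat_lit 4))
    (@En.n l13339 (nat_lit 741) (nat_lit 9) (nat_lit 11))
    (@En.i (nat_lit 11146) (nat_lit 9) (nat_lit 5))
    (@En.n l6697 (nat_lit 7508) (nat_lit 4) (nat_lit 12))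
    (@En.n l6698 (nat_lit 5877) (nat_lit 12) (nat_lit 12))
    (@En.n l781 (nat_lit 2192) (nat_lit 13) (nat_lit 9))
    (@En.i (nat_lit 7505) (nat_lit 14) (nat_lit 5))
    (@En.n l2125 (nat_lit 6556) (nat_lit 0) (nat_lit 11))
    (@En.n l17 (nat_lit 7503) (nat_lit 15) (nat_lit 2))))
noncomputable def a469 : T16 Cl := @T16.mk Cl
  (@Cl.mk (nat_lit 0x200050009000e000c00020009000c00040007000b0004000b0007000e0005) (nat_lit 0x794051002060b0) (nat_lit 16) Lb.e (@T16.mk En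
    (@En.n l3098 (nat_lit 7512) (nat_lit 5) (nat_lit 5))
    (@En.n l3 (nat_lit 7502) (nat_lit 7) (nat_lit 14))
    (@En.n l3 (nat_lit 7506) (nat_lit 7) (nat_lit 7))
    (@En.n l15057 (nat_lit 3210) (nat_lit 3) (nat_lit 11))
    (@En.n l3264 (nat_lit 5062) (nat_lit 4) (nat_lit 4))
    (@En.n l2571 (nat_lit 12422) (nat_lit 11) (nat_lit 11))
    (@En.i (nat_lit 13955) (nat_lit 11) (nat_lit 7))
    (@En.n l16478 (nat_lit 12129) (nat_lit 7) (nat_lit 4))
    (@En.n l6647 (nat_lit 749) (nat_lit 9) (nat_lit 12))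
    (@En.i (nat_lit 10866) (nat_lit 10) (nat_lit 9))
    (@En.n l28 (nat_lit 7504) (nat_lit 10) (nat_lit 2))
    (@En.i (nat_lit 7505) (nat_lit 12) (nat_lit 12))
    (@En.n l1578 (nat_lit 5889) (nat_lit 13) (nat_lit 14))
    (@En.n l6647 (nat_lit 7885) (nat_lit 2) (nat_lit 9))
    (@En.n l3106 (nat_lit 7784) (nat_lit 13) (nat_lit 5))
    (@En.n l17 (nat_lit 7504) (nat_lit 15) (nat_lit 2))))
  (@Cl.mk (nat_lit 0x200050009000c000c0008000b000400040007000b0005000b0008000e0005) (nat_lit 0x732410003076b0) (nat_lit 16) Lb.e (@T16.mk En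
    (@En.n l6690 (nat_lit 7513) (nat_lit 7) (nat_lit 5))
    (@En.n l3 (nat_lit 7503) (nat_lit 1) (nat_lit 14))
    (@En.n l6691 (nat_lit 7507) (nat_lit 2) (nat_lit 8))
    (@En.n l6692 (nat_lit 3212) (nat_lit 3) (nat_lit 11))
    (@En.n l6693 (nat_lit 5057) (nat_lit 4) (nat_lit 5))
    (@En.n l6694 (nat_lit 12423) (nat_lit 6) (nat_lit 11))
    (@En.n l11 (nat_lit 7504) (nat_lit 6) (nat_lit 7))
    (@En.n l55 (nat_lit 7504) (nat_lit 7) (nat_lit 4))
    (@En.n l6695 (nat_lit 12130) (nat_lit 8) (nat_lit 4))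
    (@En.n l6694 (nat_lit 747) (nat_lit 10) (nat_lit 11))
    (@En.n l6696 (nat_lit 10863) (nat_lit 11) (nat_lit 8))
    (@En.n l6697 (nat_lit 7453) (nat_lit 12) (nat_lit 12))
    (@En.n l6698 (nat_lit 5879) (nat_lit 13) (nat_lit 12))
    (@En.n l6699 (nat_lit 7882) (nat_lit 14) (nat_lit 9))
    (@En.n l3106 (nat_lit 7786) (nat_lit 13) (nat_lit 5))
    (@En.n l17 (nat_lit 7505) (nat_lit 15) (nat_lit 2))))
  (@Cl.mk (nat_lit 0x200090006000c00050008000c00040007000e00040002000a0008000e000b) (nat_lit 0x50200200b007685) (nat_lit 16) Lb.e (@T16.mk En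
    (@En.n l6698 (nat_lit 7507) (nat_lit 12) (nat_lit 11))
    (@En.n l1578 (nat_lit 7514) (nat_lit 13) (nat_lit 14))
    (@En.n l23555 (nat_lit 7886) (nat_lit 2) (nat_lit 8))
    (@En.n l4659 (nat_lit 6561) (nat_lit 3) (nat_lit 10))
    (@En.n l17 (nat_lit 7506) (nat_lit 4) (nat_lit 2))
    (@En.n l2710 (nat_lit 7511) (nat_lit 5) (nat_lit 4))
    (@En.i (nat_lit 5930) (nat_lit 7) (nat_lit 14))
    (@En.n l8932 (nat_lit 3107) (nat_lit 11) (nat_lit 7))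
    (@En.i (nat_lit 5148) (nat_lit 8) (nat_lit 4))
    (@En.n l1897 (nat_lit 11894) (nat_lit 10) (nat_lit 12))
    (@En.n l11549 (nat_lit 13956) (nat_lit 10) (nat_lit 8))
    (@En.n l3197 (nat_lit 10735) (nat_lit 6) (nat_lit 5))
    (@En.n l1690 (nat_lit 7504) (nat_lit 8) (nat_lit 12))
    (@En.n l152 (nat_lit 7502) (nat_lit 14) (nat_lit 6))
    (@En.i (nat_lit 10870) (nat_lit 10) (nat_lit 9))
    (@En.n l28 (nat_lit 7506) (nat_lit 15) (nat_lit 2))))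
  (@Cl.mk (nat_lit 0x2000b0008000b000b00080005000b000500050008000c00050008000e0004) (nat_lit 0x7642402001305b0) (nat_lit 16) Lb.e (@T16.mk En
    (@En.n l16338 (nat_lit 7510) (nat_lit 15) (nat_lit 4))
    (@En.i (nat_lit 5928) (nat_lit 1) (nat_lit 14))
    (@En.n l7633 (nat_lit 3106) (nat_lit 10) (nat_lit 8))
    (@En.i (nat_lit 5063) (nat_lit 3) (nat_lit 5))
    (@En.n l16339 (nat_lit 11893) (nat_lit 5) (nat_lit 12))
    (@En.n l2491 (nat_lit 7506) (nat_lit 10) (nat_lit 8))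
    (@En.n l7129 (nat_lit 7506) (nat_lit 11) (nat_lit 5))
    (@En.i (nat_lit 10736) (nat_lit 7) (nat_lit 5))
    (@En.n l16340 (nat_lit 7505) (nat_lit 9) (nat_lit 11))
    (@En.n l16341 (nat_lit 7503) (nat_lit 9) (nat_lit 5))
    (@En.n l9992 (nat_lit 10865) (nat_lit 11) (nat_lit 8))
    (@En.n l55 (nat_lit 7509) (nat_lit 5) (nat_lit 11))
    (@En.i (nat_lit 5878) (nat_lit 7) (nat_lit 11))
    (@En.n l16342 (nat_lit 7884) (nat_lit 14) (nat_lit 8))
    (@En.n l16339 (nat_lit 6559) (nat_lit 14) (nat_lit 11))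
    (@En.n l17 (nat_lit 7507) (nat_lit 15) (nat_lit 2))))
  (@Cl.mk (nat_lit 0x20007000c0006000b000e00040002000c00050009000c0004000a000e0004) (nat_lit 0x608900802101c0) (nat_lit 16) Lb.e (@T16.mk En
    (@En.n l5611 (nat_lit 7503) (nat_lit 7) (nat_lit 4))
    (@En.i (nat_lit 7448) (nat_lit 9) (nat_lit 14))
    (@En.i (nat_lit 745) (nat_lit 10) (nat_lit 10))
    (@En.i (nat_lit 11268) (nat_lit 3) (nat_lit 4))
    (@En.i (nat_lit 4072) (nat_lit 6) (nat_lit 12))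
    (@En.n l781 (nat_lit 2252) (nat_lit 5) (nat_lit 9))
    (@En.i (nat_lit 7453) (nat_lit 14) (nat_lit 5))
    (@En.n l2125 (nat_lit 7556) (nat_lit 8) (nat_lit 12))
    (@En.n l17 (nat_lit 7508) (nat_lit 8) (nat_lit 2))
    (@En.n l3187 (nat_lit 7600) (nat_lit 9) (nat_lit 4))
    (@En.i (nat_lit 5872) (nat_lit 11) (nat_lit 14))
    (@En.n l1326 (nat_lit 3737) (nat_lit 12) (nat_lit 11))
    (@En.i (nat_lit 5076) (nat_lit 13) (nat_lit 6))
    (@En.i (nat_lit 12765) (nat_lit 14) (nat_lit 12))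
    (@En.n l3100 (nat_lit 7503) (nat_lit 5) (nat_lit 7))
    (@En.n l28 (nat_lit 7508) (nat_lit 15) (nat_lit 2))))
  (@Cl.mk (nat_lit 0x20008000c00060009000e00040002000c0008000b00070004000a000e0005) (nat_lit 0x2706a0076100290) (nat_lit 16) Lb.e (@T16.mk En
    (@En.i (nat_lit 7507) (nat_lit 7) (nat_lit 5))
    (@En.i (nat_lit 7449) (nat_lit 9) (nat_lit 14))
    (@En.n l1690 (nat_lit 7453) (nat_lit 10) (nat_lit 10))
    (@En.n l152 (nat_lit 7508) (nat_lit 3) (nat_lit 4))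
    (@En.n l9874 (nat_lit 11504) (nat_lit 4) (nat_lit 7))
    (@En.i (nat_lit 4073) (nat_lit 7) (nat_lit 11))
    (@En.n l4758 (nat_lit 7883) (nat_lit 6) (nat_lit 8))
    (@En.i (nat_lit 6560) (nat_lit 8) (nat_lit 12))
    (@En.n l17 (nat_lit 7509) (nat_lit 8) (nat_lit 2))
    (@En.n l1073 (nat_lit 7598) (nat_lit 9) (nat_lit 4))
    (@En.i (nat_lit 5931) (nat_lit 11) (nat_lit 14))
    (@En.n l9874 (nat_lit 3113) (nat_lit 12) (nat_lit 9))
    (@En.i (nat_lit 5065) (nat_lit 13) (nat_lit 6))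
    (@En.n l9874 (nat_lit 11904) (nat_lit 14) (nat_lit 12))
    (@En.n l3506 (nat_lit 7507) (nat_lit 5) (nat_lit 8))
    (@En.n l28 (nat_lit 7509) (nat_lit 15) (nat_lit 2))))
  (@Cl.mk (nat_lit 0x40004000b0008000b000b00070005000a000500050008000c000c00060009) (nat_lit 0x95120020006406) (nat_lit 16) Lb.e (@T16.mk En
    (@En.n l2281 (nat_lit 3108) (nat_lit 9) (nat_lit 9))
    (@En.n l15872 (nat_lit 1306) (nat_lit 1) (nat_lit 6))
    (@En.n l22702 (nat_lit 7507) (nat_lit 4) (nat_lit 12))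
    (@En.n l30650 (nat_lit 8767) (nat_lit 7) (nat_lit 12))
    (@En.n l1972 (nat_lit 7511) (nat_lit 10) (nat_lit 8))
    (@En.n l1973 (nat_lit 7511) (nat_lit 11) (nat_lit 5))
    (@En.n l30651 (nat_lit 10209) (nat_lit 6) (nat_lit 5))
    (@En.n l28 (nat_lit 7513) (nat_lit 0) (nat_lit 10))
    (@En.i (nat_lit 5496) (nat_lit 1) (nat_lit 5))
    (@En.n l30652 (nat_lit 10860) (nat_lit 0) (nat_lit 7))
    (@En.n l22699 (nat_lit 7598) (nat_lit 5) (nat_lit 11))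
    (@En.i (nat_lit 5886) (nat_lit 7) (nat_lit 11))
    (@En.n l30653 (nat_lit 5986) (nat_lit 13) (nat_lit 8))
    (@En.n l28339 (nat_lit 7569) (nat_lit 14) (nat_lit 11))
    (@En.n l15870 (nat_lit 7591) (nat_lit 12) (nat_lit 4))
    (@En.n l6387 (nat_lit 5181) (nat_lit 0) (nat_lit 4))))
  (@Cl.mk (nat_lit 0x200080006000b00050008000c000c0005000800040004000a0008000e000b) (nat_lit 0x502065305008552) (nat_lit 16) Lb.e (@T16.mk En
    (@En.n l5779 (nat_lit 7510) (nat_lit 11) (nat_lit 11))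
    (@En.n l601 (nat_lit 6365) (nat_lit 1) (nat_lit 14))
    (@En.n l4780 (nat_lit 7877) (nat_lit 2) (nat_lit 8))
    (@En.n l899 (nat_lit 7573) (nat_lit 3) (nat_lit 10))
    (@En.n l152 (nat_lit 7590) (nat_lit 12) (nat_lit 4))
    (@En.n l11790 (nat_lit 5180) (nat_lit 5) (nat_lit 4))
    (@En.n l15963 (nat_lit 3105) (nat_lit 10) (nat_lit 8))
    (@En.n l2125 (nat_lit 1307) (nat_lit 7) (nat_lit 5))
    (@En.n l833 (nat_lit 7506) (nat_lit 9) (nat_lit 12))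
    (@En.n l14271 (nat_lit 8763) (nat_lit 10) (nat_lit 12))
    (@En.i (nat_lit 13140) (nat_lit 10) (nat_lit 8))
    (@En.n l9061 (nat_lit 10207) (nat_lit 12) (nat_lit 5))
    (@En.n l207 (nat_lit 7512) (nat_lit 13) (nat_lit 11))
    (@En.i (nat_lit 5497) (nat_lit 14) (nat_lit 6))
    (@En.n l39027 (nat_lit 7554) (nat_lit 2) (nat_lit 8))
    (@En.n l50 (nat_lit 7511) (nat_lit 15) (nat_lit 2))))
  (@Cl.mk (nat_lit 0x20008000b00040007000b000b0005000c00080005000500040009000e000c) (nat_lit 0x410083016000642) (nat_lit 16) Lb.e (@T16.mk En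
    (@En.n l5779 (nat_lit 7513) (nat_lit 3) (nat_lit 12))
    (@En.n l601 (nat_lit 6363) (nat_lit 1) (nat_lit 14))
    (@En.n l14270 (nat_lit 7874) (nat_lit 2) (nat_lit 9))
    (@En.n l3535 (nat_lit 5487) (nat_lit 3) (nat_lit 4))
    (@En.n l152 (nat_lit 7588) (nat_lit 11) (nat_lit 5))
    (@En.n l21499 (nat_lit 7612) (nat_lit 5) (nat_lit 5))
    (@En.i (nat_lit 7511) (nat_lit 6) (nat_lit 8))
    (@En.n l1722 (nat_lit 863) (nat_lit 8) (nat_lit 12))
    (@En.n l2125 (nat_lit 5470) (nat_lit 8) (nat_lit 5))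
    (@En.n l3536 (nat_lit 7504) (nat_lit 5) (nat_lit 11))
    (@En.n l14271 (nat_lit 8761) (nat_lit 11) (nat_lit 11))
    (@En.i (nat_lit 13333) (nat_lit 11) (nat_lit 7))
    (@En.n l27733 (nat_lit 12154) (nat_lit 13) (nat_lit 4))
    (@En.n l709 (nat_lit 752) (nat_lit 7) (nat_lit 11))
    (@En.i (nat_lit 7552) (nat_lit 1) (nat_lit 8))
    (@En.n l50 (nat_lit 7512) (nat_lit 15) (nat_lit 2))))
  (@Cl.mk (nat_lit 0x400040007000b000b0006000c00090005000500040009000c000c0007000a) (nat_lit 0x5401700061201) (nat_lit 16) Lb.e (@T16.mk En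
    (@En.n l5773 (nat_lit 630) (nat_lit 8) (nat_lit 10))
    (@En.n l1974 (nat_lit 10861) (nat_lit 1) (nat_lit 7))
    (@En.n l9762 (nat_lit 7599) (nat_lit 4) (nat_lit 12))
    (@En.i (nat_lit 5885) (nat_lit 6) (nat_lit 12))
    (@En.n l15868 (nat_lit 5985) (nat_lit 4) (nat_lit 9))
    (@En.n l15869 (nat_lit 5488) (nat_lit 12) (nat_lit 4))
    (@En.n l15870 (nat_lit 7589) (nat_lit 11) (nat_lit 5))
    (@En.n l15871 (nat_lit 7602) (nat_lit 1) (nat_lit 5))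
    (@En.i (nat_lit 7510) (nat_lit 0) (nat_lit 9))
    (@En.n l55 (nat_lit 861) (nat_lit 1) (nat_lit 12))
    (@En.n l15872 (nat_lit 1311) (nat_lit 4) (nat_lit 6))
    (@En.n l6047 (nat_lit 7505) (nat_lit 5) (nat_lit 11))
    (@En.n l15873 (nat_lit 8762) (nat_lit 8) (nat_lit 11))
    (@En.n l1972 (nat_lit 7512) (nat_lit 11) (nat_lit 7))
    (@En.n l1973 (nat_lit 7512) (nat_lit 12) (nat_lit 4))
    (@En.n l15873 (nat_lit 12155) (nat_lit 0) (nat_lit 4))))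
  (@Cl.mk (nat_lit 0x2000a000e000a0002000b00090006000c00060005000c00040007000e0004) (nat_lit 0x874035060040080) (nat_lit 16) Lb.e (@T16.mk En
    (@En.n l2710 (nat_lit 6365) (nat_lit 4) (nat_lit 4))
    (@En.i (nat_lit 4846) (nat_lit 1) (nat_lit 14))
    (@En.n l9184 (nat_lit 3094) (nat_lit 11) (nat_lit 7))
    (@En.i (nat_lit 5151) (nat_lit 7) (nat_lit 4))
    (@En.n l9188 (nat_lit 11528) (nat_lit 9) (nat_lit 12))
    (@En.i (nat_lit 7199) (nat_lit 5) (nat_lit 5))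
    (@En.n l9184 (nat_lit 10217) (nat_lit 6) (nat_lit 6))
    (@En.n l1690 (nat_lit 5889) (nat_lit 8) (nat_lit 12))
    (@En.n l152 (nat_lit 7501) (nat_lit 8) (nat_lit 6))
    (@En.n l7457 (nat_lit 7473) (nat_lit 14) (nat_lit 9))
    (@En.n l565 (nat_lit 7507) (nat_lit 11) (nat_lit 11))
    (@En.n l11 (nat_lit 7514) (nat_lit 11) (nat_lit 2))
    (@En.n l5403 (nat_lit 5882) (nat_lit 13) (nat_lit 10))
    (@En.n l5011 (nat_lit 7924) (nat_lit 1) (nat_lit 14))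
    (@En.n l4659 (nat_lit 6580) (nat_lit 2) (nat_lit 10))
    (@En.n l17 (nat_lit 7514) (nat_lit 15) (nat_lit 2))))
  (@Cl.mk (nat_lit 0x2000b000a0006000a00060005000c0006000d000600040003000a000e000a) (nat_lit 0x1806004060008c8) (nat_lit 16) Lb.e (@T16.mk En
    (@En.n l68 (nat_lit 7497) (nat_lit 13) (nat_lit 10))
    (@En.n l1236 (nat_lit 11308) (nat_lit 1) (nat_lit 14))
    (@En.i (nat_lit 7654) (nat_lit 2) (nat_lit 10))
    (@En.n l18 (nat_lit 7516) (nat_lit 3) (nat_lit 3))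
    (@En.n l16425 (nat_lit 7514) (nat_lit 0) (nat_lit 4))
    (@En.n l61 (nat_lit 7518) (nat_lit 5) (nat_lit 6))
    (@En.n l27666 (nat_lit 4847) (nat_lit 7) (nat_lit 13))
    (@En.n l29733 (nat_lit 3151) (nat_lit 7) (nat_lit 6))
    (@En.n l3492 (nat_lit 9567) (nat_lit 9) (nat_lit 12))
    (@En.n l27666 (nat_lit 7219) (nat_lit 9) (nat_lit 5))
    (@En.n l1236 (nat_lit 10216) (nat_lit 6) (nat_lit 6))
    (@En.i (nat_lit 6362) (nat_lit 12) (nat_lit 10))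
    (@En.n l29734 (nat_lit 7527) (nat_lit 13) (nat_lit 6))
    (@En.n l77 (nat_lit 7482) (nat_lit 14) (nat_lit 10))
    (@En.n l8015 (nat_lit 5181) (nat_lit 11) (nat_lit 11))
    (@En.n l67 (nat_lit 7515) (nat_lit 15) (nat_lit 2))))
  (@Cl.mk (nat_lit 0x2000b000a0006000900060005000d0006000d000300070003000a000e000a) (nat_lit 0x160600a060008c8) (nat_lit 16) Lb.e (@T16.mk En
    (@En.n l68 (nat_lit 7494) (nat_lit 11) (nat_lit 10))
    (@En.n l1236 (nat_lit 11309) (nat_lit 1) (nat_lit 14))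
    (@En.i (nat_lit 7518) (nat_lit 2) (nat_lit 10))
    (@En.i (nat_lit 7515) (nat_lit 3) (nat_lit 3))
    (@En.i (nat_lit 1999) (nat_lit 4) (nat_lit 7))
    (@En.i (nat_lit 7517) (nat_lit 5) (nat_lit 3))
    (@En.n l5200 (nat_lit 4849) (nat_lit 0) (nat_lit 13))
    (@En.n l28 (nat_lit 4567) (nat_lit 7) (nat_lit 6))
    (@En.n l601 (nat_lit 9081) (nat_lit 9) (nat_lit 13))
    (@En.n l28 (nat_lit 7217) (nat_lit 9) (nat_lit 5))
    (@En.n l1236 (nat_lit 10173) (nat_lit 6) (nat_lit 6))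
    (@En.i (nat_lit 4618) (nat_lit 12) (nat_lit 9))
    (@En.n l2438 (nat_lit 7526) (nat_lit 13) (nat_lit 6))
    (@En.n l77 (nat_lit 10972) (nat_lit 14) (nat_lit 10))
    (@En.n l8015 (nat_lit 5177) (nat_lit 9) (nat_lit 11))
    (@En.n l67 (nat_lit 7516) (nat_lit 15) (nat_lit 2))))
  (@Cl.mk (nat_lit 0x2000b00090006000900060005000d000c0007000300070004000a000e000a) (nat_lit 0x140600a50000838) (nat_lit 16) Lb.e (@T16.mk En
    (@En.n l68 (nat_lit 7499) (nat_lit 11) (nat_lit 10))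
    (@En.n l1236 (nat_lit 11310) (nat_lit 1) (nat_lit 14))
    (@En.n l16312 (nat_lit 7519) (nat_lit 2) (nat_lit 10))
    (@En.n l4551 (nat_lit 6365) (nat_lit 3) (nat_lit 4))
    (@En.n l4551 (nat_lit 1544) (nat_lit 4) (nat_lit 7))
    (@En.n l50 (nat_lit 7516) (nat_lit 5) (nat_lit 3))
    (@En.n l16313 (nat_lit 1956) (nat_lit 0) (nat_lit 7))
    (@En.n l217 (nat_lit 7515) (nat_lit 8) (nat_lit 12))
    (@En.n l601 (nat_lit 9602) (nat_lit 9) (nat_lit 13))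
    (@En.n l4551 (nat_lit 7289) (nat_lit 9) (nat_lit 5))
    (@En.n l1236 (nat_lit 10172) (nat_lit 4) (nat_lit 6))
    (@En.i (nat_lit 4617) (nat_lit 12) (nat_lit 9))
    (@En.n l4551 (nat_lit 7584) (nat_lit 13) (nat_lit 6))
    (@En.i (nat_lit 8197) (nat_lit 14) (nat_lit 9))
    (@En.n l8015 (nat_lit 1308) (nat_lit 9) (nat_lit 11))
    (@En.n l67 (nat_lit 7517) (nat_lit 15) (nat_lit 2))))
  (@Cl.mk (nat_lit 0x2000a00090006000a000900070006000d0007000600030007000a000e0009) (nat_lit 0x1506700a0000727) (nat_lit 16) Lb.e (@T16.mk En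
    (@En.n l68 (nat_lit 7493) (nat_lit 12) (nat_lit 9))
    (@En.n l17680 (nat_lit 7432) (nat_lit 1) (nat_lit 14))
    (@En.n l3127 (nat_lit 7962) (nat_lit 8) (nat_lit 10))
    (@En.n l4555 (nat_lit 1998) (nat_lit 3) (nat_lit 7))
    (@En.n l16312 (nat_lit 7519) (nat_lit 4) (nat_lit 3))
    (@En.n l11469 (nat_lit 7700) (nat_lit 0) (nat_lit 6))
    (@En.n l28 (nat_lit 4568) (nat_lit 6) (nat_lit 7))
    (@En.n l31944 (nat_lit 9604) (nat_lit 8) (nat_lit 13))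
    (@En.n l4555 (nat_lit 7218) (nat_lit 8) (nat_lit 6))
    (@En.n l1236 (nat_lit 10292) (nat_lit 10) (nat_lit 7))
    (@En.n l17 (nat_lit 7516) (nat_lit 11) (nat_lit 9))
    (@En.i (nat_lit 7146) (nat_lit 12) (nat_lit 10))
    (@En.n l4555 (nat_lit 7147) (nat_lit 13) (nat_lit 6))
    (@En.n l77 (nat_lit 10973) (nat_lit 14) (nat_lit 9))
    (@En.n l8015 (nat_lit 1310) (nat_lit 10) (nat_lit 10))
    (@En.n l67 (nat_lit 7518) (nat_lit 15) (nat_lit 2))))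
  (@Cl.mk (nat_lit 0x2000a00080006000b000900070006000d0005000800030007000a000e0009) (nat_lit 0x1406700b01007c7) (nat_lit 16) Lb.e (@T16.mk En
    (@En.n l29088 (nat_lit 7521) (nat_lit 12) (nat_lit 9))
    (@En.n l29089 (nat_lit 7435) (nat_lit 1) (nat_lit 14))
    (@En.i (nat_lit 7963) (nat_lit 8) (nat_lit 10))
    (@En.n l1081 (nat_lit 1543) (nat_lit 3) (nat_lit 7))
    (@En.n l9084 (nat_lit 7518) (nat_lit 4) (nat_lit 3))
    (@En.n l7490 (nat_lit 1661) (nat_lit 0) (nat_lit 8))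
    (@En.n l117 (nat_lit 5150) (nat_lit 6) (nat_lit 5))
    (@En.n l29090 (nat_lit 9598) (nat_lit 8) (nat_lit 13))
    (@En.i (nat_lit 7288) (nat_lit 8) (nat_lit 6))
    (@En.n l28323 (nat_lit 10290) (nat_lit 10) (nat_lit 7))
    (@En.n l29091 (nat_lit 7517) (nat_lit 11) (nat_lit 9))
    (@En.n l29092 (nat_lit 7520) (nat_lit 12) (nat_lit 11))
    (@En.i (nat_lit 7148) (nat_lit 13) (nat_lit 6))
    (@En.n l7407 (nat_lit 8196) (nat_lit 14) (nat_lit 8))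
    (@En.n l18 (nat_lit 1306) (nat_lit 10) (nat_lit 10))
    (@En.n l50 (nat_lit 7519) (nat_lit 15) (nat_lit 2))))
noncomputable def a470 : T16 Cl := @T16.mk Cl
  (@Cl.mk (nat_lit 0x2000b0008000b000800060005000c0005000c0008000400080004000e000a) (nat_lit 0x145600a06203028) (nat_lit 16) Lb.e (@T16.mk En
    (@En.i (nat_lit 7522) (nat_lit 12) (nat_lit 10))
    (@En.n l1033 (nat_lit 7188) (nat_lit 1) (nat_lit 14))
    (@En.n l14768 (nat_lit 6356) (nat_lit 2) (nat_lit 4))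
    (@En.n l1544 (nat_lit 1542) (nat_lit 3) (nat_lit 8))
    (@En.n l14769 (nat_lit 7146) (nat_lit 4) (nat_lit 4))
    (@En.n l14768 (nat_lit 7519) (nat_lit 5) (nat_lit 8))
    (@En.n l10108 (nat_lit 7517) (nat_lit 7) (nat_lit 12))
    (@En.n l14770 (nat_lit 5153) (nat_lit 7) (nat_lit 5))
    (@En.n l5649 (nat_lit 9601) (nat_lit 9) (nat_lit 12))
    (@En.n l14768 (nat_lit 7287) (nat_lit 9) (nat_lit 5))
    (@En.i (nat_lit 8336) (nat_lit 11) (nat_lit 6))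
    (@En.n l14771 (nat_lit 7523) (nat_lit 12) (nat_lit 8))
    (@En.i (nat_lit 7642) (nat_lit 7) (nat_lit 11))
    (@En.n l10108 (nat_lit 8199) (nat_lit 14) (nat_lit 8))
    (@En.n l14772 (nat_lit 1311) (nat_lit 12) (nat_lit 11))
    (@En.n l28 (nat_lit 7520) (nat_lit 15) (nat_lit 2))))
  (@Cl.mk (nat_lit 0x30008000b00090009000900070005000a0008000700070007000d00060009) (nat_lit 0x186720056000a01) (nat_lit 16) Lb.e (@T16.mk En
    (@En.n l8765 (nat_lit 1656) (nat_lit 0) (nat_lit 9))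
    (@En.i (nat_lit 5159) (nat_lit 8) (nat_lit 6))
    (@En.n l23122 (nat_lit 9587) (nat_lit 2) (nat_lit 13))
    (@En.n l23123 (nat_lit 6571) (nat_lit 9) (nat_lit 7))
    (@En.n l23124 (nat_lit 7519) (nat_lit 9) (nat_lit 7))
    (@En.n l23125 (nat_lit 9050) (nat_lit 9) (nat_lit 7))
    (@En.n l17 (nat_lit 7499) (nat_lit 6) (nat_lit 8))
    (@En.n l23126 (nat_lit 7522) (nat_lit 8) (nat_lit 10))
    (@En.n l23127 (nat_lit 6301) (nat_lit 8) (nat_lit 5))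
    (@En.n l23128 (nat_lit 8507) (nat_lit 9) (nat_lit 7))
    (@En.n l23129 (nat_lit 6390) (nat_lit 7) (nat_lit 9))
    (@En.n l8763 (nat_lit 7528) (nat_lit 7) (nat_lit 9))
    (@En.n l23130 (nat_lit 10790) (nat_lit 13) (nat_lit 9))
    (@En.n l23131 (nat_lit 6442) (nat_lit 7) (nat_lit 11))
    (@En.n l23132 (nat_lit 980) (nat_lit 12) (nat_lit 8))
    (@En.n l50 (nat_lit 7493) (nat_lit 15) (nat_lit 3))))
  (@Cl.mk (nat_lit 0x400090004000a000a000a0007000a0007000600060006000c0006000c0009) (nat_lit 0x107820400006072) (nat_lit 16) Lb.e (@T16.mk En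
    (@En.n l28940 (nat_lit 7521) (nat_lit 0) (nat_lit 9))
    (@En.n l14699 (nat_lit 7499) (nat_lit 1) (nat_lit 12))
    (@En.n l25037 (nat_lit 5160) (nat_lit 4) (nat_lit 6))
    (@En.n l5649 (nat_lit 9586) (nat_lit 3) (nat_lit 12))
    (@En.n l3787 (nat_lit 6570) (nat_lit 10) (nat_lit 6))
    (@En.n l55 (nat_lit 7520) (nat_lit 10) (nat_lit 6))
    (@En.i (nat_lit 9054) (nat_lit 10) (nat_lit 6))
    (@En.n l28941 (nat_lit 2412) (nat_lit 7) (nat_lit 7))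
    (@En.i (nat_lit 7643) (nat_lit 8) (nat_lit 10))
    (@En.n l14699 (nat_lit 8283) (nat_lit 9) (nat_lit 7))
    (@En.n l601 (nat_lit 6388) (nat_lit 6) (nat_lit 10))
    (@En.n l2281 (nat_lit 7529) (nat_lit 6) (nat_lit 10))
    (@En.n l11 (nat_lit 10791) (nat_lit 13) (nat_lit 10))
    (@En.n l117 (nat_lit 6353) (nat_lit 15) (nat_lit 4))
    (@En.i (nat_lit 978) (nat_lit 0) (nat_lit 9))
    (@En.n l28942 (nat_lit 5915) (nat_lit 1) (nat_lit 4))))
  (@Cl.mk (nat_lit 0x2000c0009000800050004000c000b000b00070004000800050005000e000b) (nat_lit 0x14500a3500200c1) (nat_lit 16) Lb.e (@T16.mk En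
    (@En.n l13857 (nat_lit 2412) (nat_lit 11) (nat_lit 11))
    (@En.n l14045 (nat_lit 11293) (nat_lit 1) (nat_lit 14))
    (@En.n l11 (nat_lit 7644) (nat_lit 11) (nat_lit 5))
    (@En.i (nat_lit 6363) (nat_lit 3) (nat_lit 5))
    (@En.i (nat_lit 1327) (nat_lit 4) (nat_lit 8))
    (@En.n l936 (nat_lit 7641) (nat_lit 5) (nat_lit 4))
    (@En.n l5896 (nat_lit 7517) (nat_lit 6) (nat_lit 7))
    (@En.n l13303 (nat_lit 4617) (nat_lit 8) (nat_lit 11))
    (@En.n l5705 (nat_lit 7524) (nat_lit 9) (nat_lit 11))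
    (@En.i (nat_lit 8222) (nat_lit 10) (nat_lit 12))
    (@En.i (nat_lit 4607) (nat_lit 10) (nat_lit 4))
    (@En.n l14046 (nat_lit 8329) (nat_lit 0) (nat_lit 5))
    (@En.n l14047 (nat_lit 2206) (nat_lit 13) (nat_lit 8))
    (@En.n l6451 (nat_lit 8957) (nat_lit 14) (nat_lit 9))
    (@En.n l14048 (nat_lit 903) (nat_lit 2) (nat_lit 12))
    (@En.n l7 (nat_lit 7523) (nat_lit 15) (nat_lit 2))))
  (@Cl.mk (nat_lit 0x2000c000a000900050004000b000a0006000d0007000500030006000e000b) (nat_lit 0x145002503000041) (nat_lit 16) Lb.e (@T16.mk En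
    (@En.n l24639 (nat_lit 6296) (nat_lit 13) (nat_lit 11))
    (@En.n l24640 (nat_lit 11287) (nat_lit 1) (nat_lit 14))
    (@En.n l11153 (nat_lit 5706) (nat_lit 12) (nat_lit 6))
    (@En.n l24641 (nat_lit 7525) (nat_lit 3) (nat_lit 3))
    (@En.n l11150 (nat_lit 5889) (nat_lit 0) (nat_lit 5))
    (@En.n l14061 (nat_lit 7144) (nat_lit 5) (nat_lit 7))
    (@En.n l24642 (nat_lit 7527) (nat_lit 7) (nat_lit 13))
    (@En.n l24643 (nat_lit 7515) (nat_lit 7) (nat_lit 6))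
    (@En.i (nat_lit 6360) (nat_lit 9) (nat_lit 10))
    (@En.n l20257 (nat_lit 9565) (nat_lit 10) (nat_lit 11))
    (@En.i (nat_lit 7374) (nat_lit 10) (nat_lit 4))
    (@En.n l16451 (nat_lit 10149) (nat_lit 7) (nat_lit 5))
    (@En.n l457 (nat_lit 4385) (nat_lit 13) (nat_lit 9))
    (@En.n l24644 (nat_lit 9157) (nat_lit 14) (nat_lit 10))
    (@En.n l24645 (nat_lit 5465) (nat_lit 11) (nat_lit 12))
    (@En.n l3 (nat_lit 7524) (nat_lit 15) (nat_lit 2))))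
  (@Cl.mk (nat_lit 0x2000c000a000800050004000c000a0006000d0004000800030006000e000b) (nat_lit 0x175008503010031) (nat_lit 16) Lb.e (@T16.mk En
    (@En.n l68 (nat_lit 6292) (nat_lit 13) (nat_lit 11))
    (@En.n l1236 (nat_lit 11285) (nat_lit 1) (nat_lit 14))
    (@En.n l14187 (nat_lit 6294) (nat_lit 12) (nat_lit 6))
    (@En.n l14188 (nat_lit 7524) (nat_lit 3) (nat_lit 3))
    (@En.n l14189 (nat_lit 1287) (nat_lit 0) (nat_lit 8))
    (@En.n l4551 (nat_lit 7523) (nat_lit 5) (nat_lit 4))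
    (@En.n l8501 (nat_lit 7526) (nat_lit 7) (nat_lit 13))
    (@En.i (nat_lit 7516) (nat_lit 7) (nat_lit 6))
    (@En.n l14190 (nat_lit 6359) (nat_lit 9) (nat_lit 10))
    (@En.n l14191 (nat_lit 9385) (nat_lit 10) (nat_lit 12))
    (@En.n l12662 (nat_lit 7233) (nat_lit 10) (nat_lit 4))
    (@En.n l14190 (nat_lit 4327) (nat_lit 7) (nat_lit 5))
    (@En.n l14192 (nat_lit 2185) (nat_lit 13) (nat_lit 8))
    (@En.n l77 (nat_lit 9156) (nat_lit 14) (nat_lit 10))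
    (@En.n l12114 (nat_lit 5463) (nat_lit 11) (nat_lit 12))
    (@En.n l67 (nat_lit 7525) (nat_lit 15) (nat_lit 2))))
  (@Cl.mk (nat_lit 0x2000c0006000900050004000d000a000d000300070003000a0006000e000b) (nat_lit 0x1050085200070b1) (nat_lit 16) Lb.e (@T16.mk En
    (@En.n l217 (nat_lit 6298) (nat_lit 10) (nat_lit 11))
    (@En.n l12654 (nat_lit 11205) (nat_lit 1) (nat_lit 14))
    (@En.n l2900 (nat_lit 7525) (nat_lit 2) (nat_lit 6))
    (@En.n l2029 (nat_lit 7147) (nat_lit 3) (nat_lit 10))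
    (@En.n l13054 (nat_lit 7527) (nat_lit 4) (nat_lit 3))
    (@En.n l1982 (nat_lit 1286) (nat_lit 0) (nat_lit 7))
    (@En.n l5888 (nat_lit 7584) (nat_lit 6) (nat_lit 3))
    (@En.i (nat_lit 4850) (nat_lit 0) (nat_lit 13))
    (@En.n l2533 (nat_lit 6357) (nat_lit 9) (nat_lit 10))
    (@En.i (nat_lit 9867) (nat_lit 10) (nat_lit 13))
    (@En.n l763 (nat_lit 7228) (nat_lit 10) (nat_lit 4))
    (@En.i (nat_lit 10146) (nat_lit 6) (nat_lit 5))
    (@En.i (nat_lit 2250) (nat_lit 9) (nat_lit 9))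
    (@En.n l764 (nat_lit 7093) (nat_lit 14) (nat_lit 6))
    (@En.n l2026 (nat_lit 5477) (nat_lit 8) (nat_lit 12))
    (@En.n l50 (nat_lit 7526) (nat_lit 15) (nat_lit 2))))
  (@Cl.mk (nat_lit 0x2000c0006000a00050004000c000a000d000600040003000a0006000e000b) (nat_lit 0x1050025200060c1) (nat_lit 16) Lb.e (@T16.mk En
    (@En.n l10798 (nat_lit 6297) (nat_lit 12) (nat_lit 11))
    (@En.i (nat_lit 11203) (nat_lit 1) (nat_lit 14))
    (@En.n l23504 (nat_lit 7524) (nat_lit 2) (nat_lit 6))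
    (@En.n l6080 (nat_lit 7252) (nat_lit 3) (nat_lit 10))
    (@En.n l10800 (nat_lit 7526) (nat_lit 4) (nat_lit 3))
    (@En.n l18 (nat_lit 7501) (nat_lit 0) (nat_lit 4))
    (@En.n l6081 (nat_lit 7147) (nat_lit 6) (nat_lit 6))
    (@En.i (nat_lit 4843) (nat_lit 8) (nat_lit 13))
    (@En.n l61 (nat_lit 6358) (nat_lit 9) (nat_lit 10))
    (@En.n l28255 (nat_lit 9566) (nat_lit 10) (nat_lit 12))
    (@En.i (nat_lit 7223) (nat_lit 10) (nat_lit 4))
    (@En.n l8806 (nat_lit 10147) (nat_lit 6) (nat_lit 5))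
    (@En.n l8806 (nat_lit 4381) (nat_lit 13) (nat_lit 10))
    (@En.n l810 (nat_lit 7675) (nat_lit 14) (nat_lit 6))
    (@En.n l28256 (nat_lit 5486) (nat_lit 10) (nat_lit 12))
    (@En.n l11 (nat_lit 7527) (nat_lit 15) (nat_lit 2))))
  (@Cl.mk (nat_lit 0x20008000d0007000a00030009000c000900080006000400090007000e0007) (nat_lit 0x1b01018610060b0) (nat_lit 16) Lb.e (@T16.mk En
    (@En.n l17185 (nat_lit 7521) (nat_lit 5) (nat_lit 7))
    (@En.n l24430 (nat_lit 10966) (nat_lit 1) (nat_lit 14))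
    (@En.n l8520 (nat_lit 7498) (nat_lit 2) (nat_lit 7))
    (@En.n l10901 (nat_lit 7529) (nat_lit 3) (nat_lit 9))
    (@En.n l10305 (nat_lit 6306) (nat_lit 4) (nat_lit 4))
    (@En.i (nat_lit 8508) (nat_lit 5) (nat_lit 6))
    (@En.i (nat_lit 6328) (nat_lit 6) (nat_lit 8))
    (@En.n l24431 (nat_lit 11983) (nat_lit 8) (nat_lit 9))
    (@En.i (nat_lit 6905) (nat_lit 9) (nat_lit 12))
    (@En.n l175 (nat_lit 986) (nat_lit 10) (nat_lit 9))
    (@En.n l8517 (nat_lit 7492) (nat_lit 10) (nat_lit 3))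
    (@En.i (nat_lit 1811) (nat_lit 0) (nat_lit 10))
    (@En.n l13275 (nat_lit 6522) (nat_lit 13) (nat_lit 7))
    (@En.n l24432 (nat_lit 9593) (nat_lit 14) (nat_lit 13))
    (@En.n l24433 (nat_lit 6816) (nat_lit 3) (nat_lit 8))
    (@En.n l3 (nat_lit 7528) (nat_lit 15) (nat_lit 2))))
  (@Cl.mk (nat_lit 0x20007000c0007000c000a0004000a0004000a0009000600090006000e0006) (nat_lit 0x706201071050b0) (nat_lit 16) Lb.e (@T16.mk En
    (@En.n l4110 (nat_lit 7522) (nat_lit 6) (nat_lit 6))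
    (@En.n l2266 (nat_lit 10968) (nat_lit 1) (nat_lit 14))
    (@En.n l20029 (nat_lit 7530) (nat_lit 2) (nat_lit 6))
    (@En.i (nat_lit 6420) (nat_lit 9) (nat_lit 9))
    (@En.n l37757 (nat_lit 8282) (nat_lit 4) (nat_lit 6))
    (@En.i (nat_lit 6330) (nat_lit 5) (nat_lit 9))
    (@En.n l2583 (nat_lit 11985) (nat_lit 7) (nat_lit 10))
    (@En.n l117 (nat_lit 6352) (nat_lit 7) (nat_lit 4))
    (@En.n l9770 (nat_lit 979) (nat_lit 9) (nat_lit 10))
    (@En.n l12509 (nat_lit 5913) (nat_lit 9) (nat_lit 4))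
    (@En.n l24215 (nat_lit 7528) (nat_lit 11) (nat_lit 10))
    (@En.n l12503 (nat_lit 7498) (nat_lit 12) (nat_lit 12))
    (@En.n l26209 (nat_lit 6521) (nat_lit 13) (nat_lit 7))
    (@En.n l2583 (nat_lit 8993) (nat_lit 14) (nat_lit 12))
    (@En.i (nat_lit 6814) (nat_lit 13) (nat_lit 7))
    (@En.n l7 (nat_lit 7529) (nat_lit 15) (nat_lit 2))))
  (@Cl.mk (nat_lit 0x20006000c000b000b00090004000a00050005000b000a00070006000e0005) (nat_lit 0xa1220100810060) (nat_lit 16) Lb.e (@T16.mk En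
    (@En.n l34929 (nat_lit 2412) (nat_lit 6) (nat_lit 5))
    (@En.n l1063 (nat_lit 8516) (nat_lit 1) (nat_lit 14))
    (@En.n l34930 (nat_lit 775) (nat_lit 2) (nat_lit 6))
    (@En.n l34931 (nat_lit 8273) (nat_lit 3) (nat_lit 7))
    (@En.i (nat_lit 6335) (nat_lit 4) (nat_lit 10))
    (@En.n l32659 (nat_lit 11793) (nat_lit 6) (nat_lit 11))
    (@En.n l4487 (nat_lit 6421) (nat_lit 6) (nat_lit 5))
    (@En.n l992 (nat_lit 6340) (nat_lit 7) (nat_lit 5))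
    (@En.n l14808 (nat_lit 1257) (nat_lit 9) (nat_lit 10))
    (@En.n l13299 (nat_lit 6309) (nat_lit 9) (nat_lit 4))
    (@En.n l22520 (nat_lit 7498) (nat_lit 11) (nat_lit 9))
    (@En.n l10133 (nat_lit 7531) (nat_lit 12) (nat_lit 11))
    (@En.n l34932 (nat_lit 4429) (nat_lit 13) (nat_lit 11))
    (@En.n l699 (nat_lit 8994) (nat_lit 14) (nat_lit 12))
    (@En.n l17 (nat_lit 6711) (nat_lit 13) (nat_lit 6))
    (@En.n l18 (nat_lit 7530) (nat_lit 15) (nat_lit 2))))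
  (@Cl.mk (nat_lit 0x20006000d000b000800030009000e00050002000b000a00080007000e0005) (nat_lit 0xb1101200813060) (nat_lit 16) Lb.e (@T16.mk En
    (@En.n l117 (nat_lit 2411) (nat_lit 9) (nat_lit 5))
    (@En.n l8137 (nat_lit 8511) (nat_lit 1) (nat_lit 14))
    (@En.n l8429 (nat_lit 2418) (nat_lit 2) (nat_lit 7))
    (@En.n l6385 (nat_lit 7536) (nat_lit 13) (nat_lit 8))
    (@En.n l10214 (nat_lit 6429) (nat_lit 4) (nat_lit 10))
    (@En.n l24334 (nat_lit 11791) (nat_lit 6) (nat_lit 11))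
    (@En.n l17 (nat_lit 7531) (nat_lit 6) (nat_lit 2))
    (@En.n l24335 (nat_lit 7530) (nat_lit 7) (nat_lit 5))
    (@En.i (nat_lit 2668) (nat_lit 9) (nat_lit 14))
    (@En.n l1304 (nat_lit 614) (nat_lit 10) (nat_lit 9))
    (@En.n l50 (nat_lit 7532) (nat_lit 10) (nat_lit 3))
    (@En.n l1034 (nat_lit 1815) (nat_lit 12) (nat_lit 8))
    (@En.n l217 (nat_lit 4427) (nat_lit 13) (nat_lit 11))
    (@En.n l7619 (nat_lit 9264) (nat_lit 7) (nat_lit 13))
    (@En.n l17706 (nat_lit 6707) (nat_lit 7) (nat_lit 6))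
    (@En.n l11 (nat_lit 7531) (nat_lit 15) (nat_lit 2))))
  (@Cl.mk (nat_lit 0x20006000d0007000c00030009000e00040002000b000a00090007000e0005) (nat_lit 0xb0201400817070) (nat_lit 16) Lb.e (@T16.mk En
    (@En.n l117 (nat_lit 2413) (nat_lit 9) (nat_lit 5))
    (@En.n l4073 (nat_lit 8514) (nat_lit 1) (nat_lit 14))
    (@En.n l8429 (nat_lit 2381) (nat_lit 2) (nat_lit 7))
    (@En.n l77 (nat_lit 7535) (nat_lit 13) (nat_lit 9))
    (@En.n l2436 (nat_lit 6428) (nat_lit 4) (nat_lit 10))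
    (@En.n l936 (nat_lit 11792) (nat_lit 6) (nat_lit 11))
    (@En.n l17 (nat_lit 7532) (nat_lit 6) (nat_lit 2))
    (@En.n l3098 (nat_lit 6309) (nat_lit 7) (nat_lit 4))
    (@En.i (nat_lit 2669) (nat_lit 9) (nat_lit 14))
    (@En.n l2603 (nat_lit 1052) (nat_lit 10) (nat_lit 9))
    (@En.i (nat_lit 7531) (nat_lit 10) (nat_lit 3))
    (@En.n l4073 (nat_lit 6771) (nat_lit 12) (nat_lit 12))
    (@En.i (nat_lit 2981) (nat_lit 13) (nat_lit 7))
    (@En.n l7619 (nat_lit 9266) (nat_lit 7) (nat_lit 13))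
    (@En.n l17706 (nat_lit 6703) (nat_lit 7) (nat_lit 6))
    (@En.n l11 (nat_lit 7532) (nat_lit 15) (nat_lit 2))))
  (@Cl.mk (nat_lit 0x2000c0006000d000b00040003000a000e00050002000c000a0006000e0004) (nat_lit 0x40a2002600a0090) (nat_lit 16) Lb.e (@T16.mk En
    (@En.n l117 (nat_lit 4622) (nat_lit 10) (nat_lit 4))
    (@En.n l2691 (nat_lit 4065) (nat_lit 1) (nat_lit 14))
    (@En.n l936 (nat_lit 3429) (nat_lit 2) (nat_lit 6))
    (@En.i (nat_lit 8565) (nat_lit 14) (nat_lit 10))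
    (@En.n l936 (nat_lit 11827) (nat_lit 11) (nat_lit 12))
    (@En.n l17 (nat_lit 7533) (nat_lit 5) (nat_lit 2))
    (@En.n l3147 (nat_lit 7537) (nat_lit 6) (nat_lit 5))
    (@En.i (nat_lit 3776) (nat_lit 8) (nat_lit 14))
    (@En.n l1304 (nat_lit 7948) (nat_lit 2) (nat_lit 10))
    (@En.n l50 (nat_lit 7534) (nat_lit 3) (nat_lit 3))
    (@En.n l1034 (nat_lit 8270) (nat_lit 0) (nat_lit 4))
    (@En.n l217 (nat_lit 7540) (nat_lit 12) (nat_lit 11))
    (@En.i (nat_lit 2699) (nat_lit 7) (nat_lit 13))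
    (@En.i (nat_lit 7531) (nat_lit 14) (nat_lit 6))
    (@En.n l15991 (nat_lit 9449) (nat_lit 9) (nat_lit 12))
    (@En.n l11 (nat_lit 7533) (nat_lit 15) (nat_lit 2))))
  (@Cl.mk (nat_lit 0x2000c000a0006000e00040002000d0006000d0003000c0003000a000e0004) (nat_lit 0xa00600909030260) (nat_lit 16) Lb.e (@T16.mk En
    (@En.n l3098 (nat_lit 7538) (nat_lit 6) (nat_lit 4))
    (@En.i (nat_lit 3777) (nat_lit 8) (nat_lit 14))
    (@En.i (nat_lit 7306) (nat_lit 2) (nat_lit 10))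
    (@En.i (nat_lit 7533) (nat_lit 9) (nat_lit 3))
    (@En.i (nat_lit 8914) (nat_lit 11) (nat_lit 12))
    (@En.i (nat_lit 7535) (nat_lit 5) (nat_lit 3))
    (@En.i (nat_lit 2705) (nat_lit 0) (nat_lit 13))
    (@En.i (nat_lit 7532) (nat_lit 14) (nat_lit 6))
    (@En.n l15991 (nat_lit 9535) (nat_lit 9) (nat_lit 13))
    (@En.n l11 (nat_lit 7534) (nat_lit 9) (nat_lit 2))
    (@En.n l117 (nat_lit 4623) (nat_lit 10) (nat_lit 4))
    (@En.n l2691 (nat_lit 4066) (nat_lit 1) (nat_lit 14))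
    (@En.n l936 (nat_lit 3428) (nat_lit 13) (nat_lit 6))
    (@En.i (nat_lit 8564) (nat_lit 14) (nat_lit 10))
    (@En.n l936 (nat_lit 11826) (nat_lit 11) (nat_lit 12))
    (@En.n l17 (nat_lit 7534) (nat_lit 15) (nat_lit 2))))
  (@Cl.mk (nat_lit 0x2000c00090006000e00040002000d000c00070003000c0004000a000e0004) (nat_lit 0xa60600350030170) (nat_lit 16) Lb.e (@T16.mk En
    (@En.n l25347 (nat_lit 7539) (nat_lit 6) (nat_lit 4))
    (@En.i (nat_lit 3782) (nat_lit 8) (nat_lit 14))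
    (@En.n l128 (nat_lit 7307) (nat_lit 2) (nat_lit 10))
    (@En.n l7913 (nat_lit 7536) (nat_lit 3) (nat_lit 4))
    (@En.n l564 (nat_lit 10262) (nat_lit 11) (nat_lit 12))
    (@En.n l7 (nat_lit 7534) (nat_lit 5) (nat_lit 3))
    (@En.n l2211 (nat_lit 2980) (nat_lit 6) (nat_lit 7))
    (@En.n l644 (nat_lit 7533) (nat_lit 14) (nat_lit 12))
    (@En.n l15991 (nat_lit 9533) (nat_lit 9) (nat_lit 13))
    (@En.n l11 (nat_lit 7535) (nat_lit 9) (nat_lit 2))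
    (@En.n l117 (nat_lit 4624) (nat_lit 10) (nat_lit 4))
    (@En.n l4727 (nat_lit 4064) (nat_lit 1) (nat_lit 14))
    (@En.n l128 (nat_lit 3431) (nat_lit 13) (nat_lit 6))
    (@En.i (nat_lit 6895) (nat_lit 14) (nat_lit 9))
    (@En.n l936 (nat_lit 11796) (nat_lit 9) (nat_lit 12))
    (@En.n l17 (nat_lit 7535) (nat_lit 15) (nat_lit 2))))
noncomputable def a471 : T16 Cl := @T16.mk Cl
  (@Cl.mk (nat_lit 0x2000c00080006000e00040002000c000c000a000800040004000a000e0006) (nat_lit 0xa201005701008b0) (nat_lit 16) Lb.e (@T16.mk En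
    (@En.i (nat_lit 8273) (nat_lit 6) (nat_lit 6))
    (@En.i (nat_lit 2672) (nat_lit 8) (nat_lit 14))
    (@En.n l476 (nat_lit 9304) (nat_lit 2) (nat_lit 10))
    (@En.n l152 (nat_lit 8284) (nat_lit 12) (nat_lit 4))
    (@En.n l12617 (nat_lit 7533) (nat_lit 10) (nat_lit 4))
    (@En.n l13374 (nat_lit 810) (nat_lit 5) (nat_lit 8))
    (@En.n l813 (nat_lit 7541) (nat_lit 13) (nat_lit 10))
    (@En.n l17264 (nat_lit 8270) (nat_lit 4) (nat_lit 12))
    (@En.n l17265 (nat_lit 9301) (nat_lit 9) (nat_lit 12))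
    (@En.n l17 (nat_lit 7536) (nat_lit 9) (nat_lit 2))
    (@En.n l19015 (nat_lit 4626) (nat_lit 10) (nat_lit 4))
    (@En.n l998 (nat_lit 811) (nat_lit 1) (nat_lit 14))
    (@En.n l50 (nat_lit 3454) (nat_lit 2) (nat_lit 6))
    (@En.n l13374 (nat_lit 1189) (nat_lit 14) (nat_lit 8))
    (@En.n l9726 (nat_lit 9192) (nat_lit 5) (nat_lit 12))
    (@En.n l28 (nat_lit 7536) (nat_lit 15) (nat_lit 2))))
  (@Cl.mk (nat_lit 0x2000b0006000c000b000b00050004000b00050005000c000a0005000e0004) (nat_lit 0x502230040000050) (nat_lit 16) Lb.e (@T16.mk En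
    (@En.n l31324 (nat_lit 8670) (nat_lit 15) (nat_lit 4))
    (@En.n l34916 (nat_lit 6101) (nat_lit 1) (nat_lit 14))
    (@En.n l137 (nat_lit 4605) (nat_lit 2) (nat_lit 5))
    (@En.i (nat_lit 8534) (nat_lit 3) (nat_lit 10))
    (@En.n l34380 (nat_lit 11840) (nat_lit 5) (nat_lit 12))
    (@En.n l9272 (nat_lit 8663) (nat_lit 11) (nat_lit 5))
    (@En.n l3851 (nat_lit 8918) (nat_lit 6) (nat_lit 5))
    (@En.n l34917 (nat_lit 7949) (nat_lit 8) (nat_lit 11))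
    (@En.i (nat_lit 7538) (nat_lit 8) (nat_lit 4))
    (@En.n l34918 (nat_lit 8724) (nat_lit 9) (nat_lit 5))
    (@En.n l9279 (nat_lit 7533) (nat_lit 11) (nat_lit 11))
    (@En.n l3518 (nat_lit 8925) (nat_lit 12) (nat_lit 11))
    (@En.n l34919 (nat_lit 2703) (nat_lit 13) (nat_lit 12))
    (@En.n l23537 (nat_lit 7530) (nat_lit 14) (nat_lit 6))
    (@En.n l32427 (nat_lit 9452) (nat_lit 14) (nat_lit 11))
    (@En.n l7 (nat_lit 7537) (nat_lit 15) (nat_lit 2))))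
  (@Cl.mk (nat_lit 0x2000d0006000c0003000c000c0004000b00040004000c000a0005000e0004) (nat_lit 0x801034030000050) (nat_lit 16) Lb.e (@T16.mk En
    (@En.n l345 (nat_lit 8667) (nat_lit 4) (nat_lit 4))
    (@En.n l11218 (nat_lit 6100) (nat_lit 1) (nat_lit 14))
    (@En.n l4061 (nat_lit 7384) (nat_lit 2) (nat_lit 5))
    (@En.i (nat_lit 8532) (nat_lit 3) (nat_lit 10))
    (@En.n l4061 (nat_lit 9200) (nat_lit 9) (nat_lit 12))
    (@En.n l152 (nat_lit 8662) (nat_lit 12) (nat_lit 4))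
    (@En.n l3851 (nat_lit 7540) (nat_lit 6) (nat_lit 4))
    (@En.n l617 (nat_lit 7305) (nat_lit 8) (nat_lit 11))
    (@En.n l10832 (nat_lit 8926) (nat_lit 8) (nat_lit 4))
    (@En.n l3536 (nat_lit 7534) (nat_lit 4) (nat_lit 12))
    (@En.i (nat_lit 8917) (nat_lit 11) (nat_lit 12))
    (@En.n l137 (nat_lit 7539) (nat_lit 11) (nat_lit 3))
    (@En.i (nat_lit 2550) (nat_lit 0) (nat_lit 12))
    (@En.i (nat_lit 6309) (nat_lit 14) (nat_lit 6))
    (@En.n l19663 (nat_lit 9537) (nat_lit 2) (nat_lit 13))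
    (@En.n l7 (nat_lit 7538) (nat_lit 15) (nat_lit 2))))
  (@Cl.mk (nat_lit 0x2000d000b00070003000c000c0005000b00040004000c00090005000e0004) (nat_lit 0x460034030095050) (nat_lit 16) Lb.e (@T16.mk En
    (@En.n l15516 (nat_lit 8672) (nat_lit 4) (nat_lit 4))
    (@En.n l19804 (nat_lit 6001) (nat_lit 1) (nat_lit 14))
    (@En.i (nat_lit 7407) (nat_lit 2) (nat_lit 5))
    (@En.n l681 (nat_lit 7916) (nat_lit 3) (nat_lit 9))
    (@En.n l8340 (nat_lit 9199) (nat_lit 9) (nat_lit 12))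
    (@En.n l5338 (nat_lit 7413) (nat_lit 12) (nat_lit 4))
    (@En.i (nat_lit 7541) (nat_lit 6) (nat_lit 4))
    (@En.n l8012 (nat_lit 7308) (nat_lit 8) (nat_lit 11))
    (@En.n l8340 (nat_lit 9390) (nat_lit 8) (nat_lit 5))
    (@En.n l19805 (nat_lit 7535) (nat_lit 4) (nat_lit 12))
    (@En.n l8019 (nat_lit 10270) (nat_lit 11) (nat_lit 12))
    (@En.n l146 (nat_lit 7538) (nat_lit 11) (nat_lit 3))
    (@En.n l19806 (nat_lit 2985) (nat_lit 0) (nat_lit 7))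
    (@En.n l681 (nat_lit 7537) (nat_lit 14) (nat_lit 11))
    (@En.n l19807 (nat_lit 7358) (nat_lit 2) (nat_lit 13))
    (@En.n l17 (nat_lit 7539) (nat_lit 15) (nat_lit 2))))
  (@Cl.mk (nat_lit 0x2000d0006000b0003000c0009000d000500040003000c000a0007000e0004) (nat_lit 0x501007600000070) (nat_lit 16) Lb.e (@T16.mk En
    (@En.n l117 (nat_lit 10230) (nat_lit 4) (nat_lit 4))
    (@En.n l2691 (nat_lit 6102) (nat_lit 1) (nat_lit 14))
    (@En.n l936 (nat_lit 7431) (nat_lit 2) (nat_lit 7))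
    (@En.i (nat_lit 9742) (nat_lit 3) (nat_lit 10))
    (@En.n l936 (nat_lit 9206) (nat_lit 9) (nat_lit 12))
    (@En.n l10758 (nat_lit 8927) (nat_lit 5) (nat_lit 3))
    (@En.n l18 (nat_lit 7534) (nat_lit 0) (nat_lit 4))
    (@En.n l6081 (nat_lit 8925) (nat_lit 7) (nat_lit 5))
    (@En.i (nat_lit 3644) (nat_lit 9) (nat_lit 13))
    (@En.n l61 (nat_lit 10258) (nat_lit 10) (nat_lit 9))
    (@En.i (nat_lit 8916) (nat_lit 11) (nat_lit 12))
    (@En.n l25347 (nat_lit 7541) (nat_lit 11) (nat_lit 3))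
    (@En.n l10756 (nat_lit 6860) (nat_lit 0) (nat_lit 11))
    (@En.i (nat_lit 4427) (nat_lit 14) (nat_lit 6))
    (@En.n l614 (nat_lit 9539) (nat_lit 2) (nat_lit 13))
    (@En.n l11 (nat_lit 7540) (nat_lit 15) (nat_lit 2))))
  (@Cl.mk (nat_lit 0x2000d000a00070003000c0009000d000600040003000c00090007000e0004) (nat_lit 0x4800276000070b0) (nat_lit 16) Lb.e (@T16.mk En
    (@En.n l15516 (nat_lit 10231) (nat_lit 4) (nat_lit 4))
    (@En.n l19804 (nat_lit 6106) (nat_lit 1) (nat_lit 14))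
    (@En.i (nat_lit 7430) (nat_lit 2) (nat_lit 7))
    (@En.n l35544 (nat_lit 7163) (nat_lit 3) (nat_lit 9))
    (@En.n l11008 (nat_lit 9207) (nat_lit 9) (nat_lit 12))
    (@En.n l4147 (nat_lit 10224) (nat_lit 5) (nat_lit 3))
    (@En.n l30577 (nat_lit 7535) (nat_lit 0) (nat_lit 4))
    (@En.n l8340 (nat_lit 9391) (nat_lit 7) (nat_lit 6))
    (@En.n l35544 (nat_lit 3645) (nat_lit 9) (nat_lit 13))
    (@En.n l6562 (nat_lit 10259) (nat_lit 10) (nat_lit 9))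
    (@En.n l135 (nat_lit 10263) (nat_lit 11) (nat_lit 12))
    (@En.n l35545 (nat_lit 7540) (nat_lit 11) (nat_lit 3))
    (@En.n l35546 (nat_lit 2991) (nat_lit 0) (nat_lit 7))
    (@En.n l35544 (nat_lit 8918) (nat_lit 14) (nat_lit 10))
    (@En.n l4883 (nat_lit 9540) (nat_lit 2) (nat_lit 13))
    (@En.n l17 (nat_lit 7541) (nat_lit 15) (nat_lit 2))))
  (@Cl.mk (nat_lit 0x20006000c00090008000c0004000a000900040007000a00080006000e0007) (nat_lit 0x67140710024040) (nat_lit 16) Lb.e (@T16.mk En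
    (@En.n l33635 (nat_lit 6532) (nat_lit 6) (nat_lit 7))
    (@En.n l601 (nat_lit 5281) (nat_lit 1) (nat_lit 14))
    (@En.n l7407 (nat_lit 10757) (nat_lit 2) (nat_lit 6))
    (@En.n l25719 (nat_lit 5602) (nat_lit 3) (nat_lit 8))
    (@En.i (nat_lit 7472) (nat_lit 4) (nat_lit 10))
    (@En.n l1718 (nat_lit 6007) (nat_lit 11) (nat_lit 7))
    (@En.n l18024 (nat_lit 7547) (nat_lit 6) (nat_lit 4))
    (@En.n l77 (nat_lit 5535) (nat_lit 7) (nat_lit 9))
    (@En.n l7490 (nat_lit 12227) (nat_lit 9) (nat_lit 10))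
    (@En.n l33636 (nat_lit 7177) (nat_lit 9) (nat_lit 4))
    (@En.n l10038 (nat_lit 5804) (nat_lit 11) (nat_lit 12))
    (@En.n l7257 (nat_lit 5800) (nat_lit 12) (nat_lit 8))
    (@En.n l2642 (nat_lit 7544) (nat_lit 13) (nat_lit 9))
    (@En.n l25722 (nat_lit 7436) (nat_lit 14) (nat_lit 12))
    (@En.n l13788 (nat_lit 10509) (nat_lit 13) (nat_lit 6))
    (@En.n l50 (nat_lit 7542) (nat_lit 15) (nat_lit 2))))
  (@Cl.mk (nat_lit 0x200060009000c000a000800070004000c00070006000a00040008000e0009) (nat_lit 0x52650030040612) (nat_lit 16) Lb.e (@T16.mk En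
    (@En.n l50 (nat_lit 6532) (nat_lit 13) (nat_lit 9))
    (@En.n l25241 (nat_lit 5417) (nat_lit 1) (nat_lit 14))
    (@En.n l17691 (nat_lit 11733) (nat_lit 2) (nat_lit 8))
    (@En.n l16425 (nat_lit 7186) (nat_lit 3) (nat_lit 4))
    (@En.n l30931 (nat_lit 5804) (nat_lit 4) (nat_lit 10))
    (@En.i (nat_lit 5803) (nat_lit 5) (nat_lit 6))
    (@En.n l30932 (nat_lit 7544) (nat_lit 6) (nat_lit 7))
    (@En.n l30933 (nat_lit 6535) (nat_lit 8) (nat_lit 12))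
    (@En.n l28095 (nat_lit 7546) (nat_lit 8) (nat_lit 4))
    (@En.i (nat_lit 5536) (nat_lit 9) (nat_lit 7))
    (@En.n l10578 (nat_lit 12225) (nat_lit 11) (nat_lit 8))
    (@En.n l30934 (nat_lit 5296) (nat_lit 12) (nat_lit 10))
    (@En.n l3866 (nat_lit 7668) (nat_lit 13) (nat_lit 12))
    (@En.n l30935 (nat_lit 6948) (nat_lit 9) (nat_lit 9))
    (@En.n l5368 (nat_lit 10504) (nat_lit 13) (nat_lit 6))
    (@En.n l18 (nat_lit 7543) (nat_lit 15) (nat_lit 2))))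
  (@Cl.mk (nat_lit 0x2000600090007000c000b00090008000400070005000a00090007000e0008) (nat_lit 0x60346600035051) (nat_lit 16) Lb.e (@T16.mk En
    (@En.n l12951 (nat_lit 76) (nat_lit 1) (nat_lit 8))
    (@En.n l134 (nat_lit 5283) (nat_lit 1) (nat_lit 14))
    (@En.n l14752 (nat_lit 11735) (nat_lit 2) (nat_lit 7))
    (@En.n l217 (nat_lit 6546) (nat_lit 3) (nat_lit 9))
    (@En.n l899 (nat_lit 7542) (nat_lit 4) (nat_lit 10))
    (@En.i (nat_lit 7176) (nat_lit 5) (nat_lit 5))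
    (@En.i (nat_lit 6009) (nat_lit 6) (nat_lit 7))
    (@En.n l7630 (nat_lit 7545) (nat_lit 7) (nat_lit 4))
    (@En.n l55 (nat_lit 5531) (nat_lit 8) (nat_lit 8))
    (@En.n l619 (nat_lit 12226) (nat_lit 10) (nat_lit 9))
    (@En.n l3866 (nat_lit 5289) (nat_lit 11) (nat_lit 11))
    (@En.n l26178 (nat_lit 7543) (nat_lit 12) (nat_lit 12))
    (@En.n l9155 (nat_lit 7187) (nat_lit 13) (nat_lit 7))
    (@En.n l7889 (nat_lit 6950) (nat_lit 14) (nat_lit 9))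
    (@En.n l5934 (nat_lit 11865) (nat_lit 13) (nat_lit 6))
    (@En.n l7 (nat_lit 7544) (nat_lit 15) (nat_lit 2))))
  (@Cl.mk (nat_lit 0x2000600090007000c0006000c000a000400070004000a00090006000e000a) (nat_lit 0x60402300060050) (nat_lit 16) Lb.e (@T16.mk En
    (@En.n l39299 (nat_lit 7555) (nat_lit 11) (nat_lit 10))
    (@En.n l23078 (nat_lit 9628) (nat_lit 1) (nat_lit 14))
    (@En.n l39300 (nat_lit 5236) (nat_lit 2) (nat_lit 6))
    (@En.n l217 (nat_lit 11619) (nat_lit 3) (nat_lit 9))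
    (@En.n l39301 (nat_lit 7547) (nat_lit 4) (nat_lit 10))
    (@En.n l31141 (nat_lit 10859) (nat_lit 5) (nat_lit 4))
    (@En.n l32730 (nat_lit 8176) (nat_lit 6) (nat_lit 7))
    (@En.n l23061 (nat_lit 5290) (nat_lit 7) (nat_lit 4))
    (@En.n l39302 (nat_lit 12228) (nat_lit 9) (nat_lit 10))
    (@En.i (nat_lit 4428) (nat_lit 10) (nat_lit 12))
    (@En.n l20299 (nat_lit 10713) (nat_lit 11) (nat_lit 6))
    (@En.n l39303 (nat_lit 7546) (nat_lit 12) (nat_lit 12))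
    (@En.n l39304 (nat_lit 12515) (nat_lit 13) (nat_lit 7))
    (@En.n l19537 (nat_lit 8946) (nat_lit 14) (nat_lit 9))
    (@En.n l39305 (nat_lit 8772) (nat_lit 13) (nat_lit 6))
    (@En.n l7 (nat_lit 7545) (nat_lit 15) (nat_lit 2))))
  (@Cl.mk (nat_lit 0x200060009000c0005000b00090004000c00070005000a00040007000e000b) (nat_lit 0x53013050070020) (nat_lit 16) Lb.e (@T16.mk En
    (@En.n l766 (nat_lit 7554) (nat_lit 13) (nat_lit 11))
    (@En.n l14505 (nat_lit 8829) (nat_lit 1) (nat_lit 14))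
    (@En.n l18 (nat_lit 5235) (nat_lit 2) (nat_lit 7))
    (@En.n l3348 (nat_lit 12522) (nat_lit 3) (nat_lit 4))
    (@En.n l9062 (nat_lit 7548) (nat_lit 4) (nat_lit 10))
    (@En.n l12285 (nat_lit 10856) (nat_lit 5) (nat_lit 5))
    (@En.n l35780 (nat_lit 7545) (nat_lit 6) (nat_lit 7))
    (@En.i (nat_lit 7549) (nat_lit 8) (nat_lit 12))
    (@En.n l12579 (nat_lit 5292) (nat_lit 8) (nat_lit 4))
    (@En.i (nat_lit 12229) (nat_lit 10) (nat_lit 9))
    (@En.n l12281 (nat_lit 4432) (nat_lit 11) (nat_lit 11))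
    (@En.i (nat_lit 10715) (nat_lit 12) (nat_lit 5))
    (@En.i (nat_lit 7671) (nat_lit 6) (nat_lit 12))
    (@En.n l12281 (nat_lit 8945) (nat_lit 9) (nat_lit 9))
    (@En.i (nat_lit 8771) (nat_lit 13) (nat_lit 6))
    (@En.n l3 (nat_lit 7546) (nat_lit 15) (nat_lit 2))))
  (@Cl.mk (nat_lit 0x20006000b00090008000c00070005000b00040007000a00080005000e0009) (nat_lit 0x47050030050060) (nat_lit 16) Lb.e (@T16.mk En
    (@En.i (nat_lit 7553) (nat_lit 10) (nat_lit 9))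
    (@En.i (nat_lit 8827) (nat_lit 1) (nat_lit 14))
    (@En.n l24638 (nat_lit 4642) (nat_lit 2) (nat_lit 5))
    (@En.n l15110 (nat_lit 8045) (nat_lit 3) (nat_lit 8))
    (@En.n l11065 (nat_lit 5791) (nat_lit 4) (nat_lit 10))
    (@En.n l31035 (nat_lit 8175) (nat_lit 5) (nat_lit 7))
    (@En.n l31036 (nat_lit 5291) (nat_lit 6) (nat_lit 4))
    (@En.n l287 (nat_lit 9333) (nat_lit 8) (nat_lit 11))
    (@En.n l11 (nat_lit 11217) (nat_lit 8) (nat_lit 5))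
    (@En.i (nat_lit 10712) (nat_lit 10) (nat_lit 7))
    (@En.n l50 (nat_lit 7548) (nat_lit 11) (nat_lit 12))
    (@En.n l16078 (nat_lit 7551) (nat_lit 12) (nat_lit 8))
    (@En.n l31037 (nat_lit 7545) (nat_lit 13) (nat_lit 9))
    (@En.n l725 (nat_lit 7910) (nat_lit 14) (nat_lit 11))
    (@En.i (nat_lit 8794) (nat_lit 13) (nat_lit 6))
    (@En.n l3 (nat_lit 7547) (nat_lit 15) (nat_lit 2))))
  (@Cl.mk (nat_lit 0x20006000c0009000c00060004000a0004000d0007000a00030006000e000a) (nat_lit 0x46400306060070) (nat_lit 16) Lb.e (@T16.mk En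
    (@En.i (nat_lit 7552) (nat_lit 13) (nat_lit 10))
    (@En.i (nat_lit 8819) (nat_lit 1) (nat_lit 14))
    (@En.i (nat_lit 5277) (nat_lit 2) (nat_lit 6))
    (@En.n l2943 (nat_lit 7551) (nat_lit 3) (nat_lit 3))
    (@En.i (nat_lit 5786) (nat_lit 0) (nat_lit 10))
    (@En.i (nat_lit 7547) (nat_lit 5) (nat_lit 7))
    (@En.i (nat_lit 7550) (nat_lit 7) (nat_lit 13))
    (@En.n l11 (nat_lit 5293) (nat_lit 7) (nat_lit 4))
    (@En.n l287 (nat_lit 11679) (nat_lit 9) (nat_lit 10))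
    (@En.n l11 (nat_lit 11214) (nat_lit 9) (nat_lit 4))
    (@En.i (nat_lit 10714) (nat_lit 6) (nat_lit 6))
    (@En.i (nat_lit 6979) (nat_lit 12) (nat_lit 12))
    (@En.n l4780 (nat_lit 7546) (nat_lit 13) (nat_lit 9))
    (@En.n l725 (nat_lit 7909) (nat_lit 14) (nat_lit 12))
    (@En.i (nat_lit 8798) (nat_lit 13) (nat_lit 6))
    (@En.n l3 (nat_lit 7548) (nat_lit 15) (nat_lit 2))))
  (@Cl.mk (nat_lit 0x20007000a00070005000c0009000c000600040009000400090007000e000b) (nat_lit 0x60023400601030) (nat_lit 16) Lb.e (@T16.mk En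
    (@En.n l24093 (nat_lit 10860) (nat_lit 10) (nat_lit 11))
    (@En.n l24094 (nat_lit 6486) (nat_lit 1) (nat_lit 14))
    (@En.n l28 (nat_lit 7546) (nat_lit 2) (nat_lit 7))
    (@En.n l24095 (nat_lit 7545) (nat_lit 3) (nat_lit 9))
    (@En.n l24096 (nat_lit 12521) (nat_lit 4) (nat_lit 4))
    (@En.n l9062 (nat_lit 7550) (nat_lit 5) (nat_lit 9))
    (@En.n l12285 (nat_lit 10854) (nat_lit 6) (nat_lit 4))
    (@En.n l24097 (nat_lit 8179) (nat_lit 7) (nat_lit 6))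
    (@En.n l24098 (nat_lit 3947) (nat_lit 9) (nat_lit 12))
    (@En.i (nat_lit 12230) (nat_lit 10) (nat_lit 9))
    (@En.n l24095 (nat_lit 6352) (nat_lit 11) (nat_lit 12))
    (@En.n l24098 (nat_lit 10717) (nat_lit 12) (nat_lit 5))
    (@En.n l9055 (nat_lit 10249) (nat_lit 13) (nat_lit 7))
    (@En.n l12281 (nat_lit 8944) (nat_lit 8) (nat_lit 10))
    (@En.n l24099 (nat_lit 9698) (nat_lit 7) (nat_lit 7))
    (@En.n l3 (nat_lit 7549) (nat_lit 15) (nat_lit 2))))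
  (@Cl.mk (nat_lit 0x20007000c000a000800060004000a000d00060009000300080006000e000a) (nat_lit 0x17500250501070) (nat_lit 16) Lb.e (@T16.mk En
    (@En.i (nat_lit 10861) (nat_lit 12) (nat_lit 10))
    (@En.n l16121 (nat_lit 6487) (nat_lit 1) (nat_lit 14))
    (@En.n l7 (nat_lit 7548) (nat_lit 2) (nat_lit 6))
    (@En.n l644 (nat_lit 7547) (nat_lit 3) (nat_lit 8))
    (@En.n l2355 (nat_lit 11672) (nat_lit 4) (nat_lit 3))
    (@En.n l11066 (nat_lit 5787) (nat_lit 0) (nat_lit 9))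
    (@En.n l7 (nat_lit 8178) (nat_lit 6) (nat_lit 6))
    (@En.n l6238 (nat_lit 3946) (nat_lit 8) (nat_lit 13))
    (@En.n l287 (nat_lit 11676) (nat_lit 9) (nat_lit 10))
    (@En.n l11 (nat_lit 11213) (nat_lit 9) (nat_lit 4))
    (@En.n l6238 (nat_lit 10716) (nat_lit 11) (nat_lit 6))
    (@En.n l396 (nat_lit 7597) (nat_lit 12) (nat_lit 8))
    (@En.n l4780 (nat_lit 7549) (nat_lit 13) (nat_lit 10))
    (@En.n l16122 (nat_lit 7163) (nat_lit 14) (nat_lit 12))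
    (@En.i (nat_lit 8799) (nat_lit 10) (nat_lit 7))
    (@En.n l3 (nat_lit 7550) (nat_lit 15) (nat_lit 2))))
  (@Cl.mk (nat_lit 0x20007000c0008000c00060004000a0004000d0009000800030006000e000a) (nat_lit 0x46700306400070) (nat_lit 16) Lb.e (@T16.mk En
    (@En.n l39289 (nat_lit 10868) (nat_lit 13) (nat_lit 10))
    (@En.n l2125 (nat_lit 9350) (nat_lit 1) (nat_lit 14))
    (@En.i (nat_lit 7999) (nat_lit 2) (nat_lit 6))
    (@En.n l20805 (nat_lit 7548) (nat_lit 3) (nat_lit 3))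
    (@En.n l4758 (nat_lit 11662) (nat_lit 0) (nat_lit 8))
    (@En.n l8631 (nat_lit 11622) (nat_lit 5) (nat_lit 9))
    (@En.n l24658 (nat_lit 11672) (nat_lit 7) (nat_lit 13))
    (@En.n l24724 (nat_lit 5294) (nat_lit 7) (nat_lit 4))
    (@En.n l9657 (nat_lit 11675) (nat_lit 9) (nat_lit 10))
    (@En.i (nat_lit 11212) (nat_lit 9) (nat_lit 4))
    (@En.i (nat_lit 10830) (nat_lit 6) (nat_lit 6))
    (@En.n l8631 (nat_lit 6974) (nat_lit 12) (nat_lit 12))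
    (@En.n l9657 (nat_lit 12522) (nat_lit 13) (nat_lit 8))
    (@En.n l476 (nat_lit 7908) (nat_lit 14) (nat_lit 12))
    (@En.i (nat_lit 9473) (nat_lit 11) (nat_lit 7))
    (@En.n l28 (nat_lit 7551) (nat_lit 15) (nat_lit 2))))
noncomputable def a472 : T16 Cl := @T16.mk Cl
  (@Cl.mk (nat_lit 0x30006000a000a0005000b0008000b000600060005000a0005000d0008000b) (nat_lit 0x80016600040737) (nat_lit 16) Lb.e (@T16.mk En
    (@En.n l11070 (nat_lit 5784) (nat_lit 0) (nat_lit 11))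
    (@En.i (nat_lit 7553) (nat_lit 14) (nat_lit 8))
    (@En.i (nat_lit 10861) (nat_lit 2) (nat_lit 13))
    (@En.n l3107 (nat_lit 5167) (nat_lit 3) (nat_lit 5))
    (@En.n l14270 (nat_lit 11799) (nat_lit 4) (nat_lit 10))
    (@En.n l3535 (nat_lit 11758) (nat_lit 5) (nat_lit 5))
    (@En.n l152 (nat_lit 7548) (nat_lit 10) (nat_lit 6))
    (@En.i (nat_lit 10834) (nat_lit 7) (nat_lit 6))
    (@En.i (nat_lit 7250) (nat_lit 7) (nat_lit 11))
    (@En.n l39027 (nat_lit 7554) (nat_lit 10) (nat_lit 8))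
    (@En.n l725 (nat_lit 6666) (nat_lit 11) (nat_lit 11))
    (@En.i (nat_lit 9843) (nat_lit 12) (nat_lit 5))
    (@En.n l3536 (nat_lit 10866) (nat_lit 6) (nat_lit 10))
    (@En.n l14271 (nat_lit 9076) (nat_lit 9) (nat_lit 10))
    (@En.i (nat_lit 5278) (nat_lit 12) (nat_lit 6))
    (@En.n l38860 (nat_lit 10868) (nat_lit 15) (nat_lit 3))))
  (@Cl.mk (nat_lit 0x50008000b00090005000900090005000a00080007000b000700070006000b) (nat_lit 0x260070016070004) (nat_lit 16) Lb.e (@T16.mk En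
    (@En.n l14270 (nat_lit 11801) (nat_lit 0) (nat_lit 11))
    (@En.n l3535 (nat_lit 11759) (nat_lit 10) (nat_lit 6))
    (@En.n l152 (nat_lit 7547) (nat_lit 9) (nat_lit 7))
    (@En.n l39707 (nat_lit 10405) (nat_lit 7) (nat_lit 7))
    (@En.n l50 (nat_lit 7552) (nat_lit 8) (nat_lit 11))
    (@En.n l41646 (nat_lit 10868) (nat_lit 9) (nat_lit 7))
    (@En.n l41647 (nat_lit 7555) (nat_lit 8) (nat_lit 8))
    (@En.n l725 (nat_lit 6668) (nat_lit 10) (nat_lit 10))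
    (@En.n l41648 (nat_lit 9842) (nat_lit 8) (nat_lit 5))
    (@En.n l3536 (nat_lit 10869) (nat_lit 7) (nat_lit 9))
    (@En.n l41649 (nat_lit 9077) (nat_lit 10) (nat_lit 9))
    (@En.n l26817 (nat_lit 5265) (nat_lit 2) (nat_lit 5))
    (@En.n l41650 (nat_lit 11661) (nat_lit 0) (nat_lit 9))
    (@En.n l26817 (nat_lit 11326) (nat_lit 7) (nat_lit 11))
    (@En.n l41651 (nat_lit 5268) (nat_lit 10) (nat_lit 8))
    (@En.n l31019 (nat_lit 3159) (nat_lit 15) (nat_lit 5))))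
  (@Cl.mk (nat_lit 0x40007000b000b00050008000b00050005000b00090005000c00080005000b) (nat_lit 0x90053004307408) (nat_lit 16) Lb.e (@T16.mk En
    (@En.n l698 (nat_lit 7552) (nat_lit 0) (nat_lit 11))
    (@En.n l28331 (nat_lit 10852) (nat_lit 1) (nat_lit 5))
    (@En.n l39003 (nat_lit 7555) (nat_lit 0) (nat_lit 8))
    (@En.n l43589 (nat_lit 10860) (nat_lit 1) (nat_lit 12))
    (@En.n l28332 (nat_lit 5170) (nat_lit 4) (nat_lit 5))
    (@En.n l287 (nat_lit 10759) (nat_lit 5) (nat_lit 9))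
    (@En.n l43590 (nat_lit 8563) (nat_lit 1) (nat_lit 11))
    (@En.n l5761 (nat_lit 7546) (nat_lit 11) (nat_lit 5))
    (@En.n l43591 (nat_lit 10833) (nat_lit 8) (nat_lit 5))
    (@En.i (nat_lit 7674) (nat_lit 7) (nat_lit 11))
    (@En.n l43592 (nat_lit 8899) (nat_lit 10) (nat_lit 8))
    (@En.n l43593 (nat_lit 9844) (nat_lit 2) (nat_lit 5))
    (@En.n l28337 (nat_lit 10870) (nat_lit 5) (nat_lit 11))
    (@En.n l10228 (nat_lit 9074) (nat_lit 8) (nat_lit 11))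
    (@En.n l28338 (nat_lit 5244) (nat_lit 11) (nat_lit 7))
    (@En.n l28335 (nat_lit 10992) (nat_lit 15) (nat_lit 4))))
  (@Cl.mk (nat_lit 0x4000b000a0006000a000a000500080006000b00060006000c000a00050008) (nat_lit 0x700800504003403) (nat_lit 16) Lb.e (@T16.mk En
    (@En.n l7889 (nat_lit 8181) (nat_lit 10) (nat_lit 8))
    (@En.n l5592 (nat_lit 5172) (nat_lit 1) (nat_lit 5))
    (@En.n l41746 (nat_lit 11802) (nat_lit 0) (nat_lit 10))
    (@En.n l14752 (nat_lit 10961) (nat_lit 1) (nat_lit 12))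
    (@En.n l41747 (nat_lit 7545) (nat_lit 10) (nat_lit 6))
    (@En.i (nat_lit 10406) (nat_lit 5) (nat_lit 6))
    (@En.n l27389 (nat_lit 7554) (nat_lit 9) (nat_lit 11))
    (@En.n l6826 (nat_lit 10997) (nat_lit 10) (nat_lit 6))
    (@En.n l23891 (nat_lit 8948) (nat_lit 10) (nat_lit 8))
    (@En.n l1055 (nat_lit 9846) (nat_lit 9) (nat_lit 5))
    (@En.n l55 (nat_lit 10871) (nat_lit 6) (nat_lit 10))
    (@En.i (nat_lit 9078) (nat_lit 9) (nat_lit 10))
    (@En.n l41748 (nat_lit 5239) (nat_lit 2) (nat_lit 6))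
    (@En.n l16898 (nat_lit 11442) (nat_lit 6) (nat_lit 10))
    (@En.n l41749 (nat_lit 7553) (nat_lit 13) (nat_lit 11))
    (@En.n l41750 (nat_lit 10858) (nat_lit 15) (nat_lit 4))))
  (@Cl.mk (nat_lit 0x20008000c0006000c00090004000c00040008000b00040007000a000e0005) (nat_lit 0x140830706100220) (nat_lit 16) Lb.e (@T16.mk En
    (@En.n l8898 (nat_lit 6556) (nat_lit 8) (nat_lit 5))
    (@En.n l2642 (nat_lit 7450) (nat_lit 1) (nat_lit 14))
    (@En.i (nat_lit 5984) (nat_lit 8) (nat_lit 10))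
    (@En.n l1081 (nat_lit 7453) (nat_lit 11) (nat_lit 7))
    (@En.i (nat_lit 9632) (nat_lit 4) (nat_lit 4))
    (@En.i (nat_lit 5525) (nat_lit 7) (nat_lit 11))
    (@En.n l3328 (nat_lit 2580) (nat_lit 6) (nat_lit 8))
    (@En.n l117 (nat_lit 7792) (nat_lit 7) (nat_lit 4))
    (@En.n l617 (nat_lit 6552) (nat_lit 9) (nat_lit 12))
    (@En.n l17 (nat_lit 7559) (nat_lit 9) (nat_lit 4))
    (@En.n l2642 (nat_lit 6634) (nat_lit 11) (nat_lit 9))
    (@En.n l4817 (nat_lit 3127) (nat_lit 12) (nat_lit 12))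
    (@En.i (nat_lit 5281) (nat_lit 13) (nat_lit 6))
    (@En.n l1203 (nat_lit 12634) (nat_lit 14) (nat_lit 12))
    (@En.n l5934 (nat_lit 6556) (nat_lit 6) (nat_lit 8))
    (@En.n l7 (nat_lit 7556) (nat_lit 15) (nat_lit 2))))
  (@Cl.mk (nat_lit 0x200060009000c00050008000c0004000c00070004000a00040008000e000b) (nat_lit 0x62063060070689) (nat_lit 16) Lb.e (@T16.mk En
    (@En.i (nat_lit 6556) (nat_lit 13) (nat_lit 11))
    (@En.n l134 (nat_lit 6585) (nat_lit 1) (nat_lit 14))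
    (@En.n l3328 (nat_lit 2576) (nat_lit 2) (nat_lit 8))
    (@En.n l117 (nat_lit 7790) (nat_lit 3) (nat_lit 4))
    (@En.n l617 (nat_lit 6554) (nat_lit 4) (nat_lit 10))
    (@En.n l3480 (nat_lit 7560) (nat_lit 5) (nat_lit 4))
    (@En.n l2642 (nat_lit 6636) (nat_lit 6) (nat_lit 7))
    (@En.n l5646 (nat_lit 3123) (nat_lit 8) (nat_lit 12))
    (@En.n l6081 (nat_lit 4933) (nat_lit 8) (nat_lit 4))
    (@En.n l5798 (nat_lit 12350) (nat_lit 10) (nat_lit 12))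
    (@En.i (nat_lit 13791) (nat_lit 10) (nat_lit 8))
    (@En.i (nat_lit 10027) (nat_lit 12) (nat_lit 5))
    (@En.i (nat_lit 5983) (nat_lit 6) (nat_lit 12))
    (@En.n l1081 (nat_lit 7504) (nat_lit 9) (nat_lit 9))
    (@En.i (nat_lit 10658) (nat_lit 13) (nat_lit 6))
    (@En.n l7 (nat_lit 7557) (nat_lit 15) (nat_lit 2))))
  (@Cl.mk (nat_lit 0x30008000b000b0005000a000a000500050008000c00060006000d0004000b) (nat_lit 0x182042000400305) (nat_lit 16) Lb.e (@T16.mk En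
    (@En.n l2213 (nat_lit 5256) (nat_lit 0) (nat_lit 11))
    (@En.n l19379 (nat_lit 7256) (nat_lit 15) (nat_lit 4))
    (@En.n l38556 (nat_lit 3119) (nat_lit 0) (nat_lit 13))
    (@En.n l152 (nat_lit 5367) (nat_lit 10) (nat_lit 6))
    (@En.n l3851 (nat_lit 2095) (nat_lit 4) (nat_lit 6))
    (@En.n l38557 (nat_lit 12451) (nat_lit 7) (nat_lit 12))
    (@En.n l50 (nat_lit 7560) (nat_lit 10) (nat_lit 8))
    (@En.n l217 (nat_lit 7560) (nat_lit 11) (nat_lit 5))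
    (@En.i (nat_lit 10595) (nat_lit 8) (nat_lit 5))
    (@En.n l3536 (nat_lit 7261) (nat_lit 6) (nat_lit 10))
    (@En.n l14271 (nat_lit 7602) (nat_lit 11) (nat_lit 10))
    (@En.i (nat_lit 11977) (nat_lit 2) (nat_lit 5))
    (@En.n l38558 (nat_lit 7559) (nat_lit 5) (nat_lit 11))
    (@En.n l38559 (nat_lit 5601) (nat_lit 7) (nat_lit 11))
    (@En.n l766 (nat_lit 759) (nat_lit 12) (nat_lit 8))
    (@En.n l4037 (nat_lit 7561) (nat_lit 15) (nat_lit 3))))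
  (@Cl.mk (nat_lit 0x20008000c00070007000d0004000c00030008000b000400090009000e0005) (nat_lit 0x1400a0805103260) (nat_lit 16) Lb.e (@T16.mk En
    (@En.n l37157 (nat_lit 7558) (nat_lit 8) (nat_lit 5))
    (@En.n l3187 (nat_lit 7301) (nat_lit 1) (nat_lit 14))
    (@En.n l61 (nat_lit 7565) (nat_lit 2) (nat_lit 9))
    (@En.n l7231 (nat_lit 7601) (nat_lit 3) (nat_lit 9))
    (@En.i (nat_lit 7582) (nat_lit 4) (nat_lit 4))
    (@En.i (nat_lit 2953) (nat_lit 7) (nat_lit 11))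
    (@En.n l2116 (nat_lit 2055) (nat_lit 6) (nat_lit 8))
    (@En.n l117 (nat_lit 7562) (nat_lit 7) (nat_lit 3))
    (@En.n l21109 (nat_lit 5259) (nat_lit 0) (nat_lit 12))
    (@En.n l5036 (nat_lit 7564) (nat_lit 9) (nat_lit 4))
    (@En.n l7231 (nat_lit 3128) (nat_lit 11) (nat_lit 13))
    (@En.n l21110 (nat_lit 5368) (nat_lit 12) (nat_lit 7))
    (@En.i (nat_lit 6552) (nat_lit 13) (nat_lit 7))
    (@En.n l3187 (nat_lit 12489) (nat_lit 14) (nat_lit 12))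
    (@En.n l29190 (nat_lit 7558) (nat_lit 6) (nat_lit 8))
    (@En.n l7 (nat_lit 7559) (nat_lit 15) (nat_lit 2))))
  (@Cl.mk (nat_lit 0x20006000b000b00050008000c00050005000d0004000a00030008000e000b) (nat_lit 0x520640030601c9) (nat_lit 16) Lb.e (@T16.mk En
    (@En.i (nat_lit 7558) (nat_lit 13) (nat_lit 11))
    (@En.n l396 (nat_lit 7992) (nat_lit 1) (nat_lit 14))
    (@En.n l766 (nat_lit 756) (nat_lit 2) (nat_lit 8))
    (@En.n l4037 (nat_lit 7563) (nat_lit 3) (nat_lit 3))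
    (@En.n l2213 (nat_lit 5257) (nat_lit 4) (nat_lit 10))
    (@En.i (nat_lit 7254) (nat_lit 5) (nat_lit 4))
    (@En.n l9967 (nat_lit 3120) (nat_lit 7) (nat_lit 13))
    (@En.n l152 (nat_lit 5364) (nat_lit 11) (nat_lit 5))
    (@En.n l3851 (nat_lit 6554) (nat_lit 8) (nat_lit 5))
    (@En.n l4130 (nat_lit 12756) (nat_lit 10) (nat_lit 12))
    (@En.n l387 (nat_lit 13830) (nat_lit 10) (nat_lit 8))
    (@En.i (nat_lit 10599) (nat_lit 12) (nat_lit 5))
    (@En.n l3536 (nat_lit 7258) (nat_lit 13) (nat_lit 11))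
    (@En.n l14271 (nat_lit 7612) (nat_lit 14) (nat_lit 11))
    (@En.i (nat_lit 11976) (nat_lit 13) (nat_lit 6))
    (@En.n l18 (nat_lit 7560) (nat_lit 15) (nat_lit 2))))
  (@Cl.mk (nat_lit 0x30008000b000b0006000a000a000500050008000b00060006000d000a0005) (nat_lit 0x212072000500260) (nat_lit 16) Lb.e (@T16.mk En
    (@En.n l625 (nat_lit 5752) (nat_lit 0) (nat_lit 5))
    (@En.n l9964 (nat_lit 7569) (nat_lit 0) (nat_lit 10))
    (@En.n l13079 (nat_lit 3122) (nat_lit 2) (nat_lit 13))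
    (@En.n l9965 (nat_lit 5362) (nat_lit 10) (nat_lit 6))
    (@En.n l3337 (nat_lit 6551) (nat_lit 4) (nat_lit 6))
    (@En.n l781 (nat_lit 8949) (nat_lit 7) (nat_lit 11))
    (@En.n l3 (nat_lit 7563) (nat_lit 10) (nat_lit 8))
    (@En.n l527 (nat_lit 7563) (nat_lit 11) (nat_lit 5))
    (@En.n l13079 (nat_lit 10596) (nat_lit 8) (nat_lit 5))
    (@En.n l11780 (nat_lit 7260) (nat_lit 6) (nat_lit 10))
    (@En.i (nat_lit 5468) (nat_lit 9) (nat_lit 10))
    (@En.n l3337 (nat_lit 12191) (nat_lit 2) (nat_lit 6))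
    (@En.n l22928 (nat_lit 7562) (nat_lit 5) (nat_lit 11))
    (@En.n l22929 (nat_lit 5600) (nat_lit 7) (nat_lit 11))
    (@En.n l22930 (nat_lit 7256) (nat_lit 12) (nat_lit 8))
    (@En.n l9962 (nat_lit 7558) (nat_lit 15) (nat_lit 3))))
  (@Cl.mk (nat_lit 0x20008000b00070007000d000b000500030008000b000500090009000e0005) (nat_lit 0x1600a70051032c0) (nat_lit 16) Lb.e (@T16.mk En
    (@En.n l27460 (nat_lit 7561) (nat_lit 8) (nat_lit 5))
    (@En.n l9943 (nat_lit 7297) (nat_lit 1) (nat_lit 14))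
    (@En.n l61 (nat_lit 7566) (nat_lit 2) (nat_lit 9))
    (@En.n l13804 (nat_lit 7603) (nat_lit 3) (nat_lit 9))
    (@En.i (nat_lit 10090) (nat_lit 4) (nat_lit 5))
    (@En.i (nat_lit 2962) (nat_lit 7) (nat_lit 11))
    (@En.n l5551 (nat_lit 7564) (nat_lit 6) (nat_lit 8))
    (@En.n l152 (nat_lit 7559) (nat_lit 7) (nat_lit 3))
    (@En.n l5588 (nat_lit 47) (nat_lit 0) (nat_lit 5))
    (@En.n l619 (nat_lit 7568) (nat_lit 10) (nat_lit 11))
    (@En.n l12291 (nat_lit 3129) (nat_lit 11) (nat_lit 13))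
    (@En.n l13808 (nat_lit 5370) (nat_lit 12) (nat_lit 7))
    (@En.i (nat_lit 6550) (nat_lit 13) (nat_lit 7))
    (@En.n l1073 (nat_lit 5819) (nat_lit 14) (nat_lit 11))
    (@En.n l27461 (nat_lit 7561) (nat_lit 6) (nat_lit 8))
    (@En.n l7 (nat_lit 7562) (nat_lit 15) (nat_lit 2))))
  (@Cl.mk (nat_lit 0x20007000b000b00050008000b00050005000d0009000500030008000e000b) (nat_lit 0x620640026002c2) (nat_lit 16) Lb.e (@T16.mk En
    (@En.i (nat_lit 7561) (nat_lit 13) (nat_lit 11))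
    (@En.n l9960 (nat_lit 7993) (nat_lit 1) (nat_lit 14))
    (@En.n l9961 (nat_lit 7254) (nat_lit 2) (nat_lit 8))
    (@En.n l9962 (nat_lit 7560) (nat_lit 3) (nat_lit 3))
    (@En.n l9963 (nat_lit 5756) (nat_lit 0) (nat_lit 5))
    (@En.n l9964 (nat_lit 7573) (nat_lit 5) (nat_lit 9))
    (@En.n l170 (nat_lit 3121) (nat_lit 7) (nat_lit 13))
    (@En.n l9965 (nat_lit 5365) (nat_lit 11) (nat_lit 5))
    (@En.n l3337 (nat_lit 6553) (nat_lit 8) (nat_lit 5))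
    (@En.n l781 (nat_lit 8951) (nat_lit 10) (nat_lit 11))
    (@En.i (nat_lit 13829) (nat_lit 10) (nat_lit 8))
    (@En.n l170 (nat_lit 10598) (nat_lit 12) (nat_lit 5))
    (@En.n l77 (nat_lit 7259) (nat_lit 13) (nat_lit 11))
    (@En.i (nat_lit 5469) (nat_lit 14) (nat_lit 11))
    (@En.n l3337 (nat_lit 12190) (nat_lit 2) (nat_lit 7))
    (@En.n l107 (nat_lit 7563) (nat_lit 15) (nat_lit 2))))
  (@Cl.mk (nat_lit 0x20008000c000b000800080004000c00050008000b000400080008000e0005) (nat_lit 0x2472208041042a0) (nat_lit 16) Lb.e (@T16.mk En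
    (@En.i (nat_lit 7256) (nat_lit 6) (nat_lit 5))
    (@En.n l649 (nat_lit 7298) (nat_lit 1) (nat_lit 14))
    (@En.n l2262 (nat_lit 7567) (nat_lit 8) (nat_lit 8))
    (@En.n l55 (nat_lit 7604) (nat_lit 3) (nat_lit 8))
    (@En.n l14322 (nat_lit 10091) (nat_lit 4) (nat_lit 4))
    (@En.i (nat_lit 5571) (nat_lit 7) (nat_lit 11))
    (@En.n l13792 (nat_lit 2056) (nat_lit 6) (nat_lit 8))
    (@En.n l12924 (nat_lit 5752) (nat_lit 7) (nat_lit 5))
    (@En.n l731 (nat_lit 7570) (nat_lit 9) (nat_lit 12))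
    (@En.n l12925 (nat_lit 7556) (nat_lit 9) (nat_lit 4))
    (@En.n l18339 (nat_lit 5369) (nat_lit 11) (nat_lit 8))
    (@En.n l649 (nat_lit 6633) (nat_lit 12) (nat_lit 8))
    (@En.n l12927 (nat_lit 7562) (nat_lit 13) (nat_lit 11))
    (@En.n l26751 (nat_lit 12109) (nat_lit 14) (nat_lit 12))
    (@En.n l1738 (nat_lit 7256) (nat_lit 4) (nat_lit 8))
    (@En.n l18 (nat_lit 7564) (nat_lit 15) (nat_lit 2))))
  (@Cl.mk (nat_lit 0x20007000b000e00070002000d0005000c00030009000c00040009000e0004) (nat_lit 0x540040a0610110) (nat_lit 16) Lb.e (@T16.mk En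
    (@En.n l8898 (nat_lit 7261) (nat_lit 5) (nat_lit 4))
    (@En.i (nat_lit 4072) (nat_lit 1) (nat_lit 14))
    (@En.n l3340 (nat_lit 651) (nat_lit 2) (nat_lit 9))
    (@En.i (nat_lit 7581) (nat_lit 3) (nat_lit 4))
    (@En.i (nat_lit 5579) (nat_lit 6) (nat_lit 12))
    (@En.i (nat_lit 2059) (nat_lit 11) (nat_lit 9))
    (@En.n l117 (nat_lit 7566) (nat_lit 6) (nat_lit 3))
    (@En.n l781 (nat_lit 5073) (nat_lit 8) (nat_lit 12))
    (@En.i (nat_lit 7567) (nat_lit 14) (nat_lit 5))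
    (@En.n l2125 (nat_lit 7859) (nat_lit 10) (nat_lit 13))
    (@En.n l17 (nat_lit 7565) (nat_lit 10) (nat_lit 2))
    (@En.i (nat_lit 7559) (nat_lit 12) (nat_lit 7))
    (@En.i (nat_lit 5899) (nat_lit 13) (nat_lit 14))
    (@En.n l1326 (nat_lit 12770) (nat_lit 14) (nat_lit 11))
    (@En.n l5934 (nat_lit 7261) (nat_lit 3) (nat_lit 7))
    (@En.n l7 (nat_lit 7565) (nat_lit 15) (nat_lit 2))))
  (@Cl.mk (nat_lit 0x20007000a000e00070002000d000b000600030009000c00050009000e0004) (nat_lit 0x64003800610110) (nat_lit 16) Lb.e (@T16.mk En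
    (@En.n l13810 (nat_lit 7260) (nat_lit 5) (nat_lit 4))
    (@En.i (nat_lit 4073) (nat_lit 1) (nat_lit 14))
    (@En.n l1897 (nat_lit 643) (nat_lit 2) (nat_lit 9))
    (@En.i (nat_lit 10092) (nat_lit 3) (nat_lit 5))
    (@En.i (nat_lit 5596) (nat_lit 6) (nat_lit 12))
    (@En.n l1690 (nat_lit 7567) (nat_lit 11) (nat_lit 9))
    (@En.n l152 (nat_lit 7565) (nat_lit 6) (nat_lit 3))
    (@En.n l5588 (nat_lit 5807) (nat_lit 7) (nat_lit 6))
    (@En.n l619 (nat_lit 7580) (nat_lit 9) (nat_lit 11))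
    (@En.i (nat_lit 7847) (nat_lit 10) (nat_lit 13))
    (@En.n l17 (nat_lit 7566) (nat_lit 10) (nat_lit 2))
    (@En.i (nat_lit 7562) (nat_lit 12) (nat_lit 7))
    (@En.i (nat_lit 5898) (nat_lit 13) (nat_lit 14))
    (@En.n l1897 (nat_lit 12810) (nat_lit 14) (nat_lit 10))
    (@En.n l13811 (nat_lit 7260) (nat_lit 3) (nat_lit 7))
    (@En.n l7 (nat_lit 7566) (nat_lit 15) (nat_lit 2))))
  (@Cl.mk (nat_lit 0x20005000c00060009000c00040008000e000400020007000b000a000e0008) (nat_lit 0xa0510110004753) (nat_lit 16) Lb.e (@T16.mk En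
    (@En.n l5036 (nat_lit 7564) (nat_lit 11) (nat_lit 8))
    (@En.n l3 (nat_lit 7565) (nat_lit 12) (nat_lit 14))
    (@En.n l3 (nat_lit 7566) (nat_lit 13) (nat_lit 10))
    (@En.n l1203 (nat_lit 12115) (nat_lit 3) (nat_lit 11))
    (@En.n l5934 (nat_lit 7257) (nat_lit 4) (nat_lit 7))
    (@En.n l7 (nat_lit 7567) (nat_lit 5) (nat_lit 2))
    (@En.n l8898 (nat_lit 7257) (nat_lit 6) (nat_lit 4))
    (@En.i (nat_lit 4074) (nat_lit 8) (nat_lit 14))
    (@En.n l5032 (nat_lit 649) (nat_lit 2) (nat_lit 8))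
    (@En.i (nat_lit 10093) (nat_lit 9) (nat_lit 4))
    (@En.i (nat_lit 5574) (nat_lit 11) (nat_lit 12))
    (@En.n l6161 (nat_lit 2058) (nat_lit 12) (nat_lit 9))
    (@En.n l13117 (nat_lit 5763) (nat_lit 13) (nat_lit 6))
    (@En.n l3105 (nat_lit 5076) (nat_lit 8) (nat_lit 12))
    (@En.n l3106 (nat_lit 5982) (nat_lit 8) (nat_lit 5))
    (@En.n l17 (nat_lit 7567) (nat_lit 15) (nat_lit 2))))
noncomputable def a473 : T16 Cl := @T16.mk Cl
  (@Cl.mk (nat_lit 0x20009000c00070007000b0004000c0007000a0005000400090009000e0006) (nat_lit 0x500606010063c0) (nat_lit 16) Lb.e (@T16.mk En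
    (@En.n l40306 (nat_lit 7569) (nat_lit 6) (nat_lit 6))
    (@En.n l22671 (nat_lit 9462) (nat_lit 1) (nat_lit 14))
    (@En.n l61 (nat_lit 7580) (nat_lit 2) (nat_lit 9))
    (@En.n l287 (nat_lit 5495) (nat_lit 3) (nat_lit 9))
    (@En.n l11 (nat_lit 7559) (nat_lit 4) (nat_lit 4))
    (@En.n l21284 (nat_lit 9856) (nat_lit 5) (nat_lit 5))
    (@En.i (nat_lit 2963) (nat_lit 8) (nat_lit 10))
    (@En.n l40307 (nat_lit 7570) (nat_lit 7) (nat_lit 7))
    (@En.n l3447 (nat_lit 5019) (nat_lit 9) (nat_lit 12))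
    (@En.n l5046 (nat_lit 5051) (nat_lit 9) (nat_lit 4))
    (@En.n l7231 (nat_lit 5361) (nat_lit 11) (nat_lit 11))
    (@En.n l40308 (nat_lit 6454) (nat_lit 12) (nat_lit 7))
    (@En.i (nat_lit 6557) (nat_lit 13) (nat_lit 7))
    (@En.n l22671 (nat_lit 12284) (nat_lit 6) (nat_lit 12))
    (@En.n l40309 (nat_lit 7569) (nat_lit 4) (nat_lit 9))
    (@En.n l7 (nat_lit 7568) (nat_lit 15) (nat_lit 2))))
  (@Cl.mk (nat_lit 0x4000b0007000a000a00060005000a000a000600060009000c00060006000a) (nat_lit 0x801200730074005) (nat_lit 16) Lb.e (@T16.mk En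
    (@En.n l17747 (nat_lit 1742) (nat_lit 9) (nat_lit 10))
    (@En.n l152 (nat_lit 5035) (nat_lit 10) (nat_lit 6))
    (@En.n l3851 (nat_lit 6555) (nat_lit 0) (nat_lit 6))
    (@En.n l7277 (nat_lit 12279) (nat_lit 6) (nat_lit 12))
    (@En.n l50 (nat_lit 7573) (nat_lit 9) (nat_lit 9))
    (@En.n l217 (nat_lit 7573) (nat_lit 10) (nat_lit 6))
    (@En.n l24851 (nat_lit 10594) (nat_lit 6) (nat_lit 6))
    (@En.n l3536 (nat_lit 7576) (nat_lit 6) (nat_lit 10))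
    (@En.n l10882 (nat_lit 5473) (nat_lit 10) (nat_lit 10))
    (@En.i (nat_lit 7558) (nat_lit 11) (nat_lit 5))
    (@En.n l16536 (nat_lit 9847) (nat_lit 0) (nat_lit 6))
    (@En.n l38548 (nat_lit 7568) (nat_lit 6) (nat_lit 10))
    (@En.n l38549 (nat_lit 6441) (nat_lit 8) (nat_lit 10))
    (@En.n l22933 (nat_lit 7571) (nat_lit 14) (nat_lit 7))
    (@En.n l38550 (nat_lit 5015) (nat_lit 3) (nat_lit 11))
    (@En.n l38551 (nat_lit 5052) (nat_lit 15) (nat_lit 4))))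
  (@Cl.mk (nat_lit 0x200090007000c00080008000c00040007000a0004000900080008000e0006) (nat_lit 0x66270070253c0) (nat_lit 16) Lb.e (@T16.mk En
    (@En.n l33344 (nat_lit 7571) (nat_lit 7) (nat_lit 6))
    (@En.n l12278 (nat_lit 9461) (nat_lit 1) (nat_lit 14))
    (@En.n l37715 (nat_lit 5076) (nat_lit 2) (nat_lit 8))
    (@En.i (nat_lit 5474) (nat_lit 3) (nat_lit 8))
    (@En.n l20474 (nat_lit 2934) (nat_lit 4) (nat_lit 9))
    (@En.n l17651 (nat_lit 9858) (nat_lit 5) (nat_lit 4))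
    (@En.n l1643 (nat_lit 6013) (nat_lit 8) (nat_lit 10))
    (@En.n l1998 (nat_lit 1844) (nat_lit 11) (nat_lit 7))
    (@En.n l8434 (nat_lit 5053) (nat_lit 8) (nat_lit 4))
    (@En.n l37716 (nat_lit 5414) (nat_lit 10) (nat_lit 12))
    (@En.n l14629 (nat_lit 6452) (nat_lit 11) (nat_lit 8))
    (@En.n l37717 (nat_lit 6926) (nat_lit 12) (nat_lit 8))
    (@En.n l37718 (nat_lit 7568) (nat_lit 13) (nat_lit 12))
    (@En.n l20476 (nat_lit 7582) (nat_lit 14) (nat_lit 7))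
    (@En.n l37719 (nat_lit 7571) (nat_lit 5) (nat_lit 9))
    (@En.n l17 (nat_lit 7570) (nat_lit 15) (nat_lit 2))))
  (@Cl.mk (nat_lit 0x40007000a000a0005000a000900090006000600090006000c00070007000b) (nat_lit 0x38016300705006) (nat_lit 16) Lb.e (@T16.mk En
    (@En.i (nat_lit 5359) (nat_lit 0) (nat_lit 11))
    (@En.n l11401 (nat_lit 5033) (nat_lit 9) (nat_lit 7))
    (@En.n l18752 (nat_lit 2023) (nat_lit 6) (nat_lit 7))
    (@En.n l16495 (nat_lit 7569) (nat_lit 3) (nat_lit 12))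
    (@En.n l1003 (nat_lit 7574) (nat_lit 4) (nat_lit 6))
    (@En.n l50 (nat_lit 7572) (nat_lit 9) (nat_lit 9))
    (@En.n l217 (nat_lit 7572) (nat_lit 10) (nat_lit 6))
    (@En.n l35401 (nat_lit 10591) (nat_lit 7) (nat_lit 6))
    (@En.n l8906 (nat_lit 5075) (nat_lit 7) (nat_lit 9))
    (@En.n l41809 (nat_lit 5476) (nat_lit 7) (nat_lit 9))
    (@En.n l35401 (nat_lit 2527) (nat_lit 10) (nat_lit 10))
    (@En.i (nat_lit 9851) (nat_lit 12) (nat_lit 5))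
    (@En.n l41810 (nat_lit 7570) (nat_lit 6) (nat_lit 10))
    (@En.n l41811 (nat_lit 6015) (nat_lit 8) (nat_lit 10))
    (@En.n l41812 (nat_lit 1559) (nat_lit 11) (nat_lit 7))
    (@En.n l34820 (nat_lit 5054) (nat_lit 15) (nat_lit 4))))
  (@Cl.mk (nat_lit 0x20006000b000a000a000600090005000c00060006000a00040007000e000a) (nat_lit 0x173060400500b4) (nat_lit 16) Lb.e (@T16.mk En
    (@En.i (nat_lit 7571) (nat_lit 13) (nat_lit 10))
    (@En.n l396 (nat_lit 5155) (nat_lit 1) (nat_lit 14))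
    (@En.n l2299 (nat_lit 1554) (nat_lit 2) (nat_lit 7))
    (@En.n l38564 (nat_lit 5056) (nat_lit 3) (nat_lit 4))
    (@En.i (nat_lit 4932) (nat_lit 4) (nat_lit 10))
    (@En.n l11401 (nat_lit 5032) (nat_lit 5) (nat_lit 6))
    (@En.n l18752 (nat_lit 6939) (nat_lit 6) (nat_lit 6))
    (@En.n l16495 (nat_lit 7573) (nat_lit 8) (nat_lit 12))
    (@En.n l1003 (nat_lit 7575) (nat_lit 8) (nat_lit 5))
    (@En.n l699 (nat_lit 13330) (nat_lit 9) (nat_lit 9))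
    (@En.i (nat_lit 10589) (nat_lit 11) (nat_lit 6))
    (@En.n l8906 (nat_lit 5077) (nat_lit 12) (nat_lit 10))
    (@En.n l11403 (nat_lit 5475) (nat_lit 13) (nat_lit 10))
    (@En.n l38565 (nat_lit 2526) (nat_lit 14) (nat_lit 11))
    (@En.i (nat_lit 10963) (nat_lit 13) (nat_lit 6))
    (@En.n l18 (nat_lit 7572) (nat_lit 15) (nat_lit 2))))
  (@Cl.mk (nat_lit 0x200070006000b000b00060009000c0005000500090004000a0007000e000a) (nat_lit 0x93063005070b2) (nat_lit 16) Lb.e (@T16.mk En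
    (@En.i (nat_lit 7569) (nat_lit 12) (nat_lit 10))
    (@En.n l396 (nat_lit 6448) (nat_lit 1) (nat_lit 14))
    (@En.n l22933 (nat_lit 7572) (nat_lit 2) (nat_lit 7))
    (@En.n l22934 (nat_lit 5020) (nat_lit 3) (nat_lit 10))
    (@En.n l4274 (nat_lit 5055) (nat_lit 4) (nat_lit 4))
    (@En.n l17747 (nat_lit 5358) (nat_lit 5) (nat_lit 9))
    (@En.n l152 (nat_lit 5034) (nat_lit 6) (nat_lit 5))
    (@En.n l3851 (nat_lit 6558) (nat_lit 7) (nat_lit 5))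
    (@En.n l22935 (nat_lit 11642) (nat_lit 9) (nat_lit 12))
    (@En.n l387 (nat_lit 13332) (nat_lit 9) (nat_lit 9))
    (@En.i (nat_lit 10592) (nat_lit 11) (nat_lit 6))
    (@En.n l3536 (nat_lit 7577) (nat_lit 12) (nat_lit 11))
    (@En.n l10882 (nat_lit 5491) (nat_lit 13) (nat_lit 11))
    (@En.i (nat_lit 7560) (nat_lit 14) (nat_lit 6))
    (@En.n l345 (nat_lit 8563) (nat_lit 13) (nat_lit 7))
    (@En.n l18 (nat_lit 7573) (nat_lit 15) (nat_lit 2))))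
  (@Cl.mk (nat_lit 0x4000b000900090005000a0005000a000a000700070006000c00060006000b) (nat_lit 0x850030840003004) (nat_lit 16) Lb.e (@T16.mk En
    (@En.n l29393 (nat_lit 9801) (nat_lit 0) (nat_lit 11))
    (@En.n l29394 (nat_lit 6463) (nat_lit 10) (nat_lit 6))
    (@En.n l29395 (nat_lit 9364) (nat_lit 6) (nat_lit 6))
    (@En.n l29396 (nat_lit 10128) (nat_lit 3) (nat_lit 12))
    (@En.n l18216 (nat_lit 11978) (nat_lit 10) (nat_lit 6))
    (@En.n l644 (nat_lit 7575) (nat_lit 9) (nat_lit 7))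
    (@En.n l29397 (nat_lit 10275) (nat_lit 6) (nat_lit 7))
    (@En.n l29398 (nat_lit 7579) (nat_lit 6) (nat_lit 10))
    (@En.n l29393 (nat_lit 10284) (nat_lit 10) (nat_lit 10))
    (@En.n l1723 (nat_lit 7569) (nat_lit 9) (nat_lit 5))
    (@En.n l605 (nat_lit 2460) (nat_lit 10) (nat_lit 10))
    (@En.n l18210 (nat_lit 11179) (nat_lit 1) (nat_lit 5))
    (@En.n l29399 (nat_lit 7582) (nat_lit 7) (nat_lit 9))
    (@En.n l22544 (nat_lit 11968) (nat_lit 7) (nat_lit 9))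
    (@En.n l28065 (nat_lit 5917) (nat_lit 2) (nat_lit 11))
    (@En.n l17997 (nat_lit 10044) (nat_lit 15) (nat_lit 4))))
  (@Cl.mk (nat_lit 0x20006000b0006000b000b00070005000c00050005000a0004000a000e0009) (nat_lit 0x200600700407a6) (nat_lit 16) Lb.e (@T16.mk En
    (@En.i (nat_lit 7574) (nat_lit 13) (nat_lit 9))
    (@En.n l601 (nat_lit 10794) (nat_lit 1) (nat_lit 14))
    (@En.n l2213 (nat_lit 6288) (nat_lit 2) (nat_lit 10))
    (@En.i (nat_lit 10043) (nat_lit 3) (nat_lit 4))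
    (@En.n l899 (nat_lit 9800) (nat_lit 4) (nat_lit 10))
    (@En.n l152 (nat_lit 11631) (nat_lit 5) (nat_lit 5))
    (@En.n l3851 (nat_lit 9363) (nat_lit 6) (nat_lit 5))
    (@En.n l15784 (nat_lit 11634) (nat_lit 8) (nat_lit 12))
    (@En.i (nat_lit 5497) (nat_lit 8) (nat_lit 5))
    (@En.n l2125 (nat_lit 10693) (nat_lit 10) (nat_lit 7))
    (@En.n l3536 (nat_lit 7578) (nat_lit 11) (nat_lit 11))
    (@En.n l35673 (nat_lit 11292) (nat_lit 12) (nat_lit 11))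
    (@En.n l1723 (nat_lit 7573) (nat_lit 13) (nat_lit 6))
    (@En.n l5777 (nat_lit 760) (nat_lit 14) (nat_lit 11))
    (@En.i (nat_lit 8002) (nat_lit 13) (nat_lit 6))
    (@En.n l50 (nat_lit 7575) (nat_lit 15) (nat_lit 2))))
  (@Cl.mk (nat_lit 0x2000a0005000b0008000b000b00060005000a000500050008000b000e0006) (nat_lit 0x608562002000540) (nat_lit 16) Lb.e (@T16.mk En
    (@En.n l3098 (nat_lit 7569) (nat_lit 2) (nat_lit 6))
    (@En.i (nat_lit 5201) (nat_lit 4) (nat_lit 14))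
    (@En.n l248 (nat_lit 12277) (nat_lit 2) (nat_lit 11))
    (@En.n l28 (nat_lit 7577) (nat_lit 10) (nat_lit 8))
    (@En.n l77 (nat_lit 7577) (nat_lit 11) (nat_lit 5))
    (@En.n l3039 (nat_lit 12188) (nat_lit 5) (nat_lit 5))
    (@En.n l4021 (nat_lit 5488) (nat_lit 7) (nat_lit 10))
    (@En.i (nat_lit 7261) (nat_lit 7) (nat_lit 5))
    (@En.n l117 (nat_lit 11180) (nat_lit 8) (nat_lit 6))
    (@En.n l29467 (nat_lit 7580) (nat_lit 5) (nat_lit 11))
    (@En.n l23155 (nat_lit 5609) (nat_lit 11) (nat_lit 11))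
    (@En.n l3339 (nat_lit 5075) (nat_lit 12) (nat_lit 8))
    (@En.n l29468 (nat_lit 5069) (nat_lit 13) (nat_lit 11))
    (@En.n l29469 (nat_lit 5058) (nat_lit 14) (nat_lit 5))
    (@En.n l29470 (nat_lit 5280) (nat_lit 0) (nat_lit 10))
    (@En.n l17 (nat_lit 7576) (nat_lit 15) (nat_lit 2))))
  (@Cl.mk (nat_lit 0x200070006000b00050008000b000e0005000200090005000a0008000e000b) (nat_lit 0x2064800605567) (nat_lit 16) Lb.e (@T16.mk En
    (@En.i (nat_lit 7576) (nat_lit 10) (nat_lit 11))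
    (@En.n l134 (nat_lit 7656) (nat_lit 11) (nat_lit 14))
    (@En.n l3339 (nat_lit 5077) (nat_lit 2) (nat_lit 8))
    (@En.n l20132 (nat_lit 5070) (nat_lit 3) (nat_lit 10))
    (@En.n l3550 (nat_lit 5061) (nat_lit 14) (nat_lit 5))
    (@En.i (nat_lit 4937) (nat_lit 5) (nat_lit 9))
    (@En.n l17 (nat_lit 7577) (nat_lit 6) (nat_lit 2))
    (@En.n l3098 (nat_lit 7573) (nat_lit 7) (nat_lit 5))
    (@En.i (nat_lit 6017) (nat_lit 9) (nat_lit 14))
    (@En.n l248 (nat_lit 12278) (nat_lit 2) (nat_lit 11))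
    (@En.i (nat_lit 13838) (nat_lit 10) (nat_lit 8))
    (@En.i (nat_lit 12181) (nat_lit 4) (nat_lit 5))
    (@En.n l4021 (nat_lit 5487) (nat_lit 13) (nat_lit 11))
    (@En.i (nat_lit 7258) (nat_lit 14) (nat_lit 6))
    (@En.n l117 (nat_lit 10969) (nat_lit 7) (nat_lit 7))
    (@En.n l7 (nat_lit 7577) (nat_lit 15) (nat_lit 2))))
  (@Cl.mk (nat_lit 0x20006000c0006000b00060004000b000e00050002000a0005000a000e000a) (nat_lit 0x30500690060857) (nat_lit 16) Lb.e (@T16.mk En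
    (@En.n l19999 (nat_lit 7579) (nat_lit 11) (nat_lit 10))
    (@En.n l1578 (nat_lit 10797) (nat_lit 12) (nat_lit 14))
    (@En.n l781 (nat_lit 6285) (nat_lit 2) (nat_lit 10))
    (@En.n l6646 (nat_lit 10039) (nat_lit 14) (nat_lit 5))
    (@En.n l2125 (nat_lit 9915) (nat_lit 4) (nat_lit 10))
    (@En.n l17 (nat_lit 7578) (nat_lit 5) (nat_lit 2))
    (@En.n l3098 (nat_lit 7575) (nat_lit 6) (nat_lit 5))
    (@En.i (nat_lit 10118) (nat_lit 8) (nat_lit 14))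
    (@En.n l7085 (nat_lit 12839) (nat_lit 9) (nat_lit 11))
    (@En.i (nat_lit 7502) (nat_lit 9) (nat_lit 4))
    (@En.i (nat_lit 12178) (nat_lit 4) (nat_lit 6))
    (@En.n l6727 (nat_lit 11166) (nat_lit 12) (nat_lit 11))
    (@En.n l7471 (nat_lit 7577) (nat_lit 13) (nat_lit 6))
    (@En.n l2544 (nat_lit 2479) (nat_lit 8) (nat_lit 12))
    (@En.i (nat_lit 11169) (nat_lit 8) (nat_lit 6))
    (@En.n l28 (nat_lit 7578) (nat_lit 15) (nat_lit 2))))
  (@Cl.mk (nat_lit 0x2000b0005000b000a000a0005000b0005000a000600060005000b000e0006) (nat_lit 0x7096001030003b0) (nat_lit 16) Lb.e (@T16.mk En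
    (@En.n l14985 (nat_lit 7574) (nat_lit 2) (nat_lit 6))
    (@En.i (nat_lit 6377) (nat_lit 4) (nat_lit 14))
    (@En.n l14986 (nat_lit 11137) (nat_lit 2) (nat_lit 11))
    (@En.i (nat_lit 11961) (nat_lit 3) (nat_lit 5))
    (@En.n l2491 (nat_lit 7578) (nat_lit 10) (nat_lit 6))
    (@En.n l14987 (nat_lit 12301) (nat_lit 5) (nat_lit 6))
    (@En.n l14988 (nat_lit 11838) (nat_lit 7) (nat_lit 10))
    (@En.n l14989 (nat_lit 7576) (nat_lit 7) (nat_lit 5))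
    (@En.n l14988 (nat_lit 2475) (nat_lit 9) (nat_lit 11))
    (@En.n l3100 (nat_lit 11170) (nat_lit 9) (nat_lit 5))
    (@En.n l14990 (nat_lit 7581) (nat_lit 6) (nat_lit 10))
    (@En.n l4380 (nat_lit 12167) (nat_lit 12) (nat_lit 10))
    (@En.n l781 (nat_lit 6381) (nat_lit 13) (nat_lit 11))
    (@En.n l14991 (nat_lit 7583) (nat_lit 14) (nat_lit 5))
    (@En.n l2125 (nat_lit 9917) (nat_lit 0) (nat_lit 11))
    (@En.n l17 (nat_lit 7579) (nat_lit 15) (nat_lit 2))))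
  (@Cl.mk (nat_lit 0x20008000b000e00070002000b0005000c0008000b000500040009000e0005) (nat_lit 0x163007082100220) (nat_lit 16) Lb.e (@T16.mk En
    (@En.n l24636 (nat_lit 7576) (nat_lit 5) (nat_lit 5))
    (@En.i (nat_lit 8901) (nat_lit 7) (nat_lit 14))
    (@En.n l287 (nat_lit 5492) (nat_lit 2) (nat_lit 9))
    (@En.n l11 (nat_lit 7565) (nat_lit 3) (nat_lit 4))
    (@En.i (nat_lit 9860) (nat_lit 4) (nat_lit 5))
    (@En.i (nat_lit 5610) (nat_lit 7) (nat_lit 11))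
    (@En.n l532 (nat_lit 5076) (nat_lit 6) (nat_lit 8))
    (@En.n l3447 (nat_lit 5068) (nat_lit 8) (nat_lit 12))
    (@En.n l5047 (nat_lit 5059) (nat_lit 14) (nat_lit 5))
    (@En.i (nat_lit 5279) (nat_lit 10) (nat_lit 11))
    (@En.n l17 (nat_lit 7580) (nat_lit 10) (nat_lit 2))
    (@En.i (nat_lit 7568) (nat_lit 12) (nat_lit 7))
    (@En.i (nat_lit 6016) (nat_lit 13) (nat_lit 14))
    (@En.n l3988 (nat_lit 12280) (nat_lit 2) (nat_lit 11))
    (@En.n l24638 (nat_lit 7576) (nat_lit 3) (nat_lit 8))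
    (@En.n l7 (nat_lit 7580) (nat_lit 15) (nat_lit 2))))
  (@Cl.mk (nat_lit 0x20006000b000e00070002000c0005000c000a0004000a00040009000e0006) (nat_lit 0x43008098010310) (nat_lit 16) Lb.e (@T16.mk En
    (@En.n l11512 (nat_lit 7579) (nat_lit 5) (nat_lit 6))
    (@En.i (nat_lit 5877) (nat_lit 7) (nat_lit 14))
    (@En.n l3340 (nat_lit 12764) (nat_lit 2) (nat_lit 9))
    (@En.i (nat_lit 7580) (nat_lit 3) (nat_lit 4))
    (@En.i (nat_lit 2063) (nat_lit 10) (nat_lit 10))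
    (@En.n l7108 (nat_lit 9864) (nat_lit 5) (nat_lit 4))
    (@En.n l55 (nat_lit 12076) (nat_lit 12) (nat_lit 10))
    (@En.n l781 (nat_lit 6382) (nat_lit 8) (nat_lit 12))
    (@En.i (nat_lit 10093) (nat_lit 14) (nat_lit 5))
    (@En.n l2125 (nat_lit 9612) (nat_lit 10) (nat_lit 12))
    (@En.n l17 (nat_lit 7581) (nat_lit 10) (nat_lit 2))
    (@En.i (nat_lit 7582) (nat_lit 12) (nat_lit 7))
    (@En.i (nat_lit 9123) (nat_lit 13) (nat_lit 14))
    (@En.n l1782 (nat_lit 10098) (nat_lit 2) (nat_lit 11))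
    (@En.n l5934 (nat_lit 11963) (nat_lit 3) (nat_lit 6))
    (@En.n l7 (nat_lit 7581) (nat_lit 15) (nat_lit 2))))
  (@Cl.mk (nat_lit 0x20007000c00070007000c0004000c000900040009000400090009000e0007) (nat_lit 0x40070870107420) (nat_lit 16) Lb.e (@T16.mk En
    (@En.n l29185 (nat_lit 7574) (nat_lit 6) (nat_lit 7))
    (@En.n l2116 (nat_lit 9450) (nat_lit 1) (nat_lit 14))
    (@En.n l61 (nat_lit 7581) (nat_lit 2) (nat_lit 9))
    (@En.n l29186 (nat_lit 11304) (nat_lit 3) (nat_lit 9))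
    (@En.i (nat_lit 7568) (nat_lit 4) (nat_lit 4))
    (@En.n l2116 (nat_lit 2050) (nat_lit 5) (nat_lit 9))
    (@En.n l29187 (nat_lit 9857) (nat_lit 6) (nat_lit 4))
    (@En.n l55 (nat_lit 10607) (nat_lit 0) (nat_lit 9))
    (@En.n l29188 (nat_lit 5909) (nat_lit 9) (nat_lit 12))
    (@En.n l7105 (nat_lit 10091) (nat_lit 9) (nat_lit 4))
    (@En.n l7231 (nat_lit 9638) (nat_lit 11) (nat_lit 12))
    (@En.n l29189 (nat_lit 6456) (nat_lit 12) (nat_lit 7))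
    (@En.i (nat_lit 9633) (nat_lit 13) (nat_lit 7))
    (@En.n l21111 (nat_lit 10125) (nat_lit 14) (nat_lit 12))
    (@En.n l29190 (nat_lit 11977) (nat_lit 13) (nat_lit 7))
    (@En.n l7 (nat_lit 7582) (nat_lit 15) (nat_lit 2))))
  (@Cl.mk (nat_lit 0x20005000b000a000a0008000b00050009000600060005000b0008000e0007) (nat_lit 0x750210500034c0) (nat_lit 16) Lb.e (@T16.mk En
    (@En.n l2393 (nat_lit 10044) (nat_lit 1) (nat_lit 7))
    (@En.n l6706 (nat_lit 7579) (nat_lit 1) (nat_lit 14))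
    (@En.n l6706 (nat_lit 10038) (nat_lit 2) (nat_lit 8))
    (@En.n l6707 (nat_lit 10097) (nat_lit 3) (nat_lit 11))
    (@En.n l2407 (nat_lit 10047) (nat_lit 4) (nat_lit 5))
    (@En.n l6708 (nat_lit 10039) (nat_lit 5) (nat_lit 6))
    (@En.n l6709 (nat_lit 12302) (nat_lit 6) (nat_lit 6))
    (@En.n l6710 (nat_lit 11836) (nat_lit 8) (nat_lit 9))
    (@En.n l6711 (nat_lit 5058) (nat_lit 8) (nat_lit 5))
    (@En.n l6709 (nat_lit 2476) (nat_lit 10) (nat_lit 11))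
    (@En.n l6712 (nat_lit 10347) (nat_lit 11) (nat_lit 8))
    (@En.n l6713 (nat_lit 10093) (nat_lit 12) (nat_lit 10))
    (@En.i (nat_lit 12165) (nat_lit 13) (nat_lit 10))
    (@En.n l6709 (nat_lit 11182) (nat_lit 14) (nat_lit 11))
    (@En.n l2360 (nat_lit 9325) (nat_lit 13) (nat_lit 5))
    (@En.n l3 (nat_lit 7583) (nat_lit 15) (nat_lit 2))))
noncomputable def a474 : T16 Cl := @T16.mk Cl
  (@Cl.mk (nat_lit 0x2000c0006000900050004000d000c000b000300070004000a0005000e000b) (nat_lit 0x1050073500070b1) (nat_lit 16) Lb.e (@T16.mk En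
    (@En.i (nat_lit 6300) (nat_lit 10) (nat_lit 11))
    (@En.i (nat_lit 11201) (nat_lit 1) (nat_lit 14))
    (@En.i (nat_lit 7523) (nat_lit 2) (nat_lit 5))
    (@En.n l899 (nat_lit 7148) (nat_lit 3) (nat_lit 10))
    (@En.i (nat_lit 6364) (nat_lit 4) (nat_lit 4))
    (@En.i (nat_lit 1549) (nat_lit 5) (nat_lit 7))
    (@En.n l2016 (nat_lit 7526) (nat_lit 6) (nat_lit 3))
    (@En.n l619 (nat_lit 7586) (nat_lit 0) (nat_lit 11))
    (@En.n l3866 (nat_lit 7527) (nat_lit 9) (nat_lit 12))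
    (@En.i (nat_lit 9866) (nat_lit 10) (nat_lit 13))
    (@En.i (nat_lit 7265) (nat_lit 10) (nat_lit 4))
    (@En.n l5748 (nat_lit 8857) (nat_lit 4) (nat_lit 5))
    (@En.n l217 (nat_lit 2306) (nat_lit 9) (nat_lit 9))
    (@En.n l217 (nat_lit 7672) (nat_lit 14) (nat_lit 6))
    (@En.n l50 (nat_lit 5480) (nat_lit 8) (nat_lit 12))
    (@En.n l7 (nat_lit 7584) (nat_lit 15) (nat_lit 2))))
  (@Cl.mk (nat_lit 0x20006000d0004000a0003000e000b0002000c0006000a00050004000e000c) (nat_lit 0x30705903050094) (nat_lit 16) Lb.e (@T16.mk En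
    (@En.i (nat_lit 6364) (nat_lit 9) (nat_lit 12))
    (@En.i (nat_lit 9258) (nat_lit 1) (nat_lit 14))
    (@En.i (nat_lit 4002) (nat_lit 2) (nat_lit 4))
    (@En.n l5854 (nat_lit 8858) (nat_lit 3) (nat_lit 5))
    (@En.n l217 (nat_lit 3552) (nat_lit 4) (nat_lit 10))
    (@En.n l217 (nat_lit 7671) (nat_lit 14) (nat_lit 6))
    (@En.n l50 (nat_lit 7593) (nat_lit 7) (nat_lit 12))
    (@En.n l7 (nat_lit 7585) (nat_lit 7) (nat_lit 2))
    (@En.i (nat_lit 6766) (nat_lit 9) (nat_lit 11))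
    (@En.i (nat_lit 11199) (nat_lit 10) (nat_lit 14))
    (@En.i (nat_lit 7586) (nat_lit 10) (nat_lit 3))
    (@En.i (nat_lit 5249) (nat_lit 12) (nat_lit 10))
    (@En.n l117 (nat_lit 7584) (nat_lit 4) (nat_lit 4))
    (@En.n l2255 (nat_lit 1378) (nat_lit 6) (nat_lit 13))
    (@En.i (nat_lit 1548) (nat_lit 6) (nat_lit 6))
    (@En.n l3 (nat_lit 7585) (nat_lit 15) (nat_lit 2))))
  (@Cl.mk (nat_lit 0x20006000d000900050003000e000b0002000c0007000a00050004000e000b) (nat_lit 0x260059060500b4) (nat_lit 16) Lb.e (@T16.mk En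
    (@En.i (nat_lit 6363) (nat_lit 9) (nat_lit 11))
    (@En.i (nat_lit 9256) (nat_lit 1) (nat_lit 14))
    (@En.i (nat_lit 4003) (nat_lit 2) (nat_lit 4))
    (@En.n l2253 (nat_lit 8265) (nat_lit 3) (nat_lit 5))
    (@En.n l217 (nat_lit 3553) (nat_lit 8) (nat_lit 10))
    (@En.n l2254 (nat_lit 7668) (nat_lit 5) (nat_lit 7))
    (@En.n l50 (nat_lit 7589) (nat_lit 7) (nat_lit 12))
    (@En.n l7 (nat_lit 7586) (nat_lit 7) (nat_lit 2))
    (@En.i (nat_lit 6764) (nat_lit 9) (nat_lit 11))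
    (@En.n l287 (nat_lit 12509) (nat_lit 10) (nat_lit 14))
    (@En.n l11 (nat_lit 7585) (nat_lit 10) (nat_lit 3))
    (@En.n l2253 (nat_lit 4617) (nat_lit 3) (nat_lit 5))
    (@En.i (nat_lit 7587) (nat_lit 13) (nat_lit 9))
    (@En.n l2255 (nat_lit 1377) (nat_lit 6) (nat_lit 13))
    (@En.i (nat_lit 1546) (nat_lit 6) (nat_lit 6))
    (@En.n l3 (nat_lit 7586) (nat_lit 15) (nat_lit 2))))
  (@Cl.mk (nat_lit 0x2000600090004000a000e000a0002000b00070006000a00060005000e000c) (nat_lit 0x50848050060095) (nat_lit 16) Lb.e (@T16.mk En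
    (@En.i (nat_lit 6365) (nat_lit 8) (nat_lit 12))
    (@En.i (nat_lit 9259) (nat_lit 1) (nat_lit 14))
    (@En.i (nat_lit 4006) (nat_lit 2) (nat_lit 5))
    (@En.n l5854 (nat_lit 10203) (nat_lit 3) (nat_lit 6))
    (@En.n l207 (nat_lit 7586) (nat_lit 4) (nat_lit 10))
    (@En.i (nat_lit 7585) (nat_lit 5) (nat_lit 6))
    (@En.n l6578 (nat_lit 7669) (nat_lit 6) (nat_lit 7))
    (@En.n l50 (nat_lit 7591) (nat_lit 8) (nat_lit 11))
    (@En.n l7 (nat_lit 7587) (nat_lit 8) (nat_lit 2))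
    (@En.i (nat_lit 6765) (nat_lit 10) (nat_lit 10))
    (@En.n l532 (nat_lit 11222) (nat_lit 11) (nat_lit 14))
    (@En.n l1776 (nat_lit 5250) (nat_lit 12) (nat_lit 10))
    (@En.n l6579 (nat_lit 7517) (nat_lit 3) (nat_lit 4))
    (@En.n l1776 (nat_lit 3093) (nat_lit 9) (nat_lit 9))
    (@En.i (nat_lit 1545) (nat_lit 5) (nat_lit 6))
    (@En.n l3 (nat_lit 7587) (nat_lit 15) (nat_lit 2))))
  (@Cl.mk (nat_lit 0x20006000d0009000500030009000e000c00020007000a00040007000e000b) (nat_lit 0x270056a0010089) (nat_lit 16) Lb.e (@T16.mk En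
    (@En.i (nat_lit 7512) (nat_lit 10) (nat_lit 11))
    (@En.i (nat_lit 8929) (nat_lit 11) (nat_lit 14))
    (@En.i (nat_lit 13293) (nat_lit 11) (nat_lit 7))
    (@En.i (nat_lit 7597) (nat_lit 3) (nat_lit 4))
    (@En.n l711 (nat_lit 632) (nat_lit 8) (nat_lit 10))
    (@En.i (nat_lit 7548) (nat_lit 5) (nat_lit 7))
    (@En.n l50 (nat_lit 7588) (nat_lit 6) (nat_lit 2))
    (@En.i (nat_lit 7589) (nat_lit 8) (nat_lit 12))
    (@En.n l601 (nat_lit 7586) (nat_lit 9) (nat_lit 14))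
    (@En.n l287 (nat_lit 5981) (nat_lit 2) (nat_lit 9))
    (@En.n l11 (nat_lit 7592) (nat_lit 3) (nat_lit 3))
    (@En.i (nat_lit 899) (nat_lit 0) (nat_lit 5))
    (@En.i (nat_lit 7590) (nat_lit 13) (nat_lit 9))
    (@En.n l1722 (nat_lit 853) (nat_lit 7) (nat_lit 13))
    (@En.i (nat_lit 372) (nat_lit 7) (nat_lit 6))
    (@En.n l3 (nat_lit 7588) (nat_lit 15) (nat_lit 2))))
  (@Cl.mk (nat_lit 0x20007000d000a000500030009000c000c00060009000400040007000e000b) (nat_lit 0x280059501000c6) (nat_lit 16) Lb.e (@T16.mk En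
    (@En.n l5779 (nat_lit 7513) (nat_lit 12) (nat_lit 11))
    (@En.n l6506 (nat_lit 8269) (nat_lit 1) (nat_lit 14))
    (@En.n l7 (nat_lit 7588) (nat_lit 2) (nat_lit 7))
    (@En.n l644 (nat_lit 7588) (nat_lit 3) (nat_lit 4))
    (@En.n l5838 (nat_lit 12158) (nat_lit 4) (nat_lit 4))
    (@En.n l6507 (nat_lit 634) (nat_lit 9) (nat_lit 9))
    (@En.i (nat_lit 7550) (nat_lit 6) (nat_lit 6))
    (@En.n l5837 (nat_lit 7594) (nat_lit 4) (nat_lit 12))
    (@En.n l5838 (nat_lit 7977) (nat_lit 9) (nat_lit 12))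
    (@En.n l287 (nat_lit 5979) (nat_lit 10) (nat_lit 9))
    (@En.n l11 (nat_lit 7593) (nat_lit 10) (nat_lit 3))
    (@En.n l3635 (nat_lit 897) (nat_lit 0) (nat_lit 5))
    (@En.i (nat_lit 7591) (nat_lit 13) (nat_lit 10))
    (@En.n l6508 (nat_lit 852) (nat_lit 14) (nat_lit 13))
    (@En.i (nat_lit 373) (nat_lit 3) (nat_lit 7))
    (@En.n l3 (nat_lit 7589) (nat_lit 15) (nat_lit 2))))
  (@Cl.mk (nat_lit 0x2000600090004000a0008000e000b000200070006000a00050008000e000c) (nat_lit 0x60845900020096) (nat_lit 16) Lb.e (@T16.mk En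
    (@En.i (nat_lit 7511) (nat_lit 9) (nat_lit 12))
    (@En.i (nat_lit 8930) (nat_lit 10) (nat_lit 14))
    (@En.i (nat_lit 13324) (nat_lit 10) (nat_lit 8))
    (@En.n l15752 (nat_lit 10205) (nat_lit 3) (nat_lit 5))
    (@En.n l207 (nat_lit 7588) (nat_lit 4) (nat_lit 10))
    (@En.i (nat_lit 7592) (nat_lit 14) (nat_lit 6))
    (@En.n l4780 (nat_lit 7546) (nat_lit 6) (nat_lit 7))
    (@En.n l50 (nat_lit 7590) (nat_lit 7) (nat_lit 2))
    (@En.i (nat_lit 7591) (nat_lit 9) (nat_lit 11))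
    (@En.n l601 (nat_lit 7587) (nat_lit 10) (nat_lit 14))
    (@En.n l4780 (nat_lit 5977) (nat_lit 2) (nat_lit 8))
    (@En.n l1776 (nat_lit 5258) (nat_lit 3) (nat_lit 10))
    (@En.n l117 (nat_lit 5179) (nat_lit 4) (nat_lit 4))
    (@En.n l1776 (nat_lit 3111) (nat_lit 9) (nat_lit 9))
    (@En.i (nat_lit 1305) (nat_lit 6) (nat_lit 6))
    (@En.n l3 (nat_lit 7590) (nat_lit 15) (nat_lit 2))))
  (@Cl.mk (nat_lit 0x20007000a0004000b0008000b000b000600050009000500050008000e000c) (nat_lit 0x70948400200197) (nat_lit 16) Lb.e (@T16.mk En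
    (@En.n l5779 (nat_lit 7510) (nat_lit 3) (nat_lit 12))
    (@En.n l9799 (nat_lit 8476) (nat_lit 1) (nat_lit 14))
    (@En.n l7 (nat_lit 7590) (nat_lit 2) (nat_lit 8))
    (@En.n l644 (nat_lit 7590) (nat_lit 3) (nat_lit 5))
    (@En.n l5838 (nat_lit 10206) (nat_lit 4) (nat_lit 5))
    (@En.n l207 (nat_lit 7589) (nat_lit 5) (nat_lit 9))
    (@En.i (nat_lit 7593) (nat_lit 6) (nat_lit 5))
    (@En.n l4780 (nat_lit 7549) (nat_lit 7) (nat_lit 6))
    (@En.n l16140 (nat_lit 7596) (nat_lit 9) (nat_lit 11))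
    (@En.n l16141 (nat_lit 7976) (nat_lit 10) (nat_lit 11))
    (@En.n l16142 (nat_lit 5976) (nat_lit 11) (nat_lit 8))
    (@En.n l16143 (nat_lit 5021) (nat_lit 12) (nat_lit 11))
    (@En.n l16144 (nat_lit 1308) (nat_lit 13) (nat_lit 4))
    (@En.n l16145 (nat_lit 3110) (nat_lit 8) (nat_lit 10))
    (@En.i (nat_lit 1301) (nat_lit 1) (nat_lit 7))
    (@En.n l3 (nat_lit 7591) (nat_lit 15) (nat_lit 2))))
  (@Cl.mk (nat_lit 0x20006000a00040007000e000c00020006000d0004000a00030009000e000c) (nat_lit 0x1008a00307056a) (nat_lit 16) Lb.e (@T16.mk En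
    (@En.i (nat_lit 7593) (nat_lit 8) (nat_lit 12))
    (@En.n l601 (nat_lit 7585) (nat_lit 9) (nat_lit 14))
    (@En.i (nat_lit 883) (nat_lit 2) (nat_lit 9))
    (@En.i (nat_lit 7588) (nat_lit 10) (nat_lit 3))
    (@En.i (nat_lit 5255) (nat_lit 4) (nat_lit 10))
    (@En.n l117 (nat_lit 5482) (nat_lit 5) (nat_lit 4))
    (@En.n l1722 (nat_lit 854) (nat_lit 7) (nat_lit 13))
    (@En.i (nat_lit 368) (nat_lit 7) (nat_lit 6))
    (@En.n l3 (nat_lit 7592) (nat_lit 8) (nat_lit 2))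
    (@En.i (nat_lit 5497) (nat_lit 10) (nat_lit 12))
    (@En.i (nat_lit 8870) (nat_lit 11) (nat_lit 14))
    (@En.i (nat_lit 13292) (nat_lit 11) (nat_lit 7))
    (@En.i (nat_lit 4291) (nat_lit 3) (nat_lit 4))
    (@En.i (nat_lit 636) (nat_lit 4) (nat_lit 10))
    (@En.i (nat_lit 11214) (nat_lit 5) (nat_lit 6))
    (@En.n l50 (nat_lit 7592) (nat_lit 15) (nat_lit 2))))
  (@Cl.mk (nat_lit 0x20007000d0004000b00030009000c000c00050009000400040007000e000c) (nat_lit 0x306059201000ca) (nat_lit 16) Lb.e (@T16.mk En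
    (@En.n l5779 (nat_lit 5496) (nat_lit 12) (nat_lit 12))
    (@En.n l5838 (nat_lit 8866) (nat_lit 1) (nat_lit 14))
    (@En.n l7 (nat_lit 7592) (nat_lit 11) (nat_lit 7))
    (@En.n l644 (nat_lit 7592) (nat_lit 12) (nat_lit 4))
    (@En.n l5838 (nat_lit 4290) (nat_lit 4) (nat_lit 4))
    (@En.n l5779 (nat_lit 633) (nat_lit 5) (nat_lit 9))
    (@En.i (nat_lit 11213) (nat_lit 6) (nat_lit 5))
    (@En.n l5837 (nat_lit 7595) (nat_lit 4) (nat_lit 12))
    (@En.n l5838 (nat_lit 7978) (nat_lit 9) (nat_lit 12))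
    (@En.i (nat_lit 886) (nat_lit 10) (nat_lit 9))
    (@En.i (nat_lit 7589) (nat_lit 10) (nat_lit 3))
    (@En.n l14446 (nat_lit 5254) (nat_lit 12) (nat_lit 11))
    (@En.n l117 (nat_lit 5480) (nat_lit 13) (nat_lit 4))
    (@En.n l6508 (nat_lit 855) (nat_lit 14) (nat_lit 13))
    (@En.i (nat_lit 369) (nat_lit 3) (nat_lit 7))
    (@En.n l3 (nat_lit 7593) (nat_lit 15) (nat_lit 2))))
  (@Cl.mk (nat_lit 0x20007000e000b00020008000d000b000500030009000c00050008000e0004) (nat_lit 0xc9013900540140) (nat_lit 16) Lb.e (@T16.mk En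
    (@En.n l7910 (nat_lit 7589) (nat_lit 4) (nat_lit 4))
    (@En.i (nat_lit 7192) (nat_lit 6) (nat_lit 14))
    (@En.n l766 (nat_lit 631) (nat_lit 10) (nat_lit 8))
    (@En.i (nat_lit 9890) (nat_lit 3) (nat_lit 5))
    (@En.i (nat_lit 6313) (nat_lit 9) (nat_lit 12))
    (@En.n l287 (nat_lit 5982) (nat_lit 5) (nat_lit 9))
    (@En.n l11 (nat_lit 7595) (nat_lit 6) (nat_lit 3))
    (@En.n l2238 (nat_lit 898) (nat_lit 7) (nat_lit 5))
    (@En.n l55 (nat_lit 7596) (nat_lit 13) (nat_lit 11))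
    (@En.n l387 (nat_lit 860) (nat_lit 10) (nat_lit 13))
    (@En.i (nat_lit 915) (nat_lit 11) (nat_lit 8))
    (@En.n l3 (nat_lit 7594) (nat_lit 11) (nat_lit 2))
    (@En.n l387 (nat_lit 7599) (nat_lit 13) (nat_lit 11))
    (@En.i (nat_lit 8887) (nat_lit 1) (nat_lit 14))
    (@En.n l2179 (nat_lit 7589) (nat_lit 2) (nat_lit 7))
    (@En.n l50 (nat_lit 7594) (nat_lit 15) (nat_lit 2))))
  (@Cl.mk (nat_lit 0x20007000e000c00020008000d0004000c00030009000c00040008000e0004) (nat_lit 0xca013090510140) (nat_lit 16) Lb.e (@T16.mk En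
    (@En.n l7910 (nat_lit 7593) (nat_lit 4) (nat_lit 4))
    (@En.i (nat_lit 4753) (nat_lit 6) (nat_lit 14))
    (@En.n l766 (nat_lit 635) (nat_lit 2) (nat_lit 8))
    (@En.i (nat_lit 11266) (nat_lit 3) (nat_lit 4))
    (@En.i (nat_lit 6314) (nat_lit 9) (nat_lit 12))
    (@En.i (nat_lit 2320) (nat_lit 5) (nat_lit 9))
    (@En.i (nat_lit 7594) (nat_lit 6) (nat_lit 3))
    (@En.n l1253 (nat_lit 5904) (nat_lit 0) (nat_lit 12))
    (@En.n l117 (nat_lit 5481) (nat_lit 8) (nat_lit 4))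
    (@En.n l387 (nat_lit 858) (nat_lit 10) (nat_lit 13))
    (@En.i (nat_lit 911) (nat_lit 11) (nat_lit 8))
    (@En.n l3 (nat_lit 7595) (nat_lit 11) (nat_lit 2))
    (@En.n l387 (nat_lit 7600) (nat_lit 13) (nat_lit 12))
    (@En.i (nat_lit 8868) (nat_lit 1) (nat_lit 14))
    (@En.n l2179 (nat_lit 7593) (nat_lit 2) (nat_lit 7))
    (@En.n l50 (nat_lit 7595) (nat_lit 15) (nat_lit 2))))
  (@Cl.mk (nat_lit 0x20008000b0004000c0008000b000500040008000e000500020008000e000c) (nat_lit 0x180a4300250029a) (nat_lit 16) Lb.e (@T16.mk En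
    (@En.n l387 (nat_lit 7598) (nat_lit 13) (nat_lit 12))
    (@En.i (nat_lit 8888) (nat_lit 1) (nat_lit 14))
    (@En.n l12666 (nat_lit 7591) (nat_lit 2) (nat_lit 8))
    (@En.n l50 (nat_lit 7596) (nat_lit 3) (nat_lit 2))
    (@En.n l12661 (nat_lit 7591) (nat_lit 4) (nat_lit 5))
    (@En.i (nat_lit 8706) (nat_lit 6) (nat_lit 14))
    (@En.n l343 (nat_lit 7594) (nat_lit 2) (nat_lit 8))
    (@En.n l28 (nat_lit 7595) (nat_lit 3) (nat_lit 4))
    (@En.i (nat_lit 9888) (nat_lit 4) (nat_lit 5))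
    (@En.i (nat_lit 6312) (nat_lit 10) (nat_lit 11))
    (@En.n l4316 (nat_lit 5978) (nat_lit 6) (nat_lit 8))
    (@En.n l1253 (nat_lit 5905) (nat_lit 12) (nat_lit 12))
    (@En.n l117 (nat_lit 5184) (nat_lit 8) (nat_lit 4))
    (@En.n l387 (nat_lit 3112) (nat_lit 10) (nat_lit 11))
    (@En.i (nat_lit 917) (nat_lit 11) (nat_lit 8))
    (@En.n l3 (nat_lit 7596) (nat_lit 15) (nat_lit 2))))
  (@Cl.mk (nat_lit 0x20008000d0008000500030009000d000c00080003000800040007000e000b) (nat_lit 0x240045550100b0) (nat_lit 16) Lb.e (@T16.mk En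
    (@En.n l27733 (nat_lit 12154) (nat_lit 11) (nat_lit 11))
    (@En.n l8142 (nat_lit 8259) (nat_lit 1) (nat_lit 14))
    (@En.n l1723 (nat_lit 7019) (nat_lit 2) (nat_lit 7))
    (@En.n l6042 (nat_lit 7589) (nat_lit 3) (nat_lit 4))
    (@En.n l2943 (nat_lit 7551) (nat_lit 4) (nat_lit 8))
    (@En.n l2351 (nat_lit 12157) (nat_lit 5) (nat_lit 3))
    (@En.i (nat_lit 11630) (nat_lit 0) (nat_lit 8))
    (@En.n l5838 (nat_lit 12158) (nat_lit 8) (nat_lit 12))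
    (@En.n l6441 (nat_lit 8265) (nat_lit 9) (nat_lit 13))
    (@En.n l15752 (nat_lit 12467) (nat_lit 10) (nat_lit 9))
    (@En.n l11 (nat_lit 4291) (nat_lit 10) (nat_lit 3))
    (@En.n l6441 (nat_lit 8093) (nat_lit 0) (nat_lit 5))
    (@En.n l15752 (nat_lit 10205) (nat_lit 13) (nat_lit 8))
    (@En.n l6441 (nat_lit 3871) (nat_lit 14) (nat_lit 13))
    (@En.i (nat_lit 8834) (nat_lit 3) (nat_lit 8))
    (@En.n l3 (nat_lit 7597) (nat_lit 15) (nat_lit 2))))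
  (@Cl.mk (nat_lit 0x20008000c000c0007000a00040004000c0008000b000600040009000e0005) (nat_lit 0x198070075100280) (nat_lit 16) Lb.e (@T16.mk En
    (@En.n l9881 (nat_lit 7510) (nat_lit 6) (nat_lit 5))
    (@En.n l3505 (nat_lit 7457) (nat_lit 1) (nat_lit 14))
    (@En.n l3506 (nat_lit 7599) (nat_lit 2) (nat_lit 9))
    (@En.n l28 (nat_lit 7600) (nat_lit 3) (nat_lit 4))
    (@En.n l541 (nat_lit 9886) (nat_lit 4) (nat_lit 6))
    (@En.i (nat_lit 6310) (nat_lit 7) (nat_lit 11))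
    (@En.n l4311 (nat_lit 5987) (nat_lit 6) (nat_lit 8))
    (@En.n l9882 (nat_lit 7568) (nat_lit 8) (nat_lit 12))
    (@En.n l3498 (nat_lit 7596) (nat_lit 12) (nat_lit 4))
    (@En.n l3505 (nat_lit 5183) (nat_lit 9) (nat_lit 4))
    (@En.i (nat_lit 3109) (nat_lit 11) (nat_lit 10))
    (@En.n l564 (nat_lit 1309) (nat_lit 12) (nat_lit 7))
    (@En.n l3501 (nat_lit 7509) (nat_lit 13) (nat_lit 12))
    (@En.n l3502 (nat_lit 9282) (nat_lit 14) (nat_lit 12))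
    (@En.n l38308 (nat_lit 7510) (nat_lit 4) (nat_lit 8))
    (@En.n l18 (nat_lit 7598) (nat_lit 15) (nat_lit 2))))
  (@Cl.mk (nat_lit 0x20007000b000b0007000c000a0005000500040009000c00060009000e0004) (nat_lit 0x87088000610170) (nat_lit 16) Lb.e (@T16.mk En
    (@En.n l3506 (nat_lit 7513) (nat_lit 15) (nat_lit 4))
    (@En.n l564 (nat_lit 7444) (nat_lit 1) (nat_lit 14))
    (@En.n l3506 (nat_lit 639) (nat_lit 9) (nat_lit 9))
    (@En.i (nat_lit 9887) (nat_lit 3) (nat_lit 6))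
    (@En.i (nat_lit 6318) (nat_lit 6) (nat_lit 12))
    (@En.n l21530 (nat_lit 7887) (nat_lit 5) (nat_lit 9))
    (@En.n l17159 (nat_lit 5492) (nat_lit 6) (nat_lit 4))
    (@En.n l3498 (nat_lit 7594) (nat_lit 7) (nat_lit 5))
    (@En.n l936 (nat_lit 7601) (nat_lit 8) (nat_lit 5))
    (@En.n l55 (nat_lit 7598) (nat_lit 10) (nat_lit 10))
    (@En.i (nat_lit 3333) (nat_lit 11) (nat_lit 12))
    (@En.n l8379 (nat_lit 5471) (nat_lit 12) (nat_lit 7))
    (@En.n l4003 (nat_lit 7453) (nat_lit 5) (nat_lit 11))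
    (@En.n l4538 (nat_lit 9281) (nat_lit 14) (nat_lit 11))
    (@En.n l22009 (nat_lit 7513) (nat_lit 13) (nat_lit 7))
    (@En.n l18 (nat_lit 7599) (nat_lit 15) (nat_lit 2))))
noncomputable def a475 : T16 Cl := @T16.mk Cl
  (@Cl.mk (nat_lit 0x20007000c000c0007000c00040004000c00040009000c00040009000e0004) (nat_lit 0x970100906a01c0) (nat_lit 16) Lb.e (@T16.mk En
    (@En.n l3506 (nat_lit 5496) (nat_lit 15) (nat_lit 4))
    (@En.n l564 (nat_lit 7303) (nat_lit 1) (nat_lit 14))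
    (@En.n l3506 (nat_lit 738) (nat_lit 2) (nat_lit 9))
    (@En.i (nat_lit 11267) (nat_lit 3) (nat_lit 4))
    (@En.i (nat_lit 6317) (nat_lit 6) (nat_lit 12))
    (@En.n l5022 (nat_lit 2251) (nat_lit 5) (nat_lit 9))
    (@En.i (nat_lit 7599) (nat_lit 6) (nat_lit 4))
    (@En.n l9882 (nat_lit 7559) (nat_lit 8) (nat_lit 12))
    (@En.n l3498 (nat_lit 7595) (nat_lit 8) (nat_lit 4))
    (@En.n l13355 (nat_lit 5494) (nat_lit 9) (nat_lit 4))
    (@En.i (nat_lit 859) (nat_lit 11) (nat_lit 12))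
    (@En.n l564 (nat_lit 5478) (nat_lit 12) (nat_lit 7))
    (@En.n l4003 (nat_lit 7508) (nat_lit 13) (nat_lit 12))
    (@En.i (nat_lit 9285) (nat_lit 14) (nat_lit 12))
    (@En.n l22009 (nat_lit 5496) (nat_lit 13) (nat_lit 7))
    (@En.n l18 (nat_lit 7600) (nat_lit 15) (nat_lit 2))))
  (@Cl.mk (nat_lit 0x20007000b0007000c0008000d0005000400030009000c00090008000e0004) (nat_lit 0x908130005121c0) (nat_lit 16) Lb.e (@T16.mk En
    (@En.n l39917 (nat_lit 7602) (nat_lit 9) (nat_lit 4))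
    (@En.n l564 (nat_lit 7292) (nat_lit 1) (nat_lit 14))
    (@En.n l16485 (nat_lit 733) (nat_lit 2) (nat_lit 8))
    (@En.n l39918 (nat_lit 8134) (nat_lit 3) (nat_lit 9))
    (@En.i (nat_lit 6243) (nat_lit 6) (nat_lit 12))
    (@En.n l5022 (nat_lit 7892) (nat_lit 5) (nat_lit 9))
    (@En.n l16564 (nat_lit 7603) (nat_lit 6) (nat_lit 3))
    (@En.n l25470 (nat_lit 901) (nat_lit 7) (nat_lit 4))
    (@En.n l25471 (nat_lit 7604) (nat_lit 8) (nat_lit 5))
    (@En.i (nat_lit 3326) (nat_lit 10) (nat_lit 13))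
    (@En.n l25458 (nat_lit 5188) (nat_lit 11) (nat_lit 8))
    (@En.i (nat_lit 7600) (nat_lit 12) (nat_lit 12))
    (@En.n l21138 (nat_lit 3305) (nat_lit 13) (nat_lit 7))
    (@En.n l8145 (nat_lit 8521) (nat_lit 14) (nat_lit 11))
    (@En.n l39919 (nat_lit 7602) (nat_lit 7) (nat_lit 7))
    (@En.n l18 (nat_lit 7601) (nat_lit 15) (nat_lit 2))))
  (@Cl.mk (nat_lit 0x30009000c000c000a0009000400040007000b0006000c0007000d00050004) (nat_lit 0x512310009050300) (nat_lit 16) Lb.e (@T16.mk En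
    (@En.n l16398 (nat_lit 900) (nat_lit 0) (nat_lit 4))
    (@En.n l61 (nat_lit 5465) (nat_lit 0) (nat_lit 5))
    (@En.n l28240 (nat_lit 3323) (nat_lit 1) (nat_lit 13))
    (@En.n l28241 (nat_lit 5186) (nat_lit 3) (nat_lit 7))
    (@En.n l27996 (nat_lit 5496) (nat_lit 11) (nat_lit 12))
    (@En.n l1295 (nat_lit 3306) (nat_lit 5) (nat_lit 6))
    (@En.n l2921 (nat_lit 8546) (nat_lit 8) (nat_lit 11))
    (@En.n l3 (nat_lit 7612) (nat_lit 11) (nat_lit 7))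
    (@En.n l527 (nat_lit 7612) (nat_lit 12) (nat_lit 4))
    (@En.n l28242 (nat_lit 7614) (nat_lit 0) (nat_lit 4))
    (@En.n l11780 (nat_lit 732) (nat_lit 0) (nat_lit 9))
    (@En.n l180 (nat_lit 10387) (nat_lit 12) (nat_lit 10))
    (@En.n l28243 (nat_lit 7601) (nat_lit 4) (nat_lit 12))
    (@En.n l28240 (nat_lit 6245) (nat_lit 6) (nat_lit 12))
    (@En.n l6131 (nat_lit 7893) (nat_lit 4) (nat_lit 9))
    (@En.n l18 (nat_lit 5468) (nat_lit 13) (nat_lit 3))))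
  (@Cl.mk (nat_lit 0x20007000a0007000d0008000d0003000600030009000c00090008000e0004) (nat_lit 0x60a330007a21c0) (nat_lit 16) Lb.e (@T16.mk En
    (@En.n l11830 (nat_lit 5468) (nat_lit 7) (nat_lit 4))
    (@En.i (nat_lit 7291) (nat_lit 1) (nat_lit 14))
    (@En.n l4758 (nat_lit 653) (nat_lit 2) (nat_lit 8))
    (@En.n l11831 (nat_lit 8135) (nat_lit 3) (nat_lit 9))
    (@En.n l2038 (nat_lit 6244) (nat_lit 6) (nat_lit 12))
    (@En.n l13127 (nat_lit 7604) (nat_lit 5) (nat_lit 9))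
    (@En.n l11792 (nat_lit 7601) (nat_lit 6) (nat_lit 3))
    (@En.n l3902 (nat_lit 5751) (nat_lit 7) (nat_lit 6))
    (@En.i (nat_lit 7605) (nat_lit 8) (nat_lit 3))
    (@En.n l3902 (nat_lit 3734) (nat_lit 0) (nat_lit 13))
    (@En.n l5605 (nat_lit 7829) (nat_lit 11) (nat_lit 8))
    (@En.n l899 (nat_lit 5492) (nat_lit 12) (nat_lit 13))
    (@En.i (nat_lit 3309) (nat_lit 13) (nat_lit 7))
    (@En.n l3902 (nat_lit 8514) (nat_lit 14) (nat_lit 10))
    (@En.n l11833 (nat_lit 5468) (nat_lit 5) (nat_lit 7))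
    (@En.n l11 (nat_lit 7603) (nat_lit 15) (nat_lit 2))))
  (@Cl.mk (nat_lit 0x20007000b000a0008000d00090005000300060009000c00080007000e0004) (nat_lit 0x976930006a30c0) (nat_lit 16) Lb.e (@T16.mk En
    (@En.n l27332 (nat_lit 5465) (nat_lit 8) (nat_lit 4))
    (@En.n l649 (nat_lit 7293) (nat_lit 1) (nat_lit 14))
    (@En.n l14209 (nat_lit 730) (nat_lit 2) (nat_lit 7))
    (@En.i (nat_lit 8136) (nat_lit 3) (nat_lit 8))
    (@En.i (nat_lit 6231) (nat_lit 6) (nat_lit 12))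
    (@En.n l13672 (nat_lit 7765) (nat_lit 5) (nat_lit 9))
    (@En.n l18324 (nat_lit 5754) (nat_lit 6) (nat_lit 6))
    (@En.n l731 (nat_lit 7607) (nat_lit 7) (nat_lit 3))
    (@En.n l1865 (nat_lit 7453) (nat_lit 0) (nat_lit 5))
    (@En.n l639 (nat_lit 7822) (nat_lit 10) (nat_lit 9))
    (@En.n l28 (nat_lit 5494) (nat_lit 11) (nat_lit 13))
    (@En.n l18989 (nat_lit 5183) (nat_lit 12) (nat_lit 8))
    (@En.n l13675 (nat_lit 7603) (nat_lit 13) (nat_lit 10))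
    (@En.n l27333 (nat_lit 12106) (nat_lit 14) (nat_lit 11))
    (@En.n l27334 (nat_lit 5465) (nat_lit 6) (nat_lit 7))
    (@En.n l18 (nat_lit 7604) (nat_lit 15) (nat_lit 2))))
  (@Cl.mk (nat_lit 0x20007000a0007000d000c00090003000600040009000c00090007000e0004) (nat_lit 0x60b920007140c0) (nat_lit 16) Lb.e (@T16.mk En
    (@En.n l11830 (nat_lit 5467) (nat_lit 7) (nat_lit 4))
    (@En.i (nat_lit 7286) (nat_lit 1) (nat_lit 14))
    (@En.n l4403 (nat_lit 822) (nat_lit 2) (nat_lit 7))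
    (@En.n l25486 (nat_lit 8132) (nat_lit 3) (nat_lit 9))
    (@En.n l4403 (nat_lit 4503) (nat_lit 6) (nat_lit 12))
    (@En.n l25487 (nat_lit 7607) (nat_lit 5) (nat_lit 9))
    (@En.n l11793 (nat_lit 7606) (nat_lit 6) (nat_lit 4))
    (@En.n l25488 (nat_lit 8229) (nat_lit 7) (nat_lit 6))
    (@En.n l50 (nat_lit 7603) (nat_lit 8) (nat_lit 3))
    (@En.n l25489 (nat_lit 1666) (nat_lit 0) (nat_lit 9))
    (@En.n l25490 (nat_lit 7601) (nat_lit 11) (nat_lit 12))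
    (@En.n l25491 (nat_lit 5493) (nat_lit 12) (nat_lit 13))
    (@En.i (nat_lit 3310) (nat_lit 13) (nat_lit 7))
    (@En.n l10826 (nat_lit 8511) (nat_lit 14) (nat_lit 10))
    (@En.n l11833 (nat_lit 5467) (nat_lit 5) (nat_lit 7))
    (@En.n l11 (nat_lit 7605) (nat_lit 15) (nat_lit 2))))
  (@Cl.mk (nat_lit 0x20007000c0007000c000c0004000a000400040009000c00090006000e0004) (nat_lit 0x801101003140c0) (nat_lit 16) Lb.e (@T16.mk En
    (@En.i (nat_lit 7608) (nat_lit 15) (nat_lit 4))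
    (@En.n l615 (nat_lit 7205) (nat_lit 1) (nat_lit 14))
    (@En.n l11939 (nat_lit 795) (nat_lit 2) (nat_lit 6))
    (@En.n l2872 (nat_lit 8131) (nat_lit 3) (nat_lit 9))
    (@En.i (nat_lit 6415) (nat_lit 6) (nat_lit 12))
    (@En.n l1866 (nat_lit 7757) (nat_lit 5) (nat_lit 9))
    (@En.n l1282 (nat_lit 7609) (nat_lit 12) (nat_lit 4))
    (@En.n l11940 (nat_lit 7601) (nat_lit 7) (nat_lit 4))
    (@En.n l616 (nat_lit 336) (nat_lit 9) (nat_lit 10))
    (@En.n l14237 (nat_lit 7607) (nat_lit 9) (nat_lit 4))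
    (@En.n l55 (nat_lit 901) (nat_lit 11) (nat_lit 12))
    (@En.n l615 (nat_lit 5481) (nat_lit 12) (nat_lit 12))
    (@En.n l25621 (nat_lit 2934) (nat_lit 13) (nat_lit 7))
    (@En.n l14239 (nat_lit 8585) (nat_lit 14) (nat_lit 12))
    (@En.n l1738 (nat_lit 7608) (nat_lit 13) (nat_lit 7))
    (@En.n l18 (nat_lit 7606) (nat_lit 15) (nat_lit 2))))
  (@Cl.mk (nat_lit 0x20007000c000a0008000d0004000a000300060009000c00080006000e0004) (nat_lit 0x976902006a3080) (nat_lit 16) Lb.e (@T16.mk En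
    (@En.i (nat_lit 5463) (nat_lit 8) (nat_lit 4))
    (@En.n l2880 (nat_lit 7283) (nat_lit 1) (nat_lit 14))
    (@En.n l3100 (nat_lit 783) (nat_lit 2) (nat_lit 6))
    (@En.i (nat_lit 8133) (nat_lit 3) (nat_lit 8))
    (@En.n l1643 (nat_lit 6232) (nat_lit 6) (nat_lit 12))
    (@En.n l2880 (nat_lit 7760) (nat_lit 5) (nat_lit 9))
    (@En.n l8434 (nat_lit 8230) (nat_lit 12) (nat_lit 6))
    (@En.n l615 (nat_lit 7604) (nat_lit 7) (nat_lit 3))
    (@En.n l893 (nat_lit 1663) (nat_lit 0) (nat_lit 10))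
    (@En.n l19957 (nat_lit 905) (nat_lit 9) (nat_lit 4))
    (@En.n l7 (nat_lit 5483) (nat_lit 11) (nat_lit 13))
    (@En.n l13706 (nat_lit 5182) (nat_lit 12) (nat_lit 8))
    (@En.n l8972 (nat_lit 7605) (nat_lit 13) (nat_lit 10))
    (@En.i (nat_lit 9064) (nat_lit 14) (nat_lit 12))
    (@En.n l617 (nat_lit 5463) (nat_lit 6) (nat_lit 7))
    (@En.n l17 (nat_lit 7607) (nat_lit 15) (nat_lit 2))))
  (@Cl.mk (nat_lit 0x400040007000c0006000c000c00040009000400040009000c000c000a0007) (nat_lit 0x8011010031250) (nat_lit 16) Lb.e (@T16.mk En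
    (@En.n l11939 (nat_lit 791) (nat_lit 0) (nat_lit 7))
    (@En.n l1978 (nat_lit 8120) (nat_lit 1) (nat_lit 10))
    (@En.n l217 (nat_lit 7606) (nat_lit 4) (nat_lit 12))
    (@En.i (nat_lit 6253) (nat_lit 6) (nat_lit 12))
    (@En.n l2312 (nat_lit 7755) (nat_lit 4) (nat_lit 9))
    (@En.n l2308 (nat_lit 7610) (nat_lit 12) (nat_lit 4))
    (@En.n l14235 (nat_lit 7602) (nat_lit 0) (nat_lit 4))
    (@En.n l14236 (nat_lit 338) (nat_lit 0) (nat_lit 9))
    (@En.n l14237 (nat_lit 5463) (nat_lit 1) (nat_lit 4))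
    (@En.n l55 (nat_lit 900) (nat_lit 4) (nat_lit 12))
    (@En.n l1978 (nat_lit 5480) (nat_lit 1) (nat_lit 12))
    (@En.n l14238 (nat_lit 2527) (nat_lit 4) (nat_lit 6))
    (@En.n l14239 (nat_lit 8350) (nat_lit 13) (nat_lit 12))
    (@En.n l5907 (nat_lit 7640) (nat_lit 11) (nat_lit 7))
    (@En.n l5908 (nat_lit 7640) (nat_lit 12) (nat_lit 4))
    (@En.n l14240 (nat_lit 7639) (nat_lit 0) (nat_lit 4))))
  (@Cl.mk (nat_lit 0x20005000b00040009000c00090005000e000400020007000b0007000e000c) (nat_lit 0x102160100080c2) (nat_lit 16) Lb.e (@T16.mk En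
    (@En.n l700 (nat_lit 7606) (nat_lit 11) (nat_lit 12))
    (@En.n l9432 (nat_lit 7611) (nat_lit 12) (nat_lit 14))
    (@En.n l11956 (nat_lit 3353) (nat_lit 13) (nat_lit 7))
    (@En.n l245 (nat_lit 8580) (nat_lit 3) (nat_lit 11))
    (@En.n l5592 (nat_lit 7610) (nat_lit 4) (nat_lit 7))
    (@En.n l7 (nat_lit 7609) (nat_lit 5) (nat_lit 2))
    (@En.n l28 (nat_lit 7610) (nat_lit 6) (nat_lit 4))
    (@En.n l2266 (nat_lit 4010) (nat_lit 8) (nat_lit 14))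
    (@En.n l9434 (nat_lit 801) (nat_lit 8) (nat_lit 5))
    (@En.n l5560 (nat_lit 8130) (nat_lit 3) (nat_lit 9))
    (@En.i (nat_lit 6411) (nat_lit 11) (nat_lit 12))
    (@En.n l9647 (nat_lit 3736) (nat_lit 12) (nat_lit 9))
    (@En.n l11957 (nat_lit 7605) (nat_lit 6) (nat_lit 4))
    (@En.n l4361 (nat_lit 341) (nat_lit 8) (nat_lit 11))
    (@En.n l1034 (nat_lit 8228) (nat_lit 8) (nat_lit 5))
    (@En.n l3 (nat_lit 7609) (nat_lit 15) (nat_lit 2))))
  (@Cl.mk (nat_lit 0x20005000a00040009000c000c000a0006000400040007000b0006000e000c) (nat_lit 0x102127000080c2) (nat_lit 16) Lb.e (@T16.mk En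
    (@En.n l6612 (nat_lit 7608) (nat_lit 10) (nat_lit 12))
    (@En.n l6613 (nat_lit 7626) (nat_lit 1) (nat_lit 14))
    (@En.n l5560 (nat_lit 3352) (nat_lit 2) (nat_lit 6))
    (@En.n l245 (nat_lit 8477) (nat_lit 3) (nat_lit 11))
    (@En.n l4172 (nat_lit 7628) (nat_lit 4) (nat_lit 7))
    (@En.n l237 (nat_lit 7628) (nat_lit 5) (nat_lit 4))
    (@En.i (nat_lit 7632) (nat_lit 6) (nat_lit 4))
    (@En.n l6614 (nat_lit 797) (nat_lit 7) (nat_lit 6))
    (@En.n l6615 (nat_lit 8125) (nat_lit 9) (nat_lit 10))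
    (@En.n l134 (nat_lit 7609) (nat_lit 10) (nat_lit 12))
    (@En.i (nat_lit 6418) (nat_lit 11) (nat_lit 12))
    (@En.n l250 (nat_lit 3212) (nat_lit 12) (nat_lit 9))
    (@En.n l6616 (nat_lit 5467) (nat_lit 13) (nat_lit 4))
    (@En.n l6617 (nat_lit 342) (nat_lit 14) (nat_lit 10))
    (@En.i (nat_lit 820) (nat_lit 13) (nat_lit 5))
    (@En.n l3 (nat_lit 7610) (nat_lit 15) (nat_lit 2))))
  (@Cl.mk (nat_lit 0x20007000b000e000b0002000a0005000b00050009000c00060005000e0004) (nat_lit 0x7b108030410040) (nat_lit 16) Lb.e (@T16.mk En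
    (@En.i (nat_lit 7626) (nat_lit 5) (nat_lit 4))
    (@En.n l12614 (nat_lit 7389) (nat_lit 1) (nat_lit 14))
    (@En.i (nat_lit 581) (nat_lit 2) (nat_lit 5))
    (@En.n l16914 (nat_lit 9838) (nat_lit 3) (nat_lit 6))
    (@En.n l1643 (nat_lit 6410) (nat_lit 10) (nat_lit 12))
    (@En.n l13013 (nat_lit 3737) (nat_lit 5) (nat_lit 9))
    (@En.n l11235 (nat_lit 5493) (nat_lit 6) (nat_lit 5))
    (@En.n l12890 (nat_lit 992) (nat_lit 8) (nat_lit 11))
    (@En.n l13477 (nat_lit 7609) (nat_lit 14) (nat_lit 5))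
    (@En.i (nat_lit 5471) (nat_lit 10) (nat_lit 10))
    (@En.n l107 (nat_lit 7611) (nat_lit 10) (nat_lit 2))
    (@En.n l16948 (nat_lit 905) (nat_lit 12) (nat_lit 11))
    (@En.i (nat_lit 5759) (nat_lit 13) (nat_lit 14))
    (@En.n l4758 (nat_lit 8582) (nat_lit 2) (nat_lit 11))
    (@En.n l617 (nat_lit 7626) (nat_lit 3) (nat_lit 7))
    (@En.n l17 (nat_lit 7611) (nat_lit 15) (nat_lit 2))))
  (@Cl.mk (nat_lit 0x2000b000a00040007000b0005000c0006000d0005000400030009000e000c) (nat_lit 0x410090403000592) (nat_lit 16) Lb.e (@T16.mk En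
    (@En.i (nat_lit 7602) (nat_lit 13) (nat_lit 12))
    (@En.n l14869 (nat_lit 6362) (nat_lit 1) (nat_lit 14))
    (@En.i (nat_lit 7894) (nat_lit 2) (nat_lit 9))
    (@En.n l18 (nat_lit 5469) (nat_lit 3) (nat_lit 3))
    (@En.n l12570 (nat_lit 902) (nat_lit 0) (nat_lit 4))
    (@En.n l61 (nat_lit 5464) (nat_lit 5) (nat_lit 5))
    (@En.n l14869 (nat_lit 3324) (nat_lit 7) (nat_lit 13))
    (@En.n l9962 (nat_lit 5187) (nat_lit 7) (nat_lit 6))
    (@En.n l3540 (nat_lit 5497) (nat_lit 9) (nat_lit 12))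
    (@En.n l28 (nat_lit 3348) (nat_lit 9) (nat_lit 5))
    (@En.i (nat_lit 8541) (nat_lit 11) (nat_lit 11))
    (@En.i (nat_lit 13977) (nat_lit 11) (nat_lit 7))
    (@En.n l14869 (nat_lit 7613) (nat_lit 8) (nat_lit 4))
    (@En.n l77 (nat_lit 734) (nat_lit 14) (nat_lit 10))
    (@En.n l3540 (nat_lit 10395) (nat_lit 1) (nat_lit 11))
    (@En.n l107 (nat_lit 7612) (nat_lit 15) (nat_lit 2))))
  (@Cl.mk (nat_lit 0x30009000d000c00080003000c00040007000b0004000c0008000d00050004) (nat_lit 0x650007000070200) (nat_lit 16) Lb.e (@T16.mk En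
    (@En.n l18 (nat_lit 8090) (nat_lit 0) (nat_lit 4))
    (@En.n l38105 (nat_lit 7622) (nat_lit 0) (nat_lit 5))
    (@En.i (nat_lit 3001) (nat_lit 1) (nat_lit 13))
    (@En.n l61 (nat_lit 10300) (nat_lit 3) (nat_lit 8))
    (@En.n l24385 (nat_lit 12153) (nat_lit 10) (nat_lit 12))
    (@En.n l38106 (nat_lit 10431) (nat_lit 5) (nat_lit 4))
    (@En.n l8047 (nat_lit 8696) (nat_lit 0) (nat_lit 11))
    (@En.n l22253 (nat_lit 7108) (nat_lit 11) (nat_lit 7))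
    (@En.n l27871 (nat_lit 7602) (nat_lit 8) (nat_lit 4))
    (@En.n l38107 (nat_lit 10427) (nat_lit 0) (nat_lit 12))
    (@En.n l10862 (nat_lit 7615) (nat_lit 1) (nat_lit 3))
    (@En.n l9524 (nat_lit 9371) (nat_lit 0) (nat_lit 8))
    (@En.n l22188 (nat_lit 7614) (nat_lit 4) (nat_lit 12))
    (@En.i (nat_lit 10160) (nat_lit 6) (nat_lit 13))
    (@En.i (nat_lit 7905) (nat_lit 3) (nat_lit 9))
    (@En.n l11228 (nat_lit 7616) (nat_lit 13) (nat_lit 3))))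
  (@Cl.mk (nat_lit 0x30007000b0005000c0009000d0005000400030009000c0007000d000b0004) (nat_lit 0x8080006a0960) (nat_lit 16) Lb.e (@T16.mk En
    (@En.n l8329 (nat_lit 7601) (nat_lit 0) (nat_lit 4))
    (@En.i (nat_lit 10426) (nat_lit 11) (nat_lit 11))
    (@En.n l22886 (nat_lit 7202) (nat_lit 1) (nat_lit 13))
    (@En.i (nat_lit 10664) (nat_lit 3) (nat_lit 7))
    (@En.n l2038 (nat_lit 9768) (nat_lit 6) (nat_lit 12))
    (@En.i (nat_lit 8623) (nat_lit 5) (nat_lit 9))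
    (@En.n l3519 (nat_lit 7617) (nat_lit 13) (nat_lit 3))
    (@En.n l18 (nat_lit 8091) (nat_lit 0) (nat_lit 4))
    (@En.n l10577 (nat_lit 7623) (nat_lit 0) (nat_lit 5))
    (@En.i (nat_lit 3744) (nat_lit 1) (nat_lit 13))
    (@En.n l61 (nat_lit 9962) (nat_lit 3) (nat_lit 9))
    (@En.n l8329 (nat_lit 12152) (nat_lit 12) (nat_lit 12))
    (@En.n l22886 (nat_lit 10434) (nat_lit 5) (nat_lit 5))
    (@En.n l3517 (nat_lit 8702) (nat_lit 14) (nat_lit 11))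
    (@En.i (nat_lit 7613) (nat_lit 7) (nat_lit 7))
    (@En.n l28 (nat_lit 7615) (nat_lit 15) (nat_lit 3))))
  (@Cl.mk (nat_lit 0x30007000b0004000c0009000d0005000400030009000d0007000d0003000c) (nat_lit 0x2000660902) (nat_lit 16) Lb.e (@T16.mk En
    (@En.i (nat_lit 7675) (nat_lit 0) (nat_lit 12))
    (@En.n l10969 (nat_lit 7613) (nat_lit 10) (nat_lit 3))
    (@En.i (nat_lit 7219) (nat_lit 0) (nat_lit 13))
    (@En.i (nat_lit 10666) (nat_lit 3) (nat_lit 7))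
    (@En.n l2038 (nat_lit 8745) (nat_lit 6) (nat_lit 13))
    (@En.i (nat_lit 8622) (nat_lit 5) (nat_lit 9))
    (@En.n l3519 (nat_lit 7618) (nat_lit 13) (nat_lit 3))
    (@En.n l18 (nat_lit 8089) (nat_lit 0) (nat_lit 4))
    (@En.n l10577 (nat_lit 7624) (nat_lit 0) (nat_lit 5))
    (@En.i (nat_lit 3005) (nat_lit 1) (nat_lit 13))
    (@En.n l61 (nat_lit 9960) (nat_lit 11) (nat_lit 9))
    (@En.i (nat_lit 12151) (nat_lit 10) (nat_lit 12))
    (@En.i (nat_lit 10429) (nat_lit 5) (nat_lit 4))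
    (@En.n l3517 (nat_lit 8700) (nat_lit 14) (nat_lit 11))
    (@En.i (nat_lit 3927) (nat_lit 12) (nat_lit 7))
    (@En.i (nat_lit 7614) (nat_lit 15) (nat_lit 3))))
noncomputable def a476 : T16 Cl := @T16.mk Cl
  (@Cl.mk (nat_lit 0x3000600030009000d000c00080003000c00040007000a0004000d0008000d) (nat_lit 0x6500000030702) (nat_lit 16) Lb.e (@T16.mk En
    (@En.i (nat_lit 4258) (nat_lit 0) (nat_lit 13))
    (@En.i (nat_lit 10301) (nat_lit 3) (nat_lit 8))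
    (@En.i (nat_lit 12149) (nat_lit 10) (nat_lit 13))
    (@En.i (nat_lit 10432) (nat_lit 3) (nat_lit 4))
    (@En.i (nat_lit 8692) (nat_lit 8) (nat_lit 10))
    (@En.n l1501 (nat_lit 3923) (nat_lit 11) (nat_lit 7))
    (@En.n l8812 (nat_lit 5468) (nat_lit 6) (nat_lit 4))
    (@En.n l4270 (nat_lit 10428) (nat_lit 0) (nat_lit 12))
    (@En.n l7 (nat_lit 7618) (nat_lit 8) (nat_lit 3))
    (@En.n l1501 (nat_lit 9367) (nat_lit 0) (nat_lit 8))
    (@En.n l644 (nat_lit 7617) (nat_lit 11) (nat_lit 12))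
    (@En.n l13544 (nat_lit 10163) (nat_lit 12) (nat_lit 13))
    (@En.i (nat_lit 7622) (nat_lit 13) (nat_lit 9))
    (@En.n l9450 (nat_lit 7613) (nat_lit 15) (nat_lit 3))
    (@En.i (nat_lit 5689) (nat_lit 0) (nat_lit 6))
    (@En.n l2604 (nat_lit 7619) (nat_lit 15) (nat_lit 3))))
  (@Cl.mk (nat_lit 0x3000600030009000c0007000d000b000400030007000a0005000d0009000d) (nat_lit 0x4a09100020808) (nat_lit 16) Lb.e (@T16.mk En
    (@En.i (nat_lit 3743) (nat_lit 0) (nat_lit 13))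
    (@En.i (nat_lit 9963) (nat_lit 11) (nat_lit 9))
    (@En.n l3327 (nat_lit 12150) (nat_lit 12) (nat_lit 13))
    (@En.n l3348 (nat_lit 10435) (nat_lit 5) (nat_lit 5))
    (@En.i (nat_lit 8681) (nat_lit 8) (nat_lit 10))
    (@En.n l612 (nat_lit 7616) (nat_lit 5) (nat_lit 7))
    (@En.n l50 (nat_lit 7618) (nat_lit 6) (nat_lit 3))
    (@En.n l5559 (nat_lit 7603) (nat_lit 0) (nat_lit 4))
    (@En.n l5854 (nat_lit 6225) (nat_lit 9) (nat_lit 11))
    (@En.n l3348 (nat_lit 7290) (nat_lit 1) (nat_lit 13))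
    (@En.i (nat_lit 10661) (nat_lit 3) (nat_lit 7))
    (@En.n l2605 (nat_lit 9769) (nat_lit 6) (nat_lit 12))
    (@En.i (nat_lit 7623) (nat_lit 13) (nat_lit 9))
    (@En.n l2832 (nat_lit 7614) (nat_lit 6) (nat_lit 3))
    (@En.i (nat_lit 5688) (nat_lit 0) (nat_lit 6))
    (@En.n l2604 (nat_lit 7620) (nat_lit 15) (nat_lit 3))))
  (@Cl.mk (nat_lit 0x3000600030009000d0007000d0003000c00030007000a0004000d0009000d) (nat_lit 0x4609020030802) (nat_lit 16) Lb.e (@T16.mk En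
    (@En.i (nat_lit 4256) (nat_lit 0) (nat_lit 13))
    (@En.i (nat_lit 9961) (nat_lit 11) (nat_lit 9))
    (@En.i (nat_lit 12148) (nat_lit 12) (nat_lit 13))
    (@En.i (nat_lit 10430) (nat_lit 3) (nat_lit 4))
    (@En.i (nat_lit 8687) (nat_lit 8) (nat_lit 10))
    (@En.i (nat_lit 3920) (nat_lit 12) (nat_lit 7))
    (@En.i (nat_lit 7617) (nat_lit 6) (nat_lit 3))
    (@En.i (nat_lit 7093) (nat_lit 0) (nat_lit 12))
    (@En.i (nat_lit 7616) (nat_lit 8) (nat_lit 3))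
    (@En.n l3348 (nat_lit 7217) (nat_lit 0) (nat_lit 13))
    (@En.i (nat_lit 10667) (nat_lit 3) (nat_lit 7))
    (@En.n l2605 (nat_lit 10188) (nat_lit 12) (nat_lit 13))
    (@En.i (nat_lit 7624) (nat_lit 13) (nat_lit 9))
    (@En.n l2832 (nat_lit 7615) (nat_lit 6) (nat_lit 3))
    (@En.i (nat_lit 5687) (nat_lit 0) (nat_lit 6))
    (@En.n l2604 (nat_lit 7621) (nat_lit 15) (nat_lit 3))))
  (@Cl.mk (nat_lit 0x3000600040009000d000c00070003000c00040007000a0004000d000c0009) (nat_lit 0x4400010030680) (nat_lit 16) Lb.e (@T16.mk En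
    (@En.n l97 (nat_lit 9524) (nat_lit 0) (nat_lit 9))
    (@En.n l1236 (nat_lit 7613) (nat_lit 4) (nat_lit 12))
    (@En.n l11294 (nat_lit 8247) (nat_lit 10) (nat_lit 13))
    (@En.n l24817 (nat_lit 10075) (nat_lit 3) (nat_lit 4))
    (@En.n l7889 (nat_lit 8686) (nat_lit 8) (nat_lit 10))
    (@En.n l11297 (nat_lit 5526) (nat_lit 11) (nat_lit 7))
    (@En.n l24818 (nat_lit 5467) (nat_lit 6) (nat_lit 4))
    (@En.n l13266 (nat_lit 6221) (nat_lit 0) (nat_lit 12))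
    (@En.n l28 (nat_lit 7621) (nat_lit 8) (nat_lit 3))
    (@En.n l17265 (nat_lit 9301) (nat_lit 0) (nat_lit 7))
    (@En.n l77 (nat_lit 7620) (nat_lit 11) (nat_lit 12))
    (@En.i (nat_lit 10165) (nat_lit 12) (nat_lit 13))
    (@En.n l8484 (nat_lit 8243) (nat_lit 13) (nat_lit 9))
    (@En.n l345 (nat_lit 7638) (nat_lit 4) (nat_lit 4))
    (@En.i (nat_lit 8354) (nat_lit 12) (nat_lit 6))
    (@En.n l830 (nat_lit 7616) (nat_lit 15) (nat_lit 3))))
  (@Cl.mk (nat_lit 0x3000600040009000c0006000d000b000400030007000a0005000d000c000a) (nat_lit 0x4a05100020790) (nat_lit 16) Lb.e (@T16.mk En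
    (@En.n l619 (nat_lit 9498) (nat_lit 0) (nat_lit 10))
    (@En.n l16898 (nat_lit 7614) (nat_lit 11) (nat_lit 12))
    (@En.n l16899 (nat_lit 8248) (nat_lit 12) (nat_lit 13))
    (@En.n l16900 (nat_lit 10074) (nat_lit 3) (nat_lit 5))
    (@En.n l7889 (nat_lit 8680) (nat_lit 8) (nat_lit 10))
    (@En.n l4172 (nat_lit 7619) (nat_lit 5) (nat_lit 7))
    (@En.n l7 (nat_lit 7621) (nat_lit 6) (nat_lit 3))
    (@En.n l16901 (nat_lit 7605) (nat_lit 0) (nat_lit 4))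
    (@En.i (nat_lit 6222) (nat_lit 9) (nat_lit 11))
    (@En.n l5592 (nat_lit 7285) (nat_lit 1) (nat_lit 13))
    (@En.n l16902 (nat_lit 8427) (nat_lit 3) (nat_lit 6))
    (@En.i (nat_lit 8583) (nat_lit 6) (nat_lit 12))
    (@En.n l8484 (nat_lit 8242) (nat_lit 13) (nat_lit 9))
    (@En.n l6826 (nat_lit 7639) (nat_lit 6) (nat_lit 4))
    (@En.i (nat_lit 8238) (nat_lit 12) (nat_lit 6))
    (@En.n l830 (nat_lit 7617) (nat_lit 15) (nat_lit 3))))
  (@Cl.mk (nat_lit 0x3000600040009000d0006000d0003000c00030007000a0004000d000c000a) (nat_lit 0x3a05020030717) (nat_lit 16) Lb.e (@T16.mk En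
    (@En.n l619 (nat_lit 9501) (nat_lit 0) (nat_lit 10))
    (@En.n l16898 (nat_lit 7615) (nat_lit 11) (nat_lit 12))
    (@En.i (nat_lit 8249) (nat_lit 12) (nat_lit 13))
    (@En.n l4172 (nat_lit 10433) (nat_lit 3) (nat_lit 4))
    (@En.n l7889 (nat_lit 8683) (nat_lit 8) (nat_lit 10))
    (@En.n l4172 (nat_lit 3926) (nat_lit 12) (nat_lit 7))
    (@En.i (nat_lit 7620) (nat_lit 6) (nat_lit 3))
    (@En.n l217 (nat_lit 7672) (nat_lit 0) (nat_lit 12))
    (@En.i (nat_lit 7619) (nat_lit 8) (nat_lit 3))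
    (@En.n l5592 (nat_lit 7289) (nat_lit 0) (nat_lit 13))
    (@En.i (nat_lit 9078) (nat_lit 3) (nat_lit 6))
    (@En.i (nat_lit 10189) (nat_lit 12) (nat_lit 13))
    (@En.n l8484 (nat_lit 7625) (nat_lit 13) (nat_lit 9))
    (@En.n l6826 (nat_lit 8088) (nat_lit 6) (nat_lit 4))
    (@En.i (nat_lit 8357) (nat_lit 12) (nat_lit 6))
    (@En.n l830 (nat_lit 7618) (nat_lit 15) (nat_lit 3))))
  (@Cl.mk (nat_lit 0x300060009000d000c00070003000b00040007000b000a0005000d00090005) (nat_lit 0x54200100740200) (nat_lit 16) Lb.e (@T16.mk En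
    (@En.i (nat_lit 12129) (nat_lit 0) (nat_lit 5))
    (@En.n l34697 (nat_lit 10302) (nat_lit 0) (nat_lit 9))
    (@En.n l19482 (nat_lit 8253) (nat_lit 9) (nat_lit 13))
    (@En.n l20091 (nat_lit 10213) (nat_lit 3) (nat_lit 5))
    (@En.n l11 (nat_lit 7616) (nat_lit 4) (nat_lit 10))
    (@En.n l159 (nat_lit 11796) (nat_lit 12) (nat_lit 11))
    (@En.n l386 (nat_lit 5555) (nat_lit 11) (nat_lit 7))
    (@En.n l8812 (nat_lit 5465) (nat_lit 7) (nat_lit 4))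
    (@En.n l43107 (nat_lit 6224) (nat_lit 0) (nat_lit 11))
    (@En.n l7 (nat_lit 7624) (nat_lit 9) (nat_lit 3))
    (@En.n l1501 (nat_lit 9365) (nat_lit 0) (nat_lit 7))
    (@En.n l644 (nat_lit 7623) (nat_lit 12) (nat_lit 12))
    (@En.n l21675 (nat_lit 10149) (nat_lit 13) (nat_lit 13))
    (@En.n l23849 (nat_lit 8625) (nat_lit 9) (nat_lit 9))
    (@En.n l5732 (nat_lit 5684) (nat_lit 12) (nat_lit 6))
    (@En.n l23850 (nat_lit 8243) (nat_lit 15) (nat_lit 3))))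
  (@Cl.mk (nat_lit 0x300060009000c0006000d000a000400030007000b000a0006000d000a0005) (nat_lit 0x31081000730200) (nat_lit 16) Lb.e (@T16.mk En
    (@En.n l4133 (nat_lit 12130) (nat_lit 0) (nat_lit 5))
    (@En.n l33205 (nat_lit 10303) (nat_lit 10) (nat_lit 10))
    (@En.n l19480 (nat_lit 8254) (nat_lit 11) (nat_lit 13))
    (@En.n l33206 (nat_lit 10470) (nat_lit 3) (nat_lit 6))
    (@En.n l11 (nat_lit 7617) (nat_lit 4) (nat_lit 10))
    (@En.n l159 (nat_lit 11827) (nat_lit 14) (nat_lit 11))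
    (@En.n l612 (nat_lit 7622) (nat_lit 6) (nat_lit 7))
    (@En.n l50 (nat_lit 7624) (nat_lit 7) (nat_lit 3))
    (@En.n l33207 (nat_lit 7604) (nat_lit 0) (nat_lit 4))
    (@En.n l5854 (nat_lit 6223) (nat_lit 10) (nat_lit 10))
    (@En.n l3348 (nat_lit 7294) (nat_lit 1) (nat_lit 13))
    (@En.n l33208 (nat_lit 10663) (nat_lit 3) (nat_lit 6))
    (@En.n l2611 (nat_lit 6403) (nat_lit 6) (nat_lit 12))
    (@En.n l23849 (nat_lit 8626) (nat_lit 9) (nat_lit 9))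
    (@En.n l5732 (nat_lit 5686) (nat_lit 12) (nat_lit 6))
    (@En.n l23850 (nat_lit 8242) (nat_lit 15) (nat_lit 3))))
  (@Cl.mk (nat_lit 0x300060009000d0006000d0003000b00030007000b000a0005000d000a0005) (nat_lit 0x350b0200740200) (nat_lit 16) Lb.e (@T16.mk En
    (@En.i (nat_lit 12127) (nat_lit 0) (nat_lit 5))
    (@En.n l23851 (nat_lit 10304) (nat_lit 10) (nat_lit 10))
    (@En.i (nat_lit 8255) (nat_lit 9) (nat_lit 13))
    (@En.n l20092 (nat_lit 10215) (nat_lit 3) (nat_lit 5))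
    (@En.n l11 (nat_lit 7618) (nat_lit 4) (nat_lit 10))
    (@En.n l159 (nat_lit 11826) (nat_lit 14) (nat_lit 11))
    (@En.n l21137 (nat_lit 3928) (nat_lit 12) (nat_lit 7))
    (@En.i (nat_lit 7623) (nat_lit 7) (nat_lit 3))
    (@En.i (nat_lit 7676) (nat_lit 0) (nat_lit 11))
    (@En.i (nat_lit 7622) (nat_lit 9) (nat_lit 3))
    (@En.n l23846 (nat_lit 7218) (nat_lit 0) (nat_lit 13))
    (@En.i (nat_lit 10668) (nat_lit 3) (nat_lit 6))
    (@En.n l2611 (nat_lit 10150) (nat_lit 13) (nat_lit 13))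
    (@En.n l23849 (nat_lit 8624) (nat_lit 9) (nat_lit 9))
    (@En.n l5732 (nat_lit 5685) (nat_lit 12) (nat_lit 6))
    (@En.n l23850 (nat_lit 7625) (nat_lit 15) (nat_lit 3))))
  (@Cl.mk (nat_lit 0x300060009000d0005000d0003000b00030007000c000a0005000d0004000b) (nat_lit 0x210b0200940308) (nat_lit 16) Lb.e (@T16.mk En
    (@En.i (nat_lit 9497) (nat_lit 0) (nat_lit 11))
    (@En.n l6680 (nat_lit 7637) (nat_lit 9) (nat_lit 4))
    (@En.n l17 (nat_lit 8246) (nat_lit 9) (nat_lit 13))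
    (@En.n l18910 (nat_lit 10468) (nat_lit 3) (nat_lit 5))
    (@En.n l24372 (nat_lit 7621) (nat_lit 4) (nat_lit 10))
    (@En.n l31130 (nat_lit 9178) (nat_lit 12) (nat_lit 12))
    (@En.n l387 (nat_lit 5523) (nat_lit 12) (nat_lit 7))
    (@En.i (nat_lit 8242) (nat_lit 7) (nat_lit 3))
    (@En.i (nat_lit 7673) (nat_lit 0) (nat_lit 11))
    (@En.i (nat_lit 8243) (nat_lit 9) (nat_lit 3))
    (@En.n l1722 (nat_lit 7288) (nat_lit 0) (nat_lit 13))
    (@En.i (nat_lit 9074) (nat_lit 3) (nat_lit 5))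
    (@En.n l24372 (nat_lit 4329) (nat_lit 13) (nat_lit 13))
    (@En.i (nat_lit 8611) (nat_lit 9) (nat_lit 9))
    (@En.n l7504 (nat_lit 8359) (nat_lit 12) (nat_lit 6))
    (@En.n l17779 (nat_lit 7624) (nat_lit 15) (nat_lit 3))))
  (@Cl.mk (nat_lit 0x200090005000a00050009000c000c00070006000400040007000b000e000b) (nat_lit 0x7030292000008b1) (nat_lit 16) Lb.e (@T16.mk En
    (@En.n l3596 (nat_lit 903) (nat_lit 11) (nat_lit 11))
    (@En.i (nat_lit 931) (nat_lit 4) (nat_lit 14))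
    (@En.n l14761 (nat_lit 8478) (nat_lit 2) (nat_lit 11))
    (@En.n l14762 (nat_lit 7627) (nat_lit 3) (nat_lit 7))
    (@En.n l14763 (nat_lit 7627) (nat_lit 4) (nat_lit 4))
    (@En.n l14764 (nat_lit 7630) (nat_lit 5) (nat_lit 4))
    (@En.i (nat_lit 580) (nat_lit 6) (nat_lit 6))
    (@En.n l5912 (nat_lit 9852) (nat_lit 7) (nat_lit 7))
    (@En.n l61 (nat_lit 7611) (nat_lit 4) (nat_lit 12))
    (@En.n l1643 (nat_lit 6419) (nat_lit 10) (nat_lit 12))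
    (@En.n l5891 (nat_lit 862) (nat_lit 11) (nat_lit 9))
    (@En.n l11235 (nat_lit 5489) (nat_lit 12) (nat_lit 5))
    (@En.n l14765 (nat_lit 994) (nat_lit 13) (nat_lit 10))
    (@En.n l14766 (nat_lit 7610) (nat_lit 14) (nat_lit 5))
    (@En.n l14767 (nat_lit 1311) (nat_lit 2) (nat_lit 9))
    (@En.n l107 (nat_lit 7626) (nat_lit 15) (nat_lit 2))))
  (@Cl.mk (nat_lit 0x200080005000900050009000e000c00020008000700040007000b000e000b) (nat_lit 0x602029a040008b1) (nat_lit 16) Lb.e (@T16.mk En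
    (@En.n l68 (nat_lit 904) (nat_lit 9) (nat_lit 11))
    (@En.n l638 (nat_lit 932) (nat_lit 10) (nat_lit 14))
    (@En.n l11468 (nat_lit 8525) (nat_lit 2) (nat_lit 11))
    (@En.i (nat_lit 13846) (nat_lit 11) (nat_lit 7))
    (@En.n l11385 (nat_lit 7629) (nat_lit 4) (nat_lit 4))
    (@En.n l638 (nat_lit 582) (nat_lit 14) (nat_lit 7))
    (@En.i (nat_lit 9853) (nat_lit 6) (nat_lit 8))
    (@En.n l50 (nat_lit 7627) (nat_lit 7) (nat_lit 2))
    (@En.n l6048 (nat_lit 7626) (nat_lit 9) (nat_lit 12))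
    (@En.n l601 (nat_lit 7644) (nat_lit 10) (nat_lit 14))
    (@En.n l255 (nat_lit 3211) (nat_lit 2) (nat_lit 9))
    (@En.i (nat_lit 5490) (nat_lit 3) (nat_lit 5))
    (@En.n l3082 (nat_lit 1242) (nat_lit 4) (nat_lit 9))
    (@En.n l16907 (nat_lit 7628) (nat_lit 14) (nat_lit 5))
    (@En.n l4819 (nat_lit 5470) (nat_lit 6) (nat_lit 8))
    (@En.n l67 (nat_lit 7627) (nat_lit 15) (nat_lit 2))))
  (@Cl.mk (nat_lit 0x20005000900040009000e000c0002000b000700040007000b0005000e000c) (nat_lit 0x202920800080c2) (nat_lit 16) Lb.e (@T16.mk En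
    (@En.n l11294 (nat_lit 7640) (nat_lit 8) (nat_lit 12))
    (@En.n l11295 (nat_lit 7627) (nat_lit 1) (nat_lit 14))
    (@En.n l11296 (nat_lit 3351) (nat_lit 2) (nat_lit 5))
    (@En.n l245 (nat_lit 8522) (nat_lit 3) (nat_lit 11))
    (@En.n l11297 (nat_lit 13849) (nat_lit 11) (nat_lit 7))
    (@En.i (nat_lit 7631) (nat_lit 5) (nat_lit 4))
    (@En.n l11298 (nat_lit 802) (nat_lit 6) (nat_lit 7))
    (@En.n l1544 (nat_lit 8123) (nat_lit 8) (nat_lit 11))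
    (@En.n l28 (nat_lit 7628) (nat_lit 8) (nat_lit 2))
    (@En.n l77 (nat_lit 7610) (nat_lit 10) (nat_lit 12))
    (@En.i (nat_lit 7642) (nat_lit 11) (nat_lit 14))
    (@En.n l250 (nat_lit 3210) (nat_lit 12) (nat_lit 9))
    (@En.n l11299 (nat_lit 5466) (nat_lit 3) (nat_lit 4))
    (@En.n l1544 (nat_lit 1595) (nat_lit 14) (nat_lit 9))
    (@En.n l11300 (nat_lit 5456) (nat_lit 5) (nat_lit 5))
    (@En.n l3 (nat_lit 7628) (nat_lit 15) (nat_lit 2))))
  (@Cl.mk (nat_lit 0x200070005000b00050009000d000c00050003000900040007000b000e000b) (nat_lit 0x30320005009b9) (nat_lit 16) Lb.e (@T16.mk En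
    (@En.n l11294 (nat_lit 7635) (nat_lit 10) (nat_lit 11))
    (@En.n l3324 (nat_lit 5682) (nat_lit 4) (nat_lit 14))
    (@En.n l245 (nat_lit 8483) (nat_lit 2) (nat_lit 11))
    (@En.n l22002 (nat_lit 7055) (nat_lit 11) (nat_lit 7))
    (@En.n l9432 (nat_lit 7626) (nat_lit 4) (nat_lit 4))
    (@En.n l11295 (nat_lit 9855) (nat_lit 5) (nat_lit 9))
    (@En.n l28 (nat_lit 7633) (nat_lit 6) (nat_lit 3))
    (@En.n l9680 (nat_lit 9530) (nat_lit 7) (nat_lit 5))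
    (@En.n l22003 (nat_lit 7630) (nat_lit 9) (nat_lit 12))
    (@En.i (nat_lit 8332) (nat_lit 10) (nat_lit 13))
    (@En.n l250 (nat_lit 3745) (nat_lit 11) (nat_lit 9))
    (@En.n l11295 (nat_lit 8247) (nat_lit 4) (nat_lit 5))
    (@En.n l22004 (nat_lit 7353) (nat_lit 13) (nat_lit 11))
    (@En.n l17 (nat_lit 7631) (nat_lit 14) (nat_lit 5))
    (@En.i (nat_lit 10088) (nat_lit 7) (nat_lit 7))
    (@En.n l3 (nat_lit 7629) (nat_lit 15) (nat_lit 2))))
  (@Cl.mk (nat_lit 0x200080005000c00050009000c0004000d0008000400030007000b000e000b) (nat_lit 0x401a0140009b9) (nat_lit 16) Lb.e (@T16.mk En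
    (@En.n l17002 (nat_lit 7636) (nat_lit 12) (nat_lit 11))
    (@En.n l9878 (nat_lit 5681) (nat_lit 4) (nat_lit 14))
    (@En.n l14195 (nat_lit 8334) (nat_lit 2) (nat_lit 11))
    (@En.n l17003 (nat_lit 7629) (nat_lit 3) (nat_lit 7))
    (@En.n l17004 (nat_lit 7633) (nat_lit 4) (nat_lit 3))
    (@En.n l9878 (nat_lit 7611) (nat_lit 0) (nat_lit 4))
    (@En.n l12644 (nat_lit 9584) (nat_lit 6) (nat_lit 8))
    (@En.n l11421 (nat_lit 4012) (nat_lit 8) (nat_lit 13))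
    (@En.n l9878 (nat_lit 9527) (nat_lit 8) (nat_lit 4))
    (@En.n l12644 (nat_lit 8581) (nat_lit 10) (nat_lit 12))
    (@En.n l17005 (nat_lit 3738) (nat_lit 11) (nat_lit 9))
    (@En.n l6814 (nat_lit 8248) (nat_lit 6) (nat_lit 5))
    (@En.n l1106 (nat_lit 7355) (nat_lit 13) (nat_lit 12))
    (@En.n l2299 (nat_lit 7632) (nat_lit 14) (nat_lit 5))
    (@En.n l12644 (nat_lit 10089) (nat_lit 2) (nat_lit 8))
    (@En.n l7 (nat_lit 7630) (nat_lit 15) (nat_lit 2))))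
  (@Cl.mk (nat_lit 0x20005000b00040009000d000c00050003000c00040007000b0004000e000c) (nat_lit 0x301400000090ca) (nat_lit 16) Lb.e (@T16.mk En
    (@En.n l345 (nat_lit 7638) (nat_lit 9) (nat_lit 12))
    (@En.i (nat_lit 7629) (nat_lit 1) (nat_lit 14))
    (@En.n l9723 (nat_lit 9572) (nat_lit 2) (nat_lit 4))
    (@En.n l245 (nat_lit 8485) (nat_lit 3) (nat_lit 11))
    (@En.n l9724 (nat_lit 7059) (nat_lit 4) (nat_lit 7))
    (@En.n l28 (nat_lit 7610) (nat_lit 5) (nat_lit 4))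
    (@En.n l9726 (nat_lit 8126) (nat_lit 7) (nat_lit 12))
    (@En.n l28 (nat_lit 7634) (nat_lit 7) (nat_lit 3))
    (@En.n l11276 (nat_lit 9531) (nat_lit 8) (nat_lit 5))
    (@En.n l77 (nat_lit 7632) (nat_lit 10) (nat_lit 12))
    (@En.i (nat_lit 8335) (nat_lit 11) (nat_lit 13))
    (@En.n l250 (nat_lit 3858) (nat_lit 12) (nat_lit 9))
    (@En.n l117 (nat_lit 7619) (nat_lit 13) (nat_lit 4))
    (@En.n l9724 (nat_lit 7280) (nat_lit 14) (nat_lit 11))
    (@En.i (nat_lit 8355) (nat_lit 13) (nat_lit 5))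
    (@En.n l3 (nat_lit 7631) (nat_lit 15) (nat_lit 2))))
noncomputable def a477 : T16 Cl := @T16.mk Cl
  (@Cl.mk (nat_lit 0x20005000c00040009000c0004000d000b000400030007000b0005000e000c) (nat_lit 0x301a01000090ca) (nat_lit 16) Lb.e (@T16.mk En
    (@En.n l6826 (nat_lit 7639) (nat_lit 11) (nat_lit 12))
    (@En.n l6827 (nat_lit 7630) (nat_lit 1) (nat_lit 14))
    (@En.n l5560 (nat_lit 9574) (nat_lit 2) (nat_lit 5))
    (@En.n l245 (nat_lit 8338) (nat_lit 3) (nat_lit 11))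
    (@En.n l4172 (nat_lit 7631) (nat_lit 4) (nat_lit 7))
    (@En.n l7 (nat_lit 7634) (nat_lit 5) (nat_lit 3))
    (@En.i (nat_lit 7609) (nat_lit 6) (nat_lit 4))
    (@En.n l875 (nat_lit 8127) (nat_lit 8) (nat_lit 11))
    (@En.n l5592 (nat_lit 4007) (nat_lit 9) (nat_lit 13))
    (@En.i (nat_lit 9499) (nat_lit 9) (nat_lit 4))
    (@En.i (nat_lit 8579) (nat_lit 11) (nat_lit 12))
    (@En.n l250 (nat_lit 3739) (nat_lit 12) (nat_lit 9))
    (@En.n l117 (nat_lit 7620) (nat_lit 13) (nat_lit 4))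
    (@En.n l5560 (nat_lit 6993) (nat_lit 14) (nat_lit 12))
    (@En.i (nat_lit 8236) (nat_lit 13) (nat_lit 5))
    (@En.n l3 (nat_lit 7632) (nat_lit 15) (nat_lit 2))))
  (@Cl.mk (nat_lit 0x200070005000c00050009000d0004000d0003000900030007000b000e000b) (nat_lit 0x30120205002b9) (nat_lit 16) Lb.e (@T16.mk En
    (@En.n l5646 (nat_lit 7637) (nat_lit 12) (nat_lit 11))
    (@En.n l3324 (nat_lit 5683) (nat_lit 4) (nat_lit 14))
    (@En.n l245 (nat_lit 8484) (nat_lit 2) (nat_lit 11))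
    (@En.n l4172 (nat_lit 7056) (nat_lit 3) (nat_lit 7))
    (@En.n l6827 (nat_lit 7630) (nat_lit 4) (nat_lit 3))
    (@En.n l7611 (nat_lit 12526) (nat_lit 0) (nat_lit 9))
    (@En.i (nat_lit 7629) (nat_lit 6) (nat_lit 3))
    (@En.n l5592 (nat_lit 7388) (nat_lit 0) (nat_lit 13))
    (@En.i (nat_lit 8078) (nat_lit 8) (nat_lit 4))
    (@En.i (nat_lit 8333) (nat_lit 10) (nat_lit 13))
    (@En.n l250 (nat_lit 3746) (nat_lit 11) (nat_lit 9))
    (@En.n l117 (nat_lit 8249) (nat_lit 6) (nat_lit 5))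
    (@En.n l2039 (nat_lit 7357) (nat_lit 13) (nat_lit 12))
    (@En.n l17 (nat_lit 7634) (nat_lit 14) (nat_lit 5))
    (@En.i (nat_lit 9585) (nat_lit 7) (nat_lit 7))
    (@En.n l3 (nat_lit 7633) (nat_lit 15) (nat_lit 2))))
  (@Cl.mk (nat_lit 0x20005000c00040009000d0004000d0003000c00030007000b0004000e000c) (nat_lit 0x201401020030ca) (nat_lit 16) Lb.e (@T16.mk En
    (@En.n l6826 (nat_lit 8088) (nat_lit 11) (nat_lit 12))
    (@En.i (nat_lit 7633) (nat_lit 1) (nat_lit 14))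
    (@En.n l17006 (nat_lit 9573) (nat_lit 2) (nat_lit 4))
    (@En.n l245 (nat_lit 8486) (nat_lit 3) (nat_lit 11))
    (@En.n l4172 (nat_lit 7058) (nat_lit 4) (nat_lit 7))
    (@En.i (nat_lit 7632) (nat_lit 5) (nat_lit 3))
    (@En.n l217 (nat_lit 7671) (nat_lit 0) (nat_lit 12))
    (@En.i (nat_lit 7631) (nat_lit 7) (nat_lit 3))
    (@En.n l5592 (nat_lit 4006) (nat_lit 9) (nat_lit 13))
    (@En.i (nat_lit 8077) (nat_lit 9) (nat_lit 4))
    (@En.i (nat_lit 8337) (nat_lit 11) (nat_lit 13))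
    (@En.n l250 (nat_lit 3857) (nat_lit 12) (nat_lit 9))
    (@En.n l117 (nat_lit 7621) (nat_lit 13) (nat_lit 4))
    (@En.n l2039 (nat_lit 6986) (nat_lit 14) (nat_lit 12))
    (@En.i (nat_lit 8358) (nat_lit 13) (nat_lit 5))
    (@En.n l3 (nat_lit 7634) (nat_lit 15) (nat_lit 2))))
  (@Cl.mk (nat_lit 0x3000a00040007000c000b000b00060004000a000500050009000d000c0006) (nat_lit 0x500282004004300) (nat_lit 16) Lb.e (@T16.mk En
    (@En.i (nat_lit 9314) (nat_lit 0) (nat_lit 6))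
    (@En.n l36379 (nat_lit 7636) (nat_lit 4) (nat_lit 12))
    (@En.n l15472 (nat_lit 8329) (nat_lit 6) (nat_lit 13))
    (@En.n l15890 (nat_lit 8614) (nat_lit 10) (nat_lit 9))
    (@En.n l23369 (nat_lit 7629) (nat_lit 11) (nat_lit 5))
    (@En.n l27733 (nat_lit 12154) (nat_lit 5) (nat_lit 5))
    (@En.i (nat_lit 6866) (nat_lit 0) (nat_lit 10))
    (@En.n l27733 (nat_lit 7638) (nat_lit 7) (nat_lit 4))
    (@En.i (nat_lit 10210) (nat_lit 0) (nat_lit 6))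
    (@En.n l30753 (nat_lit 8093) (nat_lit 5) (nat_lit 11))
    (@En.n l36380 (nat_lit 7622) (nat_lit 5) (nat_lit 11))
    (@En.n l10226 (nat_lit 8481) (nat_lit 12) (nat_lit 12))
    (@En.n l1723 (nat_lit 7053) (nat_lit 11) (nat_lit 7))
    (@En.n l36381 (nat_lit 903) (nat_lit 14) (nat_lit 4))
    (@En.i (nat_lit 9627) (nat_lit 0) (nat_lit 10))
    (@En.n l15414 (nat_lit 7637) (nat_lit 1) (nat_lit 3))))
  (@Cl.mk (nat_lit 0x30007000c000b000b00070004000b000500050009000c0005000d00090004) (nat_lit 0x382004004a0840) (nat_lit 16) Lb.e (@T16.mk En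
    (@En.n l11706 (nat_lit 905) (nat_lit 0) (nat_lit 4))
    (@En.i (nat_lit 9620) (nat_lit 0) (nat_lit 9))
    (@En.n l22686 (nat_lit 7203) (nat_lit 1) (nat_lit 13))
    (@En.n l19799 (nat_lit 9017) (nat_lit 3) (nat_lit 5))
    (@En.n l22686 (nat_lit 8372) (nat_lit 6) (nat_lit 12))
    (@En.i (nat_lit 8612) (nat_lit 5) (nat_lit 9))
    (@En.n l32544 (nat_lit 7630) (nat_lit 11) (nat_lit 5))
    (@En.n l32545 (nat_lit 12155) (nat_lit 7) (nat_lit 5))
    (@En.n l17134 (nat_lit 7359) (nat_lit 9) (nat_lit 11))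
    (@En.n l17324 (nat_lit 7639) (nat_lit 9) (nat_lit 4))
    (@En.n l32546 (nat_lit 10212) (nat_lit 0) (nat_lit 7))
    (@En.n l22642 (nat_lit 8094) (nat_lit 5) (nat_lit 11))
    (@En.n l22643 (nat_lit 7623) (nat_lit 5) (nat_lit 11))
    (@En.n l13892 (nat_lit 8331) (nat_lit 14) (nat_lit 12))
    (@En.n l32547 (nat_lit 7635) (nat_lit 12) (nat_lit 7))
    (@En.n l50 (nat_lit 7637) (nat_lit 15) (nat_lit 3))))
  (@Cl.mk (nat_lit 0x30007000c000b000b00060004000b000500050009000d0005000d0003000a) (nat_lit 0x38200400440807) (nat_lit 16) Lb.e (@T16.mk En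
    (@En.i (nat_lit 8007) (nat_lit 0) (nat_lit 10))
    (@En.n l34049 (nat_lit 7635) (nat_lit 15) (nat_lit 3))
    (@En.n l1723 (nat_lit 7363) (nat_lit 0) (nat_lit 13))
    (@En.i (nat_lit 9897) (nat_lit 3) (nat_lit 5))
    (@En.n l1003 (nat_lit 8330) (nat_lit 6) (nat_lit 13))
    (@En.i (nat_lit 8613) (nat_lit 10) (nat_lit 9))
    (@En.n l11401 (nat_lit 7633) (nat_lit 11) (nat_lit 5))
    (@En.n l17324 (nat_lit 12131) (nat_lit 7) (nat_lit 5))
    (@En.n l34050 (nat_lit 9536) (nat_lit 9) (nat_lit 11))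
    (@En.n l17324 (nat_lit 8088) (nat_lit 9) (nat_lit 4))
    (@En.i (nat_lit 10211) (nat_lit 8) (nat_lit 6))
    (@En.n l22642 (nat_lit 8092) (nat_lit 5) (nat_lit 11))
    (@En.n l22643 (nat_lit 7624) (nat_lit 5) (nat_lit 11))
    (@En.n l13892 (nat_lit 8482) (nat_lit 12) (nat_lit 12))
    (@En.n l22644 (nat_lit 7052) (nat_lit 12) (nat_lit 7))
    (@En.i (nat_lit 7636) (nat_lit 15) (nat_lit 3))))
  (@Cl.mk (nat_lit 0x3000c00040007000c0004000c000c0004000a000400040009000d000c0006) (nat_lit 0x800209203003300) (nat_lit 16) Lb.e (@T16.mk En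
    (@En.n l22704 (nat_lit 9305) (nat_lit 0) (nat_lit 6))
    (@En.n l22188 (nat_lit 7639) (nat_lit 4) (nat_lit 12))
    (@En.i (nat_lit 8339) (nat_lit 6) (nat_lit 13))
    (@En.n l22705 (nat_lit 8608) (nat_lit 3) (nat_lit 9))
    (@En.n l1071 (nat_lit 7631) (nat_lit 12) (nat_lit 4))
    (@En.i (nat_lit 7613) (nat_lit 0) (nat_lit 4))
    (@En.n l22706 (nat_lit 7279) (nat_lit 0) (nat_lit 10))
    (@En.n l22707 (nat_lit 8243) (nat_lit 1) (nat_lit 4))
    (@En.n l61 (nat_lit 8090) (nat_lit 4) (nat_lit 12))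
    (@En.n l22708 (nat_lit 8250) (nat_lit 10) (nat_lit 12))
    (@En.n l22709 (nat_lit 8129) (nat_lit 10) (nat_lit 4))
    (@En.n l22710 (nat_lit 8487) (nat_lit 0) (nat_lit 12))
    (@En.n l22711 (nat_lit 7060) (nat_lit 11) (nat_lit 7))
    (@En.n l473 (nat_lit 7608) (nat_lit 14) (nat_lit 4))
    (@En.n l19713 (nat_lit 8119) (nat_lit 0) (nat_lit 12))
    (@En.n l10862 (nat_lit 8088) (nat_lit 1) (nat_lit 3))))
  (@Cl.mk (nat_lit 0x30007000c0005000c000c0004000b000400040009000c0005000d000b0004) (nat_lit 0x409203002a0a00) (nat_lit 16) Lb.e (@T16.mk En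
    (@En.n l11283 (nat_lit 7606) (nat_lit 0) (nat_lit 4))
    (@En.i (nat_lit 8121) (nat_lit 0) (nat_lit 11))
    (@En.n l16954 (nat_lit 7201) (nat_lit 1) (nat_lit 13))
    (@En.n l16955 (nat_lit 9488) (nat_lit 3) (nat_lit 5))
    (@En.n l16956 (nat_lit 8578) (nat_lit 6) (nat_lit 12))
    (@En.n l15535 (nat_lit 8609) (nat_lit 5) (nat_lit 9))
    (@En.n l16957 (nat_lit 7632) (nat_lit 12) (nat_lit 4))
    (@En.i (nat_lit 7614) (nat_lit 7) (nat_lit 4))
    (@En.n l8310 (nat_lit 6991) (nat_lit 0) (nat_lit 11))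
    (@En.n l16958 (nat_lit 8242) (nat_lit 1) (nat_lit 4))
    (@En.n l61 (nat_lit 8091) (nat_lit 4) (nat_lit 12))
    (@En.n l16954 (nat_lit 8251) (nat_lit 12) (nat_lit 12))
    (@En.n l8310 (nat_lit 9576) (nat_lit 4) (nat_lit 5))
    (@En.n l3529 (nat_lit 8493) (nat_lit 14) (nat_lit 12))
    (@En.i (nat_lit 7638) (nat_lit 12) (nat_lit 7))
    (@En.n l28 (nat_lit 8088) (nat_lit 15) (nat_lit 3))))
  (@Cl.mk (nat_lit 0x2000b000800040007000c0005000c000c00040008000400040009000e000c) (nat_lit 0x6100a0110100342) (nat_lit 16) Lb.e (@T16.mk En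
    (@En.n l5833 (nat_lit 7608) (nat_lit 3) (nat_lit 12))
    (@En.n l601 (nat_lit 7641) (nat_lit 1) (nat_lit 14))
    (@En.n l649 (nat_lit 7756) (nat_lit 2) (nat_lit 9))
    (@En.n l23369 (nat_lit 7628) (nat_lit 12) (nat_lit 4))
    (@En.n l4814 (nat_lit 7612) (nat_lit 4) (nat_lit 4))
    (@En.n l3531 (nat_lit 343) (nat_lit 5) (nat_lit 8))
    (@En.n l4815 (nat_lit 5462) (nat_lit 6) (nat_lit 4))
    (@En.n l619 (nat_lit 902) (nat_lit 4) (nat_lit 12))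
    (@En.i (nat_lit 5482) (nat_lit 9) (nat_lit 12))
    (@En.n l4816 (nat_lit 2526) (nat_lit 9) (nat_lit 5))
    (@En.n l11429 (nat_lit 8536) (nat_lit 11) (nat_lit 12))
    (@En.i (nat_lit 13357) (nat_lit 11) (nat_lit 7))
    (@En.n l15662 (nat_lit 7638) (nat_lit 13) (nat_lit 4))
    (@En.n l3531 (nat_lit 796) (nat_lit 14) (nat_lit 8))
    (@En.i (nat_lit 8118) (nat_lit 1) (nat_lit 11))
    (@En.n l50 (nat_lit 7640) (nat_lit 15) (nat_lit 2))))
  (@Cl.mk (nat_lit 0x2000c000b000800050004000c0005000c000c0004000800040004000e000b) (nat_lit 0x344008046010031) (nat_lit 16) Lb.e (@T16.mk En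
    (@En.n l5666 (nat_lit 2415) (nat_lit 13) (nat_lit 11))
    (@En.n l5747 (nat_lit 11291) (nat_lit 1) (nat_lit 14))
    (@En.n l5672 (nat_lit 7642) (nat_lit 12) (nat_lit 4))
    (@En.n l5748 (nat_lit 6362) (nat_lit 3) (nat_lit 4))
    (@En.n l3531 (nat_lit 1107) (nat_lit 4) (nat_lit 8))
    (@En.n l5749 (nat_lit 7525) (nat_lit 5) (nat_lit 4))
    (@En.n l5750 (nat_lit 4618) (nat_lit 7) (nat_lit 12))
    (@En.i (nat_lit 7584) (nat_lit 8) (nat_lit 12))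
    (@En.n l5751 (nat_lit 2915) (nat_lit 8) (nat_lit 5))
    (@En.n l5752 (nat_lit 8225) (nat_lit 10) (nat_lit 12))
    (@En.i (nat_lit 7380) (nat_lit 10) (nat_lit 4))
    (@En.n l5748 (nat_lit 8339) (nat_lit 0) (nat_lit 5))
    (@En.n l3531 (nat_lit 2223) (nat_lit 13) (nat_lit 8))
    (@En.n l5753 (nat_lit 8674) (nat_lit 14) (nat_lit 11))
    (@En.n l2018 (nat_lit 7608) (nat_lit 2) (nat_lit 12))
    (@En.n l7 (nat_lit 7641) (nat_lit 15) (nat_lit 2))))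
  (@Cl.mk (nat_lit 0x2000500090004000e000b0002000c000b000700050004000b0005000e000c) (nat_lit 0x30890340009055) (nat_lit 16) Lb.e (@T16.mk En
    (@En.n l2258 (nat_lit 7641) (nat_lit 7) (nat_lit 12))
    (@En.n l2259 (nat_lit 7644) (nat_lit 1) (nat_lit 14))
    (@En.n l50 (nat_lit 2916) (nat_lit 2) (nat_lit 5))
    (@En.n l5 (nat_lit 7648) (nat_lit 3) (nat_lit 11))
    (@En.n l50 (nat_lit 7386) (nat_lit 4) (nat_lit 4))
    (@En.i (nat_lit 8335) (nat_lit 5) (nat_lit 5))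
    (@En.n l682 (nat_lit 2207) (nat_lit 6) (nat_lit 7))
    (@En.n l217 (nat_lit 8671) (nat_lit 8) (nat_lit 11))
    (@En.n l601 (nat_lit 7610) (nat_lit 9) (nat_lit 12))
    (@En.n l28 (nat_lit 7642) (nat_lit 9) (nat_lit 2))
    (@En.i (nat_lit 7643) (nat_lit 11) (nat_lit 11))
    (@En.n l1544 (nat_lit 7185) (nat_lit 12) (nat_lit 14))
    (@En.n l117 (nat_lit 6359) (nat_lit 2) (nat_lit 4))
    (@En.n l1544 (nat_lit 1593) (nat_lit 14) (nat_lit 9))
    (@En.i (nat_lit 6293) (nat_lit 4) (nat_lit 5))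
    (@En.n l3 (nat_lit 7642) (nat_lit 15) (nat_lit 2))))
  (@Cl.mk (nat_lit 0x20005000a0004000b000b000b000a0006000500050005000b0006000e000c) (nat_lit 0x10812300009051) (nat_lit 16) Lb.e (@T16.mk En
    (@En.n l6618 (nat_lit 2415) (nat_lit 3) (nat_lit 12))
    (@En.i (nat_lit 7645) (nat_lit 1) (nat_lit 14))
    (@En.n l50 (nat_lit 2917) (nat_lit 2) (nat_lit 6))
    (@En.n l3786 (nat_lit 7649) (nat_lit 3) (nat_lit 11))
    (@En.n l3787 (nat_lit 7647) (nat_lit 4) (nat_lit 5))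
    (@En.n l55 (nat_lit 7642) (nat_lit 5) (nat_lit 5))
    (@En.i (nat_lit 8527) (nat_lit 6) (nat_lit 5))
    (@En.i (nat_lit 2235) (nat_lit 7) (nat_lit 6))
    (@En.n l2337 (nat_lit 8666) (nat_lit 9) (nat_lit 10))
    (@En.n l601 (nat_lit 6418) (nat_lit 10) (nat_lit 11))
    (@En.n l2281 (nat_lit 6420) (nat_lit 11) (nat_lit 11))
    (@En.n l11 (nat_lit 10097) (nat_lit 12) (nat_lit 11))
    (@En.n l117 (nat_lit 4433) (nat_lit 13) (nat_lit 4))
    (@En.i (nat_lit 345) (nat_lit 14) (nat_lit 10))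
    (@En.i (nat_lit 6286) (nat_lit 13) (nat_lit 5))
    (@En.n l3 (nat_lit 7643) (nat_lit 15) (nat_lit 2))))
  (@Cl.mk (nat_lit 0x20008000500090005000e000b0002000c0008000700050004000b000e000b) (nat_lit 0x301089034000944) (nat_lit 16) Lb.e (@T16.mk En
    (@En.n l68 (nat_lit 7523) (nat_lit 8) (nat_lit 11))
    (@En.n l628 (nat_lit 5780) (nat_lit 4) (nat_lit 14))
    (@En.i (nat_lit 6785) (nat_lit 10) (nat_lit 11))
    (@En.i (nat_lit 4613) (nat_lit 3) (nat_lit 4))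
    (@En.n l5971 (nat_lit 8332) (nat_lit 4) (nat_lit 5))
    (@En.n l628 (nat_lit 2205) (nat_lit 5) (nat_lit 7))
    (@En.n l5971 (nat_lit 9209) (nat_lit 14) (nat_lit 8))
    (@En.n l5972 (nat_lit 7626) (nat_lit 8) (nat_lit 12))
    (@En.n l7 (nat_lit 7644) (nat_lit 8) (nat_lit 2))
    (@En.n l5971 (nat_lit 7645) (nat_lit 10) (nat_lit 11))
    (@En.n l1747 (nat_lit 7184) (nat_lit 11) (nat_lit 14))
    (@En.i (nat_lit 6357) (nat_lit 2) (nat_lit 5))
    (@En.i (nat_lit 1328) (nat_lit 13) (nat_lit 9))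
    (@En.n l5973 (nat_lit 7642) (nat_lit 14) (nat_lit 5))
    (@En.n l5971 (nat_lit 7520) (nat_lit 5) (nat_lit 8))
    (@En.n l67 (nat_lit 7644) (nat_lit 15) (nat_lit 2))))
  (@Cl.mk (nat_lit 0x200090005000a0005000b000b000b00070006000500050005000b000e000b) (nat_lit 0x304081500000841) (nat_lit 16) Lb.e (@T16.mk En
    (@En.n l14699 (nat_lit 2412) (nat_lit 2) (nat_lit 11))
    (@En.n l2073 (nat_lit 5248) (nat_lit 4) (nat_lit 14))
    (@En.n l14700 (nat_lit 7650) (nat_lit 2) (nat_lit 11))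
    (@En.n l3787 (nat_lit 7646) (nat_lit 3) (nat_lit 5))
    (@En.n l14701 (nat_lit 7644) (nat_lit 4) (nat_lit 5))
    (@En.i (nat_lit 8526) (nat_lit 5) (nat_lit 5))
    (@En.n l2073 (nat_lit 2236) (nat_lit 6) (nat_lit 6))
    (@En.n l77 (nat_lit 8278) (nat_lit 7) (nat_lit 7))
    (@En.n l14702 (nat_lit 6419) (nat_lit 9) (nat_lit 11))
    (@En.n l2281 (nat_lit 6421) (nat_lit 5) (nat_lit 11))
    (@En.n l14703 (nat_lit 11137) (nat_lit 11) (nat_lit 11))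
    (@En.n l14704 (nat_lit 6354) (nat_lit 12) (nat_lit 5))
    (@En.n l6598 (nat_lit 1270) (nat_lit 13) (nat_lit 10))
    (@En.n l17 (nat_lit 7643) (nat_lit 14) (nat_lit 5))
    (@En.i (nat_lit 7522) (nat_lit 0) (nat_lit 9))
    (@En.n l3 (nat_lit 7645) (nat_lit 15) (nat_lit 2))))
  (@Cl.mk (nat_lit 0x20008000500090005000a000e000b00020008000700060005000b000e000b) (nat_lit 0x301088204000941) (nat_lit 16) Lb.e (@T16.mk En
    (@En.n l1240 (nat_lit 2408) (nat_lit 9) (nat_lit 11))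
    (@En.n l11316 (nat_lit 5728) (nat_lit 10) (nat_lit 14))
    (@En.n l20007 (nat_lit 9530) (nat_lit 2) (nat_lit 11))
    (@En.n l1241 (nat_lit 4609) (nat_lit 3) (nat_lit 5))
    (@En.i (nat_lit 8524) (nat_lit 4) (nat_lit 6))
    (@En.n l11316 (nat_lit 884) (nat_lit 14) (nat_lit 7))
    (@En.n l1241 (nat_lit 9509) (nat_lit 6) (nat_lit 8))
    (@En.n l7 (nat_lit 7646) (nat_lit 7) (nat_lit 2))
    (@En.n l644 (nat_lit 7645) (nat_lit 9) (nat_lit 11))
    (@En.n l15734 (nat_lit 6776) (nat_lit 10) (nat_lit 14))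
    (@En.n l11316 (nat_lit 12839) (nat_lit 2) (nat_lit 10))
    (@En.n l20008 (nat_lit 4440) (nat_lit 3) (nat_lit 5))
    (@En.n l20009 (nat_lit 1100) (nat_lit 4) (nat_lit 9))
    (@En.n l17 (nat_lit 7647) (nat_lit 14) (nat_lit 5))
    (@En.i (nat_lit 6570) (nat_lit 6) (nat_lit 8))
    (@En.n l3 (nat_lit 7646) (nat_lit 15) (nat_lit 2))))
  (@Cl.mk (nat_lit 0x2000500090004000a000e000b0002000b000700060005000b0005000e000c) (nat_lit 0x30832070009051) (nat_lit 16) Lb.e (@T16.mk En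
    (@En.i (nat_lit 2414) (nat_lit 8) (nat_lit 12))
    (@En.i (nat_lit 7646) (nat_lit 1) (nat_lit 14))
    (@En.i (nat_lit 3221) (nat_lit 2) (nat_lit 5))
    (@En.n l3915 (nat_lit 9531) (nat_lit 3) (nat_lit 11))
    (@En.i (nat_lit 7383) (nat_lit 4) (nat_lit 5))
    (@En.i (nat_lit 8523) (nat_lit 5) (nat_lit 6))
    (@En.n l1042 (nat_lit 882) (nat_lit 6) (nat_lit 7))
    (@En.n l3699 (nat_lit 10609) (nat_lit 8) (nat_lit 11))
    (@En.n l7 (nat_lit 7647) (nat_lit 8) (nat_lit 2))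
    (@En.n l644 (nat_lit 7643) (nat_lit 10) (nat_lit 11))
    (@En.n l9079 (nat_lit 6778) (nat_lit 11) (nat_lit 14))
    (@En.n l11 (nat_lit 12840) (nat_lit 12) (nat_lit 10))
    (@En.n l117 (nat_lit 4438) (nat_lit 3) (nat_lit 4))
    (@En.n l4059 (nat_lit 1594) (nat_lit 14) (nat_lit 9))
    (@En.i (nat_lit 7682) (nat_lit 5) (nat_lit 5))
    (@En.n l3 (nat_lit 7647) (nat_lit 15) (nat_lit 2))))
noncomputable def a478 : T16 Cl := @T16.mk Cl
  (@Cl.mk (nat_lit 0x20005000a00090005000e000b00020006000c00070005000b0004000e000b) (nat_lit 0x640400020080b0) (nat_lit 16) Lb.e (@T16.mk En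
    (@En.n l3250 (nat_lit 8225) (nat_lit 8) (nat_lit 11))
    (@En.n l3251 (nat_lit 6785) (nat_lit 9) (nat_lit 14))
    (@En.n l3252 (nat_lit 7652) (nat_lit 9) (nat_lit 4))
    (@En.n l968 (nat_lit 7048) (nat_lit 3) (nat_lit 11))
    (@En.i (nat_lit 8452) (nat_lit 4) (nat_lit 5))
    (@En.n l3253 (nat_lit 2465) (nat_lit 5) (nat_lit 7))
    (@En.i (nat_lit 8669) (nat_lit 7) (nat_lit 12))
    (@En.n l115 (nat_lit 8470) (nat_lit 7) (nat_lit 6))
    (@En.n l28 (nat_lit 7648) (nat_lit 8) (nat_lit 2))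
    (@En.n l77 (nat_lit 7649) (nat_lit 10) (nat_lit 11))
    (@En.n l1253 (nat_lit 7712) (nat_lit 11) (nat_lit 14))
    (@En.n l3254 (nat_lit 9499) (nat_lit 2) (nat_lit 5))
    (@En.n l3255 (nat_lit 6778) (nat_lit 13) (nat_lit 9))
    (@En.n l3256 (nat_lit 8643) (nat_lit 4) (nat_lit 10))
    (@En.n l499 (nat_lit 9386) (nat_lit 5) (nat_lit 5))
    (@En.n l3 (nat_lit 7648) (nat_lit 15) (nat_lit 2))))
  (@Cl.mk (nat_lit 0x20005000b000a0005000b000b0005000b000600050005000b0005000e000b) (nat_lit 0x62093000008050) (nat_lit 16) Lb.e (@T16.mk En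
    (@En.n l2185 (nat_lit 8226) (nat_lit 1) (nat_lit 11))
    (@En.n l6338 (nat_lit 7650) (nat_lit 1) (nat_lit 14))
    (@En.n l6339 (nat_lit 7651) (nat_lit 2) (nat_lit 5))
    (@En.n l6340 (nat_lit 9516) (nat_lit 3) (nat_lit 11))
    (@En.n l237 (nat_lit 7648) (nat_lit 4) (nat_lit 5))
    (@En.i (nat_lit 8443) (nat_lit 5) (nat_lit 5))
    (@En.n l6341 (nat_lit 2461) (nat_lit 6) (nat_lit 6))
    (@En.i (nat_lit 8664) (nat_lit 8) (nat_lit 11))
    (@En.n l6342 (nat_lit 8468) (nat_lit 8) (nat_lit 5))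
    (@En.n l6343 (nat_lit 8987) (nat_lit 10) (nat_lit 11))
    (@En.n l6344 (nat_lit 12725) (nat_lit 11) (nat_lit 11))
    (@En.n l6345 (nat_lit 9488) (nat_lit 12) (nat_lit 5))
    (@En.n l2730 (nat_lit 2537) (nat_lit 13) (nat_lit 10))
    (@En.n l4600 (nat_lit 7653) (nat_lit 14) (nat_lit 11))
    (@En.i (nat_lit 9380) (nat_lit 13) (nat_lit 5))
    (@En.n l3 (nat_lit 7649) (nat_lit 15) (nat_lit 2))))
  (@Cl.mk (nat_lit 0x200080005000b000a0006000b000b00050008000600050005000b000e000a) (nat_lit 0x407309303000740) (nat_lit 16) Lb.e (@T16.mk En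
    (@En.n l14657 (nat_lit 8223) (nat_lit 2) (nat_lit 10))
    (@En.i (nat_lit 3187) (nat_lit 4) (nat_lit 14))
    (@En.n l14658 (nat_lit 9517) (nat_lit 2) (nat_lit 11))
    (@En.n l14659 (nat_lit 6785) (nat_lit 11) (nat_lit 5))
    (@En.n l14660 (nat_lit 7681) (nat_lit 4) (nat_lit 5))
    (@En.i (nat_lit 2462) (nat_lit 5) (nat_lit 6))
    (@En.n l616 (nat_lit 8279) (nat_lit 6) (nat_lit 8))
    (@En.n l14661 (nat_lit 8471) (nat_lit 7) (nat_lit 5))
    (@En.n l55 (nat_lit 8989) (nat_lit 9) (nat_lit 11))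
    (@En.n l14662 (nat_lit 12724) (nat_lit 10) (nat_lit 11))
    (@En.n l615 (nat_lit 9489) (nat_lit 11) (nat_lit 6))
    (@En.n l1867 (nat_lit 2536) (nat_lit 12) (nat_lit 10))
    (@En.n l14663 (nat_lit 7651) (nat_lit 13) (nat_lit 11))
    (@En.n l14664 (nat_lit 7649) (nat_lit 14) (nat_lit 5))
    (@En.n l14665 (nat_lit 9586) (nat_lit 0) (nat_lit 8))
    (@En.n l50 (nat_lit 7650) (nat_lit 15) (nat_lit 2))))
  (@Cl.mk (nat_lit 0x20008000b00090005000a000a0005000b00080007000600060005000e000b) (nat_lit 0x361000064000040) (nat_lit 16) Lb.e (@T16.mk En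
    (@En.n l10929 (nat_lit 8224) (nat_lit 4) (nat_lit 11))
    (@En.n l3955 (nat_lit 5036) (nat_lit 1) (nat_lit 14))
    (@En.n l2738 (nat_lit 9344) (nat_lit 2) (nat_lit 5))
    (@En.n l10930 (nat_lit 7652) (nat_lit 10) (nat_lit 6))
    (@En.n l10931 (nat_lit 7680) (nat_lit 4) (nat_lit 6))
    (@En.n l1554 (nat_lit 6786) (nat_lit 5) (nat_lit 7))
    (@En.n l10932 (nat_lit 7650) (nat_lit 6) (nat_lit 8))
    (@En.n l10931 (nat_lit 7645) (nat_lit 8) (nat_lit 11))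
    (@En.n l4773 (nat_lit 8474) (nat_lit 8) (nat_lit 5))
    (@En.n l10933 (nat_lit 8988) (nat_lit 6) (nat_lit 10))
    (@En.i (nat_lit 12723) (nat_lit 11) (nat_lit 10))
    (@En.i (nat_lit 9492) (nat_lit 12) (nat_lit 5))
    (@En.n l10934 (nat_lit 1278) (nat_lit 13) (nat_lit 9))
    (@En.n l10935 (nat_lit 8934) (nat_lit 7) (nat_lit 11))
    (@En.n l10931 (nat_lit 9591) (nat_lit 2) (nat_lit 8))
    (@En.n l18 (nat_lit 7651) (nat_lit 15) (nat_lit 2))))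
  (@Cl.mk (nat_lit 0x20006000c0009000800060004000e000b00020007000a00080005000e000a) (nat_lit 0x454007000510a1) (nat_lit 16) Lb.e (@T16.mk En
    (@En.n l3940 (nat_lit 7651) (nat_lit 10) (nat_lit 10))
    (@En.n l3941 (nat_lit 5853) (nat_lit 11) (nat_lit 14))
    (@En.n l3942 (nat_lit 9498) (nat_lit 2) (nat_lit 5))
    (@En.n l3943 (nat_lit 1281) (nat_lit 13) (nat_lit 8))
    (@En.i (nat_lit 8647) (nat_lit 4) (nat_lit 10))
    (@En.n l115 (nat_lit 9600) (nat_lit 5) (nat_lit 7))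
    (@En.n l28 (nat_lit 7652) (nat_lit 6) (nat_lit 2))
    (@En.n l77 (nat_lit 8221) (nat_lit 8) (nat_lit 11))
    (@En.n l3944 (nat_lit 5040) (nat_lit 9) (nat_lit 14))
    (@En.n l3943 (nat_lit 8130) (nat_lit 2) (nat_lit 4))
    (@En.n l1737 (nat_lit 8451) (nat_lit 3) (nat_lit 6))
    (@En.n l3945 (nat_lit 6756) (nat_lit 12) (nat_lit 8))
    (@En.n l3946 (nat_lit 6785) (nat_lit 13) (nat_lit 9))
    (@En.n l3943 (nat_lit 7644) (nat_lit 7) (nat_lit 12))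
    (@En.n l3947 (nat_lit 8475) (nat_lit 7) (nat_lit 6))
    (@En.n l18 (nat_lit 7652) (nat_lit 15) (nat_lit 2))))
  (@Cl.mk (nat_lit 0x2000b00090004000a000a0005000b000b00070006000600050005000e000c) (nat_lit 0x560100300000050) (nat_lit 16) Lb.e (@T16.mk En
    (@En.n l387 (nat_lit 8940) (nat_lit 3) (nat_lit 12))
    (@En.n l8282 (nat_lit 7651) (nat_lit 1) (nat_lit 14))
    (@En.n l1959 (nat_lit 8934) (nat_lit 11) (nat_lit 5))
    (@En.n l8283 (nat_lit 10202) (nat_lit 3) (nat_lit 5))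
    (@En.n l6907 (nat_lit 8643) (nat_lit 10) (nat_lit 6))
    (@En.i (nat_lit 8865) (nat_lit 5) (nat_lit 6))
    (@En.n l8284 (nat_lit 6999) (nat_lit 6) (nat_lit 7))
    (@En.n l2337 (nat_lit 8984) (nat_lit 8) (nat_lit 11))
    (@En.i (nat_lit 7643) (nat_lit 9) (nat_lit 11))
    (@En.n l8285 (nat_lit 8476) (nat_lit 9) (nat_lit 5))
    (@En.n l8286 (nat_lit 8986) (nat_lit 6) (nat_lit 10))
    (@En.n l8287 (nat_lit 5618) (nat_lit 12) (nat_lit 10))
    (@En.n l8288 (nat_lit 9010) (nat_lit 13) (nat_lit 4))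
    (@En.n l8289 (nat_lit 4154) (nat_lit 14) (nat_lit 9))
    (@En.i (nat_lit 7749) (nat_lit 1) (nat_lit 11))
    (@En.n l3 (nat_lit 7653) (nat_lit 15) (nat_lit 2))))
  (@Cl.mk (nat_lit 0x2000a00090006000a000a00070006000c0007000600060004000a000e0009) (nat_lit 0x2606700500007a1) (nat_lit 16) Lb.e (@T16.mk En
    (@En.n l68 (nat_lit 6438) (nat_lit 13) (nat_lit 9))
    (@En.n l21512 (nat_lit 5858) (nat_lit 1) (nat_lit 14))
    (@En.n l21513 (nat_lit 5150) (nat_lit 2) (nat_lit 10))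
    (@En.n l21514 (nat_lit 6580) (nat_lit 3) (nat_lit 4))
    (@En.n l21515 (nat_lit 7962) (nat_lit 10) (nat_lit 6))
    (@En.n l21512 (nat_lit 6578) (nat_lit 5) (nat_lit 6))
    (@En.n l21516 (nat_lit 4783) (nat_lit 6) (nat_lit 7))
    (@En.n l21517 (nat_lit 7661) (nat_lit 8) (nat_lit 12))
    (@En.n l3127 (nat_lit 7017) (nat_lit 8) (nat_lit 6))
    (@En.n l1236 (nat_lit 11846) (nat_lit 10) (nat_lit 7))
    (@En.n l14175 (nat_lit 7655) (nat_lit 6) (nat_lit 10))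
    (@En.n l16457 (nat_lit 6361) (nat_lit 12) (nat_lit 10))
    (@En.n l3127 (nat_lit 7252) (nat_lit 13) (nat_lit 6))
    (@En.n l77 (nat_lit 12290) (nat_lit 14) (nat_lit 9))
    (@En.n l3517 (nat_lit 5052) (nat_lit 11) (nat_lit 10))
    (@En.n l67 (nat_lit 7654) (nat_lit 15) (nat_lit 2))))
  (@Cl.mk (nat_lit 0x20005000a000e000a0002000b000a0006000a00060005000b0006000e0006) (nat_lit 0x84401406005090) (nat_lit 16) Lb.e (@T16.mk En
    (@En.n l21678 (nat_lit 7654) (nat_lit 5) (nat_lit 6))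
    (@En.n l20166 (nat_lit 7656) (nat_lit 1) (nat_lit 14))
    (@En.n l617 (nat_lit 4899) (nat_lit 2) (nat_lit 6))
    (@En.n l10852 (nat_lit 7657) (nat_lit 9) (nat_lit 11))
    (@En.i (nat_lit 7014) (nat_lit 4) (nat_lit 5))
    (@En.n l14740 (nat_lit 12641) (nat_lit 5) (nat_lit 6))
    (@En.i (nat_lit 6360) (nat_lit 12) (nat_lit 10))
    (@En.n l8572 (nat_lit 7253) (nat_lit 7) (nat_lit 6))
    (@En.n l575 (nat_lit 12297) (nat_lit 9) (nat_lit 10))
    (@En.n l4943 (nat_lit 5058) (nat_lit 10) (nat_lit 11))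
    (@En.n l3 (nat_lit 7655) (nat_lit 10) (nat_lit 2))
    (@En.n l21679 (nat_lit 5315) (nat_lit 12) (nat_lit 10))
    (@En.n l1246 (nat_lit 10800) (nat_lit 13) (nat_lit 14))
    (@En.n l7408 (nat_lit 5151) (nat_lit 2) (nat_lit 10))
    (@En.n l8573 (nat_lit 5273) (nat_lit 13) (nat_lit 5))
    (@En.n l50 (nat_lit 7655) (nat_lit 15) (nat_lit 2))))
  (@Cl.mk (nat_lit 0x200090005000a000e000a0002000b00070006000b00060005000b000e0005) (nat_lit 0x408550300600580) (nat_lit 16) Lb.e (@T16.mk En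
    (@En.n l3098 (nat_lit 6448) (nat_lit 6) (nat_lit 5))
    (@En.i (nat_lit 5695) (nat_lit 4) (nat_lit 14))
    (@En.n l2511 (nat_lit 7658) (nat_lit 9) (nat_lit 11))
    (@En.i (nat_lit 7021) (nat_lit 3) (nat_lit 5))
    (@En.i (nat_lit 12643) (nat_lit 4) (nat_lit 6))
    (@En.n l4021 (nat_lit 6358) (nat_lit 12) (nat_lit 11))
    (@En.i (nat_lit 7990) (nat_lit 13) (nat_lit 6))
    (@En.n l29453 (nat_lit 12259) (nat_lit 14) (nat_lit 7))
    (@En.n l7 (nat_lit 7576) (nat_lit 9) (nat_lit 11))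
    (@En.n l28 (nat_lit 7656) (nat_lit 9) (nat_lit 2))
    (@En.i (nat_lit 6445) (nat_lit 11) (nat_lit 10))
    (@En.n l5577 (nat_lit 10799) (nat_lit 12) (nat_lit 14))
    (@En.n l20132 (nat_lit 4848) (nat_lit 2) (nat_lit 10))
    (@En.n l3550 (nat_lit 7655) (nat_lit 14) (nat_lit 5))
    (@En.i (nat_lit 6525) (nat_lit 4) (nat_lit 9))
    (@En.n l17 (nat_lit 7656) (nat_lit 15) (nat_lit 2))))
  (@Cl.mk (nat_lit 0x20005000b0006000b0006000b0005000e000500020005000b000a000e000a) (nat_lit 0x50504020008746) (nat_lit 16) Lb.e (@T16.mk En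
    (@En.n l6451 (nat_lit 7663) (nat_lit 11) (nat_lit 10))
    (@En.n l15109 (nat_lit 7662) (nat_lit 12) (nat_lit 14))
    (@En.n l15110 (nat_lit 7666) (nat_lit 13) (nat_lit 10))
    (@En.n l250 (nat_lit 7660) (nat_lit 3) (nat_lit 11))
    (@En.n l4172 (nat_lit 12102) (nat_lit 4) (nat_lit 5))
    (@En.n l7 (nat_lit 7657) (nat_lit 5) (nat_lit 2))
    (@En.n l15111 (nat_lit 7661) (nat_lit 6) (nat_lit 5))
    (@En.n l134 (nat_lit 7658) (nat_lit 8) (nat_lit 14))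
    (@En.i (nat_lit 7659) (nat_lit 8) (nat_lit 5))
    (@En.n l15112 (nat_lit 3848) (nat_lit 10) (nat_lit 11))
    (@En.n l2254 (nat_lit 12231) (nat_lit 4) (nat_lit 6))
    (@En.i (nat_lit 8077) (nat_lit 12) (nat_lit 11))
    (@En.i (nat_lit 12762) (nat_lit 6) (nat_lit 6))
    (@En.n l2039 (nat_lit 12300) (nat_lit 8) (nat_lit 11))
    (@En.n l9440 (nat_lit 5623) (nat_lit 8) (nat_lit 5))
    (@En.n l3 (nat_lit 7657) (nat_lit 15) (nat_lit 2))))
  (@Cl.mk (nat_lit 0x2000500080006000c0006000b000e0004000200080005000b000a000e000a) (nat_lit 0x40504100409756) (nat_lit 16) Lb.e (@T16.mk En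
    (@En.n l2894 (nat_lit 10753) (nat_lit 10) (nat_lit 10))
    (@En.n l5150 (nat_lit 7664) (nat_lit 11) (nat_lit 14))
    (@En.n l21349 (nat_lit 7667) (nat_lit 12) (nat_lit 10))
    (@En.n l245 (nat_lit 7659) (nat_lit 3) (nat_lit 11))
    (@En.n l5592 (nat_lit 7657) (nat_lit 4) (nat_lit 5))
    (@En.n l21350 (nat_lit 11608) (nat_lit 5) (nat_lit 8))
    (@En.n l28 (nat_lit 7658) (nat_lit 6) (nat_lit 2))
    (@En.n l15976 (nat_lit 11755) (nat_lit 7) (nat_lit 4))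
    (@En.i (nat_lit 1351) (nat_lit 9) (nat_lit 14))
    (@En.n l21351 (nat_lit 3073) (nat_lit 10) (nat_lit 11))
    (@En.n l21352 (nat_lit 12227) (nat_lit 3) (nat_lit 6))
    (@En.n l21353 (nat_lit 9497) (nat_lit 12) (nat_lit 12))
    (@En.n l848 (nat_lit 12763) (nat_lit 13) (nat_lit 6))
    (@En.n l2039 (nat_lit 12780) (nat_lit 14) (nat_lit 8))
    (@En.i (nat_lit 12281) (nat_lit 7) (nat_lit 5))
    (@En.n l3 (nat_lit 7658) (nat_lit 15) (nat_lit 2))))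
  (@Cl.mk (nat_lit 0x20005000b00080007000c00070005000e000400020008000b0009000e0009) (nat_lit 0x45050080048655) (nat_lit 16) Lb.e (@T16.mk En
    (@En.i (nat_lit 10882) (nat_lit 11) (nat_lit 9))
    (@En.n l2989 (nat_lit 7665) (nat_lit 12) (nat_lit 14))
    (@En.n l15110 (nat_lit 10102) (nat_lit 13) (nat_lit 9))
    (@En.n l10937 (nat_lit 11367) (nat_lit 3) (nat_lit 11))
    (@En.n l10938 (nat_lit 11607) (nat_lit 4) (nat_lit 8))
    (@En.n l7 (nat_lit 7659) (nat_lit 5) (nat_lit 2))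
    (@En.n l11 (nat_lit 12624) (nat_lit 6) (nat_lit 4))
    (@En.n l134 (nat_lit 1349) (nat_lit 8) (nat_lit 14))
    (@En.n l11 (nat_lit 7167) (nat_lit 8) (nat_lit 5))
    (@En.i (nat_lit 12226) (nat_lit 3) (nat_lit 7))
    (@En.i (nat_lit 9501) (nat_lit 11) (nat_lit 12))
    (@En.n l16078 (nat_lit 10931) (nat_lit 12) (nat_lit 7))
    (@En.n l532 (nat_lit 7658) (nat_lit 13) (nat_lit 8))
    (@En.n l16079 (nat_lit 7656) (nat_lit 8) (nat_lit 11))
    (@En.i (nat_lit 12282) (nat_lit 8) (nat_lit 5))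
    (@En.n l3 (nat_lit 7659) (nat_lit 15) (nat_lit 2))))
  (@Cl.mk (nat_lit 0x20005000b000b0007000b000700050005000e00050002000b0009000e0009) (nat_lit 0x26060009007445) (nat_lit 16) Lb.e (@T16.mk En
    (@En.n l517 (nat_lit 11364) (nat_lit 12) (nat_lit 9))
    (@En.i (nat_lit 10803) (nat_lit 13) (nat_lit 14))
    (@En.i (nat_lit 10801) (nat_lit 14) (nat_lit 9))
    (@En.i (nat_lit 5057) (nat_lit 3) (nat_lit 11))
    (@En.n l50 (nat_lit 7660) (nat_lit 4) (nat_lit 2))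
    (@En.n l28 (nat_lit 11654) (nat_lit 5) (nat_lit 5))
    (@En.n l6370 (nat_lit 7659) (nat_lit 7) (nat_lit 14))
    (@En.n l1577 (nat_lit 11367) (nat_lit 7) (nat_lit 5))
    (@En.i (nat_lit 8706) (nat_lit 8) (nat_lit 5))
    (@En.i (nat_lit 6378) (nat_lit 4) (nat_lit 7))
    (@En.i (nat_lit 8082) (nat_lit 11) (nat_lit 11))
    (@En.n l3213 (nat_lit 7999) (nat_lit 12) (nat_lit 7))
    (@En.n l1578 (nat_lit 11649) (nat_lit 13) (nat_lit 11))
    (@En.i (nat_lit 7655) (nat_lit 9) (nat_lit 11))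
    (@En.i (nat_lit 5617) (nat_lit 13) (nat_lit 5))
    (@En.n l3 (nat_lit 7660) (nat_lit 15) (nat_lit 2))))
  (@Cl.mk (nat_lit 0x20005000a0006000b000b0007000c0006000500050004000b000a000e0009) (nat_lit 0x50060400005426) (nat_lit 16) Lb.e (@T16.mk En
    (@En.n l152 (nat_lit 11742) (nat_lit 1) (nat_lit 9))
    (@En.n l936 (nat_lit 12630) (nat_lit 1) (nat_lit 14))
    (@En.n l6085 (nat_lit 12633) (nat_lit 2) (nat_lit 10))
    (@En.n l6086 (nat_lit 11654) (nat_lit 3) (nat_lit 11))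
    (@En.n l6087 (nat_lit 11941) (nat_lit 4) (nat_lit 4))
    (@En.n l6088 (nat_lit 11754) (nat_lit 5) (nat_lit 5))
    (@En.i (nat_lit 12071) (nat_lit 6) (nat_lit 5))
    (@En.n l6089 (nat_lit 12624) (nat_lit 7) (nat_lit 6))
    (@En.i (nat_lit 3846) (nat_lit 9) (nat_lit 12))
    (@En.n l742 (nat_lit 10837) (nat_lit 10) (nat_lit 7))
    (@En.n l6090 (nat_lit 7657) (nat_lit 11) (nat_lit 11))
    (@En.n l6091 (nat_lit 9516) (nat_lit 12) (nat_lit 11))
    (@En.n l6092 (nat_lit 11556) (nat_lit 13) (nat_lit 6))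
    (@En.n l6093 (nat_lit 12301) (nat_lit 14) (nat_lit 10))
    (@En.n l6094 (nat_lit 9239) (nat_lit 13) (nat_lit 5))
    (@En.n l3 (nat_lit 7661) (nat_lit 15) (nat_lit 2))))
  (@Cl.mk (nat_lit 0x20005000b000e00090002000d0005000b0003000b0007000b0005000e0005) (nat_lit 0x83404000504090) (nat_lit 16) Lb.e (@T16.mk En
    (@En.n l50 (nat_lit 12630) (nat_lit 5) (nat_lit 5))
    (@En.n l23405 (nat_lit 7664) (nat_lit 1) (nat_lit 14))
    (@En.n l4004 (nat_lit 7665) (nat_lit 2) (nat_lit 5))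
    (@En.i (nat_lit 3849) (nat_lit 3) (nat_lit 11))
    (@En.n l23406 (nat_lit 11684) (nat_lit 4) (nat_lit 7))
    (@En.n l23407 (nat_lit 8078) (nat_lit 11) (nat_lit 11))
    (@En.n l4004 (nat_lit 7666) (nat_lit 6) (nat_lit 3))
    (@En.n l11709 (nat_lit 12553) (nat_lit 8) (nat_lit 11))
    (@En.n l14977 (nat_lit 7657) (nat_lit 14) (nat_lit 5))
    (@En.n l23408 (nat_lit 12039) (nat_lit 10) (nat_lit 13))
    (@En.n l3 (nat_lit 7662) (nat_lit 10) (nat_lit 2))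
    (@En.n l152 (nat_lit 11700) (nat_lit 12) (nat_lit 9))
    (@En.n l23406 (nat_lit 2129) (nat_lit 13) (nat_lit 14))
    (@En.n l22659 (nat_lit 10803) (nat_lit 14) (nat_lit 11))
    (@En.n l23406 (nat_lit 12100) (nat_lit 13) (nat_lit 5))
    (@En.n l18 (nat_lit 7662) (nat_lit 15) (nat_lit 2))))
  (@Cl.mk (nat_lit 0x20005000c000b000a000a0004000a0005000a00060006000b0006000e0006) (nat_lit 0xa7500405005020) (nat_lit 16) Lb.e (@T16.mk En
    (@En.n l20516 (nat_lit 11742) (nat_lit 6) (nat_lit 6))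
    (@En.n l7272 (nat_lit 10753) (nat_lit 1) (nat_lit 14))
    (@En.n l15830 (nat_lit 10882) (nat_lit 2) (nat_lit 6))
    (@En.n l19900 (nat_lit 7371) (nat_lit 3) (nat_lit 11))
    (@En.n l29507 (nat_lit 7657) (nat_lit 10) (nat_lit 6))
    (@En.n l19999 (nat_lit 9326) (nat_lit 5) (nat_lit 6))
    (@En.n l8629 (nat_lit 9496) (nat_lit 7) (nat_lit 10))
    (@En.n l8630 (nat_lit 11557) (nat_lit 7) (nat_lit 5))
    (@En.n l11620 (nat_lit 12604) (nat_lit 9) (nat_lit 10))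
    (@En.n l29508 (nat_lit 10757) (nat_lit 9) (nat_lit 4))
    (@En.n l1415 (nat_lit 8106) (nat_lit 11) (nat_lit 10))
    (@En.n l7084 (nat_lit 11730) (nat_lit 12) (nat_lit 10))
    (@En.n l29509 (nat_lit 11701) (nat_lit 13) (nat_lit 11))
    (@En.n l27288 (nat_lit 11364) (nat_lit 14) (nat_lit 12))
    (@En.i (nat_lit 11489) (nat_lit 13) (nat_lit 5))
    (@En.n l3 (nat_lit 7663) (nat_lit 15) (nat_lit 2))))
noncomputable def a479 : T16 Cl := @T16.mk Cl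
  (@Cl.mk (nat_lit 0x200080005000b000e00090002000d000500080003000c0007000b000e0004) (nat_lit 0x408450400060480) (nat_lit 16) Lb.e (@T16.mk En
    (@En.n l3873 (nat_lit 12626) (nat_lit 6) (nat_lit 4))
    (@En.n l18581 (nat_lit 1830) (nat_lit 4) (nat_lit 14))
    (@En.n l3874 (nat_lit 3069) (nat_lit 2) (nat_lit 11))
    (@En.n l13926 (nat_lit 11683) (nat_lit 3) (nat_lit 7))
    (@En.n l33533 (nat_lit 9529) (nat_lit 11) (nat_lit 12))
    (@En.n l33534 (nat_lit 7667) (nat_lit 5) (nat_lit 3))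
    (@En.n l1492 (nat_lit 12539) (nat_lit 6) (nat_lit 8))
    (@En.n l5116 (nat_lit 7658) (nat_lit 14) (nat_lit 5))
    (@En.n l20001 (nat_lit 12046) (nat_lit 9) (nat_lit 13))
    (@En.n l11 (nat_lit 7664) (nat_lit 9) (nat_lit 2))
    (@En.n l5117 (nat_lit 10760) (nat_lit 11) (nat_lit 9))
    (@En.n l13926 (nat_lit 2137) (nat_lit 4) (nat_lit 14))
    (@En.n l2738 (nat_lit 7665) (nat_lit 13) (nat_lit 11))
    (@En.n l33535 (nat_lit 7662) (nat_lit 14) (nat_lit 5))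
    (@En.n l25145 (nat_lit 11604) (nat_lit 4) (nat_lit 8))
    (@En.n l17 (nat_lit 7664) (nat_lit 15) (nat_lit 2))))
  (@Cl.mk (nat_lit 0x20008000b000e00080002000c0005000b00080004000c00080005000e0004) (nat_lit 0x374405031060010) (nat_lit 16) Lb.e (@T16.mk En
    (@En.n l20639 (nat_lit 12625) (nat_lit 5) (nat_lit 4))
    (@En.n l6068 (nat_lit 1353) (nat_lit 1) (nat_lit 14))
    (@En.i (nat_lit 7166) (nat_lit 2) (nat_lit 5))
    (@En.n l3616 (nat_lit 12225) (nat_lit 3) (nat_lit 8))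
    (@En.n l3610 (nat_lit 9894) (nat_lit 10) (nat_lit 12))
    (@En.i (nat_lit 10121) (nat_lit 5) (nat_lit 4))
    (@En.n l20640 (nat_lit 7664) (nat_lit 6) (nat_lit 8))
    (@En.n l8012 (nat_lit 10799) (nat_lit 8) (nat_lit 11))
    (@En.n l20641 (nat_lit 7659) (nat_lit 14) (nat_lit 5))
    (@En.n l3766 (nat_lit 12587) (nat_lit 10) (nat_lit 12))
    (@En.n l11 (nat_lit 7665) (nat_lit 10) (nat_lit 2))
    (@En.n l6564 (nat_lit 11372) (nat_lit 12) (nat_lit 8))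
    (@En.n l2038 (nat_lit 4627) (nat_lit 13) (nat_lit 14))
    (@En.n l8689 (nat_lit 12835) (nat_lit 7) (nat_lit 11))
    (@En.n l20642 (nat_lit 11603) (nat_lit 3) (nat_lit 8))
    (@En.n l17 (nat_lit 7665) (nat_lit 15) (nat_lit 2))))
  (@Cl.mk (nat_lit 0x20005000a000e00090002000d000a00060003000b0007000b0006000e0005) (nat_lit 0x63404200605090) (nat_lit 16) Lb.e (@T16.mk En
    (@En.n l3697 (nat_lit 12633) (nat_lit 5) (nat_lit 5))
    (@En.n l181 (nat_lit 7667) (nat_lit 1) (nat_lit 14))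
    (@En.i (nat_lit 10102) (nat_lit 2) (nat_lit 6))
    (@En.i (nat_lit 3852) (nat_lit 3) (nat_lit 11))
    (@En.n l3616 (nat_lit 11685) (nat_lit 4) (nat_lit 7))
    (@En.n l10177 (nat_lit 9855) (nat_lit 11) (nat_lit 11))
    (@En.n l10178 (nat_lit 7662) (nat_lit 6) (nat_lit 3))
    (@En.n l152 (nat_lit 12558) (nat_lit 7) (nat_lit 6))
    (@En.n l644 (nat_lit 7171) (nat_lit 9) (nat_lit 10))
    (@En.n l3528 (nat_lit 12045) (nat_lit 10) (nat_lit 13))
    (@En.n l11 (nat_lit 7666) (nat_lit 10) (nat_lit 2))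
    (@En.n l6564 (nat_lit 11701) (nat_lit 12) (nat_lit 9))
    (@En.n l619 (nat_lit 2127) (nat_lit 13) (nat_lit 14))
    (@En.n l5137 (nat_lit 10796) (nat_lit 14) (nat_lit 10))
    (@En.i (nat_lit 12099) (nat_lit 13) (nat_lit 5))
    (@En.n l17 (nat_lit 7666) (nat_lit 15) (nat_lit 2))))
  (@Cl.mk (nat_lit 0x200090005000a000e00090002000d000700060003000c0007000b000e0004) (nat_lit 0x6550300060580) (nat_lit 16) Lb.e (@T16.mk En
    (@En.n l20715 (nat_lit 11067) (nat_lit 6) (nat_lit 4))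
    (@En.n l20716 (nat_lit 1831) (nat_lit 4) (nat_lit 14))
    (@En.i (nat_lit 3882) (nat_lit 2) (nat_lit 11))
    (@En.n l6070 (nat_lit 11678) (nat_lit 3) (nat_lit 7))
    (@En.n l20716 (nat_lit 9584) (nat_lit 11) (nat_lit 12))
    (@En.n l3090 (nat_lit 7664) (nat_lit 5) (nat_lit 3))
    (@En.n l20717 (nat_lit 11063) (nat_lit 0) (nat_lit 6))
    (@En.n l8907 (nat_lit 10988) (nat_lit 14) (nat_lit 7))
    (@En.n l20718 (nat_lit 12048) (nat_lit 9) (nat_lit 13))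
    (@En.n l11 (nat_lit 7667) (nat_lit 9) (nat_lit 2))
    (@En.n l20719 (nat_lit 11702) (nat_lit 11) (nat_lit 9))
    (@En.n l619 (nat_lit 2133) (nat_lit 12) (nat_lit 14))
    (@En.n l8908 (nat_lit 10121) (nat_lit 13) (nat_lit 10))
    (@En.i (nat_lit 7666) (nat_lit 14) (nat_lit 5))
    (@En.n l18949 (nat_lit 10903) (nat_lit 4) (nat_lit 9))
    (@En.n l17 (nat_lit 7667) (nat_lit 15) (nat_lit 2))))
  (@Cl.mk (nat_lit 0x20006000c0009000700060004000e000c00020007000a00040009000e000a) (nat_lit 0x160009700607a7) (nat_lit 16) Lb.e (@T16.mk En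
    (@En.n l28 (nat_lit 5856) (nat_lit 10) (nat_lit 10))
    (@En.n l95 (nat_lit 6782) (nat_lit 11) (nat_lit 14))
    (@En.n l6478 (nat_lit 7659) (nat_lit 2) (nat_lit 9))
    (@En.n l6479 (nat_lit 6490) (nat_lit 3) (nat_lit 4))
    (@En.n l6480 (nat_lit 4132) (nat_lit 4) (nat_lit 10))
    (@En.n l4019 (nat_lit 5293) (nat_lit 5) (nat_lit 7))
    (@En.n l3 (nat_lit 7668) (nat_lit 6) (nat_lit 2))
    (@En.n l6481 (nat_lit 7006) (nat_lit 8) (nat_lit 12))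
    (@En.n l6482 (nat_lit 4764) (nat_lit 9) (nat_lit 14))
    (@En.n l6483 (nat_lit 7671) (nat_lit 2) (nat_lit 4))
    (@En.i (nat_lit 5990) (nat_lit 3) (nat_lit 6))
    (@En.n l4855 (nat_lit 8844) (nat_lit 12) (nat_lit 7))
    (@En.n l61 (nat_lit 7669) (nat_lit 13) (nat_lit 9))
    (@En.n l6479 (nat_lit 1374) (nat_lit 7) (nat_lit 12))
    (@En.n l564 (nat_lit 7680) (nat_lit 7) (nat_lit 6))
    (@En.n l7 (nat_lit 7668) (nat_lit 15) (nat_lit 2))))
  (@Cl.mk (nat_lit 0x20006000900060005000b000e000b000200070005000a0005000a000e000b) (nat_lit 0x50098600070881) (nat_lit 16) Lb.e (@T16.mk En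
    (@En.n l28 (nat_lit 7475) (nat_lit 9) (nat_lit 11))
    (@En.n l95 (nat_lit 6780) (nat_lit 10) (nat_lit 14))
    (@En.n l6482 (nat_lit 7658) (nat_lit 2) (nat_lit 10))
    (@En.n l16086 (nat_lit 7009) (nat_lit 3) (nat_lit 5))
    (@En.n l617 (nat_lit 7668) (nat_lit 4) (nat_lit 10))
    (@En.n l17 (nat_lit 7670) (nat_lit 14) (nat_lit 5))
    (@En.i (nat_lit 5292) (nat_lit 6) (nat_lit 7))
    (@En.n l3 (nat_lit 7669) (nat_lit 7) (nat_lit 2))
    (@En.n l16087 (nat_lit 7004) (nat_lit 9) (nat_lit 11))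
    (@En.n l6482 (nat_lit 4763) (nat_lit 10) (nat_lit 14))
    (@En.n l95 (nat_lit 8076) (nat_lit 2) (nat_lit 11))
    (@En.i (nat_lit 5994) (nat_lit 3) (nat_lit 5))
    (@En.n l16088 (nat_lit 8713) (nat_lit 13) (nat_lit 6))
    (@En.n l16089 (nat_lit 3027) (nat_lit 9) (nat_lit 9))
    (@En.n l1363 (nat_lit 7681) (nat_lit 6) (nat_lit 6))
    (@En.n l7 (nat_lit 7669) (nat_lit 15) (nat_lit 2))))
  (@Cl.mk (nat_lit 0x20005000a0004000a000e000b00020006000c00060005000b0004000e000c) (nat_lit 0x80841001009097) (nat_lit 16) Lb.e (@T16.mk En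
    (@En.n l9448 (nat_lit 7003) (nat_lit 8) (nat_lit 12))
    (@En.i (nat_lit 7669) (nat_lit 9) (nat_lit 14))
    (@En.i (nat_lit 7668) (nat_lit 9) (nat_lit 4))
    (@En.n l95 (nat_lit 8075) (nat_lit 3) (nat_lit 11))
    (@En.i (nat_lit 5993) (nat_lit 4) (nat_lit 5))
    (@En.n l4855 (nat_lit 8708) (nat_lit 5) (nat_lit 6))
    (@En.n l2572 (nat_lit 3583) (nat_lit 7) (nat_lit 12))
    (@En.n l3699 (nat_lit 8443) (nat_lit 7) (nat_lit 6))
    (@En.n l7 (nat_lit 7670) (nat_lit 8) (nat_lit 2))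
    (@En.n l28 (nat_lit 7476) (nat_lit 10) (nat_lit 11))
    (@En.n l95 (nat_lit 6781) (nat_lit 11) (nat_lit 14))
    (@En.n l6478 (nat_lit 7657) (nat_lit 2) (nat_lit 10))
    (@En.n l4018 (nat_lit 7008) (nat_lit 3) (nat_lit 4))
    (@En.n l5473 (nat_lit 4131) (nat_lit 4) (nat_lit 10))
    (@En.i (nat_lit 6958) (nat_lit 5) (nat_lit 5))
    (@En.n l3 (nat_lit 7670) (nat_lit 15) (nat_lit 2))))
  (@Cl.mk (nat_lit 0x20006000a00040008000e000c00020006000c0004000a00080004000e000c) (nat_lit 0x202c9002072061) (nat_lit 16) Lb.e (@T16.mk En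
    (@En.n l9926 (nat_lit 7095) (nat_lit 8) (nat_lit 12))
    (@En.n l12285 (nat_lit 7590) (nat_lit 9) (nat_lit 14))
    (@En.n l12579 (nat_lit 7670) (nat_lit 2) (nat_lit 4))
    (@En.i (nat_lit 8845) (nat_lit 11) (nat_lit 8))
    (@En.n l9057 (nat_lit 8074) (nat_lit 4) (nat_lit 10))
    (@En.n l117 (nat_lit 7672) (nat_lit 5) (nat_lit 4))
    (@En.n l3348 (nat_lit 3966) (nat_lit 7) (nat_lit 12))
    (@En.i (nat_lit 7677) (nat_lit 7) (nat_lit 6))
    (@En.n l3 (nat_lit 7671) (nat_lit 8) (nat_lit 2))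
    (@En.n l766 (nat_lit 7674) (nat_lit 10) (nat_lit 12))
    (@En.n l14505 (nat_lit 7351) (nat_lit 11) (nat_lit 14))
    (@En.n l18 (nat_lit 7167) (nat_lit 2) (nat_lit 8))
    (@En.n l3348 (nat_lit 7100) (nat_lit 3) (nat_lit 4))
    (@En.n l9062 (nat_lit 6979) (nat_lit 4) (nat_lit 10))
    (@En.n l1723 (nat_lit 11216) (nat_lit 5) (nat_lit 6))
    (@En.n l7 (nat_lit 7671) (nat_lit 15) (nat_lit 2))))
  (@Cl.mk (nat_lit 0x20006000900040008000d000c000a000300070004000a00080006000e000c) (nat_lit 0x30270800074051) (nat_lit 16) Lb.e (@T16.mk En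
    (@En.n l27891 (nat_lit 7087) (nat_lit 9) (nat_lit 12))
    (@En.n l12285 (nat_lit 5179) (nat_lit 1) (nat_lit 14))
    (@En.n l7010 (nat_lit 8550) (nat_lit 2) (nat_lit 6))
    (@En.i (nat_lit 8848) (nat_lit 3) (nat_lit 8))
    (@En.n l28357 (nat_lit 7673) (nat_lit 4) (nat_lit 10))
    (@En.n l766 (nat_lit 7674) (nat_lit 5) (nat_lit 4))
    (@En.i (nat_lit 7678) (nat_lit 6) (nat_lit 7))
    (@En.n l16893 (nat_lit 7093) (nat_lit 7) (nat_lit 3))
    (@En.n l7302 (nat_lit 7668) (nat_lit 0) (nat_lit 10))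
    (@En.n l16894 (nat_lit 7675) (nat_lit 10) (nat_lit 12))
    (@En.n l8608 (nat_lit 10612) (nat_lit 11) (nat_lit 13))
    (@En.n l18 (nat_lit 5532) (nat_lit 12) (nat_lit 8))
    (@En.n l3523 (nat_lit 10463) (nat_lit 13) (nat_lit 4))
    (@En.n l16897 (nat_lit 7071) (nat_lit 14) (nat_lit 9))
    (@En.n l1723 (nat_lit 11765) (nat_lit 6) (nat_lit 6))
    (@En.n l7 (nat_lit 7672) (nat_lit 15) (nat_lit 2))))
  (@Cl.mk (nat_lit 0x20006000b000900050009000d0005000b00030007000a00070005000e000b) (nat_lit 0x4028020060011) (nat_lit 16) Lb.e (@T16.mk En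
    (@En.n l31127 (nat_lit 7089) (nat_lit 10) (nat_lit 11))
    (@En.n l1722 (nat_lit 1307) (nat_lit 1) (nat_lit 14))
    (@En.n l30432 (nat_lit 8198) (nat_lit 2) (nat_lit 5))
    (@En.n l31128 (nat_lit 9340) (nat_lit 3) (nat_lit 7))
    (@En.i (nat_lit 11502) (nat_lit 8) (nat_lit 10))
    (@En.n l31129 (nat_lit 7679) (nat_lit 5) (nat_lit 7))
    (@En.n l17779 (nat_lit 7676) (nat_lit 6) (nat_lit 3))
    (@En.n l30432 (nat_lit 7669) (nat_lit 0) (nat_lit 11))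
    (@En.n l6680 (nat_lit 8007) (nat_lit 8) (nat_lit 5))
    (@En.n l23414 (nat_lit 10015) (nat_lit 10) (nat_lit 13))
    (@En.n l617 (nat_lit 5569) (nat_lit 11) (nat_lit 9))
    (@En.n l18910 (nat_lit 11818) (nat_lit 12) (nat_lit 5))
    (@En.n l31128 (nat_lit 7672) (nat_lit 13) (nat_lit 9))
    (@En.n l31130 (nat_lit 10328) (nat_lit 14) (nat_lit 11))
    (@En.n l387 (nat_lit 11769) (nat_lit 7) (nat_lit 6))
    (@En.n l50 (nat_lit 7673) (nat_lit 15) (nat_lit 2))))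
  (@Cl.mk (nat_lit 0x20006000b00040008000c000c0005000b00040004000a00080005000e000c) (nat_lit 0x40386020073061) (nat_lit 16) Lb.e (@T16.mk En
    (@En.n l28330 (nat_lit 7092) (nat_lit 3) (nat_lit 12))
    (@En.n l28331 (nat_lit 7511) (nat_lit 1) (nat_lit 14))
    (@En.n l28332 (nat_lit 7476) (nat_lit 2) (nat_lit 5))
    (@En.n l287 (nat_lit 8847) (nat_lit 3) (nat_lit 8))
    (@En.n l28333 (nat_lit 11501) (nat_lit 4) (nat_lit 10))
    (@En.n l5761 (nat_lit 7671) (nat_lit 5) (nat_lit 4))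
    (@En.n l28334 (nat_lit 7675) (nat_lit 6) (nat_lit 4))
    (@En.n l28335 (nat_lit 3963) (nat_lit 8) (nat_lit 11))
    (@En.n l28336 (nat_lit 7673) (nat_lit 8) (nat_lit 5))
    (@En.n l28337 (nat_lit 8004) (nat_lit 10) (nat_lit 12))
    (@En.n l10228 (nat_lit 7356) (nat_lit 11) (nat_lit 12))
    (@En.n l28338 (nat_lit 7079) (nat_lit 12) (nat_lit 8))
    (@En.n l28335 (nat_lit 7103) (nat_lit 13) (nat_lit 4))
    (@En.n l698 (nat_lit 7250) (nat_lit 14) (nat_lit 11))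
    (@En.n l28334 (nat_lit 11152) (nat_lit 1) (nat_lit 6))
    (@En.n l50 (nat_lit 7674) (nat_lit 15) (nat_lit 2))))
  (@Cl.mk (nat_lit 0x20006000a00040008000c0009000d000600040003000a00080007000e000c) (nat_lit 0x402a6600075011) (nat_lit 16) Lb.e (@T16.mk En
    (@En.n l38522 (nat_lit 7081) (nat_lit 11) (nat_lit 12))
    (@En.n l18234 (nat_lit 5180) (nat_lit 1) (nat_lit 14))
    (@En.n l9970 (nat_lit 7483) (nat_lit 2) (nat_lit 7))
    (@En.n l4758 (nat_lit 8853) (nat_lit 3) (nat_lit 8))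
    (@En.n l28799 (nat_lit 11500) (nat_lit 4) (nat_lit 10))
    (@En.n l3519 (nat_lit 7093) (nat_lit 5) (nat_lit 3))
    (@En.n l18 (nat_lit 8004) (nat_lit 6) (nat_lit 4))
    (@En.n l10577 (nat_lit 7676) (nat_lit 7) (nat_lit 6))
    (@En.i (nat_lit 7062) (nat_lit 9) (nat_lit 13))
    (@En.n l61 (nat_lit 11219) (nat_lit 10) (nat_lit 9))
    (@En.n l21428 (nat_lit 10610) (nat_lit 11) (nat_lit 12))
    (@En.n l2038 (nat_lit 7080) (nat_lit 12) (nat_lit 8))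
    (@En.n l3528 (nat_lit 10458) (nat_lit 13) (nat_lit 4))
    (@En.n l3517 (nat_lit 7075) (nat_lit 14) (nat_lit 10))
    (@En.i (nat_lit 10542) (nat_lit 1) (nat_lit 6))
    (@En.n l28 (nat_lit 7675) (nat_lit 15) (nat_lit 2))))
  (@Cl.mk (nat_lit 0x20006000a000900050009000d000a000600030007000a00070006000e000b) (nat_lit 0x64029700060041) (nat_lit 16) Lb.e (@T16.mk En
    (@En.n l4270 (nat_lit 7088) (nat_lit 10) (nat_lit 11))
    (@En.n l23846 (nat_lit 5176) (nat_lit 1) (nat_lit 14))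
    (@En.n l23847 (nat_lit 10975) (nat_lit 2) (nat_lit 6))
    (@En.n l23848 (nat_lit 9341) (nat_lit 3) (nat_lit 7))
    (@En.n l23849 (nat_lit 11503) (nat_lit 8) (nat_lit 10))
    (@En.i (nat_lit 6899) (nat_lit 5) (nat_lit 7))
    (@En.n l23850 (nat_lit 7673) (nat_lit 6) (nat_lit 3))
    (@En.n l1316 (nat_lit 12134) (nat_lit 7) (nat_lit 6))
    (@En.n l23851 (nat_lit 11223) (nat_lit 9) (nat_lit 10))
    (@En.n l23852 (nat_lit 10011) (nat_lit 10) (nat_lit 13))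
    (@En.n l2611 (nat_lit 5557) (nat_lit 11) (nat_lit 9))
    (@En.n l4272 (nat_lit 11820) (nat_lit 12) (nat_lit 5))
    (@En.n l11 (nat_lit 7093) (nat_lit 13) (nat_lit 9))
    (@En.n l159 (nat_lit 9160) (nat_lit 14) (nat_lit 10))
    (@En.n l21137 (nat_lit 11945) (nat_lit 7) (nat_lit 6))
    (@En.n l50 (nat_lit 7676) (nat_lit 15) (nat_lit 2))))
  (@Cl.mk (nat_lit 0x20006000a000d000500090003000d0006000c0003000a00070004000e000b) (nat_lit 0x86030900060080) (nat_lit 16) Lb.e (@T16.mk En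
    (@En.n l16920 (nat_lit 8803) (nat_lit 11) (nat_lit 11))
    (@En.n l12285 (nat_lit 1305) (nat_lit 1) (nat_lit 14))
    (@En.n l9060 (nat_lit 8443) (nat_lit 2) (nat_lit 4))
    (@En.i (nat_lit 9825) (nat_lit 3) (nat_lit 7))
    (@En.n l16921 (nat_lit 5116) (nat_lit 4) (nat_lit 10))
    (@En.n l117 (nat_lit 7678) (nat_lit 5) (nat_lit 3))
    (@En.n l9060 (nat_lit 8524) (nat_lit 7) (nat_lit 12))
    (@En.i (nat_lit 7679) (nat_lit 7) (nat_lit 6))
    (@En.n l16922 (nat_lit 7673) (nat_lit 9) (nat_lit 13))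
    (@En.n l72 (nat_lit 8257) (nat_lit 9) (nat_lit 3))
    (@En.n l18 (nat_lit 6006) (nat_lit 11) (nat_lit 9))
    (@En.n l6809 (nat_lit 8877) (nat_lit 12) (nat_lit 5))
    (@En.i (nat_lit 6165) (nat_lit 13) (nat_lit 13))
    (@En.n l9062 (nat_lit 8863) (nat_lit 14) (nat_lit 10))
    (@En.n l1723 (nat_lit 6146) (nat_lit 8) (nat_lit 6))
    (@En.n l7 (nat_lit 7677) (nat_lit 15) (nat_lit 2))))
  (@Cl.mk (nat_lit 0x200060009000d000500090003000d000b00070003000a00070005000e000b) (nat_lit 0x6040a00070080) (nat_lit 16) Lb.e (@T16.mk En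
    (@En.i (nat_lit 8802) (nat_lit 11) (nat_lit 11))
    (@En.n l12285 (nat_lit 1303) (nat_lit 1) (nat_lit 14))
    (@En.n l19498 (nat_lit 8441) (nat_lit 2) (nat_lit 5))
    (@En.i (nat_lit 9824) (nat_lit 3) (nat_lit 7))
    (@En.n l1690 (nat_lit 7679) (nat_lit 4) (nat_lit 10))
    (@En.n l152 (nat_lit 7677) (nat_lit 5) (nat_lit 3))
    (@En.n l19499 (nat_lit 6513) (nat_lit 6) (nat_lit 7))
    (@En.n l19500 (nat_lit 7680) (nat_lit 8) (nat_lit 11))
    (@En.n l19501 (nat_lit 7676) (nat_lit 9) (nat_lit 13))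
    (@En.n l19502 (nat_lit 8256) (nat_lit 9) (nat_lit 3))
    (@En.n l18 (nat_lit 6005) (nat_lit 11) (nat_lit 9))
    (@En.i (nat_lit 10132) (nat_lit 12) (nat_lit 5))
    (@En.i (nat_lit 6164) (nat_lit 13) (nat_lit 13))
    (@En.n l16897 (nat_lit 8914) (nat_lit 9) (nat_lit 9))
    (@En.n l1723 (nat_lit 6145) (nat_lit 8) (nat_lit 6))
    (@En.n l7 (nat_lit 7678) (nat_lit 15) (nat_lit 2))))
  (@Cl.mk (nat_lit 0x20006000a0009000d0006000a00030006000c0007000a00060004000e000a) (nat_lit 0x81704005060070) (nat_lit 16) Lb.e (@T16.mk En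
    (@En.n l16920 (nat_lit 8804) (nat_lit 8) (nat_lit 10))
    (@En.n l12285 (nat_lit 1304) (nat_lit 1) (nat_lit 14))
    (@En.n l9060 (nat_lit 8423) (nat_lit 2) (nat_lit 4))
    (@En.i (nat_lit 9826) (nat_lit 3) (nat_lit 6))
    (@En.n l32375 (nat_lit 6631) (nat_lit 4) (nat_lit 10))
    (@En.n l32376 (nat_lit 6511) (nat_lit 5) (nat_lit 7))
    (@En.n l32377 (nat_lit 7681) (nat_lit 7) (nat_lit 12))
    (@En.n l32378 (nat_lit 12526) (nat_lit 7) (nat_lit 6))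
    (@En.n l32379 (nat_lit 8258) (nat_lit 8) (nat_lit 3))
    (@En.n l32259 (nat_lit 6004) (nat_lit 0) (nat_lit 10))
    (@En.n l32380 (nat_lit 10133) (nat_lit 11) (nat_lit 6))
    (@En.n l3 (nat_lit 7677) (nat_lit 12) (nat_lit 13))
    (@En.n l3 (nat_lit 7678) (nat_lit 13) (nat_lit 9))
    (@En.n l9062 (nat_lit 8864) (nat_lit 14) (nat_lit 10))
    (@En.n l1723 (nat_lit 6147) (nat_lit 5) (nat_lit 6))
    (@En.n l7 (nat_lit 7679) (nat_lit 15) (nat_lit 2))))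
noncomputable def a480 : T16 Cl := @T16.mk Cl
  (@Cl.mk (nat_lit 0x20007000a000d0005000a0003000b0006000c0009000600050004000e000b) (nat_lit 0x64040907500080) (nat_lit 16) Lb.e (@T16.mk En
    (@En.n l14907 (nat_lit 8789) (nat_lit 7) (nat_lit 11))
    (@En.n l8114 (nat_lit 5035) (nat_lit 1) (nat_lit 14))
    (@En.n l14908 (nat_lit 7677) (nat_lit 2) (nat_lit 4))
    (@En.i (nat_lit 8445) (nat_lit 3) (nat_lit 5))
    (@En.n l10925 (nat_lit 9827) (nat_lit 4) (nat_lit 6))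
    (@En.n l827 (nat_lit 7681) (nat_lit 5) (nat_lit 9))
    (@En.i (nat_lit 8526) (nat_lit 7) (nat_lit 12))
    (@En.n l14909 (nat_lit 8440) (nat_lit 7) (nat_lit 6))
    (@En.n l6661 (nat_lit 8199) (nat_lit 9) (nat_lit 11))
    (@En.n l8115 (nat_lit 8475) (nat_lit 9) (nat_lit 3))
    (@En.n l10591 (nat_lit 12282) (nat_lit 11) (nat_lit 10))
    (@En.n l14910 (nat_lit 8878) (nat_lit 12) (nat_lit 5))
    (@En.n l387 (nat_lit 7918) (nat_lit 13) (nat_lit 13))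
    (@En.n l2114 (nat_lit 8869) (nat_lit 8) (nat_lit 10))
    (@En.i (nat_lit 8778) (nat_lit 4) (nat_lit 7))
    (@En.n l3 (nat_lit 7680) (nat_lit 15) (nat_lit 2))))
  (@Cl.mk (nat_lit 0x200070005000a000d0006000b0003000c0006000900050004000b000e000a) (nat_lit 0x7500040400770) (nat_lit 16) Lb.e (@T16.mk En
    (@En.n l27940 (nat_lit 8788) (nat_lit 2) (nat_lit 10))
    (@En.n l28861 (nat_lit 6454) (nat_lit 4) (nat_lit 14))
    (@En.n l28862 (nat_lit 6619) (nat_lit 2) (nat_lit 11))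
    (@En.i (nat_lit 8444) (nat_lit 3) (nat_lit 4))
    (@En.n l10925 (nat_lit 2625) (nat_lit 4) (nat_lit 5))
    (@En.n l3786 (nat_lit 9115) (nat_lit 5) (nat_lit 9))
    (@En.n l28863 (nat_lit 8438) (nat_lit 6) (nat_lit 6))
    (@En.n l28864 (nat_lit 8196) (nat_lit 8) (nat_lit 12))
    (@En.n l19033 (nat_lit 8472) (nat_lit 8) (nat_lit 3))
    (@En.n l28861 (nat_lit 12281) (nat_lit 10) (nat_lit 11))
    (@En.n l28865 (nat_lit 8881) (nat_lit 11) (nat_lit 6))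
    (@En.n l612 (nat_lit 8524) (nat_lit 12) (nat_lit 13))
    (@En.i (nat_lit 7680) (nat_lit 13) (nat_lit 10))
    (@En.n l28866 (nat_lit 8443) (nat_lit 14) (nat_lit 5))
    (@En.n l5649 (nat_lit 8775) (nat_lit 5) (nat_lit 7))
    (@En.n l3 (nat_lit 7681) (nat_lit 15) (nat_lit 2))))
  (@Cl.mk (nat_lit 0x2000a000700060005000b000e00060002000d000500090003000a000e000b) (nat_lit 0x500088001030831) (nat_lit 16) Lb.e (@T16.mk En
    (@En.n l644 (nat_lit 6286) (nat_lit 9) (nat_lit 11))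
    (@En.n l21787 (nat_lit 6695) (nat_lit 10) (nat_lit 14))
    (@En.n l11 (nat_lit 11347) (nat_lit 11) (nat_lit 10))
    (@En.n l117 (nat_lit 4443) (nat_lit 3) (nat_lit 3))
    (@En.n l1219 (nat_lit 1630) (nat_lit 4) (nat_lit 9))
    (@En.n l21788 (nat_lit 7683) (nat_lit 14) (nat_lit 5))
    (@En.n l15643 (nat_lit 4445) (nat_lit 7) (nat_lit 13))
    (@En.n l17 (nat_lit 7682) (nat_lit 7) (nat_lit 2))
    (@En.n l3098 (nat_lit 6565) (nat_lit 8) (nat_lit 6))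
    (@En.i (nat_lit 4476) (nat_lit 4) (nat_lit 14))
    (@En.n l9291 (nat_lit 9304) (nat_lit 11) (nat_lit 11))
    (@En.i (nat_lit 7308) (nat_lit 3) (nat_lit 5))
    (@En.i (nat_lit 7685) (nat_lit 13) (nat_lit 6))
    (@En.n l21789 (nat_lit 881) (nat_lit 14) (nat_lit 7))
    (@En.n l3699 (nat_lit 10616) (nat_lit 11) (nat_lit 10))
    (@En.n l7 (nat_lit 7682) (nat_lit 15) (nat_lit 2))))
  (@Cl.mk (nat_lit 0x2000500090006000a000e000b00020009000700060005000b000a000e0007) (nat_lit 0x10831050008590) (nat_lit 16) Lb.e (@T16.mk En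
    (@En.n l37486 (nat_lit 6566) (nat_lit 7) (nat_lit 7))
    (@En.n l8472 (nat_lit 7682) (nat_lit 9) (nat_lit 14))
    (@En.n l8472 (nat_lit 4443) (nat_lit 10) (nat_lit 10))
    (@En.n l17549 (nat_lit 9303) (nat_lit 3) (nat_lit 11))
    (@En.n l2221 (nat_lit 7310) (nat_lit 4) (nat_lit 5))
    (@En.n l37487 (nat_lit 7684) (nat_lit 5) (nat_lit 6))
    (@En.i (nat_lit 883) (nat_lit 6) (nat_lit 7))
    (@En.n l6396 (nat_lit 10834) (nat_lit 8) (nat_lit 9))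
    (@En.n l3 (nat_lit 7683) (nat_lit 8) (nat_lit 2))
    (@En.n l2213 (nat_lit 6288) (nat_lit 10) (nat_lit 11))
    (@En.n l1006 (nat_lit 6612) (nat_lit 11) (nat_lit 14))
    (@En.i (nat_lit 11342) (nat_lit 12) (nat_lit 10))
    (@En.n l1353 (nat_lit 5011) (nat_lit 13) (nat_lit 6))
    (@En.n l248 (nat_lit 1424) (nat_lit 4) (nat_lit 9))
    (@En.n l18215 (nat_lit 7646) (nat_lit 13) (nat_lit 5))
    (@En.n l50 (nat_lit 7683) (nat_lit 15) (nat_lit 2))))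
  (@Cl.mk (nat_lit 0x20005000d0006000a0003000e000c0002000a00060004000b000a000e0006) (nat_lit 0x90604a00003480) (nat_lit 16) Lb.e (@T16.mk En
    (@En.n l3098 (nat_lit 9181) (nat_lit 8) (nat_lit 6))
    (@En.n l3 (nat_lit 7685) (nat_lit 10) (nat_lit 14))
    (@En.n l3 (nat_lit 7688) (nat_lit 11) (nat_lit 10))
    (@En.n l24326 (nat_lit 3458) (nat_lit 3) (nat_lit 11))
    (@En.i (nat_lit 8343) (nat_lit 4) (nat_lit 4))
    (@En.n l7263 (nat_lit 5934) (nat_lit 5) (nat_lit 6))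
    (@En.n l3699 (nat_lit 10819) (nat_lit 7) (nat_lit 10))
    (@En.n l7 (nat_lit 7684) (nat_lit 7) (nat_lit 2))
    (@En.n l644 (nat_lit 7690) (nat_lit 9) (nat_lit 12))
    (@En.n l13068 (nat_lit 6957) (nat_lit 10) (nat_lit 14))
    (@En.n l10215 (nat_lit 7687) (nat_lit 10) (nat_lit 3))
    (@En.n l7263 (nat_lit 12551) (nat_lit 12) (nat_lit 10))
    (@En.n l17900 (nat_lit 8963) (nat_lit 13) (nat_lit 6))
    (@En.n l33221 (nat_lit 5456) (nat_lit 6) (nat_lit 13))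
    (@En.n l3106 (nat_lit 8524) (nat_lit 13) (nat_lit 5))
    (@En.n l17 (nat_lit 7684) (nat_lit 15) (nat_lit 2))))
  (@Cl.mk (nat_lit 0x2000b00060004000b000e00050002000d0005000d0003000a0003000e000c) (nat_lit 0x3700802070c2) (nat_lit 16) Lb.e (@T16.mk En
    (@En.n l644 (nat_lit 7689) (nat_lit 8) (nat_lit 12))
    (@En.i (nat_lit 6958) (nat_lit 1) (nat_lit 14))
    (@En.i (nat_lit 7686) (nat_lit 2) (nat_lit 3))
    (@En.i (nat_lit 12553) (nat_lit 11) (nat_lit 10))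
    (@En.n l117 (nat_lit 7688) (nat_lit 4) (nat_lit 3))
    (@En.n l781 (nat_lit 814) (nat_lit 0) (nat_lit 13))
    (@En.i (nat_lit 7684) (nat_lit 14) (nat_lit 5))
    (@En.i (nat_lit 10526) (nat_lit 8) (nat_lit 13))
    (@En.n l17 (nat_lit 7685) (nat_lit 8) (nat_lit 2))
    (@En.n l3098 (nat_lit 7695) (nat_lit 9) (nat_lit 5))
    (@En.i (nat_lit 3730) (nat_lit 11) (nat_lit 14))
    (@En.i (nat_lit 3456) (nat_lit 2) (nat_lit 11))
    (@En.i (nat_lit 8300) (nat_lit 3) (nat_lit 4))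
    (@En.n l1347 (nat_lit 5941) (nat_lit 14) (nat_lit 6))
    (@En.n l3699 (nat_lit 10818) (nat_lit 12) (nat_lit 11))
    (@En.n l7 (nat_lit 7685) (nat_lit 15) (nat_lit 2))))
  (@Cl.mk (nat_lit 0x2000b00070004000b000e00050002000c0005000d000900040003000e000c) (nat_lit 0x770000140090) (nat_lit 16) Lb.e (@T16.mk En
    (@En.n l644 (nat_lit 7691) (nat_lit 8) (nat_lit 12))
    (@En.n l13068 (nat_lit 9386) (nat_lit 1) (nat_lit 14))
    (@En.n l11 (nat_lit 7685) (nat_lit 2) (nat_lit 3))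
    (@En.n l2211 (nat_lit 8284) (nat_lit 3) (nat_lit 4))
    (@En.i (nat_lit 7682) (nat_lit 4) (nat_lit 9))
    (@En.n l3916 (nat_lit 810) (nat_lit 6) (nat_lit 13))
    (@En.n l10215 (nat_lit 7687) (nat_lit 14) (nat_lit 5))
    (@En.n l15739 (nat_lit 9182) (nat_lit 8) (nat_lit 12))
    (@En.n l17 (nat_lit 7686) (nat_lit 8) (nat_lit 2))
    (@En.n l3098 (nat_lit 8289) (nat_lit 9) (nat_lit 5))
    (@En.i (nat_lit 3731) (nat_lit 11) (nat_lit 14))
    (@En.n l3916 (nat_lit 3467) (nat_lit 2) (nat_lit 11))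
    (@En.i (nat_lit 8306) (nat_lit 3) (nat_lit 4))
    (@En.n l4916 (nat_lit 2353) (nat_lit 14) (nat_lit 7))
    (@En.n l3699 (nat_lit 10716) (nat_lit 12) (nat_lit 11))
    (@En.n l7 (nat_lit 7686) (nat_lit 15) (nat_lit 2))))
  (@Cl.mk (nat_lit 0x20005000d000900070003000e000c0002000a00070004000b0009000e0006) (nat_lit 0x12004000007480) (nat_lit 16) Lb.e (@T16.mk En
    (@En.n l10476 (nat_lit 9180) (nat_lit 8) (nat_lit 6))
    (@En.n l10903 (nat_lit 7686) (nat_lit 10) (nat_lit 14))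
    (@En.n l10903 (nat_lit 7694) (nat_lit 11) (nat_lit 9))
    (@En.n l1014 (nat_lit 6884) (nat_lit 3) (nat_lit 11))
    (@En.n l4153 (nat_lit 8344) (nat_lit 4) (nat_lit 4))
    (@En.n l6454 (nat_lit 2352) (nat_lit 5) (nat_lit 7))
    (@En.n l2228 (nat_lit 10714) (nat_lit 7) (nat_lit 10))
    (@En.n l11 (nat_lit 7687) (nat_lit 7) (nat_lit 2))
    (@En.n l2224 (nat_lit 7692) (nat_lit 9) (nat_lit 12))
    (@En.n l30840 (nat_lit 9383) (nat_lit 10) (nat_lit 14))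
    (@En.n l30841 (nat_lit 7684) (nat_lit 10) (nat_lit 3))
    (@En.i (nat_lit 1638) (nat_lit 12) (nat_lit 7))
    (@En.n l2225 (nat_lit 7683) (nat_lit 13) (nat_lit 9))
    (@En.n l38 (nat_lit 821) (nat_lit 6) (nat_lit 13))
    (@En.n l4155 (nat_lit 8525) (nat_lit 13) (nat_lit 5))
    (@En.n l17 (nat_lit 7687) (nat_lit 15) (nat_lit 2))))
  (@Cl.mk (nat_lit 0x2000b00060004000a000e00050002000d000c00060003000a0004000e000c) (nat_lit 0x370031007030) (nat_lit 16) Lb.e (@T16.mk En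
    (@En.n l644 (nat_lit 7693) (nat_lit 8) (nat_lit 12))
    (@En.n l17788 (nat_lit 6965) (nat_lit 1) (nat_lit 14))
    (@En.i (nat_lit 7694) (nat_lit 2) (nat_lit 4))
    (@En.n l17308 (nat_lit 11191) (nat_lit 11) (nat_lit 10))
    (@En.n l152 (nat_lit 7685) (nat_lit 4) (nat_lit 3))
    (@En.i (nat_lit 8960) (nat_lit 5) (nat_lit 6))
    (@En.n l619 (nat_lit 7686) (nat_lit 7) (nat_lit 12))
    (@En.i (nat_lit 10527) (nat_lit 8) (nat_lit 13))
    (@En.n l17 (nat_lit 7688) (nat_lit 8) (nat_lit 2))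
    (@En.n l24683 (nat_lit 9107) (nat_lit 9) (nat_lit 5))
    (@En.i (nat_lit 2655) (nat_lit 11) (nat_lit 14))
    (@En.n l17308 (nat_lit 8202) (nat_lit 12) (nat_lit 10))
    (@En.i (nat_lit 8305) (nat_lit 3) (nat_lit 4))
    (@En.n l17308 (nat_lit 5945) (nat_lit 14) (nat_lit 6))
    (@En.n l11391 (nat_lit 10817) (nat_lit 1) (nat_lit 11))
    (@En.n l7 (nat_lit 7688) (nat_lit 15) (nat_lit 2))))
  (@Cl.mk (nat_lit 0x2000d0005000d0003000b0003000c000c000a000500040004000b000e0006) (nat_lit 0xa02040120000420) (nat_lit 16) Lb.e (@T16.mk En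
    (@En.n l3147 (nat_lit 9105) (nat_lit 4) (nat_lit 6))
    (@En.i (nat_lit 2648) (nat_lit 4) (nat_lit 14))
    (@En.n l3786 (nat_lit 9446) (nat_lit 2) (nat_lit 11))
    (@En.n l3787 (nat_lit 7685) (nat_lit 12) (nat_lit 4))
    (@En.i (nat_lit 8298) (nat_lit 4) (nat_lit 4))
    (@En.n l2081 (nat_lit 5939) (nat_lit 5) (nat_lit 5))
    (@En.n l2337 (nat_lit 9400) (nat_lit 11) (nat_lit 10))
    (@En.n l601 (nat_lit 8234) (nat_lit 4) (nat_lit 12))
    (@En.n l28 (nat_lit 4178) (nat_lit 9) (nat_lit 12))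
    (@En.i (nat_lit 7691) (nat_lit 9) (nat_lit 3))
    (@En.i (nat_lit 11348) (nat_lit 11) (nat_lit 11))
    (@En.n l117 (nat_lit 7693) (nat_lit 11) (nat_lit 3))
    (@En.n l781 (nat_lit 815) (nat_lit 0) (nat_lit 13))
    (@En.i (nat_lit 7690) (nat_lit 14) (nat_lit 5))
    (@En.i (nat_lit 6406) (nat_lit 2) (nat_lit 13))
    (@En.n l17 (nat_lit 7689) (nat_lit 15) (nat_lit 2))))
  (@Cl.mk (nat_lit 0x20005000d0006000b0003000c000c0009000500040004000b000a000e0007) (nat_lit 0x10609200004530) (nat_lit 16) Lb.e (@T16.mk En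
    (@En.n l3147 (nat_lit 9108) (nat_lit 5) (nat_lit 7))
    (@En.n l3 (nat_lit 7689) (nat_lit 1) (nat_lit 14))
    (@En.n l3 (nat_lit 7693) (nat_lit 2) (nat_lit 10))
    (@En.n l3786 (nat_lit 9137) (nat_lit 3) (nat_lit 11))
    (@En.n l3787 (nat_lit 7684) (nat_lit 4) (nat_lit 4))
    (@En.i (nat_lit 8240) (nat_lit 5) (nat_lit 4))
    (@En.n l16418 (nat_lit 5933) (nat_lit 6) (nat_lit 5))
    (@En.n l2337 (nat_lit 9402) (nat_lit 8) (nat_lit 9))
    (@En.n l601 (nat_lit 8232) (nat_lit 9) (nat_lit 12))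
    (@En.n l28 (nat_lit 8073) (nat_lit 10) (nat_lit 12))
    (@En.n l16418 (nat_lit 7692) (nat_lit 10) (nat_lit 3))
    (@En.n l17896 (nat_lit 11343) (nat_lit 12) (nat_lit 11))
    (@En.n l24312 (nat_lit 8965) (nat_lit 13) (nat_lit 6))
    (@En.n l3105 (nat_lit 820) (nat_lit 14) (nat_lit 13))
    (@En.n l3106 (nat_lit 8526) (nat_lit 13) (nat_lit 5))
    (@En.n l17 (nat_lit 7690) (nat_lit 15) (nat_lit 2))))
  (@Cl.mk (nat_lit 0x2000c0005000d000a00040003000c000c000a000600040004000b000e0006) (nat_lit 0x2400a74000920) (nat_lit 16) Lb.e (@T16.mk En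
    (@En.n l3147 (nat_lit 9109) (nat_lit 6) (nat_lit 6))
    (@En.i (nat_lit 2653) (nat_lit 4) (nat_lit 14))
    (@En.n l3786 (nat_lit 9444) (nat_lit 2) (nat_lit 11))
    (@En.n l3787 (nat_lit 7686) (nat_lit 12) (nat_lit 4))
    (@En.i (nat_lit 8241) (nat_lit 4) (nat_lit 4))
    (@En.n l2081 (nat_lit 2355) (nat_lit 5) (nat_lit 6))
    (@En.n l2337 (nat_lit 9401) (nat_lit 7) (nat_lit 10))
    (@En.n l601 (nat_lit 8233) (nat_lit 4) (nat_lit 12))
    (@En.n l11655 (nat_lit 9448) (nat_lit 9) (nat_lit 12))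
    (@En.n l11 (nat_lit 7689) (nat_lit 9) (nat_lit 3))
    (@En.n l6385 (nat_lit 7536) (nat_lit 10) (nat_lit 4))
    (@En.i (nat_lit 6286) (nat_lit 12) (nat_lit 10))
    (@En.n l3447 (nat_lit 813) (nat_lit 13) (nat_lit 13))
    (@En.n l16418 (nat_lit 7692) (nat_lit 14) (nat_lit 5))
    (@En.i (nat_lit 9059) (nat_lit 10) (nat_lit 12))
    (@En.n l17 (nat_lit 7691) (nat_lit 15) (nat_lit 2))))
  (@Cl.mk (nat_lit 0x20005000d000a00070003000c000c0009000600040004000b0009000e0007) (nat_lit 0x1400a640003530) (nat_lit 16) Lb.e (@T16.mk En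
    (@En.n l40412 (nat_lit 9124) (nat_lit 5) (nat_lit 7))
    (@En.n l20778 (nat_lit 7691) (nat_lit 1) (nat_lit 14))
    (@En.n l20778 (nat_lit 4626) (nat_lit 2) (nat_lit 9))
    (@En.n l4806 (nat_lit 9134) (nat_lit 3) (nat_lit 11))
    (@En.n l6368 (nat_lit 7687) (nat_lit 4) (nat_lit 4))
    (@En.n l8094 (nat_lit 8239) (nat_lit 5) (nat_lit 4))
    (@En.i (nat_lit 2354) (nat_lit 6) (nat_lit 6))
    (@En.n l31527 (nat_lit 9758) (nat_lit 8) (nat_lit 9))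
    (@En.n l61 (nat_lit 8231) (nat_lit 9) (nat_lit 12))
    (@En.n l564 (nat_lit 9131) (nat_lit 10) (nat_lit 12))
    (@En.n l42146 (nat_lit 7690) (nat_lit 10) (nat_lit 3))
    (@En.n l4019 (nat_lit 1641) (nat_lit 12) (nat_lit 7))
    (@En.i (nat_lit 6288) (nat_lit 13) (nat_lit 10))
    (@En.n l1643 (nat_lit 819) (nat_lit 14) (nat_lit 13))
    (@En.n l5955 (nat_lit 8478) (nat_lit 13) (nat_lit 5))
    (@En.n l11 (nat_lit 7692) (nat_lit 15) (nat_lit 2))))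
  (@Cl.mk (nat_lit 0x2000d000c00060003000b0004000c000c000a000500040004000a000e0006) (nat_lit 0xb10040a20000420) (nat_lit 16) Lb.e (@T16.mk En
    (@En.i (nat_lit 9106) (nat_lit 4) (nat_lit 6))
    (@En.i (nat_lit 2650) (nat_lit 1) (nat_lit 14))
    (@En.i (nat_lit 9465) (nat_lit 2) (nat_lit 10))
    (@En.n l3787 (nat_lit 7688) (nat_lit 12) (nat_lit 4))
    (@En.i (nat_lit 4629) (nat_lit 4) (nat_lit 4))
    (@En.n l10765 (nat_lit 5943) (nat_lit 5) (nat_lit 5))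
    (@En.n l2337 (nat_lit 9399) (nat_lit 11) (nat_lit 10))
    (@En.n l601 (nat_lit 8235) (nat_lit 4) (nat_lit 12))
    (@En.n l18989 (nat_lit 11561) (nat_lit 9) (nat_lit 12))
    (@En.i (nat_lit 4626) (nat_lit 9) (nat_lit 4))
    (@En.i (nat_lit 11188) (nat_lit 11) (nat_lit 11))
    (@En.n l152 (nat_lit 7689) (nat_lit 11) (nat_lit 3))
    (@En.i (nat_lit 8959) (nat_lit 0) (nat_lit 6))
    (@En.n l619 (nat_lit 7691) (nat_lit 14) (nat_lit 12))
    (@En.i (nat_lit 6407) (nat_lit 2) (nat_lit 13))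
    (@En.n l17 (nat_lit 7693) (nat_lit 15) (nat_lit 2))))
  (@Cl.mk (nat_lit 0x2000b000800040009000e00050002000c000c0008000700040004000e000c) (nat_lit 0x3403a0000300031) (nat_lit 16) Lb.e (@T16.mk En
    (@En.n l644 (nat_lit 4626) (nat_lit 8) (nat_lit 12))
    (@En.n l17788 (nat_lit 9502) (nat_lit 1) (nat_lit 14))
    (@En.n l28995 (nat_lit 8956) (nat_lit 12) (nat_lit 4))
    (@En.n l152 (nat_lit 7686) (nat_lit 3) (nat_lit 4))
    (@En.n l3016 (nat_lit 2109) (nat_lit 4) (nat_lit 7))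
    (@En.i (nat_lit 4443) (nat_lit 5) (nat_lit 8))
    (@En.n l4314 (nat_lit 8284) (nat_lit 7) (nat_lit 12))
    (@En.n l28996 (nat_lit 9190) (nat_lit 8) (nat_lit 12))
    (@En.n l17 (nat_lit 7694) (nat_lit 8) (nat_lit 2))
    (@En.n l17308 (nat_lit 8286) (nat_lit 9) (nat_lit 5))
    (@En.i (nat_lit 2681) (nat_lit 11) (nat_lit 14))
    (@En.n l28997 (nat_lit 2702) (nat_lit 2) (nat_lit 9))
    (@En.i (nat_lit 4624) (nat_lit 3) (nat_lit 4))
    (@En.n l17308 (nat_lit 2358) (nat_lit 14) (nat_lit 8))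
    (@En.n l21924 (nat_lit 10266) (nat_lit 1) (nat_lit 11))
    (@En.n l7 (nat_lit 7694) (nat_lit 15) (nat_lit 2))))
  (@Cl.mk (nat_lit 0x2000b000b00070005000c00050005000d0004000d000300090003000e000b) (nat_lit 0x100400302060b5) (nat_lit 16) Lb.e (@T16.mk En
    (@En.i (nat_lit 9105) (nat_lit 12) (nat_lit 11))
    (@En.n l6042 (nat_lit 5295) (nat_lit 1) (nat_lit 14))
    (@En.i (nat_lit 8289) (nat_lit 2) (nat_lit 3))
    (@En.n l7882 (nat_lit 9347) (nat_lit 3) (nat_lit 9))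
    (@En.n l34378 (nat_lit 9107) (nat_lit 4) (nat_lit 3))
    (@En.i (nat_lit 2358) (nat_lit 0) (nat_lit 13))
    (@En.i (nat_lit 9181) (nat_lit 6) (nat_lit 4))
    (@En.n l6080 (nat_lit 9004) (nat_lit 8) (nat_lit 13))
    (@En.n l152 (nat_lit 9102) (nat_lit 11) (nat_lit 5))
    (@En.n l3851 (nat_lit 7814) (nat_lit 9) (nat_lit 5))
    (@En.n l7055 (nat_lit 6744) (nat_lit 11) (nat_lit 12))
    (@En.i (nat_lit 8307) (nat_lit 6) (nat_lit 5))
    (@En.n l26601 (nat_lit 8537) (nat_lit 13) (nat_lit 7))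
    (@En.n l3536 (nat_lit 7685) (nat_lit 14) (nat_lit 11))
    (@En.n l26614 (nat_lit 10805) (nat_lit 12) (nat_lit 11))
    (@En.n l18 (nat_lit 7695) (nat_lit 15) (nat_lit 2))))
noncomputable def a481 : T16 Cl := @T16.mk Cl
  (@Cl.mk (nat_lit 0x2000500090008000e000d0002000a00030007000b0008000b0006000e0005) (nat_lit 0x337702008180a0) (nat_lit 16) Lb.e (@T16.mk En
    (@En.n l3323 (nat_lit 7118) (nat_lit 6) (nat_lit 5))
    (@En.i (nat_lit 3528) (nat_lit 8) (nat_lit 14))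
    (@En.n l3348 (nat_lit 8721) (nat_lit 2) (nat_lit 6))
    (@En.i (nat_lit 4728) (nat_lit 3) (nat_lit 11))
    (@En.n l766 (nat_lit 5379) (nat_lit 4) (nat_lit 8))
    (@En.n l3348 (nat_lit 7217) (nat_lit 12) (nat_lit 11))
    (@En.n l3337 (nat_lit 7012) (nat_lit 6) (nat_lit 7))
    (@En.n l3348 (nat_lit 3530) (nat_lit 7) (nat_lit 3))
    (@En.i (nat_lit 2020) (nat_lit 0) (nat_lit 10))
    (@En.n l7 (nat_lit 7696) (nat_lit 9) (nat_lit 2))
    (@En.n l9926 (nat_lit 3530) (nat_lit 11) (nat_lit 13))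
    (@En.n l3345 (nat_lit 7896) (nat_lit 12) (nat_lit 14))
    (@En.n l23052 (nat_lit 7697) (nat_lit 13) (nat_lit 8))
    (@En.n l23053 (nat_lit 7071) (nat_lit 3) (nat_lit 9))
    (@En.n l10280 (nat_lit 3488) (nat_lit 13) (nat_lit 5))
    (@En.n l3 (nat_lit 7696) (nat_lit 15) (nat_lit 2))))
  (@Cl.mk (nat_lit 0x200050008000e000d000200090003000d000a00080003000b0007000e0006) (nat_lit 0x26602097209030) (nat_lit 16) Lb.e (@T16.mk En
    (@En.n l117 (nat_lit 7116) (nat_lit 5) (nat_lit 6))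
    (@En.n l10221 (nat_lit 3534) (nat_lit 7) (nat_lit 14))
    (@En.n l2364 (nat_lit 8677) (nat_lit 7) (nat_lit 7))
    (@En.n l10222 (nat_lit 7696) (nat_lit 3) (nat_lit 11))
    (@En.n l936 (nat_lit 7698) (nat_lit 4) (nat_lit 3))
    (@En.i (nat_lit 5380) (nat_lit 5) (nat_lit 8))
    (@En.n l3745 (nat_lit 7218) (nat_lit 12) (nat_lit 10))
    (@En.i (nat_lit 11431) (nat_lit 8) (nat_lit 13))
    (@En.n l8142 (nat_lit 3535) (nat_lit 8) (nat_lit 3))
    (@En.n l3633 (nat_lit 2019) (nat_lit 10) (nat_lit 9))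
    (@En.n l50 (nat_lit 7697) (nat_lit 10) (nat_lit 2))
    (@En.n l10223 (nat_lit 3535) (nat_lit 12) (nat_lit 13))
    (@En.n l3635 (nat_lit 8566) (nat_lit 13) (nat_lit 14))
    (@En.n l10224 (nat_lit 3289) (nat_lit 2) (nat_lit 8))
    (@En.n l3636 (nat_lit 3494) (nat_lit 13) (nat_lit 5))
    (@En.n l11 (nat_lit 7697) (nat_lit 15) (nat_lit 2))))
  (@Cl.mk (nat_lit 0x200050009000e000d000200090003000d0007000b0003000b0007000e0005) (nat_lit 0x46602080109050) (nat_lit 16) Lb.e (@T16.mk En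
    (@En.n l117 (nat_lit 7114) (nat_lit 5) (nat_lit 5))
    (@En.n l725 (nat_lit 7209) (nat_lit 7) (nat_lit 14))
    (@En.n l2364 (nat_lit 8676) (nat_lit 7) (nat_lit 7))
    (@En.i (nat_lit 4673) (nat_lit 3) (nat_lit 11))
    (@En.n l2576 (nat_lit 7697) (nat_lit 4) (nat_lit 3))
    (@En.i (nat_lit 3057) (nat_lit 11) (nat_lit 11))
    (@En.n l7645 (nat_lit 7696) (nat_lit 6) (nat_lit 7))
    (@En.i (nat_lit 12122) (nat_lit 8) (nat_lit 13))
    (@En.n l723 (nat_lit 7445) (nat_lit 8) (nat_lit 3))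
    (@En.i (nat_lit 2021) (nat_lit 10) (nat_lit 9))
    (@En.n l50 (nat_lit 7698) (nat_lit 10) (nat_lit 2))
    (@En.n l10166 (nat_lit 7445) (nat_lit 12) (nat_lit 13))
    (@En.n l13025 (nat_lit 8347) (nat_lit 13) (nat_lit 14))
    (@En.n l6735 (nat_lit 7054) (nat_lit 2) (nat_lit 9))
    (@En.n l3598 (nat_lit 3495) (nat_lit 13) (nat_lit 5))
    (@En.n l11 (nat_lit 7698) (nat_lit 15) (nat_lit 2))))
  (@Cl.mk (nat_lit 0x200060009000e000800020009000d000900070003000a00080007000e0007) (nat_lit 0x4c601860086040) (nat_lit 16) Lb.e (@T16.mk En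
    (@En.n l25569 (nat_lit 7701) (nat_lit 5) (nat_lit 7))
    (@En.n l25570 (nat_lit 11508) (nat_lit 7) (nat_lit 14))
    (@En.n l25571 (nat_lit 7697) (nat_lit 2) (nat_lit 7))
    (@En.n l25572 (nat_lit 8682) (nat_lit 3) (nat_lit 8))
    (@En.n l17 (nat_lit 5252) (nat_lit 4) (nat_lit 10))
    (@En.n l16294 (nat_lit 7700) (nat_lit 5) (nat_lit 3))
    (@En.n l25573 (nat_lit 5383) (nat_lit 6) (nat_lit 7))
    (@En.i (nat_lit 7518) (nat_lit 13) (nat_lit 9))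
    (@En.n l24598 (nat_lit 12096) (nat_lit 9) (nat_lit 13))
    (@En.n l25574 (nat_lit 2013) (nat_lit 10) (nat_lit 9))
    (@En.n l67 (nat_lit 7699) (nat_lit 10) (nat_lit 2))
    (@En.n l25575 (nat_lit 7487) (nat_lit 12) (nat_lit 8))
    (@En.n l25576 (nat_lit 6031) (nat_lit 13) (nat_lit 14))
    (@En.n l24598 (nat_lit 5708) (nat_lit 2) (nat_lit 9))
    (@En.n l25577 (nat_lit 2586) (nat_lit 3) (nat_lit 6))
    (@En.n l50 (nat_lit 7699) (nat_lit 15) (nat_lit 2))))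
  (@Cl.mk (nat_lit 0x20006000a000e000800020009000d0006000a0003000a00080007000e0006) (nat_lit 0x6c602707086060) (nat_lit 16) Lb.e (@T16.mk En
    (@En.n l35199 (nat_lit 7703) (nat_lit 5) (nat_lit 6))
    (@En.n l7678 (nat_lit 11511) (nat_lit 7) (nat_lit 14))
    (@En.n l763 (nat_lit 7698) (nat_lit 2) (nat_lit 7))
    (@En.i (nat_lit 8152) (nat_lit 3) (nat_lit 8))
    (@En.n l763 (nat_lit 5250) (nat_lit 4) (nat_lit 10))
    (@En.n l35200 (nat_lit 7699) (nat_lit 5) (nat_lit 3))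
    (@En.i (nat_lit 7145) (nat_lit 0) (nat_lit 10))
    (@En.n l19493 (nat_lit 5252) (nat_lit 7) (nat_lit 6))
    (@En.n l1029 (nat_lit 12098) (nat_lit 9) (nat_lit 13))
    (@En.n l998 (nat_lit 2016) (nat_lit 10) (nat_lit 9))
    (@En.n l50 (nat_lit 7700) (nat_lit 10) (nat_lit 2))
    (@En.i (nat_lit 7488) (nat_lit 12) (nat_lit 8))
    (@En.n l35201 (nat_lit 6032) (nat_lit 13) (nat_lit 14))
    (@En.n l35202 (nat_lit 6473) (nat_lit 2) (nat_lit 10))
    (@En.n l19395 (nat_lit 2291) (nat_lit 3) (nat_lit 6))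
    (@En.n l11 (nat_lit 7700) (nat_lit 15) (nat_lit 2))))
  (@Cl.mk (nat_lit 0x20008000c0009000900080004000b000900080007000700050008000e0007) (nat_lit 0x1437307740005c0) (nat_lit 16) Lb.e (@T16.mk En
    (@En.n l9877 (nat_lit 7440) (nat_lit 6) (nat_lit 7))
    (@En.n l22952 (nat_lit 6041) (nat_lit 1) (nat_lit 14))
    (@En.n l37005 (nat_lit 5710) (nat_lit 2) (nat_lit 8))
    (@En.n l25864 (nat_lit 2592) (nat_lit 3) (nat_lit 5))
    (@En.n l38777 (nat_lit 7708) (nat_lit 4) (nat_lit 7))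
    (@En.n l55 (nat_lit 9053) (nat_lit 5) (nat_lit 7))
    (@En.n l9885 (nat_lit 7116) (nat_lit 6) (nat_lit 8))
    (@En.n l22951 (nat_lit 8497) (nat_lit 8) (nat_lit 9))
    (@En.n l28839 (nat_lit 7702) (nat_lit 9) (nat_lit 11))
    (@En.n l8083 (nat_lit 7703) (nat_lit 9) (nat_lit 4))
    (@En.n l3490 (nat_lit 7726) (nat_lit 11) (nat_lit 8))
    (@En.n l38778 (nat_lit 7699) (nat_lit 7) (nat_lit 9))
    (@En.n l38779 (nat_lit 4568) (nat_lit 13) (nat_lit 9))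
    (@En.n l38780 (nat_lit 12095) (nat_lit 14) (nat_lit 12))
    (@En.n l38781 (nat_lit 2022) (nat_lit 4) (nat_lit 8))
    (@En.n l67 (nat_lit 7701) (nat_lit 15) (nat_lit 2))))
  (@Cl.mk (nat_lit 0x200090006000a000a0008000b00080007000600060005000a0008000e0008) (nat_lit 0x106846600003651) (nat_lit 16) Lb.e (@T16.mk En
    (@En.n l22946 (nat_lit 5849) (nat_lit 2) (nat_lit 8))
    (@En.n l31528 (nat_lit 9615) (nat_lit 1) (nat_lit 14))
    (@En.n l17524 (nat_lit 7701) (nat_lit 2) (nat_lit 8))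
    (@En.n l6080 (nat_lit 7706) (nat_lit 3) (nat_lit 10))
    (@En.n l1778 (nat_lit 2590) (nat_lit 4) (nat_lit 5))
    (@En.n l2172 (nat_lit 5851) (nat_lit 5) (nat_lit 6))
    (@En.i (nat_lit 9052) (nat_lit 6) (nat_lit 6))
    (@En.i (nat_lit 7118) (nat_lit 7) (nat_lit 7))
    (@En.n l31528 (nat_lit 8750) (nat_lit 9) (nat_lit 8))
    (@En.i (nat_lit 5248) (nat_lit 10) (nat_lit 11))
    (@En.n l742 (nat_lit 7727) (nat_lit 11) (nat_lit 8))
    (@En.n l41054 (nat_lit 5252) (nat_lit 6) (nat_lit 10))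
    (@En.n l3541 (nat_lit 4567) (nat_lit 13) (nat_lit 10))
    (@En.n l810 (nat_lit 8017) (nat_lit 14) (nat_lit 6))
    (@En.n l28 (nat_lit 2023) (nat_lit 0) (nat_lit 9))
    (@En.n l11 (nat_lit 7702) (nat_lit 15) (nat_lit 2))))
  (@Cl.mk (nat_lit 0x20008000c0006000a000a0004000b00090008000600060005000a000e0007) (nat_lit 0x340280705000540) (nat_lit 16) Lb.e (@T16.mk En
    (@En.n l37501 (nat_lit 7710) (nat_lit 6) (nat_lit 7))
    (@En.n l15535 (nat_lit 6037) (nat_lit 1) (nat_lit 14))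
    (@En.n l22123 (nat_lit 6477) (nat_lit 2) (nat_lit 10))
    (@En.n l18 (nat_lit 6881) (nat_lit 3) (nat_lit 5))
    (@En.n l21425 (nat_lit 7709) (nat_lit 10) (nat_lit 6))
    (@En.n l37502 (nat_lit 9286) (nat_lit 5) (nat_lit 6))
    (@En.n l24949 (nat_lit 7114) (nat_lit 6) (nat_lit 8))
    (@En.n l37029 (nat_lit 8148) (nat_lit 8) (nat_lit 9))
    (@En.n l37503 (nat_lit 5723) (nat_lit 9) (nat_lit 11))
    (@En.n l37504 (nat_lit 7724) (nat_lit 9) (nat_lit 4))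
    (@En.n l37505 (nat_lit 7700) (nat_lit 6) (nat_lit 10))
    (@En.n l1769 (nat_lit 7149) (nat_lit 12) (nat_lit 10))
    (@En.n l24950 (nat_lit 7702) (nat_lit 13) (nat_lit 6))
    (@En.n l9970 (nat_lit 12105) (nat_lit 14) (nat_lit 12))
    (@En.n l37506 (nat_lit 6936) (nat_lit 4) (nat_lit 8))
    (@En.n l67 (nat_lit 7703) (nat_lit 15) (nat_lit 2))))
  (@Cl.mk (nat_lit 0x200090006000d000a0008000300080007000e00060002000a0008000e0008) (nat_lit 0x1091400030046a6) (nat_lit 16) Lb.e (@T16.mk En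
    (@En.n l3580 (nat_lit 8103) (nat_lit 12) (nat_lit 8))
    (@En.n l17998 (nat_lit 9309) (nat_lit 13) (nat_lit 14))
    (@En.n l3751 (nat_lit 5132) (nat_lit 2) (nat_lit 8))
    (@En.n l614 (nat_lit 2593) (nat_lit 3) (nat_lit 10))
    (@En.n l11 (nat_lit 7704) (nat_lit 4) (nat_lit 2))
    (@En.n l117 (nat_lit 7706) (nat_lit 5) (nat_lit 6))
    (@En.n l2347 (nat_lit 11514) (nat_lit 7) (nat_lit 14))
    (@En.i (nat_lit 7071) (nat_lit 7) (nat_lit 7))
    (@En.n l18725 (nat_lit 9339) (nat_lit 3) (nat_lit 8))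
    (@En.n l936 (nat_lit 7705) (nat_lit 9) (nat_lit 3))
    (@En.i (nat_lit 5782) (nat_lit 0) (nat_lit 8))
    (@En.n l936 (nat_lit 6583) (nat_lit 12) (nat_lit 10))
    (@En.n l18726 (nat_lit 7699) (nat_lit 8) (nat_lit 13))
    (@En.n l2350 (nat_lit 12124) (nat_lit 14) (nat_lit 6))
    (@En.n l18727 (nat_lit 5349) (nat_lit 10) (nat_lit 9))
    (@En.n l50 (nat_lit 7704) (nat_lit 15) (nat_lit 2))))
  (@Cl.mk (nat_lit 0x200090006000d0007000b000300080007000e00050002000a0009000e0008) (nat_lit 0x1080300050047c6) (nat_lit 16) Lb.e (@T16.mk En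
    (@En.i (nat_lit 8102) (nat_lit 12) (nat_lit 8))
    (@En.n l3749 (nat_lit 9307) (nat_lit 13) (nat_lit 14))
    (@En.n l25506 (nat_lit 6472) (nat_lit 2) (nat_lit 9))
    (@En.i (nat_lit 2590) (nat_lit 3) (nat_lit 10))
    (@En.n l11 (nat_lit 7705) (nat_lit 4) (nat_lit 2))
    (@En.n l117 (nat_lit 7707) (nat_lit 5) (nat_lit 5))
    (@En.n l26664 (nat_lit 5959) (nat_lit 7) (nat_lit 14))
    (@En.i (nat_lit 7069) (nat_lit 7) (nat_lit 7))
    (@En.n l16306 (nat_lit 10734) (nat_lit 3) (nat_lit 8))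
    (@En.n l2576 (nat_lit 7704) (nat_lit 9) (nat_lit 3))
    (@En.i (nat_lit 7994) (nat_lit 0) (nat_lit 11))
    (@En.n l16306 (nat_lit 3173) (nat_lit 6) (nat_lit 7))
    (@En.n l6444 (nat_lit 7700) (nat_lit 8) (nat_lit 13))
    (@En.n l1353 (nat_lit 12123) (nat_lit 14) (nat_lit 6))
    (@En.n l18 (nat_lit 5346) (nat_lit 10) (nat_lit 9))
    (@En.n l50 (nat_lit 7705) (nat_lit 15) (nat_lit 2))))
  (@Cl.mk (nat_lit 0x200080006000c000a000a000900040009000800060006000a0007000e0007) (nat_lit 0x1053250650020a0) (nat_lit 16) Lb.e (@T16.mk En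
    (@En.n l28344 (nat_lit 7735) (nat_lit 7) (nat_lit 7))
    (@En.i (nat_lit 9314) (nat_lit 1) (nat_lit 14))
    (@En.n l3107 (nat_lit 5709) (nat_lit 2) (nat_lit 7))
    (@En.n l28345 (nat_lit 2599) (nat_lit 3) (nat_lit 10))
    (@En.n l11 (nat_lit 7173) (nat_lit 4) (nat_lit 6))
    (@En.n l28346 (nat_lit 9808) (nat_lit 5) (nat_lit 6))
    (@En.i (nat_lit 7076) (nat_lit 6) (nat_lit 8))
    (@En.n l14276 (nat_lit 9337) (nat_lit 8) (nat_lit 9))
    (@En.n l936 (nat_lit 7707) (nat_lit 8) (nat_lit 4))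
    (@En.n l55 (nat_lit 7728) (nat_lit 10) (nat_lit 9))
    (@En.n l619 (nat_lit 7704) (nat_lit 11) (nat_lit 10))
    (@En.n l3866 (nat_lit 6584) (nat_lit 12) (nat_lit 10))
    (@En.n l3593 (nat_lit 7701) (nat_lit 13) (nat_lit 12))
    (@En.n l16498 (nat_lit 11428) (nat_lit 14) (nat_lit 6))
    (@En.n l18 (nat_lit 5352) (nat_lit 5) (nat_lit 8))
    (@En.n l50 (nat_lit 7706) (nat_lit 15) (nat_lit 2))))
  (@Cl.mk (nat_lit 0x200080006000c0007000b000b00040009000800050005000a0009000e0007) (nat_lit 0x305074064002570) (nat_lit 16) Lb.e (@T16.mk En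
    (@En.i (nat_lit 7736) (nat_lit 7) (nat_lit 7))
    (@En.n l28613 (nat_lit 9305) (nat_lit 1) (nat_lit 14))
    (@En.n l6825 (nat_lit 6476) (nat_lit 2) (nat_lit 9))
    (@En.n l649 (nat_lit 6673) (nat_lit 3) (nat_lit 10))
    (@En.n l7126 (nat_lit 7174) (nat_lit 11) (nat_lit 5))
    (@En.n l29330 (nat_lit 11392) (nat_lit 5) (nat_lit 5))
    (@En.i (nat_lit 7070) (nat_lit 6) (nat_lit 8))
    (@En.n l22708 (nat_lit 10208) (nat_lit 8) (nat_lit 9))
    (@En.n l1865 (nat_lit 6529) (nat_lit 8) (nat_lit 4))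
    (@En.n l619 (nat_lit 7705) (nat_lit 10) (nat_lit 11))
    (@En.i (nat_lit 7730) (nat_lit 11) (nat_lit 11))
    (@En.n l1769 (nat_lit 3167) (nat_lit 12) (nat_lit 7))
    (@En.n l11434 (nat_lit 7703) (nat_lit 13) (nat_lit 12))
    (@En.i (nat_lit 11447) (nat_lit 14) (nat_lit 6))
    (@En.n l18 (nat_lit 5353) (nat_lit 5) (nat_lit 8))
    (@En.n l50 (nat_lit 7707) (nat_lit 15) (nat_lit 2))))
  (@Cl.mk (nat_lit 0x20007000b000e0009000200090005000c000a0009000700040007000e0006) (nat_lit 0x614020384000a0) (nat_lit 16) Lb.e (@T16.mk En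
    (@En.n l4447 (nat_lit 5850) (nat_lit 5) (nat_lit 6))
    (@En.n l8891 (nat_lit 7738) (nat_lit 7) (nat_lit 14))
    (@En.n l13143 (nat_lit 5712) (nat_lit 2) (nat_lit 7))
    (@En.n l8891 (nat_lit 8187) (nat_lit 3) (nat_lit 4))
    (@En.n l3340 (nat_lit 12674) (nat_lit 4) (nat_lit 7))
    (@En.n l20572 (nat_lit 4865) (nat_lit 5) (nat_lit 9))
    (@En.n l7212 (nat_lit 8717) (nat_lit 12) (nat_lit 10))
    (@En.n l36959 (nat_lit 5851) (nat_lit 8) (nat_lit 12))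
    (@En.n l9239 (nat_lit 7709) (nat_lit 14) (nat_lit 5))
    (@En.n l36960 (nat_lit 6581) (nat_lit 10) (nat_lit 9))
    (@En.n l17 (nat_lit 7708) (nat_lit 10) (nat_lit 2))
    (@En.n l36961 (nat_lit 7701) (nat_lit 12) (nat_lit 9))
    (@En.n l13574 (nat_lit 1912) (nat_lit 13) (nat_lit 14))
    (@En.i (nat_lit 11691) (nat_lit 2) (nat_lit 11))
    (@En.n l13574 (nat_lit 6930) (nat_lit 3) (nat_lit 7))
    (@En.n l50 (nat_lit 7708) (nat_lit 15) (nat_lit 2))))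
  (@Cl.mk (nat_lit 0x20005000c000a000900060004000a000e000600020007000b0006000e000a) (nat_lit 0x28400490004023) (nat_lit 16) Lb.e (@T16.mk En
    (@En.n l21746 (nat_lit 7703) (nat_lit 11) (nat_lit 10))
    (@En.n l3138 (nat_lit 7708) (nat_lit 12) (nat_lit 14))
    (@En.n l21747 (nat_lit 5851) (nat_lit 13) (nat_lit 6))
    (@En.n l427 (nat_lit 11693) (nat_lit 3) (nat_lit 11))
    (@En.n l21748 (nat_lit 6932) (nat_lit 4) (nat_lit 7))
    (@En.n l7 (nat_lit 7709) (nat_lit 5) (nat_lit 2))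
    (@En.n l9902 (nat_lit 5705) (nat_lit 6) (nat_lit 6))
    (@En.i (nat_lit 7412) (nat_lit 8) (nat_lit 14))
    (@En.n l4021 (nat_lit 8076) (nat_lit 9) (nat_lit 10))
    (@En.i (nat_lit 8186) (nat_lit 9) (nat_lit 4))
    (@En.n l21749 (nat_lit 12679) (nat_lit 4) (nat_lit 6))
    (@En.n l9389 (nat_lit 7193) (nat_lit 12) (nat_lit 9))
    (@En.n l575 (nat_lit 8151) (nat_lit 13) (nat_lit 10))
    (@En.n l1252 (nat_lit 5706) (nat_lit 8) (nat_lit 12))
    (@En.i (nat_lit 8063) (nat_lit 8) (nat_lit 5))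
    (@En.n l3 (nat_lit 7709) (nat_lit 15) (nat_lit 2))))
  (@Cl.mk (nat_lit 0x4000a000900090009000700070006000b000700070007000c000500090009) (nat_lit 0x561600060004042) (nat_lit 16) Lb.e (@T16.mk En
    (@En.n l35168 (nat_lit 7488) (nat_lit 7) (nat_lit 9))
    (@En.n l35169 (nat_lit 5441) (nat_lit 10) (nat_lit 9))
    (@En.n l35170 (nat_lit 5849) (nat_lit 15) (nat_lit 5))
    (@En.n l287 (nat_lit 10353) (nat_lit 0) (nat_lit 12))
    (@En.n l11 (nat_lit 7711) (nat_lit 9) (nat_lit 7))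
    (@En.n l35171 (nat_lit 5271) (nat_lit 9) (nat_lit 7))
    (@En.n l27966 (nat_lit 11350) (nat_lit 6) (nat_lit 7))
    (@En.n l50 (nat_lit 6475) (nat_lit 9) (nat_lit 11))
    (@En.n l35172 (nat_lit 6882) (nat_lit 10) (nat_lit 6))
    (@En.n l35173 (nat_lit 5705) (nat_lit 9) (nat_lit 7))
    (@En.n l35174 (nat_lit 10285) (nat_lit 9) (nat_lit 7))
    (@En.n l6953 (nat_lit 7438) (nat_lit 7) (nat_lit 9))
    (@En.n l35175 (nat_lit 7703) (nat_lit 7) (nat_lit 9))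
    (@En.n l35169 (nat_lit 9934) (nat_lit 7) (nat_lit 9))
    (@En.n l11386 (nat_lit 5303) (nat_lit 11) (nat_lit 10))
    (@En.n l18636 (nat_lit 6527) (nat_lit 15) (nat_lit 4))))
  (@Cl.mk (nat_lit 0x2000800080007000c00080007000c000400080008000400090008000e0009) (nat_lit 0x560760304306632) (nat_lit 16) Lb.e (@T16.mk En
    (@En.n l68 (nat_lit 7710) (nat_lit 12) (nat_lit 9))
    (@En.n l645 (nat_lit 6937) (nat_lit 1) (nat_lit 14))
    (@En.n l19716 (nat_lit 9930) (nat_lit 2) (nat_lit 8))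
    (@En.n l19717 (nat_lit 5714) (nat_lit 3) (nat_lit 9))
    (@En.n l19718 (nat_lit 6535) (nat_lit 4) (nat_lit 4))
    (@En.n l19719 (nat_lit 7713) (nat_lit 8) (nat_lit 8))
    (@En.n l14944 (nat_lit 6385) (nat_lit 6) (nat_lit 8))
    (@En.n l19720 (nat_lit 7715) (nat_lit 7) (nat_lit 4))
    (@En.n l19716 (nat_lit 11132) (nat_lit 9) (nat_lit 12))
    (@En.i (nat_lit 3252) (nat_lit 9) (nat_lit 7))
    (@En.n l19721 (nat_lit 7723) (nat_lit 11) (nat_lit 8))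
    (@En.n l19718 (nat_lit 5298) (nat_lit 12) (nat_lit 12))
    (@En.n l5355 (nat_lit 6484) (nat_lit 13) (nat_lit 7))
    (@En.n l10952 (nat_lit 7712) (nat_lit 8) (nat_lit 8))
    (@En.n l19722 (nat_lit 11077) (nat_lit 6) (nat_lit 8))
    (@En.n l67 (nat_lit 7711) (nat_lit 15) (nat_lit 2))))
noncomputable def a482 : T16 Cl := @T16.mk Cl
  (@Cl.mk (nat_lit 0x20005000a0009000e000a000200080006000c00070006000b0004000e0008) (nat_lit 0x87310506003025) (nat_lit 16) Lb.e (@T16.mk En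
    (@En.n l4018 (nat_lit 7711) (nat_lit 6) (nat_lit 8))
    (@En.n l9386 (nat_lit 7716) (nat_lit 1) (nat_lit 14))
    (@En.n l6479 (nat_lit 5853) (nat_lit 2) (nat_lit 4))
    (@En.n l9387 (nat_lit 11129) (nat_lit 3) (nat_lit 11))
    (@En.i (nat_lit 5504) (nat_lit 4) (nat_lit 6))
    (@En.n l9388 (nat_lit 12546) (nat_lit 5) (nat_lit 7))
    (@En.n l9389 (nat_lit 8160) (nat_lit 7) (nat_lit 12))
    (@En.i (nat_lit 7670) (nat_lit 7) (nat_lit 6))
    (@En.n l4022 (nat_lit 11112) (nat_lit 9) (nat_lit 8))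
    (@En.n l7 (nat_lit 7712) (nat_lit 9) (nat_lit 2))
    (@En.n l28 (nat_lit 5705) (nat_lit 11) (nat_lit 10))
    (@En.n l4016 (nat_lit 6931) (nat_lit 12) (nat_lit 14))
    (@En.n l9390 (nat_lit 11334) (nat_lit 13) (nat_lit 9))
    (@En.n l5473 (nat_lit 5707) (nat_lit 3) (nat_lit 10))
    (@En.n l4016 (nat_lit 7010) (nat_lit 4) (nat_lit 5))
    (@En.n l3 (nat_lit 7712) (nat_lit 15) (nat_lit 2))))
  (@Cl.mk (nat_lit 0x20008000c00090008000d00040008000300080007000e00080002000e0008) (nat_lit 0x1871502050110b6) (nat_lit 16) Lb.e (@T16.mk En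
    (@En.n l8318 (nat_lit 7711) (nat_lit 14) (nat_lit 8))
    (@En.n l8319 (nat_lit 11734) (nat_lit 1) (nat_lit 14))
    (@En.n l17 (nat_lit 7713) (nat_lit 2) (nat_lit 2))
    (@En.n l8320 (nat_lit 7488) (nat_lit 3) (nat_lit 8))
    (@En.n l8321 (nat_lit 2015) (nat_lit 5) (nat_lit 14))
    (@En.n l8322 (nat_lit 9927) (nat_lit 5) (nat_lit 7))
    (@En.n l218 (nat_lit 5713) (nat_lit 6) (nat_lit 8))
    (@En.n l8323 (nat_lit 7717) (nat_lit 7) (nat_lit 3))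
    (@En.n l8324 (nat_lit 6383) (nat_lit 0) (nat_lit 8))
    (@En.n l55 (nat_lit 7718) (nat_lit 9) (nat_lit 4))
    (@En.n l8322 (nat_lit 12502) (nat_lit 11) (nat_lit 13))
    (@En.n l8325 (nat_lit 5650) (nat_lit 12) (nat_lit 8))
    (@En.n l8326 (nat_lit 11356) (nat_lit 13) (nat_lit 9))
    (@En.n l8323 (nat_lit 6465) (nat_lit 14) (nat_lit 12))
    (@En.n l8327 (nat_lit 2471) (nat_lit 12) (nat_lit 8))
    (@En.n l3 (nat_lit 7713) (nat_lit 15) (nat_lit 2))))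
  (@Cl.mk (nat_lit 0x2000900090007000a00080007000c000700070006000400090008000e0009) (nat_lit 0x450360300006611) (nat_lit 16) Lb.e (@T16.mk En
    (@En.n l31797 (nat_lit 7440) (nat_lit 12) (nat_lit 9))
    (@En.n l5 (nat_lit 2024) (nat_lit 1) (nat_lit 14))
    (@En.n l8841 (nat_lit 9933) (nat_lit 2) (nat_lit 8))
    (@En.n l6751 (nat_lit 7715) (nat_lit 3) (nat_lit 9))
    (@En.n l34404 (nat_lit 7711) (nat_lit 4) (nat_lit 4))
    (@En.n l11 (nat_lit 5439) (nat_lit 5) (nat_lit 6))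
    (@En.n l152 (nat_lit 7717) (nat_lit 9) (nat_lit 7))
    (@En.n l24754 (nat_lit 3161) (nat_lit 7) (nat_lit 7))
    (@En.i (nat_lit 10271) (nat_lit 9) (nat_lit 12))
    (@En.n l217 (nat_lit 3246) (nat_lit 9) (nat_lit 7))
    (@En.n l134 (nat_lit 12542) (nat_lit 11) (nat_lit 8))
    (@En.i (nat_lit 5727) (nat_lit 8) (nat_lit 10))
    (@En.n l34405 (nat_lit 6486) (nat_lit 13) (nat_lit 7))
    (@En.n l5579 (nat_lit 7716) (nat_lit 7) (nat_lit 9))
    (@En.i (nat_lit 10733) (nat_lit 10) (nat_lit 9))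
    (@En.n l17 (nat_lit 7714) (nat_lit 15) (nat_lit 2))))
  (@Cl.mk (nat_lit 0x2000800080007000c000a00090008000400080008000600090007000e0008) (nat_lit 0x510447103205011) (nat_lit 16) Lb.e (@T16.mk En
    (@En.n l6981 (nat_lit 5849) (nat_lit 9) (nat_lit 8))
    (@En.n l9760 (nat_lit 6926) (nat_lit 1) (nat_lit 14))
    (@En.n l50 (nat_lit 9935) (nat_lit 2) (nat_lit 7))
    (@En.n l11 (nat_lit 5792) (nat_lit 3) (nat_lit 9))
    (@En.n l9921 (nat_lit 5438) (nat_lit 4) (nat_lit 6))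
    (@En.n l152 (nat_lit 7718) (nat_lit 8) (nat_lit 8))
    (@En.n l6981 (nat_lit 3162) (nat_lit 6) (nat_lit 8))
    (@En.n l16807 (nat_lit 7719) (nat_lit 7) (nat_lit 4))
    (@En.n l9762 (nat_lit 3249) (nat_lit 8) (nat_lit 8))
    (@En.n l22850 (nat_lit 7971) (nat_lit 10) (nat_lit 9))
    (@En.n l8323 (nat_lit 7714) (nat_lit 11) (nat_lit 10))
    (@En.n l19776 (nat_lit 7186) (nat_lit 12) (nat_lit 12))
    (@En.n l9766 (nat_lit 6487) (nat_lit 13) (nat_lit 7))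
    (@En.n l22851 (nat_lit 5853) (nat_lit 8) (nat_lit 8))
    (@En.n l22852 (nat_lit 11074) (nat_lit 6) (nat_lit 8))
    (@En.n l17 (nat_lit 7715) (nat_lit 15) (nat_lit 2))))
  (@Cl.mk (nat_lit 0x200070005000a0009000e000a000200090006000900070006000b000e0007) (nat_lit 0x87a1040500210) (nat_lit 16) Lb.e (@T16.mk En
    (@En.n l2116 (nat_lit 7714) (nat_lit 7) (nat_lit 7))
    (@En.n l1809 (nat_lit 1905) (nat_lit 9) (nat_lit 14))
    (@En.n l12877 (nat_lit 11130) (nat_lit 2) (nat_lit 11))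
    (@En.n l1809 (nat_lit 3251) (nat_lit 3) (nat_lit 6))
    (@En.n l20913 (nat_lit 12545) (nat_lit 12) (nat_lit 7))
    (@En.n l1809 (nat_lit 5725) (nat_lit 5) (nat_lit 9))
    (@En.n l10281 (nat_lit 7669) (nat_lit 14) (nat_lit 6))
    (@En.n l4942 (nat_lit 11113) (nat_lit 8) (nat_lit 9))
    (@En.n l7 (nat_lit 7716) (nat_lit 8) (nat_lit 2))
    (@En.n l169 (nat_lit 5850) (nat_lit 10) (nat_lit 10))
    (@En.n l9397 (nat_lit 6929) (nat_lit 11) (nat_lit 14))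
    (@En.n l20914 (nat_lit 11333) (nat_lit 12) (nat_lit 9))
    (@En.n l20915 (nat_lit 5853) (nat_lit 13) (nat_lit 10))
    (@En.n l3195 (nat_lit 7712) (nat_lit 14) (nat_lit 5))
    (@En.n l2125 (nat_lit 6541) (nat_lit 5) (nat_lit 7))
    (@En.n l17 (nat_lit 7716) (nat_lit 15) (nat_lit 2))))
  (@Cl.mk (nat_lit 0x20008000b00090008000d00070005000300080007000e00080002000e0009) (nat_lit 0x2571600050110b5) (nat_lit 16) Lb.e (@T16.mk En
    (@En.i (nat_lit 7714) (nat_lit 14) (nat_lit 9))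
    (@En.i (nat_lit 11733) (nat_lit 1) (nat_lit 14))
    (@En.n l17 (nat_lit 7717) (nat_lit 2) (nat_lit 2))
    (@En.n l18636 (nat_lit 7487) (nat_lit 3) (nat_lit 8))
    (@En.n l5 (nat_lit 2014) (nat_lit 5) (nat_lit 14))
    (@En.n l6752 (nat_lit 9928) (nat_lit 5) (nat_lit 7))
    (@En.n l6751 (nat_lit 7718) (nat_lit 6) (nat_lit 8))
    (@En.n l18637 (nat_lit 7713) (nat_lit 7) (nat_lit 3))
    (@En.n l11 (nat_lit 5073) (nat_lit 0) (nat_lit 5))
    (@En.n l18638 (nat_lit 6389) (nat_lit 6) (nat_lit 7))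
    (@En.i (nat_lit 12500) (nat_lit 11) (nat_lit 13))
    (@En.n l16078 (nat_lit 3250) (nat_lit 12) (nat_lit 8))
    (@En.n l134 (nat_lit 12543) (nat_lit 13) (nat_lit 9))
    (@En.i (nat_lit 6464) (nat_lit 7) (nat_lit 11))
    (@En.n l615 (nat_lit 2467) (nat_lit 12) (nat_lit 8))
    (@En.n l3 (nat_lit 7717) (nat_lit 15) (nat_lit 2))))
  (@Cl.mk (nat_lit 0x20008000c000b000a000900040008000500080006000e00070002000e0008) (nat_lit 0x2568101040100c6) (nat_lit 16) Lb.e (@T16.mk En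
    (@En.i (nat_lit 7715) (nat_lit 14) (nat_lit 8))
    (@En.i (nat_lit 11735) (nat_lit 1) (nat_lit 14))
    (@En.n l17 (nat_lit 7718) (nat_lit 2) (nat_lit 2))
    (@En.n l6981 (nat_lit 5253) (nat_lit 3) (nat_lit 7))
    (@En.n l9760 (nat_lit 2017) (nat_lit 5) (nat_lit 14))
    (@En.n l50 (nat_lit 9932) (nat_lit 5) (nat_lit 6))
    (@En.n l11 (nat_lit 5716) (nat_lit 6) (nat_lit 8))
    (@En.i (nat_lit 5072) (nat_lit 7) (nat_lit 5))
    (@En.n l6981 (nat_lit 6391) (nat_lit 5) (nat_lit 8))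
    (@En.i (nat_lit 7720) (nat_lit 9) (nat_lit 4))
    (@En.n l9762 (nat_lit 3255) (nat_lit 11) (nat_lit 9))
    (@En.n l134 (nat_lit 10105) (nat_lit 12) (nat_lit 10))
    (@En.n l8323 (nat_lit 7717) (nat_lit 13) (nat_lit 11))
    (@En.n l19776 (nat_lit 7721) (nat_lit 14) (nat_lit 12))
    (@En.i (nat_lit 2473) (nat_lit 12) (nat_lit 8))
    (@En.n l3 (nat_lit 7718) (nat_lit 15) (nat_lit 2))))
  (@Cl.mk (nat_lit 0x2000800080007000c0006000b000a000400080008000500090006000e000a) (nat_lit 0x604054032030a0) (nat_lit 16) Lb.e (@T16.mk En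
    (@En.n l396 (nat_lit 8010) (nat_lit 9) (nat_lit 10))
    (@En.n l4316 (nat_lit 9835) (nat_lit 1) (nat_lit 14))
    (@En.n l16971 (nat_lit 4530) (nat_lit 2) (nat_lit 6))
    (@En.n l16972 (nat_lit 5796) (nat_lit 3) (nat_lit 9))
    (@En.n l16973 (nat_lit 11089) (nat_lit 4) (nat_lit 5))
    (@En.n l16974 (nat_lit 7720) (nat_lit 8) (nat_lit 8))
    (@En.n l2947 (nat_lit 10351) (nat_lit 6) (nat_lit 8))
    (@En.n l3219 (nat_lit 7711) (nat_lit 7) (nat_lit 4))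
    (@En.i (nat_lit 7969) (nat_lit 9) (nat_lit 10))
    (@En.n l16975 (nat_lit 11133) (nat_lit 10) (nat_lit 11))
    (@En.n l16976 (nat_lit 11286) (nat_lit 11) (nat_lit 6))
    (@En.n l3548 (nat_lit 12522) (nat_lit 12) (nat_lit 12))
    (@En.n l10647 (nat_lit 7097) (nat_lit 13) (nat_lit 7))
    (@En.n l3 (nat_lit 7998) (nat_lit 8) (nat_lit 8))
    (@En.n l16977 (nat_lit 11078) (nat_lit 6) (nat_lit 8))
    (@En.n l50 (nat_lit 7719) (nat_lit 15) (nat_lit 2))))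
  (@Cl.mk (nat_lit 0x20008000c0007000c000b00040008000400080005000e00090002000e0008) (nat_lit 0x480620101090051) (nat_lit 16) Lb.e (@T16.mk En
    (@En.n l16807 (nat_lit 7719) (nat_lit 14) (nat_lit 8))
    (@En.n l16808 (nat_lit 12814) (nat_lit 1) (nat_lit 14))
    (@En.n l17 (nat_lit 7720) (nat_lit 2) (nat_lit 2))
    (@En.n l6981 (nat_lit 10117) (nat_lit 3) (nat_lit 9))
    (@En.n l9760 (nat_lit 9922) (nat_lit 5) (nat_lit 14))
    (@En.n l16809 (nat_lit 12535) (nat_lit 5) (nat_lit 5))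
    (@En.n l11 (nat_lit 5718) (nat_lit 6) (nat_lit 8))
    (@En.n l16810 (nat_lit 10109) (nat_lit 7) (nat_lit 4))
    (@En.n l16811 (nat_lit 4705) (nat_lit 5) (nat_lit 8))
    (@En.n l3506 (nat_lit 7713) (nat_lit 9) (nat_lit 4))
    (@En.n l828 (nat_lit 10106) (nat_lit 11) (nat_lit 11))
    (@En.n l16809 (nat_lit 12504) (nat_lit 12) (nat_lit 12))
    (@En.n l6981 (nat_lit 11283) (nat_lit 13) (nat_lit 7))
    (@En.n l16812 (nat_lit 12520) (nat_lit 14) (nat_lit 12))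
    (@En.n l9761 (nat_lit 8144) (nat_lit 12) (nat_lit 8))
    (@En.n l3 (nat_lit 7720) (nat_lit 15) (nat_lit 2))))
  (@Cl.mk (nat_lit 0x2000c000a000900080004000d0008000600030007000e00080002000e0008) (nat_lit 0x467107500092055) (nat_lit 16) Lb.e (@T16.mk En
    (@En.i (nat_lit 7186) (nat_lit 14) (nat_lit 8))
    (@En.i (nat_lit 12073) (nat_lit 1) (nat_lit 14))
    (@En.n l17 (nat_lit 7721) (nat_lit 2) (nat_lit 2))
    (@En.n l28647 (nat_lit 8103) (nat_lit 3) (nat_lit 8))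
    (@En.n l5 (nat_lit 5350) (nat_lit 1) (nat_lit 14))
    (@En.n l15173 (nat_lit 11646) (nat_lit 5) (nat_lit 7))
    (@En.i (nat_lit 7722) (nat_lit 6) (nat_lit 3))
    (@En.n l8163 (nat_lit 5794) (nat_lit 0) (nat_lit 6))
    (@En.n l25675 (nat_lit 6546) (nat_lit 5) (nat_lit 8))
    (@En.n l565 (nat_lit 7717) (nat_lit 10) (nat_lit 13))
    (@En.n l7573 (nat_lit 12520) (nat_lit 10) (nat_lit 4))
    (@En.n l8807 (nat_lit 5639) (nat_lit 12) (nat_lit 8))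
    (@En.i (nat_lit 12569) (nat_lit 13) (nat_lit 9))
    (@En.n l5399 (nat_lit 5733) (nat_lit 14) (nat_lit 10))
    (@En.n l14754 (nat_lit 6485) (nat_lit 12) (nat_lit 12))
    (@En.n l3 (nat_lit 7721) (nat_lit 15) (nat_lit 2))))
  (@Cl.mk (nat_lit 0x2000c000b000900080004000d0005000900030007000e00080002000e0007) (nat_lit 0x487106020092070) (nat_lit 16) Lb.e (@T16.mk En
    (@En.i (nat_lit 7187) (nat_lit 14) (nat_lit 7))
    (@En.i (nat_lit 12358) (nat_lit 1) (nat_lit 14))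
    (@En.n l17 (nat_lit 7722) (nat_lit 2) (nat_lit 2))
    (@En.n l18494 (nat_lit 8102) (nat_lit 3) (nat_lit 8))
    (@En.n l5 (nat_lit 5348) (nat_lit 1) (nat_lit 14))
    (@En.i (nat_lit 12341) (nat_lit 5) (nat_lit 7))
    (@En.n l7 (nat_lit 7721) (nat_lit 6) (nat_lit 3))
    (@En.i (nat_lit 5797) (nat_lit 0) (nat_lit 9))
    (@En.n l7572 (nat_lit 4898) (nat_lit 8) (nat_lit 5))
    (@En.n l4414 (nat_lit 7713) (nat_lit 10) (nat_lit 13))
    (@En.n l3791 (nat_lit 12518) (nat_lit 10) (nat_lit 4))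
    (@En.n l217 (nat_lit 5644) (nat_lit 12) (nat_lit 8))
    (@En.i (nat_lit 11749) (nat_lit 13) (nat_lit 9))
    (@En.i (nat_lit 6467) (nat_lit 14) (nat_lit 11))
    (@En.i (nat_lit 6487) (nat_lit 12) (nat_lit 12))
    (@En.n l3 (nat_lit 7722) (nat_lit 15) (nat_lit 2))))
  (@Cl.mk (nat_lit 0x200090009000800080006000c000a000700070004000800080006000e000a) (nat_lit 0x650503200035023) (nat_lit 16) Lb.e (@T16.mk En
    (@En.n l8753 (nat_lit 11350) (nat_lit 11) (nat_lit 10))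
    (@En.n l8754 (nat_lit 1691) (nat_lit 1) (nat_lit 14))
    (@En.n l8755 (nat_lit 7719) (nat_lit 2) (nat_lit 6))
    (@En.n l8756 (nat_lit 11335) (nat_lit 8) (nat_lit 8))
    (@En.n l8757 (nat_lit 6440) (nat_lit 4) (nat_lit 8))
    (@En.n l11 (nat_lit 11326) (nat_lit 5) (nat_lit 4))
    (@En.n l8758 (nat_lit 11356) (nat_lit 9) (nat_lit 7))
    (@En.n l8759 (nat_lit 11321) (nat_lit 7) (nat_lit 7))
    (@En.n l7479 (nat_lit 9346) (nat_lit 9) (nat_lit 10))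
    (@En.n l1214 (nat_lit 10131) (nat_lit 10) (nat_lit 12))
    (@En.n l8760 (nat_lit 11833) (nat_lit 11) (nat_lit 6))
    (@En.n l8761 (nat_lit 12549) (nat_lit 8) (nat_lit 8))
    (@En.n l8759 (nat_lit 9834) (nat_lit 13) (nat_lit 8))
    (@En.n l8762 (nat_lit 12546) (nat_lit 7) (nat_lit 9))
    (@En.n l2496 (nat_lit 11079) (nat_lit 9) (nat_lit 9))
    (@En.n l17 (nat_lit 7723) (nat_lit 15) (nat_lit 2))))
  (@Cl.mk (nat_lit 0x20008000c00080007000b0004000b000900080005000800050009000e0007) (nat_lit 0x271030971050520) (nat_lit 16) Lb.e (@T16.mk En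
    (@En.n l37621 (nat_lit 6527) (nat_lit 6) (nat_lit 7))
    (@En.n l37109 (nat_lit 7240) (nat_lit 1) (nat_lit 14))
    (@En.n l37622 (nat_lit 5720) (nat_lit 2) (nat_lit 9))
    (@En.n l37623 (nat_lit 6661) (nat_lit 3) (nat_lit 5))
    (@En.n l37624 (nat_lit 8064) (nat_lit 10) (nat_lit 8))
    (@En.n l37625 (nat_lit 7984) (nat_lit 5) (nat_lit 5))
    (@En.i (nat_lit 7111) (nat_lit 6) (nat_lit 8))
    (@En.n l37626 (nat_lit 10201) (nat_lit 8) (nat_lit 9))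
    (@En.n l20711 (nat_lit 5749) (nat_lit 9) (nat_lit 11))
    (@En.n l37627 (nat_lit 7701) (nat_lit 9) (nat_lit 4))
    (@En.n l617 (nat_lit 6533) (nat_lit 11) (nat_lit 11))
    (@En.n l12047 (nat_lit 7725) (nat_lit 12) (nat_lit 7))
    (@En.n l11697 (nat_lit 5150) (nat_lit 13) (nat_lit 8))
    (@En.n l37109 (nat_lit 12223) (nat_lit 14) (nat_lit 12))
    (@En.n l37628 (nat_lit 5420) (nat_lit 4) (nat_lit 8))
    (@En.n l3 (nat_lit 7724) (nat_lit 15) (nat_lit 2))))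
  (@Cl.mk (nat_lit 0x20009000d0007000b0003000b000800070005000d000500090003000e0008) (nat_lit 0x360204600603056) (nat_lit 16) Lb.e (@T16.mk En
    (@En.n l37795 (nat_lit 5437) (nat_lit 14) (nat_lit 8))
    (@En.n l37796 (nat_lit 11270) (nat_lit 1) (nat_lit 14))
    (@En.n l4217 (nat_lit 6533) (nat_lit 2) (nat_lit 3))
    (@En.n l11075 (nat_lit 5717) (nat_lit 3) (nat_lit 9))
    (@En.n l37797 (nat_lit 3155) (nat_lit 4) (nat_lit 5))
    (@En.n l3713 (nat_lit 6577) (nat_lit 6) (nat_lit 13))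
    (@En.n l37798 (nat_lit 7982) (nat_lit 6) (nat_lit 5))
    (@En.i (nat_lit 4200) (nat_lit 7) (nat_lit 7))
    (@En.n l37799 (nat_lit 10170) (nat_lit 14) (nat_lit 8))
    (@En.n l11849 (nat_lit 7731) (nat_lit 10) (nat_lit 11))
    (@En.i (nat_lit 7726) (nat_lit 10) (nat_lit 3))
    (@En.n l6904 (nat_lit 4659) (nat_lit 0) (nat_lit 11))
    (@En.n l5498 (nat_lit 7727) (nat_lit 13) (nat_lit 7))
    (@En.n l37800 (nat_lit 11624) (nat_lit 14) (nat_lit 13))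
    (@En.n l37801 (nat_lit 5423) (nat_lit 12) (nat_lit 9))
    (@En.n l3 (nat_lit 7725) (nat_lit 15) (nat_lit 2))))
  (@Cl.mk (nat_lit 0x20009000d000a00080003000b000800070006000d000500080003000e0008) (nat_lit 0x351204600602056) (nat_lit 16) Lb.e (@T16.mk En
    (@En.n l22290 (nat_lit 5436) (nat_lit 14) (nat_lit 8))
    (@En.n l5134 (nat_lit 11272) (nat_lit 1) (nat_lit 14))
    (@En.n l4315 (nat_lit 7149) (nat_lit 2) (nat_lit 3))
    (@En.n l1729 (nat_lit 5711) (nat_lit 3) (nat_lit 8))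
    (@En.n l339 (nat_lit 3162) (nat_lit 4) (nat_lit 5))
    (@En.n l22291 (nat_lit 6579) (nat_lit 6) (nat_lit 13))
    (@En.n l3423 (nat_lit 7989) (nat_lit 6) (nat_lit 6))
    (@En.i (nat_lit 4202) (nat_lit 7) (nat_lit 7))
    (@En.n l22290 (nat_lit 10171) (nat_lit 14) (nat_lit 8))
    (@En.n l4408 (nat_lit 7727) (nat_lit 10) (nat_lit 11))
    (@En.n l28 (nat_lit 7725) (nat_lit 10) (nat_lit 3))
    (@En.n l22292 (nat_lit 7138) (nat_lit 12) (nat_lit 8))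
    (@En.n l77 (nat_lit 3355) (nat_lit 13) (nat_lit 10))
    (@En.n l1729 (nat_lit 11625) (nat_lit 14) (nat_lit 13))
    (@En.n l8940 (nat_lit 6920) (nat_lit 12) (nat_lit 9))
    (@En.n l3 (nat_lit 7726) (nat_lit 15) (nat_lit 2))))
  (@Cl.mk (nat_lit 0x2000a0007000b0008000b000700060005000c0005000900080004000e0009) (nat_lit 0x305330003043067) (nat_lit 16) Lb.e (@T16.mk En
    (@En.i (nat_lit 5435) (nat_lit 14) (nat_lit 9))
    (@En.n l21274 (nat_lit 11274) (nat_lit 1) (nat_lit 14))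
    (@En.n l10995 (nat_lit 5155) (nat_lit 2) (nat_lit 4))
    (@En.n l11840 (nat_lit 7726) (nat_lit 3) (nat_lit 8))
    (@En.n l19493 (nat_lit 7728) (nat_lit 4) (nat_lit 9))
    (@En.n l4353 (nat_lit 3161) (nat_lit 5) (nat_lit 5))
    (@En.n l250 (nat_lit 6580) (nat_lit 7) (nat_lit 12))
    (@En.n l50 (nat_lit 10003) (nat_lit 7) (nat_lit 5))
    (@En.i (nat_lit 4204) (nat_lit 8) (nat_lit 6))
    (@En.n l11002 (nat_lit 10180) (nat_lit 10) (nat_lit 7))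
    (@En.i (nat_lit 7733) (nat_lit 7) (nat_lit 11))
    (@En.i (nat_lit 7137) (nat_lit 12) (nat_lit 8))
    (@En.n l11845 (nat_lit 4565) (nat_lit 13) (nat_lit 11))
    (@En.n l810 (nat_lit 11089) (nat_lit 14) (nat_lit 7))
    (@En.n l28 (nat_lit 6922) (nat_lit 12) (nat_lit 10))
    (@En.n l11 (nat_lit 7727) (nat_lit 15) (nat_lit 2))))
noncomputable def a483 : T16 Cl := @T16.mk Cl
  (@Cl.mk (nat_lit 0x200090007000d000b00090003000800070005000d000900070003000e0008) (nat_lit 0x1066406008300a1) (nat_lit 16) Lb.e (@T16.mk En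
    (@En.i (nat_lit 63) (nat_lit 6) (nat_lit 8))
    (@En.n l4316 (nat_lit 11380) (nat_lit 1) (nat_lit 14))
    (@En.n l28 (nat_lit 7730) (nat_lit 2) (nat_lit 3))
    (@En.n l8501 (nat_lit 5713) (nat_lit 3) (nat_lit 7))
    (@En.i (nat_lit 5163) (nat_lit 4) (nat_lit 9))
    (@En.n l4108 (nat_lit 5433) (nat_lit 6) (nat_lit 13))
    (@En.n l23939 (nat_lit 9807) (nat_lit 6) (nat_lit 5))
    (@En.i (nat_lit 5408) (nat_lit 7) (nat_lit 7))
    (@En.n l23940 (nat_lit 10183) (nat_lit 9) (nat_lit 8))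
    (@En.n l23941 (nat_lit 7729) (nat_lit 9) (nat_lit 3))
    (@En.n l97 (nat_lit 5707) (nat_lit 0) (nat_lit 9))
    (@En.n l1236 (nat_lit 6588) (nat_lit 12) (nat_lit 11))
    (@En.n l4037 (nat_lit 7726) (nat_lit 13) (nat_lit 13))
    (@En.n l16496 (nat_lit 11012) (nat_lit 14) (nat_lit 7))
    (@En.n l18 (nat_lit 1743) (nat_lit 12) (nat_lit 9))
    (@En.n l50 (nat_lit 7728) (nat_lit 15) (nat_lit 2))))
  (@Cl.mk (nat_lit 0x200090007000d0008000c0003000800070004000d000900080003000e0008) (nat_lit 0x1076506003230c6) (nat_lit 16) Lb.e (@T16.mk En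
    (@En.n l39238 (nat_lit 5802) (nat_lit 6) (nat_lit 8))
    (@En.n l39239 (nat_lit 11379) (nat_lit 1) (nat_lit 14))
    (@En.n l7882 (nat_lit 6530) (nat_lit 2) (nat_lit 3))
    (@En.n l5963 (nat_lit 5718) (nat_lit 3) (nat_lit 8))
    (@En.n l61 (nat_lit 5164) (nat_lit 4) (nat_lit 9))
    (@En.n l23780 (nat_lit 6523) (nat_lit 6) (nat_lit 13))
    (@En.n l24449 (nat_lit 11397) (nat_lit 6) (nat_lit 4))
    (@En.n l5963 (nat_lit 5403) (nat_lit 7) (nat_lit 7))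
    (@En.i (nat_lit 11468) (nat_lit 9) (nat_lit 8))
    (@En.n l6668 (nat_lit 7728) (nat_lit 9) (nat_lit 3))
    (@En.n l39240 (nat_lit 4661) (nat_lit 0) (nat_lit 12))
    (@En.n l39241 (nat_lit 7732) (nat_lit 12) (nat_lit 8))
    (@En.n l39242 (nat_lit 7725) (nat_lit 13) (nat_lit 13))
    (@En.i (nat_lit 11408) (nat_lit 14) (nat_lit 7))
    (@En.n l39243 (nat_lit 1737) (nat_lit 12) (nat_lit 9))
    (@En.n l3 (nat_lit 7729) (nat_lit 15) (nat_lit 2))))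
  (@Cl.mk (nat_lit 0x200090006000d000b000a0003000800070005000d0006000a0003000e0008) (nat_lit 0x1076705008030a6) (nat_lit 16) Lb.e (@T16.mk En
    (@En.i (nat_lit 5802) (nat_lit 14) (nat_lit 8))
    (@En.i (nat_lit 9362) (nat_lit 1) (nat_lit 14))
    (@En.i (nat_lit 7728) (nat_lit 2) (nat_lit 3))
    (@En.n l649 (nat_lit 5814) (nat_lit 3) (nat_lit 10))
    (@En.i (nat_lit 7706) (nat_lit 4) (nat_lit 6))
    (@En.i (nat_lit 5434) (nat_lit 6) (nat_lit 13))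
    (@En.i (nat_lit 9806) (nat_lit 6) (nat_lit 5))
    (@En.i (nat_lit 5411) (nat_lit 7) (nat_lit 7))
    (@En.i (nat_lit 10185) (nat_lit 9) (nat_lit 8))
    (@En.n l1865 (nat_lit 6530) (nat_lit 9) (nat_lit 3))
    (@En.n l619 (nat_lit 7996) (nat_lit 0) (nat_lit 10))
    (@En.n l3866 (nat_lit 6586) (nat_lit 12) (nat_lit 11))
    (@En.n l3593 (nat_lit 7149) (nat_lit 13) (nat_lit 13))
    (@En.i (nat_lit 11490) (nat_lit 14) (nat_lit 6))
    (@En.n l18 (nat_lit 5359) (nat_lit 12) (nat_lit 9))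
    (@En.n l50 (nat_lit 7730) (nat_lit 15) (nat_lit 2))))
  (@Cl.mk (nat_lit 0x2000a00070007000c000b000700060004000c0005000900090004000e0009) (nat_lit 0x1003300030340c7) (nat_lit 16) Lb.e (@T16.mk En
    (@En.n l16428 (nat_lit 7736) (nat_lit 14) (nat_lit 9))
    (@En.n l35288 (nat_lit 10090) (nat_lit 1) (nat_lit 14))
    (@En.n l3928 (nat_lit 6531) (nat_lit 2) (nat_lit 4))
    (@En.n l39795 (nat_lit 8037) (nat_lit 3) (nat_lit 9))
    (@En.n l39796 (nat_lit 7729) (nat_lit 4) (nat_lit 9))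
    (@En.n l3928 (nat_lit 3167) (nat_lit 5) (nat_lit 5))
    (@En.n l250 (nat_lit 5271) (nat_lit 7) (nat_lit 12))
    (@En.n l50 (nat_lit 11403) (nat_lit 7) (nat_lit 4))
    (@En.i (nat_lit 3634) (nat_lit 8) (nat_lit 6))
    (@En.n l16185 (nat_lit 12065) (nat_lit 10) (nat_lit 7))
    (@En.n l217 (nat_lit 7737) (nat_lit 11) (nat_lit 11))
    (@En.n l899 (nat_lit 7485) (nat_lit 12) (nat_lit 12))
    (@En.n l152 (nat_lit 7733) (nat_lit 9) (nat_lit 7))
    (@En.n l2669 (nat_lit 9569) (nat_lit 14) (nat_lit 7))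
    (@En.n l565 (nat_lit 5239) (nat_lit 12) (nat_lit 10))
    (@En.n l11 (nat_lit 7731) (nat_lit 15) (nat_lit 2))))
  (@Cl.mk (nat_lit 0x2000a00080008000c0009000700060004000c0008000800070004000e0009) (nat_lit 0x555370004320027) (nat_lit 16) Lb.e (@T16.mk En
    (@En.n l34497 (nat_lit 7735) (nat_lit 14) (nat_lit 9))
    (@En.n l29029 (nat_lit 5859) (nat_lit 1) (nat_lit 14))
    (@En.n l13052 (nat_lit 7731) (nat_lit 2) (nat_lit 4))
    (@En.n l6981 (nat_lit 7728) (nat_lit 3) (nat_lit 7))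
    (@En.n l55 (nat_lit 8038) (nat_lit 4) (nat_lit 8))
    (@En.n l6981 (nat_lit 5165) (nat_lit 5) (nat_lit 8))
    (@En.n l5 (nat_lit 5270) (nat_lit 7) (nat_lit 12))
    (@En.n l34501 (nat_lit 8043) (nat_lit 7) (nat_lit 4))
    (@En.i (nat_lit 5640) (nat_lit 8) (nat_lit 6))
    (@En.n l34497 (nat_lit 11021) (nat_lit 10) (nat_lit 7))
    (@En.n l217 (nat_lit 5700) (nat_lit 11) (nat_lit 9))
    (@En.n l7477 (nat_lit 7813) (nat_lit 12) (nat_lit 12))
    (@En.n l22483 (nat_lit 7734) (nat_lit 8) (nat_lit 8))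
    (@En.n l37949 (nat_lit 11083) (nat_lit 14) (nat_lit 8))
    (@En.n l107 (nat_lit 5240) (nat_lit 12) (nat_lit 10))
    (@En.n l3 (nat_lit 7732) (nat_lit 15) (nat_lit 2))))
  (@Cl.mk (nat_lit 0x20005000e000a0002000b0007000c000b000600050004000b0005000e0009) (nat_lit 0xa8020520004024) (nat_lit 16) Lb.e (@T16.mk En
    (@En.i (nat_lit 7731) (nat_lit 4) (nat_lit 9))
    (@En.i (nat_lit 7734) (nat_lit 1) (nat_lit 14))
    (@En.n l4353 (nat_lit 3170) (nat_lit 2) (nat_lit 5))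
    (@En.n l250 (nat_lit 5272) (nat_lit 3) (nat_lit 11))
    (@En.n l50 (nat_lit 11669) (nat_lit 4) (nat_lit 4))
    (@En.i (nat_lit 5541) (nat_lit 5) (nat_lit 5))
    (@En.i (nat_lit 12067) (nat_lit 6) (nat_lit 6))
    (@En.n l217 (nat_lit 8028) (nat_lit 8) (nat_lit 11))
    (@En.n l2544 (nat_lit 4087) (nat_lit 9) (nat_lit 12))
    (@En.n l810 (nat_lit 10855) (nat_lit 14) (nat_lit 7))
    (@En.n l28 (nat_lit 5236) (nat_lit 11) (nat_lit 11))
    (@En.n l11 (nat_lit 7733) (nat_lit 11) (nat_lit 2))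
    (@En.i (nat_lit 7175) (nat_lit 13) (nat_lit 10))
    (@En.i (nat_lit 6457) (nat_lit 1) (nat_lit 14))
    (@En.i (nat_lit 5154) (nat_lit 13) (nat_lit 5))
    (@En.n l3 (nat_lit 7733) (nat_lit 15) (nat_lit 2))))
  (@Cl.mk (nat_lit 0x200080005000e000a0002000b0008000c0008000600050004000b000e0008) (nat_lit 0x40c805476000314) (nat_lit 16) Lb.e (@T16.mk En
    (@En.n l24652 (nat_lit 7732) (nat_lit 5) (nat_lit 8))
    (@En.n l3871 (nat_lit 1867) (nat_lit 7) (nat_lit 14))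
    (@En.n l250 (nat_lit 5273) (nat_lit 2) (nat_lit 11))
    (@En.n l50 (nat_lit 11666) (nat_lit 3) (nat_lit 4))
    (@En.i (nat_lit 5543) (nat_lit 4) (nat_lit 5))
    (@En.n l16429 (nat_lit 12072) (nat_lit 5) (nat_lit 6))
    (@En.i (nat_lit 5706) (nat_lit 6) (nat_lit 8))
    (@En.n l16429 (nat_lit 4088) (nat_lit 8) (nat_lit 12))
    (@En.n l810 (nat_lit 10853) (nat_lit 14) (nat_lit 8))
    (@En.n l24653 (nat_lit 5234) (nat_lit 10) (nat_lit 11))
    (@En.n l11 (nat_lit 7734) (nat_lit 10) (nat_lit 2))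
    (@En.n l16429 (nat_lit 5854) (nat_lit 12) (nat_lit 10))
    (@En.n l21274 (nat_lit 6492) (nat_lit 1) (nat_lit 14))
    (@En.n l17 (nat_lit 7733) (nat_lit 14) (nat_lit 5))
    (@En.i (nat_lit 7727) (nat_lit 3) (nat_lit 8))
    (@En.n l3 (nat_lit 7734) (nat_lit 15) (nat_lit 2))))
  (@Cl.mk (nat_lit 0x400090009000900070007000b00080007000700070005000c000900090008) (nat_lit 0x675002600005221) (nat_lit 16) Lb.e (@T16.mk En
    (@En.n l41256 (nat_lit 63) (nat_lit 0) (nat_lit 8))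
    (@En.n l41257 (nat_lit 8103) (nat_lit 7) (nat_lit 9))
    (@En.n l41258 (nat_lit 3159) (nat_lit 7) (nat_lit 9))
    (@En.n l41259 (nat_lit 7440) (nat_lit 3) (nat_lit 12))
    (@En.n l41260 (nat_lit 11405) (nat_lit 4) (nat_lit 5))
    (@En.n l15006 (nat_lit 7186) (nat_lit 9) (nat_lit 7))
    (@En.n l41261 (nat_lit 7732) (nat_lit 9) (nat_lit 7))
    (@En.i (nat_lit 11704) (nat_lit 9) (nat_lit 7))
    (@En.n l41262 (nat_lit 5303) (nat_lit 8) (nat_lit 8))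
    (@En.i (nat_lit 5855) (nat_lit 8) (nat_lit 11))
    (@En.i (nat_lit 5854) (nat_lit 9) (nat_lit 7))
    (@En.n l742 (nat_lit 10277) (nat_lit 9) (nat_lit 7))
    (@En.n l41263 (nat_lit 7177) (nat_lit 7) (nat_lit 9))
    (@En.n l28949 (nat_lit 7706) (nat_lit 7) (nat_lit 9))
    (@En.n l41264 (nat_lit 9342) (nat_lit 11) (nat_lit 9))
    (@En.n l41265 (nat_lit 7736) (nat_lit 15) (nat_lit 4))))
  (@Cl.mk (nat_lit 0x400090009000900060006000b000a0007000700070005000c0006000a000a) (nat_lit 0x675002600005054) (nat_lit 16) Lb.e (@T16.mk En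
    (@En.n l619 (nat_lit 8102) (nat_lit 6) (nat_lit 10))
    (@En.i (nat_lit 5802) (nat_lit 9) (nat_lit 10))
    (@En.n l31529 (nat_lit 58) (nat_lit 6) (nat_lit 6))
    (@En.n l31530 (nat_lit 7710) (nat_lit 3) (nat_lit 12))
    (@En.n l31531 (nat_lit 11404) (nat_lit 4) (nat_lit 5))
    (@En.n l31532 (nat_lit 7187) (nat_lit 9) (nat_lit 7))
    (@En.n l31533 (nat_lit 7731) (nat_lit 9) (nat_lit 7))
    (@En.n l31534 (nat_lit 11742) (nat_lit 7) (nat_lit 7))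
    (@En.n l31535 (nat_lit 6474) (nat_lit 6) (nat_lit 10))
    (@En.n l21204 (nat_lit 6883) (nat_lit 9) (nat_lit 11))
    (@En.n l31536 (nat_lit 7175) (nat_lit 10) (nat_lit 6))
    (@En.n l31537 (nat_lit 10278) (nat_lit 12) (nat_lit 6))
    (@En.n l31538 (nat_lit 7176) (nat_lit 7) (nat_lit 9))
    (@En.n l644 (nat_lit 7707) (nat_lit 7) (nat_lit 9))
    (@En.n l31539 (nat_lit 10739) (nat_lit 11) (nat_lit 9))
    (@En.n l31540 (nat_lit 6532) (nat_lit 15) (nat_lit 4))))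
  (@Cl.mk (nat_lit 0x2000b00070007000b00060005000d000b00050003000900090005000e000a) (nat_lit 0x600200a500550c8) (nat_lit 16) Lb.e (@T16.mk En
    (@En.n l10798 (nat_lit 6474) (nat_lit 11) (nat_lit 10))
    (@En.n l17133 (nat_lit 9856) (nat_lit 1) (nat_lit 14))
    (@En.n l6080 (nat_lit 7252) (nat_lit 2) (nat_lit 5))
    (@En.n l3261 (nat_lit 8035) (nat_lit 3) (nat_lit 9))
    (@En.n l10794 (nat_lit 7727) (nat_lit 4) (nat_lit 9))
    (@En.n l18 (nat_lit 6589) (nat_lit 5) (nat_lit 3))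
    (@En.n l10795 (nat_lit 3173) (nat_lit 0) (nat_lit 5))
    (@En.n l899 (nat_lit 8032) (nat_lit 8) (nat_lit 11))
    (@En.n l16824 (nat_lit 5719) (nat_lit 9) (nat_lit 13))
    (@En.i (nat_lit 3635) (nat_lit 9) (nat_lit 5))
    (@En.n l11308 (nat_lit 10928) (nat_lit 4) (nat_lit 6))
    (@En.n l899 (nat_lit 7908) (nat_lit 12) (nat_lit 11))
    (@En.n l152 (nat_lit 8028) (nat_lit 9) (nat_lit 7))
    (@En.n l2669 (nat_lit 8001) (nat_lit 14) (nat_lit 7))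
    (@En.n l22950 (nat_lit 5690) (nat_lit 9) (nat_lit 11))
    (@En.n l11 (nat_lit 7737) (nat_lit 15) (nat_lit 2))))
  (@Cl.mk (nat_lit 0x200060005000c000b000900070004000e00050002000a0007000b000e0009) (nat_lit 0x61300900407a1) (nat_lit 16) Lb.e (@T16.mk En
    (@En.n l21805 (nat_lit 6041) (nat_lit 11) (nat_lit 9))
    (@En.n l21806 (nat_lit 5808) (nat_lit 12) (nat_lit 14))
    (@En.n l1168 (nat_lit 2488) (nat_lit 2) (nat_lit 11))
    (@En.n l1029 (nat_lit 1764) (nat_lit 14) (nat_lit 7))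
    (@En.n l21807 (nat_lit 9610) (nat_lit 4) (nat_lit 10))
    (@En.n l7 (nat_lit 7738) (nat_lit 5) (nat_lit 2))
    (@En.n l3422 (nat_lit 7154) (nat_lit 6) (nat_lit 5))
    (@En.n l21808 (nat_lit 7739) (nat_lit 8) (nat_lit 14))
    (@En.i (nat_lit 8663) (nat_lit 8) (nat_lit 4))
    (@En.n l21805 (nat_lit 3334) (nat_lit 3) (nat_lit 7))
    (@En.n l575 (nat_lit 8525) (nat_lit 11) (nat_lit 9))
    (@En.n l9616 (nat_lit 4610) (nat_lit 12) (nat_lit 11))
    (@En.n l10851 (nat_lit 9614) (nat_lit 13) (nat_lit 12))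
    (@En.n l17 (nat_lit 7412) (nat_lit 14) (nat_lit 5))
    (@En.i (nat_lit 7126) (nat_lit 8) (nat_lit 6))
    (@En.n l3 (nat_lit 7738) (nat_lit 15) (nat_lit 2))))
  (@Cl.mk (nat_lit 0x2000600050009000c00090007000e000400020007000a0007000b000e0009) (nat_lit 0x3130800040765) (nat_lit 16) Lb.e (@T16.mk En
    (@En.n l77 (nat_lit 7837) (nat_lit 10) (nat_lit 9))
    (@En.n l1732 (nat_lit 5807) (nat_lit 11) (nat_lit 14))
    (@En.n l5283 (nat_lit 2059) (nat_lit 2) (nat_lit 11))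
    (@En.n l5284 (nat_lit 1478) (nat_lit 13) (nat_lit 7))
    (@En.n l5285 (nat_lit 9121) (nat_lit 4) (nat_lit 10))
    (@En.n l5286 (nat_lit 7740) (nat_lit 5) (nat_lit 7))
    (@En.n l18 (nat_lit 7739) (nat_lit 6) (nat_lit 2))
    (@En.n l5287 (nat_lit 7740) (nat_lit 7) (nat_lit 4))
    (@En.n l5283 (nat_lit 5505) (nat_lit 9) (nat_lit 14))
    (@En.i (nat_lit 478) (nat_lit 2) (nat_lit 7))
    (@En.n l3946 (nat_lit 6785) (nat_lit 3) (nat_lit 9))
    (@En.n l5288 (nat_lit 4612) (nat_lit 12) (nat_lit 12))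
    (@En.n l3 (nat_lit 7414) (nat_lit 13) (nat_lit 9))
    (@En.n l3 (nat_lit 7415) (nat_lit 14) (nat_lit 5))
    (@En.n l1731 (nat_lit 7850) (nat_lit 7) (nat_lit 6))
    (@En.n l28 (nat_lit 7739) (nat_lit 15) (nat_lit 2))))
  (@Cl.mk (nat_lit 0x2000600050009000c000c000a0008000400040007000a0006000b000e0008) (nat_lit 0x4725100030653) (nat_lit 16) Lb.e (@T16.mk En
    (@En.n l11512 (nat_lit 7744) (nat_lit 2) (nat_lit 8))
    (@En.i (nat_lit 5762) (nat_lit 4) (nat_lit 14))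
    (@En.n l13457 (nat_lit 2060) (nat_lit 2) (nat_lit 11))
    (@En.n l728 (nat_lit 1474) (nat_lit 3) (nat_lit 6))
    (@En.i (nat_lit 9119) (nat_lit 4) (nat_lit 10))
    (@En.n l730 (nat_lit 7743) (nat_lit 5) (nat_lit 7))
    (@En.n l731 (nat_lit 7743) (nat_lit 6) (nat_lit 4))
    (@En.n l13458 (nat_lit 8450) (nat_lit 7) (nat_lit 4))
    (@En.n l55 (nat_lit 477) (nat_lit 0) (nat_lit 8))
    (@En.n l619 (nat_lit 8472) (nat_lit 10) (nat_lit 10))
    (@En.n l13459 (nat_lit 7739) (nat_lit 11) (nat_lit 12))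
    (@En.n l13460 (nat_lit 7738) (nat_lit 12) (nat_lit 12))
    (@En.n l13461 (nat_lit 7742) (nat_lit 13) (nat_lit 9))
    (@En.n l2131 (nat_lit 7741) (nat_lit 14) (nat_lit 5))
    (@En.n l5934 (nat_lit 7747) (nat_lit 13) (nat_lit 6))
    (@En.n l7 (nat_lit 7740) (nat_lit 15) (nat_lit 2))))
  (@Cl.mk (nat_lit 0x200050009000c000c000a0007000400040007000d0006000b0003000e0009) (nat_lit 0x33a40000506062) (nat_lit 16) Lb.e (@T16.mk En
    (@En.n l6198 (nat_lit 7751) (nat_lit 14) (nat_lit 9))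
    (@En.n l6199 (nat_lit 7740) (nat_lit 1) (nat_lit 14))
    (@En.n l13334 (nat_lit 7742) (nat_lit 2) (nat_lit 3))
    (@En.n l699 (nat_lit 2061) (nat_lit 3) (nat_lit 11))
    (@En.n l5156 (nat_lit 1476) (nat_lit 4) (nat_lit 6))
    (@En.i (nat_lit 8083) (nat_lit 6) (nat_lit 13))
    (@En.n l13335 (nat_lit 7745) (nat_lit 6) (nat_lit 7))
    (@En.n l13336 (nat_lit 7745) (nat_lit 7) (nat_lit 4))
    (@En.i (nat_lit 8452) (nat_lit 8) (nat_lit 4))
    (@En.n l13337 (nat_lit 474) (nat_lit 0) (nat_lit 7))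
    (@En.n l457 (nat_lit 8470) (nat_lit 11) (nat_lit 10))
    (@En.n l13338 (nat_lit 7415) (nat_lit 12) (nat_lit 12))
    (@En.n l387 (nat_lit 7412) (nat_lit 13) (nat_lit 12))
    (@En.n l13337 (nat_lit 869) (nat_lit 14) (nat_lit 9))
    (@En.i (nat_lit 7898) (nat_lit 13) (nat_lit 5))
    (@En.n l3 (nat_lit 7741) (nat_lit 15) (nat_lit 2))))
  (@Cl.mk (nat_lit 0x200060009000c000c00090007000400040007000d000a00070003000e0009) (nat_lit 0x33a300004400b4) (nat_lit 16) Lb.e (@T16.mk En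
    (@En.i (nat_lit 7749) (nat_lit 14) (nat_lit 9))
    (@En.n l5295 (nat_lit 5371) (nat_lit 1) (nat_lit 14))
    (@En.n l5296 (nat_lit 7741) (nat_lit 2) (nat_lit 3))
    (@En.n l5297 (nat_lit 1785) (nat_lit 3) (nat_lit 7))
    (@En.n l5287 (nat_lit 7740) (nat_lit 4) (nat_lit 10))
    (@En.n l5298 (nat_lit 9012) (nat_lit 6) (nat_lit 13))
    (@En.n l5299 (nat_lit 7746) (nat_lit 6) (nat_lit 7))
    (@En.n l5300 (nat_lit 7746) (nat_lit 7) (nat_lit 4))
    (@En.n l5301 (nat_lit 8451) (nat_lit 8) (nat_lit 4))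
    (@En.i (nat_lit 464) (nat_lit 0) (nat_lit 7))
    (@En.n l5302 (nat_lit 8475) (nat_lit 11) (nat_lit 9))
    (@En.n l217 (nat_lit 7414) (nat_lit 12) (nat_lit 12))
    (@En.n l253 (nat_lit 7411) (nat_lit 13) (nat_lit 12))
    (@En.i (nat_lit 867) (nat_lit 9) (nat_lit 9))
    (@En.n l343 (nat_lit 7856) (nat_lit 13) (nat_lit 6))
    (@En.n l28 (nat_lit 7742) (nat_lit 15) (nat_lit 2))))
  (@Cl.mk (nat_lit 0x2000600050009000e000c0002000b000900040007000a0005000b000e0007) (nat_lit 0x4480610020540) (nat_lit 16) Lb.e (@T16.mk En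
    (@En.n l6204 (nat_lit 7748) (nat_lit 6) (nat_lit 7))
    (@En.i (nat_lit 5760) (nat_lit 4) (nat_lit 14))
    (@En.n l10288 (nat_lit 2066) (nat_lit 2) (nat_lit 11))
    (@En.i (nat_lit 1473) (nat_lit 3) (nat_lit 5))
    (@En.n l1643 (nat_lit 9123) (nat_lit 4) (nat_lit 10))
    (@En.i (nat_lit 13929) (nat_lit 11) (nat_lit 7))
    (@En.n l10289 (nat_lit 8449) (nat_lit 6) (nat_lit 4))
    (@En.n l77 (nat_lit 479) (nat_lit 14) (nat_lit 9))
    (@En.n l2866 (nat_lit 8398) (nat_lit 9) (nat_lit 11))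
    (@En.n l107 (nat_lit 7743) (nat_lit 9) (nat_lit 2))
    (@En.n l1643 (nat_lit 7740) (nat_lit 11) (nat_lit 12))
    (@En.n l619 (nat_lit 7155) (nat_lit 12) (nat_lit 14))
    (@En.n l387 (nat_lit 7746) (nat_lit 13) (nat_lit 9))
    (@En.n l699 (nat_lit 7745) (nat_lit 14) (nat_lit 5))
    (@En.n l2179 (nat_lit 7864) (nat_lit 4) (nat_lit 6))
    (@En.n l50 (nat_lit 7743) (nat_lit 15) (nat_lit 2))))
noncomputable def a484 : T16 Cl := @T16.mk Cl
  (@Cl.mk (nat_lit 0x40008000b000b000900080008000500050008000b0007000c000800080005) (nat_lit 0x352462000307220) (nat_lit 16) Lb.e (@T16.mk En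
    (@En.i (nat_lit 7840) (nat_lit 0) (nat_lit 5))
    (@En.n l25841 (nat_lit 6052) (nat_lit 8) (nat_lit 8))
    (@En.n l7479 (nat_lit 5245) (nat_lit 1) (nat_lit 8))
    (@En.n l25842 (nat_lit 759) (nat_lit 2) (nat_lit 12))
    (@En.n l25843 (nat_lit 1477) (nat_lit 4) (nat_lit 7))
    (@En.i (nat_lit 9120) (nat_lit 7) (nat_lit 11))
    (@En.n l730 (nat_lit 7748) (nat_lit 10) (nat_lit 8))
    (@En.n l731 (nat_lit 7748) (nat_lit 11) (nat_lit 5))
    (@En.n l22495 (nat_lit 10580) (nat_lit 8) (nat_lit 5))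
    (@En.n l14990 (nat_lit 7740) (nat_lit 8) (nat_lit 8))
    (@En.n l25844 (nat_lit 7851) (nat_lit 8) (nat_lit 8))
    (@En.n l25845 (nat_lit 8400) (nat_lit 12) (nat_lit 9))
    (@En.n l25846 (nat_lit 7837) (nat_lit 5) (nat_lit 11))
    (@En.n l25847 (nat_lit 6041) (nat_lit 7) (nat_lit 11))
    (@En.n l25848 (nat_lit 7749) (nat_lit 11) (nat_lit 8))
    (@En.n l25849 (nat_lit 7751) (nat_lit 12) (nat_lit 4))))
  (@Cl.mk (nat_lit 0x200050009000e000c0002000b000800040007000d0005000b0003000e0008) (nat_lit 0x33405100401052) (nat_lit 16) Lb.e (@T16.mk En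
    (@En.n l7910 (nat_lit 7752) (nat_lit 5) (nat_lit 8))
    (@En.n l396 (nat_lit 7743) (nat_lit 1) (nat_lit 14))
    (@En.i (nat_lit 7746) (nat_lit 2) (nat_lit 3))
    (@En.n l10155 (nat_lit 758) (nat_lit 9) (nat_lit 11))
    (@En.i (nat_lit 1475) (nat_lit 4) (nat_lit 5))
    (@En.n l3681 (nat_lit 9002) (nat_lit 6) (nat_lit 13))
    (@En.i (nat_lit 13928) (nat_lit 11) (nat_lit 7))
    (@En.n l3681 (nat_lit 8447) (nat_lit 7) (nat_lit 4))
    (@En.n l7912 (nat_lit 476) (nat_lit 14) (nat_lit 8))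
    (@En.n l2568 (nat_lit 8469) (nat_lit 10) (nat_lit 11))
    (@En.n l107 (nat_lit 7745) (nat_lit 10) (nat_lit 2))
    (@En.n l5625 (nat_lit 7741) (nat_lit 12) (nat_lit 12))
    (@En.n l3463 (nat_lit 7156) (nat_lit 13) (nat_lit 14))
    (@En.n l1722 (nat_lit 872) (nat_lit 14) (nat_lit 9))
    (@En.n l3681 (nat_lit 7899) (nat_lit 13) (nat_lit 5))
    (@En.n l18 (nat_lit 7745) (nat_lit 15) (nat_lit 2))))
  (@Cl.mk (nat_lit 0x200060009000e000c0002000a000800040007000d000a00060003000e0008) (nat_lit 0x334051003300b4) (nat_lit 16) Lb.e (@T16.mk En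
    (@En.n l1501 (nat_lit 7750) (nat_lit 5) (nat_lit 8))
    (@En.n l564 (nat_lit 5765) (nat_lit 1) (nat_lit 14))
    (@En.n l7 (nat_lit 7745) (nat_lit 2) (nat_lit 3))
    (@En.i (nat_lit 1786) (nat_lit 8) (nat_lit 6))
    (@En.n l420 (nat_lit 7743) (nat_lit 4) (nat_lit 10))
    (@En.n l1643 (nat_lit 9003) (nat_lit 6) (nat_lit 13))
    (@En.i (nat_lit 13930) (nat_lit 11) (nat_lit 7))
    (@En.n l3681 (nat_lit 8448) (nat_lit 7) (nat_lit 4))
    (@En.n l1501 (nat_lit 466) (nat_lit 14) (nat_lit 8))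
    (@En.i (nat_lit 8473) (nat_lit 10) (nat_lit 10))
    (@En.n l107 (nat_lit 7746) (nat_lit 10) (nat_lit 2))
    (@En.n l3682 (nat_lit 7742) (nat_lit 12) (nat_lit 12))
    (@En.n l619 (nat_lit 7157) (nat_lit 13) (nat_lit 14))
    (@En.n l1501 (nat_lit 873) (nat_lit 9) (nat_lit 9))
    (@En.n l3144 (nat_lit 7867) (nat_lit 3) (nat_lit 6))
    (@En.n l18 (nat_lit 7746) (nat_lit 15) (nat_lit 2))))
  (@Cl.mk (nat_lit 0x30009000600040009000c000c00090007000400040007000a000d0007000c) (nat_lit 0x300392400004603) (nat_lit 16) Lb.e (@T16.mk En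
    (@En.n l1998 (nat_lit 886) (nat_lit 0) (nat_lit 12))
    (@En.n l28 (nat_lit 7744) (nat_lit 4) (nat_lit 7))
    (@En.n l26234 (nat_lit 7741) (nat_lit 5) (nat_lit 13))
    (@En.i (nat_lit 12197) (nat_lit 8) (nat_lit 10))
    (@En.n l730 (nat_lit 7864) (nat_lit 11) (nat_lit 7))
    (@En.n l731 (nat_lit 7864) (nat_lit 12) (nat_lit 4))
    (@En.n l15323 (nat_lit 10322) (nat_lit 0) (nat_lit 4))
    (@En.n l601 (nat_lit 480) (nat_lit 0) (nat_lit 7))
    (@En.i (nat_lit 8774) (nat_lit 1) (nat_lit 9))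
    (@En.n l4663 (nat_lit 7850) (nat_lit 4) (nat_lit 12))
    (@En.n l26235 (nat_lit 7126) (nat_lit 6) (nat_lit 12))
    (@En.n l726 (nat_lit 7856) (nat_lit 12) (nat_lit 9))
    (@En.n l726 (nat_lit 7755) (nat_lit 5) (nat_lit 4))
    (@En.n l28 (nat_lit 7845) (nat_lit 14) (nat_lit 6))
    (@En.n l77 (nat_lit 7840) (nat_lit 1) (nat_lit 9))
    (@En.n l26236 (nat_lit 7851) (nat_lit 15) (nat_lit 3))))
  (@Cl.mk (nat_lit 0x2000a0009000900050008000b0006000c00070007000500040008000e000b) (nat_lit 0x5720630600003b6) (nat_lit 16) Lb.e (@T16.mk En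
    (@En.n l1643 (nat_lit 7744) (nat_lit 13) (nat_lit 11))
    (@En.n l619 (nat_lit 7159) (nat_lit 1) (nat_lit 14))
    (@En.n l9498 (nat_lit 7750) (nat_lit 2) (nat_lit 8))
    (@En.n l22540 (nat_lit 7752) (nat_lit 3) (nat_lit 4))
    (@En.i (nat_lit 7844) (nat_lit 4) (nat_lit 5))
    (@En.n l11512 (nat_lit 6054) (nat_lit 9) (nat_lit 7))
    (@En.n l22541 (nat_lit 5262) (nat_lit 6) (nat_lit 7))
    (@En.n l22542 (nat_lit 756) (nat_lit 8) (nat_lit 12))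
    (@En.n l22543 (nat_lit 1437) (nat_lit 8) (nat_lit 6))
    (@En.n l1643 (nat_lit 6377) (nat_lit 10) (nat_lit 11))
    (@En.n l22542 (nat_lit 13636) (nat_lit 10) (nat_lit 8))
    (@En.n l5934 (nat_lit 10581) (nat_lit 12) (nat_lit 5))
    (@En.n l22544 (nat_lit 7743) (nat_lit 7) (nat_lit 9))
    (@En.n l22545 (nat_lit 7862) (nat_lit 14) (nat_lit 9))
    (@En.n l22542 (nat_lit 8397) (nat_lit 2) (nat_lit 10))
    (@En.n l107 (nat_lit 7748) (nat_lit 15) (nat_lit 2))))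
  (@Cl.mk (nat_lit 0x30009000900050008000b000b000800070007000500050008000d000b0008) (nat_lit 0x320249300000545) (nat_lit 16) Lb.e (@T16.mk En
    (@En.n l513 (nat_lit 1780) (nat_lit 0) (nat_lit 8))
    (@En.n l12181 (nat_lit 7744) (nat_lit 5) (nat_lit 11))
    (@En.n l12182 (nat_lit 9013) (nat_lit 2) (nat_lit 13))
    (@En.n l2114 (nat_lit 7750) (nat_lit 10) (nat_lit 8))
    (@En.n l1959 (nat_lit 7750) (nat_lit 11) (nat_lit 5))
    (@En.n l8283 (nat_lit 10585) (nat_lit 5) (nat_lit 5))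
    (@En.n l55 (nat_lit 7742) (nat_lit 9) (nat_lit 7))
    (@En.i (nat_lit 7855) (nat_lit 7) (nat_lit 7))
    (@En.n l688 (nat_lit 8386) (nat_lit 9) (nat_lit 8))
    (@En.n l2337 (nat_lit 7836) (nat_lit 5) (nat_lit 11))
    (@En.n l253 (nat_lit 6038) (nat_lit 7) (nat_lit 11))
    (@En.i (nat_lit 3115) (nat_lit 10) (nat_lit 8))
    (@En.n l12183 (nat_lit 7841) (nat_lit 13) (nat_lit 5))
    (@En.n l2281 (nat_lit 6049) (nat_lit 7) (nat_lit 9))
    (@En.n l12184 (nat_lit 5240) (nat_lit 1) (nat_lit 9))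
    (@En.n l12185 (nat_lit 7751) (nat_lit 15) (nat_lit 3))))
  (@Cl.mk (nat_lit 0x200090008000800050008000d000b000700030008000800050008000e000b) (nat_lit 0x7520644003202b5) (nat_lit 16) Lb.e (@T16.mk En
    (@En.n l1708 (nat_lit 7749) (nat_lit 10) (nat_lit 11))
    (@En.n l1385 (nat_lit 7161) (nat_lit 1) (nat_lit 14))
    (@En.i (nat_lit 3118) (nat_lit 10) (nat_lit 8))
    (@En.n l890 (nat_lit 7868) (nat_lit 3) (nat_lit 5))
    (@En.n l4494 (nat_lit 6050) (nat_lit 8) (nat_lit 8))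
    (@En.n l9826 (nat_lit 5242) (nat_lit 5) (nat_lit 8))
    (@En.n l9827 (nat_lit 7752) (nat_lit 6) (nat_lit 3))
    (@En.n l170 (nat_lit 1781) (nat_lit 0) (nat_lit 7))
    (@En.n l7029 (nat_lit 7748) (nat_lit 9) (nat_lit 11))
    (@En.n l9828 (nat_lit 9008) (nat_lit 10) (nat_lit 13))
    (@En.n l1115 (nat_lit 13638) (nat_lit 10) (nat_lit 8))
    (@En.n l3486 (nat_lit 10583) (nat_lit 4) (nat_lit 5))
    (@En.n l5995 (nat_lit 7746) (nat_lit 8) (nat_lit 8))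
    (@En.i (nat_lit 7861) (nat_lit 14) (nat_lit 8))
    (@En.n l309 (nat_lit 8387) (nat_lit 2) (nat_lit 9))
    (@En.n l18 (nat_lit 7750) (nat_lit 15) (nat_lit 2))))
  (@Cl.mk (nat_lit 0x30009000900040008000b000b000900070007000500050008000d0007000c) (nat_lit 0x110549400000607) (nat_lit 16) Lb.e (@T16.mk En
    (@En.n l5592 (nat_lit 755) (nat_lit 0) (nat_lit 12))
    (@En.n l25801 (nat_lit 1508) (nat_lit 4) (nat_lit 7))
    (@En.i (nat_lit 9011) (nat_lit 2) (nat_lit 13))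
    (@En.n l25802 (nat_lit 7752) (nat_lit 10) (nat_lit 8))
    (@En.n l25803 (nat_lit 7752) (nat_lit 11) (nat_lit 5))
    (@En.i (nat_lit 10588) (nat_lit 5) (nat_lit 5))
    (@En.n l8641 (nat_lit 7741) (nat_lit 9) (nat_lit 7))
    (@En.n l15336 (nat_lit 7754) (nat_lit 7) (nat_lit 7))
    (@En.n l15337 (nat_lit 8419) (nat_lit 12) (nat_lit 9))
    (@En.n l25804 (nat_lit 7753) (nat_lit 5) (nat_lit 11))
    (@En.n l25805 (nat_lit 6037) (nat_lit 7) (nat_lit 11))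
    (@En.n l15336 (nat_lit 875) (nat_lit 11) (nat_lit 8))
    (@En.n l15339 (nat_lit 4650) (nat_lit 15) (nat_lit 4))
    (@En.n l2717 (nat_lit 6053) (nat_lit 7) (nat_lit 9))
    (@En.n l25806 (nat_lit 4654) (nat_lit 1) (nat_lit 9))
    (@En.n l25807 (nat_lit 7749) (nat_lit 15) (nat_lit 3))))
  (@Cl.mk (nat_lit 0x2000a0008000800050008000d0006000c00030008000800040008000e000b) (nat_lit 0x5520640601105b5) (nat_lit 16) Lb.e (@T16.mk En
    (@En.n l22506 (nat_lit 7751) (nat_lit 10) (nat_lit 11))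
    (@En.n l17270 (nat_lit 7158) (nat_lit 1) (nat_lit 14))
    (@En.n l4270 (nat_lit 877) (nat_lit 2) (nat_lit 8))
    (@En.n l17273 (nat_lit 4652) (nat_lit 3) (nat_lit 4))
    (@En.n l11250 (nat_lit 6055) (nat_lit 8) (nat_lit 8))
    (@En.n l8898 (nat_lit 4657) (nat_lit 5) (nat_lit 8))
    (@En.n l10895 (nat_lit 7750) (nat_lit 6) (nat_lit 3))
    (@En.n l22507 (nat_lit 754) (nat_lit 8) (nat_lit 12))
    (@En.n l14160 (nat_lit 1199) (nat_lit 8) (nat_lit 6))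
    (@En.n l22508 (nat_lit 9007) (nat_lit 10) (nat_lit 13))
    (@En.n l11250 (nat_lit 13637) (nat_lit 10) (nat_lit 8))
    (@En.n l11250 (nat_lit 10586) (nat_lit 4) (nat_lit 5))
    (@En.n l3961 (nat_lit 7745) (nat_lit 8) (nat_lit 8))
    (@En.n l4270 (nat_lit 7761) (nat_lit 14) (nat_lit 8))
    (@En.n l22509 (nat_lit 8406) (nat_lit 2) (nat_lit 10))
    (@En.n l107 (nat_lit 7752) (nat_lit 15) (nat_lit 2))))
  (@Cl.mk (nat_lit 0x20008000d0008000c0003000a000a00040008000b000800060006000e0005) (nat_lit 0x175605102830020) (nat_lit 16) Lb.e (@T16.mk En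
    (@En.n l12129 (nat_lit 7751) (nat_lit 5) (nat_lit 5))
    (@En.n l2724 (nat_lit 10734) (nat_lit 1) (nat_lit 14))
    (@En.n l237 (nat_lit 7415) (nat_lit 10) (nat_lit 6))
    (@En.i (nat_lit 7762) (nat_lit 3) (nat_lit 6))
    (@En.n l1800 (nat_lit 8225) (nat_lit 4) (nat_lit 8))
    (@En.n l12130 (nat_lit 7384) (nat_lit 7) (nat_lit 11))
    (@En.i (nat_lit 3114) (nat_lit 6) (nat_lit 8))
    (@En.n l4536 (nat_lit 4649) (nat_lit 7) (nat_lit 4))
    (@En.n l12131 (nat_lit 6057) (nat_lit 9) (nat_lit 10))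
    (@En.i (nat_lit 4656) (nat_lit 10) (nat_lit 10))
    (@En.n l152 (nat_lit 7836) (nat_lit 10) (nat_lit 3))
    (@En.n l4536 (nat_lit 2056) (nat_lit 12) (nat_lit 12))
    (@En.n l97 (nat_lit 1509) (nat_lit 13) (nat_lit 8))
    (@En.n l12132 (nat_lit 9042) (nat_lit 14) (nat_lit 13))
    (@En.n l12133 (nat_lit 7751) (nat_lit 3) (nat_lit 8))
    (@En.n l18 (nat_lit 7753) (nat_lit 15) (nat_lit 2))))
  (@Cl.mk (nat_lit 0x300090004000a00050009000c000c00070006000400040007000d000c000b) (nat_lit 0x705024400000967) (nat_lit 16) Lb.e (@T16.mk En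
    (@En.i (nat_lit 7763) (nat_lit 0) (nat_lit 11))
    (@En.n l619 (nat_lit 7856) (nat_lit 4) (nat_lit 12))
    (@En.n l34751 (nat_lit 10533) (nat_lit 2) (nat_lit 13))
    (@En.n l2114 (nat_lit 7761) (nat_lit 11) (nat_lit 7))
    (@En.n l1959 (nat_lit 7761) (nat_lit 12) (nat_lit 4))
    (@En.n l27959 (nat_lit 8612) (nat_lit 0) (nat_lit 4))
    (@En.i (nat_lit 470) (nat_lit 0) (nat_lit 6))
    (@En.n l16081 (nat_lit 10502) (nat_lit 1) (nat_lit 7))
    (@En.n l2337 (nat_lit 7762) (nat_lit 4) (nat_lit 12))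
    (@En.n l27959 (nat_lit 7768) (nat_lit 6) (nat_lit 12))
    (@En.i (nat_lit 857) (nat_lit 10) (nat_lit 9))
    (@En.i (nat_lit 5985) (nat_lit 5) (nat_lit 5))
    (@En.n l27012 (nat_lit 5691) (nat_lit 13) (nat_lit 10))
    (@En.i (nat_lit 7755) (nat_lit 7) (nat_lit 4))
    (@En.n l28035 (nat_lit 7809) (nat_lit 0) (nat_lit 9))
    (@En.n l152 (nat_lit 7855) (nat_lit 15) (nat_lit 3))))
  (@Cl.mk (nat_lit 0x400040007000c000c0007000c00040004000a00040009000c000c00090006) (nat_lit 0x3607003022460) (nat_lit 16) Lb.e (@T16.mk En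
    (@En.i (nat_lit 454) (nat_lit 0) (nat_lit 6))
    (@En.n l28363 (nat_lit 9432) (nat_lit 1) (nat_lit 9))
    (@En.n l2337 (nat_lit 7757) (nat_lit 4) (nat_lit 12))
    (@En.n l16081 (nat_lit 7766) (nat_lit 6) (nat_lit 12))
    (@En.i (nat_lit 861) (nat_lit 11) (nat_lit 9))
    (@En.n l28034 (nat_lit 7893) (nat_lit 5) (nat_lit 4))
    (@En.n l8087 (nat_lit 7843) (nat_lit 0) (nat_lit 10))
    (@En.n l7102 (nat_lit 7758) (nat_lit 12) (nat_lit 4))
    (@En.n l152 (nat_lit 7856) (nat_lit 0) (nat_lit 4))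
    (@En.n l8087 (nat_lit 1852) (nat_lit 0) (nat_lit 12))
    (@En.n l28364 (nat_lit 7751) (nat_lit 1) (nat_lit 7))
    (@En.n l28365 (nat_lit 7898) (nat_lit 4) (nat_lit 12))
    (@En.n l14101 (nat_lit 10531) (nat_lit 13) (nat_lit 12))
    (@En.n l28366 (nat_lit 7756) (nat_lit 11) (nat_lit 7))
    (@En.n l28367 (nat_lit 7756) (nat_lit 12) (nat_lit 4))
    (@En.n l28368 (nat_lit 8609) (nat_lit 0) (nat_lit 4))))
  (@Cl.mk (nat_lit 0x2000a000700040007000c000c0006000c00040004000900040009000e000c) (nat_lit 0x600025060030233) (nat_lit 16) Lb.e (@T16.mk En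
    (@En.n l38954 (nat_lit 7755) (nat_lit 3) (nat_lit 12))
    (@En.n l23404 (nat_lit 7916) (nat_lit 1) (nat_lit 14))
    (@En.n l11722 (nat_lit 863) (nat_lit 2) (nat_lit 9))
    (@En.n l38955 (nat_lit 7894) (nat_lit 3) (nat_lit 4))
    (@En.n l1353 (nat_lit 7871) (nat_lit 4) (nat_lit 9))
    (@En.n l26338 (nat_lit 7759) (nat_lit 12) (nat_lit 4))
    (@En.n l38956 (nat_lit 7867) (nat_lit 6) (nat_lit 4))
    (@En.i (nat_lit 2181) (nat_lit 8) (nat_lit 12))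
    (@En.n l26340 (nat_lit 7752) (nat_lit 8) (nat_lit 6))
    (@En.n l38957 (nat_lit 7899) (nat_lit 4) (nat_lit 12))
    (@En.n l25666 (nat_lit 10528) (nat_lit 11) (nat_lit 12))
    (@En.n l3749 (nat_lit 13621) (nat_lit 11) (nat_lit 7))
    (@En.n l29729 (nat_lit 8608) (nat_lit 13) (nat_lit 4))
    (@En.n l26337 (nat_lit 484) (nat_lit 14) (nat_lit 7))
    (@En.i (nat_lit 9433) (nat_lit 1) (nat_lit 10))
    (@En.n l11 (nat_lit 7756) (nat_lit 15) (nat_lit 2))))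
  (@Cl.mk (nat_lit 0x20007000c000c0008000c00040004000b00040009000c00080005000e0004) (nat_lit 0x47680030235040) (nat_lit 16) Lb.e (@T16.mk En
    (@En.n l7 (nat_lit 7755) (nat_lit 15) (nat_lit 4))
    (@En.n l4538 (nat_lit 7024) (nat_lit 1) (nat_lit 14))
    (@En.n l7 (nat_lit 457) (nat_lit 2) (nat_lit 5))
    (@En.n l26118 (nat_lit 9388) (nat_lit 3) (nat_lit 8))
    (@En.n l12396 (nat_lit 7340) (nat_lit 6) (nat_lit 12))
    (@En.i (nat_lit 3333) (nat_lit 5) (nat_lit 9))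
    (@En.n l12026 (nat_lit 7892) (nat_lit 6) (nat_lit 4))
    (@En.n l12396 (nat_lit 7842) (nat_lit 8) (nat_lit 11))
    (@En.n l12397 (nat_lit 7760) (nat_lit 8) (nat_lit 4))
    (@En.n l152 (nat_lit 7857) (nat_lit 9) (nat_lit 4))
    (@En.n l12396 (nat_lit 1853) (nat_lit 11) (nat_lit 12))
    (@En.i (nat_lit 7753) (nat_lit 12) (nat_lit 8))
    (@En.n l26119 (nat_lit 7900) (nat_lit 13) (nat_lit 12))
    (@En.n l26120 (nat_lit 12719) (nat_lit 14) (nat_lit 12))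
    (@En.n l4600 (nat_lit 7755) (nat_lit 13) (nat_lit 7))
    (@En.n l18 (nat_lit 7757) (nat_lit 15) (nat_lit 2))))
  (@Cl.mk (nat_lit 0x20008000d0004000a00030009000c000c00080006000400040007000e000c) (nat_lit 0x630605245000094) (nat_lit 16) Lb.e (@T16.mk En
    (@En.n l16599 (nat_lit 7755) (nat_lit 12) (nat_lit 12))
    (@En.n l227 (nat_lit 6379) (nat_lit 1) (nat_lit 14))
    (@En.n l27907 (nat_lit 7759) (nat_lit 2) (nat_lit 7))
    (@En.n l27908 (nat_lit 7759) (nat_lit 3) (nat_lit 4))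
    (@En.n l728 (nat_lit 8610) (nat_lit 4) (nat_lit 4))
    (@En.n l17562 (nat_lit 446) (nat_lit 5) (nat_lit 6))
    (@En.n l27909 (nat_lit 11522) (nat_lit 6) (nat_lit 8))
    (@En.n l27910 (nat_lit 7760) (nat_lit 4) (nat_lit 12))
    (@En.n l14522 (nat_lit 7767) (nat_lit 9) (nat_lit 12))
    (@En.n l5895 (nat_lit 3213) (nat_lit 10) (nat_lit 9))
    (@En.n l27911 (nat_lit 7763) (nat_lit 10) (nat_lit 3))
    (@En.n l14423 (nat_lit 4768) (nat_lit 0) (nat_lit 10))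
    (@En.n l5895 (nat_lit 7754) (nat_lit 13) (nat_lit 4))
    (@En.n l5702 (nat_lit 1855) (nat_lit 14) (nat_lit 13))
    (@En.i (nat_lit 4655) (nat_lit 3) (nat_lit 8))
    (@En.n l7 (nat_lit 7758) (nat_lit 15) (nat_lit 2))))
  (@Cl.mk (nat_lit 0x20007000d0004000900030009000e000c00020009000700040007000e000c) (nat_lit 0x30605c30600093) (nat_lit 16) Lb.e (@T16.mk En
    (@En.n l22812 (nat_lit 7756) (nat_lit 10) (nat_lit 12))
    (@En.n l1643 (nat_lit 9229) (nat_lit 11) (nat_lit 14))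
    (@En.i (nat_lit 13842) (nat_lit 11) (nat_lit 7))
    (@En.n l9060 (nat_lit 8531) (nat_lit 3) (nat_lit 4))
    (@En.i (nat_lit 455) (nat_lit 14) (nat_lit 7))
    (@En.n l11911 (nat_lit 9438) (nat_lit 5) (nat_lit 9))
    (@En.n l107 (nat_lit 7759) (nat_lit 6) (nat_lit 2))
    (@En.n l29341 (nat_lit 7758) (nat_lit 8) (nat_lit 12))
    (@En.n l7302 (nat_lit 7918) (nat_lit 9) (nat_lit 14))
    (@En.n l3348 (nat_lit 3209) (nat_lit 10) (nat_lit 9))
    (@En.n l72 (nat_lit 7764) (nat_lit 10) (nat_lit 3))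
    (@En.n l18 (nat_lit 4957) (nat_lit 4) (nat_lit 9))
    (@En.n l3348 (nat_lit 7761) (nat_lit 5) (nat_lit 4))
    (@En.n l11911 (nat_lit 2182) (nat_lit 7) (nat_lit 13))
    (@En.n l1723 (nat_lit 7812) (nat_lit 7) (nat_lit 7))
    (@En.n l7 (nat_lit 7759) (nat_lit 15) (nat_lit 2))))
noncomputable def a485 : T16 Cl := @T16.mk Cl
  (@Cl.mk (nat_lit 0x20007000e000c00020009000d0004000b00030009000c00070005000e0004) (nat_lit 0x95073010530040) (nat_lit 16) Lb.e (@T16.mk En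
    (@En.n l14028 (nat_lit 7758) (nat_lit 4) (nat_lit 4))
    (@En.i (nat_lit 6909) (nat_lit 1) (nat_lit 14))
    (@En.n l3340 (nat_lit 456) (nat_lit 2) (nat_lit 5))
    (@En.n l12335 (nat_lit 11519) (nat_lit 3) (nat_lit 7))
    (@En.i (nat_lit 7339) (nat_lit 9) (nat_lit 12))
    (@En.n l4991 (nat_lit 3735) (nat_lit 5) (nat_lit 9))
    (@En.n l11724 (nat_lit 7765) (nat_lit 6) (nat_lit 3))
    (@En.n l3340 (nat_lit 4769) (nat_lit 0) (nat_lit 11))
    (@En.n l4991 (nat_lit 7762) (nat_lit 8) (nat_lit 4))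
    (@En.i (nat_lit 1854) (nat_lit 10) (nat_lit 13))
    (@En.n l12335 (nat_lit 7808) (nat_lit 11) (nat_lit 9))
    (@En.n l50 (nat_lit 7760) (nat_lit 11) (nat_lit 2))
    (@En.n l11725 (nat_lit 7757) (nat_lit 13) (nat_lit 12))
    (@En.n l25427 (nat_lit 6370) (nat_lit 1) (nat_lit 14))
    (@En.n l20316 (nat_lit 7758) (nat_lit 2) (nat_lit 7))
    (@En.n l11 (nat_lit 7760) (nat_lit 15) (nat_lit 2))))
  (@Cl.mk (nat_lit 0x20008000700040007000d000c000b000300080004000900050009000e000c) (nat_lit 0x4000956060502c5) (nat_lit 16) Lb.e (@T16.mk En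
    (@En.n l1708 (nat_lit 7754) (nat_lit 9) (nat_lit 12))
    (@En.n l27011 (nat_lit 7907) (nat_lit 1) (nat_lit 14))
    (@En.i (nat_lit 856) (nat_lit 2) (nat_lit 9))
    (@En.n l890 (nat_lit 7874) (nat_lit 3) (nat_lit 5))
    (@En.n l27012 (nat_lit 7780) (nat_lit 4) (nat_lit 9))
    (@En.n l10123 (nat_lit 7756) (nat_lit 5) (nat_lit 4))
    (@En.n l19713 (nat_lit 7811) (nat_lit 6) (nat_lit 8))
    (@En.n l152 (nat_lit 7861) (nat_lit 7) (nat_lit 3))
    (@En.n l3082 (nat_lit 7764) (nat_lit 0) (nat_lit 11))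
    (@En.n l619 (nat_lit 7867) (nat_lit 10) (nat_lit 12))
    (@En.n l5208 (nat_lit 10529) (nat_lit 11) (nat_lit 13))
    (@En.n l699 (nat_lit 13629) (nat_lit 11) (nat_lit 7))
    (@En.n l27011 (nat_lit 8614) (nat_lit 4) (nat_lit 4))
    (@En.i (nat_lit 473) (nat_lit 14) (nat_lit 7))
    (@En.n l890 (nat_lit 10493) (nat_lit 1) (nat_lit 8))
    (@En.n l18 (nat_lit 7761) (nat_lit 15) (nat_lit 2))))
  (@Cl.mk (nat_lit 0x20007000d000c000b0003000a0004000b00050009000c00060005000e0004) (nat_lit 0x97908050230040) (nat_lit 16) Lb.e (@T16.mk En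
    (@En.n l7 (nat_lit 7754) (nat_lit 5) (nat_lit 4))
    (@En.n l396 (nat_lit 5521) (nat_lit 1) (nat_lit 14))
    (@En.n l7 (nat_lit 472) (nat_lit 2) (nat_lit 5))
    (@En.i (nat_lit 9613) (nat_lit 3) (nat_lit 6))
    (@En.i (nat_lit 7341) (nat_lit 6) (nat_lit 12))
    (@En.i (nat_lit 859) (nat_lit 5) (nat_lit 9))
    (@En.i (nat_lit 7887) (nat_lit 6) (nat_lit 5))
    (@En.n l12128 (nat_lit 7791) (nat_lit 8) (nat_lit 11))
    (@En.i (nat_lit 7757) (nat_lit 8) (nat_lit 4))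
    (@En.i (nat_lit 7810) (nat_lit 10) (nat_lit 10))
    (@En.n l152 (nat_lit 7854) (nat_lit 10) (nat_lit 3))
    (@En.i (nat_lit 7765) (nat_lit 12) (nat_lit 11))
    (@En.n l619 (nat_lit 7857) (nat_lit 13) (nat_lit 12))
    (@En.n l25800 (nat_lit 9291) (nat_lit 14) (nat_lit 13))
    (@En.n l4600 (nat_lit 7754) (nat_lit 3) (nat_lit 7))
    (@En.n l18 (nat_lit 7762) (nat_lit 15) (nat_lit 2))))
  (@Cl.mk (nat_lit 0x20008000d0009000500030009000c000c00080007000400040007000e000b) (nat_lit 0x6250039360000b6) (nat_lit 16) Lb.e (@T16.mk En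
    (@En.n l14533 (nat_lit 7893) (nat_lit 12) (nat_lit 11))
    (@En.n l14534 (nat_lit 6378) (nat_lit 1) (nat_lit 14))
    (@En.n l14535 (nat_lit 7764) (nat_lit 2) (nat_lit 7))
    (@En.n l14536 (nat_lit 7764) (nat_lit 3) (nat_lit 4))
    (@En.n l14537 (nat_lit 8626) (nat_lit 4) (nat_lit 4))
    (@En.i (nat_lit 489) (nat_lit 5) (nat_lit 7))
    (@En.n l14538 (nat_lit 8629) (nat_lit 6) (nat_lit 8))
    (@En.n l2337 (nat_lit 7765) (nat_lit 4) (nat_lit 12))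
    (@En.n l14539 (nat_lit 7344) (nat_lit 9) (nat_lit 12))
    (@En.n l1106 (nat_lit 7626) (nat_lit 10) (nat_lit 9))
    (@En.n l13923 (nat_lit 7758) (nat_lit 10) (nat_lit 3))
    (@En.n l14540 (nat_lit 7882) (nat_lit 0) (nat_lit 5))
    (@En.n l14541 (nat_lit 3197) (nat_lit 13) (nat_lit 9))
    (@En.n l14542 (nat_lit 2185) (nat_lit 14) (nat_lit 13))
    (@En.n l13923 (nat_lit 4648) (nat_lit 3) (nat_lit 8))
    (@En.n l67 (nat_lit 7763) (nat_lit 15) (nat_lit 2))))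
  (@Cl.mk (nat_lit 0x20007000d0008000500030009000e000c00020009000800040007000e000b) (nat_lit 0x24003ca07100b5) (nat_lit 16) Lb.e (@T16.mk En
    (@En.n l12491 (nat_lit 7894) (nat_lit 10) (nat_lit 11))
    (@En.n l22023 (nat_lit 9236) (nat_lit 11) (nat_lit 14))
    (@En.i (nat_lit 13843) (nat_lit 11) (nat_lit 7))
    (@En.n l6804 (nat_lit 8625) (nat_lit 3) (nat_lit 4))
    (@En.i (nat_lit 492) (nat_lit 14) (nat_lit 8))
    (@En.n l4834 (nat_lit 8633) (nat_lit 5) (nat_lit 9))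
    (@En.n l107 (nat_lit 7764) (nat_lit 6) (nat_lit 2))
    (@En.n l16398 (nat_lit 7763) (nat_lit 8) (nat_lit 12))
    (@En.n l6922 (nat_lit 7919) (nat_lit 9) (nat_lit 14))
    (@En.n l4832 (nat_lit 7627) (nat_lit 10) (nat_lit 9))
    (@En.i (nat_lit 7759) (nat_lit 10) (nat_lit 3))
    (@En.n l3971 (nat_lit 7885) (nat_lit 4) (nat_lit 5))
    (@En.n l22024 (nat_lit 3205) (nat_lit 13) (nat_lit 8))
    (@En.n l4834 (nat_lit 2183) (nat_lit 7) (nat_lit 13))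
    (@En.n l4835 (nat_lit 4653) (nat_lit 7) (nat_lit 7))
    (@En.n l7 (nat_lit 7764) (nat_lit 15) (nat_lit 2))))
  (@Cl.mk (nat_lit 0x20007000e000b00020009000d000a000500030009000c00070006000e0004) (nat_lit 0xb8075500520040) (nat_lit 16) Lb.e (@T16.mk En
    (@En.n l7 (nat_lit 7763) (nat_lit 4) (nat_lit 4))
    (@En.n l4536 (nat_lit 6910) (nat_lit 1) (nat_lit 14))
    (@En.n l7 (nat_lit 493) (nat_lit 2) (nat_lit 6))
    (@En.n l7805 (nat_lit 11518) (nat_lit 3) (nat_lit 7))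
    (@En.n l4536 (nat_lit 7336) (nat_lit 9) (nat_lit 12))
    (@En.n l12094 (nat_lit 7611) (nat_lit 5) (nat_lit 9))
    (@En.n l4538 (nat_lit 7760) (nat_lit 6) (nat_lit 3))
    (@En.n l4536 (nat_lit 7881) (nat_lit 7) (nat_lit 5))
    (@En.n l12095 (nat_lit 3196) (nat_lit 9) (nat_lit 10))
    (@En.n l4536 (nat_lit 2250) (nat_lit 10) (nat_lit 13))
    (@En.n l12096 (nat_lit 4647) (nat_lit 11) (nat_lit 9))
    (@En.n l67 (nat_lit 7765) (nat_lit 11) (nat_lit 2))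
    (@En.n l4541 (nat_lit 7892) (nat_lit 13) (nat_lit 11))
    (@En.n l12097 (nat_lit 6369) (nat_lit 1) (nat_lit 14))
    (@En.n l4600 (nat_lit 7763) (nat_lit 2) (nat_lit 7))
    (@En.n l18 (nat_lit 7765) (nat_lit 15) (nat_lit 2))))
  (@Cl.mk (nat_lit 0x2000c000c0008000c00040004000b0004000c000b000800050004000e0005) (nat_lit 0x455800601940050) (nat_lit 16) Lb.e (@T16.mk En
    (@En.i (nat_lit 2316) (nat_lit 5) (nat_lit 5))
    (@En.n l16289 (nat_lit 7757) (nat_lit 1) (nat_lit 14))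
    (@En.n l7 (nat_lit 7776) (nat_lit 2) (nat_lit 4))
    (@En.n l33595 (nat_lit 2997) (nat_lit 3) (nat_lit 5))
    (@En.i (nat_lit 8289) (nat_lit 4) (nat_lit 8))
    (@En.n l5801 (nat_lit 7321) (nat_lit 5) (nat_lit 11))
    (@En.n l17790 (nat_lit 4626) (nat_lit 7) (nat_lit 12))
    (@En.n l15267 (nat_lit 7247) (nat_lit 7) (nat_lit 4))
    (@En.n l10415 (nat_lit 7129) (nat_lit 9) (nat_lit 11))
    (@En.n l27693 (nat_lit 7767) (nat_lit 12) (nat_lit 4))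
    (@En.n l33595 (nat_lit 7135) (nat_lit 10) (nat_lit 4))
    (@En.n l10415 (nat_lit 2382) (nat_lit 12) (nat_lit 12))
    (@En.n l9775 (nat_lit 6037) (nat_lit 13) (nat_lit 8))
    (@En.n l27691 (nat_lit 6893) (nat_lit 4) (nat_lit 12))
    (@En.n l3518 (nat_lit 10644) (nat_lit 3) (nat_lit 12))
    (@En.n l18 (nat_lit 7766) (nat_lit 15) (nat_lit 2))))
  (@Cl.mk (nat_lit 0x20009000d0004000b0003000c000b000700050004000e00050002000e000c) (nat_lit 0x730301900050095) (nat_lit 16) Lb.e (@T16.mk En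
    (@En.n l77 (nat_lit 7766) (nat_lit 14) (nat_lit 12))
    (@En.i (nat_lit 12642) (nat_lit 1) (nat_lit 14))
    (@En.n l18 (nat_lit 7767) (nat_lit 2) (nat_lit 2))
    (@En.n l50 (nat_lit 2312) (nat_lit 3) (nat_lit 5))
    (@En.n l17943 (nat_lit 7760) (nat_lit 1) (nat_lit 14))
    (@En.i (nat_lit 7778) (nat_lit 5) (nat_lit 4))
    (@En.n l10795 (nat_lit 2898) (nat_lit 6) (nat_lit 5))
    (@En.n l77 (nat_lit 8290) (nat_lit 7) (nat_lit 7))
    (@En.n l77 (nat_lit 3060) (nat_lit 9) (nat_lit 11))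
    (@En.n l17944 (nat_lit 4625) (nat_lit 10) (nat_lit 12))
    (@En.i (nat_lit 7344) (nat_lit 10) (nat_lit 3))
    (@En.n l10795 (nat_lit 5834) (nat_lit 12) (nat_lit 11))
    (@En.n l117 (nat_lit 7768) (nat_lit 9) (nat_lit 4))
    (@En.n l8679 (nat_lit 2385) (nat_lit 14) (nat_lit 13))
    (@En.i (nat_lit 7244) (nat_lit 12) (nat_lit 9))
    (@En.n l3 (nat_lit 7767) (nat_lit 15) (nat_lit 2))))
  (@Cl.mk (nat_lit 0x2000d000c000b0003000a0004000b0005000c000b000600050004000e0005) (nat_lit 0x826050603900050) (nat_lit 16) Lb.e (@T16.mk En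
    (@En.n l50 (nat_lit 2317) (nat_lit 4) (nat_lit 5))
    (@En.n l31760 (nat_lit 7762) (nat_lit 1) (nat_lit 14))
    (@En.i (nat_lit 7770) (nat_lit 2) (nat_lit 4))
    (@En.n l31571 (nat_lit 3338) (nat_lit 3) (nat_lit 5))
    (@En.n l77 (nat_lit 11308) (nat_lit 4) (nat_lit 6))
    (@En.n l33737 (nat_lit 7328) (nat_lit 5) (nat_lit 11))
    (@En.n l18987 (nat_lit 7693) (nat_lit 7) (nat_lit 12))
    (@En.n l18185 (nat_lit 7477) (nat_lit 7) (nat_lit 5))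
    (@En.n l19313 (nat_lit 8019) (nat_lit 9) (nat_lit 11))
    (@En.n l77 (nat_lit 7766) (nat_lit 9) (nat_lit 4))
    (@En.i (nat_lit 7245) (nat_lit 11) (nat_lit 10))
    (@En.n l24302 (nat_lit 7769) (nat_lit 11) (nat_lit 3))
    (@En.n l619 (nat_lit 7344) (nat_lit 0) (nat_lit 11))
    (@En.n l33738 (nat_lit 7135) (nat_lit 14) (nat_lit 12))
    (@En.i (nat_lit 11099) (nat_lit 2) (nat_lit 13))
    (@En.n l18 (nat_lit 7768) (nat_lit 15) (nat_lit 2))))
  (@Cl.mk (nat_lit 0x2000d000a000d0003000a0003000b0006000c000b000600050004000e0005) (nat_lit 0x852050603900050) (nat_lit 16) Lb.e (@T16.mk En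
    (@En.n l50 (nat_lit 6669) (nat_lit 4) (nat_lit 5))
    (@En.n l6557 (nat_lit 7854) (nat_lit 1) (nat_lit 14))
    (@En.n l50 (nat_lit 7772) (nat_lit 2) (nat_lit 4))
    (@En.i (nat_lit 3339) (nat_lit 3) (nat_lit 5))
    (@En.i (nat_lit 11249) (nat_lit 4) (nat_lit 6))
    (@En.n l217 (nat_lit 7330) (nat_lit 5) (nat_lit 11))
    (@En.n l476 (nat_lit 7689) (nat_lit 7) (nat_lit 12))
    (@En.n l11010 (nat_lit 7134) (nat_lit 7) (nat_lit 6))
    (@En.n l28 (nat_lit 8020) (nat_lit 9) (nat_lit 11))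
    (@En.n l10969 (nat_lit 7135) (nat_lit 9) (nat_lit 3))
    (@En.i (nat_lit 7171) (nat_lit 11) (nat_lit 10))
    (@En.n l10786 (nat_lit 7768) (nat_lit 11) (nat_lit 3))
    (@En.n l2038 (nat_lit 1949) (nat_lit 0) (nat_lit 13))
    (@En.i (nat_lit 7125) (nat_lit 14) (nat_lit 10))
    (@En.i (nat_lit 11098) (nat_lit 2) (nat_lit 13))
    (@En.n l17 (nat_lit 7769) (nat_lit 15) (nat_lit 2))))
  (@Cl.mk (nat_lit 0x2000d000c000b000300090004000d0005000c0003000c00070004000e0004) (nat_lit 0x6a1050701040080) (nat_lit 16) Lb.e (@T16.mk En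
    (@En.n l50 (nat_lit 8640) (nat_lit 4) (nat_lit 4))
    (@En.i (nat_lit 5413) (nat_lit 1) (nat_lit 14))
    (@En.n l11706 (nat_lit 7341) (nat_lit 2) (nat_lit 4))
    (@En.i (nat_lit 11309) (nat_lit 3) (nat_lit 7))
    (@En.n l3523 (nat_lit 8851) (nat_lit 9) (nat_lit 12))
    (@En.i (nat_lit 7771) (nat_lit 5) (nat_lit 3))
    (@En.n l11706 (nat_lit 7688) (nat_lit 0) (nat_lit 12))
    (@En.i (nat_lit 8732) (nat_lit 7) (nat_lit 5))
    (@En.n l17134 (nat_lit 10876) (nat_lit 9) (nat_lit 13))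
    (@En.i (nat_lit 7776) (nat_lit 9) (nat_lit 4))
    (@En.i (nat_lit 9975) (nat_lit 11) (nat_lit 9))
    (@En.n l15575 (nat_lit 7772) (nat_lit 11) (nat_lit 3))
    (@En.n l619 (nat_lit 7342) (nat_lit 0) (nat_lit 11))
    (@En.n l3866 (nat_lit 7775) (nat_lit 14) (nat_lit 12))
    (@En.i (nat_lit 11992) (nat_lit 2) (nat_lit 13))
    (@En.n l18 (nat_lit 7770) (nat_lit 15) (nat_lit 2))))
  (@Cl.mk (nat_lit 0x2000d000c000a000300090004000d000b00060003000c00070005000e0004) (nat_lit 0xb00050770040060) (nat_lit 16) Lb.e (@T16.mk En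
    (@En.n l50 (nat_lit 8642) (nat_lit 4) (nat_lit 4))
    (@En.n l17194 (nat_lit 5407) (nat_lit 1) (nat_lit 14))
    (@En.n l14171 (nat_lit 3046) (nat_lit 2) (nat_lit 5))
    (@En.i (nat_lit 11310) (nat_lit 3) (nat_lit 7))
    (@En.n l16532 (nat_lit 10482) (nat_lit 9) (nat_lit 12))
    (@En.n l28 (nat_lit 7770) (nat_lit 5) (nat_lit 3))
    (@En.n l17194 (nat_lit 5878) (nat_lit 0) (nat_lit 6))
    (@En.i (nat_lit 7768) (nat_lit 8) (nat_lit 11))
    (@En.n l8331 (nat_lit 10875) (nat_lit 9) (nat_lit 13))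
    (@En.n l345 (nat_lit 7777) (nat_lit 9) (nat_lit 4))
    (@En.i (nat_lit 8912) (nat_lit 11) (nat_lit 9))
    (@En.n l15575 (nat_lit 7773) (nat_lit 11) (nat_lit 3))
    (@En.n l6625 (nat_lit 8970) (nat_lit 0) (nat_lit 10))
    (@En.n l1236 (nat_lit 7774) (nat_lit 14) (nat_lit 12))
    (@En.i (nat_lit 12015) (nat_lit 2) (nat_lit 13))
    (@En.n l18 (nat_lit 7771) (nat_lit 15) (nat_lit 2))))
  (@Cl.mk (nat_lit 0x2000d000a000d000300090003000d0006000c0003000c00070004000e0004) (nat_lit 0x986050903010080) (nat_lit 16) Lb.e (@T16.mk En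
    (@En.n l24673 (nat_lit 8737) (nat_lit 4) (nat_lit 4))
    (@En.n l8012 (nat_lit 5412) (nat_lit 1) (nat_lit 14))
    (@En.i (nat_lit 7416) (nat_lit 2) (nat_lit 4))
    (@En.n l16068 (nat_lit 11247) (nat_lit 3) (nat_lit 7))
    (@En.n l20303 (nat_lit 4324) (nat_lit 11) (nat_lit 12))
    (@En.i (nat_lit 7773) (nat_lit 5) (nat_lit 3))
    (@En.n l8012 (nat_lit 7685) (nat_lit 0) (nat_lit 12))
    (@En.n l24586 (nat_lit 7428) (nat_lit 7) (nat_lit 6))
    (@En.n l8341 (nat_lit 10878) (nat_lit 9) (nat_lit 13))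
    (@En.n l11061 (nat_lit 7775) (nat_lit 9) (nat_lit 3))
    (@En.n l6562 (nat_lit 7662) (nat_lit 11) (nat_lit 9))
    (@En.n l6564 (nat_lit 7770) (nat_lit 11) (nat_lit 3))
    (@En.n l2038 (nat_lit 4108) (nat_lit 0) (nat_lit 13))
    (@En.n l6565 (nat_lit 9082) (nat_lit 14) (nat_lit 10))
    (@En.i (nat_lit 12011) (nat_lit 2) (nat_lit 13))
    (@En.n l17 (nat_lit 7772) (nat_lit 15) (nat_lit 2))))
  (@Cl.mk (nat_lit 0x2000d0009000d000300090003000d000b00070003000c00070005000e0004) (nat_lit 0xb46050a70040060) (nat_lit 16) Lb.e (@T16.mk En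
    (@En.i (nat_lit 8738) (nat_lit 4) (nat_lit 4))
    (@En.n l181 (nat_lit 5404) (nat_lit 1) (nat_lit 14))
    (@En.i (nat_lit 3045) (nat_lit 2) (nat_lit 5))
    (@En.i (nat_lit 11251) (nat_lit 3) (nat_lit 7))
    (@En.n l396 (nat_lit 10436) (nat_lit 11) (nat_lit 12))
    (@En.n l7 (nat_lit 7772) (nat_lit 5) (nat_lit 3))
    (@En.n l10596 (nat_lit 12796) (nat_lit 0) (nat_lit 7))
    (@En.n l644 (nat_lit 7769) (nat_lit 8) (nat_lit 11))
    (@En.n l3528 (nat_lit 10877) (nat_lit 9) (nat_lit 13))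
    (@En.n l31463 (nat_lit 7774) (nat_lit 9) (nat_lit 3))
    (@En.i (nat_lit 7666) (nat_lit 11) (nat_lit 9))
    (@En.n l6564 (nat_lit 7771) (nat_lit 11) (nat_lit 3))
    (@En.n l619 (nat_lit 4104) (nat_lit 0) (nat_lit 13))
    (@En.i (nat_lit 10217) (nat_lit 14) (nat_lit 9))
    (@En.i (nat_lit 12014) (nat_lit 2) (nat_lit 13))
    (@En.n l17 (nat_lit 7773) (nat_lit 15) (nat_lit 2))))
  (@Cl.mk (nat_lit 0x2000c0009000d000800040003000d000b00070003000c00080005000e0004) (nat_lit 0xa47300770045060) (nat_lit 16) Lb.e (@T16.mk En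
    (@En.n l28 (nat_lit 8736) (nat_lit 10) (nat_lit 4))
    (@En.n l39029 (nat_lit 5340) (nat_lit 1) (nat_lit 14))
    (@En.n l28238 (nat_lit 3040) (nat_lit 2) (nat_lit 5))
    (@En.n l24683 (nat_lit 7813) (nat_lit 3) (nat_lit 8))
    (@En.n l39404 (nat_lit 10437) (nat_lit 11) (nat_lit 12))
    (@En.n l152 (nat_lit 7775) (nat_lit 5) (nat_lit 3))
    (@En.n l39029 (nat_lit 12797) (nat_lit 6) (nat_lit 7))
    (@En.n l14921 (nat_lit 7135) (nat_lit 8) (nat_lit 11))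
    (@En.n l32712 (nat_lit 9391) (nat_lit 9) (nat_lit 13))
    (@En.n l28958 (nat_lit 7773) (nat_lit 9) (nat_lit 3))
    (@En.n l18 (nat_lit 8312) (nat_lit 10) (nat_lit 4))
    (@En.n l28238 (nat_lit 10222) (nat_lit 12) (nat_lit 8))
    (@En.i (nat_lit 4096) (nat_lit 13) (nat_lit 13))
    (@En.n l61 (nat_lit 10218) (nat_lit 14) (nat_lit 9))
    (@En.n l28237 (nat_lit 10571) (nat_lit 9) (nat_lit 12))
    (@En.n l7 (nat_lit 7774) (nat_lit 15) (nat_lit 2))))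
  (@Cl.mk (nat_lit 0x2000c000a000d000800040003000d0006000c0003000c00080004000e0004) (nat_lit 0x977300901005090) (nat_lit 16) Lb.e (@T16.mk En
    (@En.n l28 (nat_lit 8735) (nat_lit 10) (nat_lit 4))
    (@En.i (nat_lit 5561) (nat_lit 1) (nat_lit 14))
    (@En.n l137 (nat_lit 7410) (nat_lit 2) (nat_lit 4))
    (@En.i (nat_lit 7814) (nat_lit 3) (nat_lit 8))
    (@En.n l7691 (nat_lit 8856) (nat_lit 11) (nat_lit 12))
    (@En.n l117 (nat_lit 7774) (nat_lit 5) (nat_lit 3))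
    (@En.n l16041 (nat_lit 7686) (nat_lit 0) (nat_lit 12))
    (@En.n l17524 (nat_lit 8733) (nat_lit 7) (nat_lit 6))
    (@En.n l10832 (nat_lit 9390) (nat_lit 9) (nat_lit 13))
    (@En.n l15740 (nat_lit 7772) (nat_lit 9) (nat_lit 3))
    (@En.n l18 (nat_lit 8313) (nat_lit 10) (nat_lit 4))
    (@En.n l6081 (nat_lit 10259) (nat_lit 12) (nat_lit 8))
    (@En.i (nat_lit 4103) (nat_lit 5) (nat_lit 13))
    (@En.n l61 (nat_lit 8661) (nat_lit 14) (nat_lit 10))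
    (@En.n l564 (nat_lit 10569) (nat_lit 9) (nat_lit 12))
    (@En.n l7 (nat_lit 7775) (nat_lit 15) (nat_lit 2))))
noncomputable def a486 : T16 Cl := @T16.mk Cl
  (@Cl.mk (nat_lit 0x2000c000c0007000c00040004000d0004000c0003000c00090004000e0004) (nat_lit 0x980900302077010) (nat_lit 16) Lb.e (@T16.mk En
    (@En.n l50 (nat_lit 8318) (nat_lit 10) (nat_lit 4))
    (@En.n l2197 (nat_lit 5566) (nat_lit 1) (nat_lit 14))
    (@En.n l10415 (nat_lit 7340) (nat_lit 2) (nat_lit 4))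
    (@En.i (nat_lit 7695) (nat_lit 3) (nat_lit 9))
    (@En.n l3523 (nat_lit 8811) (nat_lit 5) (nat_lit 12))
    (@En.n l345 (nat_lit 7777) (nat_lit 5) (nat_lit 3))
    (@En.n l11706 (nat_lit 7694) (nat_lit 0) (nat_lit 12))
    (@En.n l2938 (nat_lit 7343) (nat_lit 7) (nat_lit 4))
    (@En.n l17134 (nat_lit 8728) (nat_lit 9) (nat_lit 13))
    (@En.n l152 (nat_lit 7778) (nat_lit 12) (nat_lit 4))
    (@En.n l3851 (nat_lit 7775) (nat_lit 10) (nat_lit 4))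
    (@En.n l3523 (nat_lit 2869) (nat_lit 12) (nat_lit 12))
    (@En.n l26601 (nat_lit 10258) (nat_lit 13) (nat_lit 7))
    (@En.n l3536 (nat_lit 8313) (nat_lit 14) (nat_lit 12))
    (@En.n l3518 (nat_lit 10632) (nat_lit 9) (nat_lit 12))
    (@En.n l18 (nat_lit 7776) (nat_lit 15) (nat_lit 2))))
  (@Cl.mk (nat_lit 0x2000c000c0007000b00040004000d000b00050003000c00090005000e0004) (nat_lit 0x300270077060) (nat_lit 16) Lb.e (@T16.mk En
    (@En.n l28 (nat_lit 8319) (nat_lit 10) (nat_lit 4))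
    (@En.n l21922 (nat_lit 6982) (nat_lit 1) (nat_lit 14))
    (@En.n l28238 (nat_lit 3035) (nat_lit 2) (nat_lit 5))
    (@En.n l24683 (nat_lit 9107) (nat_lit 3) (nat_lit 9))
    (@En.n l32711 (nat_lit 7397) (nat_lit 5) (nat_lit 12))
    (@En.n l2710 (nat_lit 7776) (nat_lit 5) (nat_lit 3))
    (@En.n l21922 (nat_lit 8972) (nat_lit 6) (nat_lit 5))
    (@En.n l2749 (nat_lit 7766) (nat_lit 8) (nat_lit 11))
    (@En.n l32712 (nat_lit 8727) (nat_lit 9) (nat_lit 13))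
    (@En.n l1071 (nat_lit 7779) (nat_lit 12) (nat_lit 4))
    (@En.i (nat_lit 7774) (nat_lit 10) (nat_lit 4))
    (@En.n l21922 (nat_lit 3436) (nat_lit 12) (nat_lit 11))
    (@En.n l13906 (nat_lit 10223) (nat_lit 13) (nat_lit 7))
    (@En.n l61 (nat_lit 8312) (nat_lit 14) (nat_lit 12))
    (@En.n l32713 (nat_lit 10634) (nat_lit 9) (nat_lit 12))
    (@En.n l7 (nat_lit 7777) (nat_lit 15) (nat_lit 2))))
  (@Cl.mk (nat_lit 0x20008000d0004000d0003000c0003000c00080004000e00040002000e000c) (nat_lit 0x6303020060a009a) (nat_lit 16) Lb.e (@T16.mk En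
    (@En.i (nat_lit 7776) (nat_lit 14) (nat_lit 12))
    (@En.i (nat_lit 12356) (nat_lit 1) (nat_lit 14))
    (@En.n l18 (nat_lit 7778) (nat_lit 2) (nat_lit 2))
    (@En.n l50 (nat_lit 8634) (nat_lit 3) (nat_lit 4))
    (@En.i (nat_lit 6971) (nat_lit 1) (nat_lit 14))
    (@En.n l4356 (nat_lit 7339) (nat_lit 5) (nat_lit 4))
    (@En.i (nat_lit 9102) (nat_lit 6) (nat_lit 8))
    (@En.n l3348 (nat_lit 8850) (nat_lit 8) (nat_lit 12))
    (@En.i (nat_lit 7779) (nat_lit 8) (nat_lit 3))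
    (@En.i (nat_lit 8956) (nat_lit 10) (nat_lit 12))
    (@En.i (nat_lit 7342) (nat_lit 10) (nat_lit 3))
    (@En.n l7882 (nat_lit 3993) (nat_lit 12) (nat_lit 13))
    (@En.n l117 (nat_lit 7770) (nat_lit 9) (nat_lit 4))
    (@En.n l3348 (nat_lit 4033) (nat_lit 14) (nat_lit 13))
    (@En.i (nat_lit 9972) (nat_lit 12) (nat_lit 8))
    (@En.n l3 (nat_lit 7778) (nat_lit 15) (nat_lit 2))))
  (@Cl.mk (nat_lit 0x20008000c0004000d000b00040003000c00080005000e00040002000e000c) (nat_lit 0x630340006090061) (nat_lit 16) Lb.e (@T16.mk En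
    (@En.n l345 (nat_lit 7777) (nat_lit 14) (nat_lit 12))
    (@En.i (nat_lit 12597) (nat_lit 1) (nat_lit 14))
    (@En.n l18 (nat_lit 7779) (nat_lit 2) (nat_lit 2))
    (@En.n l50 (nat_lit 8635) (nat_lit 3) (nat_lit 4))
    (@En.n l2809 (nat_lit 6975) (nat_lit 5) (nat_lit 14))
    (@En.n l4353 (nat_lit 2904) (nat_lit 5) (nat_lit 5))
    (@En.i (nat_lit 9099) (nat_lit 6) (nat_lit 8))
    (@En.n l12570 (nat_lit 9577) (nat_lit 8) (nat_lit 12))
    (@En.n l28 (nat_lit 7778) (nat_lit 8) (nat_lit 3))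
    (@En.n l2809 (nat_lit 8971) (nat_lit 9) (nat_lit 4))
    (@En.i (nat_lit 7767) (nat_lit 11) (nat_lit 11))
    (@En.n l4353 (nat_lit 3992) (nat_lit 12) (nat_lit 13))
    (@En.n l117 (nat_lit 7771) (nat_lit 9) (nat_lit 4))
    (@En.n l12570 (nat_lit 3439) (nat_lit 14) (nat_lit 12))
    (@En.i (nat_lit 8910) (nat_lit 12) (nat_lit 8))
    (@En.n l3 (nat_lit 7779) (nat_lit 15) (nat_lit 2))))
  (@Cl.mk (nat_lit 0x200070007000c00050008000d0004000c00030009000900040008000e000b) (nat_lit 0x20690506406b9) (nat_lit 16) Lb.e (@T16.mk En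
    (@En.n l6698 (nat_lit 5691) (nat_lit 10) (nat_lit 11))
    (@En.n l1578 (nat_lit 6589) (nat_lit 1) (nat_lit 14))
    (@En.n l617 (nat_lit 5929) (nat_lit 2) (nat_lit 8))
    (@En.n l2125 (nat_lit 7557) (nat_lit 3) (nat_lit 4))
    (@En.n l3261 (nat_lit 5683) (nat_lit 7) (nat_lit 9))
    (@En.n l9182 (nat_lit 6553) (nat_lit 5) (nat_lit 9))
    (@En.i (nat_lit 5693) (nat_lit 6) (nat_lit 3))
    (@En.n l5347 (nat_lit 3205) (nat_lit 0) (nat_lit 12))
    (@En.i (nat_lit 5243) (nat_lit 8) (nat_lit 4))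
    (@En.n l2213 (nat_lit 12494) (nat_lit 10) (nat_lit 13))
    (@En.i (nat_lit 13784) (nat_lit 10) (nat_lit 8))
    (@En.i (nat_lit 10560) (nat_lit 4) (nat_lit 5))
    (@En.n l899 (nat_lit 7873) (nat_lit 13) (nat_lit 12))
    (@En.n l152 (nat_lit 7782) (nat_lit 9) (nat_lit 7))
    (@En.i (nat_lit 10081) (nat_lit 7) (nat_lit 7))
    (@En.n l28 (nat_lit 7780) (nat_lit 15) (nat_lit 2))))
  (@Cl.mk (nat_lit 0x200050009000c000c0006000b000400040007000d0005000b0003000e000a) (nat_lit 0x39601000907068) (nat_lit 16) Lb.e (@T16.mk En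
    (@En.n l6698 (nat_lit 5691) (nat_lit 14) (nat_lit 10))
    (@En.i (nat_lit 7786) (nat_lit 1) (nat_lit 14))
    (@En.n l27066 (nat_lit 7785) (nat_lit 2) (nat_lit 3))
    (@En.i (nat_lit 3202) (nat_lit 3) (nat_lit 11))
    (@En.i (nat_lit 5236) (nat_lit 4) (nat_lit 5))
    (@En.n l15197 (nat_lit 12749) (nat_lit 6) (nat_lit 13))
    (@En.n l11 (nat_lit 7782) (nat_lit 6) (nat_lit 7))
    (@En.n l55 (nat_lit 7782) (nat_lit 7) (nat_lit 4))
    (@En.n l6698 (nat_lit 12143) (nat_lit 8) (nat_lit 4))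
    (@En.n l9500 (nat_lit 766) (nat_lit 10) (nat_lit 11))
    (@En.i (nat_lit 9668) (nat_lit 11) (nat_lit 6))
    (@En.n l6697 (nat_lit 7787) (nat_lit 12) (nat_lit 12))
    (@En.n l6698 (nat_lit 8021) (nat_lit 13) (nat_lit 12))
    (@En.n l27919 (nat_lit 5865) (nat_lit 14) (nat_lit 9))
    (@En.i (nat_lit 7503) (nat_lit 13) (nat_lit 5))
    (@En.n l3 (nat_lit 7781) (nat_lit 15) (nat_lit 2))))
  (@Cl.mk (nat_lit 0x200050009000e000c00020007000c00040007000d0004000b0003000e0009) (nat_lit 0x28a001008060a7) (nat_lit 16) Lb.e (@T16.mk En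
    (@En.i (nat_lit 7780) (nat_lit 5) (nat_lit 9))
    (@En.i (nat_lit 7784) (nat_lit 1) (nat_lit 14))
    (@En.i (nat_lit 7783) (nat_lit 2) (nat_lit 3))
    (@En.i (nat_lit 3204) (nat_lit 3) (nat_lit 11))
    (@En.i (nat_lit 5237) (nat_lit 4) (nat_lit 4))
    (@En.i (nat_lit 12751) (nat_lit 6) (nat_lit 13))
    (@En.i (nat_lit 13775) (nat_lit 11) (nat_lit 7))
    (@En.i (nat_lit 12232) (nat_lit 7) (nat_lit 4))
    (@En.n l2544 (nat_lit 768) (nat_lit 9) (nat_lit 12))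
    (@En.i (nat_lit 9665) (nat_lit 10) (nat_lit 7))
    (@En.n l28 (nat_lit 7782) (nat_lit 10) (nat_lit 2))
    (@En.i (nat_lit 7781) (nat_lit 12) (nat_lit 12))
    (@En.n l1578 (nat_lit 8027) (nat_lit 13) (nat_lit 14))
    (@En.n l617 (nat_lit 5869) (nat_lit 2) (nat_lit 9))
    (@En.i (nat_lit 7502) (nat_lit 3) (nat_lit 5))
    (@En.n l3 (nat_lit 7782) (nat_lit 15) (nat_lit 2))))
  (@Cl.mk (nat_lit 0x200060009000e000c00020007000b00040007000d000a00050003000e0009) (nat_lit 0x27a001009500a7) (nat_lit 16) Lb.e (@T16.mk En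
    (@En.i (nat_lit 5693) (nat_lit 5) (nat_lit 9))
    (@En.i (nat_lit 6044) (nat_lit 1) (nat_lit 14))
    (@En.n l18 (nat_lit 7782) (nat_lit 2) (nat_lit 3))
    (@En.n l7882 (nat_lit 5231) (nat_lit 8) (nat_lit 5))
    (@En.n l61 (nat_lit 7784) (nat_lit 4) (nat_lit 10))
    (@En.n l1353 (nat_lit 9220) (nat_lit 6) (nat_lit 13))
    (@En.i (nat_lit 13773) (nat_lit 11) (nat_lit 7))
    (@En.i (nat_lit 12233) (nat_lit 7) (nat_lit 4))
    (@En.n l2544 (nat_lit 658) (nat_lit 9) (nat_lit 11))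
    (@En.i (nat_lit 9661) (nat_lit 1) (nat_lit 7))
    (@En.n l28 (nat_lit 7783) (nat_lit 10) (nat_lit 2))
    (@En.n l27066 (nat_lit 7785) (nat_lit 12) (nat_lit 12))
    (@En.n l1578 (nat_lit 8028) (nat_lit 13) (nat_lit 14))
    (@En.n l2199 (nat_lit 5868) (nat_lit 9) (nat_lit 9))
    (@En.i (nat_lit 5485) (nat_lit 3) (nat_lit 6))
    (@En.n l3 (nat_lit 7783) (nat_lit 15) (nat_lit 2))))
  (@Cl.mk (nat_lit 0x2000600050009000e000c00020008000c00040007000a0004000b000e0008) (nat_lit 0x38a0410040696) (nat_lit 16) Lb.e (@T16.mk En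
    (@En.n l5646 (nat_lit 7790) (nat_lit 6) (nat_lit 8))
    (@En.i (nat_lit 6046) (nat_lit 8) (nat_lit 14))
    (@En.i (nat_lit 3203) (nat_lit 2) (nat_lit 11))
    (@En.i (nat_lit 5238) (nat_lit 3) (nat_lit 4))
    (@En.n l862 (nat_lit 11636) (nat_lit 4) (nat_lit 10))
    (@En.i (nat_lit 13774) (nat_lit 11) (nat_lit 7))
    (@En.i (nat_lit 12147) (nat_lit 6) (nat_lit 4))
    (@En.n l2544 (nat_lit 560) (nat_lit 8) (nat_lit 12))
    (@En.i (nat_lit 9664) (nat_lit 1) (nat_lit 8))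
    (@En.n l28 (nat_lit 7784) (nat_lit 9) (nat_lit 2))
    (@En.i (nat_lit 7786) (nat_lit 11) (nat_lit 12))
    (@En.n l1578 (nat_lit 8029) (nat_lit 12) (nat_lit 14))
    (@En.n l617 (nat_lit 7783) (nat_lit 13) (nat_lit 9))
    (@En.n l17 (nat_lit 7782) (nat_lit 14) (nat_lit 5))
    (@En.i (nat_lit 5487) (nat_lit 4) (nat_lit 6))
    (@En.n l3 (nat_lit 7784) (nat_lit 15) (nat_lit 2))))
  (@Cl.mk (nat_lit 0x200060009000c000c0006000a000400040007000d000a00060003000e000a) (nat_lit 0x29601000960068) (nat_lit 16) Lb.e (@T16.mk En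
    (@En.i (nat_lit 5690) (nat_lit 14) (nat_lit 10))
    (@En.n l1735 (nat_lit 6025) (nat_lit 1) (nat_lit 14))
    (@En.n l31791 (nat_lit 7781) (nat_lit 2) (nat_lit 3))
    (@En.n l513 (nat_lit 5230) (nat_lit 3) (nat_lit 6))
    (@En.n l7378 (nat_lit 7786) (nat_lit 4) (nat_lit 10))
    (@En.n l24509 (nat_lit 12750) (nat_lit 6) (nat_lit 13))
    (@En.n l31983 (nat_lit 7783) (nat_lit 6) (nat_lit 7))
    (@En.n l30869 (nat_lit 7783) (nat_lit 7) (nat_lit 4))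
    (@En.n l50 (nat_lit 12144) (nat_lit 8) (nat_lit 4))
    (@En.n l387 (nat_lit 655) (nat_lit 10) (nat_lit 10))
    (@En.n l23692 (nat_lit 9662) (nat_lit 11) (nat_lit 6))
    (@En.n l217 (nat_lit 7788) (nat_lit 12) (nat_lit 12))
    (@En.n l253 (nat_lit 8022) (nat_lit 13) (nat_lit 12))
    (@En.i (nat_lit 5866) (nat_lit 9) (nat_lit 9))
    (@En.n l253 (nat_lit 5486) (nat_lit 13) (nat_lit 6))
    (@En.n l28 (nat_lit 7785) (nat_lit 15) (nat_lit 2))))
  (@Cl.mk (nat_lit 0x2000600050009000c000c0007000b000400040007000a0005000b000e0009) (nat_lit 0x3970100050757) (nat_lit 16) Lb.e (@T16.mk En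
    (@En.n l16480 (nat_lit 5692) (nat_lit 2) (nat_lit 9))
    (@En.n l3559 (nat_lit 6028) (nat_lit 4) (nat_lit 14))
    (@En.n l15669 (nat_lit 3199) (nat_lit 2) (nat_lit 11))
    (@En.n l16636 (nat_lit 5234) (nat_lit 3) (nat_lit 5))
    (@En.n l862 (nat_lit 11640) (nat_lit 4) (nat_lit 10))
    (@En.n l11 (nat_lit 7784) (nat_lit 5) (nat_lit 7))
    (@En.n l55 (nat_lit 7784) (nat_lit 6) (nat_lit 4))
    (@En.n l6698 (nat_lit 12142) (nat_lit 7) (nat_lit 4))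
    (@En.n l862 (nat_lit 561) (nat_lit 9) (nat_lit 11))
    (@En.i (nat_lit 9669) (nat_lit 10) (nat_lit 7))
    (@En.n l6697 (nat_lit 7789) (nat_lit 11) (nat_lit 12))
    (@En.n l6698 (nat_lit 8023) (nat_lit 12) (nat_lit 12))
    (@En.n l16637 (nat_lit 7785) (nat_lit 13) (nat_lit 9))
    (@En.n l17 (nat_lit 7781) (nat_lit 14) (nat_lit 5))
    (@En.i (nat_lit 5488) (nat_lit 13) (nat_lit 6))
    (@En.n l3 (nat_lit 7786) (nat_lit 15) (nat_lit 2))))
  (@Cl.mk (nat_lit 0x200050009000c0005000a000e000400020007000d0006000b0003000e000b) (nat_lit 0x25017000808077) (nat_lit 16) Lb.e (@T16.mk En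
    (@En.i (nat_lit 7791) (nat_lit 9) (nat_lit 11))
    (@En.i (nat_lit 7789) (nat_lit 1) (nat_lit 14))
    (@En.n l2199 (nat_lit 7788) (nat_lit 2) (nat_lit 3))
    (@En.i (nat_lit 3201) (nat_lit 3) (nat_lit 11))
    (@En.i (nat_lit 5235) (nat_lit 4) (nat_lit 6))
    (@En.i (nat_lit 12745) (nat_lit 6) (nat_lit 13))
    (@En.n l3100 (nat_lit 7781) (nat_lit 6) (nat_lit 7))
    (@En.n l28 (nat_lit 7787) (nat_lit 7) (nat_lit 2))
    (@En.n l5611 (nat_lit 7781) (nat_lit 8) (nat_lit 4))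
    (@En.i (nat_lit 3502) (nat_lit 10) (nat_lit 14))
    (@En.n l3337 (nat_lit 767) (nat_lit 11) (nat_lit 10))
    (@En.i (nat_lit 12139) (nat_lit 3) (nat_lit 5))
    (@En.i (nat_lit 7064) (nat_lit 13) (nat_lit 12))
    (@En.n l3337 (nat_lit 5867) (nat_lit 5) (nat_lit 9))
    (@En.i (nat_lit 7508) (nat_lit 6) (nat_lit 5))
    (@En.n l3 (nat_lit 7787) (nat_lit 15) (nat_lit 2))))
  (@Cl.mk (nat_lit 0x200060009000c00050009000e000400020007000d000a00070003000e000b) (nat_lit 0x25017000970077) (nat_lit 16) Lb.e (@T16.mk En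
    (@En.n l134 (nat_lit 7793) (nat_lit 9) (nat_lit 11))
    (@En.n l1735 (nat_lit 6023) (nat_lit 1) (nat_lit 14))
    (@En.n l11610 (nat_lit 7787) (nat_lit 2) (nat_lit 3))
    (@En.n l1504 (nat_lit 5232) (nat_lit 12) (nat_lit 7))
    (@En.n l5032 (nat_lit 7789) (nat_lit 4) (nat_lit 10))
    (@En.n l24509 (nat_lit 12747) (nat_lit 6) (nat_lit 13))
    (@En.n l1738 (nat_lit 7785) (nat_lit 6) (nat_lit 7))
    (@En.n l18 (nat_lit 7788) (nat_lit 7) (nat_lit 2))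
    (@En.i (nat_lit 7785) (nat_lit 8) (nat_lit 4))
    (@En.n l2571 (nat_lit 3503) (nat_lit 10) (nat_lit 14))
    (@En.n l387 (nat_lit 657) (nat_lit 2) (nat_lit 9))
    (@En.i (nat_lit 12140) (nat_lit 3) (nat_lit 5))
    (@En.n l253 (nat_lit 7065) (nat_lit 13) (nat_lit 12))
    (@En.i (nat_lit 5864) (nat_lit 5) (nat_lit 9))
    (@En.n l253 (nat_lit 5494) (nat_lit 6) (nat_lit 6))
    (@En.n l28 (nat_lit 7788) (nat_lit 15) (nat_lit 2))))
  (@Cl.mk (nat_lit 0x2000600050009000c0006000a000e000400020007000a0006000b000e000a) (nat_lit 0x3601900060866) (nat_lit 16) Lb.e (@T16.mk En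
    (@En.n l5646 (nat_lit 7792) (nat_lit 10) (nat_lit 10))
    (@En.i (nat_lit 6026) (nat_lit 11) (nat_lit 14))
    (@En.n l1203 (nat_lit 3200) (nat_lit 2) (nat_lit 11))
    (@En.n l5595 (nat_lit 5233) (nat_lit 13) (nat_lit 6))
    (@En.i (nat_lit 12837) (nat_lit 4) (nat_lit 10))
    (@En.n l3100 (nat_lit 7786) (nat_lit 5) (nat_lit 7))
    (@En.n l28 (nat_lit 7789) (nat_lit 6) (nat_lit 2))
    (@En.n l5611 (nat_lit 7786) (nat_lit 7) (nat_lit 4))
    (@En.i (nat_lit 3501) (nat_lit 9) (nat_lit 14))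
    (@En.n l3326 (nat_lit 559) (nat_lit 2) (nat_lit 10))
    (@En.i (nat_lit 12138) (nat_lit 3) (nat_lit 6))
    (@En.i (nat_lit 7057) (nat_lit 12) (nat_lit 12))
    (@En.n l9501 (nat_lit 7788) (nat_lit 13) (nat_lit 9))
    (@En.n l17 (nat_lit 7787) (nat_lit 14) (nat_lit 5))
    (@En.i (nat_lit 5492) (nat_lit 7) (nat_lit 6))
    (@En.n l3 (nat_lit 7789) (nat_lit 15) (nat_lit 2))))
  (@Cl.mk (nat_lit 0x200080008000c00050008000b0004000c00080008000500040008000e000b) (nat_lit 0x652065075100626) (nat_lit 16) Lb.e (@T16.mk En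
    (@En.n l226 (nat_lit 5692) (nat_lit 13) (nat_lit 11))
    (@En.n l134 (nat_lit 8032) (nat_lit 1) (nat_lit 14))
    (@En.n l16218 (nat_lit 5693) (nat_lit 2) (nat_lit 8))
    (@En.n l1003 (nat_lit 7780) (nat_lit 3) (nat_lit 4))
    (@En.n l25673 (nat_lit 7563) (nat_lit 4) (nat_lit 5))
    (@En.n l9878 (nat_lit 5681) (nat_lit 8) (nat_lit 8))
    (@En.n l97 (nat_lit 6561) (nat_lit 6) (nat_lit 8))
    (@En.n l10139 (nat_lit 3198) (nat_lit 8) (nat_lit 12))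
    (@En.n l9875 (nat_lit 5242) (nat_lit 8) (nat_lit 4))
    (@En.n l226 (nat_lit 10122) (nat_lit 10) (nat_lit 11))
    (@En.i (nat_lit 13781) (nat_lit 10) (nat_lit 8))
    (@En.n l16214 (nat_lit 10558) (nat_lit 12) (nat_lit 5))
    (@En.i (nat_lit 7863) (nat_lit 13) (nat_lit 12))
    (@En.n l11401 (nat_lit 7784) (nat_lit 8) (nat_lit 8))
    (@En.i (nat_lit 10077) (nat_lit 2) (nat_lit 8))
    (@En.n l7 (nat_lit 7790) (nat_lit 15) (nat_lit 2))))
  (@Cl.mk (nat_lit 0x20008000d0006000c0003000b000b00040008000b00050005000a000e0005) (nat_lit 0x1a0706406400220) (nat_lit 16) Lb.e (@T16.mk En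
    (@En.i (nat_lit 5691) (nat_lit 5) (nat_lit 5))
    (@En.i (nat_lit 3473) (nat_lit 1) (nat_lit 14))
    (@En.n l899 (nat_lit 7878) (nat_lit 2) (nat_lit 10))
    (@En.n l152 (nat_lit 7787) (nat_lit 11) (nat_lit 5))
    (@En.i (nat_lit 9512) (nat_lit 4) (nat_lit 5))
    (@En.i (nat_lit 7033) (nat_lit 7) (nat_lit 11))
    (@En.n l617 (nat_lit 5875) (nat_lit 6) (nat_lit 8))
    (@En.n l2125 (nat_lit 7556) (nat_lit 7) (nat_lit 4))
    (@En.n l3536 (nat_lit 5687) (nat_lit 9) (nat_lit 11))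
    (@En.n l9182 (nat_lit 6550) (nat_lit 10) (nat_lit 11))
    (@En.n l20665 (nat_lit 7793) (nat_lit 10) (nat_lit 3))
    (@En.n l766 (nat_lit 3196) (nat_lit 12) (nat_lit 12))
    (@En.i (nat_lit 5244) (nat_lit 13) (nat_lit 6))
    (@En.n l19865 (nat_lit 12769) (nat_lit 14) (nat_lit 13))
    (@En.n l3506 (nat_lit 5691) (nat_lit 3) (nat_lit 8))
    (@En.n l28 (nat_lit 7791) (nat_lit 15) (nat_lit 2))))
noncomputable def a487 : T16 Cl := @T16.mk Cl
  (@Cl.mk (nat_lit 0x20008000b0006000c000a000a000500040008000b00060006000a000e0005) (nat_lit 0x170953006500290) (nat_lit 16) Lb.e (@T16.mk En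
    (@En.n l2129 (nat_lit 5692) (nat_lit 8) (nat_lit 5))
    (@En.n l1003 (nat_lit 3475) (nat_lit 1) (nat_lit 14))
    (@En.i (nat_lit 7853) (nat_lit 2) (nat_lit 10))
    (@En.n l11401 (nat_lit 7789) (nat_lit 10) (nat_lit 6))
    (@En.n l26408 (nat_lit 9511) (nat_lit 4) (nat_lit 6))
    (@En.i (nat_lit 7037) (nat_lit 7) (nat_lit 11))
    (@En.n l4817 (nat_lit 7793) (nat_lit 6) (nat_lit 8))
    (@En.n l1003 (nat_lit 7791) (nat_lit 7) (nat_lit 4))
    (@En.n l17 (nat_lit 7562) (nat_lit 8) (nat_lit 5))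
    (@En.n l8906 (nat_lit 5688) (nat_lit 10) (nat_lit 10))
    (@En.n l11403 (nat_lit 6560) (nat_lit 11) (nat_lit 10))
    (@En.n l5582 (nat_lit 3192) (nat_lit 12) (nat_lit 12))
    (@En.n l12646 (nat_lit 5241) (nat_lit 13) (nat_lit 6))
    (@En.n l26409 (nat_lit 11136) (nat_lit 14) (nat_lit 11))
    (@En.n l5598 (nat_lit 5692) (nat_lit 6) (nat_lit 8))
    (@En.n l7 (nat_lit 7792) (nat_lit 15) (nat_lit 2))))
  (@Cl.mk (nat_lit 0x20008000d000b00070003000b000b00050008000b000500050009000e0005) (nat_lit 0x1a8006305400220) (nat_lit 16) Lb.e (@T16.mk En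
    (@En.n l3506 (nat_lit 5690) (nat_lit 5) (nat_lit 5))
    (@En.n l9226 (nat_lit 3474) (nat_lit 1) (nat_lit 14))
    (@En.n l564 (nat_lit 7859) (nat_lit 2) (nat_lit 9))
    (@En.n l7 (nat_lit 7788) (nat_lit 11) (nat_lit 5))
    (@En.i (nat_lit 9513) (nat_lit 4) (nat_lit 5))
    (@En.n l4960 (nat_lit 7034) (nat_lit 7) (nat_lit 11))
    (@En.i (nat_lit 5918) (nat_lit 10) (nat_lit 8))
    (@En.n l4960 (nat_lit 7564) (nat_lit 7) (nat_lit 5))
    (@En.n l13068 (nat_lit 5689) (nat_lit 9) (nat_lit 11))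
    (@En.n l14798 (nat_lit 6924) (nat_lit 10) (nat_lit 11))
    (@En.n l12145 (nat_lit 7791) (nat_lit 10) (nat_lit 3))
    (@En.n l12146 (nat_lit 4838) (nat_lit 12) (nat_lit 7))
    (@En.n l4589 (nat_lit 7792) (nat_lit 13) (nat_lit 11))
    (@En.i (nat_lit 12772) (nat_lit 14) (nat_lit 13))
    (@En.n l22009 (nat_lit 5690) (nat_lit 3) (nat_lit 8))
    (@En.n l18 (nat_lit 7793) (nat_lit 15) (nat_lit 2))))
  (@Cl.mk (nat_lit 0x20007000c00060009000e00040002000c000a000900070004000a000e0006) (nat_lit 0xa0240098100220) (nat_lit 16) Lb.e (@T16.mk En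
    (@En.n l1262 (nat_lit 5882) (nat_lit 7) (nat_lit 6))
    (@En.i (nat_lit 6423) (nat_lit 9) (nat_lit 14))
    (@En.n l35893 (nat_lit 7795) (nat_lit 10) (nat_lit 10))
    (@En.n l13323 (nat_lit 7796) (nat_lit 3) (nat_lit 4))
    (@En.n l97 (nat_lit 7935) (nat_lit 4) (nat_lit 7))
    (@En.n l773 (nat_lit 4079) (nat_lit 5) (nat_lit 9))
    (@En.n l217 (nat_lit 7798) (nat_lit 14) (nat_lit 10))
    (@En.n l7865 (nat_lit 6581) (nat_lit 8) (nat_lit 12))
    (@En.n l28 (nat_lit 7794) (nat_lit 8) (nat_lit 2))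
    (@En.n l2848 (nat_lit 6341) (nat_lit 9) (nat_lit 4))
    (@En.n l1262 (nat_lit 3293) (nat_lit 11) (nat_lit 14))
    (@En.n l24348 (nat_lit 3286) (nat_lit 12) (nat_lit 9))
    (@En.i (nat_lit 5744) (nat_lit 13) (nat_lit 6))
    (@En.n l1643 (nat_lit 9447) (nat_lit 14) (nat_lit 12))
    (@En.n l35894 (nat_lit 3461) (nat_lit 5) (nat_lit 7))
    (@En.n l17 (nat_lit 7794) (nat_lit 15) (nat_lit 2))))
  (@Cl.mk (nat_lit 0x20005000b000a0007000a000e000500020006000b0006000b0009000e0005) (nat_lit 0x9101a000802350) (nat_lit 16) Lb.e (@T16.mk En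
    (@En.n l2116 (nat_lit 6340) (nat_lit 8) (nat_lit 5))
    (@En.n l3 (nat_lit 7796) (nat_lit 10) (nat_lit 14))
    (@En.n l28793 (nat_lit 7794) (nat_lit 11) (nat_lit 9))
    (@En.n l25328 (nat_lit 2666) (nat_lit 3) (nat_lit 11))
    (@En.n l24421 (nat_lit 5748) (nat_lit 4) (nat_lit 6))
    (@En.n l31973 (nat_lit 9442) (nat_lit 14) (nat_lit 11))
    (@En.n l32123 (nat_lit 3460) (nat_lit 6) (nat_lit 6))
    (@En.n l28 (nat_lit 7795) (nat_lit 7) (nat_lit 2))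
    (@En.n l5246 (nat_lit 5881) (nat_lit 8) (nat_lit 5))
    (@En.i (nat_lit 8349) (nat_lit 10) (nat_lit 14))
    (@En.n l24421 (nat_lit 2641) (nat_lit 2) (nat_lit 10))
    (@En.n l8429 (nat_lit 7936) (nat_lit 12) (nat_lit 7))
    (@En.n l8478 (nat_lit 4078) (nat_lit 13) (nat_lit 10))
    (@En.n l31973 (nat_lit 7799) (nat_lit 14) (nat_lit 11))
    (@En.n l3106 (nat_lit 8076) (nat_lit 13) (nat_lit 5))
    (@En.n l17 (nat_lit 7795) (nat_lit 15) (nat_lit 2))))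
  (@Cl.mk (nat_lit 0x20006000c0006000b000e00040002000c0005000b000a0004000a000e0005) (nat_lit 0x902400a09106a0) (nat_lit 16) Lb.e (@T16.mk En
    (@En.n l5246 (nat_lit 5880) (nat_lit 7) (nat_lit 5))
    (@En.i (nat_lit 8368) (nat_lit 9) (nat_lit 14))
    (@En.n l253 (nat_lit 2639) (nat_lit 10) (nat_lit 10))
    (@En.n l1925 (nat_lit 7797) (nat_lit 3) (nat_lit 4))
    (@En.i (nat_lit 4080) (nat_lit 4) (nat_lit 10))
    (@En.n l170 (nat_lit 10878) (nat_lit 13) (nat_lit 11))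
    (@En.i (nat_lit 7795) (nat_lit 14) (nat_lit 5))
    (@En.n l2125 (nat_lit 5166) (nat_lit 8) (nat_lit 12))
    (@En.n l17 (nat_lit 7796) (nat_lit 8) (nat_lit 2))
    (@En.n l2116 (nat_lit 6308) (nat_lit 9) (nat_lit 4))
    (@En.i (nat_lit 5123) (nat_lit 11) (nat_lit 14))
    (@En.n l39365 (nat_lit 3078) (nat_lit 12) (nat_lit 11))
    (@En.i (nat_lit 5742) (nat_lit 13) (nat_lit 6))
    (@En.n l170 (nat_lit 9446) (nat_lit 14) (nat_lit 12))
    (@En.n l5175 (nat_lit 3457) (nat_lit 5) (nat_lit 6))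
    (@En.n l28 (nat_lit 7796) (nat_lit 15) (nat_lit 2))))
  (@Cl.mk (nat_lit 0x20008000c0006000a000e00040002000c00080006000c0004000a000e0004) (nat_lit 0x4a0240084030650) (nat_lit 16) Lb.e (@T16.mk En
    (@En.n l38520 (nat_lit 7800) (nat_lit 7) (nat_lit 4))
    (@En.i (nat_lit 6424) (nat_lit 9) (nat_lit 14))
    (@En.n l1504 (nat_lit 6959) (nat_lit 10) (nat_lit 10))
    (@En.i (nat_lit 7794) (nat_lit 3) (nat_lit 4))
    (@En.n l1643 (nat_lit 10876) (nat_lit 12) (nat_lit 12))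
    (@En.n l97 (nat_lit 7934) (nat_lit 5) (nat_lit 6))
    (@En.i (nat_lit 8923) (nat_lit 14) (nat_lit 8))
    (@En.i (nat_lit 10969) (nat_lit 8) (nat_lit 12))
    (@En.n l28 (nat_lit 7797) (nat_lit 8) (nat_lit 2))
    (@En.n l25111 (nat_lit 7091) (nat_lit 9) (nat_lit 4))
    (@En.n l4758 (nat_lit 7028) (nat_lit 11) (nat_lit 14))
    (@En.n l24348 (nat_lit 3771) (nat_lit 12) (nat_lit 10))
    (@En.i (nat_lit 5747) (nat_lit 13) (nat_lit 6))
    (@En.n l1643 (nat_lit 8620) (nat_lit 14) (nat_lit 12))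
    (@En.n l38518 (nat_lit 8116) (nat_lit 5) (nat_lit 8))
    (@En.n l17 (nat_lit 7797) (nat_lit 15) (nat_lit 2))))
  (@Cl.mk (nat_lit 0x2000a00080006000c0009000d0006000400030008000c0007000a000e0004) (nat_lit 0x7502550003a02c0) (nat_lit 16) Lb.e (@T16.mk En
    (@En.n l8356 (nat_lit 7098) (nat_lit 9) (nat_lit 4))
    (@En.n l4758 (nat_lit 7026) (nat_lit 1) (nat_lit 14))
    (@En.n l29016 (nat_lit 3688) (nat_lit 2) (nat_lit 10))
    (@En.i (nat_lit 11576) (nat_lit 3) (nat_lit 7))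
    (@En.n l1643 (nat_lit 8616) (nat_lit 7) (nat_lit 12))
    (@En.n l29017 (nat_lit 7392) (nat_lit 5) (nat_lit 8))
    (@En.n l2101 (nat_lit 7801) (nat_lit 6) (nat_lit 3))
    (@En.n l18 (nat_lit 7797) (nat_lit 0) (nat_lit 4))
    (@En.n l29018 (nat_lit 7804) (nat_lit 8) (nat_lit 6))
    (@En.i (nat_lit 6425) (nat_lit 10) (nat_lit 13))
    (@En.n l29019 (nat_lit 7799) (nat_lit 11) (nat_lit 9))
    (@En.n l1643 (nat_lit 7807) (nat_lit 12) (nat_lit 12))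
    (@En.n l97 (nat_lit 7128) (nat_lit 13) (nat_lit 6))
    (@En.n l29020 (nat_lit 8913) (nat_lit 14) (nat_lit 8))
    (@En.i (nat_lit 9845) (nat_lit 8) (nat_lit 10))
    (@En.n l28 (nat_lit 7798) (nat_lit 15) (nat_lit 2))))
  (@Cl.mk (nat_lit 0x2000b000900060009000d0005000b00030007000b00070005000a000e0005) (nat_lit 0x8704402009003c0) (nat_lit 16) Lb.e (@T16.mk En
    (@En.n l23295 (nat_lit 7105) (nat_lit 8) (nat_lit 5))
    (@En.n l17555 (nat_lit 10878) (nat_lit 1) (nat_lit 14))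
    (@En.n l41589 (nat_lit 7798) (nat_lit 2) (nat_lit 10))
    (@En.n l32125 (nat_lit 7800) (nat_lit 3) (nat_lit 5))
    (@En.n l41590 (nat_lit 11578) (nat_lit 4) (nat_lit 7))
    (@En.i (nat_lit 10323) (nat_lit 8) (nat_lit 11))
    (@En.n l9644 (nat_lit 7399) (nat_lit 6) (nat_lit 7))
    (@En.n l10584 (nat_lit 7803) (nat_lit 7) (nat_lit 3))
    (@En.n l17556 (nat_lit 6957) (nat_lit 9) (nat_lit 11))
    (@En.i (nat_lit 7805) (nat_lit 9) (nat_lit 5))
    (@En.n l31748 (nat_lit 6430) (nat_lit 11) (nat_lit 13))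
    (@En.i (nat_lit 12339) (nat_lit 12) (nat_lit 9))
    (@En.n l4659 (nat_lit 7129) (nat_lit 13) (nat_lit 6))
    (@En.n l24145 (nat_lit 10776) (nat_lit 14) (nat_lit 9))
    (@En.n l31748 (nat_lit 9844) (nat_lit 7) (nat_lit 11))
    (@En.n l11 (nat_lit 7799) (nat_lit 15) (nat_lit 2))))
  (@Cl.mk (nat_lit 0x2000b00080006000c000c0005000b000400040008000c0005000a000e0004) (nat_lit 0x8402403003a0360) (nat_lit 16) Lb.e (@T16.mk En
    (@En.n l38522 (nat_lit 7092) (nat_lit 8) (nat_lit 4))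
    (@En.i (nat_lit 7034) (nat_lit 1) (nat_lit 14))
    (@En.n l41480 (nat_lit 3690) (nat_lit 2) (nat_lit 10))
    (@En.n l31563 (nat_lit 8006) (nat_lit 3) (nat_lit 5))
    (@En.n l16834 (nat_lit 8607) (nat_lit 7) (nat_lit 12))
    (@En.n l5584 (nat_lit 8099) (nat_lit 5) (nat_lit 8))
    (@En.n l55 (nat_lit 8004) (nat_lit 12) (nat_lit 4))
    (@En.n l22924 (nat_lit 7798) (nat_lit 7) (nat_lit 4))
    (@En.n l41481 (nat_lit 6962) (nat_lit 9) (nat_lit 11))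
    (@En.i (nat_lit 7806) (nat_lit 9) (nat_lit 5))
    (@En.n l41482 (nat_lit 7797) (nat_lit 4) (nat_lit 12))
    (@En.n l22384 (nat_lit 10874) (nat_lit 12) (nat_lit 12))
    (@En.n l5588 (nat_lit 7131) (nat_lit 13) (nat_lit 6))
    (@En.n l4758 (nat_lit 10749) (nat_lit 14) (nat_lit 8))
    (@En.n l22924 (nat_lit 8563) (nat_lit 14) (nat_lit 11))
    (@En.n l17 (nat_lit 7800) (nat_lit 15) (nat_lit 2))))
  (@Cl.mk (nat_lit 0x2000900080006000d0009000d0003000700030008000c0007000a000e0004) (nat_lit 0x5506540001a0210) (nat_lit 16) Lb.e (@T16.mk En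
    (@En.n l23144 (nat_lit 7102) (nat_lit 7) (nat_lit 4))
    (@En.n l3486 (nat_lit 3921) (nat_lit 1) (nat_lit 14))
    (@En.n l253 (nat_lit 3684) (nat_lit 2) (nat_lit 10))
    (@En.i (nat_lit 11575) (nat_lit 3) (nat_lit 7))
    (@En.i (nat_lit 8618) (nat_lit 12) (nat_lit 12))
    (@En.n l33756 (nat_lit 3411) (nat_lit 5) (nat_lit 8))
    (@En.n l3291 (nat_lit 7798) (nat_lit 6) (nat_lit 3))
    (@En.n l253 (nat_lit 11232) (nat_lit 0) (nat_lit 7))
    (@En.n l2843 (nat_lit 7802) (nat_lit 8) (nat_lit 3))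
    (@En.i (nat_lit 6428) (nat_lit 0) (nat_lit 13))
    (@En.i (nat_lit 7803) (nat_lit 11) (nat_lit 9))
    (@En.n l33756 (nat_lit 10734) (nat_lit 12) (nat_lit 13))
    (@En.n l3549 (nat_lit 7124) (nat_lit 13) (nat_lit 6))
    (@En.n l23382 (nat_lit 8815) (nat_lit 14) (nat_lit 8))
    (@En.n l13756 (nat_lit 10568) (nat_lit 5) (nat_lit 9))
    (@En.n l11 (nat_lit 7801) (nat_lit 15) (nat_lit 2))))
  (@Cl.mk (nat_lit 0x2000900080006000d000c000a0003000700040008000c0006000a000e0004) (nat_lit 0x550638000250310) (nat_lit 16) Lb.e (@T16.mk En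
    (@En.n l39753 (nat_lit 7103) (nat_lit 7) (nat_lit 4))
    (@En.i (nat_lit 5529) (nat_lit 1) (nat_lit 14))
    (@En.n l11244 (nat_lit 3685) (nat_lit 2) (nat_lit 10))
    (@En.i (nat_lit 11574) (nat_lit 3) (nat_lit 6))
    (@En.i (nat_lit 8613) (nat_lit 12) (nat_lit 12))
    (@En.n l34120 (nat_lit 4519) (nat_lit 5) (nat_lit 8))
    (@En.n l2869 (nat_lit 7800) (nat_lit 6) (nat_lit 4))
    (@En.i (nat_lit 11140) (nat_lit 7) (nat_lit 7))
    (@En.n l5368 (nat_lit 7801) (nat_lit 8) (nat_lit 3))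
    (@En.n l3522 (nat_lit 7999) (nat_lit 0) (nat_lit 10))
    (@En.n l16894 (nat_lit 7798) (nat_lit 11) (nat_lit 12))
    (@En.n l31808 (nat_lit 10735) (nat_lit 12) (nat_lit 13))
    (@En.n l1723 (nat_lit 7123) (nat_lit 13) (nat_lit 6))
    (@En.n l9155 (nat_lit 10751) (nat_lit 14) (nat_lit 8))
    (@En.i (nat_lit 10570) (nat_lit 5) (nat_lit 9))
    (@En.n l7 (nat_lit 7802) (nat_lit 15) (nat_lit 2))))
  (@Cl.mk (nat_lit 0x2000a000900060009000d000a000600030007000b00070006000a000e0005) (nat_lit 0x6704330009003c0) (nat_lit 16) Lb.e (@T16.mk En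
    (@En.n l23144 (nat_lit 7104) (nat_lit 8) (nat_lit 5))
    (@En.n l1330 (nat_lit 10877) (nat_lit 1) (nat_lit 14))
    (@En.n l50 (nat_lit 7801) (nat_lit 2) (nat_lit 10))
    (@En.n l1330 (nat_lit 7802) (nat_lit 3) (nat_lit 6))
    (@En.n l37981 (nat_lit 11577) (nat_lit 4) (nat_lit 7))
    (@En.i (nat_lit 10317) (nat_lit 8) (nat_lit 11))
    (@En.n l39767 (nat_lit 3407) (nat_lit 6) (nat_lit 7))
    (@En.n l24852 (nat_lit 7799) (nat_lit 7) (nat_lit 3))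
    (@En.n l35983 (nat_lit 11231) (nat_lit 0) (nat_lit 6))
    (@En.n l24853 (nat_lit 10994) (nat_lit 10) (nat_lit 10))
    (@En.n l1012 (nat_lit 6431) (nat_lit 11) (nat_lit 13))
    (@En.n l22476 (nat_lit 12341) (nat_lit 12) (nat_lit 9))
    (@En.n l1782 (nat_lit 7127) (nat_lit 13) (nat_lit 6))
    (@En.n l23382 (nat_lit 9977) (nat_lit 14) (nat_lit 9))
    (@En.n l13756 (nat_lit 10565) (nat_lit 7) (nat_lit 10))
    (@En.n l11 (nat_lit 7803) (nat_lit 15) (nat_lit 2))))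
  (@Cl.mk (nat_lit 0x2000a000900090007000d000a0006000300070007000c00060009000e0004) (nat_lit 0x2650950000a0350) (nat_lit 16) Lb.e (@T16.mk En
    (@En.n l41572 (nat_lit 7107) (nat_lit 8) (nat_lit 4))
    (@En.n l41573 (nat_lit 5341) (nat_lit 1) (nat_lit 14))
    (@En.n l37852 (nat_lit 3914) (nat_lit 9) (nat_lit 9))
    (@En.n l41574 (nat_lit 5269) (nat_lit 3) (nat_lit 6))
    (@En.n l17235 (nat_lit 10584) (nat_lit 13) (nat_lit 12))
    (@En.n l644 (nat_lit 11032) (nat_lit 9) (nat_lit 7))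
    (@En.i (nat_lit 7929) (nat_lit 6) (nat_lit 7))
    (@En.n l4270 (nat_lit 7806) (nat_lit 7) (nat_lit 3))
    (@En.n l41575 (nat_lit 8976) (nat_lit 0) (nat_lit 6))
    (@En.n l41576 (nat_lit 7805) (nat_lit 10) (nat_lit 10))
    (@En.n l7489 (nat_lit 5615) (nat_lit 11) (nat_lit 13))
    (@En.n l7983 (nat_lit 7132) (nat_lit 12) (nat_lit 7))
    (@En.n l41577 (nat_lit 12797) (nat_lit 13) (nat_lit 9))
    (@En.n l17235 (nat_lit 7801) (nat_lit 14) (nat_lit 9))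
    (@En.n l810 (nat_lit 4538) (nat_lit 7) (nat_lit 10))
    (@En.n l11 (nat_lit 7804) (nat_lit 15) (nat_lit 2))))
  (@Cl.mk (nat_lit 0x2000b000a000a0007000a0005000b00060006000b000600050009000e0005) (nat_lit 0x275040800200450) (nat_lit 16) Lb.e (@T16.mk En
    (@En.n l32124 (nat_lit 7988) (nat_lit 15) (nat_lit 5))
    (@En.n l32125 (nat_lit 5616) (nat_lit 1) (nat_lit 14))
    (@En.n l32126 (nat_lit 7804) (nat_lit 2) (nat_lit 9))
    (@En.n l32125 (nat_lit 7806) (nat_lit 3) (nat_lit 5))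
    (@En.n l32127 (nat_lit 5270) (nat_lit 4) (nat_lit 6))
    (@En.i (nat_lit 10582) (nat_lit 6) (nat_lit 11))
    (@En.n l9644 (nat_lit 11033) (nat_lit 10) (nat_lit 6))
    (@En.n l32128 (nat_lit 7931) (nat_lit 7) (nat_lit 6))
    (@En.n l19567 (nat_lit 11557) (nat_lit 9) (nat_lit 11))
    (@En.n l31748 (nat_lit 8948) (nat_lit 9) (nat_lit 5))
    (@En.n l19567 (nat_lit 12342) (nat_lit 11) (nat_lit 10))
    (@En.n l4659 (nat_lit 7133) (nat_lit 12) (nat_lit 7))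
    (@En.n l32129 (nat_lit 12798) (nat_lit 6) (nat_lit 10))
    (@En.n l32130 (nat_lit 7803) (nat_lit 14) (nat_lit 10))
    (@En.n l19567 (nat_lit 4536) (nat_lit 4) (nat_lit 11))
    (@En.n l11 (nat_lit 7805) (nat_lit 15) (nat_lit 2))))
  (@Cl.mk (nat_lit 0x2000b000900090007000d0005000b000300070007000c00050009000e0004) (nat_lit 0x965080900040350) (nat_lit 16) Lb.e (@T16.mk En
    (@En.n l37111 (nat_lit 7987) (nat_lit 8) (nat_lit 4))
    (@En.i (nat_lit 5571) (nat_lit 1) (nat_lit 14))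
    (@En.n l12928 (nat_lit 3913) (nat_lit 2) (nat_lit 9))
    (@En.i (nat_lit 8016) (nat_lit 3) (nat_lit 5))
    (@En.n l1897 (nat_lit 10587) (nat_lit 13) (nat_lit 12))
    (@En.n l5584 (nat_lit 11034) (nat_lit 9) (nat_lit 7))
    (@En.n l55 (nat_lit 11142) (nat_lit 6) (nat_lit 7))
    (@En.n l25750 (nat_lit 7804) (nat_lit 7) (nat_lit 3))
    (@En.n l37112 (nat_lit 12762) (nat_lit 9) (nat_lit 11))
    (@En.n l12924 (nat_lit 5882) (nat_lit 9) (nat_lit 5))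
    (@En.n l37113 (nat_lit 5614) (nat_lit 11) (nat_lit 13))
    (@En.n l5588 (nat_lit 7134) (nat_lit 12) (nat_lit 7))
    (@En.n l12926 (nat_lit 12796) (nat_lit 7) (nat_lit 9))
    (@En.n l649 (nat_lit 7802) (nat_lit 14) (nat_lit 9))
    (@En.i (nat_lit 11444) (nat_lit 7) (nat_lit 11))
    (@En.n l17 (nat_lit 7806) (nat_lit 15) (nat_lit 2))))
  (@Cl.mk (nat_lit 0x2000b0008000c0008000c00050004000b00040008000c00080005000e0004) (nat_lit 0x7513300304040c0) (nat_lit 16) Lb.e (@T16.mk En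
    (@En.n l117 (nat_lit 10255) (nat_lit 15) (nat_lit 4))
    (@En.n l3348 (nat_lit 5628) (nat_lit 1) (nat_lit 14))
    (@En.n l10995 (nat_lit 7037) (nat_lit 2) (nat_lit 5))
    (@En.i (nat_lit 11584) (nat_lit 3) (nat_lit 8))
    (@En.i (nat_lit 10287) (nat_lit 5) (nat_lit 12))
    (@En.n l19493 (nat_lit 8660) (nat_lit 5) (nat_lit 8))
    (@En.n l3348 (nat_lit 10736) (nat_lit 6) (nat_lit 4))
    (@En.n l5649 (nat_lit 7799) (nat_lit 8) (nat_lit 11))
    (@En.n l50 (nat_lit 10876) (nat_lit 8) (nat_lit 4))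
    (@En.n l38420 (nat_lit 5615) (nat_lit 9) (nat_lit 5))
    (@En.i (nat_lit 8681) (nat_lit 11) (nat_lit 12))
    (@En.i (nat_lit 12338) (nat_lit 12) (nat_lit 8))
    (@En.n l17170 (nat_lit 7777) (nat_lit 13) (nat_lit 12))
    (@En.i (nat_lit 10270) (nat_lit 14) (nat_lit 8))
    (@En.i (nat_lit 9846) (nat_lit 14) (nat_lit 11))
    (@En.n l11 (nat_lit 7807) (nat_lit 15) (nat_lit 2))))
noncomputable def a488 : T16 Cl := @T16.mk Cl
  (@Cl.mk (nat_lit 0x200080006000d0009000d0003000a00030008000b0007000a0006000e0005) (nat_lit 0x108680202101020) (nat_lit 16) Lb.e (@T16.mk En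
    (@En.n l11728 (nat_lit 4655) (nat_lit 8) (nat_lit 5))
    (@En.n l7678 (nat_lit 7801) (nat_lit 1) (nat_lit 14))
    (@En.n l12508 (nat_lit 7850) (nat_lit 2) (nat_lit 6))
    (@En.i (nat_lit 2215) (nat_lit 3) (nat_lit 10))
    (@En.n l763 (nat_lit 9869) (nat_lit 4) (nat_lit 7))
    (@En.n l617 (nat_lit 2939) (nat_lit 7) (nat_lit 11))
    (@En.n l1807 (nat_lit 3129) (nat_lit 6) (nat_lit 8))
    (@En.n l34529 (nat_lit 4647) (nat_lit 7) (nat_lit 3))
    (@En.n l5556 (nat_lit 5286) (nat_lit 0) (nat_lit 10))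
    (@En.n l1459 (nat_lit 7810) (nat_lit 9) (nat_lit 3))
    (@En.n l39912 (nat_lit 2349) (nat_lit 11) (nat_lit 13))
    (@En.n l1807 (nat_lit 4656) (nat_lit 12) (nat_lit 9))
    (@En.n l4542 (nat_lit 7753) (nat_lit 13) (nat_lit 13))
    (@En.n l4793 (nat_lit 11271) (nat_lit 14) (nat_lit 6))
    (@En.n l11729 (nat_lit 4655) (nat_lit 6) (nat_lit 8))
    (@En.n l50 (nat_lit 7808) (nat_lit 15) (nat_lit 2))))
  (@Cl.mk (nat_lit 0x3000900040008000b000b0007000b00070005000500080005000d000c0009) (nat_lit 0x102820500000616) (nat_lit 16) Lb.e (@T16.mk En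
    (@En.n l39974 (nat_lit 4639) (nat_lit 0) (nat_lit 9))
    (@En.n l226 (nat_lit 4648) (nat_lit 4) (nat_lit 12))
    (@En.n l39975 (nat_lit 7749) (nat_lit 2) (nat_lit 13))
    (@En.n l226 (nat_lit 11202) (nat_lit 3) (nat_lit 5))
    (@En.n l28 (nat_lit 7811) (nat_lit 10) (nat_lit 8))
    (@En.n l77 (nat_lit 7811) (nat_lit 11) (nat_lit 5))
    (@En.n l33662 (nat_lit 10815) (nat_lit 6) (nat_lit 5))
    (@En.n l39976 (nat_lit 7851) (nat_lit 7) (nat_lit 7))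
    (@En.n l33662 (nat_lit 2214) (nat_lit 8) (nat_lit 11))
    (@En.i (nat_lit 9872) (nat_lit 10) (nat_lit 7))
    (@En.n l39977 (nat_lit 7810) (nat_lit 5) (nat_lit 11))
    (@En.n l33662 (nat_lit 7245) (nat_lit 7) (nat_lit 11))
    (@En.n l39978 (nat_lit 3119) (nat_lit 11) (nat_lit 8))
    (@En.i (nat_lit 5986) (nat_lit 14) (nat_lit 4))
    (@En.i (nat_lit 6551) (nat_lit 0) (nat_lit 9))
    (@En.n l4550 (nat_lit 4655) (nat_lit 1) (nat_lit 3))))
  (@Cl.mk (nat_lit 0x200080006000d000c000a0003000a00040008000b0006000a0006000e0005) (nat_lit 0x108170102101020) (nat_lit 16) Lb.e (@T16.mk En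
    (@En.n l25608 (nat_lit 7809) (nat_lit 6) (nat_lit 5))
    (@En.n l18240 (nat_lit 7802) (nat_lit 1) (nat_lit 14))
    (@En.n l1690 (nat_lit 7852) (nat_lit 2) (nat_lit 6))
    (@En.n l17308 (nat_lit 2216) (nat_lit 3) (nat_lit 10))
    (@En.i (nat_lit 9870) (nat_lit 4) (nat_lit 6))
    (@En.n l18240 (nat_lit 2942) (nat_lit 7) (nat_lit 11))
    (@En.i (nat_lit 3128) (nat_lit 6) (nat_lit 8))
    (@En.n l18240 (nat_lit 5987) (nat_lit 7) (nat_lit 4))
    (@En.n l18240 (nat_lit 6550) (nat_lit 9) (nat_lit 10))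
    (@En.n l2385 (nat_lit 7808) (nat_lit 9) (nat_lit 3))
    (@En.n l8932 (nat_lit 4641) (nat_lit 11) (nat_lit 10))
    (@En.n l12096 (nat_lit 4647) (nat_lit 12) (nat_lit 12))
    (@En.n l619 (nat_lit 7836) (nat_lit 13) (nat_lit 13))
    (@En.n l7074 (nat_lit 9892) (nat_lit 14) (nat_lit 6))
    (@En.n l25609 (nat_lit 7809) (nat_lit 4) (nat_lit 8))
    (@En.n l18 (nat_lit 7810) (nat_lit 15) (nat_lit 2))))
  (@Cl.mk (nat_lit 0x20008000c0008000500080004000d000c00080003000800040008000e000b) (nat_lit 0x662060525010289) (nat_lit 16) Lb.e (@T16.mk En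
    (@En.i (nat_lit 7809) (nat_lit 11) (nat_lit 11))
    (@En.n l134 (nat_lit 7813) (nat_lit 1) (nat_lit 14))
    (@En.n l899 (nat_lit 3120) (nat_lit 2) (nat_lit 8))
    (@En.i (nat_lit 7877) (nat_lit 3) (nat_lit 4))
    (@En.i (nat_lit 6553) (nat_lit 4) (nat_lit 8))
    (@En.n l1865 (nat_lit 7812) (nat_lit 5) (nat_lit 3))
    (@En.n l97 (nat_lit 4640) (nat_lit 0) (nat_lit 8))
    (@En.n l3866 (nat_lit 4653) (nat_lit 8) (nat_lit 12))
    (@En.n l1110 (nat_lit 7750) (nat_lit 9) (nat_lit 13))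
    (@En.n l18 (nat_lit 11201) (nat_lit 9) (nat_lit 4))
    (@En.n l20665 (nat_lit 13635) (nat_lit 10) (nat_lit 8))
    (@En.n l33591 (nat_lit 10817) (nat_lit 12) (nat_lit 5))
    (@En.n l61 (nat_lit 7862) (nat_lit 13) (nat_lit 8))
    (@En.n l649 (nat_lit 2212) (nat_lit 14) (nat_lit 12))
    (@En.i (nat_lit 9875) (nat_lit 2) (nat_lit 8))
    (@En.n l7 (nat_lit 7811) (nat_lit 15) (nat_lit 2))))
  (@Cl.mk (nat_lit 0x20009000c0008000500080004000d0007000d0003000800030008000e000b) (nat_lit 0x512060507010281) (nat_lit 16) Lb.e (@T16.mk En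
    (@En.n l1643 (nat_lit 4655) (nat_lit 13) (nat_lit 11))
    (@En.n l4684 (nat_lit 7814) (nat_lit 1) (nat_lit 14))
    (@En.n l170 (nat_lit 3121) (nat_lit 2) (nat_lit 8))
    (@En.n l3291 (nat_lit 4653) (nat_lit 3) (nat_lit 3))
    (@En.i (nat_lit 6507) (nat_lit 0) (nat_lit 8))
    (@En.n l2869 (nat_lit 7811) (nat_lit 5) (nat_lit 3))
    (@En.n l1997 (nat_lit 2352) (nat_lit 7) (nat_lit 13))
    (@En.n l11512 (nat_lit 4657) (nat_lit 7) (nat_lit 7))
    (@En.i (nat_lit 7752) (nat_lit 9) (nat_lit 13))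
    (@En.n l28 (nat_lit 11205) (nat_lit 9) (nat_lit 4))
    (@En.i (nat_lit 13634) (nat_lit 10) (nat_lit 8))
    (@En.n l170 (nat_lit 10818) (nat_lit 7) (nat_lit 5))
    (@En.n l77 (nat_lit 7864) (nat_lit 13) (nat_lit 8))
    (@En.i (nat_lit 2211) (nat_lit 14) (nat_lit 12))
    (@En.n l7748 (nat_lit 9652) (nat_lit 11) (nat_lit 9))
    (@En.n l107 (nat_lit 7812) (nat_lit 15) (nat_lit 2))))
  (@Cl.mk (nat_lit 0x2000b0008000c0008000600050004000d000c0008000300080004000e000a) (nat_lit 0x352300057304078) (nat_lit 16) Lb.e (@T16.mk En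
    (@En.n l24726 (nat_lit 5855) (nat_lit 12) (nat_lit 10))
    (@En.n l24724 (nat_lit 5294) (nat_lit 1) (nat_lit 14))
    (@En.i (nat_lit 7485) (nat_lit 2) (nat_lit 4))
    (@En.i (nat_lit 6588) (nat_lit 3) (nat_lit 8))
    (@En.n l30339 (nat_lit 7814) (nat_lit 4) (nat_lit 3))
    (@En.n l97 (nat_lit 5848) (nat_lit 0) (nat_lit 8))
    (@En.n l38245 (nat_lit 7815) (nat_lit 7) (nat_lit 12))
    (@En.n l24659 (nat_lit 7161) (nat_lit 8) (nat_lit 13))
    (@En.n l26595 (nat_lit 11251) (nat_lit 8) (nat_lit 4))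
    (@En.i (nat_lit 5658) (nat_lit 9) (nat_lit 5))
    (@En.n l24726 (nat_lit 9399) (nat_lit 5) (nat_lit 6))
    (@En.n l61 (nat_lit 7162) (nat_lit 12) (nat_lit 8))
    (@En.n l24726 (nat_lit 3727) (nat_lit 13) (nat_lit 12))
    (@En.n l16289 (nat_lit 9736) (nat_lit 14) (nat_lit 8))
    (@En.n l7 (nat_lit 7809) (nat_lit 10) (nat_lit 11))
    (@En.n l28 (nat_lit 7813) (nat_lit 15) (nat_lit 2))))
  (@Cl.mk (nat_lit 0x2000b0009000c0008000600050004000d0007000d000300080003000e000a) (nat_lit 0x367300060704071) (nat_lit 16) Lb.e (@T16.mk En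
    (@En.i (nat_lit 2598) (nat_lit 12) (nat_lit 10))
    (@En.n l4019 (nat_lit 5293) (nat_lit 1) (nat_lit 14))
    (@En.i (nat_lit 7815) (nat_lit 2) (nat_lit 3))
    (@En.n l4019 (nat_lit 6499) (nat_lit 3) (nat_lit 8))
    (@En.n l24428 (nat_lit 7813) (nat_lit 4) (nat_lit 3))
    (@En.n l29268 (nat_lit 2353) (nat_lit 0) (nat_lit 13))
    (@En.i (nat_lit 7816) (nat_lit 6) (nat_lit 7))
    (@En.n l9775 (nat_lit 7158) (nat_lit 8) (nat_lit 13))
    (@En.n l6368 (nat_lit 11247) (nat_lit 8) (nat_lit 4))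
    (@En.n l4019 (nat_lit 6143) (nat_lit 9) (nat_lit 5))
    (@En.i (nat_lit 9400) (nat_lit 5) (nat_lit 6))
    (@En.n l12826 (nat_lit 7160) (nat_lit 12) (nat_lit 8))
    (@En.i (nat_lit 3728) (nat_lit 13) (nat_lit 12))
    (@En.n l61 (nat_lit 7819) (nat_lit 14) (nat_lit 9))
    (@En.n l6369 (nat_lit 4655) (nat_lit 12) (nat_lit 11))
    (@En.n l7 (nat_lit 7814) (nat_lit 15) (nat_lit 2))))
  (@Cl.mk (nat_lit 0x2000b0009000c0009000600050004000c0007000d000700040003000e000a) (nat_lit 0x351200060700071) (nat_lit 16) Lb.e (@T16.mk En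
    (@En.i (nat_lit 2596) (nat_lit 14) (nat_lit 10))
    (@En.n l15737 (nat_lit 9600) (nat_lit 1) (nat_lit 14))
    (@En.n l11 (nat_lit 7814) (nat_lit 2) (nat_lit 3))
    (@En.n l2208 (nat_lit 7920) (nat_lit 3) (nat_lit 4))
    (@En.i (nat_lit 4359) (nat_lit 4) (nat_lit 7))
    (@En.n l12830 (nat_lit 2355) (nat_lit 6) (nat_lit 13))
    (@En.n l15738 (nat_lit 7817) (nat_lit 6) (nat_lit 7))
    (@En.n l15739 (nat_lit 7818) (nat_lit 8) (nat_lit 12))
    (@En.n l15740 (nat_lit 11249) (nat_lit 8) (nat_lit 4))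
    (@En.n l12830 (nat_lit 6156) (nat_lit 9) (nat_lit 5))
    (@En.i (nat_lit 9401) (nat_lit 1) (nat_lit 6))
    (@En.n l12830 (nat_lit 7917) (nat_lit 12) (nat_lit 9))
    (@En.i (nat_lit 3729) (nat_lit 13) (nat_lit 12))
    (@En.n l61 (nat_lit 7820) (nat_lit 14) (nat_lit 9))
    (@En.n l2212 (nat_lit 4648) (nat_lit 12) (nat_lit 11))
    (@En.n l7 (nat_lit 7815) (nat_lit 15) (nat_lit 2))))
  (@Cl.mk (nat_lit 0x2000a00090008000c00090007000600040007000d000800070003000e0009) (nat_lit 0x376840000510061) (nat_lit 16) Lb.e (@T16.mk En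
    (@En.i (nat_lit 2597) (nat_lit 14) (nat_lit 9))
    (@En.n l23649 (nat_lit 5291) (nat_lit 1) (nat_lit 14))
    (@En.n l15738 (nat_lit 7817) (nat_lit 2) (nat_lit 3))
    (@En.n l34852 (nat_lit 6498) (nat_lit 3) (nat_lit 7))
    (@En.n l37678 (nat_lit 5269) (nat_lit 4) (nat_lit 8))
    (@En.n l12823 (nat_lit 1749) (nat_lit 6) (nat_lit 13))
    (@En.n l37679 (nat_lit 1649) (nat_lit 6) (nat_lit 7))
    (@En.n l6368 (nat_lit 11248) (nat_lit 7) (nat_lit 4))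
    (@En.n l34852 (nat_lit 6098) (nat_lit 8) (nat_lit 6))
    (@En.i (nat_lit 9402) (nat_lit 1) (nat_lit 7))
    (@En.n l1347 (nat_lit 7159) (nat_lit 11) (nat_lit 9))
    (@En.n l3 (nat_lit 7814) (nat_lit 12) (nat_lit 12))
    (@En.n l37680 (nat_lit 7813) (nat_lit 13) (nat_lit 8))
    (@En.n l61 (nat_lit 7821) (nat_lit 14) (nat_lit 9))
    (@En.n l6369 (nat_lit 4654) (nat_lit 12) (nat_lit 10))
    (@En.n l7 (nat_lit 7816) (nat_lit 15) (nat_lit 2))))
  (@Cl.mk (nat_lit 0x2000a00090007000c000a0007000600040007000d000600090003000e0009) (nat_lit 0x160230000503091) (nat_lit 16) Lb.e (@T16.mk En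
    (@En.n l30359 (nat_lit 2594) (nat_lit 14) (nat_lit 9))
    (@En.n l21286 (nat_lit 9599) (nat_lit 1) (nat_lit 14))
    (@En.n l30360 (nat_lit 7816) (nat_lit 2) (nat_lit 3))
    (@En.n l30361 (nat_lit 5734) (nat_lit 9) (nat_lit 9))
    (@En.n l30362 (nat_lit 4361) (nat_lit 4) (nat_lit 6))
    (@En.i (nat_lit 1757) (nat_lit 6) (nat_lit 13))
    (@En.n l26836 (nat_lit 1648) (nat_lit 6) (nat_lit 7))
    (@En.n l7 (nat_lit 11250) (nat_lit 7) (nat_lit 4))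
    (@En.i (nat_lit 6112) (nat_lit 8) (nat_lit 6))
    (@En.n l30363 (nat_lit 9758) (nat_lit 1) (nat_lit 7))
    (@En.n l25278 (nat_lit 7818) (nat_lit 11) (nat_lit 10))
    (@En.n l30364 (nat_lit 7815) (nat_lit 12) (nat_lit 12))
    (@En.n l3480 (nat_lit 7485) (nat_lit 13) (nat_lit 7))
    (@En.n l30361 (nat_lit 8571) (nat_lit 14) (nat_lit 9))
    (@En.n l9780 (nat_lit 4645) (nat_lit 12) (nat_lit 10))
    (@En.n l107 (nat_lit 7817) (nat_lit 15) (nat_lit 2))))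
  (@Cl.mk (nat_lit 0x2000b000a0007000a00060005000c0006000c0006000400090004000e000a) (nat_lit 0x2602005050040a8) (nat_lit 16) Lb.e (@T16.mk En
    (@En.n l10903 (nat_lit 6891) (nat_lit 12) (nat_lit 10))
    (@En.n l10470 (nat_lit 9603) (nat_lit 1) (nat_lit 14))
    (@En.n l25648 (nat_lit 7159) (nat_lit 2) (nat_lit 4))
    (@En.n l30344 (nat_lit 7817) (nat_lit 3) (nat_lit 9))
    (@En.n l30345 (nat_lit 7915) (nat_lit 4) (nat_lit 4))
    (@En.n l10903 (nat_lit 4360) (nat_lit 5) (nat_lit 6))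
    (@En.n l30346 (nat_lit 2511) (nat_lit 7) (nat_lit 12))
    (@En.n l30347 (nat_lit 1188) (nat_lit 7) (nat_lit 6))
    (@En.n l287 (nat_lit 10859) (nat_lit 9) (nat_lit 12))
    (@En.n l11 (nat_lit 6198) (nat_lit 9) (nat_lit 5))
    (@En.n l30348 (nat_lit 9179) (nat_lit 11) (nat_lit 6))
    (@En.i (nat_lit 6894) (nat_lit 8) (nat_lit 10))
    (@En.n l30349 (nat_lit 7481) (nat_lit 13) (nat_lit 7))
    (@En.n l55 (nat_lit 8567) (nat_lit 14) (nat_lit 10))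
    (@En.n l615 (nat_lit 4650) (nat_lit 12) (nat_lit 11))
    (@En.n l3 (nat_lit 7818) (nat_lit 15) (nat_lit 2))))
  (@Cl.mk (nat_lit 0x20009000c00070005000c0004000c00070004000d000400090003000e000b) (nat_lit 0x560030500800029) (nat_lit 16) Lb.e (@T16.mk En
    (@En.n l644 (nat_lit 9054) (nat_lit 14) (nat_lit 11))
    (@En.i (nat_lit 5292) (nat_lit 1) (nat_lit 14))
    (@En.i (nat_lit 7820) (nat_lit 2) (nat_lit 3))
    (@En.i (nat_lit 10109) (nat_lit 3) (nat_lit 9))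
    (@En.n l117 (nat_lit 9736) (nat_lit 4) (nat_lit 4))
    (@En.n l1501 (nat_lit 7812) (nat_lit 6) (nat_lit 13))
    (@En.n l3480 (nat_lit 7695) (nat_lit 6) (nat_lit 4))
    (@En.i (nat_lit 7821) (nat_lit 7) (nat_lit 7))
    (@En.n l15675 (nat_lit 9006) (nat_lit 9) (nat_lit 12))
    (@En.n l6081 (nat_lit 11285) (nat_lit 9) (nat_lit 4))
    (@En.i (nat_lit 6678) (nat_lit 11) (nat_lit 12))
    (@En.i (nat_lit 9085) (nat_lit 12) (nat_lit 5))
    (@En.n l12503 (nat_lit 8770) (nat_lit 13) (nat_lit 7))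
    (@En.i (nat_lit 8523) (nat_lit 6) (nat_lit 12))
    (@En.i (nat_lit 9067) (nat_lit 12) (nat_lit 9))
    (@En.n l7 (nat_lit 7819) (nat_lit 15) (nat_lit 2))))
  (@Cl.mk (nat_lit 0x20009000c00080005000c0004000b00070004000d000800050003000e000b) (nat_lit 0x4960800008200b9) (nat_lit 16) Lb.e (@T16.mk En
    (@En.n l644 (nat_lit 8576) (nat_lit 14) (nat_lit 11))
    (@En.n l1080 (nat_lit 9601) (nat_lit 1) (nat_lit 14))
    (@En.n l11 (nat_lit 7819) (nat_lit 2) (nat_lit 3))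
    (@En.n l6384 (nat_lit 8291) (nat_lit 3) (nat_lit 5))
    (@En.i (nat_lit 6570) (nat_lit 4) (nat_lit 8))
    (@En.n l26838 (nat_lit 4653) (nat_lit 6) (nat_lit 13))
    (@En.n l3480 (nat_lit 8289) (nat_lit 6) (nat_lit 4))
    (@En.n l20276 (nat_lit 8571) (nat_lit 7) (nat_lit 7))
    (@En.n l30356 (nat_lit 8567) (nat_lit 9) (nat_lit 11))
    (@En.n l6081 (nat_lit 11287) (nat_lit 9) (nat_lit 4))
    (@En.n l30357 (nat_lit 6675) (nat_lit 11) (nat_lit 12))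
    (@En.i (nat_lit 9094) (nat_lit 12) (nat_lit 5))
    (@En.n l30358 (nat_lit 8569) (nat_lit 13) (nat_lit 8))
    (@En.i (nat_lit 8522) (nat_lit 6) (nat_lit 12))
    (@En.n l9309 (nat_lit 9066) (nat_lit 12) (nat_lit 9))
    (@En.n l7 (nat_lit 7820) (nat_lit 15) (nat_lit 2))))
  (@Cl.mk (nat_lit 0x200090007000c00080006000d000400070003000d000900080003000e000a) (nat_lit 0x60730b000600028) (nat_lit 16) Lb.e (@T16.mk En
    (@En.n l644 (nat_lit 9050) (nat_lit 14) (nat_lit 10))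
    (@En.n l22498 (nat_lit 5290) (nat_lit 1) (nat_lit 14))
    (@En.n l20276 (nat_lit 8571) (nat_lit 2) (nat_lit 3))
    (@En.n l22499 (nat_lit 10108) (nat_lit 3) (nat_lit 8))
    (@En.n l22233 (nat_lit 11575) (nat_lit 4) (nat_lit 9))
    (@En.n l22500 (nat_lit 4657) (nat_lit 6) (nat_lit 13))
    (@En.n l22501 (nat_lit 10104) (nat_lit 6) (nat_lit 3))
    (@En.n l22499 (nat_lit 1651) (nat_lit 11) (nat_lit 7))
    (@En.n l22502 (nat_lit 11283) (nat_lit 8) (nat_lit 4))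
    (@En.n l22503 (nat_lit 6679) (nat_lit 10) (nat_lit 13))
    (@En.i (nat_lit 9089) (nat_lit 1) (nat_lit 6))
    (@En.n l22504 (nat_lit 9008) (nat_lit 12) (nat_lit 8))
    (@En.n l3 (nat_lit 7819) (nat_lit 13) (nat_lit 12))
    (@En.n l9309 (nat_lit 9990) (nat_lit 14) (nat_lit 7))
    (@En.n l22505 (nat_lit 9642) (nat_lit 12) (nat_lit 9))
    (@En.n l7 (nat_lit 7821) (nat_lit 15) (nat_lit 2))))
  (@Cl.mk (nat_lit 0x20008000c000b000900090004000a00050008000b000700070006000e0005) (nat_lit 0x2a8620102900010) (nat_lit 16) Lb.e (@T16.mk En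
    (@En.i (nat_lit 5460) (nat_lit 6) (nat_lit 5))
    (@En.n l28744 (nat_lit 2804) (nat_lit 1) (nat_lit 14))
    (@En.i (nat_lit 7607) (nat_lit 2) (nat_lit 6))
    (@En.n l2491 (nat_lit 8230) (nat_lit 9) (nat_lit 7))
    (@En.n l14987 (nat_lit 9343) (nat_lit 4) (nat_lit 7))
    (@En.n l1643 (nat_lit 5938) (nat_lit 7) (nat_lit 11))
    (@En.n l25842 (nat_lit 3196) (nat_lit 6) (nat_lit 8))
    (@En.n l36089 (nat_lit 6020) (nat_lit 7) (nat_lit 5))
    (@En.n l25842 (nat_lit 961) (nat_lit 9) (nat_lit 10))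
    (@En.n l3100 (nat_lit 5471) (nat_lit 9) (nat_lit 4))
    (@En.n l14990 (nat_lit 7824) (nat_lit 7) (nat_lit 9))
    (@En.n l12969 (nat_lit 5185) (nat_lit 12) (nat_lit 9))
    (@En.n l40230 (nat_lit 7829) (nat_lit 13) (nat_lit 11))
    (@En.n l27040 (nat_lit 9118) (nat_lit 14) (nat_lit 12))
    (@En.n l617 (nat_lit 5460) (nat_lit 4) (nat_lit 8))
    (@En.n l17 (nat_lit 7822) (nat_lit 15) (nat_lit 2))))
  (@Cl.mk (nat_lit 0x20008000600060009000d000c00080003000800040007000a000a000e0008) (nat_lit 0x300058101001595) (nat_lit 16) Lb.e (@T16.mk En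
    (@En.n l23909 (nat_lit 5460) (nat_lit 9) (nat_lit 8))
    (@En.i (nat_lit 12479) (nat_lit 1) (nat_lit 14))
    (@En.n l725 (nat_lit 7824) (nat_lit 2) (nat_lit 10))
    (@En.n l781 (nat_lit 6382) (nat_lit 3) (nat_lit 10))
    (@En.n l13128 (nat_lit 2009) (nat_lit 4) (nat_lit 7))
    (@En.n l3447 (nat_lit 5770) (nat_lit 5) (nat_lit 4))
    (@En.n l3337 (nat_lit 1525) (nat_lit 6) (nat_lit 8))
    (@En.n l23910 (nat_lit 7828) (nat_lit 7) (nat_lit 3))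
    (@En.n l6031 (nat_lit 2013) (nat_lit 0) (nat_lit 8))
    (@En.n l23911 (nat_lit 7827) (nat_lit 10) (nat_lit 12))
    (@En.n l23912 (nat_lit 7834) (nat_lit 11) (nat_lit 13))
    (@En.n l23913 (nat_lit 7832) (nat_lit 12) (nat_lit 9))
    (@En.n l23914 (nat_lit 7832) (nat_lit 13) (nat_lit 6))
    (@En.n l23915 (nat_lit 8449) (nat_lit 14) (nat_lit 6))
    (@En.n l13502 (nat_lit 5476) (nat_lit 6) (nat_lit 8))
    (@En.n l7 (nat_lit 7823) (nat_lit 15) (nat_lit 2))))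
noncomputable def a489 : T16 Cl := @T16.mk Cl
  (@Cl.mk (nat_lit 0x20007000e000600020009000d000c00090003000900040007000a000e0007) (nat_lit 0x20016810100480) (nat_lit 16) Lb.e (@T16.mk En
    (@En.n l11512 (nat_lit 7822) (nat_lit 4) (nat_lit 7))
    (@En.i (nat_lit 6093) (nat_lit 6) (nat_lit 14))
    (@En.n l1643 (nat_lit 6265) (nat_lit 2) (nat_lit 10))
    (@En.n l2155 (nat_lit 2008) (nat_lit 3) (nat_lit 7))
    (@En.n l615 (nat_lit 6019) (nat_lit 8) (nat_lit 4))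
    (@En.n l5933 (nat_lit 1524) (nat_lit 5) (nat_lit 9))
    (@En.n l21051 (nat_lit 7826) (nat_lit 6) (nat_lit 3))
    (@En.n l3303 (nat_lit 2014) (nat_lit 0) (nat_lit 9))
    (@En.n l1643 (nat_lit 7825) (nat_lit 9) (nat_lit 12))
    (@En.n l619 (nat_lit 7833) (nat_lit 10) (nat_lit 13))
    (@En.i (nat_lit 7823) (nat_lit 11) (nat_lit 9))
    (@En.n l17 (nat_lit 7824) (nat_lit 11) (nat_lit 2))
    (@En.n l1353 (nat_lit 7823) (nat_lit 13) (nat_lit 6))
    (@En.n l2034 (nat_lit 2809) (nat_lit 1) (nat_lit 14))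
    (@En.n l5934 (nat_lit 5474) (nat_lit 2) (nat_lit 7))
    (@En.n l7 (nat_lit 7824) (nat_lit 15) (nat_lit 2))))
  (@Cl.mk (nat_lit 0x20008000e000600020009000c0008000d0008000400030007000a000e0008) (nat_lit 0x310007171000335) (nat_lit 16) Lb.e (@T16.mk En
    (@En.n l26885 (nat_lit 7829) (nat_lit 4) (nat_lit 8))
    (@En.n l639 (nat_lit 6094) (nat_lit 6) (nat_lit 14))
    (@En.i (nat_lit 6257) (nat_lit 2) (nat_lit 10))
    (@En.n l730 (nat_lit 7824) (nat_lit 3) (nat_lit 7))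
    (@En.n l17701 (nat_lit 7826) (nat_lit 4) (nat_lit 3))
    (@En.n l5376 (nat_lit 6029) (nat_lit 0) (nat_lit 4))
    (@En.n l17213 (nat_lit 1526) (nat_lit 6) (nat_lit 8))
    (@En.n l5372 (nat_lit 5920) (nat_lit 12) (nat_lit 13))
    (@En.i (nat_lit 6923) (nat_lit 13) (nat_lit 8))
    (@En.n l1106 (nat_lit 8274) (nat_lit 10) (nat_lit 12))
    (@En.n l27119 (nat_lit 7827) (nat_lit 11) (nat_lit 9))
    (@En.n l18 (nat_lit 7825) (nat_lit 11) (nat_lit 2))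
    (@En.n l13812 (nat_lit 7827) (nat_lit 13) (nat_lit 6))
    (@En.n l5372 (nat_lit 2814) (nat_lit 1) (nat_lit 14))
    (@En.n l22493 (nat_lit 5495) (nat_lit 2) (nat_lit 8))
    (@En.n l28 (nat_lit 7825) (nat_lit 15) (nat_lit 2))))
  (@Cl.mk (nat_lit 0x20007000e000600020009000d0008000d0003000900030007000a000e0008) (nat_lit 0xb0007670200386) (nat_lit 16) Lb.e (@T16.mk En
    (@En.n l476 (nat_lit 5188) (nat_lit 4) (nat_lit 8))
    (@En.n l27466 (nat_lit 6095) (nat_lit 6) (nat_lit 14))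
    (@En.n l4451 (nat_lit 6262) (nat_lit 2) (nat_lit 10))
    (@En.n l1769 (nat_lit 2005) (nat_lit 3) (nat_lit 7))
    (@En.n l7157 (nat_lit 7825) (nat_lit 4) (nat_lit 3))
    (@En.n l1867 (nat_lit 1914) (nat_lit 0) (nat_lit 9))
    (@En.n l24992 (nat_lit 7824) (nat_lit 6) (nat_lit 3))
    (@En.n l4451 (nat_lit 5921) (nat_lit 0) (nat_lit 13))
    (@En.n l27467 (nat_lit 6925) (nat_lit 13) (nat_lit 8))
    (@En.n l27468 (nat_lit 9115) (nat_lit 10) (nat_lit 13))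
    (@En.n l27469 (nat_lit 7828) (nat_lit 11) (nat_lit 9))
    (@En.n l18 (nat_lit 7826) (nat_lit 11) (nat_lit 2))
    (@En.n l27470 (nat_lit 7828) (nat_lit 13) (nat_lit 6))
    (@En.n l27471 (nat_lit 2811) (nat_lit 1) (nat_lit 14))
    (@En.n l17638 (nat_lit 5478) (nat_lit 2) (nat_lit 7))
    (@En.n l1770 (nat_lit 7826) (nat_lit 15) (nat_lit 2))))
  (@Cl.mk (nat_lit 0x20009000600060009000c0007000d0007000400030007000a000a000e0009) (nat_lit 0x300770600007446) (nat_lit 16) Lb.e (@T16.mk En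
    (@En.n l77 (nat_lit 5189) (nat_lit 11) (nat_lit 9))
    (@En.n l10676 (nat_lit 12074) (nat_lit 1) (nat_lit 14))
    (@En.n l22299 (nat_lit 7825) (nat_lit 2) (nat_lit 10))
    (@En.n l13436 (nat_lit 6384) (nat_lit 3) (nat_lit 10))
    (@En.n l22300 (nat_lit 7823) (nat_lit 4) (nat_lit 7))
    (@En.n l22301 (nat_lit 7828) (nat_lit 5) (nat_lit 3))
    (@En.n l5185 (nat_lit 5776) (nat_lit 0) (nat_lit 4))
    (@En.n l690 (nat_lit 1486) (nat_lit 7) (nat_lit 7))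
    (@En.n l10676 (nat_lit 5922) (nat_lit 9) (nat_lit 13))
    (@En.n l13287 (nat_lit 6920) (nat_lit 3) (nat_lit 7))
    (@En.n l10676 (nat_lit 8276) (nat_lit 11) (nat_lit 12))
    (@En.n l3 (nat_lit 7831) (nat_lit 12) (nat_lit 9))
    (@En.n l527 (nat_lit 7831) (nat_lit 13) (nat_lit 6))
    (@En.n l22302 (nat_lit 8450) (nat_lit 14) (nat_lit 6))
    (@En.n l1544 (nat_lit 5473) (nat_lit 9) (nat_lit 9))
    (@En.n l28 (nat_lit 7827) (nat_lit 15) (nat_lit 2))))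
  (@Cl.mk (nat_lit 0x20008000600060009000d0007000d0003000800030007000a000a000e0009) (nat_lit 0x300760502007497) (nat_lit 16) Lb.e (@T16.mk En
    (@En.n l31325 (nat_lit 5186) (nat_lit 11) (nat_lit 9))
    (@En.n l31326 (nat_lit 12075) (nat_lit 1) (nat_lit 14))
    (@En.n l30188 (nat_lit 7826) (nat_lit 2) (nat_lit 10))
    (@En.n l5 (nat_lit 6383) (nat_lit 3) (nat_lit 10))
    (@En.n l245 (nat_lit 2007) (nat_lit 4) (nat_lit 7))
    (@En.n l9678 (nat_lit 7827) (nat_lit 5) (nat_lit 3))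
    (@En.n l11750 (nat_lit 1688) (nat_lit 0) (nat_lit 8))
    (@En.n l12215 (nat_lit 7823) (nat_lit 7) (nat_lit 3))
    (@En.n l250 (nat_lit 5919) (nat_lit 0) (nat_lit 13))
    (@En.n l22303 (nat_lit 6919) (nat_lit 3) (nat_lit 7))
    (@En.n l612 (nat_lit 9104) (nat_lit 11) (nat_lit 13))
    (@En.n l829 (nat_lit 7830) (nat_lit 12) (nat_lit 9))
    (@En.n l763 (nat_lit 7830) (nat_lit 13) (nat_lit 6))
    (@En.i (nat_lit 8444) (nat_lit 14) (nat_lit 6))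
    (@En.n l31326 (nat_lit 5472) (nat_lit 6) (nat_lit 8))
    (@En.n l3 (nat_lit 7828) (nat_lit 15) (nat_lit 2))))
  (@Cl.mk (nat_lit 0x20008000b00080008000d0009000500030008000b000800080007000e0005) (nat_lit 0x175281003946010) (nat_lit 16) Lb.e (@T16.mk En
    (@En.n l26103 (nat_lit 5189) (nat_lit 8) (nat_lit 5))
    (@En.n l20183 (nat_lit 2824) (nat_lit 1) (nat_lit 14))
    (@En.n l11775 (nat_lit 7605) (nat_lit 2) (nat_lit 7))
    (@En.n l527 (nat_lit 8229) (nat_lit 3) (nat_lit 8))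
    (@En.n l10492 (nat_lit 8142) (nat_lit 4) (nat_lit 8))
    (@En.i (nat_lit 6255) (nat_lit 7) (nat_lit 11))
    (@En.n l26989 (nat_lit 7822) (nat_lit 6) (nat_lit 8))
    (@En.n l13283 (nat_lit 5188) (nat_lit 7) (nat_lit 3))
    (@En.n l13287 (nat_lit 6027) (nat_lit 8) (nat_lit 5))
    (@En.n l77 (nat_lit 954) (nat_lit 10) (nat_lit 9))
    (@En.n l20183 (nat_lit 5183) (nat_lit 11) (nat_lit 13))
    (@En.n l26990 (nat_lit 7825) (nat_lit 8) (nat_lit 8))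
    (@En.n l11779 (nat_lit 3313) (nat_lit 13) (nat_lit 8))
    (@En.n l26991 (nat_lit 8271) (nat_lit 14) (nat_lit 11))
    (@En.n l26992 (nat_lit 5189) (nat_lit 6) (nat_lit 8))
    (@En.n l18 (nat_lit 7829) (nat_lit 15) (nat_lit 2))))
  (@Cl.mk (nat_lit 0x2000900060009000d0006000d0003000700030007000e000a0002000e000a) (nat_lit 0x3065040000a80a8) (nat_lit 16) Lb.e (@T16.mk En
    (@En.i (nat_lit 5187) (nat_lit 14) (nat_lit 10))
    (@En.i (nat_lit 12482) (nat_lit 1) (nat_lit 14))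
    (@En.n l18 (nat_lit 7830) (nat_lit 2) (nat_lit 2))
    (@En.n l16335 (nat_lit 7828) (nat_lit 3) (nat_lit 10))
    (@En.n l1063 (nat_lit 7145) (nat_lit 5) (nat_lit 14))
    (@En.n l992 (nat_lit 2010) (nat_lit 5) (nat_lit 7))
    (@En.n l1386 (nat_lit 7831) (nat_lit 6) (nat_lit 3))
    (@En.i (nat_lit 1689) (nat_lit 0) (nat_lit 7))
    (@En.i (nat_lit 7832) (nat_lit 8) (nat_lit 3))
    (@En.n l16332 (nat_lit 5926) (nat_lit 0) (nat_lit 13))
    (@En.n l6610 (nat_lit 6917) (nat_lit 7) (nat_lit 6))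
    (@En.n l2369 (nat_lit 8290) (nat_lit 12) (nat_lit 13))
    (@En.n l699 (nat_lit 13111) (nat_lit 9) (nat_lit 9))
    (@En.n l1063 (nat_lit 8445) (nat_lit 14) (nat_lit 6))
    (@En.i (nat_lit 5479) (nat_lit 12) (nat_lit 9))
    (@En.n l3 (nat_lit 7830) (nat_lit 15) (nat_lit 2))))
  (@Cl.mk (nat_lit 0x2000a00060009000c0006000d0006000400030007000e000a0002000e000a) (nat_lit 0x306605000048057) (nat_lit 16) Lb.e (@T16.mk En
    (@En.n l77 (nat_lit 5461) (nat_lit 14) (nat_lit 10))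
    (@En.n l1544 (nat_lit 12077) (nat_lit 1) (nat_lit 14))
    (@En.n l107 (nat_lit 7831) (nat_lit 2) (nat_lit 2))
    (@En.i (nat_lit 7827) (nat_lit 3) (nat_lit 10))
    (@En.n l10301 (nat_lit 7142) (nat_lit 5) (nat_lit 14))
    (@En.n l9478 (nat_lit 7832) (nat_lit 5) (nat_lit 7))
    (@En.n l1543 (nat_lit 7830) (nat_lit 6) (nat_lit 3))
    (@En.n l1255 (nat_lit 5774) (nat_lit 0) (nat_lit 4))
    (@En.n l1544 (nat_lit 1541) (nat_lit 8) (nat_lit 6))
    (@En.n l9264 (nat_lit 5925) (nat_lit 10) (nat_lit 13))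
    (@En.i (nat_lit 6918) (nat_lit 7) (nat_lit 6))
    (@En.i (nat_lit 8287) (nat_lit 12) (nat_lit 12))
    (@En.n l1374 (nat_lit 13113) (nat_lit 9) (nat_lit 9))
    (@En.n l10301 (nat_lit 8451) (nat_lit 14) (nat_lit 6))
    (@En.n l1544 (nat_lit 5491) (nat_lit 12) (nat_lit 10))
    (@En.n l28 (nat_lit 7831) (nat_lit 15) (nat_lit 2))))
  (@Cl.mk (nat_lit 0x2000900060009000d000c00070003000700040007000e000a0002000e0009) (nat_lit 0x3074700000a20a6) (nat_lit 16) Lb.e (@T16.mk En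
    (@En.n l10503 (nat_lit 5459) (nat_lit 14) (nat_lit 9))
    (@En.i (nat_lit 12480) (nat_lit 1) (nat_lit 14))
    (@En.n l18 (nat_lit 7832) (nat_lit 2) (nat_lit 2))
    (@En.n l10504 (nat_lit 7823) (nat_lit 3) (nat_lit 10))
    (@En.n l1063 (nat_lit 7143) (nat_lit 5) (nat_lit 14))
    (@En.n l2360 (nat_lit 3216) (nat_lit 11) (nat_lit 7))
    (@En.n l1227 (nat_lit 5772) (nat_lit 6) (nat_lit 4))
    (@En.n l1080 (nat_lit 1540) (nat_lit 7) (nat_lit 7))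
    (@En.n l11 (nat_lit 7830) (nat_lit 8) (nat_lit 3))
    (@En.n l3633 (nat_lit 2019) (nat_lit 0) (nat_lit 7))
    (@En.n l10505 (nat_lit 7831) (nat_lit 11) (nat_lit 12))
    (@En.n l2369 (nat_lit 7835) (nat_lit 12) (nat_lit 13))
    (@En.n l699 (nat_lit 13110) (nat_lit 9) (nat_lit 9))
    (@En.n l1063 (nat_lit 8448) (nat_lit 14) (nat_lit 6))
    (@En.n l1080 (nat_lit 5475) (nat_lit 12) (nat_lit 9))
    (@En.n l3 (nat_lit 7832) (nat_lit 15) (nat_lit 2))))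
  (@Cl.mk (nat_lit 0x20007000e00060002000d000b00080003000d000900050003000a000e0008) (nat_lit 0x20058008200580) (nat_lit 16) Lb.e (@T16.mk En
    (@En.n l36949 (nat_lit 9118) (nat_lit 4) (nat_lit 8))
    (@En.i (nat_lit 5335) (nat_lit 1) (nat_lit 14))
    (@En.n l287 (nat_lit 12139) (nat_lit 2) (nat_lit 10))
    (@En.n l11 (nat_lit 9116) (nat_lit 3) (nat_lit 3))
    (@En.i (nat_lit 5203) (nat_lit 4) (nat_lit 5))
    (@En.n l532 (nat_lit 6382) (nat_lit 5) (nat_lit 9))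
    (@En.n l615 (nat_lit 7825) (nat_lit 7) (nat_lit 13))
    (@En.n l8852 (nat_lit 9115) (nat_lit 7) (nat_lit 3))
    (@En.i (nat_lit 9926) (nat_lit 0) (nat_lit 8))
    (@En.i (nat_lit 8279) (nat_lit 10) (nat_lit 11))
    (@En.i (nat_lit 11531) (nat_lit 11) (nat_lit 13))
    (@En.n l17 (nat_lit 7833) (nat_lit 11) (nat_lit 2))
    (@En.n l2154 (nat_lit 7834) (nat_lit 13) (nat_lit 6))
    (@En.i (nat_lit 2810) (nat_lit 1) (nat_lit 14))
    (@En.n l20989 (nat_lit 9061) (nat_lit 2) (nat_lit 7))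
    (@En.n l7 (nat_lit 7833) (nat_lit 15) (nat_lit 2))))
  (@Cl.mk (nat_lit 0x2000800060006000d000b00070003000d000800050003000a000a000e0009) (nat_lit 0x400460072000690) (nat_lit 16) Lb.e (@T16.mk En
    (@En.n l17 (nat_lit 9124) (nat_lit 12) (nat_lit 9))
    (@En.n l25280 (nat_lit 12066) (nat_lit 1) (nat_lit 14))
    (@En.n l3158 (nat_lit 7833) (nat_lit 2) (nat_lit 10))
    (@En.n l25281 (nat_lit 11529) (nat_lit 3) (nat_lit 10))
    (@En.n l7 (nat_lit 9101) (nat_lit 4) (nat_lit 3))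
    (@En.n l9618 (nat_lit 1642) (nat_lit 0) (nat_lit 5))
    (@En.i (nat_lit 5909) (nat_lit 6) (nat_lit 8))
    (@En.n l25282 (nat_lit 7827) (nat_lit 8) (nat_lit 13))
    (@En.n l11 (nat_lit 9104) (nat_lit 8) (nat_lit 3))
    (@En.n l834 (nat_lit 7941) (nat_lit 0) (nat_lit 7))
    (@En.i (nat_lit 8278) (nat_lit 11) (nat_lit 11))
    (@En.n l17463 (nat_lit 8629) (nat_lit 12) (nat_lit 13))
    (@En.n l2687 (nat_lit 7835) (nat_lit 13) (nat_lit 6))
    (@En.i (nat_lit 8483) (nat_lit 14) (nat_lit 6))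
    (@En.n l25283 (nat_lit 9056) (nat_lit 5) (nat_lit 8))
    (@En.n l3 (nat_lit 7834) (nat_lit 15) (nat_lit 2))))
  (@Cl.mk (nat_lit 0x200090006000d000b00060003000d000700050003000e000a0002000e000a) (nat_lit 0x7036006000a10a0) (nat_lit 16) Lb.e (@T16.mk En
    (@En.n l11579 (nat_lit 9180) (nat_lit 14) (nat_lit 10))
    (@En.n l11580 (nat_lit 11933) (nat_lit 1) (nat_lit 14))
    (@En.n l18 (nat_lit 7835) (nat_lit 2) (nat_lit 2))
    (@En.n l61 (nat_lit 7834) (nat_lit 3) (nat_lit 10))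
    (@En.n l11581 (nat_lit 11518) (nat_lit 1) (nat_lit 14))
    (@En.n l7 (nat_lit 9103) (nat_lit 5) (nat_lit 3))
    (@En.n l11582 (nat_lit 1637) (nat_lit 6) (nat_lit 5))
    (@En.i (nat_lit 6564) (nat_lit 7) (nat_lit 7))
    (@En.n l5542 (nat_lit 7831) (nat_lit 9) (nat_lit 13))
    (@En.n l11 (nat_lit 8290) (nat_lit 9) (nat_lit 3))
    (@En.n l2354 (nat_lit 7937) (nat_lit 0) (nat_lit 6))
    (@En.n l11583 (nat_lit 8288) (nat_lit 12) (nat_lit 11))
    (@En.n l11584 (nat_lit 6753) (nat_lit 13) (nat_lit 13))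
    (@En.i (nat_lit 8491) (nat_lit 14) (nat_lit 6))
    (@En.n l6081 (nat_lit 9183) (nat_lit 12) (nat_lit 9))
    (@En.n l3 (nat_lit 7835) (nat_lit 15) (nat_lit 2))))
  (@Cl.mk (nat_lit 0x20008000d000b00090003000a000a00050008000b000700060006000e0005) (nat_lit 0x175605202800020) (nat_lit 16) Lb.e (@T16.mk En
    (@En.n l7 (nat_lit 7749) (nat_lit 5) (nat_lit 5))
    (@En.n l2724 (nat_lit 10735) (nat_lit 1) (nat_lit 14))
    (@En.n l237 (nat_lit 7414) (nat_lit 10) (nat_lit 6))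
    (@En.i (nat_lit 7854) (nat_lit 3) (nat_lit 6))
    (@En.i (nat_lit 8221) (nat_lit 4) (nat_lit 7))
    (@En.n l2738 (nat_lit 7407) (nat_lit 7) (nat_lit 11))
    (@En.i (nat_lit 3116) (nat_lit 6) (nat_lit 8))
    (@En.n l414 (nat_lit 7838) (nat_lit 7) (nat_lit 5))
    (@En.n l134 (nat_lit 6051) (nat_lit 9) (nat_lit 10))
    (@En.n l11 (nat_lit 5241) (nat_lit 10) (nat_lit 10))
    (@En.n l117 (nat_lit 7753) (nat_lit 10) (nat_lit 3))
    (@En.i (nat_lit 1784) (nat_lit 0) (nat_lit 9))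
    (@En.i (nat_lit 7837) (nat_lit 13) (nat_lit 11))
    (@En.i (nat_lit 9014) (nat_lit 14) (nat_lit 13))
    (@En.n l4600 (nat_lit 7749) (nat_lit 3) (nat_lit 8))
    (@En.n l18 (nat_lit 7836) (nat_lit 15) (nat_lit 2))))
  (@Cl.mk (nat_lit 0x20008000b0008000c00090009000500040008000b000800070007000e0005) (nat_lit 0x1456420031300a0) (nat_lit 16) Lb.e (@T16.mk En
    (@En.n l12171 (nat_lit 7744) (nat_lit 8) (nat_lit 5))
    (@En.n l12172 (nat_lit 10736) (nat_lit 1) (nat_lit 14))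
    (@En.n l237 (nat_lit 7739) (nat_lit 9) (nat_lit 7))
    (@En.i (nat_lit 7852) (nat_lit 3) (nat_lit 7))
    (@En.n l8315 (nat_lit 8222) (nat_lit 4) (nat_lit 8))
    (@En.n l2738 (nat_lit 4605) (nat_lit 7) (nat_lit 11))
    (@En.n l3 (nat_lit 7836) (nat_lit 6) (nat_lit 8))
    (@En.n l3 (nat_lit 7753) (nat_lit 7) (nat_lit 4))
    (@En.n l4592 (nat_lit 7839) (nat_lit 8) (nat_lit 5))
    (@En.n l1476 (nat_lit 6056) (nat_lit 10) (nat_lit 9))
    (@En.n l4590 (nat_lit 5275) (nat_lit 11) (nat_lit 9))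
    (@En.n l12172 (nat_lit 2055) (nat_lit 12) (nat_lit 12))
    (@En.n l1480 (nat_lit 1488) (nat_lit 13) (nat_lit 8))
    (@En.n l12172 (nat_lit 9122) (nat_lit 14) (nat_lit 11))
    (@En.n l12173 (nat_lit 7744) (nat_lit 6) (nat_lit 8))
    (@En.n l18 (nat_lit 7837) (nat_lit 15) (nat_lit 2))))
  (@Cl.mk (nat_lit 0x20008000c000b0007000a0004000b00050008000b000600050009000e0005) (nat_lit 0x77060205100220) (nat_lit 16) Lb.e (@T16.mk En
    (@En.n l11867 (nat_lit 7841) (nat_lit 6) (nat_lit 5))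
    (@En.i (nat_lit 10874) (nat_lit 1) (nat_lit 14))
    (@En.n l4425 (nat_lit 7847) (nat_lit 2) (nat_lit 9))
    (@En.n l28 (nat_lit 7859) (nat_lit 3) (nat_lit 5))
    (@En.n l11868 (nat_lit 9603) (nat_lit 4) (nat_lit 6))
    (@En.n l4427 (nat_lit 7421) (nat_lit 7) (nat_lit 11))
    (@En.i (nat_lit 7596) (nat_lit 10) (nat_lit 8))
    (@En.n l11869 (nat_lit 5775) (nat_lit 7) (nat_lit 5))
    (@En.n l11870 (nat_lit 5244) (nat_lit 9) (nat_lit 11))
    (@En.n l4427 (nat_lit 4649) (nat_lit 9) (nat_lit 4))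
    (@En.n l387 (nat_lit 6051) (nat_lit 11) (nat_lit 10))
    (@En.n l11871 (nat_lit 3188) (nat_lit 12) (nat_lit 7))
    (@En.n l4428 (nat_lit 7839) (nat_lit 13) (nat_lit 11))
    (@En.n l11872 (nat_lit 9280) (nat_lit 14) (nat_lit 12))
    (@En.n l11873 (nat_lit 7841) (nat_lit 4) (nat_lit 8))
    (@En.n l50 (nat_lit 7838) (nat_lit 15) (nat_lit 2))))
  (@Cl.mk (nat_lit 0x20008000b00060009000d000a000500030008000b00070006000a000e0005) (nat_lit 0x60682006100220) (nat_lit 16) Lb.e (@T16.mk En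
    (@En.n l1790 (nat_lit 7840) (nat_lit 8) (nat_lit 5))
    (@En.i (nat_lit 10875) (nat_lit 1) (nat_lit 14))
    (@En.n l16834 (nat_lit 7846) (nat_lit 2) (nat_lit 10))
    (@En.i (nat_lit 7853) (nat_lit 3) (nat_lit 6))
    (@En.n l25537 (nat_lit 9602) (nat_lit 4) (nat_lit 7))
    (@En.i (nat_lit 4346) (nat_lit 7) (nat_lit 11))
    (@En.n l4819 (nat_lit 7838) (nat_lit 6) (nat_lit 8))
    (@En.n l3536 (nat_lit 7842) (nat_lit 7) (nat_lit 3))
    (@En.n l12290 (nat_lit 6027) (nat_lit 0) (nat_lit 5))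
    (@En.n l68 (nat_lit 5278) (nat_lit 10) (nat_lit 10))
    (@En.n l3866 (nat_lit 2579) (nat_lit 11) (nat_lit 13))
    (@En.n l264 (nat_lit 6056) (nat_lit 12) (nat_lit 9))
    (@En.n l10971 (nat_lit 4656) (nat_lit 13) (nat_lit 6))
    (@En.n l5936 (nat_lit 12202) (nat_lit 14) (nat_lit 11))
    (@En.n l8364 (nat_lit 7840) (nat_lit 6) (nat_lit 8))
    (@En.n l7 (nat_lit 7839) (nat_lit 15) (nat_lit 2))))
noncomputable def a490 : T16 Cl := @T16.mk Cl
  (@Cl.mk (nat_lit 0x30008000b000b00080007000b000500050008000b00050008000d00090005) (nat_lit 0x682402006505620) (nat_lit 16) Lb.e (@T16.mk En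
    (@En.n l3506 (nat_lit 6020) (nat_lit 0) (nat_lit 5))
    (@En.i (nat_lit 5265) (nat_lit 0) (nat_lit 9))
    (@En.n l14431 (nat_lit 2572) (nat_lit 2) (nat_lit 13))
    (@En.n l39953 (nat_lit 6052) (nat_lit 10) (nat_lit 8))
    (@En.i (nat_lit 4654) (nat_lit 4) (nat_lit 5))
    (@En.i (nat_lit 12199) (nat_lit 7) (nat_lit 11))
    (@En.n l730 (nat_lit 7844) (nat_lit 10) (nat_lit 8))
    (@En.n l731 (nat_lit 7844) (nat_lit 11) (nat_lit 5))
    (@En.n l20048 (nat_lit 10309) (nat_lit 8) (nat_lit 5))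
    (@En.n l7 (nat_lit 7845) (nat_lit 8) (nat_lit 11))
    (@En.n l644 (nat_lit 7860) (nat_lit 9) (nat_lit 7))
    (@En.i (nat_lit 9068) (nat_lit 12) (nat_lit 8))
    (@En.n l14639 (nat_lit 7839) (nat_lit 5) (nat_lit 11))
    (@En.n l2874 (nat_lit 7127) (nat_lit 7) (nat_lit 11))
    (@En.i (nat_lit 7841) (nat_lit 12) (nat_lit 8))
    (@En.n l37644 (nat_lit 7843) (nat_lit 15) (nat_lit 3))))
  (@Cl.mk (nat_lit 0x4000a00050008000b000b00070006000a000500050008000c000b00060009) (nat_lit 0x205820020066606) (nat_lit 16) Lb.e (@T16.mk En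
    (@En.n l25538 (nat_lit 6049) (nat_lit 9) (nat_lit 9))
    (@En.n l17563 (nat_lit 1994) (nat_lit 1) (nat_lit 6))
    (@En.n l17 (nat_lit 7840) (nat_lit 5) (nat_lit 11))
    (@En.n l17 (nat_lit 8768) (nat_lit 7) (nat_lit 12))
    (@En.n l25539 (nat_lit 7868) (nat_lit 10) (nat_lit 8))
    (@En.n l25540 (nat_lit 7868) (nat_lit 11) (nat_lit 5))
    (@En.n l25541 (nat_lit 10308) (nat_lit 0) (nat_lit 5))
    (@En.n l7 (nat_lit 7848) (nat_lit 9) (nat_lit 10))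
    (@En.n l25542 (nat_lit 7858) (nat_lit 10) (nat_lit 6))
    (@En.n l25543 (nat_lit 8391) (nat_lit 2) (nat_lit 7))
    (@En.n l25544 (nat_lit 7838) (nat_lit 5) (nat_lit 11))
    (@En.n l25545 (nat_lit 7133) (nat_lit 7) (nat_lit 11))
    (@En.n l25542 (nat_lit 7591) (nat_lit 10) (nat_lit 8))
    (@En.n l22009 (nat_lit 5773) (nat_lit 14) (nat_lit 5))
    (@En.n l25546 (nat_lit 5239) (nat_lit 0) (nat_lit 10))
    (@En.n l25547 (nat_lit 4650) (nat_lit 1) (nat_lit 4))))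
  (@Cl.mk (nat_lit 0x20008000c00060009000d0004000b00030008000b00070005000a000e0005) (nat_lit 0x90680206100220) (nat_lit 16) Lb.e (@T16.mk En
    (@En.i (nat_lit 7843) (nat_lit 8) (nat_lit 5))
    (@En.i (nat_lit 10876) (nat_lit 1) (nat_lit 14))
    (@En.n l617 (nat_lit 7849) (nat_lit 2) (nat_lit 10))
    (@En.n l3480 (nat_lit 7878) (nat_lit 3) (nat_lit 5))
    (@En.n l39943 (nat_lit 9081) (nat_lit 4) (nat_lit 7))
    (@En.i (nat_lit 7295) (nat_lit 7) (nat_lit 11))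
    (@En.n l18571 (nat_lit 7598) (nat_lit 6) (nat_lit 8))
    (@En.n l6081 (nat_lit 7839) (nat_lit 7) (nat_lit 3))
    (@En.n l1329 (nat_lit 4761) (nat_lit 0) (nat_lit 11))
    (@En.n l13633 (nat_lit 7838) (nat_lit 9) (nat_lit 4))
    (@En.i (nat_lit 2578) (nat_lit 11) (nat_lit 13))
    (@En.n l7507 (nat_lit 6057) (nat_lit 12) (nat_lit 9))
    (@En.i (nat_lit 4646) (nat_lit 13) (nat_lit 6))
    (@En.n l39943 (nat_lit 11906) (nat_lit 14) (nat_lit 12))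
    (@En.n l2678 (nat_lit 7843) (nat_lit 6) (nat_lit 8))
    (@En.n l11 (nat_lit 7842) (nat_lit 15) (nat_lit 2))))
  (@Cl.mk (nat_lit 0x30008000b000b00080006000b000500050008000c00050008000d0004000a) (nat_lit 0x682402006305602) (nat_lit 16) Lb.e (@T16.mk En
    (@En.n l28600 (nat_lit 4762) (nat_lit 0) (nat_lit 10))
    (@En.n l28601 (nat_lit 7841) (nat_lit 15) (nat_lit 4))
    (@En.i (nat_lit 2573) (nat_lit 0) (nat_lit 13))
    (@En.n l28602 (nat_lit 6053) (nat_lit 10) (nat_lit 8))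
    (@En.n l28603 (nat_lit 4645) (nat_lit 4) (nat_lit 5))
    (@En.n l28604 (nat_lit 11892) (nat_lit 7) (nat_lit 12))
    (@En.n l14025 (nat_lit 7871) (nat_lit 10) (nat_lit 8))
    (@En.n l14026 (nat_lit 7871) (nat_lit 11) (nat_lit 5))
    (@En.n l117 (nat_lit 10708) (nat_lit 8) (nat_lit 5))
    (@En.n l28605 (nat_lit 7872) (nat_lit 10) (nat_lit 11))
    (@En.n l28606 (nat_lit 7875) (nat_lit 1) (nat_lit 6))
    (@En.n l28607 (nat_lit 9069) (nat_lit 12) (nat_lit 8))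
    (@En.n l575 (nat_lit 7842) (nat_lit 5) (nat_lit 11))
    (@En.i (nat_lit 7129) (nat_lit 7) (nat_lit 11))
    (@En.n l25816 (nat_lit 7510) (nat_lit 12) (nat_lit 8))
    (@En.n l9790 (nat_lit 7840) (nat_lit 15) (nat_lit 3))))
  (@Cl.mk (nat_lit 0x200090008000c00050008000b00040007000d0008000500030008000e000b) (nat_lit 0x562053005200689) (nat_lit 16) Lb.e (@T16.mk En
    (@En.n l1643 (nat_lit 7840) (nat_lit 13) (nat_lit 11))
    (@En.n l619 (nat_lit 7914) (nat_lit 1) (nat_lit 14))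
    (@En.n l2366 (nat_lit 7868) (nat_lit 2) (nat_lit 8))
    (@En.n l9105 (nat_lit 7871) (nat_lit 3) (nat_lit 3))
    (@En.n l5934 (nat_lit 6018) (nat_lit 4) (nat_lit 5))
    (@En.n l2805 (nat_lit 5264) (nat_lit 5) (nat_lit 8))
    (@En.n l1012 (nat_lit 2575) (nat_lit 7) (nat_lit 13))
    (@En.n l14973 (nat_lit 6054) (nat_lit 11) (nat_lit 7))
    (@En.n l11512 (nat_lit 4657) (nat_lit 8) (nat_lit 4))
    (@En.n l1643 (nat_lit 6370) (nat_lit 10) (nat_lit 11))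
    (@En.i (nat_lit 13632) (nat_lit 10) (nat_lit 8))
    (@En.i (nat_lit 10311) (nat_lit 7) (nat_lit 5))
    (@En.n l50 (nat_lit 7865) (nat_lit 13) (nat_lit 12))
    (@En.n l2579 (nat_lit 7863) (nat_lit 14) (nat_lit 8))
    (@En.n l14827 (nat_lit 8407) (nat_lit 11) (nat_lit 9))
    (@En.n l107 (nat_lit 7844) (nat_lit 15) (nat_lit 2))))
  (@Cl.mk (nat_lit 0x3000600030009000c000c0008000b000400040007000a0005000d0008000d) (nat_lit 0x7924100040767) (nat_lit 16) Lb.e (@T16.mk En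
    (@En.n l1998 (nat_lit 2258) (nat_lit 0) (nat_lit 13))
    (@En.i (nat_lit 7840) (nat_lit 3) (nat_lit 8))
    (@En.i (nat_lit 7747) (nat_lit 2) (nat_lit 13))
    (@En.i (nat_lit 4655) (nat_lit 5) (nat_lit 5))
    (@En.i (nat_lit 12198) (nat_lit 8) (nat_lit 10))
    (@En.n l730 (nat_lit 7865) (nat_lit 11) (nat_lit 7))
    (@En.n l731 (nat_lit 7865) (nat_lit 12) (nat_lit 4))
    (@En.i (nat_lit 10326) (nat_lit 7) (nat_lit 4))
    (@En.i (nat_lit 564) (nat_lit 7) (nat_lit 11))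
    (@En.i (nat_lit 8437) (nat_lit 1) (nat_lit 8))
    (@En.n l637 (nat_lit 7846) (nat_lit 4) (nat_lit 12))
    (@En.n l2009 (nat_lit 7124) (nat_lit 6) (nat_lit 12))
    (@En.i (nat_lit 7848) (nat_lit 13) (nat_lit 9))
    (@En.n l18 (nat_lit 7872) (nat_lit 15) (nat_lit 3))
    (@En.i (nat_lit 6019) (nat_lit 0) (nat_lit 6))
    (@En.i (nat_lit 7860) (nat_lit 15) (nat_lit 3))))
  (@Cl.mk (nat_lit 0x20007000a0006000d0009000d0003000600030009000c0007000a000e0004) (nat_lit 0x50879000710110) (nat_lit 16) Lb.e (@T16.mk En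
    (@En.n l3596 (nat_lit 7845) (nat_lit 7) (nat_lit 4))
    (@En.n l1997 (nat_lit 3919) (nat_lit 1) (nat_lit 14))
    (@En.i (nat_lit 565) (nat_lit 2) (nat_lit 10))
    (@En.i (nat_lit 9598) (nat_lit 3) (nat_lit 7))
    (@En.i (nat_lit 4344) (nat_lit 6) (nat_lit 12))
    (@En.n l3337 (nat_lit 7847) (nat_lit 5) (nat_lit 9))
    (@En.n l3291 (nat_lit 7849) (nat_lit 6) (nat_lit 3))
    (@En.n l2034 (nat_lit 6029) (nat_lit 7) (nat_lit 6))
    (@En.n l2869 (nat_lit 7853) (nat_lit 8) (nat_lit 3))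
    (@En.n l1997 (nat_lit 2257) (nat_lit 0) (nat_lit 13))
    (@En.n l2579 (nat_lit 7839) (nat_lit 11) (nat_lit 9))
    (@En.n l1998 (nat_lit 7850) (nat_lit 12) (nat_lit 13))
    (@En.n l1357 (nat_lit 7808) (nat_lit 13) (nat_lit 6))
    (@En.n l2031 (nat_lit 12200) (nat_lit 14) (nat_lit 10))
    (@En.n l2037 (nat_lit 7845) (nat_lit 5) (nat_lit 7))
    (@En.n l107 (nat_lit 7846) (nat_lit 15) (nat_lit 2))))
  (@Cl.mk (nat_lit 0x20007000b000a0007000d000a0005000300060009000c00060009000e0004) (nat_lit 0x66027000610110) (nat_lit 16) Lb.e (@T16.mk En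
    (@En.n l12289 (nat_lit 7848) (nat_lit 8) (nat_lit 4))
    (@En.i (nat_lit 5554) (nat_lit 1) (nat_lit 14))
    (@En.n l1897 (nat_lit 641) (nat_lit 9) (nat_lit 9))
    (@En.i (nat_lit 9599) (nat_lit 3) (nat_lit 6))
    (@En.i (nat_lit 7419) (nat_lit 6) (nat_lit 12))
    (@En.n l3530 (nat_lit 7594) (nat_lit 5) (nat_lit 9))
    (@En.i (nat_lit 5776) (nat_lit 6) (nat_lit 6))
    (@En.n l4659 (nat_lit 7859) (nat_lit 7) (nat_lit 3))
    (@En.n l12290 (nat_lit 7897) (nat_lit 0) (nat_lit 5))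
    (@En.n l1767 (nat_lit 7838) (nat_lit 10) (nat_lit 10))
    (@En.n l4661 (nat_lit 7857) (nat_lit 11) (nat_lit 13))
    (@En.n l12291 (nat_lit 3129) (nat_lit 12) (nat_lit 7))
    (@En.n l1867 (nat_lit 7846) (nat_lit 13) (nat_lit 10))
    (@En.n l12290 (nat_lit 9279) (nat_lit 14) (nat_lit 11))
    (@En.n l12292 (nat_lit 7848) (nat_lit 6) (nat_lit 7))
    (@En.n l7 (nat_lit 7847) (nat_lit 15) (nat_lit 2))))
  (@Cl.mk (nat_lit 0x300060009000c000c0007000a000400040007000b000a0006000d00090005) (nat_lit 0x69201000550270) (nat_lit 16) Lb.e (@T16.mk En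
    (@En.n l5901 (nat_lit 7895) (nat_lit 0) (nat_lit 5))
    (@En.i (nat_lit 7841) (nat_lit 0) (nat_lit 9))
    (@En.n l726 (nat_lit 7856) (nat_lit 2) (nat_lit 13))
    (@En.n l728 (nat_lit 3122) (nat_lit 3) (nat_lit 6))
    (@En.n l17 (nat_lit 7845) (nat_lit 4) (nat_lit 10))
    (@En.n l17 (nat_lit 8766) (nat_lit 8) (nat_lit 11))
    (@En.n l730 (nat_lit 7866) (nat_lit 11) (nat_lit 7))
    (@En.n l731 (nat_lit 7866) (nat_lit 12) (nat_lit 4))
    (@En.n l25977 (nat_lit 12478) (nat_lit 8) (nat_lit 4))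
    (@En.i (nat_lit 569) (nat_lit 8) (nat_lit 10))
    (@En.i (nat_lit 8817) (nat_lit 1) (nat_lit 7))
    (@En.n l25978 (nat_lit 7847) (nat_lit 4) (nat_lit 12))
    (@En.n l17617 (nat_lit 7132) (nat_lit 6) (nat_lit 12))
    (@En.n l25542 (nat_lit 7589) (nat_lit 9) (nat_lit 9))
    (@En.n l1738 (nat_lit 5770) (nat_lit 12) (nat_lit 6))
    (@En.n l25979 (nat_lit 7858) (nat_lit 15) (nat_lit 3))))
  (@Cl.mk (nat_lit 0x20007000b0006000c0009000d0005000400030009000c0007000a000e0004) (nat_lit 0x60879000710140) (nat_lit 16) Lb.e (@T16.mk En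
    (@En.n l14311 (nat_lit 7872) (nat_lit 9) (nat_lit 4))
    (@En.i (nat_lit 7025) (nat_lit 1) (nat_lit 14))
    (@En.n l2921 (nat_lit 585) (nat_lit 2) (nat_lit 10))
    (@En.i (nat_lit 9604) (nat_lit 3) (nat_lit 7))
    (@En.i (nat_lit 4348) (nat_lit 6) (nat_lit 12))
    (@En.n l4991 (nat_lit 7599) (nat_lit 5) (nat_lit 9))
    (@En.n l2101 (nat_lit 7846) (nat_lit 6) (nat_lit 3))
    (@En.n l18 (nat_lit 7880) (nat_lit 7) (nat_lit 4))
    (@En.n l6081 (nat_lit 7847) (nat_lit 8) (nat_lit 5))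
    (@En.i (nat_lit 2253) (nat_lit 10) (nat_lit 13))
    (@En.n l61 (nat_lit 7842) (nat_lit 11) (nat_lit 9))
    (@En.n l4991 (nat_lit 7757) (nat_lit 12) (nat_lit 12))
    (@En.i (nat_lit 4647) (nat_lit 13) (nat_lit 6))
    (@En.n l6135 (nat_lit 12730) (nat_lit 14) (nat_lit 11))
    (@En.n l2065 (nat_lit 7872) (nat_lit 7) (nat_lit 7))
    (@En.n l11 (nat_lit 7849) (nat_lit 15) (nat_lit 2))))
  (@Cl.mk (nat_lit 0x20007000a000d0008000c0003000a000600040009000c00080006000e0004) (nat_lit 0x47680300313010) (nat_lit 16) Lb.e (@T16.mk En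
    (@En.n l613 (nat_lit 7747) (nat_lit 6) (nat_lit 4))
    (@En.n l1643 (nat_lit 3918) (nat_lit 1) (nat_lit 14))
    (@En.n l12487 (nat_lit 481) (nat_lit 2) (nat_lit 6))
    (@En.n l8368 (nat_lit 9601) (nat_lit 3) (nat_lit 8))
    (@En.n l1998 (nat_lit 4342) (nat_lit 6) (nat_lit 12))
    (@En.n l1866 (nat_lit 7857) (nat_lit 5) (nat_lit 9))
    (@En.n l1866 (nat_lit 7757) (nat_lit 6) (nat_lit 4))
    (@En.n l2876 (nat_lit 7846) (nat_lit 7) (nat_lit 6))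
    (@En.n l4754 (nat_lit 7839) (nat_lit 9) (nat_lit 10))
    (@En.n l4755 (nat_lit 7852) (nat_lit 9) (nat_lit 3))
    (@En.n l1643 (nat_lit 2320) (nat_lit 11) (nat_lit 12))
    (@En.n l4756 (nat_lit 7837) (nat_lit 12) (nat_lit 8))
    (@En.n l4757 (nat_lit 7415) (nat_lit 5) (nat_lit 13))
    (@En.n l639 (nat_lit 5956) (nat_lit 14) (nat_lit 10))
    (@En.n l12488 (nat_lit 7747) (nat_lit 4) (nat_lit 7))
    (@En.n l18 (nat_lit 7850) (nat_lit 15) (nat_lit 2))))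
  (@Cl.mk (nat_lit 0x30009000600050009000c000c00080007000400040007000a000d000b0008) (nat_lit 0x400352500003576) (nat_lit 16) Lb.e (@T16.mk En
    (@En.n l26477 (nat_lit 4643) (nat_lit 0) (nat_lit 8))
    (@En.n l17277 (nat_lit 7893) (nat_lit 11) (nat_lit 11))
    (@En.n l5251 (nat_lit 7742) (nat_lit 5) (nat_lit 13))
    (@En.n l26478 (nat_lit 12720) (nat_lit 8) (nat_lit 10))
    (@En.n l26479 (nat_lit 7862) (nat_lit 11) (nat_lit 7))
    (@En.n l26480 (nat_lit 7862) (nat_lit 12) (nat_lit 4))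
    (@En.n l8283 (nat_lit 10316) (nat_lit 0) (nat_lit 4))
    (@En.i (nat_lit 469) (nat_lit 0) (nat_lit 7))
    (@En.n l23840 (nat_lit 10503) (nat_lit 1) (nat_lit 8))
    (@En.n l2337 (nat_lit 7852) (nat_lit 4) (nat_lit 12))
    (@En.n l253 (nat_lit 7125) (nat_lit 6) (nat_lit 12))
    (@En.n l3 (nat_lit 7855) (nat_lit 10) (nat_lit 9))
    (@En.n l3 (nat_lit 7754) (nat_lit 11) (nat_lit 5))
    (@En.n l7376 (nat_lit 7860) (nat_lit 14) (nat_lit 6))
    (@En.n l26478 (nat_lit 5692) (nat_lit 1) (nat_lit 9))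
    (@En.n l12498 (nat_lit 7747) (nat_lit 15) (nat_lit 3))))
  (@Cl.mk (nat_lit 0x20007000a000d000b00090003000a000600050009000c00070006000e0004) (nat_lit 0x46870400310080) (nat_lit 16) Lb.e (@T16.mk En
    (@En.n l7 (nat_lit 7851) (nat_lit 6) (nat_lit 4))
    (@En.n l4589 (nat_lit 5522) (nat_lit 1) (nat_lit 14))
    (@En.n l7 (nat_lit 471) (nat_lit 2) (nat_lit 6))
    (@En.i (nat_lit 9609) (nat_lit 3) (nat_lit 7))
    (@En.n l2738 (nat_lit 4338) (nat_lit 6) (nat_lit 12))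
    (@En.n l3 (nat_lit 7854) (nat_lit 5) (nat_lit 9))
    (@En.n l3 (nat_lit 7762) (nat_lit 6) (nat_lit 5))
    (@En.n l4592 (nat_lit 7853) (nat_lit 7) (nat_lit 6))
    (@En.n l4589 (nat_lit 7792) (nat_lit 9) (nat_lit 10))
    (@En.n l1519 (nat_lit 7850) (nat_lit 9) (nat_lit 3))
    (@En.n l4851 (nat_lit 5276) (nat_lit 11) (nat_lit 9))
    (@En.n l4593 (nat_lit 7892) (nat_lit 12) (nat_lit 11))
    (@En.n l1472 (nat_lit 7414) (nat_lit 5) (nat_lit 13))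
    (@En.n l12696 (nat_lit 12721) (nat_lit 14) (nat_lit 10))
    (@En.n l4600 (nat_lit 7851) (nat_lit 4) (nat_lit 7))
    (@En.n l18 (nat_lit 7852) (nat_lit 15) (nat_lit 2))))
  (@Cl.mk (nat_lit 0x20007000a0006000d000c000a0003000600040009000c0006000a000e0004) (nat_lit 0x50798000710110) (nat_lit 16) Lb.e (@T16.mk En
    (@En.n l2129 (nat_lit 7860) (nat_lit 7) (nat_lit 4))
    (@En.i (nat_lit 5530) (nat_lit 1) (nat_lit 14))
    (@En.n l649 (nat_lit 562) (nat_lit 2) (nat_lit 10))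
    (@En.i (nat_lit 9610) (nat_lit 3) (nat_lit 6))
    (@En.i (nat_lit 4339) (nat_lit 6) (nat_lit 12))
    (@En.n l899 (nat_lit 7859) (nat_lit 5) (nat_lit 9))
    (@En.i (nat_lit 7878) (nat_lit 6) (nat_lit 4))
    (@En.i (nat_lit 7566) (nat_lit 7) (nat_lit 6))
    (@En.n l1865 (nat_lit 7846) (nat_lit 8) (nat_lit 3))
    (@En.n l619 (nat_lit 5277) (nat_lit 0) (nat_lit 10))
    (@En.n l3866 (nat_lit 7849) (nat_lit 11) (nat_lit 12))
    (@En.n l12585 (nat_lit 7852) (nat_lit 12) (nat_lit 13))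
    (@En.n l10971 (nat_lit 7810) (nat_lit 13) (nat_lit 6))
    (@En.n l5373 (nat_lit 12726) (nat_lit 14) (nat_lit 10))
    (@En.n l5598 (nat_lit 7860) (nat_lit 5) (nat_lit 7))
    (@En.n l7 (nat_lit 7853) (nat_lit 15) (nat_lit 2))))
  (@Cl.mk (nat_lit 0x20007000d000a000d0003000a0003000b00060009000c00060005000e0004) (nat_lit 0x95208040250040) (nat_lit 16) Lb.e (@T16.mk En
    (@En.n l7 (nat_lit 7855) (nat_lit 5) (nat_lit 4))
    (@En.n l396 (nat_lit 5520) (nat_lit 1) (nat_lit 14))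
    (@En.n l7 (nat_lit 467) (nat_lit 2) (nat_lit 5))
    (@En.i (nat_lit 9611) (nat_lit 3) (nat_lit 6))
    (@En.n l2738 (nat_lit 7416) (nat_lit 6) (nat_lit 12))
    (@En.i (nat_lit 858) (nat_lit 5) (nat_lit 9))
    (@En.n l420 (nat_lit 7859) (nat_lit 6) (nat_lit 6))
    (@En.i (nat_lit 7793) (nat_lit 8) (nat_lit 11))
    (@En.i (nat_lit 7857) (nat_lit 8) (nat_lit 3))
    (@En.i (nat_lit 5233) (nat_lit 10) (nat_lit 10))
    (@En.n l117 (nat_lit 7762) (nat_lit 10) (nat_lit 3))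
    (@En.n l158 (nat_lit 868) (nat_lit 12) (nat_lit 13))
    (@En.i (nat_lit 7852) (nat_lit 13) (nat_lit 10))
    (@En.i (nat_lit 9287) (nat_lit 14) (nat_lit 13))
    (@En.n l4600 (nat_lit 7855) (nat_lit 3) (nat_lit 7))
    (@En.n l18 (nat_lit 7854) (nat_lit 15) (nat_lit 2))))
  (@Cl.mk (nat_lit 0x300090003000a00060009000c000c00070006000400040007000d000a000d) (nat_lit 0x704024600000941) (nat_lit 16) Lb.e (@T16.mk En
    (@En.n l513 (nat_lit 867) (nat_lit 0) (nat_lit 13))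
    (@En.i (nat_lit 7851) (nat_lit 3) (nat_lit 10))
    (@En.i (nat_lit 9290) (nat_lit 2) (nat_lit 13))
    (@En.n l2114 (nat_lit 7861) (nat_lit 11) (nat_lit 7))
    (@En.n l1959 (nat_lit 7861) (nat_lit 12) (nat_lit 4))
    (@En.n l8283 (nat_lit 8619) (nat_lit 0) (nat_lit 4))
    (@En.i (nat_lit 463) (nat_lit 0) (nat_lit 6))
    (@En.i (nat_lit 10501) (nat_lit 1) (nat_lit 7))
    (@En.n l2337 (nat_lit 7854) (nat_lit 4) (nat_lit 12))
    (@En.n l253 (nat_lit 7769) (nat_lit 6) (nat_lit 12))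
    (@En.i (nat_lit 855) (nat_lit 9) (nat_lit 9))
    (@En.n l2019 (nat_lit 7858) (nat_lit 14) (nat_lit 6))
    (@En.n l28 (nat_lit 5690) (nat_lit 13) (nat_lit 10))
    (@En.i (nat_lit 7856) (nat_lit 15) (nat_lit 3))
    (@En.i (nat_lit 5234) (nat_lit 0) (nat_lit 9))
    (@En.n l117 (nat_lit 7754) (nat_lit 15) (nat_lit 3))))
noncomputable def a491 : T16 Cl := @T16.mk Cl
  (@Cl.mk (nat_lit 0x3000a00060009000c000c00080006000400040007000c000a000d00080004) (nat_lit 0x3029a6000055160) (nat_lit 16) Lb.e (@T16.mk En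
    (@En.n l12497 (nat_lit 7898) (nat_lit 0) (nat_lit 4))
    (@En.i (nat_lit 7749) (nat_lit 0) (nat_lit 8))
    (@En.n l4750 (nat_lit 869) (nat_lit 5) (nat_lit 13))
    (@En.n l12498 (nat_lit 7747) (nat_lit 3) (nat_lit 10))
    (@En.n l12499 (nat_lit 8769) (nat_lit 13) (nat_lit 12))
    (@En.n l2114 (nat_lit 7867) (nat_lit 11) (nat_lit 7))
    (@En.n l1959 (nat_lit 7867) (nat_lit 12) (nat_lit 4))
    (@En.n l12499 (nat_lit 8615) (nat_lit 0) (nat_lit 4))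
    (@En.i (nat_lit 460) (nat_lit 0) (nat_lit 6))
    (@En.n l12500 (nat_lit 8395) (nat_lit 1) (nat_lit 8))
    (@En.n l2337 (nat_lit 7857) (nat_lit 4) (nat_lit 12))
    (@En.n l4750 (nat_lit 7135) (nat_lit 6) (nat_lit 12))
    (@En.i (nat_lit 852) (nat_lit 9) (nat_lit 9))
    (@En.n l12183 (nat_lit 7848) (nat_lit 14) (nat_lit 6))
    (@En.n l1976 (nat_lit 7841) (nat_lit 14) (nat_lit 10))
    (@En.n l11 (nat_lit 7855) (nat_lit 13) (nat_lit 3))))
  (@Cl.mk (nat_lit 0x20007000c000a000d000900040003000b00060009000c00070005000e0004) (nat_lit 0x65170030290090) (nat_lit 16) Lb.e (@T16.mk En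
    (@En.n l7 (nat_lit 7856) (nat_lit 7) (nat_lit 4))
    (@En.n l396 (nat_lit 5510) (nat_lit 1) (nat_lit 14))
    (@En.n l7 (nat_lit 461) (nat_lit 2) (nat_lit 5))
    (@En.i (nat_lit 9600) (nat_lit 3) (nat_lit 7))
    (@En.n l129 (nat_lit 7410) (nat_lit 6) (nat_lit 12))
    (@En.i (nat_lit 860) (nat_lit 5) (nat_lit 9))
    (@En.n l591 (nat_lit 7847) (nat_lit 6) (nat_lit 6))
    (@En.n l287 (nat_lit 7838) (nat_lit 8) (nat_lit 11))
    (@En.n l11 (nat_lit 7854) (nat_lit 8) (nat_lit 3))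
    (@En.n l4729 (nat_lit 7900) (nat_lit 9) (nat_lit 4))
    (@En.i (nat_lit 7836) (nat_lit 11) (nat_lit 9))
    (@En.n l129 (nat_lit 866) (nat_lit 12) (nat_lit 13))
    (@En.n l1519 (nat_lit 7850) (nat_lit 13) (nat_lit 10))
    (@En.n l4765 (nat_lit 9278) (nat_lit 14) (nat_lit 12))
    (@En.n l4600 (nat_lit 7856) (nat_lit 5) (nat_lit 7))
    (@En.n l18 (nat_lit 7857) (nat_lit 15) (nat_lit 2))))
  (@Cl.mk (nat_lit 0x300060009000c000c0006000a000400040007000c000a0006000d0004000a) (nat_lit 0x63201000a50208) (nat_lit 16) Lb.e (@T16.mk En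
    (@En.n l3328 (nat_lit 5236) (nat_lit 0) (nat_lit 10))
    (@En.n l34746 (nat_lit 5985) (nat_lit 8) (nat_lit 4))
    (@En.n l6508 (nat_lit 7855) (nat_lit 0) (nat_lit 13))
    (@En.n l30485 (nat_lit 3119) (nat_lit 1) (nat_lit 6))
    (@En.n l34747 (nat_lit 7860) (nat_lit 4) (nat_lit 10))
    (@En.n l34748 (nat_lit 9289) (nat_lit 13) (nat_lit 12))
    (@En.n l7 (nat_lit 7869) (nat_lit 11) (nat_lit 7))
    (@En.n l644 (nat_lit 7869) (nat_lit 12) (nat_lit 4))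
    (@En.n l5838 (nat_lit 12475) (nat_lit 8) (nat_lit 4))
    (@En.n l34749 (nat_lit 568) (nat_lit 0) (nat_lit 10))
    (@En.i (nat_lit 11957) (nat_lit 1) (nat_lit 6))
    (@En.n l5837 (nat_lit 7859) (nat_lit 4) (nat_lit 12))
    (@En.n l34750 (nat_lit 7134) (nat_lit 6) (nat_lit 12))
    (@En.i (nat_lit 7593) (nat_lit 9) (nat_lit 9))
    (@En.n l1081 (nat_lit 7257) (nat_lit 12) (nat_lit 6))
    (@En.n l6507 (nat_lit 7848) (nat_lit 15) (nat_lit 3))))
  (@Cl.mk (nat_lit 0x20007000c000a0007000d0004000b000300060009000c00050009000e0004) (nat_lit 0x96030700610110) (nat_lit 16) Lb.e (@T16.mk En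
    (@En.n l7910 (nat_lit 7858) (nat_lit 8) (nat_lit 4))
    (@En.i (nat_lit 5525) (nat_lit 1) (nat_lit 14))
    (@En.n l11861 (nat_lit 656) (nat_lit 2) (nat_lit 9))
    (@En.i (nat_lit 9612) (nat_lit 3) (nat_lit 5))
    (@En.n l2642 (nat_lit 7418) (nat_lit 6) (nat_lit 12))
    (@En.i (nat_lit 7595) (nat_lit 5) (nat_lit 9))
    (@En.n l1081 (nat_lit 7567) (nat_lit 12) (nat_lit 6))
    (@En.n l1080 (nat_lit 7847) (nat_lit 7) (nat_lit 3))
    (@En.n l3328 (nat_lit 5235) (nat_lit 0) (nat_lit 11))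
    (@En.n l6610 (nat_lit 7887) (nat_lit 9) (nat_lit 4))
    (@En.n l387 (nat_lit 7854) (nat_lit 11) (nat_lit 13))
    (@En.n l23798 (nat_lit 3128) (nat_lit 12) (nat_lit 7))
    (@En.n l2642 (nat_lit 7853) (nat_lit 13) (nat_lit 10))
    (@En.n l25536 (nat_lit 9283) (nat_lit 14) (nat_lit 12))
    (@En.n l2179 (nat_lit 7858) (nat_lit 6) (nat_lit 7))
    (@En.n l50 (nat_lit 7859) (nat_lit 15) (nat_lit 2))))
  (@Cl.mk (nat_lit 0x3000600040009000c000c0007000b000400040007000a0005000d000c0009) (nat_lit 0x7920100040687) (nat_lit 16) Lb.e (@T16.mk En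
    (@En.n l210 (nat_lit 4642) (nat_lit 0) (nat_lit 9))
    (@En.i (nat_lit 7872) (nat_lit 4) (nat_lit 12))
    (@En.n l26236 (nat_lit 7851) (nat_lit 2) (nat_lit 13))
    (@En.n l613 (nat_lit 7809) (nat_lit 3) (nat_lit 5))
    (@En.i (nat_lit 12201) (nat_lit 8) (nat_lit 10))
    (@En.n l27912 (nat_lit 7863) (nat_lit 11) (nat_lit 7))
    (@En.n l14211 (nat_lit 7863) (nat_lit 12) (nat_lit 4))
    (@En.n l5389 (nat_lit 10320) (nat_lit 7) (nat_lit 4))
    (@En.i (nat_lit 558) (nat_lit 0) (nat_lit 11))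
    (@En.n l613 (nat_lit 11862) (nat_lit 1) (nat_lit 7))
    (@En.n l5774 (nat_lit 7853) (nat_lit 4) (nat_lit 12))
    (@En.n l5389 (nat_lit 7123) (nat_lit 6) (nat_lit 12))
    (@En.n l25979 (nat_lit 7858) (nat_lit 13) (nat_lit 9))
    (@En.n l613 (nat_lit 7875) (nat_lit 5) (nat_lit 4))
    (@En.n l2698 (nat_lit 7260) (nat_lit 12) (nat_lit 6))
    (@En.n l50 (nat_lit 7845) (nat_lit 15) (nat_lit 3))))
  (@Cl.mk (nat_lit 0x20008000700040007000d000a000d000300080003000900060009000e000c) (nat_lit 0x4000942060402c5) (nat_lit 16) Lb.e (@T16.mk En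
    (@En.n l1708 (nat_lit 7855) (nat_lit 9) (nat_lit 12))
    (@En.n l10131 (nat_lit 7906) (nat_lit 1) (nat_lit 14))
    (@En.i (nat_lit 854) (nat_lit 2) (nat_lit 9))
    (@En.n l890 (nat_lit 7869) (nat_lit 3) (nat_lit 6))
    (@En.n l13367 (nat_lit 5693) (nat_lit 4) (nat_lit 9))
    (@En.i (nat_lit 7867) (nat_lit 5) (nat_lit 3))
    (@En.n l6103 (nat_lit 5238) (nat_lit 0) (nat_lit 8))
    (@En.n l117 (nat_lit 7761) (nat_lit 7) (nat_lit 3))
    (@En.n l513 (nat_lit 873) (nat_lit 0) (nat_lit 13))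
    (@En.n l13368 (nat_lit 7862) (nat_lit 10) (nat_lit 10))
    (@En.i (nat_lit 12736) (nat_lit 11) (nat_lit 13))
    (@En.n l699 (nat_lit 13628) (nat_lit 11) (nat_lit 7))
    (@En.n l3486 (nat_lit 10314) (nat_lit 4) (nat_lit 4))
    (@En.i (nat_lit 468) (nat_lit 14) (nat_lit 7))
    (@En.n l890 (nat_lit 10506) (nat_lit 1) (nat_lit 8))
    (@En.n l18 (nat_lit 7861) (nat_lit 15) (nat_lit 2))))
  (@Cl.mk (nat_lit 0x20009000800040007000a000d000b000700030008000600050009000e000c) (nat_lit 0x610034600200346) (nat_lit 16) Lb.e (@T16.mk En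
    (@En.n l23115 (nat_lit 7851) (nat_lit 10) (nat_lit 12))
    (@En.n l134 (nat_lit 7162) (nat_lit 1) (nat_lit 14))
    (@En.n l23116 (nat_lit 7861) (nat_lit 2) (nat_lit 9))
    (@En.n l23116 (nat_lit 7761) (nat_lit 3) (nat_lit 5))
    (@En.n l17 (nat_lit 7863) (nat_lit 4) (nat_lit 6))
    (@En.i (nat_lit 7790) (nat_lit 5) (nat_lit 8))
    (@En.n l1865 (nat_lit 7864) (nat_lit 6) (nat_lit 3))
    (@En.n l97 (nat_lit 5267) (nat_lit 0) (nat_lit 7))
    (@En.n l23117 (nat_lit 7894) (nat_lit 9) (nat_lit 11))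
    (@En.n l1112 (nat_lit 7746) (nat_lit 5) (nat_lit 13))
    (@En.n l226 (nat_lit 6376) (nat_lit 11) (nat_lit 10))
    (@En.i (nat_lit 13627) (nat_lit 11) (nat_lit 7))
    (@En.n l19384 (nat_lit 10315) (nat_lit 13) (nat_lit 4))
    (@En.n l23098 (nat_lit 483) (nat_lit 14) (nat_lit 8))
    (@En.i (nat_lit 10508) (nat_lit 1) (nat_lit 9))
    (@En.n l7 (nat_lit 7862) (nat_lit 15) (nat_lit 2))))
  (@Cl.mk (nat_lit 0x20008000c00040007000a0004000d000c00080003000600040009000e000c) (nat_lit 0x51003057600079a) (nat_lit 16) Lb.e (@T16.mk En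
    (@En.n l226 (nat_lit 7860) (nat_lit 11) (nat_lit 12))
    (@En.n l134 (nat_lit 7911) (nat_lit 1) (nat_lit 14))
    (@En.n l899 (nat_lit 7869) (nat_lit 2) (nat_lit 9))
    (@En.i (nat_lit 7873) (nat_lit 3) (nat_lit 4))
    (@En.n l1897 (nat_lit 7259) (nat_lit 4) (nat_lit 6))
    (@En.n l1865 (nat_lit 7865) (nat_lit 5) (nat_lit 3))
    (@En.n l97 (nat_lit 5266) (nat_lit 0) (nat_lit 8))
    (@En.n l3866 (nat_lit 7870) (nat_lit 8) (nat_lit 12))
    (@En.i (nat_lit 7862) (nat_lit 9) (nat_lit 13))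
    (@En.i (nat_lit 7811) (nat_lit 9) (nat_lit 4))
    (@En.n l226 (nat_lit 6374) (nat_lit 11) (nat_lit 10))
    (@En.i (nat_lit 13630) (nat_lit 11) (nat_lit 7))
    (@En.i (nat_lit 10318) (nat_lit 6) (nat_lit 4))
    (@En.n l649 (nat_lit 563) (nat_lit 14) (nat_lit 12))
    (@En.i (nat_lit 11863) (nat_lit 1) (nat_lit 8))
    (@En.n l7 (nat_lit 7863) (nat_lit 15) (nat_lit 2))))
  (@Cl.mk (nat_lit 0x2000a000800040007000a000d0006000c00030008000600040009000e000c) (nat_lit 0x51002503030039a) (nat_lit 16) Lb.e (@T16.mk En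
    (@En.n l1643 (nat_lit 7747) (nat_lit 10) (nat_lit 12))
    (@En.n l619 (nat_lit 7160) (nat_lit 1) (nat_lit 14))
    (@En.n l23413 (nat_lit 7867) (nat_lit 2) (nat_lit 9))
    (@En.n l3291 (nat_lit 7756) (nat_lit 3) (nat_lit 4))
    (@En.n l7 (nat_lit 7865) (nat_lit 4) (nat_lit 6))
    (@En.n l644 (nat_lit 7844) (nat_lit 5) (nat_lit 8))
    (@En.n l2869 (nat_lit 7862) (nat_lit 6) (nat_lit 3))
    (@En.n l1997 (nat_lit 883) (nat_lit 8) (nat_lit 12))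
    (@En.n l7 (nat_lit 7748) (nat_lit 8) (nat_lit 6))
    (@En.n l5838 (nat_lit 7745) (nat_lit 5) (nat_lit 13))
    (@En.n l1643 (nat_lit 6373) (nat_lit 11) (nat_lit 10))
    (@En.i (nat_lit 13623) (nat_lit 11) (nat_lit 7))
    (@En.n l23613 (nat_lit 10319) (nat_lit 5) (nat_lit 4))
    (@En.n l396 (nat_lit 482) (nat_lit 14) (nat_lit 8))
    (@En.n l1997 (nat_lit 8408) (nat_lit 1) (nat_lit 10))
    (@En.n l107 (nat_lit 7864) (nat_lit 15) (nat_lit 2))))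
  (@Cl.mk (nat_lit 0x20009000c00040007000a0004000d0007000d0003000600030009000e000c) (nat_lit 0x51003060700079a) (nat_lit 16) Lb.e (@T16.mk En
    (@En.n l1643 (nat_lit 7845) (nat_lit 11) (nat_lit 12))
    (@En.n l619 (nat_lit 7912) (nat_lit 1) (nat_lit 14))
    (@En.i (nat_lit 7866) (nat_lit 2) (nat_lit 9))
    (@En.n l3291 (nat_lit 7870) (nat_lit 3) (nat_lit 3))
    (@En.i (nat_lit 6021) (nat_lit 4) (nat_lit 6))
    (@En.n l2869 (nat_lit 7863) (nat_lit 5) (nat_lit 3))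
    (@En.n l1997 (nat_lit 2261) (nat_lit 0) (nat_lit 13))
    (@En.i (nat_lit 7844) (nat_lit 7) (nat_lit 7))
    (@En.i (nat_lit 7864) (nat_lit 9) (nat_lit 13))
    (@En.i (nat_lit 7812) (nat_lit 9) (nat_lit 4))
    (@En.n l1643 (nat_lit 6372) (nat_lit 11) (nat_lit 10))
    (@En.i (nat_lit 13625) (nat_lit 11) (nat_lit 7))
    (@En.i (nat_lit 10325) (nat_lit 6) (nat_lit 4))
    (@En.i (nat_lit 566) (nat_lit 14) (nat_lit 12))
    (@En.n l1997 (nat_lit 8433) (nat_lit 1) (nat_lit 9))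
    (@En.n l107 (nat_lit 7865) (nat_lit 15) (nat_lit 2))))
  (@Cl.mk (nat_lit 0x20008000b00040007000b000a0005000d00080005000300060009000e000c) (nat_lit 0x61004402600063a) (nat_lit 16) Lb.e (@T16.mk En
    (@En.n l1643 (nat_lit 7848) (nat_lit 12) (nat_lit 12))
    (@En.n l6030 (nat_lit 7909) (nat_lit 1) (nat_lit 14))
    (@En.n l2366 (nat_lit 7588) (nat_lit 9) (nat_lit 9))
    (@En.i (nat_lit 5771) (nat_lit 3) (nat_lit 6))
    (@En.n l2368 (nat_lit 7869) (nat_lit 4) (nat_lit 3))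
    (@En.n l1722 (nat_lit 7896) (nat_lit 0) (nat_lit 5))
    (@En.n l2366 (nat_lit 7868) (nat_lit 6) (nat_lit 8))
    (@En.n l23413 (nat_lit 7867) (nat_lit 8) (nat_lit 13))
    (@En.n l170 (nat_lit 3121) (nat_lit 8) (nat_lit 5))
    (@En.n l725 (nat_lit 7865) (nat_lit 10) (nat_lit 10))
    (@En.n l10357 (nat_lit 8764) (nat_lit 11) (nat_lit 11))
    (@En.i (nat_lit 13624) (nat_lit 11) (nat_lit 7))
    (@En.i (nat_lit 12477) (nat_lit 7) (nat_lit 4))
    (@En.i (nat_lit 640) (nat_lit 7) (nat_lit 11))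
    (@En.n l3337 (nat_lit 8816) (nat_lit 1) (nat_lit 8))
    (@En.n l107 (nat_lit 7866) (nat_lit 15) (nat_lit 2))))
  (@Cl.mk (nat_lit 0x20009000700040007000c000a000d000700040003000900060009000e000c) (nat_lit 0x7000431000202ca) (nat_lit 16) Lb.e (@T16.mk En
    (@En.n l1708 (nat_lit 7856) (nat_lit 11) (nat_lit 12))
    (@En.n l10353 (nat_lit 7163) (nat_lit 1) (nat_lit 14))
    (@En.i (nat_lit 853) (nat_lit 2) (nat_lit 9))
    (@En.n l10354 (nat_lit 7866) (nat_lit 3) (nat_lit 6))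
    (@En.n l287 (nat_lit 7868) (nat_lit 4) (nat_lit 9))
    (@En.n l11 (nat_lit 7861) (nat_lit 5) (nat_lit 3))
    (@En.n l10355 (nat_lit 7899) (nat_lit 0) (nat_lit 4))
    (@En.i (nat_lit 7750) (nat_lit 7) (nat_lit 7))
    (@En.n l4073 (nat_lit 872) (nat_lit 5) (nat_lit 13))
    (@En.n l10356 (nat_lit 7864) (nat_lit 10) (nat_lit 10))
    (@En.n l10133 (nat_lit 8770) (nat_lit 11) (nat_lit 12))
    (@En.n l699 (nat_lit 13622) (nat_lit 11) (nat_lit 7))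
    (@En.n l10133 (nat_lit 8617) (nat_lit 13) (nat_lit 4))
    (@En.i (nat_lit 462) (nat_lit 14) (nat_lit 7))
    (@En.n l890 (nat_lit 8392) (nat_lit 1) (nat_lit 9))
    (@En.n l18 (nat_lit 7867) (nat_lit 15) (nat_lit 2))))
  (@Cl.mk (nat_lit 0x200080007000b00050008000c000b000500080004000900050008000e000b) (nat_lit 0x602055405010539) (nat_lit 16) Lb.e (@T16.mk En
    (@En.n l6507 (nat_lit 7841) (nat_lit 11) (nat_lit 11))
    (@En.n l22459 (nat_lit 7910) (nat_lit 1) (nat_lit 14))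
    (@En.i (nat_lit 7590) (nat_lit 10) (nat_lit 8))
    (@En.n l22460 (nat_lit 5768) (nat_lit 3) (nat_lit 5))
    (@En.n l21576 (nat_lit 5243) (nat_lit 4) (nat_lit 9))
    (@En.n l9361 (nat_lit 4652) (nat_lit 5) (nat_lit 4))
    (@En.n l1776 (nat_lit 6050) (nat_lit 10) (nat_lit 8))
    (@En.i (nat_lit 1996) (nat_lit 7) (nat_lit 5))
    (@En.n l710 (nat_lit 7844) (nat_lit 9) (nat_lit 11))
    (@En.n l22461 (nat_lit 8765) (nat_lit 10) (nat_lit 12))
    (@En.i (nat_lit 13141) (nat_lit 10) (nat_lit 8))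
    (@En.n l8144 (nat_lit 10310) (nat_lit 12) (nat_lit 5))
    (@En.n l22462 (nat_lit 7866) (nat_lit 13) (nat_lit 11))
    (@En.i (nat_lit 7869) (nat_lit 14) (nat_lit 7))
    (@En.n l22463 (nat_lit 8390) (nat_lit 2) (nat_lit 8))
    (@En.n l50 (nat_lit 7868) (nat_lit 15) (nat_lit 2))))
  (@Cl.mk (nat_lit 0x20007000b00040007000c000a0005000d00040009000300060009000e000c) (nat_lit 0x100a4030700674) (nat_lit 16) Lb.e (@T16.mk En
    (@En.i (nat_lit 7858) (nat_lit 12) (nat_lit 12))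
    (@En.n l26197 (nat_lit 7908) (nat_lit 1) (nat_lit 14))
    (@En.i (nat_lit 7592) (nat_lit 2) (nat_lit 9))
    (@En.n l1081 (nat_lit 7255) (nat_lit 12) (nat_lit 6))
    (@En.n l711 (nat_lit 7866) (nat_lit 4) (nat_lit 3))
    (@En.n l3328 (nat_lit 5237) (nat_lit 0) (nat_lit 9))
    (@En.n l117 (nat_lit 7874) (nat_lit 6) (nat_lit 4))
    (@En.n l1722 (nat_lit 7861) (nat_lit 8) (nat_lit 13))
    (@En.i (nat_lit 3120) (nat_lit 8) (nat_lit 5))
    (@En.n l2642 (nat_lit 7863) (nat_lit 10) (nat_lit 10))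
    (@En.n l1003 (nat_lit 12737) (nat_lit 11) (nat_lit 12))
    (@En.i (nat_lit 13631) (nat_lit 11) (nat_lit 7))
    (@En.i (nat_lit 12474) (nat_lit 7) (nat_lit 4))
    (@En.n l5798 (nat_lit 654) (nat_lit 14) (nat_lit 11))
    (@En.i (nat_lit 11955) (nat_lit 1) (nat_lit 7))
    (@En.n l50 (nat_lit 7869) (nat_lit 15) (nat_lit 2))))
  (@Cl.mk (nat_lit 0x20009000c00040007000b0004000c0007000d0005000400030009000e000c) (nat_lit 0x51002060600079a) (nat_lit 16) Lb.e (@T16.mk En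
    (@En.n l25666 (nat_lit 7872) (nat_lit 13) (nat_lit 12))
    (@En.n l180 (nat_lit 7913) (nat_lit 1) (nat_lit 14))
    (@En.n l6080 (nat_lit 7512) (nat_lit 2) (nat_lit 9))
    (@En.n l2101 (nat_lit 7865) (nat_lit 3) (nat_lit 3))
    (@En.n l2921 (nat_lit 7876) (nat_lit 4) (nat_lit 4))
    (@En.n l15089 (nat_lit 7866) (nat_lit 5) (nat_lit 5))
    (@En.i (nat_lit 2259) (nat_lit 7) (nat_lit 13))
    (@En.n l61 (nat_lit 7871) (nat_lit 7) (nat_lit 7))
    (@En.i (nat_lit 7756) (nat_lit 9) (nat_lit 12))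
    (@En.i (nat_lit 4653) (nat_lit 9) (nat_lit 4))
    (@En.n l25666 (nat_lit 12426) (nat_lit 11) (nat_lit 11))
    (@En.i (nat_lit 13135) (nat_lit 11) (nat_lit 7))
    (@En.i (nat_lit 10539) (nat_lit 8) (nat_lit 4))
    (@En.n l2921 (nat_lit 584) (nat_lit 14) (nat_lit 12))
    (@En.i (nat_lit 9072) (nat_lit 1) (nat_lit 9))
    (@En.n l11 (nat_lit 7870) (nat_lit 15) (nat_lit 2))))
  (@Cl.mk (nat_lit 0x200090007000c00050008000c00040007000d0004000900030008000e000b) (nat_lit 0x502052005020679) (nat_lit 16) Lb.e (@T16.mk En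
    (@En.n l3839 (nat_lit 7843) (nat_lit 13) (nat_lit 11))
    (@En.n l180 (nat_lit 7915) (nat_lit 1) (nat_lit 14))
    (@En.n l13782 (nat_lit 7511) (nat_lit 2) (nat_lit 8))
    (@En.n l6131 (nat_lit 7844) (nat_lit 3) (nat_lit 3))
    (@En.n l13783 (nat_lit 4766) (nat_lit 0) (nat_lit 9))
    (@En.n l13784 (nat_lit 7868) (nat_lit 5) (nat_lit 4))
    (@En.i (nat_lit 2574) (nat_lit 7) (nat_lit 13))
    (@En.n l9167 (nat_lit 6055) (nat_lit 11) (nat_lit 7))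
    (@En.i (nat_lit 4651) (nat_lit 8) (nat_lit 4))
    (@En.n l12639 (nat_lit 11895) (nat_lit 10) (nat_lit 12))
    (@En.i (nat_lit 13137) (nat_lit 10) (nat_lit 8))
    (@En.n l9167 (nat_lit 10707) (nat_lit 7) (nat_lit 5))
    (@En.n l617 (nat_lit 7870) (nat_lit 13) (nat_lit 12))
    (@En.n l3480 (nat_lit 7873) (nat_lit 14) (nat_lit 7))
    (@En.i (nat_lit 9070) (nat_lit 11) (nat_lit 9))
    (@En.n l11 (nat_lit 7871) (nat_lit 15) (nat_lit 2))))
noncomputable def a492 : T16 Cl := @T16.mk Cl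
  (@Cl.mk (nat_lit 0x30009000c000c0008000b000400040007000b0005000c0008000d00050004) (nat_lit 0x792410003076700) (nat_lit 16) Lb.e (@T16.mk En
    (@En.n l629 (nat_lit 7879) (nat_lit 0) (nat_lit 4))
    (@En.n l5 (nat_lit 7848) (nat_lit 0) (nat_lit 5))
    (@En.n l14430 (nat_lit 2256) (nat_lit 1) (nat_lit 13))
    (@En.n l14431 (nat_lit 7843) (nat_lit 3) (nat_lit 8))
    (@En.n l2324 (nat_lit 7755) (nat_lit 11) (nat_lit 12))
    (@En.i (nat_lit 4648) (nat_lit 5) (nat_lit 5))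
    (@En.i (nat_lit 12203) (nat_lit 8) (nat_lit 11))
    (@En.n l14432 (nat_lit 7870) (nat_lit 11) (nat_lit 7))
    (@En.n l14433 (nat_lit 7870) (nat_lit 12) (nat_lit 4))
    (@En.n l14434 (nat_lit 10538) (nat_lit 0) (nat_lit 4))
    (@En.i (nat_lit 567) (nat_lit 7) (nat_lit 11))
    (@En.n l14430 (nat_lit 9071) (nat_lit 1) (nat_lit 8))
    (@En.n l14435 (nat_lit 7849) (nat_lit 4) (nat_lit 12))
    (@En.n l5821 (nat_lit 7128) (nat_lit 6) (nat_lit 12))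
    (@En.n l2329 (nat_lit 7513) (nat_lit 4) (nat_lit 9))
    (@En.i (nat_lit 7845) (nat_lit 13) (nat_lit 3))))
  (@Cl.mk (nat_lit 0x20007000c00040007000c0004000c000c00040009000400040009000e000c) (nat_lit 0x100a065070077a) (nat_lit 16) Lb.e (@T16.mk En
    (@En.i (nat_lit 7875) (nat_lit 3) (nat_lit 12))
    (@En.n l134 (nat_lit 7484) (nat_lit 1) (nat_lit 14))
    (@En.n l899 (nat_lit 5497) (nat_lit 2) (nat_lit 9))
    (@En.n l152 (nat_lit 5983) (nat_lit 12) (nat_lit 4))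
    (@En.n l3851 (nat_lit 7870) (nat_lit 4) (nat_lit 4))
    (@En.n l617 (nat_lit 5903) (nat_lit 5) (nat_lit 9))
    (@En.n l2125 (nat_lit 7869) (nat_lit 6) (nat_lit 4))
    (@En.n l13561 (nat_lit 7876) (nat_lit 8) (nat_lit 12))
    (@En.n l23116 (nat_lit 7761) (nat_lit 9) (nat_lit 12))
    (@En.i (nat_lit 7877) (nat_lit 9) (nat_lit 4))
    (@En.n l5780 (nat_lit 12651) (nat_lit 11) (nat_lit 12))
    (@En.i (nat_lit 13133) (nat_lit 11) (nat_lit 7))
    (@En.n l4172 (nat_lit 12461) (nat_lit 13) (nat_lit 4))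
    (@En.n l2213 (nat_lit 588) (nat_lit 14) (nat_lit 12))
    (@En.i (nat_lit 11719) (nat_lit 1) (nat_lit 7))
    (@En.n l7 (nat_lit 7873) (nat_lit 15) (nat_lit 2))))
  (@Cl.mk (nat_lit 0x20007000a00040007000c000b000b000600040009000500050009000e000c) (nat_lit 0x10025400700551) (nat_lit 16) Lb.e (@T16.mk En
    (@En.n l5882 (nat_lit 5985) (nat_lit 3) (nat_lit 12))
    (@En.n l39756 (nat_lit 7481) (nat_lit 1) (nat_lit 14))
    (@En.i (nat_lit 5482) (nat_lit 2) (nat_lit 9))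
    (@En.n l11401 (nat_lit 5981) (nat_lit 3) (nat_lit 5))
    (@En.n l39757 (nat_lit 7894) (nat_lit 4) (nat_lit 5))
    (@En.n l16218 (nat_lit 7877) (nat_lit 5) (nat_lit 9))
    (@En.n l1003 (nat_lit 7873) (nat_lit 6) (nat_lit 4))
    (@En.i (nat_lit 3123) (nat_lit 7) (nat_lit 6))
    (@En.n l12644 (nat_lit 7885) (nat_lit 9) (nat_lit 11))
    (@En.n l12645 (nat_lit 7866) (nat_lit 10) (nat_lit 11))
    (@En.n l17247 (nat_lit 12685) (nat_lit 11) (nat_lit 12))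
    (@En.i (nat_lit 13134) (nat_lit 11) (nat_lit 7))
    (@En.i (nat_lit 12471) (nat_lit 13) (nat_lit 4))
    (@En.n l2299 (nat_lit 669) (nat_lit 8) (nat_lit 10))
    (@En.i (nat_lit 11799) (nat_lit 1) (nat_lit 7))
    (@En.n l50 (nat_lit 7874) (nat_lit 15) (nat_lit 2))))
  (@Cl.mk (nat_lit 0x400040007000c0005000c000c0004000a000400040009000c000c0006000b) (nat_lit 0x9076080079301) (nat_lit 16) Lb.e (@T16.mk En
    (@En.n l8469 (nat_lit 586) (nat_lit 0) (nat_lit 11))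
    (@En.i (nat_lit 11717) (nat_lit 1) (nat_lit 6))
    (@En.n l14612 (nat_lit 7878) (nat_lit 4) (nat_lit 12))
    (@En.n l3039 (nat_lit 7131) (nat_lit 6) (nat_lit 12))
    (@En.n l27971 (nat_lit 5496) (nat_lit 4) (nat_lit 9))
    (@En.n l152 (nat_lit 5980) (nat_lit 12) (nat_lit 4))
    (@En.n l248 (nat_lit 7872) (nat_lit 0) (nat_lit 4))
    (@En.n l617 (nat_lit 5901) (nat_lit 0) (nat_lit 10))
    (@En.n l2125 (nat_lit 7858) (nat_lit 1) (nat_lit 4))
    (@En.n l27972 (nat_lit 7879) (nat_lit 4) (nat_lit 12))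
    (@En.n l16127 (nat_lit 7754) (nat_lit 1) (nat_lit 12))
    (@En.i (nat_lit 5986) (nat_lit 4) (nat_lit 5))
    (@En.n l5780 (nat_lit 12427) (nat_lit 13) (nat_lit 12))
    (@En.n l28 (nat_lit 7873) (nat_lit 11) (nat_lit 7))
    (@En.n l77 (nat_lit 7873) (nat_lit 12) (nat_lit 4))
    (@En.n l27973 (nat_lit 12462) (nat_lit 0) (nat_lit 4))))
  (@Cl.mk (nat_lit 0x20008000c00040007000d0004000c00030008000e000400020009000e000c) (nat_lit 0x51009040640077a) (nat_lit 16) Lb.e (@T16.mk En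
    (@En.n l180 (nat_lit 7879) (nat_lit 13) (nat_lit 12))
    (@En.n l619 (nat_lit 7922) (nat_lit 1) (nat_lit 14))
    (@En.n l2039 (nat_lit 5487) (nat_lit 2) (nat_lit 9))
    (@En.n l17 (nat_lit 7876) (nat_lit 3) (nat_lit 2))
    (@En.n l13375 (nat_lit 7873) (nat_lit 4) (nat_lit 4))
    (@En.n l998 (nat_lit 2260) (nat_lit 6) (nat_lit 14))
    (@En.n l4172 (nat_lit 6060) (nat_lit 6) (nat_lit 8))
    (@En.i (nat_lit 7885) (nat_lit 7) (nat_lit 3))
    (@En.n l217 (nat_lit 7759) (nat_lit 0) (nat_lit 12))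
    (@En.i (nat_lit 7886) (nat_lit 9) (nat_lit 4))
    (@En.n l1643 (nat_lit 4037) (nat_lit 7) (nat_lit 13))
    (@En.i (nat_lit 13131) (nat_lit 11) (nat_lit 7))
    (@En.i (nat_lit 7891) (nat_lit 8) (nat_lit 4))
    (@En.i (nat_lit 591) (nat_lit 10) (nat_lit 12))
    (@En.n l998 (nat_lit 10761) (nat_lit 11) (nat_lit 8))
    (@En.n l107 (nat_lit 7876) (nat_lit 15) (nat_lit 2))))
  (@Cl.mk (nat_lit 0x20007000c000a000500080004000c000c00060009000400040008000e000b) (nat_lit 0x82060640600441) (nat_lit 16) Lb.e (@T16.mk En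
    (@En.i (nat_lit 5986) (nat_lit 12) (nat_lit 11))
    (@En.n l134 (nat_lit 7485) (nat_lit 1) (nat_lit 14))
    (@En.n l17133 (nat_lit 5479) (nat_lit 2) (nat_lit 8))
    (@En.n l152 (nat_lit 5977) (nat_lit 3) (nat_lit 4))
    (@En.n l3851 (nat_lit 4653) (nat_lit 4) (nat_lit 4))
    (@En.n l17133 (nat_lit 6048) (nat_lit 9) (nat_lit 9))
    (@En.i (nat_lit 3125) (nat_lit 6) (nat_lit 6))
    (@En.n l13561 (nat_lit 7886) (nat_lit 8) (nat_lit 12))
    (@En.n l22554 (nat_lit 7868) (nat_lit 9) (nat_lit 12))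
    (@En.n l18 (nat_lit 11197) (nat_lit 9) (nat_lit 4))
    (@En.n l20665 (nat_lit 13132) (nat_lit 10) (nat_lit 8))
    (@En.n l3523 (nat_lit 10266) (nat_lit 12) (nat_lit 5))
    (@En.n l899 (nat_lit 7874) (nat_lit 13) (nat_lit 10))
    (@En.n l2213 (nat_lit 2208) (nat_lit 14) (nat_lit 12))
    (@En.i (nat_lit 10759) (nat_lit 2) (nat_lit 7))
    (@En.n l7 (nat_lit 7877) (nat_lit 15) (nat_lit 2))))
  (@Cl.mk (nat_lit 0x20007000c0006000c000c0004000b000400040009000c0005000a000e0004) (nat_lit 0x90870900720140) (nat_lit 16) Lb.e (@T16.mk En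
    (@En.n l8898 (nat_lit 7875) (nat_lit 15) (nat_lit 4))
    (@En.i (nat_lit 7033) (nat_lit 1) (nat_lit 14))
    (@En.n l2213 (nat_lit 587) (nat_lit 2) (nat_lit 10))
    (@En.i (nat_lit 11515) (nat_lit 3) (nat_lit 5))
    (@En.i (nat_lit 7303) (nat_lit 6) (nat_lit 12))
    (@En.n l4817 (nat_lit 7600) (nat_lit 5) (nat_lit 9))
    (@En.n l152 (nat_lit 5984) (nat_lit 12) (nat_lit 4))
    (@En.n l3851 (nat_lit 7849) (nat_lit 7) (nat_lit 4))
    (@En.n l617 (nat_lit 5847) (nat_lit 9) (nat_lit 11))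
    (@En.n l2125 (nat_lit 7859) (nat_lit 9) (nat_lit 4))
    (@En.n l3536 (nat_lit 7880) (nat_lit 11) (nat_lit 12))
    (@En.n l4817 (nat_lit 7762) (nat_lit 12) (nat_lit 12))
    (@En.i (nat_lit 5987) (nat_lit 13) (nat_lit 6))
    (@En.n l766 (nat_lit 12728) (nat_lit 14) (nat_lit 12))
    (@En.n l5934 (nat_lit 7875) (nat_lit 13) (nat_lit 7))
    (@En.n l7 (nat_lit 7878) (nat_lit 15) (nat_lit 2))))
  (@Cl.mk (nat_lit 0x20009000c000c0007000b000400040007000d0005000c00030009000e0004) (nat_lit 0x792010009050740) (nat_lit 16) Lb.e (@T16.mk En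
    (@En.n l28598 (nat_lit 7875) (nat_lit 6) (nat_lit 4))
    (@En.n l16632 (nat_lit 2255) (nat_lit 1) (nat_lit 14))
    (@En.n l16633 (nat_lit 6059) (nat_lit 2) (nat_lit 9))
    (@En.i (nat_lit 7882) (nat_lit 3) (nat_lit 3))
    (@En.n l14019 (nat_lit 7758) (nat_lit 0) (nat_lit 12))
    (@En.n l5732 (nat_lit 7884) (nat_lit 5) (nat_lit 5))
    (@En.n l615 (nat_lit 12659) (nat_lit 7) (nat_lit 13))
    (@En.n l159 (nat_lit 7876) (nat_lit 11) (nat_lit 7))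
    (@En.n l11 (nat_lit 7876) (nat_lit 12) (nat_lit 4))
    (@En.n l16634 (nat_lit 7890) (nat_lit 9) (nat_lit 4))
    (@En.i (nat_lit 589) (nat_lit 11) (nat_lit 11))
    (@En.n l16632 (nat_lit 11721) (nat_lit 12) (nat_lit 7))
    (@En.n l16635 (nat_lit 7880) (nat_lit 4) (nat_lit 12))
    (@En.n l8009 (nat_lit 7934) (nat_lit 14) (nat_lit 12))
    (@En.n l28599 (nat_lit 5488) (nat_lit 11) (nat_lit 9))
    (@En.n l17 (nat_lit 7879) (nat_lit 15) (nat_lit 2))))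
  (@Cl.mk (nat_lit 0x20007000d0006000c0003000a000e000400020009000c0006000a000e0004) (nat_lit 0x90608400710140) (nat_lit 16) Lb.e (@T16.mk En
    (@En.n l18677 (nat_lit 7879) (nat_lit 9) (nat_lit 4))
    (@En.i (nat_lit 7027) (nat_lit 11) (nat_lit 14))
    (@En.n l781 (nat_lit 590) (nat_lit 2) (nat_lit 10))
    (@En.i (nat_lit 11511) (nat_lit 3) (nat_lit 6))
    (@En.i (nat_lit 7448) (nat_lit 14) (nat_lit 12))
    (@En.n l2125 (nat_lit 5492) (nat_lit 5) (nat_lit 9))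
    (@En.n l17 (nat_lit 7880) (nat_lit 6) (nat_lit 2))
    (@En.n l3098 (nat_lit 7878) (nat_lit 7) (nat_lit 4))
    (@En.i (nat_lit 2254) (nat_lit 9) (nat_lit 14))
    (@En.n l253 (nat_lit 6061) (nat_lit 10) (nat_lit 10))
    (@En.i (nat_lit 7881) (nat_lit 10) (nat_lit 3))
    (@En.i (nat_lit 7760) (nat_lit 12) (nat_lit 12))
    (@En.i (nat_lit 7883) (nat_lit 13) (nat_lit 6))
    (@En.n l253 (nat_lit 12658) (nat_lit 7) (nat_lit 13))
    (@En.n l8959 (nat_lit 7879) (nat_lit 7) (nat_lit 7))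
    (@En.n l11 (nat_lit 7880) (nat_lit 15) (nat_lit 2))))
  (@Cl.mk (nat_lit 0x20007000d000b00070003000a000e000500020009000c00060009000e0004) (nat_lit 0xa7008200610140) (nat_lit 16) Lb.e (@T16.mk En
    (@En.n l18677 (nat_lit 7882) (nat_lit 9) (nat_lit 4))
    (@En.i (nat_lit 7031) (nat_lit 11) (nat_lit 14))
    (@En.n l781 (nat_lit 671) (nat_lit 2) (nat_lit 9))
    (@En.i (nat_lit 11508) (nat_lit 3) (nat_lit 6))
    (@En.i (nat_lit 3533) (nat_lit 14) (nat_lit 12))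
    (@En.n l17095 (nat_lit 5493) (nat_lit 5) (nat_lit 9))
    (@En.n l17 (nat_lit 7881) (nat_lit 6) (nat_lit 2))
    (@En.n l11822 (nat_lit 7887) (nat_lit 7) (nat_lit 5))
    (@En.i (nat_lit 2252) (nat_lit 9) (nat_lit 14))
    (@En.n l612 (nat_lit 7883) (nat_lit 10) (nat_lit 10))
    (@En.n l50 (nat_lit 7880) (nat_lit 10) (nat_lit 3))
    (@En.n l7073 (nat_lit 1940) (nat_lit 4) (nat_lit 7))
    (@En.n l217 (nat_lit 7849) (nat_lit 13) (nat_lit 11))
    (@En.n l7073 (nat_lit 12655) (nat_lit 7) (nat_lit 13))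
    (@En.n l8959 (nat_lit 7882) (nat_lit 7) (nat_lit 7))
    (@En.n l11 (nat_lit 7881) (nat_lit 15) (nat_lit 2))))
  (@Cl.mk (nat_lit 0x20009000c000c0007000a000400040007000d000b000600030009000e0005) (nat_lit 0x69201000a400720) (nat_lit 16) Lb.e (@T16.mk En
    (@En.n l16631 (nat_lit 5985) (nat_lit 6) (nat_lit 5))
    (@En.n l16632 (nat_lit 2192) (nat_lit 1) (nat_lit 14))
    (@En.n l16633 (nat_lit 7884) (nat_lit 2) (nat_lit 9))
    (@En.n l7 (nat_lit 7879) (nat_lit 3) (nat_lit 3))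
    (@En.n l2690 (nat_lit 1935) (nat_lit 4) (nat_lit 6))
    (@En.n l1966 (nat_lit 7872) (nat_lit 6) (nat_lit 11))
    (@En.n l615 (nat_lit 12654) (nat_lit 7) (nat_lit 13))
    (@En.n l159 (nat_lit 7885) (nat_lit 11) (nat_lit 7))
    (@En.n l11 (nat_lit 7885) (nat_lit 12) (nat_lit 4))
    (@En.n l16634 (nat_lit 7888) (nat_lit 9) (nat_lit 4))
    (@En.i (nat_lit 670) (nat_lit 11) (nat_lit 10))
    (@En.n l16632 (nat_lit 7946) (nat_lit 12) (nat_lit 7))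
    (@En.n l16635 (nat_lit 7881) (nat_lit 4) (nat_lit 12))
    (@En.n l8009 (nat_lit 7935) (nat_lit 14) (nat_lit 12))
    (@En.n l2689 (nat_lit 5489) (nat_lit 11) (nat_lit 9))
    (@En.n l17 (nat_lit 7882) (nat_lit 15) (nat_lit 2))))
  (@Cl.mk (nat_lit 0x200080006000c0007000a000e000400020008000b0006000a0009000e0005) (nat_lit 0xa078005101250) (nat_lit 16) Lb.e (@T16.mk En
    (@En.n l34433 (nat_lit 7884) (nat_lit 8) (nat_lit 5))
    (@En.n l5928 (nat_lit 7797) (nat_lit 10) (nat_lit 14))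
    (@En.n l644 (nat_lit 7881) (nat_lit 2) (nat_lit 9))
    (@En.n l39942 (nat_lit 826) (nat_lit 3) (nat_lit 10))
    (@En.n l13212 (nat_lit 11507) (nat_lit 4) (nat_lit 6))
    (@En.i (nat_lit 3527) (nat_lit 7) (nat_lit 11))
    (@En.n l2125 (nat_lit 5495) (nat_lit 6) (nat_lit 8))
    (@En.n l17 (nat_lit 7883) (nat_lit 7) (nat_lit 2))
    (@En.n l3098 (nat_lit 5987) (nat_lit 8) (nat_lit 4))
    (@En.i (nat_lit 2296) (nat_lit 10) (nat_lit 14))
    (@En.n l13212 (nat_lit 5843) (nat_lit 2) (nat_lit 10))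
    (@En.i (nat_lit 1937) (nat_lit 3) (nat_lit 7))
    (@En.n l564 (nat_lit 7842) (nat_lit 13) (nat_lit 12))
    (@En.n l7471 (nat_lit 11268) (nat_lit 14) (nat_lit 6))
    (@En.n l36670 (nat_lit 7884) (nat_lit 6) (nat_lit 8))
    (@En.n l11 (nat_lit 7883) (nat_lit 15) (nat_lit 2))))
  (@Cl.mk (nat_lit 0x20008000b000b0007000b000a0005000500080005000c00060009000e0004) (nat_lit 0x582012006040670) (nat_lit 16) Lb.e (@T16.mk En
    (@En.n l13375 (nat_lit 5986) (nat_lit 15) (nat_lit 4))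
    (@En.n l998 (nat_lit 2299) (nat_lit 1) (nat_lit 14))
    (@En.n l31341 (nat_lit 5844) (nat_lit 9) (nat_lit 9))
    (@En.n l25123 (nat_lit 1936) (nat_lit 3) (nat_lit 6))
    (@En.n l30915 (nat_lit 7843) (nat_lit 5) (nat_lit 12))
    (@En.n l28 (nat_lit 11148) (nat_lit 5) (nat_lit 5))
    (@En.n l3 (nat_lit 7886) (nat_lit 10) (nat_lit 8))
    (@En.n l527 (nat_lit 7886) (nat_lit 11) (nat_lit 5))
    (@En.n l11778 (nat_lit 10263) (nat_lit 8) (nat_lit 5))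
    (@En.n l11780 (nat_lit 7882) (nat_lit 10) (nat_lit 10))
    (@En.i (nat_lit 827) (nat_lit 11) (nat_lit 11))
    (@En.n l998 (nat_lit 10755) (nat_lit 12) (nat_lit 7))
    (@En.n l31342 (nat_lit 7883) (nat_lit 5) (nat_lit 11))
    (@En.n l31343 (nat_lit 7936) (nat_lit 7) (nat_lit 11))
    (@En.n l9724 (nat_lit 5473) (nat_lit 14) (nat_lit 8))
    (@En.n l17 (nat_lit 7884) (nat_lit 15) (nat_lit 2))))
  (@Cl.mk (nat_lit 0x20008000b00040007000d000b000500030008000e000500020009000e000c) (nat_lit 0x5100a300620069a) (nat_lit 16) Lb.e (@T16.mk En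
    (@En.n l180 (nat_lit 7882) (nat_lit 13) (nat_lit 12))
    (@En.n l619 (nat_lit 7921) (nat_lit 1) (nat_lit 14))
    (@En.n l5560 (nat_lit 5490) (nat_lit 2) (nat_lit 9))
    (@En.n l17 (nat_lit 7885) (nat_lit 3) (nat_lit 2))
    (@En.n l5560 (nat_lit 7874) (nat_lit 4) (nat_lit 5))
    (@En.n l998 (nat_lit 2191) (nat_lit 6) (nat_lit 14))
    (@En.n l4172 (nat_lit 7886) (nat_lit 6) (nat_lit 8))
    (@En.n l7 (nat_lit 7876) (nat_lit 7) (nat_lit 3))
    (@En.n l278 (nat_lit 1933) (nat_lit 8) (nat_lit 5))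
    (@En.n l2026 (nat_lit 7870) (nat_lit 10) (nat_lit 11))
    (@En.n l1643 (nat_lit 4040) (nat_lit 7) (nat_lit 13))
    (@En.i (nat_lit 13130) (nat_lit 11) (nat_lit 7))
    (@En.i (nat_lit 7889) (nat_lit 8) (nat_lit 4))
    (@En.i (nat_lit 672) (nat_lit 10) (nat_lit 11))
    (@En.n l998 (nat_lit 10758) (nat_lit 11) (nat_lit 8))
    (@En.n l107 (nat_lit 7885) (nat_lit 15) (nat_lit 2))))
  (@Cl.mk (nat_lit 0x20008000c000b000500080004000c00050008000e000400020008000e000b) (nat_lit 0x512050305600589) (nat_lit 16) Lb.e (@T16.mk En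
    (@En.i (nat_lit 7884) (nat_lit 13) (nat_lit 11))
    (@En.n l97 (nat_lit 7920) (nat_lit 1) (nat_lit 14))
    (@En.n l9724 (nat_lit 5491) (nat_lit 2) (nat_lit 8))
    (@En.n l17 (nat_lit 7886) (nat_lit 3) (nat_lit 2))
    (@En.n l13375 (nat_lit 7877) (nat_lit 4) (nat_lit 4))
    (@En.n l998 (nat_lit 2356) (nat_lit 6) (nat_lit 14))
    (@En.n l4172 (nat_lit 6058) (nat_lit 10) (nat_lit 8))
    (@En.n l28 (nat_lit 1934) (nat_lit 3) (nat_lit 5))
    (@En.n l9726 (nat_lit 7871) (nat_lit 9) (nat_lit 12))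
    (@En.n l28 (nat_lit 11196) (nat_lit 9) (nat_lit 4))
    (@En.i (nat_lit 13129) (nat_lit 10) (nat_lit 8))
    (@En.i (nat_lit 10261) (nat_lit 7) (nat_lit 5))
    (@En.n l77 (nat_lit 7885) (nat_lit 13) (nat_lit 11))
    (@En.i (nat_lit 834) (nat_lit 10) (nat_lit 12))
    (@En.n l998 (nat_lit 10754) (nat_lit 11) (nat_lit 8))
    (@En.n l107 (nat_lit 7886) (nat_lit 15) (nat_lit 2))))
  (@Cl.mk (nat_lit 0x20007000c000b000b00080004000b000500050009000c00050008000e0004) (nat_lit 0x578109005a0180) (nat_lit 16) Lb.e (@T16.mk En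
    (@En.n l7 (nat_lit 5985) (nat_lit 15) (nat_lit 4))
    (@En.n l420 (nat_lit 7037) (nat_lit 1) (nat_lit 14))
    (@En.n l4525 (nat_lit 668) (nat_lit 10) (nat_lit 8))
    (@En.i (nat_lit 11513) (nat_lit 3) (nat_lit 5))
    (@En.n l1553 (nat_lit 7426) (nat_lit 6) (nat_lit 12))
    (@En.n l420 (nat_lit 5481) (nat_lit 5) (nat_lit 9))
    (@En.n l4847 (nat_lit 5982) (nat_lit 6) (nat_lit 5))
    (@En.n l12026 (nat_lit 7892) (nat_lit 7) (nat_lit 5))
    (@En.n l18240 (nat_lit 5987) (nat_lit 9) (nat_lit 11))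
    (@En.n l1553 (nat_lit 7878) (nat_lit 9) (nat_lit 4))
    (@En.i (nat_lit 3127) (nat_lit 11) (nat_lit 8))
    (@En.n l4536 (nat_lit 7881) (nat_lit 12) (nat_lit 11))
    (@En.n l12028 (nat_lit 7847) (nat_lit 13) (nat_lit 11))
    (@En.n l4985 (nat_lit 12686) (nat_lit 14) (nat_lit 12))
    (@En.n l4600 (nat_lit 5985) (nat_lit 13) (nat_lit 7))
    (@En.n l18 (nat_lit 7887) (nat_lit 15) (nat_lit 2))))
noncomputable def a493 : T16 Cl := @T16.mk Cl
  (@Cl.mk (nat_lit 0x20009000c0008000d0008000400030007000d000b000800030008000e0005) (nat_lit 0x61440000a000220) (nat_lit 16) Lb.e (@T16.mk En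
    (@En.n l8605 (nat_lit 12470) (nat_lit 7) (nat_lit 5))
    (@En.i (nat_lit 4379) (nat_lit 1) (nat_lit 14))
    (@En.n l3531 (nat_lit 10263) (nat_lit 2) (nat_lit 8))
    (@En.n l50 (nat_lit 7890) (nat_lit 3) (nat_lit 3))
    (@En.n l15286 (nat_lit 9888) (nat_lit 0) (nat_lit 8))
    (@En.n l217 (nat_lit 10538) (nat_lit 13) (nat_lit 11))
    (@En.n l15286 (nat_lit 12049) (nat_lit 7) (nat_lit 13))
    (@En.n l17105 (nat_lit 7889) (nat_lit 7) (nat_lit 7))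
    (@En.n l15030 (nat_lit 12126) (nat_lit 8) (nat_lit 3))
    (@En.n l152 (nat_lit 7881) (nat_lit 0) (nat_lit 4))
    (@En.n l11972 (nat_lit 11728) (nat_lit 11) (nat_lit 8))
    (@En.i (nat_lit 7032) (nat_lit 12) (nat_lit 13))
    (@En.n l2038 (nat_lit 10966) (nat_lit 13) (nat_lit 8))
    (@En.i (nat_lit 7456) (nat_lit 14) (nat_lit 12))
    (@En.n l17106 (nat_lit 8248) (nat_lit 5) (nat_lit 9))
    (@En.n l17 (nat_lit 7888) (nat_lit 15) (nat_lit 2))))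
  (@Cl.mk (nat_lit 0x20009000d000c00090003000900040007000d000b000700030007000e0005) (nat_lit 0x65250000a000020) (nat_lit 16) Lb.e (@T16.mk En
    (@En.n l5560 (nat_lit 12471) (nat_lit 5) (nat_lit 5))
    (@En.n l998 (nat_lit 4377) (nat_lit 1) (nat_lit 14))
    (@En.n l4172 (nat_lit 10261) (nat_lit 2) (nat_lit 7))
    (@En.n l7 (nat_lit 7891) (nat_lit 3) (nat_lit 3))
    (@En.n l278 (nat_lit 9890) (nat_lit 0) (nat_lit 7))
    (@En.n l2026 (nat_lit 10539) (nat_lit 6) (nat_lit 11))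
    (@En.n l278 (nat_lit 12366) (nat_lit 7) (nat_lit 13))
    (@En.n l4395 (nat_lit 7196) (nat_lit 7) (nat_lit 7))
    (@En.i (nat_lit 7882) (nat_lit 8) (nat_lit 4))
    (@En.n l998 (nat_lit 11729) (nat_lit 10) (nat_lit 9))
    (@En.n l32655 (nat_lit 12126) (nat_lit 10) (nat_lit 3))
    (@En.i (nat_lit 11183) (nat_lit 0) (nat_lit 9))
    (@En.n l32656 (nat_lit 7888) (nat_lit 13) (nat_lit 12))
    (@En.n l31492 (nat_lit 7943) (nat_lit 14) (nat_lit 13))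
    (@En.n l5560 (nat_lit 8247) (nat_lit 3) (nat_lit 9))
    (@En.n l17 (nat_lit 7889) (nat_lit 15) (nat_lit 2))))
  (@Cl.mk (nat_lit 0x20009000c0009000d0008000400030007000d0007000c00030008000e0004) (nat_lit 0x613700009080140) (nat_lit 16) Lb.e (@T16.mk En
    (@En.i (nat_lit 12462) (nat_lit 7) (nat_lit 4))
    (@En.i (nat_lit 4378) (nat_lit 1) (nat_lit 14))
    (@En.n l3531 (nat_lit 5628) (nat_lit 2) (nat_lit 8))
    (@En.i (nat_lit 7888) (nat_lit 3) (nat_lit 3))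
    (@En.n l4790 (nat_lit 8610) (nat_lit 0) (nat_lit 12))
    (@En.n l22170 (nat_lit 10879) (nat_lit 5) (nat_lit 7))
    (@En.n l3531 (nat_lit 12042) (nat_lit 7) (nat_lit 13))
    (@En.n l17105 (nat_lit 7891) (nat_lit 7) (nat_lit 7))
    (@En.n l3072 (nat_lit 12125) (nat_lit 8) (nat_lit 3))
    (@En.n l152 (nat_lit 7880) (nat_lit 0) (nat_lit 4))
    (@En.n l11972 (nat_lit 11723) (nat_lit 11) (nat_lit 8))
    (@En.i (nat_lit 7030) (nat_lit 12) (nat_lit 13))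
    (@En.n l2038 (nat_lit 11144) (nat_lit 13) (nat_lit 9))
    (@En.i (nat_lit 7449) (nat_lit 14) (nat_lit 12))
    (@En.i (nat_lit 12150) (nat_lit 5) (nat_lit 9))
    (@En.n l17 (nat_lit 7890) (nat_lit 15) (nat_lit 2))))
  (@Cl.mk (nat_lit 0x20009000d000c000a0003000900040007000d0006000c00030007000e0004) (nat_lit 0x682400009070040) (nat_lit 16) Lb.e (@T16.mk En
    (@En.n l28598 (nat_lit 12461) (nat_lit 5) (nat_lit 4))
    (@En.n l998 (nat_lit 2375) (nat_lit 1) (nat_lit 14))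
    (@En.n l4172 (nat_lit 5631) (nat_lit 2) (nat_lit 7))
    (@En.i (nat_lit 7889) (nat_lit 3) (nat_lit 3))
    (@En.n l9440 (nat_lit 8531) (nat_lit 0) (nat_lit 12))
    (@En.n l11787 (nat_lit 10752) (nat_lit 5) (nat_lit 6))
    (@En.n l1643 (nat_lit 12043) (nat_lit 7) (nat_lit 13))
    (@En.n l4395 (nat_lit 7199) (nat_lit 7) (nat_lit 7))
    (@En.i (nat_lit 7879) (nat_lit 8) (nat_lit 4))
    (@En.n l998 (nat_lit 11722) (nat_lit 10) (nat_lit 9))
    (@En.n l6118 (nat_lit 12125) (nat_lit 10) (nat_lit 3))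
    (@En.i (nat_lit 11196) (nat_lit 0) (nat_lit 10))
    (@En.n l32656 (nat_lit 7890) (nat_lit 13) (nat_lit 12))
    (@En.n l31115 (nat_lit 8693) (nat_lit 14) (nat_lit 13))
    (@En.n l9440 (nat_lit 12149) (nat_lit 3) (nat_lit 9))
    (@En.n l17 (nat_lit 7891) (nat_lit 15) (nat_lit 2))))
  (@Cl.mk (nat_lit 0x20007000b000b0008000c00090005000500040009000c00080007000e0004) (nat_lit 0x77684000473040) (nat_lit 16) Lb.e (@T16.mk En
    (@En.n l20903 (nat_lit 7893) (nat_lit 15) (nat_lit 4))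
    (@En.i (nat_lit 7016) (nat_lit 1) (nat_lit 14))
    (@En.n l12061 (nat_lit 488) (nat_lit 2) (nat_lit 7))
    (@En.n l12062 (nat_lit 9384) (nat_lit 3) (nat_lit 8))
    (@En.i (nat_lit 7333) (nat_lit 6) (nat_lit 12))
    (@En.n l12063 (nat_lit 905) (nat_lit 5) (nat_lit 9))
    (@En.n l12064 (nat_lit 7850) (nat_lit 6) (nat_lit 4))
    (@En.n l12065 (nat_lit 7765) (nat_lit 7) (nat_lit 5))
    (@En.i (nat_lit 7849) (nat_lit 8) (nat_lit 5))
    (@En.n l12062 (nat_lit 3192) (nat_lit 10) (nat_lit 9))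
    (@En.i (nat_lit 2251) (nat_lit 11) (nat_lit 12))
    (@En.n l742 (nat_lit 4649) (nat_lit 12) (nat_lit 8))
    (@En.n l6840 (nat_lit 7897) (nat_lit 5) (nat_lit 11))
    (@En.n l5911 (nat_lit 12107) (nat_lit 14) (nat_lit 11))
    (@En.n l25765 (nat_lit 7893) (nat_lit 13) (nat_lit 7))
    (@En.n l11 (nat_lit 7892) (nat_lit 15) (nat_lit 2))))
  (@Cl.mk (nat_lit 0x400040007000b000b0007000c00080005000500040009000c000c00090008) (nat_lit 0x5604400049871) (nat_lit 16) Lb.e (@T16.mk En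
    (@En.n l13152 (nat_lit 413) (nat_lit 0) (nat_lit 8))
    (@En.n l28698 (nat_lit 8631) (nat_lit 1) (nat_lit 9))
    (@En.n l28699 (nat_lit 7892) (nat_lit 4) (nat_lit 12))
    (@En.n l28700 (nat_lit 7247) (nat_lit 6) (nat_lit 12))
    (@En.n l28701 (nat_lit 903) (nat_lit 4) (nat_lit 9))
    (@En.n l5934 (nat_lit 7747) (nat_lit 12) (nat_lit 4))
    (@En.n l7360 (nat_lit 7763) (nat_lit 11) (nat_lit 5))
    (@En.n l14973 (nat_lit 7872) (nat_lit 1) (nat_lit 5))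
    (@En.n l4961 (nat_lit 3194) (nat_lit 0) (nat_lit 8))
    (@En.n l28698 (nat_lit 2189) (nat_lit 1) (nat_lit 12))
    (@En.n l50 (nat_lit 4650) (nat_lit 4) (nat_lit 7))
    (@En.n l217 (nat_lit 7895) (nat_lit 5) (nat_lit 11))
    (@En.i (nat_lit 11832) (nat_lit 8) (nat_lit 11))
    (@En.n l14929 (nat_lit 7894) (nat_lit 11) (nat_lit 7))
    (@En.n l15261 (nat_lit 7894) (nat_lit 12) (nat_lit 4))
    (@En.n l28092 (nat_lit 8623) (nat_lit 0) (nat_lit 4))))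
  (@Cl.mk (nat_lit 0x2000a000900040007000b000b0006000c00070005000500040009000e000c) (nat_lit 0x81004506000045a) (nat_lit 16) Lb.e (@T16.mk En
    (@En.n l6131 (nat_lit 7893) (nat_lit 3) (nat_lit 12))
    (@En.n l35685 (nat_lit 7917) (nat_lit 1) (nat_lit 14))
    (@En.n l35686 (nat_lit 904) (nat_lit 2) (nat_lit 9))
    (@En.n l20053 (nat_lit 7864) (nat_lit 3) (nat_lit 4))
    (@En.n l20262 (nat_lit 7764) (nat_lit 11) (nat_lit 5))
    (@En.n l35576 (nat_lit 7870) (nat_lit 5) (nat_lit 5))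
    (@En.n l35686 (nat_lit 3198) (nat_lit 6) (nat_lit 7))
    (@En.n l35576 (nat_lit 2184) (nat_lit 8) (nat_lit 12))
    (@En.n l12529 (nat_lit 4652) (nat_lit 8) (nat_lit 6))
    (@En.n l6147 (nat_lit 7896) (nat_lit 5) (nat_lit 11))
    (@En.n l6131 (nat_lit 9191) (nat_lit 11) (nat_lit 11))
    (@En.n l4712 (nat_lit 13626) (nat_lit 11) (nat_lit 7))
    (@En.n l14869 (nat_lit 7905) (nat_lit 13) (nat_lit 4))
    (@En.n l35687 (nat_lit 487) (nat_lit 14) (nat_lit 9))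
    (@En.n l35576 (nat_lit 9128) (nat_lit 1) (nat_lit 10))
    (@En.n l107 (nat_lit 7894) (nat_lit 15) (nat_lit 2))))
  (@Cl.mk (nat_lit 0x200050009000c000c000a0009000400040007000b0006000b0007000e0005) (nat_lit 0x59841000501020) (nat_lit 16) Lb.e (@T16.mk En
    (@En.i (nat_lit 7893) (nat_lit 7) (nat_lit 5))
    (@En.n l6210 (nat_lit 7898) (nat_lit 1) (nat_lit 14))
    (@En.n l4961 (nat_lit 3195) (nat_lit 2) (nat_lit 7))
    (@En.n l5931 (nat_lit 774) (nat_lit 3) (nat_lit 11))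
    (@En.n l2568 (nat_lit 1195) (nat_lit 4) (nat_lit 6))
    (@En.i (nat_lit 8542) (nat_lit 6) (nat_lit 11))
    (@En.n l730 (nat_lit 7896) (nat_lit 6) (nat_lit 7))
    (@En.n l731 (nat_lit 7896) (nat_lit 7) (nat_lit 4))
    (@En.n l37247 (nat_lit 7902) (nat_lit 8) (nat_lit 4))
    (@En.n l55 (nat_lit 486) (nat_lit 10) (nat_lit 9))
    (@En.n l639 (nat_lit 9134) (nat_lit 11) (nat_lit 10))
    (@En.n l24909 (nat_lit 7897) (nat_lit 12) (nat_lit 12))
    (@En.n l40097 (nat_lit 6892) (nat_lit 13) (nat_lit 12))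
    (@En.n l889 (nat_lit 897) (nat_lit 14) (nat_lit 9))
    (@En.i (nat_lit 7740) (nat_lit 13) (nat_lit 5))
    (@En.n l18 (nat_lit 7895) (nat_lit 15) (nat_lit 2))))
  (@Cl.mk (nat_lit 0x200050009000e000c0002000b000a00040007000b0005000b0006000e0005) (nat_lit 0x56a06100403020) (nat_lit 16) Lb.e (@T16.mk En
    (@En.n l10916 (nat_lit 7894) (nat_lit 5) (nat_lit 5))
    (@En.n l38688 (nat_lit 7899) (nat_lit 1) (nat_lit 14))
    (@En.n l17581 (nat_lit 3208) (nat_lit 2) (nat_lit 6))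
    (@En.n l5050 (nat_lit 771) (nat_lit 9) (nat_lit 11))
    (@En.i (nat_lit 1193) (nat_lit 4) (nat_lit 5))
    (@En.n l1643 (nat_lit 8539) (nat_lit 11) (nat_lit 11))
    (@En.n l9025 (nat_lit 13620) (nat_lit 11) (nat_lit 7))
    (@En.n l17792 (nat_lit 7901) (nat_lit 7) (nat_lit 4))
    (@En.n l77 (nat_lit 491) (nat_lit 9) (nat_lit 10))
    (@En.n l9025 (nat_lit 9133) (nat_lit 10) (nat_lit 11))
    (@En.n l107 (nat_lit 7896) (nat_lit 10) (nat_lit 2))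
    (@En.n l1643 (nat_lit 7895) (nat_lit 12) (nat_lit 12))
    (@En.n l619 (nat_lit 6894) (nat_lit 13) (nat_lit 14))
    (@En.n l3724 (nat_lit 899) (nat_lit 14) (nat_lit 9))
    (@En.i (nat_lit 7743) (nat_lit 13) (nat_lit 5))
    (@En.n l17 (nat_lit 7896) (nat_lit 15) (nat_lit 2))))
  (@Cl.mk (nat_lit 0x200050009000c00090008000e000400020007000b0007000b0008000e0005) (nat_lit 0x57514000607320) (nat_lit 16) Lb.e (@T16.mk En
    (@En.n l5760 (nat_lit 7892) (nat_lit 8) (nat_lit 5))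
    (@En.n l9642 (nat_lit 7900) (nat_lit 10) (nat_lit 14))
    (@En.n l22177 (nat_lit 3193) (nat_lit 11) (nat_lit 8))
    (@En.n l1897 (nat_lit 2278) (nat_lit 3) (nat_lit 11))
    (@En.n l5390 (nat_lit 1450) (nat_lit 4) (nat_lit 7))
    (@En.i (nat_lit 12718) (nat_lit 14) (nat_lit 11))
    (@En.n l6596 (nat_lit 7895) (nat_lit 6) (nat_lit 7))
    (@En.n l17 (nat_lit 7897) (nat_lit 7) (nat_lit 2))
    (@En.n l13489 (nat_lit 7895) (nat_lit 8) (nat_lit 4))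
    (@En.i (nat_lit 7012) (nat_lit 10) (nat_lit 14))
    (@En.n l6213 (nat_lit 490) (nat_lit 11) (nat_lit 8))
    (@En.n l22177 (nat_lit 9383) (nat_lit 12) (nat_lit 9))
    (@En.n l3082 (nat_lit 7335) (nat_lit 13) (nat_lit 12))
    (@En.n l25960 (nat_lit 898) (nat_lit 5) (nat_lit 9))
    (@En.n l25961 (nat_lit 7739) (nat_lit 13) (nat_lit 5))
    (@En.n l28 (nat_lit 7897) (nat_lit 15) (nat_lit 2))))
  (@Cl.mk (nat_lit 0x2000a00050009000c000c000a0006000400040007000c0006000b000e0004) (nat_lit 0x402985000050210) (nat_lit 16) Lb.e (@T16.mk En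
    (@En.n l26145 (nat_lit 7755) (nat_lit 8) (nat_lit 4))
    (@En.i (nat_lit 871) (nat_lit 4) (nat_lit 14))
    (@En.n l699 (nat_lit 1856) (nat_lit 2) (nat_lit 11))
    (@En.n l12423 (nat_lit 1198) (nat_lit 3) (nat_lit 6))
    (@En.i (nat_lit 8545) (nat_lit 5) (nat_lit 12))
    (@En.n l343 (nat_lit 7899) (nat_lit 5) (nat_lit 7))
    (@En.n l1577 (nat_lit 7899) (nat_lit 6) (nat_lit 4))
    (@En.i (nat_lit 7904) (nat_lit 7) (nat_lit 4))
    (@En.n l26146 (nat_lit 485) (nat_lit 8) (nat_lit 6))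
    (@En.n l457 (nat_lit 9444) (nat_lit 10) (nat_lit 10))
    (@En.n l1578 (nat_lit 7900) (nat_lit 4) (nat_lit 12))
    (@En.n l387 (nat_lit 6893) (nat_lit 12) (nat_lit 12))
    (@En.n l26147 (nat_lit 3328) (nat_lit 13) (nat_lit 9))
    (@En.n l15349 (nat_lit 7895) (nat_lit 14) (nat_lit 5))
    (@En.n l15346 (nat_lit 4650) (nat_lit 0) (nat_lit 10))
    (@En.n l18 (nat_lit 7898) (nat_lit 15) (nat_lit 2))))
  (@Cl.mk (nat_lit 0x2000900050009000e000c0002000b000700040007000c0005000b000e0004) (nat_lit 0x402ca0600040210) (nat_lit 16) Lb.e (@T16.mk En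
    (@En.n l23397 (nat_lit 7756) (nat_lit 6) (nat_lit 4))
    (@En.i (nat_lit 874) (nat_lit 4) (nat_lit 14))
    (@En.n l3633 (nat_lit 2180) (nat_lit 9) (nat_lit 11))
    (@En.n l23398 (nat_lit 1196) (nat_lit 3) (nat_lit 5))
    (@En.i (nat_lit 8537) (nat_lit 11) (nat_lit 12))
    (@En.n l1803 (nat_lit 13619) (nat_lit 11) (nat_lit 7))
    (@En.i (nat_lit 7903) (nat_lit 6) (nat_lit 4))
    (@En.n l23399 (nat_lit 612) (nat_lit 14) (nat_lit 7))
    (@En.n l1803 (nat_lit 9437) (nat_lit 9) (nat_lit 11))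
    (@En.n l11 (nat_lit 7899) (nat_lit 9) (nat_lit 2))
    (@En.n l55 (nat_lit 7898) (nat_lit 11) (nat_lit 12))
    (@En.n l387 (nat_lit 6895) (nat_lit 12) (nat_lit 14))
    (@En.n l18053 (nat_lit 3329) (nat_lit 2) (nat_lit 9))
    (@En.n l23400 (nat_lit 7896) (nat_lit 14) (nat_lit 5))
    (@En.n l23401 (nat_lit 4652) (nat_lit 4) (nat_lit 9))
    (@En.n l18 (nat_lit 7899) (nat_lit 15) (nat_lit 2))))
  (@Cl.mk (nat_lit 0x20007000c0007000b000e00040002000b00050009000c00090005000e0004) (nat_lit 0x60610040275010) (nat_lit 16) Lb.e (@T16.mk En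
    (@En.n l11 (nat_lit 7898) (nat_lit 7) (nat_lit 4))
    (@En.n l12419 (nat_lit 5508) (nat_lit 9) (nat_lit 14))
    (@En.n l12420 (nat_lit 613) (nat_lit 2) (nat_lit 5))
    (@En.n l499 (nat_lit 9386) (nat_lit 3) (nat_lit 9))
    (@En.n l387 (nat_lit 7317) (nat_lit 12) (nat_lit 12))
    (@En.n l3456 (nat_lit 3330) (nat_lit 5) (nat_lit 9))
    (@En.n l10171 (nat_lit 7897) (nat_lit 14) (nat_lit 5))
    (@En.n l12421 (nat_lit 4649) (nat_lit 8) (nat_lit 11))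
    (@En.n l18 (nat_lit 7900) (nat_lit 8) (nat_lit 2))
    (@En.n l12422 (nat_lit 7757) (nat_lit 9) (nat_lit 4))
    (@En.i (nat_lit 870) (nat_lit 11) (nat_lit 14))
    (@En.n l10203 (nat_lit 1857) (nat_lit 12) (nat_lit 11))
    (@En.n l12423 (nat_lit 1510) (nat_lit 13) (nat_lit 7))
    (@En.i (nat_lit 12716) (nat_lit 14) (nat_lit 12))
    (@En.n l536 (nat_lit 7898) (nat_lit 5) (nat_lit 7))
    (@En.n l28 (nat_lit 7900) (nat_lit 15) (nat_lit 2))))
  (@Cl.mk (nat_lit 0x200050009000d000c00080003000c00040007000b0004000b0008000e0005) (nat_lit 0x658309003013c0) (nat_lit 16) Lb.e (@T16.mk En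
    (@En.n l42725 (nat_lit 7905) (nat_lit 6) (nat_lit 5))
    (@En.n l2366 (nat_lit 7903) (nat_lit 1) (nat_lit 14))
    (@En.n l3291 (nat_lit 7298) (nat_lit 2) (nat_lit 8))
    (@En.n l3328 (nat_lit 778) (nat_lit 3) (nat_lit 11))
    (@En.n l13025 (nat_lit 9130) (nat_lit 4) (nat_lit 4))
    (@En.n l719 (nat_lit 8547) (nat_lit 6) (nat_lit 11))
    (@En.i (nat_lit 7698) (nat_lit 6) (nat_lit 7))
    (@En.n l42726 (nat_lit 7895) (nat_lit 7) (nat_lit 4))
    (@En.n l14619 (nat_lit 9135) (nat_lit 9) (nat_lit 12))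
    (@En.n l720 (nat_lit 8621) (nat_lit 9) (nat_lit 3))
    (@En.n l3291 (nat_lit 9908) (nat_lit 11) (nat_lit 8))
    (@En.n l42727 (nat_lit 7902) (nat_lit 12) (nat_lit 12))
    (@En.n l42728 (nat_lit 8344) (nat_lit 13) (nat_lit 13))
    (@En.n l42729 (nat_lit 8093) (nat_lit 14) (nat_lit 9))
    (@En.n l12524 (nat_lit 8449) (nat_lit 13) (nat_lit 5))
    (@En.n l11 (nat_lit 7901) (nat_lit 15) (nat_lit 2))))
  (@Cl.mk (nat_lit 0x200050009000c0007000d000b000400030007000b0005000b0009000e0005) (nat_lit 0x670a80000083c0) (nat_lit 16) Lb.e (@T16.mk En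
    (@En.n l8770 (nat_lit 8623) (nat_lit 8) (nat_lit 5))
    (@En.n l3 (nat_lit 7904) (nat_lit 1) (nat_lit 14))
    (@En.n l4427 (nat_lit 7297) (nat_lit 2) (nat_lit 9))
    (@En.n l6737 (nat_lit 4420) (nat_lit 3) (nat_lit 11))
    (@En.n l22052 (nat_lit 9131) (nat_lit 4) (nat_lit 5))
    (@En.i (nat_lit 8605) (nat_lit 6) (nat_lit 11))
    (@En.n l33183 (nat_lit 7901) (nat_lit 6) (nat_lit 7))
    (@En.n l28 (nat_lit 8621) (nat_lit 7) (nat_lit 3))
    (@En.n l10171 (nat_lit 7897) (nat_lit 8) (nat_lit 4))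
    (@En.n l77 (nat_lit 9137) (nat_lit 10) (nat_lit 11))
    (@En.n l6737 (nat_lit 7013) (nat_lit 11) (nat_lit 13))
    (@En.n l4427 (nat_lit 9904) (nat_lit 12) (nat_lit 7))
    (@En.n l387 (nat_lit 8314) (nat_lit 13) (nat_lit 12))
    (@En.n l33184 (nat_lit 8094) (nat_lit 14) (nat_lit 9))
    (@En.n l33185 (nat_lit 8450) (nat_lit 13) (nat_lit 5))
    (@En.n l18 (nat_lit 7902) (nat_lit 15) (nat_lit 2))))
  (@Cl.mk (nat_lit 0x2000b00050009000d000c00050003000c00040007000c0004000b000e0004) (nat_lit 0x6b900a00302b0) (nat_lit 16) Lb.e (@T16.mk En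
    (@En.n l18289 (nat_lit 8608) (nat_lit 7) (nat_lit 4))
    (@En.i (nat_lit 6313) (nat_lit 4) (nat_lit 14))
    (@En.n l699 (nat_lit 4416) (nat_lit 2) (nat_lit 11))
    (@En.i (nat_lit 9443) (nat_lit 3) (nat_lit 4))
    (@En.i (nat_lit 9095) (nat_lit 0) (nat_lit 12))
    (@En.n l710 (nat_lit 7209) (nat_lit 11) (nat_lit 7))
    (@En.n l11 (nat_lit 7898) (nat_lit 6) (nat_lit 4))
    (@En.n l1080 (nat_lit 9442) (nat_lit 8) (nat_lit 12))
    (@En.n l11 (nat_lit 8620) (nat_lit 8) (nat_lit 3))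
    (@En.n l2238 (nat_lit 7948) (nat_lit 9) (nat_lit 5))
    (@En.n l55 (nat_lit 7904) (nat_lit 11) (nat_lit 12))
    (@En.n l387 (nat_lit 8306) (nat_lit 12) (nat_lit 13))
    (@En.n l18053 (nat_lit 2999) (nat_lit 13) (nat_lit 9))
    (@En.n l710 (nat_lit 7901) (nat_lit 14) (nat_lit 5))
    (@En.i (nat_lit 9789) (nat_lit 0) (nat_lit 11))
    (@En.n l18 (nat_lit 7903) (nat_lit 15) (nat_lit 2))))
noncomputable def a494 : T16 Cl := @T16.mk Cl
  (@Cl.mk (nat_lit 0x2000c00050009000c0004000d000b000400030007000c0005000b000e0004) (nat_lit 0x70680a9000407b0) (nat_lit 16) Lb.e (@T16.mk En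
    (@En.n l18289 (nat_lit 8609) (nat_lit 9) (nat_lit 4))
    (@En.i (nat_lit 6312) (nat_lit 4) (nat_lit 14))
    (@En.n l699 (nat_lit 4417) (nat_lit 2) (nat_lit 11))
    (@En.i (nat_lit 9448) (nat_lit 3) (nat_lit 5))
    (@En.i (nat_lit 8601) (nat_lit 14) (nat_lit 12))
    (@En.n l343 (nat_lit 7903) (nat_lit 5) (nat_lit 7))
    (@En.n l28 (nat_lit 8620) (nat_lit 6) (nat_lit 3))
    (@En.i (nat_lit 7900) (nat_lit 0) (nat_lit 4))
    (@En.n l77 (nat_lit 9446) (nat_lit 9) (nat_lit 11))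
    (@En.n l1253 (nat_lit 5511) (nat_lit 10) (nat_lit 13))
    (@En.n l9462 (nat_lit 9533) (nat_lit 10) (nat_lit 4))
    (@En.n l387 (nat_lit 8313) (nat_lit 6) (nat_lit 12))
    (@En.n l15166 (nat_lit 3331) (nat_lit 13) (nat_lit 9))
    (@En.i (nat_lit 7902) (nat_lit 14) (nat_lit 5))
    (@En.i (nat_lit 9790) (nat_lit 8) (nat_lit 12))
    (@En.n l18 (nat_lit 7904) (nat_lit 15) (nat_lit 2))))
  (@Cl.mk (nat_lit 0x3000b00040007000b000b0005000c00090005000500040009000d000c0007) (nat_lit 0x800040320005470) (nat_lit 16) Lb.e (@T16.mk En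
    (@En.n l33190 (nat_lit 9615) (nat_lit 0) (nat_lit 7))
    (@En.n l22188 (nat_lit 8623) (nat_lit 4) (nat_lit 12))
    (@En.n l15535 (nat_lit 8489) (nat_lit 6) (nat_lit 13))
    (@En.n l19469 (nat_lit 7635) (nat_lit 3) (nat_lit 9))
    (@En.n l18 (nat_lit 10319) (nat_lit 12) (nat_lit 4))
    (@En.n l22707 (nat_lit 8625) (nat_lit 11) (nat_lit 5))
    (@En.n l24950 (nat_lit 10539) (nat_lit 1) (nat_lit 5))
    (@En.n l33190 (nat_lit 7300) (nat_lit 0) (nat_lit 9))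
    (@En.n l24950 (nat_lit 4390) (nat_lit 9) (nat_lit 12))
    (@En.n l33191 (nat_lit 10709) (nat_lit 9) (nat_lit 5))
    (@En.n l33192 (nat_lit 7901) (nat_lit 5) (nat_lit 11))
    (@En.n l33193 (nat_lit 11831) (nat_lit 12) (nat_lit 11))
    (@En.n l33194 (nat_lit 7114) (nat_lit 11) (nat_lit 7))
    (@En.n l33195 (nat_lit 7893) (nat_lit 14) (nat_lit 4))
    (@En.n l33180 (nat_lit 8632) (nat_lit 0) (nat_lit 11))
    (@En.n l10862 (nat_lit 8622) (nat_lit 1) (nat_lit 3))))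
  (@Cl.mk (nat_lit 0x2000c0008000700050004000d000a000d00030008000300090006000e000b) (nat_lit 0x7400093705060b4) (nat_lit 16) Lb.e (@T16.mk En
    (@En.n l217 (nat_lit 6669) (nat_lit 10) (nat_lit 11))
    (@En.n l476 (nat_lit 6488) (nat_lit 1) (nat_lit 14))
    (@En.n l10626 (nat_lit 7908) (nat_lit 2) (nat_lit 6))
    (@En.n l11060 (nat_lit 7737) (nat_lit 3) (nat_lit 9))
    (@En.n l11061 (nat_lit 7163) (nat_lit 4) (nat_lit 3))
    (@En.n l11062 (nat_lit 7734) (nat_lit 0) (nat_lit 8))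
    (@En.n l6564 (nat_lit 7907) (nat_lit 6) (nat_lit 3))
    (@En.n l2038 (nat_lit 3945) (nat_lit 0) (nat_lit 13))
    (@En.n l11063 (nat_lit 7162) (nat_lit 9) (nat_lit 10))
    (@En.i (nat_lit 12514) (nat_lit 10) (nat_lit 13))
    (@En.n l763 (nat_lit 4292) (nat_lit 10) (nat_lit 4))
    (@En.n l6562 (nat_lit 9767) (nat_lit 4) (nat_lit 5))
    (@En.i (nat_lit 3870) (nat_lit 13) (nat_lit 7))
    (@En.n l11064 (nat_lit 9745) (nat_lit 14) (nat_lit 8))
    (@En.n l7530 (nat_lit 7855) (nat_lit 8) (nat_lit 12))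
    (@En.n l50 (nat_lit 7906) (nat_lit 15) (nat_lit 2))))
  (@Cl.mk (nat_lit 0x2000c0008000700050004000d000c000b00030008000400090005000e000b) (nat_lit 0x5400094604060b1) (nat_lit 16) Lb.e (@T16.mk En
    (@En.i (nat_lit 2317) (nat_lit 10) (nat_lit 11))
    (@En.n l17790 (nat_lit 6490) (nat_lit 1) (nat_lit 14))
    (@En.n l24682 (nat_lit 7481) (nat_lit 2) (nat_lit 5))
    (@En.n l24316 (nat_lit 6589) (nat_lit 3) (nat_lit 9))
    (@En.i (nat_lit 7916) (nat_lit 4) (nat_lit 4))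
    (@En.n l24683 (nat_lit 7813) (nat_lit 5) (nat_lit 8))
    (@En.n l15575 (nat_lit 7906) (nat_lit 6) (nat_lit 3))
    (@En.n l619 (nat_lit 7919) (nat_lit 0) (nat_lit 11))
    (@En.n l3866 (nat_lit 7163) (nat_lit 9) (nat_lit 12))
    (@En.n l3696 (nat_lit 12513) (nat_lit 10) (nat_lit 13))
    (@En.n l15710 (nat_lit 4293) (nat_lit 10) (nat_lit 4))
    (@En.i (nat_lit 10196) (nat_lit 4) (nat_lit 5))
    (@En.n l24684 (nat_lit 3869) (nat_lit 13) (nat_lit 7))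
    (@En.n l61 (nat_lit 9737) (nat_lit 14) (nat_lit 8))
    (@En.n l24685 (nat_lit 7754) (nat_lit 8) (nat_lit 12))
    (@En.n l7 (nat_lit 7907) (nat_lit 15) (nat_lit 2))))
  (@Cl.mk (nat_lit 0x2000c0007000b00050004000c000a0005000d0004000900030006000e000b) (nat_lit 0x301009408050069) (nat_lit 16) Lb.e (@T16.mk En
    (@En.i (nat_lit 6667) (nat_lit 13) (nat_lit 11))
    (@En.n l2125 (nat_lit 9349) (nat_lit 1) (nat_lit 14))
    (@En.n l152 (nat_lit 7253) (nat_lit 12) (nat_lit 6))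
    (@En.n l20805 (nat_lit 7909) (nat_lit 3) (nat_lit 3))
    (@En.n l781 (nat_lit 7733) (nat_lit 0) (nat_lit 9))
    (@En.n l19001 (nat_lit 7481) (nat_lit 5) (nat_lit 4))
    (@En.n l24091 (nat_lit 7906) (nat_lit 7) (nat_lit 13))
    (@En.n l24679 (nat_lit 4356) (nat_lit 7) (nat_lit 5))
    (@En.i (nat_lit 7911) (nat_lit 9) (nat_lit 10))
    (@En.i (nat_lit 12515) (nat_lit 10) (nat_lit 12))
    (@En.i (nat_lit 6180) (nat_lit 10) (nat_lit 4))
    (@En.i (nat_lit 9763) (nat_lit 7) (nat_lit 5))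
    (@En.n l8631 (nat_lit 3088) (nat_lit 13) (nat_lit 11))
    (@En.n l24680 (nat_lit 9752) (nat_lit 14) (nat_lit 7))
    (@En.n l24681 (nat_lit 7858) (nat_lit 11) (nat_lit 12))
    (@En.n l28 (nat_lit 7908) (nat_lit 15) (nat_lit 2))))
  (@Cl.mk (nat_lit 0x2000c0008000b00050004000b000a0005000d0008000500030006000e000b) (nat_lit 0x362002308600029) (nat_lit 16) Lb.e (@T16.mk En
    (@En.i (nat_lit 6666) (nat_lit 13) (nat_lit 11))
    (@En.n l23753 (nat_lit 9262) (nat_lit 1) (nat_lit 14))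
    (@En.n l17 (nat_lit 4638) (nat_lit 12) (nat_lit 6))
    (@En.n l2943 (nat_lit 7908) (nat_lit 3) (nat_lit 3))
    (@En.n l889 (nat_lit 6894) (nat_lit 0) (nat_lit 5))
    (@En.i (nat_lit 7910) (nat_lit 5) (nat_lit 8))
    (@En.n l28638 (nat_lit 7163) (nat_lit 7) (nat_lit 13))
    (@En.i (nat_lit 4355) (nat_lit 7) (nat_lit 5))
    (@En.i (nat_lit 7912) (nat_lit 9) (nat_lit 10))
    (@En.n l287 (nat_lit 7546) (nat_lit 10) (nat_lit 11))
    (@En.n l11 (nat_lit 6176) (nat_lit 10) (nat_lit 4))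
    (@En.n l28639 (nat_lit 9758) (nat_lit 7) (nat_lit 5))
    (@En.i (nat_lit 3910) (nat_lit 7) (nat_lit 11))
    (@En.n l28640 (nat_lit 8931) (nat_lit 14) (nat_lit 8))
    (@En.n l2233 (nat_lit 7848) (nat_lit 11) (nat_lit 12))
    (@En.n l3 (nat_lit 7909) (nat_lit 15) (nat_lit 2))))
  (@Cl.mk (nat_lit 0x2000b00080007000b00060005000c000b00050008000400090005000e000a) (nat_lit 0x360300330505028) (nat_lit 16) Lb.e (@T16.mk En
    (@En.i (nat_lit 6668) (nat_lit 12) (nat_lit 10))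
    (@En.n l23753 (nat_lit 9263) (nat_lit 1) (nat_lit 14))
    (@En.n l37906 (nat_lit 4636) (nat_lit 2) (nat_lit 5))
    (@En.n l37907 (nat_lit 7731) (nat_lit 3) (nat_lit 9))
    (@En.n l29421 (nat_lit 7818) (nat_lit 4) (nat_lit 4))
    (@En.n l37908 (nat_lit 8173) (nat_lit 10) (nat_lit 8))
    (@En.n l30330 (nat_lit 3156) (nat_lit 6) (nat_lit 5))
    (@En.i (nat_lit 7914) (nat_lit 8) (nat_lit 11))
    (@En.n l37909 (nat_lit 7545) (nat_lit 9) (nat_lit 12))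
    (@En.n l11 (nat_lit 6175) (nat_lit 9) (nat_lit 5))
    (@En.n l37910 (nat_lit 10396) (nat_lit 11) (nat_lit 6))
    (@En.n l50 (nat_lit 7909) (nat_lit 12) (nat_lit 11))
    (@En.n l16078 (nat_lit 7908) (nat_lit 13) (nat_lit 7))
    (@En.n l37911 (nat_lit 8932) (nat_lit 14) (nat_lit 8))
    (@En.n l2233 (nat_lit 7841) (nat_lit 10) (nat_lit 11))
    (@En.n l3 (nat_lit 7910) (nat_lit 15) (nat_lit 2))))
  (@Cl.mk (nat_lit 0x2000c0008000c00050004000a0004000d000c0008000300060004000e000b) (nat_lit 0x353003055400089) (nat_lit 16) Lb.e (@T16.mk En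
    (@En.n l8631 (nat_lit 7122) (nat_lit 12) (nat_lit 11))
    (@En.i (nat_lit 7551) (nat_lit 1) (nat_lit 14))
    (@En.i (nat_lit 7484) (nat_lit 2) (nat_lit 4))
    (@En.i (nat_lit 7991) (nat_lit 3) (nat_lit 6))
    (@En.n l20805 (nat_lit 7912) (nat_lit 4) (nat_lit 3))
    (@En.n l97 (nat_lit 5272) (nat_lit 0) (nat_lit 8))
    (@En.n l3866 (nat_lit 7913) (nat_lit 7) (nat_lit 12))
    (@En.i (nat_lit 7162) (nat_lit 8) (nat_lit 13))
    (@En.i (nat_lit 7813) (nat_lit 8) (nat_lit 4))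
    (@En.n l5021 (nat_lit 11680) (nat_lit 10) (nat_lit 10))
    (@En.i (nat_lit 5656) (nat_lit 10) (nat_lit 4))
    (@En.i (nat_lit 9092) (nat_lit 6) (nat_lit 5))
    (@En.n l8631 (nat_lit 3810) (nat_lit 13) (nat_lit 12))
    (@En.n l644 (nat_lit 9732) (nat_lit 14) (nat_lit 8))
    (@En.n l5825 (nat_lit 7860) (nat_lit 10) (nat_lit 12))
    (@En.n l28 (nat_lit 7911) (nat_lit 15) (nat_lit 2))))
  (@Cl.mk (nat_lit 0x2000c0009000c00050004000a0004000d0007000d000300060003000e000b) (nat_lit 0x353002060700089) (nat_lit 16) Lb.e (@T16.mk En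
    (@En.i (nat_lit 7051) (nat_lit 12) (nat_lit 11))
    (@En.i (nat_lit 7548) (nat_lit 1) (nat_lit 14))
    (@En.n l2746 (nat_lit 7913) (nat_lit 2) (nat_lit 3))
    (@En.i (nat_lit 6016) (nat_lit 12) (nat_lit 6))
    (@En.n l2943 (nat_lit 7911) (nat_lit 4) (nat_lit 3))
    (@En.n l903 (nat_lit 2264) (nat_lit 0) (nat_lit 13))
    (@En.i (nat_lit 7914) (nat_lit 6) (nat_lit 7))
    (@En.i (nat_lit 7160) (nat_lit 8) (nat_lit 13))
    (@En.n l1393 (nat_lit 7814) (nat_lit 8) (nat_lit 4))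
    (@En.n l287 (nat_lit 11682) (nat_lit 10) (nat_lit 10))
    (@En.n l11 (nat_lit 5665) (nat_lit 10) (nat_lit 4))
    (@En.i (nat_lit 9093) (nat_lit 6) (nat_lit 5))
    (@En.i (nat_lit 3808) (nat_lit 6) (nat_lit 12))
    (@En.n l4780 (nat_lit 8764) (nat_lit 14) (nat_lit 9))
    (@En.n l615 (nat_lit 7845) (nat_lit 10) (nat_lit 12))
    (@En.n l3 (nat_lit 7912) (nat_lit 15) (nat_lit 2))))
  (@Cl.mk (nat_lit 0x2000c0009000c00050004000b0004000c0007000d000500040003000e000b) (nat_lit 0x354004040600089) (nat_lit 16) Lb.e (@T16.mk En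
    (@En.n l14461 (nat_lit 6880) (nat_lit 14) (nat_lit 11))
    (@En.n l619 (nat_lit 9607) (nat_lit 1) (nat_lit 14))
    (@En.n l2888 (nat_lit 7912) (nat_lit 2) (nat_lit 3))
    (@En.n l14461 (nat_lit 7922) (nat_lit 3) (nat_lit 4))
    (@En.n l2885 (nat_lit 7909) (nat_lit 4) (nat_lit 5))
    (@En.i (nat_lit 2230) (nat_lit 6) (nat_lit 13))
    (@En.n l61 (nat_lit 7915) (nat_lit 6) (nat_lit 7))
    (@En.n l14462 (nat_lit 7916) (nat_lit 8) (nat_lit 12))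
    (@En.n l7347 (nat_lit 7815) (nat_lit 8) (nat_lit 4))
    (@En.n l2886 (nat_lit 12262) (nat_lit 10) (nat_lit 11))
    (@En.i (nat_lit 6157) (nat_lit 10) (nat_lit 4))
    (@En.n l14462 (nat_lit 8697) (nat_lit 0) (nat_lit 5))
    (@En.n l14461 (nat_lit 3809) (nat_lit 6) (nat_lit 12))
    (@En.n l14463 (nat_lit 8761) (nat_lit 14) (nat_lit 9))
    (@En.n l14464 (nat_lit 7872) (nat_lit 12) (nat_lit 12))
    (@En.n l107 (nat_lit 7913) (nat_lit 15) (nat_lit 2))))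
  (@Cl.mk (nat_lit 0x2000b00090008000c00060005000b00040007000d000800050003000e000a) (nat_lit 0x356400200510078) (nat_lit 16) Lb.e (@T16.mk En
    (@En.i (nat_lit 7130) (nat_lit 14) (nat_lit 10))
    (@En.i (nat_lit 7547) (nat_lit 1) (nat_lit 14))
    (@En.n l25214 (nat_lit 7915) (nat_lit 2) (nat_lit 3))
    (@En.n l24638 (nat_lit 5201) (nat_lit 3) (nat_lit 5))
    (@En.n l18636 (nat_lit 5271) (nat_lit 4) (nat_lit 8))
    (@En.n l5937 (nat_lit 2513) (nat_lit 6) (nat_lit 13))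
    (@En.n l31035 (nat_lit 8174) (nat_lit 11) (nat_lit 7))
    (@En.n l1393 (nat_lit 7816) (nat_lit 7) (nat_lit 4))
    (@En.n l287 (nat_lit 12260) (nat_lit 9) (nat_lit 11))
    (@En.n l11 (nat_lit 6115) (nat_lit 9) (nat_lit 5))
    (@En.i (nat_lit 10414) (nat_lit 11) (nat_lit 6))
    (@En.n l50 (nat_lit 7912) (nat_lit 12) (nat_lit 12))
    (@En.n l16078 (nat_lit 7911) (nat_lit 13) (nat_lit 8))
    (@En.n l4780 (nat_lit 8765) (nat_lit 14) (nat_lit 9))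
    (@En.n l615 (nat_lit 7840) (nat_lit 12) (nat_lit 11))
    (@En.n l3 (nat_lit 7914) (nat_lit 15) (nat_lit 2))))
  (@Cl.mk (nat_lit 0x2000b00090007000c00060005000c00040007000d000400090003000e000a) (nat_lit 0x350500500503068) (nat_lit 16) Lb.e (@T16.mk En
    (@En.n l5706 (nat_lit 6882) (nat_lit 14) (nat_lit 10))
    (@En.i (nat_lit 9606) (nat_lit 1) (nat_lit 14))
    (@En.n l2884 (nat_lit 7914) (nat_lit 2) (nat_lit 3))
    (@En.n l13783 (nat_lit 5733) (nat_lit 3) (nat_lit 9))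
    (@En.n l28641 (nat_lit 7910) (nat_lit 4) (nat_lit 4))
    (@En.i (nat_lit 2512) (nat_lit 6) (nat_lit 13))
    (@En.n l7340 (nat_lit 8172) (nat_lit 11) (nat_lit 7))
    (@En.i (nat_lit 7817) (nat_lit 7) (nat_lit 4))
    (@En.n l28642 (nat_lit 12261) (nat_lit 9) (nat_lit 12))
    (@En.i (nat_lit 6113) (nat_lit 9) (nat_lit 5))
    (@En.n l28643 (nat_lit 9207) (nat_lit 11) (nat_lit 6))
    (@En.n l617 (nat_lit 7913) (nat_lit 12) (nat_lit 12))
    (@En.n l3480 (nat_lit 7484) (nat_lit 13) (nat_lit 7))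
    (@En.n l28644 (nat_lit 8763) (nat_lit 14) (nat_lit 9))
    (@En.n l5634 (nat_lit 7843) (nat_lit 12) (nat_lit 11))
    (@En.n l107 (nat_lit 7915) (nat_lit 15) (nat_lit 2))))
  (@Cl.mk (nat_lit 0x2000c000a000700050004000c000c0006000c0004000400090004000e000b) (nat_lit 0x560008306004021) (nat_lit 16) Lb.e (@T16.mk En
    (@En.n l3230 (nat_lit 2316) (nat_lit 11) (nat_lit 11))
    (@En.n l6481 (nat_lit 7006) (nat_lit 1) (nat_lit 14))
    (@En.n l2353 (nat_lit 7917) (nat_lit 2) (nat_lit 4))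
    (@En.n l24252 (nat_lit 7915) (nat_lit 3) (nat_lit 9))
    (@En.n l152 (nat_lit 7918) (nat_lit 12) (nat_lit 4))
    (@En.n l3851 (nat_lit 7163) (nat_lit 5) (nat_lit 4))
    (@En.n l23536 (nat_lit 2148) (nat_lit 7) (nat_lit 12))
    (@En.n l9775 (nat_lit 7158) (nat_lit 7) (nat_lit 6))
    (@En.n l3536 (nat_lit 6895) (nat_lit 4) (nat_lit 12))
    (@En.n l22903 (nat_lit 10530) (nat_lit 10) (nat_lit 12))
    (@En.n l23536 (nat_lit 6167) (nat_lit 10) (nat_lit 4))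
    (@En.i (nat_lit 8606) (nat_lit 0) (nat_lit 5))
    (@En.n l4855 (nat_lit 1219) (nat_lit 13) (nat_lit 7))
    (@En.i (nat_lit 8534) (nat_lit 14) (nat_lit 10))
    (@En.n l24685 (nat_lit 7755) (nat_lit 2) (nat_lit 12))
    (@En.n l7 (nat_lit 7916) (nat_lit 15) (nat_lit 2))))
  (@Cl.mk (nat_lit 0x2000c000a000900050004000b000b0006000c0007000500050004000e000b) (nat_lit 0x981004306000041) (nat_lit 16) Lb.e (@T16.mk En
    (@En.n l15725 (nat_lit 2318) (nat_lit 14) (nat_lit 11))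
    (@En.n l9518 (nat_lit 8221) (nat_lit 1) (nat_lit 14))
    (@En.n l5638 (nat_lit 7160) (nat_lit 2) (nat_lit 4))
    (@En.n l6968 (nat_lit 7919) (nat_lit 11) (nat_lit 5))
    (@En.i (nat_lit 7913) (nat_lit 4) (nat_lit 5))
    (@En.n l14262 (nat_lit 3220) (nat_lit 5) (nat_lit 7))
    (@En.i (nat_lit 2190) (nat_lit 7) (nat_lit 12))
    (@En.n l15726 (nat_lit 7818) (nat_lit 7) (nat_lit 6))
    (@En.n l15727 (nat_lit 6894) (nat_lit 5) (nat_lit 11))
    (@En.n l15728 (nat_lit 12265) (nat_lit 10) (nat_lit 11))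
    (@En.i (nat_lit 6158) (nat_lit 10) (nat_lit 4))
    (@En.n l15729 (nat_lit 8489) (nat_lit 0) (nat_lit 5))
    (@En.n l15730 (nat_lit 299) (nat_lit 13) (nat_lit 9))
    (@En.n l14258 (nat_lit 8569) (nat_lit 14) (nat_lit 10))
    (@En.n l15731 (nat_lit 7893) (nat_lit 2) (nat_lit 12))
    (@En.n l107 (nat_lit 7917) (nat_lit 15) (nat_lit 2))))
  (@Cl.mk (nat_lit 0x20007000d000400090003000e000b0002000c0009000700050004000e000c) (nat_lit 0x3020b105600099) (nat_lit 16) Lb.e (@T16.mk En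
    (@En.i (nat_lit 7916) (nat_lit 9) (nat_lit 12))
    (@En.n l6482 (nat_lit 12286) (nat_lit 1) (nat_lit 14))
    (@En.n l6483 (nat_lit 6165) (nat_lit 2) (nat_lit 4))
    (@En.i (nat_lit 8530) (nat_lit 3) (nat_lit 5))
    (@En.n l4855 (nat_lit 1217) (nat_lit 4) (nat_lit 7))
    (@En.n l61 (nat_lit 8524) (nat_lit 5) (nat_lit 9))
    (@En.n l6369 (nat_lit 7758) (nat_lit 7) (nat_lit 12))
    (@En.n l7 (nat_lit 7918) (nat_lit 7) (nat_lit 2))
    (@En.i (nat_lit 2312) (nat_lit 9) (nat_lit 11))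
    (@En.i (nat_lit 7668) (nat_lit 1) (nat_lit 14))
    (@En.i (nat_lit 7919) (nat_lit 10) (nat_lit 3))
    (@En.n l6478 (nat_lit 6464) (nat_lit 12) (nat_lit 9))
    (@En.n l117 (nat_lit 7907) (nat_lit 4) (nat_lit 4))
    (@En.n l4806 (nat_lit 2187) (nat_lit 6) (nat_lit 13))
    (@En.i (nat_lit 7814) (nat_lit 6) (nat_lit 7))
    (@En.n l3 (nat_lit 7918) (nat_lit 15) (nat_lit 2))))
  (@Cl.mk (nat_lit 0x20007000d000800050003000e000b0002000c0009000800050004000e000b) (nat_lit 0x2500b1047100b5) (nat_lit 16) Lb.e (@T16.mk En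
    (@En.n l2353 (nat_lit 7917) (nat_lit 9) (nat_lit 11))
    (@En.n l4911 (nat_lit 12508) (nat_lit 1) (nat_lit 14))
    (@En.n l6381 (nat_lit 6160) (nat_lit 2) (nat_lit 4))
    (@En.i (nat_lit 8491) (nat_lit 3) (nat_lit 5))
    (@En.n l4912 (nat_lit 1122) (nat_lit 13) (nat_lit 8))
    (@En.n l61 (nat_lit 8525) (nat_lit 5) (nat_lit 9))
    (@En.n l6382 (nat_lit 7763) (nat_lit 7) (nat_lit 12))
    (@En.n l7 (nat_lit 7919) (nat_lit 7) (nat_lit 2))
    (@En.i (nat_lit 2313) (nat_lit 9) (nat_lit 11))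
    (@En.n l6383 (nat_lit 7652) (nat_lit 1) (nat_lit 14))
    (@En.n l11 (nat_lit 7918) (nat_lit 10) (nat_lit 3))
    (@En.n l6384 (nat_lit 7921) (nat_lit 3) (nat_lit 5))
    (@En.i (nat_lit 3221) (nat_lit 13) (nat_lit 8))
    (@En.n l2357 (nat_lit 2186) (nat_lit 6) (nat_lit 13))
    (@En.i (nat_lit 7815) (nat_lit 6) (nat_lit 7))
    (@En.n l3 (nat_lit 7919) (nat_lit 15) (nat_lit 2))))
noncomputable def a495 : T16 Cl := @T16.mk Cl
  (@Cl.mk (nat_lit 0x2000b0008000c000b000600050004000c00050008000e00040002000e000a) (nat_lit 0x352200060580078) (nat_lit 16) Lb.e (@T16.mk En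
    (@En.n l575 (nat_lit 6875) (nat_lit 14) (nat_lit 10))
    (@En.i (nat_lit 9524) (nat_lit 1) (nat_lit 14))
    (@En.n l17 (nat_lit 7920) (nat_lit 2) (nat_lit 2))
    (@En.n l13375 (nat_lit 7485) (nat_lit 3) (nat_lit 4))
    (@En.n l998 (nat_lit 2357) (nat_lit 5) (nat_lit 14))
    (@En.n l26994 (nat_lit 4663) (nat_lit 10) (nat_lit 8))
    (@En.n l28 (nat_lit 1970) (nat_lit 6) (nat_lit 5))
    (@En.n l9726 (nat_lit 7915) (nat_lit 8) (nat_lit 12))
    (@En.n l1577 (nat_lit 7923) (nat_lit 8) (nat_lit 4))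
    (@En.i (nat_lit 4060) (nat_lit 9) (nat_lit 5))
    (@En.n l26995 (nat_lit 7541) (nat_lit 7) (nat_lit 6))
    (@En.n l457 (nat_lit 7921) (nat_lit 12) (nat_lit 11))
    (@En.i (nat_lit 2680) (nat_lit 13) (nat_lit 12))
    (@En.n l3339 (nat_lit 8291) (nat_lit 14) (nat_lit 8))
    (@En.n l107 (nat_lit 7884) (nat_lit 12) (nat_lit 11))
    (@En.n l3 (nat_lit 7920) (nat_lit 15) (nat_lit 2))))
  (@Cl.mk (nat_lit 0x2000c0008000b00050004000d000b000500030008000e00050002000e000b) (nat_lit 0x35100a500620089) (nat_lit 16) Lb.e (@T16.mk En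
    (@En.i (nat_lit 6874) (nat_lit 14) (nat_lit 11))
    (@En.i (nat_lit 9498) (nat_lit 1) (nat_lit 14))
    (@En.n l17 (nat_lit 7921) (nat_lit 2) (nat_lit 2))
    (@En.n l15706 (nat_lit 7481) (nat_lit 3) (nat_lit 5))
    (@En.n l6749 (nat_lit 2193) (nat_lit 1) (nat_lit 14))
    (@En.n l10938 (nat_lit 7920) (nat_lit 5) (nat_lit 8))
    (@En.n l7 (nat_lit 7922) (nat_lit 6) (nat_lit 3))
    (@En.n l685 (nat_lit 1972) (nat_lit 0) (nat_lit 5))
    (@En.n l5843 (nat_lit 7913) (nat_lit 9) (nat_lit 11))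
    (@En.n l287 (nat_lit 12618) (nat_lit 10) (nat_lit 13))
    (@En.n l11 (nat_lit 4059) (nat_lit 10) (nat_lit 4))
    (@En.n l15707 (nat_lit 7943) (nat_lit 8) (nat_lit 5))
    (@En.i (nat_lit 678) (nat_lit 13) (nat_lit 11))
    (@En.i (nat_lit 8295) (nat_lit 14) (nat_lit 8))
    (@En.i (nat_lit 7882) (nat_lit 12) (nat_lit 12))
    (@En.n l3 (nat_lit 7921) (nat_lit 15) (nat_lit 2))))
  (@Cl.mk (nat_lit 0x2000c0008000c00050004000d0004000c00030008000e00040002000e000b) (nat_lit 0x3540090a0640069) (nat_lit 16) Lb.e (@T16.mk En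
    (@En.i (nat_lit 6876) (nat_lit 14) (nat_lit 11))
    (@En.i (nat_lit 9501) (nat_lit 1) (nat_lit 14))
    (@En.n l17 (nat_lit 7922) (nat_lit 2) (nat_lit 2))
    (@En.n l28468 (nat_lit 7484) (nat_lit 3) (nat_lit 4))
    (@En.n l6749 (nat_lit 2232) (nat_lit 1) (nat_lit 14))
    (@En.n l10938 (nat_lit 4666) (nat_lit 5) (nat_lit 8))
    (@En.i (nat_lit 7921) (nat_lit 6) (nat_lit 3))
    (@En.n l2254 (nat_lit 7918) (nat_lit 0) (nat_lit 12))
    (@En.n l11 (nat_lit 7920) (nat_lit 8) (nat_lit 4))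
    (@En.n l287 (nat_lit 12616) (nat_lit 10) (nat_lit 13))
    (@En.n l11 (nat_lit 4058) (nat_lit 10) (nat_lit 4))
    (@En.n l2254 (nat_lit 8693) (nat_lit 8) (nat_lit 5))
    (@En.i (nat_lit 3831) (nat_lit 13) (nat_lit 12))
    (@En.n l532 (nat_lit 8760) (nat_lit 14) (nat_lit 8))
    (@En.i (nat_lit 7879) (nat_lit 12) (nat_lit 12))
    (@En.n l3 (nat_lit 7922) (nat_lit 15) (nat_lit 2))))
  (@Cl.mk (nat_lit 0x2000d0008000c0003000c00070004000c00040008000e00040002000e0009) (nat_lit 0x765080060140060) (nat_lit 16) Lb.e (@T16.mk En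
    (@En.n l2254 (nat_lit 7930) (nat_lit 14) (nat_lit 9))
    (@En.n l3623 (nat_lit 11256) (nat_lit 1) (nat_lit 14))
    (@En.n l17 (nat_lit 7923) (nat_lit 2) (nat_lit 2))
    (@En.n l16004 (nat_lit 7927) (nat_lit 3) (nat_lit 4))
    (@En.n l6749 (nat_lit 5942) (nat_lit 1) (nat_lit 14))
    (@En.n l16005 (nat_lit 4669) (nat_lit 5) (nat_lit 8))
    (@En.n l10607 (nat_lit 3144) (nat_lit 6) (nat_lit 4))
    (@En.n l2254 (nat_lit 11623) (nat_lit 8) (nat_lit 12))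
    (@En.i (nat_lit 7922) (nat_lit 8) (nat_lit 4))
    (@En.n l16006 (nat_lit 10224) (nat_lit 6) (nat_lit 7))
    (@En.n l2228 (nat_lit 12617) (nat_lit 11) (nat_lit 12))
    (@En.n l16007 (nat_lit 7924) (nat_lit 11) (nat_lit 3))
    (@En.i (nat_lit 3699) (nat_lit 0) (nat_lit 12))
    (@En.n l6578 (nat_lit 7925) (nat_lit 14) (nat_lit 8))
    (@En.n l2053 (nat_lit 11144) (nat_lit 12) (nat_lit 13))
    (@En.n l3 (nat_lit 7923) (nat_lit 15) (nat_lit 2))))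
  (@Cl.mk (nat_lit 0x2000d000b00090003000c00070005000c00040007000e00040002000e0009) (nat_lit 0x642080060050060) (nat_lit 16) Lb.e (@T16.mk En
    (@En.i (nat_lit 7929) (nat_lit 14) (nat_lit 9))
    (@En.n l30889 (nat_lit 11255) (nat_lit 1) (nat_lit 14))
    (@En.n l11 (nat_lit 7924) (nat_lit 2) (nat_lit 2))
    (@En.n l117 (nat_lit 7926) (nat_lit 3) (nat_lit 4))
    (@En.n l1501 (nat_lit 6282) (nat_lit 1) (nat_lit 14))
    (@En.n l10065 (nat_lit 4804) (nat_lit 11) (nat_lit 7))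
    (@En.n l2576 (nat_lit 3143) (nat_lit 6) (nat_lit 4))
    (@En.i (nat_lit 11600) (nat_lit 8) (nat_lit 12))
    (@En.n l6478 (nat_lit 8297) (nat_lit 8) (nat_lit 5))
    (@En.n l25147 (nat_lit 10220) (nat_lit 6) (nat_lit 7))
    (@En.i (nat_lit 7925) (nat_lit 11) (nat_lit 12))
    (@En.n l6478 (nat_lit 7923) (nat_lit 11) (nat_lit 3))
    (@En.n l1162 (nat_lit 1637) (nat_lit 0) (nat_lit 9))
    (@En.n l30890 (nat_lit 7920) (nat_lit 14) (nat_lit 11))
    (@En.n l4270 (nat_lit 11142) (nat_lit 12) (nat_lit 13))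
    (@En.n l7 (nat_lit 7924) (nat_lit 15) (nat_lit 2))))
  (@Cl.mk (nat_lit 0x20008000c0009000c00060004000b000400080007000e00050002000e000a) (nat_lit 0x541700504060070) (nat_lit 16) Lb.e (@T16.mk En
    (@En.i (nat_lit 7931) (nat_lit 14) (nat_lit 10))
    (@En.n l16747 (nat_lit 11257) (nat_lit 1) (nat_lit 14))
    (@En.n l11 (nat_lit 7925) (nat_lit 2) (nat_lit 2))
    (@En.n l16748 (nat_lit 7928) (nat_lit 3) (nat_lit 5))
    (@En.n l16749 (nat_lit 11196) (nat_lit 5) (nat_lit 14))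
    (@En.n l17 (nat_lit 7924) (nat_lit 5) (nat_lit 7))
    (@En.n l10065 (nat_lit 12504) (nat_lit 6) (nat_lit 8))
    (@En.n l16750 (nat_lit 3142) (nat_lit 7) (nat_lit 4))
    (@En.i (nat_lit 11599) (nat_lit 9) (nat_lit 11))
    (@En.n l6482 (nat_lit 8760) (nat_lit 9) (nat_lit 4))
    (@En.n l16751 (nat_lit 10222) (nat_lit 7) (nat_lit 6))
    (@En.n l16752 (nat_lit 12621) (nat_lit 12) (nat_lit 12))
    (@En.n l3142 (nat_lit 1636) (nat_lit 13) (nat_lit 9))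
    (@En.n l16752 (nat_lit 7921) (nat_lit 14) (nat_lit 12))
    (@En.n l9771 (nat_lit 12811) (nat_lit 12) (nat_lit 8))
    (@En.n l7 (nat_lit 7925) (nat_lit 15) (nat_lit 2))))
  (@Cl.mk (nat_lit 0x2000d000b00080003000b00070005000c000c0005000800040004000e0009) (nat_lit 0x724060037030030) (nat_lit 16) Lb.e (@T16.mk En
    (@En.i (nat_lit 7932) (nat_lit 4) (nat_lit 9))
    (@En.n l3528 (nat_lit 9636) (nat_lit 1) (nat_lit 14))
    (@En.n l2385 (nat_lit 11222) (nat_lit 12) (nat_lit 4))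
    (@En.n l15539 (nat_lit 11308) (nat_lit 3) (nat_lit 4))
    (@En.n l17308 (nat_lit 3991) (nat_lit 10) (nat_lit 8))
    (@En.n l30804 (nat_lit 7435) (nat_lit 5) (nat_lit 5))
    (@En.n l619 (nat_lit 7924) (nat_lit 7) (nat_lit 12))
    (@En.i (nat_lit 11618) (nat_lit 8) (nat_lit 12))
    (@En.n l10536 (nat_lit 8554) (nat_lit 8) (nat_lit 5))
    (@En.n l15539 (nat_lit 10225) (nat_lit 14) (nat_lit 7))
    (@En.n l30805 (nat_lit 7928) (nat_lit 11) (nat_lit 11))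
    (@En.n l22901 (nat_lit 7927) (nat_lit 11) (nat_lit 3))
    (@En.n l11968 (nat_lit 1644) (nat_lit 0) (nat_lit 8))
    (@En.n l30806 (nat_lit 7485) (nat_lit 14) (nat_lit 11))
    (@En.n l396 (nat_lit 11153) (nat_lit 2) (nat_lit 13))
    (@En.n l7 (nat_lit 7926) (nat_lit 15) (nat_lit 2))))
  (@Cl.mk (nat_lit 0x2000d0007000c0003000b00070004000c000c0005000900040004000e0009) (nat_lit 0x7030600570100a4) (nat_lit 16) Lb.e (@T16.mk En
    (@En.n l15947 (nat_lit 7933) (nat_lit 4) (nat_lit 9))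
    (@En.n l3786 (nat_lit 9638) (nat_lit 1) (nat_lit 14))
    (@En.n l16158 (nat_lit 11221) (nat_lit 12) (nat_lit 4))
    (@En.i (nat_lit 11249) (nat_lit 3) (nat_lit 4))
    (@En.n l12788 (nat_lit 4667) (nat_lit 4) (nat_lit 9))
    (@En.n l77 (nat_lit 7434) (nat_lit 5) (nat_lit 5))
    (@En.n l16159 (nat_lit 7923) (nat_lit 7) (nat_lit 12))
    (@En.n l15947 (nat_lit 11619) (nat_lit 8) (nat_lit 12))
    (@En.n l6975 (nat_lit 7484) (nat_lit 8) (nat_lit 4))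
    (@En.n l12788 (nat_lit 10227) (nat_lit 14) (nat_lit 7))
    (@En.i (nat_lit 11559) (nat_lit 11) (nat_lit 11))
    (@En.n l16160 (nat_lit 7926) (nat_lit 11) (nat_lit 3))
    (@En.n l6491 (nat_lit 3700) (nat_lit 0) (nat_lit 12))
    (@En.i (nat_lit 7928) (nat_lit 14) (nat_lit 7))
    (@En.n l16161 (nat_lit 11151) (nat_lit 2) (nat_lit 13))
    (@En.n l17 (nat_lit 7927) (nat_lit 15) (nat_lit 2))))
  (@Cl.mk (nat_lit 0x20007000c0008000b00060004000b000b00050009000800050005000e000a) (nat_lit 0x23500660540020) (nat_lit 16) Lb.e (@T16.mk En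
    (@En.n l15945 (nat_lit 11224) (nat_lit 13) (nat_lit 10))
    (@En.n l3786 (nat_lit 9637) (nat_lit 1) (nat_lit 14))
    (@En.n l15946 (nat_lit 12509) (nat_lit 11) (nat_lit 5))
    (@En.n l10593 (nat_lit 11292) (nat_lit 3) (nat_lit 5))
    (@En.n l15947 (nat_lit 7926) (nat_lit 4) (nat_lit 8))
    (@En.n l15948 (nat_lit 12503) (nat_lit 5) (nat_lit 9))
    (@En.n l77 (nat_lit 7188) (nat_lit 6) (nat_lit 5))
    (@En.n l15949 (nat_lit 7925) (nat_lit 8) (nat_lit 11))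
    (@En.n l15950 (nat_lit 11621) (nat_lit 9) (nat_lit 11))
    (@En.n l6975 (nat_lit 8559) (nat_lit 9) (nat_lit 4))
    (@En.n l15951 (nat_lit 10072) (nat_lit 11) (nat_lit 6))
    (@En.n l3779 (nat_lit 12758) (nat_lit 7) (nat_lit 11))
    (@En.n l6975 (nat_lit 1640) (nat_lit 13) (nat_lit 8))
    (@En.n l15952 (nat_lit 7481) (nat_lit 14) (nat_lit 12))
    (@En.n l15953 (nat_lit 11093) (nat_lit 4) (nat_lit 7))
    (@En.n l17 (nat_lit 7928) (nat_lit 15) (nat_lit 2))))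
  (@Cl.mk (nat_lit 0x200090009000d000a00080003000b000700070006000c00050008000e0004) (nat_lit 0x7773206000701a0) (nat_lit 16) Lb.e (@T16.mk En
    (@En.n l117 (nat_lit 7932) (nat_lit 6) (nat_lit 4))
    (@En.n l1501 (nat_lit 6255) (nat_lit 1) (nat_lit 14))
    (@En.n l10067 (nat_lit 3989) (nat_lit 10) (nat_lit 8))
    (@En.n l2576 (nat_lit 2990) (nat_lit 3) (nat_lit 5))
    (@En.n l8907 (nat_lit 12209) (nat_lit 5) (nat_lit 12))
    (@En.n l644 (nat_lit 7085) (nat_lit 5) (nat_lit 6))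
    (@En.n l77 (nat_lit 7924) (nat_lit 9) (nat_lit 7))
    (@En.n l24344 (nat_lit 8921) (nat_lit 7) (nat_lit 7))
    (@En.i (nat_lit 7931) (nat_lit 9) (nat_lit 11))
    (@En.i (nat_lit 7930) (nat_lit 9) (nat_lit 3))
    (@En.n l7983 (nat_lit 1642) (nat_lit 11) (nat_lit 8))
    (@En.n l32280 (nat_lit 6875) (nat_lit 12) (nat_lit 10))
    (@En.n l31999 (nat_lit 11140) (nat_lit 13) (nat_lit 13))
    (@En.n l37852 (nat_lit 11232) (nat_lit 7) (nat_lit 9))
    (@En.n l810 (nat_lit 10377) (nat_lit 4) (nat_lit 9))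
    (@En.n l11 (nat_lit 7929) (nat_lit 15) (nat_lit 2))))
  (@Cl.mk (nat_lit 0x200090009000d0007000b0003000b000700070005000c00050009000e0004) (nat_lit 0x776040600070160) (nat_lit 16) Lb.e (@T16.mk En
    (@En.n l117 (nat_lit 7933) (nat_lit 6) (nat_lit 4))
    (@En.n l30519 (nat_lit 6267) (nat_lit 1) (nat_lit 14))
    (@En.i (nat_lit 3633) (nat_lit 2) (nat_lit 9))
    (@En.n l30520 (nat_lit 3146) (nat_lit 3) (nat_lit 5))
    (@En.n l8907 (nat_lit 12207) (nat_lit 5) (nat_lit 12))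
    (@En.n l6478 (nat_lit 7091) (nat_lit 5) (nat_lit 5))
    (@En.n l26187 (nat_lit 7923) (nat_lit 9) (nat_lit 7))
    (@En.n l18843 (nat_lit 8922) (nat_lit 7) (nat_lit 7))
    (@En.n l16752 (nat_lit 11553) (nat_lit 9) (nat_lit 11))
    (@En.n l18 (nat_lit 7929) (nat_lit 9) (nat_lit 3))
    (@En.n l6478 (nat_lit 3693) (nat_lit 0) (nat_lit 11))
    (@En.n l61 (nat_lit 7931) (nat_lit 12) (nat_lit 7))
    (@En.n l30519 (nat_lit 11145) (nat_lit 13) (nat_lit 13))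
    (@En.n l30521 (nat_lit 11233) (nat_lit 7) (nat_lit 9))
    (@En.n l810 (nat_lit 10379) (nat_lit 4) (nat_lit 9))
    (@En.n l11 (nat_lit 7930) (nat_lit 15) (nat_lit 2))))
  (@Cl.mk (nat_lit 0x2000a000a0007000b0008000b000600060005000b000500090008000e0005) (nat_lit 0x8803150006052a0) (nat_lit 16) Lb.e (@T16.mk En
    (@En.n l117 (nat_lit 11224) (nat_lit 15) (nat_lit 5))
    (@En.n l16749 (nat_lit 11148) (nat_lit 1) (nat_lit 14))
    (@En.n l17 (nat_lit 7929) (nat_lit 2) (nat_lit 8))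
    (@En.i (nat_lit 11133) (nat_lit 3) (nat_lit 9))
    (@En.n l16750 (nat_lit 3145) (nat_lit 4) (nat_lit 5))
    (@En.n l8907 (nat_lit 12212) (nat_lit 6) (nat_lit 11))
    (@En.n l644 (nat_lit 7090) (nat_lit 6) (nat_lit 5))
    (@En.n l77 (nat_lit 7925) (nat_lit 10) (nat_lit 6))
    (@En.n l32000 (nat_lit 10219) (nat_lit 8) (nat_lit 6))
    (@En.n l16752 (nat_lit 11062) (nat_lit 10) (nat_lit 11))
    (@En.n l30076 (nat_lit 1639) (nat_lit 11) (nat_lit 8))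
    (@En.n l16752 (nat_lit 6874) (nat_lit 12) (nat_lit 11))
    (@En.n l32002 (nat_lit 9780) (nat_lit 13) (nat_lit 7))
    (@En.n l32134 (nat_lit 11231) (nat_lit 6) (nat_lit 10))
    (@En.n l810 (nat_lit 10378) (nat_lit 14) (nat_lit 10))
    (@En.n l11 (nat_lit 7931) (nat_lit 15) (nat_lit 2))))
  (@Cl.mk (nat_lit 0x3000a000700070006000c000c000600090004000400090009000d000a0007) (nat_lit 0x600008020077530) (nat_lit 16) Lb.e (@T16.mk En
    (@En.n l12066 (nat_lit 1647) (nat_lit 0) (nat_lit 7))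
    (@En.n l15815 (nat_lit 6883) (nat_lit 11) (nat_lit 10))
    (@En.n l28911 (nat_lit 11110) (nat_lit 6) (nat_lit 13))
    (@En.n l12627 (nat_lit 11226) (nat_lit 7) (nat_lit 9))
    (@En.n l27092 (nat_lit 9954) (nat_lit 4) (nat_lit 9))
    (@En.n l2385 (nat_lit 11220) (nat_lit 12) (nat_lit 4))
    (@En.n l13947 (nat_lit 10467) (nat_lit 6) (nat_lit 4))
    (@En.n l12066 (nat_lit 3987) (nat_lit 9) (nat_lit 9))
    (@En.n l41466 (nat_lit 5436) (nat_lit 1) (nat_lit 6))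
    (@En.n l619 (nat_lit 7929) (nat_lit 4) (nat_lit 12))
    (@En.n l12632 (nat_lit 11441) (nat_lit 11) (nat_lit 12))
    (@En.n l644 (nat_lit 7087) (nat_lit 10) (nat_lit 6))
    (@En.n l77 (nat_lit 7926) (nat_lit 9) (nat_lit 7))
    (@En.n l13947 (nat_lit 10229) (nat_lit 14) (nat_lit 7))
    (@En.i (nat_lit 11224) (nat_lit 8) (nat_lit 10))
    (@En.i (nat_lit 7933) (nat_lit 15) (nat_lit 3))))
  (@Cl.mk (nat_lit 0x3000a000700070005000c000c0006000a0004000400090009000d0006000b) (nat_lit 0x600068010037502) (nat_lit 16) Lb.e (@T16.mk En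
    (@En.n l30666 (nat_lit 3692) (nat_lit 0) (nat_lit 11))
    (@En.n l61 (nat_lit 11224) (nat_lit 11) (nat_lit 6))
    (@En.n l30667 (nat_lit 11111) (nat_lit 6) (nat_lit 13))
    (@En.n l30668 (nat_lit 11229) (nat_lit 7) (nat_lit 9))
    (@En.n l30669 (nat_lit 9953) (nat_lit 4) (nat_lit 9))
    (@En.n l30670 (nat_lit 11219) (nat_lit 12) (nat_lit 4))
    (@En.n l22901 (nat_lit 11244) (nat_lit 6) (nat_lit 4))
    (@En.n l30671 (nat_lit 3627) (nat_lit 0) (nat_lit 10))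
    (@En.n l30672 (nat_lit 5437) (nat_lit 1) (nat_lit 6))
    (@En.n l619 (nat_lit 7930) (nat_lit 4) (nat_lit 12))
    (@En.n l30673 (nat_lit 11442) (nat_lit 11) (nat_lit 12))
    (@En.i (nat_lit 7092) (nat_lit 4) (nat_lit 5))
    (@En.n l30674 (nat_lit 7927) (nat_lit 9) (nat_lit 7))
    (@En.n l30675 (nat_lit 10240) (nat_lit 14) (nat_lit 7))
    (@En.n l22882 (nat_lit 11554) (nat_lit 2) (nat_lit 10))
    (@En.n l18 (nat_lit 7932) (nat_lit 15) (nat_lit 3))))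
  (@Cl.mk (nat_lit 0x2000c000b0006000a0004000e00050002000d0006000c0003000a000e0004) (nat_lit 0x810305009060840) (nat_lit 16) Lb.e (@T16.mk En
    (@En.n l3098 (nat_lit 7131) (nat_lit 8) (nat_lit 4))
    (@En.i (nat_lit 2374) (nat_lit 10) (nat_lit 14))
    (@En.n l12978 (nat_lit 5835) (nat_lit 11) (nat_lit 10))
    (@En.i (nat_lit 7935) (nat_lit 3) (nat_lit 3))
    (@En.n l7288 (nat_lit 7767) (nat_lit 0) (nat_lit 12))
    (@En.i (nat_lit 7936) (nat_lit 14) (nat_lit 6))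
    (@En.i (nat_lit 11173) (nat_lit 7) (nat_lit 13))
    (@En.n l28 (nat_lit 7934) (nat_lit 7) (nat_lit 2))
    (@En.n l7948 (nat_lit 6876) (nat_lit 8) (nat_lit 5))
    (@En.n l1578 (nat_lit 7880) (nat_lit 1) (nat_lit 14))
    (@En.n l117 (nat_lit 7449) (nat_lit 10) (nat_lit 4))
    (@En.n l3922 (nat_lit 3776) (nat_lit 3) (nat_lit 10))
    (@En.i (nat_lit 7938) (nat_lit 13) (nat_lit 6))
    (@En.n l575 (nat_lit 3532) (nat_lit 14) (nat_lit 11))
    (@En.i (nat_lit 9596) (nat_lit 7) (nat_lit 12))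
    (@En.n l17 (nat_lit 7934) (nat_lit 15) (nat_lit 2))))
  (@Cl.mk (nat_lit 0x2000c000b000600090004000e00050002000d000b00070003000a000e0005) (nat_lit 0x81010500a600820) (nat_lit 16) Lb.e (@T16.mk En
    (@En.n l3147 (nat_lit 7477) (nat_lit 8) (nat_lit 5))
    (@En.i (nat_lit 2376) (nat_lit 10) (nat_lit 14))
    (@En.n l612 (nat_lit 7936) (nat_lit 11) (nat_lit 10))
    (@En.n l50 (nat_lit 7934) (nat_lit 3) (nat_lit 3))
    (@En.n l771 (nat_lit 4630) (nat_lit 0) (nat_lit 7))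
    (@En.n l217 (nat_lit 7128) (nat_lit 14) (nat_lit 11))
    (@En.i (nat_lit 11176) (nat_lit 7) (nat_lit 13))
    (@En.n l28 (nat_lit 7935) (nat_lit 7) (nat_lit 2))
    (@En.n l7948 (nat_lit 6874) (nat_lit 8) (nat_lit 5))
    (@En.n l1578 (nat_lit 7881) (nat_lit 1) (nat_lit 14))
    (@En.n l117 (nat_lit 7456) (nat_lit 10) (nat_lit 4))
    (@En.n l3922 (nat_lit 679) (nat_lit 3) (nat_lit 9))
    (@En.i (nat_lit 7937) (nat_lit 13) (nat_lit 6))
    (@En.n l575 (nat_lit 3529) (nat_lit 14) (nat_lit 11))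
    (@En.n l10773 (nat_lit 9595) (nat_lit 7) (nat_lit 12))
    (@En.n l17 (nat_lit 7935) (nat_lit 15) (nat_lit 2))))
noncomputable def a496 : T16 Cl := @T16.mk Cl
  (@Cl.mk (nat_lit 0x20006000c0007000a000e00040002000b000a0006000a00090005000e0006) (nat_lit 0x60790071012060) (nat_lit 16) Lb.e (@T16.mk En
    (@En.n l7948 (nat_lit 6875) (nat_lit 7) (nat_lit 6))
    (@En.n l1578 (nat_lit 7883) (nat_lit 1) (nat_lit 14))
    (@En.n l29454 (nat_lit 8924) (nat_lit 2) (nat_lit 5))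
    (@En.n l644 (nat_lit 7935) (nat_lit 11) (nat_lit 9))
    (@En.n l3922 (nat_lit 2668) (nat_lit 4) (nat_lit 10))
    (@En.n l13119 (nat_lit 7939) (nat_lit 5) (nat_lit 6))
    (@En.n l575 (nat_lit 3526) (nat_lit 14) (nat_lit 10))
    (@En.i (nat_lit 9594) (nat_lit 8) (nat_lit 11))
    (@En.n l17 (nat_lit 7936) (nat_lit 8) (nat_lit 2))
    (@En.n l3098 (nat_lit 7246) (nat_lit 9) (nat_lit 4))
    (@En.i (nat_lit 2302) (nat_lit 11) (nat_lit 14))
    (@En.n l12978 (nat_lit 5840) (nat_lit 12) (nat_lit 10))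
    (@En.n l771 (nat_lit 4631) (nat_lit 13) (nat_lit 7))
    (@En.n l564 (nat_lit 7129) (nat_lit 14) (nat_lit 12))
    (@En.n l3100 (nat_lit 11147) (nat_lit 5) (nat_lit 6))
    (@En.n l28 (nat_lit 7936) (nat_lit 15) (nat_lit 2))))
  (@Cl.mk (nat_lit 0x2000d000600090003000e00090002000d000a00070003000a0007000e0006) (nat_lit 0x8010c0090008030) (nat_lit 16) Lb.e (@T16.mk En
    (@En.n l9916 (nat_lit 7942) (nat_lit 7) (nat_lit 6))
    (@En.i (nat_lit 6709) (nat_lit 1) (nat_lit 14))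
    (@En.n l761 (nat_lit 7943) (nat_lit 2) (nat_lit 7))
    (@En.n l25284 (nat_lit 7939) (nat_lit 11) (nat_lit 10))
    (@En.n l50 (nat_lit 7938) (nat_lit 4) (nat_lit 3))
    (@En.n l23395 (nat_lit 4635) (nat_lit 0) (nat_lit 7))
    (@En.n l217 (nat_lit 8574) (nat_lit 14) (nat_lit 10))
    (@En.n l25285 (nat_lit 11455) (nat_lit 8) (nat_lit 13))
    (@En.n l28 (nat_lit 7937) (nat_lit 8) (nat_lit 2))
    (@En.n l25286 (nat_lit 7941) (nat_lit 10) (nat_lit 9))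
    (@En.n l1578 (nat_lit 11508) (nat_lit 1) (nat_lit 14))
    (@En.n l117 (nat_lit 7940) (nat_lit 11) (nat_lit 3))
    (@En.n l3922 (nat_lit 2116) (nat_lit 9) (nat_lit 9))
    (@En.i (nat_lit 7442) (nat_lit 14) (nat_lit 6))
    (@En.n l9916 (nat_lit 6918) (nat_lit 6) (nat_lit 13))
    (@En.n l17 (nat_lit 7937) (nat_lit 15) (nat_lit 2))))
  (@Cl.mk (nat_lit 0x2000d0006000a0003000e00090002000d0006000b0003000a0007000e0005) (nat_lit 0x508040080008050) (nat_lit 16) Lb.e (@T16.mk En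
    (@En.n l3098 (nat_lit 11313) (nat_lit 7) (nat_lit 5))
    (@En.i (nat_lit 6705) (nat_lit 1) (nat_lit 14))
    (@En.n l2383 (nat_lit 8693) (nat_lit 2) (nat_lit 7))
    (@En.n l30891 (nat_lit 9215) (nat_lit 11) (nat_lit 10))
    (@En.i (nat_lit 7937) (nat_lit 4) (nat_lit 3))
    (@En.n l2383 (nat_lit 8290) (nat_lit 0) (nat_lit 11))
    (@En.n l13119 (nat_lit 7939) (nat_lit 14) (nat_lit 6))
    (@En.i (nat_lit 11454) (nat_lit 8) (nat_lit 13))
    (@En.n l28 (nat_lit 7938) (nat_lit 8) (nat_lit 2))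
    (@En.n l21696 (nat_lit 7945) (nat_lit 10) (nat_lit 9))
    (@En.n l1578 (nat_lit 11511) (nat_lit 1) (nat_lit 14))
    (@En.n l117 (nat_lit 11314) (nat_lit 2) (nat_lit 3))
    (@En.n l3922 (nat_lit 12615) (nat_lit 3) (nat_lit 10))
    (@En.i (nat_lit 7451) (nat_lit 14) (nat_lit 6))
    (@En.n l9916 (nat_lit 6914) (nat_lit 6) (nat_lit 13))
    (@En.n l17 (nat_lit 7938) (nat_lit 15) (nat_lit 2))))
  (@Cl.mk (nat_lit 0x20006000b0007000a0006000e00050002000c0006000a00090004000e000a) (nat_lit 0x709006062050) (nat_lit 16) Lb.e (@T16.mk En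
    (@En.n l55 (nat_lit 7944) (nat_lit 9) (nat_lit 10))
    (@En.n l3447 (nat_lit 11507) (nat_lit 1) (nat_lit 14))
    (@En.n l27067 (nat_lit 11341) (nat_lit 2) (nat_lit 4))
    (@En.n l24893 (nat_lit 7937) (nat_lit 12) (nat_lit 9))
    (@En.n l13364 (nat_lit 12609) (nat_lit 4) (nat_lit 10))
    (@En.i (nat_lit 7486) (nat_lit 5) (nat_lit 6))
    (@En.n l13365 (nat_lit 6921) (nat_lit 7) (nat_lit 12))
    (@En.n l50 (nat_lit 7939) (nat_lit 7) (nat_lit 2))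
    (@En.n l10003 (nat_lit 11336) (nat_lit 8) (nat_lit 5))
    (@En.n l9632 (nat_lit 6870) (nat_lit 10) (nat_lit 14))
    (@En.n l18752 (nat_lit 9391) (nat_lit 2) (nat_lit 6))
    (@En.n l13365 (nat_lit 9216) (nat_lit 8) (nat_lit 10))
    (@En.n l17949 (nat_lit 4633) (nat_lit 13) (nat_lit 7))
    (@En.i (nat_lit 8568) (nat_lit 14) (nat_lit 11))
    (@En.n l2228 (nat_lit 9777) (nat_lit 6) (nat_lit 6))
    (@En.n l11 (nat_lit 7939) (nat_lit 15) (nat_lit 2))))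
  (@Cl.mk (nat_lit 0x2000d000800070003000e00090002000d000a0008000300090007000e0006) (nat_lit 0x610040090006030) (nat_lit 16) Lb.e (@T16.mk En
    (@En.n l8605 (nat_lit 11311) (nat_lit 7) (nat_lit 6))
    (@En.i (nat_lit 6706) (nat_lit 1) (nat_lit 14))
    (@En.n l6864 (nat_lit 8684) (nat_lit 2) (nat_lit 7))
    (@En.n l32668 (nat_lit 11341) (nat_lit 11) (nat_lit 9))
    (@En.n l50 (nat_lit 11314) (nat_lit 11) (nat_lit 3))
    (@En.n l32669 (nat_lit 9222) (nat_lit 0) (nat_lit 8))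
    (@En.n l217 (nat_lit 10104) (nat_lit 14) (nat_lit 10))
    (@En.n l18801 (nat_lit 11452) (nat_lit 8) (nat_lit 13))
    (@En.n l28 (nat_lit 7940) (nat_lit 8) (nat_lit 2))
    (@En.n l10986 (nat_lit 7947) (nat_lit 10) (nat_lit 9))
    (@En.n l2038 (nat_lit 8104) (nat_lit 1) (nat_lit 14))
    (@En.n l152 (nat_lit 7937) (nat_lit 11) (nat_lit 3))
    (@En.n l5588 (nat_lit 11359) (nat_lit 3) (nat_lit 7))
    (@En.i (nat_lit 5744) (nat_lit 14) (nat_lit 8))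
    (@En.n l5774 (nat_lit 6917) (nat_lit 6) (nat_lit 13))
    (@En.n l17 (nat_lit 7940) (nat_lit 15) (nat_lit 2))))
  (@Cl.mk (nat_lit 0x2000d0007000a000300090009000d000900060003000900070007000e0007) (nat_lit 0x7050707000700a0) (nat_lit 16) Lb.e (@T16.mk En
    (@En.n l30950 (nat_lit 11323) (nat_lit 4) (nat_lit 7))
    (@En.n l30951 (nat_lit 7946) (nat_lit 1) (nat_lit 14))
    (@En.n l30952 (nat_lit 7937) (nat_lit 2) (nat_lit 7))
    (@En.n l2154 (nat_lit 8690) (nat_lit 3) (nat_lit 7))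
    (@En.n l30953 (nat_lit 7944) (nat_lit 4) (nat_lit 9))
    (@En.n l30954 (nat_lit 7945) (nat_lit 5) (nat_lit 3))
    (@En.i (nat_lit 4638) (nat_lit 0) (nat_lit 6))
    (@En.n l30955 (nat_lit 8575) (nat_lit 12) (nat_lit 9))
    (@En.n l2943 (nat_lit 11463) (nat_lit 9) (nat_lit 13))
    (@En.n l61 (nat_lit 9926) (nat_lit 10) (nat_lit 9))
    (@En.n l2228 (nat_lit 11733) (nat_lit 11) (nat_lit 9))
    (@En.n l30956 (nat_lit 7947) (nat_lit 11) (nat_lit 3))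
    (@En.i (nat_lit 4905) (nat_lit 0) (nat_lit 10))
    (@En.n l1916 (nat_lit 7487) (nat_lit 14) (nat_lit 7))
    (@En.n l5999 (nat_lit 6920) (nat_lit 2) (nat_lit 13))
    (@En.n l3 (nat_lit 7941) (nat_lit 15) (nat_lit 2))))
  (@Cl.mk (nat_lit 0x2000c000a000a00080004000b000800060006000d000500080003000e0008) (nat_lit 0x4215083004020c0) (nat_lit 16) Lb.e (@T16.mk En
    (@En.n l27267 (nat_lit 11323) (nat_lit 14) (nat_lit 8))
    (@En.n l27268 (nat_lit 11513) (nat_lit 1) (nat_lit 14))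
    (@En.n l27269 (nat_lit 11311) (nat_lit 2) (nat_lit 3))
    (@En.n l18461 (nat_lit 2118) (nat_lit 10) (nat_lit 8))
    (@En.n l27060 (nat_lit 7437) (nat_lit 4) (nat_lit 5))
    (@En.i (nat_lit 9367) (nat_lit 6) (nat_lit 13))
    (@En.n l27270 (nat_lit 11320) (nat_lit 10) (nat_lit 6))
    (@En.i (nat_lit 9188) (nat_lit 7) (nat_lit 6))
    (@En.n l27060 (nat_lit 8504) (nat_lit 9) (nat_lit 8))
    (@En.n l27271 (nat_lit 11336) (nat_lit 10) (nat_lit 11))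
    (@En.n l27272 (nat_lit 11313) (nat_lit 10) (nat_lit 4))
    (@En.n l22243 (nat_lit 7926) (nat_lit 12) (nat_lit 8))
    (@En.n l23516 (nat_lit 7937) (nat_lit 6) (nat_lit 10))
    (@En.n l77 (nat_lit 7817) (nat_lit 14) (nat_lit 10))
    (@En.n l10491 (nat_lit 10518) (nat_lit 12) (nat_lit 12))
    (@En.n l107 (nat_lit 7942) (nat_lit 15) (nat_lit 2))))
  (@Cl.mk (nat_lit 0x2000d000b00080003000d000900050003000d000b000800030007000e0005) (nat_lit 0x401050009850020) (nat_lit 16) Lb.e (@T16.mk En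
    (@En.n l117 (nat_lit 8504) (nat_lit 8) (nat_lit 5))
    (@En.n l2357 (nat_lit 4376) (nat_lit 1) (nat_lit 14))
    (@En.n l25347 (nat_lit 7541) (nat_lit 2) (nat_lit 7))
    (@En.n l936 (nat_lit 8693) (nat_lit 3) (nat_lit 3))
    (@En.n l2243 (nat_lit 7157) (nat_lit 0) (nat_lit 8))
    (@En.n l936 (nat_lit 8697) (nat_lit 14) (nat_lit 11))
    (@En.n l3621 (nat_lit 12337) (nat_lit 7) (nat_lit 13))
    (@En.n l18 (nat_lit 8686) (nat_lit 7) (nat_lit 3))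
    (@En.n l2354 (nat_lit 7935) (nat_lit 8) (nat_lit 5))
    (@En.n l61 (nat_lit 8690) (nat_lit 10) (nat_lit 9))
    (@En.n l2355 (nat_lit 7888) (nat_lit 11) (nat_lit 13))
    (@En.n l7 (nat_lit 8684) (nat_lit 11) (nat_lit 3))
    (@En.n l13538 (nat_lit 3144) (nat_lit 0) (nat_lit 8))
    (@En.n l2175 (nat_lit 8678) (nat_lit 14) (nat_lit 11))
    (@En.n l6383 (nat_lit 8460) (nat_lit 2) (nat_lit 13))
    (@En.n l11 (nat_lit 7943) (nat_lit 15) (nat_lit 2))))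
  (@Cl.mk (nat_lit 0x2000c0007000b000a0004000a000a0005000a0006000900060006000e0006) (nat_lit 0x807608000060090) (nat_lit 16) Lb.e (@T16.mk En
    (@En.n l28 (nat_lit 11324) (nat_lit 5) (nat_lit 6))
    (@En.n l40461 (nat_lit 10755) (nat_lit 1) (nat_lit 14))
    (@En.n l1577 (nat_lit 7939) (nat_lit 10) (nat_lit 6))
    (@En.n l517 (nat_lit 8751) (nat_lit 3) (nat_lit 6))
    (@En.n l40462 (nat_lit 5619) (nat_lit 9) (nat_lit 9))
    (@En.n l40463 (nat_lit 4636) (nat_lit 5) (nat_lit 6))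
    (@En.i (nat_lit 8572) (nat_lit 7) (nat_lit 10))
    (@En.n l3213 (nat_lit 9780) (nat_lit 7) (nat_lit 5))
    (@En.n l7901 (nat_lit 9925) (nat_lit 9) (nat_lit 10))
    (@En.n l18970 (nat_lit 11735) (nat_lit 10) (nat_lit 10))
    (@En.n l40463 (nat_lit 11644) (nat_lit 10) (nat_lit 4))
    (@En.n l40464 (nat_lit 7941) (nat_lit 12) (nat_lit 10))
    (@En.n l19584 (nat_lit 12337) (nat_lit 13) (nat_lit 11))
    (@En.n l575 (nat_lit 5253) (nat_lit 14) (nat_lit 7))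
    (@En.n l40465 (nat_lit 6922) (nat_lit 3) (nat_lit 12))
    (@En.n l50 (nat_lit 7944) (nat_lit 15) (nat_lit 2))))
  (@Cl.mk (nat_lit 0x2000d0007000b000300090009000d0005000a0003000900070007000e0006) (nat_lit 0x6000708000700a0) (nat_lit 16) Lb.e (@T16.mk En
    (@En.n l117 (nat_lit 11328) (nat_lit 4) (nat_lit 6))
    (@En.n l35218 (nat_lit 11721) (nat_lit 1) (nat_lit 14))
    (@En.n l19387 (nat_lit 7938) (nat_lit 2) (nat_lit 7))
    (@En.i (nat_lit 8691) (nat_lit 3) (nat_lit 7))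
    (@En.n l35219 (nat_lit 5952) (nat_lit 4) (nat_lit 9))
    (@En.n l35220 (nat_lit 7941) (nat_lit 5) (nat_lit 3))
    (@En.i (nat_lit 9104) (nat_lit 0) (nat_lit 10))
    (@En.n l17957 (nat_lit 7944) (nat_lit 7) (nat_lit 5))
    (@En.n l19390 (nat_lit 11462) (nat_lit 9) (nat_lit 13))
    (@En.n l21791 (nat_lit 9924) (nat_lit 10) (nat_lit 9))
    (@En.n l13385 (nat_lit 11734) (nat_lit 11) (nat_lit 9))
    (@En.n l7 (nat_lit 9931) (nat_lit 11) (nat_lit 3))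
    (@En.n l35221 (nat_lit 12618) (nat_lit 0) (nat_lit 11))
    (@En.i (nat_lit 7488) (nat_lit 14) (nat_lit 7))
    (@En.i (nat_lit 5423) (nat_lit 2) (nat_lit 13))
    (@En.n l11 (nat_lit 7945) (nat_lit 15) (nat_lit 2))))
  (@Cl.mk (nat_lit 0x2000a000d0007000a000300090006000d000a0006000300090007000e0006) (nat_lit 0x390400090006090) (nat_lit 16) Lb.e (@T16.mk En
    (@En.n l3928 (nat_lit 11800) (nat_lit 5) (nat_lit 6))
    (@En.i (nat_lit 6708) (nat_lit 1) (nat_lit 14))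
    (@En.n l31923 (nat_lit 7889) (nat_lit 2) (nat_lit 7))
    (@En.n l612 (nat_lit 10755) (nat_lit 3) (nat_lit 9))
    (@En.n l50 (nat_lit 11721) (nat_lit 4) (nat_lit 3))
    (@En.n l31924 (nat_lit 4641) (nat_lit 0) (nat_lit 6))
    (@En.n l217 (nat_lit 9071) (nat_lit 12) (nat_lit 10))
    (@En.n l1638 (nat_lit 11300) (nat_lit 8) (nat_lit 13))
    (@En.n l107 (nat_lit 10758) (nat_lit 8) (nat_lit 6))
    (@En.n l575 (nat_lit 11732) (nat_lit 10) (nat_lit 9))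
    (@En.n l16544 (nat_lit 11728) (nat_lit 10) (nat_lit 3))
    (@En.n l31924 (nat_lit 12836) (nat_lit 0) (nat_lit 10))
    (@En.n l24027 (nat_lit 11510) (nat_lit 13) (nat_lit 7))
    (@En.n l3839 (nat_lit 7937) (nat_lit 14) (nat_lit 13))
    (@En.n l3928 (nat_lit 11279) (nat_lit 3) (nat_lit 10))
    (@En.n l17 (nat_lit 7946) (nat_lit 15) (nat_lit 2))))
  (@Cl.mk (nat_lit 0x2000d00090008000300090009000d000900070003000800070007000e0007) (nat_lit 0x730070800040040) (nat_lit 16) Lb.e (@T16.mk En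
    (@En.n l117 (nat_lit 11322) (nat_lit 4) (nat_lit 7))
    (@En.n l2253 (nat_lit 11728) (nat_lit 1) (nat_lit 14))
    (@En.n l41423 (nat_lit 7940) (nat_lit 2) (nat_lit 7))
    (@En.i (nat_lit 8685) (nat_lit 3) (nat_lit 7))
    (@En.n l20162 (nat_lit 11644) (nat_lit 4) (nat_lit 8))
    (@En.n l936 (nat_lit 9931) (nat_lit 5) (nat_lit 3))
    (@En.n l834 (nat_lit 9223) (nat_lit 0) (nat_lit 7))
    (@En.n l7290 (nat_lit 9049) (nat_lit 12) (nat_lit 9))
    (@En.n l3659 (nat_lit 11464) (nat_lit 9) (nat_lit 13))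
    (@En.n l19467 (nat_lit 9928) (nat_lit 10) (nat_lit 9))
    (@En.n l41424 (nat_lit 11659) (nat_lit 11) (nat_lit 9))
    (@En.n l834 (nat_lit 7941) (nat_lit 11) (nat_lit 3))
    (@En.n l8742 (nat_lit 11357) (nat_lit 0) (nat_lit 8))
    (@En.n l41425 (nat_lit 6522) (nat_lit 14) (nat_lit 9))
    (@En.n l41426 (nat_lit 6919) (nat_lit 2) (nat_lit 13))
    (@En.n l11 (nat_lit 7947) (nat_lit 15) (nat_lit 2))))
  (@Cl.mk (nat_lit 0x2000b00090006000a000e00050002000c00070006000c0004000a000e0004) (nat_lit 0x950370050000150) (nat_lit 16) Lb.e (@T16.mk En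
    (@En.n l15223 (nat_lit 7949) (nat_lit 7) (nat_lit 4))
    (@En.i (nat_lit 6426) (nat_lit 9) (nat_lit 14))
    (@En.n l39373 (nat_lit 7309) (nat_lit 10) (nat_lit 10))
    (@En.n l20927 (nat_lit 9302) (nat_lit 3) (nat_lit 4))
    (@En.n l2381 (nat_lit 10258) (nat_lit 12) (nat_lit 12))
    (@En.n l97 (nat_lit 6705) (nat_lit 5) (nat_lit 6))
    (@En.i (nat_lit 614) (nat_lit 14) (nat_lit 7))
    (@En.n l5390 (nat_lit 7471) (nat_lit 8) (nat_lit 12))
    (@En.n l28 (nat_lit 7948) (nat_lit 8) (nat_lit 2))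
    (@En.n l7948 (nat_lit 6861) (nat_lit 9) (nat_lit 5))
    (@En.n l17213 (nat_lit 7535) (nat_lit 11) (nat_lit 14))
    (@En.n l39374 (nat_lit 2994) (nat_lit 2) (nat_lit 10))
    (@En.n l39375 (nat_lit 8202) (nat_lit 13) (nat_lit 6))
    (@En.n l2381 (nat_lit 7899) (nat_lit 14) (nat_lit 9))
    (@En.n l39376 (nat_lit 9947) (nat_lit 6) (nat_lit 11))
    (@En.n l17 (nat_lit 7948) (nat_lit 15) (nat_lit 2))))
  (@Cl.mk (nat_lit 0x2000b00070006000c000c0005000b00040004000b00090005000a000e0005) (nat_lit 0x500a10300940360) (nat_lit 16) Lb.e (@T16.mk En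
    (@En.n l6305 (nat_lit 6867) (nat_lit 8) (nat_lit 5))
    (@En.n l28840 (nat_lit 7539) (nat_lit 1) (nat_lit 14))
    (@En.n l28841 (nat_lit 2759) (nat_lit 2) (nat_lit 10))
    (@En.n l28840 (nat_lit 8201) (nat_lit 3) (nat_lit 5))
    (@En.n l6825 (nat_lit 7756) (nat_lit 4) (nat_lit 9))
    (@En.n l2129 (nat_lit 11714) (nat_lit 6) (nat_lit 11))
    (@En.n l28842 (nat_lit 7352) (nat_lit 12) (nat_lit 4))
    (@En.n l14649 (nat_lit 7950) (nat_lit 7) (nat_lit 4))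
    (@En.n l6825 (nat_lit 7310) (nat_lit 9) (nat_lit 11))
    (@En.n l28843 (nat_lit 9404) (nat_lit 9) (nat_lit 5))
    (@En.n l6309 (nat_lit 7948) (nat_lit 4) (nat_lit 12))
    (@En.n l2129 (nat_lit 8755) (nat_lit 12) (nat_lit 12))
    (@En.n l11989 (nat_lit 6656) (nat_lit 13) (nat_lit 6))
    (@En.n l12584 (nat_lit 1257) (nat_lit 14) (nat_lit 7))
    (@En.i (nat_lit 9458) (nat_lit 7) (nat_lit 11))
    (@En.n l17 (nat_lit 7949) (nat_lit 15) (nat_lit 2))))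
  (@Cl.mk (nat_lit 0x2000a00070006000c0009000d000600040003000b00090007000a000e0005) (nat_lit 0x6000050000303c0) (nat_lit 16) Lb.e (@T16.mk En
    (@En.n l24604 (nat_lit 7955) (nat_lit 9) (nat_lit 5))
    (@En.n l24605 (nat_lit 7541) (nat_lit 1) (nat_lit 14))
    (@En.n l24606 (nat_lit 2992) (nat_lit 2) (nat_lit 10))
    (@En.n l24605 (nat_lit 7393) (nat_lit 3) (nat_lit 7))
    (@En.n l24607 (nat_lit 7867) (nat_lit 4) (nat_lit 9))
    (@En.n l24608 (nat_lit 10922) (nat_lit 6) (nat_lit 11))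
    (@En.n l15861 (nat_lit 7953) (nat_lit 6) (nat_lit 3))
    (@En.n l18 (nat_lit 7948) (nat_lit 0) (nat_lit 4))
    (@En.n l24609 (nat_lit 7960) (nat_lit 8) (nat_lit 6))
    (@En.i (nat_lit 6427) (nat_lit 10) (nat_lit 13))
    (@En.n l24610 (nat_lit 7951) (nat_lit 11) (nat_lit 9))
    (@En.n l2381 (nat_lit 10260) (nat_lit 12) (nat_lit 12))
    (@En.n l97 (nat_lit 6650) (nat_lit 13) (nat_lit 6))
    (@En.n l24607 (nat_lit 1032) (nat_lit 14) (nat_lit 7))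
    (@En.n l14311 (nat_lit 8801) (nat_lit 8) (nat_lit 10))
    (@En.n l28 (nat_lit 7950) (nat_lit 15) (nat_lit 2))))
  (@Cl.mk (nat_lit 0x2000b000800060009000d0005000b0003000a000800070005000a000e0006) (nat_lit 0x8107402004004c0) (nat_lit 16) Lb.e (@T16.mk En
    (@En.n l39483 (nat_lit 7959) (nat_lit 8) (nat_lit 6))
    (@En.n l39484 (nat_lit 10259) (nat_lit 1) (nat_lit 14))
    (@En.n l29311 (nat_lit 7950) (nat_lit 2) (nat_lit 10))
    (@En.n l26348 (nat_lit 7949) (nat_lit 3) (nat_lit 5))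
    (@En.n l39485 (nat_lit 7398) (nat_lit 4) (nat_lit 7))
    (@En.i (nat_lit 7864) (nat_lit 5) (nat_lit 8))
    (@En.n l19133 (nat_lit 10923) (nat_lit 7) (nat_lit 10))
    (@En.n l39485 (nat_lit 7954) (nat_lit 7) (nat_lit 3))
    (@En.n l1997 (nat_lit 7683) (nat_lit 9) (nat_lit 11))
    (@En.n l39486 (nat_lit 9405) (nat_lit 9) (nat_lit 5))
    (@En.n l19129 (nat_lit 6432) (nat_lit 11) (nat_lit 13))
    (@En.n l1643 (nat_lit 11645) (nat_lit 12) (nat_lit 9))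
    (@En.n l39487 (nat_lit 6648) (nat_lit 13) (nat_lit 6))
    (@En.n l396 (nat_lit 979) (nat_lit 14) (nat_lit 8))
    (@En.n l5933 (nat_lit 9474) (nat_lit 7) (nat_lit 11))
    (@En.n l107 (nat_lit 7951) (nat_lit 15) (nat_lit 2))))
noncomputable def a497 : T16 Cl := @T16.mk Cl
  (@Cl.mk (nat_lit 0x2000900070006000d000c000a000300070004000b00090006000a000e0005) (nat_lit 0x5007140000603c0) (nat_lit 16) Lb.e (@T16.mk En
    (@En.n l24943 (nat_lit 7958) (nat_lit 7) (nat_lit 5))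
    (@En.i (nat_lit 10220) (nat_lit 1) (nat_lit 14))
    (@En.n l36129 (nat_lit 2758) (nat_lit 2) (nat_lit 10))
    (@En.n l3503 (nat_lit 8097) (nat_lit 3) (nat_lit 6))
    (@En.n l36130 (nat_lit 7761) (nat_lit 4) (nat_lit 9))
    (@En.n l36131 (nat_lit 10729) (nat_lit 13) (nat_lit 11))
    (@En.n l36132 (nat_lit 7949) (nat_lit 6) (nat_lit 4))
    (@En.n l36113 (nat_lit 9408) (nat_lit 7) (nat_lit 7))
    (@En.n l36133 (nat_lit 7953) (nat_lit 8) (nat_lit 3))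
    (@En.n l14921 (nat_lit 9614) (nat_lit 0) (nat_lit 10))
    (@En.n l36134 (nat_lit 7950) (nat_lit 11) (nat_lit 12))
    (@En.n l36135 (nat_lit 9338) (nat_lit 12) (nat_lit 13))
    (@En.n l36136 (nat_lit 6677) (nat_lit 13) (nat_lit 6))
    (@En.n l36130 (nat_lit 1048) (nat_lit 14) (nat_lit 7))
    (@En.n l24943 (nat_lit 10063) (nat_lit 5) (nat_lit 9))
    (@En.n l7 (nat_lit 7952) (nat_lit 15) (nat_lit 2))))
  (@Cl.mk (nat_lit 0x2000900070006000d0009000d000300070003000b00090007000a000e0005) (nat_lit 0x6008640000503c0) (nat_lit 16) Lb.e (@T16.mk En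
    (@En.n l77 (nat_lit 7956) (nat_lit 7) (nat_lit 5))
    (@En.n l35341 (nat_lit 10224) (nat_lit 1) (nat_lit 14))
    (@En.i (nat_lit 2993) (nat_lit 2) (nat_lit 10))
    (@En.n l35342 (nat_lit 7396) (nat_lit 3) (nat_lit 7))
    (@En.n l15912 (nat_lit 7861) (nat_lit 4) (nat_lit 9))
    (@En.n l26445 (nat_lit 10728) (nat_lit 13) (nat_lit 11))
    (@En.n l15916 (nat_lit 7950) (nat_lit 6) (nat_lit 3))
    (@En.n l26124 (nat_lit 3403) (nat_lit 7) (nat_lit 7))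
    (@En.n l35343 (nat_lit 7952) (nat_lit 8) (nat_lit 3))
    (@En.n l35344 (nat_lit 6429) (nat_lit 0) (nat_lit 13))
    (@En.n l35342 (nat_lit 7954) (nat_lit 11) (nat_lit 9))
    (@En.n l35345 (nat_lit 9339) (nat_lit 12) (nat_lit 13))
    (@En.n l15919 (nat_lit 5973) (nat_lit 13) (nat_lit 6))
    (@En.n l15912 (nat_lit 1047) (nat_lit 14) (nat_lit 7))
    (@En.n l26125 (nat_lit 10062) (nat_lit 5) (nat_lit 9))
    (@En.n l7 (nat_lit 7953) (nat_lit 15) (nat_lit 2))))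
  (@Cl.mk (nat_lit 0x2000a000800060009000d000a00060003000a000800070006000a000e0006) (nat_lit 0x7205400003004b0) (nat_lit 16) Lb.e (@T16.mk En
    (@En.n l43153 (nat_lit 7957) (nat_lit 8) (nat_lit 6))
    (@En.i (nat_lit 10222) (nat_lit 1) (nat_lit 14))
    (@En.n l43154 (nat_lit 7953) (nat_lit 2) (nat_lit 10))
    (@En.n l3208 (nat_lit 7952) (nat_lit 3) (nat_lit 6))
    (@En.i (nat_lit 7401) (nat_lit 4) (nat_lit 7))
    (@En.n l33986 (nat_lit 7862) (nat_lit 5) (nat_lit 8))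
    (@En.n l43155 (nat_lit 10727) (nat_lit 7) (nat_lit 10))
    (@En.n l43156 (nat_lit 7951) (nat_lit 7) (nat_lit 3))
    (@En.n l37554 (nat_lit 3402) (nat_lit 8) (nat_lit 6))
    (@En.n l43155 (nat_lit 9615) (nat_lit 10) (nat_lit 10))
    (@En.n l43157 (nat_lit 6433) (nat_lit 11) (nat_lit 13))
    (@En.n l43158 (nat_lit 11646) (nat_lit 12) (nat_lit 9))
    (@En.n l43159 (nat_lit 6649) (nat_lit 13) (nat_lit 6))
    (@En.n l43160 (nat_lit 1046) (nat_lit 14) (nat_lit 8))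
    (@En.n l33986 (nat_lit 10059) (nat_lit 7) (nat_lit 10))
    (@En.n l17 (nat_lit 7954) (nat_lit 15) (nat_lit 2))))
  (@Cl.mk (nat_lit 0x3000b000b000a0008000b00050005000a00060005000c0008000d00060004) (nat_lit 0x15440040000500) (nat_lit 16) Lb.e (@T16.mk En
    (@En.n l9934 (nat_lit 6861) (nat_lit 0) (nat_lit 4))
    (@En.i (nat_lit 7961) (nat_lit 0) (nat_lit 6))
    (@En.n l8045 (nat_lit 6334) (nat_lit 1) (nat_lit 13))
    (@En.n l29609 (nat_lit 7959) (nat_lit 3) (nat_lit 8))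
    (@En.n l8045 (nat_lit 8754) (nat_lit 3) (nat_lit 12))
    (@En.n l3180 (nat_lit 6651) (nat_lit 11) (nat_lit 5))
    (@En.n l18 (nat_lit 982) (nat_lit 6) (nat_lit 6))
    (@En.n l13976 (nat_lit 8800) (nat_lit 8) (nat_lit 10))
    (@En.n l77 (nat_lit 9827) (nat_lit 11) (nat_lit 5))
    (@En.n l29610 (nat_lit 10442) (nat_lit 9) (nat_lit 5))
    (@En.i (nat_lit 1219) (nat_lit 7) (nat_lit 11))
    (@En.n l5653 (nat_lit 7395) (nat_lit 12) (nat_lit 8))
    (@En.n l601 (nat_lit 9540) (nat_lit 6) (nat_lit 10))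
    (@En.n l15916 (nat_lit 7950) (nat_lit 5) (nat_lit 11))
    (@En.n l13977 (nat_lit 10071) (nat_lit 14) (nat_lit 11))
    (@En.n l11 (nat_lit 7956) (nat_lit 13) (nat_lit 3))))
  (@Cl.mk (nat_lit 0x300070003000b000b000a0008000b00050005000900060005000d0008000d) (nat_lit 0x165400500a04) (nat_lit 16) Lb.e (@T16.mk En
    (@En.n l9926 (nat_lit 6335) (nat_lit 0) (nat_lit 13))
    (@En.i (nat_lit 7957) (nat_lit 3) (nat_lit 8))
    (@En.n l27243 (nat_lit 9337) (nat_lit 2) (nat_lit 13))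
    (@En.n l3180 (nat_lit 5969) (nat_lit 3) (nat_lit 5))
    (@En.n l18 (nat_lit 1049) (nat_lit 6) (nat_lit 6))
    (@En.n l4909 (nat_lit 10060) (nat_lit 5) (nat_lit 9))
    (@En.n l77 (nat_lit 9825) (nat_lit 11) (nat_lit 5))
    (@En.n l36173 (nat_lit 10441) (nat_lit 7) (nat_lit 5))
    (@En.i (nat_lit 1218) (nat_lit 7) (nat_lit 11))
    (@En.n l5653 (nat_lit 7397) (nat_lit 12) (nat_lit 8))
    (@En.n l601 (nat_lit 9550) (nat_lit 6) (nat_lit 10))
    (@En.i (nat_lit 7953) (nat_lit 5) (nat_lit 11))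
    (@En.i (nat_lit 10723) (nat_lit 13) (nat_lit 11))
    (@En.i (nat_lit 7955) (nat_lit 15) (nat_lit 3))
    (@En.n l9926 (nat_lit 4546) (nat_lit 0) (nat_lit 7))
    (@En.n l117 (nat_lit 7958) (nat_lit 15) (nat_lit 3))))
  (@Cl.mk (nat_lit 0x3000a000a000900080007000b00060006000a000700050008000d00090006) (nat_lit 0x16605006006400) (nat_lit 16) Lb.e (@T16.mk En
    (@En.n l32259 (nat_lit 4533) (nat_lit 0) (nat_lit 6))
    (@En.n l32485 (nat_lit 9616) (nat_lit 13) (nat_lit 9))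
    (@En.n l43447 (nat_lit 8495) (nat_lit 2) (nat_lit 13))
    (@En.n l20187 (nat_lit 11306) (nat_lit 10) (nat_lit 8))
    (@En.n l3180 (nat_lit 5964) (nat_lit 4) (nat_lit 5))
    (@En.n l18 (nat_lit 981) (nat_lit 5) (nat_lit 7))
    (@En.n l4909 (nat_lit 10058) (nat_lit 9) (nat_lit 10))
    (@En.n l77 (nat_lit 9826) (nat_lit 10) (nat_lit 6))
    (@En.n l36173 (nat_lit 10720) (nat_lit 8) (nat_lit 6))
    (@En.n l3 (nat_lit 7956) (nat_lit 8) (nat_lit 11))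
    (@En.n l3 (nat_lit 7958) (nat_lit 9) (nat_lit 7))
    (@En.n l5653 (nat_lit 9583) (nat_lit 12) (nat_lit 8))
    (@En.n l601 (nat_lit 9546) (nat_lit 7) (nat_lit 9))
    (@En.n l35342 (nat_lit 7954) (nat_lit 6) (nat_lit 10))
    (@En.n l32485 (nat_lit 10722) (nat_lit 10) (nat_lit 10))
    (@En.n l29609 (nat_lit 7959) (nat_lit 15) (nat_lit 3))))
  (@Cl.mk (nat_lit 0x300070004000b000b000a0007000b00050005000900060005000d000c0009) (nat_lit 0x7170400500b14) (nat_lit 16) Lb.e (@T16.mk En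
    (@En.i (nat_lit 9617) (nat_lit 0) (nat_lit 9))
    (@En.n l619 (nat_lit 7955) (nat_lit 4) (nat_lit 12))
    (@En.i (nat_lit 9336) (nat_lit 2) (nat_lit 13))
    (@En.n l8053 (nat_lit 5971) (nat_lit 3) (nat_lit 5))
    (@En.n l18 (nat_lit 1050) (nat_lit 4) (nat_lit 6))
    (@En.i (nat_lit 10061) (nat_lit 5) (nat_lit 9))
    (@En.n l77 (nat_lit 9824) (nat_lit 11) (nat_lit 5))
    (@En.n l20274 (nat_lit 10440) (nat_lit 7) (nat_lit 5))
    (@En.i (nat_lit 1152) (nat_lit 8) (nat_lit 11))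
    (@En.n l5653 (nat_lit 9576) (nat_lit 1) (nat_lit 7))
    (@En.n l601 (nat_lit 9552) (nat_lit 6) (nat_lit 10))
    (@En.n l20275 (nat_lit 7952) (nat_lit 5) (nat_lit 11))
    (@En.i (nat_lit 10724) (nat_lit 13) (nat_lit 11))
    (@En.i (nat_lit 6867) (nat_lit 14) (nat_lit 4))
    (@En.n l8052 (nat_lit 9411) (nat_lit 0) (nat_lit 7))
    (@En.n l152 (nat_lit 7956) (nat_lit 15) (nat_lit 3))))
  (@Cl.mk (nat_lit 0x3000a000a000900080006000b00060006000b000700050008000d0005000a) (nat_lit 0x15505002006403) (nat_lit 16) Lb.e (@T16.mk En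
    (@En.n l50 (nat_lit 6566) (nat_lit 0) (nat_lit 10))
    (@En.n l36180 (nat_lit 9413) (nat_lit 15) (nat_lit 5))
    (@En.i (nat_lit 8494) (nat_lit 2) (nat_lit 13))
    (@En.n l36181 (nat_lit 11305) (nat_lit 10) (nat_lit 8))
    (@En.n l29814 (nat_lit 6647) (nat_lit 4) (nat_lit 5))
    (@En.n l23126 (nat_lit 978) (nat_lit 5) (nat_lit 7))
    (@En.n l36182 (nat_lit 9936) (nat_lit 1) (nat_lit 11))
    (@En.n l36183 (nat_lit 9828) (nat_lit 10) (nat_lit 6))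
    (@En.n l36184 (nat_lit 6853) (nat_lit 8) (nat_lit 6))
    (@En.n l14096 (nat_lit 7955) (nat_lit 10) (nat_lit 11))
    (@En.n l14096 (nat_lit 6867) (nat_lit 10) (nat_lit 6))
    (@En.n l36185 (nat_lit 7400) (nat_lit 12) (nat_lit 8))
    (@En.n l36186 (nat_lit 9543) (nat_lit 7) (nat_lit 9))
    (@En.n l27394 (nat_lit 7951) (nat_lit 6) (nat_lit 10))
    (@En.n l15619 (nat_lit 10070) (nat_lit 3) (nat_lit 10))
    (@En.n l36187 (nat_lit 7957) (nat_lit 15) (nat_lit 3))))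
  (@Cl.mk (nat_lit 0x2000a000900080007000d000a000600030007000b000800060009000e0005) (nat_lit 0x5720400000303a0) (nat_lit 16) Lb.e (@T16.mk En
    (@En.n l22427 (nat_lit 7961) (nat_lit 8) (nat_lit 5))
    (@En.n l4758 (nat_lit 9391) (nat_lit 1) (nat_lit 14))
    (@En.n l38024 (nat_lit 2951) (nat_lit 9) (nat_lit 9))
    (@En.n l29017 (nat_lit 7392) (nat_lit 3) (nat_lit 6))
    (@En.n l20425 (nat_lit 7750) (nat_lit 4) (nat_lit 8))
    (@En.n l16345 (nat_lit 10214) (nat_lit 8) (nat_lit 11))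
    (@En.n l38025 (nat_lit 3410) (nat_lit 6) (nat_lit 7))
    (@En.n l18 (nat_lit 9404) (nat_lit 7) (nat_lit 3))
    (@En.n l22425 (nat_lit 9265) (nat_lit 0) (nat_lit 6))
    (@En.n l38026 (nat_lit 9405) (nat_lit 10) (nat_lit 10))
    (@En.n l16345 (nat_lit 8747) (nat_lit 11) (nat_lit 13))
    (@En.n l22465 (nat_lit 4459) (nat_lit 12) (nat_lit 7))
    (@En.n l38027 (nat_lit 6433) (nat_lit 13) (nat_lit 8))
    (@En.n l38028 (nat_lit 7953) (nat_lit 14) (nat_lit 9))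
    (@En.n l38029 (nat_lit 9425) (nat_lit 7) (nat_lit 10))
    (@En.n l28 (nat_lit 7960) (nat_lit 15) (nat_lit 2))))
  (@Cl.mk (nat_lit 0x30007000b000b00090007000a00050005000a000900070006000d00090006) (nat_lit 0x1403000600800) (nat_lit 16) Lb.e (@T16.mk En
    (@En.n l24455 (nat_lit 8991) (nat_lit 0) (nat_lit 6))
    (@En.i (nat_lit 9413) (nat_lit 0) (nat_lit 9))
    (@En.n l1111 (nat_lit 8750) (nat_lit 2) (nat_lit 13))
    (@En.n l25891 (nat_lit 4456) (nat_lit 10) (nat_lit 6))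
    (@En.n l11992 (nat_lit 8495) (nat_lit 4) (nat_lit 7))
    (@En.i (nat_lit 7956) (nat_lit 5) (nat_lit 9))
    (@En.n l37733 (nat_lit 9811) (nat_lit 7) (nat_lit 10))
    (@En.n l77 (nat_lit 9829) (nat_lit 11) (nat_lit 5))
    (@En.n l36173 (nat_lit 10402) (nat_lit 8) (nat_lit 5))
    (@En.i (nat_lit 3006) (nat_lit 8) (nat_lit 10))
    (@En.n l5653 (nat_lit 7394) (nat_lit 1) (nat_lit 7))
    (@En.n l601 (nat_lit 10552) (nat_lit 12) (nat_lit 9))
    (@En.n l37734 (nat_lit 7960) (nat_lit 5) (nat_lit 11))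
    (@En.n l27852 (nat_lit 10066) (nat_lit 8) (nat_lit 11))
    (@En.n l37735 (nat_lit 4526) (nat_lit 12) (nat_lit 7))
    (@En.n l117 (nat_lit 9412) (nat_lit 15) (nat_lit 3))))
  (@Cl.mk (nat_lit 0x200080007000d000800060003000a000e00080002000900080006000e000a) (nat_lit 0x5033006910140a7) (nat_lit 16) Lb.e (@T16.mk En
    (@En.n l9084 (nat_lit 7654) (nat_lit 11) (nat_lit 10))
    (@En.n l6442 (nat_lit 1574) (nat_lit 1) (nat_lit 14))
    (@En.i (nat_lit 7996) (nat_lit 2) (nat_lit 6))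
    (@En.n l9085 (nat_lit 12311) (nat_lit 3) (nat_lit 8))
    (@En.n l9086 (nat_lit 5028) (nat_lit 4) (nat_lit 9))
    (@En.n l50 (nat_lit 7962) (nat_lit 5) (nat_lit 2))
    (@En.n l3580 (nat_lit 6440) (nat_lit 6) (nat_lit 8))
    (@En.n l6441 (nat_lit 7966) (nat_lit 8) (nat_lit 14))
    (@En.n l287 (nat_lit 6505) (nat_lit 2) (nat_lit 10))
    (@En.n l11 (nat_lit 7963) (nat_lit 9) (nat_lit 3))
    (@En.n l6441 (nat_lit 6473) (nat_lit 4) (nat_lit 6))
    (@En.i (nat_lit 4908) (nat_lit 5) (nat_lit 8))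
    (@En.n l9087 (nat_lit 11754) (nat_lit 7) (nat_lit 13))
    (@En.i (nat_lit 7019) (nat_lit 14) (nat_lit 7))
    (@En.n l9088 (nat_lit 11983) (nat_lit 4) (nat_lit 8))
    (@En.n l3 (nat_lit 7962) (nat_lit 15) (nat_lit 2))))
  (@Cl.mk (nat_lit 0x200080007000d000500090003000a000e00080002000900070006000e000b) (nat_lit 0x604020681010087) (nat_lit 16) Lb.e (@T16.mk En
    (@En.i (nat_lit 6448) (nat_lit 11) (nat_lit 11))
    (@En.n l3219 (nat_lit 1573) (nat_lit 12) (nat_lit 14))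
    (@En.i (nat_lit 7994) (nat_lit 2) (nat_lit 6))
    (@En.n l7407 (nat_lit 12778) (nat_lit 14) (nat_lit 7))
    (@En.n l18 (nat_lit 5035) (nat_lit 4) (nat_lit 9))
    (@En.n l50 (nat_lit 7963) (nat_lit 5) (nat_lit 2))
    (@En.i (nat_lit 6442) (nat_lit 6) (nat_lit 8))
    (@En.n l3749 (nat_lit 7965) (nat_lit 8) (nat_lit 14))
    (@En.n l2650 (nat_lit 5724) (nat_lit 2) (nat_lit 10))
    (@En.i (nat_lit 7962) (nat_lit 9) (nat_lit 3))
    (@En.n l7490 (nat_lit 3976) (nat_lit 4) (nat_lit 9))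
    (@En.n l117 (nat_lit 5163) (nat_lit 5) (nat_lit 5))
    (@En.n l9087 (nat_lit 11752) (nat_lit 7) (nat_lit 13))
    (@En.i (nat_lit 7023) (nat_lit 14) (nat_lit 7))
    (@En.n l3098 (nat_lit 11982) (nat_lit 4) (nat_lit 8))
    (@En.n l3 (nat_lit 7963) (nat_lit 15) (nat_lit 2))))
  (@Cl.mk (nat_lit 0x2000800070006000d0006000a0003000e0008000200090006000a000e000a) (nat_lit 0x500504021010571) (nat_lit 16) Lb.e (@T16.mk En
    (@En.n l5646 (nat_lit 5155) (nat_lit 11) (nat_lit 10))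
    (@En.i (nat_lit 1718) (nat_lit 12) (nat_lit 14))
    (@En.i (nat_lit 2031) (nat_lit 2) (nat_lit 10))
    (@En.n l7611 (nat_lit 12526) (nat_lit 14) (nat_lit 6))
    (@En.n l50 (nat_lit 5033) (nat_lit 4) (nat_lit 9))
    (@En.n l7 (nat_lit 7964) (nat_lit 5) (nat_lit 2))
    (@En.i (nat_lit 6497) (nat_lit 6) (nat_lit 8))
    (@En.i (nat_lit 11190) (nat_lit 1) (nat_lit 14))
    (@En.i (nat_lit 6504) (nat_lit 8) (nat_lit 3))
    (@En.n l7611 (nat_lit 5815) (nat_lit 3) (nat_lit 10))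
    (@En.n l117 (nat_lit 2593) (nat_lit 4) (nat_lit 6))
    (@En.n l1722 (nat_lit 7963) (nat_lit 12) (nat_lit 13))
    (@En.n l17 (nat_lit 7967) (nat_lit 13) (nat_lit 6))
    (@En.i (nat_lit 7270) (nat_lit 14) (nat_lit 7))
    (@En.i (nat_lit 12055) (nat_lit 9) (nat_lit 8))
    (@En.n l3 (nat_lit 7964) (nat_lit 15) (nat_lit 2))))
  (@Cl.mk (nat_lit 0x200090007000d000500090003000e00070002000d000900070003000e000b) (nat_lit 0x4030700b20080) (nat_lit 16) Lb.e (@T16.mk En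
    (@En.n l396 (nat_lit 10798) (nat_lit 10) (nat_lit 11))
    (@En.i (nat_lit 1707) (nat_lit 1) (nat_lit 14))
    (@En.n l5200 (nat_lit 7967) (nat_lit 2) (nat_lit 3))
    (@En.n l16834 (nat_lit 12531) (nat_lit 3) (nat_lit 7))
    (@En.n l1101 (nat_lit 7964) (nat_lit 4) (nat_lit 9))
    (@En.i (nat_lit 11979) (nat_lit 6) (nat_lit 13))
    (@En.n l67 (nat_lit 7965) (nat_lit 6) (nat_lit 2))
    (@En.n l97 (nat_lit 7969) (nat_lit 7) (nat_lit 7))
    (@En.n l3866 (nat_lit 11189) (nat_lit 1) (nat_lit 14))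
    (@En.n l2364 (nat_lit 7966) (nat_lit 9) (nat_lit 3))
    (@En.n l5588 (nat_lit 5809) (nat_lit 11) (nat_lit 9))
    (@En.n l1075 (nat_lit 9047) (nat_lit 4) (nat_lit 5))
    (@En.n l1865 (nat_lit 12628) (nat_lit 13) (nat_lit 13))
    (@En.n l3082 (nat_lit 8845) (nat_lit 14) (nat_lit 7))
    (@En.i (nat_lit 11991) (nat_lit 12) (nat_lit 9))
    (@En.n l50 (nat_lit 7965) (nat_lit 15) (nat_lit 2))))
  (@Cl.mk (nat_lit 0x200090007000d000800060003000e00070002000d000900080003000e000a) (nat_lit 0x3300800b200a1) (nat_lit 16) Lb.e (@T16.mk En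
    (@En.n l217 (nat_lit 5858) (nat_lit 10) (nat_lit 10))
    (@En.i (nat_lit 1732) (nat_lit 1) (nat_lit 14))
    (@En.n l6569 (nat_lit 7968) (nat_lit 2) (nat_lit 3))
    (@En.n l10985 (nat_lit 12544) (nat_lit 3) (nat_lit 8))
    (@En.n l10986 (nat_lit 6504) (nat_lit 4) (nat_lit 9))
    (@En.i (nat_lit 12161) (nat_lit 6) (nat_lit 13))
    (@En.n l67 (nat_lit 7966) (nat_lit 6) (nat_lit 2))
    (@En.n l97 (nat_lit 7971) (nat_lit 7) (nat_lit 7))
    (@En.n l3866 (nat_lit 4473) (nat_lit 1) (nat_lit 14))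
    (@En.n l763 (nat_lit 7965) (nat_lit 9) (nat_lit 3))
    (@En.i (nat_lit 10034) (nat_lit 3) (nat_lit 6))
    (@En.n l1545 (nat_lit 7975) (nat_lit 12) (nat_lit 8))
    (@En.n l2552 (nat_lit 12629) (nat_lit 13) (nat_lit 13))
    (@En.n l6864 (nat_lit 8844) (nat_lit 14) (nat_lit 7))
    (@En.n l10987 (nat_lit 11988) (nat_lit 12) (nat_lit 9))
    (@En.n l50 (nat_lit 7966) (nat_lit 15) (nat_lit 2))))
  (@Cl.mk (nat_lit 0x200090006000d0005000a0003000e00070002000d0006000a0003000e000b) (nat_lit 0x3010700605080) (nat_lit 16) Lb.e (@T16.mk En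
    (@En.i (nat_lit 10794) (nat_lit 10) (nat_lit 11))
    (@En.i (nat_lit 6513) (nat_lit 1) (nat_lit 14))
    (@En.n l3348 (nat_lit 7965) (nat_lit 2) (nat_lit 3))
    (@En.n l8133 (nat_lit 2028) (nat_lit 3) (nat_lit 10))
    (@En.n l5854 (nat_lit 7998) (nat_lit 14) (nat_lit 6))
    (@En.n l3961 (nat_lit 11975) (nat_lit 6) (nat_lit 13))
    (@En.n l7 (nat_lit 7967) (nat_lit 6) (nat_lit 2))
    (@En.n l8149 (nat_lit 7970) (nat_lit 7) (nat_lit 7))
    (@En.n l5351 (nat_lit 11191) (nat_lit 1) (nat_lit 14))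
    (@En.i (nat_lit 7968) (nat_lit 9) (nat_lit 3))
    (@En.n l7882 (nat_lit 5813) (nat_lit 11) (nat_lit 10))
    (@En.n l117 (nat_lit 9048) (nat_lit 4) (nat_lit 5))
    (@En.n l2255 (nat_lit 12631) (nat_lit 13) (nat_lit 13))
    (@En.i (nat_lit 7585) (nat_lit 14) (nat_lit 6))
    (@En.n l8150 (nat_lit 11628) (nat_lit 12) (nat_lit 9))
    (@En.n l3 (nat_lit 7967) (nat_lit 15) (nat_lit 2))))
noncomputable def a498 : T16 Cl := @T16.mk Cl
  (@Cl.mk (nat_lit 0x200090006000d000900060003000e00070002000d0007000a0003000e000a) (nat_lit 0x47007003050a1) (nat_lit 16) Lb.e (@T16.mk En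
    (@En.n l3958 (nat_lit 5857) (nat_lit 10) (nat_lit 10))
    (@En.n l3959 (nat_lit 6512) (nat_lit 1) (nat_lit 14))
    (@En.n l2351 (nat_lit 7966) (nat_lit 2) (nat_lit 3))
    (@En.n l3960 (nat_lit 2029) (nat_lit 8) (nat_lit 10))
    (@En.n l2253 (nat_lit 5853) (nat_lit 14) (nat_lit 7))
    (@En.n l3961 (nat_lit 12183) (nat_lit 6) (nat_lit 13))
    (@En.n l7 (nat_lit 7968) (nat_lit 6) (nat_lit 2))
    (@En.n l3962 (nat_lit 7972) (nat_lit 7) (nat_lit 7))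
    (@En.n l3963 (nat_lit 4474) (nat_lit 1) (nat_lit 14))
    (@En.n l11 (nat_lit 7967) (nat_lit 9) (nat_lit 3))
    (@En.n l2253 (nat_lit 9016) (nat_lit 3) (nat_lit 6))
    (@En.n l3356 (nat_lit 7973) (nat_lit 12) (nat_lit 9))
    (@En.n l3964 (nat_lit 12632) (nat_lit 13) (nat_lit 13))
    (@En.i (nat_lit 7586) (nat_lit 14) (nat_lit 6))
    (@En.n l3959 (nat_lit 12009) (nat_lit 12) (nat_lit 9))
    (@En.n l3 (nat_lit 7968) (nat_lit 15) (nat_lit 2))))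
  (@Cl.mk (nat_lit 0x2000900090008000d0006000a000300070007000d000800060003000e000a) (nat_lit 0x13503000b30063) (nat_lit 16) Lb.e (@T16.mk En
    (@En.n l396 (nat_lit 10116) (nat_lit 14) (nat_lit 10))
    (@En.i (nat_lit 1706) (nat_lit 1) (nat_lit 14))
    (@En.n l16743 (nat_lit 7970) (nat_lit 2) (nat_lit 3))
    (@En.n l23256 (nat_lit 12532) (nat_lit 3) (nat_lit 6))
    (@En.n l2954 (nat_lit 6497) (nat_lit 4) (nat_lit 8))
    (@En.n l6650 (nat_lit 11971) (nat_lit 6) (nat_lit 13))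
    (@En.n l15235 (nat_lit 10106) (nat_lit 9) (nat_lit 7))
    (@En.n l2947 (nat_lit 11591) (nat_lit 7) (nat_lit 7))
    (@En.n l2364 (nat_lit 7971) (nat_lit 8) (nat_lit 3))
    (@En.n l10031 (nat_lit 4818) (nat_lit 0) (nat_lit 10))
    (@En.n l2947 (nat_lit 9049) (nat_lit 11) (nat_lit 6))
    (@En.n l3548 (nat_lit 11711) (nat_lit 12) (nat_lit 13))
    (@En.n l575 (nat_lit 8864) (nat_lit 13) (nat_lit 8))
    (@En.n l3 (nat_lit 7965) (nat_lit 14) (nat_lit 9))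
    (@En.i (nat_lit 11950) (nat_lit 12) (nat_lit 9))
    (@En.n l50 (nat_lit 7969) (nat_lit 15) (nat_lit 2))))
  (@Cl.mk (nat_lit 0x2000900090007000d0006000b000300070007000d000500090003000e000a) (nat_lit 0x10505000b04060) (nat_lit 16) Lb.e (@T16.mk En
    (@En.n l19522 (nat_lit 10793) (nat_lit 14) (nat_lit 10))
    (@En.i (nat_lit 6511) (nat_lit 1) (nat_lit 14))
    (@En.n l19523 (nat_lit 7969) (nat_lit 2) (nat_lit 3))
    (@En.n l19522 (nat_lit 2030) (nat_lit 3) (nat_lit 9))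
    (@En.n l19524 (nat_lit 7719) (nat_lit 4) (nat_lit 5))
    (@En.i (nat_lit 11969) (nat_lit 6) (nat_lit 13))
    (@En.n l5 (nat_lit 10107) (nat_lit 9) (nat_lit 7))
    (@En.n l17796 (nat_lit 11013) (nat_lit 7) (nat_lit 7))
    (@En.n l19525 (nat_lit 7972) (nat_lit 8) (nat_lit 3))
    (@En.n l12294 (nat_lit 8947) (nat_lit 0) (nat_lit 11))
    (@En.n l19526 (nat_lit 9050) (nat_lit 11) (nat_lit 6))
    (@En.n l13102 (nat_lit 11708) (nat_lit 12) (nat_lit 13))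
    (@En.n l50 (nat_lit 8866) (nat_lit 13) (nat_lit 7))
    (@En.n l19527 (nat_lit 7967) (nat_lit 14) (nat_lit 9))
    (@En.n l217 (nat_lit 11768) (nat_lit 12) (nat_lit 9))
    (@En.n l3 (nat_lit 7970) (nat_lit 15) (nat_lit 2))))
  (@Cl.mk (nat_lit 0x2000900090008000d00090007000300070007000d000800070003000e0009) (nat_lit 0x13460000b300a0) (nat_lit 16) Lb.e (@T16.mk En
    (@En.n l217 (nat_lit 10005) (nat_lit 14) (nat_lit 9))
    (@En.n l24548 (nat_lit 1589) (nat_lit 1) (nat_lit 14))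
    (@En.n l24199 (nat_lit 7972) (nat_lit 2) (nat_lit 3))
    (@En.n l24549 (nat_lit 11352) (nat_lit 3) (nat_lit 7))
    (@En.n l24550 (nat_lit 6495) (nat_lit 4) (nat_lit 8))
    (@En.n l24313 (nat_lit 12178) (nat_lit 6) (nat_lit 13))
    (@En.n l24314 (nat_lit 10105) (nat_lit 9) (nat_lit 7))
    (@En.n l24551 (nat_lit 7149) (nat_lit 7) (nat_lit 7))
    (@En.n l763 (nat_lit 7969) (nat_lit 8) (nat_lit 3))
    (@En.i (nat_lit 9028) (nat_lit 0) (nat_lit 7))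
    (@En.n l24552 (nat_lit 9346) (nat_lit 11) (nat_lit 9))
    (@En.n l3548 (nat_lit 11710) (nat_lit 12) (nat_lit 13))
    (@En.n l575 (nat_lit 8259) (nat_lit 13) (nat_lit 8))
    (@En.n l3 (nat_lit 7966) (nat_lit 14) (nat_lit 9))
    (@En.n l24553 (nat_lit 11949) (nat_lit 12) (nat_lit 9))
    (@En.n l50 (nat_lit 7971) (nat_lit 15) (nat_lit 2))))
  (@Cl.mk (nat_lit 0x2000900090007000d000a0007000300070007000d000600090003000e0009) (nat_lit 0x10440000b04060) (nat_lit 16) Lb.e (@T16.mk En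
    (@En.n l10988 (nat_lit 10790) (nat_lit 14) (nat_lit 9))
    (@En.n l998 (nat_lit 6509) (nat_lit 1) (nat_lit 14))
    (@En.n l10989 (nat_lit 7971) (nat_lit 2) (nat_lit 3))
    (@En.i (nat_lit 2036) (nat_lit 9) (nat_lit 9))
    (@En.n l3506 (nat_lit 7715) (nat_lit 4) (nat_lit 6))
    (@En.n l3198 (nat_lit 12177) (nat_lit 6) (nat_lit 13))
    (@En.n l152 (nat_lit 10108) (nat_lit 9) (nat_lit 7))
    (@En.n l790 (nat_lit 7726) (nat_lit 7) (nat_lit 7))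
    (@En.n l10990 (nat_lit 7970) (nat_lit 8) (nat_lit 3))
    (@En.n l10991 (nat_lit 9015) (nat_lit 0) (nat_lit 7))
    (@En.n l10992 (nat_lit 7974) (nat_lit 11) (nat_lit 10))
    (@En.n l1578 (nat_lit 11709) (nat_lit 12) (nat_lit 13))
    (@En.n l2038 (nat_lit 8269) (nat_lit 13) (nat_lit 7))
    (@En.n l10993 (nat_lit 7968) (nat_lit 14) (nat_lit 9))
    (@En.n l10994 (nat_lit 11948) (nat_lit 12) (nat_lit 9))
    (@En.n l17 (nat_lit 7972) (nat_lit 15) (nat_lit 2))))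
  (@Cl.mk (nat_lit 0x2000a000600090005000a000e00060002000c00070006000a0004000e000b) (nat_lit 0x6036007006080) (nat_lit 16) Lb.e (@T16.mk En
    (@En.n l8964 (nat_lit 10792) (nat_lit 9) (nat_lit 11))
    (@En.n l5556 (nat_lit 5286) (nat_lit 1) (nat_lit 14))
    (@En.n l10995 (nat_lit 7975) (nat_lit 2) (nat_lit 4))
    (@En.n l10996 (nat_lit 7968) (nat_lit 3) (nat_lit 10))
    (@En.n l10997 (nat_lit 7967) (nat_lit 4) (nat_lit 6))
    (@En.n l10998 (nat_lit 7716) (nat_lit 14) (nat_lit 7))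
    (@En.n l10999 (nat_lit 12189) (nat_lit 7) (nat_lit 12))
    (@En.n l50 (nat_lit 7973) (nat_lit 7) (nat_lit 2))
    (@En.n l7 (nat_lit 7974) (nat_lit 8) (nat_lit 6))
    (@En.n l11000 (nat_lit 4563) (nat_lit 10) (nat_lit 14))
    (@En.n l11001 (nat_lit 5819) (nat_lit 2) (nat_lit 10))
    (@En.n l11002 (nat_lit 9280) (nat_lit 3) (nat_lit 5))
    (@En.i (nat_lit 10099) (nat_lit 9) (nat_lit 9))
    (@En.n l10997 (nat_lit 7587) (nat_lit 14) (nat_lit 6))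
    (@En.n l11003 (nat_lit 11614) (nat_lit 7) (nat_lit 10))
    (@En.n l11 (nat_lit 7973) (nat_lit 15) (nat_lit 2))))
  (@Cl.mk (nat_lit 0x2000a000a0007000a0006000b00060006000c0006000500090004000e000a) (nat_lit 0x510303006005070) (nat_lit 16) Lb.e (@T16.mk En
    (@En.i (nat_lit 10791) (nat_lit 14) (nat_lit 10))
    (@En.n l12316 (nat_lit 6506) (nat_lit 1) (nat_lit 14))
    (@En.n l24561 (nat_lit 9346) (nat_lit 2) (nat_lit 4))
    (@En.n l24562 (nat_lit 7972) (nat_lit 3) (nat_lit 9))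
    (@En.n l24563 (nat_lit 7970) (nat_lit 4) (nat_lit 5))
    (@En.n l6029 (nat_lit 7714) (nat_lit 5) (nat_lit 6))
    (@En.n l24564 (nat_lit 12186) (nat_lit 7) (nat_lit 12))
    (@En.n l3787 (nat_lit 10109) (nat_lit 10) (nat_lit 6))
    (@En.i (nat_lit 7727) (nat_lit 8) (nat_lit 6))
    (@En.n l6029 (nat_lit 8949) (nat_lit 10) (nat_lit 11))
    (@En.n l24565 (nat_lit 8768) (nat_lit 11) (nat_lit 6))
    (@En.i (nat_lit 12275) (nat_lit 8) (nat_lit 10))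
    (@En.n l3868 (nat_lit 8476) (nat_lit 13) (nat_lit 7))
    (@En.n l601 (nat_lit 7973) (nat_lit 14) (nat_lit 10))
    (@En.n l24566 (nat_lit 9850) (nat_lit 12) (nat_lit 10))
    (@En.n l11 (nat_lit 7974) (nat_lit 15) (nat_lit 2))))
  (@Cl.mk (nat_lit 0x2000a0008000800050009000e00060002000c0008000800070004000e000b) (nat_lit 0x502018003200033) (nat_lit 16) Lb.e (@T16.mk En
    (@En.n l396 (nat_lit 10802) (nat_lit 9) (nat_lit 11))
    (@En.i (nat_lit 2082) (nat_lit 1) (nat_lit 14))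
    (@En.n l8899 (nat_lit 12545) (nat_lit 2) (nat_lit 4))
    (@En.i (nat_lit 7965) (nat_lit 3) (nat_lit 7))
    (@En.n l8900 (nat_lit 11657) (nat_lit 8) (nat_lit 8))
    (@En.n l1101 (nat_lit 6505) (nat_lit 14) (nat_lit 8))
    (@En.n l8901 (nat_lit 11572) (nat_lit 7) (nat_lit 12))
    (@En.n l67 (nat_lit 7975) (nat_lit 7) (nat_lit 2))
    (@En.n l8902 (nat_lit 9346) (nat_lit 8) (nat_lit 6))
    (@En.n l8903 (nat_lit 2913) (nat_lit 10) (nat_lit 14))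
    (@En.n l8904 (nat_lit 3294) (nat_lit 2) (nat_lit 9))
    (@En.n l8905 (nat_lit 11891) (nat_lit 3) (nat_lit 5))
    (@En.n l8906 (nat_lit 11349) (nat_lit 8) (nat_lit 8))
    (@En.n l3082 (nat_lit 9152) (nat_lit 14) (nat_lit 8))
    (@En.i (nat_lit 12174) (nat_lit 7) (nat_lit 10))
    (@En.n l50 (nat_lit 7975) (nat_lit 15) (nat_lit 2))))
  (@Cl.mk (nat_lit 0x20008000b0004000c000b000a0005000400080005000e00060002000e000c) (nat_lit 0x130a73003060091) (nat_lit 16) Lb.e (@T16.mk En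
    (@En.n l11242 (nat_lit 5886) (nat_lit 14) (nat_lit 12))
    (@En.i (nat_lit 8466) (nat_lit 1) (nat_lit 14))
    (@En.n l18 (nat_lit 7976) (nat_lit 2) (nat_lit 2))
    (@En.n l9716 (nat_lit 6765) (nat_lit 3) (nat_lit 6))
    (@En.n l396 (nat_lit 7596) (nat_lit 5) (nat_lit 14))
    (@En.n l28 (nat_lit 8984) (nat_lit 5) (nat_lit 5))
    (@En.n l343 (nat_lit 7977) (nat_lit 6) (nat_lit 8))
    (@En.n l28 (nat_lit 7978) (nat_lit 7) (nat_lit 4))
    (@En.n l916 (nat_lit 3947) (nat_lit 8) (nat_lit 5))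
    (@En.n l644 (nat_lit 6311) (nat_lit 10) (nat_lit 10))
    (@En.n l77 (nat_lit 7980) (nat_lit 11) (nat_lit 11))
    (@En.n l11243 (nat_lit 5713) (nat_lit 12) (nat_lit 12))
    (@En.n l5195 (nat_lit 6392) (nat_lit 9) (nat_lit 4))
    (@En.n l387 (nat_lit 4506) (nat_lit 7) (nat_lit 11))
    (@En.i (nat_lit 918) (nat_lit 12) (nat_lit 8))
    (@En.n l3 (nat_lit 7976) (nat_lit 15) (nat_lit 2))))
  (@Cl.mk (nat_lit 0x20008000d000b00050003000c000b000500080004000e00050002000e000b) (nat_lit 0x1240083020500c1) (nat_lit 16) Lb.e (@T16.mk En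
    (@En.n l766 (nat_lit 5885) (nat_lit 14) (nat_lit 11))
    (@En.i (nat_lit 8467) (nat_lit 1) (nat_lit 14))
    (@En.n l18 (nat_lit 7977) (nat_lit 2) (nat_lit 2))
    (@En.n l5784 (nat_lit 6764) (nat_lit 3) (nat_lit 5))
    (@En.n l396 (nat_lit 7594) (nat_lit 1) (nat_lit 14))
    (@En.i (nat_lit 8886) (nat_lit 5) (nat_lit 4))
    (@En.n l766 (nat_lit 3518) (nat_lit 10) (nat_lit 8))
    (@En.n l916 (nat_lit 3946) (nat_lit 7) (nat_lit 5))
    (@En.n l644 (nat_lit 6315) (nat_lit 9) (nat_lit 11))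
    (@En.n l287 (nat_lit 7981) (nat_lit 10) (nat_lit 12))
    (@En.n l11 (nat_lit 7978) (nat_lit 10) (nat_lit 3))
    (@En.n l6461 (nat_lit 6422) (nat_lit 0) (nat_lit 5))
    (@En.n l55 (nat_lit 7976) (nat_lit 13) (nat_lit 11))
    (@En.n l1722 (nat_lit 2653) (nat_lit 14) (nat_lit 13))
    (@En.i (nat_lit 916) (nat_lit 12) (nat_lit 8))
    (@En.n l3 (nat_lit 7977) (nat_lit 15) (nat_lit 2))))
  (@Cl.mk (nat_lit 0x20008000d0004000c0003000c000b000400080004000e00050002000e000c) (nat_lit 0x1307081020500c1) (nat_lit 16) Lb.e (@T16.mk En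
    (@En.n l766 (nat_lit 5887) (nat_lit 14) (nat_lit 12))
    (@En.i (nat_lit 8441) (nat_lit 1) (nat_lit 14))
    (@En.n l18 (nat_lit 7978) (nat_lit 2) (nat_lit 2))
    (@En.n l5784 (nat_lit 6766) (nat_lit 3) (nat_lit 5))
    (@En.n l396 (nat_lit 7595) (nat_lit 1) (nat_lit 14))
    (@En.i (nat_lit 8867) (nat_lit 5) (nat_lit 4))
    (@En.n l766 (nat_lit 3519) (nat_lit 6) (nat_lit 8))
    (@En.i (nat_lit 7979) (nat_lit 7) (nat_lit 4))
    (@En.n l644 (nat_lit 6316) (nat_lit 9) (nat_lit 11))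
    (@En.i (nat_lit 12807) (nat_lit 10) (nat_lit 12))
    (@En.i (nat_lit 7977) (nat_lit 10) (nat_lit 3))
    (@En.n l1253 (nat_lit 5716) (nat_lit 12) (nat_lit 12))
    (@En.n l117 (nat_lit 6397) (nat_lit 9) (nat_lit 4))
    (@En.n l1722 (nat_lit 2648) (nat_lit 14) (nat_lit 13))
    (@En.i (nat_lit 912) (nat_lit 12) (nat_lit 8))
    (@En.n l3 (nat_lit 7978) (nat_lit 15) (nat_lit 2))))
  (@Cl.mk (nat_lit 0x20008000c0004000c00090004000d000400080003000e00070002000e000c) (nat_lit 0x50a20306030026) (nat_lit 16) Lb.e (@T16.mk En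
    (@En.n l766 (nat_lit 7982) (nat_lit 14) (nat_lit 12))
    (@En.i (nat_lit 6416) (nat_lit 1) (nat_lit 14))
    (@En.n l18 (nat_lit 7979) (nat_lit 2) (nat_lit 2))
    (@En.n l8261 (nat_lit 7985) (nat_lit 3) (nat_lit 7))
    (@En.n l396 (nat_lit 11266) (nat_lit 1) (nat_lit 14))
    (@En.i (nat_lit 7980) (nat_lit 5) (nat_lit 3))
    (@En.n l766 (nat_lit 12621) (nat_lit 6) (nat_lit 8))
    (@En.i (nat_lit 7976) (nat_lit 7) (nat_lit 4))
    (@En.n l19017 (nat_lit 12805) (nat_lit 9) (nat_lit 13))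
    (@En.n l916 (nat_lit 3948) (nat_lit 9) (nat_lit 4))
    (@En.n l8261 (nat_lit 8858) (nat_lit 11) (nat_lit 9))
    (@En.n l1253 (nat_lit 5718) (nat_lit 12) (nat_lit 12))
    (@En.n l117 (nat_lit 7989) (nat_lit 9) (nat_lit 4))
    (@En.n l1722 (nat_lit 3932) (nat_lit 14) (nat_lit 12))
    (@En.i (nat_lit 11256) (nat_lit 12) (nat_lit 8))
    (@En.n l3 (nat_lit 7979) (nat_lit 15) (nat_lit 2))))
  (@Cl.mk (nat_lit 0x20009000c0004000b00090004000d000700050003000e00070002000e000c) (nat_lit 0x450620200020020) (nat_lit 16) Lb.e (@T16.mk En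
    (@En.n l1208 (nat_lit 7983) (nat_lit 14) (nat_lit 12))
    (@En.i (nat_lit 6417) (nat_lit 1) (nat_lit 14))
    (@En.n l18 (nat_lit 7980) (nat_lit 2) (nat_lit 2))
    (@En.n l1501 (nat_lit 7106) (nat_lit 3) (nat_lit 7))
    (@En.n l396 (nat_lit 7472) (nat_lit 1) (nat_lit 14))
    (@En.n l7 (nat_lit 7979) (nat_lit 5) (nat_lit 3))
    (@En.i (nat_lit 8985) (nat_lit 6) (nat_lit 5))
    (@En.n l420 (nat_lit 7981) (nat_lit 7) (nat_lit 7))
    (@En.n l7690 (nat_lit 12806) (nat_lit 9) (nat_lit 13))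
    (@En.n l1038 (nat_lit 3949) (nat_lit 9) (nat_lit 4))
    (@En.n l1501 (nat_lit 8859) (nat_lit 11) (nat_lit 9))
    (@En.n l1162 (nat_lit 11540) (nat_lit 12) (nat_lit 11))
    (@En.n l5237 (nat_lit 9992) (nat_lit 9) (nat_lit 4))
    (@En.n l1501 (nat_lit 3939) (nat_lit 6) (nat_lit 12))
    (@En.i (nat_lit 9611) (nat_lit 12) (nat_lit 9))
    (@En.n l3 (nat_lit 7980) (nat_lit 15) (nat_lit 2))))
  (@Cl.mk (nat_lit 0x200090008000c0005000c000a0004000700040008000e00060002000e000b) (nat_lit 0x516072000320020) (nat_lit 16) Lb.e (@T16.mk En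
    (@En.n l10704 (nat_lit 7984) (nat_lit 14) (nat_lit 11))
    (@En.n l699 (nat_lit 8144) (nat_lit 1) (nat_lit 14))
    (@En.n l50 (nat_lit 7981) (nat_lit 2) (nat_lit 2))
    (@En.n l16013 (nat_lit 7986) (nat_lit 3) (nat_lit 6))
    (@En.i (nat_lit 7473) (nat_lit 5) (nat_lit 14))
    (@En.n l766 (nat_lit 12617) (nat_lit 5) (nat_lit 8))
    (@En.i (nat_lit 8888) (nat_lit 6) (nat_lit 4))
    (@En.n l16014 (nat_lit 12384) (nat_lit 11) (nat_lit 7))
    (@En.n l8520 (nat_lit 2122) (nat_lit 8) (nat_lit 4))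
    (@En.n l16013 (nat_lit 8860) (nat_lit 10) (nat_lit 10))
    (@En.n l1253 (nat_lit 11539) (nat_lit 11) (nat_lit 12))
    (@En.n l16015 (nat_lit 9053) (nat_lit 8) (nat_lit 5))
    (@En.n l387 (nat_lit 7980) (nat_lit 13) (nat_lit 12))
    (@En.n l699 (nat_lit 7979) (nat_lit 14) (nat_lit 8))
    (@En.i (nat_lit 9612) (nat_lit 12) (nat_lit 9))
    (@En.n l3 (nat_lit 7981) (nat_lit 15) (nat_lit 2))))
  (@Cl.mk (nat_lit 0x2000c000c0007000b00040004000c00090005000d000400090003000e0007) (nat_lit 0x560300830607070) (nat_lit 16) Lb.e (@T16.mk En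
    (@En.n l6996 (nat_lit 7987) (nat_lit 14) (nat_lit 7))
    (@En.n l9760 (nat_lit 11267) (nat_lit 1) (nat_lit 14))
    (@En.n l15801 (nat_lit 7983) (nat_lit 2) (nat_lit 3))
    (@En.i (nat_lit 11062) (nat_lit 3) (nat_lit 9))
    (@En.n l7 (nat_lit 5886) (nat_lit 4) (nat_lit 4))
    (@En.n l828 (nat_lit 12803) (nat_lit 6) (nat_lit 13))
    (@En.n l15802 (nat_lit 4564) (nat_lit 6) (nat_lit 5))
    (@En.n l6996 (nat_lit 8812) (nat_lit 8) (nat_lit 9))
    (@En.n l34766 (nat_lit 11403) (nat_lit 9) (nat_lit 12))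
    (@En.n l5761 (nat_lit 7979) (nat_lit 12) (nat_lit 4))
    (@En.n l936 (nat_lit 9996) (nat_lit 10) (nat_lit 4))
    (@En.n l55 (nat_lit 3934) (nat_lit 12) (nat_lit 11))
    (@En.n l34767 (nat_lit 10003) (nat_lit 13) (nat_lit 7))
    (@En.n l5579 (nat_lit 12796) (nat_lit 14) (nat_lit 12))
    (@En.n l12055 (nat_lit 9822) (nat_lit 12) (nat_lit 12))
    (@En.n l17 (nat_lit 7982) (nat_lit 15) (nat_lit 2))))
  (@Cl.mk (nat_lit 0x2000c000c0008000b00040004000b00090005000d000800050003000e0007) (nat_lit 0xa43300930740090) (nat_lit 16) Lb.e (@T16.mk En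
    (@En.n l4476 (nat_lit 7107) (nat_lit 14) (nat_lit 7))
    (@En.n l4311 (nat_lit 7246) (nat_lit 1) (nat_lit 14))
    (@En.n l3506 (nat_lit 7982) (nat_lit 2) (nat_lit 3))
    (@En.n l24255 (nat_lit 8975) (nat_lit 3) (nat_lit 5))
    (@En.n l9886 (nat_lit 7984) (nat_lit 4) (nat_lit 8))
    (@En.n l24256 (nat_lit 12802) (nat_lit 6) (nat_lit 13))
    (@En.n l24257 (nat_lit 4566) (nat_lit 6) (nat_lit 5))
    (@En.n l4476 (nat_lit 8810) (nat_lit 8) (nat_lit 9))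
    (@En.n l4477 (nat_lit 11396) (nat_lit 9) (nat_lit 11))
    (@En.n l8042 (nat_lit 7980) (nat_lit 12) (nat_lit 4))
    (@En.n l24258 (nat_lit 9994) (nat_lit 10) (nat_lit 4))
    (@En.i (nat_lit 3936) (nat_lit 7) (nat_lit 11))
    (@En.n l3699 (nat_lit 5857) (nat_lit 13) (nat_lit 8))
    (@En.n l7201 (nat_lit 12797) (nat_lit 4) (nat_lit 12))
    (@En.n l24259 (nat_lit 9823) (nat_lit 12) (nat_lit 12))
    (@En.n l17 (nat_lit 7983) (nat_lit 15) (nat_lit 2))))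
noncomputable def a499 : T16 Cl := @T16.mk Cl
  (@Cl.mk (nat_lit 0x2000b000b00080007000b00050005000c000a0005000800040009000e0006) (nat_lit 0x9440400a30303a0) (nat_lit 16) Lb.e (@T16.mk En
    (@En.n l30530 (nat_lit 7988) (nat_lit 6) (nat_lit 6))
    (@En.n l29842 (nat_lit 7477) (nat_lit 1) (nat_lit 14))
    (@En.n l50 (nat_lit 11553) (nat_lit 2) (nat_lit 9))
    (@En.n l30531 (nat_lit 8890) (nat_lit 3) (nat_lit 4))
    (@En.n l30532 (nat_lit 11514) (nat_lit 10) (nat_lit 8))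
    (@En.n l15802 (nat_lit 3151) (nat_lit 5) (nat_lit 5))
    (@En.n l30530 (nat_lit 8809) (nat_lit 7) (nat_lit 10))
    (@En.n l30533 (nat_lit 11393) (nat_lit 8) (nat_lit 12))
    (@En.n l22719 (nat_lit 7981) (nat_lit 11) (nat_lit 5))
    (@En.n l30534 (nat_lit 11050) (nat_lit 9) (nat_lit 5))
    (@En.n l22721 (nat_lit 7983) (nat_lit 11) (nat_lit 11))
    (@En.i (nat_lit 7982) (nat_lit 12) (nat_lit 7))
    (@En.n l30535 (nat_lit 10792) (nat_lit 13) (nat_lit 8))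
    (@En.n l22722 (nat_lit 12798) (nat_lit 14) (nat_lit 11))
    (@En.n l30536 (nat_lit 10076) (nat_lit 11) (nat_lit 11))
    (@En.n l17 (nat_lit 7984) (nat_lit 15) (nat_lit 2))))
  (@Cl.mk (nat_lit 0x20007000b0004000b000900090005000d00050009000300070007000e000c) (nat_lit 0x30713040700095) (nat_lit 16) Lb.e (@T16.mk En
    (@En.n l396 (nat_lit 7987) (nat_lit 12) (nat_lit 12))
    (@En.n l4316 (nat_lit 9831) (nat_lit 1) (nat_lit 14))
    (@En.n l16106 (nat_lit 11011) (nat_lit 2) (nat_lit 7))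
    (@En.n l17355 (nat_lit 11218) (nat_lit 3) (nat_lit 7))
    (@En.n l152 (nat_lit 7106) (nat_lit 4) (nat_lit 3))
    (@En.n l3087 (nat_lit 12758) (nat_lit 0) (nat_lit 9))
    (@En.n l17356 (nat_lit 6765) (nat_lit 6) (nat_lit 5))
    (@En.n l17357 (nat_lit 5590) (nat_lit 8) (nat_lit 13))
    (@En.n l16152 (nat_lit 6192) (nat_lit 8) (nat_lit 5))
    (@En.n l16153 (nat_lit 7979) (nat_lit 10) (nat_lit 9))
    (@En.i (nat_lit 7100) (nat_lit 11) (nat_lit 9))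
    (@En.n l6576 (nat_lit 6604) (nat_lit 12) (nat_lit 11))
    (@En.n l3080 (nat_lit 10000) (nat_lit 7) (nat_lit 4))
    (@En.i (nat_lit 3915) (nat_lit 14) (nat_lit 11))
    (@En.n l17358 (nat_lit 11252) (nat_lit 1) (nat_lit 7))
    (@En.n l50 (nat_lit 7985) (nat_lit 15) (nat_lit 2))))
  (@Cl.mk (nat_lit 0x200080007000b0005000b000a000a000500080005000900060006000e000b) (nat_lit 0x605071303030034) (nat_lit 16) Lb.e (@T16.mk En
    (@En.n l396 (nat_lit 7988) (nat_lit 4) (nat_lit 11))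
    (@En.n l4316 (nat_lit 9830) (nat_lit 1) (nat_lit 14))
    (@En.n l4494 (nat_lit 11029) (nat_lit 10) (nat_lit 6))
    (@En.n l16173 (nat_lit 11223) (nat_lit 3) (nat_lit 6))
    (@En.n l16174 (nat_lit 11559) (nat_lit 4) (nat_lit 9))
    (@En.n l16175 (nat_lit 8476) (nat_lit 5) (nat_lit 5))
    (@En.n l3106 (nat_lit 12379) (nat_lit 10) (nat_lit 8))
    (@En.n l3219 (nat_lit 6194) (nat_lit 7) (nat_lit 5))
    (@En.n l9045 (nat_lit 7981) (nat_lit 9) (nat_lit 10))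
    (@En.i (nat_lit 7101) (nat_lit 10) (nat_lit 10))
    (@En.n l16176 (nat_lit 11546) (nat_lit 11) (nat_lit 11))
    (@En.n l16177 (nat_lit 11582) (nat_lit 12) (nat_lit 5))
    (@En.n l3 (nat_lit 7106) (nat_lit 13) (nat_lit 11))
    (@En.n l3 (nat_lit 7985) (nat_lit 14) (nat_lit 7))
    (@En.n l7029 (nat_lit 9917) (nat_lit 2) (nat_lit 8))
    (@En.n l50 (nat_lit 7986) (nat_lit 15) (nat_lit 2))))
  (@Cl.mk (nat_lit 0x300070007000c000c0006000a00040004000b000900090006000d0005000a) (nat_lit 0x4503009140708) (nat_lit 16) Lb.e (@T16.mk En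
    (@En.n l28251 (nat_lit 11556) (nat_lit 0) (nat_lit 10))
    (@En.n l33065 (nat_lit 5884) (nat_lit 8) (nat_lit 5))
    (@En.n l32975 (nat_lit 5592) (nat_lit 2) (nat_lit 13))
    (@En.n l33066 (nat_lit 6667) (nat_lit 3) (nat_lit 6))
    (@En.n l33067 (nat_lit 7982) (nat_lit 7) (nat_lit 9))
    (@En.i (nat_lit 7103) (nat_lit 5) (nat_lit 9))
    (@En.n l33068 (nat_lit 11404) (nat_lit 7) (nat_lit 11))
    (@En.n l18 (nat_lit 7985) (nat_lit 12) (nat_lit 4))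
    (@En.n l18136 (nat_lit 9998) (nat_lit 8) (nat_lit 4))
    (@En.i (nat_lit 2081) (nat_lit 9) (nat_lit 10))
    (@En.n l33069 (nat_lit 10004) (nat_lit 1) (nat_lit 6))
    (@En.n l33070 (nat_lit 7806) (nat_lit 4) (nat_lit 12))
    (@En.n l25090 (nat_lit 10590) (nat_lit 13) (nat_lit 12))
    (@En.n l15890 (nat_lit 11007) (nat_lit 9) (nat_lit 7))
    (@En.n l33071 (nat_lit 11153) (nat_lit 12) (nat_lit 7))
    (@En.n l152 (nat_lit 7107) (nat_lit 15) (nat_lit 3))))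
  (@Cl.mk (nat_lit 0x50005000b000a000a000600090005000a00060006000b000b00070006000a) (nat_lit 0x91404030033005) (nat_lit 16) Lb.e (@T16.mk En
    (@En.n l3 (nat_lit 7107) (nat_lit 9) (nat_lit 10))
    (@En.n l3 (nat_lit 7987) (nat_lit 10) (nat_lit 6))
    (@En.n l30686 (nat_lit 10791) (nat_lit 2) (nat_lit 7))
    (@En.n l30687 (nat_lit 7805) (nat_lit 5) (nat_lit 11))
    (@En.n l30688 (nat_lit 10591) (nat_lit 9) (nat_lit 11))
    (@En.n l30689 (nat_lit 11031) (nat_lit 10) (nat_lit 6))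
    (@En.n l30690 (nat_lit 11224) (nat_lit 6) (nat_lit 6))
    (@En.n l30691 (nat_lit 11554) (nat_lit 10) (nat_lit 10))
    (@En.n l30692 (nat_lit 8894) (nat_lit 8) (nat_lit 5))
    (@En.n l30693 (nat_lit 11517) (nat_lit 9) (nat_lit 9))
    (@En.n l3219 (nat_lit 6668) (nat_lit 1) (nat_lit 6))
    (@En.n l30694 (nat_lit 7984) (nat_lit 6) (nat_lit 10))
    (@En.i (nat_lit 7104) (nat_lit 6) (nat_lit 10))
    (@En.n l30688 (nat_lit 11400) (nat_lit 2) (nat_lit 11))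
    (@En.n l18 (nat_lit 7986) (nat_lit 11) (nat_lit 5))
    (@En.n l30695 (nat_lit 10417) (nat_lit 0) (nat_lit 5))))
  (@Cl.mk (nat_lit 0x2000d000c000a000300090004000c00090006000d000400070003000e0007) (nat_lit 0x765040a00700040) (nat_lit 16) Lb.e (@T16.mk En
    (@En.n l19018 (nat_lit 10000) (nat_lit 14) (nat_lit 7))
    (@En.n l396 (nat_lit 9892) (nat_lit 1) (nat_lit 14))
    (@En.n l10539 (nat_lit 9992) (nat_lit 2) (nat_lit 3))
    (@En.n l2009 (nat_lit 5957) (nat_lit 11) (nat_lit 7))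
    (@En.n l5194 (nat_lit 6392) (nat_lit 4) (nat_lit 4))
    (@En.n l18075 (nat_lit 11915) (nat_lit 6) (nat_lit 13))
    (@En.n l1652 (nat_lit 6360) (nat_lit 6) (nat_lit 6))
    (@En.n l9349 (nat_lit 8857) (nat_lit 12) (nat_lit 9))
    (@En.n l19019 (nat_lit 10003) (nat_lit 9) (nat_lit 12))
    (@En.n l766 (nat_lit 7982) (nat_lit 9) (nat_lit 4))
    (@En.i (nat_lit 11255) (nat_lit 11) (nat_lit 9))
    (@En.n l1106 (nat_lit 9995) (nat_lit 11) (nat_lit 3))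
    (@En.n l3463 (nat_lit 3946) (nat_lit 0) (nat_lit 10))
    (@En.n l1106 (nat_lit 9996) (nat_lit 14) (nat_lit 12))
    (@En.n l19020 (nat_lit 10661) (nat_lit 2) (nat_lit 13))
    (@En.n l18 (nat_lit 7989) (nat_lit 15) (nat_lit 2))))
  (@Cl.mk (nat_lit 0x2000c0006000b00050004000b000e00050002000d0005000a0003000e000b) (nat_lit 0x305002700906061) (nat_lit 16) Lb.e (@T16.mk En
    (@En.i (nat_lit 5603) (nat_lit 10) (nat_lit 11))
    (@En.i (nat_lit 7578) (nat_lit 1) (nat_lit 14))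
    (@En.n l117 (nat_lit 7991) (nat_lit 2) (nat_lit 3))
    (@En.n l781 (nat_lit 4844) (nat_lit 3) (nat_lit 10))
    (@En.i (nat_lit 7253) (nat_lit 14) (nat_lit 5))
    (@En.i (nat_lit 7908) (nat_lit 6) (nat_lit 13))
    (@En.n l17 (nat_lit 7990) (nat_lit 6) (nat_lit 2))
    (@En.n l3098 (nat_lit 7992) (nat_lit 7) (nat_lit 5))
    (@En.i (nat_lit 5890) (nat_lit 4) (nat_lit 14))
    (@En.i (nat_lit 12763) (nat_lit 10) (nat_lit 11))
    (@En.i (nat_lit 6966) (nat_lit 10) (nat_lit 4))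
    (@En.i (nat_lit 4172) (nat_lit 4) (nat_lit 5))
    (@En.n l6727 (nat_lit 4400) (nat_lit 13) (nat_lit 11))
    (@En.n l564 (nat_lit 11569) (nat_lit 14) (nat_lit 6))
    (@En.n l7 (nat_lit 7261) (nat_lit 8) (nat_lit 12))
    (@En.n l28 (nat_lit 7990) (nat_lit 15) (nat_lit 2))))
  (@Cl.mk (nat_lit 0x2000c0007000b00050004000a000e00050002000d000900060003000e000b) (nat_lit 0x305004700950061) (nat_lit 16) Lb.e (@T16.mk En
    (@En.n l8631 (nat_lit 5604) (nat_lit 10) (nat_lit 11))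
    (@En.i (nat_lit 7999) (nat_lit 1) (nat_lit 14))
    (@En.n l152 (nat_lit 7990) (nat_lit 2) (nat_lit 3))
    (@En.n l18413 (nat_lit 5703) (nat_lit 3) (nat_lit 6))
    (@En.n l97 (nat_lit 7656) (nat_lit 14) (nat_lit 9))
    (@En.n l21885 (nat_lit 7909) (nat_lit 6) (nat_lit 13))
    (@En.n l17 (nat_lit 7991) (nat_lit 6) (nat_lit 2))
    (@En.i (nat_lit 7993) (nat_lit 7) (nat_lit 5))
    (@En.i (nat_lit 4671) (nat_lit 9) (nat_lit 14))
    (@En.n l5021 (nat_lit 10989) (nat_lit 10) (nat_lit 10))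
    (@En.i (nat_lit 6967) (nat_lit 10) (nat_lit 4))
    (@En.i (nat_lit 12066) (nat_lit 4) (nat_lit 5))
    (@En.n l18434 (nat_lit 4397) (nat_lit 13) (nat_lit 11))
    (@En.n l10976 (nat_lit 8115) (nat_lit 14) (nat_lit 7))
    (@En.n l18434 (nat_lit 7260) (nat_lit 8) (nat_lit 12))
    (@En.n l28 (nat_lit 7991) (nat_lit 15) (nat_lit 2))))
  (@Cl.mk (nat_lit 0x2000b0006000b000b00060005000c00050005000d0004000a0003000e000a) (nat_lit 0x3016004003050b3) (nat_lit 16) Lb.e (@T16.mk En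
    (@En.i (nat_lit 5606) (nat_lit 14) (nat_lit 10))
    (@En.i (nat_lit 7575) (nat_lit 1) (nat_lit 14))
    (@En.n l345 (nat_lit 7993) (nat_lit 2) (nat_lit 3))
    (@En.n l2213 (nat_lit 5248) (nat_lit 3) (nat_lit 10))
    (@En.i (nat_lit 7252) (nat_lit 4) (nat_lit 4))
    (@En.n l28322 (nat_lit 4356) (nat_lit 6) (nat_lit 13))
    (@En.n l152 (nat_lit 7994) (nat_lit 11) (nat_lit 5))
    (@En.n l3851 (nat_lit 6586) (nat_lit 7) (nat_lit 5))
    (@En.n l2348 (nat_lit 11066) (nat_lit 9) (nat_lit 12))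
    (@En.i (nat_lit 5567) (nat_lit 9) (nat_lit 5))
    (@En.n l16306 (nat_lit 10846) (nat_lit 11) (nat_lit 6))
    (@En.n l3536 (nat_lit 7990) (nat_lit 12) (nat_lit 11))
    (@En.n l16306 (nat_lit 6362) (nat_lit 13) (nat_lit 11))
    (@En.i (nat_lit 11501) (nat_lit 14) (nat_lit 6))
    (@En.n l18 (nat_lit 7558) (nat_lit 12) (nat_lit 11))
    (@En.n l50 (nat_lit 7992) (nat_lit 15) (nat_lit 2))))
  (@Cl.mk (nat_lit 0x2000b0007000b000b00060005000b00050005000d000900050003000e000a) (nat_lit 0x3086005002400b3) (nat_lit 16) Lb.e (@T16.mk En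
    (@En.n l8631 (nat_lit 5607) (nat_lit 14) (nat_lit 10))
    (@En.n l21599 (nat_lit 7997) (nat_lit 1) (nat_lit 14))
    (@En.n l2710 (nat_lit 7992) (nat_lit 2) (nat_lit 3))
    (@En.n l9972 (nat_lit 5698) (nat_lit 3) (nat_lit 5))
    (@En.n l3532 (nat_lit 6448) (nat_lit 4) (nat_lit 9))
    (@En.n l21885 (nat_lit 4355) (nat_lit 6) (nat_lit 13))
    (@En.n l1071 (nat_lit 7995) (nat_lit 11) (nat_lit 5))
    (@En.i (nat_lit 6588) (nat_lit 7) (nat_lit 5))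
    (@En.n l5021 (nat_lit 8169) (nat_lit 9) (nat_lit 11))
    (@En.i (nat_lit 6983) (nat_lit 9) (nat_lit 5))
    (@En.n l22931 (nat_lit 10847) (nat_lit 11) (nat_lit 6))
    (@En.n l61 (nat_lit 7991) (nat_lit 12) (nat_lit 11))
    (@En.n l1897 (nat_lit 6360) (nat_lit 13) (nat_lit 11))
    (@En.n l10976 (nat_lit 11555) (nat_lit 14) (nat_lit 7))
    (@En.n l22932 (nat_lit 7561) (nat_lit 12) (nat_lit 11))
    (@En.n l28 (nat_lit 7993) (nat_lit 15) (nat_lit 2))))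
  (@Cl.mk (nat_lit 0x200070006000d0005000d0003000a0003000e00090002000a0006000e000b) (nat_lit 0x4010509101092) (nat_lit 16) Lb.e (@T16.mk En
    (@En.i (nat_lit 7992) (nat_lit 12) (nat_lit 11))
    (@En.n l6444 (nat_lit 7145) (nat_lit 1) (nat_lit 14))
    (@En.n l1353 (nat_lit 11502) (nat_lit 2) (nat_lit 6))
    (@En.n l18 (nat_lit 5367) (nat_lit 3) (nat_lit 10))
    (@En.n l50 (nat_lit 7994) (nat_lit 4) (nat_lit 2))
    (@En.i (nat_lit 5799) (nat_lit 5) (nat_lit 9))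
    (@En.i (nat_lit 11631) (nat_lit 1) (nat_lit 14))
    (@En.i (nat_lit 7995) (nat_lit 7) (nat_lit 3))
    (@En.i (nat_lit 5728) (nat_lit 9) (nat_lit 10))
    (@En.i (nat_lit 7996) (nat_lit 9) (nat_lit 3))
    (@En.i (nat_lit 3093) (nat_lit 11) (nat_lit 13))
    (@En.n l117 (nat_lit 7730) (nat_lit 6) (nat_lit 5))
    (@En.i (nat_lit 12757) (nat_lit 8) (nat_lit 13))
    (@En.i (nat_lit 6977) (nat_lit 14) (nat_lit 6))
    (@En.n l3098 (nat_lit 10296) (nat_lit 4) (nat_lit 7))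
    (@En.n l3 (nat_lit 7994) (nat_lit 15) (nat_lit 2))))
  (@Cl.mk (nat_lit 0x200070006000c0005000d000900040003000e00090002000a0007000e000b) (nat_lit 0x3023009503079) (nat_lit 16) Lb.e (@T16.mk En
    (@En.n l345 (nat_lit 7993) (nat_lit 12) (nat_lit 11))
    (@En.n l6444 (nat_lit 7142) (nat_lit 1) (nat_lit 14))
    (@En.n l61 (nat_lit 12760) (nat_lit 2) (nat_lit 7))
    (@En.n l18 (nat_lit 5362) (nat_lit 3) (nat_lit 10))
    (@En.n l50 (nat_lit 7995) (nat_lit 4) (nat_lit 2))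
    (@En.i (nat_lit 5719) (nat_lit 5) (nat_lit 9))
    (@En.n l3749 (nat_lit 7998) (nat_lit 1) (nat_lit 14))
    (@En.n l28 (nat_lit 7994) (nat_lit 7) (nat_lit 3))
    (@En.n l1393 (nat_lit 5702) (nat_lit 8) (nat_lit 4))
    (@En.i (nat_lit 7963) (nat_lit 10) (nat_lit 9))
    (@En.i (nat_lit 3095) (nat_lit 11) (nat_lit 13))
    (@En.n l117 (nat_lit 7728) (nat_lit 6) (nat_lit 5))
    (@En.i (nat_lit 8161) (nat_lit 8) (nat_lit 12))
    (@En.i (nat_lit 6978) (nat_lit 14) (nat_lit 6))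
    (@En.n l3098 (nat_lit 10297) (nat_lit 10) (nat_lit 7))
    (@En.n l3 (nat_lit 7995) (nat_lit 15) (nat_lit 2))))
  (@Cl.mk (nat_lit 0x200070006000d000c00060003000a0004000e00090002000a0006000e000a) (nat_lit 0x34005091030a6) (nat_lit 16) Lb.e (@T16.mk En
    (@En.i (nat_lit 7252) (nat_lit 12) (nat_lit 10))
    (@En.n l6444 (nat_lit 7143) (nat_lit 1) (nat_lit 14))
    (@En.n l1353 (nat_lit 11503) (nat_lit 2) (nat_lit 6))
    (@En.n l18 (nat_lit 5366) (nat_lit 3) (nat_lit 10))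
    (@En.n l50 (nat_lit 7996) (nat_lit 4) (nat_lit 2))
    (@En.i (nat_lit 5796) (nat_lit 5) (nat_lit 9))
    (@En.i (nat_lit 11630) (nat_lit 1) (nat_lit 14))
    (@En.n l11 (nat_lit 5707) (nat_lit 7) (nat_lit 4))
    (@En.n l287 (nat_lit 7964) (nat_lit 9) (nat_lit 10))
    (@En.n l11 (nat_lit 7994) (nat_lit 9) (nat_lit 3))
    (@En.i (nat_lit 7704) (nat_lit 5) (nat_lit 6))
    (@En.n l55 (nat_lit 7995) (nat_lit 12) (nat_lit 12))
    (@En.i (nat_lit 12758) (nat_lit 8) (nat_lit 13))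
    (@En.i (nat_lit 6979) (nat_lit 14) (nat_lit 6))
    (@En.n l6277 (nat_lit 10295) (nat_lit 4) (nat_lit 7))
    (@En.n l3 (nat_lit 7996) (nat_lit 15) (nat_lit 2))))
  (@Cl.mk (nat_lit 0x20006000b0007000b000b00070005000b00050005000a00090005000e0009) (nat_lit 0x400500300450a4) (nat_lit 16) Lb.e (@T16.mk En
    (@En.n l97 (nat_lit 8010) (nat_lit 14) (nat_lit 9))
    (@En.n l16986 (nat_lit 10040) (nat_lit 1) (nat_lit 14))
    (@En.n l16987 (nat_lit 5705) (nat_lit 2) (nat_lit 5))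
    (@En.i (nat_lit 10798) (nat_lit 3) (nat_lit 9))
    (@En.n l16988 (nat_lit 10347) (nat_lit 4) (nat_lit 10))
    (@En.n l18 (nat_lit 7998) (nat_lit 5) (nat_lit 5))
    (@En.n l16989 (nat_lit 11378) (nat_lit 6) (nat_lit 5))
    (@En.n l16990 (nat_lit 8168) (nat_lit 8) (nat_lit 11))
    (@En.n l16991 (nat_lit 7674) (nat_lit 8) (nat_lit 5))
    (@En.n l16992 (nat_lit 10422) (nat_lit 10) (nat_lit 7))
    (@En.n l16993 (nat_lit 7999) (nat_lit 11) (nat_lit 11))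
    (@En.n l11385 (nat_lit 9882) (nat_lit 12) (nat_lit 11))
    (@En.n l16994 (nat_lit 4530) (nat_lit 13) (nat_lit 7))
    (@En.n l16995 (nat_lit 7252) (nat_lit 14) (nat_lit 11))
    (@En.n l16989 (nat_lit 8000) (nat_lit 13) (nat_lit 6))
    (@En.n l67 (nat_lit 7997) (nat_lit 15) (nat_lit 2))))
  (@Cl.mk (nat_lit 0x20006000a0007000e000b000200080006000c0005000a00090004000e0008) (nat_lit 0x40b10504034084) (nat_lit 16) Lb.e (@T16.mk En
    (@En.n l97 (nat_lit 7719) (nat_lit 6) (nat_lit 8))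
    (@En.n l6820 (nat_lit 11195) (nat_lit 1) (nat_lit 14))
    (@En.n l6821 (nat_lit 7712) (nat_lit 2) (nat_lit 4))
    (@En.i (nat_lit 7965) (nat_lit 10) (nat_lit 9))
    (@En.n l3571 (nat_lit 11131) (nat_lit 4) (nat_lit 10))
    (@En.n l1075 (nat_lit 11380) (nat_lit 5) (nat_lit 5))
    (@En.n l6822 (nat_lit 8163) (nat_lit 7) (nat_lit 12))
    (@En.n l3082 (nat_lit 7671) (nat_lit 7) (nat_lit 6))
    (@En.n l6823 (nat_lit 11994) (nat_lit 9) (nat_lit 8))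
    (@En.n l50 (nat_lit 7998) (nat_lit 9) (nat_lit 2))
    (@En.n l396 (nat_lit 7997) (nat_lit 11) (nat_lit 11))
    (@En.n l4316 (nat_lit 9838) (nat_lit 12) (nat_lit 14))
    (@En.n l6824 (nat_lit 12528) (nat_lit 13) (nat_lit 7))
    (@En.n l3087 (nat_lit 7996) (nat_lit 3) (nat_lit 10))
    (@En.n l6825 (nat_lit 8001) (nat_lit 4) (nat_lit 6))
    (@En.n l67 (nat_lit 7998) (nat_lit 15) (nat_lit 2))))
  (@Cl.mk (nat_lit 0x20006000c0007000b00060004000a000e00050002000a00090006000e000a) (nat_lit 0x40400490016057) (nat_lit 16) Lb.e (@T16.mk En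
    (@En.n l21598 (nat_lit 10994) (nat_lit 11) (nat_lit 10))
    (@En.n l3197 (nat_lit 10037) (nat_lit 1) (nat_lit 14))
    (@En.n l18413 (nat_lit 7443) (nat_lit 2) (nat_lit 6))
    (@En.n l4758 (nat_lit 10799) (nat_lit 14) (nat_lit 9))
    (@En.i (nat_lit 4542) (nat_lit 4) (nat_lit 10))
    (@En.n l17 (nat_lit 7999) (nat_lit 5) (nat_lit 2))
    (@En.n l21599 (nat_lit 7997) (nat_lit 6) (nat_lit 5))
    (@En.i (nat_lit 10931) (nat_lit 8) (nat_lit 14))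
    (@En.n l18408 (nat_lit 10988) (nat_lit 9) (nat_lit 10))
    (@En.i (nat_lit 8004) (nat_lit 9) (nat_lit 4))
    (@En.i (nat_lit 11038) (nat_lit 4) (nat_lit 6))
    (@En.n l18434 (nat_lit 8624) (nat_lit 12) (nat_lit 11))
    (@En.n l18240 (nat_lit 12534) (nat_lit 13) (nat_lit 7))
    (@En.n l1690 (nat_lit 7253) (nat_lit 8) (nat_lit 12))
    (@En.i (nat_lit 9775) (nat_lit 8) (nat_lit 6))
    (@En.n l28 (nat_lit 7999) (nat_lit 15) (nat_lit 2))))
noncomputable def a500 : T16 Cl := @T16.mk Cl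
  (@Cl.mk (nat_lit 0x3000a0006000b0006000b000b00060005000a00050005000a000d000a0006) (nat_lit 0x700000005004350) (nat_lit 16) Lb.e (@T16.mk En
    (@En.n l9972 (nat_lit 6445) (nat_lit 0) (nat_lit 6))
    (@En.n l3532 (nat_lit 9738) (nat_lit 12) (nat_lit 10))
    (@En.i (nat_lit 7993) (nat_lit 5) (nat_lit 13))
    (@En.n l15535 (nat_lit 9979) (nat_lit 3) (nat_lit 10))
    (@En.n l1071 (nat_lit 8001) (nat_lit 11) (nat_lit 5))
    (@En.i (nat_lit 11100) (nat_lit 5) (nat_lit 5))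
    (@En.n l5021 (nat_lit 9751) (nat_lit 0) (nat_lit 10))
    (@En.i (nat_lit 11152) (nat_lit 11) (nat_lit 5))
    (@En.n l32531 (nat_lit 10704) (nat_lit 8) (nat_lit 6))
    (@En.n l61 (nat_lit 9775) (nat_lit 5) (nat_lit 11))
    (@En.n l1897 (nat_lit 11774) (nat_lit 11) (nat_lit 11))
    (@En.n l29013 (nat_lit 11548) (nat_lit 12) (nat_lit 6))
    (@En.n l32532 (nat_lit 12111) (nat_lit 13) (nat_lit 11))
    (@En.n l32533 (nat_lit 11154) (nat_lit 14) (nat_lit 6))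
    (@En.n l32534 (nat_lit 8011) (nat_lit 0) (nat_lit 10))
    (@En.n l2710 (nat_lit 8002) (nat_lit 15) (nat_lit 3))))
  (@Cl.mk (nat_lit 0x200070006000b0005000a000d000a0005000300090006000a0006000e000b) (nat_lit 0x3033400601061) (nat_lit 16) Lb.e (@T16.mk En
    (@En.n l345 (nat_lit 8000) (nat_lit 10) (nat_lit 11))
    (@En.n l16997 (nat_lit 9852) (nat_lit 1) (nat_lit 14))
    (@En.n l7405 (nat_lit 11500) (nat_lit 2) (nat_lit 6))
    (@En.n l535 (nat_lit 5312) (nat_lit 3) (nat_lit 10))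
    (@En.n l16998 (nat_lit 11156) (nat_lit 4) (nat_lit 6))
    (@En.n l16999 (nat_lit 11089) (nat_lit 5) (nat_lit 9))
    (@En.n l28 (nat_lit 8003) (nat_lit 6) (nat_lit 3))
    (@En.n l8143 (nat_lit 7010) (nat_lit 7) (nat_lit 5))
    (@En.n l17000 (nat_lit 12078) (nat_lit 9) (nat_lit 10))
    (@En.i (nat_lit 7995) (nat_lit 10) (nat_lit 13))
    (@En.n l7882 (nat_lit 8919) (nat_lit 11) (nat_lit 10))
    (@En.n l117 (nat_lit 12016) (nat_lit 4) (nat_lit 5))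
    (@En.n l17001 (nat_lit 9752) (nat_lit 13) (nat_lit 11))
    (@En.i (nat_lit 11216) (nat_lit 14) (nat_lit 6))
    (@En.n l3187 (nat_lit 10084) (nat_lit 7) (nat_lit 7))
    (@En.n l3 (nat_lit 8001) (nat_lit 15) (nat_lit 2))))
  (@Cl.mk (nat_lit 0x3000a0006000b0005000b000b00060005000b00050005000a000d0005000b) (nat_lit 0x700000002004402) (nat_lit 16) Lb.e (@T16.mk En
    (@En.n l41000 (nat_lit 7645) (nat_lit 0) (nat_lit 11))
    (@En.i (nat_lit 10278) (nat_lit 5) (nat_lit 5))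
    (@En.i (nat_lit 7992) (nat_lit 5) (nat_lit 13))
    (@En.n l899 (nat_lit 9982) (nat_lit 3) (nat_lit 10))
    (@En.n l152 (nat_lit 8003) (nat_lit 11) (nat_lit 5))
    (@En.n l3851 (nat_lit 11097) (nat_lit 5) (nat_lit 5))
    (@En.n l41001 (nat_lit 8422) (nat_lit 0) (nat_lit 11))
    (@En.i (nat_lit 11149) (nat_lit 11) (nat_lit 5))
    (@En.n l41002 (nat_lit 10702) (nat_lit 8) (nat_lit 6))
    (@En.n l3536 (nat_lit 11169) (nat_lit 5) (nat_lit 11))
    (@En.n l16306 (nat_lit 11773) (nat_lit 11) (nat_lit 11))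
    (@En.n l41003 (nat_lit 8563) (nat_lit 12) (nat_lit 5))
    (@En.n l41004 (nat_lit 12112) (nat_lit 13) (nat_lit 11))
    (@En.n l41005 (nat_lit 10967) (nat_lit 14) (nat_lit 6))
    (@En.n l18210 (nat_lit 11179) (nat_lit 2) (nat_lit 10))
    (@En.n l345 (nat_lit 8000) (nat_lit 15) (nat_lit 3))))
  (@Cl.mk (nat_lit 0x200070006000c0005000a000d0004000b000300090006000a0005000e000b) (nat_lit 0x40320206060b1) (nat_lit 16) Lb.e (@T16.mk En
    (@En.i (nat_lit 8002) (nat_lit 10) (nat_lit 11))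
    (@En.n l6444 (nat_lit 9584) (nat_lit 1) (nat_lit 14))
    (@En.n l2869 (nat_lit 8561) (nat_lit 2) (nat_lit 5))
    (@En.n l535 (nat_lit 12397) (nat_lit 3) (nat_lit 10))
    (@En.n l28080 (nat_lit 11155) (nat_lit 4) (nat_lit 6))
    (@En.i (nat_lit 11409) (nat_lit 5) (nat_lit 9))
    (@En.i (nat_lit 8001) (nat_lit 6) (nat_lit 3))
    (@En.n l18215 (nat_lit 7646) (nat_lit 0) (nat_lit 11))
    (@En.i (nat_lit 9569) (nat_lit 8) (nat_lit 4))
    (@En.i (nat_lit 7994) (nat_lit 10) (nat_lit 13))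
    (@En.n l7882 (nat_lit 8920) (nat_lit 11) (nat_lit 10))
    (@En.n l117 (nat_lit 12013) (nat_lit 4) (nat_lit 5))
    (@En.n l15789 (nat_lit 8559) (nat_lit 13) (nat_lit 12))
    (@En.i (nat_lit 11214) (nat_lit 14) (nat_lit 6))
    (@En.n l3187 (nat_lit 10085) (nat_lit 7) (nat_lit 7))
    (@En.n l3 (nat_lit 8003) (nat_lit 15) (nat_lit 2))))
  (@Cl.mk (nat_lit 0x20006000c00040008000c0004000a000e00040002000a00080006000e000c) (nat_lit 0x402503c0074093) (nat_lit 16) Lb.e (@T16.mk En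
    (@En.i (nat_lit 7800) (nat_lit 11) (nat_lit 12))
    (@En.i (nat_lit 7506) (nat_lit 1) (nat_lit 14))
    (@En.n l5588 (nat_lit 7474) (nat_lit 2) (nat_lit 6))
    (@En.n l4758 (nat_lit 10750) (nat_lit 14) (nat_lit 8))
    (@En.i (nat_lit 8561) (nat_lit 4) (nat_lit 10))
    (@En.n l17 (nat_lit 8004) (nat_lit 5) (nat_lit 2))
    (@En.n l25358 (nat_lit 7674) (nat_lit 6) (nat_lit 4))
    (@En.i (nat_lit 7065) (nat_lit 8) (nat_lit 14))
    (@En.n l1897 (nat_lit 3962) (nat_lit 9) (nat_lit 10))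
    (@En.i (nat_lit 8005) (nat_lit 9) (nat_lit 4))
    (@En.n l1897 (nat_lit 8611) (nat_lit 11) (nat_lit 12))
    (@En.n l2038 (nat_lit 7074) (nat_lit 12) (nat_lit 8))
    (@En.n l3528 (nat_lit 7802) (nat_lit 6) (nat_lit 4))
    (@En.n l1690 (nat_lit 7251) (nat_lit 8) (nat_lit 12))
    (@En.i (nat_lit 11141) (nat_lit 8) (nat_lit 6))
    (@En.n l28 (nat_lit 8004) (nat_lit 15) (nat_lit 2))))
  (@Cl.mk (nat_lit 0x20006000c000a000500090004000a000e00060002000a00070006000e000b) (nat_lit 0x75020890060047) (nat_lit 16) Lb.e (@T16.mk En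
    (@En.n l31563 (nat_lit 8006) (nat_lit 11) (nat_lit 11))
    (@En.i (nat_lit 5148) (nat_lit 1) (nat_lit 14))
    (@En.n l5588 (nat_lit 11319) (nat_lit 2) (nat_lit 6))
    (@En.n l2038 (nat_lit 11348) (nat_lit 14) (nat_lit 7))
    (@En.n l22927 (nat_lit 11492) (nat_lit 4) (nat_lit 10))
    (@En.n l17 (nat_lit 8005) (nat_lit 5) (nat_lit 2))
    (@En.n l17645 (nat_lit 8007) (nat_lit 6) (nat_lit 6))
    (@En.i (nat_lit 8022) (nat_lit 8) (nat_lit 14))
    (@En.n l1897 (nat_lit 12259) (nat_lit 9) (nat_lit 10))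
    (@En.n l50 (nat_lit 7999) (nat_lit 9) (nat_lit 4))
    (@En.n l2038 (nat_lit 7078) (nat_lit 11) (nat_lit 9))
    (@En.i (nat_lit 11041) (nat_lit 5) (nat_lit 5))
    (@En.n l217 (nat_lit 7675) (nat_lit 13) (nat_lit 10))
    (@En.n l1690 (nat_lit 11567) (nat_lit 8) (nat_lit 12))
    (@En.i (nat_lit 11550) (nat_lit 8) (nat_lit 6))
    (@En.n l28 (nat_lit 8005) (nat_lit 15) (nat_lit 2))))
  (@Cl.mk (nat_lit 0x2000b00070006000b000b0005000b00090005000500090005000a000e0007) (nat_lit 0x700610340030740) (nat_lit 16) Lb.e (@T16.mk En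
    (@En.n l61 (nat_lit 8008) (nat_lit 6) (nat_lit 7))
    (@En.n l29632 (nat_lit 8020) (nat_lit 1) (nat_lit 14))
    (@En.n l14384 (nat_lit 12257) (nat_lit 2) (nat_lit 10))
    (@En.n l42356 (nat_lit 10994) (nat_lit 3) (nat_lit 5))
    (@En.n l38348 (nat_lit 9626) (nat_lit 4) (nat_lit 9))
    (@En.n l42357 (nat_lit 8005) (nat_lit 11) (nat_lit 5))
    (@En.n l12811 (nat_lit 11583) (nat_lit 6) (nat_lit 5))
    (@En.i (nat_lit 7081) (nat_lit 8) (nat_lit 9))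
    (@En.n l42358 (nat_lit 8073) (nat_lit 9) (nat_lit 11))
    (@En.n l29632 (nat_lit 8016) (nat_lit 9) (nat_lit 5))
    (@En.n l8772 (nat_lit 5747) (nat_lit 5) (nat_lit 11))
    (@En.n l15658 (nat_lit 11317) (nat_lit 12) (nat_lit 11))
    (@En.n l10179 (nat_lit 11313) (nat_lit 13) (nat_lit 6))
    (@En.n l42359 (nat_lit 11339) (nat_lit 14) (nat_lit 7))
    (@En.n l38530 (nat_lit 11398) (nat_lit 4) (nat_lit 11))
    (@En.n l18 (nat_lit 8006) (nat_lit 15) (nat_lit 2))))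
  (@Cl.mk (nat_lit 0x20006000b000a000a0006000a0005000b00060006000a00060005000e000a) (nat_lit 0x276030800500a6) (nat_lit 16) Lb.e (@T16.mk En
    (@En.n l22639 (nat_lit 8008) (nat_lit 1) (nat_lit 10))
    (@En.n l1723 (nat_lit 5149) (nat_lit 1) (nat_lit 14))
    (@En.n l22640 (nat_lit 11327) (nat_lit 2) (nat_lit 5))
    (@En.n l9714 (nat_lit 9346) (nat_lit 3) (nat_lit 6))
    (@En.i (nat_lit 11490) (nat_lit 4) (nat_lit 10))
    (@En.n l8766 (nat_lit 12526) (nat_lit 5) (nat_lit 6))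
    (@En.n l17324 (nat_lit 8017) (nat_lit 6) (nat_lit 6))
    (@En.n l12646 (nat_lit 12083) (nat_lit 8) (nat_lit 11))
    (@En.n l16306 (nat_lit 7997) (nat_lit 8) (nat_lit 5))
    (@En.n l22641 (nat_lit 7164) (nat_lit 10) (nat_lit 10))
    (@En.n l9943 (nat_lit 11816) (nat_lit 11) (nat_lit 6))
    (@En.n l22642 (nat_lit 8005) (nat_lit 12) (nat_lit 10))
    (@En.n l22643 (nat_lit 7676) (nat_lit 13) (nat_lit 10))
    (@En.n l13892 (nat_lit 11568) (nat_lit 14) (nat_lit 11))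
    (@En.n l22644 (nat_lit 11498) (nat_lit 13) (nat_lit 6))
    (@En.n l50 (nat_lit 8007) (nat_lit 15) (nat_lit 2))))
  (@Cl.mk (nat_lit 0x5000a0009000900060006000a0006000b00070007000b00060005000a000a) (nat_lit 0x615004080070050) (nat_lit 16) Lb.e (@T16.mk En
    (@En.n l619 (nat_lit 8014) (nat_lit 6) (nat_lit 10))
    (@En.i (nat_lit 10954) (nat_lit 10) (nat_lit 10))
    (@En.n l77 (nat_lit 11328) (nat_lit 11) (nat_lit 5))
    (@En.n l38190 (nat_lit 9342) (nat_lit 0) (nat_lit 6))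
    (@En.n l16528 (nat_lit 11402) (nat_lit 8) (nat_lit 11))
    (@En.n l38191 (nat_lit 8015) (nat_lit 9) (nat_lit 7))
    (@En.n l38192 (nat_lit 8009) (nat_lit 6) (nat_lit 7))
    (@En.n l38193 (nat_lit 10998) (nat_lit 9) (nat_lit 11))
    (@En.n l38194 (nat_lit 8010) (nat_lit 5) (nat_lit 6))
    (@En.n l38061 (nat_lit 9627) (nat_lit 9) (nat_lit 10))
    (@En.n l16528 (nat_lit 8007) (nat_lit 10) (nat_lit 6))
    (@En.i (nat_lit 67) (nat_lit 0) (nat_lit 6))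
    (@En.n l2687 (nat_lit 8006) (nat_lit 7) (nat_lit 9))
    (@En.i (nat_lit 7088) (nat_lit 7) (nat_lit 9))
    (@En.n l38195 (nat_lit 11544) (nat_lit 10) (nat_lit 10))
    (@En.n l38196 (nat_lit 8009) (nat_lit 3) (nat_lit 5))))
  (@Cl.mk (nat_lit 0x5000900090006000a00070007000b000700070006000b0005000a00090009) (nat_lit 0x700800700040100) (nat_lit 16) Lb.e (@T16.mk En
    (@En.n l8045 (nat_lit 8016) (nat_lit 7) (nat_lit 9))
    (@En.n l43632 (nat_lit 10001) (nat_lit 7) (nat_lit 9))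
    (@En.n l43633 (nat_lit 45) (nat_lit 2) (nat_lit 10))
    (@En.n l43634 (nat_lit 5159) (nat_lit 15) (nat_lit 5))
    (@En.n l43635 (nat_lit 11405) (nat_lit 9) (nat_lit 11))
    (@En.n l37064 (nat_lit 11245) (nat_lit 10) (nat_lit 6))
    (@En.n l43636 (nat_lit 5860) (nat_lit 9) (nat_lit 7))
    (@En.n l43637 (nat_lit 8012) (nat_lit 7) (nat_lit 7))
    (@En.n l39622 (nat_lit 10868) (nat_lit 8) (nat_lit 11))
    (@En.n l43638 (nat_lit 8017) (nat_lit 9) (nat_lit 7))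
    (@En.n l43635 (nat_lit 8010) (nat_lit 6) (nat_lit 7))
    (@En.n l43639 (nat_lit 6474) (nat_lit 9) (nat_lit 10))
    (@En.n l43640 (nat_lit 8011) (nat_lit 8) (nat_lit 6))
    (@En.n l77 (nat_lit 11001) (nat_lit 7) (nat_lit 9))
    (@En.i (nat_lit 10964) (nat_lit 10) (nat_lit 9))
    (@En.n l43641 (nat_lit 8010) (nat_lit 15) (nat_lit 5))))
  (@Cl.mk (nat_lit 0x5000900090005000a0006000a000a000700070006000b00060006000b000a) (nat_lit 0x370308400060025) (nat_lit 16) Lb.e (@T16.mk En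
    (@En.i (nat_lit 10116) (nat_lit 6) (nat_lit 10))
    (@En.n l32474 (nat_lit 10344) (nat_lit 1) (nat_lit 11))
    (@En.n l18 (nat_lit 7719) (nat_lit 10) (nat_lit 6))
    (@En.n l32475 (nat_lit 8012) (nat_lit 6) (nat_lit 6))
    (@En.n l3548 (nat_lit 10992) (nat_lit 9) (nat_lit 11))
    (@En.n l32476 (nat_lit 7105) (nat_lit 10) (nat_lit 6))
    (@En.n l3 (nat_lit 7997) (nat_lit 9) (nat_lit 7))
    (@En.n l32477 (nat_lit 8013) (nat_lit 7) (nat_lit 7))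
    (@En.n l32478 (nat_lit 10994) (nat_lit 6) (nat_lit 10))
    (@En.n l32479 (nat_lit 9883) (nat_lit 9) (nat_lit 10))
    (@En.n l32480 (nat_lit 37) (nat_lit 2) (nat_lit 6))
    (@En.n l32481 (nat_lit 5608) (nat_lit 10) (nat_lit 10))
    (@En.n l32482 (nat_lit 8011) (nat_lit 15) (nat_lit 5))
    (@En.n l32483 (nat_lit 10117) (nat_lit 7) (nat_lit 9))
    (@En.n l32484 (nat_lit 10349) (nat_lit 10) (nat_lit 9))
    (@En.n l3219 (nat_lit 7710) (nat_lit 2) (nat_lit 5))))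
  (@Cl.mk (nat_lit 0x5000a0005000a000a0006000a0006000a00060006000b0006000b0006000a) (nat_lit 0x400004060050506) (nat_lit 16) Lb.e (@T16.mk En
    (@En.n l31133 (nat_lit 11406) (nat_lit 9) (nat_lit 10))
    (@En.n l42389 (nat_lit 6527) (nat_lit 1) (nat_lit 6))
    (@En.n l42390 (nat_lit 11088) (nat_lit 9) (nat_lit 11))
    (@En.n l42391 (nat_lit 8009) (nat_lit 5) (nat_lit 6))
    (@En.n l42392 (nat_lit 11086) (nat_lit 9) (nat_lit 11))
    (@En.n l55 (nat_lit 11089) (nat_lit 10) (nat_lit 6))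
    (@En.n l16216 (nat_lit 8013) (nat_lit 6) (nat_lit 6))
    (@En.i (nat_lit 10851) (nat_lit 9) (nat_lit 10))
    (@En.n l42393 (nat_lit 7988) (nat_lit 1) (nat_lit 6))
    (@En.n l31558 (nat_lit 11154) (nat_lit 9) (nat_lit 10))
    (@En.n l41994 (nat_lit 8011) (nat_lit 1) (nat_lit 6))
    (@En.n l42394 (nat_lit 9780) (nat_lit 6) (nat_lit 10))
    (@En.n l42395 (nat_lit 11084) (nat_lit 10) (nat_lit 10))
    (@En.n l42396 (nat_lit 8008) (nat_lit 2) (nat_lit 5))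
    (@En.n l42397 (nat_lit 11091) (nat_lit 10) (nat_lit 10))
    (@En.n l2038 (nat_lit 10791) (nat_lit 1) (nat_lit 5))))
  (@Cl.mk (nat_lit 0x500090006000a0007000b00080008000700060005000b000a000900080008) (nat_lit 0x100071000034730) (nat_lit 16) Lb.e (@T16.mk En
    (@En.n l42938 (nat_lit 11574) (nat_lit 8) (nat_lit 8))
    (@En.n l36144 (nat_lit 10420) (nat_lit 8) (nat_lit 8))
    (@En.n l42939 (nat_lit 10418) (nat_lit 7) (nat_lit 9))
    (@En.n l42940 (nat_lit 11580) (nat_lit 6) (nat_lit 10))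
    (@En.n l42941 (nat_lit 11079) (nat_lit 10) (nat_lit 11))
    (@En.n l30685 (nat_lit 11288) (nat_lit 11) (nat_lit 5))
    (@En.i (nat_lit 11302) (nat_lit 10) (nat_lit 6))
    (@En.n l42942 (nat_lit 10416) (nat_lit 9) (nat_lit 7))
    (@En.n l38673 (nat_lit 11378) (nat_lit 8) (nat_lit 8))
    (@En.n l42943 (nat_lit 8012) (nat_lit 8) (nat_lit 8))
    (@En.i (nat_lit 10930) (nat_lit 8) (nat_lit 11))
    (@En.n l42944 (nat_lit 8009) (nat_lit 9) (nat_lit 7))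
    (@En.n l42945 (nat_lit 8184) (nat_lit 9) (nat_lit 10))
    (@En.n l36144 (nat_lit 8008) (nat_lit 10) (nat_lit 6))
    (@En.n l42945 (nat_lit 5301) (nat_lit 10) (nat_lit 9))
    (@En.n l42946 (nat_lit 8013) (nat_lit 15) (nat_lit 5))))
  (@Cl.mk (nat_lit 0x500090005000a0006000b0007000b000700060005000b0005000b000a0009) (nat_lit 0x500000500050003) (nat_lit 16) Lb.e (@T16.mk En
    (@En.n l31157 (nat_lit 10705) (nat_lit 7) (nat_lit 9))
    (@En.n l42974 (nat_lit 11790) (nat_lit 6) (nat_lit 10))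
    (@En.n l42975 (nat_lit 11076) (nat_lit 2) (nat_lit 11))
    (@En.n l50 (nat_lit 8012) (nat_lit 5) (nat_lit 5))
    (@En.n l42976 (nat_lit 11092) (nat_lit 0) (nat_lit 11))
    (@En.i (nat_lit 11985) (nat_lit 11) (nat_lit 5))
    (@En.n l31571 (nat_lit 11794) (nat_lit 10) (nat_lit 6))
    (@En.n l42977 (nat_lit 10417) (nat_lit 1) (nat_lit 7))
    (@En.i (nat_lit 11099) (nat_lit 8) (nat_lit 11))
    (@En.n l42974 (nat_lit 8008) (nat_lit 5) (nat_lit 7))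
    (@En.n l31572 (nat_lit 10857) (nat_lit 9) (nat_lit 11))
    (@En.n l42978 (nat_lit 8011) (nat_lit 5) (nat_lit 6))
    (@En.n l19313 (nat_lit 10858) (nat_lit 10) (nat_lit 10))
    (@En.n l42979 (nat_lit 67) (nat_lit 7) (nat_lit 5))
    (@En.n l42980 (nat_lit 11771) (nat_lit 10) (nat_lit 9))
    (@En.n l24574 (nat_lit 10285) (nat_lit 1) (nat_lit 5))))
  (@Cl.mk (nat_lit 0x2000a0007000b00080008000c00060005000a0004000900080008000e0006) (nat_lit 0x505608008055470) (nat_lit 16) Lb.e (@T16.mk En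
    (@En.n l117 (nat_lit 8008) (nat_lit 11) (nat_lit 6))
    (@En.n l20265 (nat_lit 11049) (nat_lit 1) (nat_lit 14))
    (@En.n l2575 (nat_lit 5747) (nat_lit 2) (nat_lit 8))
    (@En.i (nat_lit 7086) (nat_lit 3) (nat_lit 8))
    (@En.i (nat_lit 11546) (nat_lit 4) (nat_lit 9))
    (@En.n l33897 (nat_lit 6522) (nat_lit 5) (nat_lit 4))
    (@En.n l810 (nat_lit 10955) (nat_lit 0) (nat_lit 10))
    (@En.n l77 (nat_lit 7945) (nat_lit 7) (nat_lit 5))
    (@En.n l5646 (nat_lit 10788) (nat_lit 8) (nat_lit 6))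
    (@En.n l31734 (nat_lit 11397) (nat_lit 10) (nat_lit 12))
    (@En.n l12560 (nat_lit 9923) (nat_lit 11) (nat_lit 8))
    (@En.n l6735 (nat_lit 8016) (nat_lit 12) (nat_lit 8))
    (@En.n l33897 (nat_lit 11057) (nat_lit 13) (nat_lit 11))
    (@En.n l24288 (nat_lit 10117) (nat_lit 14) (nat_lit 7))
    (@En.n l43229 (nat_lit 9622) (nat_lit 9) (nat_lit 10))
    (@En.n l11 (nat_lit 8014) (nat_lit 15) (nat_lit 2))))
  (@Cl.mk (nat_lit 0x200070007000b0007000c0007000b000500040009000900050009000e0009) (nat_lit 0x4060600300792) (nat_lit 16) Lb.e (@T16.mk En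
    (@En.n l22627 (nat_lit 8008) (nat_lit 13) (nat_lit 9))
    (@En.n l2038 (nat_lit 6898) (nat_lit 1) (nat_lit 14))
    (@En.n l8689 (nat_lit 11534) (nat_lit 2) (nat_lit 9))
    (@En.n l22628 (nat_lit 8017) (nat_lit 3) (nat_lit 5))
    (@En.n l22629 (nat_lit 9923) (nat_lit 7) (nat_lit 9))
    (@En.n l9606 (nat_lit 11425) (nat_lit 5) (nat_lit 9))
    (@En.n l22630 (nat_lit 9929) (nat_lit 6) (nat_lit 4))
    (@En.n l8874 (nat_lit 11306) (nat_lit 7) (nat_lit 5))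
    (@En.n l22604 (nat_lit 3633) (nat_lit 9) (nat_lit 11))
    (@En.n l22631 (nat_lit 11242) (nat_lit 10) (nat_lit 7))
    (@En.n l22604 (nat_lit 11056) (nat_lit 11) (nat_lit 12))
    (@En.n l22632 (nat_lit 7719) (nat_lit 12) (nat_lit 7))
    (@En.n l22633 (nat_lit 9855) (nat_lit 13) (nat_lit 11))
    (@En.n l61 (nat_lit 12526) (nat_lit 9) (nat_lit 7))
    (@En.n l9864 (nat_lit 10643) (nat_lit 7) (nat_lit 7))
    (@En.n l11 (nat_lit 8015) (nat_lit 15) (nat_lit 2))))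
noncomputable def a501 : T16 Cl := @T16.mk Cl
  (@Cl.mk (nat_lit 0x2000b000800080007000c0005000b000900040008000800050009000e0007) (nat_lit 0x8450509700005c0) (nat_lit 16) Lb.e (@T16.mk En
    (@En.n l29813 (nat_lit 8009) (nat_lit 10) (nat_lit 7))
    (@En.i (nat_lit 5602) (nat_lit 1) (nat_lit 14))
    (@En.n l39804 (nat_lit 6470) (nat_lit 2) (nat_lit 9))
    (@En.n l50 (nat_lit 9780) (nat_lit 3) (nat_lit 5))
    (@En.n l5584 (nat_lit 11035) (nat_lit 8) (nat_lit 8))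
    (@En.n l55 (nat_lit 11551) (nat_lit 5) (nat_lit 8))
    (@En.n l39805 (nat_lit 5271) (nat_lit 6) (nat_lit 4))
    (@En.n l39806 (nat_lit 9998) (nat_lit 0) (nat_lit 9))
    (@En.n l39807 (nat_lit 12289) (nat_lit 9) (nat_lit 11))
    (@En.n l39808 (nat_lit 5157) (nat_lit 9) (nat_lit 5))
    (@En.n l37113 (nat_lit 8043) (nat_lit 11) (nat_lit 12))
    (@En.n l25751 (nat_lit 11250) (nat_lit 12) (nat_lit 7))
    (@En.n l39809 (nat_lit 8036) (nat_lit 8) (nat_lit 8))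
    (@En.n l649 (nat_lit 11574) (nat_lit 14) (nat_lit 8))
    (@En.n l39810 (nat_lit 7553) (nat_lit 4) (nat_lit 11))
    (@En.n l17 (nat_lit 8016) (nat_lit 15) (nat_lit 2))))
  (@Cl.mk (nat_lit 0x20006000a000a0007000b0007000b000600060005000a00050009000e0009) (nat_lit 0x40600040761) (nat_lit 16) Lb.e (@T16.mk En
    (@En.n l38131 (nat_lit 8009) (nat_lit 1) (nat_lit 9))
    (@En.n l38132 (nat_lit 6938) (nat_lit 1) (nat_lit 14))
    (@En.n l21502 (nat_lit 12289) (nat_lit 2) (nat_lit 9))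
    (@En.n l5643 (nat_lit 6496) (nat_lit 3) (nat_lit 5))
    (@En.n l38133 (nat_lit 11428) (nat_lit 4) (nat_lit 10))
    (@En.n l11407 (nat_lit 11246) (nat_lit 5) (nat_lit 5))
    (@En.n l33373 (nat_lit 11686) (nat_lit 6) (nat_lit 6))
    (@En.i (nat_lit 11378) (nat_lit 7) (nat_lit 6))
    (@En.n l5643 (nat_lit 7248) (nat_lit 9) (nat_lit 11))
    (@En.n l38133 (nat_lit 7104) (nat_lit 10) (nat_lit 7))
    (@En.i (nat_lit 8026) (nat_lit 11) (nat_lit 11))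
    (@En.n l742 (nat_lit 11089) (nat_lit 12) (nat_lit 7))
    (@En.n l11408 (nat_lit 12134) (nat_lit 13) (nat_lit 10))
    (@En.n l5801 (nat_lit 11499) (nat_lit 14) (nat_lit 10))
    (@En.i (nat_lit 9884) (nat_lit 13) (nat_lit 6))
    (@En.n l28 (nat_lit 8017) (nat_lit 15) (nat_lit 2))))
  (@Cl.mk (nat_lit 0x2000b0006000c000a000a00050004000b000a00060006000a0005000e0006) (nat_lit 0x5014400450020a0) (nat_lit 16) Lb.e (@T16.mk En
    (@En.n l22266 (nat_lit 6475) (nat_lit 7) (nat_lit 6))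
    (@En.n l601 (nat_lit 7792) (nat_lit 1) (nat_lit 14))
    (@En.n l1003 (nat_lit 10990) (nat_lit 2) (nat_lit 5))
    (@En.i (nat_lit 7123) (nat_lit 3) (nat_lit 10))
    (@En.n l11401 (nat_lit 8023) (nat_lit 10) (nat_lit 6))
    (@En.n l30682 (nat_lit 11159) (nat_lit 5) (nat_lit 6))
    (@En.n l16465 (nat_lit 7052) (nat_lit 6) (nat_lit 10))
    (@En.n l30683 (nat_lit 8006) (nat_lit 8) (nat_lit 11))
    (@En.n l1003 (nat_lit 8019) (nat_lit 8) (nat_lit 4))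
    (@En.n l17 (nat_lit 5600) (nat_lit 9) (nat_lit 5))
    (@En.n l8906 (nat_lit 5745) (nat_lit 6) (nat_lit 10))
    (@En.n l11403 (nat_lit 6540) (nat_lit 12) (nat_lit 10))
    (@En.n l30684 (nat_lit 2914) (nat_lit 13) (nat_lit 12))
    (@En.n l30685 (nat_lit 7177) (nat_lit 14) (nat_lit 6))
    (@En.n l2129 (nat_lit 11400) (nat_lit 4) (nat_lit 11))
    (@En.n l50 (nat_lit 8018) (nat_lit 15) (nat_lit 2))))
  (@Cl.mk (nat_lit 0x2000d0006000c0003000b000b0004000b000a00050005000a0005000e0006) (nat_lit 0x901075076002030) (nat_lit 16) Lb.e (@T16.mk En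
    (@En.i (nat_lit 5174) (nat_lit 4) (nat_lit 6))
    (@En.n l134 (nat_lit 7791) (nat_lit 1) (nat_lit 14))
    (@En.i (nat_lit 8053) (nat_lit 2) (nat_lit 5))
    (@En.n l899 (nat_lit 7131) (nat_lit 3) (nat_lit 10))
    (@En.n l152 (nat_lit 8021) (nat_lit 11) (nat_lit 5))
    (@En.n l7630 (nat_lit 11616) (nat_lit 5) (nat_lit 5))
    (@En.n l870 (nat_lit 7035) (nat_lit 6) (nat_lit 10))
    (@En.n l617 (nat_lit 11561) (nat_lit 8) (nat_lit 11))
    (@En.n l2125 (nat_lit 6547) (nat_lit 8) (nat_lit 4))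
    (@En.n l3536 (nat_lit 8046) (nat_lit 5) (nat_lit 11))
    (@En.n l9182 (nat_lit 6549) (nat_lit 11) (nat_lit 11))
    (@En.n l2869 (nat_lit 8020) (nat_lit 11) (nat_lit 3))
    (@En.n l766 (nat_lit 2907) (nat_lit 0) (nat_lit 12))
    (@En.i (nat_lit 7176) (nat_lit 14) (nat_lit 6))
    (@En.i (nat_lit 10852) (nat_lit 2) (nat_lit 13))
    (@En.n l7 (nat_lit 8019) (nat_lit 15) (nat_lit 2))))
  (@Cl.mk (nat_lit 0x2000d000b00070003000b000b0005000b000a0005000500090005000e0006) (nat_lit 0x960075076002030) (nat_lit 16) Lb.e (@T16.mk En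
    (@En.n l50 (nat_lit 6474) (nat_lit 4) (nat_lit 6))
    (@En.n l16195 (nat_lit 7793) (nat_lit 1) (nat_lit 14))
    (@En.n l50 (nat_lit 10881) (nat_lit 2) (nat_lit 5))
    (@En.n l9938 (nat_lit 7134) (nat_lit 3) (nat_lit 9))
    (@En.n l55 (nat_lit 8022) (nat_lit 11) (nat_lit 5))
    (@En.i (nat_lit 11617) (nat_lit 5) (nat_lit 5))
    (@En.n l39325 (nat_lit 7036) (nat_lit 6) (nat_lit 10))
    (@En.n l476 (nat_lit 4178) (nat_lit 8) (nat_lit 11))
    (@En.i (nat_lit 5602) (nat_lit 8) (nat_lit 5))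
    (@En.n l28928 (nat_lit 5741) (nat_lit 5) (nat_lit 11))
    (@En.n l9921 (nat_lit 5438) (nat_lit 11) (nat_lit 11))
    (@En.n l1865 (nat_lit 8019) (nat_lit 11) (nat_lit 3))
    (@En.n l2038 (nat_lit 4898) (nat_lit 0) (nat_lit 7))
    (@En.n l9938 (nat_lit 8018) (nat_lit 14) (nat_lit 11))
    (@En.i (nat_lit 10851) (nat_lit 2) (nat_lit 13))
    (@En.n l17 (nat_lit 8020) (nat_lit 15) (nat_lit 2))))
  (@Cl.mk (nat_lit 0x20005000c000b0005000a0004000e00050002000d0006000b0003000e000b) (nat_lit 0x85010800701058) (nat_lit 16) Lb.e (@T16.mk En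
    (@En.i (nat_lit 8019) (nat_lit 10) (nat_lit 11))
    (@En.i (nat_lit 8023) (nat_lit 1) (nat_lit 14))
    (@En.n l2869 (nat_lit 8022) (nat_lit 2) (nat_lit 3))
    (@En.i (nat_lit 2902) (nat_lit 3) (nat_lit 11))
    (@En.i (nat_lit 7172) (nat_lit 4) (nat_lit 6))
    (@En.i (nat_lit 10856) (nat_lit 6) (nat_lit 13))
    (@En.n l7 (nat_lit 8021) (nat_lit 6) (nat_lit 2))
    (@En.n l5246 (nat_lit 8024) (nat_lit 7) (nat_lit 5))
    (@En.n l134 (nat_lit 7787) (nat_lit 9) (nat_lit 14))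
    (@En.i (nat_lit 10986) (nat_lit 9) (nat_lit 4))
    (@En.i (nat_lit 3641) (nat_lit 11) (nat_lit 10))
    (@En.i (nat_lit 11624) (nat_lit 4) (nat_lit 5))
    (@En.n l55 (nat_lit 7058) (nat_lit 13) (nat_lit 11))
    (@En.n l3337 (nat_lit 11564) (nat_lit 14) (nat_lit 12))
    (@En.i (nat_lit 5877) (nat_lit 13) (nat_lit 5))
    (@En.n l3 (nat_lit 8021) (nat_lit 15) (nat_lit 2))))
  (@Cl.mk (nat_lit 0x20006000c000b000500090004000e00050002000d000a00070003000e000b) (nat_lit 0x82010800750058) (nat_lit 16) Lb.e (@T16.mk En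
    (@En.i (nat_lit 8020) (nat_lit 10) (nat_lit 11))
    (@En.i (nat_lit 5070) (nat_lit 1) (nat_lit 14))
    (@En.n l1865 (nat_lit 8021) (nat_lit 2) (nat_lit 3))
    (@En.n l2038 (nat_lit 4893) (nat_lit 3) (nat_lit 7))
    (@En.n l1867 (nat_lit 8023) (nat_lit 4) (nat_lit 10))
    (@En.i (nat_lit 10855) (nat_lit 6) (nat_lit 13))
    (@En.n l17 (nat_lit 8022) (nat_lit 6) (nat_lit 2))
    (@En.n l50 (nat_lit 8026) (nat_lit 7) (nat_lit 5))
    (@En.n l7145 (nat_lit 7788) (nat_lit 9) (nat_lit 14))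
    (@En.n l50 (nat_lit 10931) (nat_lit 9) (nat_lit 4))
    (@En.n l2038 (nat_lit 663) (nat_lit 11) (nat_lit 9))
    (@En.i (nat_lit 11625) (nat_lit 4) (nat_lit 5))
    (@En.n l217 (nat_lit 7062) (nat_lit 13) (nat_lit 11))
    (@En.n l476 (nat_lit 11565) (nat_lit 14) (nat_lit 12))
    (@En.i (nat_lit 6396) (nat_lit 7) (nat_lit 6))
    (@En.n l28 (nat_lit 8022) (nat_lit 15) (nat_lit 2))))
  (@Cl.mk (nat_lit 0x200060005000c000b0006000a0004000e00050002000a0006000b000e000a) (nat_lit 0x86010a0040145) (nat_lit 16) Lb.e (@T16.mk En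
    (@En.n l5646 (nat_lit 8018) (nat_lit 11) (nat_lit 10))
    (@En.i (nat_lit 5071) (nat_lit 12) (nat_lit 14))
    (@En.n l9385 (nat_lit 2903) (nat_lit 2) (nat_lit 11))
    (@En.n l7611 (nat_lit 7171) (nat_lit 14) (nat_lit 6))
    (@En.i (nat_lit 11494) (nat_lit 4) (nat_lit 10))
    (@En.n l7 (nat_lit 8023) (nat_lit 5) (nat_lit 2))
    (@En.n l5246 (nat_lit 8025) (nat_lit 6) (nat_lit 5))
    (@En.n l134 (nat_lit 7789) (nat_lit 8) (nat_lit 14))
    (@En.i (nat_lit 10987) (nat_lit 8) (nat_lit 4))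
    (@En.n l7611 (nat_lit 3647) (nat_lit 10) (nat_lit 10))
    (@En.i (nat_lit 12222) (nat_lit 4) (nat_lit 6))
    (@En.n l55 (nat_lit 7056) (nat_lit 12) (nat_lit 11))
    (@En.n l3337 (nat_lit 8005) (nat_lit 13) (nat_lit 12))
    (@En.n l17 (nat_lit 8021) (nat_lit 14) (nat_lit 5))
    (@En.i (nat_lit 6248) (nat_lit 8) (nat_lit 6))
    (@En.n l3 (nat_lit 8023) (nat_lit 15) (nat_lit 2))))
  (@Cl.mk (nat_lit 0x20005000b000b000b0006000b000500050005000d0005000b0003000e000a) (nat_lit 0x30607000802073) (nat_lit 16) Lb.e (@T16.mk En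
    (@En.n l5403 (nat_lit 5174) (nat_lit 14) (nat_lit 10))
    (@En.i (nat_lit 8025) (nat_lit 1) (nat_lit 14))
    (@En.n l10798 (nat_lit 8026) (nat_lit 2) (nat_lit 3))
    (@En.n l11080 (nat_lit 2969) (nat_lit 3) (nat_lit 11))
    (@En.i (nat_lit 7175) (nat_lit 4) (nat_lit 5))
    (@En.n l24720 (nat_lit 5295) (nat_lit 6) (nat_lit 13))
    (@En.n l1578 (nat_lit 8159) (nat_lit 6) (nat_lit 5))
    (@En.n l575 (nat_lit 8027) (nat_lit 7) (nat_lit 5))
    (@En.n l5399 (nat_lit 8166) (nat_lit 8) (nat_lit 5))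
    (@En.n l3872 (nat_lit 3847) (nat_lit 10) (nat_lit 11))
    (@En.n l810 (nat_lit 11111) (nat_lit 11) (nat_lit 6))
    (@En.n l565 (nat_lit 8021) (nat_lit 12) (nat_lit 11))
    (@En.n l5402 (nat_lit 8075) (nat_lit 13) (nat_lit 11))
    (@En.n l24721 (nat_lit 11563) (nat_lit 14) (nat_lit 11))
    (@En.i (nat_lit 5880) (nat_lit 13) (nat_lit 5))
    (@En.n l3 (nat_lit 8024) (nat_lit 15) (nat_lit 2))))
  (@Cl.mk (nat_lit 0x200060005000b000b000b0007000b000500050005000a0005000b000e0009) (nat_lit 0x3270700040764) (nat_lit 16) Lb.e (@T16.mk En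
    (@En.n l10639 (nat_lit 6475) (nat_lit 2) (nat_lit 9))
    (@En.n l3868 (nat_lit 5017) (nat_lit 4) (nat_lit 14))
    (@En.n l21895 (nat_lit 2967) (nat_lit 2) (nat_lit 11))
    (@En.n l16429 (nat_lit 5854) (nat_lit 3) (nat_lit 5))
    (@En.n l32131 (nat_lit 11447) (nat_lit 4) (nat_lit 10))
    (@En.n l32132 (nat_lit 8160) (nat_lit 5) (nat_lit 5))
    (@En.n l575 (nat_lit 8029) (nat_lit 6) (nat_lit 5))
    (@En.n l5399 (nat_lit 8167) (nat_lit 7) (nat_lit 5))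
    (@En.n l3872 (nat_lit 3068) (nat_lit 9) (nat_lit 11))
    (@En.n l32133 (nat_lit 11210) (nat_lit 10) (nat_lit 7))
    (@En.n l565 (nat_lit 8023) (nat_lit 11) (nat_lit 11))
    (@En.n l5402 (nat_lit 8076) (nat_lit 12) (nat_lit 11))
    (@En.n l32131 (nat_lit 8007) (nat_lit 13) (nat_lit 11))
    (@En.n l17 (nat_lit 8024) (nat_lit 14) (nat_lit 5))
    (@En.i (nat_lit 6355) (nat_lit 13) (nat_lit 6))
    (@En.n l3 (nat_lit 8025) (nat_lit 15) (nat_lit 2))))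
  (@Cl.mk (nat_lit 0x20006000b000b000b0006000a000500050005000d000a00060003000e000a) (nat_lit 0x80304000950043) (nat_lit 16) Lb.e (@T16.mk En
    (@En.i (nat_lit 6474) (nat_lit 14) (nat_lit 10))
    (@En.i (nat_lit 5020) (nat_lit 1) (nat_lit 14))
    (@En.n l28939 (nat_lit 8024) (nat_lit 2) (nat_lit 3))
    (@En.n l5643 (nat_lit 4779) (nat_lit 3) (nat_lit 6))
    (@En.n l11623 (nat_lit 8025) (nat_lit 4) (nat_lit 10))
    (@En.n l13919 (nat_lit 5300) (nat_lit 6) (nat_lit 13))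
    (@En.n l11407 (nat_lit 8158) (nat_lit 6) (nat_lit 5))
    (@En.n l24250 (nat_lit 8028) (nat_lit 7) (nat_lit 5))
    (@En.i (nat_lit 8170) (nat_lit 8) (nat_lit 5))
    (@En.n l5643 (nat_lit 3903) (nat_lit 10) (nat_lit 10))
    (@En.n l18262 (nat_lit 11110) (nat_lit 11) (nat_lit 6))
    (@En.n l742 (nat_lit 8022) (nat_lit 12) (nat_lit 11))
    (@En.n l14697 (nat_lit 8074) (nat_lit 13) (nat_lit 11))
    (@En.n l3517 (nat_lit 11566) (nat_lit 14) (nat_lit 11))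
    (@En.i (nat_lit 6297) (nat_lit 13) (nat_lit 6))
    (@En.n l28 (nat_lit 8026) (nat_lit 15) (nat_lit 2))))
  (@Cl.mk (nat_lit 0x20005000e000b0002000c0007000c00050004000d0004000b0003000e0009) (nat_lit 0x74070400906055) (nat_lit 16) Lb.e (@T16.mk En
    (@En.i (nat_lit 6589) (nat_lit 4) (nat_lit 9))
    (@En.i (nat_lit 8029) (nat_lit 1) (nat_lit 14))
    (@En.i (nat_lit 8028) (nat_lit 2) (nat_lit 3))
    (@En.i (nat_lit 3230) (nat_lit 3) (nat_lit 11))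
    (@En.i (nat_lit 7733) (nat_lit 4) (nat_lit 4))
    (@En.n l2669 (nat_lit 6970) (nat_lit 6) (nat_lit 13))
    (@En.i (nat_lit 5542) (nat_lit 6) (nat_lit 4))
    (@En.i (nat_lit 8030) (nat_lit 7) (nat_lit 5))
    (@En.n l3872 (nat_lit 3856) (nat_lit 9) (nat_lit 12))
    (@En.n l810 (nat_lit 11212) (nat_lit 14) (nat_lit 7))
    (@En.n l28 (nat_lit 7781) (nat_lit 11) (nat_lit 12))
    (@En.n l11 (nat_lit 8027) (nat_lit 11) (nat_lit 2))
    (@En.i (nat_lit 8024) (nat_lit 13) (nat_lit 11))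
    (@En.i (nat_lit 6460) (nat_lit 1) (nat_lit 14))
    (@En.i (nat_lit 7501) (nat_lit 13) (nat_lit 5))
    (@En.n l3 (nat_lit 8027) (nat_lit 15) (nat_lit 2))))
  (@Cl.mk (nat_lit 0x20006000e000b0002000c0007000b00050004000d000a00050003000e0009) (nat_lit 0x69070100940056) (nat_lit 16) Lb.e (@T16.mk En
    (@En.i (nat_lit 7737) (nat_lit 4) (nat_lit 9))
    (@En.i (nat_lit 7136) (nat_lit 1) (nat_lit 14))
    (@En.n l18 (nat_lit 8027) (nat_lit 2) (nat_lit 3))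
    (@En.n l10795 (nat_lit 5251) (nat_lit 3) (nat_lit 5))
    (@En.n l61 (nat_lit 8029) (nat_lit 4) (nat_lit 10))
    (@En.n l29021 (nat_lit 6980) (nat_lit 6) (nat_lit 13))
    (@En.i (nat_lit 5547) (nat_lit 6) (nat_lit 4))
    (@En.n l8806 (nat_lit 10933) (nat_lit 7) (nat_lit 5))
    (@En.n l10795 (nat_lit 3089) (nat_lit 9) (nat_lit 11))
    (@En.n l810 (nat_lit 11215) (nat_lit 14) (nat_lit 7))
    (@En.n l22950 (nat_lit 7785) (nat_lit 11) (nat_lit 12))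
    (@En.n l11 (nat_lit 8028) (nat_lit 11) (nat_lit 2))
    (@En.n l10798 (nat_lit 8026) (nat_lit 13) (nat_lit 11))
    (@En.n l29022 (nat_lit 6459) (nat_lit 1) (nat_lit 14))
    (@En.i (nat_lit 7527) (nat_lit 2) (nat_lit 6))
    (@En.n l3 (nat_lit 8028) (nat_lit 15) (nat_lit 2))))
  (@Cl.mk (nat_lit 0x200060005000e000b0002000c0008000c00050004000a0004000b000e0008) (nat_lit 0x7408440030644) (nat_lit 16) Lb.e (@T16.mk En
    (@En.n l5646 (nat_lit 8032) (nat_lit 5) (nat_lit 8))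
    (@En.i (nat_lit 7141) (nat_lit 7) (nat_lit 14))
    (@En.i (nat_lit 2973) (nat_lit 2) (nat_lit 11))
    (@En.i (nat_lit 7734) (nat_lit 3) (nat_lit 4))
    (@En.n l6606 (nat_lit 11670) (nat_lit 10) (nat_lit 10))
    (@En.i (nat_lit 5546) (nat_lit 5) (nat_lit 4))
    (@En.i (nat_lit 8031) (nat_lit 6) (nat_lit 5))
    (@En.n l3872 (nat_lit 4014) (nat_lit 8) (nat_lit 12))
    (@En.n l6606 (nat_lit 11211) (nat_lit 14) (nat_lit 8))
    (@En.n l28 (nat_lit 7786) (nat_lit 10) (nat_lit 12))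
    (@En.n l11 (nat_lit 8029) (nat_lit 10) (nat_lit 2))
    (@En.i (nat_lit 8025) (nat_lit 12) (nat_lit 11))
    (@En.i (nat_lit 11686) (nat_lit 13) (nat_lit 14))
    (@En.n l17 (nat_lit 8027) (nat_lit 14) (nat_lit 5))
    (@En.i (nat_lit 6358) (nat_lit 3) (nat_lit 6))
    (@En.n l3 (nat_lit 8029) (nat_lit 15) (nat_lit 2))))
  (@Cl.mk (nat_lit 0x20005000d000b00090003000d000800050003000d0007000b0003000e0008) (nat_lit 0x55007500602050) (nat_lit 16) Lb.e (@T16.mk En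
    (@En.i (nat_lit 10926) (nat_lit 14) (nat_lit 8))
    (@En.i (nat_lit 8031) (nat_lit 1) (nat_lit 14))
    (@En.n l8806 (nat_lit 10933) (nat_lit 2) (nat_lit 3))
    (@En.i (nat_lit 3613) (nat_lit 3) (nat_lit 11))
    (@En.i (nat_lit 12073) (nat_lit 4) (nat_lit 7))
    (@En.n l25675 (nat_lit 5803) (nat_lit 6) (nat_lit 13))
    (@En.i (nat_lit 10939) (nat_lit 6) (nat_lit 3))
    (@En.n l8163 (nat_lit 8021) (nat_lit 7) (nat_lit 5))
    (@En.n l25675 (nat_lit 11764) (nat_lit 9) (nat_lit 8))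
    (@En.n l565 (nat_lit 12143) (nat_lit 10) (nat_lit 13))
    (@En.n l8163 (nat_lit 10934) (nat_lit 10) (nat_lit 3))
    (@En.i (nat_lit 11669) (nat_lit 12) (nat_lit 9))
    (@En.n l5399 (nat_lit 8166) (nat_lit 13) (nat_lit 11))
    (@En.n l10637 (nat_lit 11464) (nat_lit 14) (nat_lit 13))
    (@En.i (nat_lit 8908) (nat_lit 13) (nat_lit 5))
    (@En.n l3 (nat_lit 8030) (nat_lit 15) (nat_lit 2))))
  (@Cl.mk (nat_lit 0x200060005000d000b00090003000d000900050003000a0007000b000e0007) (nat_lit 0x6640800020240) (nat_lit 16) Lb.e (@T16.mk En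
    (@En.n l5646 (nat_lit 10924) (nat_lit 6) (nat_lit 7))
    (@En.n l3868 (nat_lit 9016) (nat_lit 4) (nat_lit 14))
    (@En.n l8161 (nat_lit 2863) (nat_lit 2) (nat_lit 11))
    (@En.n l16429 (nat_lit 12360) (nat_lit 3) (nat_lit 7))
    (@En.n l31775 (nat_lit 10867) (nat_lit 4) (nat_lit 10))
    (@En.n l2582 (nat_lit 10943) (nat_lit 5) (nat_lit 3))
    (@En.n l8163 (nat_lit 8023) (nat_lit 6) (nat_lit 5))
    (@En.n l25675 (nat_lit 10369) (nat_lit 8) (nat_lit 9))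
    (@En.n l565 (nat_lit 12142) (nat_lit 9) (nat_lit 13))
    (@En.n l31776 (nat_lit 10942) (nat_lit 9) (nat_lit 3))
    (@En.i (nat_lit 11666) (nat_lit 11) (nat_lit 9))
    (@En.n l5399 (nat_lit 8167) (nat_lit 12) (nat_lit 11))
    (@En.n l31777 (nat_lit 11297) (nat_lit 13) (nat_lit 13))
    (@En.n l17 (nat_lit 8030) (nat_lit 14) (nat_lit 5))
    (@En.i (nat_lit 10170) (nat_lit 13) (nat_lit 6))
    (@En.n l3 (nat_lit 8031) (nat_lit 15) (nat_lit 2))))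
noncomputable def a502 : T16 Cl := @T16.mk Cl
  (@Cl.mk (nat_lit 0x2000b00080008000c00060005000b0004000c0008000800050004000e000a) (nat_lit 0x745400407330018) (nat_lit 16) Lb.e (@T16.mk En
    (@En.n l8631 (nat_lit 6475) (nat_lit 14) (nat_lit 10))
    (@En.i (nat_lit 5860) (nat_lit 1) (nat_lit 14))
    (@En.n l1003 (nat_lit 6589) (nat_lit 2) (nat_lit 4))
    (@En.n l17 (nat_lit 7993) (nat_lit 3) (nat_lit 5))
    (@En.n l9878 (nat_lit 8033) (nat_lit 4) (nat_lit 8))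
    (@En.n l97 (nat_lit 6580) (nat_lit 5) (nat_lit 8))
    (@En.n l19337 (nat_lit 3220) (nat_lit 7) (nat_lit 12))
    (@En.n l9875 (nat_lit 7732) (nat_lit 7) (nat_lit 4))
    (@En.n l32140 (nat_lit 11664) (nat_lit 9) (nat_lit 11))
    (@En.i (nat_lit 5653) (nat_lit 9) (nat_lit 5))
    (@En.i (nat_lit 10924) (nat_lit 11) (nat_lit 6))
    (@En.i (nat_lit 7911) (nat_lit 12) (nat_lit 12))
    (@En.n l11401 (nat_lit 8029) (nat_lit 8) (nat_lit 8))
    (@En.n l32141 (nat_lit 12078) (nat_lit 14) (nat_lit 8))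
    (@En.n l5825 (nat_lit 5692) (nat_lit 12) (nat_lit 11))
    (@En.n l28 (nat_lit 8032) (nat_lit 15) (nat_lit 2))))
  (@Cl.mk (nat_lit 0x2000a000e00080002000c00070006000c0004000d000800040003000e0009) (nat_lit 0x195050040720097) (nat_lit 16) Lb.e (@T16.mk En
    (@En.n l20808 (nat_lit 6468) (nat_lit 4) (nat_lit 9))
    (@En.i (nat_lit 8036) (nat_lit 1) (nat_lit 14))
    (@En.n l11960 (nat_lit 8034) (nat_lit 2) (nat_lit 3))
    (@En.i (nat_lit 5695) (nat_lit 3) (nat_lit 4))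
    (@En.n l25672 (nat_lit 6577) (nat_lit 4) (nat_lit 8))
    (@En.n l33204 (nat_lit 3218) (nat_lit 10) (nat_lit 13))
    (@En.i (nat_lit 8038) (nat_lit 6) (nat_lit 4))
    (@En.n l4021 (nat_lit 11669) (nat_lit 8) (nat_lit 12))
    (@En.i (nat_lit 5647) (nat_lit 8) (nat_lit 6))
    (@En.n l15816 (nat_lit 12510) (nat_lit 14) (nat_lit 7))
    (@En.n l25196 (nat_lit 7914) (nat_lit 11) (nat_lit 12))
    (@En.n l28 (nat_lit 8033) (nat_lit 11) (nat_lit 2))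
    (@En.n l7477 (nat_lit 8032) (nat_lit 13) (nat_lit 8))
    (@En.n l5577 (nat_lit 12394) (nat_lit 1) (nat_lit 14))
    (@En.n l20809 (nat_lit 5686) (nat_lit 2) (nat_lit 10))
    (@En.n l3 (nat_lit 8033) (nat_lit 15) (nat_lit 2))))
  (@Cl.mk (nat_lit 0x2000a000e00070002000c00070006000d0004000d000300090003000e0009) (nat_lit 0x190060040604097) (nat_lit 16) Lb.e (@T16.mk En
    (@En.n l13163 (nat_lit 6469) (nat_lit 4) (nat_lit 9))
    (@En.i (nat_lit 9864) (nat_lit 1) (nat_lit 14))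
    (@En.n l5567 (nat_lit 8033) (nat_lit 2) (nat_lit 3))
    (@En.i (nat_lit 6905) (nat_lit 3) (nat_lit 9))
    (@En.i (nat_lit 8035) (nat_lit 4) (nat_lit 3))
    (@En.i (nat_lit 3217) (nat_lit 0) (nat_lit 13))
    (@En.n l24931 (nat_lit 8037) (nat_lit 6) (nat_lit 4))
    (@En.n l1393 (nat_lit 5797) (nat_lit 8) (nat_lit 13))
    (@En.i (nat_lit 5649) (nat_lit 8) (nat_lit 6))
    (@En.i (nat_lit 12242) (nat_lit 14) (nat_lit 7))
    (@En.n l3130 (nat_lit 7915) (nat_lit 11) (nat_lit 12))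
    (@En.n l28 (nat_lit 8034) (nat_lit 11) (nat_lit 2))
    (@En.n l982 (nat_lit 6589) (nat_lit 13) (nat_lit 7))
    (@En.n l4160 (nat_lit 12395) (nat_lit 1) (nat_lit 14))
    (@En.n l11325 (nat_lit 5685) (nat_lit 2) (nat_lit 10))
    (@En.n l3 (nat_lit 8034) (nat_lit 15) (nat_lit 2))))
  (@Cl.mk (nat_lit 0x2000a000e00070002000b00070006000d000c0005000300090004000e0009) (nat_lit 0x180040045004097) (nat_lit 16) Lb.e (@T16.mk En
    (@En.n l13163 (nat_lit 6470) (nat_lit 4) (nat_lit 9))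
    (@En.n l8979 (nat_lit 9860) (nat_lit 1) (nat_lit 14))
    (@En.n l5567 (nat_lit 5696) (nat_lit 6) (nat_lit 4))
    (@En.n l7406 (nat_lit 7725) (nat_lit 3) (nat_lit 9))
    (@En.n l18 (nat_lit 8034) (nat_lit 4) (nat_lit 3))
    (@En.n l5567 (nat_lit 4827) (nat_lit 0) (nat_lit 5))
    (@En.n l10557 (nat_lit 8033) (nat_lit 7) (nat_lit 12))
    (@En.n l1392 (nat_lit 5798) (nat_lit 8) (nat_lit 13))
    (@En.i (nat_lit 4668) (nat_lit 8) (nat_lit 6))
    (@En.n l11491 (nat_lit 12234) (nat_lit 14) (nat_lit 7))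
    (@En.n l26833 (nat_lit 7910) (nat_lit 11) (nat_lit 11))
    (@En.n l28 (nat_lit 8035) (nat_lit 11) (nat_lit 2))
    (@En.n l982 (nat_lit 7737) (nat_lit 13) (nat_lit 7))
    (@En.n l11491 (nat_lit 12396) (nat_lit 1) (nat_lit 14))
    (@En.n l11325 (nat_lit 5684) (nat_lit 2) (nat_lit 10))
    (@En.n l3 (nat_lit 8035) (nat_lit 15) (nat_lit 2))))
  (@Cl.mk (nat_lit 0x20006000a000e00080002000c00080006000c0004000a00080004000e0008) (nat_lit 0x22106404076081) (nat_lit 16) Lb.e (@T16.mk En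
    (@En.n l25192 (nat_lit 8016) (nat_lit 5) (nat_lit 8))
    (@En.n l12440 (nat_lit 9863) (nat_lit 1) (nat_lit 14))
    (@En.i (nat_lit 5272) (nat_lit 2) (nat_lit 4))
    (@En.n l25193 (nat_lit 9996) (nat_lit 3) (nat_lit 8))
    (@En.n l25194 (nat_lit 12104) (nat_lit 10) (nat_lit 10))
    (@En.n l4749 (nat_lit 6009) (nat_lit 5) (nat_lit 4))
    (@En.n l4021 (nat_lit 11666) (nat_lit 7) (nat_lit 12))
    (@En.i (nat_lit 11221) (nat_lit 7) (nat_lit 6))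
    (@En.n l25195 (nat_lit 12793) (nat_lit 14) (nat_lit 8))
    (@En.n l25196 (nat_lit 7547) (nat_lit 10) (nat_lit 12))
    (@En.n l28 (nat_lit 8036) (nat_lit 10) (nat_lit 2))
    (@En.n l7477 (nat_lit 5860) (nat_lit 12) (nat_lit 8))
    (@En.n l23694 (nat_lit 5795) (nat_lit 13) (nat_lit 14))
    (@En.n l9136 (nat_lit 8035) (nat_lit 14) (nat_lit 10))
    (@En.i (nat_lit 11175) (nat_lit 3) (nat_lit 6))
    (@En.n l3 (nat_lit 8036) (nat_lit 15) (nat_lit 2))))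
  (@Cl.mk (nat_lit 0x20009000e00070002000c000b000800070004000d000500090003000e0008) (nat_lit 0x2700350006030c6) (nat_lit 16) Lb.e (@T16.mk En
    (@En.n l25175 (nat_lit 8102) (nat_lit 4) (nat_lit 8))
    (@En.n l601 (nat_lit 10092) (nat_lit 1) (nat_lit 14))
    (@En.n l6576 (nat_lit 8038) (nat_lit 2) (nat_lit 3))
    (@En.n l25176 (nat_lit 5721) (nat_lit 3) (nat_lit 9))
    (@En.i (nat_lit 3172) (nat_lit 4) (nat_lit 5))
    (@En.n l21760 (nat_lit 7491) (nat_lit 10) (nat_lit 13))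
    (@En.n l152 (nat_lit 8040) (nat_lit 6) (nat_lit 4))
    (@En.n l3570 (nat_lit 5646) (nat_lit 7) (nat_lit 7))
    (@En.n l5076 (nat_lit 12066) (nat_lit 13) (nat_lit 8))
    (@En.n l25177 (nat_lit 8035) (nat_lit 10) (nat_lit 11))
    (@En.n l25178 (nat_lit 7817) (nat_lit 11) (nat_lit 12))
    (@En.n l17 (nat_lit 8037) (nat_lit 11) (nat_lit 2))
    (@En.n l25179 (nat_lit 7731) (nat_lit 13) (nat_lit 7))
    (@En.i (nat_lit 12392) (nat_lit 1) (nat_lit 14))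
    (@En.n l25180 (nat_lit 5214) (nat_lit 2) (nat_lit 9))
    (@En.n l50 (nat_lit 8037) (nat_lit 15) (nat_lit 2))))
  (@Cl.mk (nat_lit 0x20009000e00080002000c000a000800070004000d000800060003000e0008) (nat_lit 0x556098000710026) (nat_lit 16) Lb.e (@T16.mk En
    (@En.i (nat_lit 8103) (nat_lit 4) (nat_lit 8))
    (@En.n l4749 (nat_lit 6009) (nat_lit 1) (nat_lit 14))
    (@En.n l39803 (nat_lit 8037) (nat_lit 2) (nat_lit 3))
    (@En.i (nat_lit 5716) (nat_lit 3) (nat_lit 6))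
    (@En.n l764 (nat_lit 6576) (nat_lit 4) (nat_lit 8))
    (@En.n l5 (nat_lit 7490) (nat_lit 10) (nat_lit 13))
    (@En.n l34501 (nat_lit 8039) (nat_lit 6) (nat_lit 4))
    (@En.i (nat_lit 5645) (nat_lit 7) (nat_lit 7))
    (@En.n l1175 (nat_lit 11018) (nat_lit 13) (nat_lit 8))
    (@En.n l217 (nat_lit 5696) (nat_lit 14) (nat_lit 10))
    (@En.n l30912 (nat_lit 7816) (nat_lit 11) (nat_lit 12))
    (@En.n l28 (nat_lit 8038) (nat_lit 11) (nat_lit 2))
    (@En.i (nat_lit 7732) (nat_lit 13) (nat_lit 8))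
    (@En.n l1175 (nat_lit 12390) (nat_lit 1) (nat_lit 14))
    (@En.n l107 (nat_lit 5212) (nat_lit 2) (nat_lit 9))
    (@En.n l3 (nat_lit 8038) (nat_lit 15) (nat_lit 2))))
  (@Cl.mk (nat_lit 0x2000b000e00080002000c0005000b00090004000d000800050003000e0007) (nat_lit 0x850050410720040) (nat_lit 16) Lb.e (@T16.mk En
    (@En.i (nat_lit 8044) (nat_lit 4) (nat_lit 7))
    (@En.n l601 (nat_lit 6008) (nat_lit 1) (nat_lit 14))
    (@En.n l28 (nat_lit 8040) (nat_lit 2) (nat_lit 3))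
    (@En.n l170 (nat_lit 5622) (nat_lit 7) (nat_lit 5))
    (@En.n l3213 (nat_lit 11550) (nat_lit 4) (nat_lit 8))
    (@En.n l3706 (nat_lit 11688) (nat_lit 10) (nat_lit 13))
    (@En.n l8429 (nat_lit 8033) (nat_lit 6) (nat_lit 4))
    (@En.i (nat_lit 4179) (nat_lit 12) (nat_lit 9))
    (@En.n l170 (nat_lit 11662) (nat_lit 9) (nat_lit 11))
    (@En.n l21972 (nat_lit 8042) (nat_lit 14) (nat_lit 5))
    (@En.n l38995 (nat_lit 11248) (nat_lit 11) (nat_lit 12))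
    (@En.n l17 (nat_lit 8039) (nat_lit 11) (nat_lit 2))
    (@En.i (nat_lit 8043) (nat_lit 13) (nat_lit 8))
    (@En.i (nat_lit 12387) (nat_lit 4) (nat_lit 14))
    (@En.n l6771 (nat_lit 11732) (nat_lit 2) (nat_lit 11))
    (@En.n l50 (nat_lit 8039) (nat_lit 15) (nat_lit 2))))
  (@Cl.mk (nat_lit 0x2000b000e00070002000c0005000c00090004000d000400090003000e0007) (nat_lit 0x870050710605020) (nat_lit 16) Lb.e (@T16.mk En
    (@En.n l8898 (nat_lit 12120) (nat_lit 4) (nat_lit 7))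
    (@En.n l601 (nat_lit 7581) (nat_lit 1) (nat_lit 14))
    (@En.i (nat_lit 8039) (nat_lit 2) (nat_lit 3))
    (@En.n l3340 (nat_lit 11541) (nat_lit 3) (nat_lit 9))
    (@En.i (nat_lit 5609) (nat_lit 8) (nat_lit 4))
    (@En.i (nat_lit 11689) (nat_lit 10) (nat_lit 13))
    (@En.n l21745 (nat_lit 8034) (nat_lit 6) (nat_lit 4))
    (@En.n l5076 (nat_lit 4172) (nat_lit 12) (nat_lit 9))
    (@En.n l781 (nat_lit 5795) (nat_lit 9) (nat_lit 12))
    (@En.n l21745 (nat_lit 8041) (nat_lit 14) (nat_lit 5))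
    (@En.n l25167 (nat_lit 11250) (nat_lit 11) (nat_lit 12))
    (@En.n l17 (nat_lit 8040) (nat_lit 11) (nat_lit 2))
    (@En.n l25168 (nat_lit 11403) (nat_lit 13) (nat_lit 7))
    (@En.i (nat_lit 12391) (nat_lit 4) (nat_lit 14))
    (@En.n l6771 (nat_lit 11724) (nat_lit 2) (nat_lit 11))
    (@En.n l50 (nat_lit 8040) (nat_lit 15) (nat_lit 2))))
  (@Cl.mk (nat_lit 0x20005000c00090007000d000400080003000e00070002000b0009000e0008) (nat_lit 0x7006050b008380) (nat_lit 16) Lb.e (@T16.mk En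
    (@En.n l982 (nat_lit 8045) (nat_lit 12) (nat_lit 8))
    (@En.n l11488 (nat_lit 8040) (nat_lit 13) (nat_lit 14))
    (@En.n l11488 (nat_lit 8037) (nat_lit 14) (nat_lit 9))
    (@En.n l11489 (nat_lit 11734) (nat_lit 3) (nat_lit 11))
    (@En.n l3 (nat_lit 8041) (nat_lit 4) (nat_lit 2))
    (@En.n l10218 (nat_lit 12121) (nat_lit 5) (nat_lit 7))
    (@En.n l8979 (nat_lit 10093) (nat_lit 7) (nat_lit 14))
    (@En.n l3129 (nat_lit 8042) (nat_lit 7) (nat_lit 3))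
    (@En.n l11490 (nat_lit 11538) (nat_lit 3) (nat_lit 8))
    (@En.n l11491 (nat_lit 6436) (nat_lit 9) (nat_lit 4))
    (@En.n l11492 (nat_lit 11692) (nat_lit 11) (nat_lit 13))
    (@En.i (nat_lit 12505) (nat_lit 12) (nat_lit 7))
    (@En.n l11493 (nat_lit 11933) (nat_lit 13) (nat_lit 9))
    (@En.n l3129 (nat_lit 8036) (nat_lit 9) (nat_lit 12))
    (@En.n l11494 (nat_lit 11320) (nat_lit 13) (nat_lit 5))
    (@En.n l28 (nat_lit 8041) (nat_lit 15) (nat_lit 2))))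
  (@Cl.mk (nat_lit 0x20005000b00090007000d000700050003000e00070002000b0009000e0009) (nat_lit 0x25050002008660) (nat_lit 16) Lb.e (@T16.mk En
    (@En.n l6539 (nat_lit 11658) (nat_lit 12) (nat_lit 9))
    (@En.n l25182 (nat_lit 8039) (nat_lit 13) (nat_lit 14))
    (@En.n l2593 (nat_lit 8038) (nat_lit 14) (nat_lit 9))
    (@En.n l18583 (nat_lit 11733) (nat_lit 3) (nat_lit 11))
    (@En.n l3 (nat_lit 8042) (nat_lit 4) (nat_lit 2))
    (@En.n l25183 (nat_lit 11659) (nat_lit 5) (nat_lit 7))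
    (@En.n l25184 (nat_lit 6007) (nat_lit 7) (nat_lit 14))
    (@En.n l2513 (nat_lit 8041) (nat_lit 7) (nat_lit 3))
    (@En.i (nat_lit 12374) (nat_lit 8) (nat_lit 5))
    (@En.n l25185 (nat_lit 11551) (nat_lit 4) (nat_lit 7))
    (@En.n l4021 (nat_lit 11690) (nat_lit 11) (nat_lit 13))
    (@En.i (nat_lit 12506) (nat_lit 12) (nat_lit 7))
    (@En.n l14605 (nat_lit 11930) (nat_lit 13) (nat_lit 9))
    (@En.i (nat_lit 5272) (nat_lit 9) (nat_lit 11))
    (@En.n l14605 (nat_lit 11318) (nat_lit 13) (nat_lit 5))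
    (@En.n l28 (nat_lit 8042) (nat_lit 15) (nat_lit 2))))
  (@Cl.mk (nat_lit 0x2000c00080008000c0004000a00080004000c0008000800060004000e0008) (nat_lit 0x860408005030010) (nat_lit 16) Lb.e (@T16.mk En
    (@En.n l23480 (nat_lit 11405) (nat_lit 14) (nat_lit 8))
    (@En.n l18384 (nat_lit 6015) (nat_lit 1) (nat_lit 14))
    (@En.n l24048 (nat_lit 11403) (nat_lit 2) (nat_lit 4))
    (@En.n l24049 (nat_lit 9807) (nat_lit 3) (nat_lit 6))
    (@En.n l61 (nat_lit 8039) (nat_lit 4) (nat_lit 8))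
    (@En.n l18384 (nat_lit 10971) (nat_lit 5) (nat_lit 8))
    (@En.n l24050 (nat_lit 10911) (nat_lit 7) (nat_lit 12))
    (@En.n l24051 (nat_lit 8032) (nat_lit 7) (nat_lit 4))
    (@En.i (nat_lit 11023) (nat_lit 0) (nat_lit 8))
    (@En.n l170 (nat_lit 11663) (nat_lit 10) (nat_lit 10))
    (@En.n l24051 (nat_lit 11658) (nat_lit 10) (nat_lit 4))
    (@En.n l11426 (nat_lit 11251) (nat_lit 12) (nat_lit 12))
    (@En.n l24052 (nat_lit 11666) (nat_lit 8) (nat_lit 8))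
    (@En.i (nat_lit 11081) (nat_lit 14) (nat_lit 8))
    (@En.n l24053 (nat_lit 11801) (nat_lit 3) (nat_lit 12))
    (@En.n l50 (nat_lit 8043) (nat_lit 15) (nat_lit 2))))
  (@Cl.mk (nat_lit 0x2000b0005000a000900090005000d00090006000300070007000b000e0007) (nat_lit 0x403120800000740) (nat_lit 16) Lb.e (@T16.mk En
    (@En.n l23480 (nat_lit 11405) (nat_lit 11) (nat_lit 7))
    (@En.i (nat_lit 12389) (nat_lit 4) (nat_lit 14))
    (@En.n l10186 (nat_lit 11729) (nat_lit 2) (nat_lit 11))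
    (@En.n l7137 (nat_lit 12124) (nat_lit 9) (nat_lit 7))
    (@En.n l7138 (nat_lit 10777) (nat_lit 4) (nat_lit 7))
    (@En.n l7139 (nat_lit 12120) (nat_lit 5) (nat_lit 3))
    (@En.n l170 (nat_lit 12375) (nat_lit 0) (nat_lit 6))
    (@En.n l3213 (nat_lit 11498) (nat_lit 8) (nat_lit 9))
    (@En.n l10679 (nat_lit 11687) (nat_lit 9) (nat_lit 13))
    (@En.n l17655 (nat_lit 8057) (nat_lit 9) (nat_lit 5))
    (@En.n l644 (nat_lit 8039) (nat_lit 7) (nat_lit 9))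
    (@En.i (nat_lit 4180) (nat_lit 12) (nat_lit 9))
    (@En.n l170 (nat_lit 8045) (nat_lit 13) (nat_lit 10))
    (@En.n l15671 (nat_lit 11659) (nat_lit 14) (nat_lit 5))
    (@En.n l21451 (nat_lit 11242) (nat_lit 9) (nat_lit 11))
    (@En.n l17 (nat_lit 8044) (nat_lit 15) (nat_lit 2))))
  (@Cl.mk (nat_lit 0x2000c000a000800080004000c00080006000c0004000800080004000e0008) (nat_lit 0x9260090040560b0) (nat_lit 16) Lb.e (@T16.mk En
    (@En.n l23442 (nat_lit 11661) (nat_lit 14) (nat_lit 8))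
    (@En.n l1501 (nat_lit 10091) (nat_lit 1) (nat_lit 14))
    (@En.n l2125 (nat_lit 11602) (nat_lit 2) (nat_lit 4))
    (@En.n l3261 (nat_lit 8041) (nat_lit 8) (nat_lit 8))
    (@En.n l9182 (nat_lit 11385) (nat_lit 4) (nat_lit 8))
    (@En.n l6478 (nat_lit 6437) (nat_lit 5) (nat_lit 4))
    (@En.n l25145 (nat_lit 11671) (nat_lit 7) (nat_lit 12))
    (@En.i (nat_lit 10335) (nat_lit 7) (nat_lit 6))
    (@En.n l6528 (nat_lit 11936) (nat_lit 9) (nat_lit 8))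
    (@En.n l18235 (nat_lit 5860) (nat_lit 10) (nat_lit 12))
    (@En.n l25146 (nat_lit 11620) (nat_lit 10) (nat_lit 4))
    (@En.n l152 (nat_lit 11662) (nat_lit 8) (nat_lit 8))
    (@En.n l25147 (nat_lit 11619) (nat_lit 13) (nat_lit 8))
    (@En.n l644 (nat_lit 7731) (nat_lit 14) (nat_lit 10))
    (@En.n l3766 (nat_lit 11740) (nat_lit 3) (nat_lit 12))
    (@En.n l11 (nat_lit 8045) (nat_lit 15) (nat_lit 2))))
  (@Cl.mk (nat_lit 0x2000a0006000e00070002000d0006000d0003000b0003000a0009000e0005) (nat_lit 0x50200a080402370) (nat_lit 16) Lb.e (@T16.mk En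
    (@En.n l3098 (nat_lit 8019) (nat_lit 5) (nat_lit 5))
    (@En.n l2576 (nat_lit 7534) (nat_lit 1) (nat_lit 14))
    (@En.n l3 (nat_lit 7030) (nat_lit 2) (nat_lit 9))
    (@En.i (nat_lit 8069) (nat_lit 3) (nat_lit 10))
    (@En.i (nat_lit 5745) (nat_lit 4) (nat_lit 3))
    (@En.i (nat_lit 6907) (nat_lit 11) (nat_lit 11))
    (@En.i (nat_lit 5741) (nat_lit 6) (nat_lit 3))
    (@En.n l23035 (nat_lit 2908) (nat_lit 8) (nat_lit 13))
    (@En.i (nat_lit 8105) (nat_lit 14) (nat_lit 6))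
    (@En.i (nat_lit 9778) (nat_lit 10) (nat_lit 13))
    (@En.n l11 (nat_lit 8046) (nat_lit 10) (nat_lit 2))
    (@En.i (nat_lit 6469) (nat_lit 12) (nat_lit 7))
    (@En.n l180 (nat_lit 5687) (nat_lit 1) (nat_lit 14))
    (@En.i (nat_lit 8048) (nat_lit 14) (nat_lit 6))
    (@En.n l2125 (nat_lit 7129) (nat_lit 3) (nat_lit 10))
    (@En.n l17 (nat_lit 8046) (nat_lit 15) (nat_lit 2))))
  (@Cl.mk (nat_lit 0x2000a000e00060002000c000a0006000d0004000b00030006000a000e0005) (nat_lit 0x410085080000380) (nat_lit 16) Lb.e (@T16.mk En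
    (@En.i (nat_lit 8054) (nat_lit 4) (nat_lit 5))
    (@En.i (nat_lit 3438) (nat_lit 6) (nat_lit 14))
    (@En.i (nat_lit 8089) (nat_lit 2) (nat_lit 10))
    (@En.i (nat_lit 12250) (nat_lit 12) (nat_lit 6))
    (@En.i (nat_lit 8050) (nat_lit 4) (nat_lit 3))
    (@En.i (nat_lit 11670) (nat_lit 0) (nat_lit 11))
    (@En.i (nat_lit 10999) (nat_lit 6) (nat_lit 4))
    (@En.n l1690 (nat_lit 8048) (nat_lit 8) (nat_lit 13))
    (@En.n l152 (nat_lit 8046) (nat_lit 8) (nat_lit 6))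
    (@En.i (nat_lit 11375) (nat_lit 14) (nat_lit 10))
    (@En.i (nat_lit 10870) (nat_lit 11) (nat_lit 12))
    (@En.n l11 (nat_lit 8047) (nat_lit 11) (nat_lit 2))
    (@En.i (nat_lit 8055) (nat_lit 13) (nat_lit 6))
    (@En.n l2038 (nat_lit 3472) (nat_lit 1) (nat_lit 14))
    (@En.i (nat_lit 7799) (nat_lit 2) (nat_lit 10))
    (@En.n l17 (nat_lit 8047) (nat_lit 15) (nat_lit 2))))
noncomputable def a503 : T16 Cl := @T16.mk Cl
  (@Cl.mk (nat_lit 0x20006000e00060002000d000a000d0003000a0003000a0006000a000e0006) (nat_lit 0x10094700020480) (nat_lit 16) Lb.e (@T16.mk En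
    (@En.n l3098 (nat_lit 8053) (nat_lit 4) (nat_lit 6))
    (@En.n l3 (nat_lit 3428) (nat_lit 1) (nat_lit 14))
    (@En.i (nat_lit 7454) (nat_lit 2) (nat_lit 10))
    (@En.n l3 (nat_lit 8047) (nat_lit 3) (nat_lit 6))
    (@En.i (nat_lit 8060) (nat_lit 4) (nat_lit 10))
    (@En.i (nat_lit 8049) (nat_lit 5) (nat_lit 3))
    (@En.i (nat_lit 11432) (nat_lit 11) (nat_lit 10))
    (@En.i (nat_lit 8051) (nat_lit 7) (nat_lit 3))
    (@En.n l5033 (nat_lit 2910) (nat_lit 9) (nat_lit 13))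
    (@En.i (nat_lit 11370) (nat_lit 10) (nat_lit 10))
    (@En.i (nat_lit 10866) (nat_lit 11) (nat_lit 13))
    (@En.n l11 (nat_lit 8048) (nat_lit 11) (nat_lit 2))
    (@En.i (nat_lit 8052) (nat_lit 13) (nat_lit 6))
    (@En.n l180 (nat_lit 1361) (nat_lit 1) (nat_lit 14))
    (@En.n l3106 (nat_lit 8689) (nat_lit 2) (nat_lit 6))
    (@En.n l17 (nat_lit 8048) (nat_lit 15) (nat_lit 2))))
  (@Cl.mk (nat_lit 0x20006000e00060002000c000a000d000900040003000a0006000a000e0007) (nat_lit 0x10014820030580) (nat_lit 16) Lb.e (@T16.mk En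
    (@En.n l3147 (nat_lit 10990) (nat_lit 4) (nat_lit 7))
    (@En.n l3 (nat_lit 3429) (nat_lit 6) (nat_lit 14))
    (@En.i (nat_lit 8240) (nat_lit 2) (nat_lit 10))
    (@En.n l3 (nat_lit 8050) (nat_lit 3) (nat_lit 6))
    (@En.n l6645 (nat_lit 11000) (nat_lit 4) (nat_lit 10))
    (@En.n l50 (nat_lit 8048) (nat_lit 5) (nat_lit 3))
    (@En.n l12099 (nat_lit 12837) (nat_lit 6) (nat_lit 4))
    (@En.n l217 (nat_lit 11422) (nat_lit 12) (nat_lit 9))
    (@En.n l32082 (nat_lit 2909) (nat_lit 9) (nat_lit 13))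
    (@En.i (nat_lit 11371) (nat_lit 10) (nat_lit 10))
    (@En.n l17733 (nat_lit 4541) (nat_lit 11) (nat_lit 12))
    (@En.n l11 (nat_lit 8049) (nat_lit 11) (nat_lit 2))
    (@En.i (nat_lit 8056) (nat_lit 13) (nat_lit 6))
    (@En.n l180 (nat_lit 1358) (nat_lit 1) (nat_lit 14))
    (@En.n l3106 (nat_lit 8152) (nat_lit 2) (nat_lit 6))
    (@En.n l17 (nat_lit 8049) (nat_lit 15) (nat_lit 2))))
  (@Cl.mk (nat_lit 0x2000a000e00060002000b000a0006000d000a000500030006000a000e0006) (nat_lit 0x410015092000480) (nat_lit 16) Lb.e (@T16.mk En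
    (@En.n l25206 (nat_lit 10991) (nat_lit 4) (nat_lit 6))
    (@En.i (nat_lit 4602) (nat_lit 6) (nat_lit 14))
    (@En.i (nat_lit 8092) (nat_lit 2) (nat_lit 10))
    (@En.n l10823 (nat_lit 12556) (nat_lit 3) (nat_lit 6))
    (@En.n l50 (nat_lit 8047) (nat_lit 4) (nat_lit 3))
    (@En.n l3199 (nat_lit 12838) (nat_lit 0) (nat_lit 5))
    (@En.n l217 (nat_lit 11438) (nat_lit 11) (nat_lit 10))
    (@En.n l1690 (nat_lit 8049) (nat_lit 8) (nat_lit 13))
    (@En.n l152 (nat_lit 5745) (nat_lit 8) (nat_lit 6))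
    (@En.i (nat_lit 11373) (nat_lit 14) (nat_lit 10))
    (@En.i (nat_lit 4539) (nat_lit 11) (nat_lit 11))
    (@En.n l11 (nat_lit 8050) (nat_lit 11) (nat_lit 2))
    (@En.i (nat_lit 8057) (nat_lit 13) (nat_lit 6))
    (@En.n l2038 (nat_lit 1338) (nat_lit 1) (nat_lit 14))
    (@En.n l10584 (nat_lit 7803) (nat_lit 2) (nat_lit 10))
    (@En.n l17 (nat_lit 8050) (nat_lit 15) (nat_lit 2))))
  (@Cl.mk (nat_lit 0x20006000e00060002000d000c000b0003000a0004000a0005000a000e0006) (nat_lit 0x10082903020490) (nat_lit 16) Lb.e (@T16.mk En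
    (@En.n l30556 (nat_lit 10881) (nat_lit 4) (nat_lit 6))
    (@En.n l24626 (nat_lit 3431) (nat_lit 1) (nat_lit 14))
    (@En.i (nat_lit 8343) (nat_lit 2) (nat_lit 10))
    (@En.n l3 (nat_lit 10999) (nat_lit 3) (nat_lit 5))
    (@En.n l24626 (nat_lit 8061) (nat_lit 4) (nat_lit 10))
    (@En.n l17526 (nat_lit 11640) (nat_lit 5) (nat_lit 4))
    (@En.n l6646 (nat_lit 11236) (nat_lit 11) (nat_lit 10))
    (@En.n l7 (nat_lit 8048) (nat_lit 7) (nat_lit 3))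
    (@En.n l18348 (nat_lit 11639) (nat_lit 9) (nat_lit 11))
    (@En.n l644 (nat_lit 8049) (nat_lit 10) (nat_lit 12))
    (@En.i (nat_lit 10867) (nat_lit 11) (nat_lit 13))
    (@En.n l11 (nat_lit 8051) (nat_lit 11) (nat_lit 2))
    (@En.i (nat_lit 8058) (nat_lit 13) (nat_lit 6))
    (@En.n l180 (nat_lit 1357) (nat_lit 1) (nat_lit 14))
    (@En.n l3106 (nat_lit 8691) (nat_lit 2) (nat_lit 6))
    (@En.n l17 (nat_lit 8051) (nat_lit 15) (nat_lit 2))))
  (@Cl.mk (nat_lit 0x2000700060006000d000a000d00030009000300090006000a000a000e0007) (nat_lit 0x336000200590) (nat_lit 16) Lb.e (@T16.mk En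
    (@En.n l2947 (nat_lit 8059) (nat_lit 7) (nat_lit 7))
    (@En.n l3548 (nat_lit 12325) (nat_lit 1) (nat_lit 14))
    (@En.n l575 (nat_lit 8048) (nat_lit 2) (nat_lit 10))
    (@En.i (nat_lit 9027) (nat_lit 3) (nat_lit 10))
    (@En.n l3 (nat_lit 8055) (nat_lit 4) (nat_lit 6))
    (@En.i (nat_lit 5720) (nat_lit 5) (nat_lit 9))
    (@En.i (nat_lit 8056) (nat_lit 6) (nat_lit 3))
    (@En.i (nat_lit 11668) (nat_lit 0) (nat_lit 9))
    (@En.i (nat_lit 8058) (nat_lit 8) (nat_lit 3))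
    (@En.n l5033 (nat_lit 2911) (nat_lit 10) (nat_lit 13))
    (@En.i (nat_lit 11376) (nat_lit 11) (nat_lit 10))
    (@En.n l10028 (nat_lit 6548) (nat_lit 12) (nat_lit 13))
    (@En.n l10101 (nat_lit 12516) (nat_lit 13) (nat_lit 6))
    (@En.n l8480 (nat_lit 12241) (nat_lit 14) (nat_lit 6))
    (@En.n l2947 (nat_lit 8150) (nat_lit 5) (nat_lit 7))
    (@En.n l17 (nat_lit 8052) (nat_lit 15) (nat_lit 2))))
  (@Cl.mk (nat_lit 0x2000d0009000c0003000a000a0004000b0007000b000600060005000e0005) (nat_lit 0x858051030500020) (nat_lit 16) Lb.e (@T16.mk En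
    (@En.n l9966 (nat_lit 8059) (nat_lit 4) (nat_lit 5))
    (@En.n l134 (nat_lit 3477) (nat_lit 1) (nat_lit 14))
    (@En.n l3535 (nat_lit 10876) (nat_lit 2) (nat_lit 5))
    (@En.n l152 (nat_lit 10986) (nat_lit 10) (nat_lit 6))
    (@En.i (nat_lit 10908) (nat_lit 4) (nat_lit 6))
    (@En.i (nat_lit 8488) (nat_lit 10) (nat_lit 11))
    (@En.n l870 (nat_lit 8054) (nat_lit 6) (nat_lit 7))
    (@En.n l617 (nat_lit 5604) (nat_lit 8) (nat_lit 11))
    (@En.i (nat_lit 10865) (nat_lit 8) (nat_lit 4))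
    (@En.n l3536 (nat_lit 8048) (nat_lit 6) (nat_lit 10))
    (@En.i (nat_lit 10864) (nat_lit 11) (nat_lit 10))
    (@En.n l2943 (nat_lit 10881) (nat_lit 11) (nat_lit 3))
    (@En.n l3987 (nat_lit 2912) (nat_lit 0) (nat_lit 12))
    (@En.i (nat_lit 10882) (nat_lit 14) (nat_lit 9))
    (@En.i (nat_lit 7552) (nat_lit 2) (nat_lit 13))
    (@En.n l7 (nat_lit 8053) (nat_lit 15) (nat_lit 2))))
  (@Cl.mk (nat_lit 0x2000c00090006000c0004000b000b00040007000b00050005000a000e0005) (nat_lit 0x850908100400420) (nat_lit 16) Lb.e (@T16.mk En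
    (@En.i (nat_lit 10997) (nat_lit 8) (nat_lit 5))
    (@En.n l16956 (nat_lit 3476) (nat_lit 1) (nat_lit 14))
    (@En.n l32125 (nat_lit 7800) (nat_lit 2) (nat_lit 10))
    (@En.n l16957 (nat_lit 10989) (nat_lit 11) (nat_lit 5))
    (@En.i (nat_lit 10907) (nat_lit 4) (nat_lit 5))
    (@En.i (nat_lit 8088) (nat_lit 8) (nat_lit 11))
    (@En.n l17741 (nat_lit 8112) (nat_lit 11) (nat_lit 7))
    (@En.n l32168 (nat_lit 10870) (nat_lit 7) (nat_lit 4))
    (@En.n l61 (nat_lit 8047) (nat_lit 5) (nat_lit 11))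
    (@En.n l25205 (nat_lit 10867) (nat_lit 10) (nat_lit 11))
    (@En.n l18256 (nat_lit 10995) (nat_lit 10) (nat_lit 4))
    (@En.n l3529 (nat_lit 8053) (nat_lit 12) (nat_lit 12))
    (@En.n l2710 (nat_lit 8019) (nat_lit 13) (nat_lit 6))
    (@En.n l24145 (nat_lit 10753) (nat_lit 14) (nat_lit 9))
    (@En.n l25358 (nat_lit 7554) (nat_lit 3) (nat_lit 12))
    (@En.n l11 (nat_lit 8054) (nat_lit 15) (nat_lit 2))))
  (@Cl.mk (nat_lit 0x2000b00060006000c000a0005000d0004000a00030006000a000a000e0006) (nat_lit 0x400840700005490) (nat_lit 16) Lb.e (@T16.mk En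
    (@En.i (nat_lit 10997) (nat_lit 11) (nat_lit 6))
    (@En.n l1992 (nat_lit 12664) (nat_lit 1) (nat_lit 14))
    (@En.n l575 (nat_lit 8047) (nat_lit 2) (nat_lit 10))
    (@En.i (nat_lit 7464) (nat_lit 3) (nat_lit 10))
    (@En.n l17739 (nat_lit 12255) (nat_lit 12) (nat_lit 6))
    (@En.i (nat_lit 8057) (nat_lit 5) (nat_lit 3))
    (@En.n l7088 (nat_lit 11664) (nat_lit 0) (nat_lit 10))
    (@En.n l18260 (nat_lit 12257) (nat_lit 7) (nat_lit 4))
    (@En.n l1690 (nat_lit 8052) (nat_lit 9) (nat_lit 13))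
    (@En.n l152 (nat_lit 6469) (nat_lit 9) (nat_lit 5))
    (@En.n l18253 (nat_lit 11751) (nat_lit 11) (nat_lit 10))
    (@En.n l5588 (nat_lit 6547) (nat_lit 12) (nat_lit 12))
    (@En.n l23294 (nat_lit 12518) (nat_lit 13) (nat_lit 6))
    (@En.n l2038 (nat_lit 12032) (nat_lit 14) (nat_lit 6))
    (@En.n l23295 (nat_lit 7105) (nat_lit 9) (nat_lit 11))
    (@En.n l17 (nat_lit 8055) (nat_lit 15) (nat_lit 2))))
  (@Cl.mk (nat_lit 0x2000700060006000c000a000d00080004000300090006000a000a000e0008) (nat_lit 0x437000300690) (nat_lit 16) Lb.e (@T16.mk En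
    (@En.n l2947 (nat_lit 10993) (nat_lit 10) (nat_lit 8))
    (@En.n l3548 (nat_lit 12322) (nat_lit 1) (nat_lit 14))
    (@En.n l575 (nat_lit 8049) (nat_lit 2) (nat_lit 10))
    (@En.i (nat_lit 9028) (nat_lit 3) (nat_lit 10))
    (@En.n l3 (nat_lit 8057) (nat_lit 4) (nat_lit 6))
    (@En.n l16705 (nat_lit 10117) (nat_lit 5) (nat_lit 9))
    (@En.n l50 (nat_lit 8052) (nat_lit 6) (nat_lit 3))
    (@En.n l16706 (nat_lit 12839) (nat_lit 7) (nat_lit 4))
    (@En.n l217 (nat_lit 10956) (nat_lit 9) (nat_lit 8))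
    (@En.n l8073 (nat_lit 2031) (nat_lit 10) (nat_lit 13))
    (@En.n l16707 (nat_lit 11374) (nat_lit 11) (nat_lit 10))
    (@En.n l16708 (nat_lit 11622) (nat_lit 12) (nat_lit 12))
    (@En.n l16709 (nat_lit 12519) (nat_lit 13) (nat_lit 6))
    (@En.n l8073 (nat_lit 12245) (nat_lit 14) (nat_lit 6))
    (@En.n l2947 (nat_lit 8148) (nat_lit 7) (nat_lit 7))
    (@En.n l17 (nat_lit 8056) (nat_lit 15) (nat_lit 2))))
  (@Cl.mk (nat_lit 0x2000b00060006000b000a0005000d0009000500030006000a000a000e0007) (nat_lit 0x400440820000590) (nat_lit 16) Lb.e (@T16.mk En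
    (@En.n l30676 (nat_lit 10992) (nat_lit 11) (nat_lit 7))
    (@En.n l30677 (nat_lit 12666) (nat_lit 1) (nat_lit 14))
    (@En.n l575 (nat_lit 8050) (nat_lit 2) (nat_lit 10))
    (@En.i (nat_lit 9900) (nat_lit 3) (nat_lit 10))
    (@En.n l30678 (nat_lit 38) (nat_lit 4) (nat_lit 6))
    (@En.n l50 (nat_lit 8055) (nat_lit 5) (nat_lit 3))
    (@En.n l11518 (nat_lit 12840) (nat_lit 0) (nat_lit 5))
    (@En.n l217 (nat_lit 11442) (nat_lit 8) (nat_lit 9))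
    (@En.n l1690 (nat_lit 8056) (nat_lit 9) (nat_lit 13))
    (@En.n l152 (nat_lit 6468) (nat_lit 9) (nat_lit 5))
    (@En.n l10670 (nat_lit 11377) (nat_lit 11) (nat_lit 10))
    (@En.n l5588 (nat_lit 11620) (nat_lit 12) (nat_lit 11))
    (@En.n l30679 (nat_lit 12520) (nat_lit 13) (nat_lit 6))
    (@En.n l30680 (nat_lit 12031) (nat_lit 14) (nat_lit 6))
    (@En.n l30681 (nat_lit 7104) (nat_lit 9) (nat_lit 11))
    (@En.n l17 (nat_lit 8057) (nat_lit 15) (nat_lit 2))))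
  (@Cl.mk (nat_lit 0x2000700060006000d000c000b00030009000400090005000a000a000e0007) (nat_lit 0x7580202035a0) (nat_lit 16) Lb.e (@T16.mk En
    (@En.n l23296 (nat_lit 10930) (nat_lit 7) (nat_lit 7))
    (@En.n l3548 (nat_lit 12328) (nat_lit 1) (nat_lit 14))
    (@En.n l575 (nat_lit 8051) (nat_lit 2) (nat_lit 10))
    (@En.i (nat_lit 8980) (nat_lit 3) (nat_lit 10))
    (@En.n l23297 (nat_lit 12257) (nat_lit 4) (nat_lit 5))
    (@En.n l23175 (nat_lit 6590) (nat_lit 5) (nat_lit 9))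
    (@En.n l23298 (nat_lit 11634) (nat_lit 6) (nat_lit 4))
    (@En.n l23299 (nat_lit 11243) (nat_lit 0) (nat_lit 9))
    (@En.n l7 (nat_lit 8052) (nat_lit 8) (nat_lit 3))
    (@En.n l23300 (nat_lit 11632) (nat_lit 10) (nat_lit 11))
    (@En.n l644 (nat_lit 8056) (nat_lit 11) (nat_lit 12))
    (@En.n l23301 (nat_lit 6549) (nat_lit 12) (nat_lit 13))
    (@En.n l23302 (nat_lit 12517) (nat_lit 13) (nat_lit 6))
    (@En.n l23303 (nat_lit 12236) (nat_lit 14) (nat_lit 6))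
    (@En.n l2947 (nat_lit 8153) (nat_lit 5) (nat_lit 7))
    (@En.n l17 (nat_lit 8058) (nat_lit 15) (nat_lit 2))))
  (@Cl.mk (nat_lit 0x3000900090004000a0007000b000b00070007000600050005000d0009000c) (nat_lit 0x610300600000837) (nat_lit 16) Lb.e (@T16.mk En
    (@En.n l4814 (nat_lit 2916) (nat_lit 0) (nat_lit 12))
    (@En.i (nat_lit 11744) (nat_lit 4) (nat_lit 9))
    (@En.n l7892 (nat_lit 5167) (nat_lit 2) (nat_lit 13))
    (@En.n l10617 (nat_lit 12514) (nat_lit 11) (nat_lit 5))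
    (@En.n l7893 (nat_lit 10927) (nat_lit 4) (nat_lit 5))
    (@En.i (nat_lit 10251) (nat_lit 10) (nat_lit 6))
    (@En.n l3532 (nat_lit 8166) (nat_lit 9) (nat_lit 7))
    (@En.n l7894 (nat_lit 11097) (nat_lit 7) (nat_lit 7))
    (@En.n l7895 (nat_lit 8053) (nat_lit 5) (nat_lit 11))
    (@En.i (nat_lit 9009) (nat_lit 10) (nat_lit 11))
    (@En.n l7896 (nat_lit 10997) (nat_lit 14) (nat_lit 7))
    (@En.n l23016 (nat_lit 5607) (nat_lit 12) (nat_lit 10))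
    (@En.n l7899 (nat_lit 10860) (nat_lit 13) (nat_lit 4))
    (@En.n l2717 (nat_lit 8052) (nat_lit 7) (nat_lit 9))
    (@En.n l8776 (nat_lit 10862) (nat_lit 1) (nat_lit 9))
    (@En.n l23017 (nat_lit 10930) (nat_lit 15) (nat_lit 3))))
  (@Cl.mk (nat_lit 0x20006000a000e00070002000d000b00060003000b000a00050009000e0005) (nat_lit 0x52009500910370) (nat_lit 16) Lb.e (@T16.mk En
    (@En.n l2843 (nat_lit 5604) (nat_lit 5) (nat_lit 5))
    (@En.n l9870 (nat_lit 8312) (nat_lit 1) (nat_lit 14))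
    (@En.i (nat_lit 4424) (nat_lit 2) (nat_lit 9))
    (@En.n l11028 (nat_lit 8070) (nat_lit 3) (nat_lit 5))
    (@En.n l24625 (nat_lit 5583) (nat_lit 4) (nat_lit 10))
    (@En.i (nat_lit 11003) (nat_lit 11) (nat_lit 11))
    (@En.n l24626 (nat_lit 8061) (nat_lit 6) (nat_lit 3))
    (@En.n l24627 (nat_lit 5199) (nat_lit 7) (nat_lit 6))
    (@En.n l24628 (nat_lit 8063) (nat_lit 9) (nat_lit 11))
    (@En.i (nat_lit 6662) (nat_lit 10) (nat_lit 13))
    (@En.n l11 (nat_lit 8060) (nat_lit 10) (nat_lit 2))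
    (@En.i (nat_lit 5720) (nat_lit 12) (nat_lit 7))
    (@En.n l9870 (nat_lit 5821) (nat_lit 13) (nat_lit 14))
    (@En.n l11247 (nat_lit 8047) (nat_lit 14) (nat_lit 10))
    (@En.n l3106 (nat_lit 6600) (nat_lit 3) (nat_lit 6))
    (@En.n l17 (nat_lit 8060) (nat_lit 15) (nat_lit 2))))
  (@Cl.mk (nat_lit 0x20006000b000e00070002000d0005000c0003000b000a00040009000e0005) (nat_lit 0x8200a0a09102c0) (nat_lit 16) Lb.e (@T16.mk En
    (@En.n l9902 (nat_lit 5603) (nat_lit 5) (nat_lit 5))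
    (@En.i (nat_lit 8313) (nat_lit 1) (nat_lit 14))
    (@En.n l34261 (nat_lit 4422) (nat_lit 2) (nat_lit 9))
    (@En.n l9904 (nat_lit 8065) (nat_lit 3) (nat_lit 4))
    (@En.n l11241 (nat_lit 5580) (nat_lit 4) (nat_lit 10))
    (@En.n l7259 (nat_lit 11417) (nat_lit 11) (nat_lit 11))
    (@En.n l34262 (nat_lit 8060) (nat_lit 6) (nat_lit 3))
    (@En.n l781 (nat_lit 5738) (nat_lit 8) (nat_lit 12))
    (@En.n l7213 (nat_lit 8062) (nat_lit 14) (nat_lit 5))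
    (@En.n l6524 (nat_lit 6664) (nat_lit 10) (nat_lit 13))
    (@En.n l17 (nat_lit 8061) (nat_lit 10) (nat_lit 2))
    (@En.n l34263 (nat_lit 6590) (nat_lit 12) (nat_lit 7))
    (@En.i (nat_lit 5823) (nat_lit 13) (nat_lit 14))
    (@En.n l1174 (nat_lit 12247) (nat_lit 14) (nat_lit 11))
    (@En.n l34264 (nat_lit 6597) (nat_lit 3) (nat_lit 6))
    (@En.n l7 (nat_lit 8061) (nat_lit 15) (nat_lit 2))))
  (@Cl.mk (nat_lit 0x20005000c0006000b000a00040008000e000500020006000b000a000e0008) (nat_lit 0x809103b0009633) (nat_lit 16) Lb.e (@T16.mk En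
    (@En.n l18488 (nat_lit 6604) (nat_lit 11) (nat_lit 8))
    (@En.n l3513 (nat_lit 8061) (nat_lit 12) (nat_lit 14))
    (@En.n l18489 (nat_lit 8060) (nat_lit 13) (nat_lit 10))
    (@En.i (nat_lit 8112) (nat_lit 3) (nat_lit 11))
    (@En.n l18490 (nat_lit 6606) (nat_lit 4) (nat_lit 6))
    (@En.n l50 (nat_lit 8062) (nat_lit 5) (nat_lit 2))
    (@En.n l18491 (nat_lit 5605) (nat_lit 6) (nat_lit 5))
    (@En.n l18492 (nat_lit 8314) (nat_lit 8) (nat_lit 14))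
    (@En.n l18489 (nat_lit 4421) (nat_lit 2) (nat_lit 8))
    (@En.n l28 (nat_lit 8066) (nat_lit 9) (nat_lit 4))
    (@En.n l10251 (nat_lit 5575) (nat_lit 11) (nat_lit 10))
    (@En.i (nat_lit 11413) (nat_lit 12) (nat_lit 11))
    (@En.n l8572 (nat_lit 5307) (nat_lit 13) (nat_lit 6))
    (@En.n l17869 (nat_lit 5742) (nat_lit 8) (nat_lit 12))
    (@En.n l8891 (nat_lit 8187) (nat_lit 8) (nat_lit 5))
    (@En.n l3 (nat_lit 8062) (nat_lit 15) (nat_lit 2))))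
  (@Cl.mk (nat_lit 0x20007000b000e00070002000b0005000c000a0009000500040009000e0006) (nat_lit 0x63004098100430) (nat_lit 16) Lb.e (@T16.mk En
    (@En.n l9902 (nat_lit 6445) (nat_lit 5) (nat_lit 6))
    (@En.i (nat_lit 6893) (nat_lit 7) (nat_lit 14))
    (@En.n l4021 (nat_lit 4430) (nat_lit 2) (nat_lit 9))
    (@En.i (nat_lit 8061) (nat_lit 3) (nat_lit 4))
    (@En.n l33836 (nat_lit 12254) (nat_lit 4) (nat_lit 5))
    (@En.n l33837 (nat_lit 5582) (nat_lit 5) (nat_lit 9))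
    (@En.n l575 (nat_lit 11932) (nat_lit 12) (nat_lit 10))
    (@En.n l20132 (nat_lit 5737) (nat_lit 8) (nat_lit 12))
    (@En.n l7213 (nat_lit 8064) (nat_lit 14) (nat_lit 5))
    (@En.n l33838 (nat_lit 7724) (nat_lit 10) (nat_lit 11))
    (@En.n l17 (nat_lit 8063) (nat_lit 10) (nat_lit 2))
    (@En.n l33839 (nat_lit 6447) (nat_lit 12) (nat_lit 7))
    (@En.i (nat_lit 5704) (nat_lit 13) (nat_lit 14))
    (@En.n l1174 (nat_lit 11375) (nat_lit 2) (nat_lit 11))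
    (@En.n l33840 (nat_lit 6835) (nat_lit 3) (nat_lit 7))
    (@En.n l7 (nat_lit 8063) (nat_lit 15) (nat_lit 2))))
noncomputable def a504 : T16 Cl := @T16.mk Cl
  (@Cl.mk (nat_lit 0x20005000c000a0009000800040008000e000600020007000b0008000e0008) (nat_lit 0x98140460006342) (nat_lit 16) Lb.e (@T16.mk En
    (@En.n l18488 (nat_lit 6587) (nat_lit 11) (nat_lit 8))
    (@En.n l3513 (nat_lit 8063) (nat_lit 12) (nat_lit 14))
    (@En.n l22163 (nat_lit 4781) (nat_lit 13) (nat_lit 8))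
    (@En.i (nat_lit 8106) (nat_lit 3) (nat_lit 11))
    (@En.n l10039 (nat_lit 6834) (nat_lit 4) (nat_lit 7))
    (@En.n l50 (nat_lit 8064) (nat_lit 5) (nat_lit 2))
    (@En.n l9234 (nat_lit 5315) (nat_lit 6) (nat_lit 6))
    (@En.n l2544 (nat_lit 6892) (nat_lit 8) (nat_lit 14))
    (@En.n l8572 (nat_lit 4426) (nat_lit 2) (nat_lit 8))
    (@En.i (nat_lit 8062) (nat_lit 9) (nat_lit 4))
    (@En.n l30469 (nat_lit 12609) (nat_lit 11) (nat_lit 8))
    (@En.n l30470 (nat_lit 5578) (nat_lit 12) (nat_lit 9))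
    (@En.i (nat_lit 11928) (nat_lit 13) (nat_lit 10))
    (@En.n l12266 (nat_lit 5744) (nat_lit 8) (nat_lit 12))
    (@En.i (nat_lit 7708) (nat_lit 8) (nat_lit 5))
    (@En.n l3 (nat_lit 8064) (nat_lit 15) (nat_lit 2))))
  (@Cl.mk (nat_lit 0x20008000b000e00070002000c0005000c00080004000c00040009000e0004) (nat_lit 0x382004082080240) (nat_lit 16) Lb.e (@T16.mk En
    (@En.n l7264 (nat_lit 8071) (nat_lit 5) (nat_lit 4))
    (@En.n l22161 (nat_lit 7317) (nat_lit 7) (nat_lit 14))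
    (@En.i (nat_lit 5563) (nat_lit 2) (nat_lit 9))
    (@En.n l3513 (nat_lit 8063) (nat_lit 3) (nat_lit 4))
    (@En.i (nat_lit 11416) (nat_lit 10) (nat_lit 12))
    (@En.n l6899 (nat_lit 12252) (nat_lit 5) (nat_lit 4))
    (@En.n l19775 (nat_lit 8067) (nat_lit 6) (nat_lit 8))
    (@En.n l12681 (nat_lit 5741) (nat_lit 8) (nat_lit 12))
    (@En.n l17 (nat_lit 8066) (nat_lit 14) (nat_lit 5))
    (@En.n l3328 (nat_lit 9772) (nat_lit 10) (nat_lit 12))
    (@En.n l3 (nat_lit 8065) (nat_lit 10) (nat_lit 2))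
    (@En.n l7645 (nat_lit 11549) (nat_lit 12) (nat_lit 7))
    (@En.n l22161 (nat_lit 12777) (nat_lit 13) (nat_lit 14))
    (@En.i (nat_lit 12091) (nat_lit 7) (nat_lit 11))
    (@En.n l13102 (nat_lit 9445) (nat_lit 3) (nat_lit 8))
    (@En.n l50 (nat_lit 8065) (nat_lit 15) (nat_lit 2))))
  (@Cl.mk (nat_lit 0x20005000c00080007000c00040008000e000400020008000b0009000e0008) (nat_lit 0x940802b0047530) (nat_lit 16) Lb.e (@T16.mk En
    (@En.n l6108 (nat_lit 11547) (nat_lit 11) (nat_lit 8))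
    (@En.i (nat_lit 8065) (nat_lit 12) (nat_lit 14))
    (@En.i (nat_lit 8070) (nat_lit 13) (nat_lit 9))
    (@En.i (nat_lit 8114) (nat_lit 3) (nat_lit 11))
    (@En.i (nat_lit 9132) (nat_lit 4) (nat_lit 8))
    (@En.n l50 (nat_lit 8066) (nat_lit 5) (nat_lit 2))
    (@En.i (nat_lit 8072) (nat_lit 6) (nat_lit 4))
    (@En.n l2544 (nat_lit 7335) (nat_lit 8) (nat_lit 14))
    (@En.i (nat_lit 5537) (nat_lit 2) (nat_lit 8))
    (@En.i (nat_lit 8064) (nat_lit 9) (nat_lit 4))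
    (@En.i (nat_lit 11412) (nat_lit 11) (nat_lit 12))
    (@En.n l6393 (nat_lit 12611) (nat_lit 12) (nat_lit 7))
    (@En.i (nat_lit 8068) (nat_lit 13) (nat_lit 8))
    (@En.n l12266 (nat_lit 5747) (nat_lit 8) (nat_lit 12))
    (@En.i (nat_lit 8189) (nat_lit 8) (nat_lit 5))
    (@En.n l3 (nat_lit 8066) (nat_lit 15) (nat_lit 2))))
  (@Cl.mk (nat_lit 0x200080006000b000e00080002000d000500080003000c000a0008000e0004) (nat_lit 0x309900b010a5240) (nat_lit 16) Lb.e (@T16.mk En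
    (@En.n l55 (nat_lit 4178) (nat_lit 6) (nat_lit 4))
    (@En.n l8322 (nat_lit 7307) (nat_lit 1) (nat_lit 14))
    (@En.n l11310 (nat_lit 5561) (nat_lit 2) (nat_lit 8))
    (@En.n l9195 (nat_lit 5584) (nat_lit 3) (nat_lit 10))
    (@En.n l27041 (nat_lit 11418) (nat_lit 11) (nat_lit 12))
    (@En.n l27042 (nat_lit 8069) (nat_lit 5) (nat_lit 3))
    (@En.n l27043 (nat_lit 2116) (nat_lit 6) (nat_lit 8))
    (@En.n l27044 (nat_lit 8068) (nat_lit 14) (nat_lit 5))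
    (@En.n l27045 (nat_lit 9771) (nat_lit 9) (nat_lit 13))
    (@En.n l17 (nat_lit 8067) (nat_lit 9) (nat_lit 2))
    (@En.n l3147 (nat_lit 11545) (nat_lit 11) (nat_lit 8))
    (@En.i (nat_lit 4509) (nat_lit 4) (nat_lit 14))
    (@En.n l27046 (nat_lit 8065) (nat_lit 13) (nat_lit 11))
    (@En.n l8322 (nat_lit 8061) (nat_lit 14) (nat_lit 6))
    (@En.n l9193 (nat_lit 9448) (nat_lit 4) (nat_lit 8))
    (@En.n l28 (nat_lit 8067) (nat_lit 15) (nat_lit 2))))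
  (@Cl.mk (nat_lit 0x2000500080006000c000a0007000e0004000200080006000b000a000e0009) (nat_lit 0x30710a005086a0) (nat_lit 16) Lb.e (@T16.mk En
    (@En.n l34251 (nat_lit 11546) (nat_lit 10) (nat_lit 9))
    (@En.n l19775 (nat_lit 8067) (nat_lit 11) (nat_lit 14))
    (@En.n l22162 (nat_lit 8069) (nat_lit 12) (nat_lit 10))
    (@En.n l11 (nat_lit 8066) (nat_lit 3) (nat_lit 11))
    (@En.n l55 (nat_lit 8062) (nat_lit 4) (nat_lit 6))
    (@En.n l34252 (nat_lit 9131) (nat_lit 5) (nat_lit 8))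
    (@En.n l50 (nat_lit 8068) (nat_lit 6) (nat_lit 2))
    (@En.n l21673 (nat_lit 8073) (nat_lit 7) (nat_lit 4))
    (@En.n l2544 (nat_lit 7309) (nat_lit 9) (nat_lit 14))
    (@En.n l2611 (nat_lit 5557) (nat_lit 2) (nat_lit 7))
    (@En.n l1517 (nat_lit 5586) (nat_lit 11) (nat_lit 10))
    (@En.i (nat_lit 11415) (nat_lit 12) (nat_lit 12))
    (@En.n l34253 (nat_lit 9215) (nat_lit 13) (nat_lit 6))
    (@En.n l20434 (nat_lit 12836) (nat_lit 14) (nat_lit 8))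
    (@En.n l34254 (nat_lit 8191) (nat_lit 7) (nat_lit 5))
    (@En.n l3 (nat_lit 8068) (nat_lit 15) (nat_lit 2))))
  (@Cl.mk (nat_lit 0x200090006000a000e00080002000d000700060003000c000a0008000e0004) (nat_lit 0x5900600081260) (nat_lit 16) Lb.e (@T16.mk En
    (@En.n l2843 (nat_lit 11561) (nat_lit 6) (nat_lit 4))
    (@En.n l2576 (nat_lit 7306) (nat_lit 1) (nat_lit 14))
    (@En.n l3549 (nat_lit 5340) (nat_lit 2) (nat_lit 8))
    (@En.n l5 (nat_lit 5585) (nat_lit 3) (nat_lit 10))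
    (@En.i (nat_lit 11575) (nat_lit 11) (nat_lit 12))
    (@En.n l27141 (nat_lit 8067) (nat_lit 5) (nat_lit 3))
    (@En.n l3549 (nat_lit 5951) (nat_lit 0) (nat_lit 6))
    (@En.n l23379 (nat_lit 10743) (nat_lit 14) (nat_lit 7))
    (@En.n l12597 (nat_lit 9770) (nat_lit 9) (nat_lit 13))
    (@En.n l11 (nat_lit 8069) (nat_lit 9) (nat_lit 2))
    (@En.n l3549 (nat_lit 11560) (nat_lit 11) (nat_lit 8))
    (@En.n l1329 (nat_lit 4507) (nat_lit 12) (nat_lit 14))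
    (@En.n l23035 (nat_lit 12252) (nat_lit 13) (nat_lit 10))
    (@En.i (nat_lit 8060) (nat_lit 14) (nat_lit 6))
    (@En.n l2125 (nat_lit 9456) (nat_lit 4) (nat_lit 9))
    (@En.n l17 (nat_lit 8069) (nat_lit 15) (nat_lit 2))))
  (@Cl.mk (nat_lit 0x200090009000e00070002000c000b000700070004000c00050009000e0004) (nat_lit 0x48004600080180) (nat_lit 16) Lb.e (@T16.mk En
    (@En.n l9454 (nat_lit 8113) (nat_lit 5) (nat_lit 4))
    (@En.n l22161 (nat_lit 3036) (nat_lit 1) (nat_lit 14))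
    (@En.n l22162 (nat_lit 3625) (nat_lit 2) (nat_lit 9))
    (@En.n l22163 (nat_lit 4781) (nat_lit 3) (nat_lit 5))
    (@En.i (nat_lit 10112) (nat_lit 10) (nat_lit 12))
    (@En.n l61 (nat_lit 8065) (nat_lit 5) (nat_lit 4))
    (@En.n l12569 (nat_lit 12613) (nat_lit 12) (nat_lit 7))
    (@En.n l22162 (nat_lit 8069) (nat_lit 7) (nat_lit 7))
    (@En.n l22164 (nat_lit 12254) (nat_lit 9) (nat_lit 11))
    (@En.n l22165 (nat_lit 8889) (nat_lit 10) (nat_lit 12))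
    (@En.n l3 (nat_lit 8070) (nat_lit 10) (nat_lit 2))
    (@En.n l22166 (nat_lit 11553) (nat_lit 12) (nat_lit 7))
    (@En.n l22161 (nat_lit 12775) (nat_lit 13) (nat_lit 14))
    (@En.n l7245 (nat_lit 12250) (nat_lit 7) (nat_lit 9))
    (@En.n l22167 (nat_lit 9318) (nat_lit 3) (nat_lit 9))
    (@En.n l50 (nat_lit 8070) (nat_lit 15) (nat_lit 2))))
  (@Cl.mk (nat_lit 0x2000c0005000b00080004000c000c0005000a000400040008000b000e0006) (nat_lit 0x407108903002770) (nat_lit 16) Lb.e (@T16.mk En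
    (@En.n l41658 (nat_lit 11552) (nat_lit 2) (nat_lit 6))
    (@En.i (nat_lit 12776) (nat_lit 4) (nat_lit 14))
    (@En.n l3260 (nat_lit 12085) (nat_lit 7) (nat_lit 11))
    (@En.n l21632 (nat_lit 9442) (nat_lit 3) (nat_lit 8))
    (@En.n l7 (nat_lit 11569) (nat_lit 12) (nat_lit 4))
    (@En.n l7690 (nat_lit 11932) (nat_lit 5) (nat_lit 4))
    (@En.i (nat_lit 5562) (nat_lit 0) (nat_lit 10))
    (@En.n l11082 (nat_lit 12120) (nat_lit 7) (nat_lit 5))
    (@En.n l9311 (nat_lit 8065) (nat_lit 4) (nat_lit 12))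
    (@En.n l3260 (nat_lit 11485) (nat_lit 10) (nat_lit 12))
    (@En.n l41659 (nat_lit 12256) (nat_lit 10) (nat_lit 4))
    (@En.n l18840 (nat_lit 4178) (nat_lit 12) (nat_lit 8))
    (@En.n l41660 (nat_lit 8020) (nat_lit 13) (nat_lit 11))
    (@En.n l17905 (nat_lit 8072) (nat_lit 14) (nat_lit 5))
    (@En.n l41661 (nat_lit 9751) (nat_lit 9) (nat_lit 12))
    (@En.n l18 (nat_lit 8071) (nat_lit 15) (nat_lit 2))))
  (@Cl.mk (nat_lit 0x20005000b00080007000c000c00050009000400040008000b0009000e0007) (nat_lit 0x80079030027580) (nat_lit 16) Lb.e (@T16.mk En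
    (@En.n l9448 (nat_lit 11548) (nat_lit 1) (nat_lit 7))
    (@En.n l7264 (nat_lit 8071) (nat_lit 1) (nat_lit 14))
    (@En.n l9454 (nat_lit 8113) (nat_lit 2) (nat_lit 9))
    (@En.i (nat_lit 12090) (nat_lit 3) (nat_lit 11))
    (@En.n l16585 (nat_lit 9135) (nat_lit 4) (nat_lit 8))
    (@En.n l3643 (nat_lit 11570) (nat_lit 5) (nat_lit 4))
    (@En.n l7 (nat_lit 11928) (nat_lit 6) (nat_lit 4))
    (@En.n l5572 (nat_lit 5534) (nat_lit 0) (nat_lit 9))
    (@En.n l4739 (nat_lit 12121) (nat_lit 8) (nat_lit 5))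
    (@En.n l644 (nat_lit 8066) (nat_lit 10) (nat_lit 12))
    (@En.i (nat_lit 11482) (nat_lit 11) (nat_lit 12))
    (@En.n l7025 (nat_lit 12610) (nat_lit 12) (nat_lit 7))
    (@En.n l21673 (nat_lit 8073) (nat_lit 13) (nat_lit 8))
    (@En.n l9450 (nat_lit 8006) (nat_lit 14) (nat_lit 11))
    (@En.i (nat_lit 8196) (nat_lit 13) (nat_lit 5))
    (@En.n l3 (nat_lit 8072) (nat_lit 15) (nat_lit 2))))
  (@Cl.mk (nat_lit 0x2000500080006000c000c000b00080004000400080005000b000a000e0008) (nat_lit 0x60682300208690) (nat_lit 16) Lb.e (@T16.mk En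
    (@En.n l3147 (nat_lit 11544) (nat_lit 1) (nat_lit 8))
    (@En.n l3 (nat_lit 4178) (nat_lit 1) (nat_lit 14))
    (@En.n l2573 (nat_lit 11561) (nat_lit 2) (nat_lit 10))
    (@En.n l33485 (nat_lit 8072) (nat_lit 3) (nat_lit 11))
    (@En.n l50 (nat_lit 5605) (nat_lit 4) (nat_lit 5))
    (@En.n l287 (nat_lit 9136) (nat_lit 5) (nat_lit 8))
    (@En.n l55 (nat_lit 11567) (nat_lit 6) (nat_lit 4))
    (@En.n l33486 (nat_lit 11929) (nat_lit 7) (nat_lit 4))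
    (@En.n l9762 (nat_lit 5556) (nat_lit 0) (nat_lit 8))
    (@En.n l134 (nat_lit 11933) (nat_lit 10) (nat_lit 11))
    (@En.n l27044 (nat_lit 8068) (nat_lit 11) (nat_lit 12))
    (@En.n l33487 (nat_lit 11481) (nat_lit 12) (nat_lit 12))
    (@En.n l10028 (nat_lit 5308) (nat_lit 13) (nat_lit 6))
    (@En.n l3105 (nat_lit 11346) (nat_lit 14) (nat_lit 8))
    (@En.n l33486 (nat_lit 8197) (nat_lit 13) (nat_lit 5))
    (@En.n l17 (nat_lit 8073) (nat_lit 15) (nat_lit 2))))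
  (@Cl.mk (nat_lit 0x20006000b000a00050009000e000500020006000d000a00070003000e000b) (nat_lit 0x9304c000a60059) (nat_lit 16) Lb.e (@T16.mk En
    (@En.n l396 (nat_lit 6476) (nat_lit 9) (nat_lit 11))
    (@En.n l11131 (nat_lit 5258) (nat_lit 1) (nat_lit 14))
    (@En.n l1386 (nat_lit 8075) (nat_lit 2) (nat_lit 3))
    (@En.n l12871 (nat_lit 5246) (nat_lit 12) (nat_lit 7))
    (@En.n l1320 (nat_lit 8076) (nat_lit 4) (nat_lit 10))
    (@En.n l11131 (nat_lit 6965) (nat_lit 6) (nat_lit 13))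
    (@En.n l107 (nat_lit 5116) (nat_lit 6) (nat_lit 6))
    (@En.n l3 (nat_lit 8074) (nat_lit 7) (nat_lit 2))
    (@En.n l16861 (nat_lit 8026) (nat_lit 8) (nat_lit 5))
    (@En.n l10505 (nat_lit 8081) (nat_lit 10) (nat_lit 14))
    (@En.i (nat_lit 3904) (nat_lit 2) (nat_lit 9))
    (@En.n l16858 (nat_lit 11140) (nat_lit 3) (nat_lit 5))
    (@En.i (nat_lit 7061) (nat_lit 4) (nat_lit 10))
    (@En.n l117 (nat_lit 10329) (nat_lit 14) (nat_lit 11))
    (@En.n l2832 (nat_lit 6303) (nat_lit 6) (nat_lit 6))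
    (@En.n l50 (nat_lit 8074) (nat_lit 15) (nat_lit 2))))
  (@Cl.mk (nat_lit 0x20005000b000a0005000a000e000500020006000d0006000b0003000e000b) (nat_lit 0x9403c000a08059) (nat_lit 16) Lb.e (@T16.mk En
    (@En.n l345 (nat_lit 5175) (nat_lit 9) (nat_lit 11))
    (@En.i (nat_lit 8076) (nat_lit 1) (nat_lit 14))
    (@En.n l1543 (nat_lit 8074) (nat_lit 2) (nat_lit 3))
    (@En.n l1327 (nat_lit 2966) (nat_lit 3) (nat_lit 11))
    (@En.n l1544 (nat_lit 7174) (nat_lit 4) (nat_lit 6))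
    (@En.n l1393 (nat_lit 6958) (nat_lit 6) (nat_lit 13))
    (@En.n l5175 (nat_lit 5112) (nat_lit 6) (nat_lit 6))
    (@En.n l28 (nat_lit 8075) (nat_lit 7) (nat_lit 2))
    (@En.n l5246 (nat_lit 8024) (nat_lit 8) (nat_lit 5))
    (@En.i (nat_lit 8079) (nat_lit 10) (nat_lit 14))
    (@En.n l24285 (nat_lit 3848) (nat_lit 2) (nat_lit 10))
    (@En.n l1393 (nat_lit 11145) (nat_lit 3) (nat_lit 5))
    (@En.n l1544 (nat_lit 7059) (nat_lit 13) (nat_lit 10))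
    (@En.n l9964 (nat_lit 10330) (nat_lit 14) (nat_lit 11))
    (@En.i (nat_lit 7796) (nat_lit 6) (nat_lit 5))
    (@En.n l3 (nat_lit 8075) (nat_lit 15) (nat_lit 2))))
  (@Cl.mk (nat_lit 0x200060005000b000a0006000a000e000500020006000a0006000b000e000a) (nat_lit 0x1403c00050844) (nat_lit 16) Lb.e (@T16.mk En
    (@En.n l3247 (nat_lit 6477) (nat_lit 10) (nat_lit 10))
    (@En.n l2394 (nat_lit 5948) (nat_lit 11) (nat_lit 14))
    (@En.n l30996 (nat_lit 2964) (nat_lit 2) (nat_lit 11))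
    (@En.n l11295 (nat_lit 7173) (nat_lit 13) (nat_lit 6))
    (@En.n l7068 (nat_lit 12123) (nat_lit 4) (nat_lit 10))
    (@En.n l21903 (nat_lit 6619) (nat_lit 5) (nat_lit 6))
    (@En.n l28 (nat_lit 8076) (nat_lit 6) (nat_lit 2))
    (@En.n l5246 (nat_lit 8025) (nat_lit 7) (nat_lit 5))
    (@En.i (nat_lit 8080) (nat_lit 9) (nat_lit 14))
    (@En.n l9478 (nat_lit 3073) (nat_lit 2) (nat_lit 10))
    (@En.n l1393 (nat_lit 11147) (nat_lit 3) (nat_lit 6))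
    (@En.n l9478 (nat_lit 7055) (nat_lit 4) (nat_lit 10))
    (@En.n l7068 (nat_lit 7673) (nat_lit 13) (nat_lit 11))
    (@En.n l17 (nat_lit 8075) (nat_lit 14) (nat_lit 5))
    (@En.i (nat_lit 4430) (nat_lit 7) (nat_lit 6))
    (@En.n l3 (nat_lit 8076) (nat_lit 15) (nat_lit 2))))
  (@Cl.mk (nat_lit 0x20005000c000b0005000a0004000d0005000c00030006000b0004000e000b) (nat_lit 0x4030908008029) (nat_lit 16) Lb.e (@T16.mk En
    (@En.n l6826 (nat_lit 9496) (nat_lit 11) (nat_lit 11))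
    (@En.i (nat_lit 8078) (nat_lit 1) (nat_lit 14))
    (@En.n l15115 (nat_lit 9562) (nat_lit 2) (nat_lit 4))
    (@En.n l250 (nat_lit 8082) (nat_lit 3) (nat_lit 11))
    (@En.n l4172 (nat_lit 8075) (nat_lit 4) (nat_lit 6))
    (@En.i (nat_lit 9499) (nat_lit 5) (nat_lit 3))
    (@En.n l2254 (nat_lit 7670) (nat_lit 0) (nat_lit 12))
    (@En.i (nat_lit 9516) (nat_lit 7) (nat_lit 5))
    (@En.n l4422 (nat_lit 9497) (nat_lit 9) (nat_lit 13))
    (@En.i (nat_lit 9501) (nat_lit 9) (nat_lit 4))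
    (@En.n l250 (nat_lit 3850) (nat_lit 11) (nat_lit 10))
    (@En.n l2254 (nat_lit 10356) (nat_lit 5) (nat_lit 5))
    (@En.n l55 (nat_lit 7631) (nat_lit 13) (nat_lit 11))
    (@En.n l2039 (nat_lit 10238) (nat_lit 14) (nat_lit 12))
    (@En.i (nat_lit 8377) (nat_lit 13) (nat_lit 5))
    (@En.n l3 (nat_lit 8077) (nat_lit 15) (nat_lit 2))))
  (@Cl.mk (nat_lit 0x200070005000c000b0006000a0004000d0005000900030006000b000e000a) (nat_lit 0x5403040400818) (nat_lit 16) Lb.e (@T16.mk En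
    (@En.n l5646 (nat_lit 9897) (nat_lit 12) (nat_lit 10))
    (@En.n l11635 (nat_lit 5680) (nat_lit 4) (nat_lit 14))
    (@En.n l250 (nat_lit 8083) (nat_lit 2) (nat_lit 11))
    (@En.n l4172 (nat_lit 8076) (nat_lit 3) (nat_lit 6))
    (@En.n l9432 (nat_lit 9527) (nat_lit 4) (nat_lit 3))
    (@En.n l3736 (nat_lit 11330) (nat_lit 0) (nat_lit 9))
    (@En.n l15114 (nat_lit 9517) (nat_lit 6) (nat_lit 5))
    (@En.n l27036 (nat_lit 9529) (nat_lit 8) (nat_lit 13))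
    (@En.i (nat_lit 9894) (nat_lit 8) (nat_lit 4))
    (@En.n l15109 (nat_lit 4278) (nat_lit 10) (nat_lit 10))
    (@En.n l2254 (nat_lit 10359) (nat_lit 5) (nat_lit 6))
    (@En.n l55 (nat_lit 7629) (nat_lit 12) (nat_lit 11))
    (@En.n l2039 (nat_lit 10614) (nat_lit 13) (nat_lit 12))
    (@En.n l17 (nat_lit 8077) (nat_lit 14) (nat_lit 5))
    (@En.i (nat_lit 9701) (nat_lit 10) (nat_lit 7))
    (@En.n l3 (nat_lit 8078) (nat_lit 15) (nat_lit 2))))
  (@Cl.mk (nat_lit 0x20005000c000a0005000e00040002000d0006000d0003000b0003000e000b) (nat_lit 0x220b00a08070c0) (nat_lit 16) Lb.e (@T16.mk En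
    (@En.n l345 (nat_lit 9041) (nat_lit 8) (nat_lit 11))
    (@En.i (nat_lit 8080) (nat_lit 1) (nat_lit 14))
    (@En.i (nat_lit 8081) (nat_lit 2) (nat_lit 3))
    (@En.i (nat_lit 3356) (nat_lit 3) (nat_lit 11))
    (@En.i (nat_lit 8085) (nat_lit 4) (nat_lit 3))
    (@En.n l1393 (nat_lit 5833) (nat_lit 6) (nat_lit 13))
    (@En.i (nat_lit 7048) (nat_lit 6) (nat_lit 6))
    (@En.n l601 (nat_lit 8077) (nat_lit 8) (nat_lit 13))
    (@En.n l28 (nat_lit 8079) (nat_lit 8) (nat_lit 2))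
    (@En.n l11 (nat_lit 8082) (nat_lit 9) (nat_lit 4))
    (@En.i (nat_lit 5550) (nat_lit 11) (nat_lit 14))
    (@En.n l1393 (nat_lit 6228) (nat_lit 2) (nat_lit 5))
    (@En.i (nat_lit 8668) (nat_lit 13) (nat_lit 10))
    (@En.i (nat_lit 10235) (nat_lit 14) (nat_lit 12))
    (@En.i (nat_lit 8368) (nat_lit 13) (nat_lit 5))
    (@En.n l3 (nat_lit 8079) (nat_lit 15) (nat_lit 2))))
noncomputable def a505 : T16 Cl := @T16.mk Cl
  (@Cl.mk (nat_lit 0x200060005000c000a0006000e00040002000d0006000a0003000b000e000a) (nat_lit 0x560b0050508b0) (nat_lit 16) Lb.e (@T16.mk En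
    (@En.n l3247 (nat_lit 9042) (nat_lit 9) (nat_lit 10))
    (@En.n l2394 (nat_lit 5951) (nat_lit 4) (nat_lit 14))
    (@En.i (nat_lit 2529) (nat_lit 2) (nat_lit 11))
    (@En.i (nat_lit 8087) (nat_lit 3) (nat_lit 3))
    (@En.n l7147 (nat_lit 12380) (nat_lit 4) (nat_lit 10))
    (@En.i (nat_lit 7047) (nat_lit 5) (nat_lit 6))
    (@En.n l601 (nat_lit 8078) (nat_lit 7) (nat_lit 13))
    (@En.n l28 (nat_lit 8080) (nat_lit 7) (nat_lit 2))
    (@En.n l11 (nat_lit 8083) (nat_lit 8) (nat_lit 4))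
    (@En.n l745 (nat_lit 5551) (nat_lit 10) (nat_lit 14))
    (@En.n l1393 (nat_lit 6235) (nat_lit 2) (nat_lit 6))
    (@En.i (nat_lit 8669) (nat_lit 12) (nat_lit 10))
    (@En.i (nat_lit 10015) (nat_lit 13) (nat_lit 12))
    (@En.n l17 (nat_lit 8079) (nat_lit 14) (nat_lit 5))
    (@En.i (nat_lit 12716) (nat_lit 6) (nat_lit 6))
    (@En.n l3 (nat_lit 8080) (nat_lit 15) (nat_lit 2))))
  (@Cl.mk (nat_lit 0x20006000c000a0005000e00040002000c0006000d000a00040003000e000b) (nat_lit 0x220b00009600c0) (nat_lit 16) Lb.e (@T16.mk En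
    (@En.n l9845 (nat_lit 8979) (nat_lit 8) (nat_lit 11))
    (@En.i (nat_lit 9215) (nat_lit 1) (nat_lit 14))
    (@En.n l18 (nat_lit 8079) (nat_lit 2) (nat_lit 3))
    (@En.n l2809 (nat_lit 8971) (nat_lit 3) (nat_lit 4))
    (@En.n l61 (nat_lit 8080) (nat_lit 4) (nat_lit 10))
    (@En.n l4315 (nat_lit 5829) (nat_lit 6) (nat_lit 13))
    (@En.n l3108 (nat_lit 7049) (nat_lit 6) (nat_lit 6))
    (@En.n l9846 (nat_lit 9562) (nat_lit 8) (nat_lit 12))
    (@En.n l28 (nat_lit 8081) (nat_lit 8) (nat_lit 2))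
    (@En.n l11 (nat_lit 8084) (nat_lit 9) (nat_lit 4))
    (@En.n l5224 (nat_lit 5552) (nat_lit 11) (nat_lit 14))
    (@En.n l4315 (nat_lit 6227) (nat_lit 2) (nat_lit 5))
    (@En.i (nat_lit 8671) (nat_lit 13) (nat_lit 10))
    (@En.n l4315 (nat_lit 10233) (nat_lit 14) (nat_lit 12))
    (@En.i (nat_lit 9768) (nat_lit 5) (nat_lit 6))
    (@En.n l3 (nat_lit 8081) (nat_lit 15) (nat_lit 2))))
  (@Cl.mk (nat_lit 0x20005000c000c000b000600040004000d0005000d0003000b0003000e000a) (nat_lit 0x235000a0207070) (nat_lit 16) Lb.e (@T16.mk En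
    (@En.n l517 (nat_lit 9009) (nat_lit 14) (nat_lit 10))
    (@En.i (nat_lit 8083) (nat_lit 1) (nat_lit 14))
    (@En.i (nat_lit 8084) (nat_lit 2) (nat_lit 3))
    (@En.i (nat_lit 3357) (nat_lit 3) (nat_lit 11))
    (@En.i (nat_lit 8086) (nat_lit 4) (nat_lit 3))
    (@En.i (nat_lit 4131) (nat_lit 6) (nat_lit 13))
    (@En.n l28 (nat_lit 7153) (nat_lit 6) (nat_lit 5))
    (@En.n l6370 (nat_lit 9501) (nat_lit 8) (nat_lit 13))
    (@En.n l1577 (nat_lit 9000) (nat_lit 8) (nat_lit 4))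
    (@En.i (nat_lit 8592) (nat_lit 9) (nat_lit 4))
    (@En.i (nat_lit 6079) (nat_lit 0) (nat_lit 6))
    (@En.n l457 (nat_lit 8485) (nat_lit 12) (nat_lit 11))
    (@En.n l1578 (nat_lit 8079) (nat_lit 13) (nat_lit 12))
    (@En.i (nat_lit 6360) (nat_lit 14) (nat_lit 12))
    (@En.i (nat_lit 8346) (nat_lit 13) (nat_lit 5))
    (@En.n l3 (nat_lit 8082) (nat_lit 15) (nat_lit 2))))
  (@Cl.mk (nat_lit 0x200060005000c000c000b000700040004000d0005000a0003000b000e0009) (nat_lit 0x3650004040760) (nat_lit 16) Lb.e (@T16.mk En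
    (@En.n l6198 (nat_lit 9011) (nat_lit 13) (nat_lit 9))
    (@En.n l3422 (nat_lit 12392) (nat_lit 4) (nat_lit 14))
    (@En.i (nat_lit 2525) (nat_lit 2) (nat_lit 11))
    (@En.n l3422 (nat_lit 9012) (nat_lit 3) (nat_lit 3))
    (@En.i (nat_lit 12377) (nat_lit 4) (nat_lit 10))
    (@En.n l3422 (nat_lit 7154) (nat_lit 5) (nat_lit 5))
    (@En.n l6370 (nat_lit 9894) (nat_lit 7) (nat_lit 13))
    (@En.n l1577 (nat_lit 9002) (nat_lit 7) (nat_lit 4))
    (@En.i (nat_lit 8596) (nat_lit 8) (nat_lit 4))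
    (@En.n l27005 (nat_lit 6077) (nat_lit 0) (nat_lit 7))
    (@En.n l457 (nat_lit 8483) (nat_lit 11) (nat_lit 11))
    (@En.n l1578 (nat_lit 8080) (nat_lit 12) (nat_lit 12))
    (@En.i (nat_lit 9882) (nat_lit 13) (nat_lit 12))
    (@En.n l17 (nat_lit 8082) (nat_lit 14) (nat_lit 5))
    (@En.i (nat_lit 8545) (nat_lit 13) (nat_lit 6))
    (@En.n l3 (nat_lit 8083) (nat_lit 15) (nat_lit 2))))
  (@Cl.mk (nat_lit 0x20006000c000c000b000600040004000c0005000d000a00040003000e000a) (nat_lit 0x43500000250074) (nat_lit 16) Lb.e (@T16.mk En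
    (@En.n l517 (nat_lit 8981) (nat_lit 14) (nat_lit 10))
    (@En.n l3422 (nat_lit 5308) (nat_lit 1) (nat_lit 14))
    (@En.n l18 (nat_lit 8082) (nat_lit 2) (nat_lit 3))
    (@En.n l3423 (nat_lit 8970) (nat_lit 3) (nat_lit 4))
    (@En.n l61 (nat_lit 8083) (nat_lit 4) (nat_lit 10))
    (@En.n l7293 (nat_lit 4130) (nat_lit 6) (nat_lit 13))
    (@En.n l3423 (nat_lit 5314) (nat_lit 6) (nat_lit 5))
    (@En.n l3540 (nat_lit 9352) (nat_lit 8) (nat_lit 12))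
    (@En.n l1577 (nat_lit 8999) (nat_lit 8) (nat_lit 4))
    (@En.i (nat_lit 8593) (nat_lit 9) (nat_lit 4))
    (@En.n l7293 (nat_lit 6226) (nat_lit 0) (nat_lit 6))
    (@En.n l457 (nat_lit 8491) (nat_lit 12) (nat_lit 11))
    (@En.n l1578 (nat_lit 8081) (nat_lit 13) (nat_lit 12))
    (@En.n l16451 (nat_lit 6362) (nat_lit 14) (nat_lit 12))
    (@En.i (nat_lit 9746) (nat_lit 13) (nat_lit 6))
    (@En.n l3 (nat_lit 8084) (nat_lit 15) (nat_lit 2))))
  (@Cl.mk (nat_lit 0x20005000c00090005000e00040002000d000c00070003000b0004000e000b) (nat_lit 0x240400b10080c0) (nat_lit 16) Lb.e (@T16.mk En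
    (@En.n l4070 (nat_lit 9040) (nat_lit 8) (nat_lit 11))
    (@En.i (nat_lit 8087) (nat_lit 1) (nat_lit 14))
    (@En.n l4071 (nat_lit 8646) (nat_lit 2) (nat_lit 4))
    (@En.n l339 (nat_lit 7415) (nat_lit 3) (nat_lit 11))
    (@En.n l50 (nat_lit 8079) (nat_lit 4) (nat_lit 3))
    (@En.i (nat_lit 1679) (nat_lit 5) (nat_lit 7))
    (@En.n l217 (nat_lit 8081) (nat_lit 7) (nat_lit 12))
    (@En.n l601 (nat_lit 9499) (nat_lit 8) (nat_lit 13))
    (@En.n l28 (nat_lit 8085) (nat_lit 8) (nat_lit 2))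
    (@En.n l11 (nat_lit 8086) (nat_lit 9) (nat_lit 4))
    (@En.i (nat_lit 5507) (nat_lit 11) (nat_lit 14))
    (@En.n l339 (nat_lit 6236) (nat_lit 2) (nat_lit 5))
    (@En.i (nat_lit 7642) (nat_lit 13) (nat_lit 9))
    (@En.n l339 (nat_lit 10237) (nat_lit 14) (nat_lit 12))
    (@En.i (nat_lit 8369) (nat_lit 13) (nat_lit 5))
    (@En.n l3 (nat_lit 8085) (nat_lit 15) (nat_lit 2))))
  (@Cl.mk (nat_lit 0x20005000c000c000a000600040004000d000c00060003000b0004000e000a) (nat_lit 0x433000a1007070) (nat_lit 16) Lb.e (@T16.mk En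
    (@En.n l517 (nat_lit 9010) (nat_lit 12) (nat_lit 10))
    (@En.n l3422 (nat_lit 9012) (nat_lit 1) (nat_lit 14))
    (@En.n l10213 (nat_lit 8644) (nat_lit 2) (nat_lit 4))
    (@En.n l5 (nat_lit 7741) (nat_lit 3) (nat_lit 11))
    (@En.n l50 (nat_lit 8082) (nat_lit 4) (nat_lit 3))
    (@En.n l3423 (nat_lit 1607) (nat_lit 5) (nat_lit 6))
    (@En.n l217 (nat_lit 8084) (nat_lit 7) (nat_lit 12))
    (@En.n l6370 (nat_lit 9498) (nat_lit 8) (nat_lit 13))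
    (@En.n l1577 (nat_lit 9001) (nat_lit 8) (nat_lit 4))
    (@En.i (nat_lit 8335) (nat_lit 9) (nat_lit 4))
    (@En.n l6373 (nat_lit 6238) (nat_lit 0) (nat_lit 6))
    (@En.n l575 (nat_lit 8477) (nat_lit 12) (nat_lit 10))
    (@En.n l1578 (nat_lit 8085) (nat_lit 13) (nat_lit 12))
    (@En.n l6373 (nat_lit 6359) (nat_lit 14) (nat_lit 12))
    (@En.i (nat_lit 8371) (nat_lit 13) (nat_lit 5))
    (@En.n l3 (nat_lit 8086) (nat_lit 15) (nat_lit 2))))
  (@Cl.mk (nat_lit 0x200070005000c00090006000e00040002000d000900070003000b000e000a) (nat_lit 0x52090044008b0) (nat_lit 16) Lb.e (@T16.mk En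
    (@En.n l5289 (nat_lit 9014) (nat_lit 9) (nat_lit 10))
    (@En.n l1029 (nat_lit 12622) (nat_lit 4) (nat_lit 14))
    (@En.n l5290 (nat_lit 7739) (nat_lit 2) (nat_lit 11))
    (@En.n l50 (nat_lit 8080) (nat_lit 3) (nat_lit 3))
    (@En.n l1029 (nat_lit 1678) (nat_lit 0) (nat_lit 7))
    (@En.i (nat_lit 8969) (nat_lit 5) (nat_lit 9))
    (@En.n l5291 (nat_lit 9527) (nat_lit 7) (nat_lit 13))
    (@En.n l28 (nat_lit 8087) (nat_lit 7) (nat_lit 2))
    (@En.n l5292 (nat_lit 9012) (nat_lit 8) (nat_lit 4))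
    (@En.n l5293 (nat_lit 5549) (nat_lit 10) (nat_lit 14))
    (@En.n l3252 (nat_lit 6239) (nat_lit 2) (nat_lit 6))
    (@En.n l2259 (nat_lit 7644) (nat_lit 12) (nat_lit 9))
    (@En.n l339 (nat_lit 10017) (nat_lit 13) (nat_lit 12))
    (@En.n l17 (nat_lit 8085) (nat_lit 14) (nat_lit 5))
    (@En.n l5294 (nat_lit 9278) (nat_lit 6) (nat_lit 7))
    (@En.n l3 (nat_lit 8087) (nat_lit 15) (nat_lit 2))))
  (@Cl.mk (nat_lit 0x30007000c0004000c000c0004000b000400040009000d0005000d0003000c) (nat_lit 0x40970300350702) (nat_lit 16) Lb.e (@T16.mk En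
    (@En.n l25358 (nat_lit 7674) (nat_lit 0) (nat_lit 12))
    (@En.n l10969 (nat_lit 7638) (nat_lit 15) (nat_lit 3))
    (@En.n l2710 (nat_lit 7204) (nat_lit 0) (nat_lit 13))
    (@En.i (nat_lit 9496) (nat_lit 3) (nat_lit 5))
    (@En.n l16956 (nat_lit 8310) (nat_lit 6) (nat_lit 13))
    (@En.n l15535 (nat_lit 8607) (nat_lit 5) (nat_lit 9))
    (@En.n l16957 (nat_lit 7634) (nat_lit 12) (nat_lit 4))
    (@En.i (nat_lit 7615) (nat_lit 7) (nat_lit 4))
    (@En.n l17741 (nat_lit 6985) (nat_lit 0) (nat_lit 11))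
    (@En.n l16958 (nat_lit 7625) (nat_lit 1) (nat_lit 4))
    (@En.n l61 (nat_lit 8089) (nat_lit 4) (nat_lit 12))
    (@En.n l32472 (nat_lit 8252) (nat_lit 10) (nat_lit 12))
    (@En.i (nat_lit 9575) (nat_lit 10) (nat_lit 4))
    (@En.n l3529 (nat_lit 8488) (nat_lit 0) (nat_lit 12))
    (@En.i (nat_lit 7035) (nat_lit 12) (nat_lit 7))
    (@En.i (nat_lit 7639) (nat_lit 15) (nat_lit 3))))
  (@Cl.mk (nat_lit 0x20009000d0006000d0003000c00030007000d0004000c0003000a000e0004) (nat_lit 0x420a04009060240) (nat_lit 16) Lb.e (@T16.mk En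
    (@En.i (nat_lit 8088) (nat_lit 7) (nat_lit 4))
    (@En.i (nat_lit 3003) (nat_lit 1) (nat_lit 14))
    (@En.n l9591 (nat_lit 6989) (nat_lit 2) (nat_lit 10))
    (@En.i (nat_lit 8092) (nat_lit 3) (nat_lit 3))
    (@En.i (nat_lit 4289) (nat_lit 0) (nat_lit 12))
    (@En.i (nat_lit 8095) (nat_lit 5) (nat_lit 4))
    (@En.n l1690 (nat_lit 7454) (nat_lit 7) (nat_lit 13))
    (@En.i (nat_lit 7030) (nat_lit 7) (nat_lit 7))
    (@En.i (nat_lit 8091) (nat_lit 8) (nat_lit 3))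
    (@En.i (nat_lit 8004) (nat_lit 0) (nat_lit 12))
    (@En.n l10969 (nat_lit 8090) (nat_lit 10) (nat_lit 3))
    (@En.i (nat_lit 7199) (nat_lit 12) (nat_lit 13))
    (@En.i (nat_lit 7464) (nat_lit 13) (nat_lit 6))
    (@En.n l2038 (nat_lit 8302) (nat_lit 14) (nat_lit 13))
    (@En.i (nat_lit 10323) (nat_lit 5) (nat_lit 9))
    (@En.n l17 (nat_lit 8089) (nat_lit 15) (nat_lit 2))))
  (@Cl.mk (nat_lit 0x20009000d000c00070003000c00040007000d0004000c00030009000e0004) (nat_lit 0x62a003009010240) (nat_lit 16) Lb.e (@T16.mk En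
    (@En.i (nat_lit 7638) (nat_lit 5) (nat_lit 4))
    (@En.i (nat_lit 3000) (nat_lit 1) (nat_lit 14))
    (@En.n l9591 (nat_lit 7278) (nat_lit 2) (nat_lit 9))
    (@En.i (nat_lit 8093) (nat_lit 3) (nat_lit 3))
    (@En.n l6825 (nat_lit 4291) (nat_lit 0) (nat_lit 12))
    (@En.n l9530 (nat_lit 8096) (nat_lit 5) (nat_lit 4))
    (@En.n l27752 (nat_lit 8342) (nat_lit 7) (nat_lit 13))
    (@En.n l9530 (nat_lit 7066) (nat_lit 11) (nat_lit 7))
    (@En.n l473 (nat_lit 900) (nat_lit 8) (nat_lit 4))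
    (@En.n l19713 (nat_lit 8099) (nat_lit 10) (nat_lit 12))
    (@En.n l10862 (nat_lit 8089) (nat_lit 10) (nat_lit 3))
    (@En.i (nat_lit 9307) (nat_lit 12) (nat_lit 7))
    (@En.n l22188 (nat_lit 8091) (nat_lit 13) (nat_lit 12))
    (@En.i (nat_lit 8340) (nat_lit 14) (nat_lit 13))
    (@En.i (nat_lit 10319) (nat_lit 11) (nat_lit 9))
    (@En.n l17 (nat_lit 8090) (nat_lit 15) (nat_lit 2))))
  (@Cl.mk (nat_lit 0x20009000c0006000d000b000400030007000d0005000c0003000a000e0004) (nat_lit 0x490a00009010440) (nat_lit 16) Lb.e (@T16.mk En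
    (@En.i (nat_lit 7639) (nat_lit 7) (nat_lit 4))
    (@En.i (nat_lit 3002) (nat_lit 1) (nat_lit 14))
    (@En.n l9591 (nat_lit 6995) (nat_lit 2) (nat_lit 10))
    (@En.i (nat_lit 8094) (nat_lit 3) (nat_lit 3))
    (@En.n l5011 (nat_lit 4290) (nat_lit 0) (nat_lit 12))
    (@En.n l28 (nat_lit 8097) (nat_lit 5) (nat_lit 5))
    (@En.n l1690 (nat_lit 8341) (nat_lit 7) (nat_lit 13))
    (@En.i (nat_lit 8090) (nat_lit 7) (nat_lit 7))
    (@En.n l28 (nat_lit 8089) (nat_lit 8) (nat_lit 3))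
    (@En.n l11283 (nat_lit 901) (nat_lit 0) (nat_lit 4))
    (@En.i (nat_lit 8098) (nat_lit 11) (nat_lit 11))
    (@En.n l5011 (nat_lit 7197) (nat_lit 12) (nat_lit 13))
    (@En.i (nat_lit 7467) (nat_lit 13) (nat_lit 6))
    (@En.n l2038 (nat_lit 8368) (nat_lit 14) (nat_lit 12))
    (@En.i (nat_lit 10322) (nat_lit 5) (nat_lit 9))
    (@En.n l17 (nat_lit 8091) (nat_lit 15) (nat_lit 2))))
  (@Cl.mk (nat_lit 0x20009000d0006000d0003000b00030007000d000b00050003000a000e0005) (nat_lit 0x520b0800a100370) (nat_lit 16) Lb.e (@T16.mk En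
    (@En.n l17645 (nat_lit 7637) (nat_lit 7) (nat_lit 5))
    (@En.i (nat_lit 3339) (nat_lit 1) (nat_lit 14))
    (@En.n l7145 (nat_lit 9534) (nat_lit 2) (nat_lit 10))
    (@En.n l50 (nat_lit 8089) (nat_lit 3) (nat_lit 3))
    (@En.i (nat_lit 11186) (nat_lit 4) (nat_lit 5))
    (@En.n l217 (nat_lit 7615) (nat_lit 13) (nat_lit 11))
    (@En.n l1690 (nat_lit 8240) (nat_lit 7) (nat_lit 13))
    (@En.i (nat_lit 7032) (nat_lit 7) (nat_lit 7))
    (@En.i (nat_lit 8094) (nat_lit 8) (nat_lit 3))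
    (@En.i (nat_lit 8005) (nat_lit 0) (nat_lit 11))
    (@En.n l10969 (nat_lit 8093) (nat_lit 10) (nat_lit 3))
    (@En.i (nat_lit 7196) (nat_lit 12) (nat_lit 13))
    (@En.i (nat_lit 9900) (nat_lit 13) (nat_lit 6))
    (@En.n l2038 (nat_lit 8326) (nat_lit 14) (nat_lit 13))
    (@En.n l10584 (nat_lit 10317) (nat_lit 5) (nat_lit 9))
    (@En.n l17 (nat_lit 8092) (nat_lit 15) (nat_lit 2))))
  (@Cl.mk (nat_lit 0x20009000d000c00070003000b00040007000d000b000500030009000e0005) (nat_lit 0x54a00800a100370) (nat_lit 16) Lb.e (@T16.mk En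
    (@En.n l21265 (nat_lit 7635) (nat_lit 5) (nat_lit 5))
    (@En.i (nat_lit 2999) (nat_lit 1) (nat_lit 14))
    (@En.n l21759 (nat_lit 6863) (nat_lit 2) (nat_lit 9))
    (@En.n l50 (nat_lit 8090) (nat_lit 3) (nat_lit 3))
    (@En.n l6574 (nat_lit 11184) (nat_lit 4) (nat_lit 5))
    (@En.n l217 (nat_lit 7613) (nat_lit 6) (nat_lit 11))
    (@En.n l27752 (nat_lit 8239) (nat_lit 7) (nat_lit 13))
    (@En.n l9530 (nat_lit 7054) (nat_lit 11) (nat_lit 7))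
    (@En.n l31060 (nat_lit 897) (nat_lit 8) (nat_lit 4))
    (@En.n l19713 (nat_lit 9626) (nat_lit 10) (nat_lit 11))
    (@En.n l10862 (nat_lit 8092) (nat_lit 10) (nat_lit 3))
    (@En.n l21759 (nat_lit 9309) (nat_lit 12) (nat_lit 7))
    (@En.n l22188 (nat_lit 8094) (nat_lit 13) (nat_lit 12))
    (@En.i (nat_lit 8328) (nat_lit 14) (nat_lit 13))
    (@En.n l35268 (nat_lit 10315) (nat_lit 3) (nat_lit 9))
    (@En.n l17 (nat_lit 8093) (nat_lit 15) (nat_lit 2))))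
  (@Cl.mk (nat_lit 0x20009000c0006000d000a000400030007000d000b00060003000a000e0005) (nat_lit 0x59097000a100420) (nat_lit 16) Lb.e (@T16.mk En
    (@En.n l17645 (nat_lit 7636) (nat_lit 7) (nat_lit 5))
    (@En.i (nat_lit 3331) (nat_lit 1) (nat_lit 14))
    (@En.n l21757 (nat_lit 9532) (nat_lit 2) (nat_lit 10))
    (@En.n l50 (nat_lit 8091) (nat_lit 3) (nat_lit 3))
    (@En.n l21250 (nat_lit 11183) (nat_lit 4) (nat_lit 6))
    (@En.n l217 (nat_lit 7614) (nat_lit 13) (nat_lit 11))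
    (@En.n l1690 (nat_lit 8327) (nat_lit 7) (nat_lit 13))
    (@En.i (nat_lit 8093) (nat_lit 7) (nat_lit 7))
    (@En.n l28 (nat_lit 8092) (nat_lit 8) (nat_lit 3))
    (@En.n l11283 (nat_lit 898) (nat_lit 0) (nat_lit 4))
    (@En.i (nat_lit 9621) (nat_lit 11) (nat_lit 10))
    (@En.n l5975 (nat_lit 7194) (nat_lit 12) (nat_lit 13))
    (@En.i (nat_lit 9018) (nat_lit 13) (nat_lit 6))
    (@En.n l2038 (nat_lit 8369) (nat_lit 14) (nat_lit 12))
    (@En.n l10584 (nat_lit 10316) (nat_lit 5) (nat_lit 9))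
    (@En.n l17 (nat_lit 8094) (nat_lit 15) (nat_lit 2))))
  (@Cl.mk (nat_lit 0x20008000d0006000c0003000c000b000400080004000c0005000a000e0004) (nat_lit 0x490704903000440) (nat_lit 16) Lb.e (@T16.mk En
    (@En.i (nat_lit 9575) (nat_lit 5) (nat_lit 4))
    (@En.i (nat_lit 3045) (nat_lit 1) (nat_lit 14))
    (@En.i (nat_lit 7274) (nat_lit 2) (nat_lit 10))
    (@En.n l7 (nat_lit 11188) (nat_lit 3) (nat_lit 5))
    (@En.n l18240 (nat_lit 10602) (nat_lit 10) (nat_lit 12))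
    (@En.n l7 (nat_lit 8098) (nat_lit 5) (nat_lit 4))
    (@En.i (nat_lit 7029) (nat_lit 6) (nat_lit 8))
    (@En.i (nat_lit 7396) (nat_lit 7) (nat_lit 4))
    (@En.n l644 (nat_lit 8092) (nat_lit 9) (nat_lit 11))
    (@En.n l3528 (nat_lit 7802) (nat_lit 10) (nat_lit 12))
    (@En.i (nat_lit 8096) (nat_lit 10) (nat_lit 3))
    (@En.n l3197 (nat_lit 10748) (nat_lit 12) (nat_lit 12))
    (@En.i (nat_lit 9466) (nat_lit 13) (nat_lit 6))
    (@En.n l619 (nat_lit 8315) (nat_lit 14) (nat_lit 13))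
    (@En.i (nat_lit 10582) (nat_lit 3) (nat_lit 8))
    (@En.n l17 (nat_lit 8095) (nat_lit 15) (nat_lit 2))))
noncomputable def a506 : T16 Cl := @T16.mk Cl
  (@Cl.mk (nat_lit 0x20008000d000b00070003000c000b000500080004000c00050009000e0004) (nat_lit 0x4a4001903000240) (nat_lit 16) Lb.e (@T16.mk En
    (@En.n l25748 (nat_lit 8129) (nat_lit 5) (nat_lit 4))
    (@En.i (nat_lit 3040) (nat_lit 1) (nat_lit 14))
    (@En.n l4488 (nat_lit 7275) (nat_lit 2) (nat_lit 9))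
    (@En.n l41203 (nat_lit 11187) (nat_lit 3) (nat_lit 5))
    (@En.n l12397 (nat_lit 10599) (nat_lit 10) (nat_lit 12))
    (@En.n l24951 (nat_lit 8100) (nat_lit 5) (nat_lit 4))
    (@En.n l23051 (nat_lit 7067) (nat_lit 10) (nat_lit 8))
    (@En.n l4147 (nat_lit 2786) (nat_lit 7) (nat_lit 5))
    (@En.n l24939 (nat_lit 8093) (nat_lit 9) (nat_lit 11))
    (@En.n l18244 (nat_lit 7392) (nat_lit 10) (nat_lit 12))
    (@En.n l11 (nat_lit 8095) (nat_lit 10) (nat_lit 3))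
    (@En.n l21771 (nat_lit 9311) (nat_lit 12) (nat_lit 7))
    (@En.i (nat_lit 8097) (nat_lit 13) (nat_lit 11))
    (@En.n l1144 (nat_lit 8316) (nat_lit 14) (nat_lit 13))
    (@En.n l25484 (nat_lit 10581) (nat_lit 3) (nat_lit 8))
    (@En.n l17 (nat_lit 8096) (nat_lit 15) (nat_lit 2))))
  (@Cl.mk (nat_lit 0x20008000b0006000c000b000a0005000400080005000c0006000a000e0004) (nat_lit 0x430038004000270) (nat_lit 16) Lb.e (@T16.mk En
    (@En.n l19357 (nat_lit 9576) (nat_lit 15) (nat_lit 4))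
    (@En.i (nat_lit 3047) (nat_lit 1) (nat_lit 14))
    (@En.n l34283 (nat_lit 7276) (nat_lit 2) (nat_lit 10))
    (@En.n l7 (nat_lit 11185) (nat_lit 3) (nat_lit 6))
    (@En.n l12397 (nat_lit 10595) (nat_lit 5) (nat_lit 12))
    (@En.n l7 (nat_lit 8201) (nat_lit 5) (nat_lit 5))
    (@En.n l1157 (nat_lit 8096) (nat_lit 6) (nat_lit 8))
    (@En.i (nat_lit 8095) (nat_lit 7) (nat_lit 4))
    (@En.n l1593 (nat_lit 2785) (nat_lit 8) (nat_lit 5))
    (@En.n l4380 (nat_lit 8094) (nat_lit 10) (nat_lit 10))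
    (@En.n l55 (nat_lit 7393) (nat_lit 11) (nat_lit 11))
    (@En.n l39591 (nat_lit 8730) (nat_lit 12) (nat_lit 12))
    (@En.i (nat_lit 9483) (nat_lit 13) (nat_lit 6))
    (@En.n l13405 (nat_lit 6886) (nat_lit 7) (nat_lit 11))
    (@En.n l34283 (nat_lit 10580) (nat_lit 14) (nat_lit 8))
    (@En.n l17 (nat_lit 8097) (nat_lit 15) (nat_lit 2))))
  (@Cl.mk (nat_lit 0x2000a000d0006000b0003000c0006000c00050004000c0004000a000e0004) (nat_lit 0x6a09050a0000240) (nat_lit 16) Lb.e (@T16.mk En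
    (@En.i (nat_lit 8121) (nat_lit 5) (nat_lit 4))
    (@En.i (nat_lit 7416) (nat_lit 1) (nat_lit 14))
    (@En.n l8012 (nat_lit 7373) (nat_lit 2) (nat_lit 10))
    (@En.i (nat_lit 9621) (nat_lit 3) (nat_lit 4))
    (@En.n l27662 (nat_lit 10892) (nat_lit 10) (nat_lit 12))
    (@En.i (nat_lit 8089) (nat_lit 5) (nat_lit 4))
    (@En.i (nat_lit 7393) (nat_lit 6) (nat_lit 5))
    (@En.n l19712 (nat_lit 8343) (nat_lit 8) (nat_lit 12))
    (@En.n l19713 (nat_lit 8099) (nat_lit 8) (nat_lit 6))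
    (@En.n l28 (nat_lit 7800) (nat_lit 10) (nat_lit 12))
    (@En.n l10969 (nat_lit 8100) (nat_lit 10) (nat_lit 3))
    (@En.n l7457 (nat_lit 8710) (nat_lit 0) (nat_lit 11))
    (@En.i (nat_lit 9460) (nat_lit 13) (nat_lit 6))
    (@En.n l2038 (nat_lit 8321) (nat_lit 5) (nat_lit 13))
    (@En.i (nat_lit 8775) (nat_lit 3) (nat_lit 10))
    (@En.n l17 (nat_lit 8098) (nat_lit 15) (nat_lit 2))))
  (@Cl.mk (nat_lit 0x2000a0008000d0007000c00030006000c00040008000c00040009000e0004) (nat_lit 0x75b0200a02002c0) (nat_lit 16) Lb.e (@T16.mk En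
    (@En.i (nat_lit 8119) (nat_lit 6) (nat_lit 4))
    (@En.n l476 (nat_lit 7418) (nat_lit 1) (nat_lit 14))
    (@En.i (nat_lit 7205) (nat_lit 2) (nat_lit 9))
    (@En.i (nat_lit 9626) (nat_lit 3) (nat_lit 4))
    (@En.i (nat_lit 10889) (nat_lit 11) (nat_lit 12))
    (@En.n l4813 (nat_lit 7068) (nat_lit 5) (nat_lit 8))
    (@En.n l10969 (nat_lit 7392) (nat_lit 6) (nat_lit 4))
    (@En.n l2125 (nat_lit 8621) (nat_lit 8) (nat_lit 12))
    (@En.i (nat_lit 11034) (nat_lit 12) (nat_lit 6))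
    (@En.n l1865 (nat_lit 8101) (nat_lit 9) (nat_lit 3))
    (@En.n l2038 (nat_lit 8706) (nat_lit 0) (nat_lit 12))
    (@En.i (nat_lit 9461) (nat_lit 12) (nat_lit 7))
    (@En.n l12731 (nat_lit 8098) (nat_lit 13) (nat_lit 13))
    (@En.n l10971 (nat_lit 8095) (nat_lit 14) (nat_lit 8))
    (@En.i (nat_lit 8776) (nat_lit 4) (nat_lit 10))
    (@En.n l50 (nat_lit 8099) (nat_lit 15) (nat_lit 2))))
  (@Cl.mk (nat_lit 0x2000a000d000a00070003000c0006000c00060004000c00040009000e0004) (nat_lit 0x6a80030a0000240) (nat_lit 16) Lb.e (@T16.mk En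
    (@En.n l24385 (nat_lit 8120) (nat_lit 5) (nat_lit 4))
    (@En.i (nat_lit 7410) (nat_lit 1) (nat_lit 14))
    (@En.n l149 (nat_lit 7281) (nat_lit 2) (nat_lit 9))
    (@En.i (nat_lit 9619) (nat_lit 3) (nat_lit 4))
    (@En.n l24386 (nat_lit 10899) (nat_lit 10) (nat_lit 12))
    (@En.i (nat_lit 8090) (nat_lit 5) (nat_lit 4))
    (@En.n l8616 (nat_lit 2807) (nat_lit 6) (nat_lit 6))
    (@En.n l24387 (nat_lit 8344) (nat_lit 8) (nat_lit 12))
    (@En.n l24388 (nat_lit 8101) (nat_lit 8) (nat_lit 6))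
    (@En.n l19713 (nat_lit 8116) (nat_lit 10) (nat_lit 12))
    (@En.n l10862 (nat_lit 8098) (nat_lit 10) (nat_lit 3))
    (@En.n l149 (nat_lit 8996) (nat_lit 12) (nat_lit 7))
    (@En.n l9530 (nat_lit 8201) (nat_lit 13) (nat_lit 10))
    (@En.i (nat_lit 8323) (nat_lit 5) (nat_lit 13))
    (@En.n l20981 (nat_lit 8774) (nat_lit 3) (nat_lit 10))
    (@En.n l17 (nat_lit 8100) (nat_lit 15) (nat_lit 2))))
  (@Cl.mk (nat_lit 0x2000a0008000d000b000800030006000c00050008000c00040008000e0004) (nat_lit 0x65b9600a0200280) (nat_lit 16) Lb.e (@T16.mk En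
    (@En.n l117 (nat_lit 8118) (nat_lit 6) (nat_lit 4))
    (@En.n l3337 (nat_lit 7419) (nat_lit 1) (nat_lit 14))
    (@En.i (nat_lit 7283) (nat_lit 2) (nat_lit 8))
    (@En.n l2576 (nat_lit 9625) (nat_lit 3) (nat_lit 4))
    (@En.n l2579 (nat_lit 10901) (nat_lit 11) (nat_lit 12))
    (@En.i (nat_lit 7069) (nat_lit 10) (nat_lit 8))
    (@En.n l4817 (nat_lit 2804) (nat_lit 6) (nat_lit 5))
    (@En.i (nat_lit 7901) (nat_lit 8) (nat_lit 12))
    (@En.i (nat_lit 3463) (nat_lit 8) (nat_lit 6))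
    (@En.n l2869 (nat_lit 8099) (nat_lit 9) (nat_lit 3))
    (@En.n l2100 (nat_lit 9376) (nat_lit 0) (nat_lit 8))
    (@En.n l2579 (nat_lit 8116) (nat_lit 12) (nat_lit 11))
    (@En.n l4270 (nat_lit 8100) (nat_lit 13) (nat_lit 13))
    (@En.n l34768 (nat_lit 8096) (nat_lit 14) (nat_lit 8))
    (@En.i (nat_lit 8408) (nat_lit 4) (nat_lit 10))
    (@En.n l11 (nat_lit 8101) (nat_lit 15) (nat_lit 2))))
  (@Cl.mk (nat_lit 0x2000b000a0008000800080005000d0006000a0003000800080008000e0006) (nat_lit 0x175120703051460) (nat_lit 16) Lb.e (@T16.mk En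
    (@En.n l117 (nat_lit 7736) (nat_lit 11) (nat_lit 6))
    (@En.n l32322 (nat_lit 5953) (nat_lit 1) (nat_lit 14))
    (@En.n l10895 (nat_lit 8105) (nat_lit 8) (nat_lit 8))
    (@En.n l644 (nat_lit 7705) (nat_lit 8) (nat_lit 8))
    (@En.n l34269 (nat_lit 10737) (nat_lit 4) (nat_lit 8))
    (@En.n l34270 (nat_lit 8103) (nat_lit 5) (nat_lit 3))
    (@En.i (nat_lit 5799) (nat_lit 0) (nat_lit 10))
    (@En.n l34271 (nat_lit 4780) (nat_lit 7) (nat_lit 6))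
    (@En.n l6444 (nat_lit 7488) (nat_lit 9) (nat_lit 13))
    (@En.n l34272 (nat_lit 12120) (nat_lit 9) (nat_lit 5))
    (@En.n l12845 (nat_lit 7722) (nat_lit 11) (nat_lit 8))
    (@En.n l34273 (nat_lit 8037) (nat_lit 8) (nat_lit 8))
    (@En.n l25142 (nat_lit 8110) (nat_lit 13) (nat_lit 8))
    (@En.n l34274 (nat_lit 6470) (nat_lit 14) (nat_lit 10))
    (@En.i (nat_lit 2594) (nat_lit 9) (nat_lit 11))
    (@En.n l11 (nat_lit 8102) (nat_lit 15) (nat_lit 2))))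
  (@Cl.mk (nat_lit 0x2000b00090008000800080005000d000900070003000800080008000e0007) (nat_lit 0x125120810051540) (nat_lit 16) Lb.e (@T16.mk En
    (@En.n l34497 (nat_lit 7735) (nat_lit 11) (nat_lit 7))
    (@En.n l1175 (nat_lit 11516) (nat_lit 1) (nat_lit 14))
    (@En.n l20809 (nat_lit 8104) (nat_lit 8) (nat_lit 8))
    (@En.n l10056 (nat_lit 7704) (nat_lit 8) (nat_lit 8))
    (@En.n l34498 (nat_lit 10788) (nat_lit 4) (nat_lit 8))
    (@En.n l34499 (nat_lit 8102) (nat_lit 5) (nat_lit 3))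
    (@En.i (nat_lit 5792) (nat_lit 0) (nat_lit 7))
    (@En.n l34500 (nat_lit 5301) (nat_lit 8) (nat_lit 9))
    (@En.n l5 (nat_lit 7487) (nat_lit 9) (nat_lit 13))
    (@En.n l34501 (nat_lit 8044) (nat_lit 9) (nat_lit 5))
    (@En.n l16716 (nat_lit 7721) (nat_lit 11) (nat_lit 8))
    (@En.n l152 (nat_lit 8038) (nat_lit 8) (nat_lit 8))
    (@En.n l10848 (nat_lit 8109) (nat_lit 13) (nat_lit 8))
    (@En.n l217 (nat_lit 5699) (nat_lit 14) (nat_lit 9))
    (@En.n l30912 (nat_lit 2597) (nat_lit 9) (nat_lit 11))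
    (@En.n l28 (nat_lit 8103) (nat_lit 15) (nat_lit 2))))
  (@Cl.mk (nat_lit 0x20006000d000a0008000300090008000e00060002000a00080007000e0008) (nat_lit 0x91307430032032) (nat_lit 16) Lb.e (@T16.mk En
    (@En.n l15940 (nat_lit 8103) (nat_lit 11) (nat_lit 8))
    (@En.n l180 (nat_lit 5211) (nat_lit 1) (nat_lit 14))
    (@En.n l6105 (nat_lit 8107) (nat_lit 2) (nat_lit 7))
    (@En.n l2900 (nat_lit 5737) (nat_lit 14) (nat_lit 8))
    (@En.n l30612 (nat_lit 7243) (nat_lit 4) (nat_lit 10))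
    (@En.n l17 (nat_lit 8104) (nat_lit 5) (nat_lit 2))
    (@En.n l30613 (nat_lit 7177) (nat_lit 6) (nat_lit 6))
    (@En.n l2576 (nat_lit 7531) (nat_lit 8) (nat_lit 14))
    (@En.n l3 (nat_lit 7072) (nat_lit 2) (nat_lit 8))
    (@En.n l998 (nat_lit 11345) (nat_lit 10) (nat_lit 9))
    (@En.n l50 (nat_lit 8105) (nat_lit 10) (nat_lit 3))
    (@En.n l11823 (nat_lit 5732) (nat_lit 12) (nat_lit 8))
    (@En.n l217 (nat_lit 5289) (nat_lit 13) (nat_lit 10))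
    (@En.n l11828 (nat_lit 7442) (nat_lit 8) (nat_lit 13))
    (@En.n l30472 (nat_lit 11728) (nat_lit 8) (nat_lit 6))
    (@En.n l11 (nat_lit 8104) (nat_lit 15) (nat_lit 2))))
  (@Cl.mk (nat_lit 0x20006000d0007000b000300090008000e00050002000a00090007000e0008) (nat_lit 0x80307350037032) (nat_lit 16) Lb.e (@T16.mk En
    (@En.n l23144 (nat_lit 8102) (nat_lit 11) (nat_lit 8))
    (@En.n l180 (nat_lit 5213) (nat_lit 1) (nat_lit 14))
    (@En.n l6105 (nat_lit 8106) (nat_lit 2) (nat_lit 7))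
    (@En.n l77 (nat_lit 5741) (nat_lit 14) (nat_lit 9))
    (@En.n l2125 (nat_lit 7241) (nat_lit 4) (nat_lit 10))
    (@En.n l17 (nat_lit 8105) (nat_lit 5) (nat_lit 2))
    (@En.n l3098 (nat_lit 7176) (nat_lit 6) (nat_lit 5))
    (@En.n l2576 (nat_lit 7532) (nat_lit 8) (nat_lit 14))
    (@En.n l3 (nat_lit 7068) (nat_lit 2) (nat_lit 8))
    (@En.n l23379 (nat_lit 10743) (nat_lit 10) (nat_lit 9))
    (@En.i (nat_lit 8104) (nat_lit 10) (nat_lit 3))
    (@En.n l23382 (nat_lit 6970) (nat_lit 12) (nat_lit 11))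
    (@En.n l30471 (nat_lit 4782) (nat_lit 13) (nat_lit 7))
    (@En.n l11828 (nat_lit 7451) (nat_lit 8) (nat_lit 13))
    (@En.n l30472 (nat_lit 11723) (nat_lit 8) (nat_lit 6))
    (@En.n l11 (nat_lit 8105) (nat_lit 15) (nat_lit 2))))
  (@Cl.mk (nat_lit 0x20005000d000c000a0003000900040009000e00060002000b0007000e0007) (nat_lit 0x79803046005030) (nat_lit 16) Lb.e (@T16.mk En
    (@En.i (nat_lit 8110) (nat_lit 12) (nat_lit 7))
    (@En.n l6606 (nat_lit 11375) (nat_lit 1) (nat_lit 14))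
    (@En.n l7490 (nat_lit 11370) (nat_lit 14) (nat_lit 7))
    (@En.i (nat_lit 9976) (nat_lit 3) (nat_lit 11))
    (@En.n l50 (nat_lit 8106) (nat_lit 4) (nat_lit 2))
    (@En.n l9902 (nat_lit 7663) (nat_lit 5) (nat_lit 6))
    (@En.n l2544 (nat_lit 2381) (nat_lit 7) (nat_lit 14))
    (@En.n l3213 (nat_lit 7464) (nat_lit 2) (nat_lit 9))
    (@En.i (nat_lit 8112) (nat_lit 8) (nat_lit 4))
    (@En.i (nat_lit 10746) (nat_lit 10) (nat_lit 9))
    (@En.i (nat_lit 8107) (nat_lit 10) (nat_lit 3))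
    (@En.i (nat_lit 11695) (nat_lit 12) (nat_lit 10))
    (@En.n l1578 (nat_lit 8108) (nat_lit 13) (nat_lit 12))
    (@En.n l617 (nat_lit 11351) (nat_lit 9) (nat_lit 13))
    (@En.i (nat_lit 11691) (nat_lit 13) (nat_lit 5))
    (@En.n l3 (nat_lit 8106) (nat_lit 15) (nat_lit 2))))
  (@Cl.mk (nat_lit 0x20005000d0009000d0003000900030009000e00070002000b0007000e0007) (nat_lit 0x84200054005030) (nat_lit 16) Lb.e (@T16.mk En
    (@En.n l24128 (nat_lit 8109) (nat_lit 12) (nat_lit 7))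
    (@En.n l6606 (nat_lit 11373) (nat_lit 1) (nat_lit 14))
    (@En.n l7490 (nat_lit 11371) (nat_lit 14) (nat_lit 7))
    (@En.n l10441 (nat_lit 9973) (nat_lit 3) (nat_lit 11))
    (@En.n l50 (nat_lit 8107) (nat_lit 4) (nat_lit 2))
    (@En.n l10189 (nat_lit 11700) (nat_lit 5) (nat_lit 7))
    (@En.n l2544 (nat_lit 2418) (nat_lit 7) (nat_lit 14))
    (@En.n l3213 (nat_lit 9900) (nat_lit 2) (nat_lit 9))
    (@En.i (nat_lit 8108) (nat_lit 8) (nat_lit 3))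
    (@En.n l24129 (nat_lit 11369) (nat_lit 10) (nat_lit 9))
    (@En.n l11 (nat_lit 8106) (nat_lit 10) (nat_lit 3))
    (@En.n l4151 (nat_lit 1596) (nat_lit 12) (nat_lit 13))
    (@En.n l5076 (nat_lit 10985) (nat_lit 13) (nat_lit 9))
    (@En.n l8572 (nat_lit 10789) (nat_lit 9) (nat_lit 13))
    (@En.i (nat_lit 11689) (nat_lit 13) (nat_lit 5))
    (@En.n l3 (nat_lit 8107) (nat_lit 15) (nat_lit 2))))
  (@Cl.mk (nat_lit 0x20005000c0009000d0008000400030009000e00070002000b0008000e0007) (nat_lit 0x84240051007430) (nat_lit 16) Lb.e (@T16.mk En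
    (@En.n l32142 (nat_lit 8111) (nat_lit 12) (nat_lit 7))
    (@En.n l3513 (nat_lit 12246) (nat_lit 1) (nat_lit 14))
    (@En.n l7491 (nat_lit 11641) (nat_lit 14) (nat_lit 8))
    (@En.n l10441 (nat_lit 8911) (nat_lit 3) (nat_lit 11))
    (@En.n l50 (nat_lit 8108) (nat_lit 4) (nat_lit 2))
    (@En.n l10189 (nat_lit 11701) (nat_lit 5) (nat_lit 7))
    (@En.n l3815 (nat_lit 2428) (nat_lit 7) (nat_lit 14))
    (@En.n l810 (nat_lit 9626) (nat_lit 2) (nat_lit 9))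
    (@En.n l28 (nat_lit 8107) (nat_lit 8) (nat_lit 3))
    (@En.n l9174 (nat_lit 12250) (nat_lit 9) (nat_lit 4))
    (@En.n l7490 (nat_lit 8104) (nat_lit 11) (nat_lit 8))
    (@En.n l8347 (nat_lit 972) (nat_lit 12) (nat_lit 13))
    (@En.i (nat_lit 12206) (nat_lit 13) (nat_lit 9))
    (@En.n l7857 (nat_lit 10786) (nat_lit 9) (nat_lit 12))
    (@En.n l3706 (nat_lit 11688) (nat_lit 13) (nat_lit 5))
    (@En.n l3 (nat_lit 8108) (nat_lit 15) (nat_lit 2))))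
  (@Cl.mk (nat_lit 0x2000c0008000700070004000d0008000d00030008000300090009000e0008) (nat_lit 0x640007030000660) (nat_lit 16) Lb.e (@T16.mk En
    (@En.n l34191 (nat_lit 11704) (nat_lit 12) (nat_lit 8))
    (@En.n l22013 (nat_lit 12803) (nat_lit 1) (nat_lit 14))
    (@En.n l33519 (nat_lit 8107) (nat_lit 7) (nat_lit 9))
    (@En.n l34192 (nat_lit 9310) (nat_lit 3) (nat_lit 9))
    (@En.n l1029 (nat_lit 8111) (nat_lit 4) (nat_lit 3))
    (@En.n l8669 (nat_lit 10787) (nat_lit 0) (nat_lit 8))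
    (@En.n l25917 (nat_lit 8110) (nat_lit 6) (nat_lit 3))
    (@En.n l22013 (nat_lit 3038) (nat_lit 0) (nat_lit 13))
    (@En.n l28556 (nat_lit 12214) (nat_lit 3) (nat_lit 8))
    (@En.n l5694 (nat_lit 11354) (nat_lit 10) (nat_lit 13))
    (@En.n l34193 (nat_lit 4180) (nat_lit 10) (nat_lit 4))
    (@En.n l2776 (nat_lit 12569) (nat_lit 12) (nat_lit 7))
    (@En.i (nat_lit 11016) (nat_lit 13) (nat_lit 7))
    (@En.n l34194 (nat_lit 11374) (nat_lit 14) (nat_lit 8))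
    (@En.n l24877 (nat_lit 9965) (nat_lit 8) (nat_lit 12))
    (@En.n l3 (nat_lit 8109) (nat_lit 15) (nat_lit 2))))
  (@Cl.mk (nat_lit 0x2000c0008000700070004000d000c000900030008000400090009000e0007) (nat_lit 0x640006600000570) (nat_lit 16) Lb.e (@T16.mk En
    (@En.n l20173 (nat_lit 11742) (nat_lit 10) (nat_lit 7))
    (@En.n l7435 (nat_lit 12804) (nat_lit 1) (nat_lit 14))
    (@En.n l152 (nat_lit 8106) (nat_lit 7) (nat_lit 9))
    (@En.n l3213 (nat_lit 9308) (nat_lit 3) (nat_lit 9))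
    (@En.n l7562 (nat_lit 8113) (nat_lit 4) (nat_lit 4))
    (@En.n l25314 (nat_lit 10741) (nat_lit 5) (nat_lit 8))
    (@En.n l24128 (nat_lit 8109) (nat_lit 6) (nat_lit 3))
    (@En.n l16824 (nat_lit 12092) (nat_lit 0) (nat_lit 9))
    (@En.n l29480 (nat_lit 8111) (nat_lit 9) (nat_lit 12))
    (@En.n l617 (nat_lit 11353) (nat_lit 10) (nat_lit 13))
    (@En.n l2125 (nat_lit 4175) (nat_lit 10) (nat_lit 4))
    (@En.n l29481 (nat_lit 11749) (nat_lit 12) (nat_lit 7))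
    (@En.n l7435 (nat_lit 4174) (nat_lit 13) (nat_lit 7))
    (@En.n l7490 (nat_lit 11376) (nat_lit 14) (nat_lit 8))
    (@En.n l20235 (nat_lit 9964) (nat_lit 8) (nat_lit 12))
    (@En.n l50 (nat_lit 8110) (nat_lit 15) (nat_lit 2))))
  (@Cl.mk (nat_lit 0x2000c0009000700070004000c0008000d00070004000300090009000e0008) (nat_lit 0x850005030000640) (nat_lit 16) Lb.e (@T16.mk En
    (@En.n l6067 (nat_lit 11703) (nat_lit 12) (nat_lit 8))
    (@En.n l4353 (nat_lit 12802) (nat_lit 1) (nat_lit 14))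
    (@En.n l37776 (nat_lit 8108) (nat_lit 7) (nat_lit 9))
    (@En.n l37777 (nat_lit 10049) (nat_lit 3) (nat_lit 9))
    (@En.n l14781 (nat_lit 8109) (nat_lit 4) (nat_lit 3))
    (@En.n l4798 (nat_lit 8070) (nat_lit 0) (nat_lit 4))
    (@En.n l28647 (nat_lit 8103) (nat_lit 6) (nat_lit 7))
    (@En.n l4353 (nat_lit 3037) (nat_lit 8) (nat_lit 13))
    (@En.n l37778 (nat_lit 12213) (nat_lit 3) (nat_lit 8))
    (@En.n l37779 (nat_lit 10114) (nat_lit 10) (nat_lit 12))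
    (@En.n l37780 (nat_lit 11932) (nat_lit 10) (nat_lit 4))
    (@En.n l61 (nat_lit 12570) (nat_lit 12) (nat_lit 7))
    (@En.n l3832 (nat_lit 11017) (nat_lit 13) (nat_lit 7))
    (@En.n l22298 (nat_lit 11638) (nat_lit 14) (nat_lit 9))
    (@En.n l31527 (nat_lit 9966) (nat_lit 10) (nat_lit 12))
    (@En.n l3 (nat_lit 8111) (nat_lit 15) (nat_lit 2))))
noncomputable def a507 : T16 Cl := @T16.mk Cl
  (@Cl.mk (nat_lit 0x20005000c000c0007000b000400040009000e00050002000b0009000e0007) (nat_lit 0x20060036008640) (nat_lit 16) Lb.e (@T16.mk En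
    (@En.n l7562 (nat_lit 8113) (nat_lit 12) (nat_lit 7))
    (@En.n l6606 (nat_lit 12247) (nat_lit 13) (nat_lit 14))
    (@En.n l7405 (nat_lit 10999) (nat_lit 14) (nat_lit 9))
    (@En.i (nat_lit 8899) (nat_lit 3) (nat_lit 11))
    (@En.n l50 (nat_lit 8112) (nat_lit 4) (nat_lit 2))
    (@En.n l2678 (nat_lit 11557) (nat_lit 5) (nat_lit 5))
    (@En.n l3815 (nat_lit 2868) (nat_lit 7) (nat_lit 14))
    (@En.n l810 (nat_lit 8099) (nat_lit 2) (nat_lit 9))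
    (@En.n l28 (nat_lit 8114) (nat_lit 8) (nat_lit 4))
    (@En.i (nat_lit 8108) (nat_lit 9) (nat_lit 4))
    (@En.i (nat_lit 3629) (nat_lit 11) (nat_lit 11))
    (@En.n l7490 (nat_lit 8105) (nat_lit 12) (nat_lit 7))
    (@En.n l11118 (nat_lit 12250) (nat_lit 13) (nat_lit 12))
    (@En.i (nat_lit 11000) (nat_lit 9) (nat_lit 12))
    (@En.i (nat_lit 12089) (nat_lit 13) (nat_lit 5))
    (@En.n l3 (nat_lit 8112) (nat_lit 15) (nat_lit 2))))
  (@Cl.mk (nat_lit 0x2000c000a000700070004000c000c0006000a0004000400090009000e0006) (nat_lit 0x570009901000470) (nat_lit 16) Lb.e (@T16.mk En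
    (@En.i (nat_lit 11554) (nat_lit 5) (nat_lit 6))
    (@En.n l4316 (nat_lit 12771) (nat_lit 1) (nat_lit 14))
    (@En.n l16106 (nat_lit 8112) (nat_lit 7) (nat_lit 9))
    (@En.n l25659 (nat_lit 9461) (nat_lit 3) (nat_lit 9))
    (@En.n l17339 (nat_lit 8115) (nat_lit 12) (nat_lit 4))
    (@En.n l2438 (nat_lit 8111) (nat_lit 5) (nat_lit 4))
    (@En.n l17971 (nat_lit 3624) (nat_lit 0) (nat_lit 10))
    (@En.n l33046 (nat_lit 8102) (nat_lit 7) (nat_lit 6))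
    (@En.n l25660 (nat_lit 8070) (nat_lit 4) (nat_lit 12))
    (@En.i (nat_lit 10117) (nat_lit 10) (nat_lit 12))
    (@En.n l33047 (nat_lit 8071) (nat_lit 10) (nat_lit 4))
    (@En.n l8390 (nat_lit 12564) (nat_lit 12) (nat_lit 7))
    (@En.n l4316 (nat_lit 11561) (nat_lit 13) (nat_lit 7))
    (@En.i (nat_lit 12257) (nat_lit 14) (nat_lit 10))
    (@En.n l2439 (nat_lit 8892) (nat_lit 9) (nat_lit 12))
    (@En.n l50 (nat_lit 8113) (nat_lit 15) (nat_lit 2))))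
  (@Cl.mk (nat_lit 0x20005000e000c00020008000c00040009000e00040002000b0008000e0007) (nat_lit 0x73041056006520) (nat_lit 16) Lb.e (@T16.mk En
    (@En.i (nat_lit 8115) (nat_lit 4) (nat_lit 7))
    (@En.i (nat_lit 12091) (nat_lit 6) (nat_lit 14))
    (@En.i (nat_lit 12780) (nat_lit 6) (nat_lit 8))
    (@En.i (nat_lit 8945) (nat_lit 3) (nat_lit 11))
    (@En.n l50 (nat_lit 8114) (nat_lit 4) (nat_lit 2))
    (@En.i (nat_lit 12090) (nat_lit 5) (nat_lit 4))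
    (@En.n l2544 (nat_lit 3539) (nat_lit 7) (nat_lit 14))
    (@En.i (nat_lit 7198) (nat_lit 12) (nat_lit 9))
    (@En.i (nat_lit 8106) (nat_lit 8) (nat_lit 4))
    (@En.i (nat_lit 5542) (nat_lit 10) (nat_lit 12))
    (@En.i (nat_lit 10742) (nat_lit 11) (nat_lit 8))
    (@En.n l11 (nat_lit 8114) (nat_lit 11) (nat_lit 2))
    (@En.n l1578 (nat_lit 8112) (nat_lit 13) (nat_lit 12))
    (@En.n l617 (nat_lit 12538) (nat_lit 1) (nat_lit 14))
    (@En.i (nat_lit 12779) (nat_lit 2) (nat_lit 5))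
    (@En.n l3 (nat_lit 8114) (nat_lit 15) (nat_lit 2))))
  (@Cl.mk (nat_lit 0x20007000b000400090009000e00050002000c0009000700070004000e000c) (nat_lit 0x1006600850006a) (nat_lit 16) Lb.e (@T16.mk En
    (@En.n l7432 (nat_lit 8113) (nat_lit 9) (nat_lit 12))
    (@En.n l617 (nat_lit 12534) (nat_lit 1) (nat_lit 14))
    (@En.n l2125 (nat_lit 11569) (nat_lit 2) (nat_lit 4))
    (@En.n l3261 (nat_lit 12560) (nat_lit 3) (nat_lit 7))
    (@En.n l7435 (nat_lit 11564) (nat_lit 4) (nat_lit 7))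
    (@En.n l18234 (nat_lit 12259) (nat_lit 5) (nat_lit 9))
    (@En.i (nat_lit 8931) (nat_lit 7) (nat_lit 12))
    (@En.n l50 (nat_lit 8115) (nat_lit 7) (nat_lit 2))
    (@En.i (nat_lit 11555) (nat_lit 8) (nat_lit 5))
    (@En.n l7435 (nat_lit 12511) (nat_lit 10) (nat_lit 14))
    (@En.n l152 (nat_lit 8114) (nat_lit 7) (nat_lit 9))
    (@En.n l4817 (nat_lit 8729) (nat_lit 12) (nat_lit 9))
    (@En.i (nat_lit 8110) (nat_lit 4) (nat_lit 4))
    (@En.i (nat_lit 3626) (nat_lit 14) (nat_lit 11))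
    (@En.n l3333 (nat_lit 10738) (nat_lit 6) (nat_lit 7))
    (@En.n l11 (nat_lit 8115) (nat_lit 15) (nat_lit 2))))
  (@Cl.mk (nat_lit 0x2000b0008000b0007000c0005000b000500040008000c00050009000e0004) (nat_lit 0x658020900300290) (nat_lit 16) Lb.e (@T16.mk En
    (@En.n l34692 (nat_lit 8117) (nat_lit 15) (nat_lit 4))
    (@En.n l24086 (nat_lit 7421) (nat_lit 1) (nat_lit 14))
    (@En.n l10181 (nat_lit 7286) (nat_lit 2) (nat_lit 9))
    (@En.n l24602 (nat_lit 9624) (nat_lit 3) (nat_lit 5))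
    (@En.i (nat_lit 10471) (nat_lit 5) (nat_lit 12))
    (@En.n l16834 (nat_lit 8101) (nat_lit 5) (nat_lit 8))
    (@En.i (nat_lit 8099) (nat_lit 6) (nat_lit 4))
    (@En.n l22670 (nat_lit 2824) (nat_lit 7) (nat_lit 5))
    (@En.n l34693 (nat_lit 7902) (nat_lit 9) (nat_lit 11))
    (@En.n l5588 (nat_lit 3461) (nat_lit 9) (nat_lit 5))
    (@En.n l22670 (nat_lit 7457) (nat_lit 11) (nat_lit 12))
    (@En.n l34694 (nat_lit 9382) (nat_lit 12) (nat_lit 7))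
    (@En.n l24602 (nat_lit 8202) (nat_lit 7) (nat_lit 11))
    (@En.n l10971 (nat_lit 8097) (nat_lit 14) (nat_lit 8))
    (@En.n l22670 (nat_lit 8431) (nat_lit 14) (nat_lit 11))
    (@En.n l50 (nat_lit 8116) (nat_lit 15) (nat_lit 2))))
  (@Cl.mk (nat_lit 0x40004000b0008000b0006000c0005000a000500040008000c000c0006000a) (nat_lit 0x74402080046101) (nat_lit 16) Lb.e (@T16.mk En
    (@En.n l27672 (nat_lit 7285) (nat_lit 0) (nat_lit 10))
    (@En.n l742 (nat_lit 10372) (nat_lit 1) (nat_lit 6))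
    (@En.n l27673 (nat_lit 8116) (nat_lit 4) (nat_lit 12))
    (@En.n l27674 (nat_lit 10476) (nat_lit 7) (nat_lit 12))
    (@En.n l27675 (nat_lit 8118) (nat_lit 11) (nat_lit 8))
    (@En.n l27674 (nat_lit 8119) (nat_lit 12) (nat_lit 4))
    (@En.n l15205 (nat_lit 2798) (nat_lit 0) (nat_lit 5))
    (@En.n l27676 (nat_lit 8623) (nat_lit 1) (nat_lit 10))
    (@En.n l27677 (nat_lit 6344) (nat_lit 8) (nat_lit 5))
    (@En.i (nat_lit 8704) (nat_lit 2) (nat_lit 12))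
    (@En.n l13919 (nat_lit 9381) (nat_lit 4) (nat_lit 6))
    (@En.i (nat_lit 8203) (nat_lit 7) (nat_lit 11))
    (@En.n l27672 (nat_lit 9576) (nat_lit 13) (nat_lit 8))
    (@En.n l27678 (nat_lit 9434) (nat_lit 14) (nat_lit 11))
    (@En.n l27679 (nat_lit 8124) (nat_lit 12) (nat_lit 4))
    (@En.i (nat_lit 10376) (nat_lit 0) (nat_lit 4))))
  (@Cl.mk (nat_lit 0x30006000b00050008000c000c0005000900040004000a0008000d000b0007) (nat_lit 0x90351010064950) (nat_lit 16) Lb.e (@T16.mk En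
    (@En.n l2135 (nat_lit 9379) (nat_lit 0) (nat_lit 7))
    (@En.n l16960 (nat_lit 8117) (nat_lit 11) (nat_lit 11))
    (@En.i (nat_lit 8120) (nat_lit 2) (nat_lit 13))
    (@En.n l6825 (nat_lit 8129) (nat_lit 3) (nat_lit 8))
    (@En.n l649 (nat_lit 9433) (nat_lit 4) (nat_lit 10))
    (@En.n l7126 (nat_lit 8123) (nat_lit 12) (nat_lit 4))
    (@En.i (nat_lit 10395) (nat_lit 6) (nat_lit 4))
    (@En.n l9591 (nat_lit 7284) (nat_lit 0) (nat_lit 9))
    (@En.n l1865 (nat_lit 10383) (nat_lit 8) (nat_lit 5))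
    (@En.n l619 (nat_lit 8101) (nat_lit 4) (nat_lit 12))
    (@En.i (nat_lit 10697) (nat_lit 11) (nat_lit 12))
    (@En.i (nat_lit 7070) (nat_lit 10) (nat_lit 8))
    (@En.i (nat_lit 2799) (nat_lit 5) (nat_lit 5))
    (@En.n l32473 (nat_lit 7905) (nat_lit 14) (nat_lit 11))
    (@En.i (nat_lit 6346) (nat_lit 12) (nat_lit 6))
    (@En.n l3522 (nat_lit 8119) (nat_lit 15) (nat_lit 3))))
  (@Cl.mk (nat_lit 0x30006000b00040008000c000c0005000a00040004000a0008000d0006000c) (nat_lit 0x90271030064907) (nat_lit 16) Lb.e (@T16.mk En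
    (@En.n l619 (nat_lit 8705) (nat_lit 0) (nat_lit 12))
    (@En.n l3528 (nat_lit 9463) (nat_lit 4) (nat_lit 6))
    (@En.n l12731 (nat_lit 8121) (nat_lit 2) (nat_lit 13))
    (@En.n l10971 (nat_lit 9575) (nat_lit 3) (nat_lit 8))
    (@En.i (nat_lit 9436) (nat_lit 4) (nat_lit 10))
    (@En.n l37367 (nat_lit 8126) (nat_lit 12) (nat_lit 4))
    (@En.n l7 (nat_lit 10427) (nat_lit 6) (nat_lit 4))
    (@En.i (nat_lit 7201) (nat_lit 0) (nat_lit 10))
    (@En.n l37368 (nat_lit 6219) (nat_lit 8) (nat_lit 5))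
    (@En.n l644 (nat_lit 8099) (nat_lit 4) (nat_lit 12))
    (@En.i (nat_lit 10696) (nat_lit 11) (nat_lit 12))
    (@En.n l3528 (nat_lit 7073) (nat_lit 11) (nat_lit 8))
    (@En.n l11022 (nat_lit 7394) (nat_lit 5) (nat_lit 4))
    (@En.n l20348 (nat_lit 8622) (nat_lit 0) (nat_lit 11))
    (@En.i (nat_lit 11007) (nat_lit 12) (nat_lit 6))
    (@En.n l9956 (nat_lit 8118) (nat_lit 15) (nat_lit 3))))
  (@Cl.mk (nat_lit 0x3000c0006000b00060004000c000c0005000a00040004000a000d000a0006) (nat_lit 0x309007101006840) (nat_lit 16) Lb.e (@T16.mk En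
    (@En.n l16959 (nat_lit 9380) (nat_lit 0) (nat_lit 6))
    (@En.n l16960 (nat_lit 8122) (nat_lit 12) (nat_lit 10))
    (@En.n l16961 (nat_lit 8325) (nat_lit 5) (nat_lit 13))
    (@En.n l16962 (nat_lit 9432) (nat_lit 3) (nat_lit 10))
    (@En.n l16963 (nat_lit 8125) (nat_lit 12) (nat_lit 4))
    (@En.n l16964 (nat_lit 10387) (nat_lit 0) (nat_lit 4))
    (@En.n l16965 (nat_lit 7282) (nat_lit 0) (nat_lit 10))
    (@En.n l16966 (nat_lit 10388) (nat_lit 1) (nat_lit 5))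
    (@En.n l16967 (nat_lit 8100) (nat_lit 4) (nat_lit 12))
    (@En.i (nat_lit 10695) (nat_lit 10) (nat_lit 12))
    (@En.n l16961 (nat_lit 7638) (nat_lit 10) (nat_lit 4))
    (@En.n l16968 (nat_lit 2800) (nat_lit 0) (nat_lit 6))
    (@En.n l16969 (nat_lit 8489) (nat_lit 1) (nat_lit 11))
    (@En.n l7 (nat_lit 8118) (nat_lit 14) (nat_lit 6))
    (@En.n l16970 (nat_lit 8117) (nat_lit 9) (nat_lit 12))
    (@En.n l16702 (nat_lit 8121) (nat_lit 15) (nat_lit 3))))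
  (@Cl.mk (nat_lit 0x3000c0006000b00050004000c000c0005000b00040004000a000d0005000b) (nat_lit 0x209008103006809) (nat_lit 16) Lb.e (@T16.mk En
    (@En.n l22633 (nat_lit 8707) (nat_lit 0) (nat_lit 11))
    (@En.n l27658 (nat_lit 9459) (nat_lit 6) (nat_lit 5))
    (@En.n l16956 (nat_lit 8324) (nat_lit 5) (nat_lit 13))
    (@En.n l15535 (nat_lit 9441) (nat_lit 3) (nat_lit 10))
    (@En.n l27659 (nat_lit 8127) (nat_lit 12) (nat_lit 4))
    (@En.i (nat_lit 10426) (nat_lit 0) (nat_lit 4))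
    (@En.n l27660 (nat_lit 7366) (nat_lit 0) (nat_lit 11))
    (@En.n l27661 (nat_lit 6220) (nat_lit 1) (nat_lit 5))
    (@En.n l61 (nat_lit 8098) (nat_lit 4) (nat_lit 12))
    (@En.n l27662 (nat_lit 10694) (nat_lit 10) (nat_lit 12))
    (@En.i (nat_lit 8088) (nat_lit 12) (nat_lit 4))
    (@En.n l24588 (nat_lit 7395) (nat_lit 0) (nat_lit 5))
    (@En.n l27663 (nat_lit 8492) (nat_lit 1) (nat_lit 11))
    (@En.n l19713 (nat_lit 8119) (nat_lit 14) (nat_lit 6))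
    (@En.n l27664 (nat_lit 7092) (nat_lit 2) (nat_lit 12))
    (@En.n l27665 (nat_lit 8120) (nat_lit 15) (nat_lit 3))))
  (@Cl.mk (nat_lit 0x40004000b000a0005000b000b0005000a000600050005000c000c0006000b) (nat_lit 0x63003080008903) (nat_lit 16) Lb.e (@T16.mk En
    (@En.n l13913 (nat_lit 4603) (nat_lit 0) (nat_lit 11))
    (@En.n l742 (nat_lit 8141) (nat_lit 1) (nat_lit 6))
    (@En.n l13914 (nat_lit 8201) (nat_lit 4) (nat_lit 12))
    (@En.n l13915 (nat_lit 10274) (nat_lit 3) (nat_lit 12))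
    (@En.n l13916 (nat_lit 8131) (nat_lit 11) (nat_lit 5))
    (@En.n l13917 (nat_lit 8121) (nat_lit 11) (nat_lit 5))
    (@En.n l2170 (nat_lit 2555) (nat_lit 6) (nat_lit 6))
    (@En.n l13918 (nat_lit 8320) (nat_lit 1) (nat_lit 10))
    (@En.n l936 (nat_lit 8117) (nat_lit 8) (nat_lit 5))
    (@En.n l55 (nat_lit 8203) (nat_lit 5) (nat_lit 11))
    (@En.i (nat_lit 8505) (nat_lit 11) (nat_lit 11))
    (@En.n l13919 (nat_lit 8226) (nat_lit 2) (nat_lit 5))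
    (@En.n l13920 (nat_lit 6745) (nat_lit 6) (nat_lit 10))
    (@En.n l13913 (nat_lit 9387) (nat_lit 1) (nat_lit 11))
    (@En.n l13921 (nat_lit 8128) (nat_lit 12) (nat_lit 4))
    (@En.i (nat_lit 8140) (nat_lit 0) (nat_lit 4))))
  (@Cl.mk (nat_lit 0x20006000a0004000a0008000d000b000600030006000a00050008000e000c) (nat_lit 0x3063b700070266) (nat_lit 16) Lb.e (@T16.mk En
    (@En.n l4270 (nat_lit 8118) (nat_lit 10) (nat_lit 12))
    (@En.n l17007 (nat_lit 11156) (nat_lit 1) (nat_lit 14))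
    (@En.i (nat_lit 7170) (nat_lit 2) (nat_lit 8))
    (@En.n l6900 (nat_lit 2802) (nat_lit 3) (nat_lit 5))
    (@En.n l17008 (nat_lit 8625) (nat_lit 4) (nat_lit 10))
    (@En.n l17009 (nat_lit 6759) (nat_lit 5) (nat_lit 6))
    (@En.n l12520 (nat_lit 8126) (nat_lit 6) (nat_lit 3))
    (@En.n l16383 (nat_lit 9383) (nat_lit 0) (nat_lit 6))
    (@En.n l2642 (nat_lit 8124) (nat_lit 9) (nat_lit 11))
    (@En.n l17010 (nat_lit 8125) (nat_lit 10) (nat_lit 13))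
    (@En.i (nat_lit 9572) (nat_lit 11) (nat_lit 8))
    (@En.n l8572 (nat_lit 6662) (nat_lit 12) (nat_lit 10))
    (@En.n l17011 (nat_lit 10382) (nat_lit 5) (nat_lit 4))
    (@En.i (nat_lit 7288) (nat_lit 14) (nat_lit 10))
    (@En.n l17012 (nat_lit 6212) (nat_lit 7) (nat_lit 6))
    (@En.n l50 (nat_lit 8123) (nat_lit 15) (nat_lit 2))))
  (@Cl.mk (nat_lit 0x20007000b0004000b0008000b0005000c00050009000500040008000e000c) (nat_lit 0x30636000600377) (nat_lit 16) Lb.e (@T16.mk En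
    (@En.n l14193 (nat_lit 8117) (nat_lit 3) (nat_lit 12))
    (@En.n l532 (nat_lit 11157) (nat_lit 1) (nat_lit 14))
    (@En.n l899 (nat_lit 8123) (nat_lit 2) (nat_lit 8))
    (@En.n l14194 (nat_lit 8126) (nat_lit 3) (nat_lit 4))
    (@En.n l17 (nat_lit 2553) (nat_lit 4) (nat_lit 5))
    (@En.n l14195 (nat_lit 8626) (nat_lit 5) (nat_lit 9))
    (@En.n l97 (nat_lit 6348) (nat_lit 6) (nat_lit 5))
    (@En.n l14196 (nat_lit 8718) (nat_lit 8) (nat_lit 12))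
    (@En.i (nat_lit 9385) (nat_lit 8) (nat_lit 5))
    (@En.n l14197 (nat_lit 8214) (nat_lit 10) (nat_lit 11))
    (@En.i (nat_lit 9574) (nat_lit 11) (nat_lit 8))
    (@En.n l532 (nat_lit 6661) (nat_lit 12) (nat_lit 11))
    (@En.n l14196 (nat_lit 10374) (nat_lit 13) (nat_lit 4))
    (@En.i (nat_lit 7289) (nat_lit 14) (nat_lit 11))
    (@En.n l14197 (nat_lit 6211) (nat_lit 1) (nat_lit 7))
    (@En.n l7 (nat_lit 8124) (nat_lit 15) (nat_lit 2))))
  (@Cl.mk (nat_lit 0x20006000b0004000a000d000a00050003000c0006000a00060004000e000c) (nat_lit 0x306a6001070078) (nat_lit 16) Lb.e (@T16.mk En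
    (@En.n l6828 (nat_lit 8120) (nat_lit 9) (nat_lit 12))
    (@En.n l797 (nat_lit 8001) (nat_lit 1) (nat_lit 14))
    (@En.n l2195 (nat_lit 7631) (nat_lit 2) (nat_lit 4))
    (@En.n l6829 (nat_lit 2552) (nat_lit 3) (nat_lit 6))
    (@En.i (nat_lit 8491) (nat_lit 4) (nat_lit 10))
    (@En.n l6830 (nat_lit 8123) (nat_lit 5) (nat_lit 6))
    (@En.n l6831 (nat_lit 8124) (nat_lit 7) (nat_lit 12))
    (@En.n l7 (nat_lit 8127) (nat_lit 7) (nat_lit 3))
    (@En.n l6832 (nat_lit 9386) (nat_lit 8) (nat_lit 5))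
    (@En.n l4861 (nat_lit 8128) (nat_lit 10) (nat_lit 10))
    (@En.n l2195 (nat_lit 8637) (nat_lit 11) (nat_lit 13))
    (@En.n l11 (nat_lit 6663) (nat_lit 12) (nat_lit 10))
    (@En.n l2357 (nat_lit 10384) (nat_lit 13) (nat_lit 4))
    (@En.n l6830 (nat_lit 7287) (nat_lit 14) (nat_lit 11))
    (@En.i (nat_lit 6152) (nat_lit 1) (nat_lit 6))
    (@En.n l3 (nat_lit 8125) (nat_lit 15) (nat_lit 2))))
  (@Cl.mk (nat_lit 0x20006000b0004000a0008000d0005000c00030006000a00040008000e000c) (nat_lit 0x407350a0070298) (nat_lit 16) Lb.e (@T16.mk En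
    (@En.n l21577 (nat_lit 8119) (nat_lit 10) (nat_lit 12))
    (@En.n l17409 (nat_lit 11155) (nat_lit 1) (nat_lit 14))
    (@En.n l13783 (nat_lit 7168) (nat_lit 2) (nat_lit 8))
    (@En.n l13784 (nat_lit 9580) (nat_lit 3) (nat_lit 4))
    (@En.n l619 (nat_lit 8624) (nat_lit 4) (nat_lit 10))
    (@En.n l16588 (nat_lit 11011) (nat_lit 5) (nat_lit 6))
    (@En.n l4774 (nat_lit 8123) (nat_lit 6) (nat_lit 3))
    (@En.n l21578 (nat_lit 8708) (nat_lit 0) (nat_lit 12))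
    (@En.i (nat_lit 9565) (nat_lit 8) (nat_lit 5))
    (@En.n l10037 (nat_lit 8127) (nat_lit 10) (nat_lit 13))
    (@En.n l13782 (nat_lit 9573) (nat_lit 11) (nat_lit 8))
    (@En.n l97 (nat_lit 6664) (nat_lit 12) (nat_lit 10))
    (@En.i (nat_lit 6221) (nat_lit 5) (nat_lit 4))
    (@En.n l13782 (nat_lit 7204) (nat_lit 14) (nat_lit 11))
    (@En.i (nat_lit 6213) (nat_lit 7) (nat_lit 6))
    (@En.n l107 (nat_lit 8126) (nat_lit 15) (nat_lit 2))))
  (@Cl.mk (nat_lit 0x20006000c0004000a000d0004000b0003000c0006000a00050004000e000c) (nat_lit 0x406409020700c9) (nat_lit 16) Lb.e (@T16.mk En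
    (@En.n l14180 (nat_lit 8121) (nat_lit 9) (nat_lit 12))
    (@En.n l797 (nat_lit 8003) (nat_lit 1) (nat_lit 14))
    (@En.n l2195 (nat_lit 7634) (nat_lit 2) (nat_lit 4))
    (@En.n l5701 (nat_lit 9578) (nat_lit 3) (nat_lit 5))
    (@En.i (nat_lit 8490) (nat_lit 4) (nat_lit 10))
    (@En.n l14059 (nat_lit 8126) (nat_lit 5) (nat_lit 6))
    (@En.n l2346 (nat_lit 7095) (nat_lit 7) (nat_lit 12))
    (@En.i (nat_lit 8125) (nat_lit 7) (nat_lit 3))
    (@En.n l2351 (nat_lit 8713) (nat_lit 9) (nat_lit 11))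
    (@En.n l11 (nat_lit 9563) (nat_lit 9) (nat_lit 4))
    (@En.n l2195 (nat_lit 8636) (nat_lit 11) (nat_lit 13))
    (@En.n l11 (nat_lit 6665) (nat_lit 12) (nat_lit 10))
    (@En.n l14181 (nat_lit 6222) (nat_lit 13) (nat_lit 4))
    (@En.n l4861 (nat_lit 7365) (nat_lit 14) (nat_lit 12))
    (@En.i (nat_lit 6216) (nat_lit 1) (nat_lit 6))
    (@En.n l3 (nat_lit 8127) (nat_lit 15) (nat_lit 2))))
noncomputable def a508 : T16 Cl := @T16.mk Cl
  (@Cl.mk (nat_lit 0x20007000c0004000b000a0004000b000b00050009000600050005000e000c) (nat_lit 0x306500007000c9) (nat_lit 16) Lb.e (@T16.mk En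
    (@En.n l5754 (nat_lit 8122) (nat_lit 3) (nat_lit 12))
    (@En.n l5755 (nat_lit 12078) (nat_lit 1) (nat_lit 14))
    (@En.n l11 (nat_lit 8130) (nat_lit 11) (nat_lit 5))
    (@En.n l2711 (nat_lit 8127) (nat_lit 3) (nat_lit 5))
    (@En.n l17 (nat_lit 2549) (nat_lit 4) (nat_lit 6))
    (@En.n l2711 (nat_lit 7345) (nat_lit 5) (nat_lit 9))
    (@En.i (nat_lit 8124) (nat_lit 6) (nat_lit 5))
    (@En.n l5756 (nat_lit 8214) (nat_lit 8) (nat_lit 11))
    (@En.n l5757 (nat_lit 8679) (nat_lit 9) (nat_lit 11))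
    (@En.n l2937 (nat_lit 8225) (nat_lit 9) (nat_lit 4))
    (@En.n l2299 (nat_lit 6748) (nat_lit 11) (nat_lit 10))
    (@En.i (nat_lit 6670) (nat_lit 12) (nat_lit 11))
    (@En.n l5757 (nat_lit 8137) (nat_lit 13) (nat_lit 4))
    (@En.i (nat_lit 4607) (nat_lit 14) (nat_lit 12))
    (@En.n l2711 (nat_lit 6811) (nat_lit 1) (nat_lit 7))
    (@En.n l7 (nat_lit 8128) (nat_lit 15) (nat_lit 2))))
  (@Cl.mk (nat_lit 0x3000c000a000500080004000c000c0006000a000400040008000d000b0006) (nat_lit 0x860309103003320) (nat_lit 16) Lb.e (@T16.mk En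
    (@En.n l6081 (nat_lit 9317) (nat_lit 0) (nat_lit 6))
    (@En.n l2642 (nat_lit 9576) (nat_lit 12) (nat_lit 11))
    (@En.n l28361 (nat_lit 8319) (nat_lit 2) (nat_lit 13))
    (@En.n l1353 (nat_lit 10586) (nat_lit 11) (nat_lit 8))
    (@En.n l18 (nat_lit 9572) (nat_lit 12) (nat_lit 4))
    (@En.n l2197 (nat_lit 10431) (nat_lit 0) (nat_lit 4))
    (@En.i (nat_lit 7263) (nat_lit 0) (nat_lit 10))
    (@En.n l2348 (nat_lit 10066) (nat_lit 1) (nat_lit 6))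
    (@En.n l26929 (nat_lit 8096) (nat_lit 4) (nat_lit 12))
    (@En.n l2362 (nat_lit 10600) (nat_lit 10) (nat_lit 12))
    (@En.n l25506 (nat_lit 8120) (nat_lit 10) (nat_lit 4))
    (@En.i (nat_lit 7063) (nat_lit 10) (nat_lit 8))
    (@En.n l28362 (nat_lit 2801) (nat_lit 1) (nat_lit 5))
    (@En.n l718 (nat_lit 7635) (nat_lit 14) (nat_lit 10))
    (@En.n l7645 (nat_lit 7394) (nat_lit 9) (nat_lit 12))
    (@En.n l28147 (nat_lit 9575) (nat_lit 15) (nat_lit 3))))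
  (@Cl.mk (nat_lit 0x20006000a00070005000e000c00020006000c0004000a00090004000e000b) (nat_lit 0x800c9001065061) (nat_lit 16) Lb.e (@T16.mk En
    (@En.n l68 (nat_lit 8128) (nat_lit 8) (nat_lit 11))
    (@En.n l2295 (nat_lit 6761) (nat_lit 9) (nat_lit 14))
    (@En.n l265 (nat_lit 7648) (nat_lit 2) (nat_lit 4))
    (@En.n l2296 (nat_lit 6751) (nat_lit 11) (nat_lit 9))
    (@En.i (nat_lit 7049) (nat_lit 4) (nat_lit 10))
    (@En.n l2297 (nat_lit 8132) (nat_lit 5) (nat_lit 4))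
    (@En.i (nat_lit 4613) (nat_lit 7) (nat_lit 12))
    (@En.n l2296 (nat_lit 8257) (nat_lit 7) (nat_lit 6))
    (@En.n l7 (nat_lit 8130) (nat_lit 8) (nat_lit 2))
    (@En.n l601 (nat_lit 8131) (nat_lit 10) (nat_lit 12))
    (@En.n l2298 (nat_lit 7998) (nat_lit 11) (nat_lit 14))
    (@En.n l2299 (nat_lit 7632) (nat_lit 2) (nat_lit 5))
    (@En.n l17 (nat_lit 2551) (nat_lit 13) (nat_lit 7))
    (@En.n l264 (nat_lit 8638) (nat_lit 4) (nat_lit 10))
    (@En.n l2300 (nat_lit 8125) (nat_lit 5) (nat_lit 6))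
    (@En.n l67 (nat_lit 8130) (nat_lit 15) (nat_lit 2))))
  (@Cl.mk (nat_lit 0x20006000b00070005000c000c0005000b00040004000a00090005000e000b) (nat_lit 0x90080010063071) (nat_lit 16) Lb.e (@T16.mk En
    (@En.n l6812 (nat_lit 8122) (nat_lit 10) (nat_lit 11))
    (@En.n l3273 (nat_lit 6575) (nat_lit 1) (nat_lit 14))
    (@En.n l3451 (nat_lit 7649) (nat_lit 2) (nat_lit 5))
    (@En.n l638 (nat_lit 6757) (nat_lit 3) (nat_lit 9))
    (@En.i (nat_lit 9388) (nat_lit 4) (nat_lit 10))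
    (@En.n l50 (nat_lit 8130) (nat_lit 5) (nat_lit 4))
    (@En.n l6813 (nat_lit 8134) (nat_lit 6) (nat_lit 4))
    (@En.i (nat_lit 4609) (nat_lit 8) (nat_lit 11))
    (@En.n l6814 (nat_lit 8133) (nat_lit 8) (nat_lit 5))
    (@En.n l6815 (nat_lit 8200) (nat_lit 10) (nat_lit 12))
    (@En.n l6816 (nat_lit 11303) (nat_lit 11) (nat_lit 12))
    (@En.n l6817 (nat_lit 7639) (nat_lit 12) (nat_lit 5))
    (@En.n l3429 (nat_lit 2685) (nat_lit 13) (nat_lit 7))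
    (@En.n l6818 (nat_lit 8648) (nat_lit 14) (nat_lit 11))
    (@En.n l6819 (nat_lit 8120) (nat_lit 13) (nat_lit 6))
    (@En.n l67 (nat_lit 8131) (nat_lit 15) (nat_lit 2))))
  (@Cl.mk (nat_lit 0x20006000900070005000d000c000a000300070004000a00090006000e000b) (nat_lit 0x200a9200063060) (nat_lit 16) Lb.e (@T16.mk En
    (@En.n l6790 (nat_lit 8137) (nat_lit 9) (nat_lit 11))
    (@En.n l6791 (nat_lit 6573) (nat_lit 1) (nat_lit 14))
    (@En.n l6792 (nat_lit 8466) (nat_lit 2) (nat_lit 6))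
    (@En.i (nat_lit 6736) (nat_lit 3) (nat_lit 9))
    (@En.n l6793 (nat_lit 8133) (nat_lit 4) (nat_lit 10))
    (@En.n l6794 (nat_lit 8131) (nat_lit 5) (nat_lit 4))
    (@En.n l6795 (nat_lit 8256) (nat_lit 6) (nat_lit 7))
    (@En.n l6796 (nat_lit 8135) (nat_lit 7) (nat_lit 3))
    (@En.n l6797 (nat_lit 7652) (nat_lit 0) (nat_lit 10))
    (@En.n l6798 (nat_lit 8134) (nat_lit 10) (nat_lit 12))
    (@En.i (nat_lit 11380) (nat_lit 11) (nat_lit 13))
    (@En.n l3971 (nat_lit 7620) (nat_lit 3) (nat_lit 5))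
    (@En.n l6799 (nat_lit 2749) (nat_lit 13) (nat_lit 7))
    (@En.n l6800 (nat_lit 8677) (nat_lit 14) (nat_lit 9))
    (@En.n l6801 (nat_lit 10384) (nat_lit 6) (nat_lit 6))
    (@En.n l7 (nat_lit 8132) (nat_lit 15) (nat_lit 2))))
  (@Cl.mk (nat_lit 0x20006000b000900080006000d0005000b00030007000a00080005000e000a) (nat_lit 0x93208010052050) (nat_lit 16) Lb.e (@T16.mk En
    (@En.n l16872 (nat_lit 8141) (nat_lit 10) (nat_lit 10))
    (@En.n l2880 (nat_lit 6571) (nat_lit 1) (nat_lit 14))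
    (@En.n l3427 (nat_lit 8468) (nat_lit 2) (nat_lit 5))
    (@En.n l16873 (nat_lit 6810) (nat_lit 3) (nat_lit 8))
    (@En.n l13772 (nat_lit 11519) (nat_lit 4) (nat_lit 10))
    (@En.n l8434 (nat_lit 8258) (nat_lit 5) (nat_lit 7))
    (@En.n l615 (nat_lit 8136) (nat_lit 6) (nat_lit 3))
    (@En.n l3022 (nat_lit 6785) (nat_lit 0) (nat_lit 11))
    (@En.n l16874 (nat_lit 9617) (nat_lit 8) (nat_lit 5))
    (@En.n l16875 (nat_lit 11382) (nat_lit 10) (nat_lit 13))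
    (@En.n l13772 (nat_lit 8242) (nat_lit 3) (nat_lit 6))
    (@En.n l3426 (nat_lit 10017) (nat_lit 12) (nat_lit 8))
    (@En.n l16873 (nat_lit 8132) (nat_lit 13) (nat_lit 9))
    (@En.n l14477 (nat_lit 9836) (nat_lit 14) (nat_lit 11))
    (@En.n l8433 (nat_lit 10388) (nat_lit 7) (nat_lit 6))
    (@En.n l17 (nat_lit 8133) (nat_lit 15) (nat_lit 2))))
  (@Cl.mk (nat_lit 0x20006000a00070005000c0009000d000600040003000a00090007000e000b) (nat_lit 0x60085500061050) (nat_lit 16) Lb.e (@T16.mk En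
    (@En.n l55 (nat_lit 8140) (nat_lit 11) (nat_lit 11))
    (@En.n l16880 (nat_lit 6574) (nat_lit 1) (nat_lit 14))
    (@En.n l16876 (nat_lit 6417) (nat_lit 2) (nat_lit 7))
    (@En.n l16881 (nat_lit 4453) (nat_lit 3) (nat_lit 9))
    (@En.n l16882 (nat_lit 9384) (nat_lit 4) (nat_lit 10))
    (@En.n l18 (nat_lit 8135) (nat_lit 5) (nat_lit 3))
    (@En.n l16883 (nat_lit 8200) (nat_lit 6) (nat_lit 4))
    (@En.n l16884 (nat_lit 8136) (nat_lit 7) (nat_lit 6))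
    (@En.n l16885 (nat_lit 7403) (nat_lit 9) (nat_lit 13))
    (@En.n l16886 (nat_lit 9344) (nat_lit 10) (nat_lit 9))
    (@En.n l16887 (nat_lit 11304) (nat_lit 11) (nat_lit 12))
    (@En.n l16885 (nat_lit 7614) (nat_lit 12) (nat_lit 5))
    (@En.n l1090 (nat_lit 2748) (nat_lit 13) (nat_lit 7))
    (@En.n l16888 (nat_lit 8653) (nat_lit 14) (nat_lit 10))
    (@En.n l2313 (nat_lit 10387) (nat_lit 8) (nat_lit 6))
    (@En.n l28 (nat_lit 8134) (nat_lit 15) (nat_lit 2))))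
  (@Cl.mk (nat_lit 0x20006000900070005000d0009000d000300070003000a00090007000e000b) (nat_lit 0x200a5500061030) (nat_lit 16) Lb.e (@T16.mk En
    (@En.n l55 (nat_lit 8138) (nat_lit 9) (nat_lit 11))
    (@En.n l218 (nat_lit 6572) (nat_lit 1) (nat_lit 14))
    (@En.n l16876 (nat_lit 6416) (nat_lit 2) (nat_lit 7))
    (@En.n l16877 (nat_lit 4450) (nat_lit 3) (nat_lit 9))
    (@En.n l16878 (nat_lit 8136) (nat_lit 4) (nat_lit 10))
    (@En.i (nat_lit 8134) (nat_lit 5) (nat_lit 3))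
    (@En.n l5759 (nat_lit 6904) (nat_lit 6) (nat_lit 7))
    (@En.n l2310 (nat_lit 8132) (nat_lit 7) (nat_lit 3))
    (@En.n l5759 (nat_lit 7404) (nat_lit 0) (nat_lit 13))
    (@En.n l9559 (nat_lit 8142) (nat_lit 10) (nat_lit 9))
    (@En.n l16879 (nat_lit 11379) (nat_lit 11) (nat_lit 13))
    (@En.n l5759 (nat_lit 7617) (nat_lit 3) (nat_lit 5))
    (@En.n l1090 (nat_lit 2747) (nat_lit 13) (nat_lit 7))
    (@En.n l5759 (nat_lit 8676) (nat_lit 14) (nat_lit 9))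
    (@En.n l2313 (nat_lit 10385) (nat_lit 6) (nat_lit 6))
    (@En.n l28 (nat_lit 8135) (nat_lit 15) (nat_lit 2))))
  (@Cl.mk (nat_lit 0x20006000a000900080006000d000a000600030007000a00080006000e000a) (nat_lit 0x3509200052070) (nat_lit 16) Lb.e (@T16.mk En
    (@En.n l18320 (nat_lit 8139) (nat_lit 10) (nat_lit 10))
    (@En.n l649 (nat_lit 6569) (nat_lit 1) (nat_lit 14))
    (@En.n l18321 (nat_lit 8144) (nat_lit 2) (nat_lit 6))
    (@En.n l18322 (nat_lit 6809) (nat_lit 3) (nat_lit 8))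
    (@En.n l18323 (nat_lit 11518) (nat_lit 4) (nat_lit 10))
    (@En.n l18324 (nat_lit 6902) (nat_lit 5) (nat_lit 7))
    (@En.n l731 (nat_lit 8133) (nat_lit 6) (nat_lit 3))
    (@En.n l18325 (nat_lit 11506) (nat_lit 7) (nat_lit 6))
    (@En.n l18326 (nat_lit 9343) (nat_lit 9) (nat_lit 10))
    (@En.n l18327 (nat_lit 11381) (nat_lit 10) (nat_lit 13))
    (@En.n l18328 (nat_lit 7623) (nat_lit 3) (nat_lit 6))
    (@En.n l18329 (nat_lit 10016) (nat_lit 12) (nat_lit 8))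
    (@En.n l18330 (nat_lit 8135) (nat_lit 13) (nat_lit 9))
    (@En.n l18325 (nat_lit 9834) (nat_lit 14) (nat_lit 10))
    (@En.n l18331 (nat_lit 10386) (nat_lit 7) (nat_lit 6))
    (@En.n l18 (nat_lit 8136) (nat_lit 15) (nat_lit 2))))
  (@Cl.mk (nat_lit 0x300080004000b000a0006000b000b00050008000600050005000d000c000a) (nat_lit 0x206309003000a90) (nat_lit 16) Lb.e (@T16.mk En
    (@En.n l2848 (nat_lit 8221) (nat_lit 0) (nat_lit 10))
    (@En.n l217 (nat_lit 8140) (nat_lit 4) (nat_lit 12))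
    (@En.i (nat_lit 11860) (nat_lit 2) (nat_lit 13))
    (@En.n l2310 (nat_lit 8132) (nat_lit 11) (nat_lit 5))
    (@En.n l14257 (nat_lit 6222) (nat_lit 4) (nat_lit 5))
    (@En.i (nat_lit 3480) (nat_lit 5) (nat_lit 6))
    (@En.i (nat_lit 8678) (nat_lit 10) (nat_lit 8))
    (@En.n l936 (nat_lit 10374) (nat_lit 7) (nat_lit 5))
    (@En.n l55 (nat_lit 8205) (nat_lit 5) (nat_lit 11))
    (@En.i (nat_lit 8498) (nat_lit 10) (nat_lit 11))
    (@En.n l3447 (nat_lit 8421) (nat_lit 2) (nat_lit 6))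
    (@En.n l3866 (nat_lit 6734) (nat_lit 6) (nat_lit 10))
    (@En.i (nat_lit 8141) (nat_lit 13) (nat_lit 11))
    (@En.n l50 (nat_lit 8122) (nat_lit 14) (nat_lit 4))
    (@En.n l5389 (nat_lit 6813) (nat_lit 0) (nat_lit 8))
    (@En.n l50 (nat_lit 8138) (nat_lit 15) (nat_lit 3))))
  (@Cl.mk (nat_lit 0x300080003000b000a0007000b000b00050008000600050005000d0009000d) (nat_lit 0x306409801000a65) (nat_lit 16) Lb.e (@T16.mk En
    (@En.n l5760 (nat_lit 7405) (nat_lit 0) (nat_lit 13))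
    (@En.i (nat_lit 8143) (nat_lit 3) (nat_lit 9))
    (@En.i (nat_lit 11856) (nat_lit 2) (nat_lit 13))
    (@En.i (nat_lit 8135) (nat_lit 11) (nat_lit 5))
    (@En.n l11 (nat_lit 6225) (nat_lit 4) (nat_lit 5))
    (@En.i (nat_lit 2750) (nat_lit 7) (nat_lit 6))
    (@En.i (nat_lit 7455) (nat_lit 10) (nat_lit 8))
    (@En.n l936 (nat_lit 10375) (nat_lit 7) (nat_lit 5))
    (@En.n l55 (nat_lit 8206) (nat_lit 5) (nat_lit 11))
    (@En.i (nat_lit 8500) (nat_lit 10) (nat_lit 11))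
    (@En.n l3447 (nat_lit 8146) (nat_lit 13) (nat_lit 7))
    (@En.n l3866 (nat_lit 4449) (nat_lit 6) (nat_lit 10))
    (@En.i (nat_lit 8139) (nat_lit 13) (nat_lit 11))
    (@En.i (nat_lit 8140) (nat_lit 15) (nat_lit 3))
    (@En.i (nat_lit 6837) (nat_lit 0) (nat_lit 8))
    (@En.i (nat_lit 8137) (nat_lit 15) (nat_lit 3))))
  (@Cl.mk (nat_lit 0x30008000b00090006000a000a000500090008000700060006000d000a0007) (nat_lit 0x352080002000430) (nat_lit 16) Lb.e (@T16.mk En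
    (@En.n l5770 (nat_lit 10872) (nat_lit 0) (nat_lit 7))
    (@En.i (nat_lit 9335) (nat_lit 6) (nat_lit 10))
    (@En.i (nat_lit 11859) (nat_lit 2) (nat_lit 13))
    (@En.n l16878 (nat_lit 8136) (nat_lit 10) (nat_lit 6))
    (@En.n l11 (nat_lit 6223) (nat_lit 4) (nat_lit 6))
    (@En.n l3745 (nat_lit 10009) (nat_lit 9) (nat_lit 7))
    (@En.n l17 (nat_lit 8138) (nat_lit 6) (nat_lit 8))
    (@En.n l5770 (nat_lit 8749) (nat_lit 10) (nat_lit 9))
    (@En.n l936 (nat_lit 10373) (nat_lit 8) (nat_lit 5))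
    (@En.n l55 (nat_lit 8207) (nat_lit 6) (nat_lit 10))
    (@En.i (nat_lit 8499) (nat_lit 9) (nat_lit 10))
    (@En.n l3447 (nat_lit 8145) (nat_lit 2) (nat_lit 6))
    (@En.n l10040 (nat_lit 6805) (nat_lit 13) (nat_lit 9))
    (@En.n l1112 (nat_lit 11521) (nat_lit 7) (nat_lit 11))
    (@En.i (nat_lit 6831) (nat_lit 12) (nat_lit 8))
    (@En.i (nat_lit 8141) (nat_lit 15) (nat_lit 3))))
  (@Cl.mk (nat_lit 0x3000b000a0007000b000b00050009000600050005000c0009000d00070004) (nat_lit 0x610900400086600) (nat_lit 16) Lb.e (@T16.mk En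
    (@En.n l8306 (nat_lit 8201) (nat_lit 0) (nat_lit 4))
    (@En.n l61 (nat_lit 8139) (nat_lit 0) (nat_lit 7))
    (@En.n l13917 (nat_lit 7406) (nat_lit 1) (nat_lit 13))
    (@En.i (nat_lit 9334) (nat_lit 3) (nat_lit 9))
    (@En.i (nat_lit 11854) (nat_lit 3) (nat_lit 12))
    (@En.i (nat_lit 8134) (nat_lit 11) (nat_lit 5))
    (@En.n l13917 (nat_lit 10426) (nat_lit 6) (nat_lit 5))
    (@En.i (nat_lit 2751) (nat_lit 7) (nat_lit 6))
    (@En.i (nat_lit 8658) (nat_lit 10) (nat_lit 9))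
    (@En.n l936 (nat_lit 10376) (nat_lit 9) (nat_lit 5))
    (@En.n l55 (nat_lit 8204) (nat_lit 5) (nat_lit 11))
    (@En.i (nat_lit 8503) (nat_lit 12) (nat_lit 11))
    (@En.i (nat_lit 8147) (nat_lit 13) (nat_lit 7))
    (@En.n l3866 (nat_lit 4455) (nat_lit 6) (nat_lit 10))
    (@En.i (nat_lit 9378) (nat_lit 14) (nat_lit 11))
    (@En.n l18 (nat_lit 8138) (nat_lit 13) (nat_lit 3))))
  (@Cl.mk (nat_lit 0x30008000b00090005000a000a0005000a0008000700060006000d0006000b) (nat_lit 0x252080074000400) (nat_lit 16) Lb.e (@T16.mk En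
    (@En.n l27695 (nat_lit 8222) (nat_lit 0) (nat_lit 11))
    (@En.i (nat_lit 9616) (nat_lit 5) (nat_lit 6))
    (@En.n l7515 (nat_lit 11861) (nat_lit 2) (nat_lit 13))
    (@En.n l27696 (nat_lit 8133) (nat_lit 10) (nat_lit 6))
    (@En.n l27697 (nat_lit 6220) (nat_lit 4) (nat_lit 6))
    (@En.n l8044 (nat_lit 10013) (nat_lit 9) (nat_lit 7))
    (@En.n l17 (nat_lit 8137) (nat_lit 6) (nat_lit 8))
    (@En.n l1968 (nat_lit 8753) (nat_lit 8) (nat_lit 10))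
    (@En.n l936 (nat_lit 10372) (nat_lit 8) (nat_lit 5))
    (@En.n l55 (nat_lit 8208) (nat_lit 6) (nat_lit 10))
    (@En.i (nat_lit 8497) (nat_lit 11) (nat_lit 10))
    (@En.n l27698 (nat_lit 8418) (nat_lit 12) (nat_lit 5))
    (@En.n l27697 (nat_lit 6807) (nat_lit 13) (nat_lit 9))
    (@En.n l27699 (nat_lit 11520) (nat_lit 7) (nat_lit 11))
    (@En.n l27700 (nat_lit 6812) (nat_lit 12) (nat_lit 8))
    (@En.n l50 (nat_lit 8139) (nat_lit 15) (nat_lit 3))))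
  (@Cl.mk (nat_lit 0x20007000a000800050009000d000a000600030009000800070006000e000b) (nat_lit 0x250481005300b2) (nat_lit 16) Lb.e (@T16.mk En
    (@En.n l22117 (nat_lit 8143) (nat_lit 10) (nat_lit 11))
    (@En.n l22118 (nat_lit 1995) (nat_lit 1) (nat_lit 14))
    (@En.n l22119 (nat_lit 8132) (nat_lit 2) (nat_lit 6))
    (@En.n l14169 (nat_lit 7678) (nat_lit 3) (nat_lit 7))
    (@En.n l7062 (nat_lit 5972) (nat_lit 4) (nat_lit 8))
    (@En.n l22120 (nat_lit 9343) (nat_lit 5) (nat_lit 9))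
    (@En.n l9876 (nat_lit 9344) (nat_lit 6) (nat_lit 3))
    (@En.n l22121 (nat_lit 5286) (nat_lit 7) (nat_lit 6))
    (@En.n l22122 (nat_lit 7651) (nat_lit 9) (nat_lit 10))
    (@En.n l22121 (nat_lit 10016) (nat_lit 10) (nat_lit 13))
    (@En.n l22123 (nat_lit 6011) (nat_lit 11) (nat_lit 9))
    (@En.n l22124 (nat_lit 9963) (nat_lit 12) (nat_lit 5))
    (@En.n l17028 (nat_lit 3486) (nat_lit 13) (nat_lit 8))
    (@En.n l22121 (nat_lit 8721) (nat_lit 8) (nat_lit 10))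
    (@En.n l22125 (nat_lit 10389) (nat_lit 7) (nat_lit 7))
    (@En.n l7 (nat_lit 8142) (nat_lit 15) (nat_lit 2))))
  (@Cl.mk (nat_lit 0x3000a000900070006000b000b000600090007000500050009000d000a0007) (nat_lit 0x530012000005900) (nat_lit 16) Lb.e (@T16.mk En
    (@En.n l4770 (nat_lit 5284) (nat_lit 0) (nat_lit 7))
    (@En.i (nat_lit 8224) (nat_lit 12) (nat_lit 10))
    (@En.n l4770 (nat_lit 10009) (nat_lit 6) (nat_lit 13))
    (@En.n l22740 (nat_lit 10730) (nat_lit 10) (nat_lit 9))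
    (@En.n l9559 (nat_lit 8142) (nat_lit 11) (nat_lit 5))
    (@En.n l11 (nat_lit 9952) (nat_lit 5) (nat_lit 5))
    (@En.i (nat_lit 3481) (nat_lit 6) (nat_lit 7))
    (@En.n l4770 (nat_lit 8722) (nat_lit 9) (nat_lit 9))
    (@En.n l936 (nat_lit 10377) (nat_lit 8) (nat_lit 6))
    (@En.n l55 (nat_lit 8209) (nat_lit 5) (nat_lit 11))
    (@En.i (nat_lit 6844) (nat_lit 11) (nat_lit 11))
    (@En.n l644 (nat_lit 8137) (nat_lit 10) (nat_lit 6))
    (@En.n l32237 (nat_lit 8802) (nat_lit 13) (nat_lit 7))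
    (@En.n l3866 (nat_lit 5396) (nat_lit 7) (nat_lit 9))
    (@En.i (nat_lit 9335) (nat_lit 2) (nat_lit 10))
    (@En.i (nat_lit 9334) (nat_lit 15) (nat_lit 3))))
noncomputable def a509 : T16 Cl := @T16.mk Cl
  (@Cl.mk (nat_lit 0x2000500090008000c0006000c000a0004000700040008000b0006000e000a) (nat_lit 0x63500500027018) (nat_lit 16) Lb.e (@T16.mk En
    (@En.n l22415 (nat_lit 8145) (nat_lit 1) (nat_lit 10))
    (@En.n l22416 (nat_lit 2624) (nat_lit 1) (nat_lit 14))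
    (@En.n l9770 (nat_lit 9830) (nat_lit 2) (nat_lit 6))
    (@En.n l7184 (nat_lit 7183) (nat_lit 3) (nat_lit 11))
    (@En.n l22417 (nat_lit 6721) (nat_lit 4) (nat_lit 8))
    (@En.n l6189 (nat_lit 8468) (nat_lit 5) (nat_lit 4))
    (@En.n l22418 (nat_lit 11334) (nat_lit 6) (nat_lit 7))
    (@En.n l5319 (nat_lit 2471) (nat_lit 7) (nat_lit 4))
    (@En.n l9770 (nat_lit 7679) (nat_lit 9) (nat_lit 10))
    (@En.n l22419 (nat_lit 12733) (nat_lit 10) (nat_lit 12))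
    (@En.n l22420 (nat_lit 10663) (nat_lit 11) (nat_lit 6))
    (@En.n l8 (nat_lit 6417) (nat_lit 12) (nat_lit 12))
    (@En.i (nat_lit 6416) (nat_lit 13) (nat_lit 8))
    (@En.n l17311 (nat_lit 7097) (nat_lit 14) (nat_lit 9))
    (@En.n l22051 (nat_lit 6274) (nat_lit 13) (nat_lit 5))
    (@En.n l3 (nat_lit 8144) (nat_lit 15) (nat_lit 2))))
  (@Cl.mk (nat_lit 0x400080007000b00060006000c000a0005000800040009000c0006000a000a) (nat_lit 0x605000603017077) (nat_lit 16) Lb.e (@T16.mk En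
    (@En.n l27477 (nat_lit 6434) (nat_lit 6) (nat_lit 10))
    (@En.i (nat_lit 8458) (nat_lit 9) (nat_lit 10))
    (@En.n l37877 (nat_lit 9413) (nat_lit 13) (nat_lit 6))
    (@En.n l22769 (nat_lit 5354) (nat_lit 6) (nat_lit 12))
    (@En.n l50 (nat_lit 6598) (nat_lit 4) (nat_lit 9))
    (@En.n l27479 (nat_lit 8418) (nat_lit 15) (nat_lit 4))
    (@En.n l22769 (nat_lit 9930) (nat_lit 10) (nat_lit 8))
    (@En.n l27481 (nat_lit 2503) (nat_lit 1) (nat_lit 5))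
    (@En.n l37878 (nat_lit 8804) (nat_lit 0) (nat_lit 10))
    (@En.n l30051 (nat_lit 11782) (nat_lit 1) (nat_lit 12))
    (@En.n l37879 (nat_lit 8144) (nat_lit 10) (nat_lit 6))
    (@En.n l612 (nat_lit 9812) (nat_lit 5) (nat_lit 6))
    (@En.n l639 (nat_lit 8147) (nat_lit 8) (nat_lit 11))
    (@En.n l17 (nat_lit 8146) (nat_lit 9) (nat_lit 7))
    (@En.i (nat_lit 7105) (nat_lit 11) (nat_lit 8))
    (@En.n l27485 (nat_lit 6281) (nat_lit 15) (nat_lit 4))))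
  (@Cl.mk (nat_lit 0x3000c0007000b000b00040007000b00050005000c00090005000d00040009) (nat_lit 0x808800400050602) (nat_lit 16) Lb.e (@T16.mk En
    (@En.n l50 (nat_lit 6954) (nat_lit 0) (nat_lit 9))
    (@En.i (nat_lit 8421) (nat_lit 6) (nat_lit 4))
    (@En.n l5 (nat_lit 8150) (nat_lit 0) (nat_lit 13))
    (@En.n l27481 (nat_lit 2228) (nat_lit 1) (nat_lit 5))
    (@En.n l31062 (nat_lit 8802) (nat_lit 4) (nat_lit 9))
    (@En.n l30875 (nat_lit 11781) (nat_lit 11) (nat_lit 12))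
    (@En.n l21254 (nat_lit 6416) (nat_lit 11) (nat_lit 5))
    (@En.n l612 (nat_lit 9813) (nat_lit 7) (nat_lit 5))
    (@En.n l639 (nat_lit 6336) (nat_lit 8) (nat_lit 11))
    (@En.n l3531 (nat_lit 7091) (nat_lit 11) (nat_lit 7))
    (@En.n l27485 (nat_lit 9667) (nat_lit 10) (nat_lit 4))
    (@En.n l27477 (nat_lit 6430) (nat_lit 5) (nat_lit 11))
    (@En.i (nat_lit 8453) (nat_lit 1) (nat_lit 11))
    (@En.n l31062 (nat_lit 9412) (nat_lit 14) (nat_lit 7))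
    (@En.i (nat_lit 8145) (nat_lit 3) (nat_lit 12))
    (@En.n l2698 (nat_lit 8147) (nat_lit 15) (nat_lit 3))))
  (@Cl.mk (nat_lit 0x3000c0007000b000b00040008000b00050005000b00090005000d00080005) (nat_lit 0x808805400350740) (nat_lit 16) Lb.e (@T16.mk En
    (@En.n l22425 (nat_lit 8995) (nat_lit 0) (nat_lit 5))
    (@En.n l22426 (nat_lit 8145) (nat_lit 6) (nat_lit 8))
    (@En.n l615 (nat_lit 8148) (nat_lit 2) (nat_lit 13))
    (@En.n l97 (nat_lit 2502) (nat_lit 3) (nat_lit 5))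
    (@En.n l8356 (nat_lit 8803) (nat_lit 4) (nat_lit 9))
    (@En.n l2940 (nat_lit 11783) (nat_lit 11) (nat_lit 11))
    (@En.n l16876 (nat_lit 6417) (nat_lit 11) (nat_lit 5))
    (@En.n l11940 (nat_lit 9814) (nat_lit 7) (nat_lit 5))
    (@En.n l6136 (nat_lit 6337) (nat_lit 7) (nat_lit 11))
    (@En.n l8356 (nat_lit 7098) (nat_lit 11) (nat_lit 8))
    (@En.n l11941 (nat_lit 9663) (nat_lit 10) (nat_lit 4))
    (@En.n l55 (nat_lit 6431) (nat_lit 5) (nat_lit 11))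
    (@En.n l6136 (nat_lit 8457) (nat_lit 8) (nat_lit 11))
    (@En.n l22427 (nat_lit 7961) (nat_lit 14) (nat_lit 7))
    (@En.n l14125 (nat_lit 5353) (nat_lit 3) (nat_lit 12))
    (@En.n l2202 (nat_lit 8146) (nat_lit 15) (nat_lit 3))))
  (@Cl.mk (nat_lit 0x30009000c0007000b000b00040009000700050005000c0009000d00070004) (nat_lit 0x260800700005600) (nat_lit 16) Lb.e (@T16.mk En
    (@En.n l3695 (nat_lit 8518) (nat_lit 0) (nat_lit 4))
    (@En.i (nat_lit 9934) (nat_lit 0) (nat_lit 7))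
    (@En.n l19414 (nat_lit 7382) (nat_lit 1) (nat_lit 13))
    (@En.i (nat_lit 7089) (nat_lit 3) (nat_lit 9))
    (@En.i (nat_lit 9718) (nat_lit 5) (nat_lit 12))
    (@En.n l6315 (nat_lit 8151) (nat_lit 11) (nat_lit 5))
    (@En.i (nat_lit 12458) (nat_lit 6) (nat_lit 5))
    (@En.n l17 (nat_lit 8149) (nat_lit 7) (nat_lit 7))
    (@En.i (nat_lit 10255) (nat_lit 1) (nat_lit 9))
    (@En.n l1992 (nat_lit 10201) (nat_lit 9) (nat_lit 4))
    (@En.n l619 (nat_lit 8152) (nat_lit 5) (nat_lit 11))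
    (@En.i (nat_lit 10191) (nat_lit 1) (nat_lit 11))
    (@En.n l10139 (nat_lit 8750) (nat_lit 13) (nat_lit 7))
    (@En.n l3695 (nat_lit 12303) (nat_lit 6) (nat_lit 12))
    (@En.i (nat_lit 8145) (nat_lit 4) (nat_lit 9))
    (@En.n l50 (nat_lit 8150) (nat_lit 13) (nat_lit 3))))
  (@Cl.mk (nat_lit 0x300090004000c0008000c000c0004000700040004000c0008000d000c0004) (nat_lit 0x307490000004b00) (nat_lit 16) Lb.e (@T16.mk En
    (@En.i (nat_lit 8515) (nat_lit 0) (nat_lit 4))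
    (@En.n l217 (nat_lit 8701) (nat_lit 4) (nat_lit 12))
    (@En.i (nat_lit 7379) (nat_lit 1) (nat_lit 13))
    (@En.i (nat_lit 7087) (nat_lit 3) (nat_lit 8))
    (@En.i (nat_lit 9716) (nat_lit 12) (nat_lit 12))
    (@En.i (nat_lit 8156) (nat_lit 12) (nat_lit 4))
    (@En.i (nat_lit 8702) (nat_lit 6) (nat_lit 4))
    (@En.i (nat_lit 7032) (nat_lit 11) (nat_lit 7))
    (@En.n l1992 (nat_lit 9761) (nat_lit 1) (nat_lit 4))
    (@En.n l619 (nat_lit 8681) (nat_lit 4) (nat_lit 12))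
    (@En.i (nat_lit 10189) (nat_lit 1) (nat_lit 12))
    (@En.n l1769 (nat_lit 8723) (nat_lit 12) (nat_lit 8))
    (@En.i (nat_lit 8148) (nat_lit 13) (nat_lit 12))
    (@En.n l50 (nat_lit 8704) (nat_lit 6) (nat_lit 4))
    (@En.i (nat_lit 8146) (nat_lit 0) (nat_lit 9))
    (@En.n l50 (nat_lit 8154) (nat_lit 15) (nat_lit 3))))
  (@Cl.mk (nat_lit 0x3000800030009000c0007000b000b00040008000700050005000d0009000d) (nat_lit 0x1508400000845) (nat_lit 16) Lb.e (@T16.mk En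
    (@En.n l5646 (nat_lit 7385) (nat_lit 0) (nat_lit 13))
    (@En.i (nat_lit 7088) (nat_lit 3) (nat_lit 9))
    (@En.i (nat_lit 10511) (nat_lit 2) (nat_lit 13))
    (@En.i (nat_lit 8155) (nat_lit 11) (nat_lit 5))
    (@En.i (nat_lit 12456) (nat_lit 4) (nat_lit 5))
    (@En.n l17 (nat_lit 8154) (nat_lit 7) (nat_lit 7))
    (@En.i (nat_lit 10251) (nat_lit 11) (nat_lit 8))
    (@En.n l1992 (nat_lit 9765) (nat_lit 7) (nat_lit 4))
    (@En.n l619 (nat_lit 8689) (nat_lit 5) (nat_lit 11))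
    (@En.i (nat_lit 10192) (nat_lit 1) (nat_lit 11))
    (@En.n l1769 (nat_lit 8749) (nat_lit 13) (nat_lit 7))
    (@En.i (nat_lit 12312) (nat_lit 6) (nat_lit 12))
    (@En.i (nat_lit 6593) (nat_lit 13) (nat_lit 9))
    (@En.i (nat_lit 8148) (nat_lit 15) (nat_lit 3))
    (@En.i (nat_lit 11433) (nat_lit 0) (nat_lit 8))
    (@En.i (nat_lit 8153) (nat_lit 15) (nat_lit 3))))
  (@Cl.mk (nat_lit 0x20005000a00080005000c0009000d0006000400030008000b0007000e000b) (nat_lit 0x74003100036039) (nat_lit 16) Lb.e (@T16.mk En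
    (@En.n l3234 (nat_lit 8148) (nat_lit 11) (nat_lit 11))
    (@En.n l3235 (nat_lit 8717) (nat_lit 1) (nat_lit 14))
    (@En.n l16813 (nat_lit 9832) (nat_lit 2) (nat_lit 7))
    (@En.n l6745 (nat_lit 12305) (nat_lit 3) (nat_lit 11))
    (@En.n l16814 (nat_lit 8144) (nat_lit 4) (nat_lit 8))
    (@En.n l16815 (nat_lit 8155) (nat_lit 5) (nat_lit 3))
    (@En.i (nat_lit 8192) (nat_lit 6) (nat_lit 4))
    (@En.n l55 (nat_lit 11329) (nat_lit 7) (nat_lit 6))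
    (@En.i (nat_lit 4615) (nat_lit 9) (nat_lit 13))
    (@En.n l6745 (nat_lit 7673) (nat_lit 10) (nat_lit 9))
    (@En.n l16816 (nat_lit 12811) (nat_lit 11) (nat_lit 12))
    (@En.n l2855 (nat_lit 12433) (nat_lit 12) (nat_lit 5))
    (@En.n l16817 (nat_lit 8156) (nat_lit 13) (nat_lit 8))
    (@En.n l16818 (nat_lit 10254) (nat_lit 14) (nat_lit 10))
    (@En.i (nat_lit 11932) (nat_lit 13) (nat_lit 5))
    (@En.n l3 (nat_lit 8151) (nat_lit 15) (nat_lit 2))))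
  (@Cl.mk (nat_lit 0x2000c0009000d000800040003000a000d0007000b000300080006000e0005) (nat_lit 0x51600180905050) (nat_lit 16) Lb.e (@T16.mk En
    (@En.n l117 (nat_lit 8148) (nat_lit 6) (nat_lit 5))
    (@En.n l3327 (nat_lit 7890) (nat_lit 1) (nat_lit 14))
    (@En.n l17 (nat_lit 8681) (nat_lit 2) (nat_lit 6))
    (@En.i (nat_lit 7807) (nat_lit 3) (nat_lit 8))
    (@En.n l2576 (nat_lit 8682) (nat_lit 4) (nat_lit 3))
    (@En.i (nat_lit 8333) (nat_lit 0) (nat_lit 11))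
    (@En.n l5646 (nat_lit 8747) (nat_lit 6) (nat_lit 7))
    (@En.n l3871 (nat_lit 11069) (nat_lit 8) (nat_lit 13))
    (@En.n l998 (nat_lit 6434) (nat_lit 9) (nat_lit 10))
    (@En.n l50 (nat_lit 8689) (nat_lit 9) (nat_lit 3))
    (@En.n l7678 (nat_lit 8513) (nat_lit 0) (nat_lit 4))
    (@En.i (nat_lit 9931) (nat_lit 12) (nat_lit 8))
    (@En.n l3325 (nat_lit 3427) (nat_lit 13) (nat_lit 13))
    (@En.i (nat_lit 7090) (nat_lit 14) (nat_lit 9))
    (@En.n l3327 (nat_lit 9650) (nat_lit 10) (nat_lit 12))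
    (@En.n l11 (nat_lit 8152) (nat_lit 15) (nat_lit 2))))
  (@Cl.mk (nat_lit 0x3000800040009000c0006000b000b00040008000700050005000d000c000a) (nat_lit 0x302500004000711) (nat_lit 16) Lb.e (@T16.mk En
    (@En.n l30805 (nat_lit 7928) (nat_lit 0) (nat_lit 10))
    (@En.n l644 (nat_lit 8148) (nat_lit 4) (nat_lit 12))
    (@En.n l3528 (nat_lit 10510) (nat_lit 2) (nat_lit 13))
    (@En.n l10618 (nat_lit 10975) (nat_lit 11) (nat_lit 5))
    (@En.i (nat_lit 12457) (nat_lit 4) (nat_lit 5))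
    (@En.n l17 (nat_lit 8694) (nat_lit 9) (nat_lit 7))
    (@En.i (nat_lit 10252) (nat_lit 11) (nat_lit 8))
    (@En.n l9956 (nat_lit 9766) (nat_lit 7) (nat_lit 4))
    (@En.n l619 (nat_lit 8691) (nat_lit 5) (nat_lit 11))
    (@En.i (nat_lit 10195) (nat_lit 1) (nat_lit 11))
    (@En.n l18230 (nat_lit 8752) (nat_lit 11) (nat_lit 6))
    (@En.n l3696 (nat_lit 12330) (nat_lit 6) (nat_lit 12))
    (@En.i (nat_lit 6592) (nat_lit 13) (nat_lit 9))
    (@En.n l38889 (nat_lit 8422) (nat_lit 14) (nat_lit 4))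
    (@En.i (nat_lit 11727) (nat_lit 0) (nat_lit 8))
    (@En.n l7 (nat_lit 8150) (nat_lit 15) (nat_lit 3))))
  (@Cl.mk (nat_lit 0x300090003000c0008000c000c0004000700040004000d0008000d0003000d) (nat_lit 0x206580000074a06) (nat_lit 16) Lb.e (@T16.mk En
    (@En.i (nat_lit 7070) (nat_lit 0) (nat_lit 13))
    (@En.i (nat_lit 8694) (nat_lit 3) (nat_lit 3))
    (@En.i (nat_lit 7380) (nat_lit 0) (nat_lit 13))
    (@En.i (nat_lit 7084) (nat_lit 3) (nat_lit 8))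
    (@En.i (nat_lit 10513) (nat_lit 2) (nat_lit 13))
    (@En.i (nat_lit 8157) (nat_lit 12) (nat_lit 4))
    (@En.i (nat_lit 8700) (nat_lit 6) (nat_lit 4))
    (@En.i (nat_lit 7030) (nat_lit 11) (nat_lit 7))
    (@En.n l1992 (nat_lit 9760) (nat_lit 1) (nat_lit 4))
    (@En.n l619 (nat_lit 8687) (nat_lit 4) (nat_lit 12))
    (@En.i (nat_lit 10190) (nat_lit 1) (nat_lit 12))
    (@En.n l1769 (nat_lit 8725) (nat_lit 14) (nat_lit 8))
    (@En.i (nat_lit 8150) (nat_lit 11) (nat_lit 12))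
    (@En.i (nat_lit 8701) (nat_lit 15) (nat_lit 3))
    (@En.i (nat_lit 6599) (nat_lit 0) (nat_lit 9))
    (@En.i (nat_lit 8149) (nat_lit 15) (nat_lit 3))))
  (@Cl.mk (nat_lit 0x20005000900080005000d0009000d0003000700030008000b0007000e000b) (nat_lit 0x540a3200015059) (nat_lit 16) Lb.e (@T16.mk En
    (@En.n l1144 (nat_lit 8150) (nat_lit 9) (nat_lit 11))
    (@En.n l11 (nat_lit 10974) (nat_lit 1) (nat_lit 14))
    (@En.n l1483 (nat_lit 9834) (nat_lit 2) (nat_lit 7))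
    (@En.i (nat_lit 12307) (nat_lit 3) (nat_lit 11))
    (@En.i (nat_lit 5003) (nat_lit 4) (nat_lit 8))
    (@En.n l6315 (nat_lit 8151) (nat_lit 5) (nat_lit 3))
    (@En.n l10617 (nat_lit 11665) (nat_lit 6) (nat_lit 7))
    (@En.n l10618 (nat_lit 10975) (nat_lit 7) (nat_lit 3))
    (@En.n l1150 (nat_lit 7402) (nat_lit 9) (nat_lit 13))
    (@En.n l7126 (nat_lit 7676) (nat_lit 10) (nat_lit 9))
    (@En.n l2262 (nat_lit 10982) (nat_lit 11) (nat_lit 13))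
    (@En.n l10617 (nat_lit 12431) (nat_lit 3) (nat_lit 5))
    (@En.n l17 (nat_lit 8157) (nat_lit 13) (nat_lit 8))
    (@En.n l10617 (nat_lit 10245) (nat_lit 14) (nat_lit 9))
    (@En.n l1150 (nat_lit 4180) (nat_lit 13) (nat_lit 5))
    (@En.n l1157 (nat_lit 8155) (nat_lit 15) (nat_lit 2))))
  (@Cl.mk (nat_lit 0x2000500080004000c0008000d000c0004000300080004000b0008000e000c) (nat_lit 0x3003b0001074ca) (nat_lit 16) Lb.e (@T16.mk En
    (@En.n l1144 (nat_lit 8149) (nat_lit 10) (nat_lit 12))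
    (@En.n l11 (nat_lit 8714) (nat_lit 1) (nat_lit 14))
    (@En.n l7098 (nat_lit 9153) (nat_lit 2) (nat_lit 8))
    (@En.n l6315 (nat_lit 8151) (nat_lit 3) (nat_lit 11))
    (@En.n l2828 (nat_lit 8705) (nat_lit 4) (nat_lit 4))
    (@En.n l21254 (nat_lit 6416) (nat_lit 5) (nat_lit 8))
    (@En.n l50 (nat_lit 8157) (nat_lit 6) (nat_lit 3))
    (@En.n l21246 (nat_lit 8193) (nat_lit 7) (nat_lit 4))
    (@En.n l5672 (nat_lit 8709) (nat_lit 9) (nat_lit 12))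
    (@En.n l2828 (nat_lit 7383) (nat_lit 10) (nat_lit 13))
    (@En.n l7098 (nat_lit 7672) (nat_lit 11) (nat_lit 8))
    (@En.n l2262 (nat_lit 12814) (nat_lit 12) (nat_lit 12))
    (@En.n l11 (nat_lit 9091) (nat_lit 13) (nat_lit 4))
    (@En.i (nat_lit 7054) (nat_lit 14) (nat_lit 8))
    (@En.n l7104 (nat_lit 4177) (nat_lit 13) (nat_lit 5))
    (@En.n l1157 (nat_lit 8156) (nat_lit 15) (nat_lit 2))))
  (@Cl.mk (nat_lit 0x2000500080004000d0008000d0003000d000300080003000b0008000e000c) (nat_lit 0x30a3b070206569) (nat_lit 16) Lb.e (@T16.mk En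
    (@En.n l1144 (nat_lit 8154) (nat_lit 10) (nat_lit 12))
    (@En.n l11 (nat_lit 8716) (nat_lit 1) (nat_lit 14))
    (@En.n l1483 (nat_lit 9154) (nat_lit 2) (nat_lit 8))
    (@En.i (nat_lit 8155) (nat_lit 3) (nat_lit 11))
    (@En.n l1154 (nat_lit 8709) (nat_lit 4) (nat_lit 3))
    (@En.i (nat_lit 5004) (nat_lit 5) (nat_lit 8))
    (@En.i (nat_lit 8156) (nat_lit 6) (nat_lit 3))
    (@En.n l7126 (nat_lit 7170) (nat_lit 8) (nat_lit 13))
    (@En.n l2385 (nat_lit 10976) (nat_lit 8) (nat_lit 3))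
    (@En.n l1154 (nat_lit 7386) (nat_lit 10) (nat_lit 13))
    (@En.n l7126 (nat_lit 7093) (nat_lit 11) (nat_lit 8))
    (@En.n l2262 (nat_lit 10984) (nat_lit 12) (nat_lit 13))
    (@En.n l11 (nat_lit 9088) (nat_lit 13) (nat_lit 4))
    (@En.i (nat_lit 7066) (nat_lit 14) (nat_lit 8))
    (@En.n l2263 (nat_lit 4173) (nat_lit 13) (nat_lit 5))
    (@En.n l1157 (nat_lit 8157) (nat_lit 15) (nat_lit 2))))
  (@Cl.mk (nat_lit 0x20006000a000e000b00020007000b00060005000d000a00050003000e0009) (nat_lit 0x861005002400b5) (nat_lit 16) Lb.e (@T16.mk En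
    (@En.i (nat_lit 5299) (nat_lit 5) (nat_lit 9))
    (@En.i (nat_lit 5011) (nat_lit 1) (nat_lit 14))
    (@En.n l1386 (nat_lit 8159) (nat_lit 2) (nat_lit 3))
    (@En.n l6899 (nat_lit 4776) (nat_lit 8) (nat_lit 5))
    (@En.i (nat_lit 8160) (nat_lit 4) (nat_lit 10))
    (@En.i (nat_lit 4217) (nat_lit 6) (nat_lit 13))
    (@En.n l10505 (nat_lit 5548) (nat_lit 6) (nat_lit 5))
    (@En.n l17 (nat_lit 8165) (nat_lit 7) (nat_lit 6))
    (@En.i (nat_lit 3905) (nat_lit 9) (nat_lit 11))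
    (@En.i (nat_lit 11106) (nat_lit 10) (nat_lit 7))
    (@En.n l3 (nat_lit 8158) (nat_lit 10) (nat_lit 2))
    (@En.n l15182 (nat_lit 8026) (nat_lit 12) (nat_lit 11))
    (@En.i (nat_lit 6631) (nat_lit 13) (nat_lit 14))
    (@En.i (nat_lit 12400) (nat_lit 2) (nat_lit 10))
    (@En.i (nat_lit 4446) (nat_lit 3) (nat_lit 6))
    (@En.n l50 (nat_lit 8158) (nat_lit 15) (nat_lit 2))))
  (@Cl.mk (nat_lit 0x20005000a000e000b00020007000c00060005000d0004000b0003000e0009) (nat_lit 0x88100100202095) (nat_lit 16) Lb.e (@T16.mk En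
    (@En.i (nat_lit 5297) (nat_lit 5) (nat_lit 9))
    (@En.n l9478 (nat_lit 8160) (nat_lit 1) (nat_lit 14))
    (@En.n l1543 (nat_lit 8158) (nat_lit 2) (nat_lit 3))
    (@En.n l116 (nat_lit 3023) (nat_lit 3) (nat_lit 11))
    (@En.n l1544 (nat_lit 7185) (nat_lit 4) (nat_lit 4))
    (@En.n l1395 (nat_lit 4218) (nat_lit 6) (nat_lit 13))
    (@En.i (nat_lit 3629) (nat_lit 6) (nat_lit 5))
    (@En.n l447 (nat_lit 8162) (nat_lit 7) (nat_lit 6))
    (@En.n l3815 (nat_lit 3064) (nat_lit 9) (nat_lit 12))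
    (@En.n l810 (nat_lit 11104) (nat_lit 10) (nat_lit 7))
    (@En.n l28 (nat_lit 8159) (nat_lit 10) (nat_lit 2))
    (@En.n l11 (nat_lit 8024) (nat_lit 12) (nat_lit 11))
    (@En.n l11118 (nat_lit 6629) (nat_lit 13) (nat_lit 14))
    (@En.n l1544 (nat_lit 12383) (nat_lit 2) (nat_lit 10))
    (@En.i (nat_lit 7461) (nat_lit 3) (nat_lit 5))
    (@En.n l3 (nat_lit 8159) (nat_lit 15) (nat_lit 2))))
noncomputable def a510 : T16 Cl := @T16.mk Cl
  (@Cl.mk (nat_lit 0x200060005000a000e000b00020008000c00060005000a0004000b000e0008) (nat_lit 0x8330450030585) (nat_lit 16) Lb.e (@T16.mk En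
    (@En.n l17880 (nat_lit 5298) (nat_lit 6) (nat_lit 8))
    (@En.n l11999 (nat_lit 5009) (nat_lit 8) (nat_lit 14))
    (@En.n l8457 (nat_lit 2971) (nat_lit 2) (nat_lit 11))
    (@En.n l780 (nat_lit 7184) (nat_lit 3) (nat_lit 4))
    (@En.n l8460 (nat_lit 11233) (nat_lit 4) (nat_lit 10))
    (@En.n l1320 (nat_lit 5545) (nat_lit 5) (nat_lit 5))
    (@En.n l17 (nat_lit 8164) (nat_lit 6) (nat_lit 6))
    (@En.n l11999 (nat_lit 3065) (nat_lit 8) (nat_lit 12))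
    (@En.n l17881 (nat_lit 11105) (nat_lit 9) (nat_lit 8))
    (@En.n l3 (nat_lit 8160) (nat_lit 9) (nat_lit 2))
    (@En.n l17882 (nat_lit 8025) (nat_lit 11) (nat_lit 11))
    (@En.n l7827 (nat_lit 6630) (nat_lit 12) (nat_lit 14))
    (@En.n l3712 (nat_lit 12526) (nat_lit 13) (nat_lit 10))
    (@En.n l10505 (nat_lit 8159) (nat_lit 14) (nat_lit 5))
    (@En.n l17883 (nat_lit 4439) (nat_lit 4) (nat_lit 6))
    (@En.n l50 (nat_lit 8160) (nat_lit 15) (nat_lit 2))))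
  (@Cl.mk (nat_lit 0x200050008000e000c00020007000c0004000c00080004000b0004000e0009) (nat_lit 0x592002073060b6) (nat_lit 16) Lb.e (@T16.mk En
    (@En.n l6839 (nat_lit 12515) (nat_lit 5) (nat_lit 9))
    (@En.n l7408 (nat_lit 8163) (nat_lit 1) (nat_lit 14))
    (@En.n l11148 (nat_lit 8171) (nat_lit 2) (nat_lit 4))
    (@En.i (nat_lit 8162) (nat_lit 3) (nat_lit 11))
    (@En.n l11149 (nat_lit 8159) (nat_lit 4) (nat_lit 4))
    (@En.n l9087 (nat_lit 11752) (nat_lit 5) (nat_lit 8))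
    (@En.n l11150 (nat_lit 4216) (nat_lit 7) (nat_lit 12))
    (@En.n l10387 (nat_lit 11139) (nat_lit 7) (nat_lit 4))
    (@En.n l2348 (nat_lit 3967) (nat_lit 9) (nat_lit 12))
    (@En.n l11151 (nat_lit 12011) (nat_lit 10) (nat_lit 7))
    (@En.n l3 (nat_lit 8161) (nat_lit 10) (nat_lit 2))
    (@En.n l11152 (nat_lit 8169) (nat_lit 12) (nat_lit 12))
    (@En.n l1386 (nat_lit 9519) (nat_lit 13) (nat_lit 14))
    (@En.n l7408 (nat_lit 12761) (nat_lit 10) (nat_lit 8))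
    (@En.n l11153 (nat_lit 8943) (nat_lit 3) (nat_lit 5))
    (@En.n l50 (nat_lit 8161) (nat_lit 15) (nat_lit 2))))
  (@Cl.mk (nat_lit 0x20005000a0008000e000c0002000800060004000d0008000b0003000e0008) (nat_lit 0x469500002350a5) (nat_lit 16) Lb.e (@T16.mk En
    (@En.n l4032 (nat_lit 12514) (nat_lit 6) (nat_lit 8))
    (@En.n l343 (nat_lit 8164) (nat_lit 1) (nat_lit 14))
    (@En.n l28 (nat_lit 8165) (nat_lit 2) (nat_lit 3))
    (@En.n l4033 (nat_lit 4142) (nat_lit 3) (nat_lit 11))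
    (@En.i (nat_lit 11753) (nat_lit 4) (nat_lit 8))
    (@En.n l4034 (nat_lit 4215) (nat_lit 6) (nat_lit 13))
    (@En.n l4035 (nat_lit 10940) (nat_lit 6) (nat_lit 4))
    (@En.i (nat_lit 7059) (nat_lit 7) (nat_lit 6))
    (@En.n l4036 (nat_lit 12009) (nat_lit 9) (nat_lit 8))
    (@En.n l3 (nat_lit 8162) (nat_lit 9) (nat_lit 2))
    (@En.n l4037 (nat_lit 8166) (nat_lit 11) (nat_lit 12))
    (@En.n l1386 (nat_lit 7151) (nat_lit 12) (nat_lit 14))
    (@En.n l4038 (nat_lit 8161) (nat_lit 13) (nat_lit 8))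
    (@En.i (nat_lit 7995) (nat_lit 3) (nat_lit 10))
    (@En.n l4033 (nat_lit 8942) (nat_lit 4) (nat_lit 5))
    (@En.n l50 (nat_lit 8162) (nat_lit 15) (nat_lit 2))))
  (@Cl.mk (nat_lit 0x2000700050008000e000c00020008000c0004000900080004000b000e0008) (nat_lit 0xc704303306a5) (nat_lit 16) Lb.e (@T16.mk En
    (@En.n l8258 (nat_lit 12522) (nat_lit 6) (nat_lit 8))
    (@En.n l476 (nat_lit 5126) (nat_lit 4) (nat_lit 14))
    (@En.n l16908 (nat_lit 8164) (nat_lit 2) (nat_lit 11))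
    (@En.n l12568 (nat_lit 8160) (nat_lit 3) (nat_lit 4))
    (@En.n l152 (nat_lit 12628) (nat_lit 11) (nat_lit 8))
    (@En.i (nat_lit 11232) (nat_lit 5) (nat_lit 9))
    (@En.i (nat_lit 11138) (nat_lit 6) (nat_lit 4))
    (@En.i (nat_lit 3964) (nat_lit 8) (nat_lit 12))
    (@En.n l5276 (nat_lit 12012) (nat_lit 9) (nat_lit 8))
    (@En.n l11 (nat_lit 8163) (nat_lit 9) (nat_lit 2))
    (@En.n l9927 (nat_lit 8168) (nat_lit 11) (nat_lit 12))
    (@En.n l11110 (nat_lit 9518) (nat_lit 12) (nat_lit 14))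
    (@En.i (nat_lit 12530) (nat_lit 2) (nat_lit 8))
    (@En.n l16909 (nat_lit 8161) (nat_lit 14) (nat_lit 5))
    (@En.n l16910 (nat_lit 9752) (nat_lit 4) (nat_lit 7))
    (@En.n l17 (nat_lit 8163) (nat_lit 15) (nat_lit 2))))
  (@Cl.mk (nat_lit 0x200060005000a0008000e000c0002000900060004000a0008000b000e0007) (nat_lit 0x51c8000033590) (nat_lit 16) Lb.e (@T16.mk En
    (@En.n l9403 (nat_lit 12521) (nat_lit 7) (nat_lit 7))
    (@En.n l9404 (nat_lit 8960) (nat_lit 9) (nat_lit 14))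
    (@En.n l9405 (nat_lit 4141) (nat_lit 2) (nat_lit 11))
    (@En.n l9406 (nat_lit 12627) (nat_lit 11) (nat_lit 8))
    (@En.n l9407 (nat_lit 11231) (nat_lit 4) (nat_lit 10))
    (@En.n l9404 (nat_lit 11135) (nat_lit 5) (nat_lit 4))
    (@En.i (nat_lit 7055) (nat_lit 14) (nat_lit 6))
    (@En.n l9408 (nat_lit 12010) (nat_lit 8) (nat_lit 9))
    (@En.n l3 (nat_lit 8164) (nat_lit 8) (nat_lit 2))
    (@En.n l9409 (nat_lit 8167) (nat_lit 10) (nat_lit 12))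
    (@En.n l9410 (nat_lit 7152) (nat_lit 11) (nat_lit 14))
    (@En.n l9411 (nat_lit 8163) (nat_lit 12) (nat_lit 8))
    (@En.n l2346 (nat_lit 7998) (nat_lit 13) (nat_lit 10))
    (@En.n l55 (nat_lit 8162) (nat_lit 14) (nat_lit 5))
    (@En.n l9412 (nat_lit 9745) (nat_lit 5) (nat_lit 6))
    (@En.n l50 (nat_lit 8164) (nat_lit 15) (nat_lit 2))))
  (@Cl.mk (nat_lit 0x20006000a0007000e000c0002000800060004000d000a00090003000e0008) (nat_lit 0x207500009400a6) (nat_lit 16) Lb.e (@T16.mk En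
    (@En.i (nat_lit 12513) (nat_lit 6) (nat_lit 8))
    (@En.i (nat_lit 8963) (nat_lit 1) (nat_lit 14))
    (@En.i (nat_lit 8162) (nat_lit 2) (nat_lit 3))
    (@En.n l725 (nat_lit 12512) (nat_lit 10) (nat_lit 9))
    (@En.i (nat_lit 8164) (nat_lit 4) (nat_lit 10))
    (@En.i (nat_lit 4214) (nat_lit 6) (nat_lit 13))
    (@En.n l10385 (nat_lit 10936) (nat_lit 6) (nat_lit 4))
    (@En.i (nat_lit 7061) (nat_lit 14) (nat_lit 6))
    (@En.n l3098 (nat_lit 12008) (nat_lit 9) (nat_lit 8))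
    (@En.n l3 (nat_lit 8165) (nat_lit 9) (nat_lit 2))
    (@En.n l4130 (nat_lit 8170) (nat_lit 11) (nat_lit 12))
    (@En.n l10394 (nat_lit 7150) (nat_lit 12) (nat_lit 14))
    (@En.n l61 (nat_lit 8171) (nat_lit 13) (nat_lit 7))
    (@En.i (nat_lit 7994) (nat_lit 3) (nat_lit 10))
    (@En.n l1784 (nat_lit 10525) (nat_lit 4) (nat_lit 6))
    (@En.n l50 (nat_lit 8165) (nat_lit 15) (nat_lit 2))))
  (@Cl.mk (nat_lit 0x20005000b0008000c000c0007000500040004000d0008000b0003000e0009) (nat_lit 0x454600009360a7) (nat_lit 16) Lb.e (@T16.mk En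
    (@En.n l517 (nat_lit 8059) (nat_lit 14) (nat_lit 9))
    (@En.i (nat_lit 8167) (nat_lit 1) (nat_lit 14))
    (@En.n l2869 (nat_lit 8170) (nat_lit 2) (nat_lit 3))
    (@En.i (nat_lit 4140) (nat_lit 3) (nat_lit 11))
    (@En.i (nat_lit 12624) (nat_lit 4) (nat_lit 8))
    (@En.i (nat_lit 5293) (nat_lit 6) (nat_lit 13))
    (@En.n l9965 (nat_lit 8162) (nat_lit 6) (nat_lit 4))
    (@En.n l1577 (nat_lit 10934) (nat_lit 7) (nat_lit 4))
    (@En.i (nat_lit 7058) (nat_lit 8) (nat_lit 5))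
    (@En.i (nat_lit 10364) (nat_lit 10) (nat_lit 7))
    (@En.n l457 (nat_lit 10986) (nat_lit 11) (nat_lit 12))
    (@En.i (nat_lit 8082) (nat_lit 12) (nat_lit 12))
    (@En.n l3339 (nat_lit 8169) (nat_lit 13) (nat_lit 8))
    (@En.n l3337 (nat_lit 7993) (nat_lit 14) (nat_lit 11))
    (@En.i (nat_lit 8903) (nat_lit 13) (nat_lit 5))
    (@En.n l3 (nat_lit 8166) (nat_lit 15) (nat_lit 2))))
  (@Cl.mk (nat_lit 0x200060005000b0008000c000c0008000500040004000a0008000b000e0008) (nat_lit 0x5076300033594) (nat_lit 16) Lb.e (@T16.mk En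
    (@En.n l6198 (nat_lit 10993) (nat_lit 2) (nat_lit 8))
    (@En.n l21901 (nat_lit 8959) (nat_lit 4) (nat_lit 14))
    (@En.n l1198 (nat_lit 2970) (nat_lit 2) (nat_lit 11))
    (@En.n l14894 (nat_lit 12625) (nat_lit 3) (nat_lit 8))
    (@En.n l21902 (nat_lit 11445) (nat_lit 4) (nat_lit 10))
    (@En.n l21903 (nat_lit 8164) (nat_lit 5) (nat_lit 4))
    (@En.n l21901 (nat_lit 10942) (nat_lit 6) (nat_lit 4))
    (@En.i (nat_lit 7056) (nat_lit 7) (nat_lit 5))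
    (@En.n l14738 (nat_lit 10363) (nat_lit 9) (nat_lit 8))
    (@En.n l457 (nat_lit 10987) (nat_lit 10) (nat_lit 12))
    (@En.i (nat_lit 8083) (nat_lit 11) (nat_lit 12))
    (@En.n l21904 (nat_lit 8168) (nat_lit 12) (nat_lit 8))
    (@En.n l11295 (nat_lit 7997) (nat_lit 13) (nat_lit 11))
    (@En.n l17 (nat_lit 8166) (nat_lit 14) (nat_lit 5))
    (@En.i (nat_lit 9750) (nat_lit 13) (nat_lit 6))
    (@En.n l3 (nat_lit 8167) (nat_lit 15) (nat_lit 2))))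
  (@Cl.mk (nat_lit 0x2000700050008000c000c0007000b00040004000900080005000b000e0009) (nat_lit 0x66502003406a5) (nat_lit 16) Lb.e (@T16.mk En
    (@En.n l24737 (nat_lit 10992) (nat_lit 2) (nat_lit 9))
    (@En.n l7234 (nat_lit 5133) (nat_lit 4) (nat_lit 14))
    (@En.n l9603 (nat_lit 8167) (nat_lit 2) (nat_lit 11))
    (@En.n l32373 (nat_lit 8025) (nat_lit 3) (nat_lit 5))
    (@En.n l22667 (nat_lit 12626) (nat_lit 4) (nat_lit 8))
    (@En.n l22484 (nat_lit 11439) (nat_lit 5) (nat_lit 9))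
    (@En.n l3644 (nat_lit 8163) (nat_lit 6) (nat_lit 4))
    (@En.n l7 (nat_lit 12318) (nat_lit 7) (nat_lit 4))
    (@En.n l3608 (nat_lit 3960) (nat_lit 9) (nat_lit 11))
    (@En.n l8268 (nat_lit 10361) (nat_lit 10) (nat_lit 7))
    (@En.n l644 (nat_lit 10988) (nat_lit 11) (nat_lit 12))
    (@En.n l25503 (nat_lit 8078) (nat_lit 12) (nat_lit 12))
    (@En.i (nat_lit 12532) (nat_lit 13) (nat_lit 8))
    (@En.n l29587 (nat_lit 8169) (nat_lit 14) (nat_lit 5))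
    (@En.n l25503 (nat_lit 9751) (nat_lit 6) (nat_lit 7))
    (@En.n l11 (nat_lit 8168) (nat_lit 15) (nat_lit 2))))
  (@Cl.mk (nat_lit 0x200050008000c000c0006000b00040004000c00080005000b0004000e000a) (nat_lit 0x414040074070b6) (nat_lit 16) Lb.e (@T16.mk En
    (@En.n l6826 (nat_lit 10997) (nat_lit 1) (nat_lit 10))
    (@En.n l24727 (nat_lit 8168) (nat_lit 1) (nat_lit 14))
    (@En.n l24728 (nat_lit 11056) (nat_lit 2) (nat_lit 4))
    (@En.n l250 (nat_lit 8166) (nat_lit 3) (nat_lit 11))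
    (@En.n l22936 (nat_lit 8024) (nat_lit 4) (nat_lit 5))
    (@En.n l15976 (nat_lit 11755) (nat_lit 5) (nat_lit 8))
    (@En.n l2254 (nat_lit 5292) (nat_lit 7) (nat_lit 12))
    (@En.n l24729 (nat_lit 8161) (nat_lit 7) (nat_lit 4))
    (@En.i (nat_lit 12317) (nat_lit 8) (nat_lit 4))
    (@En.n l24730 (nat_lit 3775) (nat_lit 10) (nat_lit 11))
    (@En.n l2254 (nat_lit 10362) (nat_lit 11) (nat_lit 6))
    (@En.n l55 (nat_lit 10989) (nat_lit 12) (nat_lit 12))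
    (@En.i (nat_lit 8077) (nat_lit 13) (nat_lit 12))
    (@En.n l2039 (nat_lit 12090) (nat_lit 10) (nat_lit 8))
    (@En.i (nat_lit 8904) (nat_lit 13) (nat_lit 5))
    (@En.n l3 (nat_lit 8169) (nat_lit 15) (nat_lit 2))))
  (@Cl.mk (nat_lit 0x20006000b0007000c000c0007000500040004000d000a00090003000e0009) (nat_lit 0x40470000845055) (nat_lit 16) Lb.e (@T16.mk En
    (@En.n l24723 (nat_lit 10930) (nat_lit 14) (nat_lit 9))
    (@En.i (nat_lit 8965) (nat_lit 1) (nat_lit 14))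
    (@En.n l1865 (nat_lit 8166) (nat_lit 2) (nat_lit 3))
    (@En.n l4758 (nat_lit 10103) (nat_lit 3) (nat_lit 9))
    (@En.n l1867 (nat_lit 8167) (nat_lit 4) (nat_lit 10))
    (@En.n l24724 (nat_lit 5294) (nat_lit 6) (nat_lit 13))
    (@En.n l3519 (nat_lit 8165) (nat_lit 6) (nat_lit 4))
    (@En.n l24725 (nat_lit 10932) (nat_lit 7) (nat_lit 4))
    (@En.i (nat_lit 7062) (nat_lit 8) (nat_lit 5))
    (@En.n l24726 (nat_lit 10545) (nat_lit 10) (nat_lit 7))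
    (@En.n l61 (nat_lit 10931) (nat_lit 11) (nat_lit 12))
    (@En.n l649 (nat_lit 8084) (nat_lit 12) (nat_lit 12))
    (@En.n l2038 (nat_lit 11056) (nat_lit 13) (nat_lit 7))
    (@En.n l3517 (nat_lit 7992) (nat_lit 14) (nat_lit 11))
    (@En.i (nat_lit 6405) (nat_lit 13) (nat_lit 6))
    (@En.n l28 (nat_lit 8170) (nat_lit 15) (nat_lit 2))))
  (@Cl.mk (nat_lit 0x200070007000e000c00020007000b0004000c0009000900050004000e0009) (nat_lit 0x5000306400017) (nat_lit 16) Lb.e (@T16.mk En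
    (@En.n l6895 (nat_lit 12524) (nat_lit 5) (nat_lit 9))
    (@En.n l626 (nat_lit 1645) (nat_lit 1) (nat_lit 14))
    (@En.n l2399 (nat_lit 12757) (nat_lit 2) (nat_lit 4))
    (@En.i (nat_lit 8158) (nat_lit 3) (nat_lit 5))
    (@En.n l6896 (nat_lit 11061) (nat_lit 10) (nat_lit 9))
    (@En.n l6897 (nat_lit 8163) (nat_lit 5) (nat_lit 9))
    (@En.n l6898 (nat_lit 3025) (nat_lit 12) (nat_lit 12))
    (@En.n l6899 (nat_lit 9639) (nat_lit 7) (nat_lit 4))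
    (@En.n l17 (nat_lit 3930) (nat_lit 9) (nat_lit 11))
    (@En.n l6900 (nat_lit 10927) (nat_lit 10) (nat_lit 7))
    (@En.n l3 (nat_lit 8171) (nat_lit 10) (nat_lit 2))
    (@En.n l6901 (nat_lit 11056) (nat_lit 12) (nat_lit 12))
    (@En.n l6902 (nat_lit 9504) (nat_lit 13) (nat_lit 14))
    (@En.n l698 (nat_lit 12566) (nat_lit 9) (nat_lit 7))
    (@En.n l6903 (nat_lit 9189) (nat_lit 3) (nat_lit 7))
    (@En.n l50 (nat_lit 8171) (nat_lit 15) (nat_lit 2))))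
  (@Cl.mk (nat_lit 0x200070006000d0007000d000300080003000e00090002000a0009000e0008) (nat_lit 0xa07030b2035a6) (nat_lit 16) Lb.e (@T16.mk En
    (@En.n l3508 (nat_lit 7158) (nat_lit 12) (nat_lit 8))
    (@En.n l7503 (nat_lit 8034) (nat_lit 13) (nat_lit 14))
    (@En.n l55 (nat_lit 9032) (nat_lit 2) (nat_lit 9))
    (@En.n l7504 (nat_lit 6053) (nat_lit 3) (nat_lit 10))
    (@En.n l3 (nat_lit 8172) (nat_lit 4) (nat_lit 2))
    (@En.n l3358 (nat_lit 6035) (nat_lit 5) (nat_lit 9))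
    (@En.i (nat_lit 4215) (nat_lit 1) (nat_lit 14))
    (@En.n l18029 (nat_lit 8174) (nat_lit 7) (nat_lit 3))
    (@En.n l18030 (nat_lit 6500) (nat_lit 3) (nat_lit 8))
    (@En.n l18029 (nat_lit 8173) (nat_lit 9) (nat_lit 3))
    (@En.n l18031 (nat_lit 764) (nat_lit 0) (nat_lit 13))
    (@En.n l18032 (nat_lit 1633) (nat_lit 12) (nat_lit 7))
    (@En.n l18033 (nat_lit 8177) (nat_lit 8) (nat_lit 13))
    (@En.n l18034 (nat_lit 6068) (nat_lit 14) (nat_lit 6))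
    (@En.n l7501 (nat_lit 10138) (nat_lit 4) (nat_lit 7))
    (@En.n l17 (nat_lit 8172) (nat_lit 15) (nat_lit 2))))
  (@Cl.mk (nat_lit 0x200070006000d000c0008000300080004000e00090002000a0008000e0008) (nat_lit 0x3340409203696) (nat_lit 16) Lb.e (@T16.mk En
    (@En.n l30924 (nat_lit 7161) (nat_lit 12) (nat_lit 8))
    (@En.n l18067 (nat_lit 8035) (nat_lit 13) (nat_lit 14))
    (@En.n l30925 (nat_lit 8939) (nat_lit 2) (nat_lit 8))
    (@En.n l30926 (nat_lit 6049) (nat_lit 3) (nat_lit 10))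
    (@En.n l3 (nat_lit 8173) (nat_lit 4) (nat_lit 2))
    (@En.n l23165 (nat_lit 6036) (nat_lit 5) (nat_lit 9))
    (@En.n l6780 (nat_lit 4214) (nat_lit 1) (nat_lit 14))
    (@En.i (nat_lit 4637) (nat_lit 7) (nat_lit 4))
    (@En.n l30925 (nat_lit 7729) (nat_lit 3) (nat_lit 8))
    (@En.n l30927 (nat_lit 8172) (nat_lit 9) (nat_lit 3))
    (@En.n l947 (nat_lit 4632) (nat_lit 0) (nat_lit 8))
    (@En.n l61 (nat_lit 8174) (nat_lit 12) (nat_lit 12))
    (@En.n l4021 (nat_lit 8176) (nat_lit 8) (nat_lit 13))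
    (@En.i (nat_lit 6070) (nat_lit 14) (nat_lit 6))
    (@En.n l30928 (nat_lit 10137) (nat_lit 4) (nat_lit 7))
    (@En.n l7 (nat_lit 8173) (nat_lit 15) (nat_lit 2))))
  (@Cl.mk (nat_lit 0x200070006000c0007000d000700040003000e00090002000a0009000e0009) (nat_lit 0x20700093035a7) (nat_lit 16) Lb.e (@T16.mk En
    (@En.n l16222 (nat_lit 7159) (nat_lit 12) (nat_lit 9))
    (@En.n l134 (nat_lit 8033) (nat_lit 13) (nat_lit 14))
    (@En.n l3339 (nat_lit 9033) (nat_lit 2) (nat_lit 9))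
    (@En.n l107 (nat_lit 6052) (nat_lit 3) (nat_lit 10))
    (@En.n l3 (nat_lit 8174) (nat_lit 4) (nat_lit 2))
    (@En.n l23165 (nat_lit 6034) (nat_lit 5) (nat_lit 9))
    (@En.i (nat_lit 8175) (nat_lit 1) (nat_lit 14))
    (@En.n l28582 (nat_lit 8172) (nat_lit 7) (nat_lit 3))
    (@En.i (nat_lit 6017) (nat_lit 8) (nat_lit 4))
    (@En.i (nat_lit 6523) (nat_lit 4) (nat_lit 7))
    (@En.n l28583 (nat_lit 765) (nat_lit 11) (nat_lit 13))
    (@En.n l5592 (nat_lit 1622) (nat_lit 12) (nat_lit 7))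
    (@En.n l4021 (nat_lit 9322) (nat_lit 8) (nat_lit 12))
    (@En.i (nat_lit 6069) (nat_lit 14) (nat_lit 6))
    (@En.n l117 (nat_lit 10139) (nat_lit 10) (nat_lit 7))
    (@En.n l7 (nat_lit 8174) (nat_lit 15) (nat_lit 2))))
  (@Cl.mk (nat_lit 0x20006000a0009000e0009000200080006000c0007000a00070004000e0008) (nat_lit 0x47340603040081) (nat_lit 16) Lb.e (@T16.mk En
    (@En.n l16219 (nat_lit 5268) (nat_lit 6) (nat_lit 8))
    (@En.n l16220 (nat_lit 4213) (nat_lit 1) (nat_lit 14))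
    (@En.i (nat_lit 5266) (nat_lit 2) (nat_lit 4))
    (@En.n l5351 (nat_lit 11385) (nat_lit 3) (nat_lit 7))
    (@En.n l16221 (nat_lit 12552) (nat_lit 4) (nat_lit 10))
    (@En.n l5592 (nat_lit 1938) (nat_lit 5) (nat_lit 7))
    (@En.n l4021 (nat_lit 9323) (nat_lit 7) (nat_lit 12))
    (@En.i (nat_lit 11199) (nat_lit 7) (nat_lit 6))
    (@En.n l117 (nat_lit 9793) (nat_lit 9) (nat_lit 8))
    (@En.n l7 (nat_lit 8175) (nat_lit 9) (nat_lit 2))
    (@En.n l16222 (nat_lit 8178) (nat_lit 11) (nat_lit 9))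
    (@En.n l134 (nat_lit 8036) (nat_lit 12) (nat_lit 14))
    (@En.n l3339 (nat_lit 8176) (nat_lit 13) (nat_lit 9))
    (@En.n l617 (nat_lit 8173) (nat_lit 3) (nat_lit 10))
    (@En.i (nat_lit 9907) (nat_lit 4) (nat_lit 6))
    (@En.n l3 (nat_lit 8175) (nat_lit 15) (nat_lit 2))))
noncomputable def a511 : T16 Cl := @T16.mk Cl
  (@Cl.mk (nat_lit 0x200060009000e000800020007000d000b00070003000a00080005000e0009) (nat_lit 0x623002400510a3) (nat_lit 16) Lb.e (@T16.mk En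
    (@En.n l13132 (nat_lit 8181) (nat_lit 5) (nat_lit 9))
    (@En.n l31182 (nat_lit 4212) (nat_lit 1) (nat_lit 14))
    (@En.i (nat_lit 5237) (nat_lit 2) (nat_lit 5))
    (@En.n l16259 (nat_lit 4706) (nat_lit 3) (nat_lit 8))
    (@En.n l250 (nat_lit 8175) (nat_lit 4) (nat_lit 10))
    (@En.n l50 (nat_lit 8177) (nat_lit 5) (nat_lit 3))
    (@En.n l10873 (nat_lit 4644) (nat_lit 6) (nat_lit 7))
    (@En.n l217 (nat_lit 9321) (nat_lit 8) (nat_lit 11))
    (@En.n l31183 (nat_lit 6290) (nat_lit 9) (nat_lit 13))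
    (@En.i (nat_lit 9792) (nat_lit 10) (nat_lit 7))
    (@En.n l28 (nat_lit 8176) (nat_lit 10) (nat_lit 2))
    (@En.n l20095 (nat_lit 8179) (nat_lit 12) (nat_lit 8))
    (@En.n l31183 (nat_lit 5798) (nat_lit 13) (nat_lit 14))
    (@En.n l2039 (nat_lit 9306) (nat_lit 2) (nat_lit 9))
    (@En.i (nat_lit 9020) (nat_lit 3) (nat_lit 6))
    (@En.n l3 (nat_lit 8176) (nat_lit 15) (nat_lit 2))))
  (@Cl.mk (nat_lit 0x20006000a000e000800020007000d0006000c0003000a00080004000e0009) (nat_lit 0x52300901051013) (nat_lit 16) Lb.e (@T16.mk En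
    (@En.n l33786 (nat_lit 8182) (nat_lit 5) (nat_lit 9))
    (@En.n l13053 (nat_lit 2121) (nat_lit 1) (nat_lit 14))
    (@En.i (nat_lit 9322) (nat_lit 2) (nat_lit 4))
    (@En.n l33787 (nat_lit 4712) (nat_lit 3) (nat_lit 8))
    (@En.n l33788 (nat_lit 11355) (nat_lit 4) (nat_lit 10))
    (@En.i (nat_lit 8176) (nat_lit 5) (nat_lit 3))
    (@En.n l18467 (nat_lit 5787) (nat_lit 7) (nat_lit 12))
    (@En.n l7471 (nat_lit 8175) (nat_lit 7) (nat_lit 6))
    (@En.n l33789 (nat_lit 6289) (nat_lit 9) (nat_lit 13))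
    (@En.n l19985 (nat_lit 9794) (nat_lit 10) (nat_lit 7))
    (@En.n l28 (nat_lit 8177) (nat_lit 10) (nat_lit 2))
    (@En.n l33790 (nat_lit 8180) (nat_lit 12) (nat_lit 8))
    (@En.n l33789 (nat_lit 5797) (nat_lit 13) (nat_lit 14))
    (@En.n l9141 (nat_lit 9030) (nat_lit 2) (nat_lit 10))
    (@En.n l21416 (nat_lit 9898) (nat_lit 3) (nat_lit 6))
    (@En.n l3 (nat_lit 8177) (nat_lit 15) (nat_lit 2))))
  (@Cl.mk (nat_lit 0x20007000b000a0009000900070005000b00060009000700070005000e0009) (nat_lit 0x18350020300094) (nat_lit 16) Lb.e (@T16.mk En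
    (@En.n l31019 (nat_lit 8185) (nat_lit 14) (nat_lit 9))
    (@En.n l31020 (nat_lit 4211) (nat_lit 1) (nat_lit 14))
    (@En.i (nat_lit 7547) (nat_lit 2) (nat_lit 5))
    (@En.n l31021 (nat_lit 8175) (nat_lit 3) (nat_lit 7))
    (@En.n l31022 (nat_lit 11658) (nat_lit 4) (nat_lit 7))
    (@En.n l31023 (nat_lit 12549) (nat_lit 5) (nat_lit 9))
    (@En.n l31024 (nat_lit 1936) (nat_lit 6) (nat_lit 6))
    (@En.n l287 (nat_lit 9325) (nat_lit 8) (nat_lit 11))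
    (@En.n l11 (nat_lit 11200) (nat_lit 8) (nat_lit 5))
    (@En.n l31025 (nat_lit 10804) (nat_lit 10) (nat_lit 7))
    (@En.n l22544 (nat_lit 9890) (nat_lit 7) (nat_lit 9))
    (@En.n l17951 (nat_lit 11672) (nat_lit 12) (nat_lit 9))
    (@En.n l31026 (nat_lit 8179) (nat_lit 13) (nat_lit 10))
    (@En.n l28216 (nat_lit 7161) (nat_lit 14) (nat_lit 11))
    (@En.n l31027 (nat_lit 9023) (nat_lit 13) (nat_lit 7))
    (@En.n l3 (nat_lit 8178) (nat_lit 15) (nat_lit 2))))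
  (@Cl.mk (nat_lit 0x20007000a000800080006000d000a000600030009000800080006000e000a) (nat_lit 0x724032004520b4) (nat_lit 16) Lb.e (@T16.mk En
    (@En.n l77 (nat_lit 8183) (nat_lit 10) (nat_lit 10))
    (@En.n l24496 (nat_lit 4210) (nat_lit 1) (nat_lit 14))
    (@En.n l24497 (nat_lit 7545) (nat_lit 2) (nat_lit 6))
    (@En.n l24498 (nat_lit 8176) (nat_lit 3) (nat_lit 8))
    (@En.n l24499 (nat_lit 11587) (nat_lit 4) (nat_lit 8))
    (@En.n l24500 (nat_lit 8178) (nat_lit 5) (nat_lit 9))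
    (@En.n l24501 (nat_lit 8180) (nat_lit 6) (nat_lit 3))
    (@En.n l24502 (nat_lit 1937) (nat_lit 7) (nat_lit 6))
    (@En.n l24503 (nat_lit 9324) (nat_lit 9) (nat_lit 10))
    (@En.n l11165 (nat_lit 5914) (nat_lit 10) (nat_lit 13))
    (@En.n l24504 (nat_lit 10809) (nat_lit 3) (nat_lit 6))
    (@En.n l24505 (nat_lit 9888) (nat_lit 8) (nat_lit 8))
    (@En.n l24506 (nat_lit 12514) (nat_lit 13) (nat_lit 8))
    (@En.n l24496 (nat_lit 8941) (nat_lit 8) (nat_lit 10))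
    (@En.n l4048 (nat_lit 9019) (nat_lit 7) (nat_lit 7))
    (@En.n l7 (nat_lit 8179) (nat_lit 15) (nat_lit 2))))
  (@Cl.mk (nat_lit 0x20007000b000800080006000d0005000b00030009000800080005000e000a) (nat_lit 0x724040204320b4) (nat_lit 16) Lb.e (@T16.mk En
    (@En.n l32683 (nat_lit 8184) (nat_lit 10) (nat_lit 10))
    (@En.n l22741 (nat_lit 3150) (nat_lit 1) (nat_lit 14))
    (@En.n l7454 (nat_lit 10859) (nat_lit 2) (nat_lit 5))
    (@En.n l32684 (nat_lit 8177) (nat_lit 3) (nat_lit 8))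
    (@En.n l32685 (nat_lit 11586) (nat_lit 4) (nat_lit 8))
    (@En.n l4294 (nat_lit 11338) (nat_lit 5) (nat_lit 9))
    (@En.n l32686 (nat_lit 8179) (nat_lit 6) (nat_lit 3))
    (@En.n l11131 (nat_lit 5785) (nat_lit 8) (nat_lit 11))
    (@En.n l32687 (nat_lit 8178) (nat_lit 8) (nat_lit 5))
    (@En.n l23053 (nat_lit 5913) (nat_lit 10) (nat_lit 13))
    (@En.n l2832 (nat_lit 10811) (nat_lit 3) (nat_lit 6))
    (@En.n l32688 (nat_lit 9889) (nat_lit 8) (nat_lit 8))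
    (@En.n l32689 (nat_lit 12513) (nat_lit 13) (nat_lit 8))
    (@En.n l20434 (nat_lit 9005) (nat_lit 14) (nat_lit 11))
    (@En.n l32690 (nat_lit 9895) (nat_lit 7) (nat_lit 7))
    (@En.n l3 (nat_lit 8180) (nat_lit 15) (nat_lit 2))))
  (@Cl.mk (nat_lit 0x200070007000d000b00080003000b000900050009000900050008000e0007) (nat_lit 0xa420610200510) (nat_lit 16) Lb.e (@T16.mk En
    (@En.n l117 (nat_lit 8183) (nat_lit 6) (nat_lit 7))
    (@En.n l23329 (nat_lit 5600) (nat_lit 1) (nat_lit 14))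
    (@En.n l31615 (nat_lit 8976) (nat_lit 2) (nat_lit 8))
    (@En.n l25725 (nat_lit 9903) (nat_lit 3) (nat_lit 5))
    (@En.n l77 (nat_lit 12816) (nat_lit 7) (nat_lit 9))
    (@En.i (nat_lit 7495) (nat_lit 5) (nat_lit 9))
    (@En.n l23328 (nat_lit 5243) (nat_lit 6) (nat_lit 5))
    (@En.n l3647 (nat_lit 4525) (nat_lit 8) (nat_lit 9))
    (@En.n l28769 (nat_lit 5268) (nat_lit 9) (nat_lit 11))
    (@En.n l4185 (nat_lit 8182) (nat_lit 9) (nat_lit 3))
    (@En.n l7619 (nat_lit 3176) (nat_lit 11) (nat_lit 8))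
    (@En.n l30882 (nat_lit 9327) (nat_lit 12) (nat_lit 11))
    (@En.n l3751 (nat_lit 11187) (nat_lit 13) (nat_lit 13))
    (@En.n l24780 (nat_lit 8176) (nat_lit 9) (nat_lit 7))
    (@En.n l41564 (nat_lit 6847) (nat_lit 4) (nat_lit 7))
    (@En.n l11 (nat_lit 8181) (nat_lit 15) (nat_lit 2))))
  (@Cl.mk (nat_lit 0x200070007000d0007000c0003000b000900040009000900050009000e0007) (nat_lit 0x9090640200380) (nat_lit 16) Lb.e (@T16.mk En
    (@En.n l22266 (nat_lit 8184) (nat_lit 6) (nat_lit 7))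
    (@En.n l476 (nat_lit 5601) (nat_lit 1) (nat_lit 14))
    (@En.n l19785 (nat_lit 8980) (nat_lit 2) (nat_lit 9))
    (@En.n l20138 (nat_lit 9901) (nat_lit 3) (nat_lit 5))
    (@En.n l61 (nat_lit 12815) (nat_lit 7) (nat_lit 9))
    (@En.n l13540 (nat_lit 7496) (nat_lit 5) (nat_lit 9))
    (@En.n l19443 (nat_lit 9331) (nat_lit 6) (nat_lit 4))
    (@En.i (nat_lit 10455) (nat_lit 0) (nat_lit 9))
    (@En.i (nat_lit 11353) (nat_lit 9) (nat_lit 11))
    (@En.n l10847 (nat_lit 8181) (nat_lit 9) (nat_lit 3))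
    (@En.n l2038 (nat_lit 12388) (nat_lit 11) (nat_lit 12))
    (@En.i (nat_lit 5268) (nat_lit 12) (nat_lit 7))
    (@En.n l4813 (nat_lit 11188) (nat_lit 13) (nat_lit 13))
    (@En.n l35897 (nat_lit 8177) (nat_lit 9) (nat_lit 7))
    (@En.n l31167 (nat_lit 6850) (nat_lit 4) (nat_lit 7))
    (@En.n l50 (nat_lit 8182) (nat_lit 15) (nat_lit 2))))
  (@Cl.mk (nat_lit 0x3000a000900090006000a000a000600090007000700060006000d000a0007) (nat_lit 0x432034060000530) (nat_lit 16) Lb.e (@T16.mk En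
    (@En.n l29111 (nat_lit 3175) (nat_lit 0) (nat_lit 7))
    (@En.i (nat_lit 9330) (nat_lit 6) (nat_lit 10))
    (@En.n l3107 (nat_lit 9859) (nat_lit 2) (nat_lit 13))
    (@En.i (nat_lit 8179) (nat_lit 10) (nat_lit 6))
    (@En.n l218 (nat_lit 6852) (nat_lit 4) (nat_lit 6))
    (@En.n l11 (nat_lit 9886) (nat_lit 9) (nat_lit 7))
    (@En.n l9966 (nat_lit 8059) (nat_lit 6) (nat_lit 7))
    (@En.i (nat_lit 8968) (nat_lit 9) (nat_lit 9))
    (@En.n l1393 (nat_lit 7189) (nat_lit 8) (nat_lit 6))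
    (@En.n l77 (nat_lit 10873) (nat_lit 6) (nat_lit 10))
    (@En.i (nat_lit 7494) (nat_lit 9) (nat_lit 10))
    (@En.n l532 (nat_lit 7555) (nat_lit 12) (nat_lit 6))
    (@En.n l619 (nat_lit 8181) (nat_lit 7) (nat_lit 9))
    (@En.n l3866 (nat_lit 10956) (nat_lit 7) (nat_lit 9))
    (@En.i (nat_lit 8185) (nat_lit 2) (nat_lit 10))
    (@En.i (nat_lit 8184) (nat_lit 15) (nat_lit 3))))
  (@Cl.mk (nat_lit 0x3000a000900090005000a000a0006000a0007000700060006000d0006000b) (nat_lit 0x435038040000a04) (nat_lit 16) Lb.e (@T16.mk En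
    (@En.n l33383 (nat_lit 12386) (nat_lit 0) (nat_lit 11))
    (@En.n l61 (nat_lit 8185) (nat_lit 5) (nat_lit 6))
    (@En.n l9845 (nat_lit 9862) (nat_lit 2) (nat_lit 13))
    (@En.n l24501 (nat_lit 8180) (nat_lit 10) (nat_lit 6))
    (@En.n l15897 (nat_lit 6854) (nat_lit 4) (nat_lit 6))
    (@En.n l33878 (nat_lit 9885) (nat_lit 9) (nat_lit 7))
    (@En.n l33879 (nat_lit 10930) (nat_lit 6) (nat_lit 7))
    (@En.n l15897 (nat_lit 8981) (nat_lit 9) (nat_lit 10))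
    (@En.n l1392 (nat_lit 9884) (nat_lit 8) (nat_lit 6))
    (@En.n l77 (nat_lit 11427) (nat_lit 6) (nat_lit 10))
    (@En.i (nat_lit 7497) (nat_lit 11) (nat_lit 10))
    (@En.n l33880 (nat_lit 10858) (nat_lit 12) (nat_lit 5))
    (@En.n l11363 (nat_lit 8182) (nat_lit 7) (nat_lit 9))
    (@En.n l33881 (nat_lit 11420) (nat_lit 7) (nat_lit 9))
    (@En.n l33882 (nat_lit 11350) (nat_lit 2) (nat_lit 10))
    (@En.n l18 (nat_lit 8183) (nat_lit 15) (nat_lit 3))))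
  (@Cl.mk (nat_lit 0x5000900090006000a000900080008000700070006000b0007000a00080008) (nat_lit 0x340276600030301) (nat_lit 16) Lb.e (@T16.mk En
    (@En.n l20622 (nat_lit 5268) (nat_lit 8) (nat_lit 8))
    (@En.n l8681 (nat_lit 11429) (nat_lit 1) (nat_lit 8))
    (@En.n l26802 (nat_lit 7723) (nat_lit 8) (nat_lit 10))
    (@En.n l30012 (nat_lit 1939) (nat_lit 6) (nat_lit 7))
    (@En.n l20621 (nat_lit 9329) (nat_lit 9) (nat_lit 11))
    (@En.n l19073 (nat_lit 11276) (nat_lit 10) (nat_lit 6))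
    (@En.n l24500 (nat_lit 8178) (nat_lit 9) (nat_lit 7))
    (@En.n l36651 (nat_lit 6853) (nat_lit 9) (nat_lit 7))
    (@En.n l36652 (nat_lit 9887) (nat_lit 8) (nat_lit 8))
    (@En.n l14249 (nat_lit 10862) (nat_lit 8) (nat_lit 8))
    (@En.n l17 (nat_lit 8183) (nat_lit 7) (nat_lit 9))
    (@En.n l14249 (nat_lit 6040) (nat_lit 9) (nat_lit 10))
    (@En.n l36653 (nat_lit 9840) (nat_lit 10) (nat_lit 6))
    (@En.n l77 (nat_lit 10872) (nat_lit 7) (nat_lit 9))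
    (@En.i (nat_lit 7493) (nat_lit 10) (nat_lit 9))
    (@En.n l36654 (nat_lit 7553) (nat_lit 11) (nat_lit 5))))
  (@Cl.mk (nat_lit 0x20005000c0004000b000a0004000a000e000500020006000b0006000e000c) (nat_lit 0x30950380009042) (nat_lit 16) Lb.e (@T16.mk En
    (@En.i (nat_lit 6878) (nat_lit 11) (nat_lit 12))
    (@En.i (nat_lit 8187) (nat_lit 12) (nat_lit 14))
    (@En.n l7234 (nat_lit 8188) (nat_lit 13) (nat_lit 6))
    (@En.n l4739 (nat_lit 12085) (nat_lit 3) (nat_lit 11))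
    (@En.n l3224 (nat_lit 2541) (nat_lit 4) (nat_lit 6))
    (@En.n l7 (nat_lit 8186) (nat_lit 5) (nat_lit 2))
    (@En.n l9902 (nat_lit 7476) (nat_lit 6) (nat_lit 5))
    (@En.i (nat_lit 8662) (nat_lit 8) (nat_lit 14))
    (@En.n l564 (nat_lit 3591) (nat_lit 2) (nat_lit 10))
    (@En.i (nat_lit 8192) (nat_lit 9) (nat_lit 4))
    (@En.i (nat_lit 7206) (nat_lit 11) (nat_lit 10))
    (@En.n l4739 (nat_lit 11726) (nat_lit 12) (nat_lit 11))
    (@En.n l117 (nat_lit 7045) (nat_lit 6) (nat_lit 4))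
    (@En.n l1252 (nat_lit 5822) (nat_lit 8) (nat_lit 12))
    (@En.i (nat_lit 8061) (nat_lit 8) (nat_lit 5))
    (@En.n l3 (nat_lit 8186) (nat_lit 15) (nat_lit 2))))
  (@Cl.mk (nat_lit 0x20006000b000e000b000200090005000c0005000b000a00040007000e0005) (nat_lit 0x83804040960080) (nat_lit 16) Lb.e (@T16.mk En
    (@En.n l9902 (nat_lit 7475) (nat_lit 5) (nat_lit 5))
    (@En.i (nat_lit 8663) (nat_lit 7) (nat_lit 14))
    (@En.n l16489 (nat_lit 3028) (nat_lit 2) (nat_lit 7))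
    (@En.n l25151 (nat_lit 8189) (nat_lit 3) (nat_lit 4))
    (@En.n l9771 (nat_lit 4861) (nat_lit 4) (nat_lit 10))
    (@En.n l3138 (nat_lit 11722) (nat_lit 11) (nat_lit 11))
    (@En.n l32118 (nat_lit 7046) (nat_lit 6) (nat_lit 5))
    (@En.n l13056 (nat_lit 8188) (nat_lit 8) (nat_lit 12))
    (@En.n l17 (nat_lit 8186) (nat_lit 14) (nat_lit 5))
    (@En.i (nat_lit 5166) (nat_lit 10) (nat_lit 9))
    (@En.n l3 (nat_lit 8187) (nat_lit 10) (nat_lit 2))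
    (@En.n l1240 (nat_lit 6671) (nat_lit 12) (nat_lit 11))
    (@En.n l1036 (nat_lit 5204) (nat_lit 13) (nat_lit 14))
    (@En.n l3138 (nat_lit 12089) (nat_lit 2) (nat_lit 11))
    (@En.n l32119 (nat_lit 2540) (nat_lit 3) (nat_lit 6))
    (@En.n l7 (nat_lit 8187) (nat_lit 15) (nat_lit 2))))
  (@Cl.mk (nat_lit 0x200070006000e000c00020009000c0004000a00090004000a0007000e0006) (nat_lit 0x3403305501090) (nat_lit 16) Lb.e (@T16.mk En
    (@En.n l6402 (nat_lit 5856) (nat_lit 5) (nat_lit 6))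
    (@En.n l5234 (nat_lit 7352) (nat_lit 7) (nat_lit 14))
    (@En.n l5236 (nat_lit 8187) (nat_lit 2) (nat_lit 7))
    (@En.n l30455 (nat_lit 3032) (nat_lit 3) (nat_lit 10))
    (@En.i (nat_lit 8190) (nat_lit 4) (nat_lit 4))
    (@En.i (nat_lit 4860) (nat_lit 5) (nat_lit 9))
    (@En.n l29158 (nat_lit 11723) (nat_lit 12) (nat_lit 10))
    (@En.n l30455 (nat_lit 2599) (nat_lit 7) (nat_lit 4))
    (@En.i (nat_lit 5816) (nat_lit 9) (nat_lit 12))
    (@En.n l6103 (nat_lit 5164) (nat_lit 10) (nat_lit 9))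
    (@En.n l50 (nat_lit 8188) (nat_lit 10) (nat_lit 2))
    (@En.n l396 (nat_lit 6673) (nat_lit 12) (nat_lit 12))
    (@En.n l2544 (nat_lit 5127) (nat_lit 13) (nat_lit 14))
    (@En.n l6103 (nat_lit 11230) (nat_lit 14) (nat_lit 6))
    (@En.n l28 (nat_lit 2543) (nat_lit 3) (nat_lit 7))
    (@En.n l11 (nat_lit 8188) (nat_lit 15) (nat_lit 2))))
  (@Cl.mk (nat_lit 0x20008000b000e000a000200090005000c00080006000c00040007000e0004) (nat_lit 0x583004083020090) (nat_lit 16) Lb.e (@T16.mk En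
    (@En.i (nat_lit 8196) (nat_lit 5) (nat_lit 4))
    (@En.n l39601 (nat_lit 4612) (nat_lit 7) (nat_lit 14))
    (@En.i (nat_lit 1962) (nat_lit 2) (nat_lit 7))
    (@En.i (nat_lit 7708) (nat_lit 3) (nat_lit 4))
    (@En.i (nat_lit 10761) (nat_lit 10) (nat_lit 12))
    (@En.n l3340 (nat_lit 12676) (nat_lit 5) (nat_lit 6))
    (@En.n l34254 (nat_lit 8191) (nat_lit 6) (nat_lit 8))
    (@En.n l39602 (nat_lit 8190) (nat_lit 8) (nat_lit 12))
    (@En.n l12230 (nat_lit 8192) (nat_lit 14) (nat_lit 5))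
    (@En.n l33677 (nat_lit 10969) (nat_lit 10) (nat_lit 9))
    (@En.n l17 (nat_lit 8189) (nat_lit 10) (nat_lit 2))
    (@En.n l17226 (nat_lit 8517) (nat_lit 12) (nat_lit 10))
    (@En.i (nat_lit 5014) (nat_lit 13) (nat_lit 14))
    (@En.i (nat_lit 12779) (nat_lit 7) (nat_lit 11))
    (@En.n l513 (nat_lit 8471) (nat_lit 3) (nat_lit 8))
    (@En.n l50 (nat_lit 8189) (nat_lit 15) (nat_lit 2))))
  (@Cl.mk (nat_lit 0x200090006000e000b00020009000c00070005000b0004000a0007000e0005) (nat_lit 0x508003700700090) (nat_lit 16) Lb.e (@T16.mk En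
    (@En.n l36930 (nat_lit 8199) (nat_lit 5) (nat_lit 5))
    (@En.n l15761 (nat_lit 8200) (nat_lit 7) (nat_lit 14))
    (@En.n l36931 (nat_lit 8189) (nat_lit 2) (nat_lit 7))
    (@En.n l36932 (nat_lit 8191) (nat_lit 3) (nat_lit 10))
    (@En.n l2364 (nat_lit 5851) (nat_lit 4) (nat_lit 4))
    (@En.n l36933 (nat_lit 11721) (nat_lit 11) (nat_lit 11))
    (@En.n l36934 (nat_lit 12710) (nat_lit 6) (nat_lit 5))
    (@En.n l7645 (nat_lit 8194) (nat_lit 7) (nat_lit 7))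
    (@En.i (nat_lit 5817) (nat_lit 9) (nat_lit 12))
    (@En.n l36935 (nat_lit 11180) (nat_lit 10) (nat_lit 9))
    (@En.n l50 (nat_lit 8190) (nat_lit 10) (nat_lit 2))
    (@En.n l36936 (nat_lit 8519) (nat_lit 12) (nat_lit 11))
    (@En.n l36937 (nat_lit 5010) (nat_lit 1) (nat_lit 14))
    (@En.n l6103 (nat_lit 11227) (nat_lit 14) (nat_lit 6))
    (@En.n l22001 (nat_lit 8474) (nat_lit 3) (nat_lit 9))
    (@En.n l11 (nat_lit 8190) (nat_lit 15) (nat_lit 2))))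
  (@Cl.mk (nat_lit 0x200080006000b000e000b0002000a000500080005000c000a0006000e0004) (nat_lit 0x509500502078080) (nat_lit 16) Lb.e (@T16.mk En
    (@En.n l7 (nat_lit 8197) (nat_lit 6) (nat_lit 4))
    (@En.n l3451 (nat_lit 4611) (nat_lit 8) (nat_lit 14))
    (@En.n l22147 (nat_lit 1958) (nat_lit 2) (nat_lit 6))
    (@En.i (nat_lit 8713) (nat_lit 3) (nat_lit 10))
    (@En.n l17803 (nat_lit 11724) (nat_lit 11) (nat_lit 12))
    (@En.i (nat_lit 12715) (nat_lit 5) (nat_lit 5))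
    (@En.n l6574 (nat_lit 4627) (nat_lit 6) (nat_lit 8))
    (@En.n l27194 (nat_lit 8193) (nat_lit 14) (nat_lit 5))
    (@En.n l575 (nat_lit 10968) (nat_lit 9) (nat_lit 10))
    (@En.n l67 (nat_lit 8191) (nat_lit 9) (nat_lit 2))
    (@En.n l68 (nat_lit 8516) (nat_lit 11) (nat_lit 11))
    (@En.n l27195 (nat_lit 9096) (nat_lit 4) (nat_lit 14))
    (@En.n l3125 (nat_lit 8189) (nat_lit 13) (nat_lit 11))
    (@En.n l3451 (nat_lit 8187) (nat_lit 14) (nat_lit 6))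
    (@En.n l1068 (nat_lit 2626) (nat_lit 4) (nat_lit 8))
    (@En.n l50 (nat_lit 8191) (nat_lit 15) (nat_lit 2))))
noncomputable def a512 : T16 Cl := @T16.mk Cl
  (@Cl.mk (nat_lit 0x20005000c00080005000c0004000a000e000400020008000b0006000e000b) (nat_lit 0x82020180058040) (nat_lit 16) Lb.e (@T16.mk En
    (@En.n l27215 (nat_lit 8518) (nat_lit 11) (nat_lit 11))
    (@En.n l25151 (nat_lit 8189) (nat_lit 12) (nat_lit 14))
    (@En.n l7234 (nat_lit 8190) (nat_lit 13) (nat_lit 6))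
    (@En.n l16816 (nat_lit 12088) (nat_lit 3) (nat_lit 11))
    (@En.n l27216 (nat_lit 8468) (nat_lit 4) (nat_lit 8))
    (@En.n l7 (nat_lit 8192) (nat_lit 5) (nat_lit 2))
    (@En.n l17662 (nat_lit 8198) (nat_lit 6) (nat_lit 4))
    (@En.i (nat_lit 7409) (nat_lit 8) (nat_lit 14))
    (@En.n l563 (nat_lit 5995) (nat_lit 9) (nat_lit 10))
    (@En.n l11 (nat_lit 7709) (nat_lit 9) (nat_lit 4))
    (@En.n l16816 (nat_lit 11725) (nat_lit 11) (nat_lit 12))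
    (@En.n l81 (nat_lit 12714) (nat_lit 5) (nat_lit 5))
    (@En.n l18620 (nat_lit 8193) (nat_lit 13) (nat_lit 8))
    (@En.n l562 (nat_lit 8195) (nat_lit 8) (nat_lit 12))
    (@En.n l9904 (nat_lit 8065) (nat_lit 8) (nat_lit 5))
    (@En.n l3 (nat_lit 8192) (nat_lit 15) (nat_lit 2))))
  (@Cl.mk (nat_lit 0x2000500080004000c000a0009000e0004000200080006000b0007000e000c) (nat_lit 0x10071700509060) (nat_lit 16) Lb.e (@T16.mk En
    (@En.n l13525 (nat_lit 8515) (nat_lit 10) (nat_lit 12))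
    (@En.n l13526 (nat_lit 8191) (nat_lit 11) (nat_lit 14))
    (@En.n l13527 (nat_lit 8194) (nat_lit 12) (nat_lit 7))
    (@En.n l13528 (nat_lit 8192) (nat_lit 3) (nat_lit 11))
    (@En.n l8322 (nat_lit 8186) (nat_lit 4) (nat_lit 6))
    (@En.n l9193 (nat_lit 8466) (nat_lit 5) (nat_lit 8))
    (@En.n l28 (nat_lit 8193) (nat_lit 6) (nat_lit 2))
    (@En.n l55 (nat_lit 8550) (nat_lit 7) (nat_lit 4))
    (@En.n l8322 (nat_lit 7387) (nat_lit 9) (nat_lit 14))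
    (@En.n l13529 (nat_lit 5997) (nat_lit 10) (nat_lit 9))
    (@En.n l13527 (nat_lit 8708) (nat_lit 11) (nat_lit 10))
    (@En.n l8319 (nat_lit 11734) (nat_lit 12) (nat_lit 12))
    (@En.n l13530 (nat_lit 12717) (nat_lit 5) (nat_lit 4))
    (@En.n l11837 (nat_lit 3289) (nat_lit 14) (nat_lit 8))
    (@En.i (nat_lit 8067) (nat_lit 7) (nat_lit 5))
    (@En.n l3 (nat_lit 8193) (nat_lit 15) (nat_lit 2))))
  (@Cl.mk (nat_lit 0x2000900070007000e000c0002000a00070004000b000900090006000e0005) (nat_lit 0x6009803008410b0) (nat_lit 16) Lb.e (@T16.mk En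
    (@En.n l14070 (nat_lit 8957) (nat_lit 6) (nat_lit 5))
    (@En.n l27211 (nat_lit 2564) (nat_lit 8) (nat_lit 14))
    (@En.n l6391 (nat_lit 8191) (nat_lit 2) (nat_lit 6))
    (@En.n l27212 (nat_lit 4627) (nat_lit 3) (nat_lit 9))
    (@En.i (nat_lit 9152) (nat_lit 4) (nat_lit 9))
    (@En.n l27213 (nat_lit 11512) (nat_lit 12) (nat_lit 11))
    (@En.n l2351 (nat_lit 9112) (nat_lit 6) (nat_lit 4))
    (@En.n l61 (nat_lit 2136) (nat_lit 14) (nat_lit 7))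
    (@En.n l15752 (nat_lit 9865) (nat_lit 9) (nat_lit 10))
    (@En.n l7 (nat_lit 8194) (nat_lit 9) (nat_lit 2))
    (@En.n l1285 (nat_lit 8272) (nat_lit 11) (nat_lit 12))
    (@En.n l19221 (nat_lit 8958) (nat_lit 12) (nat_lit 14))
    (@En.n l27214 (nat_lit 9210) (nat_lit 9) (nat_lit 7))
    (@En.n l1776 (nat_lit 8188) (nat_lit 14) (nat_lit 7))
    (@En.i (nat_lit 9261) (nat_lit 4) (nat_lit 9))
    (@En.n l3 (nat_lit 8194) (nat_lit 15) (nat_lit 2))))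
  (@Cl.mk (nat_lit 0x2000900060006000e000c0002000c00070004000b0004000a000a000e0005) (nat_lit 0x600910700108260) (nat_lit 16) Lb.e (@T16.mk En
    (@En.n l34398 (nat_lit 9213) (nat_lit 6) (nat_lit 5))
    (@En.i (nat_lit 8323) (nat_lit 8) (nat_lit 14))
    (@En.n l148 (nat_lit 12777) (nat_lit 2) (nat_lit 10))
    (@En.n l34399 (nat_lit 8193) (nat_lit 10) (nat_lit 10))
    (@En.n l12857 (nat_lit 5706) (nat_lit 4) (nat_lit 4))
    (@En.n l18896 (nat_lit 7945) (nat_lit 12) (nat_lit 11))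
    (@En.i (nat_lit 12490) (nat_lit 6) (nat_lit 4))
    (@En.n l18896 (nat_lit 3297) (nat_lit 14) (nat_lit 7))
    (@En.n l34400 (nat_lit 5684) (nat_lit 9) (nat_lit 12))
    (@En.n l28 (nat_lit 8195) (nat_lit 9) (nat_lit 2))
    (@En.n l77 (nat_lit 5818) (nat_lit 11) (nat_lit 12))
    (@En.n l20980 (nat_lit 8190) (nat_lit 12) (nat_lit 14))
    (@En.n l34401 (nat_lit 5817) (nat_lit 13) (nat_lit 6))
    (@En.n l18896 (nat_lit 10340) (nat_lit 14) (nat_lit 6))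
    (@En.i (nat_lit 8476) (nat_lit 4) (nat_lit 9))
    (@En.n l17 (nat_lit 8195) (nat_lit 15) (nat_lit 2))))
  (@Cl.mk (nat_lit 0x200080005000b00080006000c000c00050008000400040008000b000e000a) (nat_lit 0x309300303003760) (nat_lit 16) Lb.e (@T16.mk En
    (@En.n l17226 (nat_lit 8507) (nat_lit 11) (nat_lit 10))
    (@En.i (nat_lit 5013) (nat_lit 4) (nat_lit 14))
    (@En.i (nat_lit 12778) (nat_lit 2) (nat_lit 11))
    (@En.n l16585 (nat_lit 8438) (nat_lit 3) (nat_lit 8))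
    (@En.n l33675 (nat_lit 8555) (nat_lit 12) (nat_lit 4))
    (@En.n l7216 (nat_lit 8717) (nat_lit 5) (nat_lit 4))
    (@En.i (nat_lit 1963) (nat_lit 6) (nat_lit 8))
    (@En.n l7212 (nat_lit 11325) (nat_lit 7) (nat_lit 5))
    (@En.n l644 (nat_lit 8189) (nat_lit 4) (nat_lit 12))
    (@En.i (nat_lit 10754) (nat_lit 10) (nat_lit 12))
    (@En.n l3340 (nat_lit 12707) (nat_lit 11) (nat_lit 6))
    (@En.n l33676 (nat_lit 8197) (nat_lit 12) (nat_lit 8))
    (@En.n l7216 (nat_lit 8199) (nat_lit 13) (nat_lit 11))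
    (@En.n l15234 (nat_lit 8198) (nat_lit 14) (nat_lit 5))
    (@En.n l33677 (nat_lit 8563) (nat_lit 0) (nat_lit 8))
    (@En.n l17 (nat_lit 8196) (nat_lit 15) (nat_lit 2))))
  (@Cl.mk (nat_lit 0x20009000500080005000c000c000b00070004000400080005000b000e000b) (nat_lit 0x302008100040840) (nat_lit 16) Lb.e (@T16.mk En
    (@En.n l68 (nat_lit 8506) (nat_lit 10) (nat_lit 11))
    (@En.n l3866 (nat_lit 8967) (nat_lit 4) (nat_lit 14))
    (@En.n l29060 (nat_lit 8196) (nat_lit 2) (nat_lit 11))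
    (@En.n l31279 (nat_lit 7475) (nat_lit 3) (nat_lit 5))
    (@En.n l31280 (nat_lit 8439) (nat_lit 4) (nat_lit 8))
    (@En.n l14999 (nat_lit 8552) (nat_lit 5) (nat_lit 4))
    (@En.i (nat_lit 8714) (nat_lit 6) (nat_lit 4))
    (@En.n l4621 (nat_lit 1961) (nat_lit 7) (nat_lit 7))
    (@En.n l2337 (nat_lit 7482) (nat_lit 9) (nat_lit 11))
    (@En.n l601 (nat_lit 8191) (nat_lit 4) (nat_lit 12))
    (@En.n l31281 (nat_lit 10756) (nat_lit 11) (nat_lit 12))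
    (@En.i (nat_lit 8544) (nat_lit 12) (nat_lit 5))
    (@En.i (nat_lit 4625) (nat_lit 13) (nat_lit 8))
    (@En.n l31282 (nat_lit 8550) (nat_lit 14) (nat_lit 5))
    (@En.n l31283 (nat_lit 10961) (nat_lit 0) (nat_lit 9))
    (@En.n l67 (nat_lit 8197) (nat_lit 15) (nat_lit 2))))
  (@Cl.mk (nat_lit 0x20005000b00080005000c000c0005000b000400040008000b0005000e000b) (nat_lit 0x92003010044070) (nat_lit 16) Lb.e (@T16.mk En
    (@En.n l15667 (nat_lit 8422) (nat_lit 10) (nat_lit 11))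
    (@En.n l14644 (nat_lit 8196) (nat_lit 1) (nat_lit 14))
    (@En.n l16088 (nat_lit 8199) (nat_lit 2) (nat_lit 5))
    (@En.n l16089 (nat_lit 12086) (nat_lit 3) (nat_lit 11))
    (@En.n l538 (nat_lit 8423) (nat_lit 4) (nat_lit 8))
    (@En.n l7 (nat_lit 8553) (nat_lit 5) (nat_lit 4))
    (@En.n l7690 (nat_lit 8151) (nat_lit 6) (nat_lit 4))
    (@En.i (nat_lit 5994) (nat_lit 8) (nat_lit 11))
    (@En.n l11082 (nat_lit 11327) (nat_lit 8) (nat_lit 5))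
    (@En.n l19680 (nat_lit 8192) (nat_lit 10) (nat_lit 12))
    (@En.n l7563 (nat_lit 10757) (nat_lit 11) (nat_lit 12))
    (@En.n l4018 (nat_lit 12440) (nat_lit 12) (nat_lit 5))
    (@En.n l18840 (nat_lit 8550) (nat_lit 13) (nat_lit 8))
    (@En.n l22009 (nat_lit 9213) (nat_lit 14) (nat_lit 11))
    (@En.i (nat_lit 8071) (nat_lit 13) (nat_lit 5))
    (@En.n l3 (nat_lit 8198) (nat_lit 15) (nat_lit 2))))
  (@Cl.mk (nat_lit 0x20008000b00070005000b000b0005000b00080005000500090005000e000b) (nat_lit 0x380008024003070) (nat_lit 16) Lb.e (@T16.mk En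
    (@En.n l68 (nat_lit 8283) (nat_lit 11) (nat_lit 11))
    (@En.n l29055 (nat_lit 5012) (nat_lit 1) (nat_lit 14))
    (@En.n l29056 (nat_lit 11223) (nat_lit 2) (nat_lit 5))
    (@En.n l29057 (nat_lit 8440) (nat_lit 3) (nat_lit 9))
    (@En.n l14999 (nat_lit 8556) (nat_lit 11) (nat_lit 5))
    (@En.i (nat_lit 9833) (nat_lit 5) (nat_lit 5))
    (@En.n l29058 (nat_lit 8196) (nat_lit 6) (nat_lit 8))
    (@En.i (nat_lit 8197) (nat_lit 8) (nat_lit 11))
    (@En.n l20731 (nat_lit 11326) (nat_lit 8) (nat_lit 5))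
    (@En.n l29059 (nat_lit 8190) (nat_lit 5) (nat_lit 11))
    (@En.n l29060 (nat_lit 10755) (nat_lit 11) (nat_lit 11))
    (@En.n l29061 (nat_lit 12711) (nat_lit 12) (nat_lit 5))
    (@En.n l29062 (nat_lit 8957) (nat_lit 13) (nat_lit 7))
    (@En.n l27392 (nat_lit 9211) (nat_lit 7) (nat_lit 11))
    (@En.n l29063 (nat_lit 9847) (nat_lit 2) (nat_lit 8))
    (@En.n l67 (nat_lit 8199) (nat_lit 15) (nat_lit 2))))
  (@Cl.mk (nat_lit 0x20006000c00070005000c0004000a000e00040002000a00090006000e000b) (nat_lit 0xa00a0180067043) (nat_lit 16) Lb.e (@T16.mk En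
    (@En.i (nat_lit 8201) (nat_lit 11) (nat_lit 11))
    (@En.n l5012 (nat_lit 7460) (nat_lit 1) (nat_lit 14))
    (@En.n l11283 (nat_lit 8987) (nat_lit 2) (nat_lit 6))
    (@En.n l11283 (nat_lit 6788) (nat_lit 14) (nat_lit 9))
    (@En.i (nat_lit 9601) (nat_lit 4) (nat_lit 10))
    (@En.n l17 (nat_lit 8200) (nat_lit 5) (nat_lit 2))
    (@En.n l8310 (nat_lit 8131) (nat_lit 6) (nat_lit 4))
    (@En.i (nat_lit 7408) (nat_lit 8) (nat_lit 14))
    (@En.n l149 (nat_lit 4611) (nat_lit 9) (nat_lit 10))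
    (@En.i (nat_lit 9614) (nat_lit 9) (nat_lit 4))
    (@En.n l11284 (nat_lit 11299) (nat_lit 11) (nat_lit 12))
    (@En.i (nat_lit 8091) (nat_lit 5) (nat_lit 5))
    (@En.i (nat_lit 2564) (nat_lit 13) (nat_lit 7))
    (@En.n l1690 (nat_lit 8322) (nat_lit 8) (nat_lit 12))
    (@En.i (nat_lit 8100) (nat_lit 8) (nat_lit 6))
    (@En.n l28 (nat_lit 8200) (nat_lit 15) (nat_lit 2))))
  (@Cl.mk (nat_lit 0x2000b000a0006000b000b0005000b000600050005000c0005000a000e0004) (nat_lit 0x670230900080240) (nat_lit 16) Lb.e (@T16.mk En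
    (@En.n l15519 (nat_lit 8122) (nat_lit 15) (nat_lit 4))
    (@En.i (nat_lit 7407) (nat_lit 1) (nat_lit 14))
    (@En.n l19314 (nat_lit 4604) (nat_lit 2) (nat_lit 10))
    (@En.n l19704 (nat_lit 9615) (nat_lit 3) (nat_lit 5))
    (@En.n l15362 (nat_lit 11845) (nat_lit 5) (nat_lit 12))
    (@En.n l55 (nat_lit 8200) (nat_lit 11) (nat_lit 5))
    (@En.i (nat_lit 8098) (nat_lit 6) (nat_lit 5))
    (@En.n l8616 (nat_lit 2687) (nat_lit 7) (nat_lit 6))
    (@En.n l19712 (nat_lit 8317) (nat_lit 9) (nat_lit 11))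
    (@En.n l19713 (nat_lit 8116) (nat_lit 9) (nat_lit 5))
    (@En.n l19714 (nat_lit 8202) (nat_lit 5) (nat_lit 11))
    (@En.n l19704 (nat_lit 8732) (nat_lit 12) (nat_lit 11))
    (@En.n l19715 (nat_lit 8995) (nat_lit 13) (nat_lit 6))
    (@En.n l8303 (nat_lit 3466) (nat_lit 14) (nat_lit 10))
    (@En.i (nat_lit 9586) (nat_lit 14) (nat_lit 11))
    (@En.n l17 (nat_lit 8201) (nat_lit 15) (nat_lit 2))))
  (@Cl.mk (nat_lit 0x2000c0006000a000e00040002000c000b0006000b0004000a0005000e0005) (nat_lit 0x802400670208060) (nat_lit 16) Lb.e (@T16.mk En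
    (@En.n l8306 (nat_lit 8201) (nat_lit 6) (nat_lit 5))
    (@En.n l11793 (nat_lit 7797) (nat_lit 1) (nat_lit 14))
    (@En.n l11793 (nat_lit 2702) (nat_lit 8) (nat_lit 5))
    (@En.n l10573 (nat_lit 8314) (nat_lit 10) (nat_lit 10))
    (@En.n l10818 (nat_lit 3459) (nat_lit 4) (nat_lit 4))
    (@En.i (nat_lit 7770) (nat_lit 12) (nat_lit 11))
    (@En.n l22425 (nat_lit 9266) (nat_lit 6) (nat_lit 6))
    (@En.n l3866 (nat_lit 3467) (nat_lit 14) (nat_lit 11))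
    (@En.i (nat_lit 8993) (nat_lit 9) (nat_lit 12))
    (@En.n l18 (nat_lit 8202) (nat_lit 9) (nat_lit 2))
    (@En.n l50 (nat_lit 8203) (nat_lit 10) (nat_lit 4))
    (@En.n l10571 (nat_lit 3431) (nat_lit 12) (nat_lit 14))
    (@En.n l34402 (nat_lit 4602) (nat_lit 2) (nat_lit 10))
    (@En.i (nat_lit 9908) (nat_lit 14) (nat_lit 6))
    (@En.n l3523 (nat_lit 12442) (nat_lit 5) (nat_lit 12))
    (@En.n l28 (nat_lit 8202) (nat_lit 15) (nat_lit 2))))
  (@Cl.mk (nat_lit 0x2000c000c0007000b00040004000c000b0005000b000400090005000e0005) (nat_lit 0x8903007302070a0) (nat_lit 16) Lb.e (@T16.mk En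
    (@En.i (nat_lit 8122) (nat_lit 5) (nat_lit 5))
    (@En.n l13919 (nat_lit 7091) (nat_lit 1) (nat_lit 14))
    (@En.i (nat_lit 2703) (nat_lit 2) (nat_lit 5))
    (@En.i (nat_lit 7343) (nat_lit 3) (nat_lit 9))
    (@En.n l2874 (nat_lit 6343) (nat_lit 4) (nat_lit 4))
    (@En.i (nat_lit 8640) (nat_lit 0) (nat_lit 11))
    (@En.n l13919 (nat_lit 8218) (nat_lit 6) (nat_lit 5))
    (@En.n l3866 (nat_lit 6746) (nat_lit 8) (nat_lit 11))
    (@En.n l20112 (nat_lit 8997) (nat_lit 9) (nat_lit 12))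
    (@En.n l20898 (nat_lit 8214) (nat_lit 12) (nat_lit 4))
    (@En.i (nat_lit 8204) (nat_lit 10) (nat_lit 4))
    (@En.n l13919 (nat_lit 3437) (nat_lit 12) (nat_lit 11))
    (@En.n l742 (nat_lit 8208) (nat_lit 13) (nat_lit 7))
    (@En.n l396 (nat_lit 8202) (nat_lit 14) (nat_lit 12))
    (@En.n l7 (nat_lit 10814) (nat_lit 3) (nat_lit 12))
    (@En.n l28 (nat_lit 8203) (nat_lit 15) (nat_lit 2))))
  (@Cl.mk (nat_lit 0x2000c0009000d000800040003000c000b0007000b000400080005000e0005) (nat_lit 0x772300610900020) (nat_lit 16) Lb.e (@T16.mk En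
    (@En.i (nat_lit 8140) (nat_lit 6) (nat_lit 5))
    (@En.n l2038 (nat_lit 7082) (nat_lit 1) (nat_lit 14))
    (@En.i (nat_lit 3474) (nat_lit 2) (nat_lit 5))
    (@En.i (nat_lit 8746) (nat_lit 3) (nat_lit 8))
    (@En.i (nat_lit 6828) (nat_lit 4) (nat_lit 4))
    (@En.i (nat_lit 10193) (nat_lit 0) (nat_lit 11))
    (@En.i (nat_lit 6431) (nat_lit 6) (nat_lit 7))
    (@En.n l3866 (nat_lit 4461) (nat_lit 8) (nat_lit 11))
    (@En.i (nat_lit 9377) (nat_lit 9) (nat_lit 12))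
    (@En.n l18 (nat_lit 8206) (nat_lit 9) (nat_lit 3))
    (@En.i (nat_lit 8202) (nat_lit 10) (nat_lit 4))
    (@En.n l61 (nat_lit 8207) (nat_lit 12) (nat_lit 8))
    (@En.i (nat_lit 3432) (nat_lit 13) (nat_lit 13))
    (@En.i (nat_lit 8210) (nat_lit 14) (nat_lit 9))
    (@En.i (nat_lit 9875) (nat_lit 3) (nat_lit 12))
    (@En.n l28 (nat_lit 8204) (nat_lit 15) (nat_lit 2))))
  (@Cl.mk (nat_lit 0x2000d000c000a000300090004000c000b0006000b000400070005000e0005) (nat_lit 0xa86010740900020) (nat_lit 16) Lb.e (@T16.mk En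
    (@En.i (nat_lit 8137) (nat_lit 4) (nat_lit 5))
    (@En.n l2038 (nat_lit 7085) (nat_lit 1) (nat_lit 14))
    (@En.i (nat_lit 3476) (nat_lit 2) (nat_lit 5))
    (@En.i (nat_lit 7456) (nat_lit 11) (nat_lit 7))
    (@En.n l5389 (nat_lit 6819) (nat_lit 4) (nat_lit 4))
    (@En.i (nat_lit 10189) (nat_lit 0) (nat_lit 11))
    (@En.i (nat_lit 8353) (nat_lit 6) (nat_lit 6))
    (@En.n l3866 (nat_lit 6733) (nat_lit 8) (nat_lit 11))
    (@En.i (nat_lit 8208) (nat_lit 9) (nat_lit 12))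
    (@En.n l50 (nat_lit 8203) (nat_lit 9) (nat_lit 4))
    (@En.n l5389 (nat_lit 6208) (nat_lit 11) (nat_lit 9))
    (@En.n l50 (nat_lit 8206) (nat_lit 11) (nat_lit 3))
    (@En.i (nat_lit 8217) (nat_lit 0) (nat_lit 10))
    (@En.n l217 (nat_lit 8204) (nat_lit 14) (nat_lit 12))
    (@En.i (nat_lit 11864) (nat_lit 2) (nat_lit 13))
    (@En.n l28 (nat_lit 8205) (nat_lit 15) (nat_lit 2))))
  (@Cl.mk (nat_lit 0x2000d0009000d000300090003000c000b0007000b000400070005000e0005) (nat_lit 0xa72030620700060) (nat_lit 16) Lb.e (@T16.mk En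
    (@En.i (nat_lit 8138) (nat_lit 4) (nat_lit 5))
    (@En.n l2038 (nat_lit 7083) (nat_lit 1) (nat_lit 14))
    (@En.i (nat_lit 3473) (nat_lit 2) (nat_lit 5))
    (@En.i (nat_lit 7449) (nat_lit 11) (nat_lit 7))
    (@En.i (nat_lit 6825) (nat_lit 4) (nat_lit 4))
    (@En.i (nat_lit 10190) (nat_lit 0) (nat_lit 11))
    (@En.i (nat_lit 6430) (nat_lit 6) (nat_lit 7))
    (@En.n l3866 (nat_lit 6735) (nat_lit 8) (nat_lit 11))
    (@En.i (nat_lit 8207) (nat_lit 9) (nat_lit 12))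
    (@En.i (nat_lit 8204) (nat_lit 9) (nat_lit 3))
    (@En.i (nat_lit 6832) (nat_lit 11) (nat_lit 9))
    (@En.i (nat_lit 8205) (nat_lit 11) (nat_lit 3))
    (@En.i (nat_lit 3434) (nat_lit 0) (nat_lit 13))
    (@En.i (nat_lit 8209) (nat_lit 14) (nat_lit 9))
    (@En.i (nat_lit 11863) (nat_lit 2) (nat_lit 13))
    (@En.n l28 (nat_lit 8206) (nat_lit 15) (nat_lit 2))))
  (@Cl.mk (nat_lit 0x2000d000a000800030009000c000a0006000a0004000800070006000e0006) (nat_lit 0x7420352080000c0) (nat_lit 16) Lb.e (@T16.mk En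
    (@En.i (nat_lit 8139) (nat_lit 4) (nat_lit 6))
    (@En.n l2038 (nat_lit 7086) (nat_lit 1) (nat_lit 14))
    (@En.i (nat_lit 8212) (nat_lit 2) (nat_lit 6))
    (@En.n l17 (nat_lit 8206) (nat_lit 3) (nat_lit 7))
    (@En.i (nat_lit 8748) (nat_lit 4) (nat_lit 8))
    (@En.i (nat_lit 6824) (nat_lit 5) (nat_lit 4))
    (@En.i (nat_lit 10192) (nat_lit 0) (nat_lit 10))
    (@En.i (nat_lit 6434) (nat_lit 7) (nat_lit 6))
    (@En.n l10040 (nat_lit 6806) (nat_lit 9) (nat_lit 10))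
    (@En.n l1112 (nat_lit 6723) (nat_lit 6) (nat_lit 12))
    (@En.i (nat_lit 6834) (nat_lit 11) (nat_lit 9))
    (@En.i (nat_lit 8208) (nat_lit 11) (nat_lit 3))
    (@En.n l17017 (nat_lit 12817) (nat_lit 0) (nat_lit 8))
    (@En.i (nat_lit 8211) (nat_lit 14) (nat_lit 10))
    (@En.i (nat_lit 10508) (nat_lit 2) (nat_lit 13))
    (@En.n l28 (nat_lit 8207) (nat_lit 15) (nat_lit 2))))
noncomputable def a513 : T16 Cl := @T16.mk Cl
  (@Cl.mk (nat_lit 0x2000d0007000b00030009000c000a0005000a0004000900070006000e0006) (nat_lit 0x6060162080600b0) (nat_lit 16) Lb.e (@T16.mk En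
    (@En.i (nat_lit 8141) (nat_lit 4) (nat_lit 6))
    (@En.n l2038 (nat_lit 7090) (nat_lit 1) (nat_lit 14))
    (@En.n l4542 (nat_lit 8213) (nat_lit 2) (nat_lit 6))
    (@En.n l17 (nat_lit 8205) (nat_lit 3) (nat_lit 7))
    (@En.i (nat_lit 8755) (nat_lit 4) (nat_lit 9))
    (@En.n l33557 (nat_lit 6817) (nat_lit 5) (nat_lit 4))
    (@En.i (nat_lit 10191) (nat_lit 0) (nat_lit 10))
    (@En.n l36789 (nat_lit 8411) (nat_lit 7) (nat_lit 5))
    (@En.n l10040 (nat_lit 6808) (nat_lit 9) (nat_lit 10))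
    (@En.n l16722 (nat_lit 6724) (nat_lit 6) (nat_lit 12))
    (@En.n l36790 (nat_lit 6209) (nat_lit 11) (nat_lit 9))
    (@En.n l50 (nat_lit 8207) (nat_lit 11) (nat_lit 3))
    (@En.n l18635 (nat_lit 8216) (nat_lit 0) (nat_lit 11))
    (@En.i (nat_lit 9906) (nat_lit 14) (nat_lit 7))
    (@En.n l29711 (nat_lit 10507) (nat_lit 2) (nat_lit 13))
    (@En.n l28 (nat_lit 8208) (nat_lit 15) (nat_lit 2))))
  (@Cl.mk (nat_lit 0x20009000d000a00080003000b000a00070006000b000500080006000e0005) (nat_lit 0x6502073001000b0) (nat_lit 16) Lb.e (@T16.mk En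
    (@En.i (nat_lit 8143) (nat_lit 5) (nat_lit 5))
    (@En.n l2038 (nat_lit 7929) (nat_lit 1) (nat_lit 14))
    (@En.i (nat_lit 3477) (nat_lit 2) (nat_lit 6))
    (@En.i (nat_lit 8729) (nat_lit 3) (nat_lit 8))
    (@En.i (nat_lit 5082) (nat_lit 4) (nat_lit 5))
    (@En.i (nat_lit 6849) (nat_lit 6) (nat_lit 11))
    (@En.n l644 (nat_lit 8205) (nat_lit 6) (nat_lit 6))
    (@En.i (nat_lit 6206) (nat_lit 7) (nat_lit 7))
    (@En.n l3866 (nat_lit 6676) (nat_lit 9) (nat_lit 10))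
    (@En.i (nat_lit 8211) (nat_lit 10) (nat_lit 11))
    (@En.i (nat_lit 8210) (nat_lit 10) (nat_lit 3))
    (@En.i (nat_lit 6947) (nat_lit 12) (nat_lit 8))
    (@En.i (nat_lit 8220) (nat_lit 13) (nat_lit 10))
    (@En.n l564 (nat_lit 8212) (nat_lit 14) (nat_lit 13))
    (@En.n l3506 (nat_lit 10726) (nat_lit 3) (nat_lit 9))
    (@En.n l28 (nat_lit 8209) (nat_lit 15) (nat_lit 2))))
  (@Cl.mk (nat_lit 0x20009000d0007000b0003000b000a00070005000b000500090006000e0005) (nat_lit 0x660107400105070) (nat_lit 16) Lb.e (@T16.mk En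
    (@En.i (nat_lit 9334) (nat_lit 5) (nat_lit 5))
    (@En.n l2038 (nat_lit 7930) (nat_lit 1) (nat_lit 14))
    (@En.i (nat_lit 3478) (nat_lit 2) (nat_lit 6))
    (@En.i (nat_lit 9148) (nat_lit 3) (nat_lit 9))
    (@En.n l18565 (nat_lit 5085) (nat_lit 4) (nat_lit 5))
    (@En.i (nat_lit 6851) (nat_lit 6) (nat_lit 11))
    (@En.i (nat_lit 8203) (nat_lit 6) (nat_lit 5))
    (@En.n l20425 (nat_lit 6205) (nat_lit 7) (nat_lit 7))
    (@En.n l3866 (nat_lit 6675) (nat_lit 9) (nat_lit 10))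
    (@En.i (nat_lit 9312) (nat_lit 10) (nat_lit 11))
    (@En.n l18 (nat_lit 8209) (nat_lit 10) (nat_lit 3))
    (@En.n l24671 (nat_lit 2409) (nat_lit 0) (nat_lit 11))
    (@En.n l61 (nat_lit 8211) (nat_lit 13) (nat_lit 7))
    (@En.n l16289 (nat_lit 8213) (nat_lit 14) (nat_lit 13))
    (@En.n l3506 (nat_lit 10727) (nat_lit 3) (nat_lit 9))
    (@En.n l28 (nat_lit 8210) (nat_lit 15) (nat_lit 2))))
  (@Cl.mk (nat_lit 0x2000a0007000b0008000b000900060005000a0005000900080007000e0006) (nat_lit 0x3001620010010b0) (nat_lit 16) Lb.e (@T16.mk En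
    (@En.i (nat_lit 9335) (nat_lit 8) (nat_lit 6))
    (@En.n l2038 (nat_lit 7931) (nat_lit 1) (nat_lit 14))
    (@En.i (nat_lit 10020) (nat_lit 2) (nat_lit 7))
    (@En.n l17 (nat_lit 8209) (nat_lit 3) (nat_lit 8))
    (@En.i (nat_lit 9338) (nat_lit 4) (nat_lit 9))
    (@En.n l19733 (nat_lit 5080) (nat_lit 5) (nat_lit 5))
    (@En.i (nat_lit 6850) (nat_lit 7) (nat_lit 10))
    (@En.n l644 (nat_lit 8208) (nat_lit 7) (nat_lit 5))
    (@En.i (nat_lit 6210) (nat_lit 8) (nat_lit 6))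
    (@En.n l10040 (nat_lit 6674) (nat_lit 10) (nat_lit 9))
    (@En.n l1112 (nat_lit 9514) (nat_lit 7) (nat_lit 11))
    (@En.i (nat_lit 6830) (nat_lit 12) (nat_lit 8))
    (@En.n l19733 (nat_lit 8219) (nat_lit 13) (nat_lit 11))
    (@En.n l644 (nat_lit 9905) (nat_lit 14) (nat_lit 7))
    (@En.n l3506 (nat_lit 10722) (nat_lit 5) (nat_lit 10))
    (@En.n l28 (nat_lit 8211) (nat_lit 15) (nat_lit 2))))
  (@Cl.mk (nat_lit 0x2000d000900070003000d000b000a00030007000b000500090006000e0005) (nat_lit 0x470025800000070) (nat_lit 16) Lb.e (@T16.mk En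
    (@En.n l3745 (nat_lit 10009) (nat_lit 8) (nat_lit 5))
    (@En.n l9182 (nat_lit 11140) (nat_lit 1) (nat_lit 14))
    (@En.n l17 (nat_lit 3475) (nat_lit 2) (nat_lit 6))
    (@En.n l1003 (nat_lit 8728) (nat_lit 3) (nat_lit 9))
    (@En.i (nat_lit 2890) (nat_lit 4) (nat_lit 5))
    (@En.i (nat_lit 8872) (nat_lit 8) (nat_lit 11))
    (@En.n l617 (nat_lit 8204) (nat_lit 6) (nat_lit 7))
    (@En.i (nat_lit 10010) (nat_lit 7) (nat_lit 3))
    (@En.n l18153 (nat_lit 6628) (nat_lit 0) (nat_lit 10))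
    (@En.n l3518 (nat_lit 9658) (nat_lit 10) (nat_lit 11))
    (@En.n l387 (nat_lit 3423) (nat_lit 11) (nat_lit 13))
    (@En.n l4542 (nat_lit 8213) (nat_lit 11) (nat_lit 3))
    (@En.n l7646 (nat_lit 12816) (nat_lit 0) (nat_lit 7))
    (@En.i (nat_lit 10020) (nat_lit 14) (nat_lit 9))
    (@En.n l5646 (nat_lit 10493) (nat_lit 2) (nat_lit 13))
    (@En.n l28 (nat_lit 8212) (nat_lit 15) (nat_lit 2))))
  (@Cl.mk (nat_lit 0x2000d0006000a0003000d000b000a00030006000b0005000a0006000e0005) (nat_lit 0x502025300000070) (nat_lit 16) Lb.e (@T16.mk En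
    (@En.n l24315 (nat_lit 10013) (nat_lit 8) (nat_lit 5))
    (@En.n l18237 (nat_lit 11145) (nat_lit 1) (nat_lit 14))
    (@En.n l17439 (nat_lit 1339) (nat_lit 2) (nat_lit 6))
    (@En.n l24316 (nat_lit 8926) (nat_lit 3) (nat_lit 10))
    (@En.i (nat_lit 2891) (nat_lit 4) (nat_lit 5))
    (@En.n l10536 (nat_lit 8874) (nat_lit 14) (nat_lit 11))
    (@En.n l17308 (nat_lit 8202) (nat_lit 6) (nat_lit 6))
    (@En.n l20922 (nat_lit 10014) (nat_lit 7) (nat_lit 3))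
    (@En.n l619 (nat_lit 6626) (nat_lit 0) (nat_lit 10))
    (@En.n l3866 (nat_lit 9660) (nat_lit 10) (nat_lit 11))
    (@En.n l24317 (nat_lit 10020) (nat_lit 11) (nat_lit 13))
    (@En.n l15710 (nat_lit 8212) (nat_lit 11) (nat_lit 3))
    (@En.i (nat_lit 6710) (nat_lit 0) (nat_lit 10))
    (@En.n l10536 (nat_lit 9904) (nat_lit 14) (nat_lit 6))
    (@En.n l24318 (nat_lit 10495) (nat_lit 2) (nat_lit 13))
    (@En.n l7 (nat_lit 8213) (nat_lit 15) (nat_lit 2))))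
  (@Cl.mk (nat_lit 0x20008000c0004000c000b0004000b000400080005000e00050002000e000c) (nat_lit 0x5307509060200c9) (nat_lit 16) Lb.e (@T16.mk En
    (@En.n l1790 (nat_lit 8203) (nat_lit 14) (nat_lit 12))
    (@En.i (nat_lit 12079) (nat_lit 1) (nat_lit 14))
    (@En.n l17 (nat_lit 8214) (nat_lit 2) (nat_lit 2))
    (@En.n l6281 (nat_lit 8128) (nat_lit 3) (nat_lit 5))
    (@En.n l10470 (nat_lit 7094) (nat_lit 5) (nat_lit 14))
    (@En.n l3726 (nat_lit 2550) (nat_lit 5) (nat_lit 5))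
    (@En.n l623 (nat_lit 7342) (nat_lit 6) (nat_lit 8))
    (@En.i (nat_lit 6350) (nat_lit 7) (nat_lit 4))
    (@En.n l6193 (nat_lit 8639) (nat_lit 9) (nat_lit 11))
    (@En.n l6771 (nat_lit 8215) (nat_lit 9) (nat_lit 4))
    (@En.n l77 (nat_lit 6747) (nat_lit 11) (nat_lit 11))
    (@En.n l10479 (nat_lit 7038) (nat_lit 12) (nat_lit 12))
    (@En.n l6193 (nat_lit 8205) (nat_lit 9) (nat_lit 4))
    (@En.n l3724 (nat_lit 4616) (nat_lit 14) (nat_lit 12))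
    (@En.i (nat_lit 6207) (nat_lit 12) (nat_lit 8))
    (@En.n l3 (nat_lit 8214) (nat_lit 15) (nat_lit 2))))
  (@Cl.mk (nat_lit 0x20008000c00090005000d0004000b000300080007000e00050002000e000b) (nat_lit 0x315080005080045) (nat_lit 16) Lb.e (@T16.mk En
    (@En.n l8596 (nat_lit 8218) (nat_lit 14) (nat_lit 11))
    (@En.i (nat_lit 11415) (nat_lit 1) (nat_lit 14))
    (@En.n l17 (nat_lit 8215) (nat_lit 2) (nat_lit 2))
    (@En.i (nat_lit 8225) (nat_lit 3) (nat_lit 5))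
    (@En.n l2611 (nat_lit 7001) (nat_lit 5) (nat_lit 14))
    (@En.n l55 (nat_lit 6856) (nat_lit 5) (nat_lit 7))
    (@En.n l11740 (nat_lit 8970) (nat_lit 6) (nat_lit 8))
    (@En.n l430 (nat_lit 8216) (nat_lit 7) (nat_lit 3))
    (@En.n l4466 (nat_lit 9258) (nat_lit 0) (nat_lit 11))
    (@En.n l1637 (nat_lit 8217) (nat_lit 9) (nat_lit 4))
    (@En.n l1638 (nat_lit 6043) (nat_lit 11) (nat_lit 13))
    (@En.n l2611 (nat_lit 8357) (nat_lit 8) (nat_lit 5))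
    (@En.n l1517 (nat_lit 2545) (nat_lit 13) (nat_lit 9))
    (@En.n l2611 (nat_lit 4619) (nat_lit 14) (nat_lit 12))
    (@En.n l430 (nat_lit 8351) (nat_lit 12) (nat_lit 8))
    (@En.n l3 (nat_lit 8215) (nat_lit 15) (nat_lit 2))))
  (@Cl.mk (nat_lit 0x20008000b00090005000d000a0005000300080007000e00060002000e000b) (nat_lit 0x364090005080045) (nat_lit 16) Lb.e (@T16.mk En
    (@En.n l310 (nat_lit 8219) (nat_lit 14) (nat_lit 11))
    (@En.i (nat_lit 11480) (nat_lit 1) (nat_lit 14))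
    (@En.n l17 (nat_lit 8216) (nat_lit 2) (nat_lit 2))
    (@En.n l10469 (nat_lit 8222) (nat_lit 3) (nat_lit 6))
    (@En.n l10470 (nat_lit 7002) (nat_lit 5) (nat_lit 14))
    (@En.n l3487 (nat_lit 6710) (nat_lit 5) (nat_lit 7))
    (@En.n l10471 (nat_lit 8217) (nat_lit 6) (nat_lit 8))
    (@En.n l10472 (nat_lit 8215) (nat_lit 7) (nat_lit 3))
    (@En.n l313 (nat_lit 1805) (nat_lit 0) (nat_lit 5))
    (@En.n l3487 (nat_lit 9558) (nat_lit 10) (nat_lit 10))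
    (@En.n l1125 (nat_lit 7039) (nat_lit 11) (nat_lit 13))
    (@En.n l10470 (nat_lit 8238) (nat_lit 8) (nat_lit 5))
    (@En.i (nat_lit 2544) (nat_lit 13) (nat_lit 9))
    (@En.n l313 (nat_lit 4627) (nat_lit 7) (nat_lit 11))
    (@En.i (nat_lit 8227) (nat_lit 12) (nat_lit 8))
    (@En.n l3 (nat_lit 8216) (nat_lit 15) (nat_lit 2))))
  (@Cl.mk (nat_lit 0x20008000c000b000a00060004000b000500080006000e00050002000e000a) (nat_lit 0x327500004090045) (nat_lit 16) Lb.e (@T16.mk En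
    (@En.i (nat_lit 8220) (nat_lit 14) (nat_lit 10))
    (@En.n l6220 (nat_lit 11481) (nat_lit 1) (nat_lit 14))
    (@En.n l28 (nat_lit 8217) (nat_lit 2) (nat_lit 2))
    (@En.n l2848 (nat_lit 8221) (nat_lit 3) (nat_lit 5))
    (@En.n l7867 (nat_lit 7005) (nat_lit 5) (nat_lit 14))
    (@En.i (nat_lit 1348) (nat_lit 5) (nat_lit 6))
    (@En.n l773 (nat_lit 8998) (nat_lit 6) (nat_lit 8))
    (@En.n l4925 (nat_lit 1806) (nat_lit 7) (nat_lit 5))
    (@En.i (nat_lit 9559) (nat_lit 9) (nat_lit 11))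
    (@En.n l4925 (nat_lit 8214) (nat_lit 9) (nat_lit 4))
    (@En.n l7867 (nat_lit 8354) (nat_lit 7) (nat_lit 6))
    (@En.n l3866 (nat_lit 6753) (nat_lit 12) (nat_lit 10))
    (@En.n l18635 (nat_lit 8216) (nat_lit 13) (nat_lit 11))
    (@En.n l7867 (nat_lit 4617) (nat_lit 14) (nat_lit 12))
    (@En.n l6220 (nat_lit 8383) (nat_lit 12) (nat_lit 8))
    (@En.n l50 (nat_lit 8217) (nat_lit 15) (nat_lit 2))))
  (@Cl.mk (nat_lit 0x2000b000b0007000b000800050005000d0005000b000300090008000e0005) (nat_lit 0x450140070005250) (nat_lit 16) Lb.e (@T16.mk En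
    (@En.i (nat_lit 8226) (nat_lit 12) (nat_lit 5))
    (@En.i (nat_lit 6876) (nat_lit 1) (nat_lit 14))
    (@En.n l8011 (nat_lit 6703) (nat_lit 2) (nat_lit 8))
    (@En.n l4172 (nat_lit 8968) (nat_lit 3) (nat_lit 9))
    (@En.n l15450 (nat_lit 8219) (nat_lit 4) (nat_lit 3))
    (@En.n l12204 (nat_lit 8442) (nat_lit 0) (nat_lit 11))
    (@En.n l15483 (nat_lit 8220) (nat_lit 6) (nat_lit 5))
    (@En.n l30089 (nat_lit 9308) (nat_lit 8) (nat_lit 13))
    (@En.n l15485 (nat_lit 8215) (nat_lit 11) (nat_lit 5))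
    (@En.n l152 (nat_lit 8413) (nat_lit 9) (nat_lit 5))
    (@En.n l17148 (nat_lit 2438) (nat_lit 11) (nat_lit 8))
    (@En.i (nat_lit 4622) (nat_lit 12) (nat_lit 11))
    (@En.n l8008 (nat_lit 8411) (nat_lit 13) (nat_lit 7))
    (@En.n l8009 (nat_lit 9266) (nat_lit 14) (nat_lit 11))
    (@En.i (nat_lit 11070) (nat_lit 10) (nat_lit 11))
    (@En.n l17 (nat_lit 8218) (nat_lit 15) (nat_lit 2))))
  (@Cl.mk (nat_lit 0x2000b000b0007000a000800050005000d000a0006000300090008000e0006) (nat_lit 0x490540070005230) (nat_lit 16) Lb.e (@T16.mk En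
    (@En.i (nat_lit 8223) (nat_lit 12) (nat_lit 6))
    (@En.n l12787 (nat_lit 6874) (nat_lit 1) (nat_lit 14))
    (@En.n l20209 (nat_lit 6707) (nat_lit 2) (nat_lit 8))
    (@En.n l8536 (nat_lit 8220) (nat_lit 3) (nat_lit 9))
    (@En.n l18190 (nat_lit 8218) (nat_lit 4) (nat_lit 3))
    (@En.i (nat_lit 1807) (nat_lit 0) (nat_lit 6))
    (@En.n l12787 (nat_lit 9269) (nat_lit 7) (nat_lit 10))
    (@En.n l2724 (nat_lit 9310) (nat_lit 8) (nat_lit 13))
    (@En.n l911 (nat_lit 8216) (nat_lit 11) (nat_lit 5))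
    (@En.n l2094 (nat_lit 8379) (nat_lit 9) (nat_lit 5))
    (@En.n l917 (nat_lit 2436) (nat_lit 11) (nat_lit 8))
    (@En.i (nat_lit 4628) (nat_lit 8) (nat_lit 10))
    (@En.n l414 (nat_lit 8424) (nat_lit 13) (nat_lit 7))
    (@En.n l20210 (nat_lit 9264) (nat_lit 14) (nat_lit 11))
    (@En.n l4604 (nat_lit 11071) (nat_lit 10) (nat_lit 11))
    (@En.n l107 (nat_lit 8219) (nat_lit 15) (nat_lit 2))))
  (@Cl.mk (nat_lit 0x2000a000a0007000b000a0009000600060005000b000600090007000e0005) (nat_lit 0x480165000004080) (nat_lit 16) Lb.e (@T16.mk En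
    (@En.i (nat_lit 8224) (nat_lit 15) (nat_lit 5))
    (@En.n l18925 (nat_lit 6875) (nat_lit 1) (nat_lit 14))
    (@En.i (nat_lit 1346) (nat_lit 2) (nat_lit 7))
    (@En.i (nat_lit 8941) (nat_lit 3) (nat_lit 9))
    (@En.n l12385 (nat_lit 1779) (nat_lit 4) (nat_lit 6))
    (@En.i (nat_lit 9270) (nat_lit 6) (nat_lit 11))
    (@En.n l217 (nat_lit 8210) (nat_lit 6) (nat_lit 5))
    (@En.n l644 (nat_lit 8217) (nat_lit 10) (nat_lit 6))
    (@En.n l34403 (nat_lit 8382) (nat_lit 8) (nat_lit 6))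
    (@En.n l3866 (nat_lit 6754) (nat_lit 10) (nat_lit 9))
    (@En.n l19733 (nat_lit 8219) (nat_lit 11) (nat_lit 10))
    (@En.n l18925 (nat_lit 2411) (nat_lit 12) (nat_lit 11))
    (@En.n l5 (nat_lit 8385) (nat_lit 13) (nat_lit 7))
    (@En.n l21782 (nat_lit 9265) (nat_lit 6) (nat_lit 10))
    (@En.n l3506 (nat_lit 10733) (nat_lit 14) (nat_lit 10))
    (@En.n l28 (nat_lit 8220) (nat_lit 15) (nat_lit 2))))
  (@Cl.mk (nat_lit 0x20007000c000a000900060004000b000b00060009000700050005000e000a) (nat_lit 0x25600910400038) (nat_lit 16) Lb.e (@T16.mk En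
    (@En.n l2842 (nat_lit 8224) (nat_lit 13) (nat_lit 10))
    (@En.n l2724 (nat_lit 11081) (nat_lit 1) (nat_lit 14))
    (@En.n l237 (nat_lit 7652) (nat_lit 2) (nat_lit 5))
    (@En.n l916 (nat_lit 9607) (nat_lit 3) (nat_lit 5))
    (@En.n l485 (nat_lit 1383) (nat_lit 4) (nat_lit 7))
    (@En.i (nat_lit 8938) (nat_lit 5) (nat_lit 9))
    (@En.n l8314 (nat_lit 9603) (nat_lit 6) (nat_lit 6))
    (@En.n l3918 (nat_lit 8217) (nat_lit 8) (nat_lit 11))
    (@En.n l2842 (nat_lit 9508) (nat_lit 9) (nat_lit 11))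
    (@En.n l5523 (nat_lit 8128) (nat_lit 9) (nat_lit 4))
    (@En.n l12 (nat_lit 8361) (nat_lit 11) (nat_lit 6))
    (@En.n l1477 (nat_lit 6752) (nat_lit 12) (nat_lit 9))
    (@En.n l8315 (nat_lit 8222) (nat_lit 13) (nat_lit 10))
    (@En.n l5523 (nat_lit 7523) (nat_lit 14) (nat_lit 12))
    (@En.n l916 (nat_lit 8386) (nat_lit 4) (nat_lit 7))
    (@En.n l18 (nat_lit 8221) (nat_lit 15) (nat_lit 2))))
  (@Cl.mk (nat_lit 0x20007000a00080005000c000a000a000600040009000800060006000e000b) (nat_lit 0x44098100520039) (nat_lit 16) Lb.e (@T16.mk En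
    (@En.n l19752 (nat_lit 8223) (nat_lit 10) (nat_lit 11))
    (@En.n l7814 (nat_lit 11082) (nat_lit 1) (nat_lit 14))
    (@En.n l11 (nat_lit 6785) (nat_lit 2) (nat_lit 6))
    (@En.n l6450 (nat_lit 9608) (nat_lit 3) (nat_lit 6))
    (@En.n l2720 (nat_lit 6774) (nat_lit 4) (nat_lit 8))
    (@En.n l3958 (nat_lit 8221) (nat_lit 5) (nat_lit 9))
    (@En.n l19753 (nat_lit 8225) (nat_lit 6) (nat_lit 4))
    (@En.n l19754 (nat_lit 9602) (nat_lit 7) (nat_lit 6))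
    (@En.n l19755 (nat_lit 8216) (nat_lit 9) (nat_lit 10))
    (@En.n l2720 (nat_lit 9507) (nat_lit 10) (nat_lit 10))
    (@En.n l19756 (nat_lit 7041) (nat_lit 11) (nat_lit 12))
    (@En.n l19757 (nat_lit 8366) (nat_lit 12) (nat_lit 5))
    (@En.n l19758 (nat_lit 2162) (nat_lit 13) (nat_lit 8))
    (@En.n l19759 (nat_lit 8194) (nat_lit 8) (nat_lit 10))
    (@En.n l19760 (nat_lit 8400) (nat_lit 7) (nat_lit 7))
    (@En.n l7 (nat_lit 8222) (nat_lit 15) (nat_lit 2))))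
  (@Cl.mk (nat_lit 0x4000a000900060006000b000b00060009000700050005000c000a000a0007) (nat_lit 0x520080030009810) (nat_lit 16) Lb.e (@T16.mk En
    (@En.n l28844 (nat_lit 9588) (nat_lit 0) (nat_lit 7))
    (@En.n l527 (nat_lit 8219) (nat_lit 6) (nat_lit 10))
    (@En.n l28845 (nat_lit 9420) (nat_lit 6) (nat_lit 10))
    (@En.n l28846 (nat_lit 9313) (nat_lit 3) (nat_lit 12))
    (@En.n l28847 (nat_lit 8222) (nat_lit 11) (nat_lit 5))
    (@En.n l28848 (nat_lit 8788) (nat_lit 5) (nat_lit 5))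
    (@En.n l28849 (nat_lit 2437) (nat_lit 0) (nat_lit 7))
    (@En.i (nat_lit 8272) (nat_lit 9) (nat_lit 9))
    (@En.n l19824 (nat_lit 8401) (nat_lit 2) (nat_lit 6))
    (@En.n l28850 (nat_lit 8994) (nat_lit 5) (nat_lit 11))
    (@En.n l28846 (nat_lit 11075) (nat_lit 9) (nat_lit 11))
    (@En.n l28851 (nat_lit 7650) (nat_lit 10) (nat_lit 6))
    (@En.n l28852 (nat_lit 9458) (nat_lit 6) (nat_lit 6))
    (@En.n l28853 (nat_lit 6711) (nat_lit 7) (nat_lit 9))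
    (@En.n l8536 (nat_lit 8224) (nat_lit 1) (nat_lit 10))
    (@En.n l18190 (nat_lit 8226) (nat_lit 15) (nat_lit 4))))
noncomputable def a514 : T16 Cl := @T16.mk Cl
  (@Cl.mk (nat_lit 0x50005000a000a0006000b00090008000600060005000b000b0007000a0008) (nat_lit 0x78014500091041) (nat_lit 16) Lb.e (@T16.mk En
    (@En.i (nat_lit 1279) (nat_lit 0) (nat_lit 8))
    (@En.n l2848 (nat_lit 8935) (nat_lit 8) (nat_lit 10))
    (@En.n l19730 (nat_lit 9590) (nat_lit 2) (nat_lit 7))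
    (@En.n l55 (nat_lit 8220) (nat_lit 5) (nat_lit 11))
    (@En.n l19595 (nat_lit 9319) (nat_lit 10) (nat_lit 11))
    (@En.n l217 (nat_lit 9334) (nat_lit 11) (nat_lit 5))
    (@En.n l19731 (nat_lit 8221) (nat_lit 10) (nat_lit 6))
    (@En.n l15380 (nat_lit 8789) (nat_lit 10) (nat_lit 6))
    (@En.n l19732 (nat_lit 6755) (nat_lit 8) (nat_lit 8))
    (@En.n l19733 (nat_lit 8223) (nat_lit 7) (nat_lit 9))
    (@En.n l19730 (nat_lit 2412) (nat_lit 9) (nat_lit 11))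
    (@En.n l19734 (nat_lit 8388) (nat_lit 3) (nat_lit 6))
    (@En.n l17161 (nat_lit 8991) (nat_lit 6) (nat_lit 10))
    (@En.n l19732 (nat_lit 11077) (nat_lit 10) (nat_lit 10))
    (@En.n l19735 (nat_lit 7651) (nat_lit 11) (nat_lit 5))
    (@En.n l19736 (nat_lit 9457) (nat_lit 0) (nat_lit 5))))
  (@Cl.mk (nat_lit 0x20007000c00080005000c0004000b000b00040009000800050005000e000b) (nat_lit 0x25070910520050) (nat_lit 16) Lb.e (@T16.mk En
    (@En.n l8596 (nat_lit 8226) (nat_lit 10) (nat_lit 11))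
    (@En.i (nat_lit 11083) (nat_lit 1) (nat_lit 14))
    (@En.n l8597 (nat_lit 7648) (nat_lit 11) (nat_lit 5))
    (@En.n l8598 (nat_lit 9563) (nat_lit 3) (nat_lit 5))
    (@En.n l4377 (nat_lit 6777) (nat_lit 4) (nat_lit 8))
    (@En.n l4571 (nat_lit 8644) (nat_lit 5) (nat_lit 9))
    (@En.n l8599 (nat_lit 9385) (nat_lit 6) (nat_lit 4))
    (@En.n l61 (nat_lit 8215) (nat_lit 8) (nat_lit 11))
    (@En.n l8600 (nat_lit 9866) (nat_lit 9) (nat_lit 11))
    (@En.n l4573 (nat_lit 8221) (nat_lit 9) (nat_lit 4))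
    (@En.n l1638 (nat_lit 7040) (nat_lit 11) (nat_lit 12))
    (@En.n l2611 (nat_lit 8360) (nat_lit 12) (nat_lit 5))
    (@En.n l8599 (nat_lit 2474) (nat_lit 13) (nat_lit 8))
    (@En.n l8599 (nat_lit 8675) (nat_lit 14) (nat_lit 12))
    (@En.n l8601 (nat_lit 8419) (nat_lit 7) (nat_lit 7))
    (@En.n l3 (nat_lit 8225) (nat_lit 15) (nat_lit 2))))
  (@Cl.mk (nat_lit 0x4000a000900050005000b000b0006000b000700050005000c0005000b000b) (nat_lit 0x720095000006091) (nat_lit 16) Lb.e (@T16.mk En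
    (@En.n l61 (nat_lit 8218) (nat_lit 5) (nat_lit 11))
    (@En.n l15459 (nat_lit 9360) (nat_lit 1) (nat_lit 11))
    (@En.n l15483 (nat_lit 8224) (nat_lit 5) (nat_lit 5))
    (@En.n l15484 (nat_lit 9315) (nat_lit 0) (nat_lit 12))
    (@En.n l15485 (nat_lit 8225) (nat_lit 11) (nat_lit 5))
    (@En.n l6252 (nat_lit 8416) (nat_lit 5) (nat_lit 5))
    (@En.n l15486 (nat_lit 2460) (nat_lit 0) (nat_lit 7))
    (@En.i (nat_lit 8670) (nat_lit 1) (nat_lit 11))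
    (@En.n l15487 (nat_lit 8418) (nat_lit 2) (nat_lit 6))
    (@En.n l8009 (nat_lit 8995) (nat_lit 5) (nat_lit 11))
    (@En.n l15488 (nat_lit 10273) (nat_lit 11) (nat_lit 11))
    (@En.n l6255 (nat_lit 7649) (nat_lit 11) (nat_lit 5))
    (@En.n l4172 (nat_lit 9459) (nat_lit 0) (nat_lit 5))
    (@En.n l15459 (nat_lit 6659) (nat_lit 7) (nat_lit 9))
    (@En.n l15489 (nat_lit 8940) (nat_lit 1) (nat_lit 10))
    (@En.n l13906 (nat_lit 9381) (nat_lit 2) (nat_lit 4))))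
  (@Cl.mk (nat_lit 0x20005000c0008000b00080004000d0009000500030008000b0008000e0007) (nat_lit 0x62330630055340) (nat_lit 16) Lb.e (@T16.mk En
    (@En.i (nat_lit 8400) (nat_lit 11) (nat_lit 7))
    (@En.n l23731 (nat_lit 8379) (nat_lit 1) (nat_lit 14))
    (@En.n l1385 (nat_lit 8219) (nat_lit 2) (nat_lit 8))
    (@En.i (nat_lit 8566) (nat_lit 3) (nat_lit 11))
    (@En.n l343 (nat_lit 8383) (nat_lit 4) (nat_lit 8))
    (@En.n l28 (nat_lit 8351) (nat_lit 5) (nat_lit 3))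
    (@En.n l170 (nat_lit 1471) (nat_lit 6) (nat_lit 5))
    (@En.n l890 (nat_lit 9431) (nat_lit 8) (nat_lit 9))
    (@En.n l5242 (nat_lit 1918) (nat_lit 9) (nat_lit 13))
    (@En.n l23732 (nat_lit 8237) (nat_lit 9) (nat_lit 4))
    (@En.i (nat_lit 2608) (nat_lit 11) (nat_lit 8))
    (@En.n l170 (nat_lit 8231) (nat_lit 12) (nat_lit 11))
    (@En.n l23606 (nat_lit 8396) (nat_lit 13) (nat_lit 8))
    (@En.n l1668 (nat_lit 8424) (nat_lit 14) (nat_lit 12))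
    (@En.n l170 (nat_lit 9526) (nat_lit 13) (nat_lit 5))
    (@En.n l17 (nat_lit 8227) (nat_lit 15) (nat_lit 2))))
  (@Cl.mk (nat_lit 0x20007000b000e00080002000d0005000b00030009000c00080005000e0004) (nat_lit 0x6460a0305a40a0) (nat_lit 16) Lb.e (@T16.mk En
    (@En.n l6869 (nat_lit 820) (nat_lit 5) (nat_lit 4))
    (@En.n l11302 (nat_lit 1825) (nat_lit 1) (nat_lit 14))
    (@En.i (nat_lit 799) (nat_lit 2) (nat_lit 5))
    (@En.n l3454 (nat_lit 8257) (nat_lit 3) (nat_lit 8))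
    (@En.i (nat_lit 5942) (nat_lit 6) (nat_lit 12))
    (@En.n l11920 (nat_lit 3200) (nat_lit 11) (nat_lit 9))
    (@En.i (nat_lit 8229) (nat_lit 6) (nat_lit 3))
    (@En.n l3303 (nat_lit 1625) (nat_lit 8) (nat_lit 11))
    (@En.n l6052 (nat_lit 8230) (nat_lit 14) (nat_lit 5))
    (@En.n l25596 (nat_lit 7607) (nat_lit 10) (nat_lit 13))
    (@En.n l107 (nat_lit 8228) (nat_lit 10) (nat_lit 2))
    (@En.n l1678 (nat_lit 5188) (nat_lit 12) (nat_lit 8))
    (@En.n l2094 (nat_lit 818) (nat_lit 13) (nat_lit 14))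
    (@En.n l3464 (nat_lit 8233) (nat_lit 14) (nat_lit 11))
    (@En.n l25597 (nat_lit 820) (nat_lit 3) (nat_lit 7))
    (@En.n l18 (nat_lit 8228) (nat_lit 15) (nat_lit 2))))
  (@Cl.mk (nat_lit 0x20007000a000e00080002000d000a000600030009000c00080006000e0004) (nat_lit 0x6460a1005a50a0) (nat_lit 16) Lb.e (@T16.mk En
    (@En.i (nat_lit 819) (nat_lit 5) (nat_lit 4))
    (@En.n l4306 (nat_lit 1826) (nat_lit 1) (nat_lit 14))
    (@En.i (nat_lit 809) (nat_lit 2) (nat_lit 6))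
    (@En.i (nat_lit 8256) (nat_lit 3) (nat_lit 8))
    (@En.i (nat_lit 6282) (nat_lit 6) (nat_lit 12))
    (@En.n l4829 (nat_lit 8230) (nat_lit 11) (nat_lit 9))
    (@En.n l28 (nat_lit 8228) (nat_lit 6) (nat_lit 3))
    (@En.n l4306 (nat_lit 6026) (nat_lit 7) (nat_lit 6))
    (@En.n l77 (nat_lit 959) (nat_lit 9) (nat_lit 10))
    (@En.n l10491 (nat_lit 7604) (nat_lit 10) (nat_lit 13))
    (@En.n l107 (nat_lit 8229) (nat_lit 10) (nat_lit 2))
    (@En.i (nat_lit 7829) (nat_lit 12) (nat_lit 8))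
    (@En.n l97 (nat_lit 816) (nat_lit 13) (nat_lit 14))
    (@En.n l387 (nat_lit 8270) (nat_lit 14) (nat_lit 10))
    (@En.n l1738 (nat_lit 819) (nat_lit 3) (nat_lit 7))
    (@En.n l18 (nat_lit 8229) (nat_lit 15) (nat_lit 2))))
  (@Cl.mk (nat_lit 0x20005000b00060009000c00070005000e000400020007000b000a000e0009) (nat_lit 0x10420090005757) (nat_lit 16) Lb.e (@T16.mk En
    (@En.n l19999 (nat_lit 7822) (nat_lit 11) (nat_lit 9))
    (@En.n l14023 (nat_lit 8228) (nat_lit 12) (nat_lit 14))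
    (@En.n l5144 (nat_lit 8229) (nat_lit 13) (nat_lit 10))
    (@En.n l4758 (nat_lit 8231) (nat_lit 3) (nat_lit 11))
    (@En.n l617 (nat_lit 5458) (nat_lit 4) (nat_lit 7))
    (@En.n l17 (nat_lit 8230) (nat_lit 5) (nat_lit 2))
    (@En.i (nat_lit 5458) (nat_lit 6) (nat_lit 4))
    (@En.n l8122 (nat_lit 1821) (nat_lit 8) (nat_lit 14))
    (@En.i (nat_lit 805) (nat_lit 8) (nat_lit 5))
    (@En.i (nat_lit 8258) (nat_lit 3) (nat_lit 7))
    (@En.n l1643 (nat_lit 5937) (nat_lit 11) (nat_lit 12))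
    (@En.n l8122 (nat_lit 3201) (nat_lit 12) (nat_lit 9))
    (@En.n l11235 (nat_lit 6023) (nat_lit 13) (nat_lit 6))
    (@En.n l13008 (nat_lit 960) (nat_lit 8) (nat_lit 11))
    (@En.i (nat_lit 7611) (nat_lit 8) (nat_lit 5))
    (@En.n l28 (nat_lit 8230) (nat_lit 15) (nat_lit 2))))
  (@Cl.mk (nat_lit 0x20005000d000b00070003000c00080005000e00040002000b0009000e0008) (nat_lit 0xb200530a004633) (nat_lit 16) Lb.e (@T16.mk En
    (@En.i (nat_lit 9118) (nat_lit 12) (nat_lit 8))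
    (@En.n l6072 (nat_lit 8233) (nat_lit 13) (nat_lit 14))
    (@En.n l619 (nat_lit 4628) (nat_lit 14) (nat_lit 9))
    (@En.n l1501 (nat_lit 9130) (nat_lit 3) (nat_lit 11))
    (@En.n l17 (nat_lit 8231) (nat_lit 4) (nat_lit 2))
    (@En.i (nat_lit 7692) (nat_lit 5) (nat_lit 4))
    (@En.n l18580 (nat_lit 1819) (nat_lit 7) (nat_lit 14))
    (@En.i (nat_lit 2356) (nat_lit 7) (nat_lit 5))
    (@En.n l14754 (nat_lit 8259) (nat_lit 3) (nat_lit 8))
    (@En.n l564 (nat_lit 6276) (nat_lit 10) (nat_lit 12))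
    (@En.n l20673 (nat_lit 8232) (nat_lit 10) (nat_lit 3))
    (@En.n l1347 (nat_lit 6030) (nat_lit 12) (nat_lit 7))
    (@En.n l644 (nat_lit 6285) (nat_lit 13) (nat_lit 11))
    (@En.n l1643 (nat_lit 8229) (nat_lit 9) (nat_lit 13))
    (@En.i (nat_lit 8582) (nat_lit 13) (nat_lit 5))
    (@En.n l11 (nat_lit 8231) (nat_lit 15) (nat_lit 2))))
  (@Cl.mk (nat_lit 0x20005000d0006000c0003000c00080004000e00040002000b000a000e0008) (nat_lit 0xb0601209005534) (nat_lit 16) Lb.e (@T16.mk En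
    (@En.n l3106 (nat_lit 9117) (nat_lit 12) (nat_lit 8))
    (@En.n l3 (nat_lit 8234) (nat_lit 13) (nat_lit 14))
    (@En.n l3 (nat_lit 8235) (nat_lit 14) (nat_lit 10))
    (@En.n l5 (nat_lit 9136) (nat_lit 3) (nat_lit 11))
    (@En.n l50 (nat_lit 8232) (nat_lit 4) (nat_lit 2))
    (@En.n l7 (nat_lit 7690) (nat_lit 5) (nat_lit 4))
    (@En.n l12099 (nat_lit 1820) (nat_lit 7) (nat_lit 14))
    (@En.n l9774 (nat_lit 5937) (nat_lit 7) (nat_lit 4))
    (@En.i (nat_lit 8261) (nat_lit 3) (nat_lit 8))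
    (@En.n l7112 (nat_lit 4171) (nat_lit 10) (nat_lit 12))
    (@En.n l9774 (nat_lit 8231) (nat_lit 10) (nat_lit 3))
    (@En.n l3264 (nat_lit 12547) (nat_lit 12) (nat_lit 12))
    (@En.n l24199 (nat_lit 10036) (nat_lit 13) (nat_lit 6))
    (@En.n l19508 (nat_lit 8228) (nat_lit 9) (nat_lit 13))
    (@En.n l3106 (nat_lit 8581) (nat_lit 13) (nat_lit 5))
    (@En.n l17 (nat_lit 8232) (nat_lit 15) (nat_lit 2))))
  (@Cl.mk (nat_lit 0x2000b000e00070002000c0005000d000b00040003000c00090005000e0004) (nat_lit 0x5200001400630b0) (nat_lit 16) Lb.e (@T16.mk En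
    (@En.n l7 (nat_lit 7691) (nat_lit 4) (nat_lit 4))
    (@En.i (nat_lit 1828) (nat_lit 1) (nat_lit 14))
    (@En.n l1034 (nat_lit 2357) (nat_lit 6) (nat_lit 5))
    (@En.i (nat_lit 8262) (nat_lit 3) (nat_lit 9))
    (@En.n l25757 (nat_lit 6273) (nat_lit 9) (nat_lit 12))
    (@En.n l11 (nat_lit 8234) (nat_lit 5) (nat_lit 3))
    (@En.n l1034 (nat_lit 8270) (nat_lit 6) (nat_lit 4))
    (@En.i (nat_lit 6284) (nat_lit 8) (nat_lit 11))
    (@En.n l2690 (nat_lit 816) (nat_lit 9) (nat_lit 13))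
    (@En.n l9774 (nat_lit 8231) (nat_lit 14) (nat_lit 5))
    (@En.n l22397 (nat_lit 9064) (nat_lit 11) (nat_lit 12))
    (@En.n l17 (nat_lit 8233) (nat_lit 11) (nat_lit 2))
    (@En.n l17184 (nat_lit 9110) (nat_lit 13) (nat_lit 7))
    (@En.i (nat_lit 678) (nat_lit 4) (nat_lit 14))
    (@En.n l5 (nat_lit 9443) (nat_lit 2) (nat_lit 11))
    (@En.n l50 (nat_lit 8233) (nat_lit 15) (nat_lit 2))))
  (@Cl.mk (nat_lit 0x2000b000e00070002000d0005000d0003000c0003000c00090004000e0004) (nat_lit 0x5200a02040120a0) (nat_lit 16) Lb.e (@T16.mk En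
    (@En.n l7 (nat_lit 7689) (nat_lit 4) (nat_lit 4))
    (@En.i (nat_lit 2783) (nat_lit 1) (nat_lit 14))
    (@En.n l1034 (nat_lit 5942) (nat_lit 2) (nat_lit 4))
    (@En.i (nat_lit 8264) (nat_lit 3) (nat_lit 9))
    (@En.i (nat_lit 4170) (nat_lit 9) (nat_lit 12))
    (@En.i (nat_lit 8233) (nat_lit 5) (nat_lit 3))
    (@En.i (nat_lit 11349) (nat_lit 11) (nat_lit 12))
    (@En.n l117 (nat_lit 8235) (nat_lit 7) (nat_lit 3))
    (@En.n l781 (nat_lit 818) (nat_lit 9) (nat_lit 13))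
    (@En.i (nat_lit 8232) (nat_lit 14) (nat_lit 5))
    (@En.i (nat_lit 6402) (nat_lit 11) (nat_lit 13))
    (@En.n l17 (nat_lit 8234) (nat_lit 11) (nat_lit 2))
    (@En.n l17184 (nat_lit 9111) (nat_lit 13) (nat_lit 7))
    (@En.i (nat_lit 681) (nat_lit 4) (nat_lit 14))
    (@En.n l5 (nat_lit 9447) (nat_lit 2) (nat_lit 11))
    (@En.n l50 (nat_lit 8234) (nat_lit 15) (nat_lit 2))))
  (@Cl.mk (nat_lit 0x2000a000e00070002000d000c00060003000c0004000c00090004000e0004) (nat_lit 0x4200b10040120a0) (nat_lit 16) Lb.e (@T16.mk En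
    (@En.n l7 (nat_lit 7693) (nat_lit 4) (nat_lit 4))
    (@En.i (nat_lit 2782) (nat_lit 1) (nat_lit 14))
    (@En.n l6574 (nat_lit 6282) (nat_lit 2) (nat_lit 4))
    (@En.i (nat_lit 8266) (nat_lit 3) (nat_lit 9))
    (@En.i (nat_lit 4174) (nat_lit 9) (nat_lit 12))
    (@En.n l15450 (nat_lit 4628) (nat_lit 5) (nat_lit 4))
    (@En.i (nat_lit 11186) (nat_lit 11) (nat_lit 12))
    (@En.n l152 (nat_lit 8234) (nat_lit 7) (nat_lit 3))
    (@En.i (nat_lit 10035) (nat_lit 8) (nat_lit 6))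
    (@En.n l619 (nat_lit 8233) (nat_lit 10) (nat_lit 12))
    (@En.i (nat_lit 6403) (nat_lit 11) (nat_lit 13))
    (@En.n l17 (nat_lit 8235) (nat_lit 11) (nat_lit 2))
    (@En.i (nat_lit 9112) (nat_lit 13) (nat_lit 7))
    (@En.i (nat_lit 2644) (nat_lit 1) (nat_lit 14))
    (@En.i (nat_lit 9449) (nat_lit 2) (nat_lit 10))
    (@En.n l50 (nat_lit 8235) (nat_lit 15) (nat_lit 2))))
  (@Cl.mk (nat_lit 0x2000d0005000c00030009000c0004000d000a000400030007000b000e0006) (nat_lit 0x400065092000470) (nat_lit 16) Lb.e (@T16.mk En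
    (@En.n l16923 (nat_lit 8367) (nat_lit 4) (nat_lit 6))
    (@En.i (nat_lit 4059) (nat_lit 4) (nat_lit 14))
    (@En.n l245 (nat_lit 8241) (nat_lit 2) (nat_lit 11))
    (@En.n l4172 (nat_lit 8355) (nat_lit 3) (nat_lit 7))
    (@En.n l7 (nat_lit 8358) (nat_lit 4) (nat_lit 3))
    (@En.n l1034 (nat_lit 8228) (nat_lit 0) (nat_lit 4))
    (@En.n l875 (nat_lit 6216) (nat_lit 11) (nat_lit 10))
    (@En.n l5592 (nat_lit 1824) (nat_lit 8) (nat_lit 13))
    (@En.i (nat_lit 8373) (nat_lit 8) (nat_lit 4))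
    (@En.i (nat_lit 8234) (nat_lit 6) (nat_lit 12))
    (@En.n l6172 (nat_lit 1366) (nat_lit 11) (nat_lit 9))
    (@En.n l117 (nat_lit 8238) (nat_lit 11) (nat_lit 3))
    (@En.n l625 (nat_lit 8295) (nat_lit 0) (nat_lit 12))
    (@En.i (nat_lit 8237) (nat_lit 14) (nat_lit 5))
    (@En.n l16924 (nat_lit 8242) (nat_lit 2) (nat_lit 13))
    (@En.n l17 (nat_lit 8236) (nat_lit 15) (nat_lit 2))))
  (@Cl.mk (nat_lit 0x20005000c00060009000c0004000d0009000400030007000b000a000e0007) (nat_lit 0x90570820003480) (nat_lit 16) Lb.e (@T16.mk En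
    (@En.n l32381 (nat_lit 8480) (nat_lit 11) (nat_lit 7))
    (@En.n l3 (nat_lit 8236) (nat_lit 1) (nat_lit 14))
    (@En.n l3 (nat_lit 8238) (nat_lit 2) (nat_lit 10))
    (@En.n l245 (nat_lit 8239) (nat_lit 3) (nat_lit 11))
    (@En.n l4172 (nat_lit 8356) (nat_lit 4) (nat_lit 7))
    (@En.n l7 (nat_lit 8359) (nat_lit 5) (nat_lit 3))
    (@En.n l21786 (nat_lit 8230) (nat_lit 6) (nat_lit 4))
    (@En.n l875 (nat_lit 6218) (nat_lit 8) (nat_lit 9))
    (@En.n l12099 (nat_lit 1822) (nat_lit 9) (nat_lit 13))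
    (@En.n l21786 (nat_lit 8376) (nat_lit 9) (nat_lit 4))
    (@En.i (nat_lit 8232) (nat_lit 11) (nat_lit 12))
    (@En.n l17725 (nat_lit 2744) (nat_lit 12) (nat_lit 9))
    (@En.n l19375 (nat_lit 6052) (nat_lit 13) (nat_lit 6))
    (@En.n l32382 (nat_lit 8378) (nat_lit 14) (nat_lit 12))
    (@En.n l32383 (nat_lit 7630) (nat_lit 13) (nat_lit 5))
    (@En.n l17 (nat_lit 8237) (nat_lit 15) (nat_lit 2))))
  (@Cl.mk (nat_lit 0x2000d000b000600030009000c0005000d000a000400030007000a000e0006) (nat_lit 0x380065092000370) (nat_lit 16) Lb.e (@T16.mk En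
    (@En.i (nat_lit 8366) (nat_lit 4) (nat_lit 6))
    (@En.i (nat_lit 4063) (nat_lit 1) (nat_lit 14))
    (@En.n l7889 (nat_lit 7533) (nat_lit 8) (nat_lit 10))
    (@En.n l4172 (nat_lit 8354) (nat_lit 3) (nat_lit 7))
    (@En.n l7 (nat_lit 8357) (nat_lit 4) (nat_lit 3))
    (@En.n l6574 (nat_lit 8229) (nat_lit 0) (nat_lit 4))
    (@En.i (nat_lit 6217) (nat_lit 11) (nat_lit 10))
    (@En.n l5592 (nat_lit 1827) (nat_lit 8) (nat_lit 13))
    (@En.n l6574 (nat_lit 8380) (nat_lit 8) (nat_lit 5))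
    (@En.i (nat_lit 8235) (nat_lit 6) (nat_lit 12))
    (@En.n l1690 (nat_lit 8237) (nat_lit 11) (nat_lit 9))
    (@En.n l152 (nat_lit 8236) (nat_lit 11) (nat_lit 3))
    (@En.n l8604 (nat_lit 6056) (nat_lit 0) (nat_lit 6))
    (@En.n l619 (nat_lit 8379) (nat_lit 14) (nat_lit 11))
    (@En.n l8604 (nat_lit 7623) (nat_lit 2) (nat_lit 13))
    (@En.n l17 (nat_lit 8238) (nat_lit 15) (nat_lit 2))))
  (@Cl.mk (nat_lit 0x20005000d000c00070003000c0004000d000a00040003000b0009000e0006) (nat_lit 0x49008093002170) (nat_lit 16) Lb.e (@T16.mk En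
    (@En.n l3147 (nat_lit 8481) (nat_lit 5) (nat_lit 6))
    (@En.n l3 (nat_lit 8241) (nat_lit 1) (nat_lit 14))
    (@En.n l3 (nat_lit 4622) (nat_lit 2) (nat_lit 9))
    (@En.n l6116 (nat_lit 7901) (nat_lit 3) (nat_lit 11))
    (@En.n l50 (nat_lit 8342) (nat_lit 4) (nat_lit 3))
    (@En.n l9774 (nat_lit 8231) (nat_lit 5) (nat_lit 4))
    (@En.n l217 (nat_lit 9756) (nat_lit 7) (nat_lit 10))
    (@En.i (nat_lit 1818) (nat_lit 8) (nat_lit 13))
    (@En.n l28795 (nat_lit 8348) (nat_lit 8) (nat_lit 4))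
    (@En.n l287 (nat_lit 9136) (nat_lit 10) (nat_lit 12))
    (@En.n l11 (nat_lit 8240) (nat_lit 10) (nat_lit 3))
    (@En.n l10215 (nat_lit 6031) (nat_lit 12) (nat_lit 7))
    (@En.n l55 (nat_lit 8327) (nat_lit 13) (nat_lit 12))
    (@En.n l19439 (nat_lit 8238) (nat_lit 14) (nat_lit 13))
    (@En.n l3106 (nat_lit 8334) (nat_lit 13) (nat_lit 5))
    (@En.n l17 (nat_lit 8239) (nat_lit 15) (nat_lit 2))))
noncomputable def a515 : T16 Cl := @T16.mk Cl
  (@Cl.mk (nat_lit 0x20005000d0006000d0003000c0003000d000a00040003000b000a000e0006) (nat_lit 0x50208093009470) (nat_lit 16) Lb.e (@T16.mk En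
    (@En.n l3147 (nat_lit 8482) (nat_lit 5) (nat_lit 6))
    (@En.n l3 (nat_lit 8298) (nat_lit 1) (nat_lit 14))
    (@En.n l3 (nat_lit 4629) (nat_lit 2) (nat_lit 10))
    (@En.n l5 (nat_lit 8621) (nat_lit 3) (nat_lit 11))
    (@En.n l50 (nat_lit 7454) (nat_lit 4) (nat_lit 3))
    (@En.i (nat_lit 8232) (nat_lit 5) (nat_lit 4))
    (@En.n l217 (nat_lit 9755) (nat_lit 7) (nat_lit 10))
    (@En.i (nat_lit 1823) (nat_lit 8) (nat_lit 13))
    (@En.i (nat_lit 8327) (nat_lit 8) (nat_lit 3))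
    (@En.i (nat_lit 11567) (nat_lit 10) (nat_lit 12))
    (@En.i (nat_lit 8239) (nat_lit 10) (nat_lit 3))
    (@En.i (nat_lit 7364) (nat_lit 12) (nat_lit 13))
    (@En.i (nat_lit 9028) (nat_lit 13) (nat_lit 6))
    (@En.n l3105 (nat_lit 8236) (nat_lit 14) (nat_lit 13))
    (@En.n l3106 (nat_lit 8333) (nat_lit 13) (nat_lit 5))
    (@En.n l17 (nat_lit 8240) (nat_lit 15) (nat_lit 2))))
  (@Cl.mk (nat_lit 0x2000c0005000d000c00040003000c0004000d000b00040003000b000e0005) (nat_lit 0xa0b00060a300360) (nat_lit 16) Lb.e (@T16.mk En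
    (@En.n l3147 (nat_lit 8535) (nat_lit 6) (nat_lit 5))
    (@En.i (nat_lit 3831) (nat_lit 4) (nat_lit 14))
    (@En.n l5 (nat_lit 7903) (nat_lit 2) (nat_lit 11))
    (@En.n l50 (nat_lit 8301) (nat_lit 3) (nat_lit 3))
    (@En.i (nat_lit 8233) (nat_lit 0) (nat_lit 4))
    (@En.n l217 (nat_lit 9754) (nat_lit 6) (nat_lit 11))
    (@En.i (nat_lit 1829) (nat_lit 7) (nat_lit 13))
    (@En.n l11 (nat_lit 8371) (nat_lit 7) (nat_lit 4))
    (@En.n l287 (nat_lit 9447) (nat_lit 9) (nat_lit 12))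
    (@En.n l11 (nat_lit 8298) (nat_lit 9) (nat_lit 3))
    (@En.i (nat_lit 7533) (nat_lit 0) (nat_lit 4))
    (@En.n l55 (nat_lit 8326) (nat_lit 12) (nat_lit 12))
    (@En.n l3447 (nat_lit 4063) (nat_lit 13) (nat_lit 13))
    (@En.i (nat_lit 8239) (nat_lit 14) (nat_lit 5))
    (@En.i (nat_lit 9177) (nat_lit 11) (nat_lit 12))
    (@En.n l17 (nat_lit 8241) (nat_lit 15) (nat_lit 2))))
  (@Cl.mk (nat_lit 0x300060009000c0005000d000a000400030007000c000a0006000d0004000b) (nat_lit 0x310b1000830300) (nat_lit 16) Lb.e (@T16.mk En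
    (@En.n l8769 (nat_lit 9493) (nat_lit 0) (nat_lit 11))
    (@En.n l6680 (nat_lit 7636) (nat_lit 9) (nat_lit 4))
    (@En.n l5549 (nat_lit 8244) (nat_lit 11) (nat_lit 13))
    (@En.n l17393 (nat_lit 10469) (nat_lit 3) (nat_lit 6))
    (@En.n l24372 (nat_lit 7620) (nat_lit 4) (nat_lit 10))
    (@En.n l31130 (nat_lit 9177) (nat_lit 14) (nat_lit 12))
    (@En.n l612 (nat_lit 8243) (nat_lit 6) (nat_lit 7))
    (@En.n l50 (nat_lit 7625) (nat_lit 7) (nat_lit 3))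
    (@En.n l5694 (nat_lit 7607) (nat_lit 0) (nat_lit 4))
    (@En.n l18910 (nat_lit 6220) (nat_lit 10) (nat_lit 10))
    (@En.n l2586 (nat_lit 7284) (nat_lit 1) (nat_lit 13))
    (@En.i (nat_lit 8436) (nat_lit 3) (nat_lit 5))
    (@En.n l24372 (nat_lit 6402) (nat_lit 6) (nat_lit 12))
    (@En.i (nat_lit 8610) (nat_lit 9) (nat_lit 9))
    (@En.n l7504 (nat_lit 8237) (nat_lit 12) (nat_lit 6))
    (@En.n l17779 (nat_lit 7623) (nat_lit 15) (nat_lit 3))))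
  (@Cl.mk (nat_lit 0x300060009000d000c00060003000b00040007000c000a0005000d0004000a) (nat_lit 0x31200100840300) (nat_lit 16) Lb.e (@T16.mk En
    (@En.n l20934 (nat_lit 9500) (nat_lit 0) (nat_lit 10))
    (@En.n l36250 (nat_lit 7635) (nat_lit 7) (nat_lit 4))
    (@En.n l17 (nat_lit 8245) (nat_lit 9) (nat_lit 13))
    (@En.n l18910 (nat_lit 10214) (nat_lit 3) (nat_lit 5))
    (@En.n l24372 (nat_lit 7619) (nat_lit 4) (nat_lit 10))
    (@En.n l31130 (nat_lit 9176) (nat_lit 12) (nat_lit 12))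
    (@En.n l1208 (nat_lit 5524) (nat_lit 11) (nat_lit 7))
    (@En.n l5694 (nat_lit 5463) (nat_lit 7) (nat_lit 4))
    (@En.n l38030 (nat_lit 6219) (nat_lit 0) (nat_lit 11))
    (@En.n l7 (nat_lit 7625) (nat_lit 9) (nat_lit 3))
    (@En.i (nat_lit 9300) (nat_lit 0) (nat_lit 6))
    (@En.n l644 (nat_lit 8242) (nat_lit 12) (nat_lit 12))
    (@En.n l24372 (nat_lit 4327) (nat_lit 13) (nat_lit 13))
    (@En.i (nat_lit 8531) (nat_lit 9) (nat_lit 9))
    (@En.n l7504 (nat_lit 8356) (nat_lit 12) (nat_lit 6))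
    (@En.n l17779 (nat_lit 7622) (nat_lit 15) (nat_lit 3))))
  (@Cl.mk (nat_lit 0x30007000d000a000d0003000a0003000a00060009000c0006000d00060004) (nat_lit 0x83200000410200) (nat_lit 16) Lb.e (@T16.mk En
    (@En.i (nat_lit 5483) (nat_lit 0) (nat_lit 4))
    (@En.n l13963 (nat_lit 10367) (nat_lit 0) (nat_lit 6))
    (@En.n l5856 (nat_lit 4345) (nat_lit 1) (nat_lit 13))
    (@En.n l217 (nat_lit 8434) (nat_lit 3) (nat_lit 6))
    (@En.n l1643 (nat_lit 6399) (nat_lit 6) (nat_lit 12))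
    (@En.n l5856 (nat_lit 4383) (nat_lit 9) (nat_lit 9))
    (@En.n l13772 (nat_lit 8242) (nat_lit 14) (nat_lit 6))
    (@En.i (nat_lit 10581) (nat_lit 13) (nat_lit 10))
    (@En.n l615 (nat_lit 8254) (nat_lit 8) (nat_lit 3))
    (@En.n l5856 (nat_lit 9528) (nat_lit 0) (nat_lit 10))
    (@En.n l33429 (nat_lit 8251) (nat_lit 10) (nat_lit 3))
    (@En.n l1643 (nat_lit 6073) (nat_lit 0) (nat_lit 13))
    (@En.i (nat_lit 8248) (nat_lit 13) (nat_lit 10))
    (@En.i (nat_lit 10139) (nat_lit 2) (nat_lit 13))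
    (@En.n l41037 (nat_lit 8245) (nat_lit 12) (nat_lit 7))
    (@En.n l14126 (nat_lit 8246) (nat_lit 13) (nat_lit 3))))
  (@Cl.mk (nat_lit 0x3000700040007000d000a000d000300090003000900060009000d000c0007) (nat_lit 0x832000004720) (nat_lit 16) Lb.e (@T16.mk En
    (@En.n l4809 (nat_lit 8824) (nat_lit 0) (nat_lit 7))
    (@En.n l18476 (nat_lit 8244) (nat_lit 4) (nat_lit 12))
    (@En.n l13702 (nat_lit 10146) (nat_lit 12) (nat_lit 13))
    (@En.i (nat_lit 4384) (nat_lit 9) (nat_lit 9))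
    (@En.i (nat_lit 8243) (nat_lit 14) (nat_lit 6))
    (@En.n l37945 (nat_lit 10583) (nat_lit 5) (nat_lit 9))
    (@En.n l6942 (nat_lit 8253) (nat_lit 6) (nat_lit 3))
    (@En.n l5572 (nat_lit 9522) (nat_lit 0) (nat_lit 9))
    (@En.n l36250 (nat_lit 8250) (nat_lit 8) (nat_lit 3))
    (@En.n l37946 (nat_lit 6072) (nat_lit 0) (nat_lit 13))
    (@En.n l37947 (nat_lit 8247) (nat_lit 11) (nat_lit 10))
    (@En.n l25030 (nat_lit 10137) (nat_lit 12) (nat_lit 13))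
    (@En.n l16585 (nat_lit 5514) (nat_lit 11) (nat_lit 7))
    (@En.n l5694 (nat_lit 5477) (nat_lit 4) (nat_lit 4))
    (@En.n l37948 (nat_lit 10368) (nat_lit 0) (nat_lit 7))
    (@En.n l7 (nat_lit 8246) (nat_lit 15) (nat_lit 3))))
  (@Cl.mk (nat_lit 0x3000700030007000d000a000d0003000a0003000900060009000d0006000d) (nat_lit 0x23207000310b) (nat_lit 16) Lb.e (@T16.mk En
    (@En.n l1722 (nat_lit 7214) (nat_lit 0) (nat_lit 13))
    (@En.i (nat_lit 9076) (nat_lit 3) (nat_lit 6))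
    (@En.n l18910 (nat_lit 4334) (nat_lit 12) (nat_lit 13))
    (@En.i (nat_lit 4387) (nat_lit 9) (nat_lit 9))
    (@En.i (nat_lit 7625) (nat_lit 14) (nat_lit 6))
    (@En.n l61 (nat_lit 10586) (nat_lit 5) (nat_lit 9))
    (@En.n l18477 (nat_lit 8255) (nat_lit 6) (nat_lit 3))
    (@En.i (nat_lit 9529) (nat_lit 0) (nat_lit 10))
    (@En.n l6680 (nat_lit 8252) (nat_lit 8) (nat_lit 3))
    (@En.n l13702 (nat_lit 5651) (nat_lit 0) (nat_lit 13))
    (@En.n l28511 (nat_lit 8249) (nat_lit 13) (nat_lit 10))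
    (@En.n l25030 (nat_lit 10138) (nat_lit 12) (nat_lit 13))
    (@En.n l14056 (nat_lit 5515) (nat_lit 12) (nat_lit 7))
    (@En.n l5694 (nat_lit 8244) (nat_lit 15) (nat_lit 3))
    (@En.n l14058 (nat_lit 11239) (nat_lit 0) (nat_lit 7))
    (@En.i (nat_lit 8245) (nat_lit 15) (nat_lit 3))))
  (@Cl.mk (nat_lit 0x3000800040007000a000d000b000800030008000600050009000d000c0008) (nat_lit 0x250000005800) (nat_lit 16) Lb.e (@T16.mk En
    (@En.i (nat_lit 8828) (nat_lit 0) (nat_lit 8))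
    (@En.n l37648 (nat_lit 8248) (nat_lit 4) (nat_lit 12))
    (@En.n l25090 (nat_lit 10171) (nat_lit 11) (nat_lit 13))
    (@En.n l37649 (nat_lit 8245) (nat_lit 3) (nat_lit 9))
    (@En.i (nat_lit 8250) (nat_lit 4) (nat_lit 5))
    (@En.n l25087 (nat_lit 7619) (nat_lit 14) (nat_lit 6))
    (@En.n l4819 (nat_lit 10585) (nat_lit 6) (nat_lit 8))
    (@En.n l37650 (nat_lit 12149) (nat_lit 7) (nat_lit 3))
    (@En.n l13883 (nat_lit 9523) (nat_lit 0) (nat_lit 8))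
    (@En.n l37651 (nat_lit 12154) (nat_lit 10) (nat_lit 11))
    (@En.n l3866 (nat_lit 12233) (nat_lit 5) (nat_lit 13))
    (@En.n l11468 (nat_lit 8690) (nat_lit 8) (nat_lit 10))
    (@En.n l1723 (nat_lit 5519) (nat_lit 11) (nat_lit 7))
    (@En.n l36716 (nat_lit 5489) (nat_lit 5) (nat_lit 4))
    (@En.i (nat_lit 10365) (nat_lit 0) (nat_lit 8))
    (@En.n l29444 (nat_lit 8249) (nat_lit 1) (nat_lit 3))))
  (@Cl.mk (nat_lit 0x30007000a000d000b000900030009000600050009000c0007000d00070004) (nat_lit 0x260000005a0200) (nat_lit 16) Lb.e (@T16.mk En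
    (@En.i (nat_lit 5493) (nat_lit 0) (nat_lit 4))
    (@En.n l13963 (nat_lit 10366) (nat_lit 0) (nat_lit 7))
    (@En.n l32356 (nat_lit 4347) (nat_lit 1) (nat_lit 13))
    (@En.n l5326 (nat_lit 8429) (nat_lit 3) (nat_lit 7))
    (@En.n l1643 (nat_lit 8584) (nat_lit 6) (nat_lit 12))
    (@En.n l3 (nat_lit 8244) (nat_lit 5) (nat_lit 9))
    (@En.n l32357 (nat_lit 8251) (nat_lit 6) (nat_lit 5))
    (@En.n l32358 (nat_lit 7620) (nat_lit 14) (nat_lit 6))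
    (@En.n l32359 (nat_lit 10580) (nat_lit 9) (nat_lit 9))
    (@En.n l32360 (nat_lit 12150) (nat_lit 9) (nat_lit 3))
    (@En.n l12752 (nat_lit 9526) (nat_lit 0) (nat_lit 9))
    (@En.n l32361 (nat_lit 12155) (nat_lit 12) (nat_lit 11))
    (@En.n l1644 (nat_lit 12144) (nat_lit 5) (nat_lit 13))
    (@En.n l32362 (nat_lit 8682) (nat_lit 8) (nat_lit 10))
    (@En.n l32363 (nat_lit 8247) (nat_lit 12) (nat_lit 7))
    (@En.n l32364 (nat_lit 8249) (nat_lit 15) (nat_lit 3))))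
  (@Cl.mk (nat_lit 0x30007000a000d000b000900030008000600050009000d0007000d00030008) (nat_lit 0x26060000480200) (nat_lit 16) Lb.e (@T16.mk En
    (@En.i (nat_lit 11240) (nat_lit 0) (nat_lit 8))
    (@En.n l11294 (nat_lit 8247) (nat_lit 15) (nat_lit 3))
    (@En.n l5592 (nat_lit 7215) (nat_lit 0) (nat_lit 13))
    (@En.i (nat_lit 9077) (nat_lit 3) (nat_lit 7))
    (@En.i (nat_lit 10191) (nat_lit 11) (nat_lit 13))
    (@En.n l26177 (nat_lit 8246) (nat_lit 3) (nat_lit 9))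
    (@En.n l5646 (nat_lit 8252) (nat_lit 4) (nat_lit 5))
    (@En.n l17 (nat_lit 7621) (nat_lit 14) (nat_lit 6))
    (@En.i (nat_lit 10588) (nat_lit 6) (nat_lit 8))
    (@En.n l830 (nat_lit 12148) (nat_lit 9) (nat_lit 3))
    (@En.n l619 (nat_lit 9894) (nat_lit 0) (nat_lit 9))
    (@En.n l22618 (nat_lit 12131) (nat_lit 12) (nat_lit 11))
    (@En.n l3670 (nat_lit 12146) (nat_lit 5) (nat_lit 13))
    (@En.n l7889 (nat_lit 8685) (nat_lit 8) (nat_lit 10))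
    (@En.n l4172 (nat_lit 5518) (nat_lit 12) (nat_lit 7))
    (@En.n l16899 (nat_lit 8248) (nat_lit 15) (nat_lit 3))))
  (@Cl.mk (nat_lit 0x3000700040007000d000c000b000300090004000900050009000d000c0007) (nat_lit 0x381000003420) (nat_lit 16) Lb.e (@T16.mk En
    (@En.i (nat_lit 9362) (nat_lit 0) (nat_lit 7))
    (@En.n l5838 (nat_lit 8251) (nat_lit 4) (nat_lit 12))
    (@En.n l15662 (nat_lit 8857) (nat_lit 10) (nat_lit 13))
    (@En.n l15890 (nat_lit 4386) (nat_lit 10) (nat_lit 9))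
    (@En.i (nat_lit 7635) (nat_lit 4) (nat_lit 5))
    (@En.n l899 (nat_lit 10584) (nat_lit 5) (nat_lit 9))
    (@En.n l6042 (nat_lit 12153) (nat_lit 6) (nat_lit 4))
    (@En.i (nat_lit 8836) (nat_lit 0) (nat_lit 9))
    (@En.n l38280 (nat_lit 8245) (nat_lit 8) (nat_lit 3))
    (@En.n l619 (nat_lit 7597) (nat_lit 0) (nat_lit 11))
    (@En.n l3866 (nat_lit 8253) (nat_lit 11) (nat_lit 12))
    (@En.n l11434 (nat_lit 10134) (nat_lit 12) (nat_lit 13))
    (@En.n l1723 (nat_lit 5517) (nat_lit 11) (nat_lit 7))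
    (@En.n l6042 (nat_lit 5480) (nat_lit 4) (nat_lit 4))
    (@En.i (nat_lit 11764) (nat_lit 0) (nat_lit 7))
    (@En.n l15414 (nat_lit 8252) (nat_lit 15) (nat_lit 3))))
  (@Cl.mk (nat_lit 0x30007000d000c000b0003000a0004000a00050009000c0006000d00060004) (nat_lit 0x48003000310200) (nat_lit 16) Lb.e (@T16.mk En
    (@En.n l7 (nat_lit 5481) (nat_lit 0) (nat_lit 4))
    (@En.n l7910 (nat_lit 10369) (nat_lit 0) (nat_lit 6))
    (@En.i (nat_lit 4340) (nat_lit 1) (nat_lit 13))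
    (@En.n l396 (nat_lit 8783) (nat_lit 3) (nat_lit 6))
    (@En.i (nat_lit 6400) (nat_lit 6) (nat_lit 12))
    (@En.n l8234 (nat_lit 4382) (nat_lit 10) (nat_lit 9))
    (@En.n l9890 (nat_lit 7636) (nat_lit 6) (nat_lit 5))
    (@En.n l8145 (nat_lit 10582) (nat_lit 13) (nat_lit 10))
    (@En.n l1208 (nat_lit 12152) (nat_lit 8) (nat_lit 4))
    (@En.i (nat_lit 9554) (nat_lit 10) (nat_lit 10))
    (@En.n l32470 (nat_lit 8244) (nat_lit 10) (nat_lit 3))
    (@En.n l619 (nat_lit 12158) (nat_lit 0) (nat_lit 11))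
    (@En.n l12094 (nat_lit 8254) (nat_lit 13) (nat_lit 12))
    (@En.n l18223 (nat_lit 10136) (nat_lit 2) (nat_lit 13))
    (@En.n l6204 (nat_lit 8250) (nat_lit 12) (nat_lit 7))
    (@En.n l32471 (nat_lit 8252) (nat_lit 13) (nat_lit 3))))
  (@Cl.mk (nat_lit 0x3000700030007000d000c000b0003000a0004000900050009000d0006000d) (nat_lit 0x380000003502) (nat_lit 16) Lb.e (@T16.mk En
    (@En.n l1723 (nat_lit 7212) (nat_lit 0) (nat_lit 13))
    (@En.n l30685 (nat_lit 8787) (nat_lit 3) (nat_lit 6))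
    (@En.n l3589 (nat_lit 8874) (nat_lit 10) (nat_lit 13))
    (@En.i (nat_lit 4388) (nat_lit 10) (nat_lit 9))
    (@En.i (nat_lit 7637) (nat_lit 6) (nat_lit 5))
    (@En.n l41325 (nat_lit 10587) (nat_lit 5) (nat_lit 9))
    (@En.n l41326 (nat_lit 12151) (nat_lit 6) (nat_lit 4))
    (@En.n l41327 (nat_lit 9553) (nat_lit 0) (nat_lit 10))
    (@En.n l6962 (nat_lit 8246) (nat_lit 8) (nat_lit 3))
    (@En.n l22642 (nat_lit 12157) (nat_lit 0) (nat_lit 11))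
    (@En.n l41328 (nat_lit 8255) (nat_lit 11) (nat_lit 12))
    (@En.n l41329 (nat_lit 10135) (nat_lit 12) (nat_lit 13))
    (@En.n l32547 (nat_lit 5516) (nat_lit 12) (nat_lit 7))
    (@En.n l22686 (nat_lit 8251) (nat_lit 15) (nat_lit 3))
    (@En.n l41330 (nat_lit 11236) (nat_lit 0) (nat_lit 7))
    (@En.n l34049 (nat_lit 8250) (nat_lit 15) (nat_lit 3))))
  (@Cl.mk (nat_lit 0x3000700040007000c000a000d000800040003000900060009000d000c0008) (nat_lit 0x731000004720) (nat_lit 16) Lb.e (@T16.mk En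
    (@En.i (nat_lit 9363) (nat_lit 0) (nat_lit 8))
    (@En.n l27030 (nat_lit 8254) (nat_lit 4) (nat_lit 12))
    (@En.n l17285 (nat_lit 10147) (nat_lit 12) (nat_lit 13))
    (@En.n l17288 (nat_lit 4385) (nat_lit 9) (nat_lit 9))
    (@En.n l33174 (nat_lit 7622) (nat_lit 14) (nat_lit 6))
    (@En.n l6080 (nat_lit 10600) (nat_lit 5) (nat_lit 9))
    (@En.n l33175 (nat_lit 8245) (nat_lit 6) (nat_lit 3))
    (@En.n l18 (nat_lit 12133) (nat_lit 0) (nat_lit 4))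
    (@En.n l6081 (nat_lit 10310) (nat_lit 0) (nat_lit 8))
    (@En.i (nat_lit 3255) (nat_lit 5) (nat_lit 13))
    (@En.n l33176 (nat_lit 12149) (nat_lit 11) (nat_lit 10))
    (@En.n l2572 (nat_lit 11795) (nat_lit 12) (nat_lit 12))
    (@En.n l7471 (nat_lit 5513) (nat_lit 11) (nat_lit 7))
    (@En.n l17285 (nat_lit 5486) (nat_lit 6) (nat_lit 4))
    (@En.n l4019 (nat_lit 10364) (nat_lit 0) (nat_lit 7))
    (@En.n l23647 (nat_lit 8255) (nat_lit 15) (nat_lit 3))))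
  (@Cl.mk (nat_lit 0x30007000c000a000d000900040003000a00060009000c0007000d00060004) (nat_lit 0x73100000410200) (nat_lit 16) Lb.e (@T16.mk En
    (@En.i (nat_lit 5494) (nat_lit 0) (nat_lit 4))
    (@En.n l28106 (nat_lit 10363) (nat_lit 0) (nat_lit 6))
    (@En.n l8631 (nat_lit 4349) (nat_lit 1) (nat_lit 13))
    (@En.n l5022 (nat_lit 10676) (nat_lit 3) (nat_lit 7))
    (@En.i (nat_lit 6401) (nat_lit 6) (nat_lit 12))
    (@En.n l28107 (nat_lit 4381) (nat_lit 9) (nat_lit 9))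
    (@En.n l18328 (nat_lit 7623) (nat_lit 14) (nat_lit 6))
    (@En.n l28108 (nat_lit 10597) (nat_lit 8) (nat_lit 10))
    (@En.n l731 (nat_lit 8244) (nat_lit 8) (nat_lit 3))
    (@En.n l20805 (nat_lit 12156) (nat_lit 0) (nat_lit 4))
    (@En.n l28109 (nat_lit 10311) (nat_lit 11) (nat_lit 9))
    (@En.i (nat_lit 3250) (nat_lit 5) (nat_lit 13))
    (@En.n l28110 (nat_lit 12150) (nat_lit 13) (nat_lit 10))
    (@En.n l28111 (nat_lit 11828) (nat_lit 14) (nat_lit 12))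
    (@En.n l27716 (nat_lit 8253) (nat_lit 12) (nat_lit 7))
    (@En.n l28112 (nat_lit 8255) (nat_lit 13) (nat_lit 3))))
  (@Cl.mk (nat_lit 0x3000700030007000c000a000d000900040003000900060009000d0007000d) (nat_lit 0x731000004702) (nat_lit 16) Lb.e (@T16.mk En
    (@En.n l19476 (nat_lit 7211) (nat_lit 0) (nat_lit 13))
    (@En.i (nat_lit 10670) (nat_lit 3) (nat_lit 7))
    (@En.n l2611 (nat_lit 10148) (nat_lit 12) (nat_lit 13))
    (@En.n l19477 (nat_lit 4389) (nat_lit 9) (nat_lit 9))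
    (@En.n l17 (nat_lit 7624) (nat_lit 14) (nat_lit 6))
    (@En.i (nat_lit 10603) (nat_lit 5) (nat_lit 9))
    (@En.n l19478 (nat_lit 8246) (nat_lit 6) (nat_lit 3))
    (@En.i (nat_lit 12128) (nat_lit 0) (nat_lit 4))
    (@En.n l19477 (nat_lit 10707) (nat_lit 11) (nat_lit 9))
    (@En.n l19423 (nat_lit 5650) (nat_lit 5) (nat_lit 13))
    (@En.n l11 (nat_lit 12148) (nat_lit 13) (nat_lit 10))
    (@En.n l159 (nat_lit 11797) (nat_lit 12) (nat_lit 12))
    (@En.n l19479 (nat_lit 5512) (nat_lit 12) (nat_lit 7))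
    (@En.n l19480 (nat_lit 8254) (nat_lit 15) (nat_lit 3))
    (@En.n l19481 (nat_lit 11237) (nat_lit 0) (nat_lit 7))
    (@En.n l19482 (nat_lit 8253) (nat_lit 15) (nat_lit 3))))
noncomputable def a516 : T16 Cl := @T16.mk Cl
  (@Cl.mk (nat_lit 0x200060009000d000800060003000d000b00070003000a00080005000e000a) (nat_lit 0x27600a500640a3) (nat_lit 16) Lb.e (@T16.mk En
    (@En.n l10487 (nat_lit 6813) (nat_lit 11) (nat_lit 10))
    (@En.n l10488 (nat_lit 1096) (nat_lit 1) (nat_lit 14))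
    (@En.n l3681 (nat_lit 8467) (nat_lit 2) (nat_lit 5))
    (@En.n l1843 (nat_lit 6803) (nat_lit 3) (nat_lit 8))
    (@En.n l4829 (nat_lit 8258) (nat_lit 4) (nat_lit 10))
    (@En.n l10489 (nat_lit 8257) (nat_lit 5) (nat_lit 3))
    (@En.n l10490 (nat_lit 6512) (nat_lit 6) (nat_lit 7))
    (@En.n l77 (nat_lit 8475) (nat_lit 8) (nat_lit 11))
    (@En.n l10491 (nat_lit 8136) (nat_lit 9) (nat_lit 13))
    (@En.n l1843 (nat_lit 7678) (nat_lit 9) (nat_lit 3))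
    (@En.n l4570 (nat_lit 8238) (nat_lit 0) (nat_lit 6))
    (@En.n l10492 (nat_lit 8142) (nat_lit 12) (nat_lit 8))
    (@En.n l1843 (nat_lit 6161) (nat_lit 13) (nat_lit 13))
    (@En.n l3464 (nat_lit 8915) (nat_lit 9) (nat_lit 9))
    (@En.n l3947 (nat_lit 6151) (nat_lit 8) (nat_lit 6))
    (@En.n l18 (nat_lit 8256) (nat_lit 15) (nat_lit 2))))
  (@Cl.mk (nat_lit 0x20006000a000d000800060003000d0006000c0003000a00080004000e000a) (nat_lit 0x866009030730a3) (nat_lit 16) Lb.e (@T16.mk En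
    (@En.n l6802 (nat_lit 6811) (nat_lit 11) (nat_lit 10))
    (@En.n l6803 (nat_lit 1093) (nat_lit 1) (nat_lit 14))
    (@En.n l6804 (nat_lit 8470) (nat_lit 2) (nat_lit 4))
    (@En.i (nat_lit 6799) (nat_lit 3) (nat_lit 8))
    (@En.n l6805 (nat_lit 6624) (nat_lit 4) (nat_lit 10))
    (@En.n l6806 (nat_lit 8256) (nat_lit 5) (nat_lit 3))
    (@En.n l6804 (nat_lit 8525) (nat_lit 7) (nat_lit 12))
    (@En.n l6807 (nat_lit 8258) (nat_lit 7) (nat_lit 6))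
    (@En.n l6808 (nat_lit 8133) (nat_lit 9) (nat_lit 13))
    (@En.i (nat_lit 7677) (nat_lit 9) (nat_lit 3))
    (@En.n l3971 (nat_lit 8236) (nat_lit 0) (nat_lit 6))
    (@En.n l6809 (nat_lit 9344) (nat_lit 12) (nat_lit 8))
    (@En.i (nat_lit 6160) (nat_lit 13) (nat_lit 13))
    (@En.n l6810 (nat_lit 8262) (nat_lit 14) (nat_lit 10))
    (@En.n l6811 (nat_lit 6152) (nat_lit 8) (nat_lit 6))
    (@En.n l7 (nat_lit 8257) (nat_lit 15) (nat_lit 2))))
  (@Cl.mk (nat_lit 0x20006000a0009000d0009000700030006000c0007000a00070004000e0009) (nat_lit 0x83770005050093) (nat_lit 16) Lb.e (@T16.mk En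
    (@En.n l16912 (nat_lit 6812) (nat_lit 8) (nat_lit 9))
    (@En.n l8122 (nat_lit 1095) (nat_lit 1) (nat_lit 14))
    (@En.i (nat_lit 8469) (nat_lit 2) (nat_lit 4))
    (@En.n l16913 (nat_lit 1716) (nat_lit 3) (nat_lit 7))
    (@En.n l8122 (nat_lit 6627) (nat_lit 4) (nat_lit 10))
    (@En.n l11235 (nat_lit 6509) (nat_lit 5) (nat_lit 7))
    (@En.n l13008 (nat_lit 8472) (nat_lit 7) (nat_lit 12))
    (@En.n l16914 (nat_lit 9838) (nat_lit 7) (nat_lit 6))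
    (@En.n l16913 (nat_lit 7679) (nat_lit 8) (nat_lit 3))
    (@En.n l16915 (nat_lit 8237) (nat_lit 0) (nat_lit 7))
    (@En.n l16916 (nat_lit 9343) (nat_lit 11) (nat_lit 9))
    (@En.n l16917 (nat_lit 8257) (nat_lit 12) (nat_lit 13))
    (@En.n l5144 (nat_lit 8256) (nat_lit 13) (nat_lit 9))
    (@En.n l16918 (nat_lit 8259) (nat_lit 14) (nat_lit 10))
    (@En.n l16919 (nat_lit 6153) (nat_lit 5) (nat_lit 6))
    (@En.n l17 (nat_lit 8258) (nat_lit 15) (nat_lit 2))))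
  (@Cl.mk (nat_lit 0x2000a0008000d0008000600030006000d000c0008000300080004000e000a) (nat_lit 0x7236000b62020a3) (nat_lit 16) Lb.e (@T16.mk En
    (@En.n l217 (nat_lit 9964) (nat_lit 12) (nat_lit 10))
    (@En.n l18482 (nat_lit 1094) (nat_lit 1) (nat_lit 14))
    (@En.n l19507 (nat_lit 8269) (nat_lit 2) (nat_lit 4))
    (@En.n l845 (nat_lit 9350) (nat_lit 3) (nat_lit 8))
    (@En.n l11 (nat_lit 8261) (nat_lit 4) (nat_lit 3))
    (@En.n l7791 (nat_lit 6501) (nat_lit 0) (nat_lit 8))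
    (@En.n l55 (nat_lit 8260) (nat_lit 7) (nat_lit 12))
    (@En.n l19508 (nat_lit 8256) (nat_lit 8) (nat_lit 13))
    (@En.n l3106 (nat_lit 7143) (nat_lit 12) (nat_lit 6))
    (@En.n l763 (nat_lit 8864) (nat_lit 9) (nat_lit 3))
    (@En.i (nat_lit 8239) (nat_lit 0) (nat_lit 6))
    (@En.n l19509 (nat_lit 9341) (nat_lit 12) (nat_lit 8))
    (@En.n l3 (nat_lit 8262) (nat_lit 13) (nat_lit 13))
    (@En.n l3 (nat_lit 8267) (nat_lit 14) (nat_lit 8))
    (@En.n l19510 (nat_lit 12477) (nat_lit 4) (nat_lit 10))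
    (@En.n l50 (nat_lit 8259) (nat_lit 15) (nat_lit 2))))
  (@Cl.mk (nat_lit 0x2000a0009000d0009000600030006000c0007000d000700040003000e000a) (nat_lit 0x8033000506000a0) (nat_lit 16) Lb.e (@T16.mk En
    (@En.n l217 (nat_lit 9966) (nat_lit 14) (nat_lit 10))
    (@En.n l24196 (nat_lit 8258) (nat_lit 1) (nat_lit 14))
    (@En.n l28 (nat_lit 8261) (nat_lit 2) (nat_lit 3))
    (@En.n l24197 (nat_lit 8887) (nat_lit 3) (nat_lit 4))
    (@En.i (nat_lit 6485) (nat_lit 4) (nat_lit 7))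
    (@En.n l24198 (nat_lit 4862) (nat_lit 6) (nat_lit 13))
    (@En.n l24199 (nat_lit 7972) (nat_lit 6) (nat_lit 7))
    (@En.n l24198 (nat_lit 8470) (nat_lit 8) (nat_lit 12))
    (@En.n l3106 (nat_lit 7142) (nat_lit 12) (nat_lit 6))
    (@En.n l763 (nat_lit 8860) (nat_lit 9) (nat_lit 3))
    (@En.i (nat_lit 8327) (nat_lit 0) (nat_lit 6))
    (@En.n l24200 (nat_lit 9345) (nat_lit 12) (nat_lit 9))
    (@En.n l3 (nat_lit 8263) (nat_lit 13) (nat_lit 13))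
    (@En.n l3 (nat_lit 8265) (nat_lit 14) (nat_lit 9))
    (@En.n l24201 (nat_lit 12478) (nat_lit 4) (nat_lit 10))
    (@En.n l50 (nat_lit 8260) (nat_lit 15) (nat_lit 2))))
  (@Cl.mk (nat_lit 0x2000a0009000d0008000600030006000d0007000d000300080003000e000a) (nat_lit 0x8035000a05010a3) (nat_lit 16) Lb.e (@T16.mk En
    (@En.n l217 (nat_lit 9965) (nat_lit 12) (nat_lit 10))
    (@En.i (nat_lit 1091) (nat_lit 1) (nat_lit 14))
    (@En.i (nat_lit 8260) (nat_lit 2) (nat_lit 3))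
    (@En.n l27235 (nat_lit 6458) (nat_lit 3) (nat_lit 8))
    (@En.i (nat_lit 8259) (nat_lit 4) (nat_lit 3))
    (@En.n l11560 (nat_lit 4865) (nat_lit 0) (nat_lit 13))
    (@En.i (nat_lit 7971) (nat_lit 6) (nat_lit 7))
    (@En.n l32268 (nat_lit 8257) (nat_lit 8) (nat_lit 13))
    (@En.n l3106 (nat_lit 7145) (nat_lit 12) (nat_lit 6))
    (@En.n l763 (nat_lit 8862) (nat_lit 9) (nat_lit 3))
    (@En.i (nat_lit 8240) (nat_lit 0) (nat_lit 6))
    (@En.n l21012 (nat_lit 9340) (nat_lit 12) (nat_lit 8))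
    (@En.n l3 (nat_lit 8264) (nat_lit 13) (nat_lit 13))
    (@En.n l3 (nat_lit 8266) (nat_lit 14) (nat_lit 9))
    (@En.n l22315 (nat_lit 12476) (nat_lit 4) (nat_lit 10))
    (@En.n l50 (nat_lit 8261) (nat_lit 15) (nat_lit 2))))
  (@Cl.mk (nat_lit 0x2000a000d000700050003000c0006000d000c0004000300090004000e000b) (nat_lit 0x7200090160020b3) (nat_lit 16) Lb.e (@T16.mk En
    (@En.n l217 (nat_lit 9968) (nat_lit 12) (nat_lit 11))
    (@En.i (nat_lit 1092) (nat_lit 1) (nat_lit 14))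
    (@En.n l8137 (nat_lit 8268) (nat_lit 2) (nat_lit 4))
    (@En.n l845 (nat_lit 9349) (nat_lit 3) (nat_lit 9))
    (@En.n l11 (nat_lit 8264) (nat_lit 4) (nat_lit 3))
    (@En.i (nat_lit 8915) (nat_lit 0) (nat_lit 4))
    (@En.n l55 (nat_lit 8263) (nat_lit 7) (nat_lit 12))
    (@En.n l8138 (nat_lit 6161) (nat_lit 8) (nat_lit 13))
    (@En.i (nat_lit 8259) (nat_lit 8) (nat_lit 6))
    (@En.n l3928 (nat_lit 9836) (nat_lit 10) (nat_lit 12))
    (@En.n l763 (nat_lit 8863) (nat_lit 10) (nat_lit 3))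
    (@En.i (nat_lit 8241) (nat_lit 0) (nat_lit 5))
    (@En.n l1545 (nat_lit 9143) (nat_lit 13) (nat_lit 7))
    (@En.i (nat_lit 3809) (nat_lit 14) (nat_lit 13))
    (@En.n l765 (nat_lit 8617) (nat_lit 10) (nat_lit 10))
    (@En.n l50 (nat_lit 8262) (nat_lit 15) (nat_lit 2))))
  (@Cl.mk (nat_lit 0x2000a000d000800050003000d0006000c0003000d000800040003000e000b) (nat_lit 0x7220050507300b4) (nat_lit 16) Lb.e (@T16.mk En
    (@En.n l217 (nat_lit 9969) (nat_lit 14) (nat_lit 11))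
    (@En.n l1546 (nat_lit 8257) (nat_lit 1) (nat_lit 14))
    (@En.n l28 (nat_lit 8264) (nat_lit 2) (nat_lit 3))
    (@En.n l1166 (nat_lit 8886) (nat_lit 3) (nat_lit 4))
    (@En.i (nat_lit 6488) (nat_lit 4) (nat_lit 8))
    (@En.n l10368 (nat_lit 4863) (nat_lit 6) (nat_lit 13))
    (@En.n l117 (nat_lit 8265) (nat_lit 6) (nat_lit 3))
    (@En.n l1166 (nat_lit 8522) (nat_lit 8) (nat_lit 12))
    (@En.i (nat_lit 8260) (nat_lit 8) (nat_lit 6))
    (@En.n l3928 (nat_lit 10241) (nat_lit 10) (nat_lit 13))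
    (@En.n l763 (nat_lit 8859) (nat_lit 10) (nat_lit 3))
    (@En.i (nat_lit 8326) (nat_lit 0) (nat_lit 5))
    (@En.n l1545 (nat_lit 10202) (nat_lit 13) (nat_lit 8))
    (@En.i (nat_lit 3733) (nat_lit 5) (nat_lit 13))
    (@En.n l765 (nat_lit 8615) (nat_lit 12) (nat_lit 10))
    (@En.n l50 (nat_lit 8263) (nat_lit 15) (nat_lit 2))))
  (@Cl.mk (nat_lit 0x2000a000d000700050003000d0006000d0003000d000300090003000e000b) (nat_lit 0x7200040106010b3) (nat_lit 16) Lb.e (@T16.mk En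
    (@En.n l217 (nat_lit 9967) (nat_lit 12) (nat_lit 11))
    (@En.i (nat_lit 1090) (nat_lit 1) (nat_lit 14))
    (@En.i (nat_lit 8263) (nat_lit 2) (nat_lit 3))
    (@En.i (nat_lit 6459) (nat_lit 3) (nat_lit 9))
    (@En.i (nat_lit 8262) (nat_lit 4) (nat_lit 3))
    (@En.i (nat_lit 4866) (nat_lit 0) (nat_lit 13))
    (@En.n l117 (nat_lit 8266) (nat_lit 6) (nat_lit 3))
    (@En.n l6838 (nat_lit 6160) (nat_lit 8) (nat_lit 13))
    (@En.i (nat_lit 8261) (nat_lit 8) (nat_lit 6))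
    (@En.n l3928 (nat_lit 10244) (nat_lit 10) (nat_lit 13))
    (@En.n l763 (nat_lit 8861) (nat_lit 10) (nat_lit 3))
    (@En.i (nat_lit 8298) (nat_lit 0) (nat_lit 5))
    (@En.n l1545 (nat_lit 9144) (nat_lit 13) (nat_lit 7))
    (@En.i (nat_lit 3814) (nat_lit 5) (nat_lit 13))
    (@En.n l765 (nat_lit 8616) (nat_lit 12) (nat_lit 10))
    (@En.n l50 (nat_lit 8264) (nat_lit 15) (nat_lit 2))))
  (@Cl.mk (nat_lit 0x20009000d000800050003000d000b00070003000d000800050003000e000b) (nat_lit 0x7220044002200b0) (nat_lit 16) Lb.e (@T16.mk En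
    (@En.n l217 (nat_lit 9971) (nat_lit 14) (nat_lit 11))
    (@En.n l6567 (nat_lit 8256) (nat_lit 1) (nat_lit 14))
    (@En.n l28 (nat_lit 8266) (nat_lit 2) (nat_lit 3))
    (@En.n l6568 (nat_lit 7977) (nat_lit 3) (nat_lit 5))
    (@En.i (nat_lit 6490) (nat_lit 4) (nat_lit 8))
    (@En.n l5975 (nat_lit 12158) (nat_lit 6) (nat_lit 13))
    (@En.n l152 (nat_lit 8263) (nat_lit 6) (nat_lit 3))
    (@En.n l6569 (nat_lit 7968) (nat_lit 7) (nat_lit 7))
    (@En.n l6570 (nat_lit 8268) (nat_lit 9) (nat_lit 11))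
    (@En.n l6571 (nat_lit 10242) (nat_lit 10) (nat_lit 13))
    (@En.n l763 (nat_lit 8858) (nat_lit 10) (nat_lit 3))
    (@En.i (nat_lit 8328) (nat_lit 0) (nat_lit 5))
    (@En.n l1545 (nat_lit 10203) (nat_lit 13) (nat_lit 8))
    (@En.i (nat_lit 3874) (nat_lit 14) (nat_lit 13))
    (@En.n l6569 (nat_lit 9540) (nat_lit 12) (nat_lit 9))
    (@En.n l50 (nat_lit 8265) (nat_lit 15) (nat_lit 2))))
  (@Cl.mk (nat_lit 0x20009000d000700050003000d000c00070003000d000400090003000e000b) (nat_lit 0x720004a003010b3) (nat_lit 16) Lb.e (@T16.mk En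
    (@En.n l217 (nat_lit 9970) (nat_lit 14) (nat_lit 11))
    (@En.i (nat_lit 1089) (nat_lit 1) (nat_lit 14))
    (@En.i (nat_lit 8265) (nat_lit 2) (nat_lit 3))
    (@En.n l15955 (nat_lit 6460) (nat_lit 3) (nat_lit 9))
    (@En.i (nat_lit 8267) (nat_lit 4) (nat_lit 4))
    (@En.i (nat_lit 12157) (nat_lit 6) (nat_lit 13))
    (@En.n l152 (nat_lit 8264) (nat_lit 6) (nat_lit 3))
    (@En.i (nat_lit 7966) (nat_lit 7) (nat_lit 7))
    (@En.n l619 (nat_lit 8262) (nat_lit 9) (nat_lit 12))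
    (@En.i (nat_lit 10243) (nat_lit 10) (nat_lit 13))
    (@En.n l763 (nat_lit 8850) (nat_lit 10) (nat_lit 3))
    (@En.i (nat_lit 4629) (nat_lit 0) (nat_lit 5))
    (@En.n l1545 (nat_lit 9145) (nat_lit 13) (nat_lit 7))
    (@En.i (nat_lit 3815) (nat_lit 14) (nat_lit 13))
    (@En.n l765 (nat_lit 9539) (nat_lit 12) (nat_lit 9))
    (@En.n l50 (nat_lit 8266) (nat_lit 15) (nat_lit 2))))
  (@Cl.mk (nat_lit 0x20008000d000700050003000c000c000b00080004000400090005000e000b) (nat_lit 0x120000a510070b2) (nat_lit 16) Lb.e (@T16.mk En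
    (@En.n l217 (nat_lit 7370) (nat_lit 11) (nat_lit 11))
    (@En.i (nat_lit 1097) (nat_lit 1) (nat_lit 14))
    (@En.n l15035 (nat_lit 6764) (nat_lit 2) (nat_lit 5))
    (@En.n l845 (nat_lit 9352) (nat_lit 3) (nat_lit 9))
    (@En.n l1964 (nat_lit 8844) (nat_lit 4) (nat_lit 4))
    (@En.n l152 (nat_lit 8262) (nat_lit 5) (nat_lit 4))
    (@En.n l10986 (nat_lit 4011) (nat_lit 6) (nat_lit 8))
    (@En.n l55 (nat_lit 8265) (nat_lit 8) (nat_lit 11))
    (@En.n l619 (nat_lit 8915) (nat_lit 4) (nat_lit 12))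
    (@En.i (nat_lit 9837) (nat_lit 10) (nat_lit 12))
    (@En.n l763 (nat_lit 8846) (nat_lit 10) (nat_lit 3))
    (@En.i (nat_lit 4622) (nat_lit 0) (nat_lit 5))
    (@En.n l1545 (nat_lit 8720) (nat_lit 13) (nat_lit 7))
    (@En.i (nat_lit 3807) (nat_lit 14) (nat_lit 13))
    (@En.n l15036 (nat_lit 7955) (nat_lit 3) (nat_lit 8))
    (@En.n l50 (nat_lit 8267) (nat_lit 15) (nat_lit 2))))
  (@Cl.mk (nat_lit 0x2000a000d000900050003000b0006000c000c0007000500040004000e000b) (nat_lit 0x6270030350000b0) (nat_lit 16) Lb.e (@T16.mk En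
    (@En.n l10496 (nat_lit 8893) (nat_lit 13) (nat_lit 11))
    (@En.n l8115 (nat_lit 8475) (nat_lit 1) (nat_lit 14))
    (@En.n l1959 (nat_lit 8928) (nat_lit 12) (nat_lit 4))
    (@En.n l10497 (nat_lit 8263) (nat_lit 3) (nat_lit 4))
    (@En.i (nat_lit 6315) (nat_lit 4) (nat_lit 5))
    (@En.n l10498 (nat_lit 6489) (nat_lit 5) (nat_lit 7))
    (@En.n l2337 (nat_lit 8886) (nat_lit 7) (nat_lit 12))
    (@En.i (nat_lit 8477) (nat_lit 8) (nat_lit 12))
    (@En.n l10499 (nat_lit 8269) (nat_lit 8) (nat_lit 6))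
    (@En.n l10500 (nat_lit 8476) (nat_lit 10) (nat_lit 11))
    (@En.n l11 (nat_lit 8865) (nat_lit 10) (nat_lit 3))
    (@En.n l10497 (nat_lit 8371) (nat_lit 0) (nat_lit 5))
    (@En.i (nat_lit 7653) (nat_lit 13) (nat_lit 9))
    (@En.n l387 (nat_lit 3729) (nat_lit 5) (nat_lit 13))
    (@En.i (nat_lit 7856) (nat_lit 3) (nat_lit 10))
    (@En.n l3 (nat_lit 8268) (nat_lit 15) (nat_lit 2))))
  (@Cl.mk (nat_lit 0x2000a0007000d000a000600030006000c000c0006000900040004000e000a) (nat_lit 0x6038000240400b5) (nat_lit 16) Lb.e (@T16.mk En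
    (@En.n l13779 (nat_lit 8892) (nat_lit 13) (nat_lit 10))
    (@En.n l3786 (nat_lit 8473) (nat_lit 1) (nat_lit 14))
    (@En.n l16110 (nat_lit 8929) (nat_lit 12) (nat_lit 4))
    (@En.n l14754 (nat_lit 8260) (nat_lit 3) (nat_lit 4))
    (@En.n l2900 (nat_lit 3224) (nat_lit 9) (nat_lit 9))
    (@En.n l77 (nat_lit 6487) (nat_lit 5) (nat_lit 6))
    (@En.n l16111 (nat_lit 8887) (nat_lit 7) (nat_lit 12))
    (@En.n l11455 (nat_lit 8467) (nat_lit 8) (nat_lit 12))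
    (@En.i (nat_lit 7138) (nat_lit 8) (nat_lit 6))
    (@En.n l16112 (nat_lit 8866) (nat_lit 9) (nat_lit 3))
    (@En.n l2900 (nat_lit 8348) (nat_lit 0) (nat_lit 6))
    (@En.n l16113 (nat_lit 8476) (nat_lit 12) (nat_lit 10))
    (@En.n l16114 (nat_lit 8268) (nat_lit 13) (nat_lit 13))
    (@En.n l6977 (nat_lit 6764) (nat_lit 14) (nat_lit 7))
    (@En.n l16115 (nat_lit 7848) (nat_lit 4) (nat_lit 10))
    (@En.n l17 (nat_lit 8269) (nat_lit 15) (nat_lit 2))))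
  (@Cl.mk (nat_lit 0x2000a000e00070002000c00090006000e00040002000c00090007000e0004) (nat_lit 0x5300a20100640b0) (nat_lit 16) Lb.e (@T16.mk En
    (@En.n l14921 (nat_lit 7536) (nat_lit 4) (nat_lit 4))
    (@En.n l25365 (nat_lit 2700) (nat_lit 1) (nat_lit 14))
    (@En.i (nat_lit 812) (nat_lit 2) (nat_lit 7))
    (@En.n l2094 (nat_lit 8915) (nat_lit 14) (nat_lit 9))
    (@En.n l564 (nat_lit 9367) (nat_lit 9) (nat_lit 12))
    (@En.n l7 (nat_lit 8270) (nat_lit 5) (nat_lit 2))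
    (@En.n l28 (nat_lit 4628) (nat_lit 6) (nat_lit 4))
    (@En.n l561 (nat_lit 817) (nat_lit 8) (nat_lit 14))
    (@En.n l360 (nat_lit 2134) (nat_lit 8) (nat_lit 6))
    (@En.i (nat_lit 1192) (nat_lit 14) (nat_lit 9))
    (@En.i (nat_lit 12106) (nat_lit 11) (nat_lit 12))
    (@En.n l107 (nat_lit 8270) (nat_lit 11) (nat_lit 2))
    (@En.n l11644 (nat_lit 8271) (nat_lit 13) (nat_lit 7))
    (@En.n l2094 (nat_lit 679) (nat_lit 8) (nat_lit 14))
    (@En.i (nat_lit 9302) (nat_lit 2) (nat_lit 10))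
    (@En.n l17 (nat_lit 8270) (nat_lit 15) (nat_lit 2))))
  (@Cl.mk (nat_lit 0x2000b00070007000c00080005000e00040002000b000900090008000e0005) (nat_lit 0x600010b006452b0) (nat_lit 16) Lb.e (@T16.mk En
    (@En.n l29002 (nat_lit 8273) (nat_lit 9) (nat_lit 5))
    (@En.n l29003 (nat_lit 2702) (nat_lit 1) (nat_lit 14))
    (@En.n l1769 (nat_lit 8511) (nat_lit 2) (nat_lit 8))
    (@En.n l2667 (nat_lit 8270) (nat_lit 3) (nat_lit 9))
    (@En.n l3928 (nat_lit 8721) (nat_lit 14) (nat_lit 9))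
    (@En.n l4361 (nat_lit 9369) (nat_lit 6) (nat_lit 11))
    (@En.n l11 (nat_lit 8271) (nat_lit 6) (nat_lit 2))
    (@En.n l29004 (nat_lit 8272) (nat_lit 7) (nat_lit 4))
    (@En.n l5559 (nat_lit 1969) (nat_lit 9) (nat_lit 14))
    (@En.n l21917 (nat_lit 2135) (nat_lit 9) (nat_lit 5))
    (@En.n l10629 (nat_lit 1609) (nat_lit 3) (nat_lit 8))
    (@En.n l3928 (nat_lit 11890) (nat_lit 12) (nat_lit 12))
    (@En.n l29005 (nat_lit 8274) (nat_lit 9) (nat_lit 7))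
    (@En.n l4356 (nat_lit 6871) (nat_lit 14) (nat_lit 7))
    (@En.n l29006 (nat_lit 8275) (nat_lit 8) (nat_lit 11))
    (@En.n l50 (nat_lit 8271) (nat_lit 15) (nat_lit 2))))
noncomputable def a517 : T16 Cl := @T16.mk Cl
  (@Cl.mk (nat_lit 0x2000a00070007000c000c0009000600040004000b000900090007000e0005) (nat_lit 0x6007120008010b0) (nat_lit 16) Lb.e (@T16.mk En
    (@En.n l23643 (nat_lit 8277) (nat_lit 8) (nat_lit 5))
    (@En.n l19824 (nat_lit 2687) (nat_lit 1) (nat_lit 14))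
    (@En.n l28844 (nat_lit 8516) (nat_lit 2) (nat_lit 7))
    (@En.n l527 (nat_lit 4628) (nat_lit 3) (nat_lit 9))
    (@En.n l28845 (nat_lit 8720) (nat_lit 4) (nat_lit 9))
    (@En.n l28846 (nat_lit 9375) (nat_lit 6) (nat_lit 11))
    (@En.n l20897 (nat_lit 8194) (nat_lit 6) (nat_lit 4))
    (@En.n l13219 (nat_lit 9110) (nat_lit 7) (nat_lit 4))
    (@En.n l20687 (nat_lit 2132) (nat_lit 8) (nat_lit 6))
    (@En.n l4380 (nat_lit 6252) (nat_lit 10) (nat_lit 9))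
    (@En.n l36012 (nat_lit 8271) (nat_lit 11) (nat_lit 12))
    (@En.n l36013 (nat_lit 11044) (nat_lit 12) (nat_lit 12))
    (@En.n l36014 (nat_lit 8279) (nat_lit 9) (nat_lit 7))
    (@En.n l36015 (nat_lit 6673) (nat_lit 14) (nat_lit 7))
    (@En.n l21734 (nat_lit 9260) (nat_lit 7) (nat_lit 10))
    (@En.n l17 (nat_lit 8272) (nat_lit 15) (nat_lit 2))))
  (@Cl.mk (nat_lit 0x2000b000b000a000a000900050005000b00060006000c00070005000e0004) (nat_lit 0x570120050050080) (nat_lit 16) Lb.e (@T16.mk En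
    (@En.n l4172 (nat_lit 8277) (nat_lit 15) (nat_lit 4))
    (@En.n l6749 (nat_lit 1966) (nat_lit 1) (nat_lit 14))
    (@En.n l4172 (nat_lit 2457) (nat_lit 2) (nat_lit 5))
    (@En.n l31111 (nat_lit 1620) (nat_lit 3) (nat_lit 7))
    (@En.n l31112 (nat_lit 11886) (nat_lit 5) (nat_lit 12))
    (@En.n l31113 (nat_lit 8276) (nat_lit 10) (nat_lit 6))
    (@En.i (nat_lit 6875) (nat_lit 6) (nat_lit 6))
    (@En.n l476 (nat_lit 6897) (nat_lit 8) (nat_lit 11))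
    (@En.n l152 (nat_lit 8285) (nat_lit 11) (nat_lit 5))
    (@En.n l31114 (nat_lit 7537) (nat_lit 9) (nat_lit 5))
    (@En.n l77 (nat_lit 8509) (nat_lit 11) (nat_lit 9))
    (@En.n l55 (nat_lit 7536) (nat_lit 6) (nat_lit 10))
    (@En.n l31115 (nat_lit 9391) (nat_lit 13) (nat_lit 10))
    (@En.n l5864 (nat_lit 8271) (nat_lit 5) (nat_lit 11))
    (@En.i (nat_lit 8826) (nat_lit 14) (nat_lit 11))
    (@En.n l17 (nat_lit 8273) (nat_lit 15) (nat_lit 2))))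
  (@Cl.mk (nat_lit 0x20009000e00060002000c0007000c00070004000e00040002000a000e0009) (nat_lit 0x310060000b00655) (nat_lit 16) Lb.e (@T16.mk En
    (@En.n l28727 (nat_lit 8271) (nat_lit 4) (nat_lit 9))
    (@En.i (nat_lit 5329) (nat_lit 6) (nat_lit 14))
    (@En.n l5891 (nat_lit 9629) (nat_lit 2) (nat_lit 10))
    (@En.n l11 (nat_lit 8274) (nat_lit 3) (nat_lit 2))
    (@En.n l1992 (nat_lit 8279) (nat_lit 4) (nat_lit 4))
    (@En.n l28789 (nat_lit 1962) (nat_lit 1) (nat_lit 14))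
    (@En.i (nat_lit 2458) (nat_lit 2) (nat_lit 4))
    (@En.n l5994 (nat_lit 1651) (nat_lit 7) (nat_lit 7))
    (@En.n l11107 (nat_lit 12496) (nat_lit 9) (nat_lit 12))
    (@En.i (nat_lit 11232) (nat_lit 14) (nat_lit 7))
    (@En.n l4817 (nat_lit 8280) (nat_lit 11) (nat_lit 12))
    (@En.n l17 (nat_lit 8274) (nat_lit 11) (nat_lit 2))
    (@En.n l8258 (nat_lit 8276) (nat_lit 13) (nat_lit 6))
    (@En.n l17568 (nat_lit 2495) (nat_lit 10) (nat_lit 14))
    (@En.n l29000 (nat_lit 8281) (nat_lit 11) (nat_lit 9))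
    (@En.n l7 (nat_lit 8274) (nat_lit 15) (nat_lit 2))))
  (@Cl.mk (nat_lit 0x2000b000a000a000900080005000b00060006000b000700050008000e0005) (nat_lit 0x768230500500390) (nat_lit 16) Lb.e (@T16.mk En
    (@En.n l15376 (nat_lit 9260) (nat_lit 15) (nat_lit 5))
    (@En.n l40855 (nat_lit 8273) (nat_lit 1) (nat_lit 14))
    (@En.n l40856 (nat_lit 2981) (nat_lit 10) (nat_lit 8))
    (@En.n l40857 (nat_lit 3461) (nat_lit 3) (nat_lit 5))
    (@En.n l13316 (nat_lit 1199) (nat_lit 4) (nat_lit 7))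
    (@En.n l40858 (nat_lit 11880) (nat_lit 6) (nat_lit 11))
    (@En.n l26012 (nat_lit 8280) (nat_lit 10) (nat_lit 6))
    (@En.n l2150 (nat_lit 8220) (nat_lit 7) (nat_lit 6))
    (@En.i (nat_lit 6896) (nat_lit 9) (nat_lit 11))
    (@En.n l40859 (nat_lit 6897) (nat_lit 9) (nat_lit 5))
    (@En.n l12394 (nat_lit 6713) (nat_lit 11) (nat_lit 8))
    (@En.n l13321 (nat_lit 8380) (nat_lit 12) (nat_lit 9))
    (@En.n l28351 (nat_lit 9302) (nat_lit 6) (nat_lit 10))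
    (@En.n l7393 (nat_lit 7960) (nat_lit 14) (nat_lit 10))
    (@En.i (nat_lit 9368) (nat_lit 4) (nat_lit 11))
    (@En.n l17 (nat_lit 8275) (nat_lit 15) (nat_lit 2))))
  (@Cl.mk (nat_lit 0x2000a00060006000c0006000c00060004000e00040002000a000a000e000a) (nat_lit 0x30060000a005761) (nat_lit 16) Lb.e (@T16.mk En
    (@En.n l22370 (nat_lit 8273) (nat_lit 12) (nat_lit 10))
    (@En.i (nat_lit 5612) (nat_lit 13) (nat_lit 14))
    (@En.n l17986 (nat_lit 8274) (nat_lit 2) (nat_lit 10))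
    (@En.i (nat_lit 9628) (nat_lit 3) (nat_lit 10))
    (@En.n l50 (nat_lit 8276) (nat_lit 4) (nat_lit 2))
    (@En.n l22371 (nat_lit 8278) (nat_lit 5) (nat_lit 4))
    (@En.n l22372 (nat_lit 1958) (nat_lit 1) (nat_lit 14))
    (@En.n l28 (nat_lit 2453) (nat_lit 2) (nat_lit 4))
    (@En.n l22373 (nat_lit 1649) (nat_lit 3) (nat_lit 6))
    (@En.i (nat_lit 12490) (nat_lit 10) (nat_lit 12))
    (@En.n l19511 (nat_lit 7929) (nat_lit 5) (nat_lit 6))
    (@En.n l22374 (nat_lit 9251) (nat_lit 7) (nat_lit 12))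
    (@En.n l4787 (nat_lit 8287) (nat_lit 13) (nat_lit 6))
    (@En.n l18896 (nat_lit 8663) (nat_lit 14) (nat_lit 6))
    (@En.n l22375 (nat_lit 8282) (nat_lit 10) (nat_lit 10))
    (@En.n l17 (nat_lit 8276) (nat_lit 15) (nat_lit 2))))
  (@Cl.mk (nat_lit 0x40004000b000b000a000a000800050005000a00060006000c000c00080006) (nat_lit 0x49015005000620) (nat_lit 16) Lb.e (@T16.mk En
    (@En.n l2869 (nat_lit 2456) (nat_lit 0) (nat_lit 6))
    (@En.n l40644 (nat_lit 5916) (nat_lit 1) (nat_lit 8))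
    (@En.n l5653 (nat_lit 8273) (nat_lit 4) (nat_lit 12))
    (@En.n l40645 (nat_lit 11043) (nat_lit 3) (nat_lit 12))
    (@En.n l40646 (nat_lit 8278) (nat_lit 10) (nat_lit 6))
    (@En.i (nat_lit 6883) (nat_lit 5) (nat_lit 6))
    (@En.n l8047 (nat_lit 9257) (nat_lit 10) (nat_lit 10))
    (@En.n l27873 (nat_lit 8286) (nat_lit 11) (nat_lit 5))
    (@En.n l30904 (nat_lit 8670) (nat_lit 8) (nat_lit 5))
    (@En.n l15691 (nat_lit 8506) (nat_lit 0) (nat_lit 8))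
    (@En.n l30569 (nat_lit 4626) (nat_lit 6) (nat_lit 10))
    (@En.n l6971 (nat_lit 9392) (nat_lit 6) (nat_lit 10))
    (@En.n l27138 (nat_lit 8272) (nat_lit 5) (nat_lit 11))
    (@En.n l40647 (nat_lit 9455) (nat_lit 14) (nat_lit 11))
    (@En.n l5332 (nat_lit 8957) (nat_lit 12) (nat_lit 4))
    (@En.n l40648 (nat_lit 9109) (nat_lit 0) (nat_lit 4))))
  (@Cl.mk (nat_lit 0x2000900060006000b0006000c000c0007000500040004000a000a000e000a) (nat_lit 0x600501100000761) (nat_lit 16) Lb.e (@T16.mk En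
    (@En.n l28912 (nat_lit 8277) (nat_lit 11) (nat_lit 10))
    (@En.n l28913 (nat_lit 5588) (nat_lit 1) (nat_lit 14))
    (@En.n l3158 (nat_lit 8279) (nat_lit 2) (nat_lit 10))
    (@En.n l8557 (nat_lit 9510) (nat_lit 3) (nat_lit 10))
    (@En.n l237 (nat_lit 9209) (nat_lit 12) (nat_lit 4))
    (@En.i (nat_lit 9104) (nat_lit 5) (nat_lit 4))
    (@En.n l28913 (nat_lit 2454) (nat_lit 6) (nat_lit 5))
    (@En.n l55 (nat_lit 5911) (nat_lit 7) (nat_lit 7))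
    (@En.n l28914 (nat_lit 8276) (nat_lit 9) (nat_lit 12))
    (@En.n l28913 (nat_lit 5818) (nat_lit 10) (nat_lit 12))
    (@En.n l28915 (nat_lit 7932) (nat_lit 11) (nat_lit 6))
    (@En.n l28916 (nat_lit 9254) (nat_lit 12) (nat_lit 11))
    (@En.n l28917 (nat_lit 8288) (nat_lit 13) (nat_lit 6))
    (@En.i (nat_lit 8664) (nat_lit 14) (nat_lit 6))
    (@En.n l15675 (nat_lit 8283) (nat_lit 0) (nat_lit 9))
    (@En.n l3 (nat_lit 8278) (nat_lit 15) (nat_lit 2))))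
  (@Cl.mk (nat_lit 0x20008000e00060002000b0007000c000c0008000500040004000a000e0009) (nat_lit 0x5a0070612000641) (nat_lit 16) Lb.e (@T16.mk En
    (@En.n l27450 (nat_lit 8272) (nat_lit 4) (nat_lit 9))
    (@En.i (nat_lit 5326) (nat_lit 6) (nat_lit 14))
    (@En.n l287 (nat_lit 9512) (nat_lit 2) (nat_lit 10))
    (@En.n l11 (nat_lit 9210) (nat_lit 3) (nat_lit 4))
    (@En.n l21053 (nat_lit 9115) (nat_lit 4) (nat_lit 4))
    (@En.n l936 (nat_lit 2452) (nat_lit 9) (nat_lit 5))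
    (@En.n l532 (nat_lit 6384) (nat_lit 6) (nat_lit 8))
    (@En.n l2691 (nat_lit 8274) (nat_lit 8) (nat_lit 12))
    (@En.n l7630 (nat_lit 12775) (nat_lit 9) (nat_lit 12))
    (@En.i (nat_lit 11226) (nat_lit 14) (nat_lit 7))
    (@En.i (nat_lit 9253) (nat_lit 11) (nat_lit 11))
    (@En.n l17 (nat_lit 8279) (nat_lit 11) (nat_lit 2))
    (@En.n l2154 (nat_lit 8278) (nat_lit 13) (nat_lit 6))
    (@En.n l5939 (nat_lit 2498) (nat_lit 1) (nat_lit 14))
    (@En.n l27451 (nat_lit 8519) (nat_lit 2) (nat_lit 8))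
    (@En.n l7 (nat_lit 8279) (nat_lit 15) (nat_lit 2))))
  (@Cl.mk (nat_lit 0x2000a00090006000c0006000b000600040007000e00050002000a000e000a) (nat_lit 0x450503000b00737) (nat_lit 16) Lb.e (@T16.mk En
    (@En.n l6220 (nat_lit 8275) (nat_lit 13) (nat_lit 10))
    (@En.n l10976 (nat_lit 3413) (nat_lit 1) (nat_lit 14))
    (@En.n l22356 (nat_lit 9630) (nat_lit 2) (nat_lit 10))
    (@En.n l28 (nat_lit 8280) (nat_lit 3) (nat_lit 2))
    (@En.n l4770 (nat_lit 9253) (nat_lit 4) (nat_lit 5))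
    (@En.n l9657 (nat_lit 8276) (nat_lit 6) (nat_lit 14))
    (@En.n l387 (nat_lit 2984) (nat_lit 11) (nat_lit 7))
    (@En.n l10976 (nat_lit 3463) (nat_lit 3) (nat_lit 4))
    (@En.n l26498 (nat_lit 1401) (nat_lit 4) (nat_lit 6))
    (@En.n l24520 (nat_lit 12714) (nat_lit 10) (nat_lit 11))
    (@En.i (nat_lit 8209) (nat_lit 6) (nat_lit 6))
    (@En.n l24520 (nat_lit 9250) (nat_lit 8) (nat_lit 12))
    (@En.n l22109 (nat_lit 9251) (nat_lit 8) (nat_lit 6))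
    (@En.n l35548 (nat_lit 2538) (nat_lit 14) (nat_lit 9))
    (@En.i (nat_lit 8385) (nat_lit 11) (nat_lit 10))
    (@En.n l18 (nat_lit 8280) (nat_lit 15) (nat_lit 2))))
  (@Cl.mk (nat_lit 0x2000b0006000a0009000e00050002000b0006000b0007000a0005000e0005) (nat_lit 0x400250040507090) (nat_lit 16) Lb.e (@T16.mk En
    (@En.n l41399 (nat_lit 8519) (nat_lit 7) (nat_lit 5))
    (@En.i (nat_lit 7883) (nat_lit 9) (nat_lit 14))
    (@En.n l3902 (nat_lit 8271) (nat_lit 9) (nat_lit 5))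
    (@En.n l12941 (nat_lit 5813) (nat_lit 3) (nat_lit 10))
    (@En.n l24332 (nat_lit 1507) (nat_lit 4) (nat_lit 7))
    (@En.n l41400 (nat_lit 9282) (nat_lit 13) (nat_lit 11))
    (@En.n l7471 (nat_lit 11231) (nat_lit 14) (nat_lit 6))
    (@En.n l41401 (nat_lit 8385) (nat_lit 8) (nat_lit 11))
    (@En.n l11 (nat_lit 8281) (nat_lit 8) (nat_lit 2))
    (@En.n l34513 (nat_lit 8282) (nat_lit 9) (nat_lit 5))
    (@En.n l41400 (nat_lit 8202) (nat_lit 11) (nat_lit 14))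
    (@En.n l644 (nat_lit 8512) (nat_lit 2) (nat_lit 9))
    (@En.n l41402 (nat_lit 8511) (nat_lit 3) (nat_lit 10))
    (@En.n l41403 (nat_lit 5252) (nat_lit 14) (nat_lit 6))
    (@En.n l2125 (nat_lit 10653) (nat_lit 6) (nat_lit 11))
    (@En.n l17 (nat_lit 8281) (nat_lit 15) (nat_lit 2))))
  (@Cl.mk (nat_lit 0x2000b000b0007000b000a00050005000b0005000b000600090005000e0005) (nat_lit 0x650220050406080) (nat_lit 16) Lb.e (@T16.mk En
    (@En.n l31491 (nat_lit 8283) (nat_lit 6) (nat_lit 5))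
    (@En.n l998 (nat_lit 7884) (nat_lit 1) (nat_lit 14))
    (@En.n l5592 (nat_lit 8273) (nat_lit 2) (nat_lit 5))
    (@En.n l37849 (nat_lit 8947) (nat_lit 9) (nat_lit 9))
    (@En.n l30862 (nat_lit 1621) (nat_lit 4) (nat_lit 6))
    (@En.n l16803 (nat_lit 8767) (nat_lit 6) (nat_lit 11))
    (@En.n l6755 (nat_lit 7931) (nat_lit 6) (nat_lit 5))
    (@En.n l37850 (nat_lit 8381) (nat_lit 8) (nat_lit 11))
    (@En.n l152 (nat_lit 8291) (nat_lit 11) (nat_lit 5))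
    (@En.n l9752 (nat_lit 10260) (nat_lit 9) (nat_lit 5))
    (@En.n l8195 (nat_lit 8508) (nat_lit 11) (nat_lit 10))
    (@En.i (nat_lit 8509) (nat_lit 12) (nat_lit 11))
    (@En.n l8762 (nat_lit 7944) (nat_lit 13) (nat_lit 7))
    (@En.n l37851 (nat_lit 8281) (nat_lit 14) (nat_lit 11))
    (@En.n l16718 (nat_lit 8393) (nat_lit 12) (nat_lit 11))
    (@En.n l17 (nat_lit 8282) (nat_lit 15) (nat_lit 2))))
  (@Cl.mk (nat_lit 0x50005000a0005000b000b0007000a000600050005000b000b0006000b0009) (nat_lit 0x30950700005005) (nat_lit 16) Lb.e (@T16.mk En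
    (@En.n l41467 (nat_lit 8507) (nat_lit 0) (nat_lit 9))
    (@En.i (nat_lit 8506) (nat_lit 1) (nat_lit 11))
    (@En.n l41468 (nat_lit 11324) (nat_lit 2) (nat_lit 6))
    (@En.n l601 (nat_lit 8519) (nat_lit 5) (nat_lit 11))
    (@En.n l38272 (nat_lit 9713) (nat_lit 10) (nat_lit 11))
    (@En.n l11 (nat_lit 8199) (nat_lit 11) (nat_lit 5))
    (@En.n l9824 (nat_lit 9055) (nat_lit 11) (nat_lit 5))
    (@En.n l41469 (nat_lit 8277) (nat_lit 0) (nat_lit 6))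
    (@En.n l27713 (nat_lit 5310) (nat_lit 8) (nat_lit 10))
    (@En.i (nat_lit 6353) (nat_lit 2) (nat_lit 7))
    (@En.n l39751 (nat_lit 8282) (nat_lit 5) (nat_lit 11))
    (@En.n l41470 (nat_lit 8894) (nat_lit 3) (nat_lit 11))
    (@En.n l41471 (nat_lit 11224) (nat_lit 5) (nat_lit 5))
    (@En.n l36185 (nat_lit 8389) (nat_lit 10) (nat_lit 10))
    (@En.n l41472 (nat_lit 8292) (nat_lit 11) (nat_lit 5))
    (@En.i (nat_lit 8754) (nat_lit 0) (nat_lit 5))))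
  (@Cl.mk (nat_lit 0x2000b00090004000a000e00050002000c00070006000e00040002000e000c) (nat_lit 0x108b00a00100c6) (nat_lit 16) Lb.e (@T16.mk En
    (@En.i (nat_lit 7536) (nat_lit 8) (nat_lit 12))
    (@En.n l11276 (nat_lit 9531) (nat_lit 1) (nat_lit 14))
    (@En.n l17 (nat_lit 8284) (nat_lit 2) (nat_lit 2))
    (@En.n l8934 (nat_lit 7694) (nat_lit 3) (nat_lit 4))
    (@En.n l998 (nat_lit 812) (nat_lit 1) (nat_lit 14))
    (@En.n l24423 (nat_lit 3455) (nat_lit 5) (nat_lit 6))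
    (@En.n l452 (nat_lit 1632) (nat_lit 14) (nat_lit 7))
    (@En.n l9726 (nat_lit 9188) (nat_lit 8) (nat_lit 12))
    (@En.n l28 (nat_lit 8284) (nat_lit 8) (nat_lit 2))
    (@En.i (nat_lit 8285) (nat_lit 9) (nat_lit 5))
    (@En.i (nat_lit 2676) (nat_lit 11) (nat_lit 14))
    (@En.n l998 (nat_lit 2690) (nat_lit 2) (nat_lit 10))
    (@En.n l1573 (nat_lit 7535) (nat_lit 3) (nat_lit 4))
    (@En.i (nat_lit 814) (nat_lit 14) (nat_lit 9))
    (@En.i (nat_lit 10261) (nat_lit 12) (nat_lit 11))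
    (@En.n l3 (nat_lit 8284) (nat_lit 15) (nat_lit 2))))
  (@Cl.mk (nat_lit 0x2000b000b000a0005000b00050005000c00060005000e00040002000e000b) (nat_lit 0x12030000070046) (nat_lit 16) Lb.e (@T16.mk En
    (@En.i (nat_lit 8273) (nat_lit 14) (nat_lit 11))
    (@En.i (nat_lit 9516) (nat_lit 1) (nat_lit 14))
    (@En.n l17 (nat_lit 8285) (nat_lit 2) (nat_lit 2))
    (@En.n l13375 (nat_lit 8286) (nat_lit 3) (nat_lit 4))
    (@En.n l6749 (nat_lit 1968) (nat_lit 1) (nat_lit 14))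
    (@En.n l16204 (nat_lit 2108) (nat_lit 5) (nat_lit 5))
    (@En.n l16205 (nat_lit 1628) (nat_lit 6) (nat_lit 6))
    (@En.n l2254 (nat_lit 11889) (nat_lit 8) (nat_lit 12))
    (@En.n l16206 (nat_lit 8287) (nat_lit 11) (nat_lit 5))
    (@En.n l11 (nat_lit 7920) (nat_lit 9) (nat_lit 5))
    (@En.n l6749 (nat_lit 2704) (nat_lit 11) (nat_lit 11))
    (@En.n l16207 (nat_lit 7539) (nat_lit 8) (nat_lit 5))
    (@En.n l77 (nat_lit 8293) (nat_lit 13) (nat_lit 10))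
    (@En.n l55 (nat_lit 8284) (nat_lit 14) (nat_lit 11))
    (@En.n l11787 (nat_lit 10752) (nat_lit 12) (nat_lit 11))
    (@En.n l3 (nat_lit 8285) (nat_lit 15) (nat_lit 2))))
  (@Cl.mk (nat_lit 0x2000b000b00090005000a00050005000c000c0007000600040004000e000b) (nat_lit 0x45040021000035) (nat_lit 16) Lb.e (@T16.mk En
    (@En.n l6108 (nat_lit 8277) (nat_lit 13) (nat_lit 11))
    (@En.n l3928 (nat_lit 9503) (nat_lit 1) (nat_lit 14))
    (@En.n l15464 (nat_lit 8557) (nat_lit 12) (nat_lit 4))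
    (@En.n l27702 (nat_lit 8289) (nat_lit 3) (nat_lit 4))
    (@En.n l617 (nat_lit 2106) (nat_lit 4) (nat_lit 6))
    (@En.n l3928 (nat_lit 4442) (nat_lit 5) (nat_lit 7))
    (@En.n l13561 (nat_lit 8285) (nat_lit 7) (nat_lit 12))
    (@En.n l16722 (nat_lit 11042) (nat_lit 8) (nat_lit 12))
    (@En.n l15467 (nat_lit 8288) (nat_lit 11) (nat_lit 5))
    (@En.n l50 (nat_lit 7485) (nat_lit 9) (nat_lit 5))
    (@En.n l50 (nat_lit 2703) (nat_lit 11) (nat_lit 10))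
    (@En.n l11706 (nat_lit 8672) (nat_lit 12) (nat_lit 5))
    (@En.n l9274 (nat_lit 8294) (nat_lit 13) (nat_lit 9))
    (@En.n l28176 (nat_lit 7694) (nat_lit 14) (nat_lit 11))
    (@En.n l3523 (nat_lit 9163) (nat_lit 11) (nat_lit 11))
    (@En.n l28 (nat_lit 8286) (nat_lit 15) (nat_lit 2))))
  (@Cl.mk (nat_lit 0x2000b0006000c0005000c00050004000e00040002000e000a0002000e000b) (nat_lit 0x305000090076071) (nat_lit 16) Lb.e (@T16.mk En
    (@En.n l24835 (nat_lit 8285) (nat_lit 14) (nat_lit 11))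
    (@En.n l9207 (nat_lit 5613) (nat_lit 1) (nat_lit 14))
    (@En.n l107 (nat_lit 8287) (nat_lit 2) (nat_lit 2))
    (@En.n l10676 (nat_lit 8276) (nat_lit 3) (nat_lit 10))
    (@En.n l97 (nat_lit 9519) (nat_lit 1) (nat_lit 14))
    (@En.n l17 (nat_lit 8287) (nat_lit 5) (nat_lit 2))
    (@En.n l3098 (nat_lit 8288) (nat_lit 6) (nat_lit 4))
    (@En.i (nat_lit 1960) (nat_lit 1) (nat_lit 14))
    (@En.n l1255 (nat_lit 4854) (nat_lit 8) (nat_lit 4))
    (@En.n l690 (nat_lit 1629) (nat_lit 9) (nat_lit 5))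
    (@En.n l9264 (nat_lit 12487) (nat_lit 11) (nat_lit 12))
    (@En.n l170 (nat_lit 7924) (nat_lit 8) (nat_lit 5))
    (@En.i (nat_lit 2707) (nat_lit 13) (nat_lit 12))
    (@En.n l448 (nat_lit 7413) (nat_lit 14) (nat_lit 6))
    (@En.n l24836 (nat_lit 8291) (nat_lit 12) (nat_lit 11))
    (@En.n l28 (nat_lit 8287) (nat_lit 15) (nat_lit 2))))
noncomputable def a518 : T16 Cl := @T16.mk Cl
  (@Cl.mk (nat_lit 0x2000a0006000b0005000c000c0006000500040004000e000a0002000e000b) (nat_lit 0x605011000031061) (nat_lit 16) Lb.e (@T16.mk En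
    (@En.n l8025 (nat_lit 8286) (nat_lit 14) (nat_lit 11))
    (@En.n l25287 (nat_lit 5589) (nat_lit 1) (nat_lit 14))
    (@En.n l28 (nat_lit 8288) (nat_lit 2) (nat_lit 2))
    (@En.n l25288 (nat_lit 8278) (nat_lit 3) (nat_lit 10))
    (@En.n l3928 (nat_lit 9504) (nat_lit 1) (nat_lit 14))
    (@En.n l152 (nat_lit 9208) (nat_lit 12) (nat_lit 4))
    (@En.n l18589 (nat_lit 8290) (nat_lit 6) (nat_lit 4))
    (@En.n l25289 (nat_lit 4824) (nat_lit 7) (nat_lit 5))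
    (@En.n l25290 (nat_lit 6562) (nat_lit 8) (nat_lit 6))
    (@En.n l3536 (nat_lit 8287) (nat_lit 10) (nat_lit 12))
    (@En.n l25291 (nat_lit 5812) (nat_lit 11) (nat_lit 12))
    (@En.n l4542 (nat_lit 7926) (nat_lit 8) (nat_lit 5))
    (@En.n l2569 (nat_lit 2550) (nat_lit 13) (nat_lit 11))
    (@En.n l18589 (nat_lit 8666) (nat_lit 14) (nat_lit 6))
    (@En.n l25292 (nat_lit 8292) (nat_lit 12) (nat_lit 10))
    (@En.n l50 (nat_lit 8288) (nat_lit 15) (nat_lit 2))))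
  (@Cl.mk (nat_lit 0x2000b000b00080005000c00050005000c0004000d000800040003000e000b) (nat_lit 0x8140900301300b0) (nat_lit 16) Lb.e (@T16.mk En
    (@En.i (nat_lit 9109) (nat_lit 14) (nat_lit 11))
    (@En.n l31017 (nat_lit 9388) (nat_lit 1) (nat_lit 14))
    (@En.n l7 (nat_lit 7695) (nat_lit 2) (nat_lit 3))
    (@En.n l31018 (nat_lit 8285) (nat_lit 3) (nat_lit 4))
    (@En.i (nat_lit 6565) (nat_lit 4) (nat_lit 8))
    (@En.n l12810 (nat_lit 1967) (nat_lit 6) (nat_lit 13))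
    (@En.n l11579 (nat_lit 9180) (nat_lit 6) (nat_lit 4))
    (@En.n l6080 (nat_lit 8568) (nat_lit 8) (nat_lit 12))
    (@En.n l152 (nat_lit 8290) (nat_lit 11) (nat_lit 5))
    (@En.n l3851 (nat_lit 7815) (nat_lit 9) (nat_lit 5))
    (@En.n l12810 (nat_lit 6746) (nat_lit 11) (nat_lit 12))
    (@En.i (nat_lit 8606) (nat_lit 12) (nat_lit 5))
    (@En.n l9775 (nat_lit 8536) (nat_lit 13) (nat_lit 8))
    (@En.n l3536 (nat_lit 7686) (nat_lit 14) (nat_lit 11))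
    (@En.n l22753 (nat_lit 10804) (nat_lit 12) (nat_lit 11))
    (@En.n l18 (nat_lit 8289) (nat_lit 15) (nat_lit 2))))
  (@Cl.mk (nat_lit 0x200090006000d0005000c0003000d000700040003000e000a0002000e000b) (nat_lit 0x704020100040089) (nat_lit 16) Lb.e (@T16.mk En
    (@En.i (nat_lit 8289) (nat_lit 14) (nat_lit 11))
    (@En.n l6081 (nat_lit 11930) (nat_lit 1) (nat_lit 14))
    (@En.n l18 (nat_lit 8290) (nat_lit 2) (nat_lit 2))
    (@En.n l61 (nat_lit 9104) (nat_lit 3) (nat_lit 10))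
    (@En.n l564 (nat_lit 11519) (nat_lit 1) (nat_lit 14))
    (@En.n l7 (nat_lit 9102) (nat_lit 5) (nat_lit 3))
    (@En.n l1547 (nat_lit 8287) (nat_lit 6) (nat_lit 4))
    (@En.i (nat_lit 6563) (nat_lit 7) (nat_lit 7))
    (@En.n l5537 (nat_lit 1959) (nat_lit 9) (nat_lit 13))
    (@En.i (nat_lit 7835) (nat_lit 9) (nat_lit 3))
    (@En.n l7882 (nat_lit 5817) (nat_lit 11) (nat_lit 12))
    (@En.n l117 (nat_lit 11308) (nat_lit 8) (nat_lit 5))
    (@En.n l7055 (nat_lit 6747) (nat_lit 13) (nat_lit 13))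
    (@En.i (nat_lit 8530) (nat_lit 14) (nat_lit 6))
    (@En.n l6081 (nat_lit 9185) (nat_lit 12) (nat_lit 9))
    (@En.n l3 (nat_lit 8290) (nat_lit 15) (nat_lit 2))))
  (@Cl.mk (nat_lit 0x20008000c000b0005000b0004000b000500080005000e00050002000e000b) (nat_lit 0x442020005070087) (nat_lit 16) Lb.e (@T16.mk En
    (@En.i (nat_lit 8282) (nat_lit 14) (nat_lit 11))
    (@En.n l30859 (nat_lit 9500) (nat_lit 1) (nat_lit 14))
    (@En.n l17 (nat_lit 8291) (nat_lit 2) (nat_lit 2))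
    (@En.n l30860 (nat_lit 8292) (nat_lit 3) (nat_lit 5))
    (@En.n l998 (nat_lit 7886) (nat_lit 5) (nat_lit 14))
    (@En.n l5592 (nat_lit 8285) (nat_lit 5) (nat_lit 5))
    (@En.n l30861 (nat_lit 8950) (nat_lit 10) (nat_lit 8))
    (@En.n l30862 (nat_lit 1624) (nat_lit 7) (nat_lit 5))
    (@En.n l6754 (nat_lit 8763) (nat_lit 9) (nat_lit 11))
    (@En.n l6755 (nat_lit 7925) (nat_lit 9) (nat_lit 4))
    (@En.n l16490 (nat_lit 1357) (nat_lit 11) (nat_lit 11))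
    (@En.n l30863 (nat_lit 10259) (nat_lit 8) (nat_lit 5))
    (@En.n l30864 (nat_lit 8295) (nat_lit 13) (nat_lit 11))
    (@En.i (nat_lit 8293) (nat_lit 14) (nat_lit 12))
    (@En.n l30865 (nat_lit 10757) (nat_lit 12) (nat_lit 8))
    (@En.n l3 (nat_lit 8291) (nat_lit 15) (nat_lit 2))))
  (@Cl.mk (nat_lit 0x20007000c000a0005000a0004000b000b00060009000600050005000e000b) (nat_lit 0x5040310600051) (nat_lit 16) Lb.e (@T16.mk En
    (@En.n l19401 (nat_lit 8283) (nat_lit 4) (nat_lit 11))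
    (@En.n l37721 (nat_lit 9487) (nat_lit 1) (nat_lit 14))
    (@En.n l39860 (nat_lit 8556) (nat_lit 2) (nat_lit 5))
    (@En.i (nat_lit 9185) (nat_lit 3) (nat_lit 5))
    (@En.n l39861 (nat_lit 8286) (nat_lit 4) (nat_lit 6))
    (@En.n l3471 (nat_lit 8953) (nat_lit 9) (nat_lit 9))
    (@En.n l742 (nat_lit 4441) (nat_lit 6) (nat_lit 6))
    (@En.n l39862 (nat_lit 8291) (nat_lit 8) (nat_lit 11))
    (@En.n l39863 (nat_lit 8932) (nat_lit 9) (nat_lit 11))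
    (@En.n l16255 (nat_lit 7928) (nat_lit 9) (nat_lit 4))
    (@En.n l39864 (nat_lit 3478) (nat_lit 11) (nat_lit 10))
    (@En.i (nat_lit 8759) (nat_lit 12) (nat_lit 5))
    (@En.n l9885 (nat_lit 8296) (nat_lit 13) (nat_lit 10))
    (@En.n l15535 (nat_lit 8294) (nat_lit 14) (nat_lit 12))
    (@En.i (nat_lit 11739) (nat_lit 2) (nat_lit 7))
    (@En.n l67 (nat_lit 8292) (nat_lit 15) (nat_lit 2))))
  (@Cl.mk (nat_lit 0x2000c000a0004000a0004000d000b000600030006000e00050002000e000c) (nat_lit 0x31030a000020069) (nat_lit 16) Lb.e (@T16.mk En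
    (@En.i (nat_lit 8509) (nat_lit 14) (nat_lit 12))
    (@En.i (nat_lit 9499) (nat_lit 1) (nat_lit 14))
    (@En.n l17 (nat_lit 8293) (nat_lit 2) (nat_lit 2))
    (@En.n l19043 (nat_lit 8294) (nat_lit 3) (nat_lit 5))
    (@En.n l998 (nat_lit 834) (nat_lit 1) (nat_lit 14))
    (@En.n l4172 (nat_lit 8284) (nat_lit 5) (nat_lit 6))
    (@En.n l7 (nat_lit 8297) (nat_lit 6) (nat_lit 3))
    (@En.n l685 (nat_lit 1626) (nat_lit 0) (nat_lit 6))
    (@En.n l2026 (nat_lit 8541) (nat_lit 9) (nat_lit 11))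
    (@En.n l25255 (nat_lit 8295) (nat_lit 10) (nat_lit 13))
    (@En.i (nat_lit 7921) (nat_lit 10) (nat_lit 4))
    (@En.n l998 (nat_lit 1338) (nat_lit 12) (nat_lit 10))
    (@En.n l15707 (nat_lit 8686) (nat_lit 9) (nat_lit 4))
    (@En.i (nat_lit 815) (nat_lit 14) (nat_lit 10))
    (@En.i (nat_lit 7889) (nat_lit 12) (nat_lit 12))
    (@En.n l3 (nat_lit 8293) (nat_lit 15) (nat_lit 2))))
  (@Cl.mk (nat_lit 0x2000c0009000400090004000c000b000b00070004000700050005000e000c) (nat_lit 0xa40308410000050) (nat_lit 16) Lb.e (@T16.mk En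
    (@En.n l644 (nat_lit 8506) (nat_lit 3) (nat_lit 12))
    (@En.n l9890 (nat_lit 9485) (nat_lit 1) (nat_lit 14))
    (@En.n l2385 (nat_lit 8552) (nat_lit 11) (nat_lit 5))
    (@En.i (nat_lit 8536) (nat_lit 3) (nat_lit 5))
    (@En.i (nat_lit 7694) (nat_lit 4) (nat_lit 7))
    (@En.n l17439 (nat_lit 8554) (nat_lit 5) (nat_lit 4))
    (@En.i (nat_lit 4438) (nat_lit 6) (nat_lit 7))
    (@En.n l25060 (nat_lit 8293) (nat_lit 8) (nat_lit 11))
    (@En.n l25061 (nat_lit 9747) (nat_lit 9) (nat_lit 11))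
    (@En.n l9451 (nat_lit 8296) (nat_lit 10) (nat_lit 12))
    (@En.n l24682 (nat_lit 7481) (nat_lit 10) (nat_lit 4))
    (@En.n l17439 (nat_lit 1339) (nat_lit 12) (nat_lit 9))
    (@En.i (nat_lit 8502) (nat_lit 1) (nat_lit 4))
    (@En.n l17439 (nat_lit 2069) (nat_lit 14) (nat_lit 9))
    (@En.n l9890 (nat_lit 12471) (nat_lit 1) (nat_lit 12))
    (@En.n l7 (nat_lit 8294) (nat_lit 15) (nat_lit 2))))
  (@Cl.mk (nat_lit 0x20008000b0004000a000d000a0005000300080006000e00060002000e000c) (nat_lit 0x41029000603007a) (nat_lit 16) Lb.e (@T16.mk En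
    (@En.n l19045 (nat_lit 8508) (nat_lit 14) (nat_lit 12))
    (@En.n l6389 (nat_lit 9493) (nat_lit 1) (nat_lit 14))
    (@En.n l17 (nat_lit 8295) (nat_lit 2) (nat_lit 2))
    (@En.n l30317 (nat_lit 8296) (nat_lit 3) (nat_lit 6))
    (@En.n l524 (nat_lit 7885) (nat_lit 5) (nat_lit 14))
    (@En.i (nat_lit 8293) (nat_lit 5) (nat_lit 6))
    (@En.n l30318 (nat_lit 8291) (nat_lit 6) (nat_lit 8))
    (@En.n l30319 (nat_lit 8760) (nat_lit 7) (nat_lit 3))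
    (@En.n l5343 (nat_lit 1625) (nat_lit 0) (nat_lit 5))
    (@En.n l14459 (nat_lit 8761) (nat_lit 10) (nat_lit 10))
    (@En.n l532 (nat_lit 11061) (nat_lit 11) (nat_lit 13))
    (@En.n l6749 (nat_lit 1358) (nat_lit 12) (nat_lit 10))
    (@En.n l30320 (nat_lit 8690) (nat_lit 9) (nat_lit 4))
    (@En.n l532 (nat_lit 818) (nat_lit 7) (nat_lit 11))
    (@En.n l3299 (nat_lit 11731) (nat_lit 12) (nat_lit 8))
    (@En.n l3 (nat_lit 8295) (nat_lit 15) (nat_lit 2))))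
  (@Cl.mk (nat_lit 0x20007000a00040009000c000a000a000600040009000700060006000e000c) (nat_lit 0x40373100700060) (nat_lit 16) Lb.e (@T16.mk En
    (@En.n l28359 (nat_lit 8507) (nat_lit 3) (nat_lit 12))
    (@En.n l19309 (nat_lit 9486) (nat_lit 1) (nat_lit 14))
    (@En.n l30341 (nat_lit 8555) (nat_lit 2) (nat_lit 6))
    (@En.i (nat_lit 9186) (nat_lit 3) (nat_lit 6))
    (@En.n l10226 (nat_lit 8294) (nat_lit 4) (nat_lit 7))
    (@En.n l11434 (nat_lit 8292) (nat_lit 5) (nat_lit 9))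
    (@En.n l24277 (nat_lit 8559) (nat_lit 6) (nat_lit 4))
    (@En.n l17246 (nat_lit 4440) (nat_lit 7) (nat_lit 6))
    (@En.n l30342 (nat_lit 8295) (nat_lit 9) (nat_lit 10))
    (@En.n l30343 (nat_lit 8931) (nat_lit 10) (nat_lit 10))
    (@En.n l17246 (nat_lit 8171) (nat_lit 6) (nat_lit 12))
    (@En.n l24277 (nat_lit 3479) (nat_lit 12) (nat_lit 9))
    (@En.n l11429 (nat_lit 8501) (nat_lit 13) (nat_lit 4))
    (@En.n l30343 (nat_lit 2070) (nat_lit 8) (nat_lit 10))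
    (@En.i (nat_lit 11737) (nat_lit 1) (nat_lit 7))
    (@En.n l50 (nat_lit 8296) (nat_lit 15) (nat_lit 2))))
  (@Cl.mk (nat_lit 0x2000c000b0004000a0004000d0005000c00030006000e00040002000e000c) (nat_lit 0x310309000040030) (nat_lit 16) Lb.e (@T16.mk En
    (@En.i (nat_lit 8510) (nat_lit 14) (nat_lit 12))
    (@En.i (nat_lit 8077) (nat_lit 1) (nat_lit 14))
    (@En.n l17 (nat_lit 8297) (nat_lit 2) (nat_lit 2))
    (@En.n l13375 (nat_lit 8554) (nat_lit 3) (nat_lit 4))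
    (@En.n l998 (nat_lit 832) (nat_lit 1) (nat_lit 14))
    (@En.n l4172 (nat_lit 5123) (nat_lit 12) (nat_lit 6))
    (@En.i (nat_lit 8293) (nat_lit 6) (nat_lit 3))
    (@En.n l2254 (nat_lit 8523) (nat_lit 0) (nat_lit 12))
    (@En.i (nat_lit 8285) (nat_lit 8) (nat_lit 5))
    (@En.n l134 (nat_lit 8760) (nat_lit 10) (nat_lit 13))
    (@En.i (nat_lit 7922) (nat_lit 10) (nat_lit 4))
    (@En.n l998 (nat_lit 3472) (nat_lit 12) (nat_lit 10))
    (@En.n l2254 (nat_lit 8692) (nat_lit 9) (nat_lit 4))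
    (@En.n l55 (nat_lit 4060) (nat_lit 14) (nat_lit 11))
    (@En.i (nat_lit 7891) (nat_lit 12) (nat_lit 12))
    (@En.n l3 (nat_lit 8297) (nat_lit 15) (nat_lit 2))))
  (@Cl.mk (nat_lit 0x2000d0005000d0003000d0003000c0003000d000b00040003000b000e0005) (nat_lit 0x10a08020a300860) (nat_lit 16) Lb.e (@T16.mk En
    (@En.n l3147 (nat_lit 8599) (nat_lit 6) (nat_lit 5))
    (@En.i (nat_lit 4056) (nat_lit 4) (nat_lit 14))
    (@En.n l5 (nat_lit 8620) (nat_lit 2) (nat_lit 11))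
    (@En.n l50 (nat_lit 8299) (nat_lit 3) (nat_lit 3))
    (@En.i (nat_lit 8234) (nat_lit 0) (nat_lit 4))
    (@En.n l217 (nat_lit 9403) (nat_lit 14) (nat_lit 11))
    (@En.i (nat_lit 2776) (nat_lit 7) (nat_lit 13))
    (@En.i (nat_lit 8326) (nat_lit 7) (nat_lit 3))
    (@En.i (nat_lit 11565) (nat_lit 0) (nat_lit 12))
    (@En.i (nat_lit 8241) (nat_lit 9) (nat_lit 3))
    (@En.i (nat_lit 4809) (nat_lit 11) (nat_lit 13))
    (@En.n l117 (nat_lit 4629) (nat_lit 11) (nat_lit 3))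
    (@En.n l781 (nat_lit 4059) (nat_lit 0) (nat_lit 13))
    (@En.i (nat_lit 8240) (nat_lit 14) (nat_lit 5))
    (@En.i (nat_lit 4329) (nat_lit 2) (nat_lit 13))
    (@En.n l17 (nat_lit 8298) (nat_lit 15) (nat_lit 2))))
  (@Cl.mk (nat_lit 0x2000d0005000d0003000d0003000d0003000d0003000c0003000b000e0004) (nat_lit 0x40a0b0a09000860) (nat_lit 16) Lb.e (@T16.mk En
    (@En.n l3098 (nat_lit 8304) (nat_lit 8) (nat_lit 4))
    (@En.i (nat_lit 4051) (nat_lit 4) (nat_lit 14))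
    (@En.i (nat_lit 4409) (nat_lit 2) (nat_lit 11))
    (@En.i (nat_lit 8298) (nat_lit 3) (nat_lit 3))
    (@En.i (nat_lit 8861) (nat_lit 0) (nat_lit 12))
    (@En.i (nat_lit 8300) (nat_lit 5) (nat_lit 3))
    (@En.i (nat_lit 2774) (nat_lit 0) (nat_lit 13))
    (@En.i (nat_lit 8302) (nat_lit 7) (nat_lit 3))
    (@En.i (nat_lit 6966) (nat_lit 0) (nat_lit 13))
    (@En.i (nat_lit 8301) (nat_lit 9) (nat_lit 3))
    (@En.i (nat_lit 7500) (nat_lit 11) (nat_lit 13))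
    (@En.n l117 (nat_lit 8303) (nat_lit 11) (nat_lit 3))
    (@En.n l781 (nat_lit 4058) (nat_lit 0) (nat_lit 13))
    (@En.i (nat_lit 7454) (nat_lit 14) (nat_lit 5))
    (@En.i (nat_lit 4325) (nat_lit 2) (nat_lit 13))
    (@En.n l17 (nat_lit 8299) (nat_lit 15) (nat_lit 2))))
  (@Cl.mk (nat_lit 0x2000d0005000d0003000c0003000d000c00040003000c0004000b000e0004) (nat_lit 0x109080b30020850) (nat_lit 16) Lb.e (@T16.mk En
    (@En.n l3098 (nat_lit 8307) (nat_lit 4) (nat_lit 4))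
    (@En.i (nat_lit 4054) (nat_lit 4) (nat_lit 14))
    (@En.i (nat_lit 4411) (nat_lit 2) (nat_lit 11))
    (@En.n l7 (nat_lit 7689) (nat_lit 3) (nat_lit 4))
    (@En.n l564 (nat_lit 10820) (nat_lit 11) (nat_lit 12))
    (@En.n l7 (nat_lit 8299) (nat_lit 5) (nat_lit 3))
    (@En.i (nat_lit 8313) (nat_lit 0) (nat_lit 4))
    (@En.n l644 (nat_lit 8298) (nat_lit 8) (nat_lit 12))
    (@En.i (nat_lit 6961) (nat_lit 9) (nat_lit 13))
    (@En.i (nat_lit 8306) (nat_lit 9) (nat_lit 3))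
    (@En.i (nat_lit 10750) (nat_lit 11) (nat_lit 12))
    (@En.n l117 (nat_lit 8305) (nat_lit 11) (nat_lit 3))
    (@En.n l781 (nat_lit 4060) (nat_lit 0) (nat_lit 13))
    (@En.i (nat_lit 8343) (nat_lit 14) (nat_lit 5))
    (@En.i (nat_lit 4328) (nat_lit 2) (nat_lit 13))
    (@En.n l17 (nat_lit 8300) (nat_lit 15) (nat_lit 2))))
  (@Cl.mk (nat_lit 0x2000c0005000d000c00040003000d0004000d0003000c0003000b000e0004) (nat_lit 0x90b200a09000860) (nat_lit 16) Lb.e (@T16.mk En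
    (@En.n l3098 (nat_lit 8308) (nat_lit 10) (nat_lit 4))
    (@En.i (nat_lit 3830) (nat_lit 4) (nat_lit 14))
    (@En.i (nat_lit 4410) (nat_lit 2) (nat_lit 11))
    (@En.i (nat_lit 8241) (nat_lit 3) (nat_lit 3))
    (@En.i (nat_lit 8863) (nat_lit 0) (nat_lit 12))
    (@En.i (nat_lit 8306) (nat_lit 5) (nat_lit 3))
    (@En.i (nat_lit 2772) (nat_lit 0) (nat_lit 13))
    (@En.n l11 (nat_lit 8346) (nat_lit 7) (nat_lit 4))
    (@En.n l287 (nat_lit 8620) (nat_lit 9) (nat_lit 13))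
    (@En.n l11 (nat_lit 8299) (nat_lit 9) (nat_lit 3))
    (@En.i (nat_lit 7534) (nat_lit 10) (nat_lit 4))
    (@En.n l55 (nat_lit 8302) (nat_lit 12) (nat_lit 12))
    (@En.n l3447 (nat_lit 4061) (nat_lit 13) (nat_lit 13))
    (@En.i (nat_lit 8342) (nat_lit 14) (nat_lit 5))
    (@En.i (nat_lit 9178) (nat_lit 9) (nat_lit 12))
    (@En.n l17 (nat_lit 8301) (nat_lit 15) (nat_lit 2))))
  (@Cl.mk (nat_lit 0x2000d0005000c0003000d000c00040003000d0004000c0003000b000e0004) (nat_lit 0x1010b9009000870) (nat_lit 16) Lb.e (@T16.mk En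
    (@En.n l3098 (nat_lit 8310) (nat_lit 8) (nat_lit 4))
    (@En.i (nat_lit 4047) (nat_lit 4) (nat_lit 14))
    (@En.i (nat_lit 4408) (nat_lit 2) (nat_lit 11))
    (@En.i (nat_lit 8326) (nat_lit 3) (nat_lit 3))
    (@En.i (nat_lit 8859) (nat_lit 0) (nat_lit 12))
    (@En.n l28 (nat_lit 8315) (nat_lit 5) (nat_lit 4))
    (@En.n l601 (nat_lit 8358) (nat_lit 7) (nat_lit 13))
    (@En.n l28 (nat_lit 8299) (nat_lit 7) (nat_lit 3))
    (@En.i (nat_lit 8368) (nat_lit 8) (nat_lit 4))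
    (@En.n l77 (nat_lit 8300) (nat_lit 10) (nat_lit 12))
    (@En.i (nat_lit 4808) (nat_lit 11) (nat_lit 13))
    (@En.n l117 (nat_lit 8340) (nat_lit 11) (nat_lit 3))
    (@En.n l781 (nat_lit 8297) (nat_lit 0) (nat_lit 12))
    (@En.i (nat_lit 8341) (nat_lit 14) (nat_lit 5))
    (@En.i (nat_lit 4323) (nat_lit 2) (nat_lit 13))
    (@En.n l17 (nat_lit 8302) (nat_lit 15) (nat_lit 2))))
  (@Cl.mk (nat_lit 0x2000d000c00060003000d0004000d0003000d0003000c0003000a000e0004) (nat_lit 0x3a00b0909000260) (nat_lit 16) Lb.e (@T16.mk En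
    (@En.i (nat_lit 8309) (nat_lit 8) (nat_lit 4))
    (@En.i (nat_lit 4050) (nat_lit 1) (nat_lit 14))
    (@En.i (nat_lit 6988) (nat_lit 2) (nat_lit 10))
    (@En.i (nat_lit 4629) (nat_lit 3) (nat_lit 3))
    (@En.i (nat_lit 8850) (nat_lit 0) (nat_lit 12))
    (@En.i (nat_lit 8305) (nat_lit 5) (nat_lit 3))
    (@En.i (nat_lit 2775) (nat_lit 0) (nat_lit 13))
    (@En.i (nat_lit 8340) (nat_lit 7) (nat_lit 3))
    (@En.i (nat_lit 6967) (nat_lit 0) (nat_lit 13))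
    (@En.i (nat_lit 4623) (nat_lit 9) (nat_lit 4))
    (@En.i (nat_lit 8089) (nat_lit 11) (nat_lit 13))
    (@En.n l152 (nat_lit 8299) (nat_lit 11) (nat_lit 3))
    (@En.i (nat_lit 8983) (nat_lit 0) (nat_lit 6))
    (@En.n l619 (nat_lit 8301) (nat_lit 14) (nat_lit 12))
    (@En.i (nat_lit 4330) (nat_lit 2) (nat_lit 13))
    (@En.n l17 (nat_lit 8303) (nat_lit 15) (nat_lit 2))))
noncomputable def a519 : T16 Cl := @T16.mk Cl
  (@Cl.mk (nat_lit 0x3000c0003000c000c0004000c00040004000d0004000d0003000d0003000d) (nat_lit 0x108109003020a09) (nat_lit 16) Lb.e (@T16.mk En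
    (@En.i (nat_lit 5567) (nat_lit 0) (nat_lit 13))
    (@En.i (nat_lit 8308) (nat_lit 3) (nat_lit 3))
    (@En.i (nat_lit 7266) (nat_lit 0) (nat_lit 13))
    (@En.n l345 (nat_lit 8309) (nat_lit 3) (nat_lit 3))
    (@En.i (nat_lit 4069) (nat_lit 0) (nat_lit 13))
    (@En.i (nat_lit 8488) (nat_lit 7) (nat_lit 4))
    (@En.i (nat_lit 4335) (nat_lit 2) (nat_lit 13))
    (@En.n l152 (nat_lit 8311) (nat_lit 12) (nat_lit 4))
    (@En.n l3851 (nat_lit 9403) (nat_lit 8) (nat_lit 4))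
    (@En.n l617 (nat_lit 4402) (nat_lit 0) (nat_lit 12))
    (@En.i (nat_lit 4325) (nat_lit 1) (nat_lit 4))
    (@En.n l3536 (nat_lit 8299) (nat_lit 4) (nat_lit 12))
    (@En.i (nat_lit 8872) (nat_lit 11) (nat_lit 12))
    (@En.i (nat_lit 8307) (nat_lit 9) (nat_lit 3))
    (@En.i (nat_lit 2778) (nat_lit 0) (nat_lit 12))
    (@En.i (nat_lit 8310) (nat_lit 15) (nat_lit 3))))
  (@Cl.mk (nat_lit 0x2000d000c00060003000c0004000d000c00040003000c0004000a000e0004) (nat_lit 0x3a0080910020250) (nat_lit 16) Lb.e (@T16.mk En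
    (@En.i (nat_lit 8595) (nat_lit 4) (nat_lit 4))
    (@En.i (nat_lit 4053) (nat_lit 1) (nat_lit 14))
    (@En.i (nat_lit 7378) (nat_lit 2) (nat_lit 10))
    (@En.n l7 (nat_lit 7693) (nat_lit 3) (nat_lit 4))
    (@En.n l396 (nat_lit 10822) (nat_lit 0) (nat_lit 12))
    (@En.n l7 (nat_lit 8303) (nat_lit 5) (nat_lit 3))
    (@En.i (nat_lit 8312) (nat_lit 0) (nat_lit 4))
    (@En.n l644 (nat_lit 4629) (nat_lit 8) (nat_lit 12))
    (@En.n l3528 (nat_lit 6964) (nat_lit 9) (nat_lit 13))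
    (@En.i (nat_lit 4624) (nat_lit 9) (nat_lit 4))
    (@En.i (nat_lit 8095) (nat_lit 11) (nat_lit 12))
    (@En.n l152 (nat_lit 8300) (nat_lit 11) (nat_lit 3))
    (@En.i (nat_lit 8978) (nat_lit 0) (nat_lit 6))
    (@En.n l619 (nat_lit 8306) (nat_lit 14) (nat_lit 12))
    (@En.i (nat_lit 9168) (nat_lit 2) (nat_lit 13))
    (@En.n l17 (nat_lit 8305) (nat_lit 15) (nat_lit 2))))
  (@Cl.mk (nat_lit 0x2000c0005000d000b00040003000d000c00050003000c0004000b000e0004) (nat_lit 0x90a800b70020250) (nat_lit 16) Lb.e (@T16.mk En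
    (@En.n l3098 (nat_lit 8606) (nat_lit 10) (nat_lit 4))
    (@En.i (nat_lit 3828) (nat_lit 4) (nat_lit 14))
    (@En.i (nat_lit 4413) (nat_lit 2) (nat_lit 11))
    (@En.n l7 (nat_lit 7691) (nat_lit 3) (nat_lit 4))
    (@En.n l564 (nat_lit 10719) (nat_lit 11) (nat_lit 12))
    (@En.n l7 (nat_lit 8301) (nat_lit 5) (nat_lit 3))
    (@En.n l11 (nat_lit 6893) (nat_lit 6) (nat_lit 5))
    (@En.n l644 (nat_lit 8241) (nat_lit 8) (nat_lit 12))
    (@En.n l287 (nat_lit 7904) (nat_lit 9) (nat_lit 13))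
    (@En.n l11 (nat_lit 8300) (nat_lit 9) (nat_lit 3))
    (@En.i (nat_lit 7535) (nat_lit 10) (nat_lit 4))
    (@En.i (nat_lit 8315) (nat_lit 12) (nat_lit 11))
    (@En.n l3447 (nat_lit 4062) (nat_lit 13) (nat_lit 13))
    (@En.i (nat_lit 8344) (nat_lit 14) (nat_lit 5))
    (@En.i (nat_lit 9176) (nat_lit 9) (nat_lit 12))
    (@En.n l17 (nat_lit 8306) (nat_lit 15) (nat_lit 2))))
  (@Cl.mk (nat_lit 0x3000c0003000d000b00040003000c000c0005000c00040004000d0004000d) (nat_lit 0x708700030900304) (nat_lit 16) Lb.e (@T16.mk En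
    (@En.i (nat_lit 5999) (nat_lit 0) (nat_lit 13))
    (@En.i (nat_lit 8492) (nat_lit 7) (nat_lit 4))
    (@En.n l899 (nat_lit 4332) (nat_lit 2) (nat_lit 13))
    (@En.n l152 (nat_lit 8594) (nat_lit 12) (nat_lit 4))
    (@En.n l3851 (nat_lit 9400) (nat_lit 4) (nat_lit 4))
    (@En.n l617 (nat_lit 4412) (nat_lit 0) (nat_lit 12))
    (@En.i (nat_lit 9397) (nat_lit 1) (nat_lit 5))
    (@En.n l3536 (nat_lit 8300) (nat_lit 4) (nat_lit 12))
    (@En.n l3518 (nat_lit 10156) (nat_lit 11) (nat_lit 12))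
    (@En.n l18 (nat_lit 8304) (nat_lit 13) (nat_lit 3))
    (@En.i (nat_lit 7776) (nat_lit 0) (nat_lit 4))
    (@En.i (nat_lit 8599) (nat_lit 14) (nat_lit 11))
    (@En.n l6042 (nat_lit 5565) (nat_lit 1) (nat_lit 13))
    (@En.i (nat_lit 8606) (nat_lit 3) (nat_lit 3))
    (@En.i (nat_lit 8847) (nat_lit 0) (nat_lit 12))
    (@En.n l345 (nat_lit 8595) (nat_lit 15) (nat_lit 3))))
  (@Cl.mk (nat_lit 0x3000c000c0004000c00040004000c0004000d000c00040003000d0004000c) (nat_lit 0x10900904000801) (nat_lit 16) Lb.e (@T16.mk En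
    (@En.i (nat_lit 2554) (nat_lit 0) (nat_lit 12))
    (@En.i (nat_lit 8533) (nat_lit 6) (nat_lit 4))
    (@En.i (nat_lit 8607) (nat_lit 2) (nat_lit 13))
    (@En.n l7 (nat_lit 8304) (nat_lit 1) (nat_lit 3))
    (@En.i (nat_lit 7538) (nat_lit 0) (nat_lit 4))
    (@En.n l644 (nat_lit 8310) (nat_lit 4) (nat_lit 12))
    (@En.n l9448 (nat_lit 4067) (nat_lit 1) (nat_lit 13))
    (@En.i (nat_lit 8487) (nat_lit 7) (nat_lit 4))
    (@En.i (nat_lit 9195) (nat_lit 9) (nat_lit 12))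
    (@En.n l152 (nat_lit 8529) (nat_lit 12) (nat_lit 4))
    (@En.n l3851 (nat_lit 9754) (nat_lit 0) (nat_lit 4))
    (@En.n l617 (nat_lit 4403) (nat_lit 0) (nat_lit 12))
    (@En.i (nat_lit 4328) (nat_lit 1) (nat_lit 4))
    (@En.n l3536 (nat_lit 8301) (nat_lit 4) (nat_lit 12))
    (@En.i (nat_lit 8873) (nat_lit 11) (nat_lit 12))
    (@En.i (nat_lit 8606) (nat_lit 15) (nat_lit 3))))
  (@Cl.mk (nat_lit 0x3000c0003000c000c0004000b00040004000d000c00050003000d0004000d) (nat_lit 0x106103004a00809) (nat_lit 16) Lb.e (@T16.mk En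
    (@En.i (nat_lit 6983) (nat_lit 0) (nat_lit 13))
    (@En.i (nat_lit 8667) (nat_lit 3) (nat_lit 4))
    (@En.i (nat_lit 8088) (nat_lit 2) (nat_lit 13))
    (@En.n l2710 (nat_lit 8304) (nat_lit 3) (nat_lit 3))
    (@En.i (nat_lit 9041) (nat_lit 0) (nat_lit 5))
    (@En.n l2749 (nat_lit 8308) (nat_lit 8) (nat_lit 12))
    (@En.i (nat_lit 9140) (nat_lit 2) (nat_lit 13))
    (@En.n l1071 (nat_lit 8592) (nat_lit 12) (nat_lit 4))
    (@En.i (nat_lit 10161) (nat_lit 8) (nat_lit 4))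
    (@En.n l11217 (nat_lit 6984) (nat_lit 0) (nat_lit 11))
    (@En.n l3532 (nat_lit 4323) (nat_lit 1) (nat_lit 4))
    (@En.n l61 (nat_lit 8303) (nat_lit 4) (nat_lit 12))
    (@En.i (nat_lit 8851) (nat_lit 1) (nat_lit 12))
    (@En.i (nat_lit 8595) (nat_lit 9) (nat_lit 3))
    (@En.i (nat_lit 2779) (nat_lit 0) (nat_lit 12))
    (@En.i (nat_lit 8339) (nat_lit 15) (nat_lit 3))))
  (@Cl.mk (nat_lit 0x3000c0004000c000c0004000c00040004000d0004000c0003000d000c0004) (nat_lit 0x20810a0040a0880) (nat_lit 16) Lb.e (@T16.mk En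
    (@En.i (nat_lit 8578) (nat_lit 0) (nat_lit 4))
    (@En.n l217 (nat_lit 8307) (nat_lit 14) (nat_lit 12))
    (@En.n l4172 (nat_lit 7267) (nat_lit 1) (nat_lit 13))
    (@En.n l345 (nat_lit 8339) (nat_lit 3) (nat_lit 3))
    (@En.i (nat_lit 8554) (nat_lit 0) (nat_lit 12))
    (@En.i (nat_lit 8493) (nat_lit 5) (nat_lit 4))
    (@En.n l3928 (nat_lit 9194) (nat_lit 2) (nat_lit 13))
    (@En.n l152 (nat_lit 8337) (nat_lit 12) (nat_lit 4))
    (@En.n l3851 (nat_lit 8745) (nat_lit 8) (nat_lit 4))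
    (@En.n l617 (nat_lit 4407) (nat_lit 0) (nat_lit 12))
    (@En.i (nat_lit 4329) (nat_lit 1) (nat_lit 4))
    (@En.n l3536 (nat_lit 8302) (nat_lit 4) (nat_lit 12))
    (@En.i (nat_lit 8874) (nat_lit 1) (nat_lit 12))
    (@En.n l50 (nat_lit 8318) (nat_lit 9) (nat_lit 4))
    (@En.n l612 (nat_lit 8362) (nat_lit 11) (nat_lit 12))
    (@En.n l50 (nat_lit 8304) (nat_lit 15) (nat_lit 3))))
  (@Cl.mk (nat_lit 0x20005000d0004000d0003000d0003000d0003000d0003000b0003000e000c) (nat_lit 0x30209010802099) (nat_lit 16) Lb.e (@T16.mk En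
    (@En.i (nat_lit 8304) (nat_lit 12) (nat_lit 12))
    (@En.i (nat_lit 8597) (nat_lit 1) (nat_lit 14))
    (@En.i (nat_lit 8594) (nat_lit 2) (nat_lit 3))
    (@En.i (nat_lit 3362) (nat_lit 3) (nat_lit 11))
    (@En.i (nat_lit 8337) (nat_lit 4) (nat_lit 3))
    (@En.i (nat_lit 6977) (nat_lit 6) (nat_lit 13))
    (@En.i (nat_lit 8529) (nat_lit 6) (nat_lit 3))
    (@En.i (nat_lit 4002) (nat_lit 8) (nat_lit 13))
    (@En.i (nat_lit 8592) (nat_lit 8) (nat_lit 3))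
    (@En.i (nat_lit 5992) (nat_lit 10) (nat_lit 13))
    (@En.i (nat_lit 8486) (nat_lit 10) (nat_lit 3))
    (@En.i (nat_lit 5542) (nat_lit 12) (nat_lit 13))
    (@En.n l117 (nat_lit 10190) (nat_lit 13) (nat_lit 4))
    (@En.i (nat_lit 4404) (nat_lit 14) (nat_lit 13))
    (@En.i (nat_lit 8299) (nat_lit 13) (nat_lit 5))
    (@En.n l3 (nat_lit 8311) (nat_lit 15) (nat_lit 2))))
  (@Cl.mk (nat_lit 0x2000c0006000a000e00040002000d000b00060003000c000a0005000e0004) (nat_lit 0xa02800b70088060) (nat_lit 16) Lb.e (@T16.mk En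
    (@En.n l28 (nat_lit 8316) (nat_lit 6) (nat_lit 4))
    (@En.n l4096 (nat_lit 6963) (nat_lit 1) (nat_lit 14))
    (@En.i (nat_lit 3036) (nat_lit 2) (nat_lit 5))
    (@En.i (nat_lit 7688) (nat_lit 3) (nat_lit 10))
    (@En.i (nat_lit 7396) (nat_lit 11) (nat_lit 12))
    (@En.n l152 (nat_lit 8313) (nat_lit 5) (nat_lit 3))
    (@En.n l15603 (nat_lit 8974) (nat_lit 6) (nat_lit 6))
    (@En.n l97 (nat_lit 6893) (nat_lit 14) (nat_lit 11))
    (@En.i (nat_lit 8925) (nat_lit 9) (nat_lit 13))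
    (@En.n l17 (nat_lit 8312) (nat_lit 9) (nat_lit 2))
    (@En.i (nat_lit 7777) (nat_lit 10) (nat_lit 4))
    (@En.i (nat_lit 4095) (nat_lit 12) (nat_lit 14))
    (@En.n l3865 (nat_lit 3438) (nat_lit 2) (nat_lit 10))
    (@En.i (nat_lit 6290) (nat_lit 14) (nat_lit 6))
    (@En.n l34396 (nat_lit 10576) (nat_lit 9) (nat_lit 12))
    (@En.n l7 (nat_lit 8312) (nat_lit 15) (nat_lit 2))))
  (@Cl.mk (nat_lit 0x2000c0006000b000e00040002000d0005000c0003000c000a0004000e0004) (nat_lit 0x7088005070880b0) (nat_lit 16) Lb.e (@T16.mk En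
    (@En.n l28 (nat_lit 8315) (nat_lit 6) (nat_lit 4))
    (@En.i (nat_lit 6960) (nat_lit 1) (nat_lit 14))
    (@En.i (nat_lit 7317) (nat_lit 8) (nat_lit 4))
    (@En.i (nat_lit 7685) (nat_lit 3) (nat_lit 10))
    (@En.i (nat_lit 10751) (nat_lit 11) (nat_lit 12))
    (@En.n l117 (nat_lit 8312) (nat_lit 5) (nat_lit 3))
    (@En.n l781 (nat_lit 8284) (nat_lit 0) (nat_lit 12))
    (@En.i (nat_lit 8314) (nat_lit 14) (nat_lit 5))
    (@En.n l10832 (nat_lit 8926) (nat_lit 9) (nat_lit 13))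
    (@En.n l17 (nat_lit 8313) (nat_lit 9) (nat_lit 2))
    (@En.n l3098 (nat_lit 7776) (nat_lit 10) (nat_lit 4))
    (@En.i (nat_lit 4105) (nat_lit 4) (nat_lit 14))
    (@En.i (nat_lit 2858) (nat_lit 2) (nat_lit 11))
    (@En.i (nat_lit 6289) (nat_lit 14) (nat_lit 6))
    (@En.n l564 (nat_lit 10574) (nat_lit 9) (nat_lit 12))
    (@En.n l7 (nat_lit 8313) (nat_lit 15) (nat_lit 2))))
  (@Cl.mk (nat_lit 0x20005000c0006000c000a0004000e00040002000b0006000b000a000e0005) (nat_lit 0x60870a00908390) (nat_lit 16) Lb.e (@T16.mk En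
    (@En.n l17524 (nat_lit 7343) (nat_lit 9) (nat_lit 5))
    (@En.n l3 (nat_lit 8313) (nat_lit 11) (nat_lit 14))
    (@En.n l3 (nat_lit 8312) (nat_lit 12) (nat_lit 10))
    (@En.n l3763 (nat_lit 2868) (nat_lit 3) (nat_lit 11))
    (@En.n l24005 (nat_lit 6291) (nat_lit 4) (nat_lit 6))
    (@En.n l564 (nat_lit 10577) (nat_lit 6) (nat_lit 11))
    (@En.n l7 (nat_lit 8314) (nat_lit 6) (nat_lit 2))
    (@En.n l28 (nat_lit 8317) (nat_lit 7) (nat_lit 4))
    (@En.n l566 (nat_lit 6959) (nat_lit 9) (nat_lit 14))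
    (@En.n l10831 (nat_lit 7335) (nat_lit 9) (nat_lit 4))
    (@En.i (nat_lit 7684) (nat_lit 11) (nat_lit 10))
    (@En.n l3763 (nat_lit 9975) (nat_lit 12) (nat_lit 12))
    (@En.i (nat_lit 8976) (nat_lit 13) (nat_lit 6))
    (@En.n l3105 (nat_lit 9304) (nat_lit 7) (nat_lit 12))
    (@En.n l3106 (nat_lit 8663) (nat_lit 13) (nat_lit 5))
    (@En.n l17 (nat_lit 8314) (nat_lit 15) (nat_lit 2))))
  (@Cl.mk (nat_lit 0x2000d0005000b0003000c000c000b000500040004000c0005000b000e0004) (nat_lit 0x807089600030880) (nat_lit 16) Lb.e (@T16.mk En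
    (@En.n l3098 (nat_lit 8318) (nat_lit 4) (nat_lit 4))
    (@En.i (nat_lit 4101) (nat_lit 4) (nat_lit 14))
    (@En.i (nat_lit 3651) (nat_lit 2) (nat_lit 11))
    (@En.n l7 (nat_lit 6286) (nat_lit 3) (nat_lit 5))
    (@En.n l564 (nat_lit 10620) (nat_lit 9) (nat_lit 12))
    (@En.n l237 (nat_lit 8321) (nat_lit 12) (nat_lit 4))
    (@En.i (nat_lit 8300) (nat_lit 6) (nat_lit 4))
    (@En.i (nat_lit 7316) (nat_lit 7) (nat_lit 5))
    (@En.n l4380 (nat_lit 8326) (nat_lit 9) (nat_lit 11))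
    (@En.n l134 (nat_lit 8313) (nat_lit 4) (nat_lit 12))
    (@En.n l11 (nat_lit 10749) (nat_lit 11) (nat_lit 12))
    (@En.n l117 (nat_lit 8316) (nat_lit 11) (nat_lit 3))
    (@En.n l6031 (nat_lit 8285) (nat_lit 0) (nat_lit 11))
    (@En.i (nat_lit 8317) (nat_lit 14) (nat_lit 5))
    (@En.i (nat_lit 9166) (nat_lit 2) (nat_lit 13))
    (@En.n l17 (nat_lit 8315) (nat_lit 15) (nat_lit 2))))
  (@Cl.mk (nat_lit 0x2000d000a00060003000c000c000b000600040004000c0005000a000e0004) (nat_lit 0x970019600080260) (nat_lit 16) Lb.e (@T16.mk En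
    (@En.i (nat_lit 8319) (nat_lit 4) (nat_lit 4))
    (@En.i (nat_lit 4098) (nat_lit 1) (nat_lit 14))
    (@En.n l2817 (nat_lit 7381) (nat_lit 2) (nat_lit 10))
    (@En.n l7 (nat_lit 6287) (nat_lit 3) (nat_lit 5))
    (@En.n l2724 (nat_lit 10846) (nat_lit 9) (nat_lit 12))
    (@En.n l237 (nat_lit 8323) (nat_lit 12) (nat_lit 4))
    (@En.i (nat_lit 8305) (nat_lit 6) (nat_lit 4))
    (@En.i (nat_lit 3037) (nat_lit 7) (nat_lit 6))
    (@En.n l4380 (nat_lit 8328) (nat_lit 9) (nat_lit 11))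
    (@En.n l134 (nat_lit 8312) (nat_lit 4) (nat_lit 12))
    (@En.i (nat_lit 8097) (nat_lit 11) (nat_lit 12))
    (@En.n l152 (nat_lit 8315) (nat_lit 11) (nat_lit 3))
    (@En.i (nat_lit 8975) (nat_lit 0) (nat_lit 6))
    (@En.n l97 (nat_lit 6888) (nat_lit 14) (nat_lit 10))
    (@En.n l2824 (nat_lit 9167) (nat_lit 2) (nat_lit 13))
    (@En.n l17 (nat_lit 8316) (nat_lit 15) (nat_lit 2))))
  (@Cl.mk (nat_lit 0x20005000b0006000c000c000b000500040004000b0005000b000a000e0005) (nat_lit 0x70198000709390) (nat_lit 16) Lb.e (@T16.mk En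
    (@En.n l22754 (nat_lit 8320) (nat_lit 8) (nat_lit 5))
    (@En.n l3 (nat_lit 8315) (nat_lit 1) (nat_lit 14))
    (@En.n l3 (nat_lit 8316) (nat_lit 2) (nat_lit 10))
    (@En.n l2846 (nat_lit 3650) (nat_lit 3) (nat_lit 11))
    (@En.n l9774 (nat_lit 6288) (nat_lit 4) (nat_lit 5))
    (@En.n l564 (nat_lit 10835) (nat_lit 6) (nat_lit 11))
    (@En.n l237 (nat_lit 8322) (nat_lit 6) (nat_lit 4))
    (@En.i (nat_lit 8343) (nat_lit 7) (nat_lit 4))
    (@En.n l8335 (nat_lit 7315) (nat_lit 8) (nat_lit 5))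
    (@En.n l4380 (nat_lit 8327) (nat_lit 10) (nat_lit 11))
    (@En.n l134 (nat_lit 8314) (nat_lit 11) (nat_lit 12))
    (@En.n l2846 (nat_lit 7371) (nat_lit 12) (nat_lit 12))
    (@En.i (nat_lit 8977) (nat_lit 13) (nat_lit 6))
    (@En.n l30116 (nat_lit 6897) (nat_lit 14) (nat_lit 11))
    (@En.n l3106 (nat_lit 8664) (nat_lit 13) (nat_lit 5))
    (@En.n l17 (nat_lit 8317) (nat_lit 15) (nat_lit 2))))
  (@Cl.mk (nat_lit 0x3000c000c000a000500040004000c000c0006000c00040004000d0004000b) (nat_lit 0x87000940900806) (nat_lit 16) Lb.e (@T16.mk En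
    (@En.n l644 (nat_lit 8286) (nat_lit 0) (nat_lit 11))
    (@En.n l644 (nat_lit 8320) (nat_lit 6) (nat_lit 4))
    (@En.n l6080 (nat_lit 8725) (nat_lit 2) (nat_lit 13))
    (@En.n l152 (nat_lit 8634) (nat_lit 12) (nat_lit 4))
    (@En.n l3851 (nat_lit 8735) (nat_lit 4) (nat_lit 4))
    (@En.n l617 (nat_lit 3561) (nat_lit 0) (nat_lit 12))
    (@En.n l6080 (nat_lit 8756) (nat_lit 1) (nat_lit 6))
    (@En.n l3536 (nat_lit 8315) (nat_lit 4) (nat_lit 12))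
    (@En.n l29528 (nat_lit 10153) (nat_lit 9) (nat_lit 12))
    (@En.n l2172 (nat_lit 8324) (nat_lit 12) (nat_lit 4))
    (@En.i (nat_lit 8307) (nat_lit 10) (nat_lit 4))
    (@En.n l5801 (nat_lit 7321) (nat_lit 0) (nat_lit 5))
    (@En.n l644 (nat_lit 8330) (nat_lit 1) (nat_lit 10))
    (@En.n l396 (nat_lit 7776) (nat_lit 4) (nat_lit 12))
    (@En.n l15205 (nat_lit 8813) (nat_lit 10) (nat_lit 12))
    (@En.n l345 (nat_lit 8319) (nat_lit 15) (nat_lit 3))))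
  (@Cl.mk (nat_lit 0x3000c000c000a000600040004000c000c0006000b00040004000d000a0005) (nat_lit 0x87000890300210) (nat_lit 16) Lb.e (@T16.mk En
    (@En.n l18560 (nat_lit 8973) (nat_lit 0) (nat_lit 5))
    (@En.n l19356 (nat_lit 2316) (nat_lit 13) (nat_lit 10))
    (@En.n l14143 (nat_lit 8726) (nat_lit 2) (nat_lit 13))
    (@En.n l1071 (nat_lit 8635) (nat_lit 12) (nat_lit 4))
    (@En.i (nat_lit 8736) (nat_lit 4) (nat_lit 4))
    (@En.n l19357 (nat_lit 7379) (nat_lit 0) (nat_lit 11))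
    (@En.n l14143 (nat_lit 8757) (nat_lit 1) (nat_lit 6))
    (@En.n l61 (nat_lit 8316) (nat_lit 4) (nat_lit 12))
    (@En.n l2724 (nat_lit 10154) (nat_lit 9) (nat_lit 12))
    (@En.n l237 (nat_lit 8325) (nat_lit 12) (nat_lit 4))
    (@En.i (nat_lit 8595) (nat_lit 10) (nat_lit 4))
    (@En.n l19358 (nat_lit 3034) (nat_lit 0) (nat_lit 6))
    (@En.n l4380 (nat_lit 8329) (nat_lit 1) (nat_lit 10))
    (@En.n l134 (nat_lit 7777) (nat_lit 4) (nat_lit 12))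
    (@En.n l19357 (nat_lit 9576) (nat_lit 10) (nat_lit 12))
    (@En.n l2710 (nat_lit 8318) (nat_lit 15) (nat_lit 3))))
noncomputable def a520 : T16 Cl := @T16.mk Cl
  (@Cl.mk (nat_lit 0x40004000b000b0006000c000b000500050004000b0005000c000c000a0005) (nat_lit 0x980a4000601970) (nat_lit 16) Lb.e (@T16.mk En
    (@En.n l15267 (nat_lit 7332) (nat_lit 0) (nat_lit 5))
    (@En.i (nat_lit 8331) (nat_lit 1) (nat_lit 10))
    (@En.n l6449 (nat_lit 7343) (nat_lit 4) (nat_lit 12))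
    (@En.n l2938 (nat_lit 7370) (nat_lit 2) (nat_lit 12))
    (@En.n l4071 (nat_lit 8940) (nat_lit 4) (nat_lit 5))
    (@En.n l134 (nat_lit 9257) (nat_lit 0) (nat_lit 11))
    (@En.n l15463 (nat_lit 8657) (nat_lit 12) (nat_lit 4))
    (@En.n l15464 (nat_lit 7345) (nat_lit 11) (nat_lit 5))
    (@En.n l2938 (nat_lit 8658) (nat_lit 1) (nat_lit 5))
    (@En.n l15465 (nat_lit 8319) (nat_lit 5) (nat_lit 11))
    (@En.n l2938 (nat_lit 2879) (nat_lit 1) (nat_lit 12))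
    (@En.n l3928 (nat_lit 8753) (nat_lit 2) (nat_lit 6))
    (@En.n l15466 (nat_lit 8317) (nat_lit 5) (nat_lit 11))
    (@En.n l3518 (nat_lit 10273) (nat_lit 14) (nat_lit 11))
    (@En.n l15467 (nat_lit 8648) (nat_lit 12) (nat_lit 4))
    (@En.n l50 (nat_lit 8492) (nat_lit 0) (nat_lit 4))))
  (@Cl.mk (nat_lit 0x2000c00060004000c0004000b000e00040002000d0005000a0003000e000c) (nat_lit 0x700209500907059) (nat_lit 16) Lb.e (@T16.mk En
    (@En.n l77 (nat_lit 8315) (nat_lit 10) (nat_lit 12))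
    (@En.i (nat_lit 7461) (nat_lit 1) (nat_lit 14))
    (@En.n l117 (nat_lit 8323) (nat_lit 2) (nat_lit 3))
    (@En.i (nat_lit 8287) (nat_lit 3) (nat_lit 10))
    (@En.i (nat_lit 8322) (nat_lit 14) (nat_lit 5))
    (@En.i (nat_lit 9158) (nat_lit 6) (nat_lit 13))
    (@En.n l17 (nat_lit 8321) (nat_lit 6) (nat_lit 2))
    (@En.n l3098 (nat_lit 8324) (nat_lit 7) (nat_lit 4))
    (@En.i (nat_lit 4102) (nat_lit 4) (nat_lit 14))
    (@En.i (nat_lit 3564) (nat_lit 10) (nat_lit 11))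
    (@En.i (nat_lit 6293) (nat_lit 10) (nat_lit 4))
    (@En.i (nat_lit 11461) (nat_lit 12) (nat_lit 12))
    (@En.i (nat_lit 8302) (nat_lit 5) (nat_lit 4))
    (@En.i (nat_lit 7322) (nat_lit 14) (nat_lit 6))
    (@En.n l3424 (nat_lit 8355) (nat_lit 8) (nat_lit 12))
    (@En.n l28 (nat_lit 8321) (nat_lit 15) (nat_lit 2))))
  (@Cl.mk (nat_lit 0x20005000a0006000e000c0002000c00060004000b0004000b000a000e0005) (nat_lit 0x420900209260) (nat_lit 16) Lb.e (@T16.mk En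
    (@En.n l3098 (nat_lit 8648) (nat_lit 6) (nat_lit 5))
    (@En.n l3 (nat_lit 8321) (nat_lit 8) (nat_lit 14))
    (@En.n l3 (nat_lit 8323) (nat_lit 9) (nat_lit 10))
    (@En.n l291 (nat_lit 3609) (nat_lit 3) (nat_lit 11))
    (@En.i (nat_lit 6294) (nat_lit 4) (nat_lit 4))
    (@En.n l9209 (nat_lit 11454) (nat_lit 12) (nat_lit 11))
    (@En.i (nat_lit 8341) (nat_lit 6) (nat_lit 4))
    (@En.n l4135 (nat_lit 7346) (nat_lit 7) (nat_lit 6))
    (@En.n l3424 (nat_lit 8356) (nat_lit 9) (nat_lit 12))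
    (@En.n l28 (nat_lit 8322) (nat_lit 9) (nat_lit 2))
    (@En.n l77 (nat_lit 8317) (nat_lit 11) (nat_lit 12))
    (@En.n l1732 (nat_lit 7459) (nat_lit 12) (nat_lit 14))
    (@En.n l19251 (nat_lit 8986) (nat_lit 13) (nat_lit 6))
    (@En.n l19252 (nat_lit 9251) (nat_lit 14) (nat_lit 10))
    (@En.n l3106 (nat_lit 8669) (nat_lit 13) (nat_lit 5))
    (@En.n l17 (nat_lit 8322) (nat_lit 15) (nat_lit 2))))
  (@Cl.mk (nat_lit 0x2000c00070004000c0004000a000e00040002000d000900060003000e000c) (nat_lit 0x700801500960052) (nat_lit 16) Lb.e (@T16.mk En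
    (@En.n l77 (nat_lit 8316) (nat_lit 10) (nat_lit 12))
    (@En.i (nat_lit 8200) (nat_lit 1) (nat_lit 14))
    (@En.n l152 (nat_lit 8321) (nat_lit 2) (nat_lit 3))
    (@En.n l149 (nat_lit 8985) (nat_lit 3) (nat_lit 6))
    (@En.n l97 (nat_lit 6890) (nat_lit 14) (nat_lit 9))
    (@En.n l1236 (nat_lit 9159) (nat_lit 6) (nat_lit 13))
    (@En.n l17 (nat_lit 8323) (nat_lit 6) (nat_lit 2))
    (@En.i (nat_lit 8325) (nat_lit 7) (nat_lit 4))
    (@En.i (nat_lit 3285) (nat_lit 9) (nat_lit 14))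
    (@En.n l149 (nat_lit 7387) (nat_lit 10) (nat_lit 10))
    (@En.i (nat_lit 6295) (nat_lit 10) (nat_lit 4))
    (@En.n l473 (nat_lit 11462) (nat_lit 12) (nat_lit 12))
    (@En.i (nat_lit 8340) (nat_lit 5) (nat_lit 4))
    (@En.i (nat_lit 3038) (nat_lit 14) (nat_lit 7))
    (@En.n l3424 (nat_lit 8354) (nat_lit 8) (nat_lit 12))
    (@En.n l28 (nat_lit 8323) (nat_lit 15) (nat_lit 2))))
  (@Cl.mk (nat_lit 0x2000b00060004000c000c0005000c00040004000d0004000a0003000e000c) (nat_lit 0x700730900702081) (nat_lit 16) Lb.e (@T16.mk En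
    (@En.n l217 (nat_lit 8318) (nat_lit 14) (nat_lit 12))
    (@En.n l4172 (nat_lit 6767) (nat_lit 1) (nat_lit 14))
    (@En.n l345 (nat_lit 8325) (nat_lit 2) (nat_lit 3))
    (@En.i (nat_lit 8288) (nat_lit 3) (nat_lit 10))
    (@En.i (nat_lit 8648) (nat_lit 4) (nat_lit 4))
    (@En.n l3928 (nat_lit 9154) (nat_lit 6) (nat_lit 13))
    (@En.n l152 (nat_lit 8636) (nat_lit 12) (nat_lit 4))
    (@En.n l3851 (nat_lit 8739) (nat_lit 7) (nat_lit 4))
    (@En.n l2306 (nat_lit 3559) (nat_lit 9) (nat_lit 12))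
    (@En.n l3928 (nat_lit 10244) (nat_lit 9) (nat_lit 5))
    (@En.n l3536 (nat_lit 8321) (nat_lit 11) (nat_lit 12))
    (@En.n l763 (nat_lit 9806) (nat_lit 12) (nat_lit 12))
    (@En.i (nat_lit 8310) (nat_lit 13) (nat_lit 4))
    (@En.n l1545 (nat_lit 7320) (nat_lit 14) (nat_lit 6))
    (@En.n l847 (nat_lit 8363) (nat_lit 12) (nat_lit 11))
    (@En.n l50 (nat_lit 8324) (nat_lit 15) (nat_lit 2))))
  (@Cl.mk (nat_lit 0x2000b00070004000c000c0005000b00040004000d000900050003000e000c) (nat_lit 0x900890100750081) (nat_lit 16) Lb.e (@T16.mk En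
    (@En.n l77 (nat_lit 8319) (nat_lit 14) (nat_lit 12))
    (@En.n l8310 (nat_lit 8131) (nat_lit 1) (nat_lit 14))
    (@En.n l2710 (nat_lit 8324) (nat_lit 2) (nat_lit 3))
    (@En.n l8311 (nat_lit 8984) (nat_lit 3) (nat_lit 5))
    (@En.n l3532 (nat_lit 6996) (nat_lit 4) (nat_lit 9))
    (@En.n l8312 (nat_lit 9155) (nat_lit 6) (nat_lit 13))
    (@En.n l1071 (nat_lit 8637) (nat_lit 12) (nat_lit 4))
    (@En.i (nat_lit 8740) (nat_lit 7) (nat_lit 4))
    (@En.n l8311 (nat_lit 7383) (nat_lit 9) (nat_lit 11))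
    (@En.n l8312 (nat_lit 10241) (nat_lit 9) (nat_lit 5))
    (@En.n l61 (nat_lit 8323) (nat_lit 11) (nat_lit 12))
    (@En.n l473 (nat_lit 9807) (nat_lit 12) (nat_lit 12))
    (@En.i (nat_lit 8339) (nat_lit 13) (nat_lit 4))
    (@En.n l8313 (nat_lit 1598) (nat_lit 14) (nat_lit 7))
    (@En.n l8313 (nat_lit 8361) (nat_lit 12) (nat_lit 11))
    (@En.n l28 (nat_lit 8325) (nat_lit 15) (nat_lit 2))))
  (@Cl.mk (nat_lit 0x2000d0005000c0003000d000b00040003000d000b00050003000b000e0005) (nat_lit 0x10a08500a400820) (nat_lit 16) Lb.e (@T16.mk En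
    (@En.n l3147 (nat_lit 8330) (nat_lit 8) (nat_lit 5))
    (@En.i (nat_lit 4057) (nat_lit 4) (nat_lit 14))
    (@En.n l5 (nat_lit 7904) (nat_lit 2) (nat_lit 11))
    (@En.n l50 (nat_lit 8302) (nat_lit 3) (nat_lit 3))
    (@En.n l28 (nat_lit 6284) (nat_lit 0) (nat_lit 5))
    (@En.n l217 (nat_lit 8745) (nat_lit 14) (nat_lit 11))
    (@En.n l601 (nat_lit 8236) (nat_lit 7) (nat_lit 13))
    (@En.n l28 (nat_lit 8298) (nat_lit 7) (nat_lit 3))
    (@En.i (nat_lit 8369) (nat_lit 8) (nat_lit 4))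
    (@En.i (nat_lit 7689) (nat_lit 10) (nat_lit 11))
    (@En.i (nat_lit 4807) (nat_lit 11) (nat_lit 13))
    (@En.n l117 (nat_lit 8328) (nat_lit 11) (nat_lit 3))
    (@En.n l781 (nat_lit 8293) (nat_lit 0) (nat_lit 12))
    (@En.i (nat_lit 8327) (nat_lit 14) (nat_lit 5))
    (@En.i (nat_lit 4327) (nat_lit 2) (nat_lit 13))
    (@En.n l17 (nat_lit 8326) (nat_lit 15) (nat_lit 2))))
  (@Cl.mk (nat_lit 0x20005000c0006000d000b00040003000d000a00050003000b000a000e0006) (nat_lit 0x80870090009430) (nat_lit 16) Lb.e (@T16.mk En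
    (@En.n l3147 (nat_lit 8331) (nat_lit 7) (nat_lit 6))
    (@En.n l3 (nat_lit 8326) (nat_lit 1) (nat_lit 14))
    (@En.n l3 (nat_lit 8328) (nat_lit 2) (nat_lit 10))
    (@En.n l5 (nat_lit 7902) (nat_lit 3) (nat_lit 11))
    (@En.n l50 (nat_lit 8341) (nat_lit 4) (nat_lit 3))
    (@En.n l9774 (nat_lit 6285) (nat_lit 5) (nat_lit 5))
    (@En.n l217 (nat_lit 9759) (nat_lit 7) (nat_lit 10))
    (@En.n l601 (nat_lit 8237) (nat_lit 8) (nat_lit 13))
    (@En.n l28 (nat_lit 8240) (nat_lit 8) (nat_lit 3))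
    (@En.n l9774 (nat_lit 8370) (nat_lit 9) (nat_lit 4))
    (@En.i (nat_lit 7690) (nat_lit 11) (nat_lit 11))
    (@En.i (nat_lit 4810) (nat_lit 12) (nat_lit 13))
    (@En.i (nat_lit 9015) (nat_lit 13) (nat_lit 6))
    (@En.n l3105 (nat_lit 8373) (nat_lit 14) (nat_lit 12))
    (@En.n l3106 (nat_lit 8332) (nat_lit 13) (nat_lit 5))
    (@En.n l17 (nat_lit 8327) (nat_lit 15) (nat_lit 2))))
  (@Cl.mk (nat_lit 0x2000d000b00060003000d000b00050003000d000b00050003000a000e0005) (nat_lit 0x3900a500a000320) (nat_lit 16) Lb.e (@T16.mk En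
    (@En.i (nat_lit 8329) (nat_lit 8) (nat_lit 5))
    (@En.i (nat_lit 3757) (nat_lit 1) (nat_lit 14))
    (@En.i (nat_lit 9533) (nat_lit 2) (nat_lit 10))
    (@En.n l50 (nat_lit 8340) (nat_lit 3) (nat_lit 3))
    (@En.n l6574 (nat_lit 6283) (nat_lit 0) (nat_lit 5))
    (@En.n l217 (nat_lit 10160) (nat_lit 14) (nat_lit 11))
    (@En.n l601 (nat_lit 8238) (nat_lit 7) (nat_lit 13))
    (@En.n l28 (nat_lit 4629) (nat_lit 7) (nat_lit 3))
    (@En.i (nat_lit 6422) (nat_lit 8) (nat_lit 5))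
    (@En.i (nat_lit 7693) (nat_lit 10) (nat_lit 11))
    (@En.i (nat_lit 8094) (nat_lit 11) (nat_lit 13))
    (@En.n l152 (nat_lit 8326) (nat_lit 11) (nat_lit 3))
    (@En.i (nat_lit 9016) (nat_lit 0) (nat_lit 6))
    (@En.n l97 (nat_lit 8371) (nat_lit 14) (nat_lit 11))
    (@En.n l1236 (nat_lit 10149) (nat_lit 2) (nat_lit 13))
    (@En.n l17 (nat_lit 8328) (nat_lit 15) (nat_lit 2))))
  (@Cl.mk (nat_lit 0x3000c000b000b00060004000b00050005000d000b00050003000d000a0005) (nat_lit 0x251004002800960) (nat_lit 16) Lb.e (@T16.mk En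
    (@En.n l16016 (nat_lit 6398) (nat_lit 0) (nat_lit 5))
    (@En.i (nat_lit 9106) (nat_lit 14) (nat_lit 10))
    (@En.n l17645 (nat_lit 7636) (nat_lit 2) (nat_lit 13))
    (@En.n l17646 (nat_lit 8330) (nat_lit 3) (nat_lit 3))
    (@En.n l10792 (nat_lit 9014) (nat_lit 0) (nat_lit 5))
    (@En.n l27944 (nat_lit 8374) (nat_lit 5) (nat_lit 11))
    (@En.n l8638 (nat_lit 10216) (nat_lit 2) (nat_lit 13))
    (@En.n l8639 (nat_lit 8332) (nat_lit 11) (nat_lit 5))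
    (@En.n l50 (nat_lit 9971) (nat_lit 8) (nat_lit 5))
    (@En.i (nat_lit 7358) (nat_lit 10) (nat_lit 11))
    (@En.n l50 (nat_lit 8339) (nat_lit 10) (nat_lit 4))
    (@En.n l8312 (nat_lit 10172) (nat_lit 0) (nat_lit 6))
    (@En.n l61 (nat_lit 8328) (nat_lit 5) (nat_lit 11))
    (@En.n l217 (nat_lit 10149) (nat_lit 5) (nat_lit 11))
    (@En.n l601 (nat_lit 8366) (nat_lit 11) (nat_lit 12))
    (@En.n l28 (nat_lit 8598) (nat_lit 15) (nat_lit 3))))
  (@Cl.mk (nat_lit 0x3000c000b000b00060004000c00050005000d0004000c0003000d000a0004) (nat_lit 0x275009003010960) (nat_lit 16) Lb.e (@T16.mk En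
    (@En.n l9274 (nat_lit 8372) (nat_lit 0) (nat_lit 4))
    (@En.i (nat_lit 9105) (nat_lit 14) (nat_lit 10))
    (@En.n l899 (nat_lit 7269) (nat_lit 1) (nat_lit 13))
    (@En.n l31324 (nat_lit 8329) (nat_lit 3) (nat_lit 3))
    (@En.n l9274 (nat_lit 8294) (nat_lit 0) (nat_lit 12))
    (@En.i (nat_lit 8331) (nat_lit 5) (nat_lit 4))
    (@En.n l899 (nat_lit 10173) (nat_lit 2) (nat_lit 13))
    (@En.n l9272 (nat_lit 8333) (nat_lit 11) (nat_lit 5))
    (@En.n l3851 (nat_lit 9969) (nat_lit 8) (nat_lit 5))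
    (@En.n l18470 (nat_lit 8609) (nat_lit 10) (nat_lit 12))
    (@En.i (nat_lit 8310) (nat_lit 10) (nat_lit 4))
    (@En.n l30102 (nat_lit 10175) (nat_lit 0) (nat_lit 6))
    (@En.n l9279 (nat_lit 8326) (nat_lit 5) (nat_lit 11))
    (@En.n l3518 (nat_lit 10150) (nat_lit 5) (nat_lit 11))
    (@En.n l612 (nat_lit 8367) (nat_lit 11) (nat_lit 12))
    (@En.n l50 (nat_lit 8599) (nat_lit 13) (nat_lit 3))))
  (@Cl.mk (nat_lit 0x3000c000a000a00060004000c000b000600060004000c0005000d000a0004) (nat_lit 0x251009500000960) (nat_lit 16) Lb.e (@T16.mk En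
    (@En.n l7794 (nat_lit 8586) (nat_lit 0) (nat_lit 4))
    (@En.i (nat_lit 9108) (nat_lit 0) (nat_lit 10))
    (@En.n l3647 (nat_lit 7361) (nat_lit 1) (nat_lit 13))
    (@En.n l30099 (nat_lit 9013) (nat_lit 3) (nat_lit 5))
    (@En.n l30100 (nat_lit 8375) (nat_lit 10) (nat_lit 12))
    (@En.n l22921 (nat_lit 8336) (nat_lit 5) (nat_lit 4))
    (@En.n l9272 (nat_lit 8334) (nat_lit 10) (nat_lit 6))
    (@En.n l3647 (nat_lit 10292) (nat_lit 7) (nat_lit 6))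
    (@En.n l22922 (nat_lit 8329) (nat_lit 9) (nat_lit 11))
    (@En.n l30101 (nat_lit 8623) (nat_lit 10) (nat_lit 12))
    (@En.i (nat_lit 8493) (nat_lit 10) (nat_lit 4))
    (@En.n l30102 (nat_lit 10182) (nat_lit 0) (nat_lit 6))
    (@En.n l9279 (nat_lit 8327) (nat_lit 6) (nat_lit 10))
    (@En.n l3518 (nat_lit 10145) (nat_lit 14) (nat_lit 10))
    (@En.n l30103 (nat_lit 8480) (nat_lit 3) (nat_lit 12))
    (@En.n l50 (nat_lit 8482) (nat_lit 13) (nat_lit 3))))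
  (@Cl.mk (nat_lit 0x200070005000c0005000d000b00040003000d000900050003000b000e000b) (nat_lit 0x3018002500976) (nat_lit 16) Lb.e (@T16.mk En
    (@En.n l3247 (nat_lit 8329) (nat_lit 13) (nat_lit 11))
    (@En.n l1029 (nat_lit 12493) (nat_lit 4) (nat_lit 14))
    (@En.i (nat_lit 8450) (nat_lit 2) (nat_lit 11))
    (@En.n l50 (nat_lit 8596) (nat_lit 3) (nat_lit 3))
    (@En.n l1029 (nat_lit 6419) (nat_lit 4) (nat_lit 5))
    (@En.i (nat_lit 9098) (nat_lit 5) (nat_lit 9))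
    (@En.n l14755 (nat_lit 7630) (nat_lit 7) (nat_lit 13))
    (@En.n l28 (nat_lit 8333) (nat_lit 7) (nat_lit 3))
    (@En.i (nat_lit 8087) (nat_lit 8) (nat_lit 4))
    (@En.i (nat_lit 8526) (nat_lit 10) (nat_lit 11))
    (@En.i (nat_lit 5544) (nat_lit 11) (nat_lit 13))
    (@En.n l117 (nat_lit 10171) (nat_lit 12) (nat_lit 5))
    (@En.i (nat_lit 7354) (nat_lit 13) (nat_lit 12))
    (@En.n l17 (nat_lit 8335) (nat_lit 14) (nat_lit 5))
    (@En.i (nat_lit 8336) (nat_lit 6) (nat_lit 7))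
    (@En.n l3 (nat_lit 8332) (nat_lit 15) (nat_lit 2))))
  (@Cl.mk (nat_lit 0x200070005000d0005000d0003000c0003000d000900040003000b000e000b) (nat_lit 0x4010208500288) (nat_lit 16) Lb.e (@T16.mk En
    (@En.n l17 (nat_lit 8330) (nat_lit 13) (nat_lit 11))
    (@En.i (nat_lit 10124) (nat_lit 4) (nat_lit 14))
    (@En.i (nat_lit 8444) (nat_lit 2) (nat_lit 11))
    (@En.n l50 (nat_lit 8597) (nat_lit 3) (nat_lit 3))
    (@En.i (nat_lit 8581) (nat_lit 4) (nat_lit 4))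
    (@En.i (nat_lit 9100) (nat_lit 5) (nat_lit 9))
    (@En.i (nat_lit 7271) (nat_lit 7) (nat_lit 13))
    (@En.i (nat_lit 8332) (nat_lit 7) (nat_lit 3))
    (@En.i (nat_lit 8552) (nat_lit 9) (nat_lit 12))
    (@En.i (nat_lit 8334) (nat_lit 9) (nat_lit 3))
    (@En.i (nat_lit 5543) (nat_lit 11) (nat_lit 13))
    (@En.n l117 (nat_lit 10191) (nat_lit 12) (nat_lit 5))
    (@En.i (nat_lit 8610) (nat_lit 13) (nat_lit 13))
    (@En.n l17 (nat_lit 8337) (nat_lit 14) (nat_lit 5))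
    (@En.i (nat_lit 10287) (nat_lit 4) (nat_lit 7))
    (@En.n l3 (nat_lit 8333) (nat_lit 15) (nat_lit 2))))
  (@Cl.mk (nat_lit 0x200070005000d000c00060003000c0004000d000900040003000b000e000a) (nat_lit 0x34002015008a6) (nat_lit 16) Lb.e (@T16.mk En
    (@En.n l17 (nat_lit 8331) (nat_lit 13) (nat_lit 10))
    (@En.n l1029 (nat_lit 12394) (nat_lit 4) (nat_lit 14))
    (@En.i (nat_lit 8449) (nat_lit 2) (nat_lit 11))
    (@En.n l50 (nat_lit 8484) (nat_lit 3) (nat_lit 3))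
    (@En.n l1029 (nat_lit 8582) (nat_lit 4) (nat_lit 4))
    (@En.i (nat_lit 9101) (nat_lit 5) (nat_lit 9))
    (@En.i (nat_lit 4011) (nat_lit 7) (nat_lit 13))
    (@En.n l5292 (nat_lit 9012) (nat_lit 7) (nat_lit 4))
    (@En.n l780 (nat_lit 8439) (nat_lit 9) (nat_lit 12))
    (@En.n l11 (nat_lit 8333) (nat_lit 9) (nat_lit 3))
    (@En.i (nat_lit 8682) (nat_lit 0) (nat_lit 6))
    (@En.n l55 (nat_lit 8332) (nat_lit 12) (nat_lit 12))
    (@En.i (nat_lit 8626) (nat_lit 13) (nat_lit 13))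
    (@En.n l17 (nat_lit 8338) (nat_lit 14) (nat_lit 5))
    (@En.i (nat_lit 10286) (nat_lit 4) (nat_lit 7))
    (@En.n l3 (nat_lit 8334) (nat_lit 15) (nat_lit 2))))
  (@Cl.mk (nat_lit 0x20005000c0004000d000b00040003000d000c00050003000b0004000e000c) (nat_lit 0x20370020003087) (nat_lit 16) Lb.e (@T16.mk En
    (@En.n l345 (nat_lit 8339) (nat_lit 12) (nat_lit 12))
    (@En.i (nat_lit 8332) (nat_lit 1) (nat_lit 14))
    (@En.n l50 (nat_lit 8635) (nat_lit 2) (nat_lit 4))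
    (@En.n l5 (nat_lit 8452) (nat_lit 3) (nat_lit 11))
    (@En.n l50 (nat_lit 8592) (nat_lit 4) (nat_lit 3))
    (@En.n l28 (nat_lit 6418) (nat_lit 5) (nat_lit 5))
    (@En.n l217 (nat_lit 8593) (nat_lit 7) (nat_lit 12))
    (@En.n l601 (nat_lit 7632) (nat_lit 8) (nat_lit 13))
    (@En.n l28 (nat_lit 8337) (nat_lit 8) (nat_lit 3))
    (@En.i (nat_lit 8085) (nat_lit 9) (nat_lit 4))
    (@En.i (nat_lit 8527) (nat_lit 11) (nat_lit 11))
    (@En.i (nat_lit 5540) (nat_lit 12) (nat_lit 13))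
    (@En.n l117 (nat_lit 10165) (nat_lit 13) (nat_lit 4))
    (@En.i (nat_lit 6992) (nat_lit 14) (nat_lit 12))
    (@En.i (nat_lit 8326) (nat_lit 13) (nat_lit 5))
    (@En.n l3 (nat_lit 8335) (nat_lit 15) (nat_lit 2))))
noncomputable def a521 : T16 Cl := @T16.mk Cl
  (@Cl.mk (nat_lit 0x3000c0009000c00060004000c0004000c00070004000c0004000d000a0004) (nat_lit 0x351002000000120) (nat_lit 16) Lb.e (@T16.mk En
    (@En.n l5294 (nat_lit 9278) (nat_lit 0) (nat_lit 4))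
    (@En.i (nat_lit 9054) (nat_lit 0) (nat_lit 10))
    (@En.i (nat_lit 4205) (nat_lit 1) (nat_lit 13))
    (@En.n l117 (nat_lit 10178) (nat_lit 3) (nat_lit 4))
    (@En.i (nat_lit 10569) (nat_lit 0) (nat_lit 12))
    (@En.n l15186 (nat_lit 8330) (nat_lit 5) (nat_lit 4))
    (@En.i (nat_lit 10290) (nat_lit 6) (nat_lit 7))
    (@En.n l19493 (nat_lit 10172) (nat_lit 1) (nat_lit 12))
    (@En.n l25037 (nat_lit 11844) (nat_lit 8) (nat_lit 4))
    (@En.n l5649 (nat_lit 10322) (nat_lit 10) (nat_lit 12))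
    (@En.n l50 (nat_lit 8601) (nat_lit 10) (nat_lit 4))
    (@En.n l10108 (nat_lit 10178) (nat_lit 0) (nat_lit 6))
    (@En.i (nat_lit 8335) (nat_lit 6) (nat_lit 12))
    (@En.i (nat_lit 12711) (nat_lit 14) (nat_lit 9))
    (@En.n l601 (nat_lit 10089) (nat_lit 11) (nat_lit 12))
    (@En.n l28 (nat_lit 10287) (nat_lit 13) (nat_lit 3))))
  (@Cl.mk (nat_lit 0x20005000d0004000d0003000c0003000d000c00040003000b0004000e000c) (nat_lit 0x30300010003099) (nat_lit 16) Lb.e (@T16.mk En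
    (@En.i (nat_lit 8310) (nat_lit 12) (nat_lit 12))
    (@En.i (nat_lit 8333) (nat_lit 1) (nat_lit 14))
    (@En.n l50 (nat_lit 8634) (nat_lit 2) (nat_lit 4))
    (@En.n l5 (nat_lit 8446) (nat_lit 3) (nat_lit 11))
    (@En.n l50 (nat_lit 8311) (nat_lit 4) (nat_lit 3))
    (@En.i (nat_lit 8579) (nat_lit 5) (nat_lit 4))
    (@En.n l217 (nat_lit 8594) (nat_lit 7) (nat_lit 12))
    (@En.i (nat_lit 4004) (nat_lit 8) (nat_lit 13))
    (@En.i (nat_lit 8335) (nat_lit 8) (nat_lit 3))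
    (@En.i (nat_lit 8551) (nat_lit 10) (nat_lit 12))
    (@En.i (nat_lit 8338) (nat_lit 10) (nat_lit 3))
    (@En.i (nat_lit 5541) (nat_lit 12) (nat_lit 13))
    (@En.n l117 (nat_lit 10189) (nat_lit 13) (nat_lit 4))
    (@En.i (nat_lit 4406) (nat_lit 14) (nat_lit 13))
    (@En.i (nat_lit 8298) (nat_lit 13) (nat_lit 5))
    (@En.n l3 (nat_lit 8337) (nat_lit 15) (nat_lit 2))))
  (@Cl.mk (nat_lit 0x20005000d000c00050003000c0004000d000c00040003000b0004000e000b) (nat_lit 0x230020130080b7) (nat_lit 16) Lb.e (@T16.mk En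
    (@En.i (nat_lit 8493) (nat_lit 12) (nat_lit 11))
    (@En.i (nat_lit 8334) (nat_lit 1) (nat_lit 14))
    (@En.n l50 (nat_lit 7345) (nat_lit 2) (nat_lit 4))
    (@En.n l5 (nat_lit 8447) (nat_lit 3) (nat_lit 11))
    (@En.n l50 (nat_lit 8486) (nat_lit 4) (nat_lit 3))
    (@En.i (nat_lit 8580) (nat_lit 5) (nat_lit 4))
    (@En.n l217 (nat_lit 8490) (nat_lit 7) (nat_lit 12))
    (@En.i (nat_lit 4005) (nat_lit 8) (nat_lit 13))
    (@En.n l11 (nat_lit 8086) (nat_lit 8) (nat_lit 4))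
    (@En.n l287 (nat_lit 8441) (nat_lit 10) (nat_lit 12))
    (@En.n l11 (nat_lit 8337) (nat_lit 10) (nat_lit 3))
    (@En.i (nat_lit 8680) (nat_lit 0) (nat_lit 5))
    (@En.n l55 (nat_lit 8335) (nat_lit 13) (nat_lit 12))
    (@En.i (nat_lit 4399) (nat_lit 14) (nat_lit 13))
    (@En.i (nat_lit 8241) (nat_lit 13) (nat_lit 5))
    (@En.n l3 (nat_lit 8338) (nat_lit 15) (nat_lit 2))))
  (@Cl.mk (nat_lit 0x3000c0004000c000c0004000b00040004000d000b00050003000d000c0005) (nat_lit 0x206003002000b80) (nat_lit 16) Lb.e (@T16.mk En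
    (@En.n l473 (nat_lit 6253) (nat_lit 0) (nat_lit 5))
    (@En.n l77 (nat_lit 8595) (nat_lit 14) (nat_lit 12))
    (@En.i (nat_lit 7639) (nat_lit 2) (nat_lit 13))
    (@En.n l2710 (nat_lit 8310) (nat_lit 3) (nat_lit 3))
    (@En.n l14227 (nat_lit 9040) (nat_lit 0) (nat_lit 5))
    (@En.n l2749 (nat_lit 8533) (nat_lit 13) (nat_lit 11))
    (@En.n l8312 (nat_lit 9150) (nat_lit 2) (nat_lit 13))
    (@En.n l1071 (nat_lit 8335) (nat_lit 12) (nat_lit 4))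
    (@En.i (nat_lit 10160) (nat_lit 8) (nat_lit 4))
    (@En.n l11217 (nat_lit 6990) (nat_lit 0) (nat_lit 11))
    (@En.n l3532 (nat_lit 4327) (nat_lit 1) (nat_lit 4))
    (@En.n l61 (nat_lit 8340) (nat_lit 4) (nat_lit 12))
    (@En.i (nat_lit 8857) (nat_lit 1) (nat_lit 12))
    (@En.n l28 (nat_lit 8319) (nat_lit 9) (nat_lit 4))
    (@En.n l601 (nat_lit 8360) (nat_lit 11) (nat_lit 12))
    (@En.n l28 (nat_lit 8309) (nat_lit 15) (nat_lit 3))))
  (@Cl.mk (nat_lit 0x2000d000b00060003000d000c00050003000d0004000c0003000a000e0004) (nat_lit 0x1900b90090a0240) (nat_lit 16) Lb.e (@T16.mk En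
    (@En.i (nat_lit 8339) (nat_lit 8) (nat_lit 4))
    (@En.i (nat_lit 4044) (nat_lit 1) (nat_lit 14))
    (@En.i (nat_lit 6994) (nat_lit 2) (nat_lit 10))
    (@En.i (nat_lit 8328) (nat_lit 3) (nat_lit 3))
    (@En.i (nat_lit 8858) (nat_lit 0) (nat_lit 12))
    (@En.n l28 (nat_lit 8316) (nat_lit 5) (nat_lit 4))
    (@En.n l601 (nat_lit 8357) (nat_lit 7) (nat_lit 13))
    (@En.n l28 (nat_lit 8303) (nat_lit 7) (nat_lit 3))
    (@En.n l473 (nat_lit 6423) (nat_lit 8) (nat_lit 5))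
    (@En.n l77 (nat_lit 8305) (nat_lit 10) (nat_lit 12))
    (@En.i (nat_lit 8091) (nat_lit 11) (nat_lit 13))
    (@En.n l152 (nat_lit 8302) (nat_lit 11) (nat_lit 3))
    (@En.i (nat_lit 8982) (nat_lit 0) (nat_lit 6))
    (@En.n l97 (nat_lit 8346) (nat_lit 14) (nat_lit 11))
    (@En.n l1236 (nat_lit 4326) (nat_lit 2) (nat_lit 13))
    (@En.n l17 (nat_lit 8340) (nat_lit 15) (nat_lit 2))))
  (@Cl.mk (nat_lit 0x20005000c0006000d000c00040003000d0004000b0003000b000a000e0005) (nat_lit 0x50b90080009380) (nat_lit 16) Lb.e (@T16.mk En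
    (@En.n l3098 (nat_lit 8493) (nat_lit 7) (nat_lit 5))
    (@En.n l3 (nat_lit 8302) (nat_lit 1) (nat_lit 14))
    (@En.n l3 (nat_lit 8340) (nat_lit 2) (nat_lit 10))
    (@En.i (nat_lit 4425) (nat_lit 3) (nat_lit 11))
    (@En.i (nat_lit 8327) (nat_lit 4) (nat_lit 3))
    (@En.i (nat_lit 8860) (nat_lit 0) (nat_lit 11))
    (@En.n l28 (nat_lit 8317) (nat_lit 6) (nat_lit 4))
    (@En.n l601 (nat_lit 8359) (nat_lit 8) (nat_lit 13))
    (@En.n l28 (nat_lit 7454) (nat_lit 8) (nat_lit 3))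
    (@En.i (nat_lit 8349) (nat_lit 9) (nat_lit 4))
    (@En.n l77 (nat_lit 8343) (nat_lit 11) (nat_lit 12))
    (@En.i (nat_lit 7200) (nat_lit 12) (nat_lit 13))
    (@En.i (nat_lit 9026) (nat_lit 13) (nat_lit 6))
    (@En.n l3105 (nat_lit 8377) (nat_lit 14) (nat_lit 12))
    (@En.n l3106 (nat_lit 8596) (nat_lit 13) (nat_lit 5))
    (@En.n l17 (nat_lit 8341) (nat_lit 15) (nat_lit 2))))
  (@Cl.mk (nat_lit 0x20005000d000c00070003000d0004000d0003000b0003000b0009000e0005) (nat_lit 0x4600a080008370) (nat_lit 16) Lb.e (@T16.mk En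
    (@En.n l3098 (nat_lit 8487) (nat_lit 9) (nat_lit 5))
    (@En.n l3 (nat_lit 8301) (nat_lit 1) (nat_lit 14))
    (@En.n l3 (nat_lit 4623) (nat_lit 2) (nat_lit 9))
    (@En.i (nat_lit 4423) (nat_lit 3) (nat_lit 11))
    (@En.i (nat_lit 8239) (nat_lit 4) (nat_lit 3))
    (@En.i (nat_lit 8864) (nat_lit 0) (nat_lit 11))
    (@En.i (nat_lit 8344) (nat_lit 6) (nat_lit 3))
    (@En.i (nat_lit 2771) (nat_lit 8) (nat_lit 13))
    (@En.n l11 (nat_lit 8345) (nat_lit 8) (nat_lit 4))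
    (@En.n l287 (nat_lit 8621) (nat_lit 10) (nat_lit 13))
    (@En.n l11 (nat_lit 7454) (nat_lit 10) (nat_lit 3))
    (@En.i (nat_lit 6032) (nat_lit 12) (nat_lit 7))
    (@En.n l55 (nat_lit 8341) (nat_lit 13) (nat_lit 12))
    (@En.n l19439 (nat_lit 8357) (nat_lit 14) (nat_lit 13))
    (@En.n l3106 (nat_lit 8484) (nat_lit 13) (nat_lit 5))
    (@En.n l17 (nat_lit 8342) (nat_lit 15) (nat_lit 2))))
  (@Cl.mk (nat_lit 0x20005000d0006000c0003000d000c00040003000b0004000b000a000e0005) (nat_lit 0x5080b900202360) (nat_lit 16) Lb.e (@T16.mk En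
    (@En.n l3098 (nat_lit 8492) (nat_lit 9) (nat_lit 5))
    (@En.n l3 (nat_lit 8300) (nat_lit 1) (nat_lit 14))
    (@En.n l3 (nat_lit 8305) (nat_lit 2) (nat_lit 10))
    (@En.i (nat_lit 4422) (nat_lit 3) (nat_lit 11))
    (@En.n l7 (nat_lit 7690) (nat_lit 4) (nat_lit 4))
    (@En.n l564 (nat_lit 10821) (nat_lit 6) (nat_lit 11))
    (@En.n l7 (nat_lit 7454) (nat_lit 6) (nat_lit 3))
    (@En.i (nat_lit 8314) (nat_lit 7) (nat_lit 4))
    (@En.n l644 (nat_lit 8240) (nat_lit 9) (nat_lit 12))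
    (@En.i (nat_lit 6962) (nat_lit 10) (nat_lit 13))
    (@En.i (nat_lit 8344) (nat_lit 10) (nat_lit 3))
    (@En.i (nat_lit 7369) (nat_lit 12) (nat_lit 12))
    (@En.i (nat_lit 8980) (nat_lit 13) (nat_lit 6))
    (@En.n l3105 (nat_lit 8355) (nat_lit 14) (nat_lit 13))
    (@En.n l3106 (nat_lit 8528) (nat_lit 13) (nat_lit 5))
    (@En.n l17 (nat_lit 8343) (nat_lit 15) (nat_lit 2))))
  (@Cl.mk (nat_lit 0x20005000d000b00070003000d000c00050003000b0004000b0009000e0005) (nat_lit 0x4800b900201160) (nat_lit 16) Lb.e (@T16.mk En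
    (@En.n l3098 (nat_lit 8489) (nat_lit 9) (nat_lit 5))
    (@En.n l3 (nat_lit 8306) (nat_lit 1) (nat_lit 14))
    (@En.n l3 (nat_lit 4624) (nat_lit 2) (nat_lit 9))
    (@En.n l2739 (nat_lit 779) (nat_lit 3) (nat_lit 11))
    (@En.n l9774 (nat_lit 7692) (nat_lit 4) (nat_lit 4))
    (@En.n l17999 (nat_lit 10718) (nat_lit 6) (nat_lit 11))
    (@En.n l7 (nat_lit 8342) (nat_lit 6) (nat_lit 3))
    (@En.n l10831 (nat_lit 6892) (nat_lit 7) (nat_lit 5))
    (@En.n l644 (nat_lit 8239) (nat_lit 9) (nat_lit 12))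
    (@En.n l287 (nat_lit 7902) (nat_lit 10) (nat_lit 13))
    (@En.n l11 (nat_lit 8343) (nat_lit 10) (nat_lit 3))
    (@En.n l10215 (nat_lit 6033) (nat_lit 12) (nat_lit 7))
    (@En.i (nat_lit 8317) (nat_lit 13) (nat_lit 11))
    (@En.n l19439 (nat_lit 8354) (nat_lit 14) (nat_lit 13))
    (@En.n l3106 (nat_lit 8483) (nat_lit 13) (nat_lit 5))
    (@En.n l17 (nat_lit 8344) (nat_lit 15) (nat_lit 2))))
  (@Cl.mk (nat_lit 0x20005000c000c000b000800040004000d0005000b0003000b0008000e0005) (nat_lit 0x52940070001250) (nat_lit 16) Lb.e (@T16.mk En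
    (@En.n l19581 (nat_lit 8350) (nat_lit 6) (nat_lit 5))
    (@En.n l3 (nat_lit 8346) (nat_lit 1) (nat_lit 14))
    (@En.n l4245 (nat_lit 2413) (nat_lit 2) (nat_lit 8))
    (@En.n l7903 (nat_lit 776) (nat_lit 3) (nat_lit 11))
    (@En.n l9731 (nat_lit 8348) (nat_lit 4) (nat_lit 3))
    (@En.n l5236 (nat_lit 8866) (nat_lit 0) (nat_lit 11))
    (@En.n l9731 (nat_lit 6887) (nat_lit 6) (nat_lit 5))
    (@En.n l41204 (nat_lit 8351) (nat_lit 8) (nat_lit 13))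
    (@En.n l41205 (nat_lit 8347) (nat_lit 8) (nat_lit 4))
    (@En.i (nat_lit 8341) (nat_lit 9) (nat_lit 4))
    (@En.n l19580 (nat_lit 2303) (nat_lit 11) (nat_lit 8))
    (@En.n l457 (nat_lit 8344) (nat_lit 12) (nat_lit 11))
    (@En.n l1578 (nat_lit 8349) (nat_lit 13) (nat_lit 12))
    (@En.n l19023 (nat_lit 8353) (nat_lit 14) (nat_lit 12))
    (@En.n l3106 (nat_lit 8083) (nat_lit 13) (nat_lit 5))
    (@En.n l17 (nat_lit 8345) (nat_lit 15) (nat_lit 2))))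
  (@Cl.mk (nat_lit 0x2000b0005000c000c000b000500040004000d0005000c0003000b000e0004) (nat_lit 0x800090009000240) (nat_lit 16) Lb.e (@T16.mk En
    (@En.n l19581 (nat_lit 8533) (nat_lit 15) (nat_lit 4))
    (@En.i (nat_lit 2678) (nat_lit 4) (nat_lit 14))
    (@En.i (nat_lit 2218) (nat_lit 2) (nat_lit 11))
    (@En.i (nat_lit 8371) (nat_lit 3) (nat_lit 3))
    (@En.n l4943 (nat_lit 8865) (nat_lit 0) (nat_lit 12))
    (@En.n l28 (nat_lit 6888) (nat_lit 5) (nat_lit 5))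
    (@En.n l6370 (nat_lit 8413) (nat_lit 7) (nat_lit 13))
    (@En.n l1577 (nat_lit 8564) (nat_lit 7) (nat_lit 4))
    (@En.i (nat_lit 8302) (nat_lit 8) (nat_lit 4))
    (@En.n l4946 (nat_lit 6425) (nat_lit 9) (nat_lit 5))
    (@En.n l457 (nat_lit 8306) (nat_lit 11) (nat_lit 11))
    (@En.n l1578 (nat_lit 8368) (nat_lit 12) (nat_lit 12))
    (@En.n l20132 (nat_lit 8510) (nat_lit 13) (nat_lit 12))
    (@En.i (nat_lit 8345) (nat_lit 14) (nat_lit 5))
    (@En.i (nat_lit 8572) (nat_lit 11) (nat_lit 11))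
    (@En.n l17 (nat_lit 8346) (nat_lit 15) (nat_lit 2))))
  (@Cl.mk (nat_lit 0x20005000e000c0002000c00090004000d0004000b0003000b0007000e0005) (nat_lit 0x560950a0001050) (nat_lit 16) Lb.e (@T16.mk En
    (@En.n l36733 (nat_lit 8536) (nat_lit 4) (nat_lit 5))
    (@En.n l10903 (nat_lit 8564) (nat_lit 1) (nat_lit 14))
    (@En.n l10903 (nat_lit 2410) (nat_lit 2) (nat_lit 7))
    (@En.n l1013 (nat_lit 777) (nat_lit 3) (nat_lit 11))
    (@En.i (nat_lit 8566) (nat_lit 4) (nat_lit 3))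
    (@En.n l17792 (nat_lit 8870) (nat_lit 10) (nat_lit 11))
    (@En.i (nat_lit 6894) (nat_lit 6) (nat_lit 4))
    (@En.n l21045 (nat_lit 1921) (nat_lit 8) (nat_lit 13))
    (@En.n l4153 (nat_lit 8342) (nat_lit 8) (nat_lit 4))
    (@En.i (nat_lit 2351) (nat_lit 10) (nat_lit 9))
    (@En.n l17792 (nat_lit 7901) (nat_lit 11) (nat_lit 12))
    (@En.n l3 (nat_lit 8347) (nat_lit 11) (nat_lit 2))
    (@En.n l19855 (nat_lit 8345) (nat_lit 13) (nat_lit 12))
    (@En.n l6771 (nat_lit 8215) (nat_lit 1) (nat_lit 14))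
    (@En.n l4155 (nat_lit 9002) (nat_lit 13) (nat_lit 5))
    (@En.n l17 (nat_lit 8347) (nat_lit 15) (nat_lit 2))))
  (@Cl.mk (nat_lit 0x20005000c000c000a000800040004000d000a00060003000b0008000e0006) (nat_lit 0x92530070002230) (nat_lit 16) Lb.e (@T16.mk En
    (@En.i (nat_lit 8577) (nat_lit 6) (nat_lit 6))
    (@En.n l19854 (nat_lit 8371) (nat_lit 1) (nat_lit 14))
    (@En.n l2639 (nat_lit 2411) (nat_lit 2) (nat_lit 8))
    (@En.n l890 (nat_lit 7895) (nat_lit 3) (nat_lit 11))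
    (@En.n l31016 (nat_lit 8345) (nat_lit 4) (nat_lit 3))
    (@En.n l2438 (nat_lit 1553) (nat_lit 5) (nat_lit 6))
    (@En.n l890 (nat_lit 9748) (nat_lit 7) (nat_lit 10))
    (@En.n l476 (nat_lit 8227) (nat_lit 8) (nat_lit 13))
    (@En.n l152 (nat_lit 8566) (nat_lit 8) (nat_lit 4))
    (@En.n l19855 (nat_lit 8327) (nat_lit 9) (nat_lit 4))
    (@En.i (nat_lit 2305) (nat_lit 11) (nat_lit 8))
    (@En.n l4684 (nat_lit 7692) (nat_lit 12) (nat_lit 10))
    (@En.n l10815 (nat_lit 8370) (nat_lit 13) (nat_lit 12))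
    (@En.n l1683 (nat_lit 8380) (nat_lit 14) (nat_lit 12))
    (@En.i (nat_lit 9012) (nat_lit 13) (nat_lit 5))
    (@En.n l17 (nat_lit 8348) (nat_lit 15) (nat_lit 2))))
  (@Cl.mk (nat_lit 0x20005000c000a0007000e00040002000d0006000b0003000b0009000e0005) (nat_lit 0x11090070008250) (nat_lit 16) Lb.e (@T16.mk En
    (@En.n l3098 (nat_lit 8585) (nat_lit 7) (nat_lit 5))
    (@En.n l3 (nat_lit 8368) (nat_lit 1) (nat_lit 14))
    (@En.n l28793 (nat_lit 6423) (nat_lit 2) (nat_lit 9))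
    (@En.n l5288 (nat_lit 2656) (nat_lit 3) (nat_lit 11))
    (@En.n l9774 (nat_lit 8370) (nat_lit 4) (nat_lit 3))
    (@En.n l1732 (nat_lit 8868) (nat_lit 0) (nat_lit 11))
    (@En.i (nat_lit 6885) (nat_lit 6) (nat_lit 6))
    (@En.n l8429 (nat_lit 8352) (nat_lit 8) (nat_lit 13))
    (@En.n l28 (nat_lit 8349) (nat_lit 8) (nat_lit 2))
    (@En.n l11 (nat_lit 8345) (nat_lit 9) (nat_lit 4))
    (@En.n l1732 (nat_lit 7458) (nat_lit 11) (nat_lit 14))
    (@En.n l8429 (nat_lit 2302) (nat_lit 12) (nat_lit 7))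
    (@En.i (nat_lit 8322) (nat_lit 13) (nat_lit 10))
    (@En.n l5288 (nat_lit 6430) (nat_lit 14) (nat_lit 12))
    (@En.n l3106 (nat_lit 8080) (nat_lit 13) (nat_lit 5))
    (@En.n l17 (nat_lit 8349) (nat_lit 15) (nat_lit 2))))
  (@Cl.mk (nat_lit 0x40004000c0005000b000b0004000c0009000500050004000c000c000b0007) (nat_lit 0x70510220000280) (nat_lit 16) Lb.e (@T16.mk En
    (@En.n l9823 (nat_lit 2301) (nat_lit 0) (nat_lit 7))
    (@En.n l217 (nat_lit 8489) (nat_lit 5) (nat_lit 11))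
    (@En.n l644 (nat_lit 8585) (nat_lit 4) (nat_lit 12))
    (@En.n l22524 (nat_lit 8421) (nat_lit 10) (nat_lit 12))
    (@En.n l28369 (nat_lit 8545) (nat_lit 12) (nat_lit 4))
    (@En.n l27693 (nat_lit 8477) (nat_lit 11) (nat_lit 5))
    (@En.n l19030 (nat_lit 8546) (nat_lit 1) (nat_lit 5))
    (@En.n l870 (nat_lit 2415) (nat_lit 0) (nat_lit 9))
    (@En.n l28370 (nat_lit 835) (nat_lit 1) (nat_lit 12))
    (@En.n l7 (nat_lit 9059) (nat_lit 9) (nat_lit 4))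
    (@En.n l27691 (nat_lit 8345) (nat_lit 5) (nat_lit 11))
    (@En.n l28371 (nat_lit 9057) (nat_lit 1) (nat_lit 11))
    (@En.n l15266 (nat_lit 2318) (nat_lit 7) (nat_lit 5))
    (@En.i (nat_lit 8419) (nat_lit 3) (nat_lit 12))
    (@En.n l1337 (nat_lit 8536) (nat_lit 12) (nat_lit 4))
    (@En.n l7 (nat_lit 8493) (nat_lit 0) (nat_lit 4))))
  (@Cl.mk (nat_lit 0x20005000c0008000c00080004000d0004000a00030008000b0008000e0006) (nat_lit 0x52a30600052360) (nat_lit 16) Lb.e (@T16.mk En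
    (@En.n l35193 (nat_lit 8419) (nat_lit 11) (nat_lit 6))
    (@En.n l23731 (nat_lit 8413) (nat_lit 1) (nat_lit 14))
    (@En.n l23731 (nat_lit 8218) (nat_lit 2) (nat_lit 8))
    (@En.i (nat_lit 8347) (nat_lit 3) (nat_lit 11))
    (@En.n l10114 (nat_lit 8909) (nat_lit 4) (nat_lit 8))
    (@En.i (nat_lit 8227) (nat_lit 5) (nat_lit 3))
    (@En.n l17792 (nat_lit 8440) (nat_lit 0) (nat_lit 10))
    (@En.i (nat_lit 8383) (nat_lit 7) (nat_lit 4))
    (@En.n l1125 (nat_lit 1915) (nat_lit 9) (nat_lit 13))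
    (@En.n l23732 (nat_lit 8359) (nat_lit 9) (nat_lit 4))
    (@En.n l3675 (nat_lit 2605) (nat_lit 11) (nat_lit 8))
    (@En.n l35194 (nat_lit 8239) (nat_lit 12) (nat_lit 12))
    (@En.n l35195 (nat_lit 8410) (nat_lit 13) (nat_lit 8))
    (@En.n l35196 (nat_lit 8411) (nat_lit 14) (nat_lit 12))
    (@En.n l10289 (nat_lit 9894) (nat_lit 13) (nat_lit 5))
    (@En.n l17 (nat_lit 8351) (nat_lit 15) (nat_lit 2))))
noncomputable def a522 : T16 Cl := @T16.mk Cl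
  (@Cl.mk (nat_lit 0x20005000c000b0007000a0004000d0005000a00030006000b0009000e0006) (nat_lit 0x79030600002360) (nat_lit 16) Lb.e (@T16.mk En
    (@En.n l37935 (nat_lit 8420) (nat_lit 11) (nat_lit 6))
    (@En.n l8794 (nat_lit 8377) (nat_lit 1) (nat_lit 14))
    (@En.n l37936 (nat_lit 8353) (nat_lit 2) (nat_lit 9))
    (@En.n l37937 (nat_lit 8345) (nat_lit 3) (nat_lit 11))
    (@En.n l15816 (nat_lit 7795) (nat_lit 4) (nat_lit 6))
    (@En.n l9317 (nat_lit 8376) (nat_lit 5) (nat_lit 3))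
    (@En.n l19979 (nat_lit 8423) (nat_lit 0) (nat_lit 10))
    (@En.n l10152 (nat_lit 6896) (nat_lit 7) (nat_lit 5))
    (@En.n l37938 (nat_lit 8410) (nat_lit 9) (nat_lit 13))
    (@En.n l8691 (nat_lit 8351) (nat_lit 9) (nat_lit 4))
    (@En.n l37939 (nat_lit 2741) (nat_lit 11) (nat_lit 10))
    (@En.i (nat_lit 2603) (nat_lit 12) (nat_lit 7))
    (@En.n l37940 (nat_lit 8356) (nat_lit 13) (nat_lit 11))
    (@En.n l9600 (nat_lit 6434) (nat_lit 14) (nat_lit 12))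
    (@En.n l37941 (nat_lit 8078) (nat_lit 13) (nat_lit 5))
    (@En.n l28 (nat_lit 8352) (nat_lit 15) (nat_lit 2))))
  (@Cl.mk (nat_lit 0x2000c000b000a00070004000a0005000d0006000b000300060009000e0005) (nat_lit 0x468004070000250) (nat_lit 16) Lb.e (@T16.mk En
    (@En.n l3447 (nat_lit 8421) (nat_lit 12) (nat_lit 5))
    (@En.n l23774 (nat_lit 8510) (nat_lit 1) (nat_lit 14))
    (@En.n l38996 (nat_lit 7532) (nat_lit 9) (nat_lit 9))
    (@En.i (nat_lit 7794) (nat_lit 12) (nat_lit 6))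
    (@En.n l10818 (nat_lit 8380) (nat_lit 4) (nat_lit 3))
    (@En.n l1643 (nat_lit 8441) (nat_lit 0) (nat_lit 11))
    (@En.n l5389 (nat_lit 8275) (nat_lit 6) (nat_lit 6))
    (@En.n l36789 (nat_lit 8411) (nat_lit 8) (nat_lit 13))
    (@En.n l23774 (nat_lit 8218) (nat_lit 8) (nat_lit 5))
    (@En.n l38997 (nat_lit 8352) (nat_lit 10) (nat_lit 10))
    (@En.n l37596 (nat_lit 8377) (nat_lit 10) (nat_lit 4))
    (@En.n l97 (nat_lit 2600) (nat_lit 12) (nat_lit 7))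
    (@En.n l7867 (nat_lit 8354) (nat_lit 13) (nat_lit 10))
    (@En.n l217 (nat_lit 6431) (nat_lit 14) (nat_lit 11))
    (@En.n l7650 (nat_lit 10668) (nat_lit 10) (nat_lit 12))
    (@En.n l28 (nat_lit 8353) (nat_lit 15) (nat_lit 2))))
  (@Cl.mk (nat_lit 0x2000d000a000600030009000d000c00060003000b00040007000a000e0005) (nat_lit 0x37006b600100230) (nat_lit 16) Lb.e (@T16.mk En
    (@En.n l20398 (nat_lit 8361) (nat_lit 4) (nat_lit 5))
    (@En.i (nat_lit 4062) (nat_lit 1) (nat_lit 14))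
    (@En.n l7889 (nat_lit 7535) (nat_lit 2) (nat_lit 10))
    (@En.n l34406 (nat_lit 4079) (nat_lit 11) (nat_lit 7))
    (@En.n l6574 (nat_lit 819) (nat_lit 4) (nat_lit 4))
    (@En.n l13266 (nat_lit 6214) (nat_lit 0) (nat_lit 11))
    (@En.n l28 (nat_lit 8357) (nat_lit 6) (nat_lit 3))
    (@En.n l34407 (nat_lit 9302) (nat_lit 0) (nat_lit 6))
    (@En.n l77 (nat_lit 8238) (nat_lit 9) (nat_lit 12))
    (@En.i (nat_lit 8328) (nat_lit 10) (nat_lit 13))
    (@En.n l1690 (nat_lit 8356) (nat_lit 11) (nat_lit 9))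
    (@En.n l152 (nat_lit 8355) (nat_lit 11) (nat_lit 3))
    (@En.n l34406 (nat_lit 6051) (nat_lit 0) (nat_lit 6))
    (@En.n l97 (nat_lit 8382) (nat_lit 14) (nat_lit 10))
    (@En.n l8604 (nat_lit 7622) (nat_lit 2) (nat_lit 13))
    (@En.n l17 (nat_lit 8354) (nat_lit 15) (nat_lit 2))))
  (@Cl.mk (nat_lit 0x2000d0005000b00030009000d000c00050003000b00040007000b000e0005) (nat_lit 0x408069600100330) (nat_lit 16) Lb.e (@T16.mk En
    (@En.n l24881 (nat_lit 8363) (nat_lit 4) (nat_lit 5))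
    (@En.i (nat_lit 4060) (nat_lit 4) (nat_lit 14))
    (@En.n l245 (nat_lit 8306) (nat_lit 2) (nat_lit 11))
    (@En.n l11297 (nat_lit 4080) (nat_lit 11) (nat_lit 7))
    (@En.n l28 (nat_lit 820) (nat_lit 4) (nat_lit 4))
    (@En.n l9726 (nat_lit 6213) (nat_lit 0) (nat_lit 11))
    (@En.n l28 (nat_lit 8358) (nat_lit 6) (nat_lit 3))
    (@En.i (nat_lit 9304) (nat_lit 0) (nat_lit 5))
    (@En.n l77 (nat_lit 8236) (nat_lit 9) (nat_lit 12))
    (@En.i (nat_lit 8326) (nat_lit 10) (nat_lit 13))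
    (@En.n l6172 (nat_lit 2746) (nat_lit 11) (nat_lit 9))
    (@En.n l117 (nat_lit 8354) (nat_lit 11) (nat_lit 3))
    (@En.n l781 (nat_lit 8291) (nat_lit 0) (nat_lit 11))
    (@En.i (nat_lit 8356) (nat_lit 14) (nat_lit 5))
    (@En.n l16924 (nat_lit 8243) (nat_lit 2) (nat_lit 13))
    (@En.n l17 (nat_lit 8355) (nat_lit 15) (nat_lit 2))))
  (@Cl.mk (nat_lit 0x20005000b00060009000d000c00050003000a00040007000b000a000e0006) (nat_lit 0x80598001002340) (nat_lit 16) Lb.e (@T16.mk En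
    (@En.n l24881 (nat_lit 8365) (nat_lit 8) (nat_lit 6))
    (@En.n l3 (nat_lit 8355) (nat_lit 1) (nat_lit 14))
    (@En.n l3 (nat_lit 8354) (nat_lit 2) (nat_lit 10))
    (@En.n l245 (nat_lit 8344) (nat_lit 3) (nat_lit 11))
    (@En.n l21905 (nat_lit 4078) (nat_lit 4) (nat_lit 7))
    (@En.n l21786 (nat_lit 5458) (nat_lit 5) (nat_lit 4))
    (@En.n l9726 (nat_lit 6215) (nat_lit 0) (nat_lit 10))
    (@En.n l28 (nat_lit 8359) (nat_lit 7) (nat_lit 3))
    (@En.n l24421 (nat_lit 9303) (nat_lit 8) (nat_lit 5))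
    (@En.n l77 (nat_lit 8237) (nat_lit 10) (nat_lit 12))
    (@En.i (nat_lit 8327) (nat_lit 11) (nat_lit 13))
    (@En.n l17725 (nat_lit 2743) (nat_lit 12) (nat_lit 9))
    (@En.n l19376 (nat_lit 6049) (nat_lit 13) (nat_lit 6))
    (@En.n l21905 (nat_lit 8381) (nat_lit 14) (nat_lit 11))
    (@En.n l3106 (nat_lit 7629) (nat_lit 13) (nat_lit 5))
    (@En.n l17 (nat_lit 8356) (nat_lit 15) (nat_lit 2))))
  (@Cl.mk (nat_lit 0x2000d000b000600030009000d0005000d0003000b00030007000a000e0005) (nat_lit 0x300061080100330) (nat_lit 16) Lb.e (@T16.mk En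
    (@En.i (nat_lit 8360) (nat_lit 4) (nat_lit 5))
    (@En.i (nat_lit 4061) (nat_lit 1) (nat_lit 14))
    (@En.n l7889 (nat_lit 7534) (nat_lit 2) (nat_lit 10))
    (@En.n l4172 (nat_lit 4075) (nat_lit 3) (nat_lit 7))
    (@En.i (nat_lit 8238) (nat_lit 4) (nat_lit 3))
    (@En.n l217 (nat_lit 7678) (nat_lit 0) (nat_lit 11))
    (@En.i (nat_lit 8354) (nat_lit 6) (nat_lit 3))
    (@En.n l5592 (nat_lit 2768) (nat_lit 0) (nat_lit 13))
    (@En.n l23891 (nat_lit 8353) (nat_lit 8) (nat_lit 5))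
    (@En.i (nat_lit 4629) (nat_lit 10) (nat_lit 13))
    (@En.n l1690 (nat_lit 8359) (nat_lit 11) (nat_lit 9))
    (@En.n l152 (nat_lit 8358) (nat_lit 11) (nat_lit 3))
    (@En.n l8604 (nat_lit 6057) (nat_lit 0) (nat_lit 6))
    (@En.n l619 (nat_lit 8413) (nat_lit 14) (nat_lit 11))
    (@En.n l8604 (nat_lit 7624) (nat_lit 2) (nat_lit 13))
    (@En.n l17 (nat_lit 8357) (nat_lit 15) (nat_lit 2))))
  (@Cl.mk (nat_lit 0x2000d0005000c00030009000d0004000d0003000b00030007000b000e0005) (nat_lit 0x400069080100930) (nat_lit 16) Lb.e (@T16.mk En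
    (@En.n l24881 (nat_lit 8362) (nat_lit 4) (nat_lit 5))
    (@En.i (nat_lit 4058) (nat_lit 4) (nat_lit 14))
    (@En.n l245 (nat_lit 8301) (nat_lit 2) (nat_lit 11))
    (@En.n l4172 (nat_lit 4076) (nat_lit 3) (nat_lit 7))
    (@En.i (nat_lit 8236) (nat_lit 4) (nat_lit 3))
    (@En.n l217 (nat_lit 7677) (nat_lit 0) (nat_lit 11))
    (@En.i (nat_lit 8355) (nat_lit 6) (nat_lit 3))
    (@En.n l5592 (nat_lit 2769) (nat_lit 0) (nat_lit 13))
    (@En.i (nat_lit 8377) (nat_lit 8) (nat_lit 4))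
    (@En.i (nat_lit 8298) (nat_lit 10) (nat_lit 13))
    (@En.n l6172 (nat_lit 2745) (nat_lit 11) (nat_lit 9))
    (@En.n l117 (nat_lit 8357) (nat_lit 11) (nat_lit 3))
    (@En.n l781 (nat_lit 8760) (nat_lit 0) (nat_lit 12))
    (@En.i (nat_lit 8359) (nat_lit 14) (nat_lit 5))
    (@En.n l16924 (nat_lit 7625) (nat_lit 2) (nat_lit 13))
    (@En.n l17 (nat_lit 8358) (nat_lit 15) (nat_lit 2))))
  (@Cl.mk (nat_lit 0x20005000c00060009000d0004000d0003000a00030007000b000a000e0006) (nat_lit 0x530701009440) (nat_lit 16) Lb.e (@T16.mk En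
    (@En.n l24881 (nat_lit 8364) (nat_lit 8) (nat_lit 6))
    (@En.n l3 (nat_lit 8358) (nat_lit 1) (nat_lit 14))
    (@En.n l3 (nat_lit 8357) (nat_lit 2) (nat_lit 10))
    (@En.n l245 (nat_lit 8342) (nat_lit 3) (nat_lit 11))
    (@En.n l4172 (nat_lit 4077) (nat_lit 4) (nat_lit 7))
    (@En.i (nat_lit 8237) (nat_lit 5) (nat_lit 3))
    (@En.n l217 (nat_lit 7679) (nat_lit 0) (nat_lit 10))
    (@En.i (nat_lit 8356) (nat_lit 7) (nat_lit 3))
    (@En.n l5592 (nat_lit 2770) (nat_lit 9) (nat_lit 13))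
    (@En.n l16262 (nat_lit 8352) (nat_lit 9) (nat_lit 4))
    (@En.i (nat_lit 8240) (nat_lit 11) (nat_lit 13))
    (@En.n l17725 (nat_lit 2742) (nat_lit 12) (nat_lit 9))
    (@En.i (nat_lit 6053) (nat_lit 13) (nat_lit 6))
    (@En.n l3105 (nat_lit 8412) (nat_lit 14) (nat_lit 12))
    (@En.n l3106 (nat_lit 7633) (nat_lit 13) (nat_lit 5))
    (@En.n l17 (nat_lit 8359) (nat_lit 15) (nat_lit 2))))
  (@Cl.mk (nat_lit 0x30008000d0005000c0003000b000b00040008000b00050005000d000b0005) (nat_lit 0x2a0107206400200) (nat_lit 16) Lb.e (@T16.mk En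
    (@En.n l20395 (nat_lit 7753) (nat_lit 0) (nat_lit 5))
    (@En.n l8637 (nat_lit 8416) (nat_lit 10) (nat_lit 11))
    (@En.n l8638 (nat_lit 10215) (nat_lit 2) (nat_lit 13))
    (@En.n l8639 (nat_lit 8452) (nat_lit 11) (nat_lit 5))
    (@En.n l4172 (nat_lit 10061) (nat_lit 4) (nat_lit 5))
    (@En.n l20396 (nat_lit 7538) (nat_lit 7) (nat_lit 11))
    (@En.n l20397 (nat_lit 4081) (nat_lit 11) (nat_lit 8))
    (@En.n l8641 (nat_lit 9790) (nat_lit 7) (nat_lit 4))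
    (@En.n l61 (nat_lit 8357) (nat_lit 5) (nat_lit 11))
    (@En.n l217 (nat_lit 10132) (nat_lit 1) (nat_lit 11))
    (@En.n l20398 (nat_lit 8361) (nat_lit 10) (nat_lit 3))
    (@En.n l5592 (nat_lit 2553) (nat_lit 0) (nat_lit 12))
    (@En.n l20399 (nat_lit 8421) (nat_lit 4) (nat_lit 5))
    (@En.i (nat_lit 8598) (nat_lit 2) (nat_lit 13))
    (@En.n l20400 (nat_lit 8364) (nat_lit 3) (nat_lit 8))
    (@En.n l20401 (nat_lit 8362) (nat_lit 15) (nat_lit 3))))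
  (@Cl.mk (nat_lit 0x30008000d000b00060003000b000b00050008000b00050005000d000a0005) (nat_lit 0x2a8007205400260) (nat_lit 16) Lb.e (@T16.mk En
    (@En.n l13 (nat_lit 7836) (nat_lit 0) (nat_lit 5))
    (@En.n l16039 (nat_lit 8789) (nat_lit 0) (nat_lit 10))
    (@En.n l19743 (nat_lit 10213) (nat_lit 2) (nat_lit 13))
    (@En.n l19744 (nat_lit 8451) (nat_lit 11) (nat_lit 5))
    (@En.n l13 (nat_lit 10056) (nat_lit 4) (nat_lit 5))
    (@En.n l5090 (nat_lit 7539) (nat_lit 7) (nat_lit 11))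
    (@En.n l13 (nat_lit 6338) (nat_lit 10) (nat_lit 8))
    (@En.n l5995 (nat_lit 10301) (nat_lit 7) (nat_lit 5))
    (@En.n l19745 (nat_lit 8354) (nat_lit 5) (nat_lit 11))
    (@En.n l19746 (nat_lit 9804) (nat_lit 10) (nat_lit 11))
    (@En.n l19747 (nat_lit 8360) (nat_lit 10) (nat_lit 3))
    (@En.i (nat_lit 9296) (nat_lit 0) (nat_lit 6))
    (@En.n l19748 (nat_lit 8366) (nat_lit 13) (nat_lit 11))
    (@En.n l19749 (nat_lit 8329) (nat_lit 2) (nat_lit 13))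
    (@En.n l19750 (nat_lit 8365) (nat_lit 3) (nat_lit 8))
    (@En.n l19751 (nat_lit 8363) (nat_lit 15) (nat_lit 3))))
  (@Cl.mk (nat_lit 0x30008000d0004000c0003000b000b00040008000c00050005000d0004000c) (nat_lit 0x3a0105204a00300) (nat_lit 16) Lb.e (@T16.mk En
    (@En.i (nat_lit 8559) (nat_lit 0) (nat_lit 12))
    (@En.i (nat_lit 8364) (nat_lit 6) (nat_lit 4))
    (@En.n l18235 (nat_lit 10468) (nat_lit 2) (nat_lit 13))
    (@En.n l3498 (nat_lit 8446) (nat_lit 11) (nat_lit 5))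
    (@En.n l13355 (nat_lit 10060) (nat_lit 4) (nat_lit 5))
    (@En.i (nat_lit 8308) (nat_lit 11) (nat_lit 12))
    (@En.n l617 (nat_lit 4082) (nat_lit 11) (nat_lit 8))
    (@En.n l564 (nat_lit 9791) (nat_lit 7) (nat_lit 4))
    (@En.n l19271 (nat_lit 8358) (nat_lit 5) (nat_lit 11))
    (@En.n l36378 (nat_lit 8877) (nat_lit 1) (nat_lit 11))
    (@En.i (nat_lit 8363) (nat_lit 10) (nat_lit 3))
    (@En.n l538 (nat_lit 2781) (nat_lit 0) (nat_lit 12))
    (@En.i (nat_lit 8417) (nat_lit 4) (nat_lit 4))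
    (@En.n l7025 (nat_lit 8599) (nat_lit 0) (nat_lit 13))
    (@En.n l3506 (nat_lit 2750) (nat_lit 3) (nat_lit 8))
    (@En.n l19663 (nat_lit 8360) (nat_lit 15) (nat_lit 3))))
  (@Cl.mk (nat_lit 0x30008000d000b00050003000b000b00050008000c00050005000d0004000b) (nat_lit 0x1a6005205a00302) (nat_lit 16) Lb.e (@T16.mk En
    (@En.n l30109 (nat_lit 8292) (nat_lit 0) (nat_lit 11))
    (@En.i (nat_lit 8365) (nat_lit 6) (nat_lit 4))
    (@En.n l18235 (nat_lit 10214) (nat_lit 2) (nat_lit 13))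
    (@En.n l3498 (nat_lit 8445) (nat_lit 11) (nat_lit 5))
    (@En.n l13355 (nat_lit 10057) (nat_lit 4) (nat_lit 5))
    (@En.i (nat_lit 8606) (nat_lit 11) (nat_lit 12))
    (@En.n l5496 (nat_lit 6323) (nat_lit 10) (nat_lit 8))
    (@En.n l19270 (nat_lit 10300) (nat_lit 7) (nat_lit 5))
    (@En.n l19271 (nat_lit 8355) (nat_lit 5) (nat_lit 11))
    (@En.n l34331 (nat_lit 9803) (nat_lit 10) (nat_lit 11))
    (@En.n l18 (nat_lit 8362) (nat_lit 10) (nat_lit 3))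
    (@En.n l5496 (nat_lit 9277) (nat_lit 0) (nat_lit 5))
    (@En.i (nat_lit 8367) (nat_lit 13) (nat_lit 11))
    (@En.n l7025 (nat_lit 8330) (nat_lit 2) (nat_lit 13))
    (@En.n l3506 (nat_lit 2751) (nat_lit 3) (nat_lit 8))
    (@En.n l6481 (nat_lit 8361) (nat_lit 15) (nat_lit 3))))
  (@Cl.mk (nat_lit 0x3000a000a00040008000c000b000600060004000c00050008000d0004000c) (nat_lit 0x620545000001902) (nat_lit 16) Lb.e (@T16.mk En
    (@En.n l538 (nat_lit 2802) (nat_lit 0) (nat_lit 12))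
    (@En.i (nat_lit 8420) (nat_lit 4) (nat_lit 4))
    (@En.n l7025 (nat_lit 8482) (nat_lit 0) (nat_lit 13))
    (@En.n l19266 (nat_lit 2747) (nat_lit 10) (nat_lit 8))
    (@En.n l34724 (nat_lit 7751) (nat_lit 4) (nat_lit 5))
    (@En.n l35049 (nat_lit 8415) (nat_lit 0) (nat_lit 12))
    (@En.n l19268 (nat_lit 9585) (nat_lit 6) (nat_lit 4))
    (@En.n l3498 (nat_lit 8447) (nat_lit 10) (nat_lit 6))
    (@En.n l14405 (nat_lit 9815) (nat_lit 8) (nat_lit 6))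
    (@En.n l35050 (nat_lit 8360) (nat_lit 5) (nat_lit 11))
    (@En.i (nat_lit 8487) (nat_lit 11) (nat_lit 12))
    (@En.n l617 (nat_lit 4083) (nat_lit 11) (nat_lit 8))
    (@En.n l564 (nat_lit 9789) (nat_lit 15) (nat_lit 4))
    (@En.n l19271 (nat_lit 8359) (nat_lit 6) (nat_lit 10))
    (@En.n l35051 (nat_lit 10133) (nat_lit 1) (nat_lit 10))
    (@En.i (nat_lit 8365) (nat_lit 15) (nat_lit 3))))
  (@Cl.mk (nat_lit 0x3000a000a00050008000c000b000600060004000b00050008000d000b0005) (nat_lit 0x620545000701a70) (nat_lit 16) Lb.e (@T16.mk En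
    (@En.n l19264 (nat_lit 9295) (nat_lit 0) (nat_lit 5))
    (@En.n l19265 (nat_lit 8480) (nat_lit 5) (nat_lit 11))
    (@En.n l7025 (nat_lit 8331) (nat_lit 2) (nat_lit 13))
    (@En.n l19266 (nat_lit 2748) (nat_lit 10) (nat_lit 8))
    (@En.n l2356 (nat_lit 7749) (nat_lit 4) (nat_lit 5))
    (@En.n l19267 (nat_lit 8389) (nat_lit 0) (nat_lit 11))
    (@En.n l19268 (nat_lit 10088) (nat_lit 6) (nat_lit 4))
    (@En.n l3498 (nat_lit 8448) (nat_lit 10) (nat_lit 6))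
    (@En.n l14405 (nat_lit 9817) (nat_lit 8) (nat_lit 6))
    (@En.n l12810 (nat_lit 8361) (nat_lit 5) (nat_lit 11))
    (@En.i (nat_lit 8489) (nat_lit 11) (nat_lit 12))
    (@En.n l19269 (nat_lit 6339) (nat_lit 10) (nat_lit 8))
    (@En.n l19270 (nat_lit 10302) (nat_lit 5) (nat_lit 5))
    (@En.n l19271 (nat_lit 8356) (nat_lit 6) (nat_lit 10))
    (@En.n l19272 (nat_lit 9805) (nat_lit 1) (nat_lit 10))
    (@En.n l18 (nat_lit 8364) (nat_lit 15) (nat_lit 3))))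
  (@Cl.mk (nat_lit 0x30008000b0005000c000a000a000500040008000b00060006000d000b0005) (nat_lit 0x270163006500270) (nat_lit 16) Lb.e (@T16.mk En
    (@En.n l35501 (nat_lit 7837) (nat_lit 0) (nat_lit 5))
    (@En.n l35502 (nat_lit 8788) (nat_lit 10) (nat_lit 11))
    (@En.n l35503 (nat_lit 10470) (nat_lit 2) (nat_lit 13))
    (@En.n l35504 (nat_lit 8450) (nat_lit 10) (nat_lit 6))
    (@En.n l9750 (nat_lit 10063) (nat_lit 4) (nat_lit 6))
    (@En.n l35505 (nat_lit 7537) (nat_lit 7) (nat_lit 11))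
    (@En.n l35506 (nat_lit 8361) (nat_lit 6) (nat_lit 8))
    (@En.n l7 (nat_lit 8360) (nat_lit 7) (nat_lit 4))
    (@En.n l29679 (nat_lit 9963) (nat_lit 0) (nat_lit 5))
    (@En.n l61 (nat_lit 8238) (nat_lit 6) (nat_lit 10))
    (@En.n l1545 (nat_lit 9879) (nat_lit 11) (nat_lit 10))
    (@En.n l16733 (nat_lit 2798) (nat_lit 12) (nat_lit 12))
    (@En.n l35507 (nat_lit 8425) (nat_lit 4) (nat_lit 5))
    (@En.i (nat_lit 9112) (nat_lit 7) (nat_lit 11))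
    (@En.n l35508 (nat_lit 8480) (nat_lit 6) (nat_lit 8))
    (@En.n l35509 (nat_lit 8367) (nat_lit 15) (nat_lit 3))))
  (@Cl.mk (nat_lit 0x30008000b0004000c000a000a000500040008000c00060006000d0004000c) (nat_lit 0x150143006a00301) (nat_lit 16) Lb.e (@T16.mk En
    (@En.n l15723 (nat_lit 8296) (nat_lit 0) (nat_lit 12))
    (@En.n l19265 (nat_lit 8480) (nat_lit 9) (nat_lit 4))
    (@En.n l32420 (nat_lit 10469) (nat_lit 2) (nat_lit 13))
    (@En.n l32421 (nat_lit 8444) (nat_lit 10) (nat_lit 6))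
    (@En.n l15723 (nat_lit 10062) (nat_lit 4) (nat_lit 6))
    (@En.i (nat_lit 8535) (nat_lit 7) (nat_lit 12))
    (@En.n l2196 (nat_lit 8363) (nat_lit 6) (nat_lit 8))
    (@En.i (nat_lit 8362) (nat_lit 7) (nat_lit 4))
    (@En.n l32422 (nat_lit 9962) (nat_lit 8) (nat_lit 5))
    (@En.n l32423 (nat_lit 8236) (nat_lit 6) (nat_lit 10))
    (@En.n l32424 (nat_lit 9950) (nat_lit 11) (nat_lit 10))
    (@En.n l32425 (nat_lit 2797) (nat_lit 12) (nat_lit 12))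
    (@En.n l30114 (nat_lit 8375) (nat_lit 4) (nat_lit 4))
    (@En.n l32426 (nat_lit 9111) (nat_lit 7) (nat_lit 11))
    (@En.n l3506 (nat_lit 2753) (nat_lit 1) (nat_lit 8))
    (@En.n l32427 (nat_lit 8366) (nat_lit 15) (nat_lit 3))))
noncomputable def a523 : T16 Cl := @T16.mk Cl
  (@Cl.mk (nat_lit 0x2000c0005000c000a0004000e00040002000d0006000c0003000b000e0004) (nat_lit 0x80a80900a000740) (nat_lit 16) Lb.e (@T16.mk En
    (@En.n l3098 (nat_lit 8578) (nat_lit 8) (nat_lit 4))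
    (@En.i (nat_lit 2675) (nat_lit 4) (nat_lit 14))
    (@En.n l170 (nat_lit 2220) (nat_lit 11) (nat_lit 11))
    (@En.i (nat_lit 8369) (nat_lit 3) (nat_lit 3))
    (@En.n l170 (nat_lit 8867) (nat_lit 0) (nat_lit 12))
    (@En.i (nat_lit 6886) (nat_lit 14) (nat_lit 6))
    (@En.n l601 (nat_lit 8377) (nat_lit 7) (nat_lit 13))
    (@En.n l28 (nat_lit 8368) (nat_lit 7) (nat_lit 2))
    (@En.n l11 (nat_lit 8346) (nat_lit 8) (nat_lit 4))
    (@En.n l3706 (nat_lit 4806) (nat_lit 1) (nat_lit 14))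
    (@En.n l1925 (nat_lit 6424) (nat_lit 10) (nat_lit 4))
    (@En.i (nat_lit 8321) (nat_lit 3) (nat_lit 10))
    (@En.n l170 (nat_lit 8692) (nat_lit 13) (nat_lit 12))
    (@En.i (nat_lit 8349) (nat_lit 14) (nat_lit 5))
    (@En.i (nat_lit 9043) (nat_lit 7) (nat_lit 12))
    (@En.n l17 (nat_lit 8368) (nat_lit 15) (nat_lit 2))))
  (@Cl.mk (nat_lit 0x2000c0005000c00090004000e00040002000d000b00070003000b000e0005) (nat_lit 0x80050500a000720) (nat_lit 16) Lb.e (@T16.mk En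
    (@En.n l10829 (nat_lit 8372) (nat_lit 8) (nat_lit 5))
    (@En.i (nat_lit 2676) (nat_lit 4) (nat_lit 14))
    (@En.n l5 (nat_lit 7900) (nat_lit 11) (nat_lit 11))
    (@En.n l50 (nat_lit 8368) (nat_lit 3) (nat_lit 3))
    (@En.n l1034 (nat_lit 1928) (nat_lit 4) (nat_lit 7))
    (@En.n l217 (nat_lit 9768) (nat_lit 14) (nat_lit 11))
    (@En.n l601 (nat_lit 8373) (nat_lit 7) (nat_lit 13))
    (@En.n l28 (nat_lit 8369) (nat_lit 7) (nat_lit 2))
    (@En.n l11 (nat_lit 8371) (nat_lit 8) (nat_lit 4))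
    (@En.n l10172 (nat_lit 4805) (nat_lit 1) (nat_lit 14))
    (@En.n l1925 (nat_lit 6426) (nat_lit 10) (nat_lit 4))
    (@En.i (nat_lit 6293) (nat_lit 3) (nat_lit 9))
    (@En.n l1166 (nat_lit 8686) (nat_lit 13) (nat_lit 12))
    (@En.n l9774 (nat_lit 8370) (nat_lit 14) (nat_lit 5))
    (@En.i (nat_lit 9044) (nat_lit 7) (nat_lit 12))
    (@En.n l17 (nat_lit 8369) (nat_lit 15) (nat_lit 2))))
  (@Cl.mk (nat_lit 0x20005000c00090007000e00040002000d000a00070003000b0009000e0006) (nat_lit 0x14090070008430) (nat_lit 16) Lb.e (@T16.mk En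
    (@En.n l24157 (nat_lit 8586) (nat_lit 7) (nat_lit 6))
    (@En.n l6072 (nat_lit 8369) (nat_lit 1) (nat_lit 14))
    (@En.n l6072 (nat_lit 6422) (nat_lit 2) (nat_lit 9))
    (@En.n l23617 (nat_lit 7897) (nat_lit 3) (nat_lit 11))
    (@En.n l24158 (nat_lit 8349) (nat_lit 4) (nat_lit 3))
    (@En.i (nat_lit 1929) (nat_lit 5) (nat_lit 7))
    (@En.n l23617 (nat_lit 9770) (nat_lit 14) (nat_lit 10))
    (@En.n l998 (nat_lit 8376) (nat_lit 8) (nat_lit 13))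
    (@En.n l50 (nat_lit 8370) (nat_lit 8) (nat_lit 2))
    (@En.n l4263 (nat_lit 8348) (nat_lit 9) (nat_lit 4))
    (@En.n l23617 (nat_lit 4811) (nat_lit 11) (nat_lit 14))
    (@En.n l24159 (nat_lit 2367) (nat_lit 12) (nat_lit 7))
    (@En.n l14754 (nat_lit 6294) (nat_lit 13) (nat_lit 9))
    (@En.n l24160 (nat_lit 6432) (nat_lit 14) (nat_lit 12))
    (@En.n l3832 (nat_lit 8087) (nat_lit 13) (nat_lit 5))
    (@En.n l11 (nat_lit 8370) (nat_lit 15) (nat_lit 2))))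
  (@Cl.mk (nat_lit 0x2000b0005000c000c000a000500040004000d000b00060003000b000e0005) (nat_lit 0x80915000a000320) (nat_lit 16) Lb.e (@T16.mk En
    (@En.n l23531 (nat_lit 8374) (nat_lit 7) (nat_lit 5))
    (@En.i (nat_lit 2680) (nat_lit 4) (nat_lit 14))
    (@En.n l5 (nat_lit 7898) (nat_lit 2) (nat_lit 11))
    (@En.n l50 (nat_lit 8346) (nat_lit 3) (nat_lit 3))
    (@En.n l1034 (nat_lit 1606) (nat_lit 4) (nat_lit 6))
    (@En.n l217 (nat_lit 9746) (nat_lit 6) (nat_lit 11))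
    (@En.n l6370 (nat_lit 8379) (nat_lit 7) (nat_lit 13))
    (@En.n l1577 (nat_lit 8565) (nat_lit 7) (nat_lit 4))
    (@En.i (nat_lit 8326) (nat_lit 8) (nat_lit 4))
    (@En.n l4946 (nat_lit 6427) (nat_lit 9) (nat_lit 5))
    (@En.n l575 (nat_lit 7691) (nat_lit 11) (nat_lit 10))
    (@En.n l1578 (nat_lit 8369) (nat_lit 12) (nat_lit 12))
    (@En.n l20132 (nat_lit 8509) (nat_lit 13) (nat_lit 12))
    (@En.n l9731 (nat_lit 8348) (nat_lit 14) (nat_lit 5))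
    (@En.i (nat_lit 8570) (nat_lit 11) (nat_lit 11))
    (@En.n l17 (nat_lit 8371) (nat_lit 15) (nat_lit 2))))
  (@Cl.mk (nat_lit 0x2000c000b000b00080004000c00050005000c0004000c00080004000e0004) (nat_lit 0x811609009004070) (nat_lit 16) Lb.e (@T16.mk En
    (@En.n l17439 (nat_lit 8374) (nat_lit 15) (nat_lit 4))
    (@En.n l396 (nat_lit 7272) (nat_lit 1) (nat_lit 14))
    (@En.n l7 (nat_lit 6408) (nat_lit 2) (nat_lit 4))
    (@En.n l8237 (nat_lit 7146) (nat_lit 3) (nat_lit 8))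
    (@En.i (nat_lit 8502) (nat_lit 5) (nat_lit 12))
    (@En.n l24156 (nat_lit 8586) (nat_lit 5) (nat_lit 4))
    (@En.n l9890 (nat_lit 9282) (nat_lit 7) (nat_lit 12))
    (@En.n l2385 (nat_lit 8581) (nat_lit 11) (nat_lit 5))
    (@En.n l1208 (nat_lit 8891) (nat_lit 8) (nat_lit 5))
    (@En.i (nat_lit 7757) (nat_lit 10) (nat_lit 12))
    (@En.n l17439 (nat_lit 8578) (nat_lit 10) (nat_lit 4))
    (@En.i (nat_lit 9040) (nat_lit 12) (nat_lit 8))
    (@En.n l10352 (nat_lit 8369) (nat_lit 5) (nat_lit 11))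
    (@En.n l24338 (nat_lit 6403) (nat_lit 14) (nat_lit 11))
    (@En.n l4600 (nat_lit 8375) (nat_lit 3) (nat_lit 12))
    (@En.n l18 (nat_lit 8372) (nat_lit 15) (nat_lit 2))))
  (@Cl.mk (nat_lit 0x2000c0005000c000a0004000a0004000d000a000600030006000b000e0006) (nat_lit 0x707103090000430) (nat_lit 16) Lb.e (@T16.mk En
    (@En.n l21783 (nat_lit 8375) (nat_lit 12) (nat_lit 6))
    (@En.i (nat_lit 8293) (nat_lit 4) (nat_lit 14))
    (@En.n l250 (nat_lit 8371) (nat_lit 2) (nat_lit 11))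
    (@En.n l4172 (nat_lit 9304) (nat_lit 12) (nat_lit 6))
    (@En.n l7 (nat_lit 8377) (nat_lit 4) (nat_lit 3))
    (@En.n l1034 (nat_lit 1466) (nat_lit 0) (nat_lit 6))
    (@En.n l2026 (nat_lit 9707) (nat_lit 7) (nat_lit 10))
    (@En.n l11665 (nat_lit 8378) (nat_lit 8) (nat_lit 13))
    (@En.i (nat_lit 8379) (nat_lit 8) (nat_lit 4))
    (@En.n l6172 (nat_lit 1334) (nat_lit 10) (nat_lit 10))
    (@En.n l21784 (nat_lit 6432) (nat_lit 10) (nat_lit 4))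
    (@En.i (nat_lit 820) (nat_lit 12) (nat_lit 10))
    (@En.n l21785 (nat_lit 8690) (nat_lit 13) (nat_lit 12))
    (@En.n l21786 (nat_lit 8376) (nat_lit 14) (nat_lit 5))
    (@En.n l16924 (nat_lit 8436) (nat_lit 10) (nat_lit 12))
    (@En.n l17 (nat_lit 8373) (nat_lit 15) (nat_lit 2))))
  (@Cl.mk (nat_lit 0x40004000c000b000b00070004000c00050005000b0004000c000c00090005) (nat_lit 0x91100800707140) (nat_lit 16) Lb.e (@T16.mk En
    (@En.n l30114 (nat_lit 6334) (nat_lit 0) (nat_lit 5))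
    (@En.i (nat_lit 9109) (nat_lit 1) (nat_lit 9))
    (@En.n l15718 (nat_lit 8372) (nat_lit 4) (nat_lit 12))
    (@En.n l30114 (nat_lit 8506) (nat_lit 2) (nat_lit 12))
    (@En.n l36384 (nat_lit 8577) (nat_lit 4) (nat_lit 4))
    (@En.n l39013 (nat_lit 8767) (nat_lit 0) (nat_lit 11))
    (@En.n l37867 (nat_lit 8526) (nat_lit 11) (nat_lit 5))
    (@En.n l27694 (nat_lit 8893) (nat_lit 7) (nat_lit 5))
    (@En.n l30114 (nat_lit 7755) (nat_lit 9) (nat_lit 12))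
    (@En.i (nat_lit 8533) (nat_lit 1) (nat_lit 4))
    (@En.n l39014 (nat_lit 9010) (nat_lit 0) (nat_lit 7))
    (@En.n l39015 (nat_lit 8371) (nat_lit 5) (nat_lit 11))
    (@En.n l39016 (nat_lit 6407) (nat_lit 5) (nat_lit 11))
    (@En.i (nat_lit 8788) (nat_lit 3) (nat_lit 12))
    (@En.n l1337 (nat_lit 8534) (nat_lit 12) (nat_lit 4))
    (@En.n l7 (nat_lit 8330) (nat_lit 0) (nat_lit 4))))
  (@Cl.mk (nat_lit 0x40007000c00060006000c0004000c0009000400090004000c000a000a0007) (nat_lit 0x900a0030307010) (nat_lit 16) Lb.e (@T16.mk En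
    (@En.i (nat_lit 9488) (nat_lit 0) (nat_lit 7))
    (@En.n l37542 (nat_lit 8373) (nat_lit 6) (nat_lit 10))
    (@En.n l37543 (nat_lit 9936) (nat_lit 6) (nat_lit 10))
    (@En.n l37544 (nat_lit 8405) (nat_lit 10) (nat_lit 12))
    (@En.n l37545 (nat_lit 8788) (nat_lit 4) (nat_lit 4))
    (@En.n l37546 (nat_lit 1336) (nat_lit 0) (nat_lit 9))
    (@En.i (nat_lit 8494) (nat_lit 1) (nat_lit 4))
    (@En.n l37547 (nat_lit 5186) (nat_lit 0) (nat_lit 9))
    (@En.n l3786 (nat_lit 8501) (nat_lit 1) (nat_lit 12))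
    (@En.n l37548 (nat_lit 8399) (nat_lit 9) (nat_lit 4))
    (@En.n l37549 (nat_lit 9685) (nat_lit 0) (nat_lit 12))
    (@En.n l37550 (nat_lit 8439) (nat_lit 10) (nat_lit 6))
    (@En.n l37551 (nat_lit 9423) (nat_lit 5) (nat_lit 6))
    (@En.n l26998 (nat_lit 8374) (nat_lit 8) (nat_lit 12))
    (@En.n l7220 (nat_lit 9277) (nat_lit 11) (nat_lit 7))
    (@En.n l26998 (nat_lit 8417) (nat_lit 15) (nat_lit 4))))
  (@Cl.mk (nat_lit 0x20005000c000a0007000a0004000d0009000600030006000b0009000e0007) (nat_lit 0x72030600003340) (nat_lit 16) Lb.e (@T16.mk En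
    (@En.i (nat_lit 8399) (nat_lit 11) (nat_lit 7))
    (@En.n l37484 (nat_lit 8373) (nat_lit 1) (nat_lit 14))
    (@En.n l5144 (nat_lit 8380) (nat_lit 2) (nat_lit 9))
    (@En.n l1262 (nat_lit 8348) (nat_lit 3) (nat_lit 11))
    (@En.n l37485 (nat_lit 9303) (nat_lit 4) (nat_lit 6))
    (@En.n l10874 (nat_lit 8352) (nat_lit 5) (nat_lit 3))
    (@En.i (nat_lit 1467) (nat_lit 0) (nat_lit 6))
    (@En.n l9536 (nat_lit 9705) (nat_lit 8) (nat_lit 9))
    (@En.n l13064 (nat_lit 8396) (nat_lit 9) (nat_lit 13))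
    (@En.n l13323 (nat_lit 8227) (nat_lit 9) (nat_lit 4))
    (@En.n l13067 (nat_lit 1337) (nat_lit 11) (nat_lit 10))
    (@En.n l3269 (nat_lit 2607) (nat_lit 12) (nat_lit 7))
    (@En.n l217 (nat_lit 5458) (nat_lit 13) (nat_lit 10))
    (@En.n l7593 (nat_lit 6435) (nat_lit 14) (nat_lit 12))
    (@En.i (nat_lit 9527) (nat_lit 13) (nat_lit 5))
    (@En.n l28 (nat_lit 8376) (nat_lit 15) (nat_lit 2))))
  (@Cl.mk (nat_lit 0x2000c0005000c000b0004000a0004000d0005000b00030006000b000e0005) (nat_lit 0x402903090000350) (nat_lit 16) Lb.e (@T16.mk En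
    (@En.n l24881 (nat_lit 8417) (nat_lit 12) (nat_lit 5))
    (@En.i (nat_lit 8297) (nat_lit 4) (nat_lit 14))
    (@En.n l250 (nat_lit 8346) (nat_lit 2) (nat_lit 11))
    (@En.n l4172 (nat_lit 7796) (nat_lit 12) (nat_lit 6))
    (@En.i (nat_lit 8373) (nat_lit 4) (nat_lit 3))
    (@En.n l9440 (nat_lit 8443) (nat_lit 0) (nat_lit 11))
    (@En.i (nat_lit 6897) (nat_lit 6) (nat_lit 5))
    (@En.n l134 (nat_lit 8412) (nat_lit 8) (nat_lit 13))
    (@En.i (nat_lit 8413) (nat_lit 8) (nat_lit 4))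
    (@En.n l6172 (nat_lit 1367) (nat_lit 10) (nat_lit 10))
    (@En.n l21784 (nat_lit 6430) (nat_lit 10) (nat_lit 4))
    (@En.n l55 (nat_lit 8355) (nat_lit 12) (nat_lit 11))
    (@En.n l9440 (nat_lit 8691) (nat_lit 13) (nat_lit 12))
    (@En.n l16262 (nat_lit 8352) (nat_lit 14) (nat_lit 5))
    (@En.n l16924 (nat_lit 9074) (nat_lit 10) (nat_lit 12))
    (@En.n l17 (nat_lit 8377) (nat_lit 15) (nat_lit 2))))
  (@Cl.mk (nat_lit 0x2000c00050008000b0004000a000d00090005000300080006000b000e0007) (nat_lit 0x804402800040540) (nat_lit 16) Lb.e (@T16.mk En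
    (@En.n l20949 (nat_lit 8405) (nat_lit 2) (nat_lit 7))
    (@En.n l8988 (nat_lit 8295) (nat_lit 4) (nat_lit 14))
    (@En.n l16104 (nat_lit 8379) (nat_lit 2) (nat_lit 11))
    (@En.n l8988 (nat_lit 8373) (nat_lit 3) (nat_lit 6))
    (@En.n l36910 (nat_lit 8381) (nat_lit 4) (nat_lit 8))
    (@En.n l996 (nat_lit 8412) (nat_lit 5) (nat_lit 3))
    (@En.i (nat_lit 960) (nat_lit 0) (nat_lit 5))
    (@En.n l38 (nat_lit 8773) (nat_lit 8) (nat_lit 9))
    (@En.i (nat_lit 5960) (nat_lit 5) (nat_lit 13))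
    (@En.n l1014 (nat_lit 1359) (nat_lit 10) (nat_lit 10))
    (@En.n l11987 (nat_lit 6435) (nat_lit 10) (nat_lit 4))
    (@En.n l1001 (nat_lit 8228) (nat_lit 7) (nat_lit 11))
    (@En.i (nat_lit 9926) (nat_lit 13) (nat_lit 8))
    (@En.n l1015 (nat_lit 8396) (nat_lit 14) (nat_lit 5))
    (@En.n l36911 (nat_lit 8407) (nat_lit 9) (nat_lit 12))
    (@En.n l3 (nat_lit 8378) (nat_lit 15) (nat_lit 2))))
  (@Cl.mk (nat_lit 0x2000b0005000c0008000b00050004000d000a000500030008000b000e0006) (nat_lit 0x70a550093004430) (nat_lit 16) Lb.e (@T16.mk En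
    (@En.n l22396 (nat_lit 8788) (nat_lit 12) (nat_lit 6))
    (@En.i (nat_lit 7921) (nat_lit 4) (nat_lit 14))
    (@En.n l10937 (nat_lit 8565) (nat_lit 2) (nat_lit 11))
    (@En.n l10938 (nat_lit 8382) (nat_lit 3) (nat_lit 8))
    (@En.n l7 (nat_lit 8413) (nat_lit 4) (nat_lit 3))
    (@En.n l1034 (nat_lit 959) (nat_lit 0) (nat_lit 5))
    (@En.n l7544 (nat_lit 8790) (nat_lit 7) (nat_lit 10))
    (@En.n l11665 (nat_lit 1925) (nat_lit 8) (nat_lit 13))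
    (@En.n l11 (nat_lit 8236) (nat_lit 8) (nat_lit 4))
    (@En.n l1034 (nat_lit 6433) (nat_lit 9) (nat_lit 5))
    (@En.i (nat_lit 8233) (nat_lit 7) (nat_lit 11))
    (@En.n l3299 (nat_lit 8378) (nat_lit 12) (nat_lit 8))
    (@En.n l2690 (nat_lit 8508) (nat_lit 13) (nat_lit 12))
    (@En.n l19367 (nat_lit 8227) (nat_lit 14) (nat_lit 5))
    (@En.n l22397 (nat_lit 9068) (nat_lit 10) (nat_lit 11))
    (@En.n l17 (nat_lit 8379) (nat_lit 15) (nat_lit 2))))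
  (@Cl.mk (nat_lit 0x2000c000b000900070004000a0005000d000a0007000300060009000e0006) (nat_lit 0x861004070000230) (nat_lit 16) Lb.e (@T16.mk En
    (@En.n l23513 (nat_lit 8425) (nat_lit 12) (nat_lit 6))
    (@En.n l4570 (nat_lit 8509) (nat_lit 1) (nat_lit 14))
    (@En.n l3464 (nat_lit 7531) (nat_lit 9) (nat_lit 9))
    (@En.n l3947 (nat_lit 9302) (nat_lit 12) (nat_lit 6))
    (@En.n l18729 (nat_lit 8353) (nat_lit 4) (nat_lit 3))
    (@En.i (nat_lit 1475) (nat_lit 0) (nat_lit 7))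
    (@En.n l13314 (nat_lit 9706) (nat_lit 7) (nat_lit 10))
    (@En.n l396 (nat_lit 8424) (nat_lit 8) (nat_lit 13))
    (@En.n l28 (nat_lit 8219) (nat_lit 8) (nat_lit 5))
    (@En.n l4829 (nat_lit 8376) (nat_lit 10) (nat_lit 10))
    (@En.n l23514 (nat_lit 8373) (nat_lit 10) (nat_lit 4))
    (@En.n l917 (nat_lit 2441) (nat_lit 12) (nat_lit 7))
    (@En.n l644 (nat_lit 819) (nat_lit 13) (nat_lit 9))
    (@En.n l77 (nat_lit 6433) (nat_lit 14) (nat_lit 11))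
    (@En.n l5197 (nat_lit 10663) (nat_lit 10) (nat_lit 12))
    (@En.n l107 (nat_lit 8380) (nat_lit 15) (nat_lit 2))))
  (@Cl.mk (nat_lit 0x2000b00050008000c000b0005000b0004000a000500080005000b000e0006) (nat_lit 0x704850400030580) (nat_lit 16) Lb.e (@T16.mk En
    (@En.n l24771 (nat_lit 8389) (nat_lit 2) (nat_lit 6))
    (@En.n l29159 (nat_lit 8291) (nat_lit 4) (nat_lit 14))
    (@En.n l29160 (nat_lit 8382) (nat_lit 2) (nat_lit 11))
    (@En.n l37845 (nat_lit 6897) (nat_lit 3) (nat_lit 5))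
    (@En.i (nat_lit 8943) (nat_lit 10) (nat_lit 8))
    (@En.n l14669 (nat_lit 958) (nat_lit 5) (nat_lit 5))
    (@En.n l19421 (nat_lit 8792) (nat_lit 7) (nat_lit 10))
    (@En.n l37846 (nat_lit 6210) (nat_lit 7) (nat_lit 4))
    (@En.i (nat_lit 1360) (nat_lit 9) (nat_lit 11))
    (@En.n l14669 (nat_lit 7951) (nat_lit 9) (nat_lit 5))
    (@En.n l37847 (nat_lit 8378) (nat_lit 11) (nat_lit 11))
    (@En.n l29159 (nat_lit 8373) (nat_lit 12) (nat_lit 12))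
    (@En.n l387 (nat_lit 9925) (nat_lit 13) (nat_lit 8))
    (@En.n l17 (nat_lit 8384) (nat_lit 14) (nat_lit 5))
    (@En.n l37848 (nat_lit 8390) (nat_lit 0) (nat_lit 11))
    (@En.n l3 (nat_lit 8381) (nat_lit 15) (nat_lit 2))))
  (@Cl.mk (nat_lit 0x2000a0005000b0008000c000b000600050004000b00050008000b000e0005) (nat_lit 0x606526000003490) (nat_lit 16) Lb.e (@T16.mk En
    (@En.n l22366 (nat_lit 8789) (nat_lit 2) (nat_lit 5))
    (@En.i (nat_lit 7920) (nat_lit 4) (nat_lit 14))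
    (@En.n l245 (nat_lit 6895) (nat_lit 2) (nat_lit 11))
    (@En.n l19376 (nat_lit 8942) (nat_lit 10) (nat_lit 8))
    (@En.n l1034 (nat_lit 952) (nat_lit 4) (nat_lit 5))
    (@En.n l9726 (nat_lit 8791) (nat_lit 6) (nat_lit 11))
    (@En.n l22367 (nat_lit 6205) (nat_lit 6) (nat_lit 4))
    (@En.i (nat_lit 8355) (nat_lit 7) (nat_lit 5))
    (@En.n l4946 (nat_lit 7950) (nat_lit 8) (nat_lit 6))
    (@En.n l457 (nat_lit 8379) (nat_lit 10) (nat_lit 11))
    (@En.i (nat_lit 8371) (nat_lit 11) (nat_lit 12))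
    (@En.n l22368 (nat_lit 8381) (nat_lit 12) (nat_lit 8))
    (@En.n l20132 (nat_lit 8282) (nat_lit 13) (nat_lit 11))
    (@En.n l19372 (nat_lit 8383) (nat_lit 14) (nat_lit 5))
    (@En.n l22369 (nat_lit 8391) (nat_lit 0) (nat_lit 10))
    (@En.n l17 (nat_lit 8382) (nat_lit 15) (nat_lit 2))))
  (@Cl.mk (nat_lit 0x20005000b0008000c000b000900050004000a00050008000b0007000e0006) (nat_lit 0x923440000460a0) (nat_lit 16) Lb.e (@T16.mk En
    (@En.n l8465 (nat_lit 8386) (nat_lit 8) (nat_lit 6))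
    (@En.n l34408 (nat_lit 8382) (nat_lit 1) (nat_lit 14))
    (@En.n l34409 (nat_lit 8220) (nat_lit 2) (nat_lit 7))
    (@En.i (nat_lit 6894) (nat_lit 3) (nat_lit 11))
    (@En.n l34410 (nat_lit 8944) (nat_lit 4) (nat_lit 8))
    (@En.n l11 (nat_lit 1480) (nat_lit 5) (nat_lit 5))
    (@En.n l287 (nat_lit 8793) (nat_lit 7) (nat_lit 10))
    (@En.n l11 (nat_lit 6207) (nat_lit 7) (nat_lit 4))
    (@En.n l23732 (nat_lit 8356) (nat_lit 8) (nat_lit 5))
    (@En.n l77 (nat_lit 6797) (nat_lit 10) (nat_lit 9))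
    (@En.n l55 (nat_lit 8227) (nat_lit 11) (nat_lit 11))
    (@En.n l4750 (nat_lit 8348) (nat_lit 12) (nat_lit 12))
    (@En.n l34411 (nat_lit 8384) (nat_lit 13) (nat_lit 8))
    (@En.n l34412 (nat_lit 8385) (nat_lit 14) (nat_lit 11))
    (@En.i (nat_lit 9523) (nat_lit 13) (nat_lit 5))
    (@En.n l17 (nat_lit 8383) (nat_lit 15) (nat_lit 2))))
noncomputable def a524 : T16 Cl := @T16.mk Cl
  (@Cl.mk (nat_lit 0x200050008000c000b0008000b00040009000500080005000b0008000e0007) (nat_lit 0x18342000307390) (nat_lit 16) Lb.e (@T16.mk En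
    (@En.n l4130 (nat_lit 8387) (nat_lit 1) (nat_lit 7))
    (@En.i (nat_lit 8381) (nat_lit 1) (nat_lit 14))
    (@En.n l14149 (nat_lit 8385) (nat_lit 2) (nat_lit 8))
    (@En.n l31223 (nat_lit 8383) (nat_lit 3) (nat_lit 11))
    (@En.n l31223 (nat_lit 6896) (nat_lit 4) (nat_lit 5))
    (@En.i (nat_lit 8945) (nat_lit 5) (nat_lit 8))
    (@En.n l16837 (nat_lit 1435) (nat_lit 6) (nat_lit 5))
    (@En.n l5381 (nat_lit 9686) (nat_lit 8) (nat_lit 9))
    (@En.n l33716 (nat_lit 6209) (nat_lit 8) (nat_lit 4))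
    (@En.i (nat_lit 1364) (nat_lit 10) (nat_lit 11))
    (@En.n l4370 (nat_lit 6795) (nat_lit 11) (nat_lit 8))
    (@En.n l5451 (nat_lit 8396) (nat_lit 12) (nat_lit 11))
    (@En.n l5450 (nat_lit 8376) (nat_lit 13) (nat_lit 12))
    (@En.n l387 (nat_lit 2017) (nat_lit 14) (nat_lit 8))
    (@En.n l513 (nat_lit 9522) (nat_lit 13) (nat_lit 5))
    (@En.n l3 (nat_lit 8384) (nat_lit 15) (nat_lit 2))))
  (@Cl.mk (nat_lit 0x2000b0007000b000a00080005000b0005000a0006000900050008000e0006) (nat_lit 0x807340300030290) (nat_lit 16) Lb.e (@T16.mk En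
    (@En.n l43208 (nat_lit 8388) (nat_lit 6) (nat_lit 6))
    (@En.n l20109 (nat_lit 8282) (nat_lit 1) (nat_lit 14))
    (@En.n l17921 (nat_lit 9265) (nat_lit 10) (nat_lit 8))
    (@En.n l43209 (nat_lit 8275) (nat_lit 3) (nat_lit 5))
    (@En.n l32141 (nat_lit 8946) (nat_lit 9) (nat_lit 9))
    (@En.n l43210 (nat_lit 1437) (nat_lit 5) (nat_lit 6))
    (@En.n l43211 (nat_lit 9685) (nat_lit 7) (nat_lit 10))
    (@En.i (nat_lit 8211) (nat_lit 7) (nat_lit 5))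
    (@En.n l24522 (nat_lit 8384) (nat_lit 9) (nat_lit 11))
    (@En.n l43212 (nat_lit 8381) (nat_lit 9) (nat_lit 5))
    (@En.n l43213 (nat_lit 6796) (nat_lit 11) (nat_lit 8))
    (@En.n l20114 (nat_lit 8424) (nat_lit 12) (nat_lit 10))
    (@En.n l43214 (nat_lit 8380) (nat_lit 13) (nat_lit 11))
    (@En.n l43215 (nat_lit 2018) (nat_lit 14) (nat_lit 7))
    (@En.n l43216 (nat_lit 10651) (nat_lit 4) (nat_lit 11))
    (@En.n l28 (nat_lit 8385) (nat_lit 15) (nat_lit 2))))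
  (@Cl.mk (nat_lit 0x4000a000a00060009000c0008000600060004000b0007000c000a00080005) (nat_lit 0x310572000900440) (nat_lit 16) Lb.e (@T16.mk En
    (@En.n l19761 (nat_lit 8365) (nat_lit 0) (nat_lit 5))
    (@En.n l19762 (nat_lit 6794) (nat_lit 1) (nat_lit 8))
    (@En.n l19763 (nat_lit 8400) (nat_lit 6) (nat_lit 10))
    (@En.n l19764 (nat_lit 8577) (nat_lit 2) (nat_lit 12))
    (@En.n l19765 (nat_lit 8387) (nat_lit 14) (nat_lit 7))
    (@En.n l19766 (nat_lit 8388) (nat_lit 4) (nat_lit 11))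
    (@En.n l19767 (nat_lit 8799) (nat_lit 12) (nat_lit 4))
    (@En.n l19768 (nat_lit 8475) (nat_lit 10) (nat_lit 6))
    (@En.i (nat_lit 8790) (nat_lit 1) (nat_lit 6))
    (@En.n l19769 (nat_lit 8224) (nat_lit 0) (nat_lit 8))
    (@En.n l159 (nat_lit 7917) (nat_lit 6) (nat_lit 12))
    (@En.i (nat_lit 8933) (nat_lit 9) (nat_lit 9))
    (@En.n l19770 (nat_lit 8391) (nat_lit 5) (nat_lit 6))
    (@En.n l19771 (nat_lit 8383) (nat_lit 6) (nat_lit 10))
    (@En.n l19772 (nat_lit 9480) (nat_lit 1) (nat_lit 10))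
    (@En.i (nat_lit 6811) (nat_lit 12) (nat_lit 4))))
  (@Cl.mk (nat_lit 0x40007000c000a0007000a000400090009000600090006000c000900070007) (nat_lit 0x63020310508600) (nat_lit 16) Lb.e (@T16.mk En
    (@En.n l20115 (nat_lit 8473) (nat_lit 9) (nat_lit 7))
    (@En.n l22554 (nat_lit 9431) (nat_lit 1) (nat_lit 7))
    (@En.i (nat_lit 8388) (nat_lit 7) (nat_lit 9))
    (@En.n l22555 (nat_lit 8386) (nat_lit 10) (nat_lit 12))
    (@En.n l1113 (nat_lit 9255) (nat_lit 4) (nat_lit 6))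
    (@En.n l3517 (nat_lit 8931) (nat_lit 9) (nat_lit 9))
    (@En.n l3518 (nat_lit 8390) (nat_lit 6) (nat_lit 6))
    (@En.n l3519 (nat_lit 8384) (nat_lit 7) (nat_lit 9))
    (@En.i (nat_lit 9476) (nat_lit 11) (nat_lit 9))
    (@En.n l22556 (nat_lit 6812) (nat_lit 9) (nat_lit 4))
    (@En.i (nat_lit 3485) (nat_lit 8) (nat_lit 10))
    (@En.n l6131 (nat_lit 6793) (nat_lit 1) (nat_lit 7))
    (@En.n l3521 (nat_lit 8397) (nat_lit 13) (nat_lit 10))
    (@En.n l8606 (nat_lit 8399) (nat_lit 8) (nat_lit 12))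
    (@En.n l3522 (nat_lit 6926) (nat_lit 11) (nat_lit 7))
    (@En.n l3523 (nat_lit 9695) (nat_lit 15) (nat_lit 4))))
  (@Cl.mk (nat_lit 0x5000a0005000a000a0007000a0006000900060006000b0006000b00090007) (nat_lit 0x304105050080730) (nat_lit 16) Lb.e (@T16.mk En
    (@En.n l35487 (nat_lit 6790) (nat_lit 9) (nat_lit 7))
    (@En.n l35488 (nat_lit 8401) (nat_lit 1) (nat_lit 9))
    (@En.n l35489 (nat_lit 8425) (nat_lit 9) (nat_lit 11))
    (@En.n l35490 (nat_lit 2023) (nat_lit 5) (nat_lit 6))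
    (@En.n l35491 (nat_lit 10650) (nat_lit 9) (nat_lit 11))
    (@En.n l35492 (nat_lit 8474) (nat_lit 10) (nat_lit 6))
    (@En.n l35493 (nat_lit 9426) (nat_lit 6) (nat_lit 6))
    (@En.n l35487 (nat_lit 8991) (nat_lit 9) (nat_lit 9))
    (@En.n l35494 (nat_lit 9260) (nat_lit 1) (nat_lit 6))
    (@En.n l35495 (nat_lit 8932) (nat_lit 8) (nat_lit 10))
    (@En.n l35496 (nat_lit 8393) (nat_lit 1) (nat_lit 7))
    (@En.n l35497 (nat_lit 8385) (nat_lit 6) (nat_lit 10))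
    (@En.n l35498 (nat_lit 9477) (nat_lit 10) (nat_lit 10))
    (@En.n l35499 (nat_lit 9335) (nat_lit 15) (nat_lit 5))
    (@En.n l7 (nat_lit 8387) (nat_lit 10) (nat_lit 10))
    (@En.n l35500 (nat_lit 8389) (nat_lit 11) (nat_lit 5))))
  (@Cl.mk (nat_lit 0x40007000c000a0005000a0004000a000a000600090006000c00060006000b) (nat_lit 0x14020710508006) (nat_lit 16) Lb.e (@T16.mk En
    (@En.n l26199 (nat_lit 8793) (nat_lit 0) (nat_lit 11))
    (@En.n l152 (nat_lit 8440) (nat_lit 10) (nat_lit 6))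
    (@En.n l34997 (nat_lit 9424) (nat_lit 8) (nat_lit 6))
    (@En.n l34998 (nat_lit 8789) (nat_lit 3) (nat_lit 12))
    (@En.n l34999 (nat_lit 9257) (nat_lit 4) (nat_lit 6))
    (@En.i (nat_lit 8936) (nat_lit 9) (nat_lit 9))
    (@En.n l35000 (nat_lit 9491) (nat_lit 6) (nat_lit 6))
    (@En.n l26201 (nat_lit 8381) (nat_lit 6) (nat_lit 10))
    (@En.n l35001 (nat_lit 9475) (nat_lit 9) (nat_lit 10))
    (@En.n l2411 (nat_lit 8804) (nat_lit 9) (nat_lit 4))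
    (@En.n l35002 (nat_lit 3483) (nat_lit 0) (nat_lit 10))
    (@En.n l22651 (nat_lit 7959) (nat_lit 1) (nat_lit 5))
    (@En.n l35003 (nat_lit 8405) (nat_lit 13) (nat_lit 10))
    (@En.n l22651 (nat_lit 8375) (nat_lit 8) (nat_lit 12))
    (@En.n l35004 (nat_lit 9635) (nat_lit 11) (nat_lit 7))
    (@En.n l22134 (nat_lit 8387) (nat_lit 15) (nat_lit 4))))
  (@Cl.mk (nat_lit 0x40007000b000a00050008000b0005000a000600090005000c00080006000b) (nat_lit 0x4053030407506) (nat_lit 16) Lb.e (@T16.mk En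
    (@En.i (nat_lit 8816) (nat_lit 0) (nat_lit 11))
    (@En.n l9852 (nat_lit 8793) (nat_lit 1) (nat_lit 6))
    (@En.n l37917 (nat_lit 8393) (nat_lit 14) (nat_lit 8))
    (@En.n l37918 (nat_lit 8391) (nat_lit 3) (nat_lit 12))
    (@En.n l8551 (nat_lit 8823) (nat_lit 4) (nat_lit 5))
    (@En.n l9853 (nat_lit 7546) (nat_lit 9) (nat_lit 9))
    (@En.n l37919 (nat_lit 1436) (nat_lit 6) (nat_lit 6))
    (@En.n l37920 (nat_lit 9571) (nat_lit 10) (nat_lit 10))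
    (@En.n l37921 (nat_lit 10370) (nat_lit 8) (nat_lit 5))
    (@En.i (nat_lit 7353) (nat_lit 7) (nat_lit 11))
    (@En.n l37922 (nat_lit 8384) (nat_lit 10) (nat_lit 8))
    (@En.n l9856 (nat_lit 9474) (nat_lit 2) (nat_lit 5))
    (@En.n l637 (nat_lit 8407) (nat_lit 6) (nat_lit 10))
    (@En.n l9857 (nat_lit 8436) (nat_lit 8) (nat_lit 11))
    (@En.n l9858 (nat_lit 6924) (nat_lit 11) (nat_lit 7))
    (@En.n l9855 (nat_lit 9024) (nat_lit 15) (nat_lit 4))))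
  (@Cl.mk (nat_lit 0x4000a0007000b000a0006000900060005000b00060009000c00070005000a) (nat_lit 0x505003046005) (nat_lit 16) Lb.e (@T16.mk En
    (@En.n l34700 (nat_lit 8817) (nat_lit 0) (nat_lit 10))
    (@En.n l30345 (nat_lit 8791) (nat_lit 1) (nat_lit 5))
    (@En.n l23731 (nat_lit 9590) (nat_lit 0) (nat_lit 7))
    (@En.i (nat_lit 7818) (nat_lit 6) (nat_lit 12))
    (@En.n l34701 (nat_lit 7549) (nat_lit 9) (nat_lit 9))
    (@En.n l30347 (nat_lit 1481) (nat_lit 5) (nat_lit 6))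
    (@En.n l34702 (nat_lit 9713) (nat_lit 0) (nat_lit 11))
    (@En.n l11 (nat_lit 6211) (nat_lit 11) (nat_lit 5))
    (@En.n l34703 (nat_lit 10302) (nat_lit 8) (nat_lit 6))
    (@En.i (nat_lit 8383) (nat_lit 9) (nat_lit 9))
    (@En.n l34704 (nat_lit 8801) (nat_lit 2) (nat_lit 6))
    (@En.n l34705 (nat_lit 9068) (nat_lit 6) (nat_lit 10))
    (@En.n l34408 (nat_lit 8570) (nat_lit 8) (nat_lit 11))
    (@En.n l34706 (nat_lit 8390) (nat_lit 14) (nat_lit 7))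
    (@En.n l34707 (nat_lit 8393) (nat_lit 11) (nat_lit 10))
    (@En.n l34708 (nat_lit 9023) (nat_lit 15) (nat_lit 4))))
  (@Cl.mk (nat_lit 0x30006000b0009000c0007000a00050004000a0007000a0006000d00090006) (nat_lit 0x3504004040960) (nat_lit 16) Lb.e (@T16.mk En
    (@En.n l889 (nat_lit 8383) (nat_lit 0) (nat_lit 6))
    (@En.n l23753 (nat_lit 8394) (nat_lit 0) (nat_lit 9))
    (@En.n l23754 (nat_lit 8395) (nat_lit 2) (nat_lit 13))
    (@En.n l23755 (nat_lit 8822) (nat_lit 3) (nat_lit 6))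
    (@En.i (nat_lit 7909) (nat_lit 8) (nat_lit 10))
    (@En.n l1080 (nat_lit 8816) (nat_lit 5) (nat_lit 7))
    (@En.n l3687 (nat_lit 8390) (nat_lit 7) (nat_lit 10))
    (@En.n l11 (nat_lit 10506) (nat_lit 7) (nat_lit 4))
    (@En.n l23756 (nat_lit 6153) (nat_lit 8) (nat_lit 5))
    (@En.i (nat_lit 2949) (nat_lit 8) (nat_lit 10))
    (@En.n l23757 (nat_lit 8387) (nat_lit 11) (nat_lit 7))
    (@En.n l23758 (nat_lit 8269) (nat_lit 6) (nat_lit 12))
    (@En.n l3690 (nat_lit 8408) (nat_lit 13) (nat_lit 9))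
    (@En.n l23759 (nat_lit 8435) (nat_lit 14) (nat_lit 11))
    (@En.n l17 (nat_lit 6557) (nat_lit 12) (nat_lit 6))
    (@En.n l23760 (nat_lit 8780) (nat_lit 15) (nat_lit 3))))
  (@Cl.mk (nat_lit 0x500080005000b000a0006000a0009000500080006000b0006000b0007000a) (nat_lit 0x405800405040404) (nat_lit 16) Lb.e (@T16.mk En
    (@En.n l26869 (nat_lit 7545) (nat_lit 8) (nat_lit 10))
    (@En.n l7882 (nat_lit 1477) (nat_lit 1) (nat_lit 7))
    (@En.n l37423 (nat_lit 9712) (nat_lit 2) (nat_lit 11))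
    (@En.n l37424 (nat_lit 10378) (nat_lit 5) (nat_lit 6))
    (@En.n l37425 (nat_lit 8390) (nat_lit 9) (nat_lit 11))
    (@En.n l37426 (nat_lit 9491) (nat_lit 10) (nat_lit 6))
    (@En.n l37424 (nat_lit 8385) (nat_lit 10) (nat_lit 8))
    (@En.n l37427 (nat_lit 9475) (nat_lit 15) (nat_lit 5))
    (@En.n l2579 (nat_lit 8426) (nat_lit 7) (nat_lit 9))
    (@En.n l37427 (nat_lit 8427) (nat_lit 9) (nat_lit 10))
    (@En.n l37428 (nat_lit 6922) (nat_lit 2) (nat_lit 6))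
    (@En.n l37429 (nat_lit 10659) (nat_lit 6) (nat_lit 10))
    (@En.n l37430 (nat_lit 8432) (nat_lit 10) (nat_lit 11))
    (@En.n l23585 (nat_lit 9713) (nat_lit 11) (nat_lit 5))
    (@En.n l2642 (nat_lit 9594) (nat_lit 10) (nat_lit 8))
    (@En.n l37431 (nat_lit 8826) (nat_lit 1) (nat_lit 5))))
  (@Cl.mk (nat_lit 0x5000a0005000a0008000b00070006000a00060005000b0008000b00060009) (nat_lit 0x700450050052405) (nat_lit 16) Lb.e (@T16.mk En
    (@En.n l37432 (nat_lit 8992) (nat_lit 9) (nat_lit 9))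
    (@En.n l11386 (nat_lit 8825) (nat_lit 1) (nat_lit 6))
    (@En.n l10493 (nat_lit 7910) (nat_lit 7) (nat_lit 11))
    (@En.n l37433 (nat_lit 8432) (nat_lit 14) (nat_lit 8))
    (@En.n l37434 (nat_lit 8393) (nat_lit 2) (nat_lit 11))
    (@En.i (nat_lit 9920) (nat_lit 11) (nat_lit 5))
    (@En.n l37435 (nat_lit 10390) (nat_lit 0) (nat_lit 6))
    (@En.n l37436 (nat_lit 8392) (nat_lit 9) (nat_lit 10))
    (@En.i (nat_lit 8780) (nat_lit 10) (nat_lit 6))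
    (@En.n l37437 (nat_lit 8388) (nat_lit 0) (nat_lit 7))
    (@En.n l37438 (nat_lit 8476) (nat_lit 7) (nat_lit 11))
    (@En.n l37439 (nat_lit 8431) (nat_lit 8) (nat_lit 8))
    (@En.n l15696 (nat_lit 8428) (nat_lit 10) (nat_lit 10))
    (@En.n l22460 (nat_lit 6555) (nat_lit 15) (nat_lit 5))
    (@En.n l37440 (nat_lit 12191) (nat_lit 0) (nat_lit 10))
    (@En.n l37441 (nat_lit 8391) (nat_lit 1) (nat_lit 5))))
  (@Cl.mk (nat_lit 0x3000a0006000b0009000c0008000600050004000b0007000a000d00080005) (nat_lit 0x806465000404850) (nat_lit 16) Lb.e (@T16.mk En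
    (@En.n l10497 (nat_lit 8382) (nat_lit 0) (nat_lit 5))
    (@En.i (nat_lit 9591) (nat_lit 0) (nat_lit 8))
    (@En.n l387 (nat_lit 7815) (nat_lit 5) (nat_lit 13))
    (@En.n l22428 (nat_lit 7163) (nat_lit 8) (nat_lit 10))
    (@En.n l22429 (nat_lit 8817) (nat_lit 4) (nat_lit 7))
    (@En.n l22430 (nat_lit 8391) (nat_lit 6) (nat_lit 11))
    (@En.n l22431 (nat_lit 10501) (nat_lit 6) (nat_lit 4))
    (@En.n l22428 (nat_lit 6152) (nat_lit 11) (nat_lit 5))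
    (@En.i (nat_lit 8617) (nat_lit 8) (nat_lit 6))
    (@En.n l22428 (nat_lit 8386) (nat_lit 1) (nat_lit 8))
    (@En.i (nat_lit 8268) (nat_lit 6) (nat_lit 12))
    (@En.n l22432 (nat_lit 8774) (nat_lit 12) (nat_lit 9))
    (@En.i (nat_lit 8576) (nat_lit 13) (nat_lit 11))
    (@En.n l22433 (nat_lit 8392) (nat_lit 14) (nat_lit 6))
    (@En.n l1973 (nat_lit 8394) (nat_lit 14) (nat_lit 10))
    (@En.n l11 (nat_lit 8778) (nat_lit 15) (nat_lit 3))))
  (@Cl.mk (nat_lit 0x200050008000b0007000a000d00080005000300080006000b0009000e0008) (nat_lit 0x12025000406450) (nat_lit 16) Lb.e (@T16.mk En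
    (@En.n l766 (nat_lit 8397) (nat_lit 1) (nat_lit 8))
    (@En.n l3334 (nat_lit 8378) (nat_lit 1) (nat_lit 14))
    (@En.n l14906 (nat_lit 8424) (nat_lit 2) (nat_lit 9))
    (@En.n l22411 (nat_lit 8227) (nat_lit 3) (nat_lit 11))
    (@En.n l13100 (nat_lit 8376) (nat_lit 4) (nat_lit 6))
    (@En.n l9473 (nat_lit 8384) (nat_lit 5) (nat_lit 8))
    (@En.n l287 (nat_lit 8410) (nat_lit 6) (nat_lit 3))
    (@En.n l2205 (nat_lit 1469) (nat_lit 7) (nat_lit 5))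
    (@En.n l30484 (nat_lit 8403) (nat_lit 9) (nat_lit 8))
    (@En.n l2042 (nat_lit 1917) (nat_lit 10) (nat_lit 13))
    (@En.i (nat_lit 1363) (nat_lit 11) (nat_lit 10))
    (@En.n l779 (nat_lit 2606) (nat_lit 12) (nat_lit 7))
    (@En.n l5366 (nat_lit 8230) (nat_lit 13) (nat_lit 11))
    (@En.n l766 (nat_lit 2014) (nat_lit 14) (nat_lit 8))
    (@En.n l253 (nat_lit 9528) (nat_lit 13) (nat_lit 5))
    (@En.n l3 (nat_lit 8396) (nat_lit 15) (nat_lit 2))))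
  (@Cl.mk (nat_lit 0x40007000a00060009000c000800080006000400090007000c000a00080008) (nat_lit 0x20353100609462) (nat_lit 16) Lb.e (@T16.mk En
    (@En.n l230 (nat_lit 8398) (nat_lit 8) (nat_lit 8))
    (@En.n l9941 (nat_lit 8403) (nat_lit 1) (nat_lit 8))
    (@En.n l38014 (nat_lit 8401) (nat_lit 6) (nat_lit 10))
    (@En.n l38015 (nat_lit 8400) (nat_lit 13) (nat_lit 12))
    (@En.n l38016 (nat_lit 8399) (nat_lit 14) (nat_lit 7))
    (@En.n l9936 (nat_lit 8387) (nat_lit 5) (nat_lit 9))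
    (@En.n l9937 (nat_lit 8406) (nat_lit 6) (nat_lit 4))
    (@En.n l9938 (nat_lit 8407) (nat_lit 0) (nat_lit 6))
    (@En.n l5761 (nat_lit 8396) (nat_lit 8) (nat_lit 8))
    (@En.n l38017 (nat_lit 8402) (nat_lit 10) (nat_lit 8))
    (@En.n l38018 (nat_lit 5962) (nat_lit 6) (nat_lit 12))
    (@En.i (nat_lit 3484) (nat_lit 9) (nat_lit 9))
    (@En.n l38019 (nat_lit 2612) (nat_lit 5) (nat_lit 6))
    (@En.n l2152 (nat_lit 7822) (nat_lit 8) (nat_lit 10))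
    (@En.i (nat_lit 2024) (nat_lit 11) (nat_lit 7))
    (@En.n l38020 (nat_lit 9694) (nat_lit 15) (nat_lit 4))))
  (@Cl.mk (nat_lit 0x200070005000a0008000d000b000800030006000900050008000b000e0008) (nat_lit 0x7455100203494) (nat_lit 16) Lb.e (@T16.mk En
    (@En.n l215 (nat_lit 8397) (nat_lit 9) (nat_lit 8))
    (@En.n l1889 (nat_lit 6451) (nat_lit 4) (nat_lit 14))
    (@En.n l2031 (nat_lit 6622) (nat_lit 2) (nat_lit 11))
    (@En.n l15191 (nat_lit 3488) (nat_lit 3) (nat_lit 8))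
    (@En.n l1643 (nat_lit 2621) (nat_lit 4) (nat_lit 5))
    (@En.n l2036 (nat_lit 7824) (nat_lit 5) (nat_lit 9))
    (@En.n l613 (nat_lit 6929) (nat_lit 6) (nat_lit 6))
    (@En.n l13167 (nat_lit 8438) (nat_lit 7) (nat_lit 3))
    (@En.n l5853 (nat_lit 8396) (nat_lit 0) (nat_lit 8))
    (@En.n l3039 (nat_lit 8471) (nat_lit 10) (nat_lit 11))
    (@En.n l5610 (nat_lit 8472) (nat_lit 11) (nat_lit 13))
    (@En.n l23612 (nat_lit 2627) (nat_lit 12) (nat_lit 8))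
    (@En.n l12752 (nat_lit 8473) (nat_lit 13) (nat_lit 10))
    (@En.n l897 (nat_lit 8469) (nat_lit 14) (nat_lit 5))
    (@En.n l2039 (nat_lit 8408) (nat_lit 6) (nat_lit 7))
    (@En.n l17 (nat_lit 8398) (nat_lit 15) (nat_lit 2))))
  (@Cl.mk (nat_lit 0x40007000c000a000700070004000c0009000600090004000c000900090007) (nat_lit 0x63000520306710) (nat_lit 16) Lb.e (@T16.mk En
    (@En.n l35846 (nat_lit 8436) (nat_lit 0) (nat_lit 7))
    (@En.n l55 (nat_lit 8376) (nat_lit 7) (nat_lit 9))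
    (@En.n l35847 (nat_lit 9709) (nat_lit 14) (nat_lit 9))
    (@En.n l35848 (nat_lit 8397) (nat_lit 10) (nat_lit 12))
    (@En.n l13323 (nat_lit 8400) (nat_lit 4) (nat_lit 4))
    (@En.n l35849 (nat_lit 1335) (nat_lit 9) (nat_lit 9))
    (@En.n l35850 (nat_lit 2611) (nat_lit 1) (nat_lit 6))
    (@En.n l20097 (nat_lit 5460) (nat_lit 14) (nat_lit 9))
    (@En.n l35851 (nat_lit 8496) (nat_lit 9) (nat_lit 12))
    (@En.n l2029 (nat_lit 9693) (nat_lit 9) (nat_lit 4))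
    (@En.n l35852 (nat_lit 2627) (nat_lit 9) (nat_lit 7))
    (@En.n l35853 (nat_lit 9684) (nat_lit 1) (nat_lit 7))
    (@En.n l35854 (nat_lit 8425) (nat_lit 13) (nat_lit 10))
    (@En.n l1262 (nat_lit 8577) (nat_lit 8) (nat_lit 12))
    (@En.n l29026 (nat_lit 9295) (nat_lit 11) (nat_lit 7))
    (@En.n l35855 (nat_lit 8420) (nat_lit 15) (nat_lit 4))))
noncomputable def a525 : T16 Cl := @T16.mk Cl
  (@Cl.mk (nat_lit 0x40009000c0009000700070004000c0007000a00070004000c000900090006) (nat_lit 0x683000603005040) (nat_lit 16) Lb.e (@T16.mk En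
    (@En.n l35510 (nat_lit 9068) (nat_lit 0) (nat_lit 6))
    (@En.n l61 (nat_lit 8227) (nat_lit 7) (nat_lit 9))
    (@En.n l35511 (nat_lit 9422) (nat_lit 14) (nat_lit 9))
    (@En.n l35512 (nat_lit 5965) (nat_lit 10) (nat_lit 12))
    (@En.n l35513 (nat_lit 8480) (nat_lit 4) (nat_lit 4))
    (@En.n l3673 (nat_lit 2613) (nat_lit 0) (nat_lit 7))
    (@En.n l170 (nat_lit 9118) (nat_lit 8) (nat_lit 10))
    (@En.n l35514 (nat_lit 8397) (nat_lit 14) (nat_lit 7))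
    (@En.n l35515 (nat_lit 8401) (nat_lit 3) (nat_lit 12))
    (@En.n l35516 (nat_lit 9698) (nat_lit 9) (nat_lit 4))
    (@En.n l35517 (nat_lit 8472) (nat_lit 9) (nat_lit 7))
    (@En.n l35518 (nat_lit 8773) (nat_lit 1) (nat_lit 7))
    (@En.n l1385 (nat_lit 8223) (nat_lit 13) (nat_lit 9))
    (@En.i (nat_lit 8569) (nat_lit 6) (nat_lit 12))
    (@En.n l35519 (nat_lit 8386) (nat_lit 11) (nat_lit 9))
    (@En.n l35520 (nat_lit 8419) (nat_lit 15) (nat_lit 4))))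
  (@Cl.mk (nat_lit 0x40009000c0009000900070004000a0007000a00070007000c000600090006) (nat_lit 0x464600603005020) (nat_lit 16) Lb.e (@T16.mk En
    (@En.n l18 (nat_lit 2442) (nat_lit 0) (nat_lit 6))
    (@En.n l35998 (nat_lit 7829) (nat_lit 9) (nat_lit 9))
    (@En.n l41439 (nat_lit 2022) (nat_lit 8) (nat_lit 6))
    (@En.i (nat_lit 9696) (nat_lit 8) (nat_lit 12))
    (@En.n l1867 (nat_lit 8471) (nat_lit 9) (nat_lit 7))
    (@En.n l61 (nat_lit 9427) (nat_lit 5) (nat_lit 7))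
    (@En.n l41440 (nat_lit 8994) (nat_lit 8) (nat_lit 10))
    (@En.n l41441 (nat_lit 8425) (nat_lit 14) (nat_lit 7))
    (@En.n l41442 (nat_lit 8388) (nat_lit 9) (nat_lit 10))
    (@En.n l15274 (nat_lit 8418) (nat_lit 9) (nat_lit 4))
    (@En.n l41443 (nat_lit 8426) (nat_lit 0) (nat_lit 7))
    (@En.n l35996 (nat_lit 8424) (nat_lit 7) (nat_lit 9))
    (@En.n l32839 (nat_lit 8409) (nat_lit 13) (nat_lit 9))
    (@En.i (nat_lit 9520) (nat_lit 6) (nat_lit 12))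
    (@En.n l41444 (nat_lit 8397) (nat_lit 11) (nat_lit 9))
    (@En.n l28611 (nat_lit 8405) (nat_lit 12) (nat_lit 4))))
  (@Cl.mk (nat_lit 0x50008000b0007000a000800070005000a00080006000b0009000800060009) (nat_lit 0x250020034056403) (nat_lit 16) Lb.e (@T16.mk En
    (@En.i (nat_lit 5053) (nat_lit 9) (nat_lit 9))
    (@En.n l12890 (nat_lit 9784) (nat_lit 1) (nat_lit 6))
    (@En.n l43288 (nat_lit 8404) (nat_lit 8) (nat_lit 8))
    (@En.n l43289 (nat_lit 8409) (nat_lit 7) (nat_lit 9))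
    (@En.n l43290 (nat_lit 9422) (nat_lit 9) (nat_lit 11))
    (@En.n l28108 (nat_lit 9709) (nat_lit 10) (nat_lit 6))
    (@En.n l27288 (nat_lit 9476) (nat_lit 8) (nat_lit 8))
    (@En.n l43291 (nat_lit 9425) (nat_lit 10) (nat_lit 10))
    (@En.n l8116 (nat_lit 9427) (nat_lit 11) (nat_lit 5))
    (@En.n l43277 (nat_lit 9690) (nat_lit 9) (nat_lit 7))
    (@En.n l13008 (nat_lit 8397) (nat_lit 8) (nat_lit 8))
    (@En.n l43279 (nat_lit 9486) (nat_lit 8) (nat_lit 10))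
    (@En.n l8630 (nat_lit 2831) (nat_lit 9) (nat_lit 7))
    (@En.n l1643 (nat_lit 9343) (nat_lit 7) (nat_lit 11))
    (@En.n l13008 (nat_lit 3300) (nat_lit 10) (nat_lit 8))
    (@En.n l43292 (nat_lit 10651) (nat_lit 15) (nat_lit 5))))
  (@Cl.mk (nat_lit 0x300060009000c0008000b00080004000900070005000a0008000d00080007) (nat_lit 0x26356020076950) (nat_lit 16) Lb.e (@T16.mk En
    (@En.n l42274 (nat_lit 8410) (nat_lit 0) (nat_lit 7))
    (@En.n l42275 (nat_lit 8402) (nat_lit 2) (nat_lit 8))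
    (@En.n l26235 (nat_lit 8773) (nat_lit 2) (nat_lit 13))
    (@En.n l42276 (nat_lit 9684) (nat_lit 3) (nat_lit 8))
    (@En.n l5646 (nat_lit 9431) (nat_lit 4) (nat_lit 10))
    (@En.n l32175 (nat_lit 9705) (nat_lit 5) (nat_lit 5))
    (@En.n l17 (nat_lit 9686) (nat_lit 6) (nat_lit 7))
    (@En.i (nat_lit 8405) (nat_lit 8) (nat_lit 9))
    (@En.n l1106 (nat_lit 8408) (nat_lit 8) (nat_lit 4))
    (@En.n l42277 (nat_lit 8404) (nat_lit 0) (nat_lit 8))
    (@En.n l42278 (nat_lit 5972) (nat_lit 7) (nat_lit 11))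
    (@En.i (nat_lit 2836) (nat_lit 12) (nat_lit 8))
    (@En.n l10326 (nat_lit 8258) (nat_lit 6) (nat_lit 12))
    (@En.n l17942 (nat_lit 5185) (nat_lit 9) (nat_lit 9))
    (@En.n l37030 (nat_lit 9630) (nat_lit 12) (nat_lit 6))
    (@En.n l5389 (nat_lit 9690) (nat_lit 15) (nat_lit 3))))
  (@Cl.mk (nat_lit 0x300080006000b00090007000c00080005000800040007000a000d00090008) (nat_lit 0x507405302003835) (nat_lit 16) Lb.e (@T16.mk En
    (@En.n l43293 (nat_lit 8398) (nat_lit 0) (nat_lit 8))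
    (@En.n l32257 (nat_lit 9425) (nat_lit 12) (nat_lit 9))
    (@En.i (nat_lit 1716) (nat_lit 5) (nat_lit 13))
    (@En.n l26913 (nat_lit 10019) (nat_lit 8) (nat_lit 10))
    (@En.n l43294 (nat_lit 2587) (nat_lit 11) (nat_lit 7))
    (@En.i (nat_lit 10654) (nat_lit 5) (nat_lit 4))
    (@En.n l32258 (nat_lit 6925) (nat_lit 10) (nat_lit 8))
    (@En.n l43295 (nat_lit 9679) (nat_lit 1) (nat_lit 5))
    (@En.n l43296 (nat_lit 8397) (nat_lit 0) (nat_lit 8))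
    (@En.n l3 (nat_lit 9652) (nat_lit 10) (nat_lit 12))
    (@En.n l43297 (nat_lit 9673) (nat_lit 2) (nat_lit 7))
    (@En.n l7642 (nat_lit 9643) (nat_lit 12) (nat_lit 9))
    (@En.n l43298 (nat_lit 9670) (nat_lit 13) (nat_lit 11))
    (@En.n l43299 (nat_lit 9642) (nat_lit 14) (nat_lit 6))
    (@En.n l43300 (nat_lit 9474) (nat_lit 12) (nat_lit 8))
    (@En.n l43301 (nat_lit 9651) (nat_lit 15) (nat_lit 3))))
  (@Cl.mk (nat_lit 0x40007000a00040009000c000900090006000400090007000c00070007000c) (nat_lit 0x30260100609007) (nat_lit 16) Lb.e (@T16.mk En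
    (@En.i (nat_lit 9686) (nat_lit 0) (nat_lit 12))
    (@En.n l40950 (nat_lit 8438) (nat_lit 9) (nat_lit 7))
    (@En.n l35053 (nat_lit 9425) (nat_lit 5) (nat_lit 7))
    (@En.n l40951 (nat_lit 8788) (nat_lit 13) (nat_lit 12))
    (@En.n l36715 (nat_lit 8375) (nat_lit 14) (nat_lit 7))
    (@En.n l40952 (nat_lit 8389) (nat_lit 5) (nat_lit 9))
    (@En.n l36676 (nat_lit 8415) (nat_lit 6) (nat_lit 4))
    (@En.n l36920 (nat_lit 9489) (nat_lit 0) (nat_lit 6))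
    (@En.n l36921 (nat_lit 8378) (nat_lit 7) (nat_lit 9))
    (@En.n l40953 (nat_lit 9474) (nat_lit 13) (nat_lit 9))
    (@En.n l36920 (nat_lit 5961) (nat_lit 6) (nat_lit 12))
    (@En.n l22841 (nat_lit 3482) (nat_lit 11) (nat_lit 9))
    (@En.n l35841 (nat_lit 8496) (nat_lit 5) (nat_lit 4))
    (@En.n l40954 (nat_lit 5188) (nat_lit 8) (nat_lit 10))
    (@En.n l36922 (nat_lit 9634) (nat_lit 11) (nat_lit 7))
    (@En.n l40955 (nat_lit 8397) (nat_lit 15) (nat_lit 4))))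
  (@Cl.mk (nat_lit 0x40007000c00060009000c000400090009000400090007000c000a00070007) (nat_lit 0x90350430605400) (nat_lit 16) Lb.e (@T16.mk En
    (@En.n l36385 (nat_lit 8469) (nat_lit 9) (nat_lit 7))
    (@En.n l36386 (nat_lit 9705) (nat_lit 1) (nat_lit 7))
    (@En.n l36387 (nat_lit 8418) (nat_lit 6) (nat_lit 10))
    (@En.n l36388 (nat_lit 8419) (nat_lit 13) (nat_lit 12))
    (@En.n l36389 (nat_lit 8420) (nat_lit 14) (nat_lit 7))
    (@En.n l9894 (nat_lit 8892) (nat_lit 11) (nat_lit 9))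
    (@En.n l36390 (nat_lit 9784) (nat_lit 6) (nat_lit 4))
    (@En.n l36391 (nat_lit 8410) (nat_lit 7) (nat_lit 9))
    (@En.n l36392 (nat_lit 8404) (nat_lit 1) (nat_lit 9))
    (@En.n l8602 (nat_lit 8387) (nat_lit 9) (nat_lit 4))
    (@En.n l36386 (nat_lit 6810) (nat_lit 6) (nat_lit 12))
    (@En.i (nat_lit 3486) (nat_lit 9) (nat_lit 9))
    (@En.n l36393 (nat_lit 2507) (nat_lit 5) (nat_lit 6))
    (@En.n l36394 (nat_lit 8480) (nat_lit 8) (nat_lit 12))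
    (@En.n l36395 (nat_lit 6937) (nat_lit 11) (nat_lit 7))
    (@En.n l36396 (nat_lit 9700) (nat_lit 15) (nat_lit 4))))
  (@Cl.mk (nat_lit 0x300090006000c00090007000c00040007000a00040007000a000d00090006) (nat_lit 0x508407003003650) (nat_lit 16) Lb.e (@T16.mk En
    (@En.n l3340 (nat_lit 1470) (nat_lit 0) (nat_lit 6))
    (@En.n l3596 (nat_lit 9427) (nat_lit 12) (nat_lit 9))
    (@En.n l6150 (nat_lit 5963) (nat_lit 5) (nat_lit 13))
    (@En.i (nat_lit 7355) (nat_lit 8) (nat_lit 10))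
    (@En.n l2125 (nat_lit 8396) (nat_lit 11) (nat_lit 7))
    (@En.n l22246 (nat_lit 8404) (nat_lit 5) (nat_lit 4))
    (@En.n l25427 (nat_lit 7607) (nat_lit 8) (nat_lit 10))
    (@En.n l3340 (nat_lit 6923) (nat_lit 11) (nat_lit 7))
    (@En.n l2116 (nat_lit 9021) (nat_lit 8) (nat_lit 4))
    (@En.i (nat_lit 8433) (nat_lit 0) (nat_lit 12))
    (@En.n l13756 (nat_lit 9686) (nat_lit 1) (nat_lit 7))
    (@En.n l29134 (nat_lit 8426) (nat_lit 12) (nat_lit 9))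
    (@En.n l25427 (nat_lit 9068) (nat_lit 13) (nat_lit 12))
    (@En.n l8565 (nat_lit 8436) (nat_lit 14) (nat_lit 6))
    (@En.n l2037 (nat_lit 8390) (nat_lit 5) (nat_lit 9))
    (@En.n l11610 (nat_lit 9070) (nat_lit 15) (nat_lit 3))))
  (@Cl.mk (nat_lit 0x300060009000c00060009000c0004000900070004000a0007000d000a0007) (nat_lit 0x24044060050a40) (nat_lit 16) Lb.e (@T16.mk En
    (@En.n l1783 (nat_lit 8384) (nat_lit 0) (nat_lit 7))
    (@En.n l39075 (nat_lit 8431) (nat_lit 12) (nat_lit 10))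
    (@En.n l1998 (nat_lit 8774) (nat_lit 2) (nat_lit 13))
    (@En.n l39076 (nat_lit 8435) (nat_lit 3) (nat_lit 7))
    (@En.n l5227 (nat_lit 8392) (nat_lit 4) (nat_lit 10))
    (@En.n l2221 (nat_lit 9433) (nat_lit 5) (nat_lit 4))
    (@En.n l725 (nat_lit 8433) (nat_lit 6) (nat_lit 7))
    (@En.i (nat_lit 8407) (nat_lit 1) (nat_lit 9))
    (@En.n l3596 (nat_lit 10508) (nat_lit 8) (nat_lit 4))
    (@En.n l1997 (nat_lit 5966) (nat_lit 6) (nat_lit 12))
    (@En.i (nat_lit 7234) (nat_lit 9) (nat_lit 9))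
    (@En.n l3333 (nat_lit 8397) (nat_lit 12) (nat_lit 6))
    (@En.n l862 (nat_lit 8469) (nat_lit 6) (nat_lit 12))
    (@En.n l1998 (nat_lit 5474) (nat_lit 9) (nat_lit 9))
    (@En.i (nat_lit 6645) (nat_lit 12) (nat_lit 6))
    (@En.n l2869 (nat_lit 8776) (nat_lit 15) (nat_lit 3))))
  (@Cl.mk (nat_lit 0x4000a000900080006000b000900060009000700050008000c0007000a0007) (nat_lit 0x135035050010020) (nat_lit 16) Lb.e (@T16.mk En
    (@En.n l38284 (nat_lit 2826) (nat_lit 0) (nat_lit 7))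
    (@En.n l38285 (nat_lit 8142) (nat_lit 8) (nat_lit 10))
    (@En.n l18980 (nat_lit 3183) (nat_lit 13) (nat_lit 7))
    (@En.n l38286 (nat_lit 10133) (nat_lit 7) (nat_lit 12))
    (@En.n l38287 (nat_lit 3185) (nat_lit 10) (nat_lit 8))
    (@En.n l22685 (nat_lit 9654) (nat_lit 5) (nat_lit 5))
    (@En.n l38288 (nat_lit 8406) (nat_lit 0) (nat_lit 7))
    (@En.n l11434 (nat_lit 9418) (nat_lit 9) (nat_lit 9))
    (@En.n l38289 (nat_lit 9708) (nat_lit 2) (nat_lit 6))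
    (@En.n l38290 (nat_lit 9477) (nat_lit 7) (nat_lit 9))
    (@En.n l7 (nat_lit 9423) (nat_lit 9) (nat_lit 11))
    (@En.n l30639 (nat_lit 9428) (nat_lit 10) (nat_lit 6))
    (@En.n l38291 (nat_lit 9688) (nat_lit 8) (nat_lit 8))
    (@En.n l32553 (nat_lit 8403) (nat_lit 7) (nat_lit 9))
    (@En.n l38292 (nat_lit 8402) (nat_lit 11) (nat_lit 10))
    (@En.n l38293 (nat_lit 9474) (nat_lit 15) (nat_lit 4))))
  (@Cl.mk (nat_lit 0x200050008000c0007000a000d00040009000300080006000b0009000e0007) (nat_lit 0x1a025020403470) (nat_lit 16) Lb.e (@T16.mk En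
    (@En.n l28488 (nat_lit 8406) (nat_lit 1) (nat_lit 7))
    (@En.n l12369 (nat_lit 8412) (nat_lit 1) (nat_lit 14))
    (@En.n l28489 (nat_lit 8411) (nat_lit 2) (nat_lit 9))
    (@En.n l28490 (nat_lit 8351) (nat_lit 3) (nat_lit 11))
    (@En.n l28491 (nat_lit 8352) (nat_lit 4) (nat_lit 6))
    (@En.n l10074 (nat_lit 8899) (nat_lit 5) (nat_lit 8))
    (@En.n l1253 (nat_lit 8396) (nat_lit 6) (nat_lit 3))
    (@En.n l2644 (nat_lit 8438) (nat_lit 0) (nat_lit 9))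
    (@En.n l28492 (nat_lit 8384) (nat_lit 8) (nat_lit 4))
    (@En.n l8853 (nat_lit 1916) (nat_lit 10) (nat_lit 13))
    (@En.n l28488 (nat_lit 1365) (nat_lit 11) (nat_lit 10))
    (@En.n l28493 (nat_lit 2604) (nat_lit 12) (nat_lit 7))
    (@En.n l8853 (nat_lit 8237) (nat_lit 13) (nat_lit 12))
    (@En.n l28494 (nat_lit 2015) (nat_lit 14) (nat_lit 8))
    (@En.n l5791 (nat_lit 9529) (nat_lit 13) (nat_lit 5))
    (@En.n l3 (nat_lit 8410) (nat_lit 15) (nat_lit 2))))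
  (@Cl.mk (nat_lit 0x2000c0007000b00070004000a000d0005000a0003000900060009000e0006) (nat_lit 0x409003602040360) (nat_lit 16) Lb.e (@T16.mk En
    (@En.n l41318 (nat_lit 8418) (nat_lit 5) (nat_lit 6))
    (@En.n l34513 (nat_lit 8414) (nat_lit 1) (nat_lit 14))
    (@En.i (nat_lit 9266) (nat_lit 2) (nat_lit 9))
    (@En.n l41319 (nat_lit 8353) (nat_lit 3) (nat_lit 6))
    (@En.n l41320 (nat_lit 8948) (nat_lit 4) (nat_lit 9))
    (@En.n l23524 (nat_lit 8424) (nat_lit 5) (nat_lit 3))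
    (@En.n l41321 (nat_lit 8439) (nat_lit 0) (nat_lit 10))
    (@En.n l13124 (nat_lit 8385) (nat_lit 7) (nat_lit 5))
    (@En.n l34513 (nat_lit 11014) (nat_lit 5) (nat_lit 13))
    (@En.n l41322 (nat_lit 8410) (nat_lit 10) (nat_lit 10))
    (@En.n l41323 (nat_lit 8412) (nat_lit 10) (nat_lit 4))
    (@En.n l41324 (nat_lit 2602) (nat_lit 12) (nat_lit 7))
    (@En.n l34513 (nat_lit 8238) (nat_lit 13) (nat_lit 11))
    (@En.n l41320 (nat_lit 2016) (nat_lit 14) (nat_lit 7))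
    (@En.n l17302 (nat_lit 10669) (nat_lit 9) (nat_lit 12))
    (@En.n l17 (nat_lit 8411) (nat_lit 15) (nat_lit 2))))
  (@Cl.mk (nat_lit 0x2000c00050008000c0004000a000d0004000a000300080006000b000e0006) (nat_lit 0xa03102801040460) (nat_lit 16) Lb.e (@T16.mk En
    (@En.n l9325 (nat_lit 8415) (nat_lit 2) (nat_lit 6))
    (@En.i (nat_lit 8760) (nat_lit 4) (nat_lit 14))
    (@En.n l245 (nat_lit 8413) (nat_lit 2) (nat_lit 11))
    (@En.n l5592 (nat_lit 8377) (nat_lit 3) (nat_lit 6))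
    (@En.n l3506 (nat_lit 8904) (nat_lit 4) (nat_lit 8))
    (@En.n l278 (nat_lit 8378) (nat_lit 5) (nat_lit 3))
    (@En.n l41315 (nat_lit 7681) (nat_lit 0) (nat_lit 10))
    (@En.n l15979 (nat_lit 8381) (nat_lit 7) (nat_lit 4))
    (@En.i (nat_lit 1927) (nat_lit 5) (nat_lit 13))
    (@En.n l41316 (nat_lit 1362) (nat_lit 10) (nat_lit 10))
    (@En.n l41317 (nat_lit 6434) (nat_lit 10) (nat_lit 4))
    (@En.i (nat_lit 8236) (nat_lit 12) (nat_lit 12))
    (@En.n l21353 (nat_lit 9924) (nat_lit 13) (nat_lit 8))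
    (@En.n l12099 (nat_lit 8410) (nat_lit 14) (nat_lit 5))
    (@En.n l3265 (nat_lit 9070) (nat_lit 9) (nat_lit 12))
    (@En.n l17 (nat_lit 8412) (nat_lit 15) (nat_lit 2))))
  (@Cl.mk (nat_lit 0x2000b0005000c0008000c00050004000d0004000b00030008000b000e0005) (nat_lit 0x900410080104350) (nat_lit 16) Lb.e (@T16.mk En
    (@En.n l19359 (nat_lit 8416) (nat_lit 12) (nat_lit 5))
    (@En.i (nat_lit 7922) (nat_lit 4) (nat_lit 14))
    (@En.n l10937 (nat_lit 8564) (nat_lit 2) (nat_lit 11))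
    (@En.n l10938 (nat_lit 8903) (nat_lit 3) (nat_lit 8))
    (@En.i (nat_lit 8379) (nat_lit 4) (nat_lit 3))
    (@En.n l6118 (nat_lit 7680) (nat_lit 0) (nat_lit 11))
    (@En.n l11 (nat_lit 8382) (nat_lit 6) (nat_lit 4))
    (@En.n l37856 (nat_lit 1924) (nat_lit 8) (nat_lit 13))
    (@En.n l11 (nat_lit 8358) (nat_lit 8) (nat_lit 4))
    (@En.n l21784 (nat_lit 6431) (nat_lit 9) (nat_lit 5))
    (@En.i (nat_lit 8241) (nat_lit 11) (nat_lit 12))
    (@En.n l532 (nat_lit 8412) (nat_lit 12) (nat_lit 8))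
    (@En.n l3447 (nat_lit 8414) (nat_lit 13) (nat_lit 12))
    (@En.n l19367 (nat_lit 8351) (nat_lit 14) (nat_lit 5))
    (@En.i (nat_lit 9069) (nat_lit 10) (nat_lit 11))
    (@En.n l17 (nat_lit 8413) (nat_lit 15) (nat_lit 2))))
  (@Cl.mk (nat_lit 0x2000c000c0007000b00040004000a000d0005000b000300090006000e0005) (nat_lit 0x9a0100380307050) (nat_lit 16) Lb.e (@T16.mk En
    (@En.n l33918 (nat_lit 8422) (nat_lit 5) (nat_lit 5))
    (@En.n l2698 (nat_lit 7879) (nat_lit 1) (nat_lit 14))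
    (@En.n l5592 (nat_lit 8510) (nat_lit 2) (nat_lit 6))
    (@En.n l3506 (nat_lit 8949) (nat_lit 3) (nat_lit 9))
    (@En.n l1422 (nat_lit 8508) (nat_lit 4) (nat_lit 3))
    (@En.n l11883 (nat_lit 8526) (nat_lit 0) (nat_lit 11))
    (@En.i (nat_lit 8282) (nat_lit 6) (nat_lit 5))
    (@En.i (nat_lit 11060) (nat_lit 8) (nat_lit 13))
    (@En.n l476 (nat_lit 8412) (nat_lit 9) (nat_lit 10))
    (@En.n l152 (nat_lit 8760) (nat_lit 12) (nat_lit 4))
    (@En.n l11883 (nat_lit 8152) (nat_lit 10) (nat_lit 4))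
    (@En.i (nat_lit 4063) (nat_lit 12) (nat_lit 11))
    (@En.n l24121 (nat_lit 7945) (nat_lit 13) (nat_lit 7))
    (@En.n l37851 (nat_lit 8513) (nat_lit 4) (nat_lit 12))
    (@En.n l16718 (nat_lit 9073) (nat_lit 10) (nat_lit 12))
    (@En.n l17 (nat_lit 8414) (nat_lit 15) (nat_lit 2))))
  (@Cl.mk (nat_lit 0x40007000c00040009000c0004000a000a000400090007000c00060006000c) (nat_lit 0x2022072060800a) (nat_lit 16) Lb.e (@T16.mk En
    (@En.n l17820 (nat_lit 11882) (nat_lit 0) (nat_lit 12))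
    (@En.n l29934 (nat_lit 8423) (nat_lit 10) (nat_lit 6))
    (@En.n l35257 (nat_lit 9811) (nat_lit 5) (nat_lit 6))
    (@En.n l42053 (nat_lit 8416) (nat_lit 13) (nat_lit 12))
    (@En.n l6138 (nat_lit 8417) (nat_lit 14) (nat_lit 7))
    (@En.n l42054 (nat_lit 8905) (nat_lit 11) (nat_lit 9))
    (@En.n l16798 (nat_lit 9786) (nat_lit 6) (nat_lit 4))
    (@En.n l22160 (nat_lit 8412) (nat_lit 6) (nat_lit 10))
    (@En.n l14649 (nat_lit 8881) (nat_lit 1) (nat_lit 10))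
    (@En.n l37011 (nat_lit 8389) (nat_lit 9) (nat_lit 4))
    (@En.i (nat_lit 5110) (nat_lit 6) (nat_lit 12))
    (@En.n l42055 (nat_lit 3481) (nat_lit 1) (nat_lit 9))
    (@En.n l37831 (nat_lit 8145) (nat_lit 5) (nat_lit 4))
    (@En.n l34805 (nat_lit 8367) (nat_lit 0) (nat_lit 12))
    (@En.n l42056 (nat_lit 9929) (nat_lit 11) (nat_lit 7))
    (@En.n l42057 (nat_lit 8406) (nat_lit 15) (nat_lit 4))))
noncomputable def a526 : T16 Cl := @T16.mk Cl
  (@Cl.mk (nat_lit 0x40009000c00050005000b0004000c0007000c00050004000c0004000b000b) (nat_lit 0x570090003007082) (nat_lit 16) Lb.e (@T16.mk En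
    (@En.n l8652 (nat_lit 8413) (nat_lit 5) (nat_lit 11))
    (@En.n l9229 (nat_lit 8878) (nat_lit 1) (nat_lit 11))
    (@En.i (nat_lit 8789) (nat_lit 8) (nat_lit 4))
    (@En.n l29491 (nat_lit 5109) (nat_lit 0) (nat_lit 12))
    (@En.n l20405 (nat_lit 8362) (nat_lit 12) (nat_lit 4))
    (@En.n l700 (nat_lit 8147) (nat_lit 0) (nat_lit 5))
    (@En.n l217 (nat_lit 8535) (nat_lit 1) (nat_lit 12))
    (@En.n l29924 (nat_lit 8415) (nat_lit 14) (nat_lit 7))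
    (@En.n l3850 (nat_lit 8422) (nat_lit 2) (nat_lit 12))
    (@En.i (nat_lit 8419) (nat_lit 9) (nat_lit 4))
    (@En.n l9931 (nat_lit 11883) (nat_lit 0) (nat_lit 11))
    (@En.n l8649 (nat_lit 8443) (nat_lit 11) (nat_lit 5))
    (@En.n l29246 (nat_lit 8800) (nat_lit 7) (nat_lit 5))
    (@En.n l20405 (nat_lit 8532) (nat_lit 6) (nat_lit 12))
    (@En.n l1208 (nat_lit 8871) (nat_lit 1) (nat_lit 9))
    (@En.n l5 (nat_lit 9788) (nat_lit 2) (nat_lit 4))))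
  (@Cl.mk (nat_lit 0x40007000c00050005000c0004000c000b000400090004000c0005000b000b) (nat_lit 0x40020230303081) (nat_lit 16) Lb.e (@T16.mk En
    (@En.n l19271 (nat_lit 8377) (nat_lit 5) (nat_lit 11))
    (@En.n l19709 (nat_lit 8879) (nat_lit 1) (nat_lit 11))
    (@En.i (nat_lit 9257) (nat_lit 8) (nat_lit 5))
    (@En.n l29491 (nat_lit 8415) (nat_lit 10) (nat_lit 12))
    (@En.n l1363 (nat_lit 8416) (nat_lit 4) (nat_lit 4))
    (@En.n l3506 (nat_lit 3480) (nat_lit 0) (nat_lit 9))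
    (@En.n l19709 (nat_lit 8146) (nat_lit 1) (nat_lit 4))
    (@En.n l217 (nat_lit 8363) (nat_lit 0) (nat_lit 11))
    (@En.n l12194 (nat_lit 8153) (nat_lit 1) (nat_lit 12))
    (@En.i (nat_lit 8420) (nat_lit 9) (nat_lit 4))
    (@En.n l18235 (nat_lit 11880) (nat_lit 0) (nat_lit 12))
    (@En.n l3498 (nat_lit 8441) (nat_lit 11) (nat_lit 5))
    (@En.n l13355 (nat_lit 9710) (nat_lit 5) (nat_lit 5))
    (@En.i (nat_lit 8533) (nat_lit 0) (nat_lit 12))
    (@En.n l22529 (nat_lit 6308) (nat_lit 11) (nat_lit 7))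
    (@En.n l35047 (nat_lit 9787) (nat_lit 15) (nat_lit 4))))
  (@Cl.mk (nat_lit 0x40009000c0005000a000a0004000a0007000a00060006000c0006000b0006) (nat_lit 0x460530703000080) (nat_lit 16) Lb.e (@T16.mk En
    (@En.n l29907 (nat_lit 2505) (nat_lit 0) (nat_lit 6))
    (@En.n l28324 (nat_lit 8366) (nat_lit 1) (nat_lit 11))
    (@En.n l29908 (nat_lit 6936) (nat_lit 8) (nat_lit 6))
    (@En.n l19246 (nat_lit 11780) (nat_lit 10) (nat_lit 12))
    (@En.n l29909 (nat_lit 8468) (nat_lit 10) (nat_lit 6))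
    (@En.n l28132 (nat_lit 9810) (nat_lit 5) (nat_lit 6))
    (@En.n l29910 (nat_lit 8995) (nat_lit 8) (nat_lit 10))
    (@En.n l29911 (nat_lit 8421) (nat_lit 14) (nat_lit 7))
    (@En.n l29912 (nat_lit 8894) (nat_lit 2) (nat_lit 10))
    (@En.n l29913 (nat_lit 9654) (nat_lit 9) (nat_lit 4))
    (@En.n l29914 (nat_lit 8411) (nat_lit 6) (nat_lit 10))
    (@En.n l1003 (nat_lit 9643) (nat_lit 1) (nat_lit 10))
    (@En.n l29915 (nat_lit 8388) (nat_lit 13) (nat_lit 5))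
    (@En.i (nat_lit 9351) (nat_lit 6) (nat_lit 12))
    (@En.n l29916 (nat_lit 8406) (nat_lit 11) (nat_lit 9))
    (@En.n l3480 (nat_lit 8415) (nat_lit 12) (nat_lit 4))))
  (@Cl.mk (nat_lit 0x40009000c0009000600060004000c0007000c00070004000c0004000a000a) (nat_lit 0x643000102006041) (nat_lit 16) Lb.e (@T16.mk En
    (@En.n l20402 (nat_lit 8351) (nat_lit 6) (nat_lit 10))
    (@En.n l8653 (nat_lit 9670) (nat_lit 1) (nat_lit 10))
    (@En.n l20403 (nat_lit 8386) (nat_lit 15) (nat_lit 4))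
    (@En.n l20404 (nat_lit 6807) (nat_lit 0) (nat_lit 12))
    (@En.n l20405 (nat_lit 8364) (nat_lit 1) (nat_lit 4))
    (@En.n l20406 (nat_lit 2508) (nat_lit 0) (nat_lit 7))
    (@En.n l217 (nat_lit 8481) (nat_lit 1) (nat_lit 12))
    (@En.n l20407 (nat_lit 8406) (nat_lit 14) (nat_lit 7))
    (@En.n l20408 (nat_lit 8418) (nat_lit 3) (nat_lit 12))
    (@En.n l8648 (nat_lit 9699) (nat_lit 6) (nat_lit 4))
    (@En.n l8649 (nat_lit 8470) (nat_lit 10) (nat_lit 6))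
    (@En.n l20409 (nat_lit 9707) (nat_lit 1) (nat_lit 6))
    (@En.n l8651 (nat_lit 8226) (nat_lit 13) (nat_lit 9))
    (@En.n l20405 (nat_lit 8536) (nat_lit 6) (nat_lit 12))
    (@En.n l20410 (nat_lit 8893) (nat_lit 11) (nat_lit 9))
    (@En.n l8645 (nat_lit 9785) (nat_lit 15) (nat_lit 4))))
  (@Cl.mk (nat_lit 0x40007000c000a000600060004000c000b000600090004000c0005000a000a) (nat_lit 0x35000180306051) (nat_lit 16) Lb.e (@T16.mk En
    (@En.n l22523 (nat_lit 8352) (nat_lit 6) (nat_lit 10))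
    (@En.n l22524 (nat_lit 9642) (nat_lit 1) (nat_lit 10))
    (@En.n l22525 (nat_lit 9255) (nat_lit 8) (nat_lit 5))
    (@En.n l22526 (nat_lit 8406) (nat_lit 10) (nat_lit 12))
    (@En.n l1363 (nat_lit 8419) (nat_lit 4) (nat_lit 4))
    (@En.n l19266 (nat_lit 2749) (nat_lit 9) (nat_lit 9))
    (@En.n l22527 (nat_lit 2506) (nat_lit 1) (nat_lit 6))
    (@En.n l217 (nat_lit 8365) (nat_lit 5) (nat_lit 11))
    (@En.n l22528 (nat_lit 8145) (nat_lit 9) (nat_lit 12))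
    (@En.n l19268 (nat_lit 9701) (nat_lit 9) (nat_lit 4))
    (@En.n l3498 (nat_lit 8467) (nat_lit 10) (nat_lit 6))
    (@En.n l14405 (nat_lit 9706) (nat_lit 1) (nat_lit 6))
    (@En.n l4542 (nat_lit 8421) (nat_lit 13) (nat_lit 10))
    (@En.i (nat_lit 8350) (nat_lit 8) (nat_lit 12))
    (@En.n l22529 (nat_lit 6340) (nat_lit 11) (nat_lit 7))
    (@En.n l22530 (nat_lit 9783) (nat_lit 15) (nat_lit 4))))
  (@Cl.mk (nat_lit 0x40007000a00050005000c000b000a0006000400090005000c0006000b000b) (nat_lit 0x400a4700407061) (nat_lit 16) Lb.e (@T16.mk En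
    (@En.n l27477 (nat_lit 8353) (nat_lit 5) (nat_lit 11))
    (@En.i (nat_lit 9644) (nat_lit 1) (nat_lit 11))
    (@En.n l27478 (nat_lit 9260) (nat_lit 5) (nat_lit 6))
    (@En.n l27479 (nat_lit 8418) (nat_lit 13) (nat_lit 12))
    (@En.n l27480 (nat_lit 8226) (nat_lit 4) (nat_lit 5))
    (@En.n l21198 (nat_lit 8420) (nat_lit 5) (nat_lit 9))
    (@En.n l10536 (nat_lit 8417) (nat_lit 6) (nat_lit 4))
    (@En.n l27481 (nat_lit 2504) (nat_lit 0) (nat_lit 6))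
    (@En.n l2826 (nat_lit 8361) (nat_lit 1) (nat_lit 10))
    (@En.n l6322 (nat_lit 8147) (nat_lit 5) (nat_lit 11))
    (@En.n l27482 (nat_lit 11779) (nat_lit 11) (nat_lit 12))
    (@En.n l21254 (nat_lit 8466) (nat_lit 11) (nat_lit 5))
    (@En.n l27483 (nat_lit 9711) (nat_lit 5) (nat_lit 5))
    (@En.n l6014 (nat_lit 6309) (nat_lit 8) (nat_lit 10))
    (@En.n l27484 (nat_lit 6341) (nat_lit 11) (nat_lit 7))
    (@En.n l27485 (nat_lit 9782) (nat_lit 15) (nat_lit 4))))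
  (@Cl.mk (nat_lit 0x400040009000c0005000b000b0004000a000700050005000c000c0006000b) (nat_lit 0x34094080009a01) (nat_lit 16) Lb.e (@T16.mk En
    (@En.n l143 (nat_lit 5998) (nat_lit 0) (nat_lit 11))
    (@En.n l27290 (nat_lit 11328) (nat_lit 1) (nat_lit 6))
    (@En.n l42106 (nat_lit 8518) (nat_lit 4) (nat_lit 12))
    (@En.n l27891 (nat_lit 9570) (nat_lit 3) (nat_lit 12))
    (@En.n l30105 (nat_lit 8198) (nat_lit 11) (nat_lit 5))
    (@En.n l42107 (nat_lit 12459) (nat_lit 5) (nat_lit 5))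
    (@En.i (nat_lit 8520) (nat_lit 6) (nat_lit 7))
    (@En.n l19274 (nat_lit 8952) (nat_lit 1) (nat_lit 10))
    (@En.n l42108 (nat_lit 9751) (nat_lit 8) (nat_lit 4))
    (@En.n l39625 (nat_lit 8414) (nat_lit 5) (nat_lit 11))
    (@En.n l30562 (nat_lit 8591) (nat_lit 1) (nat_lit 11))
    (@En.n l30569 (nat_lit 8283) (nat_lit 12) (nat_lit 5))
    (@En.n l27852 (nat_lit 11066) (nat_lit 6) (nat_lit 12))
    (@En.n l42109 (nat_lit 8415) (nat_lit 11) (nat_lit 9))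
    (@En.n l30127 (nat_lit 8559) (nat_lit 12) (nat_lit 4))
    (@En.n l30562 (nat_lit 8148) (nat_lit 0) (nat_lit 4))))
  (@Cl.mk (nat_lit 0x20005000a0008000d0006000c00030006000c00040008000b0004000e000a) (nat_lit 0x745010030330a8) (nat_lit 16) Lb.e (@T16.mk En
    (@En.n l7184 (nat_lit 8415) (nat_lit 8) (nat_lit 10))
    (@En.n l18943 (nat_lit 8438) (nat_lit 1) (nat_lit 14))
    (@En.n l22531 (nat_lit 8440) (nat_lit 2) (nat_lit 4))
    (@En.n l7184 (nat_lit 6629) (nat_lit 3) (nat_lit 11))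
    (@En.n l15543 (nat_lit 3491) (nat_lit 4) (nat_lit 8))
    (@En.i (nat_lit 8144) (nat_lit 5) (nat_lit 4))
    (@En.n l644 (nat_lit 8444) (nat_lit 7) (nat_lit 12))
    (@En.n l7188 (nat_lit 11330) (nat_lit 7) (nat_lit 6))
    (@En.n l8197 (nat_lit 8469) (nat_lit 8) (nat_lit 3))
    (@En.n l1603 (nat_lit 5671) (nat_lit 0) (nat_lit 12))
    (@En.n l29964 (nat_lit 9642) (nat_lit 11) (nat_lit 6))
    (@En.n l8 (nat_lit 8443) (nat_lit 12) (nat_lit 13))
    (@En.i (nat_lit 8441) (nat_lit 13) (nat_lit 8))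
    (@En.n l29965 (nat_lit 8866) (nat_lit 14) (nat_lit 10))
    (@En.n l17904 (nat_lit 9442) (nat_lit 13) (nat_lit 5))
    (@En.n l3 (nat_lit 8423) (nat_lit 15) (nat_lit 2))))
  (@Cl.mk (nat_lit 0x2000c0007000a00070004000a000d000900060003000900060009000e0007) (nat_lit 0x502003650040340) (nat_lit 16) Lb.e (@T16.mk En
    (@En.n l20183 (nat_lit 8401) (nat_lit 5) (nat_lit 7))
    (@En.n l97 (nat_lit 8508) (nat_lit 1) (nat_lit 14))
    (@En.n l35946 (nat_lit 9264) (nat_lit 2) (nat_lit 9))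
    (@En.n l699 (nat_lit 8380) (nat_lit 3) (nat_lit 6))
    (@En.n l16653 (nat_lit 8385) (nat_lit 4) (nat_lit 9))
    (@En.n l35947 (nat_lit 8411) (nat_lit 5) (nat_lit 3))
    (@En.i (nat_lit 1473) (nat_lit 0) (nat_lit 6))
    (@En.n l35948 (nat_lit 9684) (nat_lit 8) (nat_lit 9))
    (@En.i (nat_lit 11015) (nat_lit 5) (nat_lit 13))
    (@En.n l35949 (nat_lit 8396) (nat_lit 10) (nat_lit 10))
    (@En.n l1643 (nat_lit 8378) (nat_lit 10) (nat_lit 4))
    (@En.n l4306 (nat_lit 2439) (nat_lit 12) (nat_lit 7))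
    (@En.i (nat_lit 8229) (nat_lit 8) (nat_lit 10))
    (@En.n l35950 (nat_lit 2013) (nat_lit 14) (nat_lit 7))
    (@En.n l20182 (nat_lit 10654) (nat_lit 9) (nat_lit 12))
    (@En.n l107 (nat_lit 8424) (nat_lit 15) (nat_lit 2))))
  (@Cl.mk (nat_lit 0x40007000a00060006000c000b00080006000400090005000c000a000a0008) (nat_lit 0x20086200407812) (nat_lit 16) Lb.e (@T16.mk En
    (@En.i (nat_lit 8427) (nat_lit 0) (nat_lit 8))
    (@En.n l37629 (nat_lit 8380) (nat_lit 6) (nat_lit 10))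
    (@En.n l37630 (nat_lit 9708) (nat_lit 6) (nat_lit 10))
    (@En.n l37631 (nat_lit 8401) (nat_lit 13) (nat_lit 12))
    (@En.n l37632 (nat_lit 8223) (nat_lit 4) (nat_lit 5))
    (@En.n l37633 (nat_lit 8399) (nat_lit 5) (nat_lit 9))
    (@En.n l7 (nat_lit 8375) (nat_lit 6) (nat_lit 4))
    (@En.n l29814 (nat_lit 2443) (nat_lit 0) (nat_lit 6))
    (@En.n l9823 (nat_lit 5189) (nat_lit 1) (nat_lit 8))
    (@En.n l829 (nat_lit 8495) (nat_lit 5) (nat_lit 11))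
    (@En.n l37634 (nat_lit 9697) (nat_lit 11) (nat_lit 12))
    (@En.n l29816 (nat_lit 2626) (nat_lit 10) (nat_lit 6))
    (@En.n l245 (nat_lit 9428) (nat_lit 5) (nat_lit 6))
    (@En.n l829 (nat_lit 7530) (nat_lit 8) (nat_lit 10))
    (@En.n l15450 (nat_lit 9296) (nat_lit 11) (nat_lit 7))
    (@En.n l936 (nat_lit 8421) (nat_lit 15) (nat_lit 4))))
  (@Cl.mk (nat_lit 0x3000a000600090006000c000b00060009000400070005000a000d000a0007) (nat_lit 0x503080030004750) (nat_lit 16) Lb.e (@T16.mk En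
    (@En.n l2038 (nat_lit 1474) (nat_lit 0) (nat_lit 7))
    (@En.n l11831 (nat_lit 9428) (nat_lit 11) (nat_lit 10))
    (@En.n l3928 (nat_lit 9560) (nat_lit 5) (nat_lit 13))
    (@En.n l24611 (nat_lit 8407) (nat_lit 3) (nat_lit 10))
    (@En.n l3819 (nat_lit 9489) (nat_lit 4) (nat_lit 5))
    (@En.n l25488 (nat_lit 8424) (nat_lit 11) (nat_lit 7))
    (@En.n l50 (nat_lit 9643) (nat_lit 6) (nat_lit 4))
    (@En.i (nat_lit 7605) (nat_lit 9) (nat_lit 9))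
    (@En.n l10994 (nat_lit 6920) (nat_lit 1) (nat_lit 6))
    (@En.n l10625 (nat_lit 10660) (nat_lit 5) (nat_lit 11))
    (@En.n l3819 (nat_lit 8430) (nat_lit 11) (nat_lit 12))
    (@En.i (nat_lit 9571) (nat_lit 4) (nat_lit 6))
    (@En.i (nat_lit 9595) (nat_lit 9) (nat_lit 9))
    (@En.n l19984 (nat_lit 8427) (nat_lit 14) (nat_lit 6))
    (@En.n l9921 (nat_lit 8393) (nat_lit 0) (nat_lit 10))
    (@En.n l1865 (nat_lit 9073) (nat_lit 15) (nat_lit 3))))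
  (@Cl.mk (nat_lit 0x3000600090005000c000b000a0008000400070005000a0006000d000b0008) (nat_lit 0x20748200050861) (nat_lit 16) Lb.e (@T16.mk En
    (@En.n l15626 (nat_lit 1476) (nat_lit 0) (nat_lit 8))
    (@En.n l2824 (nat_lit 9711) (nat_lit 10) (nat_lit 11))
    (@En.n l17045 (nat_lit 8426) (nat_lit 2) (nat_lit 13))
    (@En.n l26295 (nat_lit 9588) (nat_lit 3) (nat_lit 6))
    (@En.n l26296 (nat_lit 8436) (nat_lit 4) (nat_lit 10))
    (@En.n l7 (nat_lit 9488) (nat_lit 5) (nat_lit 5))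
    (@En.n l26297 (nat_lit 8380) (nat_lit 11) (nat_lit 7))
    (@En.i (nat_lit 9644) (nat_lit 7) (nat_lit 4))
    (@En.n l17041 (nat_lit 5467) (nat_lit 0) (nat_lit 8))
    (@En.n l26298 (nat_lit 8460) (nat_lit 1) (nat_lit 10))
    (@En.n l15634 (nat_lit 10664) (nat_lit 11) (nat_lit 11))
    (@En.n l2822 (nat_lit 8429) (nat_lit 12) (nat_lit 12))
    (@En.n l245 (nat_lit 9712) (nat_lit 13) (nat_lit 5))
    (@En.n l10960 (nat_lit 7498) (nat_lit 9) (nat_lit 9))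
    (@En.n l17043 (nat_lit 9301) (nat_lit 12) (nat_lit 6))
    (@En.n l26299 (nat_lit 9078) (nat_lit 15) (nat_lit 3))))
  (@Cl.mk (nat_lit 0x40007000a0005000b000a0007000a0006000500090006000c0006000b0009) (nat_lit 0x20780700506074) (nat_lit 16) Lb.e (@T16.mk En
    (@En.n l23657 (nat_lit 8429) (nat_lit 0) (nat_lit 9))
    (@En.n l13834 (nat_lit 8427) (nat_lit 1) (nat_lit 11))
    (@En.n l26017 (nat_lit 11858) (nat_lit 5) (nat_lit 6))
    (@En.n l26018 (nat_lit 8431) (nat_lit 3) (nat_lit 12))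
    (@En.n l26019 (nat_lit 9586) (nat_lit 4) (nat_lit 6))
    (@En.n l343 (nat_lit 8435) (nat_lit 10) (nat_lit 9))
    (@En.n l28 (nat_lit 8779) (nat_lit 11) (nat_lit 5))
    (@En.n l26020 (nat_lit 8425) (nat_lit 7) (nat_lit 6))
    (@En.i (nat_lit 8466) (nat_lit 8) (nat_lit 10))
    (@En.n l26021 (nat_lit 5473) (nat_lit 2) (nat_lit 7))
    (@En.n l77 (nat_lit 8831) (nat_lit 6) (nat_lit 10))
    (@En.n l26022 (nat_lit 10045) (nat_lit 12) (nat_lit 11))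
    (@En.n l26023 (nat_lit 8393) (nat_lit 13) (nat_lit 5))
    (@En.n l387 (nat_lit 7529) (nat_lit 8) (nat_lit 10))
    (@En.n l640 (nat_lit 9298) (nat_lit 11) (nat_lit 7))
    (@En.n l26024 (nat_lit 9439) (nat_lit 15) (nat_lit 4))))
  (@Cl.mk (nat_lit 0x300060009000c000a000900070004000a00070006000a0007000d00060009) (nat_lit 0x26600080060903) (nat_lit 16) Lb.e (@T16.mk En
    (@En.n l12535 (nat_lit 1511) (nat_lit 0) (nat_lit 9))
    (@En.n l1790 (nat_lit 11857) (nat_lit 8) (nat_lit 6))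
    (@En.n l18 (nat_lit 8430) (nat_lit 2) (nat_lit 13))
    (@En.n l12536 (nat_lit 9587) (nat_lit 3) (nat_lit 7))
    (@En.n l12537 (nat_lit 8434) (nat_lit 4) (nat_lit 10))
    (@En.i (nat_lit 8783) (nat_lit 5) (nat_lit 6))
    (@En.n l12538 (nat_lit 8427) (nat_lit 6) (nat_lit 7))
    (@En.n l12539 (nat_lit 8428) (nat_lit 8) (nat_lit 10))
    (@En.n l3173 (nat_lit 9646) (nat_lit 8) (nat_lit 4))
    (@En.n l12540 (nat_lit 5489) (nat_lit 0) (nat_lit 7))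
    (@En.n l12535 (nat_lit 8463) (nat_lit 11) (nat_lit 9))
    (@En.n l68 (nat_lit 10046) (nat_lit 12) (nat_lit 10))
    (@En.n l3866 (nat_lit 12228) (nat_lit 6) (nat_lit 12))
    (@En.n l12535 (nat_lit 7528) (nat_lit 9) (nat_lit 9))
    (@En.n l9072 (nat_lit 8828) (nat_lit 12) (nat_lit 6))
    (@En.n l12541 (nat_lit 9077) (nat_lit 15) (nat_lit 3))))
  (@Cl.mk (nat_lit 0x3000b00060009000c000a000500080004000b00070006000a000d00050008) (nat_lit 0x503770304005801) (nat_lit 16) Lb.e (@T16.mk En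
    (@En.n l2299 (nat_lit 1478) (nat_lit 10) (nat_lit 8))
    (@En.n l1790 (nat_lit 9921) (nat_lit 9) (nat_lit 5))
    (@En.i (nat_lit 9561) (nat_lit 5) (nat_lit 13))
    (@En.n l16834 (nat_lit 8433) (nat_lit 9) (nat_lit 10))
    (@En.i (nat_lit 8781) (nat_lit 10) (nat_lit 6))
    (@En.n l9715 (nat_lit 8426) (nat_lit 5) (nat_lit 7))
    (@En.n l22670 (nat_lit 8431) (nat_lit 7) (nat_lit 11))
    (@En.n l3536 (nat_lit 9648) (nat_lit 7) (nat_lit 4))
    (@En.n l12587 (nat_lit 5493) (nat_lit 10) (nat_lit 8))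
    (@En.n l12290 (nat_lit 6639) (nat_lit 1) (nat_lit 5))
    (@En.n l68 (nat_lit 12184) (nat_lit 11) (nat_lit 10))
    (@En.n l3866 (nat_lit 12229) (nat_lit 6) (nat_lit 12))
    (@En.n l9715 (nat_lit 9593) (nat_lit 9) (nat_lit 9))
    (@En.i (nat_lit 8429) (nat_lit 14) (nat_lit 6))
    (@En.n l8364 (nat_lit 8432) (nat_lit 13) (nat_lit 11))
    (@En.n l1455 (nat_lit 9075) (nat_lit 15) (nat_lit 3))))
  (@Cl.mk (nat_lit 0x4000b0007000a0006000b00050008000b000600050009000c0005000a0008) (nat_lit 0x503080330055062) (nat_lit 16) Lb.e (@T16.mk En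
    (@En.n l22578 (nat_lit 8430) (nat_lit 0) (nat_lit 8))
    (@En.n l38021 (nat_lit 8426) (nat_lit 1) (nat_lit 10))
    (@En.n l40121 (nat_lit 9919) (nat_lit 8) (nat_lit 5))
    (@En.i (nat_lit 9521) (nat_lit 6) (nat_lit 12))
    (@En.n l40122 (nat_lit 8408) (nat_lit 10) (nat_lit 9))
    (@En.n l22492 (nat_lit 8776) (nat_lit 11) (nat_lit 5))
    (@En.i (nat_lit 8401) (nat_lit 0) (nat_lit 6))
    (@En.n l1988 (nat_lit 8468) (nat_lit 7) (nat_lit 11))
    (@En.n l3057 (nat_lit 5495) (nat_lit 10) (nat_lit 8))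
    (@En.n l6594 (nat_lit 6643) (nat_lit 9) (nat_lit 5))
    (@En.i (nat_lit 12190) (nat_lit 0) (nat_lit 11))
    (@En.n l61 (nat_lit 8390) (nat_lit 1) (nat_lit 6))
    (@En.n l1075 (nat_lit 8993) (nat_lit 8) (nat_lit 10))
    (@En.n l40123 (nat_lit 8428) (nat_lit 14) (nat_lit 7))
    (@En.n l40124 (nat_lit 8394) (nat_lit 2) (nat_lit 11))
    (@En.n l15274 (nat_lit 9434) (nat_lit 15) (nat_lit 4))))
noncomputable def a527 : T16 Cl := @T16.mk Cl
  (@Cl.mk (nat_lit 0x50008000b00050008000b00090005000900080005000b00080007000b0007) (nat_lit 0x140446014066050) (nat_lit 16) Lb.e (@T16.mk En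
    (@En.n l9144 (nat_lit 10393) (nat_lit 0) (nat_lit 7))
    (@En.n l7 (nat_lit 8816) (nat_lit 8) (nat_lit 11))
    (@En.n l8397 (nat_lit 8782) (nat_lit 9) (nat_lit 7))
    (@En.n l21647 (nat_lit 8393) (nat_lit 6) (nat_lit 8))
    (@En.n l21648 (nat_lit 8394) (nat_lit 10) (nat_lit 11))
    (@En.n l21474 (nat_lit 8795) (nat_lit 8) (nat_lit 5))
    (@En.n l14639 (nat_lit 8430) (nat_lit 8) (nat_lit 8))
    (@En.n l21649 (nat_lit 8429) (nat_lit 10) (nat_lit 9))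
    (@En.n l21650 (nat_lit 6559) (nat_lit 2) (nat_lit 5))
    (@En.n l21651 (nat_lit 12192) (nat_lit 0) (nat_lit 9))
    (@En.n l5993 (nat_lit 12230) (nat_lit 7) (nat_lit 11))
    (@En.n l21652 (nat_lit 9592) (nat_lit 10) (nat_lit 8))
    (@En.n l4682 (nat_lit 8821) (nat_lit 15) (nat_lit 5))
    (@En.n l3530 (nat_lit 7547) (nat_lit 7) (nat_lit 11))
    (@En.i (nat_lit 1488) (nat_lit 10) (nat_lit 8))
    (@En.n l4659 (nat_lit 11956) (nat_lit 2) (nat_lit 5))))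
  (@Cl.mk (nat_lit 0x3000600090004000c0007000a000d000400070003000a0006000d0009000c) (nat_lit 0x30504700050846) (nat_lit 16) Lb.e (@T16.mk En
    (@En.n l1997 (nat_lit 9228) (nat_lit 0) (nat_lit 12))
    (@En.n l2579 (nat_lit 8430) (nat_lit 12) (nat_lit 9))
    (@En.n l1998 (nat_lit 8437) (nat_lit 2) (nat_lit 13))
    (@En.n l14305 (nat_lit 8434) (nat_lit 14) (nat_lit 6))
    (@En.n l2037 (nat_lit 8816) (nat_lit 4) (nat_lit 10))
    (@En.n l2221 (nat_lit 9072) (nat_lit 5) (nat_lit 3))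
    (@En.n l1643 (nat_lit 1479) (nat_lit 11) (nat_lit 7))
    (@En.n l3596 (nat_lit 11863) (nat_lit 7) (nat_lit 4))
    (@En.n l1997 (nat_lit 5968) (nat_lit 5) (nat_lit 13))
    (@En.i (nat_lit 7228) (nat_lit 8) (nat_lit 10))
    (@En.n l476 (nat_lit 8407) (nat_lit 4) (nat_lit 7))
    (@En.i (nat_lit 8408) (nat_lit 12) (nat_lit 12))
    (@En.n l3291 (nat_lit 9652) (nat_lit 6) (nat_lit 4))
    (@En.n l1998 (nat_lit 5483) (nat_lit 9) (nat_lit 9))
    (@En.n l2031 (nat_lit 6641) (nat_lit 12) (nat_lit 6))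
    (@En.n l2869 (nat_lit 8781) (nat_lit 15) (nat_lit 3))))
  (@Cl.mk (nat_lit 0x30006000d0009000c0003000a00080004000b0007000a0006000d00050008) (nat_lit 0x83500205050804) (nat_lit 16) Lb.e (@T16.mk En
    (@En.n l18 (nat_lit 1522) (nat_lit 0) (nat_lit 8))
    (@En.n l12283 (nat_lit 11856) (nat_lit 6) (nat_lit 5))
    (@En.n l14022 (nat_lit 8433) (nat_lit 8) (nat_lit 13))
    (@En.n l26288 (nat_lit 8437) (nat_lit 8) (nat_lit 6))
    (@En.n l12280 (nat_lit 7233) (nat_lit 8) (nat_lit 10))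
    (@En.n l12286 (nat_lit 8436) (nat_lit 5) (nat_lit 7))
    (@En.n l26289 (nat_lit 8435) (nat_lit 12) (nat_lit 11))
    (@En.n l12579 (nat_lit 9067) (nat_lit 7) (nat_lit 4))
    (@En.i (nat_lit 5477) (nat_lit 14) (nat_lit 8))
    (@En.n l11911 (nat_lit 8464) (nat_lit 10) (nat_lit 10))
    (@En.n l26290 (nat_lit 8783) (nat_lit 10) (nat_lit 3))
    (@En.n l1643 (nat_lit 9229) (nat_lit 0) (nat_lit 12))
    (@En.n l26291 (nat_lit 8429) (nat_lit 13) (nat_lit 9))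
    (@En.n l26292 (nat_lit 8573) (nat_lit 2) (nat_lit 13))
    (@En.n l12281 (nat_lit 8824) (nat_lit 12) (nat_lit 6))
    (@En.n l26293 (nat_lit 9076) (nat_lit 15) (nat_lit 3))))
  (@Cl.mk (nat_lit 0x3000b0008000b000600090005000c0005000a000800040007000d000a0006) (nat_lit 0x924040505500a30) (nat_lit 16) Lb.e (@T16.mk En
    (@En.n l35951 (nat_lit 8385) (nat_lit 0) (nat_lit 6))
    (@En.n l55 (nat_lit 8428) (nat_lit 13) (nat_lit 10))
    (@En.n l1722 (nat_lit 8576) (nat_lit 2) (nat_lit 13))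
    (@En.n l35952 (nat_lit 9297) (nat_lit 11) (nat_lit 7))
    (@En.n l35953 (nat_lit 9435) (nat_lit 4) (nat_lit 4))
    (@En.n l35954 (nat_lit 8434) (nat_lit 0) (nat_lit 8))
    (@En.n l35955 (nat_lit 8436) (nat_lit 1) (nat_lit 10))
    (@En.n l35956 (nat_lit 11859) (nat_lit 7) (nat_lit 5))
    (@En.n l35957 (nat_lit 8408) (nat_lit 9) (nat_lit 12))
    (@En.n l35958 (nat_lit 8774) (nat_lit 9) (nat_lit 5))
    (@En.n l35959 (nat_lit 7236) (nat_lit 9) (nat_lit 9))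
    (@En.n l35960 (nat_lit 8399) (nat_lit 6) (nat_lit 6))
    (@En.i (nat_lit 8467) (nat_lit 7) (nat_lit 11))
    (@En.n l35961 (nat_lit 5476) (nat_lit 14) (nat_lit 8))
    (@En.n l35962 (nat_lit 8830) (nat_lit 10) (nat_lit 11))
    (@En.n l11 (nat_lit 8779) (nat_lit 15) (nat_lit 3))))
  (@Cl.mk (nat_lit 0x30006000c00090006000c0004000b000900040007000a0005000d000a0007) (nat_lit 0x63060920040740) (nat_lit 16) Lb.e (@T16.mk En
    (@En.n l29954 (nat_lit 1468) (nat_lit 0) (nat_lit 7))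
    (@En.n l18910 (nat_lit 9810) (nat_lit 11) (nat_lit 10))
    (@En.n l20263 (nat_lit 8407) (nat_lit 2) (nat_lit 13))
    (@En.n l29955 (nat_lit 9068) (nat_lit 3) (nat_lit 5))
    (@En.i (nat_lit 7354) (nat_lit 8) (nat_lit 10))
    (@En.n l17828 (nat_lit 8376) (nat_lit 11) (nat_lit 7))
    (@En.n l29956 (nat_lit 9642) (nat_lit 6) (nat_lit 4))
    (@En.n l20262 (nat_lit 5463) (nat_lit 0) (nat_lit 9))
    (@En.n l29957 (nat_lit 8461) (nat_lit 1) (nat_lit 11))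
    (@En.n l2259 (nat_lit 9017) (nat_lit 9) (nat_lit 4))
    (@En.n l4803 (nat_lit 8434) (nat_lit 11) (nat_lit 12))
    (@En.n l17393 (nat_lit 9685) (nat_lit 1) (nat_lit 6))
    (@En.n l29958 (nat_lit 8427) (nat_lit 13) (nat_lit 9))
    (@En.n l29959 (nat_lit 8570) (nat_lit 14) (nat_lit 12))
    (@En.n l612 (nat_lit 9300) (nat_lit 12) (nat_lit 6))
    (@En.n l50 (nat_lit 9074) (nat_lit 15) (nat_lit 3))))
  (@Cl.mk (nat_lit 0x3000a000600090005000c00080006000d000400070003000a000d0008000b) (nat_lit 0x804065080004735) (nat_lit 16) Lb.e (@T16.mk En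
    (@En.n l1643 (nat_lit 9231) (nat_lit 7) (nat_lit 11))
    (@En.n l39388 (nat_lit 9587) (nat_lit 13) (nat_lit 8))
    (@En.n l2009 (nat_lit 8571) (nat_lit 5) (nat_lit 13))
    (@En.i (nat_lit 8817) (nat_lit 3) (nat_lit 10))
    (@En.n l39389 (nat_lit 9071) (nat_lit 4) (nat_lit 3))
    (@En.n l4758 (nat_lit 1483) (nat_lit 11) (nat_lit 7))
    (@En.n l613 (nat_lit 11862) (nat_lit 6) (nat_lit 4))
    (@En.n l1643 (nat_lit 5969) (nat_lit 0) (nat_lit 13))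
    (@En.n l639 (nat_lit 10325) (nat_lit 1) (nat_lit 6))
    (@En.i (nat_lit 9068) (nat_lit 4) (nat_lit 8))
    (@En.i (nat_lit 8774) (nat_lit 11) (nat_lit 12))
    (@En.n l27817 (nat_lit 9671) (nat_lit 6) (nat_lit 5))
    (@En.i (nat_lit 9060) (nat_lit 9) (nat_lit 9))
    (@En.n l2876 (nat_lit 8433) (nat_lit 14) (nat_lit 6))
    (@En.n l4754 (nat_lit 8430) (nat_lit 10) (nat_lit 10))
    (@En.n l14436 (nat_lit 8777) (nat_lit 15) (nat_lit 3))))
  (@Cl.mk (nat_lit 0x200070005000a0008000d0007000c00030006000900040008000b000e0009) (nat_lit 0x7460100302391) (nat_lit 16) Lb.e (@T16.mk En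
    (@En.n l35257 (nat_lit 8405) (nat_lit 9) (nat_lit 9))
    (@En.n l35258 (nat_lit 6452) (nat_lit 4) (nat_lit 14))
    (@En.n l7074 (nat_lit 6630) (nat_lit 2) (nat_lit 11))
    (@En.n l35259 (nat_lit 3489) (nat_lit 3) (nat_lit 8))
    (@En.n l31165 (nat_lit 2624) (nat_lit 4) (nat_lit 4))
    (@En.i (nat_lit 7826) (nat_lit 5) (nat_lit 9))
    (@En.n l1867 (nat_lit 11331) (nat_lit 6) (nat_lit 6))
    (@En.n l35260 (nat_lit 8398) (nat_lit 7) (nat_lit 3))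
    (@En.n l3066 (nat_lit 5675) (nat_lit 0) (nat_lit 12))
    (@En.n l35261 (nat_lit 8404) (nat_lit 10) (nat_lit 7))
    (@En.n l35262 (nat_lit 7681) (nat_lit 11) (nat_lit 13))
    (@En.n l27469 (nat_lit 8439) (nat_lit 12) (nat_lit 8))
    (@En.n l35263 (nat_lit 8440) (nat_lit 13) (nat_lit 10))
    (@En.n l35264 (nat_lit 8423) (nat_lit 14) (nat_lit 5))
    (@En.n l7074 (nat_lit 8776) (nat_lit 6) (nat_lit 7))
    (@En.n l1770 (nat_lit 8438) (nat_lit 15) (nat_lit 2))))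
  (@Cl.mk (nat_lit 0x2000800050008000d0006000c0003000c0008000400080004000b000e000a) (nat_lit 0x5035010630304a1) (nat_lit 16) Lb.e (@T16.mk En
    (@En.n l30187 (nat_lit 8375) (nat_lit 2) (nat_lit 10))
    (@En.n l8114 (nat_lit 6456) (nat_lit 4) (nat_lit 14))
    (@En.n l30188 (nat_lit 8438) (nat_lit 2) (nat_lit 11))
    (@En.n l7 (nat_lit 7681) (nat_lit 3) (nat_lit 4))
    (@En.n l245 (nat_lit 3493) (nat_lit 4) (nat_lit 8))
    (@En.n l1029 (nat_lit 2623) (nat_lit 5) (nat_lit 4))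
    (@En.i (nat_lit 7828) (nat_lit 6) (nat_lit 8))
    (@En.n l1459 (nat_lit 10973) (nat_lit 8) (nat_lit 12))
    (@En.n l1029 (nat_lit 2627) (nat_lit 8) (nat_lit 3))
    (@En.n l250 (nat_lit 5672) (nat_lit 10) (nat_lit 12))
    (@En.n l28556 (nat_lit 9643) (nat_lit 11) (nat_lit 6))
    (@En.n l252 (nat_lit 8526) (nat_lit 12) (nat_lit 13))
    (@En.n l2114 (nat_lit 9292) (nat_lit 13) (nat_lit 8))
    (@En.n l815 (nat_lit 8441) (nat_lit 14) (nat_lit 5))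
    (@En.n l5 (nat_lit 8779) (nat_lit 5) (nat_lit 8))
    (@En.n l3 (nat_lit 8439) (nat_lit 15) (nat_lit 2))))
  (@Cl.mk (nat_lit 0x20007000a0007000d0006000b00030006000c0009000500090004000e000a) (nat_lit 0x605010074020a8) (nat_lit 16) Lb.e (@T16.mk En
    (@En.i (nat_lit 8389) (nat_lit 8) (nat_lit 10))
    (@En.n l77 (nat_lit 5033) (nat_lit 1) (nat_lit 14))
    (@En.n l19483 (nat_lit 7679) (nat_lit 2) (nat_lit 4))
    (@En.n l19484 (nat_lit 3490) (nat_lit 3) (nat_lit 9))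
    (@En.i (nat_lit 9828) (nat_lit 4) (nat_lit 5))
    (@En.n l19485 (nat_lit 8438) (nat_lit 5) (nat_lit 9))
    (@En.n l19486 (nat_lit 8439) (nat_lit 7) (nat_lit 12))
    (@En.n l19487 (nat_lit 11332) (nat_lit 7) (nat_lit 6))
    (@En.n l17902 (nat_lit 8473) (nat_lit 8) (nat_lit 3))
    (@En.n l19488 (nat_lit 5679) (nat_lit 0) (nat_lit 11))
    (@En.n l117 (nat_lit 9670) (nat_lit 11) (nat_lit 6))
    (@En.n l19489 (nat_lit 7680) (nat_lit 12) (nat_lit 13))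
    (@En.n l19490 (nat_lit 8442) (nat_lit 13) (nat_lit 7))
    (@En.i (nat_lit 8870) (nat_lit 8) (nat_lit 10))
    (@En.n l601 (nat_lit 8780) (nat_lit 5) (nat_lit 7))
    (@En.n l3 (nat_lit 8440) (nat_lit 15) (nat_lit 2))))
  (@Cl.mk (nat_lit 0x200050008000d0005000c0003000c000b000400080004000b0005000e000b) (nat_lit 0x340102303040b9) (nat_lit 16) Lb.e (@T16.mk En
    (@En.n l387 (nat_lit 8417) (nat_lit 1) (nat_lit 11))
    (@En.n l1738 (nat_lit 8439) (nat_lit 1) (nat_lit 14))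
    (@En.i (nat_lit 8442) (nat_lit 2) (nat_lit 5))
    (@En.n l19426 (nat_lit 8423) (nat_lit 3) (nat_lit 11))
    (@En.i (nat_lit 8443) (nat_lit 4) (nat_lit 4))
    (@En.n l766 (nat_lit 3507) (nat_lit 5) (nat_lit 8))
    (@En.i (nat_lit 6416) (nat_lit 6) (nat_lit 4))
    (@En.n l644 (nat_lit 8445) (nat_lit 8) (nat_lit 11))
    (@En.i (nat_lit 10975) (nat_lit 9) (nat_lit 12))
    (@En.i (nat_lit 8467) (nat_lit 9) (nat_lit 3))
    (@En.n l1253 (nat_lit 5670) (nat_lit 11) (nat_lit 12))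
    (@En.n l9462 (nat_lit 9644) (nat_lit 12) (nat_lit 5))
    (@En.n l1722 (nat_lit 8527) (nat_lit 13) (nat_lit 13))
    (@En.n l1738 (nat_lit 6771) (nat_lit 10) (nat_lit 8))
    (@En.i (nat_lit 9447) (nat_lit 13) (nat_lit 5))
    (@En.n l3 (nat_lit 8441) (nat_lit 15) (nat_lit 2))))
  (@Cl.mk (nat_lit 0x200080007000d0005000b0003000b000b00080005000900050005000e000b) (nat_lit 0x5040405640300b9) (nat_lit 16) Lb.e (@T16.mk En
    (@En.n l387 (nat_lit 9257) (nat_lit 7) (nat_lit 11))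
    (@En.n l2114 (nat_lit 6463) (nat_lit 1) (nat_lit 14))
    (@En.n l15542 (nat_lit 9258) (nat_lit 2) (nat_lit 5))
    (@En.n l7 (nat_lit 7680) (nat_lit 3) (nat_lit 5))
    (@En.n l15543 (nat_lit 1843) (nat_lit 4) (nat_lit 9))
    (@En.n l15544 (nat_lit 6862) (nat_lit 5) (nat_lit 5))
    (@En.n l827 (nat_lit 8439) (nat_lit 6) (nat_lit 8))
    (@En.n l640 (nat_lit 9292) (nat_lit 8) (nat_lit 11))
    (@En.n l15545 (nat_lit 9837) (nat_lit 9) (nat_lit 11))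
    (@En.n l2722 (nat_lit 8479) (nat_lit 9) (nat_lit 3))
    (@En.n l15546 (nat_lit 8958) (nat_lit 11) (nat_lit 11))
    (@En.n l14910 (nat_lit 9360) (nat_lit 12) (nat_lit 5))
    (@En.n l15547 (nat_lit 2312) (nat_lit 13) (nat_lit 13))
    (@En.n l2114 (nat_lit 6749) (nat_lit 14) (nat_lit 7))
    (@En.n l5784 (nat_lit 9348) (nat_lit 4) (nat_lit 8))
    (@En.n l3 (nat_lit 8442) (nat_lit 15) (nat_lit 2))))
  (@Cl.mk (nat_lit 0x20005000a000d0005000b0003000c0006000c00050004000b0004000e000b) (nat_lit 0x64010404003089) (nat_lit 16) Lb.e (@T16.mk En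
    (@En.n l1738 (nat_lit 8416) (nat_lit 1) (nat_lit 11))
    (@En.n l4600 (nat_lit 7681) (nat_lit 1) (nat_lit 14))
    (@En.n l7 (nat_lit 7680) (nat_lit 2) (nat_lit 4))
    (@En.i (nat_lit 5112) (nat_lit 3) (nat_lit 11))
    (@En.n l7 (nat_lit 8446) (nat_lit 4) (nat_lit 4))
    (@En.i (nat_lit 6417) (nat_lit 5) (nat_lit 5))
    (@En.i (nat_lit 8528) (nat_lit 7) (nat_lit 12))
    (@En.i (nat_lit 8423) (nat_lit 7) (nat_lit 6))
    (@En.i (nat_lit 8198) (nat_lit 9) (nat_lit 12))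
    (@En.i (nat_lit 8470) (nat_lit 9) (nat_lit 3))
    (@En.i (nat_lit 5623) (nat_lit 11) (nat_lit 11))
    (@En.n l6345 (nat_lit 8879) (nat_lit 12) (nat_lit 5))
    (@En.n l1208 (nat_lit 8523) (nat_lit 13) (nat_lit 13))
    (@En.n l4600 (nat_lit 8865) (nat_lit 14) (nat_lit 10))
    (@En.i (nat_lit 9446) (nat_lit 13) (nat_lit 5))
    (@En.n l3 (nat_lit 8443) (nat_lit 15) (nat_lit 2))))
  (@Cl.mk (nat_lit 0x2000600050009000d0006000d0003000c00030007000a0004000b000e000a) (nat_lit 0x35020200501a5) (nat_lit 16) Lb.e (@T16.mk En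
    (@En.n l34367 (nat_lit 8367) (nat_lit 10) (nat_lit 10))
    (@En.n l12560 (nat_lit 5368) (nat_lit 4) (nat_lit 14))
    (@En.n l50 (nat_lit 2805) (nat_lit 2) (nat_lit 11))
    (@En.i (nat_lit 8439) (nat_lit 3) (nat_lit 4))
    (@En.n l5 (nat_lit 9113) (nat_lit 4) (nat_lit 10))
    (@En.n l245 (nat_lit 3504) (nat_lit 5) (nat_lit 7))
    (@En.i (nat_lit 8450) (nat_lit 6) (nat_lit 3))
    (@En.i (nat_lit 8555) (nat_lit 0) (nat_lit 12))
    (@En.i (nat_lit 8449) (nat_lit 8) (nat_lit 3))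
    (@En.n l250 (nat_lit 5669) (nat_lit 10) (nat_lit 13))
    (@En.n l117 (nat_lit 8458) (nat_lit 3) (nat_lit 6))
    (@En.n l612 (nat_lit 8528) (nat_lit 12) (nat_lit 13))
    (@En.i (nat_lit 8445) (nat_lit 13) (nat_lit 9))
    (@En.n l815 (nat_lit 8446) (nat_lit 14) (nat_lit 5))
    (@En.n l5649 (nat_lit 10323) (nat_lit 7) (nat_lit 6))
    (@En.n l3 (nat_lit 8444) (nat_lit 15) (nat_lit 2))))
  (@Cl.mk (nat_lit 0x200060009000d0005000d0003000b00030007000d000a00050003000e000b) (nat_lit 0x240202009600b6) (nat_lit 16) Lb.e (@T16.mk En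
    (@En.n l387 (nat_lit 8363) (nat_lit 9) (nat_lit 11))
    (@En.n l8114 (nat_lit 5367) (nat_lit 1) (nat_lit 14))
    (@En.n l50 (nat_lit 8446) (nat_lit 2) (nat_lit 3))
    (@En.n l2114 (nat_lit 9292) (nat_lit 3) (nat_lit 5))
    (@En.n l827 (nat_lit 8444) (nat_lit 4) (nat_lit 10))
    (@En.i (nat_lit 8333) (nat_lit 6) (nat_lit 13))
    (@En.n l766 (nat_lit 3506) (nat_lit 6) (nat_lit 7))
    (@En.i (nat_lit 8451) (nat_lit 7) (nat_lit 3))
    (@En.i (nat_lit 8556) (nat_lit 0) (nat_lit 11))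
    (@En.i (nat_lit 8448) (nat_lit 9) (nat_lit 3))
    (@En.n l1253 (nat_lit 5668) (nat_lit 11) (nat_lit 13))
    (@En.n l14910 (nat_lit 8457) (nat_lit 3) (nat_lit 5))
    (@En.n l387 (nat_lit 8530) (nat_lit 13) (nat_lit 13))
    (@En.n l2114 (nat_lit 6319) (nat_lit 9) (nat_lit 9))
    (@En.i (nat_lit 8616) (nat_lit 6) (nat_lit 6))
    (@En.n l3 (nat_lit 8445) (nat_lit 15) (nat_lit 2))))
  (@Cl.mk (nat_lit 0x200050009000d0005000d0003000c00030007000d0004000b0003000e000b) (nat_lit 0x240902008020b6) (nat_lit 16) Lb.e (@T16.mk En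
    (@En.n l387 (nat_lit 8362) (nat_lit 9) (nat_lit 11))
    (@En.n l1738 (nat_lit 8444) (nat_lit 1) (nat_lit 14))
    (@En.i (nat_lit 8445) (nat_lit 2) (nat_lit 3))
    (@En.n l699 (nat_lit 3364) (nat_lit 3) (nat_lit 11))
    (@En.i (nat_lit 8441) (nat_lit 4) (nat_lit 4))
    (@En.i (nat_lit 8597) (nat_lit 6) (nat_lit 13))
    (@En.n l766 (nat_lit 3505) (nat_lit 6) (nat_lit 7))
    (@En.i (nat_lit 8452) (nat_lit 7) (nat_lit 3))
    (@En.i (nat_lit 8553) (nat_lit 9) (nat_lit 12))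
    (@En.i (nat_lit 8447) (nat_lit 9) (nat_lit 3))
    (@En.n l1253 (nat_lit 5667) (nat_lit 11) (nat_lit 13))
    (@En.n l9462 (nat_lit 8453) (nat_lit 12) (nat_lit 5))
    (@En.n l387 (nat_lit 8529) (nat_lit 13) (nat_lit 13))
    (@En.n l1738 (nat_lit 6316) (nat_lit 14) (nat_lit 9))
    (@En.i (nat_lit 8620) (nat_lit 13) (nat_lit 5))
    (@En.n l3 (nat_lit 8446) (nat_lit 15) (nat_lit 2))))
  (@Cl.mk (nat_lit 0x200050009000d000c00060003000c00040007000d0004000b0003000e000a) (nat_lit 0x235002003070b7) (nat_lit 16) Lb.e (@T16.mk En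
    (@En.n l387 (nat_lit 8364) (nat_lit 14) (nat_lit 10))
    (@En.n l1738 (nat_lit 8449) (nat_lit 1) (nat_lit 14))
    (@En.i (nat_lit 8448) (nat_lit 2) (nat_lit 3))
    (@En.n l699 (nat_lit 3365) (nat_lit 3) (nat_lit 11))
    (@En.i (nat_lit 8467) (nat_lit 4) (nat_lit 4))
    (@En.i (nat_lit 8484) (nat_lit 6) (nat_lit 13))
    (@En.n l766 (nat_lit 3509) (nat_lit 6) (nat_lit 7))
    (@En.n l11 (nat_lit 7741) (nat_lit 7) (nat_lit 4))
    (@En.n l127 (nat_lit 8423) (nat_lit 9) (nat_lit 12))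
    (@En.n l11 (nat_lit 8446) (nat_lit 9) (nat_lit 3))
    (@En.n l2238 (nat_lit 6432) (nat_lit 0) (nat_lit 6))
    (@En.n l55 (nat_lit 8452) (nat_lit 12) (nat_lit 12))
    (@En.n l387 (nat_lit 8485) (nat_lit 13) (nat_lit 13))
    (@En.n l1738 (nat_lit 6315) (nat_lit 14) (nat_lit 9))
    (@En.i (nat_lit 7903) (nat_lit 13) (nat_lit 5))
    (@En.n l3 (nat_lit 8447) (nat_lit 15) (nat_lit 2))))
noncomputable def a528 : T16 Cl := @T16.mk Cl
  (@Cl.mk (nat_lit 0x200060009000d000c00060003000b00040007000d000a00050003000e000a) (nat_lit 0x235002002600b7) (nat_lit 16) Lb.e (@T16.mk En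
    (@En.n l387 (nat_lit 8365) (nat_lit 14) (nat_lit 10))
    (@En.n l8114 (nat_lit 5366) (nat_lit 1) (nat_lit 14))
    (@En.n l50 (nat_lit 8447) (nat_lit 2) (nat_lit 3))
    (@En.n l2114 (nat_lit 9293) (nat_lit 3) (nat_lit 5))
    (@En.n l827 (nat_lit 8449) (nat_lit 4) (nat_lit 10))
    (@En.i (nat_lit 8334) (nat_lit 6) (nat_lit 13))
    (@En.n l766 (nat_lit 3511) (nat_lit 6) (nat_lit 7))
    (@En.n l3252 (nat_lit 7742) (nat_lit 7) (nat_lit 4))
    (@En.n l1972 (nat_lit 8440) (nat_lit 9) (nat_lit 11))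
    (@En.n l11 (nat_lit 8445) (nat_lit 9) (nat_lit 3))
    (@En.n l8115 (nat_lit 6433) (nat_lit 0) (nat_lit 6))
    (@En.n l55 (nat_lit 8451) (nat_lit 12) (nat_lit 12))
    (@En.n l387 (nat_lit 8491) (nat_lit 13) (nat_lit 13))
    (@En.n l2114 (nat_lit 6320) (nat_lit 9) (nat_lit 9))
    (@En.i (nat_lit 8617) (nat_lit 4) (nat_lit 6))
    (@En.n l3 (nat_lit 8448) (nat_lit 15) (nat_lit 2))))
  (@Cl.mk (nat_lit 0x2000600050009000d000c00070003000c00040007000a0004000b000e0009) (nat_lit 0x34500200507a6) (nat_lit 16) Lb.e (@T16.mk En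
    (@En.n l19463 (nat_lit 8480) (nat_lit 2) (nat_lit 9))
    (@En.n l19464 (nat_lit 5369) (nat_lit 4) (nat_lit 14))
    (@En.n l50 (nat_lit 2803) (nat_lit 2) (nat_lit 11))
    (@En.n l1029 (nat_lit 2627) (nat_lit 3) (nat_lit 4))
    (@En.n l3158 (nat_lit 9116) (nat_lit 4) (nat_lit 10))
    (@En.n l245 (nat_lit 3495) (nat_lit 5) (nat_lit 7))
    (@En.n l19465 (nat_lit 7740) (nat_lit 6) (nat_lit 4))
    (@En.n l19466 (nat_lit 8438) (nat_lit 8) (nat_lit 12))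
    (@En.n l11 (nat_lit 8444) (nat_lit 8) (nat_lit 3))
    (@En.n l19467 (nat_lit 6435) (nat_lit 0) (nat_lit 7))
    (@En.n l55 (nat_lit 8450) (nat_lit 11) (nat_lit 12))
    (@En.n l612 (nat_lit 8483) (nat_lit 12) (nat_lit 13))
    (@En.i (nat_lit 8448) (nat_lit 13) (nat_lit 9))
    (@En.n l815 (nat_lit 8447) (nat_lit 14) (nat_lit 5))
    (@En.n l19468 (nat_lit 10319) (nat_lit 13) (nat_lit 6))
    (@En.n l3 (nat_lit 8449) (nat_lit 15) (nat_lit 2))))
  (@Cl.mk (nat_lit 0x2000600050009000c0006000d000b000400030007000a0005000b000e000a) (nat_lit 0x3401100050857) (nat_lit 16) Lb.e (@T16.mk En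
    (@En.n l20982 (nat_lit 8366) (nat_lit 10) (nat_lit 10))
    (@En.n l20983 (nat_lit 5370) (nat_lit 4) (nat_lit 14))
    (@En.n l50 (nat_lit 2067) (nat_lit 2) (nat_lit 11))
    (@En.n l1029 (nat_lit 2626) (nat_lit 3) (nat_lit 5))
    (@En.n l20983 (nat_lit 9114) (nat_lit 4) (nat_lit 10))
    (@En.n l343 (nat_lit 8449) (nat_lit 5) (nat_lit 7))
    (@En.n l28 (nat_lit 8444) (nat_lit 6) (nat_lit 3))
    (@En.n l5290 (nat_lit 7739) (nat_lit 7) (nat_lit 4))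
    (@En.i (nat_lit 7681) (nat_lit 9) (nat_lit 11))
    (@En.n l20983 (nat_lit 3251) (nat_lit 10) (nat_lit 13))
    (@En.n l117 (nat_lit 8461) (nat_lit 3) (nat_lit 6))
    (@En.n l612 (nat_lit 8663) (nat_lit 12) (nat_lit 12))
    (@En.i (nat_lit 8451) (nat_lit 13) (nat_lit 9))
    (@En.n l815 (nat_lit 8452) (nat_lit 14) (nat_lit 5))
    (@En.n l5649 (nat_lit 10322) (nat_lit 7) (nat_lit 6))
    (@En.n l3 (nat_lit 8450) (nat_lit 15) (nat_lit 2))))
  (@Cl.mk (nat_lit 0x200060009000c0005000d000a000400030007000d000a00060003000e000b) (nat_lit 0x24015000360068) (nat_lit 16) Lb.e (@T16.mk En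
    (@En.n l10924 (nat_lit 8361) (nat_lit 9) (nat_lit 11))
    (@En.n l8114 (nat_lit 5362) (nat_lit 1) (nat_lit 14))
    (@En.n l50 (nat_lit 8452) (nat_lit 2) (nat_lit 3))
    (@En.n l10925 (nat_lit 9294) (nat_lit 3) (nat_lit 6))
    (@En.n l827 (nat_lit 8450) (nat_lit 4) (nat_lit 10))
    (@En.i (nat_lit 8332) (nat_lit 6) (nat_lit 13))
    (@En.n l343 (nat_lit 8448) (nat_lit 6) (nat_lit 7))
    (@En.n l28 (nat_lit 8445) (nat_lit 7) (nat_lit 3))
    (@En.n l3252 (nat_lit 7414) (nat_lit 8) (nat_lit 4))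
    (@En.i (nat_lit 7680) (nat_lit 10) (nat_lit 10))
    (@En.n l1253 (nat_lit 3256) (nat_lit 11) (nat_lit 13))
    (@En.n l3252 (nat_lit 8460) (nat_lit 3) (nat_lit 5))
    (@En.n l387 (nat_lit 7413) (nat_lit 13) (nat_lit 12))
    (@En.n l2114 (nat_lit 6321) (nat_lit 9) (nat_lit 9))
    (@En.i (nat_lit 8615) (nat_lit 6) (nat_lit 6))
    (@En.n l3 (nat_lit 8451) (nat_lit 15) (nat_lit 2))))
  (@Cl.mk (nat_lit 0x200050009000c0005000d000b000400030007000d0005000b0003000e000b) (nat_lit 0x240a2000402068) (nat_lit 16) Lb.e (@T16.mk En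
    (@En.n l3247 (nat_lit 8360) (nat_lit 9) (nat_lit 11))
    (@En.n l1738 (nat_lit 8450) (nat_lit 1) (nat_lit 14))
    (@En.i (nat_lit 8451) (nat_lit 2) (nat_lit 3))
    (@En.n l699 (nat_lit 3366) (nat_lit 3) (nat_lit 11))
    (@En.i (nat_lit 8466) (nat_lit 4) (nat_lit 5))
    (@En.i (nat_lit 8596) (nat_lit 6) (nat_lit 13))
    (@En.n l343 (nat_lit 8447) (nat_lit 6) (nat_lit 7))
    (@En.n l28 (nat_lit 8446) (nat_lit 7) (nat_lit 3))
    (@En.n l3256 (nat_lit 7415) (nat_lit 8) (nat_lit 4))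
    (@En.n l77 (nat_lit 8443) (nat_lit 10) (nat_lit 11))
    (@En.n l1253 (nat_lit 5504) (nat_lit 11) (nat_lit 13))
    (@En.n l9462 (nat_lit 8459) (nat_lit 12) (nat_lit 5))
    (@En.n l387 (nat_lit 8662) (nat_lit 13) (nat_lit 12))
    (@En.n l1738 (nat_lit 6311) (nat_lit 14) (nat_lit 9))
    (@En.i (nat_lit 7904) (nat_lit 13) (nat_lit 5))
    (@En.n l3 (nat_lit 8452) (nat_lit 15) (nat_lit 2))))
  (@Cl.mk (nat_lit 0x30006000a0005000d0006000c00030006000d0004000a0003000d000b000a) (nat_lit 0x40500003070a78) (nat_lit 16) Lb.e (@T16.mk En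
    (@En.n l34514 (nat_lit 8447) (nat_lit 0) (nat_lit 10))
    (@En.n l830 (nat_lit 10060) (nat_lit 9) (nat_lit 11))
    (@En.i (nat_lit 8458) (nat_lit 10) (nat_lit 13))
    (@En.n l1959 (nat_lit 8457) (nat_lit 10) (nat_lit 3))
    (@En.n l50 (nat_lit 6773) (nat_lit 0) (nat_lit 10))
    (@En.i (nat_lit 9644) (nat_lit 5) (nat_lit 4))
    (@En.n l5 (nat_lit 10192) (nat_lit 7) (nat_lit 13))
    (@En.n l7889 (nat_lit 2289) (nat_lit 12) (nat_lit 6))
    (@En.i (nat_lit 8459) (nat_lit 8) (nat_lit 3))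
    (@En.i (nat_lit 12697) (nat_lit 0) (nat_lit 12))
    (@En.i (nat_lit 8494) (nat_lit 6) (nat_lit 6))
    (@En.n l7145 (nat_lit 8454) (nat_lit 12) (nat_lit 13))
    (@En.n l612 (nat_lit 6849) (nat_lit 3) (nat_lit 5))
    (@En.i (nat_lit 6322) (nat_lit 9) (nat_lit 10))
    (@En.i (nat_lit 9535) (nat_lit 12) (nat_lit 6))
    (@En.n l830 (nat_lit 9665) (nat_lit 15) (nat_lit 3))))
  (@Cl.mk (nat_lit 0x30006000a000d0005000b000300090006000d0005000a0003000d0007000b) (nat_lit 0x34030604060a09) (nat_lit 16) Lb.e (@T16.mk En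
    (@En.n l513 (nat_lit 8452) (nat_lit 0) (nat_lit 11))
    (@En.n l24408 (nat_lit 10729) (nat_lit 14) (nat_lit 7))
    (@En.i (nat_lit 8456) (nat_lit 2) (nat_lit 13))
    (@En.n l2114 (nat_lit 8455) (nat_lit 3) (nat_lit 3))
    (@En.n l23798 (nat_lit 6740) (nat_lit 0) (nat_lit 10))
    (@En.i (nat_lit 9646) (nat_lit 5) (nat_lit 5))
    (@En.n l253 (nat_lit 10892) (nat_lit 7) (nat_lit 13))
    (@En.n l1738 (nat_lit 8453) (nat_lit 7) (nat_lit 6))
    (@En.n l15166 (nat_lit 8146) (nat_lit 4) (nat_lit 9))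
    (@En.i (nat_lit 8462) (nat_lit 9) (nat_lit 3))
    (@En.n l24509 (nat_lit 12703) (nat_lit 0) (nat_lit 11))
    (@En.i (nat_lit 8465) (nat_lit 7) (nat_lit 5))
    (@En.n l13416 (nat_lit 11600) (nat_lit 5) (nat_lit 13))
    (@En.n l1738 (nat_lit 6325) (nat_lit 9) (nat_lit 10))
    (@En.i (nat_lit 9534) (nat_lit 12) (nat_lit 6))
    (@En.n l13417 (nat_lit 9668) (nat_lit 15) (nat_lit 3))))
  (@Cl.mk (nat_lit 0x30007000a000d0005000a000300090006000d000900060003000d0007000b) (nat_lit 0x22020603300a09) (nat_lit 16) Lb.e (@T16.mk En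
    (@En.n l23667 (nat_lit 8451) (nat_lit 0) (nat_lit 11))
    (@En.n l11929 (nat_lit 10728) (nat_lit 14) (nat_lit 7))
    (@En.n l23668 (nat_lit 1742) (nat_lit 2) (nat_lit 13))
    (@En.n l23669 (nat_lit 8454) (nat_lit 3) (nat_lit 3))
    (@En.n l23670 (nat_lit 9660) (nat_lit 0) (nat_lit 6))
    (@En.n l23671 (nat_lit 8456) (nat_lit 5) (nat_lit 9))
    (@En.n l23672 (nat_lit 10895) (nat_lit 7) (nat_lit 13))
    (@En.i (nat_lit 8457) (nat_lit 14) (nat_lit 6))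
    (@En.n l5812 (nat_lit 8147) (nat_lit 4) (nat_lit 9))
    (@En.n l1668 (nat_lit 8463) (nat_lit 9) (nat_lit 3))
    (@En.n l23673 (nat_lit 12705) (nat_lit 0) (nat_lit 10))
    (@En.n l23674 (nat_lit 8831) (nat_lit 7) (nat_lit 5))
    (@En.n l23675 (nat_lit 11623) (nat_lit 5) (nat_lit 13))
    (@En.i (nat_lit 6327) (nat_lit 8) (nat_lit 10))
    (@En.n l2149 (nat_lit 9538) (nat_lit 4) (nat_lit 7))
    (@En.n l23676 (nat_lit 9662) (nat_lit 15) (nat_lit 3))))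
  (@Cl.mk (nat_lit 0x300070006000a000d0006000b0003000a000600090005000a000d0006000a) (nat_lit 0x3300070202908) (nat_lit 16) Lb.e (@T16.mk En
    (@En.n l13783 (nat_lit 8450) (nat_lit 0) (nat_lit 10))
    (@En.n l39058 (nat_lit 10727) (nat_lit 8) (nat_lit 6))
    (@En.n l22858 (nat_lit 5361) (nat_lit 5) (nat_lit 13))
    (@En.n l39059 (nat_lit 6686) (nat_lit 3) (nat_lit 10))
    (@En.n l26300 (nat_lit 9648) (nat_lit 4) (nat_lit 5))
    (@En.n l22858 (nat_lit 11423) (nat_lit 9) (nat_lit 9))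
    (@En.n l1738 (nat_lit 8458) (nat_lit 14) (nat_lit 6))
    (@En.n l15166 (nat_lit 8145) (nat_lit 8) (nat_lit 10))
    (@En.n l9444 (nat_lit 8464) (nat_lit 8) (nat_lit 3))
    (@En.n l39060 (nat_lit 12702) (nat_lit 0) (nat_lit 11))
    (@En.n l9335 (nat_lit 8830) (nat_lit 11) (nat_lit 6))
    (@En.n l13416 (nat_lit 11599) (nat_lit 5) (nat_lit 13))
    (@En.n l39061 (nat_lit 8455) (nat_lit 13) (nat_lit 10))
    (@En.n l18 (nat_lit 8454) (nat_lit 14) (nat_lit 6))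
    (@En.i (nat_lit 9542) (nat_lit 12) (nat_lit 7))
    (@En.n l13417 (nat_lit 9669) (nat_lit 15) (nat_lit 3))))
  (@Cl.mk (nat_lit 0x30006000d000900050003000d000b000a00030007000a0005000d0006000b) (nat_lit 0x3000a780020300) (nat_lit 16) Lb.e (@T16.mk En
    (@En.n l2130 (nat_lit 12704) (nat_lit 0) (nat_lit 11))
    (@En.i (nat_lit 8495) (nat_lit 6) (nat_lit 6))
    (@En.n l476 (nat_lit 8455) (nat_lit 12) (nat_lit 13))
    (@En.n l13752 (nat_lit 6851) (nat_lit 3) (nat_lit 5))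
    (@En.i (nat_lit 6333) (nat_lit 8) (nat_lit 10))
    (@En.n l2149 (nat_lit 9539) (nat_lit 5) (nat_lit 7))
    (@En.n l28352 (nat_lit 9661) (nat_lit 6) (nat_lit 3))
    (@En.n l34369 (nat_lit 8448) (nat_lit 0) (nat_lit 10))
    (@En.n l28352 (nat_lit 10057) (nat_lit 9) (nat_lit 11))
    (@En.n l644 (nat_lit 5359) (nat_lit 10) (nat_lit 13))
    (@En.n l1063 (nat_lit 8453) (nat_lit 3) (nat_lit 3))
    (@En.i (nat_lit 9659) (nat_lit 0) (nat_lit 5))
    (@En.n l28347 (nat_lit 8458) (nat_lit 13) (nat_lit 9))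
    (@En.n l2149 (nat_lit 10191) (nat_lit 7) (nat_lit 13))
    (@En.n l34370 (nat_lit 2288) (nat_lit 12) (nat_lit 6))
    (@En.n l1683 (nat_lit 8460) (nat_lit 15) (nat_lit 3))))
  (@Cl.mk (nat_lit 0x3000600090004000a000d000a0009000300070006000a0006000d0007000c) (nat_lit 0x70596700030404) (nat_lit 16) Lb.e (@T16.mk En
    (@En.n l28100 (nat_lit 12700) (nat_lit 0) (nat_lit 12))
    (@En.i (nat_lit 8496) (nat_lit 10) (nat_lit 7))
    (@En.n l7145 (nat_lit 8456) (nat_lit 11) (nat_lit 13))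
    (@En.n l612 (nat_lit 6850) (nat_lit 3) (nat_lit 6))
    (@En.n l2114 (nat_lit 8457) (nat_lit 4) (nat_lit 10))
    (@En.n l17 (nat_lit 8453) (nat_lit 14) (nat_lit 6))
    (@En.i (nat_lit 9541) (nat_lit 6) (nat_lit 7))
    (@En.n l830 (nat_lit 9664) (nat_lit 7) (nat_lit 3))
    (@En.n l619 (nat_lit 8449) (nat_lit 0) (nat_lit 9))
    (@En.n l38582 (nat_lit 10062) (nat_lit 10) (nat_lit 10))
    (@En.n l26232 (nat_lit 5414) (nat_lit 5) (nat_lit 13))
    (@En.n l50 (nat_lit 6684) (nat_lit 3) (nat_lit 10))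
    (@En.n l16721 (nat_lit 9643) (nat_lit 4) (nat_lit 4))
    (@En.n l5 (nat_lit 11238) (nat_lit 9) (nat_lit 9))
    (@En.n l7889 (nat_lit 2291) (nat_lit 12) (nat_lit 6))
    (@En.i (nat_lit 8461) (nat_lit 15) (nat_lit 3))))
  (@Cl.mk (nat_lit 0x30006000a0005000d000b000700030006000d0005000a0003000d000b0009) (nat_lit 0x40770004070873) (nat_lit 16) Lb.e (@T16.mk En
    (@En.n l21943 (nat_lit 7741) (nat_lit 0) (nat_lit 9))
    (@En.n l1236 (nat_lit 10061) (nat_lit 9) (nat_lit 11))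
    (@En.i (nat_lit 8461) (nat_lit 10) (nat_lit 13))
    (@En.n l13298 (nat_lit 8460) (nat_lit 10) (nat_lit 3))
    (@En.n l50 (nat_lit 6772) (nat_lit 0) (nat_lit 10))
    (@En.n l28 (nat_lit 8427) (nat_lit 5) (nat_lit 5))
    (@En.n l5 (nat_lit 10169) (nat_lit 7) (nat_lit 13))
    (@En.n l21944 (nat_lit 6432) (nat_lit 12) (nat_lit 6))
    (@En.n l28 (nat_lit 8453) (nat_lit 8) (nat_lit 3))
    (@En.n l13294 (nat_lit 989) (nat_lit 0) (nat_lit 7))
    (@En.i (nat_lit 8879) (nat_lit 11) (nat_lit 11))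
    (@En.n l7145 (nat_lit 8462) (nat_lit 12) (nat_lit 13))
    (@En.n l21945 (nat_lit 6845) (nat_lit 3) (nat_lit 5))
    (@En.i (nat_lit 6238) (nat_lit 9) (nat_lit 10))
    (@En.i (nat_lit 9533) (nat_lit 12) (nat_lit 6))
    (@En.n l830 (nat_lit 10356) (nat_lit 15) (nat_lit 3))))
  (@Cl.mk (nat_lit 0x30006000d000900060003000d000b000900030007000a0005000d000a0007) (nat_lit 0x40008750030370) (nat_lit 16) Lb.e (@T16.mk En
    (@En.i (nat_lit 918) (nat_lit 0) (nat_lit 7))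
    (@En.n l5197 (nat_lit 8878) (nat_lit 11) (nat_lit 10))
    (@En.n l396 (nat_lit 8463) (nat_lit 12) (nat_lit 13))
    (@En.n l12 (nat_lit 6848) (nat_lit 3) (nat_lit 5))
    (@En.i (nat_lit 6332) (nat_lit 8) (nat_lit 10))
    (@En.n l23652 (nat_lit 9540) (nat_lit 5) (nat_lit 7))
    (@En.n l23653 (nat_lit 9666) (nat_lit 6) (nat_lit 3))
    (@En.n l644 (nat_lit 7742) (nat_lit 0) (nat_lit 9))
    (@En.n l77 (nat_lit 10056) (nat_lit 9) (nat_lit 11))
    (@En.n l23654 (nat_lit 1743) (nat_lit 10) (nat_lit 13))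
    (@En.n l5195 (nat_lit 8459) (nat_lit 3) (nat_lit 3))
    (@En.n l23655 (nat_lit 9595) (nat_lit 0) (nat_lit 6))
    (@En.n l23656 (nat_lit 8461) (nat_lit 13) (nat_lit 9))
    (@En.n l10875 (nat_lit 10171) (nat_lit 7) (nat_lit 13))
    (@En.n l3947 (nat_lit 6433) (nat_lit 12) (nat_lit 6))
    (@En.n l5196 (nat_lit 8457) (nat_lit 15) (nat_lit 3))))
  (@Cl.mk (nat_lit 0x3000600090005000a000d000a0008000300070006000a0006000d000b0008) (nat_lit 0x70576400040a82) (nat_lit 16) Lb.e (@T16.mk En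
    (@En.n l36906 (nat_lit 985) (nat_lit 0) (nat_lit 8))
    (@En.n l30079 (nat_lit 8881) (nat_lit 10) (nat_lit 11))
    (@En.n l36907 (nat_lit 8464) (nat_lit 11) (nat_lit 13))
    (@En.n l21945 (nat_lit 6847) (nat_lit 3) (nat_lit 6))
    (@En.n l13297 (nat_lit 8460) (nat_lit 4) (nat_lit 10))
    (@En.n l17 (nat_lit 8459) (nat_lit 14) (nat_lit 6))
    (@En.n l30838 (nat_lit 9543) (nat_lit 6) (nat_lit 7))
    (@En.n l830 (nat_lit 10357) (nat_lit 7) (nat_lit 3))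
    (@En.n l36908 (nat_lit 7740) (nat_lit 0) (nat_lit 8))
    (@En.n l17680 (nat_lit 10063) (nat_lit 10) (nat_lit 10))
    (@En.n l36908 (nat_lit 1745) (nat_lit 5) (nat_lit 13))
    (@En.n l9445 (nat_lit 6617) (nat_lit 3) (nat_lit 10))
    (@En.n l16721 (nat_lit 8426) (nat_lit 4) (nat_lit 5))
    (@En.n l36908 (nat_lit 11234) (nat_lit 9) (nat_lit 9))
    (@En.n l36909 (nat_lit 6435) (nat_lit 12) (nat_lit 6))
    (@En.n l28 (nat_lit 8458) (nat_lit 15) (nat_lit 3))))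
  (@Cl.mk (nat_lit 0x30006000a000d000a0006000300090006000d0006000a0003000d0007000a) (nat_lit 0x36000702060a07) (nat_lit 16) Lb.e (@T16.mk En
    (@En.n l23376 (nat_lit 7415) (nat_lit 0) (nat_lit 10))
    (@En.n l345 (nat_lit 10730) (nat_lit 14) (nat_lit 7))
    (@En.n l9444 (nat_lit 8464) (nat_lit 2) (nat_lit 13))
    (@En.n l23377 (nat_lit 8463) (nat_lit 3) (nat_lit 3))
    (@En.n l23378 (nat_lit 6738) (nat_lit 0) (nat_lit 10))
    (@En.n l10879 (nat_lit 8429) (nat_lit 5) (nat_lit 6))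
    (@En.n l253 (nat_lit 10891) (nat_lit 7) (nat_lit 13))
    (@En.n l1738 (nat_lit 8459) (nat_lit 7) (nat_lit 6))
    (@En.n l343 (nat_lit 8465) (nat_lit 4) (nat_lit 9))
    (@En.n l28 (nat_lit 8454) (nat_lit 9) (nat_lit 3))
    (@En.n l23376 (nat_lit 1298) (nat_lit 0) (nat_lit 6))
    (@En.n l77 (nat_lit 11112) (nat_lit 12) (nat_lit 10))
    (@En.n l13416 (nat_lit 11597) (nat_lit 5) (nat_lit 13))
    (@En.n l23376 (nat_lit 6326) (nat_lit 9) (nat_lit 10))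
    (@En.n l19198 (nat_lit 9532) (nat_lit 12) (nat_lit 6))
    (@En.n l13417 (nat_lit 10359) (nat_lit 15) (nat_lit 3))))
  (@Cl.mk (nat_lit 0x30007000a000d00090006000300090006000d000900070003000d0007000a) (nat_lit 0x32700605300a07) (nat_lit 16) Lb.e (@T16.mk En
    (@En.i (nat_lit 7414) (nat_lit 0) (nat_lit 10))
    (@En.n l1115 (nat_lit 10725) (nat_lit 14) (nat_lit 7))
    (@En.n l3678 (nat_lit 1739) (nat_lit 2) (nat_lit 13))
    (@En.n l10302 (nat_lit 8462) (nat_lit 3) (nat_lit 3))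
    (@En.n l10303 (nat_lit 9593) (nat_lit 0) (nat_lit 7))
    (@En.n l5283 (nat_lit 8464) (nat_lit 5) (nat_lit 9))
    (@En.n l10303 (nat_lit 10894) (nat_lit 7) (nat_lit 13))
    (@En.n l699 (nat_lit 8460) (nat_lit 14) (nat_lit 6))
    (@En.n l10304 (nat_lit 8831) (nat_lit 4) (nat_lit 9))
    (@En.n l10305 (nat_lit 8455) (nat_lit 9) (nat_lit 3))
    (@En.i (nat_lit 917) (nat_lit 0) (nat_lit 6))
    (@En.n l10306 (nat_lit 11114) (nat_lit 12) (nat_lit 9))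
    (@En.n l253 (nat_lit 11601) (nat_lit 5) (nat_lit 13))
    (@En.i (nat_lit 6328) (nat_lit 8) (nat_lit 10))
    (@En.n l115 (nat_lit 8843) (nat_lit 4) (nat_lit 7))
    (@En.n l10307 (nat_lit 10360) (nat_lit 15) (nat_lit 3))))
noncomputable def a529 : T16 Cl := @T16.mk Cl
  (@Cl.mk (nat_lit 0x300070006000a000d000a00070003000a000600090006000a000d00060009) (nat_lit 0x4980070201906) (nat_lit 16) Lb.e (@T16.mk En
    (@En.n l12267 (nat_lit 7739) (nat_lit 0) (nat_lit 9))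
    (@En.n l2116 (nat_lit 10726) (nat_lit 8) (nat_lit 6))
    (@En.n l1388 (nat_lit 1740) (nat_lit 5) (nat_lit 13))
    (@En.i (nat_lit 6729) (nat_lit 3) (nat_lit 10))
    (@En.n l1388 (nat_lit 8430) (nat_lit 4) (nat_lit 6))
    (@En.n l2117 (nat_lit 11424) (nat_lit 9) (nat_lit 9))
    (@En.n l20946 (nat_lit 8461) (nat_lit 14) (nat_lit 6))
    (@En.n l11953 (nat_lit 8830) (nat_lit 8) (nat_lit 10))
    (@En.n l20943 (nat_lit 8456) (nat_lit 8) (nat_lit 3))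
    (@En.n l9512 (nat_lit 1302) (nat_lit 0) (nat_lit 7))
    (@En.n l4942 (nat_lit 11113) (nat_lit 11) (nat_lit 10))
    (@En.n l1638 (nat_lit 11595) (nat_lit 5) (nat_lit 13))
    (@En.n l23592 (nat_lit 8463) (nat_lit 13) (nat_lit 10))
    (@En.n l20022 (nat_lit 8462) (nat_lit 14) (nat_lit 6))
    (@En.n l2125 (nat_lit 9544) (nat_lit 12) (nat_lit 7))
    (@En.n l22246 (nat_lit 10358) (nat_lit 15) (nat_lit 3))))
  (@Cl.mk (nat_lit 0x3000c0007000b000a00040007000b0005000b000600090005000d00050009) (nat_lit 0x908800303060402) (nat_lit 16) Lb.e (@T16.mk En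
    (@En.n l38958 (nat_lit 6728) (nat_lit 0) (nat_lit 9))
    (@En.n l26304 (nat_lit 8428) (nat_lit 6) (nat_lit 5))
    (@En.n l4750 (nat_lit 10893) (nat_lit 2) (nat_lit 13))
    (@En.n l1738 (nat_lit 8494) (nat_lit 3) (nat_lit 5))
    (@En.n l26304 (nat_lit 6416) (nat_lit 9) (nat_lit 9))
    (@En.n l38959 (nat_lit 1299) (nat_lit 5) (nat_lit 6))
    (@En.n l38960 (nat_lit 11120) (nat_lit 12) (nat_lit 11))
    (@En.n l3535 (nat_lit 10653) (nat_lit 7) (nat_lit 5))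
    (@En.n l38961 (nat_lit 6329) (nat_lit 8) (nat_lit 11))
    (@En.n l18752 (nat_lit 6863) (nat_lit 11) (nat_lit 7))
    (@En.n l26143 (nat_lit 6270) (nat_lit 10) (nat_lit 4))
    (@En.n l55 (nat_lit 8462) (nat_lit 0) (nat_lit 10))
    (@En.n l18053 (nat_lit 8459) (nat_lit 1) (nat_lit 11))
    (@En.n l38962 (nat_lit 10724) (nat_lit 14) (nat_lit 7))
    (@En.n l9335 (nat_lit 8830) (nat_lit 3) (nat_lit 12))
    (@En.n l26304 (nat_lit 8831) (nat_lit 15) (nat_lit 3))))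
  (@Cl.mk (nat_lit 0x200050008000b0005000c000b000a0005000400080005000b0006000e000b) (nat_lit 0x34024600406087) (nat_lit 16) Lb.e (@T16.mk En
    (@En.n l13834 (nat_lit 8421) (nat_lit 1) (nat_lit 11))
    (@En.n l10211 (nat_lit 2626) (nat_lit 1) (nat_lit 14))
    (@En.n l10925 (nat_lit 9261) (nat_lit 2) (nat_lit 6))
    (@En.n l13835 (nat_lit 8468) (nat_lit 3) (nat_lit 11))
    (@En.n l28 (nat_lit 7649) (nat_lit 4) (nat_lit 5))
    (@En.n l343 (nat_lit 8467) (nat_lit 5) (nat_lit 8))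
    (@En.n l28 (nat_lit 8441) (nat_lit 6) (nat_lit 4))
    (@En.n l916 (nat_lit 2466) (nat_lit 7) (nat_lit 5))
    (@En.n l644 (nat_lit 8451) (nat_lit 9) (nat_lit 10))
    (@En.n l77 (nat_lit 6417) (nat_lit 10) (nat_lit 11))
    (@En.n l11243 (nat_lit 5674) (nat_lit 11) (nat_lit 12))
    (@En.n l13836 (nat_lit 8427) (nat_lit 12) (nat_lit 5))
    (@En.n l387 (nat_lit 6420) (nat_lit 13) (nat_lit 11))
    (@En.n l13837 (nat_lit 6770) (nat_lit 10) (nat_lit 8))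
    (@En.i (nat_lit 9448) (nat_lit 13) (nat_lit 5))
    (@En.n l3 (nat_lit 8466) (nat_lit 15) (nat_lit 2))))
  (@Cl.mk (nat_lit 0x200050008000d000b00060003000c000b000500080004000b0005000e000a) (nat_lit 0x335001303060b6) (nat_lit 16) Lb.e (@T16.mk En
    (@En.n l387 (nat_lit 8420) (nat_lit 1) (nat_lit 10))
    (@En.n l10211 (nat_lit 2627) (nat_lit 1) (nat_lit 14))
    (@En.n l2722 (nat_lit 8479) (nat_lit 2) (nat_lit 5))
    (@En.n l10212 (nat_lit 8469) (nat_lit 3) (nat_lit 11))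
    (@En.i (nat_lit 8470) (nat_lit 4) (nat_lit 4))
    (@En.n l766 (nat_lit 3510) (nat_lit 5) (nat_lit 8))
    (@En.n l916 (nat_lit 2470) (nat_lit 6) (nat_lit 5))
    (@En.n l644 (nat_lit 8448) (nat_lit 8) (nat_lit 11))
    (@En.n l127 (nat_lit 8144) (nat_lit 9) (nat_lit 12))
    (@En.n l11 (nat_lit 8441) (nat_lit 9) (nat_lit 3))
    (@En.n l8115 (nat_lit 8380) (nat_lit 0) (nat_lit 6))
    (@En.n l55 (nat_lit 8466) (nat_lit 12) (nat_lit 11))
    (@En.n l1722 (nat_lit 8477) (nat_lit 13) (nat_lit 13))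
    (@En.n l1738 (nat_lit 6769) (nat_lit 10) (nat_lit 8))
    (@En.i (nat_lit 9443) (nat_lit 13) (nat_lit 5))
    (@En.n l3 (nat_lit 8467) (nat_lit 15) (nat_lit 2))))
  (@Cl.mk (nat_lit 0x20005000b0008000b0006000c0005000b000500040008000b0005000e000a) (nat_lit 0x84303020045076) (nat_lit 16) Lb.e (@T16.mk En
    (@En.n l15317 (nat_lit 8418) (nat_lit 11) (nat_lit 10))
    (@En.n l15318 (nat_lit 8471) (nat_lit 1) (nat_lit 14))
    (@En.n l15319 (nat_lit 8474) (nat_lit 2) (nat_lit 5))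
    (@En.n l15320 (nat_lit 9519) (nat_lit 3) (nat_lit 11))
    (@En.n l14209 (nat_lit 8469) (nat_lit 4) (nat_lit 8))
    (@En.n l15321 (nat_lit 8423) (nat_lit 5) (nat_lit 4))
    (@En.i (nat_lit 2467) (nat_lit 6) (nat_lit 5))
    (@En.n l15322 (nat_lit 8450) (nat_lit 8) (nat_lit 11))
    (@En.n l15323 (nat_lit 6932) (nat_lit 8) (nat_lit 5))
    (@En.n l639 (nat_lit 5676) (nat_lit 10) (nat_lit 12))
    (@En.n l15324 (nat_lit 8436) (nat_lit 11) (nat_lit 6))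
    (@En.i (nat_lit 8987) (nat_lit 12) (nat_lit 11))
    (@En.n l15325 (nat_lit 8466) (nat_lit 13) (nat_lit 8))
    (@En.n l15326 (nat_lit 8476) (nat_lit 14) (nat_lit 11))
    (@En.n l15327 (nat_lit 9445) (nat_lit 13) (nat_lit 5))
    (@En.n l18 (nat_lit 8468) (nat_lit 15) (nat_lit 2))))
  (@Cl.mk (nat_lit 0x20005000a0008000d000b000700030006000c00050008000b0004000e0009) (nat_lit 0x744400030350a5) (nat_lit 16) Lb.e (@T16.mk En
    (@En.n l21714 (nat_lit 8406) (nat_lit 8) (nat_lit 9))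
    (@En.n l998 (nat_lit 8398) (nat_lit 1) (nat_lit 14))
    (@En.n l1643 (nat_lit 8473) (nat_lit 2) (nat_lit 4))
    (@En.n l790 (nat_lit 6625) (nat_lit 3) (nat_lit 11))
    (@En.n l770 (nat_lit 3492) (nat_lit 4) (nat_lit 8))
    (@En.n l3506 (nat_lit 2473) (nat_lit 5) (nat_lit 5))
    (@En.n l21715 (nat_lit 8449) (nat_lit 7) (nat_lit 12))
    (@En.n l4361 (nat_lit 6931) (nat_lit 7) (nat_lit 6))
    (@En.n l12100 (nat_lit 8423) (nat_lit 8) (nat_lit 3))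
    (@En.i (nat_lit 8376) (nat_lit 0) (nat_lit 7))
    (@En.n l13824 (nat_lit 8468) (nat_lit 11) (nat_lit 11))
    (@En.n l21716 (nat_lit 8470) (nat_lit 12) (nat_lit 13))
    (@En.n l12102 (nat_lit 8467) (nat_lit 13) (nat_lit 8))
    (@En.n l2038 (nat_lit 8269) (nat_lit 14) (nat_lit 10))
    (@En.n l4361 (nat_lit 9437) (nat_lit 13) (nat_lit 5))
    (@En.n l17 (nat_lit 8469) (nat_lit 15) (nat_lit 2))))
  (@Cl.mk (nat_lit 0x20005000a000d000a00060003000c0006000c00060004000b0004000e000a) (nat_lit 0x733004040060a5) (nat_lit 16) Lb.e (@T16.mk En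
    (@En.n l1738 (nat_lit 8419) (nat_lit 1) (nat_lit 10))
    (@En.n l3157 (nat_lit 8472) (nat_lit 1) (nat_lit 14))
    (@En.n l2722 (nat_lit 8475) (nat_lit 2) (nat_lit 4))
    (@En.n l1349 (nat_lit 6623) (nat_lit 3) (nat_lit 11))
    (@En.n l7 (nat_lit 8447) (nat_lit 4) (nat_lit 4))
    (@En.n l2722 (nat_lit 2469) (nat_lit 5) (nat_lit 6))
    (@En.i (nat_lit 8483) (nat_lit 7) (nat_lit 12))
    (@En.n l8197 (nat_lit 8469) (nat_lit 7) (nat_lit 6))
    (@En.n l6343 (nat_lit 8468) (nat_lit 9) (nat_lit 12))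
    (@En.n l11 (nat_lit 8443) (nat_lit 9) (nat_lit 3))
    (@En.n l9307 (nat_lit 8373) (nat_lit 0) (nat_lit 6))
    (@En.i (nat_lit 7649) (nat_lit 12) (nat_lit 10))
    (@En.n l1208 (nat_lit 8522) (nat_lit 13) (nat_lit 13))
    (@En.n l4600 (nat_lit 8268) (nat_lit 14) (nat_lit 10))
    (@En.i (nat_lit 9444) (nat_lit 13) (nat_lit 5))
    (@En.n l3 (nat_lit 8470) (nat_lit 15) (nat_lit 2))))
  (@Cl.mk (nat_lit 0x200080005000b0008000b0007000c00050008000500040008000b000e0009) (nat_lit 0x307440302004665) (nat_lit 16) Lb.e (@T16.mk En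
    (@En.n l2869 (nat_lit 8401) (nat_lit 12) (nat_lit 9))
    (@En.n l14609 (nat_lit 6453) (nat_lit 4) (nat_lit 14))
    (@En.n l14619 (nat_lit 9518) (nat_lit 2) (nat_lit 11))
    (@En.n l11512 (nat_lit 8398) (nat_lit 3) (nat_lit 8))
    (@En.n l28806 (nat_lit 8438) (nat_lit 4) (nat_lit 4))
    (@En.n l14609 (nat_lit 2620) (nat_lit 5) (nat_lit 5))
    (@En.n l9025 (nat_lit 7825) (nat_lit 6) (nat_lit 8))
    (@En.n l28807 (nat_lit 6930) (nat_lit 7) (nat_lit 5))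
    (@En.i (nat_lit 5678) (nat_lit 9) (nat_lit 12))
    (@En.n l28808 (nat_lit 8407) (nat_lit 10) (nat_lit 7))
    (@En.n l14609 (nat_lit 8989) (nat_lit 11) (nat_lit 11))
    (@En.n l28809 (nat_lit 2626) (nat_lit 12) (nat_lit 8))
    (@En.n l26379 (nat_lit 8474) (nat_lit 13) (nat_lit 11))
    (@En.n l14818 (nat_lit 8468) (nat_lit 14) (nat_lit 5))
    (@En.n l3337 (nat_lit 8431) (nat_lit 0) (nat_lit 8))
    (@En.n l17 (nat_lit 8471) (nat_lit 15) (nat_lit 2))))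
  (@Cl.mk (nat_lit 0x200070005000a000d000a00070003000c0006000900060004000b000e0009) (nat_lit 0x6440040300691) (nat_lit 16) Lb.e (@T16.mk En
    (@En.n l20985 (nat_lit 8400) (nat_lit 2) (nat_lit 9))
    (@En.i (nat_lit 6450) (nat_lit 4) (nat_lit 14))
    (@En.n l287 (nat_lit 6621) (nat_lit 2) (nat_lit 11))
    (@En.n l20986 (nat_lit 8449) (nat_lit 3) (nat_lit 4))
    (@En.n l5708 (nat_lit 2622) (nat_lit 4) (nat_lit 6))
    (@En.i (nat_lit 7833) (nat_lit 5) (nat_lit 9))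
    (@En.n l2155 (nat_lit 8398) (nat_lit 6) (nat_lit 6))
    (@En.n l5940 (nat_lit 8471) (nat_lit 8) (nat_lit 12))
    (@En.n l20987 (nat_lit 7681) (nat_lit 8) (nat_lit 3))
    (@En.i (nat_lit 8378) (nat_lit 0) (nat_lit 7))
    (@En.n l5704 (nat_lit 7650) (nat_lit 11) (nat_lit 10))
    (@En.n l20988 (nat_lit 8525) (nat_lit 12) (nat_lit 13))
    (@En.n l6156 (nat_lit 8475) (nat_lit 13) (nat_lit 10))
    (@En.n l2154 (nat_lit 8470) (nat_lit 14) (nat_lit 5))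
    (@En.n l20989 (nat_lit 8774) (nat_lit 5) (nat_lit 7))
    (@En.n l7 (nat_lit 8472) (nat_lit 15) (nat_lit 2))))
  (@Cl.mk (nat_lit 0x20007000a0007000d000a000700030006000c0009000600090004000e0009) (nat_lit 0x604400063030a4) (nat_lit 16) Lb.e (@T16.mk En
    (@En.n l8523 (nat_lit 8387) (nat_lit 8) (nat_lit 9))
    (@En.n l10347 (nat_lit 5029) (nat_lit 1) (nat_lit 14))
    (@En.n l10348 (nat_lit 8258) (nat_lit 2) (nat_lit 4))
    (@En.n l8523 (nat_lit 3487) (nat_lit 3) (nat_lit 9))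
    (@En.i (nat_lit 6791) (nat_lit 4) (nat_lit 6))
    (@En.n l10349 (nat_lit 8398) (nat_lit 5) (nat_lit 9))
    (@En.n l4519 (nat_lit 2627) (nat_lit 7) (nat_lit 12))
    (@En.i (nat_lit 6928) (nat_lit 7) (nat_lit 6))
    (@En.n l9780 (nat_lit 8440) (nat_lit 8) (nat_lit 3))
    (@En.n l1501 (nat_lit 8227) (nat_lit 0) (nat_lit 7))
    (@En.n l10350 (nat_lit 8474) (nat_lit 11) (nat_lit 10))
    (@En.n l180 (nat_lit 8475) (nat_lit 12) (nat_lit 13))
    (@En.n l619 (nat_lit 8479) (nat_lit 13) (nat_lit 7))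
    (@En.n l10350 (nat_lit 8929) (nat_lit 8) (nat_lit 10))
    (@En.n l10351 (nat_lit 8392) (nat_lit 5) (nat_lit 7))
    (@En.n l18 (nat_lit 8473) (nat_lit 15) (nat_lit 2))))
  (@Cl.mk (nat_lit 0x20008000b0007000a0006000b0005000b00080006000500090005000e000a) (nat_lit 0x360303023004075) (nat_lit 16) Lb.e (@T16.mk En
    (@En.n l22134 (nat_lit 8388) (nat_lit 12) (nat_lit 10))
    (@En.n l22135 (nat_lit 5031) (nat_lit 1) (nat_lit 14))
    (@En.n l22136 (nat_lit 9343) (nat_lit 2) (nat_lit 5))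
    (@En.n l22137 (nat_lit 8473) (nat_lit 3) (nat_lit 9))
    (@En.i (nat_lit 8440) (nat_lit 4) (nat_lit 5))
    (@En.n l22138 (nat_lit 6789) (nat_lit 5) (nat_lit 6))
    (@En.n l22139 (nat_lit 8471) (nat_lit 6) (nat_lit 8))
    (@En.n l22138 (nat_lit 2626) (nat_lit 8) (nat_lit 11))
    (@En.n l22140 (nat_lit 6927) (nat_lit 8) (nat_lit 5))
    (@En.n l22141 (nat_lit 12193) (nat_lit 10) (nat_lit 11))
    (@En.n l22142 (nat_lit 9068) (nat_lit 11) (nat_lit 6))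
    (@En.n l22143 (nat_lit 8988) (nat_lit 8) (nat_lit 10))
    (@En.n l22144 (nat_lit 9261) (nat_lit 13) (nat_lit 7))
    (@En.i (nat_lit 8930) (nat_lit 7) (nat_lit 11))
    (@En.n l601 (nat_lit 8394) (nat_lit 3) (nat_lit 8))
    (@En.n l3 (nat_lit 8474) (nat_lit 15) (nat_lit 2))))
  (@Cl.mk (nat_lit 0x20007000a000d000900060003000b0006000c0009000700050004000e000a) (nat_lit 0x532004034000a4) (nat_lit 16) Lb.e (@T16.mk En
    (@En.n l9777 (nat_lit 8386) (nat_lit 14) (nat_lit 10))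
    (@En.n l6233 (nat_lit 5028) (nat_lit 1) (nat_lit 14))
    (@En.n l9778 (nat_lit 8257) (nat_lit 2) (nat_lit 4))
    (@En.n l3681 (nat_lit 8448) (nat_lit 3) (nat_lit 5))
    (@En.n l1442 (nat_lit 6792) (nat_lit 4) (nat_lit 7))
    (@En.n l9779 (nat_lit 8472) (nat_lit 5) (nat_lit 9))
    (@En.n l3681 (nat_lit 8478) (nat_lit 7) (nat_lit 12))
    (@En.n l159 (nat_lit 8473) (nat_lit 7) (nat_lit 6))
    (@En.n l9780 (nat_lit 8474) (nat_lit 9) (nat_lit 11))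
    (@En.n l6206 (nat_lit 7680) (nat_lit 9) (nat_lit 3))
    (@En.n l2094 (nat_lit 8379) (nat_lit 0) (nat_lit 6))
    (@En.n l1678 (nat_lit 7651) (nat_lit 12) (nat_lit 9))
    (@En.n l3463 (nat_lit 7919) (nat_lit 13) (nat_lit 13))
    (@En.n l157 (nat_lit 8928) (nat_lit 8) (nat_lit 10))
    (@En.n l3681 (nat_lit 8395) (nat_lit 4) (nat_lit 7))
    (@En.n l18 (nat_lit 8475) (nat_lit 15) (nat_lit 2))))
  (@Cl.mk (nat_lit 0x2000b0007000a0005000b0005000b000b00060005000900050005000e000b) (nat_lit 0x707020540050086) (nat_lit 16) Lb.e (@T16.mk En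
    (@En.n l77 (nat_lit 8894) (nat_lit 4) (nat_lit 11))
    (@En.n l18894 (nat_lit 8474) (nat_lit 1) (nat_lit 14))
    (@En.n l18895 (nat_lit 8930) (nat_lit 11) (nat_lit 5))
    (@En.n l18896 (nat_lit 9345) (nat_lit 3) (nat_lit 5))
    (@En.n l18897 (nat_lit 8269) (nat_lit 4) (nat_lit 9))
    (@En.n l18898 (nat_lit 8866) (nat_lit 5) (nat_lit 5))
    (@En.n l97 (nat_lit 6486) (nat_lit 6) (nat_lit 6))
    (@En.n l18899 (nat_lit 8888) (nat_lit 8) (nat_lit 11))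
    (@En.n l18900 (nat_lit 8466) (nat_lit 9) (nat_lit 11))
    (@En.n l12857 (nat_lit 7137) (nat_lit 9) (nat_lit 5))
    (@En.n l16154 (nat_lit 5952) (nat_lit 11) (nat_lit 11))
    (@En.n l18901 (nat_lit 8570) (nat_lit 12) (nat_lit 5))
    (@En.n l18902 (nat_lit 8986) (nat_lit 8) (nat_lit 10))
    (@En.n l18903 (nat_lit 6765) (nat_lit 14) (nat_lit 7))
    (@En.n l18904 (nat_lit 7841) (nat_lit 2) (nat_lit 11))
    (@En.n l28 (nat_lit 8476) (nat_lit 15) (nat_lit 2))))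
  (@Cl.mk (nat_lit 0x20005000d000a00050003000c000c000b000600040004000b0005000e000b) (nat_lit 0x220032700070b6) (nat_lit 16) Lb.e (@T16.mk En
    (@En.n l77 (nat_lit 8350) (nat_lit 11) (nat_lit 11))
    (@En.i (nat_lit 8478) (nat_lit 1) (nat_lit 14))
    (@En.n l50 (nat_lit 2313) (nat_lit 2) (nat_lit 5))
    (@En.n l3786 (nat_lit 8470) (nat_lit 3) (nat_lit 11))
    (@En.n l3787 (nat_lit 8522) (nat_lit 4) (nat_lit 4))
    (@En.i (nat_lit 8338) (nat_lit 5) (nat_lit 4))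
    (@En.i (nat_lit 2338) (nat_lit 6) (nat_lit 6))
    (@En.n l2337 (nat_lit 8491) (nat_lit 8) (nat_lit 11))
    (@En.n l601 (nat_lit 8580) (nat_lit 9) (nat_lit 12))
    (@En.n l11655 (nat_lit 8466) (nat_lit 10) (nat_lit 12))
    (@En.n l11 (nat_lit 8527) (nat_lit 10) (nat_lit 3))
    (@En.n l3469 (nat_lit 8509) (nat_lit 0) (nat_lit 5))
    (@En.i (nat_lit 7643) (nat_lit 13) (nat_lit 10))
    (@En.n l3470 (nat_lit 2209) (nat_lit 14) (nat_lit 13))
    (@En.i (nat_lit 7691) (nat_lit 13) (nat_lit 5))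
    (@En.n l3 (nat_lit 8477) (nat_lit 15) (nat_lit 2))))
  (@Cl.mk (nat_lit 0x200080005000d000a00060003000c000c0008000600040004000b000e000a) (nat_lit 0x6035001230007a5) (nat_lit 16) Lb.e (@T16.mk En
    (@En.n l19032 (nat_lit 8577) (nat_lit 12) (nat_lit 10))
    (@En.n l2073 (nat_lit 10103) (nat_lit 4) (nat_lit 14))
    (@En.n l19033 (nat_lit 8472) (nat_lit 2) (nat_lit 11))
    (@En.n l3787 (nat_lit 8525) (nat_lit 3) (nat_lit 4))
    (@En.i (nat_lit 8334) (nat_lit 4) (nat_lit 4))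
    (@En.n l2073 (nat_lit 2336) (nat_lit 5) (nat_lit 6))
    (@En.n l77 (nat_lit 7834) (nat_lit 6) (nat_lit 8))
    (@En.n l8090 (nat_lit 8582) (nat_lit 8) (nat_lit 12))
    (@En.n l19034 (nat_lit 2626) (nat_lit 9) (nat_lit 12))
    (@En.n l11 (nat_lit 8526) (nat_lit 9) (nat_lit 3))
    (@En.n l3621 (nat_lit 8508) (nat_lit 0) (nat_lit 6))
    (@En.i (nat_lit 7645) (nat_lit 12) (nat_lit 10))
    (@En.n l19035 (nat_lit 7763) (nat_lit 13) (nat_lit 13))
    (@En.n l17 (nat_lit 8477) (nat_lit 14) (nat_lit 5))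
    (@En.i (nat_lit 8576) (nat_lit 4) (nat_lit 8))
    (@En.n l3 (nat_lit 8478) (nat_lit 15) (nat_lit 2))))
  (@Cl.mk (nat_lit 0x200080007000d000a00060003000b000b00080006000900050005000e000a) (nat_lit 0x6036000630400b5) (nat_lit 16) Lb.e (@T16.mk En
    (@En.i (nat_lit 9255) (nat_lit 7) (nat_lit 10))
    (@En.n l2724 (nat_lit 6461) (nat_lit 1) (nat_lit 14))
    (@En.n l8531 (nat_lit 9256) (nat_lit 2) (nat_lit 5))
    (@En.i (nat_lit 8475) (nat_lit 3) (nat_lit 5))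
    (@En.i (nat_lit 2563) (nat_lit 9) (nat_lit 9))
    (@En.n l1442 (nat_lit 6783) (nat_lit 5) (nat_lit 6))
    (@En.n l4602 (nat_lit 2627) (nat_lit 6) (nat_lit 8))
    (@En.n l8532 (nat_lit 9293) (nat_lit 8) (nat_lit 11))
    (@En.n l8533 (nat_lit 9830) (nat_lit 9) (nat_lit 11))
    (@En.n l3460 (nat_lit 8442) (nat_lit 9) (nat_lit 3))
    (@En.i (nat_lit 8219) (nat_lit 0) (nat_lit 6))
    (@En.n l8534 (nat_lit 9261) (nat_lit 12) (nat_lit 10))
    (@En.n l906 (nat_lit 2313) (nat_lit 13) (nat_lit 13))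
    (@En.n l8535 (nat_lit 6349) (nat_lit 14) (nat_lit 7))
    (@En.n l8536 (nat_lit 8822) (nat_lit 4) (nat_lit 8))
    (@En.n l18 (nat_lit 8479) (nat_lit 15) (nat_lit 2))))
noncomputable def a530 : T16 Cl := @T16.mk Cl
  (@Cl.mk (nat_lit 0x40008000c000b000700070004000c00050008000b0004000c000900090005) (nat_lit 0x656000801601530) (nat_lit 16) Lb.e (@T16.mk En
    (@En.n l32772 (nat_lit 10303) (nat_lit 0) (nat_lit 5))
    (@En.n l35052 (nat_lit 8237) (nat_lit 7) (nat_lit 9))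
    (@En.n l35053 (nat_lit 9876) (nat_lit 14) (nat_lit 9))
    (@En.n l33143 (nat_lit 2799) (nat_lit 2) (nat_lit 12))
    (@En.n l9875 (nat_lit 8399) (nat_lit 4) (nat_lit 4))
    (@En.n l2299 (nat_lit 9117) (nat_lit 7) (nat_lit 11))
    (@En.n l35054 (nat_lit 2752) (nat_lit 10) (nat_lit 8))
    (@En.n l35055 (nat_lit 7744) (nat_lit 7) (nat_lit 5))
    (@En.i (nat_lit 8405) (nat_lit 0) (nat_lit 12))
    (@En.n l2299 (nat_lit 10089) (nat_lit 1) (nat_lit 4))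
    (@En.n l35056 (nat_lit 8449) (nat_lit 9) (nat_lit 7))
    (@En.n l35053 (nat_lit 9818) (nat_lit 1) (nat_lit 7))
    (@En.n l35057 (nat_lit 8366) (nat_lit 5) (nat_lit 11))
    (@En.n l35058 (nat_lit 8481) (nat_lit 7) (nat_lit 12))
    (@En.n l35059 (nat_lit 8365) (nat_lit 11) (nat_lit 8))
    (@En.n l35058 (nat_lit 8364) (nat_lit 12) (nat_lit 4))))
  (@Cl.mk (nat_lit 0x3000b0004000c000a000a00050004000c000a000600060004000d000c0006) (nat_lit 0x701640045000310) (nat_lit 16) Lb.e (@T16.mk En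
    (@En.n l137 (nat_lit 6041) (nat_lit 0) (nat_lit 6))
    (@En.n l644 (nat_lit 8331) (nat_lit 4) (nat_lit 12))
    (@En.n l36382 (nat_lit 8366) (nat_lit 2) (nat_lit 13))
    (@En.n l22921 (nat_lit 10286) (nat_lit 3) (nat_lit 4))
    (@En.n l9272 (nat_lit 8483) (nat_lit 10) (nat_lit 6))
    (@En.n l3647 (nat_lit 8698) (nat_lit 5) (nat_lit 6))
    (@En.n l22922 (nat_lit 8670) (nat_lit 6) (nat_lit 10))
    (@En.n l36383 (nat_lit 7905) (nat_lit 8) (nat_lit 12))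
    (@En.i (nat_lit 8487) (nat_lit 12) (nat_lit 4))
    (@En.n l61 (nat_lit 9198) (nat_lit 9) (nat_lit 5))
    (@En.n l9279 (nat_lit 8239) (nat_lit 6) (nat_lit 10))
    (@En.n l3518 (nat_lit 10144) (nat_lit 12) (nat_lit 10))
    (@En.n l18 (nat_lit 2800) (nat_lit 13) (nat_lit 12))
    (@En.n l36384 (nat_lit 8577) (nat_lit 14) (nat_lit 4))
    (@En.i (nat_lit 9127) (nat_lit 0) (nat_lit 11))
    (@En.n l7 (nat_lit 8482) (nat_lit 15) (nat_lit 3))))
  (@Cl.mk (nat_lit 0x3000b0003000c000a000a00050004000c000b000600060004000d0005000d) (nat_lit 0x702540045000408) (nat_lit 16) Lb.e (@T16.mk En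
    (@En.n l3647 (nat_lit 7362) (nat_lit 0) (nat_lit 13))
    (@En.n l30099 (nat_lit 9011) (nat_lit 3) (nat_lit 5))
    (@En.n l134 (nat_lit 8367) (nat_lit 2) (nat_lit 13))
    (@En.n l22921 (nat_lit 10287) (nat_lit 3) (nat_lit 4))
    (@En.n l9272 (nat_lit 8484) (nat_lit 10) (nat_lit 6))
    (@En.n l3647 (nat_lit 8703) (nat_lit 5) (nat_lit 6))
    (@En.n l22922 (nat_lit 8598) (nat_lit 9) (nat_lit 11))
    (@En.n l30101 (nat_lit 8622) (nat_lit 10) (nat_lit 12))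
    (@En.i (nat_lit 8488) (nat_lit 12) (nat_lit 4))
    (@En.n l61 (nat_lit 9197) (nat_lit 9) (nat_lit 5))
    (@En.n l9279 (nat_lit 8240) (nat_lit 6) (nat_lit 10))
    (@En.n l3518 (nat_lit 10143) (nat_lit 14) (nat_lit 10))
    (@En.n l18 (nat_lit 2801) (nat_lit 13) (nat_lit 12))
    (@En.i (nat_lit 8331) (nat_lit 15) (nat_lit 3))
    (@En.i (nat_lit 11568) (nat_lit 0) (nat_lit 11))
    (@En.i (nat_lit 8481) (nat_lit 15) (nat_lit 3))))
  (@Cl.mk (nat_lit 0x200060005000d000b00060003000d000c00050003000a0004000b000e000a) (nat_lit 0x34002300508a7) (nat_lit 16) Lb.e (@T16.mk En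
    (@En.n l17 (nat_lit 8481) (nat_lit 11) (nat_lit 10))
    (@En.n l3621 (nat_lit 12396) (nat_lit 4) (nat_lit 14))
    (@En.i (nat_lit 2806) (nat_lit 2) (nat_lit 11))
    (@En.n l7 (nat_lit 8478) (nat_lit 3) (nat_lit 4))
    (@En.i (nat_lit 11532) (nat_lit 4) (nat_lit 10))
    (@En.n l7 (nat_lit 8484) (nat_lit 5) (nat_lit 3))
    (@En.n l11 (nat_lit 7738) (nat_lit 6) (nat_lit 5))
    (@En.n l644 (nat_lit 8334) (nat_lit 8) (nat_lit 12))
    (@En.n l780 (nat_lit 8450) (nat_lit 9) (nat_lit 13))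
    (@En.n l11 (nat_lit 8528) (nat_lit 9) (nat_lit 3))
    (@En.i (nat_lit 8690) (nat_lit 0) (nat_lit 6))
    (@En.i (nat_lit 8664) (nat_lit 12) (nat_lit 11))
    (@En.i (nat_lit 8625) (nat_lit 13) (nat_lit 13))
    (@En.n l17 (nat_lit 8485) (nat_lit 14) (nat_lit 5))
    (@En.i (nat_lit 9094) (nat_lit 8) (nat_lit 6))
    (@En.n l3 (nat_lit 8483) (nat_lit 15) (nat_lit 2))))
  (@Cl.mk (nat_lit 0x200060005000d000c00060003000d0004000d0003000a0003000b000e000a) (nat_lit 0x34003020501a6) (nat_lit 16) Lb.e (@T16.mk En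
    (@En.n l17 (nat_lit 8482) (nat_lit 11) (nat_lit 10))
    (@En.i (nat_lit 12395) (nat_lit 4) (nat_lit 14))
    (@En.i (nat_lit 2794) (nat_lit 2) (nat_lit 11))
    (@En.i (nat_lit 8334) (nat_lit 3) (nat_lit 3))
    (@En.i (nat_lit 12382) (nat_lit 4) (nat_lit 10))
    (@En.i (nat_lit 8483) (nat_lit 5) (nat_lit 3))
    (@En.i (nat_lit 4013) (nat_lit 7) (nat_lit 13))
    (@En.n l11 (nat_lit 8083) (nat_lit 7) (nat_lit 4))
    (@En.n l780 (nat_lit 8444) (nat_lit 9) (nat_lit 13))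
    (@En.n l11 (nat_lit 8597) (nat_lit 9) (nat_lit 3))
    (@En.i (nat_lit 8685) (nat_lit 0) (nat_lit 6))
    (@En.n l55 (nat_lit 8596) (nat_lit 12) (nat_lit 12))
    (@En.i (nat_lit 8624) (nat_lit 13) (nat_lit 13))
    (@En.n l17 (nat_lit 8486) (nat_lit 14) (nat_lit 5))
    (@En.i (nat_lit 9095) (nat_lit 8) (nat_lit 6))
    (@En.n l3 (nat_lit 8484) (nat_lit 15) (nat_lit 2))))
  (@Cl.mk (nat_lit 0x20005000d000b00050003000d000c00050003000d0004000b0003000e000b) (nat_lit 0x2400b3008080b8) (nat_lit 16) Lb.e (@T16.mk En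
    (@En.i (nat_lit 8487) (nat_lit 14) (nat_lit 11))
    (@En.i (nat_lit 8483) (nat_lit 1) (nat_lit 14))
    (@En.i (nat_lit 8491) (nat_lit 2) (nat_lit 3))
    (@En.i (nat_lit 3361) (nat_lit 3) (nat_lit 11))
    (@En.n l7 (nat_lit 8477) (nat_lit 4) (nat_lit 4))
    (@En.n l564 (nat_lit 8624) (nat_lit 6) (nat_lit 13))
    (@En.n l7 (nat_lit 8486) (nat_lit 6) (nat_lit 3))
    (@En.n l11 (nat_lit 7412) (nat_lit 7) (nat_lit 5))
    (@En.n l644 (nat_lit 8338) (nat_lit 9) (nat_lit 12))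
    (@En.n l287 (nat_lit 8452) (nat_lit 10) (nat_lit 13))
    (@En.n l11 (nat_lit 8529) (nat_lit 10) (nat_lit 3))
    (@En.i (nat_lit 8686) (nat_lit 0) (nat_lit 5))
    (@En.i (nat_lit 8665) (nat_lit 13) (nat_lit 11))
    (@En.i (nat_lit 4398) (nat_lit 14) (nat_lit 13))
    (@En.i (nat_lit 8306) (nat_lit 13) (nat_lit 5))
    (@En.n l3 (nat_lit 8485) (nat_lit 15) (nat_lit 2))))
  (@Cl.mk (nat_lit 0x20005000d000c00050003000d0004000d0003000d0003000b0003000e000b) (nat_lit 0x2400a0108020b5) (nat_lit 16) Lb.e (@T16.mk En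
    (@En.i (nat_lit 8488) (nat_lit 14) (nat_lit 11))
    (@En.i (nat_lit 8484) (nat_lit 1) (nat_lit 14))
    (@En.i (nat_lit 8490) (nat_lit 2) (nat_lit 3))
    (@En.i (nat_lit 3359) (nat_lit 3) (nat_lit 11))
    (@En.i (nat_lit 8338) (nat_lit 4) (nat_lit 3))
    (@En.i (nat_lit 6979) (nat_lit 6) (nat_lit 13))
    (@En.i (nat_lit 8485) (nat_lit 6) (nat_lit 3))
    (@En.i (nat_lit 4003) (nat_lit 8) (nat_lit 13))
    (@En.n l11 (nat_lit 8082) (nat_lit 8) (nat_lit 4))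
    (@En.n l287 (nat_lit 8446) (nat_lit 10) (nat_lit 13))
    (@En.n l11 (nat_lit 8311) (nat_lit 10) (nat_lit 3))
    (@En.i (nat_lit 8683) (nat_lit 0) (nat_lit 5))
    (@En.n l55 (nat_lit 8592) (nat_lit 13) (nat_lit 12))
    (@En.i (nat_lit 4397) (nat_lit 14) (nat_lit 13))
    (@En.i (nat_lit 8301) (nat_lit 13) (nat_lit 5))
    (@En.n l3 (nat_lit 8486) (nat_lit 15) (nat_lit 2))))
  (@Cl.mk (nat_lit 0x3000b000b0004000c000a000500050004000d000c00060003000d0004000c) (nat_lit 0x710320003400901) (nat_lit 16) Lb.e (@T16.mk En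
    (@En.i (nat_lit 2552) (nat_lit 0) (nat_lit 12))
    (@En.i (nat_lit 8350) (nat_lit 14) (nat_lit 4))
    (@En.n l11547 (nat_lit 8622) (nat_lit 2) (nat_lit 13))
    (@En.n l7 (nat_lit 8488) (nat_lit 3) (nat_lit 3))
    (@En.i (nat_lit 6037) (nat_lit 0) (nat_lit 6))
    (@En.n l644 (nat_lit 8493) (nat_lit 4) (nat_lit 12))
    (@En.n l22712 (nat_lit 8360) (nat_lit 2) (nat_lit 13))
    (@En.n l3535 (nat_lit 9095) (nat_lit 7) (nat_lit 4))
    (@En.n l152 (nat_lit 8485) (nat_lit 11) (nat_lit 5))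
    (@En.n l936 (nat_lit 8696) (nat_lit 9) (nat_lit 5))
    (@En.n l870 (nat_lit 8667) (nat_lit 11) (nat_lit 10))
    (@En.n l617 (nat_lit 4393) (nat_lit 12) (nat_lit 12))
    (@En.i (nat_lit 9176) (nat_lit 8) (nat_lit 4))
    (@En.n l3536 (nat_lit 8342) (nat_lit 5) (nat_lit 11))
    (@En.n l11547 (nat_lit 10134) (nat_lit 11) (nat_lit 11))
    (@En.i (nat_lit 8489) (nat_lit 15) (nat_lit 3))))
  (@Cl.mk (nat_lit 0x3000b000b0004000c000b000500050004000d0005000d0003000d0003000c) (nat_lit 0x4108400040a0903) (nat_lit 16) Lb.e (@T16.mk En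
    (@En.i (nat_lit 2780) (nat_lit 0) (nat_lit 12))
    (@En.i (nat_lit 8493) (nat_lit 15) (nat_lit 3))
    (@En.i (nat_lit 7250) (nat_lit 0) (nat_lit 13))
    (@En.i (nat_lit 8487) (nat_lit 3) (nat_lit 3))
    (@En.i (nat_lit 7365) (nat_lit 0) (nat_lit 13))
    (@En.n l9966 (nat_lit 9009) (nat_lit 5) (nat_lit 5))
    (@En.n l134 (nat_lit 8362) (nat_lit 2) (nat_lit 13))
    (@En.n l3535 (nat_lit 8600) (nat_lit 7) (nat_lit 4))
    (@En.n l152 (nat_lit 8486) (nat_lit 11) (nat_lit 5))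
    (@En.n l936 (nat_lit 8700) (nat_lit 7) (nat_lit 5))
    (@En.n l870 (nat_lit 8309) (nat_lit 9) (nat_lit 11))
    (@En.n l617 (nat_lit 4395) (nat_lit 10) (nat_lit 12))
    (@En.i (nat_lit 9178) (nat_lit 8) (nat_lit 4))
    (@En.n l3536 (nat_lit 7454) (nat_lit 5) (nat_lit 11))
    (@En.i (nat_lit 10135) (nat_lit 11) (nat_lit 11))
    (@En.i (nat_lit 8492) (nat_lit 15) (nat_lit 3))))
  (@Cl.mk (nat_lit 0x3000b000b0005000c000a000500050004000d000b00060003000d000b0005) (nat_lit 0x730320003700a80) (nat_lit 16) Lb.e (@T16.mk En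
    (@En.n l15267 (nat_lit 7247) (nat_lit 0) (nat_lit 5))
    (@En.i (nat_lit 8481) (nat_lit 14) (nat_lit 11))
    (@En.n l11547 (nat_lit 8623) (nat_lit 2) (nat_lit 13))
    (@En.n l7 (nat_lit 8492) (nat_lit 3) (nat_lit 3))
    (@En.n l137 (nat_lit 6038) (nat_lit 0) (nat_lit 6))
    (@En.n l644 (nat_lit 8320) (nat_lit 5) (nat_lit 11))
    (@En.n l11579 (nat_lit 8361) (nat_lit 2) (nat_lit 13))
    (@En.n l3535 (nat_lit 9094) (nat_lit 7) (nat_lit 4))
    (@En.n l152 (nat_lit 8491) (nat_lit 11) (nat_lit 5))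
    (@En.n l936 (nat_lit 8697) (nat_lit 9) (nat_lit 5))
    (@En.n l870 (nat_lit 8672) (nat_lit 11) (nat_lit 10))
    (@En.n l2353 (nat_lit 4392) (nat_lit 12) (nat_lit 12))
    (@En.i (nat_lit 9179) (nat_lit 8) (nat_lit 5))
    (@En.n l3536 (nat_lit 8344) (nat_lit 5) (nat_lit 11))
    (@En.n l17351 (nat_lit 11812) (nat_lit 11) (nat_lit 11))
    (@En.n l18 (nat_lit 8487) (nat_lit 15) (nat_lit 3))))
  (@Cl.mk (nat_lit 0x20006000d000c00050003000d0004000c0003000d000a00040003000e000b) (nat_lit 0x250030209600b7) (nat_lit 16) Lb.e (@T16.mk En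
    (@En.i (nat_lit 8492) (nat_lit 14) (nat_lit 11))
    (@En.i (nat_lit 12397) (nat_lit 1) (nat_lit 14))
    (@En.n l18 (nat_lit 8486) (nat_lit 2) (nat_lit 3))
    (@En.i (nat_lit 7342) (nat_lit 3) (nat_lit 4))
    (@En.n l61 (nat_lit 8484) (nat_lit 4) (nat_lit 10))
    (@En.i (nat_lit 6974) (nat_lit 6) (nat_lit 13))
    (@En.i (nat_lit 8491) (nat_lit 6) (nat_lit 3))
    (@En.i (nat_lit 8844) (nat_lit 8) (nat_lit 12))
    (@En.n l11 (nat_lit 8084) (nat_lit 8) (nat_lit 4))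
    (@En.n l287 (nat_lit 8445) (nat_lit 10) (nat_lit 13))
    (@En.n l11 (nat_lit 8594) (nat_lit 10) (nat_lit 3))
    (@En.i (nat_lit 8684) (nat_lit 0) (nat_lit 5))
    (@En.n l55 (nat_lit 8593) (nat_lit 13) (nat_lit 12))
    (@En.i (nat_lit 4400) (nat_lit 14) (nat_lit 13))
    (@En.i (nat_lit 9754) (nat_lit 13) (nat_lit 6))
    (@En.n l3 (nat_lit 8490) (nat_lit 15) (nat_lit 2))))
  (@Cl.mk (nat_lit 0x20006000d000b00050003000d000b00050003000d000a00050003000e000b) (nat_lit 0x240026008600b8) (nat_lit 16) Lb.e (@T16.mk En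
    (@En.i (nat_lit 8489) (nat_lit 14) (nat_lit 11))
    (@En.i (nat_lit 5312) (nat_lit 1) (nat_lit 14))
    (@En.n l18 (nat_lit 8485) (nat_lit 2) (nat_lit 3))
    (@En.n l7 (nat_lit 7344) (nat_lit 3) (nat_lit 5))
    (@En.n l61 (nat_lit 8483) (nat_lit 4) (nat_lit 10))
    (@En.n l564 (nat_lit 8626) (nat_lit 6) (nat_lit 13))
    (@En.n l7 (nat_lit 8490) (nat_lit 6) (nat_lit 3))
    (@En.n l137 (nat_lit 7411) (nat_lit 7) (nat_lit 5))
    (@En.i (nat_lit 7345) (nat_lit 9) (nat_lit 11))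
    (@En.n l287 (nat_lit 8451) (nat_lit 10) (nat_lit 13))
    (@En.n l11 (nat_lit 8530) (nat_lit 10) (nat_lit 3))
    (@En.i (nat_lit 7943) (nat_lit 0) (nat_lit 5))
    (@En.i (nat_lit 8666) (nat_lit 13) (nat_lit 11))
    (@En.i (nat_lit 4401) (nat_lit 14) (nat_lit 13))
    (@En.i (nat_lit 9401) (nat_lit 13) (nat_lit 6))
    (@En.n l3 (nat_lit 8491) (nat_lit 15) (nat_lit 2))))
  (@Cl.mk (nat_lit 0x3000b000b0005000c000b000500050004000d0005000c0003000d000b0004) (nat_lit 0x630340004070a80) (nat_lit 16) Lb.e (@T16.mk En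
    (@En.n l2938 (nat_lit 7343) (nat_lit 0) (nat_lit 4))
    (@En.i (nat_lit 8482) (nat_lit 14) (nat_lit 11))
    (@En.n l6042 (nat_lit 7249) (nat_lit 1) (nat_lit 13))
    (@En.i (nat_lit 8489) (nat_lit 3) (nat_lit 3))
    (@En.n l2938 (nat_lit 7368) (nat_lit 0) (nat_lit 12))
    (@En.n l9966 (nat_lit 8981) (nat_lit 5) (nat_lit 5))
    (@En.n l134 (nat_lit 8363) (nat_lit 2) (nat_lit 13))
    (@En.n l3535 (nat_lit 9085) (nat_lit 7) (nat_lit 4))
    (@En.n l152 (nat_lit 8490) (nat_lit 11) (nat_lit 5))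
    (@En.n l936 (nat_lit 8699) (nat_lit 9) (nat_lit 5))
    (@En.n l870 (nat_lit 8595) (nat_lit 5) (nat_lit 11))
    (@En.n l617 (nat_lit 4396) (nat_lit 12) (nat_lit 12))
    (@En.i (nat_lit 9175) (nat_lit 8) (nat_lit 5))
    (@En.n l3536 (nat_lit 8343) (nat_lit 5) (nat_lit 11))
    (@En.n l3518 (nat_lit 11813) (nat_lit 11) (nat_lit 11))
    (@En.n l18 (nat_lit 8488) (nat_lit 15) (nat_lit 3))))
  (@Cl.mk (nat_lit 0x3000c0004000b000b0004000c000b000500050004000c0005000d000c0004) (nat_lit 0x306109400030b80) (nat_lit 16) Lb.e (@T16.mk En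
    (@En.i (nat_lit 8585) (nat_lit 0) (nat_lit 4))
    (@En.n l217 (nat_lit 8492) (nat_lit 4) (nat_lit 12))
    (@En.n l4172 (nat_lit 7366) (nat_lit 1) (nat_lit 13))
    (@En.n l9966 (nat_lit 9010) (nat_lit 3) (nat_lit 5))
    (@En.n l134 (nat_lit 8417) (nat_lit 10) (nat_lit 12))
    (@En.n l3535 (nat_lit 8601) (nat_lit 5) (nat_lit 4))
    (@En.n l152 (nat_lit 8338) (nat_lit 11) (nat_lit 5))
    (@En.n l936 (nat_lit 8702) (nat_lit 7) (nat_lit 5))
    (@En.n l870 (nat_lit 8339) (nat_lit 9) (nat_lit 11))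
    (@En.n l617 (nat_lit 4394) (nat_lit 10) (nat_lit 12))
    (@En.i (nat_lit 9177) (nat_lit 10) (nat_lit 4))
    (@En.n l3536 (nat_lit 8341) (nat_lit 5) (nat_lit 11))
    (@En.i (nat_lit 10136) (nat_lit 1) (nat_lit 11))
    (@En.i (nat_lit 8320) (nat_lit 14) (nat_lit 4))
    (@En.n l612 (nat_lit 8364) (nat_lit 0) (nat_lit 12))
    (@En.n l50 (nat_lit 8488) (nat_lit 1) (nat_lit 3))))
  (@Cl.mk (nat_lit 0x3000c000a000a000900040007000b00060006000c00070005000d00040009) (nat_lit 0x781400500800302) (nat_lit 16) Lb.e (@T16.mk En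
    (@En.n l50 (nat_lit 6696) (nat_lit 0) (nat_lit 9))
    (@En.i (nat_lit 8425) (nat_lit 6) (nat_lit 4))
    (@En.n l5 (nat_lit 8499) (nat_lit 0) (nat_lit 13))
    (@En.n l29814 (nat_lit 2614) (nat_lit 1) (nat_lit 5))
    (@En.i (nat_lit 983) (nat_lit 4) (nat_lit 7))
    (@En.i (nat_lit 9674) (nat_lit 11) (nat_lit 12))
    (@En.n l29816 (nat_lit 2623) (nat_lit 10) (nat_lit 6))
    (@En.n l612 (nat_lit 6844) (nat_lit 7) (nat_lit 6))
    (@En.i (nat_lit 6334) (nat_lit 8) (nat_lit 11))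
    (@En.i (nat_lit 6861) (nat_lit 11) (nat_lit 7))
    (@En.n l936 (nat_lit 8146) (nat_lit 10) (nat_lit 4))
    (@En.n l55 (nat_lit 8459) (nat_lit 0) (nat_lit 9))
    (@En.n l8009 (nat_lit 6432) (nat_lit 6) (nat_lit 10))
    (@En.n l830 (nat_lit 10058) (nat_lit 14) (nat_lit 10))
    (@En.i (nat_lit 8496) (nat_lit 3) (nat_lit 12))
    (@En.n l1959 (nat_lit 8495) (nat_lit 15) (nat_lit 3))))
  (@Cl.mk (nat_lit 0x3000c000a000a000900040008000b00060006000b00070005000d00080005) (nat_lit 0x781605500500300) (nat_lit 16) Lb.e (@T16.mk En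
    (@En.i (nat_lit 8994) (nat_lit 0) (nat_lit 5))
    (@En.n l28347 (nat_lit 8496) (nat_lit 6) (nat_lit 8))
    (@En.n l2149 (nat_lit 8497) (nat_lit 2) (nat_lit 13))
    (@En.n l28348 (nat_lit 2444) (nat_lit 3) (nat_lit 5))
    (@En.n l13316 (nat_lit 984) (nat_lit 4) (nat_lit 7))
    (@En.n l28349 (nat_lit 9672) (nat_lit 11) (nat_lit 11))
    (@En.n l12589 (nat_lit 2625) (nat_lit 10) (nat_lit 6))
    (@En.n l13752 (nat_lit 6846) (nat_lit 7) (nat_lit 6))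
    (@En.i (nat_lit 6335) (nat_lit 7) (nat_lit 11))
    (@En.n l27134 (nat_lit 7955) (nat_lit 11) (nat_lit 8))
    (@En.n l28350 (nat_lit 8147) (nat_lit 10) (nat_lit 4))
    (@En.n l13321 (nat_lit 8460) (nat_lit 7) (nat_lit 9))
    (@En.n l28351 (nat_lit 6433) (nat_lit 6) (nat_lit 10))
    (@En.n l28352 (nat_lit 10052) (nat_lit 14) (nat_lit 10))
    (@En.n l644 (nat_lit 5352) (nat_lit 3) (nat_lit 12))
    (@En.n l1063 (nat_lit 8494) (nat_lit 15) (nat_lit 3))))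
noncomputable def a531 : T16 Cl := @T16.mk Cl
  (@Cl.mk (nat_lit 0x400080007000b00070007000c00080005000800040009000c000900090008) (nat_lit 0x606004106026715) (nat_lit 16) Lb.e (@T16.mk En
    (@En.n l55 (nat_lit 8461) (nat_lit 8) (nat_lit 8))
    (@En.n l41275 (nat_lit 6435) (nat_lit 7) (nat_lit 9))
    (@En.n l30060 (nat_lit 10059) (nat_lit 13) (nat_lit 9))
    (@En.n l41276 (nat_lit 5356) (nat_lit 6) (nat_lit 12))
    (@En.n l50 (nat_lit 6611) (nat_lit 4) (nat_lit 9))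
    (@En.n l37631 (nat_lit 8401) (nat_lit 15) (nat_lit 4))
    (@En.n l30060 (nat_lit 9933) (nat_lit 10) (nat_lit 8))
    (@En.n l29814 (nat_lit 2445) (nat_lit 1) (nat_lit 5))
    (@En.n l23132 (nat_lit 980) (nat_lit 0) (nat_lit 8))
    (@En.n l37544 (nat_lit 9673) (nat_lit 1) (nat_lit 12))
    (@En.n l29816 (nat_lit 2624) (nat_lit 9) (nat_lit 7))
    (@En.n l612 (nat_lit 6843) (nat_lit 5) (nat_lit 7))
    (@En.n l2114 (nat_lit 8495) (nat_lit 8) (nat_lit 11))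
    (@En.n l17 (nat_lit 8494) (nat_lit 9) (nat_lit 7))
    (@En.i (nat_lit 7959) (nat_lit 11) (nat_lit 8))
    (@En.n l936 (nat_lit 8145) (nat_lit 15) (nat_lit 4))))
  (@Cl.mk (nat_lit 0x30009000c000a000a000900040009000700060006000c0007000d00070004) (nat_lit 0x367700600090200) (nat_lit 16) Lb.e (@T16.mk En
    (@En.n l31922 (nat_lit 8517) (nat_lit 0) (nat_lit 4))
    (@En.i (nat_lit 11322) (nat_lit 0) (nat_lit 7))
    (@En.n l8682 (nat_lit 4606) (nat_lit 1) (nat_lit 13))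
    (@En.i (nat_lit 7521) (nat_lit 3) (nat_lit 7))
    (@En.n l18354 (nat_lit 9726) (nat_lit 5) (nat_lit 12))
    (@En.n l11 (nat_lit 8717) (nat_lit 10) (nat_lit 6))
    (@En.i (nat_lit 10136) (nat_lit 10) (nat_lit 6))
    (@En.n l17 (nat_lit 8498) (nat_lit 7) (nat_lit 7))
    (@En.i (nat_lit 8754) (nat_lit 9) (nat_lit 9))
    (@En.n l936 (nat_lit 8148) (nat_lit 9) (nat_lit 4))
    (@En.n l55 (nat_lit 10171) (nat_lit 0) (nat_lit 9))
    (@En.n l619 (nat_lit 8682) (nat_lit 6) (nat_lit 10))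
    (@En.n l10040 (nat_lit 9966) (nat_lit 13) (nat_lit 10))
    (@En.n l8765 (nat_lit 12319) (nat_lit 6) (nat_lit 12))
    (@En.i (nat_lit 8496) (nat_lit 4) (nat_lit 9))
    (@En.n l50 (nat_lit 8499) (nat_lit 13) (nat_lit 3))))
  (@Cl.mk (nat_lit 0x300090004000c000b000b000a0004000700050005000c0006000d000c0004) (nat_lit 0x307882000090100) (nat_lit 16) Lb.e (@T16.mk En
    (@En.i (nat_lit 8516) (nat_lit 0) (nat_lit 4))
    (@En.n l217 (nat_lit 8503) (nat_lit 4) (nat_lit 12))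
    (@En.i (nat_lit 4603) (nat_lit 1) (nat_lit 13))
    (@En.i (nat_lit 7499) (nat_lit 3) (nat_lit 6))
    (@En.i (nat_lit 9714) (nat_lit 12) (nat_lit 12))
    (@En.n l11 (nat_lit 8714) (nat_lit 11) (nat_lit 5))
    (@En.i (nat_lit 8493) (nat_lit 6) (nat_lit 5))
    (@En.i (nat_lit 4622) (nat_lit 11) (nat_lit 7))
    (@En.n l936 (nat_lit 8149) (nat_lit 8) (nat_lit 4))
    (@En.n l55 (nat_lit 10165) (nat_lit 0) (nat_lit 10))
    (@En.n l619 (nat_lit 8680) (nat_lit 5) (nat_lit 11))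
    (@En.n l3866 (nat_lit 9759) (nat_lit 5) (nat_lit 11))
    (@En.i (nat_lit 8497) (nat_lit 13) (nat_lit 12))
    (@En.n l50 (nat_lit 8505) (nat_lit 14) (nat_lit 4))
    (@En.i (nat_lit 8494) (nat_lit 0) (nat_lit 9))
    (@En.n l50 (nat_lit 8500) (nat_lit 15) (nat_lit 3))))
  (@Cl.mk (nat_lit 0x3000800030009000c000a000a000900040008000700060006000d0007000d) (nat_lit 0x2677200000602) (nat_lit 16) Lb.e (@T16.mk En
    (@En.i (nat_lit 4608) (nat_lit 0) (nat_lit 13))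
    (@En.i (nat_lit 7493) (nat_lit 3) (nat_lit 7))
    (@En.n l134 (nat_lit 6850) (nat_lit 2) (nat_lit 13))
    (@En.n l11 (nat_lit 10974) (nat_lit 10) (nat_lit 6))
    (@En.i (nat_lit 10135) (nat_lit 4) (nat_lit 6))
    (@En.n l17 (nat_lit 8500) (nat_lit 7) (nat_lit 7))
    (@En.i (nat_lit 8756) (nat_lit 6) (nat_lit 8))
    (@En.n l936 (nat_lit 8150) (nat_lit 7) (nat_lit 4))
    (@En.n l55 (nat_lit 10169) (nat_lit 0) (nat_lit 9))
    (@En.n l619 (nat_lit 8685) (nat_lit 6) (nat_lit 10))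
    (@En.n l10040 (nat_lit 9965) (nat_lit 11) (nat_lit 10))
    (@En.i (nat_lit 12315) (nat_lit 6) (nat_lit 12))
    (@En.i (nat_lit 6692) (nat_lit 13) (nat_lit 9))
    (@En.i (nat_lit 8497) (nat_lit 15) (nat_lit 3))
    (@En.i (nat_lit 11426) (nat_lit 0) (nat_lit 8))
    (@En.i (nat_lit 8501) (nat_lit 15) (nat_lit 3))))
  (@Cl.mk (nat_lit 0x300090003000c000b000b000a0004000700050005000d0006000d0003000d) (nat_lit 0x107882000050206) (nat_lit 16) Lb.e (@T16.mk En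
    (@En.i (nat_lit 7076) (nat_lit 0) (nat_lit 13))
    (@En.i (nat_lit 8502) (nat_lit 3) (nat_lit 3))
    (@En.i (nat_lit 4607) (nat_lit 0) (nat_lit 13))
    (@En.i (nat_lit 7494) (nat_lit 3) (nat_lit 6))
    (@En.n l134 (nat_lit 6849) (nat_lit 2) (nat_lit 13))
    (@En.n l11 (nat_lit 8716) (nat_lit 11) (nat_lit 5))
    (@En.i (nat_lit 8488) (nat_lit 8) (nat_lit 5))
    (@En.i (nat_lit 4623) (nat_lit 11) (nat_lit 7))
    (@En.n l936 (nat_lit 8154) (nat_lit 8) (nat_lit 4))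
    (@En.n l55 (nat_lit 10164) (nat_lit 0) (nat_lit 10))
    (@En.n l619 (nat_lit 8683) (nat_lit 5) (nat_lit 11))
    (@En.n l3866 (nat_lit 9755) (nat_lit 5) (nat_lit 11))
    (@En.i (nat_lit 8499) (nat_lit 11) (nat_lit 12))
    (@En.i (nat_lit 8503) (nat_lit 15) (nat_lit 3))
    (@En.i (nat_lit 6690) (nat_lit 0) (nat_lit 9))
    (@En.i (nat_lit 8498) (nat_lit 15) (nat_lit 3))))
  (@Cl.mk (nat_lit 0x3000800040009000c000a000a000800040008000700060006000d000c0008) (nat_lit 0x14083000005a2) (nat_lit 16) Lb.e (@T16.mk En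
    (@En.n l4086 (nat_lit 4467) (nat_lit 0) (nat_lit 8))
    (@En.n l644 (nat_lit 8497) (nat_lit 4) (nat_lit 12))
    (@En.n l11365 (nat_lit 6847) (nat_lit 2) (nat_lit 13))
    (@En.n l11 (nat_lit 10973) (nat_lit 10) (nat_lit 6))
    (@En.n l11547 (nat_lit 10134) (nat_lit 4) (nat_lit 6))
    (@En.n l17 (nat_lit 8502) (nat_lit 9) (nat_lit 7))
    (@En.n l11547 (nat_lit 8759) (nat_lit 6) (nat_lit 8))
    (@En.n l936 (nat_lit 8153) (nat_lit 7) (nat_lit 4))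
    (@En.i (nat_lit 10229) (nat_lit 0) (nat_lit 8))
    (@En.n l619 (nat_lit 8690) (nat_lit 6) (nat_lit 10))
    (@En.n l10040 (nat_lit 9964) (nat_lit 11) (nat_lit 10))
    (@En.n l8765 (nat_lit 9639) (nat_lit 6) (nat_lit 12))
    (@En.n l1738 (nat_lit 6693) (nat_lit 13) (nat_lit 9))
    (@En.n l31922 (nat_lit 8507) (nat_lit 14) (nat_lit 4))
    (@En.n l11547 (nat_lit 11473) (nat_lit 0) (nat_lit 8))
    (@En.n l7 (nat_lit 8499) (nat_lit 15) (nat_lit 3))))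
  (@Cl.mk (nat_lit 0x3000c000b000b00090004000700050005000d000c00070003000d00040009) (nat_lit 0x509400005a00601) (nat_lit 16) Lb.e (@T16.mk En
    (@En.i (nat_lit 6691) (nat_lit 0) (nat_lit 9))
    (@En.n l7 (nat_lit 8506) (nat_lit 14) (nat_lit 4))
    (@En.n l396 (nat_lit 12472) (nat_lit 2) (nat_lit 13))
    (@En.n l7 (nat_lit 8500) (nat_lit 1) (nat_lit 3))
    (@En.i (nat_lit 4468) (nat_lit 0) (nat_lit 7))
    (@En.n l644 (nat_lit 8498) (nat_lit 4) (nat_lit 12))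
    (@En.n l11365 (nat_lit 6845) (nat_lit 2) (nat_lit 13))
    (@En.n l11 (nat_lit 10972) (nat_lit 11) (nat_lit 5))
    (@En.i (nat_lit 8487) (nat_lit 8) (nat_lit 5))
    (@En.i (nat_lit 4624) (nat_lit 11) (nat_lit 7))
    (@En.n l936 (nat_lit 8694) (nat_lit 10) (nat_lit 4))
    (@En.i (nat_lit 10226) (nat_lit 0) (nat_lit 9))
    (@En.n l619 (nat_lit 8686) (nat_lit 5) (nat_lit 11))
    (@En.n l3866 (nat_lit 9756) (nat_lit 5) (nat_lit 11))
    (@En.i (nat_lit 8501) (nat_lit 11) (nat_lit 12))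
    (@En.i (nat_lit 8504) (nat_lit 15) (nat_lit 3))))
  (@Cl.mk (nat_lit 0x3000c000b000b000a0004000800050005000d0006000c0003000d00080004) (nat_lit 0x7386040050a0710) (nat_lit 16) Lb.e (@T16.mk En
    (@En.i (nat_lit 8732) (nat_lit 0) (nat_lit 4))
    (@En.n l61 (nat_lit 8499) (nat_lit 14) (nat_lit 8))
    (@En.i (nat_lit 7077) (nat_lit 1) (nat_lit 13))
    (@En.i (nat_lit 8504) (nat_lit 3) (nat_lit 3))
    (@En.i (nat_lit 8675) (nat_lit 0) (nat_lit 12))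
    (@En.i (nat_lit 7497) (nat_lit 5) (nat_lit 6))
    (@En.n l134 (nat_lit 6851) (nat_lit 2) (nat_lit 13))
    (@En.n l11 (nat_lit 8711) (nat_lit 11) (nat_lit 5))
    (@En.i (nat_lit 8492) (nat_lit 8) (nat_lit 5))
    (@En.i (nat_lit 10230) (nat_lit 5) (nat_lit 8))
    (@En.n l936 (nat_lit 8701) (nat_lit 10) (nat_lit 4))
    (@En.n l55 (nat_lit 10166) (nat_lit 0) (nat_lit 10))
    (@En.n l619 (nat_lit 8684) (nat_lit 5) (nat_lit 11))
    (@En.n l3866 (nat_lit 9402) (nat_lit 5) (nat_lit 11))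
    (@En.i (nat_lit 12003) (nat_lit 11) (nat_lit 12))
    (@En.n l18 (nat_lit 8500) (nat_lit 13) (nat_lit 3))))
  (@Cl.mk (nat_lit 0x3000c000b000b00090004000800050005000d000b00070003000d00080005) (nat_lit 0x639602005800710) (nat_lit 16) Lb.e (@T16.mk En
    (@En.n l16268 (nat_lit 7477) (nat_lit 0) (nat_lit 5))
    (@En.n l61 (nat_lit 8501) (nat_lit 14) (nat_lit 8))
    (@En.n l396 (nat_lit 12470) (nat_lit 2) (nat_lit 13))
    (@En.n l7 (nat_lit 8503) (nat_lit 3) (nat_lit 3))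
    (@En.n l137 (nat_lit 3147) (nat_lit 0) (nat_lit 7))
    (@En.i (nat_lit 8505) (nat_lit 5) (nat_lit 11))
    (@En.n l14723 (nat_lit 6848) (nat_lit 2) (nat_lit 13))
    (@En.n l11 (nat_lit 7482) (nat_lit 11) (nat_lit 5))
    (@En.i (nat_lit 8489) (nat_lit 8) (nat_lit 5))
    (@En.i (nat_lit 10231) (nat_lit 5) (nat_lit 8))
    (@En.n l936 (nat_lit 8695) (nat_lit 10) (nat_lit 4))
    (@En.i (nat_lit 10225) (nat_lit 0) (nat_lit 9))
    (@En.n l619 (nat_lit 7943) (nat_lit 5) (nat_lit 11))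
    (@En.n l3866 (nat_lit 9758) (nat_lit 5) (nat_lit 11))
    (@En.i (nat_lit 12002) (nat_lit 11) (nat_lit 12))
    (@En.n l18 (nat_lit 8502) (nat_lit 15) (nat_lit 3))))
  (@Cl.mk (nat_lit 0x40004000c000b000b000a0004000900050005000b0006000c000c00070005) (nat_lit 0x77900300702000) (nat_lit 16) Lb.e (@T16.mk En
    (@En.n l27681 (nat_lit 3536) (nat_lit 0) (nat_lit 5))
    (@En.n l742 (nat_lit 8497) (nat_lit 1) (nat_lit 7))
    (@En.n l396 (nat_lit 8732) (nat_lit 4) (nat_lit 12))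
    (@En.n l13915 (nat_lit 8670) (nat_lit 2) (nat_lit 12))
    (@En.i (nat_lit 5884) (nat_lit 4) (nat_lit 6))
    (@En.i (nat_lit 9358) (nat_lit 12) (nat_lit 11))
    (@En.n l11 (nat_lit 8707) (nat_lit 11) (nat_lit 5))
    (@En.n l644 (nat_lit 8320) (nat_lit 7) (nat_lit 5))
    (@En.i (nat_lit 7370) (nat_lit 0) (nat_lit 9))
    (@En.n l936 (nat_lit 8704) (nat_lit 1) (nat_lit 4))
    (@En.n l55 (nat_lit 8642) (nat_lit 0) (nat_lit 10))
    (@En.n l5637 (nat_lit 8678) (nat_lit 5) (nat_lit 11))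
    (@En.n l3866 (nat_lit 8734) (nat_lit 5) (nat_lit 11))
    (@En.i (nat_lit 10747) (nat_lit 3) (nat_lit 12))
    (@En.n l2172 (nat_lit 8679) (nat_lit 12) (nat_lit 4))
    (@En.i (nat_lit 8503) (nat_lit 0) (nat_lit 4))))
  (@Cl.mk (nat_lit 0x4000400090005000c000b000b00080004000700050005000c000c000b0008) (nat_lit 0x4049630000a694) (nat_lit 16) Lb.e (@T16.mk En
    (@En.n l2072 (nat_lit 1965) (nat_lit 0) (nat_lit 8))
    (@En.n l2337 (nat_lit 8504) (nat_lit 5) (nat_lit 11))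
    (@En.n l601 (nat_lit 8516) (nat_lit 4) (nat_lit 12))
    (@En.i (nat_lit 9712) (nat_lit 12) (nat_lit 12))
    (@En.n l11 (nat_lit 8197) (nat_lit 11) (nat_lit 5))
    (@En.n l77 (nat_lit 8350) (nat_lit 5) (nat_lit 5))
    (@En.i (nat_lit 4626) (nat_lit 11) (nat_lit 7))
    (@En.n l6387 (nat_lit 8520) (nat_lit 7) (nat_lit 4))
    (@En.i (nat_lit 4433) (nat_lit 0) (nat_lit 8))
    (@En.n l39751 (nat_lit 8509) (nat_lit 5) (nat_lit 11))
    (@En.n l39752 (nat_lit 9748) (nat_lit 5) (nat_lit 11))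
    (@En.n l23128 (nat_lit 8507) (nat_lit 12) (nat_lit 12))
    (@En.n l50 (nat_lit 6672) (nat_lit 4) (nat_lit 5))
    (@En.i (nat_lit 8375) (nat_lit 5) (nat_lit 9))
    (@En.n l3787 (nat_lit 8294) (nat_lit 12) (nat_lit 4))
    (@En.i (nat_lit 8498) (nat_lit 0) (nat_lit 4))))
  (@Cl.mk (nat_lit 0x400040009000c000a000a00070004000a000700060006000c000c00060009) (nat_lit 0x3385008000a004) (nat_lit 16) Lb.e (@T16.mk En
    (@En.n l4758 (nat_lit 2068) (nat_lit 9) (nat_lit 9))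
    (@En.n l31977 (nat_lit 11323) (nat_lit 1) (nat_lit 6))
    (@En.n l61 (nat_lit 8517) (nat_lit 4) (nat_lit 12))
    (@En.n l1643 (nat_lit 9571) (nat_lit 3) (nat_lit 12))
    (@En.n l17209 (nat_lit 8196) (nat_lit 10) (nat_lit 6))
    (@En.n l527 (nat_lit 9057) (nat_lit 10) (nat_lit 6))
    (@En.n l28263 (nat_lit 8506) (nat_lit 6) (nat_lit 7))
    (@En.n l38772 (nat_lit 8283) (nat_lit 8) (nat_lit 10))
    (@En.n l14392 (nat_lit 8422) (nat_lit 8) (nat_lit 4))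
    (@En.n l4758 (nat_lit 6354) (nat_lit 0) (nat_lit 7))
    (@En.n l38773 (nat_lit 8508) (nat_lit 6) (nat_lit 10))
    (@En.n l38774 (nat_lit 8892) (nat_lit 12) (nat_lit 10))
    (@En.n l7368 (nat_lit 11056) (nat_lit 6) (nat_lit 12))
    (@En.n l38775 (nat_lit 8405) (nat_lit 11) (nat_lit 9))
    (@En.n l26096 (nat_lit 8296) (nat_lit 12) (nat_lit 4))
    (@En.n l38772 (nat_lit 8497) (nat_lit 0) (nat_lit 4))))
  (@Cl.mk (nat_lit 0x2000c000c0007000a00040004000a000d000a0006000300090006000e0006) (nat_lit 0x990100394007030) (nat_lit 16) Lb.e (@T16.mk En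
    (@En.n l34774 (nat_lit 8507) (nat_lit 5) (nat_lit 6))
    (@En.n l12119 (nat_lit 7882) (nat_lit 1) (nat_lit 14))
    (@En.n l12115 (nat_lit 8509) (nat_lit 2) (nat_lit 6))
    (@En.n l30543 (nat_lit 8282) (nat_lit 3) (nat_lit 9))
    (@En.n l8936 (nat_lit 8414) (nat_lit 4) (nat_lit 3))
    (@En.i (nat_lit 1623) (nat_lit 0) (nat_lit 6))
    (@En.n l24431 (nat_lit 8762) (nat_lit 7) (nat_lit 10))
    (@En.i (nat_lit 11058) (nat_lit 8) (nat_lit 13))
    (@En.n l26093 (nat_lit 8378) (nat_lit 9) (nat_lit 10))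
    (@En.n l34775 (nat_lit 8295) (nat_lit 12) (nat_lit 4))
    (@En.n l4155 (nat_lit 8682) (nat_lit 10) (nat_lit 4))
    (@En.i (nat_lit 816) (nat_lit 8) (nat_lit 10))
    (@En.n l13247 (nat_lit 7941) (nat_lit 13) (nat_lit 7))
    (@En.n l24432 (nat_lit 8512) (nat_lit 4) (nat_lit 12))
    (@En.n l12118 (nat_lit 8426) (nat_lit 10) (nat_lit 12))
    (@En.n l3 (nat_lit 8508) (nat_lit 15) (nat_lit 2))))
  (@Cl.mk (nat_lit 0x2000c000c000b000900040004000a0005000d000b000700030006000e0005) (nat_lit 0x88110040a500020) (nat_lit 16) Lb.e (@T16.mk En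
    (@En.n l31491 (nat_lit 8506) (nat_lit 5) (nat_lit 5))
    (@En.n l998 (nat_lit 827) (nat_lit 1) (nat_lit 14))
    (@En.n l4172 (nat_lit 7536) (nat_lit 12) (nat_lit 6))
    (@En.n l7 (nat_lit 8510) (nat_lit 3) (nat_lit 3))
    (@En.n l1422 (nat_lit 1608) (nat_lit 0) (nat_lit 7))
    (@En.i (nat_lit 8546) (nat_lit 6) (nat_lit 11))
    (@En.n l19044 (nat_lit 8508) (nat_lit 7) (nat_lit 13))
    (@En.i (nat_lit 6874) (nat_lit 7) (nat_lit 5))
    (@En.n l476 (nat_lit 8373) (nat_lit 9) (nat_lit 10))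
    (@En.n l152 (nat_lit 8293) (nat_lit 12) (nat_lit 4))
    (@En.n l9752 (nat_lit 8680) (nat_lit 10) (nat_lit 4))
    (@En.i (nat_lit 813) (nat_lit 12) (nat_lit 9))
    (@En.n l31492 (nat_lit 7943) (nat_lit 13) (nat_lit 11))
    (@En.n l31493 (nat_lit 8511) (nat_lit 4) (nat_lit 12))
    (@En.n l16902 (nat_lit 8427) (nat_lit 11) (nat_lit 12))
    (@En.n l17 (nat_lit 8509) (nat_lit 15) (nat_lit 2))))
  (@Cl.mk (nat_lit 0x2000c000c000b000a00040004000a0005000d0006000c00030006000e0004) (nat_lit 0xaa2100409040040) (nat_lit 16) Lb.e (@T16.mk En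
    (@En.n l4172 (nat_lit 8520) (nat_lit 5) (nat_lit 4))
    (@En.n l998 (nat_lit 829) (nat_lit 1) (nat_lit 14))
    (@En.n l4172 (nat_lit 3293) (nat_lit 12) (nat_lit 6))
    (@En.i (nat_lit 8509) (nat_lit 3) (nat_lit 3))
    (@En.n l1055 (nat_lit 8527) (nat_lit 0) (nat_lit 12))
    (@En.i (nat_lit 8273) (nat_lit 5) (nat_lit 6))
    (@En.n l134 (nat_lit 8414) (nat_lit 7) (nat_lit 13))
    (@En.i (nat_lit 6876) (nat_lit 7) (nat_lit 5))
    (@En.n l476 (nat_lit 8377) (nat_lit 9) (nat_lit 10))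
    (@En.n l152 (nat_lit 8297) (nat_lit 12) (nat_lit 4))
    (@En.n l1055 (nat_lit 8681) (nat_lit 10) (nat_lit 4))
    (@En.n l55 (nat_lit 4062) (nat_lit 12) (nat_lit 10))
    (@En.n l31115 (nat_lit 8693) (nat_lit 13) (nat_lit 11))
    (@En.n l5864 (nat_lit 8514) (nat_lit 4) (nat_lit 12))
    (@En.i (nat_lit 9078) (nat_lit 11) (nat_lit 12))
    (@En.n l17 (nat_lit 8510) (nat_lit 15) (nat_lit 2))))
  (@Cl.mk (nat_lit 0x2000a0006000d000b000800030006000e00050002000c000a0008000e0004) (nat_lit 0x50a620020078150) (nat_lit 16) Lb.e (@T16.mk En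
    (@En.n l19030 (nat_lit 8509) (nat_lit 10) (nat_lit 4))
    (@En.n l3968 (nat_lit 4602) (nat_lit 1) (nat_lit 14))
    (@En.n l17055 (nat_lit 811) (nat_lit 2) (nat_lit 8))
    (@En.i (nat_lit 8677) (nat_lit 3) (nat_lit 10))
    (@En.n l4546 (nat_lit 10661) (nat_lit 11) (nat_lit 12))
    (@En.n l11 (nat_lit 8511) (nat_lit 5) (nat_lit 2))
    (@En.n l117 (nat_lit 8516) (nat_lit 6) (nat_lit 5))
    (@En.n l3968 (nat_lit 826) (nat_lit 8) (nat_lit 14))
    (@En.n l1034 (nat_lit 8270) (nat_lit 8) (nat_lit 6))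
    (@En.n l936 (nat_lit 8514) (nat_lit 9) (nat_lit 3))
    (@En.n l2243 (nat_lit 1610) (nat_lit 0) (nat_lit 8))
    (@En.n l3965 (nat_lit 8521) (nat_lit 12) (nat_lit 11))
    (@En.n l19031 (nat_lit 8512) (nat_lit 13) (nat_lit 13))
    (@En.n l2354 (nat_lit 6872) (nat_lit 14) (nat_lit 6))
    (@En.n l3623 (nat_lit 8380) (nat_lit 9) (nat_lit 10))
    (@En.n l50 (nat_lit 8511) (nat_lit 15) (nat_lit 2))))
noncomputable def a532 : T16 Cl := @T16.mk Cl
  (@Cl.mk (nat_lit 0x2000a000d000a00070003000a0006000e00060002000c00060009000e0004) (nat_lit 0x495008030080140) (nat_lit 16) Lb.e (@T16.mk En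
    (@En.n l33444 (nat_lit 8508) (nat_lit 10) (nat_lit 4))
    (@En.i (nat_lit 3429) (nat_lit 1) (nat_lit 14))
    (@En.n l24332 (nat_lit 817) (nat_lit 9) (nat_lit 9))
    (@En.n l34524 (nat_lit 7699) (nat_lit 14) (nat_lit 6))
    (@En.n l10773 (nat_lit 10656) (nat_lit 5) (nat_lit 12))
    (@En.n l17 (nat_lit 8512) (nat_lit 5) (nat_lit 2))
    (@En.n l17095 (nat_lit 8517) (nat_lit 6) (nat_lit 6))
    (@En.i (nat_lit 7881) (nat_lit 8) (nat_lit 14))
    (@En.n l10826 (nat_lit 8511) (nat_lit 8) (nat_lit 6))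
    (@En.n l612 (nat_lit 8281) (nat_lit 3) (nat_lit 10))
    (@En.n l50 (nat_lit 8513) (nat_lit 10) (nat_lit 3))
    (@En.n l24332 (nat_lit 1611) (nat_lit 0) (nat_lit 7))
    (@En.n l217 (nat_lit 9281) (nat_lit 13) (nat_lit 10))
    (@En.n l24332 (nat_lit 11059) (nat_lit 8) (nat_lit 13))
    (@En.n l9491 (nat_lit 8424) (nat_lit 9) (nat_lit 10))
    (@En.n l11 (nat_lit 8512) (nat_lit 15) (nat_lit 2))))
  (@Cl.mk (nat_lit 0x2000a000d0006000b0003000a0006000e00050002000c0006000a000e0004) (nat_lit 0x480308050090160) (nat_lit 16) Lb.e (@T16.mk En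
    (@En.n l34513 (nat_lit 8414) (nat_lit 10) (nat_lit 4))
    (@En.i (nat_lit 3428) (nat_lit 12) (nat_lit 14))
    (@En.n l781 (nat_lit 4065) (nat_lit 2) (nat_lit 10))
    (@En.n l12335 (nat_lit 7700) (nat_lit 14) (nat_lit 6))
    (@En.n l2125 (nat_lit 10662) (nat_lit 5) (nat_lit 12))
    (@En.n l17 (nat_lit 8513) (nat_lit 5) (nat_lit 2))
    (@En.n l18577 (nat_lit 8518) (nat_lit 6) (nat_lit 5))
    (@En.i (nat_lit 7880) (nat_lit 8) (nat_lit 14))
    (@En.n l3902 (nat_lit 8514) (nat_lit 8) (nat_lit 6))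
    (@En.n l9871 (nat_lit 5819) (nat_lit 10) (nat_lit 10))
    (@En.i (nat_lit 8512) (nat_lit 10) (nat_lit 3))
    (@En.n l12335 (nat_lit 8581) (nat_lit 0) (nat_lit 11))
    (@En.i (nat_lit 8281) (nat_lit 6) (nat_lit 6))
    (@En.n l19539 (nat_lit 11063) (nat_lit 8) (nat_lit 13))
    (@En.n l2678 (nat_lit 8411) (nat_lit 9) (nat_lit 10))
    (@En.n l11 (nat_lit 8513) (nat_lit 15) (nat_lit 2))))
  (@Cl.mk (nat_lit 0x2000a0006000d0007000c00030006000e00040002000c000a0009000e0004) (nat_lit 0x509030040097160) (nat_lit 16) Lb.e (@T16.mk En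
    (@En.n l29002 (nat_lit 8510) (nat_lit 10) (nat_lit 4))
    (@En.n l5559 (nat_lit 3438) (nat_lit 1) (nat_lit 14))
    (@En.n l2667 (nat_lit 4064) (nat_lit 2) (nat_lit 9))
    (@En.i (nat_lit 8676) (nat_lit 3) (nat_lit 10))
    (@En.n l4361 (nat_lit 10667) (nat_lit 11) (nat_lit 12))
    (@En.n l11 (nat_lit 8514) (nat_lit 5) (nat_lit 2))
    (@En.n l117 (nat_lit 8515) (nat_lit 6) (nat_lit 4))
    (@En.n l5559 (nat_lit 828) (nat_lit 8) (nat_lit 14))
    (@En.i (nat_lit 3290) (nat_lit 12) (nat_lit 6))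
    (@En.n l2576 (nat_lit 8511) (nat_lit 9) (nat_lit 3))
    (@En.i (nat_lit 8579) (nat_lit 0) (nat_lit 12))
    (@En.i (nat_lit 8271) (nat_lit 12) (nat_lit 7))
    (@En.n l7678 (nat_lit 8513) (nat_lit 13) (nat_lit 13))
    (@En.n l4356 (nat_lit 6873) (nat_lit 14) (nat_lit 6))
    (@En.n l998 (nat_lit 8353) (nat_lit 9) (nat_lit 10))
    (@En.n l50 (nat_lit 8514) (nat_lit 15) (nat_lit 2))))
  (@Cl.mk (nat_lit 0x200090006000c0007000c000c0004000700040004000c000a0009000e0004) (nat_lit 0x5090a4000007150) (nat_lit 16) Lb.e (@T16.mk En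
    (@En.n l14325 (nat_lit 8520) (nat_lit 15) (nat_lit 4))
    (@En.n l2830 (nat_lit 7381) (nat_lit 1) (nat_lit 14))
    (@En.n l2826 (nat_lit 6001) (nat_lit 2) (nat_lit 9))
    (@En.i (nat_lit 8718) (nat_lit 3) (nat_lit 10))
    (@En.n l27225 (nat_lit 10087) (nat_lit 5) (nat_lit 12))
    (@En.n l21246 (nat_lit 8193) (nat_lit 12) (nat_lit 4))
    (@En.n l8151 (nat_lit 8521) (nat_lit 6) (nat_lit 4))
    (@En.i (nat_lit 3288) (nat_lit 11) (nat_lit 7))
    (@En.n l19029 (nat_lit 9771) (nat_lit 8) (nat_lit 4))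
    (@En.n l619 (nat_lit 8514) (nat_lit 10) (nat_lit 12))
    (@En.i (nat_lit 8583) (nat_lit 11) (nat_lit 12))
    (@En.n l27226 (nat_lit 8272) (nat_lit 12) (nat_lit 7))
    (@En.n l3695 (nat_lit 8518) (nat_lit 13) (nat_lit 12))
    (@En.n l6319 (nat_lit 6878) (nat_lit 14) (nat_lit 6))
    (@En.i (nat_lit 8421) (nat_lit 5) (nat_lit 9))
    (@En.n l50 (nat_lit 8515) (nat_lit 15) (nat_lit 2))))
  (@Cl.mk (nat_lit 0x200090006000c000b000b00090004000700050005000c000a0007000e0004) (nat_lit 0x509974000050050) (nat_lit 16) Lb.e (@T16.mk En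
    (@En.n l7 (nat_lit 8506) (nat_lit 15) (nat_lit 4))
    (@En.n l7973 (nat_lit 4604) (nat_lit 1) (nat_lit 14))
    (@En.n l9823 (nat_lit 1966) (nat_lit 2) (nat_lit 7))
    (@En.i (nat_lit 8679) (nat_lit 3) (nat_lit 10))
    (@En.n l12055 (nat_lit 9822) (nat_lit 5) (nat_lit 12))
    (@En.n l11 (nat_lit 8191) (nat_lit 5) (nat_lit 5))
    (@En.i (nat_lit 8585) (nat_lit 6) (nat_lit 5))
    (@En.n l15450 (nat_lit 4628) (nat_lit 7) (nat_lit 7))
    (@En.n l936 (nat_lit 8515) (nat_lit 8) (nat_lit 4))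
    (@En.i (nat_lit 6247) (nat_lit 10) (nat_lit 9))
    (@En.n l619 (nat_lit 8511) (nat_lit 11) (nat_lit 11))
    (@En.n l7973 (nat_lit 9770) (nat_lit 12) (nat_lit 11))
    (@En.n l31922 (nat_lit 8517) (nat_lit 13) (nat_lit 12))
    (@En.i (nat_lit 6671) (nat_lit 14) (nat_lit 6))
    (@En.i (nat_lit 8425) (nat_lit 5) (nat_lit 9))
    (@En.n l50 (nat_lit 8516) (nat_lit 15) (nat_lit 2))))
  (@Cl.mk (nat_lit 0x20009000c000a000a00080004000b000700060006000c00050008000e0004) (nat_lit 0x5886305000a0340) (nat_lit 16) Lb.e (@T16.mk En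
    (@En.i (nat_lit 8507) (nat_lit 15) (nat_lit 4))
    (@En.n l40264 (nat_lit 4605) (nat_lit 1) (nat_lit 14))
    (@En.n l4758 (nat_lit 1969) (nat_lit 10) (nat_lit 8))
    (@En.n l7865 (nat_lit 7701) (nat_lit 3) (nat_lit 5))
    (@En.n l1643 (nat_lit 10081) (nat_lit 5) (nat_lit 12))
    (@En.n l17209 (nat_lit 8189) (nat_lit 5) (nat_lit 6))
    (@En.n l40265 (nat_lit 9063) (nat_lit 6) (nat_lit 6))
    (@En.n l18886 (nat_lit 8516) (nat_lit 7) (nat_lit 7))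
    (@En.n l31977 (nat_lit 8519) (nat_lit 9) (nat_lit 11))
    (@En.n l35587 (nat_lit 8518) (nat_lit 9) (nat_lit 4))
    (@En.n l897 (nat_lit 6250) (nat_lit 11) (nat_lit 8))
    (@En.n l37121 (nat_lit 8512) (nat_lit 12) (nat_lit 10))
    (@En.n l17211 (nat_lit 8889) (nat_lit 13) (nat_lit 10))
    (@En.n l17208 (nat_lit 10996) (nat_lit 6) (nat_lit 12))
    (@En.n l6589 (nat_lit 8401) (nat_lit 14) (nat_lit 9))
    (@En.n l17 (nat_lit 8517) (nat_lit 15) (nat_lit 2))))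
  (@Cl.mk (nat_lit 0x20009000c0006000b000b0004000b000700050005000c0005000a000e0004) (nat_lit 0x580940900090140) (nat_lit 16) Lb.e (@T16.mk En
    (@En.n l40516 (nat_lit 8422) (nat_lit 15) (nat_lit 4))
    (@En.n l40517 (nat_lit 7384) (nat_lit 1) (nat_lit 14))
    (@En.n l1827 (nat_lit 6101) (nat_lit 2) (nat_lit 10))
    (@En.n l16914 (nat_lit 7703) (nat_lit 3) (nat_lit 5))
    (@En.n l40518 (nat_lit 10085) (nat_lit 5) (nat_lit 12))
    (@En.n l40519 (nat_lit 8192) (nat_lit 11) (nat_lit 5))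
    (@En.n l40518 (nat_lit 9285) (nat_lit 6) (nat_lit 5))
    (@En.n l23629 (nat_lit 8515) (nat_lit 7) (nat_lit 7))
    (@En.n l7612 (nat_lit 5818) (nat_lit 9) (nat_lit 11))
    (@En.n l2511 (nat_lit 9772) (nat_lit 9) (nat_lit 4))
    (@En.n l33263 (nat_lit 8513) (nat_lit 11) (nat_lit 11))
    (@En.n l253 (nat_lit 8584) (nat_lit 12) (nat_lit 11))
    (@En.n l34484 (nat_lit 8519) (nat_lit 13) (nat_lit 6))
    (@En.i (nat_lit 12763) (nat_lit 6) (nat_lit 12))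
    (@En.n l2125 (nat_lit 8418) (nat_lit 14) (nat_lit 9))
    (@En.n l17 (nat_lit 8518) (nat_lit 15) (nat_lit 2))))
  (@Cl.mk (nat_lit 0x2000a0006000b000b0008000b000600050005000b0005000a0008000e0005) (nat_lit 0x409634000401450) (nat_lit 16) Lb.e (@T16.mk En
    (@En.n l7 (nat_lit 8283) (nat_lit 15) (nat_lit 5))
    (@En.n l40616 (nat_lit 8201) (nat_lit 1) (nat_lit 14))
    (@En.n l40617 (nat_lit 8517) (nat_lit 2) (nat_lit 8))
    (@En.i (nat_lit 8516) (nat_lit 3) (nat_lit 10))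
    (@En.n l40618 (nat_lit 7702) (nat_lit 4) (nat_lit 5))
    (@En.n l18354 (nat_lit 10082) (nat_lit 6) (nat_lit 11))
    (@En.n l40619 (nat_lit 8190) (nat_lit 6) (nat_lit 5))
    (@En.n l40616 (nat_lit 9062) (nat_lit 7) (nat_lit 5))
    (@En.n l40620 (nat_lit 8272) (nat_lit 8) (nat_lit 6))
    (@En.n l20270 (nat_lit 5812) (nat_lit 10) (nat_lit 11))
    (@En.n l40621 (nat_lit 6251) (nat_lit 11) (nat_lit 8))
    (@En.n l40622 (nat_lit 8281) (nat_lit 5) (nat_lit 11))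
    (@En.n l15619 (nat_lit 8890) (nat_lit 13) (nat_lit 11))
    (@En.n l20270 (nat_lit 11225) (nat_lit 14) (nat_lit 6))
    (@En.n l40623 (nat_lit 8388) (nat_lit 14) (nat_lit 10))
    (@En.n l50 (nat_lit 8519) (nat_lit 15) (nat_lit 2))))
  (@Cl.mk (nat_lit 0x4000400090005000c0006000c000c0004000700040004000c000c000b000a) (nat_lit 0x40500500008181) (nat_lit 16) Lb.e (@T16.mk En
    (@En.n l548 (nat_lit 4068) (nat_lit 0) (nat_lit 10))
    (@En.n l14017 (nat_lit 8695) (nat_lit 5) (nat_lit 11))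
    (@En.n l8260 (nat_lit 8515) (nat_lit 4) (nat_lit 12))
    (@En.i (nat_lit 9715) (nat_lit 12) (nat_lit 12))
    (@En.n l3180 (nat_lit 8550) (nat_lit 12) (nat_lit 4))
    (@En.n l25054 (nat_lit 8546) (nat_lit 0) (nat_lit 4))
    (@En.n l2869 (nat_lit 3291) (nat_lit 11) (nat_lit 7))
    (@En.n l4909 (nat_lit 9749) (nat_lit 1) (nat_lit 4))
    (@En.n l5653 (nat_lit 8510) (nat_lit 4) (nat_lit 12))
    (@En.n l14016 (nat_lit 8590) (nat_lit 1) (nat_lit 12))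
    (@En.i (nat_lit 8277) (nat_lit 4) (nat_lit 6))
    (@En.n l28 (nat_lit 8422) (nat_lit 12) (nat_lit 12))
    (@En.i (nat_lit 6877) (nat_lit 6) (nat_lit 5))
    (@En.n l8047 (nat_lit 8417) (nat_lit 5) (nat_lit 9))
    (@En.n l27873 (nat_lit 8554) (nat_lit 12) (nat_lit 4))
    (@En.n l14016 (nat_lit 8149) (nat_lit 0) (nat_lit 4))))
  (@Cl.mk (nat_lit 0x2000b0006000b0007000c0005000d000500040003000c000a0009000e0004) (nat_lit 0x8050202000001c0) (nat_lit 16) Lb.e (@T16.mk En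
    (@En.n l24567 (nat_lit 8546) (nat_lit 10) (nat_lit 4))
    (@En.i (nat_lit 7378) (nat_lit 1) (nat_lit 14))
    (@En.n l516 (nat_lit 6106) (nat_lit 2) (nat_lit 9))
    (@En.n l21095 (nat_lit 8653) (nat_lit 3) (nat_lit 10))
    (@En.n l17552 (nat_lit 9813) (nat_lit 5) (nat_lit 12))
    (@En.n l7 (nat_lit 12718) (nat_lit 5) (nat_lit 3))
    (@En.n l19519 (nat_lit 8514) (nat_lit 6) (nat_lit 4))
    (@En.i (nat_lit 9770) (nat_lit 7) (nat_lit 5))
    (@En.n l2817 (nat_lit 830) (nat_lit 9) (nat_lit 13))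
    (@En.n l11916 (nat_lit 12106) (nat_lit 9) (nat_lit 5))
    (@En.n l34283 (nat_lit 8578) (nat_lit 11) (nat_lit 12))
    (@En.n l34773 (nat_lit 9110) (nat_lit 12) (nat_lit 7))
    (@En.n l17552 (nat_lit 9285) (nat_lit 13) (nat_lit 11))
    (@En.n l10979 (nat_lit 6879) (nat_lit 14) (nat_lit 6))
    (@En.n l24571 (nat_lit 9706) (nat_lit 9) (nat_lit 11))
    (@En.n l17 (nat_lit 8521) (nat_lit 15) (nat_lit 2))))
  (@Cl.mk (nat_lit 0x20005000d000900050003000e000c0002000c00070004000b0004000e000b) (nat_lit 0x240054080070b0) (nat_lit 16) Lb.e (@T16.mk En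
    (@En.i (nat_lit 8536) (nat_lit 9) (nat_lit 11))
    (@En.i (nat_lit 8525) (nat_lit 1) (nat_lit 14))
    (@En.i (nat_lit 7919) (nat_lit 2) (nat_lit 4))
    (@En.i (nat_lit 6626) (nat_lit 3) (nat_lit 11))
    (@En.i (nat_lit 8485) (nat_lit 4) (nat_lit 4))
    (@En.i (nat_lit 2340) (nat_lit 5) (nat_lit 7))
    (@En.n l3699 (nat_lit 8625) (nat_lit 7) (nat_lit 12))
    (@En.n l7 (nat_lit 8522) (nat_lit 7) (nat_lit 2))
    (@En.n l644 (nat_lit 8477) (nat_lit 9) (nat_lit 12))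
    (@En.n l287 (nat_lit 7648) (nat_lit 10) (nat_lit 14))
    (@En.n l11 (nat_lit 8523) (nat_lit 10) (nat_lit 3))
    (@En.n l6384 (nat_lit 8293) (nat_lit 3) (nat_lit 5))
    (@En.i (nat_lit 7647) (nat_lit 13) (nat_lit 9))
    (@En.n l322 (nat_lit 2210) (nat_lit 6) (nat_lit 13))
    (@En.i (nat_lit 7686) (nat_lit 6) (nat_lit 5))
    (@En.n l3 (nat_lit 8522) (nat_lit 15) (nat_lit 2))))
  (@Cl.mk (nat_lit 0x20005000d0004000a0003000e000c0002000c00060004000b0004000e000c) (nat_lit 0x3000530500309a) (nat_lit 16) Lb.e (@T16.mk En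
    (@En.i (nat_lit 8532) (nat_lit 9) (nat_lit 12))
    (@En.i (nat_lit 8524) (nat_lit 1) (nat_lit 14))
    (@En.i (nat_lit 7918) (nat_lit 2) (nat_lit 4))
    (@En.i (nat_lit 5117) (nat_lit 3) (nat_lit 11))
    (@En.i (nat_lit 8529) (nat_lit 4) (nat_lit 4))
    (@En.i (nat_lit 6414) (nat_lit 5) (nat_lit 6))
    (@En.n l3699 (nat_lit 8531) (nat_lit 7) (nat_lit 12))
    (@En.n l7 (nat_lit 8523) (nat_lit 7) (nat_lit 2))
    (@En.n l644 (nat_lit 8527) (nat_lit 9) (nat_lit 12))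
    (@En.i (nat_lit 7670) (nat_lit 10) (nat_lit 14))
    (@En.i (nat_lit 8522) (nat_lit 10) (nat_lit 3))
    (@En.i (nat_lit 12276) (nat_lit 12) (nat_lit 10))
    (@En.n l117 (nat_lit 9740) (nat_lit 4) (nat_lit 4))
    (@En.n l1501 (nat_lit 2211) (nat_lit 6) (nat_lit 13))
    (@En.i (nat_lit 7685) (nat_lit 6) (nat_lit 5))
    (@En.n l3 (nat_lit 8523) (nat_lit 15) (nat_lit 2))))
  (@Cl.mk (nat_lit 0x200070005000d0005000a0003000e000c0002000900060004000b000e000b) (nat_lit 0x40009a0500380) (nat_lit 16) Lb.e (@T16.mk En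
    (@En.n l17 (nat_lit 8534) (nat_lit 10) (nat_lit 11))
    (@En.n l6482 (nat_lit 12287) (nat_lit 11) (nat_lit 14))
    (@En.n l3144 (nat_lit 5119) (nat_lit 2) (nat_lit 11))
    (@En.i (nat_lit 8528) (nat_lit 3) (nat_lit 4))
    (@En.n l9770 (nat_lit 6413) (nat_lit 14) (nat_lit 6))
    (@En.n l11241 (nat_lit 11526) (nat_lit 5) (nat_lit 9))
    (@En.n l7 (nat_lit 8524) (nat_lit 6) (nat_lit 2))
    (@En.n l644 (nat_lit 8526) (nat_lit 8) (nat_lit 12))
    (@En.i (nat_lit 7669) (nat_lit 1) (nat_lit 14))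
    (@En.i (nat_lit 8525) (nat_lit 9) (nat_lit 3))
    (@En.n l6482 (nat_lit 12278) (nat_lit 11) (nat_lit 10))
    (@En.n l117 (nat_lit 9737) (nat_lit 4) (nat_lit 5))
    (@En.n l9770 (nat_lit 7759) (nat_lit 13) (nat_lit 13))
    (@En.n l17 (nat_lit 8523) (nat_lit 14) (nat_lit 5))
    (@En.i (nat_lit 7819) (nat_lit 7) (nat_lit 7))
    (@En.n l3 (nat_lit 8524) (nat_lit 15) (nat_lit 2))))
  (@Cl.mk (nat_lit 0x200070005000d000900060003000e000c0002000900070004000b000e000a) (nat_lit 0x3200c206007a0) (nat_lit 16) Lb.e (@T16.mk En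
    (@En.n l15732 (nat_lit 8569) (nat_lit 10) (nat_lit 10))
    (@En.n l4911 (nat_lit 12512) (nat_lit 11) (nat_lit 14))
    (@En.n l3913 (nat_lit 6620) (nat_lit 2) (nat_lit 11))
    (@En.i (nat_lit 8483) (nat_lit 3) (nat_lit 4))
    (@En.n l4911 (nat_lit 2337) (nat_lit 14) (nat_lit 7))
    (@En.n l15733 (nat_lit 11531) (nat_lit 5) (nat_lit 9))
    (@En.n l7 (nat_lit 8525) (nat_lit 6) (nat_lit 2))
    (@En.n l644 (nat_lit 8478) (nat_lit 8) (nat_lit 12))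
    (@En.n l15734 (nat_lit 6785) (nat_lit 1) (nat_lit 14))
    (@En.n l11 (nat_lit 8524) (nat_lit 9) (nat_lit 3))
    (@En.n l15735 (nat_lit 8295) (nat_lit 3) (nat_lit 6))
    (@En.i (nat_lit 7646) (nat_lit 12) (nat_lit 9))
    (@En.n l15736 (nat_lit 7764) (nat_lit 13) (nat_lit 13))
    (@En.n l17 (nat_lit 8522) (nat_lit 14) (nat_lit 5))
    (@En.i (nat_lit 7820) (nat_lit 7) (nat_lit 7))
    (@En.n l3 (nat_lit 8525) (nat_lit 15) (nat_lit 2))))
  (@Cl.mk (nat_lit 0x200080005000d0005000b0003000c000c0008000500040004000b000e000b) (nat_lit 0x604070964000882) (nat_lit 16) Lb.e (@T16.mk En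
    (@En.n l27940 (nat_lit 8374) (nat_lit 12) (nat_lit 11))
    (@En.n l2073 (nat_lit 10120) (nat_lit 4) (nat_lit 14))
    (@En.i (nat_lit 7681) (nat_lit 2) (nat_lit 11))
    (@En.n l3787 (nat_lit 8524) (nat_lit 3) (nat_lit 4))
    (@En.i (nat_lit 8333) (nat_lit 4) (nat_lit 4))
    (@En.n l2073 (nat_lit 6409) (nat_lit 5) (nat_lit 5))
    (@En.n l77 (nat_lit 9104) (nat_lit 6) (nat_lit 8))
    (@En.n l601 (nat_lit 8581) (nat_lit 8) (nat_lit 12))
    (@En.n l6661 (nat_lit 8197) (nat_lit 9) (nat_lit 12))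
    (@En.i (nat_lit 8478) (nat_lit 9) (nat_lit 3))
    (@En.n l3871 (nat_lit 12277) (nat_lit 11) (nat_lit 11))
    (@En.n l117 (nat_lit 8591) (nat_lit 12) (nat_lit 5))
    (@En.n l4839 (nat_lit 7758) (nat_lit 13) (nat_lit 13))
    (@En.n l17 (nat_lit 8527) (nat_lit 14) (nat_lit 5))
    (@En.i (nat_lit 9054) (nat_lit 4) (nat_lit 8))
    (@En.n l3 (nat_lit 8526) (nat_lit 15) (nat_lit 2))))
  (@Cl.mk (nat_lit 0x20005000d0004000b0003000c000c000b000500040004000b0005000e000c) (nat_lit 0x30602370004093) (nat_lit 16) Lb.e (@T16.mk En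
    (@En.n l77 (nat_lit 8533) (nat_lit 3) (nat_lit 12))
    (@En.i (nat_lit 8526) (nat_lit 1) (nat_lit 14))
    (@En.n l50 (nat_lit 2312) (nat_lit 2) (nat_lit 5))
    (@En.n l3786 (nat_lit 8443) (nat_lit 3) (nat_lit 11))
    (@En.n l3787 (nat_lit 8523) (nat_lit 4) (nat_lit 4))
    (@En.i (nat_lit 8337) (nat_lit 5) (nat_lit 4))
    (@En.i (nat_lit 6412) (nat_lit 6) (nat_lit 5))
    (@En.n l2337 (nat_lit 8530) (nat_lit 8) (nat_lit 11))
    (@En.n l601 (nat_lit 8579) (nat_lit 9) (nat_lit 12))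
    (@En.n l28 (nat_lit 8550) (nat_lit 10) (nat_lit 12))
    (@En.i (nat_lit 8477) (nat_lit 10) (nat_lit 3))
    (@En.i (nat_lit 12275) (nat_lit 12) (nat_lit 11))
    (@En.n l117 (nat_lit 8590) (nat_lit 13) (nat_lit 4))
    (@En.n l4839 (nat_lit 2213) (nat_lit 14) (nat_lit 13))
    (@En.i (nat_lit 7689) (nat_lit 13) (nat_lit 5))
    (@En.n l3 (nat_lit 8527) (nat_lit 15) (nat_lit 2))))
noncomputable def a533 : T16 Cl := @T16.mk Cl
  (@Cl.mk (nat_lit 0x200060005000d0005000c0003000d000c00040003000a0004000b000e000b) (nat_lit 0x4000b30060188) (nat_lit 16) Lb.e (@T16.mk En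
    (@En.n l17 (nat_lit 8535) (nat_lit 11) (nat_lit 11))
    (@En.i (nat_lit 12486) (nat_lit 4) (nat_lit 14))
    (@En.i (nat_lit 2812) (nat_lit 2) (nat_lit 11))
    (@En.n l7 (nat_lit 8526) (nat_lit 3) (nat_lit 4))
    (@En.i (nat_lit 11528) (nat_lit 4) (nat_lit 10))
    (@En.n l7 (nat_lit 8597) (nat_lit 5) (nat_lit 3))
    (@En.i (nat_lit 8663) (nat_lit 6) (nat_lit 4))
    (@En.n l644 (nat_lit 8333) (nat_lit 8) (nat_lit 12))
    (@En.i (nat_lit 5994) (nat_lit 9) (nat_lit 13))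
    (@En.i (nat_lit 8483) (nat_lit 9) (nat_lit 3))
    (@En.i (nat_lit 10340) (nat_lit 11) (nat_lit 12))
    (@En.n l117 (nat_lit 10195) (nat_lit 12) (nat_lit 5))
    (@En.i (nat_lit 8531) (nat_lit 13) (nat_lit 13))
    (@En.n l17 (nat_lit 8529) (nat_lit 14) (nat_lit 5))
    (@En.i (nat_lit 9085) (nat_lit 8) (nat_lit 6))
    (@En.n l3 (nat_lit 8528) (nat_lit 15) (nat_lit 2))))
  (@Cl.mk (nat_lit 0x20005000d0004000c0003000d000c00040003000d0004000b0003000e000c) (nat_lit 0x30009100702091) (nat_lit 16) Lb.e (@T16.mk En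
    (@En.i (nat_lit 8308) (nat_lit 14) (nat_lit 12))
    (@En.i (nat_lit 8528) (nat_lit 1) (nat_lit 14))
    (@En.i (nat_lit 8530) (nat_lit 2) (nat_lit 3))
    (@En.i (nat_lit 3363) (nat_lit 3) (nat_lit 11))
    (@En.n l7 (nat_lit 8527) (nat_lit 4) (nat_lit 4))
    (@En.n l564 (nat_lit 8611) (nat_lit 6) (nat_lit 13))
    (@En.n l7 (nat_lit 8311) (nat_lit 6) (nat_lit 3))
    (@En.i (nat_lit 8662) (nat_lit 7) (nat_lit 4))
    (@En.n l644 (nat_lit 8337) (nat_lit 9) (nat_lit 12))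
    (@En.i (nat_lit 5993) (nat_lit 10) (nat_lit 13))
    (@En.i (nat_lit 8485) (nat_lit 10) (nat_lit 3))
    (@En.i (nat_lit 10339) (nat_lit 12) (nat_lit 12))
    (@En.n l117 (nat_lit 10194) (nat_lit 13) (nat_lit 4))
    (@En.i (nat_lit 4405) (nat_lit 14) (nat_lit 13))
    (@En.i (nat_lit 8300) (nat_lit 13) (nat_lit 5))
    (@En.n l3 (nat_lit 8529) (nat_lit 15) (nat_lit 2))))
  (@Cl.mk (nat_lit 0x20006000d0004000c0003000d000b00040003000d000a00050003000e000c) (nat_lit 0x3000a600770090) (nat_lit 16) Lb.e (@T16.mk En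
    (@En.i (nat_lit 8606) (nat_lit 14) (nat_lit 12))
    (@En.i (nat_lit 12485) (nat_lit 1) (nat_lit 14))
    (@En.n l18 (nat_lit 8529) (nat_lit 2) (nat_lit 3))
    (@En.n l7 (nat_lit 7767) (nat_lit 3) (nat_lit 5))
    (@En.n l61 (nat_lit 8528) (nat_lit 4) (nat_lit 10))
    (@En.n l564 (nat_lit 8610) (nat_lit 6) (nat_lit 13))
    (@En.n l7 (nat_lit 8594) (nat_lit 6) (nat_lit 3))
    (@En.i (nat_lit 7413) (nat_lit 7) (nat_lit 4))
    (@En.i (nat_lit 8634) (nat_lit 9) (nat_lit 11))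
    (@En.i (nat_lit 5990) (nat_lit 10) (nat_lit 13))
    (@En.i (nat_lit 8491) (nat_lit 10) (nat_lit 3))
    (@En.i (nat_lit 10341) (nat_lit 12) (nat_lit 12))
    (@En.n l117 (nat_lit 10196) (nat_lit 13) (nat_lit 4))
    (@En.i (nat_lit 4419) (nat_lit 14) (nat_lit 13))
    (@En.i (nat_lit 9400) (nat_lit 1) (nat_lit 6))
    (@En.n l3 (nat_lit 8530) (nat_lit 15) (nat_lit 2))))
  (@Cl.mk (nat_lit 0x20006000d0004000b00030009000d000c00050003000a00040007000e000c) (nat_lit 0x30402b40070096) (nat_lit 16) Lb.e (@T16.mk En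
    (@En.n l387 (nat_lit 8608) (nat_lit 11) (nat_lit 12))
    (@En.i (nat_lit 12425) (nat_lit 1) (nat_lit 14))
    (@En.n l1208 (nat_lit 7206) (nat_lit 2) (nat_lit 7))
    (@En.n l11728 (nat_lit 7758) (nat_lit 3) (nat_lit 4))
    (@En.i (nat_lit 11525) (nat_lit 4) (nat_lit 10))
    (@En.n l7 (nat_lit 8611) (nat_lit 5) (nat_lit 3))
    (@En.i (nat_lit 7352) (nat_lit 6) (nat_lit 5))
    (@En.n l644 (nat_lit 8610) (nat_lit 8) (nat_lit 12))
    (@En.n l617 (nat_lit 8530) (nat_lit 9) (nat_lit 13))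
    (@En.i (nat_lit 4252) (nat_lit 10) (nat_lit 9))
    (@En.i (nat_lit 8625) (nat_lit 10) (nat_lit 3))
    (@En.i (nat_lit 11227) (nat_lit 12) (nat_lit 11))
    (@En.n l6680 (nat_lit 8614) (nat_lit 13) (nat_lit 4))
    (@En.n l17 (nat_lit 4384) (nat_lit 14) (nat_lit 13))
    (@En.i (nat_lit 10818) (nat_lit 3) (nat_lit 6))
    (@En.n l3 (nat_lit 8531) (nat_lit 15) (nat_lit 2))))
  (@Cl.mk (nat_lit 0x2000c00060004000c0004000c000c0004000c00040004000a0004000e000c) (nat_lit 0x500809006008093) (nat_lit 16) Lb.e (@T16.mk En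
    (@En.n l3230 (nat_lit 8533) (nat_lit 11) (nat_lit 12))
    (@En.n l9448 (nat_lit 7003) (nat_lit 1) (nat_lit 14))
    (@En.i (nat_lit 8536) (nat_lit 2) (nat_lit 4))
    (@En.i (nat_lit 11889) (nat_lit 3) (nat_lit 10))
    (@En.n l152 (nat_lit 8523) (nat_lit 12) (nat_lit 4))
    (@En.n l3851 (nat_lit 9742) (nat_lit 5) (nat_lit 4))
    (@En.n l9869 (nat_lit 2212) (nat_lit 7) (nat_lit 12))
    (@En.i (nat_lit 10526) (nat_lit 7) (nat_lit 4))
    (@En.n l3536 (nat_lit 8564) (nat_lit 4) (nat_lit 12))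
    (@En.n l4163 (nat_lit 8876) (nat_lit 10) (nat_lit 12))
    (@En.i (nat_lit 7916) (nat_lit 10) (nat_lit 4))
    (@En.i (nat_lit 5108) (nat_lit 12) (nat_lit 12))
    (@En.i (nat_lit 8308) (nat_lit 1) (nat_lit 4))
    (@En.n l4163 (nat_lit 6337) (nat_lit 14) (nat_lit 6))
    (@En.n l11241 (nat_lit 8608) (nat_lit 1) (nat_lit 12))
    (@En.n l7 (nat_lit 8532) (nat_lit 15) (nat_lit 2))))
  (@Cl.mk (nat_lit 0x40004000b0004000c000c000b000500040004000c0005000c000c0004000c) (nat_lit 0x90238000802103) (nat_lit 16) Lb.e (@T16.mk En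
    (@En.n l27690 (nat_lit 2214) (nat_lit 0) (nat_lit 12))
    (@En.n l7 (nat_lit 6406) (nat_lit 1) (nat_lit 4))
    (@En.n l27691 (nat_lit 8346) (nat_lit 4) (nat_lit 12))
    (@En.n l19709 (nat_lit 8875) (nat_lit 1) (nat_lit 12))
    (@En.i (nat_lit 2316) (nat_lit 4) (nat_lit 5))
    (@En.i (nat_lit 8416) (nat_lit 3) (nat_lit 12))
    (@En.n l1337 (nat_lit 8532) (nat_lit 12) (nat_lit 4))
    (@En.n l7 (nat_lit 8310) (nat_lit 0) (nat_lit 4))
    (@En.n l700 (nat_lit 6336) (nat_lit 0) (nat_lit 5))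
    (@En.n l217 (nat_lit 8606) (nat_lit 5) (nat_lit 11))
    (@En.n l644 (nat_lit 8578) (nat_lit 4) (nat_lit 12))
    (@En.n l9448 (nat_lit 8520) (nat_lit 2) (nat_lit 12))
    (@En.i (nat_lit 8350) (nat_lit 4) (nat_lit 4))
    (@En.n l27692 (nat_lit 11886) (nat_lit 0) (nat_lit 11))
    (@En.n l27693 (nat_lit 8527) (nat_lit 12) (nat_lit 4))
    (@En.n l27694 (nat_lit 9746) (nat_lit 0) (nat_lit 4))))
  (@Cl.mk (nat_lit 0x2000a00060004000c000b000b00060004000c00050005000a0004000e000c) (nat_lit 0x500990007008068) (nat_lit 16) Lb.e (@T16.mk En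
    (@En.n l3230 (nat_lit 8374) (nat_lit 3) (nat_lit 12))
    (@En.n l9448 (nat_lit 7004) (nat_lit 1) (nat_lit 14))
    (@En.n l23532 (nat_lit 8569) (nat_lit 2) (nat_lit 4))
    (@En.n l23533 (nat_lit 8763) (nat_lit 3) (nat_lit 10))
    (@En.n l9272 (nat_lit 8524) (nat_lit 11) (nat_lit 5))
    (@En.n l3851 (nat_lit 8933) (nat_lit 5) (nat_lit 5))
    (@En.n l23534 (nat_lit 7756) (nat_lit 7) (nat_lit 12))
    (@En.i (nat_lit 8532) (nat_lit 7) (nat_lit 4))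
    (@En.n l23535 (nat_lit 9006) (nat_lit 8) (nat_lit 6))
    (@En.n l9279 (nat_lit 8565) (nat_lit 5) (nat_lit 11))
    (@En.n l3518 (nat_lit 10527) (nat_lit 11) (nat_lit 11))
    (@En.n l23536 (nat_lit 6618) (nat_lit 12) (nat_lit 12))
    (@En.i (nat_lit 8535) (nat_lit 13) (nat_lit 4))
    (@En.n l23537 (nat_lit 6335) (nat_lit 14) (nat_lit 6))
    (@En.n l19429 (nat_lit 9435) (nat_lit 1) (nat_lit 10))
    (@En.n l7 (nat_lit 8534) (nat_lit 15) (nat_lit 2))))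
  (@Cl.mk (nat_lit 0x3000b0004000c000b000b00050004000c00050005000c0004000d000c0004) (nat_lit 0x602740090080b20) (nat_lit 16) Lb.e (@T16.mk En
    (@En.i (nat_lit 7537) (nat_lit 0) (nat_lit 4))
    (@En.n l644 (nat_lit 8330) (nat_lit 4) (nat_lit 12))
    (@En.n l9448 (nat_lit 5998) (nat_lit 1) (nat_lit 13))
    (@En.i (nat_lit 8481) (nat_lit 3) (nat_lit 4))
    (@En.n l899 (nat_lit 9174) (nat_lit 0) (nat_lit 12))
    (@En.n l9272 (nat_lit 8528) (nat_lit 11) (nat_lit 5))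
    (@En.n l3851 (nat_lit 9968) (nat_lit 6) (nat_lit 5))
    (@En.n l18470 (nat_lit 8608) (nat_lit 8) (nat_lit 12))
    (@En.i (nat_lit 8308) (nat_lit 12) (nat_lit 4))
    (@En.n l61 (nat_lit 9138) (nat_lit 9) (nat_lit 5))
    (@En.n l9279 (nat_lit 8241) (nat_lit 5) (nat_lit 11))
    (@En.n l3518 (nat_lit 9168) (nat_lit 5) (nat_lit 11))
    (@En.n l18 (nat_lit 2796) (nat_lit 13) (nat_lit 12))
    (@En.i (nat_lit 8374) (nat_lit 14) (nat_lit 4))
    (@En.i (nat_lit 9440) (nat_lit 0) (nat_lit 11))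
    (@En.n l7 (nat_lit 8599) (nat_lit 15) (nat_lit 3))))
  (@Cl.mk (nat_lit 0x2000c00080004000c0004000b000b0004000c0008000500050004000e000c) (nat_lit 0x830909103200061) (nat_lit 16) Lb.e (@T16.mk En
    (@En.n l3230 (nat_lit 8350) (nat_lit 3) (nat_lit 12))
    (@En.n l25125 (nat_lit 8225) (nat_lit 1) (nat_lit 14))
    (@En.n l3535 (nat_lit 8537) (nat_lit 2) (nat_lit 4))
    (@En.n l152 (nat_lit 8522) (nat_lit 11) (nat_lit 5))
    (@En.n l3912 (nat_lit 8541) (nat_lit 4) (nat_lit 5))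
    (@En.i (nat_lit 2414) (nat_lit 5) (nat_lit 8))
    (@En.n l3912 (nat_lit 2208) (nat_lit 7) (nat_lit 12))
    (@En.n l15739 (nat_lit 9182) (nat_lit 7) (nat_lit 4))
    (@En.n l25126 (nat_lit 8347) (nat_lit 5) (nat_lit 11))
    (@En.n l9451 (nat_lit 9186) (nat_lit 10) (nat_lit 11))
    (@En.n l2353 (nat_lit 7917) (nat_lit 10) (nat_lit 4))
    (@En.n l3912 (nat_lit 6808) (nat_lit 12) (nat_lit 12))
    (@En.i (nat_lit 8487) (nat_lit 1) (nat_lit 4))
    (@En.n l3912 (nat_lit 2342) (nat_lit 14) (nat_lit 8))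
    (@En.n l25127 (nat_lit 7905) (nat_lit 1) (nat_lit 12))
    (@En.n l7 (nat_lit 8536) (nat_lit 15) (nat_lit 2))))
  (@Cl.mk (nat_lit 0x2000c00070004000c0004000a000d0004000c0003000900060004000e000c) (nat_lit 0x500303303050050) (nat_lit 16) Lb.e (@T16.mk En
    (@En.n l55 (nat_lit 8545) (nat_lit 11) (nat_lit 12))
    (@En.n l17781 (nat_lit 10854) (nat_lit 1) (nat_lit 14))
    (@En.n l3480 (nat_lit 8532) (nat_lit 2) (nat_lit 4))
    (@En.n l20276 (nat_lit 8539) (nat_lit 3) (nat_lit 6))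
    (@En.n l17781 (nat_lit 11888) (nat_lit 4) (nat_lit 9))
    (@En.n l19561 (nat_lit 8538) (nat_lit 5) (nat_lit 3))
    (@En.n l3633 (nat_lit 889) (nat_lit 0) (nat_lit 12))
    (@En.n l31825 (nat_lit 10528) (nat_lit 7) (nat_lit 4))
    (@En.i (nat_lit 9000) (nat_lit 5) (nat_lit 13))
    (@En.n l7644 (nat_lit 12696) (nat_lit 10) (nat_lit 10))
    (@En.n l17781 (nat_lit 7160) (nat_lit 10) (nat_lit 4))
    (@En.n l10192 (nat_lit 6725) (nat_lit 12) (nat_lit 12))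
    (@En.i (nat_lit 9095) (nat_lit 1) (nat_lit 4))
    (@En.n l17781 (nat_lit 6268) (nat_lit 14) (nat_lit 7))
    (@En.n l31826 (nat_lit 10319) (nat_lit 9) (nat_lit 12))
    (@En.n l11 (nat_lit 8537) (nat_lit 15) (nat_lit 2))))
  (@Cl.mk (nat_lit 0x2000c00070004000b0004000a000d000b00050003000900060005000e000c) (nat_lit 0x400704220050040) (nat_lit 16) Lb.e (@T16.mk En
    (@En.n l22524 (nat_lit 8544) (nat_lit 11) (nat_lit 12))
    (@En.i (nat_lit 10853) (nat_lit 1) (nat_lit 14))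
    (@En.n l4542 (nat_lit 9740) (nat_lit 2) (nat_lit 5))
    (@En.n l17 (nat_lit 8540) (nat_lit 3) (nat_lit 6))
    (@En.i (nat_lit 11157) (nat_lit 4) (nat_lit 9))
    (@En.n l16719 (nat_lit 8537) (nat_lit 5) (nat_lit 3))
    (@En.n l97 (nat_lit 5672) (nat_lit 0) (nat_lit 5))
    (@En.n l19609 (nat_lit 8536) (nat_lit 8) (nat_lit 11))
    (@En.n l16722 (nat_lit 8999) (nat_lit 5) (nat_lit 13))
    (@En.n l28100 (nat_lit 12700) (nat_lit 10) (nat_lit 10))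
    (@En.n l50 (nat_lit 7162) (nat_lit 10) (nat_lit 4))
    (@En.i (nat_lit 8208) (nat_lit 12) (nat_lit 11))
    (@En.n l4542 (nat_lit 8549) (nat_lit 1) (nat_lit 4))
    (@En.i (nat_lit 6259) (nat_lit 14) (nat_lit 7))
    (@En.n l19384 (nat_lit 10315) (nat_lit 1) (nat_lit 12))
    (@En.n l28 (nat_lit 8538) (nat_lit 15) (nat_lit 2))))
  (@Cl.mk (nat_lit 0x2000c000b0004000b0004000a0005000d0005000d000300060003000e000c) (nat_lit 0x30304040200048) (nat_lit 16) Lb.e (@T16.mk En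
    (@En.i (nat_lit 8542) (nat_lit 12) (nat_lit 12))
    (@En.i (nat_lit 10856) (nat_lit 1) (nat_lit 14))
    (@En.n l3291 (nat_lit 8541) (nat_lit 2) (nat_lit 3))
    (@En.i (nat_lit 9123) (nat_lit 12) (nat_lit 6))
    (@En.n l2869 (nat_lit 8540) (nat_lit 4) (nat_lit 3))
    (@En.n l5931 (nat_lit 2661) (nat_lit 0) (nat_lit 13))
    (@En.i (nat_lit 9191) (nat_lit 6) (nat_lit 5))
    (@En.n l6238 (nat_lit 8537) (nat_lit 8) (nat_lit 13))
    (@En.n l4961 (nat_lit 7695) (nat_lit 8) (nat_lit 5))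
    (@En.n l5931 (nat_lit 12695) (nat_lit 10) (nat_lit 10))
    (@En.i (nat_lit 7912) (nat_lit 10) (nat_lit 4))
    (@En.n l5933 (nat_lit 6732) (nat_lit 12) (nat_lit 11))
    (@En.n l26068 (nat_lit 8547) (nat_lit 7) (nat_lit 4))
    (@En.n l55 (nat_lit 6143) (nat_lit 14) (nat_lit 11))
    (@En.i (nat_lit 10325) (nat_lit 10) (nat_lit 12))
    (@En.n l3 (nat_lit 8539) (nat_lit 15) (nat_lit 2))))
  (@Cl.mk (nat_lit 0x2000c000b0004000a0004000a0005000d000c0006000300060004000e000c) (nat_lit 0x410704032000038) (nat_lit 16) Lb.e (@T16.mk En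
    (@En.n l649 (nat_lit 8543) (nat_lit 12) (nat_lit 12))
    (@En.i (nat_lit 10855) (nat_lit 1) (nat_lit 14))
    (@En.i (nat_lit 8554) (nat_lit 2) (nat_lit 4))
    (@En.i (nat_lit 11564) (nat_lit 3) (nat_lit 6))
    (@En.n l1865 (nat_lit 8539) (nat_lit 4) (nat_lit 3))
    (@En.n l97 (nat_lit 5670) (nat_lit 0) (nat_lit 6))
    (@En.n l3866 (nat_lit 8541) (nat_lit 7) (nat_lit 12))
    (@En.i (nat_lit 8538) (nat_lit 8) (nat_lit 13))
    (@En.n l50 (nat_lit 9107) (nat_lit 8) (nat_lit 5))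
    (@En.i (nat_lit 12697) (nat_lit 10) (nat_lit 10))
    (@En.n l50 (nat_lit 7911) (nat_lit 10) (nat_lit 4))
    (@En.i (nat_lit 8205) (nat_lit 12) (nat_lit 10))
    (@En.i (nat_lit 8548) (nat_lit 7) (nat_lit 4))
    (@En.n l217 (nat_lit 5658) (nat_lit 14) (nat_lit 11))
    (@En.i (nat_lit 10318) (nat_lit 10) (nat_lit 12))
    (@En.n l28 (nat_lit 8540) (nat_lit 15) (nat_lit 2))))
  (@Cl.mk (nat_lit 0x2000c000b0004000b0004000b0005000c0005000d000500040003000e000c) (nat_lit 0x30809010200048) (nat_lit 16) Lb.e (@T16.mk En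
    (@En.n l2921 (nat_lit 8546) (nat_lit 14) (nat_lit 12))
    (@En.n l97 (nat_lit 9563) (nat_lit 1) (nat_lit 14))
    (@En.n l2101 (nat_lit 8539) (nat_lit 2) (nat_lit 3))
    (@En.n l2921 (nat_lit 8297) (nat_lit 3) (nat_lit 4))
    (@En.n l1290 (nat_lit 9747) (nat_lit 4) (nat_lit 5))
    (@En.i (nat_lit 833) (nat_lit 6) (nat_lit 13))
    (@En.n l61 (nat_lit 9188) (nat_lit 6) (nat_lit 5))
    (@En.n l3727 (nat_lit 8532) (nat_lit 8) (nat_lit 12))
    (@En.n l12442 (nat_lit 8289) (nat_lit 8) (nat_lit 5))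
    (@En.n l3540 (nat_lit 12460) (nat_lit 10) (nat_lit 11))
    (@En.n l28 (nat_lit 7913) (nat_lit 10) (nat_lit 4))
    (@En.i (nat_lit 6733) (nat_lit 12) (nat_lit 11))
    (@En.n l3727 (nat_lit 8696) (nat_lit 1) (nat_lit 4))
    (@En.n l77 (nat_lit 6156) (nat_lit 14) (nat_lit 11))
    (@En.i (nat_lit 10539) (nat_lit 12) (nat_lit 12))
    (@En.n l107 (nat_lit 8541) (nat_lit 15) (nat_lit 2))))
  (@Cl.mk (nat_lit 0x300060003000c000c000b000a00040004000b0005000a0006000d0005000d) (nat_lit 0x7703004050402) (nat_lit 16) Lb.e (@T16.mk En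
    (@En.i (nat_lit 2659) (nat_lit 0) (nat_lit 13))
    (@En.i (nat_lit 11832) (nat_lit 3) (nat_lit 5))
    (@En.n l6210 (nat_lit 8545) (nat_lit 2) (nat_lit 13))
    (@En.n l4961 (nat_lit 9105) (nat_lit 3) (nat_lit 6))
    (@En.n l134 (nat_lit 12694) (nat_lit 4) (nat_lit 10))
    (@En.i (nat_lit 7051) (nat_lit 5) (nat_lit 5))
    (@En.n l476 (nat_lit 9702) (nat_lit 9) (nat_lit 11))
    (@En.n l152 (nat_lit 8539) (nat_lit 12) (nat_lit 4))
    (@En.n l37247 (nat_lit 8605) (nat_lit 8) (nat_lit 4))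
    (@En.n l55 (nat_lit 6142) (nat_lit 0) (nat_lit 10))
    (@En.n l619 (nat_lit 9093) (nat_lit 11) (nat_lit 11))
    (@En.n l24909 (nat_lit 12718) (nat_lit 4) (nat_lit 12))
    (@En.i (nat_lit 11772) (nat_lit 13) (nat_lit 12))
    (@En.n l2364 (nat_lit 8546) (nat_lit 15) (nat_lit 3))
    (@En.i (nat_lit 9119) (nat_lit 12) (nat_lit 6))
    (@En.i (nat_lit 8543) (nat_lit 15) (nat_lit 3))))
  (@Cl.mk (nat_lit 0x300060004000c000c000b000a00040004000a0005000a0006000d000c0006) (nat_lit 0x7001002050430) (nat_lit 16) Lb.e (@T16.mk En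
    (@En.n l2805 (nat_lit 5674) (nat_lit 0) (nat_lit 6))
    (@En.n l6444 (nat_lit 8546) (nat_lit 4) (nat_lit 12))
    (@En.n l40520 (nat_lit 8544) (nat_lit 2) (nat_lit 13))
    (@En.n l14016 (nat_lit 9106) (nat_lit 3) (nat_lit 6))
    (@En.n l134 (nat_lit 12440) (nat_lit 4) (nat_lit 10))
    (@En.i (nat_lit 7122) (nat_lit 5) (nat_lit 5))
    (@En.n l2869 (nat_lit 9714) (nat_lit 7) (nat_lit 10))
    (@En.n l8258 (nat_lit 8540) (nat_lit 12) (nat_lit 4))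
    (@En.n l40520 (nat_lit 9091) (nat_lit 8) (nat_lit 4))
    (@En.n l39603 (nat_lit 5659) (nat_lit 0) (nat_lit 10))
    (@En.n l3522 (nat_lit 9092) (nat_lit 11) (nat_lit 11))
    (@En.n l24909 (nat_lit 12717) (nat_lit 4) (nat_lit 12))
    (@En.i (nat_lit 11771) (nat_lit 13) (nat_lit 12))
    (@En.n l11386 (nat_lit 8520) (nat_lit 4) (nat_lit 4))
    (@En.i (nat_lit 11561) (nat_lit 12) (nat_lit 6))
    (@En.n l18 (nat_lit 8542) (nat_lit 15) (nat_lit 3))))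
noncomputable def a534 : T16 Cl := @T16.mk Cl
  (@Cl.mk (nat_lit 0x3000a00060005000c000c000b000600040004000b0005000a000d000b0005) (nat_lit 0x500a03000205320) (nat_lit 16) Lb.e (@T16.mk En
    (@En.n l21046 (nat_lit 5677) (nat_lit 0) (nat_lit 5))
    (@En.n l42553 (nat_lit 8350) (nat_lit 10) (nat_lit 11))
    (@En.n l3866 (nat_lit 8084) (nat_lit 5) (nat_lit 13))
    (@En.n l42554 (nat_lit 12707) (nat_lit 3) (nat_lit 10))
    (@En.n l50 (nat_lit 5313) (nat_lit 4) (nat_lit 5))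
    (@En.n l830 (nat_lit 9726) (nat_lit 0) (nat_lit 11))
    (@En.n l23354 (nat_lit 8538) (nat_lit 12) (nat_lit 4))
    (@En.i (nat_lit 8604) (nat_lit 0) (nat_lit 4))
    (@En.n l16416 (nat_lit 6256) (nat_lit 0) (nat_lit 6))
    (@En.n l2337 (nat_lit 9084) (nat_lit 5) (nat_lit 11))
    (@En.n l601 (nat_lit 12715) (nat_lit 4) (nat_lit 12))
    (@En.n l42555 (nat_lit 11773) (nat_lit 12) (nat_lit 12))
    (@En.i (nat_lit 8590) (nat_lit 11) (nat_lit 5))
    (@En.n l42556 (nat_lit 8543) (nat_lit 14) (nat_lit 6))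
    (@En.n l42557 (nat_lit 11158) (nat_lit 1) (nat_lit 10))
    (@En.n l3536 (nat_lit 8545) (nat_lit 15) (nat_lit 3))))
  (@Cl.mk (nat_lit 0x3000a00060004000c000c000b000600040004000c0005000a000d0004000c) (nat_lit 0x500a00000405303) (nat_lit 16) Lb.e (@T16.mk En
    (@En.i (nat_lit 888) (nat_lit 0) (nat_lit 12))
    (@En.n l33188 (nat_lit 10531) (nat_lit 9) (nat_lit 4))
    (@En.i (nat_lit 8082) (nat_lit 5) (nat_lit 13))
    (@En.n l7136 (nat_lit 12678) (nat_lit 3) (nat_lit 10))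
    (@En.n l15346 (nat_lit 7050) (nat_lit 4) (nat_lit 5))
    (@En.n l6370 (nat_lit 9699) (nat_lit 0) (nat_lit 12))
    (@En.n l1577 (nat_lit 8537) (nat_lit 12) (nat_lit 4))
    (@En.i (nat_lit 8601) (nat_lit 0) (nat_lit 4))
    (@En.n l15346 (nat_lit 5944) (nat_lit 0) (nat_lit 6))
    (@En.n l457 (nat_lit 9094) (nat_lit 5) (nat_lit 11))
    (@En.n l1578 (nat_lit 12716) (nat_lit 4) (nat_lit 12))
    (@En.i (nat_lit 11774) (nat_lit 12) (nat_lit 12))
    (@En.n l33845 (nat_lit 8533) (nat_lit 12) (nat_lit 4))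
    (@En.n l15349 (nat_lit 8542) (nat_lit 14) (nat_lit 6))
    (@En.n l15346 (nat_lit 11887) (nat_lit 1) (nat_lit 10))
    (@En.n l6081 (nat_lit 8544) (nat_lit 15) (nat_lit 3))))
  (@Cl.mk (nat_lit 0x3000c000c000b000a00040004000b0005000b0006000c0005000d00050004) (nat_lit 0x710300804020200) (nat_lit 16) Lb.e (@T16.mk En
    (@En.i (nat_lit 8510) (nat_lit 0) (nat_lit 4))
    (@En.n l1545 (nat_lit 9748) (nat_lit 0) (nat_lit 5))
    (@En.n l2026 (nat_lit 831) (nat_lit 1) (nat_lit 13))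
    (@En.n l41149 (nat_lit 9192) (nat_lit 3) (nat_lit 5))
    (@En.n l28139 (nat_lit 8533) (nat_lit 2) (nat_lit 12))
    (@En.n l31114 (nat_lit 9109) (nat_lit 5) (nat_lit 6))
    (@En.n l41150 (nat_lit 12459) (nat_lit 12) (nat_lit 11))
    (@En.i (nat_lit 6880) (nat_lit 7) (nat_lit 5))
    (@En.n l41151 (nat_lit 9707) (nat_lit 9) (nat_lit 11))
    (@En.n l6316 (nat_lit 8541) (nat_lit 12) (nat_lit 4))
    (@En.n l19931 (nat_lit 8702) (nat_lit 0) (nat_lit 4))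
    (@En.n l55 (nat_lit 6108) (nat_lit 0) (nat_lit 10))
    (@En.n l41152 (nat_lit 8697) (nat_lit 5) (nat_lit 11))
    (@En.n l38554 (nat_lit 8521) (nat_lit 4) (nat_lit 12))
    (@En.n l28247 (nat_lit 9711) (nat_lit 3) (nat_lit 12))
    (@En.n l763 (nat_lit 8542) (nat_lit 13) (nat_lit 3))))
  (@Cl.mk (nat_lit 0x300060003000d000c00090003000d0004000b0003000a0007000d0005000d) (nat_lit 0x6800902020a01) (nat_lit 16) Lb.e (@T16.mk En
    (@En.i (nat_lit 2328) (nat_lit 0) (nat_lit 13))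
    (@En.i (nat_lit 11831) (nat_lit 7) (nat_lit 5))
    (@En.n l3 (nat_lit 9095) (nat_lit 13) (nat_lit 13))
    (@En.n l31688 (nat_lit 9397) (nat_lit 14) (nat_lit 7))
    (@En.n l7644 (nat_lit 11823) (nat_lit 11) (nat_lit 10))
    (@En.n l20276 (nat_lit 9093) (nat_lit 5) (nat_lit 3))
    (@En.n l710 (nat_lit 9581) (nat_lit 0) (nat_lit 11))
    (@En.n l31690 (nat_lit 8542) (nat_lit 7) (nat_lit 4))
    (@En.n l1080 (nat_lit 10324) (nat_lit 9) (nat_lit 13))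
    (@En.n l11 (nat_lit 9090) (nat_lit 9) (nat_lit 3))
    (@En.n l31688 (nat_lit 11309) (nat_lit 0) (nat_lit 9))
    (@En.n l55 (nat_lit 8605) (nat_lit 12) (nat_lit 12))
    (@En.n l20276 (nat_lit 10718) (nat_lit 13) (nat_lit 13))
    (@En.n l21124 (nat_lit 8696) (nat_lit 7) (nat_lit 3))
    (@En.n l20276 (nat_lit 9116) (nat_lit 12) (nat_lit 6))
    (@En.n l43565 (nat_lit 8548) (nat_lit 15) (nat_lit 3))))
  (@Cl.mk (nat_lit 0x300060004000d000c00090003000d0004000a0003000a0007000d000c0006) (nat_lit 0x2000300050b30) (nat_lit 16) Lb.e (@T16.mk En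
    (@En.n l97 (nat_lit 11903) (nat_lit 0) (nat_lit 6))
    (@En.n l19609 (nat_lit 8696) (nat_lit 12) (nat_lit 12))
    (@En.n l4542 (nat_lit 8549) (nat_lit 13) (nat_lit 13))
    (@En.n l27765 (nat_lit 9398) (nat_lit 14) (nat_lit 7))
    (@En.i (nat_lit 12432) (nat_lit 11) (nat_lit 10))
    (@En.n l50 (nat_lit 9092) (nat_lit 5) (nat_lit 3))
    (@En.i (nat_lit 9559) (nat_lit 0) (nat_lit 10))
    (@En.n l3528 (nat_lit 8543) (nat_lit 7) (nat_lit 4))
    (@En.n l18065 (nat_lit 10321) (nat_lit 9) (nat_lit 13))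
    (@En.n l19709 (nat_lit 9088) (nat_lit 9) (nat_lit 3))
    (@En.n l27765 (nat_lit 11310) (nat_lit 0) (nat_lit 9))
    (@En.n l22524 (nat_lit 9091) (nat_lit 12) (nat_lit 12))
    (@En.i (nat_lit 10831) (nat_lit 13) (nat_lit 13))
    (@En.n l4542 (nat_lit 8694) (nat_lit 7) (nat_lit 4))
    (@En.i (nat_lit 4174) (nat_lit 12) (nat_lit 6))
    (@En.n l36901 (nat_lit 8547) (nat_lit 15) (nat_lit 3))))
  (@Cl.mk (nat_lit 0x3000a000d000b00050003000b00060005000d000c00050003000d0004000b) (nat_lit 0x5a200000b000300) (nat_lit 16) Lb.e (@T16.mk En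
    (@En.i (nat_lit 9558) (nat_lit 0) (nat_lit 11))
    (@En.n l7 (nat_lit 8544) (nat_lit 6) (nat_lit 4))
    (@En.n l5369 (nat_lit 10317) (nat_lit 2) (nat_lit 13))
    (@En.n l7 (nat_lit 9087) (nat_lit 3) (nat_lit 3))
    (@En.i (nat_lit 10223) (nat_lit 0) (nat_lit 5))
    (@En.n l644 (nat_lit 8604) (nat_lit 4) (nat_lit 12))
    (@En.n l9956 (nat_lit 10159) (nat_lit 2) (nat_lit 13))
    (@En.i (nat_lit 10194) (nat_lit 11) (nat_lit 5))
    (@En.n l17439 (nat_lit 8548) (nat_lit 14) (nat_lit 6))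
    (@En.i (nat_lit 10476) (nat_lit 10) (nat_lit 11))
    (@En.n l3536 (nat_lit 9095) (nat_lit 10) (nat_lit 3))
    (@En.i (nat_lit 11902) (nat_lit 0) (nat_lit 5))
    (@En.n l68 (nat_lit 8487) (nat_lit 13) (nat_lit 11))
    (@En.n l3866 (nat_lit 8490) (nat_lit 5) (nat_lit 13))
    (@En.n l16865 (nat_lit 12410) (nat_lit 11) (nat_lit 10))
    (@En.i (nat_lit 9084) (nat_lit 15) (nat_lit 3))))
  (@Cl.mk (nat_lit 0x2000500080004000c000c000b000a0004000400080005000b0006000e000c) (nat_lit 0x10911300405051) (nat_lit 16) Lb.e (@T16.mk En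
    (@En.n l6108 (nat_lit 8520) (nat_lit 9) (nat_lit 12))
    (@En.n l27061 (nat_lit 8197) (nat_lit 1) (nat_lit 14))
    (@En.n l50 (nat_lit 8957) (nat_lit 2) (nat_lit 6))
    (@En.n l9760 (nat_lit 8198) (nat_lit 3) (nat_lit 11))
    (@En.n l50 (nat_lit 7476) (nat_lit 4) (nat_lit 5))
    (@En.n l287 (nat_lit 8441) (nat_lit 5) (nat_lit 8))
    (@En.n l55 (nat_lit 8551) (nat_lit 6) (nat_lit 4))
    (@En.n l11663 (nat_lit 8156) (nat_lit 7) (nat_lit 4))
    (@En.n l9762 (nat_lit 5990) (nat_lit 9) (nat_lit 10))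
    (@En.n l134 (nat_lit 7483) (nat_lit 10) (nat_lit 11))
    (@En.i (nat_lit 8193) (nat_lit 11) (nat_lit 12))
    (@En.i (nat_lit 11735) (nat_lit 12) (nat_lit 12))
    (@En.n l2221 (nat_lit 8543) (nat_lit 13) (nat_lit 4))
    (@En.n l617 (nat_lit 3298) (nat_lit 10) (nat_lit 8))
    (@En.i (nat_lit 4178) (nat_lit 13) (nat_lit 5))
    (@En.n l3 (nat_lit 8550) (nat_lit 15) (nat_lit 2))))
  (@Cl.mk (nat_lit 0x2000500080004000e000c0002000c000b000400080004000b0005000e000c) (nat_lit 0x30ca0430309096) (nat_lit 16) Lb.e (@T16.mk En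
    (@En.i (nat_lit 8554) (nat_lit 7) (nat_lit 12))
    (@En.i (nat_lit 8552) (nat_lit 1) (nat_lit 14))
    (@En.n l50 (nat_lit 8557) (nat_lit 2) (nat_lit 5))
    (@En.n l5 (nat_lit 8553) (nat_lit 3) (nat_lit 11))
    (@En.n l50 (nat_lit 7478) (nat_lit 4) (nat_lit 4))
    (@En.i (nat_lit 3500) (nat_lit 5) (nat_lit 8))
    (@En.i (nat_lit 10976) (nat_lit 6) (nat_lit 4))
    (@En.n l217 (nat_lit 5989) (nat_lit 8) (nat_lit 11))
    (@En.i (nat_lit 12464) (nat_lit 9) (nat_lit 12))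
    (@En.n l28 (nat_lit 8551) (nat_lit 9) (nat_lit 2))
    (@En.i (nat_lit 8550) (nat_lit 11) (nat_lit 12))
    (@En.i (nat_lit 5237) (nat_lit 12) (nat_lit 14))
    (@En.n l117 (nat_lit 8540) (nat_lit 2) (nat_lit 4))
    (@En.n l617 (nat_lit 5121) (nat_lit 10) (nat_lit 8))
    (@En.i (nat_lit 11565) (nat_lit 4) (nat_lit 5))
    (@En.n l3 (nat_lit 8551) (nat_lit 15) (nat_lit 2))))
  (@Cl.mk (nat_lit 0x20008000500080005000e000c0002000c0008000400080004000b000e000b) (nat_lit 0x505011004030385) (nat_lit 16) Lb.e (@T16.mk En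
    (@En.n l4542 (nat_lit 8294) (nat_lit 8) (nat_lit 11))
    (@En.i (nat_lit 9222) (nat_lit 4) (nat_lit 14))
    (@En.i (nat_lit 8555) (nat_lit 10) (nat_lit 11))
    (@En.n l50 (nat_lit 7479) (nat_lit 3) (nat_lit 4))
    (@En.i (nat_lit 3499) (nat_lit 4) (nat_lit 8))
    (@En.n l1459 (nat_lit 10972) (nat_lit 5) (nat_lit 4))
    (@En.i (nat_lit 1964) (nat_lit 14) (nat_lit 8))
    (@En.n l3327 (nat_lit 12467) (nat_lit 8) (nat_lit 12))
    (@En.n l28 (nat_lit 8552) (nat_lit 8) (nat_lit 2))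
    (@En.n l27061 (nat_lit 8197) (nat_lit 10) (nat_lit 12))
    (@En.i (nat_lit 5238) (nat_lit 11) (nat_lit 14))
    (@En.n l117 (nat_lit 8538) (nat_lit 2) (nat_lit 5))
    (@En.n l617 (nat_lit 8956) (nat_lit 13) (nat_lit 8))
    (@En.n l17 (nat_lit 8551) (nat_lit 14) (nat_lit 5))
    (@En.i (nat_lit 8560) (nat_lit 5) (nat_lit 8))
    (@En.n l3 (nat_lit 8552) (nat_lit 15) (nat_lit 2))))
  (@Cl.mk (nat_lit 0x20005000a00080005000e000c00020006000c00040008000b0004000e000b) (nat_lit 0x840c1003028075) (nat_lit 16) Lb.e (@T16.mk En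
    (@En.n l387 (nat_lit 8559) (nat_lit 8) (nat_lit 11))
    (@En.n l1738 (nat_lit 8555) (nat_lit 9) (nat_lit 14))
    (@En.i (nat_lit 8556) (nat_lit 9) (nat_lit 4))
    (@En.n l7058 (nat_lit 12567) (nat_lit 3) (nat_lit 11))
    (@En.n l387 (nat_lit 3498) (nat_lit 4) (nat_lit 8))
    (@En.i (nat_lit 10975) (nat_lit 5) (nat_lit 4))
    (@En.i (nat_lit 5991) (nat_lit 7) (nat_lit 12))
    (@En.n l766 (nat_lit 11684) (nat_lit 7) (nat_lit 6))
    (@En.n l28 (nat_lit 8553) (nat_lit 8) (nat_lit 2))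
    (@En.n l134 (nat_lit 8198) (nat_lit 10) (nat_lit 12))
    (@En.n l1253 (nat_lit 5266) (nat_lit 11) (nat_lit 14))
    (@En.n l9462 (nat_lit 12697) (nat_lit 2) (nat_lit 5))
    (@En.n l2593 (nat_lit 8551) (nat_lit 13) (nat_lit 8))
    (@En.n l1738 (nat_lit 8558) (nat_lit 4) (nat_lit 10))
    (@En.i (nat_lit 11569) (nat_lit 5) (nat_lit 5))
    (@En.n l3 (nat_lit 8553) (nat_lit 15) (nat_lit 2))))
  (@Cl.mk (nat_lit 0x2000c000b000400090004000c0005000c000c0004000700040004000e000c) (nat_lit 0x330309051000029) (nat_lit 16) Lb.e (@T16.mk En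
    (@En.n l6108 (nat_lit 8520) (nat_lit 3) (nat_lit 12))
    (@En.n l3928 (nat_lit 9562) (nat_lit 1) (nat_lit 14))
    (@En.n l152 (nat_lit 8551) (nat_lit 12) (nat_lit 4))
    (@En.n l3851 (nat_lit 8541) (nat_lit 3) (nat_lit 4))
    (@En.n l617 (nat_lit 5122) (nat_lit 11) (nat_lit 7))
    (@En.i (nat_lit 9744) (nat_lit 5) (nat_lit 4))
    (@En.n l13561 (nat_lit 8297) (nat_lit 7) (nat_lit 12))
    (@En.n l4542 (nat_lit 9740) (nat_lit 8) (nat_lit 12))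
    (@En.i (nat_lit 8286) (nat_lit 8) (nat_lit 5))
    (@En.n l612 (nat_lit 8559) (nat_lit 10) (nat_lit 12))
    (@En.n l50 (nat_lit 7484) (nat_lit 10) (nat_lit 4))
    (@En.i (nat_lit 3476) (nat_lit 12) (nat_lit 9))
    (@En.n l4542 (nat_lit 8694) (nat_lit 1) (nat_lit 4))
    (@En.n l217 (nat_lit 5999) (nat_lit 14) (nat_lit 11))
    (@En.n l4172 (nat_lit 12461) (nat_lit 1) (nat_lit 12))
    (@En.n l28 (nat_lit 8554) (nat_lit 15) (nat_lit 2))))
  (@Cl.mk (nat_lit 0x20006000900040008000b000e000a000200070005000a00080006000e000c) (nat_lit 0x402264000860c1) (nat_lit 16) Lb.e (@T16.mk En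
    (@En.n l17924 (nat_lit 8196) (nat_lit 9) (nat_lit 12))
    (@En.n l250 (nat_lit 5267) (nat_lit 10) (nat_lit 14))
    (@En.n l17925 (nat_lit 12700) (nat_lit 2) (nat_lit 6))
    (@En.n l776 (nat_lit 8552) (nat_lit 12) (nat_lit 8))
    (@En.i (nat_lit 8556) (nat_lit 4) (nat_lit 10))
    (@En.n l815 (nat_lit 8553) (nat_lit 14) (nat_lit 5))
    (@En.n l5649 (nat_lit 8561) (nat_lit 6) (nat_lit 7))
    (@En.n l3 (nat_lit 8555) (nat_lit 7) (nat_lit 2))
    (@En.n l17926 (nat_lit 8296) (nat_lit 9) (nat_lit 10))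
    (@En.n l17927 (nat_lit 5374) (nat_lit 10) (nat_lit 14))
    (@En.n l17928 (nat_lit 12566) (nat_lit 2) (nat_lit 11))
    (@En.n l612 (nat_lit 3497) (nat_lit 3) (nat_lit 8))
    (@En.n l1459 (nat_lit 10973) (nat_lit 4) (nat_lit 4))
    (@En.n l17929 (nat_lit 2071) (nat_lit 5) (nat_lit 9))
    (@En.n l245 (nat_lit 11683) (nat_lit 6) (nat_lit 6))
    (@En.n l28 (nat_lit 8555) (nat_lit 15) (nat_lit 2))))
  (@Cl.mk (nat_lit 0x20006000c0009000500090004000e000b00020007000a00070005000e000b) (nat_lit 0x15030740070011) (nat_lit 16) Lb.e (@T16.mk En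
    (@En.n l27061 (nat_lit 8199) (nat_lit 10) (nat_lit 11))
    (@En.n l1253 (nat_lit 4640) (nat_lit 11) (nat_lit 14))
    (@En.n l15545 (nat_lit 12704) (nat_lit 2) (nat_lit 5))
    (@En.n l387 (nat_lit 8557) (nat_lit 13) (nat_lit 7))
    (@En.n l2114 (nat_lit 9212) (nat_lit 8) (nat_lit 10))
    (@En.n l30869 (nat_lit 8562) (nat_lit 5) (nat_lit 7))
    (@En.n l3 (nat_lit 8556) (nat_lit 6) (nat_lit 2))
    (@En.n l30870 (nat_lit 8292) (nat_lit 8) (nat_lit 11))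
    (@En.n l8114 (nat_lit 5373) (nat_lit 9) (nat_lit 14))
    (@En.n l50 (nat_lit 12509) (nat_lit 2) (nat_lit 4))
    (@En.n l387 (nat_lit 3496) (nat_lit 3) (nat_lit 9))
    (@En.n l15545 (nat_lit 10243) (nat_lit 4) (nat_lit 5))
    (@En.n l827 (nat_lit 8555) (nat_lit 13) (nat_lit 9))
    (@En.i (nat_lit 8552) (nat_lit 7) (nat_lit 12))
    (@En.n l766 (nat_lit 12225) (nat_lit 7) (nat_lit 6))
    (@En.n l28 (nat_lit 8556) (nat_lit 15) (nat_lit 2))))
  (@Cl.mk (nat_lit 0x2000800070004000e000b0002000b000b00080005000900050005000e000c) (nat_lit 0x400240045040093) (nat_lit 16) Lb.e (@T16.mk En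
    (@En.n l644 (nat_lit 8286) (nat_lit 7) (nat_lit 12))
    (@En.i (nat_lit 8966) (nat_lit 1) (nat_lit 14))
    (@En.n l2172 (nat_lit 9208) (nat_lit 2) (nat_lit 5))
    (@En.i (nat_lit 7480) (nat_lit 3) (nat_lit 5))
    (@En.i (nat_lit 3508) (nat_lit 4) (nat_lit 9))
    (@En.n l5806 (nat_lit 8674) (nat_lit 5) (nat_lit 5))
    (@En.n l742 (nat_lit 8552) (nat_lit 6) (nat_lit 8))
    (@En.n l396 (nat_lit 8956) (nat_lit 8) (nat_lit 11))
    (@En.n l5911 (nat_lit 9161) (nat_lit 9) (nat_lit 11))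
    (@En.n l28 (nat_lit 8557) (nat_lit 9) (nat_lit 2))
    (@En.i (nat_lit 8957) (nat_lit 11) (nat_lit 11))
    (@En.i (nat_lit 5228) (nat_lit 1) (nat_lit 14))
    (@En.n l117 (nat_lit 9107) (nat_lit 2) (nat_lit 4))
    (@En.n l2176 (nat_lit 4825) (nat_lit 14) (nat_lit 7))
    (@En.i (nat_lit 11193) (nat_lit 4) (nat_lit 8))
    (@En.n l3 (nat_lit 8557) (nat_lit 15) (nat_lit 2))))
  (@Cl.mk (nat_lit 0x20006000c000c0005000900040004000e000c0002000a00070004000e000b) (nat_lit 0x54040088070079) (nat_lit 16) Lb.e (@T16.mk En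
    (@En.i (nat_lit 9213) (nat_lit 11) (nat_lit 11))
    (@En.n l1253 (nat_lit 4637) (nat_lit 1) (nat_lit 14))
    (@En.n l2464 (nat_lit 9219) (nat_lit 2) (nat_lit 4))
    (@En.n l387 (nat_lit 4820) (nat_lit 14) (nat_lit 7))
    (@En.i (nat_lit 7785) (nat_lit 4) (nat_lit 10))
    (@En.n l3 (nat_lit 8558) (nat_lit 5) (nat_lit 2))
    (@En.n l387 (nat_lit 8954) (nat_lit 7) (nat_lit 12))
    (@En.i (nat_lit 8556) (nat_lit 8) (nat_lit 14))
    (@En.n l1959 (nat_lit 9212) (nat_lit 12) (nat_lit 4))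
    (@En.n l50 (nat_lit 12506) (nat_lit 9) (nat_lit 4))
    (@En.n l387 (nat_lit 3228) (nat_lit 11) (nat_lit 9))
    (@En.n l15179 (nat_lit 10247) (nat_lit 5) (nat_lit 5))
    (@En.n l217 (nat_lit 12808) (nat_lit 13) (nat_lit 12))
    (@En.i (nat_lit 8551) (nat_lit 8) (nat_lit 12))
    (@En.n l766 (nat_lit 9240) (nat_lit 8) (nat_lit 6))
    (@En.n l28 (nat_lit 8558) (nat_lit 15) (nat_lit 2))))
  (@Cl.mk (nat_lit 0x20007000c00040009000c0004000b000b00040009000700050005000e000c) (nat_lit 0x3038042060002a) (nat_lit 16) Lb.e (@T16.mk En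
    (@En.n l13657 (nat_lit 8422) (nat_lit 3) (nat_lit 12))
    (@En.n l18235 (nat_lit 9564) (nat_lit 1) (nat_lit 14))
    (@En.n l3498 (nat_lit 8553) (nat_lit 11) (nat_lit 5))
    (@En.n l15723 (nat_lit 12460) (nat_lit 3) (nat_lit 5))
    (@En.n l644 (nat_lit 8554) (nat_lit 4) (nat_lit 7))
    (@En.n l617 (nat_lit 8954) (nat_lit 5) (nat_lit 9))
    (@En.n l24680 (nat_lit 9752) (nat_lit 6) (nat_lit 4))
    (@En.n l30509 (nat_lit 8760) (nat_lit 8) (nat_lit 11))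
    (@En.n l12194 (nat_lit 9737) (nat_lit 9) (nat_lit 11))
    (@En.n l30109 (nat_lit 8292) (nat_lit 9) (nat_lit 4))
    (@En.n l17025 (nat_lit 12757) (nat_lit 6) (nat_lit 12))
    (@En.i (nat_lit 3477) (nat_lit 12) (nat_lit 9))
    (@En.n l12194 (nat_lit 8153) (nat_lit 13) (nat_lit 4))
    (@En.n l7025 (nat_lit 6000) (nat_lit 14) (nat_lit 12))
    (@En.n l3506 (nat_lit 11741) (nat_lit 1) (nat_lit 7))
    (@En.n l28 (nat_lit 8559) (nat_lit 15) (nat_lit 2))))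
noncomputable def a535 : T16 Cl := @T16.mk Cl
  (@Cl.mk (nat_lit 0x2000b0008000b000500090005000c0005000c0008000400070004000e000b) (nat_lit 0x544040302400080) (nat_lit 16) Lb.e (@T16.mk En
    (@En.i (nat_lit 10961) (nat_lit 12) (nat_lit 11))
    (@En.i (nat_lit 6921) (nat_lit 1) (nat_lit 14))
    (@En.n l117 (nat_lit 11157) (nat_lit 2) (nat_lit 4))
    (@En.n l617 (nat_lit 11189) (nat_lit 11) (nat_lit 7))
    (@En.n l15186 (nat_lit 11566) (nat_lit 4) (nat_lit 4))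
    (@En.n l33407 (nat_lit 10965) (nat_lit 5) (nat_lit 8))
    (@En.n l4542 (nat_lit 4438) (nat_lit 7) (nat_lit 12))
    (@En.n l25037 (nat_lit 11593) (nat_lit 7) (nat_lit 5))
    (@En.n l5649 (nat_lit 8561) (nat_lit 9) (nat_lit 12))
    (@En.n l50 (nat_lit 6585) (nat_lit 9) (nat_lit 5))
    (@En.i (nat_lit 7237) (nat_lit 11) (nat_lit 9))
    (@En.i (nat_lit 10571) (nat_lit 12) (nat_lit 5))
    (@En.i (nat_lit 8551) (nat_lit 7) (nat_lit 11))
    (@En.i (nat_lit 5976) (nat_lit 14) (nat_lit 8))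
    (@En.i (nat_lit 10026) (nat_lit 10) (nat_lit 11))
    (@En.n l28 (nat_lit 8560) (nat_lit 15) (nat_lit 2))))
  (@Cl.mk (nat_lit 0x200060009000c00050009000c0004000b00070004000a00070005000e000b) (nat_lit 0x44042080060080) (nat_lit 16) Lb.e (@T16.mk En
    (@En.n l22924 (nat_lit 8563) (nat_lit 11) (nat_lit 11))
    (@En.n l4659 (nat_lit 6561) (nat_lit 1) (nat_lit 14))
    (@En.n l5588 (nat_lit 12079) (nat_lit 2) (nat_lit 5))
    (@En.n l22925 (nat_lit 8560) (nat_lit 3) (nat_lit 7))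
    (@En.n l22926 (nat_lit 8562) (nat_lit 4) (nat_lit 10))
    (@En.n l21506 (nat_lit 11501) (nat_lit 5) (nat_lit 4))
    (@En.n l1867 (nat_lit 11496) (nat_lit 6) (nat_lit 7))
    (@En.n l1897 (nat_lit 4440) (nat_lit 8) (nat_lit 11))
    (@En.n l22927 (nat_lit 11492) (nat_lit 8) (nat_lit 4))
    (@En.n l1897 (nat_lit 11502) (nat_lit 10) (nat_lit 12))
    (@En.n l17555 (nat_lit 7238) (nat_lit 11) (nat_lit 9))
    (@En.n l3528 (nat_lit 10570) (nat_lit 12) (nat_lit 5))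
    (@En.n l1899 (nat_lit 8553) (nat_lit 6) (nat_lit 12))
    (@En.n l649 (nat_lit 5978) (nat_lit 9) (nat_lit 9))
    (@En.i (nat_lit 10672) (nat_lit 13) (nat_lit 6))
    (@En.n l28 (nat_lit 8561) (nat_lit 15) (nat_lit 2))))
  (@Cl.mk (nat_lit 0x20006000b0009000c0006000a00050004000c0007000a00060004000e000a) (nat_lit 0x65504009050020) (nat_lit 16) Lb.e (@T16.mk En
    (@En.i (nat_lit 9847) (nat_lit 14) (nat_lit 10))
    (@En.n l28732 (nat_lit 6558) (nat_lit 1) (nat_lit 14))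
    (@En.n l18 (nat_lit 12081) (nat_lit 2) (nat_lit 4))
    (@En.n l31670 (nat_lit 11193) (nat_lit 3) (nat_lit 6))
    (@En.i (nat_lit 8028) (nat_lit 4) (nat_lit 10))
    (@En.n l31671 (nat_lit 11495) (nat_lit 5) (nat_lit 7))
    (@En.n l2682 (nat_lit 4441) (nat_lit 7) (nat_lit 12))
    (@En.i (nat_lit 11491) (nat_lit 7) (nat_lit 4))
    (@En.n l31672 (nat_lit 11459) (nat_lit 8) (nat_lit 5))
    (@En.n l31670 (nat_lit 2946) (nat_lit 10) (nat_lit 10))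
    (@En.n l3540 (nat_lit 8840) (nat_lit 11) (nat_lit 6))
    (@En.n l22950 (nat_lit 8558) (nat_lit 12) (nat_lit 12))
    (@En.n l31673 (nat_lit 8561) (nat_lit 13) (nat_lit 9))
    (@En.n l22950 (nat_lit 8560) (nat_lit 14) (nat_lit 11))
    (@En.n l15093 (nat_lit 10673) (nat_lit 13) (nat_lit 6))
    (@En.n l3 (nat_lit 8562) (nat_lit 15) (nat_lit 2))))
  (@Cl.mk (nat_lit 0x4000b00070005000b000b00050008000b000500050009000c0005000b0008) (nat_lit 0x700980220053032) (nat_lit 16) Lb.e (@T16.mk En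
    (@En.n l38515 (nat_lit 10963) (nat_lit 0) (nat_lit 8))
    (@En.n l12012 (nat_lit 6354) (nat_lit 1) (nat_lit 11))
    (@En.n l38516 (nat_lit 11398) (nat_lit 8) (nat_lit 5))
    (@En.n l38517 (nat_lit 11501) (nat_lit 6) (nat_lit 12))
    (@En.n l38518 (nat_lit 8776) (nat_lit 10) (nat_lit 9))
    (@En.n l20492 (nat_lit 8561) (nat_lit 11) (nat_lit 5))
    (@En.i (nat_lit 9845) (nat_lit 0) (nat_lit 5))
    (@En.n l38519 (nat_lit 8198) (nat_lit 7) (nat_lit 11))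
    (@En.n l38517 (nat_lit 5987) (nat_lit 10) (nat_lit 8))
    (@En.n l38520 (nat_lit 11444) (nat_lit 2) (nat_lit 5))
    (@En.n l61 (nat_lit 10969) (nat_lit 5) (nat_lit 11))
    (@En.n l38521 (nat_lit 9849) (nat_lit 1) (nat_lit 11))
    (@En.n l3532 (nat_lit 11177) (nat_lit 2) (nat_lit 5))
    (@En.n l21473 (nat_lit 10961) (nat_lit 14) (nat_lit 7))
    (@En.n l31718 (nat_lit 9847) (nat_lit 1) (nat_lit 11))
    (@En.n l21478 (nat_lit 11552) (nat_lit 15) (nat_lit 4))))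
  (@Cl.mk (nat_lit 0x2000a0005000e000c0002000c00060004000d0004000c0003000b000e0004) (nat_lit 0x80610a0090a0240) (nat_lit 16) Lb.e (@T16.mk En
    (@En.n l3098 (nat_lit 8532) (nat_lit 5) (nat_lit 4))
    (@En.i (nat_lit 3698) (nat_lit 7) (nat_lit 14))
    (@En.i (nat_lit 2219) (nat_lit 2) (nat_lit 11))
    (@En.i (nat_lit 8565) (nat_lit 3) (nat_lit 3))
    (@En.n l2436 (nat_lit 8869) (nat_lit 10) (nat_lit 12))
    (@En.i (nat_lit 6895) (nat_lit 5) (nat_lit 4))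
    (@En.i (nat_lit 6646) (nat_lit 7) (nat_lit 13))
    (@En.i (nat_lit 8301) (nat_lit 7) (nat_lit 4))
    (@En.n l2436 (nat_lit 6428) (nat_lit 14) (nat_lit 6))
    (@En.n l2228 (nat_lit 7903) (nat_lit 10) (nat_lit 12))
    (@En.n l11 (nat_lit 8564) (nat_lit 10) (nat_lit 2))
    (@En.n l55 (nat_lit 8346) (nat_lit 12) (nat_lit 12))
    (@En.n l3447 (nat_lit 7001) (nat_lit 1) (nat_lit 14))
    (@En.n l10215 (nat_lit 8347) (nat_lit 14) (nat_lit 5))
    (@En.i (nat_lit 8568) (nat_lit 3) (nat_lit 10))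
    (@En.n l17 (nat_lit 8564) (nat_lit 15) (nat_lit 2))))
  (@Cl.mk (nat_lit 0x2000a0005000e000c0002000b00060004000d000b00050003000b000e0005) (nat_lit 0x80ca0500a900320) (nat_lit 16) Lb.e (@T16.mk En
    (@En.n l3147 (nat_lit 8534) (nat_lit 5) (nat_lit 5))
    (@En.i (nat_lit 3699) (nat_lit 7) (nat_lit 14))
    (@En.n l5 (nat_lit 7899) (nat_lit 2) (nat_lit 11))
    (@En.n l50 (nat_lit 8564) (nat_lit 3) (nat_lit 3))
    (@En.n l1034 (nat_lit 1192) (nat_lit 4) (nat_lit 5))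
    (@En.n l217 (nat_lit 9742) (nat_lit 11) (nat_lit 11))
    (@En.i (nat_lit 5025) (nat_lit 7) (nat_lit 13))
    (@En.i (nat_lit 8241) (nat_lit 7) (nat_lit 4))
    (@En.n l10214 (nat_lit 6429) (nat_lit 14) (nat_lit 6))
    (@En.n l2228 (nat_lit 9443) (nat_lit 10) (nat_lit 11))
    (@En.n l11 (nat_lit 8565) (nat_lit 10) (nat_lit 2))
    (@En.n l55 (nat_lit 8371) (nat_lit 12) (nat_lit 12))
    (@En.n l3447 (nat_lit 7002) (nat_lit 1) (nat_lit 14))
    (@En.n l10215 (nat_lit 8566) (nat_lit 14) (nat_lit 5))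
    (@En.n l9819 (nat_lit 8567) (nat_lit 3) (nat_lit 10))
    (@En.n l17 (nat_lit 8565) (nat_lit 15) (nat_lit 2))))
  (@Cl.mk (nat_lit 0x20005000e000c0002000b00090004000d000a00050003000b0007000e0006) (nat_lit 0x5a045060004030) (nat_lit 16) Lb.e (@T16.mk En
    (@En.i (nat_lit 8569) (nat_lit 4) (nat_lit 6))
    (@En.n l10903 (nat_lit 8565) (nat_lit 1) (nat_lit 14))
    (@En.i (nat_lit 2409) (nat_lit 6) (nat_lit 7))
    (@En.n l1599 (nat_lit 7896) (nat_lit 3) (nat_lit 11))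
    (@En.n l28 (nat_lit 8347) (nat_lit 4) (nat_lit 3))
    (@En.i (nat_lit 1190) (nat_lit 5) (nat_lit 5))
    (@En.n l890 (nat_lit 9747) (nat_lit 11) (nat_lit 10))
    (@En.n l17837 (nat_lit 1922) (nat_lit 8) (nat_lit 13))
    (@En.n l4153 (nat_lit 8239) (nat_lit 8) (nat_lit 4))
    (@En.i (nat_lit 2343) (nat_lit 10) (nat_lit 9))
    (@En.i (nat_lit 9130) (nat_lit 11) (nat_lit 11))
    (@En.n l3 (nat_lit 8566) (nat_lit 11) (nat_lit 2))
    (@En.i (nat_lit 8348) (nat_lit 13) (nat_lit 12))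
    (@En.i (nat_lit 8216) (nat_lit 1) (nat_lit 14))
    (@En.i (nat_lit 9003) (nat_lit 13) (nat_lit 5))
    (@En.n l17 (nat_lit 8566) (nat_lit 15) (nat_lit 2))))
  (@Cl.mk (nat_lit 0x2000a000600090005000d000b00060003000c00070005000a0004000e000b) (nat_lit 0x5060690060070b6) (nat_lit 16) Lb.e (@T16.mk En
    (@En.n l19854 (nat_lit 8570) (nat_lit 9) (nat_lit 11))
    (@En.n l10470 (nat_lit 9602) (nat_lit 1) (nat_lit 14))
    (@En.n l22452 (nat_lit 9008) (nat_lit 2) (nat_lit 4))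
    (@En.n l22453 (nat_lit 8571) (nat_lit 3) (nat_lit 10))
    (@En.n l22454 (nat_lit 8763) (nat_lit 4) (nat_lit 5))
    (@En.n l10903 (nat_lit 6573) (nat_lit 5) (nat_lit 7))
    (@En.n l1599 (nat_lit 4652) (nat_lit 7) (nat_lit 12))
    (@En.n l17640 (nat_lit 8568) (nat_lit 7) (nat_lit 3))
    (@En.n l217 (nat_lit 1191) (nat_lit 8) (nat_lit 6))
    (@En.n l22455 (nat_lit 11042) (nat_lit 10) (nat_lit 11))
    (@En.n l22456 (nat_lit 6649) (nat_lit 11) (nat_lit 13))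
    (@En.n l22457 (nat_lit 9198) (nat_lit 12) (nat_lit 5))
    (@En.i (nat_lit 8566) (nat_lit 9) (nat_lit 9))
    (@En.n l22456 (nat_lit 9186) (nat_lit 14) (nat_lit 6))
    (@En.n l22458 (nat_lit 9783) (nat_lit 12) (nat_lit 10))
    (@En.n l3 (nat_lit 8567) (nat_lit 15) (nat_lit 2))))
  (@Cl.mk (nat_lit 0x2000b000600090005000d0005000c0003000c00070004000a0004000e000b) (nat_lit 0x9060802060070b0) (nat_lit 16) Lb.e (@T16.mk En
    (@En.n l55 (nat_lit 8572) (nat_lit 9) (nat_lit 11))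
    (@En.n l3447 (nat_lit 9081) (nat_lit 1) (nat_lit 14))
    (@En.n l31198 (nat_lit 9007) (nat_lit 2) (nat_lit 4))
    (@En.n l30175 (nat_lit 8574) (nat_lit 3) (nat_lit 10))
    (@En.n l3098 (nat_lit 11889) (nat_lit 4) (nat_lit 4))
    (@En.i (nat_lit 6572) (nat_lit 5) (nat_lit 7))
    (@En.n l993 (nat_lit 3349) (nat_lit 7) (nat_lit 12))
    (@En.n l9819 (nat_lit 8567) (nat_lit 7) (nat_lit 3))
    (@En.n l31199 (nat_lit 9211) (nat_lit 9) (nat_lit 12))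
    (@En.n l9819 (nat_lit 7818) (nat_lit 9) (nat_lit 5))
    (@En.n l2765 (nat_lit 6648) (nat_lit 11) (nat_lit 13))
    (@En.i (nat_lit 9196) (nat_lit 12) (nat_lit 5))
    (@En.n l9819 (nat_lit 8347) (nat_lit 9) (nat_lit 9))
    (@En.n l13305 (nat_lit 9184) (nat_lit 14) (nat_lit 6))
    (@En.n l2228 (nat_lit 9789) (nat_lit 12) (nat_lit 11))
    (@En.n l11 (nat_lit 8568) (nat_lit 15) (nat_lit 2))))
  (@Cl.mk (nat_lit 0x2000a00080004000c000a000a00060004000c0008000600060004000e000c) (nat_lit 0x75098100720004a) (nat_lit 16) Lb.e (@T16.mk En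
    (@En.i (nat_lit 8577) (nat_lit 3) (nat_lit 12))
    (@En.n l10469 (nat_lit 8222) (nat_lit 1) (nat_lit 14))
    (@En.n l4155 (nat_lit 8770) (nat_lit 2) (nat_lit 4))
    (@En.n l28401 (nat_lit 8525) (nat_lit 10) (nat_lit 6))
    (@En.n l28402 (nat_lit 8761) (nat_lit 4) (nat_lit 6))
    (@En.n l17639 (nat_lit 2408) (nat_lit 5) (nat_lit 8))
    (@En.n l20051 (nat_lit 7894) (nat_lit 7) (nat_lit 12))
    (@En.n l28403 (nat_lit 8536) (nat_lit 7) (nat_lit 4))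
    (@En.n l18 (nat_lit 8567) (nat_lit 8) (nat_lit 6))
    (@En.n l61 (nat_lit 8566) (nat_lit 6) (nat_lit 10))
    (@En.n l28404 (nat_lit 9190) (nat_lit 11) (nat_lit 10))
    (@En.n l28405 (nat_lit 6674) (nat_lit 12) (nat_lit 12))
    (@En.n l28403 (nat_lit 8481) (nat_lit 13) (nat_lit 4))
    (@En.i (nat_lit 2339) (nat_lit 14) (nat_lit 8))
    (@En.n l28406 (nat_lit 9125) (nat_lit 1) (nat_lit 10))
    (@En.n l3 (nat_lit 8569) (nat_lit 15) (nat_lit 2))))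
  (@Cl.mk (nat_lit 0x3000c00080005000b0004000b000b00090005000800050005000d000b0007) (nat_lit 0x520705930400840) (nat_lit 16) Lb.e (@T16.mk En
    (@En.n l18873 (nat_lit 1531) (nat_lit 0) (nat_lit 7))
    (@En.n l217 (nat_lit 11043) (nat_lit 5) (nat_lit 11))
    (@En.n l34673 (nat_lit 9068) (nat_lit 2) (nat_lit 13))
    (@En.n l34674 (nat_lit 8567) (nat_lit 11) (nat_lit 5))
    (@En.n l517 (nat_lit 10182) (nat_lit 4) (nat_lit 5))
    (@En.n l19027 (nat_lit 8348) (nat_lit 10) (nat_lit 8))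
    (@En.n l4946 (nat_lit 9057) (nat_lit 6) (nat_lit 5))
    (@En.n l575 (nat_lit 9059) (nat_lit 7) (nat_lit 9))
    (@En.n l1578 (nat_lit 9044) (nat_lit 5) (nat_lit 11))
    (@En.n l34675 (nat_lit 8427) (nat_lit 10) (nat_lit 11))
    (@En.n l517 (nat_lit 9013) (nat_lit 10) (nat_lit 4))
    (@En.n l31185 (nat_lit 8573) (nat_lit 0) (nat_lit 11))
    (@En.n l20228 (nat_lit 8767) (nat_lit 1) (nat_lit 5))
    (@En.n l575 (nat_lit 7499) (nat_lit 14) (nat_lit 8))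
    (@En.n l18969 (nat_lit 4650) (nat_lit 3) (nat_lit 12))
    (@En.n l50 (nat_lit 8572) (nat_lit 15) (nat_lit 3))))
  (@Cl.mk (nat_lit 0x200090006000c00090006000d000400070003000d0007000a0003000e000a) (nat_lit 0x50a7060006060a8) (nat_lit 16) Lb.e (@T16.mk En
    (@En.i (nat_lit 8573) (nat_lit 14) (nat_lit 10))
    (@En.n l2691 (nat_lit 9598) (nat_lit 1) (nat_lit 14))
    (@En.n l30866 (nat_lit 7821) (nat_lit 2) (nat_lit 3))
    (@En.i (nat_lit 11635) (nat_lit 8) (nat_lit 10))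
    (@En.n l10020 (nat_lit 6571) (nat_lit 4) (nat_lit 7))
    (@En.n l17902 (nat_lit 4651) (nat_lit 6) (nat_lit 13))
    (@En.n l14445 (nat_lit 8574) (nat_lit 6) (nat_lit 3))
    (@En.n l6453 (nat_lit 1650) (nat_lit 7) (nat_lit 7))
    (@En.n l4185 (nat_lit 11284) (nat_lit 8) (nat_lit 4))
    (@En.n l1014 (nat_lit 5973) (nat_lit 10) (nat_lit 13))
    (@En.i (nat_lit 9093) (nat_lit 1) (nat_lit 6))
    (@En.n l30867 (nat_lit 8567) (nat_lit 12) (nat_lit 9))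
    (@En.n l6238 (nat_lit 7820) (nat_lit 13) (nat_lit 12))
    (@En.n l15989 (nat_lit 9185) (nat_lit 14) (nat_lit 6))
    (@En.n l614 (nat_lit 9065) (nat_lit 12) (nat_lit 9))
    (@En.n l11 (nat_lit 8571) (nat_lit 15) (nat_lit 2))))
  (@Cl.mk (nat_lit 0x3000c00080004000b0004000b000b000a0005000800050005000d0006000c) (nat_lit 0x730709880500800) (nat_lit 16) Lb.e (@T16.mk En
    (@En.n l18970 (nat_lit 9213) (nat_lit 0) (nat_lit 12))
    (@En.n l28 (nat_lit 6891) (nat_lit 4) (nat_lit 6))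
    (@En.n l6370 (nat_lit 9069) (nat_lit 2) (nat_lit 13))
    (@En.n l1577 (nat_lit 8568) (nat_lit 11) (nat_lit 5))
    (@En.n l517 (nat_lit 9174) (nat_lit 4) (nat_lit 5))
    (@En.n l152 (nat_lit 8345) (nat_lit 10) (nat_lit 8))
    (@En.n l4946 (nat_lit 9058) (nat_lit 6) (nat_lit 5))
    (@En.n l457 (nat_lit 9176) (nat_lit 6) (nat_lit 10))
    (@En.n l1578 (nat_lit 9043) (nat_lit 5) (nat_lit 11))
    (@En.n l20132 (nat_lit 9078) (nat_lit 10) (nat_lit 11))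
    (@En.n l517 (nat_lit 9011) (nat_lit 10) (nat_lit 4))
    (@En.i (nat_lit 8575) (nat_lit 0) (nat_lit 11))
    (@En.n l20228 (nat_lit 11886) (nat_lit 1) (nat_lit 4))
    (@En.n l575 (nat_lit 7494) (nat_lit 14) (nat_lit 8))
    (@En.i (nat_lit 3311) (nat_lit 1) (nat_lit 12))
    (@En.i (nat_lit 8570) (nat_lit 15) (nat_lit 3))))
  (@Cl.mk (nat_lit 0x3000a000a00080005000b000800060006000d000500080003000d0008000b) (nat_lit 0x723095009040726) (nat_lit 16) Lb.e (@T16.mk En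
    (@En.n l5066 (nat_lit 12286) (nat_lit 7) (nat_lit 11))
    (@En.n l10044 (nat_lit 7521) (nat_lit 14) (nat_lit 8))
    (@En.i (nat_lit 4645) (nat_lit 2) (nat_lit 13))
    (@En.n l38758 (nat_lit 8575) (nat_lit 3) (nat_lit 3))
    (@En.n l5066 (nat_lit 1528) (nat_lit 10) (nat_lit 8))
    (@En.n l22979 (nat_lit 11288) (nat_lit 5) (nat_lit 5))
    (@En.n l38759 (nat_lit 8437) (nat_lit 7) (nat_lit 13))
    (@En.n l575 (nat_lit 8571) (nat_lit 10) (nat_lit 6))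
    (@En.n l38760 (nat_lit 10288) (nat_lit 8) (nat_lit 6))
    (@En.n l38761 (nat_lit 8570) (nat_lit 5) (nat_lit 8))
    (@En.n l26588 (nat_lit 8576) (nat_lit 11) (nat_lit 11))
    (@En.n l10050 (nat_lit 9055) (nat_lit 7) (nat_lit 5))
    (@En.n l38762 (nat_lit 9058) (nat_lit 13) (nat_lit 8))
    (@En.n l3554 (nat_lit 9046) (nat_lit 6) (nat_lit 10))
    (@En.n l38763 (nat_lit 8429) (nat_lit 11) (nat_lit 10))
    (@En.n l38764 (nat_lit 9050) (nat_lit 15) (nat_lit 3))))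
  (@Cl.mk (nat_lit 0x2000a0006000b00090006000d000600050003000d0007000a0003000e000a) (nat_lit 0x8027090005060a0) (nat_lit 16) Lb.e (@T16.mk En
    (@En.n l16235 (nat_lit 8575) (nat_lit 14) (nat_lit 10))
    (@En.n l1578 (nat_lit 9604) (nat_lit 1) (nat_lit 14))
    (@En.n l117 (nat_lit 10104) (nat_lit 2) (nat_lit 3))
    (@En.n l16236 (nat_lit 11637) (nat_lit 8) (nat_lit 10))
    (@En.i (nat_lit 6569) (nat_lit 4) (nat_lit 7))
    (@En.n l9916 (nat_lit 3346) (nat_lit 6) (nat_lit 13))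
    (@En.n l3153 (nat_lit 8571) (nat_lit 6) (nat_lit 3))
    (@En.n l18 (nat_lit 7938) (nat_lit 0) (nat_lit 5))
    (@En.n l9916 (nat_lit 7817) (nat_lit 8) (nat_lit 6))
    (@En.i (nat_lit 6650) (nat_lit 10) (nat_lit 13))
    (@En.n l16237 (nat_lit 8697) (nat_lit 11) (nat_lit 6))
    (@En.n l16238 (nat_lit 8568) (nat_lit 12) (nat_lit 9))
    (@En.n l16237 (nat_lit 8289) (nat_lit 13) (nat_lit 11))
    (@En.n l16239 (nat_lit 9183) (nat_lit 14) (nat_lit 6))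
    (@En.n l14311 (nat_lit 9793) (nat_lit 12) (nat_lit 10))
    (@En.n l28 (nat_lit 8574) (nat_lit 15) (nat_lit 2))))
  (@Cl.mk (nat_lit 0x3000a000a00090005000a000800060006000d000700060003000d0008000b) (nat_lit 0x877066009000626) (nat_lit 16) Lb.e (@T16.mk En
    (@En.n l31184 (nat_lit 12508) (nat_lit 7) (nat_lit 11))
    (@En.n l575 (nat_lit 7493) (nat_lit 14) (nat_lit 8))
    (@En.n l18977 (nat_lit 3312) (nat_lit 2) (nat_lit 13))
    (@En.n l31185 (nat_lit 8573) (nat_lit 3) (nat_lit 3))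
    (@En.n l5443 (nat_lit 7945) (nat_lit 0) (nat_lit 6))
    (@En.n l31186 (nat_lit 2594) (nat_lit 5) (nat_lit 7))
    (@En.n l31187 (nat_lit 9071) (nat_lit 7) (nat_lit 13))
    (@En.n l31188 (nat_lit 8574) (nat_lit 10) (nat_lit 6))
    (@En.n l517 (nat_lit 8698) (nat_lit 8) (nat_lit 6))
    (@En.n l17 (nat_lit 8572) (nat_lit 5) (nat_lit 8))
    (@En.n l31189 (nat_lit 9109) (nat_lit 11) (nat_lit 10))
    (@En.n l4946 (nat_lit 9056) (nat_lit 7) (nat_lit 5))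
    (@En.n l457 (nat_lit 10137) (nat_lit 7) (nat_lit 9))
    (@En.n l31190 (nat_lit 9045) (nat_lit 6) (nat_lit 10))
    (@En.n l20132 (nat_lit 9077) (nat_lit 11) (nat_lit 10))
    (@En.n l31191 (nat_lit 9049) (nat_lit 15) (nat_lit 3))))
noncomputable def a536 : T16 Cl := @T16.mk Cl
  (@Cl.mk (nat_lit 0x3000b000b0008000b000700050005000c0005000b00080004000d00090005) (nat_lit 0x853800060550920) (nat_lit 16) Lb.e (@T16.mk En
    (@En.n l3469 (nat_lit 8282) (nat_lit 0) (nat_lit 5))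
    (@En.i (nat_lit 7522) (nat_lit 14) (nat_lit 9))
    (@En.n l3470 (nat_lit 4648) (nat_lit 2) (nat_lit 13))
    (@En.n l15186 (nat_lit 9109) (nat_lit 3) (nat_lit 4))
    (@En.n l34622 (nat_lit 8573) (nat_lit 4) (nat_lit 8))
    (@En.n l15675 (nat_lit 8570) (nat_lit 1) (nat_lit 11))
    (@En.n l25037 (nat_lit 11290) (nat_lit 6) (nat_lit 5))
    (@En.n l34776 (nat_lit 8774) (nat_lit 8) (nat_lit 12))
    (@En.n l3787 (nat_lit 7820) (nat_lit 11) (nat_lit 5))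
    (@En.i (nat_lit 10286) (nat_lit 9) (nat_lit 5))
    (@En.n l34777 (nat_lit 8577) (nat_lit 0) (nat_lit 7))
    (@En.i (nat_lit 8477) (nat_lit 7) (nat_lit 11))
    (@En.n l22432 (nat_lit 9056) (nat_lit 13) (nat_lit 8))
    (@En.n l601 (nat_lit 8587) (nat_lit 5) (nat_lit 11))
    (@En.n l11655 (nat_lit 8428) (nat_lit 11) (nat_lit 11))
    (@En.n l11 (nat_lit 9054) (nat_lit 15) (nat_lit 3))))
  (@Cl.mk (nat_lit 0x40004000c000a000a00070004000c0009000600060004000c000c00090007) (nat_lit 0x64100530009a30) (nat_lit 16) Lb.e (@T16.mk En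
    (@En.n l7313 (nat_lit 2334) (nat_lit 0) (nat_lit 7))
    (@En.n l30021 (nat_lit 9124) (nat_lit 1) (nat_lit 9))
    (@En.n l30022 (nat_lit 8586) (nat_lit 4) (nat_lit 12))
    (@En.n l21883 (nat_lit 8425) (nat_lit 10) (nat_lit 12))
    (@En.n l8498 (nat_lit 8769) (nat_lit 4) (nat_lit 4))
    (@En.n l30023 (nat_lit 8478) (nat_lit 10) (nat_lit 6))
    (@En.n l30024 (nat_lit 8762) (nat_lit 1) (nat_lit 6))
    (@En.n l15371 (nat_lit 2412) (nat_lit 14) (nat_lit 9))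
    (@En.n l890 (nat_lit 7893) (nat_lit 9) (nat_lit 12))
    (@En.n l30021 (nat_lit 8350) (nat_lit 9) (nat_lit 4))
    (@En.n l8419 (nat_lit 8570) (nat_lit 0) (nat_lit 7))
    (@En.n l61 (nat_lit 8348) (nat_lit 6) (nat_lit 10))
    (@En.n l28404 (nat_lit 11045) (nat_lit 13) (nat_lit 10))
    (@En.n l476 (nat_lit 8400) (nat_lit 3) (nat_lit 12))
    (@En.n l152 (nat_lit 8569) (nat_lit 12) (nat_lit 4))
    (@En.n l30025 (nat_lit 8331) (nat_lit 0) (nat_lit 4))))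
  (@Cl.mk (nat_lit 0x2000c0006000c000c0004000c00040004000c0004000c000a0004000e0004) (nat_lit 0x401109009023080) (nat_lit 16) Lb.e (@T16.mk En
    (@En.i (nat_lit 8533) (nat_lit 7) (nat_lit 4))
    (@En.n l8151 (nat_lit 7274) (nat_lit 1) (nat_lit 14))
    (@En.n l700 (nat_lit 6415) (nat_lit 2) (nat_lit 4))
    (@En.i (nat_lit 8324) (nat_lit 3) (nat_lit 10))
    (@En.n l4542 (nat_lit 8694) (nat_lit 5) (nat_lit 12))
    (@En.i (nat_lit 8585) (nat_lit 5) (nat_lit 4))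
    (@En.n l3928 (nat_lit 11890) (nat_lit 7) (nat_lit 12))
    (@En.n l152 (nat_lit 8579) (nat_lit 12) (nat_lit 4))
    (@En.n l3851 (nat_lit 9768) (nat_lit 8) (nat_lit 4))
    (@En.n l617 (nat_lit 2216) (nat_lit 10) (nat_lit 12))
    (@En.i (nat_lit 6402) (nat_lit 10) (nat_lit 4))
    (@En.n l3536 (nat_lit 8368) (nat_lit 4) (nat_lit 12))
    (@En.n l4542 (nat_lit 6400) (nat_lit 13) (nat_lit 12))
    (@En.i (nat_lit 2311) (nat_lit 14) (nat_lit 6))
    (@En.n l612 (nat_lit 8417) (nat_lit 3) (nat_lit 12))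
    (@En.n l50 (nat_lit 8578) (nat_lit 15) (nat_lit 2))))
  (@Cl.mk (nat_lit 0x20005000d0004000c0003000c000a0004000e00040002000b0006000e000c) (nat_lit 0x30902601005092) (nat_lit 16) Lb.e (@T16.mk En
    (@En.i (nat_lit 8578) (nat_lit 12) (nat_lit 12))
    (@En.i (nat_lit 8581) (nat_lit 1) (nat_lit 14))
    (@En.i (nat_lit 2309) (nat_lit 14) (nat_lit 6))
    (@En.n l5 (nat_lit 8441) (nat_lit 3) (nat_lit 11))
    (@En.n l50 (nat_lit 8579) (nat_lit 4) (nat_lit 2))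
    (@En.n l7 (nat_lit 8527) (nat_lit 5) (nat_lit 4))
    (@En.i (nat_lit 4009) (nat_lit 7) (nat_lit 14))
    (@En.i (nat_lit 6411) (nat_lit 7) (nat_lit 4))
    (@En.i (nat_lit 8636) (nat_lit 9) (nat_lit 10))
    (@En.i (nat_lit 10976) (nat_lit 10) (nat_lit 12))
    (@En.i (nat_lit 8580) (nat_lit 10) (nat_lit 3))
    (@En.i (nat_lit 10099) (nat_lit 12) (nat_lit 12))
    (@En.n l117 (nat_lit 8583) (nat_lit 7) (nat_lit 4))
    (@En.i (nat_lit 2215) (nat_lit 9) (nat_lit 13))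
    (@En.i (nat_lit 8234) (nat_lit 9) (nat_lit 5))
    (@En.n l3 (nat_lit 8579) (nat_lit 15) (nat_lit 2))))
  (@Cl.mk (nat_lit 0x20005000d000b00050003000c000a0005000e00040002000b0006000e000b) (nat_lit 0x220016010070b7) (nat_lit 16) Lb.e (@T16.mk En
    (@En.i (nat_lit 8585) (nat_lit 12) (nat_lit 11))
    (@En.n l1029 (nat_lit 8582) (nat_lit 1) (nat_lit 14))
    (@En.i (nat_lit 2310) (nat_lit 14) (nat_lit 6))
    (@En.n l5 (nat_lit 8467) (nat_lit 3) (nat_lit 11))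
    (@En.n l50 (nat_lit 8580) (nat_lit 4) (nat_lit 2))
    (@En.n l7 (nat_lit 8477) (nat_lit 5) (nat_lit 4))
    (@En.i (nat_lit 4008) (nat_lit 7) (nat_lit 14))
    (@En.n l685 (nat_lit 2341) (nat_lit 7) (nat_lit 5))
    (@En.i (nat_lit 8638) (nat_lit 9) (nat_lit 10))
    (@En.n l287 (nat_lit 6416) (nat_lit 10) (nat_lit 12))
    (@En.n l11 (nat_lit 8579) (nat_lit 10) (nat_lit 3))
    (@En.i (nat_lit 8511) (nat_lit 6) (nat_lit 5))
    (@En.i (nat_lit 6418) (nat_lit 13) (nat_lit 11))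
    (@En.n l2352 (nat_lit 2217) (nat_lit 9) (nat_lit 13))
    (@En.i (nat_lit 8233) (nat_lit 9) (nat_lit 5))
    (@En.n l3 (nat_lit 8580) (nat_lit 15) (nat_lit 2))))
  (@Cl.mk (nat_lit 0x200090005000d0005000c0003000c00070004000e00040002000b000e000b) (nat_lit 0x704090500900582) (nat_lit 16) Lb.e (@T16.mk En
    (@En.n l4542 (nat_lit 8372) (nat_lit 13) (nat_lit 11))
    (@En.n l1029 (nat_lit 10119) (nat_lit 4) (nat_lit 14))
    (@En.i (nat_lit 8439) (nat_lit 2) (nat_lit 11))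
    (@En.n l50 (nat_lit 8581) (nat_lit 3) (nat_lit 2))
    (@En.n l7 (nat_lit 8526) (nat_lit 4) (nat_lit 4))
    (@En.n l7678 (nat_lit 7273) (nat_lit 1) (nat_lit 14))
    (@En.n l1029 (nat_lit 6410) (nat_lit 6) (nat_lit 4))
    (@En.i (nat_lit 7145) (nat_lit 7) (nat_lit 7))
    (@En.n l1459 (nat_lit 10972) (nat_lit 9) (nat_lit 12))
    (@En.n l1029 (nat_lit 8582) (nat_lit 9) (nat_lit 3))
    (@En.n l11000 (nat_lit 12280) (nat_lit 11) (nat_lit 12))
    (@En.n l28556 (nat_lit 8584) (nat_lit 7) (nat_lit 5))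
    (@En.n l7678 (nat_lit 7760) (nat_lit 9) (nat_lit 13))
    (@En.n l17 (nat_lit 8579) (nat_lit 14) (nat_lit 5))
    (@En.i (nat_lit 8588) (nat_lit 11) (nat_lit 9))
    (@En.n l3 (nat_lit 8581) (nat_lit 15) (nat_lit 2))))
  (@Cl.mk (nat_lit 0x200090005000d000b00060003000c00070005000e00040002000b000e000a) (nat_lit 0x7064001004006a6) (nat_lit 16) Lb.e (@T16.mk En
    (@En.i (nat_lit 8586) (nat_lit 13) (nat_lit 10))
    (@En.i (nat_lit 10123) (nat_lit 4) (nat_lit 14))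
    (@En.i (nat_lit 2627) (nat_lit 2) (nat_lit 11))
    (@En.n l17 (nat_lit 8582) (nat_lit 3) (nat_lit 2))
    (@En.n l5955 (nat_lit 8478) (nat_lit 4) (nat_lit 4))
    (@En.n l1555 (nat_lit 7390) (nat_lit 1) (nat_lit 14))
    (@En.i (nat_lit 2335) (nat_lit 2) (nat_lit 5))
    (@En.n l3832 (nat_lit 7143) (nat_lit 7) (nat_lit 7))
    (@En.n l564 (nat_lit 2623) (nat_lit 9) (nat_lit 12))
    (@En.n l15280 (nat_lit 8581) (nat_lit 9) (nat_lit 3))
    (@En.n l18735 (nat_lit 8512) (nat_lit 6) (nat_lit 6))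
    (@En.n l644 (nat_lit 6419) (nat_lit 12) (nat_lit 11))
    (@En.n l18736 (nat_lit 7765) (nat_lit 9) (nat_lit 13))
    (@En.n l2657 (nat_lit 8580) (nat_lit 14) (nat_lit 5))
    (@En.n l3832 (nat_lit 8587) (nat_lit 11) (nat_lit 9))
    (@En.n l3 (nat_lit 8582) (nat_lit 15) (nat_lit 2))))
  (@Cl.mk (nat_lit 0x2000a0006000d000c000b000300060004000c0005000c000a0004000e0004) (nat_lit 0x509980009010090) (nat_lit 16) Lb.e (@T16.mk En
    (@En.n l7 (nat_lit 8590) (nat_lit 6) (nat_lit 4))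
    (@En.i (nat_lit 7276) (nat_lit 1) (nat_lit 14))
    (@En.n l22147 (nat_lit 4503) (nat_lit 2) (nat_lit 4))
    (@En.i (nat_lit 8639) (nat_lit 3) (nat_lit 10))
    (@En.i (nat_lit 8548) (nat_lit 11) (nat_lit 12))
    (@En.i (nat_lit 8516) (nat_lit 5) (nat_lit 5))
    (@En.i (nat_lit 11168) (nat_lit 7) (nat_lit 12))
    (@En.i (nat_lit 8578) (nat_lit 7) (nat_lit 4))
    (@En.i (nat_lit 8235) (nat_lit 8) (nat_lit 6))
    (@En.i (nat_lit 9769) (nat_lit 9) (nat_lit 3))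
    (@En.n l619 (nat_lit 8580) (nat_lit 0) (nat_lit 11))
    (@En.n l3866 (nat_lit 9768) (nat_lit 12) (nat_lit 12))
    (@En.n l16721 (nat_lit 8584) (nat_lit 13) (nat_lit 13))
    (@En.i (nat_lit 2315) (nat_lit 14) (nat_lit 6))
    (@En.i (nat_lit 9644) (nat_lit 4) (nat_lit 10))
    (@En.n l50 (nat_lit 8583) (nat_lit 15) (nat_lit 2))))
  (@Cl.mk (nat_lit 0x2000a000d000b000a0003000a00060005000c0006000c00060004000e0004) (nat_lit 0x588708009010010) (nat_lit 16) Lb.e (@T16.mk En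
    (@En.n l24725 (nat_lit 8591) (nat_lit 5) (nat_lit 4))
    (@En.n l26375 (nat_lit 2940) (nat_lit 1) (nat_lit 14))
    (@En.i (nat_lit 4501) (nat_lit 2) (nat_lit 4))
    (@En.n l16914 (nat_lit 7149) (nat_lit 3) (nat_lit 6))
    (@En.n l13013 (nat_lit 8549) (nat_lit 5) (nat_lit 12))
    (@En.n l5928 (nat_lit 8517) (nat_lit 5) (nat_lit 6))
    (@En.n l476 (nat_lit 11169) (nat_lit 7) (nat_lit 12))
    (@En.n l13013 (nat_lit 6400) (nat_lit 7) (nat_lit 5))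
    (@En.n l19885 (nat_lit 8583) (nat_lit 8) (nat_lit 6))
    (@En.n l8628 (nat_lit 8589) (nat_lit 10) (nat_lit 10))
    (@En.n l20805 (nat_lit 9773) (nat_lit 10) (nat_lit 3))
    (@En.n l4758 (nat_lit 8582) (nat_lit 0) (nat_lit 10))
    (@En.n l22681 (nat_lit 8891) (nat_lit 13) (nat_lit 11))
    (@En.i (nat_lit 10931) (nat_lit 5) (nat_lit 13))
    (@En.i (nat_lit 9643) (nat_lit 3) (nat_lit 10))
    (@En.n l17 (nat_lit 8584) (nat_lit 15) (nat_lit 2))))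
  (@Cl.mk (nat_lit 0x2000c0006000b000b0004000c000a000500050004000c000a0006000e0004) (nat_lit 0x7061022000170c0) (nat_lit 16) Lb.e (@T16.mk En
    (@En.i (nat_lit 8350) (nat_lit 15) (nat_lit 4))
    (@En.n l3965 (nat_lit 7373) (nat_lit 1) (nat_lit 14))
    (@En.n l9823 (nat_lit 2297) (nat_lit 2) (nat_lit 6))
    (@En.i (nat_lit 8648) (nat_lit 3) (nat_lit 10))
    (@En.n l22524 (nat_lit 8146) (nat_lit 5) (nat_lit 12))
    (@En.n l3535 (nat_lit 12716) (nat_lit 5) (nat_lit 4))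
    (@En.n l152 (nat_lit 8580) (nat_lit 11) (nat_lit 5))
    (@En.n l3965 (nat_lit 8521) (nat_lit 7) (nat_lit 5))
    (@En.n l6612 (nat_lit 6253) (nat_lit 9) (nat_lit 10))
    (@En.n l25774 (nat_lit 2221) (nat_lit 10) (nat_lit 12))
    (@En.n l22397 (nat_lit 9064) (nat_lit 10) (nat_lit 4))
    (@En.n l3536 (nat_lit 8349) (nat_lit 5) (nat_lit 11))
    (@En.n l22524 (nat_lit 9063) (nat_lit 13) (nat_lit 11))
    (@En.i (nat_lit 2314) (nat_lit 14) (nat_lit 6))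
    (@En.n l612 (nat_lit 8420) (nat_lit 3) (nat_lit 12))
    (@En.n l50 (nat_lit 8585) (nat_lit 15) (nat_lit 2))))
  (@Cl.mk (nat_lit 0x2000c000a000a00080004000c000a000600060004000c00080006000e0004) (nat_lit 0x751609200092040) (nat_lit 16) Lb.e (@T16.mk En
    (@En.n l17981 (nat_lit 8577) (nat_lit 15) (nat_lit 4))
    (@En.n l24470 (nat_lit 7372) (nat_lit 1) (nat_lit 14))
    (@En.n l97 (nat_lit 2304) (nat_lit 2) (nat_lit 6))
    (@En.n l29895 (nat_lit 7144) (nat_lit 3) (nat_lit 8))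
    (@En.n l29896 (nat_lit 8494) (nat_lit 5) (nat_lit 12))
    (@En.n l17978 (nat_lit 9278) (nat_lit 5) (nat_lit 4))
    (@En.n l152 (nat_lit 8582) (nat_lit 10) (nat_lit 6))
    (@En.n l29897 (nat_lit 9281) (nat_lit 7) (nat_lit 6))
    (@En.n l29898 (nat_lit 6398) (nat_lit 9) (nat_lit 10))
    (@En.n l29897 (nat_lit 7892) (nat_lit 10) (nat_lit 12))
    (@En.n l2657 (nat_lit 8585) (nat_lit 10) (nat_lit 4))
    (@En.n l29899 (nat_lit 9044) (nat_lit 12) (nat_lit 8))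
    (@En.n l29900 (nat_lit 8370) (nat_lit 6) (nat_lit 10))
    (@En.n l97 (nat_lit 11048) (nat_lit 14) (nat_lit 10))
    (@En.n l20156 (nat_lit 8399) (nat_lit 3) (nat_lit 12))
    (@En.n l17 (nat_lit 8586) (nat_lit 15) (nat_lit 2))))
  (@Cl.mk (nat_lit 0x2000c0006000b00090004000d000a00050003000b0007000a0006000e0005) (nat_lit 0x606606300407090) (nat_lit 16) Lb.e (@T16.mk En
    (@En.n l7 (nat_lit 8576) (nat_lit 9) (nat_lit 5))
    (@En.n l34525 (nat_lit 7393) (nat_lit 1) (nat_lit 14))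
    (@En.n l34526 (nat_lit 8586) (nat_lit 2) (nat_lit 6))
    (@En.i (nat_lit 8580) (nat_lit 8) (nat_lit 10))
    (@En.n l12220 (nat_lit 7147) (nat_lit 4) (nat_lit 7))
    (@En.n l34527 (nat_lit 8465) (nat_lit 6) (nat_lit 11))
    (@En.n l11 (nat_lit 8588) (nat_lit 6) (nat_lit 3))
    (@En.n l34528 (nat_lit 8281) (nat_lit 0) (nat_lit 5))
    (@En.i (nat_lit 6388) (nat_lit 9) (nat_lit 10))
    (@En.n l34529 (nat_lit 4647) (nat_lit 10) (nat_lit 13))
    (@En.n l18287 (nat_lit 9110) (nat_lit 10) (nat_lit 4))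
    (@En.n l34530 (nat_lit 9046) (nat_lit 12) (nat_lit 9))
    (@En.n l15675 (nat_lit 9044) (nat_lit 13) (nat_lit 11))
    (@En.n l1029 (nat_lit 11381) (nat_lit 14) (nat_lit 6))
    (@En.n l5 (nat_lit 8435) (nat_lit 8) (nat_lit 12))
    (@En.n l50 (nat_lit 8587) (nat_lit 15) (nat_lit 2))))
  (@Cl.mk (nat_lit 0x2000c0006000c00090004000d0004000b0003000b0007000a0005000e0005) (nat_lit 0x509609010007020) (nat_lit 16) Lb.e (@T16.mk En
    (@En.n l7 (nat_lit 9054) (nat_lit 9) (nat_lit 5))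
    (@En.n l11001 (nat_lit 7396) (nat_lit 1) (nat_lit 14))
    (@En.i (nat_lit 9278) (nat_lit 2) (nat_lit 5))
    (@En.i (nat_lit 8579) (nat_lit 8) (nat_lit 10))
    (@En.n l763 (nat_lit 7148) (nat_lit 4) (nat_lit 7))
    (@En.n l1807 (nat_lit 10958) (nat_lit 6) (nat_lit 11))
    (@En.i (nat_lit 8587) (nat_lit 6) (nat_lit 3))
    (@En.i (nat_lit 7973) (nat_lit 0) (nat_lit 11))
    (@En.n l117 (nat_lit 8589) (nat_lit 8) (nat_lit 4))
    (@En.i (nat_lit 7808) (nat_lit 10) (nat_lit 13))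
    (@En.n l18287 (nat_lit 9111) (nat_lit 10) (nat_lit 4))
    (@En.n l34604 (nat_lit 9048) (nat_lit 12) (nat_lit 9))
    (@En.n l4542 (nat_lit 9040) (nat_lit 13) (nat_lit 12))
    (@En.i (nat_lit 11382) (nat_lit 14) (nat_lit 6))
    (@En.n l5 (nat_lit 8779) (nat_lit 8) (nat_lit 12))
    (@En.n l50 (nat_lit 8588) (nat_lit 15) (nat_lit 2))))
  (@Cl.mk (nat_lit 0x2000b0006000c000b000a00050004000b0005000b0006000a0005000e0005) (nat_lit 0x60a770040001080) (nat_lit 16) Lb.e (@T16.mk En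
    (@En.n l7 (nat_lit 9735) (nat_lit 7) (nat_lit 5))
    (@En.n l8151 (nat_lit 8097) (nat_lit 1) (nat_lit 14))
    (@En.n l20269 (nat_lit 9288) (nat_lit 2) (nat_lit 5))
    (@En.i (nat_lit 8583) (nat_lit 3) (nat_lit 10))
    (@En.n l763 (nat_lit 5155) (nat_lit 4) (nat_lit 6))
    (@En.n l4542 (nat_lit 10476) (nat_lit 6) (nat_lit 11))
    (@En.i (nat_lit 8519) (nat_lit 6) (nat_lit 5))
    (@En.n l3695 (nat_lit 11170) (nat_lit 8) (nat_lit 11))
    (@En.n l4542 (nat_lit 9988) (nat_lit 8) (nat_lit 4))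
    (@En.n l17 (nat_lit 9112) (nat_lit 9) (nat_lit 5))
    (@En.n l33024 (nat_lit 12709) (nat_lit 11) (nat_lit 10))
    (@En.n l619 (nat_lit 8587) (nat_lit 12) (nat_lit 11))
    (@En.n l19255 (nat_lit 8973) (nat_lit 13) (nat_lit 12))
    (@En.i (nat_lit 11295) (nat_lit 14) (nat_lit 6))
    (@En.i (nat_lit 9475) (nat_lit 12) (nat_lit 11))
    (@En.n l50 (nat_lit 8589) (nat_lit 15) (nat_lit 2))))
  (@Cl.mk (nat_lit 0x300060004000b0005000c000c000b000500040004000a0005000d000c000b) (nat_lit 0x12000080aa7) (nat_lit 16) Lb.e (@T16.mk En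
    (@En.n l619 (nat_lit 8477) (nat_lit 0) (nat_lit 11))
    (@En.n l3866 (nat_lit 9746) (nat_lit 4) (nat_lit 12))
    (@En.i (nat_lit 8591) (nat_lit 2) (nat_lit 13))
    (@En.n l50 (nat_lit 2317) (nat_lit 3) (nat_lit 5))
    (@En.i (nat_lit 8879) (nat_lit 4) (nat_lit 10))
    (@En.n l3787 (nat_lit 9740) (nat_lit 12) (nat_lit 4))
    (@En.i (nat_lit 10189) (nat_lit 6) (nat_lit 4))
    (@En.i (nat_lit 4497) (nat_lit 0) (nat_lit 5))
    (@En.n l2337 (nat_lit 10196) (nat_lit 9) (nat_lit 11))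
    (@En.n l601 (nat_lit 8583) (nat_lit 4) (nat_lit 12))
    (@En.n l18989 (nat_lit 8543) (nat_lit 11) (nat_lit 12))
    (@En.i (nat_lit 8506) (nat_lit 4) (nat_lit 5))
    (@En.i (nat_lit 10967) (nat_lit 13) (nat_lit 11))
    (@En.n l77 (nat_lit 8533) (nat_lit 14) (nat_lit 4))
    (@En.i (nat_lit 7693) (nat_lit 12) (nat_lit 6))
    (@En.i (nat_lit 9743) (nat_lit 15) (nat_lit 3))))
  (@Cl.mk (nat_lit 0x3000900060005000b0006000c000c0007000500040004000a000d000b000a) (nat_lit 0x700101200008986) (nat_lit 16) Lb.e (@T16.mk En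
    (@En.n l619 (nat_lit 8478) (nat_lit 0) (nat_lit 10))
    (@En.n l10040 (nat_lit 8893) (nat_lit 12) (nat_lit 11))
    (@En.n l16414 (nat_lit 8170) (nat_lit 5) (nat_lit 13))
    (@En.n l30079 (nat_lit 8881) (nat_lit 3) (nat_lit 10))
    (@En.n l3787 (nat_lit 9737) (nat_lit 12) (nat_lit 4))
    (@En.i (nat_lit 10191) (nat_lit 5) (nat_lit 4))
    (@En.n l16414 (nat_lit 4494) (nat_lit 0) (nat_lit 5))
    (@En.n l77 (nat_lit 10467) (nat_lit 7) (nat_lit 7))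
    (@En.n l40924 (nat_lit 8584) (nat_lit 4) (nat_lit 12))
    (@En.n l29343 (nat_lit 8544) (nat_lit 10) (nat_lit 12))
    (@En.n l23128 (nat_lit 8507) (nat_lit 4) (nat_lit 6))
    (@En.n l31513 (nat_lit 8002) (nat_lit 12) (nat_lit 11))
    (@En.n l29343 (nat_lit 8875) (nat_lit 11) (nat_lit 5))
    (@En.n l17 (nat_lit 8590) (nat_lit 14) (nat_lit 6))
    (@En.i (nat_lit 9735) (nat_lit 1) (nat_lit 9))
    (@En.n l39525 (nat_lit 9750) (nat_lit 15) (nat_lit 3))))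
noncomputable def a537 : T16 Cl := @T16.mk Cl
  (@Cl.mk (nat_lit 0x20005000c0004000d000c00040003000d0004000d0003000b0003000e000c) (nat_lit 0x30110020802087) (nat_lit 16) Lb.e (@T16.mk En
    (@En.n l345 (nat_lit 8309) (nat_lit 12) (nat_lit 12))
    (@En.i (nat_lit 8596) (nat_lit 1) (nat_lit 14))
    (@En.i (nat_lit 8593) (nat_lit 2) (nat_lit 3))
    (@En.i (nat_lit 3360) (nat_lit 3) (nat_lit 11))
    (@En.i (nat_lit 8335) (nat_lit 4) (nat_lit 3))
    (@En.i (nat_lit 6978) (nat_lit 6) (nat_lit 13))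
    (@En.n l28 (nat_lit 8665) (nat_lit 6) (nat_lit 4))
    (@En.n l601 (nat_lit 7634) (nat_lit 8) (nat_lit 13))
    (@En.n l28 (nat_lit 8311) (nat_lit 8) (nat_lit 3))
    (@En.i (nat_lit 8079) (nat_lit 9) (nat_lit 4))
    (@En.n l77 (nat_lit 8529) (nat_lit 11) (nat_lit 12))
    (@En.i (nat_lit 3629) (nat_lit 12) (nat_lit 13))
    (@En.n l117 (nat_lit 10164) (nat_lit 13) (nat_lit 4))
    (@En.i (nat_lit 6987) (nat_lit 14) (nat_lit 12))
    (@En.i (nat_lit 8302) (nat_lit 13) (nat_lit 5))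
    (@En.n l3 (nat_lit 8592) (nat_lit 15) (nat_lit 2))))
  (@Cl.mk (nat_lit 0x20006000c0004000d000c00040003000c0004000d000a00040003000e000c) (nat_lit 0x403100a0970088) (nat_lit 16) Lb.e (@T16.mk En
    (@En.n l345 (nat_lit 8595) (nat_lit 8) (nat_lit 12))
    (@En.i (nat_lit 9214) (nat_lit 1) (nat_lit 14))
    (@En.n l18 (nat_lit 8592) (nat_lit 2) (nat_lit 3))
    (@En.i (nat_lit 7779) (nat_lit 3) (nat_lit 4))
    (@En.n l61 (nat_lit 8596) (nat_lit 4) (nat_lit 10))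
    (@En.i (nat_lit 6976) (nat_lit 6) (nat_lit 13))
    (@En.n l28 (nat_lit 8666) (nat_lit 6) (nat_lit 4))
    (@En.n l3540 (nat_lit 9573) (nat_lit 8) (nat_lit 12))
    (@En.n l28 (nat_lit 8594) (nat_lit 8) (nat_lit 3))
    (@En.i (nat_lit 8081) (nat_lit 9) (nat_lit 4))
    (@En.n l77 (nat_lit 8530) (nat_lit 11) (nat_lit 12))
    (@En.i (nat_lit 5548) (nat_lit 12) (nat_lit 13))
    (@En.n l117 (nat_lit 10166) (nat_lit 13) (nat_lit 4))
    (@En.n l9962 (nat_lit 7377) (nat_lit 14) (nat_lit 12))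
    (@En.i (nat_lit 8745) (nat_lit 5) (nat_lit 6))
    (@En.n l3 (nat_lit 8593) (nat_lit 15) (nat_lit 2))))
  (@Cl.mk (nat_lit 0x20006000d0004000d0003000d0003000c0003000d000a00040003000e000c) (nat_lit 0x3030a0a0970091) (nat_lit 16) Lb.e (@T16.mk En
    (@En.i (nat_lit 8307) (nat_lit 8) (nat_lit 12))
    (@En.i (nat_lit 12484) (nat_lit 1) (nat_lit 14))
    (@En.n l18 (nat_lit 8311) (nat_lit 2) (nat_lit 3))
    (@En.i (nat_lit 7778) (nat_lit 3) (nat_lit 4))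
    (@En.n l61 (nat_lit 8597) (nat_lit 4) (nat_lit 10))
    (@En.i (nat_lit 6973) (nat_lit 6) (nat_lit 13))
    (@En.i (nat_lit 8530) (nat_lit 6) (nat_lit 3))
    (@En.i (nat_lit 8845) (nat_lit 8) (nat_lit 12))
    (@En.i (nat_lit 8593) (nat_lit 8) (nat_lit 3))
    (@En.i (nat_lit 5989) (nat_lit 10) (nat_lit 13))
    (@En.i (nat_lit 8490) (nat_lit 10) (nat_lit 3))
    (@En.i (nat_lit 5547) (nat_lit 12) (nat_lit 13))
    (@En.n l117 (nat_lit 10193) (nat_lit 13) (nat_lit 4))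
    (@En.i (nat_lit 4418) (nat_lit 14) (nat_lit 13))
    (@En.i (nat_lit 9403) (nat_lit 5) (nat_lit 6))
    (@En.n l3 (nat_lit 8594) (nat_lit 15) (nat_lit 2))))
  (@Cl.mk (nat_lit 0x3000c0004000d000b00040003000c000c0005000b00040004000d000c0005) (nat_lit 0x70a700730300240) (nat_lit 16) Lb.e (@T16.mk En
    (@En.n l19662 (nat_lit 8979) (nat_lit 0) (nat_lit 5))
    (@En.n l2749 (nat_lit 8606) (nat_lit 8) (nat_lit 12))
    (@En.n l15535 (nat_lit 9139) (nat_lit 2) (nat_lit 13))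
    (@En.n l1071 (nat_lit 8593) (nat_lit 12) (nat_lit 4))
    (@En.i (nat_lit 9399) (nat_lit 4) (nat_lit 4))
    (@En.n l11217 (nat_lit 7376) (nat_lit 0) (nat_lit 11))
    (@En.n l3532 (nat_lit 9398) (nat_lit 1) (nat_lit 5))
    (@En.n l61 (nat_lit 8305) (nat_lit 4) (nat_lit 12))
    (@En.n l396 (nat_lit 10157) (nat_lit 9) (nat_lit 12))
    (@En.n l7 (nat_lit 8309) (nat_lit 13) (nat_lit 3))
    (@En.i (nat_lit 7777) (nat_lit 0) (nat_lit 4))
    (@En.n l644 (nat_lit 8598) (nat_lit 0) (nat_lit 11))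
    (@En.n l19662 (nat_lit 6981) (nat_lit 1) (nat_lit 13))
    (@En.i (nat_lit 8672) (nat_lit 3) (nat_lit 4))
    (@En.i (nat_lit 9575) (nat_lit 0) (nat_lit 12))
    (@En.n l2710 (nat_lit 8307) (nat_lit 15) (nat_lit 3))))
  (@Cl.mk (nat_lit 0x200060005000c0005000d000c00040003000d0004000a0003000b000e000b) (nat_lit 0x3011003060272) (nat_lit 16) Lb.e (@T16.mk En
    (@En.n l3247 (nat_lit 8598) (nat_lit 13) (nat_lit 11))
    (@En.i (nat_lit 12487) (nat_lit 4) (nat_lit 14))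
    (@En.i (nat_lit 2793) (nat_lit 2) (nat_lit 11))
    (@En.i (nat_lit 8332) (nat_lit 3) (nat_lit 3))
    (@En.i (nat_lit 12383) (nat_lit 4) (nat_lit 10))
    (@En.n l28 (nat_lit 8664) (nat_lit 5) (nat_lit 4))
    (@En.n l601 (nat_lit 7633) (nat_lit 7) (nat_lit 13))
    (@En.n l28 (nat_lit 8597) (nat_lit 7) (nat_lit 3))
    (@En.i (nat_lit 8080) (nat_lit 8) (nat_lit 4))
    (@En.n l77 (nat_lit 8528) (nat_lit 10) (nat_lit 12))
    (@En.i (nat_lit 5545) (nat_lit 11) (nat_lit 13))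
    (@En.n l117 (nat_lit 10169) (nat_lit 12) (nat_lit 5))
    (@En.i (nat_lit 7356) (nat_lit 13) (nat_lit 12))
    (@En.n l17 (nat_lit 8592) (nat_lit 14) (nat_lit 5))
    (@En.i (nat_lit 8601) (nat_lit 6) (nat_lit 6))
    (@En.n l3 (nat_lit 8596) (nat_lit 15) (nat_lit 2))))
  (@Cl.mk (nat_lit 0x200060005000d0005000d0003000d0003000d0003000a0003000b000e000b) (nat_lit 0x4020a07060282) (nat_lit 16) Lb.e (@T16.mk En
    (@En.n l17 (nat_lit 8599) (nat_lit 11) (nat_lit 11))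
    (@En.i (nat_lit 12399) (nat_lit 4) (nat_lit 14))
    (@En.i (nat_lit 2792) (nat_lit 2) (nat_lit 11))
    (@En.i (nat_lit 8333) (nat_lit 3) (nat_lit 3))
    (@En.i (nat_lit 12400) (nat_lit 4) (nat_lit 10))
    (@En.i (nat_lit 8528) (nat_lit 5) (nat_lit 3))
    (@En.i (nat_lit 7270) (nat_lit 7) (nat_lit 13))
    (@En.i (nat_lit 8596) (nat_lit 7) (nat_lit 3))
    (@En.i (nat_lit 5991) (nat_lit 9) (nat_lit 13))
    (@En.i (nat_lit 8484) (nat_lit 9) (nat_lit 3))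
    (@En.i (nat_lit 5546) (nat_lit 11) (nat_lit 13))
    (@En.n l117 (nat_lit 10192) (nat_lit 12) (nat_lit 5))
    (@En.i (nat_lit 8611) (nat_lit 13) (nat_lit 13))
    (@En.n l17 (nat_lit 8311) (nat_lit 14) (nat_lit 5))
    (@En.i (nat_lit 8600) (nat_lit 8) (nat_lit 6))
    (@En.n l3 (nat_lit 8597) (nat_lit 15) (nat_lit 2))))
  (@Cl.mk (nat_lit 0x3000c000b000b00050004000b00050005000d000c00050003000d0004000b) (nat_lit 0x211004002900906) (nat_lit 16) Lb.e (@T16.mk En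
    (@En.i (nat_lit 11563) (nat_lit 0) (nat_lit 11))
    (@En.i (nat_lit 8670) (nat_lit 14) (nat_lit 4))
    (@En.n l17645 (nat_lit 7637) (nat_lit 2) (nat_lit 13))
    (@En.n l17646 (nat_lit 8599) (nat_lit 1) (nat_lit 3))
    (@En.i (nat_lit 9042) (nat_lit 0) (nat_lit 5))
    (@En.n l27944 (nat_lit 8535) (nat_lit 4) (nat_lit 12))
    (@En.n l8638 (nat_lit 9151) (nat_lit 2) (nat_lit 13))
    (@En.n l8639 (nat_lit 8596) (nat_lit 11) (nat_lit 5))
    (@En.n l50 (nat_lit 9970) (nat_lit 8) (nat_lit 5))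
    (@En.i (nat_lit 9537) (nat_lit 10) (nat_lit 11))
    (@En.n l50 (nat_lit 8309) (nat_lit 10) (nat_lit 4))
    (@En.n l8641 (nat_lit 8603) (nat_lit 0) (nat_lit 5))
    (@En.n l61 (nat_lit 4629) (nat_lit 5) (nat_lit 11))
    (@En.n l217 (nat_lit 4326) (nat_lit 5) (nat_lit 11))
    (@En.i (nat_lit 2789) (nat_lit 11) (nat_lit 12))
    (@En.i (nat_lit 8329) (nat_lit 15) (nat_lit 3))))
  (@Cl.mk (nat_lit 0x3000b0003000c000b000b00050004000c00050005000d0004000d0003000d) (nat_lit 0x603140080030a09) (nat_lit 16) Lb.e (@T16.mk En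
    (@En.n l899 (nat_lit 7268) (nat_lit 0) (nat_lit 13))
    (@En.n l31324 (nat_lit 8598) (nat_lit 3) (nat_lit 3))
    (@En.i (nat_lit 6000) (nat_lit 0) (nat_lit 13))
    (@En.i (nat_lit 8482) (nat_lit 3) (nat_lit 4))
    (@En.n l899 (nat_lit 10174) (nat_lit 2) (nat_lit 13))
    (@En.n l9272 (nat_lit 8597) (nat_lit 11) (nat_lit 5))
    (@En.n l3851 (nat_lit 9967) (nat_lit 6) (nat_lit 5))
    (@En.n l18470 (nat_lit 8607) (nat_lit 10) (nat_lit 12))
    (@En.i (nat_lit 8304) (nat_lit 10) (nat_lit 4))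
    (@En.n l61 (nat_lit 8602) (nat_lit 9) (nat_lit 5))
    (@En.n l9279 (nat_lit 8298) (nat_lit 5) (nat_lit 11))
    (@En.n l3518 (nat_lit 4330) (nat_lit 5) (nat_lit 11))
    (@En.n l18 (nat_lit 2788) (nat_lit 11) (nat_lit 12))
    (@En.i (nat_lit 8330) (nat_lit 15) (nat_lit 3))
    (@En.i (nat_lit 11566) (nat_lit 0) (nat_lit 11))
    (@En.i (nat_lit 8535) (nat_lit 15) (nat_lit 3))))
  (@Cl.mk (nat_lit 0x3000a000d0004000c0003000c00060004000d0004000d0003000d0003000c) (nat_lit 0x690a000030a0b02) (nat_lit 16) Lb.e (@T16.mk En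
    (@En.i (nat_lit 9577) (nat_lit 0) (nat_lit 12))
    (@En.i (nat_lit 8601) (nat_lit 15) (nat_lit 3))
    (@En.i (nat_lit 5564) (nat_lit 0) (nat_lit 13))
    (@En.i (nat_lit 9095) (nat_lit 3) (nat_lit 3))
    (@En.i (nat_lit 6986) (nat_lit 0) (nat_lit 13))
    (@En.n l117 (nat_lit 10174) (nat_lit 5) (nat_lit 4))
    (@En.i (nat_lit 10820) (nat_lit 2) (nat_lit 13))
    (@En.n l3480 (nat_lit 8304) (nat_lit 5) (nat_lit 4))
    (@En.i (nat_lit 9090) (nat_lit 14) (nat_lit 6))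
    (@En.i (nat_lit 8602) (nat_lit 10) (nat_lit 12))
    (@En.n l6081 (nat_lit 9087) (nat_lit 10) (nat_lit 3))
    (@En.i (nat_lit 4435) (nat_lit 0) (nat_lit 12))
    (@En.i (nat_lit 9170) (nat_lit 8) (nat_lit 4))
    (@En.i (nat_lit 8311) (nat_lit 5) (nat_lit 13))
    (@En.i (nat_lit 12401) (nat_lit 11) (nat_lit 10))
    (@En.i (nat_lit 9085) (nat_lit 15) (nat_lit 3))))
  (@Cl.mk (nat_lit 0x3000c0004000a000d0004000c0003000c00060004000c0004000d000c0004) (nat_lit 0x30790a000000b00) (nat_lit 16) Lb.e (@T16.mk En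
    (@En.i (nat_lit 12716) (nat_lit 0) (nat_lit 4))
    (@En.n l77 (nat_lit 9085) (nat_lit 4) (nat_lit 12))
    (@En.i (nat_lit 6985) (nat_lit 1) (nat_lit 13))
    (@En.n l117 (nat_lit 10175) (nat_lit 3) (nat_lit 4))
    (@En.i (nat_lit 10574) (nat_lit 0) (nat_lit 12))
    (@En.n l3480 (nat_lit 8310) (nat_lit 5) (nat_lit 4))
    (@En.i (nat_lit 8605) (nat_lit 14) (nat_lit 6))
    (@En.i (nat_lit 8603) (nat_lit 1) (nat_lit 12))
    (@En.n l6081 (nat_lit 8604) (nat_lit 8) (nat_lit 3))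
    (@En.i (nat_lit 4434) (nat_lit 0) (nat_lit 12))
    (@En.i (nat_lit 9171) (nat_lit 10) (nat_lit 4))
    (@En.i (nat_lit 8592) (nat_lit 5) (nat_lit 13))
    (@En.i (nat_lit 12403) (nat_lit 1) (nat_lit 10))
    (@En.n l28 (nat_lit 8657) (nat_lit 4) (nat_lit 4))
    (@En.n l601 (nat_lit 9585) (nat_lit 0) (nat_lit 12))
    (@En.n l28 (nat_lit 8600) (nat_lit 1) (nat_lit 3))))
  (@Cl.mk (nat_lit 0x3000b00080004000d000c00050003000c00040008000d0004000d0003000c) (nat_lit 0x630ba00a04a0900) (nat_lit 16) Lb.e (@T16.mk En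
    (@En.n l5646 (nat_lit 9145) (nat_lit 0) (nat_lit 12))
    (@En.i (nat_lit 8603) (nat_lit 8) (nat_lit 3))
    (@En.i (nat_lit 3969) (nat_lit 0) (nat_lit 13))
    (@En.i (nat_lit 9197) (nat_lit 3) (nat_lit 4))
    (@En.n l9182 (nat_lit 8309) (nat_lit 0) (nat_lit 13))
    (@En.n l152 (nat_lit 9090) (nat_lit 11) (nat_lit 8))
    (@En.n l117 (nat_lit 9142) (nat_lit 6) (nat_lit 4))
    (@En.i (nat_lit 10587) (nat_lit 0) (nat_lit 12))
    (@En.n l3480 (nat_lit 4335) (nat_lit 1) (nat_lit 3))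
    (@En.i (nat_lit 9111) (nat_lit 0) (nat_lit 5))
    (@En.n l1532 (nat_lit 9140) (nat_lit 4) (nat_lit 12))
    (@En.i (nat_lit 4242) (nat_lit 10) (nat_lit 13))
    (@En.n l13633 (nat_lit 8601) (nat_lit 3) (nat_lit 4))
    (@En.i (nat_lit 8872) (nat_lit 14) (nat_lit 8))
    (@En.i (nat_lit 10576) (nat_lit 1) (nat_lit 11))
    (@En.i (nat_lit 9138) (nat_lit 15) (nat_lit 3))))
  (@Cl.mk (nat_lit 0x3000b00040008000d000c00050003000c0004000b00080004000d000c0005) (nat_lit 0x3b20000820ba0) (nat_lit 16) Lb.e (@T16.mk En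
    (@En.n l3247 (nat_lit 9112) (nat_lit 0) (nat_lit 5))
    (@En.n l42537 (nat_lit 9150) (nat_lit 4) (nat_lit 12))
    (@En.i (nat_lit 4251) (nat_lit 10) (nat_lit 13))
    (@En.n l10108 (nat_lit 8604) (nat_lit 3) (nat_lit 4))
    (@En.n l345 (nat_lit 8851) (nat_lit 4) (nat_lit 8))
    (@En.n l4427 (nat_lit 10579) (nat_lit 1) (nat_lit 11))
    (@En.n l10108 (nat_lit 8723) (nat_lit 6) (nat_lit 4))
    (@En.n l35309 (nat_lit 10211) (nat_lit 0) (nat_lit 12))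
    (@En.n l28 (nat_lit 8602) (nat_lit 1) (nat_lit 3))
    (@En.n l9174 (nat_lit 11891) (nat_lit 0) (nat_lit 5))
    (@En.n l77 (nat_lit 9138) (nat_lit 4) (nat_lit 12))
    (@En.n l9182 (nat_lit 8595) (nat_lit 12) (nat_lit 13))
    (@En.n l152 (nat_lit 8605) (nat_lit 11) (nat_lit 8))
    (@En.n l345 (nat_lit 9146) (nat_lit 4) (nat_lit 4))
    (@En.i (nat_lit 10590) (nat_lit 0) (nat_lit 11))
    (@En.n l14769 (nat_lit 9194) (nat_lit 1) (nat_lit 3))))
  (@Cl.mk (nat_lit 0x3000b0004000a000d000b00050003000c00060005000c0004000d000c0004) (nat_lit 0x6a200000a0800) (nat_lit 16) Lb.e (@T16.mk En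
    (@En.i (nat_lit 12715) (nat_lit 0) (nat_lit 4))
    (@En.n l217 (nat_lit 9083) (nat_lit 4) (nat_lit 12))
    (@En.i (nat_lit 6991) (nat_lit 1) (nat_lit 13))
    (@En.n l1236 (nat_lit 10172) (nat_lit 3) (nat_lit 4))
    (@En.i (nat_lit 10578) (nat_lit 0) (nat_lit 12))
    (@En.i (nat_lit 10189) (nat_lit 11) (nat_lit 5))
    (@En.n l936 (nat_lit 9091) (nat_lit 14) (nat_lit 6))
    (@En.i (nat_lit 10473) (nat_lit 8) (nat_lit 12))
    (@En.n l3536 (nat_lit 8601) (nat_lit 8) (nat_lit 3))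
    (@En.i (nat_lit 11906) (nat_lit 0) (nat_lit 5))
    (@En.n l68 (nat_lit 8493) (nat_lit 11) (nat_lit 11))
    (@En.n l3866 (nat_lit 8593) (nat_lit 5) (nat_lit 13))
    (@En.i (nat_lit 12409) (nat_lit 3) (nat_lit 10))
    (@En.n l50 (nat_lit 8656) (nat_lit 4) (nat_lit 4))
    (@En.n l830 (nat_lit 10081) (nat_lit 0) (nat_lit 11))
    (@En.n l50 (nat_lit 9087) (nat_lit 1) (nat_lit 3))))
  (@Cl.mk (nat_lit 0x300060003000c0008000d000c00040003000b0004000a0008000d0005000d) (nat_lit 0x72a0009075a01) (nat_lit 16) Lb.e (@T16.mk En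
    (@En.n l9465 (nat_lit 2660) (nat_lit 0) (nat_lit 13))
    (@En.i (nat_lit 11829) (nat_lit 9) (nat_lit 5))
    (@En.n l3 (nat_lit 8601) (nat_lit 11) (nat_lit 13))
    (@En.n l4427 (nat_lit 8602) (nat_lit 5) (nat_lit 8))
    (@En.n l7465 (nat_lit 11822) (nat_lit 4) (nat_lit 10))
    (@En.n l15349 (nat_lit 8654) (nat_lit 5) (nat_lit 4))
    (@En.n l601 (nat_lit 9820) (nat_lit 0) (nat_lit 11))
    (@En.n l28 (nat_lit 9090) (nat_lit 7) (nat_lit 3))
    (@En.n l10171 (nat_lit 12718) (nat_lit 0) (nat_lit 4))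
    (@En.n l77 (nat_lit 9089) (nat_lit 10) (nat_lit 12))
    (@En.n l33186 (nat_lit 6984) (nat_lit 1) (nat_lit 13))
    (@En.n l4427 (nat_lit 10462) (nat_lit 12) (nat_lit 8))
    (@En.i (nat_lit 10577) (nat_lit 13) (nat_lit 12))
    (@En.n l21124 (nat_lit 8702) (nat_lit 5) (nat_lit 3))
    (@En.n l43113 (nat_lit 9114) (nat_lit 12) (nat_lit 6))
    (@En.n l37985 (nat_lit 9091) (nat_lit 15) (nat_lit 3))))
  (@Cl.mk (nat_lit 0x3000c000c0005000c00040004000c0004000d000b00040003000d000b0005) (nat_lit 0xa3090030a700a70) (nat_lit 16) Lb.e (@T16.mk En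
    (@En.i (nat_lit 7766) (nat_lit 0) (nat_lit 5))
    (@En.i (nat_lit 8535) (nat_lit 14) (nat_lit 11))
    (@En.i (nat_lit 8609) (nat_lit 2) (nat_lit 13))
    (@En.n l7 (nat_lit 8307) (nat_lit 13) (nat_lit 3))
    (@En.n l137 (nat_lit 7539) (nat_lit 0) (nat_lit 4))
    (@En.i (nat_lit 8318) (nat_lit 0) (nat_lit 11))
    (@En.n l9448 (nat_lit 4068) (nat_lit 1) (nat_lit 13))
    (@En.i (nat_lit 8489) (nat_lit 7) (nat_lit 4))
    (@En.n l6080 (nat_lit 9196) (nat_lit 9) (nat_lit 12))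
    (@En.n l152 (nat_lit 8530) (nat_lit 12) (nat_lit 4))
    (@En.n l3851 (nat_lit 9401) (nat_lit 0) (nat_lit 4))
    (@En.n l617 (nat_lit 4415) (nat_lit 0) (nat_lit 12))
    (@En.i (nat_lit 9394) (nat_lit 1) (nat_lit 5))
    (@En.n l3536 (nat_lit 8306) (nat_lit 4) (nat_lit 12))
    (@En.n l3518 (nat_lit 10155) (nat_lit 11) (nat_lit 12))
    (@En.n l18 (nat_lit 8308) (nat_lit 15) (nat_lit 3))))
  (@Cl.mk (nat_lit 0x30007000c000c0005000c00040004000c00040009000d0004000d0003000b) (nat_lit 0x44070090250707) (nat_lit 16) Lb.e (@T16.mk En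
    (@En.n l396 (nat_lit 11501) (nat_lit 0) (nat_lit 11))
    (@En.i (nat_lit 8608) (nat_lit 15) (nat_lit 3))
    (@En.n l7 (nat_lit 7022) (nat_lit 0) (nat_lit 13))
    (@En.n l19663 (nat_lit 9537) (nat_lit 3) (nat_lit 4))
    (@En.n l396 (nat_lit 8307) (nat_lit 0) (nat_lit 13))
    (@En.n l7441 (nat_lit 3872) (nat_lit 5) (nat_lit 9))
    (@En.n l11547 (nat_lit 8622) (nat_lit 6) (nat_lit 4))
    (@En.n l18235 (nat_lit 9960) (nat_lit 0) (nat_lit 12))
    (@En.n l3498 (nat_lit 8611) (nat_lit 12) (nat_lit 4))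
    (@En.n l18225 (nat_lit 8616) (nat_lit 9) (nat_lit 4))
    (@En.n l27592 (nat_lit 4388) (nat_lit 0) (nat_lit 12))
    (@En.n l564 (nat_lit 10587) (nat_lit 1) (nat_lit 5))
    (@En.n l32449 (nat_lit 8620) (nat_lit 4) (nat_lit 12))
    (@En.n l18225 (nat_lit 9170) (nat_lit 12) (nat_lit 12))
    (@En.i (nat_lit 7207) (nat_lit 12) (nat_lit 7))
    (@En.i (nat_lit 8609) (nat_lit 15) (nat_lit 3))))
noncomputable def a538 : T16 Cl := @T16.mk Cl
  (@Cl.mk (nat_lit 0x3000b00040007000c000c0005000c00040004000b00040009000d000c0005) (nat_lit 0x700540800702b40) (nat_lit 16) Lb.e (@T16.mk En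
    (@En.n l3221 (nat_lit 7949) (nat_lit 0) (nat_lit 5))
    (@En.n l217 (nat_lit 8609) (nat_lit 4) (nat_lit 12))
    (@En.n l396 (nat_lit 8606) (nat_lit 6) (nat_lit 13))
    (@En.n l38314 (nat_lit 3873) (nat_lit 3) (nat_lit 9))
    (@En.n l38315 (nat_lit 7905) (nat_lit 4) (nat_lit 4))
    (@En.n l18235 (nat_lit 10304) (nat_lit 0) (nat_lit 11))
    (@En.n l3498 (nat_lit 8531) (nat_lit 12) (nat_lit 4))
    (@En.n l18225 (nat_lit 8617) (nat_lit 7) (nat_lit 4))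
    (@En.n l27592 (nat_lit 4386) (nat_lit 0) (nat_lit 12))
    (@En.n l7258 (nat_lit 10586) (nat_lit 1) (nat_lit 5))
    (@En.n l32449 (nat_lit 7903) (nat_lit 4) (nat_lit 12))
    (@En.n l18225 (nat_lit 9169) (nat_lit 12) (nat_lit 12))
    (@En.n l35247 (nat_lit 7208) (nat_lit 11) (nat_lit 7))
    (@En.n l38316 (nat_lit 7755) (nat_lit 14) (nat_lit 4))
    (@En.n l38317 (nat_lit 9436) (nat_lit 0) (nat_lit 11))
    (@En.n l1337 (nat_lit 8607) (nat_lit 1) (nat_lit 3))))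
  (@Cl.mk (nat_lit 0x30007000c000c0006000c00040004000c00040009000c0004000d000a0004) (nat_lit 0x65080030130960) (nat_lit 16) Lb.e (@T16.mk En
    (@En.n l16289 (nat_lit 7757) (nat_lit 0) (nat_lit 4))
    (@En.i (nat_lit 9441) (nat_lit 0) (nat_lit 10))
    (@En.n l16702 (nat_lit 7020) (nat_lit 1) (nat_lit 13))
    (@En.n l19663 (nat_lit 7358) (nat_lit 3) (nat_lit 4))
    (@En.n l396 (nat_lit 7776) (nat_lit 6) (nat_lit 12))
    (@En.n l7441 (nat_lit 3742) (nat_lit 5) (nat_lit 9))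
    (@En.n l11547 (nat_lit 8623) (nat_lit 6) (nat_lit 4))
    (@En.n l11408 (nat_lit 9961) (nat_lit 0) (nat_lit 12))
    (@En.n l3498 (nat_lit 8610) (nat_lit 12) (nat_lit 4))
    (@En.n l18225 (nat_lit 8615) (nat_lit 9) (nat_lit 4))
    (@En.n l7654 (nat_lit 4382) (nat_lit 0) (nat_lit 12))
    (@En.n l31017 (nat_lit 10588) (nat_lit 1) (nat_lit 6))
    (@En.n l32449 (nat_lit 7904) (nat_lit 4) (nat_lit 12))
    (@En.n l18225 (nat_lit 9171) (nat_lit 14) (nat_lit 12))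
    (@En.n l6042 (nat_lit 8608) (nat_lit 12) (nat_lit 7))
    (@En.n l18 (nat_lit 8607) (nat_lit 15) (nat_lit 3))))
  (@Cl.mk (nat_lit 0x20007000d0004000c00030009000c0004000d0009000400030007000e000c) (nat_lit 0x30402306600097) (nat_lit 16) Lb.e (@T16.mk En
    (@En.n l387 (nat_lit 8609) (nat_lit 13) (nat_lit 12))
    (@En.n l5694 (nat_lit 11895) (nat_lit 1) (nat_lit 14))
    (@En.n l612 (nat_lit 8531) (nat_lit 2) (nat_lit 7))
    (@En.n l50 (nat_lit 8611) (nat_lit 3) (nat_lit 3))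
    (@En.n l7678 (nat_lit 7760) (nat_lit 0) (nat_lit 4))
    (@En.i (nat_lit 11524) (nat_lit 5) (nat_lit 9))
    (@En.n l3327 (nat_lit 6911) (nat_lit 7) (nat_lit 13))
    (@En.i (nat_lit 7354) (nat_lit 7) (nat_lit 4))
    (@En.n l617 (nat_lit 7778) (nat_lit 9) (nat_lit 12))
    (@En.i (nat_lit 3740) (nat_lit 10) (nat_lit 9))
    (@En.i (nat_lit 8626) (nat_lit 10) (nat_lit 3))
    (@En.n l8769 (nat_lit 11228) (nat_lit 12) (nat_lit 12))
    (@En.n l6680 (nat_lit 8612) (nat_lit 8) (nat_lit 4))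
    (@En.n l3327 (nat_lit 4383) (nat_lit 14) (nat_lit 13))
    (@En.i (nat_lit 10816) (nat_lit 3) (nat_lit 7))
    (@En.n l3 (nat_lit 8610) (nat_lit 15) (nat_lit 2))))
  (@Cl.mk (nat_lit 0x20006000d0004000c00030009000d0004000d0003000a00030007000e000c) (nat_lit 0x30401b06070095) (nat_lit 16) Lb.e (@T16.mk En
    (@En.n l387 (nat_lit 8607) (nat_lit 13) (nat_lit 12))
    (@En.i (nat_lit 11894) (nat_lit 1) (nat_lit 14))
    (@En.n l387 (nat_lit 4754) (nat_lit 2) (nat_lit 7))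
    (@En.i (nat_lit 8610) (nat_lit 3) (nat_lit 3))
    (@En.i (nat_lit 11502) (nat_lit 4) (nat_lit 10))
    (@En.i (nat_lit 8531) (nat_lit 5) (nat_lit 3))
    (@En.n l1722 (nat_lit 7023) (nat_lit 7) (nat_lit 13))
    (@En.i (nat_lit 7356) (nat_lit 7) (nat_lit 4))
    (@En.n l617 (nat_lit 8594) (nat_lit 9) (nat_lit 13))
    (@En.i (nat_lit 4253) (nat_lit 10) (nat_lit 9))
    (@En.i (nat_lit 8624) (nat_lit 10) (nat_lit 3))
    (@En.i (nat_lit 11230) (nat_lit 12) (nat_lit 12))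
    (@En.n l6680 (nat_lit 8613) (nat_lit 13) (nat_lit 4))
    (@En.n l17 (nat_lit 4387) (nat_lit 14) (nat_lit 13))
    (@En.i (nat_lit 10820) (nat_lit 3) (nat_lit 6))
    (@En.n l3 (nat_lit 8611) (nat_lit 15) (nat_lit 2))))
  (@Cl.mk (nat_lit 0x30007000d000c000b000300080004000c00050009000c0004000d00080004) (nat_lit 0x55800040320750) (nat_lit 16) Lb.e (@T16.mk En
    (@En.n l11706 (nat_lit 7762) (nat_lit 0) (nat_lit 4))
    (@En.i (nat_lit 10500) (nat_lit 6) (nat_lit 8))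
    (@En.n l1723 (nat_lit 5516) (nat_lit 1) (nat_lit 13))
    (@En.n l19799 (nat_lit 9552) (nat_lit 3) (nat_lit 4))
    (@En.i (nat_lit 7770) (nat_lit 6) (nat_lit 12))
    (@En.n l11706 (nat_lit 3741) (nat_lit 10) (nat_lit 9))
    (@En.i (nat_lit 12470) (nat_lit 6) (nat_lit 5))
    (@En.n l17134 (nat_lit 10601) (nat_lit 13) (nat_lit 12))
    (@En.n l6042 (nat_lit 8609) (nat_lit 8) (nat_lit 4))
    (@En.i (nat_lit 10815) (nat_lit 0) (nat_lit 8))
    (@En.n l5368 (nat_lit 8619) (nat_lit 10) (nat_lit 3))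
    (@En.n l10858 (nat_lit 8626) (nat_lit 0) (nat_lit 11))
    (@En.n l6992 (nat_lit 8615) (nat_lit 13) (nat_lit 12))
    (@En.n l17328 (nat_lit 11848) (nat_lit 2) (nat_lit 13))
    (@En.n l6042 (nat_lit 8614) (nat_lit 3) (nat_lit 7))
    (@En.n l50 (nat_lit 8613) (nat_lit 4) (nat_lit 3))))
  (@Cl.mk (nat_lit 0x300070004000c00050009000d0004000d0003000900030007000d000c000b) (nat_lit 0x403b060600548) (nat_lit 16) Lb.e (@T16.mk En
    (@En.n l10858 (nat_lit 8624) (nat_lit 0) (nat_lit 11))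
    (@En.n l6992 (nat_lit 8616) (nat_lit 13) (nat_lit 12))
    (@En.n l16584 (nat_lit 11847) (nat_lit 12) (nat_lit 13))
    (@En.n l6042 (nat_lit 4340) (nat_lit 12) (nat_lit 7))
    (@En.i (nat_lit 8612) (nat_lit 15) (nat_lit 3))
    (@En.i (nat_lit 11490) (nat_lit 0) (nat_lit 9))
    (@En.i (nat_lit 8614) (nat_lit 6) (nat_lit 3))
    (@En.n l1723 (nat_lit 5517) (nat_lit 0) (nat_lit 13))
    (@En.i (nat_lit 9551) (nat_lit 3) (nat_lit 4))
    (@En.i (nat_lit 10193) (nat_lit 10) (nat_lit 13))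
    (@En.n l11244 (nat_lit 4280) (nat_lit 10) (nat_lit 9))
    (@En.i (nat_lit 12472) (nat_lit 6) (nat_lit 5))
    (@En.i (nat_lit 10602) (nat_lit 13) (nat_lit 12))
    (@En.n l6042 (nat_lit 8607) (nat_lit 8) (nat_lit 4))
    (@En.i (nat_lit 10822) (nat_lit 7) (nat_lit 7))
    (@En.n l5368 (nat_lit 8618) (nat_lit 15) (nat_lit 3))))
  (@Cl.mk (nat_lit 0x300070004000b00050009000d000c00050003000900040007000d000c000b) (nat_lit 0x403b300600842) (nat_lit 16) Lb.e (@T16.mk En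
    (@En.n l10858 (nat_lit 8625) (nat_lit 0) (nat_lit 11))
    (@En.n l6992 (nat_lit 8617) (nat_lit 11) (nat_lit 12))
    (@En.n l16584 (nat_lit 11849) (nat_lit 12) (nat_lit 13))
    (@En.n l36110 (nat_lit 7212) (nat_lit 11) (nat_lit 7))
    (@En.n l17790 (nat_lit 7754) (nat_lit 4) (nat_lit 4))
    (@En.n l39386 (nat_lit 10495) (nat_lit 0) (nat_lit 9))
    (@En.n l7 (nat_lit 8613) (nat_lit 6) (nat_lit 3))
    (@En.i (nat_lit 7952) (nat_lit 0) (nat_lit 5))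
    (@En.n l644 (nat_lit 8612) (nat_lit 4) (nat_lit 12))
    (@En.i (nat_lit 10196) (nat_lit 10) (nat_lit 13))
    (@En.n l39387 (nat_lit 3747) (nat_lit 10) (nat_lit 9))
    (@En.n l17334 (nat_lit 12471) (nat_lit 4) (nat_lit 5))
    (@En.n l11408 (nat_lit 10603) (nat_lit 13) (nat_lit 11))
    (@En.n l6042 (nat_lit 8608) (nat_lit 6) (nat_lit 4))
    (@En.i (nat_lit 10817) (nat_lit 7) (nat_lit 7))
    (@En.n l5368 (nat_lit 10314) (nat_lit 15) (nat_lit 3))))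
  (@Cl.mk (nat_lit 0x30007000c000a000d000700040003000c00060009000c0004000d00090004) (nat_lit 0x46500000220200) (nat_lit 16) Lb.e (@T16.mk En
    (@En.n l5302 (nat_lit 7857) (nat_lit 0) (nat_lit 4))
    (@En.i (nat_lit 8778) (nat_lit 0) (nat_lit 9))
    (@En.n l1253 (nat_lit 5512) (nat_lit 1) (nat_lit 13))
    (@En.n l24425 (nat_lit 9540) (nat_lit 3) (nat_lit 4))
    (@En.n l387 (nat_lit 7775) (nat_lit 6) (nat_lit 12))
    (@En.n l5302 (nat_lit 3868) (nat_lit 9) (nat_lit 9))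
    (@En.n l24426 (nat_lit 12478) (nat_lit 14) (nat_lit 6))
    (@En.n l22621 (nat_lit 10301) (nat_lit 8) (nat_lit 12))
    (@En.n l1959 (nat_lit 8619) (nat_lit 8) (nat_lit 3))
    (@En.n l50 (nat_lit 7904) (nat_lit 0) (nat_lit 4))
    (@En.n l829 (nat_lit 10585) (nat_lit 0) (nat_lit 7))
    (@En.i (nat_lit 6311) (nat_lit 5) (nat_lit 13))
    (@En.n l8770 (nat_lit 10322) (nat_lit 13) (nat_lit 10))
    (@En.i (nat_lit 8336) (nat_lit 14) (nat_lit 12))
    (@En.n l343 (nat_lit 8617) (nat_lit 12) (nat_lit 7))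
    (@En.n l28 (nat_lit 8616) (nat_lit 15) (nat_lit 3))))
  (@Cl.mk (nat_lit 0x30007000c000a000d000600040003000c00060009000d0004000d0003000a) (nat_lit 0x364000902a0801) (nat_lit 16) Lb.e (@T16.mk En
    (@En.n l30869 (nat_lit 8562) (nat_lit 0) (nat_lit 10))
    (@En.i (nat_lit 8617) (nat_lit 15) (nat_lit 3))
    (@En.n l1253 (nat_lit 5513) (nat_lit 0) (nat_lit 13))
    (@En.n l117 (nat_lit 9539) (nat_lit 3) (nat_lit 4))
    (@En.n l387 (nat_lit 9400) (nat_lit 0) (nat_lit 13))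
    (@En.n l29265 (nat_lit 3870) (nat_lit 9) (nat_lit 9))
    (@En.n l5649 (nat_lit 12476) (nat_lit 14) (nat_lit 6))
    (@En.n l19493 (nat_lit 10300) (nat_lit 8) (nat_lit 12))
    (@En.n l1959 (nat_lit 8618) (nat_lit 13) (nat_lit 3))
    (@En.n l50 (nat_lit 8620) (nat_lit 0) (nat_lit 4))
    (@En.n l829 (nat_lit 10584) (nat_lit 0) (nat_lit 6))
    (@En.i (nat_lit 6316) (nat_lit 5) (nat_lit 13))
    (@En.n l8770 (nat_lit 10323) (nat_lit 13) (nat_lit 10))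
    (@En.i (nat_lit 10287) (nat_lit 12) (nat_lit 12))
    (@En.n l766 (nat_lit 4349) (nat_lit 12) (nat_lit 7))
    (@En.i (nat_lit 8615) (nat_lit 15) (nat_lit 3))))
  (@Cl.mk (nat_lit 0x3000a00040007000c000a000d000600040003000b00060009000d000c0005) (nat_lit 0x364000504b30) (nat_lit 16) Lb.e (@T16.mk En
    (@En.n l2238 (nat_lit 7950) (nat_lit 0) (nat_lit 5))
    (@En.n l55 (nat_lit 8615) (nat_lit 4) (nat_lit 12))
    (@En.n l387 (nat_lit 9401) (nat_lit 12) (nat_lit 13))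
    (@En.n l19491 (nat_lit 3871) (nat_lit 9) (nat_lit 9))
    (@En.n l19492 (nat_lit 12477) (nat_lit 14) (nat_lit 6))
    (@En.n l19493 (nat_lit 10302) (nat_lit 6) (nat_lit 11))
    (@En.n l1959 (nat_lit 10314) (nat_lit 13) (nat_lit 3))
    (@En.n l50 (nat_lit 7903) (nat_lit 0) (nat_lit 4))
    (@En.n l829 (nat_lit 10583) (nat_lit 0) (nat_lit 6))
    (@En.i (nat_lit 6315) (nat_lit 5) (nat_lit 13))
    (@En.n l19494 (nat_lit 10319) (nat_lit 3) (nat_lit 10))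
    (@En.i (nat_lit 10286) (nat_lit 12) (nat_lit 12))
    (@En.n l766 (nat_lit 7211) (nat_lit 11) (nat_lit 7))
    (@En.n l19495 (nat_lit 7856) (nat_lit 6) (nat_lit 4))
    (@En.n l1973 (nat_lit 8780) (nat_lit 0) (nat_lit 10))
    (@En.n l11 (nat_lit 8616) (nat_lit 1) (nat_lit 3))))
  (@Cl.mk (nat_lit 0x300070003000c00060009000d0004000d0003000900030007000d000a000d) (nat_lit 0x903a030600864) (nat_lit 16) Lb.e (@T16.mk En
    (@En.i (nat_lit 6319) (nat_lit 0) (nat_lit 13))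
    (@En.i (nat_lit 10317) (nat_lit 13) (nat_lit 10))
    (@En.n l11234 (nat_lit 10296) (nat_lit 12) (nat_lit 13))
    (@En.n l253 (nat_lit 4345) (nat_lit 12) (nat_lit 7))
    (@En.i (nat_lit 8619) (nat_lit 15) (nat_lit 3))
    (@En.n l2571 (nat_lit 11491) (nat_lit 0) (nat_lit 9))
    (@En.i (nat_lit 10314) (nat_lit 6) (nat_lit 3))
    (@En.n l253 (nat_lit 5514) (nat_lit 0) (nat_lit 13))
    (@En.n l117 (nat_lit 9548) (nat_lit 3) (nat_lit 4))
    (@En.n l1329 (nat_lit 10198) (nat_lit 10) (nat_lit 13))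
    (@En.n l253 (nat_lit 4281) (nat_lit 9) (nat_lit 9))
    (@En.i (nat_lit 12473) (nat_lit 14) (nat_lit 6))
    (@En.i (nat_lit 10599) (nat_lit 13) (nat_lit 12))
    (@En.n l1063 (nat_lit 8616) (nat_lit 8) (nat_lit 3))
    (@En.i (nat_lit 10983) (nat_lit 0) (nat_lit 7))
    (@En.n l2843 (nat_lit 8613) (nat_lit 15) (nat_lit 3))))
  (@Cl.mk (nat_lit 0x30007000d000a000d000300080003000c00060009000c0004000d00080004) (nat_lit 0x86500020340350) (nat_lit 16) Lb.e (@T16.mk En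
    (@En.n l170 (nat_lit 7854) (nat_lit 0) (nat_lit 4))
    (@En.i (nat_lit 10499) (nat_lit 6) (nat_lit 8))
    (@En.n l11106 (nat_lit 5515) (nat_lit 1) (nat_lit 13))
    (@En.n l5235 (nat_lit 9550) (nat_lit 3) (nat_lit 4))
    (@En.n l7852 (nat_lit 7772) (nat_lit 6) (nat_lit 12))
    (@En.n l170 (nat_lit 4283) (nat_lit 9) (nat_lit 9))
    (@En.n l5236 (nat_lit 12475) (nat_lit 14) (nat_lit 6))
    (@En.n l9911 (nat_lit 10598) (nat_lit 13) (nat_lit 12))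
    (@En.n l1063 (nat_lit 8615) (nat_lit 8) (nat_lit 3))
    (@En.i (nat_lit 11604) (nat_lit 0) (nat_lit 8))
    (@En.n l2843 (nat_lit 8612) (nat_lit 10) (nat_lit 3))
    (@En.i (nat_lit 6321) (nat_lit 0) (nat_lit 13))
    (@En.i (nat_lit 10316) (nat_lit 13) (nat_lit 10))
    (@En.n l11234 (nat_lit 10297) (nat_lit 2) (nat_lit 13))
    (@En.n l343 (nat_lit 10314) (nat_lit 3) (nat_lit 7))
    (@En.n l28 (nat_lit 8618) (nat_lit 4) (nat_lit 3))))
  (@Cl.mk (nat_lit 0x2000c00050009000d0004000d0003000c00030007000c0004000b000e0004) (nat_lit 0x906a090a00307b0) (nat_lit 16) Lb.e (@T16.mk En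
    (@En.n l18289 (nat_lit 8607) (nat_lit 9) (nat_lit 4))
    (@En.i (nat_lit 6314) (nat_lit 4) (nat_lit 14))
    (@En.n l699 (nat_lit 4414) (nat_lit 2) (nat_lit 11))
    (@En.i (nat_lit 9447) (nat_lit 3) (nat_lit 4))
    (@En.i (nat_lit 8600) (nat_lit 0) (nat_lit 12))
    (@En.n l766 (nat_lit 3532) (nat_lit 5) (nat_lit 7))
    (@En.i (nat_lit 7904) (nat_lit 6) (nat_lit 3))
    (@En.i (nat_lit 11569) (nat_lit 0) (nat_lit 12))
    (@En.i (nat_lit 7903) (nat_lit 8) (nat_lit 3))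
    (@En.n l1253 (nat_lit 7021) (nat_lit 10) (nat_lit 13))
    (@En.n l9462 (nat_lit 9535) (nat_lit 10) (nat_lit 4))
    (@En.n l387 (nat_lit 8300) (nat_lit 12) (nat_lit 13))
    (@En.n l15166 (nat_lit 3339) (nat_lit 13) (nat_lit 9))
    (@En.i (nat_lit 8621) (nat_lit 14) (nat_lit 5))
    (@En.i (nat_lit 9791) (nat_lit 8) (nat_lit 12))
    (@En.n l18 (nat_lit 8620) (nat_lit 15) (nat_lit 2))))
  (@Cl.mk (nat_lit 0x200050009000d0007000d0003000c00030007000b0004000b0009000e0005) (nat_lit 0x660909000083c0) (nat_lit 16) Lb.e (@T16.mk En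
    (@En.n l8770 (nat_lit 8622) (nat_lit 8) (nat_lit 5))
    (@En.n l3 (nat_lit 8620) (nat_lit 1) (nat_lit 14))
    (@En.n l42133 (nat_lit 7301) (nat_lit 2) (nat_lit 9))
    (@En.n l699 (nat_lit 4421) (nat_lit 3) (nat_lit 11))
    (@En.i (nat_lit 9136) (nat_lit 4) (nat_lit 4))
    (@En.i (nat_lit 9090) (nat_lit 6) (nat_lit 11))
    (@En.n l766 (nat_lit 7445) (nat_lit 6) (nat_lit 7))
    (@En.i (nat_lit 7902) (nat_lit 7) (nat_lit 3))
    (@En.n l2642 (nat_lit 11570) (nat_lit 9) (nat_lit 12))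
    (@En.n l710 (nat_lit 7901) (nat_lit 9) (nat_lit 3))
    (@En.n l15957 (nat_lit 7014) (nat_lit 11) (nat_lit 13))
    (@En.i (nat_lit 9902) (nat_lit 12) (nat_lit 7))
    (@En.n l387 (nat_lit 8343) (nat_lit 13) (nat_lit 13))
    (@En.n l33184 (nat_lit 8092) (nat_lit 14) (nat_lit 9))
    (@En.n l33185 (nat_lit 8444) (nat_lit 13) (nat_lit 5))
    (@En.n l18 (nat_lit 8621) (nat_lit 15) (nat_lit 2))))
  (@Cl.mk (nat_lit 0x30007000b000b0005000c000a0005000500040009000d0006000d0003000b) (nat_lit 0x61032000550808) (nat_lit 16) Lb.e (@T16.mk En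
    (@En.n l28799 (nat_lit 11500) (nat_lit 0) (nat_lit 11))
    (@En.n l10969 (nat_lit 7905) (nat_lit 15) (nat_lit 3))
    (@En.n l19409 (nat_lit 7017) (nat_lit 0) (nat_lit 13))
    (@En.i (nat_lit 9883) (nat_lit 3) (nat_lit 6))
    (@En.n l21506 (nat_lit 8492) (nat_lit 6) (nat_lit 13))
    (@En.n l17455 (nat_lit 7637) (nat_lit 5) (nat_lit 9))
    (@En.n l18 (nat_lit 10323) (nat_lit 6) (nat_lit 4))
    (@En.n l16958 (nat_lit 8624) (nat_lit 11) (nat_lit 5))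
    (@En.i (nat_lit 10327) (nat_lit 8) (nat_lit 5))
    (@En.n l32416 (nat_lit 7302) (nat_lit 10) (nat_lit 10))
    (@En.n l32472 (nat_lit 4391) (nat_lit 9) (nat_lit 12))
    (@En.n l33196 (nat_lit 10710) (nat_lit 9) (nat_lit 5))
    (@En.n l1899 (nat_lit 8621) (nat_lit 5) (nat_lit 11))
    (@En.n l3057 (nat_lit 11830) (nat_lit 14) (nat_lit 11))
    (@En.i (nat_lit 7115) (nat_lit 12) (nat_lit 7))
    (@En.i (nat_lit 8623) (nat_lit 15) (nat_lit 3))))
  (@Cl.mk (nat_lit 0x30007000b000b0006000c000a0005000500040009000c0006000d000a0004) (nat_lit 0x61082000560970) (nat_lit 16) Lb.e (@T16.mk En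
    (@En.n l17453 (nat_lit 7892) (nat_lit 0) (nat_lit 4))
    (@En.i (nat_lit 8628) (nat_lit 0) (nat_lit 10))
    (@En.n l14457 (nat_lit 7015) (nat_lit 1) (nat_lit 13))
    (@En.n l17454 (nat_lit 7190) (nat_lit 3) (nat_lit 6))
    (@En.n l14457 (nat_lit 7343) (nat_lit 6) (nat_lit 12))
    (@En.n l17455 (nat_lit 7636) (nat_lit 5) (nat_lit 9))
    (@En.n l18 (nat_lit 10322) (nat_lit 6) (nat_lit 4))
    (@En.n l16958 (nat_lit 8626) (nat_lit 11) (nat_lit 5))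
    (@En.n l14457 (nat_lit 10538) (nat_lit 8) (nat_lit 5))
    (@En.n l17456 (nat_lit 7299) (nat_lit 10) (nat_lit 10))
    (@En.n l14457 (nat_lit 4380) (nat_lit 11) (nat_lit 12))
    (@En.n l17457 (nat_lit 10711) (nat_lit 4) (nat_lit 6))
    (@En.n l1899 (nat_lit 7902) (nat_lit 5) (nat_lit 11))
    (@En.n l3057 (nat_lit 11829) (nat_lit 14) (nat_lit 11))
    (@En.i (nat_lit 7905) (nat_lit 12) (nat_lit 7))
    (@En.n l28 (nat_lit 8622) (nat_lit 15) (nat_lit 3))))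
noncomputable def a539 : T16 Cl := @T16.mk Cl
  (@Cl.mk (nat_lit 0x20006000d000b000500030009000d0005000d0003000a00030007000e000b) (nat_lit 0x230024070600b7) (nat_lit 16) Lb.e (@T16.mk En
    (@En.n l7021 (nat_lit 8622) (nat_lit 13) (nat_lit 11))
    (@En.i (nat_lit 11162) (nat_lit 1) (nat_lit 14))
    (@En.n l387 (nat_lit 4755) (nat_lit 2) (nat_lit 7))
    (@En.i (nat_lit 8626) (nat_lit 3) (nat_lit 3))
    (@En.i (nat_lit 11503) (nat_lit 4) (nat_lit 10))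
    (@En.i (nat_lit 8625) (nat_lit 5) (nat_lit 3))
    (@En.n l1722 (nat_lit 7019) (nat_lit 7) (nat_lit 13))
    (@En.n l11 (nat_lit 9882) (nat_lit 7) (nat_lit 5))
    (@En.n l617 (nat_lit 8490) (nat_lit 9) (nat_lit 13))
    (@En.n l780 (nat_lit 7633) (nat_lit 10) (nat_lit 9))
    (@En.n l11 (nat_lit 8611) (nat_lit 10) (nat_lit 3))
    (@En.i (nat_lit 12126) (nat_lit 0) (nat_lit 5))
    (@En.i (nat_lit 10610) (nat_lit 13) (nat_lit 11))
    (@En.n l17 (nat_lit 4389) (nat_lit 14) (nat_lit 13))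
    (@En.i (nat_lit 10719) (nat_lit 3) (nat_lit 6))
    (@En.n l3 (nat_lit 8624) (nat_lit 15) (nat_lit 2))))
  (@Cl.mk (nat_lit 0x20006000d000a000500030009000d000c00060003000a00040007000e000b) (nat_lit 0x240043700600b1) (nat_lit 16) Lb.e (@T16.mk En
    (@En.n l17461 (nat_lit 7905) (nat_lit 11) (nat_lit 11))
    (@En.n l3621 (nat_lit 11160) (nat_lit 1) (nat_lit 14))
    (@En.n l385 (nat_lit 7193) (nat_lit 2) (nat_lit 7))
    (@En.n l17462 (nat_lit 7763) (nat_lit 3) (nat_lit 4))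
    (@En.i (nat_lit 8630) (nat_lit 4) (nat_lit 10))
    (@En.n l7 (nat_lit 8624) (nat_lit 5) (nat_lit 3))
    (@En.n l562 (nat_lit 9614) (nat_lit 6) (nat_lit 6))
    (@En.n l644 (nat_lit 8626) (nat_lit 8) (nat_lit 12))
    (@En.n l617 (nat_lit 8491) (nat_lit 9) (nat_lit 13))
    (@En.n l780 (nat_lit 7629) (nat_lit 10) (nat_lit 9))
    (@En.n l11 (nat_lit 8531) (nat_lit 10) (nat_lit 3))
    (@En.n l9307 (nat_lit 7889) (nat_lit 0) (nat_lit 5))
    (@En.i (nat_lit 10609) (nat_lit 13) (nat_lit 10))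
    (@En.n l17 (nat_lit 4385) (nat_lit 14) (nat_lit 13))
    (@En.i (nat_lit 10716) (nat_lit 3) (nat_lit 6))
    (@En.n l3 (nat_lit 8625) (nat_lit 15) (nat_lit 2))))
  (@Cl.mk (nat_lit 0x20007000d000b000500030009000c0005000d0009000400030007000e000b) (nat_lit 0x240026075000b7) (nat_lit 16) Lb.e (@T16.mk En
    (@En.n l7021 (nat_lit 8623) (nat_lit 13) (nat_lit 11))
    (@En.n l3621 (nat_lit 11164) (nat_lit 1) (nat_lit 14))
    (@En.n l612 (nat_lit 8625) (nat_lit 2) (nat_lit 7))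
    (@En.n l50 (nat_lit 8624) (nat_lit 3) (nat_lit 3))
    (@En.n l7022 (nat_lit 7765) (nat_lit 0) (nat_lit 4))
    (@En.i (nat_lit 8627) (nat_lit 5) (nat_lit 9))
    (@En.n l6268 (nat_lit 7018) (nat_lit 7) (nat_lit 13))
    (@En.n l339 (nat_lit 9880) (nat_lit 7) (nat_lit 5))
    (@En.n l617 (nat_lit 7342) (nat_lit 9) (nat_lit 12))
    (@En.n l7023 (nat_lit 7630) (nat_lit 10) (nat_lit 9))
    (@En.n l11 (nat_lit 8610) (nat_lit 10) (nat_lit 3))
    (@En.n l6268 (nat_lit 7888) (nat_lit 0) (nat_lit 5))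
    (@En.n l6905 (nat_lit 10608) (nat_lit 13) (nat_lit 11))
    (@En.n l6268 (nat_lit 4381) (nat_lit 14) (nat_lit 13))
    (@En.i (nat_lit 10717) (nat_lit 3) (nat_lit 7))
    (@En.n l3 (nat_lit 8626) (nat_lit 15) (nat_lit 2))))
  (@Cl.mk (nat_lit 0x200070006000d000b00060003000a000d000500090003000a0006000e000a) (nat_lit 0x45005604000a5) (nat_lit 16) Lb.e (@T16.mk En
    (@En.n l7021 (nat_lit 8628) (nat_lit 12) (nat_lit 10))
    (@En.n l3659 (nat_lit 11041) (nat_lit 1) (nat_lit 14))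
    (@En.n l612 (nat_lit 8630) (nat_lit 2) (nat_lit 6))
    (@En.n l2285 (nat_lit 11533) (nat_lit 3) (nat_lit 10))
    (@En.n l17463 (nat_lit 8629) (nat_lit 4) (nat_lit 3))
    (@En.n l8743 (nat_lit 12309) (nat_lit 5) (nat_lit 9))
    (@En.n l17464 (nat_lit 9870) (nat_lit 6) (nat_lit 5))
    (@En.n l617 (nat_lit 9103) (nat_lit 8) (nat_lit 13))
    (@En.n l780 (nat_lit 9584) (nat_lit 9) (nat_lit 10))
    (@En.n l11 (nat_lit 11524) (nat_lit 9) (nat_lit 3))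
    (@En.n l2253 (nat_lit 11728) (nat_lit 0) (nat_lit 6))
    (@En.i (nat_lit 9566) (nat_lit 12) (nat_lit 11))
    (@En.n l15048 (nat_lit 6349) (nat_lit 13) (nat_lit 13))
    (@En.i (nat_lit 8624) (nat_lit 14) (nat_lit 6))
    (@En.n l17395 (nat_lit 10763) (nat_lit 4) (nat_lit 7))
    (@En.n l3 (nat_lit 8627) (nat_lit 15) (nat_lit 2))))
  (@Cl.mk (nat_lit 0x3000b0006000a000a00060005000c000a000600060004000a000d0006000a) (nat_lit 0x604000230005706) (nat_lit 16) Lb.e (@T16.mk En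
    (@En.n l22633 (nat_lit 12291) (nat_lit 0) (nat_lit 10))
    (@En.n l21465 (nat_lit 9873) (nat_lit 3) (nat_lit 6))
    (@En.n l21506 (nat_lit 9181) (nat_lit 5) (nat_lit 13))
    (@En.n l17455 (nat_lit 9620) (nat_lit 3) (nat_lit 10))
    (@En.n l18 (nat_lit 8775) (nat_lit 4) (nat_lit 4))
    (@En.n l16958 (nat_lit 8627) (nat_lit 10) (nat_lit 6))
    (@En.i (nat_lit 8786) (nat_lit 6) (nat_lit 6))
    (@En.n l33177 (nat_lit 9464) (nat_lit 6) (nat_lit 10))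
    (@En.n l11008 (nat_lit 6345) (nat_lit 9) (nat_lit 12))
    (@En.i (nat_lit 8622) (nat_lit 11) (nat_lit 5))
    (@En.n l33178 (nat_lit 10532) (nat_lit 5) (nat_lit 6))
    (@En.n l28877 (nat_lit 9137) (nat_lit 6) (nat_lit 10))
    (@En.n l33179 (nat_lit 10413) (nat_lit 13) (nat_lit 10))
    (@En.n l33180 (nat_lit 8632) (nat_lit 14) (nat_lit 6))
    (@En.n l27664 (nat_lit 11548) (nat_lit 10) (nat_lit 11))
    (@En.n l33181 (nat_lit 8631) (nat_lit 15) (nat_lit 3))))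
  (@Cl.mk (nat_lit 0x200080006000d000a00060003000a000d000800060003000a0006000e000a) (nat_lit 0x5036004750000a0) (nat_lit 16) Lb.e (@T16.mk En
    (@En.n l17442 (nat_lit 8631) (nat_lit 12) (nat_lit 10))
    (@En.n l17443 (nat_lit 11038) (nat_lit 1) (nat_lit 14))
    (@En.n l17444 (nat_lit 8633) (nat_lit 2) (nat_lit 6))
    (@En.n l17445 (nat_lit 11530) (nat_lit 3) (nat_lit 10))
    (@En.n l17446 (nat_lit 8627) (nat_lit 4) (nat_lit 3))
    (@En.n l152 (nat_lit 6945) (nat_lit 0) (nat_lit 6))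
    (@En.n l17447 (nat_lit 11521) (nat_lit 6) (nat_lit 8))
    (@En.n l17448 (nat_lit 7835) (nat_lit 8) (nat_lit 13))
    (@En.i (nat_lit 9852) (nat_lit 9) (nat_lit 10))
    (@En.n l14689 (nat_lit 11522) (nat_lit 9) (nat_lit 3))
    (@En.n l9352 (nat_lit 7946) (nat_lit 0) (nat_lit 6))
    (@En.n l17449 (nat_lit 9506) (nat_lit 12) (nat_lit 10))
    (@En.i (nat_lit 6752) (nat_lit 13) (nat_lit 13))
    (@En.n l17450 (nat_lit 8625) (nat_lit 14) (nat_lit 6))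
    (@En.n l17451 (nat_lit 9871) (nat_lit 4) (nat_lit 8))
    (@En.n l18 (nat_lit 8629) (nat_lit 15) (nat_lit 2))))
  (@Cl.mk (nat_lit 0x20006000a000d000a00060003000a0006000d0006000a00030006000e000a) (nat_lit 0x335005070500a4) (nat_lit 16) Lb.e (@T16.mk En
    (@En.n l10563 (nat_lit 8632) (nat_lit 13) (nat_lit 10))
    (@En.n l9375 (nat_lit 12222) (nat_lit 1) (nat_lit 14))
    (@En.n l10564 (nat_lit 11665) (nat_lit 2) (nat_lit 6))
    (@En.n l10565 (nat_lit 8633) (nat_lit 3) (nat_lit 3))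
    (@En.n l10566 (nat_lit 12307) (nat_lit 0) (nat_lit 10))
    (@En.n l10567 (nat_lit 9609) (nat_lit 5) (nat_lit 6))
    (@En.n l644 (nat_lit 8627) (nat_lit 7) (nat_lit 13))
    (@En.n l725 (nat_lit 11532) (nat_lit 7) (nat_lit 6))
    (@En.n l9452 (nat_lit 9855) (nat_lit 9) (nat_lit 10))
    (@En.n l11 (nat_lit 11525) (nat_lit 9) (nat_lit 3))
    (@En.n l10568 (nat_lit 11729) (nat_lit 0) (nat_lit 6))
    (@En.n l10569 (nat_lit 9565) (nat_lit 12) (nat_lit 10))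
    (@En.n l10570 (nat_lit 6758) (nat_lit 13) (nat_lit 13))
    (@En.n l617 (nat_lit 4863) (nat_lit 14) (nat_lit 10))
    (@En.n l9309 (nat_lit 10762) (nat_lit 4) (nat_lit 6))
    (@En.n l3 (nat_lit 8630) (nat_lit 15) (nat_lit 2))))
  (@Cl.mk (nat_lit 0x3000b0006000a000a00070005000c0009000600060004000a000d00090007) (nat_lit 0x608000850005860) (nat_lit 16) Lb.e (@T16.mk En
    (@En.n l33164 (nat_lit 6944) (nat_lit 0) (nat_lit 7))
    (@En.n l33165 (nat_lit 9378) (nat_lit 13) (nat_lit 9))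
    (@En.n l15649 (nat_lit 9180) (nat_lit 5) (nat_lit 13))
    (@En.n l6080 (nat_lit 9618) (nat_lit 3) (nat_lit 10))
    (@En.n l33166 (nat_lit 8774) (nat_lit 4) (nat_lit 4))
    (@En.n l33167 (nat_lit 8629) (nat_lit 10) (nat_lit 6))
    (@En.i (nat_lit 9071) (nat_lit 6) (nat_lit 6))
    (@En.n l33168 (nat_lit 9421) (nat_lit 8) (nat_lit 9))
    (@En.n l10984 (nat_lit 6755) (nat_lit 9) (nat_lit 12))
    (@En.n l33169 (nat_lit 7905) (nat_lit 9) (nat_lit 5))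
    (@En.n l33170 (nat_lit 9785) (nat_lit 5) (nat_lit 7))
    (@En.n l33171 (nat_lit 9134) (nat_lit 6) (nat_lit 10))
    (@En.n l33172 (nat_lit 10414) (nat_lit 13) (nat_lit 10))
    (@En.n l107 (nat_lit 9128) (nat_lit 14) (nat_lit 6))
    (@En.n l33173 (nat_lit 9129) (nat_lit 10) (nat_lit 11))
    (@En.n l28589 (nat_lit 8628) (nat_lit 15) (nat_lit 3))))
  (@Cl.mk (nat_lit 0x30006000a000a00050009000c0009000600060004000a0007000d0007000b) (nat_lit 0x30022300050807) (nat_lit 16) Lb.e (@T16.mk En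
    (@En.n l3066 (nat_lit 12292) (nat_lit 0) (nat_lit 11))
    (@En.n l22564 (nat_lit 9911) (nat_lit 5) (nat_lit 7))
    (@En.n l23233 (nat_lit 8628) (nat_lit 2) (nat_lit 13))
    (@En.n l23234 (nat_lit 9127) (nat_lit 3) (nat_lit 7))
    (@En.n l23235 (nat_lit 9627) (nat_lit 4) (nat_lit 10))
    (@En.n l7074 (nat_lit 8776) (nat_lit 5) (nat_lit 4))
    (@En.n l23236 (nat_lit 8630) (nat_lit 10) (nat_lit 6))
    (@En.n l10972 (nat_lit 8785) (nat_lit 7) (nat_lit 6))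
    (@En.n l3528 (nat_lit 9463) (nat_lit 9) (nat_lit 9))
    (@En.n l10972 (nat_lit 6347) (nat_lit 6) (nat_lit 12))
    (@En.n l22564 (nat_lit 7119) (nat_lit 10) (nat_lit 9))
    (@En.n l20306 (nat_lit 10678) (nat_lit 12) (nat_lit 5))
    (@En.n l644 (nat_lit 9135) (nat_lit 6) (nat_lit 10))
    (@En.i (nat_lit 10313) (nat_lit 9) (nat_lit 10))
    (@En.n l1140 (nat_lit 11433) (nat_lit 12) (nat_lit 6))
    (@En.n l23237 (nat_lit 9128) (nat_lit 15) (nat_lit 3))))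
  (@Cl.mk (nat_lit 0x20007000a000d000900060003000a0006000d0009000700030006000e000a) (nat_lit 0x336005086000a0) (nat_lit 16) Lb.e (@T16.mk En
    (@En.n l217 (nat_lit 9128) (nat_lit 13) (nat_lit 10))
    (@En.n l3201 (nat_lit 12220) (nat_lit 1) (nat_lit 14))
    (@En.i (nat_lit 6904) (nat_lit 2) (nat_lit 6))
    (@En.n l24025 (nat_lit 8630) (nat_lit 3) (nat_lit 3))
    (@En.n l24026 (nat_lit 6946) (nat_lit 0) (nat_lit 7))
    (@En.n l24027 (nat_lit 11530) (nat_lit 5) (nat_lit 9))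
    (@En.n l24028 (nat_lit 8629) (nat_lit 7) (nat_lit 13))
    (@En.n l3264 (nat_lit 11531) (nat_lit 7) (nat_lit 6))
    (@En.n l3928 (nat_lit 9853) (nat_lit 9) (nat_lit 10))
    (@En.n l763 (nat_lit 9438) (nat_lit 9) (nat_lit 3))
    (@En.i (nat_lit 10758) (nat_lit 0) (nat_lit 6))
    (@En.n l24026 (nat_lit 9507) (nat_lit 12) (nat_lit 9))
    (@En.n l1568 (nat_lit 6756) (nat_lit 13) (nat_lit 13))
    (@En.i (nat_lit 4866) (nat_lit 8) (nat_lit 10))
    (@En.n l847 (nat_lit 9653) (nat_lit 4) (nat_lit 7))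
    (@En.n l50 (nat_lit 8633) (nat_lit 15) (nat_lit 2))))
  (@Cl.mk (nat_lit 0x20007000d0004000d0003000b0003000c000c0009000500040004000e000c) (nat_lit 0x301050016000aa) (nat_lit 16) Lb.e (@T16.mk En
    (@En.i (nat_lit 8318) (nat_lit 8) (nat_lit 12))
    (@En.i (nat_lit 12494) (nat_lit 1) (nat_lit 14))
    (@En.n l2172 (nat_lit 8636) (nat_lit 2) (nat_lit 4))
    (@En.i (nat_lit 8594) (nat_lit 3) (nat_lit 4))
    (@En.i (nat_lit 3060) (nat_lit 4) (nat_lit 5))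
    (@En.n l742 (nat_lit 8333) (nat_lit 5) (nat_lit 9))
    (@En.n l396 (nat_lit 7778) (nat_lit 7) (nat_lit 12))
    (@En.n l5911 (nat_lit 8846) (nat_lit 8) (nat_lit 12))
    (@En.i (nat_lit 8635) (nat_lit 8) (nat_lit 3))
    (@En.i (nat_lit 8557) (nat_lit 10) (nat_lit 11))
    (@En.i (nat_lit 7345) (nat_lit 10) (nat_lit 3))
    (@En.i (nat_lit 3994) (nat_lit 12) (nat_lit 13))
    (@En.n l117 (nat_lit 8640) (nat_lit 13) (nat_lit 4))
    (@En.n l5911 (nat_lit 3560) (nat_lit 14) (nat_lit 13))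
    (@En.i (nat_lit 9967) (nat_lit 3) (nat_lit 7))
    (@En.n l3 (nat_lit 8634) (nat_lit 15) (nat_lit 2))))
  (@Cl.mk (nat_lit 0x20007000c0004000d000a00040003000c000c0009000600040004000e000c) (nat_lit 0x40110001600089) (nat_lit 16) Lb.e (@T16.mk En
    (@En.n l345 (nat_lit 8319) (nat_lit 8) (nat_lit 12))
    (@En.i (nat_lit 12495) (nat_lit 1) (nat_lit 14))
    (@En.n l2172 (nat_lit 8637) (nat_lit 2) (nat_lit 4))
    (@En.i (nat_lit 8593) (nat_lit 3) (nat_lit 4))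
    (@En.n l4855 (nat_lit 3048) (nat_lit 4) (nat_lit 6))
    (@En.n l742 (nat_lit 8332) (nat_lit 5) (nat_lit 9))
    (@En.n l396 (nat_lit 7779) (nat_lit 7) (nat_lit 12))
    (@En.n l3540 (nat_lit 9574) (nat_lit 8) (nat_lit 12))
    (@En.n l28 (nat_lit 8634) (nat_lit 8) (nat_lit 3))
    (@En.n l9988 (nat_lit 8646) (nat_lit 9) (nat_lit 4))
    (@En.i (nat_lit 2312) (nat_lit 11) (nat_lit 10))
    (@En.n l3541 (nat_lit 3996) (nat_lit 12) (nat_lit 13))
    (@En.n l117 (nat_lit 8642) (nat_lit 13) (nat_lit 4))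
    (@En.n l3540 (nat_lit 7380) (nat_lit 14) (nat_lit 12))
    (@En.i (nat_lit 9969) (nat_lit 5) (nat_lit 7))
    (@En.n l3 (nat_lit 8635) (nat_lit 15) (nat_lit 2))))
  (@Cl.mk (nat_lit 0x20006000d0004000d0003000a0003000e000c0002000a00060004000e000c) (nat_lit 0x303050710700a8) (nat_lit 16) Lb.e (@T16.mk En
    (@En.i (nat_lit 8324) (nat_lit 11) (nat_lit 12))
    (@En.n l763 (nat_lit 7994) (nat_lit 1) (nat_lit 14))
    (@En.i (nat_lit 8337) (nat_lit 2) (nat_lit 4))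
    (@En.n l1545 (nat_lit 7323) (nat_lit 14) (nat_lit 6))
    (@En.n l765 (nat_lit 8445) (nat_lit 4) (nat_lit 10))
    (@En.n l50 (nat_lit 8636) (nat_lit 5) (nat_lit 2))
    (@En.n l217 (nat_lit 8634) (nat_lit 7) (nat_lit 12))
    (@En.i (nat_lit 6762) (nat_lit 1) (nat_lit 14))
    (@En.i (nat_lit 8637) (nat_lit 8) (nat_lit 3))
    (@En.i (nat_lit 9208) (nat_lit 10) (nat_lit 10))
    (@En.i (nat_lit 8638) (nat_lit 10) (nat_lit 3))
    (@En.i (nat_lit 4886) (nat_lit 12) (nat_lit 13))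
    (@En.n l117 (nat_lit 8639) (nat_lit 6) (nat_lit 4))
    (@En.i (nat_lit 3557) (nat_lit 8) (nat_lit 13))
    (@En.i (nat_lit 8264) (nat_lit 8) (nat_lit 6))
    (@En.n l3 (nat_lit 8636) (nat_lit 15) (nat_lit 2))))
  (@Cl.mk (nat_lit 0x20006000c0004000d000900040003000e000c0002000a00070004000e000c) (nat_lit 0x40940071070089) (nat_lit 16) Lb.e (@T16.mk En
    (@En.n l345 (nat_lit 8325) (nat_lit 11) (nat_lit 12))
    (@En.n l763 (nat_lit 7995) (nat_lit 1) (nat_lit 14))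
    (@En.i (nat_lit 8335) (nat_lit 2) (nat_lit 4))
    (@En.n l1545 (nat_lit 3049) (nat_lit 14) (nat_lit 7))
    (@En.n l765 (nat_lit 8451) (nat_lit 4) (nat_lit 10))
    (@En.n l50 (nat_lit 8637) (nat_lit 5) (nat_lit 2))
    (@En.n l217 (nat_lit 8635) (nat_lit 7) (nat_lit 12))
    (@En.n l3939 (nat_lit 8130) (nat_lit 1) (nat_lit 14))
    (@En.n l28 (nat_lit 8636) (nat_lit 8) (nat_lit 3))
    (@En.n l1030 (nat_lit 8645) (nat_lit 9) (nat_lit 4))
    (@En.i (nat_lit 6997) (nat_lit 11) (nat_lit 9))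
    (@En.i (nat_lit 4885) (nat_lit 12) (nat_lit 13))
    (@En.n l117 (nat_lit 8641) (nat_lit 6) (nat_lit 4))
    (@En.n l1030 (nat_lit 7386) (nat_lit 8) (nat_lit 12))
    (@En.i (nat_lit 8263) (nat_lit 8) (nat_lit 6))
    (@En.n l3 (nat_lit 8637) (nat_lit 15) (nat_lit 2))))
  (@Cl.mk (nat_lit 0x20006000d000c00050003000a0004000e000c0002000a00060004000e000b) (nat_lit 0x250050710700b7) (nat_lit 16) Lb.e (@T16.mk En
    (@En.i (nat_lit 8648) (nat_lit 11) (nat_lit 11))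
    (@En.n l763 (nat_lit 7996) (nat_lit 1) (nat_lit 14))
    (@En.i (nat_lit 8338) (nat_lit 2) (nat_lit 4))
    (@En.n l1545 (nat_lit 7348) (nat_lit 14) (nat_lit 6))
    (@En.n l765 (nat_lit 8448) (nat_lit 4) (nat_lit 10))
    (@En.n l50 (nat_lit 8638) (nat_lit 5) (nat_lit 2))
    (@En.n l217 (nat_lit 7345) (nat_lit 7) (nat_lit 12))
    (@En.i (nat_lit 6760) (nat_lit 8) (nat_lit 14))
    (@En.n l1032 (nat_lit 8643) (nat_lit 8) (nat_lit 4))
    (@En.n l845 (nat_lit 9258) (nat_lit 10) (nat_lit 10))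
    (@En.n l11 (nat_lit 8636) (nat_lit 10) (nat_lit 3))
    (@En.i (nat_lit 8677) (nat_lit 5) (nat_lit 5))
    (@En.n l55 (nat_lit 8637) (nat_lit 13) (nat_lit 12))
    (@En.n l1030 (nat_lit 3558) (nat_lit 8) (nat_lit 13))
    (@En.i (nat_lit 8262) (nat_lit 8) (nat_lit 6))
    (@En.n l3 (nat_lit 8638) (nat_lit 15) (nat_lit 2))))
  (@Cl.mk (nat_lit 0x2000900060004000d000c000b000300070004000d0005000a0003000e000c) (nat_lit 0x100878000908070) (nat_lit 16) Lb.e (@T16.mk En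
    (@En.n l217 (nat_lit 8640) (nat_lit 8) (nat_lit 12))
    (@En.i (nat_lit 6768) (nat_lit 1) (nat_lit 14))
    (@En.i (nat_lit 8641) (nat_lit 2) (nat_lit 3))
    (@En.n l17034 (nat_lit 9099) (nat_lit 3) (nat_lit 10))
    (@En.i (nat_lit 8679) (nat_lit 4) (nat_lit 5))
    (@En.i (nat_lit 10245) (nat_lit 6) (nat_lit 13))
    (@En.i (nat_lit 8324) (nat_lit 6) (nat_lit 4))
    (@En.i (nat_lit 8266) (nat_lit 7) (nat_lit 7))
    (@En.n l18589 (nat_lit 8742) (nat_lit 8) (nat_lit 3))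
    (@En.n l619 (nat_lit 8638) (nat_lit 0) (nat_lit 11))
    (@En.n l3866 (nat_lit 8739) (nat_lit 11) (nat_lit 12))
    (@En.n l763 (nat_lit 7730) (nat_lit 12) (nat_lit 13))
    (@En.i (nat_lit 10189) (nat_lit 3) (nat_lit 4))
    (@En.n l1545 (nat_lit 7325) (nat_lit 14) (nat_lit 6))
    (@En.n l829 (nat_lit 8457) (nat_lit 12) (nat_lit 9))
    (@En.n l50 (nat_lit 8639) (nat_lit 15) (nat_lit 2))))
noncomputable def a540 : T16 Cl := @T16.mk Cl
  (@Cl.mk (nat_lit 0x300080004000d0005000b0003000c000c0008000500040004000d000c000b) (nat_lit 0x408080a55000b41) (nat_lit 16) Lb.e (@T16.mk En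
    (@En.n l619 (nat_lit 7345) (nat_lit 0) (nat_lit 11))
    (@En.n l3866 (nat_lit 8735) (nat_lit 8) (nat_lit 12))
    (@En.i (nat_lit 10929) (nat_lit 2) (nat_lit 13))
    (@En.n l2172 (nat_lit 8639) (nat_lit 12) (nat_lit 4))
    (@En.i (nat_lit 10193) (nat_lit 4) (nat_lit 4))
    (@En.n l22962 (nat_lit 7328) (nat_lit 0) (nat_lit 5))
    (@En.n l742 (nat_lit 10191) (nat_lit 6) (nat_lit 8))
    (@En.n l396 (nat_lit 7770) (nat_lit 4) (nat_lit 12))
    (@En.n l7 (nat_lit 8849) (nat_lit 9) (nat_lit 12))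
    (@En.i (nat_lit 8642) (nat_lit 9) (nat_lit 3))
    (@En.i (nat_lit 9107) (nat_lit 0) (nat_lit 11))
    (@En.i (nat_lit 8505) (nat_lit 6) (nat_lit 5))
    (@En.n l5801 (nat_lit 10251) (nat_lit 2) (nat_lit 13))
    (@En.i (nat_lit 8318) (nat_lit 3) (nat_lit 4))
    (@En.i (nat_lit 9970) (nat_lit 4) (nat_lit 8))
    (@En.n l117 (nat_lit 8737) (nat_lit 15) (nat_lit 3))))
  (@Cl.mk (nat_lit 0x2000900070004000d000c000a000300070004000d000900060003000e000c) (nat_lit 0x100793000920070) (nat_lit 16) Lb.e (@T16.mk En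
    (@En.n l217 (nat_lit 8642) (nat_lit 8) (nat_lit 12))
    (@En.n l1546 (nat_lit 8132) (nat_lit 1) (nat_lit 14))
    (@En.n l28 (nat_lit 8639) (nat_lit 2) (nat_lit 3))
    (@En.n l10926 (nat_lit 7976) (nat_lit 3) (nat_lit 6))
    (@En.i (nat_lit 6190) (nat_lit 4) (nat_lit 9))
    (@En.n l10927 (nat_lit 10246) (nat_lit 6) (nat_lit 13))
    (@En.n l345 (nat_lit 8325) (nat_lit 6) (nat_lit 4))
    (@En.i (nat_lit 8265) (nat_lit 7) (nat_lit 7))
    (@En.n l10928 (nat_lit 8743) (nat_lit 8) (nat_lit 3))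
    (@En.n l6625 (nat_lit 8643) (nat_lit 0) (nat_lit 10))
    (@En.n l1236 (nat_lit 8740) (nat_lit 11) (nat_lit 12))
    (@En.n l763 (nat_lit 7728) (nat_lit 12) (nat_lit 13))
    (@En.i (nat_lit 10165) (nat_lit 3) (nat_lit 4))
    (@En.n l10633 (nat_lit 4198) (nat_lit 14) (nat_lit 7))
    (@En.n l10926 (nat_lit 8460) (nat_lit 12) (nat_lit 9))
    (@En.n l50 (nat_lit 8641) (nat_lit 15) (nat_lit 2))))
  (@Cl.mk (nat_lit 0x300080004000d000a00060003000c000c0008000600040004000d000c000a) (nat_lit 0x60a100a50000298) (nat_lit 16) Lb.e (@T16.mk En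
    (@En.n l6625 (nat_lit 8644) (nat_lit 0) (nat_lit 10))
    (@En.n l1236 (nat_lit 8736) (nat_lit 8) (nat_lit 12))
    (@En.i (nat_lit 10928) (nat_lit 2) (nat_lit 13))
    (@En.n l2172 (nat_lit 8641) (nat_lit 12) (nat_lit 4))
    (@En.i (nat_lit 10166) (nat_lit 4) (nat_lit 4))
    (@En.n l22962 (nat_lit 3044) (nat_lit 0) (nat_lit 6))
    (@En.n l742 (nat_lit 10171) (nat_lit 6) (nat_lit 8))
    (@En.n l396 (nat_lit 7771) (nat_lit 4) (nat_lit 12))
    (@En.n l22963 (nat_lit 10074) (nat_lit 9) (nat_lit 12))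
    (@En.n l28 (nat_lit 8640) (nat_lit 9) (nat_lit 3))
    (@En.n l15691 (nat_lit 5886) (nat_lit 0) (nat_lit 6))
    (@En.i (nat_lit 2317) (nat_lit 12) (nat_lit 10))
    (@En.n l5801 (nat_lit 10250) (nat_lit 2) (nat_lit 13))
    (@En.n l345 (nat_lit 8319) (nat_lit 3) (nat_lit 4))
    (@En.i (nat_lit 9971) (nat_lit 4) (nat_lit 8))
    (@En.n l22964 (nat_lit 8738) (nat_lit 15) (nat_lit 3))))
  (@Cl.mk (nat_lit 0x20006000c000c0008000600040004000e000c0002000a00080004000e000a) (nat_lit 0x434000850560b2) (nat_lit 16) Lb.e (@T16.mk En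
    (@En.n l1234 (nat_lit 7653) (nat_lit 11) (nat_lit 10))
    (@En.n l3740 (nat_lit 5707) (nat_lit 1) (nat_lit 14))
    (@En.n l1652 (nat_lit 8086) (nat_lit 2) (nat_lit 4))
    (@En.i (nat_lit 4161) (nat_lit 14) (nat_lit 8))
    (@En.n l1234 (nat_lit 7742) (nat_lit 4) (nat_lit 10))
    (@En.n l28 (nat_lit 8643) (nat_lit 5) (nat_lit 2))
    (@En.n l77 (nat_lit 8644) (nat_lit 7) (nat_lit 12))
    (@En.n l476 (nat_lit 7652) (nat_lit 8) (nat_lit 14))
    (@En.n l152 (nat_lit 8647) (nat_lit 8) (nat_lit 4))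
    (@En.n l1652 (nat_lit 8637) (nat_lit 9) (nat_lit 4))
    (@En.n l1234 (nat_lit 6311) (nat_lit 4) (nat_lit 6))
    (@En.n l906 (nat_lit 6998) (nat_lit 12) (nat_lit 8))
    (@En.n l1653 (nat_lit 8645) (nat_lit 13) (nat_lit 12))
    (@En.n l1234 (nat_lit 7642) (nat_lit 8) (nat_lit 12))
    (@En.n l3741 (nat_lit 8268) (nat_lit 8) (nat_lit 6))
    (@En.n l18 (nat_lit 8643) (nat_lit 15) (nat_lit 2))))
  (@Cl.mk (nat_lit 0x20007000c000c0009000600040004000c000c0009000700040004000e000a) (nat_lit 0x436000404000b7) (nat_lit 16) Lb.e (@T16.mk En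
    (@En.n l3208 (nat_lit 8940) (nat_lit 13) (nat_lit 10))
    (@En.n l2724 (nat_lit 5309) (nat_lit 1) (nat_lit 14))
    (@En.n l237 (nat_lit 8643) (nat_lit 2) (nat_lit 4))
    (@En.n l1652 (nat_lit 8084) (nat_lit 3) (nat_lit 4))
    (@En.i (nat_lit 4157) (nat_lit 4) (nat_lit 7))
    (@En.n l414 (nat_lit 9012) (nat_lit 5) (nat_lit 9))
    (@En.n l134 (nat_lit 8970) (nat_lit 7) (nat_lit 12))
    (@En.n l5408 (nat_lit 9354) (nat_lit 8) (nat_lit 12))
    (@En.n l152 (nat_lit 8938) (nat_lit 8) (nat_lit 4))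
    (@En.n l1652 (nat_lit 8635) (nat_lit 9) (nat_lit 4))
    (@En.n l3208 (nat_lit 4081) (nat_lit 0) (nat_lit 6))
    (@En.n l906 (nat_lit 2313) (nat_lit 12) (nat_lit 9))
    (@En.n l5411 (nat_lit 8646) (nat_lit 13) (nat_lit 12))
    (@En.n l5408 (nat_lit 7641) (nat_lit 14) (nat_lit 12))
    (@En.n l1652 (nat_lit 8893) (nat_lit 4) (nat_lit 7))
    (@En.n l18 (nat_lit 8644) (nat_lit 15) (nat_lit 2))))
  (@Cl.mk (nat_lit 0x20006000c00070005000e00040002000e000c0002000a00090004000e000b) (nat_lit 0x200900c60670c3) (nat_lit 16) Lb.e (@T16.mk En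
    (@En.n l77 (nat_lit 8984) (nat_lit 11) (nat_lit 11))
    (@En.n l1253 (nat_lit 5702) (nat_lit 1) (nat_lit 14))
    (@En.n l290 (nat_lit 8085) (nat_lit 2) (nat_lit 4))
    (@En.n l387 (nat_lit 4145) (nat_lit 14) (nat_lit 9))
    (@En.i (nat_lit 7414) (nat_lit 4) (nat_lit 10))
    (@En.n l3 (nat_lit 8645) (nat_lit 5) (nat_lit 2))
    (@En.n l387 (nat_lit 8646) (nat_lit 7) (nat_lit 12))
    (@En.i (nat_lit 7648) (nat_lit 1) (nat_lit 14))
    (@En.n l18 (nat_lit 8645) (nat_lit 8) (nat_lit 2))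
    (@En.n l339 (nat_lit 8643) (nat_lit 9) (nat_lit 4))
    (@En.n l1118 (nat_lit 4887) (nat_lit 11) (nat_lit 14))
    (@En.i (nat_lit 6312) (nat_lit 5) (nat_lit 5))
    (@En.n l290 (nat_lit 4143) (nat_lit 13) (nat_lit 7))
    (@En.i (nat_lit 8668) (nat_lit 8) (nat_lit 12))
    (@En.n l115 (nat_lit 8886) (nat_lit 8) (nat_lit 6))
    (@En.n l28 (nat_lit 8645) (nat_lit 15) (nat_lit 2))))
  (@Cl.mk (nat_lit 0x20007000c00080005000e00040002000c000c0009000800040004000e000b) (nat_lit 0x240a00505200c0) (nat_lit 16) Lb.e (@T16.mk En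
    (@En.i (nat_lit 8973) (nat_lit 8) (nat_lit 11))
    (@En.n l3497 (nat_lit 12612) (nat_lit 1) (nat_lit 14))
    (@En.n l3498 (nat_lit 8645) (nat_lit 2) (nat_lit 4))
    (@En.n l3499 (nat_lit 8081) (nat_lit 3) (nat_lit 4))
    (@En.i (nat_lit 4148) (nat_lit 4) (nat_lit 8))
    (@En.n l3500 (nat_lit 8087) (nat_lit 5) (nat_lit 9))
    (@En.n l3501 (nat_lit 8971) (nat_lit 7) (nat_lit 12))
    (@En.n l3502 (nat_lit 9485) (nat_lit 8) (nat_lit 12))
    (@En.n l17 (nat_lit 8646) (nat_lit 8) (nat_lit 2))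
    (@En.n l3503 (nat_lit 8644) (nat_lit 9) (nat_lit 4))
    (@En.n l3504 (nat_lit 3997) (nat_lit 11) (nat_lit 14))
    (@En.i (nat_lit 6310) (nat_lit 2) (nat_lit 5))
    (@En.n l3499 (nat_lit 2916) (nat_lit 13) (nat_lit 8))
    (@En.n l3505 (nat_lit 8673) (nat_lit 14) (nat_lit 12))
    (@En.n l3506 (nat_lit 8891) (nat_lit 5) (nat_lit 7))
    (@En.n l28 (nat_lit 8646) (nat_lit 15) (nat_lit 2))))
  (@Cl.mk (nat_lit 0x20006000e000c0002000900070004000e000c0002000a00070004000e0009) (nat_lit 0x350600830400a4) (nat_lit 16) Lb.e (@T16.mk En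
    (@En.n l521 (nat_lit 8934) (nat_lit 4) (nat_lit 9))
    (@En.n l1128 (nat_lit 5782) (nat_lit 1) (nat_lit 14))
    (@En.n l916 (nat_lit 9001) (nat_lit 2) (nat_lit 4))
    (@En.i (nat_lit 4165) (nat_lit 14) (nat_lit 7))
    (@En.n l175 (nat_lit 7746) (nat_lit 4) (nat_lit 10))
    (@En.n l28 (nat_lit 8647) (nat_lit 5) (nat_lit 2))
    (@En.n l77 (nat_lit 8938) (nat_lit 7) (nat_lit 12))
    (@En.n l521 (nat_lit 5039) (nat_lit 8) (nat_lit 14))
    (@En.n l916 (nat_lit 8638) (nat_lit 8) (nat_lit 4))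
    (@En.n l521 (nat_lit 6321) (nat_lit 14) (nat_lit 7))
    (@En.n l1129 (nat_lit 9256) (nat_lit 11) (nat_lit 9))
    (@En.n l3 (nat_lit 8647) (nat_lit 11) (nat_lit 2))
    (@En.i (nat_lit 8643) (nat_lit 13) (nat_lit 12))
    (@En.n l290 (nat_lit 4143) (nat_lit 8) (nat_lit 14))
    (@En.n l1130 (nat_lit 8928) (nat_lit 2) (nat_lit 6))
    (@En.n l18 (nat_lit 8647) (nat_lit 15) (nat_lit 2))))
  (@Cl.mk (nat_lit 0x2000b00060004000b000b0005000c000b000500050004000a0005000e000c) (nat_lit 0x800630a20006082) (nat_lit 16) Lb.e (@T16.mk En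
    (@En.n l8025 (nat_lit 8320) (nat_lit 3) (nat_lit 12))
    (@En.n l7543 (nat_lit 6763) (nat_lit 1) (nat_lit 14))
    (@En.n l1030 (nat_lit 7653) (nat_lit 2) (nat_lit 5))
    (@En.n l845 (nat_lit 9254) (nat_lit 3) (nat_lit 10))
    (@En.n l3535 (nat_lit 8649) (nat_lit 4) (nat_lit 4))
    (@En.n l152 (nat_lit 8638) (nat_lit 11) (nat_lit 5))
    (@En.n l7791 (nat_lit 8653) (nat_lit 6) (nat_lit 5))
    (@En.n l870 (nat_lit 8325) (nat_lit 8) (nat_lit 11))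
    (@En.n l1030 (nat_lit 3563) (nat_lit 9) (nat_lit 12))
    (@En.n l3928 (nat_lit 9836) (nat_lit 9) (nat_lit 5))
    (@En.n l3536 (nat_lit 8322) (nat_lit 5) (nat_lit 11))
    (@En.n l8026 (nat_lit 9808) (nat_lit 12) (nat_lit 11))
    (@En.i (nat_lit 8493) (nat_lit 13) (nat_lit 4))
    (@En.n l8027 (nat_lit 7324) (nat_lit 14) (nat_lit 6))
    (@En.n l847 (nat_lit 8365) (nat_lit 1) (nat_lit 11))
    (@En.n l50 (nat_lit 8648) (nat_lit 15) (nat_lit 2))))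
  (@Cl.mk (nat_lit 0x2000b00060004000a000d0005000c0003000c00060004000a0004000e000c) (nat_lit 0x400780a00003090) (nat_lit 16) Lb.e (@T16.mk En
    (@En.n l77 (nat_lit 8657) (nat_lit 9) (nat_lit 12))
    (@En.n l745 (nat_lit 4439) (nat_lit 1) (nat_lit 14))
    (@En.n l19236 (nat_lit 10202) (nat_lit 2) (nat_lit 4))
    (@En.n l499 (nat_lit 9416) (nat_lit 3) (nat_lit 10))
    (@En.n l3480 (nat_lit 8324) (nat_lit 4) (nat_lit 4))
    (@En.n l19236 (nat_lit 8651) (nat_lit 5) (nat_lit 6))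
    (@En.n l965 (nat_lit 9153) (nat_lit 7) (nat_lit 12))
    (@En.n l6081 (nat_lit 8650) (nat_lit 7) (nat_lit 3))
    (@En.n l499 (nat_lit 3608) (nat_lit 9) (nat_lit 12))
    (@En.n l10108 (nat_lit 9833) (nat_lit 9) (nat_lit 5))
    (@En.i (nat_lit 8668) (nat_lit 5) (nat_lit 13))
    (@En.n l1116 (nat_lit 9779) (nat_lit 12) (nat_lit 10))
    (@En.i (nat_lit 8601) (nat_lit 13) (nat_lit 4))
    (@En.n l19236 (nat_lit 7331) (nat_lit 14) (nat_lit 6))
    (@En.n l3424 (nat_lit 10088) (nat_lit 1) (nat_lit 11))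
    (@En.n l28 (nat_lit 8649) (nat_lit 15) (nat_lit 2))))
  (@Cl.mk (nat_lit 0x2000a00060004000a000d000b00060003000c00060005000a0004000e000c) (nat_lit 0x500624002000030) (nat_lit 16) Lb.e (@T16.mk En
    (@En.n l217 (nat_lit 8656) (nat_lit 9) (nat_lit 12))
    (@En.n l22939 (nat_lit 4440) (nat_lit 1) (nat_lit 14))
    (@En.n l22940 (nat_lit 10203) (nat_lit 2) (nat_lit 4))
    (@En.n l22939 (nat_lit 9581) (nat_lit 3) (nat_lit 10))
    (@En.i (nat_lit 8639) (nat_lit 4) (nat_lit 5))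
    (@En.n l22940 (nat_lit 8652) (nat_lit 5) (nat_lit 6))
    (@En.n l22941 (nat_lit 10254) (nat_lit 7) (nat_lit 12))
    (@En.n l3536 (nat_lit 8649) (nat_lit 7) (nat_lit 3))
    (@En.n l2552 (nat_lit 12545) (nat_lit 8) (nat_lit 6))
    (@En.n l68 (nat_lit 8648) (nat_lit 10) (nat_lit 11))
    (@En.n l3866 (nat_lit 8671) (nat_lit 5) (nat_lit 13))
    (@En.n l20211 (nat_lit 9777) (nat_lit 12) (nat_lit 10))
    (@En.i (nat_lit 8604) (nat_lit 13) (nat_lit 4))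
    (@En.n l18589 (nat_lit 7360) (nat_lit 14) (nat_lit 6))
    (@En.n l10987 (nat_lit 10079) (nat_lit 1) (nat_lit 10))
    (@En.n l50 (nat_lit 8650) (nat_lit 15) (nat_lit 2))))
  (@Cl.mk (nat_lit 0x2000a00060004000a0008000d0006000d000300060003000a0008000e000c) (nat_lit 0x5007290a0002210) (nat_lit 16) Lb.e (@T16.mk En
    (@En.n l3212 (nat_lit 8654) (nat_lit 10) (nat_lit 12))
    (@En.n l34482 (nat_lit 4437) (nat_lit 1) (nat_lit 14))
    (@En.i (nat_lit 7099) (nat_lit 2) (nat_lit 8))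
    (@En.n l16383 (nat_lit 9415) (nat_lit 3) (nat_lit 10))
    (@En.n l32195 (nat_lit 8653) (nat_lit 4) (nat_lit 3))
    (@En.n l3219 (nat_lit 9210) (nat_lit 12) (nat_lit 6))
    (@En.n l117 (nat_lit 8652) (nat_lit 6) (nat_lit 3))
    (@En.n l34483 (nat_lit 3601) (nat_lit 0) (nat_lit 13))
    (@En.n l2642 (nat_lit 9832) (nat_lit 8) (nat_lit 6))
    (@En.n l9837 (nat_lit 8649) (nat_lit 10) (nat_lit 13))
    (@En.i (nat_lit 9144) (nat_lit 11) (nat_lit 8))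
    (@En.n l6642 (nat_lit 9778) (nat_lit 12) (nat_lit 10))
    (@En.n l3585 (nat_lit 8605) (nat_lit 5) (nat_lit 4))
    (@En.i (nat_lit 7214) (nat_lit 14) (nat_lit 6))
    (@En.n l3486 (nat_lit 9819) (nat_lit 1) (nat_lit 10))
    (@En.n l50 (nat_lit 8651) (nat_lit 15) (nat_lit 2))))
  (@Cl.mk (nat_lit 0x2000900060004000a0008000d000c0007000300060004000a0008000e000c) (nat_lit 0x500623500002219) (nat_lit 16) Lb.e (@T16.mk En
    (@En.n l11399 (nat_lit 8655) (nat_lit 10) (nat_lit 12))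
    (@En.n l11400 (nat_lit 4438) (nat_lit 1) (nat_lit 14))
    (@En.i (nat_lit 7100) (nat_lit 2) (nat_lit 8))
    (@En.n l21460 (nat_lit 9582) (nat_lit 3) (nat_lit 10))
    (@En.n l21461 (nat_lit 8718) (nat_lit 4) (nat_lit 4))
    (@En.n l3088 (nat_lit 5585) (nat_lit 5) (nat_lit 6))
    (@En.n l152 (nat_lit 8651) (nat_lit 6) (nat_lit 3))
    (@En.i (nat_lit 12546) (nat_lit 0) (nat_lit 7))
    (@En.n l21462 (nat_lit 8653) (nat_lit 9) (nat_lit 12))
    (@En.n l21461 (nat_lit 8650) (nat_lit 10) (nat_lit 13))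
    (@En.i (nat_lit 9145) (nat_lit 11) (nat_lit 8))
    (@En.n l21463 (nat_lit 9776) (nat_lit 12) (nat_lit 10))
    (@En.n l21461 (nat_lit 9091) (nat_lit 5) (nat_lit 4))
    (@En.i (nat_lit 7212) (nat_lit 14) (nat_lit 6))
    (@En.i (nat_lit 9823) (nat_lit 1) (nat_lit 9))
    (@En.n l50 (nat_lit 8652) (nat_lit 15) (nat_lit 2))))
  (@Cl.mk (nat_lit 0x2000a00060004000b0008000c0006000d000500040003000a0008000e000c) (nat_lit 0x5007240a0008313) (nat_lit 16) Lb.e (@T16.mk En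
    (@En.n l18719 (nat_lit 8658) (nat_lit 12) (nat_lit 12))
    (@En.n l18720 (nat_lit 2416) (nat_lit 1) (nat_lit 14))
    (@En.n l18368 (nat_lit 7096) (nat_lit 2) (nat_lit 8))
    (@En.n l17242 (nat_lit 9506) (nat_lit 3) (nat_lit 10))
    (@En.n l18721 (nat_lit 8651) (nat_lit 4) (nat_lit 3))
    (@En.n l6784 (nat_lit 8676) (nat_lit 5) (nat_lit 4))
    (@En.n l14187 (nat_lit 8741) (nat_lit 6) (nat_lit 5))
    (@En.n l18360 (nat_lit 3600) (nat_lit 8) (nat_lit 13))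
    (@En.i (nat_lit 9834) (nat_lit 8) (nat_lit 6))
    (@En.n l9715 (nat_lit 8324) (nat_lit 10) (nat_lit 12))
    (@En.n l18368 (nat_lit 9143) (nat_lit 11) (nat_lit 8))
    (@En.n l18722 (nat_lit 11392) (nat_lit 12) (nat_lit 11))
    (@En.n l9715 (nat_lit 8702) (nat_lit 13) (nat_lit 4))
    (@En.n l18723 (nat_lit 7211) (nat_lit 14) (nat_lit 6))
    (@En.n l18724 (nat_lit 9817) (nat_lit 1) (nat_lit 10))
    (@En.n l67 (nat_lit 8653) (nat_lit 15) (nat_lit 2))))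
  (@Cl.mk (nat_lit 0x300060003000b0008000c000c0009000500040004000a0008000d0007000d) (nat_lit 0x82a030007340b) (nat_lit 16) Lb.e (@T16.mk En
    (@En.n l15449 (nat_lit 3594) (nat_lit 0) (nat_lit 13))
    (@En.n l28018 (nat_lit 8750) (nat_lit 3) (nat_lit 7))
    (@En.n l6238 (nat_lit 8657) (nat_lit 2) (nat_lit 13))
    (@En.n l30876 (nat_lit 9142) (nat_lit 5) (nat_lit 8))
    (@En.n l287 (nat_lit 11882) (nat_lit 4) (nat_lit 10))
    (@En.n l6303 (nat_lit 8651) (nat_lit 12) (nat_lit 4))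
    (@En.n l26068 (nat_lit 9089) (nat_lit 6) (nat_lit 4))
    (@En.n l936 (nat_lit 4345) (nat_lit 0) (nat_lit 5))
    (@En.n l42031 (nat_lit 10290) (nat_lit 1) (nat_lit 9))
    (@En.n l2691 (nat_lit 8659) (nat_lit 4) (nat_lit 12))
    (@En.n l15449 (nat_lit 10228) (nat_lit 11) (nat_lit 12))
    (@En.n l1448 (nat_lit 7102) (nat_lit 12) (nat_lit 8))
    (@En.i (nat_lit 9409) (nat_lit 13) (nat_lit 11))
    (@En.n l42032 (nat_lit 8658) (nat_lit 15) (nat_lit 3))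
    (@En.i (nat_lit 8279) (nat_lit 12) (nat_lit 6))
    (@En.n l4189 (nat_lit 8655) (nat_lit 15) (nat_lit 3))))
  (@Cl.mk (nat_lit 0x300060004000b0008000c000c0008000500040004000a0008000d000c0008) (nat_lit 0x8280400073464) (nat_lit 16) Lb.e (@T16.mk En
    (@En.n l97 (nat_lit 11654) (nat_lit 0) (nat_lit 8))
    (@En.n l2824 (nat_lit 8658) (nat_lit 4) (nat_lit 12))
    (@En.n l6741 (nat_lit 8656) (nat_lit 2) (nat_lit 13))
    (@En.n l17334 (nat_lit 9146) (nat_lit 3) (nat_lit 8))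
    (@En.i (nat_lit 11885) (nat_lit 4) (nat_lit 10))
    (@En.n l4200 (nat_lit 8652) (nat_lit 12) (nat_lit 4))
    (@En.n l6741 (nat_lit 9086) (nat_lit 6) (nat_lit 4))
    (@En.i (nat_lit 4340) (nat_lit 0) (nat_lit 5))
    (@En.n l14512 (nat_lit 11843) (nat_lit 1) (nat_lit 8))
    (@En.n l4380 (nat_lit 8660) (nat_lit 4) (nat_lit 12))
    (@En.i (nat_lit 10226) (nat_lit 11) (nat_lit 12))
    (@En.n l17334 (nat_lit 7103) (nat_lit 12) (nat_lit 8))
    (@En.i (nat_lit 9414) (nat_lit 13) (nat_lit 11))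
    (@En.n l6741 (nat_lit 8704) (nat_lit 14) (nat_lit 4))
    (@En.i (nat_lit 5588) (nat_lit 12) (nat_lit 6))
    (@En.n l21562 (nat_lit 8654) (nat_lit 15) (nat_lit 3))))
noncomputable def a541 : T16 Cl := @T16.mk Cl
  (@Cl.mk (nat_lit 0x3000c00060005000b0004000c000c0009000500040004000a000d000b0007) (nat_lit 0x20010a040006390) (nat_lit 16) Lb.e (@T16.mk En
    (@En.n l117 (nat_lit 11653) (nat_lit 0) (nat_lit 7))
    (@En.n l36585 (nat_lit 8320) (nat_lit 12) (nat_lit 11))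
    (@En.n l3866 (nat_lit 8666) (nat_lit 5) (nat_lit 13))
    (@En.n l33561 (nat_lit 11884) (nat_lit 3) (nat_lit 10))
    (@En.n l2172 (nat_lit 8650) (nat_lit 12) (nat_lit 4))
    (@En.i (nat_lit 9083) (nat_lit 0) (nat_lit 4))
    (@En.n l22964 (nat_lit 4341) (nat_lit 0) (nat_lit 5))
    (@En.n l742 (nat_lit 11844) (nat_lit 1) (nat_lit 9))
    (@En.n l396 (nat_lit 9082) (nat_lit 4) (nat_lit 12))
    (@En.n l16700 (nat_lit 10229) (nat_lit 10) (nat_lit 12))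
    (@En.n l1236 (nat_lit 10179) (nat_lit 10) (nat_lit 4))
    (@En.n l36586 (nat_lit 7400) (nat_lit 0) (nat_lit 11))
    (@En.i (nat_lit 8640) (nat_lit 11) (nat_lit 5))
    (@En.n l27681 (nat_lit 8655) (nat_lit 14) (nat_lit 6))
    (@En.n l33421 (nat_lit 10255) (nat_lit 9) (nat_lit 12))
    (@En.n l3536 (nat_lit 8657) (nat_lit 15) (nat_lit 3))))
  (@Cl.mk (nat_lit 0x3000c00060004000b0004000c000c000a000500040004000a000d0006000c) (nat_lit 0x70080a030006309) (nat_lit 16) Lb.e (@T16.mk En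
    (@En.i (nat_lit 3581) (nat_lit 0) (nat_lit 12))
    (@En.n l15675 (nat_lit 8754) (nat_lit 4) (nat_lit 6))
    (@En.i (nat_lit 8665) (nat_lit 5) (nat_lit 13))
    (@En.n l15677 (nat_lit 11883) (nat_lit 3) (nat_lit 10))
    (@En.n l237 (nat_lit 8649) (nat_lit 12) (nat_lit 4))
    (@En.i (nat_lit 9085) (nat_lit 0) (nat_lit 4))
    (@En.n l20280 (nat_lit 4343) (nat_lit 0) (nat_lit 5))
    (@En.n l4380 (nat_lit 8336) (nat_lit 1) (nat_lit 10))
    (@En.n l134 (nat_lit 8661) (nat_lit 4) (nat_lit 12))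
    (@En.n l11 (nat_lit 10240) (nat_lit 10) (nat_lit 12))
    (@En.n l15677 (nat_lit 10177) (nat_lit 10) (nat_lit 4))
    (@En.i (nat_lit 9410) (nat_lit 0) (nat_lit 11))
    (@En.n l3480 (nat_lit 8318) (nat_lit 1) (nat_lit 4))
    (@En.n l20276 (nat_lit 8654) (nat_lit 14) (nat_lit 6))
    (@En.n l15675 (nat_lit 8723) (nat_lit 1) (nat_lit 12))
    (@En.n l6081 (nat_lit 8656) (nat_lit 15) (nat_lit 3))))
  (@Cl.mk (nat_lit 0x3000b0008000c000c0009000500040004000b0008000c0007000d00050004) (nat_lit 0x832030007350b00) (nat_lit 16) Lb.e (@T16.mk En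
    (@En.n l18 (nat_lit 7455) (nat_lit 0) (nat_lit 4))
    (@En.n l29884 (nat_lit 8734) (nat_lit 0) (nat_lit 5))
    (@En.i (nat_lit 2875) (nat_lit 1) (nat_lit 13))
    (@En.n l14276 (nat_lit 8749) (nat_lit 3) (nat_lit 7))
    (@En.n l15273 (nat_lit 8318) (nat_lit 7) (nat_lit 12))
    (@En.n l19812 (nat_lit 9141) (nat_lit 5) (nat_lit 8))
    (@En.i (nat_lit 11780) (nat_lit 14) (nat_lit 11))
    (@En.n l16888 (nat_lit 8653) (nat_lit 12) (nat_lit 4))
    (@En.n l15273 (nat_lit 8699) (nat_lit 0) (nat_lit 4))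
    (@En.n l152 (nat_lit 4349) (nat_lit 0) (nat_lit 5))
    (@En.n l9885 (nat_lit 10292) (nat_lit 1) (nat_lit 9))
    (@En.n l55 (nat_lit 8746) (nat_lit 4) (nat_lit 12))
    (@En.i (nat_lit 10230) (nat_lit 7) (nat_lit 12))
    (@En.n l8356 (nat_lit 7098) (nat_lit 14) (nat_lit 8))
    (@En.i (nat_lit 9421) (nat_lit 14) (nat_lit 11))
    (@En.n l29885 (nat_lit 8654) (nat_lit 13) (nat_lit 3))))
  (@Cl.mk (nat_lit 0x2000a0008000d0008000d000300060003000c0008000c00080004000e0004) (nat_lit 0x7494a00082a1090) (nat_lit 16) Lb.e (@T16.mk En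
    (@En.n l1992 (nat_lit 8654) (nat_lit 6) (nat_lit 4))
    (@En.n l28789 (nat_lit 5537) (nat_lit 1) (nat_lit 14))
    (@En.i (nat_lit 4344) (nat_lit 2) (nat_lit 4))
    (@En.n l43600 (nat_lit 7821) (nat_lit 3) (nat_lit 8))
    (@En.n l2132 (nat_lit 10162) (nat_lit 11) (nat_lit 12))
    (@En.n l476 (nat_lit 7801) (nat_lit 5) (nat_lit 8))
    (@En.i (nat_lit 9406) (nat_lit 7) (nat_lit 12))
    (@En.n l2701 (nat_lit 8746) (nat_lit 7) (nat_lit 3))
    (@En.i (nat_lit 8274) (nat_lit 12) (nat_lit 6))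
    (@En.n l8258 (nat_lit 8660) (nat_lit 9) (nat_lit 3))
    (@En.n l2132 (nat_lit 2871) (nat_lit 0) (nat_lit 13))
    (@En.n l14929 (nat_lit 8747) (nat_lit 12) (nat_lit 8))
    (@En.n l24379 (nat_lit 8661) (nat_lit 13) (nat_lit 13))
    (@En.n l14576 (nat_lit 9147) (nat_lit 14) (nat_lit 8))
    (@En.n l5891 (nat_lit 9686) (nat_lit 4) (nat_lit 10))
    (@En.n l11 (nat_lit 8659) (nat_lit 15) (nat_lit 2))))
  (@Cl.mk (nat_lit 0x2000a0008000d000c0009000300060004000c0008000c00070004000e0004) (nat_lit 0x749a600013a0080) (nat_lit 16) Lb.e (@T16.mk En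
    (@En.n l28 (nat_lit 8655) (nat_lit 6) (nat_lit 4))
    (@En.n l601 (nat_lit 5532) (nat_lit 1) (nat_lit 14))
    (@En.n l28 (nat_lit 4339) (nat_lit 2) (nat_lit 4))
    (@En.i (nat_lit 11283) (nat_lit 3) (nat_lit 7))
    (@En.i (nat_lit 10164) (nat_lit 11) (nat_lit 12))
    (@En.n l4316 (nat_lit 7802) (nat_lit 5) (nat_lit 8))
    (@En.i (nat_lit 7399) (nat_lit 7) (nat_lit 12))
    (@En.n l345 (nat_lit 7457) (nat_lit 7) (nat_lit 4))
    (@En.i (nat_lit 5612) (nat_lit 8) (nat_lit 6))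
    (@En.n l6822 (nat_lit 8659) (nat_lit 9) (nat_lit 3))
    (@En.n l97 (nat_lit 7660) (nat_lit 0) (nat_lit 9))
    (@En.n l1236 (nat_lit 8746) (nat_lit 12) (nat_lit 12))
    (@En.n l965 (nat_lit 9082) (nat_lit 13) (nat_lit 13))
    (@En.n l20138 (nat_lit 9149) (nat_lit 14) (nat_lit 8))
    (@En.i (nat_lit 9689) (nat_lit 4) (nat_lit 10))
    (@En.n l50 (nat_lit 8660) (nat_lit 15) (nat_lit 2))))
  (@Cl.mk (nat_lit 0x2000a000d0007000c0003000c00060004000c0004000c00090004000e0004) (nat_lit 0x6809040020a10a0) (nat_lit 16) Lb.e (@T16.mk En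
    (@En.n l28 (nat_lit 8657) (nat_lit 5) (nat_lit 4))
    (@En.n l11219 (nat_lit 5563) (nat_lit 1) (nat_lit 14))
    (@En.n l33844 (nat_lit 4342) (nat_lit 2) (nat_lit 4))
    (@En.i (nat_lit 7819) (nat_lit 3) (nat_lit 9))
    (@En.n l2584 (nat_lit 10168) (nat_lit 10) (nat_lit 12))
    (@En.n l117 (nat_lit 10218) (nat_lit 5) (nat_lit 4))
    (@En.i (nat_lit 9407) (nat_lit 7) (nat_lit 12))
    (@En.n l3480 (nat_lit 7776) (nat_lit 7) (nat_lit 4))
    (@En.n l22402 (nat_lit 8659) (nat_lit 8) (nat_lit 6))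
    (@En.n l22234 (nat_lit 8724) (nat_lit 10) (nat_lit 12))
    (@En.n l6081 (nat_lit 9082) (nat_lit 10) (nat_lit 3))
    (@En.n l2584 (nat_lit 2867) (nat_lit 0) (nat_lit 12))
    (@En.n l12503 (nat_lit 10260) (nat_lit 13) (nat_lit 7))
    (@En.i (nat_lit 8662) (nat_lit 5) (nat_lit 13))
    (@En.i (nat_lit 8792) (nat_lit 3) (nat_lit 10))
    (@En.n l7 (nat_lit 8661) (nat_lit 15) (nat_lit 2))))
  (@Cl.mk (nat_lit 0x20005000c0004000c000a0004000e00040002000d0006000b0003000e000c) (nat_lit 0x30010700702084) (nat_lit 16) Lb.e (@T16.mk En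
    (@En.i (nat_lit 7538) (nat_lit 10) (nat_lit 12))
    (@En.i (nat_lit 8663) (nat_lit 1) (nat_lit 14))
    (@En.i (nat_lit 7413) (nat_lit 2) (nat_lit 3))
    (@En.i (nat_lit 2866) (nat_lit 3) (nat_lit 11))
    (@En.i (nat_lit 6420) (nat_lit 4) (nat_lit 6))
    (@En.n l564 (nat_lit 7356) (nat_lit 6) (nat_lit 13))
    (@En.n l7 (nat_lit 8662) (nat_lit 6) (nat_lit 2))
    (@En.n l28 (nat_lit 8665) (nat_lit 7) (nat_lit 4))
    (@En.i (nat_lit 5996) (nat_lit 9) (nat_lit 14))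
    (@En.i (nat_lit 7409) (nat_lit 9) (nat_lit 4))
    (@En.i (nat_lit 8523) (nat_lit 11) (nat_lit 10))
    (@En.i (nat_lit 10939) (nat_lit 12) (nat_lit 12))
    (@En.n l117 (nat_lit 10221) (nat_lit 5) (nat_lit 4))
    (@En.i (nat_lit 7312) (nat_lit 14) (nat_lit 12))
    (@En.i (nat_lit 8313) (nat_lit 7) (nat_lit 5))
    (@En.n l3 (nat_lit 8662) (nat_lit 15) (nat_lit 2))))
  (@Cl.mk (nat_lit 0x200060005000c0005000c000a0004000e00040002000a0006000b000e000b) (nat_lit 0x3001070060273) (nat_lit 16) Lb.e (@T16.mk En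
    (@En.n l17 (nat_lit 7537) (nat_lit 11) (nat_lit 11))
    (@En.n l9616 (nat_lit 5813) (nat_lit 12) (nat_lit 14))
    (@En.n l2582 (nat_lit 2496) (nat_lit 2) (nat_lit 11))
    (@En.i (nat_lit 6421) (nat_lit 14) (nat_lit 6))
    (@En.i (nat_lit 9605) (nat_lit 4) (nat_lit 10))
    (@En.n l7 (nat_lit 8663) (nat_lit 5) (nat_lit 2))
    (@En.n l28 (nat_lit 8664) (nat_lit 6) (nat_lit 4))
    (@En.i (nat_lit 5995) (nat_lit 8) (nat_lit 14))
    (@En.n l2663 (nat_lit 4612) (nat_lit 8) (nat_lit 4))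
    (@En.i (nat_lit 8524) (nat_lit 10) (nat_lit 10))
    (@En.n l2582 (nat_lit 10943) (nat_lit 11) (nat_lit 12))
    (@En.n l117 (nat_lit 8921) (nat_lit 5) (nat_lit 5))
    (@En.i (nat_lit 7352) (nat_lit 13) (nat_lit 12))
    (@En.n l17 (nat_lit 8662) (nat_lit 14) (nat_lit 5))
    (@En.i (nat_lit 8661) (nat_lit 8) (nat_lit 6))
    (@En.n l3 (nat_lit 8663) (nat_lit 15) (nat_lit 2))))
  (@Cl.mk (nat_lit 0x200060005000b0005000c000c000b000500040004000a0005000b000e000b) (nat_lit 0x3001900060863) (nat_lit 16) Lb.e (@T16.mk En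
    (@En.n l2185 (nat_lit 8670) (nat_lit 10) (nat_lit 11))
    (@En.n l3621 (nat_lit 5812) (nat_lit 4) (nat_lit 14))
    (@En.i (nat_lit 2497) (nat_lit 2) (nat_lit 11))
    (@En.n l7 (nat_lit 7645) (nat_lit 3) (nat_lit 5))
    (@En.i (nat_lit 9567) (nat_lit 4) (nat_lit 10))
    (@En.n l237 (nat_lit 8669) (nat_lit 5) (nat_lit 4))
    (@En.i (nat_lit 8528) (nat_lit 6) (nat_lit 4))
    (@En.n l2852 (nat_lit 4610) (nat_lit 7) (nat_lit 5))
    (@En.n l4380 (nat_lit 8332) (nat_lit 9) (nat_lit 11))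
    (@En.n l134 (nat_lit 8663) (nat_lit 10) (nat_lit 12))
    (@En.n l11 (nat_lit 11128) (nat_lit 11) (nat_lit 12))
    (@En.n l117 (nat_lit 10229) (nat_lit 12) (nat_lit 5))
    (@En.i (nat_lit 7350) (nat_lit 13) (nat_lit 11))
    (@En.n l17 (nat_lit 8665) (nat_lit 14) (nat_lit 5))
    (@En.i (nat_lit 8657) (nat_lit 13) (nat_lit 6))
    (@En.n l3 (nat_lit 8664) (nat_lit 15) (nat_lit 2))))
  (@Cl.mk (nat_lit 0x20005000b0004000c000c000b000500040004000d0005000b0003000e000c) (nat_lit 0x30818000208074) (nat_lit 16) Lb.e (@T16.mk En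
    (@En.n l870 (nat_lit 8667) (nat_lit 14) (nat_lit 12))
    (@En.i (nat_lit 8664) (nat_lit 1) (nat_lit 14))
    (@En.i (nat_lit 8666) (nat_lit 2) (nat_lit 3))
    (@En.i (nat_lit 2557) (nat_lit 3) (nat_lit 11))
    (@En.n l7 (nat_lit 7643) (nat_lit 4) (nat_lit 5))
    (@En.n l564 (nat_lit 10610) (nat_lit 6) (nat_lit 13))
    (@En.n l237 (nat_lit 8668) (nat_lit 6) (nat_lit 4))
    (@En.i (nat_lit 8529) (nat_lit 7) (nat_lit 4))
    (@En.i (nat_lit 4615) (nat_lit 8) (nat_lit 5))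
    (@En.n l4380 (nat_lit 8335) (nat_lit 10) (nat_lit 11))
    (@En.n l134 (nat_lit 8662) (nat_lit 11) (nat_lit 12))
    (@En.n l11 (nat_lit 11127) (nat_lit 12) (nat_lit 12))
    (@En.n l117 (nat_lit 10226) (nat_lit 13) (nat_lit 4))
    (@En.i (nat_lit 7318) (nat_lit 14) (nat_lit 11))
    (@En.i (nat_lit 8315) (nat_lit 13) (nat_lit 5))
    (@En.n l3 (nat_lit 8665) (nat_lit 15) (nat_lit 2))))
  (@Cl.mk (nat_lit 0x20006000b0004000c000c000a000500040004000d000a00060003000e000c) (nat_lit 0x30612000270084) (nat_lit 16) Lb.e (@T16.mk En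
    (@En.n l870 (nat_lit 8672) (nat_lit 14) (nat_lit 12))
    (@En.i (nat_lit 5310) (nat_lit 1) (nat_lit 14))
    (@En.n l18 (nat_lit 8665) (nat_lit 2) (nat_lit 3))
    (@En.n l6888 (nat_lit 2907) (nat_lit 3) (nat_lit 6))
    (@En.n l61 (nat_lit 8664) (nat_lit 4) (nat_lit 10))
    (@En.n l16384 (nat_lit 10608) (nat_lit 6) (nat_lit 13))
    (@En.n l237 (nat_lit 8671) (nat_lit 6) (nat_lit 4))
    (@En.i (nat_lit 8530) (nat_lit 7) (nat_lit 4))
    (@En.n l2853 (nat_lit 7403) (nat_lit 8) (nat_lit 5))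
    (@En.n l55 (nat_lit 8635) (nat_lit 10) (nat_lit 10))
    (@En.n l134 (nat_lit 7413) (nat_lit 11) (nat_lit 12))
    (@En.n l6888 (nat_lit 11126) (nat_lit 12) (nat_lit 12))
    (@En.n l117 (nat_lit 10225) (nat_lit 13) (nat_lit 4))
    (@En.n l4212 (nat_lit 7319) (nat_lit 14) (nat_lit 11))
    (@En.i (nat_lit 8735) (nat_lit 1) (nat_lit 6))
    (@En.n l3 (nat_lit 8666) (nat_lit 15) (nat_lit 2))))
  (@Cl.mk (nat_lit 0x3000c000c0004000a00040004000c000c000b000600040004000d0005000c) (nat_lit 0x310100811000901) (nat_lit 16) Lb.e (@T16.mk En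
    (@En.i (nat_lit 2549) (nat_lit 0) (nat_lit 12))
    (@En.i (nat_lit 2415) (nat_lit 6) (nat_lit 5))
    (@En.n l134 (nat_lit 7302) (nat_lit 2) (nat_lit 13))
    (@En.n l11 (nat_lit 8673) (nat_lit 12) (nat_lit 4))
    (@En.n l2710 (nat_lit 8308) (nat_lit 4) (nat_lit 4))
    (@En.i (nat_lit 7382) (nat_lit 0) (nat_lit 6))
    (@En.n l55 (nat_lit 8339) (nat_lit 5) (nat_lit 11))
    (@En.n l2749 (nat_lit 7538) (nat_lit 4) (nat_lit 12))
    (@En.i (nat_lit 9203) (nat_lit 9) (nat_lit 12))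
    (@En.n l2751 (nat_lit 8665) (nat_lit 12) (nat_lit 4))
    (@En.i (nat_lit 10230) (nat_lit 10) (nat_lit 4))
    (@En.n l11217 (nat_lit 3056) (nat_lit 0) (nat_lit 10))
    (@En.n l2710 (nat_lit 9166) (nat_lit 1) (nat_lit 4))
    (@En.n l61 (nat_lit 4623) (nat_lit 4) (nat_lit 12))
    (@En.n l2753 (nat_lit 8849) (nat_lit 1) (nat_lit 12))
    (@En.i (nat_lit 8672) (nat_lit 15) (nat_lit 3))))
  (@Cl.mk (nat_lit 0x20005000a0004000e000c0002000c00060004000d0004000b0003000e000c) (nat_lit 0x10990100708060) (nat_lit 16) Lb.e (@T16.mk En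
    (@En.n l345 (nat_lit 8673) (nat_lit 7) (nat_lit 12))
    (@En.i (nat_lit 8669) (nat_lit 1) (nat_lit 14))
    (@En.i (nat_lit 8671) (nat_lit 2) (nat_lit 3))
    (@En.i (nat_lit 2630) (nat_lit 3) (nat_lit 11))
    (@En.i (nat_lit 7642) (nat_lit 4) (nat_lit 4))
    (@En.i (nat_lit 4704) (nat_lit 6) (nat_lit 13))
    (@En.i (nat_lit 8592) (nat_lit 6) (nat_lit 4))
    (@En.i (nat_lit 7402) (nat_lit 7) (nat_lit 6))
    (@En.n l3424 (nat_lit 7631) (nat_lit 9) (nat_lit 12))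
    (@En.n l28 (nat_lit 8668) (nat_lit 9) (nat_lit 2))
    (@En.n l77 (nat_lit 8665) (nat_lit 11) (nat_lit 12))
    (@En.i (nat_lit 8159) (nat_lit 12) (nat_lit 14))
    (@En.n l117 (nat_lit 10237) (nat_lit 2) (nat_lit 4))
    (@En.n l1544 (nat_lit 3052) (nat_lit 14) (nat_lit 10))
    (@En.i (nat_lit 8321) (nat_lit 4) (nat_lit 5))
    (@En.n l3 (nat_lit 8668) (nat_lit 15) (nat_lit 2))))
  (@Cl.mk (nat_lit 0x200060005000a0005000e000c0002000c00060004000a0004000b000e000b) (nat_lit 0x5041010060850) (nat_lit 16) Lb.e (@T16.mk En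
    (@En.n l965 (nat_lit 8675) (nat_lit 8) (nat_lit 11))
    (@En.n l9477 (nat_lit 5817) (nat_lit 4) (nat_lit 14))
    (@En.i (nat_lit 2629) (nat_lit 2) (nat_lit 11))
    (@En.n l2259 (nat_lit 7644) (nat_lit 3) (nat_lit 4))
    (@En.n l1246 (nat_lit 11505) (nat_lit 4) (nat_lit 10))
    (@En.i (nat_lit 8596) (nat_lit 5) (nat_lit 4))
    (@En.n l75 (nat_lit 4614) (nat_lit 14) (nat_lit 6))
    (@En.n l3424 (nat_lit 7629) (nat_lit 8) (nat_lit 12))
    (@En.n l28 (nat_lit 8669) (nat_lit 8) (nat_lit 2))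
    (@En.n l77 (nat_lit 8664) (nat_lit 10) (nat_lit 12))
    (@En.n l9478 (nat_lit 8160) (nat_lit 11) (nat_lit 14))
    (@En.n l1246 (nat_lit 10239) (nat_lit 2) (nat_lit 5))
    (@En.n l1246 (nat_lit 7351) (nat_lit 13) (nat_lit 10))
    (@En.n l17 (nat_lit 8668) (nat_lit 14) (nat_lit 5))
    (@En.i (nat_lit 8649) (nat_lit 5) (nat_lit 6))
    (@En.n l3 (nat_lit 8669) (nat_lit 15) (nat_lit 2))))
  (@Cl.mk (nat_lit 0x40004000b0005000c000b000b00050004000a00050005000c000c000b0006) (nat_lit 0x60821004008190) (nat_lit 16) Lb.e (@T16.mk En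
    (@En.n l30133 (nat_lit 4606) (nat_lit 0) (nat_lit 6))
    (@En.n l55 (nat_lit 8329) (nat_lit 5) (nat_lit 11))
    (@En.n l27944 (nat_lit 7537) (nat_lit 4) (nat_lit 12))
    (@En.n l8638 (nat_lit 10272) (nat_lit 3) (nat_lit 12))
    (@En.n l6255 (nat_lit 8664) (nat_lit 11) (nat_lit 5))
    (@En.n l50 (nat_lit 7370) (nat_lit 5) (nat_lit 5))
    (@En.n l29813 (nat_lit 6867) (nat_lit 0) (nat_lit 10))
    (@En.n l50 (nat_lit 8667) (nat_lit 12) (nat_lit 4))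
    (@En.n l13906 (nat_lit 8723) (nat_lit 0) (nat_lit 5))
    (@En.n l61 (nat_lit 4622) (nat_lit 5) (nat_lit 11))
    (@En.n l217 (nat_lit 9167) (nat_lit 5) (nat_lit 11))
    (@En.i (nat_lit 2555) (nat_lit 2) (nat_lit 12))
    (@En.n l13906 (nat_lit 2412) (nat_lit 4) (nat_lit 5))
    (@En.n l29813 (nat_lit 9454) (nat_lit 14) (nat_lit 11))
    (@En.n l6251 (nat_lit 8675) (nat_lit 12) (nat_lit 4))
    (@En.n l17646 (nat_lit 8535) (nat_lit 0) (nat_lit 4))))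
  (@Cl.mk (nat_lit 0x20006000a0004000e000c0002000b00060004000d000a00050003000e000c) (nat_lit 0x10770300170063) (nat_lit 16) Lb.e (@T16.mk En
    (@En.n l6611 (nat_lit 8674) (nat_lit 7) (nat_lit 12))
    (@En.i (nat_lit 9211) (nat_lit 1) (nat_lit 14))
    (@En.n l18 (nat_lit 8668) (nat_lit 2) (nat_lit 3))
    (@En.n l2809 (nat_lit 2912) (nat_lit 3) (nat_lit 5))
    (@En.n l61 (nat_lit 8669) (nat_lit 4) (nat_lit 10))
    (@En.i (nat_lit 4558) (nat_lit 6) (nat_lit 13))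
    (@En.i (nat_lit 8593) (nat_lit 6) (nat_lit 4))
    (@En.n l451 (nat_lit 7404) (nat_lit 14) (nat_lit 6))
    (@En.n l1543 (nat_lit 9572) (nat_lit 9) (nat_lit 11))
    (@En.n l28 (nat_lit 8671) (nat_lit 9) (nat_lit 2))
    (@En.n l77 (nat_lit 8666) (nat_lit 11) (nat_lit 12))
    (@En.n l1543 (nat_lit 8158) (nat_lit 12) (nat_lit 14))
    (@En.n l117 (nat_lit 10236) (nat_lit 2) (nat_lit 4))
    (@En.n l1543 (nat_lit 3057) (nat_lit 14) (nat_lit 10))
    (@En.i (nat_lit 8739) (nat_lit 4) (nat_lit 6))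
    (@En.n l3 (nat_lit 8671) (nat_lit 15) (nat_lit 2))))
noncomputable def a542 : T16 Cl := @T16.mk Cl
  (@Cl.mk (nat_lit 0x3000c000c0005000a00040004000c000c000a000600040004000d000b0006) (nat_lit 0x3101002a2000370) (nat_lit 16) Lb.e (@T16.mk En
    (@En.n l27595 (nat_lit 2914) (nat_lit 0) (nat_lit 6))
    (@En.n l644 (nat_lit 8670) (nat_lit 13) (nat_lit 11))
    (@En.n l18768 (nat_lit 7299) (nat_lit 2) (nat_lit 13))
    (@En.n l25010 (nat_lit 8674) (nat_lit 12) (nat_lit 4))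
    (@En.n l2710 (nat_lit 8606) (nat_lit 4) (nat_lit 4))
    (@En.n l8085 (nat_lit 7406) (nat_lit 0) (nat_lit 6))
    (@En.i (nat_lit 8319) (nat_lit 1) (nat_lit 10))
    (@En.n l27596 (nat_lit 7539) (nat_lit 4) (nat_lit 12))
    (@En.n l14143 (nat_lit 9204) (nat_lit 9) (nat_lit 12))
    (@En.n l2751 (nat_lit 8666) (nat_lit 12) (nat_lit 4))
    (@En.i (nat_lit 10231) (nat_lit 10) (nat_lit 4))
    (@En.n l18768 (nat_lit 3061) (nat_lit 0) (nat_lit 10))
    (@En.n l13906 (nat_lit 8731) (nat_lit 1) (nat_lit 5))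
    (@En.n l61 (nat_lit 4624) (nat_lit 4) (nat_lit 12))
    (@En.n l4538 (nat_lit 10158) (nat_lit 10) (nat_lit 12))
    (@En.n l7 (nat_lit 8667) (nat_lit 15) (nat_lit 3))))
  (@Cl.mk (nat_lit 0x2000c00070004000d0004000c0003000c000c0004000900040004000e000c) (nat_lit 0x1008080a1010039) (nat_lit 16) Lb.e (@T16.mk En
    (@En.n l68 (nat_lit 8667) (nat_lit 8) (nat_lit 12))
    (@En.i (nat_lit 9990) (nat_lit 1) (nat_lit 14))
    (@En.n l1071 (nat_lit 8668) (nat_lit 12) (nat_lit 4))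
    (@En.i (nat_lit 10233) (nat_lit 3) (nat_lit 4))
    (@En.n l1075 (nat_lit 3053) (nat_lit 4) (nat_lit 9))
    (@En.n l3532 (nat_lit 9158) (nat_lit 5) (nat_lit 4))
    (@En.n l61 (nat_lit 4620) (nat_lit 7) (nat_lit 12))
    (@En.n l1075 (nat_lit 8848) (nat_lit 8) (nat_lit 12))
    (@En.n l9883 (nat_lit 8674) (nat_lit 8) (nat_lit 3))
    (@En.i (nat_lit 2551) (nat_lit 10) (nat_lit 12))
    (@En.n l9884 (nat_lit 7641) (nat_lit 10) (nat_lit 4))
    (@En.n l255 (nat_lit 4701) (nat_lit 12) (nat_lit 13))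
    (@En.i (nat_lit 8309) (nat_lit 1) (nat_lit 4))
    (@En.n l9885 (nat_lit 7385) (nat_lit 14) (nat_lit 7))
    (@En.n l8015 (nat_lit 7638) (nat_lit 1) (nat_lit 12))
    (@En.n l67 (nat_lit 8673) (nat_lit 15) (nat_lit 2))))
  (@Cl.mk (nat_lit 0x2000b00070004000d000b00050003000c000c0005000900040004000e000c) (nat_lit 0x300870021010073) (nat_lit 16) Lb.e (@T16.mk En
    (@En.n l14228 (nat_lit 8672) (nat_lit 8) (nat_lit 12))
    (@En.n l14229 (nat_lit 9989) (nat_lit 1) (nat_lit 14))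
    (@En.n l14230 (nat_lit 8671) (nat_lit 12) (nat_lit 4))
    (@En.n l13889 (nat_lit 10232) (nat_lit 3) (nat_lit 4))
    (@En.n l14229 (nat_lit 3055) (nat_lit 4) (nat_lit 9))
    (@En.n l13886 (nat_lit 9156) (nat_lit 5) (nat_lit 5))
    (@En.n l14231 (nat_lit 4621) (nat_lit 7) (nat_lit 12))
    (@En.n l14232 (nat_lit 10328) (nat_lit 8) (nat_lit 12))
    (@En.n l14233 (nat_lit 8673) (nat_lit 8) (nat_lit 3))
    (@En.n l8903 (nat_lit 2913) (nat_lit 9) (nat_lit 5))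
    (@En.n l13891 (nat_lit 8675) (nat_lit 11) (nat_lit 11))
    (@En.n l14234 (nat_lit 4702) (nat_lit 12) (nat_lit 13))
    (@En.n l13889 (nat_lit 8595) (nat_lit 13) (nat_lit 4))
    (@En.n l6656 (nat_lit 7405) (nat_lit 14) (nat_lit 7))
    (@En.n l14229 (nat_lit 8129) (nat_lit 1) (nat_lit 11))
    (@En.n l50 (nat_lit 8674) (nat_lit 15) (nat_lit 2))))
  (@Cl.mk (nat_lit 0x2000c00070004000b0004000c000b000b00050004000900050005000e000c) (nat_lit 0x100608910020029) (nat_lit 16) Lb.e (@T16.mk En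
    (@En.n l2934 (nat_lit 8670) (nat_lit 3) (nat_lit 12))
    (@En.n l17323 (nat_lit 9736) (nat_lit 1) (nat_lit 14))
    (@En.n l1154 (nat_lit 8669) (nat_lit 11) (nat_lit 5))
    (@En.n l2938 (nat_lit 7368) (nat_lit 3) (nat_lit 5))
    (@En.i (nat_lit 6862) (nat_lit 4) (nat_lit 9))
    (@En.n l2938 (nat_lit 8673) (nat_lit 5) (nat_lit 4))
    (@En.i (nat_lit 9153) (nat_lit 6) (nat_lit 5))
    (@En.n l2940 (nat_lit 4619) (nat_lit 8) (nat_lit 11))
    (@En.n l17327 (nat_lit 9159) (nat_lit 9) (nat_lit 11))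
    (@En.i (nat_lit 2685) (nat_lit 10) (nat_lit 12))
    (@En.n l18 (nat_lit 7523) (nat_lit 10) (nat_lit 4))
    (@En.i (nat_lit 11427) (nat_lit 12) (nat_lit 11))
    (@En.n l2944 (nat_lit 8598) (nat_lit 1) (nat_lit 4))
    (@En.n l61 (nat_lit 4608) (nat_lit 14) (nat_lit 7))
    (@En.i (nat_lit 7635) (nat_lit 1) (nat_lit 12))
    (@En.n l7 (nat_lit 8675) (nat_lit 15) (nat_lit 2))))
  (@Cl.mk (nat_lit 0x2000900060004000d0008000c00030007000e00040002000a0008000e000c) (nat_lit 0x100929004006512) (nat_lit 16) Lb.e (@T16.mk En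
    (@En.n l2301 (nat_lit 7455) (nat_lit 12) (nat_lit 12))
    (@En.n l3348 (nat_lit 2410) (nat_lit 13) (nat_lit 14))
    (@En.n l6029 (nat_lit 7094) (nat_lit 2) (nat_lit 8))
    (@En.i (nat_lit 9867) (nat_lit 3) (nat_lit 10))
    (@En.n l11 (nat_lit 8676) (nat_lit 4) (nat_lit 2))
    (@En.n l117 (nat_lit 8718) (nat_lit 5) (nat_lit 4))
    (@En.n l3311 (nat_lit 3604) (nat_lit 7) (nat_lit 14))
    (@En.i (nat_lit 6910) (nat_lit 2) (nat_lit 7))
    (@En.n l2576 (nat_lit 8677) (nat_lit 8) (nat_lit 3))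
    (@En.i (nat_lit 8636) (nat_lit 0) (nat_lit 12))
    (@En.n l3928 (nat_lit 8721) (nat_lit 5) (nat_lit 8))
    (@En.n l763 (nat_lit 7705) (nat_lit 12) (nat_lit 13))
    (@En.i (nat_lit 8681) (nat_lit 7) (nat_lit 4))
    (@En.n l1545 (nat_lit 7209) (nat_lit 14) (nat_lit 6))
    (@En.n l2026 (nat_lit 6431) (nat_lit 10) (nat_lit 9))
    (@En.n l50 (nat_lit 8676) (nat_lit 15) (nat_lit 2))))
  (@Cl.mk (nat_lit 0x2000900060004000d000b000900030007000e00050002000a0007000e000c) (nat_lit 0x100a85002007012) (nat_lit 16) Lb.e (@T16.mk En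
    (@En.n l7788 (nat_lit 8678) (nat_lit 12) (nat_lit 12))
    (@En.n l850 (nat_lit 2409) (nat_lit 1) (nat_lit 14))
    (@En.n l7789 (nat_lit 6770) (nat_lit 14) (nat_lit 7))
    (@En.n l5858 (nat_lit 9866) (nat_lit 3) (nat_lit 10))
    (@En.n l11 (nat_lit 8677) (nat_lit 4) (nat_lit 2))
    (@En.n l117 (nat_lit 8679) (nat_lit 5) (nat_lit 5))
    (@En.n l7790 (nat_lit 3639) (nat_lit 7) (nat_lit 14))
    (@En.i (nat_lit 8915) (nat_lit 2) (nat_lit 7))
    (@En.n l936 (nat_lit 8676) (nat_lit 8) (nat_lit 3))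
    (@En.n l2243 (nat_lit 8647) (nat_lit 0) (nat_lit 9))
    (@En.n l7791 (nat_lit 8653) (nat_lit 11) (nat_lit 11))
    (@En.n l763 (nat_lit 7704) (nat_lit 12) (nat_lit 13))
    (@En.i (nat_lit 8680) (nat_lit 7) (nat_lit 4))
    (@En.n l7792 (nat_lit 3534) (nat_lit 14) (nat_lit 6))
    (@En.n l3468 (nat_lit 6433) (nat_lit 10) (nat_lit 9))
    (@En.n l50 (nat_lit 8677) (nat_lit 15) (nat_lit 2))))
  (@Cl.mk (nat_lit 0x2000b0007000c000c0008000500040004000d000b000900030008000e0005) (nat_lit 0x90122000a840620) (nat_lit 16) Lb.e (@T16.mk En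
    (@En.n l6251 (nat_lit 8505) (nat_lit 7) (nat_lit 5))
    (@En.i (nat_lit 3636) (nat_lit 1) (nat_lit 14))
    (@En.n l1964 (nat_lit 8918) (nat_lit 2) (nat_lit 8))
    (@En.n l50 (nat_lit 7455) (nat_lit 3) (nat_lit 3))
    (@En.n l2848 (nat_lit 8938) (nat_lit 0) (nat_lit 9))
    (@En.n l217 (nat_lit 8658) (nat_lit 6) (nat_lit 11))
    (@En.n l2496 (nat_lit 10741) (nat_lit 7) (nat_lit 13))
    (@En.n l15265 (nat_lit 8677) (nat_lit 12) (nat_lit 4))
    (@En.n l1964 (nat_lit 8684) (nat_lit 8) (nat_lit 4))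
    (@En.n l152 (nat_lit 3529) (nat_lit 9) (nat_lit 5))
    (@En.n l10986 (nat_lit 8682) (nat_lit 11) (nat_lit 8))
    (@En.n l55 (nat_lit 7456) (nat_lit 12) (nat_lit 12))
    (@En.i (nat_lit 4622) (nat_lit 13) (nat_lit 12))
    (@En.n l2848 (nat_lit 6341) (nat_lit 14) (nat_lit 7))
    (@En.n l5774 (nat_lit 9360) (nat_lit 11) (nat_lit 11))
    (@En.n l17 (nat_lit 8678) (nat_lit 15) (nat_lit 2))))
  (@Cl.mk (nat_lit 0x2000800060004000c000b000b000a0004000800050005000a0006000e000c) (nat_lit 0x100679402008013) (nat_lit 16) Lb.e (@T16.mk En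
    (@En.n l217 (nat_lit 8505) (nat_lit 3) (nat_lit 12))
    (@En.i (nat_lit 2408) (nat_lit 1) (nat_lit 14))
    (@En.n l14225 (nat_lit 6765) (nat_lit 2) (nat_lit 6))
    (@En.n l845 (nat_lit 9361) (nat_lit 3) (nat_lit 10))
    (@En.n l11 (nat_lit 8713) (nat_lit 4) (nat_lit 5))
    (@En.i (nat_lit 8648) (nat_lit 5) (nat_lit 5))
    (@En.i (nat_lit 8267) (nat_lit 6) (nat_lit 8))
    (@En.n l936 (nat_lit 8718) (nat_lit 7) (nat_lit 4))
    (@En.n l55 (nat_lit 8641) (nat_lit 9) (nat_lit 10))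
    (@En.n l619 (nat_lit 8677) (nat_lit 10) (nat_lit 11))
    (@En.n l3866 (nat_lit 8741) (nat_lit 11) (nat_lit 11))
    (@En.n l763 (nat_lit 7706) (nat_lit 12) (nat_lit 12))
    (@En.i (nat_lit 8498) (nat_lit 13) (nat_lit 4))
    (@En.n l1545 (nat_lit 7210) (nat_lit 14) (nat_lit 6))
    (@En.n l829 (nat_lit 8495) (nat_lit 1) (nat_lit 8))
    (@En.n l50 (nat_lit 8679) (nat_lit 15) (nat_lit 2))))
  (@Cl.mk (nat_lit 0x2000c0007000d000c00040003000a0004000d000b000900030006000e0005) (nat_lit 0x90120010a730020) (nat_lit 16) Lb.e (@T16.mk En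
    (@En.n l117 (nat_lit 8498) (nat_lit 6) (nat_lit 5))
    (@En.n l2351 (nat_lit 3649) (nat_lit 1) (nat_lit 14))
    (@En.i (nat_lit 7533) (nat_lit 2) (nat_lit 6))
    (@En.n l936 (nat_lit 8681) (nat_lit 3) (nat_lit 3))
    (@En.i (nat_lit 9001) (nat_lit 0) (nat_lit 9))
    (@En.n l936 (nat_lit 8702) (nat_lit 12) (nat_lit 11))
    (@En.i (nat_lit 8682) (nat_lit 7) (nat_lit 13))
    (@En.n l2351 (nat_lit 8678) (nat_lit 7) (nat_lit 4))
    (@En.n l1304 (nat_lit 6432) (nat_lit 9) (nat_lit 10))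
    (@En.n l50 (nat_lit 8683) (nat_lit 9) (nat_lit 3))
    (@En.i (nat_lit 8511) (nat_lit 0) (nat_lit 4))
    (@En.n l217 (nat_lit 8684) (nat_lit 12) (nat_lit 12))
    (@En.n l2351 (nat_lit 3437) (nat_lit 13) (nat_lit 13))
    (@En.i (nat_lit 7498) (nat_lit 14) (nat_lit 7))
    (@En.n l15991 (nat_lit 9644) (nat_lit 11) (nat_lit 12))
    (@En.n l11 (nat_lit 8680) (nat_lit 15) (nat_lit 2))))
  (@Cl.mk (nat_lit 0x2000c0008000d000c00040003000a0004000d0008000c00030006000e0004) (nat_lit 0x8512001094a0040) (nat_lit 16) Lb.e (@T16.mk En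
    (@En.n l117 (nat_lit 8149) (nat_lit 6) (nat_lit 4))
    (@En.n l3348 (nat_lit 4367) (nat_lit 1) (nat_lit 14))
    (@En.i (nat_lit 7031) (nat_lit 12) (nat_lit 6))
    (@En.n l2576 (nat_lit 8680) (nat_lit 3) (nat_lit 3))
    (@En.i (nat_lit 8337) (nat_lit 0) (nat_lit 12))
    (@En.i (nat_lit 8724) (nat_lit 5) (nat_lit 8))
    (@En.i (nat_lit 8152) (nat_lit 7) (nat_lit 13))
    (@En.n l3348 (nat_lit 7455) (nat_lit 7) (nat_lit 4))
    (@En.n l998 (nat_lit 6430) (nat_lit 9) (nat_lit 10))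
    (@En.n l50 (nat_lit 8687) (nat_lit 9) (nat_lit 3))
    (@En.i (nat_lit 8514) (nat_lit 0) (nat_lit 4))
    (@En.n l217 (nat_lit 8688) (nat_lit 12) (nat_lit 12))
    (@En.n l3348 (nat_lit 3436) (nat_lit 13) (nat_lit 13))
    (@En.i (nat_lit 7085) (nat_lit 14) (nat_lit 8))
    (@En.i (nat_lit 9645) (nat_lit 11) (nat_lit 12))
    (@En.n l11 (nat_lit 8681) (nat_lit 15) (nat_lit 2))))
  (@Cl.mk (nat_lit 0x2000c0008000d000800040003000a000d000a0008000300080006000e0006) (nat_lit 0x522100196005030) (nat_lit 16) Lb.e (@T16.mk En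
    (@En.n l117 (nat_lit 8497) (nat_lit 6) (nat_lit 6))
    (@En.n l6268 (nat_lit 7888) (nat_lit 1) (nat_lit 14))
    (@En.n l17 (nat_lit 8680) (nat_lit 2) (nat_lit 6))
    (@En.i (nat_lit 10260) (nat_lit 3) (nat_lit 8))
    (@En.n l936 (nat_lit 8152) (nat_lit 4) (nat_lit 3))
    (@En.n l3621 (nat_lit 9003) (nat_lit 0) (nat_lit 8))
    (@En.n l7290 (nat_lit 10292) (nat_lit 13) (nat_lit 10))
    (@En.n l3621 (nat_lit 12340) (nat_lit 8) (nat_lit 13))
    (@En.n l19467 (nat_lit 6435) (nat_lit 9) (nat_lit 10))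
    (@En.n l50 (nat_lit 8685) (nat_lit 9) (nat_lit 3))
    (@En.n l19031 (nat_lit 8512) (nat_lit 0) (nat_lit 4))
    (@En.i (nat_lit 7947) (nat_lit 12) (nat_lit 8))
    (@En.n l7291 (nat_lit 3430) (nat_lit 13) (nat_lit 13))
    (@En.n l3621 (nat_lit 7528) (nat_lit 14) (nat_lit 8))
    (@En.n l29887 (nat_lit 9643) (nat_lit 10) (nat_lit 12))
    (@En.n l11 (nat_lit 8682) (nat_lit 15) (nat_lit 2))))
  (@Cl.mk (nat_lit 0x2000d0007000d0003000d0003000a0003000d000b000900030006000e0005) (nat_lit 0x60207020a760020) (nat_lit 16) Lb.e (@T16.mk En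
    (@En.n l117 (nat_lit 8500) (nat_lit 6) (nat_lit 5))
    (@En.i (nat_lit 4370) (nat_lit 1) (nat_lit 14))
    (@En.i (nat_lit 7534) (nat_lit 12) (nat_lit 6))
    (@En.n l936 (nat_lit 8687) (nat_lit 3) (nat_lit 3))
    (@En.i (nat_lit 9000) (nat_lit 0) (nat_lit 9))
    (@En.n l936 (nat_lit 8700) (nat_lit 12) (nat_lit 11))
    (@En.i (nat_lit 8685) (nat_lit 7) (nat_lit 13))
    (@En.i (nat_lit 8684) (nat_lit 7) (nat_lit 3))
    (@En.i (nat_lit 6694) (nat_lit 9) (nat_lit 10))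
    (@En.i (nat_lit 8680) (nat_lit 9) (nat_lit 3))
    (@En.i (nat_lit 7071) (nat_lit 0) (nat_lit 13))
    (@En.i (nat_lit 8686) (nat_lit 11) (nat_lit 3))
    (@En.i (nat_lit 4616) (nat_lit 0) (nat_lit 13))
    (@En.i (nat_lit 7495) (nat_lit 14) (nat_lit 7))
    (@En.n l15991 (nat_lit 8453) (nat_lit 11) (nat_lit 13))
    (@En.n l11 (nat_lit 8683) (nat_lit 15) (nat_lit 2))))
  (@Cl.mk (nat_lit 0x2000d0007000c0003000d000900040003000d000b000900030007000e0005) (nat_lit 0x40105600a760020) (nat_lit 16) Lb.e (@T16.mk En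
    (@En.n l117 (nat_lit 8503) (nat_lit 8) (nat_lit 5))
    (@En.n l2351 (nat_lit 4372) (nat_lit 1) (nat_lit 14))
    (@En.i (nat_lit 7540) (nat_lit 2) (nat_lit 7))
    (@En.n l936 (nat_lit 8688) (nat_lit 3) (nat_lit 3))
    (@En.i (nat_lit 8999) (nat_lit 0) (nat_lit 9))
    (@En.n l936 (nat_lit 8699) (nat_lit 14) (nat_lit 11))
    (@En.i (nat_lit 12334) (nat_lit 7) (nat_lit 13))
    (@En.n l18 (nat_lit 8683) (nat_lit 7) (nat_lit 3))
    (@En.n l2351 (nat_lit 7456) (nat_lit 8) (nat_lit 4))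
    (@En.n l61 (nat_lit 8685) (nat_lit 10) (nat_lit 9))
    (@En.n l6441 (nat_lit 7072) (nat_lit 11) (nat_lit 13))
    (@En.i (nat_lit 7943) (nat_lit 11) (nat_lit 3))
    (@En.n l2351 (nat_lit 4619) (nat_lit 0) (nat_lit 12))
    (@En.i (nat_lit 7496) (nat_lit 14) (nat_lit 7))
    (@En.n l29886 (nat_lit 8457) (nat_lit 2) (nat_lit 13))
    (@En.n l11 (nat_lit 8684) (nat_lit 15) (nat_lit 2))))
  (@Cl.mk (nat_lit 0x2000d0008000d000300090003000a000d000a0008000300070006000e0006) (nat_lit 0x522050196500030) (nat_lit 16) Lb.e (@T16.mk En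
    (@En.n l117 (nat_lit 8499) (nat_lit 4) (nat_lit 6))
    (@En.i (nat_lit 12126) (nat_lit 1) (nat_lit 14))
    (@En.n l17 (nat_lit 8683) (nat_lit 2) (nat_lit 6))
    (@En.i (nat_lit 10258) (nat_lit 3) (nat_lit 7))
    (@En.n l936 (nat_lit 8689) (nat_lit 4) (nat_lit 3))
    (@En.i (nat_lit 9002) (nat_lit 0) (nat_lit 8))
    (@En.n l7290 (nat_lit 8703) (nat_lit 11) (nat_lit 10))
    (@En.n l3621 (nat_lit 12335) (nat_lit 8) (nat_lit 13))
    (@En.i (nat_lit 6615) (nat_lit 9) (nat_lit 10))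
    (@En.i (nat_lit 8682) (nat_lit 9) (nat_lit 3))
    (@En.i (nat_lit 11431) (nat_lit 11) (nat_lit 9))
    (@En.i (nat_lit 8690) (nat_lit 11) (nat_lit 3))
    (@En.n l7291 (nat_lit 3435) (nat_lit 0) (nat_lit 13))
    (@En.i (nat_lit 7492) (nat_lit 14) (nat_lit 8))
    (@En.n l15991 (nat_lit 8458) (nat_lit 2) (nat_lit 13))
    (@En.n l11 (nat_lit 8685) (nat_lit 15) (nat_lit 2))))
  (@Cl.mk (nat_lit 0x2000d000c00080003000d0004000a0003000d000b000800030006000e0005) (nat_lit 0x8a204020a840020) (nat_lit 16) Lb.e (@T16.mk En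
    (@En.n l117 (nat_lit 8502) (nat_lit 8) (nat_lit 5))
    (@En.n l322 (nat_lit 4371) (nat_lit 1) (nat_lit 14))
    (@En.i (nat_lit 7535) (nat_lit 12) (nat_lit 6))
    (@En.n l936 (nat_lit 8692) (nat_lit 3) (nat_lit 3))
    (@En.i (nat_lit 7156) (nat_lit 0) (nat_lit 8))
    (@En.n l936 (nat_lit 8696) (nat_lit 14) (nat_lit 11))
    (@En.i (nat_lit 8690) (nat_lit 7) (nat_lit 13))
    (@En.i (nat_lit 7943) (nat_lit 7) (nat_lit 3))
    (@En.i (nat_lit 6695) (nat_lit 9) (nat_lit 10))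
    (@En.n l19030 (nat_lit 8509) (nat_lit 9) (nat_lit 4))
    (@En.n l564 (nat_lit 12126) (nat_lit 11) (nat_lit 13))
    (@En.n l7 (nat_lit 8683) (nat_lit 11) (nat_lit 3))
    (@En.i (nat_lit 3143) (nat_lit 0) (nat_lit 8))
    (@En.n l644 (nat_lit 8680) (nat_lit 14) (nat_lit 12))
    (@En.n l15991 (nat_lit 8459) (nat_lit 11) (nat_lit 13))
    (@En.n l11 (nat_lit 8686) (nat_lit 15) (nat_lit 2))))
  (@Cl.mk (nat_lit 0x2000d0008000d0003000d0003000a0003000d0008000c00030006000e0004) (nat_lit 0x7520502096a0040) (nat_lit 16) Lb.e (@T16.mk En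
    (@En.n l117 (nat_lit 8154) (nat_lit 6) (nat_lit 4))
    (@En.i (nat_lit 4366) (nat_lit 1) (nat_lit 14))
    (@En.i (nat_lit 7027) (nat_lit 12) (nat_lit 6))
    (@En.n l2576 (nat_lit 8683) (nat_lit 3) (nat_lit 3))
    (@En.i (nat_lit 8311) (nat_lit 0) (nat_lit 12))
    (@En.i (nat_lit 8728) (nat_lit 5) (nat_lit 8))
    (@En.i (nat_lit 8689) (nat_lit 7) (nat_lit 13))
    (@En.i (nat_lit 8688) (nat_lit 7) (nat_lit 3))
    (@En.i (nat_lit 6603) (nat_lit 0) (nat_lit 10))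
    (@En.i (nat_lit 8681) (nat_lit 9) (nat_lit 3))
    (@En.i (nat_lit 7069) (nat_lit 0) (nat_lit 13))
    (@En.i (nat_lit 8692) (nat_lit 11) (nat_lit 3))
    (@En.i (nat_lit 3439) (nat_lit 0) (nat_lit 13))
    (@En.i (nat_lit 7083) (nat_lit 14) (nat_lit 8))
    (@En.i (nat_lit 9665) (nat_lit 11) (nat_lit 13))
    (@En.n l11 (nat_lit 8687) (nat_lit 15) (nat_lit 2))))
noncomputable def a543 : T16 Cl := @T16.mk Cl
  (@Cl.mk (nat_lit 0x2000d0008000c0003000d000900040003000d0008000c00030007000e0004) (nat_lit 0x751056009620040) (nat_lit 16) Lb.e (@T16.mk En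
    (@En.n l117 (nat_lit 8701) (nat_lit 8) (nat_lit 4))
    (@En.n l3348 (nat_lit 4369) (nat_lit 1) (nat_lit 14))
    (@En.i (nat_lit 7025) (nat_lit 2) (nat_lit 7))
    (@En.n l2576 (nat_lit 8684) (nat_lit 3) (nat_lit 3))
    (@En.i (nat_lit 8594) (nat_lit 0) (nat_lit 12))
    (@En.i (nat_lit 8727) (nat_lit 5) (nat_lit 8))
    (@En.i (nat_lit 12336) (nat_lit 7) (nat_lit 13))
    (@En.n l18 (nat_lit 8687) (nat_lit 7) (nat_lit 3))
    (@En.n l3348 (nat_lit 7449) (nat_lit 8) (nat_lit 4))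
    (@En.n l61 (nat_lit 8689) (nat_lit 10) (nat_lit 9))
    (@En.n l3749 (nat_lit 7068) (nat_lit 11) (nat_lit 13))
    (@En.i (nat_lit 8693) (nat_lit 11) (nat_lit 3))
    (@En.n l3348 (nat_lit 4620) (nat_lit 0) (nat_lit 12))
    (@En.i (nat_lit 7082) (nat_lit 14) (nat_lit 8))
    (@En.i (nat_lit 9661) (nat_lit 2) (nat_lit 13))
    (@En.n l11 (nat_lit 8688) (nat_lit 15) (nat_lit 2))))
  (@Cl.mk (nat_lit 0x2000d0009000d000300090003000a000d0007000b000300070006000e0005) (nat_lit 0x852050180300050) (nat_lit 16) Lb.e (@T16.mk En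
    (@En.n l117 (nat_lit 8150) (nat_lit 4) (nat_lit 5))
    (@En.i (nat_lit 12125) (nat_lit 1) (nat_lit 14))
    (@En.n l17 (nat_lit 8687) (nat_lit 2) (nat_lit 6))
    (@En.i (nat_lit 10876) (nat_lit 3) (nat_lit 7))
    (@En.n l2576 (nat_lit 8685) (nat_lit 4) (nat_lit 3))
    (@En.i (nat_lit 8597) (nat_lit 0) (nat_lit 11))
    (@En.n l5646 (nat_lit 8748) (nat_lit 6) (nat_lit 7))
    (@En.i (nat_lit 12332) (nat_lit 8) (nat_lit 13))
    (@En.i (nat_lit 6600) (nat_lit 9) (nat_lit 10))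
    (@En.i (nat_lit 8152) (nat_lit 9) (nat_lit 3))
    (@En.i (nat_lit 12122) (nat_lit 11) (nat_lit 9))
    (@En.i (nat_lit 8691) (nat_lit 11) (nat_lit 3))
    (@En.n l3325 (nat_lit 3433) (nat_lit 0) (nat_lit 13))
    (@En.i (nat_lit 7086) (nat_lit 14) (nat_lit 9))
    (@En.i (nat_lit 9664) (nat_lit 2) (nat_lit 13))
    (@En.n l11 (nat_lit 8689) (nat_lit 15) (nat_lit 2))))
  (@Cl.mk (nat_lit 0x2000d000c0009000300090004000a000d000a0007000300070006000e0006) (nat_lit 0xb61070197000030) (nat_lit 16) Lb.e (@T16.mk En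
    (@En.n l117 (nat_lit 8501) (nat_lit 4) (nat_lit 6))
    (@En.n l9307 (nat_lit 7889) (nat_lit 1) (nat_lit 14))
    (@En.n l17 (nat_lit 8686) (nat_lit 2) (nat_lit 6))
    (@En.n l9309 (nat_lit 10259) (nat_lit 3) (nat_lit 7))
    (@En.n l936 (nat_lit 8691) (nat_lit 4) (nat_lit 3))
    (@En.n l3621 (nat_lit 7155) (nat_lit 0) (nat_lit 7))
    (@En.n l7290 (nat_lit 8698) (nat_lit 11) (nat_lit 10))
    (@En.n l3621 (nat_lit 12333) (nat_lit 8) (nat_lit 13))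
    (@En.n l3160 (nat_lit 6613) (nat_lit 9) (nat_lit 10))
    (@En.n l37552 (nat_lit 8508) (nat_lit 9) (nat_lit 4))
    (@En.n l24011 (nat_lit 11730) (nat_lit 11) (nat_lit 9))
    (@En.n l7 (nat_lit 8685) (nat_lit 11) (nat_lit 3))
    (@En.n l30998 (nat_lit 3142) (nat_lit 0) (nat_lit 9))
    (@En.n l644 (nat_lit 8682) (nat_lit 14) (nat_lit 12))
    (@En.n l15991 (nat_lit 8461) (nat_lit 2) (nat_lit 13))
    (@En.n l11 (nat_lit 8690) (nat_lit 15) (nat_lit 2))))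
  (@Cl.mk (nat_lit 0x2000d000c000a000300090004000a000d0006000b000300070006000e0005) (nat_lit 0x811000180900050) (nat_lit 16) Lb.e (@T16.mk En
    (@En.n l117 (nat_lit 8153) (nat_lit 4) (nat_lit 5))
    (@En.n l16749 (nat_lit 7891) (nat_lit 1) (nat_lit 14))
    (@En.n l17 (nat_lit 8692) (nat_lit 2) (nat_lit 6))
    (@En.i (nat_lit 10878) (nat_lit 3) (nat_lit 7))
    (@En.n l2576 (nat_lit 8690) (nat_lit 4) (nat_lit 3))
    (@En.i (nat_lit 8528) (nat_lit 0) (nat_lit 11))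
    (@En.n l5646 (nat_lit 8751) (nat_lit 6) (nat_lit 6))
    (@En.n l6482 (nat_lit 11068) (nat_lit 8) (nat_lit 13))
    (@En.i (nat_lit 6597) (nat_lit 9) (nat_lit 10))
    (@En.n l19390 (nat_lit 8414) (nat_lit 9) (nat_lit 4))
    (@En.i (nat_lit 11726) (nat_lit 11) (nat_lit 9))
    (@En.n l7 (nat_lit 8689) (nat_lit 11) (nat_lit 3))
    (@En.i (nat_lit 7925) (nat_lit 0) (nat_lit 10))
    (@En.n l644 (nat_lit 8152) (nat_lit 14) (nat_lit 12))
    (@En.i (nat_lit 10357) (nat_lit 2) (nat_lit 13))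
    (@En.n l11 (nat_lit 8691) (nat_lit 15) (nat_lit 2))))
  (@Cl.mk (nat_lit 0x2000d000c00090003000d0004000a0003000d0007000c00030006000e0004) (nat_lit 0x791070209020040) (nat_lit 16) Lb.e (@T16.mk En
    (@En.n l117 (nat_lit 8694) (nat_lit 8) (nat_lit 4))
    (@En.n l1501 (nat_lit 4368) (nat_lit 1) (nat_lit 14))
    (@En.i (nat_lit 7028) (nat_lit 12) (nat_lit 6))
    (@En.n l2576 (nat_lit 8686) (nat_lit 3) (nat_lit 3))
    (@En.i (nat_lit 8529) (nat_lit 0) (nat_lit 12))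
    (@En.i (nat_lit 9390) (nat_lit 5) (nat_lit 7))
    (@En.i (nat_lit 8691) (nat_lit 7) (nat_lit 13))
    (@En.i (nat_lit 8693) (nat_lit 7) (nat_lit 3))
    (@En.i (nat_lit 6956) (nat_lit 9) (nat_lit 10))
    (@En.n l29002 (nat_lit 8510) (nat_lit 9) (nat_lit 4))
    (@En.n l564 (nat_lit 12125) (nat_lit 11) (nat_lit 13))
    (@En.n l7 (nat_lit 8687) (nat_lit 11) (nat_lit 3))
    (@En.i (nat_lit 7924) (nat_lit 0) (nat_lit 9))
    (@En.n l644 (nat_lit 8681) (nat_lit 14) (nat_lit 12))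
    (@En.i (nat_lit 10356) (nat_lit 11) (nat_lit 13))
    (@En.n l11 (nat_lit 8692) (nat_lit 15) (nat_lit 2))))
  (@Cl.mk (nat_lit 0x2000d000b00090003000d000900050003000d0007000c00030007000e0004) (nat_lit 0x71108100a010040) (nat_lit 16) Lb.e (@T16.mk En
    (@En.n l117 (nat_lit 8695) (nat_lit 8) (nat_lit 4))
    (@En.n l4806 (nat_lit 4374) (nat_lit 1) (nat_lit 14))
    (@En.i (nat_lit 7026) (nat_lit 2) (nat_lit 7))
    (@En.n l2576 (nat_lit 7943) (nat_lit 3) (nat_lit 3))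
    (@En.i (nat_lit 8530) (nat_lit 0) (nat_lit 12))
    (@En.i (nat_lit 9391) (nat_lit 5) (nat_lit 7))
    (@En.i (nat_lit 12331) (nat_lit 7) (nat_lit 13))
    (@En.n l18 (nat_lit 8692) (nat_lit 7) (nat_lit 3))
    (@En.n l4356 (nat_lit 7934) (nat_lit 8) (nat_lit 5))
    (@En.n l61 (nat_lit 8691) (nat_lit 10) (nat_lit 9))
    (@En.n l6840 (nat_lit 7890) (nat_lit 11) (nat_lit 13))
    (@En.n l7 (nat_lit 8688) (nat_lit 11) (nat_lit 3))
    (@En.n l6478 (nat_lit 7923) (nat_lit 0) (nat_lit 9))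
    (@En.n l5911 (nat_lit 7455) (nat_lit 14) (nat_lit 11))
    (@En.i (nat_lit 9666) (nat_lit 2) (nat_lit 13))
    (@En.n l11 (nat_lit 8693) (nat_lit 15) (nat_lit 2))))
  (@Cl.mk (nat_lit 0x3000c0007000c000c0004000700040004000d000c00090003000d00040009) (nat_lit 0x606300004110802) (nat_lit 16) Lb.e (@T16.mk En
    (@En.i (nat_lit 6595) (nat_lit 0) (nat_lit 9))
    (@En.n l14325 (nat_lit 8520) (nat_lit 14) (nat_lit 4))
    (@En.n l396 (nat_lit 12463) (nat_lit 2) (nat_lit 13))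
    (@En.n l7 (nat_lit 8154) (nat_lit 1) (nat_lit 3))
    (@En.i (nat_lit 7926) (nat_lit 0) (nat_lit 9))
    (@En.n l644 (nat_lit 8149) (nat_lit 4) (nat_lit 12))
    (@En.n l3528 (nat_lit 10514) (nat_lit 2) (nat_lit 13))
    (@En.n l2385 (nat_lit 10976) (nat_lit 12) (nat_lit 4))
    (@En.i (nat_lit 8696) (nat_lit 8) (nat_lit 4))
    (@En.i (nat_lit 7029) (nat_lit 11) (nat_lit 7))
    (@En.n l9956 (nat_lit 9757) (nat_lit 1) (nat_lit 4))
    (@En.n l619 (nat_lit 8692) (nat_lit 4) (nat_lit 12))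
    (@En.i (nat_lit 10194) (nat_lit 1) (nat_lit 12))
    (@En.n l1769 (nat_lit 8731) (nat_lit 14) (nat_lit 7))
    (@En.i (nat_lit 8153) (nat_lit 11) (nat_lit 12))
    (@En.i (nat_lit 8695) (nat_lit 15) (nat_lit 3))))
  (@Cl.mk (nat_lit 0x3000c0007000c000c0004000800040004000d000b00090003000d00080005) (nat_lit 0x604203006750740) (nat_lit 16) Lb.e (@T16.mk En
    (@En.n l6319 (nat_lit 7131) (nat_lit 0) (nat_lit 5))
    (@En.n l61 (nat_lit 8153) (nat_lit 14) (nat_lit 8))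
    (@En.n l16702 (nat_lit 12462) (nat_lit 2) (nat_lit 13))
    (@En.n l7 (nat_lit 8701) (nat_lit 3) (nat_lit 3))
    (@En.n l22901 (nat_lit 7927) (nat_lit 0) (nat_lit 9))
    (@En.i (nat_lit 8704) (nat_lit 13) (nat_lit 11))
    (@En.i (nat_lit 10055) (nat_lit 2) (nat_lit 13))
    (@En.n l24955 (nat_lit 7483) (nat_lit 12) (nat_lit 4))
    (@En.i (nat_lit 8697) (nat_lit 8) (nat_lit 4))
    (@En.i (nat_lit 3929) (nat_lit 0) (nat_lit 8))
    (@En.n l15710 (nat_lit 9763) (nat_lit 1) (nat_lit 4))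
    (@En.n l619 (nat_lit 8693) (nat_lit 4) (nat_lit 12))
    (@En.i (nat_lit 10196) (nat_lit 1) (nat_lit 12))
    (@En.n l1769 (nat_lit 9392) (nat_lit 14) (nat_lit 7))
    (@En.i (nat_lit 11997) (nat_lit 11) (nat_lit 12))
    (@En.n l18 (nat_lit 8694) (nat_lit 15) (nat_lit 3))))
  (@Cl.mk (nat_lit 0x3000b0007000c0005000d000500040003000d000c00090003000d0004000b) (nat_lit 0x702010006800909) (nat_lit 16) Lb.e (@T16.mk En
    (@En.i (nat_lit 9416) (nat_lit 0) (nat_lit 11))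
    (@En.n l38108 (nat_lit 8546) (nat_lit 9) (nat_lit 4))
    (@En.n l18228 (nat_lit 10327) (nat_lit 2) (nat_lit 13))
    (@En.n l7 (nat_lit 8700) (nat_lit 1) (nat_lit 3))
    (@En.n l15539 (nat_lit 11308) (nat_lit 0) (nat_lit 9))
    (@En.n l644 (nat_lit 8702) (nat_lit 4) (nat_lit 12))
    (@En.n l9448 (nat_lit 10061) (nat_lit 2) (nat_lit 13))
    (@En.n l22650 (nat_lit 8547) (nat_lit 13) (nat_lit 3))
    (@En.n l152 (nat_lit 8692) (nat_lit 0) (nat_lit 4))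
    (@En.n l21574 (nat_lit 9756) (nat_lit 0) (nat_lit 5))
    (@En.n l9869 (nat_lit 2333) (nat_lit 1) (nat_lit 13))
    (@En.i (nat_lit 11796) (nat_lit 7) (nat_lit 5))
    (@En.i (nat_lit 8308) (nat_lit 13) (nat_lit 12))
    (@En.n l15539 (nat_lit 9394) (nat_lit 14) (nat_lit 7))
    (@En.i (nat_lit 12457) (nat_lit 11) (nat_lit 11))
    (@En.i (nat_lit 8697) (nat_lit 15) (nat_lit 3))))
  (@Cl.mk (nat_lit 0x3000b0007000c0006000d000500040003000d000b00090003000d000a0005) (nat_lit 0x704010006900900) (nat_lit 16) Lb.e (@T16.mk En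
    (@En.n l27755 (nat_lit 7128) (nat_lit 0) (nat_lit 5))
    (@En.n l899 (nat_lit 8698) (nat_lit 14) (nat_lit 10))
    (@En.n l16702 (nat_lit 10538) (nat_lit 2) (nat_lit 13))
    (@En.n l7 (nat_lit 8699) (nat_lit 3) (nat_lit 3))
    (@En.n l22901 (nat_lit 11249) (nat_lit 0) (nat_lit 9))
    (@En.n l15205 (nat_lit 8658) (nat_lit 14) (nat_lit 11))
    (@En.n l28645 (nat_lit 10056) (nat_lit 2) (nat_lit 13))
    (@En.n l15641 (nat_lit 9093) (nat_lit 13) (nat_lit 3))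
    (@En.n l152 (nat_lit 8693) (nat_lit 0) (nat_lit 4))
    (@En.n l21574 (nat_lit 9758) (nat_lit 0) (nat_lit 5))
    (@En.n l23536 (nat_lit 2330) (nat_lit 1) (nat_lit 13))
    (@En.n l6080 (nat_lit 9207) (nat_lit 7) (nat_lit 6))
    (@En.i (nat_lit 8606) (nat_lit 13) (nat_lit 12))
    (@En.n l28646 (nat_lit 9393) (nat_lit 14) (nat_lit 7))
    (@En.n l22903 (nat_lit 10638) (nat_lit 11) (nat_lit 11))
    (@En.n l18 (nat_lit 8696) (nat_lit 15) (nat_lit 3))))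
  (@Cl.mk (nat_lit 0x3000a0004000b000a0006000b00060005000d000600050003000d000c000a) (nat_lit 0x808605002000807) (nat_lit 16) Lb.e (@T16.mk En
    (@En.n l41376 (nat_lit 11287) (nat_lit 0) (nat_lit 10))
    (@En.n l217 (nat_lit 10292) (nat_lit 4) (nat_lit 12))
    (@En.n l29769 (nat_lit 10063) (nat_lit 2) (nat_lit 13))
    (@En.n l11469 (nat_lit 10288) (nat_lit 3) (nat_lit 3))
    (@En.n l11401 (nat_lit 8691) (nat_lit 0) (nat_lit 5))
    (@En.n l14256 (nat_lit 9964) (nat_lit 5) (nat_lit 6))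
    (@En.n l39676 (nat_lit 10539) (nat_lit 2) (nat_lit 13))
    (@En.n l1003 (nat_lit 8696) (nat_lit 11) (nat_lit 5))
    (@En.n l403 (nat_lit 10186) (nat_lit 8) (nat_lit 6))
    (@En.n l1003 (nat_lit 8535) (nat_lit 10) (nat_lit 11))
    (@En.n l21492 (nat_lit 9173) (nat_lit 6) (nat_lit 6))
    (@En.n l11403 (nat_lit 12407) (nat_lit 6) (nat_lit 10))
    (@En.n l13196 (nat_lit 9410) (nat_lit 13) (nat_lit 11))
    (@En.n l50 (nat_lit 8762) (nat_lit 9) (nat_lit 4))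
    (@En.n l36043 (nat_lit 8787) (nat_lit 11) (nat_lit 10))
    (@En.n l50 (nat_lit 8703) (nat_lit 15) (nat_lit 3))))
  (@Cl.mk (nat_lit 0x3000b0008000c0006000d000500040003000d0008000c0003000d000a0004) (nat_lit 0x664010006600900) (nat_lit 16) Lb.e (@T16.mk En
    (@En.n l3523 (nat_lit 8746) (nat_lit 0) (nat_lit 4))
    (@En.n l899 (nat_lit 8703) (nat_lit 14) (nat_lit 10))
    (@En.n l15662 (nat_lit 5538) (nat_lit 1) (nat_lit 13))
    (@En.i (nat_lit 8697) (nat_lit 3) (nat_lit 3))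
    (@En.n l3523 (nat_lit 10233) (nat_lit 0) (nat_lit 12))
    (@En.i (nat_lit 10460) (nat_lit 14) (nat_lit 8))
    (@En.i (nat_lit 10057) (nat_lit 2) (nat_lit 13))
    (@En.n l22650 (nat_lit 9089) (nat_lit 13) (nat_lit 3))
    (@En.n l152 (nat_lit 8688) (nat_lit 0) (nat_lit 4))
    (@En.n l21574 (nat_lit 9402) (nat_lit 0) (nat_lit 5))
    (@En.n l3523 (nat_lit 2332) (nat_lit 1) (nat_lit 13))
    (@En.i (nat_lit 9206) (nat_lit 7) (nat_lit 6))
    (@En.i (nat_lit 8307) (nat_lit 7) (nat_lit 12))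
    (@En.n l3536 (nat_lit 9139) (nat_lit 14) (nat_lit 8))
    (@En.n l3518 (nat_lit 11814) (nat_lit 11) (nat_lit 11))
    (@En.n l18 (nat_lit 8700) (nat_lit 13) (nat_lit 3))))
  (@Cl.mk (nat_lit 0x3000b0003000b0008000c0005000d000500040003000d0008000d0003000d) (nat_lit 0x906120a00066a08) (nat_lit 16) Lb.e (@T16.mk En
    (@En.i (nat_lit 7075) (nat_lit 0) (nat_lit 13))
    (@En.i (nat_lit 8696) (nat_lit 3) (nat_lit 3))
    (@En.n l899 (nat_lit 7377) (nat_lit 0) (nat_lit 13))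
    (@En.i (nat_lit 10461) (nat_lit 14) (nat_lit 8))
    (@En.i (nat_lit 10060) (nat_lit 2) (nat_lit 13))
    (@En.n l22650 (nat_lit 9090) (nat_lit 13) (nat_lit 3))
    (@En.n l152 (nat_lit 8687) (nat_lit 0) (nat_lit 4))
    (@En.n l21574 (nat_lit 9755) (nat_lit 0) (nat_lit 5))
    (@En.n l617 (nat_lit 4365) (nat_lit 1) (nat_lit 13))
    (@En.i (nat_lit 11826) (nat_lit 9) (nat_lit 5))
    (@En.i (nat_lit 8304) (nat_lit 11) (nat_lit 12))
    (@En.n l3536 (nat_lit 4332) (nat_lit 14) (nat_lit 8))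
    (@En.i (nat_lit 12456) (nat_lit 11) (nat_lit 11))
    (@En.i (nat_lit 8699) (nat_lit 15) (nat_lit 3))
    (@En.i (nat_lit 9417) (nat_lit 0) (nat_lit 11))
    (@En.i (nat_lit 8702) (nat_lit 15) (nat_lit 3))))
  (@Cl.mk (nat_lit 0x3000c0008000c000c0004000800040004000d0008000c0003000d00080004) (nat_lit 0x7543010044a0810) (nat_lit 16) Lb.e (@T16.mk En
    (@En.n l3523 (nat_lit 7457) (nat_lit 0) (nat_lit 4))
    (@En.n l61 (nat_lit 8150) (nat_lit 14) (nat_lit 8))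
    (@En.i (nat_lit 7073) (nat_lit 1) (nat_lit 13))
    (@En.i (nat_lit 8695) (nat_lit 3) (nat_lit 3))
    (@En.n l3523 (nat_lit 8673) (nat_lit 0) (nat_lit 12))
    (@En.i (nat_lit 7081) (nat_lit 5) (nat_lit 8))
    (@En.i (nat_lit 10053) (nat_lit 2) (nat_lit 13))
    (@En.n l1154 (nat_lit 8709) (nat_lit 12) (nat_lit 4))
    (@En.i (nat_lit 8699) (nat_lit 8) (nat_lit 4))
    (@En.i (nat_lit 3927) (nat_lit 0) (nat_lit 8))
    (@En.n l1992 (nat_lit 9762) (nat_lit 1) (nat_lit 4))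
    (@En.n l619 (nat_lit 8688) (nat_lit 4) (nat_lit 12))
    (@En.i (nat_lit 10193) (nat_lit 1) (nat_lit 12))
    (@En.n l1769 (nat_lit 8726) (nat_lit 14) (nat_lit 8))
    (@En.i (nat_lit 11998) (nat_lit 11) (nat_lit 12))
    (@En.n l18 (nat_lit 8154) (nat_lit 13) (nat_lit 3))))
  (@Cl.mk (nat_lit 0x3000b0004000b0008000c0005000d000500040003000c0008000d000c0004) (nat_lit 0x906420a00073a10) (nat_lit 16) Lb.e (@T16.mk En
    (@En.n l8151 (nat_lit 8521) (nat_lit 0) (nat_lit 4))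
    (@En.n l217 (nat_lit 8699) (nat_lit 4) (nat_lit 12))
    (@En.n l19411 (nat_lit 7376) (nat_lit 1) (nat_lit 13))
    (@En.n l31750 (nat_lit 10464) (nat_lit 14) (nat_lit 8))
    (@En.i (nat_lit 9710) (nat_lit 3) (nat_lit 12))
    (@En.n l22650 (nat_lit 8605) (nat_lit 13) (nat_lit 3))
    (@En.n l152 (nat_lit 8681) (nat_lit 0) (nat_lit 4))
    (@En.n l21574 (nat_lit 9759) (nat_lit 0) (nat_lit 5))
    (@En.n l617 (nat_lit 4364) (nat_lit 1) (nat_lit 13))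
    (@En.i (nat_lit 11827) (nat_lit 9) (nat_lit 5))
    (@En.i (nat_lit 8310) (nat_lit 11) (nat_lit 12))
    (@En.n l31750 (nat_lit 9138) (nat_lit 5) (nat_lit 8))
    (@En.i (nat_lit 12458) (nat_lit 13) (nat_lit 11))
    (@En.n l3523 (nat_lit 8658) (nat_lit 7) (nat_lit 4))
    (@En.n l13149 (nat_lit 9815) (nat_lit 0) (nat_lit 11))
    (@En.n l50 (nat_lit 8700) (nat_lit 15) (nat_lit 3))))
  (@Cl.mk (nat_lit 0x3000a0003000b000a0007000b00060005000d000600050003000d0009000d) (nat_lit 0x807505002000807) (nat_lit 16) Lb.e (@T16.mk En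
    (@En.i (nat_lit 7112) (nat_lit 0) (nat_lit 13))
    (@En.i (nat_lit 11981) (nat_lit 14) (nat_lit 9))
    (@En.i (nat_lit 10062) (nat_lit 2) (nat_lit 13))
    (@En.n l11469 (nat_lit 10289) (nat_lit 3) (nat_lit 3))
    (@En.n l11401 (nat_lit 8689) (nat_lit 0) (nat_lit 5))
    (@En.n l14256 (nat_lit 9965) (nat_lit 5) (nat_lit 6))
    (@En.n l33390 (nat_lit 10327) (nat_lit 9) (nat_lit 13))
    (@En.n l1003 (nat_lit 8700) (nat_lit 9) (nat_lit 5))
    (@En.n l17 (nat_lit 10185) (nat_lit 8) (nat_lit 6))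
    (@En.n l1003 (nat_lit 8599) (nat_lit 10) (nat_lit 11))
    (@En.n l8906 (nat_lit 10294) (nat_lit 13) (nat_lit 7))
    (@En.n l11403 (nat_lit 12402) (nat_lit 6) (nat_lit 10))
    (@En.i (nat_lit 9411) (nat_lit 13) (nat_lit 11))
    (@En.i (nat_lit 10292) (nat_lit 15) (nat_lit 3))
    (@En.i (nat_lit 11499) (nat_lit 0) (nat_lit 10))
    (@En.i (nat_lit 8698) (nat_lit 15) (nat_lit 3))))
noncomputable def a544 : T16 Cl := @T16.mk Cl
  (@Cl.mk (nat_lit 0x40004000b0008000c000c0007000500040004000c0008000c000c00040009) (nat_lit 0x64210000735103) (nat_lit 16) Lb.e (@T16.mk En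
    (@En.i (nat_lit 7015) (nat_lit 0) (nat_lit 9))
    (@En.n l16700 (nat_lit 7429) (nat_lit 1) (nat_lit 4))
    (@En.n l16698 (nat_lit 7455) (nat_lit 4) (nat_lit 12))
    (@En.i (nat_lit 8640) (nat_lit 1) (nat_lit 12))
    (@En.n l1769 (nat_lit 8719) (nat_lit 13) (nat_lit 8))
    (@En.i (nat_lit 10740) (nat_lit 3) (nat_lit 12))
    (@En.n l2172 (nat_lit 8718) (nat_lit 12) (nat_lit 4))
    (@En.i (nat_lit 8701) (nat_lit 0) (nat_lit 4))
    (@En.n l16700 (nat_lit 7207) (nat_lit 0) (nat_lit 5))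
    (@En.n l742 (nat_lit 8148) (nat_lit 1) (nat_lit 7))
    (@En.n l16702 (nat_lit 7457) (nat_lit 4) (nat_lit 12))
    (@En.n l15205 (nat_lit 8667) (nat_lit 7) (nat_lit 12))
    (@En.i (nat_lit 7092) (nat_lit 13) (nat_lit 8))
    (@En.i (nat_lit 9464) (nat_lit 12) (nat_lit 11))
    (@En.n l16704 (nat_lit 8705) (nat_lit 12) (nat_lit 4))
    (@En.n l15205 (nat_lit 8658) (nat_lit 0) (nat_lit 4))))
  (@Cl.mk (nat_lit 0x20005000a0004000b0008000c000c0006000500040004000b0008000e000c) (nat_lit 0x80942300007356) (nat_lit 16) Lb.e (@T16.mk En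
    (@En.n l6741 (nat_lit 8704) (nat_lit 3) (nat_lit 12))
    (@En.n l8555 (nat_lit 8707) (nat_lit 1) (nat_lit 14))
    (@En.n l16813 (nat_lit 8712) (nat_lit 2) (nat_lit 8))
    (@En.i (nat_lit 12302) (nat_lit 3) (nat_lit 11))
    (@En.n l21459 (nat_lit 8708) (nat_lit 4) (nat_lit 4))
    (@En.n l237 (nat_lit 8709) (nat_lit 5) (nat_lit 4))
    (@En.i (nat_lit 4754) (nat_lit 6) (nat_lit 5))
    (@En.i (nat_lit 8151) (nat_lit 7) (nat_lit 6))
    (@En.n l4380 (nat_lit 8706) (nat_lit 9) (nat_lit 12))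
    (@En.i (nat_lit 8665) (nat_lit 10) (nat_lit 12))
    (@En.n l9454 (nat_lit 7674) (nat_lit 11) (nat_lit 8))
    (@En.n l11 (nat_lit 11557) (nat_lit 12) (nat_lit 11))
    (@En.n l117 (nat_lit 8655) (nat_lit 13) (nat_lit 4))
    (@En.n l16818 (nat_lit 7017) (nat_lit 14) (nat_lit 10))
    (@En.i (nat_lit 5587) (nat_lit 13) (nat_lit 5))
    (@En.n l3 (nat_lit 8705) (nat_lit 15) (nat_lit 2))))
  (@Cl.mk (nat_lit 0x20005000b0004000c0008000c00050004000e00040002000b0008000e000c) (nat_lit 0x70132004007491) (nat_lit 16) Lb.e (@T16.mk En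
    (@En.n l345 (nat_lit 7457) (nat_lit 12) (nat_lit 12))
    (@En.i (nat_lit 8710) (nat_lit 1) (nat_lit 14))
    (@En.i (nat_lit 10748) (nat_lit 14) (nat_lit 8))
    (@En.i (nat_lit 12185) (nat_lit 3) (nat_lit 11))
    (@En.n l50 (nat_lit 8706) (nat_lit 4) (nat_lit 2))
    (@En.n l28 (nat_lit 8705) (nat_lit 5) (nat_lit 4))
    (@En.n l601 (nat_lit 7167) (nat_lit 7) (nat_lit 14))
    (@En.n l28 (nat_lit 4753) (nat_lit 7) (nat_lit 4))
    (@En.i (nat_lit 11315) (nat_lit 8) (nat_lit 5))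
    (@En.i (nat_lit 8592) (nat_lit 10) (nat_lit 12))
    (@En.n l3213 (nat_lit 8004) (nat_lit 11) (nat_lit 8))
    (@En.i (nat_lit 8112) (nat_lit 12) (nat_lit 12))
    (@En.n l117 (nat_lit 8660) (nat_lit 7) (nat_lit 4))
    (@En.i (nat_lit 7014) (nat_lit 9) (nat_lit 11))
    (@En.i (nat_lit 5611) (nat_lit 9) (nat_lit 5))
    (@En.n l3 (nat_lit 8706) (nat_lit 15) (nat_lit 2))))
  (@Cl.mk (nat_lit 0x2000b0005000a0005000b0005000c000c0006000500040004000b000e000b) (nat_lit 0x308090230000648) (nat_lit 16) Lb.e (@T16.mk En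
    (@En.n l68 (nat_lit 8505) (nat_lit 12) (nat_lit 11))
    (@En.n l8403 (nat_lit 8288) (nat_lit 4) (nat_lit 14))
    (@En.n l3123 (nat_lit 12301) (nat_lit 2) (nat_lit 11))
    (@En.n l2172 (nat_lit 8713) (nat_lit 12) (nat_lit 4))
    (@En.i (nat_lit 8711) (nat_lit 4) (nat_lit 4))
    (@En.n l29532 (nat_lit 4856) (nat_lit 5) (nat_lit 5))
    (@En.n l742 (nat_lit 8717) (nat_lit 6) (nat_lit 6))
    (@En.n l33420 (nat_lit 8710) (nat_lit 8) (nat_lit 12))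
    (@En.n l29532 (nat_lit 8664) (nat_lit 9) (nat_lit 12))
    (@En.n l9717 (nat_lit 6365) (nat_lit 9) (nat_lit 5))
    (@En.n l11546 (nat_lit 12087) (nat_lit 11) (nat_lit 11))
    (@En.i (nat_lit 8656) (nat_lit 12) (nat_lit 5))
    (@En.i (nat_lit 7368) (nat_lit 13) (nat_lit 10))
    (@En.n l25382 (nat_lit 8705) (nat_lit 14) (nat_lit 5))
    (@En.n l33421 (nat_lit 8715) (nat_lit 10) (nat_lit 11))
    (@En.n l67 (nat_lit 8707) (nat_lit 15) (nat_lit 2))))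
  (@Cl.mk (nat_lit 0x2000500090004000a0008000e000c0002000700060004000b0008000e000c) (nat_lit 0x20634300006249) (nat_lit 16) Lb.e (@T16.mk En
    (@En.n l9055 (nat_lit 8718) (nat_lit 9) (nat_lit 12))
    (@En.n l9056 (nat_lit 8713) (nat_lit 10) (nat_lit 14))
    (@En.i (nat_lit 9152) (nat_lit 11) (nat_lit 8))
    (@En.n l9057 (nat_lit 7174) (nat_lit 3) (nat_lit 11))
    (@En.n l9058 (nat_lit 8156) (nat_lit 4) (nat_lit 4))
    (@En.n l9059 (nat_lit 7206) (nat_lit 5) (nat_lit 6))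
    (@En.n l9060 (nat_lit 6417) (nat_lit 6) (nat_lit 7))
    (@En.n l3 (nat_lit 8708) (nat_lit 7) (nat_lit 2))
    (@En.n l9061 (nat_lit 8705) (nat_lit 9) (nat_lit 12))
    (@En.n l9059 (nat_lit 7647) (nat_lit 10) (nat_lit 14))
    (@En.i (nat_lit 7671) (nat_lit 11) (nat_lit 8))
    (@En.n l18 (nat_lit 12762) (nat_lit 12) (nat_lit 10))
    (@En.n l3348 (nat_lit 8652) (nat_lit 4) (nat_lit 4))
    (@En.n l9062 (nat_lit 7019) (nat_lit 5) (nat_lit 9))
    (@En.n l1723 (nat_lit 5584) (nat_lit 6) (nat_lit 5))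
    (@En.n l7 (nat_lit 8708) (nat_lit 15) (nat_lit 2))))
  (@Cl.mk (nat_lit 0x2000500090004000d0008000c0003000d000700040003000b0008000e000c) (nat_lit 0x4093a070007565) (nat_lit 16) Lb.e (@T16.mk En
    (@En.n l965 (nat_lit 8701) (nat_lit 12) (nat_lit 12))
    (@En.n l1246 (nat_lit 8711) (nat_lit 1) (nat_lit 14))
    (@En.n l3538 (nat_lit 9155) (nat_lit 2) (nat_lit 8))
    (@En.i (nat_lit 12292) (nat_lit 3) (nat_lit 11))
    (@En.n l10370 (nat_lit 8157) (nat_lit 4) (nat_lit 3))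
    (@En.i (nat_lit 8706) (nat_lit 5) (nat_lit 4))
    (@En.n l3701 (nat_lit 8155) (nat_lit 6) (nat_lit 7))
    (@En.n l3424 (nat_lit 7168) (nat_lit 8) (nat_lit 13))
    (@En.n l10307 (nat_lit 7483) (nat_lit 8) (nat_lit 3))
    (@En.i (nat_lit 8668) (nat_lit 10) (nat_lit 12))
    (@En.n l9051 (nat_lit 7675) (nat_lit 11) (nat_lit 8))
    (@En.i (nat_lit 12206) (nat_lit 12) (nat_lit 13))
    (@En.n l1246 (nat_lit 9086) (nat_lit 13) (nat_lit 4))
    (@En.n l3538 (nat_lit 7108) (nat_lit 14) (nat_lit 9))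
    (@En.i (nat_lit 4179) (nat_lit 13) (nat_lit 5))
    (@En.n l3 (nat_lit 8709) (nat_lit 15) (nat_lit 2))))
  (@Cl.mk (nat_lit 0x2000b0005000b0005000c0005000c00050004000e00040002000b000e000b) (nat_lit 0x7080200600688) (nat_lit 16) Lb.e (@T16.mk En
    (@En.n l965 (nat_lit 8732) (nat_lit 13) (nat_lit 11))
    (@En.n l3860 (nat_lit 8287) (nat_lit 4) (nat_lit 14))
    (@En.i (nat_lit 12186) (nat_lit 2) (nat_lit 11))
    (@En.n l50 (nat_lit 8710) (nat_lit 3) (nat_lit 2))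
    (@En.n l17686 (nat_lit 8707) (nat_lit 4) (nat_lit 4))
    (@En.n l6606 (nat_lit 7166) (nat_lit 1) (nat_lit 14))
    (@En.n l28 (nat_lit 4857) (nat_lit 6) (nat_lit 4))
    (@En.n l1246 (nat_lit 11318) (nat_lit 7) (nat_lit 5))
    (@En.i (nat_lit 8596) (nat_lit 9) (nat_lit 12))
    (@En.n l6606 (nat_lit 7514) (nat_lit 5) (nat_lit 5))
    (@En.n l6606 (nat_lit 12247) (nat_lit 7) (nat_lit 12))
    (@En.n l1246 (nat_lit 9082) (nat_lit 7) (nat_lit 5))
    (@En.n l7070 (nat_lit 7369) (nat_lit 9) (nat_lit 11))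
    (@En.n l17 (nat_lit 8706) (nat_lit 14) (nat_lit 5))
    (@En.i (nat_lit 10874) (nat_lit 11) (nat_lit 11))
    (@En.n l3 (nat_lit 8710) (nat_lit 15) (nat_lit 2))))
  (@Cl.mk (nat_lit 0x2000b000500090005000d0005000c0003000d000700040003000b000e000b) (nat_lit 0x305040205000754) (nat_lit 16) Lb.e (@T16.mk En
    (@En.n l68 (nat_lit 8503) (nat_lit 13) (nat_lit 11))
    (@En.n l3866 (nat_lit 8290) (nat_lit 4) (nat_lit 14))
    (@En.i (nat_lit 12291) (nat_lit 2) (nat_lit 11))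
    (@En.n l18 (nat_lit 8716) (nat_lit 3) (nat_lit 3))
    (@En.n l265 (nat_lit 8710) (nat_lit 4) (nat_lit 4))
    (@En.n l61 (nat_lit 10974) (nat_lit 5) (nat_lit 7))
    (@En.i (nat_lit 7165) (nat_lit 7) (nat_lit 13))
    (@En.i (nat_lit 7482) (nat_lit 7) (nat_lit 3))
    (@En.n l265 (nat_lit 8669) (nat_lit 9) (nat_lit 12))
    (@En.i (nat_lit 7515) (nat_lit 9) (nat_lit 5))
    (@En.n l645 (nat_lit 12205) (nat_lit 11) (nat_lit 13))
    (@En.i (nat_lit 9083) (nat_lit 7) (nat_lit 5))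
    (@En.i (nat_lit 10233) (nat_lit 13) (nat_lit 9))
    (@En.n l2316 (nat_lit 8709) (nat_lit 14) (nat_lit 5))
    (@En.n l8015 (nat_lit 10887) (nat_lit 11) (nat_lit 11))
    (@En.n l67 (nat_lit 8711) (nat_lit 15) (nat_lit 2))))
  (@Cl.mk (nat_lit 0x2000b00090004000a00080005000c000c00070006000400040008000e000c) (nat_lit 0x30040340000245) (nat_lit 16) Lb.e (@T16.mk En
    (@En.n l7012 (nat_lit 8719) (nat_lit 12) (nat_lit 12))
    (@En.n l532 (nat_lit 8286) (nat_lit 1) (nat_lit 14))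
    (@En.n l899 (nat_lit 10204) (nat_lit 2) (nat_lit 8))
    (@En.n l152 (nat_lit 9152) (nat_lit 12) (nat_lit 4))
    (@En.n l7008 (nat_lit 9155) (nat_lit 4) (nat_lit 4))
    (@En.n l9061 (nat_lit 4859) (nat_lit 5) (nat_lit 6))
    (@En.i (nat_lit 9832) (nat_lit 6) (nat_lit 7))
    (@En.n l18281 (nat_lit 10748) (nat_lit 4) (nat_lit 12))
    (@En.n l2935 (nat_lit 10609) (nat_lit 9) (nat_lit 12))
    (@En.n l7008 (nat_lit 8707) (nat_lit 9) (nat_lit 5))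
    (@En.i (nat_lit 8847) (nat_lit 11) (nat_lit 8))
    (@En.n l18282 (nat_lit 10995) (nat_lit 12) (nat_lit 10))
    (@En.n l3523 (nat_lit 9146) (nat_lit 13) (nat_lit 4))
    (@En.n l899 (nat_lit 7363) (nat_lit 14) (nat_lit 9))
    (@En.n l9061 (nat_lit 10207) (nat_lit 1) (nat_lit 11))
    (@En.n l7 (nat_lit 8712) (nat_lit 15) (nat_lit 2))))
  (@Cl.mk (nat_lit 0x2000700060004000b000e000b0002000b000500090005000a0005000e000c) (nat_lit 0x838060207093) (nat_lit 16) Lb.e (@T16.mk En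
    (@En.n l217 (nat_lit 8707) (nat_lit 8) (nat_lit 12))
    (@En.n l3451 (nat_lit 7646) (nat_lit 9) (nat_lit 14))
    (@En.n l16313 (nat_lit 7587) (nat_lit 2) (nat_lit 5))
    (@En.n l8450 (nat_lit 12763) (nat_lit 3) (nat_lit 10))
    (@En.i (nat_lit 8650) (nat_lit 4) (nat_lit 5))
    (@En.n l6864 (nat_lit 8844) (nat_lit 5) (nat_lit 9))
    (@En.n l21042 (nat_lit 8708) (nat_lit 14) (nat_lit 5))
    (@En.n l8015 (nat_lit 10249) (nat_lit 8) (nat_lit 11))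
    (@En.n l67 (nat_lit 8713) (nat_lit 8) (nat_lit 2))
    (@En.n l68 (nat_lit 8679) (nat_lit 10) (nat_lit 11))
    (@En.n l21043 (nat_lit 9208) (nat_lit 11) (nat_lit 14))
    (@En.n l763 (nat_lit 7173) (nat_lit 12) (nat_lit 11))
    (@En.i (nat_lit 8714) (nat_lit 3) (nat_lit 4))
    (@En.n l21044 (nat_lit 4861) (nat_lit 14) (nat_lit 6))
    (@En.n l6864 (nat_lit 2625) (nat_lit 5) (nat_lit 7))
    (@En.n l50 (nat_lit 8713) (nat_lit 15) (nat_lit 2))))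
  (@Cl.mk (nat_lit 0x2000b000500080005000c0005000d000c0004000300080004000b000e000b) (nat_lit 0x3040301300106b9) (nat_lit 16) Lb.e (@T16.mk En
    (@En.n l68 (nat_lit 8498) (nat_lit 11) (nat_lit 11))
    (@En.n l3866 (nat_lit 9099) (nat_lit 4) (nat_lit 14))
    (@En.i (nat_lit 8717) (nat_lit 2) (nat_lit 11))
    (@En.n l50 (nat_lit 8707) (nat_lit 3) (nat_lit 4))
    (@En.n l1068 (nat_lit 2623) (nat_lit 4) (nat_lit 8))
    (@En.n l50 (nat_lit 8716) (nat_lit 5) (nat_lit 3))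
    (@En.i (nat_lit 8191) (nat_lit 0) (nat_lit 4))
    (@En.n l217 (nat_lit 8711) (nat_lit 8) (nat_lit 12))
    (@En.i (nat_lit 4609) (nat_lit 9) (nat_lit 13))
    (@En.i (nat_lit 7517) (nat_lit 9) (nat_lit 5))
    (@En.n l645 (nat_lit 12813) (nat_lit 11) (nat_lit 12))
    (@En.i (nat_lit 8604) (nat_lit 5) (nat_lit 5))
    (@En.i (nat_lit 4619) (nat_lit 13) (nat_lit 8))
    (@En.n l3015 (nat_lit 8156) (nat_lit 14) (nat_lit 5))
    (@En.n l8015 (nat_lit 10897) (nat_lit 9) (nat_lit 11))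
    (@En.n l67 (nat_lit 8714) (nat_lit 15) (nat_lit 2))))
  (@Cl.mk (nat_lit 0x40004000c0008000c000b000400090004000a00050008000c000c00070006) (nat_lit 0x64a20702052300) (nat_lit 16) Lb.e (@T16.mk En
    (@En.n l13196 (nat_lit 5523) (nat_lit 0) (nat_lit 6))
    (@En.n l38309 (nat_lit 10896) (nat_lit 1) (nat_lit 7))
    (@En.n l29771 (nat_lit 10874) (nat_lit 4) (nat_lit 12))
    (@En.i (nat_lit 9174) (nat_lit 7) (nat_lit 12))
    (@En.n l13196 (nat_lit 8705) (nat_lit 10) (nat_lit 8))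
    (@En.n l32365 (nat_lit 7510) (nat_lit 5) (nat_lit 5))
    (@En.n l38310 (nat_lit 10997) (nat_lit 0) (nat_lit 10))
    (@En.i (nat_lit 10255) (nat_lit 7) (nat_lit 4))
    (@En.n l29769 (nat_lit 12154) (nat_lit 0) (nat_lit 9))
    (@En.n l38311 (nat_lit 5592) (nat_lit 1) (nat_lit 4))
    (@En.n l217 (nat_lit 10250) (nat_lit 5) (nat_lit 11))
    (@En.n l29769 (nat_lit 8642) (nat_lit 1) (nat_lit 12))
    (@En.n l38312 (nat_lit 9163) (nat_lit 13) (nat_lit 8))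
    (@En.i (nat_lit 10522) (nat_lit 3) (nat_lit 12))
    (@En.n l38313 (nat_lit 10249) (nat_lit 12) (nat_lit 4))
    (@En.n l29769 (nat_lit 10887) (nat_lit 0) (nat_lit 4))))
  (@Cl.mk (nat_lit 0x2000b000500080005000d0005000d0003000d000300080003000b000e000b) (nat_lit 0x3040a0205020659) (nat_lit 16) Lb.e (@T16.mk En
    (@En.n l68 (nat_lit 8500) (nat_lit 11) (nat_lit 11))
    (@En.n l3866 (nat_lit 9102) (nat_lit 4) (nat_lit 14))
    (@En.i (nat_lit 10974) (nat_lit 2) (nat_lit 11))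
    (@En.i (nat_lit 8711) (nat_lit 3) (nat_lit 3))
    (@En.i (nat_lit 5007) (nat_lit 4) (nat_lit 8))
    (@En.i (nat_lit 8714) (nat_lit 5) (nat_lit 3))
    (@En.i (nat_lit 7169) (nat_lit 0) (nat_lit 13))
    (@En.i (nat_lit 10972) (nat_lit 7) (nat_lit 3))
    (@En.i (nat_lit 4613) (nat_lit 9) (nat_lit 13))
    (@En.i (nat_lit 7516) (nat_lit 9) (nat_lit 5))
    (@En.n l645 (nat_lit 10983) (nat_lit 11) (nat_lit 13))
    (@En.i (nat_lit 9087) (nat_lit 7) (nat_lit 5))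
    (@En.i (nat_lit 4620) (nat_lit 13) (nat_lit 8))
    (@En.n l3015 (nat_lit 8157) (nat_lit 14) (nat_lit 5))
    (@En.n l8015 (nat_lit 10890) (nat_lit 9) (nat_lit 11))
    (@En.n l67 (nat_lit 8716) (nat_lit 15) (nat_lit 2))))
  (@Cl.mk (nat_lit 0x2000a0005000a00080006000c0006000d0006000400030008000b000e000a) (nat_lit 0x3075040b0001528) (nat_lit 16) Lb.e (@T16.mk En
    (@En.n l68 (nat_lit 8497) (nat_lit 12) (nat_lit 10))
    (@En.n l3273 (nat_lit 6562) (nat_lit 4) (nat_lit 14))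
    (@En.n l3125 (nat_lit 12306) (nat_lit 7) (nat_lit 11))
    (@En.n l1068 (nat_lit 2624) (nat_lit 3) (nat_lit 8))
    (@En.n l50 (nat_lit 10974) (nat_lit 4) (nat_lit 3))
    (@En.n l3125 (nat_lit 8189) (nat_lit 0) (nat_lit 4))
    (@En.i (nat_lit 11321) (nat_lit 6) (nat_lit 6))
    (@En.n l3273 (nat_lit 4610) (nat_lit 8) (nat_lit 13))
    (@En.n l16312 (nat_lit 7519) (nat_lit 8) (nat_lit 6))
    (@En.n l3125 (nat_lit 12812) (nat_lit 10) (nat_lit 12))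
    (@En.i (nat_lit 12409) (nat_lit 11) (nat_lit 6))
    (@En.n l17 (nat_lit 8714) (nat_lit 12) (nat_lit 8))
    (@En.i (nat_lit 9833) (nat_lit 13) (nat_lit 10))
    (@En.n l8451 (nat_lit 8151) (nat_lit 14) (nat_lit 5))
    (@En.n l8015 (nat_lit 10896) (nat_lit 10) (nat_lit 10))
    (@En.n l67 (nat_lit 8717) (nat_lit 15) (nat_lit 2))))
  (@Cl.mk (nat_lit 0x2000800060004000c0008000c000c0004000800040004000a0008000e000c) (nat_lit 0x500628a03006413) (nat_lit 16) Lb.e (@T16.mk En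
    (@En.n l217 (nat_lit 8704) (nat_lit 11) (nat_lit 12))
    (@En.n l6319 (nat_lit 2414) (nat_lit 1) (nat_lit 14))
    (@En.n l21456 (nat_lit 7095) (nat_lit 2) (nat_lit 8))
    (@En.n l21457 (nat_lit 9566) (nat_lit 3) (nat_lit 10))
    (@En.n l21458 (nat_lit 8708) (nat_lit 12) (nat_lit 4))
    (@En.n l3928 (nat_lit 8653) (nat_lit 5) (nat_lit 4))
    (@En.i (nat_lit 7018) (nat_lit 6) (nat_lit 8))
    (@En.n l21457 (nat_lit 8744) (nat_lit 7) (nat_lit 4))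
    (@En.n l619 (nat_lit 8676) (nat_lit 9) (nat_lit 12))
    (@En.i (nat_lit 8639) (nat_lit 10) (nat_lit 12))
    (@En.n l21456 (nat_lit 8720) (nat_lit 11) (nat_lit 8))
    (@En.n l763 (nat_lit 7707) (nat_lit 12) (nat_lit 12))
    (@En.i (nat_lit 8149) (nat_lit 13) (nat_lit 4))
    (@En.n l1545 (nat_lit 7208) (nat_lit 14) (nat_lit 6))
    (@En.n l6322 (nat_lit 8147) (nat_lit 1) (nat_lit 8))
    (@En.n l50 (nat_lit 8718) (nat_lit 15) (nat_lit 2))))
  (@Cl.mk (nat_lit 0x400040008000c000c000a000800040004000a00080006000c000c00080006) (nat_lit 0x24902007501700) (nat_lit 16) Lb.e (@T16.mk En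
    (@En.n l27681 (nat_lit 3531) (nat_lit 0) (nat_lit 6))
    (@En.n l34010 (nat_lit 8750) (nat_lit 1) (nat_lit 8))
    (@En.n l30645 (nat_lit 8730) (nat_lit 4) (nat_lit 12))
    (@En.n l34010 (nat_lit 7300) (nat_lit 11) (nat_lit 12))
    (@En.i (nat_lit 8505) (nat_lit 4) (nat_lit 6))
    (@En.n l28145 (nat_lit 8813) (nat_lit 5) (nat_lit 8))
    (@En.n l13913 (nat_lit 9468) (nat_lit 14) (nat_lit 10))
    (@En.n l14329 (nat_lit 8712) (nat_lit 12) (nat_lit 4))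
    (@En.n l34011 (nat_lit 9141) (nat_lit 0) (nat_lit 4))
    (@En.n l18394 (nat_lit 7203) (nat_lit 0) (nat_lit 8))
    (@En.n l2824 (nat_lit 10179) (nat_lit 1) (nat_lit 10))
    (@En.n l15004 (nat_lit 8722) (nat_lit 4) (nat_lit 12))
    (@En.n l18394 (nat_lit 8731) (nat_lit 7) (nat_lit 12))
    (@En.n l18368 (nat_lit 10208) (nat_lit 11) (nat_lit 8))
    (@En.n l34012 (nat_lit 8720) (nat_lit 12) (nat_lit 4))
    (@En.i (nat_lit 8726) (nat_lit 0) (nat_lit 4))))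
noncomputable def a545 : T16 Cl := @T16.mk Cl
  (@Cl.mk (nat_lit 0x20009000700040008000c000c000a000700040004000900080006000e000c) (nat_lit 0x100179200074032) (nat_lit 16) Lb.e (@T16.mk En
    (@En.n l29606 (nat_lit 8719) (nat_lit 3) (nat_lit 12))
    (@En.i (nat_lit 3198) (nat_lit 1) (nat_lit 14))
    (@En.n l16292 (nat_lit 8679) (nat_lit 2) (nat_lit 6))
    (@En.i (nat_lit 8846) (nat_lit 3) (nat_lit 8))
    (@En.n l29607 (nat_lit 9564) (nat_lit 4) (nat_lit 9))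
    (@En.n l5760 (nat_lit 9152) (nat_lit 5) (nat_lit 4))
    (@En.n l152 (nat_lit 9143) (nat_lit 6) (nat_lit 4))
    (@En.n l13886 (nat_lit 4012) (nat_lit 7) (nat_lit 7))
    (@En.n l55 (nat_lit 10203) (nat_lit 9) (nat_lit 10))
    (@En.n l29608 (nat_lit 8721) (nat_lit 4) (nat_lit 12))
    (@En.n l13886 (nat_lit 9156) (nat_lit 11) (nat_lit 12))
    (@En.n l17 (nat_lit 4487) (nat_lit 12) (nat_lit 8))
    (@En.n l16292 (nat_lit 8723) (nat_lit 13) (nat_lit 4))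
    (@En.n l10230 (nat_lit 7220) (nat_lit 14) (nat_lit 7))
    (@En.n l14808 (nat_lit 7961) (nat_lit 1) (nat_lit 9))
    (@En.n l50 (nat_lit 8720) (nat_lit 15) (nat_lit 2))))
  (@Cl.mk (nat_lit 0x2000900080007000e000c0002000a000700040008000c00090006000e0004) (nat_lit 0x3603301001850a0) (nat_lit 16) Lb.e (@T16.mk En
    (@En.n l22581 (nat_lit 8720) (nat_lit 6) (nat_lit 4))
    (@En.n l22582 (nat_lit 3623) (nat_lit 8) (nat_lit 14))
    (@En.i (nat_lit 7389) (nat_lit 2) (nat_lit 6))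
    (@En.n l22583 (nat_lit 8934) (nat_lit 3) (nat_lit 9))
    (@En.i (nat_lit 9154) (nat_lit 11) (nat_lit 12))
    (@En.n l645 (nat_lit 4488) (nat_lit 5) (nat_lit 8))
    (@En.n l9715 (nat_lit 8724) (nat_lit 6) (nat_lit 4))
    (@En.n l1101 (nat_lit 3528) (nat_lit 14) (nat_lit 7))
    (@En.n l22584 (nat_lit 7960) (nat_lit 9) (nat_lit 10))
    (@En.n l67 (nat_lit 8721) (nat_lit 9) (nat_lit 2))
    (@En.n l68 (nat_lit 8722) (nat_lit 11) (nat_lit 12))
    (@En.n l2824 (nat_lit 3208) (nat_lit 12) (nat_lit 14))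
    (@En.n l22585 (nat_lit 8677) (nat_lit 2) (nat_lit 7))
    (@En.n l22586 (nat_lit 8914) (nat_lit 14) (nat_lit 8))
    (@En.n l22587 (nat_lit 9486) (nat_lit 4) (nat_lit 9))
    (@En.n l50 (nat_lit 8721) (nat_lit 15) (nat_lit 2))))
  (@Cl.mk (nat_lit 0x2000a00080007000c000c00090006000400040008000c00090007000e0004) (nat_lit 0x7602270002860a0) (nat_lit 16) Lb.e (@T16.mk En
    (@En.n l9374 (nat_lit 8719) (nat_lit 8) (nat_lit 4))
    (@En.n l5582 (nat_lit 3242) (nat_lit 1) (nat_lit 14))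
    (@En.i (nat_lit 7391) (nat_lit 2) (nat_lit 7))
    (@En.n l35107 (nat_lit 8935) (nat_lit 3) (nat_lit 9))
    (@En.i (nat_lit 8725) (nat_lit 7) (nat_lit 12))
    (@En.n l35885 (nat_lit 10734) (nat_lit 5) (nat_lit 8))
    (@En.n l11 (nat_lit 8721) (nat_lit 6) (nat_lit 4))
    (@En.n l18752 (nat_lit 8727) (nat_lit 7) (nat_lit 4))
    (@En.n l35110 (nat_lit 3526) (nat_lit 8) (nat_lit 6))
    (@En.n l2824 (nat_lit 8747) (nat_lit 10) (nat_lit 9))
    (@En.n l5581 (nat_lit 8729) (nat_lit 4) (nat_lit 12))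
    (@En.n l2824 (nat_lit 7298) (nat_lit 12) (nat_lit 12))
    (@En.n l32748 (nat_lit 8678) (nat_lit 13) (nat_lit 7))
    (@En.n l22586 (nat_lit 8916) (nat_lit 14) (nat_lit 8))
    (@En.i (nat_lit 9479) (nat_lit 14) (nat_lit 10))
    (@En.n l50 (nat_lit 8722) (nat_lit 15) (nat_lit 2))))
  (@Cl.mk (nat_lit 0x3000a00040008000c000c000a000600040004000b00080006000d000c0005) (nat_lit 0x3084000850b60) (nat_lit 16) Lb.e (@T16.mk En
    (@En.n l9823 (nat_lit 8272) (nat_lit 0) (nat_lit 5))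
    (@En.n l217 (nat_lit 8726) (nat_lit 4) (nat_lit 12))
    (@En.n l26668 (nat_lit 2751) (nat_lit 2) (nat_lit 13))
    (@En.i (nat_lit 8498) (nat_lit 3) (nat_lit 6))
    (@En.n l26735 (nat_lit 8849) (nat_lit 4) (nat_lit 8))
    (@En.n l936 (nat_lit 9570) (nat_lit 6) (nat_lit 11))
    (@En.n l30138 (nat_lit 9153) (nat_lit 12) (nat_lit 4))
    (@En.n l9824 (nat_lit 9138) (nat_lit 0) (nat_lit 4))
    (@En.n l936 (nat_lit 4347) (nat_lit 0) (nat_lit 6))
    (@En.n l2824 (nat_lit 10172) (nat_lit 10) (nat_lit 10))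
    (@En.n l2691 (nat_lit 8724) (nat_lit 4) (nat_lit 12))
    (@En.n l2824 (nat_lit 9398) (nat_lit 7) (nat_lit 12))
    (@En.n l39718 (nat_lit 8654) (nat_lit 11) (nat_lit 8))
    (@En.n l50 (nat_lit 8719) (nat_lit 14) (nat_lit 4))
    (@En.n l26735 (nat_lit 9412) (nat_lit 0) (nat_lit 10))
    (@En.n l50 (nat_lit 8725) (nat_lit 1) (nat_lit 3))))
  (@Cl.mk (nat_lit 0x2000b00080007000d000c00050003000b00040008000c00090005000e0004) (nat_lit 0x860b300003700a0) (nat_lit 16) Lb.e (@T16.mk En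
    (@En.n l1992 (nat_lit 8723) (nat_lit 7) (nat_lit 4))
    (@En.n l3348 (nat_lit 3970) (nat_lit 1) (nat_lit 14))
    (@En.n l3928 (nat_lit 4346) (nat_lit 2) (nat_lit 5))
    (@En.n l2576 (nat_lit 9006) (nat_lit 3) (nat_lit 9))
    (@En.n l3928 (nat_lit 9194) (nat_lit 7) (nat_lit 12))
    (@En.n l29005 (nat_lit 8659) (nat_lit 5) (nat_lit 8))
    (@En.n l3928 (nat_lit 8722) (nat_lit 6) (nat_lit 4))
    (@En.n l998 (nat_lit 9404) (nat_lit 8) (nat_lit 11))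
    (@En.n l50 (nat_lit 8728) (nat_lit 8) (nat_lit 3))
    (@En.i (nat_lit 8271) (nat_lit 0) (nat_lit 5))
    (@En.n l217 (nat_lit 8727) (nat_lit 11) (nat_lit 12))
    (@En.n l899 (nat_lit 3474) (nat_lit 12) (nat_lit 13))
    (@En.n l1769 (nat_lit 8680) (nat_lit 13) (nat_lit 7))
    (@En.n l34771 (nat_lit 8917) (nat_lit 14) (nat_lit 8))
    (@En.i (nat_lit 9571) (nat_lit 6) (nat_lit 11))
    (@En.n l11 (nat_lit 8724) (nat_lit 15) (nat_lit 2))))
  (@Cl.mk (nat_lit 0x30008000c000c000a000600040004000c00080006000d0004000d0003000a) (nat_lit 0x4027000750a0700) (nat_lit 16) Lb.e (@T16.mk En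
    (@En.i (nat_lit 9503) (nat_lit 0) (nat_lit 10))
    (@En.i (nat_lit 8723) (nat_lit 15) (nat_lit 3))
    (@En.i (nat_lit 3995) (nat_lit 0) (nat_lit 13))
    (@En.i (nat_lit 8731) (nat_lit 3) (nat_lit 4))
    (@En.n l26668 (nat_lit 2750) (nat_lit 2) (nat_lit 13))
    (@En.i (nat_lit 8500) (nat_lit 3) (nat_lit 6))
    (@En.i (nat_lit 8854) (nat_lit 6) (nat_lit 8))
    (@En.n l134 (nat_lit 10085) (nat_lit 8) (nat_lit 12))
    (@En.n l11 (nat_lit 9154) (nat_lit 12) (nat_lit 4))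
    (@En.n l833 (nat_lit 4332) (nat_lit 9) (nat_lit 4))
    (@En.n l936 (nat_lit 7216) (nat_lit 0) (nat_lit 6))
    (@En.n l2824 (nat_lit 10173) (nat_lit 12) (nat_lit 10))
    (@En.n l2691 (nat_lit 8728) (nat_lit 4) (nat_lit 12))
    (@En.n l2824 (nat_lit 9397) (nat_lit 7) (nat_lit 12))
    (@En.n l14253 (nat_lit 8658) (nat_lit 13) (nat_lit 8))
    (@En.i (nat_lit 8726) (nat_lit 15) (nat_lit 3))))
  (@Cl.mk (nat_lit 0x30008000c000c000a000700040004000c00080006000c0004000d00090004) (nat_lit 0x402500075050130) (nat_lit 16) Lb.e (@T16.mk En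
    (@En.n l2938 (nat_lit 8730) (nat_lit 0) (nat_lit 4))
    (@En.n l61 (nat_lit 8749) (nat_lit 0) (nat_lit 9))
    (@En.n l27260 (nat_lit 3990) (nat_lit 1) (nat_lit 13))
    (@En.i (nat_lit 9392) (nat_lit 3) (nat_lit 4))
    (@En.n l26668 (nat_lit 10006) (nat_lit 0) (nat_lit 12))
    (@En.i (nat_lit 8503) (nat_lit 5) (nat_lit 6))
    (@En.n l34158 (nat_lit 8855) (nat_lit 6) (nat_lit 8))
    (@En.n l134 (nat_lit 10084) (nat_lit 8) (nat_lit 12))
    (@En.n l11 (nat_lit 9155) (nat_lit 12) (nat_lit 4))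
    (@En.n l833 (nat_lit 9139) (nat_lit 9) (nat_lit 4))
    (@En.n l936 (nat_lit 7115) (nat_lit 0) (nat_lit 7))
    (@En.n l2824 (nat_lit 10216) (nat_lit 12) (nat_lit 10))
    (@En.n l2691 (nat_lit 8727) (nat_lit 4) (nat_lit 12))
    (@En.n l2824 (nat_lit 9394) (nat_lit 7) (nat_lit 12))
    (@En.n l18395 (nat_lit 10255) (nat_lit 4) (nat_lit 8))
    (@En.n l18 (nat_lit 8725) (nat_lit 15) (nat_lit 3))))
  (@Cl.mk (nat_lit 0x2000c00080007000c0004000d000a000400030008000c00090006000e0004) (nat_lit 0x4602013005140a0) (nat_lit 16) Lb.e (@T16.mk En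
    (@En.n l1992 (nat_lit 8726) (nat_lit 9) (nat_lit 4))
    (@En.n l3348 (nat_lit 4353) (nat_lit 1) (nat_lit 14))
    (@En.n l6080 (nat_lit 7444) (nat_lit 2) (nat_lit 6))
    (@En.n l2576 (nat_lit 9005) (nat_lit 3) (nat_lit 9))
    (@En.n l899 (nat_lit 4332) (nat_lit 7) (nat_lit 12))
    (@En.n l10794 (nat_lit 7807) (nat_lit 5) (nat_lit 8))
    (@En.n l18 (nat_lit 8728) (nat_lit 6) (nat_lit 3))
    (@En.n l3348 (nat_lit 8729) (nat_lit 0) (nat_lit 4))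
    (@En.n l899 (nat_lit 8748) (nat_lit 9) (nat_lit 10))
    (@En.n l3593 (nat_lit 3987) (nat_lit 10) (nat_lit 13))
    (@En.i (nat_lit 9391) (nat_lit 10) (nat_lit 4))
    (@En.n l899 (nat_lit 7450) (nat_lit 12) (nat_lit 12))
    (@En.n l1769 (nat_lit 8684) (nat_lit 13) (nat_lit 7))
    (@En.i (nat_lit 8919) (nat_lit 14) (nat_lit 8))
    (@En.i (nat_lit 10079) (nat_lit 8) (nat_lit 12))
    (@En.n l11 (nat_lit 8727) (nat_lit 15) (nat_lit 2))))
  (@Cl.mk (nat_lit 0x2000c00080007000d0004000d0003000b00030008000c00090005000e0004) (nat_lit 0x860a020005170a0) (nat_lit 16) Lb.e (@T16.mk En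
    (@En.n l1992 (nat_lit 8725) (nat_lit 9) (nat_lit 4))
    (@En.i (nat_lit 4354) (nat_lit 1) (nat_lit 14))
    (@En.n l2125 (nat_lit 7295) (nat_lit 2) (nat_lit 5))
    (@En.n l2576 (nat_lit 9004) (nat_lit 3) (nat_lit 9))
    (@En.i (nat_lit 4335) (nat_lit 7) (nat_lit 12))
    (@En.n l9182 (nat_lit 8746) (nat_lit 5) (nat_lit 8))
    (@En.i (nat_lit 8727) (nat_lit 6) (nat_lit 3))
    (@En.i (nat_lit 9502) (nat_lit 0) (nat_lit 11))
    (@En.i (nat_lit 8724) (nat_lit 8) (nat_lit 3))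
    (@En.i (nat_lit 3988) (nat_lit 10) (nat_lit 13))
    (@En.i (nat_lit 9390) (nat_lit 10) (nat_lit 4))
    (@En.n l899 (nat_lit 3473) (nat_lit 12) (nat_lit 13))
    (@En.n l1769 (nat_lit 8683) (nat_lit 13) (nat_lit 7))
    (@En.i (nat_lit 8920) (nat_lit 14) (nat_lit 8))
    (@En.i (nat_lit 10081) (nat_lit 8) (nat_lit 12))
    (@En.n l11 (nat_lit 8728) (nat_lit 15) (nat_lit 2))))
  (@Cl.mk (nat_lit 0x20008000c00090008000e00040002000b00080007000c00080005000e0004) (nat_lit 0x3976a00760160a0) (nat_lit 16) Lb.e (@T16.mk En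
    (@En.n l4770 (nat_lit 8722) (nat_lit 7) (nat_lit 4))
    (@En.n l18240 (nat_lit 3989) (nat_lit 9) (nat_lit 14))
    (@En.n l152 (nat_lit 3527) (nat_lit 2) (nat_lit 5))
    (@En.i (nat_lit 11365) (nat_lit 3) (nat_lit 8))
    (@En.i (nat_lit 7301) (nat_lit 12) (nat_lit 12))
    (@En.n l644 (nat_lit 7456) (nat_lit 13) (nat_lit 7))
    (@En.i (nat_lit 8923) (nat_lit 6) (nat_lit 8))
    (@En.i (nat_lit 9482) (nat_lit 8) (nat_lit 11))
    (@En.n l17 (nat_lit 8729) (nat_lit 8) (nat_lit 2))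
    (@En.i (nat_lit 8730) (nat_lit 9) (nat_lit 4))
    (@En.i (nat_lit 3245) (nat_lit 11) (nat_lit 14))
    (@En.n l12876 (nat_lit 7195) (nat_lit 12) (nat_lit 8))
    (@En.i (nat_lit 8941) (nat_lit 13) (nat_lit 9))
    (@En.n l10976 (nat_lit 8728) (nat_lit 14) (nat_lit 12))
    (@En.n l3506 (nat_lit 10736) (nat_lit 5) (nat_lit 8))
    (@En.n l28 (nat_lit 8729) (nat_lit 15) (nat_lit 2))))
  (@Cl.mk (nat_lit 0x20008000c000c000a000900040004000b00080006000c00070005000e0004) (nat_lit 0x35a020075060090) (nat_lit 16) Lb.e (@T16.mk En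
    (@En.n l18218 (nat_lit 8719) (nat_lit 15) (nat_lit 4))
    (@En.n l18219 (nat_lit 3998) (nat_lit 1) (nat_lit 14))
    (@En.n l2710 (nat_lit 7221) (nat_lit 2) (nat_lit 5))
    (@En.n l13918 (nat_lit 11338) (nat_lit 3) (nat_lit 7))
    (@En.i (nat_lit 7302) (nat_lit 5) (nat_lit 12))
    (@En.n l13918 (nat_lit 8732) (nat_lit 5) (nat_lit 6))
    (@En.n l18220 (nat_lit 10749) (nat_lit 6) (nat_lit 8))
    (@En.n l15535 (nat_lit 9467) (nat_lit 8) (nat_lit 11))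
    (@En.n l1071 (nat_lit 10748) (nat_lit 8) (nat_lit 4))
    (@En.i (nat_lit 9148) (nat_lit 9) (nat_lit 4))
    (@En.n l12876 (nat_lit 7194) (nat_lit 11) (nat_lit 9))
    (@En.n l18221 (nat_lit 10217) (nat_lit 12) (nat_lit 10))
    (@En.n l61 (nat_lit 8729) (nat_lit 13) (nat_lit 12))
    (@En.n l10976 (nat_lit 9390) (nat_lit 14) (nat_lit 12))
    (@En.n l18222 (nat_lit 10209) (nat_lit 4) (nat_lit 8))
    (@En.n l28 (nat_lit 8730) (nat_lit 15) (nat_lit 2))))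
  (@Cl.mk (nat_lit 0x30007000c000c0009000600040004000c000b000900070004000d0005000a) (nat_lit 0x50500039000700) (nat_lit 16) Lb.e (@T16.mk En
    (@En.n l29743 (nat_lit 9388) (nat_lit 0) (nat_lit 10))
    (@En.n l17360 (nat_lit 8277) (nat_lit 7) (nat_lit 5))
    (@En.n l40696 (nat_lit 9165) (nat_lit 2) (nat_lit 13))
    (@En.n l40697 (nat_lit 9166) (nat_lit 3) (nat_lit 4))
    (@En.i (nat_lit 8502) (nat_lit 4) (nat_lit 7))
    (@En.n l19165 (nat_lit 10225) (nat_lit 5) (nat_lit 9))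
    (@En.n l644 (nat_lit 8723) (nat_lit 5) (nat_lit 11))
    (@En.n l11365 (nat_lit 10403) (nat_lit 8) (nat_lit 12))
    (@En.n l11 (nat_lit 9156) (nat_lit 12) (nat_lit 4))
    (@En.n l19165 (nat_lit 9394) (nat_lit 9) (nat_lit 4))
    (@En.n l936 (nat_lit 7422) (nat_lit 0) (nat_lit 6))
    (@En.n l2824 (nat_lit 8757) (nat_lit 12) (nat_lit 9))
    (@En.n l2691 (nat_lit 9390) (nat_lit 4) (nat_lit 12))
    (@En.n l2824 (nat_lit 9175) (nat_lit 14) (nat_lit 12))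
    (@En.n l22032 (nat_lit 8734) (nat_lit 12) (nat_lit 7))
    (@En.i (nat_lit 9392) (nat_lit 15) (nat_lit 3))))
  (@Cl.mk (nat_lit 0x2000c000b000b000a0004000a00050005000c0006000c00060004000e0004) (nat_lit 0x7711020070a00a0) (nat_lit 16) Lb.e (@T16.mk En
    (@En.n l50 (nat_lit 8505) (nat_lit 15) (nat_lit 4))
    (@En.n l8194 (nat_lit 7164) (nat_lit 1) (nat_lit 14))
    (@En.n l16268 (nat_lit 7426) (nat_lit 2) (nat_lit 4))
    (@En.i (nat_lit 11311) (nat_lit 3) (nat_lit 6))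
    (@En.n l2944 (nat_lit 8598) (nat_lit 5) (nat_lit 12))
    (@En.n l17194 (nat_lit 5882) (nat_lit 5) (nat_lit 6))
    (@En.n l18332 (nat_lit 9465) (nat_lit 7) (nat_lit 12))
    (@En.n l1154 (nat_lit 8710) (nat_lit 11) (nat_lit 5))
    (@En.n l2938 (nat_lit 7343) (nat_lit 8) (nat_lit 5))
    (@En.i (nat_lit 7371) (nat_lit 10) (nat_lit 10))
    (@En.n l2938 (nat_lit 7457) (nat_lit 10) (nat_lit 4))
    (@En.n l55 (nat_lit 7771) (nat_lit 12) (nat_lit 10))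
    (@En.n l2940 (nat_lit 7456) (nat_lit 5) (nat_lit 11))
    (@En.n l17327 (nat_lit 8733) (nat_lit 14) (nat_lit 11))
    (@En.i (nat_lit 12175) (nat_lit 3) (nat_lit 12))
    (@En.n l18 (nat_lit 8732) (nat_lit 15) (nat_lit 2))))
  (@Cl.mk (nat_lit 0x2000b000a0009000d0009000500030006000c0007000c00070004000e0004) (nat_lit 0x685830000010080) (nat_lit 16) Lb.e (@T16.mk En
    (@En.n l29884 (nat_lit 8734) (nat_lit 7) (nat_lit 4))
    (@En.n l33018 (nat_lit 5557) (nat_lit 1) (nat_lit 14))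
    (@En.n l9876 (nat_lit 7419) (nat_lit 2) (nat_lit 4))
    (@En.n l31196 (nat_lit 7816) (nat_lit 3) (nat_lit 7))
    (@En.i (nat_lit 4326) (nat_lit 12) (nat_lit 12))
    (@En.n l29018 (nat_lit 7804) (nat_lit 5) (nat_lit 7))
    (@En.n l22467 (nat_lit 9444) (nat_lit 7) (nat_lit 12))
    (@En.n l9877 (nat_lit 8276) (nat_lit 12) (nat_lit 6))
    (@En.n l25864 (nat_lit 7428) (nat_lit 8) (nat_lit 3))
    (@En.n l10573 (nat_lit 8314) (nat_lit 0) (nat_lit 5))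
    (@En.n l61 (nat_lit 8751) (nat_lit 11) (nat_lit 9))
    (@En.n l28839 (nat_lit 7775) (nat_lit 12) (nat_lit 13))
    (@En.n l28839 (nat_lit 7774) (nat_lit 13) (nat_lit 9))
    (@En.n l39316 (nat_lit 8659) (nat_lit 14) (nat_lit 10))
    (@En.i (nat_lit 10564) (nat_lit 6) (nat_lit 11))
    (@En.n l28 (nat_lit 8733) (nat_lit 15) (nat_lit 2))))
  (@Cl.mk (nat_lit 0x30006000b0007000c000c0008000500040004000b000a0009000d00080005) (nat_lit 0x22000684840) (nat_lit 16) Lb.e (@T16.mk En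
    (@En.n l18 (nat_lit 8317) (nat_lit 0) (nat_lit 5))
    (@En.n l6081 (nat_lit 8752) (nat_lit 0) (nat_lit 8))
    (@En.n l3 (nat_lit 8735) (nat_lit 6) (nat_lit 13))
    (@En.n l3 (nat_lit 8736) (nat_lit 7) (nat_lit 9))
    (@En.n l20149 (nat_lit 8654) (nat_lit 4) (nat_lit 10))
    (@En.n l564 (nat_lit 10833) (nat_lit 6) (nat_lit 11))
    (@En.n l237 (nat_lit 8741) (nat_lit 12) (nat_lit 4))
    (@En.i (nat_lit 9402) (nat_lit 7) (nat_lit 4))
    (@En.n l40805 (nat_lit 7420) (nat_lit 0) (nat_lit 5))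
    (@En.n l55 (nat_lit 9966) (nat_lit 1) (nat_lit 8))
    (@En.n l39833 (nat_lit 8733) (nat_lit 4) (nat_lit 12))
    (@En.n l40527 (nat_lit 9167) (nat_lit 12) (nat_lit 12))
    (@En.n l17204 (nat_lit 7107) (nat_lit 13) (nat_lit 7))
    (@En.n l40806 (nat_lit 9432) (nat_lit 14) (nat_lit 11))
    (@En.n l20187 (nat_lit 8278) (nat_lit 12) (nat_lit 6))
    (@En.n l40807 (nat_lit 7429) (nat_lit 15) (nat_lit 3))))
  (@Cl.mk (nat_lit 0x3000c000c0009000500040004000c000a000d000700040003000d0006000b) (nat_lit 0x12000377000801) (nat_lit 16) Lb.e (@T16.mk En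
    (@En.n l19751 (nat_lit 8289) (nat_lit 0) (nat_lit 11))
    (@En.i (nat_lit 8734) (nat_lit 14) (nat_lit 6))
    (@En.n l9775 (nat_lit 8731) (nat_lit 2) (nat_lit 13))
    (@En.n l25348 (nat_lit 8737) (nat_lit 13) (nat_lit 3))
    (@En.n l18 (nat_lit 8315) (nat_lit 0) (nat_lit 4))
    (@En.n l6081 (nat_lit 8759) (nat_lit 0) (nat_lit 7))
    (@En.i (nat_lit 3278) (nat_lit 5) (nat_lit 13))
    (@En.n l61 (nat_lit 8657) (nat_lit 3) (nat_lit 10))
    (@En.n l564 (nat_lit 10615) (nat_lit 9) (nat_lit 12))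
    (@En.n l237 (nat_lit 8739) (nat_lit 12) (nat_lit 4))
    (@En.i (nat_lit 9400) (nat_lit 10) (nat_lit 4))
    (@En.n l2853 (nat_lit 7327) (nat_lit 0) (nat_lit 5))
    (@En.n l55 (nat_lit 9969) (nat_lit 1) (nat_lit 9))
    (@En.n l134 (nat_lit 7775) (nat_lit 4) (nat_lit 12))
    (@En.n l11 (nat_lit 8855) (nat_lit 11) (nat_lit 12))
    (@En.n l117 (nat_lit 8736) (nat_lit 15) (nat_lit 3))))
noncomputable def a546 : T16 Cl := @T16.mk Cl
  (@Cl.mk (nat_lit 0x3000c000c0009000600040004000c0009000d000700040003000d000a0007) (nat_lit 0x453000836000970) (nat_lit 16) Lb.e (@T16.mk En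
    (@En.n l18560 (nat_lit 7983) (nat_lit 0) (nat_lit 7))
    (@En.n l97 (nat_lit 6197) (nat_lit 14) (nat_lit 10))
    (@En.n l14143 (nat_lit 9392) (nat_lit 2) (nat_lit 13))
    (@En.n l35181 (nat_lit 8738) (nat_lit 13) (nat_lit 3))
    (@En.n l18 (nat_lit 8316) (nat_lit 0) (nat_lit 4))
    (@En.n l14143 (nat_lit 10072) (nat_lit 0) (nat_lit 7))
    (@En.i (nat_lit 3276) (nat_lit 6) (nat_lit 13))
    (@En.n l35182 (nat_lit 10177) (nat_lit 3) (nat_lit 9))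
    (@En.n l28237 (nat_lit 10917) (nat_lit 9) (nat_lit 12))
    (@En.n l237 (nat_lit 8740) (nat_lit 12) (nat_lit 4))
    (@En.i (nat_lit 9399) (nat_lit 10) (nat_lit 4))
    (@En.n l35183 (nat_lit 3039) (nat_lit 0) (nat_lit 6))
    (@En.n l55 (nat_lit 9971) (nat_lit 1) (nat_lit 9))
    (@En.n l134 (nat_lit 7774) (nat_lit 4) (nat_lit 12))
    (@En.n l35184 (nat_lit 10434) (nat_lit 11) (nat_lit 12))
    (@En.n l152 (nat_lit 8735) (nat_lit 15) (nat_lit 3))))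
  (@Cl.mk (nat_lit 0x300080003000d0006000b0003000c000c0008000500040004000d000a000d) (nat_lit 0x60a060025000277) (nat_lit 16) Lb.e (@T16.mk En
    (@En.n l25334 (nat_lit 3279) (nat_lit 0) (nat_lit 13))
    (@En.n l97 (nat_lit 8656) (nat_lit 3) (nat_lit 10))
    (@En.n l6989 (nat_lit 10927) (nat_lit 2) (nat_lit 13))
    (@En.n l25335 (nat_lit 8742) (nat_lit 12) (nat_lit 4))
    (@En.i (nat_lit 10198) (nat_lit 4) (nat_lit 4))
    (@En.n l11091 (nat_lit 7330) (nat_lit 0) (nat_lit 5))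
    (@En.n l7422 (nat_lit 10199) (nat_lit 6) (nat_lit 8))
    (@En.n l25336 (nat_lit 7772) (nat_lit 4) (nat_lit 12))
    (@En.n l25337 (nat_lit 8854) (nat_lit 11) (nat_lit 12))
    (@En.n l11091 (nat_lit 8738) (nat_lit 9) (nat_lit 3))
    (@En.n l25338 (nat_lit 7695) (nat_lit 0) (nat_lit 11))
    (@En.n l15058 (nat_lit 7429) (nat_lit 14) (nat_lit 6))
    (@En.n l14469 (nat_lit 10252) (nat_lit 2) (nat_lit 13))
    (@En.n l3866 (nat_lit 8735) (nat_lit 3) (nat_lit 3))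
    (@En.i (nat_lit 12630) (nat_lit 0) (nat_lit 8))
    (@En.n l152 (nat_lit 8640) (nat_lit 15) (nat_lit 3))))
  (@Cl.mk (nat_lit 0x300080003000d000a00070003000c000c0008000600040004000d0009000d) (nat_lit 0x609700450000a35) (nat_lit 16) Lb.e (@T16.mk En
    (@En.n l619 (nat_lit 3277) (nat_lit 0) (nat_lit 13))
    (@En.n l25119 (nat_lit 10179) (nat_lit 3) (nat_lit 9))
    (@En.n l24316 (nat_lit 10926) (nat_lit 2) (nat_lit 13))
    (@En.n l3519 (nat_lit 8743) (nat_lit 12) (nat_lit 4))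
    (@En.n l24673 (nat_lit 10167) (nat_lit 4) (nat_lit 4))
    (@En.i (nat_lit 3043) (nat_lit 0) (nat_lit 6))
    (@En.n l31076 (nat_lit 10170) (nat_lit 6) (nat_lit 8))
    (@En.n l61 (nat_lit 7773) (nat_lit 4) (nat_lit 12))
    (@En.n l33920 (nat_lit 10435) (nat_lit 11) (nat_lit 12))
    (@En.n l33921 (nat_lit 8737) (nat_lit 9) (nat_lit 3))
    (@En.n l20715 (nat_lit 7982) (nat_lit 0) (nat_lit 7))
    (@En.i (nat_lit 6669) (nat_lit 12) (nat_lit 10))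
    (@En.n l33922 (nat_lit 10253) (nat_lit 2) (nat_lit 13))
    (@En.n l33923 (nat_lit 8736) (nat_lit 3) (nat_lit 3))
    (@En.n l3697 (nat_lit 12633) (nat_lit 0) (nat_lit 8))
    (@En.n l24678 (nat_lit 8642) (nat_lit 15) (nat_lit 3))))
  (@Cl.mk (nat_lit 0x2000a00060004000c000a000d000600040003000d0006000a0003000e000c) (nat_lit 0x300681000901061) (nat_lit 16) Lb.e (@T16.mk En
    (@En.n l77 (nat_lit 8735) (nat_lit 14) (nat_lit 12))
    (@En.n l1543 (nat_lit 4446) (nat_lit 1) (nat_lit 14))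
    (@En.n l117 (nat_lit 8740) (nat_lit 2) (nat_lit 3))
    (@En.n l1878 (nat_lit 8290) (nat_lit 3) (nat_lit 10))
    (@En.i (nat_lit 8741) (nat_lit 4) (nat_lit 6))
    (@En.n l6631 (nat_lit 9156) (nat_lit 6) (nat_lit 13))
    (@En.n l6477 (nat_lit 8742) (nat_lit 6) (nat_lit 3))
    (@En.n l18 (nat_lit 8321) (nat_lit 7) (nat_lit 4))
    (@En.n l6081 (nat_lit 10243) (nat_lit 8) (nat_lit 6))
    (@En.i (nat_lit 3281) (nat_lit 5) (nat_lit 13))
    (@En.n l61 (nat_lit 8649) (nat_lit 11) (nat_lit 10))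
    (@En.i (nat_lit 11395) (nat_lit 12) (nat_lit 12))
    (@En.i (nat_lit 8745) (nat_lit 13) (nat_lit 4))
    (@En.n l1878 (nat_lit 7326) (nat_lit 14) (nat_lit 6))
    (@En.n l12144 (nat_lit 10057) (nat_lit 12) (nat_lit 10))
    (@En.n l28 (nat_lit 8739) (nat_lit 15) (nat_lit 2))))
  (@Cl.mk (nat_lit 0x2000a00070004000c0009000d000600040003000d000900070003000e000c) (nat_lit 0x300821000960065) (nat_lit 16) Lb.e (@T16.mk En
    (@En.n l77 (nat_lit 8736) (nat_lit 14) (nat_lit 12))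
    (@En.n l19737 (nat_lit 8134) (nat_lit 1) (nat_lit 14))
    (@En.n l152 (nat_lit 8739) (nat_lit 2) (nat_lit 3))
    (@En.n l8311 (nat_lit 7980) (nat_lit 3) (nat_lit 7))
    (@En.n l19738 (nat_lit 6191) (nat_lit 4) (nat_lit 9))
    (@En.n l19739 (nat_lit 9157) (nat_lit 6) (nat_lit 13))
    (@En.n l19740 (nat_lit 8743) (nat_lit 6) (nat_lit 3))
    (@En.n l18 (nat_lit 8323) (nat_lit 7) (nat_lit 4))
    (@En.n l8313 (nat_lit 10242) (nat_lit 8) (nat_lit 6))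
    (@En.i (nat_lit 3280) (nat_lit 10) (nat_lit 13))
    (@En.n l19741 (nat_lit 10202) (nat_lit 11) (nat_lit 9))
    (@En.i (nat_lit 11397) (nat_lit 12) (nat_lit 12))
    (@En.i (nat_lit 10160) (nat_lit 13) (nat_lit 4))
    (@En.n l19742 (nat_lit 3041) (nat_lit 14) (nat_lit 7))
    (@En.n l8311 (nat_lit 10056) (nat_lit 12) (nat_lit 10))
    (@En.n l28 (nat_lit 8740) (nat_lit 15) (nat_lit 2))))
  (@Cl.mk (nat_lit 0x2000900060004000b000a0009000d0007000500030006000a0007000e000c) (nat_lit 0x300683200000041) (nat_lit 16) Lb.e (@T16.mk En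
    (@En.n l77 (nat_lit 8734) (nat_lit 11) (nat_lit 12))
    (@En.n l28340 (nat_lit 4444) (nat_lit 1) (nat_lit 14))
    (@En.n l28341 (nat_lit 7106) (nat_lit 2) (nat_lit 7))
    (@En.n l25366 (nat_lit 11522) (nat_lit 3) (nat_lit 10))
    (@En.n l20187 (nat_lit 9209) (nat_lit 4) (nat_lit 6))
    (@En.n l28342 (nat_lit 8744) (nat_lit 5) (nat_lit 3))
    (@En.n l18 (nat_lit 8322) (nat_lit 0) (nat_lit 5))
    (@En.n l6081 (nat_lit 9837) (nat_lit 7) (nat_lit 7))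
    (@En.n l3 (nat_lit 8739) (nat_lit 9) (nat_lit 13))
    (@En.n l3 (nat_lit 8740) (nat_lit 10) (nat_lit 9))
    (@En.n l28341 (nat_lit 8651) (nat_lit 11) (nat_lit 10))
    (@En.n l28343 (nat_lit 11394) (nat_lit 12) (nat_lit 11))
    (@En.i (nat_lit 9759) (nat_lit 6) (nat_lit 4))
    (@En.n l25366 (nat_lit 7423) (nat_lit 14) (nat_lit 6))
    (@En.n l12144 (nat_lit 10052) (nat_lit 1) (nat_lit 9))
    (@En.n l28 (nat_lit 8741) (nat_lit 15) (nat_lit 2))))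
  (@Cl.mk (nat_lit 0x2000900060004000d000a000d000300070003000d0006000a0003000e000c) (nat_lit 0x972000700011) (nat_lit 16) Lb.e (@T16.mk En
    (@En.n l23888 (nat_lit 8737) (nat_lit 8) (nat_lit 12))
    (@En.n l7055 (nat_lit 4447) (nat_lit 1) (nat_lit 14))
    (@En.n l18 (nat_lit 8743) (nat_lit 2) (nat_lit 3))
    (@En.i (nat_lit 9102) (nat_lit 3) (nat_lit 10))
    (@En.n l61 (nat_lit 8744) (nat_lit 4) (nat_lit 6))
    (@En.i (nat_lit 10247) (nat_lit 6) (nat_lit 13))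
    (@En.n l5537 (nat_lit 8739) (nat_lit 6) (nat_lit 3))
    (@En.n l2912 (nat_lit 12629) (nat_lit 7) (nat_lit 7))
    (@En.n l20259 (nat_lit 8639) (nat_lit 8) (nat_lit 3))
    (@En.n l14556 (nat_lit 3283) (nat_lit 0) (nat_lit 13))
    (@En.n l11583 (nat_lit 8650) (nat_lit 11) (nat_lit 10))
    (@En.n l7882 (nat_lit 6530) (nat_lit 12) (nat_lit 13))
    (@En.n l11583 (nat_lit 10188) (nat_lit 3) (nat_lit 4))
    (@En.i (nat_lit 7329) (nat_lit 14) (nat_lit 6))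
    (@En.n l14556 (nat_lit 9661) (nat_lit 12) (nat_lit 9))
    (@En.n l3 (nat_lit 8742) (nat_lit 15) (nat_lit 2))))
  (@Cl.mk (nat_lit 0x2000900070004000d0009000d000300070003000d000900070003000e000c) (nat_lit 0x822000820045) (nat_lit 16) Lb.e (@T16.mk En
    (@En.n l4130 (nat_lit 8738) (nat_lit 8) (nat_lit 12))
    (@En.n l24447 (nat_lit 8135) (nat_lit 1) (nat_lit 14))
    (@En.i (nat_lit 8742) (nat_lit 2) (nat_lit 3))
    (@En.n l24448 (nat_lit 7979) (nat_lit 3) (nat_lit 7))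
    (@En.n l61 (nat_lit 6189) (nat_lit 4) (nat_lit 9))
    (@En.i (nat_lit 10248) (nat_lit 6) (nat_lit 13))
    (@En.n l24449 (nat_lit 8740) (nat_lit 6) (nat_lit 3))
    (@En.i (nat_lit 12632) (nat_lit 7) (nat_lit 7))
    (@En.n l14499 (nat_lit 8641) (nat_lit 8) (nat_lit 3))
    (@En.n l5349 (nat_lit 3282) (nat_lit 0) (nat_lit 13))
    (@En.n l11416 (nat_lit 10203) (nat_lit 11) (nat_lit 9))
    (@En.i (nat_lit 7729) (nat_lit 12) (nat_lit 13))
    (@En.n l23781 (nat_lit 10163) (nat_lit 3) (nat_lit 4))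
    (@En.i (nat_lit 4197) (nat_lit 14) (nat_lit 7))
    (@En.n l5962 (nat_lit 9666) (nat_lit 12) (nat_lit 9))
    (@En.n l3 (nat_lit 8743) (nat_lit 15) (nat_lit 2))))
  (@Cl.mk (nat_lit 0x2000800060004000c000a0009000d0004000800030006000a0007000e000c) (nat_lit 0x200973306000011) (nat_lit 16) Lb.e (@T16.mk En
    (@En.n l2429 (nat_lit 7429) (nat_lit 11) (nat_lit 12))
    (@En.n l15048 (nat_lit 4445) (nat_lit 1) (nat_lit 14))
    (@En.n l11697 (nat_lit 7985) (nat_lit 2) (nat_lit 7))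
    (@En.i (nat_lit 11524) (nat_lit 3) (nat_lit 10))
    (@En.n l15049 (nat_lit 5586) (nat_lit 12) (nat_lit 6))
    (@En.n l15050 (nat_lit 8741) (nat_lit 5) (nat_lit 3))
    (@En.n l11908 (nat_lit 11754) (nat_lit 0) (nat_lit 8))
    (@En.n l15051 (nat_lit 8679) (nat_lit 7) (nat_lit 4))
    (@En.n l617 (nat_lit 8742) (nat_lit 9) (nat_lit 13))
    (@En.n l17 (nat_lit 8743) (nat_lit 10) (nat_lit 9))
    (@En.n l11697 (nat_lit 8652) (nat_lit 11) (nat_lit 10))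
    (@En.n l8769 (nat_lit 6529) (nat_lit 12) (nat_lit 12))
    (@En.n l15052 (nat_lit 9761) (nat_lit 6) (nat_lit 4))
    (@En.i (nat_lit 7425) (nat_lit 14) (nat_lit 6))
    (@En.n l15053 (nat_lit 9663) (nat_lit 1) (nat_lit 8))
    (@En.n l3 (nat_lit 8744) (nat_lit 15) (nat_lit 2))))
  (@Cl.mk (nat_lit 0x3000b0004000c000a000d000500040003000d0006000c0003000d000c0004) (nat_lit 0x307860005090a00) (nat_lit 16) Lb.e (@T16.mk En
    (@En.i (nat_lit 9768) (nat_lit 0) (nat_lit 4))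
    (@En.n l77 (nat_lit 9400) (nat_lit 14) (nat_lit 12))
    (@En.i (nat_lit 7222) (nat_lit 1) (nat_lit 13))
    (@En.n l117 (nat_lit 10160) (nat_lit 3) (nat_lit 3))
    (@En.i (nat_lit 8541) (nat_lit 0) (nat_lit 12))
    (@En.i (nat_lit 9759) (nat_lit 14) (nat_lit 6))
    (@En.i (nat_lit 9398) (nat_lit 2) (nat_lit 13))
    (@En.n l22610 (nat_lit 10188) (nat_lit 13) (nat_lit 3))
    (@En.n l18 (nat_lit 8302) (nat_lit 0) (nat_lit 4))
    (@En.n l6081 (nat_lit 10150) (nat_lit 0) (nat_lit 5))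
    (@En.i (nat_lit 4043) (nat_lit 5) (nat_lit 13))
    (@En.n l61 (nat_lit 8601) (nat_lit 12) (nat_lit 10))
    (@En.i (nat_lit 8810) (nat_lit 13) (nat_lit 12))
    (@En.n l28 (nat_lit 8735) (nat_lit 9) (nat_lit 4))
    (@En.n l4909 (nat_lit 10060) (nat_lit 11) (nat_lit 11))
    (@En.n l28 (nat_lit 9403) (nat_lit 15) (nat_lit 3))))
  (@Cl.mk (nat_lit 0x2000b0008000c0008000d000500040003000c0008000c00080004000e0004) (nat_lit 0x9494a00084a6090) (nat_lit 16) Lb.e (@T16.mk En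
    (@En.i (nat_lit 8658) (nat_lit 8) (nat_lit 4))
    (@En.n l2038 (nat_lit 7080) (nat_lit 1) (nat_lit 14))
    (@En.n l152 (nat_lit 4348) (nat_lit 2) (nat_lit 4))
    (@En.i (nat_lit 10104) (nat_lit 3) (nat_lit 8))
    (@En.i (nat_lit 10161) (nat_lit 5) (nat_lit 12))
    (@En.i (nat_lit 7798) (nat_lit 5) (nat_lit 8))
    (@En.i (nat_lit 9419) (nat_lit 7) (nat_lit 12))
    (@En.n l28801 (nat_lit 8659) (nat_lit 7) (nat_lit 3))
    (@En.n l18 (nat_lit 7449) (nat_lit 0) (nat_lit 4))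
    (@En.i (nat_lit 8733) (nat_lit 9) (nat_lit 5))
    (@En.i (nat_lit 2872) (nat_lit 11) (nat_lit 13))
    (@En.n l61 (nat_lit 8748) (nat_lit 12) (nat_lit 8))
    (@En.n l1075 (nat_lit 7776) (nat_lit 13) (nat_lit 12))
    (@En.i (nat_lit 9148) (nat_lit 14) (nat_lit 8))
    (@En.i (nat_lit 9696) (nat_lit 12) (nat_lit 11))
    (@En.n l28 (nat_lit 8746) (nat_lit 15) (nat_lit 2))))
  (@Cl.mk (nat_lit 0x2000b00090008000d000900050003000b0007000b000800070005000e0005) (nat_lit 0x8433600002500a0) (nat_lit 16) Lb.e (@T16.mk En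
    (@En.i (nat_lit 8750) (nat_lit 7) (nat_lit 5))
    (@En.n l33018 (nat_lit 10879) (nat_lit 1) (nat_lit 14))
    (@En.n l1003 (nat_lit 8724) (nat_lit 2) (nat_lit 5))
    (@En.n l9877 (nat_lit 8660) (nat_lit 3) (nat_lit 7))
    (@En.n l9875 (nat_lit 9008) (nat_lit 4) (nat_lit 8))
    (@En.i (nat_lit 10173) (nat_lit 8) (nat_lit 11))
    (@En.n l6131 (nat_lit 7803) (nat_lit 6) (nat_lit 7))
    (@En.n l22675 (nat_lit 9405) (nat_lit 8) (nat_lit 11))
    (@En.n l18 (nat_lit 8748) (nat_lit 8) (nat_lit 3))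
    (@En.n l39031 (nat_lit 8281) (nat_lit 9) (nat_lit 5))
    (@En.i (nat_lit 11364) (nat_lit 11) (nat_lit 9))
    (@En.i (nat_lit 8204) (nat_lit 12) (nat_lit 13))
    (@En.n l14223 (nat_lit 8682) (nat_lit 13) (nat_lit 8))
    (@En.n l20111 (nat_lit 9339) (nat_lit 14) (nat_lit 9))
    (@En.i (nat_lit 9476) (nat_lit 6) (nat_lit 11))
    (@En.n l28 (nat_lit 8747) (nat_lit 15) (nat_lit 2))))
  (@Cl.mk (nat_lit 0x2000c00090008000d0004000a0003000b0007000b000800060005000e0005) (nat_lit 0x9533020000600a0) (nat_lit 16) Lb.e (@T16.mk En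
    (@En.n l5770 (nat_lit 8749) (nat_lit 7) (nat_lit 5))
    (@En.n l2038 (nat_lit 10880) (nat_lit 1) (nat_lit 14))
    (@En.n l1003 (nat_lit 8728) (nat_lit 2) (nat_lit 5))
    (@En.n l17 (nat_lit 7457) (nat_lit 3) (nat_lit 6))
    (@En.i (nat_lit 9007) (nat_lit 4) (nat_lit 8))
    (@En.i (nat_lit 10174) (nat_lit 8) (nat_lit 11))
    (@En.n l11403 (nat_lit 7799) (nat_lit 6) (nat_lit 7))
    (@En.i (nat_lit 9317) (nat_lit 8) (nat_lit 11))
    (@En.i (nat_lit 8747) (nat_lit 8) (nat_lit 3))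
    (@En.i (nat_lit 7011) (nat_lit 10) (nat_lit 10))
    (@En.i (nat_lit 8751) (nat_lit 10) (nat_lit 4))
    (@En.i (nat_lit 8206) (nat_lit 12) (nat_lit 13))
    (@En.n l14223 (nat_lit 8685) (nat_lit 13) (nat_lit 8))
    (@En.i (nat_lit 9338) (nat_lit 14) (nat_lit 9))
    (@En.i (nat_lit 10077) (nat_lit 3) (nat_lit 12))
    (@En.n l28 (nat_lit 8748) (nat_lit 15) (nat_lit 2))))
  (@Cl.mk (nat_lit 0x3000a0007000b000b00090007000600050005000c00090007000d00040009) (nat_lit 0x500170000950602) (nat_lit 16) Lb.e (@T16.mk En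
    (@En.n l14256 (nat_lit 6543) (nat_lit 0) (nat_lit 9))
    (@En.n l9374 (nat_lit 8752) (nat_lit 15) (nat_lit 4))
    (@En.n l8681 (nat_lit 8138) (nat_lit 0) (nat_lit 13))
    (@En.i (nat_lit 8499) (nat_lit 1) (nat_lit 7))
    (@En.n l35860 (nat_lit 9336) (nat_lit 4) (nat_lit 9))
    (@En.n l134 (nat_lit 10083) (nat_lit 6) (nat_lit 12))
    (@En.n l11 (nat_lit 9834) (nat_lit 11) (nat_lit 5))
    (@En.n l18752 (nat_lit 9206) (nat_lit 11) (nat_lit 5))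
    (@En.n l17 (nat_lit 8725) (nat_lit 10) (nat_lit 6))
    (@En.n l18752 (nat_lit 8704) (nat_lit 9) (nat_lit 7))
    (@En.n l20501 (nat_lit 10181) (nat_lit 11) (nat_lit 9))
    (@En.n l20502 (nat_lit 8748) (nat_lit 5) (nat_lit 11))
    (@En.n l8681 (nat_lit 8756) (nat_lit 8) (nat_lit 11))
    (@En.n l36510 (nat_lit 7105) (nat_lit 14) (nat_lit 7))
    (@En.i (nat_lit 9316) (nat_lit 13) (nat_lit 10))
    (@En.n l8681 (nat_lit 8750) (nat_lit 15) (nat_lit 3))))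
  (@Cl.mk (nat_lit 0x3000a0007000b000b00090008000600050005000b00090007000d00080005) (nat_lit 0x6305000360760) (nat_lit 16) Lb.e (@T16.mk En
    (@En.n l13913 (nat_lit 8519) (nat_lit 0) (nat_lit 5))
    (@En.n l5770 (nat_lit 11350) (nat_lit 0) (nat_lit 8))
    (@En.i (nat_lit 8140) (nat_lit 2) (nat_lit 13))
    (@En.n l5770 (nat_lit 8497) (nat_lit 3) (nat_lit 7))
    (@En.n l18094 (nat_lit 9337) (nat_lit 4) (nat_lit 9))
    (@En.n l37962 (nat_lit 9725) (nat_lit 6) (nat_lit 11))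
    (@En.n l2771 (nat_lit 9832) (nat_lit 11) (nat_lit 5))
    (@En.n l41910 (nat_lit 10413) (nat_lit 11) (nat_lit 5))
    (@En.n l3745 (nat_lit 8723) (nat_lit 8) (nat_lit 6))
    (@En.n l9876 (nat_lit 8655) (nat_lit 8) (nat_lit 8))
    (@En.n l18752 (nat_lit 10180) (nat_lit 11) (nat_lit 9))
    (@En.n l55 (nat_lit 8747) (nat_lit 5) (nat_lit 11))
    (@En.i (nat_lit 8757) (nat_lit 8) (nat_lit 11))
    (@En.n l42853 (nat_lit 7104) (nat_lit 14) (nat_lit 7))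
    (@En.n l42854 (nat_lit 9413) (nat_lit 14) (nat_lit 10))
    (@En.n l42855 (nat_lit 8749) (nat_lit 15) (nat_lit 3))))
  (@Cl.mk (nat_lit 0x2000c000b000a00090004000a0005000b0006000b000700060005000e0005) (nat_lit 0x595201000000090) (nat_lit 16) Lb.e (@T16.mk En
    (@En.n l42010 (nat_lit 8752) (nat_lit 5) (nat_lit 5))
    (@En.n l16215 (nat_lit 10752) (nat_lit 1) (nat_lit 14))
    (@En.n l1003 (nat_lit 9390) (nat_lit 2) (nat_lit 5))
    (@En.n l7899 (nat_lit 7428) (nat_lit 3) (nat_lit 6))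
    (@En.n l32775 (nat_lit 7159) (nat_lit 4) (nat_lit 7))
    (@En.i (nat_lit 9174) (nat_lit 6) (nat_lit 11))
    (@En.n l11403 (nat_lit 7805) (nat_lit 6) (nat_lit 6))
    (@En.n l13196 (nat_lit 9380) (nat_lit 8) (nat_lit 11))
    (@En.n l42011 (nat_lit 8282) (nat_lit 8) (nat_lit 5))
    (@En.n l16214 (nat_lit 7663) (nat_lit 10) (nat_lit 10))
    (@En.i (nat_lit 8755) (nat_lit 10) (nat_lit 4))
    (@En.n l14223 (nat_lit 8690) (nat_lit 12) (nat_lit 9))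
    (@En.n l39958 (nat_lit 10222) (nat_lit 13) (nat_lit 10))
    (@En.n l217 (nat_lit 8747) (nat_lit 14) (nat_lit 11))
    (@En.i (nat_lit 10553) (nat_lit 3) (nat_lit 12))
    (@En.n l28 (nat_lit 8751) (nat_lit 15) (nat_lit 2))))
noncomputable def a547 : T16 Cl := @T16.mk Cl
  (@Cl.mk (nat_lit 0x400090005000a0006000b000b00080007000600050005000c000b000a0008) (nat_lit 0x200001400004443) (nat_lit 16) Lb.e (@T16.mk En
    (@En.n l18394 (nat_lit 8501) (nat_lit 0) (nat_lit 8))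
    (@En.n l41885 (nat_lit 10072) (nat_lit 1) (nat_lit 10))
    (@En.n l41886 (nat_lit 8750) (nat_lit 5) (nat_lit 11))
    (@En.n l41887 (nat_lit 10406) (nat_lit 3) (nat_lit 12))
    (@En.n l2172 (nat_lit 9837) (nat_lit 11) (nat_lit 5))
    (@En.i (nat_lit 10412) (nat_lit 11) (nat_lit 5))
    (@En.n l41888 (nat_lit 8731) (nat_lit 10) (nat_lit 6))
    (@En.n l15058 (nat_lit 7429) (nat_lit 9) (nat_lit 7))
    (@En.n l41889 (nat_lit 8758) (nat_lit 2) (nat_lit 8))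
    (@En.n l41890 (nat_lit 8751) (nat_lit 5) (nat_lit 11))
    (@En.n l15009 (nat_lit 8753) (nat_lit 9) (nat_lit 11))
    (@En.n l15902 (nat_lit 7988) (nat_lit 5) (nat_lit 6))
    (@En.n l41887 (nat_lit 9387) (nat_lit 13) (nat_lit 10))
    (@En.n l19409 (nat_lit 8283) (nat_lit 14) (nat_lit 5))
    (@En.i (nat_lit 11742) (nat_lit 0) (nat_lit 9))
    (@En.n l19409 (nat_lit 8753) (nat_lit 15) (nat_lit 4))))
  (@Cl.mk (nat_lit 0x400090004000a0005000b000b000a0007000600050005000c0006000c000b) (nat_lit 0x3030096000050a2) (nat_lit 16) Lb.e (@T16.mk En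
    (@En.n l217 (nat_lit 8757) (nat_lit 0) (nat_lit 11))
    (@En.n l5757 (nat_lit 8137) (nat_lit 1) (nat_lit 12))
    (@En.n l19250 (nat_lit 5917) (nat_lit 4) (nat_lit 6))
    (@En.n l28480 (nat_lit 10275) (nat_lit 3) (nat_lit 12))
    (@En.n l11 (nat_lit 9836) (nat_lit 11) (nat_lit 5))
    (@En.n l18752 (nat_lit 9175) (nat_lit 11) (nat_lit 5))
    (@En.n l5254 (nat_lit 9166) (nat_lit 10) (nat_lit 6))
    (@En.n l18752 (nat_lit 8505) (nat_lit 1) (nat_lit 7))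
    (@En.n l55 (nat_lit 10182) (nat_lit 6) (nat_lit 10))
    (@En.n l29517 (nat_lit 8755) (nat_lit 5) (nat_lit 11))
    (@En.n l5757 (nat_lit 8754) (nat_lit 11) (nat_lit 11))
    (@En.n l18747 (nat_lit 8894) (nat_lit 5) (nat_lit 5))
    (@En.i (nat_lit 9315) (nat_lit 13) (nat_lit 10))
    (@En.i (nat_lit 8754) (nat_lit 15) (nat_lit 4))
    (@En.n l14256 (nat_lit 9964) (nat_lit 0) (nat_lit 9))
    (@En.n l19250 (nat_lit 8749) (nat_lit 1) (nat_lit 4))))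
  (@Cl.mk (nat_lit 0x4000a0004000b000b000a0009000600050005000b0006000c0007000c0005) (nat_lit 0x40090500000a010) (nat_lit 16) Lb.e (@T16.mk En
    (@En.n l15619 (nat_lit 8750) (nat_lit 0) (nat_lit 5))
    (@En.i (nat_lit 8498) (nat_lit 1) (nat_lit 12))
    (@En.n l217 (nat_lit 11307) (nat_lit 1) (nat_lit 7))
    (@En.n l15619 (nat_lit 8122) (nat_lit 2) (nat_lit 12))
    (@En.n l23126 (nat_lit 7522) (nat_lit 4) (nat_lit 6))
    (@En.i (nat_lit 9937) (nat_lit 6) (nat_lit 11))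
    (@En.n l11 (nat_lit 9833) (nat_lit 11) (nat_lit 5))
    (@En.n l9824 (nat_lit 9172) (nat_lit 11) (nat_lit 5))
    (@En.n l17 (nat_lit 8670) (nat_lit 0) (nat_lit 6))
    (@En.n l30058 (nat_lit 8656) (nat_lit 7) (nat_lit 9))
    (@En.n l55 (nat_lit 10178) (nat_lit 6) (nat_lit 10))
    (@En.n l619 (nat_lit 10260) (nat_lit 5) (nat_lit 11))
    (@En.n l15619 (nat_lit 8758) (nat_lit 13) (nat_lit 11))
    (@En.n l50 (nat_lit 8758) (nat_lit 15) (nat_lit 4))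
    (@En.i (nat_lit 7959) (nat_lit 0) (nat_lit 10))
    (@En.n l50 (nat_lit 8756) (nat_lit 12) (nat_lit 4))))
  (@Cl.mk (nat_lit 0x2000c0007000c000b0004000a0004000b0005000b000900060005000e0005) (nat_lit 0x5097030408500a0) (nat_lit 16) Lb.e (@T16.mk En
    (@En.n l1968 (nat_lit 8753) (nat_lit 5) (nat_lit 5))
    (@En.n l2038 (nat_lit 10270) (nat_lit 1) (nat_lit 14))
    (@En.n l23332 (nat_lit 8926) (nat_lit 2) (nat_lit 5))
    (@En.n l3429 (nat_lit 8732) (nat_lit 3) (nat_lit 6))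
    (@En.n l33125 (nat_lit 10528) (nat_lit 4) (nat_lit 9))
    (@En.i (nat_lit 10176) (nat_lit 6) (nat_lit 11))
    (@En.i (nat_lit 8948) (nat_lit 6) (nat_lit 5))
    (@En.i (nat_lit 9305) (nat_lit 8) (nat_lit 11))
    (@En.n l20211 (nat_lit 10260) (nat_lit 8) (nat_lit 4))
    (@En.n l28100 (nat_lit 9976) (nat_lit 10) (nat_lit 10))
    (@En.n l50 (nat_lit 8748) (nat_lit 10) (nat_lit 4))
    (@En.n l2569 (nat_lit 10223) (nat_lit 12) (nat_lit 11))
    (@En.i (nat_lit 8205) (nat_lit 13) (nat_lit 12))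
    (@En.n l33125 (nat_lit 5912) (nat_lit 14) (nat_lit 7))
    (@En.i (nat_lit 10591) (nat_lit 3) (nat_lit 12))
    (@En.n l28 (nat_lit 8755) (nat_lit 15) (nat_lit 2))))
  (@Cl.mk (nat_lit 0x30008000d0004000a0003000b000b000a0008000600050005000d0006000c) (nat_lit 0x7010097600050a) (nat_lit 16) Lb.e (@T16.mk En
    (@En.i (nat_lit 8128) (nat_lit 0) (nat_lit 12))
    (@En.i (nat_lit 5915) (nat_lit 6) (nat_lit 6))
    (@En.n l134 (nat_lit 6854) (nat_lit 2) (nat_lit 13))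
    (@En.n l11 (nat_lit 10244) (nat_lit 11) (nat_lit 5))
    (@En.n l18752 (nat_lit 9397) (nat_lit 4) (nat_lit 5))
    (@En.n l17 (nat_lit 8667) (nat_lit 5) (nat_lit 6))
    (@En.n l18752 (nat_lit 8640) (nat_lit 6) (nat_lit 8))
    (@En.n l55 (nat_lit 10175) (nat_lit 6) (nat_lit 10))
    (@En.n l619 (nat_lit 10258) (nat_lit 5) (nat_lit 11))
    (@En.i (nat_lit 9337) (nat_lit 10) (nat_lit 11))
    (@En.i (nat_lit 8757) (nat_lit 10) (nat_lit 3))
    (@En.i (nat_lit 4442) (nat_lit 0) (nat_lit 10))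
    (@En.i (nat_lit 8753) (nat_lit 13) (nat_lit 4))
    (@En.i (nat_lit 8500) (nat_lit 0) (nat_lit 13))
    (@En.n l14256 (nat_lit 9965) (nat_lit 1) (nat_lit 8))
    (@En.n l11547 (nat_lit 8759) (nat_lit 15) (nat_lit 3))))
  (@Cl.mk (nat_lit 0x30008000d000900050003000b000b000a0008000700050005000d0006000b) (nat_lit 0x84005571000501) (nat_lit 16) Lb.e (@T16.mk En
    (@En.n l2937 (nat_lit 8225) (nat_lit 0) (nat_lit 11))
    (@En.i (nat_lit 5916) (nat_lit 6) (nat_lit 6))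
    (@En.n l34596 (nat_lit 10721) (nat_lit 2) (nat_lit 13))
    (@En.n l11 (nat_lit 10241) (nat_lit 11) (nat_lit 5))
    (@En.n l18752 (nat_lit 9398) (nat_lit 4) (nat_lit 5))
    (@En.n l9876 (nat_lit 10226) (nat_lit 9) (nat_lit 7))
    (@En.n l18752 (nat_lit 8642) (nat_lit 6) (nat_lit 8))
    (@En.n l55 (nat_lit 10172) (nat_lit 6) (nat_lit 10))
    (@En.n l9879 (nat_lit 10223) (nat_lit 5) (nat_lit 11))
    (@En.i (nat_lit 10064) (nat_lit 10) (nat_lit 11))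
    (@En.n l18 (nat_lit 8756) (nat_lit 10) (nat_lit 3))
    (@En.i (nat_lit 8890) (nat_lit 0) (nat_lit 5))
    (@En.i (nat_lit 6039) (nat_lit 13) (nat_lit 9))
    (@En.i (nat_lit 8503) (nat_lit 2) (nat_lit 13))
    (@En.n l14256 (nat_lit 9966) (nat_lit 3) (nat_lit 8))
    (@En.i (nat_lit 10072) (nat_lit 15) (nat_lit 3))))
  (@Cl.mk (nat_lit 0x4000b000b000a0009000800050005000a0006000b0007000c000800060005) (nat_lit 0x490020020601300) (nat_lit 16) Lb.e (@T16.mk En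
    (@En.i (nat_lit 8757) (nat_lit 11) (nat_lit 5))
    (@En.n l41908 (nat_lit 8809) (nat_lit 1) (nat_lit 6))
    (@En.n l644 (nat_lit 6042) (nat_lit 1) (nat_lit 8))
    (@En.i (nat_lit 8505) (nat_lit 2) (nat_lit 12))
    (@En.n l41909 (nat_lit 10791) (nat_lit 4) (nat_lit 7))
    (@En.n l13915 (nat_lit 8226) (nat_lit 9) (nat_lit 11))
    (@En.n l34849 (nat_lit 6353) (nat_lit 6) (nat_lit 6))
    (@En.n l13913 (nat_lit 9959) (nat_lit 10) (nat_lit 10))
    (@En.n l41910 (nat_lit 9345) (nat_lit 11) (nat_lit 5))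
    (@En.n l34011 (nat_lit 10272) (nat_lit 0) (nat_lit 5))
    (@En.n l41911 (nat_lit 10229) (nat_lit 8) (nat_lit 8))
    (@En.n l36145 (nat_lit 10179) (nat_lit 7) (nat_lit 9))
    (@En.n l55 (nat_lit 10180) (nat_lit 6) (nat_lit 10))
    (@En.n l5637 (nat_lit 10219) (nat_lit 5) (nat_lit 11))
    (@En.i (nat_lit 10070) (nat_lit 4) (nat_lit 11))
    (@En.n l13921 (nat_lit 9337) (nat_lit 12) (nat_lit 4))))
  (@Cl.mk (nat_lit 0x30008000d0005000a0003000b000b00090008000600050005000d000b0007) (nat_lit 0x270303966000410) (nat_lit 16) Lb.e (@T16.mk En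
    (@En.n l23990 (nat_lit 4466) (nat_lit 0) (nat_lit 7))
    (@En.n l19401 (nat_lit 8754) (nat_lit 5) (nat_lit 11))
    (@En.n l6989 (nat_lit 6852) (nat_lit 2) (nat_lit 13))
    (@En.n l2172 (nat_lit 10243) (nat_lit 11) (nat_lit 5))
    (@En.i (nat_lit 9395) (nat_lit 4) (nat_lit 5))
    (@En.n l38282 (nat_lit 8672) (nat_lit 5) (nat_lit 6))
    (@En.i (nat_lit 8737) (nat_lit 6) (nat_lit 8))
    (@En.n l742 (nat_lit 10177) (nat_lit 13) (nat_lit 9))
    (@En.n l396 (nat_lit 10259) (nat_lit 5) (nat_lit 11))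
    (@En.n l7 (nat_lit 9336) (nat_lit 10) (nat_lit 11))
    (@En.n l15535 (nat_lit 10072) (nat_lit 10) (nat_lit 3))
    (@En.n l25338 (nat_lit 6565) (nat_lit 0) (nat_lit 10))
    (@En.i (nat_lit 8752) (nat_lit 13) (nat_lit 5))
    (@En.n l15535 (nat_lit 8502) (nat_lit 2) (nat_lit 13))
    (@En.i (nat_lit 11704) (nat_lit 3) (nat_lit 8))
    (@En.n l19409 (nat_lit 8756) (nat_lit 15) (nat_lit 3))))
  (@Cl.mk (nat_lit 0x20008000c0004000a000d0004000b000300080006000e00050002000e000c) (nat_lit 0x41028010605003a) (nat_lit 16) Lb.e (@T16.mk En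
    (@En.i (nat_lit 8414) (nat_lit 14) (nat_lit 12))
    (@En.n l21353 (nat_lit 9497) (nat_lit 1) (nat_lit 14))
    (@En.n l17 (nat_lit 8760) (nat_lit 2) (nat_lit 2))
    (@En.n l31636 (nat_lit 8559) (nat_lit 3) (nat_lit 5))
    (@En.n l998 (nat_lit 7876) (nat_lit 5) (nat_lit 14))
    (@En.n l5592 (nat_lit 8297) (nat_lit 5) (nat_lit 6))
    (@En.n l3506 (nat_lit 8951) (nat_lit 6) (nat_lit 8))
    (@En.n l5592 (nat_lit 8295) (nat_lit 7) (nat_lit 3))
    (@En.n l10848 (nat_lit 8524) (nat_lit 0) (nat_lit 11))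
    (@En.i (nat_lit 8291) (nat_lit 9) (nat_lit 4))
    (@En.i (nat_lit 11065) (nat_lit 11) (nat_lit 13))
    (@En.n l16490 (nat_lit 1361) (nat_lit 12) (nat_lit 10))
    (@En.n l10848 (nat_lit 8691) (nat_lit 9) (nat_lit 4))
    (@En.i (nat_lit 4059) (nat_lit 14) (nat_lit 12))
    (@En.n l30865 (nat_lit 11725) (nat_lit 12) (nat_lit 8))
    (@En.n l3 (nat_lit 8760) (nat_lit 15) (nat_lit 2))))
  (@Cl.mk (nat_lit 0x20009000c0004000b000a0004000b00070005000d000600050003000e000c) (nat_lit 0x41078010070007a) (nat_lit 16) Lb.e (@T16.mk En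
    (@En.n l28632 (nat_lit 8762) (nat_lit 14) (nat_lit 12))
    (@En.n l5571 (nat_lit 9608) (nat_lit 1) (nat_lit 14))
    (@En.n l20262 (nat_lit 8764) (nat_lit 2) (nat_lit 3))
    (@En.n l18471 (nat_lit 8760) (nat_lit 3) (nat_lit 5))
    (@En.n l4809 (nat_lit 8931) (nat_lit 4) (nat_lit 6))
    (@En.n l24642 (nat_lit 7870) (nat_lit 6) (nat_lit 13))
    (@En.n l28633 (nat_lit 8541) (nat_lit 6) (nat_lit 5))
    (@En.i (nat_lit 8763) (nat_lit 7) (nat_lit 7))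
    (@En.n l28634 (nat_lit 8534) (nat_lit 9) (nat_lit 11))
    (@En.n l28635 (nat_lit 7820) (nat_lit 9) (nat_lit 4))
    (@En.n l20262 (nat_lit 12419) (nat_lit 11) (nat_lit 10))
    (@En.n l28636 (nat_lit 6676) (nat_lit 12) (nat_lit 11))
    (@En.n l28637 (nat_lit 8698) (nat_lit 13) (nat_lit 4))
    (@En.n l20262 (nat_lit 6160) (nat_lit 6) (nat_lit 12))
    (@En.i (nat_lit 9076) (nat_lit 12) (nat_lit 9))
    (@En.n l3 (nat_lit 8761) (nat_lit 15) (nat_lit 2))))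
  (@Cl.mk (nat_lit 0x3000c000c0008000b00040004000b000a0005000b00080005000d00060005) (nat_lit 0x923300430260800) (nat_lit 16) Lb.e (@T16.mk En
    (@En.n l30630 (nat_lit 8414) (nat_lit 0) (nat_lit 5))
    (@En.n l30631 (nat_lit 8892) (nat_lit 6) (nat_lit 6))
    (@En.n l30632 (nat_lit 7872) (nat_lit 2) (nat_lit 13))
    (@En.n l30633 (nat_lit 8546) (nat_lit 3) (nat_lit 5))
    (@En.n l30634 (nat_lit 8767) (nat_lit 4) (nat_lit 8))
    (@En.n l30635 (nat_lit 8374) (nat_lit 11) (nat_lit 11))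
    (@En.n l21492 (nat_lit 8576) (nat_lit 6) (nat_lit 5))
    (@En.n l21490 (nat_lit 12418) (nat_lit 6) (nat_lit 10))
    (@En.n l30636 (nat_lit 8773) (nat_lit 9) (nat_lit 11))
    (@En.n l30637 (nat_lit 8761) (nat_lit 12) (nat_lit 4))
    (@En.i (nat_lit 10292) (nat_lit 0) (nat_lit 4))
    (@En.n l21490 (nat_lit 6161) (nat_lit 7) (nat_lit 11))
    (@En.n l30638 (nat_lit 8575) (nat_lit 1) (nat_lit 8))
    (@En.n l21494 (nat_lit 9281) (nat_lit 4) (nat_lit 12))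
    (@En.n l30639 (nat_lit 9428) (nat_lit 3) (nat_lit 12))
    (@En.n l21490 (nat_lit 8766) (nat_lit 15) (nat_lit 3))))
  (@Cl.mk (nat_lit 0x200090006000c0005000c000b000400070004000d0005000a0003000e000b) (nat_lit 0x402049000607066) (nat_lit 16) Lb.e (@T16.mk En
    (@En.n l1532 (nat_lit 8767) (nat_lit 14) (nat_lit 11))
    (@En.n l387 (nat_lit 9605) (nat_lit 1) (nat_lit 14))
    (@En.n l20262 (nat_lit 8765) (nat_lit 2) (nat_lit 3))
    (@En.n l2289 (nat_lit 11642) (nat_lit 3) (nat_lit 10))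
    (@En.n l3422 (nat_lit 8932) (nat_lit 4) (nat_lit 5))
    (@En.n l11835 (nat_lit 7871) (nat_lit 6) (nat_lit 13))
    (@En.n l37894 (nat_lit 11889) (nat_lit 6) (nat_lit 4))
    (@En.i (nat_lit 9032) (nat_lit 11) (nat_lit 7))
    (@En.n l2394 (nat_lit 8571) (nat_lit 8) (nat_lit 4))
    (@En.n l77 (nat_lit 12425) (nat_lit 10) (nat_lit 11))
    (@En.n l20935 (nat_lit 6677) (nat_lit 11) (nat_lit 12))
    (@En.n l37895 (nat_lit 10186) (nat_lit 12) (nat_lit 5))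
    (@En.n l17 (nat_lit 8761) (nat_lit 13) (nat_lit 12))
    (@En.n l9962 (nat_lit 12460) (nat_lit 14) (nat_lit 6))
    (@En.i (nat_lit 9074) (nat_lit 12) (nat_lit 9))
    (@En.n l3 (nat_lit 8763) (nat_lit 15) (nat_lit 2))))
  (@Cl.mk (nat_lit 0x20009000c0004000b00090004000c00070005000d000400070003000e000c) (nat_lit 0x450330500800032) (nat_lit 16) Lb.e (@T16.mk En
    (@En.i (nat_lit 8766) (nat_lit 14) (nat_lit 12))
    (@En.i (nat_lit 7546) (nat_lit 1) (nat_lit 14))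
    (@En.n l26293 (nat_lit 8761) (nat_lit 2) (nat_lit 3))
    (@En.n l18 (nat_lit 5073) (nat_lit 11) (nat_lit 7))
    (@En.n l35963 (nat_lit 9732) (nat_lit 4) (nat_lit 4))
    (@En.n l11911 (nat_lit 7865) (nat_lit 6) (nat_lit 13))
    (@En.n l12285 (nat_lit 8539) (nat_lit 6) (nat_lit 5))
    (@En.i (nat_lit 8765) (nat_lit 7) (nat_lit 7))
    (@En.n l24098 (nat_lit 8770) (nat_lit 9) (nat_lit 12))
    (@En.n l12579 (nat_lit 7819) (nat_lit 9) (nat_lit 4))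
    (@En.i (nat_lit 9230) (nat_lit 11) (nat_lit 9))
    (@En.n l11911 (nat_lit 5393) (nat_lit 12) (nat_lit 11))
    (@En.n l27548 (nat_lit 10288) (nat_lit 13) (nat_lit 4))
    (@En.i (nat_lit 6165) (nat_lit 6) (nat_lit 12))
    (@En.i (nat_lit 8434) (nat_lit 12) (nat_lit 9))
    (@En.n l3 (nat_lit 8764) (nat_lit 15) (nat_lit 2))))
  (@Cl.mk (nat_lit 0x200090007000c0005000c000a000400070004000d000900060003000e000b) (nat_lit 0x406043000640062) (nat_lit 16) Lb.e (@T16.mk En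
    (@En.i (nat_lit 8768) (nat_lit 14) (nat_lit 11))
    (@En.n l35780 (nat_lit 7545) (nat_lit 1) (nat_lit 14))
    (@En.n l26293 (nat_lit 8763) (nat_lit 2) (nat_lit 3))
    (@En.n l35781 (nat_lit 5072) (nat_lit 3) (nat_lit 6))
    (@En.n l33282 (nat_lit 11039) (nat_lit 4) (nat_lit 9))
    (@En.n l11911 (nat_lit 7844) (nat_lit 6) (nat_lit 13))
    (@En.n l35782 (nat_lit 11888) (nat_lit 6) (nat_lit 4))
    (@En.n l35783 (nat_lit 9033) (nat_lit 11) (nat_lit 7))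
    (@En.n l12579 (nat_lit 7821) (nat_lit 8) (nat_lit 4))
    (@En.i (nat_lit 6379) (nat_lit 10) (nat_lit 10))
    (@En.n l11911 (nat_lit 5399) (nat_lit 11) (nat_lit 12))
    (@En.n l35783 (nat_lit 10184) (nat_lit 12) (nat_lit 5))
    (@En.n l7 (nat_lit 8764) (nat_lit 13) (nat_lit 12))
    (@En.n l35784 (nat_lit 12737) (nat_lit 14) (nat_lit 7))
    (@En.n l12286 (nat_lit 8436) (nat_lit 12) (nat_lit 9))
    (@En.n l3 (nat_lit 8765) (nat_lit 15) (nat_lit 2))))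
  (@Cl.mk (nat_lit 0x3000c000c0008000b00040004000b00090005000c00080005000d00040007) (nat_lit 0x123300440360800) (nat_lit 16) Lb.e (@T16.mk En
    (@En.n l18 (nat_lit 5068) (nat_lit 11) (nat_lit 7))
    (@En.i (nat_lit 9730) (nat_lit 6) (nat_lit 4))
    (@En.n l61 (nat_lit 7845) (nat_lit 0) (nat_lit 13))
    (@En.n l12285 (nat_lit 8542) (nat_lit 1) (nat_lit 5))
    (@En.i (nat_lit 8768) (nat_lit 4) (nat_lit 8))
    (@En.n l33359 (nat_lit 8769) (nat_lit 11) (nat_lit 12))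
    (@En.n l7297 (nat_lit 9054) (nat_lit 6) (nat_lit 5))
    (@En.i (nat_lit 12195) (nat_lit 13) (nat_lit 9))
    (@En.n l476 (nat_lit 8771) (nat_lit 9) (nat_lit 11))
    (@En.n l152 (nat_lit 8764) (nat_lit 12) (nat_lit 4))
    (@En.n l40101 (nat_lit 10290) (nat_lit 0) (nat_lit 4))
    (@En.i (nat_lit 6164) (nat_lit 7) (nat_lit 11))
    (@En.n l26292 (nat_lit 8573) (nat_lit 1) (nat_lit 8))
    (@En.n l40102 (nat_lit 9279) (nat_lit 4) (nat_lit 12))
    (@En.i (nat_lit 4319) (nat_lit 13) (nat_lit 12))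
    (@En.n l40103 (nat_lit 8762) (nat_lit 15) (nat_lit 3))))
  (@Cl.mk (nat_lit 0x3000b000b00080005000b00050005000c000b000500080004000d0005000b) (nat_lit 0x524040053050706) (nat_lit 16) Lb.e (@T16.mk En
    (@En.n l28725 (nat_lit 12279) (nat_lit 0) (nat_lit 11))
    (@En.n l28 (nat_lit 8894) (nat_lit 14) (nat_lit 5))
    (@En.n l42331 (nat_lit 7843) (nat_lit 2) (nat_lit 13))
    (@En.n l28 (nat_lit 11886) (nat_lit 3) (nat_lit 4))
    (@En.n l6590 (nat_lit 9026) (nat_lit 10) (nat_lit 8))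
    (@En.n l22373 (nat_lit 8573) (nat_lit 5) (nat_lit 5))
    (@En.n l77 (nat_lit 12424) (nat_lit 5) (nat_lit 11))
    (@En.n l17555 (nat_lit 8792) (nat_lit 8) (nat_lit 12))
    (@En.n l1900 (nat_lit 8763) (nat_lit 11) (nat_lit 5))
    (@En.n l42332 (nat_lit 10181) (nat_lit 9) (nat_lit 5))
    (@En.n l42332 (nat_lit 8762) (nat_lit 11) (nat_lit 11))
    (@En.n l12306 (nat_lit 12459) (nat_lit 1) (nat_lit 5))
    (@En.n l97 (nat_lit 8572) (nat_lit 13) (nat_lit 8))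
    (@En.n l14471 (nat_lit 9282) (nat_lit 5) (nat_lit 11))
    (@En.n l27210 (nat_lit 9712) (nat_lit 11) (nat_lit 11))
    (@En.n l28988 (nat_lit 8768) (nat_lit 15) (nat_lit 3))))
noncomputable def a548 : T16 Cl := @T16.mk Cl
  (@Cl.mk (nat_lit 0x3000b000b00080006000b00050005000c000a000500080004000d000a0006) (nat_lit 0x123040055050760) (nat_lit 16) Lb.e (@T16.mk En
    (@En.n l39461 (nat_lit 5069) (nat_lit 0) (nat_lit 6))
    (@En.n l39462 (nat_lit 10285) (nat_lit 14) (nat_lit 10))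
    (@En.n l61 (nat_lit 7840) (nat_lit 2) (nat_lit 13))
    (@En.n l35782 (nat_lit 11887) (nat_lit 3) (nat_lit 4))
    (@En.n l39463 (nat_lit 9015) (nat_lit 10) (nat_lit 8))
    (@En.n l7297 (nat_lit 9050) (nat_lit 5) (nat_lit 5))
    (@En.i (nat_lit 12196) (nat_lit 6) (nat_lit 10))
    (@En.n l39464 (nat_lit 8772) (nat_lit 8) (nat_lit 12))
    (@En.n l152 (nat_lit 8765) (nat_lit 11) (nat_lit 5))
    (@En.n l39465 (nat_lit 10180) (nat_lit 9) (nat_lit 5))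
    (@En.n l7 (nat_lit 8766) (nat_lit 11) (nat_lit 11))
    (@En.n l7 (nat_lit 9289) (nat_lit 1) (nat_lit 6))
    (@En.n l39466 (nat_lit 8570) (nat_lit 13) (nat_lit 8))
    (@En.n l39467 (nat_lit 9280) (nat_lit 5) (nat_lit 11))
    (@En.n l39468 (nat_lit 4320) (nat_lit 11) (nat_lit 11))
    (@En.n l39469 (nat_lit 8767) (nat_lit 15) (nat_lit 3))))
  (@Cl.mk (nat_lit 0x40004000c0009000c00070004000c0004000a00070004000c000c00090006) (nat_lit 0x44200407001230) (nat_lit 16) Lb.e (@T16.mk En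
    (@En.n l5294 (nat_lit 6329) (nat_lit 0) (nat_lit 6))
    (@En.n l575 (nat_lit 8576) (nat_lit 1) (nat_lit 9))
    (@En.n l26242 (nat_lit 9278) (nat_lit 4) (nat_lit 12))
    (@En.n l6373 (nat_lit 4321) (nat_lit 10) (nat_lit 12))
    (@En.n l26243 (nat_lit 8374) (nat_lit 4) (nat_lit 4))
    (@En.n l26244 (nat_lit 8766) (nat_lit 0) (nat_lit 7))
    (@En.n l26245 (nat_lit 8768) (nat_lit 1) (nat_lit 10))
    (@En.n l26246 (nat_lit 9729) (nat_lit 7) (nat_lit 4))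
    (@En.n l26247 (nat_lit 7747) (nat_lit 0) (nat_lit 12))
    (@En.n l50 (nat_lit 8545) (nat_lit 1) (nat_lit 4))
    (@En.n l10108 (nat_lit 9013) (nat_lit 0) (nat_lit 7))
    (@En.i (nat_lit 8086) (nat_lit 6) (nat_lit 12))
    (@En.n l26248 (nat_lit 12194) (nat_lit 13) (nat_lit 9))
    (@En.n l17172 (nat_lit 9698) (nat_lit 3) (nat_lit 12))
    (@En.n l1577 (nat_lit 8770) (nat_lit 12) (nat_lit 4))
    (@En.i (nat_lit 8336) (nat_lit 0) (nat_lit 4))))
  (@Cl.mk (nat_lit 0x2000a00070004000c0009000c00060004000c0004000900070004000e000c) (nat_lit 0x400334004050042) (nat_lit 16) Lb.e (@T16.mk En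
    (@En.n l55 (nat_lit 8769) (nat_lit 3) (nat_lit 12))
    (@En.n l20162 (nat_lit 7549) (nat_lit 1) (nat_lit 14))
    (@En.n l15186 (nat_lit 8534) (nat_lit 2) (nat_lit 4))
    (@En.n l17392 (nat_lit 8764) (nat_lit 3) (nat_lit 7))
    (@En.n l20163 (nat_lit 8765) (nat_lit 4) (nat_lit 9))
    (@En.n l3622 (nat_lit 9731) (nat_lit 5) (nat_lit 4))
    (@En.n l9822 (nat_lit 7864) (nat_lit 7) (nat_lit 12))
    (@En.n l50 (nat_lit 8537) (nat_lit 7) (nat_lit 4))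
    (@En.n l20164 (nat_lit 9008) (nat_lit 8) (nat_lit 6))
    (@En.i (nat_lit 9001) (nat_lit 6) (nat_lit 12))
    (@En.n l20162 (nat_lit 9225) (nat_lit 11) (nat_lit 9))
    (@En.n l20165 (nat_lit 5392) (nat_lit 12) (nat_lit 12))
    (@En.i (nat_lit 10286) (nat_lit 13) (nat_lit 4))
    (@En.n l5294 (nat_lit 6330) (nat_lit 14) (nat_lit 7))
    (@En.n l2228 (nat_lit 8435) (nat_lit 1) (nat_lit 10))
    (@En.n l11 (nat_lit 8770) (nat_lit 15) (nat_lit 2))))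
  (@Cl.mk (nat_lit 0x3000c00060009000c0004000b00080004000b00070005000a000d00050008) (nat_lit 0xa03103305007901) (nat_lit 16) Lb.e (@T16.mk En
    (@En.n l18 (nat_lit 5076) (nat_lit 10) (nat_lit 8))
    (@En.n l42279 (nat_lit 9728) (nat_lit 6) (nat_lit 5))
    (@En.i (nat_lit 8764) (nat_lit 5) (nat_lit 13))
    (@En.n l9062 (nat_lit 8798) (nat_lit 3) (nat_lit 10))
    (@En.n l12285 (nat_lit 9702) (nat_lit 4) (nat_lit 5))
    (@En.n l35636 (nat_lit 8772) (nat_lit 5) (nat_lit 7))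
    (@En.n l24099 (nat_lit 9698) (nat_lit 1) (nat_lit 11))
    (@En.n l33089 (nat_lit 8775) (nat_lit 7) (nat_lit 4))
    (@En.i (nat_lit 10655) (nat_lit 0) (nat_lit 8))
    (@En.n l16921 (nat_lit 5391) (nat_lit 10) (nat_lit 11))
    (@En.n l33089 (nat_lit 9821) (nat_lit 10) (nat_lit 4))
    (@En.i (nat_lit 7677) (nat_lit 6) (nat_lit 12))
    (@En.n l2921 (nat_lit 9046) (nat_lit 9) (nat_lit 9))
    (@En.n l42280 (nat_lit 9690) (nat_lit 14) (nat_lit 6))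
    (@En.n l42281 (nat_lit 9844) (nat_lit 3) (nat_lit 12))
    (@En.n l42282 (nat_lit 8773) (nat_lit 15) (nat_lit 3))))
  (@Cl.mk (nat_lit 0x3000b000600090006000c0005000c0009000400070004000a000d000a0007) (nat_lit 0x903020420006700) (nat_lit 16) Lb.e (@T16.mk En
    (@En.n l37452 (nat_lit 5075) (nat_lit 0) (nat_lit 7))
    (@En.n l37453 (nat_lit 11075) (nat_lit 11) (nat_lit 10))
    (@En.n l28096 (nat_lit 8765) (nat_lit 5) (nat_lit 13))
    (@En.n l37454 (nat_lit 8794) (nat_lit 3) (nat_lit 10))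
    (@En.n l37455 (nat_lit 11884) (nat_lit 4) (nat_lit 4))
    (@En.n l9177 (nat_lit 9020) (nat_lit 11) (nat_lit 7))
    (@En.n l15575 (nat_lit 8777) (nat_lit 6) (nat_lit 4))
    (@En.n l28096 (nat_lit 10676) (nat_lit 0) (nat_lit 9))
    (@En.n l10179 (nat_lit 5394) (nat_lit 1) (nat_lit 12))
    (@En.n l15575 (nat_lit 10921) (nat_lit 9) (nat_lit 5))
    (@En.n l36860 (nat_lit 8771) (nat_lit 11) (nat_lit 12))
    (@En.i (nat_lit 11119) (nat_lit 6) (nat_lit 6))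
    (@En.n l9715 (nat_lit 9044) (nat_lit 9) (nat_lit 9))
    (@En.n l18185 (nat_lit 9689) (nat_lit 14) (nat_lit 6))
    (@En.n l28094 (nat_lit 9846) (nat_lit 10) (nat_lit 11))
    (@En.n l3536 (nat_lit 8792) (nat_lit 15) (nat_lit 3))))
  (@Cl.mk (nat_lit 0x3000c00060009000c0004000b00090004000a00070005000a000d00070006) (nat_lit 0x603403705006800) (nat_lit 16) Lb.e (@T16.mk En
    (@En.n l131 (nat_lit 8412) (nat_lit 0) (nat_lit 6))
    (@En.n l30456 (nat_lit 9474) (nat_lit 6) (nat_lit 7))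
    (@En.n l7025 (nat_lit 8761) (nat_lit 5) (nat_lit 13))
    (@En.n l30457 (nat_lit 8790) (nat_lit 3) (nat_lit 10))
    (@En.n l30458 (nat_lit 9707) (nat_lit 4) (nat_lit 5))
    (@En.n l725 (nat_lit 8792) (nat_lit 5) (nat_lit 7))
    (@En.n l19241 (nat_lit 8788) (nat_lit 1) (nat_lit 10))
    (@En.n l22237 (nat_lit 8774) (nat_lit 7) (nat_lit 4))
    (@En.n l4810 (nat_lit 9652) (nat_lit 0) (nat_lit 9))
    (@En.n l30459 (nat_lit 5396) (nat_lit 10) (nat_lit 11))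
    (@En.n l30460 (nat_lit 9818) (nat_lit 10) (nat_lit 4))
    (@En.n l4810 (nat_lit 8257) (nat_lit 6) (nat_lit 12))
    (@En.n l30461 (nat_lit 9045) (nat_lit 9) (nat_lit 9))
    (@En.n l30462 (nat_lit 8403) (nat_lit 14) (nat_lit 6))
    (@En.n l30463 (nat_lit 9427) (nat_lit 3) (nat_lit 12))
    (@En.n l4810 (nat_lit 8771) (nat_lit 15) (nat_lit 3))))
  (@Cl.mk (nat_lit 0x3000b00060009000c00070005000c0004000a00070004000a000d00090006) (nat_lit 0x903500506005930) (nat_lit 16) Lb.e (@T16.mk En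
    (@En.n l2127 (nat_lit 8381) (nat_lit 0) (nat_lit 6))
    (@En.n l36938 (nat_lit 9586) (nat_lit 13) (nat_lit 9))
    (@En.n l36436 (nat_lit 7820) (nat_lit 5) (nat_lit 13))
    (@En.n l36939 (nat_lit 8395) (nat_lit 3) (nat_lit 10))
    (@En.n l36940 (nat_lit 9432) (nat_lit 4) (nat_lit 4))
    (@En.n l28 (nat_lit 8437) (nat_lit 5) (nat_lit 7))
    (@En.n l77 (nat_lit 9068) (nat_lit 1) (nat_lit 10))
    (@En.n l613 (nat_lit 10503) (nat_lit 7) (nat_lit 4))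
    (@En.n l1643 (nat_lit 5967) (nat_lit 9) (nat_lit 12))
    (@En.n l4757 (nat_lit 10319) (nat_lit 1) (nat_lit 5))
    (@En.n l36941 (nat_lit 8400) (nat_lit 5) (nat_lit 7))
    (@En.n l36942 (nat_lit 8470) (nat_lit 6) (nat_lit 12))
    (@En.i (nat_lit 9061) (nat_lit 9) (nat_lit 9))
    (@En.n l2876 (nat_lit 8408) (nat_lit 14) (nat_lit 6))
    (@En.n l36943 (nat_lit 8431) (nat_lit 10) (nat_lit 11))
    (@En.n l15323 (nat_lit 8775) (nat_lit 15) (nat_lit 3))))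
  (@Cl.mk (nat_lit 0x3000b00060009000c00060005000c0004000b00070004000a000d0005000a) (nat_lit 0x904500305005900) (nat_lit 16) Lb.e (@T16.mk En
    (@En.n l7457 (nat_lit 12186) (nat_lit 0) (nat_lit 10))
    (@En.n l23295 (nat_lit 8885) (nat_lit 9) (nat_lit 5))
    (@En.n l17555 (nat_lit 7819) (nat_lit 5) (nat_lit 13))
    (@En.n l9858 (nat_lit 8778) (nat_lit 3) (nat_lit 10))
    (@En.n l15535 (nat_lit 9441) (nat_lit 4) (nat_lit 4))
    (@En.i (nat_lit 8777) (nat_lit 5) (nat_lit 7))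
    (@En.n l8012 (nat_lit 9492) (nat_lit 1) (nat_lit 11))
    (@En.n l10584 (nat_lit 10504) (nat_lit 7) (nat_lit 4))
    (@En.n l27662 (nat_lit 5395) (nat_lit 9) (nat_lit 12))
    (@En.i (nat_lit 10323) (nat_lit 11) (nat_lit 5))
    (@En.i (nat_lit 9698) (nat_lit 5) (nat_lit 6))
    (@En.n l28877 (nat_lit 8443) (nat_lit 6) (nat_lit 12))
    (@En.i (nat_lit 9062) (nat_lit 9) (nat_lit 9))
    (@En.n l19713 (nat_lit 8776) (nat_lit 14) (nat_lit 6))
    (@En.n l24593 (nat_lit 8563) (nat_lit 10) (nat_lit 11))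
    (@En.n l34607 (nat_lit 8774) (nat_lit 15) (nat_lit 3))))
  (@Cl.mk (nat_lit 0x300060009000c00050009000c0004000a00070004000a0007000d0006000b) (nat_lit 0x24043050060a00) (nat_lit 16) Lb.e (@T16.mk En
    (@En.n l2038 (nat_lit 12185) (nat_lit 0) (nat_lit 11))
    (@En.i (nat_lit 9474) (nat_lit 8) (nat_lit 6))
    (@En.n l12731 (nat_lit 8775) (nat_lit 2) (nat_lit 13))
    (@En.n l8229 (nat_lit 8779) (nat_lit 3) (nat_lit 7))
    (@En.n l37011 (nat_lit 8780) (nat_lit 4) (nat_lit 10))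
    (@En.i (nat_lit 9436) (nat_lit 5) (nat_lit 4))
    (@En.n l476 (nat_lit 8781) (nat_lit 6) (nat_lit 7))
    (@En.i (nat_lit 9489) (nat_lit 1) (nat_lit 10))
    (@En.n l32113 (nat_lit 10507) (nat_lit 8) (nat_lit 4))
    (@En.i (nat_lit 5398) (nat_lit 6) (nat_lit 12))
    (@En.n l4813 (nat_lit 7232) (nat_lit 10) (nat_lit 9))
    (@En.n l10969 (nat_lit 9694) (nat_lit 12) (nat_lit 5))
    (@En.n l8229 (nat_lit 8423) (nat_lit 6) (nat_lit 12))
    (@En.n l476 (nat_lit 5478) (nat_lit 9) (nat_lit 9))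
    (@En.n l9591 (nat_lit 11439) (nat_lit 12) (nat_lit 6))
    (@En.n l1865 (nat_lit 8408) (nat_lit 15) (nat_lit 3))))
  (@Cl.mk (nat_lit 0x3000a000600090006000c00070006000d000400070003000a000d000a0009) (nat_lit 0x8050600a0005760) (nat_lit 16) Lb.e (@T16.mk En
    (@En.n l8689 (nat_lit 12177) (nat_lit 0) (nat_lit 9))
    (@En.n l37813 (nat_lit 11072) (nat_lit 13) (nat_lit 10))
    (@En.n l17555 (nat_lit 7821) (nat_lit 5) (nat_lit 13))
    (@En.i (nat_lit 8784) (nat_lit 3) (nat_lit 10))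
    (@En.i (nat_lit 8786) (nat_lit 4) (nat_lit 3))
    (@En.n l39421 (nat_lit 1526) (nat_lit 11) (nat_lit 7))
    (@En.n l39364 (nat_lit 11865) (nat_lit 6) (nat_lit 4))
    (@En.n l11008 (nat_lit 6680) (nat_lit 0) (nat_lit 13))
    (@En.i (nat_lit 10324) (nat_lit 1) (nat_lit 6))
    (@En.n l11008 (nat_lit 9019) (nat_lit 4) (nat_lit 7))
    (@En.n l1770 (nat_lit 8775) (nat_lit 11) (nat_lit 12))
    (@En.i (nat_lit 9983) (nat_lit 6) (nat_lit 6))
    (@En.n l34606 (nat_lit 9063) (nat_lit 9) (nat_lit 9))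
    (@En.n l11010 (nat_lit 8781) (nat_lit 14) (nat_lit 6))
    (@En.n l11008 (nat_lit 10963) (nat_lit 10) (nat_lit 10))
    (@En.n l37820 (nat_lit 8437) (nat_lit 15) (nat_lit 3))))
  (@Cl.mk (nat_lit 0x3000a0006000b0009000c0007000600050004000c0007000a000d00040009) (nat_lit 0x802540000604807) (nat_lit 16) Lb.e (@T16.mk En
    (@En.n l8283 (nat_lit 12188) (nat_lit 0) (nat_lit 9))
    (@En.n l29264 (nat_lit 8880) (nat_lit 15) (nat_lit 4))
    (@En.n l387 (nat_lit 7814) (nat_lit 5) (nat_lit 13))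
    (@En.n l29265 (nat_lit 7906) (nat_lit 8) (nat_lit 10))
    (@En.n l5649 (nat_lit 8784) (nat_lit 4) (nat_lit 7))
    (@En.n l19493 (nat_lit 9494) (nat_lit 3) (nat_lit 12))
    (@En.n l1959 (nat_lit 10499) (nat_lit 12) (nat_lit 4))
    (@En.n l8283 (nat_lit 6146) (nat_lit 11) (nat_lit 5))
    (@En.i (nat_lit 8616) (nat_lit 10) (nat_lit 6))
    (@En.n l29266 (nat_lit 8799) (nat_lit 7) (nat_lit 7))
    (@En.i (nat_lit 8865) (nat_lit 6) (nat_lit 12))
    (@En.n l8770 (nat_lit 8775) (nat_lit 12) (nat_lit 9))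
    (@En.i (nat_lit 9054) (nat_lit 13) (nat_lit 11))
    (@En.n l24397 (nat_lit 8780) (nat_lit 14) (nat_lit 6))
    (@En.n l29267 (nat_lit 9847) (nat_lit 13) (nat_lit 10))
    (@En.i (nat_lit 8395) (nat_lit 15) (nat_lit 3))))
  (@Cl.mk (nat_lit 0x3000b0008000b000500090005000c0005000b000800040007000d0005000b) (nat_lit 0x24040406400a00) (nat_lit 16) Lb.e (@T16.mk En
    (@En.n l30289 (nat_lit 12189) (nat_lit 0) (nat_lit 11))
    (@En.n l9462 (nat_lit 9475) (nat_lit 5) (nat_lit 5))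
    (@En.n l1722 (nat_lit 9054) (nat_lit 2) (nat_lit 13))
    (@En.n l640 (nat_lit 9299) (nat_lit 11) (nat_lit 7))
    (@En.n l40125 (nat_lit 9440) (nat_lit 4) (nat_lit 4))
    (@En.n l40126 (nat_lit 8783) (nat_lit 0) (nat_lit 8))
    (@En.n l13834 (nat_lit 9488) (nat_lit 1) (nat_lit 11))
    (@En.n l40127 (nat_lit 11861) (nat_lit 7) (nat_lit 5))
    (@En.n l18460 (nat_lit 8776) (nat_lit 9) (nat_lit 12))
    (@En.n l34711 (nat_lit 8775) (nat_lit 9) (nat_lit 5))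
    (@En.n l34711 (nat_lit 7235) (nat_lit 10) (nat_lit 9))
    (@En.n l40128 (nat_lit 9693) (nat_lit 6) (nat_lit 5))
    (@En.i (nat_lit 8441) (nat_lit 7) (nat_lit 11))
    (@En.n l26021 (nat_lit 5472) (nat_lit 14) (nat_lit 8))
    (@En.n l40129 (nat_lit 10411) (nat_lit 2) (nat_lit 11))
    (@En.i (nat_lit 8435) (nat_lit 15) (nat_lit 3))))
  (@Cl.mk (nat_lit 0x30006000b0009000c0006000a00050004000b0007000a0006000d0005000a) (nat_lit 0x13504005050908) (nat_lit 16) Lb.e (@T16.mk En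
    (@En.n l35273 (nat_lit 12187) (nat_lit 0) (nat_lit 10))
    (@En.n l117 (nat_lit 8801) (nat_lit 9) (nat_lit 5))
    (@En.n l35274 (nat_lit 8778) (nat_lit 2) (nat_lit 13))
    (@En.n l11386 (nat_lit 9348) (nat_lit 3) (nat_lit 6))
    (@En.n l2642 (nat_lit 7908) (nat_lit 8) (nat_lit 10))
    (@En.n l35275 (nat_lit 8782) (nat_lit 5) (nat_lit 7))
    (@En.n l34984 (nat_lit 9491) (nat_lit 7) (nat_lit 11))
    (@En.i (nat_lit 10505) (nat_lit 7) (nat_lit 4))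
    (@En.n l35276 (nat_lit 6147) (nat_lit 8) (nat_lit 5))
    (@En.n l35277 (nat_lit 2945) (nat_lit 9) (nat_lit 10))
    (@En.n l8770 (nat_lit 9695) (nat_lit 11) (nat_lit 6))
    (@En.n l397 (nat_lit 8866) (nat_lit 6) (nat_lit 12))
    (@En.n l35278 (nat_lit 8776) (nat_lit 13) (nat_lit 9))
    (@En.n l397 (nat_lit 8779) (nat_lit 14) (nat_lit 11))
    (@En.n l1081 (nat_lit 11445) (nat_lit 12) (nat_lit 6))
    (@En.n l10493 (nat_lit 8392) (nat_lit 15) (nat_lit 3))))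
  (@Cl.mk (nat_lit 0x3000600090005000c0006000a000d000400070003000a0006000d000b000a) (nat_lit 0x20505200050870) (nat_lit 16) Lb.e (@T16.mk En
    (@En.n l619 (nat_lit 12180) (nat_lit 0) (nat_lit 10))
    (@En.n l3866 (nat_lit 10655) (nat_lit 12) (nat_lit 11))
    (@En.n l17017 (nat_lit 8777) (nat_lit 2) (nat_lit 13))
    (@En.i (nat_lit 8783) (nat_lit 14) (nat_lit 6))
    (@En.i (nat_lit 8782) (nat_lit 4) (nat_lit 10))
    (@En.i (nat_lit 8785) (nat_lit 5) (nat_lit 3))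
    (@En.i (nat_lit 1524) (nat_lit 11) (nat_lit 7))
    (@En.n l2129 (nat_lit 11864) (nat_lit 7) (nat_lit 4))
    (@En.i (nat_lit 6688) (nat_lit 5) (nat_lit 13))
    (@En.n l1897 (nat_lit 7225) (nat_lit 9) (nat_lit 10))
    (@En.i (nat_lit 9021) (nat_lit 4) (nat_lit 6))
    (@En.i (nat_lit 8776) (nat_lit 12) (nat_lit 12))
    (@En.i (nat_lit 9982) (nat_lit 6) (nat_lit 5))
    (@En.i (nat_lit 5481) (nat_lit 9) (nat_lit 9))
    (@En.i (nat_lit 11437) (nat_lit 12) (nat_lit 6))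
    (@En.n l1865 (nat_lit 8433) (nat_lit 15) (nat_lit 3))))
  (@Cl.mk (nat_lit 0x30006000a00090006000c0007000b000600040007000a0005000d000a0009) (nat_lit 0x3060600040760) (nat_lit 16) Lb.e (@T16.mk En
    (@En.n l619 (nat_lit 12182) (nat_lit 0) (nat_lit 9))
    (@En.n l3866 (nat_lit 10652) (nat_lit 11) (nat_lit 10))
    (@En.n l17017 (nat_lit 8784) (nat_lit 2) (nat_lit 13))
    (@En.n l9072 (nat_lit 8820) (nat_lit 3) (nat_lit 5))
    (@En.n l23473 (nat_lit 7551) (nat_lit 8) (nat_lit 10))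
    (@En.n l5598 (nat_lit 1525) (nat_lit 11) (nat_lit 7))
    (@En.n l23473 (nat_lit 11958) (nat_lit 6) (nat_lit 4))
    (@En.n l5 (nat_lit 6150) (nat_lit 7) (nat_lit 6))
    (@En.n l5598 (nat_lit 7229) (nat_lit 8) (nat_lit 11))
    (@En.n l37010 (nat_lit 9024) (nat_lit 10) (nat_lit 7))
    (@En.n l37011 (nat_lit 8780) (nat_lit 11) (nat_lit 12))
    (@En.n l36881 (nat_lit 9471) (nat_lit 12) (nat_lit 6))
    (@En.n l50 (nat_lit 8781) (nat_lit 13) (nat_lit 9))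
    (@En.n l217 (nat_lit 8783) (nat_lit 9) (nat_lit 10))
    (@En.i (nat_lit 11440) (nat_lit 12) (nat_lit 6))
    (@En.n l8364 (nat_lit 8816) (nat_lit 15) (nat_lit 3))))
  (@Cl.mk (nat_lit 0x30006000d000b000a0003000a00080005000b0006000a0006000d00050008) (nat_lit 0x87508205050303) (nat_lit 16) Lb.e (@T16.mk En
    (@En.n l12613 (nat_lit 1523) (nat_lit 0) (nat_lit 8))
    (@En.n l2129 (nat_lit 11860) (nat_lit 6) (nat_lit 5))
    (@En.n l18 (nat_lit 8781) (nat_lit 8) (nat_lit 13))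
    (@En.n l10089 (nat_lit 8777) (nat_lit 8) (nat_lit 6))
    (@En.n l19951 (nat_lit 7231) (nat_lit 9) (nat_lit 10))
    (@En.n l15410 (nat_lit 9017) (nat_lit 5) (nat_lit 6))
    (@En.n l8229 (nat_lit 8779) (nat_lit 12) (nat_lit 11))
    (@En.n l15562 (nat_lit 9984) (nat_lit 7) (nat_lit 5))
    (@En.n l2179 (nat_lit 5480) (nat_lit 14) (nat_lit 8))
    (@En.i (nat_lit 10407) (nat_lit 10) (nat_lit 10))
    (@En.n l12540 (nat_lit 8434) (nat_lit 10) (nat_lit 3))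
    (@En.n l619 (nat_lit 12183) (nat_lit 0) (nat_lit 10))
    (@En.n l3866 (nat_lit 10676) (nat_lit 13) (nat_lit 11))
    (@En.n l26294 (nat_lit 9050) (nat_lit 2) (nat_lit 13))
    (@En.n l9072 (nat_lit 9362) (nat_lit 12) (nat_lit 6))
    (@En.n l6204 (nat_lit 8787) (nat_lit 15) (nat_lit 3))))
noncomputable def a549 : T16 Cl := @T16.mk Cl
  (@Cl.mk (nat_lit 0x300090006000a00090007000c00080007000600040007000a000d00090008) (nat_lit 0x700605000004650) (nat_lit 16) Lb.e (@T16.mk En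
    (@En.n l37812 (nat_lit 12181) (nat_lit 0) (nat_lit 8))
    (@En.n l37813 (nat_lit 11074) (nat_lit 12) (nat_lit 9))
    (@En.n l37814 (nat_lit 7816) (nat_lit 5) (nat_lit 13))
    (@En.n l37815 (nat_lit 11672) (nat_lit 8) (nat_lit 10))
    (@En.n l37816 (nat_lit 1486) (nat_lit 11) (nat_lit 7))
    (@En.n l17664 (nat_lit 10509) (nat_lit 5) (nat_lit 4))
    (@En.n l37812 (nat_lit 6149) (nat_lit 0) (nat_lit 6))
    (@En.i (nat_lit 12476) (nat_lit 1) (nat_lit 7))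
    (@En.n l37817 (nat_lit 9023) (nat_lit 9) (nat_lit 8))
    (@En.n l37818 (nat_lit 8778) (nat_lit 10) (nat_lit 12))
    (@En.n l37819 (nat_lit 9472) (nat_lit 9) (nat_lit 7))
    (@En.n l17 (nat_lit 8777) (nat_lit 12) (nat_lit 9))
    (@En.n l9858 (nat_lit 9050) (nat_lit 13) (nat_lit 10))
    (@En.n l11010 (nat_lit 8782) (nat_lit 14) (nat_lit 6))
    (@En.n l11008 (nat_lit 9851) (nat_lit 9) (nat_lit 9))
    (@En.n l37820 (nat_lit 8817) (nat_lit 15) (nat_lit 3))))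
  (@Cl.mk (nat_lit 0x30006000a0005000b0006000a000d000600050003000a0006000d000b000a) (nat_lit 0x40404200050a50) (nat_lit 16) Lb.e (@T16.mk En
    (@En.n l619 (nat_lit 12179) (nat_lit 0) (nat_lit 10))
    (@En.n l3866 (nat_lit 10673) (nat_lit 12) (nat_lit 11))
    (@En.n l17017 (nat_lit 8786) (nat_lit 2) (nat_lit 13))
    (@En.n l6204 (nat_lit 8787) (nat_lit 14) (nat_lit 6))
    (@En.i (nat_lit 10868) (nat_lit 4) (nat_lit 10))
    (@En.n l7 (nat_lit 8781) (nat_lit 5) (nat_lit 3))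
    (@En.n l1684 (nat_lit 11722) (nat_lit 0) (nat_lit 5))
    (@En.n l644 (nat_lit 8782) (nat_lit 7) (nat_lit 6))
    (@En.i (nat_lit 6689) (nat_lit 5) (nat_lit 13))
    (@En.n l1554 (nat_lit 7222) (nat_lit 9) (nat_lit 10))
    (@En.i (nat_lit 9896) (nat_lit 4) (nat_lit 6))
    (@En.i (nat_lit 9436) (nat_lit 12) (nat_lit 11))
    (@En.i (nat_lit 9979) (nat_lit 6) (nat_lit 5))
    (@En.i (nat_lit 8251) (nat_lit 9) (nat_lit 10))
    (@En.n l2817 (nat_lit 11438) (nat_lit 12) (nat_lit 6))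
    (@En.n l1455 (nat_lit 9072) (nat_lit 15) (nat_lit 3))))
  (@Cl.mk (nat_lit 0x3000a0006000a0006000b00070006000d000600050003000a000d000a0009) (nat_lit 0x50500a0005940) (nat_lit 16) Lb.e (@T16.mk En
    (@En.n l41360 (nat_lit 12178) (nat_lit 0) (nat_lit 9))
    (@En.n l37813 (nat_lit 11073) (nat_lit 13) (nat_lit 10))
    (@En.n l14457 (nat_lit 10104) (nat_lit 5) (nat_lit 13))
    (@En.n l41361 (nat_lit 10862) (nat_lit 3) (nat_lit 10))
    (@En.n l18 (nat_lit 8777) (nat_lit 4) (nat_lit 3))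
    (@En.n l41362 (nat_lit 11723) (nat_lit 0) (nat_lit 5))
    (@En.n l61 (nat_lit 8784) (nat_lit 6) (nat_lit 6))
    (@En.n l11008 (nat_lit 6654) (nat_lit 8) (nat_lit 13))
    (@En.i (nat_lit 10327) (nat_lit 10) (nat_lit 6))
    (@En.n l41363 (nat_lit 9895) (nat_lit 4) (nat_lit 7))
    (@En.n l14469 (nat_lit 9441) (nat_lit 11) (nat_lit 11))
    (@En.n l21974 (nat_lit 9980) (nat_lit 6) (nat_lit 6))
    (@En.n l15521 (nat_lit 10136) (nat_lit 13) (nat_lit 10))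
    (@En.n l11010 (nat_lit 8785) (nat_lit 14) (nat_lit 6))
    (@En.n l28593 (nat_lit 11498) (nat_lit 10) (nat_lit 10))
    (@En.n l33181 (nat_lit 9071) (nat_lit 15) (nat_lit 3))))
  (@Cl.mk (nat_lit 0x30006000d000b000a0003000a00090005000a0006000a0006000d00070006) (nat_lit 0xa7707104040300) (nat_lit 16) Lb.e (@T16.mk En
    (@En.n l40190 (nat_lit 11726) (nat_lit 0) (nat_lit 6))
    (@En.n l50 (nat_lit 8820) (nat_lit 6) (nat_lit 7))
    (@En.n l5838 (nat_lit 8785) (nat_lit 8) (nat_lit 13))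
    (@En.n l40191 (nat_lit 8786) (nat_lit 8) (nat_lit 6))
    (@En.n l15414 (nat_lit 7226) (nat_lit 9) (nat_lit 10))
    (@En.n l15414 (nat_lit 9897) (nat_lit 5) (nat_lit 6))
    (@En.n l40192 (nat_lit 9440) (nat_lit 12) (nat_lit 10))
    (@En.n l16891 (nat_lit 9981) (nat_lit 7) (nat_lit 5))
    (@En.i (nat_lit 8250) (nat_lit 7) (nat_lit 9))
    (@En.n l40193 (nat_lit 12024) (nat_lit 10) (nat_lit 10))
    (@En.n l40194 (nat_lit 9076) (nat_lit 10) (nat_lit 3))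
    (@En.n l2940 (nat_lit 12161) (nat_lit 0) (nat_lit 10))
    (@En.n l40195 (nat_lit 10670) (nat_lit 13) (nat_lit 11))
    (@En.n l22865 (nat_lit 9049) (nat_lit 2) (nat_lit 13))
    (@En.n l1723 (nat_lit 5163) (nat_lit 12) (nat_lit 6))
    (@En.n l15352 (nat_lit 8783) (nat_lit 15) (nat_lit 3))))
  (@Cl.mk (nat_lit 0x40009000c00060006000b0004000c0007000a00050004000c000a000a0006) (nat_lit 0x580060104008840) (nat_lit 16) Lb.e (@T16.mk En
    (@En.n l37857 (nat_lit 9492) (nat_lit 0) (nat_lit 6))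
    (@En.n l37858 (nat_lit 8379) (nat_lit 6) (nat_lit 10))
    (@En.n l37859 (nat_lit 8796) (nat_lit 6) (nat_lit 10))
    (@En.n l37860 (nat_lit 5113) (nat_lit 10) (nat_lit 12))
    (@En.n l20405 (nat_lit 8367) (nat_lit 12) (nat_lit 4))
    (@En.n l37861 (nat_lit 8495) (nat_lit 0) (nat_lit 5))
    (@En.n l37862 (nat_lit 9110) (nat_lit 8) (nat_lit 10))
    (@En.n l37863 (nat_lit 8405) (nat_lit 14) (nat_lit 7))
    (@En.n l37864 (nat_lit 8507) (nat_lit 2) (nat_lit 12))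
    (@En.n l37865 (nat_lit 8400) (nat_lit 9) (nat_lit 4))
    (@En.n l37866 (nat_lit 8792) (nat_lit 0) (nat_lit 11))
    (@En.n l37867 (nat_lit 7681) (nat_lit 10) (nat_lit 6))
    (@En.n l37868 (nat_lit 8801) (nat_lit 7) (nat_lit 6))
    (@En.n l20405 (nat_lit 8534) (nat_lit 6) (nat_lit 12))
    (@En.n l18 (nat_lit 8789) (nat_lit 4) (nat_lit 9))
    (@En.i (nat_lit 8416) (nat_lit 15) (nat_lit 4))))
  (@Cl.mk (nat_lit 0x4000b0007000c000a000600050004000b000b00060009000c00050005000a) (nat_lit 0x602500091047005) (nat_lit 16) Lb.e (@T16.mk En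
    (@En.n l29244 (nat_lit 8791) (nat_lit 0) (nat_lit 10))
    (@En.n l29245 (nat_lit 7680) (nat_lit 11) (nat_lit 5))
    (@En.n l29246 (nat_lit 8797) (nat_lit 0) (nat_lit 5))
    (@En.n l20405 (nat_lit 7916) (nat_lit 6) (nat_lit 12))
    (@En.n l29247 (nat_lit 8937) (nat_lit 9) (nat_lit 9))
    (@En.n l29248 (nat_lit 9494) (nat_lit 2) (nat_lit 6))
    (@En.n l29249 (nat_lit 8382) (nat_lit 5) (nat_lit 11))
    (@En.n l29250 (nat_lit 8795) (nat_lit 1) (nat_lit 11))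
    (@En.n l29247 (nat_lit 8803) (nat_lit 12) (nat_lit 4))
    (@En.n l20405 (nat_lit 8363) (nat_lit 11) (nat_lit 5))
    (@En.n l29251 (nat_lit 7955) (nat_lit 1) (nat_lit 6))
    (@En.i (nat_lit 8788) (nat_lit 6) (nat_lit 10))
    (@En.n l217 (nat_lit 8374) (nat_lit 2) (nat_lit 12))
    (@En.n l29252 (nat_lit 8389) (nat_lit 14) (nat_lit 7))
    (@En.n l29253 (nat_lit 8283) (nat_lit 3) (nat_lit 11))
    (@En.n l20403 (nat_lit 8386) (nat_lit 6) (nat_lit 4))))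
  (@Cl.mk (nat_lit 0x3000b0006000c0009000c00050004000a0004000b0007000a000d00060005) (nat_lit 0x903470020205700) (nat_lit 16) Lb.e (@T16.mk En
    (@En.n l16724 (nat_lit 8413) (nat_lit 0) (nat_lit 5))
    (@En.n l32100 (nat_lit 8796) (nat_lit 0) (nat_lit 6))
    (@En.n l159 (nat_lit 7913) (nat_lit 5) (nat_lit 13))
    (@En.i (nat_lit 9742) (nat_lit 8) (nat_lit 10))
    (@En.n l14059 (nat_lit 8791) (nat_lit 4) (nat_lit 7))
    (@En.n l32101 (nat_lit 8789) (nat_lit 6) (nat_lit 11))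
    (@En.n l23765 (nat_lit 8395) (nat_lit 6) (nat_lit 4))
    (@En.n l16725 (nat_lit 9648) (nat_lit 0) (nat_lit 10))
    (@En.i (nat_lit 6216) (nat_lit 12) (nat_lit 4))
    (@En.n l32102 (nat_lit 9817) (nat_lit 0) (nat_lit 5))
    (@En.n l16724 (nat_lit 8262) (nat_lit 6) (nat_lit 12))
    (@En.n l32103 (nat_lit 8773) (nat_lit 12) (nat_lit 9))
    (@En.n l32104 (nat_lit 8762) (nat_lit 13) (nat_lit 12))
    (@En.n l20149 (nat_lit 9431) (nat_lit 14) (nat_lit 6))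
    (@En.n l32105 (nat_lit 9426) (nat_lit 4) (nat_lit 11))
    (@En.n l951 (nat_lit 8798) (nat_lit 15) (nat_lit 3))))
  (@Cl.mk (nat_lit 0x3000a0006000b00090006000c00060005000b00040007000a000d0005000a) (nat_lit 0x803408009004604) (nat_lit 16) Lb.e (@T16.mk En
    (@En.n l13783 (nat_lit 12283) (nat_lit 0) (nat_lit 10))
    (@En.n l37141 (nat_lit 8795) (nat_lit 12) (nat_lit 5))
    (@En.i (nat_lit 7915) (nat_lit 5) (nat_lit 13))
    (@En.n l37142 (nat_lit 10854) (nat_lit 8) (nat_lit 10))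
    (@En.n l37143 (nat_lit 7469) (nat_lit 11) (nat_lit 7))
    (@En.n l37144 (nat_lit 8817) (nat_lit 5) (nat_lit 4))
    (@En.n l37145 (nat_lit 9646) (nat_lit 0) (nat_lit 11))
    (@En.i (nat_lit 6213) (nat_lit 1) (nat_lit 5))
    (@En.n l37146 (nat_lit 10922) (nat_lit 8) (nat_lit 6))
    (@En.n l10037 (nat_lit 8790) (nat_lit 10) (nat_lit 12))
    (@En.n l3480 (nat_lit 8800) (nat_lit 2) (nat_lit 6))
    (@En.n l21289 (nat_lit 8792) (nat_lit 12) (nat_lit 9))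
    (@En.n l37147 (nat_lit 8767) (nat_lit 13) (nat_lit 11))
    (@En.n l37148 (nat_lit 8793) (nat_lit 14) (nat_lit 6))
    (@En.n l37149 (nat_lit 9713) (nat_lit 9) (nat_lit 10))
    (@En.n l2884 (nat_lit 8794) (nat_lit 15) (nat_lit 3))))
  (@Cl.mk (nat_lit 0x3000b000600090005000c0005000c000a000400070004000a000d0006000b) (nat_lit 0x903050480005705) (nat_lit 16) Lb.e (@T16.mk En
    (@En.n l11219 (nat_lit 9235) (nat_lit 0) (nat_lit 11))
    (@En.n l42255 (nat_lit 9475) (nat_lit 3) (nat_lit 6))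
    (@En.n l564 (nat_lit 8763) (nat_lit 5) (nat_lit 13))
    (@En.n l30439 (nat_lit 8791) (nat_lit 3) (nat_lit 10))
    (@En.n l25041 (nat_lit 11883) (nat_lit 4) (nat_lit 4))
    (@En.n l11219 (nat_lit 7466) (nat_lit 11) (nat_lit 7))
    (@En.n l22237 (nat_lit 8437) (nat_lit 6) (nat_lit 4))
    (@En.i (nat_lit 9067) (nat_lit 0) (nat_lit 10))
    (@En.n l11219 (nat_lit 5971) (nat_lit 1) (nat_lit 12))
    (@En.n l42256 (nat_lit 10923) (nat_lit 9) (nat_lit 5))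
    (@En.i (nat_lit 8773) (nat_lit 11) (nat_lit 12))
    (@En.n l37451 (nat_lit 9672) (nat_lit 6) (nat_lit 5))
    (@En.n l2642 (nat_lit 9043) (nat_lit 9) (nat_lit 9))
    (@En.n l30462 (nat_lit 9686) (nat_lit 14) (nat_lit 6))
    (@En.n l22234 (nat_lit 9571) (nat_lit 2) (nat_lit 11))
    (@En.n l6081 (nat_lit 8772) (nat_lit 15) (nat_lit 3))))
  (@Cl.mk (nat_lit 0x30006000b00090005000c000a0005000a00040007000a0006000d0006000b) (nat_lit 0x23084080050705) (nat_lit 16) Lb.e (@T16.mk En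
    (@En.n l42767 (nat_lit 9234) (nat_lit 0) (nat_lit 11))
    (@En.i (nat_lit 9480) (nat_lit 11) (nat_lit 6))
    (@En.n l37183 (nat_lit 8791) (nat_lit 2) (nat_lit 13))
    (@En.n l42768 (nat_lit 9270) (nat_lit 3) (nat_lit 6))
    (@En.i (nat_lit 10856) (nat_lit 8) (nat_lit 10))
    (@En.n l42767 (nat_lit 7468) (nat_lit 11) (nat_lit 7))
    (@En.n l1080 (nat_lit 8816) (nat_lit 6) (nat_lit 4))
    (@En.n l9103 (nat_lit 9644) (nat_lit 0) (nat_lit 10))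
    (@En.n l42769 (nat_lit 6215) (nat_lit 1) (nat_lit 5))
    (@En.n l55 (nat_lit 10567) (nat_lit 10) (nat_lit 10))
    (@En.n l725 (nat_lit 9431) (nat_lit 11) (nat_lit 12))
    (@En.i (nat_lit 9936) (nat_lit 12) (nat_lit 5))
    (@En.n l2642 (nat_lit 9686) (nat_lit 13) (nat_lit 9))
    (@En.n l35411 (nat_lit 9685) (nat_lit 14) (nat_lit 11))
    (@En.i (nat_lit 9632) (nat_lit 12) (nat_lit 6))
    (@En.n l2869 (nat_lit 9691) (nat_lit 15) (nat_lit 3))))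
  (@Cl.mk (nat_lit 0x3000a0006000b00090007000c00060005000a00040007000a000d00090006) (nat_lit 0x803407004005600) (nat_lit 16) Lb.e (@T16.mk En
    (@En.n l24638 (nat_lit 7576) (nat_lit 0) (nat_lit 6))
    (@En.n l41787 (nat_lit 11077) (nat_lit 12) (nat_lit 9))
    (@En.i (nat_lit 7914) (nat_lit 5) (nat_lit 13))
    (@En.n l35208 (nat_lit 10853) (nat_lit 8) (nat_lit 10))
    (@En.n l31035 (nat_lit 9907) (nat_lit 11) (nat_lit 7))
    (@En.n l33453 (nat_lit 8784) (nat_lit 5) (nat_lit 4))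
    (@En.n l287 (nat_lit 10675) (nat_lit 0) (nat_lit 10))
    (@En.n l11 (nat_lit 6120) (nat_lit 1) (nat_lit 5))
    (@En.n l39714 (nat_lit 10920) (nat_lit 8) (nat_lit 6))
    (@En.n l50 (nat_lit 8798) (nat_lit 10) (nat_lit 12))
    (@En.n l16078 (nat_lit 9473) (nat_lit 9) (nat_lit 7))
    (@En.n l41788 (nat_lit 8772) (nat_lit 12) (nat_lit 9))
    (@En.n l9836 (nat_lit 8768) (nat_lit 13) (nat_lit 11))
    (@En.n l35207 (nat_lit 9691) (nat_lit 14) (nat_lit 6))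
    (@En.n l41648 (nat_lit 9842) (nat_lit 9) (nat_lit 10))
    (@En.n l25214 (nat_lit 8791) (nat_lit 15) (nat_lit 3))))
  (@Cl.mk (nat_lit 0x50008000b0005000a0006000a0005000b00080006000b00060005000b000a) (nat_lit 0x350004035060085) (nat_lit 16) Lb.e (@T16.mk En
    (@En.n l37323 (nat_lit 8794) (nat_lit 6) (nat_lit 10))
    (@En.n l37324 (nat_lit 8428) (nat_lit 1) (nat_lit 11))
    (@En.n l37325 (nat_lit 9803) (nat_lit 11) (nat_lit 5))
    (@En.i (nat_lit 10071) (nat_lit 0) (nat_lit 6))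
    (@En.n l37326 (nat_lit 8796) (nat_lit 9) (nat_lit 11))
    (@En.n l37327 (nat_lit 9471) (nat_lit 10) (nat_lit 6))
    (@En.n l37328 (nat_lit 9475) (nat_lit 14) (nat_lit 8))
    (@En.n l29912 (nat_lit 8894) (nat_lit 10) (nat_lit 11))
    (@En.n l3038 (nat_lit 9480) (nat_lit 8) (nat_lit 5))
    (@En.n l37329 (nat_lit 9646) (nat_lit 9) (nat_lit 10))
    (@En.n l37330 (nat_lit 7569) (nat_lit 1) (nat_lit 6))
    (@En.n l37331 (nat_lit 10813) (nat_lit 2) (nat_lit 10))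
    (@En.n l37332 (nat_lit 8394) (nat_lit 15) (nat_lit 5))
    (@En.i (nat_lit 10530) (nat_lit 7) (nat_lit 11))
    (@En.n l37333 (nat_lit 9797) (nat_lit 10) (nat_lit 8))
    (@En.n l37334 (nat_lit 9453) (nat_lit 2) (nat_lit 5))))
  (@Cl.mk (nat_lit 0x40007000b0005000c0008000b00050004000a00090005000c0008000b0006) (nat_lit 0x20355007409460) (nat_lit 16) Lb.e (@T16.mk En
    (@En.i (nat_lit 8392) (nat_lit 0) (nat_lit 6))
    (@En.n l2409 (nat_lit 10527) (nat_lit 7) (nat_lit 11))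
    (@En.n l22549 (nat_lit 8795) (nat_lit 14) (nat_lit 8))
    (@En.n l35993 (nat_lit 8797) (nat_lit 3) (nat_lit 12))
    (@En.n l38066 (nat_lit 9457) (nat_lit 4) (nat_lit 5))
    (@En.i (nat_lit 8798) (nat_lit 7) (nat_lit 9))
    (@En.n l1080 (nat_lit 8431) (nat_lit 1) (nat_lit 10))
    (@En.n l11 (nat_lit 9950) (nat_lit 12) (nat_lit 4))
    (@En.n l38067 (nat_lit 10052) (nat_lit 0) (nat_lit 5))
    (@En.i (nat_lit 9143) (nat_lit 7) (nat_lit 11))
    (@En.n l30492 (nat_lit 9474) (nat_lit 1) (nat_lit 8))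
    (@En.n l9836 (nat_lit 8892) (nat_lit 2) (nat_lit 12))
    (@En.n l1080 (nat_lit 9422) (nat_lit 4) (nat_lit 5))
    (@En.n l9833 (nat_lit 9067) (nat_lit 8) (nat_lit 11))
    (@En.n l17 (nat_lit 7568) (nat_lit 11) (nat_lit 7))
    (@En.n l3098 (nat_lit 9788) (nat_lit 15) (nat_lit 4))))
  (@Cl.mk (nat_lit 0x4000a0007000b0006000c0009000600050004000b0009000c0007000a0005) (nat_lit 0x106076000648040) (nat_lit 16) Lb.e (@T16.mk En
    (@En.n l37837 (nat_lit 8395) (nat_lit 0) (nat_lit 5))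
    (@En.n l37838 (nat_lit 10525) (nat_lit 8) (nat_lit 10))
    (@En.n l37839 (nat_lit 9356) (nat_lit 1) (nat_lit 7))
    (@En.i (nat_lit 7485) (nat_lit 6) (nat_lit 12))
    (@En.n l37840 (nat_lit 8799) (nat_lit 4) (nat_lit 9))
    (@En.n l22554 (nat_lit 8394) (nat_lit 4) (nat_lit 11))
    (@En.n l37841 (nat_lit 9877) (nat_lit 12) (nat_lit 4))
    (@En.i (nat_lit 10057) (nat_lit 11) (nat_lit 5))
    (@En.n l37839 (nat_lit 10442) (nat_lit 1) (nat_lit 6))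
    (@En.n l899 (nat_lit 8801) (nat_lit 1) (nat_lit 9))
    (@En.n l2213 (nat_lit 8893) (nat_lit 2) (nat_lit 12))
    (@En.n l18235 (nat_lit 9424) (nat_lit 4) (nat_lit 6))
    (@En.n l37839 (nat_lit 9055) (nat_lit 8) (nat_lit 11))
    (@En.n l37842 (nat_lit 8796) (nat_lit 14) (nat_lit 7))
    (@En.n l37843 (nat_lit 8795) (nat_lit 11) (nat_lit 10))
    (@En.n l37844 (nat_lit 8884) (nat_lit 12) (nat_lit 4))))
  (@Cl.mk (nat_lit 0x3000b0006000c0009000c0005000400090004000c0007000a000d00040007) (nat_lit 0x903460030506800) (nat_lit 16) Lb.e (@T16.mk En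
    (@En.i (nat_lit 7580) (nat_lit 11) (nat_lit 7))
    (@En.n l22671 (nat_lit 8883) (nat_lit 15) (nat_lit 4))
    (@En.i (nat_lit 7912) (nat_lit 5) (nat_lit 13))
    (@En.n l11069 (nat_lit 9741) (nat_lit 8) (nat_lit 10))
    (@En.i (nat_lit 8794) (nat_lit 4) (nat_lit 7))
    (@En.i (nat_lit 8799) (nat_lit 3) (nat_lit 12))
    (@En.n l4073 (nat_lit 8778) (nat_lit 6) (nat_lit 4))
    (@En.n l287 (nat_lit 10658) (nat_lit 0) (nat_lit 9))
    (@En.n l11 (nat_lit 6122) (nat_lit 12) (nat_lit 4))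
    (@En.i (nat_lit 9819) (nat_lit 0) (nat_lit 5))
    (@En.i (nat_lit 8863) (nat_lit 6) (nat_lit 12))
    (@En.n l4780 (nat_lit 8771) (nat_lit 12) (nat_lit 9))
    (@En.n l9836 (nat_lit 8766) (nat_lit 13) (nat_lit 12))
    (@En.n l22673 (nat_lit 9692) (nat_lit 14) (nat_lit 6))
    (@En.i (nat_lit 9843) (nat_lit 13) (nat_lit 11))
    (@En.n l23908 (nat_lit 8790) (nat_lit 15) (nat_lit 3))))
  (@Cl.mk (nat_lit 0x4000900070004000b0007000c000a0007000500040009000c00060009000c) (nat_lit 0x100903500034054) (nat_lit 16) Lb.e (@T16.mk En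
    (@En.i (nat_lit 7160) (nat_lit 6) (nat_lit 12))
    (@En.n l10710 (nat_lit 9745) (nat_lit 9) (nat_lit 9))
    (@En.n l29359 (nat_lit 9023) (nat_lit 5) (nat_lit 6))
    (@En.n l29360 (nat_lit 9524) (nat_lit 6) (nat_lit 12))
    (@En.n l287 (nat_lit 10657) (nat_lit 4) (nat_lit 9))
    (@En.n l11 (nat_lit 6126) (nat_lit 12) (nat_lit 4))
    (@En.n l29360 (nat_lit 10088) (nat_lit 0) (nat_lit 5))
    (@En.n l396 (nat_lit 8834) (nat_lit 1) (nat_lit 7))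
    (@En.n l29361 (nat_lit 9698) (nat_lit 6) (nat_lit 10))
    (@En.n l29360 (nat_lit 8769) (nat_lit 2) (nat_lit 12))
    (@En.n l14961 (nat_lit 9695) (nat_lit 14) (nat_lit 7))
    (@En.n l29362 (nat_lit 9841) (nat_lit 12) (nat_lit 11))
    (@En.n l29363 (nat_lit 8789) (nat_lit 15) (nat_lit 4))
    (@En.n l7 (nat_lit 8798) (nat_lit 0) (nat_lit 7))
    (@En.n l644 (nat_lit 8794) (nat_lit 1) (nat_lit 9))
    (@En.n l22671 (nat_lit 8882) (nat_lit 15) (nat_lit 4))))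
noncomputable def a550 : T16 Cl := @T16.mk Cl
  (@Cl.mk (nat_lit 0x4000b0004000b0009000c0005000a00050004000b0007000c0006000c0005) (nat_lit 0x806410300003040) (nat_lit 16) Lb.e (@T16.mk En
    (@En.n l17023 (nat_lit 9814) (nat_lit 0) (nat_lit 5))
    (@En.n l9135 (nat_lit 9968) (nat_lit 1) (nat_lit 12))
    (@En.n l25470 (nat_lit 9811) (nat_lit 1) (nat_lit 6))
    (@En.n l41939 (nat_lit 12459) (nat_lit 2) (nat_lit 12))
    (@En.n l37842 (nat_lit 9936) (nat_lit 14) (nat_lit 7))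
    (@En.n l41940 (nat_lit 9937) (nat_lit 4) (nat_lit 11))
    (@En.n l152 (nat_lit 9795) (nat_lit 12) (nat_lit 4))
    (@En.n l31483 (nat_lit 8790) (nat_lit 0) (nat_lit 5))
    (@En.n l617 (nat_lit 6405) (nat_lit 1) (nat_lit 10))
    (@En.n l2605 (nat_lit 9471) (nat_lit 1) (nat_lit 5))
    (@En.i (nat_lit 7484) (nat_lit 6) (nat_lit 12))
    (@En.n l27788 (nat_lit 9699) (nat_lit 14) (nat_lit 9))
    (@En.n l17023 (nat_lit 8880) (nat_lit 2) (nat_lit 11))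
    (@En.i (nat_lit 8797) (nat_lit 6) (nat_lit 4))
    (@En.n l41941 (nat_lit 9359) (nat_lit 0) (nat_lit 11))
    (@En.i (nat_lit 10060) (nat_lit 12) (nat_lit 4))))
  (@Cl.mk (nat_lit 0x4000b000a0008000b00070005000a00060005000b0008000c000600090005) (nat_lit 0x854700500043050) (nat_lit 16) Lb.e (@T16.mk En
    (@En.n l36042 (nat_lit 6846) (nat_lit 0) (nat_lit 5))
    (@En.n l20224 (nat_lit 2591) (nat_lit 9) (nat_lit 9))
    (@En.n l36043 (nat_lit 9425) (nat_lit 1) (nat_lit 6))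
    (@En.n l5821 (nat_lit 9057) (nat_lit 7) (nat_lit 12))
    (@En.n l36044 (nat_lit 9474) (nat_lit 4) (nat_lit 8))
    (@En.n l35096 (nat_lit 9475) (nat_lit 2) (nat_lit 11))
    (@En.n l11401 (nat_lit 9978) (nat_lit 11) (nat_lit 5))
    (@En.n l2711 (nat_lit 8386) (nat_lit 7) (nat_lit 6))
    (@En.n l16218 (nat_lit 8797) (nat_lit 1) (nat_lit 10))
    (@En.n l1003 (nat_lit 8800) (nat_lit 9) (nat_lit 5))
    (@En.n l11386 (nat_lit 9355) (nat_lit 0) (nat_lit 7))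
    (@En.n l1003 (nat_lit 7481) (nat_lit 7) (nat_lit 11))
    (@En.n l36045 (nat_lit 9698) (nat_lit 2) (nat_lit 8))
    (@En.n l36046 (nat_lit 8392) (nat_lit 6) (nat_lit 10))
    (@En.n l36047 (nat_lit 9481) (nat_lit 4) (nat_lit 11))
    (@En.i (nat_lit 10062) (nat_lit 12) (nat_lit 4))))
  (@Cl.mk (nat_lit 0x3000b00070005000b000b00050008000c0005000500090004000d000b0008) (nat_lit 0x700910050040a72) (nat_lit 16) Lb.e (@T16.mk En
    (@En.n l34989 (nat_lit 6519) (nat_lit 0) (nat_lit 8))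
    (@En.n l34990 (nat_lit 8789) (nat_lit 14) (nat_lit 11))
    (@En.n l34991 (nat_lit 7088) (nat_lit 2) (nat_lit 13))
    (@En.n l63 (nat_lit 6813) (nat_lit 3) (nat_lit 4))
    (@En.n l27892 (nat_lit 6214) (nat_lit 10) (nat_lit 9))
    (@En.n l77 (nat_lit 7678) (nat_lit 11) (nat_lit 5))
    (@En.n l34464 (nat_lit 9878) (nat_lit 6) (nat_lit 5))
    (@En.i (nat_lit 6166) (nat_lit 7) (nat_lit 12))
    (@En.n l34992 (nat_lit 8916) (nat_lit 10) (nat_lit 8))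
    (@En.n l34993 (nat_lit 11253) (nat_lit 9) (nat_lit 5))
    (@En.n l29904 (nat_lit 6206) (nat_lit 5) (nat_lit 11))
    (@En.n l34994 (nat_lit 8465) (nat_lit 12) (nat_lit 11))
    (@En.n l27896 (nat_lit 8417) (nat_lit 2) (nat_lit 5))
    (@En.i (nat_lit 7958) (nat_lit 14) (nat_lit 7))
    (@En.n l34995 (nat_lit 8804) (nat_lit 11) (nat_lit 11))
    (@En.n l34996 (nat_lit 8803) (nat_lit 15) (nat_lit 3))))
  (@Cl.mk (nat_lit 0x3000b00070004000b000b00050009000c0005000500090004000d0007000c) (nat_lit 0x700910650040909) (nat_lit 16) Lb.e (@T16.mk En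
    (@En.n l14462 (nat_lit 8534) (nat_lit 0) (nat_lit 12))
    (@En.i (nat_lit 8804) (nat_lit 14) (nat_lit 7))
    (@En.n l30753 (nat_lit 7089) (nat_lit 2) (nat_lit 13))
    (@En.n l403 (nat_lit 6811) (nat_lit 3) (nat_lit 4))
    (@En.n l26395 (nat_lit 6213) (nat_lit 10) (nat_lit 9))
    (@En.n l32403 (nat_lit 7677) (nat_lit 11) (nat_lit 5))
    (@En.n l665 (nat_lit 9877) (nat_lit 6) (nat_lit 5))
    (@En.n l159 (nat_lit 6167) (nat_lit 6) (nat_lit 12))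
    (@En.i (nat_lit 8806) (nat_lit 10) (nat_lit 9))
    (@En.n l32404 (nat_lit 11252) (nat_lit 9) (nat_lit 5))
    (@En.n l32405 (nat_lit 6205) (nat_lit 5) (nat_lit 11))
    (@En.n l22090 (nat_lit 8831) (nat_lit 12) (nat_lit 11))
    (@En.n l3727 (nat_lit 8416) (nat_lit 2) (nat_lit 4))
    (@En.n l32406 (nat_lit 7956) (nat_lit 14) (nat_lit 7))
    (@En.n l5732 (nat_lit 5111) (nat_lit 1) (nat_lit 11))
    (@En.n l32407 (nat_lit 8802) (nat_lit 15) (nat_lit 3))))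
  (@Cl.mk (nat_lit 0x40007000c0008000b00060004000a000a000500090008000c00060006000a) (nat_lit 0x21600810716005) (nat_lit 16) Lb.e (@T16.mk En
    (@En.n l26395 (nat_lit 6215) (nat_lit 9) (nat_lit 10))
    (@En.n l32403 (nat_lit 7679) (nat_lit 10) (nat_lit 6))
    (@En.n l36637 (nat_lit 9874) (nat_lit 8) (nat_lit 6))
    (@En.n l3 (nat_lit 8803) (nat_lit 7) (nat_lit 12))
    (@En.n l36638 (nat_lit 8802) (nat_lit 8) (nat_lit 8))
    (@En.i (nat_lit 8805) (nat_lit 10) (nat_lit 9))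
    (@En.n l26927 (nat_lit 11254) (nat_lit 6) (nat_lit 5))
    (@En.n l36639 (nat_lit 6210) (nat_lit 6) (nat_lit 10))
    (@En.n l36640 (nat_lit 8830) (nat_lit 1) (nat_lit 10))
    (@En.n l36641 (nat_lit 8415) (nat_lit 9) (nat_lit 4))
    (@En.n l32406 (nat_lit 7957) (nat_lit 0) (nat_lit 6))
    (@En.n l36642 (nat_lit 5115) (nat_lit 7) (nat_lit 11))
    (@En.n l36643 (nat_lit 6515) (nat_lit 13) (nat_lit 8))
    (@En.n l36644 (nat_lit 8788) (nat_lit 8) (nat_lit 12))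
    (@En.n l36645 (nat_lit 8015) (nat_lit 11) (nat_lit 7))
    (@En.n l36646 (nat_lit 6812) (nat_lit 15) (nat_lit 4))))
  (@Cl.mk (nat_lit 0x300070004000b000b00090007000c00050005000900040007000d000c0009) (nat_lit 0x8860500500b22) (nat_lit 16) Lb.e (@T16.mk En
    (@En.n l40213 (nat_lit 6953) (nat_lit 0) (nat_lit 9))
    (@En.n l55 (nat_lit 8809) (nat_lit 4) (nat_lit 12))
    (@En.n l40214 (nat_lit 8802) (nat_lit 2) (nat_lit 13))
    (@En.n l23500 (nat_lit 11534) (nat_lit 11) (nat_lit 7))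
    (@En.n l403 (nat_lit 9964) (nat_lit 4) (nat_lit 4))
    (@En.n l40215 (nat_lit 10718) (nat_lit 0) (nat_lit 9))
    (@En.n l18 (nat_lit 8864) (nat_lit 11) (nat_lit 5))
    (@En.n l40216 (nat_lit 10140) (nat_lit 7) (nat_lit 5))
    (@En.n l3 (nat_lit 8806) (nat_lit 9) (nat_lit 12))
    (@En.n l3 (nat_lit 8813) (nat_lit 1) (nat_lit 7))
    (@En.n l40217 (nat_lit 10299) (nat_lit 11) (nat_lit 9))
    (@En.n l40218 (nat_lit 10776) (nat_lit 5) (nat_lit 11))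
    (@En.n l34971 (nat_lit 8832) (nat_lit 13) (nat_lit 11))
    (@En.n l35315 (nat_lit 8905) (nat_lit 14) (nat_lit 4))
    (@En.n l287 (nat_lit 9583) (nat_lit 0) (nat_lit 7))
    (@En.n l11 (nat_lit 8807) (nat_lit 15) (nat_lit 3))))
  (@Cl.mk (nat_lit 0x300080004000c000c0009000c0004000400080004000c0007000d000c0004) (nat_lit 0x309354003050150) (nat_lit 16) Lb.e (@T16.mk En
    (@En.i (nat_lit 8916) (nat_lit 0) (nat_lit 4))
    (@En.n l55 (nat_lit 8810) (nat_lit 4) (nat_lit 12))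
    (@En.n l26342 (nat_lit 6166) (nat_lit 1) (nat_lit 13))
    (@En.i (nat_lit 8805) (nat_lit 3) (nat_lit 7))
    (@En.i (nat_lit 10158) (nat_lit 12) (nat_lit 12))
    (@En.n l403 (nat_lit 9968) (nat_lit 5) (nat_lit 4))
    (@En.n l1353 (nat_lit 10719) (nat_lit 6) (nat_lit 8))
    (@En.n l18 (nat_lit 8863) (nat_lit 12) (nat_lit 4))
    (@En.n l6081 (nat_lit 10152) (nat_lit 8) (nat_lit 4))
    (@En.i (nat_lit 3810) (nat_lit 6) (nat_lit 12))
    (@En.n l6277 (nat_lit 10295) (nat_lit 11) (nat_lit 9))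
    (@En.n l396 (nat_lit 8913) (nat_lit 4) (nat_lit 12))
    (@En.i (nat_lit 8834) (nat_lit 13) (nat_lit 12))
    (@En.n l1392 (nat_lit 8871) (nat_lit 4) (nat_lit 4))
    (@En.n l287 (nat_lit 7397) (nat_lit 0) (nat_lit 8))
    (@En.n l11 (nat_lit 8808) (nat_lit 15) (nat_lit 3))))
  (@Cl.mk (nat_lit 0x300070003000b000b00090008000c00050005000900040007000d0008000d) (nat_lit 0x8670500500a02) (nat_lit 16) Lb.e (@T16.mk En
    (@En.n l23258 (nat_lit 7210) (nat_lit 0) (nat_lit 13))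
    (@En.i (nat_lit 10116) (nat_lit 3) (nat_lit 8))
    (@En.n l180 (nat_lit 8803) (nat_lit 2) (nat_lit 13))
    (@En.n l23500 (nat_lit 11535) (nat_lit 11) (nat_lit 7))
    (@En.n l403 (nat_lit 9965) (nat_lit 4) (nat_lit 4))
    (@En.n l1353 (nat_lit 10821) (nat_lit 0) (nat_lit 9))
    (@En.n l18 (nat_lit 8862) (nat_lit 11) (nat_lit 5))
    (@En.n l6081 (nat_lit 10141) (nat_lit 7) (nat_lit 5))
    (@En.n l3 (nat_lit 8808) (nat_lit 9) (nat_lit 12))
    (@En.n l3 (nat_lit 8811) (nat_lit 12) (nat_lit 8))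
    (@En.n l7642 (nat_lit 10298) (nat_lit 11) (nat_lit 9))
    (@En.n l396 (nat_lit 9977) (nat_lit 5) (nat_lit 11))
    (@En.i (nat_lit 8833) (nat_lit 13) (nat_lit 11))
    (@En.i (nat_lit 8809) (nat_lit 15) (nat_lit 3))
    (@En.n l38984 (nat_lit 3408) (nat_lit 0) (nat_lit 7))
    (@En.i (nat_lit 8805) (nat_lit 15) (nat_lit 3))))
  (@Cl.mk (nat_lit 0x300080003000c000c0009000c0004000400080004000d0007000d0003000d) (nat_lit 0x209564003060202) (nat_lit 16) Lb.e (@T16.mk En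
    (@En.i (nat_lit 7220) (nat_lit 0) (nat_lit 13))
    (@En.n l117 (nat_lit 8811) (nat_lit 3) (nat_lit 3))
    (@En.i (nat_lit 6167) (nat_lit 0) (nat_lit 13))
    (@En.i (nat_lit 8807) (nat_lit 3) (nat_lit 7))
    (@En.i (nat_lit 8814) (nat_lit 2) (nat_lit 13))
    (@En.n l403 (nat_lit 9967) (nat_lit 5) (nat_lit 4))
    (@En.n l1353 (nat_lit 10820) (nat_lit 6) (nat_lit 8))
    (@En.n l18 (nat_lit 8861) (nat_lit 12) (nat_lit 4))
    (@En.n l6081 (nat_lit 10151) (nat_lit 8) (nat_lit 4))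
    (@En.i (nat_lit 3813) (nat_lit 6) (nat_lit 12))
    (@En.n l3098 (nat_lit 10296) (nat_lit 11) (nat_lit 9))
    (@En.n l396 (nat_lit 8815) (nat_lit 4) (nat_lit 12))
    (@En.i (nat_lit 8835) (nat_lit 11) (nat_lit 12))
    (@En.i (nat_lit 8810) (nat_lit 15) (nat_lit 3))
    (@En.n l1353 (nat_lit 4592) (nat_lit 0) (nat_lit 8))
    (@En.i (nat_lit 8806) (nat_lit 15) (nat_lit 3))))
  (@Cl.mk (nat_lit 0x3000b000b00090008000c00050005000a00040007000c0008000d00060004) (nat_lit 0x865470020013100) (nat_lit 16) Lb.e (@T16.mk En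
    (@En.n l42300 (nat_lit 8895) (nat_lit 0) (nat_lit 4))
    (@En.i (nat_lit 7104) (nat_lit 0) (nat_lit 6))
    (@En.n l23404 (nat_lit 3536) (nat_lit 1) (nat_lit 13))
    (@En.n l35315 (nat_lit 10793) (nat_lit 3) (nat_lit 8))
    (@En.n l42301 (nat_lit 8416) (nat_lit 8) (nat_lit 12))
    (@En.n l23500 (nat_lit 11537) (nat_lit 11) (nat_lit 7))
    (@En.n l403 (nat_lit 9966) (nat_lit 6) (nat_lit 4))
    (@En.n l7406 (nat_lit 10835) (nat_lit 0) (nat_lit 10))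
    (@En.n l18 (nat_lit 8860) (nat_lit 11) (nat_lit 5))
    (@En.n l42302 (nat_lit 10142) (nat_lit 9) (nat_lit 5))
    (@En.n l3 (nat_lit 8810) (nat_lit 11) (nat_lit 12))
    (@En.n l3 (nat_lit 8812) (nat_lit 12) (nat_lit 8))
    (@En.n l42303 (nat_lit 12036) (nat_lit 13) (nat_lit 9))
    (@En.n l42304 (nat_lit 8906) (nat_lit 5) (nat_lit 11))
    (@En.n l3749 (nat_lit 10498) (nat_lit 14) (nat_lit 11))
    (@En.n l28 (nat_lit 8807) (nat_lit 13) (nat_lit 3))))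
  (@Cl.mk (nat_lit 0x3000c000c0009000c0004000400090004000d0007000c0003000d00070004) (nat_lit 0x967600204040800) (nat_lit 16) Lb.e (@T16.mk En
    (@En.n l1392 (nat_lit 8900) (nat_lit 0) (nat_lit 4))
    (@En.i (nat_lit 7102) (nat_lit 14) (nat_lit 7))
    (@En.n l23404 (nat_lit 3531) (nat_lit 1) (nat_lit 13))
    (@En.n l117 (nat_lit 8812) (nat_lit 3) (nat_lit 3))
    (@En.n l3727 (nat_lit 8532) (nat_lit 0) (nat_lit 12))
    (@En.i (nat_lit 8809) (nat_lit 5) (nat_lit 7))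
    (@En.i (nat_lit 10268) (nat_lit 2) (nat_lit 13))
    (@En.n l403 (nat_lit 9969) (nat_lit 7) (nat_lit 4))
    (@En.n l7406 (nat_lit 10620) (nat_lit 4) (nat_lit 9))
    (@En.n l18 (nat_lit 8859) (nat_lit 12) (nat_lit 4))
    (@En.n l6081 (nat_lit 10148) (nat_lit 0) (nat_lit 4))
    (@En.i (nat_lit 3880) (nat_lit 6) (nat_lit 12))
    (@En.n l3098 (nat_lit 10297) (nat_lit 1) (nat_lit 9))
    (@En.n l34309 (nat_lit 8907) (nat_lit 4) (nat_lit 12))
    (@En.n l3749 (nat_lit 10497) (nat_lit 11) (nat_lit 12))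
    (@En.n l28 (nat_lit 8808) (nat_lit 13) (nat_lit 3))))
  (@Cl.mk (nat_lit 0x3000c000c0008000c0004000400080004000d000c00080003000d00040008) (nat_lit 0x976400304660802) (nat_lit 16) Lb.e (@T16.mk En
    (@En.n l21664 (nat_lit 4591) (nat_lit 0) (nat_lit 8))
    (@En.i (nat_lit 8813) (nat_lit 6) (nat_lit 4))
    (@En.i (nat_lit 12151) (nat_lit 0) (nat_lit 13))
    (@En.n l152 (nat_lit 8808) (nat_lit 1) (nat_lit 3))
    (@En.i (nat_lit 10798) (nat_lit 0) (nat_lit 8))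
    (@En.n l619 (nat_lit 8806) (nat_lit 4) (nat_lit 12))
    (@En.i (nat_lit 10266) (nat_lit 2) (nat_lit 13))
    (@En.n l403 (nat_lit 9970) (nat_lit 7) (nat_lit 4))
    (@En.i (nat_lit 10822) (nat_lit 11) (nat_lit 8))
    (@En.n l18 (nat_lit 8850) (nat_lit 12) (nat_lit 4))
    (@En.i (nat_lit 8856) (nat_lit 0) (nat_lit 4))
    (@En.i (nat_lit 3071) (nat_lit 0) (nat_lit 12))
    (@En.i (nat_lit 10185) (nat_lit 1) (nat_lit 8))
    (@En.n l18630 (nat_lit 10751) (nat_lit 4) (nat_lit 12))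
    (@En.i (nat_lit 8836) (nat_lit 11) (nat_lit 12))
    (@En.i (nat_lit 8812) (nat_lit 15) (nat_lit 3))))
  (@Cl.mk (nat_lit 0x3000c000c0008000c0004000400090004000d000b00080003000d00070005) (nat_lit 0x873500205340600) (nat_lit 16) Lb.e (@T16.mk En
    (@En.n l28251 (nat_lit 5887) (nat_lit 0) (nat_lit 5))
    (@En.i (nat_lit 7103) (nat_lit 14) (nat_lit 7))
    (@En.n l8329 (nat_lit 12152) (nat_lit 2) (nat_lit 13))
    (@En.n l152 (nat_lit 8810) (nat_lit 3) (nat_lit 3))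
    (@En.n l9884 (nat_lit 10794) (nat_lit 0) (nat_lit 8))
    (@En.n l14017 (nat_lit 8871) (nat_lit 11) (nat_lit 11))
    (@En.i (nat_lit 10267) (nat_lit 2) (nat_lit 13))
    (@En.n l403 (nat_lit 9971) (nat_lit 7) (nat_lit 4))
    (@En.i (nat_lit 10846) (nat_lit 4) (nat_lit 9))
    (@En.n l18 (nat_lit 8858) (nat_lit 12) (nat_lit 4))
    (@En.n l28327 (nat_lit 10147) (nat_lit 0) (nat_lit 4))
    (@En.i (nat_lit 3875) (nat_lit 0) (nat_lit 12))
    (@En.n l23940 (nat_lit 10183) (nat_lit 1) (nat_lit 8))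
    (@En.n l28328 (nat_lit 8908) (nat_lit 4) (nat_lit 12))
    (@En.n l28329 (nat_lit 10496) (nat_lit 11) (nat_lit 12))
    (@En.n l28 (nat_lit 8811) (nat_lit 15) (nat_lit 3))))
  (@Cl.mk (nat_lit 0x4000400080004000c000c000b00090004000400080005000c000c0007000c) (nat_lit 0x205a4200409604) (nat_lit 16) Lb.e (@T16.mk En
    (@En.i (nat_lit 3074) (nat_lit 0) (nat_lit 12))
    (@En.n l14276 (nat_lit 9337) (nat_lit 1) (nat_lit 7))
    (@En.n l29126 (nat_lit 10749) (nat_lit 4) (nat_lit 12))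
    (@En.i (nat_lit 6866) (nat_lit 12) (nat_lit 12))
    (@En.n l27654 (nat_lit 5888) (nat_lit 4) (nat_lit 5))
    (@En.n l41640 (nat_lit 9575) (nat_lit 11) (nat_lit 8))
    (@En.n l15273 (nat_lit 8847) (nat_lit 12) (nat_lit 4))
    (@En.n l152 (nat_lit 8806) (nat_lit 0) (nat_lit 4))
    (@En.n l9885 (nat_lit 7269) (nat_lit 0) (nat_lit 9))
    (@En.n l55 (nat_lit 8812) (nat_lit 5) (nat_lit 11))
    (@En.n l619 (nat_lit 8916) (nat_lit 4) (nat_lit 12))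
    (@En.i (nat_lit 9163) (nat_lit 12) (nat_lit 12))
    (@En.n l403 (nat_lit 7370) (nat_lit 4) (nat_lit 4))
    (@En.n l9885 (nat_lit 8814) (nat_lit 11) (nat_lit 8))
    (@En.n l18 (nat_lit 8846) (nat_lit 12) (nat_lit 4))
    (@En.n l36312 (nat_lit 8855) (nat_lit 0) (nat_lit 4))))
  (@Cl.mk (nat_lit 0x30008000d000400080003000c000c000a0008000400040008000d0006000c) (nat_lit 0x15010996100350a) (nat_lit 16) Lb.e (@T16.mk En
    (@En.n l11722 (nat_lit 7095) (nat_lit 0) (nat_lit 12))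
    (@En.n l39768 (nat_lit 11543) (nat_lit 6) (nat_lit 6))
    (@En.n l3593 (nat_lit 10230) (nat_lit 2) (nat_lit 13))
    (@En.n l1353 (nat_lit 10587) (nat_lit 3) (nat_lit 8))
    (@En.n l18 (nat_lit 10329) (nat_lit 12) (nat_lit 4))
    (@En.n l26601 (nat_lit 10719) (nat_lit 0) (nat_lit 4))
    (@En.i (nat_lit 5409) (nat_lit 0) (nat_lit 8))
    (@En.n l16306 (nat_lit 10846) (nat_lit 1) (nat_lit 10))
    (@En.n l43077 (nat_lit 10262) (nat_lit 4) (nat_lit 12))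
    (@En.i (nat_lit 10312) (nat_lit 10) (nat_lit 12))
    (@En.i (nat_lit 10268) (nat_lit 10) (nat_lit 3))
    (@En.n l4991 (nat_lit 4480) (nat_lit 0) (nat_lit 8))
    (@En.i (nat_lit 10158) (nat_lit 6) (nat_lit 4))
    (@En.n l3593 (nat_lit 4395) (nat_lit 0) (nat_lit 13))
    (@En.n l152 (nat_lit 8807) (nat_lit 1) (nat_lit 8))
    (@En.n l117 (nat_lit 10266) (nat_lit 15) (nat_lit 3))))
  (@Cl.mk (nat_lit 0x200080005000d0008000d0003000d000300080003000c0008000b000e0004) (nat_lit 0x407310201045340) (nat_lit 16) Lb.e (@T16.mk En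
    (@En.n l50 (nat_lit 8808) (nat_lit 8) (nat_lit 4))
    (@En.n l26339 (nat_lit 5648) (nat_lit 4) (nat_lit 14))
    (@En.i (nat_lit 4015) (nat_lit 2) (nat_lit 11))
    (@En.n l6081 (nat_lit 12706) (nat_lit 3) (nat_lit 8))
    (@En.n l7667 (nat_lit 9549) (nat_lit 11) (nat_lit 12))
    (@En.n l1851 (nat_lit 8907) (nat_lit 5) (nat_lit 3))
    (@En.n l1353 (nat_lit 3405) (nat_lit 6) (nat_lit 8))
    (@En.i (nat_lit 8913) (nat_lit 7) (nat_lit 3))
    (@En.n l947 (nat_lit 3528) (nat_lit 0) (nat_lit 13))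
    (@En.n l23238 (nat_lit 10751) (nat_lit 9) (nat_lit 3))
    (@En.n l34386 (nat_lit 6201) (nat_lit 11) (nat_lit 13))
    (@En.i (nat_lit 9977) (nat_lit 12) (nat_lit 8))
    (@En.n l26601 (nat_lit 10262) (nat_lit 13) (nat_lit 13))
    (@En.n l403 (nat_lit 9972) (nat_lit 14) (nat_lit 5))
    (@En.n l1353 (nat_lit 10816) (nat_lit 6) (nat_lit 8))
    (@En.n l18 (nat_lit 8815) (nat_lit 15) (nat_lit 2))))

end Pool.Agent.MP_61a8e3_al.G4.K
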