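import Pool.Agent.MP_61a8e3_al.G4.KL0
import Pool.Agent.MP_61a8e3_al.G4.KL1
import Pool.Agent.MP_61a8e3_al.G4.KL2
import Pool.Agent.MP_61a8e3_al.G4.KL3
import Pool.Agent.MP_61a8e3_al.G4.KL4
import Pool.Agent.MP_61a8e3_al.G4.KL5
import Pool.Agent.MP_61a8e3_al.G4.KL6
import Pool.Agent.MP_61a8e3_al.G4.KL7

/-! Part K: classes, part 5. -/

set_option autoImplicit false
set_option maxRecDepth 100000
set_option linter.all false

namespace Pool.Agent.MP_61a8e3_al.G4.K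

noncomputable def a551 : T16 Cl := @T16.mk Cl
  (@Cl.mk (nat_lit 0x30006000a00090005000c0008000b000600040007000a0005000d0008000b) (nat_lit 0x14066400040755) (nat_lit 16) Lb.e (@T16.mk En
    (@En.n l636 (nat_lit 9226) (nat_lit 0) (nat_lit 11))
    (@En.i (nat_lit 8432) (nat_lit 11) (nat_lit 8))
    (@En.n l24111 (nat_lit 8817) (nat_lit 2) (nat_lit 13))
    (@En.i (nat_lit 8818) (nat_lit 3) (nat_lit 5))
    (@En.n l3530 (nat_lit 7548) (nat_lit 8) (nat_lit 10))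
    (@En.i (nat_lit 1485) (nat_lit 11) (nat_lit 7))
    (@En.n l4659 (nat_lit 11955) (nat_lit 6) (nat_lit 4))
    (@En.n l5390 (nat_lit 6154) (nat_lit 7) (nat_lit 6))
    (@En.i (nat_lit 7262) (nat_lit 7) (nat_lit 11))
    (@En.n l16345 (nat_lit 8390) (nat_lit 10) (nat_lit 8))
    (@En.n l10358 (nat_lit 8392) (nat_lit 11) (nat_lit 12))
    (@En.n l3530 (nat_lit 8796) (nat_lit 12) (nat_lit 5))
    (@En.n l637 (nat_lit 8433) (nat_lit 13) (nat_lit 9))
    (@En.n l4663 (nat_lit 8434) (nat_lit 9) (nat_lit 10))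
    (@En.i (nat_lit 6560) (nat_lit 12) (nat_lit 6))
    (@En.n l14811 (nat_lit 8782) (nat_lit 15) (nat_lit 3))))
  (@Cl.mk (nat_lit 0x300090006000a00090006000c00090007000600040007000a000d0007000a) (nat_lit 0x703507600003604) (nat_lit 16) Lb.e (@T16.mk En
    (@En.n l1643 (nat_lit 9227) (nat_lit 0) (nat_lit 10))
    (@En.n l37880 (nat_lit 9589) (nat_lit 12) (nat_lit 7))
    (@En.n l37881 (nat_lit 7817) (nat_lit 5) (nat_lit 13))
    (@En.n l25542 (nat_lit 7550) (nat_lit 8) (nat_lit 10))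
    (@En.n l37882 (nat_lit 1482) (nat_lit 11) (nat_lit 7))
    (@En.n l25979 (nat_lit 11957) (nat_lit 5) (nat_lit 4))
    (@En.n l37881 (nat_lit 6212) (nat_lit 0) (nat_lit 6))
    (@En.n l639 (nat_lit 12477) (nat_lit 1) (nat_lit 7))
    (@En.n l25543 (nat_lit 8391) (nat_lit 9) (nat_lit 9))
    (@En.n l36939 (nat_lit 8395) (nat_lit 10) (nat_lit 12))
    (@En.n l37883 (nat_lit 8797) (nat_lit 11) (nat_lit 6))
    (@En.n l17 (nat_lit 8437) (nat_lit 12) (nat_lit 9))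
    (@En.n l37884 (nat_lit 8573) (nat_lit 13) (nat_lit 10))
    (@En.n l37885 (nat_lit 8816) (nat_lit 14) (nat_lit 6))
    (@En.n l37886 (nat_lit 8432) (nat_lit 9) (nat_lit 9))
    (@En.n l14436 (nat_lit 8784) (nat_lit 15) (nat_lit 3))))
  (@Cl.mk (nat_lit 0x30009000900080005000b0008000b00070007000500080005000d0008000b) (nat_lit 0x3065400040844) (nat_lit 16) Lb.e (@T16.mk En
    (@En.n l5760 (nat_lit 8966) (nat_lit 0) (nat_lit 11))
    (@En.n l4682 (nat_lit 8821) (nat_lit 14) (nat_lit 8))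
    (@En.n l27338 (nat_lit 2594) (nat_lit 2) (nat_lit 13))
    (@En.n l8547 (nat_lit 5099) (nat_lit 3) (nat_lit 5))
    (@En.n l1898 (nat_lit 1394) (nat_lit 10) (nat_lit 8))
    (@En.n l4659 (nat_lit 11953) (nat_lit 5) (nat_lit 5))
    (@En.n l1096 (nat_lit 8819) (nat_lit 9) (nat_lit 7))
    (@En.n l36037 (nat_lit 8817) (nat_lit 7) (nat_lit 7))
    (@En.i (nat_lit 7347) (nat_lit 7) (nat_lit 11))
    (@En.n l8548 (nat_lit 8823) (nat_lit 10) (nat_lit 8))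
    (@En.n l36038 (nat_lit 8822) (nat_lit 11) (nat_lit 11))
    (@En.n l36039 (nat_lit 9457) (nat_lit 12) (nat_lit 5))
    (@En.n l36040 (nat_lit 8434) (nat_lit 8) (nat_lit 8))
    (@En.n l2040 (nat_lit 8824) (nat_lit 7) (nat_lit 9))
    (@En.i (nat_lit 10555) (nat_lit 2) (nat_lit 9))
    (@En.n l36041 (nat_lit 8820) (nat_lit 15) (nat_lit 3))))
  (@Cl.mk (nat_lit 0x200090006000c0009000c0007000400070004000d0007000a0003000e0009) (nat_lit 0x508770000706061) (nat_lit 16) Lb.e (@T16.mk En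
    (@En.n l3745 (nat_lit 8818) (nat_lit 14) (nat_lit 9))
    (@En.i (nat_lit 4541) (nat_lit 1) (nat_lit 14))
    (@En.n l23760 (nat_lit 9350) (nat_lit 2) (nat_lit 3))
    (@En.n l3633 (nat_lit 9222) (nat_lit 3) (nat_lit 10))
    (@En.i (nat_lit 8827) (nat_lit 4) (nat_lit 7))
    (@En.n l16121 (nat_lit 6487) (nat_lit 6) (nat_lit 13))
    (@En.n l23906 (nat_lit 5097) (nat_lit 6) (nat_lit 4))
    (@En.n l9103 (nat_lit 1389) (nat_lit 7) (nat_lit 7))
    (@En.n l11 (nat_lit 9581) (nat_lit 8) (nat_lit 4))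
    (@En.n l17902 (nat_lit 6155) (nat_lit 0) (nat_lit 7))
    (@En.i (nat_lit 7349) (nat_lit 6) (nat_lit 12))
    (@En.n l8144 (nat_lit 8829) (nat_lit 12) (nat_lit 9))
    (@En.n l23907 (nat_lit 9262) (nat_lit 13) (nat_lit 12))
    (@En.n l23908 (nat_lit 9607) (nat_lit 14) (nat_lit 6))
    (@En.n l1080 (nat_lit 8816) (nat_lit 12) (nat_lit 9))
    (@En.n l3 (nat_lit 8819) (nat_lit 15) (nat_lit 2))))
  (@Cl.mk (nat_lit 0x30009000900080006000b0007000b00070007000500080005000d000a0009) (nat_lit 0x3040600030831) (nat_lit 16) Lb.e (@T16.mk En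
    (@En.n l40148 (nat_lit 6461) (nat_lit 0) (nat_lit 9))
    (@En.n l40149 (nat_lit 9364) (nat_lit 12) (nat_lit 10))
    (@En.n l40150 (nat_lit 2597) (nat_lit 2) (nat_lit 13))
    (@En.n l1723 (nat_lit 5098) (nat_lit 3) (nat_lit 5))
    (@En.n l40151 (nat_lit 1415) (nat_lit 10) (nat_lit 8))
    (@En.i (nat_lit 11954) (nat_lit 5) (nat_lit 5))
    (@En.n l40152 (nat_lit 9350) (nat_lit 9) (nat_lit 7))
    (@En.n l28059 (nat_lit 8784) (nat_lit 7) (nat_lit 7))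
    (@En.n l15890 (nat_lit 7314) (nat_lit 8) (nat_lit 11))
    (@En.n l35368 (nat_lit 9313) (nat_lit 10) (nat_lit 7))
    (@En.n l40153 (nat_lit 9348) (nat_lit 11) (nat_lit 11))
    (@En.n l40154 (nat_lit 9353) (nat_lit 10) (nat_lit 6))
    (@En.n l18216 (nat_lit 8783) (nat_lit 8) (nat_lit 8))
    (@En.n l644 (nat_lit 9362) (nat_lit 7) (nat_lit 9))
    (@En.n l33044 (nat_lit 10070) (nat_lit 2) (nat_lit 9))
    (@En.n l40155 (nat_lit 8818) (nat_lit 15) (nat_lit 3))))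
  (@Cl.mk (nat_lit 0x50008000b00090008000800070005000a00080007000b0008000800060009) (nat_lit 0x337000065055004) (nat_lit 16) Lb.e (@T16.mk En
    (@En.i (nat_lit 1509) (nat_lit 9) (nat_lit 9))
    (@En.n l26107 (nat_lit 11952) (nat_lit 1) (nat_lit 6))
    (@En.n l26108 (nat_lit 8827) (nat_lit 8) (nat_lit 8))
    (@En.n l26109 (nat_lit 9589) (nat_lit 1) (nat_lit 8))
    (@En.n l12172 (nat_lit 8818) (nat_lit 8) (nat_lit 11))
    (@En.n l26110 (nat_lit 8820) (nat_lit 9) (nat_lit 7))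
    (@En.n l26111 (nat_lit 8826) (nat_lit 8) (nat_lit 8))
    (@En.n l26112 (nat_lit 8825) (nat_lit 10) (nat_lit 10))
    (@En.n l26113 (nat_lit 9453) (nat_lit 11) (nat_lit 5))
    (@En.n l26114 (nat_lit 8429) (nat_lit 9) (nat_lit 7))
    (@En.n l26115 (nat_lit 8828) (nat_lit 8) (nat_lit 8))
    (@En.i (nat_lit 10554) (nat_lit 8) (nat_lit 8))
    (@En.n l26116 (nat_lit 10044) (nat_lit 7) (nat_lit 9))
    (@En.n l2738 (nat_lit 9324) (nat_lit 7) (nat_lit 11))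
    (@En.i (nat_lit 3145) (nat_lit 10) (nat_lit 8))
    (@En.n l26117 (nat_lit 5101) (nat_lit 15) (nat_lit 5))))
  (@Cl.mk (nat_lit 0x3000a000a0008000b0007000a000600060005000b00080006000d00090005) (nat_lit 0x3505000550850) (nat_lit 16) Lb.e (@T16.mk En
    (@En.i (nat_lit 8220) (nat_lit 0) (nat_lit 5))
    (@En.n l20211 (nat_lit 8825) (nat_lit 0) (nat_lit 9))
    (@En.n l20212 (nat_lit 2596) (nat_lit 2) (nat_lit 13))
    (@En.n l3536 (nat_lit 5090) (nat_lit 3) (nat_lit 6))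
    (@En.n l20213 (nat_lit 8818) (nat_lit 4) (nat_lit 8))
    (@En.n l20214 (nat_lit 8823) (nat_lit 6) (nat_lit 11))
    (@En.n l20215 (nat_lit 10490) (nat_lit 11) (nat_lit 5))
    (@En.n l15203 (nat_lit 9262) (nat_lit 10) (nat_lit 6))
    (@En.n l20216 (nat_lit 8395) (nat_lit 8) (nat_lit 6))
    (@En.n l3866 (nat_lit 7324) (nat_lit 8) (nat_lit 10))
    (@En.n l20217 (nat_lit 9255) (nat_lit 11) (nat_lit 7))
    (@En.n l20211 (nat_lit 6764) (nat_lit 7) (nat_lit 11))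
    (@En.n l20218 (nat_lit 8435) (nat_lit 13) (nat_lit 8))
    (@En.n l20219 (nat_lit 9297) (nat_lit 6) (nat_lit 10))
    (@En.n l20220 (nat_lit 8838) (nat_lit 14) (nat_lit 10))
    (@En.n l20221 (nat_lit 9348) (nat_lit 15) (nat_lit 3))))
  (@Cl.mk (nat_lit 0x4000a000a000900050008000b00060006000b00070005000c00080005000b) (nat_lit 0x3045004007405) (nat_lit 16) Lb.e (@T16.mk En
    (@En.n l8558 (nat_lit 8818) (nat_lit 0) (nat_lit 11))
    (@En.n l35790 (nat_lit 9270) (nat_lit 1) (nat_lit 5))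
    (@En.n l35791 (nat_lit 8826) (nat_lit 0) (nat_lit 8))
    (@En.n l29959 (nat_lit 6891) (nat_lit 1) (nat_lit 12))
    (@En.n l4336 (nat_lit 5103) (nat_lit 11) (nat_lit 5))
    (@En.n l8553 (nat_lit 1409) (nat_lit 5) (nat_lit 7))
    (@En.n l35792 (nat_lit 9570) (nat_lit 9) (nat_lit 11))
    (@En.n l8555 (nat_lit 8829) (nat_lit 10) (nat_lit 6))
    (@En.n l35793 (nat_lit 8391) (nat_lit 8) (nat_lit 6))
    (@En.i (nat_lit 7350) (nat_lit 7) (nat_lit 11))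
    (@En.n l35794 (nat_lit 6896) (nat_lit 10) (nat_lit 8))
    (@En.n l2852 (nat_lit 9458) (nat_lit 2) (nat_lit 5))
    (@En.n l4380 (nat_lit 8436) (nat_lit 7) (nat_lit 9))
    (@En.n l134 (nat_lit 9300) (nat_lit 6) (nat_lit 10))
    (@En.n l35795 (nat_lit 10553) (nat_lit 2) (nat_lit 10))
    (@En.n l8556 (nat_lit 9313) (nat_lit 15) (nat_lit 4))))
  (@Cl.mk (nat_lit 0x2000600090006000d0009000c0003000900070004000a0007000a000e0007) (nat_lit 0x508330700305b0) (nat_lit 16) Lb.e (@T16.mk En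
    (@En.n l3333 (nat_lit 8818) (nat_lit 7) (nat_lit 7))
    (@En.n l862 (nat_lit 9046) (nat_lit 1) (nat_lit 14))
    (@En.n l2042 (nat_lit 7313) (nat_lit 2) (nat_lit 10))
    (@En.n l12295 (nat_lit 9300) (nat_lit 3) (nat_lit 7))
    (@En.n l2907 (nat_lit 9297) (nat_lit 4) (nat_lit 10))
    (@En.n l21590 (nat_lit 7470) (nat_lit 5) (nat_lit 4))
    (@En.n l15197 (nat_lit 5484) (nat_lit 6) (nat_lit 7))
    (@En.i (nat_lit 9544) (nat_lit 8) (nat_lit 9))
    (@En.n l10479 (nat_lit 9362) (nat_lit 8) (nat_lit 3))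
    (@En.n l15197 (nat_lit 9320) (nat_lit 10) (nat_lit 12))
    (@En.n l13349 (nat_lit 8828) (nat_lit 11) (nat_lit 9))
    (@En.n l39070 (nat_lit 7241) (nat_lit 12) (nat_lit 13))
    (@En.n l3178 (nat_lit 5102) (nat_lit 13) (nat_lit 6))
    (@En.n l3336 (nat_lit 1446) (nat_lit 9) (nat_lit 9))
    (@En.n l3340 (nat_lit 12012) (nat_lit 13) (nat_lit 6))
    (@En.n l3 (nat_lit 8824) (nat_lit 15) (nat_lit 2))))
  (@Cl.mk (nat_lit 0x4000a000900090007000a00070006000a000700070006000c000900060009) (nat_lit 0x800050060006504) (nat_lit 16) Lb.e (@T16.mk En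
    (@En.n l9565 (nat_lit 3134) (nat_lit 9) (nat_lit 9))
    (@En.n l30194 (nat_lit 5084) (nat_lit 1) (nat_lit 6))
    (@En.n l34783 (nat_lit 8821) (nat_lit 0) (nat_lit 9))
    (@En.n l34784 (nat_lit 8826) (nat_lit 3) (nat_lit 12))
    (@En.n l34785 (nat_lit 10491) (nat_lit 10) (nat_lit 6))
    (@En.n l77 (nat_lit 9263) (nat_lit 9) (nat_lit 7))
    (@En.n l6064 (nat_lit 9591) (nat_lit 6) (nat_lit 7))
    (@En.n l34786 (nat_lit 8822) (nat_lit 9) (nat_lit 10))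
    (@En.i (nat_lit 9348) (nat_lit 10) (nat_lit 6))
    (@En.n l34787 (nat_lit 9260) (nat_lit 9) (nat_lit 7))
    (@En.i (nat_lit 6765) (nat_lit 8) (nat_lit 10))
    (@En.n l15696 (nat_lit 8428) (nat_lit 9) (nat_lit 7))
    (@En.n l26945 (nat_lit 9298) (nat_lit 7) (nat_lit 9))
    (@En.n l9565 (nat_lit 8837) (nat_lit 7) (nat_lit 9))
    (@En.n l15698 (nat_lit 10042) (nat_lit 11) (nat_lit 10))
    (@En.n l15699 (nat_lit 9590) (nat_lit 15) (nat_lit 4))))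
  (@Cl.mk (nat_lit 0x4000b000a000900090008000500080006000b00070007000c000800050008) (nat_lit 0x460030406005403) (nat_lit 16) Lb.e (@T16.mk En
    (@En.n l7889 (nat_lit 2990) (nat_lit 10) (nat_lit 8))
    (@En.n l40156 (nat_lit 5106) (nat_lit 1) (nat_lit 5))
    (@En.n l40157 (nat_lit 1508) (nat_lit 0) (nat_lit 8))
    (@En.n l40158 (nat_lit 9715) (nat_lit 1) (nat_lit 12))
    (@En.n l31113 (nat_lit 9628) (nat_lit 9) (nat_lit 7))
    (@En.i (nat_lit 9590) (nat_lit 5) (nat_lit 7))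
    (@En.n l40159 (nat_lit 8823) (nat_lit 9) (nat_lit 11))
    (@En.n l15113 (nat_lit 9315) (nat_lit 7) (nat_lit 6))
    (@En.n l40160 (nat_lit 8275) (nat_lit 10) (nat_lit 8))
    (@En.n l24406 (nat_lit 9452) (nat_lit 9) (nat_lit 5))
    (@En.n l40161 (nat_lit 8427) (nat_lit 8) (nat_lit 8))
    (@En.n l40162 (nat_lit 9301) (nat_lit 7) (nat_lit 9))
    (@En.n l39216 (nat_lit 10552) (nat_lit 7) (nat_lit 9))
    (@En.n l16898 (nat_lit 9372) (nat_lit 6) (nat_lit 10))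
    (@En.n l26175 (nat_lit 8821) (nat_lit 13) (nat_lit 11))
    (@En.n l40163 (nat_lit 9455) (nat_lit 15) (nat_lit 4))))
  (@Cl.mk (nat_lit 0x200080006000b00090008000c00080005000800040007000a0008000e0008) (nat_lit 0x507748603003551) (nat_lit 16) Lb.e (@T16.mk En
    (@En.n l25207 (nat_lit 8821) (nat_lit 11) (nat_lit 8))
    (@En.n l10072 (nat_lit 4539) (nat_lit 1) (nat_lit 14))
    (@En.n l25208 (nat_lit 10091) (nat_lit 2) (nat_lit 8))
    (@En.n l25209 (nat_lit 12843) (nat_lit 3) (nat_lit 10))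
    (@En.n l25210 (nat_lit 4213) (nat_lit 4) (nat_lit 7))
    (@En.n l23906 (nat_lit 5100) (nat_lit 5) (nat_lit 4))
    (@En.n l25211 (nat_lit 1391) (nat_lit 6) (nat_lit 8))
    (@En.n l11 (nat_lit 9582) (nat_lit 7) (nat_lit 5))
    (@En.n l25212 (nat_lit 10392) (nat_lit 9) (nat_lit 8))
    (@En.n l50 (nat_lit 8819) (nat_lit 10) (nat_lit 12))
    (@En.n l23753 (nat_lit 9350) (nat_lit 11) (nat_lit 8))
    (@En.n l25213 (nat_lit 9628) (nat_lit 12) (nat_lit 9))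
    (@En.n l23907 (nat_lit 9263) (nat_lit 13) (nat_lit 11))
    (@En.n l25214 (nat_lit 9606) (nat_lit 14) (nat_lit 6))
    (@En.n l1080 (nat_lit 8432) (nat_lit 6) (nat_lit 8))
    (@En.n l3 (nat_lit 8827) (nat_lit 15) (nat_lit 2))))
  (@Cl.mk (nat_lit 0x20007000a00060009000c000a000800060004000900070006000a000e0008) (nat_lit 0x50237600500626) (nat_lit 16) Lb.e (@T16.mk En
    (@En.n l26159 (nat_lit 8821) (nat_lit 3) (nat_lit 8))
    (@En.n l26160 (nat_lit 6390) (nat_lit 1) (nat_lit 14))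
    (@En.n l26161 (nat_lit 8824) (nat_lit 2) (nat_lit 10))
    (@En.i (nat_lit 9362) (nat_lit 3) (nat_lit 6))
    (@En.n l11864 (nat_lit 9301) (nat_lit 4) (nat_lit 7))
    (@En.n l4819 (nat_lit 9298) (nat_lit 5) (nat_lit 9))
    (@En.n l21497 (nat_lit 9451) (nat_lit 6) (nat_lit 4))
    (@En.i (nat_lit 5490) (nat_lit 7) (nat_lit 6))
    (@En.n l26159 (nat_lit 8843) (nat_lit 1) (nat_lit 8))
    (@En.n l68 (nat_lit 10043) (nat_lit 10) (nat_lit 10))
    (@En.n l3866 (nat_lit 9321) (nat_lit 6) (nat_lit 12))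
    (@En.n l26159 (nat_lit 3142) (nat_lit 12) (nat_lit 9))
    (@En.n l1723 (nat_lit 2892) (nat_lit 13) (nat_lit 6))
    (@En.n l2299 (nat_lit 1510) (nat_lit 8) (nat_lit 10))
    (@En.i (nat_lit 11611) (nat_lit 13) (nat_lit 7))
    (@En.n l50 (nat_lit 8828) (nat_lit 15) (nat_lit 2))))
  (@Cl.mk (nat_lit 0x2000a00060009000c0006000b00060004000c00070005000a0004000e000a) (nat_lit 0x506503006007011) (nat_lit 16) Lb.e (@T16.mk En
    (@En.n l3492 (nat_lit 8823) (nat_lit 14) (nat_lit 10))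
    (@En.n l645 (nat_lit 4540) (nat_lit 1) (nat_lit 14))
    (@En.i (nat_lit 9520) (nat_lit 2) (nat_lit 4))
    (@En.n l2322 (nat_lit 8819) (nat_lit 3) (nat_lit 10))
    (@En.n l22468 (nat_lit 9559) (nat_lit 4) (nat_lit 5))
    (@En.n l22469 (nat_lit 9628) (nat_lit 5) (nat_lit 7))
    (@En.n l8033 (nat_lit 6486) (nat_lit 7) (nat_lit 12))
    (@En.n l3489 (nat_lit 5104) (nat_lit 7) (nat_lit 4))
    (@En.n l22470 (nat_lit 1393) (nat_lit 8) (nat_lit 6))
    (@En.n l22468 (nat_lit 12715) (nat_lit 10) (nat_lit 11))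
    (@En.n l14450 (nat_lit 10371) (nat_lit 11) (nat_lit 6))
    (@En.i (nat_lit 7351) (nat_lit 6) (nat_lit 12))
    (@En.n l13491 (nat_lit 9250) (nat_lit 9) (nat_lit 9))
    (@En.n l22471 (nat_lit 9608) (nat_lit 14) (nat_lit 6))
    (@En.n l3491 (nat_lit 8390) (nat_lit 12) (nat_lit 10))
    (@En.n l7 (nat_lit 8829) (nat_lit 15) (nat_lit 2))))
  (@Cl.mk (nat_lit 0x400080007000b0006000b0007000a0005000800050009000c0006000a0009) (nat_lit 0x604080600028077) (nat_lit 16) Lb.e (@T16.mk En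
    (@En.n l1791 (nat_lit 8464) (nat_lit 0) (nat_lit 9))
    (@En.n l39049 (nat_lit 8461) (nat_lit 9) (nat_lit 10))
    (@En.n l39050 (nat_lit 10722) (nat_lit 11) (nat_lit 6))
    (@En.i (nat_lit 5386) (nat_lit 6) (nat_lit 12))
    (@En.n l12720 (nat_lit 6726) (nat_lit 10) (nat_lit 9))
    (@En.n l26513 (nat_lit 8431) (nat_lit 5) (nat_lit 5))
    (@En.n l4939 (nat_lit 11425) (nat_lit 10) (nat_lit 8))
    (@En.n l39051 (nat_lit 8496) (nat_lit 7) (nat_lit 5))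
    (@En.n l39052 (nat_lit 8144) (nat_lit 8) (nat_lit 10))
    (@En.n l39053 (nat_lit 1300) (nat_lit 1) (nat_lit 7))
    (@En.n l26516 (nat_lit 11118) (nat_lit 2) (nat_lit 11))
    (@En.n l39054 (nat_lit 10651) (nat_lit 5) (nat_lit 6))
    (@En.n l39055 (nat_lit 8831) (nat_lit 8) (nat_lit 11))
    (@En.n l3173 (nat_lit 8465) (nat_lit 9) (nat_lit 7))
    (@En.n l39056 (nat_lit 8832) (nat_lit 11) (nat_lit 8))
    (@En.n l39057 (nat_lit 6271) (nat_lit 15) (nat_lit 4))))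
  (@Cl.mk (nat_lit 0x3000c0007000b000a00040008000b0005000a000600090005000d00080006) (nat_lit 0x908805307050410) (nat_lit 16) Lb.e (@T16.mk En
    (@En.n l2582 (nat_lit 8993) (nat_lit 0) (nat_lit 6))
    (@En.n l23657 (nat_lit 8830) (nat_lit 6) (nat_lit 8))
    (@En.n l23658 (nat_lit 10896) (nat_lit 2) (nat_lit 13))
    (@En.n l23659 (nat_lit 8495) (nat_lit 3) (nat_lit 5))
    (@En.i (nat_lit 6417) (nat_lit 9) (nat_lit 9))
    (@En.n l23660 (nat_lit 1301) (nat_lit 5) (nat_lit 6))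
    (@En.n l2582 (nat_lit 11119) (nat_lit 12) (nat_lit 10))
    (@En.n l23661 (nat_lit 10659) (nat_lit 7) (nat_lit 5))
    (@En.n l1208 (nat_lit 6330) (nat_lit 7) (nat_lit 11))
    (@En.n l9769 (nat_lit 8834) (nat_lit 11) (nat_lit 8))
    (@En.n l23660 (nat_lit 6269) (nat_lit 10) (nat_lit 4))
    (@En.n l23662 (nat_lit 8463) (nat_lit 0) (nat_lit 10))
    (@En.n l23663 (nat_lit 8460) (nat_lit 8) (nat_lit 11))
    (@En.n l23664 (nat_lit 10723) (nat_lit 14) (nat_lit 7))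
    (@En.n l23665 (nat_lit 1744) (nat_lit 3) (nat_lit 12))
    (@En.n l23666 (nat_lit 8465) (nat_lit 15) (nat_lit 3))))
noncomputable def a552 : T16 Cl := @T16.mk Cl
  (@Cl.mk (nat_lit 0x30007000b000a00080006000b0005000a0006000900050008000d0006000a) (nat_lit 0x75505070605502) (nat_lit 16) Lb.e (@T16.mk En
    (@En.i (nat_lit 6567) (nat_lit 0) (nat_lit 10))
    (@En.n l38180 (nat_lit 8838) (nat_lit 8) (nat_lit 6))
    (@En.n l38181 (nat_lit 8465) (nat_lit 2) (nat_lit 13))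
    (@En.n l38182 (nat_lit 11451) (nat_lit 10) (nat_lit 8))
    (@En.n l38183 (nat_lit 7959) (nat_lit 4) (nat_lit 5))
    (@En.n l38184 (nat_lit 7097) (nat_lit 9) (nat_lit 9))
    (@En.n l2907 (nat_lit 977) (nat_lit 6) (nat_lit 6))
    (@En.n l35988 (nat_lit 9939) (nat_lit 2) (nat_lit 10))
    (@En.n l22448 (nat_lit 10625) (nat_lit 8) (nat_lit 5))
    (@En.n l38185 (nat_lit 8834) (nat_lit 10) (nat_lit 11))
    (@En.n l38185 (nat_lit 6866) (nat_lit 10) (nat_lit 6))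
    (@En.n l38186 (nat_lit 11953) (nat_lit 12) (nat_lit 8))
    (@En.n l50 (nat_lit 9544) (nat_lit 13) (nat_lit 10))
    (@En.n l38187 (nat_lit 9543) (nat_lit 8) (nat_lit 11))
    (@En.n l38188 (nat_lit 10025) (nat_lit 12) (nat_lit 7))
    (@En.n l38189 (nat_lit 8833) (nat_lit 15) (nat_lit 3))))
  (@Cl.mk (nat_lit 0x30007000b000a00080007000b000500090006000900050008000d00090007) (nat_lit 0x76604020605500) (nat_lit 16) Lb.e (@T16.mk En
    (@En.n l32259 (nat_lit 4543) (nat_lit 0) (nat_lit 7))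
    (@En.i (nat_lit 9840) (nat_lit 13) (nat_lit 9))
    (@En.n l43464 (nat_lit 8831) (nat_lit 2) (nat_lit 13))
    (@En.n l23500 (nat_lit 11453) (nat_lit 10) (nat_lit 8))
    (@En.n l11386 (nat_lit 7957) (nat_lit 4) (nat_lit 5))
    (@En.n l1723 (nat_lit 7101) (nat_lit 9) (nat_lit 9))
    (@En.n l6042 (nat_lit 371) (nat_lit 6) (nat_lit 6))
    (@En.n l2869 (nat_lit 10515) (nat_lit 10) (nat_lit 9))
    (@En.n l6081 (nat_lit 10623) (nat_lit 8) (nat_lit 5))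
    (@En.n l3 (nat_lit 8835) (nat_lit 8) (nat_lit 11))
    (@En.n l3 (nat_lit 8836) (nat_lit 9) (nat_lit 7))
    (@En.n l43465 (nat_lit 11954) (nat_lit 12) (nat_lit 8))
    (@En.n l43298 (nat_lit 8841) (nat_lit 13) (nat_lit 10))
    (@En.n l601 (nat_lit 9546) (nat_lit 8) (nat_lit 11))
    (@En.n l32261 (nat_lit 2834) (nat_lit 12) (nat_lit 7))
    (@En.n l34971 (nat_lit 8832) (nat_lit 15) (nat_lit 3))))
  (@Cl.mk (nat_lit 0x30008000c000b0008000b00040009000500080005000c0008000d00070004) (nat_lit 0x385440604046800) (nat_lit 16) Lb.e (@T16.mk En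
    (@En.n l17998 (nat_lit 6863) (nat_lit 0) (nat_lit 4))
    (@En.i (nat_lit 8837) (nat_lit 0) (nat_lit 7))
    (@En.n l26539 (nat_lit 6329) (nat_lit 1) (nat_lit 13))
    (@En.n l34971 (nat_lit 8832) (nat_lit 3) (nat_lit 8))
    (@En.n l30753 (nat_lit 10305) (nat_lit 5) (nat_lit 12))
    (@En.n l11386 (nat_lit 7955) (nat_lit 5) (nat_lit 5))
    (@En.n l1723 (nat_lit 7096) (nat_lit 10) (nat_lit 8))
    (@En.n l6042 (nat_lit 373) (nat_lit 7) (nat_lit 5))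
    (@En.n l2943 (nat_lit 9473) (nat_lit 0) (nat_lit 9))
    (@En.n l34972 (nat_lit 10450) (nat_lit 9) (nat_lit 4))
    (@En.i (nat_lit 3865) (nat_lit 7) (nat_lit 11))
    (@En.n l200 (nat_lit 10490) (nat_lit 1) (nat_lit 8))
    (@En.n l5838 (nat_lit 8843) (nat_lit 5) (nat_lit 11))
    (@En.n l601 (nat_lit 9540) (nat_lit 7) (nat_lit 12))
    (@En.n l287 (nat_lit 10026) (nat_lit 12) (nat_lit 8))
    (@En.n l11 (nat_lit 8835) (nat_lit 13) (nat_lit 3))))
  (@Cl.mk (nat_lit 0x3000800030008000c000b0008000b00040008000500080005000d0008000d) (nat_lit 0x302865300040468) (nat_lit 16) Lb.e (@T16.mk En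
    (@En.n l9060 (nat_lit 6330) (nat_lit 0) (nat_lit 13))
    (@En.i (nat_lit 8833) (nat_lit 3) (nat_lit 8))
    (@En.i (nat_lit 10312) (nat_lit 2) (nat_lit 13))
    (@En.n l11386 (nat_lit 7956) (nat_lit 3) (nat_lit 5))
    (@En.n l1723 (nat_lit 7099) (nat_lit 10) (nat_lit 8))
    (@En.n l6042 (nat_lit 369) (nat_lit 7) (nat_lit 5))
    (@En.n l2869 (nat_lit 10513) (nat_lit 6) (nat_lit 8))
    (@En.n l6081 (nat_lit 10451) (nat_lit 7) (nat_lit 4))
    (@En.i (nat_lit 4288) (nat_lit 7) (nat_lit 11))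
    (@En.n l3098 (nat_lit 10492) (nat_lit 1) (nat_lit 8))
    (@En.n l5838 (nat_lit 8842) (nat_lit 5) (nat_lit 11))
    (@En.n l601 (nat_lit 9550) (nat_lit 7) (nat_lit 12))
    (@En.n l1353 (nat_lit 4305) (nat_lit 13) (nat_lit 8))
    (@En.i (nat_lit 8834) (nat_lit 15) (nat_lit 3))
    (@En.n l2869 (nat_lit 4544) (nat_lit 0) (nat_lit 8))
    (@En.n l117 (nat_lit 8836) (nat_lit 15) (nat_lit 3))))
  (@Cl.mk (nat_lit 0x3000800040008000c000b0007000b00040008000500080005000d000c0009) (nat_lit 0x302870304040457) (nat_lit 16) Lb.e (@T16.mk En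
    (@En.i (nat_lit 9839) (nat_lit 0) (nat_lit 9))
    (@En.n l619 (nat_lit 8834) (nat_lit 4) (nat_lit 12))
    (@En.i (nat_lit 10310) (nat_lit 2) (nat_lit 13))
    (@En.n l11386 (nat_lit 7958) (nat_lit 3) (nat_lit 5))
    (@En.n l1723 (nat_lit 7100) (nat_lit 10) (nat_lit 8))
    (@En.n l6042 (nat_lit 367) (nat_lit 5) (nat_lit 5))
    (@En.i (nat_lit 10514) (nat_lit 6) (nat_lit 8))
    (@En.i (nat_lit 10622) (nat_lit 7) (nat_lit 4))
    (@En.i (nat_lit 4275) (nat_lit 8) (nat_lit 11))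
    (@En.i (nat_lit 10400) (nat_lit 1) (nat_lit 7))
    (@En.n l5838 (nat_lit 9554) (nat_lit 5) (nat_lit 11))
    (@En.n l601 (nat_lit 9552) (nat_lit 7) (nat_lit 12))
    (@En.n l22625 (nat_lit 4304) (nat_lit 13) (nat_lit 8))
    (@En.i (nat_lit 6866) (nat_lit 14) (nat_lit 4))
    (@En.n l3517 (nat_lit 8840) (nat_lit 0) (nat_lit 8))
    (@En.n l152 (nat_lit 8835) (nat_lit 15) (nat_lit 3))))
  (@Cl.mk (nat_lit 0x300080007000c000a0007000a000400090008000600090006000d00090007) (nat_lit 0x307402071040700) (nat_lit 16) Lb.e (@T16.mk En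
    (@En.n l24454 (nat_lit 8992) (nat_lit 0) (nat_lit 7))
    (@En.i (nat_lit 8838) (nat_lit 9) (nat_lit 9))
    (@En.i (nat_lit 10920) (nat_lit 2) (nat_lit 13))
    (@En.n l11386 (nat_lit 7961) (nat_lit 3) (nat_lit 6))
    (@En.n l1723 (nat_lit 7106) (nat_lit 9) (nat_lit 9))
    (@En.n l34844 (nat_lit 8831) (nat_lit 5) (nat_lit 6))
    (@En.i (nat_lit 8835) (nat_lit 6) (nat_lit 8))
    (@En.n l2869 (nat_lit 9721) (nat_lit 8) (nat_lit 9))
    (@En.n l6081 (nat_lit 10949) (nat_lit 8) (nat_lit 4))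
    (@En.i (nat_lit 1317) (nat_lit 8) (nat_lit 10))
    (@En.n l15749 (nat_lit 10491) (nat_lit 1) (nat_lit 7))
    (@En.n l5838 (nat_lit 10554) (nat_lit 12) (nat_lit 10))
    (@En.n l601 (nat_lit 10552) (nat_lit 13) (nat_lit 12))
    (@En.n l15752 (nat_lit 10028) (nat_lit 14) (nat_lit 7))
    (@En.n l2943 (nat_lit 4538) (nat_lit 5) (nat_lit 8))
    (@En.n l117 (nat_lit 8839) (nat_lit 15) (nat_lit 3))))
  (@Cl.mk (nat_lit 0x5000a00090007000a000600090006000a00070006000b000900070006000a) (nat_lit 0x830407000064003) (nat_lit 16) Lb.e (@T16.mk En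
    (@En.n l3 (nat_lit 8837) (nat_lit 9) (nat_lit 10))
    (@En.n l3 (nat_lit 8839) (nat_lit 10) (nat_lit 6))
    (@En.n l200 (nat_lit 11952) (nat_lit 9) (nat_lit 7))
    (@En.n l36022 (nat_lit 10555) (nat_lit 7) (nat_lit 9))
    (@En.n l35877 (nat_lit 10553) (nat_lit 9) (nat_lit 11))
    (@En.n l15752 (nat_lit 10023) (nat_lit 10) (nat_lit 6))
    (@En.n l20184 (nat_lit 4537) (nat_lit 9) (nat_lit 7))
    (@En.n l36023 (nat_lit 9389) (nat_lit 9) (nat_lit 10))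
    (@En.n l36024 (nat_lit 8394) (nat_lit 8) (nat_lit 6))
    (@En.n l36025 (nat_lit 11449) (nat_lit 9) (nat_lit 9))
    (@En.n l11386 (nat_lit 9413) (nat_lit 1) (nat_lit 6))
    (@En.n l1723 (nat_lit 7986) (nat_lit 8) (nat_lit 10))
    (@En.n l36026 (nat_lit 8830) (nat_lit 9) (nat_lit 7))
    (@En.i (nat_lit 8833) (nat_lit 7) (nat_lit 9))
    (@En.n l20184 (nat_lit 9720) (nat_lit 10) (nat_lit 10))
    (@En.n l36023 (nat_lit 10733) (nat_lit 15) (nat_lit 5))))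
  (@Cl.mk (nat_lit 0x300080007000c000a0006000a0004000a0008000600090006000d0006000a) (nat_lit 0x206302085040700) (nat_lit 16) Lb.e (@T16.mk En
    (@En.n l3491 (nat_lit 9868) (nat_lit 0) (nat_lit 10))
    (@En.n l34538 (nat_lit 8825) (nat_lit 8) (nat_lit 6))
    (@En.n l34539 (nat_lit 10922) (nat_lit 2) (nat_lit 13))
    (@En.n l11386 (nat_lit 9412) (nat_lit 3) (nat_lit 6))
    (@En.n l1723 (nat_lit 7985) (nat_lit 9) (nat_lit 9))
    (@En.n l34540 (nat_lit 8465) (nat_lit 5) (nat_lit 6))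
    (@En.i (nat_lit 8836) (nat_lit 6) (nat_lit 8))
    (@En.n l34541 (nat_lit 9724) (nat_lit 8) (nat_lit 10))
    (@En.n l34542 (nat_lit 10944) (nat_lit 8) (nat_lit 4))
    (@En.i (nat_lit 1315) (nat_lit 9) (nat_lit 10))
    (@En.n l18763 (nat_lit 10379) (nat_lit 1) (nat_lit 6))
    (@En.n l5838 (nat_lit 10556) (nat_lit 12) (nat_lit 10))
    (@En.n l18758 (nat_lit 10557) (nat_lit 13) (nat_lit 12))
    (@En.n l34543 (nat_lit 10032) (nat_lit 14) (nat_lit 7))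
    (@En.n l3517 (nat_lit 10566) (nat_lit 12) (nat_lit 8))
    (@En.n l152 (nat_lit 8837) (nat_lit 15) (nat_lit 3))))
  (@Cl.mk (nat_lit 0x30007000c000a0006000a00040008000c0006000900060004000d000a0008) (nat_lit 0x23040590300802) (nat_lit 16) Lb.e (@T16.mk En
    (@En.n l5777 (nat_lit 10342) (nat_lit 0) (nat_lit 8))
    (@En.i (nat_lit 9841) (nat_lit 14) (nat_lit 10))
    (@En.n l5347 (nat_lit 8837) (nat_lit 2) (nat_lit 13))
    (@En.n l28285 (nat_lit 11958) (nat_lit 3) (nat_lit 4))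
    (@En.n l5646 (nat_lit 9411) (nat_lit 4) (nat_lit 6))
    (@En.n l8776 (nat_lit 11215) (nat_lit 9) (nat_lit 9))
    (@En.n l21574 (nat_lit 8833) (nat_lit 6) (nat_lit 6))
    (@En.n l38177 (nat_lit 7279) (nat_lit 7) (nat_lit 12))
    (@En.n l387 (nat_lit 9813) (nat_lit 11) (nat_lit 8))
    (@En.i (nat_lit 11474) (nat_lit 9) (nat_lit 4))
    (@En.i (nat_lit 4229) (nat_lit 0) (nat_lit 10))
    (@En.n l8776 (nat_lit 10398) (nat_lit 1) (nat_lit 6))
    (@En.n l38178 (nat_lit 10570) (nat_lit 13) (nat_lit 10))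
    (@En.n l38179 (nat_lit 10571) (nat_lit 14) (nat_lit 12))
    (@En.n l8776 (nat_lit 4315) (nat_lit 12) (nat_lit 7))
    (@En.n l9866 (nat_lit 10567) (nat_lit 15) (nat_lit 3))))
  (@Cl.mk (nat_lit 0x30007000a00070006000a000d000800060003000900060009000d000a0008) (nat_lit 0x50043500706612) (nat_lit 16) Lb.e (@T16.mk En
    (@En.n l619 (nat_lit 4541) (nat_lit 0) (nat_lit 8))
    (@En.n l10040 (nat_lit 7189) (nat_lit 11) (nat_lit 10))
    (@En.n l1110 (nat_lit 8463) (nat_lit 6) (nat_lit 13))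
    (@En.n l38714 (nat_lit 11452) (nat_lit 9) (nat_lit 9))
    (@En.n l35650 (nat_lit 9546) (nat_lit 14) (nat_lit 6))
    (@En.n l38715 (nat_lit 8833) (nat_lit 5) (nat_lit 9))
    (@En.n l38716 (nat_lit 9545) (nat_lit 6) (nat_lit 3))
    (@En.n l23098 (nat_lit 913) (nat_lit 0) (nat_lit 6))
    (@En.n l38717 (nat_lit 10512) (nat_lit 9) (nat_lit 8))
    (@En.i (nat_lit 11591) (nat_lit 5) (nat_lit 13))
    (@En.n l4817 (nat_lit 8842) (nat_lit 3) (nat_lit 10))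
    (@En.n l4817 (nat_lit 9554) (nat_lit 4) (nat_lit 6))
    (@En.n l17 (nat_lit 12013) (nat_lit 5) (nat_lit 7))
    (@En.n l12585 (nat_lit 7852) (nat_lit 8) (nat_lit 10))
    (@En.i (nat_lit 2828) (nat_lit 7) (nat_lit 7))
    (@En.n l1106 (nat_lit 9544) (nat_lit 15) (nat_lit 3))))
  (@Cl.mk (nat_lit 0x300080006000d0009000d0003000900030008000b0007000a000d00070005) (nat_lit 0x505740302503200) (nat_lit 16) Lb.e (@T16.mk En
    (@En.n l7 (nat_lit 911) (nat_lit 0) (nat_lit 5))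
    (@En.n l8523 (nat_lit 10511) (nat_lit 7) (nat_lit 7))
    (@En.n l2738 (nat_lit 4708) (nat_lit 5) (nat_lit 13))
    (@En.i (nat_lit 4287) (nat_lit 8) (nat_lit 10))
    (@En.n l396 (nat_lit 11629) (nat_lit 4) (nat_lit 7))
    (@En.i (nat_lit 7854) (nat_lit 7) (nat_lit 11))
    (@En.n l9226 (nat_lit 4308) (nat_lit 6) (nat_lit 8))
    (@En.i (nat_lit 8843) (nat_lit 7) (nat_lit 3))
    (@En.i (nat_lit 4540) (nat_lit 0) (nat_lit 9))
    (@En.n l117 (nat_lit 9554) (nat_lit 9) (nat_lit 3))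
    (@En.n l158 (nat_lit 6328) (nat_lit 0) (nat_lit 13))
    (@En.n l4589 (nat_lit 8841) (nat_lit 3) (nat_lit 9))
    (@En.n l3955 (nat_lit 10313) (nat_lit 13) (nat_lit 13))
    (@En.n l13384 (nat_lit 9550) (nat_lit 14) (nat_lit 6))
    (@En.n l6204 (nat_lit 8835) (nat_lit 4) (nat_lit 8))
    (@En.n l9880 (nat_lit 9549) (nat_lit 5) (nat_lit 3))))
  (@Cl.mk (nat_lit 0x300080006000c0009000d0008000400030008000b0007000a000d00080005) (nat_lit 0x505044002403250) (nat_lit 16) Lb.e (@T16.mk En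
    (@En.n l7 (nat_lit 915) (nat_lit 0) (nat_lit 5))
    (@En.n l8513 (nat_lit 9949) (nat_lit 0) (nat_lit 8))
    (@En.n l129 (nat_lit 4710) (nat_lit 5) (nat_lit 13))
    (@En.i (nat_lit 3864) (nat_lit 8) (nat_lit 10))
    (@En.n l591 (nat_lit 12010) (nat_lit 4) (nat_lit 7))
    (@En.i (nat_lit 7857) (nat_lit 7) (nat_lit 11))
    (@En.n l287 (nat_lit 10029) (nat_lit 6) (nat_lit 8))
    (@En.n l11 (nat_lit 8842) (nat_lit 7) (nat_lit 3))
    (@En.n l23685 (nat_lit 9532) (nat_lit 0) (nat_lit 4))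
    (@En.i (nat_lit 10554) (nat_lit 0) (nat_lit 8))
    (@En.n l129 (nat_lit 6326) (nat_lit 1) (nat_lit 13))
    (@En.n l10344 (nat_lit 9544) (nat_lit 3) (nat_lit 9))
    (@En.n l23686 (nat_lit 10306) (nat_lit 13) (nat_lit 12))
    (@En.n l13384 (nat_lit 9540) (nat_lit 14) (nat_lit 6))
    (@En.n l6204 (nat_lit 8834) (nat_lit 6) (nat_lit 8))
    (@En.n l23687 (nat_lit 9538) (nat_lit 15) (nat_lit 3))))
  (@Cl.mk (nat_lit 0x20007000d000700050003000e000c0002000c0009000400090004000e000b) (nat_lit 0x200021061070b2) (nat_lit 16) Lb.e (@T16.mk En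
    (@En.n l2938 (nat_lit 7368) (nat_lit 9) (nat_lit 11))
    (@En.i (nat_lit 1100) (nat_lit 1) (nat_lit 14))
    (@En.n l18 (nat_lit 7586) (nat_lit 2) (nat_lit 4))
    (@En.n l2943 (nat_lit 10931) (nat_lit 3) (nat_lit 9))
    (@En.n l2351 (nat_lit 8266) (nat_lit 4) (nat_lit 4))
    (@En.n l61 (nat_lit 4013) (nat_lit 5) (nat_lit 9))
    (@En.i (nat_lit 7597) (nat_lit 7) (nat_lit 12))
    (@En.n l7 (nat_lit 8844) (nat_lit 7) (nat_lit 2))
    (@En.n l9934 (nat_lit 8267) (nat_lit 9) (nat_lit 12))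
    (@En.n l287 (nat_lit 8556) (nat_lit 1) (nat_lit 14))
    (@En.n l11 (nat_lit 8845) (nat_lit 10) (nat_lit 3))
    (@En.n l2351 (nat_lit 4619) (nat_lit 3) (nat_lit 5))
    (@En.i (nat_lit 9152) (nat_lit 13) (nat_lit 7))
    (@En.n l2351 (nat_lit 3893) (nat_lit 6) (nat_lit 13))
    (@En.i (nat_lit 9827) (nat_lit 6) (nat_lit 7))
    (@En.n l3 (nat_lit 8844) (nat_lit 15) (nat_lit 2))))
  (@Cl.mk (nat_lit 0x20007000d000400080003000e000c0002000c0009000400080004000e000c) (nat_lit 0x3010990220209a) (nat_lit 16) Lb.e (@T16.mk En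
    (@En.i (nat_lit 8847) (nat_lit 9) (nat_lit 12))
    (@En.i (nat_lit 1242) (nat_lit 1) (nat_lit 14))
    (@En.n l18 (nat_lit 7585) (nat_lit 2) (nat_lit 4))
    (@En.n l2869 (nat_lit 7065) (nat_lit 3) (nat_lit 8))
    (@En.n l3348 (nat_lit 8850) (nat_lit 4) (nat_lit 4))
    (@En.n l61 (nat_lit 7270) (nat_lit 5) (nat_lit 9))
    (@En.i (nat_lit 4291) (nat_lit 7) (nat_lit 12))
    (@En.n l7 (nat_lit 8845) (nat_lit 7) (nat_lit 2))
    (@En.n l9926 (nat_lit 8846) (nat_lit 9) (nat_lit 12))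
    (@En.i (nat_lit 5977) (nat_lit 1) (nat_lit 14))
    (@En.i (nat_lit 8844) (nat_lit 10) (nat_lit 3))
    (@En.n l7882 (nat_lit 5317) (nat_lit 12) (nat_lit 8))
    (@En.n l117 (nat_lit 8848) (nat_lit 4) (nat_lit 4))
    (@En.n l3348 (nat_lit 3892) (nat_lit 6) (nat_lit 13))
    (@En.i (nat_lit 9825) (nat_lit 6) (nat_lit 7))
    (@En.n l3 (nat_lit 8845) (nat_lit 15) (nat_lit 2))))
  (@Cl.mk (nat_lit 0x20008000d000400080003000c000c000b00080004000400080005000e000c) (nat_lit 0x130108a5300309a) (nat_lit 16) Lb.e (@T16.mk En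
    (@En.n l396 (nat_lit 8813) (nat_lit 3) (nat_lit 12))
    (@En.i (nat_lit 1228) (nat_lit 1) (nat_lit 14))
    (@En.n l26965 (nat_lit 6766) (nat_lit 2) (nat_lit 5))
    (@En.n l287 (nat_lit 9573) (nat_lit 3) (nat_lit 8))
    (@En.n l5760 (nat_lit 8845) (nat_lit 4) (nat_lit 4))
    (@En.n l152 (nat_lit 8863) (nat_lit 5) (nat_lit 4))
    (@En.n l1101 (nat_lit 7271) (nat_lit 6) (nat_lit 8))
    (@En.n l55 (nat_lit 8858) (nat_lit 8) (nat_lit 11))
    (@En.n l619 (nat_lit 8914) (nat_lit 4) (nat_lit 12))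
    (@En.i (nat_lit 9161) (nat_lit 10) (nat_lit 12))
    (@En.n l2364 (nat_lit 8267) (nat_lit 10) (nat_lit 3))
    (@En.i (nat_lit 4482) (nat_lit 12) (nat_lit 8))
    (@En.n l2753 (nat_lit 8849) (nat_lit 13) (nat_lit 4))
    (@En.i (nat_lit 3806) (nat_lit 14) (nat_lit 13))
    (@En.n l14808 (nat_lit 7956) (nat_lit 1) (nat_lit 8))
    (@En.n l50 (nat_lit 8846) (nat_lit 15) (nat_lit 2))))
  (@Cl.mk (nat_lit 0x2000c000a000400080004000c000c0006000c0004000400080004000e000c) (nat_lit 0x860309704002056) (nat_lit 16) Lb.e (@T16.mk En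
    (@En.n l8050 (nat_lit 8813) (nat_lit 11) (nat_lit 12))
    (@En.i (nat_lit 7877) (nat_lit 1) (nat_lit 14))
    (@En.n l2938 (nat_lit 7368) (nat_lit 2) (nat_lit 4))
    (@En.n l899 (nat_lit 10329) (nat_lit 3) (nat_lit 8))
    (@En.n l152 (nat_lit 8845) (nat_lit 12) (nat_lit 4))
    (@En.n l3851 (nat_lit 8853) (nat_lit 5) (nat_lit 4))
    (@En.n l3523 (nat_lit 3066) (nat_lit 7) (nat_lit 12))
    (@En.i (nat_lit 9340) (nat_lit 7) (nat_lit 6))
    (@En.n l3536 (nat_lit 10750) (nat_lit 4) (nat_lit 12))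
    (@En.n l3518 (nat_lit 7353) (nat_lit 10) (nat_lit 12))
    (@En.n l18 (nat_lit 6364) (nat_lit 10) (nat_lit 4))
    (@En.n l2869 (nat_lit 7034) (nat_lit 12) (nat_lit 8))
    (@En.n l3523 (nat_lit 8811) (nat_lit 1) (nat_lit 4))
    (@En.n l899 (nat_lit 7268) (nat_lit 14) (nat_lit 10))
    (@En.n l6042 (nat_lit 12153) (nat_lit 1) (nat_lit 12))
    (@En.n l7 (nat_lit 8847) (nat_lit 15) (nat_lit 2))))
noncomputable def a553 : T16 Cl := @T16.mk Cl
  (@Cl.mk (nat_lit 0x2000c0008000400080004000d000c000b00030008000400080005000e000c) (nat_lit 0x330309930003090) (nat_lit 16) Lb.e (@T16.mk En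
    (@En.i (nat_lit 8849) (nat_lit 10) (nat_lit 12))
    (@En.i (nat_lit 7811) (nat_lit 1) (nat_lit 14))
    (@En.i (nat_lit 8675) (nat_lit 2) (nat_lit 5))
    (@En.n l899 (nat_lit 9144) (nat_lit 3) (nat_lit 8))
    (@En.i (nat_lit 8847) (nat_lit 4) (nat_lit 4))
    (@En.i (nat_lit 9824) (nat_lit 5) (nat_lit 8))
    (@En.n l1106 (nat_lit 8852) (nat_lit 6) (nat_lit 3))
    (@En.n l619 (nat_lit 8844) (nat_lit 0) (nat_lit 11))
    (@En.n l3866 (nat_lit 8853) (nat_lit 9) (nat_lit 12))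
    (@En.i (nat_lit 3485) (nat_lit 10) (nat_lit 13))
    (@En.n l18 (nat_lit 7584) (nat_lit 10) (nat_lit 4))
    (@En.i (nat_lit 5529) (nat_lit 12) (nat_lit 8))
    (@En.n l3523 (nat_lit 8851) (nat_lit 5) (nat_lit 4))
    (@En.n l61 (nat_lit 2948) (nat_lit 14) (nat_lit 8))
    (@En.i (nat_lit 8250) (nat_lit 1) (nat_lit 12))
    (@En.n l7 (nat_lit 8848) (nat_lit 15) (nat_lit 2))))
  (@Cl.mk (nat_lit 0x30009000400080005000c000c000b00070004000400080005000d000c000b) (nat_lit 0x5040a9000040b23) (nat_lit 16) Lb.e (@T16.mk En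
    (@En.n l8045 (nat_lit 8267) (nat_lit 0) (nat_lit 11))
    (@En.n l3866 (nat_lit 8855) (nat_lit 4) (nat_lit 12))
    (@En.i (nat_lit 3483) (nat_lit 2) (nat_lit 13))
    (@En.n l18 (nat_lit 6300) (nat_lit 3) (nat_lit 5))
    (@En.i (nat_lit 10433) (nat_lit 4) (nat_lit 8))
    (@En.n l77 (nat_lit 8848) (nat_lit 12) (nat_lit 4))
    (@En.n l8048 (nat_lit 8873) (nat_lit 0) (nat_lit 4))
    (@En.n l5653 (nat_lit 2941) (nat_lit 0) (nat_lit 7))
    (@En.n l15662 (nat_lit 8857) (nat_lit 9) (nat_lit 11))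
    (@En.n l19010 (nat_lit 8917) (nat_lit 4) (nat_lit 12))
    (@En.i (nat_lit 10806) (nat_lit 11) (nat_lit 12))
    (@En.n l2934 (nat_lit 8670) (nat_lit 4) (nat_lit 5))
    (@En.n l8052 (nat_lit 9142) (nat_lit 13) (nat_lit 8))
    (@En.n l8050 (nat_lit 8813) (nat_lit 14) (nat_lit 4))
    (@En.i (nat_lit 7958) (nat_lit 0) (nat_lit 9))
    (@En.n l7012 (nat_lit 8854) (nat_lit 1) (nat_lit 3))))
  (@Cl.mk (nat_lit 0x20009000d000400080003000d000c00070003000d000400080003000e000c) (nat_lit 0x30203a0010101a) (nat_lit 16) Lb.e (@T16.mk En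
    (@En.n l396 (nat_lit 8811) (nat_lit 14) (nat_lit 12))
    (@En.i (nat_lit 366) (nat_lit 1) (nat_lit 14))
    (@En.i (nat_lit 8858) (nat_lit 2) (nat_lit 3))
    (@En.n l1897 (nat_lit 3453) (nat_lit 3) (nat_lit 8))
    (@En.i (nat_lit 8846) (nat_lit 4) (nat_lit 4))
    (@En.i (nat_lit 4289) (nat_lit 6) (nat_lit 13))
    (@En.n l152 (nat_lit 8861) (nat_lit 6) (nat_lit 3))
    (@En.i (nat_lit 7965) (nat_lit 7) (nat_lit 7))
    (@En.n l619 (nat_lit 8863) (nat_lit 9) (nat_lit 12))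
    (@En.i (nat_lit 10331) (nat_lit 10) (nat_lit 13))
    (@En.n l2364 (nat_lit 8266) (nat_lit 10) (nat_lit 3))
    (@En.i (nat_lit 5596) (nat_lit 12) (nat_lit 8))
    (@En.i (nat_lit 8851) (nat_lit 13) (nat_lit 4))
    (@En.i (nat_lit 3812) (nat_lit 14) (nat_lit 13))
    (@En.i (nat_lit 9548) (nat_lit 12) (nat_lit 9))
    (@En.n l50 (nat_lit 8850) (nat_lit 15) (nat_lit 2))))
  (@Cl.mk (nat_lit 0x3000a000400080005000d000c00060003000d000400080003000d000c000b) (nat_lit 0x4033003010954) (nat_lit 16) Lb.e (@T16.mk En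
    (@En.n l6444 (nat_lit 8266) (nat_lit 0) (nat_lit 11))
    (@En.n l396 (nat_lit 8856) (nat_lit 4) (nat_lit 12))
    (@En.i (nat_lit 4227) (nat_lit 2) (nat_lit 13))
    (@En.i (nat_lit 8857) (nat_lit 3) (nat_lit 3))
    (@En.n l1897 (nat_lit 4713) (nat_lit 0) (nat_lit 8))
    (@En.n l2753 (nat_lit 8849) (nat_lit 5) (nat_lit 4))
    (@En.n l32472 (nat_lit 8252) (nat_lit 0) (nat_lit 13))
    (@En.n l2710 (nat_lit 8872) (nat_lit 1) (nat_lit 3))
    (@En.n l1075 (nat_lit 9047) (nat_lit 0) (nat_lit 6))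
    (@En.n l2749 (nat_lit 8873) (nat_lit 4) (nat_lit 12))
    (@En.n l13889 (nat_lit 10817) (nat_lit 2) (nat_lit 13))
    (@En.n l2364 (nat_lit 8598) (nat_lit 7) (nat_lit 5))
    (@En.n l9943 (nat_lit 8602) (nat_lit 13) (nat_lit 8))
    (@En.i (nat_lit 8811) (nat_lit 9) (nat_lit 4))
    (@En.n l11217 (nat_lit 9551) (nat_lit 11) (nat_lit 10))
    (@En.n l3532 (nat_lit 4324) (nat_lit 1) (nat_lit 3))))
  (@Cl.mk (nat_lit 0x2000c0008000400080004000d000a000d00030008000300080006000e000c) (nat_lit 0x34030b370004090) (nat_lit 16) Lb.e (@T16.mk En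
    (@En.n l3212 (nat_lit 8854) (nat_lit 12) (nat_lit 12))
    (@En.n l2031 (nat_lit 7812) (nat_lit 1) (nat_lit 14))
    (@En.n l20239 (nat_lit 9158) (nat_lit 2) (nat_lit 6))
    (@En.n l9924 (nat_lit 9143) (nat_lit 3) (nat_lit 8))
    (@En.n l2221 (nat_lit 8853) (nat_lit 4) (nat_lit 3))
    (@En.n l2068 (nat_lit 9518) (nat_lit 0) (nat_lit 8))
    (@En.n l3596 (nat_lit 8848) (nat_lit 6) (nat_lit 3))
    (@En.i (nat_lit 4888) (nat_lit 0) (nat_lit 13))
    (@En.n l5891 (nat_lit 10239) (nat_lit 9) (nat_lit 10))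
    (@En.n l3594 (nat_lit 3486) (nat_lit 10) (nat_lit 13))
    (@En.n l2364 (nat_lit 7526) (nat_lit 10) (nat_lit 4))
    (@En.n l9807 (nat_lit 3921) (nat_lit 12) (nat_lit 8))
    (@En.n l22479 (nat_lit 4324) (nat_lit 7) (nat_lit 4))
    (@En.n l698 (nat_lit 7234) (nat_lit 14) (nat_lit 8))
    (@En.n l22480 (nat_lit 8245) (nat_lit 1) (nat_lit 12))
    (@En.n l50 (nat_lit 8852) (nat_lit 15) (nat_lit 2))))
  (@Cl.mk (nat_lit 0x2000c0009000400080004000c000a000d00070004000300080006000e000c) (nat_lit 0x330308370004099) (nat_lit 16) Lb.e (@T16.mk En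
    (@En.i (nat_lit 8855) (nat_lit 12) (nat_lit 12))
    (@En.i (nat_lit 4653) (nat_lit 1) (nat_lit 14))
    (@En.n l17524 (nat_lit 9159) (nat_lit 2) (nat_lit 6))
    (@En.n l6080 (nat_lit 10328) (nat_lit 3) (nat_lit 8))
    (@En.n l5331 (nat_lit 8852) (nat_lit 4) (nat_lit 3))
    (@En.n l18 (nat_lit 10750) (nat_lit 0) (nat_lit 4))
    (@En.n l6081 (nat_lit 9341) (nat_lit 6) (nat_lit 7))
    (@En.i (nat_lit 4596) (nat_lit 8) (nat_lit 13))
    (@En.n l61 (nat_lit 10238) (nat_lit 9) (nat_lit 10))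
    (@En.n l564 (nat_lit 10613) (nat_lit 10) (nat_lit 12))
    (@En.n l7 (nat_lit 7527) (nat_lit 10) (nat_lit 4))
    (@En.i (nat_lit 7026) (nat_lit 12) (nat_lit 8))
    (@En.n l7691 (nat_lit 8856) (nat_lit 7) (nat_lit 4))
    (@En.i (nat_lit 7118) (nat_lit 14) (nat_lit 9))
    (@En.i (nat_lit 8253) (nat_lit 1) (nat_lit 12))
    (@En.n l11 (nat_lit 8853) (nat_lit 15) (nat_lit 2))))
  (@Cl.mk (nat_lit 0x300080006000c000c000b00070004000400080005000d000a000d00030009) (nat_lit 0x50aa200040b2605) (nat_lit 16) Lb.e (@T16.mk En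
    (@En.n l29744 (nat_lit 9517) (nat_lit 0) (nat_lit 9))
    (@En.n l26735 (nat_lit 8849) (nat_lit 15) (nat_lit 3))
    (@En.n l27259 (nat_lit 4594) (nat_lit 0) (nat_lit 13))
    (@En.n l19200 (nat_lit 10229) (nat_lit 3) (nat_lit 10))
    (@En.n l26668 (nat_lit 3481) (nat_lit 2) (nat_lit 13))
    (@En.n l1393 (nat_lit 6298) (nat_lit 3) (nat_lit 5))
    (@En.n l27259 (nat_lit 10430) (nat_lit 4) (nat_lit 8))
    (@En.n l6303 (nat_lit 8852) (nat_lit 12) (nat_lit 4))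
    (@En.n l19200 (nat_lit 4333) (nat_lit 0) (nat_lit 4))
    (@En.n l936 (nat_lit 7232) (nat_lit 0) (nat_lit 7))
    (@En.n l8390 (nat_lit 10146) (nat_lit 11) (nat_lit 11))
    (@En.n l2691 (nat_lit 8920) (nat_lit 4) (nat_lit 12))
    (@En.n l27559 (nat_lit 10805) (nat_lit 13) (nat_lit 12))
    (@En.n l19165 (nat_lit 9166) (nat_lit 14) (nat_lit 6))
    (@En.n l35804 (nat_lit 9141) (nat_lit 13) (nat_lit 8))
    (@En.n l34158 (nat_lit 8855) (nat_lit 15) (nat_lit 3))))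
  (@Cl.mk (nat_lit 0x300080006000c000c000b00080004000400080005000c000a000d00080004) (nat_lit 0x508a23004012730) (nat_lit 16) Lb.e (@T16.mk En
    (@En.n l18 (nat_lit 10749) (nat_lit 0) (nat_lit 4))
    (@En.n l6081 (nat_lit 9336) (nat_lit 0) (nat_lit 8))
    (@En.i (nat_lit 4593) (nat_lit 5) (nat_lit 13))
    (@En.n l61 (nat_lit 10240) (nat_lit 3) (nat_lit 10))
    (@En.n l42638 (nat_lit 6869) (nat_lit 12) (nat_lit 12))
    (@En.n l18132 (nat_lit 6297) (nat_lit 5) (nat_lit 5))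
    (@En.n l117 (nat_lit 10429) (nat_lit 6) (nat_lit 8))
    (@En.n l575 (nat_lit 8853) (nat_lit 12) (nat_lit 4))
    (@En.n l42639 (nat_lit 10152) (nat_lit 0) (nat_lit 4))
    (@En.n l1578 (nat_lit 7119) (nat_lit 0) (nat_lit 8))
    (@En.n l17285 (nat_lit 10147) (nat_lit 11) (nat_lit 11))
    (@En.n l42640 (nat_lit 8919) (nat_lit 4) (nat_lit 12))
    (@En.n l33169 (nat_lit 10804) (nat_lit 13) (nat_lit 12))
    (@En.n l42641 (nat_lit 9167) (nat_lit 14) (nat_lit 6))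
    (@En.n l42642 (nat_lit 10158) (nat_lit 5) (nat_lit 8))
    (@En.n l42643 (nat_lit 8854) (nat_lit 15) (nat_lit 3))))
  (@Cl.mk (nat_lit 0x300080006000d000c00070003000d000400080003000c000a000d00090004) (nat_lit 0x405a00301047b00) (nat_lit 16) Lb.e (@T16.mk En
    (@En.n l10571 (nat_lit 10751) (nat_lit 0) (nat_lit 4))
    (@En.n l11132 (nat_lit 10186) (nat_lit 0) (nat_lit 9))
    (@En.n l28839 (nat_lit 5644) (nat_lit 5) (nat_lit 13))
    (@En.n l2863 (nat_lit 10168) (nat_lit 3) (nat_lit 10))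
    (@En.i (nat_lit 10622) (nat_lit 11) (nat_lit 12))
    (@En.n l28327 (nat_lit 10147) (nat_lit 5) (nat_lit 3))
    (@En.n l21664 (nat_lit 4712) (nat_lit 0) (nat_lit 8))
    (@En.n l36312 (nat_lit 8855) (nat_lit 7) (nat_lit 4))
    (@En.n l10577 (nat_lit 8255) (nat_lit 0) (nat_lit 13))
    (@En.n l9876 (nat_lit 10151) (nat_lit 1) (nat_lit 3))
    (@En.n l28839 (nat_lit 9051) (nat_lit 0) (nat_lit 7))
    (@En.n l9879 (nat_lit 10152) (nat_lit 4) (nat_lit 12))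
    (@En.n l22467 (nat_lit 10716) (nat_lit 13) (nat_lit 13))
    (@En.n l403 (nat_lit 4326) (nat_lit 14) (nat_lit 6))
    (@En.i (nat_lit 10157) (nat_lit 4) (nat_lit 8))
    (@En.n l25864 (nat_lit 4324) (nat_lit 15) (nat_lit 3))))
  (@Cl.mk (nat_lit 0x3000a000400090005000d000b00060003000d000700050003000d000c000b) (nat_lit 0x307039003000351) (nat_lit 16) Lb.e (@T16.mk En
    (@En.n l6444 (nat_lit 8265) (nat_lit 0) (nat_lit 11))
    (@En.n l28353 (nat_lit 10147) (nat_lit 4) (nat_lit 12))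
    (@En.n l4316 (nat_lit 10132) (nat_lit 2) (nat_lit 13))
    (@En.n l28 (nat_lit 8851) (nat_lit 3) (nat_lit 3))
    (@En.n l28354 (nat_lit 6397) (nat_lit 0) (nat_lit 5))
    (@En.i (nat_lit 10463) (nat_lit 14) (nat_lit 7))
    (@En.n l16954 (nat_lit 8251) (nat_lit 2) (nat_lit 13))
    (@En.n l2710 (nat_lit 8874) (nat_lit 7) (nat_lit 3))
    (@En.n l9884 (nat_lit 9048) (nat_lit 0) (nat_lit 6))
    (@En.n l28355 (nat_lit 8875) (nat_lit 10) (nat_lit 11))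
    (@En.n l28356 (nat_lit 10828) (nat_lit 2) (nat_lit 13))
    (@En.n l2364 (nat_lit 8329) (nat_lit 7) (nat_lit 5))
    (@En.n l23976 (nat_lit 10291) (nat_lit 13) (nat_lit 9))
    (@En.i (nat_lit 8812) (nat_lit 9) (nat_lit 4))
    (@En.n l9884 (nat_lit 9552) (nat_lit 11) (nat_lit 10))
    (@En.n l28353 (nat_lit 10146) (nat_lit 1) (nat_lit 3))))
  (@Cl.mk (nat_lit 0x20009000d000400090003000d000b00070003000d000700050003000e000c) (nat_lit 0x30104400100099) (nat_lit 16) Lb.e (@T16.mk En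
    (@En.n l396 (nat_lit 8812) (nat_lit 14) (nat_lit 12))
    (@En.n l4316 (nat_lit 7678) (nat_lit 1) (nat_lit 14))
    (@En.n l28 (nat_lit 8850) (nat_lit 2) (nat_lit 3))
    (@En.n l14503 (nat_lit 7978) (nat_lit 3) (nat_lit 5))
    (@En.i (nat_lit 7100) (nat_lit 4) (nat_lit 7))
    (@En.n l5011 (nat_lit 4290) (nat_lit 6) (nat_lit 13))
    (@En.n l152 (nat_lit 8859) (nat_lit 6) (nat_lit 3))
    (@En.n l5200 (nat_lit 7967) (nat_lit 7) (nat_lit 7))
    (@En.n l14504 (nat_lit 8865) (nat_lit 9) (nat_lit 11))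
    (@En.n l1236 (nat_lit 10332) (nat_lit 10) (nat_lit 13))
    (@En.n l2364 (nat_lit 8265) (nat_lit 10) (nat_lit 3))
    (@En.i (nat_lit 5612) (nat_lit 12) (nat_lit 9))
    (@En.i (nat_lit 8857) (nat_lit 13) (nat_lit 4))
    (@En.i (nat_lit 3877) (nat_lit 14) (nat_lit 13))
    (@En.n l5200 (nat_lit 9550) (nat_lit 12) (nat_lit 9))
    (@En.n l50 (nat_lit 8858) (nat_lit 15) (nat_lit 2))))
  (@Cl.mk (nat_lit 0x2000a000d000400090003000d0006000c0003000d000700040003000e000c) (nat_lit 0x73010504020009a) (nat_lit 16) Lb.e (@T16.mk En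
    (@En.n l396 (nat_lit 8810) (nat_lit 14) (nat_lit 12))
    (@En.n l4316 (nat_lit 7677) (nat_lit 1) (nat_lit 14))
    (@En.n l28 (nat_lit 8861) (nat_lit 2) (nat_lit 3))
    (@En.n l170 (nat_lit 8867) (nat_lit 3) (nat_lit 4))
    (@En.i (nat_lit 7099) (nat_lit 4) (nat_lit 7))
    (@En.n l11106 (nat_lit 4859) (nat_lit 6) (nat_lit 13))
    (@En.n l117 (nat_lit 8858) (nat_lit 6) (nat_lit 3))
    (@En.n l170 (nat_lit 8523) (nat_lit 8) (nat_lit 12))
    (@En.i (nat_lit 8860) (nat_lit 8) (nat_lit 6))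
    (@En.i (nat_lit 10330) (nat_lit 10) (nat_lit 13))
    (@En.n l2364 (nat_lit 8263) (nat_lit 10) (nat_lit 3))
    (@En.i (nat_lit 5611) (nat_lit 12) (nat_lit 9))
    (@En.n l3098 (nat_lit 8874) (nat_lit 13) (nat_lit 4))
    (@En.i (nat_lit 3732) (nat_lit 5) (nat_lit 13))
    (@En.i (nat_lit 8619) (nat_lit 12) (nat_lit 10))
    (@En.n l50 (nat_lit 8859) (nat_lit 15) (nat_lit 2))))
  (@Cl.mk (nat_lit 0x2000a0009000d0005000a00030006000c0007000d000600040003000e000b) (nat_lit 0x814010050100089) (nat_lit 16) Lb.e (@T16.mk En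
    (@En.n l396 (nat_lit 8809) (nat_lit 14) (nat_lit 11))
    (@En.n l4316 (nat_lit 7679) (nat_lit 1) (nat_lit 14))
    (@En.n l28 (nat_lit 8862) (nat_lit 2) (nat_lit 3))
    (@En.n l1732 (nat_lit 8868) (nat_lit 3) (nat_lit 4))
    (@En.i (nat_lit 7101) (nat_lit 4) (nat_lit 6))
    (@En.n l5236 (nat_lit 4856) (nat_lit 6) (nat_lit 13))
    (@En.n l16743 (nat_lit 7970) (nat_lit 6) (nat_lit 7))
    (@En.n l5236 (nat_lit 8443) (nat_lit 8) (nat_lit 12))
    (@En.n l3106 (nat_lit 12383) (nat_lit 12) (nat_lit 6))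
    (@En.n l2364 (nat_lit 8260) (nat_lit 9) (nat_lit 3))
    (@En.i (nat_lit 5613) (nat_lit 0) (nat_lit 10))
    (@En.n l3098 (nat_lit 10136) (nat_lit 12) (nat_lit 5))
    (@En.n l3 (nat_lit 8859) (nat_lit 13) (nat_lit 13))
    (@En.n l3 (nat_lit 8858) (nat_lit 14) (nat_lit 9))
    (@En.n l5236 (nat_lit 12475) (nat_lit 4) (nat_lit 10))
    (@En.n l50 (nat_lit 8860) (nat_lit 15) (nat_lit 2))))
  (@Cl.mk (nat_lit 0x2000a000d000400080003000d0006000d0003000d000300080003000e000c) (nat_lit 0x7302030a020101a) (nat_lit 16) Lb.e (@T16.mk En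
    (@En.n l396 (nat_lit 8808) (nat_lit 12) (nat_lit 12))
    (@En.i (nat_lit 368) (nat_lit 1) (nat_lit 14))
    (@En.i (nat_lit 8859) (nat_lit 2) (nat_lit 3))
    (@En.i (nat_lit 3449) (nat_lit 3) (nat_lit 8))
    (@En.i (nat_lit 8863) (nat_lit 4) (nat_lit 3))
    (@En.i (nat_lit 4860) (nat_lit 0) (nat_lit 13))
    (@En.n l117 (nat_lit 8850) (nat_lit 6) (nat_lit 3))
    (@En.n l10357 (nat_lit 6165) (nat_lit 8) (nat_lit 13))
    (@En.i (nat_lit 8862) (nat_lit 8) (nat_lit 6))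
    (@En.i (nat_lit 10329) (nat_lit 10) (nat_lit 13))
    (@En.n l2364 (nat_lit 8264) (nat_lit 10) (nat_lit 3))
    (@En.i (nat_lit 5579) (nat_lit 12) (nat_lit 8))
    (@En.n l3098 (nat_lit 8872) (nat_lit 7) (nat_lit 4))
    (@En.i (nat_lit 3811) (nat_lit 14) (nat_lit 13))
    (@En.i (nat_lit 8618) (nat_lit 1) (nat_lit 10))
    (@En.n l50 (nat_lit 8861) (nat_lit 15) (nat_lit 2))))
  (@Cl.mk (nat_lit 0x2000a0009000d0005000900030006000d0007000d000300070003000e000b) (nat_lit 0x8140400a0200019) (nat_lit 16) Lb.e (@T16.mk En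
    (@En.n l396 (nat_lit 8807) (nat_lit 12) (nat_lit 11))
    (@En.i (nat_lit 370) (nat_lit 1) (nat_lit 14))
    (@En.i (nat_lit 8860) (nat_lit 2) (nat_lit 3))
    (@En.n l2571 (nat_lit 3450) (nat_lit 3) (nat_lit 7))
    (@En.i (nat_lit 8864) (nat_lit 4) (nat_lit 3))
    (@En.i (nat_lit 4861) (nat_lit 0) (nat_lit 13))
    (@En.i (nat_lit 7969) (nat_lit 6) (nat_lit 7))
    (@En.n l35731 (nat_lit 7677) (nat_lit 8) (nat_lit 13))
    (@En.n l3106 (nat_lit 12400) (nat_lit 12) (nat_lit 6))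
    (@En.n l2364 (nat_lit 8261) (nat_lit 9) (nat_lit 3))
    (@En.i (nat_lit 5574) (nat_lit 0) (nat_lit 9))
    (@En.n l3098 (nat_lit 10135) (nat_lit 6) (nat_lit 5))
    (@En.n l3 (nat_lit 8861) (nat_lit 13) (nat_lit 13))
    (@En.n l3 (nat_lit 8850) (nat_lit 14) (nat_lit 9))
    (@En.i (nat_lit 12473) (nat_lit 4) (nat_lit 10))
    (@En.n l50 (nat_lit 8862) (nat_lit 15) (nat_lit 2))))
  (@Cl.mk (nat_lit 0x2000a000d000400080003000c0006000d000c0004000300080004000e000c) (nat_lit 0x7202090b500201a) (nat_lit 16) Lb.e (@T16.mk En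
    (@En.n l396 (nat_lit 8806) (nat_lit 12) (nat_lit 12))
    (@En.i (nat_lit 372) (nat_lit 1) (nat_lit 14))
    (@En.n l4073 (nat_lit 8865) (nat_lit 2) (nat_lit 4))
    (@En.n l287 (nat_lit 9577) (nat_lit 3) (nat_lit 8))
    (@En.n l11 (nat_lit 8861) (nat_lit 4) (nat_lit 3))
    (@En.i (nat_lit 8914) (nat_lit 0) (nat_lit 4))
    (@En.n l55 (nat_lit 8859) (nat_lit 7) (nat_lit 12))
    (@En.n l9836 (nat_lit 6164) (nat_lit 8) (nat_lit 13))
    (@En.i (nat_lit 8864) (nat_lit 8) (nat_lit 6))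
    (@En.i (nat_lit 10328) (nat_lit 10) (nat_lit 12))
    (@En.n l2364 (nat_lit 8262) (nat_lit 10) (nat_lit 3))
    (@En.i (nat_lit 5610) (nat_lit 12) (nat_lit 8))
    (@En.n l3098 (nat_lit 8873) (nat_lit 7) (nat_lit 4))
    (@En.i (nat_lit 3808) (nat_lit 14) (nat_lit 13))
    (@En.i (nat_lit 10314) (nat_lit 1) (nat_lit 10))
    (@En.n l50 (nat_lit 8863) (nat_lit 15) (nat_lit 2))))
noncomputable def a554 : T16 Cl := @T16.mk Cl
  (@Cl.mk (nat_lit 0x2000a0008000d0005000900030006000d000c0008000300070004000e000b) (nat_lit 0x7230400b6200089) (nat_lit 16) Lb.e (@T16.mk En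
    (@En.n l396 (nat_lit 8805) (nat_lit 12) (nat_lit 11))
    (@En.n l3651 (nat_lit 1101) (nat_lit 1) (nat_lit 14))
    (@En.n l1732 (nat_lit 8866) (nat_lit 2) (nat_lit 4))
    (@En.n l287 (nat_lit 9579) (nat_lit 3) (nat_lit 7))
    (@En.n l11 (nat_lit 8862) (nat_lit 4) (nat_lit 3))
    (@En.n l21696 (nat_lit 6502) (nat_lit 0) (nat_lit 8))
    (@En.n l55 (nat_lit 8860) (nat_lit 7) (nat_lit 12))
    (@En.n l26203 (nat_lit 7678) (nat_lit 8) (nat_lit 13))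
    (@En.n l3106 (nat_lit 12382) (nat_lit 12) (nat_lit 6))
    (@En.n l2364 (nat_lit 8259) (nat_lit 9) (nat_lit 3))
    (@En.i (nat_lit 5577) (nat_lit 0) (nat_lit 9))
    (@En.n l6277 (nat_lit 10134) (nat_lit 6) (nat_lit 5))
    (@En.n l3 (nat_lit 8863) (nat_lit 13) (nat_lit 13))
    (@En.n l3 (nat_lit 8846) (nat_lit 14) (nat_lit 8))
    (@En.n l3651 (nat_lit 12474) (nat_lit 4) (nat_lit 10))
    (@En.n l50 (nat_lit 8864) (nat_lit 15) (nat_lit 2))))
  (@Cl.mk (nat_lit 0x2000a000d0004000a0003000b0006000c000c0006000500040004000e000c) (nat_lit 0x53010304300009a) (nat_lit 16) Lb.e (@T16.mk En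
    (@En.n l387 (nat_lit 8871) (nat_lit 3) (nat_lit 12))
    (@En.i (nat_lit 7680) (nat_lit 1) (nat_lit 14))
    (@En.n l1959 (nat_lit 8869) (nat_lit 12) (nat_lit 4))
    (@En.n l8283 (nat_lit 8859) (nat_lit 3) (nat_lit 4))
    (@En.i (nat_lit 6316) (nat_lit 4) (nat_lit 5))
    (@En.n l8262 (nat_lit 7096) (nat_lit 5) (nat_lit 6))
    (@En.n l2337 (nat_lit 8867) (nat_lit 7) (nat_lit 12))
    (@En.i (nat_lit 8527) (nat_lit 8) (nat_lit 12))
    (@En.n l890 (nat_lit 8866) (nat_lit 8) (nat_lit 6))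
    (@En.n l28 (nat_lit 9213) (nat_lit 10) (nat_lit 11))
    (@En.i (nat_lit 8268) (nat_lit 10) (nat_lit 3))
    (@En.n l8283 (nat_lit 5617) (nat_lit 0) (nat_lit 10))
    (@En.n l117 (nat_lit 8875) (nat_lit 13) (nat_lit 4))
    (@En.n l387 (nat_lit 3728) (nat_lit 5) (nat_lit 13))
    (@En.i (nat_lit 7855) (nat_lit 1) (nat_lit 10))
    (@En.n l3 (nat_lit 8865) (nat_lit 15) (nat_lit 2))))
  (@Cl.mk (nat_lit 0x2000a0007000d0005000b00030006000c000c0005000900040004000e000b) (nat_lit 0x6040100340400b9) (nat_lit 16) Lb.e (@T16.mk En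
    (@En.n l626 (nat_lit 8905) (nat_lit 13) (nat_lit 11))
    (@En.n l6204 (nat_lit 8440) (nat_lit 1) (nat_lit 14))
    (@En.n l26191 (nat_lit 8870) (nat_lit 12) (nat_lit 4))
    (@En.n l9771 (nat_lit 8860) (nat_lit 3) (nat_lit 4))
    (@En.n l626 (nat_lit 3226) (nat_lit 4) (nat_lit 9))
    (@En.n l7910 (nat_lit 7097) (nat_lit 5) (nat_lit 5))
    (@En.n l644 (nat_lit 8868) (nat_lit 7) (nat_lit 12))
    (@En.i (nat_lit 8441) (nat_lit 8) (nat_lit 12))
    (@En.n l16089 (nat_lit 12377) (nat_lit 12) (nat_lit 6))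
    (@En.n l10705 (nat_lit 8269) (nat_lit 9) (nat_lit 3))
    (@En.n l1253 (nat_lit 5619) (nat_lit 0) (nat_lit 11))
    (@En.n l26192 (nat_lit 9057) (nat_lit 12) (nat_lit 5))
    (@En.n l1722 (nat_lit 8865) (nat_lit 13) (nat_lit 13))
    (@En.n l26193 (nat_lit 6766) (nat_lit 14) (nat_lit 7))
    (@En.n l7910 (nat_lit 7858) (nat_lit 4) (nat_lit 10))
    (@En.n l3 (nat_lit 8866) (nat_lit 15) (nat_lit 2))))
  (@Cl.mk (nat_lit 0x2000a000d0004000b0003000c0006000c00050004000e00040002000e000c) (nat_lit 0x63010a02001009a) (nat_lit 16) Lb.e (@T16.mk En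
    (@En.n l1208 (nat_lit 8900) (nat_lit 14) (nat_lit 12))
    (@En.i (nat_lit 8443) (nat_lit 1) (nat_lit 14))
    (@En.n l18 (nat_lit 8867) (nat_lit 2) (nat_lit 2))
    (@En.n l7 (nat_lit 8865) (nat_lit 3) (nat_lit 4))
    (@En.n l396 (nat_lit 4858) (nat_lit 1) (nat_lit 14))
    (@En.n l7 (nat_lit 6314) (nat_lit 5) (nat_lit 4))
    (@En.i (nat_lit 7980) (nat_lit 6) (nat_lit 5))
    (@En.i (nat_lit 8529) (nat_lit 8) (nat_lit 12))
    (@En.n l420 (nat_lit 8868) (nat_lit 8) (nat_lit 6))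
    (@En.i (nat_lit 12776) (nat_lit 10) (nat_lit 12))
    (@En.i (nat_lit 8886) (nat_lit 10) (nat_lit 3))
    (@En.i (nat_lit 5622) (nat_lit 0) (nat_lit 11))
    (@En.n l117 (nat_lit 6400) (nat_lit 9) (nat_lit 4))
    (@En.n l1208 (nat_lit 3730) (nat_lit 5) (nat_lit 13))
    (@En.i (nat_lit 7854) (nat_lit 12) (nat_lit 10))
    (@En.n l3 (nat_lit 8867) (nat_lit 15) (nat_lit 2))))
  (@Cl.mk (nat_lit 0x2000a0008000d0005000c00030006000c00040008000e00040002000e000b) (nat_lit 0x7240200302100b9) (nat_lit 16) Lb.e (@T16.mk En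
    (@En.n l10704 (nat_lit 8895) (nat_lit 14) (nat_lit 11))
    (@En.n l699 (nat_lit 8423) (nat_lit 1) (nat_lit 14))
    (@En.n l50 (nat_lit 8868) (nat_lit 2) (nat_lit 2))
    (@En.i (nat_lit 8866) (nat_lit 3) (nat_lit 4))
    (@En.i (nat_lit 4857) (nat_lit 5) (nat_lit 14))
    (@En.n l626 (nat_lit 3229) (nat_lit 5) (nat_lit 8))
    (@En.i (nat_lit 7981) (nat_lit 6) (nat_lit 4))
    (@En.i (nat_lit 8446) (nat_lit 8) (nat_lit 12))
    (@En.n l18893 (nat_lit 12380) (nat_lit 12) (nat_lit 6))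
    (@En.i (nat_lit 8887) (nat_lit 9) (nat_lit 3))
    (@En.n l1253 (nat_lit 12374) (nat_lit 0) (nat_lit 12))
    (@En.n l9462 (nat_lit 9063) (nat_lit 8) (nat_lit 5))
    (@En.n l387 (nat_lit 8867) (nat_lit 13) (nat_lit 13))
    (@En.n l699 (nat_lit 7978) (nat_lit 14) (nat_lit 8))
    (@En.i (nat_lit 7859) (nat_lit 12) (nat_lit 10))
    (@En.n l3 (nat_lit 8868) (nat_lit 15) (nat_lit 2))))
  (@Cl.mk (nat_lit 0x2000700060004000e000c0002000a000d000400090003000a0006000e000c) (nat_lit 0x990530102075) (nat_lit 16) Lb.e (@T16.mk En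
    (@En.n l1708 (nat_lit 8865) (nat_lit 7) (nat_lit 12))
    (@En.n l1063 (nat_lit 6997) (nat_lit 8) (nat_lit 14))
    (@En.n l890 (nat_lit 8870) (nat_lit 2) (nat_lit 6))
    (@En.n l4952 (nat_lit 9211) (nat_lit 3) (nat_lit 10))
    (@En.i (nat_lit 8928) (nat_lit 4) (nat_lit 3))
    (@En.n l3486 (nat_lit 5620) (nat_lit 5) (nat_lit 9))
    (@En.n l117 (nat_lit 8876) (nat_lit 6) (nat_lit 4))
    (@En.n l3486 (nat_lit 3725) (nat_lit 8) (nat_lit 13))
    (@En.i (nat_lit 7861) (nat_lit 9) (nat_lit 10))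
    (@En.n l3 (nat_lit 8869) (nat_lit 9) (nat_lit 2))
    (@En.n l5232 (nat_lit 8937) (nat_lit 11) (nat_lit 12))
    (@En.i (nat_lit 5034) (nat_lit 12) (nat_lit 14))
    (@En.n l3486 (nat_lit 8863) (nat_lit 2) (nat_lit 4))
    (@En.i (nat_lit 6319) (nat_lit 14) (nat_lit 6))
    (@En.n l3724 (nat_lit 9578) (nat_lit 4) (nat_lit 7))
    (@En.n l18 (nat_lit 8869) (nat_lit 15) (nat_lit 2))))
  (@Cl.mk (nat_lit 0x20006000a0004000e000b0002000a0006000d0005000a00030006000e000c) (nat_lit 0x50790504080044) (nat_lit 16) Lb.e (@T16.mk En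
    (@En.n l5838 (nat_lit 8866) (nat_lit 7) (nat_lit 12))
    (@En.n l601 (nat_lit 9258) (nat_lit 8) (nat_lit 14))
    (@En.n l3546 (nat_lit 12376) (nat_lit 2) (nat_lit 6))
    (@En.i (nat_lit 8929) (nat_lit 3) (nat_lit 3))
    (@En.n l3328 (nat_lit 9216) (nat_lit 0) (nat_lit 10))
    (@En.n l117 (nat_lit 9186) (nat_lit 5) (nat_lit 5))
    (@En.n l1722 (nat_lit 8869) (nat_lit 7) (nat_lit 13))
    (@En.n l2364 (nat_lit 6762) (nat_lit 7) (nat_lit 6))
    (@En.i (nat_lit 7869) (nat_lit 9) (nat_lit 10))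
    (@En.n l3 (nat_lit 8870) (nat_lit 9) (nat_lit 2))
    (@En.i (nat_lit 8936) (nat_lit 11) (nat_lit 11))
    (@En.i (nat_lit 5032) (nat_lit 12) (nat_lit 14))
    (@En.n l723 (nat_lit 8864) (nat_lit 2) (nat_lit 4))
    (@En.n l5778 (nat_lit 3223) (nat_lit 3) (nat_lit 10))
    (@En.i (nat_lit 9581) (nat_lit 4) (nat_lit 6))
    (@En.n l50 (nat_lit 8870) (nat_lit 15) (nat_lit 2))))
  (@Cl.mk (nat_lit 0x40004000a0004000b0007000c000c0006000500040004000c000c0009000c) (nat_lit 0x80204200009843) (nat_lit 16) Lb.e (@T16.mk En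
    (@En.i (nat_lit 3727) (nat_lit 6) (nat_lit 12))
    (@En.n l564 (nat_lit 9290) (nat_lit 1) (nat_lit 9))
    (@En.n l4003 (nat_lit 8903) (nat_lit 4) (nat_lit 12))
    (@En.i (nat_lit 8880) (nat_lit 3) (nat_lit 12))
    (@En.n l11100 (nat_lit 8937) (nat_lit 12) (nat_lit 4))
    (@En.n l11101 (nat_lit 8810) (nat_lit 0) (nat_lit 4))
    (@En.i (nat_lit 4082) (nat_lit 0) (nat_lit 5))
    (@En.n l4476 (nat_lit 7098) (nat_lit 1) (nat_lit 6))
    (@En.n l61 (nat_lit 8900) (nat_lit 4) (nat_lit 12))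
    (@En.n l3699 (nat_lit 8533) (nat_lit 10) (nat_lit 12))
    (@En.n l3506 (nat_lit 8905) (nat_lit 4) (nat_lit 7))
    (@En.i (nat_lit 8952) (nat_lit 12) (nat_lit 11))
    (@En.n l2210 (nat_lit 8893) (nat_lit 6) (nat_lit 4))
    (@En.n l10592 (nat_lit 10850) (nat_lit 0) (nat_lit 10))
    (@En.n l3498 (nat_lit 8865) (nat_lit 12) (nat_lit 4))
    (@En.n l13355 (nat_lit 6405) (nat_lit 0) (nat_lit 4))))
  (@Cl.mk (nat_lit 0x300080003000d000c000b0003000b000400080005000d0005000d0003000d) (nat_lit 0x209740902040102) (nat_lit 16) Lb.e (@T16.mk En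
    (@En.n l5646 (nat_lit 2947) (nat_lit 0) (nat_lit 13))
    (@En.n l345 (nat_lit 8851) (nat_lit 7) (nat_lit 3))
    (@En.i (nat_lit 4293) (nat_lit 0) (nat_lit 13))
    (@En.i (nat_lit 10135) (nat_lit 3) (nat_lit 5))
    (@En.n l9182 (nat_lit 10822) (nat_lit 2) (nat_lit 13))
    (@En.n l17 (nat_lit 8599) (nat_lit 5) (nat_lit 5))
    (@En.n l1003 (nat_lit 4335) (nat_lit 6) (nat_lit 8))
    (@En.n l3851 (nat_lit 8808) (nat_lit 7) (nat_lit 4))
    (@En.n l617 (nat_lit 8613) (nat_lit 0) (nat_lit 11))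
    (@En.i (nat_lit 4331) (nat_lit 9) (nat_lit 3))
    (@En.n l18153 (nat_lit 8264) (nat_lit 0) (nat_lit 11))
    (@En.n l3518 (nat_lit 10151) (nat_lit 12) (nat_lit 12))
    (@En.i (nat_lit 4229) (nat_lit 2) (nat_lit 13))
    (@En.i (nat_lit 8874) (nat_lit 3) (nat_lit 3))
    (@En.i (nat_lit 4709) (nat_lit 0) (nat_lit 8))
    (@En.i (nat_lit 8873) (nat_lit 15) (nat_lit 3))))
  (@Cl.mk (nat_lit 0x300080004000d000c000b0003000b000400080005000c0005000d000c0004) (nat_lit 0x309a40304020140) (nat_lit 16) Lb.e (@T16.mk En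
    (@En.i (nat_lit 8917) (nat_lit 0) (nat_lit 4))
    (@En.n l644 (nat_lit 8874) (nat_lit 8) (nat_lit 12))
    (@En.n l17962 (nat_lit 6184) (nat_lit 1) (nat_lit 13))
    (@En.n l11547 (nat_lit 10134) (nat_lit 3) (nat_lit 5))
    (@En.n l9182 (nat_lit 10157) (nat_lit 11) (nat_lit 12))
    (@En.n l17 (nat_lit 8535) (nat_lit 5) (nat_lit 5))
    (@En.n l11547 (nat_lit 9140) (nat_lit 6) (nat_lit 8))
    (@En.n l3851 (nat_lit 8806) (nat_lit 7) (nat_lit 4))
    (@En.n l617 (nat_lit 8614) (nat_lit 0) (nat_lit 11))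
    (@En.i (nat_lit 4333) (nat_lit 9) (nat_lit 3))
    (@En.n l18153 (nat_lit 8262) (nat_lit 0) (nat_lit 11))
    (@En.n l3518 (nat_lit 10152) (nat_lit 12) (nat_lit 12))
    (@En.i (nat_lit 4231) (nat_lit 2) (nat_lit 13))
    (@En.n l19709 (nat_lit 8875) (nat_lit 3) (nat_lit 4))
    (@En.n l18225 (nat_lit 10482) (nat_lit 4) (nat_lit 8))
    (@En.n l7 (nat_lit 8872) (nat_lit 15) (nat_lit 3))))
  (@Cl.mk (nat_lit 0x3000b000400090005000d0005000c0003000d000700040003000d000c000b) (nat_lit 0x900040302000375) (nat_lit 16) Lb.e (@T16.mk En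
    (@En.n l18153 (nat_lit 8263) (nat_lit 0) (nat_lit 11))
    (@En.n l3518 (nat_lit 10148) (nat_lit 4) (nat_lit 12))
    (@En.n l5788 (nat_lit 8877) (nat_lit 2) (nat_lit 13))
    (@En.n l50 (nat_lit 8872) (nat_lit 13) (nat_lit 3))
    (@En.n l4542 (nat_lit 6400) (nat_lit 0) (nat_lit 4))
    (@En.i (nat_lit 10462) (nat_lit 14) (nat_lit 7))
    (@En.n l5646 (nat_lit 2943) (nat_lit 1) (nat_lit 13))
    (@En.n l345 (nat_lit 8857) (nat_lit 7) (nat_lit 3))
    (@En.n l4542 (nat_lit 9740) (nat_lit 0) (nat_lit 12))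
    (@En.i (nat_lit 10136) (nat_lit 9) (nat_lit 5))
    (@En.n l9182 (nat_lit 10827) (nat_lit 2) (nat_lit 13))
    (@En.n l17 (nat_lit 8330) (nat_lit 7) (nat_lit 5))
    (@En.n l23332 (nat_lit 9205) (nat_lit 4) (nat_lit 9))
    (@En.n l3851 (nat_lit 8810) (nat_lit 9) (nat_lit 4))
    (@En.n l617 (nat_lit 8612) (nat_lit 11) (nat_lit 11))
    (@En.n l10995 (nat_lit 4334) (nat_lit 1) (nat_lit 3))))
  (@Cl.mk (nat_lit 0x3000b0004000a0005000b0005000c000c0006000500040004000d000c000b) (nat_lit 0x808080310000a11) (nat_lit 16) Lb.e (@T16.mk En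
    (@En.n l619 (nat_lit 8268) (nat_lit 0) (nat_lit 11))
    (@En.n l1106 (nat_lit 6405) (nat_lit 4) (nat_lit 12))
    (@En.n l2114 (nat_lit 8878) (nat_lit 2) (nat_lit 13))
    (@En.n l1959 (nat_lit 8876) (nat_lit 12) (nat_lit 4))
    (@En.n l23354 (nat_lit 8874) (nat_lit 4) (nat_lit 4))
    (@En.i (nat_lit 6322) (nat_lit 0) (nat_lit 5))
    (@En.n l6014 (nat_lit 10464) (nat_lit 1) (nat_lit 6))
    (@En.n l2337 (nat_lit 6400) (nat_lit 4) (nat_lit 12))
    (@En.i (nat_lit 8590) (nat_lit 9) (nat_lit 12))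
    (@En.n l11216 (nat_lit 9057) (nat_lit 9) (nat_lit 5))
    (@En.n l26997 (nat_lit 9218) (nat_lit 11) (nat_lit 11))
    (@En.n l26998 (nat_lit 8374) (nat_lit 6) (nat_lit 5))
    (@En.n l6014 (nat_lit 9986) (nat_lit 13) (nat_lit 10))
    (@En.n l387 (nat_lit 8871) (nat_lit 14) (nat_lit 4))
    (@En.i (nat_lit 7754) (nat_lit 0) (nat_lit 11))
    (@En.n l1106 (nat_lit 6404) (nat_lit 1) (nat_lit 3))))
  (@Cl.mk (nat_lit 0x2000700060004000d000c000b0003000b000400090005000a0005000e000c) (nat_lit 0xa80070700074) (nat_lit 16) Lb.e (@T16.mk En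
    (@En.n l1708 (nat_lit 8875) (nat_lit 8) (nat_lit 12))
    (@En.n l1063 (nat_lit 6190) (nat_lit 1) (nat_lit 14))
    (@En.n l890 (nat_lit 9186) (nat_lit 2) (nat_lit 5))
    (@En.n l495 (nat_lit 9214) (nat_lit 3) (nat_lit 10))
    (@En.n l13299 (nat_lit 8534) (nat_lit 4) (nat_lit 5))
    (@En.n l10137 (nat_lit 9990) (nat_lit 5) (nat_lit 9))
    (@En.n l5232 (nat_lit 8937) (nat_lit 6) (nat_lit 4))
    (@En.i (nat_lit 7761) (nat_lit 8) (nat_lit 11))
    (@En.n l1686 (nat_lit 10524) (nat_lit 8) (nat_lit 3))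
    (@En.n l619 (nat_lit 8928) (nat_lit 10) (nat_lit 11))
    (@En.n l5208 (nat_lit 10525) (nat_lit 11) (nat_lit 12))
    (@En.i (nat_lit 5162) (nat_lit 12) (nat_lit 13))
    (@En.n l8362 (nat_lit 8873) (nat_lit 13) (nat_lit 4))
    (@En.i (nat_lit 6333) (nat_lit 14) (nat_lit 6))
    (@En.n l2129 (nat_lit 10483) (nat_lit 5) (nat_lit 7))
    (@En.n l18 (nat_lit 8876) (nat_lit 15) (nat_lit 2))))
  (@Cl.mk (nat_lit 0x30007000b000500090006000d0005000c0003000900070004000d000b000a) (nat_lit 0x40004030400244) (nat_lit 16) Lb.e (@T16.mk En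
    (@En.n l32409 (nat_lit 8257) (nat_lit 0) (nat_lit 10))
    (@En.n l32410 (nat_lit 9877) (nat_lit 11) (nat_lit 11))
    (@En.n l32411 (nat_lit 4233) (nat_lit 2) (nat_lit 13))
    (@En.n l32412 (nat_lit 8879) (nat_lit 3) (nat_lit 4))
    (@En.n l21433 (nat_lit 10449) (nat_lit 14) (nat_lit 7))
    (@En.n l1769 (nat_lit 10009) (nat_lit 5) (nat_lit 9))
    (@En.n l32413 (nat_lit 10132) (nat_lit 6) (nat_lit 3))
    (@En.n l32414 (nat_lit 9737) (nat_lit 0) (nat_lit 12))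
    (@En.n l32415 (nat_lit 10133) (nat_lit 8) (nat_lit 5))
    (@En.n l19413 (nat_lit 11818) (nat_lit 10) (nat_lit 13))
    (@En.n l32416 (nat_lit 8367) (nat_lit 3) (nat_lit 6))
    (@En.i (nat_lit 10810) (nat_lit 4) (nat_lit 9))
    (@En.n l32417 (nat_lit 10497) (nat_lit 5) (nat_lit 5))
    (@En.n l32418 (nat_lit 8873) (nat_lit 8) (nat_lit 11))
    (@En.n l32419 (nat_lit 6851) (nat_lit 7) (nat_lit 7))
    (@En.n l17668 (nat_lit 9794) (nat_lit 15) (nat_lit 3))))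
  (@Cl.mk (nat_lit 0x30008000b0005000a0006000b0005000c0008000600050004000d000b000a) (nat_lit 0x480600036000975) (nat_lit 16) Lb.e (@T16.mk En
    (@En.n l28351 (nat_lit 8475) (nat_lit 0) (nat_lit 10))
    (@En.n l28352 (nat_lit 8797) (nat_lit 5) (nat_lit 11))
    (@En.n l644 (nat_lit 5098) (nat_lit 2) (nat_lit 13))
    (@En.n l29336 (nat_lit 8877) (nat_lit 3) (nat_lit 4))
    (@En.i (nat_lit 8457) (nat_lit 11) (nat_lit 5))
    (@En.n l29337 (nat_lit 10448) (nat_lit 5) (nat_lit 6))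
    (@En.n l29338 (nat_lit 8881) (nat_lit 6) (nat_lit 8))
    (@En.n l2149 (nat_lit 8591) (nat_lit 8) (nat_lit 12))
    (@En.n l890 (nat_lit 9670) (nat_lit 8) (nat_lit 5))
    (@En.n l4597 (nat_lit 12711) (nat_lit 10) (nat_lit 11))
    (@En.n l29339 (nat_lit 8788) (nat_lit 11) (nat_lit 6))
    (@En.n l29336 (nat_lit 9983) (nat_lit 12) (nat_lit 10))
    (@En.n l13752 (nat_lit 8880) (nat_lit 13) (nat_lit 5))
    (@En.i (nat_lit 8876) (nat_lit 7) (nat_lit 11))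
    (@En.n l27011 (nat_lit 8880) (nat_lit 1) (nat_lit 8))
    (@En.n l29340 (nat_lit 8884) (nat_lit 15) (nat_lit 3))))
  (@Cl.mk (nat_lit 0x30006000b0005000b0006000c0005000c00050004000a0004000d000b000a) (nat_lit 0x90600030070976) (nat_lit 16) Lb.e (@T16.mk En
    (@En.n l30266 (nat_lit 8470) (nat_lit 0) (nat_lit 10))
    (@En.n l830 (nat_lit 8800) (nat_lit 12) (nat_lit 11))
    (@En.n l30079 (nat_lit 8881) (nat_lit 2) (nat_lit 13))
    (@En.n l1959 (nat_lit 8878) (nat_lit 3) (nat_lit 4))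
    (@En.n l30267 (nat_lit 10013) (nat_lit 4) (nat_lit 10))
    (@En.i (nat_lit 8453) (nat_lit 5) (nat_lit 4))
    (@En.n l29346 (nat_lit 10664) (nat_lit 6) (nat_lit 5))
    (@En.n l3786 (nat_lit 10195) (nat_lit 8) (nat_lit 12))
    (@En.n l601 (nat_lit 9642) (nat_lit 8) (nat_lit 5))
    (@En.n l30268 (nat_lit 12440) (nat_lit 10) (nat_lit 12))
    (@En.i (nat_lit 8375) (nat_lit 11) (nat_lit 6))
    (@En.n l30269 (nat_lit 9984) (nat_lit 12) (nat_lit 11))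
    (@En.n l612 (nat_lit 8883) (nat_lit 13) (nat_lit 5))
    (@En.i (nat_lit 8875) (nat_lit 14) (nat_lit 11))
    (@En.i (nat_lit 9465) (nat_lit 12) (nat_lit 6))
    (@En.n l830 (nat_lit 9795) (nat_lit 15) (nat_lit 3))))
noncomputable def a555 : T16 Cl := @T16.mk Cl
  (@Cl.mk (nat_lit 0x400090005000a0005000b0008000c0007000600050004000c000b0008000b) (nat_lit 0x508023200008537) (nat_lit 16) Lb.e (@T16.mk En
    (@En.i (nat_lit 7907) (nat_lit 7) (nat_lit 11))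
    (@En.n l30980 (nat_lit 11114) (nat_lit 1) (nat_lit 8))
    (@En.n l30981 (nat_lit 8395) (nat_lit 5) (nat_lit 11))
    (@En.n l30982 (nat_lit 9356) (nat_lit 3) (nat_lit 12))
    (@En.n l30983 (nat_lit 10497) (nat_lit 12) (nat_lit 4))
    (@En.i (nat_lit 6851) (nat_lit 11) (nat_lit 5))
    (@En.n l24685 (nat_lit 9539) (nat_lit 10) (nat_lit 6))
    (@En.n l61 (nat_lit 8882) (nat_lit 7) (nat_lit 7))
    (@En.n l24685 (nat_lit 8875) (nat_lit 7) (nat_lit 12))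
    (@En.n l30984 (nat_lit 8885) (nat_lit 4) (nat_lit 8))
    (@En.n l24685 (nat_lit 9735) (nat_lit 11) (nat_lit 11))
    (@En.n l30985 (nat_lit 8801) (nat_lit 6) (nat_lit 5))
    (@En.n l24316 (nat_lit 11178) (nat_lit 10) (nat_lit 10))
    (@En.n l30986 (nat_lit 8789) (nat_lit 1) (nat_lit 5))
    (@En.n l24683 (nat_lit 9472) (nat_lit 0) (nat_lit 9))
    (@En.n l13355 (nat_lit 9472) (nat_lit 15) (nat_lit 4))))
  (@Cl.mk (nat_lit 0x300080006000b0006000b0007000c0005000800050004000a000d000a0009) (nat_lit 0x609070905007862) (nat_lit 16) Lb.e (@T16.mk En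
    (@En.n l28857 (nat_lit 8472) (nat_lit 0) (nat_lit 9))
    (@En.n l14311 (nat_lit 8801) (nat_lit 13) (nat_lit 10))
    (@En.n l15223 (nat_lit 5096) (nat_lit 5) (nat_lit 13))
    (@En.n l2320 (nat_lit 10018) (nat_lit 3) (nat_lit 10))
    (@En.n l41456 (nat_lit 8458) (nat_lit 12) (nat_lit 4))
    (@En.n l15223 (nat_lit 10660) (nat_lit 0) (nat_lit 5))
    (@En.n l28857 (nat_lit 11235) (nat_lit 10) (nat_lit 8))
    (@En.n l41457 (nat_lit 8404) (nat_lit 7) (nat_lit 5))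
    (@En.i (nat_lit 12707) (nat_lit 9) (nat_lit 12))
    (@En.n l61 (nat_lit 8405) (nat_lit 1) (nat_lit 7))
    (@En.n l15223 (nat_lit 9982) (nat_lit 11) (nat_lit 11))
    (@En.n l35497 (nat_lit 8882) (nat_lit 12) (nat_lit 6))
    (@En.n l41458 (nat_lit 8878) (nat_lit 13) (nat_lit 11))
    (@En.n l41459 (nat_lit 8879) (nat_lit 14) (nat_lit 6))
    (@En.n l41456 (nat_lit 8885) (nat_lit 12) (nat_lit 8))
    (@En.n l41460 (nat_lit 9978) (nat_lit 15) (nat_lit 3))))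
  (@Cl.mk (nat_lit 0x4000900070006000b0006000c00090007000500040009000c000a0007000a) (nat_lit 0x600900300017202) (nat_lit 16) Lb.e (@T16.mk En
    (@En.i (nat_lit 9737) (nat_lit 8) (nat_lit 10))
    (@En.n l41804 (nat_lit 11113) (nat_lit 1) (nat_lit 7))
    (@En.n l10040 (nat_lit 8386) (nat_lit 13) (nat_lit 10))
    (@En.n l3696 (nat_lit 9357) (nat_lit 6) (nat_lit 12))
    (@En.n l24317 (nat_lit 4312) (nat_lit 4) (nat_lit 9))
    (@En.i (nat_lit 6850) (nat_lit 12) (nat_lit 4))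
    (@En.n l41805 (nat_lit 10079) (nat_lit 0) (nat_lit 5))
    (@En.n l31676 (nat_lit 10450) (nat_lit 1) (nat_lit 7))
    (@En.n l41806 (nat_lit 9727) (nat_lit 1) (nat_lit 9))
    (@En.n l41807 (nat_lit 9729) (nat_lit 2) (nat_lit 12))
    (@En.n l41808 (nat_lit 9425) (nat_lit 4) (nat_lit 6))
    (@En.n l3696 (nat_lit 10641) (nat_lit 9) (nat_lit 11))
    (@En.n l4163 (nat_lit 8878) (nat_lit 10) (nat_lit 6))
    (@En.n l17 (nat_lit 8883) (nat_lit 14) (nat_lit 7))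
    (@En.i (nat_lit 9739) (nat_lit 11) (nat_lit 9))
    (@En.n l13355 (nat_lit 9949) (nat_lit 15) (nat_lit 4))))
  (@Cl.mk (nat_lit 0x400070005000b0005000c0008000c0005000400090004000c000b0008000b) (nat_lit 0x9003500108342) (nat_lit 16) Lb.e (@T16.mk En
    (@En.i (nat_lit 9740) (nat_lit 7) (nat_lit 11))
    (@En.n l3699 (nat_lit 11112) (nat_lit 1) (nat_lit 8))
    (@En.n l3866 (nat_lit 8790) (nat_lit 5) (nat_lit 11))
    (@En.i (nat_lit 8882) (nat_lit 3) (nat_lit 12))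
    (@En.i (nat_lit 8880) (nat_lit 4) (nat_lit 4))
    (@En.n l24318 (nat_lit 4311) (nat_lit 0) (nat_lit 9))
    (@En.i (nat_lit 6849) (nat_lit 12) (nat_lit 4))
    (@En.n l24259 (nat_lit 9823) (nat_lit 0) (nat_lit 5))
    (@En.n l3699 (nat_lit 8873) (nat_lit 1) (nat_lit 12))
    (@En.n l9886 (nat_lit 9728) (nat_lit 1) (nat_lit 8))
    (@En.n l34973 (nat_lit 9730) (nat_lit 2) (nat_lit 12))
    (@En.n l9890 (nat_lit 9423) (nat_lit 4) (nat_lit 5))
    (@En.n l33436 (nat_lit 10642) (nat_lit 13) (nat_lit 11))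
    (@En.n l30986 (nat_lit 8416) (nat_lit 11) (nat_lit 5))
    (@En.i (nat_lit 9462) (nat_lit 11) (nat_lit 7))
    (@En.n l13355 (nat_lit 9473) (nat_lit 15) (nat_lit 4))))
  (@Cl.mk (nat_lit 0x30008000b0004000a0007000b0005000c0008000600050004000d0009000c) (nat_lit 0x430508046000926) (nat_lit 16) Lb.e (@T16.mk En
    (@En.n l14711 (nat_lit 7480) (nat_lit 0) (nat_lit 12))
    (@En.n l29358 (nat_lit 8882) (nat_lit 4) (nat_lit 9))
    (@En.i (nat_lit 5099) (nat_lit 2) (nat_lit 13))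
    (@En.n l24495 (nat_lit 9794) (nat_lit 3) (nat_lit 4))
    (@En.n l14711 (nat_lit 9661) (nat_lit 11) (nat_lit 5))
    (@En.i (nat_lit 10447) (nat_lit 5) (nat_lit 6))
    (@En.n l40486 (nat_lit 9978) (nat_lit 6) (nat_lit 8))
    (@En.n l13633 (nat_lit 9750) (nat_lit 8) (nat_lit 12))
    (@En.n l41784 (nat_lit 9655) (nat_lit 8) (nat_lit 5))
    (@En.i (nat_lit 12712) (nat_lit 10) (nat_lit 11))
    (@En.n l29382 (nat_lit 9788) (nat_lit 14) (nat_lit 7))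
    (@En.n l50 (nat_lit 9980) (nat_lit 12) (nat_lit 10))
    (@En.n l22354 (nat_lit 9472) (nat_lit 13) (nat_lit 4))
    (@En.n l217 (nat_lit 10524) (nat_lit 7) (nat_lit 11))
    (@En.n l14711 (nat_lit 11097) (nat_lit 1) (nat_lit 8))
    (@En.n l15187 (nat_lit 8878) (nat_lit 15) (nat_lit 3))))
  (@Cl.mk (nat_lit 0x4000b000a00080005000b0005000a0006000b00050008000c00060005000b) (nat_lit 0x775080609024002) (nat_lit 16) Lb.e (@T16.mk En
    (@En.n l42449 (nat_lit 9334) (nat_lit 0) (nat_lit 11))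
    (@En.i (nat_lit 9541) (nat_lit 11) (nat_lit 5))
    (@En.n l40028 (nat_lit 9727) (nat_lit 0) (nat_lit 6))
    (@En.i (nat_lit 8879) (nat_lit 7) (nat_lit 12))
    (@En.n l3786 (nat_lit 11304) (nat_lit 10) (nat_lit 8))
    (@En.n l42450 (nat_lit 9474) (nat_lit 5) (nat_lit 5))
    (@En.n l42451 (nat_lit 11177) (nat_lit 0) (nat_lit 11))
    (@En.n l36185 (nat_lit 8389) (nat_lit 1) (nat_lit 6))
    (@En.n l33035 (nat_lit 9471) (nat_lit 2) (nat_lit 10))
    (@En.n l612 (nat_lit 9739) (nat_lit 9) (nat_lit 5))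
    (@En.n l28368 (nat_lit 8880) (nat_lit 0) (nat_lit 11))
    (@En.n l42449 (nat_lit 9358) (nat_lit 1) (nat_lit 5))
    (@En.n l29991 (nat_lit 11119) (nat_lit 2) (nat_lit 8))
    (@En.n l42452 (nat_lit 8774) (nat_lit 6) (nat_lit 10))
    (@En.n l42453 (nat_lit 9355) (nat_lit 2) (nat_lit 11))
    (@En.n l42454 (nat_lit 10498) (nat_lit 15) (nat_lit 4))))
  (@Cl.mk (nat_lit 0x2000a000d000a00050003000c0006000c00060004000e00040002000e000b) (nat_lit 0x6280030400700b9) (nat_lit 16) Lb.e (@T16.mk En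
    (@En.n l1208 (nat_lit 8891) (nat_lit 14) (nat_lit 11))
    (@En.i (nat_lit 8470) (nat_lit 1) (nat_lit 14))
    (@En.n l18 (nat_lit 8886) (nat_lit 2) (nat_lit 2))
    (@En.n l7 (nat_lit 8268) (nat_lit 3) (nat_lit 4))
    (@En.n l396 (nat_lit 4867) (nat_lit 1) (nat_lit 14))
    (@En.n l7 (nat_lit 6313) (nat_lit 5) (nat_lit 4))
    (@En.i (nat_lit 3950) (nat_lit 6) (nat_lit 6))
    (@En.i (nat_lit 8485) (nat_lit 8) (nat_lit 12))
    (@En.n l420 (nat_lit 8887) (nat_lit 8) (nat_lit 6))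
    (@En.n l287 (nat_lit 8888) (nat_lit 10) (nat_lit 12))
    (@En.n l11 (nat_lit 8867) (nat_lit 10) (nat_lit 3))
    (@En.n l322 (nat_lit 8369) (nat_lit 0) (nat_lit 5))
    (@En.i (nat_lit 8984) (nat_lit 13) (nat_lit 10))
    (@En.n l1208 (nat_lit 3731) (nat_lit 5) (nat_lit 13))
    (@En.i (nat_lit 7857) (nat_lit 12) (nat_lit 10))
    (@En.n l3 (nat_lit 8886) (nat_lit 15) (nat_lit 2))))
  (@Cl.mk (nat_lit 0x2000a0008000d000b000600030006000c00050008000e00040002000e000a) (nat_lit 0x7239000302400b3) (nat_lit 16) Lb.e (@T16.mk En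
    (@En.n l10704 (nat_lit 8889) (nat_lit 14) (nat_lit 10))
    (@En.n l3026 (nat_lit 8469) (nat_lit 1) (nat_lit 14))
    (@En.n l50 (nat_lit 8887) (nat_lit 2) (nat_lit 2))
    (@En.n l10705 (nat_lit 8269) (nat_lit 3) (nat_lit 4))
    (@En.i (nat_lit 4864) (nat_lit 5) (nat_lit 14))
    (@En.n l626 (nat_lit 3524) (nat_lit 10) (nat_lit 8))
    (@En.n l10706 (nat_lit 3952) (nat_lit 6) (nat_lit 5))
    (@En.i (nat_lit 8447) (nat_lit 8) (nat_lit 12))
    (@En.n l10707 (nat_lit 7140) (nat_lit 8) (nat_lit 6))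
    (@En.n l11 (nat_lit 8868) (nat_lit 9) (nat_lit 3))
    (@En.n l10708 (nat_lit 8370) (nat_lit 0) (nat_lit 6))
    (@En.n l55 (nat_lit 8888) (nat_lit 12) (nat_lit 11))
    (@En.n l387 (nat_lit 8886) (nat_lit 13) (nat_lit 13))
    (@En.n l699 (nat_lit 7977) (nat_lit 14) (nat_lit 8))
    (@En.n l1080 (nat_lit 7847) (nat_lit 12) (nat_lit 10))
    (@En.n l3 (nat_lit 8887) (nat_lit 15) (nat_lit 2))))
  (@Cl.mk (nat_lit 0x2000b0008000b0005000c0005000b000500040008000e00050002000e000b) (nat_lit 0x828020300370080) (nat_lit 16) Lb.e (@T16.mk En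
    (@En.n l965 (nat_lit 8890) (nat_lit 14) (nat_lit 11))
    (@En.n l7855 (nat_lit 8468) (nat_lit 1) (nat_lit 14))
    (@En.n l50 (nat_lit 8888) (nat_lit 2) (nat_lit 2))
    (@En.n l7856 (nat_lit 8476) (nat_lit 3) (nat_lit 5))
    (@En.i (nat_lit 8710) (nat_lit 5) (nat_lit 14))
    (@En.n l343 (nat_lit 8887) (nat_lit 5) (nat_lit 8))
    (@En.n l28 (nat_lit 8868) (nat_lit 6) (nat_lit 4))
    (@En.n l7857 (nat_lit 3951) (nat_lit 7) (nat_lit 5))
    (@En.i (nat_lit 8452) (nat_lit 9) (nat_lit 11))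
    (@En.n l699 (nat_lit 7139) (nat_lit 9) (nat_lit 5))
    (@En.n l1253 (nat_lit 5958) (nat_lit 11) (nat_lit 12))
    (@En.n l7858 (nat_lit 9044) (nat_lit 8) (nat_lit 5))
    (@En.n l387 (nat_lit 8985) (nat_lit 13) (nat_lit 11))
    (@En.n l699 (nat_lit 7976) (nat_lit 14) (nat_lit 8))
    (@En.i (nat_lit 7838) (nat_lit 12) (nat_lit 11))
    (@En.n l3 (nat_lit 8888) (nat_lit 15) (nat_lit 2))))
  (@Cl.mk (nat_lit 0x2000a000a00090007000c000a0006000600040007000c00060009000e0004) (nat_lit 0x2760340000103b0) (nat_lit 16) Lb.e (@T16.mk En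
    (@En.n l22713 (nat_lit 8892) (nat_lit 15) (nat_lit 4))
    (@En.n l22714 (nat_lit 7120) (nat_lit 1) (nat_lit 14))
    (@En.n l50 (nat_lit 3623) (nat_lit 9) (nat_lit 9))
    (@En.n l22715 (nat_lit 4568) (nat_lit 3) (nat_lit 6))
    (@En.n l22716 (nat_lit 8364) (nat_lit 5) (nat_lit 12))
    (@En.n l22717 (nat_lit 5018) (nat_lit 5) (nat_lit 7))
    (@En.n l22718 (nat_lit 9772) (nat_lit 6) (nat_lit 4))
    (@En.n l22719 (nat_lit 8887) (nat_lit 10) (nat_lit 6))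
    (@En.n l22714 (nat_lit 9770) (nat_lit 8) (nat_lit 6))
    (@En.n l22720 (nat_lit 8890) (nat_lit 10) (nat_lit 10))
    (@En.n l22721 (nat_lit 8891) (nat_lit 11) (nat_lit 12))
    (@En.i (nat_lit 5885) (nat_lit 12) (nat_lit 7))
    (@En.n l22714 (nat_lit 9279) (nat_lit 13) (nat_lit 9))
    (@En.n l22722 (nat_lit 8896) (nat_lit 6) (nat_lit 10))
    (@En.n l15873 (nat_lit 8409) (nat_lit 14) (nat_lit 10))
    (@En.n l17 (nat_lit 8889) (nat_lit 15) (nat_lit 2))))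
  (@Cl.mk (nat_lit 0x2000b000b000a0007000a00050005000c0006000b000600040009000e0005) (nat_lit 0x9870300301004b0) (nat_lit 16) Lb.e (@T16.mk En
    (@En.n l18747 (nat_lit 8894) (nat_lit 6) (nat_lit 5))
    (@En.i (nat_lit 8732) (nat_lit 1) (nat_lit 14))
    (@En.n l18748 (nat_lit 8889) (nat_lit 2) (nat_lit 9))
    (@En.n l18749 (nat_lit 8895) (nat_lit 3) (nat_lit 4))
    (@En.n l9876 (nat_lit 4567) (nat_lit 4) (nat_lit 6))
    (@En.n l2944 (nat_lit 8360) (nat_lit 1) (nat_lit 11))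
    (@En.n l18750 (nat_lit 5016) (nat_lit 6) (nat_lit 6))
    (@En.n l18751 (nat_lit 11392) (nat_lit 8) (nat_lit 12))
    (@En.n l1154 (nat_lit 8888) (nat_lit 11) (nat_lit 5))
    (@En.n l18752 (nat_lit 11044) (nat_lit 9) (nat_lit 5))
    (@En.n l9876 (nat_lit 8975) (nat_lit 11) (nat_lit 10))
    (@En.n l18749 (nat_lit 5886) (nat_lit 12) (nat_lit 7))
    (@En.n l55 (nat_lit 9280) (nat_lit 13) (nat_lit 10))
    (@En.n l2940 (nat_lit 8897) (nat_lit 14) (nat_lit 11))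
    (@En.i (nat_lit 9477) (nat_lit 11) (nat_lit 11))
    (@En.n l18 (nat_lit 8890) (nat_lit 15) (nat_lit 2))))
  (@Cl.mk (nat_lit 0x2000b000b0009000c0009000500050004000c0007000c00070004000e0004) (nat_lit 0x8752700040500b0) (nat_lit 16) Lb.e (@T16.mk En
    (@En.n l2210 (nat_lit 8893) (nat_lit 15) (nat_lit 4))
    (@En.n l4311 (nat_lit 7121) (nat_lit 1) (nat_lit 14))
    (@En.i (nat_lit 6318) (nat_lit 2) (nat_lit 4))
    (@En.n l6366 (nat_lit 3354) (nat_lit 3) (nat_lit 7))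
    (@En.n l3699 (nat_lit 8487) (nat_lit 5) (nat_lit 12))
    (@En.n l9886 (nat_lit 8889) (nat_lit 5) (nat_lit 7))
    (@En.n l9887 (nat_lit 8890) (nat_lit 7) (nat_lit 12))
    (@En.n l9888 (nat_lit 9773) (nat_lit 7) (nat_lit 4))
    (@En.n l8042 (nat_lit 8886) (nat_lit 11) (nat_lit 5))
    (@En.n l6366 (nat_lit 9768) (nat_lit 9) (nat_lit 5))
    (@En.i (nat_lit 8973) (nat_lit 11) (nat_lit 9))
    (@En.i (nat_lit 2681) (nat_lit 6) (nat_lit 12))
    (@En.n l9889 (nat_lit 9278) (nat_lit 13) (nat_lit 9))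
    (@En.n l7201 (nat_lit 8898) (nat_lit 5) (nat_lit 11))
    (@En.n l9890 (nat_lit 9423) (nat_lit 12) (nat_lit 11))
    (@En.n l17 (nat_lit 8891) (nat_lit 15) (nat_lit 2))))
  (@Cl.mk (nat_lit 0x40004000a000a00090006000c00090006000600040007000c000c0007000a) (nat_lit 0x47504700002203) (nat_lit 16) Lb.e (@T16.mk En
    (@En.i (nat_lit 3241) (nat_lit 8) (nat_lit 10))
    (@En.n l31007 (nat_lit 2594) (nat_lit 1) (nat_lit 7))
    (@En.n l31008 (nat_lit 8889) (nat_lit 4) (nat_lit 12))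
    (@En.n l31009 (nat_lit 8420) (nat_lit 8) (nat_lit 12))
    (@En.n l5201 (nat_lit 5019) (nat_lit 11) (nat_lit 7))
    (@En.n l31010 (nat_lit 9751) (nat_lit 5) (nat_lit 4))
    (@En.n l31011 (nat_lit 8269) (nat_lit 10) (nat_lit 6))
    (@En.n l12285 (nat_lit 9748) (nat_lit 1) (nat_lit 6))
    (@En.n l31012 (nat_lit 8894) (nat_lit 0) (nat_lit 9))
    (@En.n l31013 (nat_lit 8893) (nat_lit 10) (nat_lit 12))
    (@En.n l31014 (nat_lit 5883) (nat_lit 4) (nat_lit 6))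
    (@En.i (nat_lit 8766) (nat_lit 7) (nat_lit 9))
    (@En.n l7298 (nat_lit 8899) (nat_lit 6) (nat_lit 10))
    (@En.n l7299 (nat_lit 9474) (nat_lit 14) (nat_lit 10))
    (@En.n l7300 (nat_lit 8931) (nat_lit 12) (nat_lit 4))
    (@En.n l31015 (nat_lit 9966) (nat_lit 0) (nat_lit 4))))
  (@Cl.mk (nat_lit 0x40004000b000b0009000c0008000500050004000b0007000c000c00080005) (nat_lit 0x97536000403650) (nat_lit 16) Lb.e (@T16.mk En
    (@En.n l6379 (nat_lit 4083) (nat_lit 0) (nat_lit 5))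
    (@En.n l575 (nat_lit 2596) (nat_lit 1) (nat_lit 8))
    (@En.n l6380 (nat_lit 8891) (nat_lit 4) (nat_lit 12))
    (@En.n l20226 (nat_lit 8350) (nat_lit 2) (nat_lit 12))
    (@En.n l20227 (nat_lit 8892) (nat_lit 4) (nat_lit 7))
    (@En.n l20228 (nat_lit 8894) (nat_lit 13) (nat_lit 11))
    (@En.n l20229 (nat_lit 9750) (nat_lit 12) (nat_lit 4))
    (@En.n l20230 (nat_lit 8268) (nat_lit 11) (nat_lit 5))
    (@En.i (nat_lit 9746) (nat_lit 1) (nat_lit 5))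
    (@En.n l6379 (nat_lit 8940) (nat_lit 0) (nat_lit 8))
    (@En.i (nat_lit 2683) (nat_lit 6) (nat_lit 12))
    (@En.n l742 (nat_lit 8769) (nat_lit 12) (nat_lit 9))
    (@En.n l396 (nat_lit 8909) (nat_lit 5) (nat_lit 11))
    (@En.n l3540 (nat_lit 8801) (nat_lit 14) (nat_lit 11))
    (@En.n l1577 (nat_lit 8933) (nat_lit 12) (nat_lit 4))
    (@En.i (nat_lit 9969) (nat_lit 0) (nat_lit 4))))
  (@Cl.mk (nat_lit 0x50005000b0006000b000b00070005000a00050005000b000b000a00060009) (nat_lit 0x30520040058606) (nat_lit 16) Lb.e (@T16.mk En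
    (@En.n l6590 (nat_lit 8977) (nat_lit 9) (nat_lit 9))
    (@En.n l34557 (nat_lit 5884) (nat_lit 1) (nat_lit 6))
    (@En.n l34558 (nat_lit 8768) (nat_lit 6) (nat_lit 10))
    (@En.n l34559 (nat_lit 8948) (nat_lit 5) (nat_lit 11))
    (@En.n l34283 (nat_lit 9475) (nat_lit 10) (nat_lit 11))
    (@En.n l20823 (nat_lit 8932) (nat_lit 11) (nat_lit 5))
    (@En.n l34560 (nat_lit 8758) (nat_lit 0) (nat_lit 5))
    (@En.n l34561 (nat_lit 8892) (nat_lit 0) (nat_lit 10))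
    (@En.n l34562 (nat_lit 8905) (nat_lit 1) (nat_lit 5))
    (@En.n l97 (nat_lit 6891) (nat_lit 0) (nat_lit 7))
    (@En.n l28195 (nat_lit 8890) (nat_lit 5) (nat_lit 11))
    (@En.n l34283 (nat_lit 8421) (nat_lit 9) (nat_lit 11))
    (@En.n l34563 (nat_lit 5015) (nat_lit 5) (nat_lit 6))
    (@En.n l34564 (nat_lit 10278) (nat_lit 0) (nat_lit 11))
    (@En.n l237 (nat_lit 8476) (nat_lit 11) (nat_lit 5))
    (@En.n l18901 (nat_lit 11043) (nat_lit 0) (nat_lit 5))))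
  (@Cl.mk (nat_lit 0x2000b000b00090007000c00050005000c00040007000c00040009000e0004) (nat_lit 0x8760200a00102a0) (nat_lit 16) Lb.e (@T16.mk En
    (@En.n l50 (nat_lit 8905) (nat_lit 15) (nat_lit 4))
    (@En.n l29842 (nat_lit 7426) (nat_lit 1) (nat_lit 14))
    (@En.n l50 (nat_lit 3242) (nat_lit 2) (nat_lit 9))
    (@En.i (nat_lit 7984) (nat_lit 3) (nat_lit 4))
    (@En.n l22716 (nat_lit 8362) (nat_lit 0) (nat_lit 12))
    (@En.n l30532 (nat_lit 5959) (nat_lit 11) (nat_lit 7))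
    (@En.i (nat_lit 8889) (nat_lit 6) (nat_lit 4))
    (@En.n l30533 (nat_lit 9778) (nat_lit 8) (nat_lit 12))
    (@En.n l22719 (nat_lit 8868) (nat_lit 11) (nat_lit 5))
    (@En.n l936 (nat_lit 11047) (nat_lit 9) (nat_lit 5))
    (@En.n l22721 (nat_lit 8900) (nat_lit 11) (nat_lit 12))
    (@En.i (nat_lit 5887) (nat_lit 12) (nat_lit 7))
    (@En.n l34552 (nat_lit 9283) (nat_lit 13) (nat_lit 9))
    (@En.n l22722 (nat_lit 8902) (nat_lit 14) (nat_lit 11))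
    (@En.i (nat_lit 9728) (nat_lit 11) (nat_lit 11))
    (@En.n l17 (nat_lit 8895) (nat_lit 15) (nat_lit 2))))
noncomputable def a556 : T16 Cl := @T16.mk Cl
  (@Cl.mk (nat_lit 0x200050008000c0007000a000e00040002000a00080006000b0009000e0006) (nat_lit 0x2103c006403480) (nat_lit 16) Lb.e (@T16.mk En
    (@En.n l17722 (nat_lit 8889) (nat_lit 8) (nat_lit 6))
    (@En.n l3 (nat_lit 8902) (nat_lit 10) (nat_lit 14))
    (@En.n l3 (nat_lit 8897) (nat_lit 11) (nat_lit 9))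
    (@En.n l245 (nat_lit 8898) (nat_lit 3) (nat_lit 11))
    (@En.n l5592 (nat_lit 5879) (nat_lit 4) (nat_lit 6))
    (@En.n l3101 (nat_lit 5675) (nat_lit 5) (nat_lit 8))
    (@En.n l17723 (nat_lit 9690) (nat_lit 7) (nat_lit 10))
    (@En.n l28 (nat_lit 8896) (nat_lit 7) (nat_lit 2))
    (@En.n l17724 (nat_lit 8899) (nat_lit 8) (nat_lit 4))
    (@En.i (nat_lit 7447) (nat_lit 10) (nat_lit 14))
    (@En.n l17725 (nat_lit 3235) (nat_lit 11) (nat_lit 10))
    (@En.n l17726 (nat_lit 4475) (nat_lit 12) (nat_lit 7))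
    (@En.i (nat_lit 8359) (nat_lit 13) (nat_lit 12))
    (@En.n l3105 (nat_lit 5946) (nat_lit 14) (nat_lit 8))
    (@En.n l17727 (nat_lit 10988) (nat_lit 13) (nat_lit 5))
    (@En.n l17 (nat_lit 8896) (nat_lit 15) (nat_lit 2))))
  (@Cl.mk (nat_lit 0x2000b000900060009000e00050002000c0007000b00070004000a000e0005) (nat_lit 0x7603600701004c0) (nat_lit 16) Lb.e (@T16.mk En
    (@En.n l23891 (nat_lit 8948) (nat_lit 7) (nat_lit 5))
    (@En.i (nat_lit 7456) (nat_lit 9) (nat_lit 14))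
    (@En.n l1690 (nat_lit 8896) (nat_lit 10) (nat_lit 10))
    (@En.n l152 (nat_lit 8902) (nat_lit 3) (nat_lit 4))
    (@En.n l33466 (nat_lit 4560) (nat_lit 4) (nat_lit 7))
    (@En.i (nat_lit 8357) (nat_lit 13) (nat_lit 11))
    (@En.n l13520 (nat_lit 5947) (nat_lit 14) (nat_lit 7))
    (@En.n l14811 (nat_lit 11440) (nat_lit 8) (nat_lit 12))
    (@En.n l17 (nat_lit 8897) (nat_lit 8) (nat_lit 2))
    (@En.n l8605 (nat_lit 8890) (nat_lit 9) (nat_lit 5))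
    (@En.i (nat_lit 8955) (nat_lit 11) (nat_lit 14))
    (@En.n l7889 (nat_lit 8974) (nat_lit 2) (nat_lit 9))
    (@En.n l5592 (nat_lit 5878) (nat_lit 13) (nat_lit 6))
    (@En.n l32669 (nat_lit 5672) (nat_lit 14) (nat_lit 9))
    (@En.n l217 (nat_lit 9688) (nat_lit 6) (nat_lit 11))
    (@En.n l28 (nat_lit 8897) (nat_lit 15) (nat_lit 2))))
  (@Cl.mk (nat_lit 0x20005000c0008000c00080004000e00040002000b0008000b0008000e0005) (nat_lit 0x83720100642360) (nat_lit 16) Lb.e (@T16.mk En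
    (@En.n l22671 (nat_lit 8891) (nat_lit 9) (nat_lit 5))
    (@En.n l3 (nat_lit 8901) (nat_lit 1) (nat_lit 14))
    (@En.n l3 (nat_lit 8972) (nat_lit 2) (nat_lit 8))
    (@En.n l18544 (nat_lit 4089) (nat_lit 3) (nat_lit 11))
    (@En.n l22672 (nat_lit 5679) (nat_lit 4) (nat_lit 8))
    (@En.n l22673 (nat_lit 9692) (nat_lit 6) (nat_lit 11))
    (@En.n l7 (nat_lit 8898) (nat_lit 6) (nat_lit 2))
    (@En.n l22674 (nat_lit 8909) (nat_lit 7) (nat_lit 4))
    (@En.n l134 (nat_lit 3537) (nat_lit 9) (nat_lit 14))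
    (@En.n l11 (nat_lit 4074) (nat_lit 9) (nat_lit 4))
    (@En.n l18544 (nat_lit 4473) (nat_lit 11) (nat_lit 8))
    (@En.i (nat_lit 8342) (nat_lit 12) (nat_lit 12))
    (@En.n l532 (nat_lit 8896) (nat_lit 13) (nat_lit 8))
    (@En.n l19439 (nat_lit 8897) (nat_lit 7) (nat_lit 12))
    (@En.n l3106 (nat_lit 10987) (nat_lit 13) (nat_lit 5))
    (@En.n l17 (nat_lit 8898) (nat_lit 15) (nat_lit 2))))
  (@Cl.mk (nat_lit 0x200050008000c000c0008000b00040004000a00080005000b0008000e0006) (nat_lit 0x28243006307570) (nat_lit 16) Lb.e (@T16.mk En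
    (@En.n l4010 (nat_lit 8892) (nat_lit 7) (nat_lit 6))
    (@En.n l16617 (nat_lit 8904) (nat_lit 1) (nat_lit 14))
    (@En.n l14147 (nat_lit 8948) (nat_lit 2) (nat_lit 8))
    (@En.n l10189 (nat_lit 8909) (nat_lit 3) (nat_lit 11))
    (@En.n l23231 (nat_lit 5881) (nat_lit 4) (nat_lit 5))
    (@En.n l536 (nat_lit 9233) (nat_lit 5) (nat_lit 8))
    (@En.n l810 (nat_lit 8776) (nat_lit 7) (nat_lit 10))
    (@En.n l28 (nat_lit 8945) (nat_lit 7) (nat_lit 4))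
    (@En.n l10441 (nat_lit 8911) (nat_lit 8) (nat_lit 4))
    (@En.i (nat_lit 3233) (nat_lit 10) (nat_lit 11))
    (@En.n l7275 (nat_lit 7241) (nat_lit 11) (nat_lit 8))
    (@En.n l23232 (nat_lit 8896) (nat_lit 12) (nat_lit 12))
    (@En.n l7275 (nat_lit 8352) (nat_lit 13) (nat_lit 12))
    (@En.n l1253 (nat_lit 5905) (nat_lit 14) (nat_lit 8))
    (@En.n l11106 (nat_lit 8168) (nat_lit 13) (nat_lit 5))
    (@En.n l3 (nat_lit 8899) (nat_lit 15) (nat_lit 2))))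
  (@Cl.mk (nat_lit 0x2000c000c0009000c00040004000b0004000c0007000c00050004000e0004) (nat_lit 0x9751009050100a0) (nat_lit 16) Lb.e (@T16.mk En
    (@En.i (nat_lit 8871) (nat_lit 5) (nat_lit 4))
    (@En.n l4311 (nat_lit 7221) (nat_lit 1) (nat_lit 14))
    (@En.i (nat_lit 6317) (nat_lit 2) (nat_lit 4))
    (@En.i (nat_lit 7983) (nat_lit 3) (nat_lit 5))
    (@En.n l3699 (nat_lit 8308) (nat_lit 5) (nat_lit 12))
    (@En.n l9886 (nat_lit 8895) (nat_lit 5) (nat_lit 7))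
    (@En.n l19238 (nat_lit 12771) (nat_lit 7) (nat_lit 12))
    (@En.i (nat_lit 8891) (nat_lit 7) (nat_lit 4))
    (@En.i (nat_lit 9779) (nat_lit 9) (nat_lit 11))
    (@En.n l8042 (nat_lit 8867) (nat_lit 12) (nat_lit 4))
    (@En.n l13355 (nat_lit 6401) (nat_lit 10) (nat_lit 4))
    (@En.i (nat_lit 2655) (nat_lit 6) (nat_lit 12))
    (@En.n l3699 (nat_lit 9287) (nat_lit 13) (nat_lit 9))
    (@En.n l7201 (nat_lit 8901) (nat_lit 4) (nat_lit 12))
    (@En.i (nat_lit 8883) (nat_lit 3) (nat_lit 12))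
    (@En.n l17 (nat_lit 8900) (nat_lit 15) (nat_lit 2))))
  (@Cl.mk (nat_lit 0x2000b0005000c0008000c00050004000e00040002000c0008000b000e0004) (nat_lit 0x900530010064650) (nat_lit 16) Lb.e (@T16.mk En
    (@En.n l22671 (nat_lit 8900) (nat_lit 10) (nat_lit 4))
    (@En.i (nat_lit 5891) (nat_lit 4) (nat_lit 14))
    (@En.n l3988 (nat_lit 4090) (nat_lit 2) (nat_lit 11))
    (@En.i (nat_lit 12282) (nat_lit 14) (nat_lit 8))
    (@En.i (nat_lit 8798) (nat_lit 5) (nat_lit 12))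
    (@En.n l7 (nat_lit 8901) (nat_lit 5) (nat_lit 2))
    (@En.n l11 (nat_lit 8903) (nat_lit 6) (nat_lit 4))
    (@En.n l134 (nat_lit 3527) (nat_lit 1) (nat_lit 14))
    (@En.n l11 (nat_lit 4072) (nat_lit 2) (nat_lit 4))
    (@En.i (nat_lit 12797) (nat_lit 9) (nat_lit 5))
    (@En.i (nat_lit 8301) (nat_lit 11) (nat_lit 12))
    (@En.n l532 (nat_lit 8902) (nat_lit 5) (nat_lit 8))
    (@En.n l3447 (nat_lit 8955) (nat_lit 7) (nat_lit 12))
    (@En.i (nat_lit 8898) (nat_lit 14) (nat_lit 5))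
    (@En.i (nat_lit 10865) (nat_lit 9) (nat_lit 11))
    (@En.n l17 (nat_lit 8901) (nat_lit 15) (nat_lit 2))))
  (@Cl.mk (nat_lit 0x2000b00080006000b000e00050002000c00050008000c0004000a000e0004) (nat_lit 0x6407700a0410210) (nat_lit 16) Lb.e (@T16.mk En
    (@En.i (nat_lit 8904) (nat_lit 7) (nat_lit 4))
    (@En.i (nat_lit 3533) (nat_lit 9) (nat_lit 14))
    (@En.n l6172 (nat_lit 3236) (nat_lit 10) (nat_lit 10))
    (@En.i (nat_lit 12798) (nat_lit 3) (nat_lit 4))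
    (@En.i (nat_lit 8358) (nat_lit 12) (nat_lit 12))
    (@En.n l781 (nat_lit 5950) (nat_lit 5) (nat_lit 8))
    (@En.i (nat_lit 8896) (nat_lit 14) (nat_lit 5))
    (@En.n l10773 (nat_lit 10870) (nat_lit 8) (nat_lit 12))
    (@En.n l17 (nat_lit 8902) (nat_lit 8) (nat_lit 2))
    (@En.n l17722 (nat_lit 8895) (nat_lit 9) (nat_lit 5))
    (@En.i (nat_lit 12809) (nat_lit 4) (nat_lit 14))
    (@En.n l245 (nat_lit 8901) (nat_lit 2) (nat_lit 11))
    (@En.n l5592 (nat_lit 5877) (nat_lit 3) (nat_lit 6))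
    (@En.i (nat_lit 12281) (nat_lit 14) (nat_lit 8))
    (@En.n l217 (nat_lit 8771) (nat_lit 6) (nat_lit 11))
    (@En.n l28 (nat_lit 8902) (nat_lit 15) (nat_lit 2))))
  (@Cl.mk (nat_lit 0x2000a0005000b0008000c000c0006000500040004000c0008000b000e0004) (nat_lit 0x802614000073550) (nat_lit 16) Lb.e (@T16.mk En
    (@En.n l3187 (nat_lit 8871) (nat_lit 15) (nat_lit 4))
    (@En.i (nat_lit 4666) (nat_lit 4) (nat_lit 14))
    (@En.n l1203 (nat_lit 4088) (nat_lit 2) (nat_lit 11))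
    (@En.i (nat_lit 12283) (nat_lit 3) (nat_lit 8))
    (@En.n l4943 (nat_lit 8778) (nat_lit 5) (nat_lit 12))
    (@En.n l1200 (nat_lit 8942) (nat_lit 12) (nat_lit 4))
    (@En.n l1577 (nat_lit 8907) (nat_lit 6) (nat_lit 4))
    (@En.i (nat_lit 4076) (nat_lit 7) (nat_lit 5))
    (@En.n l4946 (nat_lit 7798) (nat_lit 8) (nat_lit 6))
    (@En.n l457 (nat_lit 8901) (nat_lit 10) (nat_lit 12))
    (@En.i (nat_lit 8346) (nat_lit 11) (nat_lit 12))
    (@En.n l3339 (nat_lit 8904) (nat_lit 12) (nat_lit 8))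
    (@En.n l20132 (nat_lit 8949) (nat_lit 13) (nat_lit 11))
    (@En.n l24731 (nat_lit 8909) (nat_lit 14) (nat_lit 5))
    (@En.i (nat_lit 10860) (nat_lit 14) (nat_lit 10))
    (@En.n l17 (nat_lit 8903) (nat_lit 15) (nat_lit 2))))
  (@Cl.mk (nat_lit 0x2000b00050008000c000c0005000b00040004000b00080005000b000e0005) (nat_lit 0x905320300630660) (nat_lit 16) Lb.e (@T16.mk En
    (@En.n l37400 (nat_lit 8905) (nat_lit 8) (nat_lit 5))
    (@En.i (nat_lit 8951) (nat_lit 4) (nat_lit 14))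
    (@En.n l250 (nat_lit 8903) (nat_lit 2) (nat_lit 11))
    (@En.n l22936 (nat_lit 5880) (nat_lit 3) (nat_lit 5))
    (@En.n l15979 (nat_lit 9235) (nat_lit 4) (nat_lit 8))
    (@En.n l31978 (nat_lit 8775) (nat_lit 6) (nat_lit 11))
    (@En.n l37401 (nat_lit 8943) (nat_lit 12) (nat_lit 4))
    (@En.i (nat_lit 8906) (nat_lit 7) (nat_lit 4))
    (@En.n l31337 (nat_lit 3232) (nat_lit 9) (nat_lit 11))
    (@En.n l31978 (nat_lit 7799) (nat_lit 9) (nat_lit 5))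
    (@En.n l55 (nat_lit 8902) (nat_lit 4) (nat_lit 12))
    (@En.i (nat_lit 8377) (nat_lit 12) (nat_lit 12))
    (@En.n l15982 (nat_lit 5958) (nat_lit 13) (nat_lit 8))
    (@En.n l17724 (nat_lit 8899) (nat_lit 14) (nat_lit 5))
    (@En.n l28268 (nat_lit 7554) (nat_lit 0) (nat_lit 11))
    (@En.n l17 (nat_lit 8904) (nat_lit 15) (nat_lit 2))))
  (@Cl.mk (nat_lit 0x40004000b000b00090006000c00050005000b00040007000c000c0005000a) (nat_lit 0x87504009003203) (nat_lit 16) Lb.e (@T16.mk En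
    (@En.i (nat_lit 3240) (nat_lit 0) (nat_lit 10))
    (@En.n l40201 (nat_lit 7105) (nat_lit 1) (nat_lit 5))
    (@En.n l742 (nat_lit 8895) (nat_lit 4) (nat_lit 12))
    (@En.n l8632 (nat_lit 8417) (nat_lit 8) (nat_lit 12))
    (@En.n l3506 (nat_lit 12372) (nat_lit 11) (nat_lit 7))
    (@En.n l6849 (nat_lit 8892) (nat_lit 5) (nat_lit 4))
    (@En.n l40202 (nat_lit 10852) (nat_lit 0) (nat_lit 11))
    (@En.n l14282 (nat_lit 8866) (nat_lit 11) (nat_lit 5))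
    (@En.n l936 (nat_lit 11046) (nat_lit 8) (nat_lit 5))
    (@En.n l55 (nat_lit 8871) (nat_lit 0) (nat_lit 12))
    (@En.i (nat_lit 5888) (nat_lit 1) (nat_lit 6))
    (@En.n l14392 (nat_lit 9289) (nat_lit 12) (nat_lit 9))
    (@En.n l40203 (nat_lit 8904) (nat_lit 5) (nat_lit 11))
    (@En.n l40201 (nat_lit 8885) (nat_lit 14) (nat_lit 11))
    (@En.n l40204 (nat_lit 8936) (nat_lit 12) (nat_lit 4))
    (@En.n l40205 (nat_lit 8809) (nat_lit 0) (nat_lit 4))))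
  (@Cl.mk (nat_lit 0x2000a00050008000c0009000d000600040003000b00080007000b000e0005) (nat_lit 0x3031310005606a0) (nat_lit 16) Lb.e (@T16.mk En
    (@En.n l32089 (nat_lit 8809) (nat_lit 9) (nat_lit 5))
    (@En.i (nat_lit 12500) (nat_lit 4) (nat_lit 14))
    (@En.n l10937 (nat_lit 8907) (nat_lit 2) (nat_lit 11))
    (@En.n l6752 (nat_lit 8908) (nat_lit 3) (nat_lit 7))
    (@En.n l58 (nat_lit 12702) (nat_lit 4) (nat_lit 8))
    (@En.n l29716 (nat_lit 10504) (nat_lit 6) (nat_lit 11))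
    (@En.n l32090 (nat_lit 9977) (nat_lit 6) (nat_lit 3))
    (@En.n l11 (nat_lit 8902) (nat_lit 0) (nat_lit 4))
    (@En.n l29716 (nat_lit 7803) (nat_lit 8) (nat_lit 6))
    (@En.i (nat_lit 3529) (nat_lit 10) (nat_lit 13))
    (@En.n l55 (nat_lit 10779) (nat_lit 11) (nat_lit 9))
    (@En.i (nat_lit 8413) (nat_lit 12) (nat_lit 12))
    (@En.n l3447 (nat_lit 11542) (nat_lit 13) (nat_lit 8))
    (@En.n l32091 (nat_lit 8911) (nat_lit 14) (nat_lit 5))
    (@En.n l32092 (nat_lit 10833) (nat_lit 0) (nat_lit 10))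
    (@En.n l17 (nat_lit 8906) (nat_lit 15) (nat_lit 2))))
  (@Cl.mk (nat_lit 0x200090005000d0008000c0003000d000700040003000c0008000b000e0004) (nat_lit 0x307420100055590) (nat_lit 16) Lb.e (@T16.mk En
    (@En.n l18542 (nat_lit 8810) (nat_lit 10) (nat_lit 4))
    (@En.i (nat_lit 5642) (nat_lit 4) (nat_lit 14))
    (@En.n l11736 (nat_lit 3883) (nat_lit 2) (nat_lit 11))
    (@En.i (nat_lit 12705) (nat_lit 3) (nat_lit 8))
    (@En.n l2436 (nat_lit 10499) (nat_lit 11) (nat_lit 12))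
    (@En.n l580 (nat_lit 8815) (nat_lit 5) (nat_lit 3))
    (@En.i (nat_lit 8901) (nat_lit 6) (nat_lit 4))
    (@En.n l2436 (nat_lit 7801) (nat_lit 7) (nat_lit 7))
    (@En.n l9825 (nat_lit 3526) (nat_lit 9) (nat_lit 13))
    (@En.n l11987 (nat_lit 8908) (nat_lit 9) (nat_lit 3))
    (@En.i (nat_lit 8564) (nat_lit 11) (nat_lit 12))
    (@En.n l15797 (nat_lit 8906) (nat_lit 12) (nat_lit 8))
    (@En.n l3447 (nat_lit 10265) (nat_lit 13) (nat_lit 13))
    (@En.n l18544 (nat_lit 8910) (nat_lit 14) (nat_lit 5))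
    (@En.n l993 (nat_lit 10615) (nat_lit 4) (nat_lit 9))
    (@En.n l17 (nat_lit 8907) (nat_lit 15) (nat_lit 2))))
  (@Cl.mk (nat_lit 0x200090005000d000b00090003000d000700050003000c0007000b000e0004) (nat_lit 0x306350200060560) (nat_lit 16) Lb.e (@T16.mk En
    (@En.n l29640 (nat_lit 8812) (nat_lit 10) (nat_lit 4))
    (@En.i (nat_lit 5641) (nat_lit 4) (nat_lit 14))
    (@En.n l8168 (nat_lit 3881) (nat_lit 2) (nat_lit 11))
    (@En.i (nat_lit 12793) (nat_lit 3) (nat_lit 7))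
    (@En.n l25675 (nat_lit 10500) (nat_lit 11) (nat_lit 12))
    (@En.i (nat_lit 10751) (nat_lit 5) (nat_lit 3))
    (@En.n l8163 (nat_lit 5877) (nat_lit 6) (nat_lit 5))
    (@En.n l25675 (nat_lit 7802) (nat_lit 7) (nat_lit 7))
    (@En.n l565 (nat_lit 12156) (nat_lit 9) (nat_lit 13))
    (@En.n l8163 (nat_lit 8907) (nat_lit 9) (nat_lit 3))
    (@En.i (nat_lit 10797) (nat_lit 11) (nat_lit 9))
    (@En.n l5399 (nat_lit 8903) (nat_lit 12) (nat_lit 11))
    (@En.n l781 (nat_lit 10264) (nat_lit 13) (nat_lit 13))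
    (@En.n l6730 (nat_lit 8912) (nat_lit 14) (nat_lit 5))
    (@En.n l2125 (nat_lit 10917) (nat_lit 4) (nat_lit 9))
    (@En.n l17 (nat_lit 8908) (nat_lit 15) (nat_lit 2))))
  (@Cl.mk (nat_lit 0x20005000b0008000c000c0009000500040004000b0008000b0007000e0005) (nat_lit 0x83385000646060) (nat_lit 16) Lb.e (@T16.mk En
    (@En.n l50 (nat_lit 8893) (nat_lit 8) (nat_lit 5))
    (@En.n l31764 (nat_lit 8903) (nat_lit 1) (nat_lit 14))
    (@En.n l31765 (nat_lit 8968) (nat_lit 2) (nat_lit 7))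
    (@En.i (nat_lit 4087) (nat_lit 3) (nat_lit 11))
    (@En.n l31766 (nat_lit 9234) (nat_lit 4) (nat_lit 8))
    (@En.n l12570 (nat_lit 8780) (nat_lit 6) (nat_lit 11))
    (@En.n l31767 (nat_lit 8944) (nat_lit 6) (nat_lit 4))
    (@En.i (nat_lit 8910) (nat_lit 7) (nat_lit 4))
    (@En.n l31768 (nat_lit 4077) (nat_lit 8) (nat_lit 5))
    (@En.n l575 (nat_lit 7242) (nat_lit 10) (nat_lit 9))
    (@En.n l31769 (nat_lit 8898) (nat_lit 11) (nat_lit 12))
    (@En.n l31768 (nat_lit 8345) (nat_lit 12) (nat_lit 12))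
    (@En.n l23240 (nat_lit 8899) (nat_lit 13) (nat_lit 8))
    (@En.n l31770 (nat_lit 8948) (nat_lit 14) (nat_lit 11))
    (@En.n l3184 (nat_lit 8167) (nat_lit 13) (nat_lit 5))
    (@En.n l18 (nat_lit 8909) (nat_lit 15) (nat_lit 2))))
  (@Cl.mk (nat_lit 0x20005000d0008000c0003000d000a00040003000b0008000b0006000e0005) (nat_lit 0x757092005550a0) (nat_lit 16) Lb.e (@T16.mk En
    (@En.n l50 (nat_lit 9969) (nat_lit 9) (nat_lit 5))
    (@En.n l1851 (nat_lit 8907) (nat_lit 1) (nat_lit 14))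
    (@En.n l6631 (nat_lit 10218) (nat_lit 2) (nat_lit 6))
    (@En.i (nat_lit 3854) (nat_lit 3) (nat_lit 11))
    (@En.n l6081 (nat_lit 12704) (nat_lit 4) (nat_lit 8))
    (@En.n l12570 (nat_lit 10505) (nat_lit 6) (nat_lit 11))
    (@En.n l28 (nat_lit 9972) (nat_lit 6) (nat_lit 3))
    (@En.n l10866 (nat_lit 8898) (nat_lit 7) (nat_lit 4))
    (@En.i (nat_lit 7244) (nat_lit 9) (nat_lit 10))
    (@En.n l4353 (nat_lit 3530) (nat_lit 10) (nat_lit 13))
    (@En.n l117 (nat_lit 8912) (nat_lit 10) (nat_lit 3))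
    (@En.n l2922 (nat_lit 8347) (nat_lit 12) (nat_lit 12))
    (@En.i (nat_lit 8911) (nat_lit 13) (nat_lit 8))
    (@En.n l6631 (nat_lit 10223) (nat_lit 14) (nat_lit 13))
    (@En.n l6081 (nat_lit 10942) (nat_lit 13) (nat_lit 5))
    (@En.n l18 (nat_lit 8910) (nat_lit 15) (nat_lit 2))))
  (@Cl.mk (nat_lit 0x200050008000c0009000d000900040003000a00080007000b0007000e0006) (nat_lit 0x465820056060b0) (nat_lit 16) Lb.e (@T16.mk En
    (@En.n l50 (nat_lit 9966) (nat_lit 8) (nat_lit 6))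
    (@En.n l23448 (nat_lit 8906) (nat_lit 1) (nat_lit 14))
    (@En.n l23448 (nat_lit 10219) (nat_lit 2) (nat_lit 7))
    (@En.n l3 (nat_lit 8910) (nat_lit 3) (nat_lit 11))
    (@En.n l3 (nat_lit 8912) (nat_lit 4) (nat_lit 7))
    (@En.n l37012 (nat_lit 12700) (nat_lit 5) (nat_lit 8))
    (@En.n l12570 (nat_lit 10507) (nat_lit 7) (nat_lit 10))
    (@En.n l28 (nat_lit 9973) (nat_lit 7) (nat_lit 3))
    (@En.n l37013 (nat_lit 8896) (nat_lit 8) (nat_lit 4))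
    (@En.i (nat_lit 7243) (nat_lit 10) (nat_lit 9))
    (@En.n l37014 (nat_lit 3535) (nat_lit 11) (nat_lit 13))
    (@En.n l23243 (nat_lit 10780) (nat_lit 12) (nat_lit 9))
    (@En.n l37015 (nat_lit 8351) (nat_lit 13) (nat_lit 12))
    (@En.n l37016 (nat_lit 5907) (nat_lit 14) (nat_lit 8))
    (@En.n l37017 (nat_lit 12318) (nat_lit 13) (nat_lit 5))
    (@En.n l18 (nat_lit 8911) (nat_lit 15) (nat_lit 2))))
noncomputable def a557 : T16 Cl := @T16.mk Cl
  (@Cl.mk (nat_lit 0x20005000d000b00090003000d000a00050003000b0007000b0006000e0005) (nat_lit 0x69409500605070) (nat_lit 16) Lb.e (@T16.mk En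
    (@En.n l50 (nat_lit 9971) (nat_lit 9) (nat_lit 5))
    (@En.n l16250 (nat_lit 8908) (nat_lit 1) (nat_lit 14))
    (@En.n l16415 (nat_lit 10217) (nat_lit 2) (nat_lit 6))
    (@En.i (nat_lit 3853) (nat_lit 3) (nat_lit 11))
    (@En.i (nat_lit 12792) (nat_lit 4) (nat_lit 7))
    (@En.n l16532 (nat_lit 10495) (nat_lit 6) (nat_lit 11))
    (@En.n l28 (nat_lit 9975) (nat_lit 6) (nat_lit 3))
    (@En.n l16533 (nat_lit 5879) (nat_lit 7) (nat_lit 5))
    (@En.i (nat_lit 7245) (nat_lit 9) (nat_lit 10))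
    (@En.n l8331 (nat_lit 12130) (nat_lit 10) (nat_lit 13))
    (@En.n l152 (nat_lit 8910) (nat_lit 10) (nat_lit 3))
    (@En.n l10575 (nat_lit 10795) (nat_lit 12) (nat_lit 9))
    (@En.n l97 (nat_lit 8909) (nat_lit 13) (nat_lit 11))
    (@En.n l4004 (nat_lit 10222) (nat_lit 14) (nat_lit 13))
    (@En.n l15580 (nat_lit 8031) (nat_lit 13) (nat_lit 5))
    (@En.n l18 (nat_lit 8912) (nat_lit 15) (nat_lit 2))))
  (@Cl.mk (nat_lit 0x200080005000c0008000d000c0004000300080004000c0008000b000e0004) (nat_lit 0x406393002024310) (nat_lit 16) Lb.e (@T16.mk En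
    (@En.n l50 (nat_lit 8806) (nat_lit 8) (nat_lit 4))
    (@En.n l19616 (nat_lit 4669) (nat_lit 4) (nat_lit 14))
    (@En.i (nat_lit 4014) (nat_lit 2) (nat_lit 11))
    (@En.n l6081 (nat_lit 12691) (nat_lit 3) (nat_lit 8))
    (@En.n l19617 (nat_lit 9538) (nat_lit 5) (nat_lit 12))
    (@En.n l398 (nat_lit 8903) (nat_lit 5) (nat_lit 4))
    (@En.n l19618 (nat_lit 7396) (nat_lit 6) (nat_lit 8))
    (@En.n l11 (nat_lit 8815) (nat_lit 7) (nat_lit 3))
    (@En.n l19619 (nat_lit 8923) (nat_lit 8) (nat_lit 4))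
    (@En.n l3300 (nat_lit 8907) (nat_lit 10) (nat_lit 12))
    (@En.n l398 (nat_lit 6202) (nat_lit 11) (nat_lit 13))
    (@En.n l19616 (nat_lit 10776) (nat_lit 12) (nat_lit 8))
    (@En.n l19620 (nat_lit 10270) (nat_lit 13) (nat_lit 12))
    (@En.n l403 (nat_lit 9974) (nat_lit 14) (nat_lit 5))
    (@En.n l1353 (nat_lit 10717) (nat_lit 6) (nat_lit 8))
    (@En.n l18 (nat_lit 8913) (nat_lit 15) (nat_lit 2))))
  (@Cl.mk (nat_lit 0x200080006000e000c00020009000d000400080003000c000a0007000e0004) (nat_lit 0x5092073010930c0) (nat_lit 16) Lb.e (@T16.mk En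
    (@En.n l117 (nat_lit 8846) (nat_lit 5) (nat_lit 4))
    (@En.n l4073 (nat_lit 6168) (nat_lit 7) (nat_lit 14))
    (@En.n l936 (nat_lit 7273) (nat_lit 2) (nat_lit 7))
    (@En.n l2436 (nat_lit 8869) (nat_lit 3) (nat_lit 10))
    (@En.n l936 (nat_lit 9160) (nat_lit 10) (nat_lit 12))
    (@En.n l2364 (nat_lit 8915) (nat_lit 5) (nat_lit 3))
    (@En.i (nat_lit 4481) (nat_lit 6) (nat_lit 8))
    (@En.n l3098 (nat_lit 8917) (nat_lit 7) (nat_lit 4))
    (@En.i (nat_lit 3805) (nat_lit 9) (nat_lit 13))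
    (@En.n l12412 (nat_lit 7953) (nat_lit 10) (nat_lit 9))
    (@En.n l50 (nat_lit 8914) (nat_lit 10) (nat_lit 2))
    (@En.n l396 (nat_lit 8916) (nat_lit 12) (nat_lit 12))
    (@En.n l2004 (nat_lit 621) (nat_lit 13) (nat_lit 14))
    (@En.n l4073 (nat_lit 6771) (nat_lit 14) (nat_lit 6))
    (@En.n l614 (nat_lit 9574) (nat_lit 3) (nat_lit 8))
    (@En.n l11 (nat_lit 8914) (nat_lit 15) (nat_lit 2))))
  (@Cl.mk (nat_lit 0x200090006000e000b00020009000d000700050003000c000a0007000e0004) (nat_lit 0x30b2012000940c0) (nat_lit 16) Lb.e (@T16.mk En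
    (@En.n l117 (nat_lit 8267) (nat_lit 5) (nat_lit 4))
    (@En.n l8137 (nat_lit 6163) (nat_lit 7) (nat_lit 14))
    (@En.n l7791 (nat_lit 7390) (nat_lit 2) (nat_lit 7))
    (@En.n l11017 (nat_lit 8928) (nat_lit 3) (nat_lit 10))
    (@En.n l7791 (nat_lit 9834) (nat_lit 10) (nat_lit 12))
    (@En.n l763 (nat_lit 8914) (nat_lit 5) (nat_lit 3))
    (@En.i (nat_lit 7533) (nat_lit 6) (nat_lit 5))
    (@En.n l11018 (nat_lit 8721) (nat_lit 7) (nat_lit 7))
    (@En.i (nat_lit 3804) (nat_lit 9) (nat_lit 13))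
    (@En.n l5842 (nat_lit 7950) (nat_lit 10) (nat_lit 9))
    (@En.n l50 (nat_lit 8915) (nat_lit 10) (nat_lit 2))
    (@En.n l217 (nat_lit 8918) (nat_lit 12) (nat_lit 11))
    (@En.n l11019 (nat_lit 622) (nat_lit 1) (nat_lit 14))
    (@En.n l8137 (nat_lit 6769) (nat_lit 14) (nat_lit 6))
    (@En.n l5858 (nat_lit 9354) (nat_lit 3) (nat_lit 9))
    (@En.n l11 (nat_lit 8915) (nat_lit 15) (nat_lit 2))))
  (@Cl.mk (nat_lit 0x200080006000c000c0008000c0004000400080004000c000a0008000e0004) (nat_lit 0x501a650020922c0) (nat_lit 16) Lb.e (@T16.mk En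
    (@En.n l117 (nat_lit 8813) (nat_lit 7) (nat_lit 4))
    (@En.n l35311 (nat_lit 6169) (nat_lit 1) (nat_lit 14))
    (@En.n l9835 (nat_lit 7272) (nat_lit 2) (nat_lit 8))
    (@En.i (nat_lit 8937) (nat_lit 3) (nat_lit 10))
    (@En.n l35312 (nat_lit 9165) (nat_lit 5) (nat_lit 12))
    (@En.n l403 (nat_lit 8918) (nat_lit 5) (nat_lit 4))
    (@En.n l1353 (nat_lit 10262) (nat_lit 6) (nat_lit 8))
    (@En.n l18 (nat_lit 8914) (nat_lit 7) (nat_lit 4))
    (@En.n l35313 (nat_lit 8919) (nat_lit 8) (nat_lit 4))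
    (@En.i (nat_lit 3648) (nat_lit 10) (nat_lit 12))
    (@En.n l18725 (nat_lit 9339) (nat_lit 11) (nat_lit 8))
    (@En.n l35314 (nat_lit 8923) (nat_lit 4) (nat_lit 12))
    (@En.n l17998 (nat_lit 6863) (nat_lit 13) (nat_lit 12))
    (@En.n l35315 (nat_lit 6308) (nat_lit 14) (nat_lit 6))
    (@En.n l614 (nat_lit 9576) (nat_lit 5) (nat_lit 8))
    (@En.n l11 (nat_lit 8916) (nat_lit 15) (nat_lit 2))))
  (@Cl.mk (nat_lit 0x200080006000d000c000b0003000a000400080005000c000a0006000e0004) (nat_lit 0x5022305030810c0) (nat_lit 16) Lb.e (@T16.mk En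
    (@En.n l34627 (nat_lit 8849) (nat_lit 6) (nat_lit 4))
    (@En.n l19709 (nat_lit 6185) (nat_lit 1) (nat_lit 14))
    (@En.n l34628 (nat_lit 2940) (nat_lit 2) (nat_lit 6))
    (@En.n l4163 (nat_lit 8876) (nat_lit 3) (nat_lit 10))
    (@En.n l34629 (nat_lit 10812) (nat_lit 5) (nat_lit 12))
    (@En.n l17 (nat_lit 7537) (nat_lit 5) (nat_lit 5))
    (@En.n l19165 (nat_lit 9147) (nat_lit 6) (nat_lit 8))
    (@En.n l3851 (nat_lit 8916) (nat_lit 7) (nat_lit 4))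
    (@En.n l617 (nat_lit 7952) (nat_lit 9) (nat_lit 10))
    (@En.n l22232 (nat_lit 8920) (nat_lit 9) (nat_lit 3))
    (@En.n l18153 (nat_lit 8915) (nat_lit 11) (nat_lit 11))
    (@En.n l34630 (nat_lit 8919) (nat_lit 12) (nat_lit 12))
    (@En.n l7641 (nat_lit 3478) (nat_lit 13) (nat_lit 13))
    (@En.n l4163 (nat_lit 6305) (nat_lit 14) (nat_lit 6))
    (@En.n l34631 (nat_lit 10074) (nat_lit 4) (nat_lit 8))
    (@En.n l7 (nat_lit 8917) (nat_lit 15) (nat_lit 2))))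
  (@Cl.mk (nat_lit 0x2000a0006000b000b0008000c0006000500050004000c000a0008000e0004) (nat_lit 0x7013540000a45c0) (nat_lit 16) Lb.e (@T16.mk En
    (@En.n l117 (nat_lit 7370) (nat_lit 15) (nat_lit 4))
    (@En.n l24536 (nat_lit 6162) (nat_lit 1) (nat_lit 14))
    (@En.n l24537 (nat_lit 7372) (nat_lit 2) (nat_lit 8))
    (@En.i (nat_lit 8933) (nat_lit 3) (nat_lit 10))
    (@En.n l24537 (nat_lit 8749) (nat_lit 5) (nat_lit 12))
    (@En.n l24538 (nat_lit 8922) (nat_lit 5) (nat_lit 4))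
    (@En.n l2172 (nat_lit 8915) (nat_lit 6) (nat_lit 5))
    (@En.i (nat_lit 7540) (nat_lit 7) (nat_lit 5))
    (@En.n l24539 (nat_lit 8722) (nat_lit 8) (nat_lit 6))
    (@En.i (nat_lit 3646) (nat_lit 10) (nat_lit 12))
    (@En.n l742 (nat_lit 10260) (nat_lit 11) (nat_lit 8))
    (@En.n l2355 (nat_lit 8924) (nat_lit 5) (nat_lit 11))
    (@En.n l2175 (nat_lit 6861) (nat_lit 13) (nat_lit 11))
    (@En.n l24540 (nat_lit 6340) (nat_lit 14) (nat_lit 6))
    (@En.n l13990 (nat_lit 9355) (nat_lit 14) (nat_lit 10))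
    (@En.n l11 (nat_lit 8918) (nat_lit 15) (nat_lit 2))))
  (@Cl.mk (nat_lit 0x200080006000c000a000d00090004000300080006000c000a0007000e0004) (nat_lit 0x5012930040960b0) (nat_lit 16) Lb.e (@T16.mk En
    (@En.n l32294 (nat_lit 8855) (nat_lit 8) (nat_lit 4))
    (@En.n l25506 (nat_lit 6187) (nat_lit 1) (nat_lit 14))
    (@En.n l6080 (nat_lit 7121) (nat_lit 2) (nat_lit 7))
    (@En.n l22789 (nat_lit 10525) (nat_lit 3) (nat_lit 10))
    (@En.n l810 (nat_lit 10811) (nat_lit 5) (nat_lit 12))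
    (@En.n l32295 (nat_lit 8925) (nat_lit 5) (nat_lit 6))
    (@En.n l10794 (nat_lit 10270) (nat_lit 6) (nat_lit 8))
    (@En.n l18 (nat_lit 8920) (nat_lit 7) (nat_lit 3))
    (@En.n l3348 (nat_lit 8923) (nat_lit 0) (nat_lit 4))
    (@En.n l899 (nat_lit 9338) (nat_lit 10) (nat_lit 9))
    (@En.n l8252 (nat_lit 3991) (nat_lit 11) (nat_lit 13))
    (@En.n l18843 (nat_lit 8922) (nat_lit 12) (nat_lit 10))
    (@En.n l899 (nat_lit 6865) (nat_lit 13) (nat_lit 12))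
    (@En.n l8252 (nat_lit 6303) (nat_lit 14) (nat_lit 6))
    (@En.n l7836 (nat_lit 10434) (nat_lit 6) (nat_lit 8))
    (@En.n l11 (nat_lit 8919) (nat_lit 15) (nat_lit 2))))
  (@Cl.mk (nat_lit 0x200080006000d000a000d0003000a000300080006000c000a0006000e0004) (nat_lit 0x509230504090040) (nat_lit 16) Lb.e (@T16.mk En
    (@En.n l1992 (nat_lit 8854) (nat_lit 8) (nat_lit 4))
    (@En.n l37004 (nat_lit 6186) (nat_lit 1) (nat_lit 14))
    (@En.n l2125 (nat_lit 7238) (nat_lit 2) (nat_lit 6))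
    (@En.n l22789 (nat_lit 10524) (nat_lit 3) (nat_lit 10))
    (@En.n l810 (nat_lit 10810) (nat_lit 5) (nat_lit 12))
    (@En.i (nat_lit 8926) (nat_lit 5) (nat_lit 6))
    (@En.n l9182 (nat_lit 9148) (nat_lit 6) (nat_lit 8))
    (@En.i (nat_lit 8919) (nat_lit 7) (nat_lit 3))
    (@En.i (nat_lit 9530) (nat_lit 0) (nat_lit 10))
    (@En.n l34771 (nat_lit 8917) (nat_lit 9) (nat_lit 3))
    (@En.n l14576 (nat_lit 4826) (nat_lit 11) (nat_lit 13))
    (@En.n l24344 (nat_lit 8921) (nat_lit 12) (nat_lit 10))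
    (@En.n l899 (nat_lit 3477) (nat_lit 13) (nat_lit 13))
    (@En.n l2669 (nat_lit 6302) (nat_lit 14) (nat_lit 6))
    (@En.n l7836 (nat_lit 10435) (nat_lit 6) (nat_lit 8))
    (@En.n l11 (nat_lit 8920) (nat_lit 15) (nat_lit 2))))
  (@Cl.mk (nat_lit 0x200090006000a000d000b00090003000700060005000c000a0007000e0004) (nat_lit 0x1642000088010) (nat_lit 16) Lb.e (@T16.mk En
    (@En.n l28 (nat_lit 10229) (nat_lit 7) (nat_lit 4))
    (@En.n l3867 (nat_lit 5661) (nat_lit 1) (nat_lit 14))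
    (@En.n l17081 (nat_lit 4464) (nat_lit 2) (nat_lit 7))
    (@En.i (nat_lit 9737) (nat_lit 3) (nat_lit 10))
    (@En.n l19536 (nat_lit 11629) (nat_lit 12) (nat_lit 12))
    (@En.i (nat_lit 8917) (nat_lit 5) (nat_lit 5))
    (@En.n l17 (nat_lit 10221) (nat_lit 6) (nat_lit 6))
    (@En.i (nat_lit 10218) (nat_lit 7) (nat_lit 7))
    (@En.n l37741 (nat_lit 8922) (nat_lit 8) (nat_lit 3))
    (@En.n l97 (nat_lit 7738) (nat_lit 0) (nat_lit 9))
    (@En.n l10040 (nat_lit 8918) (nat_lit 11) (nat_lit 11))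
    (@En.n l3696 (nat_lit 11131) (nat_lit 5) (nat_lit 13))
    (@En.n l3867 (nat_lit 6703) (nat_lit 13) (nat_lit 10))
    (@En.n l24868 (nat_lit 4432) (nat_lit 14) (nat_lit 6))
    (@En.i (nat_lit 10399) (nat_lit 5) (nat_lit 9))
    (@En.n l7 (nat_lit 8921) (nat_lit 15) (nat_lit 2))))
  (@Cl.mk (nat_lit 0x200090006000a000d0008000c0003000700060004000c000a0008000e0004) (nat_lit 0x1765000083140) (nat_lit 16) Lb.e (@T16.mk En
    (@En.n l39439 (nat_lit 10240) (nat_lit 7) (nat_lit 4))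
    (@En.n l39440 (nat_lit 6118) (nat_lit 1) (nat_lit 14))
    (@En.n l39441 (nat_lit 4207) (nat_lit 2) (nat_lit 8))
    (@En.n l31867 (nat_lit 9745) (nat_lit 3) (nat_lit 10))
    (@En.i (nat_lit 11951) (nat_lit 12) (nat_lit 12))
    (@En.n l39442 (nat_lit 8916) (nat_lit 5) (nat_lit 4))
    (@En.n l21433 (nat_lit 8927) (nat_lit 6) (nat_lit 6))
    (@En.n l39443 (nat_lit 10265) (nat_lit 7) (nat_lit 7))
    (@En.n l22198 (nat_lit 8921) (nat_lit 8) (nat_lit 3))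
    (@En.n l13798 (nat_lit 3640) (nat_lit 0) (nat_lit 12))
    (@En.n l39444 (nat_lit 10219) (nat_lit 11) (nat_lit 8))
    (@En.n l39445 (nat_lit 11129) (nat_lit 5) (nat_lit 13))
    (@En.n l39440 (nat_lit 6657) (nat_lit 13) (nat_lit 10))
    (@En.n l39446 (nat_lit 4430) (nat_lit 14) (nat_lit 6))
    (@En.n l39447 (nat_lit 10400) (nat_lit 5) (nat_lit 9))
    (@En.n l17 (nat_lit 8922) (nat_lit 15) (nat_lit 2))))
  (@Cl.mk (nat_lit 0x200080005000c000a0009000e0004000200080006000c0007000b000e0004) (nat_lit 0x30631b005090340) (nat_lit 16) Lb.e (@T16.mk En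
    (@En.n l34647 (nat_lit 8916) (nat_lit 8) (nat_lit 4))
    (@En.n l18100 (nat_lit 4804) (nat_lit 10) (nat_lit 14))
    (@En.n l24348 (nat_lit 3647) (nat_lit 2) (nat_lit 11))
    (@En.i (nat_lit 11345) (nat_lit 3) (nat_lit 7))
    (@En.n l564 (nat_lit 9534) (nat_lit 13) (nat_lit 12))
    (@En.n l3428 (nat_lit 7796) (nat_lit 14) (nat_lit 6))
    (@En.n l34648 (nat_lit 8097) (nat_lit 6) (nat_lit 8))
    (@En.n l17 (nat_lit 8923) (nat_lit 7) (nat_lit 2))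
    (@En.n l18220 (nat_lit 10749) (nat_lit 8) (nat_lit 4))
    (@En.i (nat_lit 6204) (nat_lit 10) (nat_lit 14))
    (@En.n l12876 (nat_lit 4805) (nat_lit 2) (nat_lit 9))
    (@En.n l773 (nat_lit 8942) (nat_lit 3) (nat_lit 10))
    (@En.n l1643 (nat_lit 10880) (nat_lit 13) (nat_lit 12))
    (@En.n l1363 (nat_lit 8924) (nat_lit 14) (nat_lit 5))
    (@En.n l34649 (nat_lit 10263) (nat_lit 6) (nat_lit 8))
    (@En.n l28 (nat_lit 8923) (nat_lit 15) (nat_lit 2))))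
  (@Cl.mk (nat_lit 0x20005000c000a0009000e00040002000b0006000b0007000b0005000e0005) (nat_lit 0xa0190070204050) (nat_lit 16) Lb.e (@T16.mk En
    (@En.n l1964 (nat_lit 8918) (nat_lit 7) (nat_lit 5))
    (@En.n l11832 (nat_lit 8923) (nat_lit 1) (nat_lit 14))
    (@En.n l612 (nat_lit 8729) (nat_lit 2) (nat_lit 5))
    (@En.n l1897 (nat_lit 3641) (nat_lit 3) (nat_lit 11))
    (@En.n l32668 (nat_lit 11341) (nat_lit 4) (nat_lit 7))
    (@En.i (nat_lit 9535) (nat_lit 13) (nat_lit 11))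
    (@En.n l35893 (nat_lit 7795) (nat_lit 6) (nat_lit 6))
    (@En.n l7722 (nat_lit 9796) (nat_lit 8) (nat_lit 11))
    (@En.n l17 (nat_lit 8924) (nat_lit 8) (nat_lit 2))
    (@En.n l8605 (nat_lit 7371) (nat_lit 9) (nat_lit 4))
    (@En.n l5 (nat_lit 6203) (nat_lit 11) (nat_lit 14))
    (@En.n l50 (nat_lit 4811) (nat_lit 12) (nat_lit 9))
    (@En.n l20170 (nat_lit 8944) (nat_lit 13) (nat_lit 10))
    (@En.n l5 (nat_lit 8748) (nat_lit 14) (nat_lit 12))
    (@En.n l7889 (nat_lit 11130) (nat_lit 13) (nat_lit 5))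
    (@En.n l28 (nat_lit 8924) (nat_lit 15) (nat_lit 2))))
  (@Cl.mk (nat_lit 0x2000c0006000b000a0004000d000a000500030006000c000a0006000e0004) (nat_lit 0x40130a4000950b0) (nat_lit 16) Lb.e (@T16.mk En
    (@En.n l1236 (nat_lit 9167) (nat_lit 9) (nat_lit 4))
    (@En.n l4096 (nat_lit 6183) (nat_lit 1) (nat_lit 14))
    (@En.n l4289 (nat_lit 7120) (nat_lit 2) (nat_lit 6))
    (@En.i (nat_lit 10527) (nat_lit 3) (nat_lit 10))
    (@En.n l24571 (nat_lit 10294) (nat_lit 5) (nat_lit 12))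
    (@En.i (nat_lit 5819) (nat_lit 12) (nat_lit 6))
    (@En.n l42925 (nat_lit 8926) (nat_lit 6) (nat_lit 3))
    (@En.n l22592 (nat_lit 8924) (nat_lit 0) (nat_lit 5))
    (@En.n l24571 (nat_lit 8755) (nat_lit 9) (nat_lit 10))
    (@En.n l35416 (nat_lit 8919) (nat_lit 10) (nat_lit 13))
    (@En.n l32712 (nat_lit 8727) (nat_lit 10) (nat_lit 4))
    (@En.n l4289 (nat_lit 8927) (nat_lit 12) (nat_lit 10))
    (@En.n l24571 (nat_lit 6864) (nat_lit 13) (nat_lit 11))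
    (@En.n l23080 (nat_lit 4429) (nat_lit 14) (nat_lit 6))
    (@En.n l3501 (nat_lit 10589) (nat_lit 8) (nat_lit 12))
    (@En.n l7 (nat_lit 8925) (nat_lit 15) (nat_lit 2))))
  (@Cl.mk (nat_lit 0x2000c0006000c000a0004000d0004000b00030006000c000a0005000e0004) (nat_lit 0x408304060098040) (nat_lit 16) Lb.e (@T16.mk En
    (@En.n l34676 (nat_lit 9166) (nat_lit 9) (nat_lit 4))
    (@En.i (nat_lit 6188) (nat_lit 1) (nat_lit 14))
    (@En.n l18663 (nat_lit 7237) (nat_lit 2) (nat_lit 5))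
    (@En.n l25147 (nat_lit 10526) (nat_lit 3) (nat_lit 10))
    (@En.i (nat_lit 9205) (nat_lit 5) (nat_lit 12))
    (@En.n l34677 (nat_lit 8314) (nat_lit 12) (nat_lit 6))
    (@En.n l32295 (nat_lit 8925) (nat_lit 6) (nat_lit 3))
    (@En.i (nat_lit 9531) (nat_lit 0) (nat_lit 11))
    (@En.n l34678 (nat_lit 7537) (nat_lit 8) (nat_lit 4))
    (@En.n l10882 (nat_lit 8920) (nat_lit 10) (nat_lit 13))
    (@En.i (nat_lit 8728) (nat_lit 10) (nat_lit 4))
    (@En.n l25147 (nat_lit 10221) (nat_lit 12) (nat_lit 10))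
    (@En.n l17532 (nat_lit 3476) (nat_lit 13) (nat_lit 12))
    (@En.n l2669 (nat_lit 6307) (nat_lit 14) (nat_lit 6))
    (@En.n l10885 (nat_lit 10590) (nat_lit 8) (nat_lit 12))
    (@En.n l11 (nat_lit 8926) (nat_lit 15) (nat_lit 2))))
  (@Cl.mk (nat_lit 0x2000d0006000a0003000d0009000d000300060003000c000a0007000e0004) (nat_lit 0x502087600086060) (nat_lit 16) Lb.e (@T16.mk En
    (@En.n l19661 (nat_lit 10228) (nat_lit 8) (nat_lit 4))
    (@En.n l4660 (nat_lit 6117) (nat_lit 1) (nat_lit 14))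
    (@En.i (nat_lit 4206) (nat_lit 2) (nat_lit 7))
    (@En.n l39559 (nat_lit 9741) (nat_lit 3) (nat_lit 10))
    (@En.i (nat_lit 11991) (nat_lit 13) (nat_lit 12))
    (@En.n l10979 (nat_lit 7540) (nat_lit 5) (nat_lit 3))
    (@En.n l4660 (nat_lit 12810) (nat_lit 12) (nat_lit 6))
    (@En.n l1792 (nat_lit 10221) (nat_lit 7) (nat_lit 3))
    (@En.n l5588 (nat_lit 3642) (nat_lit 0) (nat_lit 13))
    (@En.n l16844 (nat_lit 10223) (nat_lit 10) (nat_lit 9))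
    (@En.n l9591 (nat_lit 8922) (nat_lit 11) (nat_lit 13))
    (@En.n l152 (nat_lit 10224) (nat_lit 11) (nat_lit 3))
    (@En.n l4660 (nat_lit 6857) (nat_lit 0) (nat_lit 10))
    (@En.n l97 (nat_lit 4426) (nat_lit 14) (nat_lit 6))
    (@En.n l12290 (nat_lit 9548) (nat_lit 2) (nat_lit 13))
    (@En.n l17 (nat_lit 8927) (nat_lit 15) (nat_lit 2))))
noncomputable def a558 : T16 Cl := @T16.mk Cl
  (@Cl.mk (nat_lit 0x2000800060004000e000b0002000a000d000800050003000a0006000e000c) (nat_lit 0x600b90426003084) (nat_lit 16) Lb.e (@T16.mk En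
    (@En.n l1708 (nat_lit 8268) (nat_lit 7) (nat_lit 12))
    (@En.n l1063 (nat_lit 6998) (nat_lit 8) (nat_lit 14))
    (@En.n l890 (nat_lit 8929) (nat_lit 2) (nat_lit 6))
    (@En.n l287 (nat_lit 8930) (nat_lit 3) (nat_lit 10))
    (@En.n l11 (nat_lit 8869) (nat_lit 4) (nat_lit 3))
    (@En.n l3742 (nat_lit 8565) (nat_lit 0) (nat_lit 5))
    (@En.i (nat_lit 8934) (nat_lit 6) (nat_lit 8))
    (@En.n l313 (nat_lit 3726) (nat_lit 8) (nat_lit 13))
    (@En.i (nat_lit 7867) (nat_lit 9) (nat_lit 10))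
    (@En.n l3 (nat_lit 8928) (nat_lit 9) (nat_lit 2))
    (@En.n l3743 (nat_lit 8933) (nat_lit 11) (nat_lit 11))
    (@En.i (nat_lit 5026) (nat_lit 1) (nat_lit 14))
    (@En.n l3742 (nat_lit 8262) (nat_lit 2) (nat_lit 4))
    (@En.i (nat_lit 6320) (nat_lit 14) (nat_lit 6))
    (@En.n l3744 (nat_lit 9262) (nat_lit 4) (nat_lit 8))
    (@En.n l18 (nat_lit 8928) (nat_lit 15) (nat_lit 2))))
  (@Cl.mk (nat_lit 0x20007000a0004000e000a0002000a0006000d0009000600030006000e000c) (nat_lit 0x50700503700083) (nat_lit 16) Lb.e (@T16.mk En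
    (@En.n l6506 (nat_lit 8269) (nat_lit 7) (nat_lit 12))
    (@En.n l601 (nat_lit 9256) (nat_lit 8) (nat_lit 14))
    (@En.n l10501 (nat_lit 5383) (nat_lit 2) (nat_lit 6))
    (@En.n l11 (nat_lit 8870) (nat_lit 3) (nat_lit 3))
    (@En.n l3635 (nat_lit 8566) (nat_lit 0) (nat_lit 6))
    (@En.i (nat_lit 8930) (nat_lit 5) (nat_lit 9))
    (@En.n l1722 (nat_lit 8928) (nat_lit 7) (nat_lit 13))
    (@En.n l2364 (nat_lit 6760) (nat_lit 14) (nat_lit 6))
    (@En.n l711 (nat_lit 7866) (nat_lit 9) (nat_lit 10))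
    (@En.n l3 (nat_lit 8929) (nat_lit 9) (nat_lit 2))
    (@En.n l10502 (nat_lit 8931) (nat_lit 11) (nat_lit 10))
    (@En.i (nat_lit 5027) (nat_lit 1) (nat_lit 14))
    (@En.n l8142 (nat_lit 8259) (nat_lit 2) (nat_lit 4))
    (@En.n l3635 (nat_lit 3225) (nat_lit 8) (nat_lit 10))
    (@En.i (nat_lit 8819) (nat_lit 4) (nat_lit 7))
    (@En.n l50 (nat_lit 8929) (nat_lit 15) (nat_lit 2))))
  (@Cl.mk (nat_lit 0x200070006000a0005000e000b0002000b000600090005000a0005000e000b) (nat_lit 0x6080050602066) (nat_lit 16) Lb.e (@T16.mk En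
    (@En.n l9799 (nat_lit 8476) (nat_lit 8) (nat_lit 11))
    (@En.n l601 (nat_lit 9259) (nat_lit 9) (nat_lit 14))
    (@En.n l9800 (nat_lit 5382) (nat_lit 2) (nat_lit 5))
    (@En.n l9801 (nat_lit 9215) (nat_lit 3) (nat_lit 10))
    (@En.n l9802 (nat_lit 8567) (nat_lit 4) (nat_lit 5))
    (@En.n l9803 (nat_lit 8990) (nat_lit 9) (nat_lit 9))
    (@En.n l2364 (nat_lit 6761) (nat_lit 14) (nat_lit 6))
    (@En.i (nat_lit 7868) (nat_lit 8) (nat_lit 11))
    (@En.n l3 (nat_lit 8930) (nat_lit 8) (nat_lit 2))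
    (@En.n l9804 (nat_lit 8932) (nat_lit 10) (nat_lit 11))
    (@En.i (nat_lit 5030) (nat_lit 11) (nat_lit 14))
    (@En.n l8144 (nat_lit 9341) (nat_lit 2) (nat_lit 5))
    (@En.n l207 (nat_lit 8929) (nat_lit 13) (nat_lit 10))
    (@En.i (nat_lit 8870) (nat_lit 14) (nat_lit 6))
    (@En.n l8144 (nat_lit 8829) (nat_lit 5) (nat_lit 7))
    (@En.n l50 (nat_lit 8930) (nat_lit 15) (nat_lit 2))))
  (@Cl.mk (nat_lit 0x20008000b0004000a000a00090005000c00080006000600040007000e000c) (nat_lit 0x540824075000083) (nat_lit 16) Lb.e (@T16.mk En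
    (@En.n l9932 (nat_lit 8892) (nat_lit 3) (nat_lit 12))
    (@En.n l7437 (nat_lit 9252) (nat_lit 1) (nat_lit 14))
    (@En.n l1253 (nat_lit 5259) (nat_lit 2) (nat_lit 7))
    (@En.n l20231 (nat_lit 9752) (nat_lit 3) (nat_lit 4))
    (@En.n l20232 (nat_lit 8929) (nat_lit 4) (nat_lit 6))
    (@En.n l20233 (nat_lit 9747) (nat_lit 5) (nat_lit 6))
    (@En.n l20234 (nat_lit 8932) (nat_lit 6) (nat_lit 8))
    (@En.n l20173 (nat_lit 8933) (nat_lit 8) (nat_lit 12))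
    (@En.n l7437 (nat_lit 6763) (nat_lit 8) (nat_lit 5))
    (@En.n l9932 (nat_lit 8764) (nat_lit 10) (nat_lit 9))
    (@En.n l152 (nat_lit 8945) (nat_lit 6) (nat_lit 10))
    (@En.n l4817 (nat_lit 9482) (nat_lit 12) (nat_lit 10))
    (@En.n l20235 (nat_lit 9964) (nat_lit 13) (nat_lit 4))
    (@En.i (nat_lit 3622) (nat_lit 7) (nat_lit 11))
    (@En.n l3333 (nat_lit 8818) (nat_lit 1) (nat_lit 8))
    (@En.n l11 (nat_lit 8931) (nat_lit 15) (nat_lit 2))))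
  (@Cl.mk (nat_lit 0x200080006000b0005000b000b000a0005000800050005000a0006000e000b) (nat_lit 0x505092404002076) (nat_lit 16) Lb.e (@T16.mk En
    (@En.n l10903 (nat_lit 8894) (nat_lit 11) (nat_lit 11))
    (@En.n l601 (nat_lit 9253) (nat_lit 1) (nat_lit 14))
    (@En.n l3107 (nat_lit 5256) (nat_lit 2) (nat_lit 6))
    (@En.n l20073 (nat_lit 9569) (nat_lit 3) (nat_lit 10))
    (@En.n l20074 (nat_lit 8930) (nat_lit 4) (nat_lit 5))
    (@En.n l20075 (nat_lit 11042) (nat_lit 5) (nat_lit 5))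
    (@En.n l7221 (nat_lit 8939) (nat_lit 10) (nat_lit 8))
    (@En.n l936 (nat_lit 6575) (nat_lit 7) (nat_lit 5))
    (@En.n l20076 (nat_lit 8765) (nat_lit 9) (nat_lit 10))
    (@En.n l20077 (nat_lit 8946) (nat_lit 10) (nat_lit 11))
    (@En.n l20078 (nat_lit 9483) (nat_lit 11) (nat_lit 11))
    (@En.n l15438 (nat_lit 9336) (nat_lit 12) (nat_lit 5))
    (@En.n l20079 (nat_lit 8931) (nat_lit 13) (nat_lit 11))
    (@En.n l20080 (nat_lit 8936) (nat_lit 14) (nat_lit 6))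
    (@En.n l4155 (nat_lit 8823) (nat_lit 2) (nat_lit 8))
    (@En.n l50 (nat_lit 8932) (nat_lit 15) (nat_lit 2))))
  (@Cl.mk (nat_lit 0x2000900060004000b000b0009000c0007000500050004000a0007000e000c) (nat_lit 0x600824600003084) (nat_lit 16) Lb.e (@T16.mk En
    (@En.n l55 (nat_lit 8893) (nat_lit 3) (nat_lit 12))
    (@En.n l8537 (nat_lit 6999) (nat_lit 1) (nat_lit 14))
    (@En.n l8538 (nat_lit 8931) (nat_lit 2) (nat_lit 7))
    (@En.n l8539 (nat_lit 8932) (nat_lit 3) (nat_lit 10))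
    (@En.n l8540 (nat_lit 9745) (nat_lit 4) (nat_lit 4))
    (@En.n l8541 (nat_lit 8928) (nat_lit 5) (nat_lit 5))
    (@En.i (nat_lit 9742) (nat_lit 6) (nat_lit 5))
    (@En.n l2054 (nat_lit 8935) (nat_lit 7) (nat_lit 7))
    (@En.i (nat_lit 3700) (nat_lit 9) (nat_lit 12))
    (@En.n l742 (nat_lit 8770) (nat_lit 10) (nat_lit 9))
    (@En.n l8542 (nat_lit 8944) (nat_lit 5) (nat_lit 11))
    (@En.n l8543 (nat_lit 9484) (nat_lit 12) (nat_lit 11))
    (@En.i (nat_lit 9968) (nat_lit 13) (nat_lit 4))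
    (@En.n l8544 (nat_lit 6339) (nat_lit 14) (nat_lit 6))
    (@En.n l8545 (nat_lit 8822) (nat_lit 1) (nat_lit 9))
    (@En.n l11 (nat_lit 8933) (nat_lit 15) (nat_lit 2))))
  (@Cl.mk (nat_lit 0x20008000700070005000e000c0002000b00080004000900090005000e000b) (nat_lit 0x600044055034024) (nat_lit 16) Lb.e (@T16.mk En
    (@En.n l1708 (nat_lit 7653) (nat_lit 8) (nat_lit 11))
    (@En.n l1063 (nat_lit 3664) (nat_lit 9) (nat_lit 14))
    (@En.n l890 (nat_lit 8930) (nat_lit 2) (nat_lit 5))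
    (@En.n l3483 (nat_lit 8990) (nat_lit 7) (nat_lit 9))
    (@En.n l3484 (nat_lit 12612) (nat_lit 4) (nat_lit 9))
    (@En.n l311 (nat_lit 9006) (nat_lit 5) (nat_lit 4))
    (@En.n l3485 (nat_lit 3669) (nat_lit 14) (nat_lit 8))
    (@En.i (nat_lit 7750) (nat_lit 8) (nat_lit 11))
    (@En.n l3 (nat_lit 8934) (nat_lit 8) (nat_lit 2))
    (@En.n l310 (nat_lit 8935) (nat_lit 10) (nat_lit 12))
    (@En.i (nat_lit 5037) (nat_lit 11) (nat_lit 14))
    (@En.n l3486 (nat_lit 9143) (nat_lit 2) (nat_lit 5))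
    (@En.n l1794 (nat_lit 8647) (nat_lit 9) (nat_lit 7))
    (@En.i (nat_lit 8869) (nat_lit 14) (nat_lit 7))
    (@En.n l3487 (nat_lit 9252) (nat_lit 5) (nat_lit 8))
    (@En.n l18 (nat_lit 8934) (nat_lit 15) (nat_lit 2))))
  (@Cl.mk (nat_lit 0x20009000700070005000c000c000a000700040004000900090006000e000b) (nat_lit 0x600035300025042) (nat_lit 16) Lb.e (@T16.mk En
    (@En.n l3208 (nat_lit 8940) (nat_lit 10) (nat_lit 11))
    (@En.n l2842 (nat_lit 2037) (nat_lit 1) (nat_lit 14))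
    (@En.n l8509 (nat_lit 8932) (nat_lit 2) (nat_lit 6))
    (@En.n l8510 (nat_lit 8939) (nat_lit 7) (nat_lit 9))
    (@En.n l8511 (nat_lit 11083) (nat_lit 4) (nat_lit 9))
    (@En.n l911 (nat_lit 8934) (nat_lit 5) (nat_lit 4))
    (@En.n l916 (nat_lit 9005) (nat_lit 6) (nat_lit 4))
    (@En.i (nat_lit 3671) (nat_lit 7) (nat_lit 7))
    (@En.n l8512 (nat_lit 9008) (nat_lit 9) (nat_lit 10))
    (@En.n l3918 (nat_lit 8941) (nat_lit 4) (nat_lit 12))
    (@En.n l8513 (nat_lit 9312) (nat_lit 11) (nat_lit 12))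
    (@En.n l8514 (nat_lit 9141) (nat_lit 12) (nat_lit 5))
    (@En.n l217 (nat_lit 8938) (nat_lit 9) (nat_lit 7))
    (@En.n l1218 (nat_lit 8937) (nat_lit 14) (nat_lit 7))
    (@En.i (nat_lit 9255) (nat_lit 2) (nat_lit 9))
    (@En.n l3 (nat_lit 8935) (nat_lit 15) (nat_lit 2))))
  (@Cl.mk (nat_lit 0x20006000b0004000b000b00090005000c00050005000a00040007000e000c) (nat_lit 0x40824070030084) (nat_lit 16) Lb.e (@T16.mk En
    (@En.n l5811 (nat_lit 8905) (nat_lit 3) (nat_lit 12))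
    (@En.n l601 (nat_lit 9254) (nat_lit 1) (nat_lit 14))
    (@En.n l26198 (nat_lit 12373) (nat_lit 2) (nat_lit 7))
    (@En.n l10502 (nat_lit 8931) (nat_lit 3) (nat_lit 4))
    (@En.n l26199 (nat_lit 10856) (nat_lit 4) (nat_lit 10))
    (@En.n l152 (nat_lit 8870) (nat_lit 5) (nat_lit 5))
    (@En.n l117 (nat_lit 9189) (nat_lit 6) (nat_lit 5))
    (@En.n l26200 (nat_lit 8937) (nat_lit 8) (nat_lit 12))
    (@En.n l11386 (nat_lit 6767) (nat_lit 8) (nat_lit 5))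
    (@En.n l1003 (nat_lit 12737) (nat_lit 10) (nat_lit 9))
    (@En.n l26201 (nat_lit 8943) (nat_lit 11) (nat_lit 11))
    (@En.n l5646 (nat_lit 9796) (nat_lit 12) (nat_lit 11))
    (@En.n l2411 (nat_lit 8805) (nat_lit 13) (nat_lit 4))
    (@En.n l26202 (nat_lit 3243) (nat_lit 14) (nat_lit 11))
    (@En.i (nat_lit 7400) (nat_lit 1) (nat_lit 6))
    (@En.n l50 (nat_lit 8936) (nat_lit 15) (nat_lit 2))))
  (@Cl.mk (nat_lit 0x2000700060004000c000c0009000c0004000400090004000a0007000e000c) (nat_lit 0x823600301085) (nat_lit 16) Lb.e (@T16.mk En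
    (@En.n l4039 (nat_lit 8871) (nat_lit 9) (nat_lit 12))
    (@En.n l13369 (nat_lit 6996) (nat_lit 1) (nat_lit 14))
    (@En.n l13370 (nat_lit 8936) (nat_lit 2) (nat_lit 7))
    (@En.n l13371 (nat_lit 5310) (nat_lit 3) (nat_lit 10))
    (@En.n l403 (nat_lit 8933) (nat_lit 4) (nat_lit 4))
    (@En.n l13372 (nat_lit 10854) (nat_lit 5) (nat_lit 9))
    (@En.n l13373 (nat_lit 8869) (nat_lit 6) (nat_lit 4))
    (@En.n l13371 (nat_lit 10525) (nat_lit 7) (nat_lit 4))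
    (@En.i (nat_lit 3705) (nat_lit 9) (nat_lit 12))
    (@En.n l3583 (nat_lit 12736) (nat_lit 10) (nat_lit 9))
    (@En.n l2230 (nat_lit 8942) (nat_lit 11) (nat_lit 12))
    (@En.n l3583 (nat_lit 9797) (nat_lit 12) (nat_lit 12))
    (@En.i (nat_lit 8806) (nat_lit 13) (nat_lit 4))
    (@En.n l3583 (nat_lit 6323) (nat_lit 14) (nat_lit 6))
    (@En.n l2228 (nat_lit 7395) (nat_lit 1) (nat_lit 7))
    (@En.n l11 (nat_lit 8937) (nat_lit 15) (nat_lit 2))))
  (@Cl.mk (nat_lit 0x20007000e000c0002000a00070004000c000c0009000600040004000e0009) (nat_lit 0x550700243000a3) (nat_lit 16) Lb.e (@T16.mk En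
    (@En.i (nat_lit 8935) (nat_lit 4) (nat_lit 9))
    (@En.n l2724 (nat_lit 12388) (nat_lit 1) (nat_lit 14))
    (@En.n l237 (nat_lit 8647) (nat_lit 2) (nat_lit 4))
    (@En.n l916 (nat_lit 8999) (nat_lit 3) (nat_lit 4))
    (@En.i (nat_lit 3674) (nat_lit 8) (nat_lit 6))
    (@En.n l414 (nat_lit 9003) (nat_lit 5) (nat_lit 9))
    (@En.n l134 (nat_lit 8998) (nat_lit 7) (nat_lit 12))
    (@En.n l11 (nat_lit 9514) (nat_lit 8) (nat_lit 12))
    (@En.n l916 (nat_lit 7345) (nat_lit 8) (nat_lit 4))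
    (@En.i (nat_lit 6338) (nat_lit 14) (nat_lit 7))
    (@En.i (nat_lit 8479) (nat_lit 11) (nat_lit 10))
    (@En.n l3 (nat_lit 8938) (nat_lit 11) (nat_lit 2))
    (@En.i (nat_lit 8644) (nat_lit 13) (nat_lit 12))
    (@En.n l2842 (nat_lit 2032) (nat_lit 1) (nat_lit 14))
    (@En.n l916 (nat_lit 8933) (nat_lit 2) (nat_lit 7))
    (@En.n l18 (nat_lit 8938) (nat_lit 15) (nat_lit 2))))
  (@Cl.mk (nat_lit 0x20006000c000c000b00080004000400090005000e000a00020008000e0007) (nat_lit 0x465300403205b0) (nat_lit 16) Lb.e (@T16.mk En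
    (@En.n l20081 (nat_lit 8935) (nat_lit 13) (nat_lit 7))
    (@En.n l20082 (nat_lit 5812) (nat_lit 1) (nat_lit 14))
    (@En.n l20083 (nat_lit 6896) (nat_lit 2) (nat_lit 8))
    (@En.n l3 (nat_lit 8939) (nat_lit 3) (nat_lit 2))
    (@En.n l20084 (nat_lit 8977) (nat_lit 4) (nat_lit 10))
    (@En.n l6879 (nat_lit 3025) (nat_lit 6) (nat_lit 14))
    (@En.n l775 (nat_lit 5257) (nat_lit 6) (nat_lit 5))
    (@En.i (nat_lit 11408) (nat_lit 3) (nat_lit 9))
    (@En.n l2593 (nat_lit 8990) (nat_lit 8) (nat_lit 4))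
    (@En.n l20085 (nat_lit 9030) (nat_lit 9) (nat_lit 4))
    (@En.n l61 (nat_lit 3668) (nat_lit 11) (nat_lit 8))
    (@En.n l2348 (nat_lit 9033) (nat_lit 12) (nat_lit 11))
    (@En.n l20086 (nat_lit 9306) (nat_lit 13) (nat_lit 12))
    (@En.n l2544 (nat_lit 9311) (nat_lit 10) (nat_lit 12))
    (@En.n l20087 (nat_lit 8854) (nat_lit 13) (nat_lit 6))
    (@En.n l28 (nat_lit 8939) (nat_lit 15) (nat_lit 2))))
  (@Cl.mk (nat_lit 0x40004000a000a0006000b000b00080006000600050005000c000c000a0008) (nat_lit 0x6701350000a765) (nat_lit 16) Lb.e (@T16.mk En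
    (@En.n l19298 (nat_lit 3676) (nat_lit 0) (nat_lit 8))
    (@En.n l19299 (nat_lit 9013) (nat_lit 1) (nat_lit 10))
    (@En.n l8043 (nat_lit 8968) (nat_lit 4) (nat_lit 12))
    (@En.n l19300 (nat_lit 9355) (nat_lit 3) (nat_lit 12))
    (@En.n l4121 (nat_lit 8935) (nat_lit 11) (nat_lit 5))
    (@En.n l19301 (nat_lit 10177) (nat_lit 11) (nat_lit 5))
    (@En.n l13034 (nat_lit 8644) (nat_lit 10) (nat_lit 6))
    (@En.i (nat_lit 8871) (nat_lit 7) (nat_lit 6))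
    (@En.n l19302 (nat_lit 2318) (nat_lit 2) (nat_lit 8))
    (@En.n l61 (nat_lit 8973) (nat_lit 5) (nat_lit 11))
    (@En.n l8038 (nat_lit 2415) (nat_lit 11) (nat_lit 11))
    (@En.n l19303 (nat_lit 8894) (nat_lit 12) (nat_lit 6))
    (@En.n l19304 (nat_lit 8977) (nat_lit 6) (nat_lit 10))
    (@En.n l19301 (nat_lit 10277) (nat_lit 14) (nat_lit 10))
    (@En.n l3498 (nat_lit 7653) (nat_lit 12) (nat_lit 4))
    (@En.n l19305 (nat_lit 8981) (nat_lit 0) (nat_lit 4))))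
  (@Cl.mk (nat_lit 0x2000900090007000e000b0002000a000700070005000c00090006000e0004) (nat_lit 0x660520600043090) (nat_lit 16) Lb.e (@T16.mk En
    (@En.n l2848 (nat_lit 8935) (nat_lit 6) (nat_lit 4))
    (@En.n l5607 (nat_lit 4135) (nat_lit 8) (nat_lit 14))
    (@En.n l152 (nat_lit 3673) (nat_lit 2) (nat_lit 6))
    (@En.n l17115 (nat_lit 8966) (nat_lit 3) (nat_lit 9))
    (@En.n l20104 (nat_lit 9308) (nat_lit 11) (nat_lit 12))
    (@En.n l217 (nat_lit 9148) (nat_lit 5) (nat_lit 5))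
    (@En.n l20105 (nat_lit 8998) (nat_lit 9) (nat_lit 7))
    (@En.n l773 (nat_lit 8942) (nat_lit 14) (nat_lit 7))
    (@En.i (nat_lit 9295) (nat_lit 9) (nat_lit 10))
    (@En.n l17 (nat_lit 8941) (nat_lit 9) (nat_lit 2))
    (@En.n l18567 (nat_lit 8968) (nat_lit 11) (nat_lit 11))
    (@En.i (nat_lit 2038) (nat_lit 12) (nat_lit 14))
    (@En.n l20106 (nat_lit 8946) (nat_lit 2) (nat_lit 7))
    (@En.n l20107 (nat_lit 9306) (nat_lit 7) (nat_lit 9))
    (@En.n l3506 (nat_lit 11082) (nat_lit 4) (nat_lit 9))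
    (@En.n l28 (nat_lit 8941) (nat_lit 15) (nat_lit 2))))
  (@Cl.mk (nat_lit 0x2000700060004000c0008000b000e0004000200090005000a0008000e000c) (nat_lit 0x125400702662) (nat_lit 16) Lb.e (@T16.mk En
    (@En.n l331 (nat_lit 8903) (nat_lit 10) (nat_lit 12))
    (@En.n l332 (nat_lit 6890) (nat_lit 11) (nat_lit 14))
    (@En.n l11154 (nat_lit 8943) (nat_lit 2) (nat_lit 8))
    (@En.n l11155 (nat_lit 8947) (nat_lit 3) (nat_lit 10))
    (@En.n l11156 (nat_lit 8944) (nat_lit 14) (nat_lit 5))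
    (@En.n l11157 (nat_lit 7549) (nat_lit 5) (nat_lit 9))
    (@En.n l7 (nat_lit 8942) (nat_lit 6) (nat_lit 2))
    (@En.n l686 (nat_lit 8937) (nat_lit 7) (nat_lit 4))
    (@En.n l353 (nat_lit 4663) (nat_lit 9) (nat_lit 14))
    (@En.i (nat_lit 4126) (nat_lit 2) (nat_lit 11))
    (@En.n l11158 (nat_lit 9227) (nat_lit 3) (nat_lit 8))
    (@En.n l11159 (nat_lit 7469) (nat_lit 12) (nat_lit 12))
    (@En.n l1218 (nat_lit 8913) (nat_lit 5) (nat_lit 4))
    (@En.n l332 (nat_lit 4080) (nat_lit 14) (nat_lit 6))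
    (@En.n l11160 (nat_lit 7393) (nat_lit 7) (nat_lit 7))
    (@En.n l3 (nat_lit 8942) (nat_lit 15) (nat_lit 2))))
  (@Cl.mk (nat_lit 0x20006000c0004000b00080004000b000e00050002000a00050008000e000c) (nat_lit 0x40120650080554) (nat_lit 16) Lb.e (@T16.mk En
    (@En.n l24768 (nat_lit 8904) (nat_lit 11) (nat_lit 12))
    (@En.n l24769 (nat_lit 9251) (nat_lit 12) (nat_lit 14))
    (@En.n l1253 (nat_lit 12374) (nat_lit 2) (nat_lit 8))
    (@En.n l17 (nat_lit 8945) (nat_lit 14) (nat_lit 5))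
    (@En.n l24770 (nat_lit 7546) (nat_lit 4) (nat_lit 10))
    (@En.n l3 (nat_lit 8943) (nat_lit 5) (nat_lit 2))
    (@En.n l24771 (nat_lit 8936) (nat_lit 6) (nat_lit 5))
    (@En.n l3138 (nat_lit 8950) (nat_lit 8) (nat_lit 14))
    (@En.n l20174 (nat_lit 8942) (nat_lit 9) (nat_lit 11))
    (@En.n l3138 (nat_lit 7461) (nat_lit 9) (nat_lit 4))
    (@En.n l1253 (nat_lit 9231) (nat_lit 11) (nat_lit 8))
    (@En.i (nat_lit 7466) (nat_lit 12) (nat_lit 11))
    (@En.n l6742 (nat_lit 10776) (nat_lit 6) (nat_lit 4))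
    (@En.i (nat_lit 3234) (nat_lit 8) (nat_lit 12))
    (@En.n l16489 (nat_lit 7398) (nat_lit 8) (nat_lit 6))
    (@En.n l11 (nat_lit 8943) (nat_lit 15) (nat_lit 2))))
noncomputable def a559 : T16 Cl := @T16.mk Cl
  (@Cl.mk (nat_lit 0x20005000a0008000e000c0002000a00060004000b0008000b0006000e0005) (nat_lit 0x83540500134050) (nat_lit 16) Lb.e (@T16.mk En
    (@En.n l20173 (nat_lit 8933) (nat_lit 6) (nat_lit 5))
    (@En.n l20174 (nat_lit 8942) (nat_lit 8) (nat_lit 14))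
    (@En.n l20175 (nat_lit 8941) (nat_lit 2) (nat_lit 6))
    (@En.n l17541 (nat_lit 3703) (nat_lit 3) (nat_lit 11))
    (@En.n l1253 (nat_lit 9226) (nat_lit 4) (nat_lit 8))
    (@En.i (nat_lit 7468) (nat_lit 12) (nat_lit 11))
    (@En.n l17541 (nat_lit 9974) (nat_lit 6) (nat_lit 4))
    (@En.n l5 (nat_lit 4078) (nat_lit 7) (nat_lit 6))
    (@En.n l2907 (nat_lit 9297) (nat_lit 9) (nat_lit 10))
    (@En.n l11 (nat_lit 8944) (nat_lit 9) (nat_lit 2))
    (@En.n l20176 (nat_lit 8909) (nat_lit 11) (nat_lit 12))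
    (@En.n l20177 (nat_lit 6889) (nat_lit 12) (nat_lit 14))
    (@En.n l50 (nat_lit 8945) (nat_lit 13) (nat_lit 8))
    (@En.n l217 (nat_lit 8946) (nat_lit 3) (nat_lit 10))
    (@En.n l20178 (nat_lit 8164) (nat_lit 13) (nat_lit 5))
    (@En.n l3 (nat_lit 8944) (nat_lit 15) (nat_lit 2))))
  (@Cl.mk (nat_lit 0x200050008000e000c00020009000c0004000a00080004000b0007000e0006) (nat_lit 0x24904401205060) (nat_lit 16) Lb.e (@T16.mk En
    (@En.i (nat_lit 8931) (nat_lit 5) (nat_lit 6))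
    (@En.i (nat_lit 8943) (nat_lit 7) (nat_lit 14))
    (@En.i (nat_lit 8946) (nat_lit 7) (nat_lit 7))
    (@En.i (nat_lit 8944) (nat_lit 3) (nat_lit 11))
    (@En.n l1162 (nat_lit 7459) (nat_lit 4) (nat_lit 4))
    (@En.n l1253 (nat_lit 9228) (nat_lit 5) (nat_lit 8))
    (@En.i (nat_lit 7465) (nat_lit 12) (nat_lit 10))
    (@En.i (nat_lit 9976) (nat_lit 7) (nat_lit 4))
    (@En.i (nat_lit 3231) (nat_lit 9) (nat_lit 12))
    (@En.i (nat_lit 8824) (nat_lit 10) (nat_lit 9))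
    (@En.n l11 (nat_lit 8945) (nat_lit 10) (nat_lit 2))
    (@En.n l1578 (nat_lit 8899) (nat_lit 12) (nat_lit 12))
    (@En.n l5381 (nat_lit 9250) (nat_lit 13) (nat_lit 14))
    (@En.n l1253 (nat_lit 5904) (nat_lit 2) (nat_lit 8))
    (@En.n l253 (nat_lit 8163) (nat_lit 13) (nat_lit 5))
    (@En.n l3 (nat_lit 8945) (nat_lit 15) (nat_lit 2))))
  (@Cl.mk (nat_lit 0x200090006000c0005000b000900040007000e00050002000a0007000e000b) (nat_lit 0x505012005007048) (nat_lit 16) Lb.e (@T16.mk En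
    (@En.n l30218 (nat_lit 8948) (nat_lit 12) (nat_lit 11))
    (@En.n l14149 (nat_lit 8280) (nat_lit 1) (nat_lit 14))
    (@En.n l30219 (nat_lit 5254) (nat_lit 14) (nat_lit 7))
    (@En.n l21111 (nat_lit 11621) (nat_lit 3) (nat_lit 10))
    (@En.n l3 (nat_lit 8946) (nat_lit 4) (nat_lit 2))
    (@En.n l20234 (nat_lit 8932) (nat_lit 5) (nat_lit 5))
    (@En.n l30220 (nat_lit 8947) (nat_lit 7) (nat_lit 14))
    (@En.n l9072 (nat_lit 9306) (nat_lit 11) (nat_lit 7))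
    (@En.n l30221 (nat_lit 7460) (nat_lit 8) (nat_lit 4))
    (@En.n l30219 (nat_lit 9229) (nat_lit 4) (nat_lit 9))
    (@En.n l14148 (nat_lit 7467) (nat_lit 11) (nat_lit 11))
    (@En.n l14149 (nat_lit 9338) (nat_lit 6) (nat_lit 5))
    (@En.n l18 (nat_lit 8945) (nat_lit 8) (nat_lit 12))
    (@En.n l61 (nat_lit 8943) (nat_lit 14) (nat_lit 6))
    (@En.n l12295 (nat_lit 9300) (nat_lit 10) (nat_lit 9))
    (@En.n l11 (nat_lit 8946) (nat_lit 15) (nat_lit 2))))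
  (@Cl.mk (nat_lit 0x200060006000c0005000c00090004000e00040002000a000a0007000e000b) (nat_lit 0x50a5040071074) (nat_lit 16) Lb.e (@T16.mk En
    (@En.n l24772 (nat_lit 8949) (nat_lit 11) (nat_lit 11))
    (@En.n l18625 (nat_lit 8276) (nat_lit 1) (nat_lit 14))
    (@En.n l24773 (nat_lit 5619) (nat_lit 2) (nat_lit 7))
    (@En.n l24774 (nat_lit 5813) (nat_lit 14) (nat_lit 10))
    (@En.n l24775 (nat_lit 7545) (nat_lit 4) (nat_lit 10))
    (@En.n l7 (nat_lit 8947) (nat_lit 5) (nat_lit 2))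
    (@En.n l28 (nat_lit 5310) (nat_lit 6) (nat_lit 4))
    (@En.n l1547 (nat_lit 5844) (nat_lit 8) (nat_lit 14))
    (@En.n l137 (nat_lit 4818) (nat_lit 8) (nat_lit 4))
    (@En.n l6482 (nat_lit 12286) (nat_lit 10) (nat_lit 9))
    (@En.n l18626 (nat_lit 9026) (nat_lit 11) (nat_lit 12))
    (@En.n l24776 (nat_lit 11133) (nat_lit 5) (nat_lit 5))
    (@En.n l4807 (nat_lit 8943) (nat_lit 13) (nat_lit 12))
    (@En.n l1777 (nat_lit 8950) (nat_lit 14) (nat_lit 6))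
    (@En.n l6081 (nat_lit 9082) (nat_lit 8) (nat_lit 6))
    (@En.n l3 (nat_lit 8947) (nat_lit 15) (nat_lit 2))))
  (@Cl.mk (nat_lit 0x2000b0007000b000b00080005000b00050005000b000900050008000e0005) (nat_lit 0x707240400730460) (nat_lit 16) Lb.e (@T16.mk En
    (@En.n l19279 (nat_lit 8894) (nat_lit 15) (nat_lit 5))
    (@En.n l23774 (nat_lit 8949) (nat_lit 1) (nat_lit 14))
    (@En.n l37592 (nat_lit 8976) (nat_lit 10) (nat_lit 8))
    (@En.n l37593 (nat_lit 5882) (nat_lit 3) (nat_lit 5))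
    (@En.n l37594 (nat_lit 12285) (nat_lit 4) (nat_lit 9))
    (@En.n l1643 (nat_lit 8779) (nat_lit 6) (nat_lit 11))
    (@En.n l37595 (nat_lit 8946) (nat_lit 11) (nat_lit 5))
    (@En.n l23774 (nat_lit 10219) (nat_lit 7) (nat_lit 5))
    (@En.n l28100 (nat_lit 8899) (nat_lit 9) (nat_lit 11))
    (@En.n l37596 (nat_lit 8904) (nat_lit 9) (nat_lit 5))
    (@En.n l97 (nat_lit 7240) (nat_lit 11) (nat_lit 8))
    (@En.n l7867 (nat_lit 8897) (nat_lit 5) (nat_lit 11))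
    (@En.i (nat_lit 8353) (nat_lit 13) (nat_lit 11))
    (@En.n l30145 (nat_lit 5021) (nat_lit 14) (nat_lit 7))
    (@En.n l37597 (nat_lit 11443) (nat_lit 4) (nat_lit 11))
    (@En.n l28 (nat_lit 8948) (nat_lit 15) (nat_lit 2))))
  (@Cl.mk (nat_lit 0x2000b000b0007000b000b00050005000b00050005000c00090005000e0004) (nat_lit 0x810320040086050) (nat_lit 16) Lb.e (@T16.mk En
    (@En.n l38552 (nat_lit 8952) (nat_lit 15) (nat_lit 4))
    (@En.n l998 (nat_lit 6059) (nat_lit 1) (nat_lit 14))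
    (@En.n l5592 (nat_lit 3295) (nat_lit 2) (nat_lit 5))
    (@En.n l15975 (nat_lit 12279) (nat_lit 3) (nat_lit 9))
    (@En.n l1055 (nat_lit 9054) (nat_lit 5) (nat_lit 12))
    (@En.n l38553 (nat_lit 8947) (nat_lit 11) (nat_lit 5))
    (@En.i (nat_lit 10271) (nat_lit 6) (nat_lit 5))
    (@En.n l476 (nat_lit 8904) (nat_lit 8) (nat_lit 11))
    (@En.n l152 (nat_lit 8951) (nat_lit 11) (nat_lit 5))
    (@En.n l1055 (nat_lit 7807) (nat_lit 9) (nat_lit 5))
    (@En.n l55 (nat_lit 8955) (nat_lit 5) (nat_lit 11))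
    (@En.i (nat_lit 8510) (nat_lit 12) (nat_lit 11))
    (@En.n l13520 (nat_lit 5952) (nat_lit 13) (nat_lit 7))
    (@En.n l38554 (nat_lit 5819) (nat_lit 5) (nat_lit 11))
    (@En.i (nat_lit 7555) (nat_lit 14) (nat_lit 11))
    (@En.n l17 (nat_lit 8949) (nat_lit 15) (nat_lit 2))))
  (@Cl.mk (nat_lit 0x20006000c0004000c00080004000e00040002000e000a00020008000e000c) (nat_lit 0x50740400c80685) (nat_lit 16) Lb.e (@T16.mk En
    (@En.n l135 (nat_lit 8951) (nat_lit 13) (nat_lit 12))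
    (@En.n l488 (nat_lit 8287) (nat_lit 1) (nat_lit 14))
    (@En.n l2252 (nat_lit 5671) (nat_lit 2) (nat_lit 8))
    (@En.n l3 (nat_lit 8950) (nat_lit 3) (nat_lit 2))
    (@En.n l681 (nat_lit 8947) (nat_lit 4) (nat_lit 10))
    (@En.n l706 (nat_lit 8161) (nat_lit 1) (nat_lit 14))
    (@En.n l17 (nat_lit 8950) (nat_lit 6) (nat_lit 2))
    (@En.n l1582 (nat_lit 8953) (nat_lit 7) (nat_lit 4))
    (@En.n l11232 (nat_lit 6058) (nat_lit 9) (nat_lit 14))
    (@En.i (nat_lit 4817) (nat_lit 9) (nat_lit 4))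
    (@En.n l686 (nat_lit 11635) (nat_lit 11) (nat_lit 8))
    (@En.n l11233 (nat_lit 9032) (nat_lit 12) (nat_lit 12))
    (@En.n l2678 (nat_lit 12504) (nat_lit 8) (nat_lit 4))
    (@En.n l3986 (nat_lit 3238) (nat_lit 10) (nat_lit 12))
    (@En.n l810 (nat_lit 7772) (nat_lit 7) (nat_lit 6))
    (@En.n l28 (nat_lit 8950) (nat_lit 15) (nat_lit 2))))
  (@Cl.mk (nat_lit 0x20008000c000c0005000b00040004000c00080005000e00040002000e000b) (nat_lit 0x6420300650500c9) (nat_lit 16) Lb.e (@T16.mk En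
    (@En.i (nat_lit 8949) (nat_lit 14) (nat_lit 11))
    (@En.i (nat_lit 8169) (nat_lit 1) (nat_lit 14))
    (@En.n l17 (nat_lit 8951) (nat_lit 2) (nat_lit 2))
    (@En.n l2893 (nat_lit 8954) (nat_lit 3) (nat_lit 4))
    (@En.n l998 (nat_lit 6060) (nat_lit 5) (nat_lit 14))
    (@En.n l22936 (nat_lit 4821) (nat_lit 5) (nat_lit 5))
    (@En.i (nat_lit 11642) (nat_lit 6) (nat_lit 8))
    (@En.n l2254 (nat_lit 7819) (nat_lit 8) (nat_lit 12))
    (@En.n l22937 (nat_lit 8950) (nat_lit 12) (nat_lit 4))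
    (@En.i (nat_lit 12500) (nat_lit 9) (nat_lit 4))
    (@En.n l998 (nat_lit 3237) (nat_lit 11) (nat_lit 11))
    (@En.n l2254 (nat_lit 10878) (nat_lit 8) (nat_lit 5))
    (@En.n l55 (nat_lit 12809) (nat_lit 13) (nat_lit 12))
    (@En.i (nat_lit 8297) (nat_lit 14) (nat_lit 12))
    (@En.i (nat_lit 5676) (nat_lit 12) (nat_lit 8))
    (@En.n l3 (nat_lit 8951) (nat_lit 15) (nat_lit 2))))
  (@Cl.mk (nat_lit 0x40004000b000b0006000b000b00050005000a00050005000c000c000a0006) (nat_lit 0x81092004009970) (nat_lit 16) Lb.e (@T16.mk En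
    (@En.n l19238 (nat_lit 3296) (nat_lit 0) (nat_lit 6))
    (@En.n l39638 (nat_lit 12455) (nat_lit 1) (nat_lit 10))
    (@En.n l39639 (nat_lit 8949) (nat_lit 4) (nat_lit 12))
    (@En.n l24685 (nat_lit 9735) (nat_lit 3) (nat_lit 12))
    (@En.n l39640 (nat_lit 5310) (nat_lit 11) (nat_lit 5))
    (@En.n l39641 (nat_lit 10337) (nat_lit 5) (nat_lit 5))
    (@En.n l28 (nat_lit 8905) (nat_lit 0) (nat_lit 10))
    (@En.i (nat_lit 8954) (nat_lit 11) (nat_lit 5))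
    (@En.n l24685 (nat_lit 10255) (nat_lit 8) (nat_lit 5))
    (@En.n l39642 (nat_lit 12771) (nat_lit 5) (nat_lit 11))
    (@En.n l39643 (nat_lit 8520) (nat_lit 1) (nat_lit 11))
    (@En.n l9881 (nat_lit 12000) (nat_lit 2) (nat_lit 6))
    (@En.n l39644 (nat_lit 5818) (nat_lit 5) (nat_lit 11))
    (@En.n l39645 (nat_lit 10858) (nat_lit 14) (nat_lit 11))
    (@En.n l39646 (nat_lit 9213) (nat_lit 12) (nat_lit 4))
    (@En.n l39647 (nat_lit 12451) (nat_lit 0) (nat_lit 4))))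
  (@Cl.mk (nat_lit 0x20006000b0004000c000c0009000500040004000e000a00020007000e000c) (nat_lit 0x40785000210075) (nat_lit 16) Lb.e (@T16.mk En
    (@En.n l1319 (nat_lit 8954) (nat_lit 13) (nat_lit 12))
    (@En.n l11601 (nat_lit 8288) (nat_lit 1) (nat_lit 14))
    (@En.i (nat_lit 9238) (nat_lit 2) (nat_lit 7))
    (@En.n l18 (nat_lit 8953) (nat_lit 3) (nat_lit 2))
    (@En.n l5529 (nat_lit 5310) (nat_lit 4) (nat_lit 10))
    (@En.n l803 (nat_lit 8171) (nat_lit 1) (nat_lit 14))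
    (@En.n l11602 (nat_lit 9212) (nat_lit 6) (nat_lit 4))
    (@En.i (nat_lit 12755) (nat_lit 7) (nat_lit 4))
    (@En.n l1794 (nat_lit 4814) (nat_lit 8) (nat_lit 5))
    (@En.n l1795 (nat_lit 9220) (nat_lit 5) (nat_lit 9))
    (@En.n l11603 (nat_lit 8950) (nat_lit 11) (nat_lit 12))
    (@En.n l1793 (nat_lit 8939) (nat_lit 12) (nat_lit 12))
    (@En.n l11604 (nat_lit 12503) (nat_lit 8) (nat_lit 4))
    (@En.n l2730 (nat_lit 3244) (nat_lit 10) (nat_lit 11))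
    (@En.n l1329 (nat_lit 8737) (nat_lit 11) (nat_lit 6))
    (@En.n l3 (nat_lit 8953) (nat_lit 15) (nat_lit 2))))
  (@Cl.mk (nat_lit 0x20007000c000c0005000a00040004000c000c0009000600040004000e000b) (nat_lit 0x420100775000c9) (nat_lit 16) Lb.e (@T16.mk En
    (@En.n l55 (nat_lit 8952) (nat_lit 13) (nat_lit 11))
    (@En.n l2038 (nat_lit 11056) (nat_lit 1) (nat_lit 14))
    (@En.n l3498 (nat_lit 8558) (nat_lit 2) (nat_lit 4))
    (@En.n l13355 (nat_lit 12756) (nat_lit 3) (nat_lit 4))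
    (@En.i (nat_lit 4819) (nat_lit 4) (nat_lit 6))
    (@En.n l97 (nat_lit 12750) (nat_lit 5) (nat_lit 9))
    (@En.n l8381 (nat_lit 8951) (nat_lit 7) (nat_lit 12))
    (@En.n l16289 (nat_lit 9736) (nat_lit 8) (nat_lit 12))
    (@En.n l4249 (nat_lit 8953) (nat_lit 12) (nat_lit 4))
    (@En.n l2172 (nat_lit 12499) (nat_lit 9) (nat_lit 4))
    (@En.i (nat_lit 2878) (nat_lit 11) (nat_lit 10))
    (@En.n l16289 (nat_lit 10252) (nat_lit 1) (nat_lit 5))
    (@En.n l742 (nat_lit 12511) (nat_lit 13) (nat_lit 12))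
    (@En.n l564 (nat_lit 8554) (nat_lit 14) (nat_lit 12))
    (@En.n l3506 (nat_lit 9243) (nat_lit 4) (nat_lit 7))
    (@En.n l28 (nat_lit 8954) (nat_lit 15) (nat_lit 2))))
  (@Cl.mk (nat_lit 0x2000c00090006000e00040002000c000c0007000b00040004000a000e0005) (nat_lit 0x4705009a0100320) (nat_lit 16) Lb.e (@T16.mk En
    (@En.i (nat_lit 8949) (nat_lit 6) (nat_lit 5))
    (@En.i (nat_lit 2874) (nat_lit 8) (nat_lit 14))
    (@En.n l476 (nat_lit 8902) (nat_lit 2) (nat_lit 10))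
    (@En.n l152 (nat_lit 12809) (nat_lit 12) (nat_lit 4))
    (@En.i (nat_lit 12799) (nat_lit 4) (nat_lit 4))
    (@En.i (nat_lit 4061) (nat_lit 12) (nat_lit 11))
    (@En.n l13520 (nat_lit 5949) (nat_lit 6) (nat_lit 7))
    (@En.n l831 (nat_lit 12810) (nat_lit 4) (nat_lit 12))
    (@En.i (nat_lit 10871) (nat_lit 9) (nat_lit 12))
    (@En.n l17 (nat_lit 8955) (nat_lit 9) (nat_lit 2))
    (@En.n l5592 (nat_lit 12771) (nat_lit 10) (nat_lit 4))
    (@En.n l2698 (nat_lit 5895) (nat_lit 1) (nat_lit 14))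
    (@En.n l5592 (nat_lit 4511) (nat_lit 2) (nat_lit 6))
    (@En.i (nat_lit 12277) (nat_lit 14) (nat_lit 9))
    (@En.n l217 (nat_lit 8766) (nat_lit 5) (nat_lit 12))
    (@En.n l28 (nat_lit 8955) (nat_lit 15) (nat_lit 2))))
  (@Cl.mk (nat_lit 0x2000900080004000e000c0002000b000700040008000e00050002000e000c) (nat_lit 0x440910300370091) (nat_lit 16) Lb.e (@T16.mk En
    (@En.n l11706 (nat_lit 7694) (nat_lit 7) (nat_lit 12))
    (@En.n l12527 (nat_lit 9226) (nat_lit 1) (nat_lit 14))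
    (@En.n l18 (nat_lit 8956) (nat_lit 2) (nat_lit 2))
    (@En.n l50 (nat_lit 8557) (nat_lit 3) (nat_lit 5))
    (@En.n l4352 (nat_lit 4086) (nat_lit 5) (nat_lit 14))
    (@En.i (nat_lit 3538) (nat_lit 5) (nat_lit 8))
    (@En.n l4352 (nat_lit 4621) (nat_lit 6) (nat_lit 4))
    (@En.i (nat_lit 5988) (nat_lit 14) (nat_lit 7))
    (@En.n l3348 (nat_lit 10331) (nat_lit 9) (nat_lit 11))
    (@En.n l28 (nat_lit 8956) (nat_lit 9) (nat_lit 2))
    (@En.n l13533 (nat_lit 4625) (nat_lit 11) (nat_lit 12))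
    (@En.n l7882 (nat_lit 5231) (nat_lit 1) (nat_lit 14))
    (@En.n l4352 (nat_lit 7688) (nat_lit 2) (nat_lit 4))
    (@En.n l14610 (nat_lit 5120) (nat_lit 14) (nat_lit 8))
    (@En.i (nat_lit 11189) (nat_lit 12) (nat_lit 9))
    (@En.n l3 (nat_lit 8956) (nat_lit 15) (nat_lit 2))))
  (@Cl.mk (nat_lit 0x2000900070004000b000b000a000a000700050005000900060006000e000c) (nat_lit 0x300392100040081) (nat_lit 16) Lb.e (@T16.mk En
    (@En.n l13657 (nat_lit 8277) (nat_lit 3) (nat_lit 12))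
    (@En.n l27945 (nat_lit 8962) (nat_lit 1) (nat_lit 14))
    (@En.n l27946 (nat_lit 9209) (nat_lit 2) (nat_lit 6))
    (@En.i (nat_lit 5856) (nat_lit 3) (nat_lit 6))
    (@En.n l6270 (nat_lit 8442) (nat_lit 4) (nat_lit 9))
    (@En.n l55 (nat_lit 8557) (nat_lit 5) (nat_lit 5))
    (@En.n l2782 (nat_lit 8675) (nat_lit 6) (nat_lit 5))
    (@En.n l27947 (nat_lit 8197) (nat_lit 7) (nat_lit 7))
    (@En.n l15828 (nat_lit 4625) (nat_lit 9) (nat_lit 10))
    (@En.n l12756 (nat_lit 9157) (nat_lit 10) (nat_lit 10))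
    (@En.n l27948 (nat_lit 8194) (nat_lit 5) (nat_lit 11))
    (@En.n l15830 (nat_lit 11509) (nat_lit 12) (nat_lit 11))
    (@En.n l23134 (nat_lit 9106) (nat_lit 13) (nat_lit 4))
    (@En.n l27949 (nat_lit 2459) (nat_lit 14) (nat_lit 7))
    (@En.i (nat_lit 9859) (nat_lit 1) (nat_lit 9))
    (@En.n l3 (nat_lit 8957) (nat_lit 15) (nat_lit 2))))
  (@Cl.mk (nat_lit 0x200090007000e000b0002000a000a00070005000b000900060006000e0005) (nat_lit 0x5083000002500a0) (nat_lit 16) Lb.e (@T16.mk En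
    (@En.n l30191 (nat_lit 8962) (nat_lit 5) (nat_lit 5))
    (@En.n l134 (nat_lit 8941) (nat_lit 1) (nat_lit 14))
    (@En.n l11 (nat_lit 9096) (nat_lit 10) (nat_lit 6))
    (@En.n l152 (nat_lit 12282) (nat_lit 3) (nat_lit 6))
    (@En.n l17148 (nat_lit 8557) (nat_lit 4) (nat_lit 9))
    (@En.i (nat_lit 8218) (nat_lit 11) (nat_lit 11))
    (@En.n l217 (nat_lit 8979) (nat_lit 6) (nat_lit 5))
    (@En.n l30192 (nat_lit 5672) (nat_lit 7) (nat_lit 7))
    (@En.n l17144 (nat_lit 8960) (nat_lit 14) (nat_lit 10))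
    (@En.n l20244 (nat_lit 11053) (nat_lit 10) (nat_lit 10))
    (@En.n l17 (nat_lit 8958) (nat_lit 10) (nat_lit 2))
    (@En.n l30193 (nat_lit 8961) (nat_lit 12) (nat_lit 11))
    (@En.i (nat_lit 5727) (nat_lit 13) (nat_lit 14))
    (@En.n l26890 (nat_lit 5127) (nat_lit 14) (nat_lit 7))
    (@En.n l17148 (nat_lit 6462) (nat_lit 3) (nat_lit 9))
    (@En.n l7 (nat_lit 8958) (nat_lit 15) (nat_lit 2))))
  (@Cl.mk (nat_lit 0x2000b0008000c000c0009000500040004000a0008000e00070002000e0006) (nat_lit 0x322620003580070) (nat_lit 16) Lb.e (@T16.mk En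
    (@En.n l10762 (nat_lit 8965) (nat_lit 14) (nat_lit 6))
    (@En.n l3866 (nat_lit 8909) (nat_lit 1) (nat_lit 14))
    (@En.n l17 (nat_lit 8959) (nat_lit 2) (nat_lit 2))
    (@En.i (nat_lit 8961) (nat_lit 3) (nat_lit 7))
    (@En.i (nat_lit 10098) (nat_lit 5) (nat_lit 14))
    (@En.i (nat_lit 4625) (nat_lit 5) (nat_lit 8))
    (@En.n l23569 (nat_lit 9660) (nat_lit 3) (nat_lit 10))
    (@En.n l3787 (nat_lit 8960) (nat_lit 12) (nat_lit 4))
    (@En.i (nat_lit 10034) (nat_lit 8) (nat_lit 4))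
    (@En.n l23570 (nat_lit 5925) (nat_lit 9) (nat_lit 5))
    (@En.n l2337 (nat_lit 9994) (nat_lit 11) (nat_lit 9))
    (@En.n l601 (nat_lit 10035) (nat_lit 4) (nat_lit 12))
    (@En.n l16302 (nat_lit 12392) (nat_lit 13) (nat_lit 12))
    (@En.n l3569 (nat_lit 5133) (nat_lit 14) (nat_lit 8))
    (@En.i (nat_lit 10040) (nat_lit 12) (nat_lit 11))
    (@En.n l67 (nat_lit 8959) (nat_lit 15) (nat_lit 2))))
noncomputable def a560 : T16 Cl := @T16.mk Cl
  (@Cl.mk (nat_lit 0x2000a00060004000a0008000e00060002000e00060002000a0008000e000c) (nat_lit 0x800248006004233) (nat_lit 16) Lb.e (@T16.mk En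
    (@En.n l644 (nat_lit 8959) (nat_lit 12) (nat_lit 12))
    (@En.n l15604 (nat_lit 5834) (nat_lit 13) (nat_lit 14))
    (@En.n l21920 (nat_lit 5126) (nat_lit 14) (nat_lit 8))
    (@En.n l21921 (nat_lit 11195) (nat_lit 12) (nat_lit 10))
    (@En.n l67 (nat_lit 8960) (nat_lit 4) (nat_lit 2))
    (@En.n l21921 (nat_lit 8963) (nat_lit 14) (nat_lit 6))
    (@En.n l10661 (nat_lit 8944) (nat_lit 1) (nat_lit 14))
    (@En.n l17 (nat_lit 8960) (nat_lit 7) (nat_lit 2))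
    (@En.n l21922 (nat_lit 8958) (nat_lit 3) (nat_lit 6))
    (@En.i (nat_lit 12280) (nat_lit 5) (nat_lit 14))
    (@En.n l9381 (nat_lit 8956) (nat_lit 5) (nat_lit 8))
    (@En.n l21923 (nat_lit 9266) (nat_lit 12) (nat_lit 10))
    (@En.i (nat_lit 8978) (nat_lit 7) (nat_lit 4))
    (@En.n l9381 (nat_lit 5926) (nat_lit 14) (nat_lit 6))
    (@En.n l21924 (nat_lit 11387) (nat_lit 10) (nat_lit 10))
    (@En.n l7 (nat_lit 8960) (nat_lit 15) (nat_lit 2))))
  (@Cl.mk (nat_lit 0x2000a0007000b000b00090009000600050005000b000900070007000e0005) (nat_lit 0x3028030002500a0) (nat_lit 16) Lb.e (@T16.mk En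
    (@En.n l25868 (nat_lit 8964) (nat_lit 15) (nat_lit 5))
    (@En.n l25869 (nat_lit 8968) (nat_lit 1) (nat_lit 14))
    (@En.n l8639 (nat_lit 8969) (nat_lit 9) (nat_lit 7))
    (@En.n l10792 (nat_lit 12723) (nat_lit 3) (nat_lit 7))
    (@En.n l16300 (nat_lit 8957) (nat_lit 4) (nat_lit 9))
    (@En.n l25870 (nat_lit 9359) (nat_lit 6) (nat_lit 11))
    (@En.n l25871 (nat_lit 8958) (nat_lit 6) (nat_lit 5))
    (@En.i (nat_lit 9042) (nat_lit 7) (nat_lit 5))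
    (@En.n l25872 (nat_lit 5677) (nat_lit 8) (nat_lit 6))
    (@En.n l61 (nat_lit 8959) (nat_lit 10) (nat_lit 9))
    (@En.n l2337 (nat_lit 11050) (nat_lit 11) (nat_lit 9))
    (@En.n l25873 (nat_lit 9122) (nat_lit 12) (nat_lit 11))
    (@En.n l25874 (nat_lit 5953) (nat_lit 13) (nat_lit 11))
    (@En.n l10770 (nat_lit 5194) (nat_lit 14) (nat_lit 7))
    (@En.n l16300 (nat_lit 10042) (nat_lit 14) (nat_lit 10))
    (@En.n l67 (nat_lit 8961) (nat_lit 15) (nat_lit 2))))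
  (@Cl.mk (nat_lit 0x20009000900070005000b000b000a000700070005000500090006000e000b) (nat_lit 0x23600003073) (nat_lit 16) Lb.e (@T16.mk En
    (@En.n l36143 (nat_lit 8964) (nat_lit 11) (nat_lit 11))
    (@En.n l35060 (nat_lit 5726) (nat_lit 1) (nat_lit 14))
    (@En.n l39547 (nat_lit 1640) (nat_lit 2) (nat_lit 6))
    (@En.n l39548 (nat_lit 6463) (nat_lit 3) (nat_lit 9))
    (@En.n l39549 (nat_lit 8966) (nat_lit 4) (nat_lit 5))
    (@En.i (nat_lit 9736) (nat_lit 5) (nat_lit 5))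
    (@En.n l3532 (nat_lit 8967) (nat_lit 9) (nat_lit 7))
    (@En.n l39550 (nat_lit 12283) (nat_lit 7) (nat_lit 7))
    (@En.n l39551 (nat_lit 9180) (nat_lit 9) (nat_lit 10))
    (@En.n l27769 (nat_lit 8958) (nat_lit 5) (nat_lit 11))
    (@En.n l39547 (nat_lit 8220) (nat_lit 11) (nat_lit 11))
    (@En.i (nat_lit 8981) (nat_lit 12) (nat_lit 5))
    (@En.n l39548 (nat_lit 12285) (nat_lit 13) (nat_lit 7))
    (@En.n l22906 (nat_lit 8963) (nat_lit 7) (nat_lit 9))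
    (@En.n l39552 (nat_lit 11055) (nat_lit 2) (nat_lit 9))
    (@En.n l7 (nat_lit 8962) (nat_lit 15) (nat_lit 2))))
  (@Cl.mk (nat_lit 0x200060006000a0007000e000c0002000900060004000a000a0009000e0007) (nat_lit 0x3082070033590) (nat_lit 16) Lb.e (@T16.mk En
    (@En.n l10385 (nat_lit 8962) (nat_lit 7) (nat_lit 7))
    (@En.n l24764 (nat_lit 12284) (nat_lit 9) (nat_lit 14))
    (@En.n l6393 (nat_lit 7687) (nat_lit 2) (nat_lit 9))
    (@En.n l9404 (nat_lit 8960) (nat_lit 11) (nat_lit 10))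
    (@En.n l10160 (nat_lit 9265) (nat_lit 4) (nat_lit 10))
    (@En.n l10386 (nat_lit 8980) (nat_lit 5) (nat_lit 4))
    (@En.i (nat_lit 5932) (nat_lit 14) (nat_lit 6))
    (@En.n l15749 (nat_lit 11391) (nat_lit 8) (nat_lit 9))
    (@En.n l3 (nat_lit 8963) (nat_lit 8) (nat_lit 2))
    (@En.n l4130 (nat_lit 8965) (nat_lit 10) (nat_lit 12))
    (@En.n l15751 (nat_lit 4760) (nat_lit 11) (nat_lit 14))
    (@En.n l1724 (nat_lit 1645) (nat_lit 12) (nat_lit 7))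
    (@En.i (nat_lit 11631) (nat_lit 13) (nat_lit 10))
    (@En.n l1722 (nat_lit 9320) (nat_lit 14) (nat_lit 6))
    (@En.n l10385 (nat_lit 9737) (nat_lit 5) (nat_lit 6))
    (@En.n l50 (nat_lit 8963) (nat_lit 15) (nat_lit 2))))
  (@Cl.mk (nat_lit 0x50005000a0006000b000b00080008000600050005000b000b000a00080008) (nat_lit 0x40270000033754) (nat_lit 16) Lb.e (@T16.mk En
    (@En.n l14990 (nat_lit 9097) (nat_lit 8) (nat_lit 8))
    (@En.n l35829 (nat_lit 12722) (nat_lit 1) (nat_lit 8))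
    (@En.n l36085 (nat_lit 9124) (nat_lit 6) (nat_lit 10))
    (@En.n l40033 (nat_lit 8961) (nat_lit 5) (nat_lit 11))
    (@En.n l40034 (nat_lit 9873) (nat_lit 10) (nat_lit 11))
    (@En.n l40035 (nat_lit 8962) (nat_lit 11) (nat_lit 5))
    (@En.n l25849 (nat_lit 9011) (nat_lit 11) (nat_lit 5))
    (@En.i (nat_lit 12196) (nat_lit 0) (nat_lit 6))
    (@En.n l2491 (nat_lit 8965) (nat_lit 8) (nat_lit 8))
    (@En.n l40036 (nat_lit 10417) (nat_lit 2) (nat_lit 8))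
    (@En.n l61 (nat_lit 9120) (nat_lit 5) (nat_lit 11))
    (@En.n l40037 (nat_lit 12000) (nat_lit 9) (nat_lit 11))
    (@En.n l7479 (nat_lit 1643) (nat_lit 5) (nat_lit 6))
    (@En.n l40038 (nat_lit 7574) (nat_lit 10) (nat_lit 10))
    (@En.n l152 (nat_lit 9224) (nat_lit 11) (nat_lit 5))
    (@En.n l25849 (nat_lit 9735) (nat_lit 0) (nat_lit 5))))
  (@Cl.mk (nat_lit 0x200060006000b0007000c000c0008000500040004000a000a0009000e0008) (nat_lit 0x3015600044646) (nat_lit 16) Lb.e (@T16.mk En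
    (@En.n l19999 (nat_lit 8964) (nat_lit 1) (nat_lit 8))
    (@En.n l38439 (nat_lit 10125) (nat_lit 1) (nat_lit 14))
    (@En.n l4758 (nat_lit 7692) (nat_lit 2) (nat_lit 9))
    (@En.n l24249 (nat_lit 8959) (nat_lit 6) (nat_lit 10))
    (@En.n l5801 (nat_lit 9802) (nat_lit 4) (nat_lit 10))
    (@En.n l3519 (nat_lit 8963) (nat_lit 5) (nat_lit 4))
    (@En.n l38440 (nat_lit 9028) (nat_lit 6) (nat_lit 4))
    (@En.i (nat_lit 5929) (nat_lit 7) (nat_lit 5))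
    (@En.n l38441 (nat_lit 9997) (nat_lit 9) (nat_lit 8))
    (@En.n l61 (nat_lit 10036) (nat_lit 10) (nat_lit 12))
    (@En.n l38442 (nat_lit 5308) (nat_lit 11) (nat_lit 12))
    (@En.n l7471 (nat_lit 1646) (nat_lit 12) (nat_lit 7))
    (@En.n l3517 (nat_lit 7575) (nat_lit 13) (nat_lit 11))
    (@En.n l152 (nat_lit 9035) (nat_lit 14) (nat_lit 6))
    (@En.n l24725 (nat_lit 8591) (nat_lit 13) (nat_lit 6))
    (@En.n l28 (nat_lit 8965) (nat_lit 15) (nat_lit 2))))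
  (@Cl.mk (nat_lit 0x20008000800070005000e000b0002000b00080008000500090005000e000b) (nat_lit 0x500013065202083) (nat_lit 16) Lb.e (@T16.mk En
    (@En.n l32677 (nat_lit 9224) (nat_lit 8) (nat_lit 11))
    (@En.n l15506 (nat_lit 5729) (nat_lit 9) (nat_lit 14))
    (@En.i (nat_lit 4633) (nat_lit 2) (nat_lit 5))
    (@En.n l2171 (nat_lit 2041) (nat_lit 3) (nat_lit 9))
    (@En.n l5802 (nat_lit 9989) (nat_lit 4) (nat_lit 5))
    (@En.n l742 (nat_lit 9222) (nat_lit 8) (nat_lit 8))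
    (@En.n l32678 (nat_lit 9227) (nat_lit 6) (nat_lit 8))
    (@En.n l32679 (nat_lit 5459) (nat_lit 8) (nat_lit 11))
    (@En.n l28 (nat_lit 8966) (nat_lit 8) (nat_lit 2))
    (@En.n l27945 (nat_lit 8962) (nat_lit 10) (nat_lit 11))
    (@En.n l18627 (nat_lit 1778) (nat_lit 11) (nat_lit 14))
    (@En.n l11044 (nat_lit 9005) (nat_lit 2) (nat_lit 5))
    (@En.n l32680 (nat_lit 9229) (nat_lit 13) (nat_lit 7))
    (@En.n l23366 (nat_lit 9320) (nat_lit 8) (nat_lit 8))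
    (@En.n l10118 (nat_lit 11593) (nat_lit 5) (nat_lit 8))
    (@En.n l3 (nat_lit 8966) (nat_lit 15) (nat_lit 2))))
  (@Cl.mk (nat_lit 0x200080006000c000c000b00070004000400080005000e000a0002000e0009) (nat_lit 0x5033700030330a1) (nat_lit 16) Lb.e (@T16.mk En
    (@En.n l517 (nat_lit 8962) (nat_lit 14) (nat_lit 9))
    (@En.n l35291 (nat_lit 8073) (nat_lit 1) (nat_lit 14))
    (@En.n l18 (nat_lit 8967) (nat_lit 2) (nat_lit 2))
    (@En.n l35292 (nat_lit 9097) (nat_lit 3) (nat_lit 10))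
    (@En.n l35293 (nat_lit 5731) (nat_lit 5) (nat_lit 14))
    (@En.n l3423 (nat_lit 1644) (nat_lit 5) (nat_lit 5))
    (@En.n l31766 (nat_lit 6456) (nat_lit 6) (nat_lit 8))
    (@En.n l35294 (nat_lit 9222) (nat_lit 7) (nat_lit 4))
    (@En.i (nat_lit 9099) (nat_lit 8) (nat_lit 4))
    (@En.n l35293 (nat_lit 5452) (nat_lit 6) (nat_lit 7))
    (@En.n l457 (nat_lit 7835) (nat_lit 11) (nat_lit 11))
    (@En.n l35295 (nat_lit 9096) (nat_lit 12) (nat_lit 12))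
    (@En.n l20259 (nat_lit 8217) (nat_lit 13) (nat_lit 12))
    (@En.i (nat_lit 8084) (nat_lit 14) (nat_lit 6))
    (@En.n l31766 (nat_lit 9234) (nat_lit 12) (nat_lit 8))
    (@En.n l3 (nat_lit 8967) (nat_lit 15) (nat_lit 2))))
  (@Cl.mk (nat_lit 0x2000a000a0007000b000b00090006000600050005000c00090007000e0004) (nat_lit 0x770125000064090) (nat_lit 16) Lb.e (@T16.mk En
    (@En.n l2752 (nat_lit 8940) (nat_lit 15) (nat_lit 4))
    (@En.i (nat_lit 4138) (nat_lit 1) (nat_lit 14))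
    (@En.n l29111 (nat_lit 4156) (nat_lit 2) (nat_lit 7))
    (@En.n l30191 (nat_lit 8962) (nat_lit 3) (nat_lit 9))
    (@En.n l26965 (nat_lit 9348) (nat_lit 5) (nat_lit 12))
    (@En.n l24496 (nat_lit 8941) (nat_lit 5) (nat_lit 5))
    (@En.n l30191 (nat_lit 10218) (nat_lit 6) (nat_lit 5))
    (@En.n l35090 (nat_lit 8970) (nat_lit 10) (nat_lit 6))
    (@En.n l4976 (nat_lit 8903) (nat_lit 8) (nat_lit 6))
    (@En.n l16179 (nat_lit 7247) (nat_lit 10) (nat_lit 9))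
    (@En.n l77 (nat_lit 8972) (nat_lit 11) (nat_lit 11))
    (@En.i (nat_lit 2413) (nat_lit 12) (nat_lit 11))
    (@En.n l4512 (nat_lit 8948) (nat_lit 13) (nat_lit 7))
    (@En.n l35091 (nat_lit 8976) (nat_lit 6) (nat_lit 10))
    (@En.i (nat_lit 11080) (nat_lit 14) (nat_lit 10))
    (@En.n l17 (nat_lit 8968) (nat_lit 15) (nat_lit 2))))
  (@Cl.mk (nat_lit 0x2000700060006000c000a0007000e0004000200090006000a000a000e0009) (nat_lit 0x4609003026a1) (nat_lit 16) Lb.e (@T16.mk En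
    (@En.n l3247 (nat_lit 8961) (nat_lit 10) (nat_lit 9))
    (@En.n l13464 (nat_lit 8069) (nat_lit 11) (nat_lit 14))
    (@En.n l13465 (nat_lit 9121) (nat_lit 2) (nat_lit 10))
    (@En.n l13466 (nat_lit 5959) (nat_lit 3) (nat_lit 10))
    (@En.n l13464 (nat_lit 5193) (nat_lit 14) (nat_lit 6))
    (@En.n l13467 (nat_lit 10090) (nat_lit 5) (nat_lit 9))
    (@En.n l28 (nat_lit 8969) (nat_lit 6) (nat_lit 2))
    (@En.n l13468 (nat_lit 9097) (nat_lit 7) (nat_lit 4))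
    (@En.n l13466 (nat_lit 5820) (nat_lit 9) (nat_lit 14))
    (@En.n l13469 (nat_lit 6011) (nat_lit 2) (nat_lit 7))
    (@En.i (nat_lit 9209) (nat_lit 3) (nat_lit 10))
    (@En.n l13470 (nat_lit 9869) (nat_lit 12) (nat_lit 12))
    (@En.n l13471 (nat_lit 9096) (nat_lit 13) (nat_lit 6))
    (@En.i (nat_lit 8080) (nat_lit 14) (nat_lit 6))
    (@En.n l13472 (nat_lit 12193) (nat_lit 7) (nat_lit 7))
    (@En.n l3 (nat_lit 8969) (nat_lit 15) (nat_lit 2))))
  (@Cl.mk (nat_lit 0x20008000c000c000a000600040004000c00080006000e00040002000e000a) (nat_lit 0x4224000a40800b8) (nat_lit 16) Lb.e (@T16.mk En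
    (@En.n l20172 (nat_lit 8968) (nat_lit 14) (nat_lit 10))
    (@En.n l1821 (nat_lit 12599) (nat_lit 1) (nat_lit 14))
    (@En.n l7 (nat_lit 8970) (nat_lit 2) (nat_lit 2))
    (@En.n l28 (nat_lit 8644) (nat_lit 3) (nat_lit 4))
    (@En.n l541 (nat_lit 4129) (nat_lit 5) (nat_lit 14))
    (@En.n l5406 (nat_lit 4160) (nat_lit 5) (nat_lit 6))
    (@En.n l1652 (nat_lit 8967) (nat_lit 6) (nat_lit 8))
    (@En.n l4879 (nat_lit 9349) (nat_lit 8) (nat_lit 12))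
    (@En.n l152 (nat_lit 8998) (nat_lit 8) (nat_lit 4))
    (@En.n l1652 (nat_lit 7779) (nat_lit 9) (nat_lit 4))
    (@En.n l541 (nat_lit 4075) (nat_lit 7) (nat_lit 6))
    (@En.n l906 (nat_lit 7344) (nat_lit 12) (nat_lit 10))
    (@En.n l4289 (nat_lit 8971) (nat_lit 13) (nat_lit 12))
    (@En.n l541 (nat_lit 4618) (nat_lit 14) (nat_lit 12))
    (@En.n l1652 (nat_lit 8909) (nat_lit 12) (nat_lit 8))
    (@En.n l18 (nat_lit 8970) (nat_lit 15) (nat_lit 2))))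
  (@Cl.mk (nat_lit 0x20008000c00090005000e00040002000c00080007000e00040002000e000b) (nat_lit 0x4140100a5050067) (nat_lit 16) Lb.e (@T16.mk En
    (@En.n l68 (nat_lit 8972) (nat_lit 14) (nat_lit 11))
    (@En.n l2005 (nat_lit 12600) (nat_lit 1) (nat_lit 14))
    (@En.n l17 (nat_lit 8971) (nat_lit 2) (nat_lit 2))
    (@En.n l1073 (nat_lit 8646) (nat_lit 3) (nat_lit 4))
    (@En.i (nat_lit 5832) (nat_lit 5) (nat_lit 14))
    (@En.n l9874 (nat_lit 4163) (nat_lit 13) (nat_lit 7))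
    (@En.i (nat_lit 9096) (nat_lit 6) (nat_lit 8))
    (@En.n l9874 (nat_lit 9561) (nat_lit 8) (nat_lit 12))
    (@En.n l7 (nat_lit 8971) (nat_lit 8) (nat_lit 2))
    (@En.n l1792 (nat_lit 8970) (nat_lit 9) (nat_lit 4))
    (@En.n l255 (nat_lit 3999) (nat_lit 1) (nat_lit 14))
    (@En.i (nat_lit 4073) (nat_lit 2) (nat_lit 5))
    (@En.i (nat_lit 2912) (nat_lit 13) (nat_lit 9))
    (@En.i (nat_lit 4620) (nat_lit 14) (nat_lit 12))
    (@En.n l3516 (nat_lit 8898) (nat_lit 12) (nat_lit 8))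
    (@En.n l67 (nat_lit 8971) (nat_lit 15) (nat_lit 2))))
  (@Cl.mk (nat_lit 0x2000b000b0007000b000800050005000e00050002000c00090008000e0004) (nat_lit 0x6001300b0086250) (nat_lit 16) Lb.e (@T16.mk En
    (@En.n l2752 (nat_lit 8973) (nat_lit 10) (nat_lit 4))
    (@En.i (nat_lit 5826) (nat_lit 1) (nat_lit 14))
    (@En.n l4935 (nat_lit 4151) (nat_lit 2) (nat_lit 8))
    (@En.i (nat_lit 8958) (nat_lit 14) (nat_lit 9))
    (@En.i (nat_lit 9274) (nat_lit 5) (nat_lit 12))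
    (@En.n l7 (nat_lit 8972) (nat_lit 5) (nat_lit 2))
    (@En.i (nat_lit 8968) (nat_lit 6) (nat_lit 5))
    (@En.n l134 (nat_lit 8729) (nat_lit 1) (nat_lit 14))
    (@En.n l11 (nat_lit 8971) (nat_lit 11) (nat_lit 5))
    (@En.n l152 (nat_lit 8901) (nat_lit 9) (nat_lit 5))
    (@En.i (nat_lit 2913) (nat_lit 4) (nat_lit 8))
    (@En.i (nat_lit 4623) (nat_lit 12) (nat_lit 11))
    (@En.n l532 (nat_lit 8897) (nat_lit 6) (nat_lit 7))
    (@En.n l619 (nat_lit 8974) (nat_lit 14) (nat_lit 11))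
    (@En.i (nat_lit 11448) (nat_lit 9) (nat_lit 11))
    (@En.n l17 (nat_lit 8972) (nat_lit 15) (nat_lit 2))))
  (@Cl.mk (nat_lit 0x2000c000c000a000900040004000b000b0006000b000700050005000e0005) (nat_lit 0x6956009702000a0) (nat_lit 16) Lb.e (@T16.mk En
    (@En.i (nat_lit 8940) (nat_lit 5) (nat_lit 5))
    (@En.n l8036 (nat_lit 8730) (nat_lit 1) (nat_lit 14))
    (@En.n l55 (nat_lit 8646) (nat_lit 11) (nat_lit 5))
    (@En.i (nat_lit 8900) (nat_lit 3) (nat_lit 5))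
    (@En.n l8037 (nat_lit 2915) (nat_lit 4) (nat_lit 7))
    (@En.n l8038 (nat_lit 8667) (nat_lit 6) (nat_lit 11))
    (@En.n l8039 (nat_lit 8890) (nat_lit 6) (nat_lit 6))
    (@En.n l8040 (nat_lit 8975) (nat_lit 8) (nat_lit 11))
    (@En.n l8041 (nat_lit 9808) (nat_lit 9) (nat_lit 11))
    (@En.n l8042 (nat_lit 8984) (nat_lit 12) (nat_lit 4))
    (@En.n l8038 (nat_lit 8979) (nat_lit 10) (nat_lit 4))
    (@En.n l1334 (nat_lit 4147) (nat_lit 12) (nat_lit 9))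
    (@En.n l3699 (nat_lit 9014) (nat_lit 13) (nat_lit 10))
    (@En.n l8043 (nat_lit 8972) (nat_lit 4) (nat_lit 12))
    (@En.n l3502 (nat_lit 9478) (nat_lit 3) (nat_lit 12))
    (@En.n l17 (nat_lit 8973) (nat_lit 15) (nat_lit 2))))
  (@Cl.mk (nat_lit 0x2000b0006000a0007000e00050002000e00060002000c000a0009000e0004) (nat_lit 0x9010900600952a0) (nat_lit 16) Lb.e (@T16.mk En
    (@En.n l31612 (nat_lit 8975) (nat_lit 10) (nat_lit 4))
    (@En.i (nat_lit 5830) (nat_lit 1) (nat_lit 14))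
    (@En.n l31613 (nat_lit 4162) (nat_lit 2) (nat_lit 9))
    (@En.n l31614 (nat_lit 8960) (nat_lit 3) (nat_lit 10))
    (@En.i (nat_lit 9271) (nat_lit 12) (nat_lit 12))
    (@En.n l7 (nat_lit 8974) (nat_lit 5) (nat_lit 2))
    (@En.n l31615 (nat_lit 8976) (nat_lit 14) (nat_lit 6))
    (@En.n l15991 (nat_lit 8924) (nat_lit 1) (nat_lit 14))
    (@En.n l11 (nat_lit 8974) (nat_lit 8) (nat_lit 2))
    (@En.n l117 (nat_lit 8972) (nat_lit 9) (nat_lit 5))
    (@En.n l2691 (nat_lit 12810) (nat_lit 1) (nat_lit 14))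
    (@En.n l31614 (nat_lit 2920) (nat_lit 5) (nat_lit 7))
    (@En.i (nat_lit 7534) (nat_lit 13) (nat_lit 10))
    (@En.i (nat_lit 5948) (nat_lit 14) (nat_lit 6))
    (@En.n l936 (nat_lit 10348) (nat_lit 9) (nat_lit 11))
    (@En.n l17 (nat_lit 8974) (nat_lit 15) (nat_lit 2))))
  (@Cl.mk (nat_lit 0x2000c000c000b000a00040004000b0005000a0006000e00050002000e0006) (nat_lit 0x7a52006010900a0) (nat_lit 16) Lb.e (@T16.mk En
    (@En.n l97 (nat_lit 8977) (nat_lit 14) (nat_lit 6))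
    (@En.n l2824 (nat_lit 7371) (nat_lit 1) (nat_lit 14))
    (@En.n l17 (nat_lit 8975) (nat_lit 2) (nat_lit 2))
    (@En.n l18560 (nat_lit 8973) (nat_lit 3) (nat_lit 5))
    (@En.n l11616 (nat_lit 12775) (nat_lit 1) (nat_lit 14))
    (@En.n l18561 (nat_lit 2039) (nat_lit 5) (nat_lit 6))
    (@En.n l16844 (nat_lit 7538) (nat_lit 3) (nat_lit 10))
    (@En.n l7 (nat_lit 5017) (nat_lit 7) (nat_lit 5))
    (@En.n l4538 (nat_lit 9806) (nat_lit 9) (nat_lit 11))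
    (@En.n l18562 (nat_lit 8985) (nat_lit 12) (nat_lit 4))
    (@En.i (nat_lit 8978) (nat_lit 10) (nat_lit 4))
    (@En.n l18563 (nat_lit 4150) (nat_lit 12) (nat_lit 10))
    (@En.n l4380 (nat_lit 9016) (nat_lit 13) (nat_lit 11))
    (@En.n l18564 (nat_lit 8974) (nat_lit 4) (nat_lit 12))
    (@En.i (nat_lit 9483) (nat_lit 12) (nat_lit 12))
    (@En.n l67 (nat_lit 8975) (nat_lit 15) (nat_lit 2))))
noncomputable def a561 : T16 Cl := @T16.mk Cl
  (@Cl.mk (nat_lit 0x200060006000c000a0008000e00040002000a0006000a000a0008000e0006) (nat_lit 0x94390060224a0) (nat_lit 16) Lb.e (@T16.mk En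
    (@En.n l30394 (nat_lit 8968) (nat_lit 8) (nat_lit 6))
    (@En.n l3548 (nat_lit 5819) (nat_lit 1) (nat_lit 14))
    (@En.n l24364 (nat_lit 6892) (nat_lit 2) (nat_lit 8))
    (@En.n l30395 (nat_lit 8974) (nat_lit 12) (nat_lit 10))
    (@En.n l30396 (nat_lit 7532) (nat_lit 4) (nat_lit 10))
    (@En.n l30397 (nat_lit 5258) (nat_lit 5) (nat_lit 6))
    (@En.n l30398 (nat_lit 10346) (nat_lit 7) (nat_lit 10))
    (@En.n l7 (nat_lit 8976) (nat_lit 7) (nat_lit 2))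
    (@En.n l28 (nat_lit 8977) (nat_lit 8) (nat_lit 4))
    (@En.n l30396 (nat_lit 5835) (nat_lit 10) (nat_lit 14))
    (@En.n l30399 (nat_lit 4158) (nat_lit 11) (nat_lit 8))
    (@En.n l17900 (nat_lit 8963) (nat_lit 12) (nat_lit 10))
    (@En.n l30397 (nat_lit 9299) (nat_lit 13) (nat_lit 12))
    (@En.n l30400 (nat_lit 9306) (nat_lit 14) (nat_lit 6))
    (@En.n l2947 (nat_lit 8921) (nat_lit 6) (nat_lit 6))
    (@En.n l17 (nat_lit 8976) (nat_lit 15) (nat_lit 2))))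
  (@Cl.mk (nat_lit 0x200060006000c000c000b000900040004000a0005000a000a0007000e0006) (nat_lit 0x6a55006012080) (nat_lit 16) Lb.e (@T16.mk En
    (@En.n l34336 (nat_lit 8940) (nat_lit 7) (nat_lit 6))
    (@En.n l3548 (nat_lit 5818) (nat_lit 1) (nat_lit 14))
    (@En.n l10215 (nat_lit 6887) (nat_lit 2) (nat_lit 7))
    (@En.n l3 (nat_lit 8975) (nat_lit 6) (nat_lit 10))
    (@En.n l10026 (nat_lit 6309) (nat_lit 4) (nat_lit 10))
    (@En.n l24199 (nat_lit 5020) (nat_lit 5) (nat_lit 5))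
    (@En.n l34337 (nat_lit 11407) (nat_lit 7) (nat_lit 10))
    (@En.n l25239 (nat_lit 8986) (nat_lit 7) (nat_lit 4))
    (@En.i (nat_lit 8980) (nat_lit 8) (nat_lit 4))
    (@En.n l34338 (nat_lit 4155) (nat_lit 10) (nat_lit 9))
    (@En.n l4380 (nat_lit 9015) (nat_lit 11) (nat_lit 11))
    (@En.n l134 (nat_lit 8976) (nat_lit 12) (nat_lit 12))
    (@En.n l34339 (nat_lit 9796) (nat_lit 13) (nat_lit 12))
    (@En.n l34340 (nat_lit 8939) (nat_lit 14) (nat_lit 6))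
    (@En.n l2947 (nat_lit 10229) (nat_lit 13) (nat_lit 6))
    (@En.n l17 (nat_lit 8977) (nat_lit 15) (nat_lit 2))))
  (@Cl.mk (nat_lit 0x2000c0008000d000c00040003000b0004000a0008000e00050002000e0006) (nat_lit 0x83ba00301280030) (nat_lit 16) Lb.e (@T16.mk En
    (@En.n l97 (nat_lit 8980) (nat_lit 14) (nat_lit 6))
    (@En.n l3866 (nat_lit 9974) (nat_lit 1) (nat_lit 14))
    (@En.n l17 (nat_lit 8978) (nat_lit 2) (nat_lit 2))
    (@En.n l19662 (nat_lit 8979) (nat_lit 3) (nat_lit 5))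
    (@En.i (nat_lit 12770) (nat_lit 1) (nat_lit 14))
    (@En.i (nat_lit 4621) (nat_lit 5) (nat_lit 8))
    (@En.n l10979 (nat_lit 7540) (nat_lit 3) (nat_lit 10))
    (@En.n l7 (nat_lit 8959) (nat_lit 7) (nat_lit 4))
    (@En.n l4538 (nat_lit 11386) (nat_lit 9) (nat_lit 11))
    (@En.n l7 (nat_lit 8983) (nat_lit 9) (nat_lit 3))
    (@En.n l15603 (nat_lit 8974) (nat_lit 0) (nat_lit 4))
    (@En.n l644 (nat_lit 10034) (nat_lit 12) (nat_lit 12))
    (@En.n l15604 (nat_lit 5828) (nat_lit 13) (nat_lit 13))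
    (@En.n l4538 (nat_lit 7038) (nat_lit 14) (nat_lit 8))
    (@En.i (nat_lit 9466) (nat_lit 12) (nat_lit 12))
    (@En.n l67 (nat_lit 8978) (nat_lit 15) (nat_lit 2))))
  (@Cl.mk (nat_lit 0x2000c0007000d000b00040003000b000b0005000b000900050005000e0005) (nat_lit 0x70a600940020050) (nat_lit 16) Lb.e (@T16.mk En
    (@En.n l15897 (nat_lit 8981) (nat_lit 6) (nat_lit 5))
    (@En.n l134 (nat_lit 9148) (nat_lit 1) (nat_lit 14))
    (@En.n l19273 (nat_lit 8081) (nat_lit 11) (nat_lit 5))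
    (@En.n l19274 (nat_lit 6401) (nat_lit 3) (nat_lit 5))
    (@En.n l19275 (nat_lit 8674) (nat_lit 4) (nat_lit 9))
    (@En.i (nat_lit 10230) (nat_lit 6) (nat_lit 11))
    (@En.n l18738 (nat_lit 11044) (nat_lit 6) (nat_lit 5))
    (@En.n l19276 (nat_lit 8978) (nat_lit 8) (nat_lit 11))
    (@En.n l17145 (nat_lit 11383) (nat_lit 9) (nat_lit 11))
    (@En.n l19277 (nat_lit 9041) (nat_lit 9) (nat_lit 3))
    (@En.n l18 (nat_lit 8972) (nat_lit 0) (nat_lit 4))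
    (@En.n l19278 (nat_lit 9042) (nat_lit 12) (nat_lit 11))
    (@En.i (nat_lit 5825) (nat_lit 13) (nat_lit 13))
    (@En.n l61 (nat_lit 6670) (nat_lit 14) (nat_lit 7))
    (@En.i (nat_lit 9469) (nat_lit 3) (nat_lit 12))
    (@En.n l7 (nat_lit 8979) (nat_lit 15) (nat_lit 2))))
  (@Cl.mk (nat_lit 0x200060006000c0007000d000c00040003000a0004000a000a0009000e0006) (nat_lit 0x80a3002012270) (nat_lit 16) Lb.e (@T16.mk En
    (@En.n l2947 (nat_lit 8981) (nat_lit 8) (nat_lit 6))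
    (@En.n l3548 (nat_lit 12489) (nat_lit 1) (nat_lit 14))
    (@En.n l575 (nat_lit 8344) (nat_lit 2) (nat_lit 9))
    (@En.n l3 (nat_lit 8978) (nat_lit 6) (nat_lit 10))
    (@En.n l19689 (nat_lit 4427) (nat_lit 4) (nat_lit 10))
    (@En.n l24199 (nat_lit 8965) (nat_lit 5) (nat_lit 4))
    (@En.n l564 (nat_lit 11389) (nat_lit 7) (nat_lit 10))
    (@En.n l7 (nat_lit 9027) (nat_lit 7) (nat_lit 3))
    (@En.i (nat_lit 8976) (nat_lit 8) (nat_lit 4))
    (@En.n l644 (nat_lit 9028) (nat_lit 10) (nat_lit 12))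
    (@En.n l23301 (nat_lit 5836) (nat_lit 11) (nat_lit 13))
    (@En.i (nat_lit 6036) (nat_lit 12) (nat_lit 7))
    (@En.n l575 (nat_lit 9470) (nat_lit 13) (nat_lit 12))
    (@En.n l8480 (nat_lit 9030) (nat_lit 14) (nat_lit 6))
    (@En.n l2947 (nat_lit 10195) (nat_lit 13) (nat_lit 6))
    (@En.n l17 (nat_lit 8980) (nat_lit 15) (nat_lit 2))))
  (@Cl.mk (nat_lit 0x3000a000a0005000b000b000a0006000600050005000c0006000d000b0004) (nat_lit 0x330113000050350) (nat_lit 16) Lb.e (@T16.mk En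
    (@En.n l35060 (nat_lit 8968) (nat_lit 0) (nat_lit 4))
    (@En.n l644 (nat_lit 9011) (nat_lit 0) (nat_lit 11))
    (@En.n l35061 (nat_lit 4133) (nat_lit 1) (nat_lit 13))
    (@En.n l19087 (nat_lit 6040) (nat_lit 3) (nat_lit 6))
    (@En.n l35062 (nat_lit 9353) (nat_lit 3) (nat_lit 12))
    (@En.n l7893 (nat_lit 9005) (nat_lit 11) (nat_lit 5))
    (@En.i (nat_lit 9151) (nat_lit 6) (nat_lit 5))
    (@En.n l3532 (nat_lit 8084) (nat_lit 10) (nat_lit 6))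
    (@En.n l35063 (nat_lit 6405) (nat_lit 8) (nat_lit 6))
    (@En.n l7895 (nat_lit 8489) (nat_lit 10) (nat_lit 10))
    (@En.n l28231 (nat_lit 8979) (nat_lit 5) (nat_lit 11))
    (@En.n l18098 (nat_lit 2417) (nat_lit 12) (nat_lit 11))
    (@En.n l7899 (nat_lit 11043) (nat_lit 13) (nat_lit 5))
    (@En.n l2717 (nat_lit 8980) (nat_lit 6) (nat_lit 10))
    (@En.n l16865 (nat_lit 10279) (nat_lit 14) (nat_lit 10))
    (@En.n l7 (nat_lit 9009) (nat_lit 15) (nat_lit 3))))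
  (@Cl.mk (nat_lit 0x2000d000c00090003000d0004000b0003000a0007000e00050002000e0006) (nat_lit 0x7950901070500a0) (nat_lit 16) Lb.e (@T16.mk En
    (@En.n l97 (nat_lit 9026) (nat_lit 14) (nat_lit 6))
    (@En.n l1236 (nat_lit 9975) (nat_lit 1) (nat_lit 14))
    (@En.n l17 (nat_lit 8982) (nat_lit 2) (nat_lit 2))
    (@En.n l14227 (nat_lit 9040) (nat_lit 3) (nat_lit 5))
    (@En.i (nat_lit 12496) (nat_lit 1) (nat_lit 14))
    (@En.i (nat_lit 4618) (nat_lit 5) (nat_lit 7))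
    (@En.n l1792 (nat_lit 10221) (nat_lit 3) (nat_lit 10))
    (@En.i (nat_lit 9016) (nat_lit 7) (nat_lit 3))
    (@En.n l5200 (nat_lit 7967) (nat_lit 0) (nat_lit 11))
    (@En.n l28 (nat_lit 8975) (nat_lit 9) (nat_lit 4))
    (@En.n l1789 (nat_lit 6057) (nat_lit 11) (nat_lit 13))
    (@En.n l28 (nat_lit 8983) (nat_lit 11) (nat_lit 3))
    (@En.n l6576 (nat_lit 2026) (nat_lit 0) (nat_lit 9))
    (@En.n l77 (nat_lit 8978) (nat_lit 14) (nat_lit 12))
    (@En.i (nat_lit 7467) (nat_lit 12) (nat_lit 13))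
    (@En.n l67 (nat_lit 8982) (nat_lit 15) (nat_lit 2))))
  (@Cl.mk (nat_lit 0x2000d0008000d0003000d0003000b0003000a0008000e00050002000e0006) (nat_lit 0x72b080107250060) (nat_lit 16) Lb.e (@T16.mk En
    (@En.n l97 (nat_lit 9027) (nat_lit 14) (nat_lit 6))
    (@En.n l3866 (nat_lit 9972) (nat_lit 1) (nat_lit 14))
    (@En.n l17 (nat_lit 8983) (nat_lit 2) (nat_lit 2))
    (@En.i (nat_lit 9041) (nat_lit 3) (nat_lit 5))
    (@En.i (nat_lit 12497) (nat_lit 1) (nat_lit 14))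
    (@En.i (nat_lit 4620) (nat_lit 5) (nat_lit 8))
    (@En.i (nat_lit 8927) (nat_lit 3) (nat_lit 10))
    (@En.i (nat_lit 10034) (nat_lit 7) (nat_lit 3))
    (@En.i (nat_lit 7965) (nat_lit 0) (nat_lit 11))
    (@En.i (nat_lit 8978) (nat_lit 9) (nat_lit 3))
    (@En.i (nat_lit 2931) (nat_lit 11) (nat_lit 13))
    (@En.i (nat_lit 8982) (nat_lit 11) (nat_lit 3))
    (@En.n l5588 (nat_lit 5831) (nat_lit 0) (nat_lit 13))
    (@En.i (nat_lit 6043) (nat_lit 14) (nat_lit 8))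
    (@En.i (nat_lit 7464) (nat_lit 12) (nat_lit 13))
    (@En.n l67 (nat_lit 8983) (nat_lit 15) (nat_lit 2))))
  (@Cl.mk (nat_lit 0x2000b000a0004000b000b0005000b000600050005000e00050002000e000c) (nat_lit 0x670200900090067) (nat_lit 16) Lb.e (@T16.mk En
    (@En.n l1208 (nat_lit 8973) (nat_lit 14) (nat_lit 12))
    (@En.i (nat_lit 7649) (nat_lit 1) (nat_lit 14))
    (@En.n l18 (nat_lit 8984) (nat_lit 2) (nat_lit 2))
    (@En.n l7 (nat_lit 7653) (nat_lit 3) (nat_lit 5))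
    (@En.n l2724 (nat_lit 10748) (nat_lit 1) (nat_lit 14))
    (@En.n l237 (nat_lit 8645) (nat_lit 11) (nat_lit 5))
    (@En.i (nat_lit 8867) (nat_lit 6) (nat_lit 5))
    (@En.n l2842 (nat_lit 2032) (nat_lit 7) (nat_lit 6))
    (@En.i (nat_lit 8665) (nat_lit 9) (nat_lit 11))
    (@En.n l414 (nat_lit 8888) (nat_lit 9) (nat_lit 5))
    (@En.n l134 (nat_lit 8985) (nat_lit 11) (nat_lit 11))
    (@En.n l11 (nat_lit 12342) (nat_lit 12) (nat_lit 11))
    (@En.n l117 (nat_lit 9040) (nat_lit 9) (nat_lit 4))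
    (@En.n l2730 (nat_lit 4146) (nat_lit 14) (nat_lit 10))
    (@En.i (nat_lit 7836) (nat_lit 12) (nat_lit 11))
    (@En.n l3 (nat_lit 8984) (nat_lit 15) (nat_lit 2))))
  (@Cl.mk (nat_lit 0x2000c000b0004000b0004000a0005000e00050002000e00060002000e000c) (nat_lit 0x870902060030058) (nat_lit 16) Lb.e (@T16.mk En
    (@En.n l4288 (nat_lit 8975) (nat_lit 14) (nat_lit 12))
    (@En.n l7688 (nat_lit 8987) (nat_lit 1) (nat_lit 14))
    (@En.n l18 (nat_lit 8985) (nat_lit 2) (nat_lit 2))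
    (@En.n l4739 (nat_lit 8986) (nat_lit 14) (nat_lit 6))
    (@En.n l7689 (nat_lit 7369) (nat_lit 1) (nat_lit 14))
    (@En.n l7 (nat_lit 8985) (nat_lit 5) (nat_lit 2))
    (@En.n l28 (nat_lit 8984) (nat_lit 6) (nat_lit 5))
    (@En.n l7690 (nat_lit 12777) (nat_lit 1) (nat_lit 14))
    (@En.n l1038 (nat_lit 2035) (nat_lit 8) (nat_lit 5))
    (@En.i (nat_lit 8662) (nat_lit 10) (nat_lit 10))
    (@En.n l1162 (nat_lit 7141) (nat_lit 10) (nat_lit 4))
    (@En.n l1173 (nat_lit 11068) (nat_lit 12) (nat_lit 11))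
    (@En.n l539 (nat_lit 8982) (nat_lit 9) (nat_lit 4))
    (@En.n l1501 (nat_lit 4149) (nat_lit 14) (nat_lit 11))
    (@En.i (nat_lit 6051) (nat_lit 12) (nat_lit 12))
    (@En.n l3 (nat_lit 8985) (nat_lit 15) (nat_lit 2))))
  (@Cl.mk (nat_lit 0x200060006000e000c0002000c000a0004000a0004000a000a0006000e0006) (nat_lit 0x4707608023070) (nat_lit 16) Lb.e (@T16.mk En
    (@En.n l18624 (nat_lit 7653) (nat_lit 5) (nat_lit 6))
    (@En.n l18625 (nat_lit 8195) (nat_lit 1) (nat_lit 14))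
    (@En.n l4353 (nat_lit 6889) (nat_lit 2) (nat_lit 6))
    (@En.n l12437 (nat_lit 8985) (nat_lit 9) (nat_lit 10))
    (@En.n l3858 (nat_lit 6420) (nat_lit 10) (nat_lit 10))
    (@En.n l7 (nat_lit 7136) (nat_lit 5) (nat_lit 4))
    (@En.i (nat_lit 12331) (nat_lit 12) (nat_lit 10))
    (@En.n l18626 (nat_lit 9026) (nat_lit 7) (nat_lit 4))
    (@En.n l18627 (nat_lit 4159) (nat_lit 9) (nat_lit 10))
    (@En.n l3858 (nat_lit 6049) (nat_lit 10) (nat_lit 12))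
    (@En.n l11 (nat_lit 8986) (nat_lit 10) (nat_lit 2))
    (@En.n l18628 (nat_lit 8977) (nat_lit 12) (nat_lit 12))
    (@En.n l17040 (nat_lit 8988) (nat_lit 13) (nat_lit 14))
    (@En.n l5331 (nat_lit 8990) (nat_lit 14) (nat_lit 6))
    (@En.n l6081 (nat_lit 10239) (nat_lit 3) (nat_lit 6))
    (@En.n l3 (nat_lit 8986) (nat_lit 15) (nat_lit 2))))
  (@Cl.mk (nat_lit 0x20005000c000b0005000b0004000a0005000e00050002000b0006000e000b) (nat_lit 0x82020209008047) (nat_lit 16) Lb.e (@T16.mk En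
    (@En.n l15236 (nat_lit 8995) (nat_lit 12) (nat_lit 11))
    (@En.n l396 (nat_lit 8989) (nat_lit 1) (nat_lit 14))
    (@En.n l15237 (nat_lit 8988) (nat_lit 14) (nat_lit 6))
    (@En.i (nat_lit 9500) (nat_lit 3) (nat_lit 11))
    (@En.n l28 (nat_lit 8987) (nat_lit 4) (nat_lit 2))
    (@En.n l15238 (nat_lit 7649) (nat_lit 5) (nat_lit 5))
    (@En.n l15239 (nat_lit 8192) (nat_lit 7) (nat_lit 14))
    (@En.i (nat_lit 2463) (nat_lit 7) (nat_lit 5))
    (@En.n l15240 (nat_lit 8663) (nat_lit 9) (nat_lit 10))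
    (@En.n l15241 (nat_lit 6935) (nat_lit 9) (nat_lit 4))
    (@En.n l97 (nat_lit 12043) (nat_lit 11) (nat_lit 11))
    (@En.n l8368 (nat_lit 7467) (nat_lit 6) (nat_lit 5))
    (@En.n l15242 (nat_lit 2535) (nat_lit 13) (nat_lit 11))
    (@En.n l15243 (nat_lit 8986) (nat_lit 9) (nat_lit 12))
    (@En.n l15240 (nat_lit 8996) (nat_lit 9) (nat_lit 5))
    (@En.n l18 (nat_lit 8987) (nat_lit 15) (nat_lit 2))))
  (@Cl.mk (nat_lit 0x20006000e000b00020009000c000a0005000a0004000a00070006000e0006) (nat_lit 0x360472080200a0) (nat_lit 16) Lb.e (@T16.mk En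
    (@En.n l24450 (nat_lit 7651) (nat_lit 4) (nat_lit 6))
    (@En.n l15963 (nat_lit 8190) (nat_lit 1) (nat_lit 14))
    (@En.n l24451 (nat_lit 6787) (nat_lit 2) (nat_lit 6))
    (@En.n l24452 (nat_lit 8989) (nat_lit 7) (nat_lit 7))
    (@En.n l9060 (nat_lit 6421) (nat_lit 4) (nat_lit 10))
    (@En.i (nat_lit 6934) (nat_lit 5) (nat_lit 4))
    (@En.n l24451 (nat_lit 12363) (nat_lit 11) (nat_lit 10))
    (@En.n l24453 (nat_lit 7466) (nat_lit 7) (nat_lit 5))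
    (@En.i (nat_lit 1277) (nat_lit 9) (nat_lit 10))
    (@En.n l1776 (nat_lit 8990) (nat_lit 10) (nat_lit 12))
    (@En.n l24454 (nat_lit 8992) (nat_lit 11) (nat_lit 9))
    (@En.n l7 (nat_lit 8988) (nat_lit 11) (nat_lit 2))
    (@En.n l24455 (nat_lit 8991) (nat_lit 13) (nat_lit 11))
    (@En.n l24456 (nat_lit 3182) (nat_lit 1) (nat_lit 14))
    (@En.n l1776 (nat_lit 10019) (nat_lit 2) (nat_lit 6))
    (@En.n l107 (nat_lit 8988) (nat_lit 15) (nat_lit 2))))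
  (@Cl.mk (nat_lit 0x200090005000c000b0006000b000400070005000e00050002000b000e000a) (nat_lit 0x408302000a00736) (nat_lit 16) Lb.e (@T16.mk En
    (@En.n l28778 (nat_lit 8994) (nat_lit 13) (nat_lit 10))
    (@En.i (nat_lit 5043) (nat_lit 4) (nat_lit 14))
    (@En.n l14662 (nat_lit 9522) (nat_lit 2) (nat_lit 11))
    (@En.n l28 (nat_lit 8989) (nat_lit 3) (nat_lit 2))
    (@En.i (nat_lit 7650) (nat_lit 4) (nat_lit 5))
    (@En.n l28779 (nat_lit 8189) (nat_lit 1) (nat_lit 14))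
    (@En.i (nat_lit 2532) (nat_lit 2) (nat_lit 5))
    (@En.n l26415 (nat_lit 8274) (nat_lit 7) (nat_lit 7))
    (@En.n l28780 (nat_lit 6933) (nat_lit 8) (nat_lit 4))
    (@En.n l14662 (nat_lit 12362) (nat_lit 10) (nat_lit 11))
    (@En.n l1643 (nat_lit 7465) (nat_lit 6) (nat_lit 6))
    (@En.n l1867 (nat_lit 2534) (nat_lit 12) (nat_lit 11))
    (@En.n l28780 (nat_lit 8988) (nat_lit 9) (nat_lit 12))
    (@En.n l699 (nat_lit 8987) (nat_lit 14) (nat_lit 5))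
    (@En.n l10916 (nat_lit 8993) (nat_lit 11) (nat_lit 9))
    (@En.n l50 (nat_lit 8989) (nat_lit 15) (nat_lit 2))))
  (@Cl.mk (nat_lit 0x20006000e000c0002000c0009000400090004000e000a00020007000e0007) (nat_lit 0x35065030530080) (nat_lit 16) Lb.e (@T16.mk En
    (@En.n l9805 (nat_lit 8934) (nat_lit 13) (nat_lit 7))
    (@En.n l1578 (nat_lit 5817) (nat_lit 1) (nat_lit 14))
    (@En.n l9806 (nat_lit 9250) (nat_lit 2) (nat_lit 7))
    (@En.n l3 (nat_lit 8990) (nat_lit 3) (nat_lit 2))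
    (@En.n l649 (nat_lit 8986) (nat_lit 4) (nat_lit 10))
    (@En.n l6836 (nat_lit 3024) (nat_lit 1) (nat_lit 14))
    (@En.n l2364 (nat_lit 5384) (nat_lit 2) (nat_lit 4))
    (@En.n l9807 (nat_lit 12611) (nat_lit 3) (nat_lit 9))
    (@En.n l9808 (nat_lit 9032) (nat_lit 8) (nat_lit 4))
    (@En.n l698 (nat_lit 3670) (nat_lit 5) (nat_lit 9))
    (@En.n l9809 (nat_lit 6050) (nat_lit 11) (nat_lit 12))
    (@En.n l50 (nat_lit 8990) (nat_lit 11) (nat_lit 2))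
    (@En.n l564 (nat_lit 8939) (nat_lit 13) (nat_lit 12))
    (@En.n l2036 (nat_lit 5038) (nat_lit 10) (nat_lit 14))
    (@En.i (nat_lit 8852) (nat_lit 2) (nat_lit 6))
    (@En.n l28 (nat_lit 8990) (nat_lit 15) (nat_lit 2))))
  (@Cl.mk (nat_lit 0x20006000b000b0008000b000900050005000a0005000a00080007000e0006) (nat_lit 0x56364007023060) (nat_lit 16) Lb.e (@T16.mk En
    (@En.n l32750 (nat_lit 8224) (nat_lit 7) (nat_lit 6))
    (@En.n l32751 (nat_lit 8519) (nat_lit 1) (nat_lit 14))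
    (@En.i (nat_lit 3465) (nat_lit 2) (nat_lit 7))
    (@En.n l32752 (nat_lit 8994) (nat_lit 3) (nat_lit 8))
    (@En.n l32753 (nat_lit 7530) (nat_lit 4) (nat_lit 10))
    (@En.n l7191 (nat_lit 6939) (nat_lit 5) (nat_lit 5))
    (@En.i (nat_lit 10633) (nat_lit 7) (nat_lit 10))
    (@En.n l32754 (nat_lit 8988) (nat_lit 7) (nat_lit 5))
    (@En.n l32755 (nat_lit 7470) (nat_lit 8) (nat_lit 5))
    (@En.n l32756 (nat_lit 1280) (nat_lit 10) (nat_lit 9))
    (@En.n l3851 (nat_lit 8939) (nat_lit 11) (nat_lit 11))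
    (@En.n l32757 (nat_lit 9594) (nat_lit 12) (nat_lit 8))
    (@En.n l32758 (nat_lit 9265) (nat_lit 13) (nat_lit 11))
    (@En.n l14301 (nat_lit 9318) (nat_lit 14) (nat_lit 11))
    (@En.n l32759 (nat_lit 10018) (nat_lit 13) (nat_lit 6))
    (@En.n l50 (nat_lit 8991) (nat_lit 15) (nat_lit 2))))
noncomputable def a562 : T16 Cl := @T16.mk Cl
  (@Cl.mk (nat_lit 0x200070006000c0009000c000900040009000400090007000a0007000e0007) (nat_lit 0x6344000204070) (nat_lit 16) Lb.e (@T16.mk En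
    (@En.n l18624 (nat_lit 9591) (nat_lit 7) (nat_lit 7))
    (@En.n l39297 (nat_lit 11180) (nat_lit 1) (nat_lit 14))
    (@En.n l4356 (nat_lit 8991) (nat_lit 2) (nat_lit 7))
    (@En.i (nat_lit 8986) (nat_lit 3) (nat_lit 10))
    (@En.n l9569 (nat_lit 8993) (nat_lit 4) (nat_lit 7))
    (@En.n l3858 (nat_lit 7529) (nat_lit 5) (nat_lit 9))
    (@En.n l5538 (nat_lit 6558) (nat_lit 6) (nat_lit 4))
    (@En.n l4356 (nat_lit 11993) (nat_lit 0) (nat_lit 9))
    (@En.n l18626 (nat_lit 7469) (nat_lit 8) (nat_lit 4))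
    (@En.n l17040 (nat_lit 5079) (nat_lit 10) (nat_lit 9))
    (@En.n l5538 (nat_lit 8173) (nat_lit 11) (nat_lit 12))
    (@En.n l39298 (nat_lit 9592) (nat_lit 12) (nat_lit 9))
    (@En.n l22758 (nat_lit 9594) (nat_lit 13) (nat_lit 12))
    (@En.n l5337 (nat_lit 9912) (nat_lit 14) (nat_lit 6))
    (@En.n l6081 (nat_lit 4318) (nat_lit 5) (nat_lit 7))
    (@En.n l3 (nat_lit 8992) (nat_lit 15) (nat_lit 2))))
  (@Cl.mk (nat_lit 0x2000c0006000b00090004000c000a0005000a00040007000a0006000e0006) (nat_lit 0x607305200003030) (nat_lit 16) Lb.e (@T16.mk En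
    (@En.n l8306 (nat_lit 9586) (nat_lit 5) (nat_lit 6))
    (@En.n l11793 (nat_lit 10969) (nat_lit 1) (nat_lit 14))
    (@En.n l39030 (nat_lit 8994) (nat_lit 2) (nat_lit 6))
    (@En.n l671 (nat_lit 8987) (nat_lit 8) (nat_lit 10))
    (@En.n l39031 (nat_lit 8281) (nat_lit 4) (nat_lit 7))
    (@En.n l39032 (nat_lit 6644) (nat_lit 5) (nat_lit 4))
    (@En.i (nat_lit 11992) (nat_lit 0) (nat_lit 10))
    (@En.n l6131 (nat_lit 7468) (nat_lit 7) (nat_lit 5))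
    (@En.n l39030 (nat_lit 6815) (nat_lit 9) (nat_lit 10))
    (@En.n l29838 (nat_lit 8992) (nat_lit 10) (nat_lit 12))
    (@En.n l39033 (nat_lit 8997) (nat_lit 10) (nat_lit 4))
    (@En.n l39034 (nat_lit 9593) (nat_lit 12) (nat_lit 9))
    (@En.n l34402 (nat_lit 9595) (nat_lit 13) (nat_lit 11))
    (@En.i (nat_lit 9909) (nat_lit 14) (nat_lit 6))
    (@En.n l3523 (nat_lit 9695) (nat_lit 3) (nat_lit 12))
    (@En.n l28 (nat_lit 8993) (nat_lit 15) (nat_lit 2))))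
  (@Cl.mk (nat_lit 0x2000c000a000a00080004000b000a00060006000b000500080006000e0005) (nat_lit 0x956307200902050) (nat_lit 16) Lb.e (@T16.mk En
    (@En.n l29892 (nat_lit 8223) (nat_lit 5) (nat_lit 5))
    (@En.n l16325 (nat_lit 8517) (nat_lit 1) (nat_lit 14))
    (@En.n l38998 (nat_lit 2435) (nat_lit 2) (nat_lit 6))
    (@En.n l38999 (nat_lit 8271) (nat_lit 10) (nat_lit 8))
    (@En.i (nat_lit 2025) (nat_lit 4) (nat_lit 5))
    (@En.n l28349 (nat_lit 10632) (nat_lit 6) (nat_lit 11))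
    (@En.n l39000 (nat_lit 8989) (nat_lit 10) (nat_lit 6))
    (@En.n l39001 (nat_lit 7471) (nat_lit 7) (nat_lit 6))
    (@En.i (nat_lit 6712) (nat_lit 9) (nat_lit 10))
    (@En.n l39002 (nat_lit 8991) (nat_lit 10) (nat_lit 11))
    (@En.n l20367 (nat_lit 8995) (nat_lit 10) (nat_lit 4))
    (@En.n l16766 (nat_lit 9595) (nat_lit 12) (nat_lit 8))
    (@En.n l15408 (nat_lit 9264) (nat_lit 6) (nat_lit 10))
    (@En.n l29889 (nat_lit 9418) (nat_lit 14) (nat_lit 10))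
    (@En.n l38990 (nat_lit 9024) (nat_lit 3) (nat_lit 12))
    (@En.n l17 (nat_lit 8994) (nat_lit 15) (nat_lit 2))))
  (@Cl.mk (nat_lit 0x2000c0006000b000b0004000b000a00050005000b0005000a0006000e0005) (nat_lit 0x906706200401050) (nat_lit 16) Lb.e (@T16.mk En
    (@En.n l7948 (nat_lit 8226) (nat_lit 5) (nat_lit 5))
    (@En.n l29818 (nat_lit 8518) (nat_lit 1) (nat_lit 14))
    (@En.n l29819 (nat_lit 2052) (nat_lit 2) (nat_lit 6))
    (@En.n l29820 (nat_lit 7537) (nat_lit 3) (nat_lit 10))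
    (@En.n l15223 (nat_lit 6938) (nat_lit 4) (nat_lit 5))
    (@En.n l29821 (nat_lit 10153) (nat_lit 6) (nat_lit 11))
    (@En.n l29822 (nat_lit 8987) (nat_lit 11) (nat_lit 5))
    (@En.n l29823 (nat_lit 9460) (nat_lit 7) (nat_lit 5))
    (@En.n l15223 (nat_lit 6702) (nat_lit 9) (nat_lit 10))
    (@En.n l29824 (nat_lit 8977) (nat_lit 10) (nat_lit 11))
    (@En.n l29825 (nat_lit 9382) (nat_lit 10) (nat_lit 4))
    (@En.n l61 (nat_lit 9266) (nat_lit 5) (nat_lit 11))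
    (@En.n l15223 (nat_lit 9659) (nat_lit 13) (nat_lit 11))
    (@En.n l29826 (nat_lit 8991) (nat_lit 14) (nat_lit 6))
    (@En.n l29827 (nat_lit 9491) (nat_lit 3) (nat_lit 12))
    (@En.n l28 (nat_lit 8995) (nat_lit 15) (nat_lit 2))))
  (@Cl.mk (nat_lit 0x2000b000e00070002000c0005000c000b0004000b000400090005000e0005) (nat_lit 0x640040630802050) (nat_lit 16) Lb.e (@T16.mk En
    (@En.n l28 (nat_lit 9380) (nat_lit 4) (nat_lit 5))
    (@En.n l11219 (nat_lit 8065) (nat_lit 1) (nat_lit 14))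
    (@En.n l29866 (nat_lit 2516) (nat_lit 6) (nat_lit 5))
    (@En.i (nat_lit 8661) (nat_lit 3) (nat_lit 9))
    (@En.n l1162 (nat_lit 6839) (nat_lit 8) (nat_lit 4))
    (@En.n l2584 (nat_lit 12236) (nat_lit 10) (nat_lit 11))
    (@En.n l539 (nat_lit 9307) (nat_lit 6) (nat_lit 4))
    (@En.n l157 (nat_lit 6614) (nat_lit 8) (nat_lit 11))
    (@En.n l29867 (nat_lit 6033) (nat_lit 9) (nat_lit 12))
    (@En.n l9269 (nat_lit 9376) (nat_lit 14) (nat_lit 5))
    (@En.n l29868 (nat_lit 9382) (nat_lit 11) (nat_lit 12))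
    (@En.n l18 (nat_lit 8996) (nat_lit 11) (nat_lit 2))
    (@En.n l29869 (nat_lit 8997) (nat_lit 13) (nat_lit 7))
    (@En.i (nat_lit 8985) (nat_lit 4) (nat_lit 14))
    (@En.n l11219 (nat_lit 8381) (nat_lit 2) (nat_lit 11))
    (@En.n l7 (nat_lit 8996) (nat_lit 15) (nat_lit 2))))
  (@Cl.mk (nat_lit 0x2000c00070007000c0004000c000a0004000a0004000900090006000e0006) (nat_lit 0x9002063070730a0) (nat_lit 16) Lb.e (@T16.mk En
    (@En.n l7948 (nat_lit 9387) (nat_lit 8) (nat_lit 6))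
    (@En.n l2125 (nat_lit 11549) (nat_lit 1) (nat_lit 14))
    (@En.n l17 (nat_lit 8995) (nat_lit 2) (nat_lit 6))
    (@En.n l34882 (nat_lit 8996) (nat_lit 3) (nat_lit 9))
    (@En.n l3922 (nat_lit 10260) (nat_lit 4) (nat_lit 9))
    (@En.n l34883 (nat_lit 6898) (nat_lit 5) (nat_lit 4))
    (@En.n l34884 (nat_lit 10929) (nat_lit 0) (nat_lit 10))
    (@En.n l34885 (nat_lit 9308) (nat_lit 7) (nat_lit 4))
    (@En.i (nat_lit 6699) (nat_lit 9) (nat_lit 10))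
    (@En.n l34886 (nat_lit 6036) (nat_lit 10) (nat_lit 12))
    (@En.n l34884 (nat_lit 9377) (nat_lit 10) (nat_lit 4))
    (@En.i (nat_lit 9596) (nat_lit 12) (nat_lit 12))
    (@En.n l7646 (nat_lit 6724) (nat_lit 9) (nat_lit 7))
    (@En.n l28166 (nat_lit 8992) (nat_lit 14) (nat_lit 7))
    (@En.n l34887 (nat_lit 8389) (nat_lit 3) (nat_lit 12))
    (@En.n l28 (nat_lit 8997) (nat_lit 15) (nat_lit 2))))
  (@Cl.mk (nat_lit 0x20008000e000c0002000b00070004000c00080005000e00040002000e0009) (nat_lit 0x4630600330600b7) (nat_lit 16) Lb.e (@T16.mk En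
    (@En.n l1038 (nat_lit 8941) (nat_lit 14) (nat_lit 9))
    (@En.n l564 (nat_lit 12299) (nat_lit 1) (nat_lit 14))
    (@En.n l7 (nat_lit 8998) (nat_lit 2) (nat_lit 2))
    (@En.n l28 (nat_lit 8938) (nat_lit 3) (nat_lit 4))
    (@En.n l8521 (nat_lit 4128) (nat_lit 9) (nat_lit 14))
    (@En.n l238 (nat_lit 4164) (nat_lit 9) (nat_lit 5))
    (@En.n l1529 (nat_lit 9222) (nat_lit 6) (nat_lit 8))
    (@En.n l1038 (nat_lit 11014) (nat_lit 8) (nat_lit 12))
    (@En.n l916 (nat_lit 7342) (nat_lit 8) (nat_lit 4))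
    (@En.i (nat_lit 4079) (nat_lit 14) (nat_lit 7))
    (@En.n l157 (nat_lit 9293) (nat_lit 11) (nat_lit 11))
    (@En.n l3 (nat_lit 8998) (nat_lit 11) (nat_lit 2))
    (@En.i (nat_lit 8970) (nat_lit 13) (nat_lit 12))
    (@En.n l1038 (nat_lit 2035) (nat_lit 1) (nat_lit 14))
    (@En.n l8522 (nat_lit 8944) (nat_lit 12) (nat_lit 8))
    (@En.n l18 (nat_lit 8998) (nat_lit 15) (nat_lit 2))))
  (@Cl.mk (nat_lit 0x20006000e000c0002000c00070004000c0004000d000a00040003000e0009) (nat_lit 0x250600201400b5) (nat_lit 16) Lb.e (@T16.mk En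
    (@En.i (nat_lit 9005) (nat_lit 4) (nat_lit 9))
    (@En.n l3621 (nat_lit 12393) (nat_lit 1) (nat_lit 14))
    (@En.n l18 (nat_lit 9000) (nat_lit 2) (nat_lit 3))
    (@En.n l2243 (nat_lit 8998) (nat_lit 3) (nat_lit 4))
    (@En.n l61 (nat_lit 9002) (nat_lit 4) (nat_lit 10))
    (@En.i (nat_lit 4127) (nat_lit 6) (nat_lit 13))
    (@En.n l2243 (nat_lit 7157) (nat_lit 6) (nat_lit 4))
    (@En.i (nat_lit 6724) (nat_lit 8) (nat_lit 12))
    (@En.i (nat_lit 8490) (nat_lit 8) (nat_lit 4))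
    (@En.n l2243 (nat_lit 6084) (nat_lit 14) (nat_lit 7))
    (@En.n l2228 (nat_lit 8448) (nat_lit 11) (nat_lit 12))
    (@En.n l11 (nat_lit 8999) (nat_lit 11) (nat_lit 2))
    (@En.n l55 (nat_lit 8084) (nat_lit 13) (nat_lit 12))
    (@En.n l2351 (nat_lit 3949) (nat_lit 1) (nat_lit 14))
    (@En.i (nat_lit 9742) (nat_lit 2) (nat_lit 6))
    (@En.n l3 (nat_lit 8999) (nat_lit 15) (nat_lit 2))))
  (@Cl.mk (nat_lit 0x20005000e000c0002000c00070004000d0004000d0003000b0003000e0009) (nat_lit 0x230600a02060b5) (nat_lit 16) Lb.e (@T16.mk En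
    (@En.i (nat_lit 9004) (nat_lit 4) (nat_lit 9))
    (@En.i (nat_lit 9002) (nat_lit 1) (nat_lit 14))
    (@En.i (nat_lit 8999) (nat_lit 2) (nat_lit 3))
    (@En.i (nat_lit 3358) (nat_lit 3) (nat_lit 11))
    (@En.i (nat_lit 9001) (nat_lit 4) (nat_lit 3))
    (@En.i (nat_lit 4132) (nat_lit 6) (nat_lit 13))
    (@En.i (nat_lit 7156) (nat_lit 6) (nat_lit 4))
    (@En.i (nat_lit 6719) (nat_lit 8) (nat_lit 13))
    (@En.i (nat_lit 8486) (nat_lit 8) (nat_lit 4))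
    (@En.i (nat_lit 6078) (nat_lit 14) (nat_lit 7))
    (@En.n l2228 (nat_lit 8447) (nat_lit 11) (nat_lit 12))
    (@En.n l11 (nat_lit 9000) (nat_lit 11) (nat_lit 2))
    (@En.n l55 (nat_lit 8082) (nat_lit 13) (nat_lit 12))
    (@En.i (nat_lit 3948) (nat_lit 1) (nat_lit 14))
    (@En.i (nat_lit 8564) (nat_lit 13) (nat_lit 5))
    (@En.n l3 (nat_lit 9000) (nat_lit 15) (nat_lit 2))))
  (@Cl.mk (nat_lit 0x20005000e000c0002000b00070004000d000c00050003000b0004000e0009) (nat_lit 0x250600b30020a2) (nat_lit 16) Lb.e (@T16.mk En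
    (@En.i (nat_lit 9006) (nat_lit 4) (nat_lit 9))
    (@En.n l3621 (nat_lit 9003) (nat_lit 1) (nat_lit 14))
    (@En.n l3622 (nat_lit 8938) (nat_lit 2) (nat_lit 4))
    (@En.n l3623 (nat_lit 7745) (nat_lit 3) (nat_lit 11))
    (@En.n l50 (nat_lit 9000) (nat_lit 4) (nat_lit 3))
    (@En.n l2243 (nat_lit 1610) (nat_lit 5) (nat_lit 5))
    (@En.n l217 (nat_lit 8999) (nat_lit 7) (nat_lit 12))
    (@En.i (nat_lit 5005) (nat_lit 8) (nat_lit 13))
    (@En.i (nat_lit 8338) (nat_lit 8) (nat_lit 4))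
    (@En.n l2243 (nat_lit 6332) (nat_lit 14) (nat_lit 7))
    (@En.n l2228 (nat_lit 8467) (nat_lit 11) (nat_lit 11))
    (@En.n l11 (nat_lit 9001) (nat_lit 11) (nat_lit 2))
    (@En.n l55 (nat_lit 8086) (nat_lit 13) (nat_lit 12))
    (@En.i (nat_lit 3947) (nat_lit 1) (nat_lit 14))
    (@En.i (nat_lit 8565) (nat_lit 13) (nat_lit 5))
    (@En.n l3 (nat_lit 9001) (nat_lit 15) (nat_lit 2))))
  (@Cl.mk (nat_lit 0x200060005000e000c0002000c00080004000d0004000a0003000b000e0008) (nat_lit 0x24061030306a4) (nat_lit 16) Lb.e (@T16.mk En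
    (@En.n l17801 (nat_lit 9007) (nat_lit 5) (nat_lit 8))
    (@En.n l3621 (nat_lit 12391) (nat_lit 7) (nat_lit 14))
    (@En.i (nat_lit 2523) (nat_lit 2) (nat_lit 11))
    (@En.n l3621 (nat_lit 9003) (nat_lit 3) (nat_lit 3))
    (@En.i (nat_lit 12376) (nat_lit 10) (nat_lit 10))
    (@En.n l3621 (nat_lit 7155) (nat_lit 5) (nat_lit 4))
    (@En.i (nat_lit 6717) (nat_lit 7) (nat_lit 13))
    (@En.i (nat_lit 8484) (nat_lit 7) (nat_lit 4))
    (@En.n l9212 (nat_lit 6074) (nat_lit 14) (nat_lit 8))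
    (@En.n l3954 (nat_lit 8449) (nat_lit 10) (nat_lit 12))
    (@En.n l11 (nat_lit 9002) (nat_lit 10) (nat_lit 2))
    (@En.n l55 (nat_lit 8083) (nat_lit 12) (nat_lit 12))
    (@En.i (nat_lit 9889) (nat_lit 13) (nat_lit 14))
    (@En.n l17 (nat_lit 9000) (nat_lit 14) (nat_lit 5))
    (@En.i (nat_lit 8537) (nat_lit 3) (nat_lit 6))
    (@En.n l3 (nat_lit 9002) (nat_lit 15) (nat_lit 2))))
  (@Cl.mk (nat_lit 0x200070005000e000c0002000b00080004000d000900050003000b000e0008) (nat_lit 0x3406102200696) (nat_lit 16) Lb.e (@T16.mk En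
    (@En.n l8519 (nat_lit 9008) (nat_lit 5) (nat_lit 8))
    (@En.i (nat_lit 12387) (nat_lit 7) (nat_lit 14))
    (@En.n l1599 (nat_lit 7743) (nat_lit 2) (nat_lit 11))
    (@En.n l8517 (nat_lit 9002) (nat_lit 3) (nat_lit 3))
    (@En.n l1393 (nat_lit 1611) (nat_lit 4) (nat_lit 5))
    (@En.n l4316 (nat_lit 9223) (nat_lit 5) (nat_lit 9))
    (@En.n l2568 (nat_lit 6716) (nat_lit 7) (nat_lit 13))
    (@En.n l4155 (nat_lit 8334) (nat_lit 7) (nat_lit 4))
    (@En.i (nat_lit 6328) (nat_lit 14) (nat_lit 8))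
    (@En.n l170 (nat_lit 2627) (nat_lit 10) (nat_lit 11))
    (@En.n l3 (nat_lit 9003) (nat_lit 10) (nat_lit 2))
    (@En.i (nat_lit 9012) (nat_lit 12) (nat_lit 12))
    (@En.i (nat_lit 9888) (nat_lit 13) (nat_lit 14))
    (@En.n l8520 (nat_lit 9001) (nat_lit 14) (nat_lit 5))
    (@En.n l4155 (nat_lit 8770) (nat_lit 3) (nat_lit 7))
    (@En.n l50 (nat_lit 9003) (nat_lit 15) (nat_lit 2))))
  (@Cl.mk (nat_lit 0x2000b000700070005000d0005000d0003000c0003000900090004000e000b) (nat_lit 0x6000a02050460c2) (nat_lit 16) Lb.e (@T16.mk En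
    (@En.n l833 (nat_lit 9009) (nat_lit 11) (nat_lit 11))
    (@En.n l10966 (nat_lit 3956) (nat_lit 1) (nat_lit 14))
    (@En.i (nat_lit 8568) (nat_lit 2) (nat_lit 4))
    (@En.n l9820 (nat_lit 9029) (nat_lit 7) (nat_lit 9))
    (@En.n l6894 (nat_lit 10104) (nat_lit 4) (nat_lit 9))
    (@En.i (nat_lit 9005) (nat_lit 5) (nat_lit 3))
    (@En.i (nat_lit 3351) (nat_lit 0) (nat_lit 12))
    (@En.i (nat_lit 9006) (nat_lit 7) (nat_lit 3))
    (@En.n l2435 (nat_lit 4136) (nat_lit 9) (nat_lit 13))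
    (@En.i (nat_lit 7158) (nat_lit 9) (nat_lit 5))
    (@En.n l8844 (nat_lit 6591) (nat_lit 11) (nat_lit 13))
    (@En.n l833 (nat_lit 4332) (nat_lit 5) (nat_lit 5))
    (@En.n l152 (nat_lit 9000) (nat_lit 9) (nat_lit 7))
    (@En.n l13305 (nat_lit 10524) (nat_lit 14) (nat_lit 7))
    (@En.n l9825 (nat_lit 8364) (nat_lit 9) (nat_lit 11))
    (@En.n l11 (nat_lit 9004) (nat_lit 15) (nat_lit 2))))
  (@Cl.mk (nat_lit 0x2000b000700070005000c0005000d000b00040003000900090005000e000b) (nat_lit 0x6000301200430c2) (nat_lit 16) Lb.e (@T16.mk En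
    (@En.n l833 (nat_lit 8981) (nat_lit 11) (nat_lit 11))
    (@En.n l2351 (nat_lit 3957) (nat_lit 1) (nat_lit 14))
    (@En.i (nat_lit 11042) (nat_lit 2) (nat_lit 5))
    (@En.n l9820 (nat_lit 9030) (nat_lit 7) (nat_lit 9))
    (@En.n l20094 (nat_lit 11584) (nat_lit 4) (nat_lit 9))
    (@En.n l18 (nat_lit 9004) (nat_lit 5) (nat_lit 3))
    (@En.n l2351 (nat_lit 8941) (nat_lit 0) (nat_lit 4))
    (@En.n l8844 (nat_lit 9007) (nat_lit 8) (nat_lit 11))
    (@En.n l2435 (nat_lit 4134) (nat_lit 9) (nat_lit 13))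
    (@En.n l2243 (nat_lit 7161) (nat_lit 9) (nat_lit 5))
    (@En.n l8844 (nat_lit 8997) (nat_lit 11) (nat_lit 12))
    (@En.n l833 (nat_lit 9139) (nat_lit 5) (nat_lit 5))
    (@En.n l152 (nat_lit 8999) (nat_lit 9) (nat_lit 7))
    (@En.n l13305 (nat_lit 10525) (nat_lit 14) (nat_lit 7))
    (@En.n l9825 (nat_lit 8365) (nat_lit 9) (nat_lit 11))
    (@En.n l11 (nat_lit 9005) (nat_lit 15) (nat_lit 2))))
  (@Cl.mk (nat_lit 0x2000a000700070005000d000c00060003000c0004000900090004000e000b) (nat_lit 0x6000b40070170c2) (nat_lit 16) Lb.e (@T16.mk En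
    (@En.n l833 (nat_lit 9010) (nat_lit 9) (nat_lit 11))
    (@En.n l339 (nat_lit 3955) (nat_lit 1) (nat_lit 14))
    (@En.n l9819 (nat_lit 8567) (nat_lit 2) (nat_lit 4))
    (@En.n l9820 (nat_lit 9032) (nat_lit 7) (nat_lit 9))
    (@En.n l9821 (nat_lit 7821) (nat_lit 4) (nat_lit 9))
    (@En.n l3622 (nat_lit 8935) (nat_lit 5) (nat_lit 4))
    (@En.n l9822 (nat_lit 7752) (nat_lit 7) (nat_lit 12))
    (@En.n l50 (nat_lit 9004) (nat_lit 7) (nat_lit 3))
    (@En.n l9823 (nat_lit 1609) (nat_lit 8) (nat_lit 6))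
    (@En.n l217 (nat_lit 9005) (nat_lit 10) (nat_lit 12))
    (@En.n l2240 (nat_lit 6594) (nat_lit 11) (nat_lit 13))
    (@En.n l9824 (nat_lit 9138) (nat_lit 12) (nat_lit 5))
    (@En.n l152 (nat_lit 9001) (nat_lit 9) (nat_lit 7))
    (@En.n l2240 (nat_lit 8876) (nat_lit 14) (nat_lit 7))
    (@En.n l9825 (nat_lit 8420) (nat_lit 12) (nat_lit 10))
    (@En.n l11 (nat_lit 9006) (nat_lit 15) (nat_lit 2))))
  (@Cl.mk (nat_lit 0x2000b000800080005000d0005000b0003000c0008000800050004000e000b) (nat_lit 0x7020301073500c5) (nat_lit 16) Lb.e (@T16.mk En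
    (@En.n l9715 (nat_lit 9011) (nat_lit 9) (nat_lit 11))
    (@En.n l32771 (nat_lit 8180) (nat_lit 1) (nat_lit 14))
    (@En.n l8656 (nat_lit 9004) (nat_lit 2) (nat_lit 4))
    (@En.n l32772 (nat_lit 11888) (nat_lit 3) (nat_lit 5))
    (@En.n l9878 (nat_lit 9031) (nat_lit 8) (nat_lit 8))
    (@En.n l32773 (nat_lit 11578) (nat_lit 5) (nat_lit 8))
    (@En.n l32774 (nat_lit 2526) (nat_lit 7) (nat_lit 12))
    (@En.n l9875 (nat_lit 9008) (nat_lit 7) (nat_lit 3))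
    (@En.n l26697 (nat_lit 5784) (nat_lit 9) (nat_lit 11))
    (@En.n l32775 (nat_lit 7159) (nat_lit 9) (nat_lit 5))
    (@En.i (nat_lit 6699) (nat_lit 11) (nat_lit 13))
    (@En.n l9715 (nat_lit 10294) (nat_lit 3) (nat_lit 5))
    (@En.n l14223 (nat_lit 9002) (nat_lit 8) (nat_lit 8))
    (@En.n l28166 (nat_lit 10529) (nat_lit 14) (nat_lit 8))
    (@En.i (nat_lit 8480) (nat_lit 12) (nat_lit 11))
    (@En.n l28 (nat_lit 9007) (nat_lit 15) (nat_lit 2))))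
noncomputable def a563 : T16 Cl := @T16.mk Cl
  (@Cl.mk (nat_lit 0x2000a000800080005000d000a00060003000c0008000800060004000e000b) (nat_lit 0x4020320075400c5) (nat_lit 16) Lb.e (@T16.mk En
    (@En.n l8628 (nat_lit 9013) (nat_lit 9) (nat_lit 11))
    (@En.n l20095 (nat_lit 8179) (nat_lit 1) (nat_lit 14))
    (@En.n l20096 (nat_lit 9006) (nat_lit 2) (nat_lit 4))
    (@En.n l20097 (nat_lit 8765) (nat_lit 3) (nat_lit 6))
    (@En.n l55 (nat_lit 9033) (nat_lit 8) (nat_lit 8))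
    (@En.n l20098 (nat_lit 11577) (nat_lit 5) (nat_lit 8))
    (@En.n l20099 (nat_lit 7748) (nat_lit 7) (nat_lit 12))
    (@En.n l20100 (nat_lit 9007) (nat_lit 7) (nat_lit 3))
    (@En.n l10872 (nat_lit 1507) (nat_lit 8) (nat_lit 6))
    (@En.n l20097 (nat_lit 9224) (nat_lit 10) (nat_lit 10))
    (@En.n l7477 (nat_lit 6682) (nat_lit 11) (nat_lit 13))
    (@En.n l20101 (nat_lit 10293) (nat_lit 12) (nat_lit 5))
    (@En.n l20102 (nat_lit 9003) (nat_lit 8) (nat_lit 8))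
    (@En.n l20103 (nat_lit 12736) (nat_lit 14) (nat_lit 8))
    (@En.i (nat_lit 8399) (nat_lit 12) (nat_lit 10))
    (@En.n l3 (nat_lit 9008) (nat_lit 15) (nat_lit 2))))
  (@Cl.mk (nat_lit 0x3000a000a0004000b000b000a0006000600050005000d0006000d0003000c) (nat_lit 0x8501930000a0a06) (nat_lit 16) Lb.e (@T16.mk En
    (@En.i (nat_lit 3352) (nat_lit 0) (nat_lit 12))
    (@En.i (nat_lit 9010) (nat_lit 15) (nat_lit 3))
    (@En.n l7892 (nat_lit 4137) (nat_lit 0) (nat_lit 13))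
    (@En.i (nat_lit 6039) (nat_lit 3) (nat_lit 6))
    (@En.i (nat_lit 9495) (nat_lit 2) (nat_lit 13))
    (@En.n l7893 (nat_lit 9004) (nat_lit 11) (nat_lit 5))
    (@En.i (nat_lit 10174) (nat_lit 6) (nat_lit 5))
    (@En.n l3532 (nat_lit 8082) (nat_lit 10) (nat_lit 6))
    (@En.n l7894 (nat_lit 6404) (nat_lit 8) (nat_lit 6))
    (@En.n l7895 (nat_lit 8487) (nat_lit 10) (nat_lit 10))
    (@En.n l7896 (nat_lit 9041) (nat_lit 5) (nat_lit 11))
    (@En.n l23016 (nat_lit 4431) (nat_lit 10) (nat_lit 11))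
    (@En.n l7899 (nat_lit 8572) (nat_lit 10) (nat_lit 4))
    (@En.n l2717 (nat_lit 9027) (nat_lit 6) (nat_lit 10))
    (@En.i (nat_lit 9049) (nat_lit 1) (nat_lit 10))
    (@En.i (nat_lit 8981) (nat_lit 15) (nat_lit 3))))
  (@Cl.mk (nat_lit 0x3000c0004000a000a0004000b000b00090006000600050005000d000c0007) (nat_lit 0x808201430000b60) (nat_lit 16) Lb.e (@T16.mk En
    (@En.n l18669 (nat_lit 1533) (nat_lit 0) (nat_lit 7))
    (@En.n l77 (nat_lit 8981) (nat_lit 4) (nat_lit 12))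
    (@En.n l19656 (nat_lit 9492) (nat_lit 2) (nat_lit 13))
    (@En.n l7893 (nat_lit 9006) (nat_lit 11) (nat_lit 5))
    (@En.i (nat_lit 10175) (nat_lit 4) (nat_lit 5))
    (@En.n l3532 (nat_lit 8086) (nat_lit 10) (nat_lit 6))
    (@En.n l19657 (nat_lit 8875) (nat_lit 6) (nat_lit 6))
    (@En.n l7895 (nat_lit 8350) (nat_lit 7) (nat_lit 9))
    (@En.n l19658 (nat_lit 9040) (nat_lit 5) (nat_lit 11))
    (@En.n l19657 (nat_lit 4433) (nat_lit 10) (nat_lit 11))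
    (@En.n l7899 (nat_lit 8570) (nat_lit 10) (nat_lit 4))
    (@En.n l2717 (nat_lit 9026) (nat_lit 6) (nat_lit 10))
    (@En.n l11469 (nat_lit 9050) (nat_lit 1) (nat_lit 10))
    (@En.n l19659 (nat_lit 8940) (nat_lit 14) (nat_lit 4))
    (@En.n l601 (nat_lit 7751) (nat_lit 0) (nat_lit 12))
    (@En.n l28 (nat_lit 9009) (nat_lit 1) (nat_lit 3))))
  (@Cl.mk (nat_lit 0x3000c0009000900050004000b000b000a0007000700050005000d0006000b) (nat_lit 0x775004560000504) (nat_lit 16) Lb.e (@T16.mk En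
    (@En.n l40016 (nat_lit 12381) (nat_lit 0) (nat_lit 11))
    (@En.i (nat_lit 6042) (nat_lit 6) (nat_lit 6))
    (@En.i (nat_lit 9895) (nat_lit 2) (nat_lit 13))
    (@En.n l30102 (nat_lit 9007) (nat_lit 11) (nat_lit 5))
    (@En.i (nat_lit 10176) (nat_lit 4) (nat_lit 5))
    (@En.n l8641 (nat_lit 8083) (nat_lit 9) (nat_lit 7))
    (@En.n l40017 (nat_lit 10533) (nat_lit 6) (nat_lit 7))
    (@En.n l32079 (nat_lit 8481) (nat_lit 6) (nat_lit 10))
    (@En.n l7896 (nat_lit 9042) (nat_lit 5) (nat_lit 11))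
    (@En.n l40018 (nat_lit 9883) (nat_lit 10) (nat_lit 11))
    (@En.n l50 (nat_lit 9009) (nat_lit 12) (nat_lit 4))
    (@En.n l15339 (nat_lit 11887) (nat_lit 0) (nat_lit 5))
    (@En.n l2717 (nat_lit 9028) (nat_lit 7) (nat_lit 9))
    (@En.n l25856 (nat_lit 11581) (nat_lit 14) (nat_lit 9))
    (@En.i (nat_lit 2527) (nat_lit 2) (nat_lit 12))
    (@En.i (nat_lit 9013) (nat_lit 15) (nat_lit 3))))
  (@Cl.mk (nat_lit 0x200070005000c000c000a000700040004000d000900060003000b000e0009) (nat_lit 0x3660003300766) (nat_lit 16) Lb.e (@T16.mk En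
    (@En.n l13478 (nat_lit 9013) (nat_lit 13) (nat_lit 9))
    (@En.i (nat_lit 12390) (nat_lit 4) (nat_lit 14))
    (@En.n l890 (nat_lit 7740) (nat_lit 2) (nat_lit 11))
    (@En.n l13479 (nat_lit 8083) (nat_lit 3) (nat_lit 3))
    (@En.n l2438 (nat_lit 1676) (nat_lit 4) (nat_lit 6))
    (@En.n l4316 (nat_lit 9097) (nat_lit 5) (nat_lit 9))
    (@En.n l4108 (nat_lit 9526) (nat_lit 7) (nat_lit 13))
    (@En.n l152 (nat_lit 9003) (nat_lit 7) (nat_lit 4))
    (@En.n l8498 (nat_lit 8332) (nat_lit 8) (nat_lit 4))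
    (@En.i (nat_lit 6326) (nat_lit 0) (nat_lit 7))
    (@En.n l13480 (nat_lit 8478) (nat_lit 11) (nat_lit 10))
    (@En.n l13481 (nat_lit 8087) (nat_lit 12) (nat_lit 12))
    (@En.n l13482 (nat_lit 9880) (nat_lit 13) (nat_lit 12))
    (@En.n l8499 (nat_lit 8086) (nat_lit 14) (nat_lit 5))
    (@En.n l8498 (nat_lit 8769) (nat_lit 5) (nat_lit 7))
    (@En.n l50 (nat_lit 9012) (nat_lit 15) (nat_lit 2))))
  (@Cl.mk (nat_lit 0x3000c0009000900060004000b000b00090007000700050005000d000a0007) (nat_lit 0x856004440000450) (nat_lit 16) Lb.e (@T16.mk En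
    (@En.n l25850 (nat_lit 1506) (nat_lit 0) (nat_lit 7))
    (@En.n l25851 (nat_lit 8964) (nat_lit 13) (nat_lit 10))
    (@En.n l25852 (nat_lit 9019) (nat_lit 2) (nat_lit 13))
    (@En.n l20271 (nat_lit 9008) (nat_lit 11) (nat_lit 5))
    (@En.i (nat_lit 10178) (nat_lit 4) (nat_lit 5))
    (@En.n l25853 (nat_lit 9012) (nat_lit 9) (nat_lit 7))
    (@En.n l25807 (nat_lit 9290) (nat_lit 6) (nat_lit 7))
    (@En.n l20832 (nat_lit 8577) (nat_lit 7) (nat_lit 9))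
    (@En.n l25854 (nat_lit 9014) (nat_lit 5) (nat_lit 11))
    (@En.n l25855 (nat_lit 7190) (nat_lit 10) (nat_lit 11))
    (@En.n l50 (nat_lit 9010) (nat_lit 10) (nat_lit 4))
    (@En.n l25851 (nat_lit 8768) (nat_lit 0) (nat_lit 6))
    (@En.n l2717 (nat_lit 9015) (nat_lit 7) (nat_lit 9))
    (@En.n l25856 (nat_lit 11582) (nat_lit 14) (nat_lit 9))
    (@En.n l25857 (nat_lit 7744) (nat_lit 3) (nat_lit 12))
    (@En.n l28 (nat_lit 9011) (nat_lit 15) (nat_lit 3))))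
  (@Cl.mk (nat_lit 0x2000d000a00080003000c000a000a00060004000b000800060006000e0005) (nat_lit 0x645078000330080) (nat_lit 16) Lb.e (@T16.mk En
    (@En.n l12186 (nat_lit 9013) (nat_lit 4) (nat_lit 5))
    (@En.n l3955 (nat_lit 10217) (nat_lit 1) (nat_lit 14))
    (@En.n l12187 (nat_lit 8087) (nat_lit 10) (nat_lit 6))
    (@En.i (nat_lit 9287) (nat_lit 3) (nat_lit 6))
    (@En.n l5523 (nat_lit 7523) (nat_lit 4) (nat_lit 8))
    (@En.n l2738 (nat_lit 10013) (nat_lit 10) (nat_lit 11))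
    (@En.i (nat_lit 9040) (nat_lit 6) (nat_lit 4))
    (@En.n l12188 (nat_lit 9280) (nat_lit 7) (nat_lit 6))
    (@En.n l10898 (nat_lit 9016) (nat_lit 9) (nat_lit 10))
    (@En.n l12189 (nat_lit 9053) (nat_lit 10) (nat_lit 10))
    (@En.n l152 (nat_lit 7837) (nat_lit 11) (nat_lit 12))
    (@En.n l12190 (nat_lit 9042) (nat_lit 11) (nat_lit 3))
    (@En.n l12152 (nat_lit 1677) (nat_lit 0) (nat_lit 8))
    (@En.n l12191 (nat_lit 8961) (nat_lit 14) (nat_lit 10))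
    (@En.n l12192 (nat_lit 9017) (nat_lit 2) (nat_lit 13))
    (@En.n l18 (nat_lit 9014) (nat_lit 15) (nat_lit 2))))
  (@Cl.mk (nat_lit 0x200060006000d000b00080003000d000900050003000a000a0008000e0007) (nat_lit 0x5440950032340) (nat_lit 16) Lb.e (@T16.mk En
    (@En.n l2947 (nat_lit 9013) (nat_lit 6) (nat_lit 7))
    (@En.n l3548 (nat_lit 12492) (nat_lit 1) (nat_lit 14))
    (@En.n l9731 (nat_lit 8348) (nat_lit 2) (nat_lit 8))
    (@En.n l3 (nat_lit 9016) (nat_lit 6) (nat_lit 10))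
    (@En.n l11320 (nat_lit 9904) (nat_lit 4) (nat_lit 10))
    (@En.n l50 (nat_lit 9026) (nat_lit 5) (nat_lit 3))
    (@En.n l24199 (nat_lit 5070) (nat_lit 6) (nat_lit 5))
    (@En.n l11320 (nat_lit 9039) (nat_lit 8) (nat_lit 9))
    (@En.n l24311 (nat_lit 6052) (nat_lit 9) (nat_lit 13))
    (@En.n l28 (nat_lit 9028) (nat_lit 9) (nat_lit 3))
    (@En.n l8429 (nat_lit 1505) (nat_lit 11) (nat_lit 8))
    (@En.n l24312 (nat_lit 8965) (nat_lit 12) (nat_lit 11))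
    (@En.n l24313 (nat_lit 9020) (nat_lit 13) (nat_lit 13))
    (@En.n l24314 (nat_lit 9033) (nat_lit 14) (nat_lit 6))
    (@En.n l2947 (nat_lit 10171) (nat_lit 13) (nat_lit 6))
    (@En.n l17 (nat_lit 9015) (nat_lit 15) (nat_lit 2))))
  (@Cl.mk (nat_lit 0x2000d000b00090003000d000a00050003000a0007000e00060002000e0006) (nat_lit 0x645088001030080) (nat_lit 16) Lb.e (@T16.mk En
    (@En.n l97 (nat_lit 9015) (nat_lit 14) (nat_lit 6))
    (@En.n l1236 (nat_lit 8912) (nat_lit 1) (nat_lit 14))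
    (@En.n l17 (nat_lit 9016) (nat_lit 2) (nat_lit 2))
    (@En.n l10792 (nat_lit 9014) (nat_lit 3) (nat_lit 6))
    (@En.i (nat_lit 12774) (nat_lit 1) (nat_lit 14))
    (@En.i (nat_lit 4617) (nat_lit 5) (nat_lit 7))
    (@En.n l1792 (nat_lit 8213) (nat_lit 3) (nat_lit 10))
    (@En.n l50 (nat_lit 8982) (nat_lit 7) (nat_lit 3))
    (@En.n l10263 (nat_lit 5071) (nat_lit 0) (nat_lit 5))
    (@En.n l217 (nat_lit 9992) (nat_lit 10) (nat_lit 10))
    (@En.n l1789 (nat_lit 6056) (nat_lit 11) (nat_lit 13))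
    (@En.n l28 (nat_lit 10034) (nat_lit 11) (nat_lit 3))
    (@En.n l6576 (nat_lit 1685) (nat_lit 0) (nat_lit 9))
    (@En.i (nat_lit 8959) (nat_lit 14) (nat_lit 11))
    (@En.i (nat_lit 9018) (nat_lit 12) (nat_lit 13))
    (@En.n l67 (nat_lit 9016) (nat_lit 15) (nat_lit 2))))
  (@Cl.mk (nat_lit 0x30006000c000a000a00070004000b000900060006000a0005000d00090007) (nat_lit 0x94500420040530) (nat_lit 16) Lb.e (@T16.mk En
    (@En.n l1927 (nat_lit 1422) (nat_lit 0) (nat_lit 7))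
    (@En.n l25875 (nat_lit 9374) (nat_lit 14) (nat_lit 9))
    (@En.n l25876 (nat_lit 9021) (nat_lit 2) (nat_lit 13))
    (@En.n l25877 (nat_lit 9019) (nat_lit 3) (nat_lit 5))
    (@En.i (nat_lit 9552) (nat_lit 4) (nat_lit 10))
    (@En.n l627 (nat_lit 9527) (nat_lit 10) (nat_lit 6))
    (@En.n l25878 (nat_lit 11112) (nat_lit 6) (nat_lit 6))
    (@En.n l6064 (nat_lit 903) (nat_lit 7) (nat_lit 9))
    (@En.n l25879 (nat_lit 10018) (nat_lit 9) (nat_lit 11))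
    (@En.n l25880 (nat_lit 9488) (nat_lit 9) (nat_lit 4))
    (@En.n l25881 (nat_lit 9687) (nat_lit 0) (nat_lit 7))
    (@En.n l25882 (nat_lit 9018) (nat_lit 6) (nat_lit 10))
    (@En.n l14750 (nat_lit 10663) (nat_lit 13) (nat_lit 10))
    (@En.n l25883 (nat_lit 9013) (nat_lit 14) (nat_lit 12))
    (@En.n l25884 (nat_lit 9314) (nat_lit 12) (nat_lit 6))
    (@En.n l11361 (nat_lit 9897) (nat_lit 15) (nat_lit 3))))
  (@Cl.mk (nat_lit 0x2000a0006000d000a000800030006000d000a00060003000a0008000e0006) (nat_lit 0x5053400a4002430) (nat_lit 16) Lb.e (@T16.mk En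
    (@En.n l21756 (nat_lit 9017) (nat_lit 6) (nat_lit 6))
    (@En.n l14731 (nat_lit 12679) (nat_lit 1) (nat_lit 14))
    (@En.n l6577 (nat_lit 897) (nat_lit 2) (nat_lit 8))
    (@En.n l21757 (nat_lit 10020) (nat_lit 3) (nat_lit 10))
    (@En.n l50 (nat_lit 7467) (nat_lit 4) (nat_lit 3))
    (@En.n l21758 (nat_lit 5148) (nat_lit 5) (nat_lit 6))
    (@En.n l217 (nat_lit 10664) (nat_lit 13) (nat_lit 10))
    (@En.n l1690 (nat_lit 9015) (nat_lit 8) (nat_lit 13))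
    (@En.n l21759 (nat_lit 9309) (nat_lit 8) (nat_lit 6))
    (@En.n l28 (nat_lit 9900) (nat_lit 9) (nat_lit 3))
    (@En.n l21760 (nat_lit 1502) (nat_lit 0) (nat_lit 8))
    (@En.i (nat_lit 9373) (nat_lit 12) (nat_lit 10))
    (@En.n l2048 (nat_lit 9022) (nat_lit 13) (nat_lit 13))
    (@En.n l21761 (nat_lit 9020) (nat_lit 14) (nat_lit 6))
    (@En.n l21762 (nat_lit 9546) (nat_lit 4) (nat_lit 10))
    (@En.n l17 (nat_lit 9018) (nat_lit 15) (nat_lit 2))))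
  (@Cl.mk (nat_lit 0x30009000c0009000900070004000b0007000a000700070005000d00090006) (nat_lit 0x486000403000350) (nat_lit 16) Lb.e (@T16.mk En
    (@En.n l39424 (nat_lit 1499) (nat_lit 0) (nat_lit 6))
    (@En.n l39425 (nat_lit 9364) (nat_lit 14) (nat_lit 9))
    (@En.i (nat_lit 6692) (nat_lit 2) (nat_lit 13))
    (@En.n l39426 (nat_lit 10306) (nat_lit 3) (nat_lit 5))
    (@En.n l39427 (nat_lit 9526) (nat_lit 9) (nat_lit 7))
    (@En.n l17017 (nat_lit 11114) (nat_lit 5) (nat_lit 7))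
    (@En.n l39428 (nat_lit 8586) (nat_lit 8) (nat_lit 10))
    (@En.n l17 (nat_lit 9021) (nat_lit 7) (nat_lit 7))
    (@En.n l18752 (nat_lit 7189) (nat_lit 9) (nat_lit 11))
    (@En.n l12686 (nat_lit 9492) (nat_lit 9) (nat_lit 4))
    (@En.n l1240 (nat_lit 8772) (nat_lit 0) (nat_lit 7))
    (@En.n l39429 (nat_lit 9020) (nat_lit 7) (nat_lit 9))
    (@En.n l5582 (nat_lit 11071) (nat_lit 13) (nat_lit 9))
    (@En.n l39430 (nat_lit 9008) (nat_lit 6) (nat_lit 12))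
    (@En.n l39431 (nat_lit 9023) (nat_lit 4) (nat_lit 9))
    (@En.n l38993 (nat_lit 9895) (nat_lit 15) (nat_lit 3))))
  (@Cl.mk (nat_lit 0x20006000d000a00070003000a000d000900060003000a00060009000e0007) (nat_lit 0x46004970030540) (nat_lit 16) Lb.e (@T16.mk En
    (@En.n l37530 (nat_lit 9019) (nat_lit 5) (nat_lit 7))
    (@En.n l1578 (nat_lit 12709) (nat_lit 1) (nat_lit 14))
    (@En.n l781 (nat_lit 8370) (nat_lit 2) (nat_lit 9))
    (@En.n l3264 (nat_lit 9022) (nat_lit 3) (nat_lit 6))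
    (@En.n l24026 (nat_lit 9903) (nat_lit 4) (nat_lit 10))
    (@En.n l21702 (nat_lit 7466) (nat_lit 5) (nat_lit 3))
    (@En.i (nat_lit 5077) (nat_lit 6) (nat_lit 6))
    (@En.n l24026 (nat_lit 10947) (nat_lit 8) (nat_lit 9))
    (@En.i (nat_lit 9033) (nat_lit 9) (nat_lit 13))
    (@En.n l250 (nat_lit 9907) (nat_lit 10) (nat_lit 10))
    (@En.n l37531 (nat_lit 9898) (nat_lit 10) (nat_lit 3))
    (@En.n l3269 (nat_lit 1496) (nat_lit 12) (nat_lit 7))
    (@En.n l217 (nat_lit 9363) (nat_lit 13) (nat_lit 10))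
    (@En.n l3201 (nat_lit 6615) (nat_lit 14) (nat_lit 13))
    (@En.i (nat_lit 10894) (nat_lit 13) (nat_lit 6))
    (@En.n l28 (nat_lit 9020) (nat_lit 15) (nat_lit 2))))
  (@Cl.mk (nat_lit 0x300090006000c000a000a000800040007000a00060006000a000d00080006) (nat_lit 0x409765005003420) (nat_lit 16) Lb.e (@T16.mk En
    (@En.n l5728 (nat_lit 1500) (nat_lit 0) (nat_lit 6))
    (@En.i (nat_lit 9368) (nat_lit 9) (nat_lit 8))
    (@En.i (nat_lit 6690) (nat_lit 5) (nat_lit 13))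
    (@En.n l26224 (nat_lit 9554) (nat_lit 3) (nat_lit 10))
    (@En.n l5584 (nat_lit 9528) (nat_lit 10) (nat_lit 6))
    (@En.i (nat_lit 11113) (nat_lit 5) (nat_lit 6))
    (@En.n l26224 (nat_lit 905) (nat_lit 8) (nat_lit 10))
    (@En.i (nat_lit 4546) (nat_lit 11) (nat_lit 7))
    (@En.n l936 (nat_lit 9489) (nat_lit 8) (nat_lit 4))
    (@En.n l55 (nat_lit 9689) (nat_lit 0) (nat_lit 8))
    (@En.n l619 (nat_lit 9022) (nat_lit 6) (nat_lit 10))
    (@En.n l3866 (nat_lit 10654) (nat_lit 12) (nat_lit 10))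
    (@En.i (nat_lit 9019) (nat_lit 13) (nat_lit 12))
    (@En.n l15410 (nat_lit 9017) (nat_lit 14) (nat_lit 6))
    (@En.n l37010 (nat_lit 9024) (nat_lit 5) (nat_lit 9))
    (@En.i (nat_lit 9896) (nat_lit 15) (nat_lit 3))))
  (@Cl.mk (nat_lit 0x2000a000d000900070003000a0006000d000a0007000300060009000e0006) (nat_lit 0x5430050a5000430) (nat_lit 16) Lb.e (@T16.mk En
    (@En.n l117 (nat_lit 9021) (nat_lit 5) (nat_lit 6))
    (@En.n l3176 (nat_lit 12674) (nat_lit 1) (nat_lit 14))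
    (@En.n l2238 (nat_lit 898) (nat_lit 9) (nat_lit 9))
    (@En.i (nat_lit 3403) (nat_lit 3) (nat_lit 6))
    (@En.n l936 (nat_lit 7465) (nat_lit 4) (nat_lit 3))
    (@En.i (nat_lit 5062) (nat_lit 0) (nat_lit 7))
    (@En.n l936 (nat_lit 10660) (nat_lit 7) (nat_lit 10))
    (@En.n l3026 (nat_lit 9020) (nat_lit 8) (nat_lit 13))
    (@En.n l9345 (nat_lit 9018) (nat_lit 8) (nat_lit 6))
    (@En.n l7240 (nat_lit 9025) (nat_lit 10) (nat_lit 10))
    (@En.n l7027 (nat_lit 9899) (nat_lit 10) (nat_lit 3))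
    (@En.n l712 (nat_lit 1501) (nat_lit 0) (nat_lit 7))
    (@En.n l9376 (nat_lit 9365) (nat_lit 13) (nat_lit 9))
    (@En.i (nat_lit 6694) (nat_lit 14) (nat_lit 13))
    (@En.n l614 (nat_lit 8841) (nat_lit 10) (nat_lit 10))
    (@En.n l11 (nat_lit 9022) (nat_lit 15) (nat_lit 2))))
  (@Cl.mk (nat_lit 0x4000a0007000b000a0008000800060005000a00060009000c000800080006) (nat_lit 0x405406002037500) (nat_lit 16) Lb.e (@T16.mk En
    (@En.n l35614 (nat_lit 8794) (nat_lit 0) (nat_lit 6))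
    (@En.n l35615 (nat_lit 9907) (nat_lit 8) (nat_lit 8))
    (@En.n l117 (nat_lit 10733) (nat_lit 1) (nat_lit 8))
    (@En.n l35614 (nat_lit 7159) (nat_lit 6) (nat_lit 12))
    (@En.n l7948 (nat_lit 12521) (nat_lit 9) (nat_lit 9))
    (@En.n l35616 (nat_lit 1494) (nat_lit 5) (nat_lit 6))
    (@En.n l35617 (nat_lit 9370) (nat_lit 10) (nat_lit 10))
    (@En.n l35618 (nat_lit 11261) (nat_lit 11) (nat_lit 5))
    (@En.n l35619 (nat_lit 10305) (nat_lit 10) (nat_lit 6))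
    (@En.n l35620 (nat_lit 9523) (nat_lit 8) (nat_lit 8))
    (@En.n l35621 (nat_lit 9949) (nat_lit 8) (nat_lit 8))
    (@En.n l29540 (nat_lit 9019) (nat_lit 6) (nat_lit 10))
    (@En.n l35619 (nat_lit 9013) (nat_lit 8) (nat_lit 11))
    (@En.n l35622 (nat_lit 9024) (nat_lit 14) (nat_lit 7))
    (@En.n l35623 (nat_lit 9840) (nat_lit 11) (nat_lit 10))
    (@En.n l35624 (nat_lit 9494) (nat_lit 12) (nat_lit 4))))
noncomputable def a564 : T16 Cl := @T16.mk Cl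
  (@Cl.mk (nat_lit 0x40007000b000a00070007000b00050009000600090005000c000900090007) (nat_lit 0x56004020308600) (nat_lit 16) Lb.e (@T16.mk En
    (@En.n l41443 (nat_lit 9691) (nat_lit 0) (nat_lit 7))
    (@En.n l35996 (nat_lit 9025) (nat_lit 7) (nat_lit 9))
    (@En.n l40512 (nat_lit 10651) (nat_lit 7) (nat_lit 9))
    (@En.n l41398 (nat_lit 9023) (nat_lit 3) (nat_lit 12))
    (@En.n l11386 (nat_lit 9313) (nat_lit 4) (nat_lit 5))
    (@En.n l1723 (nat_lit 12522) (nat_lit 9) (nat_lit 9))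
    (@En.n l6042 (nat_lit 426) (nat_lit 6) (nat_lit 6))
    (@En.n l41389 (nat_lit 9369) (nat_lit 10) (nat_lit 9))
    (@En.n l36981 (nat_lit 11260) (nat_lit 8) (nat_lit 5))
    (@En.i (nat_lit 8836) (nat_lit 8) (nat_lit 11))
    (@En.n l1867 (nat_lit 9522) (nat_lit 9) (nat_lit 7))
    (@En.n l23340 (nat_lit 9940) (nat_lit 2) (nat_lit 7))
    (@En.n l41440 (nat_lit 9021) (nat_lit 6) (nat_lit 10))
    (@En.n l601 (nat_lit 9017) (nat_lit 8) (nat_lit 11))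
    (@En.n l649 (nat_lit 4533) (nat_lit 11) (nat_lit 7))
    (@En.n l29127 (nat_lit 9491) (nat_lit 15) (nat_lit 4))))
  (@Cl.mk (nat_lit 0x2000b0006000a0007000a0005000d0009000600030006000a0009000e0007) (nat_lit 0x503040970003540) (nat_lit 16) Lb.e (@T16.mk En
    (@En.n l20183 (nat_lit 9024) (nat_lit 11) (nat_lit 7))
    (@En.n l35946 (nat_lit 11176) (nat_lit 1) (nat_lit 14))
    (@En.n l9166 (nat_lit 9022) (nat_lit 2) (nat_lit 9))
    (@En.n l35871 (nat_lit 9018) (nat_lit 3) (nat_lit 10))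
    (@En.n l8573 (nat_lit 3402) (nat_lit 4) (nat_lit 6))
    (@En.n l33320 (nat_lit 7468) (nat_lit 5) (nat_lit 3))
    (@En.i (nat_lit 5061) (nat_lit 0) (nat_lit 6))
    (@En.n l33320 (nat_lit 10659) (nat_lit 8) (nat_lit 9))
    (@En.n l20166 (nat_lit 9907) (nat_lit 9) (nat_lit 13))
    (@En.n l617 (nat_lit 9310) (nat_lit 9) (nat_lit 5))
    (@En.n l9264 (nat_lit 12520) (nat_lit 11) (nat_lit 10))
    (@En.n l11456 (nat_lit 1498) (nat_lit 12) (nat_lit 7))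
    (@En.i (nat_lit 9367) (nat_lit 13) (nat_lit 10))
    (@En.n l8572 (nat_lit 11263) (nat_lit 14) (nat_lit 6))
    (@En.n l20182 (nat_lit 8833) (nat_lit 9) (nat_lit 11))
    (@En.n l107 (nat_lit 9025) (nat_lit 15) (nat_lit 2))))
  (@Cl.mk (nat_lit 0x200060006000d000c00080003000d0004000a0003000a000a0008000e0006) (nat_lit 0x6940901018360) (nat_lit 16) Lb.e (@T16.mk En
    (@En.n l2947 (nat_lit 9010) (nat_lit 6) (nat_lit 6))
    (@En.n l3548 (nat_lit 12490) (nat_lit 1) (nat_lit 14))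
    (@En.i (nat_lit 8345) (nat_lit 2) (nat_lit 8))
    (@En.n l3 (nat_lit 8982) (nat_lit 6) (nat_lit 10))
    (@En.n l1328 (nat_lit 4428) (nat_lit 4) (nat_lit 10))
    (@En.i (nat_lit 9015) (nat_lit 5) (nat_lit 3))
    (@En.n l16743 (nat_lit 7970) (nat_lit 0) (nat_lit 10))
    (@En.n l28 (nat_lit 8977) (nat_lit 7) (nat_lit 4))
    (@En.n l601 (nat_lit 6053) (nat_lit 9) (nat_lit 13))
    (@En.n l28 (nat_lit 9027) (nat_lit 9) (nat_lit 3))
    (@En.n l8429 (nat_lit 1535) (nat_lit 11) (nat_lit 8))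
    (@En.n l77 (nat_lit 8980) (nat_lit 12) (nat_lit 12))
    (@En.n l16743 (nat_lit 7466) (nat_lit 13) (nat_lit 13))
    (@En.n l8480 (nat_lit 9032) (nat_lit 14) (nat_lit 6))
    (@En.n l2947 (nat_lit 10169) (nat_lit 13) (nat_lit 6))
    (@En.n l17 (nat_lit 9026) (nat_lit 15) (nat_lit 2))))
  (@Cl.mk (nat_lit 0x200060006000d0007000d0003000d0003000a0003000a000a0009000e0006) (nat_lit 0x6080604018480) (nat_lit 16) Lb.e (@T16.mk En
    (@En.n l2947 (nat_lit 9009) (nat_lit 8) (nat_lit 6))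
    (@En.n l3548 (nat_lit 12488) (nat_lit 1) (nat_lit 14))
    (@En.n l575 (nat_lit 8342) (nat_lit 2) (nat_lit 9))
    (@En.n l3 (nat_lit 8983) (nat_lit 6) (nat_lit 10))
    (@En.i (nat_lit 4426) (nat_lit 4) (nat_lit 10))
    (@En.i (nat_lit 9028) (nat_lit 5) (nat_lit 3))
    (@En.i (nat_lit 7969) (nat_lit 0) (nat_lit 10))
    (@En.i (nat_lit 8980) (nat_lit 7) (nat_lit 3))
    (@En.i (nat_lit 2932) (nat_lit 9) (nat_lit 13))
    (@En.i (nat_lit 9026) (nat_lit 9) (nat_lit 3))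
    (@En.n l10028 (nat_lit 5837) (nat_lit 11) (nat_lit 13))
    (@En.i (nat_lit 6035) (nat_lit 12) (nat_lit 7))
    (@En.n l1578 (nat_lit 7462) (nat_lit 13) (nat_lit 13))
    (@En.n l8480 (nat_lit 9029) (nat_lit 14) (nat_lit 6))
    (@En.n l2947 (nat_lit 10192) (nat_lit 13) (nat_lit 6))
    (@En.n l17 (nat_lit 9027) (nat_lit 15) (nat_lit 2))))
  (@Cl.mk (nat_lit 0x200060006000d0007000c0003000d000900040003000a000a0009000e0007) (nat_lit 0x6020940028280) (nat_lit 16) Lb.e (@T16.mk En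
    (@En.n l2947 (nat_lit 9011) (nat_lit 6) (nat_lit 7))
    (@En.n l3548 (nat_lit 12491) (nat_lit 1) (nat_lit 14))
    (@En.n l575 (nat_lit 8239) (nat_lit 2) (nat_lit 9))
    (@En.n l3 (nat_lit 10034) (nat_lit 6) (nat_lit 10))
    (@En.n l5 (nat_lit 9902) (nat_lit 4) (nat_lit 10))
    (@En.n l50 (nat_lit 9027) (nat_lit 5) (nat_lit 3))
    (@En.n l24199 (nat_lit 10036) (nat_lit 6) (nat_lit 4))
    (@En.n l217 (nat_lit 9037) (nat_lit 8) (nat_lit 9))
    (@En.i (nat_lit 2928) (nat_lit 9) (nat_lit 13))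
    (@En.i (nat_lit 9015) (nat_lit 9) (nat_lit 3))
    (@En.n l10028 (nat_lit 12393) (nat_lit 11) (nat_lit 12))
    (@En.i (nat_lit 6034) (nat_lit 12) (nat_lit 7))
    (@En.n l1578 (nat_lit 9898) (nat_lit 13) (nat_lit 13))
    (@En.n l24314 (nat_lit 9031) (nat_lit 14) (nat_lit 6))
    (@En.n l2947 (nat_lit 10191) (nat_lit 13) (nat_lit 6))
    (@En.n l17 (nat_lit 9028) (nat_lit 15) (nat_lit 2))))
  (@Cl.mk (nat_lit 0x20006000d0006000d0003000d000300090003000e000a0002000a000e0007) (nat_lit 0x50705050c20590) (nat_lit 16) Lb.e (@T16.mk En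
    (@En.n l3508 (nat_lit 9004) (nat_lit 13) (nat_lit 7))
    (@En.i (nat_lit 12399) (nat_lit 1) (nat_lit 14))
    (@En.n l7504 (nat_lit 8359) (nat_lit 2) (nat_lit 10))
    (@En.n l3 (nat_lit 9029) (nat_lit 3) (nat_lit 2))
    (@En.n l3358 (nat_lit 9027) (nat_lit 4) (nat_lit 10))
    (@En.i (nat_lit 4218) (nat_lit 1) (nat_lit 14))
    (@En.n l17828 (nat_lit 9031) (nat_lit 6) (nat_lit 3))
    (@En.n l2789 (nat_lit 10106) (nat_lit 3) (nat_lit 9))
    (@En.i (nat_lit 9030) (nat_lit 8) (nat_lit 3))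
    (@En.n l7034 (nat_lit 2937) (nat_lit 10) (nat_lit 13))
    (@En.i (nat_lit 9032) (nat_lit 10) (nat_lit 3))
    (@En.n l2789 (nat_lit 5839) (nat_lit 8) (nat_lit 13))
    (@En.i (nat_lit 8172) (nat_lit 13) (nat_lit 6))
    (@En.i (nat_lit 6601) (nat_lit 10) (nat_lit 13))
    (@En.n l7501 (nat_lit 4331) (nat_lit 5) (nat_lit 6))
    (@En.n l17 (nat_lit 9029) (nat_lit 15) (nat_lit 2))))
  (@Cl.mk (nat_lit 0x20006000c0006000d000c0004000300090004000e000a0002000a000e0007) (nat_lit 0x50820020c20480) (nat_lit 16) Lb.e (@T16.mk En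
    (@En.n l3508 (nat_lit 9005) (nat_lit 13) (nat_lit 7))
    (@En.i (nat_lit 12486) (nat_lit 1) (nat_lit 14))
    (@En.n l7504 (nat_lit 8356) (nat_lit 2) (nat_lit 10))
    (@En.n l3 (nat_lit 9030) (nat_lit 3) (nat_lit 2))
    (@En.n l3358 (nat_lit 8980) (nat_lit 4) (nat_lit 10))
    (@En.n l14646 (nat_lit 4217) (nat_lit 1) (nat_lit 14))
    (@En.n l17828 (nat_lit 9035) (nat_lit 6) (nat_lit 4))
    (@En.n l3858 (nat_lit 11588) (nat_lit 3) (nat_lit 9))
    (@En.n l7 (nat_lit 9029) (nat_lit 8) (nat_lit 3))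
    (@En.n l33603 (nat_lit 9306) (nat_lit 9) (nat_lit 4))
    (@En.n l33604 (nat_lit 9031) (nat_lit 11) (nat_lit 12))
    (@En.n l33605 (nat_lit 5838) (nat_lit 12) (nat_lit 13))
    (@En.n l18029 (nat_lit 8173) (nat_lit 13) (nat_lit 6))
    (@En.n l3858 (nat_lit 8996) (nat_lit 10) (nat_lit 12))
    (@En.n l7501 (nat_lit 4333) (nat_lit 5) (nat_lit 6))
    (@En.n l17 (nat_lit 9030) (nat_lit 15) (nat_lit 2))))
  (@Cl.mk (nat_lit 0x20006000d0006000c0003000d000800040003000e000a0002000a000e0008) (nat_lit 0x50108400230591) (nat_lit 16) Lb.e (@T16.mk En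
    (@En.n l7477 (nat_lit 9007) (nat_lit 13) (nat_lit 8))
    (@En.n l3405 (nat_lit 10124) (nat_lit 1) (nat_lit 14))
    (@En.n l16915 (nat_lit 8237) (nat_lit 2) (nat_lit 10))
    (@En.n l3 (nat_lit 9031) (nat_lit 3) (nat_lit 2))
    (@En.n l10991 (nat_lit 9028) (nat_lit 4) (nat_lit 10))
    (@En.i (nat_lit 8177) (nat_lit 1) (nat_lit 14))
    (@En.n l13053 (nat_lit 9029) (nat_lit 6) (nat_lit 3))
    (@En.i (nat_lit 10118) (nat_lit 7) (nat_lit 4))
    (@En.n l3405 (nat_lit 9034) (nat_lit 4) (nat_lit 8))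
    (@En.n l12863 (nat_lit 2933) (nat_lit 10) (nat_lit 13))
    (@En.i (nat_lit 9033) (nat_lit 10) (nat_lit 3))
    (@En.n l11961 (nat_lit 5786) (nat_lit 8) (nat_lit 12))
    (@En.n l7471 (nat_lit 8174) (nat_lit 13) (nat_lit 6))
    (@En.n l13008 (nat_lit 6614) (nat_lit 10) (nat_lit 13))
    (@En.n l19985 (nat_lit 4334) (nat_lit 13) (nat_lit 6))
    (@En.n l28 (nat_lit 9031) (nat_lit 15) (nat_lit 2))))
  (@Cl.mk (nat_lit 0x20006000d000c00070003000d000400090003000e000a00020009000e0007) (nat_lit 0x56008060c204a0) (nat_lit 16) Lb.e (@T16.mk En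
    (@En.n l3508 (nat_lit 9006) (nat_lit 13) (nat_lit 7))
    (@En.i (nat_lit 12487) (nat_lit 1) (nat_lit 14))
    (@En.n l22472 (nat_lit 8352) (nat_lit 2) (nat_lit 9))
    (@En.n l3 (nat_lit 9032) (nat_lit 3) (nat_lit 2))
    (@En.n l3358 (nat_lit 9026) (nat_lit 4) (nat_lit 10))
    (@En.n l22473 (nat_lit 4216) (nat_lit 1) (nat_lit 14))
    (@En.n l17828 (nat_lit 9033) (nat_lit 6) (nat_lit 3))
    (@En.n l17867 (nat_lit 10107) (nat_lit 3) (nat_lit 9))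
    (@En.n l22474 (nat_lit 8939) (nat_lit 8) (nat_lit 4))
    (@En.n l22475 (nat_lit 6055) (nat_lit 10) (nat_lit 13))
    (@En.n l28 (nat_lit 9029) (nat_lit 10) (nat_lit 3))
    (@En.n l22472 (nat_lit 1652) (nat_lit 12) (nat_lit 7))
    (@En.n l77 (nat_lit 9030) (nat_lit 13) (nat_lit 12))
    (@En.n l17867 (nat_lit 6602) (nat_lit 10) (nat_lit 13))
    (@En.n l7501 (nat_lit 4324) (nat_lit 13) (nat_lit 6))
    (@En.n l17 (nat_lit 9032) (nat_lit 15) (nat_lit 2))))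
  (@Cl.mk (nat_lit 0x20006000d000b00070003000d000800050003000e000a00020009000e0008) (nat_lit 0x44008300b40451) (nat_lit 16) Lb.e (@T16.mk En
    (@En.i (nat_lit 9008) (nat_lit 13) (nat_lit 8))
    (@En.n l1578 (nat_lit 12493) (nat_lit 1) (nat_lit 14))
    (@En.i (nat_lit 8376) (nat_lit 2) (nat_lit 9))
    (@En.n l3 (nat_lit 9033) (nat_lit 3) (nat_lit 2))
    (@En.n l10991 (nat_lit 9015) (nat_lit 4) (nat_lit 10))
    (@En.i (nat_lit 8176) (nat_lit 1) (nat_lit 14))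
    (@En.n l13053 (nat_lit 9032) (nat_lit 6) (nat_lit 3))
    (@En.i (nat_lit 5074) (nat_lit 7) (nat_lit 5))
    (@En.n l764 (nat_lit 9036) (nat_lit 4) (nat_lit 8))
    (@En.n l998 (nat_lit 6054) (nat_lit 10) (nat_lit 13))
    (@En.n l50 (nat_lit 9031) (nat_lit 10) (nat_lit 3))
    (@En.i (nat_lit 1872) (nat_lit 12) (nat_lit 7))
    (@En.n l217 (nat_lit 9035) (nat_lit 13) (nat_lit 11))
    (@En.n l7593 (nat_lit 6616) (nat_lit 10) (nat_lit 13))
    (@En.i (nat_lit 10146) (nat_lit 13) (nat_lit 6))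
    (@En.n l28 (nat_lit 9033) (nat_lit 15) (nat_lit 2))))
  (@Cl.mk (nat_lit 0x20009000d0008000700030007000d0007000d0003000800030009000e0009) (nat_lit 0x2600006020307c0) (nat_lit 16) Lb.e (@T16.mk En
    (@En.n l24873 (nat_lit 9037) (nat_lit 5) (nat_lit 9))
    (@En.n l39592 (nat_lit 4712) (nat_lit 1) (nat_lit 14))
    (@En.n l39593 (nat_lit 10113) (nat_lit 2) (nat_lit 9))
    (@En.n l39594 (nat_lit 9038) (nat_lit 3) (nat_lit 3))
    (@En.n l2985 (nat_lit 9922) (nat_lit 4) (nat_lit 8))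
    (@En.n l39595 (nat_lit 9036) (nat_lit 5) (nat_lit 3))
    (@En.n l13711 (nat_lit 5578) (nat_lit 7) (nat_lit 13))
    (@En.n l18029 (nat_lit 6523) (nat_lit 7) (nat_lit 7))
    (@En.n l3859 (nat_lit 9407) (nat_lit 9) (nat_lit 13))
    (@En.n l39596 (nat_lit 10459) (nat_lit 3) (nat_lit 7))
    (@En.n l39597 (nat_lit 11004) (nat_lit 10) (nat_lit 3))
    (@En.i (nat_lit 9029) (nat_lit 0) (nat_lit 7))
    (@En.n l39598 (nat_lit 11578) (nat_lit 13) (nat_lit 8))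
    (@En.i (nat_lit 11016) (nat_lit 14) (nat_lit 13))
    (@En.n l39599 (nat_lit 6218) (nat_lit 3) (nat_lit 9))
    (@En.n l3 (nat_lit 9034) (nat_lit 15) (nat_lit 2))))
  (@Cl.mk (nat_lit 0x20006000b0006000c000c0007000500040004000e000a0002000a000e0009) (nat_lit 0x30140000750257) (nat_lit 16) Lb.e (@T16.mk En
    (@En.n l19999 (nat_lit 9224) (nat_lit 13) (nat_lit 9))
    (@En.n l1578 (nat_lit 10120) (nat_lit 1) (nat_lit 14))
    (@En.i (nat_lit 5458) (nat_lit 2) (nat_lit 10))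
    (@En.n l3 (nat_lit 9035) (nat_lit 3) (nat_lit 2))
    (@En.i (nat_lit 8965) (nat_lit 4) (nat_lit 10))
    (@En.i (nat_lit 9321) (nat_lit 1) (nat_lit 14))
    (@En.n l5331 (nat_lit 9320) (nat_lit 6) (nat_lit 4))
    (@En.n l18 (nat_lit 9031) (nat_lit 7) (nat_lit 4))
    (@En.i (nat_lit 5869) (nat_lit 8) (nat_lit 5))
    (@En.n l5912 (nat_lit 9038) (nat_lit 5) (nat_lit 7))
    (@En.n l61 (nat_lit 10118) (nat_lit 11) (nat_lit 12))
    (@En.n l8122 (nat_lit 5789) (nat_lit 8) (nat_lit 12))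
    (@En.n l7471 (nat_lit 4637) (nat_lit 13) (nat_lit 6))
    (@En.n l2869 (nat_lit 2516) (nat_lit 14) (nat_lit 11))
    (@En.i (nat_lit 6404) (nat_lit 13) (nat_lit 6))
    (@En.n l28 (nat_lit 9035) (nat_lit 15) (nat_lit 2))))
  (@Cl.mk (nat_lit 0x20008000d0008000700030007000d000c00080003000800040009000e0009) (nat_lit 0x390000653020740) (nat_lit 16) Lb.e (@T16.mk En
    (@En.n l30464 (nat_lit 9039) (nat_lit 5) (nat_lit 9))
    (@En.n l25092 (nat_lit 4706) (nat_lit 1) (nat_lit 14))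
    (@En.i (nat_lit 10112) (nat_lit 2) (nat_lit 9))
    (@En.n l3749 (nat_lit 11030) (nat_lit 3) (nat_lit 4))
    (@En.n l4033 (nat_lit 9913) (nat_lit 4) (nat_lit 8))
    (@En.n l30465 (nat_lit 9034) (nat_lit 5) (nat_lit 3))
    (@En.i (nat_lit 4214) (nat_lit 0) (nat_lit 8))
    (@En.n l4270 (nat_lit 9038) (nat_lit 8) (nat_lit 12))
    (@En.n l2544 (nat_lit 9408) (nat_lit 9) (nat_lit 13))
    (@En.n l3749 (nat_lit 10457) (nat_lit 3) (nat_lit 7))
    (@En.n l7452 (nat_lit 11005) (nat_lit 10) (nat_lit 3))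
    (@En.n l30466 (nat_lit 9032) (nat_lit 0) (nat_lit 7))
    (@En.n l18478 (nat_lit 11577) (nat_lit 13) (nat_lit 8))
    (@En.n l30466 (nat_lit 11017) (nat_lit 14) (nat_lit 13))
    (@En.n l8245 (nat_lit 9705) (nat_lit 3) (nat_lit 8))
    (@En.n l3 (nat_lit 9036) (nat_lit 15) (nat_lit 2))))
  (@Cl.mk (nat_lit 0x300070007000d0008000d000300090003000a000900090008000d00070006) (nat_lit 0xa120306723600) (nat_lit 16) Lb.e (@T16.mk En
    (@En.n l18 (nat_lit 9027) (nat_lit 0) (nat_lit 6))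
    (@En.n l6081 (nat_lit 11581) (nat_lit 7) (nat_lit 7))
    (@En.n l3548 (nat_lit 11019) (nat_lit 9) (nat_lit 13))
    (@En.n l575 (nat_lit 9756) (nat_lit 3) (nat_lit 8))
    (@En.n l3 (nat_lit 9993) (nat_lit 7) (nat_lit 9))
    (@En.n l61 (nat_lit 10459) (nat_lit 5) (nat_lit 9))
    (@En.i (nat_lit 10116) (nat_lit 13) (nat_lit 10))
    (@En.i (nat_lit 9997) (nat_lit 7) (nat_lit 3))
    (@En.i (nat_lit 9835) (nat_lit 0) (nat_lit 9))
    (@En.n l11424 (nat_lit 9039) (nat_lit 9) (nat_lit 3))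
    (@En.n l27329 (nat_lit 5342) (nat_lit 0) (nat_lit 13))
    (@En.n l38813 (nat_lit 5441) (nat_lit 12) (nat_lit 8))
    (@En.n l42736 (nat_lit 10948) (nat_lit 13) (nat_lit 13))
    (@En.n l37662 (nat_lit 9034) (nat_lit 9) (nat_lit 7))
    (@En.n l31726 (nat_lit 10465) (nat_lit 4) (nat_lit 7))
    (@En.n l25348 (nat_lit 9999) (nat_lit 15) (nat_lit 3))))
  (@Cl.mk (nat_lit 0x20009000d0009000700030007000c0007000d0007000400030009000e0009) (nat_lit 0x286000401000730) (nat_lit 16) Lb.e (@T16.mk En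
    (@En.n l42156 (nat_lit 9997) (nat_lit 5) (nat_lit 9))
    (@En.n l42157 (nat_lit 4710) (nat_lit 1) (nat_lit 14))
    (@En.n l42158 (nat_lit 11590) (nat_lit 2) (nat_lit 9))
    (@En.n l42159 (nat_lit 9034) (nat_lit 3) (nat_lit 3))
    (@En.n l152 (nat_lit 11032) (nat_lit 4) (nat_lit 4))
    (@En.n l21574 (nat_lit 10111) (nat_lit 5) (nat_lit 7))
    (@En.n l42160 (nat_lit 5576) (nat_lit 7) (nat_lit 13))
    (@En.n l10674 (nat_lit 6524) (nat_lit 7) (nat_lit 7))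
    (@En.n l42157 (nat_lit 8100) (nat_lit 9) (nat_lit 12))
    (@En.i (nat_lit 10461) (nat_lit 5) (nat_lit 7))
    (@En.n l17747 (nat_lit 11006) (nat_lit 10) (nat_lit 3))
    (@En.n l42161 (nat_lit 9030) (nat_lit 0) (nat_lit 7))
    (@En.n l42162 (nat_lit 11036) (nat_lit 13) (nat_lit 9))
    (@En.n l42157 (nat_lit 11018) (nat_lit 14) (nat_lit 13))
    (@En.i (nat_lit 6153) (nat_lit 3) (nat_lit 9))
    (@En.n l50 (nat_lit 9038) (nat_lit 15) (nat_lit 2))))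
  (@Cl.mk (nat_lit 0x300070007000d000c0009000300090004000a000900090007000d00070006) (nat_lit 0xb640406720800) (nat_lit 16) Lb.e (@T16.mk En
    (@En.n l21630 (nat_lit 9026) (nat_lit 0) (nat_lit 6))
    (@En.n l34086 (nat_lit 11582) (nat_lit 7) (nat_lit 7))
    (@En.n l23186 (nat_lit 11020) (nat_lit 9) (nat_lit 13))
    (@En.n l8768 (nat_lit 9748) (nat_lit 3) (nat_lit 7))
    (@En.n l38798 (nat_lit 9992) (nat_lit 7) (nat_lit 9))
    (@En.i (nat_lit 10462) (nat_lit 5) (nat_lit 9))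
    (@En.n l38799 (nat_lit 10793) (nat_lit 13) (nat_lit 10))
    (@En.n l3851 (nat_lit 7107) (nat_lit 7) (nat_lit 4))
    (@En.n l617 (nat_lit 9918) (nat_lit 0) (nat_lit 9))
    (@En.n l23190 (nat_lit 9037) (nat_lit 9) (nat_lit 3))
    (@En.n l18153 (nat_lit 3953) (nat_lit 0) (nat_lit 9))
    (@En.n l38800 (nat_lit 9997) (nat_lit 12) (nat_lit 12))
    (@En.n l29256 (nat_lit 10947) (nat_lit 13) (nat_lit 13))
    (@En.n l38801 (nat_lit 9036) (nat_lit 9) (nat_lit 7))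
    (@En.n l23182 (nat_lit 10466) (nat_lit 4) (nat_lit 7))
    (@En.n l37760 (nat_lit 10000) (nat_lit 15) (nat_lit 3))))
noncomputable def a565 : T16 Cl := @T16.mk Cl
  (@Cl.mk (nat_lit 0x2000d000c00080003000c0004000b000b0004000b000800050005000e0005) (nat_lit 0x685070920320050) (nat_lit 16) Lb.e (@T16.mk En
    (@En.n l8233 (nat_lit 9010) (nat_lit 4) (nat_lit 5))
    (@En.n l8234 (nat_lit 9149) (nat_lit 1) (nat_lit 14))
    (@En.n l8235 (nat_lit 8085) (nat_lit 11) (nat_lit 5))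
    (@En.i (nat_lit 6400) (nat_lit 3) (nat_lit 5))
    (@En.n l5408 (nat_lit 7641) (nat_lit 4) (nat_lit 8))
    (@En.i (nat_lit 10226) (nat_lit 10) (nat_lit 11))
    (@En.n l8236 (nat_lit 9044) (nat_lit 6) (nat_lit 4))
    (@En.n l8237 (nat_lit 8982) (nat_lit 8) (nat_lit 11))
    (@En.n l5408 (nat_lit 9048) (nat_lit 9) (nat_lit 11))
    (@En.n l1208 (nat_lit 8973) (nat_lit 9) (nat_lit 4))
    (@En.i (nat_lit 7753) (nat_lit 11) (nat_lit 12))
    (@En.n l7805 (nat_lit 9041) (nat_lit 11) (nat_lit 3))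
    (@En.n l97 (nat_lit 1534) (nat_lit 0) (nat_lit 8))
    (@En.n l2824 (nat_lit 8979) (nat_lit 14) (nat_lit 12))
    (@En.n l4600 (nat_lit 9488) (nat_lit 2) (nat_lit 13))
    (@En.n l18 (nat_lit 9040) (nat_lit 15) (nat_lit 2))))
  (@Cl.mk (nat_lit 0x2000d0007000d0003000c0003000b000b0004000b000900050005000e0005) (nat_lit 0x609070920820050) (nat_lit 16) Lb.e (@T16.mk En
    (@En.n l9968 (nat_lit 9009) (nat_lit 6) (nat_lit 5))
    (@En.n l3866 (nat_lit 9147) (nat_lit 1) (nat_lit 14))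
    (@En.n l1071 (nat_lit 8079) (nat_lit 11) (nat_lit 5))
    (@En.n l9970 (nat_lit 6399) (nat_lit 3) (nat_lit 5))
    (@En.i (nat_lit 8673) (nat_lit 4) (nat_lit 9))
    (@En.n l19661 (nat_lit 10228) (nat_lit 10) (nat_lit 11))
    (@En.n l3532 (nat_lit 9043) (nat_lit 6) (nat_lit 4))
    (@En.n l61 (nat_lit 8983) (nat_lit 8) (nat_lit 11))
    (@En.n l1075 (nat_lit 9047) (nat_lit 9) (nat_lit 11))
    (@En.n l19662 (nat_lit 8979) (nat_lit 9) (nat_lit 3))
    (@En.i (nat_lit 3353) (nat_lit 11) (nat_lit 12))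
    (@En.n l14227 (nat_lit 9040) (nat_lit 11) (nat_lit 3))
    (@En.n l9972 (nat_lit 5827) (nat_lit 0) (nat_lit 13))
    (@En.i (nat_lit 7040) (nat_lit 14) (nat_lit 7))
    (@En.i (nat_lit 9496) (nat_lit 2) (nat_lit 13))
    (@En.n l67 (nat_lit 9041) (nat_lit 15) (nat_lit 2))))
  (@Cl.mk (nat_lit 0x2000d0007000b0003000c000a000a00050004000b000900060006000e0005) (nat_lit 0x605078500430060) (nat_lit 16) Lb.e (@T16.mk En
    (@En.n l9968 (nat_lit 9011) (nat_lit 4) (nat_lit 5))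
    (@En.n l8638 (nat_lit 10218) (nat_lit 1) (nat_lit 14))
    (@En.n l8639 (nat_lit 8080) (nat_lit 10) (nat_lit 6))
    (@En.n l25808 (nat_lit 9291) (nat_lit 3) (nat_lit 6))
    (@En.n l8605 (nat_lit 8675) (nat_lit 4) (nat_lit 9))
    (@En.n l25809 (nat_lit 10008) (nat_lit 10) (nat_lit 11))
    (@En.n l50 (nat_lit 9041) (nat_lit 6) (nat_lit 4))
    (@En.n l25810 (nat_lit 11891) (nat_lit 7) (nat_lit 5))
    (@En.n l61 (nat_lit 10034) (nat_lit 9) (nat_lit 10))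
    (@En.n l217 (nat_lit 11585) (nat_lit 10) (nat_lit 10))
    (@En.i (nat_lit 2934) (nat_lit 11) (nat_lit 12))
    (@En.n l10792 (nat_lit 9014) (nat_lit 11) (nat_lit 3))
    (@En.n l17647 (nat_lit 12385) (nat_lit 0) (nat_lit 11))
    (@En.i (nat_lit 7041) (nat_lit 14) (nat_lit 7))
    (@En.n l17645 (nat_lit 9897) (nat_lit 2) (nat_lit 13))
    (@En.n l67 (nat_lit 9042) (nat_lit 15) (nat_lit 2))))
  (@Cl.mk (nat_lit 0x2000d0007000c0003000c00090004000c0004000b000900040007000e0005) (nat_lit 0x8050720707000b0) (nat_lit 16) Lb.e (@T16.mk En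
    (@En.n l11 (nat_lit 8572) (nat_lit 4) (nat_lit 5))
    (@En.n l2125 (nat_lit 8661) (nat_lit 1) (nat_lit 14))
    (@En.n l152 (nat_lit 8349) (nat_lit 11) (nat_lit 7))
    (@En.n l1925 (nat_lit 9060) (nat_lit 3) (nat_lit 4))
    (@En.i (nat_lit 9158) (nat_lit 4) (nat_lit 9))
    (@En.n l170 (nat_lit 10356) (nat_lit 10) (nat_lit 11))
    (@En.n l345 (nat_lit 9042) (nat_lit 6) (nat_lit 4))
    (@En.n l22589 (nat_lit 9045) (nat_lit 8) (nat_lit 12))
    (@En.n l6631 (nat_lit 11890) (nat_lit 8) (nat_lit 4))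
    (@En.i (nat_lit 6391) (nat_lit 10) (nat_lit 9))
    (@En.n l2612 (nat_lit 3310) (nat_lit 11) (nat_lit 12))
    (@En.i (nat_lit 9044) (nat_lit 11) (nat_lit 3))
    (@En.n l170 (nat_lit 12776) (nat_lit 0) (nat_lit 12))
    (@En.i (nat_lit 2592) (nat_lit 14) (nat_lit 7))
    (@En.n l7877 (nat_lit 9074) (nat_lit 2) (nat_lit 13))
    (@En.n l28 (nat_lit 9043) (nat_lit 15) (nat_lit 2))))
  (@Cl.mk (nat_lit 0x2000d000b00080003000c00090005000c0004000b000800040007000e0005) (nat_lit 0x8550720708200a0) (nat_lit 16) Lb.e (@T16.mk En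
    (@En.n l11 (nat_lit 8570) (nat_lit 4) (nat_lit 5))
    (@En.n l3928 (nat_lit 9082) (nat_lit 1) (nat_lit 14))
    (@En.n l6001 (nat_lit 8370) (nat_lit 11) (nat_lit 7))
    (@En.n l16904 (nat_lit 9063) (nat_lit 3) (nat_lit 4))
    (@En.n l6631 (nat_lit 7525) (nat_lit 4) (nat_lit 8))
    (@En.n l13296 (nat_lit 8459) (nat_lit 10) (nat_lit 11))
    (@En.n l18871 (nat_lit 9014) (nat_lit 6) (nat_lit 4))
    (@En.n l16721 (nat_lit 9046) (nat_lit 8) (nat_lit 12))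
    (@En.n l3928 (nat_lit 9282) (nat_lit 8) (nat_lit 5))
    (@En.i (nat_lit 6392) (nat_lit 10) (nat_lit 9))
    (@En.n l18872 (nat_lit 4649) (nat_lit 11) (nat_lit 12))
    (@En.n l50 (nat_lit 9043) (nat_lit 11) (nat_lit 3))
    (@En.n l18873 (nat_lit 1532) (nat_lit 0) (nat_lit 8))
    (@En.n l217 (nat_lit 11044) (nat_lit 14) (nat_lit 11))
    (@En.n l7877 (nat_lit 8436) (nat_lit 2) (nat_lit 13))
    (@En.n l28 (nat_lit 9044) (nat_lit 15) (nat_lit 2))))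
  (@Cl.mk (nat_lit 0x2000d000800070003000d0009000c0003000a0008000400090007000e0006) (nat_lit 0x9100926061050b0) (nat_lit 16) Lb.e (@T16.mk En
    (@En.n l39377 (nat_lit 8575) (nat_lit 8) (nat_lit 6))
    (@En.n l26658 (nat_lit 9407) (nat_lit 1) (nat_lit 14))
    (@En.n l20239 (nat_lit 9043) (nat_lit 2) (nat_lit 7))
    (@En.n l39378 (nat_lit 9110) (nat_lit 3) (nat_lit 9))
    (@En.n l39379 (nat_lit 9061) (nat_lit 4) (nat_lit 4))
    (@En.i (nat_lit 8852) (nat_lit 5) (nat_lit 8))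
    (@En.n l39380 (nat_lit 10359) (nat_lit 11) (nat_lit 10))
    (@En.n l3596 (nat_lit 9047) (nat_lit 7) (nat_lit 3))
    (@En.i (nat_lit 12512) (nat_lit 0) (nat_lit 12))
    (@En.n l22479 (nat_lit 6389) (nat_lit 10) (nat_lit 9))
    (@En.n l39381 (nat_lit 3313) (nat_lit 11) (nat_lit 13))
    (@En.n l2364 (nat_lit 9046) (nat_lit 11) (nat_lit 3))
    (@En.n l39382 (nat_lit 9924) (nat_lit 0) (nat_lit 7))
    (@En.n l698 (nat_lit 2590) (nat_lit 14) (nat_lit 8))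
    (@En.n l39383 (nat_lit 9076) (nat_lit 2) (nat_lit 13))
    (@En.n l50 (nat_lit 9045) (nat_lit 15) (nat_lit 2))))
  (@Cl.mk (nat_lit 0x2000d000600090003000d0009000c0003000a00070004000a0007000e0006) (nat_lit 0x9050626010080a0) (nat_lit 16) Lb.e (@T16.mk En
    (@En.n l1267 (nat_lit 8573) (nat_lit 8) (nat_lit 6))
    (@En.n l24404 (nat_lit 7398) (nat_lit 1) (nat_lit 14))
    (@En.n l19885 (nat_lit 9044) (nat_lit 2) (nat_lit 7))
    (@En.n l20101 (nat_lit 8587) (nat_lit 3) (nat_lit 10))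
    (@En.n l24404 (nat_lit 9062) (nat_lit 4) (nat_lit 4))
    (@En.i (nat_lit 7526) (nat_lit 5) (nat_lit 7))
    (@En.n l9491 (nat_lit 8462) (nat_lit 11) (nat_lit 10))
    (@En.n l5888 (nat_lit 9048) (nat_lit 7) (nat_lit 3))
    (@En.i (nat_lit 12287) (nat_lit 0) (nat_lit 12))
    (@En.n l4142 (nat_lit 6390) (nat_lit 10) (nat_lit 9))
    (@En.n l24405 (nat_lit 4646) (nat_lit 11) (nat_lit 13))
    (@En.n l763 (nat_lit 9045) (nat_lit 11) (nat_lit 3))
    (@En.i (nat_lit 1530) (nat_lit 9) (nat_lit 9))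
    (@En.n l764 (nat_lit 11379) (nat_lit 14) (nat_lit 6))
    (@En.n l2026 (nat_lit 8434) (nat_lit 2) (nat_lit 13))
    (@En.n l50 (nat_lit 9046) (nat_lit 15) (nat_lit 2))))
  (@Cl.mk (nat_lit 0x2000d000800070003000d000b000a0003000a0008000500090006000e0006) (nat_lit 0x4200a8200104080) (nat_lit 16) Lb.e (@T16.mk En
    (@En.n l22861 (nat_lit 9049) (nat_lit 8) (nat_lit 6))
    (@En.n l32240 (nat_lit 9408) (nat_lit 1) (nat_lit 14))
    (@En.n l2944 (nat_lit 9042) (nat_lit 2) (nat_lit 6))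
    (@En.n l17134 (nat_lit 9111) (nat_lit 3) (nat_lit 9))
    (@En.n l16891 (nat_lit 9987) (nat_lit 4) (nat_lit 5))
    (@En.i (nat_lit 8848) (nat_lit 5) (nat_lit 8))
    (@En.i (nat_lit 12023) (nat_lit 11) (nat_lit 10))
    (@En.n l1106 (nat_lit 9045) (nat_lit 7) (nat_lit 3))
    (@En.n l2940 (nat_lit 7966) (nat_lit 0) (nat_lit 10))
    (@En.n l3866 (nat_lit 9051) (nat_lit 10) (nat_lit 11))
    (@En.i (nat_lit 3343) (nat_lit 11) (nat_lit 13))
    (@En.n l18 (nat_lit 9048) (nat_lit 11) (nat_lit 3))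
    (@En.n l9155 (nat_lit 9927) (nat_lit 0) (nat_lit 7))
    (@En.n l61 (nat_lit 2593) (nat_lit 14) (nat_lit 8))
    (@En.i (nat_lit 8787) (nat_lit 2) (nat_lit 13))
    (@En.n l7 (nat_lit 9047) (nat_lit 15) (nat_lit 2))))
  (@Cl.mk (nat_lit 0x2000d000600090003000d000b000a0003000a00070005000a0006000e0006) (nat_lit 0x4050a8207008080) (nat_lit 16) Lb.e (@T16.mk En
    (@En.n l18828 (nat_lit 9050) (nat_lit 8) (nat_lit 6))
    (@En.n l18829 (nat_lit 7401) (nat_lit 1) (nat_lit 14))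
    (@En.n l3958 (nat_lit 9014) (nat_lit 2) (nat_lit 6))
    (@En.n l18830 (nat_lit 8588) (nat_lit 3) (nat_lit 10))
    (@En.n l18831 (nat_lit 9988) (nat_lit 4) (nat_lit 5))
    (@En.i (nat_lit 7584) (nat_lit 5) (nat_lit 7))
    (@En.n l18831 (nat_lit 10410) (nat_lit 11) (nat_lit 10))
    (@En.n l2016 (nat_lit 9046) (nat_lit 7) (nat_lit 3))
    (@En.n l619 (nat_lit 7968) (nat_lit 0) (nat_lit 10))
    (@En.n l3866 (nat_lit 9052) (nat_lit 10) (nat_lit 11))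
    (@En.n l18831 (nat_lit 4656) (nat_lit 11) (nat_lit 13))
    (@En.i (nat_lit 9047) (nat_lit 11) (nat_lit 3))
    (@En.n l18832 (nat_lit 1529) (nat_lit 9) (nat_lit 9))
    (@En.n l217 (nat_lit 11380) (nat_lit 14) (nat_lit 6))
    (@En.n l3961 (nat_lit 8783) (nat_lit 2) (nat_lit 13))
    (@En.n l7 (nat_lit 9048) (nat_lit 15) (nat_lit 2))))
  (@Cl.mk (nat_lit 0x3000a000a00090006000a000700060006000d000700060003000d000a0009) (nat_lit 0x1702000b000971) (nat_lit 16) Lb.e (@T16.mk En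
    (@En.n l42514 (nat_lit 7971) (nat_lit 0) (nat_lit 9))
    (@En.n l21493 (nat_lit 11580) (nat_lit 14) (nat_lit 10))
    (@En.i (nat_lit 3342) (nat_lit 2) (nat_lit 13))
    (@En.n l11469 (nat_lit 9050) (nat_lit 3) (nat_lit 3))
    (@En.n l11401 (nat_lit 9931) (nat_lit 0) (nat_lit 6))
    (@En.n l14256 (nat_lit 2597) (nat_lit 5) (nat_lit 7))
    (@En.n l33390 (nat_lit 8786) (nat_lit 7) (nat_lit 13))
    (@En.n l16306 (nat_lit 10104) (nat_lit 10) (nat_lit 6))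
    (@En.i (nat_lit 8703) (nat_lit 8) (nat_lit 6))
    (@En.n l2364 (nat_lit 9011) (nat_lit 5) (nat_lit 7))
    (@En.n l1003 (nat_lit 9105) (nat_lit 9) (nat_lit 10))
    (@En.n l7894 (nat_lit 9985) (nat_lit 7) (nat_lit 6))
    (@En.n l32665 (nat_lit 10134) (nat_lit 7) (nat_lit 9))
    (@En.n l18984 (nat_lit 9047) (nat_lit 6) (nat_lit 10))
    (@En.n l23016 (nat_lit 10964) (nat_lit 11) (nat_lit 10))
    (@En.n l7899 (nat_lit 8575) (nat_lit 15) (nat_lit 3))))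
  (@Cl.mk (nat_lit 0x3000a000a00080006000b000700060006000d000500080003000d000a0009) (nat_lit 0x78309000b040771) (nat_lit 16) Lb.e (@T16.mk En
    (@En.n l24562 (nat_lit 7972) (nat_lit 0) (nat_lit 9))
    (@En.n l34616 (nat_lit 11579) (nat_lit 14) (nat_lit 10))
    (@En.n l4839 (nat_lit 4654) (nat_lit 2) (nat_lit 13))
    (@En.n l33404 (nat_lit 9049) (nat_lit 3) (nat_lit 3))
    (@En.n l34617 (nat_lit 1527) (nat_lit 10) (nat_lit 8))
    (@En.n l34618 (nat_lit 11286) (nat_lit 5) (nat_lit 5))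
    (@En.n l5649 (nat_lit 8777) (nat_lit 7) (nat_lit 13))
    (@En.n l3787 (nat_lit 7821) (nat_lit 10) (nat_lit 6))
    (@En.i (nat_lit 10289) (nat_lit 8) (nat_lit 6))
    (@En.n l34619 (nat_lit 9013) (nat_lit 5) (nat_lit 7))
    (@En.n l3 (nat_lit 9054) (nat_lit 11) (nat_lit 11))
    (@En.n l34620 (nat_lit 9986) (nat_lit 7) (nat_lit 6))
    (@En.n l26244 (nat_lit 9057) (nat_lit 13) (nat_lit 8))
    (@En.n l34621 (nat_lit 9048) (nat_lit 6) (nat_lit 10))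
    (@En.n l6662 (nat_lit 10962) (nat_lit 11) (nat_lit 10))
    (@En.n l34622 (nat_lit 8573) (nat_lit 15) (nat_lit 3))))
  (@Cl.mk (nat_lit 0x2000d000900070003000b0009000c000900070005000400090007000e0007) (nat_lit 0x8200748000050c0) (nat_lit 16) Lb.e (@T16.mk En
    (@En.n l34234 (nat_lit 11580) (nat_lit 4) (nat_lit 7))
    (@En.n l41052 (nat_lit 9619) (nat_lit 1) (nat_lit 14))
    (@En.n l17524 (nat_lit 11585) (nat_lit 2) (nat_lit 7))
    (@En.n l6080 (nat_lit 11383) (nat_lit 3) (nat_lit 9))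
    (@En.n l5331 (nat_lit 9045) (nat_lit 4) (nat_lit 4))
    (@En.n l41053 (nat_lit 12693) (nat_lit 5) (nat_lit 5))
    (@En.i (nat_lit 8853) (nat_lit 6) (nat_lit 7))
    (@En.n l6478 (nat_lit 10414) (nat_lit 12) (nat_lit 9))
    (@En.i (nat_lit 10103) (nat_lit 9) (nat_lit 12))
    (@En.n l61 (nat_lit 10002) (nat_lit 10) (nat_lit 9))
    (@En.n l41054 (nat_lit 11274) (nat_lit 11) (nat_lit 11))
    (@En.n l7 (nat_lit 9052) (nat_lit 11) (nat_lit 3))
    (@En.n l10064 (nat_lit 9923) (nat_lit 0) (nat_lit 7))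
    (@En.i (nat_lit 7702) (nat_lit 14) (nat_lit 9))
    (@En.n l23647 (nat_lit 10670) (nat_lit 2) (nat_lit 13))
    (@En.n l11 (nat_lit 9051) (nat_lit 15) (nat_lit 2))))
  (@Cl.mk (nat_lit 0x2000d0006000a0003000b0009000c0009000600050004000a0007000e0007) (nat_lit 0x705075800003070) (nat_lit 16) Lb.e (@T16.mk En
    (@En.n l8806 (nat_lit 11579) (nat_lit 4) (nat_lit 7))
    (@En.n l15088 (nat_lit 9621) (nat_lit 1) (nat_lit 14))
    (@En.n l34624 (nat_lit 9053) (nat_lit 2) (nat_lit 7))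
    (@En.n l34625 (nat_lit 9808) (nat_lit 3) (nat_lit 10))
    (@En.n l10800 (nat_lit 9046) (nat_lit 4) (nat_lit 4))
    (@En.n l15088 (nat_lit 12669) (nat_lit 5) (nat_lit 5))
    (@En.i (nat_lit 7527) (nat_lit 6) (nat_lit 6))
    (@En.n l33441 (nat_lit 10413) (nat_lit 12) (nat_lit 9))
    (@En.i (nat_lit 10120) (nat_lit 9) (nat_lit 12))
    (@En.n l61 (nat_lit 10003) (nat_lit 10) (nat_lit 9))
    (@En.n l34626 (nat_lit 9891) (nat_lit 11) (nat_lit 11))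
    (@En.i (nat_lit 9051) (nat_lit 11) (nat_lit 3))
    (@En.n l8806 (nat_lit 3951) (nat_lit 0) (nat_lit 10))
    (@En.n l810 (nat_lit 11378) (nat_lit 14) (nat_lit 6))
    (@En.n l3766 (nat_lit 10676) (nat_lit 2) (nat_lit 13))
    (@En.n l11 (nat_lit 9052) (nat_lit 15) (nat_lit 2))))
  (@Cl.mk (nat_lit 0x2000d000b00090003000a00090005000c000a0007000600040007000e0006) (nat_lit 0x4450750900000a0) (nat_lit 16) Lb.e (@T16.mk En
    (@En.n l9877 (nat_lit 11582) (nat_lit 4) (nat_lit 6))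
    (@En.n l16255 (nat_lit 7125) (nat_lit 1) (nat_lit 14))
    (@En.n l25863 (nat_lit 5954) (nat_lit 11) (nat_lit 7))
    (@En.n l25864 (nat_lit 9044) (nat_lit 3) (nat_lit 4))
    (@En.n l16255 (nat_lit 12668) (nat_lit 4) (nat_lit 6))
    (@En.n l14176 (nat_lit 7524) (nat_lit 5) (nat_lit 7))
    (@En.n l23976 (nat_lit 10136) (nat_lit 11) (nat_lit 10))
    (@En.n l25865 (nat_lit 9052) (nat_lit 8) (nat_lit 12))
    (@En.n l25866 (nat_lit 9286) (nat_lit 8) (nat_lit 5))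
    (@En.n l14227 (nat_lit 7989) (nat_lit 10) (nat_lit 9))
    (@En.n l14227 (nat_lit 11513) (nat_lit 11) (nat_lit 10))
    (@En.n l28 (nat_lit 11585) (nat_lit 11) (nat_lit 3))
    (@En.n l25867 (nat_lit 3952) (nat_lit 0) (nat_lit 9))
    (@En.n l77 (nat_lit 11050) (nat_lit 14) (nat_lit 11))
    (@En.n l21468 (nat_lit 10663) (nat_lit 2) (nat_lit 13))
    (@En.n l67 (nat_lit 9053) (nat_lit 15) (nat_lit 2))))
  (@Cl.mk (nat_lit 0x3000b000b0008000b000600050005000c0005000c00080004000d0004000a) (nat_lit 0x813800040750901) (nat_lit 16) Lb.e (@T16.mk En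
    (@En.i (nat_lit 7974) (nat_lit 0) (nat_lit 10))
    (@En.n l117 (nat_lit 9735) (nat_lit 15) (nat_lit 4))
    (@En.n l4839 (nat_lit 4655) (nat_lit 2) (nat_lit 13))
    (@En.n l15186 (nat_lit 9105) (nat_lit 1) (nat_lit 4))
    (@En.i (nat_lit 9050) (nat_lit 4) (nat_lit 8))
    (@En.n l19493 (nat_lit 9010) (nat_lit 1) (nat_lit 12))
    (@En.n l25037 (nat_lit 11289) (nat_lit 6) (nat_lit 5))
    (@En.n l5649 (nat_lit 8775) (nat_lit 8) (nat_lit 12))
    (@En.n l3787 (nat_lit 7819) (nat_lit 11) (nat_lit 5))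
    (@En.i (nat_lit 10287) (nat_lit 9) (nat_lit 5))
    (@En.n l12503 (nat_lit 8769) (nat_lit 0) (nat_lit 6))
    (@En.i (nat_lit 8527) (nat_lit 7) (nat_lit 11))
    (@En.n l77 (nat_lit 9055) (nat_lit 13) (nat_lit 8))
    (@En.n l601 (nat_lit 8588) (nat_lit 5) (nat_lit 11))
    (@En.n l28 (nat_lit 10961) (nat_lit 11) (nat_lit 11))
    (@En.i (nat_lit 8576) (nat_lit 15) (nat_lit 3))))
  (@Cl.mk (nat_lit 0x3000c0008000b00050004000b000b0005000b000800050005000d0005000b) (nat_lit 0x626000509300807) (nat_lit 16) Lb.e (@T16.mk En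
    (@En.n l22013 (nat_lit 8476) (nat_lit 0) (nat_lit 11))
    (@En.n l7162 (nat_lit 10284) (nat_lit 6) (nat_lit 5))
    (@En.n l18910 (nat_lit 9671) (nat_lit 2) (nat_lit 13))
    (@En.n l33355 (nat_lit 9185) (nat_lit 11) (nat_lit 5))
    (@En.i (nat_lit 9172) (nat_lit 4) (nat_lit 5))
    (@En.n l43356 (nat_lit 9057) (nat_lit 5) (nat_lit 8))
    (@En.n l33357 (nat_lit 8350) (nat_lit 1) (nat_lit 11))
    (@En.n l33356 (nat_lit 11789) (nat_lit 7) (nat_lit 5))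
    (@En.n l43357 (nat_lit 9062) (nat_lit 5) (nat_lit 11))
    (@En.n l25580 (nat_lit 9646) (nat_lit 10) (nat_lit 11))
    (@En.n l7 (nat_lit 12712) (nat_lit 12) (nat_lit 4))
    (@En.n l12503 (nat_lit 8576) (nat_lit 0) (nat_lit 5))
    (@En.n l217 (nat_lit 12485) (nat_lit 7) (nat_lit 11))
    (@En.i (nat_lit 6301) (nat_lit 14) (nat_lit 8))
    (@En.n l31041 (nat_lit 5986) (nat_lit 2) (nat_lit 12))
    (@En.n l25283 (nat_lit 9056) (nat_lit 15) (nat_lit 3))))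
noncomputable def a566 : T16 Cl := @T16.mk Cl
  (@Cl.mk (nat_lit 0x3000c0008000b00060004000b000b0005000a000800050005000d000a0006) (nat_lit 0x626000706300940) (nat_lit 16) Lb.e (@T16.mk En
    (@En.n l39850 (nat_lit 7944) (nat_lit 0) (nat_lit 6))
    (@En.n l38772 (nat_lit 8283) (nat_lit 13) (nat_lit 10))
    (@En.n l39851 (nat_lit 9871) (nat_lit 2) (nat_lit 13))
    (@En.n l39852 (nat_lit 9183) (nat_lit 11) (nat_lit 5))
    (@En.n l39853 (nat_lit 9173) (nat_lit 4) (nat_lit 5))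
    (@En.n l28 (nat_lit 9058) (nat_lit 5) (nat_lit 8))
    (@En.n l38772 (nat_lit 9059) (nat_lit 1) (nat_lit 10))
    (@En.n l33244 (nat_lit 11790) (nat_lit 7) (nat_lit 5))
    (@En.n l61 (nat_lit 9061) (nat_lit 5) (nat_lit 11))
    (@En.n l1643 (nat_lit 9647) (nat_lit 10) (nat_lit 11))
    (@En.n l39854 (nat_lit 12692) (nat_lit 10) (nat_lit 4))
    (@En.n l39855 (nat_lit 9124) (nat_lit 0) (nat_lit 6))
    (@En.n l36942 (nat_lit 5312) (nat_lit 7) (nat_lit 11))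
    (@En.n l4758 (nat_lit 6299) (nat_lit 14) (nat_lit 8))
    (@En.n l39856 (nat_lit 5473) (nat_lit 3) (nat_lit 12))
    (@En.n l39857 (nat_lit 9055) (nat_lit 15) (nat_lit 3))))
  (@Cl.mk (nat_lit 0x3000b00080005000b00060005000c000c0005000800040004000d000b000a) (nat_lit 0x620700020200a46) (nat_lit 16) Lb.e (@T16.mk En
    (@En.n l2476 (nat_lit 8269) (nat_lit 0) (nat_lit 10))
    (@En.n l17884 (nat_lit 11046) (nat_lit 13) (nat_lit 11))
    (@En.n l28605 (nat_lit 9670) (nat_lit 2) (nat_lit 13))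
    (@En.n l14311 (nat_lit 9186) (nat_lit 12) (nat_lit 4))
    (@En.n l40167 (nat_lit 10136) (nat_lit 4) (nat_lit 4))
    (@En.n l17213 (nat_lit 2295) (nat_lit 10) (nat_lit 8))
    (@En.n l16758 (nat_lit 11791) (nat_lit 1) (nat_lit 5))
    (@En.n l40168 (nat_lit 9063) (nat_lit 4) (nat_lit 12))
    (@En.n l24351 (nat_lit 9644) (nat_lit 9) (nat_lit 12))
    (@En.n l14436 (nat_lit 12678) (nat_lit 11) (nat_lit 5))
    (@En.n l35918 (nat_lit 8577) (nat_lit 5) (nat_lit 6))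
    (@En.n l39857 (nat_lit 9055) (nat_lit 12) (nat_lit 11))
    (@En.n l18299 (nat_lit 12459) (nat_lit 7) (nat_lit 5))
    (@En.n l40169 (nat_lit 6300) (nat_lit 14) (nat_lit 8))
    (@En.n l14526 (nat_lit 5985) (nat_lit 10) (nat_lit 11))
    (@En.n l107 (nat_lit 9058) (nat_lit 15) (nat_lit 3))))
  (@Cl.mk (nat_lit 0x3000b00080004000b00070005000c000c0005000800040004000d0009000c) (nat_lit 0x620700080200949) (nat_lit 16) Lb.e (@T16.mk En
    (@En.n l1643 (nat_lit 8558) (nat_lit 6) (nat_lit 12))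
    (@En.i (nat_lit 8507) (nat_lit 13) (nat_lit 9))
    (@En.i (nat_lit 9655) (nat_lit 2) (nat_lit 13))
    (@En.n l43067 (nat_lit 9184) (nat_lit 12) (nat_lit 4))
    (@En.n l18 (nat_lit 10139) (nat_lit 4) (nat_lit 4))
    (@En.n l4758 (nat_lit 2298) (nat_lit 10) (nat_lit 8))
    (@En.n l33244 (nat_lit 11792) (nat_lit 1) (nat_lit 5))
    (@En.n l61 (nat_lit 9060) (nat_lit 4) (nat_lit 12))
    (@En.n l1643 (nat_lit 9645) (nat_lit 9) (nat_lit 12))
    (@En.n l97 (nat_lit 10537) (nat_lit 9) (nat_lit 5))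
    (@En.n l28263 (nat_lit 9059) (nat_lit 5) (nat_lit 7))
    (@En.i (nat_lit 9056) (nat_lit 12) (nat_lit 11))
    (@En.i (nat_lit 9193) (nat_lit 7) (nat_lit 4))
    (@En.n l4758 (nat_lit 6298) (nat_lit 14) (nat_lit 8))
    (@En.n l152 (nat_lit 5489) (nat_lit 1) (nat_lit 11))
    (@En.i (nat_lit 9057) (nat_lit 15) (nat_lit 3))))
  (@Cl.mk (nat_lit 0x40004000c00090006000c0004000c0009000400070004000c000c000a0007) (nat_lit 0x850a0720008a50) (nat_lit 16) Lb.e (@T16.mk En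
    (@En.n l41174 (nat_lit 2300) (nat_lit 0) (nat_lit 7))
    (@En.n l2337 (nat_lit 9179) (nat_lit 1) (nat_lit 10))
    (@En.n l41175 (nat_lit 9064) (nat_lit 4) (nat_lit 12))
    (@En.n l41176 (nat_lit 9782) (nat_lit 10) (nat_lit 12))
    (@En.n l41177 (nat_lit 10531) (nat_lit 4) (nat_lit 4))
    (@En.n l36820 (nat_lit 7692) (nat_lit 11) (nat_lit 7))
    (@En.n l41178 (nat_lit 9192) (nat_lit 1) (nat_lit 4))
    (@En.n l16116 (nat_lit 6292) (nat_lit 0) (nat_lit 9))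
    (@En.n l7909 (nat_lit 5467) (nat_lit 1) (nat_lit 12))
    (@En.n l3466 (nat_lit 8577) (nat_lit 9) (nat_lit 4))
    (@En.n l23128 (nat_lit 9058) (nat_lit 0) (nat_lit 12))
    (@En.n l9775 (nat_lit 8572) (nat_lit 1) (nat_lit 6))
    (@En.i (nat_lit 8506) (nat_lit 13) (nat_lit 9))
    (@En.n l41179 (nat_lit 9785) (nat_lit 3) (nat_lit 12))
    (@En.n l41180 (nat_lit 9182) (nat_lit 12) (nat_lit 4))
    (@En.i (nat_lit 9177) (nat_lit 0) (nat_lit 4))))
  (@Cl.mk (nat_lit 0x2000d0009000c0003000b00090004000c00070005000c00040007000e0004) (nat_lit 0x969093080070010) (nat_lit 16) Lb.e (@T16.mk En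
    (@En.i (nat_lit 9058) (nat_lit 4) (nat_lit 4))
    (@En.n l1998 (nat_lit 4342) (nat_lit 1) (nat_lit 14))
    (@En.n l4758 (nat_lit 2296) (nat_lit 11) (nat_lit 7))
    (@En.n l7865 (nat_lit 11585) (nat_lit 3) (nat_lit 4))
    (@En.n l1643 (nat_lit 9665) (nat_lit 9) (nat_lit 12))
    (@En.n l97 (nat_lit 12677) (nat_lit 5) (nat_lit 5))
    (@En.i (nat_lit 9064) (nat_lit 6) (nat_lit 7))
    (@En.i (nat_lit 9061) (nat_lit 8) (nat_lit 12))
    (@En.i (nat_lit 12108) (nat_lit 8) (nat_lit 4))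
    (@En.n l897 (nat_lit 6395) (nat_lit 10) (nat_lit 9))
    (@En.n l152 (nat_lit 5493) (nat_lit 11) (nat_lit 11))
    (@En.n l24351 (nat_lit 9063) (nat_lit 11) (nat_lit 3))
    (@En.n l1643 (nat_lit 12808) (nat_lit 6) (nat_lit 12))
    (@En.i (nat_lit 8517) (nat_lit 14) (nat_lit 9))
    (@En.i (nat_lit 9065) (nat_lit 2) (nat_lit 13))
    (@En.n l17 (nat_lit 9060) (nat_lit 15) (nat_lit 2))))
  (@Cl.mk (nat_lit 0x2000d000a00070003000c0009000c00060004000b000400090007000e0005) (nat_lit 0x9500a2700605050) (nat_lit 16) Lb.e (@T16.mk En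
    (@En.i (nat_lit 9056) (nat_lit 4) (nat_lit 5))
    (@En.n l4757 (nat_lit 8100) (nat_lit 1) (nat_lit 14))
    (@En.n l28 (nat_lit 9060) (nat_lit 2) (nat_lit 7))
    (@En.n l77 (nat_lit 9064) (nat_lit 3) (nat_lit 9))
    (@En.n l28118 (nat_lit 9051) (nat_lit 4) (nat_lit 4))
    (@En.n l1643 (nat_lit 9668) (nat_lit 10) (nat_lit 11))
    (@En.n l97 (nat_lit 12713) (nat_lit 6) (nat_lit 4))
    (@En.n l37120 (nat_lit 9118) (nat_lit 7) (nat_lit 6))
    (@En.n l42900 (nat_lit 12396) (nat_lit 9) (nat_lit 12))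
    (@En.n l897 (nat_lit 6386) (nat_lit 10) (nat_lit 9))
    (@En.n l42901 (nat_lit 5495) (nat_lit 11) (nat_lit 12))
    (@En.n l15323 (nat_lit 9062) (nat_lit 11) (nat_lit 3))
    (@En.n l26378 (nat_lit 9925) (nat_lit 0) (nat_lit 7))
    (@En.n l31977 (nat_lit 8519) (nat_lit 14) (nat_lit 10))
    (@En.n l41049 (nat_lit 9066) (nat_lit 2) (nat_lit 13))
    (@En.n l17 (nat_lit 9061) (nat_lit 15) (nat_lit 2))))
  (@Cl.mk (nat_lit 0x2000d0006000b0003000c0009000c00050004000b0004000a0007000e0005) (nat_lit 0x801013700408050) (nat_lit 16) Lb.e (@T16.mk En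
    (@En.n l33179 (nat_lit 9055) (nat_lit 4) (nat_lit 5))
    (@En.i (nat_lit 8098) (nat_lit 1) (nat_lit 14))
    (@En.n l34606 (nat_lit 9063) (nat_lit 2) (nat_lit 7))
    (@En.n l28874 (nat_lit 8585) (nat_lit 3) (nat_lit 10))
    (@En.n l28875 (nat_lit 9052) (nat_lit 4) (nat_lit 4))
    (@En.n l11008 (nat_lit 8454) (nat_lit 10) (nat_lit 11))
    (@En.i (nat_lit 12672) (nat_lit 6) (nat_lit 4))
    (@En.n l24589 (nat_lit 8587) (nat_lit 7) (nat_lit 5))
    (@En.n l28877 (nat_lit 12486) (nat_lit 9) (nat_lit 12))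
    (@En.n l3398 (nat_lit 6387) (nat_lit 10) (nat_lit 9))
    (@En.n l18989 (nat_lit 5987) (nat_lit 11) (nat_lit 12))
    (@En.n l34607 (nat_lit 9061) (nat_lit 11) (nat_lit 3))
    (@En.n l7457 (nat_lit 8888) (nat_lit 0) (nat_lit 11))
    (@En.n l34608 (nat_lit 11304) (nat_lit 14) (nat_lit 6))
    (@En.n l17555 (nat_lit 9067) (nat_lit 2) (nat_lit 13))
    (@En.n l17 (nat_lit 9062) (nat_lit 15) (nat_lit 2))))
  (@Cl.mk (nat_lit 0x2000d000b000a0003000b00090005000c00060005000c00040007000e0004) (nat_lit 0xa54094080010090) (nat_lit 16) Lb.e (@T16.mk En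
    (@En.n l34665 (nat_lit 9057) (nat_lit 4) (nat_lit 4))
    (@En.n l30874 (nat_lit 4338) (nat_lit 1) (nat_lit 14))
    (@En.n l34666 (nat_lit 2294) (nat_lit 11) (nat_lit 7))
    (@En.n l34667 (nat_lit 9053) (nat_lit 3) (nat_lit 4))
    (@En.i (nat_lit 8453) (nat_lit 9) (nat_lit 12))
    (@En.n l30874 (nat_lit 12670) (nat_lit 5) (nat_lit 5))
    (@En.n l34668 (nat_lit 8586) (nat_lit 6) (nat_lit 6))
    (@En.n l28173 (nat_lit 9062) (nat_lit 8) (nat_lit 12))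
    (@En.n l612 (nat_lit 9285) (nat_lit 8) (nat_lit 5))
    (@En.n l50 (nat_lit 6397) (nat_lit 10) (nat_lit 9))
    (@En.n l50 (nat_lit 7887) (nat_lit 11) (nat_lit 11))
    (@En.n l34669 (nat_lit 9060) (nat_lit 11) (nat_lit 3))
    (@En.n l34514 (nat_lit 8887) (nat_lit 0) (nat_lit 10))
    (@En.n l34670 (nat_lit 11047) (nat_lit 14) (nat_lit 11))
    (@En.n l34671 (nat_lit 9642) (nat_lit 2) (nat_lit 13))
    (@En.n l15467 (nat_lit 9063) (nat_lit 15) (nat_lit 2))))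
  (@Cl.mk (nat_lit 0x2000c00090007000c0004000c000a000400070004000c00090006000e0004) (nat_lit 0x860a0a300094090) (nat_lit 16) Lb.e (@T16.mk En
    (@En.n l28263 (nat_lit 9059) (nat_lit 15) (nat_lit 4))
    (@En.n l28615 (nat_lit 7281) (nat_lit 1) (nat_lit 14))
    (@En.n l27040 (nat_lit 2299) (nat_lit 2) (nat_lit 6))
    (@En.n l14477 (nat_lit 9836) (nat_lit 3) (nat_lit 9))
    (@En.n l1643 (nat_lit 9667) (nat_lit 5) (nat_lit 12))
    (@En.n l37119 (nat_lit 12719) (nat_lit 5) (nat_lit 4))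
    (@En.n l37120 (nat_lit 8231) (nat_lit 11) (nat_lit 7))
    (@En.n l13498 (nat_lit 12106) (nat_lit 7) (nat_lit 4))
    (@En.n l897 (nat_lit 6394) (nat_lit 9) (nat_lit 10))
    (@En.n l37121 (nat_lit 7605) (nat_lit 10) (nat_lit 12))
    (@En.n l22497 (nat_lit 8586) (nat_lit 10) (nat_lit 4))
    (@En.n l7 (nat_lit 9060) (nat_lit 12) (nat_lit 12))
    (@En.n l3428 (nat_lit 9043) (nat_lit 13) (nat_lit 7))
    (@En.n l18886 (nat_lit 8516) (nat_lit 14) (nat_lit 9))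
    (@En.i (nat_lit 9783) (nat_lit 3) (nat_lit 12))
    (@En.n l17 (nat_lit 9064) (nat_lit 15) (nat_lit 2))))
  (@Cl.mk (nat_lit 0x30006000b00090005000c00080005000c00040007000a0004000d0008000b) (nat_lit 0x740a5080030856) (nat_lit 16) Lb.e (@T16.mk En
    (@En.n l1643 (nat_lit 8553) (nat_lit 0) (nat_lit 11))
    (@En.n l16345 (nat_lit 9427) (nat_lit 14) (nat_lit 8))
    (@En.i (nat_lit 9651) (nat_lit 2) (nat_lit 13))
    (@En.i (nat_lit 9655) (nat_lit 3) (nat_lit 4))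
    (@En.n l19840 (nat_lit 10015) (nat_lit 8) (nat_lit 10))
    (@En.n l4758 (nat_lit 2582) (nat_lit 11) (nat_lit 7))
    (@En.n l7650 (nat_lit 10668) (nat_lit 6) (nat_lit 4))
    (@En.n l1643 (nat_lit 9664) (nat_lit 0) (nat_lit 12))
    (@En.n l97 (nat_lit 10646) (nat_lit 1) (nat_lit 5))
    (@En.i (nat_lit 9783) (nat_lit 10) (nat_lit 8))
    (@En.n l41049 (nat_lit 9066) (nat_lit 11) (nat_lit 12))
    (@En.n l27817 (nat_lit 11781) (nat_lit 12) (nat_lit 5))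
    (@En.n l897 (nat_lit 9645) (nat_lit 13) (nat_lit 9))
    (@En.n l617 (nat_lit 9058) (nat_lit 14) (nat_lit 11))
    (@En.i (nat_lit 10969) (nat_lit 12) (nat_lit 6))
    (@En.n l34513 (nat_lit 9642) (nat_lit 15) (nat_lit 3))))
  (@Cl.mk (nat_lit 0x30006000c0009000c00070004000b0004000a0007000a0005000d00090006) (nat_lit 0x73900704040850) (nat_lit 16) Lb.e (@T16.mk En
    (@En.n l10573 (nat_lit 10757) (nat_lit 0) (nat_lit 6))
    (@En.n l61 (nat_lit 9426) (nat_lit 14) (nat_lit 9))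
    (@En.n l28839 (nat_lit 9653) (nat_lit 2) (nat_lit 13))
    (@En.n l42150 (nat_lit 9871) (nat_lit 3) (nat_lit 5))
    (@En.i (nat_lit 9159) (nat_lit 8) (nat_lit 10))
    (@En.n l18108 (nat_lit 9065) (nat_lit 5) (nat_lit 7))
    (@En.n l42151 (nat_lit 9783) (nat_lit 7) (nat_lit 10))
    (@En.n l42152 (nat_lit 10670) (nat_lit 7) (nat_lit 4))
    (@En.n l17809 (nat_lit 9669) (nat_lit 9) (nat_lit 11))
    (@En.i (nat_lit 10649) (nat_lit 9) (nat_lit 4))
    (@En.n l9885 (nat_lit 9125) (nat_lit 0) (nat_lit 7))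
    (@En.n l42153 (nat_lit 11160) (nat_lit 6) (nat_lit 12))
    (@En.n l42154 (nat_lit 9647) (nat_lit 13) (nat_lit 9))
    (@En.n l42155 (nat_lit 9056) (nat_lit 14) (nat_lit 12))
    (@En.n l21668 (nat_lit 11180) (nat_lit 12) (nat_lit 6))
    (@En.n l21425 (nat_lit 9067) (nat_lit 15) (nat_lit 3))))
  (@Cl.mk (nat_lit 0x30006000c0009000c00060004000b0004000b0007000a0005000d0005000a) (nat_lit 0x74900109040707) (nat_lit 16) Lb.e (@T16.mk En
    (@En.n l31650 (nat_lit 8468) (nat_lit 0) (nat_lit 10))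
    (@En.n l24858 (nat_lit 11854) (nat_lit 7) (nat_lit 5))
    (@En.n l4810 (nat_lit 9652) (nat_lit 2) (nat_lit 13))
    (@En.n l40266 (nat_lit 9671) (nat_lit 3) (nat_lit 5))
    (@En.n l2642 (nat_lit 9158) (nat_lit 8) (nat_lit 10))
    (@En.n l22505 (nat_lit 9642) (nat_lit 5) (nat_lit 7))
    (@En.n l40267 (nat_lit 8420) (nat_lit 7) (nat_lit 11))
    (@En.n l40268 (nat_lit 10676) (nat_lit 7) (nat_lit 4))
    (@En.n l22503 (nat_lit 8456) (nat_lit 9) (nat_lit 11))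
    (@En.i (nat_lit 9683) (nat_lit 9) (nat_lit 4))
    (@En.n l40269 (nat_lit 8435) (nat_lit 0) (nat_lit 6))
    (@En.n l3699 (nat_lit 12425) (nat_lit 6) (nat_lit 12))
    (@En.n l40270 (nat_lit 9646) (nat_lit 13) (nat_lit 9))
    (@En.n l3230 (nat_lit 9055) (nat_lit 14) (nat_lit 12))
    (@En.n l1081 (nat_lit 7470) (nat_lit 12) (nat_lit 6))
    (@En.n l9309 (nat_lit 9066) (nat_lit 15) (nat_lit 3))))
  (@Cl.mk (nat_lit 0x30009000c00080006000b0004000b0007000a000500080005000d000a0006) (nat_lit 0x573060104040750) (nat_lit 16) Lb.e (@T16.mk En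
    (@En.n l27040 (nat_lit 1472) (nat_lit 0) (nat_lit 6))
    (@En.n l14477 (nat_lit 9426) (nat_lit 12) (nat_lit 10))
    (@En.n l1643 (nat_lit 5964) (nat_lit 2) (nat_lit 13))
    (@En.n l37713 (nat_lit 10303) (nat_lit 3) (nat_lit 5))
    (@En.n l36941 (nat_lit 8227) (nat_lit 10) (nat_lit 8))
    (@En.n l26274 (nat_lit 9670) (nat_lit 5) (nat_lit 5))
    (@En.i (nat_lit 9064) (nat_lit 8) (nat_lit 10))
    (@En.n l37714 (nat_lit 8407) (nat_lit 7) (nat_lit 7))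
    (@En.n l37121 (nat_lit 8426) (nat_lit 9) (nat_lit 11))
    (@En.n l12278 (nat_lit 9019) (nat_lit 9) (nat_lit 4))
    (@En.n l7 (nat_lit 8437) (nat_lit 0) (nat_lit 11))
    (@En.n l28615 (nat_lit 8792) (nat_lit 1) (nat_lit 6))
    (@En.n l18886 (nat_lit 9588) (nat_lit 13) (nat_lit 8))
    (@En.n l36941 (nat_lit 8567) (nat_lit 6) (nat_lit 12))
    (@En.n l25543 (nat_lit 8391) (nat_lit 4) (nat_lit 9))
    (@En.n l28263 (nat_lit 9069) (nat_lit 15) (nat_lit 3))))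
  (@Cl.mk (nat_lit 0x30009000c00080005000b0004000b0007000b000500080005000d0005000b) (nat_lit 0x473080002040701) (nat_lit 16) Lb.e (@T16.mk En
    (@En.n l13303 (nat_lit 8199) (nat_lit 0) (nat_lit 11))
    (@En.n l41355 (nat_lit 8391) (nat_lit 7) (nat_lit 5))
    (@En.n l41356 (nat_lit 6647) (nat_lit 2) (nat_lit 13))
    (@En.n l16710 (nat_lit 10304) (nat_lit 3) (nat_lit 5))
    (@En.n l41355 (nat_lit 8351) (nat_lit 10) (nat_lit 8))
    (@En.n l21784 (nat_lit 9655) (nat_lit 5) (nat_lit 5))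
    (@En.i (nat_lit 9177) (nat_lit 8) (nat_lit 11))
    (@En.n l41357 (nat_lit 9070) (nat_lit 7) (nat_lit 7))
    (@En.n l41358 (nat_lit 9073) (nat_lit 9) (nat_lit 11))
    (@En.n l16710 (nat_lit 9895) (nat_lit 9) (nat_lit 4))
    (@En.n l41359 (nat_lit 9071) (nat_lit 0) (nat_lit 11))
    (@En.n l3928 (nat_lit 11883) (nat_lit 1) (nat_lit 5))
    (@En.i (nat_lit 9079) (nat_lit 13) (nat_lit 8))
    (@En.n l10937 (nat_lit 8568) (nat_lit 6) (nat_lit 12))
    (@En.n l10938 (nat_lit 10860) (nat_lit 2) (nat_lit 9))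
    (@En.n l22397 (nat_lit 9068) (nat_lit 15) (nat_lit 3))))
  (@Cl.mk (nat_lit 0x300090006000c00090006000c00040007000b00040007000a000d0005000a) (nat_lit 0x408409001003601) (nat_lit 16) Lb.e (@T16.mk En
    (@En.n l387 (nat_lit 8196) (nat_lit 0) (nat_lit 10))
    (@En.n l18910 (nat_lit 8390) (nat_lit 8) (nat_lit 5))
    (@En.i (nat_lit 6652) (nat_lit 5) (nat_lit 13))
    (@En.i (nat_lit 7357) (nat_lit 8) (nat_lit 10))
    (@En.n l2373 (nat_lit 8410) (nat_lit 11) (nat_lit 7))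
    (@En.n l33689 (nat_lit 9651) (nat_lit 5) (nat_lit 4))
    (@En.n l3328 (nat_lit 8242) (nat_lit 0) (nat_lit 11))
    (@En.i (nat_lit 5422) (nat_lit 11) (nat_lit 7))
    (@En.n l4714 (nat_lit 9896) (nat_lit 8) (nat_lit 4))
    (@En.n l617 (nat_lit 9072) (nat_lit 0) (nat_lit 12))
    (@En.n l3480 (nat_lit 11882) (nat_lit 1) (nat_lit 6))
    (@En.n l35936 (nat_lit 9073) (nat_lit 12) (nat_lit 9))
    (@En.n l43413 (nat_lit 9069) (nat_lit 13) (nat_lit 12))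
    (@En.n l15957 (nat_lit 9074) (nat_lit 14) (nat_lit 6))
    (@En.n l33657 (nat_lit 7554) (nat_lit 5) (nat_lit 9))
    (@En.n l2199 (nat_lit 8407) (nat_lit 15) (nat_lit 3))))
  (@Cl.mk (nat_lit 0x3000a0006000a0005000b00080006000d000600050003000a000d0008000b) (nat_lit 0x8055080004637) (nat_lit 16) Lb.e (@T16.mk En
    (@En.n l5395 (nat_lit 9237) (nat_lit 7) (nat_lit 11))
    (@En.n l28584 (nat_lit 9080) (nat_lit 13) (nat_lit 8))
    (@En.n l3839 (nat_lit 8574) (nat_lit 5) (nat_lit 13))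
    (@En.n l6080 (nat_lit 10861) (nat_lit 3) (nat_lit 10))
    (@En.n l25666 (nat_lit 8437) (nat_lit 4) (nat_lit 3))
    (@En.n l18 (nat_lit 11721) (nat_lit 0) (nat_lit 5))
    (@En.n l28585 (nat_lit 8817) (nat_lit 6) (nat_lit 6))
    (@En.n l5395 (nat_lit 6651) (nat_lit 8) (nat_lit 13))
    (@En.n l1578 (nat_lit 10539) (nat_lit 3) (nat_lit 6))
    (@En.n l28586 (nat_lit 9069) (nat_lit 4) (nat_lit 8))
    (@En.n l28587 (nat_lit 9432) (nat_lit 11) (nat_lit 11))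
    (@En.n l28588 (nat_lit 9871) (nat_lit 6) (nat_lit 5))
    (@En.n l25666 (nat_lit 10139) (nat_lit 13) (nat_lit 10))
    (@En.n l107 (nat_lit 9072) (nat_lit 14) (nat_lit 6))
    (@En.n l575 (nat_lit 9075) (nat_lit 10) (nat_lit 10))
    (@En.n l28589 (nat_lit 8786) (nat_lit 15) (nat_lit 3))))
noncomputable def a567 : T16 Cl := @T16.mk Cl
  (@Cl.mk (nat_lit 0x30006000a0004000b0007000a000d000600050003000a0006000d0009000c) (nat_lit 0x10404700050748) (nat_lit 16) Lb.e (@T16.mk En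
    (@En.n l5395 (nat_lit 9232) (nat_lit 0) (nat_lit 12))
    (@En.i (nat_lit 9075) (nat_lit 12) (nat_lit 9))
    (@En.i (nat_lit 9071) (nat_lit 2) (nat_lit 13))
    (@En.n l23504 (nat_lit 9076) (nat_lit 14) (nat_lit 6))
    (@En.n l6080 (nat_lit 7552) (nat_lit 4) (nat_lit 10))
    (@En.n l5331 (nat_lit 8433) (nat_lit 5) (nat_lit 3))
    (@En.n l18 (nat_lit 10761) (nat_lit 0) (nat_lit 5))
    (@En.n l6081 (nat_lit 8816) (nat_lit 7) (nat_lit 6))
    (@En.i (nat_lit 6653) (nat_lit 5) (nat_lit 13))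
    (@En.i (nat_lit 7223) (nat_lit 8) (nat_lit 10))
    (@En.n l61 (nat_lit 9070) (nat_lit 4) (nat_lit 7))
    (@En.i (nat_lit 9433) (nat_lit 12) (nat_lit 11))
    (@En.i (nat_lit 9653) (nat_lit 6) (nat_lit 4))
    (@En.n l25666 (nat_lit 8244) (nat_lit 9) (nat_lit 10))
    (@En.i (nat_lit 5426) (nat_lit 12) (nat_lit 6))
    (@En.n l1430 (nat_lit 8785) (nat_lit 15) (nat_lit 3))))
  (@Cl.mk (nat_lit 0x3000a000600090005000c000b0006000a000400070005000a000d0006000b) (nat_lit 0x503089010004701) (nat_lit 16) Lb.e (@T16.mk En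
    (@En.n l9385 (nat_lit 8197) (nat_lit 0) (nat_lit 11))
    (@En.i (nat_lit 8393) (nat_lit 3) (nat_lit 6))
    (@En.n l9103 (nat_lit 9559) (nat_lit 5) (nat_lit 13))
    (@En.n l38238 (nat_lit 9070) (nat_lit 3) (nat_lit 10))
    (@En.n l23906 (nat_lit 9490) (nat_lit 4) (nat_lit 5))
    (@En.n l2642 (nat_lit 8411) (nat_lit 11) (nat_lit 7))
    (@En.n l1080 (nat_lit 9650) (nat_lit 6) (nat_lit 4))
    (@En.n l9103 (nat_lit 7620) (nat_lit 0) (nat_lit 10))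
    (@En.n l22097 (nat_lit 5423) (nat_lit 1) (nat_lit 6))
    (@En.n l55 (nat_lit 10665) (nat_lit 5) (nat_lit 11))
    (@En.n l42250 (nat_lit 9075) (nat_lit 11) (nat_lit 12))
    (@En.n l14619 (nat_lit 9570) (nat_lit 4) (nat_lit 5))
    (@En.n l2642 (nat_lit 9596) (nat_lit 9) (nat_lit 9))
    (@En.n l37431 (nat_lit 9078) (nat_lit 14) (nat_lit 6))
    (@En.n l42251 (nat_lit 7555) (nat_lit 2) (nat_lit 10))
    (@En.n l2869 (nat_lit 8426) (nat_lit 15) (nat_lit 3))))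
  (@Cl.mk (nat_lit 0x30006000c00090005000c0004000b000a00040007000a0005000d0006000b) (nat_lit 0x83030810030701) (nat_lit 16) Lb.e (@T16.mk En
    (@En.n l30432 (nat_lit 8198) (nat_lit 0) (nat_lit 11))
    (@En.n l28 (nat_lit 8823) (nat_lit 7) (nat_lit 6))
    (@En.n l11835 (nat_lit 9070) (nat_lit 2) (nat_lit 13))
    (@En.n l24372 (nat_lit 9069) (nat_lit 3) (nat_lit 5))
    (@En.i (nat_lit 7356) (nat_lit 8) (nat_lit 10))
    (@En.n l22472 (nat_lit 8352) (nat_lit 11) (nat_lit 7))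
    (@En.n l42075 (nat_lit 9065) (nat_lit 6) (nat_lit 4))
    (@En.n l77 (nat_lit 8243) (nat_lit 0) (nat_lit 10))
    (@En.n l30432 (nat_lit 10357) (nat_lit 1) (nat_lit 11))
    (@En.n l6680 (nat_lit 9897) (nat_lit 9) (nat_lit 4))
    (@En.n l17 (nat_lit 9076) (nat_lit 11) (nat_lit 12))
    (@En.n l18910 (nat_lit 11880) (nat_lit 1) (nat_lit 5))
    (@En.n l24372 (nat_lit 9078) (nat_lit 13) (nat_lit 9))
    (@En.n l29959 (nat_lit 8572) (nat_lit 14) (nat_lit 12))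
    (@En.n l387 (nat_lit 5166) (nat_lit 12) (nat_lit 6))
    (@En.i (nat_lit 8436) (nat_lit 15) (nat_lit 3))))
  (@Cl.mk (nat_lit 0x3000b00060009000c000a000500090004000a00070006000a000d00070006) (nat_lit 0x503780104005800) (nat_lit 16) Lb.e (@T16.mk En
    (@En.n l18 (nat_lit 11724) (nat_lit 0) (nat_lit 6))
    (@En.n l6081 (nat_lit 8432) (nat_lit 0) (nat_lit 7))
    (@En.n l4377 (nat_lit 9558) (nat_lit 5) (nat_lit 13))
    (@En.n l11 (nat_lit 9072) (nat_lit 9) (nat_lit 10))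
    (@En.n l4377 (nat_lit 8785) (nat_lit 10) (nat_lit 6))
    (@En.n l38086 (nat_lit 9073) (nat_lit 5) (nat_lit 7))
    (@En.n l8600 (nat_lit 9434) (nat_lit 7) (nat_lit 10))
    (@En.n l24082 (nat_lit 9649) (nat_lit 7) (nat_lit 4))
    (@En.n l25666 (nat_lit 8248) (nat_lit 10) (nat_lit 9))
    (@En.n l5732 (nat_lit 5427) (nat_lit 1) (nat_lit 5))
    (@En.n l33165 (nat_lit 12160) (nat_lit 11) (nat_lit 10))
    (@En.n l13822 (nat_lit 12225) (nat_lit 6) (nat_lit 12))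
    (@En.n l40186 (nat_lit 9597) (nat_lit 9) (nat_lit 9))
    (@En.n l40187 (nat_lit 9077) (nat_lit 14) (nat_lit 6))
    (@En.n l6080 (nat_lit 7553) (nat_lit 0) (nat_lit 11))
    (@En.n l4862 (nat_lit 8430) (nat_lit 15) (nat_lit 3))))
  (@Cl.mk (nat_lit 0x30006000d0009000c0003000a00090004000a0007000a0006000d00070006) (nat_lit 0x73207103050800) (nat_lit 16) Lb.e (@T16.mk En
    (@En.n l11150 (nat_lit 11725) (nat_lit 0) (nat_lit 6))
    (@En.n l14061 (nat_lit 8818) (nat_lit 6) (nat_lit 7))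
    (@En.n l24642 (nat_lit 9072) (nat_lit 8) (nat_lit 13))
    (@En.n l40188 (nat_lit 9071) (nat_lit 8) (nat_lit 6))
    (@En.i (nat_lit 7374) (nat_lit 8) (nat_lit 10))
    (@En.i (nat_lit 9074) (nat_lit 5) (nat_lit 7))
    (@En.n l4204 (nat_lit 9435) (nat_lit 12) (nat_lit 10))
    (@En.n l4315 (nat_lit 9066) (nat_lit 7) (nat_lit 4))
    (@En.n l77 (nat_lit 8245) (nat_lit 7) (nat_lit 9))
    (@En.n l28400 (nat_lit 10358) (nat_lit 10) (nat_lit 10))
    (@En.n l40189 (nat_lit 8787) (nat_lit 10) (nat_lit 3))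
    (@En.n l10036 (nat_lit 9236) (nat_lit 0) (nat_lit 12))
    (@En.n l28511 (nat_lit 9077) (nat_lit 13) (nat_lit 9))
    (@En.n l28191 (nat_lit 8575) (nat_lit 2) (nat_lit 13))
    (@En.n l11153 (nat_lit 5164) (nat_lit 12) (nat_lit 6))
    (@En.n l20262 (nat_lit 8434) (nat_lit 15) (nat_lit 3))))
  (@Cl.mk (nat_lit 0x300060009000c000a000900080004000900070006000a0007000d00080007) (nat_lit 0x28761030060910) (nat_lit 16) Lb.e (@T16.mk En
    (@En.n l22616 (nat_lit 11734) (nat_lit 0) (nat_lit 7))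
    (@En.n l26175 (nat_lit 8821) (nat_lit 2) (nat_lit 8))
    (@En.n l26176 (nat_lit 9075) (nat_lit 2) (nat_lit 13))
    (@En.i (nat_lit 9080) (nat_lit 3) (nat_lit 7))
    (@En.n l26177 (nat_lit 9076) (nat_lit 4) (nat_lit 10))
    (@En.n l26178 (nat_lit 8787) (nat_lit 5) (nat_lit 6))
    (@En.n l17 (nat_lit 9078) (nat_lit 6) (nat_lit 7))
    (@En.i (nat_lit 9439) (nat_lit 8) (nat_lit 9))
    (@En.n l1055 (nat_lit 9647) (nat_lit 8) (nat_lit 4))
    (@En.n l26178 (nat_lit 8247) (nat_lit 8) (nat_lit 8))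
    (@En.n l26179 (nat_lit 10360) (nat_lit 11) (nat_lit 9))
    (@En.n l22618 (nat_lit 12159) (nat_lit 12) (nat_lit 10))
    (@En.n l26180 (nat_lit 12226) (nat_lit 6) (nat_lit 12))
    (@En.n l7889 (nat_lit 7492) (nat_lit 9) (nat_lit 9))
    (@En.n l26181 (nat_lit 5165) (nat_lit 12) (nat_lit 6))
    (@En.n l6388 (nat_lit 8429) (nat_lit 15) (nat_lit 3))))
  (@Cl.mk (nat_lit 0x3000600090004000c000b000a0009000400070005000a0006000d0007000c) (nat_lit 0x20987100040802) (nat_lit 16) Lb.e (@T16.mk En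
    (@En.n l14752 (nat_lit 8550) (nat_lit 0) (nat_lit 12))
    (@En.i (nat_lit 8826) (nat_lit 4) (nat_lit 7))
    (@En.n l40086 (nat_lit 9073) (nat_lit 2) (nat_lit 13))
    (@En.i (nat_lit 9079) (nat_lit 3) (nat_lit 6))
    (@En.n l8484 (nat_lit 9074) (nat_lit 4) (nat_lit 10))
    (@En.n l6826 (nat_lit 9496) (nat_lit 5) (nat_lit 5))
    (@En.n l23891 (nat_lit 8353) (nat_lit 11) (nat_lit 7))
    (@En.n l1055 (nat_lit 9645) (nat_lit 7) (nat_lit 4))
    (@En.n l55 (nat_lit 7619) (nat_lit 0) (nat_lit 9))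
    (@En.n l31115 (nat_lit 9666) (nat_lit 1) (nat_lit 10))
    (@En.n l16898 (nat_lit 10666) (nat_lit 11) (nat_lit 11))
    (@En.i (nat_lit 9077) (nat_lit 12) (nat_lit 12))
    (@En.n l4172 (nat_lit 9715) (nat_lit 13) (nat_lit 4))
    (@En.n l7889 (nat_lit 7495) (nat_lit 9) (nat_lit 9))
    (@En.n l4172 (nat_lit 5171) (nat_lit 12) (nat_lit 6))
    (@En.n l16902 (nat_lit 8427) (nat_lit 15) (nat_lit 3))))
  (@Cl.mk (nat_lit 0x3000a00080004000b000a000a0006000a0005000800060006000d0006000c) (nat_lit 0x420700030500802) (nat_lit 16) Lb.e (@T16.mk En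
    (@En.n l6451 (nat_lit 8957) (nat_lit 0) (nat_lit 12))
    (@En.i (nat_lit 9590) (nat_lit 4) (nat_lit 6))
    (@En.n l134 (nat_lit 9270) (nat_lit 2) (nat_lit 13))
    (@En.n l11 (nat_lit 9081) (nat_lit 10) (nat_lit 6))
    (@En.n l16710 (nat_lit 9495) (nat_lit 4) (nat_lit 6))
    (@En.i (nat_lit 8218) (nat_lit 10) (nat_lit 8))
    (@En.n l16802 (nat_lit 9656) (nat_lit 6) (nat_lit 5))
    (@En.i (nat_lit 8498) (nat_lit 9) (nat_lit 10))
    (@En.n l30437 (nat_lit 9073) (nat_lit 8) (nat_lit 6))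
    (@En.n l8009 (nat_lit 9596) (nat_lit 6) (nat_lit 10))
    (@En.n l40702 (nat_lit 10948) (nat_lit 6) (nat_lit 10))
    (@En.i (nat_lit 9080) (nat_lit 12) (nat_lit 11))
    (@En.n l4172 (nat_lit 9454) (nat_lit 13) (nat_lit 4))
    (@En.n l8008 (nat_lit 6823) (nat_lit 14) (nat_lit 8))
    (@En.n l4172 (nat_lit 8183) (nat_lit 1) (nat_lit 10))
    (@En.i (nat_lit 9588) (nat_lit 15) (nat_lit 3))))
  (@Cl.mk (nat_lit 0x3000b0008000b00090009000500090005000a000800070007000d00070006) (nat_lit 0x426000106600900) (nat_lit 16) Lb.e (@T16.mk En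
    (@En.n l22616 (nat_lit 11512) (nat_lit 0) (nat_lit 6))
    (@En.n l29546 (nat_lit 9589) (nat_lit 0) (nat_lit 7))
    (@En.n l7814 (nat_lit 9269) (nat_lit 2) (nat_lit 13))
    (@En.n l29547 (nat_lit 9604) (nat_lit 9) (nat_lit 7))
    (@En.n l8682 (nat_lit 8786) (nat_lit 9) (nat_lit 7))
    (@En.n l17 (nat_lit 9079) (nat_lit 5) (nat_lit 8))
    (@En.i (nat_lit 9387) (nat_lit 10) (nat_lit 10))
    (@En.n l29548 (nat_lit 9389) (nat_lit 7) (nat_lit 5))
    (@En.i (nat_lit 8497) (nat_lit 10) (nat_lit 9))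
    (@En.n l29549 (nat_lit 9075) (nat_lit 9) (nat_lit 5))
    (@En.n l29550 (nat_lit 9597) (nat_lit 7) (nat_lit 9))
    (@En.n l8681 (nat_lit 12176) (nat_lit 12) (nat_lit 9))
    (@En.n l20621 (nat_lit 11747) (nat_lit 7) (nat_lit 11))
    (@En.n l8008 (nat_lit 6822) (nat_lit 14) (nat_lit 8))
    (@En.n l4172 (nat_lit 8185) (nat_lit 4) (nat_lit 11))
    (@En.n l29551 (nat_lit 9587) (nat_lit 15) (nat_lit 3))))
  (@Cl.mk (nat_lit 0x20007000b000600090006000d0005000c0003000900070004000a000e000a) (nat_lit 0x406090304007a1) (nat_lit 16) Lb.e (@T16.mk En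
    (@En.n l68 (nat_lit 9079) (nat_lit 10) (nat_lit 10))
    (@En.n l831 (nat_lit 11316) (nat_lit 1) (nat_lit 14))
    (@En.n l16934 (nat_lit 9604) (nat_lit 2) (nat_lit 10))
    (@En.n l3451 (nat_lit 9567) (nat_lit 3) (nat_lit 4))
    (@En.n l1068 (nat_lit 6827) (nat_lit 4) (nat_lit 7))
    (@En.n l4172 (nat_lit 9886) (nat_lit 5) (nat_lit 9))
    (@En.i (nat_lit 9602) (nat_lit 6) (nat_lit 3))
    (@En.n l5971 (nat_lit 9209) (nat_lit 0) (nat_lit 12))
    (@En.i (nat_lit 9603) (nat_lit 8) (nat_lit 5))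
    (@En.n l9751 (nat_lit 6881) (nat_lit 10) (nat_lit 13))
    (@En.n l830 (nat_lit 9961) (nat_lit 3) (nat_lit 6))
    (@En.n l8604 (nat_lit 8215) (nat_lit 12) (nat_lit 9))
    (@En.n l1055 (nat_lit 9867) (nat_lit 13) (nat_lit 6))
    (@En.i (nat_lit 8714) (nat_lit 14) (nat_lit 11))
    (@En.n l197 (nat_lit 9069) (nat_lit 7) (nat_lit 7))
    (@En.n l67 (nat_lit 9081) (nat_lit 15) (nat_lit 2))))
  (@Cl.mk (nat_lit 0x2000a000d000b00080003000c00060005000c0004000c00080004000e0004) (nat_lit 0x7815040010a3090) (nat_lit 16) Lb.e (@T16.mk En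
    (@En.n l50 (nat_lit 8656) (nat_lit 5) (nat_lit 4))
    (@En.n l16425 (nat_lit 5625) (nat_lit 1) (nat_lit 14))
    (@En.n l15575 (nat_lit 4338) (nat_lit 2) (nat_lit 4))
    (@En.i (nat_lit 11285) (nat_lit 3) (nat_lit 8))
    (@En.n l10179 (nat_lit 10169) (nat_lit 10) (nat_lit 12))
    (@En.n l15575 (nat_lit 10217) (nat_lit 5) (nat_lit 4))
    (@En.n l33403 (nat_lit 7398) (nat_lit 7) (nat_lit 12))
    (@En.i (nat_lit 7770) (nat_lit 7) (nat_lit 5))
    (@En.n l18185 (nat_lit 8660) (nat_lit 8) (nat_lit 6))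
    (@En.n l28094 (nat_lit 7807) (nat_lit 10) (nat_lit 12))
    (@En.n l3536 (nat_lit 8661) (nat_lit 10) (nat_lit 3))
    (@En.n l265 (nat_lit 10803) (nat_lit 12) (nat_lit 8))
    (@En.n l21946 (nat_lit 7343) (nat_lit 13) (nat_lit 11))
    (@En.n l3866 (nat_lit 7413) (nat_lit 5) (nat_lit 13))
    (@En.i (nat_lit 8772) (nat_lit 3) (nat_lit 10))
    (@En.n l18 (nat_lit 9082) (nat_lit 15) (nat_lit 2))))
  (@Cl.mk (nat_lit 0x3000a000d000b00060003000c00060005000d0004000c0003000d000a0004) (nat_lit 0x78400300a0a0b60) (nat_lit 16) Lb.e (@T16.mk En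
    (@En.i (nat_lit 9082) (nat_lit 0) (nat_lit 4))
    (@En.n l61 (nat_lit 11841) (nat_lit 14) (nat_lit 10))
    (@En.i (nat_lit 5536) (nat_lit 1) (nat_lit 13))
    (@En.i (nat_lit 9084) (nat_lit 3) (nat_lit 3))
    (@En.i (nat_lit 10239) (nat_lit 0) (nat_lit 12))
    (@En.n l1236 (nat_lit 10216) (nat_lit 5) (nat_lit 4))
    (@En.n l13109 (nat_lit 10826) (nat_lit 2) (nat_lit 13))
    (@En.i (nat_lit 10193) (nat_lit 11) (nat_lit 5))
    (@En.n l936 (nat_lit 9086) (nat_lit 14) (nat_lit 6))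
    (@En.i (nat_lit 10472) (nat_lit 10) (nat_lit 12))
    (@En.n l3536 (nat_lit 9085) (nat_lit 10) (nat_lit 3))
    (@En.n l117 (nat_lit 11897) (nat_lit 0) (nat_lit 6))
    (@En.n l68 (nat_lit 8492) (nat_lit 13) (nat_lit 11))
    (@En.n l3866 (nat_lit 8530) (nat_lit 5) (nat_lit 13))
    (@En.i (nat_lit 10684) (nat_lit 11) (nat_lit 10))
    (@En.n l18 (nat_lit 9087) (nat_lit 15) (nat_lit 3))))
  (@Cl.mk (nat_lit 0x3000a000d000b00060003000b00060005000d000b00050003000d000a0005) (nat_lit 0x59400500a200200) (nat_lit 16) Lb.e (@T16.mk En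
    (@En.n l15575 (nat_lit 7125) (nat_lit 0) (nat_lit 5))
    (@En.n l61 (nat_lit 9733) (nat_lit 14) (nat_lit 10))
    (@En.n l5369 (nat_lit 10316) (nat_lit 2) (nat_lit 13))
    (@En.n l7 (nat_lit 9083) (nat_lit 3) (nat_lit 3))
    (@En.n l3503 (nat_lit 10222) (nat_lit 0) (nat_lit 5))
    (@En.i (nat_lit 8656) (nat_lit 11) (nat_lit 11))
    (@En.n l13109 (nat_lit 10829) (nat_lit 2) (nat_lit 13))
    (@En.i (nat_lit 10196) (nat_lit 11) (nat_lit 5))
    (@En.n l24682 (nat_lit 9092) (nat_lit 14) (nat_lit 6))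
    (@En.i (nat_lit 10478) (nat_lit 10) (nat_lit 11))
    (@En.n l3536 (nat_lit 9094) (nat_lit 10) (nat_lit 3))
    (@En.n l117 (nat_lit 11898) (nat_lit 0) (nat_lit 6))
    (@En.n l68 (nat_lit 8489) (nat_lit 13) (nat_lit 11))
    (@En.n l3866 (nat_lit 8491) (nat_lit 5) (nat_lit 13))
    (@En.i (nat_lit 10688) (nat_lit 11) (nat_lit 10))
    (@En.n l18 (nat_lit 8549) (nat_lit 15) (nat_lit 3))))
  (@Cl.mk (nat_lit 0x3000a000d0005000c0003000c00060004000d0004000c0003000d000b0004) (nat_lit 0x6801000030a0b20) (nat_lit 16) Lb.e (@T16.mk En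
    (@En.i (nat_lit 8661) (nat_lit 0) (nat_lit 4))
    (@En.n l644 (nat_lit 10287) (nat_lit 14) (nat_lit 11))
    (@En.i (nat_lit 5562) (nat_lit 1) (nat_lit 13))
    (@En.i (nat_lit 9094) (nat_lit 3) (nat_lit 3))
    (@En.i (nat_lit 10238) (nat_lit 0) (nat_lit 12))
    (@En.n l117 (nat_lit 9151) (nat_lit 5) (nat_lit 4))
    (@En.i (nat_lit 10818) (nat_lit 2) (nat_lit 13))
    (@En.n l3480 (nat_lit 8307) (nat_lit 1) (nat_lit 4))
    (@En.i (nat_lit 9089) (nat_lit 14) (nat_lit 6))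
    (@En.i (nat_lit 9138) (nat_lit 10) (nat_lit 12))
    (@En.n l6081 (nat_lit 9083) (nat_lit 10) (nat_lit 3))
    (@En.i (nat_lit 3582) (nat_lit 0) (nat_lit 12))
    (@En.i (nat_lit 9172) (nat_lit 8) (nat_lit 5))
    (@En.i (nat_lit 8529) (nat_lit 5) (nat_lit 13))
    (@En.i (nat_lit 9683) (nat_lit 11) (nat_lit 10))
    (@En.n l7 (nat_lit 8600) (nat_lit 15) (nat_lit 3))))
  (@Cl.mk (nat_lit 0x300060004000d0008000c0003000d000900040003000a0008000d000c0007) (nat_lit 0x2380160026950) (nat_lit 16) Lb.e (@T16.mk En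
    (@En.n l265 (nat_lit 11900) (nat_lit 0) (nat_lit 7))
    (@En.n l68 (nat_lit 8699) (nat_lit 12) (nat_lit 12))
    (@En.i (nat_lit 9083) (nat_lit 13) (nat_lit 13))
    (@En.n l1769 (nat_lit 9150) (nat_lit 14) (nat_lit 8))
    (@En.i (nat_lit 10681) (nat_lit 11) (nat_lit 10))
    (@En.n l18 (nat_lit 9088) (nat_lit 5) (nat_lit 3))
    (@En.n l10179 (nat_lit 8660) (nat_lit 0) (nat_lit 4))
    (@En.n l61 (nat_lit 11842) (nat_lit 14) (nat_lit 9))
    (@En.n l25090 (nat_lit 5531) (nat_lit 1) (nat_lit 13))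
    (@En.n l15710 (nat_lit 9092) (nat_lit 9) (nat_lit 3))
    (@En.n l10179 (nat_lit 10237) (nat_lit 0) (nat_lit 12))
    (@En.n l38975 (nat_lit 10458) (nat_lit 12) (nat_lit 8))
    (@En.n l29431 (nat_lit 10825) (nat_lit 13) (nat_lit 13))
    (@En.i (nat_lit 8701) (nat_lit 7) (nat_lit 4))
    (@En.n l10179 (nat_lit 11018) (nat_lit 12) (nat_lit 6))
    (@En.n l29436 (nat_lit 9089) (nat_lit 15) (nat_lit 3))))
  (@Cl.mk (nat_lit 0x3000a000d000b00050003000c00060005000d0004000d0003000d0003000b) (nat_lit 0x6a200200b080b00) (nat_lit 16) Lb.e (@T16.mk En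
    (@En.i (nat_lit 9561) (nat_lit 0) (nat_lit 11))
    (@En.i (nat_lit 8604) (nat_lit 15) (nat_lit 3))
    (@En.i (nat_lit 5624) (nat_lit 0) (nat_lit 13))
    (@En.i (nat_lit 8549) (nat_lit 3) (nat_lit 3))
    (@En.i (nat_lit 6993) (nat_lit 0) (nat_lit 13))
    (@En.n l1236 (nat_lit 10173) (nat_lit 5) (nat_lit 4))
    (@En.n l17941 (nat_lit 10823) (nat_lit 2) (nat_lit 13))
    (@En.i (nat_lit 10190) (nat_lit 11) (nat_lit 5))
    (@En.n l936 (nat_lit 9088) (nat_lit 14) (nat_lit 6))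
    (@En.i (nat_lit 10471) (nat_lit 8) (nat_lit 12))
    (@En.n l3536 (nat_lit 8600) (nat_lit 10) (nat_lit 3))
    (@En.i (nat_lit 11904) (nat_lit 0) (nat_lit 5))
    (@En.n l68 (nat_lit 8488) (nat_lit 13) (nat_lit 11))
    (@En.n l3866 (nat_lit 8594) (nat_lit 5) (nat_lit 13))
    (@En.i (nat_lit 12405) (nat_lit 11) (nat_lit 10))
    (@En.i (nat_lit 9083) (nat_lit 15) (nat_lit 3))))
noncomputable def a568 : T16 Cl := @T16.mk Cl
  (@Cl.mk (nat_lit 0x300060004000d0008000d0003000d0003000a0003000a0008000d000c0006) (nat_lit 0x2270700025b30) (nat_lit 16) Lb.e (@T16.mk En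
    (@En.n l1992 (nat_lit 11905) (nat_lit 0) (nat_lit 6))
    (@En.n l68 (nat_lit 8700) (nat_lit 10) (nat_lit 12))
    (@En.i (nat_lit 9087) (nat_lit 13) (nat_lit 13))
    (@En.n l1769 (nat_lit 9194) (nat_lit 14) (nat_lit 8))
    (@En.n l10181 (nat_lit 12431) (nat_lit 11) (nat_lit 10))
    (@En.i (nat_lit 9086) (nat_lit 5) (nat_lit 3))
    (@En.n l1769 (nat_lit 9560) (nat_lit 0) (nat_lit 10))
    (@En.i (nat_lit 9091) (nat_lit 7) (nat_lit 3))
    (@En.n l10181 (nat_lit 5533) (nat_lit 0) (nat_lit 13))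
    (@En.n l10536 (nat_lit 8548) (nat_lit 9) (nat_lit 3))
    (@En.n l24087 (nat_lit 6992) (nat_lit 0) (nat_lit 13))
    (@En.i (nat_lit 10457) (nat_lit 12) (nat_lit 8))
    (@En.n l29431 (nat_lit 10824) (nat_lit 13) (nat_lit 13))
    (@En.i (nat_lit 8154) (nat_lit 5) (nat_lit 4))
    (@En.n l24084 (nat_lit 11016) (nat_lit 12) (nat_lit 6))
    (@En.n l29436 (nat_lit 9090) (nat_lit 15) (nat_lit 3))))
  (@Cl.mk (nat_lit 0x300060003000d0008000c0003000d000a00040003000a0008000d0006000d) (nat_lit 0x62a0970065901) (nat_lit 16) Lb.e (@T16.mk En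
    (@En.n l9269 (nat_lit 2327) (nat_lit 0) (nat_lit 13))
    (@En.i (nat_lit 10413) (nat_lit 7) (nat_lit 6))
    (@En.n l3 (nat_lit 9085) (nat_lit 13) (nat_lit 13))
    (@En.n l9309 (nat_lit 9140) (nat_lit 14) (nat_lit 8))
    (@En.n l2642 (nat_lit 9682) (nat_lit 4) (nat_lit 10))
    (@En.n l7 (nat_lit 9090) (nat_lit 5) (nat_lit 3))
    (@En.n l22402 (nat_lit 8659) (nat_lit 0) (nat_lit 4))
    (@En.n l644 (nat_lit 10289) (nat_lit 14) (nat_lit 10))
    (@En.n l2642 (nat_lit 5534) (nat_lit 1) (nat_lit 13))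
    (@En.n l20276 (nat_lit 9093) (nat_lit 9) (nat_lit 3))
    (@En.n l15957 (nat_lit 10235) (nat_lit 0) (nat_lit 12))
    (@En.n l15677 (nat_lit 10456) (nat_lit 12) (nat_lit 8))
    (@En.i (nat_lit 10819) (nat_lit 13) (nat_lit 13))
    (@En.n l21124 (nat_lit 8699) (nat_lit 7) (nat_lit 3))
    (@En.n l31693 (nat_lit 9115) (nat_lit 12) (nat_lit 6))
    (@En.n l37985 (nat_lit 9086) (nat_lit 15) (nat_lit 3))))
  (@Cl.mk (nat_lit 0x300060003000d0008000d0003000d0003000b0003000a0008000d0005000d) (nat_lit 0x63a0809071a01) (nat_lit 16) Lb.e (@T16.mk En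
    (@En.i (nat_lit 2331) (nat_lit 0) (nat_lit 13))
    (@En.i (nat_lit 11830) (nat_lit 9) (nat_lit 5))
    (@En.n l3 (nat_lit 8600) (nat_lit 13) (nat_lit 13))
    (@En.n l2642 (nat_lit 4335) (nat_lit 14) (nat_lit 8))
    (@En.n l2642 (nat_lit 11824) (nat_lit 11) (nat_lit 10))
    (@En.i (nat_lit 9089) (nat_lit 5) (nat_lit 3))
    (@En.i (nat_lit 9579) (nat_lit 0) (nat_lit 11))
    (@En.i (nat_lit 8605) (nat_lit 7) (nat_lit 3))
    (@En.n l2642 (nat_lit 5539) (nat_lit 0) (nat_lit 13))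
    (@En.i (nat_lit 8547) (nat_lit 9) (nat_lit 3))
    (@En.n l15957 (nat_lit 6987) (nat_lit 0) (nat_lit 13))
    (@En.i (nat_lit 10459) (nat_lit 12) (nat_lit 8))
    (@En.i (nat_lit 10821) (nat_lit 13) (nat_lit 13))
    (@En.n l21124 (nat_lit 8700) (nat_lit 5) (nat_lit 3))
    (@En.n l31693 (nat_lit 9113) (nat_lit 12) (nat_lit 6))
    (@En.n l37985 (nat_lit 9088) (nat_lit 15) (nat_lit 3))))
  (@Cl.mk (nat_lit 0x300060004000c0008000d000c00040003000a0004000a0008000d000c0006) (nat_lit 0xa379006074b30) (nat_lit 16) Lb.e (@T16.mk En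
    (@En.n l1992 (nat_lit 11907) (nat_lit 0) (nat_lit 6))
    (@En.n l68 (nat_lit 8702) (nat_lit 10) (nat_lit 12))
    (@En.i (nat_lit 8604) (nat_lit 11) (nat_lit 13))
    (@En.n l37185 (nat_lit 8603) (nat_lit 12) (nat_lit 8))
    (@En.n l30301 (nat_lit 12433) (nat_lit 4) (nat_lit 10))
    (@En.n l6319 (nat_lit 8655) (nat_lit 5) (nat_lit 4))
    (@En.n l27485 (nat_lit 9822) (nat_lit 0) (nat_lit 10))
    (@En.n l50 (nat_lit 9088) (nat_lit 7) (nat_lit 3))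
    (@En.n l37186 (nat_lit 12717) (nat_lit 0) (nat_lit 4))
    (@En.n l217 (nat_lit 9086) (nat_lit 10) (nat_lit 12))
    (@En.n l37187 (nat_lit 6990) (nat_lit 1) (nat_lit 13))
    (@En.n l21456 (nat_lit 10463) (nat_lit 12) (nat_lit 8))
    (@En.i (nat_lit 11784) (nat_lit 13) (nat_lit 12))
    (@En.i (nat_lit 8149) (nat_lit 5) (nat_lit 4))
    (@En.n l24084 (nat_lit 11017) (nat_lit 12) (nat_lit 6))
    (@En.n l29436 (nat_lit 8605) (nat_lit 15) (nat_lit 3))))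
  (@Cl.mk (nat_lit 0x300060004000d000b00090003000d000900050003000a0007000d000c0007) (nat_lit 0x2900260060a50) (nat_lit 16) Lb.e (@T16.mk En
    (@En.n l97 (nat_lit 11899) (nat_lit 0) (nat_lit 7))
    (@En.n l39865 (nat_lit 8697) (nat_lit 12) (nat_lit 12))
    (@En.n l17023 (nat_lit 9084) (nat_lit 13) (nat_lit 13))
    (@En.n l24726 (nat_lit 9396) (nat_lit 14) (nat_lit 7))
    (@En.n l5021 (nat_lit 10686) (nat_lit 11) (nat_lit 10))
    (@En.i (nat_lit 8548) (nat_lit 5) (nat_lit 3))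
    (@En.n l7081 (nat_lit 7123) (nat_lit 0) (nat_lit 5))
    (@En.n l644 (nat_lit 9734) (nat_lit 14) (nat_lit 9))
    (@En.n l1415 (nat_lit 10320) (nat_lit 9) (nat_lit 13))
    (@En.n l34189 (nat_lit 9086) (nat_lit 9) (nat_lit 3))
    (@En.n l6725 (nat_lit 11251) (nat_lit 0) (nat_lit 9))
    (@En.n l11084 (nat_lit 8655) (nat_lit 12) (nat_lit 11))
    (@En.i (nat_lit 10830) (nat_lit 13) (nat_lit 13))
    (@En.n l17023 (nat_lit 8695) (nat_lit 7) (nat_lit 4))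
    (@En.i (nat_lit 12066) (nat_lit 12) (nat_lit 6))
    (@En.n l20805 (nat_lit 9093) (nat_lit 15) (nat_lit 3))))
  (@Cl.mk (nat_lit 0x300060003000d000b00090003000d000a00050003000a0007000d0006000d) (nat_lit 0x6900370020a01) (nat_lit 16) Lb.e (@T16.mk En
    (@En.n l18535 (nat_lit 2329) (nat_lit 0) (nat_lit 13))
    (@En.i (nat_lit 10414) (nat_lit 7) (nat_lit 6))
    (@En.n l6238 (nat_lit 9094) (nat_lit 13) (nat_lit 13))
    (@En.n l15989 (nat_lit 9395) (nat_lit 14) (nat_lit 7))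
    (@En.n l287 (nat_lit 10646) (nat_lit 4) (nat_lit 10))
    (@En.n l41312 (nat_lit 8547) (nat_lit 5) (nat_lit 3))
    (@En.i (nat_lit 7124) (nat_lit 0) (nat_lit 5))
    (@En.n l38760 (nat_lit 10288) (nat_lit 14) (nat_lit 10))
    (@En.n l615 (nat_lit 10326) (nat_lit 9) (nat_lit 13))
    (@En.n l30866 (nat_lit 9089) (nat_lit 9) (nat_lit 3))
    (@En.i (nat_lit 11247) (nat_lit 0) (nat_lit 9))
    (@En.i (nat_lit 8654) (nat_lit 12) (nat_lit 11))
    (@En.i (nat_lit 10714) (nat_lit 13) (nat_lit 13))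
    (@En.n l29364 (nat_lit 8697) (nat_lit 7) (nat_lit 3))
    (@En.i (nat_lit 7833) (nat_lit 12) (nat_lit 6))
    (@En.n l2943 (nat_lit 9092) (nat_lit 15) (nat_lit 3))))
  (@Cl.mk (nat_lit 0x3000a000d0005000c0003000b00060004000d000b00050003000d000b0005) (nat_lit 0x590308003900220) (nat_lit 16) Lb.e (@T16.mk En
    (@En.n l11 (nat_lit 7126) (nat_lit 0) (nat_lit 5))
    (@En.n l644 (nat_lit 10286) (nat_lit 14) (nat_lit 11))
    (@En.n l1080 (nat_lit 10322) (nat_lit 2) (nat_lit 13))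
    (@En.n l11 (nat_lit 9085) (nat_lit 3) (nat_lit 3))
    (@En.n l9309 (nat_lit 10259) (nat_lit 0) (nat_lit 5))
    (@En.i (nat_lit 8657) (nat_lit 11) (nat_lit 11))
    (@En.i (nat_lit 10716) (nat_lit 2) (nat_lit 13))
    (@En.n l3480 (nat_lit 8606) (nat_lit 7) (nat_lit 4))
    (@En.n l20276 (nat_lit 9093) (nat_lit 14) (nat_lit 6))
    (@En.i (nat_lit 9198) (nat_lit 10) (nat_lit 11))
    (@En.n l6081 (nat_lit 9084) (nat_lit 10) (nat_lit 3))
    (@En.i (nat_lit 891) (nat_lit 0) (nat_lit 12))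
    (@En.i (nat_lit 9173) (nat_lit 8) (nat_lit 5))
    (@En.i (nat_lit 8485) (nat_lit 5) (nat_lit 13))
    (@En.n l9309 (nat_lit 10649) (nat_lit 11) (nat_lit 10))
    (@En.n l7 (nat_lit 9095) (nat_lit 15) (nat_lit 3))))
  (@Cl.mk (nat_lit 0x3000a000d0004000c0003000b00060004000d000c00050003000d0004000c) (nat_lit 0x590908003100302) (nat_lit 16) Lb.e (@T16.mk En
    (@En.i (nat_lit 9578) (nat_lit 0) (nat_lit 12))
    (@En.n l11 (nat_lit 8545) (nat_lit 6) (nat_lit 4))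
    (@En.n l1080 (nat_lit 10323) (nat_lit 2) (nat_lit 13))
    (@En.n l11 (nat_lit 8600) (nat_lit 3) (nat_lit 3))
    (@En.i (nat_lit 10258) (nat_lit 0) (nat_lit 5))
    (@En.n l55 (nat_lit 8601) (nat_lit 4) (nat_lit 12))
    (@En.i (nat_lit 10719) (nat_lit 2) (nat_lit 13))
    (@En.n l3480 (nat_lit 8308) (nat_lit 7) (nat_lit 4))
    (@En.i (nat_lit 8547) (nat_lit 14) (nat_lit 6))
    (@En.i (nat_lit 9197) (nat_lit 10) (nat_lit 11))
    (@En.n l6081 (nat_lit 8549) (nat_lit 10) (nat_lit 3))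
    (@En.i (nat_lit 4436) (nat_lit 0) (nat_lit 12))
    (@En.i (nat_lit 9169) (nat_lit 8) (nat_lit 4))
    (@En.i (nat_lit 8486) (nat_lit 5) (nat_lit 13))
    (@En.n l1080 (nat_lit 12402) (nat_lit 11) (nat_lit 10))
    (@En.i (nat_lit 9094) (nat_lit 15) (nat_lit 3))))
  (@Cl.mk (nat_lit 0x200080006000c000a0006000e0004000200080006000e000a0002000e000a) (nat_lit 0x40240a0040430b1) (nat_lit 16) Lb.e (@T16.mk En
    (@En.n l68 (nat_lit 8958) (nat_lit 9) (nat_lit 10))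
    (@En.n l8604 (nat_lit 8068) (nat_lit 1) (nat_lit 14))
    (@En.n l17 (nat_lit 9096) (nat_lit 2) (nat_lit 2))
    (@En.n l19503 (nat_lit 8969) (nat_lit 3) (nat_lit 10))
    (@En.i (nat_lit 5735) (nat_lit 5) (nat_lit 14))
    (@En.n l1747 (nat_lit 5204) (nat_lit 14) (nat_lit 6))
    (@En.n l19504 (nat_lit 6457) (nat_lit 6) (nat_lit 8))
    (@En.n l7 (nat_lit 9096) (nat_lit 7) (nat_lit 2))
    (@En.n l8212 (nat_lit 8967) (nat_lit 8) (nat_lit 4))
    (@En.n l255 (nat_lit 5815) (nat_lit 10) (nat_lit 14))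
    (@En.i (nat_lit 6005) (nat_lit 2) (nat_lit 6))
    (@En.n l9991 (nat_lit 9208) (nat_lit 3) (nat_lit 10))
    (@En.n l8604 (nat_lit 8215) (nat_lit 13) (nat_lit 12))
    (@En.n l8210 (nat_lit 8081) (nat_lit 14) (nat_lit 6))
    (@En.n l19505 (nat_lit 5679) (nat_lit 12) (nat_lit 8))
    (@En.n l67 (nat_lit 9096) (nat_lit 15) (nat_lit 2))))
  (@Cl.mk (nat_lit 0x2000700060006000c000c000b00080004000400090005000a000a000e0008) (nat_lit 0x457300202551) (nat_lit 16) Lb.e (@T16.mk En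
    (@En.n l11512 (nat_lit 8964) (nat_lit 9) (nat_lit 8))
    (@En.i (nat_lit 11561) (nat_lit 1) (nat_lit 14))
    (@En.n l61 (nat_lit 9119) (nat_lit 2) (nat_lit 10))
    (@En.n l27148 (nat_lit 12372) (nat_lit 3) (nat_lit 10))
    (@En.i (nat_lit 1647) (nat_lit 4) (nat_lit 5))
    (@En.n l476 (nat_lit 7582) (nat_lit 5) (nat_lit 9))
    (@En.n l152 (nat_lit 9223) (nat_lit 6) (nat_lit 4))
    (@En.n l2131 (nat_lit 9098) (nat_lit 7) (nat_lit 4))
    (@En.n l55 (nat_lit 6012) (nat_lit 0) (nat_lit 8))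
    (@En.n l27149 (nat_lit 7834) (nat_lit 10) (nat_lit 11))
    (@En.n l27150 (nat_lit 8969) (nat_lit 11) (nat_lit 12))
    (@En.n l10971 (nat_lit 9870) (nat_lit 12) (nat_lit 12))
    (@En.n l27151 (nat_lit 8967) (nat_lit 13) (nat_lit 6))
    (@En.n l2131 (nat_lit 8083) (nat_lit 14) (nat_lit 6))
    (@En.n l5934 (nat_lit 12194) (nat_lit 6) (nat_lit 7))
    (@En.n l7 (nat_lit 9097) (nat_lit 15) (nat_lit 2))))
  (@Cl.mk (nat_lit 0x2000700060006000c0006000d000c0004000300090004000a000a000e000a) (nat_lit 0x503300406766) (nat_lit 16) Lb.e (@T16.mk En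
    (@En.n l3247 (nat_lit 9106) (nat_lit 10) (nat_lit 10))
    (@En.i (nat_lit 11017) (nat_lit 1) (nat_lit 14))
    (@En.n l20983 (nat_lit 9114) (nat_lit 2) (nat_lit 10))
    (@En.n l50 (nat_lit 11537) (nat_lit 3) (nat_lit 10))
    (@En.n l28 (nat_lit 8278) (nat_lit 4) (nat_lit 4))
    (@En.i (nat_lit 9857) (nat_lit 5) (nat_lit 9))
    (@En.n l28 (nat_lit 9100) (nat_lit 6) (nat_lit 3))
    (@En.i (nat_lit 8969) (nat_lit 7) (nat_lit 4))
    (@En.n l77 (nat_lit 9104) (nat_lit 9) (nat_lit 12))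
    (@En.n l23632 (nat_lit 4139) (nat_lit 10) (nat_lit 13))
    (@En.n l117 (nat_lit 10466) (nat_lit 3) (nat_lit 6))
    (@En.n l9850 (nat_lit 9361) (nat_lit 12) (nat_lit 12))
    (@En.n l2687 (nat_lit 9099) (nat_lit 13) (nat_lit 6))
    (@En.i (nat_lit 8596) (nat_lit 14) (nat_lit 6))
    (@En.i (nat_lit 12711) (nat_lit 7) (nat_lit 7))
    (@En.n l3 (nat_lit 9098) (nat_lit 15) (nat_lit 2))))
  (@Cl.mk (nat_lit 0x200080006000c0005000d000c0004000300080004000e000a0002000e000b) (nat_lit 0x5040b30050a7058) (nat_lit 16) Lb.e (@T16.mk En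
    (@En.n l34378 (nat_lit 9107) (nat_lit 14) (nat_lit 11))
    (@En.n l6081 (nat_lit 11929) (nat_lit 1) (nat_lit 14))
    (@En.n l18 (nat_lit 9099) (nat_lit 2) (nat_lit 2))
    (@En.n l61 (nat_lit 9098) (nat_lit 3) (nat_lit 10))
    (@En.n l2809 (nat_lit 6980) (nat_lit 1) (nat_lit 14))
    (@En.n l20259 (nat_lit 8288) (nat_lit 5) (nat_lit 4))
    (@En.n l34379 (nat_lit 6460) (nat_lit 6) (nat_lit 8))
    (@En.n l28 (nat_lit 9102) (nat_lit 7) (nat_lit 3))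
    (@En.n l2809 (nat_lit 9096) (nat_lit 8) (nat_lit 4))
    (@En.n l77 (nat_lit 8290) (nat_lit 10) (nat_lit 12))
    (@En.n l7882 (nat_lit 5814) (nat_lit 11) (nat_lit 13))
    (@En.n l117 (nat_lit 11310) (nat_lit 8) (nat_lit 5))
    (@En.n l7055 (nat_lit 8214) (nat_lit 13) (nat_lit 12))
    (@En.i (nat_lit 8593) (nat_lit 14) (nat_lit 6))
    (@En.n l6081 (nat_lit 12704) (nat_lit 12) (nat_lit 8))
    (@En.n l3 (nat_lit 9099) (nat_lit 15) (nat_lit 2))))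
  (@Cl.mk (nat_lit 0x2000700060006000d0006000d0003000d000300090003000a000a000e000a) (nat_lit 0x403020407770) (nat_lit 16) Lb.e (@T16.mk En
    (@En.n l17 (nat_lit 9105) (nat_lit 10) (nat_lit 10))
    (@En.i (nat_lit 11016) (nat_lit 1) (nat_lit 14))
    (@En.n l5 (nat_lit 9113) (nat_lit 2) (nat_lit 10))
    (@En.n l50 (nat_lit 11535) (nat_lit 3) (nat_lit 10))
    (@En.i (nat_lit 9104) (nat_lit 4) (nat_lit 3))
    (@En.i (nat_lit 12540) (nat_lit 5) (nat_lit 9))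
    (@En.i (nat_lit 9098) (nat_lit 6) (nat_lit 3))
    (@En.i (nat_lit 1964) (nat_lit 0) (nat_lit 13))
    (@En.i (nat_lit 9101) (nat_lit 8) (nat_lit 3))
    (@En.i (nat_lit 5822) (nat_lit 10) (nat_lit 13))
    (@En.n l117 (nat_lit 10465) (nat_lit 3) (nat_lit 6))
    (@En.i (nat_lit 11524) (nat_lit 12) (nat_lit 13))
    (@En.n l2687 (nat_lit 9102) (nat_lit 13) (nat_lit 6))
    (@En.i (nat_lit 8597) (nat_lit 14) (nat_lit 6))
    (@En.i (nat_lit 12712) (nat_lit 7) (nat_lit 7))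
    (@En.n l3 (nat_lit 9100) (nat_lit 15) (nat_lit 2))))
  (@Cl.mk (nat_lit 0x2000700060006000d000c00070003000d000400090003000a000a000e0009) (nat_lit 0x560060406694) (nat_lit 16) Lb.e (@T16.mk En
    (@En.n l17 (nat_lit 9108) (nat_lit 12) (nat_lit 9))
    (@En.n l3659 (nat_lit 4174) (nat_lit 1) (nat_lit 14))
    (@En.n l3158 (nat_lit 9116) (nat_lit 2) (nat_lit 10))
    (@En.n l50 (nat_lit 11534) (nat_lit 3) (nat_lit 10))
    (@En.i (nat_lit 7834) (nat_lit 4) (nat_lit 3))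
    (@En.i (nat_lit 12541) (nat_lit 5) (nat_lit 9))
    (@En.n l13468 (nat_lit 9097) (nat_lit 6) (nat_lit 4))
    (@En.n l780 (nat_lit 7828) (nat_lit 8) (nat_lit 13))
    (@En.n l11 (nat_lit 9100) (nat_lit 8) (nat_lit 3))
    (@En.i (nat_lit 7947) (nat_lit 0) (nat_lit 7))
    (@En.n l55 (nat_lit 9098) (nat_lit 11) (nat_lit 12))
    (@En.i (nat_lit 8627) (nat_lit 12) (nat_lit 13))
    (@En.n l2687 (nat_lit 9103) (nat_lit 13) (nat_lit 6))
    (@En.i (nat_lit 8484) (nat_lit 14) (nat_lit 6))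
    (@En.i (nat_lit 12692) (nat_lit 5) (nat_lit 7))
    (@En.n l3 (nat_lit 9101) (nat_lit 15) (nat_lit 2))))
  (@Cl.mk (nat_lit 0x200080006000d0005000d0003000d000300080003000e000a0002000e000b) (nat_lit 0x3040b0205048081) (nat_lit 16) Lb.e (@T16.mk En
    (@En.i (nat_lit 7695) (nat_lit 14) (nat_lit 11))
    (@En.n l6081 (nat_lit 4181) (nat_lit 1) (nat_lit 14))
    (@En.n l18 (nat_lit 9102) (nat_lit 2) (nat_lit 2))
    (@En.n l61 (nat_lit 9100) (nat_lit 3) (nat_lit 10))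
    (@En.i (nat_lit 6970) (nat_lit 1) (nat_lit 14))
    (@En.i (nat_lit 8290) (nat_lit 5) (nat_lit 3))
    (@En.n l7882 (nat_lit 11363) (nat_lit 6) (nat_lit 8))
    (@En.i (nat_lit 9099) (nat_lit 7) (nat_lit 3))
    (@En.i (nat_lit 5988) (nat_lit 0) (nat_lit 13))
    (@En.i (nat_lit 9103) (nat_lit 9) (nat_lit 3))
    (@En.n l7882 (nat_lit 5816) (nat_lit 11) (nat_lit 13))
    (@En.n l117 (nat_lit 11309) (nat_lit 8) (nat_lit 5))
    (@En.n l7055 (nat_lit 6750) (nat_lit 13) (nat_lit 13))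
    (@En.i (nat_lit 8594) (nat_lit 14) (nat_lit 6))
    (@En.n l6081 (nat_lit 12699) (nat_lit 12) (nat_lit 8))
    (@En.n l3 (nat_lit 9102) (nat_lit 15) (nat_lit 2))))
  (@Cl.mk (nat_lit 0x200080006000d000c00060003000d000400080003000e000a0002000e000a) (nat_lit 0x3035005040170a5) (nat_lit 16) Lb.e (@T16.mk En
    (@En.i (nat_lit 9181) (nat_lit 14) (nat_lit 10))
    (@En.n l6081 (nat_lit 4171) (nat_lit 1) (nat_lit 14))
    (@En.n l18 (nat_lit 9103) (nat_lit 2) (nat_lit 2))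
    (@En.n l61 (nat_lit 9101) (nat_lit 3) (nat_lit 10))
    (@En.i (nat_lit 5805) (nat_lit 1) (nat_lit 14))
    (@En.i (nat_lit 7835) (nat_lit 5) (nat_lit 3))
    (@En.n l7882 (nat_lit 11360) (nat_lit 6) (nat_lit 8))
    (@En.n l11 (nat_lit 8967) (nat_lit 7) (nat_lit 4))
    (@En.n l665 (nat_lit 7830) (nat_lit 9) (nat_lit 13))
    (@En.n l11 (nat_lit 9102) (nat_lit 9) (nat_lit 3))
    (@En.n l2351 (nat_lit 7940) (nat_lit 0) (nat_lit 6))
    (@En.n l55 (nat_lit 9099) (nat_lit 12) (nat_lit 12))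
    (@En.n l7055 (nat_lit 6351) (nat_lit 13) (nat_lit 13))
    (@En.i (nat_lit 8490) (nat_lit 14) (nat_lit 6))
    (@En.n l6081 (nat_lit 10536) (nat_lit 12) (nat_lit 8))
    (@En.n l3 (nat_lit 9103) (nat_lit 15) (nat_lit 2))))
noncomputable def a569 : T16 Cl := @T16.mk Cl
  (@Cl.mk (nat_lit 0x2000800060006000d0006000c0003000d000800040003000a000a000e000a) (nat_lit 0x400502023008778) (nat_lit 16) Lb.e (@T16.mk En
    (@En.n l17 (nat_lit 9109) (nat_lit 12) (nat_lit 10))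
    (@En.n l22013 (nat_lit 11018) (nat_lit 1) (nat_lit 14))
    (@En.n l5 (nat_lit 9115) (nat_lit 2) (nat_lit 10))
    (@En.i (nat_lit 11527) (nat_lit 3) (nat_lit 10))
    (@En.n l7 (nat_lit 9100) (nat_lit 4) (nat_lit 3))
    (@En.n l22013 (nat_lit 8276) (nat_lit 5) (nat_lit 4))
    (@En.i (nat_lit 5910) (nat_lit 6) (nat_lit 8))
    (@En.i (nat_lit 1961) (nat_lit 8) (nat_lit 13))
    (@En.i (nat_lit 7834) (nat_lit 8) (nat_lit 3))
    (@En.n l22013 (nat_lit 8195) (nat_lit 10) (nat_lit 12))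
    (@En.n l117 (nat_lit 10467) (nat_lit 11) (nat_lit 6))
    (@En.i (nat_lit 11522) (nat_lit 12) (nat_lit 13))
    (@En.n l2687 (nat_lit 8290) (nat_lit 13) (nat_lit 6))
    (@En.i (nat_lit 8528) (nat_lit 14) (nat_lit 6))
    (@En.i (nat_lit 9055) (nat_lit 5) (nat_lit 8))
    (@En.n l3 (nat_lit 9104) (nat_lit 15) (nat_lit 2))))
  (@Cl.mk (nat_lit 0x3000a0003000b000b000a000a000600050005000c00060006000d0004000d) (nat_lit 0x504281000500b02) (nat_lit 16) Lb.e (@T16.mk En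
    (@En.i (nat_lit 2069) (nat_lit 0) (nat_lit 13))
    (@En.i (nat_lit 9108) (nat_lit 3) (nat_lit 4))
    (@En.n l899 (nat_lit 9009) (nat_lit 2) (nat_lit 13))
    (@En.n l9272 (nat_lit 9100) (nat_lit 10) (nat_lit 6))
    (@En.n l3851 (nat_lit 2598) (nat_lit 4) (nat_lit 6))
    (@En.n l18470 (nat_lit 9441) (nat_lit 8) (nat_lit 12))
    (@En.n l217 (nat_lit 7695) (nat_lit 11) (nat_lit 5))
    (@En.i (nat_lit 8599) (nat_lit 9) (nat_lit 5))
    (@En.n l12805 (nat_lit 8545) (nat_lit 8) (nat_lit 6))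
    (@En.n l9279 (nat_lit 7689) (nat_lit 6) (nat_lit 10))
    (@En.n l26614 (nat_lit 9395) (nat_lit 6) (nat_lit 10))
    (@En.n l37862 (nat_lit 9111) (nat_lit 5) (nat_lit 11))
    (@En.n l50 (nat_lit 11543) (nat_lit 13) (nat_lit 11))
    (@En.i (nat_lit 9109) (nat_lit 15) (nat_lit 3))
    (@En.n l12811 (nat_lit 9346) (nat_lit 0) (nat_lit 10))
    (@En.n l31324 (nat_lit 9106) (nat_lit 15) (nat_lit 3))))
  (@Cl.mk (nat_lit 0x3000a0004000b000b000a000a000600050005000b00060006000d000c0005) (nat_lit 0x506951000500420) (nat_lit 16) Lb.e (@T16.mk En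
    (@En.i (nat_lit 8961) (nat_lit 0) (nat_lit 5))
    (@En.n l27944 (nat_lit 9109) (nat_lit 4) (nat_lit 12))
    (@En.n l8638 (nat_lit 8981) (nat_lit 2) (nat_lit 13))
    (@En.n l8639 (nat_lit 9098) (nat_lit 10) (nat_lit 6))
    (@En.n l50 (nat_lit 5855) (nat_lit 4) (nat_lit 6))
    (@En.n l29673 (nat_lit 9358) (nat_lit 6) (nat_lit 11))
    (@En.n l40925 (nat_lit 9107) (nat_lit 11) (nat_lit 5))
    (@En.i (nat_lit 8598) (nat_lit 11) (nat_lit 5))
    (@En.n l13906 (nat_lit 8544) (nat_lit 8) (nat_lit 6))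
    (@En.n l61 (nat_lit 7693) (nat_lit 6) (nat_lit 10))
    (@En.n l2337 (nat_lit 9396) (nat_lit 6) (nat_lit 10))
    (@En.n l601 (nat_lit 9112) (nat_lit 5) (nat_lit 11))
    (@En.n l40926 (nat_lit 11562) (nat_lit 13) (nat_lit 11))
    (@En.n l31109 (nat_lit 8277) (nat_lit 14) (nat_lit 4))
    (@En.n l12788 (nat_lit 9862) (nat_lit 0) (nat_lit 10))
    (@En.n l17646 (nat_lit 9105) (nat_lit 15) (nat_lit 3))))
  (@Cl.mk (nat_lit 0x2000b000b00070005000b00050005000d000c0005000300090004000e000b) (nat_lit 0x7100400240060b7) (nat_lit 16) Lb.e (@T16.mk En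
    (@En.n l40561 (nat_lit 9106) (nat_lit 12) (nat_lit 11))
    (@En.n l13919 (nat_lit 5300) (nat_lit 1) (nat_lit 14))
    (@En.n l644 (nat_lit 8286) (nat_lit 2) (nat_lit 4))
    (@En.i (nat_lit 11194) (nat_lit 3) (nat_lit 9))
    (@En.n l40562 (nat_lit 7695) (nat_lit 4) (nat_lit 3))
    (@En.n l13919 (nat_lit 8958) (nat_lit 0) (nat_lit 5))
    (@En.n l25338 (nat_lit 8289) (nat_lit 7) (nat_lit 12))
    (@En.n l28207 (nat_lit 9005) (nat_lit 8) (nat_lit 13))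
    (@En.n l40563 (nat_lit 9099) (nat_lit 11) (nat_lit 5))
    (@En.i (nat_lit 7813) (nat_lit 9) (nat_lit 5))
    (@En.i (nat_lit 8203) (nat_lit 11) (nat_lit 11))
    (@En.n l24726 (nat_lit 8595) (nat_lit 6) (nat_lit 5))
    (@En.n l742 (nat_lit 8538) (nat_lit 13) (nat_lit 7))
    (@En.n l16289 (nat_lit 7688) (nat_lit 14) (nat_lit 11))
    (@En.n l7 (nat_lit 10806) (nat_lit 10) (nat_lit 11))
    (@En.n l28 (nat_lit 9107) (nat_lit 15) (nat_lit 2))))
  (@Cl.mk (nat_lit 0x3000b000b00090009000600050005000c000b000700070004000d0005000a) (nat_lit 0x883100036000705) (nat_lit 16) Lb.e (@T16.mk En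
    (@En.n l30097 (nat_lit 12542) (nat_lit 0) (nat_lit 10))
    (@En.n l42101 (nat_lit 8964) (nat_lit 14) (nat_lit 5))
    (@En.n l42102 (nat_lit 5186) (nat_lit 2) (nat_lit 13))
    (@En.n l22921 (nat_lit 9054) (nat_lit 3) (nat_lit 4))
    (@En.n l9272 (nat_lit 9101) (nat_lit 9) (nat_lit 7))
    (@En.n l3647 (nat_lit 9049) (nat_lit 5) (nat_lit 7))
    (@En.n l22922 (nat_lit 9106) (nat_lit 5) (nat_lit 11))
    (@En.n l30101 (nat_lit 8628) (nat_lit 8) (nat_lit 12))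
    (@En.n l217 (nat_lit 9181) (nat_lit 11) (nat_lit 5))
    (@En.i (nat_lit 8482) (nat_lit 9) (nat_lit 5))
    (@En.n l33004 (nat_lit 10531) (nat_lit 0) (nat_lit 6))
    (@En.n l9279 (nat_lit 7690) (nat_lit 7) (nat_lit 9))
    (@En.n l26614 (nat_lit 10412) (nat_lit 13) (nat_lit 9))
    (@En.n l42103 (nat_lit 9117) (nat_lit 5) (nat_lit 11))
    (@En.n l50 (nat_lit 11544) (nat_lit 11) (nat_lit 11))
    (@En.i (nat_lit 9124) (nat_lit 15) (nat_lit 3))))
  (@Cl.mk (nat_lit 0x3000b000b000a000a000700050005000c00060006000c0004000d00090004) (nat_lit 0x977500090010130) (nat_lit 16) Lb.e (@T16.mk En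
    (@En.n l31018 (nat_lit 8273) (nat_lit 0) (nat_lit 4))
    (@En.n l16232 (nat_lit 5915) (nat_lit 0) (nat_lit 9))
    (@En.n l12810 (nat_lit 1965) (nat_lit 1) (nat_lit 13))
    (@En.i (nat_lit 9124) (nat_lit 3) (nat_lit 4))
    (@En.n l40424 (nat_lit 8572) (nat_lit 0) (nat_lit 12))
    (@En.n l9272 (nat_lit 9104) (nat_lit 10) (nat_lit 6))
    (@En.n l3851 (nat_lit 2596) (nat_lit 6) (nat_lit 6))
    (@En.n l18470 (nat_lit 9432) (nat_lit 8) (nat_lit 12))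
    (@En.n l217 (nat_lit 8289) (nat_lit 11) (nat_lit 5))
    (@En.i (nat_lit 8535) (nat_lit 9) (nat_lit 5))
    (@En.n l40425 (nat_lit 8350) (nat_lit 0) (nat_lit 7))
    (@En.n l9279 (nat_lit 7691) (nat_lit 6) (nat_lit 10))
    (@En.n l26614 (nat_lit 9393) (nat_lit 6) (nat_lit 10))
    (@En.n l37862 (nat_lit 9110) (nat_lit 5) (nat_lit 11))
    (@En.n l32454 (nat_lit 9439) (nat_lit 11) (nat_lit 11))
    (@En.n l7 (nat_lit 9105) (nat_lit 13) (nat_lit 3))))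
  (@Cl.mk (nat_lit 0x2000c00070007000c0004000d000a00040003000b000900090006000e0005) (nat_lit 0x900602300604010) (nat_lit 16) Lb.e (@T16.mk En
    (@En.n l26931 (nat_lit 9109) (nat_lit 9) (nat_lit 5))
    (@En.n l388 (nat_lit 2787) (nat_lit 1) (nat_lit 14))
    (@En.n l15675 (nat_lit 8585) (nat_lit 2) (nat_lit 6))
    (@En.n l18153 (nat_lit 8233) (nat_lit 3) (nat_lit 9))
    (@En.n l3851 (nat_lit 9143) (nat_lit 4) (nat_lit 9))
    (@En.n l26932 (nat_lit 6270) (nat_lit 6) (nat_lit 11))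
    (@En.n l7 (nat_lit 9111) (nat_lit 6) (nat_lit 3))
    (@En.n l22234 (nat_lit 8271) (nat_lit 7) (nat_lit 4))
    (@En.n l17957 (nat_lit 6380) (nat_lit 9) (nat_lit 10))
    (@En.n l17959 (nat_lit 2068) (nat_lit 10) (nat_lit 13))
    (@En.n l26933 (nat_lit 9118) (nat_lit 10) (nat_lit 4))
    (@En.n l17957 (nat_lit 9043) (nat_lit 12) (nat_lit 12))
    (@En.n l26934 (nat_lit 9115) (nat_lit 9) (nat_lit 7))
    (@En.n l26935 (nat_lit 2591) (nat_lit 14) (nat_lit 7))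
    (@En.n l26936 (nat_lit 9435) (nat_lit 8) (nat_lit 12))
    (@En.n l19001 (nat_lit 9110) (nat_lit 15) (nat_lit 2))))
  (@Cl.mk (nat_lit 0x2000c00070007000d0004000d0003000b0003000b000900090005000e0005) (nat_lit 0x600a02040103010) (nat_lit 16) Lb.e (@T16.mk En
    (@En.n l26931 (nat_lit 9105) (nat_lit 7) (nat_lit 5))
    (@En.n l20421 (nat_lit 2784) (nat_lit 1) (nat_lit 14))
    (@En.n l13633 (nat_lit 12716) (nat_lit 2) (nat_lit 5))
    (@En.n l18153 (nat_lit 8234) (nat_lit 3) (nat_lit 9))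
    (@En.n l3851 (nat_lit 9144) (nat_lit 4) (nat_lit 9))
    (@En.i (nat_lit 4176) (nat_lit 6) (nat_lit 11))
    (@En.i (nat_lit 9110) (nat_lit 6) (nat_lit 3))
    (@En.n l5646 (nat_lit 7975) (nat_lit 0) (nat_lit 11))
    (@En.n l3247 (nat_lit 9112) (nat_lit 8) (nat_lit 3))
    (@En.n l2642 (nat_lit 2070) (nat_lit 10) (nat_lit 13))
    (@En.n l34933 (nat_lit 9117) (nat_lit 10) (nat_lit 4))
    (@En.n l9182 (nat_lit 9041) (nat_lit 12) (nat_lit 13))
    (@En.n l26934 (nat_lit 9113) (nat_lit 9) (nat_lit 7))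
    (@En.n l26935 (nat_lit 2595) (nat_lit 14) (nat_lit 7))
    (@En.n l34934 (nat_lit 9440) (nat_lit 8) (nat_lit 12))
    (@En.n l19001 (nat_lit 9111) (nat_lit 15) (nat_lit 2))))
  (@Cl.mk (nat_lit 0x2000b00070007000d000c00050003000b0004000b000900090005000e0005) (nat_lit 0x400b70060843010) (nat_lit 16) Lb.e (@T16.mk En
    (@En.n l7 (nat_lit 9106) (nat_lit 7) (nat_lit 5))
    (@En.n l19652 (nat_lit 2785) (nat_lit 1) (nat_lit 14))
    (@En.n l13906 (nat_lit 12715) (nat_lit 2) (nat_lit 5))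
    (@En.n l61 (nat_lit 8235) (nat_lit 3) (nat_lit 9))
    (@En.n l1545 (nat_lit 9145) (nat_lit 4) (nat_lit 9))
    (@En.n l16733 (nat_lit 11025) (nat_lit 6) (nat_lit 11))
    (@En.n l15450 (nat_lit 8272) (nat_lit 6) (nat_lit 4))
    (@En.n l7529 (nat_lit 11181) (nat_lit 8) (nat_lit 11))
    (@En.n l40513 (nat_lit 9111) (nat_lit 8) (nat_lit 3))
    (@En.n l10269 (nat_lit 9122) (nat_lit 0) (nat_lit 5))
    (@En.n l40514 (nat_lit 9110) (nat_lit 11) (nat_lit 12))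
    (@En.n l16733 (nat_lit 8979) (nat_lit 12) (nat_lit 13))
    (@En.n l40515 (nat_lit 9114) (nat_lit 9) (nat_lit 7))
    (@En.i (nat_lit 2599) (nat_lit 14) (nat_lit 7))
    (@En.i (nat_lit 9452) (nat_lit 6) (nat_lit 11))
    (@En.n l50 (nat_lit 9112) (nat_lit 15) (nat_lit 2))))
  (@Cl.mk (nat_lit 0x20006000e00060002000d0007000d0003000d0003000a0003000a000e0009) (nat_lit 0x10060a02040661) (nat_lit 16) Lb.e (@T16.mk En
    (@En.n l21161 (nat_lit 9111) (nat_lit 4) (nat_lit 9))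
    (@En.n l3870 (nat_lit 5400) (nat_lit 1) (nat_lit 14))
    (@En.n l11275 (nat_lit 12070) (nat_lit 2) (nat_lit 10))
    (@En.i (nat_lit 9115) (nat_lit 3) (nat_lit 3))
    (@En.n l3640 (nat_lit 11657) (nat_lit 4) (nat_lit 10))
    (@En.n l8845 (nat_lit 9114) (nat_lit 5) (nat_lit 3))
    (@En.n l11275 (nat_lit 2071) (nat_lit 7) (nat_lit 13))
    (@En.n l3157 (nat_lit 9116) (nat_lit 7) (nat_lit 3))
    (@En.n l3870 (nat_lit 5823) (nat_lit 9) (nat_lit 13))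
    (@En.n l117 (nat_lit 11238) (nat_lit 14) (nat_lit 7))
    (@En.n l387 (nat_lit 11528) (nat_lit 11) (nat_lit 13))
    (@En.n l17 (nat_lit 9113) (nat_lit 11) (nat_lit 2))
    (@En.n l18 (nat_lit 9100) (nat_lit 13) (nat_lit 6))
    (@En.i (nat_lit 2790) (nat_lit 1) (nat_lit 14))
    (@En.n l3640 (nat_lit 12672) (nat_lit 2) (nat_lit 6))
    (@En.n l3 (nat_lit 9113) (nat_lit 15) (nat_lit 2))))
  (@Cl.mk (nat_lit 0x20006000e00060002000c0007000d000c00040003000a0004000a000e0009) (nat_lit 0x10040b60040655) (nat_lit 16) Lb.e (@T16.mk En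
    (@En.n l30296 (nat_lit 9112) (nat_lit 4) (nat_lit 9))
    (@En.i (nat_lit 4514) (nat_lit 6) (nat_lit 14))
    (@En.n l9903 (nat_lit 12071) (nat_lit 2) (nat_lit 10))
    (@En.n l20299 (nat_lit 8279) (nat_lit 3) (nat_lit 4))
    (@En.n l23435 (nat_lit 9864) (nat_lit 4) (nat_lit 10))
    (@En.n l24307 (nat_lit 9113) (nat_lit 5) (nat_lit 3))
    (@En.n l36944 (nat_lit 9121) (nat_lit 6) (nat_lit 4))
    (@En.n l36945 (nat_lit 9115) (nat_lit 8) (nat_lit 12))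
    (@En.i (nat_lit 5821) (nat_lit 9) (nat_lit 13))
    (@En.n l20299 (nat_lit 11234) (nat_lit 14) (nat_lit 7))
    (@En.n l36946 (nat_lit 9605) (nat_lit 11) (nat_lit 12))
    (@En.n l17 (nat_lit 9114) (nat_lit 11) (nat_lit 2))
    (@En.n l36947 (nat_lit 9098) (nat_lit 13) (nat_lit 6))
    (@En.n l24304 (nat_lit 2791) (nat_lit 1) (nat_lit 14))
    (@En.n l36948 (nat_lit 12710) (nat_lit 2) (nat_lit 6))
    (@En.n l7 (nat_lit 9114) (nat_lit 15) (nat_lit 2))))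
  (@Cl.mk (nat_lit 0x20007000e00060002000d0007000c0003000d000900040003000a000e0009) (nat_lit 0x10060502300661) (nat_lit 16) Lb.e (@T16.mk En
    (@En.n l21161 (nat_lit 9110) (nat_lit 4) (nat_lit 9))
    (@En.n l3870 (nat_lit 5336) (nat_lit 1) (nat_lit 14))
    (@En.n l3858 (nat_lit 12136) (nat_lit 2) (nat_lit 10))
    (@En.n l7 (nat_lit 9113) (nat_lit 3) (nat_lit 3))
    (@En.n l34709 (nat_lit 8274) (nat_lit 4) (nat_lit 4))
    (@En.i (nat_lit 6383) (nat_lit 5) (nat_lit 9))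
    (@En.n l14644 (nat_lit 1963) (nat_lit 7) (nat_lit 13))
    (@En.n l3157 (nat_lit 7833) (nat_lit 7) (nat_lit 3))
    (@En.n l3870 (nat_lit 12777) (nat_lit 9) (nat_lit 12))
    (@En.n l34710 (nat_lit 11235) (nat_lit 14) (nat_lit 7))
    (@En.n l387 (nat_lit 11526) (nat_lit 11) (nat_lit 13))
    (@En.n l17 (nat_lit 9115) (nat_lit 11) (nat_lit 2))
    (@En.n l18 (nat_lit 9104) (nat_lit 13) (nat_lit 6))
    (@En.i (nat_lit 2813) (nat_lit 1) (nat_lit 14))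
    (@En.n l34711 (nat_lit 9062) (nat_lit 2) (nat_lit 7))
    (@En.n l3 (nat_lit 9115) (nat_lit 15) (nat_lit 2))))
  (@Cl.mk (nat_lit 0x20006000e00060002000d000c00080003000d0004000a0003000a000e0008) (nat_lit 0x10055008040580) (nat_lit 16) Lb.e (@T16.mk En
    (@En.n l21049 (nat_lit 9117) (nat_lit 4) (nat_lit 8))
    (@En.i (nat_lit 5343) (nat_lit 1) (nat_lit 14))
    (@En.n l13457 (nat_lit 11918) (nat_lit 2) (nat_lit 10))
    (@En.i (nat_lit 7833) (nat_lit 3) (nat_lit 3))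
    (@En.n l21050 (nat_lit 11655) (nat_lit 4) (nat_lit 10))
    (@En.n l117 (nat_lit 9119) (nat_lit 5) (nat_lit 4))
    (@En.n l21051 (nat_lit 7826) (nat_lit 7) (nat_lit 13))
    (@En.n l8852 (nat_lit 9113) (nat_lit 7) (nat_lit 3))
    (@En.n l21052 (nat_lit 9928) (nat_lit 0) (nat_lit 8))
    (@En.n l7630 (nat_lit 9114) (nat_lit 10) (nat_lit 12))
    (@En.n l17597 (nat_lit 11532) (nat_lit 11) (nat_lit 13))
    (@En.n l17 (nat_lit 9116) (nat_lit 11) (nat_lit 2))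
    (@En.n l2154 (nat_lit 9101) (nat_lit 13) (nat_lit 6))
    (@En.n l21053 (nat_lit 2795) (nat_lit 1) (nat_lit 14))
    (@En.n l5934 (nat_lit 12713) (nat_lit 2) (nat_lit 6))
    (@En.n l7 (nat_lit 9116) (nat_lit 15) (nat_lit 2))))
  (@Cl.mk (nat_lit 0x2000c000b000800080004000d0005000b0003000b000800080005000e0005) (nat_lit 0x453109050763010) (nat_lit 16) Lb.e (@T16.mk En
    (@En.n l36966 (nat_lit 9108) (nat_lit 9) (nat_lit 5))
    (@En.n l36967 (nat_lit 2786) (nat_lit 1) (nat_lit 14))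
    (@En.n l36968 (nat_lit 12719) (nat_lit 2) (nat_lit 5))
    (@En.n l22676 (nat_lit 8232) (nat_lit 8) (nat_lit 8))
    (@En.n l32309 (nat_lit 9340) (nat_lit 4) (nat_lit 8))
    (@En.n l32307 (nat_lit 11935) (nat_lit 6) (nat_lit 11))
    (@En.n l1029 (nat_lit 9118) (nat_lit 6) (nat_lit 3))
    (@En.n l36969 (nat_lit 12545) (nat_lit 0) (nat_lit 11))
    (@En.n l12507 (nat_lit 9120) (nat_lit 8) (nat_lit 5))
    (@En.n l36970 (nat_lit 5188) (nat_lit 10) (nat_lit 13))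
    (@En.i (nat_lit 8588) (nat_lit 10) (nat_lit 4))
    (@En.n l36971 (nat_lit 9116) (nat_lit 8) (nat_lit 8))
    (@En.n l32309 (nat_lit 9047) (nat_lit 13) (nat_lit 8))
    (@En.n l1532 (nat_lit 9112) (nat_lit 14) (nat_lit 11))
    (@En.n l36972 (nat_lit 9127) (nat_lit 8) (nat_lit 12))
    (@En.n l50 (nat_lit 9117) (nat_lit 15) (nat_lit 2))))
  (@Cl.mk (nat_lit 0x2000c000a000800080004000d000a00060003000b000800080006000e0005) (nat_lit 0x972109200564010) (nat_lit 16) Lb.e (@T16.mk En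
    (@En.n l40412 (nat_lit 9124) (nat_lit 9) (nat_lit 5))
    (@En.n l40413 (nat_lit 2807) (nat_lit 1) (nat_lit 14))
    (@En.n l36008 (nat_lit 9064) (nat_lit 2) (nat_lit 6))
    (@En.n l575 (nat_lit 8231) (nat_lit 8) (nat_lit 8))
    (@En.n l20668 (nat_lit 9341) (nat_lit 4) (nat_lit 8))
    (@En.n l40414 (nat_lit 6279) (nat_lit 6) (nat_lit 11))
    (@En.n l15280 (nat_lit 9117) (nat_lit 6) (nat_lit 3))
    (@En.n l40415 (nat_lit 5200) (nat_lit 0) (nat_lit 6))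
    (@En.n l40416 (nat_lit 6381) (nat_lit 9) (nat_lit 10))
    (@En.n l1643 (nat_lit 7829) (nat_lit 10) (nat_lit 13))
    (@En.n l3832 (nat_lit 8587) (nat_lit 10) (nat_lit 4))
    (@En.n l33304 (nat_lit 7833) (nat_lit 8) (nat_lit 8))
    (@En.n l40417 (nat_lit 9045) (nat_lit 13) (nat_lit 8))
    (@En.n l619 (nat_lit 8272) (nat_lit 14) (nat_lit 10))
    (@En.n l40418 (nat_lit 9125) (nat_lit 8) (nat_lit 12))
    (@En.n l17 (nat_lit 9118) (nat_lit 15) (nat_lit 2))))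
  (@Cl.mk (nat_lit 0x20006000e00060002000c000c000b000900040004000a0005000a000e0007) (nat_lit 0x20076910020440) (nat_lit 16) Lb.e (@T16.mk En
    (@En.n l11512 (nat_lit 9120) (nat_lit 4) (nat_lit 7))
    (@En.i (nat_lit 4511) (nat_lit 6) (nat_lit 14))
    (@En.n l532 (nat_lit 12116) (nat_lit 2) (nat_lit 10))
    (@En.i (nat_lit 5197) (nat_lit 3) (nat_lit 5))
    (@En.n l476 (nat_lit 7581) (nat_lit 4) (nat_lit 10))
    (@En.n l152 (nat_lit 9123) (nat_lit 5) (nat_lit 4))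
    (@En.n l7630 (nat_lit 9114) (nat_lit 6) (nat_lit 4))
    (@En.n l55 (nat_lit 6092) (nat_lit 12) (nat_lit 9))
    (@En.n l619 (nat_lit 7833) (nat_lit 9) (nat_lit 11))
    (@En.n l1867 (nat_lit 9121) (nat_lit 10) (nat_lit 12))
    (@En.i (nat_lit 9610) (nat_lit 11) (nat_lit 12))
    (@En.n l17 (nat_lit 9119) (nat_lit 11) (nat_lit 2))
    (@En.i (nat_lit 9097) (nat_lit 13) (nat_lit 6))
    (@En.i (nat_lit 2522) (nat_lit 1) (nat_lit 14))
    (@En.n l5934 (nat_lit 12197) (nat_lit 2) (nat_lit 6))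
    (@En.n l7 (nat_lit 9119) (nat_lit 15) (nat_lit 2))))
noncomputable def a570 : T16 Cl := @T16.mk Cl
  (@Cl.mk (nat_lit 0x2000b000b000a0009000900050005000b0006000b000700070005000e0005) (nat_lit 0x9484200206000b0) (nat_lit 16) Lb.e (@T16.mk En
    (@En.i (nat_lit 8964) (nat_lit 6) (nat_lit 5))
    (@En.n l7479 (nat_lit 2524) (nat_lit 1) (nat_lit 14))
    (@En.i (nat_lit 12199) (nat_lit 2) (nat_lit 5))
    (@En.n l2491 (nat_lit 10036) (nat_lit 9) (nat_lit 7))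
    (@En.n l7479 (nat_lit 9346) (nat_lit 4) (nat_lit 7))
    (@En.n l27180 (nat_lit 12112) (nat_lit 6) (nat_lit 11))
    (@En.n l7479 (nat_lit 5196) (nat_lit 6) (nat_lit 6))
    (@En.n l476 (nat_lit 7579) (nat_lit 8) (nat_lit 11))
    (@En.n l152 (nat_lit 6377) (nat_lit 11) (nat_lit 5))
    (@En.n l22495 (nat_lit 8589) (nat_lit 9) (nat_lit 5))
    (@En.n l14990 (nat_lit 9119) (nat_lit 7) (nat_lit 9))
    (@En.n l4380 (nat_lit 12720) (nat_lit 12) (nat_lit 9))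
    (@En.n l27040 (nat_lit 9118) (nat_lit 13) (nat_lit 10))
    (@En.n l27181 (nat_lit 9122) (nat_lit 5) (nat_lit 11))
    (@En.i (nat_lit 9916) (nat_lit 12) (nat_lit 11))
    (@En.n l17 (nat_lit 9120) (nat_lit 15) (nat_lit 2))))
  (@Cl.mk (nat_lit 0x20006000e00060002000c000a0008000e00040002000a0006000a000e0008) (nat_lit 0x600565a0030592) (nat_lit 16) Lb.e (@T16.mk En
    (@En.n l13454 (nat_lit 9122) (nat_lit 11) (nat_lit 8))
    (@En.n l2579 (nat_lit 4508) (nat_lit 12) (nat_lit 14))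
    (@En.n l13455 (nat_lit 12114) (nat_lit 2) (nat_lit 10))
    (@En.n l476 (nat_lit 5191) (nat_lit 14) (nat_lit 6))
    (@En.n l3337 (nat_lit 10092) (nat_lit 4) (nat_lit 10))
    (@En.n l17 (nat_lit 9121) (nat_lit 5) (nat_lit 2))
    (@En.n l2869 (nat_lit 9119) (nat_lit 6) (nat_lit 4))
    (@En.n l13455 (nat_lit 5824) (nat_lit 8) (nat_lit 14))
    (@En.n l12743 (nat_lit 6094) (nat_lit 2) (nat_lit 8))
    (@En.n l2579 (nat_lit 9210) (nat_lit 10) (nat_lit 10))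
    (@En.i (nat_lit 9598) (nat_lit 11) (nat_lit 12))
    (@En.n l7 (nat_lit 9121) (nat_lit 11) (nat_lit 2))
    (@En.n l13456 (nat_lit 8969) (nat_lit 13) (nat_lit 6))
    (@En.n l2031 (nat_lit 2528) (nat_lit 8) (nat_lit 14))
    (@En.n l4870 (nat_lit 5956) (nat_lit 8) (nat_lit 6))
    (@En.n l107 (nat_lit 9121) (nat_lit 15) (nat_lit 2))))
  (@Cl.mk (nat_lit 0x2000b0007000b000800080005000e00050002000b000900080008000e0005) (nat_lit 0x307120c00375660) (nat_lit 16) Lb.e (@T16.mk En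
    (@En.n l13510 (nat_lit 9120) (nat_lit 9) (nat_lit 5))
    (@En.i (nat_lit 8972) (nat_lit 1) (nat_lit 14))
    (@En.n l13511 (nat_lit 9121) (nat_lit 8) (nat_lit 8))
    (@En.n l13512 (nat_lit 12721) (nat_lit 3) (nat_lit 8))
    (@En.n l13513 (nat_lit 8194) (nat_lit 14) (nat_lit 9))
    (@En.i (nat_lit 9587) (nat_lit 6) (nat_lit 11))
    (@En.n l7 (nat_lit 9122) (nat_lit 6) (nat_lit 2))
    (@En.n l13514 (nat_lit 8961) (nat_lit 7) (nat_lit 5))
    (@En.n l13515 (nat_lit 2935) (nat_lit 9) (nat_lit 14))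
    (@En.n l13516 (nat_lit 12202) (nat_lit 9) (nat_lit 5))
    (@En.n l13517 (nat_lit 10035) (nat_lit 3) (nat_lit 8))
    (@En.n l13518 (nat_lit 7975) (nat_lit 4) (nat_lit 8))
    (@En.i (nat_lit 12110) (nat_lit 13) (nat_lit 11))
    (@En.n l8712 (nat_lit 5192) (nat_lit 14) (nat_lit 7))
    (@En.n l13519 (nat_lit 10038) (nat_lit 8) (nat_lit 11))
    (@En.n l17 (nat_lit 9122) (nat_lit 15) (nat_lit 2))))
  (@Cl.mk (nat_lit 0x20006000e00060002000e000c0002000c000a0004000a0004000a000e0006) (nat_lit 0x20068091010380) (nat_lit 16) Lb.e (@T16.mk En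
    (@En.n l11512 (nat_lit 6377) (nat_lit 7) (nat_lit 6))
    (@En.i (nat_lit 5876) (nat_lit 9) (nat_lit 14))
    (@En.n l532 (nat_lit 12742) (nat_lit 10) (nat_lit 10))
    (@En.i (nat_lit 6016) (nat_lit 3) (nat_lit 4))
    (@En.i (nat_lit 2558) (nat_lit 4) (nat_lit 10))
    (@En.i (nat_lit 9116) (nat_lit 5) (nat_lit 4))
    (@En.n l55 (nat_lit 6089) (nat_lit 14) (nat_lit 10))
    (@En.i (nat_lit 7824) (nat_lit 8) (nat_lit 12))
    (@En.n l3 (nat_lit 9123) (nat_lit 8) (nat_lit 2))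
    (@En.i (nat_lit 9119) (nat_lit 10) (nat_lit 12))
    (@En.i (nat_lit 12842) (nat_lit 1) (nat_lit 14))
    (@En.n l17 (nat_lit 9123) (nat_lit 11) (nat_lit 2))
    (@En.i (nat_lit 9223) (nat_lit 13) (nat_lit 6))
    (@En.i (nat_lit 2520) (nat_lit 1) (nat_lit 14))
    (@En.n l5934 (nat_lit 6373) (nat_lit 5) (nat_lit 6))
    (@En.n l7 (nat_lit 9123) (nat_lit 15) (nat_lit 2))))
  (@Cl.mk (nat_lit 0x3000b000b00090009000700050005000c000a000700070004000d00090006) (nat_lit 0x567500096000820) (nat_lit 16) Lb.e (@T16.mk En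
    (@En.n l39840 (nat_lit 1639) (nat_lit 0) (nat_lit 6))
    (@En.n l39841 (nat_lit 5917) (nat_lit 14) (nat_lit 9))
    (@En.n l11579 (nat_lit 5189) (nat_lit 2) (nat_lit 13))
    (@En.n l22921 (nat_lit 8576) (nat_lit 3) (nat_lit 4))
    (@En.n l9272 (nat_lit 7834) (nat_lit 9) (nat_lit 7))
    (@En.n l39842 (nat_lit 8575) (nat_lit 5) (nat_lit 7))
    (@En.n l39843 (nat_lit 8277) (nat_lit 6) (nat_lit 10))
    (@En.n l39844 (nat_lit 8631) (nat_lit 8) (nat_lit 12))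
    (@En.n l39845 (nat_lit 9180) (nat_lit 11) (nat_lit 5))
    (@En.i (nat_lit 8481) (nat_lit 9) (nat_lit 5))
    (@En.n l23535 (nat_lit 9059) (nat_lit 0) (nat_lit 7))
    (@En.n l39846 (nat_lit 7692) (nat_lit 7) (nat_lit 9))
    (@En.n l26614 (nat_lit 10396) (nat_lit 13) (nat_lit 9))
    (@En.n l39847 (nat_lit 9118) (nat_lit 5) (nat_lit 11))
    (@En.n l39848 (nat_lit 9126) (nat_lit 11) (nat_lit 11))
    (@En.n l7 (nat_lit 9108) (nat_lit 15) (nat_lit 3))))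
  (@Cl.mk (nat_lit 0x3000b00090009000600090005000c00090007000700040007000d000a0007) (nat_lit 0x623020860000960) (nat_lit 16) Lb.e (@T16.mk En
    (@En.n l9941 (nat_lit 6830) (nat_lit 0) (nat_lit 7))
    (@En.n l41283 (nat_lit 9126) (nat_lit 13) (nat_lit 10))
    (@En.n l10225 (nat_lit 9124) (nat_lit 2) (nat_lit 13))
    (@En.n l41284 (nat_lit 9865) (nat_lit 11) (nat_lit 7))
    (@En.n l41285 (nat_lit 8435) (nat_lit 4) (nat_lit 4))
    (@En.n l41286 (nat_lit 11531) (nat_lit 9) (nat_lit 7))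
    (@En.n l14271 (nat_lit 9076) (nat_lit 1) (nat_lit 7))
    (@En.n l2364 (nat_lit 9429) (nat_lit 8) (nat_lit 9))
    (@En.n l18752 (nat_lit 9128) (nat_lit 9) (nat_lit 12))
    (@En.n l14250 (nat_lit 8631) (nat_lit 9) (nat_lit 5))
    (@En.i (nat_lit 7116) (nat_lit 9) (nat_lit 9))
    (@En.n l30408 (nat_lit 9783) (nat_lit 6) (nat_lit 6))
    (@En.n l26122 (nat_lit 9130) (nat_lit 7) (nat_lit 9))
    (@En.n l41287 (nat_lit 10310) (nat_lit 14) (nat_lit 9))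
    (@En.i (nat_lit 6280) (nat_lit 10) (nat_lit 11))
    (@En.n l10226 (nat_lit 9127) (nat_lit 15) (nat_lit 3))))
  (@Cl.mk (nat_lit 0x40007000a0006000b000a000800080006000500090006000c000a00080008) (nat_lit 0x50452300309720) (nat_lit 16) Lb.e (@T16.mk En
    (@En.n l29466 (nat_lit 11529) (nat_lit 8) (nat_lit 8))
    (@En.n l40580 (nat_lit 9077) (nat_lit 1) (nat_lit 8))
    (@En.n l40581 (nat_lit 9455) (nat_lit 6) (nat_lit 10))
    (@En.n l40582 (nat_lit 9129) (nat_lit 3) (nat_lit 12))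
    (@En.n l40498 (nat_lit 9378) (nat_lit 4) (nat_lit 6))
    (@En.n l40583 (nat_lit 9125) (nat_lit 10) (nat_lit 9))
    (@En.n l40584 (nat_lit 9127) (nat_lit 11) (nat_lit 5))
    (@En.i (nat_lit 9782) (nat_lit 7) (nat_lit 6))
    (@En.n l14025 (nat_lit 9131) (nat_lit 8) (nat_lit 8))
    (@En.n l40585 (nat_lit 10308) (nat_lit 2) (nat_lit 8))
    (@En.n l40586 (nat_lit 6278) (nat_lit 6) (nat_lit 10))
    (@En.n l40498 (nat_lit 11999) (nat_lit 12) (nat_lit 11))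
    (@En.n l29465 (nat_lit 4936) (nat_lit 5) (nat_lit 6))
    (@En.n l40586 (nat_lit 5912) (nat_lit 8) (nat_lit 10))
    (@En.n l40587 (nat_lit 11182) (nat_lit 11) (nat_lit 7))
    (@En.n l40588 (nat_lit 8428) (nat_lit 15) (nat_lit 4))))
  (@Cl.mk (nat_lit 0x3000b00090009000500090005000c000a0007000700040007000d0006000b) (nat_lit 0x620020340000806) (nat_lit 16) Lb.e (@T16.mk En
    (@En.n l38838 (nat_lit 12294) (nat_lit 0) (nat_lit 11))
    (@En.n l38839 (nat_lit 9916) (nat_lit 5) (nat_lit 6))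
    (@En.n l644 (nat_lit 9108) (nat_lit 2) (nat_lit 13))
    (@En.n l38840 (nat_lit 11181) (nat_lit 11) (nat_lit 7))
    (@En.n l38841 (nat_lit 8779) (nat_lit 4) (nat_lit 4))
    (@En.n l9272 (nat_lit 11532) (nat_lit 9) (nat_lit 7))
    (@En.n l38842 (nat_lit 8787) (nat_lit 1) (nat_lit 7))
    (@En.n l38843 (nat_lit 9454) (nat_lit 6) (nat_lit 10))
    (@En.n l38844 (nat_lit 8632) (nat_lit 9) (nat_lit 12))
    (@En.n l11547 (nat_lit 8628) (nat_lit 9) (nat_lit 5))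
    (@En.n l19429 (nat_lit 7117) (nat_lit 10) (nat_lit 9))
    (@En.n l23764 (nat_lit 10645) (nat_lit 6) (nat_lit 5))
    (@En.n l32459 (nat_lit 9136) (nat_lit 7) (nat_lit 9))
    (@En.n l38842 (nat_lit 10312) (nat_lit 14) (nat_lit 9))
    (@En.n l38845 (nat_lit 11934) (nat_lit 2) (nat_lit 11))
    (@En.n l19434 (nat_lit 9125) (nat_lit 15) (nat_lit 3))))
  (@Cl.mk (nat_lit 0x30006000a000a00060009000c0008000600060004000a0007000d000a0008) (nat_lit 0x83027500070973) (nat_lit 16) Lb.e (@T16.mk En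
    (@En.n l17763 (nat_lit 6941) (nat_lit 0) (nat_lit 8))
    (@En.n l33165 (nat_lit 9129) (nat_lit 12) (nat_lit 10))
    (@En.i (nat_lit 8631) (nat_lit 2) (nat_lit 13))
    (@En.n l23119 (nat_lit 9125) (nat_lit 3) (nat_lit 7))
    (@En.n l6080 (nat_lit 9623) (nat_lit 4) (nat_lit 10))
    (@En.n l1778 (nat_lit 8408) (nat_lit 5) (nat_lit 4))
    (@En.n l2172 (nat_lit 8633) (nat_lit 10) (nat_lit 6))
    (@En.i (nat_lit 9072) (nat_lit 7) (nat_lit 6))
    (@En.n l6080 (nat_lit 9420) (nat_lit 9) (nat_lit 8))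
    (@En.i (nat_lit 6786) (nat_lit 6) (nat_lit 12))
    (@En.i (nat_lit 7118) (nat_lit 9) (nat_lit 9))
    (@En.n l10142 (nat_lit 9784) (nat_lit 12) (nat_lit 6))
    (@En.n l6840 (nat_lit 9133) (nat_lit 6) (nat_lit 10))
    (@En.n l38864 (nat_lit 10311) (nat_lit 9) (nat_lit 10))
    (@En.n l5911 (nat_lit 6837) (nat_lit 12) (nat_lit 6))
    (@En.n l10121 (nat_lit 8632) (nat_lit 15) (nat_lit 3))))
  (@Cl.mk (nat_lit 0x4000b0007000a0007000b000500090009000600050009000c000900070007) (nat_lit 0x606050230038600) (nat_lit 16) Lb.e (@T16.mk En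
    (@En.n l20115 (nat_lit 11530) (nat_lit 9) (nat_lit 7))
    (@En.n l38068 (nat_lit 9075) (nat_lit 1) (nat_lit 7))
    (@En.i (nat_lit 9319) (nat_lit 13) (nat_lit 9))
    (@En.n l38069 (nat_lit 9252) (nat_lit 6) (nat_lit 12))
    (@En.n l38070 (nat_lit 9128) (nat_lit 10) (nat_lit 9))
    (@En.n l38071 (nat_lit 8632) (nat_lit 11) (nat_lit 5))
    (@En.n l20960 (nat_lit 9654) (nat_lit 0) (nat_lit 6))
    (@En.n l3519 (nat_lit 9132) (nat_lit 7) (nat_lit 9))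
    (@En.i (nat_lit 10309) (nat_lit 10) (nat_lit 9))
    (@En.n l38072 (nat_lit 6831) (nat_lit 9) (nat_lit 5))
    (@En.i (nat_lit 11998) (nat_lit 8) (nat_lit 11))
    (@En.n l2038 (nat_lit 4929) (nat_lit 1) (nat_lit 7))
    (@En.i (nat_lit 9377) (nat_lit 8) (nat_lit 10))
    (@En.n l38073 (nat_lit 9126) (nat_lit 14) (nat_lit 7))
    (@En.n l35388 (nat_lit 9622) (nat_lit 4) (nat_lit 11))
    (@En.n l3523 (nat_lit 8431) (nat_lit 15) (nat_lit 4))))
  (@Cl.mk (nat_lit 0x200050008000d000b00080003000c0009000500080004000b0008000e0007) (nat_lit 0x42330620303570) (nat_lit 16) Lb.e (@T16.mk En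
    (@En.n l28406 (nat_lit 9125) (nat_lit 6) (nat_lit 7))
    (@En.n l38688 (nat_lit 9443) (nat_lit 1) (nat_lit 14))
    (@En.n l17581 (nat_lit 9430) (nat_lit 2) (nat_lit 8))
    (@En.n l39011 (nat_lit 9133) (nat_lit 3) (nat_lit 11))
    (@En.n l28 (nat_lit 9134) (nat_lit 4) (nat_lit 4))
    (@En.n l1872 (nat_lit 7697) (nat_lit 5) (nat_lit 8))
    (@En.n l170 (nat_lit 1753) (nat_lit 6) (nat_lit 5))
    (@En.n l2650 (nat_lit 12477) (nat_lit 8) (nat_lit 9))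
    (@En.n l5242 (nat_lit 6275) (nat_lit 9) (nat_lit 12))
    (@En.n l39012 (nat_lit 9136) (nat_lit 9) (nat_lit 3))
    (@En.i (nat_lit 6940) (nat_lit 11) (nat_lit 8))
    (@En.n l13079 (nat_lit 9131) (nat_lit 12) (nat_lit 11))
    (@En.n l4684 (nat_lit 7692) (nat_lit 13) (nat_lit 13))
    (@En.n l13080 (nat_lit 11184) (nat_lit 14) (nat_lit 8))
    (@En.n l170 (nat_lit 2627) (nat_lit 13) (nat_lit 5))
    (@En.n l17 (nat_lit 9130) (nat_lit 15) (nat_lit 2))))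
  (@Cl.mk (nat_lit 0x200050008000b0007000c000b00080005000400080005000b0009000e0008) (nat_lit 0x42095200408683) (nat_lit 16) Lb.e (@T16.mk En
    (@En.n l18697 (nat_lit 9126) (nat_lit 1) (nat_lit 8))
    (@En.n l37672 (nat_lit 9448) (nat_lit 1) (nat_lit 14))
    (@En.n l40602 (nat_lit 9456) (nat_lit 2) (nat_lit 9))
    (@En.n l40603 (nat_lit 9132) (nat_lit 3) (nat_lit 11))
    (@En.n l37675 (nat_lit 9379) (nat_lit 4) (nat_lit 5))
    (@En.n l13773 (nat_lit 9130) (nat_lit 5) (nat_lit 8))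
    (@En.n l40604 (nat_lit 9136) (nat_lit 6) (nat_lit 4))
    (@En.i (nat_lit 2576) (nat_lit 7) (nat_lit 5))
    (@En.n l40605 (nat_lit 12478) (nat_lit 9) (nat_lit 8))
    (@En.n l217 (nat_lit 6277) (nat_lit 10) (nat_lit 11))
    (@En.n l40606 (nat_lit 12599) (nat_lit 11) (nat_lit 12))
    (@En.n l810 (nat_lit 4934) (nat_lit 12) (nat_lit 7))
    (@En.n l2039 (nat_lit 6291) (nat_lit 13) (nat_lit 11))
    (@En.n l781 (nat_lit 11183) (nat_lit 14) (nat_lit 8))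
    (@En.i (nat_lit 2626) (nat_lit 13) (nat_lit 5))
    (@En.n l11 (nat_lit 9131) (nat_lit 15) (nat_lit 2))))
  (@Cl.mk (nat_lit 0x20005000b0008000b0008000c00050009000500040008000b0008000e0007) (nat_lit 0x75415020037590) (nat_lit 16) Lb.e (@T16.mk En
    (@En.n l4130 (nat_lit 9129) (nat_lit 1) (nat_lit 7))
    (@En.n l13102 (nat_lit 9445) (nat_lit 1) (nat_lit 14))
    (@En.n l22167 (nat_lit 9318) (nat_lit 2) (nat_lit 8))
    (@En.n l5381 (nat_lit 9250) (nat_lit 3) (nat_lit 11))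
    (@En.n l42076 (nat_lit 9133) (nat_lit 4) (nat_lit 8))
    (@En.n l16585 (nat_lit 9135) (nat_lit 5) (nat_lit 4))
    (@En.n l16837 (nat_lit 1758) (nat_lit 6) (nat_lit 5))
    (@En.n l5381 (nat_lit 10326) (nat_lit 8) (nat_lit 9))
    (@En.n l10039 (nat_lit 6834) (nat_lit 8) (nat_lit 5))
    (@En.i (nat_lit 12601) (nat_lit 10) (nat_lit 12))
    (@En.n l3345 (nat_lit 4928) (nat_lit 11) (nat_lit 8))
    (@En.n l4365 (nat_lit 9376) (nat_lit 12) (nat_lit 11))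
    (@En.n l34252 (nat_lit 9131) (nat_lit 13) (nat_lit 8))
    (@En.n l2832 (nat_lit 9624) (nat_lit 14) (nat_lit 11))
    (@En.n l513 (nat_lit 8471) (nat_lit 13) (nat_lit 5))
    (@En.n l3 (nat_lit 9132) (nat_lit 15) (nat_lit 2))))
  (@Cl.mk (nat_lit 0x20005000a0008000d000b000900030006000a00050008000b0007000e0006) (nat_lit 0x65353002022060) (nat_lit 16) Lb.e (@T16.mk En
    (@En.n l5760 (nat_lit 9128) (nat_lit 7) (nat_lit 6))
    (@En.n l2038 (nat_lit 9437) (nat_lit 1) (nat_lit 14))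
    (@En.n l22408 (nat_lit 9418) (nat_lit 2) (nat_lit 7))
    (@En.n l19836 (nat_lit 6787) (nat_lit 3) (nat_lit 11))
    (@En.n l1897 (nat_lit 7696) (nat_lit 4) (nat_lit 8))
    (@En.n l5372 (nat_lit 1752) (nat_lit 5) (nat_lit 5))
    (@En.n l5373 (nat_lit 10325) (nat_lit 7) (nat_lit 10))
    (@En.i (nat_lit 6832) (nat_lit 7) (nat_lit 6))
    (@En.n l3340 (nat_lit 9135) (nat_lit 8) (nat_lit 3))
    (@En.n l16911 (nat_lit 6942) (nat_lit 0) (nat_lit 9))
    (@En.n l43196 (nat_lit 9132) (nat_lit 11) (nat_lit 11))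
    (@En.n l43197 (nat_lit 9134) (nat_lit 12) (nat_lit 13))
    (@En.n l43198 (nat_lit 9130) (nat_lit 13) (nat_lit 8))
    (@En.n l12876 (nat_lit 9625) (nat_lit 14) (nat_lit 10))
    (@En.n l226 (nat_lit 8398) (nat_lit 13) (nat_lit 5))
    (@En.n l28 (nat_lit 9133) (nat_lit 15) (nat_lit 2))))
  (@Cl.mk (nat_lit 0x20005000a000d000a00080003000c0006000a00060004000b0008000e0006) (nat_lit 0x62340608002490) (nat_lit 16) Lb.e (@T16.mk En
    (@En.n l37562 (nat_lit 8631) (nat_lit 6) (nat_lit 6))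
    (@En.n l37563 (nat_lit 9444) (nat_lit 1) (nat_lit 14))
    (@En.n l37564 (nat_lit 9419) (nat_lit 2) (nat_lit 8))
    (@En.n l5599 (nat_lit 3465) (nat_lit 3) (nat_lit 11))
    (@En.n l17792 (nat_lit 7901) (nat_lit 4) (nat_lit 4))
    (@En.n l5995 (nat_lit 1750) (nat_lit 5) (nat_lit 6))
    (@En.n l3303 (nat_lit 9093) (nat_lit 7) (nat_lit 10))
    (@En.n l37565 (nat_lit 9133) (nat_lit 7) (nat_lit 6))
    (@En.n l37566 (nat_lit 9132) (nat_lit 9) (nat_lit 12))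
    (@En.n l37567 (nat_lit 9137) (nat_lit 9) (nat_lit 3))
    (@En.i (nat_lit 6943) (nat_lit 11) (nat_lit 8))
    (@En.n l37568 (nat_lit 9379) (nat_lit 12) (nat_lit 10))
    (@En.n l619 (nat_lit 7687) (nat_lit 13) (nat_lit 13))
    (@En.n l37569 (nat_lit 9619) (nat_lit 14) (nat_lit 10))
    (@En.n l3303 (nat_lit 8472) (nat_lit 13) (nat_lit 5))
    (@En.n l17 (nat_lit 9134) (nat_lit 15) (nat_lit 2))))
  (@Cl.mk (nat_lit 0x20005000a0008000d0008000c00030006000a00040008000b0008000e0006) (nat_lit 0x65b08008013430) (nat_lit 16) Lb.e (@T16.mk En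
    (@En.i (nat_lit 8632) (nat_lit 7) (nat_lit 6))
    (@En.n l1770 (nat_lit 9442) (nat_lit 1) (nat_lit 14))
    (@En.i (nat_lit 9461) (nat_lit 2) (nat_lit 8))
    (@En.i (nat_lit 3462) (nat_lit 3) (nat_lit 11))
    (@En.n l1769 (nat_lit 3530) (nat_lit 4) (nat_lit 8))
    (@En.n l31165 (nat_lit 6275) (nat_lit 5) (nat_lit 4))
    (@En.i (nat_lit 10324) (nat_lit 7) (nat_lit 10))
    (@En.n l1867 (nat_lit 12122) (nat_lit 7) (nat_lit 6))
    (@En.n l9938 (nat_lit 9133) (nat_lit 8) (nat_lit 3))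
    (@En.n l7077 (nat_lit 12296) (nat_lit 0) (nat_lit 12))
    (@En.n l3866 (nat_lit 9909) (nat_lit 11) (nat_lit 8))
    (@En.n l17555 (nat_lit 9137) (nat_lit 12) (nat_lit 13))
    (@En.n l17556 (nat_lit 9136) (nat_lit 13) (nat_lit 8))
    (@En.n l7079 (nat_lit 9626) (nat_lit 14) (nat_lit 10))
    (@En.i (nat_lit 8438) (nat_lit 13) (nat_lit 5))
    (@En.n l50 (nat_lit 9135) (nat_lit 15) (nat_lit 2))))
noncomputable def a571 : T16 Cl := @T16.mk Cl
  (@Cl.mk (nat_lit 0x200050008000d0007000c0003000c0009000400080004000b0009000e0007) (nat_lit 0x42070670104570) (nat_lit 16) Lb.e (@T16.mk En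
    (@En.n l21810 (nat_lit 9127) (nat_lit 6) (nat_lit 7))
    (@En.n l3 (nat_lit 9447) (nat_lit 1) (nat_lit 14))
    (@En.n l43182 (nat_lit 9450) (nat_lit 2) (nat_lit 9))
    (@En.n l7509 (nat_lit 9135) (nat_lit 3) (nat_lit 11))
    (@En.i (nat_lit 9137) (nat_lit 4) (nat_lit 4))
    (@En.n l766 (nat_lit 3535) (nat_lit 5) (nat_lit 8))
    (@En.n l22052 (nat_lit 6276) (nat_lit 6) (nat_lit 4))
    (@En.n l17904 (nat_lit 12476) (nat_lit 8) (nat_lit 9))
    (@En.n l2642 (nat_lit 11931) (nat_lit 9) (nat_lit 12))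
    (@En.n l23400 (nat_lit 9130) (nat_lit 9) (nat_lit 3))
    (@En.n l15957 (nat_lit 12299) (nat_lit 11) (nat_lit 12))
    (@En.n l41703 (nat_lit 9910) (nat_lit 12) (nat_lit 7))
    (@En.n l1722 (nat_lit 7690) (nat_lit 13) (nat_lit 13))
    (@En.n l33184 (nat_lit 11186) (nat_lit 14) (nat_lit 8))
    (@En.n l33185 (nat_lit 8439) (nat_lit 13) (nat_lit 5))
    (@En.n l18 (nat_lit 9136) (nat_lit 15) (nat_lit 2))))
  (@Cl.mk (nat_lit 0x20005000a000d0007000b0003000c0006000a00050004000b0009000e0006) (nat_lit 0x6a070a08003430) (nat_lit 16) Lb.e (@T16.mk En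
    (@En.n l38771 (nat_lit 8628) (nat_lit 6) (nat_lit 6))
    (@En.n l3 (nat_lit 9446) (nat_lit 1) (nat_lit 14))
    (@En.n l42134 (nat_lit 9462) (nat_lit 2) (nat_lit 9))
    (@En.n l2642 (nat_lit 3460) (nat_lit 3) (nat_lit 11))
    (@En.n l7 (nat_lit 8621) (nat_lit 4) (nat_lit 4))
    (@En.n l22052 (nat_lit 6277) (nat_lit 5) (nat_lit 5))
    (@En.i (nat_lit 9089) (nat_lit 7) (nat_lit 10))
    (@En.n l17904 (nat_lit 9135) (nat_lit 7) (nat_lit 6))
    (@En.n l17905 (nat_lit 8072) (nat_lit 9) (nat_lit 12))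
    (@En.n l21812 (nat_lit 9134) (nat_lit 9) (nat_lit 3))
    (@En.n l9269 (nat_lit 12295) (nat_lit 11) (nat_lit 11))
    (@En.n l42135 (nat_lit 9802) (nat_lit 12) (nat_lit 7))
    (@En.n l1208 (nat_lit 7684) (nat_lit 13) (nat_lit 13))
    (@En.n l42136 (nat_lit 9621) (nat_lit 14) (nat_lit 10))
    (@En.n l42137 (nat_lit 7681) (nat_lit 13) (nat_lit 5))
    (@En.n l18 (nat_lit 9137) (nat_lit 15) (nat_lit 2))))
  (@Cl.mk (nat_lit 0x3000b00080005000d000c00050003000c00040008000c0004000d000b0004) (nat_lit 0x640ba0080310a40) (nat_lit 16) Lb.e (@T16.mk En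
    (@En.n l22234 (nat_lit 8724) (nat_lit 0) (nat_lit 4))
    (@En.n l17957 (nat_lit 10175) (nat_lit 9) (nat_lit 11))
    (@En.i (nat_lit 3968) (nat_lit 1) (nat_lit 13))
    (@En.i (nat_lit 9198) (nat_lit 3) (nat_lit 4))
    (@En.n l17957 (nat_lit 4323) (nat_lit 7) (nat_lit 12))
    (@En.n l152 (nat_lit 9089) (nat_lit 11) (nat_lit 8))
    (@En.n l117 (nat_lit 9141) (nat_lit 6) (nat_lit 4))
    (@En.n l17893 (nat_lit 10586) (nat_lit 0) (nat_lit 12))
    (@En.n l13782 (nat_lit 4332) (nat_lit 1) (nat_lit 3))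
    (@En.i (nat_lit 9110) (nat_lit 0) (nat_lit 5))
    (@En.n l22522 (nat_lit 9139) (nat_lit 4) (nat_lit 12))
    (@En.n l388 (nat_lit 4241) (nat_lit 2) (nat_lit 13))
    (@En.n l15675 (nat_lit 8493) (nat_lit 3) (nat_lit 5))
    (@En.i (nat_lit 8873) (nat_lit 14) (nat_lit 8))
    (@En.n l21657 (nat_lit 9701) (nat_lit 11) (nat_lit 11))
    (@En.n l7 (nat_lit 8602) (nat_lit 15) (nat_lit 3))))
  (@Cl.mk (nat_lit 0x30008000c0005000d000b00040003000c00080005000c0004000d000b0004) (nat_lit 0x510a20076090100) (nat_lit 16) Lb.e (@T16.mk En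
    (@En.n l33757 (nat_lit 9148) (nat_lit 0) (nat_lit 4))
    (@En.n l644 (nat_lit 10294) (nat_lit 0) (nat_lit 11))
    (@En.n l1003 (nat_lit 3627) (nat_lit 1) (nat_lit 13))
    (@En.n l11547 (nat_lit 9393) (nat_lit 3) (nat_lit 4))
    (@En.n l2125 (nat_lit 10447) (nat_lit 0) (nat_lit 12))
    (@En.n l5254 (nat_lit 8492) (nat_lit 5) (nat_lit 5))
    (@En.n l33994 (nat_lit 10152) (nat_lit 14) (nat_lit 8))
    (@En.n l781 (nat_lit 10088) (nat_lit 8) (nat_lit 12))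
    (@En.n l20119 (nat_lit 9140) (nat_lit 8) (nat_lit 3))
    (@En.n l3098 (nat_lit 8727) (nat_lit 0) (nat_lit 4))
    (@En.i (nat_lit 9151) (nat_lit 11) (nat_lit 11))
    (@En.n l33757 (nat_lit 4352) (nat_lit 1) (nat_lit 13))
    (@En.n l5254 (nat_lit 9204) (nat_lit 3) (nat_lit 5))
    (@En.i (nat_lit 4328) (nat_lit 7) (nat_lit 12))
    (@En.n l35824 (nat_lit 10472) (nat_lit 5) (nat_lit 8))
    (@En.n l7 (nat_lit 4332) (nat_lit 15) (nat_lit 3))))
  (@Cl.mk (nat_lit 0x30008000d0005000d0003000c0003000c00080004000c0004000d000b0004) (nat_lit 0x490905073090300) (nat_lit 16) Lb.e (@T16.mk En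
    (@En.n l3866 (nat_lit 9147) (nat_lit 0) (nat_lit 4))
    (@En.n l3532 (nat_lit 9205) (nat_lit 0) (nat_lit 11))
    (@En.n l3532 (nat_lit 3624) (nat_lit 1) (nat_lit 13))
    (@En.i (nat_lit 9395) (nat_lit 3) (nat_lit 4))
    (@En.n l11217 (nat_lit 10446) (nat_lit 10) (nat_lit 12))
    (@En.n l22467 (nat_lit 9085) (nat_lit 5) (nat_lit 4))
    (@En.n l61 (nat_lit 10151) (nat_lit 14) (nat_lit 8))
    (@En.n l13889 (nat_lit 10817) (nat_lit 8) (nat_lit 12))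
    (@En.n l15535 (nat_lit 9139) (nat_lit 8) (nat_lit 3))
    (@En.n l3530 (nat_lit 9143) (nat_lit 0) (nat_lit 12))
    (@En.n l8312 (nat_lit 9150) (nat_lit 10) (nat_lit 3))
    (@En.n l1867 (nat_lit 4351) (nat_lit 0) (nat_lit 13))
    (@En.i (nat_lit 9203) (nat_lit 3) (nat_lit 5))
    (@En.n l15535 (nat_lit 8308) (nat_lit 2) (nat_lit 13))
    (@En.n l22492 (nat_lit 10471) (nat_lit 3) (nat_lit 8))
    (@En.n l2710 (nat_lit 4335) (nat_lit 15) (nat_lit 3))))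
  (@Cl.mk (nat_lit 0x3000a00080005000c000c000a0006000400040008000c0006000d000b0004) (nat_lit 0x540300000240920) (nat_lit 16) Lb.e (@T16.mk En
    (@En.n l20118 (nat_lit 8722) (nat_lit 0) (nat_lit 4))
    (@En.n l644 (nat_lit 10177) (nat_lit 0) (nat_lit 11))
    (@En.n l19337 (nat_lit 3240) (nat_lit 1) (nat_lit 13))
    (@En.n l20119 (nat_lit 9336) (nat_lit 3) (nat_lit 6))
    (@En.n l20120 (nat_lit 9166) (nat_lit 7) (nat_lit 12))
    (@En.i (nat_lit 10215) (nat_lit 5) (nat_lit 8))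
    (@En.n l3536 (nat_lit 9143) (nat_lit 12) (nat_lit 4))
    (@En.n l20120 (nat_lit 9139) (nat_lit 0) (nat_lit 4))
    (@En.n l3866 (nat_lit 2945) (nat_lit 0) (nat_lit 6))
    (@En.n l20121 (nat_lit 10293) (nat_lit 10) (nat_lit 10))
    (@En.n l20122 (nat_lit 9148) (nat_lit 4) (nat_lit 12))
    (@En.n l20123 (nat_lit 10442) (nat_lit 12) (nat_lit 12))
    (@En.n l20124 (nat_lit 8320) (nat_lit 4) (nat_lit 5))
    (@En.n l3866 (nat_lit 8806) (nat_lit 14) (nat_lit 8))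
    (@En.n l16865 (nat_lit 9275) (nat_lit 14) (nat_lit 10))
    (@En.n l7 (nat_lit 9142) (nat_lit 15) (nat_lit 3))))
  (@Cl.mk (nat_lit 0x3000a00080004000c000c000a0006000400040008000d0006000d0003000c) (nat_lit 0x6309000002a0b03) (nat_lit 16) Lb.e (@T16.mk En
    (@En.n l10139 (nat_lit 8720) (nat_lit 0) (nat_lit 12))
    (@En.n l1236 (nat_lit 9146) (nat_lit 15) (nat_lit 3))
    (@En.i (nat_lit 3243) (nat_lit 0) (nat_lit 13))
    (@En.i (nat_lit 9337) (nat_lit 3) (nat_lit 6))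
    (@En.n l19334 (nat_lit 8667) (nat_lit 2) (nat_lit 13))
    (@En.i (nat_lit 10468) (nat_lit 5) (nat_lit 8))
    (@En.n l3536 (nat_lit 9144) (nat_lit 12) (nat_lit 4))
    (@En.n l17 (nat_lit 9140) (nat_lit 0) (nat_lit 4))
    (@En.n l3866 (nat_lit 2938) (nat_lit 0) (nat_lit 6))
    (@En.n l20121 (nat_lit 10291) (nat_lit 10) (nat_lit 10))
    (@En.n l35119 (nat_lit 9147) (nat_lit 4) (nat_lit 12))
    (@En.i (nat_lit 10441) (nat_lit 10) (nat_lit 12))
    (@En.n l13196 (nat_lit 8657) (nat_lit 10) (nat_lit 4))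
    (@En.n l3866 (nat_lit 8808) (nat_lit 14) (nat_lit 8))
    (@En.i (nat_lit 9411) (nat_lit 1) (nat_lit 10))
    (@En.i (nat_lit 9141) (nat_lit 15) (nat_lit 3))))
  (@Cl.mk (nat_lit 0x2000b000700040008000c0005000d000b00040003000900080005000e000c) (nat_lit 0x1803400730c4) (nat_lit 16) Lb.e (@T16.mk En
    (@En.n l9832 (nat_lit 9141) (nat_lit 11) (nat_lit 12))
    (@En.n l9833 (nat_lit 3121) (nat_lit 1) (nat_lit 14))
    (@En.n l9834 (nat_lit 8648) (nat_lit 2) (nat_lit 5))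
    (@En.i (nat_lit 8863) (nat_lit 3) (nat_lit 8))
    (@En.n l1080 (nat_lit 9521) (nat_lit 4) (nat_lit 9))
    (@En.n l11 (nat_lit 9144) (nat_lit 5) (nat_lit 3))
    (@En.n l9835 (nat_lit 8721) (nat_lit 0) (nat_lit 4))
    (@En.n l55 (nat_lit 10202) (nat_lit 8) (nat_lit 11))
    (@En.n l9836 (nat_lit 3241) (nat_lit 9) (nat_lit 13))
    (@En.n l1080 (nat_lit 9341) (nat_lit 9) (nat_lit 5))
    (@En.n l9837 (nat_lit 9158) (nat_lit 11) (nat_lit 12))
    (@En.n l17 (nat_lit 2963) (nat_lit 12) (nat_lit 8))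
    (@En.n l3098 (nat_lit 9138) (nat_lit 6) (nat_lit 4))
    (@En.i (nat_lit 2949) (nat_lit 14) (nat_lit 7))
    (@En.i (nat_lit 10583) (nat_lit 1) (nat_lit 11))
    (@En.n l50 (nat_lit 9143) (nat_lit 15) (nat_lit 2))))
  (@Cl.mk (nat_lit 0x2000b000700040008000d0005000d0003000c0003000900080004000e000c) (nat_lit 0x1903050720ca) (nat_lit 16) Lb.e (@T16.mk En
    (@En.n l9832 (nat_lit 9142) (nat_lit 11) (nat_lit 12))
    (@En.i (nat_lit 3120) (nat_lit 1) (nat_lit 14))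
    (@En.n l3585 (nat_lit 8649) (nat_lit 2) (nat_lit 4))
    (@En.i (nat_lit 8861) (nat_lit 3) (nat_lit 8))
    (@En.n l16383 (nat_lit 9417) (nat_lit 4) (nat_lit 9))
    (@En.i (nat_lit 9143) (nat_lit 5) (nat_lit 3))
    (@En.n l7645 (nat_lit 9152) (nat_lit 0) (nat_lit 12))
    (@En.n l117 (nat_lit 9145) (nat_lit 7) (nat_lit 3))
    (@En.n l16383 (nat_lit 3622) (nat_lit 9) (nat_lit 13))
    (@En.n l2642 (nat_lit 9340) (nat_lit 9) (nat_lit 5))
    (@En.n l3593 (nat_lit 8673) (nat_lit 11) (nat_lit 13))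
    (@En.n l17 (nat_lit 2953) (nat_lit 12) (nat_lit 8))
    (@En.n l3098 (nat_lit 8602) (nat_lit 6) (nat_lit 4))
    (@En.i (nat_lit 2944) (nat_lit 14) (nat_lit 7))
    (@En.i (nat_lit 10584) (nat_lit 1) (nat_lit 11))
    (@En.n l50 (nat_lit 9144) (nat_lit 15) (nat_lit 2))))
  (@Cl.mk (nat_lit 0x2000a000700040008000d000c00060003000c0004000900080004000e000c) (nat_lit 0x6001990050320ca) (nat_lit 16) Lb.e (@T16.mk En
    (@En.n l396 (nat_lit 9146) (nat_lit 9) (nat_lit 12))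
    (@En.i (nat_lit 3123) (nat_lit 1) (nat_lit 14))
    (@En.n l16292 (nat_lit 8650) (nat_lit 2) (nat_lit 4))
    (@En.i (nat_lit 8850) (nat_lit 3) (nat_lit 8))
    (@En.n l11401 (nat_lit 9579) (nat_lit 4) (nat_lit 9))
    (@En.i (nat_lit 8720) (nat_lit 5) (nat_lit 4))
    (@En.n l16495 (nat_lit 10204) (nat_lit 7) (nat_lit 12))
    (@En.n l152 (nat_lit 9144) (nat_lit 7) (nat_lit 3))
    (@En.i (nat_lit 7975) (nat_lit 8) (nat_lit 6))
    (@En.n l619 (nat_lit 9143) (nat_lit 10) (nat_lit 12))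
    (@En.i (nat_lit 8674) (nat_lit 11) (nat_lit 13))
    (@En.n l17 (nat_lit 2962) (nat_lit 12) (nat_lit 8))
    (@En.n l3532 (nat_lit 8603) (nat_lit 13) (nat_lit 4))
    (@En.i (nat_lit 2947) (nat_lit 14) (nat_lit 7))
    (@En.i (nat_lit 10589) (nat_lit 1) (nat_lit 10))
    (@En.n l50 (nat_lit 9145) (nat_lit 15) (nat_lit 2))))
  (@Cl.mk (nat_lit 0x3000c0004000a00080004000c000c00090006000400040008000d000c0007) (nat_lit 0x503309040002450) (nat_lit 16) Lb.e (@T16.mk En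
    (@En.i (nat_lit 10802) (nat_lit 0) (nat_lit 7))
    (@En.n l9879 (nat_lit 9141) (nat_lit 4) (nat_lit 12))
    (@En.n l13889 (nat_lit 8672) (nat_lit 2) (nat_lit 13))
    (@En.i (nat_lit 10211) (nat_lit 11) (nat_lit 8))
    (@En.n l18 (nat_lit 9145) (nat_lit 12) (nat_lit 4))
    (@En.n l31589 (nat_lit 9150) (nat_lit 0) (nat_lit 4))
    (@En.i (nat_lit 2943) (nat_lit 0) (nat_lit 6))
    (@En.n l6444 (nat_lit 10187) (nat_lit 1) (nat_lit 9))
    (@En.n l1131 (nat_lit 9149) (nat_lit 4) (nat_lit 12))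
    (@En.n l11400 (nat_lit 10440) (nat_lit 10) (nat_lit 12))
    (@En.n l31589 (nat_lit 8656) (nat_lit 10) (nat_lit 4))
    (@En.i (nat_lit 8811) (nat_lit 0) (nat_lit 8))
    (@En.n l11401 (nat_lit 9583) (nat_lit 1) (nat_lit 10))
    (@En.n l31589 (nat_lit 8719) (nat_lit 7) (nat_lit 4))
    (@En.n l16495 (nat_lit 10208) (nat_lit 0) (nat_lit 12))
    (@En.n l9876 (nat_lit 9142) (nat_lit 1) (nat_lit 3))))
  (@Cl.mk (nat_lit 0x20008000d0007000d0003000c0003000b00080004000c00090005000e0004) (nat_lit 0x390b040720a4040) (nat_lit 16) Lb.e (@T16.mk En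
    (@En.n l25037 (nat_lit 9142) (nat_lit 7) (nat_lit 4))
    (@En.n l34052 (nat_lit 3625) (nat_lit 1) (nat_lit 14))
    (@En.i (nat_lit 2939) (nat_lit 2) (nat_lit 5))
    (@En.n l6081 (nat_lit 9990) (nat_lit 3) (nat_lit 9))
    (@En.n l4356 (nat_lit 9556) (nat_lit 10) (nat_lit 12))
    (@En.n l24384 (nat_lit 8661) (nat_lit 5) (nat_lit 4))
    (@En.n l2781 (nat_lit 8815) (nat_lit 6) (nat_lit 8))
    (@En.i (nat_lit 9408) (nat_lit 8) (nat_lit 11))
    (@En.n l28892 (nat_lit 9148) (nat_lit 8) (nat_lit 3))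
    (@En.n l4353 (nat_lit 8721) (nat_lit 10) (nat_lit 12))
    (@En.n l117 (nat_lit 9149) (nat_lit 10) (nat_lit 3))
    (@En.n l2922 (nat_lit 3244) (nat_lit 12) (nat_lit 13))
    (@En.i (nat_lit 9339) (nat_lit 13) (nat_lit 7))
    (@En.n l9775 (nat_lit 7538) (nat_lit 14) (nat_lit 13))
    (@En.n l34053 (nat_lit 10469) (nat_lit 5) (nat_lit 8))
    (@En.n l18 (nat_lit 9147) (nat_lit 15) (nat_lit 2))))
  (@Cl.mk (nat_lit 0x20008000c0007000d000b00040003000b00080005000c00090005000e0004) (nat_lit 0x350b200530a4040) (nat_lit 16) Lb.e (@T16.mk En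
    (@En.n l19812 (nat_lit 9141) (nat_lit 7) (nat_lit 4))
    (@En.n l2038 (nat_lit 3633) (nat_lit 1) (nat_lit 14))
    (@En.n l152 (nat_lit 2946) (nat_lit 2) (nat_lit 5))
    (@En.n l31197 (nat_lit 9989) (nat_lit 3) (nat_lit 9))
    (@En.i (nat_lit 10445) (nat_lit 5) (nat_lit 12))
    (@En.i (nat_lit 7343) (nat_lit 5) (nat_lit 5))
    (@En.n l29020 (nat_lit 8913) (nat_lit 6) (nat_lit 8))
    (@En.i (nat_lit 9276) (nat_lit 8) (nat_lit 11))
    (@En.n l20110 (nat_lit 9147) (nat_lit 8) (nat_lit 3))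
    (@En.n l18 (nat_lit 8729) (nat_lit 9) (nat_lit 4))
    (@En.n l18630 (nat_lit 10218) (nat_lit 11) (nat_lit 11))
    (@En.i (nat_lit 2878) (nat_lit 12) (nat_lit 13))
    (@En.n l61 (nat_lit 9338) (nat_lit 13) (nat_lit 7))
    (@En.n l31940 (nat_lit 8926) (nat_lit 14) (nat_lit 12))
    (@En.n l33996 (nat_lit 10470) (nat_lit 5) (nat_lit 8))
    (@En.n l28 (nat_lit 9148) (nat_lit 15) (nat_lit 2))))
  (@Cl.mk (nat_lit 0x20008000d000c00080003000c0004000b00080004000c00080005000e0004) (nat_lit 0x3564040420a5040) (nat_lit 16) Lb.e (@T16.mk En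
    (@En.n l1545 (nat_lit 9146) (nat_lit 5) (nat_lit 4))
    (@En.n l10571 (nat_lit 3632) (nat_lit 1) (nat_lit 14))
    (@En.n l18265 (nat_lit 2942) (nat_lit 2) (nat_lit 5))
    (@En.i (nat_lit 11291) (nat_lit 3) (nat_lit 8))
    (@En.n l11361 (nat_lit 9555) (nat_lit 10) (nat_lit 12))
    (@En.n l13906 (nat_lit 9082) (nat_lit 5) (nat_lit 4))
    (@En.n l10573 (nat_lit 10751) (nat_lit 6) (nat_lit 8))
    (@En.n l11706 (nat_lit 7401) (nat_lit 8) (nat_lit 11))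
    (@En.n l18266 (nat_lit 8730) (nat_lit 8) (nat_lit 4))
    (@En.n l11361 (nat_lit 10734) (nat_lit 10) (nat_lit 12))
    (@En.n l152 (nat_lit 9147) (nat_lit 10) (nat_lit 3))
    (@En.n l10572 (nat_lit 10801) (nat_lit 12) (nat_lit 8))
    (@En.n l18267 (nat_lit 9148) (nat_lit 13) (nat_lit 12))
    (@En.n l4004 (nat_lit 7539) (nat_lit 14) (nat_lit 13))
    (@En.n l18268 (nat_lit 10212) (nat_lit 3) (nat_lit 8))
    (@En.n l18 (nat_lit 9149) (nat_lit 15) (nat_lit 2))))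
  (@Cl.mk (nat_lit 0x30008000d000c00060003000c0004000c00080004000c0004000d000a0004) (nat_lit 0x5b2005062090100) (nat_lit 16) Lb.e (@T16.mk En
    (@En.n l28144 (nat_lit 9149) (nat_lit 0) (nat_lit 4))
    (@En.n l61 (nat_lit 11840) (nat_lit 0) (nat_lit 10))
    (@En.n l9715 (nat_lit 3628) (nat_lit 1) (nat_lit 13))
    (@En.n l28144 (nat_lit 9396) (nat_lit 3) (nat_lit 4))
    (@En.n l22601 (nat_lit 10452) (nat_lit 10) (nat_lit 12))
    (@En.i (nat_lit 9083) (nat_lit 5) (nat_lit 4))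
    (@En.n l28145 (nat_lit 8856) (nat_lit 6) (nat_lit 8))
    (@En.n l28146 (nat_lit 10828) (nat_lit 8) (nat_lit 12))
    (@En.i (nat_lit 8726) (nat_lit 8) (nat_lit 4))
    (@En.n l22603 (nat_lit 10215) (nat_lit 10) (nat_lit 12))
    (@En.n l17351 (nat_lit 9140) (nat_lit 10) (nat_lit 3))
    (@En.n l117 (nat_lit 11910) (nat_lit 0) (nat_lit 6))
    (@En.n l22603 (nat_lit 9139) (nat_lit 13) (nat_lit 12))
    (@En.n l2824 (nat_lit 8606) (nat_lit 2) (nat_lit 13))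
    (@En.n l10430 (nat_lit 10473) (nat_lit 3) (nat_lit 8))
    (@En.n l18 (nat_lit 9194) (nat_lit 15) (nat_lit 3))))
  (@Cl.mk (nat_lit 0x30009000d0005000b0003000c000b000700050004000c0005000d000b0004) (nat_lit 0x80101900080140) (nat_lit 16) Lb.e (@T16.mk En
    (@En.i (nat_lit 10218) (nat_lit 0) (nat_lit 4))
    (@En.n l644 (nat_lit 10176) (nat_lit 0) (nat_lit 11))
    (@En.n l3528 (nat_lit 5553) (nat_lit 1) (nat_lit 13))
    (@En.n l11547 (nat_lit 8759) (nat_lit 3) (nat_lit 5))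
    (@En.i (nat_lit 9957) (nat_lit 10) (nat_lit 12))
    (@En.n l11547 (nat_lit 9140) (nat_lit 5) (nat_lit 4))
    (@En.n l17 (nat_lit 8595) (nat_lit 0) (nat_lit 5))
    (@En.n l28538 (nat_lit 10148) (nat_lit 7) (nat_lit 7))
    (@En.n l619 (nat_lit 9094) (nat_lit 9) (nat_lit 11))
    (@En.i (nat_lit 9141) (nat_lit 10) (nat_lit 12))
    (@En.i (nat_lit 10216) (nat_lit 10) (nat_lit 3))
    (@En.i (nat_lit 2416) (nat_lit 0) (nat_lit 11))
    (@En.i (nat_lit 10272) (nat_lit 13) (nat_lit 5))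
    (@En.i (nat_lit 10194) (nat_lit 6) (nat_lit 13))
    (@En.n l16865 (nat_lit 11845) (nat_lit 3) (nat_lit 9))
    (@En.n l7 (nat_lit 10174) (nat_lit 15) (nat_lit 3))))
noncomputable def a572 : T16 Cl := @T16.mk Cl
  (@Cl.mk (nat_lit 0x20008000700040008000e000c0002000b00080004000900080005000e000c) (nat_lit 0x600138036033034) (nat_lit 16) Lb.e (@T16.mk En
    (@En.i (nat_lit 8712) (nat_lit 8) (nat_lit 12))
    (@En.i (nat_lit 3205) (nat_lit 9) (nat_lit 14))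
    (@En.n l6391 (nat_lit 8713) (nat_lit 2) (nat_lit 5))
    (@En.i (nat_lit 8845) (nat_lit 3) (nat_lit 8))
    (@En.n l21100 (nat_lit 10996) (nat_lit 4) (nat_lit 9))
    (@En.n l3348 (nat_lit 9145) (nat_lit 5) (nat_lit 4))
    (@En.n l61 (nat_lit 7388) (nat_lit 14) (nat_lit 8))
    (@En.n l15752 (nat_lit 10205) (nat_lit 8) (nat_lit 11))
    (@En.n l7 (nat_lit 9152) (nat_lit 8) (nat_lit 2))
    (@En.n l9926 (nat_lit 8720) (nat_lit 10) (nat_lit 12))
    (@En.n l134 (nat_lit 8557) (nat_lit 11) (nat_lit 14))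
    (@En.n l1776 (nat_lit 5320) (nat_lit 12) (nat_lit 8))
    (@En.n l117 (nat_lit 9153) (nat_lit 3) (nat_lit 4))
    (@En.n l1776 (nat_lit 4860) (nat_lit 14) (nat_lit 7))
    (@En.i (nat_lit 9829) (nat_lit 5) (nat_lit 8))
    (@En.n l3 (nat_lit 9152) (nat_lit 15) (nat_lit 2))))
  (@Cl.mk (nat_lit 0x2000b00070004000b00080005000d000c00050003000900040008000e000c) (nat_lit 0x5008401a00003c1) (nat_lit 16) Lb.e (@T16.mk En
    (@En.n l20391 (nat_lit 8723) (nat_lit 11) (nat_lit 12))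
    (@En.n l134 (nat_lit 9107) (nat_lit 1) (nat_lit 14))
    (@En.n l899 (nat_lit 8651) (nat_lit 2) (nat_lit 8))
    (@En.i (nat_lit 8712) (nat_lit 3) (nat_lit 4))
    (@En.i (nat_lit 9831) (nat_lit 4) (nat_lit 9))
    (@En.n l7008 (nat_lit 9154) (nat_lit 5) (nat_lit 3))
    (@En.n l97 (nat_lit 8194) (nat_lit 0) (nat_lit 5))
    (@En.n l15864 (nat_lit 9155) (nat_lit 8) (nat_lit 12))
    (@En.n l2939 (nat_lit 2748) (nat_lit 9) (nat_lit 13))
    (@En.n l13622 (nat_lit 8714) (nat_lit 9) (nat_lit 5))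
    (@En.i (nat_lit 8848) (nat_lit 11) (nat_lit 8))
    (@En.n l33381 (nat_lit 11436) (nat_lit 12) (nat_lit 11))
    (@En.n l10179 (nat_lit 8603) (nat_lit 6) (nat_lit 4))
    (@En.n l61 (nat_lit 7215) (nat_lit 14) (nat_lit 7))
    (@En.i (nat_lit 10210) (nat_lit 9) (nat_lit 11))
    (@En.n l7 (nat_lit 9153) (nat_lit 15) (nat_lit 2))))
  (@Cl.mk (nat_lit 0x2000b00070004000c00080005000d0004000d0003000900030008000e000c) (nat_lit 0x5007409060004c1) (nat_lit 16) Lb.e (@T16.mk En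
    (@En.n l68 (nat_lit 8725) (nat_lit 13) (nat_lit 12))
    (@En.n l2824 (nat_lit 7695) (nat_lit 1) (nat_lit 14))
    (@En.i (nat_lit 8653) (nat_lit 2) (nat_lit 8))
    (@En.i (nat_lit 9155) (nat_lit 3) (nat_lit 3))
    (@En.i (nat_lit 9504) (nat_lit 0) (nat_lit 9))
    (@En.n l13031 (nat_lit 9153) (nat_lit 5) (nat_lit 3))
    (@En.n l3082 (nat_lit 4883) (nat_lit 0) (nat_lit 13))
    (@En.i (nat_lit 9156) (nat_lit 7) (nat_lit 4))
    (@En.n l2318 (nat_lit 2747) (nat_lit 9) (nat_lit 13))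
    (@En.i (nat_lit 8716) (nat_lit 9) (nat_lit 5))
    (@En.n l1448 (nat_lit 8852) (nat_lit 11) (nat_lit 8))
    (@En.n l645 (nat_lit 11434) (nat_lit 12) (nat_lit 12))
    (@En.i (nat_lit 9194) (nat_lit 8) (nat_lit 4))
    (@En.n l3015 (nat_lit 7213) (nat_lit 14) (nat_lit 7))
    (@En.n l17241 (nat_lit 10214) (nat_lit 11) (nat_lit 11))
    (@En.n l67 (nat_lit 9154) (nat_lit 15) (nat_lit 2))))
  (@Cl.mk (nat_lit 0x2000b00080004000c00080005000c0004000d0008000400030008000e000c) (nat_lit 0x7307409063004c1) (nat_lit 16) Lb.e (@T16.mk En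
    (@En.n l68 (nat_lit 8726) (nat_lit 13) (nat_lit 12))
    (@En.n l2824 (nat_lit 8289) (nat_lit 1) (nat_lit 14))
    (@En.n l18368 (nat_lit 10254) (nat_lit 2) (nat_lit 8))
    (@En.n l18 (nat_lit 9154) (nat_lit 3) (nat_lit 3))
    (@En.n l2316 (nat_lit 10748) (nat_lit 0) (nat_lit 4))
    (@En.n l61 (nat_lit 9834) (nat_lit 5) (nat_lit 8))
    (@En.n l18369 (nat_lit 4882) (nat_lit 7) (nat_lit 13))
    (@En.n l9382 (nat_lit 9157) (nat_lit 7) (nat_lit 4))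
    (@En.n l18370 (nat_lit 10611) (nat_lit 9) (nat_lit 12))
    (@En.i (nat_lit 8711) (nat_lit 9) (nat_lit 5))
    (@En.n l18371 (nat_lit 8853) (nat_lit 11) (nat_lit 8))
    (@En.n l645 (nat_lit 11435) (nat_lit 12) (nat_lit 12))
    (@En.i (nat_lit 9150) (nat_lit 8) (nat_lit 4))
    (@En.n l9885 (nat_lit 7114) (nat_lit 14) (nat_lit 8))
    (@En.n l2316 (nat_lit 10213) (nat_lit 11) (nat_lit 11))
    (@En.n l67 (nat_lit 9155) (nat_lit 15) (nat_lit 2))))
  (@Cl.mk (nat_lit 0x2000a00070004000c000b000900060004000d0005000900030007000e000c) (nat_lit 0x600690008000026) (nat_lit 16) Lb.e (@T16.mk En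
    (@En.n l68 (nat_lit 8731) (nat_lit 13) (nat_lit 12))
    (@En.n l2824 (nat_lit 9181) (nat_lit 1) (nat_lit 14))
    (@En.n l14187 (nat_lit 8741) (nat_lit 2) (nat_lit 7))
    (@En.n l9382 (nat_lit 9157) (nat_lit 3) (nat_lit 3))
    (@En.n l17237 (nat_lit 11519) (nat_lit 0) (nat_lit 9))
    (@En.n l28260 (nat_lit 8957) (nat_lit 5) (nat_lit 5))
    (@En.n l4538 (nat_lit 9160) (nat_lit 7) (nat_lit 13))
    (@En.n l28261 (nat_lit 9158) (nat_lit 7) (nat_lit 4))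
    (@En.i (nat_lit 10972) (nat_lit 8) (nat_lit 6))
    (@En.n l14190 (nat_lit 10236) (nat_lit 10) (nat_lit 9))
    (@En.n l14328 (nat_lit 9153) (nat_lit 11) (nat_lit 11))
    (@En.n l645 (nat_lit 10905) (nat_lit 12) (nat_lit 12))
    (@En.n l14190 (nat_lit 9398) (nat_lit 8) (nat_lit 4))
    (@En.n l4538 (nat_lit 7424) (nat_lit 14) (nat_lit 7))
    (@En.n l4624 (nat_lit 10066) (nat_lit 11) (nat_lit 10))
    (@En.n l67 (nat_lit 9156) (nat_lit 15) (nat_lit 2))))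
  (@Cl.mk (nat_lit 0x2000a00080004000c000a000900060004000d0008000600030007000e000c) (nat_lit 0x3306100080000c5) (nat_lit 16) Lb.e (@T16.mk En
    (@En.n l15718 (nat_lit 9392) (nat_lit 13) (nat_lit 12))
    (@En.n l33798 (nat_lit 9180) (nat_lit 1) (nat_lit 14))
    (@En.n l33799 (nat_lit 5591) (nat_lit 2) (nat_lit 7))
    (@En.n l4343 (nat_lit 9156) (nat_lit 3) (nat_lit 3))
    (@En.n l7081 (nat_lit 7472) (nat_lit 0) (nat_lit 6))
    (@En.n l33800 (nat_lit 9837) (nat_lit 5) (nat_lit 8))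
    (@En.n l31225 (nat_lit 9162) (nat_lit 7) (nat_lit 13))
    (@En.n l33801 (nat_lit 9159) (nat_lit 7) (nat_lit 4))
    (@En.n l12866 (nat_lit 7482) (nat_lit 8) (nat_lit 6))
    (@En.n l9138 (nat_lit 10234) (nat_lit 10) (nat_lit 9))
    (@En.n l2782 (nat_lit 8712) (nat_lit 11) (nat_lit 10))
    (@En.n l33802 (nat_lit 10910) (nat_lit 12) (nat_lit 12))
    (@En.n l15827 (nat_lit 9396) (nat_lit 8) (nat_lit 4))
    (@En.n l211 (nat_lit 7111) (nat_lit 14) (nat_lit 8))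
    (@En.i (nat_lit 10067) (nat_lit 11) (nat_lit 10))
    (@En.n l3 (nat_lit 9157) (nat_lit 15) (nat_lit 2))))
  (@Cl.mk (nat_lit 0x2000c00070004000c0004000c000a0004000d0004000900030006000e000c) (nat_lit 0x30070a308070030) (nat_lit 16) Lb.e (@T16.mk En
    (@En.n l77 (nat_lit 9166) (nat_lit 13) (nat_lit 12))
    (@En.n l2125 (nat_lit 7819) (nat_lit 1) (nat_lit 14))
    (@En.n l152 (nat_lit 8322) (nat_lit 12) (nat_lit 6))
    (@En.n l345 (nat_lit 9159) (nat_lit 3) (nat_lit 3))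
    (@En.n l97 (nat_lit 9519) (nat_lit 0) (nat_lit 9))
    (@En.n l22588 (nat_lit 8675) (nat_lit 5) (nat_lit 4))
    (@En.n l22589 (nat_lit 8852) (nat_lit 7) (nat_lit 13))
    (@En.n l6631 (nat_lit 9154) (nat_lit 7) (nat_lit 4))
    (@En.i (nat_lit 10237) (nat_lit 9) (nat_lit 10))
    (@En.n l1256 (nat_lit 2749) (nat_lit 10) (nat_lit 12))
    (@En.n l6631 (nat_lit 7525) (nat_lit 10) (nat_lit 4))
    (@En.n l1119 (nat_lit 11423) (nat_lit 12) (nat_lit 12))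
    (@En.i (nat_lit 4323) (nat_lit 8) (nat_lit 4))
    (@En.n l4136 (nat_lit 7236) (nat_lit 14) (nat_lit 7))
    (@En.n l22590 (nat_lit 8243) (nat_lit 11) (nat_lit 12))
    (@En.n l28 (nat_lit 9158) (nat_lit 15) (nat_lit 2))))
  (@Cl.mk (nat_lit 0x2000c00080004000c0004000b000a0004000d0008000500030006000e000c) (nat_lit 0x3307083084000c0) (nat_lit 16) Lb.e (@T16.mk En
    (@En.n l68 (nat_lit 9167) (nat_lit 13) (nat_lit 12))
    (@En.n l22467 (nat_lit 7820) (nat_lit 1) (nat_lit 14))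
    (@En.n l9877 (nat_lit 8195) (nat_lit 12) (nat_lit 6))
    (@En.n l25864 (nat_lit 9158) (nat_lit 3) (nat_lit 3))
    (@En.n l10573 (nat_lit 7369) (nat_lit 0) (nat_lit 5))
    (@En.n l61 (nat_lit 9836) (nat_lit 5) (nat_lit 8))
    (@En.n l28839 (nat_lit 8853) (nat_lit 7) (nat_lit 13))
    (@En.n l13906 (nat_lit 9155) (nat_lit 7) (nat_lit 4))
    (@En.n l3490 (nat_lit 10235) (nat_lit 9) (nat_lit 10))
    (@En.n l265 (nat_lit 10612) (nat_lit 10) (nat_lit 11))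
    (@En.n l14176 (nat_lit 7524) (nat_lit 10) (nat_lit 4))
    (@En.n l3493 (nat_lit 11421) (nat_lit 12) (nat_lit 12))
    (@En.i (nat_lit 4326) (nat_lit 8) (nat_lit 4))
    (@En.n l9885 (nat_lit 7116) (nat_lit 14) (nat_lit 8))
    (@En.n l33265 (nat_lit 7622) (nat_lit 11) (nat_lit 12))
    (@En.n l67 (nat_lit 9159) (nat_lit 15) (nat_lit 2))))
  (@Cl.mk (nat_lit 0x2000a000800040008000c00090006000d00040008000300080007000e000c) (nat_lit 0x530184070205014) (nat_lit 16) Lb.e (@T16.mk En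
    (@En.n l16967 (nat_lit 9165) (nat_lit 12) (nat_lit 12))
    (@En.n l899 (nat_lit 5187) (nat_lit 1) (nat_lit 14))
    (@En.n l6825 (nat_lit 10247) (nat_lit 2) (nat_lit 7))
    (@En.n l29288 (nat_lit 8720) (nat_lit 3) (nat_lit 8))
    (@En.n l28285 (nat_lit 9162) (nat_lit 4) (nat_lit 3))
    (@En.n l152 (nat_lit 6907) (nat_lit 0) (nat_lit 8))
    (@En.n l1992 (nat_lit 9161) (nat_lit 6) (nat_lit 4))
    (@En.n l619 (nat_lit 7093) (nat_lit 8) (nat_lit 13))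
    (@En.n l2125 (nat_lit 12469) (nat_lit 8) (nat_lit 6))
    (@En.n l8776 (nat_lit 10336) (nat_lit 10) (nat_lit 9))
    (@En.n l3593 (nat_lit 9155) (nat_lit 11) (nat_lit 12))
    (@En.n l13116 (nat_lit 3663) (nat_lit 12) (nat_lit 8))
    (@En.n l10687 (nat_lit 10812) (nat_lit 7) (nat_lit 4))
    (@En.i (nat_lit 7070) (nat_lit 14) (nat_lit 8))
    (@En.i (nat_lit 10728) (nat_lit 1) (nat_lit 10))
    (@En.n l50 (nat_lit 9160) (nat_lit 15) (nat_lit 2))))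
  (@Cl.mk (nat_lit 0x20009000800040008000c000b000a000700040008000500080006000e000c) (nat_lit 0x20279500004044) (nat_lit 16) Lb.e (@T16.mk En
    (@En.n l396 (nat_lit 9163) (nat_lit 3) (nat_lit 12))
    (@En.n l8551 (nat_lit 5459) (nat_lit 1) (nat_lit 14))
    (@En.n l26965 (nat_lit 5595) (nat_lit 2) (nat_lit 6))
    (@En.n l36075 (nat_lit 9152) (nat_lit 3) (nat_lit 8))
    (@En.n l8547 (nat_lit 5976) (nat_lit 4) (nat_lit 5))
    (@En.i (nat_lit 11745) (nat_lit 5) (nat_lit 8))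
    (@En.n l152 (nat_lit 10328) (nat_lit 6) (nat_lit 4))
    (@En.n l936 (nat_lit 12467) (nat_lit 7) (nat_lit 7))
    (@En.n l2824 (nat_lit 10332) (nat_lit 9) (nat_lit 10))
    (@En.n l24220 (nat_lit 9162) (nat_lit 10) (nat_lit 11))
    (@En.n l21310 (nat_lit 9157) (nat_lit 11) (nat_lit 12))
    (@En.i (nat_lit 4579) (nat_lit 12) (nat_lit 8))
    (@En.n l2753 (nat_lit 10806) (nat_lit 13) (nat_lit 4))
    (@En.n l5579 (nat_lit 5568) (nat_lit 14) (nat_lit 8))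
    (@En.n l14808 (nat_lit 10723) (nat_lit 1) (nat_lit 9))
    (@En.n l50 (nat_lit 9161) (nat_lit 15) (nat_lit 2))))
  (@Cl.mk (nat_lit 0x2000a000900040008000b00090006000d00070005000300080007000e000c) (nat_lit 0x520184070005055) (nat_lit 16) Lb.e (@T16.mk En
    (@En.i (nat_lit 9164) (nat_lit 12) (nat_lit 12))
    (@En.n l619 (nat_lit 5461) (nat_lit 1) (nat_lit 14))
    (@En.n l22888 (nat_lit 10248) (nat_lit 2) (nat_lit 7))
    (@En.n l18945 (nat_lit 9161) (nat_lit 3) (nat_lit 8))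
    (@En.n l5801 (nat_lit 9160) (nat_lit 4) (nat_lit 3))
    (@En.n l8932 (nat_lit 5978) (nat_lit 0) (nat_lit 5))
    (@En.n l7 (nat_lit 11746) (nat_lit 6) (nat_lit 7))
    (@En.n l20348 (nat_lit 7675) (nat_lit 8) (nat_lit 13))
    (@En.n l7 (nat_lit 12468) (nat_lit 8) (nat_lit 6))
    (@En.i (nat_lit 10335) (nat_lit 10) (nat_lit 9))
    (@En.n l3197 (nat_lit 10748) (nat_lit 7) (nat_lit 11))
    (@En.i (nat_lit 3661) (nat_lit 12) (nat_lit 8))
    (@En.i (nat_lit 10808) (nat_lit 7) (nat_lit 4))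
    (@En.n l644 (nat_lit 5533) (nat_lit 14) (nat_lit 9))
    (@En.i (nat_lit 10725) (nat_lit 1) (nat_lit 10))
    (@En.n l11 (nat_lit 9162) (nat_lit 15) (nat_lit 2))))
  (@Cl.mk (nat_lit 0x400040008000c000b000a000800040009000500080006000c000c00080007) (nat_lit 0x34964000503430) (nat_lit 16) Lb.e (@T16.mk En
    (@En.n l39887 (nat_lit 5535) (nat_lit 0) (nat_lit 7))
    (@En.n l14276 (nat_lit 10720) (nat_lit 1) (nat_lit 8))
    (@En.n l42482 (nat_lit 10752) (nat_lit 4) (nat_lit 12))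
    (@En.n l19283 (nat_lit 10302) (nat_lit 11) (nat_lit 12))
    (@En.n l29128 (nat_lit 5594) (nat_lit 4) (nat_lit 6))
    (@En.n l42483 (nat_lit 8712) (nat_lit 10) (nat_lit 8))
    (@En.n l2753 (nat_lit 5986) (nat_lit 6) (nat_lit 5))
    (@En.i (nat_lit 11743) (nat_lit 0) (nat_lit 9))
    (@En.n l152 (nat_lit 10158) (nat_lit 8) (nat_lit 4))
    (@En.n l9885 (nat_lit 12471) (nat_lit 0) (nat_lit 8))
    (@En.n l55 (nat_lit 10267) (nat_lit 1) (nat_lit 10))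
    (@En.n l42484 (nat_lit 9164) (nat_lit 5) (nat_lit 11))
    (@En.n l13886 (nat_lit 9392) (nat_lit 7) (nat_lit 12))
    (@En.n l9885 (nat_lit 10312) (nat_lit 11) (nat_lit 8))
    (@En.n l18 (nat_lit 9161) (nat_lit 12) (nat_lit 4))
    (@En.n l41235 (nat_lit 10804) (nat_lit 0) (nat_lit 4))))
  (@Cl.mk (nat_lit 0x300080007000c000c00090008000400040008000b00090007000d00080005) (nat_lit 0x604343002850740) (nat_lit 16) Lb.e (@T16.mk En
    (@En.n l8932 (nat_lit 5987) (nat_lit 0) (nat_lit 5))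
    (@En.n l9958 (nat_lit 11744) (nat_lit 0) (nat_lit 8))
    (@En.n l9958 (nat_lit 7081) (nat_lit 2) (nat_lit 13))
    (@En.n l38302 (nat_lit 12470) (nat_lit 3) (nat_lit 7))
    (@En.i (nat_lit 10338) (nat_lit 4) (nat_lit 9))
    (@En.n l34346 (nat_lit 8730) (nat_lit 7) (nat_lit 11))
    (@En.n l117 (nat_lit 10313) (nat_lit 6) (nat_lit 8))
    (@En.n l575 (nat_lit 9162) (nat_lit 12) (nat_lit 4))
    (@En.n l38303 (nat_lit 10809) (nat_lit 8) (nat_lit 4))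
    (@En.n l26814 (nat_lit 5531) (nat_lit 0) (nat_lit 8))
    (@En.n l1578 (nat_lit 6855) (nat_lit 11) (nat_lit 9))
    (@En.n l38304 (nat_lit 10879) (nat_lit 4) (nat_lit 12))
    (@En.n l7088 (nat_lit 10301) (nat_lit 13) (nat_lit 12))
    (@En.n l38305 (nat_lit 10253) (nat_lit 14) (nat_lit 7))
    (@En.n l38306 (nat_lit 9163) (nat_lit 5) (nat_lit 8))
    (@En.n l38297 (nat_lit 9165) (nat_lit 15) (nat_lit 3))))
  (@Cl.mk (nat_lit 0x300080007000c000c00090007000400040008000c00090007000d00040009) (nat_lit 0x603370002810602) (nat_lit 16) Lb.e (@T16.mk En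
    (@En.n l36658 (nat_lit 6446) (nat_lit 0) (nat_lit 9))
    (@En.n l38312 (nat_lit 9163) (nat_lit 8) (nat_lit 4))
    (@En.i (nat_lit 7084) (nat_lit 0) (nat_lit 13))
    (@En.n l19309 (nat_lit 12472) (nat_lit 3) (nat_lit 7))
    (@En.n l30781 (nat_lit 5311) (nat_lit 4) (nat_lit 9))
    (@En.n l19309 (nat_lit 8726) (nat_lit 7) (nat_lit 12))
    (@En.n l27300 (nat_lit 10706) (nat_lit 6) (nat_lit 8))
    (@En.n l41707 (nat_lit 9160) (nat_lit 12) (nat_lit 4))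
    (@En.n l8776 (nat_lit 10811) (nat_lit 8) (nat_lit 4))
    (@En.n l27300 (nat_lit 7073) (nat_lit 0) (nat_lit 7))
    (@En.n l41708 (nat_lit 10721) (nat_lit 11) (nat_lit 9))
    (@En.n l619 (nat_lit 10880) (nat_lit 4) (nat_lit 12))
    (@En.i (nat_lit 10300) (nat_lit 13) (nat_lit 12))
    (@En.n l77 (nat_lit 10252) (nat_lit 14) (nat_lit 7))
    (@En.n l41709 (nat_lit 8719) (nat_lit 5) (nat_lit 8))
    (@En.n l22689 (nat_lit 9164) (nat_lit 15) (nat_lit 3))))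
  (@Cl.mk (nat_lit 0x30006000c000c000b000600040004000c0005000c000a0004000d0004000a) (nat_lit 0xaa100030a30706) (nat_lit 16) Lb.e (@T16.mk En
    (@En.n l6031 (nat_lit 9516) (nat_lit 0) (nat_lit 10))
    (@En.n l870 (nat_lit 8670) (nat_lit 7) (nat_lit 4))
    (@En.n l24188 (nat_lit 8854) (nat_lit 2) (nat_lit 13))
    (@En.n l9775 (nat_lit 8725) (nat_lit 3) (nat_lit 4))
    (@En.i (nat_lit 10226) (nat_lit 4) (nat_lit 10))
    (@En.n l2847 (nat_lit 3480) (nat_lit 1) (nat_lit 12))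
    (@En.n l9775 (nat_lit 6292) (nat_lit 6) (nat_lit 5))
    (@En.n l564 (nat_lit 10692) (nat_lit 8) (nat_lit 12))
    (@En.n l237 (nat_lit 9158) (nat_lit 12) (nat_lit 4))
    (@En.i (nat_lit 4328) (nat_lit 9) (nat_lit 4))
    (@En.n l8332 (nat_lit 7235) (nat_lit 0) (nat_lit 6))
    (@En.n l4380 (nat_lit 4327) (nat_lit 12) (nat_lit 11))
    (@En.n l35100 (nat_lit 8926) (nat_lit 4) (nat_lit 12))
    (@En.n l34623 (nat_lit 9172) (nat_lit 14) (nat_lit 12))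
    (@En.n l152 (nat_lit 8317) (nat_lit 12) (nat_lit 6))
    (@En.n l870 (nat_lit 9167) (nat_lit 15) (nat_lit 3))))
  (@Cl.mk (nat_lit 0x30006000c000c000b000700040004000c0005000b000a0004000d00090005) (nat_lit 0xaa200030130840) (nat_lit 16) Lb.e (@T16.mk En
    (@En.i (nat_lit 7371) (nat_lit 0) (nat_lit 5))
    (@En.n l61 (nat_lit 8753) (nat_lit 14) (nat_lit 9))
    (@En.n l36312 (nat_lit 8855) (nat_lit 2) (nat_lit 13))
    (@En.n l13906 (nat_lit 8726) (nat_lit 3) (nat_lit 4))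
    (@En.n l2863 (nat_lit 10228) (nat_lit 4) (nat_lit 10))
    (@En.n l2750 (nat_lit 6868) (nat_lit 1) (nat_lit 11))
    (@En.n l13906 (nat_lit 6296) (nat_lit 6) (nat_lit 5))
    (@En.n l42123 (nat_lit 10693) (nat_lit 8) (nat_lit 12))
    (@En.n l11 (nat_lit 9159) (nat_lit 12) (nat_lit 4))
    (@En.n l9876 (nat_lit 9168) (nat_lit 9) (nat_lit 4))
    (@En.n l9885 (nat_lit 7117) (nat_lit 0) (nat_lit 7))
    (@En.n l55 (nat_lit 10149) (nat_lit 12) (nat_lit 11))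
    (@En.n l9879 (nat_lit 8925) (nat_lit 4) (nat_lit 12))
    (@En.n l22467 (nat_lit 9173) (nat_lit 14) (nat_lit 12))
    (@En.n l9876 (nat_lit 5818) (nat_lit 12) (nat_lit 6))
    (@En.n l42124 (nat_lit 9166) (nat_lit 15) (nat_lit 3))))
noncomputable def a573 : T16 Cl := @T16.mk Cl
  (@Cl.mk (nat_lit 0x30006000c0005000d000c00040003000c0004000b000a0004000d000b0005) (nat_lit 0xa0100070630200) (nat_lit 16) Lb.e (@T16.mk En
    (@En.n l3866 (nat_lit 9974) (nat_lit 0) (nat_lit 5))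
    (@En.n l22465 (nat_lit 9169) (nat_lit 9) (nat_lit 11))
    (@En.i (nat_lit 10152) (nat_lit 10) (nat_lit 13))
    (@En.n l15535 (nat_lit 9139) (nat_lit 3) (nat_lit 4))
    (@En.n l1140 (nat_lit 9753) (nat_lit 4) (nat_lit 10))
    (@En.i (nat_lit 10448) (nat_lit 1) (nat_lit 11))
    (@En.n l7 (nat_lit 6407) (nat_lit 6) (nat_lit 4))
    (@En.n l4003 (nat_lit 10584) (nat_lit 8) (nat_lit 12))
    (@En.n l7 (nat_lit 4330) (nat_lit 8) (nat_lit 3))
    (@En.i (nat_lit 8925) (nat_lit 0) (nat_lit 4))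
    (@En.n l644 (nat_lit 10150) (nat_lit 11) (nat_lit 12))
    (@En.n l1140 (nat_lit 6178) (nat_lit 1) (nat_lit 13))
    (@En.i (nat_lit 10144) (nat_lit 3) (nat_lit 5))
    (@En.n l3530 (nat_lit 9169) (nat_lit 14) (nat_lit 12))
    (@En.i (nat_lit 12489) (nat_lit 12) (nat_lit 6))
    (@En.n l152 (nat_lit 4328) (nat_lit 15) (nat_lit 3))))
  (@Cl.mk (nat_lit 0x3000c0004000c000b0004000b0004000c0005000b00050004000d000c0005) (nat_lit 0x904109030800270) (nat_lit 16) Lb.e (@T16.mk En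
    (@En.n l9979 (nat_lit 8755) (nat_lit 0) (nat_lit 5))
    (@En.n l55 (nat_lit 9171) (nat_lit 4) (nat_lit 12))
    (@En.n l18910 (nat_lit 10155) (nat_lit 2) (nat_lit 13))
    (@En.n l3480 (nat_lit 4328) (nat_lit 12) (nat_lit 4))
    (@En.i (nat_lit 11831) (nat_lit 4) (nat_lit 5))
    (@En.n l13633 (nat_lit 9171) (nat_lit 1) (nat_lit 11))
    (@En.n l31875 (nat_lit 12424) (nat_lit 6) (nat_lit 5))
    (@En.n l19494 (nat_lit 7638) (nat_lit 8) (nat_lit 12))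
    (@En.i (nat_lit 10286) (nat_lit 8) (nat_lit 4))
    (@En.n l1080 (nat_lit 12407) (nat_lit 10) (nat_lit 11))
    (@En.n l15675 (nat_lit 10294) (nat_lit 1) (nat_lit 4))
    (@En.n l3480 (nat_lit 8549) (nat_lit 0) (nat_lit 11))
    (@En.n l9979 (nat_lit 10483) (nat_lit 1) (nat_lit 12))
    (@En.n l43171 (nat_lit 10531) (nat_lit 14) (nat_lit 4))
    (@En.n l1080 (nat_lit 10582) (nat_lit 0) (nat_lit 12))
    (@En.n l11 (nat_lit 9170) (nat_lit 15) (nat_lit 3))))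
  (@Cl.mk (nat_lit 0x3000c0003000c000b0004000b0004000c0005000c00050004000d0004000d) (nat_lit 0x903109080100207) (nat_lit 16) Lb.e (@T16.mk En
    (@En.n l13633 (nat_lit 7280) (nat_lit 0) (nat_lit 13))
    (@En.n l117 (nat_lit 9174) (nat_lit 3) (nat_lit 4))
    (@En.n l18910 (nat_lit 10156) (nat_lit 2) (nat_lit 13))
    (@En.n l3480 (nat_lit 4325) (nat_lit 12) (nat_lit 4))
    (@En.i (nat_lit 11830) (nat_lit 6) (nat_lit 5))
    (@En.n l13633 (nat_lit 8601) (nat_lit 1) (nat_lit 12))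
    (@En.n l31875 (nat_lit 11893) (nat_lit 6) (nat_lit 5))
    (@En.n l8770 (nat_lit 8088) (nat_lit 10) (nat_lit 12))
    (@En.i (nat_lit 10287) (nat_lit 8) (nat_lit 4))
    (@En.i (nat_lit 12404) (nat_lit 10) (nat_lit 11))
    (@En.n l33422 (nat_lit 9205) (nat_lit 1) (nat_lit 4))
    (@En.n l3480 (nat_lit 9087) (nat_lit 0) (nat_lit 11))
    (@En.i (nat_lit 10482) (nat_lit 1) (nat_lit 12))
    (@En.i (nat_lit 9171) (nat_lit 15) (nat_lit 3))
    (@En.i (nat_lit 10333) (nat_lit 0) (nat_lit 12))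
    (@En.i (nat_lit 9169) (nat_lit 15) (nat_lit 3))))
  (@Cl.mk (nat_lit 0x3000c000b0005000b0004000c0005000c00050004000c0004000d000b0004) (nat_lit 0x510003010060770) (nat_lit 16) Lb.e (@T16.mk En
    (@En.n l17688 (nat_lit 12719) (nat_lit 0) (nat_lit 4))
    (@En.n l77 (nat_lit 9172) (nat_lit 0) (nat_lit 11))
    (@En.n l13633 (nat_lit 7279) (nat_lit 1) (nat_lit 13))
    (@En.n l117 (nat_lit 10182) (nat_lit 3) (nat_lit 4))
    (@En.n l18910 (nat_lit 10632) (nat_lit 0) (nat_lit 12))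
    (@En.n l3480 (nat_lit 4329) (nat_lit 12) (nat_lit 4))
    (@En.i (nat_lit 11829) (nat_lit 6) (nat_lit 5))
    (@En.n l10108 (nat_lit 8604) (nat_lit 1) (nat_lit 12))
    (@En.n l31875 (nat_lit 11892) (nat_lit 8) (nat_lit 5))
    (@En.n l8770 (nat_lit 7639) (nat_lit 10) (nat_lit 12))
    (@En.i (nat_lit 8336) (nat_lit 10) (nat_lit 4))
    (@En.n l17688 (nat_lit 12408) (nat_lit 0) (nat_lit 11))
    (@En.n l10108 (nat_lit 10176) (nat_lit 1) (nat_lit 5))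
    (@En.n l3480 (nat_lit 8604) (nat_lit 14) (nat_lit 11))
    (@En.n l601 (nat_lit 10636) (nat_lit 11) (nat_lit 12))
    (@En.n l28 (nat_lit 9170) (nat_lit 13) (nat_lit 3))))
  (@Cl.mk (nat_lit 0x3000c000b000a00050004000b0005000c0006000c00050004000d0004000b) (nat_lit 0x947000020900806) (nat_lit 16) Lb.e (@T16.mk En
    (@En.i (nat_lit 9345) (nat_lit 0) (nat_lit 11))
    (@En.n l117 (nat_lit 10272) (nat_lit 6) (nat_lit 4))
    (@En.n l18910 (nat_lit 10805) (nat_lit 2) (nat_lit 13))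
    (@En.n l3480 (nat_lit 9397) (nat_lit 12) (nat_lit 4))
    (@En.i (nat_lit 10413) (nat_lit 4) (nat_lit 5))
    (@En.n l15675 (nat_lit 8493) (nat_lit 1) (nat_lit 12))
    (@En.n l31875 (nat_lit 11821) (nat_lit 6) (nat_lit 6))
    (@En.n l38771 (nat_lit 8121) (nat_lit 8) (nat_lit 12))
    (@En.n l7 (nat_lit 9054) (nat_lit 8) (nat_lit 5))
    (@En.i (nat_lit 9984) (nat_lit 10) (nat_lit 11))
    (@En.n l7 (nat_lit 9170) (nat_lit 10) (nat_lit 4))
    (@En.n l12503 (nat_lit 10286) (nat_lit 0) (nat_lit 5))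
    (@En.n l3480 (nat_lit 9083) (nat_lit 1) (nat_lit 10))
    (@En.n l644 (nat_lit 10291) (nat_lit 14) (nat_lit 11))
    (@En.i (nat_lit 10269) (nat_lit 2) (nat_lit 12))
    (@En.i (nat_lit 9173) (nat_lit 15) (nat_lit 3))))
  (@Cl.mk (nat_lit 0x3000c000b000a00060004000b0005000c0006000b00050004000d000a0005) (nat_lit 0x901000020400850) (nat_lit 16) Lb.e (@T16.mk En
    (@En.n l20559 (nat_lit 8751) (nat_lit 0) (nat_lit 5))
    (@En.n l15675 (nat_lit 8754) (nat_lit 14) (nat_lit 10))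
    (@En.n l31034 (nat_lit 10804) (nat_lit 2) (nat_lit 13))
    (@En.n l3480 (nat_lit 9394) (nat_lit 12) (nat_lit 4))
    (@En.n l20276 (nat_lit 10414) (nat_lit 4) (nat_lit 5))
    (@En.n l15675 (nat_lit 9177) (nat_lit 1) (nat_lit 11))
    (@En.n l31875 (nat_lit 11896) (nat_lit 6) (nat_lit 6))
    (@En.n l42961 (nat_lit 8120) (nat_lit 8) (nat_lit 12))
    (@En.n l7 (nat_lit 8576) (nat_lit 8) (nat_lit 5))
    (@En.n l30217 (nat_lit 9981) (nat_lit 10) (nat_lit 11))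
    (@En.n l7 (nat_lit 9169) (nat_lit 10) (nat_lit 4))
    (@En.n l35845 (nat_lit 8481) (nat_lit 0) (nat_lit 6))
    (@En.n l3480 (nat_lit 9084) (nat_lit 1) (nat_lit 10))
    (@En.n l644 (nat_lit 10293) (nat_lit 14) (nat_lit 11))
    (@En.n l42962 (nat_lit 10580) (nat_lit 11) (nat_lit 12))
    (@En.n l11 (nat_lit 9172) (nat_lit 15) (nat_lit 3))))
  (@Cl.mk (nat_lit 0x3000c000b0004000a0004000b0005000c000b000600050004000d0005000c) (nat_lit 0x900808019000907) (nat_lit 16) Lb.e (@T16.mk En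
    (@En.i (nat_lit 10334) (nat_lit 0) (nat_lit 12))
    (@En.i (nat_lit 8753) (nat_lit 4) (nat_lit 5))
    (@En.i (nat_lit 10304) (nat_lit 2) (nat_lit 13))
    (@En.n l1003 (nat_lit 9195) (nat_lit 12) (nat_lit 4))
    (@En.n l7899 (nat_lit 4323) (nat_lit 11) (nat_lit 5))
    (@En.n l20731 (nat_lit 10139) (nat_lit 5) (nat_lit 6))
    (@En.n l619 (nat_lit 9169) (nat_lit 5) (nat_lit 11))
    (@En.n l13196 (nat_lit 8657) (nat_lit 8) (nat_lit 12))
    (@En.n l19248 (nat_lit 8767) (nat_lit 8) (nat_lit 5))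
    (@En.n l38310 (nat_lit 9496) (nat_lit 10) (nat_lit 11))
    (@En.i (nat_lit 10176) (nat_lit 10) (nat_lit 4))
    (@En.i (nat_lit 8698) (nat_lit 0) (nat_lit 10))
    (@En.n l19250 (nat_lit 11840) (nat_lit 1) (nat_lit 4))
    (@En.n l217 (nat_lit 10173) (nat_lit 0) (nat_lit 11))
    (@En.i (nat_lit 10074) (nat_lit 1) (nat_lit 12))
    (@En.i (nat_lit 10182) (nat_lit 15) (nat_lit 3))))
  (@Cl.mk (nat_lit 0x3000c000b000800050004000c0005000c000b000400080004000d0005000b) (nat_lit 0x472007017030802) (nat_lit 16) Lb.e (@T16.mk En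
    (@En.n l2940 (nat_lit 9833) (nat_lit 0) (nat_lit 11))
    (@En.n l11 (nat_lit 11043) (nat_lit 6) (nat_lit 5))
    (@En.n l42121 (nat_lit 10300) (nat_lit 2) (nat_lit 13))
    (@En.n l3535 (nat_lit 9172) (nat_lit 3) (nat_lit 4))
    (@En.n l152 (nat_lit 9756) (nat_lit 11) (nat_lit 8))
    (@En.n l936 (nat_lit 9206) (nat_lit 5) (nat_lit 4))
    (@En.n l55 (nat_lit 9398) (nat_lit 0) (nat_lit 11))
    (@En.n l2202 (nat_lit 6222) (nat_lit 1) (nat_lit 12))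
    (@En.n l26600 (nat_lit 9108) (nat_lit 8) (nat_lit 5))
    (@En.n l6081 (nat_lit 10698) (nat_lit 10) (nat_lit 12))
    (@En.n l18 (nat_lit 9178) (nat_lit 10) (nat_lit 4))
    (@En.n l26601 (nat_lit 9169) (nat_lit 0) (nat_lit 5))
    (@En.i (nat_lit 8503) (nat_lit 1) (nat_lit 8))
    (@En.n l61 (nat_lit 9197) (nat_lit 14) (nat_lit 11))
    (@En.i (nat_lit 10158) (nat_lit 2) (nat_lit 12))
    (@En.i (nat_lit 9179) (nat_lit 15) (nat_lit 3))))
  (@Cl.mk (nat_lit 0x3000c0004000c00090004000c0004000c000a000400070004000d000c0006) (nat_lit 0x7208097000ba0) (nat_lit 16) Lb.e (@T16.mk En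
    (@En.n l2813 (nat_lit 7240) (nat_lit 0) (nat_lit 6))
    (@En.n l644 (nat_lit 9177) (nat_lit 4) (nat_lit 12))
    (@En.n l287 (nat_lit 9790) (nat_lit 2) (nat_lit 13))
    (@En.n l3535 (nat_lit 9169) (nat_lit 3) (nat_lit 4))
    (@En.n l152 (nat_lit 8344) (nat_lit 11) (nat_lit 7))
    (@En.n l936 (nat_lit 11796) (nat_lit 5) (nat_lit 4))
    (@En.i (nat_lit 9166) (nat_lit 0) (nat_lit 10))
    (@En.n l3447 (nat_lit 7619) (nat_lit 1) (nat_lit 12))
    (@En.n l19001 (nat_lit 8481) (nat_lit 8) (nat_lit 4))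
    (@En.i (nat_lit 10137) (nat_lit 10) (nat_lit 12))
    (@En.n l9775 (nat_lit 9196) (nat_lit 10) (nat_lit 4))
    (@En.i (nat_lit 8502) (nat_lit 0) (nat_lit 9))
    (@En.n l2813 (nat_lit 4303) (nat_lit 1) (nat_lit 12))
    (@En.n l7 (nat_lit 9059) (nat_lit 14) (nat_lit 4))
    (@En.n l564 (nat_lit 10710) (nat_lit 0) (nat_lit 12))
    (@En.n l7 (nat_lit 9178) (nat_lit 15) (nat_lit 3))))
  (@Cl.mk (nat_lit 0x3000c00090005000c0004000c000b000400070004000c0005000d000b0004) (nat_lit 0x74090a100090430) (nat_lit 16) Lb.e (@T16.mk En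
    (@En.n l22397 (nat_lit 9064) (nat_lit 0) (nat_lit 4))
    (@En.n l217 (nat_lit 9175) (nat_lit 0) (nat_lit 11))
    (@En.n l2125 (nat_lit 7282) (nat_lit 1) (nat_lit 13))
    (@En.n l11 (nat_lit 8570) (nat_lit 3) (nat_lit 5))
    (@En.n l12055 (nat_lit 9787) (nat_lit 10) (nat_lit 12))
    (@En.n l3535 (nat_lit 9171) (nat_lit 5) (nat_lit 4))
    (@En.n l152 (nat_lit 8239) (nat_lit 11) (nat_lit 7))
    (@En.n l936 (nat_lit 11827) (nat_lit 7) (nat_lit 4))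
    (@En.n l55 (nat_lit 4327) (nat_lit 0) (nat_lit 11))
    (@En.n l3447 (nat_lit 7620) (nat_lit 1) (nat_lit 12))
    (@En.n l19001 (nat_lit 8331) (nat_lit 10) (nat_lit 4))
    (@En.n l31922 (nat_lit 10139) (nat_lit 0) (nat_lit 12))
    (@En.n l3928 (nat_lit 9174) (nat_lit 1) (nat_lit 5))
    (@En.i (nat_lit 8498) (nat_lit 14) (nat_lit 9))
    (@En.n l5 (nat_lit 9789) (nat_lit 3) (nat_lit 12))
    (@En.n l50 (nat_lit 9178) (nat_lit 13) (nat_lit 3))))
  (@Cl.mk (nat_lit 0x3000c0003000c00090004000c0004000c000b000400070004000d0005000d) (nat_lit 0x8208021000a04) (nat_lit 16) Lb.e (@T16.mk En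
    (@En.n l2125 (nat_lit 7287) (nat_lit 0) (nat_lit 13))
    (@En.n l11 (nat_lit 8572) (nat_lit 3) (nat_lit 5))
    (@En.n l287 (nat_lit 9791) (nat_lit 2) (nat_lit 13))
    (@En.n l3535 (nat_lit 9170) (nat_lit 3) (nat_lit 4))
    (@En.n l152 (nat_lit 8342) (nat_lit 11) (nat_lit 7))
    (@En.n l936 (nat_lit 11826) (nat_lit 7) (nat_lit 4))
    (@En.n l55 (nat_lit 4323) (nat_lit 0) (nat_lit 11))
    (@En.n l3447 (nat_lit 7621) (nat_lit 1) (nat_lit 12))
    (@En.n l19001 (nat_lit 8482) (nat_lit 8) (nat_lit 4))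
    (@En.i (nat_lit 10138) (nat_lit 10) (nat_lit 12))
    (@En.n l3098 (nat_lit 9195) (nat_lit 10) (nat_lit 4))
    (@En.i (nat_lit 8500) (nat_lit 14) (nat_lit 9))
    (@En.i (nat_lit 4302) (nat_lit 1) (nat_lit 12))
    (@En.i (nat_lit 9177) (nat_lit 15) (nat_lit 3))
    (@En.i (nat_lit 10328) (nat_lit 0) (nat_lit 12))
    (@En.i (nat_lit 9176) (nat_lit 15) (nat_lit 3))))
  (@Cl.mk (nat_lit 0x3000c000b000800060004000c0005000c000a000400080004000d000a0006) (nat_lit 0x362006091040840) (nat_lit 16) Lb.e (@T16.mk En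
    (@En.n l18639 (nat_lit 7133) (nat_lit 0) (nat_lit 6))
    (@En.n l6080 (nat_lit 8753) (nat_lit 12) (nat_lit 10))
    (@En.n l35100 (nat_lit 10301) (nat_lit 2) (nat_lit 13))
    (@En.n l3535 (nat_lit 9173) (nat_lit 3) (nat_lit 4))
    (@En.n l152 (nat_lit 9758) (nat_lit 11) (nat_lit 8))
    (@En.n l24537 (nat_lit 9207) (nat_lit 5) (nat_lit 4))
    (@En.n l9775 (nat_lit 8731) (nat_lit 0) (nat_lit 10))
    (@En.n l6939 (nat_lit 10384) (nat_lit 1) (nat_lit 12))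
    (@En.n l26600 (nat_lit 9124) (nat_lit 8) (nat_lit 5))
    (@En.n l6081 (nat_lit 10701) (nat_lit 10) (nat_lit 12))
    (@En.n l18 (nat_lit 9176) (nat_lit 10) (nat_lit 4))
    (@En.n l9775 (nat_lit 9176) (nat_lit 0) (nat_lit 6))
    (@En.i (nat_lit 8504) (nat_lit 1) (nat_lit 8))
    (@En.n l61 (nat_lit 9198) (nat_lit 14) (nat_lit 11))
    (@En.n l6943 (nat_lit 10711) (nat_lit 11) (nat_lit 12))
    (@En.n l7 (nat_lit 9175) (nat_lit 15) (nat_lit 3))))
  (@Cl.mk (nat_lit 0x2000a000a00080005000c000a000600060004000d000800060003000e000b) (nat_lit 0x8140950007200b6) (nat_lit 16) Lb.e (@T16.mk En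
    (@En.n l19750 (nat_lit 9124) (nat_lit 14) (nat_lit 11))
    (@En.n l24188 (nat_lit 9384) (nat_lit 1) (nat_lit 14))
    (@En.n l25272 (nat_lit 9181) (nat_lit 2) (nat_lit 3))
    (@En.n l25273 (nat_lit 1636) (nat_lit 3) (nat_lit 6))
    (@En.n l24188 (nat_lit 6566) (nat_lit 4) (nat_lit 8))
    (@En.i (nat_lit 5461) (nat_lit 6) (nat_lit 13))
    (@En.n l25274 (nat_lit 7820) (nat_lit 6) (nat_lit 4))
    (@En.n l25275 (nat_lit 7835) (nat_lit 10) (nat_lit 6))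
    (@En.n l21738 (nat_lit 8574) (nat_lit 8) (nat_lit 6))
    (@En.n l25276 (nat_lit 8286) (nat_lit 10) (nat_lit 10))
    (@En.n l25277 (nat_lit 6754) (nat_lit 11) (nat_lit 12))
    (@En.n l19750 (nat_lit 8489) (nat_lit 12) (nat_lit 5))
    (@En.n l25278 (nat_lit 9182) (nat_lit 13) (nat_lit 8))
    (@En.n l8532 (nat_lit 7687) (nat_lit 6) (nat_lit 10))
    (@En.n l25279 (nat_lit 10712) (nat_lit 12) (nat_lit 10))
    (@En.n l107 (nat_lit 9180) (nat_lit 15) (nat_lit 2))))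
  (@Cl.mk (nat_lit 0x2000a000a00070005000c000b000600060004000d000500090003000e000b) (nat_lit 0x410025000605019) (nat_lit 16) Lb.e (@T16.mk En
    (@En.i (nat_lit 9108) (nat_lit 14) (nat_lit 11))
    (@En.n l17194 (nat_lit 5296) (nat_lit 1) (nat_lit 14))
    (@En.n l11579 (nat_lit 9180) (nat_lit 2) (nat_lit 3))
    (@En.n l30097 (nat_lit 12543) (nat_lit 3) (nat_lit 9))
    (@En.n l9966 (nat_lit 8962) (nat_lit 4) (nat_lit 5))
    (@En.n l665 (nat_lit 5187) (nat_lit 6) (nat_lit 13))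
    (@En.n l3535 (nat_lit 7819) (nat_lit 6) (nat_lit 4))
    (@En.n l152 (nat_lit 9103) (nat_lit 10) (nat_lit 6))
    (@En.n l2938 (nat_lit 10104) (nat_lit 8) (nat_lit 6))
    (@En.n l39849 (nat_lit 9107) (nat_lit 10) (nat_lit 11))
    (@En.n l7055 (nat_lit 6342) (nat_lit 11) (nat_lit 12))
    (@En.i (nat_lit 8492) (nat_lit 12) (nat_lit 5))
    (@En.n l33004 (nat_lit 10528) (nat_lit 13) (nat_lit 7))
    (@En.n l3536 (nat_lit 7684) (nat_lit 6) (nat_lit 10))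
    (@En.n l26614 (nat_lit 10408) (nat_lit 12) (nat_lit 10))
    (@En.n l18 (nat_lit 9181) (nat_lit 15) (nat_lit 2))))
  (@Cl.mk (nat_lit 0x2000b00080004000c00090005000c0004000c0008000400070004000e000c) (nat_lit 0x730840a06200049) (nat_lit 16) Lb.e (@T16.mk En
    (@En.n l28301 (nat_lit 9059) (nat_lit 3) (nat_lit 12))
    (@En.n l28280 (nat_lit 9385) (nat_lit 1) (nat_lit 14))
    (@En.n l31028 (nat_lit 10528) (nat_lit 2) (nat_lit 4))
    (@En.n l31029 (nat_lit 7687) (nat_lit 11) (nat_lit 7))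
    (@En.n l28276 (nat_lit 9188) (nat_lit 4) (nat_lit 4))
    (@En.n l3167 (nat_lit 4445) (nat_lit 5) (nat_lit 8))
    (@En.n l31030 (nat_lit 5466) (nat_lit 7) (nat_lit 12))
    (@En.n l217 (nat_lit 8569) (nat_lit 7) (nat_lit 4))
    (@En.n l31031 (nat_lit 9184) (nat_lit 9) (nat_lit 12))
    (@En.n l10903 (nat_lit 8568) (nat_lit 9) (nat_lit 5))
    (@En.n l30348 (nat_lit 8294) (nat_lit 11) (nat_lit 9))
    (@En.n l28713 (nat_lit 6796) (nat_lit 12) (nat_lit 12))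
    (@En.n l30348 (nat_lit 9176) (nat_lit 13) (nat_lit 4))
    (@En.n l31032 (nat_lit 2350) (nat_lit 14) (nat_lit 8))
    (@En.n l31033 (nat_lit 10709) (nat_lit 1) (nat_lit 11))
    (@En.n l3 (nat_lit 9182) (nat_lit 15) (nat_lit 2))))
  (@Cl.mk (nat_lit 0x20006000b00090005000d000a00050003000c0007000a00060004000e000b) (nat_lit 0x86095005070051) (nat_lit 16) Lb.e (@T16.mk En
    (@En.n l25293 (nat_lit 9056) (nat_lit 9) (nat_lit 11))
    (@En.n l25294 (nat_lit 9868) (nat_lit 1) (nat_lit 14))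
    (@En.n l18 (nat_lit 10536) (nat_lit 2) (nat_lit 4))
    (@En.n l25295 (nat_lit 9180) (nat_lit 3) (nat_lit 6))
    (@En.n l4003 (nat_lit 12754) (nat_lit 8) (nat_lit 10))
    (@En.n l25296 (nat_lit 6567) (nat_lit 5) (nat_lit 7))
    (@En.n l4003 (nat_lit 5491) (nat_lit 7) (nat_lit 12))
    (@En.n l7 (nat_lit 9185) (nat_lit 7) (nat_lit 3))
    (@En.n l25297 (nat_lit 7939) (nat_lit 8) (nat_lit 5))
    (@En.i (nat_lit 8292) (nat_lit 10) (nat_lit 10))
    (@En.n l645 (nat_lit 6797) (nat_lit 11) (nat_lit 13))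
    (@En.i (nat_lit 9393) (nat_lit 12) (nat_lit 5))
    (@En.n l25298 (nat_lit 9184) (nat_lit 13) (nat_lit 9))
    (@En.n l25299 (nat_lit 9182) (nat_lit 14) (nat_lit 11))
    (@En.i (nat_lit 11787) (nat_lit 6) (nat_lit 6))
    (@En.n l67 (nat_lit 9183) (nat_lit 15) (nat_lit 2))))
noncomputable def a574 : T16 Cl := @T16.mk Cl
  (@Cl.mk (nat_lit 0x2000600090004000d0009000c0003000b00070004000a00070005000e000c) (nat_lit 0x50849050080061) (nat_lit 16) Lb.e (@T16.mk En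
    (@En.n l32919 (nat_lit 9058) (nat_lit 8) (nat_lit 12))
    (@En.n l32920 (nat_lit 9867) (nat_lit 1) (nat_lit 14))
    (@En.n l671 (nat_lit 10534) (nat_lit 2) (nat_lit 5))
    (@En.n l32921 (nat_lit 9182) (nat_lit 3) (nat_lit 7))
    (@En.n l28147 (nat_lit 9183) (nat_lit 4) (nat_lit 10))
    (@En.n l429 (nat_lit 9187) (nat_lit 5) (nat_lit 4))
    (@En.n l7055 (nat_lit 4447) (nat_lit 6) (nat_lit 7))
    (@En.n l3348 (nat_lit 5490) (nat_lit 8) (nat_lit 11))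
    (@En.n l4204 (nat_lit 9186) (nat_lit 8) (nat_lit 3))
    (@En.n l4884 (nat_lit 9212) (nat_lit 10) (nat_lit 12))
    (@En.n l16500 (nat_lit 8296) (nat_lit 11) (nat_lit 9))
    (@En.n l4884 (nat_lit 6795) (nat_lit 12) (nat_lit 13))
    (@En.n l7246 (nat_lit 10137) (nat_lit 13) (nat_lit 4))
    (@En.n l671 (nat_lit 2349) (nat_lit 9) (nat_lit 9))
    (@En.n l6081 (nat_lit 11472) (nat_lit 5) (nat_lit 6))
    (@En.n l3 (nat_lit 9184) (nat_lit 15) (nat_lit 2))))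
  (@Cl.mk (nat_lit 0x20006000c00090005000d0004000b0003000c0007000a00050004000e000b) (nat_lit 0x96080105070061) (nat_lit 16) Lb.e (@T16.mk En
    (@En.n l22465 (nat_lit 9055) (nat_lit 9) (nat_lit 11))
    (@En.n l37724 (nat_lit 9869) (nat_lit 1) (nat_lit 14))
    (@En.n l18 (nat_lit 12699) (nat_lit 2) (nat_lit 4))
    (@En.n l22467 (nat_lit 7820) (nat_lit 3) (nat_lit 5))
    (@En.n l3471 (nat_lit 12755) (nat_lit 8) (nat_lit 10))
    (@En.n l61 (nat_lit 6568) (nat_lit 5) (nat_lit 7))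
    (@En.n l1075 (nat_lit 7877) (nat_lit 7) (nat_lit 12))
    (@En.i (nat_lit 9183) (nat_lit 7) (nat_lit 3))
    (@En.n l3488 (nat_lit 8930) (nat_lit 9) (nat_lit 11))
    (@En.n l1236 (nat_lit 11292) (nat_lit 9) (nat_lit 4))
    (@En.n l645 (nat_lit 6800) (nat_lit 11) (nat_lit 13))
    (@En.i (nat_lit 9395) (nat_lit 12) (nat_lit 5))
    (@En.n l9885 (nat_lit 9186) (nat_lit 13) (nat_lit 9))
    (@En.n l15535 (nat_lit 8536) (nat_lit 14) (nat_lit 12))
    (@En.i (nat_lit 11786) (nat_lit 6) (nat_lit 6))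
    (@En.n l67 (nat_lit 9185) (nat_lit 15) (nat_lit 2))))
  (@Cl.mk (nat_lit 0x2000600090004000d000b000a0003000b00070005000a00060005000e000c) (nat_lit 0x50781050080071) (nat_lit 16) Lb.e (@T16.mk En
    (@En.n l14431 (nat_lit 9057) (nat_lit 8) (nat_lit 12))
    (@En.n l601 (nat_lit 9866) (nat_lit 1) (nat_lit 14))
    (@En.n l16314 (nat_lit 12696) (nat_lit 2) (nat_lit 5))
    (@En.n l20637 (nat_lit 8569) (nat_lit 3) (nat_lit 6))
    (@En.n l11434 (nat_lit 9185) (nat_lit 4) (nat_lit 10))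
    (@En.i (nat_lit 12460) (nat_lit 5) (nat_lit 5))
    (@En.n l2364 (nat_lit 6768) (nat_lit 6) (nat_lit 7))
    (@En.i (nat_lit 7874) (nat_lit 8) (nat_lit 11))
    (@En.n l2413 (nat_lit 9184) (nat_lit 8) (nat_lit 3))
    (@En.n l619 (nat_lit 8929) (nat_lit 10) (nat_lit 10))
    (@En.i (nat_lit 9189) (nat_lit 11) (nat_lit 11))
    (@En.i (nat_lit 1717) (nat_lit 12) (nat_lit 13))
    (@En.n l11434 (nat_lit 10134) (nat_lit 13) (nat_lit 4))
    (@En.n l26122 (nat_lit 2348) (nat_lit 9) (nat_lit 9))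
    (@En.i (nat_lit 11471) (nat_lit 5) (nat_lit 6))
    (@En.n l50 (nat_lit 9186) (nat_lit 15) (nat_lit 2))))
  (@Cl.mk (nat_lit 0x20006000b0004000c0009000c00050004000c0004000a00070004000e000c) (nat_lit 0x30948003070050) (nat_lit 16) Lb.e (@T16.mk En
    (@En.n l28082 (nat_lit 9193) (nat_lit 3) (nat_lit 12))
    (@En.n l18 (nat_lit 9566) (nat_lit 1) (nat_lit 14))
    (@En.n l3348 (nat_lit 12683) (nat_lit 2) (nat_lit 4))
    (@En.n l18475 (nat_lit 9188) (nat_lit 3) (nat_lit 7))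
    (@En.n l28083 (nat_lit 12608) (nat_lit 4) (nat_lit 10))
    (@En.n l2358 (nat_lit 9189) (nat_lit 5) (nat_lit 4))
    (@En.n l14183 (nat_lit 5487) (nat_lit 7) (nat_lit 12))
    (@En.i (nat_lit 12421) (nat_lit 7) (nat_lit 4))
    (@En.n l14184 (nat_lit 9183) (nat_lit 8) (nat_lit 5))
    (@En.n l14183 (nat_lit 9217) (nat_lit 6) (nat_lit 12))
    (@En.n l28084 (nat_lit 8559) (nat_lit 11) (nat_lit 9))
    (@En.n l14183 (nat_lit 6804) (nat_lit 12) (nat_lit 12))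
    (@En.n l6909 (nat_lit 11795) (nat_lit 13) (nat_lit 4))
    (@En.n l26134 (nat_lit 6198) (nat_lit 14) (nat_lit 11))
    (@En.n l28085 (nat_lit 10848) (nat_lit 1) (nat_lit 6))
    (@En.n l3 (nat_lit 9187) (nat_lit 15) (nat_lit 2))))
  (@Cl.mk (nat_lit 0x2000b000a0004000b00090005000c00060005000d000400070003000e000c) (nat_lit 0x330840900400049) (nat_lit 16) Lb.e (@T16.mk En
    (@En.i (nat_lit 9192) (nat_lit 14) (nat_lit 12))
    (@En.i (nat_lit 9565) (nat_lit 1) (nat_lit 14))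
    (@En.n l6131 (nat_lit 9191) (nat_lit 2) (nat_lit 3))
    (@En.n l13783 (nat_lit 5738) (nat_lit 11) (nat_lit 7))
    (@En.n l24983 (nat_lit 9190) (nat_lit 4) (nat_lit 4))
    (@En.i (nat_lit 5469) (nat_lit 6) (nat_lit 13))
    (@En.n l9167 (nat_lit 12422) (nat_lit 6) (nat_lit 5))
    (@En.n l28 (nat_lit 9180) (nat_lit 7) (nat_lit 6))
    (@En.n l9950 (nat_lit 9187) (nat_lit 9) (nat_lit 12))
    (@En.n l24984 (nat_lit 11889) (nat_lit 9) (nat_lit 5))
    (@En.n l3480 (nat_lit 8554) (nat_lit 11) (nat_lit 9))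
    (@En.i (nat_lit 6713) (nat_lit 12) (nat_lit 11))
    (@En.n l22243 (nat_lit 11796) (nat_lit 13) (nat_lit 4))
    (@En.n l77 (nat_lit 6112) (nat_lit 14) (nat_lit 10))
    (@En.n l9167 (nat_lit 10707) (nat_lit 12) (nat_lit 11))
    (@En.n l107 (nat_lit 9188) (nat_lit 15) (nat_lit 2))))
  (@Cl.mk (nat_lit 0x20006000a0004000b0009000c000a000600050004000a00070006000e000c) (nat_lit 0x30739200070045) (nat_lit 16) Lb.e (@T16.mk En
    (@En.n l17243 (nat_lit 11046) (nat_lit 3) (nat_lit 12))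
    (@En.n l601 (nat_lit 9506) (nat_lit 1) (nat_lit 14))
    (@En.n l6912 (nat_lit 12595) (nat_lit 2) (nat_lit 6))
    (@En.n l17244 (nat_lit 9190) (nat_lit 3) (nat_lit 7))
    (@En.n l17245 (nat_lit 12265) (nat_lit 4) (nat_lit 10))
    (@En.n l3586 (nat_lit 9184) (nat_lit 5) (nat_lit 4))
    (@En.n l6915 (nat_lit 12417) (nat_lit 6) (nat_lit 5))
    (@En.n l17246 (nat_lit 4446) (nat_lit 7) (nat_lit 6))
    (@En.n l17247 (nat_lit 12685) (nat_lit 9) (nat_lit 10))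
    (@En.n l17248 (nat_lit 8953) (nat_lit 10) (nat_lit 12))
    (@En.n l6913 (nat_lit 9752) (nat_lit 11) (nat_lit 9))
    (@En.n l6912 (nat_lit 8991) (nat_lit 12) (nat_lit 11))
    (@En.n l11434 (nat_lit 10140) (nat_lit 13) (nat_lit 4))
    (@En.n l17249 (nat_lit 2360) (nat_lit 14) (nat_lit 10))
    (@En.n l17250 (nat_lit 10919) (nat_lit 1) (nat_lit 6))
    (@En.n l50 (nat_lit 9189) (nat_lit 15) (nat_lit 2))))
  (@Cl.mk (nat_lit 0x2000b00090004000a00090005000c000b00070006000400070005000e000c) (nat_lit 0x330730a30000034) (nat_lit 16) Lb.e (@T16.mk En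
    (@En.i (nat_lit 11045) (nat_lit 3) (nat_lit 12))
    (@En.n l32910 (nat_lit 9507) (nat_lit 1) (nat_lit 14))
    (@En.n l55 (nat_lit 9225) (nat_lit 2) (nat_lit 5))
    (@En.n l32911 (nat_lit 10101) (nat_lit 3) (nat_lit 7))
    (@En.n l32912 (nat_lit 9182) (nat_lit 4) (nat_lit 4))
    (@En.i (nat_lit 12419) (nat_lit 5) (nat_lit 6))
    (@En.n l32910 (nat_lit 4444) (nat_lit 6) (nat_lit 7))
    (@En.n l32913 (nat_lit 9191) (nat_lit 8) (nat_lit 11))
    (@En.n l32914 (nat_lit 9189) (nat_lit 9) (nat_lit 12))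
    (@En.n l32915 (nat_lit 11042) (nat_lit 9) (nat_lit 5))
    (@En.n l13962 (nat_lit 9744) (nat_lit 11) (nat_lit 9))
    (@En.n l32916 (nat_lit 8994) (nat_lit 12) (nat_lit 10))
    (@En.n l32917 (nat_lit 10144) (nat_lit 13) (nat_lit 4))
    (@En.n l3354 (nat_lit 2359) (nat_lit 14) (nat_lit 9))
    (@En.n l32918 (nat_lit 10310) (nat_lit 1) (nat_lit 11))
    (@En.n l3 (nat_lit 9190) (nat_lit 15) (nat_lit 2))))
  (@Cl.mk (nat_lit 0x2000b000a0004000b000a0005000b00060005000d000600050003000e000c) (nat_lit 0x330380200400048) (nat_lit 16) Lb.e (@T16.mk En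
    (@En.i (nat_lit 11832) (nat_lit 14) (nat_lit 12))
    (@En.i (nat_lit 12265) (nat_lit 1) (nat_lit 14))
    (@En.n l9105 (nat_lit 9188) (nat_lit 2) (nat_lit 3))
    (@En.n l5934 (nat_lit 6373) (nat_lit 3) (nat_lit 5))
    (@En.n l2805 (nat_lit 5673) (nat_lit 4) (nat_lit 6))
    (@En.n l1012 (nat_lit 7612) (nat_lit 6) (nat_lit 13))
    (@En.n l14973 (nat_lit 12426) (nat_lit 6) (nat_lit 5))
    (@En.n l4961 (nat_lit 9181) (nat_lit 7) (nat_lit 6))
    (@En.n l28104 (nat_lit 12683) (nat_lit 9) (nat_lit 11))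
    (@En.n l50 (nat_lit 11888) (nat_lit 9) (nat_lit 5))
    (@En.n l2579 (nat_lit 8540) (nat_lit 11) (nat_lit 10))
    (@En.n l5933 (nat_lit 6712) (nat_lit 12) (nat_lit 11))
    (@En.n l26068 (nat_lit 11831) (nat_lit 13) (nat_lit 4))
    (@En.n l28105 (nat_lit 6098) (nat_lit 14) (nat_lit 10))
    (@En.i (nat_lit 10311) (nat_lit 12) (nat_lit 11))
    (@En.n l3 (nat_lit 9191) (nat_lit 15) (nat_lit 2))))
  (@Cl.mk (nat_lit 0x3000c000c000a000900040004000b00090006000c00070005000d00040007) (nat_lit 0x887300850900400) (nat_lit 16) Lb.e (@T16.mk En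
    (@En.n l13783 (nat_lit 5737) (nat_lit 11) (nat_lit 7))
    (@En.n l24983 (nat_lit 11045) (nat_lit 6) (nat_lit 4))
    (@En.i (nat_lit 5468) (nat_lit 0) (nat_lit 13))
    (@En.n l7048 (nat_lit 12423) (nat_lit 1) (nat_lit 5))
    (@En.n l27060 (nat_lit 9124) (nat_lit 4) (nat_lit 7))
    (@En.n l32006 (nat_lit 9193) (nat_lit 11) (nat_lit 12))
    (@En.n l32007 (nat_lit 11886) (nat_lit 6) (nat_lit 6))
    (@En.n l32008 (nat_lit 8520) (nat_lit 13) (nat_lit 9))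
    (@En.n l3 (nat_lit 11868) (nat_lit 9) (nat_lit 11))
    (@En.n l527 (nat_lit 9188) (nat_lit 12) (nat_lit 4))
    (@En.n l32009 (nat_lit 11827) (nat_lit 0) (nat_lit 4))
    (@En.n l32010 (nat_lit 6109) (nat_lit 0) (nat_lit 9))
    (@En.n l32011 (nat_lit 9207) (nat_lit 1) (nat_lit 10))
    (@En.n l32012 (nat_lit 12106) (nat_lit 4) (nat_lit 12))
    (@En.n l31959 (nat_lit 9717) (nat_lit 13) (nat_lit 12))
    (@En.n l6131 (nat_lit 11832) (nat_lit 15) (nat_lit 3))))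
  (@Cl.mk (nat_lit 0x40004000c0009000c00060004000c0004000b00070004000c000c0005000a) (nat_lit 0x9480030700a001) (nat_lit 16) Lb.e (@T16.mk En
    (@En.n l11363 (nat_lit 6111) (nat_lit 0) (nat_lit 10))
    (@En.n l40775 (nat_lit 11794) (nat_lit 1) (nat_lit 5))
    (@En.n l61 (nat_lit 12108) (nat_lit 4) (nat_lit 12))
    (@En.n l615 (nat_lit 9716) (nat_lit 10) (nat_lit 12))
    (@En.n l97 (nat_lit 12681) (nat_lit 4) (nat_lit 4))
    (@En.n l27183 (nat_lit 9192) (nat_lit 0) (nat_lit 7))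
    (@En.n l1866 (nat_lit 12111) (nat_lit 1) (nat_lit 11))
    (@En.n l11940 (nat_lit 11046) (nat_lit 7) (nat_lit 4))
    (@En.n l40776 (nat_lit 5488) (nat_lit 0) (nat_lit 12))
    (@En.n l18299 (nat_lit 12420) (nat_lit 1) (nat_lit 4))
    (@En.n l55 (nat_lit 9056) (nat_lit 0) (nat_lit 6))
    (@En.n l11363 (nat_lit 9219) (nat_lit 6) (nat_lit 12))
    (@En.n l14392 (nat_lit 8422) (nat_lit 13) (nat_lit 9))
    (@En.n l2940 (nat_lit 11783) (nat_lit 3) (nat_lit 12))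
    (@En.n l40777 (nat_lit 9187) (nat_lit 12) (nat_lit 4))
    (@En.n l40778 (nat_lit 11828) (nat_lit 0) (nat_lit 4))))
  (@Cl.mk (nat_lit 0x30008000d000c00050003000c0004000c00080004000d0004000d0003000b) (nat_lit 0x4920020630a0300) (nat_lit 16) Lb.e (@T16.mk En
    (@En.i (nat_lit 9562) (nat_lit 0) (nat_lit 11))
    (@En.n l29061 (nat_lit 8603) (nat_lit 15) (nat_lit 3))
    (@En.n l9715 (nat_lit 3634) (nat_lit 0) (nat_lit 13))
    (@En.n l14190 (nat_lit 9398) (nat_lit 3) (nat_lit 4))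
    (@En.n l22601 (nat_lit 4250) (nat_lit 10) (nat_lit 13))
    (@En.i (nat_lit 9087) (nat_lit 5) (nat_lit 4))
    (@En.n l16464 (nat_lit 4324) (nat_lit 6) (nat_lit 8))
    (@En.n l41080 (nat_lit 10827) (nat_lit 8) (nat_lit 12))
    (@En.i (nat_lit 8725) (nat_lit 8) (nat_lit 4))
    (@En.n l22603 (nat_lit 10468) (nat_lit 10) (nat_lit 12))
    (@En.n l18752 (nat_lit 4335) (nat_lit 10) (nat_lit 3))
    (@En.i (nat_lit 11890) (nat_lit 0) (nat_lit 5))
    (@En.n l22603 (nat_lit 4332) (nat_lit 13) (nat_lit 12))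
    (@En.n l2824 (nat_lit 8307) (nat_lit 12) (nat_lit 13))
    (@En.n l9715 (nat_lit 8702) (nat_lit 3) (nat_lit 8))
    (@En.i (nat_lit 9150) (nat_lit 15) (nat_lit 3))))
  (@Cl.mk (nat_lit 0x3000c00070004000d0004000c0003000c000b000400090004000d0005000c) (nat_lit 0x9009080a1010401) (nat_lit 16) Lb.e (@T16.mk En
    (@En.n l133 (nat_lit 8649) (nat_lit 0) (nat_lit 12))
    (@En.n l27692 (nat_lit 11886) (nat_lit 8) (nat_lit 5))
    (@En.n l18235 (nat_lit 9960) (nat_lit 10) (nat_lit 13))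
    (@En.n l7 (nat_lit 9205) (nat_lit 10) (nat_lit 4))
    (@En.i (nat_lit 8696) (nat_lit 4) (nat_lit 9))
    (@En.n l4061 (nat_lit 9200) (nat_lit 5) (nat_lit 4))
    (@En.n l6080 (nat_lit 9194) (nat_lit 0) (nat_lit 11))
    (@En.n l9448 (nat_lit 10433) (nat_lit 1) (nat_lit 12))
    (@En.n l3535 (nat_lit 9197) (nat_lit 8) (nat_lit 3))
    (@En.i (nat_lit 10335) (nat_lit 0) (nat_lit 12))
    (@En.n l3851 (nat_lit 9175) (nat_lit 10) (nat_lit 4))
    (@En.n l617 (nat_lit 4300) (nat_lit 2) (nat_lit 13))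
    (@En.n l2125 (nat_lit 9170) (nat_lit 1) (nat_lit 4))
    (@En.n l3536 (nat_lit 10138) (nat_lit 14) (nat_lit 7))
    (@En.n l9182 (nat_lit 10157) (nat_lit 1) (nat_lit 12))
    (@En.n l6080 (nat_lit 9196) (nat_lit 15) (nat_lit 3))))
  (@Cl.mk (nat_lit 0x3000c00070005000d0004000c0003000c000a000400090004000d000b0006) (nat_lit 0x902081010390) (nat_lit 16) Lb.e (@T16.mk En
    (@En.n l2765 (nat_lit 7129) (nat_lit 0) (nat_lit 6))
    (@En.n l833 (nat_lit 9174) (nat_lit 9) (nat_lit 11))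
    (@En.n l2691 (nat_lit 9961) (nat_lit 10) (nat_lit 13))
    (@En.n l833 (nat_lit 10294) (nat_lit 10) (nat_lit 4))
    (@En.n l18752 (nat_lit 8697) (nat_lit 4) (nat_lit 9))
    (@En.n l3098 (nat_lit 9199) (nat_lit 5) (nat_lit 4))
    (@En.i (nat_lit 8725) (nat_lit 0) (nat_lit 10))
    (@En.n l6891 (nat_lit 10075) (nat_lit 1) (nat_lit 12))
    (@En.n l9824 (nat_lit 9198) (nat_lit 8) (nat_lit 3))
    (@En.n l18752 (nat_lit 10336) (nat_lit 0) (nat_lit 12))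
    (@En.n l19165 (nat_lit 9179) (nat_lit 10) (nat_lit 4))
    (@En.n l6891 (nat_lit 4301) (nat_lit 2) (nat_lit 13))
    (@En.i (nat_lit 9178) (nat_lit 1) (nat_lit 5))
    (@En.n l19200 (nat_lit 10137) (nat_lit 14) (nat_lit 7))
    (@En.n l42515 (nat_lit 10636) (nat_lit 3) (nat_lit 12))
    (@En.n l39721 (nat_lit 9195) (nat_lit 15) (nat_lit 3))))
  (@Cl.mk (nat_lit 0x3000b00070004000d000b00050003000c000b000500090004000d0005000c) (nat_lit 0x600a70021010401) (nat_lit 16) Lb.e (@T16.mk En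
    (@En.n l9979 (nat_lit 8650) (nat_lit 0) (nat_lit 12))
    (@En.n l27426 (nat_lit 11887) (nat_lit 8) (nat_lit 5))
    (@En.n l42494 (nat_lit 9962) (nat_lit 2) (nat_lit 13))
    (@En.n l34933 (nat_lit 10291) (nat_lit 3) (nat_lit 4))
    (@En.n l152 (nat_lit 8547) (nat_lit 10) (nat_lit 9))
    (@En.n l38319 (nat_lit 10185) (nat_lit 5) (nat_lit 5))
    (@En.n l55 (nat_lit 8603) (nat_lit 14) (nat_lit 11))
    (@En.i (nat_lit 10710) (nat_lit 8) (nat_lit 12))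
    (@En.n l3480 (nat_lit 9195) (nat_lit 8) (nat_lit 3))
    (@En.n l34933 (nat_lit 9117) (nat_lit 0) (nat_lit 5))
    (@En.n l1532 (nat_lit 9203) (nat_lit 11) (nat_lit 11))
    (@En.i (nat_lit 4297) (nat_lit 2) (nat_lit 13))
    (@En.n l13633 (nat_lit 9171) (nat_lit 3) (nat_lit 4))
    (@En.i (nat_lit 10135) (nat_lit 14) (nat_lit 7))
    (@En.n l1080 (nat_lit 10634) (nat_lit 1) (nat_lit 11))
    (@En.i (nat_lit 9198) (nat_lit 15) (nat_lit 3))))
  (@Cl.mk (nat_lit 0x3000b00070005000d000b00050003000c000a000500090004000d000b0006) (nat_lit 0x500a70081010430) (nat_lit 16) Lb.e (@T16.mk En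
    (@En.n l34628 (nat_lit 7127) (nat_lit 0) (nat_lit 6))
    (@En.n l17957 (nat_lit 10182) (nat_lit 9) (nat_lit 11))
    (@En.n l37897 (nat_lit 9963) (nat_lit 10) (nat_lit 13))
    (@En.n l34933 (nat_lit 10293) (nat_lit 3) (nat_lit 4))
    (@En.n l17781 (nat_lit 9093) (nat_lit 10) (nat_lit 9))
    (@En.n l20559 (nat_lit 10186) (nat_lit 5) (nat_lit 5))
    (@En.n l15675 (nat_lit 8723) (nat_lit 14) (nat_lit 10))
    (@En.n l17893 (nat_lit 10709) (nat_lit 8) (nat_lit 12))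
    (@En.n l24188 (nat_lit 9196) (nat_lit 8) (nat_lit 3))
    (@En.n l26933 (nat_lit 9118) (nat_lit 0) (nat_lit 5))
    (@En.n l37898 (nat_lit 9204) (nat_lit 11) (nat_lit 11))
    (@En.n l9310 (nat_lit 4299) (nat_lit 2) (nat_lit 13))
    (@En.n l15675 (nat_lit 9177) (nat_lit 3) (nat_lit 5))
    (@En.n l11547 (nat_lit 10134) (nat_lit 14) (nat_lit 7))
    (@En.n l37899 (nat_lit 10645) (nat_lit 11) (nat_lit 11))
    (@En.n l7 (nat_lit 9197) (nat_lit 15) (nat_lit 3))))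
  (@Cl.mk (nat_lit 0x3000c00070005000c0004000c00080004000d000400090003000d000b0008) (nat_lit 0x400308303000574) (nat_lit 16) Lb.e (@T16.mk En
    (@En.n l31137 (nat_lit 11313) (nat_lit 0) (nat_lit 8))
    (@En.n l34172 (nat_lit 11840) (nat_lit 14) (nat_lit 11))
    (@En.n l11218 (nat_lit 9958) (nat_lit 2) (nat_lit 13))
    (@En.n l3535 (nat_lit 9201) (nat_lit 3) (nat_lit 3))
    (@En.n l6528 (nat_lit 11617) (nat_lit 0) (nat_lit 9))
    (@En.n l3851 (nat_lit 9204) (nat_lit 5) (nat_lit 4))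
    (@En.n l34173 (nat_lit 10432) (nat_lit 0) (nat_lit 13))
    (@En.n l2125 (nat_lit 11847) (nat_lit 1) (nat_lit 4))
    (@En.n l3536 (nat_lit 9207) (nat_lit 4) (nat_lit 8))
    (@En.n l34174 (nat_lit 12006) (nat_lit 10) (nat_lit 12))
    (@En.n l34172 (nat_lit 9207) (nat_lit 10) (nat_lit 4))
    (@En.n l34175 (nat_lit 10619) (nat_lit 0) (nat_lit 12))
    (@En.i (nat_lit 9195) (nat_lit 1) (nat_lit 5))
    (@En.n l34174 (nat_lit 11795) (nat_lit 14) (nat_lit 7))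
    (@En.n l6530 (nat_lit 10307) (nat_lit 11) (nat_lit 12))
    (@En.n l34176 (nat_lit 9200) (nat_lit 15) (nat_lit 3))))
noncomputable def a575 : T16 Cl := @T16.mk Cl
  (@Cl.mk (nat_lit 0x3000c00070004000c0004000c00090004000d000400090003000d0007000c) (nat_lit 0x40070a103000602) (nat_lit 16) Lb.e (@T16.mk En
    (@En.n l34055 (nat_lit 8324) (nat_lit 0) (nat_lit 12))
    (@En.n l34056 (nat_lit 11794) (nat_lit 14) (nat_lit 7))
    (@En.n l34057 (nat_lit 9957) (nat_lit 2) (nat_lit 13))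
    (@En.n l34058 (nat_lit 9202) (nat_lit 3) (nat_lit 3))
    (@En.n l8239 (nat_lit 11616) (nat_lit 0) (nat_lit 9))
    (@En.n l1992 (nat_lit 9203) (nat_lit 5) (nat_lit 4))
    (@En.n l619 (nat_lit 10430) (nat_lit 0) (nat_lit 13))
    (@En.n l6080 (nat_lit 10296) (nat_lit 1) (nat_lit 4))
    (@En.n l8239 (nat_lit 9199) (nat_lit 4) (nat_lit 9))
    (@En.n l8239 (nat_lit 12007) (nat_lit 10) (nat_lit 12))
    (@En.i (nat_lit 9206) (nat_lit 10) (nat_lit 4))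
    (@En.n l34059 (nat_lit 11469) (nat_lit 0) (nat_lit 12))
    (@En.n l8241 (nat_lit 9205) (nat_lit 8) (nat_lit 4))
    (@En.n l61 (nat_lit 11797) (nat_lit 14) (nat_lit 7))
    (@En.n l10687 (nat_lit 10812) (nat_lit 11) (nat_lit 12))
    (@En.n l8241 (nat_lit 9199) (nat_lit 15) (nat_lit 3))))
  (@Cl.mk (nat_lit 0x3000c00080005000c0004000b00080004000d000800050003000d000b0008) (nat_lit 0x630300302300574) (nat_lit 16) Lb.e (@T16.mk En
    (@En.n l18752 (nat_lit 11312) (nat_lit 0) (nat_lit 8))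
    (@En.n l42902 (nat_lit 10187) (nat_lit 14) (nat_lit 11))
    (@En.n l7021 (nat_lit 10701) (nat_lit 2) (nat_lit 13))
    (@En.n l3480 (nat_lit 9199) (nat_lit 3) (nat_lit 3))
    (@En.n l42903 (nat_lit 9987) (nat_lit 0) (nat_lit 5))
    (@En.n l42904 (nat_lit 10705) (nat_lit 5) (nat_lit 8))
    (@En.n l11072 (nat_lit 10431) (nat_lit 2) (nat_lit 13))
    (@En.n l9979 (nat_lit 11848) (nat_lit 7) (nat_lit 4))
    (@En.n l18752 (nat_lit 9206) (nat_lit 4) (nat_lit 8))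
    (@En.n l42905 (nat_lit 12015) (nat_lit 10) (nat_lit 11))
    (@En.n l42906 (nat_lit 10414) (nat_lit 10) (nat_lit 4))
    (@En.n l17801 (nat_lit 11472) (nat_lit 0) (nat_lit 12))
    (@En.i (nat_lit 9197) (nat_lit 1) (nat_lit 5))
    (@En.n l17136 (nat_lit 11810) (nat_lit 14) (nat_lit 8))
    (@En.n l42907 (nat_lit 10306) (nat_lit 11) (nat_lit 12))
    (@En.n l42908 (nat_lit 9202) (nat_lit 15) (nat_lit 3))))
  (@Cl.mk (nat_lit 0x3000c00080004000c0004000b00090004000d000800050003000d0007000c) (nat_lit 0x430700102400602) (nat_lit 16) Lb.e (@T16.mk En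
    (@En.n l35327 (nat_lit 8325) (nat_lit 0) (nat_lit 12))
    (@En.n l35328 (nat_lit 10422) (nat_lit 14) (nat_lit 7))
    (@En.n l17747 (nat_lit 10698) (nat_lit 2) (nat_lit 13))
    (@En.n l4061 (nat_lit 9200) (nat_lit 3) (nat_lit 3))
    (@En.n l16184 (nat_lit 9988) (nat_lit 0) (nat_lit 5))
    (@En.n l25675 (nat_lit 10703) (nat_lit 5) (nat_lit 8))
    (@En.n l35329 (nat_lit 10429) (nat_lit 2) (nat_lit 13))
    (@En.n l35330 (nat_lit 10297) (nat_lit 7) (nat_lit 4))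
    (@En.n l35331 (nat_lit 9200) (nat_lit 4) (nat_lit 9))
    (@En.n l16184 (nat_lit 12014) (nat_lit 10) (nat_lit 11))
    (@En.n l35332 (nat_lit 10413) (nat_lit 10) (nat_lit 4))
    (@En.n l34173 (nat_lit 11468) (nat_lit 0) (nat_lit 12))
    (@En.n l18663 (nat_lit 10291) (nat_lit 1) (nat_lit 4))
    (@En.n l35332 (nat_lit 11851) (nat_lit 14) (nat_lit 8))
    (@En.n l25147 (nat_lit 10808) (nat_lit 11) (nat_lit 12))
    (@En.n l34172 (nat_lit 9201) (nat_lit 15) (nat_lit 3))))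
  (@Cl.mk (nat_lit 0x3000c00070004000b0004000c000b000a0005000400090005000d0006000c) (nat_lit 0x500607110020503) (nat_lit 16) Lb.e (@T16.mk En
    (@En.n l2750 (nat_lit 8648) (nat_lit 0) (nat_lit 12))
    (@En.n l13911 (nat_lit 10280) (nat_lit 4) (nat_lit 6))
    (@En.n l35032 (nat_lit 9951) (nat_lit 2) (nat_lit 13))
    (@En.n l15535 (nat_lit 9986) (nat_lit 3) (nat_lit 5))
    (@En.n l22492 (nat_lit 10476) (nat_lit 4) (nat_lit 9))
    (@En.n l2710 (nat_lit 9195) (nat_lit 5) (nat_lit 4))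
    (@En.n l936 (nat_lit 10295) (nat_lit 0) (nat_lit 5))
    (@En.n l14143 (nat_lit 9150) (nat_lit 1) (nat_lit 10))
    (@En.n l3532 (nat_lit 9202) (nat_lit 9) (nat_lit 11))
    (@En.n l35033 (nat_lit 10338) (nat_lit 10) (nat_lit 12))
    (@En.i (nat_lit 10412) (nat_lit 10) (nat_lit 4))
    (@En.n l11217 (nat_lit 10628) (nat_lit 0) (nat_lit 11))
    (@En.n l22467 (nat_lit 9172) (nat_lit 1) (nat_lit 4))
    (@En.n l61 (nat_lit 10141) (nat_lit 14) (nat_lit 7))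
    (@En.n l2753 (nat_lit 10806) (nat_lit 1) (nat_lit 12))
    (@En.n l14143 (nat_lit 9204) (nat_lit 15) (nat_lit 3))))
  (@Cl.mk (nat_lit 0x3000c00070005000b0004000c000b00090005000400090005000d000b0007) (nat_lit 0x500601140020470) (nat_lit 16) Lb.e (@T16.mk En
    (@En.n l8539 (nat_lit 7438) (nat_lit 0) (nat_lit 7))
    (@En.n l833 (nat_lit 10272) (nat_lit 12) (nat_lit 11))
    (@En.n l3444 (nat_lit 9952) (nat_lit 2) (nat_lit 13))
    (@En.n l40673 (nat_lit 9985) (nat_lit 3) (nat_lit 5))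
    (@En.n l22889 (nat_lit 10478) (nat_lit 4) (nat_lit 9))
    (@En.n l18 (nat_lit 9196) (nat_lit 5) (nat_lit 4))
    (@En.n l26601 (nat_lit 11849) (nat_lit 0) (nat_lit 5))
    (@En.i (nat_lit 8726) (nat_lit 1) (nat_lit 9))
    (@En.n l61 (nat_lit 9201) (nat_lit 9) (nat_lit 11))
    (@En.n l40674 (nat_lit 5311) (nat_lit 10) (nat_lit 12))
    (@En.n l17351 (nat_lit 10396) (nat_lit 10) (nat_lit 4))
    (@En.n l6891 (nat_lit 10627) (nat_lit 0) (nat_lit 11))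
    (@En.i (nat_lit 9175) (nat_lit 1) (nat_lit 5))
    (@En.n l40675 (nat_lit 10140) (nat_lit 14) (nat_lit 7))
    (@En.n l35779 (nat_lit 10305) (nat_lit 3) (nat_lit 12))
    (@En.n l34847 (nat_lit 9203) (nat_lit 15) (nat_lit 3))))
  (@Cl.mk (nat_lit 0x3000c0007000c00050004000d0004000c0003000c00090004000d0004000b) (nat_lit 0x209009070870809) (nat_lit 16) Lb.e (@T16.mk En
    (@En.n l16184 (nat_lit 11155) (nat_lit 0) (nat_lit 11))
    (@En.n l35332 (nat_lit 9172) (nat_lit 10) (nat_lit 4))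
    (@En.n l617 (nat_lit 10436) (nat_lit 2) (nat_lit 13))
    (@En.n l18663 (nat_lit 10287) (nat_lit 1) (nat_lit 4))
    (@En.n l35332 (nat_lit 11847) (nat_lit 14) (nat_lit 9))
    (@En.n l43166 (nat_lit 10815) (nat_lit 1) (nat_lit 12))
    (@En.n l17532 (nat_lit 10294) (nat_lit 6) (nat_lit 3))
    (@En.n l10888 (nat_lit 10202) (nat_lit 0) (nat_lit 12))
    (@En.n l43167 (nat_lit 11840) (nat_lit 8) (nat_lit 4))
    (@En.n l17747 (nat_lit 10810) (nat_lit 10) (nat_lit 13))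
    (@En.i (nat_lit 4335) (nat_lit 12) (nat_lit 4))
    (@En.i (nat_lit 9202) (nat_lit 4) (nat_lit 5))
    (@En.n l17532 (nat_lit 8310) (nat_lit 1) (nat_lit 12))
    (@En.n l43168 (nat_lit 11817) (nat_lit 14) (nat_lit 7))
    (@En.n l35329 (nat_lit 9575) (nat_lit 8) (nat_lit 12))
    (@En.n l35332 (nat_lit 10291) (nat_lit 8) (nat_lit 3))))
  (@Cl.mk (nat_lit 0x3000c000a000800050004000c00090006000d000400080003000d0007000b) (nat_lit 0x48200a304020602) (nat_lit 16) Lb.e (@T16.mk En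
    (@En.n l8772 (nat_lit 10244) (nat_lit 0) (nat_lit 11))
    (@En.i (nat_lit 10416) (nat_lit 14) (nat_lit 7))
    (@En.i (nat_lit 10398) (nat_lit 2) (nat_lit 13))
    (@En.n l22650 (nat_lit 10413) (nat_lit 3) (nat_lit 3))
    (@En.n l152 (nat_lit 6538) (nat_lit 0) (nat_lit 8))
    (@En.n l1992 (nat_lit 10412) (nat_lit 5) (nat_lit 4))
    (@En.n l8772 (nat_lit 6225) (nat_lit 0) (nat_lit 13))
    (@En.n l6080 (nat_lit 10135) (nat_lit 1) (nat_lit 6))
    (@En.n l1769 (nat_lit 9204) (nat_lit 4) (nat_lit 9))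
    (@En.i (nat_lit 11994) (nat_lit 10) (nat_lit 12))
    (@En.n l18 (nat_lit 11826) (nat_lit 12) (nat_lit 4))
    (@En.n l34055 (nat_lit 10294) (nat_lit 7) (nat_lit 5))
    (@En.i (nat_lit 8701) (nat_lit 1) (nat_lit 8))
    (@En.n l31318 (nat_lit 10185) (nat_lit 14) (nat_lit 10))
    (@En.n l29442 (nat_lit 9165) (nat_lit 11) (nat_lit 12))
    (@En.n l6080 (nat_lit 9207) (nat_lit 15) (nat_lit 3))))
  (@Cl.mk (nat_lit 0x3000c000a000800060004000c00080006000d000400080003000d000a0008) (nat_lit 0x40500a005020560) (nat_lit 16) Lb.e (@T16.mk En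
    (@En.n l39716 (nat_lit 11250) (nat_lit 0) (nat_lit 8))
    (@En.i (nat_lit 8749) (nat_lit 14) (nat_lit 10))
    (@En.n l39717 (nat_lit 10397) (nat_lit 2) (nat_lit 13))
    (@En.n l39718 (nat_lit 10414) (nat_lit 3) (nat_lit 3))
    (@En.n l14256 (nat_lit 6536) (nat_lit 0) (nat_lit 8))
    (@En.n l9374 (nat_lit 10396) (nat_lit 5) (nat_lit 4))
    (@En.n l39716 (nat_lit 10385) (nat_lit 0) (nat_lit 13))
    (@En.i (nat_lit 10138) (nat_lit 1) (nat_lit 6))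
    (@En.n l39719 (nat_lit 10396) (nat_lit 4) (nat_lit 8))
    (@En.n l39720 (nat_lit 11995) (nat_lit 10) (nat_lit 12))
    (@En.n l39721 (nat_lit 11796) (nat_lit 10) (nat_lit 4))
    (@En.n l17 (nat_lit 9196) (nat_lit 0) (nat_lit 6))
    (@En.n l18752 (nat_lit 8695) (nat_lit 1) (nat_lit 8))
    (@En.n l39722 (nat_lit 10186) (nat_lit 14) (nat_lit 10))
    (@En.n l20502 (nat_lit 10708) (nat_lit 11) (nat_lit 12))
    (@En.n l39723 (nat_lit 9206) (nat_lit 15) (nat_lit 3))))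
  (@Cl.mk (nat_lit 0x2000700060004000e000a0002000e000b000200090006000a0005000e000c) (nat_lit 0x240510603082) (nat_lit 16) Lb.e (@T16.mk En
    (@En.i (nat_lit 8288) (nat_lit 10) (nat_lit 12))
    (@En.n l763 (nat_lit 5728) (nat_lit 1) (nat_lit 14))
    (@En.i (nat_lit 11222) (nat_lit 2) (nat_lit 5))
    (@En.i (nat_lit 2548) (nat_lit 3) (nat_lit 10))
    (@En.n l18587 (nat_lit 8671) (nat_lit 14) (nat_lit 6))
    (@En.n l765 (nat_lit 8556) (nat_lit 12) (nat_lit 9))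
    (@En.n l50 (nat_lit 9208) (nat_lit 6) (nat_lit 2))
    (@En.n l217 (nat_lit 8557) (nat_lit 8) (nat_lit 11))
    (@En.i (nat_lit 5586) (nat_lit 1) (nat_lit 14))
    (@En.n l28 (nat_lit 9208) (nat_lit 9) (nat_lit 2))
    (@En.n l18588 (nat_lit 9209) (nat_lit 11) (nat_lit 10))
    (@En.i (nat_lit 5225) (nat_lit 12) (nat_lit 14))
    (@En.n l18587 (nat_lit 9099) (nat_lit 5) (nat_lit 4))
    (@En.n l12656 (nat_lit 4855) (nat_lit 14) (nat_lit 6))
    (@En.i (nat_lit 6459) (nat_lit 7) (nat_lit 7))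
    (@En.n l3 (nat_lit 9208) (nat_lit 15) (nat_lit 2))))
  (@Cl.mk (nat_lit 0x2000800060004000a000a000e000a0002000800060006000a0006000e000c) (nat_lit 0x300374305005082) (nat_lit 16) Lb.e (@T16.mk En
    (@En.n l77 (nat_lit 8278) (nat_lit 9) (nat_lit 12))
    (@En.n l14756 (nat_lit 5724) (nat_lit 10) (nat_lit 14))
    (@En.n l14757 (nat_lit 11220) (nat_lit 2) (nat_lit 6))
    (@En.n l14756 (nat_lit 9258) (nat_lit 3) (nat_lit 10))
    (@En.n l14758 (nat_lit 9208) (nat_lit 4) (nat_lit 6))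
    (@En.i (nat_lit 8669) (nat_lit 14) (nat_lit 6))
    (@En.n l10108 (nat_lit 8199) (nat_lit 6) (nat_lit 8))
    (@En.n l3 (nat_lit 9209) (nat_lit 7) (nat_lit 2))
    (@En.n l14759 (nat_lit 8957) (nat_lit 9) (nat_lit 10))
    (@En.n l14760 (nat_lit 5585) (nat_lit 10) (nat_lit 14))
    (@En.n l6200 (nat_lit 9210) (nat_lit 2) (nat_lit 10))
    (@En.n l2259 (nat_lit 11507) (nat_lit 3) (nat_lit 10))
    (@En.i (nat_lit 9098) (nat_lit 4) (nat_lit 4))
    (@En.n l10105 (nat_lit 2455) (nat_lit 14) (nat_lit 6))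
    (@En.n l14756 (nat_lit 9856) (nat_lit 6) (nat_lit 8))
    (@En.n l28 (nat_lit 9209) (nat_lit 15) (nat_lit 2))))
  (@Cl.mk (nat_lit 0x20007000e00060002000a0007000e000c0002000900060004000a000e0009) (nat_lit 0xa0050370300635) (nat_lit 16) Lb.e (@T16.mk En
    (@En.n l20984 (nat_lit 8194) (nat_lit 4) (nat_lit 9))
    (@En.i (nat_lit 5323) (nat_lit 11) (nat_lit 14))
    (@En.n l645 (nat_lit 11511) (nat_lit 2) (nat_lit 10))
    (@En.n l7630 (nat_lit 9114) (nat_lit 3) (nat_lit 4))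
    (@En.n l3015 (nat_lit 5190) (nat_lit 14) (nat_lit 6))
    (@En.n l197 (nat_lit 9860) (nat_lit 5) (nat_lit 9))
    (@En.n l67 (nat_lit 9210) (nat_lit 6) (nat_lit 2))
    (@En.n l68 (nat_lit 8279) (nat_lit 8) (nat_lit 12))
    (@En.n l7630 (nat_lit 5725) (nat_lit 9) (nat_lit 14))
    (@En.n l1448 (nat_lit 11228) (nat_lit 14) (nat_lit 7))
    (@En.n l12598 (nat_lit 9259) (nat_lit 3) (nat_lit 10))
    (@En.n l17 (nat_lit 9210) (nat_lit 11) (nat_lit 2))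
    (@En.n l2131 (nat_lit 9209) (nat_lit 5) (nat_lit 6))
    (@En.n l888 (nat_lit 2684) (nat_lit 7) (nat_lit 14))
    (@En.n l2092 (nat_lit 8190) (nat_lit 2) (nat_lit 7))
    (@En.n l7 (nat_lit 9210) (nat_lit 15) (nat_lit 2))))
  (@Cl.mk (nat_lit 0x200060006000a0005000e000c0002000b00060004000a000a0005000e000b) (nat_lit 0x6081070071053) (nat_lit 16) Lb.e (@T16.mk En
    (@En.n l13358 (nat_lit 9213) (nat_lit 8) (nat_lit 11))
    (@En.n l18 (nat_lit 9209) (nat_lit 9) (nat_lit 14))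
    (@En.n l13359 (nat_lit 5784) (nat_lit 2) (nat_lit 5))
    (@En.n l13360 (nat_lit 5817) (nat_lit 6) (nat_lit 10))
    (@En.n l13361 (nat_lit 7939) (nat_lit 4) (nat_lit 10))
    (@En.i (nat_lit 9214) (nat_lit 5) (nat_lit 4))
    (@En.n l13362 (nat_lit 4815) (nat_lit 14) (nat_lit 6))
    (@En.n l12144 (nat_lit 5693) (nat_lit 8) (nat_lit 11))
    (@En.n l28 (nat_lit 9211) (nat_lit 8) (nat_lit 2))
    (@En.n l77 (nat_lit 5310) (nat_lit 10) (nat_lit 12))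
    (@En.n l1543 (nat_lit 5011) (nat_lit 11) (nat_lit 14))
    (@En.n l13363 (nat_lit 10336) (nat_lit 2) (nat_lit 5))
    (@En.n l1543 (nat_lit 8870) (nat_lit 13) (nat_lit 10))
    (@En.n l4391 (nat_lit 9212) (nat_lit 14) (nat_lit 6))
    (@En.n l6081 (nat_lit 8650) (nat_lit 5) (nat_lit 6))
    (@En.n l3 (nat_lit 9211) (nat_lit 15) (nat_lit 2))))
  (@Cl.mk (nat_lit 0x20006000a0004000e000c0002000a00060004000e000a00020006000e000c) (nat_lit 0x50880600c80066) (nat_lit 16) Lb.e (@T16.mk En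
    (@En.n l1708 (nat_lit 8558) (nat_lit 13) (nat_lit 12))
    (@En.n l1063 (nat_lit 9208) (nat_lit 8) (nat_lit 14))
    (@En.n l8375 (nat_lit 9232) (nat_lit 2) (nat_lit 6))
    (@En.n l28 (nat_lit 9212) (nat_lit 3) (nat_lit 2))
    (@En.n l5029 (nat_lit 9211) (nat_lit 4) (nat_lit 10))
    (@En.n l5366 (nat_lit 4634) (nat_lit 1) (nat_lit 14))
    (@En.n l11610 (nat_lit 9217) (nat_lit 2) (nat_lit 4))
    (@En.n l3178 (nat_lit 4813) (nat_lit 14) (nat_lit 6))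
    (@En.n l2571 (nat_lit 7783) (nat_lit 4) (nat_lit 10))
    (@En.n l3 (nat_lit 9212) (nat_lit 9) (nat_lit 2))
    (@En.n l5365 (nat_lit 8953) (nat_lit 11) (nat_lit 12))
    (@En.i (nat_lit 5372) (nat_lit 12) (nat_lit 14))
    (@En.n l1063 (nat_lit 12507) (nat_lit 8) (nat_lit 4))
    (@En.n l5366 (nat_lit 3227) (nat_lit 10) (nat_lit 10))
    (@En.n l3178 (nat_lit 8742) (nat_lit 4) (nat_lit 6))
    (@En.n l18 (nat_lit 9212) (nat_lit 15) (nat_lit 2))))
  (@Cl.mk (nat_lit 0x2000b00070004000b000b0005000b000b00050005000900050005000e000c) (nat_lit 0x80082022005008a) (nat_lit 16) Lb.e (@T16.mk En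
    (@En.n l2730 (nat_lit 8952) (nat_lit 3) (nat_lit 12))
    (@En.n l27061 (nat_lit 8199) (nat_lit 1) (nat_lit 14))
    (@En.n l27062 (nat_lit 9211) (nat_lit 11) (nat_lit 5))
    (@En.n l27063 (nat_lit 10334) (nat_lit 3) (nat_lit 5))
    (@En.n l287 (nat_lit 8866) (nat_lit 4) (nat_lit 9))
    (@En.n l55 (nat_lit 8558) (nat_lit 11) (nat_lit 5))
    (@En.n l10463 (nat_lit 10254) (nat_lit 6) (nat_lit 5))
    (@En.n l9762 (nat_lit 12776) (nat_lit 8) (nat_lit 11))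
    (@En.i (nat_lit 8550) (nat_lit 9) (nat_lit 11))
    (@En.n l766 (nat_lit 12381) (nat_lit 9) (nat_lit 5))
    (@En.n l13530 (nat_lit 8195) (nat_lit 5) (nat_lit 11))
    (@En.n l27064 (nat_lit 7944) (nat_lit 12) (nat_lit 11))
    (@En.n l10500 (nat_lit 9218) (nat_lit 13) (nat_lit 4))
    (@En.n l387 (nat_lit 3299) (nat_lit 14) (nat_lit 7))
    (@En.i (nat_lit 5690) (nat_lit 1) (nat_lit 11))
    (@En.n l3 (nat_lit 9213) (nat_lit 15) (nat_lit 2))))
  (@Cl.mk (nat_lit 0x200060006000c0005000d000c00040003000c0004000a000a0004000e000b) (nat_lit 0x2019006068072) (nat_lit 16) Lb.e (@T16.mk En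
    (@En.n l1532 (nat_lit 9218) (nat_lit 9) (nat_lit 11))
    (@En.n l18 (nat_lit 9098) (nat_lit 1) (nat_lit 14))
    (@En.i (nat_lit 12597) (nat_lit 2) (nat_lit 4))
    (@En.n l61 (nat_lit 12487) (nat_lit 6) (nat_lit 10))
    (@En.i (nat_lit 12354) (nat_lit 4) (nat_lit 10))
    (@En.n l28 (nat_lit 5310) (nat_lit 5) (nat_lit 4))
    (@En.n l4909 (nat_lit 7780) (nat_lit 7) (nat_lit 12))
    (@En.n l28 (nat_lit 12484) (nat_lit 7) (nat_lit 3))
    (@En.i (nat_lit 9215) (nat_lit 8) (nat_lit 4))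
    (@En.n l77 (nat_lit 12485) (nat_lit 10) (nat_lit 12))
    (@En.i (nat_lit 5142) (nat_lit 11) (nat_lit 13))
    (@En.n l117 (nat_lit 12006) (nat_lit 12) (nat_lit 5))
    (@En.n l9962 (nat_lit 12460) (nat_lit 13) (nat_lit 12))
    (@En.n l3180 (nat_lit 9217) (nat_lit 10) (nat_lit 6))
    (@En.n l6081 (nat_lit 8604) (nat_lit 6) (nat_lit 6))
    (@En.n l3 (nat_lit 9214) (nat_lit 15) (nat_lit 2))))
  (@Cl.mk (nat_lit 0x200060006000c000a0006000e00040002000c0006000a000a0004000e000a) (nat_lit 0xa7090050610b2) (nat_lit 16) Lb.e (@T16.mk En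
    (@En.n l2394 (nat_lit 5952) (nat_lit 9) (nat_lit 10))
    (@En.n l18 (nat_lit 8969) (nat_lit 1) (nat_lit 14))
    (@En.n l22450 (nat_lit 12600) (nat_lit 2) (nat_lit 4))
    (@En.n l7151 (nat_lit 5951) (nat_lit 6) (nat_lit 10))
    (@En.n l2394 (nat_lit 12611) (nat_lit 4) (nat_lit 10))
    (@En.n l9547 (nat_lit 5307) (nat_lit 5) (nat_lit 6))
    (@En.n l4909 (nat_lit 5243) (nat_lit 7) (nat_lit 12))
    (@En.n l28 (nat_lit 9215) (nat_lit 7) (nat_lit 2))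
    (@En.n l5292 (nat_lit 5308) (nat_lit 8) (nat_lit 4))
    (@En.n l22451 (nat_lit 5144) (nat_lit 10) (nat_lit 14))
    (@En.n l2394 (nat_lit 5341) (nat_lit 2) (nat_lit 6))
    (@En.i (nat_lit 9211) (nat_lit 12) (nat_lit 10))
    (@En.n l4315 (nat_lit 9185) (nat_lit 13) (nat_lit 12))
    (@En.n l3180 (nat_lit 9216) (nat_lit 10) (nat_lit 6))
    (@En.n l6081 (nat_lit 12715) (nat_lit 6) (nat_lit 6))
    (@En.n l3 (nat_lit 9215) (nat_lit 15) (nat_lit 2))))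
noncomputable def a576 : T16 Cl := @T16.mk Cl
  (@Cl.mk (nat_lit 0x20005000e000b00020006000c000a0005000e00040002000b0006000e000a) (nat_lit 0xc100a60a004057) (nat_lit 16) Lb.e (@T16.mk En
    (@En.n l6108 (nat_lit 9215) (nat_lit 4) (nat_lit 10))
    (@En.n l11003 (nat_lit 5620) (nat_lit 6) (nat_lit 14))
    (@En.n l26195 (nat_lit 4822) (nat_lit 6) (nat_lit 6))
    (@En.i (nat_lit 5237) (nat_lit 3) (nat_lit 11))
    (@En.n l776 (nat_lit 9216) (nat_lit 4) (nat_lit 2))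
    (@En.n l12350 (nat_lit 5789) (nat_lit 5) (nat_lit 4))
    (@En.n l2039 (nat_lit 5378) (nat_lit 7) (nat_lit 14))
    (@En.n l13133 (nat_lit 5577) (nat_lit 7) (nat_lit 5))
    (@En.n l12896 (nat_lit 9212) (nat_lit 13) (nat_lit 10))
    (@En.n l3345 (nat_lit 8347) (nat_lit 10) (nat_lit 12))
    (@En.n l2605 (nat_lit 9769) (nat_lit 5) (nat_lit 6))
    (@En.n l28 (nat_lit 9216) (nat_lit 11) (nat_lit 2))
    (@En.n l26196 (nat_lit 5619) (nat_lit 13) (nat_lit 11))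
    (@En.n l13134 (nat_lit 9096) (nat_lit 1) (nat_lit 14))
    (@En.n l3201 (nat_lit 12835) (nat_lit 2) (nat_lit 5))
    (@En.n l3 (nat_lit 9216) (nat_lit 15) (nat_lit 2))))
  (@Cl.mk (nat_lit 0x20005000e000c00020006000c0004000d000c00040003000b0004000e000a) (nat_lit 0x66001037007037) (nat_lit 16) Lb.e (@T16.mk En
    (@En.n l6108 (nat_lit 9214) (nat_lit 4) (nat_lit 10))
    (@En.i (nat_lit 9220) (nat_lit 1) (nat_lit 14))
    (@En.n l4575 (nat_lit 8953) (nat_lit 6) (nat_lit 4))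
    (@En.i (nat_lit 7782) (nat_lit 3) (nat_lit 11))
    (@En.n l5348 (nat_lit 9221) (nat_lit 4) (nat_lit 3))
    (@En.i (nat_lit 9216) (nat_lit 5) (nat_lit 4))
    (@En.n l4370 (nat_lit 12755) (nat_lit 11) (nat_lit 12))
    (@En.i (nat_lit 3677) (nat_lit 8) (nat_lit 13))
    (@En.n l13544 (nat_lit 12235) (nat_lit 8) (nat_lit 4))
    (@En.n l3345 (nat_lit 6199) (nat_lit 10) (nat_lit 12))
    (@En.n l2605 (nat_lit 10188) (nat_lit 11) (nat_lit 6))
    (@En.n l28 (nat_lit 9217) (nat_lit 11) (nat_lit 2))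
    (@En.n l3345 (nat_lit 9219) (nat_lit 13) (nat_lit 12))
    (@En.n l12871 (nat_lit 9099) (nat_lit 1) (nat_lit 14))
    (@En.n l781 (nat_lit 4039) (nat_lit 2) (nat_lit 5))
    (@En.n l3 (nat_lit 9217) (nat_lit 15) (nat_lit 2))))
  (@Cl.mk (nat_lit 0x3000c0004000b000b0004000b000b00050005000b00050005000d000c0005) (nat_lit 0x706701200400230) (nat_lit 16) Lb.e (@T16.mk En
    (@En.n l22373 (nat_lit 5952) (nat_lit 0) (nat_lit 5))
    (@En.n l77 (nat_lit 12451) (nat_lit 4) (nat_lit 12))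
    (@En.n l3057 (nat_lit 12711) (nat_lit 2) (nat_lit 13))
    (@En.n l1900 (nat_lit 9214) (nat_lit 11) (nat_lit 5))
    (@En.n l15602 (nat_lit 12059) (nat_lit 4) (nat_lit 5))
    (@En.n l12306 (nat_lit 12459) (nat_lit 0) (nat_lit 11))
    (@En.n l29169 (nat_lit 9219) (nat_lit 11) (nat_lit 5))
    (@En.n l22492 (nat_lit 10473) (nat_lit 7) (nat_lit 5))
    (@En.n l13491 (nat_lit 12767) (nat_lit 5) (nat_lit 11))
    (@En.n l13489 (nat_lit 8543) (nat_lit 10) (nat_lit 11))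
    (@En.n l40442 (nat_lit 12454) (nat_lit 10) (nat_lit 4))
    (@En.n l61 (nat_lit 12490) (nat_lit 5) (nat_lit 11))
    (@En.i (nat_lit 12452) (nat_lit 1) (nat_lit 11))
    (@En.n l40443 (nat_lit 8952) (nat_lit 14) (nat_lit 4))
    (@En.n l40444 (nat_lit 5691) (nat_lit 0) (nat_lit 12))
    (@En.n l28 (nat_lit 12449) (nat_lit 1) (nat_lit 3))))
  (@Cl.mk (nat_lit 0x20005000c000c0005000b00040004000d000c00050003000b0004000e000b) (nat_lit 0x52010077008037) (nat_lit 16) Lb.e (@T16.mk En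
    (@En.n l15253 (nat_lit 9218) (nat_lit 12) (nat_lit 11))
    (@En.n l39310 (nat_lit 12750) (nat_lit 1) (nat_lit 14))
    (@En.n l14292 (nat_lit 8954) (nat_lit 2) (nat_lit 4))
    (@En.n l5050 (nat_lit 7781) (nat_lit 3) (nat_lit 11))
    (@En.n l28 (nat_lit 12748) (nat_lit 4) (nat_lit 3))
    (@En.n l7317 (nat_lit 5619) (nat_lit 5) (nat_lit 5))
    (@En.n l18989 (nat_lit 12756) (nat_lit 7) (nat_lit 12))
    (@En.n l5276 (nat_lit 12704) (nat_lit 8) (nat_lit 13))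
    (@En.n l32263 (nat_lit 9217) (nat_lit 8) (nat_lit 4))
    (@En.n l1790 (nat_lit 12244) (nat_lit 9) (nat_lit 4))
    (@En.i (nat_lit 6200) (nat_lit 11) (nat_lit 11))
    (@En.n l7681 (nat_lit 12028) (nat_lit 12) (nat_lit 5))
    (@En.n l7393 (nat_lit 12744) (nat_lit 13) (nat_lit 12))
    (@En.n l2129 (nat_lit 8540) (nat_lit 14) (nat_lit 12))
    (@En.i (nat_lit 12656) (nat_lit 13) (nat_lit 5))
    (@En.n l17 (nat_lit 9219) (nat_lit 15) (nat_lit 2))))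
  (@Cl.mk (nat_lit 0x200070005000e000c00020007000c0004000d000900040003000b000e0009) (nat_lit 0x6600108400726) (nat_lit 16) Lb.e (@T16.mk En
    (@En.n l6901 (nat_lit 12495) (nat_lit 5) (nat_lit 9))
    (@En.n l2793 (nat_lit 11061) (nat_lit 7) (nat_lit 14))
    (@En.i (nat_lit 7784) (nat_lit 2) (nat_lit 11))
    (@En.n l2593 (nat_lit 12751) (nat_lit 3) (nat_lit 3))
    (@En.n l11003 (nat_lit 5620) (nat_lit 9) (nat_lit 4))
    (@En.n l25318 (nat_lit 11633) (nat_lit 5) (nat_lit 9))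
    (@En.i (nat_lit 3668) (nat_lit 12) (nat_lit 13))
    (@En.n l11003 (nat_lit 12234) (nat_lit 7) (nat_lit 4))
    (@En.n l25319 (nat_lit 6201) (nat_lit 9) (nat_lit 12))
    (@En.n l2605 (nat_lit 10199) (nat_lit 10) (nat_lit 7))
    (@En.n l28 (nat_lit 9220) (nat_lit 10) (nat_lit 2))
    (@En.n l25320 (nat_lit 12750) (nat_lit 12) (nat_lit 12))
    (@En.n l13134 (nat_lit 6980) (nat_lit 13) (nat_lit 14))
    (@En.n l17 (nat_lit 9217) (nat_lit 14) (nat_lit 5))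
    (@En.n l13550 (nat_lit 9187) (nat_lit 3) (nat_lit 7))
    (@En.n l3 (nat_lit 9220) (nat_lit 15) (nat_lit 2))))
  (@Cl.mk (nat_lit 0x20005000e000c00020006000d0004000d0003000d0003000b0003000e000a) (nat_lit 0x92004070801068) (nat_lit 16) Lb.e (@T16.mk En
    (@En.n l61 (nat_lit 12484) (nat_lit 4) (nat_lit 10))
    (@En.n l5331 (nat_lit 12751) (nat_lit 1) (nat_lit 14))
    (@En.n l5337 (nat_lit 12755) (nat_lit 6) (nat_lit 3))
    (@En.n l5331 (nat_lit 1003) (nat_lit 3) (nat_lit 11))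
    (@En.n l3180 (nat_lit 9217) (nat_lit 4) (nat_lit 3))
    (@En.n l6147 (nat_lit 6047) (nat_lit 10) (nat_lit 13))
    (@En.n l797 (nat_lit 12753) (nat_lit 6) (nat_lit 3))
    (@En.n l5331 (nat_lit 5381) (nat_lit 8) (nat_lit 13))
    (@En.n l117 (nat_lit 12237) (nat_lit 8) (nat_lit 4))
    (@En.n l6147 (nat_lit 1064) (nat_lit 10) (nat_lit 13))
    (@En.n l22610 (nat_lit 9764) (nat_lit 11) (nat_lit 6))
    (@En.n l3 (nat_lit 9221) (nat_lit 11) (nat_lit 2))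
    (@En.n l6147 (nat_lit 12748) (nat_lit 13) (nat_lit 12))
    (@En.n l72 (nat_lit 9102) (nat_lit 1) (nat_lit 14))
    (@En.n l666 (nat_lit 4035) (nat_lit 2) (nat_lit 5))
    (@En.n l17 (nat_lit 9221) (nat_lit 15) (nat_lit 2))))
  (@Cl.mk (nat_lit 0x200080006000e000c0002000c0008000400080004000e000a0002000e0008) (nat_lit 0x404408102075096) (nat_lit 16) Lb.e (@T16.mk En
    (@En.n l50 (nat_lit 8966) (nat_lit 14) (nat_lit 8))
    (@En.n l1531 (nat_lit 11567) (nat_lit 1) (nat_lit 14))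
    (@En.n l3 (nat_lit 9222) (nat_lit 2) (nat_lit 2))
    (@En.n l2524 (nat_lit 9223) (nat_lit 3) (nat_lit 10))
    (@En.n l18950 (nat_lit 5732) (nat_lit 1) (nat_lit 14))
    (@En.n l50 (nat_lit 4635) (nat_lit 5) (nat_lit 4))
    (@En.i (nat_lit 2046) (nat_lit 6) (nat_lit 8))
    (@En.n l20168 (nat_lit 9103) (nat_lit 7) (nat_lit 4))
    (@En.i (nat_lit 5454) (nat_lit 14) (nat_lit 8))
    (@En.n l2790 (nat_lit 7832) (nat_lit 10) (nat_lit 12))
    (@En.n l28 (nat_lit 9222) (nat_lit 10) (nat_lit 2))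
    (@En.n l20169 (nat_lit 8967) (nat_lit 12) (nat_lit 12))
    (@En.n l3324 (nat_lit 1787) (nat_lit 13) (nat_lit 14))
    (@En.n l20168 (nat_lit 8999) (nat_lit 14) (nat_lit 6))
    (@En.n l18951 (nat_lit 9226) (nat_lit 12) (nat_lit 8))
    (@En.n l17 (nat_lit 9222) (nat_lit 15) (nat_lit 2))))
  (@Cl.mk (nat_lit 0x2000700060006000e000c0002000c0009000400090004000a000a000e0007) (nat_lit 0x550930104490) (nat_lit 16) Lb.e (@T16.mk En
    (@En.n l11512 (nat_lit 9224) (nat_lit 6) (nat_lit 7))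
    (@En.n l2869 (nat_lit 11564) (nat_lit 8) (nat_lit 14))
    (@En.n l61 (nat_lit 9123) (nat_lit 2) (nat_lit 10))
    (@En.n l1916 (nat_lit 12373) (nat_lit 10) (nat_lit 10))
    (@En.i (nat_lit 4638) (nat_lit 4) (nat_lit 4))
    (@En.n l2869 (nat_lit 2559) (nat_lit 5) (nat_lit 9))
    (@En.n l2154 (nat_lit 9101) (nat_lit 6) (nat_lit 4))
    (@En.n l55 (nat_lit 6096) (nat_lit 14) (nat_lit 9))
    (@En.n l1353 (nat_lit 7823) (nat_lit 9) (nat_lit 12))
    (@En.n l3 (nat_lit 9223) (nat_lit 9) (nat_lit 2))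
    (@En.i (nat_lit 9097) (nat_lit 11) (nat_lit 12))
    (@En.i (nat_lit 12843) (nat_lit 12) (nat_lit 14))
    (@En.n l12150 (nat_lit 9222) (nat_lit 13) (nat_lit 6))
    (@En.n l2154 (nat_lit 9002) (nat_lit 14) (nat_lit 6))
    (@En.n l5934 (nat_lit 9225) (nat_lit 4) (nat_lit 7))
    (@En.n l7 (nat_lit 9223) (nat_lit 15) (nat_lit 2))))
  (@Cl.mk (nat_lit 0x2000b000900090005000a0005000b000b00070007000600050005000e000b) (nat_lit 0x864010240000024) (nat_lit 16) Lb.e (@T16.mk En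
    (@En.i (nat_lit 8964) (nat_lit 4) (nat_lit 11))
    (@En.n l32032 (nat_lit 9324) (nat_lit 1) (nat_lit 14))
    (@En.n l35825 (nat_lit 8966) (nat_lit 11) (nat_lit 5))
    (@En.n l35826 (nat_lit 9007) (nat_lit 3) (nat_lit 5))
    (@En.i (nat_lit 6379) (nat_lit 4) (nat_lit 6))
    (@En.n l2491 (nat_lit 9035) (nat_lit 9) (nat_lit 7))
    (@En.n l35827 (nat_lit 11036) (nat_lit 6) (nat_lit 7))
    (@En.n l61 (nat_lit 6377) (nat_lit 8) (nat_lit 11))
    (@En.n l25842 (nat_lit 5790) (nat_lit 9) (nat_lit 11))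
    (@En.n l14989 (nat_lit 4636) (nat_lit 9) (nat_lit 5))
    (@En.n l35828 (nat_lit 2052) (nat_lit 11) (nat_lit 10))
    (@En.n l3100 (nat_lit 9985) (nat_lit 12) (nat_lit 5))
    (@En.n l14990 (nat_lit 9223) (nat_lit 7) (nat_lit 9))
    (@En.n l35829 (nat_lit 12738) (nat_lit 14) (nat_lit 9))
    (@En.i (nat_lit 5460) (nat_lit 2) (nat_lit 11))
    (@En.n l3 (nat_lit 9224) (nat_lit 15) (nat_lit 2))))
  (@Cl.mk (nat_lit 0x2000b000800040009000c0005000b000b00040008000700050005000e000c) (nat_lit 0x810230350100023) (nat_lit 16) Lb.e (@T16.mk En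
    (@En.i (nat_lit 12194) (nat_lit 3) (nat_lit 12))
    (@En.i (nat_lit 12230) (nat_lit 1) (nat_lit 14))
    (@En.n l5331 (nat_lit 9226) (nat_lit 11) (nat_lit 5))
    (@En.n l18 (nat_lit 10528) (nat_lit 3) (nat_lit 5))
    (@En.n l28 (nat_lit 9230) (nat_lit 4) (nat_lit 7))
    (@En.n l77 (nat_lit 6379) (nat_lit 5) (nat_lit 8))
    (@En.n l947 (nat_lit 12588) (nat_lit 6) (nat_lit 4))
    (@En.n l61 (nat_lit 6373) (nat_lit 8) (nat_lit 11))
    (@En.n l1998 (nat_lit 12595) (nat_lit 9) (nat_lit 11))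
    (@En.n l28 (nat_lit 9224) (nat_lit 9) (nat_lit 5))
    (@En.n l3039 (nat_lit 12393) (nat_lit 6) (nat_lit 12))
    (@En.n l3133 (nat_lit 2435) (nat_lit 12) (nat_lit 9))
    (@En.n l24098 (nat_lit 12692) (nat_lit 13) (nat_lit 4))
    (@En.i (nat_lit 5636) (nat_lit 14) (nat_lit 8))
    (@En.i (nat_lit 5476) (nat_lit 1) (nat_lit 11))
    (@En.n l3 (nat_lit 9225) (nat_lit 15) (nat_lit 2))))
  (@Cl.mk (nat_lit 0x20005000900080005000e000c0002000b000700040008000b0005000e000b) (nat_lit 0x3015050024084) (nat_lit 16) Lb.e (@T16.mk En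
    (@En.n l649 (nat_lit 9225) (nat_lit 8) (nat_lit 11))
    (@En.i (nat_lit 9227) (nat_lit 1) (nat_lit 14))
    (@En.n l29334 (nat_lit 8966) (nat_lit 2) (nat_lit 5))
    (@En.n l21550 (nat_lit 5786) (nat_lit 3) (nat_lit 11))
    (@En.i (nat_lit 1794) (nat_lit 4) (nat_lit 8))
    (@En.n l14904 (nat_lit 10536) (nat_lit 5) (nat_lit 4))
    (@En.n l1353 (nat_lit 6002) (nat_lit 6) (nat_lit 7))
    (@En.n l2030 (nat_lit 5475) (nat_lit 8) (nat_lit 11))
    (@En.n l28 (nat_lit 9226) (nat_lit 8) (nat_lit 2))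
    (@En.n l287 (nat_lit 9234) (nat_lit 10) (nat_lit 12))
    (@En.n l29335 (nat_lit 1433) (nat_lit 11) (nat_lit 14))
    (@En.n l14904 (nat_lit 10527) (nat_lit 2) (nat_lit 5))
    (@En.n l18 (nat_lit 9228) (nat_lit 13) (nat_lit 8))
    (@En.n l18 (nat_lit 9229) (nat_lit 14) (nat_lit 9))
    (@En.n l1643 (nat_lit 12627) (nat_lit 5) (nat_lit 5))
    (@En.n l3 (nat_lit 9226) (nat_lit 15) (nat_lit 2))))
  (@Cl.mk (nat_lit 0x200080005000900080006000e000c00020008000700040008000b000e000a) (nat_lit 0x605503404001373) (nat_lit 16) Lb.e (@T16.mk En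
    (@En.n l6108 (nat_lit 12738) (nat_lit 9) (nat_lit 10))
    (@En.n l14901 (nat_lit 5734) (nat_lit 10) (nat_lit 14))
    (@En.n l14902 (nat_lit 5787) (nat_lit 2) (nat_lit 11))
    (@En.n l14903 (nat_lit 1799) (nat_lit 3) (nat_lit 8))
    (@En.n l14904 (nat_lit 12691) (nat_lit 4) (nat_lit 4))
    (@En.n l1353 (nat_lit 5455) (nat_lit 14) (nat_lit 7))
    (@En.n l3336 (nat_lit 11208) (nat_lit 6) (nat_lit 8))
    (@En.n l28 (nat_lit 9227) (nat_lit 7) (nat_lit 2))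
    (@En.n l14905 (nat_lit 12283) (nat_lit 9) (nat_lit 12))
    (@En.n l14906 (nat_lit 953) (nat_lit 10) (nat_lit 14))
    (@En.n l6107 (nat_lit 10525) (nat_lit 2) (nat_lit 6))
    (@En.n l18 (nat_lit 9231) (nat_lit 3) (nat_lit 8))
    (@En.n l14903 (nat_lit 12286) (nat_lit 4) (nat_lit 9))
    (@En.n l725 (nat_lit 9226) (nat_lit 14) (nat_lit 5))
    (@En.n l2571 (nat_lit 12230) (nat_lit 6) (nat_lit 8))
    (@En.n l3 (nat_lit 9227) (nat_lit 15) (nat_lit 2))))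
  (@Cl.mk (nat_lit 0x2000500080004000e000c0002000a000d000400080003000b0006000e000c) (nat_lit 0x209a0530105095) (nat_lit 16) Lb.e (@T16.mk En
    (@En.n l649 (nat_lit 9230) (nat_lit 7) (nat_lit 12))
    (@En.i (nat_lit 9231) (nat_lit 8) (nat_lit 14))
    (@En.n l1738 (nat_lit 9229) (nat_lit 2) (nat_lit 6))
    (@En.i (nat_lit 9226) (nat_lit 3) (nat_lit 11))
    (@En.i (nat_lit 9232) (nat_lit 4) (nat_lit 3))
    (@En.i (nat_lit 1791) (nat_lit 5) (nat_lit 8))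
    (@En.i (nat_lit 10534) (nat_lit 6) (nat_lit 4))
    (@En.i (nat_lit 1220) (nat_lit 8) (nat_lit 13))
    (@En.n l2031 (nat_lit 5484) (nat_lit 9) (nat_lit 10))
    (@En.n l28 (nat_lit 9228) (nat_lit 9) (nat_lit 2))
    (@En.n l287 (nat_lit 9233) (nat_lit 11) (nat_lit 12))
    (@En.n l2036 (nat_lit 1429) (nat_lit 12) (nat_lit 14))
    (@En.n l2221 (nat_lit 12419) (nat_lit 2) (nat_lit 4))
    (@En.i (nat_lit 5864) (nat_lit 10) (nat_lit 8))
    (@En.n l1643 (nat_lit 12628) (nat_lit 4) (nat_lit 5))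
    (@En.n l3 (nat_lit 9228) (nat_lit 15) (nat_lit 2))))
  (@Cl.mk (nat_lit 0x2000900070004000e000b0002000a0007000d0005000900030006000e000c) (nat_lit 0x700890604010094) (nat_lit 16) Lb.e (@T16.mk En
    (@En.n l27775 (nat_lit 6379) (nat_lit 7) (nat_lit 12))
    (@En.n l29839 (nat_lit 12286) (nat_lit 8) (nat_lit 14))
    (@En.n l2114 (nat_lit 9320) (nat_lit 12) (nat_lit 6))
    (@En.n l29840 (nat_lit 9236) (nat_lit 3) (nat_lit 3))
    (@En.n l50 (nat_lit 1792) (nat_lit 0) (nat_lit 9))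
    (@En.n l29841 (nat_lit 10529) (nat_lit 5) (nat_lit 5))
    (@En.n l217 (nat_lit 9228) (nat_lit 7) (nat_lit 13))
    (@En.n l859 (nat_lit 9231) (nat_lit 14) (nat_lit 7))
    (@En.n l2568 (nat_lit 5462) (nat_lit 9) (nat_lit 10))
    (@En.n l28 (nat_lit 9229) (nat_lit 9) (nat_lit 2))
    (@En.n l29842 (nat_lit 12285) (nat_lit 11) (nat_lit 11))
    (@En.n l29843 (nat_lit 1431) (nat_lit 1) (nat_lit 14))
    (@En.n l29844 (nat_lit 12425) (nat_lit 2) (nat_lit 4))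
    (@En.i (nat_lit 5866) (nat_lit 14) (nat_lit 7))
    (@En.n l29845 (nat_lit 11595) (nat_lit 4) (nat_lit 9))
    (@En.n l3 (nat_lit 9229) (nat_lit 15) (nat_lit 2))))
  (@Cl.mk (nat_lit 0x2000a000d000400090003000c0006000c000c0004000700040004000e000c) (nat_lit 0x630204042000099) (nat_lit 16) Lb.e (@T16.mk En
    (@En.i (nat_lit 12195) (nat_lit 3) (nat_lit 12))
    (@En.i (nat_lit 12229) (nat_lit 1) (nat_lit 14))
    (@En.n l5331 (nat_lit 9228) (nat_lit 12) (nat_lit 4))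
    (@En.n l18 (nat_lit 12426) (nat_lit 3) (nat_lit 4))
    (@En.n l2869 (nat_lit 5867) (nat_lit 11) (nat_lit 7))
    (@En.n l947 (nat_lit 12589) (nat_lit 5) (nat_lit 4))
    (@En.n l61 (nat_lit 6372) (nat_lit 7) (nat_lit 12))
    (@En.n l1353 (nat_lit 12594) (nat_lit 8) (nat_lit 12))
    (@En.i (nat_lit 6379) (nat_lit 8) (nat_lit 6))
    (@En.i (nat_lit 9225) (nat_lit 10) (nat_lit 12))
    (@En.i (nat_lit 9240) (nat_lit 10) (nat_lit 3))
    (@En.n l2869 (nat_lit 2532) (nat_lit 12) (nat_lit 9))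
    (@En.i (nat_lit 10537) (nat_lit 13) (nat_lit 4))
    (@En.i (nat_lit 1216) (nat_lit 5) (nat_lit 13))
    (@En.i (nat_lit 5477) (nat_lit 1) (nat_lit 10))
    (@En.n l3 (nat_lit 9230) (nat_lit 15) (nat_lit 2))))
  (@Cl.mk (nat_lit 0x20007000d000400080003000b000e000b00020009000500080005000e000c) (nat_lit 0x3010484060409a) (nat_lit 16) Lb.e (@T16.mk En
    (@En.n l287 (nat_lit 9235) (nat_lit 10) (nat_lit 12))
    (@En.n l3336 (nat_lit 957) (nat_lit 1) (nat_lit 14))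
    (@En.n l6107 (nat_lit 12417) (nat_lit 2) (nat_lit 5))
    (@En.i (nat_lit 12808) (nat_lit 3) (nat_lit 8))
    (@En.n l725 (nat_lit 9228) (nat_lit 14) (nat_lit 5))
    (@En.n l2571 (nat_lit 12229) (nat_lit 5) (nat_lit 9))
    (@En.n l3 (nat_lit 9231) (nat_lit 6) (nat_lit 2))
    (@En.n l6108 (nat_lit 12739) (nat_lit 8) (nat_lit 11))
    (@En.n l3334 (nat_lit 11635) (nat_lit 9) (nat_lit 14))
    (@En.i (nat_lit 9227) (nat_lit 2) (nat_lit 11))
    (@En.i (nat_lit 9237) (nat_lit 10) (nat_lit 3))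
    (@En.n l387 (nat_lit 1795) (nat_lit 4) (nat_lit 8))
    (@En.i (nat_lit 10535) (nat_lit 5) (nat_lit 4))
    (@En.i (nat_lit 1222) (nat_lit 7) (nat_lit 13))
    (@En.n l3336 (nat_lit 11205) (nat_lit 7) (nat_lit 7))
    (@En.n l28 (nat_lit 9231) (nat_lit 15) (nat_lit 2))))
noncomputable def a577 : T16 Cl := @T16.mk Cl
  (@Cl.mk (nat_lit 0x2000500090004000e000b0002000a000d000700050003000b0006000e000c) (nat_lit 0x30b20520008097) (nat_lit 16) Lb.e (@T16.mk En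
    (@En.n l649 (nat_lit 9240) (nat_lit 7) (nat_lit 12))
    (@En.i (nat_lit 9237) (nat_lit 8) (nat_lit 14))
    (@En.n l15180 (nat_lit 9236) (nat_lit 2) (nat_lit 6))
    (@En.i (nat_lit 5784) (nat_lit 3) (nat_lit 11))
    (@En.n l50 (nat_lit 9228) (nat_lit 4) (nat_lit 3))
    (@En.n l15181 (nat_lit 4039) (nat_lit 5) (nat_lit 5))
    (@En.n l217 (nat_lit 9226) (nat_lit 6) (nat_lit 7))
    (@En.i (nat_lit 1221) (nat_lit 8) (nat_lit 13))
    (@En.n l11618 (nat_lit 5485) (nat_lit 9) (nat_lit 10))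
    (@En.n l28 (nat_lit 9232) (nat_lit 9) (nat_lit 2))
    (@En.n l11619 (nat_lit 9238) (nat_lit 11) (nat_lit 11))
    (@En.n l2220 (nat_lit 1425) (nat_lit 12) (nat_lit 14))
    (@En.n l2221 (nat_lit 11161) (nat_lit 2) (nat_lit 4))
    (@En.n l50 (nat_lit 6073) (nat_lit 14) (nat_lit 9))
    (@En.n l1643 (nat_lit 12629) (nat_lit 4) (nat_lit 5))
    (@En.n l3 (nat_lit 9232) (nat_lit 15) (nat_lit 2))))
  (@Cl.mk (nat_lit 0x2000500080004000c000c0009000c0004000400080004000b0007000e000c) (nat_lit 0x30915200205085) (nat_lit 16) Lb.e (@T16.mk En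
    (@En.n l4130 (nat_lit 12195) (nat_lit 9) (nat_lit 12))
    (@En.i (nat_lit 9235) (nat_lit 1) (nat_lit 14))
    (@En.i (nat_lit 12285) (nat_lit 2) (nat_lit 7))
    (@En.i (nat_lit 9234) (nat_lit 3) (nat_lit 11))
    (@En.n l12 (nat_lit 9238) (nat_lit 4) (nat_lit 4))
    (@En.i (nat_lit 11972) (nat_lit 5) (nat_lit 8))
    (@En.n l1722 (nat_lit 9228) (nat_lit 6) (nat_lit 4))
    (@En.i (nat_lit 12700) (nat_lit 7) (nat_lit 4))
    (@En.i (nat_lit 1225) (nat_lit 9) (nat_lit 12))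
    (@En.n l3178 (nat_lit 9184) (nat_lit 10) (nat_lit 9))
    (@En.n l164 (nat_lit 5675) (nat_lit 11) (nat_lit 12))
    (@En.i (nat_lit 8384) (nat_lit 12) (nat_lit 12))
    (@En.n l2832 (nat_lit 12418) (nat_lit 13) (nat_lit 4))
    (@En.n l387 (nat_lit 5918) (nat_lit 14) (nat_lit 8))
    (@En.n l513 (nat_lit 12626) (nat_lit 13) (nat_lit 5))
    (@En.n l3 (nat_lit 9233) (nat_lit 15) (nat_lit 2))))
  (@Cl.mk (nat_lit 0x20005000a00080005000c000c000a0006000400040008000b0006000e000b) (nat_lit 0x4041600034044) (nat_lit 16) Lb.e (@T16.mk En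
    (@En.n l4130 (nat_lit 12194) (nat_lit 10) (nat_lit 11))
    (@En.n l29160 (nat_lit 12283) (nat_lit 1) (nat_lit 14))
    (@En.n l31218 (nat_lit 8962) (nat_lit 2) (nat_lit 6))
    (@En.n l31219 (nat_lit 5789) (nat_lit 3) (nat_lit 11))
    (@En.i (nat_lit 11973) (nat_lit 4) (nat_lit 8))
    (@En.n l1722 (nat_lit 9226) (nat_lit 5) (nat_lit 4))
    (@En.n l31220 (nat_lit 12704) (nat_lit 6) (nat_lit 4))
    (@En.n l5 (nat_lit 6003) (nat_lit 7) (nat_lit 6))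
    (@En.n l31221 (nat_lit 9183) (nat_lit 9) (nat_lit 10))
    (@En.n l31222 (nat_lit 5679) (nat_lit 10) (nat_lit 12))
    (@En.n l31223 (nat_lit 8383) (nat_lit 11) (nat_lit 12))
    (@En.n l31220 (nat_lit 6407) (nat_lit 12) (nat_lit 5))
    (@En.n l50 (nat_lit 9233) (nat_lit 13) (nat_lit 8))
    (@En.n l217 (nat_lit 12285) (nat_lit 14) (nat_lit 10))
    (@En.n l513 (nat_lit 12625) (nat_lit 13) (nat_lit 5))
    (@En.n l3 (nat_lit 9234) (nat_lit 15) (nat_lit 2))))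
  (@Cl.mk (nat_lit 0x2000a000500080005000c000c0006000c0004000400080004000b000e000b) (nat_lit 0x602093020020574) (nat_lit 16) Lb.e (@T16.mk En
    (@En.n l11553 (nat_lit 11811) (nat_lit 10) (nat_lit 11))
    (@En.n l29159 (nat_lit 11642) (nat_lit 4) (nat_lit 14))
    (@En.n l29160 (nat_lit 12283) (nat_lit 2) (nat_lit 11))
    (@En.n l29161 (nat_lit 9239) (nat_lit 3) (nat_lit 4))
    (@En.i (nat_lit 11969) (nat_lit 4) (nat_lit 8))
    (@En.n l1722 (nat_lit 9231) (nat_lit 12) (nat_lit 4))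
    (@En.n l13274 (nat_lit 12702) (nat_lit 6) (nat_lit 4))
    (@En.i (nat_lit 1224) (nat_lit 8) (nat_lit 12))
    (@En.n l14669 (nat_lit 11578) (nat_lit 8) (nat_lit 6))
    (@En.n l29162 (nat_lit 12281) (nat_lit 4) (nat_lit 12))
    (@En.i (nat_lit 8381) (nat_lit 11) (nat_lit 12))
    (@En.n l2832 (nat_lit 12416) (nat_lit 12) (nat_lit 5))
    (@En.n l387 (nat_lit 12776) (nat_lit 13) (nat_lit 8))
    (@En.n l17 (nat_lit 9233) (nat_lit 14) (nat_lit 5))
    (@En.n l12001 (nat_lit 10759) (nat_lit 0) (nat_lit 10))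
    (@En.n l3 (nat_lit 9235) (nat_lit 15) (nat_lit 2))))
  (@Cl.mk (nat_lit 0x2000900080004000e000a0002000a0007000d0008000600030006000e000c) (nat_lit 0x730a10603300091) (nat_lit 16) Lb.e (@T16.mk En
    (@En.n l55 (nat_lit 6378) (nat_lit 7) (nat_lit 12))
    (@En.n l17947 (nat_lit 12508) (nat_lit 8) (nat_lit 14))
    (@En.n l13366 (nat_lit 5778) (nat_lit 2) (nat_lit 6))
    (@En.n l17948 (nat_lit 9229) (nat_lit 3) (nat_lit 3))
    (@En.n l2243 (nat_lit 4040) (nat_lit 0) (nat_lit 6))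
    (@En.n l17949 (nat_lit 8966) (nat_lit 5) (nat_lit 8))
    (@En.n l17946 (nat_lit 9232) (nat_lit 7) (nat_lit 13))
    (@En.n l8990 (nat_lit 9237) (nat_lit 14) (nat_lit 7))
    (@En.n l9376 (nat_lit 5464) (nat_lit 9) (nat_lit 10))
    (@En.n l50 (nat_lit 9236) (nat_lit 9) (nat_lit 2))
    (@En.n l17950 (nat_lit 5673) (nat_lit 11) (nat_lit 10))
    (@En.n l8988 (nat_lit 1427) (nat_lit 1) (nat_lit 14))
    (@En.i (nat_lit 11160) (nat_lit 2) (nat_lit 4))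
    (@En.n l6454 (nat_lit 6072) (nat_lit 14) (nat_lit 8))
    (@En.n l2228 (nat_lit 12220) (nat_lit 4) (nat_lit 9))
    (@En.n l11 (nat_lit 9236) (nat_lit 15) (nat_lit 2))))
  (@Cl.mk (nat_lit 0x20007000d000700050003000b000e000b00020009000500090005000e000b) (nat_lit 0x200088606040b2) (nat_lit 16) Lb.e (@T16.mk En
    (@En.n l6106 (nat_lit 9239) (nat_lit 10) (nat_lit 11))
    (@En.n l6106 (nat_lit 1424) (nat_lit 1) (nat_lit 14))
    (@En.n l6107 (nat_lit 11167) (nat_lit 2) (nat_lit 5))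
    (@En.n l50 (nat_lit 12506) (nat_lit 3) (nat_lit 9))
    (@En.n l725 (nat_lit 9232) (nat_lit 14) (nat_lit 5))
    (@En.n l2571 (nat_lit 12225) (nat_lit 5) (nat_lit 9))
    (@En.n l3 (nat_lit 9237) (nat_lit 6) (nat_lit 2))
    (@En.n l6108 (nat_lit 9244) (nat_lit 8) (nat_lit 11))
    (@En.n l6109 (nat_lit 11637) (nat_lit 9) (nat_lit 14))
    (@En.n l6110 (nat_lit 5785) (nat_lit 2) (nat_lit 11))
    (@En.n l50 (nat_lit 9231) (nat_lit 10) (nat_lit 3))
    (@En.n l6106 (nat_lit 12620) (nat_lit 4) (nat_lit 5))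
    (@En.n l217 (nat_lit 9227) (nat_lit 5) (nat_lit 7))
    (@En.i (nat_lit 1223) (nat_lit 7) (nat_lit 13))
    (@En.n l6111 (nat_lit 11203) (nat_lit 7) (nat_lit 7))
    (@En.n l28 (nat_lit 9237) (nat_lit 15) (nat_lit 2))))
  (@Cl.mk (nat_lit 0x20005000a0004000b000b0009000c0006000500050004000b0007000e000c) (nat_lit 0x10115500006088) (nat_lit 16) Lb.e (@T16.mk En
    (@En.n l4291 (nat_lit 9243) (nat_lit 3) (nat_lit 12))
    (@En.n l15328 (nat_lit 9239) (nat_lit 1) (nat_lit 14))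
    (@En.n l18427 (nat_lit 5673) (nat_lit 2) (nat_lit 7))
    (@En.n l18428 (nat_lit 5790) (nat_lit 3) (nat_lit 11))
    (@En.n l13 (nat_lit 12590) (nat_lit 4) (nat_lit 4))
    (@En.n l4292 (nat_lit 9232) (nat_lit 5) (nat_lit 5))
    (@En.i (nat_lit 12593) (nat_lit 6) (nat_lit 5))
    (@En.n l3241 (nat_lit 9234) (nat_lit 7) (nat_lit 6))
    (@En.i (nat_lit 2894) (nat_lit 9) (nat_lit 12))
    (@En.n l3178 (nat_lit 9187) (nat_lit 10) (nat_lit 9))
    (@En.n l18429 (nat_lit 5671) (nat_lit 11) (nat_lit 11))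
    (@En.n l18428 (nat_lit 6896) (nat_lit 12) (nat_lit 11))
    (@En.n l4294 (nat_lit 11837) (nat_lit 13) (nat_lit 4))
    (@En.n l4295 (nat_lit 3247) (nat_lit 14) (nat_lit 10))
    (@En.n l1329 (nat_lit 12630) (nat_lit 13) (nat_lit 5))
    (@En.n l3 (nat_lit 9238) (nat_lit 15) (nat_lit 2))))
  (@Cl.mk (nat_lit 0x2000a0005000a0005000b000b0006000c0006000500050004000b000e000b) (nat_lit 0x504011050000577) (nat_lit 16) Lb.e (@T16.mk En
    (@En.n l15127 (nat_lit 9242) (nat_lit 2) (nat_lit 11))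
    (@En.n l15128 (nat_lit 11643) (nat_lit 4) (nat_lit 14))
    (@En.n l15129 (nat_lit 5621) (nat_lit 2) (nat_lit 11))
    (@En.n l15130 (nat_lit 12578) (nat_lit 3) (nat_lit 4))
    (@En.n l15131 (nat_lit 9237) (nat_lit 11) (nat_lit 5))
    (@En.i (nat_lit 12575) (nat_lit 5) (nat_lit 5))
    (@En.n l15132 (nat_lit 12283) (nat_lit 6) (nat_lit 6))
    (@En.n l15133 (nat_lit 2766) (nat_lit 8) (nat_lit 12))
    (@En.n l15134 (nat_lit 11583) (nat_lit 8) (nat_lit 6))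
    (@En.n l15135 (nat_lit 5623) (nat_lit 5) (nat_lit 11))
    (@En.n l15136 (nat_lit 6897) (nat_lit 11) (nat_lit 11))
    (@En.n l15137 (nat_lit 11839) (nat_lit 12) (nat_lit 5))
    (@En.n l15138 (nat_lit 10334) (nat_lit 13) (nat_lit 10))
    (@En.n l15139 (nat_lit 9238) (nat_lit 14) (nat_lit 5))
    (@En.n l15133 (nat_lit 11739) (nat_lit 0) (nat_lit 10))
    (@En.n l107 (nat_lit 9239) (nat_lit 15) (nat_lit 2))))
  (@Cl.mk (nat_lit 0x2000a000d000800050003000c0006000c000c0004000800040004000e000b) (nat_lit 0x6220050610100b7) (nat_lit 16) Lb.e (@T16.mk En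
    (@En.i (nat_lit 9243) (nat_lit 13) (nat_lit 11))
    (@En.i (nat_lit 12225) (nat_lit 1) (nat_lit 14))
    (@En.n l5331 (nat_lit 9232) (nat_lit 12) (nat_lit 4))
    (@En.n l18 (nat_lit 11165) (nat_lit 3) (nat_lit 4))
    (@En.n l2943 (nat_lit 3250) (nat_lit 4) (nat_lit 8))
    (@En.n l947 (nat_lit 12591) (nat_lit 5) (nat_lit 4))
    (@En.n l61 (nat_lit 6371) (nat_lit 7) (nat_lit 12))
    (@En.n l287 (nat_lit 12640) (nat_lit 8) (nat_lit 12))
    (@En.n l13922 (nat_lit 6378) (nat_lit 8) (nat_lit 6))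
    (@En.i (nat_lit 12381) (nat_lit 10) (nat_lit 12))
    (@En.n l11 (nat_lit 9230) (nat_lit 10) (nat_lit 3))
    (@En.n l4185 (nat_lit 12656) (nat_lit 0) (nat_lit 5))
    (@En.n l55 (nat_lit 9225) (nat_lit 13) (nat_lit 8))
    (@En.i (nat_lit 1217) (nat_lit 5) (nat_lit 13))
    (@En.n l615 (nat_lit 5486) (nat_lit 3) (nat_lit 10))
    (@En.n l3 (nat_lit 9240) (nat_lit 15) (nat_lit 2))))
  (@Cl.mk (nat_lit 0x40004000a000a00090007000c00080006000600040007000c000c00090008) (nat_lit 0x8160250000a861) (nat_lit 16) Lb.e (@T16.mk En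
    (@En.n l2491 (nat_lit 3249) (nat_lit 0) (nat_lit 8))
    (@En.n l19809 (nat_lit 10418) (nat_lit 1) (nat_lit 9))
    (@En.n l61 (nat_lit 9248) (nat_lit 4) (nat_lit 12))
    (@En.n l9936 (nat_lit 11996) (nat_lit 8) (nat_lit 12))
    (@En.n l8757 (nat_lit 5699) (nat_lit 11) (nat_lit 7))
    (@En.n l19971 (nat_lit 12586) (nat_lit 5) (nat_lit 4))
    (@En.n l27182 (nat_lit 6378) (nat_lit 10) (nat_lit 6))
    (@En.n l18302 (nat_lit 12435) (nat_lit 1) (nat_lit 6))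
    (@En.i (nat_lit 8964) (nat_lit 0) (nat_lit 8))
    (@En.n l7 (nat_lit 9243) (nat_lit 10) (nat_lit 12))
    (@En.n l7 (nat_lit 9242) (nat_lit 9) (nat_lit 7))
    (@En.n l27183 (nat_lit 9192) (nat_lit 7) (nat_lit 9))
    (@En.n l27184 (nat_lit 5674) (nat_lit 6) (nat_lit 10))
    (@En.n l26277 (nat_lit 11855) (nat_lit 14) (nat_lit 10))
    (@En.n l27185 (nat_lit 5673) (nat_lit 12) (nat_lit 4))
    (@En.n l27186 (nat_lit 11833) (nat_lit 0) (nat_lit 4))))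
  (@Cl.mk (nat_lit 0x4000900050005000b000b0007000c0007000500050004000c000b000b0009) (nat_lit 0x200560500005676) (nat_lit 16) Lb.e (@T16.mk En
    (@En.n l13895 (nat_lit 11810) (nat_lit 0) (nat_lit 9))
    (@En.n l5653 (nat_lit 9246) (nat_lit 5) (nat_lit 11))
    (@En.n l601 (nat_lit 9249) (nat_lit 5) (nat_lit 11))
    (@En.n l5654 (nat_lit 10282) (nat_lit 3) (nat_lit 12))
    (@En.n l13896 (nat_lit 11807) (nat_lit 12) (nat_lit 4))
    (@En.n l152 (nat_lit 9244) (nat_lit 11) (nat_lit 5))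
    (@En.n l1300 (nat_lit 11809) (nat_lit 1) (nat_lit 5))
    (@En.n l548 (nat_lit 12722) (nat_lit 0) (nat_lit 7))
    (@En.i (nat_lit 2724) (nat_lit 1) (nat_lit 12))
    (@En.n l13897 (nat_lit 10280) (nat_lit 2) (nat_lit 7))
    (@En.n l13898 (nat_lit 12725) (nat_lit 5) (nat_lit 11))
    (@En.n l2934 (nat_lit 10274) (nat_lit 12) (nat_lit 11))
    (@En.n l13899 (nat_lit 9239) (nat_lit 11) (nat_lit 5))
    (@En.n l13900 (nat_lit 22) (nat_lit 0) (nat_lit 5))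
    (@En.n l13901 (nat_lit 10337) (nat_lit 0) (nat_lit 9))
    (@En.n l77 (nat_lit 9243) (nat_lit 1) (nat_lit 4))))
  (@Cl.mk (nat_lit 0x40004000b000b0009000c0007000500050004000c0007000c000c00040009) (nat_lit 0x61510000607901) (nat_lit 16) Lb.e (@T16.mk En
    (@En.i (nat_lit 3246) (nat_lit 0) (nat_lit 9))
    (@En.n l4190 (nat_lit 12038) (nat_lit 1) (nat_lit 4))
    (@En.n l61 (nat_lit 9245) (nat_lit 4) (nat_lit 12))
    (@En.n l3289 (nat_lit 11853) (nat_lit 1) (nat_lit 12))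
    (@En.i (nat_lit 9241) (nat_lit 4) (nat_lit 7))
    (@En.i (nat_lit 12000) (nat_lit 3) (nat_lit 12))
    (@En.n l11 (nat_lit 12585) (nat_lit 12) (nat_lit 4))
    (@En.n l152 (nat_lit 9240) (nat_lit 11) (nat_lit 5))
    (@En.n l936 (nat_lit 12583) (nat_lit 1) (nat_lit 5))
    (@En.n l55 (nat_lit 12194) (nat_lit 0) (nat_lit 7))
    (@En.i (nat_lit 1157) (nat_lit 6) (nat_lit 12))
    (@En.i (nat_lit 9193) (nat_lit 12) (nat_lit 9))
    (@En.n l230 (nat_lit 5676) (nat_lit 5) (nat_lit 11))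
    (@En.i (nat_lit 11854) (nat_lit 12) (nat_lit 11))
    (@En.n l11364 (nat_lit 9238) (nat_lit 12) (nat_lit 4))
    (@En.n l18 (nat_lit 9247) (nat_lit 0) (nat_lit 4))))
  (@Cl.mk (nat_lit 0x20008000d000800050003000c000b000b00080004000800050005000e000b) (nat_lit 0x5220045150200b6) (nat_lit 16) Lb.e (@T16.mk En
    (@En.i (nat_lit 9242) (nat_lit 11) (nat_lit 11))
    (@En.n l5650 (nat_lit 11747) (nat_lit 1) (nat_lit 14))
    (@En.n l3180 (nat_lit 9237) (nat_lit 2) (nat_lit 5))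
    (@En.n l18 (nat_lit 12650) (nat_lit 3) (nat_lit 5))
    (@En.n l5651 (nat_lit 12499) (nat_lit 4) (nat_lit 8))
    (@En.n l77 (nat_lit 9240) (nat_lit 5) (nat_lit 4))
    (@En.n l5652 (nat_lit 12576) (nat_lit 6) (nat_lit 8))
    (@En.n l5653 (nat_lit 6375) (nat_lit 8) (nat_lit 11))
    (@En.n l601 (nat_lit 12638) (nat_lit 9) (nat_lit 11))
    (@En.n l5654 (nat_lit 12386) (nat_lit 10) (nat_lit 12))
    (@En.n l11 (nat_lit 12739) (nat_lit 10) (nat_lit 3))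
    (@En.n l1300 (nat_lit 12680) (nat_lit 0) (nat_lit 5))
    (@En.n l548 (nat_lit 12738) (nat_lit 13) (nat_lit 8))
    (@En.i (nat_lit 1219) (nat_lit 14) (nat_lit 13))
    (@En.n l5655 (nat_lit 11204) (nat_lit 3) (nat_lit 8))
    (@En.n l3 (nat_lit 9244) (nat_lit 15) (nat_lit 2))))
  (@Cl.mk (nat_lit 0x2000b000b0009000c0008000500050004000d0007000c00030008000e0004) (nat_lit 0x977320009080150) (nat_lit 16) Lb.e (@T16.mk En
    (@En.i (nat_lit 9243) (nat_lit 15) (nat_lit 4))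
    (@En.n l227 (nat_lit 347) (nat_lit 1) (nat_lit 14))
    (@En.i (nat_lit 3248) (nat_lit 2) (nat_lit 8))
    (@En.i (nat_lit 9246) (nat_lit 3) (nat_lit 3))
    (@En.n l3289 (nat_lit 12651) (nat_lit 0) (nat_lit 12))
    (@En.i (nat_lit 9248) (nat_lit 5) (nat_lit 7))
    (@En.i (nat_lit 5953) (nat_lit 7) (nat_lit 13))
    (@En.n l11 (nat_lit 12370) (nat_lit 7) (nat_lit 4))
    (@En.n l152 (nat_lit 6371) (nat_lit 11) (nat_lit 5))
    (@En.n l936 (nat_lit 12047) (nat_lit 9) (nat_lit 5))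
    (@En.n l55 (nat_lit 12197) (nat_lit 11) (nat_lit 8))
    (@En.i (nat_lit 1156) (nat_lit 6) (nat_lit 12))
    (@En.i (nat_lit 12108) (nat_lit 13) (nat_lit 9))
    (@En.n l230 (nat_lit 5955) (nat_lit 5) (nat_lit 11))
    (@En.i (nat_lit 11856) (nat_lit 11) (nat_lit 11))
    (@En.n l17 (nat_lit 9245) (nat_lit 15) (nat_lit 2))))
  (@Cl.mk (nat_lit 0x2000b000b0008000c0008000500050004000d000b000800030008000e0005) (nat_lit 0x97512000a650250) (nat_lit 16) Lb.e (@T16.mk En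
    (@En.n l4172 (nat_lit 9242) (nat_lit 13) (nat_lit 5))
    (@En.n l227 (nat_lit 346) (nat_lit 1) (nat_lit 14))
    (@En.i (nat_lit 10271) (nat_lit 2) (nat_lit 8))
    (@En.n l50 (nat_lit 9245) (nat_lit 3) (nat_lit 3))
    (@En.n l2496 (nat_lit 12549) (nat_lit 0) (nat_lit 8))
    (@En.i (nat_lit 9247) (nat_lit 6) (nat_lit 11))
    (@En.n l3039 (nat_lit 11516) (nat_lit 7) (nat_lit 13))
    (@En.n l11 (nat_lit 12369) (nat_lit 7) (nat_lit 4))
    (@En.n l152 (nat_lit 6375) (nat_lit 11) (nat_lit 5))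
    (@En.n l936 (nat_lit 12368) (nat_lit 9) (nat_lit 5))
    (@En.n l55 (nat_lit 12720) (nat_lit 11) (nat_lit 8))
    (@En.i (nat_lit 692) (nat_lit 12) (nat_lit 12))
    (@En.n l14154 (nat_lit 11910) (nat_lit 13) (nat_lit 8))
    (@En.n l230 (nat_lit 12727) (nat_lit 5) (nat_lit 11))
    (@En.i (nat_lit 11860) (nat_lit 11) (nat_lit 11))
    (@En.n l17 (nat_lit 9246) (nat_lit 15) (nat_lit 2))))
  (@Cl.mk (nat_lit 0x3000b000b0009000c0009000500050004000b0007000c0007000d00050004) (nat_lit 0x764140005080300) (nat_lit 16) Lb.e (@T16.mk En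
    (@En.i (nat_lit 9245) (nat_lit 0) (nat_lit 4))
    (@En.i (nat_lit 9249) (nat_lit 0) (nat_lit 5))
    (@En.n l13978 (nat_lit 348) (nat_lit 1) (nat_lit 13))
    (@En.n l8841 (nat_lit 11289) (nat_lit 3) (nat_lit 7))
    (@En.n l13978 (nat_lit 12427) (nat_lit 2) (nat_lit 12))
    (@En.n l8760 (nat_lit 11833) (nat_lit 5) (nat_lit 7))
    (@En.n l27789 (nat_lit 11158) (nat_lit 7) (nat_lit 11))
    (@En.n l11 (nat_lit 10772) (nat_lit 12) (nat_lit 4))
    (@En.n l152 (nat_lit 11165) (nat_lit 11) (nat_lit 5))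
    (@En.n l936 (nat_lit 26) (nat_lit 1) (nat_lit 5))
    (@En.n l14128 (nat_lit 11832) (nat_lit 11) (nat_lit 9))
    (@En.i (nat_lit 1102) (nat_lit 6) (nat_lit 12))
    (@En.n l21484 (nat_lit 11828) (nat_lit 13) (nat_lit 9))
    (@En.n l5865 (nat_lit 12731) (nat_lit 5) (nat_lit 11))
    (@En.i (nat_lit 11096) (nat_lit 14) (nat_lit 11))
    (@En.n l16624 (nat_lit 11836) (nat_lit 13) (nat_lit 3))))
noncomputable def a578 : T16 Cl := @T16.mk Cl
  (@Cl.mk (nat_lit 0x2000a000a00090008000c00090006000600040007000c00080007000e0004) (nat_lit 0x817643000076010) (nat_lit 16) Lb.e (@T16.mk En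
    (@En.i (nat_lit 9241) (nat_lit 15) (nat_lit 4))
    (@En.n l2871 (nat_lit 344) (nat_lit 1) (nat_lit 14))
    (@En.n l2491 (nat_lit 3254) (nat_lit 2) (nat_lit 7))
    (@En.i (nat_lit 7723) (nat_lit 3) (nat_lit 8))
    (@En.n l9936 (nat_lit 11123) (nat_lit 5) (nat_lit 12))
    (@En.n l8757 (nat_lit 5697) (nat_lit 5) (nat_lit 7))
    (@En.n l11 (nat_lit 12587) (nat_lit 6) (nat_lit 4))
    (@En.n l8758 (nat_lit 6369) (nat_lit 10) (nat_lit 6))
    (@En.n l936 (nat_lit 12048) (nat_lit 8) (nat_lit 6))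
    (@En.i (nat_lit 9120) (nat_lit 10) (nat_lit 9))
    (@En.n l7 (nat_lit 9245) (nat_lit 11) (nat_lit 12))
    (@En.n l644 (nat_lit 9246) (nat_lit 12) (nat_lit 8))
    (@En.n l13498 (nat_lit 12106) (nat_lit 13) (nat_lit 9))
    (@En.n l230 (nat_lit 5509) (nat_lit 6) (nat_lit 10))
    (@En.i (nat_lit 11857) (nat_lit 14) (nat_lit 10))
    (@En.n l17 (nat_lit 9248) (nat_lit 15) (nat_lit 2))))
  (@Cl.mk (nat_lit 0x30006000b000b0008000c0008000500050004000b000a0008000d00080005) (nat_lit 0x67062000575850) (nat_lit 16) Lb.e (@T16.mk En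
    (@En.n l1927 (nat_lit 12729) (nat_lit 0) (nat_lit 5))
    (@En.n l13958 (nat_lit 11294) (nat_lit 0) (nat_lit 8))
    (@En.n l21479 (nat_lit 11852) (nat_lit 2) (nat_lit 13))
    (@En.n l21480 (nat_lit 11850) (nat_lit 3) (nat_lit 8))
    (@En.n l21481 (nat_lit 11836) (nat_lit 4) (nat_lit 10))
    (@En.n l21482 (nat_lit 10045) (nat_lit 6) (nat_lit 11))
    (@En.n l14479 (nat_lit 12429) (nat_lit 6) (nat_lit 4))
    (@En.n l152 (nat_lit 12638) (nat_lit 11) (nat_lit 5))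
    (@En.n l14050 (nat_lit 12433) (nat_lit 8) (nat_lit 5))
    (@En.n l21483 (nat_lit 9241) (nat_lit 0) (nat_lit 8))
    (@En.i (nat_lit 3860) (nat_lit 11) (nat_lit 12))
    (@En.n l21484 (nat_lit 10422) (nat_lit 12) (nat_lit 8))
    (@En.n l21485 (nat_lit 12045) (nat_lit 5) (nat_lit 11))
    (@En.n l14045 (nat_lit 11846) (nat_lit 14) (nat_lit 11))
    (@En.n l21486 (nat_lit 11638) (nat_lit 12) (nat_lit 6))
    (@En.n l4190 (nat_lit 12038) (nat_lit 15) (nat_lit 3))))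
  (@Cl.mk (nat_lit 0x20005000e000b0002000b0009000c0005000a00050004000b0007000e0006) (nat_lit 0x380454060060b0) (nat_lit 16) Lb.e (@T16.mk En
    (@En.n l9415 (nat_lit 9252) (nat_lit 4) (nat_lit 6))
    (@En.n l20930 (nat_lit 9251) (nat_lit 1) (nat_lit 14))
    (@En.n l13969 (nat_lit 8280) (nat_lit 6) (nat_lit 7))
    (@En.n l5276 (nat_lit 6889) (nat_lit 3) (nat_lit 11))
    (@En.n l17701 (nat_lit 3462) (nat_lit 4) (nat_lit 4))
    (@En.n l1865 (nat_lit 1398) (nat_lit 5) (nat_lit 5))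
    (@En.i (nat_lit 12676) (nat_lit 11) (nat_lit 10))
    (@En.n l5276 (nat_lit 6208) (nat_lit 7) (nat_lit 5))
    (@En.n l5390 (nat_lit 2740) (nat_lit 9) (nat_lit 12))
    (@En.n l645 (nat_lit 2542) (nat_lit 10) (nat_lit 9))
    (@En.n l5390 (nat_lit 8384) (nat_lit 11) (nat_lit 11))
    (@En.n l17 (nat_lit 9250) (nat_lit 11) (nat_lit 2))
    (@En.n l5551 (nat_lit 6896) (nat_lit 13) (nat_lit 11))
    (@En.n l17942 (nat_lit 3420) (nat_lit 1) (nat_lit 14))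
    (@En.n l14823 (nat_lit 9518) (nat_lit 13) (nat_lit 5))
    (@En.n l50 (nat_lit 9250) (nat_lit 15) (nat_lit 2))))
  (@Cl.mk (nat_lit 0x2000a0005000e000b0002000b0006000c0005000b00050004000b000e0005) (nat_lit 0x8041060503005a0) (nat_lit 16) Lb.e (@T16.mk En
    (@En.n l13496 (nat_lit 9254) (nat_lit 5) (nat_lit 5))
    (@En.n l34985 (nat_lit 8287) (nat_lit 7) (nat_lit 14))
    (@En.n l34986 (nat_lit 6890) (nat_lit 2) (nat_lit 11))
    (@En.n l34987 (nat_lit 3464) (nat_lit 3) (nat_lit 4))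
    (@En.n l18 (nat_lit 1397) (nat_lit 4) (nat_lit 5))
    (@En.n l24935 (nat_lit 12710) (nat_lit 11) (nat_lit 11))
    (@En.n l34988 (nat_lit 6206) (nat_lit 6) (nat_lit 5))
    (@En.n l6050 (nat_lit 2708) (nat_lit 8) (nat_lit 12))
    (@En.n l9060 (nat_lit 7352) (nat_lit 14) (nat_lit 6))
    (@En.n l33835 (nat_lit 8381) (nat_lit 10) (nat_lit 11))
    (@En.n l7 (nat_lit 9251) (nat_lit 10) (nat_lit 2))
    (@En.n l28010 (nat_lit 6897) (nat_lit 12) (nat_lit 11))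
    (@En.n l24456 (nat_lit 11033) (nat_lit 1) (nat_lit 14))
    (@En.n l5311 (nat_lit 9250) (nat_lit 14) (nat_lit 5))
    (@En.n l6050 (nat_lit 8829) (nat_lit 3) (nat_lit 10))
    (@En.n l107 (nat_lit 9251) (nat_lit 15) (nat_lit 2))))
  (@Cl.mk (nat_lit 0x2000a0008000b0005000a000a00060005000c0008000600060004000e000b) (nat_lit 0x445037007500070) (nat_lit 16) Lb.e (@T16.mk En
    (@En.n l9838 (nat_lit 9255) (nat_lit 14) (nat_lit 11))
    (@En.n l9839 (nat_lit 4535) (nat_lit 1) (nat_lit 14))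
    (@En.n l9840 (nat_lit 9521) (nat_lit 2) (nat_lit 4))
    (@En.n l3956 (nat_lit 9256) (nat_lit 10) (nat_lit 6))
    (@En.i (nat_lit 9558) (nat_lit 4) (nat_lit 6))
    (@En.n l5098 (nat_lit 9253) (nat_lit 5) (nat_lit 8))
    (@En.n l9841 (nat_lit 6999) (nat_lit 7) (nat_lit 12))
    (@En.i (nat_lit 6347) (nat_lit 7) (nat_lit 5))
    (@En.n l9840 (nat_lit 8829) (nat_lit 8) (nat_lit 6))
    (@En.n l9842 (nat_lit 9250) (nat_lit 6) (nat_lit 10))
    (@En.n l9343 (nat_lit 9288) (nat_lit 11) (nat_lit 10))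
    (@En.n l9841 (nat_lit 6813) (nat_lit 12) (nat_lit 5))
    (@En.n l9840 (nat_lit 2551) (nat_lit 7) (nat_lit 11))
    (@En.n l9843 (nat_lit 2543) (nat_lit 14) (nat_lit 8))
    (@En.n l9844 (nat_lit 8387) (nat_lit 12) (nat_lit 10))
    (@En.n l18 (nat_lit 9252) (nat_lit 15) (nat_lit 2))))
  (@Cl.mk (nat_lit 0x2000900080006000b0006000b000b00070005000800050005000a000e000a) (nat_lit 0x440604400400762) (nat_lit 16) Lb.e (@T16.mk En
    (@En.n l19901 (nat_lit 9260) (nat_lit 12) (nat_lit 10))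
    (@En.i (nat_lit 3425) (nat_lit 1) (nat_lit 14))
    (@En.n l19902 (nat_lit 9568) (nat_lit 2) (nat_lit 10))
    (@En.n l19903 (nat_lit 9259) (nat_lit 11) (nat_lit 5))
    (@En.n l19904 (nat_lit 9509) (nat_lit 4) (nat_lit 5))
    (@En.n l19905 (nat_lit 3025) (nat_lit 10) (nat_lit 8))
    (@En.n l936 (nat_lit 6346) (nat_lit 6) (nat_lit 5))
    (@En.n l19906 (nat_lit 9628) (nat_lit 7) (nat_lit 7))
    (@En.n l5581 (nat_lit 8280) (nat_lit 9) (nat_lit 11))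
    (@En.n l19902 (nat_lit 9284) (nat_lit 10) (nat_lit 11))
    (@En.n l5582 (nat_lit 8143) (nat_lit 11) (nat_lit 6))
    (@En.n l12686 (nat_lit 9252) (nat_lit 12) (nat_lit 11))
    (@En.n l19907 (nat_lit 9254) (nat_lit 13) (nat_lit 6))
    (@En.n l19908 (nat_lit 2540) (nat_lit 14) (nat_lit 8))
    (@En.n l19909 (nat_lit 8388) (nat_lit 1) (nat_lit 9))
    (@En.n l7 (nat_lit 9253) (nat_lit 15) (nat_lit 2))))
  (@Cl.mk (nat_lit 0x2000a0006000b0005000b000b00060005000c00050005000a0004000e000b) (nat_lit 0x504084007005076) (nat_lit 16) Lb.e (@T16.mk En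
    (@En.n l19243 (nat_lit 9257) (nat_lit 14) (nat_lit 11))
    (@En.n l19244 (nat_lit 11031) (nat_lit 1) (nat_lit 14))
    (@En.n l1192 (nat_lit 9252) (nat_lit 2) (nat_lit 4))
    (@En.n l2577 (nat_lit 9559) (nat_lit 3) (nat_lit 10))
    (@En.n l152 (nat_lit 9258) (nat_lit 11) (nat_lit 5))
    (@En.n l117 (nat_lit 9506) (nat_lit 5) (nat_lit 5))
    (@En.n l2255 (nat_lit 6996) (nat_lit 7) (nat_lit 12))
    (@En.n l867 (nat_lit 6742) (nat_lit 7) (nat_lit 5))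
    (@En.i (nat_lit 9351) (nat_lit 8) (nat_lit 6))
    (@En.n l19245 (nat_lit 9251) (nat_lit 5) (nat_lit 11))
    (@En.n l2577 (nat_lit 8589) (nat_lit 11) (nat_lit 11))
    (@En.n l8132 (nat_lit 8802) (nat_lit 12) (nat_lit 5))
    (@En.n l19246 (nat_lit 2549) (nat_lit 13) (nat_lit 11))
    (@En.n l19247 (nat_lit 7350) (nat_lit 14) (nat_lit 6))
    (@En.n l4172 (nat_lit 8389) (nat_lit 12) (nat_lit 10))
    (@En.n l7 (nat_lit 9254) (nat_lit 15) (nat_lit 2))))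
  (@Cl.mk (nat_lit 0x4000b000b00090007000a00050005000a000a00070006000c000900060006) (nat_lit 0x943040041008500) (nat_lit 16) Lb.e (@T16.mk En
    (@En.n l217 (nat_lit 8479) (nat_lit 10) (nat_lit 6))
    (@En.n l12787 (nat_lit 9269) (nat_lit 1) (nat_lit 6))
    (@En.n l8534 (nat_lit 9260) (nat_lit 0) (nat_lit 9))
    (@En.n l20125 (nat_lit 2318) (nat_lit 3) (nat_lit 12))
    (@En.n l20126 (nat_lit 6345) (nat_lit 10) (nat_lit 6))
    (@En.n l20127 (nat_lit 8823) (nat_lit 5) (nat_lit 7))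
    (@En.n l20128 (nat_lit 6896) (nat_lit 6) (nat_lit 10))
    (@En.n l20129 (nat_lit 9725) (nat_lit 10) (nat_lit 10))
    (@En.n l20130 (nat_lit 9252) (nat_lit 11) (nat_lit 5))
    (@En.n l9777 (nat_lit 8386) (nat_lit 0) (nat_lit 5))
    (@En.n l909 (nat_lit 2685) (nat_lit 8) (nat_lit 10))
    (@En.n l12140 (nat_lit 6784) (nat_lit 1) (nat_lit 7))
    (@En.n l8512 (nat_lit 8399) (nat_lit 7) (nat_lit 9))
    (@En.n l3918 (nat_lit 9295) (nat_lit 5) (nat_lit 11))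
    (@En.n l8533 (nat_lit 9413) (nat_lit 4) (nat_lit 11))
    (@En.n l20131 (nat_lit 9275) (nat_lit 12) (nat_lit 4))))
  (@Cl.mk (nat_lit 0x200070006000d000900060003000e000b000200090007000a0005000e000a) (nat_lit 0x35007104030a4) (nat_lit 16) Lb.e (@T16.mk En
    (@En.n l1192 (nat_lit 9252) (nat_lit 10) (nat_lit 10))
    (@En.i (nat_lit 6504) (nat_lit 1) (nat_lit 14))
    (@En.n l3734 (nat_lit 8256) (nat_lit 2) (nat_lit 5))
    (@En.n l3735 (nat_lit 2547) (nat_lit 3) (nat_lit 10))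
    (@En.n l3736 (nat_lit 6782) (nat_lit 14) (nat_lit 7))
    (@En.n l3737 (nat_lit 8473) (nat_lit 5) (nat_lit 9))
    (@En.n l7 (nat_lit 9256) (nat_lit 6) (nat_lit 2))
    (@En.n l3738 (nat_lit 8479) (nat_lit 8) (nat_lit 11))
    (@En.n l3739 (nat_lit 4555) (nat_lit 1) (nat_lit 14))
    (@En.n l11 (nat_lit 9258) (nat_lit 9) (nat_lit 3))
    (@En.n l3735 (nat_lit 8216) (nat_lit 3) (nat_lit 6))
    (@En.i (nat_lit 9259) (nat_lit 12) (nat_lit 9))
    (@En.n l2255 (nat_lit 6998) (nat_lit 13) (nat_lit 13))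
    (@En.i (nat_lit 6758) (nat_lit 14) (nat_lit 6))
    (@En.i (nat_lit 9262) (nat_lit 7) (nat_lit 7))
    (@En.n l3 (nat_lit 9256) (nat_lit 15) (nat_lit 2))))
  (@Cl.mk (nat_lit 0x4000b000b00090005000a00050005000b000b00070006000c00050005000b) (nat_lit 0x534040081005005) (nat_lit 16) Lb.e (@T16.mk En
    (@En.n l30108 (nat_lit 9270) (nat_lit 0) (nat_lit 11))
    (@En.n l3498 (nat_lit 8442) (nat_lit 11) (nat_lit 5))
    (@En.n l30109 (nat_lit 9421) (nat_lit 0) (nat_lit 5))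
    (@En.i (nat_lit 2316) (nat_lit 0) (nat_lit 12))
    (@En.n l5496 (nat_lit 6741) (nat_lit 10) (nat_lit 6))
    (@En.n l30110 (nat_lit 9315) (nat_lit 2) (nat_lit 7))
    (@En.n l19271 (nat_lit 6897) (nat_lit 5) (nat_lit 11))
    (@En.n l30111 (nat_lit 9937) (nat_lit 10) (nat_lit 11))
    (@En.n l30112 (nat_lit 9254) (nat_lit 11) (nat_lit 5))
    (@En.n l1363 (nat_lit 8789) (nat_lit 9) (nat_lit 5))
    (@En.n l30113 (nat_lit 2555) (nat_lit 0) (nat_lit 10))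
    (@En.n l8811 (nat_lit 6867) (nat_lit 1) (nat_lit 5))
    (@En.n l30114 (nat_lit 8375) (nat_lit 7) (nat_lit 9))
    (@En.n l30115 (nat_lit 9277) (nat_lit 5) (nat_lit 11))
    (@En.n l30109 (nat_lit 8752) (nat_lit 2) (nat_lit 11))
    (@En.n l22525 (nat_lit 9255) (nat_lit 15) (nat_lit 4))))
  (@Cl.mk (nat_lit 0x200070006000d0005000a0003000e000b000200090006000a0005000e000b) (nat_lit 0x4040360504089) (nat_lit 16) Lb.e (@T16.mk En
    (@En.i (nat_lit 9254) (nat_lit 10) (nat_lit 11))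
    (@En.i (nat_lit 7964) (nat_lit 1) (nat_lit 14))
    (@En.n l8132 (nat_lit 7678) (nat_lit 2) (nat_lit 5))
    (@En.n l8133 (nat_lit 2546) (nat_lit 3) (nat_lit 10))
    (@En.n l8132 (nat_lit 7351) (nat_lit 14) (nat_lit 6))
    (@En.n l4172 (nat_lit 8440) (nat_lit 5) (nat_lit 9))
    (@En.n l7 (nat_lit 9258) (nat_lit 6) (nat_lit 2))
    (@En.n l8134 (nat_lit 8442) (nat_lit 8) (nat_lit 11))
    (@En.n l8135 (nat_lit 11029) (nat_lit 1) (nat_lit 14))
    (@En.i (nat_lit 9256) (nat_lit 9) (nat_lit 3))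
    (@En.n l8136 (nat_lit 9096) (nat_lit 3) (nat_lit 10))
    (@En.n l117 (nat_lit 9866) (nat_lit 4) (nat_lit 5))
    (@En.n l2255 (nat_lit 6997) (nat_lit 13) (nat_lit 13))
    (@En.i (nat_lit 6743) (nat_lit 14) (nat_lit 6))
    (@En.i (nat_lit 9349) (nat_lit 7) (nat_lit 7))
    (@En.n l3 (nat_lit 9258) (nat_lit 15) (nat_lit 2))))
  (@Cl.mk (nat_lit 0x20008000600090005000a000e000a0002000800070006000a0006000e000b) (nat_lit 0x504075004004085) (nat_lit 16) Lb.e (@T16.mk En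
    (@En.n l9562 (nat_lit 9253) (nat_lit 9) (nat_lit 11))
    (@En.i (nat_lit 6505) (nat_lit 10) (nat_lit 14))
    (@En.n l9563 (nat_lit 8142) (nat_lit 2) (nat_lit 6))
    (@En.n l207 (nat_lit 9256) (nat_lit 3) (nat_lit 10))
    (@En.i (nat_lit 9258) (nat_lit 4) (nat_lit 6))
    (@En.n l9564 (nat_lit 6780) (nat_lit 14) (nat_lit 7))
    (@En.n l4172 (nat_lit 8474) (nat_lit 6) (nat_lit 8))
    (@En.n l7 (nat_lit 9259) (nat_lit 7) (nat_lit 2))
    (@En.n l9565 (nat_lit 9261) (nat_lit 9) (nat_lit 10))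
    (@En.n l9566 (nat_lit 4554) (nat_lit 10) (nat_lit 14))
    (@En.n l9564 (nat_lit 8969) (nat_lit 2) (nat_lit 10))
    (@En.n l9567 (nat_lit 9602) (nat_lit 3) (nat_lit 5))
    (@En.n l9568 (nat_lit 3024) (nat_lit 4) (nat_lit 9))
    (@En.i (nat_lit 6759) (nat_lit 14) (nat_lit 6))
    (@En.i (nat_lit 9263) (nat_lit 6) (nat_lit 8))
    (@En.n l3 (nat_lit 9259) (nat_lit 15) (nat_lit 2))))
  (@Cl.mk (nat_lit 0x50005000b000a000a000800070005000a00060006000b000b000800060009) (nat_lit 0x91630050056504) (nat_lit 16) Lb.e (@T16.mk En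
    (@En.i (nat_lit 2982) (nat_lit 9) (nat_lit 9))
    (@En.n l30026 (nat_lit 6344) (nat_lit 1) (nat_lit 6))
    (@En.n l30027 (nat_lit 8826) (nat_lit 2) (nat_lit 8))
    (@En.n l30028 (nat_lit 8275) (nat_lit 5) (nat_lit 11))
    (@En.n l8054 (nat_lit 9724) (nat_lit 9) (nat_lit 11))
    (@En.n l30029 (nat_lit 9253) (nat_lit 10) (nat_lit 6))
    (@En.n l30030 (nat_lit 8224) (nat_lit 6) (nat_lit 6))
    (@En.n l19038 (nat_lit 9255) (nat_lit 10) (nat_lit 10))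
    (@En.n l4187 (nat_lit 9257) (nat_lit 11) (nat_lit 5))
    (@En.n l25891 (nat_lit 6714) (nat_lit 9) (nat_lit 7))
    (@En.n l30031 (nat_lit 8425) (nat_lit 8) (nat_lit 8))
    (@En.n l30032 (nat_lit 9296) (nat_lit 6) (nat_lit 10))
    (@En.i (nat_lit 7961) (nat_lit 6) (nat_lit 10))
    (@En.n l30033 (nat_lit 9374) (nat_lit 10) (nat_lit 11))
    (@En.n l77 (nat_lit 9261) (nat_lit 11) (nat_lit 5))
    (@En.n l19041 (nat_lit 9429) (nat_lit 0) (nat_lit 5))))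
  (@Cl.mk (nat_lit 0x200090007000a0005000b000a000a000700060005000900060006000e000b) (nat_lit 0x605098500050086) (nat_lit 16) Lb.e (@T16.mk En
    (@En.i (nat_lit 9260) (nat_lit 4) (nat_lit 11))
    (@En.n l134 (nat_lit 6462) (nat_lit 1) (nat_lit 14))
    (@En.n l19036 (nat_lit 9259) (nat_lit 2) (nat_lit 6))
    (@En.n l19037 (nat_lit 7651) (nat_lit 3) (nat_lit 6))
    (@En.n l19038 (nat_lit 8479) (nat_lit 4) (nat_lit 9))
    (@En.n l19039 (nat_lit 8442) (nat_lit 5) (nat_lit 5))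
    (@En.n l1780 (nat_lit 6775) (nat_lit 6) (nat_lit 6))
    (@En.n l19040 (nat_lit 2626) (nat_lit 7) (nat_lit 7))
    (@En.n l575 (nat_lit 9294) (nat_lit 9) (nat_lit 10))
    (@En.i (nat_lit 9829) (nat_lit 10) (nat_lit 10))
    (@En.n l10758 (nat_lit 8961) (nat_lit 11) (nat_lit 11))
    (@En.n l19041 (nat_lit 9588) (nat_lit 12) (nat_lit 5))
    (@En.i (nat_lit 3132) (nat_lit 8) (nat_lit 10))
    (@En.n l61 (nat_lit 6348) (nat_lit 14) (nat_lit 7))
    (@En.n l19042 (nat_lit 8825) (nat_lit 2) (nat_lit 9))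
    (@En.n l7 (nat_lit 9261) (nat_lit 15) (nat_lit 2))))
  (@Cl.mk (nat_lit 0x20009000c0008000b00060004000b00070005000d000800050003000e000a) (nat_lit 0x475600400750011) (nat_lit 16) Lb.e (@T16.mk En
    (@En.n l9979 (nat_lit 8822) (nat_lit 14) (nat_lit 10))
    (@En.n l1080 (nat_lit 4542) (nat_lit 1) (nat_lit 14))
    (@En.n l11 (nat_lit 9349) (nat_lit 2) (nat_lit 3))
    (@En.n l9979 (nat_lit 8217) (nat_lit 3) (nat_lit 5))
    (@En.i (nat_lit 9263) (nat_lit 4) (nat_lit 8))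
    (@En.n l2255 (nat_lit 6489) (nat_lit 6) (nat_lit 13))
    (@En.n l3480 (nat_lit 5095) (nat_lit 6) (nat_lit 5))
    (@En.n l10493 (nat_lit 8819) (nat_lit 7) (nat_lit 7))
    (@En.n l10494 (nat_lit 8829) (nat_lit 9) (nat_lit 11))
    (@En.i (nat_lit 9578) (nat_lit 9) (nat_lit 4))
    (@En.n l10495 (nat_lit 6151) (nat_lit 11) (nat_lit 6))
    (@En.n l10493 (nat_lit 7348) (nat_lit 7) (nat_lit 11))
    (@En.n l3480 (nat_lit 9252) (nat_lit 13) (nat_lit 8))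
    (@En.i (nat_lit 7586) (nat_lit 6) (nat_lit 12))
    (@En.n l10493 (nat_lit 8392) (nat_lit 12) (nat_lit 9))
    (@En.n l7 (nat_lit 9262) (nat_lit 15) (nat_lit 2))))
  (@Cl.mk (nat_lit 0x20008000b00080007000b00070005000c00080005000800040009000e0009) (nat_lit 0x565070054040611) (nat_lit 16) Lb.e (@T16.mk En
    (@En.i (nat_lit 8825) (nat_lit 13) (nat_lit 9))
    (@En.n l532 (nat_lit 4545) (nat_lit 1) (nat_lit 14))
    (@En.n l22151 (nat_lit 10090) (nat_lit 2) (nat_lit 9))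
    (@En.n l6579 (nat_lit 9603) (nat_lit 3) (nat_lit 4))
    (@En.n l1776 (nat_lit 4214) (nat_lit 4) (nat_lit 8))
    (@En.n l3480 (nat_lit 5088) (nat_lit 5) (nat_lit 5))
    (@En.n l10493 (nat_lit 8827) (nat_lit 6) (nat_lit 8))
    (@En.n l22152 (nat_lit 9628) (nat_lit 8) (nat_lit 12))
    (@En.i (nat_lit 9580) (nat_lit 8) (nat_lit 5))
    (@En.n l10495 (nat_lit 10389) (nat_lit 10) (nat_lit 7))
    (@En.n l207 (nat_lit 9262) (nat_lit 11) (nat_lit 11))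
    (@En.i (nat_lit 9349) (nat_lit 12) (nat_lit 7))
    (@En.n l22153 (nat_lit 9253) (nat_lit 13) (nat_lit 8))
    (@En.i (nat_lit 7587) (nat_lit 7) (nat_lit 11))
    (@En.i (nat_lit 8394) (nat_lit 11) (nat_lit 8))
    (@En.n l7 (nat_lit 9263) (nat_lit 15) (nat_lit 2))))
noncomputable def a579 : T16 Cl := @T16.mk Cl
  (@Cl.mk (nat_lit 0x2000b000600090007000e00050002000d000a00070003000a0009000e0006) (nat_lit 0x8030500a5007230) (nat_lit 16) Lb.e (@T16.mk En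
    (@En.n l9247 (nat_lit 8994) (nat_lit 7) (nat_lit 6))
    (@En.i (nat_lit 7935) (nat_lit 1) (nat_lit 14))
    (@En.i (nat_lit 6706) (nat_lit 2) (nat_lit 9))
    (@En.n l612 (nat_lit 9265) (nat_lit 11) (nat_lit 10))
    (@En.n l50 (nat_lit 9266) (nat_lit 4) (nat_lit 3))
    (@En.n l20927 (nat_lit 1786) (nat_lit 5) (nat_lit 7))
    (@En.n l217 (nat_lit 9267) (nat_lit 14) (nat_lit 10))
    (@En.n l23524 (nat_lit 9025) (nat_lit 8) (nat_lit 13))
    (@En.n l28 (nat_lit 9264) (nat_lit 8) (nat_lit 2))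
    (@En.n l9256 (nat_lit 8219) (nat_lit 9) (nat_lit 5))
    (@En.n l1578 (nat_lit 8512) (nat_lit 1) (nat_lit 14))
    (@En.n l117 (nat_lit 2434) (nat_lit 12) (nat_lit 7))
    (@En.n l20927 (nat_lit 8270) (nat_lit 9) (nat_lit 9))
    (@En.n l23525 (nat_lit 2019) (nat_lit 14) (nat_lit 6))
    (@En.n l23526 (nat_lit 10626) (nat_lit 10) (nat_lit 11))
    (@En.n l17 (nat_lit 9264) (nat_lit 15) (nat_lit 2))))
  (@Cl.mk (nat_lit 0x20006000b0007000a0008000e00050002000a0006000a00090008000e0006) (nat_lit 0x5061a007024460) (nat_lit 16) Lb.e (@T16.mk En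
    (@En.n l15225 (nat_lit 8220) (nat_lit 8) (nat_lit 6))
    (@En.n l1578 (nat_lit 8281) (nat_lit 10) (nat_lit 14))
    (@En.n l38969 (nat_lit 6884) (nat_lit 2) (nat_lit 8))
    (@En.n l644 (nat_lit 9264) (nat_lit 12) (nat_lit 9))
    (@En.n l3922 (nat_lit 7531) (nat_lit 4) (nat_lit 10))
    (@En.n l23394 (nat_lit 2020) (nat_lit 5) (nat_lit 6))
    (@En.n l38969 (nat_lit 10625) (nat_lit 7) (nat_lit 10))
    (@En.n l17 (nat_lit 9265) (nat_lit 7) (nat_lit 2))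
    (@En.n l29826 (nat_lit 8991) (nat_lit 8) (nat_lit 5))
    (@En.i (nat_lit 7936) (nat_lit 10) (nat_lit 14))
    (@En.i (nat_lit 1345) (nat_lit 11) (nat_lit 8))
    (@En.n l23394 (nat_lit 9306) (nat_lit 12) (nat_lit 10))
    (@En.n l20927 (nat_lit 1781) (nat_lit 13) (nat_lit 7))
    (@En.n l564 (nat_lit 9268) (nat_lit 14) (nat_lit 11))
    (@En.n l13124 (nat_lit 10020) (nat_lit 6) (nat_lit 6))
    (@En.n l28 (nat_lit 9265) (nat_lit 15) (nat_lit 2))))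
  (@Cl.mk (nat_lit 0x2000b0006000a0007000e00050002000d0006000b0003000a0009000e0005) (nat_lit 0x4010700a0605250) (nat_lit 16) Lb.e (@T16.mk En
    (@En.i (nat_lit 8995) (nat_lit 7) (nat_lit 5))
    (@En.i (nat_lit 7934) (nat_lit 1) (nat_lit 14))
    (@En.i (nat_lit 6704) (nat_lit 2) (nat_lit 9))
    (@En.n l37405 (nat_lit 8976) (nat_lit 11) (nat_lit 10))
    (@En.i (nat_lit 9264) (nat_lit 4) (nat_lit 3))
    (@En.n l5390 (nat_lit 9292) (nat_lit 0) (nat_lit 11))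
    (@En.i (nat_lit 9265) (nat_lit 14) (nat_lit 6))
    (@En.n l21626 (nat_lit 7468) (nat_lit 8) (nat_lit 13))
    (@En.n l28 (nat_lit 9266) (nat_lit 8) (nat_lit 2))
    (@En.n l7948 (nat_lit 8218) (nat_lit 9) (nat_lit 5))
    (@En.n l1578 (nat_lit 8513) (nat_lit 1) (nat_lit 14))
    (@En.n l117 (nat_lit 2433) (nat_lit 12) (nat_lit 7))
    (@En.n l3922 (nat_lit 7533) (nat_lit 3) (nat_lit 10))
    (@En.n l21622 (nat_lit 2021) (nat_lit 14) (nat_lit 6))
    (@En.n l3536 (nat_lit 10627) (nat_lit 10) (nat_lit 11))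
    (@En.n l17 (nat_lit 9266) (nat_lit 15) (nat_lit 2))))
  (@Cl.mk (nat_lit 0x2000a0006000b00090008000d000600050003000b0007000a0008000e0005) (nat_lit 0x407746000405390) (nat_lit 16) Lb.e (@T16.mk En
    (@En.n l14312 (nat_lit 9269) (nat_lit 9) (nat_lit 5))
    (@En.n l1578 (nat_lit 9281) (nat_lit 1) (nat_lit 14))
    (@En.n l117 (nat_lit 2807) (nat_lit 2) (nat_lit 8))
    (@En.n l14314 (nat_lit 8915) (nat_lit 3) (nat_lit 10))
    (@En.n l36207 (nat_lit 5176) (nat_lit 4) (nat_lit 7))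
    (@En.n l28858 (nat_lit 6853) (nat_lit 6) (nat_lit 11))
    (@En.n l3153 (nat_lit 9271) (nat_lit 6) (nat_lit 3))
    (@En.n l18 (nat_lit 9266) (nat_lit 0) (nat_lit 5))
    (@En.n l29825 (nat_lit 9418) (nat_lit 8) (nat_lit 6))
    (@En.i (nat_lit 7128) (nat_lit 10) (nat_lit 13))
    (@En.i (nat_lit 6681) (nat_lit 11) (nat_lit 8))
    (@En.n l61 (nat_lit 9268) (nat_lit 12) (nat_lit 9))
    (@En.n l15223 (nat_lit 9277) (nat_lit 13) (nat_lit 11))
    (@En.n l36207 (nat_lit 9297) (nat_lit 14) (nat_lit 6))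
    (@En.n l14311 (nat_lit 9727) (nat_lit 8) (nat_lit 10))
    (@En.n l28 (nat_lit 9267) (nat_lit 15) (nat_lit 2))))
  (@Cl.mk (nat_lit 0x2000b000600090007000d0005000c0003000a00070004000a0009000e0006) (nat_lit 0x4060603010064a0) (nat_lit 16) Lb.e (@T16.mk En
    (@En.n l42219 (nat_lit 9270) (nat_lit 8) (nat_lit 6))
    (@En.n l42220 (nat_lit 9282) (nat_lit 1) (nat_lit 14))
    (@En.n l42221 (nat_lit 9407) (nat_lit 2) (nat_lit 9))
    (@En.n l617 (nat_lit 9267) (nat_lit 3) (nat_lit 10))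
    (@En.n l34885 (nat_lit 9460) (nat_lit 4) (nat_lit 4))
    (@En.n l42222 (nat_lit 5178) (nat_lit 5) (nat_lit 7))
    (@En.n l8656 (nat_lit 6852) (nat_lit 1) (nat_lit 10))
    (@En.n l18018 (nat_lit 9272) (nat_lit 7) (nat_lit 3))
    (@En.n l22096 (nat_lit 8963) (nat_lit 9) (nat_lit 12))
    (@En.n l42223 (nat_lit 9318) (nat_lit 9) (nat_lit 5))
    (@En.i (nat_lit 7129) (nat_lit 11) (nat_lit 13))
    (@En.i (nat_lit 6591) (nat_lit 12) (nat_lit 7))
    (@En.n l42222 (nat_lit 9307) (nat_lit 9) (nat_lit 9))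
    (@En.n l42224 (nat_lit 8824) (nat_lit 14) (nat_lit 6))
    (@En.n l42225 (nat_lit 9728) (nat_lit 7) (nat_lit 11))
    (@En.n l28 (nat_lit 9268) (nat_lit 15) (nat_lit 2))))
  (@Cl.mk (nat_lit 0x3000b000b0008000b000900050005000a0005000b00080007000d00060005) (nat_lit 0x852640080260800) (nat_lit 16) Lb.e (@T16.mk En
    (@En.i (nat_lit 8218) (nat_lit 0) (nat_lit 5))
    (@En.n l1545 (nat_lit 9420) (nat_lit 0) (nat_lit 6))
    (@En.i (nat_lit 6880) (nat_lit 2) (nat_lit 13))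
    (@En.n l35101 (nat_lit 6654) (nat_lit 9) (nat_lit 7))
    (@En.n l35102 (nat_lit 9270) (nat_lit 4) (nat_lit 8))
    (@En.n l28139 (nat_lit 9257) (nat_lit 6) (nat_lit 11))
    (@En.n l15483 (nat_lit 8822) (nat_lit 6) (nat_lit 5))
    (@En.n l19319 (nat_lit 9726) (nat_lit 10) (nat_lit 10))
    (@En.n l35103 (nat_lit 9558) (nat_lit 11) (nat_lit 5))
    (@En.n l35104 (nat_lit 8790) (nat_lit 9) (nat_lit 5))
    (@En.n l35105 (nat_lit 2800) (nat_lit 11) (nat_lit 9))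
    (@En.i (nat_lit 8267) (nat_lit 7) (nat_lit 11))
    (@En.n l23899 (nat_lit 9684) (nat_lit 13) (nat_lit 8))
    (@En.n l14138 (nat_lit 9267) (nat_lit 5) (nat_lit 11))
    (@En.n l35106 (nat_lit 10405) (nat_lit 4) (nat_lit 11))
    (@En.n l763 (nat_lit 9274) (nat_lit 15) (nat_lit 3))))
  (@Cl.mk (nat_lit 0x3000a000a00080005000b000a00060006000b000500080006000d0005000b) (nat_lit 0x723075009050704) (nat_lit 16) Lb.e (@T16.mk En
    (@En.n l27785 (nat_lit 8962) (nat_lit 0) (nat_lit 11))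
    (@En.n l19595 (nat_lit 9319) (nat_lit 5) (nat_lit 5))
    (@En.n l34657 (nat_lit 6882) (nat_lit 2) (nat_lit 13))
    (@En.n l12194 (nat_lit 6592) (nat_lit 3) (nat_lit 6))
    (@En.n l20104 (nat_lit 9308) (nat_lit 10) (nat_lit 8))
    (@En.n l16715 (nat_lit 8818) (nat_lit 5) (nat_lit 5))
    (@En.n l3506 (nat_lit 9714) (nat_lit 0) (nat_lit 11))
    (@En.n l644 (nat_lit 9559) (nat_lit 10) (nat_lit 6))
    (@En.n l11315 (nat_lit 8791) (nat_lit 8) (nat_lit 6))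
    (@En.n l20214 (nat_lit 9410) (nat_lit 10) (nat_lit 10))
    (@En.n l20109 (nat_lit 9269) (nat_lit 11) (nat_lit 11))
    (@En.n l42113 (nat_lit 9459) (nat_lit 12) (nat_lit 5))
    (@En.n l42114 (nat_lit 9685) (nat_lit 13) (nat_lit 8))
    (@En.n l42115 (nat_lit 9268) (nat_lit 6) (nat_lit 10))
    (@En.n l3506 (nat_lit 10406) (nat_lit 2) (nat_lit 10))
    (@En.n l42116 (nat_lit 9273) (nat_lit 15) (nat_lit 3))))
  (@Cl.mk (nat_lit 0x200090006000c00090008000d000400070003000b0007000a0008000e0005) (nat_lit 0x408749000004390) (nat_lit 16) Lb.e (@T16.mk En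
    (@En.n l117 (nat_lit 9274) (nat_lit 9) (nat_lit 5))
    (@En.n l42180 (nat_lit 9279) (nat_lit 1) (nat_lit 14))
    (@En.n l42181 (nat_lit 2786) (nat_lit 2) (nat_lit 8))
    (@En.i (nat_lit 8914) (nat_lit 3) (nat_lit 10))
    (@En.n l2436 (nat_lit 1307) (nat_lit 4) (nat_lit 7))
    (@En.n l936 (nat_lit 10394) (nat_lit 6) (nat_lit 11))
    (@En.n l14445 (nat_lit 9267) (nat_lit 6) (nat_lit 3))
    (@En.i (nat_lit 5064) (nat_lit 7) (nat_lit 7))
    (@En.n l31612 (nat_lit 9483) (nat_lit 8) (nat_lit 4))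
    (@En.i (nat_lit 7124) (nat_lit 10) (nat_lit 13))
    (@En.n l42182 (nat_lit 6679) (nat_lit 11) (nat_lit 8))
    (@En.n l39714 (nat_lit 9272) (nat_lit 12) (nat_lit 9))
    (@En.n l42183 (nat_lit 9276) (nat_lit 13) (nat_lit 12))
    (@En.n l2436 (nat_lit 9299) (nat_lit 14) (nat_lit 6))
    (@En.n l614 (nat_lit 10077) (nat_lit 5) (nat_lit 9))
    (@En.n l11 (nat_lit 9271) (nat_lit 15) (nat_lit 2))))
  (@Cl.mk (nat_lit 0x2000a000600090007000d000b00060003000a00070005000a0009000e0006) (nat_lit 0x406093000005480) (nat_lit 16) Lb.e (@T16.mk En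
    (@En.n l30401 (nat_lit 9273) (nat_lit 8) (nat_lit 6))
    (@En.n l20198 (nat_lit 9280) (nat_lit 1) (nat_lit 14))
    (@En.n l30402 (nat_lit 9408) (nat_lit 2) (nat_lit 9))
    (@En.n l30403 (nat_lit 9271) (nat_lit 3) (nat_lit 10))
    (@En.n l30404 (nat_lit 9466) (nat_lit 4) (nat_lit 5))
    (@En.i (nat_lit 5179) (nat_lit 5) (nat_lit 7))
    (@En.n l18763 (nat_lit 10379) (nat_lit 7) (nat_lit 10))
    (@En.n l30405 (nat_lit 9268) (nat_lit 7) (nat_lit 3))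
    (@En.n l30406 (nat_lit 3181) (nat_lit 0) (nat_lit 6))
    (@En.n l30407 (nat_lit 9373) (nat_lit 10) (nat_lit 11))
    (@En.n l9804 (nat_lit 7127) (nat_lit 11) (nat_lit 13))
    (@En.n l1723 (nat_lit 6594) (nat_lit 12) (nat_lit 7))
    (@En.n l18763 (nat_lit 9309) (nat_lit 9) (nat_lit 9))
    (@En.i (nat_lit 9362) (nat_lit 14) (nat_lit 6))
    (@En.n l30408 (nat_lit 10076) (nat_lit 7) (nat_lit 10))
    (@En.n l50 (nat_lit 9272) (nat_lit 15) (nat_lit 2))))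
  (@Cl.mk (nat_lit 0x3000a000a00080006000b000a00060006000a000500080006000d000a0006) (nat_lit 0x714075005050730) (nat_lit 16) Lb.e (@T16.mk En
    (@En.n l13803 (nat_lit 4960) (nat_lit 0) (nat_lit 6))
    (@En.n l42204 (nat_lit 9374) (nat_lit 12) (nat_lit 10))
    (@En.i (nat_lit 7130) (nat_lit 2) (nat_lit 13))
    (@En.n l42205 (nat_lit 6593) (nat_lit 3) (nat_lit 6))
    (@En.n l42206 (nat_lit 9310) (nat_lit 10) (nat_lit 8))
    (@En.n l42207 (nat_lit 8820) (nat_lit 5) (nat_lit 5))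
    (@En.n l2747 (nat_lit 9822) (nat_lit 9) (nat_lit 10))
    (@En.n l25109 (nat_lit 9560) (nat_lit 10) (nat_lit 6))
    (@En.n l152 (nat_lit 8794) (nat_lit 8) (nat_lit 6))
    (@En.n l31799 (nat_lit 9411) (nat_lit 10) (nat_lit 10))
    (@En.n l50 (nat_lit 9274) (nat_lit 11) (nat_lit 11))
    (@En.n l217 (nat_lit 9469) (nat_lit 10) (nat_lit 6))
    (@En.n l20700 (nat_lit 9687) (nat_lit 13) (nat_lit 8))
    (@En.n l42208 (nat_lit 9272) (nat_lit 6) (nat_lit 10))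
    (@En.n l35169 (nat_lit 10378) (nat_lit 2) (nat_lit 10))
    (@En.n l42209 (nat_lit 9270) (nat_lit 15) (nat_lit 3))))
  (@Cl.mk (nat_lit 0x3000b000b0008000b00090005000500090005000c00080007000d00040007) (nat_lit 0x814640040760800) (nat_lit 16) Lb.e (@T16.mk En
    (@En.i (nat_lit 4965) (nat_lit 11) (nat_lit 7))
    (@En.n l2753 (nat_lit 9478) (nat_lit 15) (nat_lit 4))
    (@En.i (nat_lit 7051) (nat_lit 0) (nat_lit 13))
    (@En.n l9941 (nat_lit 6680) (nat_lit 1) (nat_lit 7))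
    (@En.i (nat_lit 9273) (nat_lit 4) (nat_lit 8))
    (@En.n l19318 (nat_lit 9275) (nat_lit 3) (nat_lit 12))
    (@En.n l26965 (nat_lit 9348) (nat_lit 6) (nat_lit 5))
    (@En.n l2747 (nat_lit 10081) (nat_lit 10) (nat_lit 9))
    (@En.n l25109 (nat_lit 9561) (nat_lit 11) (nat_lit 5))
    (@En.n l152 (nat_lit 8798) (nat_lit 9) (nat_lit 5))
    (@En.n l17149 (nat_lit 2801) (nat_lit 11) (nat_lit 9))
    (@En.i (nat_lit 8846) (nat_lit 7) (nat_lit 11))
    (@En.n l4780 (nat_lit 9688) (nat_lit 13) (nat_lit 8))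
    (@En.n l619 (nat_lit 9271) (nat_lit 5) (nat_lit 11))
    (@En.i (nat_lit 10393) (nat_lit 13) (nat_lit 11))
    (@En.n l2364 (nat_lit 9269) (nat_lit 15) (nat_lit 3))))
  (@Cl.mk (nat_lit 0x4000a00070004000b000b00090006000a000500050009000c00070006000c) (nat_lit 0x400044040046004) (nat_lit 16) Lb.e (@T16.mk En
    (@En.n l6594 (nat_lit 7050) (nat_lit 0) (nat_lit 12))
    (@En.n l27635 (nat_lit 5395) (nat_lit 10) (nat_lit 6))
    (@En.n l4172 (nat_lit 9313) (nat_lit 5) (nat_lit 7))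
    (@En.n l26262 (nat_lit 9516) (nat_lit 6) (nat_lit 12))
    (@En.n l35891 (nat_lit 10082) (nat_lit 10) (nat_lit 9))
    (@En.n l50 (nat_lit 9521) (nat_lit 11) (nat_lit 5))
    (@En.n l25906 (nat_lit 8799) (nat_lit 6) (nat_lit 5))
    (@En.i (nat_lit 2789) (nat_lit 9) (nat_lit 10))
    (@En.n l35892 (nat_lit 6866) (nat_lit 1) (nat_lit 6))
    (@En.i (nat_lit 9693) (nat_lit 7) (nat_lit 9))
    (@En.n l6249 (nat_lit 9276) (nat_lit 5) (nat_lit 11))
    (@En.n l33700 (nat_lit 10390) (nat_lit 12) (nat_lit 11))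
    (@En.n l27639 (nat_lit 9257) (nat_lit 15) (nat_lit 4))
    (@En.n l14448 (nat_lit 9274) (nat_lit 0) (nat_lit 7))
    (@En.n l1768 (nat_lit 9273) (nat_lit 1) (nat_lit 10))
    (@En.n l9969 (nat_lit 9479) (nat_lit 15) (nat_lit 4))))
  (@Cl.mk (nat_lit 0x20009000c00080007000c0004000b00070004000b000800050009000e0005) (nat_lit 0x476080400320320) (nat_lit 16) Lb.e (@T16.mk En
    (@En.n l14632 (nat_lit 9275) (nat_lit 6) (nat_lit 5))
    (@En.n l31934 (nat_lit 9278) (nat_lit 1) (nat_lit 14))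
    (@En.n l28802 (nat_lit 2785) (nat_lit 2) (nat_lit 9))
    (@En.n l152 (nat_lit 6863) (nat_lit 3) (nat_lit 5))
    (@En.n l17220 (nat_lit 5470) (nat_lit 4) (nat_lit 8))
    (@En.n l4003 (nat_lit 10391) (nat_lit 6) (nat_lit 11))
    (@En.n l14639 (nat_lit 9277) (nat_lit 6) (nat_lit 4))
    (@En.n l31935 (nat_lit 9271) (nat_lit 7) (nat_lit 7))
    (@En.n l31936 (nat_lit 9272) (nat_lit 9) (nat_lit 11))
    (@En.n l18 (nat_lit 9482) (nat_lit 9) (nat_lit 4))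
    (@En.n l31937 (nat_lit 7126) (nat_lit 11) (nat_lit 12))
    (@En.n l31938 (nat_lit 6678) (nat_lit 12) (nat_lit 7))
    (@En.n l31939 (nat_lit 9314) (nat_lit 13) (nat_lit 8))
    (@En.n l31940 (nat_lit 9531) (nat_lit 6) (nat_lit 12))
    (@En.n l31941 (nat_lit 10078) (nat_lit 4) (nat_lit 9))
    (@En.n l28 (nat_lit 9276) (nat_lit 15) (nat_lit 2))))
  (@Cl.mk (nat_lit 0x2000b000b00080007000c00050005000c0004000b000800040009000e0005) (nat_lit 0x466090040230380) (nat_lit 16) Lb.e (@T16.mk En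
    (@En.n l13752 (nat_lit 9257) (nat_lit 9) (nat_lit 5))
    (@En.n l31852 (nat_lit 8372) (nat_lit 1) (nat_lit 14))
    (@En.n l5944 (nat_lit 2687) (nat_lit 2) (nat_lit 9))
    (@En.n l6769 (nat_lit 6861) (nat_lit 3) (nat_lit 4))
    (@En.n l420 (nat_lit 5187) (nat_lit 4) (nat_lit 8))
    (@En.n l5944 (nat_lit 8759) (nat_lit 1) (nat_lit 11))
    (@En.n l10475 (nat_lit 9295) (nat_lit 6) (nat_lit 4))
    (@En.n l17820 (nat_lit 9268) (nat_lit 8) (nat_lit 12))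
    (@En.n l152 (nat_lit 9292) (nat_lit 11) (nat_lit 5))
    (@En.n l5944 (nat_lit 9419) (nat_lit 9) (nat_lit 5))
    (@En.n l13752 (nat_lit 7766) (nat_lit 11) (nat_lit 12))
    (@En.i (nat_lit 6744) (nat_lit 12) (nat_lit 7))
    (@En.n l29937 (nat_lit 9305) (nat_lit 13) (nat_lit 8))
    (@En.n l31853 (nat_lit 9304) (nat_lit 14) (nat_lit 11))
    (@En.i (nat_lit 9938) (nat_lit 11) (nat_lit 11))
    (@En.n l17 (nat_lit 9277) (nat_lit 15) (nat_lit 2))))
  (@Cl.mk (nat_lit 0x2000c0009000c00080004000c0004000b00070004000c00080005000e0004) (nat_lit 0x542609000014010) (nat_lit 16) Lb.e (@T16.mk En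
    (@En.n l12501 (nat_lit 8769) (nat_lit 15) (nat_lit 4))
    (@En.n l11001 (nat_lit 4207) (nat_lit 1) (nat_lit 14))
    (@En.n l12502 (nat_lit 6331) (nat_lit 2) (nat_lit 5))
    (@En.n l12503 (nat_lit 7520) (nat_lit 3) (nat_lit 8))
    (@En.n l12504 (nat_lit 4316) (nat_lit 5) (nat_lit 12))
    (@En.n l12505 (nat_lit 8372) (nat_lit 5) (nat_lit 4))
    (@En.n l12506 (nat_lit 9279) (nat_lit 6) (nat_lit 7))
    (@En.n l11002 (nat_lit 9280) (nat_lit 8) (nat_lit 11))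
    (@En.n l12507 (nat_lit 9288) (nat_lit 8) (nat_lit 4))
    (@En.n l12508 (nat_lit 7850) (nat_lit 10) (nat_lit 12))
    (@En.n l12509 (nat_lit 12716) (nat_lit 10) (nat_lit 4))
    (@En.n l12505 (nat_lit 9014) (nat_lit 12) (nat_lit 8))
    (@En.n l12503 (nat_lit 8085) (nat_lit 6) (nat_lit 12))
    (@En.n l12510 (nat_lit 12193) (nat_lit 14) (nat_lit 9))
    (@En.n l12511 (nat_lit 9693) (nat_lit 3) (nat_lit 12))
    (@En.n l50 (nat_lit 9278) (nat_lit 15) (nat_lit 2))))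
  (@Cl.mk (nat_lit 0x2000b00090006000c00090005000d000400070003000c0007000a000e0004) (nat_lit 0x550370a00010180) (nat_lit 16) Lb.e (@T16.mk En
    (@En.n l25980 (nat_lit 8766) (nat_lit 10) (nat_lit 4))
    (@En.i (nat_lit 4206) (nat_lit 1) (nat_lit 14))
    (@En.n l4452 (nat_lit 6168) (nat_lit 8) (nat_lit 10))
    (@En.n l25981 (nat_lit 7519) (nat_lit 3) (nat_lit 7))
    (@En.n l9874 (nat_lit 4313) (nat_lit 5) (nat_lit 12))
    (@En.n l2817 (nat_lit 9281) (nat_lit 5) (nat_lit 3))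
    (@En.n l2098 (nat_lit 5067) (nat_lit 11) (nat_lit 7))
    (@En.n l25982 (nat_lit 9284) (nat_lit 7) (nat_lit 4))
    (@En.n l1791 (nat_lit 7846) (nat_lit 9) (nat_lit 13))
    (@En.i (nat_lit 12718) (nat_lit 9) (nat_lit 5))
    (@En.n l25983 (nat_lit 9280) (nat_lit 11) (nat_lit 9))
    (@En.n l25984 (nat_lit 9278) (nat_lit 12) (nat_lit 12))
    (@En.n l4452 (nat_lit 8588) (nat_lit 13) (nat_lit 6))
    (@En.n l7723 (nat_lit 5678) (nat_lit 14) (nat_lit 9))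
    (@En.n l25985 (nat_lit 9688) (nat_lit 9) (nat_lit 11))
    (@En.n l17 (nat_lit 9279) (nat_lit 15) (nat_lit 2))))
noncomputable def a580 : T16 Cl := @T16.mk Cl
  (@Cl.mk (nat_lit 0x2000c000a000600090004000d000b00060003000b00070005000a000e0005) (nat_lit 0x660609900100270) (nat_lit 16) Lb.e (@T16.mk En
    (@En.n l24572 (nat_lit 8768) (nat_lit 9) (nat_lit 5))
    (@En.i (nat_lit 7771) (nat_lit 1) (nat_lit 14))
    (@En.n l24573 (nat_lit 9279) (nat_lit 2) (nat_lit 10))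
    (@En.n l14171 (nat_lit 9283) (nat_lit 3) (nat_lit 5))
    (@En.n l9877 (nat_lit 7517) (nat_lit 4) (nat_lit 7))
    (@En.n l16532 (nat_lit 4311) (nat_lit 6) (nat_lit 11))
    (@En.n l28 (nat_lit 9282) (nat_lit 6) (nat_lit 3))
    (@En.n l17194 (nat_lit 5066) (nat_lit 0) (nat_lit 6))
    (@En.n l24574 (nat_lit 9286) (nat_lit 9) (nat_lit 11))
    (@En.n l8331 (nat_lit 7839) (nat_lit 10) (nat_lit 13))
    (@En.n l24573 (nat_lit 11891) (nat_lit 10) (nat_lit 4))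
    (@En.n l9877 (nat_lit 9016) (nat_lit 12) (nat_lit 9))
    (@En.n l9148 (nat_lit 9048) (nat_lit 13) (nat_lit 6))
    (@En.n l24575 (nat_lit 5677) (nat_lit 14) (nat_lit 10))
    (@En.n l24576 (nat_lit 9687) (nat_lit 8) (nat_lit 12))
    (@En.n l18 (nat_lit 9280) (nat_lit 15) (nat_lit 2))))
  (@Cl.mk (nat_lit 0x2000b000a0006000b00090005000d000600050003000c0007000a000e0004) (nat_lit 0x740270a00010180) (nat_lit 16) Lb.e (@T16.mk En
    (@En.n l9601 (nat_lit 8762) (nat_lit 10) (nat_lit 4))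
    (@En.i (nat_lit 7431) (nat_lit 1) (nat_lit 14))
    (@En.n l27420 (nat_lit 6163) (nat_lit 8) (nat_lit 10))
    (@En.n l39458 (nat_lit 7518) (nat_lit 3) (nat_lit 7))
    (@En.n l4991 (nat_lit 6844) (nat_lit 5) (nat_lit 12))
    (@En.n l16981 (nat_lit 9279) (nat_lit 5) (nat_lit 3))
    (@En.n l18 (nat_lit 8513) (nat_lit 6) (nat_lit 5))
    (@En.n l39459 (nat_lit 8889) (nat_lit 7) (nat_lit 6))
    (@En.i (nat_lit 7849) (nat_lit 9) (nat_lit 13))
    (@En.n l8240 (nat_lit 8521) (nat_lit 9) (nat_lit 5))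
    (@En.n l24560 (nat_lit 9282) (nat_lit 11) (nat_lit 9))
    (@En.n l4991 (nat_lit 8372) (nat_lit 12) (nat_lit 11))
    (@En.n l27420 (nat_lit 8587) (nat_lit 13) (nat_lit 6))
    (@En.n l39460 (nat_lit 12732) (nat_lit 14) (nat_lit 10))
    (@En.n l2678 (nat_lit 9684) (nat_lit 9) (nat_lit 11))
    (@En.n l11 (nat_lit 9281) (nat_lit 15) (nat_lit 2))))
  (@Cl.mk (nat_lit 0x2000c000b000600090004000d0005000c0003000b00070004000a000e0005) (nat_lit 0x840609080100290) (nat_lit 16) Lb.e (@T16.mk En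
    (@En.n l19248 (nat_lit 8767) (nat_lit 9) (nat_lit 5))
    (@En.i (nat_lit 7770) (nat_lit 1) (nat_lit 14))
    (@En.n l22216 (nat_lit 9281) (nat_lit 2) (nat_lit 10))
    (@En.n l27776 (nat_lit 9285) (nat_lit 3) (nat_lit 4))
    (@En.n l9877 (nat_lit 7516) (nat_lit 4) (nat_lit 7))
    (@En.n l3523 (nat_lit 6845) (nat_lit 1) (nat_lit 11))
    (@En.i (nat_lit 9280) (nat_lit 6) (nat_lit 3))
    (@En.n l11706 (nat_lit 12284) (nat_lit 0) (nat_lit 12))
    (@En.i (nat_lit 8890) (nat_lit 8) (nat_lit 5))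
    (@En.n l17134 (nat_lit 7842) (nat_lit 10) (nat_lit 13))
    (@En.n l9876 (nat_lit 11890) (nat_lit 10) (nat_lit 4))
    (@En.n l9877 (nat_lit 8982) (nat_lit 12) (nat_lit 9))
    (@En.n l9878 (nat_lit 9046) (nat_lit 13) (nat_lit 6))
    (@En.n l9879 (nat_lit 11902) (nat_lit 14) (nat_lit 11))
    (@En.i (nat_lit 9685) (nat_lit 8) (nat_lit 12))
    (@En.n l18 (nat_lit 9282) (nat_lit 15) (nat_lit 2))))
  (@Cl.mk (nat_lit 0x2000c00090006000c0004000c000b000400070004000c0005000a000e0004) (nat_lit 0x85080a700000140) (nat_lit 16) Lb.e (@T16.mk En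
    (@En.n l24515 (nat_lit 9289) (nat_lit 15) (nat_lit 4))
    (@En.i (nat_lit 3046) (nat_lit 1) (nat_lit 14))
    (@En.n l24516 (nat_lit 6169) (nat_lit 2) (nat_lit 10))
    (@En.n l7 (nat_lit 10792) (nat_lit 3) (nat_lit 5))
    (@En.n l5369 (nat_lit 11107) (nat_lit 5) (nat_lit 12))
    (@En.n l24517 (nat_lit 9285) (nat_lit 5) (nat_lit 4))
    (@En.n l1992 (nat_lit 12115) (nat_lit 11) (nat_lit 7))
    (@En.n l23060 (nat_lit 9279) (nat_lit 7) (nat_lit 4))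
    (@En.n l644 (nat_lit 12667) (nat_lit 9) (nat_lit 11))
    (@En.n l9956 (nat_lit 7853) (nat_lit 10) (nat_lit 12))
    (@En.n l24518 (nat_lit 12686) (nat_lit 10) (nat_lit 4))
    (@En.n l24517 (nat_lit 9287) (nat_lit 12) (nat_lit 12))
    (@En.n l24519 (nat_lit 9988) (nat_lit 13) (nat_lit 6))
    (@En.n l17698 (nat_lit 12724) (nat_lit 14) (nat_lit 9))
    (@En.n l575 (nat_lit 11120) (nat_lit 3) (nat_lit 12))
    (@En.n l17 (nat_lit 9283) (nat_lit 15) (nat_lit 2))))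
  (@Cl.mk (nat_lit 0x2000a00090006000c000b000a0006000400070005000c0006000a000e0004) (nat_lit 0x450238000090140) (nat_lit 16) Lb.e (@T16.mk En
    (@En.n l32247 (nat_lit 9730) (nat_lit 15) (nat_lit 4))
    (@En.n l35603 (nat_lit 4465) (nat_lit 1) (nat_lit 14))
    (@En.i (nat_lit 6185) (nat_lit 2) (nat_lit 10))
    (@En.n l763 (nat_lit 5150) (nat_lit 3) (nat_lit 6))
    (@En.n l35604 (nat_lit 10477) (nat_lit 5) (nat_lit 12))
    (@En.n l19258 (nat_lit 8518) (nat_lit 5) (nat_lit 5))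
    (@En.n l10956 (nat_lit 8070) (nat_lit 6) (nat_lit 7))
    (@En.n l35605 (nat_lit 9283) (nat_lit 7) (nat_lit 4))
    (@En.n l35606 (nat_lit 12717) (nat_lit 8) (nat_lit 6))
    (@En.n l35607 (nat_lit 12679) (nat_lit 10) (nat_lit 10))
    (@En.n l35608 (nat_lit 9281) (nat_lit 11) (nat_lit 11))
    (@En.n l35609 (nat_lit 9288) (nat_lit 12) (nat_lit 12))
    (@En.i (nat_lit 8589) (nat_lit 13) (nat_lit 6))
    (@En.n l35610 (nat_lit 12046) (nat_lit 14) (nat_lit 9))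
    (@En.n l35611 (nat_lit 9477) (nat_lit 14) (nat_lit 10))
    (@En.n l50 (nat_lit 9284) (nat_lit 15) (nat_lit 2))))
  (@Cl.mk (nat_lit 0x2000c000b0006000b0004000c0005000c00050004000c0004000a000e0004) (nat_lit 0x840108080010140) (nat_lit 16) Lb.e (@T16.mk En
    (@En.n l39449 (nat_lit 12459) (nat_lit 15) (nat_lit 4))
    (@En.n l8145 (nat_lit 7341) (nat_lit 1) (nat_lit 14))
    (@En.n l3506 (nat_lit 6162) (nat_lit 2) (nat_lit 10))
    (@En.n l27834 (nat_lit 9286) (nat_lit 3) (nat_lit 4))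
    (@En.i (nat_lit 6849) (nat_lit 0) (nat_lit 12))
    (@En.n l39450 (nat_lit 12671) (nat_lit 5) (nat_lit 4))
    (@En.n l4538 (nat_lit 9281) (nat_lit 6) (nat_lit 5))
    (@En.n l8145 (nat_lit 12489) (nat_lit 8) (nat_lit 12))
    (@En.n l18840 (nat_lit 8895) (nat_lit 8) (nat_lit 5))
    (@En.n l10976 (nat_lit 7878) (nat_lit 10) (nat_lit 12))
    (@En.n l39451 (nat_lit 12108) (nat_lit 10) (nat_lit 4))
    (@En.i (nat_lit 6400) (nat_lit 12) (nat_lit 11))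
    (@En.n l39452 (nat_lit 9062) (nat_lit 13) (nat_lit 6))
    (@En.n l39453 (nat_lit 12734) (nat_lit 14) (nat_lit 11))
    (@En.n l22009 (nat_lit 9674) (nat_lit 3) (nat_lit 12))
    (@En.n l18 (nat_lit 9285) (nat_lit 15) (nat_lit 2))))
  (@Cl.mk (nat_lit 0x2000c000b0006000a0004000b0005000c000a000600050004000a000e0006) (nat_lit 0x650608090000360) (nat_lit 16) Lb.e (@T16.mk En
    (@En.n l152 (nat_lit 10285) (nat_lit 5) (nat_lit 6))
    (@En.n l39255 (nat_lit 7768) (nat_lit 1) (nat_lit 14))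
    (@En.n l17402 (nat_lit 11171) (nat_lit 2) (nat_lit 10))
    (@En.n l39255 (nat_lit 9282) (nat_lit 3) (nat_lit 4))
    (@En.n l20994 (nat_lit 12667) (nat_lit 4) (nat_lit 5))
    (@En.n l97 (nat_lit 7515) (nat_lit 5) (nat_lit 6))
    (@En.n l39256 (nat_lit 12458) (nat_lit 7) (nat_lit 10))
    (@En.n l39257 (nat_lit 10125) (nat_lit 8) (nat_lit 12))
    (@En.n l39258 (nat_lit 7984) (nat_lit 8) (nat_lit 5))
    (@En.n l39259 (nat_lit 11515) (nat_lit 10) (nat_lit 11))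
    (@En.n l28 (nat_lit 11910) (nat_lit 10) (nat_lit 4))
    (@En.n l97 (nat_lit 9992) (nat_lit 12) (nat_lit 10))
    (@En.n l39260 (nat_lit 9052) (nat_lit 13) (nat_lit 6))
    (@En.n l77 (nat_lit 11898) (nat_lit 14) (nat_lit 11))
    (@En.n l28663 (nat_lit 9697) (nat_lit 3) (nat_lit 12))
    (@En.n l3 (nat_lit 9286) (nat_lit 15) (nat_lit 2))))
  (@Cl.mk (nat_lit 0x2000d0009000c0003000b000a0004000b00070005000c00060005000e0004) (nat_lit 0x847096000020040) (nat_lit 16) Lb.e (@T16.mk En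
    (@En.n l7 (nat_lit 9290) (nat_lit 4) (nat_lit 4))
    (@En.n l3955 (nat_lit 4462) (nat_lit 1) (nat_lit 14))
    (@En.n l7 (nat_lit 6324) (nat_lit 2) (nat_lit 5))
    (@En.i (nat_lit 5857) (nat_lit 3) (nat_lit 6))
    (@En.n l2738 (nat_lit 11104) (nat_lit 9) (nat_lit 12))
    (@En.i (nat_lit 6400) (nat_lit 5) (nat_lit 5))
    (@En.n l10974 (nat_lit 9283) (nat_lit 6) (nat_lit 7))
    (@En.i (nat_lit 12772) (nat_lit 8) (nat_lit 11))
    (@En.n l4765 (nat_lit 9278) (nat_lit 8) (nat_lit 4))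
    (@En.n l3957 (nat_lit 12668) (nat_lit 10) (nat_lit 10))
    (@En.n l152 (nat_lit 7852) (nat_lit 11) (nat_lit 11))
    (@En.n l9343 (nat_lit 9291) (nat_lit 11) (nat_lit 3))
    (@En.n l158 (nat_lit 8645) (nat_lit 6) (nat_lit 12))
    (@En.i (nat_lit 12723) (nat_lit 14) (nat_lit 9))
    (@En.i (nat_lit 11112) (nat_lit 2) (nat_lit 13))
    (@En.n l18 (nat_lit 9287) (nat_lit 15) (nat_lit 2))))
  (@Cl.mk (nat_lit 0x2000b0009000c000a000900050004000b00070006000c00070005000e0004) (nat_lit 0x741270000090040) (nat_lit 16) Lb.e (@T16.mk En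
    (@En.i (nat_lit 9729) (nat_lit 15) (nat_lit 4))
    (@En.n l17701 (nat_lit 4464) (nat_lit 1) (nat_lit 14))
    (@En.n l22493 (nat_lit 6254) (nat_lit 2) (nat_lit 5))
    (@En.n l17544 (nat_lit 5153) (nat_lit 3) (nat_lit 7))
    (@En.n l22494 (nat_lit 10474) (nat_lit 5) (nat_lit 12))
    (@En.n l8434 (nat_lit 8584) (nat_lit 5) (nat_lit 6))
    (@En.n l22495 (nat_lit 9284) (nat_lit 6) (nat_lit 7))
    (@En.n l476 (nat_lit 11171) (nat_lit 8) (nat_lit 11))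
    (@En.n l9415 (nat_lit 9287) (nat_lit 8) (nat_lit 4))
    (@En.n l22496 (nat_lit 12715) (nat_lit 9) (nat_lit 5))
    (@En.n l644 (nat_lit 12674) (nat_lit 11) (nat_lit 9))
    (@En.n l22497 (nat_lit 8586) (nat_lit 12) (nat_lit 10))
    (@En.n l7130 (nat_lit 8646) (nat_lit 6) (nat_lit 12))
    (@En.i (nat_lit 12587) (nat_lit 14) (nat_lit 9))
    (@En.n l20048 (nat_lit 9476) (nat_lit 14) (nat_lit 11))
    (@En.n l17 (nat_lit 9288) (nat_lit 15) (nat_lit 2))))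
  (@Cl.mk (nat_lit 0x40004000c00090005000c0004000c000a000400070004000c000c0006000b) (nat_lit 0x94070980007103) (nat_lit 16) Lb.e (@T16.mk En
    (@En.i (nat_lit 6166) (nat_lit 0) (nat_lit 11))
    (@En.n l38939 (nat_lit 11985) (nat_lit 1) (nat_lit 6))
    (@En.n l38940 (nat_lit 9283) (nat_lit 4) (nat_lit 12))
    (@En.n l36889 (nat_lit 11095) (nat_lit 10) (nat_lit 12))
    (@En.n l63 (nat_lit 12459) (nat_lit 4) (nat_lit 4))
    (@En.n l38941 (nat_lit 12117) (nat_lit 11) (nat_lit 7))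
    (@En.n l77 (nat_lit 8766) (nat_lit 1) (nat_lit 4))
    (@En.n l38942 (nat_lit 12687) (nat_lit 0) (nat_lit 10))
    (@En.n l5653 (nat_lit 7860) (nat_lit 1) (nat_lit 12))
    (@En.n l1723 (nat_lit 12684) (nat_lit 9) (nat_lit 4))
    (@En.n l38943 (nat_lit 9290) (nat_lit 0) (nat_lit 12))
    (@En.n l27896 (nat_lit 9986) (nat_lit 1) (nat_lit 5))
    (@En.i (nat_lit 11811) (nat_lit 13) (nat_lit 9))
    (@En.n l38939 (nat_lit 11119) (nat_lit 3) (nat_lit 12))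
    (@En.n l38944 (nat_lit 12737) (nat_lit 12) (nat_lit 4))
    (@En.n l38945 (nat_lit 12036) (nat_lit 0) (nat_lit 4))))
  (@Cl.mk (nat_lit 0x3000b00090004000a00070005000c000c0007000600040004000d0009000c) (nat_lit 0x870000330000836) (nat_lit 16) Lb.e (@T16.mk En
    (@En.n l5298 (nat_lit 8643) (nat_lit 6) (nat_lit 12))
    (@En.n l23352 (nat_lit 12722) (nat_lit 13) (nat_lit 9))
    (@En.n l23353 (nat_lit 11114) (nat_lit 2) (nat_lit 13))
    (@En.n l1959 (nat_lit 12736) (nat_lit 12) (nat_lit 4))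
    (@En.n l23354 (nat_lit 10297) (nat_lit 4) (nat_lit 4))
    (@En.i (nat_lit 6325) (nat_lit 0) (nat_lit 6))
    (@En.n l23355 (nat_lit 11983) (nat_lit 1) (nat_lit 7))
    (@En.n l2337 (nat_lit 9287) (nat_lit 4) (nat_lit 12))
    (@En.n l253 (nat_lit 11098) (nat_lit 9) (nat_lit 12))
    (@En.i (nat_lit 8875) (nat_lit 9) (nat_lit 5))
    (@En.n l23356 (nat_lit 9289) (nat_lit 5) (nat_lit 7))
    (@En.n l23357 (nat_lit 12455) (nat_lit 12) (nat_lit 10))
    (@En.n l12499 (nat_lit 8769) (nat_lit 7) (nat_lit 4))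
    (@En.n l9908 (nat_lit 12675) (nat_lit 14) (nat_lit 9))
    (@En.n l152 (nat_lit 7851) (nat_lit 1) (nat_lit 11))
    (@En.n l23358 (nat_lit 10533) (nat_lit 15) (nat_lit 3))))
  (@Cl.mk (nat_lit 0x2000d000b000a0003000b000a0005000b00060005000c00060005000e0004) (nat_lit 0x881026000020040) (nat_lit 16) Lb.e (@T16.mk En
    (@En.i (nat_lit 10533) (nat_lit 4) (nat_lit 4))
    (@En.n l17701 (nat_lit 4463) (nat_lit 1) (nat_lit 14))
    (@En.n l3100 (nat_lit 6234) (nat_lit 2) (nat_lit 5))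
    (@En.n l17544 (nat_lit 5858) (nat_lit 3) (nat_lit 6))
    (@En.n l19957 (nat_lit 11101) (nat_lit 9) (nat_lit 12))
    (@En.n l8434 (nat_lit 6399) (nat_lit 5) (nat_lit 5))
    (@En.n l3100 (nat_lit 12686) (nat_lit 6) (nat_lit 6))
    (@En.n l3897 (nat_lit 12769) (nat_lit 8) (nat_lit 11))
    (@En.n l7 (nat_lit 12719) (nat_lit 8) (nat_lit 5))
    (@En.n l644 (nat_lit 12673) (nat_lit 10) (nat_lit 10))
    (@En.n l19957 (nat_lit 905) (nat_lit 11) (nat_lit 11))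
    (@En.n l20365 (nat_lit 9287) (nat_lit 11) (nat_lit 3))
    (@En.n l19961 (nat_lit 6369) (nat_lit 0) (nat_lit 10))
    (@En.i (nat_lit 9288) (nat_lit 14) (nat_lit 11))
    (@En.i (nat_lit 11116) (nat_lit 2) (nat_lit 13))
    (@En.n l17 (nat_lit 9291) (nat_lit 15) (nat_lit 2))))
  (@Cl.mk (nat_lit 0x200090008000d0005000c0003000b000700040008000e00050002000e000b) (nat_lit 0x7240405003a0075) (nat_lit 16) Lb.e (@T16.mk En
    (@En.i (nat_lit 9277) (nat_lit 14) (nat_lit 11))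
    (@En.n l644 (nat_lit 11973) (nat_lit 1) (nat_lit 14))
    (@En.n l17 (nat_lit 9292) (nat_lit 2) (nat_lit 2))
    (@En.n l2149 (nat_lit 8442) (nat_lit 3) (nat_lit 5))
    (@En.n l2149 (nat_lit 8581) (nat_lit 5) (nat_lit 14))
    (@En.n l5812 (nat_lit 2561) (nat_lit 5) (nat_lit 8))
    (@En.n l6771 (nat_lit 6860) (nat_lit 6) (nat_lit 4))
    (@En.n l420 (nat_lit 7830) (nat_lit 7) (nat_lit 7))
    (@En.n l16590 (nat_lit 10243) (nat_lit 9) (nat_lit 11))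
    (@En.i (nat_lit 9293) (nat_lit 9) (nat_lit 3))
    (@En.n l16559 (nat_lit 8960) (nat_lit 0) (nat_lit 12))
    (@En.n l117 (nat_lit 9659) (nat_lit 8) (nat_lit 5))
    (@En.n l10478 (nat_lit 7767) (nat_lit 13) (nat_lit 13))
    (@En.i (nat_lit 6750) (nat_lit 14) (nat_lit 8))
    (@En.n l420 (nat_lit 9299) (nat_lit 12) (nat_lit 9))
    (@En.n l3 (nat_lit 9292) (nat_lit 15) (nat_lit 2))))
  (@Cl.mk (nat_lit 0x200090008000d000b00060003000b000700050008000e00050002000e000a) (nat_lit 0x723500500350076) (nat_lit 16) Lb.e (@T16.mk En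
    (@En.n l10475 (nat_lit 9295) (nat_lit 14) (nat_lit 10))
    (@En.n l644 (nat_lit 12182) (nat_lit 1) (nat_lit 14))
    (@En.n l17 (nat_lit 9293) (nat_lit 2) (nat_lit 2))
    (@En.n l10476 (nat_lit 8479) (nat_lit 3) (nat_lit 5))
    (@En.n l6771 (nat_lit 8582) (nat_lit 5) (nat_lit 14))
    (@En.n l38 (nat_lit 2560) (nat_lit 10) (nat_lit 8))
    (@En.n l6771 (nat_lit 6858) (nat_lit 6) (nat_lit 5))
    (@En.n l420 (nat_lit 7832) (nat_lit 7) (nat_lit 7))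
    (@En.n l287 (nat_lit 9828) (nat_lit 9) (nat_lit 11))
    (@En.n l11 (nat_lit 9292) (nat_lit 9) (nat_lit 3))
    (@En.n l3176 (nat_lit 9264) (nat_lit 0) (nat_lit 6))
    (@En.n l10477 (nat_lit 9294) (nat_lit 12) (nat_lit 11))
    (@En.n l10478 (nat_lit 7344) (nat_lit 13) (nat_lit 13))
    (@En.i (nat_lit 6351) (nat_lit 14) (nat_lit 8))
    (@En.n l591 (nat_lit 9297) (nat_lit 12) (nat_lit 9))
    (@En.n l3 (nat_lit 9293) (nat_lit 15) (nat_lit 2))))
  (@Cl.mk (nat_lit 0x2000a0008000b0005000c000a0006000500040008000e00060002000e000b) (nat_lit 0x724074000460086) (nat_lit 16) Lb.e (@T16.mk En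
    (@En.n l1285 (nat_lit 9296) (nat_lit 14) (nat_lit 11))
    (@En.n l10755 (nat_lit 12187) (nat_lit 1) (nat_lit 14))
    (@En.n l11 (nat_lit 9294) (nat_lit 2) (nat_lit 2))
    (@En.i (nat_lit 9261) (nat_lit 3) (nat_lit 6))
    (@En.n l10756 (nat_lit 6419) (nat_lit 5) (nat_lit 14))
    (@En.n l3648 (nat_lit 9293) (nat_lit 5) (nat_lit 8))
    (@En.n l10757 (nat_lit 9292) (nat_lit 6) (nat_lit 4))
    (@En.n l10756 (nat_lit 6715) (nat_lit 7) (nat_lit 5))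
    (@En.n l199 (nat_lit 7831) (nat_lit 8) (nat_lit 6))
    (@En.i (nat_lit 9827) (nat_lit 10) (nat_lit 10))
    (@En.n l10758 (nat_lit 8959) (nat_lit 11) (nat_lit 12))
    (@En.n l10759 (nat_lit 9595) (nat_lit 8) (nat_lit 5))
    (@En.i (nat_lit 3133) (nat_lit 13) (nat_lit 11))
    (@En.n l10760 (nat_lit 6350) (nat_lit 14) (nat_lit 8))
    (@En.n l10761 (nat_lit 9298) (nat_lit 12) (nat_lit 10))
    (@En.n l7 (nat_lit 9294) (nat_lit 15) (nat_lit 2))))
  (@Cl.mk (nat_lit 0x2000a000a00080007000c000a000600060004000b000800060009000e0005) (nat_lit 0x566095000320350) (nat_lit 16) Lb.e (@T16.mk En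
    (@En.n l2848 (nat_lit 9255) (nat_lit 9) (nat_lit 5))
    (@En.n l20368 (nat_lit 8586) (nat_lit 1) (nat_lit 14))
    (@En.n l20369 (nat_lit 2564) (nat_lit 9) (nat_lit 9))
    (@En.n l20370 (nat_lit 6859) (nat_lit 3) (nat_lit 6))
    (@En.n l20371 (nat_lit 5459) (nat_lit 4) (nat_lit 8))
    (@En.n l20372 (nat_lit 7959) (nat_lit 6) (nat_lit 11))
    (@En.n l217 (nat_lit 9276) (nat_lit 6) (nat_lit 4))
    (@En.n l20373 (nat_lit 9293) (nat_lit 10) (nat_lit 6))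
    (@En.n l20374 (nat_lit 9267) (nat_lit 8) (nat_lit 6))
    (@En.n l20202 (nat_lit 9296) (nat_lit 10) (nat_lit 10))
    (@En.n l20374 (nat_lit 7247) (nat_lit 11) (nat_lit 12))
    (@En.n l6219 (nat_lit 6342) (nat_lit 12) (nat_lit 7))
    (@En.n l20375 (nat_lit 9300) (nat_lit 13) (nat_lit 8))
    (@En.n l20376 (nat_lit 9303) (nat_lit 6) (nat_lit 10))
    (@En.n l20213 (nat_lit 9722) (nat_lit 14) (nat_lit 10))
    (@En.n l28 (nat_lit 9295) (nat_lit 15) (nat_lit 2))))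
noncomputable def a581 : T16 Cl := @T16.mk Cl
  (@Cl.mk (nat_lit 0x2000b000b00090007000a00050005000c000a0007000600040009000e0006) (nat_lit 0x563040075000420) (nat_lit 16) Lb.e (@T16.mk En
    (@En.n l21734 (nat_lit 9260) (nat_lit 6) (nat_lit 6))
    (@En.n l10957 (nat_lit 6398) (nat_lit 1) (nat_lit 14))
    (@En.n l21735 (nat_lit 9295) (nat_lit 2) (nat_lit 9))
    (@En.n l4431 (nat_lit 9277) (nat_lit 3) (nat_lit 4))
    (@En.n l21736 (nat_lit 6708) (nat_lit 4) (nat_lit 6))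
    (@En.i (nat_lit 5461) (nat_lit 5) (nat_lit 7))
    (@En.n l21734 (nat_lit 7955) (nat_lit 7) (nat_lit 10))
    (@En.n l21737 (nat_lit 9373) (nat_lit 8) (nat_lit 12))
    (@En.n l20897 (nat_lit 9294) (nat_lit 11) (nat_lit 5))
    (@En.n l21738 (nat_lit 9430) (nat_lit 9) (nat_lit 5))
    (@En.n l21734 (nat_lit 2985) (nat_lit 11) (nat_lit 10))
    (@En.n l1711 (nat_lit 6343) (nat_lit 12) (nat_lit 7))
    (@En.n l4380 (nat_lit 9301) (nat_lit 13) (nat_lit 9))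
    (@En.n l134 (nat_lit 9302) (nat_lit 14) (nat_lit 11))
    (@En.n l11 (nat_lit 9720) (nat_lit 11) (nat_lit 11))
    (@En.n l107 (nat_lit 9296) (nat_lit 15) (nat_lit 2))))
  (@Cl.mk (nat_lit 0x20006000b00090007000d000a00050003000a0007000a00060009000e0006) (nat_lit 0x660940080204a0) (nat_lit 16) Lb.e (@T16.mk En
    (@En.n l23736 (nat_lit 8822) (nat_lit 8) (nat_lit 6))
    (@En.n l23737 (nat_lit 8587) (nat_lit 1) (nat_lit 14))
    (@En.n l1897 (nat_lit 7346) (nat_lit 2) (nat_lit 9))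
    (@En.n l23738 (nat_lit 9295) (nat_lit 3) (nat_lit 6))
    (@En.n l23737 (nat_lit 6769) (nat_lit 4) (nat_lit 10))
    (@En.i (nat_lit 5475) (nat_lit 5) (nat_lit 7))
    (@En.n l23739 (nat_lit 8832) (nat_lit 7) (nat_lit 10))
    (@En.n l4659 (nat_lit 9299) (nat_lit 7) (nat_lit 3))
    (@En.n l23740 (nat_lit 9265) (nat_lit 8) (nat_lit 5))
    (@En.n l1767 (nat_lit 9298) (nat_lit 10) (nat_lit 10))
    (@En.n l23741 (nat_lit 7242) (nat_lit 11) (nat_lit 13))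
    (@En.n l3395 (nat_lit 5091) (nat_lit 12) (nat_lit 7))
    (@En.n l14550 (nat_lit 8824) (nat_lit 13) (nat_lit 9))
    (@En.n l23742 (nat_lit 9300) (nat_lit 14) (nat_lit 11))
    (@En.i (nat_lit 12010) (nat_lit 13) (nat_lit 6))
    (@En.n l50 (nat_lit 9297) (nat_lit 15) (nat_lit 2))))
  (@Cl.mk (nat_lit 0x20007000c000a0007000a0004000b000900060009000600050009000e0007) (nat_lit 0x660308704005a0) (nat_lit 16) Lb.e (@T16.mk En
    (@En.n l23726 (nat_lit 8825) (nat_lit 6) (nat_lit 7))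
    (@En.n l12404 (nat_lit 6388) (nat_lit 1) (nat_lit 14))
    (@En.n l4425 (nat_lit 9297) (nat_lit 2) (nat_lit 9))
    (@En.n l28 (nat_lit 9299) (nat_lit 3) (nat_lit 5))
    (@En.n l502 (nat_lit 9296) (nat_lit 4) (nat_lit 6))
    (@En.n l12404 (nat_lit 6770) (nat_lit 5) (nat_lit 9))
    (@En.i (nat_lit 5491) (nat_lit 6) (nat_lit 6))
    (@En.n l24245 (nat_lit 8834) (nat_lit 8) (nat_lit 9))
    (@En.n l24246 (nat_lit 10040) (nat_lit 9) (nat_lit 11))
    (@En.n l24247 (nat_lit 9594) (nat_lit 9) (nat_lit 4))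
    (@En.n l24245 (nat_lit 3138) (nat_lit 11) (nat_lit 10))
    (@En.n l699 (nat_lit 5085) (nat_lit 12) (nat_lit 7))
    (@En.n l4428 (nat_lit 8828) (nat_lit 13) (nat_lit 10))
    (@En.n l4429 (nat_lit 9301) (nat_lit 14) (nat_lit 12))
    (@En.n l17 (nat_lit 11613) (nat_lit 13) (nat_lit 7))
    (@En.n l18 (nat_lit 9298) (nat_lit 15) (nat_lit 2))))
  (@Cl.mk (nat_lit 0x20006000c00090007000d0004000b0003000a0007000a00050009000e0006) (nat_lit 0x86090600020430) (nat_lit 16) Lb.e (@T16.mk En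
    (@En.n l8357 (nat_lit 9348) (nat_lit 8) (nat_lit 6))
    (@En.n l1063 (nat_lit 8588) (nat_lit 1) (nat_lit 14))
    (@En.n l11861 (nat_lit 7315) (nat_lit 2) (nat_lit 9))
    (@En.n l31824 (nat_lit 9276) (nat_lit 3) (nat_lit 5))
    (@En.n l1063 (nat_lit 6771) (nat_lit 4) (nat_lit 10))
    (@En.i (nat_lit 5479) (nat_lit 5) (nat_lit 7))
    (@En.n l22877 (nat_lit 10398) (nat_lit 7) (nat_lit 10))
    (@En.n l1080 (nat_lit 9297) (nat_lit 7) (nat_lit 3))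
    (@En.n l7645 (nat_lit 11195) (nat_lit 9) (nat_lit 11))
    (@En.n l117 (nat_lit 9796) (nat_lit 9) (nat_lit 4))
    (@En.n l14948 (nat_lit 7244) (nat_lit 11) (nat_lit 13))
    (@En.n l699 (nat_lit 5046) (nat_lit 12) (nat_lit 7))
    (@En.n l2642 (nat_lit 9362) (nat_lit 13) (nat_lit 9))
    (@En.n l23346 (nat_lit 9305) (nat_lit 14) (nat_lit 12))
    (@En.n l17 (nat_lit 11629) (nat_lit 13) (nat_lit 6))
    (@En.n l18 (nat_lit 9299) (nat_lit 15) (nat_lit 2))))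
  (@Cl.mk (nat_lit 0x2000b00080006000c00090005000c0004000a000800040007000a000e0006) (nat_lit 0x5508404082004b0) (nat_lit 16) Lb.e (@T16.mk En
    (@En.n l28 (nat_lit 8823) (nat_lit 8) (nat_lit 6))
    (@En.n l24372 (nat_lit 9044) (nat_lit 1) (nat_lit 14))
    (@En.i (nat_lit 7352) (nat_lit 8) (nat_lit 10))
    (@En.n l7264 (nat_lit 9303) (nat_lit 11) (nat_lit 7))
    (@En.n l9616 (nat_lit 7471) (nat_lit 4) (nat_lit 4))
    (@En.n l9770 (nat_lit 5462) (nat_lit 5) (nat_lit 8))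
    (@En.n l2582 (nat_lit 9543) (nat_lit 1) (nat_lit 10))
    (@En.n l36250 (nat_lit 9314) (nat_lit 7) (nat_lit 4))
    (@En.n l11834 (nat_lit 8824) (nat_lit 9) (nat_lit 12))
    (@En.n l36251 (nat_lit 9268) (nat_lit 9) (nat_lit 5))
    (@En.n l36252 (nat_lit 9301) (nat_lit 11) (nat_lit 9))
    (@En.n l36253 (nat_lit 7240) (nat_lit 12) (nat_lit 12))
    (@En.n l36254 (nat_lit 5107) (nat_lit 13) (nat_lit 6))
    (@En.n l9770 (nat_lit 1440) (nat_lit 14) (nat_lit 8))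
    (@En.n l13056 (nat_lit 9719) (nat_lit 10) (nat_lit 11))
    (@En.n l7 (nat_lit 9300) (nat_lit 15) (nat_lit 2))))
  (@Cl.mk (nat_lit 0x2000c0009000600090004000c000b00090007000400070005000a000e0007) (nat_lit 0x5203048700005b0) (nat_lit 16) Lb.e (@T16.mk En
    (@En.n l13296 (nat_lit 8826) (nat_lit 5) (nat_lit 7))
    (@En.n l13296 (nat_lit 6392) (nat_lit 1) (nat_lit 14))
    (@En.n l31310 (nat_lit 9300) (nat_lit 2) (nat_lit 10))
    (@En.n l31311 (nat_lit 9305) (nat_lit 3) (nat_lit 5))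
    (@En.n l612 (nat_lit 9302) (nat_lit 4) (nat_lit 7))
    (@En.n l20181 (nat_lit 9449) (nat_lit 5) (nat_lit 4))
    (@En.i (nat_lit 5466) (nat_lit 6) (nat_lit 7))
    (@En.n l690 (nat_lit 9540) (nat_lit 1) (nat_lit 9))
    (@En.n l217 (nat_lit 9371) (nat_lit 9) (nat_lit 11))
    (@En.n l3939 (nat_lit 8828) (nat_lit 10) (nat_lit 12))
    (@En.n l31312 (nat_lit 9456) (nat_lit 10) (nat_lit 4))
    (@En.n l1166 (nat_lit 3143) (nat_lit 12) (nat_lit 9))
    (@En.n l31313 (nat_lit 2891) (nat_lit 13) (nat_lit 6))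
    (@En.i (nat_lit 1198) (nat_lit 14) (nat_lit 9))
    (@En.n l10491 (nat_lit 9717) (nat_lit 3) (nat_lit 12))
    (@En.n l107 (nat_lit 9301) (nat_lit 15) (nat_lit 2))))
  (@Cl.mk (nat_lit 0x2000b000800060009000e00050002000c000a000800070004000a000e0006) (nat_lit 0x520320077100420) (nat_lit 16) Lb.e (@T16.mk En
    (@En.n l18728 (nat_lit 8275) (nat_lit 7) (nat_lit 6))
    (@En.n l23902 (nat_lit 6422) (nat_lit 9) (nat_lit 14))
    (@En.n l11834 (nat_lit 9303) (nat_lit 10) (nat_lit 10))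
    (@En.n l24904 (nat_lit 9304) (nat_lit 3) (nat_lit 4))
    (@En.n l36902 (nat_lit 6709) (nat_lit 4) (nat_lit 7))
    (@En.i (nat_lit 821) (nat_lit 5) (nat_lit 8))
    (@En.n l36903 (nat_lit 7950) (nat_lit 14) (nat_lit 10))
    (@En.n l564 (nat_lit 9365) (nat_lit 8) (nat_lit 12))
    (@En.n l7 (nat_lit 9302) (nat_lit 8) (nat_lit 2))
    (@En.n l28 (nat_lit 9296) (nat_lit 9) (nat_lit 5))
    (@En.n l23902 (nat_lit 7536) (nat_lit 11) (nat_lit 14))
    (@En.n l781 (nat_lit 2980) (nat_lit 2) (nat_lit 9))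
    (@En.n l13 (nat_lit 3459) (nat_lit 13) (nat_lit 6))
    (@En.n l1501 (nat_lit 1196) (nat_lit 14) (nat_lit 8))
    (@En.n l18734 (nat_lit 11870) (nat_lit 6) (nat_lit 11))
    (@En.n l107 (nat_lit 9302) (nat_lit 15) (nat_lit 2))))
  (@Cl.mk (nat_lit 0x20005000b00090007000a000e00050002000a00070006000b0009000e0006) (nat_lit 0x9203a005007430) (nat_lit 16) Lb.e (@T16.mk En
    (@En.n l36265 (nat_lit 9295) (nat_lit 8) (nat_lit 6))
    (@En.n l25377 (nat_lit 9304) (nat_lit 10) (nat_lit 14))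
    (@En.n l12295 (nat_lit 9302) (nat_lit 11) (nat_lit 9))
    (@En.n l36266 (nat_lit 6892) (nat_lit 3) (nat_lit 11))
    (@En.n l4851 (nat_lit 3458) (nat_lit 4) (nat_lit 6))
    (@En.n l7085 (nat_lit 1439) (nat_lit 5) (nat_lit 7))
    (@En.n l36267 (nat_lit 11869) (nat_lit 7) (nat_lit 10))
    (@En.n l28 (nat_lit 9303) (nat_lit 7) (nat_lit 2))
    (@En.n l36268 (nat_lit 6896) (nat_lit 8) (nat_lit 5))
    (@En.n l36269 (nat_lit 8370) (nat_lit 10) (nat_lit 14))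
    (@En.i (nat_lit 2686) (nat_lit 11) (nat_lit 10))
    (@En.n l36270 (nat_lit 6870) (nat_lit 12) (nat_lit 7))
    (@En.i (nat_lit 5457) (nat_lit 13) (nat_lit 9))
    (@En.n l36271 (nat_lit 7951) (nat_lit 14) (nat_lit 11))
    (@En.n l36272 (nat_lit 9530) (nat_lit 13) (nat_lit 5))
    (@En.n l3 (nat_lit 9303) (nat_lit 15) (nat_lit 2))))
  (@Cl.mk (nat_lit 0x2000b00070006000b000e00050002000c0005000b00090004000a000e0005) (nat_lit 0x500720050940760) (nat_lit 16) Lb.e (@T16.mk En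
    (@En.i (nat_lit 6897) (nat_lit 7) (nat_lit 5))
    (@En.i (nat_lit 8369) (nat_lit 9) (nat_lit 14))
    (@En.n l6172 (nat_lit 2689) (nat_lit 10) (nat_lit 10))
    (@En.n l1925 (nat_lit 7948) (nat_lit 3) (nat_lit 4))
    (@En.n l11300 (nat_lit 5456) (nat_lit 4) (nat_lit 9))
    (@En.n l24420 (nat_lit 10259) (nat_lit 13) (nat_lit 11))
    (@En.n l24421 (nat_lit 9303) (nat_lit 14) (nat_lit 5))
    (@En.n l16924 (nat_lit 9300) (nat_lit 8) (nat_lit 12))
    (@En.n l17 (nat_lit 9304) (nat_lit 8) (nat_lit 2))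
    (@En.n l24422 (nat_lit 9277) (nat_lit 9) (nat_lit 5))
    (@En.i (nat_lit 8284) (nat_lit 4) (nat_lit 14))
    (@En.n l250 (nat_lit 6893) (nat_lit 2) (nat_lit 11))
    (@En.n l24423 (nat_lit 3456) (nat_lit 3) (nat_lit 6))
    (@En.n l24424 (nat_lit 1438) (nat_lit 14) (nat_lit 7))
    (@En.n l9726 (nat_lit 11868) (nat_lit 6) (nat_lit 11))
    (@En.n l28 (nat_lit 9304) (nat_lit 15) (nat_lit 2))))
  (@Cl.mk (nat_lit 0x2000c00080006000c0004000b000b0004000a000800050005000a000e0006) (nat_lit 0x750904300200460) (nat_lit 16) Lb.e (@T16.mk En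
    (@En.n l1968 (nat_lit 9315) (nat_lit 5) (nat_lit 6))
    (@En.n l23331 (nat_lit 9040) (nat_lit 1) (nat_lit 14))
    (@En.n l5389 (nat_lit 7949) (nat_lit 2) (nat_lit 10))
    (@En.n l23332 (nat_lit 9531) (nat_lit 11) (nat_lit 5))
    (@En.n l23333 (nat_lit 9465) (nat_lit 4) (nat_lit 5))
    (@En.n l23334 (nat_lit 7640) (nat_lit 5) (nat_lit 8))
    (@En.i (nat_lit 10177) (nat_lit 7) (nat_lit 10))
    (@En.n l23335 (nat_lit 9300) (nat_lit 7) (nat_lit 4))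
    (@En.n l23336 (nat_lit 9307) (nat_lit 5) (nat_lit 11))
    (@En.n l23334 (nat_lit 9362) (nat_lit 10) (nat_lit 11))
    (@En.n l50 (nat_lit 9317) (nat_lit 10) (nat_lit 4))
    (@En.n l23337 (nat_lit 6037) (nat_lit 12) (nat_lit 12))
    (@En.n l19609 (nat_lit 5108) (nat_lit 13) (nat_lit 6))
    (@En.n l23338 (nat_lit 1417) (nat_lit 14) (nat_lit 8))
    (@En.n l23334 (nat_lit 9463) (nat_lit 3) (nat_lit 12))
    (@En.n l28 (nat_lit 9305) (nat_lit 15) (nat_lit 2))))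
  (@Cl.mk (nat_lit 0x20006000c000a0007000e0004000200090006000e000a00020009000e0007) (nat_lit 0x550900504305b0) (nat_lit 16) Lb.e (@T16.mk En
    (@En.n l15781 (nat_lit 8941) (nat_lit 7) (nat_lit 7))
    (@En.n l7489 (nat_lit 5813) (nat_lit 9) (nat_lit 14))
    (@En.n l17549 (nat_lit 9303) (nat_lit 2) (nat_lit 9))
    (@En.n l11 (nat_lit 9306) (nat_lit 3) (nat_lit 2))
    (@En.n l35796 (nat_lit 8976) (nat_lit 4) (nat_lit 10))
    (@En.n l15783 (nat_lit 2984) (nat_lit 6) (nat_lit 14))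
    (@En.i (nat_lit 5255) (nat_lit 6) (nat_lit 6))
    (@En.n l29587 (nat_lit 10345) (nat_lit 3) (nat_lit 9))
    (@En.n l3 (nat_lit 9306) (nat_lit 8) (nat_lit 2))
    (@En.n l21112 (nat_lit 8939) (nat_lit 9) (nat_lit 4))
    (@En.n l35797 (nat_lit 5840) (nat_lit 11) (nat_lit 14))
    (@En.n l1723 (nat_lit 3672) (nat_lit 12) (nat_lit 7))
    (@En.n l1253 (nat_lit 9320) (nat_lit 13) (nat_lit 10))
    (@En.n l3749 (nat_lit 9307) (nat_lit 10) (nat_lit 12))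
    (@En.n l7882 (nat_lit 8920) (nat_lit 5) (nat_lit 6))
    (@En.n l50 (nat_lit 9306) (nat_lit 15) (nat_lit 2))))
  (@Cl.mk (nat_lit 0x2000a000e00070002000c00090006000d0004000b000300090007000e0005) (nat_lit 0x5b0045060206050) (nat_lit 16) Lb.e (@T16.mk En
    (@En.n l22704 (nat_lit 9305) (nat_lit 4) (nat_lit 5))
    (@En.n l38683 (nat_lit 12252) (nat_lit 1) (nat_lit 14))
    (@En.n l6825 (nat_lit 902) (nat_lit 2) (nat_lit 7))
    (@En.n l1792 (nat_lit 10218) (nat_lit 3) (nat_lit 9))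
    (@En.n l21759 (nat_lit 9309) (nat_lit 4) (nat_lit 3))
    (@En.n l6825 (nat_lit 11631) (nat_lit 10) (nat_lit 11))
    (@En.n l38684 (nat_lit 9311) (nat_lit 6) (nat_lit 4))
    (@En.n l27752 (nat_lit 6032) (nat_lit 8) (nat_lit 13))
    (@En.n l38685 (nat_lit 6646) (nat_lit 8) (nat_lit 6))
    (@En.n l38686 (nat_lit 1748) (nat_lit 14) (nat_lit 9))
    (@En.n l19713 (nat_lit 9461) (nat_lit 11) (nat_lit 12))
    (@En.n l67 (nat_lit 9307) (nat_lit 11) (nat_lit 2))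
    (@En.n l9530 (nat_lit 9308) (nat_lit 13) (nat_lit 7))
    (@En.i (nat_lit 8982) (nat_lit 1) (nat_lit 14))
    (@En.n l35266 (nat_lit 7951) (nat_lit 2) (nat_lit 10))
    (@En.n l17 (nat_lit 9307) (nat_lit 15) (nat_lit 2))))
  (@Cl.mk (nat_lit 0x2000b00070007000c00080005000d0004000a0003000900090008000e0006) (nat_lit 0x600340601067360) (nat_lit 16) Lb.e (@T16.mk En
    (@En.n l30280 (nat_lit 9315) (nat_lit 8) (nat_lit 6))
    (@En.n l35856 (nat_lit 11064) (nat_lit 1) (nat_lit 14))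
    (@En.n l55 (nat_lit 7467) (nat_lit 2) (nat_lit 8))
    (@En.n l8015 (nat_lit 9307) (nat_lit 3) (nat_lit 9))
    (@En.n l35857 (nat_lit 10219) (nat_lit 4) (nat_lit 9))
    (@En.n l10266 (nat_lit 9310) (nat_lit 5) (nat_lit 3))
    (@En.n l28162 (nat_lit 6463) (nat_lit 0) (nat_lit 10))
    (@En.n l12096 (nat_lit 9312) (nat_lit 7) (nat_lit 4))
    (@En.n l1690 (nat_lit 6035) (nat_lit 9) (nat_lit 13))
    (@En.i (nat_lit 1924) (nat_lit 9) (nat_lit 5))
    (@En.n l21760 (nat_lit 1414) (nat_lit 11) (nat_lit 8))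
    (@En.n l35857 (nat_lit 9450) (nat_lit 12) (nat_lit 12))
    (@En.n l35858 (nat_lit 11014) (nat_lit 9) (nat_lit 7))
    (@En.n l2038 (nat_lit 7469) (nat_lit 14) (nat_lit 7))
    (@En.n l23295 (nat_lit 7959) (nat_lit 9) (nat_lit 11))
    (@En.n l17 (nat_lit 9308) (nat_lit 15) (nat_lit 2))))
  (@Cl.mk (nat_lit 0x2000a000e00070002000b00090006000d000a0005000300090007000e0006) (nat_lit 0x5900650a3006030) (nat_lit 16) Lb.e (@T16.mk En
    (@En.n l14670 (nat_lit 9314) (nat_lit 4) (nat_lit 6))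
    (@En.n l13919 (nat_lit 12254) (nat_lit 1) (nat_lit 14))
    (@En.n l33366 (nat_lit 899) (nat_lit 2) (nat_lit 7))
    (@En.i (nat_lit 8210) (nat_lit 3) (nat_lit 9))
    (@En.n l33367 (nat_lit 9307) (nat_lit 4) (nat_lit 3))
    (@En.n l10818 (nat_lit 5024) (nat_lit 0) (nat_lit 5))
    (@En.n l14725 (nat_lit 9371) (nat_lit 11) (nat_lit 10))
    (@En.n l33368 (nat_lit 6031) (nat_lit 8) (nat_lit 13))
    (@En.n l24724 (nat_lit 5025) (nat_lit 8) (nat_lit 6))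
    (@En.n l28079 (nat_lit 1746) (nat_lit 14) (nat_lit 9))
    (@En.n l33369 (nat_lit 10049) (nat_lit 11) (nat_lit 11))
    (@En.n l18 (nat_lit 9309) (nat_lit 11) (nat_lit 2))
    (@En.n l33370 (nat_lit 9310) (nat_lit 13) (nat_lit 7))
    (@En.n l33371 (nat_lit 9016) (nat_lit 1) (nat_lit 14))
    (@En.n l33372 (nat_lit 7954) (nat_lit 2) (nat_lit 10))
    (@En.n l28 (nat_lit 9309) (nat_lit 15) (nat_lit 2))))
  (@Cl.mk (nat_lit 0x2000b00070007000b00080005000d000900050003000900090008000e0007) (nat_lit 0x600540630017540) (nat_lit 16) Lb.e (@T16.mk En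
    (@En.n l20183 (nat_lit 9313) (nat_lit 11) (nat_lit 7))
    (@En.n l97 (nat_lit 11057) (nat_lit 1) (nat_lit 14))
    (@En.n l35871 (nat_lit 9018) (nat_lit 2) (nat_lit 8))
    (@En.n l35872 (nat_lit 9309) (nat_lit 3) (nat_lit 9))
    (@En.n l16653 (nat_lit 8211) (nat_lit 4) (nat_lit 9))
    (@En.n l35873 (nat_lit 9308) (nat_lit 5) (nat_lit 3))
    (@En.i (nat_lit 4959) (nat_lit 0) (nat_lit 5))
    (@En.n l16649 (nat_lit 9372) (nat_lit 8) (nat_lit 9))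
    (@En.n l35874 (nat_lit 6034) (nat_lit 9) (nat_lit 13))
    (@En.n l1643 (nat_lit 1925) (nat_lit 9) (nat_lit 5))
    (@En.n l4306 (nat_lit 1413) (nat_lit 11) (nat_lit 8))
    (@En.n l7406 (nat_lit 10051) (nat_lit 12) (nat_lit 11))
    (@En.n l61 (nat_lit 11015) (nat_lit 9) (nat_lit 7))
    (@En.n l8516 (nat_lit 9907) (nat_lit 14) (nat_lit 7))
    (@En.n l20182 (nat_lit 7957) (nat_lit 9) (nat_lit 11))
    (@En.n l107 (nat_lit 9310) (nat_lit 15) (nat_lit 2))))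
  (@Cl.mk (nat_lit 0x20009000e00070002000c000b000a00070004000b000500090006000e0005) (nat_lit 0x5b0037300805090) (nat_lit 16) Lb.e (@T16.mk En
    (@En.n l25037 (nat_lit 9317) (nat_lit 4) (nat_lit 5))
    (@En.n l35798 (nat_lit 8070) (nat_lit 1) (nat_lit 14))
    (@En.n l12683 (nat_lit 2521) (nat_lit 2) (nat_lit 6))
    (@En.i (nat_lit 9147) (nat_lit 3) (nat_lit 9))
    (@En.n l35799 (nat_lit 3179) (nat_lit 4) (nat_lit 5))
    (@En.n l3348 (nat_lit 9800) (nat_lit 10) (nat_lit 11))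
    (@En.n l24384 (nat_lit 8996) (nat_lit 6) (nat_lit 4))
    (@En.n l35800 (nat_lit 5345) (nat_lit 7) (nat_lit 7))
    (@En.n l2922 (nat_lit 6616) (nat_lit 9) (nat_lit 10))
    (@En.n l28892 (nat_lit 9309) (nat_lit 10) (nat_lit 11))
    (@En.n l35801 (nat_lit 9418) (nat_lit 11) (nat_lit 12))
    (@En.n l107 (nat_lit 9311) (nat_lit 11) (nat_lit 2))
    (@En.n l23239 (nat_lit 9312) (nat_lit 13) (nat_lit 7))
    (@En.n l35802 (nat_lit 8975) (nat_lit 1) (nat_lit 14))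
    (@En.n l35803 (nat_lit 9405) (nat_lit 2) (nat_lit 9))
    (@En.n l18 (nat_lit 9311) (nat_lit 15) (nat_lit 2))))
noncomputable def a582 : T16 Cl := @T16.mk Cl
  (@Cl.mk (nat_lit 0x2000a00070007000c000b000900060004000a0005000900090007000e0006) (nat_lit 0x5002630030060a0) (nat_lit 16) Lb.e (@T16.mk En
    (@En.n l20108 (nat_lit 9316) (nat_lit 8) (nat_lit 6))
    (@En.n l20109 (nat_lit 11553) (nat_lit 1) (nat_lit 14))
    (@En.n l18566 (nat_lit 9483) (nat_lit 2) (nat_lit 7))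
    (@En.n l20110 (nat_lit 9311) (nat_lit 3) (nat_lit 9))
    (@En.n l20111 (nat_lit 9339) (nat_lit 4) (nat_lit 9))
    (@En.n l19733 (nat_lit 4964) (nat_lit 5) (nat_lit 5))
    (@En.i (nat_lit 9801) (nat_lit 7) (nat_lit 10))
    (@En.n l20112 (nat_lit 8997) (nat_lit 7) (nat_lit 4))
    (@En.n l18566 (nat_lit 1926) (nat_lit 8) (nat_lit 6))
    (@En.n l20113 (nat_lit 6682) (nat_lit 10) (nat_lit 9))
    (@En.n l20114 (nat_lit 9310) (nat_lit 11) (nat_lit 11))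
    (@En.n l20113 (nat_lit 9430) (nat_lit 12) (nat_lit 12))
    (@En.n l20115 (nat_lit 9514) (nat_lit 9) (nat_lit 7))
    (@En.n l20116 (nat_lit 9797) (nat_lit 14) (nat_lit 7))
    (@En.n l20117 (nat_lit 9413) (nat_lit 7) (nat_lit 10))
    (@En.n l28 (nat_lit 9312) (nat_lit 15) (nat_lit 2))))
  (@Cl.mk (nat_lit 0x4000a000a000900070007000b00060006000a00070005000c000900090006) (nat_lit 0x33005003008340) (nat_lit 16) Lb.e (@T16.mk En
    (@En.n l41418 (nat_lit 9273) (nat_lit 0) (nat_lit 6))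
    (@En.n l35996 (nat_lit 9310) (nat_lit 7) (nat_lit 9))
    (@En.n l30081 (nat_lit 9368) (nat_lit 7) (nat_lit 9))
    (@En.n l41419 (nat_lit 6042) (nat_lit 3) (nat_lit 12))
    (@En.n l41420 (nat_lit 5113) (nat_lit 11) (nat_lit 5))
    (@En.n l18 (nat_lit 1411) (nat_lit 5) (nat_lit 7))
    (@En.i (nat_lit 9375) (nat_lit 9) (nat_lit 10))
    (@En.n l77 (nat_lit 9520) (nat_lit 10) (nat_lit 6))
    (@En.n l21431 (nat_lit 9023) (nat_lit 8) (nat_lit 6))
    (@En.i (nat_lit 7958) (nat_lit 8) (nat_lit 11))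
    (@En.i (nat_lit 9517) (nat_lit 9) (nat_lit 7))
    (@En.n l5653 (nat_lit 9468) (nat_lit 9) (nat_lit 7))
    (@En.n l601 (nat_lit 9017) (nat_lit 7) (nat_lit 9))
    (@En.n l41421 (nat_lit 9314) (nat_lit 6) (nat_lit 10))
    (@En.n l41422 (nat_lit 9335) (nat_lit 11) (nat_lit 10))
    (@En.n l15469 (nat_lit 9315) (nat_lit 12) (nat_lit 4))))
  (@Cl.mk (nat_lit 0x2000a00080006000c000a000a00060004000a000800060006000a000e0006) (nat_lit 0x450934002100490) (nat_lit 16) Lb.e (@T16.mk En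
    (@En.n l35368 (nat_lit 9313) (nat_lit 8) (nat_lit 6))
    (@En.n l21497 (nat_lit 9014) (nat_lit 1) (nat_lit 14))
    (@En.n l15890 (nat_lit 7952) (nat_lit 2) (nat_lit 10))
    (@En.n l36684 (nat_lit 9530) (nat_lit 10) (nat_lit 6))
    (@En.n l21497 (nat_lit 9467) (nat_lit 4) (nat_lit 6))
    (@En.i (nat_lit 904) (nat_lit 5) (nat_lit 8))
    (@En.n l19286 (nat_lit 9334) (nat_lit 7) (nat_lit 10))
    (@En.n l36685 (nat_lit 9305) (nat_lit 7) (nat_lit 4))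
    (@En.i (nat_lit 9272) (nat_lit 8) (nat_lit 6))
    (@En.n l19282 (nat_lit 9309) (nat_lit 6) (nat_lit 10))
    (@En.n l12593 (nat_lit 9365) (nat_lit 11) (nat_lit 10))
    (@En.n l36686 (nat_lit 6041) (nat_lit 12) (nat_lit 12))
    (@En.n l2322 (nat_lit 6618) (nat_lit 13) (nat_lit 6))
    (@En.n l5728 (nat_lit 1423) (nat_lit 14) (nat_lit 8))
    (@En.i (nat_lit 9515) (nat_lit 7) (nat_lit 10))
    (@En.n l50 (nat_lit 9314) (nat_lit 15) (nat_lit 2))))
  (@Cl.mk (nat_lit 0x4000a000a0004000a000a000900060006000b00060006000c00070005000c) (nat_lit 0x420113005004005) (nat_lit 16) Lb.e (@T16.mk En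
    (@En.n l217 (nat_lit 6039) (nat_lit 0) (nat_lit 12))
    (@En.n l29510 (nat_lit 5109) (nat_lit 1) (nat_lit 5))
    (@En.n l29511 (nat_lit 1412) (nat_lit 5) (nat_lit 7))
    (@En.n l20609 (nat_lit 9454) (nat_lit 1) (nat_lit 12))
    (@En.n l29512 (nat_lit 9351) (nat_lit 10) (nat_lit 6))
    (@En.n l29513 (nat_lit 9494) (nat_lit 5) (nat_lit 6))
    (@En.n l29514 (nat_lit 6867) (nat_lit 9) (nat_lit 11))
    (@En.n l29515 (nat_lit 9516) (nat_lit 10) (nat_lit 6))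
    (@En.n l18752 (nat_lit 9358) (nat_lit 8) (nat_lit 6))
    (@En.n l29516 (nat_lit 9488) (nat_lit 7) (nat_lit 9))
    (@En.n l29517 (nat_lit 9305) (nat_lit 6) (nat_lit 10))
    (@En.n l19333 (nat_lit 8758) (nat_lit 12) (nat_lit 10))
    (@En.n l29518 (nat_lit 8823) (nat_lit 15) (nat_lit 4))
    (@En.n l29519 (nat_lit 9308) (nat_lit 6) (nat_lit 10))
    (@En.n l29520 (nat_lit 8820) (nat_lit 1) (nat_lit 10))
    (@En.n l19250 (nat_lit 9316) (nat_lit 15) (nat_lit 4))))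
  (@Cl.mk (nat_lit 0x4000a000a0006000a000a000800060006000a00060006000c000a00080006) (nat_lit 0x740325004008420) (nat_lit 16) Lb.e (@T16.mk En
    (@En.n l35859 (nat_lit 5111) (nat_lit 0) (nat_lit 6))
    (@En.i (nat_lit 6692) (nat_lit 1) (nat_lit 8))
    (@En.n l35860 (nat_lit 9313) (nat_lit 6) (nat_lit 10))
    (@En.n l35861 (nat_lit 9429) (nat_lit 3) (nat_lit 12))
    (@En.n l30174 (nat_lit 9505) (nat_lit 10) (nat_lit 6))
    (@En.n l35862 (nat_lit 9356) (nat_lit 5) (nat_lit 6))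
    (@En.n l35860 (nat_lit 9412) (nat_lit 9) (nat_lit 10))
    (@En.n l17 (nat_lit 9503) (nat_lit 10) (nat_lit 6))
    (@En.n l18752 (nat_lit 9464) (nat_lit 8) (nat_lit 6))
    (@En.n l35863 (nat_lit 9478) (nat_lit 8) (nat_lit 8))
    (@En.n l20502 (nat_lit 9317) (nat_lit 6) (nat_lit 10))
    (@En.n l8681 (nat_lit 9337) (nat_lit 9) (nat_lit 10))
    (@En.n l35864 (nat_lit 9319) (nat_lit 3) (nat_lit 6))
    (@En.n l35865 (nat_lit 9312) (nat_lit 6) (nat_lit 10))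
    (@En.n l14256 (nat_lit 9641) (nat_lit 1) (nat_lit 10))
    (@En.n l35861 (nat_lit 9387) (nat_lit 15) (nat_lit 4))))
  (@Cl.mk (nat_lit 0x2000c000a000900070004000b000b0006000a0007000500050009000e0006) (nat_lit 0x4520089010004b0) (nat_lit 16) Lb.e (@T16.mk En
    (@En.n l5770 (nat_lit 9316) (nat_lit 5) (nat_lit 6))
    (@En.n l35116 (nat_lit 8973) (nat_lit 1) (nat_lit 14))
    (@En.n l35117 (nat_lit 9404) (nat_lit 2) (nat_lit 9))
    (@En.n l1003 (nat_lit 9502) (nat_lit 11) (nat_lit 5))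
    (@En.n l35116 (nat_lit 9462) (nat_lit 4) (nat_lit 5))
    (@En.n l32774 (nat_lit 2526) (nat_lit 5) (nat_lit 7))
    (@En.i (nat_lit 9142) (nat_lit 9) (nat_lit 10))
    (@En.n l35118 (nat_lit 9318) (nat_lit 7) (nat_lit 6))
    (@En.n l35119 (nat_lit 9311) (nat_lit 5) (nat_lit 11))
    (@En.n l11419 (nat_lit 9798) (nat_lit 10) (nat_lit 11))
    (@En.n l13196 (nat_lit 9380) (nat_lit 10) (nat_lit 4))
    (@En.n l3866 (nat_lit 5114) (nat_lit 12) (nat_lit 7))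
    (@En.n l14223 (nat_lit 6615) (nat_lit 13) (nat_lit 9))
    (@En.n l28167 (nat_lit 9314) (nat_lit 14) (nat_lit 10))
    (@En.n l10139 (nat_lit 9420) (nat_lit 3) (nat_lit 12))
    (@En.n l28 (nat_lit 9317) (nat_lit 15) (nat_lit 2))))
  (@Cl.mk (nat_lit 0x2000b000a0007000a00080005000c0006000a0006000400090008000e0006) (nat_lit 0x4504306000074c0) (nat_lit 16) Lb.e (@T16.mk En
    (@En.n l32341 (nat_lit 9319) (nat_lit 12) (nat_lit 6))
    (@En.n l37721 (nat_lit 8890) (nat_lit 1) (nat_lit 14))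
    (@En.n l28801 (nat_lit 9406) (nat_lit 2) (nat_lit 8))
    (@En.n l35117 (nat_lit 9418) (nat_lit 3) (nat_lit 9))
    (@En.n l9876 (nat_lit 9461) (nat_lit 4) (nat_lit 4))
    (@En.n l17221 (nat_lit 3347) (nat_lit 5) (nat_lit 6))
    (@En.i (nat_lit 10807) (nat_lit 1) (nat_lit 10))
    (@En.n l37722 (nat_lit 3177) (nat_lit 7) (nat_lit 6))
    (@En.n l37723 (nat_lit 9802) (nat_lit 9) (nat_lit 12))
    (@En.n l9877 (nat_lit 9445) (nat_lit 9) (nat_lit 5))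
    (@En.n l37724 (nat_lit 6605) (nat_lit 11) (nat_lit 8))
    (@En.n l9161 (nat_lit 9311) (nat_lit 8) (nat_lit 10))
    (@En.n l17027 (nat_lit 9456) (nat_lit 13) (nat_lit 7))
    (@En.n l31936 (nat_lit 9272) (nat_lit 14) (nat_lit 10))
    (@En.n l37725 (nat_lit 8409) (nat_lit 10) (nat_lit 11))
    (@En.n l28 (nat_lit 9318) (nat_lit 15) (nat_lit 2))))
  (@Cl.mk (nat_lit 0x5000a000900060006000b000a0006000900070005000b0006000a000a0007) (nat_lit 0x450086040060310) (nat_lit 16) Lb.e (@T16.mk En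
    (@En.n l35383 (nat_lit 9477) (nat_lit 0) (nat_lit 7))
    (@En.n l35384 (nat_lit 9318) (nat_lit 6) (nat_lit 10))
    (@En.n l35385 (nat_lit 10409) (nat_lit 9) (nat_lit 10))
    (@En.n l25557 (nat_lit 3180) (nat_lit 14) (nat_lit 6))
    (@En.i (nat_lit 9873) (nat_lit 0) (nat_lit 11))
    (@En.n l27678 (nat_lit 9434) (nat_lit 11) (nat_lit 5))
    (@En.n l35386 (nat_lit 6598) (nat_lit 9) (nat_lit 7))
    (@En.i (nat_lit 9312) (nat_lit 9) (nat_lit 9))
    (@En.n l35387 (nat_lit 9455) (nat_lit 2) (nat_lit 6))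
    (@En.n l35388 (nat_lit 9273) (nat_lit 6) (nat_lit 10))
    (@En.n l35389 (nat_lit 9428) (nat_lit 9) (nat_lit 11))
    (@En.n l35390 (nat_lit 9508) (nat_lit 10) (nat_lit 6))
    (@En.n l35391 (nat_lit 8795) (nat_lit 3) (nat_lit 6))
    (@En.n l35392 (nat_lit 9409) (nat_lit 7) (nat_lit 9))
    (@En.n l35393 (nat_lit 9420) (nat_lit 10) (nat_lit 10))
    (@En.n l35394 (nat_lit 9463) (nat_lit 11) (nat_lit 5))))
  (@Cl.mk (nat_lit 0x20006000a0006000e000c0002000800060004000e000a0002000a000e0008) (nat_lit 0x408206007402a6) (nat_lit 16) Lb.e (@T16.mk En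
    (@En.n l27313 (nat_lit 8966) (nat_lit 6) (nat_lit 8))
    (@En.n l1063 (nat_lit 12287) (nat_lit 8) (nat_lit 14))
    (@En.n l14413 (nat_lit 5457) (nat_lit 2) (nat_lit 10))
    (@En.n l28 (nat_lit 9320) (nat_lit 3) (nat_lit 2))
    (@En.n l287 (nat_lit 8963) (nat_lit 4) (nat_lit 10))
    (@En.n l14413 (nat_lit 1782) (nat_lit 6) (nat_lit 14))
    (@En.n l27314 (nat_lit 9030) (nat_lit 6) (nat_lit 4))
    (@En.i (nat_lit 5868) (nat_lit 14) (nat_lit 6))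
    (@En.n l27315 (nat_lit 11589) (nat_lit 4) (nat_lit 8))
    (@En.n l3 (nat_lit 9320) (nat_lit 9) (nat_lit 2))
    (@En.n l649 (nat_lit 9035) (nat_lit 11) (nat_lit 12))
    (@En.n l27316 (nat_lit 4765) (nat_lit 12) (nat_lit 14))
    (@En.n l699 (nat_lit 4634) (nat_lit 13) (nat_lit 6))
    (@En.i (nat_lit 2042) (nat_lit 3) (nat_lit 10))
    (@En.n l11611 (nat_lit 10524) (nat_lit 4) (nat_lit 6))
    (@En.n l18 (nat_lit 9320) (nat_lit 15) (nat_lit 2))))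
  (@Cl.mk (nat_lit 0x20007000a000e000900020007000b0006000c0009000700050004000e0009) (nat_lit 0x36000302600064) (nat_lit 16) Lb.e (@T16.mk En
    (@En.n l35138 (nat_lit 9327) (nat_lit 5) (nat_lit 9))
    (@En.i (nat_lit 1777) (nat_lit 1) (nat_lit 14))
    (@En.n l18 (nat_lit 8177) (nat_lit 2) (nat_lit 4))
    (@En.i (nat_lit 7783) (nat_lit 3) (nat_lit 5))
    (@En.n l19472 (nat_lit 4710) (nat_lit 4) (nat_lit 7))
    (@En.n l61 (nat_lit 9323) (nat_lit 5) (nat_lit 9))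
    (@En.n l12436 (nat_lit 5788) (nat_lit 12) (nat_lit 12))
    (@En.n l7471 (nat_lit 4640) (nat_lit 7) (nat_lit 6))
    (@En.n l19472 (nat_lit 2139) (nat_lit 9) (nat_lit 11))
    (@En.n l12438 (nat_lit 8884) (nat_lit 10) (nat_lit 7))
    (@En.n l28 (nat_lit 9321) (nat_lit 10) (nat_lit 2))
    (@En.n l6888 (nat_lit 9324) (nat_lit 12) (nat_lit 9))
    (@En.n l19472 (nat_lit 6443) (nat_lit 13) (nat_lit 14))
    (@En.n l2199 (nat_lit 9320) (nat_lit 2) (nat_lit 10))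
    (@En.i (nat_lit 9363) (nat_lit 3) (nat_lit 7))
    (@En.n l3 (nat_lit 9321) (nat_lit 15) (nat_lit 2))))
  (@Cl.mk (nat_lit 0x20005000a000e000a00020007000c0006000c00060004000b0004000e0009) (nat_lit 0x3a600103002065) (nat_lit 16) Lb.e (@T16.mk En
    (@En.i (nat_lit 9331) (nat_lit 5) (nat_lit 9))
    (@En.i (nat_lit 9323) (nat_lit 1) (nat_lit 14))
    (@En.i (nat_lit 9321) (nat_lit 2) (nat_lit 4))
    (@En.n l7085 (nat_lit 11342) (nat_lit 3) (nat_lit 11))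
    (@En.i (nat_lit 7782) (nat_lit 4) (nat_lit 4))
    (@En.i (nat_lit 10985) (nat_lit 5) (nat_lit 6))
    (@En.n l8122 (nat_lit 12752) (nat_lit 7) (nat_lit 12))
    (@En.n l7471 (nat_lit 5266) (nat_lit 7) (nat_lit 6))
    (@En.n l2544 (nat_lit 769) (nat_lit 9) (nat_lit 12))
    (@En.i (nat_lit 9795) (nat_lit 10) (nat_lit 7))
    (@En.n l28 (nat_lit 9322) (nat_lit 10) (nat_lit 2))
    (@En.n l19999 (nat_lit 9326) (nat_lit 12) (nat_lit 10))
    (@En.n l1578 (nat_lit 11669) (nat_lit 13) (nat_lit 14))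
    (@En.n l617 (nat_lit 9035) (nat_lit 2) (nat_lit 10))
    (@En.i (nat_lit 7578) (nat_lit 3) (nat_lit 5))
    (@En.n l3 (nat_lit 9322) (nat_lit 15) (nat_lit 2))))
  (@Cl.mk (nat_lit 0x200070005000a000e000a00020008000c0006000900060004000b000e0008) (nat_lit 0x4700320500254) (nat_lit 16) Lb.e (@T16.mk En
    (@En.n l21389 (nat_lit 9328) (nat_lit 6) (nat_lit 8))
    (@En.n l3858 (nat_lit 1783) (nat_lit 8) (nat_lit 14))
    (@En.n l7186 (nat_lit 11347) (nat_lit 2) (nat_lit 11))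
    (@En.i (nat_lit 7784) (nat_lit 3) (nat_lit 4))
    (@En.n l21390 (nat_lit 12204) (nat_lit 4) (nat_lit 6))
    (@En.n l21391 (nat_lit 11639) (nat_lit 5) (nat_lit 9))
    (@En.n l7471 (nat_lit 5267) (nat_lit 6) (nat_lit 6))
    (@En.n l2544 (nat_lit 2141) (nat_lit 8) (nat_lit 12))
    (@En.i (nat_lit 9978) (nat_lit 9) (nat_lit 8))
    (@En.n l28 (nat_lit 9323) (nat_lit 9) (nat_lit 2))
    (@En.n l19999 (nat_lit 9325) (nat_lit 11) (nat_lit 10))
    (@En.n l1578 (nat_lit 11666) (nat_lit 12) (nat_lit 14))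
    (@En.n l617 (nat_lit 9321) (nat_lit 13) (nat_lit 10))
    (@En.n l17 (nat_lit 9322) (nat_lit 14) (nat_lit 5))
    (@En.i (nat_lit 9366) (nat_lit 4) (nat_lit 7))
    (@En.n l3 (nat_lit 9323) (nat_lit 15) (nat_lit 2))))
  (@Cl.mk (nat_lit 0x20008000b000900090006000a0005000b00080007000700060005000e000a) (nat_lit 0x577401024000015) (nat_lit 16) Lb.e (@T16.mk En
    (@En.n l30936 (nat_lit 9330) (nat_lit 14) (nat_lit 10))
    (@En.n l7315 (nat_lit 1776) (nat_lit 1) (nat_lit 14))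
    (@En.n l30937 (nat_lit 8180) (nat_lit 2) (nat_lit 5))
    (@En.n l30938 (nat_lit 12228) (nat_lit 3) (nat_lit 6))
    (@En.n l30939 (nat_lit 9321) (nat_lit 4) (nat_lit 7))
    (@En.i (nat_lit 10912) (nat_lit 5) (nat_lit 7))
    (@En.n l30940 (nat_lit 9325) (nat_lit 6) (nat_lit 8))
    (@En.n l8012 (nat_lit 5621) (nat_lit 8) (nat_lit 11))
    (@En.n l8017 (nat_lit 4639) (nat_lit 8) (nat_lit 5))
    (@En.i (nat_lit 2142) (nat_lit 10) (nat_lit 10))
    (@En.n l30941 (nat_lit 9980) (nat_lit 11) (nat_lit 6))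
    (@En.n l30942 (nat_lit 12843) (nat_lit 7) (nat_lit 9))
    (@En.n l30943 (nat_lit 11746) (nat_lit 13) (nat_lit 9))
    (@En.n l15520 (nat_lit 8966) (nat_lit 7) (nat_lit 11))
    (@En.n l30938 (nat_lit 9364) (nat_lit 3) (nat_lit 8))
    (@En.n l17 (nat_lit 9324) (nat_lit 15) (nat_lit 2))))
  (@Cl.mk (nat_lit 0x200080005000b000a000a0007000b00050008000600060005000b000e0009) (nat_lit 0x508850103000335) (nat_lit 16) Lb.e (@T16.mk En
    (@En.n l16678 (nat_lit 9329) (nat_lit 2) (nat_lit 9))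
    (@En.n l1539 (nat_lit 1775) (nat_lit 4) (nat_lit 14))
    (@En.n l16679 (nat_lit 11339) (nat_lit 2) (nat_lit 11))
    (@En.i (nat_lit 9333) (nat_lit 3) (nat_lit 5))
    (@En.n l2491 (nat_lit 9323) (nat_lit 4) (nat_lit 6))
    (@En.n l16680 (nat_lit 10915) (nat_lit 5) (nat_lit 6))
    (@En.n l8107 (nat_lit 11641) (nat_lit 6) (nat_lit 8))
    (@En.n l16681 (nat_lit 4643) (nat_lit 7) (nat_lit 5))
    (@En.n l16680 (nat_lit 2147) (nat_lit 9) (nat_lit 11))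
    (@En.n l1539 (nat_lit 9979) (nat_lit 10) (nat_lit 7))
    (@En.n l14990 (nat_lit 12841) (nat_lit 6) (nat_lit 10))
    (@En.n l16682 (nat_lit 11674) (nat_lit 12) (nat_lit 10))
    (@En.n l16683 (nat_lit 9324) (nat_lit 13) (nat_lit 11))
    (@En.n l17 (nat_lit 9326) (nat_lit 14) (nat_lit 5))
    (@En.n l8089 (nat_lit 9370) (nat_lit 0) (nat_lit 8))
    (@En.n l3 (nat_lit 9325) (nat_lit 15) (nat_lit 2))))
  (@Cl.mk (nat_lit 0x20005000b000a000a0006000b0005000b000600060005000b0005000e000a) (nat_lit 0x95401030004046) (nat_lit 16) Lb.e (@T16.mk En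
    (@En.i (nat_lit 9332) (nat_lit 1) (nat_lit 10))
    (@En.i (nat_lit 9325) (nat_lit 1) (nat_lit 14))
    (@En.n l32032 (nat_lit 9324) (nat_lit 2) (nat_lit 5))
    (@En.n l7944 (nat_lit 11337) (nat_lit 3) (nat_lit 11))
    (@En.i (nat_lit 12260) (nat_lit 4) (nat_lit 5))
    (@En.n l2491 (nat_lit 9322) (nat_lit 5) (nat_lit 6))
    (@En.n l14987 (nat_lit 12094) (nat_lit 6) (nat_lit 6))
    (@En.n l32033 (nat_lit 12607) (nat_lit 8) (nat_lit 11))
    (@En.n l14989 (nat_lit 4642) (nat_lit 8) (nat_lit 5))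
    (@En.n l32034 (nat_lit 773) (nat_lit 10) (nat_lit 11))
    (@En.n l3100 (nat_lit 9981) (nat_lit 11) (nat_lit 6))
    (@En.n l14990 (nat_lit 12842) (nat_lit 12) (nat_lit 10))
    (@En.n l4380 (nat_lit 11677) (nat_lit 13) (nat_lit 10))
    (@En.n l617 (nat_lit 9224) (nat_lit 14) (nat_lit 11))
    (@En.i (nat_lit 7579) (nat_lit 13) (nat_lit 5))
    (@En.n l3 (nat_lit 9326) (nat_lit 15) (nat_lit 2))))
  (@Cl.mk (nat_lit 0x200070007000b0007000c000a0008000500040009000900060009000e0008) (nat_lit 0x3098100360616) (nat_lit 16) Lb.e (@T16.mk En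
    (@En.n l31268 (nat_lit 9330) (nat_lit 10) (nat_lit 8))
    (@En.n l1836 (nat_lit 6441) (nat_lit 1) (nat_lit 14))
    (@En.n l37832 (nat_lit 8963) (nat_lit 2) (nat_lit 9))
    (@En.n l37833 (nat_lit 9798) (nat_lit 3) (nat_lit 6))
    (@En.n l61 (nat_lit 12818) (nat_lit 7) (nat_lit 9))
    (@En.n l11010 (nat_lit 9594) (nat_lit 5) (nat_lit 9))
    (@En.n l10862 (nat_lit 8182) (nat_lit 6) (nat_lit 4))
    (@En.n l37834 (nat_lit 5693) (nat_lit 7) (nat_lit 5))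
    (@En.i (nat_lit 71) (nat_lit 1) (nat_lit 8))
    (@En.n l4684 (nat_lit 9328) (nat_lit 10) (nat_lit 10))
    (@En.i (nat_lit 5309) (nat_lit 11) (nat_lit 12))
    (@En.n l11010 (nat_lit 5261) (nat_lit 12) (nat_lit 7))
    (@En.n l37832 (nat_lit 11207) (nat_lit 13) (nat_lit 11))
    (@En.n l37835 (nat_lit 9321) (nat_lit 9) (nat_lit 7))
    (@En.n l37836 (nat_lit 8882) (nat_lit 13) (nat_lit 7))
    (@En.n l50 (nat_lit 9327) (nat_lit 15) (nat_lit 2))))
noncomputable def a583 : T16 Cl := @T16.mk Cl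
  (@Cl.mk (nat_lit 0x200080008000c0007000a00070004000c00080008000600040009000e0009) (nat_lit 0x543070023300720) (nat_lit 16) Lb.e (@T16.mk En
    (@En.i (nat_lit 9329) (nat_lit 13) (nat_lit 9))
    (@En.n l1501 (nat_lit 8043) (nat_lit 1) (nat_lit 14))
    (@En.n l13399 (nat_lit 9327) (nat_lit 2) (nat_lit 9))
    (@En.n l35911 (nat_lit 9331) (nat_lit 3) (nat_lit 4))
    (@En.i (nat_lit 9799) (nat_lit 4) (nat_lit 6))
    (@En.n l575 (nat_lit 12819) (nat_lit 8) (nat_lit 8))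
    (@En.n l35912 (nat_lit 9592) (nat_lit 6) (nat_lit 8))
    (@En.n l396 (nat_lit 10115) (nat_lit 8) (nat_lit 12))
    (@En.n l12771 (nat_lit 7790) (nat_lit 8) (nat_lit 4))
    (@En.n l13399 (nat_lit 12208) (nat_lit 10) (nat_lit 7))
    (@En.i (nat_lit 10129) (nat_lit 11) (nat_lit 10))
    (@En.n l4869 (nat_lit 5262) (nat_lit 12) (nat_lit 7))
    (@En.n l12771 (nat_lit 11201) (nat_lit 13) (nat_lit 12))
    (@En.n l35913 (nat_lit 9323) (nat_lit 8) (nat_lit 8))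
    (@En.n l12771 (nat_lit 9727) (nat_lit 5) (nat_lit 8))
    (@En.n l3 (nat_lit 9328) (nat_lit 15) (nat_lit 2))))
  (@Cl.mk (nat_lit 0x4000a0009000900070007000b00060009000700070005000c000900090007) (nat_lit 0x874002040003430) (nat_lit 16) Lb.e (@T16.mk En
    (@En.n l13389 (nat_lit 9640) (nat_lit 0) (nat_lit 7))
    (@En.n l575 (nat_lit 11510) (nat_lit 7) (nat_lit 9))
    (@En.n l32022 (nat_lit 9589) (nat_lit 7) (nat_lit 9))
    (@En.n l32023 (nat_lit 9342) (nat_lit 3) (nat_lit 12))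
    (@En.n l32024 (nat_lit 11801) (nat_lit 11) (nat_lit 5))
    (@En.n l152 (nat_lit 9328) (nat_lit 9) (nat_lit 7))
    (@En.n l32025 (nat_lit 10913) (nat_lit 6) (nat_lit 7))
    (@En.i (nat_lit 10131) (nat_lit 9) (nat_lit 9))
    (@En.n l32026 (nat_lit 5245) (nat_lit 8) (nat_lit 6))
    (@En.n l7475 (nat_lit 11202) (nat_lit 8) (nat_lit 11))
    (@En.n l32027 (nat_lit 9325) (nat_lit 9) (nat_lit 7))
    (@En.n l32028 (nat_lit 9938) (nat_lit 9) (nat_lit 7))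
    (@En.n l32029 (nat_lit 11513) (nat_lit 7) (nat_lit 9))
    (@En.n l32030 (nat_lit 11673) (nat_lit 7) (nat_lit 9))
    (@En.n l17346 (nat_lit 9330) (nat_lit 11) (nat_lit 10))
    (@En.n l32031 (nat_lit 9332) (nat_lit 15) (nat_lit 4))))
  (@Cl.mk (nat_lit 0x5000a000a0007000a0008000800060006000a0006000b0009000800080006) (nat_lit 0x450755002025220) (nat_lit 16) Lb.e (@T16.mk En
    (@En.n l42437 (nat_lit 11802) (nat_lit 10) (nat_lit 6))
    (@En.n l40078 (nat_lit 9327) (nat_lit 8) (nat_lit 8))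
    (@En.n l42438 (nat_lit 10909) (nat_lit 8) (nat_lit 8))
    (@En.n l20621 (nat_lit 9329) (nat_lit 7) (nat_lit 9))
    (@En.n l33383 (nat_lit 10282) (nat_lit 9) (nat_lit 11))
    (@En.n l42439 (nat_lit 5260) (nat_lit 5) (nat_lit 6))
    (@En.n l30905 (nat_lit 11209) (nat_lit 9) (nat_lit 10))
    (@En.n l24503 (nat_lit 9324) (nat_lit 10) (nat_lit 6))
    (@En.n l30191 (nat_lit 9739) (nat_lit 10) (nat_lit 6))
    (@En.n l11 (nat_lit 9891) (nat_lit 8) (nat_lit 8))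
    (@En.n l9966 (nat_lit 11744) (nat_lit 8) (nat_lit 8))
    (@En.n l30191 (nat_lit 8962) (nat_lit 8) (nat_lit 10))
    (@En.n l1393 (nat_lit 9641) (nat_lit 9) (nat_lit 7))
    (@En.n l77 (nat_lit 11509) (nat_lit 6) (nat_lit 10))
    (@En.i (nat_lit 9590) (nat_lit 10) (nat_lit 10))
    (@En.n l217 (nat_lit 8184) (nat_lit 11) (nat_lit 5))))
  (@Cl.mk (nat_lit 0x200070007000c0007000c00070004000c00040009000900040009000e0009) (nat_lit 0x3080020420740) (nat_lit 16) Lb.e (@T16.mk En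
    (@En.n l19999 (nat_lit 9332) (nat_lit 13) (nat_lit 9))
    (@En.n l1578 (nat_lit 11403) (nat_lit 1) (nat_lit 14))
    (@En.n l617 (nat_lit 8965) (nat_lit 2) (nat_lit 9))
    (@En.n l2125 (nat_lit 9915) (nat_lit 3) (nat_lit 4))
    (@En.n l35136 (nat_lit 12820) (nat_lit 7) (nat_lit 9))
    (@En.n l35137 (nat_lit 9913) (nat_lit 5) (nat_lit 9))
    (@En.n l35138 (nat_lit 9327) (nat_lit 6) (nat_lit 4))
    (@En.n l35139 (nat_lit 11354) (nat_lit 8) (nat_lit 12))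
    (@En.i (nat_lit 7780) (nat_lit 8) (nat_lit 4))
    (@En.n l35140 (nat_lit 12214) (nat_lit 10) (nat_lit 7))
    (@En.n l9135 (nat_lit 12398) (nat_lit 11) (nat_lit 12))
    (@En.n l7471 (nat_lit 5264) (nat_lit 12) (nat_lit 7))
    (@En.n l899 (nat_lit 11197) (nat_lit 13) (nat_lit 12))
    (@En.n l152 (nat_lit 9322) (nat_lit 9) (nat_lit 7))
    (@En.i (nat_lit 9726) (nat_lit 7) (nat_lit 7))
    (@En.n l28 (nat_lit 9331) (nat_lit 15) (nat_lit 2))))
  (@Cl.mk (nat_lit 0x4000a0009000900060006000b0006000b000700070005000c0005000a000a) (nat_lit 0x873002060004054) (nat_lit 16) Lb.e (@T16.mk En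
    (@En.n l3536 (nat_lit 11512) (nat_lit 6) (nat_lit 10))
    (@En.n l40057 (nat_lit 9918) (nat_lit 1) (nat_lit 10))
    (@En.n l40058 (nat_lit 9330) (nat_lit 15) (nat_lit 5))
    (@En.n l14297 (nat_lit 11307) (nat_lit 0) (nat_lit 12))
    (@En.i (nat_lit 11720) (nat_lit 11) (nat_lit 5))
    (@En.n l2491 (nat_lit 9331) (nat_lit 9) (nat_lit 7))
    (@En.n l40059 (nat_lit 12093) (nat_lit 6) (nat_lit 7))
    (@En.n l40060 (nat_lit 10283) (nat_lit 9) (nat_lit 11))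
    (@En.n l40061 (nat_lit 5265) (nat_lit 8) (nat_lit 6))
    (@En.n l40062 (nat_lit 11198) (nat_lit 9) (nat_lit 11))
    (@En.n l152 (nat_lit 9326) (nat_lit 10) (nat_lit 6))
    (@En.n l40063 (nat_lit 9937) (nat_lit 8) (nat_lit 6))
    (@En.n l14990 (nat_lit 11515) (nat_lit 7) (nat_lit 9))
    (@En.n l40057 (nat_lit 11716) (nat_lit 7) (nat_lit 9))
    (@En.n l617 (nat_lit 8964) (nat_lit 2) (nat_lit 10))
    (@En.n l2125 (nat_lit 9917) (nat_lit 15) (nat_lit 4))))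
  (@Cl.mk (nat_lit 0x200070005000a0009000d0007000b00030006000900070005000b000e0009) (nat_lit 0x8060200400263) (nat_lit 16) Lb.e (@T16.mk En
    (@En.n l5646 (nat_lit 11801) (nat_lit 9) (nat_lit 9))
    (@En.i (nat_lit 1774) (nat_lit 4) (nat_lit 14))
    (@En.i (nat_lit 12031) (nat_lit 2) (nat_lit 11))
    (@En.n l3100 (nat_lit 7786) (nat_lit 3) (nat_lit 5))
    (@En.n l1535 (nat_lit 11671) (nat_lit 4) (nat_lit 7))
    (@En.n l9021 (nat_lit 11371) (nat_lit 5) (nat_lit 9))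
    (@En.n l8434 (nat_lit 9323) (nat_lit 6) (nat_lit 6))
    (@En.n l8107 (nat_lit 12227) (nat_lit 7) (nat_lit 3))
    (@En.n l3329 (nat_lit 2149) (nat_lit 0) (nat_lit 11))
    (@En.i (nat_lit 11115) (nat_lit 10) (nat_lit 7))
    (@En.n l7 (nat_lit 11679) (nat_lit 11) (nat_lit 13))
    (@En.n l1540 (nat_lit 11675) (nat_lit 12) (nat_lit 9))
    (@En.n l617 (nat_lit 12228) (nat_lit 13) (nat_lit 10))
    (@En.n l17 (nat_lit 12260) (nat_lit 14) (nat_lit 5))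
    (@En.i (nat_lit 10675) (nat_lit 6) (nat_lit 7))
    (@En.n l3 (nat_lit 9333) (nat_lit 15) (nat_lit 2))))
  (@Cl.mk (nat_lit 0x3000a000900070005000b000b0006000a0007000500050009000d0006000b) (nat_lit 0x540012010005801) (nat_lit 16) Lb.e (@T16.mk En
    (@En.n l13913 (nat_lit 2408) (nat_lit 0) (nat_lit 11))
    (@En.n l61 (nat_lit 9335) (nat_lit 5) (nat_lit 6))
    (@En.n l13914 (nat_lit 10013) (nat_lit 6) (nat_lit 13))
    (@En.n l26277 (nat_lit 10729) (nat_lit 10) (nat_lit 9))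
    (@En.n l16886 (nat_lit 9344) (nat_lit 11) (nat_lit 5))
    (@En.n l13914 (nat_lit 9951) (nat_lit 5) (nat_lit 5))
    (@En.n l2767 (nat_lit 3483) (nat_lit 6) (nat_lit 7))
    (@En.n l19812 (nat_lit 9141) (nat_lit 9) (nat_lit 10))
    (@En.n l936 (nat_lit 10379) (nat_lit 8) (nat_lit 6))
    (@En.n l55 (nat_lit 8210) (nat_lit 5) (nat_lit 11))
    (@En.i (nat_lit 6846) (nat_lit 11) (nat_lit 11))
    (@En.i (nat_lit 8122) (nat_lit 11) (nat_lit 5))
    (@En.n l8356 (nat_lit 8803) (nat_lit 13) (nat_lit 7))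
    (@En.n l26277 (nat_lit 5967) (nat_lit 7) (nat_lit 9))
    (@En.n l20108 (nat_lit 9316) (nat_lit 2) (nat_lit 10))
    (@En.n l18 (nat_lit 8143) (nat_lit 15) (nat_lit 3))))
  (@Cl.mk (nat_lit 0x5000a000a0006000a0009000800060006000a0006000b0007000a00080006) (nat_lit 0x120815002010420) (nat_lit 16) Lb.e (@T16.mk En
    (@En.n l33828 (nat_lit 8804) (nat_lit 10) (nat_lit 6))
    (@En.n l41288 (nat_lit 5965) (nat_lit 8) (nat_lit 8))
    (@En.n l41289 (nat_lit 9505) (nat_lit 8) (nat_lit 10))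
    (@En.n l40313 (nat_lit 5285) (nat_lit 2) (nat_lit 7))
    (@En.n l19733 (nat_lit 8223) (nat_lit 9) (nat_lit 11))
    (@En.n l41290 (nat_lit 9840) (nat_lit 5) (nat_lit 6))
    (@En.n l40811 (nat_lit 10724) (nat_lit 9) (nat_lit 10))
    (@En.n l41291 (nat_lit 9343) (nat_lit 10) (nat_lit 6))
    (@En.n l41292 (nat_lit 9955) (nat_lit 10) (nat_lit 6))
    (@En.n l3745 (nat_lit 10018) (nat_lit 8) (nat_lit 8))
    (@En.n l17 (nat_lit 8143) (nat_lit 7) (nat_lit 9))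
    (@En.n l28165 (nat_lit 9336) (nat_lit 9) (nat_lit 10))
    (@En.n l936 (nat_lit 10378) (nat_lit 3) (nat_lit 6))
    (@En.n l55 (nat_lit 8211) (nat_lit 6) (nat_lit 10))
    (@En.i (nat_lit 6843) (nat_lit 10) (nat_lit 10))
    (@En.n l644 (nat_lit 8141) (nat_lit 11) (nat_lit 5))))
  (@Cl.mk (nat_lit 0x3000900070005000b000b000a000800070005000500090006000d000b0008) (nat_lit 0x500127100040a72) (nat_lit 16) Lb.e (@T16.mk En
    (@En.n l30081 (nat_lit 6952) (nat_lit 0) (nat_lit 8))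
    (@En.n l35785 (nat_lit 8758) (nat_lit 5) (nat_lit 11))
    (@En.n l22117 (nat_lit 8143) (nat_lit 2) (nat_lit 13))
    (@En.n l35786 (nat_lit 6299) (nat_lit 3) (nat_lit 6))
    (@En.n l1589 (nat_lit 10069) (nat_lit 4) (nat_lit 9))
    (@En.n l77 (nat_lit 9341) (nat_lit 11) (nat_lit 5))
    (@En.n l15471 (nat_lit 9204) (nat_lit 6) (nat_lit 5))
    (@En.n l20385 (nat_lit 8854) (nat_lit 9) (nat_lit 7))
    (@En.n l15471 (nat_lit 8719) (nat_lit 1) (nat_lit 8))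
    (@En.n l28758 (nat_lit 10184) (nat_lit 10) (nat_lit 10))
    (@En.n l35787 (nat_lit 9338) (nat_lit 5) (nat_lit 11))
    (@En.n l35788 (nat_lit 6853) (nat_lit 12) (nat_lit 11))
    (@En.n l15469 (nat_lit 8753) (nat_lit 11) (nat_lit 5))
    (@En.n l33582 (nat_lit 8805) (nat_lit 14) (nat_lit 7))
    (@En.i (nat_lit 9313) (nat_lit 1) (nat_lit 9))
    (@En.n l35789 (nat_lit 9337) (nat_lit 15) (nat_lit 3))))
  (@Cl.mk (nat_lit 0x3000900070004000b000b000a000900070005000500090006000d0007000c) (nat_lit 0x100792500050904) (nat_lit 16) Lb.e (@T16.mk En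
    (@En.n l5757 (nat_lit 8679) (nat_lit 0) (nat_lit 12))
    (@En.i (nat_lit 9342) (nat_lit 4) (nat_lit 7))
    (@En.n l19333 (nat_lit 9334) (nat_lit 2) (nat_lit 13))
    (@En.n l41266 (nat_lit 6301) (nat_lit 3) (nat_lit 6))
    (@En.i (nat_lit 10068) (nat_lit 4) (nat_lit 9))
    (@En.n l18752 (nat_lit 9340) (nat_lit 11) (nat_lit 5))
    (@En.n l17 (nat_lit 9203) (nat_lit 6) (nat_lit 5))
    (@En.n l39723 (nat_lit 8849) (nat_lit 7) (nat_lit 7))
    (@En.n l2824 (nat_lit 9146) (nat_lit 7) (nat_lit 9))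
    (@En.n l20121 (nat_lit 10183) (nat_lit 10) (nat_lit 10))
    (@En.n l35119 (nat_lit 9339) (nat_lit 5) (nat_lit 11))
    (@En.i (nat_lit 10720) (nat_lit 12) (nat_lit 11))
    (@En.n l5757 (nat_lit 8754) (nat_lit 13) (nat_lit 4))
    (@En.n l3866 (nat_lit 8807) (nat_lit 14) (nat_lit 7))
    (@En.n l36169 (nat_lit 7957) (nat_lit 1) (nat_lit 9))
    (@En.n l20119 (nat_lit 9336) (nat_lit 15) (nat_lit 3))))
  (@Cl.mk (nat_lit 0x200090007000d000b00090003000a00070005000b000900070006000e0005) (nat_lit 0x406720500170050) (nat_lit 16) Lb.e (@T16.mk En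
    (@En.n l28165 (nat_lit 9336) (nat_lit 6) (nat_lit 5))
    (@En.n l2038 (nat_lit 11133) (nat_lit 1) (nat_lit 14))
    (@En.n l1003 (nat_lit 8920) (nat_lit 2) (nat_lit 6))
    (@En.n l17 (nat_lit 8730) (nat_lit 3) (nat_lit 7))
    (@En.n l28166 (nat_lit 10529) (nat_lit 4) (nat_lit 9))
    (@En.i (nat_lit 6854) (nat_lit 6) (nat_lit 11))
    (@En.n l644 (nat_lit 8755) (nat_lit 6) (nat_lit 5))
    (@En.n l18100 (nat_lit 10776) (nat_lit 7) (nat_lit 7))
    (@En.n l28167 (nat_lit 9314) (nat_lit 9) (nat_lit 10))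
    (@En.n l20111 (nat_lit 9339) (nat_lit 9) (nat_lit 3))
    (@En.n l26699 (nat_lit 6950) (nat_lit 0) (nat_lit 9))
    (@En.n l18925 (nat_lit 10219) (nat_lit 12) (nat_lit 11))
    (@En.i (nat_lit 8209) (nat_lit 13) (nat_lit 13))
    (@En.n l3589 (nat_lit 6304) (nat_lit 14) (nat_lit 7))
    (@En.n l28168 (nat_lit 10065) (nat_lit 4) (nat_lit 9))
    (@En.n l28 (nat_lit 9338) (nat_lit 15) (nat_lit 2))))
  (@Cl.mk (nat_lit 0x200090007000d0008000c0003000a00070004000b000900080006000e0005) (nat_lit 0x307530100876080) (nat_lit 16) Lb.e (@T16.mk En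
    (@En.n l25037 (nat_lit 9337) (nat_lit 6) (nat_lit 5))
    (@En.n l23446 (nat_lit 11132) (nat_lit 1) (nat_lit 14))
    (@En.n l34502 (nat_lit 8917) (nat_lit 2) (nat_lit 6))
    (@En.n l3 (nat_lit 9149) (nat_lit 3) (nat_lit 8))
    (@En.n l34503 (nat_lit 12736) (nat_lit 4) (nat_lit 9))
    (@En.n l4356 (nat_lit 10721) (nat_lit 6) (nat_lit 11))
    (@En.n l34504 (nat_lit 10260) (nat_lit 6) (nat_lit 4))
    (@En.n l2781 (nat_lit 9977) (nat_lit 7) (nat_lit 7))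
    (@En.n l13182 (nat_lit 7954) (nat_lit 9) (nat_lit 10))
    (@En.n l34505 (nat_lit 9338) (nat_lit 9) (nat_lit 3))
    (@En.n l34504 (nat_lit 8677) (nat_lit 0) (nat_lit 12))
    (@En.n l23239 (nat_lit 10788) (nat_lit 12) (nat_lit 8))
    (@En.n l23239 (nat_lit 8210) (nat_lit 13) (nat_lit 13))
    (@En.n l34503 (nat_lit 6306) (nat_lit 14) (nat_lit 7))
    (@En.n l34053 (nat_lit 10064) (nat_lit 4) (nat_lit 9))
    (@En.n l18 (nat_lit 9339) (nat_lit 15) (nat_lit 2))))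
  (@Cl.mk (nat_lit 0x2000b000a0008000500090005000d0006000c0003000800070004000e000b) (nat_lit 0x3740209040500b8) (nat_lit 16) Lb.e (@T16.mk En
    (@En.n l27243 (nat_lit 9337) (nat_lit 11) (nat_lit 11))
    (@En.i (nat_lit 3125) (nat_lit 1) (nat_lit 14))
    (@En.n l2940 (nat_lit 9833) (nat_lit 2) (nat_lit 4))
    (@En.n l2125 (nat_lit 8862) (nat_lit 3) (nat_lit 7))
    (@En.n l152 (nat_lit 9826) (nat_lit 4) (nat_lit 8))
    (@En.n l117 (nat_lit 9341) (nat_lit 5) (nat_lit 3))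
    (@En.n l2940 (nat_lit 8713) (nat_lit 0) (nat_lit 12))
    (@En.n l37925 (nat_lit 9346) (nat_lit 7) (nat_lit 6))
    (@En.n l6081 (nat_lit 9344) (nat_lit 9) (nat_lit 13))
    (@En.n l37926 (nat_lit 7148) (nat_lit 9) (nat_lit 5))
    (@En.n l2869 (nat_lit 5571) (nat_lit 11) (nat_lit 9))
    (@En.n l26601 (nat_lit 9197) (nat_lit 5) (nat_lit 5))
    (@En.i (nat_lit 8848) (nat_lit 13) (nat_lit 8))
    (@En.n l899 (nat_lit 9145) (nat_lit 14) (nat_lit 10))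
    (@En.i (nat_lit 10312) (nat_lit 9) (nat_lit 11))
    (@En.n l7 (nat_lit 9340) (nat_lit 15) (nat_lit 2))))
  (@Cl.mk (nat_lit 0x2000b00090008000500090005000d000b00070003000800070005000e000b) (nat_lit 0x3250209500500b2) (nat_lit 16) Lb.e (@T16.mk En
    (@En.i (nat_lit 9336) (nat_lit 11) (nat_lit 11))
    (@En.n l1867 (nat_lit 4362) (nat_lit 1) (nat_lit 14))
    (@En.n l8030 (nat_lit 9836) (nat_lit 2) (nat_lit 5))
    (@En.n l3530 (nat_lit 8864) (nat_lit 3) (nat_lit 7))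
    (@En.i (nat_lit 9520) (nat_lit 4) (nat_lit 8))
    (@En.n l152 (nat_lit 9340) (nat_lit 5) (nat_lit 3))
    (@En.n l9969 (nat_lit 6503) (nat_lit 0) (nat_lit 7))
    (@En.n l22465 (nat_lit 9345) (nat_lit 8) (nat_lit 11))
    (@En.i (nat_lit 8142) (nat_lit 9) (nat_lit 13))
    (@En.n l18 (nat_lit 7147) (nat_lit 9) (nat_lit 5))
    (@En.n l22466 (nat_lit 5341) (nat_lit 11) (nat_lit 9))
    (@En.n l22467 (nat_lit 9198) (nat_lit 5) (nat_lit 5))
    (@En.n l637 (nat_lit 8852) (nat_lit 13) (nat_lit 8))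
    (@En.n l14340 (nat_lit 8720) (nat_lit 14) (nat_lit 9))
    (@En.i (nat_lit 10310) (nat_lit 9) (nat_lit 11))
    (@En.n l7 (nat_lit 9341) (nat_lit 15) (nat_lit 2))))
  (@Cl.mk (nat_lit 0x4000a000a000900090008000800060006000a00070007000c000800080006) (nat_lit 0x360525002002150) (nat_lit 16) Lb.e (@T16.mk En
    (@En.n l3866 (nat_lit 10116) (nat_lit 0) (nat_lit 6))
    (@En.n l33870 (nat_lit 11306) (nat_lit 8) (nat_lit 8))
    (@En.n l20620 (nat_lit 5159) (nat_lit 1) (nat_lit 8))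
    (@En.n l5754 (nat_lit 10747) (nat_lit 8) (nat_lit 12))
    (@En.n l33871 (nat_lit 10115) (nat_lit 9) (nat_lit 7))
    (@En.n l33872 (nat_lit 5161) (nat_lit 5) (nat_lit 7))
    (@En.n l33873 (nat_lit 9862) (nat_lit 9) (nat_lit 10))
    (@En.n l27426 (nat_lit 9346) (nat_lit 10) (nat_lit 6))
    (@En.n l33874 (nat_lit 10280) (nat_lit 8) (nat_lit 6))
    (@En.n l33875 (nat_lit 11339) (nat_lit 8) (nat_lit 8))
    (@En.n l33876 (nat_lit 9336) (nat_lit 8) (nat_lit 8))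
    (@En.n l2824 (nat_lit 10802) (nat_lit 7) (nat_lit 9))
    (@En.n l20121 (nat_lit 10424) (nat_lit 7) (nat_lit 9))
    (@En.n l33877 (nat_lit 10788) (nat_lit 6) (nat_lit 10))
    (@En.n l20620 (nat_lit 8185) (nat_lit 11) (nat_lit 10))
    (@En.n l5754 (nat_lit 11307) (nat_lit 12) (nat_lit 4))))
  (@Cl.mk (nat_lit 0x20007000b000a00090006000a0005000b00060009000700060005000e000a) (nat_lit 0x436010404000a2) (nat_lit 16) Lb.e (@T16.mk En
    (@En.n l32384 (nat_lit 9335) (nat_lit 14) (nat_lit 10))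
    (@En.n l18517 (nat_lit 4363) (nat_lit 1) (nat_lit 14))
    (@En.n l8872 (nat_lit 8133) (nat_lit 2) (nat_lit 5))
    (@En.n l32385 (nat_lit 7679) (nat_lit 3) (nat_lit 6))
    (@En.n l18697 (nat_lit 5962) (nat_lit 4) (nat_lit 7))
    (@En.n l32386 (nat_lit 9504) (nat_lit 5) (nat_lit 9))
    (@En.n l13591 (nat_lit 6506) (nat_lit 6) (nat_lit 6))
    (@En.n l32387 (nat_lit 7650) (nat_lit 8) (nat_lit 11))
    (@En.n l17890 (nat_lit 9839) (nat_lit 8) (nat_lit 5))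
    (@En.i (nat_lit 5637) (nat_lit 10) (nat_lit 10))
    (@En.n l565 (nat_lit 10303) (nat_lit 11) (nat_lit 6))
    (@En.n l32388 (nat_lit 10019) (nat_lit 12) (nat_lit 9))
    (@En.n l32389 (nat_lit 8142) (nat_lit 13) (nat_lit 10))
    (@En.n l32390 (nat_lit 9341) (nat_lit 14) (nat_lit 11))
    (@En.n l15124 (nat_lit 10390) (nat_lit 13) (nat_lit 7))
    (@En.n l17 (nat_lit 9343) (nat_lit 15) (nat_lit 2))))
noncomputable def a584 : T16 Cl := @T16.mk Cl
  (@Cl.mk (nat_lit 0x20007000b000800050009000d0005000b00030009000800070005000e000b) (nat_lit 0x15048030540012) (nat_lit 16) Lb.e (@T16.mk En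
    (@En.n l16925 (nat_lit 9334) (nat_lit 10) (nat_lit 11))
    (@En.n l16926 (nat_lit 1996) (nat_lit 1) (nat_lit 14))
    (@En.n l8148 (nat_lit 8131) (nat_lit 2) (nat_lit 5))
    (@En.n l16927 (nat_lit 7677) (nat_lit 3) (nat_lit 7))
    (@En.n l14958 (nat_lit 5966) (nat_lit 4) (nat_lit 8))
    (@En.n l1769 (nat_lit 9503) (nat_lit 5) (nat_lit 9))
    (@En.n l1236 (nat_lit 8142) (nat_lit 6) (nat_lit 3))
    (@En.n l8493 (nat_lit 7646) (nat_lit 8) (nat_lit 11))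
    (@En.n l16928 (nat_lit 9343) (nat_lit 8) (nat_lit 5))
    (@En.n l9644 (nat_lit 10017) (nat_lit 10) (nat_lit 13))
    (@En.n l14958 (nat_lit 6013) (nat_lit 11) (nat_lit 9))
    (@En.n l9644 (nat_lit 9962) (nat_lit 4) (nat_lit 5))
    (@En.n l3866 (nat_lit 3485) (nat_lit 13) (nat_lit 8))
    (@En.n l16929 (nat_lit 9143) (nat_lit 14) (nat_lit 11))
    (@En.n l16930 (nat_lit 10391) (nat_lit 7) (nat_lit 7))
    (@En.n l18 (nat_lit 9344) (nat_lit 15) (nat_lit 2))))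
  (@Cl.mk (nat_lit 0x2000b000a00090005000a0005000b0006000c0007000600050004000e000b) (nat_lit 0x3020104040000b5) (nat_lit 16) Lb.e (@T16.mk En
    (@En.n l29752 (nat_lit 8758) (nat_lit 14) (nat_lit 11))
    (@En.n l17894 (nat_lit 9343) (nat_lit 1) (nat_lit 14))
    (@En.n l3480 (nat_lit 9340) (nat_lit 2) (nat_lit 4))
    (@En.n l9265 (nat_lit 10241) (nat_lit 3) (nat_lit 5))
    (@En.n l13633 (nat_lit 8860) (nat_lit 4) (nat_lit 6))
    (@En.n l29753 (nat_lit 6482) (nat_lit 5) (nat_lit 7))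
    (@En.n l9265 (nat_lit 8707) (nat_lit 7) (nat_lit 12))
    (@En.n l7 (nat_lit 7974) (nat_lit 7) (nat_lit 6))
    (@En.n l29754 (nat_lit 7649) (nat_lit 9) (nat_lit 11))
    (@En.n l29755 (nat_lit 6356) (nat_lit 9) (nat_lit 5))
    (@En.n l29014 (nat_lit 5616) (nat_lit 11) (nat_lit 10))
    (@En.n l11002 (nat_lit 10182) (nat_lit 12) (nat_lit 5))
    (@En.n l3480 (nat_lit 10239) (nat_lit 13) (nat_lit 9))
    (@En.n l17957 (nat_lit 10203) (nat_lit 14) (nat_lit 10))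
    (@En.n l29756 (nat_lit 10308) (nat_lit 12) (nat_lit 11))
    (@En.n l11 (nat_lit 9345) (nat_lit 15) (nat_lit 2))))
  (@Cl.mk (nat_lit 0x2000a000a000900090006000a00060006000c0007000700060004000e000a) (nat_lit 0x63501003000024) (nat_lit 16) Lb.e (@T16.mk En
    (@En.n l20811 (nat_lit 9342) (nat_lit 14) (nat_lit 10))
    (@En.i (nat_lit 1979) (nat_lit 1) (nat_lit 14))
    (@En.n l11512 (nat_lit 12542) (nat_lit 2) (nat_lit 4))
    (@En.n l11165 (nat_lit 7969) (nat_lit 3) (nat_lit 6))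
    (@En.n l20812 (nat_lit 12540) (nat_lit 9) (nat_lit 7))
    (@En.i (nat_lit 6496) (nat_lit 5) (nat_lit 7))
    (@En.n l4964 (nat_lit 12301) (nat_lit 7) (nat_lit 12))
    (@En.n l4965 (nat_lit 9347) (nat_lit 10) (nat_lit 6))
    (@En.n l4966 (nat_lit 5155) (nat_lit 8) (nat_lit 6))
    (@En.i (nat_lit 3295) (nat_lit 10) (nat_lit 10))
    (@En.n l77 (nat_lit 11887) (nat_lit 11) (nat_lit 6))
    (@En.n l8390 (nat_lit 11348) (nat_lit 7) (nat_lit 9))
    (@En.n l20813 (nat_lit 9341) (nat_lit 13) (nat_lit 9))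
    (@En.n l20814 (nat_lit 7975) (nat_lit 14) (nat_lit 10))
    (@En.i (nat_lit 10523) (nat_lit 12) (nat_lit 10))
    (@En.n l17 (nat_lit 9346) (nat_lit 15) (nat_lit 2))))
  (@Cl.mk (nat_lit 0x2000a000a0007000b0006000c0006000600050004000e00090002000e000a) (nat_lit 0x460302000025031) (nat_lit 16) Lb.e (@T16.mk En
    (@En.n l5403 (nat_lit 9346) (nat_lit 14) (nat_lit 10))
    (@En.i (nat_lit 12094) (nat_lit 1) (nat_lit 14))
    (@En.n l17 (nat_lit 9347) (nat_lit 2) (nat_lit 2))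
    (@En.i (nat_lit 10115) (nat_lit 3) (nat_lit 9))
    (@En.i (nat_lit 1981) (nat_lit 1) (nat_lit 14))
    (@En.n l8872 (nat_lit 12543) (nat_lit 5) (nat_lit 4))
    (@En.n l1578 (nat_lit 10106) (nat_lit 6) (nat_lit 5))
    (@En.n l575 (nat_lit 11363) (nat_lit 10) (nat_lit 6))
    (@En.n l5399 (nat_lit 6499) (nat_lit 8) (nat_lit 6))
    (@En.n l2680 (nat_lit 2498) (nat_lit 10) (nat_lit 12))
    (@En.n l17890 (nat_lit 10798) (nat_lit 7) (nat_lit 6))
    (@En.i (nat_lit 4821) (nat_lit 12) (nat_lit 11))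
    (@En.n l565 (nat_lit 11888) (nat_lit 13) (nat_lit 7))
    (@En.n l17891 (nat_lit 12553) (nat_lit 6) (nat_lit 10))
    (@En.i (nat_lit 9343) (nat_lit 12) (nat_lit 10))
    (@En.n l3 (nat_lit 9347) (nat_lit 15) (nat_lit 2))))
  (@Cl.mk (nat_lit 0x3000a000a0008000b0006000a000600060005000c00080006000d0004000a) (nat_lit 0x13305000540701) (nat_lit 16) Lb.e (@T16.mk En
    (@En.n l14002 (nat_lit 6462) (nat_lit 0) (nat_lit 10))
    (@En.n l117 (nat_lit 9355) (nat_lit 15) (nat_lit 4))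
    (@En.n l6522 (nat_lit 2598) (nat_lit 0) (nat_lit 13))
    (@En.n l30194 (nat_lit 5047) (nat_lit 3) (nat_lit 6))
    (@En.n l30195 (nat_lit 8820) (nat_lit 4) (nat_lit 8))
    (@En.n l30196 (nat_lit 9315) (nat_lit 3) (nat_lit 12))
    (@En.n l30194 (nat_lit 10492) (nat_lit 11) (nat_lit 5))
    (@En.n l77 (nat_lit 9349) (nat_lit 10) (nat_lit 6))
    (@En.n l6064 (nat_lit 8778) (nat_lit 8) (nat_lit 6))
    (@En.n l6517 (nat_lit 7332) (nat_lit 9) (nat_lit 10))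
    (@En.n l30197 (nat_lit 9275) (nat_lit 8) (nat_lit 6))
    (@En.i (nat_lit 6766) (nat_lit 7) (nat_lit 11))
    (@En.n l397 (nat_lit 8779) (nat_lit 13) (nat_lit 8))
    (@En.n l5670 (nat_lit 9299) (nat_lit 6) (nat_lit 10))
    (@En.i (nat_lit 10071) (nat_lit 13) (nat_lit 10))
    (@En.n l9979 (nat_lit 8822) (nat_lit 15) (nat_lit 3))))
  (@Cl.mk (nat_lit 0x20009000c0007000b00060004000c00070005000d000400090003000e000a) (nat_lit 0x440600900701051) (nat_lit 16) Lb.e (@T16.mk En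
    (@En.i (nat_lit 9348) (nat_lit 14) (nat_lit 10))
    (@En.i (nat_lit 9915) (nat_lit 1) (nat_lit 14))
    (@En.i (nat_lit 9262) (nat_lit 2) (nat_lit 3))
    (@En.n l3328 (nat_lit 6457) (nat_lit 3) (nat_lit 9))
    (@En.n l117 (nat_lit 9354) (nat_lit 4) (nat_lit 4))
    (@En.n l2255 (nat_lit 6488) (nat_lit 6) (nat_lit 13))
    (@En.n l3480 (nat_lit 5094) (nat_lit 6) (nat_lit 5))
    (@En.i (nat_lit 9350) (nat_lit 7) (nat_lit 7))
    (@En.i (nat_lit 9351) (nat_lit 9) (nat_lit 12))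
    (@En.i (nat_lit 9577) (nat_lit 9) (nat_lit 4))
    (@En.n l5854 (nat_lit 6145) (nat_lit 11) (nat_lit 6))
    (@En.n l19506 (nat_lit 7337) (nat_lit 12) (nat_lit 11))
    (@En.n l8770 (nat_lit 9521) (nat_lit 13) (nat_lit 7))
    (@En.i (nat_lit 7585) (nat_lit 6) (nat_lit 12))
    (@En.i (nat_lit 8780) (nat_lit 12) (nat_lit 9))
    (@En.n l7 (nat_lit 9349) (nat_lit 15) (nat_lit 2))))
  (@Cl.mk (nat_lit 0x200090007000c0008000c0007000400070004000d000900080003000e0009) (nat_lit 0x405360000741061) (nat_lit 16) Lb.e (@T16.mk En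
    (@En.n l30195 (nat_lit 8820) (nat_lit 14) (nat_lit 9))
    (@En.n l2642 (nat_lit 9910) (nat_lit 1) (nat_lit 14))
    (@En.n l10493 (nat_lit 8819) (nat_lit 2) (nat_lit 3))
    (@En.n l35296 (nat_lit 6455) (nat_lit 3) (nat_lit 8))
    (@En.n l35297 (nat_lit 9633) (nat_lit 4) (nat_lit 9))
    (@En.n l2255 (nat_lit 6485) (nat_lit 6) (nat_lit 13))
    (@En.n l21124 (nat_lit 5096) (nat_lit 6) (nat_lit 4))
    (@En.n l35296 (nat_lit 1390) (nat_lit 11) (nat_lit 7))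
    (@En.i (nat_lit 9579) (nat_lit 8) (nat_lit 4))
    (@En.n l35298 (nat_lit 6148) (nat_lit 0) (nat_lit 7))
    (@En.n l35277 (nat_lit 3058) (nat_lit 11) (nat_lit 12))
    (@En.n l8770 (nat_lit 9520) (nat_lit 12) (nat_lit 8))
    (@En.n l3 (nat_lit 9349) (nat_lit 13) (nat_lit 12))
    (@En.n l3 (nat_lit 9352) (nat_lit 14) (nat_lit 7))
    (@En.n l35275 (nat_lit 8782) (nat_lit 12) (nat_lit 9))
    (@En.n l7 (nat_lit 9350) (nat_lit 15) (nat_lit 2))))
  (@Cl.mk (nat_lit 0x2000a00070007000c0006000c00060004000c0004000900090004000e000a) (nat_lit 0x400508005052052) (nat_lit 16) Lb.e (@T16.mk En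
    (@En.n l30196 (nat_lit 9315) (nat_lit 11) (nat_lit 10))
    (@En.n l34256 (nat_lit 10114) (nat_lit 1) (nat_lit 14))
    (@En.n l10494 (nat_lit 8829) (nat_lit 2) (nat_lit 4))
    (@En.n l2577 (nat_lit 11014) (nat_lit 3) (nat_lit 9))
    (@En.n l152 (nat_lit 9350) (nat_lit 4) (nat_lit 9))
    (@En.n l19246 (nat_lit 9505) (nat_lit 5) (nat_lit 4))
    (@En.n l34981 (nat_lit 6481) (nat_lit 7) (nat_lit 12))
    (@En.n l3480 (nat_lit 5110) (nat_lit 7) (nat_lit 4))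
    (@En.n l34982 (nat_lit 1396) (nat_lit 8) (nat_lit 6))
    (@En.n l28324 (nat_lit 9112) (nat_lit 10) (nat_lit 12))
    (@En.n l29908 (nat_lit 11253) (nat_lit 11) (nat_lit 6))
    (@En.n l19246 (nat_lit 6862) (nat_lit 12) (nat_lit 12))
    (@En.n l34983 (nat_lit 9519) (nat_lit 9) (nat_lit 7))
    (@En.i (nat_lit 9361) (nat_lit 14) (nat_lit 7))
    (@En.n l34984 (nat_lit 9491) (nat_lit 12) (nat_lit 10))
    (@En.n l7 (nat_lit 9351) (nat_lit 15) (nat_lit 2))))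
  (@Cl.mk (nat_lit 0x20007000c0007000c00060004000c0004000c0009000400090004000e000a) (nat_lit 0x20600a08406055) (nat_lit 16) Lb.e (@T16.mk En
    (@En.n l6517 (nat_lit 9353) (nat_lit 12) (nat_lit 10))
    (@En.n l1003 (nat_lit 9331) (nat_lit 1) (nat_lit 14))
    (@En.n l2711 (nat_lit 9607) (nat_lit 2) (nat_lit 4))
    (@En.n l29570 (nat_lit 8170) (nat_lit 3) (nat_lit 9))
    (@En.n l152 (nat_lit 9349) (nat_lit 4) (nat_lit 4))
    (@En.n l29571 (nat_lit 9894) (nat_lit 5) (nat_lit 9))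
    (@En.n l2255 (nat_lit 6490) (nat_lit 7) (nat_lit 12))
    (@En.n l2125 (nat_lit 9357) (nat_lit 7) (nat_lit 4))
    (@En.n l17432 (nat_lit 11520) (nat_lit 9) (nat_lit 12))
    (@En.i (nat_lit 9573) (nat_lit 9) (nat_lit 4))
    (@En.n l29572 (nat_lit 10055) (nat_lit 11) (nat_lit 6))
    (@En.n l29573 (nat_lit 7345) (nat_lit 12) (nat_lit 12))
    (@En.n l5788 (nat_lit 9564) (nat_lit 13) (nat_lit 7))
    (@En.i (nat_lit 6364) (nat_lit 14) (nat_lit 12))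
    (@En.n l1003 (nat_lit 8800) (nat_lit 4) (nat_lit 7))
    (@En.n l7 (nat_lit 9352) (nat_lit 15) (nat_lit 2))))
  (@Cl.mk (nat_lit 0x4000a0004000a000a0006000b0006000b000600060005000c0005000c000a) (nat_lit 0x604503050004074) (nat_lit 16) Lb.e (@T16.mk En
    (@En.n l41891 (nat_lit 9895) (nat_lit 0) (nat_lit 10))
    (@En.n l55 (nat_lit 5855) (nat_lit 1) (nat_lit 12))
    (@En.n l27682 (nat_lit 9356) (nat_lit 4) (nat_lit 5))
    (@En.n l41887 (nat_lit 9387) (nat_lit 3) (nat_lit 12))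
    (@En.n l41892 (nat_lit 9957) (nat_lit 11) (nat_lit 5))
    (@En.n l12755 (nat_lit 9352) (nat_lit 10) (nat_lit 6))
    (@En.n l41893 (nat_lit 9472) (nat_lit 6) (nat_lit 6))
    (@En.n l13918 (nat_lit 8320) (nat_lit 9) (nat_lit 11))
    (@En.n l41894 (nat_lit 9468) (nat_lit 8) (nat_lit 6))
    (@En.i (nat_lit 5888) (nat_lit 9) (nat_lit 11))
    (@En.n l742 (nat_lit 9937) (nat_lit 3) (nat_lit 6))
    (@En.n l41895 (nat_lit 9470) (nat_lit 6) (nat_lit 10))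
    (@En.n l41887 (nat_lit 9959) (nat_lit 13) (nat_lit 10))
    (@En.n l41896 (nat_lit 9457) (nat_lit 15) (nat_lit 4))
    (@En.n l41897 (nat_lit 10930) (nat_lit 0) (nat_lit 10))
    (@En.n l27686 (nat_lit 9348) (nat_lit 1) (nat_lit 4))))
  (@Cl.mk (nat_lit 0x20008000c0007000a00060004000c000b00080006000400090005000e000a) (nat_lit 0x520600355002030) (nat_lit 16) Lb.e (@T16.mk En
    (@En.i (nat_lit 9355) (nat_lit 12) (nat_lit 10))
    (@En.n l5253 (nat_lit 9328) (nat_lit 1) (nat_lit 14))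
    (@En.n l3958 (nat_lit 8221) (nat_lit 2) (nat_lit 5))
    (@En.n l899 (nat_lit 9357) (nat_lit 3) (nat_lit 9))
    (@En.i (nat_lit 9352) (nat_lit 4) (nat_lit 4))
    (@En.i (nat_lit 5093) (nat_lit 5) (nat_lit 6))
    (@En.n l20222 (nat_lit 9526) (nat_lit 6) (nat_lit 8))
    (@En.n l619 (nat_lit 9262) (nat_lit 8) (nat_lit 11))
    (@En.n l20223 (nat_lit 9505) (nat_lit 9) (nat_lit 12))
    (@En.i (nat_lit 9574) (nat_lit 9) (nat_lit 4))
    (@En.n l14510 (nat_lit 6848) (nat_lit 11) (nat_lit 6))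
    (@En.n l20224 (nat_lit 2310) (nat_lit 8) (nat_lit 10))
    (@En.n l20225 (nat_lit 9486) (nat_lit 13) (nat_lit 7))
    (@En.i (nat_lit 7584) (nat_lit 14) (nat_lit 12))
    (@En.i (nat_lit 8801) (nat_lit 4) (nat_lit 8))
    (@En.n l7 (nat_lit 9354) (nat_lit 15) (nat_lit 2))))
  (@Cl.mk (nat_lit 0x4000a0005000a000a0007000b00060009000600060005000c000b00090007) (nat_lit 0x608001050009660) (nat_lit 16) Lb.e (@T16.mk En
    (@En.n l817 (nat_lit 5049) (nat_lit 0) (nat_lit 7))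
    (@En.n l35092 (nat_lit 9019) (nat_lit 1) (nat_lit 9))
    (@En.n l29517 (nat_lit 8822) (nat_lit 5) (nat_lit 11))
    (@En.n l35092 (nat_lit 9316) (nat_lit 3) (nat_lit 12))
    (@En.n l35093 (nat_lit 10400) (nat_lit 11) (nat_lit 5))
    (@En.n l77 (nat_lit 9354) (nat_lit 10) (nat_lit 6))
    (@En.n l35094 (nat_lit 8880) (nat_lit 6) (nat_lit 6))
    (@En.n l20224 (nat_lit 2314) (nat_lit 9) (nat_lit 9))
    (@En.n l35095 (nat_lit 9479) (nat_lit 8) (nat_lit 6))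
    (@En.i (nat_lit 6300) (nat_lit 8) (nat_lit 11))
    (@En.n l35096 (nat_lit 9475) (nat_lit 1) (nat_lit 7))
    (@En.n l5670 (nat_lit 9796) (nat_lit 6) (nat_lit 10))
    (@En.n l2324 (nat_lit 9941) (nat_lit 10) (nat_lit 10))
    (@En.n l5757 (nat_lit 8224) (nat_lit 14) (nat_lit 5))
    (@En.n l18830 (nat_lit 9356) (nat_lit 0) (nat_lit 10))
    (@En.n l6517 (nat_lit 9353) (nat_lit 15) (nat_lit 4))))
  (@Cl.mk (nat_lit 0x4000900090006000a0006000b00090007000700060005000c000a0007000a) (nat_lit 0x104600007305) (nat_lit 16) Lb.e (@T16.mk En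
    (@En.n l763 (nat_lit 12513) (nat_lit 8) (nat_lit 10))
    (@En.n l37821 (nat_lit 5044) (nat_lit 1) (nat_lit 7))
    (@En.n l22209 (nat_lit 9023) (nat_lit 6) (nat_lit 10))
    (@En.n l10997 (nat_lit 8825) (nat_lit 3) (nat_lit 12))
    (@En.n l37822 (nat_lit 9801) (nat_lit 11) (nat_lit 5))
    (@En.n l22354 (nat_lit 10398) (nat_lit 10) (nat_lit 6))
    (@En.n l37823 (nat_lit 9357) (nat_lit 9) (nat_lit 7))
    (@En.n l22354 (nat_lit 9472) (nat_lit 7) (nat_lit 7))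
    (@En.n l34604 (nat_lit 9355) (nat_lit 7) (nat_lit 9))
    (@En.n l31005 (nat_lit 8940) (nat_lit 9) (nat_lit 11))
    (@En.n l37824 (nat_lit 9481) (nat_lit 11) (nat_lit 6))
    (@En.i (nat_lit 6301) (nat_lit 9) (nat_lit 10))
    (@En.n l32568 (nat_lit 8795) (nat_lit 10) (nat_lit 6))
    (@En.n l37825 (nat_lit 9797) (nat_lit 7) (nat_lit 9))
    (@En.n l37826 (nat_lit 9944) (nat_lit 11) (nat_lit 9))
    (@En.n l12503 (nat_lit 9591) (nat_lit 15) (nat_lit 4))))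
  (@Cl.mk (nat_lit 0x20007000b0007000c000a000700050004000c0009000600090004000e0009) (nat_lit 0x20470006301021) (nat_lit 16) Lb.e (@T16.mk En
    (@En.n l6444 (nat_lit 9356) (nat_lit 14) (nat_lit 9))
    (@En.n l22344 (nat_lit 9327) (nat_lit 1) (nat_lit 14))
    (@En.n l22345 (nat_lit 9600) (nat_lit 2) (nat_lit 4))
    (@En.i (nat_lit 8165) (nat_lit 3) (nat_lit 9))
    (@En.n l6900 (nat_lit 5092) (nat_lit 4) (nat_lit 6))
    (@En.n l22346 (nat_lit 9523) (nat_lit 5) (nat_lit 9))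
    (@En.n l7645 (nat_lit 9263) (nat_lit 7) (nat_lit 12))
    (@En.n l10394 (nat_lit 9638) (nat_lit 7) (nat_lit 4))
    (@En.i (nat_lit 9572) (nat_lit 8) (nat_lit 5))
    (@En.n l6444 (nat_lit 10444) (nat_lit 10) (nat_lit 7))
    (@En.n l2642 (nat_lit 9354) (nat_lit 11) (nat_lit 10))
    (@En.n l22347 (nat_lit 8644) (nat_lit 12) (nat_lit 12))
    (@En.n l22348 (nat_lit 9487) (nat_lit 13) (nat_lit 7))
    (@En.i (nat_lit 7148) (nat_lit 14) (nat_lit 11))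
    (@En.n l12001 (nat_lit 8797) (nat_lit 13) (nat_lit 7))
    (@En.n l50 (nat_lit 9357) (nat_lit 15) (nat_lit 2))))
  (@Cl.mk (nat_lit 0x4000a0005000b0005000b000b00060005000b00050005000c000b0005000b) (nat_lit 0x506056004008302) (nat_lit 16) Lb.e (@T16.mk En
    (@En.n l55 (nat_lit 2317) (nat_lit 0) (nat_lit 11))
    (@En.n l40800 (nat_lit 9359) (nat_lit 1) (nat_lit 5))
    (@En.n l40801 (nat_lit 9432) (nat_lit 5) (nat_lit 11))
    (@En.n l29526 (nat_lit 9353) (nat_lit 1) (nat_lit 12))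
    (@En.n l12755 (nat_lit 9361) (nat_lit 11) (nat_lit 5))
    (@En.n l134 (nat_lit 8880) (nat_lit 5) (nat_lit 5))
    (@En.i (nat_lit 8122) (nat_lit 0) (nat_lit 11))
    (@En.n l40561 (nat_lit 9537) (nat_lit 11) (nat_lit 5))
    (@En.n l40802 (nat_lit 9726) (nat_lit 2) (nat_lit 6))
    (@En.n l40201 (nat_lit 9465) (nat_lit 5) (nat_lit 11))
    (@En.n l40803 (nat_lit 10272) (nat_lit 2) (nat_lit 11))
    (@En.n l16880 (nat_lit 9458) (nat_lit 5) (nat_lit 5))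
    (@En.n l40804 (nat_lit 11558) (nat_lit 0) (nat_lit 11))
    (@En.n l12756 (nat_lit 9257) (nat_lit 1) (nat_lit 5))
    (@En.i (nat_lit 9353) (nat_lit 0) (nat_lit 10))
    (@En.n l936 (nat_lit 9464) (nat_lit 15) (nat_lit 4))))
  (@Cl.mk (nat_lit 0x3000a0008000b0005000a000a00060005000b000800060006000d0005000b) (nat_lit 0x427000001400807) (nat_lit 16) Lb.e (@T16.mk En
    (@En.n l35120 (nat_lit 9261) (nat_lit 0) (nat_lit 11))
    (@En.n l31594 (nat_lit 9873) (nat_lit 5) (nat_lit 5))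
    (@En.n l35121 (nat_lit 9348) (nat_lit 2) (nat_lit 13))
    (@En.n l35122 (nat_lit 9869) (nat_lit 10) (nat_lit 6))
    (@En.i (nat_lit 9983) (nat_lit 4) (nat_lit 6))
    (@En.n l35123 (nat_lit 9360) (nat_lit 5) (nat_lit 8))
    (@En.n l35124 (nat_lit 8226) (nat_lit 7) (nat_lit 11))
    (@En.n l35125 (nat_lit 10008) (nat_lit 11) (nat_lit 5))
    (@En.n l8017 (nat_lit 9648) (nat_lit 8) (nat_lit 6))
    (@En.n l35126 (nat_lit 9660) (nat_lit 6) (nat_lit 10))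
    (@En.n l35127 (nat_lit 10142) (nat_lit 11) (nat_lit 10))
    (@En.i (nat_lit 9586) (nat_lit 12) (nat_lit 5))
    (@En.n l19317 (nat_lit 12266) (nat_lit 7) (nat_lit 11))
    (@En.n l35123 (nat_lit 6727) (nat_lit 14) (nat_lit 8))
    (@En.n l35128 (nat_lit 9356) (nat_lit 2) (nat_lit 10))
    (@En.n l19313 (nat_lit 9389) (nat_lit 15) (nat_lit 3))))
noncomputable def a585 : T16 Cl := @T16.mk Cl
  (@Cl.mk (nat_lit 0x3000900080005000b0006000b000b00070005000800050005000d000b000a) (nat_lit 0x720805300300986) (nat_lit 16) Lb.e (@T16.mk En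
    (@En.n l29888 (nat_lit 8479) (nat_lit 0) (nat_lit 10))
    (@En.n l29889 (nat_lit 9421) (nat_lit 5) (nat_lit 11))
    (@En.n l2179 (nat_lit 8820) (nat_lit 2) (nat_lit 13))
    (@En.n l2139 (nat_lit 9866) (nat_lit 11) (nat_lit 5))
    (@En.n l29890 (nat_lit 8878) (nat_lit 4) (nat_lit 5))
    (@En.n l2130 (nat_lit 2050) (nat_lit 10) (nat_lit 8))
    (@En.n l2129 (nat_lit 6868) (nat_lit 6) (nat_lit 5))
    (@En.n l29891 (nat_lit 9643) (nat_lit 7) (nat_lit 7))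
    (@En.n l61 (nat_lit 9659) (nat_lit 5) (nat_lit 11))
    (@En.n l2130 (nat_lit 10145) (nat_lit 10) (nat_lit 11))
    (@En.n l29892 (nat_lit 8223) (nat_lit 11) (nat_lit 6))
    (@En.n l29893 (nat_lit 9359) (nat_lit 12) (nat_lit 11))
    (@En.n l29894 (nat_lit 9358) (nat_lit 13) (nat_lit 5))
    (@En.i (nat_lit 6731) (nat_lit 8) (nat_lit 8))
    (@En.n l13421 (nat_lit 9355) (nat_lit 1) (nat_lit 9))
    (@En.n l5944 (nat_lit 9656) (nat_lit 15) (nat_lit 3))))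
  (@Cl.mk (nat_lit 0x200070006000c0005000c000b0004000b000400090005000a0005000e000b) (nat_lit 0x4022010507066) (nat_lit 16) Lb.e (@T16.mk En
    (@En.n l6517 (nat_lit 9358) (nat_lit 10) (nat_lit 11))
    (@En.n l28132 (nat_lit 11039) (nat_lit 1) (nat_lit 14))
    (@En.n l6450 (nat_lit 9608) (nat_lit 2) (nat_lit 5))
    (@En.n l28324 (nat_lit 11066) (nat_lit 3) (nat_lit 10))
    (@En.i (nat_lit 9254) (nat_lit 4) (nat_lit 5))
    (@En.i (nat_lit 9352) (nat_lit 5) (nat_lit 9))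
    (@En.n l19247 (nat_lit 9566) (nat_lit 6) (nat_lit 4))
    (@En.n l2255 (nat_lit 6190) (nat_lit 8) (nat_lit 11))
    (@En.n l2125 (nat_lit 9869) (nat_lit 8) (nat_lit 4))
    (@En.n l17432 (nat_lit 11522) (nat_lit 10) (nat_lit 11))
    (@En.n l28324 (nat_lit 2599) (nat_lit 11) (nat_lit 12))
    (@En.n l28325 (nat_lit 10496) (nat_lit 12) (nat_lit 5))
    (@En.n l28326 (nat_lit 8128) (nat_lit 13) (nat_lit 12))
    (@En.n l18718 (nat_lit 7356) (nat_lit 14) (nat_lit 6))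
    (@En.n l28132 (nat_lit 9672) (nat_lit 7) (nat_lit 7))
    (@En.n l7 (nat_lit 9361) (nat_lit 15) (nat_lit 2))))
  (@Cl.mk (nat_lit 0x2000600090006000d000b000a0003000900070005000a0006000a000e0007) (nat_lit 0x50835070030590) (nat_lit 16) Lb.e (@T16.mk En
    (@En.i (nat_lit 8820) (nat_lit 7) (nat_lit 7))
    (@En.n l601 (nat_lit 9048) (nat_lit 1) (nat_lit 14))
    (@En.n l649 (nat_lit 7310) (nat_lit 2) (nat_lit 10))
    (@En.i (nat_lit 9314) (nat_lit 3) (nat_lit 6))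
    (@En.n l899 (nat_lit 9299) (nat_lit 4) (nat_lit 10))
    (@En.n l34328 (nat_lit 9470) (nat_lit 5) (nat_lit 5))
    (@En.i (nat_lit 5482) (nat_lit 6) (nat_lit 7))
    (@En.i (nat_lit 10400) (nat_lit 8) (nat_lit 9))
    (@En.n l14549 (nat_lit 8824) (nat_lit 8) (nat_lit 3))
    (@En.n l619 (nat_lit 11630) (nat_lit 10) (nat_lit 10))
    (@En.n l3866 (nat_lit 9363) (nat_lit 11) (nat_lit 11))
    (@En.n l38750 (nat_lit 7243) (nat_lit 12) (nat_lit 13))
    (@En.n l1723 (nat_lit 5162) (nat_lit 13) (nat_lit 6))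
    (@En.n l226 (nat_lit 1451) (nat_lit 9) (nat_lit 9))
    (@En.i (nat_lit 12013) (nat_lit 13) (nat_lit 6))
    (@En.n l50 (nat_lit 9362) (nat_lit 15) (nat_lit 2))))
  (@Cl.mk (nat_lit 0x20006000a0006000b0009000c0008000600050004000a0007000a000e0008) (nat_lit 0x50235000030686) (nat_lit 16) Lb.e (@T16.mk En
    (@En.n l19999 (nat_lit 9364) (nat_lit 1) (nat_lit 8))
    (@En.n l1578 (nat_lit 9052) (nat_lit 1) (nat_lit 14))
    (@En.n l42692 (nat_lit 6294) (nat_lit 2) (nat_lit 10))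
    (@En.n l23501 (nat_lit 9365) (nat_lit 3) (nat_lit 7))
    (@En.n l6080 (nat_lit 9798) (nat_lit 4) (nat_lit 10))
    (@En.n l5452 (nat_lit 8824) (nat_lit 5) (nat_lit 4))
    (@En.n l42692 (nat_lit 9898) (nat_lit 6) (nat_lit 5))
    (@En.i (nat_lit 5485) (nat_lit 7) (nat_lit 6))
    (@En.n l17763 (nat_lit 10402) (nat_lit 9) (nat_lit 8))
    (@En.i (nat_lit 9035) (nat_lit 10) (nat_lit 12))
    (@En.n l61 (nat_lit 9366) (nat_lit 11) (nat_lit 9))
    (@En.n l42693 (nat_lit 11336) (nat_lit 12) (nat_lit 11))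
    (@En.n l7471 (nat_lit 6558) (nat_lit 13) (nat_lit 6))
    (@En.n l25503 (nat_lit 2509) (nat_lit 14) (nat_lit 10))
    (@En.i (nat_lit 11097) (nat_lit 13) (nat_lit 6))
    (@En.n l28 (nat_lit 9363) (nat_lit 15) (nat_lit 2))))
  (@Cl.mk (nat_lit 0x500090005000a0008000b00080008000700060005000b0008000b00080008) (nat_lit 0x402350100034750) (nat_lit 16) Lb.e (@T16.mk En
    (@En.n l14990 (nat_lit 9633) (nat_lit 8) (nat_lit 8))
    (@En.n l35829 (nat_lit 11074) (nat_lit 1) (nat_lit 8))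
    (@En.n l41839 (nat_lit 7144) (nat_lit 7) (nat_lit 11))
    (@En.n l41840 (nat_lit 9368) (nat_lit 14) (nat_lit 8))
    (@En.n l41841 (nat_lit 9641) (nat_lit 10) (nat_lit 11))
    (@En.n l41839 (nat_lit 8818) (nat_lit 11) (nat_lit 5))
    (@En.n l41842 (nat_lit 9895) (nat_lit 10) (nat_lit 6))
    (@En.i (nat_lit 10676) (nat_lit 9) (nat_lit 7))
    (@En.n l2491 (nat_lit 9363) (nat_lit 8) (nat_lit 8))
    (@En.n l41843 (nat_lit 10405) (nat_lit 8) (nat_lit 8))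
    (@En.i (nat_lit 9224) (nat_lit 7) (nat_lit 11))
    (@En.n l41844 (nat_lit 9370) (nat_lit 8) (nat_lit 8))
    (@En.n l41845 (nat_lit 11324) (nat_lit 10) (nat_lit 10))
    (@En.n l14989 (nat_lit 6555) (nat_lit 7) (nat_lit 5))
    (@En.n l32032 (nat_lit 2505) (nat_lit 10) (nat_lit 9))
    (@En.n l41842 (nat_lit 11090) (nat_lit 1) (nat_lit 5))))
  (@Cl.mk (nat_lit 0x2000b00090006000a00090005000c00090007000600040007000a000e0007) (nat_lit 0x3202406100005b0) (nat_lit 16) Lb.e (@T16.mk En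
    (@En.n l40226 (nat_lit 9368) (nat_lit 12) (nat_lit 7))
    (@En.n l40227 (nat_lit 9053) (nat_lit 1) (nat_lit 14))
    (@En.n l40228 (nat_lit 9614) (nat_lit 8) (nat_lit 10))
    (@En.n l25509 (nat_lit 4829) (nat_lit 3) (nat_lit 7))
    (@En.n l31310 (nat_lit 9300) (nat_lit 4) (nat_lit 4))
    (@En.n l40228 (nat_lit 9899) (nat_lit 5) (nat_lit 6))
    (@En.i (nat_lit 5464) (nat_lit 6) (nat_lit 7))
    (@En.n l27060 (nat_lit 6846) (nat_lit 8) (nat_lit 9))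
    (@En.n l25510 (nat_lit 9363) (nat_lit 9) (nat_lit 12))
    (@En.n l40229 (nat_lit 9373) (nat_lit 9) (nat_lit 5))
    (@En.n l17 (nat_lit 9367) (nat_lit 11) (nat_lit 9))
    (@En.i (nat_lit 7942) (nat_lit 12) (nat_lit 10))
    (@En.n l4306 (nat_lit 6644) (nat_lit 13) (nat_lit 6))
    (@En.n l77 (nat_lit 1756) (nat_lit 14) (nat_lit 9))
    (@En.n l10491 (nat_lit 10512) (nat_lit 10) (nat_lit 11))
    (@En.n l107 (nat_lit 9365) (nat_lit 15) (nat_lit 2))))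
  (@Cl.mk (nat_lit 0x20007000b00060009000c00070005000c0004000900070004000a000e0009) (nat_lit 0x10240020300760) (nat_lit 16) Lb.e (@T16.mk En
    (@En.n l3260 (nat_lit 9370) (nat_lit 13) (nat_lit 9))
    (@En.n l1578 (nat_lit 10003) (nat_lit 1) (nat_lit 14))
    (@En.n l617 (nat_lit 9363) (nat_lit 2) (nat_lit 10))
    (@En.n l3480 (nat_lit 7575) (nat_lit 3) (nat_lit 4))
    (@En.n l15957 (nat_lit 9367) (nat_lit 4) (nat_lit 7))
    (@En.n l21389 (nat_lit 9799) (nat_lit 5) (nat_lit 9))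
    (@En.n l6081 (nat_lit 8828) (nat_lit 6) (nat_lit 4))
    (@En.n l37189 (nat_lit 11374) (nat_lit 8) (nat_lit 12))
    (@En.i (nat_lit 5487) (nat_lit 8) (nat_lit 5))
    (@En.n l37190 (nat_lit 10404) (nat_lit 10) (nat_lit 7))
    (@En.i (nat_lit 9322) (nat_lit 6) (nat_lit 12))
    (@En.n l3260 (nat_lit 7925) (nat_lit 12) (nat_lit 9))
    (@En.n l7471 (nat_lit 6561) (nat_lit 13) (nat_lit 6))
    (@En.n l3328 (nat_lit 2511) (nat_lit 14) (nat_lit 11))
    (@En.i (nat_lit 11094) (nat_lit 7) (nat_lit 7))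
    (@En.n l28 (nat_lit 9366) (nat_lit 15) (nat_lit 2))))
  (@Cl.mk (nat_lit 0x2000c000a000600090004000c00080006000d000400070003000a000e0008) (nat_lit 0x320305103000656) (nat_lit 16) Lb.e (@T16.mk En
    (@En.n l170 (nat_lit 9369) (nat_lit 13) (nat_lit 8))
    (@En.n l6625 (nat_lit 7989) (nat_lit 1) (nat_lit 14))
    (@En.i (nat_lit 9365) (nat_lit 2) (nat_lit 10))
    (@En.i (nat_lit 9371) (nat_lit 3) (nat_lit 3))
    (@En.n l387 (nat_lit 4832) (nat_lit 11) (nat_lit 7))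
    (@En.i (nat_lit 9301) (nat_lit 5) (nat_lit 4))
    (@En.n l11456 (nat_lit 11377) (nat_lit 7) (nat_lit 13))
    (@En.i (nat_lit 5469) (nat_lit 7) (nat_lit 6))
    (@En.i (nat_lit 6848) (nat_lit 4) (nat_lit 8))
    (@En.n l11835 (nat_lit 9366) (nat_lit 10) (nat_lit 12))
    (@En.n l28 (nat_lit 10051) (nat_lit 10) (nat_lit 4))
    (@En.n l170 (nat_lit 7924) (nat_lit 12) (nat_lit 9))
    (@En.n l4306 (nat_lit 6642) (nat_lit 13) (nat_lit 6))
    (@En.n l77 (nat_lit 1757) (nat_lit 14) (nat_lit 10))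
    (@En.n l10491 (nat_lit 10515) (nat_lit 11) (nat_lit 12))
    (@En.n l107 (nat_lit 9367) (nat_lit 15) (nat_lit 2))))
  (@Cl.mk (nat_lit 0x50008000b00070007000b00080005000900080005000b0009000900080007) (nat_lit 0x360071024061250) (nat_lit 16) Lb.e (@T16.mk En
    (@En.n l77 (nat_lit 9896) (nat_lit 9) (nat_lit 7))
    (@En.n l55 (nat_lit 10663) (nat_lit 8) (nat_lit 8))
    (@En.n l42826 (nat_lit 9365) (nat_lit 7) (nat_lit 9))
    (@En.n l42827 (nat_lit 6843) (nat_lit 7) (nat_lit 9))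
    (@En.n l39425 (nat_lit 9364) (nat_lit 10) (nat_lit 11))
    (@En.n l23006 (nat_lit 9374) (nat_lit 11) (nat_lit 5))
    (@En.n l37313 (nat_lit 9369) (nat_lit 8) (nat_lit 8))
    (@En.n l42827 (nat_lit 11323) (nat_lit 10) (nat_lit 9))
    (@En.n l42828 (nat_lit 6643) (nat_lit 2) (nat_lit 5))
    (@En.i (nat_lit 2507) (nat_lit 0) (nat_lit 8))
    (@En.n l38990 (nat_lit 10510) (nat_lit 8) (nat_lit 11))
    (@En.n l42829 (nat_lit 9630) (nat_lit 9) (nat_lit 7))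
    (@En.n l28289 (nat_lit 10733) (nat_lit 6) (nat_lit 7))
    (@En.n l15438 (nat_lit 9617) (nat_lit 7) (nat_lit 11))
    (@En.n l28289 (nat_lit 4831) (nat_lit 10) (nat_lit 8))
    (@En.n l4155 (nat_lit 8823) (nat_lit 11) (nat_lit 5))))
  (@Cl.mk (nat_lit 0x3000b00080008000c0009000500080004000b000800080007000d00050008) (nat_lit 0x750810305120603) (nat_lit 16) Lb.e (@T16.mk En
    (@En.n l24629 (nat_lit 4839) (nat_lit 10) (nat_lit 8))
    (@En.n l2604 (nat_lit 8826) (nat_lit 9) (nat_lit 5))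
    (@En.n l31999 (nat_lit 11705) (nat_lit 2) (nat_lit 13))
    (@En.n l644 (nat_lit 10661) (nat_lit 9) (nat_lit 7))
    (@En.n l8262 (nat_lit 9367) (nat_lit 8) (nat_lit 8))
    (@En.n l40474 (nat_lit 6847) (nat_lit 5) (nat_lit 8))
    (@En.i (nat_lit 9370) (nat_lit 7) (nat_lit 11))
    (@En.n l40475 (nat_lit 9375) (nat_lit 7) (nat_lit 4))
    (@En.i (nat_lit 7929) (nat_lit 10) (nat_lit 8))
    (@En.n l3393 (nat_lit 6639) (nat_lit 9) (nat_lit 5))
    (@En.n l40476 (nat_lit 2506) (nat_lit 11) (nat_lit 9))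
    (@En.n l31999 (nat_lit 10514) (nat_lit 7) (nat_lit 12))
    (@En.n l40477 (nat_lit 9629) (nat_lit 8) (nat_lit 8))
    (@En.n l40478 (nat_lit 10944) (nat_lit 14) (nat_lit 8))
    (@En.n l33208 (nat_lit 9368) (nat_lit 13) (nat_lit 11))
    (@En.n l2832 (nat_lit 9372) (nat_lit 15) (nat_lit 3))))
  (@Cl.mk (nat_lit 0x4000b000900090006000a00050008000b000700070006000c0005000a0008) (nat_lit 0x870010240005034) (nat_lit 16) Lb.e (@T16.mk En
    (@En.n l17 (nat_lit 9369) (nat_lit 0) (nat_lit 8))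
    (@En.n l31998 (nat_lit 9640) (nat_lit 1) (nat_lit 10))
    (@En.n l16750 (nat_lit 8821) (nat_lit 8) (nat_lit 5))
    (@En.n l31999 (nat_lit 11344) (nat_lit 0) (nat_lit 12))
    (@En.n l3384 (nat_lit 10675) (nat_lit 10) (nat_lit 6))
    (@En.n l19421 (nat_lit 9366) (nat_lit 9) (nat_lit 7))
    (@En.n l32000 (nat_lit 10406) (nat_lit 6) (nat_lit 7))
    (@En.n l3384 (nat_lit 9326) (nat_lit 7) (nat_lit 11))
    (@En.i (nat_lit 7931) (nat_lit 10) (nat_lit 8))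
    (@En.n l3393 (nat_lit 6559) (nat_lit 9) (nat_lit 5))
    (@En.n l32001 (nat_lit 2504) (nat_lit 9) (nat_lit 10))
    (@En.n l32002 (nat_lit 11086) (nat_lit 1) (nat_lit 6))
    (@En.n l32003 (nat_lit 9632) (nat_lit 7) (nat_lit 9))
    (@En.n l32004 (nat_lit 10952) (nat_lit 7) (nat_lit 9))
    (@En.n l31230 (nat_lit 9364) (nat_lit 2) (nat_lit 11))
    (@En.n l32005 (nat_lit 7574) (nat_lit 15) (nat_lit 4))))
  (@Cl.mk (nat_lit 0x2000c000a0006000a0004000b00080006000d000600050003000a000e0008) (nat_lit 0x310207108000656) (nat_lit 16) Lb.e (@T16.mk En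
    (@En.n l14865 (nat_lit 9372) (nat_lit 13) (nat_lit 8))
    (@En.n l14869 (nat_lit 9992) (nat_lit 1) (nat_lit 14))
    (@En.n l27269 (nat_lit 9615) (nat_lit 2) (nat_lit 10))
    (@En.n l18 (nat_lit 9367) (nat_lit 3) (nat_lit 3))
    (@En.n l3307 (nat_lit 9307) (nat_lit 0) (nat_lit 5))
    (@En.n l61 (nat_lit 9365) (nat_lit 5) (nat_lit 6))
    (@En.n l37319 (nat_lit 11707) (nat_lit 7) (nat_lit 13))
    (@En.i (nat_lit 7612) (nat_lit 7) (nat_lit 6))
    (@En.n l12442 (nat_lit 6851) (nat_lit 4) (nat_lit 8))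
    (@En.n l3540 (nat_lit 7575) (nat_lit 10) (nat_lit 11))
    (@En.n l37320 (nat_lit 10050) (nat_lit 10) (nat_lit 4))
    (@En.n l12442 (nat_lit 11308) (nat_lit 12) (nat_lit 10))
    (@En.n l1397 (nat_lit 6640) (nat_lit 13) (nat_lit 6))
    (@En.n l77 (nat_lit 1749) (nat_lit 14) (nat_lit 10))
    (@En.n l10491 (nat_lit 10054) (nat_lit 11) (nat_lit 12))
    (@En.n l107 (nat_lit 9371) (nat_lit 15) (nat_lit 2))))
  (@Cl.mk (nat_lit 0x3000b00080008000c0009000500090004000a000800080007000d00070006) (nat_lit 0x750810205120600) (nat_lit 16) Lb.e (@T16.mk En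
    (@En.n l18 (nat_lit 9308) (nat_lit 0) (nat_lit 6))
    (@En.n l21468 (nat_lit 9368) (nat_lit 0) (nat_lit 7))
    (@En.n l31984 (nat_lit 11706) (nat_lit 2) (nat_lit 13))
    (@En.n l55 (nat_lit 10664) (nat_lit 9) (nat_lit 7))
    (@En.n l3490 (nat_lit 9371) (nat_lit 8) (nat_lit 8))
    (@En.n l31985 (nat_lit 6850) (nat_lit 5) (nat_lit 8))
    (@En.n l15273 (nat_lit 7574) (nat_lit 7) (nat_lit 10))
    (@En.n l27812 (nat_lit 10048) (nat_lit 7) (nat_lit 4))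
    (@En.n l31985 (nat_lit 10467) (nat_lit 0) (nat_lit 9))
    (@En.i (nat_lit 6637) (nat_lit 1) (nat_lit 5))
    (@En.n l31986 (nat_lit 2508) (nat_lit 11) (nat_lit 9))
    (@En.n l31987 (nat_lit 10055) (nat_lit 7) (nat_lit 12))
    (@En.n l31988 (nat_lit 9631) (nat_lit 8) (nat_lit 8))
    (@En.n l31989 (nat_lit 10949) (nat_lit 14) (nat_lit 8))
    (@En.n l21358 (nat_lit 9616) (nat_lit 4) (nat_lit 11))
    (@En.n l3519 (nat_lit 9369) (nat_lit 15) (nat_lit 3))))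
  (@Cl.mk (nat_lit 0x2000b0006000a0007000b0005000c0009000600050004000a0009000e0007) (nat_lit 0x302020600004570) (nat_lit 16) Lb.e (@T16.mk En
    (@En.n l17645 (nat_lit 9374) (nat_lit 2) (nat_lit 7))
    (@En.n l23983 (nat_lit 9286) (nat_lit 1) (nat_lit 14))
    (@En.n l8015 (nat_lit 9619) (nat_lit 2) (nat_lit 9))
    (@En.n l37511 (nat_lit 9484) (nat_lit 3) (nat_lit 10))
    (@En.n l37512 (nat_lit 9268) (nat_lit 4) (nat_lit 4))
    (@En.i (nat_lit 9900) (nat_lit 5) (nat_lit 5))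
    (@En.n l37513 (nat_lit 5180) (nat_lit 6) (nat_lit 6))
    (@En.n l37514 (nat_lit 9814) (nat_lit 8) (nat_lit 9))
    (@En.n l37515 (nat_lit 8965) (nat_lit 9) (nat_lit 12))
    (@En.n l19713 (nat_lit 10049) (nat_lit 9) (nat_lit 5))
    (@En.n l16302 (nat_lit 11313) (nat_lit 11) (nat_lit 11))
    (@En.n l10266 (nat_lit 6898) (nat_lit 12) (nat_lit 7))
    (@En.n l23475 (nat_lit 9371) (nat_lit 13) (nat_lit 10))
    (@En.n l37516 (nat_lit 9363) (nat_lit 14) (nat_lit 6))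
    (@En.n l37517 (nat_lit 10498) (nat_lit 10) (nat_lit 11))
    (@En.n l17 (nat_lit 9373) (nat_lit 15) (nat_lit 2))))
  (@Cl.mk (nat_lit 0x500090006000a0005000b00090009000700060005000b000a00070007000b) (nat_lit 0x202080100036004) (nat_lit 16) Lb.e (@T16.mk En
    (@En.i (nat_lit 10496) (nat_lit 8) (nat_lit 11))
    (@En.n l40039 (nat_lit 9568) (nat_lit 9) (nat_lit 7))
    (@En.n l40025 (nat_lit 11077) (nat_lit 2) (nat_lit 7))
    (@En.n l40040 (nat_lit 9618) (nat_lit 6) (nat_lit 10))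
    (@En.n l40041 (nat_lit 9481) (nat_lit 10) (nat_lit 11))
    (@En.n l40042 (nat_lit 9270) (nat_lit 11) (nat_lit 5))
    (@En.i (nat_lit 9897) (nat_lit 10) (nat_lit 6))
    (@En.n l40043 (nat_lit 9697) (nat_lit 9) (nat_lit 7))
    (@En.n l22642 (nat_lit 9373) (nat_lit 7) (nat_lit 9))
    (@En.n l40044 (nat_lit 9812) (nat_lit 7) (nat_lit 9))
    (@En.n l40043 (nat_lit 8964) (nat_lit 10) (nat_lit 11))
    (@En.n l32547 (nat_lit 9515) (nat_lit 5) (nat_lit 5))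
    (@En.n l40044 (nat_lit 11328) (nat_lit 9) (nat_lit 10))
    (@En.n l40045 (nat_lit 6840) (nat_lit 1) (nat_lit 6))
    (@En.n l40046 (nat_lit 9372) (nat_lit 10) (nat_lit 9))
    (@En.n l40047 (nat_lit 9364) (nat_lit 15) (nat_lit 5))))
  (@Cl.mk (nat_lit 0x3000a00080008000c0006000a00060004000b000800080006000d0005000a) (nat_lit 0x700302007000305) (nat_lit 16) Lb.e (@T16.mk En
    (@En.n l28 (nat_lit 9505) (nat_lit 0) (nat_lit 10))
    (@En.n l43466 (nat_lit 9455) (nat_lit 9) (nat_lit 5))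
    (@En.n l77 (nat_lit 11704) (nat_lit 2) (nat_lit 13))
    (@En.n l40732 (nat_lit 9822) (nat_lit 3) (nat_lit 6))
    (@En.n l43467 (nat_lit 10051) (nat_lit 8) (nat_lit 8))
    (@En.n l40847 (nat_lit 10510) (nat_lit 5) (nat_lit 8))
    (@En.n l40653 (nat_lit 9332) (nat_lit 7) (nat_lit 11))
    (@En.n l11228 (nat_lit 6270) (nat_lit 7) (nat_lit 4))
    (@En.n l27228 (nat_lit 5427) (nat_lit 8) (nat_lit 6))
    (@En.n l35998 (nat_lit 6256) (nat_lit 9) (nat_lit 10))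
    (@En.n l18114 (nat_lit 9370) (nat_lit 11) (nat_lit 6))
    (@En.i (nat_lit 10061) (nat_lit 7) (nat_lit 12))
    (@En.n l28755 (nat_lit 9512) (nat_lit 8) (nat_lit 8))
    (@En.n l43468 (nat_lit 10593) (nat_lit 14) (nat_lit 8))
    (@En.n l28329 (nat_lit 9374) (nat_lit 3) (nat_lit 10))
    (@En.n l43469 (nat_lit 10048) (nat_lit 15) (nat_lit 3))))
noncomputable def a586 : T16 Cl := @T16.mk Cl
  (@Cl.mk (nat_lit 0x20005000c000b0007000b000400080005000e00050002000b0009000e0008) (nat_lit 0x8307020c008655) (nat_lit 16) Lb.e (@T16.mk En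
    (@En.n l61 (nat_lit 9377) (nat_lit 12) (nat_lit 8))
    (@En.n l11556 (nat_lit 8996) (nat_lit 13) (nat_lit 14))
    (@En.n l20110 (nat_lit 9311) (nat_lit 14) (nat_lit 9))
    (@En.n l3519 (nat_lit 8384) (nat_lit 3) (nat_lit 11))
    (@En.n l28 (nat_lit 9376) (nat_lit 4) (nat_lit 2))
    (@En.i (nat_lit 9379) (nat_lit 5) (nat_lit 5))
    (@En.n l3519 (nat_lit 8066) (nat_lit 7) (nat_lit 14))
    (@En.n l6147 (nat_lit 2517) (nat_lit 7) (nat_lit 5))
    (@En.n l28801 (nat_lit 8659) (nat_lit 3) (nat_lit 8))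
    (@En.i (nat_lit 6833) (nat_lit 9) (nat_lit 4))
    (@En.i (nat_lit 12237) (nat_lit 11) (nat_lit 11))
    (@En.n l2101 (nat_lit 5347) (nat_lit 12) (nat_lit 7))
    (@En.n l28449 (nat_lit 6608) (nat_lit 13) (nat_lit 11))
    (@En.n l72 (nat_lit 9908) (nat_lit 9) (nat_lit 12))
    (@En.n l6147 (nat_lit 8989) (nat_lit 13) (nat_lit 5))
    (@En.n l17 (nat_lit 9376) (nat_lit 15) (nat_lit 2))))
  (@Cl.mk (nat_lit 0x2000c000a000800080004000c000a0006000a0004000800080006000e0006) (nat_lit 0x9641055060630c0) (nat_lit 16) Lb.e (@T16.mk En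
    (@En.i (nat_lit 9378) (nat_lit 5) (nat_lit 6))
    (@En.n l2038 (nat_lit 11547) (nat_lit 1) (nat_lit 14))
    (@En.n l20960 (nat_lit 9382) (nat_lit 2) (nat_lit 6))
    (@En.i (nat_lit 9376) (nat_lit 8) (nat_lit 8))
    (@En.i (nat_lit 8747) (nat_lit 4) (nat_lit 8))
    (@En.n l10326 (nat_lit 6836) (nat_lit 5) (nat_lit 4))
    (@En.i (nat_lit 12005) (nat_lit 0) (nat_lit 10))
    (@En.n l6131 (nat_lit 5346) (nat_lit 7) (nat_lit 6))
    (@En.n l25823 (nat_lit 6610) (nat_lit 9) (nat_lit 10))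
    (@En.n l18 (nat_lit 9906) (nat_lit 10) (nat_lit 12))
    (@En.i (nat_lit 8993) (nat_lit 10) (nat_lit 4))
    (@En.n l20115 (nat_lit 6723) (nat_lit 8) (nat_lit 8))
    (@En.n l1112 (nat_lit 9597) (nat_lit 13) (nat_lit 8))
    (@En.i (nat_lit 9312) (nat_lit 14) (nat_lit 10))
    (@En.i (nat_lit 8387) (nat_lit 3) (nat_lit 12))
    (@En.n l28 (nat_lit 9377) (nat_lit 15) (nat_lit 2))))
  (@Cl.mk (nat_lit 0x4000b00090006000a000a000500090009000700060006000c000a00070007) (nat_lit 0x550670150009500) (nat_lit 16) Lb.e (@T16.mk En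
    (@En.n l20115 (nat_lit 11521) (nat_lit 9) (nat_lit 7))
    (@En.n l5770 (nat_lit 9080) (nat_lit 1) (nat_lit 7))
    (@En.n l20108 (nat_lit 9316) (nat_lit 6) (nat_lit 10))
    (@En.n l1113 (nat_lit 9255) (nat_lit 3) (nat_lit 12))
    (@En.n l16882 (nat_lit 9384) (nat_lit 10) (nat_lit 6))
    (@En.n l13917 (nat_lit 8628) (nat_lit 10) (nat_lit 6))
    (@En.n l3745 (nat_lit 9381) (nat_lit 9) (nat_lit 7))
    (@En.i (nat_lit 9379) (nat_lit 7) (nat_lit 9))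
    (@En.i (nat_lit 8750) (nat_lit 10) (nat_lit 9))
    (@En.n l936 (nat_lit 9129) (nat_lit 9) (nat_lit 5))
    (@En.n l55 (nat_lit 9377) (nat_lit 6) (nat_lit 10))
    (@En.i (nat_lit 12003) (nat_lit 9) (nat_lit 10))
    (@En.n l14125 (nat_lit 5353) (nat_lit 2) (nat_lit 6))
    (@En.n l20108 (nat_lit 6611) (nat_lit 7) (nat_lit 9))
    (@En.n l18 (nat_lit 9616) (nat_lit 1) (nat_lit 11))
    (@En.n l8306 (nat_lit 9586) (nat_lit 15) (nat_lit 4))))
  (@Cl.mk (nat_lit 0x20005000b000a0007000b000b00050009000600050005000b0009000e0007) (nat_lit 0x620780400035b0) (nat_lit 16) Lb.e (@T16.mk En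
    (@En.n l61 (nat_lit 9378) (nat_lit 1) (nat_lit 7))
    (@En.n l15244 (nat_lit 9380) (nat_lit 1) (nat_lit 14))
    (@En.n l14394 (nat_lit 9317) (nat_lit 2) (nat_lit 9))
    (@En.n l30291 (nat_lit 6896) (nat_lit 3) (nat_lit 11))
    (@En.n l30292 (nat_lit 9383) (nat_lit 4) (nat_lit 5))
    (@En.n l5645 (nat_lit 9137) (nat_lit 5) (nat_lit 5))
    (@En.n l6147 (nat_lit 756) (nat_lit 6) (nat_lit 6))
    (@En.n l29885 (nat_lit 8654) (nat_lit 8) (nat_lit 9))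
    (@En.n l11364 (nat_lit 9132) (nat_lit 8) (nat_lit 5))
    (@En.n l55 (nat_lit 9376) (nat_lit 10) (nat_lit 11))
    (@En.i (nat_lit 12603) (nat_lit 11) (nat_lit 11))
    (@En.n l669 (nat_lit 5355) (nat_lit 12) (nat_lit 7))
    (@En.n l28449 (nat_lit 6609) (nat_lit 13) (nat_lit 10))
    (@En.n l72 (nat_lit 9615) (nat_lit 14) (nat_lit 11))
    (@En.n l6147 (nat_lit 7650) (nat_lit 13) (nat_lit 5))
    (@En.n l17 (nat_lit 9379) (nat_lit 15) (nat_lit 2))))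
  (@Cl.mk (nat_lit 0x2000c0005000b000a0004000b000b0005000a000600050005000b000e0006) (nat_lit 0x6063009040004a0) (nat_lit 16) Lb.e (@T16.mk En
    (@En.n l15675 (nat_lit 9387) (nat_lit 5) (nat_lit 6))
    (@En.i (nat_lit 8984) (nat_lit 4) (nat_lit 14))
    (@En.n l6340 (nat_lit 6897) (nat_lit 2) (nat_lit 11))
    (@En.n l6348 (nat_lit 9386) (nat_lit 11) (nat_lit 5))
    (@En.i (nat_lit 9446) (nat_lit 4) (nat_lit 5))
    (@En.n l12423 (nat_lit 760) (nat_lit 5) (nat_lit 6))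
    (@En.i (nat_lit 8657) (nat_lit 7) (nat_lit 10))
    (@En.n l15676 (nat_lit 9445) (nat_lit 7) (nat_lit 5))
    (@En.n l134 (nat_lit 8996) (nat_lit 5) (nat_lit 11))
    (@En.n l6352 (nat_lit 12604) (nat_lit 10) (nat_lit 11))
    (@En.n l15677 (nat_lit 9305) (nat_lit 10) (nat_lit 4))
    (@En.n l2730 (nat_lit 6613) (nat_lit 12) (nat_lit 10))
    (@En.n l15678 (nat_lit 6038) (nat_lit 13) (nat_lit 11))
    (@En.n l6354 (nat_lit 9379) (nat_lit 14) (nat_lit 5))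
    (@En.n l15675 (nat_lit 9381) (nat_lit 3) (nat_lit 12))
    (@En.n l18 (nat_lit 9380) (nat_lit 15) (nat_lit 2))))
  (@Cl.mk (nat_lit 0x40007000b000b0006000a000700050005000c00090006000c0004000a0009) (nat_lit 0x50008405062) (nat_lit 16) Lb.e (@T16.mk En
    (@En.n l30134 (nat_lit 6617) (nat_lit 7) (nat_lit 9))
    (@En.n l30135 (nat_lit 7190) (nat_lit 1) (nat_lit 10))
    (@En.n l9823 (nat_lit 8223) (nat_lit 15) (nat_lit 4))
    (@En.n l30136 (nat_lit 9656) (nat_lit 0) (nat_lit 12))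
    (@En.i (nat_lit 9079) (nat_lit 1) (nat_lit 6))
    (@En.n l26735 (nat_lit 9478) (nat_lit 5) (nat_lit 9))
    (@En.n l30137 (nat_lit 8823) (nat_lit 3) (nat_lit 12))
    (@En.n l30138 (nat_lit 9385) (nat_lit 11) (nat_lit 5))
    (@En.n l9824 (nat_lit 9788) (nat_lit 8) (nat_lit 5))
    (@En.n l30139 (nat_lit 759) (nat_lit 0) (nat_lit 7))
    (@En.i (nat_lit 8723) (nat_lit 9) (nat_lit 10))
    (@En.n l30140 (nat_lit 9654) (nat_lit 2) (nat_lit 6))
    (@En.n l16634 (nat_lit 9382) (nat_lit 5) (nat_lit 11))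
    (@En.n l30136 (nat_lit 11813) (nat_lit 8) (nat_lit 11))
    (@En.n l14253 (nat_lit 9379) (nat_lit 11) (nat_lit 7))
    (@En.n l30141 (nat_lit 9463) (nat_lit 15) (nat_lit 4))))
  (@Cl.mk (nat_lit 0x2000c00090007000c0004000b000a00040007000b000500090006000e0005) (nat_lit 0x850305300901050) (nat_lit 16) Lb.e (@T16.mk En
    (@En.n l25111 (nat_lit 9381) (nat_lit 8) (nat_lit 5))
    (@En.n l22925 (nat_lit 9772) (nat_lit 1) (nat_lit 14))
    (@En.n l12308 (nat_lit 2053) (nat_lit 2) (nat_lit 6))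
    (@En.n l24348 (nat_lit 8724) (nat_lit 3) (nat_lit 9))
    (@En.n l22465 (nat_lit 6916) (nat_lit 4) (nat_lit 5))
    (@En.n l16345 (nat_lit 10156) (nat_lit 8) (nat_lit 11))
    (@En.n l41803 (nat_lit 9376) (nat_lit 11) (nat_lit 7))
    (@En.n l38518 (nat_lit 9461) (nat_lit 7) (nat_lit 4))
    (@En.n l1867 (nat_lit 6687) (nat_lit 9) (nat_lit 10))
    (@En.n l41408 (nat_lit 9904) (nat_lit 10) (nat_lit 11))
    (@En.n l5774 (nat_lit 8994) (nat_lit 10) (nat_lit 4))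
    (@En.n l16345 (nat_lit 9657) (nat_lit 12) (nat_lit 12))
    (@En.n l97 (nat_lit 9596) (nat_lit 13) (nat_lit 7))
    (@En.n l34648 (nat_lit 9483) (nat_lit 14) (nat_lit 9))
    (@En.n l16345 (nat_lit 8390) (nat_lit 3) (nat_lit 12))
    (@En.n l28 (nat_lit 9382) (nat_lit 15) (nat_lit 2))))
  (@Cl.mk (nat_lit 0x20005000a00090007000e000b00020006000a00070005000b0009000e0006) (nat_lit 0x640380060084b0) (nat_lit 16) Lb.e (@T16.mk En
    (@En.n l1992 (nat_lit 9384) (nat_lit 7) (nat_lit 6))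
    (@En.n l8 (nat_lit 9386) (nat_lit 9) (nat_lit 14))
    (@En.i (nat_lit 9502) (nat_lit 10) (nat_lit 9))
    (@En.n l1501 (nat_lit 6885) (nat_lit 3) (nat_lit 11))
    (@En.n l133 (nat_lit 7902) (nat_lit 4) (nat_lit 5))
    (@En.n l22005 (nat_lit 754) (nat_lit 5) (nat_lit 7))
    (@En.n l9967 (nat_lit 8651) (nat_lit 14) (nat_lit 10))
    (@En.n l22006 (nat_lit 9134) (nat_lit 7) (nat_lit 6))
    (@En.n l18 (nat_lit 9383) (nat_lit 8) (nat_lit 2))
    (@En.n l22007 (nat_lit 9379) (nat_lit 10) (nat_lit 11))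
    (@En.n l21571 (nat_lit 7011) (nat_lit 11) (nat_lit 14))
    (@En.n l9967 (nat_lit 7178) (nat_lit 2) (nat_lit 7))
    (@En.n l1769 (nat_lit 6612) (nat_lit 13) (nat_lit 9))
    (@En.n l22008 (nat_lit 9614) (nat_lit 4) (nat_lit 10))
    (@En.n l8266 (nat_lit 6785) (nat_lit 5) (nat_lit 5))
    (@En.n l11 (nat_lit 9383) (nat_lit 15) (nat_lit 2))))
  (@Cl.mk (nat_lit 0x20006000a000a00080006000c000a000600060004000a00080006000e000a) (nat_lit 0x472095000520a7) (nat_lit 16) Lb.e (@T16.mk En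
    (@En.n l17434 (nat_lit 9378) (nat_lit 11) (nat_lit 10))
    (@En.n l17435 (nat_lit 6543) (nat_lit 1) (nat_lit 14))
    (@En.n l17436 (nat_lit 7179) (nat_lit 2) (nat_lit 6))
    (@En.i (nat_lit 6696) (nat_lit 3) (nat_lit 8))
    (@En.n l17437 (nat_lit 9617) (nat_lit 4) (nat_lit 10))
    (@En.n l17438 (nat_lit 9601) (nat_lit 5) (nat_lit 4))
    (@En.n l14329 (nat_lit 11518) (nat_lit 6) (nat_lit 6))
    (@En.n l17435 (nat_lit 9604) (nat_lit 7) (nat_lit 6))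
    (@En.i (nat_lit 9503) (nat_lit 9) (nat_lit 10))
    (@En.n l17439 (nat_lit 2314) (nat_lit 10) (nat_lit 12))
    (@En.n l17440 (nat_lit 8623) (nat_lit 11) (nat_lit 6))
    (@En.n l2824 (nat_lit 9385) (nat_lit 12) (nat_lit 8))
    (@En.n l2691 (nat_lit 9383) (nat_lit 6) (nat_lit 10))
    (@En.n l2824 (nat_lit 9832) (nat_lit 14) (nat_lit 10))
    (@En.n l17441 (nat_lit 8631) (nat_lit 13) (nat_lit 6))
    (@En.n l18 (nat_lit 9384) (nat_lit 15) (nat_lit 2))))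
  (@Cl.mk (nat_lit 0x20007000b00080005000c00090005000c00040009000800040007000e000b) (nat_lit 0x61074040520031) (nat_lit 16) Lb.e (@T16.mk En
    (@En.n l20391 (nat_lit 9381) (nat_lit 13) (nat_lit 11))
    (@En.n l20392 (nat_lit 11584) (nat_lit 1) (nat_lit 14))
    (@En.n l3517 (nat_lit 9383) (nat_lit 11) (nat_lit 7))
    (@En.n l14194 (nat_lit 9565) (nat_lit 3) (nat_lit 4))
    (@En.n l9877 (nat_lit 6772) (nat_lit 4) (nat_lit 8))
    (@En.n l20393 (nat_lit 9880) (nat_lit 5) (nat_lit 9))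
    (@En.n l20394 (nat_lit 8222) (nat_lit 6) (nat_lit 4))
    (@En.n l7757 (nat_lit 9867) (nat_lit 8) (nat_lit 12))
    (@En.n l13622 (nat_lit 9081) (nat_lit 8) (nat_lit 5))
    (@En.i (nat_lit 9485) (nat_lit 10) (nat_lit 9))
    (@En.n l19624 (nat_lit 2592) (nat_lit 11) (nat_lit 12))
    (@En.n l10179 (nat_lit 9790) (nat_lit 12) (nat_lit 5))
    (@En.i (nat_lit 755) (nat_lit 13) (nat_lit 8))
    (@En.i (nat_lit 9153) (nat_lit 14) (nat_lit 11))
    (@En.n l7760 (nat_lit 9785) (nat_lit 7) (nat_lit 7))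
    (@En.n l7 (nat_lit 9385) (nat_lit 15) (nat_lit 2))))
  (@Cl.mk (nat_lit 0x20006000b00070005000b000e00050002000c0005000a00090004000e000b) (nat_lit 0x5007a005064081) (nat_lit 16) Lb.e (@T16.mk En
    (@En.n l3257 (nat_lit 9380) (nat_lit 9) (nat_lit 11))
    (@En.n l9479 (nat_lit 7010) (nat_lit 1) (nat_lit 14))
    (@En.n l7 (nat_lit 9531) (nat_lit 2) (nat_lit 4))
    (@En.n l1769 (nat_lit 6695) (nat_lit 12) (nat_lit 9))
    (@En.n l9480 (nat_lit 7411) (nat_lit 4) (nat_lit 10))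
    (@En.i (nat_lit 9383) (nat_lit 14) (nat_lit 5))
    (@En.n l3850 (nat_lit 9385) (nat_lit 7) (nat_lit 12))
    (@En.n l11 (nat_lit 9386) (nat_lit 7) (nat_lit 2))
    (@En.n l9481 (nat_lit 9388) (nat_lit 8) (nat_lit 5))
    (@En.n l133 (nat_lit 8645) (nat_lit 10) (nat_lit 14))
    (@En.n l1501 (nat_lit 6886) (nat_lit 11) (nat_lit 11))
    (@En.n l133 (nat_lit 7904) (nat_lit 3) (nat_lit 5))
    (@En.n l9482 (nat_lit 753) (nat_lit 13) (nat_lit 7))
    (@En.n l133 (nat_lit 8649) (nat_lit 14) (nat_lit 11))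
    (@En.n l388 (nat_lit 9444) (nat_lit 6) (nat_lit 6))
    (@En.n l18 (nat_lit 9386) (nat_lit 15) (nat_lit 2))))
  (@Cl.mk (nat_lit 0x4000a000a0005000a000a000700060006000c00060006000c0004000b0009) (nat_lit 0x780150006003054) (nat_lit 16) Lb.e (@T16.mk En
    (@En.n l27709 (nat_lit 6693) (nat_lit 0) (nat_lit 9))
    (@En.n l27710 (nat_lit 6040) (nat_lit 1) (nat_lit 11))
    (@En.n l15619 (nat_lit 9378) (nat_lit 15) (nat_lit 4))
    (@En.i (nat_lit 9079) (nat_lit 0) (nat_lit 12))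
    (@En.n l27711 (nat_lit 11520) (nat_lit 10) (nat_lit 6))
    (@En.n l23126 (nat_lit 9591) (nat_lit 5) (nat_lit 6))
    (@En.n l27712 (nat_lit 9257) (nat_lit 3) (nat_lit 12))
    (@En.n l11 (nat_lit 9388) (nat_lit 10) (nat_lit 6))
    (@En.n l27390 (nat_lit 9441) (nat_lit 10) (nat_lit 6))
    (@En.n l17 (nat_lit 8226) (nat_lit 6) (nat_lit 7))
    (@En.n l27713 (nat_lit 9380) (nat_lit 6) (nat_lit 10))
    (@En.i (nat_lit 8754) (nat_lit 10) (nat_lit 10))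
    (@En.n l27714 (nat_lit 9434) (nat_lit 9) (nat_lit 5))
    (@En.n l8009 (nat_lit 8997) (nat_lit 6) (nat_lit 10))
    (@En.n l15619 (nat_lit 10747) (nat_lit 1) (nat_lit 10))
    (@En.n l27715 (nat_lit 9315) (nat_lit 15) (nat_lit 4))))
  (@Cl.mk (nat_lit 0x20006000b000b00080006000c00050005000c0004000a00080004000e000a) (nat_lit 0x466090040540a8) (nat_lit 16) Lb.e (@T16.mk En
    (@En.n l68 (nat_lit 9387) (nat_lit 14) (nat_lit 10))
    (@En.n l16934 (nat_lit 6446) (nat_lit 1) (nat_lit 14))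
    (@En.n l16935 (nat_lit 9516) (nat_lit 2) (nat_lit 4))
    (@En.n l16936 (nat_lit 6691) (nat_lit 3) (nat_lit 8))
    (@En.n l16937 (nat_lit 5314) (nat_lit 4) (nat_lit 10))
    (@En.n l16936 (nat_lit 9384) (nat_lit 5) (nat_lit 4))
    (@En.i (nat_lit 9081) (nat_lit 7) (nat_lit 12))
    (@En.n l16938 (nat_lit 11519) (nat_lit 7) (nat_lit 5))
    (@En.n l16939 (nat_lit 9600) (nat_lit 8) (nat_lit 5))
    (@En.n l6007 (nat_lit 2311) (nat_lit 10) (nat_lit 12))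
    (@En.n l16940 (nat_lit 8609) (nat_lit 11) (nat_lit 6))
    (@En.n l16941 (nat_lit 8225) (nat_lit 12) (nat_lit 8))
    (@En.n l16942 (nat_lit 9386) (nat_lit 13) (nat_lit 11))
    (@En.i (nat_lit 9833) (nat_lit 14) (nat_lit 11))
    (@En.n l16943 (nat_lit 9432) (nat_lit 13) (nat_lit 6))
    (@En.n l67 (nat_lit 9388) (nat_lit 15) (nat_lit 2))))
  (@Cl.mk (nat_lit 0x3000a0008000b0006000a000a00060005000a000800060006000d000a0006) (nat_lit 0x428078006500940) (nat_lit 16) Lb.e (@T16.mk En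
    (@En.i (nat_lit 11509) (nat_lit 0) (nat_lit 6))
    (@En.n l26735 (nat_lit 9481) (nat_lit 6) (nat_lit 10))
    (@En.n l134 (nat_lit 8822) (nat_lit 2) (nat_lit 13))
    (@En.n l33048 (nat_lit 9868) (nat_lit 10) (nat_lit 6))
    (@En.n l6891 (nat_lit 9980) (nat_lit 4) (nat_lit 6))
    (@En.n l20244 (nat_lit 9656) (nat_lit 5) (nat_lit 8))
    (@En.i (nat_lit 9381) (nat_lit 10) (nat_lit 10))
    (@En.n l33049 (nat_lit 10007) (nat_lit 11) (nat_lit 5))
    (@En.n l33050 (nat_lit 9649) (nat_lit 8) (nat_lit 6))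
    (@En.n l33051 (nat_lit 9658) (nat_lit 6) (nat_lit 10))
    (@En.n l30136 (nat_lit 10141) (nat_lit 9) (nat_lit 10))
    (@En.n l14253 (nat_lit 9378) (nat_lit 12) (nat_lit 6))
    (@En.n l28431 (nat_lit 11559) (nat_lit 7) (nat_lit 11))
    (@En.n l33052 (nat_lit 6726) (nat_lit 14) (nat_lit 8))
    (@En.n l33053 (nat_lit 9840) (nat_lit 2) (nat_lit 10))
    (@En.n l33054 (nat_lit 9359) (nat_lit 15) (nat_lit 3))))
  (@Cl.mk (nat_lit 0x2000c000b000900080004000d0005000b00030007000c00080005000e0004) (nat_lit 0x4923080200a5090) (nat_lit 16) Lb.e (@T16.mk En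
    (@En.n l1992 (nat_lit 8731) (nat_lit 9) (nat_lit 4))
    (@En.n l1501 (nat_lit 4186) (nat_lit 1) (nat_lit 14))
    (@En.n l2125 (nat_lit 7421) (nat_lit 2) (nat_lit 5))
    (@En.n l2576 (nat_lit 7158) (nat_lit 3) (nat_lit 8))
    (@En.i (nat_lit 9195) (nat_lit 14) (nat_lit 12))
    (@En.n l9182 (nat_lit 8733) (nat_lit 5) (nat_lit 7))
    (@En.i (nat_lit 9391) (nat_lit 6) (nat_lit 3))
    (@En.i (nat_lit 9386) (nat_lit 0) (nat_lit 11))
    (@En.n l29002 (nat_lit 8273) (nat_lit 8) (nat_lit 5))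
    (@En.n l9479 (nat_lit 10880) (nat_lit 10) (nat_lit 13))
    (@En.n l7 (nat_lit 8926) (nat_lit 10) (nat_lit 4))
    (@En.n l1769 (nat_lit 8686) (nat_lit 12) (nat_lit 8))
    (@En.n l25147 (nat_lit 10220) (nat_lit 13) (nat_lit 9))
    (@En.n l644 (nat_lit 8724) (nat_lit 14) (nat_lit 11))
    (@En.i (nat_lit 10557) (nat_lit 8) (nat_lit 12))
    (@En.n l11 (nat_lit 9390) (nat_lit 15) (nat_lit 2))))
  (@Cl.mk (nat_lit 0x2000c000a000900080004000d000a000600030007000c00080006000e0004) (nat_lit 0x482206200016090) (nat_lit 16) Lb.e (@T16.mk En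
    (@En.n l1992 (nat_lit 9392) (nat_lit 9) (nat_lit 4))
    (@En.n l4806 (nat_lit 4189) (nat_lit 1) (nat_lit 14))
    (@En.n l6080 (nat_lit 7427) (nat_lit 2) (nat_lit 6))
    (@En.n l30520 (nat_lit 7161) (nat_lit 3) (nat_lit 8))
    (@En.n l6080 (nat_lit 9196) (nat_lit 14) (nat_lit 12))
    (@En.n l40466 (nat_lit 5615) (nat_lit 5) (nat_lit 7))
    (@En.n l18 (nat_lit 9390) (nat_lit 6) (nat_lit 3))
    (@En.n l4356 (nat_lit 7936) (nat_lit 0) (nat_lit 6))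
    (@En.n l899 (nat_lit 8751) (nat_lit 9) (nat_lit 10))
    (@En.n l31017 (nat_lit 10879) (nat_lit 10) (nat_lit 13))
    (@En.n l40467 (nat_lit 8925) (nat_lit 10) (nat_lit 4))
    (@En.n l1769 (nat_lit 7943) (nat_lit 12) (nat_lit 8))
    (@En.n l18946 (nat_lit 10224) (nat_lit 13) (nat_lit 9))
    (@En.n l6080 (nat_lit 8722) (nat_lit 14) (nat_lit 10))
    (@En.n l29923 (nat_lit 10552) (nat_lit 8) (nat_lit 12))
    (@En.n l11 (nat_lit 9391) (nat_lit 15) (nat_lit 2))))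
noncomputable def a587 : T16 Cl := @T16.mk Cl
  (@Cl.mk (nat_lit 0x30007000c000c0009000700040004000c000a000900070004000d00090006) (nat_lit 0x42600038600830) (nat_lit 16) Lb.e (@T16.mk En
    (@En.n l16268 (nat_lit 7246) (nat_lit 0) (nat_lit 6))
    (@En.n l43217 (nat_lit 8752) (nat_lit 14) (nat_lit 9))
    (@En.n l43218 (nat_lit 9164) (nat_lit 2) (nat_lit 13))
    (@En.n l43219 (nat_lit 9167) (nat_lit 3) (nat_lit 4))
    (@En.i (nat_lit 8504) (nat_lit 4) (nat_lit 7))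
    (@En.n l19348 (nat_lit 10227) (nat_lit 5) (nat_lit 9))
    (@En.i (nat_lit 8719) (nat_lit 6) (nat_lit 10))
    (@En.n l15708 (nat_lit 10404) (nat_lit 8) (nat_lit 12))
    (@En.n l43220 (nat_lit 9157) (nat_lit 12) (nat_lit 4))
    (@En.n l17351 (nat_lit 9393) (nat_lit 9) (nat_lit 4))
    (@En.n l18394 (nat_lit 4587) (nat_lit 0) (nat_lit 7))
    (@En.n l2824 (nat_lit 10072) (nat_lit 12) (nat_lit 9))
    (@En.n l2691 (nat_lit 9391) (nat_lit 4) (nat_lit 12))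
    (@En.n l2824 (nat_lit 9179) (nat_lit 14) (nat_lit 12))
    (@En.n l17351 (nat_lit 5593) (nat_lit 12) (nat_lit 7))
    (@En.n l18 (nat_lit 8731) (nat_lit 15) (nat_lit 3))))
  (@Cl.mk (nat_lit 0x30007000c0005000d000a00040003000c000a000900060004000d000b0006) (nat_lit 0x10840066000310) (nat_lit 16) Lb.e (@T16.mk En
    (@En.n l23990 (nat_lit 7242) (nat_lit 0) (nat_lit 6))
    (@En.n l22465 (nat_lit 9173) (nat_lit 9) (nat_lit 11))
    (@En.n l9877 (nat_lit 10809) (nat_lit 2) (nat_lit 13))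
    (@En.n l18 (nat_lit 9168) (nat_lit 3) (nat_lit 4))
    (@En.n l14143 (nat_lit 8489) (nat_lit 4) (nat_lit 6))
    (@En.i (nat_lit 9767) (nat_lit 5) (nat_lit 9))
    (@En.n l61 (nat_lit 9141) (nat_lit 14) (nat_lit 10))
    (@En.n l4003 (nat_lit 10585) (nat_lit 8) (nat_lit 12))
    (@En.n l7 (nat_lit 9395) (nat_lit 8) (nat_lit 3))
    (@En.n l32712 (nat_lit 9391) (nat_lit 0) (nat_lit 4))
    (@En.i (nat_lit 8759) (nat_lit 11) (nat_lit 10))
    (@En.n l1140 (nat_lit 4187) (nat_lit 1) (nat_lit 13))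
    (@En.i (nat_lit 10396) (nat_lit 3) (nat_lit 5))
    (@En.n l15535 (nat_lit 9176) (nat_lit 14) (nat_lit 12))
    (@En.i (nat_lit 11021) (nat_lit 5) (nat_lit 7))
    (@En.n l152 (nat_lit 9394) (nat_lit 15) (nat_lit 3))))
  (@Cl.mk (nat_lit 0x30007000c0004000d000a00040003000c000b000900060004000d0005000c) (nat_lit 0x108200a7000909) (nat_lit 16) Lb.e (@T16.mk En
    (@En.n l619 (nat_lit 8125) (nat_lit 0) (nat_lit 12))
    (@En.n l26600 (nat_lit 9109) (nat_lit 8) (nat_lit 5))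
    (@En.n l6081 (nat_lit 10811) (nat_lit 2) (nat_lit 13))
    (@En.n l18 (nat_lit 4328) (nat_lit 3) (nat_lit 4))
    (@En.n l9775 (nat_lit 8487) (nat_lit 4) (nat_lit 6))
    (@En.i (nat_lit 10196) (nat_lit 5) (nat_lit 9))
    (@En.n l61 (nat_lit 9138) (nat_lit 14) (nat_lit 11))
    (@En.n l31017 (nat_lit 10588) (nat_lit 8) (nat_lit 12))
    (@En.n l7 (nat_lit 9397) (nat_lit 8) (nat_lit 3))
    (@En.n l10832 (nat_lit 9390) (nat_lit 0) (nat_lit 4))
    (@En.n l6080 (nat_lit 8756) (nat_lit 11) (nat_lit 10))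
    (@En.i (nat_lit 4184) (nat_lit 1) (nat_lit 13))
    (@En.i (nat_lit 9179) (nat_lit 3) (nat_lit 4))
    (@En.n l6080 (nat_lit 9178) (nat_lit 14) (nat_lit 12))
    (@En.n l152 (nat_lit 9402) (nat_lit 12) (nat_lit 7))
    (@En.n l117 (nat_lit 9393) (nat_lit 15) (nat_lit 3))))
  (@Cl.mk (nat_lit 0x30007000d0005000d0003000b0003000c000a000900050004000d000b0006) (nat_lit 0xa0803087000410) (nat_lit 16) Lb.e (@T16.mk En
    (@En.n l23990 (nat_lit 7244) (nat_lit 0) (nat_lit 6))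
    (@En.n l22465 (nat_lit 9172) (nat_lit 9) (nat_lit 11))
    (@En.i (nat_lit 10807) (nat_lit 2) (nat_lit 13))
    (@En.n l18 (nat_lit 4330) (nat_lit 3) (nat_lit 4))
    (@En.n l22467 (nat_lit 9094) (nat_lit 4) (nat_lit 5))
    (@En.i (nat_lit 10198) (nat_lit 5) (nat_lit 9))
    (@En.n l61 (nat_lit 9142) (nat_lit 14) (nat_lit 10))
    (@En.i (nat_lit 10266) (nat_lit 8) (nat_lit 12))
    (@En.i (nat_lit 9393) (nat_lit 8) (nat_lit 3))
    (@En.i (nat_lit 9341) (nat_lit 0) (nat_lit 11))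
    (@En.n l1236 (nat_lit 9396) (nat_lit 10) (nat_lit 3))
    (@En.n l1867 (nat_lit 4188) (nat_lit 0) (nat_lit 13))
    (@En.i (nat_lit 10412) (nat_lit 3) (nat_lit 5))
    (@En.n l15535 (nat_lit 8487) (nat_lit 2) (nat_lit 13))
    (@En.i (nat_lit 11019) (nat_lit 3) (nat_lit 7))
    (@En.n l152 (nat_lit 9397) (nat_lit 15) (nat_lit 3))))
  (@Cl.mk (nat_lit 0x30007000d000c00060003000b0004000c000a000900050004000d000a0006) (nat_lit 0xb2003084000300) (nat_lit 16) Lb.e (@T16.mk En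
    (@En.n l7 (nat_lit 7245) (nat_lit 0) (nat_lit 6))
    (@En.n l61 (nat_lit 10272) (nat_lit 14) (nat_lit 10))
    (@En.n l18630 (nat_lit 10808) (nat_lit 2) (nat_lit 13))
    (@En.n l7 (nat_lit 4326) (nat_lit 3) (nat_lit 4))
    (@En.n l13906 (nat_lit 9084) (nat_lit 4) (nat_lit 5))
    (@En.n l9877 (nat_lit 10167) (nat_lit 5) (nat_lit 9))
    (@En.n l2781 (nat_lit 9146) (nat_lit 12) (nat_lit 10))
    (@En.n l9877 (nat_lit 10267) (nat_lit 8) (nat_lit 12))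
    (@En.n l13906 (nat_lit 9392) (nat_lit 8) (nat_lit 4))
    (@En.n l11245 (nat_lit 10069) (nat_lit 10) (nat_lit 11))
    (@En.n l9876 (nat_lit 9395) (nat_lit 10) (nat_lit 3))
    (@En.i (nat_lit 11050) (nat_lit 0) (nat_lit 6))
    (@En.n l9879 (nat_lit 9393) (nat_lit 13) (nat_lit 12))
    (@En.n l14143 (nat_lit 8489) (nat_lit 2) (nat_lit 13))
    (@En.n l9877 (nat_lit 11020) (nat_lit 3) (nat_lit 7))
    (@En.n l25864 (nat_lit 9398) (nat_lit 15) (nat_lit 3))))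
  (@Cl.mk (nat_lit 0x30007000d0004000d0003000b0003000c000b000900050004000d0005000c) (nat_lit 0xa02090a700040a) (nat_lit 16) Lb.e (@T16.mk En
    (@En.n l619 (nat_lit 8127) (nat_lit 0) (nat_lit 12))
    (@En.n l26600 (nat_lit 9105) (nat_lit 6) (nat_lit 5))
    (@En.n l6081 (nat_lit 10810) (nat_lit 2) (nat_lit 13))
    (@En.n l18 (nat_lit 4325) (nat_lit 3) (nat_lit 4))
    (@En.n l26601 (nat_lit 9095) (nat_lit 4) (nat_lit 5))
    (@En.i (nat_lit 10193) (nat_lit 5) (nat_lit 9))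
    (@En.n l61 (nat_lit 8602) (nat_lit 14) (nat_lit 11))
    (@En.i (nat_lit 8814) (nat_lit 8) (nat_lit 12))
    (@En.i (nat_lit 9394) (nat_lit 8) (nat_lit 3))
    (@En.i (nat_lit 9340) (nat_lit 0) (nat_lit 11))
    (@En.i (nat_lit 9398) (nat_lit 10) (nat_lit 3))
    (@En.i (nat_lit 4185) (nat_lit 0) (nat_lit 13))
    (@En.i (nat_lit 9175) (nat_lit 3) (nat_lit 4))
    (@En.n l6080 (nat_lit 8488) (nat_lit 2) (nat_lit 13))
    (@En.n l152 (nat_lit 9755) (nat_lit 12) (nat_lit 7))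
    (@En.n l117 (nat_lit 9395) (nat_lit 15) (nat_lit 3))))
  (@Cl.mk (nat_lit 0x30007000d000c00050003000b0004000c000b000900050004000d0005000b) (nat_lit 0xb20090a9000406) (nat_lit 16) Lb.e (@T16.mk En
    (@En.n l97 (nat_lit 9563) (nat_lit 0) (nat_lit 11))
    (@En.n l34532 (nat_lit 9106) (nat_lit 6) (nat_lit 5))
    (@En.n l6081 (nat_lit 10812) (nat_lit 2) (nat_lit 13))
    (@En.n l18 (nat_lit 4323) (nat_lit 3) (nat_lit 4))
    (@En.n l6631 (nat_lit 8549) (nat_lit 4) (nat_lit 5))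
    (@En.i (nat_lit 10166) (nat_lit 5) (nat_lit 9))
    (@En.n l61 (nat_lit 8603) (nat_lit 5) (nat_lit 11))
    (@En.i (nat_lit 10268) (nat_lit 8) (nat_lit 12))
    (@En.n l6631 (nat_lit 8731) (nat_lit 8) (nat_lit 4))
    (@En.n l27243 (nat_lit 10068) (nat_lit 10) (nat_lit 11))
    (@En.n l28 (nat_lit 9397) (nat_lit 10) (nat_lit 3))
    (@En.i (nat_lit 11044) (nat_lit 0) (nat_lit 5))
    (@En.n l77 (nat_lit 9394) (nat_lit 13) (nat_lit 12))
    (@En.n l6080 (nat_lit 8492) (nat_lit 2) (nat_lit 13))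
    (@En.n l152 (nat_lit 9759) (nat_lit 12) (nat_lit 7))
    (@En.n l345 (nat_lit 9396) (nat_lit 15) (nat_lit 3))))
  (@Cl.mk (nat_lit 0x3000c0004000d000a00040003000c0009000d000600040003000d000c0007) (nat_lit 0x301800815000480) (nat_lit 16) Lb.e (@T16.mk En
    (@En.i (nat_lit 9994) (nat_lit 0) (nat_lit 7))
    (@En.n l619 (nat_lit 9401) (nat_lit 14) (nat_lit 12))
    (@En.i (nat_lit 9393) (nat_lit 2) (nat_lit 13))
    (@En.n l7578 (nat_lit 10167) (nat_lit 13) (nat_lit 3))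
    (@En.n l18 (nat_lit 8305) (nat_lit 0) (nat_lit 4))
    (@En.i (nat_lit 9396) (nat_lit 0) (nat_lit 6))
    (@En.i (nat_lit 3827) (nat_lit 6) (nat_lit 13))
    (@En.n l61 (nat_lit 9151) (nat_lit 14) (nat_lit 9))
    (@En.n l396 (nat_lit 10815) (nat_lit 9) (nat_lit 12))
    (@En.n l7 (nat_lit 10161) (nat_lit 13) (nat_lit 3))
    (@En.i (nat_lit 7774) (nat_lit 0) (nat_lit 4))
    (@En.i (nat_lit 9970) (nat_lit 0) (nat_lit 10))
    (@En.i (nat_lit 5338) (nat_lit 1) (nat_lit 13))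
    (@En.i (nat_lit 10231) (nat_lit 3) (nat_lit 4))
    (@En.i (nat_lit 10429) (nat_lit 11) (nat_lit 12))
    (@En.n l152 (nat_lit 9400) (nat_lit 15) (nat_lit 3))))
  (@Cl.mk (nat_lit 0x3000c0003000d000a00040003000c000a000d000600040003000d0006000d) (nat_lit 0xa0a800275000a09) (nat_lit 16) Lb.e (@T16.mk En
    (@En.i (nat_lit 6156) (nat_lit 0) (nat_lit 13))
    (@En.i (nat_lit 9402) (nat_lit 14) (nat_lit 6))
    (@En.i (nat_lit 9394) (nat_lit 2) (nat_lit 13))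
    (@En.n l25348 (nat_lit 10198) (nat_lit 13) (nat_lit 3))
    (@En.n l18 (nat_lit 8300) (nat_lit 0) (nat_lit 4))
    (@En.n l6081 (nat_lit 9395) (nat_lit 0) (nat_lit 6))
    (@En.i (nat_lit 4026) (nat_lit 5) (nat_lit 13))
    (@En.n l61 (nat_lit 9085) (nat_lit 14) (nat_lit 10))
    (@En.n l564 (nat_lit 10816) (nat_lit 11) (nat_lit 12))
    (@En.n l7 (nat_lit 9403) (nat_lit 13) (nat_lit 3))
    (@En.i (nat_lit 7775) (nat_lit 0) (nat_lit 4))
    (@En.i (nat_lit 9967) (nat_lit 14) (nat_lit 10))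
    (@En.i (nat_lit 5559) (nat_lit 1) (nat_lit 13))
    (@En.i (nat_lit 9401) (nat_lit 9) (nat_lit 3))
    (@En.i (nat_lit 8853) (nat_lit 0) (nat_lit 12))
    (@En.n l117 (nat_lit 9399) (nat_lit 15) (nat_lit 3))))
  (@Cl.mk (nat_lit 0x3000c0006000d000b00040003000d000a00050003000c000a000d00060004) (nat_lit 0x70a200330026500) (nat_lit 16) Lb.e (@T16.mk En
    (@En.n l18 (nat_lit 8306) (nat_lit 0) (nat_lit 4))
    (@En.n l6081 (nat_lit 9393) (nat_lit 0) (nat_lit 6))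
    (@En.i (nat_lit 3824) (nat_lit 5) (nat_lit 13))
    (@En.n l61 (nat_lit 9094) (nat_lit 14) (nat_lit 10))
    (@En.n l564 (nat_lit 10717) (nat_lit 11) (nat_lit 12))
    (@En.n l7 (nat_lit 9754) (nat_lit 5) (nat_lit 3))
    (@En.n l137 (nat_lit 7135) (nat_lit 0) (nat_lit 5))
    (@En.i (nat_lit 9968) (nat_lit 14) (nat_lit 10))
    (@En.n l287 (nat_lit 8615) (nat_lit 2) (nat_lit 13))
    (@En.n l11 (nat_lit 9400) (nat_lit 13) (nat_lit 3))
    (@En.n l25347 (nat_lit 7541) (nat_lit 0) (nat_lit 4))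
    (@En.i (nat_lit 8735) (nat_lit 0) (nat_lit 11))
    (@En.n l2202 (nat_lit 6108) (nat_lit 1) (nat_lit 13))
    (@En.i (nat_lit 9758) (nat_lit 14) (nat_lit 6))
    (@En.i (nat_lit 9179) (nat_lit 9) (nat_lit 12))
    (@En.n l25348 (nat_lit 9767) (nat_lit 13) (nat_lit 3))))
  (@Cl.mk (nat_lit 0x30006000d0007000c0003000d000900040003000b000a0009000d00070005) (nat_lit 0x50108700272600) (nat_lit 16) Lb.e (@T16.mk En
    (@En.n l18 (nat_lit 8343) (nat_lit 0) (nat_lit 5))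
    (@En.n l6081 (nat_lit 10412) (nat_lit 6) (nat_lit 7))
    (@En.n l3 (nat_lit 9400) (nat_lit 6) (nat_lit 13))
    (@En.n l3 (nat_lit 9399) (nat_lit 7) (nat_lit 9))
    (@En.n l61 (nat_lit 9089) (nat_lit 4) (nat_lit 10))
    (@En.n l564 (nat_lit 10832) (nat_lit 11) (nat_lit 11))
    (@En.n l7 (nat_lit 9755) (nat_lit 6) (nat_lit 3))
    (@En.n l17524 (nat_lit 8733) (nat_lit 0) (nat_lit 4))
    (@En.i (nat_lit 9965) (nat_lit 14) (nat_lit 9))
    (@En.i (nat_lit 5556) (nat_lit 1) (nat_lit 13))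
    (@En.i (nat_lit 9758) (nat_lit 10) (nat_lit 3))
    (@En.n l17524 (nat_lit 9159) (nat_lit 0) (nat_lit 12))
    (@En.i (nat_lit 9997) (nat_lit 13) (nat_lit 7))
    (@En.n l180 (nat_lit 6152) (nat_lit 2) (nat_lit 13))
    (@En.n l20187 (nat_lit 9104) (nat_lit 12) (nat_lit 6))
    (@En.n l25348 (nat_lit 9762) (nat_lit 15) (nat_lit 3))))
  (@Cl.mk (nat_lit 0x3000b0003000c000a000d000500040003000d0006000d0003000d0003000d) (nat_lit 0x2067300050b0a0a) (nat_lit 16) Lb.e (@T16.mk En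
    (@En.i (nat_lit 5560) (nat_lit 0) (nat_lit 13))
    (@En.i (nat_lit 9754) (nat_lit 9) (nat_lit 3))
    (@En.i (nat_lit 7223) (nat_lit 0) (nat_lit 13))
    (@En.n l117 (nat_lit 10161) (nat_lit 3) (nat_lit 3))
    (@En.i (nat_lit 6157) (nat_lit 0) (nat_lit 13))
    (@En.i (nat_lit 9755) (nat_lit 14) (nat_lit 6))
    (@En.i (nat_lit 9397) (nat_lit 2) (nat_lit 13))
    (@En.n l22610 (nat_lit 9764) (nat_lit 13) (nat_lit 3))
    (@En.n l18 (nat_lit 8299) (nat_lit 0) (nat_lit 4))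
    (@En.n l6081 (nat_lit 4330) (nat_lit 0) (nat_lit 5))
    (@En.i (nat_lit 4021) (nat_lit 5) (nat_lit 13))
    (@En.n l61 (nat_lit 8600) (nat_lit 14) (nat_lit 10))
    (@En.i (nat_lit 8808) (nat_lit 11) (nat_lit 12))
    (@En.i (nat_lit 9400) (nat_lit 9) (nat_lit 3))
    (@En.i (nat_lit 9825) (nat_lit 0) (nat_lit 11))
    (@En.i (nat_lit 8745) (nat_lit 15) (nat_lit 3))))
  (@Cl.mk (nat_lit 0x2000b000900080007000d0005000b00030007000b000800050009000e0005) (nat_lit 0x9620409006203a0) (nat_lit 16) Lb.e (@T16.mk En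
    (@En.n l32237 (nat_lit 9412) (nat_lit 8) (nat_lit 5))
    (@En.n l4758 (nat_lit 9390) (nat_lit 1) (nat_lit 14))
    (@En.n l617 (nat_lit 1213) (nat_lit 2) (nat_lit 9))
    (@En.n l38518 (nat_lit 8116) (nat_lit 3) (nat_lit 5))
    (@En.n l32773 (nat_lit 7752) (nat_lit 4) (nat_lit 8))
    (@En.n l16345 (nat_lit 10468) (nat_lit 8) (nat_lit 11))
    (@En.n l40390 (nat_lit 9406) (nat_lit 6) (nat_lit 7))
    (@En.i (nat_lit 7960) (nat_lit 7) (nat_lit 3))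
    (@En.n l1504 (nat_lit 9383) (nat_lit 9) (nat_lit 11))
    (@En.n l5389 (nat_lit 8275) (nat_lit 9) (nat_lit 5))
    (@En.n l16345 (nat_lit 8748) (nat_lit 11) (nat_lit 13))
    (@En.n l22465 (nat_lit 4460) (nat_lit 12) (nat_lit 7))
    (@En.n l527 (nat_lit 6432) (nat_lit 13) (nat_lit 8))
    (@En.n l40391 (nat_lit 7952) (nat_lit 14) (nat_lit 9))
    (@En.n l16345 (nat_lit 9427) (nat_lit 7) (nat_lit 11))
    (@En.n l28 (nat_lit 9404) (nat_lit 15) (nat_lit 2))))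
  (@Cl.mk (nat_lit 0x2000b000a00090007000a0005000b0006000a0007000600050009000e0006) (nat_lit 0x6820809050004a0) (nat_lit 16) Lb.e (@T16.mk En
    (@En.n l43274 (nat_lit 9413) (nat_lit 6) (nat_lit 6))
    (@En.n l6539 (nat_lit 8751) (nat_lit 1) (nat_lit 14))
    (@En.n l43275 (nat_lit 7960) (nat_lit 2) (nat_lit 9))
    (@En.n l43276 (nat_lit 9404) (nat_lit 3) (nat_lit 5))
    (@En.n l43277 (nat_lit 7399) (nat_lit 4) (nat_lit 6))
    (@En.n l43278 (nat_lit 7748) (nat_lit 5) (nat_lit 7))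
    (@En.n l43279 (nat_lit 10469) (nat_lit 9) (nat_lit 10))
    (@En.n l8630 (nat_lit 4532) (nat_lit 7) (nat_lit 6))
    (@En.n l11620 (nat_lit 9379) (nat_lit 9) (nat_lit 11))
    (@En.n l43280 (nat_lit 8385) (nat_lit 9) (nat_lit 5))
    (@En.i (nat_lit 9932) (nat_lit 11) (nat_lit 10))
    (@En.n l13098 (nat_lit 6660) (nat_lit 12) (nat_lit 7))
    (@En.n l7084 (nat_lit 6435) (nat_lit 13) (nat_lit 9))
    (@En.n l43281 (nat_lit 7954) (nat_lit 14) (nat_lit 10))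
    (@En.i (nat_lit 8402) (nat_lit 4) (nat_lit 11))
    (@En.n l3 (nat_lit 9405) (nat_lit 15) (nat_lit 2))))
  (@Cl.mk (nat_lit 0x2000a0009000d0009000800030006000c0007000b000700040008000e0005) (nat_lit 0x87b330070400390) (nat_lit 16) Lb.e (@T16.mk En
    (@En.n l1992 (nat_lit 9409) (nat_lit 6) (nat_lit 5))
    (@En.n l43183 (nat_lit 8733) (nat_lit 1) (nat_lit 14))
    (@En.i (nat_lit 2808) (nat_lit 2) (nat_lit 8))
    (@En.i (nat_lit 8101) (nat_lit 3) (nat_lit 4))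
    (@En.n l40451 (nat_lit 4657) (nat_lit 4) (nat_lit 7))
    (@En.n l2132 (nat_lit 10900) (nat_lit 12) (nat_lit 11))
    (@En.n l4817 (nat_lit 3423) (nat_lit 6) (nat_lit 7))
    (@En.n l13025 (nat_lit 9134) (nat_lit 8) (nat_lit 12))
    (@En.n l4817 (nat_lit 8280) (nat_lit 12) (nat_lit 6))
    (@En.n l8258 (nat_lit 7399) (nat_lit 9) (nat_lit 3))
    (@En.n l43184 (nat_lit 6607) (nat_lit 0) (nat_lit 8))
    (@En.n l43185 (nat_lit 9405) (nat_lit 12) (nat_lit 9))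
    (@En.n l24379 (nat_lit 9407) (nat_lit 13) (nat_lit 13))
    (@En.n l14576 (nat_lit 9408) (nat_lit 14) (nat_lit 9))
    (@En.n l5891 (nat_lit 8403) (nat_lit 4) (nat_lit 10))
    (@En.n l11 (nat_lit 9406) (nat_lit 15) (nat_lit 2))))
  (@Cl.mk (nat_lit 0x2000a000d000800070003000d0006000c0003000b000800040009000e0005) (nat_lit 0x7a20050106203a0) (nat_lit 16) Lb.e (@T16.mk En
    (@En.n l28 (nat_lit 9410) (nat_lit 9) (nat_lit 5))
    (@En.n l617 (nat_lit 7775) (nat_lit 1) (nat_lit 14))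
    (@En.i (nat_lit 2787) (nat_lit 2) (nat_lit 9))
    (@En.n l562 (nat_lit 8100) (nat_lit 3) (nat_lit 4))
    (@En.n l1501 (nat_lit 7812) (nat_lit 4) (nat_lit 8))
    (@En.n l2584 (nat_lit 10898) (nat_lit 11) (nat_lit 11))
    (@En.n l36116 (nat_lit 9408) (nat_lit 6) (nat_lit 3))
    (@En.n l157 (nat_lit 7687) (nat_lit 8) (nat_lit 12))
    (@En.n l22402 (nat_lit 9406) (nat_lit 8) (nat_lit 6))
    (@En.n l36137 (nat_lit 9404) (nat_lit 10) (nat_lit 13))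
    (@En.n l36138 (nat_lit 7398) (nat_lit 10) (nat_lit 3))
    (@En.n l1252 (nat_lit 6601) (nat_lit 12) (nat_lit 7))
    (@En.n l22048 (nat_lit 7951) (nat_lit 13) (nat_lit 8))
    (@En.i (nat_lit 7312) (nat_lit 5) (nat_lit 13))
    (@En.i (nat_lit 8773) (nat_lit 3) (nat_lit 10))
    (@En.n l7 (nat_lit 9407) (nat_lit 15) (nat_lit 2))))
noncomputable def a588 : T16 Cl := @T16.mk Cl
  (@Cl.mk (nat_lit 0x20009000d000800070003000d000b00070003000b000800050009000e0005) (nat_lit 0x6b3005600520370) (nat_lit 16) Lb.e (@T16.mk En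
    (@En.n l25037 (nat_lit 9411) (nat_lit 9) (nat_lit 5))
    (@En.n l33754 (nat_lit 7774) (nat_lit 1) (nat_lit 14))
    (@En.n l34052 (nat_lit 2784) (nat_lit 2) (nat_lit 9))
    (@En.n l13182 (nat_lit 8096) (nat_lit 3) (nat_lit 5))
    (@En.n l26604 (nat_lit 7811) (nat_lit 4) (nat_lit 8))
    (@En.n l4356 (nat_lit 10732) (nat_lit 11) (nat_lit 11))
    (@En.n l24384 (nat_lit 9407) (nat_lit 6) (nat_lit 3))
    (@En.i (nat_lit 3399) (nat_lit 7) (nat_lit 7))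
    (@En.n l31271 (nat_lit 9619) (nat_lit 9) (nat_lit 11))
    (@En.n l42210 (nat_lit 7960) (nat_lit 10) (nat_lit 13))
    (@En.n l4352 (nat_lit 7401) (nat_lit 10) (nat_lit 3))
    (@En.n l42211 (nat_lit 6602) (nat_lit 12) (nat_lit 7))
    (@En.n l13182 (nat_lit 7954) (nat_lit 13) (nat_lit 8))
    (@En.n l33754 (nat_lit 7305) (nat_lit 14) (nat_lit 13))
    (@En.n l26604 (nat_lit 9818) (nat_lit 3) (nat_lit 9))
    (@En.n l18 (nat_lit 9408) (nat_lit 15) (nat_lit 2))))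
  (@Cl.mk (nat_lit 0x30006000b0007000b000b00080005000900050005000a0009000d00080007) (nat_lit 0x70652040086830) (nat_lit 16) Lb.e (@T16.mk En
    (@En.n l19908 (nat_lit 6606) (nat_lit 0) (nat_lit 7))
    (@En.n l36174 (nat_lit 9413) (nat_lit 2) (nat_lit 8))
    (@En.n l6238 (nat_lit 9410) (nat_lit 6) (nat_lit 13))
    (@En.n l30876 (nat_lit 9411) (nat_lit 7) (nat_lit 9))
    (@En.n l34582 (nat_lit 9705) (nat_lit 4) (nat_lit 10))
    (@En.n l36175 (nat_lit 9415) (nat_lit 11) (nat_lit 5))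
    (@En.i (nat_lit 10834) (nat_lit 6) (nat_lit 5))
    (@En.n l28433 (nat_lit 2797) (nat_lit 10) (nat_lit 9))
    (@En.n l936 (nat_lit 8118) (nat_lit 8) (nat_lit 5))
    (@En.n l34582 (nat_lit 10564) (nat_lit 10) (nat_lit 8))
    (@En.n l2691 (nat_lit 9406) (nat_lit 5) (nat_lit 11))
    (@En.n l34582 (nat_lit 12023) (nat_lit 12) (nat_lit 11))
    (@En.i (nat_lit 4527) (nat_lit 13) (nat_lit 7))
    (@En.n l14250 (nat_lit 8631) (nat_lit 14) (nat_lit 11))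
    (@En.i (nat_lit 9253) (nat_lit 12) (nat_lit 6))
    (@En.n l4189 (nat_lit 9414) (nat_lit 15) (nat_lit 3))))
  (@Cl.mk (nat_lit 0x3000b000b00090005000a00050005000a000d000700060003000d0006000b) (nat_lit 0x772040087000807) (nat_lit 16) Lb.e (@T16.mk En
    (@En.i (nat_lit 9180) (nat_lit 0) (nat_lit 11))
    (@En.n l20276 (nat_lit 9409) (nat_lit 14) (nat_lit 6))
    (@En.n l8552 (nat_lit 9412) (nat_lit 2) (nat_lit 13))
    (@En.n l4212 (nat_lit 7400) (nat_lit 3) (nat_lit 3))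
    (@En.n l20277 (nat_lit 6597) (nat_lit 0) (nat_lit 6))
    (@En.n l15675 (nat_lit 7959) (nat_lit 5) (nat_lit 7))
    (@En.i (nat_lit 7318) (nat_lit 5) (nat_lit 13))
    (@En.n l20278 (nat_lit 9707) (nat_lit 3) (nat_lit 10))
    (@En.n l6348 (nat_lit 9416) (nat_lit 11) (nat_lit 5))
    (@En.i (nat_lit 10616) (nat_lit 9) (nat_lit 5))
    (@En.n l20279 (nat_lit 2796) (nat_lit 11) (nat_lit 10))
    (@En.n l20280 (nat_lit 8120) (nat_lit 7) (nat_lit 5))
    (@En.n l4380 (nat_lit 10569) (nat_lit 13) (nat_lit 9))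
    (@En.n l134 (nat_lit 9407) (nat_lit 5) (nat_lit 11))
    (@En.n l11 (nat_lit 12024) (nat_lit 11) (nat_lit 11))
    (@En.n l20281 (nat_lit 9411) (nat_lit 15) (nat_lit 3))))
  (@Cl.mk (nat_lit 0x3000b000b00090006000a000500050009000d000700060003000d000a0007) (nat_lit 0x763040057000950) (nat_lit 16) Lb.e (@T16.mk En
    (@En.n l6918 (nat_lit 4588) (nat_lit 0) (nat_lit 7))
    (@En.n l36168 (nat_lit 9618) (nat_lit 14) (nat_lit 10))
    (@En.n l32554 (nat_lit 7961) (nat_lit 2) (nat_lit 13))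
    (@En.n l11469 (nat_lit 9583) (nat_lit 3) (nat_lit 3))
    (@En.n l11401 (nat_lit 6600) (nat_lit 0) (nat_lit 6))
    (@En.n l36169 (nat_lit 7957) (nat_lit 5) (nat_lit 7))
    (@En.n l36170 (nat_lit 3056) (nat_lit 6) (nat_lit 13))
    (@En.n l36171 (nat_lit 9815) (nat_lit 10) (nat_lit 9))
    (@En.n l1003 (nat_lit 9417) (nat_lit 11) (nat_lit 5))
    (@En.n l10040 (nat_lit 10916) (nat_lit 9) (nat_lit 5))
    (@En.n l36172 (nat_lit 2788) (nat_lit 9) (nat_lit 10))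
    (@En.n l32939 (nat_lit 8129) (nat_lit 7) (nat_lit 6))
    (@En.n l20121 (nat_lit 10571) (nat_lit 13) (nat_lit 9))
    (@En.n l35119 (nat_lit 9408) (nat_lit 5) (nat_lit 11))
    (@En.i (nat_lit 10031) (nat_lit 11) (nat_lit 11))
    (@En.n l13196 (nat_lit 9410) (nat_lit 15) (nat_lit 3))))
  (@Cl.mk (nat_lit 0x30007000b000b00090006000a00050005000b000900070006000d0005000a) (nat_lit 0x67303009600708) (nat_lit 16) Lb.e (@T16.mk En
    (@En.n l7012 (nat_lit 9384) (nat_lit 0) (nat_lit 10))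
    (@En.n l97 (nat_lit 9260) (nat_lit 8) (nat_lit 5))
    (@En.n l20189 (nat_lit 8749) (nat_lit 2) (nat_lit 13))
    (@En.n l29901 (nat_lit 4451) (nat_lit 10) (nat_lit 6))
    (@En.n l20391 (nat_lit 8494) (nat_lit 4) (nat_lit 7))
    (@En.i (nat_lit 7958) (nat_lit 5) (nat_lit 9))
    (@En.n l29902 (nat_lit 9810) (nat_lit 7) (nat_lit 11))
    (@En.n l77 (nat_lit 9831) (nat_lit 11) (nat_lit 5))
    (@En.n l29903 (nat_lit 10401) (nat_lit 8) (nat_lit 5))
    (@En.i (nat_lit 1211) (nat_lit 9) (nat_lit 10))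
    (@En.n l29903 (nat_lit 8117) (nat_lit 1) (nat_lit 6))
    (@En.n l18758 (nat_lit 10557) (nat_lit 12) (nat_lit 9))
    (@En.n l29904 (nat_lit 9404) (nat_lit 5) (nat_lit 11))
    (@En.n l22117 (nat_lit 10068) (nat_lit 8) (nat_lit 11))
    (@En.n l29905 (nat_lit 9409) (nat_lit 12) (nat_lit 7))
    (@En.n l152 (nat_lit 7961) (nat_lit 15) (nat_lit 3))))
  (@Cl.mk (nat_lit 0x5000a0006000a000a000800070006000a00060006000b000a000800060009) (nat_lit 0x805640040087207) (nat_lit 16) Lb.e (@T16.mk En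
    (@En.n l35875 (nat_lit 9935) (nat_lit 9) (nat_lit 9))
    (@En.n l25891 (nat_lit 4458) (nat_lit 10) (nat_lit 6))
    (@En.n l35876 (nat_lit 8496) (nat_lit 8) (nat_lit 8))
    (@En.i (nat_lit 7957) (nat_lit 6) (nat_lit 10))
    (@En.n l35877 (nat_lit 9709) (nat_lit 9) (nat_lit 11))
    (@En.n l77 (nat_lit 9830) (nat_lit 10) (nat_lit 6))
    (@En.n l35878 (nat_lit 10405) (nat_lit 6) (nat_lit 6))
    (@En.n l3 (nat_lit 7961) (nat_lit 9) (nat_lit 10))
    (@En.n l3 (nat_lit 9412) (nat_lit 10) (nat_lit 6))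
    (@En.n l35879 (nat_lit 9414) (nat_lit 9) (nat_lit 7))
    (@En.n l35877 (nat_lit 10553) (nat_lit 8) (nat_lit 8))
    (@En.n l35880 (nat_lit 9405) (nat_lit 6) (nat_lit 10))
    (@En.n l35881 (nat_lit 10064) (nat_lit 9) (nat_lit 10))
    (@En.n l35882 (nat_lit 4528) (nat_lit 6) (nat_lit 6))
    (@En.n l35883 (nat_lit 9378) (nat_lit 10) (nat_lit 10))
    (@En.n l35884 (nat_lit 8388) (nat_lit 15) (nat_lit 5))))
  (@Cl.mk (nat_lit 0x30006000b0007000b000b00070005000a00050005000a0009000d00060009) (nat_lit 0x70610020086806) (nat_lit 16) Lb.e (@T16.mk En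
    (@En.n l13405 (nat_lit 11652) (nat_lit 0) (nat_lit 9))
    (@En.n l21556 (nat_lit 9319) (nat_lit 8) (nat_lit 6))
    (@En.n l21557 (nat_lit 7400) (nat_lit 6) (nat_lit 13))
    (@En.n l11022 (nat_lit 9583) (nat_lit 7) (nat_lit 9))
    (@En.n l16767 (nat_lit 9703) (nat_lit 4) (nat_lit 10))
    (@En.n l21558 (nat_lit 9582) (nat_lit 11) (nat_lit 5))
    (@En.n l21559 (nat_lit 10836) (nat_lit 6) (nat_lit 5))
    (@En.n l12541 (nat_lit 7394) (nat_lit 0) (nat_lit 10))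
    (@En.i (nat_lit 8119) (nat_lit 8) (nat_lit 5))
    (@En.n l21560 (nat_lit 12050) (nat_lit 10) (nat_lit 7))
    (@En.n l4380 (nat_lit 7399) (nat_lit 5) (nat_lit 11))
    (@En.i (nat_lit 10410) (nat_lit 12) (nat_lit 11))
    (@En.n l21561 (nat_lit 4523) (nat_lit 13) (nat_lit 7))
    (@En.n l20348 (nat_lit 8628) (nat_lit 14) (nat_lit 11))
    (@En.i (nat_lit 11031) (nat_lit 12) (nat_lit 6))
    (@En.n l21562 (nat_lit 9409) (nat_lit 15) (nat_lit 3))))
  (@Cl.mk (nat_lit 0x200090006000a0005000a0009000d0007000600030006000a0007000e000b) (nat_lit 0x305085200001057) (nat_lit 16) Lb.e (@T16.mk En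
    (@En.n l21570 (nat_lit 9409) (nat_lit 11) (nat_lit 11))
    (@En.n l21571 (nat_lit 11499) (nat_lit 1) (nat_lit 14))
    (@En.n l21572 (nat_lit 4553) (nat_lit 2) (nat_lit 7))
    (@En.i (nat_lit 8629) (nat_lit 3) (nat_lit 10))
    (@En.n l21573 (nat_lit 9259) (nat_lit 4) (nat_lit 6))
    (@En.n l9868 (nat_lit 9582) (nat_lit 5) (nat_lit 3))
    (@En.n l152 (nat_lit 6955) (nat_lit 0) (nat_lit 6))
    (@En.n l21574 (nat_lit 9830) (nat_lit 7) (nat_lit 7))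
    (@En.n l8 (nat_lit 9416) (nat_lit 9) (nat_lit 13))
    (@En.i (nat_lit 9417) (nat_lit 10) (nat_lit 9))
    (@En.n l21575 (nat_lit 9770) (nat_lit 11) (nat_lit 10))
    (@En.n l9627 (nat_lit 10840) (nat_lit 5) (nat_lit 5))
    (@En.i (nat_lit 2781) (nat_lit 13) (nat_lit 10))
    (@En.n l20558 (nat_lit 8123) (nat_lit 14) (nat_lit 6))
    (@En.i (nat_lit 10566) (nat_lit 9) (nat_lit 9))
    (@En.n l18 (nat_lit 9415) (nat_lit 15) (nat_lit 2))))
  (@Cl.mk (nat_lit 0x2000a0006000b0005000a000d000600050003000d0006000a0003000e000b) (nat_lit 0x503071000802088) (nat_lit 16) Lb.e (@T16.mk En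
    (@En.n l3257 (nat_lit 9410) (nat_lit 14) (nat_lit 11))
    (@En.n l9866 (nat_lit 11497) (nat_lit 1) (nat_lit 14))
    (@En.n l7 (nat_lit 9417) (nat_lit 2) (nat_lit 3))
    (@En.n l9867 (nat_lit 7835) (nat_lit 3) (nat_lit 10))
    (@En.i (nat_lit 9415) (nat_lit 4) (nat_lit 6))
    (@En.n l3850 (nat_lit 9831) (nat_lit 6) (nat_lit 13))
    (@En.n l9868 (nat_lit 9581) (nat_lit 6) (nat_lit 3))
    (@En.n l152 (nat_lit 6956) (nat_lit 0) (nat_lit 5))
    (@En.n l9866 (nat_lit 9828) (nat_lit 8) (nat_lit 6))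
    (@En.n l9866 (nat_lit 3052) (nat_lit 5) (nat_lit 13))
    (@En.n l9869 (nat_lit 9768) (nat_lit 11) (nat_lit 10))
    (@En.n l133 (nat_lit 10618) (nat_lit 12) (nat_lit 5))
    (@En.i (nat_lit 2554) (nat_lit 13) (nat_lit 11))
    (@En.n l9867 (nat_lit 8125) (nat_lit 14) (nat_lit 6))
    (@En.n l9866 (nat_lit 10567) (nat_lit 12) (nat_lit 10))
    (@En.n l18 (nat_lit 9416) (nat_lit 15) (nat_lit 2))))
  (@Cl.mk (nat_lit 0x2000a0007000b00050009000d000600050003000d000900070003000e000b) (nat_lit 0x403041000860088) (nat_lit 16) Lb.e (@T16.mk En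
    (@En.n l9931 (nat_lit 9411) (nat_lit 14) (nat_lit 11))
    (@En.i (nat_lit 6635) (nat_lit 1) (nat_lit 14))
    (@En.i (nat_lit 9416) (nat_lit 2) (nat_lit 3))
    (@En.n l9967 (nat_lit 3446) (nat_lit 3) (nat_lit 7))
    (@En.i (nat_lit 9852) (nat_lit 4) (nat_lit 9))
    (@En.n l5347 (nat_lit 9829) (nat_lit 6) (nat_lit 13))
    (@En.n l22650 (nat_lit 9579) (nat_lit 6) (nat_lit 3))
    (@En.n l152 (nat_lit 6603) (nat_lit 7) (nat_lit 5))
    (@En.n l21574 (nat_lit 9826) (nat_lit 8) (nat_lit 6))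
    (@En.n l4130 (nat_lit 3053) (nat_lit 10) (nat_lit 13))
    (@En.n l387 (nat_lit 6243) (nat_lit 11) (nat_lit 9))
    (@En.i (nat_lit 11470) (nat_lit 12) (nat_lit 5))
    (@En.i (nat_lit 2778) (nat_lit 13) (nat_lit 11))
    (@En.n l20558 (nat_lit 9572) (nat_lit 14) (nat_lit 7))
    (@En.i (nat_lit 8840) (nat_lit 12) (nat_lit 10))
    (@En.n l18 (nat_lit 9417) (nat_lit 15) (nat_lit 2))))
  (@Cl.mk (nat_lit 0x2000a00090007000c000a0009000600040007000b000600090007000e0005) (nat_lit 0x4502540000060c0) (nat_lit 16) Lb.e (@T16.mk En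
    (@En.n l40536 (nat_lit 9420) (nat_lit 8) (nat_lit 5))
    (@En.n l40537 (nat_lit 8889) (nat_lit 1) (nat_lit 14))
    (@En.n l28800 (nat_lit 2804) (nat_lit 2) (nat_lit 7))
    (@En.n l40538 (nat_lit 8721) (nat_lit 3) (nat_lit 9))
    (@En.n l17220 (nat_lit 3345) (nat_lit 4) (nat_lit 6))
    (@En.n l16345 (nat_lit 10805) (nat_lit 8) (nat_lit 11))
    (@En.n l33234 (nat_lit 3178) (nat_lit 6) (nat_lit 7))
    (@En.n l18 (nat_lit 9382) (nat_lit 7) (nat_lit 4))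
    (@En.n l38025 (nat_lit 9437) (nat_lit 8) (nat_lit 6))
    (@En.n l35696 (nat_lit 6683) (nat_lit 10) (nat_lit 9))
    (@En.n l40539 (nat_lit 9318) (nat_lit 11) (nat_lit 10))
    (@En.n l16345 (nat_lit 9419) (nat_lit 12) (nat_lit 12))
    (@En.n l97 (nat_lit 9430) (nat_lit 13) (nat_lit 7))
    (@En.n l31935 (nat_lit 9271) (nat_lit 14) (nat_lit 9))
    (@En.n l40540 (nat_lit 8402) (nat_lit 7) (nat_lit 10))
    (@En.n l28 (nat_lit 9418) (nat_lit 15) (nat_lit 2))))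
  (@Cl.mk (nat_lit 0x2000b0009000c0009000800050004000c0007000b000700040008000e0005) (nat_lit 0x4513400702003c0) (nat_lit 16) Lb.e (@T16.mk En
    (@En.i (nat_lit 9421) (nat_lit 7) (nat_lit 5))
    (@En.n l32608 (nat_lit 8891) (nat_lit 1) (nat_lit 14))
    (@En.i (nat_lit 2824) (nat_lit 2) (nat_lit 8))
    (@En.n l152 (nat_lit 7298) (nat_lit 3) (nat_lit 4))
    (@En.i (nat_lit 3344) (nat_lit 4) (nat_lit 7))
    (@En.i (nat_lit 9395) (nat_lit 1) (nat_lit 11))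
    (@En.i (nat_lit 9418) (nat_lit 6) (nat_lit 7))
    (@En.i (nat_lit 9318) (nat_lit 8) (nat_lit 12))
    (@En.n l18 (nat_lit 9657) (nat_lit 8) (nat_lit 4))
    (@En.n l22467 (nat_lit 9444) (nat_lit 9) (nat_lit 5))
    (@En.n l1867 (nat_lit 6685) (nat_lit 11) (nat_lit 8))
    (@En.n l61 (nat_lit 9317) (nat_lit 12) (nat_lit 9))
    (@En.n l32608 (nat_lit 7694) (nat_lit 6) (nat_lit 12))
    (@En.i (nat_lit 9276) (nat_lit 14) (nat_lit 9))
    (@En.i (nat_lit 9422) (nat_lit 11) (nat_lit 11))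
    (@En.n l28 (nat_lit 9419) (nat_lit 15) (nat_lit 2))))
  (@Cl.mk (nat_lit 0x40007000b000b0007000a000800050005000a00090006000c000900080006) (nat_lit 0x71034007503540) (nat_lit 16) Lb.e (@T16.mk En
    (@En.n l10230 (nat_lit 9433) (nat_lit 0) (nat_lit 6))
    (@En.n l9941 (nat_lit 6684) (nat_lit 8) (nat_lit 8))
    (@En.n l41445 (nat_lit 9319) (nat_lit 7) (nat_lit 9))
    (@En.n l41446 (nat_lit 9421) (nat_lit 3) (nat_lit 12))
    (@En.n l16292 (nat_lit 9429) (nat_lit 4) (nat_lit 6))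
    (@En.i (nat_lit 9274) (nat_lit 7) (nat_lit 9))
    (@En.n l29607 (nat_lit 9427) (nat_lit 10) (nat_lit 10))
    (@En.n l25109 (nat_lit 9507) (nat_lit 11) (nat_lit 5))
    (@En.n l152 (nat_lit 8796) (nat_lit 8) (nat_lit 5))
    (@En.n l41447 (nat_lit 2799) (nat_lit 0) (nat_lit 8))
    (@En.i (nat_lit 8720) (nat_lit 8) (nat_lit 10))
    (@En.n l41448 (nat_lit 8409) (nat_lit 2) (nat_lit 7))
    (@En.n l41449 (nat_lit 9418) (nat_lit 5) (nat_lit 11))
    (@En.n l41446 (nat_lit 10408) (nat_lit 8) (nat_lit 11))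
    (@En.n l5582 (nat_lit 3186) (nat_lit 11) (nat_lit 7))
    (@En.n l16292 (nat_lit 9381) (nat_lit 15) (nat_lit 4))))
  (@Cl.mk (nat_lit 0x4000b0007000b000b00080005000900050005000b0009000c000800070005) (nat_lit 0x700350400752300) (nat_lit 16) Lb.e (@T16.mk En
    (@En.n l42008 (nat_lit 9432) (nat_lit 0) (nat_lit 5))
    (@En.n l5579 (nat_lit 6686) (nat_lit 9) (nat_lit 7))
    (@En.n l14276 (nat_lit 9316) (nat_lit 1) (nat_lit 8))
    (@En.n l1075 (nat_lit 8286) (nat_lit 6) (nat_lit 12))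
    (@En.n l14632 (nat_lit 9275) (nat_lit 4) (nat_lit 9))
    (@En.n l8030 (nat_lit 9426) (nat_lit 10) (nat_lit 11))
    (@En.n l42009 (nat_lit 9506) (nat_lit 11) (nat_lit 5))
    (@En.n l15273 (nat_lit 8797) (nat_lit 7) (nat_lit 5))
    (@En.i (nat_lit 2798) (nat_lit 10) (nat_lit 9))
    (@En.n l152 (nat_lit 7300) (nat_lit 1) (nat_lit 5))
    (@En.n l9885 (nat_lit 9423) (nat_lit 0) (nat_lit 8))
    (@En.n l55 (nat_lit 9419) (nat_lit 5) (nat_lit 11))
    (@En.i (nat_lit 10412) (nat_lit 8) (nat_lit 11))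
    (@En.n l40536 (nat_lit 9420) (nat_lit 14) (nat_lit 7))
    (@En.n l32341 (nat_lit 9319) (nat_lit 4) (nat_lit 11))
    (@En.n l18 (nat_lit 9656) (nat_lit 12) (nat_lit 4))))
  (@Cl.mk (nat_lit 0x4000900080005000b0008000b00080007000500080005000c0008000b0008) (nat_lit 0x740344500101363) (nat_lit 16) Lb.e (@T16.mk En
    (@En.n l17225 (nat_lit 2833) (nat_lit 0) (nat_lit 8))
    (@En.i (nat_lit 9341) (nat_lit 7) (nat_lit 11))
    (@En.n l40540 (nat_lit 8402) (nat_lit 14) (nat_lit 8))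
    (@En.n l37725 (nat_lit 8409) (nat_lit 3) (nat_lit 12))
    (@En.n l5992 (nat_lit 10652) (nat_lit 4) (nat_lit 5))
    (@En.n l22466 (nat_lit 5051) (nat_lit 10) (nat_lit 8))
    (@En.n l21432 (nat_lit 9785) (nat_lit 11) (nat_lit 5))
    (@En.n l43102 (nat_lit 9652) (nat_lit 9) (nat_lit 7))
    (@En.n l14340 (nat_lit 9420) (nat_lit 1) (nat_lit 8))
    (@En.n l43102 (nat_lit 9190) (nat_lit 7) (nat_lit 11))
    (@En.n l37338 (nat_lit 9480) (nat_lit 14) (nat_lit 8))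
    (@En.n l40237 (nat_lit 9424) (nat_lit 12) (nat_lit 11))
    (@En.n l8030 (nat_lit 9426) (nat_lit 11) (nat_lit 5))
    (@En.n l37915 (nat_lit 9692) (nat_lit 8) (nat_lit 8))
    (@En.i (nat_lit 8401) (nat_lit 11) (nat_lit 9))
    (@En.n l152 (nat_lit 9876) (nat_lit 15) (nat_lit 4))))
  (@Cl.mk (nat_lit 0x400080004000b000a0008000b00080005000800060005000c0008000c0008) (nat_lit 0x307352405009234) (nat_lit 16) Lb.e (@T16.mk En
    (@En.i (nat_lit 3342) (nat_lit 0) (nat_lit 8))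
    (@En.n l11434 (nat_lit 10134) (nat_lit 1) (nat_lit 12))
    (@En.i (nat_lit 8409) (nat_lit 4) (nat_lit 8))
    (@En.n l19309 (nat_lit 9477) (nat_lit 3) (nat_lit 12))
    (@En.n l22685 (nat_lit 9650) (nat_lit 11) (nat_lit 5))
    (@En.n l2946 (nat_lit 8419) (nat_lit 10) (nat_lit 6))
    (@En.n l11434 (nat_lit 9419) (nat_lit 10) (nat_lit 8))
    (@En.n l1003 (nat_lit 9710) (nat_lit 7) (nat_lit 5))
    (@En.n l11386 (nat_lit 9478) (nat_lit 0) (nat_lit 8))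
    (@En.n l22686 (nat_lit 8294) (nat_lit 7) (nat_lit 11))
    (@En.n l22687 (nat_lit 9693) (nat_lit 2) (nat_lit 8))
    (@En.n l5799 (nat_lit 9431) (nat_lit 6) (nat_lit 10))
    (@En.n l18984 (nat_lit 9425) (nat_lit 13) (nat_lit 11))
    (@En.n l18 (nat_lit 8801) (nat_lit 15) (nat_lit 4))
    (@En.n l3522 (nat_lit 2825) (nat_lit 11) (nat_lit 8))
    (@En.n l22686 (nat_lit 6844) (nat_lit 1) (nat_lit 4))))
noncomputable def a589 : T16 Cl := @T16.mk Cl
  (@Cl.mk (nat_lit 0x4000a0008000b0007000a000700060005000b00080006000c000900050009) (nat_lit 0x242030000204503) (nat_lit 16) Lb.e (@T16.mk En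
    (@En.n l43068 (nat_lit 2830) (nat_lit 0) (nat_lit 9))
    (@En.n l34567 (nat_lit 6853) (nat_lit 1) (nat_lit 5))
    (@En.n l43069 (nat_lit 9425) (nat_lit 0) (nat_lit 9))
    (@En.i (nat_lit 9423) (nat_lit 1) (nat_lit 12))
    (@En.n l6912 (nat_lit 10630) (nat_lit 2) (nat_lit 6))
    (@En.n l38285 (nat_lit 9422) (nat_lit 5) (nat_lit 8))
    (@En.n l36032 (nat_lit 9480) (nat_lit 10) (nat_lit 11))
    (@En.n l36171 (nat_lit 9655) (nat_lit 11) (nat_lit 5))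
    (@En.n l34567 (nat_lit 9671) (nat_lit 10) (nat_lit 6))
    (@En.n l43070 (nat_lit 9421) (nat_lit 1) (nat_lit 7))
    (@En.n l43071 (nat_lit 9189) (nat_lit 8) (nat_lit 10))
    (@En.n l11386 (nat_lit 9481) (nat_lit 2) (nat_lit 7))
    (@En.n l34567 (nat_lit 8292) (nat_lit 7) (nat_lit 11))
    (@En.n l43068 (nat_lit 9695) (nat_lit 8) (nat_lit 8))
    (@En.n l18984 (nat_lit 8388) (nat_lit 11) (nat_lit 10))
    (@En.n l43072 (nat_lit 9874) (nat_lit 15) (nat_lit 4))))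
  (@Cl.mk (nat_lit 0x40008000b00090007000a00070005000a000800070006000c000900060009) (nat_lit 0x362020046000404) (nat_lit 16) Lb.e (@T16.mk En
    (@En.i (nat_lit 3343) (nat_lit 9) (nat_lit 9))
    (@En.n l38259 (nat_lit 10625) (nat_lit 1) (nat_lit 6))
    (@En.n l38260 (nat_lit 8402) (nat_lit 0) (nat_lit 9))
    (@En.n l38261 (nat_lit 9476) (nat_lit 3) (nat_lit 12))
    (@En.n l38262 (nat_lit 9651) (nat_lit 10) (nat_lit 6))
    (@En.n l38263 (nat_lit 9670) (nat_lit 9) (nat_lit 7))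
    (@En.n l22865 (nat_lit 9423) (nat_lit 6) (nat_lit 8))
    (@En.n l38264 (nat_lit 9424) (nat_lit 10) (nat_lit 10))
    (@En.n l38265 (nat_lit 9811) (nat_lit 8) (nat_lit 5))
    (@En.n l38266 (nat_lit 9479) (nat_lit 0) (nat_lit 7))
    (@En.n l38263 (nat_lit 8296) (nat_lit 8) (nat_lit 10))
    (@En.n l38267 (nat_lit 9694) (nat_lit 9) (nat_lit 7))
    (@En.i (nat_lit 8387) (nat_lit 7) (nat_lit 9))
    (@En.n l38261 (nat_lit 9487) (nat_lit 7) (nat_lit 11))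
    (@En.n l38268 (nat_lit 2829) (nat_lit 11) (nat_lit 8))
    (@En.n l38269 (nat_lit 6843) (nat_lit 15) (nat_lit 4))))
  (@Cl.mk (nat_lit 0x500090005000a0005000b0008000b000700060005000b0005000b0008000b) (nat_lit 0x404063700080233) (nat_lit 16) Lb.e (@T16.mk En
    (@En.i (nat_lit 9836) (nat_lit 7) (nat_lit 11))
    (@En.n l42830 (nat_lit 9427) (nat_lit 1) (nat_lit 8))
    (@En.n l42831 (nat_lit 9428) (nat_lit 2) (nat_lit 11))
    (@En.n l42832 (nat_lit 9364) (nat_lit 5) (nat_lit 5))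
    (@En.n l42833 (nat_lit 10078) (nat_lit 0) (nat_lit 11))
    (@En.n l9715 (nat_lit 9069) (nat_lit 11) (nat_lit 5))
    (@En.n l13196 (nat_lit 9067) (nat_lit 10) (nat_lit 6))
    (@En.n l9715 (nat_lit 9429) (nat_lit 1) (nat_lit 7))
    (@En.n l41903 (nat_lit 11042) (nat_lit 7) (nat_lit 11))
    (@En.n l42834 (nat_lit 9713) (nat_lit 14) (nat_lit 8))
    (@En.n l42835 (nat_lit 8283) (nat_lit 10) (nat_lit 11))
    (@En.n l42836 (nat_lit 8394) (nat_lit 5) (nat_lit 5))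
    (@En.n l19249 (nat_lit 8418) (nat_lit 10) (nat_lit 10))
    (@En.i (nat_lit 9955) (nat_lit 1) (nat_lit 5))
    (@En.n l42837 (nat_lit 9431) (nat_lit 10) (nat_lit 9))
    (@En.n l42838 (nat_lit 9424) (nat_lit 1) (nat_lit 5))))
  (@Cl.mk (nat_lit 0x40008000b00090005000a00080005000b000800070006000c00050008000b) (nat_lit 0x484064085005022) (nat_lit 16) Lb.e (@T16.mk En
    (@En.n l42184 (nat_lit 8133) (nat_lit 7) (nat_lit 11))
    (@En.n l30599 (nat_lit 3313) (nat_lit 10) (nat_lit 8))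
    (@En.n l42185 (nat_lit 9368) (nat_lit 15) (nat_lit 5))
    (@En.i (nat_lit 10077) (nat_lit 0) (nat_lit 12))
    (@En.n l6918 (nat_lit 9070) (nat_lit 10) (nat_lit 6))
    (@En.n l42186 (nat_lit 9642) (nat_lit 9) (nat_lit 7))
    (@En.n l42187 (nat_lit 9428) (nat_lit 6) (nat_lit 8))
    (@En.n l42188 (nat_lit 9426) (nat_lit 8) (nat_lit 11))
    (@En.n l42189 (nat_lit 9810) (nat_lit 8) (nat_lit 5))
    (@En.n l42190 (nat_lit 9571) (nat_lit 8) (nat_lit 8))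
    (@En.n l42191 (nat_lit 8507) (nat_lit 10) (nat_lit 10))
    (@En.n l17 (nat_lit 8431) (nat_lit 2) (nat_lit 5))
    (@En.n l42192 (nat_lit 8406) (nat_lit 7) (nat_lit 9))
    (@En.i (nat_lit 9564) (nat_lit 7) (nat_lit 11))
    (@En.n l42193 (nat_lit 8403) (nat_lit 11) (nat_lit 8))
    (@En.n l42194 (nat_lit 9425) (nat_lit 15) (nat_lit 4))))
  (@Cl.mk (nat_lit 0x400080005000b000a0006000b00090005000800060005000c000b0007000a) (nat_lit 0x409407404008103) (nat_lit 16) Lb.e (@T16.mk En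
    (@En.n l2310 (nat_lit 8132) (nat_lit 8) (nat_lit 10))
    (@En.n l30478 (nat_lit 3312) (nat_lit 1) (nat_lit 7))
    (@En.n l9762 (nat_lit 6846) (nat_lit 5) (nat_lit 11))
    (@En.n l30479 (nat_lit 10076) (nat_lit 3) (nat_lit 12))
    (@En.n l15803 (nat_lit 9073) (nat_lit 11) (nat_lit 5))
    (@En.n l134 (nat_lit 8420) (nat_lit 10) (nat_lit 6))
    (@En.n l24320 (nat_lit 9430) (nat_lit 10) (nat_lit 8))
    (@En.n l15800 (nat_lit 9711) (nat_lit 7) (nat_lit 5))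
    (@En.i (nat_lit 9712) (nat_lit 0) (nat_lit 9))
    (@En.n l55 (nat_lit 8506) (nat_lit 9) (nat_lit 11))
    (@En.n l16876 (nat_lit 8428) (nat_lit 2) (nat_lit 6))
    (@En.n l2310 (nat_lit 9705) (nat_lit 6) (nat_lit 10))
    (@En.n l30480 (nat_lit 9427) (nat_lit 13) (nat_lit 11))
    (@En.n l30481 (nat_lit 9458) (nat_lit 14) (nat_lit 5))
    (@En.n l24320 (nat_lit 9684) (nat_lit 11) (nat_lit 8))
    (@En.n l15873 (nat_lit 9423) (nat_lit 15) (nat_lit 4))))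
  (@Cl.mk (nat_lit 0x4000b000a000a0007000a0005000900060006000b0006000c000900070005) (nat_lit 0x700050500607300) (nat_lit 16) Lb.e (@T16.mk En
    (@En.n l1545 (nat_lit 9435) (nat_lit 0) (nat_lit 5))
    (@En.n l41075 (nat_lit 6826) (nat_lit 1) (nat_lit 7))
    (@En.n l28138 (nat_lit 9455) (nat_lit 1) (nat_lit 9))
    (@En.n l28247 (nat_lit 8277) (nat_lit 2) (nat_lit 12))
    (@En.n l14225 (nat_lit 8825) (nat_lit 4) (nat_lit 6))
    (@En.n l28134 (nat_lit 9810) (nat_lit 9) (nat_lit 11))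
    (@En.n l11 (nat_lit 9509) (nat_lit 10) (nat_lit 6))
    (@En.n l16710 (nat_lit 9457) (nat_lit 7) (nat_lit 6))
    (@En.i (nat_lit 9269) (nat_lit 10) (nat_lit 9))
    (@En.n l28141 (nat_lit 9421) (nat_lit 9) (nat_lit 5))
    (@En.i (nat_lit 8679) (nat_lit 8) (nat_lit 10))
    (@En.n l41076 (nat_lit 9428) (nat_lit 1) (nat_lit 7))
    (@En.n l14138 (nat_lit 9430) (nat_lit 6) (nat_lit 10))
    (@En.n l19322 (nat_lit 10402) (nat_lit 6) (nat_lit 10))
    (@En.n l763 (nat_lit 9515) (nat_lit 4) (nat_lit 11))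
    (@En.i (nat_lit 9079) (nat_lit 12) (nat_lit 4))))
  (@Cl.mk (nat_lit 0x2000b0007000c000a000800050004000c000a0006000900040008000e0006) (nat_lit 0x501530078060490) (nat_lit 16) Lb.e (@T16.mk En
    (@En.n l14312 (nat_lit 9429) (nat_lit 7) (nat_lit 6))
    (@En.n l20083 (nat_lit 5885) (nat_lit 1) (nat_lit 14))
    (@En.i (nat_lit 9267) (nat_lit 2) (nat_lit 8))
    (@En.n l117 (nat_lit 9419) (nat_lit 3) (nat_lit 4))
    (@En.n l14314 (nat_lit 8677) (nat_lit 9) (nat_lit 9))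
    (@En.n l9916 (nat_lit 3346) (nat_lit 5) (nat_lit 6))
    (@En.n l3536 (nat_lit 10442) (nat_lit 7) (nat_lit 10))
    (@En.n l6081 (nat_lit 10049) (nat_lit 8) (nat_lit 12))
    (@En.n l18 (nat_lit 9596) (nat_lit 8) (nat_lit 4))
    (@En.n l26601 (nat_lit 9443) (nat_lit 9) (nat_lit 5))
    (@En.i (nat_lit 6828) (nat_lit 11) (nat_lit 8))
    (@En.n l61 (nat_lit 9456) (nat_lit 12) (nat_lit 10))
    (@En.n l11722 (nat_lit 4626) (nat_lit 13) (nat_lit 12))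
    (@En.n l20425 (nat_lit 9298) (nat_lit 14) (nat_lit 7))
    (@En.n l14311 (nat_lit 9709) (nat_lit 11) (nat_lit 11))
    (@En.n l28 (nat_lit 9430) (nat_lit 15) (nat_lit 2))))
  (@Cl.mk (nat_lit 0x30006000c0009000c0009000400090004000a0007000a0007000d00070006) (nat_lit 0x23730202060800) (nat_lit 16) Lb.e (@T16.mk En
    (@En.n l889 (nat_lit 8351) (nat_lit 0) (nat_lit 6))
    (@En.n l38031 (nat_lit 9422) (nat_lit 7) (nat_lit 7))
    (@En.n l28638 (nat_lit 8790) (nat_lit 2) (nat_lit 13))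
    (@En.n l38032 (nat_lit 9269) (nat_lit 3) (nat_lit 7))
    (@En.i (nat_lit 9747) (nat_lit 8) (nat_lit 10))
    (@En.i (nat_lit 8793) (nat_lit 5) (nat_lit 7))
    (@En.n l35926 (nat_lit 8389) (nat_lit 7) (nat_lit 10))
    (@En.i (nat_lit 8392) (nat_lit 7) (nat_lit 4))
    (@En.n l38033 (nat_lit 9643) (nat_lit 0) (nat_lit 9))
    (@En.n l28639 (nat_lit 6218) (nat_lit 9) (nat_lit 4))
    (@En.n l55 (nat_lit 4224) (nat_lit 11) (nat_lit 9))
    (@En.n l38034 (nat_lit 8259) (nat_lit 6) (nat_lit 12))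
    (@En.n l6675 (nat_lit 8403) (nat_lit 13) (nat_lit 9))
    (@En.n l23349 (nat_lit 9684) (nat_lit 14) (nat_lit 12))
    (@En.n l17 (nat_lit 9633) (nat_lit 12) (nat_lit 6))
    (@En.n l38035 (nat_lit 9692) (nat_lit 15) (nat_lit 3))))
  (@Cl.mk (nat_lit 0x3000b0006000b000b00070005000c00050005000b0004000a000d00090005) (nat_lit 0x901400800205250) (nat_lit 16) Lb.e (@T16.mk En
    (@En.n l32453 (nat_lit 6897) (nat_lit 0) (nat_lit 5))
    (@En.n l32454 (nat_lit 9387) (nat_lit 0) (nat_lit 9))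
    (@En.n l396 (nat_lit 8289) (nat_lit 5) (nat_lit 13))
    (@En.n l32455 (nat_lit 6197) (nat_lit 3) (nat_lit 10))
    (@En.n l32456 (nat_lit 8631) (nat_lit 4) (nat_lit 4))
    (@En.n l32454 (nat_lit 9069) (nat_lit 0) (nat_lit 11))
    (@En.n l3498 (nat_lit 11522) (nat_lit 11) (nat_lit 5))
    (@En.n l18225 (nat_lit 8395) (nat_lit 7) (nat_lit 5))
    (@En.n l32457 (nat_lit 6745) (nat_lit 9) (nat_lit 12))
    (@En.i (nat_lit 8608) (nat_lit 9) (nat_lit 5))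
    (@En.n l32458 (nat_lit 8419) (nat_lit 5) (nat_lit 7))
    (@En.n l32459 (nat_lit 9444) (nat_lit 5) (nat_lit 11))
    (@En.n l32460 (nat_lit 9173) (nat_lit 13) (nat_lit 11))
    (@En.n l32461 (nat_lit 9433) (nat_lit 14) (nat_lit 6))
    (@En.n l32462 (nat_lit 9434) (nat_lit 10) (nat_lit 11))
    (@En.n l1337 (nat_lit 9441) (nat_lit 15) (nat_lit 3))))
  (@Cl.mk (nat_lit 0x30006000b000b00060009000c00050005000a0004000a0007000d000a0006) (nat_lit 0x3027002050350) (nat_lit 16) Lb.e (@T16.mk En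
    (@En.n l11722 (nat_lit 6896) (nat_lit 0) (nat_lit 6))
    (@En.n l8600 (nat_lit 9434) (nat_lit 12) (nat_lit 10))
    (@En.n l28587 (nat_lit 9432) (nat_lit 2) (nat_lit 13))
    (@En.n l23258 (nat_lit 9435) (nat_lit 3) (nat_lit 7))
    (@En.n l3588 (nat_lit 6666) (nat_lit 4) (nat_lit 10))
    (@En.n l403 (nat_lit 9128) (nat_lit 5) (nat_lit 4))
    (@En.n l1353 (nat_lit 9070) (nat_lit 0) (nat_lit 10))
    (@En.n l18 (nat_lit 9438) (nat_lit 11) (nat_lit 5))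
    (@En.n l23403 (nat_lit 8392) (nat_lit 8) (nat_lit 5))
    (@En.i (nat_lit 6757) (nat_lit 6) (nat_lit 12))
    (@En.i (nat_lit 7220) (nat_lit 9) (nat_lit 9))
    (@En.n l4990 (nat_lit 8406) (nat_lit 12) (nat_lit 6))
    (@En.n l10895 (nat_lit 9437) (nat_lit 5) (nat_lit 11))
    (@En.n l25666 (nat_lit 10581) (nat_lit 14) (nat_lit 11))
    (@En.n l3749 (nat_lit 6841) (nat_lit 12) (nat_lit 6))
    (@En.n l1430 (nat_lit 9436) (nat_lit 15) (nat_lit 3))))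
  (@Cl.mk (nat_lit 0x4000b0007000a0005000b0005000a000a000600050009000c00060006000b) (nat_lit 0x604080330038002) (nat_lit 16) Lb.e (@T16.mk En
    (@En.n l40589 (nat_lit 9073) (nat_lit 0) (nat_lit 11))
    (@En.n l152 (nat_lit 11523) (nat_lit 10) (nat_lit 6))
    (@En.n l33427 (nat_lit 8394) (nat_lit 6) (nat_lit 6))
    (@En.i (nat_lit 9254) (nat_lit 6) (nat_lit 12))
    (@En.n l40590 (nat_lit 9433) (nat_lit 10) (nat_lit 9))
    (@En.n l867 (nat_lit 9436) (nat_lit 11) (nat_lit 5))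
    (@En.i (nat_lit 8418) (nat_lit 0) (nat_lit 6))
    (@En.n l40591 (nat_lit 9445) (nat_lit 6) (nat_lit 10))
    (@En.n l2577 (nat_lit 10580) (nat_lit 10) (nat_lit 10))
    (@En.n l40592 (nat_lit 6840) (nat_lit 9) (nat_lit 5))
    (@En.n l34577 (nat_lit 10740) (nat_lit 0) (nat_lit 11))
    (@En.n l19247 (nat_lit 8823) (nat_lit 1) (nat_lit 5))
    (@En.n l29914 (nat_lit 8997) (nat_lit 8) (nat_lit 10))
    (@En.n l40593 (nat_lit 9439) (nat_lit 14) (nat_lit 7))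
    (@En.n l40594 (nat_lit 6668) (nat_lit 2) (nat_lit 11))
    (@En.n l34577 (nat_lit 9129) (nat_lit 15) (nat_lit 4))))
  (@Cl.mk (nat_lit 0x3000b000a000a000600090005000c00060006000b00040007000d000a0005) (nat_lit 0x702040800200240) (nat_lit 16) Lb.e (@T16.mk En
    (@En.n l889 (nat_lit 8275) (nat_lit 0) (nat_lit 5))
    (@En.n l39003 (nat_lit 9439) (nat_lit 13) (nat_lit 10))
    (@En.n l10225 (nat_lit 9109) (nat_lit 2) (nat_lit 13))
    (@En.n l39004 (nat_lit 2989) (nat_lit 11) (nat_lit 7))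
    (@En.i (nat_lit 9125) (nat_lit 4) (nat_lit 4))
    (@En.n l10228 (nat_lit 9074) (nat_lit 0) (nat_lit 11))
    (@En.n l39005 (nat_lit 11526) (nat_lit 10) (nat_lit 6))
    (@En.n l39006 (nat_lit 8822) (nat_lit 7) (nat_lit 6))
    (@En.n l10230 (nat_lit 9433) (nat_lit 9) (nat_lit 12))
    (@En.n l39007 (nat_lit 9432) (nat_lit 9) (nat_lit 5))
    (@En.i (nat_lit 7210) (nat_lit 9) (nat_lit 9))
    (@En.n l39008 (nat_lit 8420) (nat_lit 6) (nat_lit 6))
    (@En.n l23759 (nat_lit 9443) (nat_lit 6) (nat_lit 10))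
    (@En.n l39009 (nat_lit 10583) (nat_lit 6) (nat_lit 10))
    (@En.n l39010 (nat_lit 6271) (nat_lit 10) (nat_lit 11))
    (@En.n l10226 (nat_lit 9440) (nat_lit 15) (nat_lit 3))))
  (@Cl.mk (nat_lit 0x30006000b000b00050009000c00050005000b0004000a0007000d0005000b) (nat_lit 0x3014009050406) (nat_lit 16) Lb.e (@T16.mk En
    (@En.n l619 (nat_lit 12302) (nat_lit 0) (nat_lit 11))
    (@En.n l7074 (nat_lit 9458) (nat_lit 8) (nat_lit 5))
    (@En.n l32109 (nat_lit 9441) (nat_lit 2) (nat_lit 13))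
    (@En.n l32110 (nat_lit 9440) (nat_lit 3) (nat_lit 7))
    (@En.n l32111 (nat_lit 6667) (nat_lit 4) (nat_lit 10))
    (@En.n l8145 (nat_lit 8632) (nat_lit 5) (nat_lit 4))
    (@En.i (nat_lit 9490) (nat_lit 0) (nat_lit 11))
    (@En.n l32112 (nat_lit 11525) (nat_lit 11) (nat_lit 5))
    (@En.n l32113 (nat_lit 8780) (nat_lit 8) (nat_lit 5))
    (@En.i (nat_lit 6742) (nat_lit 6) (nat_lit 12))
    (@En.n l32110 (nat_lit 3531) (nat_lit 10) (nat_lit 9))
    (@En.n l32114 (nat_lit 9700) (nat_lit 12) (nat_lit 5))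
    (@En.n l8147 (nat_lit 9442) (nat_lit 5) (nat_lit 11))
    (@En.n l8145 (nat_lit 10582) (nat_lit 14) (nat_lit 11))
    (@En.n l18240 (nat_lit 11447) (nat_lit 12) (nat_lit 6))
    (@En.n l1455 (nat_lit 9433) (nat_lit 15) (nat_lit 3))))
  (@Cl.mk (nat_lit 0x2000a0005000a0008000d000b000600030006000b00050008000b000e0005) (nat_lit 0x706235000201350) (nat_lit 16) Lb.e (@T16.mk En
    (@En.n l23144 (nat_lit 9433) (nat_lit 8) (nat_lit 5))
    (@En.n l37489 (nat_lit 8887) (nat_lit 4) (nat_lit 14))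
    (@En.n l2568 (nat_lit 6788) (nat_lit 2) (nat_lit 11))
    (@En.n l6103 (nat_lit 3528) (nat_lit 10) (nat_lit 8))
    (@En.n l37490 (nat_lit 1756) (nat_lit 4) (nat_lit 5))
    (@En.n l7489 (nat_lit 10319) (nat_lit 6) (nat_lit 11))
    (@En.i (nat_lit 6838) (nat_lit 6) (nat_lit 6))
    (@En.n l3213 (nat_lit 9442) (nat_lit 7) (nat_lit 3))
    (@En.n l37491 (nat_lit 9303) (nat_lit 0) (nat_lit 6))
    (@En.n l6606 (nat_lit 9445) (nat_lit 10) (nat_lit 11))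
    (@En.n l37492 (nat_lit 9444) (nat_lit 11) (nat_lit 13))
    (@En.n l4092 (nat_lit 9443) (nat_lit 12) (nat_lit 8))
    (@En.n l7983 (nat_lit 7132) (nat_lit 13) (nat_lit 10))
    (@En.n l1599 (nat_lit 9133) (nat_lit 14) (nat_lit 5))
    (@En.n l810 (nat_lit 9784) (nat_lit 7) (nat_lit 10))
    (@En.n l11 (nat_lit 9437) (nat_lit 15) (nat_lit 2))))
  (@Cl.mk (nat_lit 0x20007000a000d0005000a0003000a0006000d0009000600030006000e000b) (nat_lit 0x44010503500081) (nat_lit 16) Lb.e (@T16.mk En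
    (@En.n l396 (nat_lit 9433) (nat_lit 13) (nat_lit 11))
    (@En.n l1638 (nat_lit 11595) (nat_lit 1) (nat_lit 14))
    (@En.i (nat_lit 6903) (nat_lit 2) (nat_lit 6))
    (@En.n l5234 (nat_lit 11525) (nat_lit 3) (nat_lit 3))
    (@En.n l3340 (nat_lit 9250) (nat_lit 0) (nat_lit 6))
    (@En.n l4466 (nat_lit 11523) (nat_lit 5) (nat_lit 9))
    (@En.n l30442 (nat_lit 11522) (nat_lit 7) (nat_lit 13))
    (@En.n l12226 (nat_lit 11526) (nat_lit 7) (nat_lit 6))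
    (@En.n l3588 (nat_lit 6193) (nat_lit 9) (nat_lit 10))
    (@En.n l2364 (nat_lit 8633) (nat_lit 9) (nat_lit 3))
    (@En.i (nat_lit 8189) (nat_lit 11) (nat_lit 10))
    (@En.n l3588 (nat_lit 10493) (nat_lit 7) (nat_lit 5))
    (@En.n l4367 (nat_lit 6751) (nat_lit 13) (nat_lit 13))
    (@En.i (nat_lit 4860) (nat_lit 8) (nat_lit 10))
    (@En.n l4367 (nat_lit 9652) (nat_lit 4) (nat_lit 7))
    (@En.n l50 (nat_lit 9438) (nat_lit 15) (nat_lit 2))))
  (@Cl.mk (nat_lit 0x40007000a0004000b000a000900090006000500090006000c00070007000c) (nat_lit 0x30863200509003) (nat_lit 16) Lb.e (@T16.mk En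
    (@En.i (nat_lit 9078) (nat_lit 0) (nat_lit 12))
    (@En.n l27386 (nat_lit 11527) (nat_lit 9) (nat_lit 7))
    (@En.n l27387 (nat_lit 8825) (nat_lit 5) (nat_lit 7))
    (@En.n l27388 (nat_lit 9434) (nat_lit 3) (nat_lit 12))
    (@En.i (nat_lit 9387) (nat_lit 7) (nat_lit 6))
    (@En.n l27389 (nat_lit 9435) (nat_lit 10) (nat_lit 9))
    (@En.n l27390 (nat_lit 9440) (nat_lit 11) (nat_lit 5))
    (@En.n l27391 (nat_lit 8421) (nat_lit 7) (nat_lit 6))
    (@En.n l27392 (nat_lit 9448) (nat_lit 7) (nat_lit 9))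
    (@En.n l27393 (nat_lit 10585) (nat_lit 7) (nat_lit 9))
    (@En.n l27394 (nat_lit 6269) (nat_lit 6) (nat_lit 10))
    (@En.n l27395 (nat_lit 10739) (nat_lit 12) (nat_lit 11))
    (@En.n l27396 (nat_lit 8826) (nat_lit 15) (nat_lit 4))
    (@En.n l7889 (nat_lit 5913) (nat_lit 8) (nat_lit 10))
    (@En.n l27397 (nat_lit 3146) (nat_lit 11) (nat_lit 7))
    (@En.n l27398 (nat_lit 9126) (nat_lit 15) (nat_lit 4))))
noncomputable def a590 : T16 Cl := @T16.mk Cl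
  (@Cl.mk (nat_lit 0x3000b000a000a000500090005000c00060006000c00040007000d0004000b) (nat_lit 0x723020500400305) (nat_lit 16) Lb.e (@T16.mk En
    (@En.n l7 (nat_lit 11572) (nat_lit 0) (nat_lit 11))
    (@En.n l32427 (nat_lit 9452) (nat_lit 15) (nat_lit 4))
    (@En.n l644 (nat_lit 9105) (nat_lit 0) (nat_lit 13))
    (@En.n l40595 (nat_lit 3141) (nat_lit 11) (nat_lit 7))
    (@En.i (nat_lit 9127) (nat_lit 4) (nat_lit 4))
    (@En.n l40596 (nat_lit 9496) (nat_lit 0) (nat_lit 12))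
    (@En.n l9272 (nat_lit 11528) (nat_lit 10) (nat_lit 6))
    (@En.n l40597 (nat_lit 9348) (nat_lit 7) (nat_lit 6))
    (@En.n l40598 (nat_lit 9436) (nat_lit 9) (nat_lit 12))
    (@En.i (nat_lit 9441) (nat_lit 9) (nat_lit 5))
    (@En.i (nat_lit 3536) (nat_lit 10) (nat_lit 9))
    (@En.n l40599 (nat_lit 9701) (nat_lit 6) (nat_lit 5))
    (@En.n l32459 (nat_lit 9447) (nat_lit 6) (nat_lit 10))
    (@En.n l32424 (nat_lit 10584) (nat_lit 6) (nat_lit 10))
    (@En.n l18 (nat_lit 11940) (nat_lit 2) (nat_lit 11))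
    (@En.n l19434 (nat_lit 9435) (nat_lit 15) (nat_lit 3))))
  (@Cl.mk (nat_lit 0x3000b0006000b000b00060005000c00050005000c0004000a000d0004000a) (nat_lit 0x905400400805305) (nat_lit 16) Lb.e (@T16.mk En
    (@En.n l25107 (nat_lit 12301) (nat_lit 0) (nat_lit 10))
    (@En.n l40785 (nat_lit 9358) (nat_lit 15) (nat_lit 4))
    (@En.n l396 (nat_lit 7695) (nat_lit 5) (nat_lit 13))
    (@En.n l7441 (nat_lit 6669) (nat_lit 1) (nat_lit 10))
    (@En.n l11547 (nat_lit 8628) (nat_lit 4) (nat_lit 4))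
    (@En.n l18235 (nat_lit 9495) (nat_lit 0) (nat_lit 12))
    (@En.n l3498 (nat_lit 11524) (nat_lit 11) (nat_lit 5))
    (@En.n l18225 (nat_lit 8778) (nat_lit 7) (nat_lit 5))
    (@En.n l40786 (nat_lit 6741) (nat_lit 9) (nat_lit 12))
    (@En.i (nat_lit 8607) (nat_lit 11) (nat_lit 5))
    (@En.n l40599 (nat_lit 9699) (nat_lit 2) (nat_lit 6))
    (@En.n l32459 (nat_lit 9446) (nat_lit 5) (nat_lit 11))
    (@En.n l32460 (nat_lit 9172) (nat_lit 13) (nat_lit 11))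
    (@En.n l31856 (nat_lit 9436) (nat_lit 14) (nat_lit 6))
    (@En.n l39511 (nat_lit 11552) (nat_lit 10) (nat_lit 11))
    (@En.i (nat_lit 9432) (nat_lit 15) (nat_lit 3))))
  (@Cl.mk (nat_lit 0x2000b0005000a0008000d0005000c00030006000b00040008000b000e0005) (nat_lit 0x708340900201320) (nat_lit 16) Lb.e (@T16.mk En
    (@En.n l17552 (nat_lit 9436) (nat_lit 8) (nat_lit 5))
    (@En.n l1899 (nat_lit 8868) (nat_lit 4) (nat_lit 14))
    (@En.i (nat_lit 3464) (nat_lit 2) (nat_lit 11))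
    (@En.n l4661 (nat_lit 3526) (nat_lit 3) (nat_lit 8))
    (@En.n l29967 (nat_lit 6274) (nat_lit 4) (nat_lit 4))
    (@En.i (nat_lit 10323) (nat_lit 0) (nat_lit 11))
    (@En.n l1897 (nat_lit 12123) (nat_lit 12) (nat_lit 6))
    (@En.n l22384 (nat_lit 9437) (nat_lit 7) (nat_lit 3))
    (@En.n l4659 (nat_lit 11573) (nat_lit 0) (nat_lit 12))
    (@En.n l5588 (nat_lit 7471) (nat_lit 9) (nat_lit 5))
    (@En.n l17555 (nat_lit 9446) (nat_lit 11) (nat_lit 13))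
    (@En.n l17556 (nat_lit 9447) (nat_lit 12) (nat_lit 8))
    (@En.n l7079 (nat_lit 7134) (nat_lit 13) (nat_lit 10))
    (@En.i (nat_lit 9135) (nat_lit 14) (nat_lit 5))
    (@En.n l9644 (nat_lit 9786) (nat_lit 7) (nat_lit 11))
    (@En.n l50 (nat_lit 9442) (nat_lit 15) (nat_lit 2))))
  (@Cl.mk (nat_lit 0x2000b00050008000d000b00050003000c000a000500080004000b000e0006) (nat_lit 0x801340071010460) (nat_lit 16) Lb.e (@T16.mk En
    (@En.n l23527 (nat_lit 9435) (nat_lit 7) (nat_lit 6))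
    (@En.i (nat_lit 7977) (nat_lit 4) (nat_lit 14))
    (@En.n l23528 (nat_lit 9437) (nat_lit 2) (nat_lit 11))
    (@En.i (nat_lit 9444) (nat_lit 3) (nat_lit 4))
    (@En.n l766 (nat_lit 3534) (nat_lit 10) (nat_lit 8))
    (@En.n l12423 (nat_lit 1757) (nat_lit 5) (nat_lit 5))
    (@En.n l644 (nat_lit 8617) (nat_lit 14) (nat_lit 10))
    (@En.n l23529 (nat_lit 6274) (nat_lit 8) (nat_lit 12))
    (@En.n l11 (nat_lit 9447) (nat_lit 8) (nat_lit 3))
    (@En.n l12423 (nat_lit 9302) (nat_lit 9) (nat_lit 5))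
    (@En.n l55 (nat_lit 9448) (nat_lit 11) (nat_lit 11))
    (@En.n l1722 (nat_lit 7691) (nat_lit 12) (nat_lit 13))
    (@En.n l15166 (nat_lit 2991) (nat_lit 13) (nat_lit 8))
    (@En.n l23400 (nat_lit 9130) (nat_lit 14) (nat_lit 5))
    (@En.n l23530 (nat_lit 9783) (nat_lit 0) (nat_lit 11))
    (@En.n l18 (nat_lit 9443) (nat_lit 15) (nat_lit 2))))
  (@Cl.mk (nat_lit 0x2000b0005000a000d000a00050003000c0006000b00060004000b000e0005) (nat_lit 0x7062400a0300880) (nat_lit 16) Lb.e (@T16.mk En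
    (@En.n l21810 (nat_lit 9432) (nat_lit 7) (nat_lit 5))
    (@En.i (nat_lit 8886) (nat_lit 4) (nat_lit 14))
    (@En.n l1349 (nat_lit 3466) (nat_lit 2) (nat_lit 11))
    (@En.n l7 (nat_lit 7903) (nat_lit 3) (nat_lit 4))
    (@En.n l12423 (nat_lit 1749) (nat_lit 4) (nat_lit 6))
    (@En.i (nat_lit 9094) (nat_lit 1) (nat_lit 11))
    (@En.n l1027 (nat_lit 9437) (nat_lit 6) (nat_lit 6))
    (@En.n l1080 (nat_lit 9445) (nat_lit 8) (nat_lit 12))
    (@En.n l11 (nat_lit 9446) (nat_lit 8) (nat_lit 3))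
    (@En.n l322 (nat_lit 9304) (nat_lit 9) (nat_lit 5))
    (@En.i (nat_lit 9380) (nat_lit 11) (nat_lit 10))
    (@En.n l1208 (nat_lit 7686) (nat_lit 5) (nat_lit 13))
    (@En.n l21811 (nat_lit 7135) (nat_lit 13) (nat_lit 10))
    (@En.n l21812 (nat_lit 9134) (nat_lit 14) (nat_lit 5))
    (@En.n l9310 (nat_lit 9785) (nat_lit 0) (nat_lit 11))
    (@En.n l18 (nat_lit 9444) (nat_lit 15) (nat_lit 2))))
  (@Cl.mk (nat_lit 0x2000b0005000b0008000b0005000c0005000a000500040008000b000e0006) (nat_lit 0x806340902002680) (nat_lit 16) Lb.e (@T16.mk En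
    (@En.n l29966 (nat_lit 9434) (nat_lit 2) (nat_lit 6))
    (@En.n l1899 (nat_lit 8888) (nat_lit 4) (nat_lit 14))
    (@En.n l22374 (nat_lit 9251) (nat_lit 2) (nat_lit 11))
    (@En.n l10674 (nat_lit 9437) (nat_lit 3) (nat_lit 8))
    (@En.n l28 (nat_lit 9442) (nat_lit 4) (nat_lit 4))
    (@En.n l29967 (nat_lit 2509) (nat_lit 5) (nat_lit 5))
    (@En.i (nat_lit 10322) (nat_lit 1) (nat_lit 10))
    (@En.n l7457 (nat_lit 6835) (nat_lit 7) (nat_lit 5))
    (@En.n l29968 (nat_lit 10744) (nat_lit 9) (nat_lit 12))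
    (@En.n l18896 (nat_lit 9300) (nat_lit 9) (nat_lit 5))
    (@En.n l17555 (nat_lit 8996) (nat_lit 7) (nat_lit 11))
    (@En.n l17556 (nat_lit 9448) (nat_lit 12) (nat_lit 8))
    (@En.n l29969 (nat_lit 7133) (nat_lit 13) (nat_lit 11))
    (@En.n l5977 (nat_lit 9132) (nat_lit 14) (nat_lit 5))
    (@En.n l29970 (nat_lit 9654) (nat_lit 10) (nat_lit 11))
    (@En.n l50 (nat_lit 9445) (nat_lit 15) (nat_lit 2))))
  (@Cl.mk (nat_lit 0x2000c0005000a000d0004000b0003000c0006000b00050004000b000e0005) (nat_lit 0x8063080a0300320) (nat_lit 16) Lb.e (@T16.mk En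
    (@En.n l21810 (nat_lit 9441) (nat_lit 7) (nat_lit 5))
    (@En.i (nat_lit 8867) (nat_lit 4) (nat_lit 14))
    (@En.i (nat_lit 3457) (nat_lit 2) (nat_lit 11))
    (@En.n l7 (nat_lit 8620) (nat_lit 3) (nat_lit 4))
    (@En.i (nat_lit 6272) (nat_lit 4) (nat_lit 5))
    (@En.i (nat_lit 9085) (nat_lit 1) (nat_lit 11))
    (@En.n l17904 (nat_lit 9442) (nat_lit 6) (nat_lit 6))
    (@En.i (nat_lit 8071) (nat_lit 8) (nat_lit 12))
    (@En.i (nat_lit 9444) (nat_lit 8) (nat_lit 3))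
    (@En.i (nat_lit 12300) (nat_lit 10) (nat_lit 11))
    (@En.n l6345 (nat_lit 9465) (nat_lit 10) (nat_lit 4))
    (@En.n l1208 (nat_lit 7685) (nat_lit 5) (nat_lit 13))
    (@En.n l15678 (nat_lit 7769) (nat_lit 13) (nat_lit 10))
    (@En.i (nat_lit 9137) (nat_lit 14) (nat_lit 5))
    (@En.i (nat_lit 9788) (nat_lit 3) (nat_lit 12))
    (@En.n l18 (nat_lit 9446) (nat_lit 15) (nat_lit 2))))
  (@Cl.mk (nat_lit 0x2000c00050008000d0004000c0003000c000a000400080004000b000e0006) (nat_lit 0x902305012010460) (nat_lit 16) Lb.e (@T16.mk En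
    (@En.n l21810 (nat_lit 9440) (nat_lit 7) (nat_lit 6))
    (@En.i (nat_lit 7978) (nat_lit 4) (nat_lit 14))
    (@En.n l7509 (nat_lit 9442) (nat_lit 2) (nat_lit 11))
    (@En.i (nat_lit 9446) (nat_lit 3) (nat_lit 4))
    (@En.n l766 (nat_lit 3529) (nat_lit 4) (nat_lit 8))
    (@En.n l12423 (nat_lit 6273) (nat_lit 5) (nat_lit 4))
    (@En.n l644 (nat_lit 8616) (nat_lit 0) (nat_lit 10))
    (@En.i (nat_lit 4175) (nat_lit 8) (nat_lit 12))
    (@En.i (nat_lit 9443) (nat_lit 8) (nat_lit 3))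
    (@En.n l1253 (nat_lit 11571) (nat_lit 10) (nat_lit 12))
    (@En.n l9462 (nat_lit 9449) (nat_lit 10) (nat_lit 4))
    (@En.n l1722 (nat_lit 7689) (nat_lit 12) (nat_lit 13))
    (@En.n l15166 (nat_lit 3140) (nat_lit 13) (nat_lit 8))
    (@En.i (nat_lit 9136) (nat_lit 14) (nat_lit 5))
    (@En.n l22053 (nat_lit 9787) (nat_lit 0) (nat_lit 12))
    (@En.n l18 (nat_lit 9447) (nat_lit 15) (nat_lit 2))))
  (@Cl.mk (nat_lit 0x2000c00050008000b0004000c000b00090005000400080005000b000e0007) (nat_lit 0x902309610020770) (nat_lit 16) Lb.e (@T16.mk En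
    (@En.n l10108 (nat_lit 9439) (nat_lit 2) (nat_lit 7))
    (@En.i (nat_lit 7976) (nat_lit 4) (nat_lit 14))
    (@En.n l7509 (nat_lit 9445) (nat_lit 2) (nat_lit 11))
    (@En.n l28 (nat_lit 9380) (nat_lit 3) (nat_lit 5))
    (@En.n l343 (nat_lit 9443) (nat_lit 4) (nat_lit 8))
    (@En.n l28 (nat_lit 9447) (nat_lit 5) (nat_lit 4))
    (@En.n l12423 (nat_lit 2511) (nat_lit 6) (nat_lit 5))
    (@En.n l644 (nat_lit 8615) (nat_lit 1) (nat_lit 9))
    (@En.n l77 (nat_lit 6272) (nat_lit 9) (nat_lit 11))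
    (@En.n l11243 (nat_lit 10745) (nat_lit 10) (nat_lit 12))
    (@En.n l12423 (nat_lit 9301) (nat_lit 10) (nat_lit 4))
    (@En.n l387 (nat_lit 6289) (nat_lit 7) (nat_lit 11))
    (@En.n l27425 (nat_lit 3144) (nat_lit 13) (nat_lit 8))
    (@En.n l22052 (nat_lit 9131) (nat_lit 14) (nat_lit 5))
    (@En.n l22053 (nat_lit 9782) (nat_lit 0) (nat_lit 12))
    (@En.n l18 (nat_lit 9448) (nat_lit 15) (nat_lit 2))))
  (@Cl.mk (nat_lit 0x2000c000b000600090004000c0005000c000a000400070004000a000e0006) (nat_lit 0x890303090000330) (nat_lit 16) Lb.e (@T16.mk En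
    (@En.i (nat_lit 9452) (nat_lit 5) (nat_lit 6))
    (@En.n l5 (nat_lit 6397) (nat_lit 1) (nat_lit 14))
    (@En.n l36875 (nat_lit 7471) (nat_lit 2) (nat_lit 10))
    (@En.n l7 (nat_lit 9465) (nat_lit 3) (nat_lit 4))
    (@En.n l7889 (nat_lit 6872) (nat_lit 11) (nat_lit 7))
    (@En.n l6574 (nat_lit 9367) (nat_lit 5) (nat_lit 4))
    (@En.n l765 (nat_lit 9539) (nat_lit 0) (nat_lit 10))
    (@En.n l1897 (nat_lit 11751) (nat_lit 8) (nat_lit 12))
    (@En.n l15450 (nat_lit 9296) (nat_lit 8) (nat_lit 5))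
    (@En.n l7145 (nat_lit 9451) (nat_lit 10) (nat_lit 12))
    (@En.n l245 (nat_lit 9450) (nat_lit 10) (nat_lit 4))
    (@En.n l5375 (nat_lit 3139) (nat_lit 12) (nat_lit 9))
    (@En.n l830 (nat_lit 9593) (nat_lit 13) (nat_lit 6))
    (@En.n l34514 (nat_lit 9443) (nat_lit 14) (nat_lit 11))
    (@En.i (nat_lit 9939) (nat_lit 3) (nat_lit 12))
    (@En.n l17 (nat_lit 9449) (nat_lit 15) (nat_lit 2))))
  (@Cl.mk (nat_lit 0x2000c0007000c00070004000c0004000c000a0004000900040009000e0006) (nat_lit 0x30200a074050410) (nat_lit 16) Lb.e (@T16.mk En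
    (@En.n l29813 (nat_lit 9454) (nat_lit 5) (nat_lit 6))
    (@En.i (nat_lit 5887) (nat_lit 1) (nat_lit 14))
    (@En.n l29815 (nat_lit 9460) (nat_lit 2) (nat_lit 9))
    (@En.n l15801 (nat_lit 9462) (nat_lit 3) (nat_lit 4))
    (@En.i (nat_lit 8678) (nat_lit 4) (nat_lit 9))
    (@En.n l41662 (nat_lit 10051) (nat_lit 5) (nat_lit 4))
    (@En.n l9762 (nat_lit 10445) (nat_lit 0) (nat_lit 10))
    (@En.n l2747 (nat_lit 8110) (nat_lit 8) (nat_lit 12))
    (@En.n l24320 (nat_lit 9430) (nat_lit 8) (nat_lit 4))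
    (@En.n l28290 (nat_lit 8182) (nat_lit 10) (nat_lit 12))
    (@En.n l5761 (nat_lit 9447) (nat_lit 10) (nat_lit 4))
    (@En.n l1100 (nat_lit 9597) (nat_lit 12) (nat_lit 7))
    (@En.n l55 (nat_lit 7693) (nat_lit 13) (nat_lit 12))
    (@En.n l287 (nat_lit 9451) (nat_lit 14) (nat_lit 7))
    (@En.n l5579 (nat_lit 9936) (nat_lit 3) (nat_lit 12))
    (@En.n l17 (nat_lit 9450) (nat_lit 15) (nat_lit 2))))
  (@Cl.mk (nat_lit 0x20007000c00060009000c0004000b00090004000900070005000a000e0007) (nat_lit 0xa0220800600420) (nat_lit 16) Lb.e (@T16.mk En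
    (@En.n l34143 (nat_lit 9453) (nat_lit 6) (nat_lit 7))
    (@En.i (nat_lit 6387) (nat_lit 1) (nat_lit 14))
    (@En.n l37406 (nat_lit 7470) (nat_lit 2) (nat_lit 10))
    (@En.n l37407 (nat_lit 9470) (nat_lit 3) (nat_lit 5))
    (@En.n l1738 (nat_lit 9449) (nat_lit 4) (nat_lit 7))
    (@En.n l37408 (nat_lit 6341) (nat_lit 5) (nat_lit 9))
    (@En.n l37409 (nat_lit 9366) (nat_lit 6) (nat_lit 4))
    (@En.n l644 (nat_lit 9538) (nat_lit 0) (nat_lit 9))
    (@En.n l37410 (nat_lit 11376) (nat_lit 9) (nat_lit 11))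
    (@En.n l37411 (nat_lit 9298) (nat_lit 9) (nat_lit 4))
    (@En.n l37409 (nat_lit 8177) (nat_lit 6) (nat_lit 12))
    (@En.n l37412 (nat_lit 3137) (nat_lit 12) (nat_lit 9))
    (@En.n l37413 (nat_lit 9592) (nat_lit 13) (nat_lit 6))
    (@En.n l513 (nat_lit 9448) (nat_lit 14) (nat_lit 12))
    (@En.n l37414 (nat_lit 11109) (nat_lit 13) (nat_lit 7))
    (@En.n l18 (nat_lit 9451) (nat_lit 15) (nat_lit 2))))
  (@Cl.mk (nat_lit 0x4000b0005000b000a000a000500080005000b00060006000c000b00050008) (nat_lit 0x407710403004302) (nat_lit 16) Lb.e (@T16.mk En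
    (@En.n l42138 (nat_lit 3135) (nat_lit 10) (nat_lit 8))
    (@En.n l10269 (nat_lit 9587) (nat_lit 1) (nat_lit 5))
    (@En.n l42139 (nat_lit 9435) (nat_lit 5) (nat_lit 11))
    (@En.n l16733 (nat_lit 9469) (nat_lit 1) (nat_lit 12))
    (@En.n l42140 (nat_lit 9605) (nat_lit 10) (nat_lit 6))
    (@En.n l42141 (nat_lit 9355) (nat_lit 5) (nat_lit 6))
    (@En.n l42142 (nat_lit 9458) (nat_lit 0) (nat_lit 11))
    (@En.n l42143 (nat_lit 9358) (nat_lit 7) (nat_lit 5))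
    (@En.n l42144 (nat_lit 6671) (nat_lit 10) (nat_lit 8))
    (@En.n l29679 (nat_lit 9571) (nat_lit 1) (nat_lit 5))
    (@En.n l61 (nat_lit 9449) (nat_lit 6) (nat_lit 10))
    (@En.n l1545 (nat_lit 10589) (nat_lit 6) (nat_lit 10))
    (@En.n l16733 (nat_lit 11743) (nat_lit 2) (nat_lit 11))
    (@En.n l15036 (nat_lit 9260) (nat_lit 14) (nat_lit 5))
    (@En.n l35070 (nat_lit 9453) (nat_lit 0) (nat_lit 11))
    (@En.n l42145 (nat_lit 9454) (nat_lit 15) (nat_lit 4))))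
  (@Cl.mk (nat_lit 0x4000a000900090005000a00080006000b000700070006000c00050008000b) (nat_lit 0x661035040004023) (nat_lit 16) Lb.e (@T16.mk En
    (@En.i (nat_lit 8180) (nat_lit 7) (nat_lit 11))
    (@En.n l37069 (nat_lit 3136) (nat_lit 10) (nat_lit 8))
    (@En.n l37070 (nat_lit 9589) (nat_lit 15) (nat_lit 5))
    (@En.n l37071 (nat_lit 9439) (nat_lit 0) (nat_lit 12))
    (@En.n l22748 (nat_lit 9953) (nat_lit 10) (nat_lit 6))
    (@En.n l37072 (nat_lit 9606) (nat_lit 9) (nat_lit 7))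
    (@En.n l37073 (nat_lit 9356) (nat_lit 6) (nat_lit 7))
    (@En.n l37074 (nat_lit 9457) (nat_lit 9) (nat_lit 11))
    (@En.n l37075 (nat_lit 9353) (nat_lit 8) (nat_lit 6))
    (@En.n l37076 (nat_lit 9452) (nat_lit 8) (nat_lit 8))
    (@En.n l32683 (nat_lit 5884) (nat_lit 10) (nat_lit 10))
    (@En.n l37077 (nat_lit 9713) (nat_lit 8) (nat_lit 5))
    (@En.n l37078 (nat_lit 9451) (nat_lit 7) (nat_lit 9))
    (@En.n l22748 (nat_lit 10592) (nat_lit 7) (nat_lit 9))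
    (@En.n l37079 (nat_lit 11744) (nat_lit 2) (nat_lit 10))
    (@En.n l37080 (nat_lit 8825) (nat_lit 15) (nat_lit 4))))
  (@Cl.mk (nat_lit 0x4000b0004000b000a000a0005000a0005000a00060006000c0006000c0006) (nat_lit 0x507450103004030) (nat_lit 16) Lb.e (@T16.mk En
    (@En.n l5653 (nat_lit 9080) (nat_lit 0) (nat_lit 6))
    (@En.n l15472 (nat_lit 9106) (nat_lit 1) (nat_lit 12))
    (@En.n l24501 (nat_lit 9453) (nat_lit 4) (nat_lit 6))
    (@En.n l32563 (nat_lit 9459) (nat_lit 3) (nat_lit 12))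
    (@En.n l4079 (nat_lit 9567) (nat_lit 10) (nat_lit 6))
    (@En.n l24533 (nat_lit 9353) (nat_lit 5) (nat_lit 6))
    (@En.i (nat_lit 9459) (nat_lit 10) (nat_lit 10))
    (@En.n l1392 (nat_lit 9464) (nat_lit 7) (nat_lit 5))
    (@En.n l77 (nat_lit 8505) (nat_lit 10) (nat_lit 10))
    (@En.n l27891 (nat_lit 9570) (nat_lit 1) (nat_lit 5))
    (@En.n l8045 (nat_lit 9450) (nat_lit 6) (nat_lit 10))
    (@En.n l41906 (nat_lit 10693) (nat_lit 6) (nat_lit 10))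
    (@En.n l36513 (nat_lit 11742) (nat_lit 2) (nat_lit 11))
    (@En.n l25054 (nat_lit 9429) (nat_lit 15) (nat_lit 4))
    (@En.i (nat_lit 8184) (nat_lit 0) (nat_lit 11))
    (@En.n l41907 (nat_lit 9440) (nat_lit 1) (nat_lit 4))))
  (@Cl.mk (nat_lit 0x4000b000a0009000900070005000a0006000a00070007000c000600090006) (nat_lit 0x360000606007020) (nat_lit 16) Lb.e (@T16.mk En
    (@En.n l936 (nat_lit 2893) (nat_lit 0) (nat_lit 6))
    (@En.n l2433 (nat_lit 5914) (nat_lit 9) (nat_lit 9))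
    (@En.n l43361 (nat_lit 8821) (nat_lit 1) (nat_lit 6))
    (@En.n l43362 (nat_lit 9711) (nat_lit 8) (nat_lit 12))
    (@En.n l43363 (nat_lit 9510) (nat_lit 9) (nat_lit 7))
    (@En.n l43364 (nat_lit 9453) (nat_lit 5) (nat_lit 7))
    (@En.n l42219 (nat_lit 9270) (nat_lit 9) (nat_lit 10))
    (@En.n l38783 (nat_lit 9316) (nat_lit 7) (nat_lit 6))
    (@En.n l38784 (nat_lit 9429) (nat_lit 10) (nat_lit 10))
    (@En.n l38785 (nat_lit 9454) (nat_lit 9) (nat_lit 5))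
    (@En.n l43365 (nat_lit 9712) (nat_lit 9) (nat_lit 7))
    (@En.n l55 (nat_lit 9456) (nat_lit 7) (nat_lit 9))
    (@En.n l43366 (nat_lit 10404) (nat_lit 7) (nat_lit 9))
    (@En.n l43367 (nat_lit 10048) (nat_lit 6) (nat_lit 10))
    (@En.n l27521 (nat_lit 9330) (nat_lit 4) (nat_lit 11))
    (@En.n l9979 (nat_lit 9439) (nat_lit 12) (nat_lit 4))))
noncomputable def a591 : T16 Cl := @T16.mk Cl
  (@Cl.mk (nat_lit 0x2000c0007000a00070004000c000b000900060004000900050009000e0007) (nat_lit 0x40400a6700705a0) (nat_lit 16) Lb.e (@T16.mk En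
    (@En.i (nat_lit 9455) (nat_lit 5) (nat_lit 7))
    (@En.n l25816 (nat_lit 5886) (nat_lit 1) (nat_lit 14))
    (@En.i (nat_lit 9268) (nat_lit 2) (nat_lit 9))
    (@En.n l117 (nat_lit 9317) (nat_lit 3) (nat_lit 5))
    (@En.n l617 (nat_lit 9430) (nat_lit 4) (nat_lit 9))
    (@En.n l25816 (nat_lit 9450) (nat_lit 5) (nat_lit 4))
    (@En.n l15016 (nat_lit 3349) (nat_lit 6) (nat_lit 6))
    (@En.n l18153 (nat_lit 10444) (nat_lit 1) (nat_lit 9))
    (@En.n l40507 (nat_lit 10050) (nat_lit 9) (nat_lit 11))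
    (@En.n l20423 (nat_lit 9327) (nat_lit 10) (nat_lit 12))
    (@En.n l13633 (nat_lit 9448) (nat_lit 10) (nat_lit 4))
    (@En.i (nat_lit 2890) (nat_lit 12) (nat_lit 7))
    (@En.n l18571 (nat_lit 6290) (nat_lit 8) (nat_lit 10))
    (@En.n l37573 (nat_lit 8828) (nat_lit 14) (nat_lit 7))
    (@En.n l5646 (nat_lit 9708) (nat_lit 3) (nat_lit 12))
    (@En.n l28 (nat_lit 9456) (nat_lit 15) (nat_lit 2))))
  (@Cl.mk (nat_lit 0x4000a000a0005000b0008000b000600060005000b0005000c0008000b0005) (nat_lit 0x710353000307330) (nat_lit 16) Lb.e (@T16.mk En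
    (@En.n l32038 (nat_lit 8822) (nat_lit 0) (nat_lit 5))
    (@En.n l32039 (nat_lit 9005) (nat_lit 7) (nat_lit 11))
    (@En.n l22330 (nat_lit 9453) (nat_lit 1) (nat_lit 8))
    (@En.n l32040 (nat_lit 6883) (nat_lit 2) (nat_lit 12))
    (@En.n l32041 (nat_lit 9591) (nat_lit 4) (nat_lit 5))
    (@En.n l32042 (nat_lit 9434) (nat_lit 0) (nat_lit 11))
    (@En.i (nat_lit 9951) (nat_lit 11) (nat_lit 5))
    (@En.n l27663 (nat_lit 9607) (nat_lit 10) (nat_lit 6))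
    (@En.n l32043 (nat_lit 8797) (nat_lit 8) (nat_lit 6))
    (@En.n l32044 (nat_lit 8648) (nat_lit 7) (nat_lit 11))
    (@En.n l22334 (nat_lit 9458) (nat_lit 1) (nat_lit 8))
    (@En.n l32045 (nat_lit 5883) (nat_lit 12) (nat_lit 11))
    (@En.n l32046 (nat_lit 9426) (nat_lit 3) (nat_lit 5))
    (@En.n l32047 (nat_lit 7470) (nat_lit 6) (nat_lit 10))
    (@En.n l32048 (nat_lit 10594) (nat_lit 1) (nat_lit 10))
    (@En.i (nat_lit 9495) (nat_lit 12) (nat_lit 4))))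
  (@Cl.mk (nat_lit 0x50005000b000a0005000b00080005000b00060005000b000b00050008000b) (nat_lit 0x33073040081042) (nat_lit 16) Lb.e (@T16.mk En
    (@En.n l6364 (nat_lit 8131) (nat_lit 7) (nat_lit 11))
    (@En.n l6825 (nat_lit 6673) (nat_lit 10) (nat_lit 8))
    (@En.n l1790 (nat_lit 9427) (nat_lit 2) (nat_lit 5))
    (@En.n l619 (nat_lit 7471) (nat_lit 5) (nat_lit 11))
    (@En.n l2129 (nat_lit 10591) (nat_lit 1) (nat_lit 11))
    (@En.n l77 (nat_lit 9490) (nat_lit 11) (nat_lit 5))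
    (@En.n l15742 (nat_lit 9255) (nat_lit 0) (nat_lit 6))
    (@En.n l30384 (nat_lit 9457) (nat_lit 1) (nat_lit 11))
    (@En.n l6305 (nat_lit 9459) (nat_lit 2) (nat_lit 5))
    (@En.n l30385 (nat_lit 9452) (nat_lit 0) (nat_lit 8))
    (@En.n l15741 (nat_lit 6672) (nat_lit 1) (nat_lit 11))
    (@En.n l28840 (nat_lit 9586) (nat_lit 2) (nat_lit 5))
    (@En.n l6825 (nat_lit 9433) (nat_lit 6) (nat_lit 10))
    (@En.n l2129 (nat_lit 9468) (nat_lit 1) (nat_lit 11))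
    (@En.n l7126 (nat_lit 9608) (nat_lit 11) (nat_lit 5))
    (@En.n l30386 (nat_lit 8801) (nat_lit 0) (nat_lit 5))))
  (@Cl.mk (nat_lit 0x4000b000b0005000b000a00050005000b0005000b0006000c0005000b0005) (nat_lit 0x450720030403060) (nat_lit 16) Lb.e (@T16.mk En
    (@En.n l25054 (nat_lit 9269) (nat_lit 0) (nat_lit 5))
    (@En.n l15897 (nat_lit 8981) (nat_lit 1) (nat_lit 11))
    (@En.n l30123 (nat_lit 9463) (nat_lit 1) (nat_lit 5))
    (@En.i (nat_lit 6877) (nat_lit 2) (nat_lit 12))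
    (@En.n l5653 (nat_lit 9387) (nat_lit 4) (nat_lit 6))
    (@En.n l27654 (nat_lit 9358) (nat_lit 2) (nat_lit 11))
    (@En.n l30124 (nat_lit 9457) (nat_lit 6) (nat_lit 5))
    (@En.n l30125 (nat_lit 9358) (nat_lit 0) (nat_lit 11))
    (@En.n l30126 (nat_lit 9563) (nat_lit 11) (nat_lit 5))
    (@En.n l30127 (nat_lit 8800) (nat_lit 0) (nat_lit 5))
    (@En.n l30128 (nat_lit 8120) (nat_lit 6) (nat_lit 10))
    (@En.n l77 (nat_lit 7370) (nat_lit 1) (nat_lit 11))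
    (@En.n l29902 (nat_lit 9810) (nat_lit 2) (nat_lit 5))
    (@En.n l30129 (nat_lit 9460) (nat_lit 5) (nat_lit 11))
    (@En.n l30130 (nat_lit 10275) (nat_lit 1) (nat_lit 11))
    (@En.n l30131 (nat_lit 9496) (nat_lit 12) (nat_lit 4))))
  (@Cl.mk (nat_lit 0x2000b0006000b0007000c0005000c00050004000b0004000a0009000e0005) (nat_lit 0x909080400405350) (nat_lit 16) Lb.e (@T16.mk En
    (@En.n l27658 (nat_lit 9459) (nat_lit 9) (nat_lit 5))
    (@En.n l23988 (nat_lit 9285) (nat_lit 1) (nat_lit 14))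
    (@En.n l8015 (nat_lit 8100) (nat_lit 2) (nat_lit 9))
    (@En.n l42029 (nat_lit 8918) (nat_lit 3) (nat_lit 10))
    (@En.i (nat_lit 9373) (nat_lit 4) (nat_lit 4))
    (@En.n l23988 (nat_lit 6854) (nat_lit 0) (nat_lit 11))
    (@En.i (nat_lit 7464) (nat_lit 6) (nat_lit 4))
    (@En.n l19715 (nat_lit 9267) (nat_lit 7) (nat_lit 5))
    (@En.n l19712 (nat_lit 8980) (nat_lit 9) (nat_lit 12))
    (@En.n l19713 (nat_lit 9461) (nat_lit 9) (nat_lit 5))
    (@En.n l16302 (nat_lit 7131) (nat_lit 11) (nat_lit 12))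
    (@En.n l34345 (nat_lit 8997) (nat_lit 12) (nat_lit 7))
    (@En.n l42030 (nat_lit 9465) (nat_lit 13) (nat_lit 11))
    (@En.n l2038 (nat_lit 7470) (nat_lit 14) (nat_lit 6))
    (@En.n l23295 (nat_lit 8885) (nat_lit 10) (nat_lit 11))
    (@En.n l17 (nat_lit 9460) (nat_lit 15) (nat_lit 2))))
  (@Cl.mk (nat_lit 0x2000b00090007000c00080005000c00040007000b000400090008000e0005) (nat_lit 0x9603209003073b0) (nat_lit 16) Lb.e (@T16.mk En
    (@En.n l3528 (nat_lit 9463) (nat_lit 8) (nat_lit 5))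
    (@En.n l43082 (nat_lit 8895) (nat_lit 1) (nat_lit 14))
    (@En.n l649 (nat_lit 8101) (nat_lit 2) (nat_lit 8))
    (@En.n l1769 (nat_lit 8722) (nat_lit 3) (nat_lit 9))
    (@En.i (nat_lit 10049) (nat_lit 4) (nat_lit 4))
    (@En.i (nat_lit 10810) (nat_lit 0) (nat_lit 11))
    (@En.n l649 (nat_lit 7705) (nat_lit 11) (nat_lit 7))
    (@En.n l34694 (nat_lit 9418) (nat_lit 7) (nat_lit 4))
    (@En.n l2125 (nat_lit 9902) (nat_lit 9) (nat_lit 12))
    (@En.i (nat_lit 9442) (nat_lit 9) (nat_lit 5))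
    (@En.n l3866 (nat_lit 9377) (nat_lit 11) (nat_lit 8))
    (@En.n l13799 (nat_lit 9462) (nat_lit 12) (nat_lit 12))
    (@En.n l43082 (nat_lit 9450) (nat_lit 13) (nat_lit 7))
    (@En.n l10971 (nat_lit 9466) (nat_lit 14) (nat_lit 9))
    (@En.i (nat_lit 9474) (nat_lit 10) (nat_lit 11))
    (@En.n l50 (nat_lit 9461) (nat_lit 15) (nat_lit 2))))
  (@Cl.mk (nat_lit 0x2000c0009000c00070004000b0004000c0007000b000500040009000e0005) (nat_lit 0xa420080a01003b0) (nat_lit 16) Lb.e (@T16.mk En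
    (@En.n l24683 (nat_lit 9464) (nat_lit 5) (nat_lit 5))
    (@En.i (nat_lit 8900) (nat_lit 1) (nat_lit 14))
    (@En.n l16327 (nat_lit 8116) (nat_lit 2) (nat_lit 9))
    (@En.i (nat_lit 7301) (nat_lit 3) (nat_lit 4))
    (@En.n l17308 (nat_lit 10050) (nat_lit 4) (nat_lit 5))
    (@En.n l21924 (nat_lit 9140) (nat_lit 1) (nat_lit 11))
    (@En.n l43379 (nat_lit 9461) (nat_lit 6) (nat_lit 7))
    (@En.n l43380 (nat_lit 8113) (nat_lit 8) (nat_lit 12))
    (@En.n l21924 (nat_lit 9419) (nat_lit 8) (nat_lit 4))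
    (@En.n l17308 (nat_lit 9901) (nat_lit 10) (nat_lit 11))
    (@En.n l8042 (nat_lit 9446) (nat_lit 10) (nat_lit 4))
    (@En.n l43381 (nat_lit 9658) (nat_lit 12) (nat_lit 7))
    (@En.i (nat_lit 7688) (nat_lit 6) (nat_lit 12))
    (@En.n l3699 (nat_lit 9467) (nat_lit 14) (nat_lit 9))
    (@En.n l7201 (nat_lit 8796) (nat_lit 3) (nat_lit 12))
    (@En.n l17 (nat_lit 9462) (nat_lit 15) (nat_lit 2))))
  (@Cl.mk (nat_lit 0x40007000b000b0005000a000900050005000b00090006000c00070005000b) (nat_lit 0x74012008406008) (nat_lit 16) Lb.e (@T16.mk En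
    (@En.n l11434 (nat_lit 9883) (nat_lit 0) (nat_lit 11))
    (@En.n l10971 (nat_lit 9436) (nat_lit 1) (nat_lit 5))
    (@En.n l2135 (nat_lit 9378) (nat_lit 0) (nat_lit 7))
    (@En.n l16960 (nat_lit 9464) (nat_lit 1) (nat_lit 12))
    (@En.n l33041 (nat_lit 9454) (nat_lit 2) (nat_lit 6))
    (@En.n l33042 (nat_lit 9469) (nat_lit 5) (nat_lit 9))
    (@En.n l4813 (nat_lit 9458) (nat_lit 10) (nat_lit 11))
    (@En.n l33043 (nat_lit 9565) (nat_lit 11) (nat_lit 5))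
    (@En.n l33029 (nat_lit 9471) (nat_lit 8) (nat_lit 5))
    (@En.i (nat_lit 8118) (nat_lit 7) (nat_lit 9))
    (@En.n l33044 (nat_lit 8719) (nat_lit 10) (nat_lit 10))
    (@En.n l1865 (nat_lit 9719) (nat_lit 2) (nat_lit 5))
    (@En.n l8259 (nat_lit 9461) (nat_lit 5) (nat_lit 11))
    (@En.n l3522 (nat_lit 10698) (nat_lit 8) (nat_lit 11))
    (@En.i (nat_lit 7707) (nat_lit 11) (nat_lit 7))
    (@En.n l33045 (nat_lit 9420) (nat_lit 15) (nat_lit 4))))
  (@Cl.mk (nat_lit 0x4000a0004000b0007000b000b00060005000a00050005000c0009000c0006) (nat_lit 0x505022002008350) (nat_lit 16) Lb.e (@T16.mk En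
    (@En.n l13919 (nat_lit 9389) (nat_lit 0) (nat_lit 6))
    (@En.i (nat_lit 9107) (nat_lit 6) (nat_lit 12))
    (@En.n l27672 (nat_lit 9468) (nat_lit 4) (nat_lit 9))
    (@En.n l16703 (nat_lit 9457) (nat_lit 3) (nat_lit 12))
    (@En.n l43073 (nat_lit 9566) (nat_lit 11) (nat_lit 5))
    (@En.i (nat_lit 9472) (nat_lit 5) (nat_lit 5))
    (@En.i (nat_lit 8117) (nat_lit 0) (nat_lit 10))
    (@En.n l24726 (nat_lit 7302) (nat_lit 11) (nat_lit 5))
    (@En.n l742 (nat_lit 9718) (nat_lit 2) (nat_lit 6))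
    (@En.n l16289 (nat_lit 9462) (nat_lit 5) (nat_lit 11))
    (@En.n l15205 (nat_lit 9203) (nat_lit 8) (nat_lit 11))
    (@En.n l27675 (nat_lit 9463) (nat_lit 14) (nat_lit 7))
    (@En.n l35159 (nat_lit 11554) (nat_lit 13) (nat_lit 11))
    (@En.n l15205 (nat_lit 9421) (nat_lit 15) (nat_lit 4))
    (@En.i (nat_lit 9884) (nat_lit 0) (nat_lit 10))
    (@En.n l43074 (nat_lit 9441) (nat_lit 1) (nat_lit 4))))
  (@Cl.mk (nat_lit 0x2000c000b0006000b0004000b0005000c0005000b00050004000a000e0005) (nat_lit 0xa80707060500320) (nat_lit 16) Lb.e (@T16.mk En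
    (@En.n l29673 (nat_lit 9358) (nat_lit 5) (nat_lit 5))
    (@En.n l3786 (nat_lit 6400) (nat_lit 1) (nat_lit 14))
    (@En.n l30267 (nat_lit 8201) (nat_lit 2) (nat_lit 10))
    (@En.i (nat_lit 9535) (nat_lit 3) (nat_lit 4))
    (@En.n l10765 (nat_lit 9371) (nat_lit 4) (nat_lit 5))
    (@En.n l3786 (nat_lit 9151) (nat_lit 1) (nat_lit 11))
    (@En.n l38918 (nat_lit 7471) (nat_lit 6) (nat_lit 5))
    (@En.n l27012 (nat_lit 12256) (nat_lit 8) (nat_lit 12))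
    (@En.n l7220 (nat_lit 9277) (nat_lit 8) (nat_lit 5))
    (@En.n l34122 (nat_lit 9470) (nat_lit 10) (nat_lit 11))
    (@En.n l612 (nat_lit 9462) (nat_lit 10) (nat_lit 4))
    (@En.n l27959 (nat_lit 7768) (nat_lit 12) (nat_lit 11))
    (@En.n l23569 (nat_lit 9660) (nat_lit 13) (nat_lit 6))
    (@En.n l30266 (nat_lit 9444) (nat_lit 14) (nat_lit 11))
    (@En.i (nat_lit 9471) (nat_lit 3) (nat_lit 12))
    (@En.n l17 (nat_lit 9465) (nat_lit 15) (nat_lit 2))))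
  (@Cl.mk (nat_lit 0x200090006000c0007000c000b000400070004000b0005000a0009000e0005) (nat_lit 0x507088000403350) (nat_lit 16) Lb.e (@T16.mk En
    (@En.n l19662 (nat_lit 9469) (nat_lit 7) (nat_lit 5))
    (@En.i (nat_lit 9283) (nat_lit 1) (nat_lit 14))
    (@En.n l575 (nat_lit 8096) (nat_lit 2) (nat_lit 9))
    (@En.n l10979 (nat_lit 8916) (nat_lit 3) (nat_lit 10))
    (@En.n l7 (nat_lit 10040) (nat_lit 4) (nat_lit 5))
    (@En.n l4538 (nat_lit 9953) (nat_lit 6) (nat_lit 11))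
    (@En.n l7 (nat_lit 9460) (nat_lit 6) (nat_lit 4))
    (@En.i (nat_lit 6472) (nat_lit 11) (nat_lit 7))
    (@En.n l15603 (nat_lit 9271) (nat_lit 8) (nat_lit 4))
    (@En.n l644 (nat_lit 9900) (nat_lit 10) (nat_lit 11))
    (@En.n l15604 (nat_lit 7123) (nat_lit 11) (nat_lit 12))
    (@En.n l12096 (nat_lit 9312) (nat_lit 12) (nat_lit 7))
    (@En.n l24517 (nat_lit 9467) (nat_lit 13) (nat_lit 12))
    (@En.n l619 (nat_lit 9470) (nat_lit 14) (nat_lit 6))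
    (@En.n l8148 (nat_lit 10591) (nat_lit 5) (nat_lit 9))
    (@En.n l17 (nat_lit 9466) (nat_lit 15) (nat_lit 2))))
  (@Cl.mk (nat_lit 0x20009000c0006000b000a0004000b00070005000b00060005000a000e0005) (nat_lit 0x360850600200350) (nat_lit 16) Lb.e (@T16.mk En
    (@En.n l33991 (nat_lit 9468) (nat_lit 6) (nat_lit 5))
    (@En.i (nat_lit 9287) (nat_lit 1) (nat_lit 14))
    (@En.n l9337 (nat_lit 8097) (nat_lit 2) (nat_lit 10))
    (@En.n l7 (nat_lit 9534) (nat_lit 3) (nat_lit 5))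
    (@En.n l33992 (nat_lit 10043) (nat_lit 4) (nat_lit 6))
    (@En.n l2738 (nat_lit 9951) (nat_lit 6) (nat_lit 11))
    (@En.n l4600 (nat_lit 9465) (nat_lit 6) (nat_lit 5))
    (@En.n l10974 (nat_lit 9466) (nat_lit 7) (nat_lit 7))
    (@En.n l33993 (nat_lit 12257) (nat_lit 9) (nat_lit 11))
    (@En.n l11547 (nat_lit 9276) (nat_lit 9) (nat_lit 4))
    (@En.n l9342 (nat_lit 9899) (nat_lit 11) (nat_lit 10))
    (@En.n l18201 (nat_lit 7125) (nat_lit 12) (nat_lit 11))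
    (@En.n l33994 (nat_lit 9484) (nat_lit 13) (nat_lit 6))
    (@En.n l18208 (nat_lit 9386) (nat_lit 6) (nat_lit 12))
    (@En.n l33995 (nat_lit 10594) (nat_lit 4) (nat_lit 9))
    (@En.n l18 (nat_lit 9467) (nat_lit 15) (nat_lit 2))))
  (@Cl.mk (nat_lit 0x4000a00070005000b000b00070006000b000500050009000c0005000b0009) (nat_lit 0x600330040025024) (nat_lit 16) Lb.e (@T16.mk En
    (@En.n l11421 (nat_lit 9896) (nat_lit 0) (nat_lit 9))
    (@En.n l15618 (nat_lit 5313) (nat_lit 1) (nat_lit 11))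
    (@En.n l4172 (nat_lit 9481) (nat_lit 5) (nat_lit 5))
    (@En.n l42167 (nat_lit 9388) (nat_lit 6) (nat_lit 12))
    (@En.n l42168 (nat_lit 10593) (nat_lit 10) (nat_lit 9))
    (@En.n l50 (nat_lit 9564) (nat_lit 11) (nat_lit 5))
    (@En.n l42169 (nat_lit 9949) (nat_lit 6) (nat_lit 5))
    (@En.i (nat_lit 9576) (nat_lit 0) (nat_lit 11))
    (@En.n l42170 (nat_lit 9536) (nat_lit 10) (nat_lit 6))
    (@En.n l37022 (nat_lit 9725) (nat_lit 2) (nat_lit 7))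
    (@En.n l42171 (nat_lit 9467) (nat_lit 5) (nat_lit 11))
    (@En.n l42167 (nat_lit 9955) (nat_lit 12) (nat_lit 11))
    (@En.n l15619 (nat_lit 9358) (nat_lit 11) (nat_lit 5))
    (@En.n l42172 (nat_lit 9469) (nat_lit 14) (nat_lit 7))
    (@En.n l42173 (nat_lit 10998) (nat_lit 1) (nat_lit 10))
    (@En.n l17 (nat_lit 9275) (nat_lit 15) (nat_lit 4))))
  (@Cl.mk (nat_lit 0x400070004000b000b0006000b000a0005000500090005000c0006000c000a) (nat_lit 0x8505400306035) (nat_lit 16) Lb.e (@T16.mk En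
    (@En.n l35064 (nat_lit 9897) (nat_lit 0) (nat_lit 10))
    (@En.i (nat_lit 7122) (nat_lit 1) (nat_lit 12))
    (@En.n l35065 (nat_lit 9316) (nat_lit 4) (nat_lit 6))
    (@En.n l35066 (nat_lit 9468) (nat_lit 3) (nat_lit 12))
    (@En.n l27654 (nat_lit 9353) (nat_lit 4) (nat_lit 5))
    (@En.n l35067 (nat_lit 10590) (nat_lit 10) (nat_lit 9))
    (@En.n l35068 (nat_lit 9562) (nat_lit 11) (nat_lit 5))
    (@En.n l19274 (nat_lit 9473) (nat_lit 7) (nat_lit 5))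
    (@En.n l32797 (nat_lit 8129) (nat_lit 6) (nat_lit 10))
    (@En.i (nat_lit 8813) (nat_lit 9) (nat_lit 11))
    (@En.n l34541 (nat_lit 9724) (nat_lit 2) (nat_lit 6))
    (@En.n l19276 (nat_lit 9466) (nat_lit 5) (nat_lit 11))
    (@En.n l35069 (nat_lit 9956) (nat_lit 13) (nat_lit 11))
    (@En.n l11386 (nat_lit 9459) (nat_lit 15) (nat_lit 4))
    (@En.n l32797 (nat_lit 6476) (nat_lit 11) (nat_lit 7))
    (@En.n l18 (nat_lit 9274) (nat_lit 1) (nat_lit 4))))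
  (@Cl.mk (nat_lit 0x20006000c0006000c000b0004000b0004000a0005000a0005000a000e0006) (nat_lit 0x70860904040460) (nat_lit 16) Lb.e (@T16.mk En
    (@En.n l40527 (nat_lit 9353) (nat_lit 6) (nat_lit 6))
    (@En.n l40528 (nat_lit 9988) (nat_lit 1) (nat_lit 14))
    (@En.i (nat_lit 8317) (nat_lit 2) (nat_lit 10))
    (@En.n l40529 (nat_lit 9467) (nat_lit 3) (nat_lit 5))
    (@En.n l2846 (nat_lit 6308) (nat_lit 4) (nat_lit 10))
    (@En.n l40530 (nat_lit 7575) (nat_lit 5) (nat_lit 5))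
    (@En.n l40528 (nat_lit 9957) (nat_lit 7) (nat_lit 10))
    (@En.n l237 (nat_lit 7470) (nat_lit 7) (nat_lit 4))
    (@En.n l11 (nat_lit 8058) (nat_lit 9) (nat_lit 11))
    (@En.n l40531 (nat_lit 9299) (nat_lit 9) (nat_lit 4))
    (@En.n l4380 (nat_lit 9898) (nat_lit 11) (nat_lit 11))
    (@En.n l40532 (nat_lit 7245) (nat_lit 12) (nat_lit 12))
    (@En.n l40533 (nat_lit 9797) (nat_lit 13) (nat_lit 6))
    (@En.n l40534 (nat_lit 9380) (nat_lit 14) (nat_lit 12))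
    (@En.n l40535 (nat_lit 10694) (nat_lit 13) (nat_lit 6))
    (@En.n l17 (nat_lit 9470) (nat_lit 15) (nat_lit 2))))
  (@Cl.mk (nat_lit 0x40007000b0006000c0006000b00050004000b00090005000c000a0005000a) (nat_lit 0x303009309506) (nat_lit 16) Lb.e (@T16.mk En
    (@En.n l27959 (nat_lit 11099) (nat_lit 0) (nat_lit 10))
    (@En.n l21041 (nat_lit 8780) (nat_lit 1) (nat_lit 5))
    (@En.n l43078 (nat_lit 10532) (nat_lit 0) (nat_lit 10))
    (@En.n l42520 (nat_lit 9472) (nat_lit 1) (nat_lit 12))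
    (@En.n l43079 (nat_lit 9353) (nat_lit 2) (nat_lit 5))
    (@En.n l830 (nat_lit 9473) (nat_lit 5) (nat_lit 9))
    (@En.n l30267 (nat_lit 9586) (nat_lit 1) (nat_lit 11))
    (@En.i (nat_lit 9942) (nat_lit 12) (nat_lit 4))
    (@En.n l42521 (nat_lit 10054) (nat_lit 0) (nat_lit 5))
    (@En.n l3786 (nat_lit 9141) (nat_lit 1) (nat_lit 11))
    (@En.n l38918 (nat_lit 9940) (nat_lit 1) (nat_lit 6))
    (@En.n l43079 (nat_lit 8905) (nat_lit 2) (nat_lit 12))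
    (@En.n l7220 (nat_lit 9938) (nat_lit 4) (nat_lit 6))
    (@En.n l43080 (nat_lit 9984) (nat_lit 8) (nat_lit 11))
    (@En.n l10703 (nat_lit 11392) (nat_lit 11) (nat_lit 7))
    (@En.n l43081 (nat_lit 8796) (nat_lit 15) (nat_lit 4))))
noncomputable def a592 : T16 Cl := @T16.mk Cl
  (@Cl.mk (nat_lit 0x400090004000a0007000b0007000c0007000600050004000c0009000c0009) (nat_lit 0x50000030000a384) (nat_lit 16) Lb.e (@T16.mk En
    (@En.n l42444 (nat_lit 11117) (nat_lit 0) (nat_lit 9))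
    (@En.i (nat_lit 7813) (nat_lit 6) (nat_lit 12))
    (@En.n l42445 (nat_lit 9949) (nat_lit 4) (nat_lit 9))
    (@En.n l42446 (nat_lit 9591) (nat_lit 3) (nat_lit 12))
    (@En.n l42447 (nat_lit 9946) (nat_lit 12) (nat_lit 4))
    (@En.i (nat_lit 10053) (nat_lit 11) (nat_lit 5))
    (@En.n l24726 (nat_lit 10445) (nat_lit 10) (nat_lit 6))
    (@En.n l61 (nat_lit 9949) (nat_lit 7) (nat_lit 7))
    (@En.n l24726 (nat_lit 8871) (nat_lit 8) (nat_lit 12))
    (@En.n l16289 (nat_lit 9739) (nat_lit 4) (nat_lit 7))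
    (@En.n l42448 (nat_lit 9986) (nat_lit 8) (nat_lit 11))
    (@En.n l39530 (nat_lit 9471) (nat_lit 14) (nat_lit 7))
    (@En.n l40626 (nat_lit 11179) (nat_lit 13) (nat_lit 10))
    (@En.i (nat_lit 8797) (nat_lit 15) (nat_lit 4))
    (@En.i (nat_lit 11100) (nat_lit 0) (nat_lit 9))
    (@En.n l37837 (nat_lit 8778) (nat_lit 1) (nat_lit 4))))
  (@Cl.mk (nat_lit 0x400070004000b0007000c0007000c0005000400090004000c0009000c0009) (nat_lit 0x20600209465) (nat_lit 16) Lb.e (@T16.mk En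
    (@En.n l34966 (nat_lit 11116) (nat_lit 0) (nat_lit 9))
    (@En.i (nat_lit 7911) (nat_lit 6) (nat_lit 12))
    (@En.n l28111 (nat_lit 9718) (nat_lit 14) (nat_lit 9))
    (@En.i (nat_lit 9949) (nat_lit 3) (nat_lit 12))
    (@En.i (nat_lit 9472) (nat_lit 4) (nat_lit 4))
    (@En.n l5021 (nat_lit 10950) (nat_lit 0) (nat_lit 9))
    (@En.i (nat_lit 10513) (nat_lit 12) (nat_lit 4))
    (@En.n l28106 (nat_lit 10086) (nat_lit 0) (nat_lit 5))
    (@En.n l8631 (nat_lit 8806) (nat_lit 1) (nat_lit 12))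
    (@En.n l644 (nat_lit 9721) (nat_lit 1) (nat_lit 7))
    (@En.n l43377 (nat_lit 9289) (nat_lit 2) (nat_lit 12))
    (@En.n l27093 (nat_lit 9939) (nat_lit 14) (nat_lit 7))
    (@En.i (nat_lit 11086) (nat_lit 13) (nat_lit 11))
    (@En.i (nat_lit 8800) (nat_lit 6) (nat_lit 4))
    (@En.i (nat_lit 9775) (nat_lit 11) (nat_lit 7))
    (@En.n l20805 (nat_lit 8798) (nat_lit 1) (nat_lit 4))))
  (@Cl.mk (nat_lit 0x4000a000900080005000b00080006000b000700050008000c00050008000b) (nat_lit 0x374085070036044) (nat_lit 16) Lb.e (@T16.mk En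
    (@En.i (nat_lit 9344) (nat_lit 7) (nat_lit 11))
    (@En.n l649 (nat_lit 2590) (nat_lit 10) (nat_lit 8))
    (@En.n l42270 (nat_lit 8402) (nat_lit 15) (nat_lit 5))
    (@En.n l42271 (nat_lit 9642) (nat_lit 7) (nat_lit 12))
    (@En.n l19836 (nat_lit 7570) (nat_lit 10) (nat_lit 8))
    (@En.n l9644 (nat_lit 9786) (nat_lit 2) (nat_lit 5))
    (@En.n l3866 (nat_lit 8387) (nat_lit 0) (nat_lit 7))
    (@En.n l16929 (nat_lit 8796) (nat_lit 1) (nat_lit 11))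
    (@En.n l16926 (nat_lit 9936) (nat_lit 2) (nat_lit 6))
    (@En.n l42272 (nat_lit 9475) (nat_lit 6) (nat_lit 8))
    (@En.n l42273 (nat_lit 8801) (nat_lit 11) (nat_lit 11))
    (@En.n l7074 (nat_lit 9458) (nat_lit 11) (nat_lit 5))
    (@En.n l16927 (nat_lit 8771) (nat_lit 8) (nat_lit 8))
    (@En.n l649 (nat_lit 8408) (nat_lit 7) (nat_lit 9))
    (@En.n l1769 (nat_lit 9479) (nat_lit 2) (nat_lit 10))
    (@En.n l2129 (nat_lit 10059) (nat_lit 15) (nat_lit 4))))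
  (@Cl.mk (nat_lit 0x500080005000b0005000b000a0009000500080005000b0006000b0007000b) (nat_lit 0x405046304060902) (nat_lit 16) Lb.e (@T16.mk En
    (@En.i (nat_lit 9644) (nat_lit 8) (nat_lit 11))
    (@En.n l31326 (nat_lit 7571) (nat_lit 1) (nat_lit 7))
    (@En.n l42453 (nat_lit 10814) (nat_lit 2) (nat_lit 11))
    (@En.n l40623 (nat_lit 8388) (nat_lit 5) (nat_lit 6))
    (@En.n l27479 (nat_lit 8795) (nat_lit 13) (nat_lit 11))
    (@En.n l245 (nat_lit 9937) (nat_lit 7) (nat_lit 5))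
    (@En.n l829 (nat_lit 9796) (nat_lit 10) (nat_lit 8))
    (@En.n l17 (nat_lit 9452) (nat_lit 1) (nat_lit 5))
    (@En.n l43338 (nat_lit 8772) (nat_lit 7) (nat_lit 9))
    (@En.n l34514 (nat_lit 8435) (nat_lit 6) (nat_lit 10))
    (@En.n l42453 (nat_lit 9478) (nat_lit 2) (nat_lit 11))
    (@En.n l43339 (nat_lit 10070) (nat_lit 5) (nat_lit 5))
    (@En.n l43340 (nat_lit 9474) (nat_lit 0) (nat_lit 11))
    (@En.n l7 (nat_lit 8885) (nat_lit 1) (nat_lit 5))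
    (@En.n l43341 (nat_lit 2592) (nat_lit 10) (nat_lit 8))
    (@En.n l40028 (nat_lit 9476) (nat_lit 1) (nat_lit 5))))
  (@Cl.mk (nat_lit 0x4000b0008000b00090008000500080005000b00080007000c000800050008) (nat_lit 0x64723030750a302) (nat_lit 16) Lb.e (@T16.mk En
    (@En.n l3522 (nat_lit 3301) (nat_lit 10) (nat_lit 8))
    (@En.n l37959 (nat_lit 10653) (nat_lit 1) (nat_lit 5))
    (@En.i (nat_lit 5054) (nat_lit 0) (nat_lit 8))
    (@En.i (nat_lit 9875) (nat_lit 1) (nat_lit 12))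
    (@En.n l37960 (nat_lit 9643) (nat_lit 9) (nat_lit 7))
    (@En.n l35498 (nat_lit 9477) (nat_lit 5) (nat_lit 8))
    (@En.n l37961 (nat_lit 9480) (nat_lit 13) (nat_lit 11))
    (@En.n l37962 (nat_lit 9725) (nat_lit 7) (nat_lit 5))
    (@En.n l11792 (nat_lit 9482) (nat_lit 10) (nat_lit 8))
    (@En.n l1003 (nat_lit 9571) (nat_lit 9) (nat_lit 5))
    (@En.n l9877 (nat_lit 9689) (nat_lit 8) (nat_lit 8))
    (@En.n l9875 (nat_lit 8399) (nat_lit 1) (nat_lit 9))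
    (@En.i (nat_lit 9485) (nat_lit 7) (nat_lit 11))
    (@En.n l37962 (nat_lit 10565) (nat_lit 14) (nat_lit 8))
    (@En.n l22675 (nat_lit 8402) (nat_lit 13) (nat_lit 11))
    (@En.n l18 (nat_lit 9727) (nat_lit 15) (nat_lit 4))))
  (@Cl.mk (nat_lit 0x4000a00080005000b000a000900060009000500080006000c0007000b0007) (nat_lit 0x340834040408020) (nat_lit 16) Lb.e (@T16.mk En
    (@En.n l9876 (nat_lit 3302) (nat_lit 0) (nat_lit 7))
    (@En.n l17327 (nat_lit 10132) (nat_lit 8) (nat_lit 11))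
    (@En.n l34565 (nat_lit 3184) (nat_lit 5) (nat_lit 7))
    (@En.n l33877 (nat_lit 9809) (nat_lit 3) (nat_lit 12))
    (@En.n l34566 (nat_lit 8418) (nat_lit 4) (nat_lit 6))
    (@En.n l34567 (nat_lit 9318) (nat_lit 10) (nat_lit 8))
    (@En.n l22676 (nat_lit 9724) (nat_lit 6) (nat_lit 5))
    (@En.n l9876 (nat_lit 9483) (nat_lit 9) (nat_lit 9))
    (@En.n l18749 (nat_lit 9712) (nat_lit 1) (nat_lit 6))
    (@En.n l34568 (nat_lit 9687) (nat_lit 7) (nat_lit 9))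
    (@En.n l34569 (nat_lit 9684) (nat_lit 6) (nat_lit 10))
    (@En.n l34570 (nat_lit 9476) (nat_lit 12) (nat_lit 11))
    (@En.n l34571 (nat_lit 9475) (nat_lit 11) (nat_lit 5))
    (@En.n l17327 (nat_lit 10564) (nat_lit 8) (nat_lit 8))
    (@En.n l34572 (nat_lit 8409) (nat_lit 1) (nat_lit 10))
    (@En.n l18749 (nat_lit 9728) (nat_lit 15) (nat_lit 4))))
  (@Cl.mk (nat_lit 0x400070005000b000b0007000b00080005000500090005000c000b00090008) (nat_lit 0x7001400305343) (nat_lit 16) Lb.e (@T16.mk En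
    (@En.n l19306 (nat_lit 5394) (nat_lit 0) (nat_lit 8))
    (@En.n l9148 (nat_lit 9017) (nat_lit 1) (nat_lit 9))
    (@En.n l8045 (nat_lit 9269) (nat_lit 5) (nat_lit 11))
    (@En.n l19307 (nat_lit 9479) (nat_lit 3) (nat_lit 12))
    (@En.n l18 (nat_lit 9355) (nat_lit 4) (nat_lit 5))
    (@En.n l8047 (nat_lit 10557) (nat_lit 10) (nat_lit 9))
    (@En.n l77 (nat_lit 9485) (nat_lit 11) (nat_lit 5))
    (@En.n l19308 (nat_lit 8883) (nat_lit 7) (nat_lit 5))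
    (@En.n l601 (nat_lit 2527) (nat_lit 0) (nat_lit 8))
    (@En.i (nat_lit 8849) (nat_lit 8) (nat_lit 11))
    (@En.n l19309 (nat_lit 9477) (nat_lit 2) (nat_lit 7))
    (@En.n l19310 (nat_lit 9483) (nat_lit 5) (nat_lit 11))
    (@En.n l19311 (nat_lit 9805) (nat_lit 13) (nat_lit 11))
    (@En.n l2934 (nat_lit 8226) (nat_lit 11) (nat_lit 5))
    (@En.n l8052 (nat_lit 9317) (nat_lit 11) (nat_lit 7))
    (@En.n l8050 (nat_lit 9469) (nat_lit 15) (nat_lit 4))))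
  (@Cl.mk (nat_lit 0x4000a00070006000b000b000800060009000500050009000c000a00080007) (nat_lit 0x600034040034230) (nat_lit 16) Lb.e (@T16.mk En
    (@En.n l17436 (nat_lit 5391) (nat_lit 9) (nat_lit 7))
    (@En.i (nat_lit 9021) (nat_lit 1) (nat_lit 8))
    (@En.n l35107 (nat_lit 9255) (nat_lit 6) (nat_lit 10))
    (@En.i (nat_lit 9503) (nat_lit 6) (nat_lit 12))
    (@En.n l26224 (nat_lit 10556) (nat_lit 10) (nat_lit 9))
    (@En.n l35108 (nat_lit 9486) (nat_lit 11) (nat_lit 5))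
    (@En.n l35109 (nat_lit 8882) (nat_lit 6) (nat_lit 5))
    (@En.n l4554 (nat_lit 2934) (nat_lit 9) (nat_lit 9))
    (@En.n l35110 (nat_lit 6869) (nat_lit 1) (nat_lit 6))
    (@En.n l2824 (nat_lit 9476) (nat_lit 2) (nat_lit 8))
    (@En.n l5581 (nat_lit 9482) (nat_lit 5) (nat_lit 11))
    (@En.n l2824 (nat_lit 9876) (nat_lit 9) (nat_lit 11))
    (@En.n l35111 (nat_lit 9360) (nat_lit 10) (nat_lit 6))
    (@En.n l35112 (nat_lit 9478) (nat_lit 14) (nat_lit 7))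
    (@En.n l35113 (nat_lit 9481) (nat_lit 1) (nat_lit 10))
    (@En.n l7804 (nat_lit 9468) (nat_lit 15) (nat_lit 4))))
  (@Cl.mk (nat_lit 0x50008000b00070006000b00070005000b00080005000b00090005000a0009) (nat_lit 0x360090033074023) (nat_lit 16) Lb.e (@T16.mk En
    (@En.n l2579 (nat_lit 9691) (nat_lit 7) (nat_lit 9))
    (@En.n l9103 (nat_lit 8425) (nat_lit 1) (nat_lit 10))
    (@En.n l35407 (nat_lit 9805) (nat_lit 2) (nat_lit 5))
    (@En.n l35408 (nat_lit 10566) (nat_lit 7) (nat_lit 9))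
    (@En.n l35280 (nat_lit 9422) (nat_lit 1) (nat_lit 11))
    (@En.n l35409 (nat_lit 9938) (nat_lit 2) (nat_lit 5))
    (@En.n l35410 (nat_lit 9476) (nat_lit 0) (nat_lit 8))
    (@En.n l35411 (nat_lit 9477) (nat_lit 1) (nat_lit 11))
    (@En.n l5934 (nat_lit 10657) (nat_lit 11) (nat_lit 5))
    (@En.n l7882 (nat_lit 5052) (nat_lit 0) (nat_lit 7))
    (@En.n l35412 (nat_lit 9872) (nat_lit 9) (nat_lit 11))
    (@En.n l14973 (nat_lit 9648) (nat_lit 10) (nat_lit 6))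
    (@En.n l35413 (nat_lit 9319) (nat_lit 6) (nat_lit 7))
    (@En.i (nat_lit 12265) (nat_lit 7) (nat_lit 11))
    (@En.n l35414 (nat_lit 9484) (nat_lit 10) (nat_lit 8))
    (@En.n l35415 (nat_lit 9713) (nat_lit 15) (nat_lit 5))))
  (@Cl.mk (nat_lit 0x5000a000a00070006000b000900060006000a0005000b00090007000a0006) (nat_lit 0x25003073050) (nat_lit 16) Lb.e (@T16.mk En
    (@En.n l36027 (nat_lit 9316) (nat_lit 0) (nat_lit 6))
    (@En.n l36028 (nat_lit 12524) (nat_lit 8) (nat_lit 10))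
    (@En.n l19306 (nat_lit 5388) (nat_lit 9) (nat_lit 7))
    (@En.n l32162 (nat_lit 9024) (nat_lit 7) (nat_lit 9))
    (@En.n l36029 (nat_lit 9260) (nat_lit 3) (nat_lit 11))
    (@En.n l36030 (nat_lit 9641) (nat_lit 5) (nat_lit 5))
    (@En.n l32162 (nat_lit 8839) (nat_lit 9) (nat_lit 10))
    (@En.n l77 (nat_lit 9487) (nat_lit 10) (nat_lit 6))
    (@En.n l19308 (nat_lit 9739) (nat_lit 2) (nat_lit 6))
    (@En.n l24274 (nat_lit 9479) (nat_lit 7) (nat_lit 9))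
    (@En.i (nat_lit 9478) (nat_lit 9) (nat_lit 11))
    (@En.n l36031 (nat_lit 10012) (nat_lit 10) (nat_lit 6))
    (@En.n l36032 (nat_lit 9480) (nat_lit 9) (nat_lit 7))
    (@En.n l36033 (nat_lit 9484) (nat_lit 6) (nat_lit 10))
    (@En.n l36034 (nat_lit 9874) (nat_lit 10) (nat_lit 10))
    (@En.n l36035 (nat_lit 9359) (nat_lit 11) (nat_lit 5))))
  (@Cl.mk (nat_lit 0x20009000c000a000900080004000b00070006000b000700050008000e0005) (nat_lit 0x457420600200350) (nat_lit 16) Lb.e (@T16.mk En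
    (@En.n l4770 (nat_lit 9479) (nat_lit 6) (nat_lit 5))
    (@En.n l36036 (nat_lit 9288) (nat_lit 1) (nat_lit 14))
    (@En.n l28784 (nat_lit 2935) (nat_lit 10) (nat_lit 8))
    (@En.n l152 (nat_lit 6865) (nat_lit 3) (nat_lit 5))
    (@En.n l14639 (nat_lit 5056) (nat_lit 4) (nat_lit 7))
    (@En.n l4003 (nat_lit 9950) (nat_lit 6) (nat_lit 11))
    (@En.n l14639 (nat_lit 9659) (nat_lit 6) (nat_lit 6))
    (@En.n l34648 (nat_lit 9483) (nat_lit 7) (nat_lit 7))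
    (@En.i (nat_lit 9484) (nat_lit 9) (nat_lit 11))
    (@En.n l15535 (nat_lit 9467) (nat_lit 9) (nat_lit 4))
    (@En.n l4003 (nat_lit 5393) (nat_lit 11) (nat_lit 8))
    (@En.n l12876 (nat_lit 9022) (nat_lit 12) (nat_lit 9))
    (@En.i (nat_lit 9295) (nat_lit 13) (nat_lit 10))
    (@En.n l10976 (nat_lit 9502) (nat_lit 6) (nat_lit 12))
    (@En.n l3506 (nat_lit 10555) (nat_lit 4) (nat_lit 9))
    (@En.n l28 (nat_lit 9482) (nat_lit 15) (nat_lit 2))))
  (@Cl.mk (nat_lit 0x200090006000c000b000a0009000400070005000b0006000a0007000e0005) (nat_lit 0x406843000902050) (nat_lit 16) Lb.e (@T16.mk En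
    (@En.n l19517 (nat_lit 9478) (nat_lit 7) (nat_lit 5))
    (@En.n l34341 (nat_lit 9284) (nat_lit 1) (nat_lit 14))
    (@En.n l29976 (nat_lit 2524) (nat_lit 2) (nat_lit 7))
    (@En.n l16844 (nat_lit 8917) (nat_lit 3) (nat_lit 10))
    (@En.n l34342 (nat_lit 5149) (nat_lit 4) (nat_lit 6))
    (@En.n l34343 (nat_lit 9803) (nat_lit 6) (nat_lit 11))
    (@En.n l34344 (nat_lit 8995) (nat_lit 6) (nat_lit 5))
    (@En.n l21772 (nat_lit 9311) (nat_lit 7) (nat_lit 7))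
    (@En.i (nat_lit 9466) (nat_lit 8) (nat_lit 4))
    (@En.n l34343 (nat_lit 5399) (nat_lit 10) (nat_lit 9))
    (@En.n l4380 (nat_lit 9018) (nat_lit 11) (nat_lit 10))
    (@En.n l34345 (nat_lit 9267) (nat_lit 12) (nat_lit 11))
    (@En.n l34346 (nat_lit 9482) (nat_lit 13) (nat_lit 12))
    (@En.n l34342 (nat_lit 9796) (nat_lit 14) (nat_lit 6))
    (@En.n l8148 (nat_lit 10553) (nat_lit 5) (nat_lit 9))
    (@En.n l17 (nat_lit 9483) (nat_lit 15) (nat_lit 2))))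
  (@Cl.mk (nat_lit 0x2000a0006000b000a0008000b00060005000a00060005000a0008000e0006) (nat_lit 0x407425008003460) (nat_lit 16) Lb.e (@T16.mk En
    (@En.n l20199 (nat_lit 9481) (nat_lit 8) (nat_lit 6))
    (@En.n l20200 (nat_lit 11171) (nat_lit 1) (nat_lit 14))
    (@En.n l17 (nat_lit 9482) (nat_lit 2) (nat_lit 8))
    (@En.n l18219 (nat_lit 9483) (nat_lit 3) (nat_lit 10))
    (@En.n l20201 (nat_lit 10021) (nat_lit 4) (nat_lit 5))
    (@En.n l20202 (nat_lit 5055) (nat_lit 5) (nat_lit 6))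
    (@En.n l4003 (nat_lit 9877) (nat_lit 7) (nat_lit 10))
    (@En.n l20203 (nat_lit 9660) (nat_lit 7) (nat_lit 5))
    (@En.n l20204 (nat_lit 9312) (nat_lit 8) (nat_lit 6))
    (@En.n l20203 (nat_lit 12523) (nat_lit 10) (nat_lit 11))
    (@En.n l20205 (nat_lit 5392) (nat_lit 11) (nat_lit 8))
    (@En.n l20206 (nat_lit 9025) (nat_lit 12) (nat_lit 10))
    (@En.n l20202 (nat_lit 9296) (nat_lit 13) (nat_lit 11))
    (@En.n l20207 (nat_lit 9798) (nat_lit 14) (nat_lit 6))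
    (@En.n l20208 (nat_lit 8838) (nat_lit 0) (nat_lit 10))
    (@En.n l28 (nat_lit 9484) (nat_lit 15) (nat_lit 2))))
  (@Cl.mk (nat_lit 0x20008000c0009000500090004000c000b00080007000400070005000e000b) (nat_lit 0x345030464000048) (nat_lit 16) Lb.e (@T16.mk En
    (@En.i (nat_lit 9478) (nat_lit 12) (nat_lit 11))
    (@En.n l9875 (nat_lit 5242) (nat_lit 1) (nat_lit 14))
    (@En.n l2937 (nat_lit 8225) (nat_lit 2) (nat_lit 5))
    (@En.n l3517 (nat_lit 9502) (nat_lit 3) (nat_lit 7))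
    (@En.n l9876 (nat_lit 9562) (nat_lit 4) (nat_lit 4))
    (@En.n l9877 (nat_lit 5397) (nat_lit 5) (nat_lit 7))
    (@En.n l9878 (nat_lit 9527) (nat_lit 6) (nat_lit 8))
    (@En.n l9879 (nat_lit 9558) (nat_lit 8) (nat_lit 11))
    (@En.i (nat_lit 9486) (nat_lit 9) (nat_lit 12))
    (@En.n l18 (nat_lit 9354) (nat_lit 9) (nat_lit 4))
    (@En.n l3522 (nat_lit 3258) (nat_lit 11) (nat_lit 9))
    (@En.n l3523 (nat_lit 6845) (nat_lit 12) (nat_lit 5))
    (@En.i (nat_lit 3352) (nat_lit 13) (nat_lit 9))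
    (@En.i (nat_lit 8848) (nat_lit 14) (nat_lit 12))
    (@En.i (nat_lit 9423) (nat_lit 2) (nat_lit 8))
    (@En.n l7 (nat_lit 9485) (nat_lit 15) (nat_lit 2))))
  (@Cl.mk (nat_lit 0x200090007000a00050009000c000a000700060004000900070006000e000b) (nat_lit 0x505023800020051) (nat_lit 16) Lb.e (@T16.mk En
    (@En.n l19307 (nat_lit 9479) (nat_lit 11) (nat_lit 11))
    (@En.n l22675 (nat_lit 5262) (nat_lit 1) (nat_lit 14))
    (@En.n l18395 (nat_lit 9866) (nat_lit 2) (nat_lit 6))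
    (@En.n l14169 (nat_lit 9485) (nat_lit 3) (nat_lit 7))
    (@En.i (nat_lit 9487) (nat_lit 4) (nat_lit 9))
    (@En.n l22676 (nat_lit 9564) (nat_lit 5) (nat_lit 4))
    (@En.n l9877 (nat_lit 5390) (nat_lit 6) (nat_lit 6))
    (@En.n l22677 (nat_lit 9528) (nat_lit 7) (nat_lit 7))
    (@En.n l22122 (nat_lit 9252) (nat_lit 9) (nat_lit 10))
    (@En.n l22678 (nat_lit 9504) (nat_lit 6) (nat_lit 12))
    (@En.n l3521 (nat_lit 1320) (nat_lit 11) (nat_lit 9))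
    (@En.n l3523 (nat_lit 6847) (nat_lit 12) (nat_lit 5))
    (@En.n l7896 (nat_lit 3353) (nat_lit 8) (nat_lit 10))
    (@En.n l6992 (nat_lit 10613) (nat_lit 14) (nat_lit 7))
    (@En.n l18984 (nat_lit 9425) (nat_lit 2) (nat_lit 9))
    (@En.n l7 (nat_lit 9486) (nat_lit 15) (nat_lit 2))))
  (@Cl.mk (nat_lit 0x200080007000c000a0006000a0004000b00080006000900060005000e000a) (nat_lit 0x305602053010041) (nat_lit 16) Lb.e (@T16.mk En
    (@En.i (nat_lit 9481) (nat_lit 14) (nat_lit 10))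
    (@En.n l32896 (nat_lit 5261) (nat_lit 1) (nat_lit 14))
    (@En.n l32897 (nat_lit 9869) (nat_lit 2) (nat_lit 5))
    (@En.n l13195 (nat_lit 9503) (nat_lit 3) (nat_lit 6))
    (@En.n l32898 (nat_lit 8171) (nat_lit 4) (nat_lit 9))
    (@En.n l9877 (nat_lit 5389) (nat_lit 5) (nat_lit 6))
    (@En.n l32899 (nat_lit 9522) (nat_lit 6) (nat_lit 8))
    (@En.n l32900 (nat_lit 9253) (nat_lit 8) (nat_lit 11))
    (@En.n l32901 (nat_lit 9637) (nat_lit 8) (nat_lit 4))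
    (@En.n l32902 (nat_lit 1316) (nat_lit 10) (nat_lit 10))
    (@En.n l32903 (nat_lit 6852) (nat_lit 11) (nat_lit 6))
    (@En.n l19001 (nat_lit 9486) (nat_lit 12) (nat_lit 10))
    (@En.i (nat_lit 9485) (nat_lit 13) (nat_lit 12))
    (@En.n l6918 (nat_lit 10614) (nat_lit 14) (nat_lit 7))
    (@En.i (nat_lit 9424) (nat_lit 5) (nat_lit 8))
    (@En.n l7 (nat_lit 9487) (nat_lit 15) (nat_lit 2))))
noncomputable def a593 : T16 Cl := @T16.mk Cl
  (@Cl.mk (nat_lit 0x30006000c0005000b000b0004000b000900050005000a0005000d000b0007) (nat_lit 0x90810420040550) (nat_lit 16) Lb.e (@T16.mk En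
    (@En.n l15626 (nat_lit 1418) (nat_lit 0) (nat_lit 7))
    (@En.n l15627 (nat_lit 9459) (nat_lit 5) (nat_lit 11))
    (@En.n l15628 (nat_lit 9489) (nat_lit 2) (nat_lit 13))
    (@En.n l15629 (nat_lit 9492) (nat_lit 3) (nat_lit 5))
    (@En.n l15630 (nat_lit 7358) (nat_lit 4) (nat_lit 10))
    (@En.n l15631 (nat_lit 9499) (nat_lit 11) (nat_lit 5))
    (@En.i (nat_lit 8879) (nat_lit 6) (nat_lit 5))
    (@En.n l15632 (nat_lit 7608) (nat_lit 7) (nat_lit 9))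
    (@En.n l3786 (nat_lit 10229) (nat_lit 9) (nat_lit 11))
    (@En.n l15633 (nat_lit 8436) (nat_lit 9) (nat_lit 4))
    (@En.n l15634 (nat_lit 7467) (nat_lit 5) (nat_lit 11))
    (@En.n l15635 (nat_lit 8783) (nat_lit 12) (nat_lit 11))
    (@En.n l15636 (nat_lit 9478) (nat_lit 13) (nat_lit 5))
    (@En.n l15637 (nat_lit 9010) (nat_lit 14) (nat_lit 12))
    (@En.n l15638 (nat_lit 9305) (nat_lit 12) (nat_lit 6))
    (@En.n l15639 (nat_lit 9496) (nat_lit 15) (nat_lit 3))))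
  (@Cl.mk (nat_lit 0x300090006000c0006000b000b00040007000a00050005000a000d000a0006) (nat_lit 0x509081002004440) (nat_lit 16) Lb.e (@T16.mk En
    (@En.n l3531 (nat_lit 961) (nat_lit 0) (nat_lit 6))
    (@En.i (nat_lit 9458) (nat_lit 12) (nat_lit 10))
    (@En.i (nat_lit 6599) (nat_lit 5) (nat_lit 13))
    (@En.n l1897 (nat_lit 7359) (nat_lit 3) (nat_lit 10))
    (@En.n l7126 (nat_lit 9493) (nat_lit 11) (nat_lit 5))
    (@En.n l14649 (nat_lit 8881) (nat_lit 5) (nat_lit 5))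
    (@En.n l639 (nat_lit 7606) (nat_lit 8) (nat_lit 10))
    (@En.n l3531 (nat_lit 11226) (nat_lit 11) (nat_lit 7))
    (@En.n l1865 (nat_lit 8407) (nat_lit 8) (nat_lit 4))
    (@En.n l619 (nat_lit 7465) (nat_lit 5) (nat_lit 11))
    (@En.i (nat_lit 8781) (nat_lit 1) (nat_lit 11))
    (@En.n l1769 (nat_lit 9479) (nat_lit 12) (nat_lit 6))
    (@En.n l4817 (nat_lit 9492) (nat_lit 13) (nat_lit 12))
    (@En.n l6311 (nat_lit 9488) (nat_lit 14) (nat_lit 6))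
    (@En.i (nat_lit 9491) (nat_lit 5) (nat_lit 9))
    (@En.i (nat_lit 9490) (nat_lit 15) (nat_lit 3))))
  (@Cl.mk (nat_lit 0x300090006000c0005000b000b00040007000b00050005000a000d0005000b) (nat_lit 0x507068004004408) (nat_lit 16) Lb.e (@T16.mk En
    (@En.n l41461 (nat_lit 7475) (nat_lit 0) (nat_lit 11))
    (@En.n l644 (nat_lit 9491) (nat_lit 8) (nat_lit 5))
    (@En.i (nat_lit 6595) (nat_lit 5) (nat_lit 13))
    (@En.n l41462 (nat_lit 9536) (nat_lit 3) (nat_lit 10))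
    (@En.n l32114 (nat_lit 9497) (nat_lit 11) (nat_lit 5))
    (@En.n l12429 (nat_lit 9978) (nat_lit 5) (nat_lit 5))
    (@En.n l23534 (nat_lit 7639) (nat_lit 8) (nat_lit 11))
    (@En.n l33628 (nat_lit 11229) (nat_lit 11) (nat_lit 7))
    (@En.n l4530 (nat_lit 9070) (nat_lit 8) (nat_lit 4))
    (@En.n l41463 (nat_lit 7463) (nat_lit 5) (nat_lit 11))
    (@En.i (nat_lit 8785) (nat_lit 1) (nat_lit 11))
    (@En.n l34739 (nat_lit 9468) (nat_lit 12) (nat_lit 5))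
    (@En.n l18232 (nat_lit 9495) (nat_lit 13) (nat_lit 12))
    (@En.n l35245 (nat_lit 9496) (nat_lit 14) (nat_lit 6))
    (@En.n l41464 (nat_lit 10997) (nat_lit 5) (nat_lit 9))
    (@En.n l7 (nat_lit 9489) (nat_lit 15) (nat_lit 3))))
  (@Cl.mk (nat_lit 0x40007000b000a00060006000b0005000b000600090005000c0005000a000a) (nat_lit 0x53005040408071) (nat_lit 16) Lb.e (@T16.mk En
    (@En.n l619 (nat_lit 7468) (nat_lit 6) (nat_lit 10))
    (@En.i (nat_lit 8782) (nat_lit 1) (nat_lit 10))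
    (@En.n l37827 (nat_lit 9481) (nat_lit 15) (nat_lit 5))
    (@En.n l30384 (nat_lit 9494) (nat_lit 0) (nat_lit 12))
    (@En.n l37828 (nat_lit 9315) (nat_lit 1) (nat_lit 5))
    (@En.n l32111 (nat_lit 12515) (nat_lit 9) (nat_lit 9))
    (@En.n l37200 (nat_lit 955) (nat_lit 6) (nat_lit 6))
    (@En.n l30385 (nat_lit 9452) (nat_lit 2) (nat_lit 11))
    (@En.n l5 (nat_lit 11254) (nat_lit 8) (nat_lit 5))
    (@En.n l37829 (nat_lit 6866) (nat_lit 9) (nat_lit 11))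
    (@En.n l37830 (nat_lit 9500) (nat_lit 10) (nat_lit 6))
    (@En.n l37831 (nat_lit 8885) (nat_lit 2) (nat_lit 6))
    (@En.n l50 (nat_lit 9489) (nat_lit 6) (nat_lit 10))
    (@En.n l37831 (nat_lit 9488) (nat_lit 8) (nat_lit 11))
    (@En.n l37200 (nat_lit 11225) (nat_lit 11) (nat_lit 7))
    (@En.n l8364 (nat_lit 8390) (nat_lit 15) (nat_lit 4))))
  (@Cl.mk (nat_lit 0x30009000c0005000a000a0004000b0007000a000600060005000d000b0006) (nat_lit 0x480710303000a40) (nat_lit 16) Lb.e (@T16.mk En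
    (@En.n l1670 (nat_lit 954) (nat_lit 0) (nat_lit 6))
    (@En.n l24463 (nat_lit 9457) (nat_lit 5) (nat_lit 11))
    (@En.n l10976 (nat_lit 6593) (nat_lit 2) (nat_lit 13))
    (@En.n l24463 (nat_lit 9962) (nat_lit 11) (nat_lit 5))
    (@En.n l10978 (nat_lit 9498) (nat_lit 10) (nat_lit 6))
    (@En.n l24464 (nat_lit 8878) (nat_lit 5) (nat_lit 6))
    (@En.n l24465 (nat_lit 8585) (nat_lit 8) (nat_lit 10))
    (@En.n l1553 (nat_lit 9489) (nat_lit 7) (nat_lit 7))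
    (@En.n l2817 (nat_lit 6354) (nat_lit 9) (nat_lit 11))
    (@En.n l24466 (nat_lit 9068) (nat_lit 9) (nat_lit 4))
    (@En.n l3258 (nat_lit 7466) (nat_lit 6) (nat_lit 10))
    (@En.n l10977 (nat_lit 8777) (nat_lit 1) (nat_lit 10))
    (@En.n l24467 (nat_lit 9355) (nat_lit 13) (nat_lit 5))
    (@En.n l24468 (nat_lit 9006) (nat_lit 6) (nat_lit 12))
    (@En.n l24463 (nat_lit 9494) (nat_lit 1) (nat_lit 9))
    (@En.n l24469 (nat_lit 9495) (nat_lit 15) (nat_lit 3))))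
  (@Cl.mk (nat_lit 0x200050008000b0005000a000d000a0005000300080006000b0006000e000b) (nat_lit 0x52039300504069) (nat_lit 16) Lb.e (@T16.mk En
    (@En.n l4270 (nat_lit 9489) (nat_lit 10) (nat_lit 11))
    (@En.n l3213 (nat_lit 9528) (nat_lit 1) (nat_lit 14))
    (@En.n l20931 (nat_lit 9486) (nat_lit 2) (nat_lit 6))
    (@En.n l1409 (nat_lit 9498) (nat_lit 3) (nat_lit 11))
    (@En.n l7561 (nat_lit 9499) (nat_lit 4) (nat_lit 6))
    (@En.n l20932 (nat_lit 9500) (nat_lit 5) (nat_lit 8))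
    (@En.n l13260 (nat_lit 9497) (nat_lit 6) (nat_lit 3))
    (@En.n l3219 (nat_lit 1663) (nat_lit 7) (nat_lit 5))
    (@En.i (nat_lit 9608) (nat_lit 9) (nat_lit 10))
    (@En.n l8566 (nat_lit 5004) (nat_lit 10) (nat_lit 13))
    (@En.n l3213 (nat_lit 4268) (nat_lit 11) (nat_lit 10))
    (@En.n l20933 (nat_lit 8461) (nat_lit 12) (nat_lit 5))
    (@En.n l1357 (nat_lit 7609) (nat_lit 13) (nat_lit 11))
    (@En.i (nat_lit 11228) (nat_lit 10) (nat_lit 8))
    (@En.n l3486 (nat_lit 8378) (nat_lit 13) (nat_lit 5))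
    (@En.n l50 (nat_lit 9493) (nat_lit 15) (nat_lit 2))))
  (@Cl.mk (nat_lit 0x4000900090004000a0007000b000a0007000700060005000c00060009000c) (nat_lit 0x610305400005037) (nat_lit 16) Lb.e (@T16.mk En
    (@En.n l22328 (nat_lit 7158) (nat_lit 6) (nat_lit 12))
    (@En.n l22329 (nat_lit 12514) (nat_lit 9) (nat_lit 9))
    (@En.n l18669 (nat_lit 950) (nat_lit 5) (nat_lit 6))
    (@En.n l22330 (nat_lit 9453) (nat_lit 3) (nat_lit 12))
    (@En.n l22331 (nat_lit 11252) (nat_lit 11) (nat_lit 5))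
    (@En.i (nat_lit 10300) (nat_lit 10) (nat_lit 6))
    (@En.n l3532 (nat_lit 9524) (nat_lit 9) (nat_lit 7))
    (@En.n l22332 (nat_lit 8880) (nat_lit 7) (nat_lit 7))
    (@En.n l22333 (nat_lit 9492) (nat_lit 6) (nat_lit 10))
    (@En.i (nat_lit 9010) (nat_lit 8) (nat_lit 11))
    (@En.n l22334 (nat_lit 9491) (nat_lit 14) (nat_lit 7))
    (@En.n l19657 (nat_lit 6353) (nat_lit 12) (nat_lit 10))
    (@En.n l22335 (nat_lit 8391) (nat_lit 15) (nat_lit 4))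
    (@En.n l2717 (nat_lit 7469) (nat_lit 7) (nat_lit 9))
    (@En.n l17678 (nat_lit 8784) (nat_lit 1) (nat_lit 9))
    (@En.n l22336 (nat_lit 9356) (nat_lit 15) (nat_lit 4))))
  (@Cl.mk (nat_lit 0x30009000c0004000a000a0004000b0007000b000600060005000d0005000c) (nat_lit 0x460570305000907) (nat_lit 16) Lb.e (@T16.mk En
    (@En.n l7892 (nat_lit 5856) (nat_lit 0) (nat_lit 12))
    (@En.n l10969 (nat_lit 9494) (nat_lit 4) (nat_lit 5))
    (@En.n l32061 (nat_lit 6592) (nat_lit 2) (nat_lit 13))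
    (@En.i (nat_lit 9960) (nat_lit 3) (nat_lit 5))
    (@En.n l32067 (nat_lit 9501) (nat_lit 10) (nat_lit 6))
    (@En.n l39422 (nat_lit 8884) (nat_lit 5) (nat_lit 6))
    (@En.n l32044 (nat_lit 8493) (nat_lit 8) (nat_lit 11))
    (@En.n l39423 (nat_lit 9490) (nat_lit 7) (nat_lit 7))
    (@En.n l32070 (nat_lit 6355) (nat_lit 9) (nat_lit 11))
    (@En.n l32044 (nat_lit 9069) (nat_lit 9) (nat_lit 4))
    (@En.n l32047 (nat_lit 7462) (nat_lit 6) (nat_lit 10))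
    (@En.n l33390 (nat_lit 8786) (nat_lit 1) (nat_lit 10))
    (@En.n l35062 (nat_lit 9353) (nat_lit 13) (nat_lit 4))
    (@En.n l5255 (nat_lit 9004) (nat_lit 6) (nat_lit 12))
    (@En.i (nat_lit 8059) (nat_lit 1) (nat_lit 9))
    (@En.n l19656 (nat_lit 9492) (nat_lit 15) (nat_lit 3))))
  (@Cl.mk (nat_lit 0x30006000c0004000b000b0004000b000a00050005000a0005000d0006000c) (nat_lit 0x70870440040503) (nat_lit 16) Lb.e (@T16.mk En
    (@En.n l9972 (nat_lit 7476) (nat_lit 0) (nat_lit 12))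
    (@En.n l30280 (nat_lit 9315) (nat_lit 4) (nat_lit 6))
    (@En.n l30281 (nat_lit 9490) (nat_lit 2) (nat_lit 13))
    (@En.n l9968 (nat_lit 9495) (nat_lit 3) (nat_lit 5))
    (@En.n l30282 (nat_lit 9537) (nat_lit 4) (nat_lit 10))
    (@En.n l16957 (nat_lit 8077) (nat_lit 11) (nat_lit 5))
    (@En.n l9970 (nat_lit 9795) (nat_lit 6) (nat_lit 5))
    (@En.n l8015 (nat_lit 7638) (nat_lit 6) (nat_lit 10))
    (@En.n l30283 (nat_lit 10240) (nat_lit 9) (nat_lit 11))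
    (@En.n l16958 (nat_lit 9074) (nat_lit 9) (nat_lit 4))
    (@En.n l61 (nat_lit 7464) (nat_lit 5) (nat_lit 11))
    (@En.n l1075 (nat_lit 8787) (nat_lit 12) (nat_lit 11))
    (@En.n l19662 (nat_lit 9469) (nat_lit 13) (nat_lit 4))
    (@En.n l3056 (nat_lit 9009) (nat_lit 0) (nat_lit 12))
    (@En.i (nat_lit 5175) (nat_lit 12) (nat_lit 6))
    (@En.n l16955 (nat_lit 9488) (nat_lit 15) (nat_lit 3))))
  (@Cl.mk (nat_lit 0x200050008000c0005000a000d0004000b000300080006000b0005000e000b) (nat_lit 0x44038070508027) (nat_lit 16) Lb.e (@T16.mk En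
    (@En.n l30430 (nat_lit 9490) (nat_lit 10) (nat_lit 11))
    (@En.n l17 (nat_lit 9529) (nat_lit 1) (nat_lit 14))
    (@En.n l18910 (nat_lit 9564) (nat_lit 2) (nat_lit 5))
    (@En.n l18396 (nat_lit 9501) (nat_lit 3) (nat_lit 11))
    (@En.n l11856 (nat_lit 8077) (nat_lit 4) (nat_lit 6))
    (@En.n l30431 (nat_lit 8169) (nat_lit 5) (nat_lit 8))
    (@En.n l8769 (nat_lit 9493) (nat_lit 6) (nat_lit 3))
    (@En.n l30432 (nat_lit 7669) (nat_lit 8) (nat_lit 11))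
    (@En.n l20934 (nat_lit 9500) (nat_lit 8) (nat_lit 4))
    (@En.n l30433 (nat_lit 6969) (nat_lit 10) (nat_lit 13))
    (@En.n l30434 (nat_lit 4267) (nat_lit 11) (nat_lit 10))
    (@En.n l30432 (nat_lit 10357) (nat_lit 12) (nat_lit 5))
    (@En.n l30433 (nat_lit 7632) (nat_lit 13) (nat_lit 12))
    (@En.i (nat_lit 11230) (nat_lit 10) (nat_lit 8))
    (@En.n l30433 (nat_lit 8412) (nat_lit 13) (nat_lit 5))
    (@En.n l11 (nat_lit 9497) (nat_lit 15) (nat_lit 2))))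
  (@Cl.mk (nat_lit 0x20005000c0008000b00060004000d000b000500030008000b0005000e000a) (nat_lit 0x46300930053078) (nat_lit 16) Lb.e (@T16.mk En
    (@En.n l3965 (nat_lit 9492) (nat_lit 11) (nat_lit 10))
    (@En.n l1029 (nat_lit 9526) (nat_lit 1) (nat_lit 14))
    (@En.n l10936 (nat_lit 9354) (nat_lit 2) (nat_lit 5))
    (@En.n l10937 (nat_lit 9001) (nat_lit 3) (nat_lit 11))
    (@En.n l10938 (nat_lit 9524) (nat_lit 4) (nat_lit 8))
    (@En.n l7 (nat_lit 9501) (nat_lit 5) (nat_lit 3))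
    (@En.n l685 (nat_lit 1666) (nat_lit 6) (nat_lit 5))
    (@En.n l7544 (nat_lit 9607) (nat_lit 8) (nat_lit 11))
    (@En.n l3967 (nat_lit 5003) (nat_lit 9) (nat_lit 13))
    (@En.n l11 (nat_lit 7632) (nat_lit 9) (nat_lit 4))
    (@En.n l3623 (nat_lit 8460) (nat_lit 11) (nat_lit 6))
    (@En.i (nat_lit 8580) (nat_lit 12) (nat_lit 11))
    (@En.n l6389 (nat_lit 9493) (nat_lit 13) (nat_lit 8))
    (@En.n l10936 (nat_lit 6357) (nat_lit 14) (nat_lit 12))
    (@En.i (nat_lit 8379) (nat_lit 13) (nat_lit 5))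
    (@En.n l3 (nat_lit 9498) (nat_lit 15) (nat_lit 2))))
  (@Cl.mk (nat_lit 0x20005000c000a0005000a0004000d000b000600030006000b0005000e000b) (nat_lit 0x22030a40008059) (nat_lit 16) Lb.e (@T16.mk En
    (@En.n l9431 (nat_lit 9488) (nat_lit 11) (nat_lit 11))
    (@En.n l9432 (nat_lit 9527) (nat_lit 1) (nat_lit 14))
    (@En.n l5560 (nat_lit 9485) (nat_lit 2) (nat_lit 5))
    (@En.n l250 (nat_lit 8086) (nat_lit 3) (nat_lit 11))
    (@En.n l9433 (nat_lit 9531) (nat_lit 4) (nat_lit 6))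
    (@En.n l7 (nat_lit 8077) (nat_lit 5) (nat_lit 3))
    (@En.n l9434 (nat_lit 1662) (nat_lit 0) (nat_lit 6))
    (@En.n l9435 (nat_lit 9563) (nat_lit 8) (nat_lit 11))
    (@En.n l9436 (nat_lit 9493) (nat_lit 9) (nat_lit 13))
    (@En.i (nat_lit 9498) (nat_lit 9) (nat_lit 4))
    (@En.n l250 (nat_lit 4266) (nat_lit 11) (nat_lit 10))
    (@En.n l9431 (nat_lit 8459) (nat_lit 5) (nat_lit 5))
    (@En.i (nat_lit 7610) (nat_lit 13) (nat_lit 10))
    (@En.n l5560 (nat_lit 10239) (nat_lit 14) (nat_lit 12))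
    (@En.i (nat_lit 8373) (nat_lit 13) (nat_lit 5))
    (@En.n l3 (nat_lit 9499) (nat_lit 15) (nat_lit 2))))
  (@Cl.mk (nat_lit 0x200050008000c000b0006000b0004000b000500080005000b0005000e000a) (nat_lit 0x53304030407078) (nat_lit 16) Lb.e (@T16.mk En
    (@En.n l22355 (nat_lit 9491) (nat_lit 1) (nat_lit 10))
    (@En.n l15318 (nat_lit 9522) (nat_lit 1) (nat_lit 14))
    (@En.n l22356 (nat_lit 9487) (nat_lit 2) (nat_lit 5))
    (@En.n l22357 (nat_lit 9524) (nat_lit 3) (nat_lit 11))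
    (@En.n l22358 (nat_lit 9516) (nat_lit 4) (nat_lit 5))
    (@En.n l22359 (nat_lit 8161) (nat_lit 5) (nat_lit 8))
    (@En.i (nat_lit 427) (nat_lit 6) (nat_lit 5))
    (@En.n l15240 (nat_lit 9605) (nat_lit 8) (nat_lit 11))
    (@En.n l12479 (nat_lit 11257) (nat_lit 8) (nat_lit 4))
    (@En.n l22360 (nat_lit 4269) (nat_lit 10) (nat_lit 11))
    (@En.n l22361 (nat_lit 9543) (nat_lit 11) (nat_lit 6))
    (@En.n l22362 (nat_lit 9493) (nat_lit 12) (nat_lit 11))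
    (@En.n l22363 (nat_lit 9499) (nat_lit 13) (nat_lit 12))
    (@En.n l22364 (nat_lit 11227) (nat_lit 10) (nat_lit 8))
    (@En.n l22365 (nat_lit 8381) (nat_lit 13) (nat_lit 5))
    (@En.n l18 (nat_lit 9500) (nat_lit 15) (nat_lit 2))))
  (@Cl.mk (nat_lit 0x20005000c0008000c00060004000d0004000c00030008000b0004000e000a) (nat_lit 0x45400908047056) (nat_lit 16) Lb.e (@T16.mk En
    (@En.n l16710 (nat_lit 9495) (nat_lit 11) (nat_lit 10))
    (@En.i (nat_lit 9894) (nat_lit 1) (nat_lit 14))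
    (@En.n l24473 (nat_lit 9352) (nat_lit 2) (nat_lit 4))
    (@En.n l10937 (nat_lit 9000) (nat_lit 3) (nat_lit 11))
    (@En.n l10938 (nat_lit 8166) (nat_lit 4) (nat_lit 8))
    (@En.i (nat_lit 9498) (nat_lit 5) (nat_lit 3))
    (@En.n l2254 (nat_lit 7668) (nat_lit 7) (nat_lit 12))
    (@En.n l11 (nat_lit 9524) (nat_lit 7) (nat_lit 4))
    (@En.n l287 (nat_lit 6596) (nat_lit 9) (nat_lit 13))
    (@En.n l11 (nat_lit 7634) (nat_lit 9) (nat_lit 4))
    (@En.n l2254 (nat_lit 9666) (nat_lit 11) (nat_lit 6))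
    (@En.i (nat_lit 8338) (nat_lit 12) (nat_lit 12))
    (@En.n l12225 (nat_lit 9497) (nat_lit 13) (nat_lit 8))
    (@En.n l16713 (nat_lit 6358) (nat_lit 14) (nat_lit 12))
    (@En.i (nat_lit 8413) (nat_lit 13) (nat_lit 5))
    (@En.n l3 (nat_lit 9501) (nat_lit 15) (nat_lit 2))))
  (@Cl.mk (nat_lit 0x20007000b000800050009000e00050002000c0009000800070004000e000b) (nat_lit 0x1503b004520029) (nat_lit 16) Lb.e (@T16.mk En
    (@En.n l9931 (nat_lit 9317) (nat_lit 9) (nat_lit 11))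
    (@En.i (nat_lit 4834) (nat_lit 1) (nat_lit 14))
    (@En.i (nat_lit 9386) (nat_lit 2) (nat_lit 4))
    (@En.n l9967 (nat_lit 5118) (nat_lit 3) (nat_lit 7))
    (@En.n l1769 (nat_lit 6694) (nat_lit 13) (nat_lit 8))
    (@En.i (nat_lit 9530) (nat_lit 5) (nat_lit 9))
    (@En.n l5377 (nat_lit 9507) (nat_lit 7) (nat_lit 12))
    (@En.n l11 (nat_lit 9502) (nat_lit 7) (nat_lit 2))
    (@En.n l1992 (nat_lit 9503) (nat_lit 8) (nat_lit 5))
    (@En.n l9871 (nat_lit 8646) (nat_lit 10) (nat_lit 14))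
    (@En.n l2568 (nat_lit 2950) (nat_lit 11) (nat_lit 9))
    (@En.n l2125 (nat_lit 7297) (nat_lit 3) (nat_lit 5))
    (@En.n l2576 (nat_lit 3351) (nat_lit 13) (nat_lit 8))
    (@En.n l9967 (nat_lit 9144) (nat_lit 14) (nat_lit 11))
    (@En.n l9182 (nat_lit 9419) (nat_lit 6) (nat_lit 7))
    (@En.n l18 (nat_lit 9502) (nat_lit 15) (nat_lit 2))))
  (@Cl.mk (nat_lit 0x20007000b000b00090006000a00050005000c0009000700060004000e000a) (nat_lit 0x42604003400028) (nat_lit 16) Lb.e (@T16.mk En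
    (@En.n l5 (nat_lit 9316) (nat_lit 14) (nat_lit 10))
    (@En.i (nat_lit 4836) (nat_lit 1) (nat_lit 14))
    (@En.n l29743 (nat_lit 9388) (nat_lit 2) (nat_lit 4))
    (@En.n l17436 (nat_lit 5116) (nat_lit 3) (nat_lit 6))
    (@En.i (nat_lit 6690) (nat_lit 4) (nat_lit 7))
    (@En.n l29744 (nat_lit 9517) (nat_lit 5) (nat_lit 9))
    (@En.n l29743 (nat_lit 9509) (nat_lit 7) (nat_lit 12))
    (@En.n l11 (nat_lit 9504) (nat_lit 7) (nat_lit 5))
    (@En.n l6891 (nat_lit 9357) (nat_lit 8) (nat_lit 5))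
    (@En.n l29745 (nat_lit 1212) (nat_lit 10) (nat_lit 10))
    (@En.n l1097 (nat_lit 7299) (nat_lit 11) (nat_lit 6))
    (@En.n l2824 (nat_lit 9485) (nat_lit 12) (nat_lit 9))
    (@En.n l2691 (nat_lit 9502) (nat_lit 13) (nat_lit 11))
    (@En.n l2824 (nat_lit 9340) (nat_lit 14) (nat_lit 11))
    (@En.n l14253 (nat_lit 9421) (nat_lit 13) (nat_lit 7))
    (@En.n l18 (nat_lit 9503) (nat_lit 15) (nat_lit 2))))
noncomputable def a594 : T16 Cl := @T16.mk Cl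
  (@Cl.mk (nat_lit 0x20007000e000b0002000a0007000b0005000c0009000600050004000e0009) (nat_lit 0x45070502300027) (nat_lit 16) Lb.e (@T16.mk En
    (@En.n l13031 (nat_lit 9505) (nat_lit 4) (nat_lit 9))
    (@En.n l17236 (nat_lit 5222) (nat_lit 1) (nat_lit 14))
    (@En.n l17237 (nat_lit 11519) (nat_lit 2) (nat_lit 4))
    (@En.n l2317 (nat_lit 6631) (nat_lit 3) (nat_lit 5))
    (@En.i (nat_lit 5007) (nat_lit 8) (nat_lit 6))
    (@En.n l17238 (nat_lit 9518) (nat_lit 5) (nat_lit 9))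
    (@En.n l17239 (nat_lit 8279) (nat_lit 7) (nat_lit 12))
    (@En.n l17240 (nat_lit 9636) (nat_lit 7) (nat_lit 5))
    (@En.n l638 (nat_lit 3009) (nat_lit 9) (nat_lit 11))
    (@En.n l1097 (nat_lit 10608) (nat_lit 14) (nat_lit 7))
    (@En.n l17241 (nat_lit 9487) (nat_lit 11) (nat_lit 10))
    (@En.n l67 (nat_lit 9504) (nat_lit 11) (nat_lit 2))
    (@En.n l68 (nat_lit 9503) (nat_lit 13) (nat_lit 11))
    (@En.n l2315 (nat_lit 9347) (nat_lit 1) (nat_lit 14))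
    (@En.n l17242 (nat_lit 9506) (nat_lit 2) (nat_lit 7))
    (@En.n l18 (nat_lit 9504) (nat_lit 15) (nat_lit 2))))
  (@Cl.mk (nat_lit 0x2000900070007000b0006000c000a000700050004000900090006000e000a) (nat_lit 0x600602300060034) (nat_lit 16) Lb.e (@T16.mk En
    (@En.n l20189 (nat_lit 9316) (nat_lit 11) (nat_lit 10))
    (@En.n l20190 (nat_lit 10115) (nat_lit 1) (nat_lit 14))
    (@En.n l20191 (nat_lit 9508) (nat_lit 2) (nat_lit 6))
    (@En.n l20192 (nat_lit 9514) (nat_lit 3) (nat_lit 9))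
    (@En.n l20193 (nat_lit 9637) (nat_lit 4) (nat_lit 9))
    (@En.n l20194 (nat_lit 11520) (nat_lit 5) (nat_lit 4))
    (@En.n l20195 (nat_lit 5115) (nat_lit 6) (nat_lit 5))
    (@En.n l7797 (nat_lit 5006) (nat_lit 7) (nat_lit 7))
    (@En.i (nat_lit 9520) (nat_lit 9) (nat_lit 10))
    (@En.n l20196 (nat_lit 8272) (nat_lit 10) (nat_lit 12))
    (@En.n l20197 (nat_lit 9640) (nat_lit 11) (nat_lit 6))
    (@En.i (nat_lit 9831) (nat_lit 12) (nat_lit 11))
    (@En.n l15864 (nat_lit 9504) (nat_lit 9) (nat_lit 7))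
    (@En.n l20194 (nat_lit 9566) (nat_lit 14) (nat_lit 7))
    (@En.n l20198 (nat_lit 9481) (nat_lit 9) (nat_lit 9))
    (@En.n l7 (nat_lit 9505) (nat_lit 15) (nat_lit 2))))
  (@Cl.mk (nat_lit 0x200090006000a0005000b0009000c0007000600050004000a0007000e000b) (nat_lit 0x605073200007031) (nat_lit 16) Lb.e (@T16.mk En
    (@En.n l32904 (nat_lit 9421) (nat_lit 12) (nat_lit 11))
    (@En.n l32905 (nat_lit 11036) (nat_lit 1) (nat_lit 14))
    (@En.n l2720 (nat_lit 9507) (nat_lit 2) (nat_lit 7))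
    (@En.n l32906 (nat_lit 9508) (nat_lit 3) (nat_lit 10))
    (@En.n l32907 (nat_lit 9867) (nat_lit 4) (nat_lit 4))
    (@En.n l17432 (nat_lit 11522) (nat_lit 5) (nat_lit 5))
    (@En.n l7820 (nat_lit 6740) (nat_lit 6) (nat_lit 6))
    (@En.n l20223 (nat_lit 9505) (nat_lit 7) (nat_lit 7))
    (@En.n l2016 (nat_lit 8288) (nat_lit 9) (nat_lit 12))
    (@En.n l20223 (nat_lit 9521) (nat_lit 10) (nat_lit 9))
    (@En.n l32906 (nat_lit 8519) (nat_lit 11) (nat_lit 11))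
    (@En.n l32908 (nat_lit 9878) (nat_lit 12) (nat_lit 5))
    (@En.n l20223 (nat_lit 2553) (nat_lit 13) (nat_lit 10))
    (@En.n l17432 (nat_lit 10609) (nat_lit 14) (nat_lit 6))
    (@En.n l32909 (nat_lit 9424) (nat_lit 2) (nat_lit 9))
    (@En.n l7 (nat_lit 9506) (nat_lit 15) (nat_lit 2))))
  (@Cl.mk (nat_lit 0x20008000b00090005000a00090005000c00080007000600040007000e000b) (nat_lit 0x445074034000028) (nat_lit 16) Lb.e (@T16.mk En
    (@En.n l19841 (nat_lit 9420) (nat_lit 13) (nat_lit 11))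
    (@En.n l420 (nat_lit 11593) (nat_lit 1) (nat_lit 14))
    (@En.n l7840 (nat_lit 5050) (nat_lit 2) (nat_lit 7))
    (@En.n l1236 (nat_lit 9385) (nat_lit 3) (nat_lit 4))
    (@En.n l33140 (nat_lit 9438) (nat_lit 4) (nat_lit 6))
    (@En.i (nat_lit 6773) (nat_lit 5) (nat_lit 7))
    (@En.n l17439 (nat_lit 9508) (nat_lit 6) (nat_lit 8))
    (@En.n l18824 (nat_lit 9506) (nat_lit 8) (nat_lit 12))
    (@En.n l33141 (nat_lit 9509) (nat_lit 8) (nat_lit 5))
    (@En.i (nat_lit 9561) (nat_lit 10) (nat_lit 9))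
    (@En.n l33142 (nat_lit 8517) (nat_lit 11) (nat_lit 10))
    (@En.n l12290 (nat_lit 9879) (nat_lit 12) (nat_lit 5))
    (@En.n l68 (nat_lit 2802) (nat_lit 13) (nat_lit 9))
    (@En.n l3866 (nat_lit 9152) (nat_lit 7) (nat_lit 11))
    (@En.n l33143 (nat_lit 9422) (nat_lit 2) (nat_lit 8))
    (@En.n l18 (nat_lit 9507) (nat_lit 15) (nat_lit 2))))
  (@Cl.mk (nat_lit 0x200080006000b000a0006000b000a0005000800060005000a0006000e000a) (nat_lit 0x405608503006024) (nat_lit 16) Lb.e (@T16.mk En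
    (@En.n l19595 (nat_lit 9319) (nat_lit 2) (nat_lit 10))
    (@En.n l19606 (nat_lit 11594) (nat_lit 1) (nat_lit 14))
    (@En.n l9823 (nat_lit 4962) (nat_lit 2) (nat_lit 6))
    (@En.n l19607 (nat_lit 9870) (nat_lit 3) (nat_lit 10))
    (@En.n l19608 (nat_lit 11523) (nat_lit 4) (nat_lit 5))
    (@En.n l4542 (nat_lit 6954) (nat_lit 5) (nat_lit 6))
    (@En.n l19599 (nat_lit 9514) (nat_lit 6) (nat_lit 8))
    (@En.n l936 (nat_lit 9510) (nat_lit 7) (nat_lit 5))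
    (@En.n l9274 (nat_lit 9560) (nat_lit 9) (nat_lit 10))
    (@En.i (nat_lit 8516) (nat_lit 10) (nat_lit 11))
    (@En.n l19605 (nat_lit 9804) (nat_lit 11) (nat_lit 6))
    (@En.n l19609 (nat_lit 9415) (nat_lit 12) (nat_lit 10))
    (@En.n l4542 (nat_lit 9507) (nat_lit 13) (nat_lit 11))
    (@En.n l7003 (nat_lit 9565) (nat_lit 14) (nat_lit 6))
    (@En.n l16718 (nat_lit 9480) (nat_lit 6) (nat_lit 8))
    (@En.n l50 (nat_lit 9508) (nat_lit 15) (nat_lit 2))))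
  (@Cl.mk (nat_lit 0x20008000b0006000a0006000b0005000c0008000600050004000a000e000a) (nat_lit 0x470605023000721) (nat_lit 16) Lb.e (@T16.mk En
    (@En.n l68 (nat_lit 9429) (nat_lit 13) (nat_lit 10))
    (@En.n l35588 (nat_lit 10908) (nat_lit 1) (nat_lit 14))
    (@En.n l763 (nat_lit 9511) (nat_lit 2) (nat_lit 10))
    (@En.i (nat_lit 9081) (nat_lit 3) (nat_lit 4))
    (@En.n l35589 (nat_lit 11526) (nat_lit 4) (nat_lit 5))
    (@En.n l33466 (nat_lit 6829) (nat_lit 5) (nat_lit 6))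
    (@En.n l35590 (nat_lit 9510) (nat_lit 6) (nat_lit 8))
    (@En.n l35591 (nat_lit 8278) (nat_lit 8) (nat_lit 12))
    (@En.n l16313 (nat_lit 9263) (nat_lit 8) (nat_lit 5))
    (@En.n l8450 (nat_lit 8518) (nat_lit 10) (nat_lit 11))
    (@En.n l25292 (nat_lit 9952) (nat_lit 11) (nat_lit 6))
    (@En.n l33466 (nat_lit 9558) (nat_lit 12) (nat_lit 10))
    (@En.n l22149 (nat_lit 9506) (nat_lit 13) (nat_lit 6))
    (@En.i (nat_lit 8713) (nat_lit 7) (nat_lit 11))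
    (@En.n l28159 (nat_lit 9426) (nat_lit 1) (nat_lit 8))
    (@En.n l67 (nat_lit 9509) (nat_lit 15) (nat_lit 2))))
  (@Cl.mk (nat_lit 0x200080006000b0007000b0007000c0005000800050004000a0009000e0009) (nat_lit 0x408050502008621) (nat_lit 16) Lb.e (@T16.mk En
    (@En.n l34657 (nat_lit 9455) (nat_lit 12) (nat_lit 9))
    (@En.n l2830 (nat_lit 10907) (nat_lit 1) (nat_lit 14))
    (@En.n l34658 (nat_lit 9513) (nat_lit 2) (nat_lit 9))
    (@En.n l7867 (nat_lit 9891) (nat_lit 3) (nat_lit 10))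
    (@En.n l6997 (nat_lit 11527) (nat_lit 4) (nat_lit 4))
    (@En.n l27225 (nat_lit 5288) (nat_lit 5) (nat_lit 5))
    (@En.n l34658 (nat_lit 5907) (nat_lit 10) (nat_lit 8))
    (@En.n l34659 (nat_lit 8827) (nat_lit 7) (nat_lit 5))
    (@En.i (nat_lit 8515) (nat_lit 9) (nat_lit 12))
    (@En.n l34660 (nat_lit 9954) (nat_lit 10) (nat_lit 7))
    (@En.i (nat_lit 9559) (nat_lit 11) (nat_lit 11))
    (@En.n l34661 (nat_lit 9505) (nat_lit 12) (nat_lit 7))
    (@En.n l31894 (nat_lit 9509) (nat_lit 13) (nat_lit 11))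
    (@En.n l6997 (nat_lit 9567) (nat_lit 14) (nat_lit 6))
    (@En.n l34662 (nat_lit 9713) (nat_lit 6) (nat_lit 8))
    (@En.n l50 (nat_lit 9510) (nat_lit 15) (nat_lit 2))))
  (@Cl.mk (nat_lit 0x20007000a0006000b000a0007000b00060005000900060005000a000e0009) (nat_lit 0x20350200300610) (nat_lit 16) Lb.e (@T16.mk En
    (@En.n l68 (nat_lit 9515) (nat_lit 3) (nat_lit 9))
    (@En.n l28960 (nat_lit 2884) (nat_lit 1) (nat_lit 14))
    (@En.n l28961 (nat_lit 9610) (nat_lit 2) (nat_lit 10))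
    (@En.n l16498 (nat_lit 12135) (nat_lit 3) (nat_lit 5))
    (@En.n l23455 (nat_lit 6837) (nat_lit 4) (nat_lit 6))
    (@En.n l21381 (nat_lit 9513) (nat_lit 5) (nat_lit 9))
    (@En.n l28960 (nat_lit 9512) (nat_lit 6) (nat_lit 5))
    (@En.n l28962 (nat_lit 10090) (nat_lit 7) (nat_lit 6))
    (@En.n l28963 (nat_lit 6101) (nat_lit 9) (nat_lit 11))
    (@En.n l28964 (nat_lit 10596) (nat_lit 10) (nat_lit 7))
    (@En.i (nat_lit 9853) (nat_lit 11) (nat_lit 10))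
    (@En.n l23455 (nat_lit 9503) (nat_lit 12) (nat_lit 11))
    (@En.n l28965 (nat_lit 9508) (nat_lit 13) (nat_lit 6))
    (@En.i (nat_lit 7173) (nat_lit 8) (nat_lit 10))
    (@En.n l28966 (nat_lit 10078) (nat_lit 13) (nat_lit 7))
    (@En.n l67 (nat_lit 9511) (nat_lit 15) (nat_lit 2))))
  (@Cl.mk (nat_lit 0x20007000d0006000b0003000b0008000c0005000900050004000a000e0008) (nat_lit 0xa0606620200511) (nat_lit 16) Lb.e (@T16.mk En
    (@En.n l38369 (nat_lit 9375) (nat_lit 5) (nat_lit 8))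
    (@En.i (nat_lit 2883) (nat_lit 1) (nat_lit 14))
    (@En.n l899 (nat_lit 11515) (nat_lit 2) (nat_lit 10))
    (@En.n l5388 (nat_lit 12136) (nat_lit 3) (nat_lit 4))
    (@En.n l3851 (nat_lit 5426) (nat_lit 4) (nat_lit 5))
    (@En.n l617 (nat_lit 6258) (nat_lit 5) (nat_lit 9))
    (@En.n l2125 (nat_lit 9632) (nat_lit 6) (nat_lit 5))
    (@En.n l3851 (nat_lit 6100) (nat_lit 8) (nat_lit 12))
    (@En.n l3536 (nat_lit 10601) (nat_lit 14) (nat_lit 8))
    (@En.n l25494 (nat_lit 9568) (nat_lit 10) (nat_lit 11))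
    (@En.n l20665 (nat_lit 9513) (nat_lit 10) (nat_lit 3))
    (@En.n l22098 (nat_lit 9504) (nat_lit 12) (nat_lit 11))
    (@En.n l25494 (nat_lit 9510) (nat_lit 13) (nat_lit 6))
    (@En.n l20998 (nat_lit 12630) (nat_lit 14) (nat_lit 13))
    (@En.n l3100 (nat_lit 10082) (nat_lit 3) (nat_lit 7))
    (@En.n l28 (nat_lit 9512) (nat_lit 15) (nat_lit 2))))
  (@Cl.mk (nat_lit 0x20007000d000a00070003000b0008000c00060009000500040009000e0008) (nat_lit 0xa3006020200510) (nat_lit 16) Lb.e (@T16.mk En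
    (@En.n l15682 (nat_lit 10048) (nat_lit 5) (nat_lit 8))
    (@En.n l9226 (nat_lit 2881) (nat_lit 1) (nat_lit 14))
    (@En.n l564 (nat_lit 9612) (nat_lit 2) (nat_lit 9))
    (@En.n l22775 (nat_lit 12137) (nat_lit 3) (nat_lit 4))
    (@En.n l4696 (nat_lit 5424) (nat_lit 4) (nat_lit 5))
    (@En.i (nat_lit 6260) (nat_lit 5) (nat_lit 9))
    (@En.n l19017 (nat_lit 10091) (nat_lit 6) (nat_lit 6))
    (@En.n l7690 (nat_lit 6001) (nat_lit 8) (nat_lit 12))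
    (@En.n l13068 (nat_lit 10598) (nat_lit 14) (nat_lit 8))
    (@En.n l22776 (nat_lit 9854) (nat_lit 10) (nat_lit 11))
    (@En.n l12145 (nat_lit 9512) (nat_lit 10) (nat_lit 3))
    (@En.n l12146 (nat_lit 9514) (nat_lit 12) (nat_lit 7))
    (@En.n l22777 (nat_lit 9511) (nat_lit 13) (nat_lit 10))
    (@En.n l10541 (nat_lit 12633) (nat_lit 14) (nat_lit 13))
    (@En.n l22778 (nat_lit 10080) (nat_lit 3) (nat_lit 7))
    (@En.n l18 (nat_lit 9513) (nat_lit 15) (nat_lit 2))))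
  (@Cl.mk (nat_lit 0x20008000e00070002000b0007000c000b00080005000400090005000e0009) (nat_lit 0x5b0070152007021) (nat_lit 16) Lb.e (@T16.mk En
    (@En.n l8523 (nat_lit 9312) (nat_lit 4) (nat_lit 9))
    (@En.n l8524 (nat_lit 10787) (nat_lit 1) (nat_lit 14))
    (@En.n l8525 (nat_lit 4963) (nat_lit 2) (nat_lit 5))
    (@En.n l117 (nat_lit 9638) (nat_lit 3) (nat_lit 9))
    (@En.n l8526 (nat_lit 6724) (nat_lit 4) (nat_lit 4))
    (@En.n l4524 (nat_lit 5344) (nat_lit 9) (nat_lit 5))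
    (@En.n l4896 (nat_lit 6716) (nat_lit 6) (nat_lit 8))
    (@En.n l8527 (nat_lit 11015) (nat_lit 8) (nat_lit 11))
    (@En.n l8525 (nat_lit 4628) (nat_lit 9) (nat_lit 12))
    (@En.i (nat_lit 9799) (nat_lit 14) (nat_lit 7))
    (@En.n l8528 (nat_lit 9830) (nat_lit 11) (nat_lit 11))
    (@En.n l3 (nat_lit 9514) (nat_lit 11) (nat_lit 2))
    (@En.n l8529 (nat_lit 9505) (nat_lit 13) (nat_lit 7))
    (@En.n l8184 (nat_lit 11062) (nat_lit 1) (nat_lit 14))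
    (@En.n l8530 (nat_lit 9484) (nat_lit 2) (nat_lit 8))
    (@En.n l18 (nat_lit 9514) (nat_lit 15) (nat_lit 2))))
  (@Cl.mk (nat_lit 0x5000a000900070007000b00070006000a00070005000b0009000900060009) (nat_lit 0x360030030067006) (nat_lit 16) Lb.e (@T16.mk En
    (@En.i (nat_lit 7706) (nat_lit 9) (nat_lit 9))
    (@En.n l30408 (nat_lit 10076) (nat_lit 1) (nat_lit 6))
    (@En.n l11363 (nat_lit 10049) (nat_lit 7) (nat_lit 9))
    (@En.n l41492 (nat_lit 10512) (nat_lit 7) (nat_lit 9))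
    (@En.n l30408 (nat_lit 9916) (nat_lit 2) (nat_lit 11))
    (@En.n l39791 (nat_lit 6271) (nat_lit 11) (nat_lit 5))
    (@En.n l35065 (nat_lit 6831) (nat_lit 0) (nat_lit 7))
    (@En.n l35169 (nat_lit 10048) (nat_lit 9) (nat_lit 10))
    (@En.n l35368 (nat_lit 9375) (nat_lit 10) (nat_lit 6))
    (@En.n l3107 (nat_lit 10042) (nat_lit 0) (nat_lit 7))
    (@En.n l35368 (nat_lit 10063) (nat_lit 8) (nat_lit 11))
    (@En.n l11 (nat_lit 9511) (nat_lit 9) (nat_lit 7))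
    (@En.n l41493 (nat_lit 10594) (nat_lit 9) (nat_lit 7))
    (@En.i (nat_lit 9623) (nat_lit 7) (nat_lit 9))
    (@En.n l35065 (nat_lit 9316) (nat_lit 10) (nat_lit 10))
    (@En.n l19909 (nat_lit 9319) (nat_lit 15) (nat_lit 5))))
  (@Cl.mk (nat_lit 0x20005000b000b000a0006000b00050005000c00060005000b0004000e000a) (nat_lit 0x49304005007035) (nat_lit 16) Lb.e (@T16.mk En
    (@En.n l15113 (nat_lit 9315) (nat_lit 14) (nat_lit 10))
    (@En.n l15114 (nat_lit 9517) (nat_lit 1) (nat_lit 14))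
    (@En.n l15115 (nat_lit 9503) (nat_lit 2) (nat_lit 4))
    (@En.n l15116 (nat_lit 7153) (nat_lit 3) (nat_lit 11))
    (@En.n l4421 (nat_lit 5112) (nat_lit 4) (nat_lit 5))
    (@En.n l15115 (nat_lit 1410) (nat_lit 5) (nat_lit 6))
    (@En.n l4421 (nat_lit 9567) (nat_lit 7) (nat_lit 12))
    (@En.n l15117 (nat_lit 9519) (nat_lit 7) (nat_lit 5))
    (@En.n l11 (nat_lit 9524) (nat_lit 8) (nat_lit 5))
    (@En.n l15116 (nat_lit 1155) (nat_lit 10) (nat_lit 11))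
    (@En.n l15118 (nat_lit 7358) (nat_lit 11) (nat_lit 6))
    (@En.n l77 (nat_lit 9499) (nat_lit 12) (nat_lit 10))
    (@En.n l15119 (nat_lit 9531) (nat_lit 13) (nat_lit 11))
    (@En.n l2039 (nat_lit 9345) (nat_lit 14) (nat_lit 11))
    (@En.i (nat_lit 6897) (nat_lit 13) (nat_lit 5))
    (@En.n l3 (nat_lit 9516) (nat_lit 15) (nat_lit 2))))
  (@Cl.mk (nat_lit 0x200070005000b000b000a0007000b00050005000900060005000b000e0009) (nat_lit 0x5350400300624) (nat_lit 16) Lb.e (@T16.mk En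
    (@En.n l152 (nat_lit 9313) (nat_lit 2) (nat_lit 9))
    (@En.n l13491 (nat_lit 4830) (nat_lit 4) (nat_lit 14))
    (@En.n l28752 (nat_lit 7154) (nat_lit 2) (nat_lit 11))
    (@En.n l28753 (nat_lit 6619) (nat_lit 3) (nat_lit 5))
    (@En.n l28754 (nat_lit 421) (nat_lit 4) (nat_lit 6))
    (@En.n l28755 (nat_lit 9512) (nat_lit 5) (nat_lit 9))
    (@En.n l77 (nat_lit 9518) (nat_lit 6) (nat_lit 5))
    (@En.n l28756 (nat_lit 9523) (nat_lit 7) (nat_lit 5))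
    (@En.i (nat_lit 1151) (nat_lit 9) (nat_lit 11))
    (@En.n l28757 (nat_lit 7359) (nat_lit 10) (nat_lit 7))
    (@En.n l28758 (nat_lit 9527) (nat_lit 11) (nat_lit 10))
    (@En.n l28759 (nat_lit 9530) (nat_lit 12) (nat_lit 11))
    (@En.n l20389 (nat_lit 9343) (nat_lit 13) (nat_lit 11))
    (@En.n l28760 (nat_lit 9516) (nat_lit 14) (nat_lit 5))
    (@En.n l20390 (nat_lit 9275) (nat_lit 13) (nat_lit 7))
    (@En.n l3 (nat_lit 9517) (nat_lit 15) (nat_lit 2))))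
  (@Cl.mk (nat_lit 0x200070005000e000b0002000b0008000c0005000900050004000b000e0008) (nat_lit 0xb606150200556) (nat_lit 16) Lb.e (@T16.mk En
    (@En.n l152 (nat_lit 9520) (nat_lit 5) (nat_lit 8))
    (@En.n l13491 (nat_lit 5219) (nat_lit 7) (nat_lit 14))
    (@En.n l14450 (nat_lit 7152) (nat_lit 2) (nat_lit 11))
    (@En.n l17517 (nat_lit 6630) (nat_lit 3) (nat_lit 4))
    (@En.n l14597 (nat_lit 1286) (nat_lit 4) (nat_lit 5))
    (@En.n l13491 (nat_lit 6257) (nat_lit 5) (nat_lit 9))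
    (@En.n l14450 (nat_lit 9525) (nat_lit 6) (nat_lit 5))
    (@En.i (nat_lit 1148) (nat_lit 8) (nat_lit 12))
    (@En.n l32374 (nat_lit 7355) (nat_lit 14) (nat_lit 8))
    (@En.n l1867 (nat_lit 9522) (nat_lit 10) (nat_lit 11))
    (@En.n l7 (nat_lit 9518) (nat_lit 10) (nat_lit 2))
    (@En.i (nat_lit 9517) (nat_lit 12) (nat_lit 11))
    (@En.n l1867 (nat_lit 6507) (nat_lit 13) (nat_lit 14))
    (@En.n l9974 (nat_lit 9519) (nat_lit 14) (nat_lit 5))
    (@En.n l1770 (nat_lit 9521) (nat_lit 3) (nat_lit 7))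
    (@En.n l3 (nat_lit 9518) (nat_lit 15) (nat_lit 2))))
  (@Cl.mk (nat_lit 0x20005000e000b0002000b0007000c0005000c00050004000b0004000e0009) (nat_lit 0x85040407004066) (nat_lit 16) Lb.e (@T16.mk En
    (@En.n l22100 (nat_lit 9351) (nat_lit 4) (nat_lit 9))
    (@En.n l21257 (nat_lit 9518) (nat_lit 1) (nat_lit 14))
    (@En.n l20256 (nat_lit 9504) (nat_lit 2) (nat_lit 4))
    (@En.i (nat_lit 7151) (nat_lit 3) (nat_lit 11))
    (@En.n l22101 (nat_lit 6629) (nat_lit 4) (nat_lit 4))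
    (@En.n l22102 (nat_lit 1287) (nat_lit 5) (nat_lit 5))
    (@En.n l1116 (nat_lit 9114) (nat_lit 7) (nat_lit 12))
    (@En.n l3423 (nat_lit 11255) (nat_lit 7) (nat_lit 5))
    (@En.n l21258 (nat_lit 1153) (nat_lit 9) (nat_lit 12))
    (@En.n l3425 (nat_lit 7354) (nat_lit 14) (nat_lit 7))
    (@En.n l22103 (nat_lit 9500) (nat_lit 11) (nat_lit 11))
    (@En.n l28 (nat_lit 9519) (nat_lit 11) (nat_lit 2))
    (@En.n l22104 (nat_lit 9516) (nat_lit 13) (nat_lit 11))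
    (@En.n l11131 (nat_lit 10109) (nat_lit 1) (nat_lit 14))
    (@En.n l22105 (nat_lit 9251) (nat_lit 13) (nat_lit 5))
    (@En.n l3 (nat_lit 9519) (nat_lit 15) (nat_lit 2))))
noncomputable def a595 : T16 Cl := @T16.mk Cl
  (@Cl.mk (nat_lit 0x2000a00080008000c0006000a00060004000c0008000800060004000e000a) (nat_lit 0x752602005540061) (nat_lit 16) Lb.e (@T16.mk En
    (@En.i (nat_lit 9313) (nat_lit 14) (nat_lit 10))
    (@En.n l22577 (nat_lit 6517) (nat_lit 1) (nat_lit 14))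
    (@En.n l15274 (nat_lit 9351) (nat_lit 2) (nat_lit 4))
    (@En.n l22578 (nat_lit 9560) (nat_lit 3) (nat_lit 6))
    (@En.n l35996 (nat_lit 11015) (nat_lit 4) (nat_lit 8))
    (@En.i (nat_lit 9630) (nat_lit 5) (nat_lit 8))
    (@En.n l35997 (nat_lit 6482) (nat_lit 7) (nat_lit 12))
    (@En.n l26427 (nat_lit 5961) (nat_lit 7) (nat_lit 4))
    (@En.n l18 (nat_lit 1288) (nat_lit 8) (nat_lit 6))
    (@En.n l35998 (nat_lit 6255) (nat_lit 10) (nat_lit 10))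
    (@En.n l21431 (nat_lit 11262) (nat_lit 11) (nat_lit 6))
    (@En.i (nat_lit 9824) (nat_lit 12) (nat_lit 12))
    (@En.i (nat_lit 9518) (nat_lit 8) (nat_lit 8))
    (@En.n l61 (nat_lit 9564) (nat_lit 14) (nat_lit 8))
    (@En.i (nat_lit 9024) (nat_lit 12) (nat_lit 10))
    (@En.n l7 (nat_lit 9520) (nat_lit 15) (nat_lit 2))))
  (@Cl.mk (nat_lit 0x2000a0007000b00050009000c00060005000c0004000900070004000e000b) (nat_lit 0x503028004060011) (nat_lit 16) Lb.e (@T16.mk En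
    (@En.n l601 (nat_lit 9275) (nat_lit 11) (nat_lit 11))
    (@En.n l22577 (nat_lit 4937) (nat_lit 1) (nat_lit 14))
    (@En.n l15274 (nat_lit 9254) (nat_lit 2) (nat_lit 4))
    (@En.n l22578 (nat_lit 9561) (nat_lit 3) (nat_lit 7))
    (@En.n l22579 (nat_lit 9560) (nat_lit 4) (nat_lit 9))
    (@En.n l15602 (nat_lit 9486) (nat_lit 5) (nat_lit 4))
    (@En.n l6594 (nat_lit 6491) (nat_lit 7) (nat_lit 12))
    (@En.n l22492 (nat_lit 5398) (nat_lit 7) (nat_lit 5))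
    (@En.i (nat_lit 9520) (nat_lit 8) (nat_lit 6))
    (@En.n l22580 (nat_lit 9519) (nat_lit 6) (nat_lit 12))
    (@En.n l3057 (nat_lit 6254) (nat_lit 11) (nat_lit 9))
    (@En.n l6594 (nat_lit 6125) (nat_lit 12) (nat_lit 5))
    (@En.i (nat_lit 2779) (nat_lit 13) (nat_lit 11))
    (@En.n l61 (nat_lit 7353) (nat_lit 14) (nat_lit 7))
    (@En.i (nat_lit 9695) (nat_lit 12) (nat_lit 10))
    (@En.n l7 (nat_lit 9521) (nat_lit 15) (nat_lit 2))))
  (@Cl.mk (nat_lit 0x2000800050008000c000b0007000b00040008000500080005000b000e0009) (nat_lit 0x402650302040667) (nat_lit 16) Lb.e (@T16.mk En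
    (@En.n l2869 (nat_lit 9024) (nat_lit 2) (nat_lit 9))
    (@En.n l9025 (nat_lit 5263) (nat_lit 4) (nat_lit 14))
    (@En.n l8865 (nat_lit 9523) (nat_lit 2) (nat_lit 11))
    (@En.n l22663 (nat_lit 9517) (nat_lit 3) (nat_lit 5))
    (@En.n l810 (nat_lit 8163) (nat_lit 4) (nat_lit 8))
    (@En.n l14609 (nat_lit 424) (nat_lit 5) (nat_lit 5))
    (@En.n l9025 (nat_lit 9629) (nat_lit 6) (nat_lit 8))
    (@En.n l21061 (nat_lit 11258) (nat_lit 7) (nat_lit 4))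
    (@En.i (nat_lit 4271) (nat_lit 9) (nat_lit 11))
    (@En.n l2680 (nat_lit 9544) (nat_lit 1) (nat_lit 7))
    (@En.n l8351 (nat_lit 9528) (nat_lit 11) (nat_lit 11))
    (@En.n l35768 (nat_lit 9527) (nat_lit 12) (nat_lit 12))
    (@En.i (nat_lit 3452) (nat_lit 13) (nat_lit 8))
    (@En.n l14818 (nat_lit 9500) (nat_lit 14) (nat_lit 5))
    (@En.n l3337 (nat_lit 9695) (nat_lit 0) (nat_lit 8))
    (@En.n l17 (nat_lit 9522) (nat_lit 15) (nat_lit 2))))
  (@Cl.mk (nat_lit 0x200070005000b0008000c000b000800050004000900050008000b000e0008) (nat_lit 0x4376500204556) (nat_lit 16) Lb.e (@T16.mk En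
    (@En.n l20067 (nat_lit 9023) (nat_lit 2) (nat_lit 8))
    (@En.n l4750 (nat_lit 12818) (nat_lit 4) (nat_lit 14))
    (@En.i (nat_lit 7155) (nat_lit 2) (nat_lit 11))
    (@En.n l20068 (nat_lit 8164) (nat_lit 3) (nat_lit 8))
    (@En.n l4073 (nat_lit 429) (nat_lit 4) (nat_lit 5))
    (@En.n l287 (nat_lit 9632) (nat_lit 5) (nat_lit 9))
    (@En.n l11 (nat_lit 11259) (nat_lit 6) (nat_lit 4))
    (@En.n l20069 (nat_lit 7629) (nat_lit 7) (nat_lit 5))
    (@En.n l77 (nat_lit 8843) (nat_lit 9) (nat_lit 8))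
    (@En.n l5995 (nat_lit 9526) (nat_lit 10) (nat_lit 11))
    (@En.n l4750 (nat_lit 9012) (nat_lit 11) (nat_lit 12))
    (@En.n l20070 (nat_lit 9522) (nat_lit 12) (nat_lit 8))
    (@En.n l20071 (nat_lit 9839) (nat_lit 13) (nat_lit 11))
    (@En.n l20072 (nat_lit 9524) (nat_lit 14) (nat_lit 5))
    (@En.n l2179 (nat_lit 8799) (nat_lit 13) (nat_lit 7))
    (@En.n l50 (nat_lit 9523) (nat_lit 15) (nat_lit 2))))
  (@Cl.mk (nat_lit 0x20005000b0008000c000b000700050004000c00050008000b0004000e0009) (nat_lit 0x26440003046067) (nat_lit 16) Lb.e (@T16.mk En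
    (@En.n l517 (nat_lit 9494) (nat_lit 14) (nat_lit 9))
    (@En.n l9722 (nat_lit 9523) (nat_lit 1) (nat_lit 14))
    (@En.n l9723 (nat_lit 9357) (nat_lit 2) (nat_lit 4))
    (@En.n l245 (nat_lit 7156) (nat_lit 3) (nat_lit 11))
    (@En.n l9724 (nat_lit 8162) (nat_lit 4) (nat_lit 8))
    (@En.n l9725 (nat_lit 949) (nat_lit 5) (nat_lit 5))
    (@En.n l9726 (nat_lit 9606) (nat_lit 7) (nat_lit 12))
    (@En.n l9725 (nat_lit 11256) (nat_lit 7) (nat_lit 4))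
    (@En.i (nat_lit 7631) (nat_lit 8) (nat_lit 5))
    (@En.n l9727 (nat_lit 9540) (nat_lit 10) (nat_lit 7))
    (@En.n l457 (nat_lit 9498) (nat_lit 11) (nat_lit 11))
    (@En.i (nat_lit 8086) (nat_lit 12) (nat_lit 12))
    (@En.n l9728 (nat_lit 9500) (nat_lit 13) (nat_lit 8))
    (@En.n l9724 (nat_lit 6356) (nat_lit 14) (nat_lit 11))
    (@En.i (nat_lit 8382) (nat_lit 13) (nat_lit 5))
    (@En.n l3 (nat_lit 9524) (nat_lit 15) (nat_lit 2))))
  (@Cl.mk (nat_lit 0x200070005000d000b00090003000c00090005000900040007000b000e0007) (nat_lit 0xa520740100440) (nat_lit 16) Lb.e (@T16.mk En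
    (@En.n l32226 (nat_lit 11262) (nat_lit 6) (nat_lit 7))
    (@En.n l32226 (nat_lit 12816) (nat_lit 4) (nat_lit 14))
    (@En.i (nat_lit 6129) (nat_lit 2) (nat_lit 11))
    (@En.n l32226 (nat_lit 11130) (nat_lit 3) (nat_lit 7))
    (@En.i (nat_lit 1298) (nat_lit 4) (nat_lit 4))
    (@En.n l32226 (nat_lit 2289) (nat_lit 5) (nat_lit 9))
    (@En.n l41412 (nat_lit 8078) (nat_lit 6) (nat_lit 5))
    (@En.n l77 (nat_lit 9554) (nat_lit 8) (nat_lit 9))
    (@En.n l1690 (nat_lit 11258) (nat_lit 9) (nat_lit 12))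
    (@En.n l152 (nat_lit 11259) (nat_lit 9) (nat_lit 3))
    (@En.n l41413 (nat_lit 7182) (nat_lit 11) (nat_lit 9))
    (@En.n l619 (nat_lit 9523) (nat_lit 12) (nat_lit 11))
    (@En.n l8366 (nat_lit 11273) (nat_lit 13) (nat_lit 13))
    (@En.n l699 (nat_lit 11255) (nat_lit 14) (nat_lit 5))
    (@En.n l2179 (nat_lit 6125) (nat_lit 4) (nat_lit 7))
    (@En.n l50 (nat_lit 9525) (nat_lit 15) (nat_lit 2))))
  (@Cl.mk (nat_lit 0x200080005000c0008000b00070004000d0008000500030008000b000e0009) (nat_lit 0x303350024005767) (nat_lit 16) Lb.e (@T16.mk En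
    (@En.n l24470 (nat_lit 9019) (nat_lit 12) (nat_lit 9))
    (@En.i (nat_lit 12819) (nat_lit 4) (nat_lit 14))
    (@En.n l1501 (nat_lit 9003) (nat_lit 2) (nat_lit 11))
    (@En.n l3144 (nat_lit 9523) (nat_lit 3) (nat_lit 8))
    (@En.n l5955 (nat_lit 9894) (nat_lit 4) (nat_lit 3))
    (@En.i (nat_lit 1503) (nat_lit 0) (nat_lit 5))
    (@En.n l9770 (nat_lit 9633) (nat_lit 6) (nat_lit 8))
    (@En.n l1555 (nat_lit 5006) (nat_lit 8) (nat_lit 13))
    (@En.n l24471 (nat_lit 7630) (nat_lit 8) (nat_lit 4))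
    (@En.n l1501 (nat_lit 8463) (nat_lit 4) (nat_lit 7))
    (@En.i (nat_lit 8582) (nat_lit 11) (nat_lit 11))
    (@En.n l24472 (nat_lit 9528) (nat_lit 12) (nat_lit 8))
    (@En.n l18735 (nat_lit 7191) (nat_lit 13) (nat_lit 12))
    (@En.n l2657 (nat_lit 9498) (nat_lit 14) (nat_lit 5))
    (@En.n l1564 (nat_lit 9698) (nat_lit 10) (nat_lit 8))
    (@En.n l3 (nat_lit 9526) (nat_lit 15) (nat_lit 2))))
  (@Cl.mk (nat_lit 0x200080005000c000a0006000a0004000d0008000600030006000b000e000a) (nat_lit 0x405403033000845) (nat_lit 16) Lb.e (@T16.mk En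
    (@En.n l5888 (nat_lit 9017) (nat_lit 12) (nat_lit 10))
    (@En.i (nat_lit 5216) (nat_lit 4) (nat_lit 14))
    (@En.n l1262 (nat_lit 9012) (nat_lit 2) (nat_lit 11))
    (@En.n l4361 (nat_lit 9530) (nat_lit 3) (nat_lit 6))
    (@En.n l13473 (nat_lit 8078) (nat_lit 4) (nat_lit 3))
    (@En.i (nat_lit 1665) (nat_lit 0) (nat_lit 6))
    (@En.n l13474 (nat_lit 9568) (nat_lit 6) (nat_lit 8))
    (@En.n l13475 (nat_lit 9528) (nat_lit 8) (nat_lit 13))
    (@En.n l1643 (nat_lit 9526) (nat_lit 8) (nat_lit 4))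
    (@En.n l2533 (nat_lit 4273) (nat_lit 10) (nat_lit 10))
    (@En.n l9491 (nat_lit 8462) (nat_lit 5) (nat_lit 6))
    (@En.n l217 (nat_lit 7626) (nat_lit 12) (nat_lit 10))
    (@En.n l13476 (nat_lit 10019) (nat_lit 13) (nat_lit 12))
    (@En.n l13477 (nat_lit 9499) (nat_lit 14) (nat_lit 5))
    (@En.n l2029 (nat_lit 9693) (nat_lit 10) (nat_lit 8))
    (@En.n l107 (nat_lit 9527) (nat_lit 15) (nat_lit 2))))
  (@Cl.mk (nat_lit 0x2000900050008000b0006000a000d00070005000300080006000b000e000a) (nat_lit 0x602403200050858) (nat_lit 16) Lb.e (@T16.mk En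
    (@En.n l5551 (nat_lit 9021) (nat_lit 11) (nat_lit 10))
    (@En.n l6212 (nat_lit 5215) (nat_lit 4) (nat_lit 14))
    (@En.n l27163 (nat_lit 9526) (nat_lit 2) (nat_lit 11))
    (@En.n l27164 (nat_lit 9527) (nat_lit 3) (nat_lit 6))
    (@En.n l13671 (nat_lit 9522) (nat_lit 4) (nat_lit 8))
    (@En.n l7076 (nat_lit 9529) (nat_lit 5) (nat_lit 3))
    (@En.n l5839 (nat_lit 1664) (nat_lit 0) (nat_lit 5))
    (@En.n l27165 (nat_lit 9630) (nat_lit 7) (nat_lit 7))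
    (@En.n l5276 (nat_lit 5007) (nat_lit 9) (nat_lit 13))
    (@En.i (nat_lit 4270) (nat_lit 10) (nat_lit 10))
    (@En.n l14304 (nat_lit 8464) (nat_lit 4) (nat_lit 6))
    (@En.n l6212 (nat_lit 7611) (nat_lit 7) (nat_lit 11))
    (@En.i (nat_lit 3448) (nat_lit 13) (nat_lit 8))
    (@En.n l13798 (nat_lit 9493) (nat_lit 14) (nat_lit 5))
    (@En.n l4813 (nat_lit 9694) (nat_lit 0) (nat_lit 9))
    (@En.n l17 (nat_lit 9528) (nat_lit 15) (nat_lit 2))))
  (@Cl.mk (nat_lit 0x2000800050008000c0006000a000d00040008000300080006000b000e000a) (nat_lit 0x1503303050816) (nat_lit 16) Lb.e (@T16.mk En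
    (@En.n l40457 (nat_lit 9896) (nat_lit 11) (nat_lit 10))
    (@En.n l40458 (nat_lit 5217) (nat_lit 4) (nat_lit 14))
    (@En.n l40459 (nat_lit 9894) (nat_lit 2) (nat_lit 11))
    (@En.n l40460 (nat_lit 8078) (nat_lit 3) (nat_lit 6))
    (@En.n l14056 (nat_lit 8168) (nat_lit 4) (nat_lit 8))
    (@En.n l2586 (nat_lit 9528) (nat_lit 5) (nat_lit 3))
    (@En.n l14058 (nat_lit 11331) (nat_lit 0) (nat_lit 8))
    (@En.n l5572 (nat_lit 9522) (nat_lit 7) (nat_lit 4))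
    (@En.n l35555 (nat_lit 6697) (nat_lit 9) (nat_lit 13))
    (@En.n l3348 (nat_lit 4272) (nat_lit 10) (nat_lit 10))
    (@En.n l28400 (nat_lit 10358) (nat_lit 4) (nat_lit 6))
    (@En.n l18910 (nat_lit 7630) (nat_lit 12) (nat_lit 12))
    (@En.i (nat_lit 3450) (nat_lit 13) (nat_lit 8))
    (@En.i (nat_lit 9497) (nat_lit 14) (nat_lit 5))
    (@En.n l61 (nat_lit 9700) (nat_lit 0) (nat_lit 8))
    (@En.n l11 (nat_lit 9529) (nat_lit 15) (nat_lit 2))))
  (@Cl.mk (nat_lit 0x200070005000b00090006000a000e00050002000900070006000b000e000a) (nat_lit 0x2303a004008a4) (nat_lit 16) Lb.e (@T16.mk En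
    (@En.n l21831 (nat_lit 9314) (nat_lit 10) (nat_lit 10))
    (@En.n l14576 (nat_lit 4828) (nat_lit 11) (nat_lit 14))
    (@En.n l21832 (nat_lit 7738) (nat_lit 2) (nat_lit 11))
    (@En.n l9967 (nat_lit 5119) (nat_lit 3) (nat_lit 6))
    (@En.i (nat_lit 1455) (nat_lit 14) (nat_lit 7))
    (@En.n l21833 (nat_lit 9511) (nat_lit 5) (nat_lit 9))
    (@En.n l11 (nat_lit 9530) (nat_lit 6) (nat_lit 2))
    (@En.n l21834 (nat_lit 9517) (nat_lit 7) (nat_lit 5))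
    (@En.n l3389 (nat_lit 8087) (nat_lit 9) (nat_lit 14))
    (@En.n l2568 (nat_lit 2756) (nat_lit 10) (nat_lit 10))
    (@En.n l2125 (nat_lit 9532) (nat_lit 3) (nat_lit 6))
    (@En.n l21833 (nat_lit 7627) (nat_lit 12) (nat_lit 9))
    (@En.n l810 (nat_lit 9344) (nat_lit 13) (nat_lit 11))
    (@En.i (nat_lit 9531) (nat_lit 14) (nat_lit 5))
    (@En.n l9182 (nat_lit 9276) (nat_lit 7) (nat_lit 7))
    (@En.n l18 (nat_lit 9530) (nat_lit 15) (nat_lit 2))))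
  (@Cl.mk (nat_lit 0x20005000b00090005000a000e00050002000c00070006000b0004000e000b) (nat_lit 0x830350060080b5) (nat_lit 16) Lb.e (@T16.mk En
    (@En.n l10881 (nat_lit 9305) (nat_lit 9) (nat_lit 11))
    (@En.n l10882 (nat_lit 9530) (nat_lit 1) (nat_lit 14))
    (@En.i (nat_lit 9502) (nat_lit 2) (nat_lit 4))
    (@En.n l10883 (nat_lit 7412) (nat_lit 3) (nat_lit 11))
    (@En.n l8160 (nat_lit 5117) (nat_lit 4) (nat_lit 6))
    (@En.n l10884 (nat_lit 1452) (nat_lit 5) (nat_lit 7))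
    (@En.n l10885 (nat_lit 9565) (nat_lit 7) (nat_lit 12))
    (@En.n l11 (nat_lit 9531) (nat_lit 7) (nat_lit 2))
    (@En.n l10886 (nat_lit 9516) (nat_lit 8) (nat_lit 5))
    (@En.n l10886 (nat_lit 8085) (nat_lit 10) (nat_lit 14))
    (@En.n l2568 (nat_lit 2757) (nat_lit 11) (nat_lit 10))
    (@En.n l10887 (nat_lit 9533) (nat_lit 3) (nat_lit 5))
    (@En.n l10886 (nat_lit 7628) (nat_lit 13) (nat_lit 9))
    (@En.n l10888 (nat_lit 10202) (nat_lit 14) (nat_lit 11))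
    (@En.n l10886 (nat_lit 9304) (nat_lit 6) (nat_lit 5))
    (@En.n l18 (nat_lit 9531) (nat_lit 15) (nat_lit 2))))
  (@Cl.mk (nat_lit 0x20008000b0006000a000d000a0005000300080006000c0006000a000e0004) (nat_lit 0x4503160040a0370) (nat_lit 16) Lb.e (@T16.mk En
    (@En.n l8089 (nat_lit 7359) (nat_lit 8) (nat_lit 4))
    (@En.n l17957 (nat_lit 6239) (nat_lit 1) (nat_lit 14))
    (@En.n l1003 (nat_lit 7227) (nat_lit 2) (nat_lit 10))
    (@En.n l37573 (nat_lit 8828) (nat_lit 3) (nat_lit 6))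
    (@En.n l17963 (nat_lit 9962) (nat_lit 5) (nat_lit 12))
    (@En.n l37574 (nat_lit 9533) (nat_lit 5) (nat_lit 6))
    (@En.n l617 (nat_lit 6863) (nat_lit 6) (nat_lit 8))
    (@En.n l13782 (nat_lit 9534) (nat_lit 7) (nat_lit 3))
    (@En.n l37575 (nat_lit 616) (nat_lit 0) (nat_lit 5))
    (@En.n l22522 (nat_lit 9467) (nat_lit 10) (nat_lit 10))
    (@En.n l20356 (nat_lit 3405) (nat_lit 11) (nat_lit 13))
    (@En.n l37576 (nat_lit 3334) (nat_lit 12) (nat_lit 10))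
    (@En.i (nat_lit 10020) (nat_lit 13) (nat_lit 6))
    (@En.n l37577 (nat_lit 7900) (nat_lit 7) (nat_lit 11))
    (@En.n l20356 (nat_lit 10596) (nat_lit 6) (nat_lit 8))
    (@En.n l28 (nat_lit 9532) (nat_lit 15) (nat_lit 2))))
  (@Cl.mk (nat_lit 0x2000c000a0006000a0004000d000b000600030006000c0005000a000e0004) (nat_lit 0xa503028000a02a0) (nat_lit 16) Lb.e (@T16.mk En
    (@En.i (nat_lit 7358) (nat_lit 9) (nat_lit 4))
    (@En.n l5 (nat_lit 6236) (nat_lit 1) (nat_lit 14))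
    (@En.n l24417 (nat_lit 7239) (nat_lit 2) (nat_lit 10))
    (@En.n l6574 (nat_lit 9301) (nat_lit 3) (nat_lit 5))
    (@En.n l5 (nat_lit 10175) (nat_lit 14) (nat_lit 12))
    (@En.n l21944 (nat_lit 7948) (nat_lit 5) (nat_lit 6))
    (@En.n l28 (nat_lit 9535) (nat_lit 6) (nat_lit 3))
    (@En.n l473 (nat_lit 615) (nat_lit 0) (nat_lit 6))
    (@En.i (nat_lit 9465) (nat_lit 9) (nat_lit 11))
    (@En.n l21757 (nat_lit 9532) (nat_lit 10) (nat_lit 13))
    (@En.n l24418 (nat_lit 7297) (nat_lit 10) (nat_lit 4))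
    (@En.n l5375 (nat_lit 3335) (nat_lit 12) (nat_lit 10))
    (@En.n l1792 (nat_lit 8213) (nat_lit 13) (nat_lit 6))
    (@En.n l21943 (nat_lit 7898) (nat_lit 14) (nat_lit 10))
    (@En.n l24419 (nat_lit 9943) (nat_lit 8) (nat_lit 12))
    (@En.n l17 (nat_lit 9533) (nat_lit 15) (nat_lit 2))))
  (@Cl.mk (nat_lit 0x20008000c0006000a000d0004000b000300080006000c0005000a000e0004) (nat_lit 0x380370704020240) (nat_lit 16) Lb.e (@T16.mk En
    (@En.n l34143 (nat_lit 9536) (nat_lit 8) (nat_lit 4))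
    (@En.i (nat_lit 6324) (nat_lit 1) (nat_lit 14))
    (@En.n l42796 (nat_lit 7224) (nat_lit 2) (nat_lit 10))
    (@En.i (nat_lit 9451) (nat_lit 3) (nat_lit 5))
    (@En.n l253 (nat_lit 9960) (nat_lit 13) (nat_lit 12))
    (@En.n l1738 (nat_lit 9535) (nat_lit 5) (nat_lit 6))
    (@En.n l14349 (nat_lit 7091) (nat_lit 6) (nat_lit 8))
    (@En.n l19198 (nat_lit 9532) (nat_lit 7) (nat_lit 3))
    (@En.n l42797 (nat_lit 12259) (nat_lit 0) (nat_lit 11))
    (@En.n l18752 (nat_lit 6863) (nat_lit 9) (nat_lit 4))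
    (@En.n l13416 (nat_lit 3406) (nat_lit 11) (nat_lit 13))
    (@En.n l37412 (nat_lit 3337) (nat_lit 12) (nat_lit 10))
    (@En.n l13417 (nat_lit 10021) (nat_lit 13) (nat_lit 6))
    (@En.n l513 (nat_lit 7904) (nat_lit 14) (nat_lit 12))
    (@En.n l37414 (nat_lit 10595) (nat_lit 6) (nat_lit 8))
    (@En.n l18 (nat_lit 9534) (nat_lit 15) (nat_lit 2))))
  (@Cl.mk (nat_lit 0x2000c000b0006000a0004000d0005000c00030006000c0004000a000e0004) (nat_lit 0xa10308080000240) (nat_lit 16) Lb.e (@T16.mk En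
    (@En.i (nat_lit 9537) (nat_lit 9) (nat_lit 4))
    (@En.n l5 (nat_lit 6237) (nat_lit 1) (nat_lit 14))
    (@En.n l50 (nat_lit 7375) (nat_lit 2) (nat_lit 10))
    (@En.i (nat_lit 9449) (nat_lit 3) (nat_lit 4))
    (@En.n l5 (nat_lit 10174) (nat_lit 0) (nat_lit 12))
    (@En.n l7889 (nat_lit 6873) (nat_lit 12) (nat_lit 6))
    (@En.i (nat_lit 9533) (nat_lit 6) (nat_lit 3))
    (@En.n l1897 (nat_lit 12258) (nat_lit 0) (nat_lit 12))
    (@En.i (nat_lit 6861) (nat_lit 8) (nat_lit 5))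
    (@En.n l7145 (nat_lit 9534) (nat_lit 10) (nat_lit 13))
    (@En.n l612 (nat_lit 7301) (nat_lit 10) (nat_lit 4))
    (@En.n l5375 (nat_lit 3338) (nat_lit 12) (nat_lit 10))
    (@En.n l830 (nat_lit 10014) (nat_lit 13) (nat_lit 6))
    (@En.n l34514 (nat_lit 7903) (nat_lit 14) (nat_lit 11))
    (@En.i (nat_lit 9942) (nat_lit 8) (nat_lit 12))
    (@En.n l17 (nat_lit 9535) (nat_lit 15) (nat_lit 2))))
noncomputable def a596 : T16 Cl := @T16.mk Cl
  (@Cl.mk (nat_lit 0x300080006000c000c0006000b000400040008000c0005000a000d0004000a) (nat_lit 0x40a303004403608) (nat_lit 16) Lb.e (@T16.mk En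
    (@En.n l387 (nat_lit 12083) (nat_lit 0) (nat_lit 10))
    (@En.n l43201 (nat_lit 6866) (nat_lit 8) (nat_lit 4))
    (@En.i (nat_lit 4591) (nat_lit 5) (nat_lit 13))
    (@En.n l43202 (nat_lit 3862) (nat_lit 3) (nat_lit 10))
    (@En.n l17892 (nat_lit 10012) (nat_lit 4) (nat_lit 5))
    (@En.n l43203 (nat_lit 8609) (nat_lit 7) (nat_lit 12))
    (@En.n l43204 (nat_lit 10602) (nat_lit 11) (nat_lit 8))
    (@En.n l575 (nat_lit 7357) (nat_lit 12) (nat_lit 4))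
    (@En.n l34167 (nat_lit 9538) (nat_lit 8) (nat_lit 4))
    (@En.n l17759 (nat_lit 7222) (nat_lit 0) (nat_lit 11))
    (@En.i (nat_lit 10593) (nat_lit 1) (nat_lit 6))
    (@En.n l37078 (nat_lit 9534) (nat_lit 4) (nat_lit 12))
    (@En.n l43205 (nat_lit 10304) (nat_lit 13) (nat_lit 12))
    (@En.n l37076 (nat_lit 9537) (nat_lit 14) (nat_lit 6))
    (@En.n l34046 (nat_lit 7092) (nat_lit 5) (nat_lit 8))
    (@En.n l32761 (nat_lit 7359) (nat_lit 15) (nat_lit 3))))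
  (@Cl.mk (nat_lit 0x30006000c000c0005000b00040004000c000b0005000a0004000d0005000b) (nat_lit 0xa1030078030709) (nat_lit 16) Lb.e (@T16.mk En
    (@En.n l17649 (nat_lit 12084) (nat_lit 0) (nat_lit 11))
    (@En.n l29813 (nat_lit 6867) (nat_lit 7) (nat_lit 5))
    (@En.n l35070 (nat_lit 9536) (nat_lit 2) (nat_lit 13))
    (@En.n l612 (nat_lit 7302) (nat_lit 3) (nat_lit 4))
    (@En.n l35071 (nat_lit 3859) (nat_lit 4) (nat_lit 10))
    (@En.n l25809 (nat_lit 10008) (nat_lit 5) (nat_lit 5))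
    (@En.n l35072 (nat_lit 8608) (nat_lit 5) (nat_lit 11))
    (@En.n l8638 (nat_lit 9957) (nat_lit 8) (nat_lit 12))
    (@En.n l8639 (nat_lit 7356) (nat_lit 12) (nat_lit 4))
    (@En.n l5 (nat_lit 9539) (nat_lit 9) (nat_lit 4))
    (@En.n l35073 (nat_lit 7226) (nat_lit 0) (nat_lit 11))
    (@En.n l8641 (nat_lit 10590) (nat_lit 1) (nat_lit 5))
    (@En.n l61 (nat_lit 9535) (nat_lit 4) (nat_lit 12))
    (@En.n l5 (nat_lit 9174) (nat_lit 14) (nat_lit 12))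
    (@En.n l20396 (nat_lit 6878) (nat_lit 12) (nat_lit 6))
    (@En.i (nat_lit 7358) (nat_lit 15) (nat_lit 3))))
  (@Cl.mk (nat_lit 0x300080006000c0009000d0007000400030008000c0007000a000d00040009) (nat_lit 0x504040003103307) (nat_lit 16) Lb.e (@T16.mk En
    (@En.n l34141 (nat_lit 12082) (nat_lit 0) (nat_lit 9))
    (@En.n l34142 (nat_lit 8834) (nat_lit 9) (nat_lit 4))
    (@En.n l34143 (nat_lit 4712) (nat_lit 5) (nat_lit 13))
    (@En.n l34144 (nat_lit 3866) (nat_lit 8) (nat_lit 10))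
    (@En.n l23942 (nat_lit 11990) (nat_lit 4) (nat_lit 7))
    (@En.n l513 (nat_lit 8615) (nat_lit 7) (nat_lit 12))
    (@En.n l34145 (nat_lit 10604) (nat_lit 6) (nat_lit 8))
    (@En.n l34146 (nat_lit 9549) (nat_lit 13) (nat_lit 3))
    (@En.n l50 (nat_lit 9534) (nat_lit 0) (nat_lit 4))
    (@En.n l34147 (nat_lit 10592) (nat_lit 0) (nat_lit 7))
    (@En.i (nat_lit 6325) (nat_lit 1) (nat_lit 13))
    (@En.n l217 (nat_lit 9542) (nat_lit 3) (nat_lit 9))
    (@En.n l253 (nat_lit 10307) (nat_lit 13) (nat_lit 12))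
    (@En.i (nat_lit 9539) (nat_lit 14) (nat_lit 6))
    (@En.n l34148 (nat_lit 7098) (nat_lit 6) (nat_lit 8))
    (@En.n l34149 (nat_lit 8843) (nat_lit 15) (nat_lit 3))))
  (@Cl.mk (nat_lit 0x30006000c0009000d000600040003000c000b0007000a0004000d0005000a) (nat_lit 0x36900096030408) (nat_lit 16) Lb.e (@T16.mk En
    (@En.n l31244 (nat_lit 12081) (nat_lit 0) (nat_lit 10))
    (@En.n l14096 (nat_lit 7955) (nat_lit 8) (nat_lit 5))
    (@En.n l476 (nat_lit 9538) (nat_lit 2) (nat_lit 13))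
    (@En.n l387 (nat_lit 10445) (nat_lit 3) (nat_lit 4))
    (@En.n l31245 (nat_lit 3869) (nat_lit 8) (nat_lit 10))
    (@En.n l1106 (nat_lit 11988) (nat_lit 5) (nat_lit 7))
    (@En.n l619 (nat_lit 8617) (nat_lit 5) (nat_lit 11))
    (@En.n l1106 (nat_lit 10398) (nat_lit 8) (nat_lit 12))
    (@En.n l1959 (nat_lit 9548) (nat_lit 8) (nat_lit 3))
    (@En.n l31246 (nat_lit 9535) (nat_lit 0) (nat_lit 4))
    (@En.n l829 (nat_lit 10589) (nat_lit 0) (nat_lit 6))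
    (@En.i (nat_lit 6322) (nat_lit 1) (nat_lit 13))
    (@En.n l827 (nat_lit 9541) (nat_lit 13) (nat_lit 9))
    (@En.i (nat_lit 10176) (nat_lit 14) (nat_lit 12))
    (@En.n l2009 (nat_lit 6879) (nat_lit 12) (nat_lit 6))
    (@En.n l26999 (nat_lit 9540) (nat_lit 15) (nat_lit 3))))
  (@Cl.mk (nat_lit 0x30006000c0009000d000700040003000c000a0007000a0004000d00090006) (nat_lit 0x46900074030360) (nat_lit 16) Lb.e (@T16.mk En
    (@En.n l1927 (nat_lit 916) (nat_lit 0) (nat_lit 6))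
    (@En.n l13958 (nat_lit 8880) (nat_lit 14) (nat_lit 9))
    (@En.n l397 (nat_lit 8843) (nat_lit 2) (nat_lit 13))
    (@En.n l16296 (nat_lit 10444) (nat_lit 3) (nat_lit 4))
    (@En.i (nat_lit 3867) (nat_lit 8) (nat_lit 10))
    (@En.n l3959 (nat_lit 12009) (nat_lit 5) (nat_lit 7))
    (@En.n l6064 (nat_lit 7856) (nat_lit 14) (nat_lit 10))
    (@En.n l15189 (nat_lit 10397) (nat_lit 8) (nat_lit 12))
    (@En.n l11 (nat_lit 9550) (nat_lit 8) (nat_lit 3))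
    (@En.n l2253 (nat_lit 9533) (nat_lit 0) (nat_lit 4))
    (@En.i (nat_lit 10552) (nat_lit 0) (nat_lit 7))
    (@En.n l13303 (nat_lit 6238) (nat_lit 1) (nat_lit 13))
    (@En.n l16297 (nat_lit 9543) (nat_lit 13) (nat_lit 9))
    (@En.n l13303 (nat_lit 10178) (nat_lit 14) (nat_lit 12))
    (@En.n l16298 (nat_lit 7950) (nat_lit 12) (nat_lit 6))
    (@En.n l2940 (nat_lit 9539) (nat_lit 15) (nat_lit 3))))
  (@Cl.mk (nat_lit 0x300060009000d0005000b0003000b000a00070005000a0005000d0006000b) (nat_lit 0x54030860040509) (nat_lit 16) Lb.e (@T16.mk En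
    (@En.n l28100 (nat_lit 12079) (nat_lit 0) (nat_lit 11))
    (@En.i (nat_lit 7959) (nat_lit 7) (nat_lit 6))
    (@En.n l7145 (nat_lit 9542) (nat_lit 9) (nat_lit 13))
    (@En.n l612 (nat_lit 6854) (nat_lit 3) (nat_lit 5))
    (@En.i (nat_lit 9539) (nat_lit 4) (nat_lit 10))
    (@En.n l17 (nat_lit 9537) (nat_lit 5) (nat_lit 5))
    (@En.n l29991 (nat_lit 11992) (nat_lit 6) (nat_lit 7))
    (@En.n l42541 (nat_lit 10319) (nat_lit 14) (nat_lit 10))
    (@En.n l23334 (nat_lit 10400) (nat_lit 9) (nat_lit 11))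
    (@En.n l42454 (nat_lit 9547) (nat_lit 9) (nat_lit 3))
    (@En.n l50 (nat_lit 4444) (nat_lit 0) (nat_lit 11))
    (@En.n l28101 (nat_lit 10591) (nat_lit 12) (nat_lit 5))
    (@En.i (nat_lit 8453) (nat_lit 6) (nat_lit 13))
    (@En.n l29519 (nat_lit 11299) (nat_lit 9) (nat_lit 9))
    (@En.n l29519 (nat_lit 6881) (nat_lit 12) (nat_lit 6))
    (@En.n l30838 (nat_lit 9543) (nat_lit 15) (nat_lit 3))))
  (@Cl.mk (nat_lit 0x30007000b00070005000a000d0005000a0003000900060009000d0006000b) (nat_lit 0x60044080707501) (nat_lit 16) Lb.e (@T16.mk En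
    (@En.n l43262 (nat_lit 4446) (nat_lit 0) (nat_lit 11))
    (@En.n l43263 (nat_lit 10594) (nat_lit 11) (nat_lit 6))
    (@En.i (nat_lit 8454) (nat_lit 6) (nat_lit 13))
    (@En.n l43264 (nat_lit 11454) (nat_lit 9) (nat_lit 9))
    (@En.n l1738 (nat_lit 9541) (nat_lit 14) (nat_lit 6))
    (@En.n l15166 (nat_lit 7105) (nat_lit 5) (nat_lit 9))
    (@En.n l23378 (nat_lit 9544) (nat_lit 6) (nat_lit 3))
    (@En.n l43265 (nat_lit 12080) (nat_lit 0) (nat_lit 10))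
    (@En.n l43266 (nat_lit 8832) (nat_lit 8) (nat_lit 5))
    (@En.n l13416 (nat_lit 11588) (nat_lit 5) (nat_lit 13))
    (@En.n l1738 (nat_lit 9538) (nat_lit 3) (nat_lit 10))
    (@En.n l43267 (nat_lit 9536) (nat_lit 4) (nat_lit 5))
    (@En.n l43264 (nat_lit 11993) (nat_lit 5) (nat_lit 7))
    (@En.n l43268 (nat_lit 10322) (nat_lit 8) (nat_lit 11))
    (@En.n l43269 (nat_lit 10033) (nat_lit 12) (nat_lit 7))
    (@En.n l43270 (nat_lit 9545) (nat_lit 15) (nat_lit 3))))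
  (@Cl.mk (nat_lit 0x300060009000d0006000b0003000b000900070005000a0005000d000a0007) (nat_lit 0x55010640040470) (nat_lit 16) Lb.e (@T16.mk En
    (@En.n l31258 (nat_lit 976) (nat_lit 0) (nat_lit 7))
    (@En.n l31259 (nat_lit 8885) (nat_lit 8) (nat_lit 10))
    (@En.n l31260 (nat_lit 9544) (nat_lit 9) (nat_lit 13))
    (@En.n l31261 (nat_lit 6852) (nat_lit 3) (nat_lit 5))
    (@En.n l31262 (nat_lit 9540) (nat_lit 4) (nat_lit 10))
    (@En.n l31263 (nat_lit 7358) (nat_lit 5) (nat_lit 5))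
    (@En.n l4004 (nat_lit 12011) (nat_lit 6) (nat_lit 7))
    (@En.n l28305 (nat_lit 7747) (nat_lit 14) (nat_lit 9))
    (@En.n l19308 (nat_lit 10399) (nat_lit 9) (nat_lit 11))
    (@En.n l31264 (nat_lit 9546) (nat_lit 9) (nat_lit 3))
    (@En.n l31265 (nat_lit 4445) (nat_lit 0) (nat_lit 11))
    (@En.n l8030 (nat_lit 10553) (nat_lit 12) (nat_lit 6))
    (@En.n l31259 (nat_lit 8459) (nat_lit 6) (nat_lit 13))
    (@En.n l28305 (nat_lit 11296) (nat_lit 9) (nat_lit 9))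
    (@En.n l31266 (nat_lit 7951) (nat_lit 12) (nat_lit 6))
    (@En.n l31267 (nat_lit 9541) (nat_lit 15) (nat_lit 3))))
  (@Cl.mk (nat_lit 0x30007000a00070005000a000d000900060003000900060009000d0007000b) (nat_lit 0x40043600707301) (nat_lit 16) Lb.e (@T16.mk En
    (@En.i (nat_lit 4447) (nat_lit 0) (nat_lit 11))
    (@En.n l3333 (nat_lit 10555) (nat_lit 11) (nat_lit 7))
    (@En.n l32497 (nat_lit 8462) (nat_lit 6) (nat_lit 13))
    (@En.n l5381 (nat_lit 11450) (nat_lit 9) (nat_lit 9))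
    (@En.n l39063 (nat_lit 9543) (nat_lit 14) (nat_lit 6))
    (@En.i (nat_lit 8832) (nat_lit 5) (nat_lit 9))
    (@En.n l39064 (nat_lit 9542) (nat_lit 6) (nat_lit 3))
    (@En.n l13756 (nat_lit 919) (nat_lit 0) (nat_lit 6))
    (@En.i (nat_lit 9940) (nat_lit 9) (nat_lit 9))
    (@En.n l5891 (nat_lit 11589) (nat_lit 5) (nat_lit 13))
    (@En.n l23608 (nat_lit 8843) (nat_lit 3) (nat_lit 10))
    (@En.n l11610 (nat_lit 7359) (nat_lit 4) (nat_lit 5))
    (@En.n l5381 (nat_lit 12012) (nat_lit 5) (nat_lit 7))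
    (@En.n l2568 (nat_lit 7850) (nat_lit 8) (nat_lit 10))
    (@En.n l13756 (nat_lit 10030) (nat_lit 12) (nat_lit 7))
    (@En.n l3596 (nat_lit 8841) (nat_lit 15) (nat_lit 3))))
  (@Cl.mk (nat_lit 0x30007000b00070006000a000d000500090003000900060009000d000a0007) (nat_lit 0x40044000706470) (nat_lit 16) Lb.e (@T16.mk En
    (@En.n l31827 (nat_lit 11445) (nat_lit 0) (nat_lit 7))
    (@En.n l38134 (nat_lit 9884) (nat_lit 11) (nat_lit 10))
    (@En.n l38135 (nat_lit 8455) (nat_lit 6) (nat_lit 13))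
    (@En.n l31827 (nat_lit 11455) (nat_lit 9) (nat_lit 9))
    (@En.n l21433 (nat_lit 9547) (nat_lit 14) (nat_lit 6))
    (@En.n l8361 (nat_lit 7104) (nat_lit 5) (nat_lit 9))
    (@En.n l38136 (nat_lit 8841) (nat_lit 6) (nat_lit 3))
    (@En.n l1867 (nat_lit 11418) (nat_lit 0) (nat_lit 9))
    (@En.n l17509 (nat_lit 8833) (nat_lit 8) (nat_lit 5))
    (@En.n l38137 (nat_lit 11013) (nat_lit 5) (nat_lit 13))
    (@En.n l50 (nat_lit 9549) (nat_lit 9) (nat_lit 10))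
    (@En.n l2498 (nat_lit 9553) (nat_lit 10) (nat_lit 6))
    (@En.n l38138 (nat_lit 12016) (nat_lit 5) (nat_lit 7))
    (@En.n l24510 (nat_lit 10316) (nat_lit 8) (nat_lit 11))
    (@En.n l38139 (nat_lit 3409) (nat_lit 7) (nat_lit 7))
    (@En.n l38140 (nat_lit 9542) (nat_lit 15) (nat_lit 3))))
  (@Cl.mk (nat_lit 0x300060009000d000a00070003000b000900070006000a0005000d00090007) (nat_lit 0x65100650040430) (nat_lit 16) Lb.e (@T16.mk En
    (@En.n l1927 (nat_lit 914) (nat_lit 0) (nat_lit 7))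
    (@En.n l5854 (nat_lit 10498) (nat_lit 8) (nat_lit 9))
    (@En.n l37240 (nat_lit 8841) (nat_lit 9) (nat_lit 13))
    (@En.n l37241 (nat_lit 6855) (nat_lit 3) (nat_lit 5))
    (@En.n l3 (nat_lit 9550) (nat_lit 4) (nat_lit 10))
    (@En.n l3 (nat_lit 9552) (nat_lit 5) (nat_lit 6))
    (@En.n l8150 (nat_lit 12014) (nat_lit 6) (nat_lit 7))
    (@En.n l6064 (nat_lit 7851) (nat_lit 14) (nat_lit 9))
    (@En.n l34594 (nat_lit 10022) (nat_lit 9) (nat_lit 11))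
    (@En.n l16297 (nat_lit 9543) (nat_lit 9) (nat_lit 3))
    (@En.n l37242 (nat_lit 4539) (nat_lit 0) (nat_lit 7))
    (@En.n l37243 (nat_lit 7190) (nat_lit 12) (nat_lit 10))
    (@En.n l37244 (nat_lit 8460) (nat_lit 13) (nat_lit 13))
    (@En.n l37245 (nat_lit 11297) (nat_lit 9) (nat_lit 9))
    (@En.n l8150 (nat_lit 7954) (nat_lit 12) (nat_lit 6))
    (@En.n l3348 (nat_lit 9547) (nat_lit 15) (nat_lit 3))))
  (@Cl.mk (nat_lit 0x300060009000d000a00060003000b000a00070006000a0005000d0006000a) (nat_lit 0x64600840040506) (nat_lit 16) Lb.e (@T16.mk En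
    (@En.n l1897 (nat_lit 11415) (nat_lit 0) (nat_lit 10))
    (@En.n l14808 (nat_lit 7957) (nat_lit 7) (nat_lit 6))
    (@En.n l9591 (nat_lit 9545) (nat_lit 9) (nat_lit 13))
    (@En.n l152 (nat_lit 10721) (nat_lit 3) (nat_lit 5))
    (@En.n l50 (nat_lit 9548) (nat_lit 4) (nat_lit 10))
    (@En.n l26652 (nat_lit 9551) (nat_lit 5) (nat_lit 6))
    (@En.n l32242 (nat_lit 12015) (nat_lit 6) (nat_lit 7))
    (@En.n l619 (nat_lit 10315) (nat_lit 6) (nat_lit 10))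
    (@En.i (nat_lit 10023) (nat_lit 9) (nat_lit 11))
    (@En.n l16335 (nat_lit 9541) (nat_lit 9) (nat_lit 3))
    (@En.i (nat_lit 11440) (nat_lit 0) (nat_lit 6))
    (@En.n l43579 (nat_lit 9883) (nat_lit 12) (nat_lit 10))
    (@En.n l50 (nat_lit 8457) (nat_lit 13) (nat_lit 13))
    (@En.n l43580 (nat_lit 11300) (nat_lit 9) (nat_lit 9))
    (@En.n l27010 (nat_lit 7042) (nat_lit 12) (nat_lit 6))
    (@En.n l5200 (nat_lit 9546) (nat_lit 15) (nat_lit 3))))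
  (@Cl.mk (nat_lit 0x30006000d0009000d000300070003000c000b0007000a0004000d00050009) (nat_lit 0x77900094030405) (nat_lit 16) Lb.e (@T16.mk En
    (@En.n l1897 (nat_lit 11412) (nat_lit 0) (nat_lit 9))
    (@En.n l14808 (nat_lit 7956) (nat_lit 6) (nat_lit 5))
    (@En.n l9591 (nat_lit 9549) (nat_lit 8) (nat_lit 13))
    (@En.n l152 (nat_lit 9556) (nat_lit 8) (nat_lit 4))
    (@En.n l1897 (nat_lit 4284) (nat_lit 8) (nat_lit 10))
    (@En.i (nat_lit 11991) (nat_lit 5) (nat_lit 7))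
    (@En.n l619 (nat_lit 10314) (nat_lit 12) (nat_lit 11))
    (@En.i (nat_lit 10028) (nat_lit 13) (nat_lit 12))
    (@En.n l1063 (nat_lit 9539) (nat_lit 8) (nat_lit 3))
    (@En.i (nat_lit 11437) (nat_lit 0) (nat_lit 7))
    (@En.n l11217 (nat_lit 9551) (nat_lit 10) (nat_lit 3))
    (@En.i (nat_lit 6333) (nat_lit 0) (nat_lit 13))
    (@En.i (nat_lit 9547) (nat_lit 13) (nat_lit 9))
    (@En.n l396 (nat_lit 10185) (nat_lit 2) (nat_lit 13))
    (@En.n l27010 (nat_lit 7044) (nat_lit 12) (nat_lit 6))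
    (@En.n l5200 (nat_lit 9550) (nat_lit 15) (nat_lit 3))))
  (@Cl.mk (nat_lit 0x3000800030008000c0007000a000d00040008000300080006000d0009000d) (nat_lit 0x2303300050874) (nat_lit 16) Lb.e (@T16.mk En
    (@En.n l21433 (nat_lit 6327) (nat_lit 0) (nat_lit 13))
    (@En.i (nat_lit 9545) (nat_lit 3) (nat_lit 9))
    (@En.n l9882 (nat_lit 10706) (nat_lit 13) (nat_lit 13))
    (@En.n l21433 (nat_lit 9548) (nat_lit 14) (nat_lit 6))
    (@En.n l8361 (nat_lit 7102) (nat_lit 4) (nat_lit 8))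
    (@En.n l5014 (nat_lit 8842) (nat_lit 15) (nat_lit 3))
    (@En.n l1867 (nat_lit 11416) (nat_lit 0) (nat_lit 8))
    (@En.n l17509 (nat_lit 8835) (nat_lit 7) (nat_lit 4))
    (@En.n l22197 (nat_lit 4711) (nat_lit 5) (nat_lit 13))
    (@En.i (nat_lit 4285) (nat_lit 8) (nat_lit 10))
    (@En.i (nat_lit 11951) (nat_lit 4) (nat_lit 7))
    (@En.n l24510 (nat_lit 8619) (nat_lit 7) (nat_lit 12))
    (@En.n l32411 (nat_lit 4248) (nat_lit 6) (nat_lit 8))
    (@En.n l39435 (nat_lit 9538) (nat_lit 7) (nat_lit 3))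
    (@En.i (nat_lit 11439) (nat_lit 0) (nat_lit 8))
    (@En.n l17634 (nat_lit 9553) (nat_lit 15) (nat_lit 3))))
  (@Cl.mk (nat_lit 0x30006000d0009000d000300080003000c000a0007000a0004000d00080006) (nat_lit 0x47902075030350) (nat_lit 16) Lb.e (@T16.mk En
    (@En.n l1927 (nat_lit 912) (nat_lit 0) (nat_lit 6))
    (@En.n l5854 (nat_lit 10497) (nat_lit 6) (nat_lit 8))
    (@En.n l397 (nat_lit 8842) (nat_lit 2) (nat_lit 13))
    (@En.n l24819 (nat_lit 10443) (nat_lit 8) (nat_lit 4))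
    (@En.i (nat_lit 4286) (nat_lit 8) (nat_lit 10))
    (@En.n l8150 (nat_lit 11628) (nat_lit 5) (nat_lit 7))
    (@En.n l6064 (nat_lit 7855) (nat_lit 12) (nat_lit 10))
    (@En.i (nat_lit 10563) (nat_lit 8) (nat_lit 12))
    (@En.i (nat_lit 9540) (nat_lit 8) (nat_lit 3))
    (@En.n l5854 (nat_lit 10902) (nat_lit 0) (nat_lit 8))
    (@En.n l117 (nat_lit 9552) (nat_lit 10) (nat_lit 3))
    (@En.n l24820 (nat_lit 6332) (nat_lit 0) (nat_lit 13))
    (@En.i (nat_lit 9546) (nat_lit 13) (nat_lit 9))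
    (@En.n l22071 (nat_lit 10183) (nat_lit 2) (nat_lit 13))
    (@En.n l13301 (nat_lit 7953) (nat_lit 12) (nat_lit 6))
    (@En.n l3348 (nat_lit 9548) (nat_lit 15) (nat_lit 3))))
  (@Cl.mk (nat_lit 0x30006000d000c000a000300070004000c000b0006000a0004000d00050009) (nat_lit 0x74800095030205) (nat_lit 16) Lb.e (@T16.mk En
    (@En.n l16496 (nat_lit 11413) (nat_lit 0) (nat_lit 9))
    (@En.n l24943 (nat_lit 7958) (nat_lit 6) (nat_lit 5))
    (@En.n l17196 (nat_lit 9553) (nat_lit 8) (nat_lit 13))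
    (@En.i (nat_lit 9555) (nat_lit 8) (nat_lit 4))
    (@En.n l20138 (nat_lit 4279) (nat_lit 9) (nat_lit 10))
    (@En.n l20138 (nat_lit 12023) (nat_lit 5) (nat_lit 6))
    (@En.n l77 (nat_lit 8614) (nat_lit 12) (nat_lit 11))
    (@En.i (nat_lit 10032) (nat_lit 13) (nat_lit 12))
    (@En.n l38109 (nat_lit 9537) (nat_lit 8) (nat_lit 4))
    (@En.n l16988 (nat_lit 10576) (nat_lit 0) (nat_lit 7))
    (@En.n l14014 (nat_lit 9548) (nat_lit 10) (nat_lit 3))
    (@En.n l10734 (nat_lit 9882) (nat_lit 0) (nat_lit 10))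
    (@En.n l38110 (nat_lit 9539) (nat_lit 13) (nat_lit 12))
    (@En.n l38111 (nat_lit 10186) (nat_lit 2) (nat_lit 13))
    (@En.n l6042 (nat_lit 7045) (nat_lit 12) (nat_lit 6))
    (@En.n l19799 (nat_lit 9552) (nat_lit 15) (nat_lit 3))))
noncomputable def a597 : T16 Cl := @T16.mk Cl
  (@Cl.mk (nat_lit 0x30006000d000c000a000300080004000c000a0006000a0004000d00080006) (nat_lit 0x45203076030200) (nat_lit 16) Lb.e (@T16.mk En
    (@En.n l1927 (nat_lit 910) (nat_lit 0) (nat_lit 6))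
    (@En.n l25875 (nat_lit 10496) (nat_lit 6) (nat_lit 8))
    (@En.n l397 (nat_lit 9554) (nat_lit 2) (nat_lit 13))
    (@En.n l35541 (nat_lit 9557) (nat_lit 8) (nat_lit 4))
    (@En.i (nat_lit 4277) (nat_lit 9) (nat_lit 10))
    (@En.n l18831 (nat_lit 10410) (nat_lit 5) (nat_lit 6))
    (@En.n l6064 (nat_lit 7754) (nat_lit 12) (nat_lit 10))
    (@En.n l35542 (nat_lit 10562) (nat_lit 8) (nat_lit 12))
    (@En.n l14046 (nat_lit 7358) (nat_lit 8) (nat_lit 4))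
    (@En.n l18830 (nat_lit 10571) (nat_lit 0) (nat_lit 8))
    (@En.n l152 (nat_lit 9550) (nat_lit 10) (nat_lit 3))
    (@En.n l35543 (nat_lit 9880) (nat_lit 0) (nat_lit 10))
    (@En.n l619 (nat_lit 9540) (nat_lit 13) (nat_lit 12))
    (@En.n l627 (nat_lit 10184) (nat_lit 2) (nat_lit 13))
    (@En.n l35094 (nat_lit 7952) (nat_lit 12) (nat_lit 6))
    (@En.n l11361 (nat_lit 9551) (nat_lit 15) (nat_lit 3))))
  (@Cl.mk (nat_lit 0x3000800040008000c0006000a000d00040008000300080006000d000c000a) (nat_lit 0x2502100050758) (nat_lit 16) Lb.e (@T16.mk En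
    (@En.i (nat_lit 9881) (nat_lit 0) (nat_lit 10))
    (@En.n l34167 (nat_lit 9538) (nat_lit 12) (nat_lit 12))
    (@En.n l9167 (nat_lit 10707) (nat_lit 13) (nat_lit 13))
    (@En.n l33186 (nat_lit 9551) (nat_lit 14) (nat_lit 6))
    (@En.n l30816 (nat_lit 7103) (nat_lit 4) (nat_lit 8))
    (@En.n l8820 (nat_lit 9554) (nat_lit 15) (nat_lit 3))
    (@En.n l3496 (nat_lit 11417) (nat_lit 0) (nat_lit 8))
    (@En.n l22614 (nat_lit 8836) (nat_lit 7) (nat_lit 4))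
    (@En.i (nat_lit 4713) (nat_lit 5) (nat_lit 13))
    (@En.n l29720 (nat_lit 4276) (nat_lit 9) (nat_lit 10))
    (@En.n l2678 (nat_lit 12024) (nat_lit 4) (nat_lit 6))
    (@En.n l3815 (nat_lit 8612) (nat_lit 7) (nat_lit 12))
    (@En.n l30818 (nat_lit 4247) (nat_lit 6) (nat_lit 8))
    (@En.n l2678 (nat_lit 9536) (nat_lit 7) (nat_lit 4))
    (@En.i (nat_lit 10573) (nat_lit 0) (nat_lit 8))
    (@En.n l745 (nat_lit 9549) (nat_lit 15) (nat_lit 3))))
  (@Cl.mk (nat_lit 0x300080006000d000c000a0003000900040008000b0006000a000d00070005) (nat_lit 0x505620302602100) (nat_lit 16) Lb.e (@T16.mk En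
    (@En.n l7 (nat_lit 909) (nat_lit 0) (nat_lit 5))
    (@En.n l7910 (nat_lit 10510) (nat_lit 7) (nat_lit 7))
    (@En.n l10976 (nat_lit 4709) (nat_lit 5) (nat_lit 13))
    (@En.i (nat_lit 4274) (nat_lit 9) (nat_lit 10))
    (@En.n l396 (nat_lit 10407) (nat_lit 4) (nat_lit 6))
    (@En.i (nat_lit 7762) (nat_lit 7) (nat_lit 11))
    (@En.n l12128 (nat_lit 4307) (nat_lit 6) (nat_lit 8))
    (@En.n l12396 (nat_lit 7359) (nat_lit 7) (nat_lit 4))
    (@En.n l18240 (nat_lit 10570) (nat_lit 0) (nat_lit 9))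
    (@En.n l152 (nat_lit 8842) (nat_lit 9) (nat_lit 3))
    (@En.n l4536 (nat_lit 7191) (nat_lit 0) (nat_lit 10))
    (@En.n l619 (nat_lit 8843) (nat_lit 12) (nat_lit 12))
    (@En.n l38152 (nat_lit 10311) (nat_lit 13) (nat_lit 13))
    (@En.n l13384 (nat_lit 9552) (nat_lit 14) (nat_lit 6))
    (@En.n l6204 (nat_lit 8836) (nat_lit 4) (nat_lit 8))
    (@En.n l18241 (nat_lit 9553) (nat_lit 5) (nat_lit 3))))
  (@Cl.mk (nat_lit 0x300070004000c0008000c00070004000d0004000900030008000d000c0009) (nat_lit 0x3390030004645) (nat_lit 16) Lb.e (@T16.mk En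
    (@En.n l17192 (nat_lit 9885) (nat_lit 0) (nat_lit 9))
    (@En.n l1236 (nat_lit 10445) (nat_lit 13) (nat_lit 12))
    (@En.n l34051 (nat_lit 9199) (nat_lit 2) (nat_lit 13))
    (@En.n l7409 (nat_lit 8655) (nat_lit 3) (nat_lit 8))
    (@En.n l17194 (nat_lit 9557) (nat_lit 4) (nat_lit 3))
    (@En.n l16496 (nat_lit 11012) (nat_lit 0) (nat_lit 9))
    (@En.n l28 (nat_lit 10440) (nat_lit 6) (nat_lit 4))
    (@En.n l17196 (nat_lit 10454) (nat_lit 0) (nat_lit 13))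
    (@En.n l28 (nat_lit 8613) (nat_lit 8) (nat_lit 4))
    (@En.n l26980 (nat_lit 12022) (nat_lit 4) (nat_lit 7))
    (@En.i (nat_lit 10166) (nat_lit 11) (nat_lit 12))
    (@En.n l24739 (nat_lit 9553) (nat_lit 12) (nat_lit 8))
    (@En.i (nat_lit 10033) (nat_lit 13) (nat_lit 12))
    (@En.n l345 (nat_lit 7302) (nat_lit 8) (nat_lit 4))
    (@En.i (nat_lit 10846) (nat_lit 0) (nat_lit 7))
    (@En.n l12849 (nat_lit 9556) (nat_lit 15) (nat_lit 3))))
  (@Cl.mk (nat_lit 0x300070003000c0008000c00080004000d0004000900030008000d0008000d) (nat_lit 0x739001000470b) (nat_lit 16) Lb.e (@T16.mk En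
    (@En.n l3 (nat_lit 6323) (nat_lit 0) (nat_lit 13))
    (@En.i (nat_lit 10721) (nat_lit 13) (nat_lit 8))
    (@En.n l4592 (nat_lit 9200) (nat_lit 2) (nat_lit 13))
    (@En.n l3549 (nat_lit 8654) (nat_lit 3) (nat_lit 8))
    (@En.n l11321 (nat_lit 10443) (nat_lit 4) (nat_lit 3))
    (@En.n l2571 (nat_lit 11408) (nat_lit 0) (nat_lit 9))
    (@En.n l22673 (nat_lit 10441) (nat_lit 6) (nat_lit 4))
    (@En.n l11028 (nat_lit 77) (nat_lit 0) (nat_lit 13))
    (@En.i (nat_lit 8618) (nat_lit 8) (nat_lit 4))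
    (@En.i (nat_lit 11627) (nat_lit 4) (nat_lit 8))
    (@En.n l24928 (nat_lit 10167) (nat_lit 11) (nat_lit 12))
    (@En.n l253 (nat_lit 9549) (nat_lit 12) (nat_lit 8))
    (@En.i (nat_lit 10732) (nat_lit 13) (nat_lit 12))
    (@En.n l39604 (nat_lit 10445) (nat_lit 8) (nat_lit 3))
    (@En.i (nat_lit 11434) (nat_lit 0) (nat_lit 7))
    (@En.n l11319 (nat_lit 9555) (nat_lit 15) (nat_lit 3))))
  (@Cl.mk (nat_lit 0x300080004000c0008000b00070004000d0008000500030008000d000c0009) (nat_lit 0x2380020004655) (nat_lit 16) Lb.e (@T16.mk En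
    (@En.n l55 (nat_lit 9886) (nat_lit 0) (nat_lit 9))
    (@En.n l32288 (nat_lit 10444) (nat_lit 13) (nat_lit 12))
    (@En.n l26668 (nat_lit 9201) (nat_lit 2) (nat_lit 13))
    (@En.n l32814 (nat_lit 10440) (nat_lit 3) (nat_lit 8))
    (@En.n l18738 (nat_lit 9555) (nat_lit 4) (nat_lit 3))
    (@En.n l32815 (nat_lit 3127) (nat_lit 0) (nat_lit 5))
    (@En.n l26887 (nat_lit 9945) (nat_lit 6) (nat_lit 8))
    (@En.n l32816 (nat_lit 4525) (nat_lit 2) (nat_lit 13))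
    (@En.n l32817 (nat_lit 8612) (nat_lit 3) (nat_lit 4))
    (@En.i (nat_lit 10960) (nat_lit 4) (nat_lit 7))
    (@En.n l26887 (nat_lit 7771) (nat_lit 7) (nat_lit 11))
    (@En.n l32818 (nat_lit 9554) (nat_lit 6) (nat_lit 8))
    (@En.n l32819 (nat_lit 10030) (nat_lit 13) (nat_lit 12))
    (@En.i (nat_lit 7299) (nat_lit 8) (nat_lit 4))
    (@En.n l32286 (nat_lit 10917) (nat_lit 0) (nat_lit 8))
    (@En.n l17142 (nat_lit 10443) (nat_lit 15) (nat_lit 3))))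
  (@Cl.mk (nat_lit 0x20009000c000a0005000a0004000b00070006000d000600050003000e000b) (nat_lit 0x475080500700029) (nat_lit 16) Lb.e (@T16.mk En
    (@En.n l22591 (nat_lit 9269) (nat_lit 14) (nat_lit 11))
    (@En.n l1455 (nat_lit 11492) (nat_lit 1) (nat_lit 14))
    (@En.n l7 (nat_lit 9561) (nat_lit 2) (nat_lit 3))
    (@En.n l1362 (nat_lit 8215) (nat_lit 3) (nat_lit 5))
    (@En.i (nat_lit 9507) (nat_lit 4) (nat_lit 6))
    (@En.n l22592 (nat_lit 7000) (nat_lit 6) (nat_lit 13))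
    (@En.i (nat_lit 6689) (nat_lit 6) (nat_lit 6))
    (@En.n l17439 (nat_lit 9559) (nat_lit 7) (nat_lit 7))
    (@En.n l2815 (nat_lit 9254) (nat_lit 9) (nat_lit 11))
    (@En.n l3536 (nat_lit 9262) (nat_lit 9) (nat_lit 4))
    (@En.n l12094 (nat_lit 8584) (nat_lit 11) (nat_lit 10))
    (@En.n l22592 (nat_lit 6217) (nat_lit 12) (nat_lit 5))
    (@En.n l68 (nat_lit 2552) (nat_lit 13) (nat_lit 10))
    (@En.n l3866 (nat_lit 8844) (nat_lit 6) (nat_lit 12))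
    (@En.n l22593 (nat_lit 9431) (nat_lit 12) (nat_lit 9))
    (@En.n l18 (nat_lit 9558) (nat_lit 15) (nat_lit 2))))
  (@Cl.mk (nat_lit 0x200090006000c000b0006000b000400070005000d0005000a0003000e000a) (nat_lit 0x408409000604028) (nat_lit 16) Lb.e (@T16.mk En
    (@En.i (nat_lit 9270) (nat_lit 14) (nat_lit 10))
    (@En.n l16718 (nat_lit 11494) (nat_lit 1) (nat_lit 14))
    (@En.n l30114 (nat_lit 9560) (nat_lit 2) (nat_lit 3))
    (@En.n l17034 (nat_lit 8967) (nat_lit 3) (nat_lit 10))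
    (@En.i (nat_lit 9508) (nat_lit 4) (nat_lit 5))
    (@En.n l11315 (nat_lit 6484) (nat_lit 6) (nat_lit 13))
    (@En.n l4542 (nat_lit 6595) (nat_lit 6) (nat_lit 5))
    (@En.i (nat_lit 11014) (nat_lit 7) (nat_lit 7))
    (@En.n l16718 (nat_lit 8819) (nat_lit 8) (nat_lit 4))
    (@En.i (nat_lit 8583) (nat_lit 10) (nat_lit 11))
    (@En.n l11315 (nat_lit 6214) (nat_lit 1) (nat_lit 6))
    (@En.n l19609 (nat_lit 9416) (nat_lit 12) (nat_lit 11))
    (@En.n l4542 (nat_lit 9558) (nat_lit 13) (nat_lit 12))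
    (@En.n l17034 (nat_lit 9563) (nat_lit 14) (nat_lit 6))
    (@En.n l16718 (nat_lit 8793) (nat_lit 12) (nat_lit 9))
    (@En.n l50 (nat_lit 9559) (nat_lit 15) (nat_lit 2))))
  (@Cl.mk (nat_lit 0x200090007000c000b0006000a000400070005000d000900060003000e000a) (nat_lit 0x504404000650018) (nat_lit 16) Lb.e (@T16.mk En
    (@En.n l19841 (nat_lit 9273) (nat_lit 14) (nat_lit 10))
    (@En.n l9715 (nat_lit 4934) (nat_lit 1) (nat_lit 14))
    (@En.n l17439 (nat_lit 9559) (nat_lit 2) (nat_lit 3))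
    (@En.n l35363 (nat_lit 4958) (nat_lit 3) (nat_lit 6))
    (@En.n l26998 (nat_lit 9568) (nat_lit 4) (nat_lit 9))
    (@En.n l12290 (nat_lit 6483) (nat_lit 6) (nat_lit 13))
    (@En.n l936 (nat_lit 6599) (nat_lit 6) (nat_lit 5))
    (@En.n l35364 (nat_lit 11015) (nat_lit 7) (nat_lit 7))
    (@En.n l3536 (nat_lit 9350) (nat_lit 8) (nat_lit 4))
    (@En.n l35363 (nat_lit 4503) (nat_lit 10) (nat_lit 10))
    (@En.n l12290 (nat_lit 6119) (nat_lit 1) (nat_lit 6))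
    (@En.n l3013 (nat_lit 9417) (nat_lit 12) (nat_lit 11))
    (@En.n l936 (nat_lit 9561) (nat_lit 13) (nat_lit 12))
    (@En.i (nat_lit 9562) (nat_lit 14) (nat_lit 7))
    (@En.n l9715 (nat_lit 9691) (nat_lit 12) (nat_lit 9))
    (@En.n l18 (nat_lit 9560) (nat_lit 15) (nat_lit 2))))
  (@Cl.mk (nat_lit 0x20009000c000a000500090004000c00070006000d000400070003000e000b) (nat_lit 0x533030900700059) (nat_lit 16) Lb.e (@T16.mk En
    (@En.n l19841 (nat_lit 9274) (nat_lit 14) (nat_lit 11))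
    (@En.i (nat_lit 4933) (nat_lit 1) (nat_lit 14))
    (@En.i (nat_lit 9558) (nat_lit 2) (nat_lit 3))
    (@En.n l1106 (nat_lit 4961) (nat_lit 11) (nat_lit 7))
    (@En.n l1236 (nat_lit 9485) (nat_lit 4) (nat_lit 4))
    (@En.n l12290 (nat_lit 7007) (nat_lit 6) (nat_lit 13))
    (@En.i (nat_lit 6688) (nat_lit 6) (nat_lit 6))
    (@En.i (nat_lit 9560) (nat_lit 7) (nat_lit 7))
    (@En.n l22670 (nat_lit 9521) (nat_lit 9) (nat_lit 12))
    (@En.n l3536 (nat_lit 9349) (nat_lit 9) (nat_lit 4))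
    (@En.n l1106 (nat_lit 4501) (nat_lit 11) (nat_lit 9))
    (@En.n l12290 (nat_lit 6121) (nat_lit 12) (nat_lit 5))
    (@En.n l68 (nat_lit 2780) (nat_lit 13) (nat_lit 10))
    (@En.n l3866 (nat_lit 8845) (nat_lit 6) (nat_lit 12))
    (@En.i (nat_lit 9692) (nat_lit 12) (nat_lit 9))
    (@En.n l18 (nat_lit 9561) (nat_lit 15) (nat_lit 2))))
  (@Cl.mk (nat_lit 0x20007000c000b000500090004000c0005000c0009000400070004000e000b) (nat_lit 0x94030a08500019) (nat_lit 16) Lb.e (@T16.mk En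
    (@En.n l22599 (nat_lit 9469) (nat_lit 12) (nat_lit 11))
    (@En.n l9715 (nat_lit 5243) (nat_lit 1) (nat_lit 14))
    (@En.n l22600 (nat_lit 9563) (nat_lit 2) (nat_lit 4))
    (@En.n l22601 (nat_lit 8074) (nat_lit 3) (nat_lit 7))
    (@En.i (nat_lit 9561) (nat_lit 4) (nat_lit 4))
    (@En.n l22602 (nat_lit 8078) (nat_lit 5) (nat_lit 9))
    (@En.n l17240 (nat_lit 7008) (nat_lit 7) (nat_lit 12))
    (@En.i (nat_lit 9503) (nat_lit 7) (nat_lit 5))
    (@En.n l22603 (nat_lit 9564) (nat_lit 9) (nat_lit 12))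
    (@En.n l833 (nat_lit 9352) (nat_lit 9) (nat_lit 4))
    (@En.n l1106 (nat_lit 3012) (nat_lit 11) (nat_lit 9))
    (@En.n l17240 (nat_lit 10514) (nat_lit 12) (nat_lit 5))
    (@En.n l22601 (nat_lit 9572) (nat_lit 13) (nat_lit 11))
    (@En.n l2824 (nat_lit 8847) (nat_lit 14) (nat_lit 12))
    (@En.n l9715 (nat_lit 9710) (nat_lit 2) (nat_lit 7))
    (@En.n l18 (nat_lit 9562) (nat_lit 15) (nat_lit 2))))
  (@Cl.mk (nat_lit 0x20006000c000b0005000b0004000b0005000c0005000a00050004000e000b) (nat_lit 0x84020306060035) (nat_lit 16) Lb.e (@T16.mk En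
    (@En.n l20254 (nat_lit 9459) (nat_lit 14) (nat_lit 11))
    (@En.n l5004 (nat_lit 9569) (nat_lit 1) (nat_lit 14))
    (@En.n l20255 (nat_lit 8077) (nat_lit 2) (nat_lit 4))
    (@En.n l20256 (nat_lit 9558) (nat_lit 3) (nat_lit 5))
    (@En.i (nat_lit 8084) (nat_lit 4) (nat_lit 10))
    (@En.n l20257 (nat_lit 9565) (nat_lit 5) (nat_lit 5))
    (@En.n l16451 (nat_lit 7003) (nat_lit 7) (nat_lit 12))
    (@En.n l20258 (nat_lit 9388) (nat_lit 7) (nat_lit 5))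
    (@En.n l3540 (nat_lit 9361) (nat_lit 9) (nat_lit 11))
    (@En.n l1577 (nat_lit 9607) (nat_lit 9) (nat_lit 4))
    (@En.n l20259 (nat_lit 2315) (nat_lit 11) (nat_lit 11))
    (@En.n l16451 (nat_lit 10061) (nat_lit 12) (nat_lit 5))
    (@En.n l457 (nat_lit 8125) (nat_lit 13) (nat_lit 11))
    (@En.n l20260 (nat_lit 7368) (nat_lit 14) (nat_lit 12))
    (@En.n l117 (nat_lit 9707) (nat_lit 13) (nat_lit 6))
    (@En.n l3 (nat_lit 9563) (nat_lit 15) (nat_lit 2))))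
  (@Cl.mk (nat_lit 0x200080007000c00050009000c0004000b00080004000900070005000e000b) (nat_lit 0x404019074060014) (nat_lit 16) Lb.e (@T16.mk En
    (@En.n l601 (nat_lit 9468) (nat_lit 11) (nat_lit 11))
    (@En.n l17405 (nat_lit 5264) (nat_lit 1) (nat_lit 14))
    (@En.n l38100 (nat_lit 9361) (nat_lit 2) (nat_lit 5))
    (@En.n l13195 (nat_lit 9562) (nat_lit 3) (nat_lit 7))
    (@En.n l38101 (nat_lit 11056) (nat_lit 4) (nat_lit 9))
    (@En.n l17 (nat_lit 9521) (nat_lit 5) (nat_lit 4))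
    (@En.n l6918 (nat_lit 9529) (nat_lit 6) (nat_lit 8))
    (@En.n l8551 (nat_lit 7009) (nat_lit 8) (nat_lit 11))
    (@En.i (nat_lit 9487) (nat_lit 8) (nat_lit 4))
    (@En.n l9857 (nat_lit 11519) (nat_lit 6) (nat_lit 12))
    (@En.i (nat_lit 1323) (nat_lit 11) (nat_lit 9))
    (@En.n l38102 (nat_lit 10510) (nat_lit 12) (nat_lit 5))
    (@En.i (nat_lit 9574) (nat_lit 13) (nat_lit 12))
    (@En.n l6918 (nat_lit 7357) (nat_lit 14) (nat_lit 7))
    (@En.n l36171 (nat_lit 9811) (nat_lit 2) (nat_lit 8))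
    (@En.n l7 (nat_lit 9564) (nat_lit 15) (nat_lit 2))))
  (@Cl.mk (nat_lit 0x20006000b000a0005000b00090005000c00060005000a00040007000e000b) (nat_lit 0x14014050060038) (nat_lit 16) Lb.e (@T16.mk En
    (@En.n l17408 (nat_lit 9463) (nat_lit 13) (nat_lit 11))
    (@En.n l17409 (nat_lit 11159) (nat_lit 1) (nat_lit 14))
    (@En.n l9909 (nat_lit 7174) (nat_lit 2) (nat_lit 7))
    (@En.n l14769 (nat_lit 9507) (nat_lit 3) (nat_lit 4))
    (@En.n l97 (nat_lit 9882) (nat_lit 4) (nat_lit 10))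
    (@En.n l17410 (nat_lit 11525) (nat_lit 5) (nat_lit 5))
    (@En.n l14769 (nat_lit 9384) (nat_lit 6) (nat_lit 6))
    (@En.n l17411 (nat_lit 9566) (nat_lit 8) (nat_lit 12))
    (@En.n l17412 (nat_lit 9567) (nat_lit 8) (nat_lit 5))
    (@En.n l14769 (nat_lit 9562) (nat_lit 10) (nat_lit 9))
    (@En.n l17413 (nat_lit 6671) (nat_lit 11) (nat_lit 11))
    (@En.n l17414 (nat_lit 9943) (nat_lit 12) (nat_lit 5))
    (@En.n l9909 (nat_lit 8123) (nat_lit 13) (nat_lit 10))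
    (@En.n l13782 (nat_lit 8712) (nat_lit 14) (nat_lit 11))
    (@En.i (nat_lit 11868) (nat_lit 13) (nat_lit 6))
    (@En.n l107 (nat_lit 9565) (nat_lit 15) (nat_lit 2))))
  (@Cl.mk (nat_lit 0x200070006000b0005000c0009000c0005000400090004000a0007000e000b) (nat_lit 0x4012400505043) (nat_lit 16) Lb.e (@T16.mk En
    (@En.n l32926 (nat_lit 9464) (nat_lit 10) (nat_lit 11))
    (@En.n l11805 (nat_lit 11583) (nat_lit 1) (nat_lit 14))
    (@En.n l32927 (nat_lit 9565) (nat_lit 2) (nat_lit 7))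
    (@En.n l32928 (nat_lit 11556) (nat_lit 3) (nat_lit 10))
    (@En.n l32929 (nat_lit 9506) (nat_lit 4) (nat_lit 4))
    (@En.n l32930 (nat_lit 9881) (nat_lit 5) (nat_lit 9))
    (@En.i (nat_lit 11524) (nat_lit 6) (nat_lit 4))
    (@En.n l32929 (nat_lit 9868) (nat_lit 7) (nat_lit 5))
    (@En.n l6904 (nat_lit 9099) (nat_lit 9) (nat_lit 12))
    (@En.n l8558 (nat_lit 9564) (nat_lit 10) (nat_lit 9))
    (@En.n l32931 (nat_lit 6673) (nat_lit 11) (nat_lit 12))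
    (@En.n l6909 (nat_lit 9945) (nat_lit 12) (nat_lit 5))
    (@En.n l8558 (nat_lit 8124) (nat_lit 13) (nat_lit 11))
    (@En.i (nat_lit 10610) (nat_lit 14) (nat_lit 6))
    (@En.n l18372 (nat_lit 11783) (nat_lit 7) (nat_lit 7))
    (@En.n l3 (nat_lit 9566) (nat_lit 15) (nat_lit 2))))
  (@Cl.mk (nat_lit 0x20006000b0006000b0006000c0005000c00050004000a0004000a000e000a) (nat_lit 0x40503040050535) (nat_lit 16) Lb.e (@T16.mk En
    (@En.n l8552 (nat_lit 9454) (nat_lit 11) (nat_lit 10))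
    (@En.n l29746 (nat_lit 11616) (nat_lit 1) (nat_lit 14))
    (@En.n l2188 (nat_lit 7661) (nat_lit 2) (nat_lit 10))
    (@En.n l29747 (nat_lit 9509) (nat_lit 3) (nat_lit 4))
    (@En.n l29748 (nat_lit 9885) (nat_lit 4) (nat_lit 10))
    (@En.i (nat_lit 11528) (nat_lit 5) (nat_lit 4))
    (@En.n l29749 (nat_lit 9604) (nat_lit 6) (nat_lit 5))
    (@En.n l4380 (nat_lit 9098) (nat_lit 8) (nat_lit 12))
    (@En.n l29750 (nat_lit 9606) (nat_lit 8) (nat_lit 5))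
    (@En.n l29746 (nat_lit 6878) (nat_lit 10) (nat_lit 12))
    (@En.n l29751 (nat_lit 9958) (nat_lit 11) (nat_lit 6))
    (@En.n l8554 (nat_lit 9563) (nat_lit 12) (nat_lit 11))
    (@En.n l24012 (nat_lit 9566) (nat_lit 13) (nat_lit 6))
    (@En.n l8555 (nat_lit 8707) (nat_lit 14) (nat_lit 11))
    (@En.n l15677 (nat_lit 11883) (nat_lit 13) (nat_lit 6))
    (@En.n l3 (nat_lit 9567) (nat_lit 15) (nat_lit 2))))
noncomputable def a598 : T16 Cl := @T16.mk Cl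
  (@Cl.mk (nat_lit 0x2000800070006000c000b0007000b00040008000500090005000a000e0009) (nat_lit 0x500650302040611) (nat_lit 16) Lb.e (@T16.mk En
    (@En.n l27152 (nat_lit 9374) (nat_lit 9) (nat_lit 9))
    (@En.n l27153 (nat_lit 2890) (nat_lit 1) (nat_lit 14))
    (@En.n l27154 (nat_lit 9097) (nat_lit 2) (nat_lit 10))
    (@En.n l27155 (nat_lit 9511) (nat_lit 3) (nat_lit 5))
    (@En.n l27156 (nat_lit 9929) (nat_lit 4) (nat_lit 9))
    (@En.n l19709 (nat_lit 6841) (nat_lit 5) (nat_lit 5))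
    (@En.n l6574 (nat_lit 9631) (nat_lit 6) (nat_lit 8))
    (@En.n l27157 (nat_lit 9633) (nat_lit 7) (nat_lit 4))
    (@En.i (nat_lit 6185) (nat_lit 9) (nat_lit 11))
    (@En.n l27158 (nat_lit 10730) (nat_lit 1) (nat_lit 7))
    (@En.n l27159 (nat_lit 9852) (nat_lit 11) (nat_lit 11))
    (@En.n l27160 (nat_lit 9487) (nat_lit 12) (nat_lit 12))
    (@En.i (nat_lit 9559) (nat_lit 13) (nat_lit 6))
    (@En.n l27161 (nat_lit 8078) (nat_lit 14) (nat_lit 7))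
    (@En.n l27162 (nat_lit 10650) (nat_lit 6) (nat_lit 8))
    (@En.n l50 (nat_lit 9568) (nat_lit 15) (nat_lit 2))))
  (@Cl.mk (nat_lit 0x200070006000c000b0006000b0004000b000500090005000a0005000e000a) (nat_lit 0x1404060401020) (nat_lit 16) Lb.e (@T16.mk En
    (@En.i (nat_lit 10278) (nat_lit 14) (nat_lit 10))
    (@En.n l9103 (nat_lit 9568) (nat_lit 1) (nat_lit 14))
    (@En.n l35769 (nat_lit 11492) (nat_lit 2) (nat_lit 5))
    (@En.n l35770 (nat_lit 5308) (nat_lit 3) (nat_lit 10))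
    (@En.n l28080 (nat_lit 11159) (nat_lit 4) (nat_lit 5))
    (@En.n l18212 (nat_lit 11408) (nat_lit 5) (nat_lit 9))
    (@En.n l35771 (nat_lit 6446) (nat_lit 6) (nat_lit 5))
    (@En.n l35772 (nat_lit 11039) (nat_lit 8) (nat_lit 11))
    (@En.i (nat_lit 11622) (nat_lit 8) (nat_lit 4))
    (@En.n l35773 (nat_lit 8917) (nat_lit 10) (nat_lit 11))
    (@En.n l18212 (nat_lit 10069) (nat_lit 11) (nat_lit 6))
    (@En.n l55 (nat_lit 8001) (nat_lit 12) (nat_lit 11))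
    (@En.n l35774 (nat_lit 8292) (nat_lit 13) (nat_lit 12))
    (@En.i (nat_lit 10856) (nat_lit 14) (nat_lit 6))
    (@En.n l2869 (nat_lit 9570) (nat_lit 5) (nat_lit 7))
    (@En.n l3 (nat_lit 9569) (nat_lit 15) (nat_lit 2))))
  (@Cl.mk (nat_lit 0x4000a00050009000c0006000b00060004000b00070005000c000b0005000a) (nat_lit 0x3703007008002) (nat_lit 16) Lb.e (@T16.mk En
    (@En.n l5745 (nat_lit 10074) (nat_lit 0) (nat_lit 10))
    (@En.n l43435 (nat_lit 9375) (nat_lit 1) (nat_lit 5))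
    (@En.n l43436 (nat_lit 10084) (nat_lit 5) (nat_lit 11))
    (@En.n l43437 (nat_lit 11739) (nat_lit 1) (nat_lit 12))
    (@En.n l1769 (nat_lit 9714) (nat_lit 11) (nat_lit 5))
    (@En.n l31062 (nat_lit 9715) (nat_lit 14) (nat_lit 7))
    (@En.n l37208 (nat_lit 10858) (nat_lit 1) (nat_lit 11))
    (@En.n l13561 (nat_lit 9701) (nat_lit 12) (nat_lit 4))
    (@En.n l22927 (nat_lit 9075) (nat_lit 0) (nat_lit 6))
    (@En.n l5386 (nat_lit 8544) (nat_lit 1) (nat_lit 11))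
    (@En.n l619 (nat_lit 9713) (nat_lit 1) (nat_lit 6))
    (@En.n l32851 (nat_lit 9563) (nat_lit 6) (nat_lit 12))
    (@En.n l42804 (nat_lit 11882) (nat_lit 10) (nat_lit 9))
    (@En.n l5745 (nat_lit 9468) (nat_lit 5) (nat_lit 5))
    (@En.n l43438 (nat_lit 9810) (nat_lit 0) (nat_lit 10))
    (@En.n l43439 (nat_lit 9718) (nat_lit 1) (nat_lit 4))))
  (@Cl.mk (nat_lit 0x4000b00050009000c000a000500080004000b00070006000c000b00050008) (nat_lit 0x305920307009802) (nat_lit 16) Lb.e (@T16.mk En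
    (@En.i (nat_lit 3310) (nat_lit 10) (nat_lit 8))
    (@En.n l4361 (nat_lit 9369) (nat_lit 1) (nat_lit 5))
    (@En.n l217 (nat_lit 10079) (nat_lit 5) (nat_lit 11))
    (@En.n l899 (nat_lit 10759) (nat_lit 1) (nat_lit 12))
    (@En.n l2605 (nat_lit 9644) (nat_lit 10) (nat_lit 6))
    (@En.n l35698 (nat_lit 9712) (nat_lit 14) (nat_lit 7))
    (@En.i (nat_lit 9713) (nat_lit 13) (nat_lit 11))
    (@En.n l117 (nat_lit 9570) (nat_lit 7) (nat_lit 4))
    (@En.n l23863 (nat_lit 4432) (nat_lit 10) (nat_lit 8))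
    (@En.n l3928 (nat_lit 8430) (nat_lit 1) (nat_lit 5))
    (@En.n l22681 (nat_lit 8420) (nat_lit 0) (nat_lit 10))
    (@En.n l3928 (nat_lit 9562) (nat_lit 6) (nat_lit 12))
    (@En.n l37701 (nat_lit 9686) (nat_lit 10) (nat_lit 9))
    (@En.n l3928 (nat_lit 9479) (nat_lit 5) (nat_lit 5))
    (@En.n l9931 (nat_lit 9427) (nat_lit 0) (nat_lit 11))
    (@En.n l50 (nat_lit 9726) (nat_lit 1) (nat_lit 4))))
  (@Cl.mk (nat_lit 0x20007000b00040008000d000b00050003000c0009000500080004000e000c) (nat_lit 0x3022200760301a) (nat_lit 16) Lb.e (@T16.mk En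
    (@En.n l396 (nat_lit 8129) (nat_lit 9) (nat_lit 12))
    (@En.n l12001 (nat_lit 5693) (nat_lit 1) (nat_lit 14))
    (@En.n l1323 (nat_lit 8125) (nat_lit 2) (nat_lit 4))
    (@En.i (nat_lit 7061) (nat_lit 10) (nat_lit 8))
    (@En.n l6900 (nat_lit 2780) (nat_lit 4) (nat_lit 5))
    (@En.n l16381 (nat_lit 7629) (nat_lit 5) (nat_lit 9))
    (@En.n l7645 (nat_lit 9580) (nat_lit 7) (nat_lit 12))
    (@En.n l16382 (nat_lit 9573) (nat_lit 7) (nat_lit 3))
    (@En.n l16383 (nat_lit 9502) (nat_lit 8) (nat_lit 5))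
    (@En.n l2642 (nat_lit 9574) (nat_lit 10) (nat_lit 11))
    (@En.n l14271 (nat_lit 8635) (nat_lit 11) (nat_lit 13))
    (@En.i (nat_lit 3018) (nat_lit 12) (nat_lit 8))
    (@En.i (nat_lit 10075) (nat_lit 13) (nat_lit 4))
    (@En.i (nat_lit 7264) (nat_lit 14) (nat_lit 11))
    (@En.n l12001 (nat_lit 10057) (nat_lit 1) (nat_lit 7))
    (@En.n l50 (nat_lit 9572) (nat_lit 15) (nat_lit 2))))
  (@Cl.mk (nat_lit 0x20007000c00040008000d0004000c0003000c0009000400080004000e000c) (nat_lit 0x302209026020ca) (nat_lit 16) Lb.e (@T16.mk En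
    (@En.n l31451 (nat_lit 9575) (nat_lit 9) (nat_lit 12))
    (@En.n l1003 (nat_lit 7780) (nat_lit 1) (nat_lit 14))
    (@En.n l2711 (nat_lit 8127) (nat_lit 2) (nat_lit 4))
    (@En.n l29570 (nat_lit 7062) (nat_lit 3) (nat_lit 8))
    (@En.n l152 (nat_lit 9577) (nat_lit 4) (nat_lit 4))
    (@En.n l17004 (nat_lit 7633) (nat_lit 5) (nat_lit 9))
    (@En.n l1722 (nat_lit 7100) (nat_lit 7) (nat_lit 12))
    (@En.n l2125 (nat_lit 9572) (nat_lit 7) (nat_lit 3))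
    (@En.n l31452 (nat_lit 9152) (nat_lit 9) (nat_lit 12))
    (@En.n l9876 (nat_lit 9562) (nat_lit 9) (nat_lit 4))
    (@En.n l5777 (nat_lit 8634) (nat_lit 11) (nat_lit 13))
    (@En.n l1003 (nat_lit 3017) (nat_lit 12) (nat_lit 8))
    (@En.n l29769 (nat_lit 10433) (nat_lit 13) (nat_lit 4))
    (@En.i (nat_lit 7266) (nat_lit 14) (nat_lit 12))
    (@En.n l1003 (nat_lit 10060) (nat_lit 1) (nat_lit 7))
    (@En.n l7 (nat_lit 9573) (nat_lit 15) (nat_lit 2))))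
  (@Cl.mk (nat_lit 0x20008000c00040008000b0004000c000b00080005000400080005000e000c) (nat_lit 0x430210a65004039) (nat_lit 16) Lb.e (@T16.mk En
    (@En.n l601 (nat_lit 9576) (nat_lit 3) (nat_lit 12))
    (@En.i (nat_lit 7790) (nat_lit 1) (nat_lit 14))
    (@En.i (nat_lit 8128) (nat_lit 2) (nat_lit 5))
    (@En.n l899 (nat_lit 9572) (nat_lit 3) (nat_lit 8))
    (@En.i (nat_lit 9573) (nat_lit 4) (nat_lit 4))
    (@En.n l17 (nat_lit 2779) (nat_lit 5) (nat_lit 5))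
    (@En.i (nat_lit 7630) (nat_lit 6) (nat_lit 8))
    (@En.n l619 (nat_lit 9578) (nat_lit 8) (nat_lit 11))
    (@En.n l10139 (nat_lit 8720) (nat_lit 9) (nat_lit 12))
    (@En.i (nat_lit 9485) (nat_lit 9) (nat_lit 4))
    (@En.n l2299 (nat_lit 2309) (nat_lit 7) (nat_lit 11))
    (@En.i (nat_lit 3259) (nat_lit 12) (nat_lit 8))
    (@En.i (nat_lit 10074) (nat_lit 13) (nat_lit 4))
    (@En.i (nat_lit 7265) (nat_lit 14) (nat_lit 12))
    (@En.i (nat_lit 10062) (nat_lit 1) (nat_lit 8))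
    (@En.n l7 (nat_lit 9574) (nat_lit 15) (nat_lit 2))))
  (@Cl.mk (nat_lit 0x3000c000a000400080004000c000c0006000b000400040008000d0005000c) (nat_lit 0x280309105003906) (nat_lit 16) Lb.e (@T16.mk En
    (@En.n l2710 (nat_lit 8712) (nat_lit 0) (nat_lit 12))
    (@En.n l19662 (nat_lit 9469) (nat_lit 4) (nat_lit 5))
    (@En.n l2749 (nat_lit 8318) (nat_lit 2) (nat_lit 13))
    (@En.n l33196 (nat_lit 10587) (nat_lit 11) (nat_lit 8))
    (@En.n l41279 (nat_lit 9573) (nat_lit 12) (nat_lit 4))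
    (@En.i (nat_lit 10429) (nat_lit 0) (nat_lit 4))
    (@En.n l19517 (nat_lit 7267) (nat_lit 0) (nat_lit 11))
    (@En.n l27661 (nat_lit 10068) (nat_lit 1) (nat_lit 6))
    (@En.n l61 (nat_lit 8095) (nat_lit 4) (nat_lit 12))
    (@En.n l21509 (nat_lit 10603) (nat_lit 10) (nat_lit 12))
    (@En.n l7 (nat_lit 8121) (nat_lit 10) (nat_lit 4))
    (@En.n l25013 (nat_lit 7036) (nat_lit 11) (nat_lit 8))
    (@En.n l32711 (nat_lit 7397) (nat_lit 1) (nat_lit 4))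
    (@En.n l21506 (nat_lit 7637) (nat_lit 0) (nat_lit 10))
    (@En.n l21599 (nat_lit 7103) (nat_lit 1) (nat_lit 12))
    (@En.n l25748 (nat_lit 8129) (nat_lit 15) (nat_lit 3))))
  (@Cl.mk (nat_lit 0x400040008000b0005000c000b00090005000400080005000c000c0007000b) (nat_lit 0x310a1500408103) (nat_lit 16) Lb.e (@T16.mk En
    (@En.i (nat_lit 7230) (nat_lit 0) (nat_lit 11))
    (@En.n l20450 (nat_lit 10064) (nat_lit 1) (nat_lit 7))
    (@En.n l29989 (nat_lit 8097) (nat_lit 4) (nat_lit 12))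
    (@En.i (nat_lit 10597) (nat_lit 13) (nat_lit 12))
    (@En.n l15619 (nat_lit 8122) (nat_lit 4) (nat_lit 5))
    (@En.n l899 (nat_lit 8129) (nat_lit 11) (nat_lit 8))
    (@En.n l29990 (nat_lit 9575) (nat_lit 12) (nat_lit 4))
    (@En.n l17 (nat_lit 2789) (nat_lit 0) (nat_lit 5))
    (@En.n l29991 (nat_lit 7636) (nat_lit 1) (nat_lit 9))
    (@En.n l619 (nat_lit 7395) (nat_lit 5) (nat_lit 11))
    (@En.n l15619 (nat_lit 8719) (nat_lit 11) (nat_lit 12))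
    (@En.n l4172 (nat_lit 9478) (nat_lit 4) (nat_lit 5))
    (@En.n l13935 (nat_lit 2311) (nat_lit 7) (nat_lit 11))
    (@En.i (nat_lit 10588) (nat_lit 11) (nat_lit 8))
    (@En.n l50 (nat_lit 9574) (nat_lit 12) (nat_lit 4))
    (@En.n l15619 (nat_lit 10434) (nat_lit 0) (nat_lit 4))))
  (@Cl.mk (nat_lit 0x20009000c00040008000c0004000c00070004000d000400080003000e000c) (nat_lit 0x510110a00301091) (nat_lit 16) Lb.e (@T16.mk En
    (@En.n l601 (nat_lit 7397) (nat_lit 14) (nat_lit 12))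
    (@En.i (nat_lit 7557) (nat_lit 1) (nat_lit 14))
    (@En.i (nat_lit 9578) (nat_lit 2) (nat_lit 3))
    (@En.n l3328 (nat_lit 3447) (nat_lit 3) (nat_lit 8))
    (@En.n l117 (nat_lit 9574) (nat_lit 4) (nat_lit 4))
    (@En.n l1722 (nat_lit 7099) (nat_lit 6) (nat_lit 13))
    (@En.n l3480 (nat_lit 2778) (nat_lit 6) (nat_lit 4))
    (@En.i (nat_lit 9579) (nat_lit 7) (nat_lit 7))
    (@En.n l5646 (nat_lit 9145) (nat_lit 9) (nat_lit 12))
    (@En.n l6081 (nat_lit 9561) (nat_lit 9) (nat_lit 4))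
    (@En.n l1971 (nat_lit 3060) (nat_lit 11) (nat_lit 12))
    (@En.i (nat_lit 4502) (nat_lit 12) (nat_lit 8))
    (@En.i (nat_lit 10482) (nat_lit 13) (nat_lit 4))
    (@En.i (nat_lit 4002) (nat_lit 6) (nat_lit 12))
    (@En.i (nat_lit 10505) (nat_lit 12) (nat_lit 9))
    (@En.n l7 (nat_lit 9577) (nat_lit 15) (nat_lit 2))))
  (@Cl.mk (nat_lit 0x20009000c00040009000c0004000b00070004000d000700050003000e000c) (nat_lit 0x610690500300091) (nat_lit 16) Lb.e (@T16.mk En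
    (@En.n l601 (nat_lit 7395) (nat_lit 14) (nat_lit 12))
    (@En.n l1080 (nat_lit 8561) (nat_lit 1) (nat_lit 14))
    (@En.n l11 (nat_lit 9577) (nat_lit 2) (nat_lit 3))
    (@En.n l1803 (nat_lit 8214) (nat_lit 3) (nat_lit 5))
    (@En.i (nat_lit 9580) (nat_lit 4) (nat_lit 7))
    (@En.n l1722 (nat_lit 7096) (nat_lit 6) (nat_lit 13))
    (@En.n l3480 (nat_lit 2554) (nat_lit 6) (nat_lit 4))
    (@En.n l710 (nat_lit 9581) (nat_lit 7) (nat_lit 7))
    (@En.n l9979 (nat_lit 8650) (nat_lit 9) (nat_lit 11))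
    (@En.n l6081 (nat_lit 9558) (nat_lit 9) (nat_lit 4))
    (@En.n l710 (nat_lit 7323) (nat_lit 6) (nat_lit 12))
    (@En.i (nat_lit 9773) (nat_lit 12) (nat_lit 9))
    (@En.n l9979 (nat_lit 10483) (nat_lit 13) (nat_lit 4))
    (@En.i (nat_lit 4003) (nat_lit 6) (nat_lit 12))
    (@En.n l710 (nat_lit 10506) (nat_lit 12) (nat_lit 9))
    (@En.n l7 (nat_lit 9578) (nat_lit 15) (nat_lit 2))))
  (@Cl.mk (nat_lit 0x200090007000c00050009000d000400070003000d000900070003000e000b) (nat_lit 0x602041000420088) (nat_lit 16) Lb.e (@T16.mk En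
    (@En.n l601 (nat_lit 9583) (nat_lit 14) (nat_lit 11))
    (@En.n l2642 (nat_lit 6636) (nat_lit 1) (nat_lit 14))
    (@En.n l710 (nat_lit 9581) (nat_lit 2) (nat_lit 3))
    (@En.n l21122 (nat_lit 3451) (nat_lit 3) (nat_lit 7))
    (@En.n l21123 (nat_lit 9584) (nat_lit 4) (nat_lit 9))
    (@En.n l1722 (nat_lit 7101) (nat_lit 6) (nat_lit 13))
    (@En.n l21124 (nat_lit 9417) (nat_lit 6) (nat_lit 3))
    (@En.n l21125 (nat_lit 11657) (nat_lit 11) (nat_lit 7))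
    (@En.n l6081 (nat_lit 9560) (nat_lit 8) (nat_lit 4))
    (@En.n l5793 (nat_lit 3055) (nat_lit 10) (nat_lit 13))
    (@En.n l15957 (nat_lit 6244) (nat_lit 11) (nat_lit 9))
    (@En.n l8770 (nat_lit 11467) (nat_lit 12) (nat_lit 5))
    (@En.n l3 (nat_lit 9577) (nat_lit 13) (nat_lit 12))
    (@En.n l3 (nat_lit 9573) (nat_lit 14) (nat_lit 7))
    (@En.n l2642 (nat_lit 11958) (nat_lit 12) (nat_lit 9))
    (@En.n l7 (nat_lit 9579) (nat_lit 15) (nat_lit 2))))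
  (@Cl.mk (nat_lit 0x20008000b000400090008000c0005000c00080004000700040008000e000c) (nat_lit 0x41072a065000191) (nat_lit 16) Lb.e (@T16.mk En
    (@En.n l601 (nat_lit 7394) (nat_lit 3) (nat_lit 12))
    (@En.n l532 (nat_lit 8560) (nat_lit 1) (nat_lit 14))
    (@En.n l21576 (nat_lit 4552) (nat_lit 2) (nat_lit 8))
    (@En.n l117 (nat_lit 8124) (nat_lit 3) (nat_lit 4))
    (@En.n l1776 (nat_lit 11028) (nat_lit 11) (nat_lit 7))
    (@En.n l3480 (nat_lit 2781) (nat_lit 5) (nat_lit 4))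
    (@En.n l710 (nat_lit 9582) (nat_lit 6) (nat_lit 8))
    (@En.n l5646 (nat_lit 8652) (nat_lit 8) (nat_lit 12))
    (@En.n l6081 (nat_lit 9507) (nat_lit 8) (nat_lit 5))
    (@En.n l207 (nat_lit 9578) (nat_lit 10) (nat_lit 12))
    (@En.i (nat_lit 9577) (nat_lit 11) (nat_lit 8))
    (@En.n l532 (nat_lit 9772) (nat_lit 12) (nat_lit 9))
    (@En.i (nat_lit 10485) (nat_lit 13) (nat_lit 4))
    (@En.i (nat_lit 4006) (nat_lit 7) (nat_lit 11))
    (@En.i (nat_lit 9920) (nat_lit 1) (nat_lit 8))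
    (@En.n l7 (nat_lit 9580) (nat_lit 15) (nat_lit 2))))
  (@Cl.mk (nat_lit 0x200090006000c0005000a000d000400070003000d0006000a0003000e000b) (nat_lit 0x602071000508081) (nat_lit 16) Lb.e (@T16.mk En
    (@En.i (nat_lit 7400) (nat_lit 14) (nat_lit 11))
    (@En.i (nat_lit 11496) (nat_lit 1) (nat_lit 14))
    (@En.n l720 (nat_lit 9579) (nat_lit 2) (nat_lit 3))
    (@En.n l992 (nat_lit 9103) (nat_lit 3) (nat_lit 10))
    (@En.i (nat_lit 9582) (nat_lit 4) (nat_lit 6))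
    (@En.i (nat_lit 7097) (nat_lit 6) (nat_lit 13))
    (@En.n l9102 (nat_lit 9416) (nat_lit 6) (nat_lit 3))
    (@En.i (nat_lit 11655) (nat_lit 11) (nat_lit 7))
    (@En.n l9103 (nat_lit 9559) (nat_lit 8) (nat_lit 4))
    (@En.i (nat_lit 3057) (nat_lit 5) (nat_lit 13))
    (@En.n l3036 (nat_lit 9769) (nat_lit 11) (nat_lit 10))
    (@En.n l117 (nat_lit 11471) (nat_lit 12) (nat_lit 5))
    (@En.n l2366 (nat_lit 9578) (nat_lit 13) (nat_lit 12))
    (@En.n l992 (nat_lit 8127) (nat_lit 14) (nat_lit 6))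
    (@En.i (nat_lit 11955) (nat_lit 12) (nat_lit 9))
    (@En.n l3 (nat_lit 9581) (nat_lit 15) (nat_lit 2))))
  (@Cl.mk (nat_lit 0x200080006000b0005000a0009000d0005000800030006000a0007000e000b) (nat_lit 0x502085204001087) (nat_lit 16) Lb.e (@T16.mk En
    (@En.n l9099 (nat_lit 9414) (nat_lit 11) (nat_lit 11))
    (@En.i (nat_lit 10965) (nat_lit 1) (nat_lit 14))
    (@En.n l2912 (nat_lit 4551) (nat_lit 2) (nat_lit 7))
    (@En.n l9100 (nat_lit 8627) (nat_lit 3) (nat_lit 10))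
    (@En.n l9101 (nat_lit 11029) (nat_lit 12) (nat_lit 6))
    (@En.n l9102 (nat_lit 9415) (nat_lit 5) (nat_lit 3))
    (@En.n l3033 (nat_lit 11656) (nat_lit 0) (nat_lit 8))
    (@En.n l9103 (nat_lit 9508) (nat_lit 7) (nat_lit 5))
    (@En.n l50 (nat_lit 9581) (nat_lit 9) (nat_lit 13))
    (@En.n l719 (nat_lit 9579) (nat_lit 10) (nat_lit 9))
    (@En.n l8437 (nat_lit 9771) (nat_lit 11) (nat_lit 10))
    (@En.n l9104 (nat_lit 10841) (nat_lit 5) (nat_lit 5))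
    (@En.n l2366 (nat_lit 9580) (nat_lit 13) (nat_lit 11))
    (@En.n l9105 (nat_lit 8126) (nat_lit 14) (nat_lit 6))
    (@En.i (nat_lit 11956) (nat_lit 9) (nat_lit 8))
    (@En.n l3 (nat_lit 9582) (nat_lit 15) (nat_lit 2))))
  (@Cl.mk (nat_lit 0x3000b000b00080006000b000500050009000d000500080003000d000a0007) (nat_lit 0x715020057030920) (nat_lit 16) Lb.e (@T16.mk En
    (@En.n l17168 (nat_lit 4589) (nat_lit 0) (nat_lit 7))
    (@En.n l36993 (nat_lit 9620) (nat_lit 14) (nat_lit 10))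
    (@En.n l1722 (nat_lit 7104) (nat_lit 2) (nat_lit 13))
    (@En.n l33404 (nat_lit 9411) (nat_lit 3) (nat_lit 3))
    (@En.n l36994 (nat_lit 11651) (nat_lit 10) (nat_lit 8))
    (@En.n l3348 (nat_lit 9273) (nat_lit 5) (nat_lit 5))
    (@En.n l2756 (nat_lit 3061) (nat_lit 6) (nat_lit 13))
    (@En.i (nat_lit 9820) (nat_lit 10) (nat_lit 9))
    (@En.n l50 (nat_lit 9579) (nat_lit 11) (nat_lit 5))
    (@En.n l17170 (nat_lit 10918) (nat_lit 9) (nat_lit 5))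
    (@En.n l3 (nat_lit 7397) (nat_lit 11) (nat_lit 11))
    (@En.n l17170 (nat_lit 9575) (nat_lit 7) (nat_lit 6))
    (@En.n l35233 (nat_lit 11867) (nat_lit 13) (nat_lit 8))
    (@En.n l17172 (nat_lit 7401) (nat_lit 5) (nat_lit 11))
    (@En.n l36995 (nat_lit 10025) (nat_lit 11) (nat_lit 11))
    (@En.n l1284 (nat_lit 7400) (nat_lit 15) (nat_lit 3))))
noncomputable def a599 : T16 Cl := @T16.mk Cl
  (@Cl.mk (nat_lit 0x2000800070006000c0006000a000d00040008000300090006000a000e000a) (nat_lit 0x5043030107a2) (nat_lit 16) Lb.e (@T16.mk En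
    (@En.n l5646 (nat_lit 9620) (nat_lit 11) (nat_lit 10))
    (@En.n l3324 (nat_lit 6912) (nat_lit 1) (nat_lit 14))
    (@En.n l245 (nat_lit 9101) (nat_lit 2) (nat_lit 10))
    (@En.n l32549 (nat_lit 9855) (nat_lit 3) (nat_lit 6))
    (@En.n l19393 (nat_lit 8015) (nat_lit 4) (nat_lit 9))
    (@En.n l32550 (nat_lit 9852) (nat_lit 5) (nat_lit 3))
    (@En.n l32551 (nat_lit 11333) (nat_lit 0) (nat_lit 8))
    (@En.n l32552 (nat_lit 9568) (nat_lit 7) (nat_lit 4))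
    (@En.i (nat_lit 7145) (nat_lit 9) (nat_lit 13))
    (@En.n l250 (nat_lit 6186) (nat_lit 10) (nat_lit 10))
    (@En.n l22303 (nat_lit 10366) (nat_lit 4) (nat_lit 6))
    (@En.n l22004 (nat_lit 9564) (nat_lit 12) (nat_lit 12))
    (@En.n l763 (nat_lit 9581) (nat_lit 13) (nat_lit 6))
    (@En.i (nat_lit 7633) (nat_lit 14) (nat_lit 7))
    (@En.n l763 (nat_lit 10641) (nat_lit 6) (nat_lit 8))
    (@En.n l3 (nat_lit 9584) (nat_lit 15) (nat_lit 2))))
  (@Cl.mk (nat_lit 0x30009000c00040008000c0004000c00070004000c00040008000d0004000c) (nat_lit 0x6301a0a00202202) (nat_lit 16) Lb.e (@T16.mk En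
    (@En.n l5592 (nat_lit 9580) (nat_lit 0) (nat_lit 12))
    (@En.i (nat_lit 9701) (nat_lit 4) (nat_lit 4))
    (@En.i (nat_lit 10287) (nat_lit 0) (nat_lit 13))
    (@En.n l250 (nat_lit 4250) (nat_lit 11) (nat_lit 8))
    (@En.n l117 (nat_lit 10588) (nat_lit 4) (nat_lit 4))
    (@En.n l2039 (nat_lit 10572) (nat_lit 0) (nat_lit 12))
    (@En.n l34962 (nat_lit 8362) (nat_lit 1) (nat_lit 4))
    (@En.i (nat_lit 9820) (nat_lit 7) (nat_lit 7))
    (@En.n l5646 (nat_lit 10211) (nat_lit 9) (nat_lit 12))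
    (@En.n l13375 (nat_lit 10081) (nat_lit 9) (nat_lit 4))
    (@En.n l245 (nat_lit 9095) (nat_lit 11) (nat_lit 12))
    (@En.n l4172 (nat_lit 4491) (nat_lit 11) (nat_lit 8))
    (@En.i (nat_lit 10636) (nat_lit 7) (nat_lit 4))
    (@En.i (nat_lit 7634) (nat_lit 6) (nat_lit 12))
    (@En.n l5649 (nat_lit 11814) (nat_lit 1) (nat_lit 9))
    (@En.i (nat_lit 10088) (nat_lit 15) (nat_lit 3))))
  (@Cl.mk (nat_lit 0x4000b00090005000a000a00050008000b000700060006000c0005000b0008) (nat_lit 0x520510410005083) (nat_lit 16) Lb.e (@T16.mk En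
    (@En.n l19708 (nat_lit 9587) (nat_lit 0) (nat_lit 8))
    (@En.n l28874 (nat_lit 9588) (nat_lit 1) (nat_lit 11))
    (@En.n l28875 (nat_lit 9911) (nat_lit 8) (nat_lit 5))
    (@En.n l15362 (nat_lit 9275) (nat_lit 0) (nat_lit 12))
    (@En.n l55 (nat_lit 9601) (nat_lit 10) (nat_lit 6))
    (@En.i (nat_lit 8775) (nat_lit 10) (nat_lit 6))
    (@En.n l28876 (nat_lit 8223) (nat_lit 6) (nat_lit 7))
    (@En.n l28877 (nat_lit 7649) (nat_lit 7) (nat_lit 11))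
    (@En.n l28874 (nat_lit 8519) (nat_lit 10) (nat_lit 8))
    (@En.n l8616 (nat_lit 8431) (nat_lit 9) (nat_lit 5))
    (@En.n l19714 (nat_lit 8993) (nat_lit 6) (nat_lit 10))
    (@En.n l19704 (nat_lit 12175) (nat_lit 1) (nat_lit 10))
    (@En.n l28878 (nat_lit 9491) (nat_lit 2) (nat_lit 5))
    (@En.n l28879 (nat_lit 6814) (nat_lit 7) (nat_lit 9))
    (@En.n l9858 (nat_lit 9591) (nat_lit 1) (nat_lit 11))
    (@En.n l28880 (nat_lit 9387) (nat_lit 2) (nat_lit 4))))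
  (@Cl.mk (nat_lit 0x3000b0008000b00090009000500080005000b000800070007000d00050008) (nat_lit 0x426000402600902) (nat_lit 16) Lb.e (@T16.mk En
    (@En.n l9687 (nat_lit 1491) (nat_lit 10) (nat_lit 8))
    (@En.n l13510 (nat_lit 9916) (nat_lit 7) (nat_lit 5))
    (@En.i (nat_lit 9274) (nat_lit 2) (nat_lit 13))
    (@En.n l13511 (nat_lit 9598) (nat_lit 9) (nat_lit 7))
    (@En.n l26282 (nat_lit 8777) (nat_lit 9) (nat_lit 7))
    (@En.n l26283 (nat_lit 9588) (nat_lit 5) (nat_lit 8))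
    (@En.n l26284 (nat_lit 9586) (nat_lit 7) (nat_lit 11))
    (@En.n l26282 (nat_lit 9359) (nat_lit 7) (nat_lit 5))
    (@En.n l13515 (nat_lit 8517) (nat_lit 10) (nat_lit 8))
    (@En.n l25109 (nat_lit 8430) (nat_lit 9) (nat_lit 5))
    (@En.n l26285 (nat_lit 9593) (nat_lit 7) (nat_lit 9))
    (@En.n l13518 (nat_lit 12174) (nat_lit 12) (nat_lit 9))
    (@En.i (nat_lit 11745) (nat_lit 7) (nat_lit 11))
    (@En.n l20700 (nat_lit 6816) (nat_lit 14) (nat_lit 8))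
    (@En.n l26286 (nat_lit 9589) (nat_lit 13) (nat_lit 11))
    (@En.n l26287 (nat_lit 9080) (nat_lit 15) (nat_lit 3))))
  (@Cl.mk (nat_lit 0x3000a00080005000b000a000a000600090005000800060006000d000b0007) (nat_lit 0x420700050500870) (nat_lit 16) Lb.e (@T16.mk En
    (@En.n l9823 (nat_lit 1802) (nat_lit 0) (nat_lit 7))
    (@En.i (nat_lit 9429) (nat_lit 5) (nat_lit 11))
    (@En.n l34778 (nat_lit 9273) (nat_lit 2) (nat_lit 13))
    (@En.n l11 (nat_lit 9602) (nat_lit 10) (nat_lit 6))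
    (@En.n l3965 (nat_lit 9492) (nat_lit 4) (nat_lit 6))
    (@En.n l15450 (nat_lit 8219) (nat_lit 10) (nat_lit 8))
    (@En.n l34779 (nat_lit 9360) (nat_lit 6) (nat_lit 5))
    (@En.i (nat_lit 8516) (nat_lit 9) (nat_lit 9))
    (@En.n l2696 (nat_lit 8426) (nat_lit 8) (nat_lit 6))
    (@En.n l34780 (nat_lit 9595) (nat_lit 6) (nat_lit 10))
    (@En.n l7973 (nat_lit 10947) (nat_lit 6) (nat_lit 10))
    (@En.n l29551 (nat_lit 9587) (nat_lit 12) (nat_lit 11))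
    (@En.n l34781 (nat_lit 9452) (nat_lit 13) (nat_lit 5))
    (@En.n l34782 (nat_lit 6818) (nat_lit 14) (nat_lit 8))
    (@En.n l4172 (nat_lit 9590) (nat_lit 1) (nat_lit 10))
    (@En.n l7 (nat_lit 9079) (nat_lit 15) (nat_lit 3))))
  (@Cl.mk (nat_lit 0x50008000b0007000a000800080005000900080006000b0009000800080007) (nat_lit 0x130500035027140) (nat_lit 16) Lb.e (@T16.mk En
    (@En.n l31385 (nat_lit 10394) (nat_lit 9) (nat_lit 7))
    (@En.n l31386 (nat_lit 9599) (nat_lit 8) (nat_lit 8))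
    (@En.n l31387 (nat_lit 8784) (nat_lit 8) (nat_lit 8))
    (@En.n l31388 (nat_lit 9590) (nat_lit 7) (nat_lit 9))
    (@En.n l31389 (nat_lit 9591) (nat_lit 9) (nat_lit 11))
    (@En.n l31390 (nat_lit 9356) (nat_lit 10) (nat_lit 6))
    (@En.n l31391 (nat_lit 9587) (nat_lit 8) (nat_lit 8))
    (@En.n l31392 (nat_lit 7521) (nat_lit 10) (nat_lit 9))
    (@En.n l16412 (nat_lit 8432) (nat_lit 8) (nat_lit 5))
    (@En.n l31393 (nat_lit 9592) (nat_lit 8) (nat_lit 8))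
    (@En.n l20537 (nat_lit 12169) (nat_lit 1) (nat_lit 8))
    (@En.n l117 (nat_lit 11746) (nat_lit 8) (nat_lit 10))
    (@En.n l31394 (nat_lit 5081) (nat_lit 13) (nat_lit 7))
    (@En.n l31395 (nat_lit 8178) (nat_lit 7) (nat_lit 11))
    (@En.n l24191 (nat_lit 1489) (nat_lit 10) (nat_lit 8))
    (@En.n l31396 (nat_lit 9917) (nat_lit 11) (nat_lit 5))))
  (@Cl.mk (nat_lit 0x4000a000900090006000a000900060009000700070006000c0007000a0007) (nat_lit 0x600036060008030) (nat_lit 16) Lb.e (@T16.mk En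
    (@En.n l8008 (nat_lit 5083) (nat_lit 0) (nat_lit 7))
    (@En.n l4172 (nat_lit 8179) (nat_lit 8) (nat_lit 10))
    (@En.n l30313 (nat_lit 1490) (nat_lit 6) (nat_lit 7))
    (@En.n l26894 (nat_lit 9455) (nat_lit 3) (nat_lit 12))
    (@En.n l34698 (nat_lit 10379) (nat_lit 10) (nat_lit 6))
    (@En.n l11 (nat_lit 9603) (nat_lit 9) (nat_lit 7))
    (@En.n l9966 (nat_lit 9494) (nat_lit 6) (nat_lit 7))
    (@En.n l15483 (nat_lit 8220) (nat_lit 9) (nat_lit 9))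
    (@En.n l15704 (nat_lit 9355) (nat_lit 8) (nat_lit 6))
    (@En.n l77 (nat_lit 9588) (nat_lit 7) (nat_lit 9))
    (@En.i (nat_lit 7499) (nat_lit 9) (nat_lit 10))
    (@En.n l30437 (nat_lit 8393) (nat_lit 10) (nat_lit 6))
    (@En.n l8009 (nat_lit 9594) (nat_lit 7) (nat_lit 9))
    (@En.n l19322 (nat_lit 10949) (nat_lit 7) (nat_lit 9))
    (@En.n l29546 (nat_lit 9589) (nat_lit 11) (nat_lit 10))
    (@En.n l34699 (nat_lit 9453) (nat_lit 15) (nat_lit 4))))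
  (@Cl.mk (nat_lit 0x4000900090005000a0008000b00080007000700060005000c0008000b0008) (nat_lit 0x10351600009244) (nat_lit 16) Lb.e (@T16.mk En
    (@En.n l8289 (nat_lit 5078) (nat_lit 0) (nat_lit 8))
    (@En.n l5302 (nat_lit 7161) (nat_lit 7) (nat_lit 11))
    (@En.n l24395 (nat_lit 9589) (nat_lit 14) (nat_lit 8))
    (@En.n l14699 (nat_lit 9590) (nat_lit 3) (nat_lit 12))
    (@En.n l1959 (nat_lit 9914) (nat_lit 11) (nat_lit 5))
    (@En.n l8283 (nat_lit 10391) (nat_lit 10) (nat_lit 6))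
    (@En.n l6051 (nat_lit 9600) (nat_lit 9) (nat_lit 7))
    (@En.i (nat_lit 8778) (nat_lit 9) (nat_lit 7))
    (@En.n l24396 (nat_lit 8224) (nat_lit 8) (nat_lit 8))
    (@En.i (nat_lit 7653) (nat_lit 7) (nat_lit 11))
    (@En.n l8770 (nat_lit 9586) (nat_lit 8) (nat_lit 8))
    (@En.i (nat_lit 7522) (nat_lit 10) (nat_lit 10))
    (@En.n l24397 (nat_lit 8394) (nat_lit 13) (nat_lit 5))
    (@En.n l8286 (nat_lit 8992) (nat_lit 7) (nat_lit 9))
    (@En.n l24398 (nat_lit 12173) (nat_lit 1) (nat_lit 9))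
    (@En.n l8288 (nat_lit 9494) (nat_lit 15) (nat_lit 4))))
  (@Cl.mk (nat_lit 0x2000800060009000c0008000b00080004000800070005000a0008000e0008) (nat_lit 0x2024356020056c2) (nat_lit 16) Lb.e (@T16.mk En
    (@En.n l37415 (nat_lit 9589) (nat_lit 2) (nat_lit 8))
    (@En.n l37416 (nat_lit 10971) (nat_lit 1) (nat_lit 14))
    (@En.n l37417 (nat_lit 9594) (nat_lit 2) (nat_lit 8))
    (@En.n l37418 (nat_lit 8992) (nat_lit 3) (nat_lit 10))
    (@En.n l3480 (nat_lit 9797) (nat_lit 4) (nat_lit 5))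
    (@En.n l37419 (nat_lit 9593) (nat_lit 5) (nat_lit 7))
    (@En.n l37420 (nat_lit 7528) (nat_lit 6) (nat_lit 8))
    (@En.i (nat_lit 6561) (nat_lit 7) (nat_lit 4))
    (@En.n l37421 (nat_lit 11990) (nat_lit 0) (nat_lit 8))
    (@En.n l34255 (nat_lit 11750) (nat_lit 10) (nat_lit 11))
    (@En.n l16787 (nat_lit 5080) (nat_lit 11) (nat_lit 8))
    (@En.i (nat_lit 8175) (nat_lit 6) (nat_lit 12))
    (@En.n l16787 (nat_lit 1784) (nat_lit 13) (nat_lit 9))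
    (@En.i (nat_lit 9915) (nat_lit 14) (nat_lit 6))
    (@En.n l37422 (nat_lit 4314) (nat_lit 6) (nat_lit 8))
    (@En.n l7 (nat_lit 9592) (nat_lit 15) (nat_lit 2))))
  (@Cl.mk (nat_lit 0x2000d000600090003000c0009000c0009000400070004000a0007000e0007) (nat_lit 0xa02052670004040) (nat_lit 16) Lb.e (@T16.mk En
    (@En.n l19384 (nat_lit 9587) (nat_lit 4) (nat_lit 7))
    (@En.i (nat_lit 10970) (nat_lit 1) (nat_lit 14))
    (@En.i (nat_lit 9595) (nat_lit 2) (nat_lit 7))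
    (@En.n l23571 (nat_lit 8993) (nat_lit 3) (nat_lit 10))
    (@En.n l23572 (nat_lit 9660) (nat_lit 4) (nat_lit 4))
    (@En.i (nat_lit 8512) (nat_lit 11) (nat_lit 7))
    (@En.n l17578 (nat_lit 6642) (nat_lit 6) (nat_lit 4))
    (@En.n l217 (nat_lit 11988) (nat_lit 0) (nat_lit 9))
    (@En.n l23573 (nat_lit 11748) (nat_lit 9) (nat_lit 12))
    (@En.n l23574 (nat_lit 6817) (nat_lit 10) (nat_lit 9))
    (@En.n l23575 (nat_lit 9592) (nat_lit 11) (nat_lit 12))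
    (@En.n l23576 (nat_lit 9597) (nat_lit 11) (nat_lit 3))
    (@En.n l781 (nat_lit 1809) (nat_lit 9) (nat_lit 9))
    (@En.n l23577 (nat_lit 9910) (nat_lit 14) (nat_lit 6))
    (@En.n l3928 (nat_lit 9692) (nat_lit 2) (nat_lit 13))
    (@En.n l17 (nat_lit 9593) (nat_lit 15) (nat_lit 2))))
  (@Cl.mk (nat_lit 0x20007000c0008000b00080004000b000900050009000800050008000e0007) (nat_lit 0x525306702405c0) (nat_lit 16) Lb.e (@T16.mk En
    (@En.n l7948 (nat_lit 9590) (nat_lit 6) (nat_lit 7))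
    (@En.n l2125 (nat_lit 6251) (nat_lit 1) (nat_lit 14))
    (@En.i (nat_lit 9265) (nat_lit 2) (nat_lit 8))
    (@En.n l39326 (nat_lit 9796) (nat_lit 3) (nat_lit 5))
    (@En.n l39327 (nat_lit 9595) (nat_lit 4) (nat_lit 8))
    (@En.n l3922 (nat_lit 7498) (nat_lit 5) (nat_lit 9))
    (@En.n l23392 (nat_lit 6921) (nat_lit 6) (nat_lit 5))
    (@En.n l3536 (nat_lit 10450) (nat_lit 8) (nat_lit 9))
    (@En.n l39328 (nat_lit 9592) (nat_lit 9) (nat_lit 11))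
    (@En.n l6080 (nat_lit 9451) (nat_lit 9) (nat_lit 4))
    (@En.i (nat_lit 5082) (nat_lit 11) (nat_lit 8))
    (@En.n l23392 (nat_lit 8176) (nat_lit 7) (nat_lit 11))
    (@En.n l12383 (nat_lit 1780) (nat_lit 13) (nat_lit 8))
    (@En.n l564 (nat_lit 9456) (nat_lit 14) (nat_lit 12))
    (@En.n l13124 (nat_lit 4312) (nat_lit 13) (nat_lit 7))
    (@En.n l28 (nat_lit 9594) (nat_lit 15) (nat_lit 2))))
  (@Cl.mk (nat_lit 0x2000d000b00080003000b00090005000c000a0005000800040007000e0006) (nat_lit 0x862062078030030) (nat_lit 16) Lb.e (@T16.mk En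
    (@En.n l24238 (nat_lit 9588) (nat_lit 4) (nat_lit 6))
    (@En.i (nat_lit 6250) (nat_lit 1) (nat_lit 14))
    (@En.n l8243 (nat_lit 9264) (nat_lit 11) (nat_lit 7))
    (@En.n l24239 (nat_lit 9659) (nat_lit 3) (nat_lit 4))
    (@En.n l10826 (nat_lit 8511) (nat_lit 10) (nat_lit 8))
    (@En.n l24240 (nat_lit 6918) (nat_lit 5) (nat_lit 5))
    (@En.n l10793 (nat_lit 10448) (nat_lit 11) (nat_lit 10))
    (@En.n l476 (nat_lit 9593) (nat_lit 8) (nat_lit 12))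
    (@En.n l2605 (nat_lit 9449) (nat_lit 8) (nat_lit 5))
    (@En.n l23574 (nat_lit 6819) (nat_lit 10) (nat_lit 9))
    (@En.n l24241 (nat_lit 9594) (nat_lit 11) (nat_lit 11))
    (@En.n l24242 (nat_lit 9596) (nat_lit 11) (nat_lit 3))
    (@En.n l2038 (nat_lit 1785) (nat_lit 0) (nat_lit 8))
    (@En.n l24243 (nat_lit 9430) (nat_lit 14) (nat_lit 11))
    (@En.i (nat_lit 9691) (nat_lit 2) (nat_lit 13))
    (@En.n l17 (nat_lit 9595) (nat_lit 15) (nat_lit 2))))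
  (@Cl.mk (nat_lit 0x2000d0007000c0003000b00090004000c000a0005000900040007000e0006) (nat_lit 0x801052078040020) (nat_lit 16) Lb.e (@T16.mk En
    (@En.n l7948 (nat_lit 9079) (nat_lit 4) (nat_lit 6))
    (@En.n l2125 (nat_lit 6248) (nat_lit 1) (nat_lit 14))
    (@En.i (nat_lit 9266) (nat_lit 11) (nat_lit 7))
    (@En.n l117 (nat_lit 9657) (nat_lit 3) (nat_lit 4))
    (@En.n l3922 (nat_lit 8680) (nat_lit 4) (nat_lit 9))
    (@En.n l9916 (nat_lit 6914) (nat_lit 5) (nat_lit 5))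
    (@En.n l3536 (nat_lit 10447) (nat_lit 11) (nat_lit 10))
    (@En.n l33593 (nat_lit 9597) (nat_lit 8) (nat_lit 12))
    (@En.n l20083 (nat_lit 9450) (nat_lit 8) (nat_lit 4))
    (@En.i (nat_lit 6825) (nat_lit 10) (nat_lit 9))
    (@En.n l12978 (nat_lit 8181) (nat_lit 11) (nat_lit 11))
    (@En.n l10773 (nat_lit 9595) (nat_lit 11) (nat_lit 3))
    (@En.n l11722 (nat_lit 4625) (nat_lit 0) (nat_lit 12))
    (@En.i (nat_lit 9594) (nat_lit 14) (nat_lit 7))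
    (@En.n l2125 (nat_lit 8793) (nat_lit 2) (nat_lit 13))
    (@En.n l28 (nat_lit 9596) (nat_lit 15) (nat_lit 2))))
  (@Cl.mk (nat_lit 0x2000d000800070003000c0009000c000900040008000400090007000e0007) (nat_lit 0x930052670104040) (nat_lit 16) Lb.e (@T16.mk En
    (@En.n l9899 (nat_lit 9080) (nat_lit 4) (nat_lit 7))
    (@En.n l24032 (nat_lit 11550) (nat_lit 1) (nat_lit 14))
    (@En.n l39035 (nat_lit 9596) (nat_lit 2) (nat_lit 7))
    (@En.n l39036 (nat_lit 8997) (nat_lit 3) (nat_lit 9))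
    (@En.n l39037 (nat_lit 9658) (nat_lit 4) (nat_lit 4))
    (@En.n l39038 (nat_lit 8682) (nat_lit 5) (nat_lit 8))
    (@En.n l3012 (nat_lit 6912) (nat_lit 6) (nat_lit 4))
    (@En.n l8523 (nat_lit 11989) (nat_lit 0) (nat_lit 9))
    (@En.i (nat_lit 11749) (nat_lit 9) (nat_lit 12))
    (@En.n l39036 (nat_lit 6824) (nat_lit 10) (nat_lit 9))
    (@En.n l39039 (nat_lit 5268) (nat_lit 11) (nat_lit 12))
    (@En.n l39040 (nat_lit 9593) (nat_lit 11) (nat_lit 3))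
    (@En.n l13399 (nat_lit 12820) (nat_lit 0) (nat_lit 7))
    (@En.n l35912 (nat_lit 9592) (nat_lit 14) (nat_lit 8))
    (@En.n l39041 (nat_lit 9431) (nat_lit 2) (nat_lit 13))
    (@En.n l3 (nat_lit 9597) (nat_lit 15) (nat_lit 2))))
  (@Cl.mk (nat_lit 0x2000600090006000c00090007000d000400070003000a0007000a000e0009) (nat_lit 0x50460a00040691) (nat_lit 16) Lb.e (@T16.mk En
    (@En.n l13454 (nat_lit 9587) (nat_lit 11) (nat_lit 9))
    (@En.n l1997 (nat_lit 6539) (nat_lit 1) (nat_lit 14))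
    (@En.n l24882 (nat_lit 11752) (nat_lit 2) (nat_lit 10))
    (@En.n l476 (nat_lit 6820) (nat_lit 3) (nat_lit 7))
    (@En.n l3337 (nat_lit 9599) (nat_lit 4) (nat_lit 10))
    (@En.n l3291 (nat_lit 9604) (nat_lit 5) (nat_lit 3))
    (@En.n l24883 (nat_lit 1804) (nat_lit 6) (nat_lit 7))
    (@En.n l2869 (nat_lit 9610) (nat_lit 7) (nat_lit 4))
    (@En.n l24882 (nat_lit 7044) (nat_lit 9) (nat_lit 13))
    (@En.n l5891 (nat_lit 10326) (nat_lit 1) (nat_lit 7))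
    (@En.n l24884 (nat_lit 9602) (nat_lit 11) (nat_lit 9))
    (@En.n l24885 (nat_lit 9601) (nat_lit 12) (nat_lit 12))
    (@En.n l24886 (nat_lit 9869) (nat_lit 13) (nat_lit 6))
    (@En.n l10729 (nat_lit 8189) (nat_lit 9) (nat_lit 9))
    (@En.n l2037 (nat_lit 8437) (nat_lit 13) (nat_lit 6))
    (@En.n l107 (nat_lit 9598) (nat_lit 15) (nat_lit 2))))
  (@Cl.mk (nat_lit 0x20006000a00090007000c000a0008000600040007000a00060009000e0008) (nat_lit 0x26057300030581) (nat_lit 16) Lb.e (@T16.mk En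
    (@En.n l24207 (nat_lit 9589) (nat_lit 10) (nat_lit 8))
    (@En.i (nat_lit 6540) (nat_lit 1) (nat_lit 14))
    (@En.n l24208 (nat_lit 11753) (nat_lit 2) (nat_lit 9))
    (@En.n l4658 (nat_lit 5086) (nat_lit 3) (nat_lit 6))
    (@En.n l3530 (nat_lit 9890) (nat_lit 4) (nat_lit 10))
    (@En.i (nat_lit 1492) (nat_lit 5) (nat_lit 7))
    (@En.n l4659 (nat_lit 9612) (nat_lit 6) (nat_lit 4))
    (@En.n l24208 (nat_lit 8123) (nat_lit 7) (nat_lit 6))
    (@En.n l2824 (nat_lit 12478) (nat_lit 1) (nat_lit 8))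
    (@En.n l24209 (nat_lit 9603) (nat_lit 10) (nat_lit 10))
    (@En.n l4661 (nat_lit 9600) (nat_lit 11) (nat_lit 12))
    (@En.n l24208 (nat_lit 9357) (nat_lit 12) (nat_lit 7))
    (@En.n l1867 (nat_lit 9598) (nat_lit 13) (nat_lit 9))
    (@En.n l24208 (nat_lit 7519) (nat_lit 14) (nat_lit 10))
    (@En.n l12292 (nat_lit 8817) (nat_lit 13) (nat_lit 6))
    (@En.n l7 (nat_lit 9599) (nat_lit 15) (nat_lit 2))))
noncomputable def a600 : T16 Cl := @T16.mk Cl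
  (@Cl.mk (nat_lit 0x20006000b0009000c0009000700050004000c0007000a00070004000e0009) (nat_lit 0x25470007040061) (nat_lit 16) Lb.e (@T16.mk En
    (@En.n l10352 (nat_lit 9591) (nat_lit 14) (nat_lit 9))
    (@En.n l396 (nat_lit 6542) (nat_lit 1) (nat_lit 14))
    (@En.n l10897 (nat_lit 9524) (nat_lit 2) (nat_lit 4))
    (@En.n l485 (nat_lit 5089) (nat_lit 3) (nat_lit 7))
    (@En.i (nat_lit 7157) (nat_lit 4) (nat_lit 10))
    (@En.n l591 (nat_lit 9599) (nat_lit 5) (nat_lit 7))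
    (@En.n l10898 (nat_lit 9603) (nat_lit 7) (nat_lit 12))
    (@En.n l11 (nat_lit 9611) (nat_lit 7) (nat_lit 4))
    (@En.n l916 (nat_lit 8125) (nat_lit 8) (nat_lit 5))
    (@En.n l10352 (nat_lit 8615) (nat_lit 10) (nat_lit 7))
    (@En.i (nat_lit 8221) (nat_lit 11) (nat_lit 9))
    (@En.n l129 (nat_lit 8643) (nat_lit 12) (nat_lit 12))
    (@En.n l10899 (nat_lit 9601) (nat_lit 13) (nat_lit 9))
    (@En.n l10352 (nat_lit 7520) (nat_lit 14) (nat_lit 11))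
    (@En.n l10900 (nat_lit 8395) (nat_lit 13) (nat_lit 6))
    (@En.n l18 (nat_lit 9600) (nat_lit 15) (nat_lit 2))))
  (@Cl.mk (nat_lit 0x200060009000c00080006000c0004000b00070004000a00080005000e000a) (nat_lit 0x435090700520a6) (nat_lit 16) Lb.e (@T16.mk En
    (@En.i (nat_lit 9586) (nat_lit 11) (nat_lit 10))
    (@En.n l5012 (nat_lit 6541) (nat_lit 1) (nat_lit 14))
    (@En.n l11283 (nat_lit 9500) (nat_lit 2) (nat_lit 5))
    (@En.n l20974 (nat_lit 6779) (nat_lit 3) (nat_lit 8))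
    (@En.n l20975 (nat_lit 9600) (nat_lit 4) (nat_lit 10))
    (@En.n l8310 (nat_lit 9388) (nat_lit 5) (nat_lit 4))
    (@En.n l20976 (nat_lit 9598) (nat_lit 6) (nat_lit 7))
    (@En.n l20977 (nat_lit 9602) (nat_lit 8) (nat_lit 11))
    (@En.n l20978 (nat_lit 9609) (nat_lit 8) (nat_lit 4))
    (@En.n l20979 (nat_lit 7043) (nat_lit 10) (nat_lit 12))
    (@En.i (nat_lit 10322) (nat_lit 11) (nat_lit 6))
    (@En.n l8620 (nat_lit 8222) (nat_lit 12) (nat_lit 8))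
    (@En.n l1899 (nat_lit 7648) (nat_lit 6) (nat_lit 12))
    (@En.n l20980 (nat_lit 8190) (nat_lit 9) (nat_lit 9))
    (@En.n l20981 (nat_lit 8774) (nat_lit 13) (nat_lit 6))
    (@En.n l28 (nat_lit 9601) (nat_lit 15) (nat_lit 2))))
  (@Cl.mk (nat_lit 0x20007000a000600090006000d000b00060003000900070005000a000e000a) (nat_lit 0x605096004007a1) (nat_lit 16) Lb.e (@T16.mk En
    (@En.n l68 (nat_lit 9588) (nat_lit 10) (nat_lit 10))
    (@En.n l22145 (nat_lit 10957) (nat_lit 1) (nat_lit 14))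
    (@En.n l22146 (nat_lit 9598) (nat_lit 2) (nat_lit 10))
    (@En.n l3451 (nat_lit 9605) (nat_lit 3) (nat_lit 5))
    (@En.n l1068 (nat_lit 6821) (nat_lit 4) (nat_lit 7))
    (@En.n l4172 (nat_lit 9603) (nat_lit 5) (nat_lit 9))
    (@En.n l7 (nat_lit 9081) (nat_lit 6) (nat_lit 3))
    (@En.n l22147 (nat_lit 1803) (nat_lit 7) (nat_lit 6))
    (@En.i (nat_lit 9509) (nat_lit 9) (nat_lit 11))
    (@En.n l22148 (nat_lit 7042) (nat_lit 10) (nat_lit 13))
    (@En.n l830 (nat_lit 9963) (nat_lit 3) (nat_lit 6))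
    (@En.n l18930 (nat_lit 8216) (nat_lit 12) (nat_lit 9))
    (@En.n l22149 (nat_lit 9866) (nat_lit 13) (nat_lit 6))
    (@En.i (nat_lit 8191) (nat_lit 8) (nat_lit 10))
    (@En.n l22150 (nat_lit 9068) (nat_lit 7) (nat_lit 7))
    (@En.n l67 (nat_lit 9602) (nat_lit 15) (nat_lit 2))))
  (@Cl.mk (nat_lit 0x20007000b000a0007000a00070005000c00060009000600040009000e0009) (nat_lit 0x27060060300691) (nat_lit 16) Lb.e (@T16.mk En
    (@En.n l68 (nat_lit 9590) (nat_lit 13) (nat_lit 9))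
    (@En.n l831 (nat_lit 11317) (nat_lit 1) (nat_lit 14))
    (@En.n l18926 (nat_lit 9599) (nat_lit 2) (nat_lit 9))
    (@En.n l18927 (nat_lit 9606) (nat_lit 3) (nat_lit 4))
    (@En.n l831 (nat_lit 5087) (nat_lit 4) (nat_lit 6))
    (@En.n l18928 (nat_lit 9888) (nat_lit 5) (nat_lit 9))
    (@En.n l16313 (nat_lit 1493) (nat_lit 6) (nat_lit 6))
    (@En.n l18929 (nat_lit 9510) (nat_lit 8) (nat_lit 12))
    (@En.n l4551 (nat_lit 8124) (nat_lit 8) (nat_lit 5))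
    (@En.n l830 (nat_lit 10301) (nat_lit 10) (nat_lit 7))
    (@En.n l18929 (nat_lit 8217) (nat_lit 11) (nat_lit 10))
    (@En.n l4551 (nat_lit 9354) (nat_lit 12) (nat_lit 7))
    (@En.n l77 (nat_lit 9602) (nat_lit 13) (nat_lit 10))
    (@En.i (nat_lit 7517) (nat_lit 14) (nat_lit 11))
    (@En.n l18930 (nat_lit 8391) (nat_lit 13) (nat_lit 7))
    (@En.n l67 (nat_lit 9603) (nat_lit 15) (nat_lit 2))))
  (@Cl.mk (nat_lit 0x20006000a0006000b00090007000d000600050003000a0007000a000e0009) (nat_lit 0x40770900040691) (nat_lit 16) Lb.e (@T16.mk En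
    (@En.n l15148 (nat_lit 9080) (nat_lit 11) (nat_lit 9))
    (@En.i (nat_lit 6538) (nat_lit 1) (nat_lit 14))
    (@En.n l15149 (nat_lit 11754) (nat_lit 2) (nat_lit 10))
    (@En.i (nat_lit 6842) (nat_lit 3) (nat_lit 7))
    (@En.n l4991 (nat_lit 9887) (nat_lit 4) (nat_lit 10))
    (@En.n l2101 (nat_lit 9598) (nat_lit 5) (nat_lit 3))
    (@En.n l18 (nat_lit 11511) (nat_lit 6) (nat_lit 5))
    (@En.n l6081 (nat_lit 9599) (nat_lit 7) (nat_lit 6))
    (@En.n l2576 (nat_lit 6879) (nat_lit 9) (nat_lit 13))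
    (@En.n l3 (nat_lit 10538) (nat_lit 10) (nat_lit 7))
    (@En.n l15150 (nat_lit 9081) (nat_lit 11) (nat_lit 9))
    (@En.n l15151 (nat_lit 9388) (nat_lit 12) (nat_lit 11))
    (@En.n l15152 (nat_lit 9868) (nat_lit 13) (nat_lit 6))
    (@En.n l15151 (nat_lit 8717) (nat_lit 14) (nat_lit 10))
    (@En.n l5154 (nat_lit 9071) (nat_lit 13) (nat_lit 6))
    (@En.n l11 (nat_lit 9604) (nat_lit 15) (nat_lit 2))))
  (@Cl.mk (nat_lit 0x2000600090006000c0006000c000b000400070004000a0005000a000e000a) (nat_lit 0x50303200050758) (nat_lit 16) Lb.e (@T16.mk En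
    (@En.n l30438 (nat_lit 9452) (nat_lit 11) (nat_lit 10))
    (@En.n l24775 (nat_lit 11618) (nat_lit 1) (nat_lit 14))
    (@En.n l15106 (nat_lit 11755) (nat_lit 2) (nat_lit 10))
    (@En.n l21807 (nat_lit 9253) (nat_lit 3) (nat_lit 5))
    (@En.n l30439 (nat_lit 9606) (nat_lit 4) (nat_lit 10))
    (@En.n l28 (nat_lit 9567) (nat_lit 5) (nat_lit 4))
    (@En.n l3141 (nat_lit 4216) (nat_lit 6) (nat_lit 7))
    (@En.n l30440 (nat_lit 9598) (nat_lit 7) (nat_lit 4))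
    (@En.n l11241 (nat_lit 11526) (nat_lit 9) (nat_lit 11))
    (@En.n l24775 (nat_lit 7045) (nat_lit 10) (nat_lit 12))
    (@En.n l117 (nat_lit 10399) (nat_lit 11) (nat_lit 6))
    (@En.n l13056 (nat_lit 9608) (nat_lit 12) (nat_lit 12))
    (@En.n l30441 (nat_lit 9361) (nat_lit 13) (nat_lit 6))
    (@En.i (nat_lit 8187) (nat_lit 9) (nat_lit 9))
    (@En.i (nat_lit 8792) (nat_lit 13) (nat_lit 6))
    (@En.n l3 (nat_lit 9605) (nat_lit 15) (nat_lit 2))))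
  (@Cl.mk (nat_lit 0x20006000b00090007000c00070005000c00040007000a00040009000e0009) (nat_lit 0x46070020040657) (nat_lit 16) Lb.e (@T16.mk En
    (@En.n l21285 (nat_lit 9453) (nat_lit 13) (nat_lit 9))
    (@En.n l8763 (nat_lit 11620) (nat_lit 1) (nat_lit 14))
    (@En.n l13783 (nat_lit 12624) (nat_lit 2) (nat_lit 9))
    (@En.n l13784 (nat_lit 9263) (nat_lit 3) (nat_lit 4))
    (@En.n l619 (nat_lit 9889) (nat_lit 4) (nat_lit 10))
    (@En.n l7340 (nat_lit 4215) (nat_lit 5) (nat_lit 7))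
    (@En.n l21286 (nat_lit 9599) (nat_lit 6) (nat_lit 4))
    (@En.n l21287 (nat_lit 11527) (nat_lit 8) (nat_lit 12))
    (@En.i (nat_lit 8126) (nat_lit 8) (nat_lit 5))
    (@En.n l21288 (nat_lit 10397) (nat_lit 10) (nat_lit 7))
    (@En.n l10037 (nat_lit 9607) (nat_lit 11) (nat_lit 12))
    (@En.n l13782 (nat_lit 9352) (nat_lit 12) (nat_lit 7))
    (@En.n l21289 (nat_lit 9605) (nat_lit 13) (nat_lit 9))
    (@En.n l13782 (nat_lit 6365) (nat_lit 14) (nat_lit 11))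
    (@En.i (nat_lit 8791) (nat_lit 13) (nat_lit 6))
    (@En.n l107 (nat_lit 9606) (nat_lit 15) (nat_lit 2))))
  (@Cl.mk (nat_lit 0x20006000c0009000c00060004000b0004000c0007000a00050004000e000a) (nat_lit 0x45600206050078) (nat_lit 16) Lb.e (@T16.mk En
    (@En.n l16723 (nat_lit 9457) (nat_lit 14) (nat_lit 10))
    (@En.n l951 (nat_lit 11622) (nat_lit 1) (nat_lit 14))
    (@En.n l16724 (nat_lit 9501) (nat_lit 2) (nat_lit 4))
    (@En.n l5701 (nat_lit 9262) (nat_lit 3) (nat_lit 5))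
    (@En.i (nat_lit 8999) (nat_lit 4) (nat_lit 10))
    (@En.n l14059 (nat_lit 9606) (nat_lit 5) (nat_lit 7))
    (@En.n l7206 (nat_lit 7006) (nat_lit 7) (nat_lit 12))
    (@En.n l2243 (nat_lit 9600) (nat_lit 7) (nat_lit 4))
    (@En.n l16725 (nat_lit 11523) (nat_lit 9) (nat_lit 11))
    (@En.i (nat_lit 8127) (nat_lit 9) (nat_lit 4))
    (@En.n l2243 (nat_lit 10056) (nat_lit 11) (nat_lit 6))
    (@En.n l16724 (nat_lit 8638) (nat_lit 12) (nat_lit 12))
    (@En.n l16726 (nat_lit 9608) (nat_lit 13) (nat_lit 9))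
    (@En.n l4861 (nat_lit 6363) (nat_lit 14) (nat_lit 12))
    (@En.i (nat_lit 8790) (nat_lit 13) (nat_lit 6))
    (@En.n l3 (nat_lit 9607) (nat_lit 15) (nat_lit 2))))
  (@Cl.mk (nat_lit 0x200060009000c0005000b000a0004000b00070005000a00060005000e000b) (nat_lit 0x42022070060069) (nat_lit 16) Lb.e (@T16.mk En
    (@En.n l4270 (nat_lit 9458) (nat_lit 4) (nat_lit 11))
    (@En.n l1638 (nat_lit 11621) (nat_lit 1) (nat_lit 14))
    (@En.n l6103 (nat_lit 9497) (nat_lit 2) (nat_lit 5))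
    (@En.n l15757 (nat_lit 9252) (nat_lit 3) (nat_lit 6))
    (@En.n l15758 (nat_lit 9607) (nat_lit 4) (nat_lit 10))
    (@En.n l15759 (nat_lit 9563) (nat_lit 5) (nat_lit 5))
    (@En.n l5236 (nat_lit 9605) (nat_lit 6) (nat_lit 7))
    (@En.n l15760 (nat_lit 7004) (nat_lit 8) (nat_lit 11))
    (@En.n l15761 (nat_lit 9601) (nat_lit 8) (nat_lit 4))
    (@En.i (nat_lit 9438) (nat_lit 10) (nat_lit 10))
    (@En.n l15758 (nat_lit 7046) (nat_lit 11) (nat_lit 11))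
    (@En.n l15760 (nat_lit 10063) (nat_lit 12) (nat_lit 5))
    (@En.n l2682 (nat_lit 8130) (nat_lit 6) (nat_lit 12))
    (@En.i (nat_lit 8188) (nat_lit 9) (nat_lit 9))
    (@En.n l5234 (nat_lit 8773) (nat_lit 13) (nat_lit 6))
    (@En.n l50 (nat_lit 9608) (nat_lit 15) (nat_lit 2))))
  (@Cl.mk (nat_lit 0x200060009000c000a000900070004000b00070006000a00070005000e0009) (nat_lit 0x25870030040020) (nat_lit 16) Lb.e (@T16.mk En
    (@En.n l23833 (nat_lit 9911) (nat_lit 1) (nat_lit 9))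
    (@En.n l4589 (nat_lit 6545) (nat_lit 1) (nat_lit 14))
    (@En.n l7 (nat_lit 11257) (nat_lit 2) (nat_lit 5))
    (@En.n l4589 (nat_lit 5287) (nat_lit 3) (nat_lit 7))
    (@En.n l3 (nat_lit 9611) (nat_lit 4) (nat_lit 10))
    (@En.n l3 (nat_lit 9613) (nat_lit 5) (nat_lit 6))
    (@En.n l4592 (nat_lit 9610) (nat_lit 6) (nat_lit 7))
    (@En.n l22777 (nat_lit 9511) (nat_lit 8) (nat_lit 11))
    (@En.n l23834 (nat_lit 9608) (nat_lit 8) (nat_lit 4))
    (@En.n l1501 (nat_lit 10316) (nat_lit 10) (nat_lit 7))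
    (@En.n l12696 (nat_lit 8633) (nat_lit 11) (nat_lit 9))
    (@En.n l23835 (nat_lit 9384) (nat_lit 12) (nat_lit 10))
    (@En.n l1472 (nat_lit 7652) (nat_lit 13) (nat_lit 12))
    (@En.n l12696 (nat_lit 5851) (nat_lit 9) (nat_lit 9))
    (@En.n l23836 (nat_lit 10503) (nat_lit 13) (nat_lit 6))
    (@En.n l18 (nat_lit 9609) (nat_lit 15) (nat_lit 2))))
  (@Cl.mk (nat_lit 0x2000600090006000c000b000a0008000400070005000a0006000a000e0008) (nat_lit 0x30688000030590) (nat_lit 16) Lb.e (@T16.mk En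
    (@En.n l11512 (nat_lit 9916) (nat_lit 1) (nat_lit 8))
    (@En.i (nat_lit 6544) (nat_lit 1) (nat_lit 14))
    (@En.n l37276 (nat_lit 12327) (nat_lit 2) (nat_lit 10))
    (@En.i (nat_lit 5284) (nat_lit 3) (nat_lit 6))
    (@En.n l899 (nat_lit 9612) (nat_lit 4) (nat_lit 10))
    (@En.i (nat_lit 11515) (nat_lit 5) (nat_lit 5))
    (@En.i (nat_lit 10092) (nat_lit 6) (nat_lit 7))
    (@En.n l13460 (nat_lit 9605) (nat_lit 7) (nat_lit 4))
    (@En.n l55 (nat_lit 10320) (nat_lit 0) (nat_lit 8))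
    (@En.n l619 (nat_lit 11531) (nat_lit 10) (nat_lit 10))
    (@En.n l3866 (nat_lit 9604) (nat_lit 11) (nat_lit 11))
    (@En.n l12585 (nat_lit 9609) (nat_lit 12) (nat_lit 12))
    (@En.n l10971 (nat_lit 9870) (nat_lit 13) (nat_lit 6))
    (@En.n l5374 (nat_lit 7708) (nat_lit 9) (nat_lit 9))
    (@En.n l5934 (nat_lit 11862) (nat_lit 13) (nat_lit 6))
    (@En.n l7 (nat_lit 9610) (nat_lit 15) (nat_lit 2))))
  (@Cl.mk (nat_lit 0x20006000d0009000c0003000a00080004000c0007000a00060004000e0008) (nat_lit 0x43608103030090) (nat_lit 16) Lb.e (@T16.mk En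
    (@En.n l1501 (nat_lit 9914) (nat_lit 5) (nat_lit 8))
    (@En.n l396 (nat_lit 6548) (nat_lit 1) (nat_lit 14))
    (@En.n l7 (nat_lit 11256) (nat_lit 2) (nat_lit 4))
    (@En.n l2738 (nat_lit 5282) (nat_lit 3) (nat_lit 6))
    (@En.i (nat_lit 6137) (nat_lit 4) (nat_lit 10))
    (@En.n l420 (nat_lit 9612) (nat_lit 5) (nat_lit 7))
    (@En.i (nat_lit 9513) (nat_lit 7) (nat_lit 12))
    (@En.n l916 (nat_lit 9607) (nat_lit 7) (nat_lit 4))
    (@En.n l1501 (nat_lit 8619) (nat_lit 9) (nat_lit 8))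
    (@En.i (nat_lit 11530) (nat_lit 10) (nat_lit 10))
    (@En.n l117 (nat_lit 9613) (nat_lit 10) (nat_lit 3))
    (@En.n l158 (nat_lit 8647) (nat_lit 12) (nat_lit 12))
    (@En.i (nat_lit 9609) (nat_lit 13) (nat_lit 9))
    (@En.i (nat_lit 5857) (nat_lit 14) (nat_lit 13))
    (@En.n l4600 (nat_lit 10501) (nat_lit 13) (nat_lit 6))
    (@En.n l18 (nat_lit 9611) (nat_lit 15) (nat_lit 2))))
  (@Cl.mk (nat_lit 0x20006000c00090007000c0004000b000900040007000a00050009000e0007) (nat_lit 0x54070700020440) (nat_lit 16) Lb.e (@T16.mk En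
    (@En.n l6204 (nat_lit 9917) (nat_lit 6) (nat_lit 7))
    (@En.i (nat_lit 6547) (nat_lit 1) (nat_lit 14))
    (@En.n l766 (nat_lit 12636) (nat_lit 2) (nat_lit 9))
    (@En.n l2642 (nat_lit 5279) (nat_lit 3) (nat_lit 5))
    (@En.i (nat_lit 11266) (nat_lit 4) (nat_lit 10))
    (@En.n l1081 (nat_lit 10093) (nat_lit 11) (nat_lit 7))
    (@En.n l23797 (nat_lit 9606) (nat_lit 6) (nat_lit 4))
    (@En.n l77 (nat_lit 12475) (nat_lit 0) (nat_lit 9))
    (@En.n l3328 (nat_lit 11529) (nat_lit 9) (nat_lit 11))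
    (@En.n l6610 (nat_lit 11513) (nat_lit 9) (nat_lit 4))
    (@En.n l387 (nat_lit 9611) (nat_lit 11) (nat_lit 12))
    (@En.n l23798 (nat_lit 9638) (nat_lit 12) (nat_lit 7))
    (@En.n l2642 (nat_lit 9610) (nat_lit 13) (nat_lit 9))
    (@En.n l18150 (nat_lit 10792) (nat_lit 14) (nat_lit 12))
    (@En.n l2179 (nat_lit 11957) (nat_lit 13) (nat_lit 6))
    (@En.n l50 (nat_lit 9612) (nat_lit 15) (nat_lit 2))))
  (@Cl.mk (nat_lit 0x20006000d000b000a0003000a00080005000c0006000a00060004000e0008) (nat_lit 0x436081030300a0) (nat_lit 16) Lb.e (@T16.mk En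
    (@En.n l17308 (nat_lit 9918) (nat_lit 5) (nat_lit 8))
    (@En.n l396 (nat_lit 6549) (nat_lit 1) (nat_lit 14))
    (@En.n l7 (nat_lit 11255) (nat_lit 2) (nat_lit 4))
    (@En.n l1800 (nat_lit 1736) (nat_lit 3) (nat_lit 6))
    (@En.i (nat_lit 6134) (nat_lit 4) (nat_lit 10))
    (@En.i (nat_lit 11513) (nat_lit 5) (nat_lit 6))
    (@En.n l12128 (nat_lit 9512) (nat_lit 7) (nat_lit 12))
    (@En.n l1652 (nat_lit 9563) (nat_lit 7) (nat_lit 5))
    (@En.n l17308 (nat_lit 8612) (nat_lit 9) (nat_lit 8))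
    (@En.i (nat_lit 9870) (nat_lit 10) (nat_lit 10))
    (@En.n l152 (nat_lit 9611) (nat_lit 10) (nat_lit 3))
    (@En.n l7805 (nat_lit 11518) (nat_lit 12) (nat_lit 10))
    (@En.n l619 (nat_lit 9600) (nat_lit 13) (nat_lit 11))
    (@En.n l19016 (nat_lit 5858) (nat_lit 14) (nat_lit 13))
    (@En.n l23816 (nat_lit 10502) (nat_lit 13) (nat_lit 6))
    (@En.n l18 (nat_lit 9613) (nat_lit 15) (nat_lit 2))))
  (@Cl.mk (nat_lit 0x20006000c000a000800060004000a000e00060002000a00080006000e000a) (nat_lit 0x575004900510b3) (nat_lit 16) Lb.e (@T16.mk En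
    (@En.n l19704 (nat_lit 9615) (nat_lit 11) (nat_lit 10))
    (@En.n l23477 (nat_lit 6950) (nat_lit 1) (nat_lit 14))
    (@En.n l24887 (nat_lit 6935) (nat_lit 2) (nat_lit 6))
    (@En.n l24888 (nat_lit 496) (nat_lit 14) (nat_lit 8))
    (@En.n l20978 (nat_lit 9609) (nat_lit 4) (nat_lit 10))
    (@En.n l17 (nat_lit 9614) (nat_lit 5) (nat_lit 2))
    (@En.n l24889 (nat_lit 9617) (nat_lit 6) (nat_lit 6))
    (@En.i (nat_lit 7411) (nat_lit 8) (nat_lit 14))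
    (@En.n l24890 (nat_lit 9530) (nat_lit 9) (nat_lit 10))
    (@En.n l12860 (nat_lit 7352) (nat_lit 9) (nat_lit 4))
    (@En.i (nat_lit 8094) (nat_lit 4) (nat_lit 6))
    (@En.n l24888 (nat_lit 7764) (nat_lit 12) (nat_lit 8))
    (@En.n l24891 (nat_lit 8134) (nat_lit 13) (nat_lit 10))
    (@En.n l1690 (nat_lit 6294) (nat_lit 8) (nat_lit 12))
    (@En.i (nat_lit 9619) (nat_lit 8) (nat_lit 6))
    (@En.n l28 (nat_lit 9614) (nat_lit 15) (nat_lit 2))))
  (@Cl.mk (nat_lit 0x2000b00090006000a000a0005000b00090007000600060005000a000e0007) (nat_lit 0x510280350000540) (nat_lit 16) Lb.e (@T16.mk En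
    (@En.n l61 (nat_lit 9616) (nat_lit 3) (nat_lit 7))
    (@En.n l8306 (nat_lit 6038) (nat_lit 1) (nat_lit 14))
    (@En.n l14670 (nat_lit 9314) (nat_lit 2) (nat_lit 10))
    (@En.n l35469 (nat_lit 7951) (nat_lit 3) (nat_lit 5))
    (@En.n l16883 (nat_lit 9614) (nat_lit 10) (nat_lit 6))
    (@En.n l8306 (nat_lit 9621) (nat_lit 5) (nat_lit 6))
    (@En.n l33384 (nat_lit 7894) (nat_lit 6) (nat_lit 7))
    (@En.i (nat_lit 8140) (nat_lit 8) (nat_lit 9))
    (@En.n l35470 (nat_lit 6288) (nat_lit 9) (nat_lit 11))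
    (@En.n l936 (nat_lit 9624) (nat_lit 9) (nat_lit 5))
    (@En.n l55 (nat_lit 9908) (nat_lit 6) (nat_lit 10))
    (@En.i (nat_lit 11311) (nat_lit 12) (nat_lit 10))
    (@En.n l6136 (nat_lit 6938) (nat_lit 13) (nat_lit 6))
    (@En.n l35471 (nat_lit 494) (nat_lit 14) (nat_lit 9))
    (@En.n l35470 (nat_lit 9911) (nat_lit 4) (nat_lit 11))
    (@En.n l18 (nat_lit 9615) (nat_lit 15) (nat_lit 2))))
noncomputable def a601 : T16 Cl := @T16.mk Cl
  (@Cl.mk (nat_lit 0x5000900090005000a000900090008000700070006000b00070007000b0008) (nat_lit 0x270116600060045) (nat_lit 16) Lb.e (@T16.mk En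
    (@En.n l10040 (nat_lit 1420) (nat_lit 0) (nat_lit 8))
    (@En.n l40809 (nat_lit 9918) (nat_lit 8) (nat_lit 11))
    (@En.n l27700 (nat_lit 9835) (nat_lit 9) (nat_lit 7))
    (@En.n l40810 (nat_lit 8185) (nat_lit 6) (nat_lit 7))
    (@En.n l40811 (nat_lit 9313) (nat_lit 9) (nat_lit 11))
    (@En.n l40812 (nat_lit 7959) (nat_lit 10) (nat_lit 6))
    (@En.n l26276 (nat_lit 9617) (nat_lit 9) (nat_lit 7))
    (@En.n l40809 (nat_lit 9620) (nat_lit 9) (nat_lit 7))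
    (@En.n l8044 (nat_lit 7190) (nat_lit 8) (nat_lit 8))
    (@En.n l2687 (nat_lit 9615) (nat_lit 7) (nat_lit 9))
    (@En.i (nat_lit 8139) (nat_lit 7) (nat_lit 9))
    (@En.n l40810 (nat_lit 5917) (nat_lit 10) (nat_lit 10))
    (@En.n l40813 (nat_lit 9622) (nat_lit 15) (nat_lit 5))
    (@En.n l55 (nat_lit 9906) (nat_lit 7) (nat_lit 9))
    (@En.i (nat_lit 11322) (nat_lit 10) (nat_lit 9))
    (@En.n l30142 (nat_lit 6936) (nat_lit 2) (nat_lit 5))))
  (@Cl.mk (nat_lit 0x20006000b000a000a000900070005000b00060006000a00070005000e0009) (nat_lit 0x21870050040023) (nat_lit 16) Lb.e (@T16.mk En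
    (@En.n l30080 (nat_lit 9616) (nat_lit 14) (nat_lit 9))
    (@En.n l30081 (nat_lit 6952) (nat_lit 1) (nat_lit 14))
    (@En.n l23978 (nat_lit 6932) (nat_lit 2) (nat_lit 5))
    (@En.n l18 (nat_lit 1590) (nat_lit 3) (nat_lit 7))
    (@En.n l14227 (nat_lit 9613) (nat_lit 4) (nat_lit 10))
    (@En.n l77 (nat_lit 9838) (nat_lit 5) (nat_lit 6))
    (@En.n l30082 (nat_lit 9887) (nat_lit 6) (nat_lit 6))
    (@En.n l117 (nat_lit 9517) (nat_lit 8) (nat_lit 11))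
    (@En.n l3492 (nat_lit 7350) (nat_lit 8) (nat_lit 5))
    (@En.n l30083 (nat_lit 7636) (nat_lit 10) (nat_lit 7))
    (@En.n l30084 (nat_lit 9880) (nat_lit 11) (nat_lit 9))
    (@En.n l30085 (nat_lit 9614) (nat_lit 12) (nat_lit 10))
    (@En.n l30086 (nat_lit 8136) (nat_lit 13) (nat_lit 10))
    (@En.n l30087 (nat_lit 7144) (nat_lit 14) (nat_lit 11))
    (@En.n l30088 (nat_lit 9618) (nat_lit 13) (nat_lit 6))
    (@En.n l67 (nat_lit 9617) (nat_lit 15) (nat_lit 2))))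
  (@Cl.mk (nat_lit 0x3000a0006000b000a000a000800060005000a00060006000a000d00080006) (nat_lit 0x407235005004860) (nat_lit 16) Lb.e (@T16.mk En
    (@En.n l30640 (nat_lit 6835) (nat_lit 0) (nat_lit 6))
    (@En.n l35169 (nat_lit 9616) (nat_lit 0) (nat_lit 8))
    (@En.n l6238 (nat_lit 6361) (nat_lit 5) (nat_lit 13))
    (@En.n l40930 (nat_lit 10502) (nat_lit 3) (nat_lit 10))
    (@En.n l40931 (nat_lit 9852) (nat_lit 10) (nat_lit 6))
    (@En.i (nat_lit 10861) (nat_lit 5) (nat_lit 6))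
    (@En.n l19318 (nat_lit 9275) (nat_lit 7) (nat_lit 10))
    (@En.n l6238 (nat_lit 9410) (nat_lit 11) (nat_lit 5))
    (@En.n l396 (nat_lit 7635) (nat_lit 8) (nat_lit 6))
    (@En.n l27942 (nat_lit 4321) (nat_lit 8) (nat_lit 8))
    (@En.n l32192 (nat_lit 9619) (nat_lit 6) (nat_lit 10))
    (@En.n l40932 (nat_lit 10386) (nat_lit 6) (nat_lit 10))
    (@En.n l10225 (nat_lit 9124) (nat_lit 13) (nat_lit 11))
    (@En.n l7 (nat_lit 9623) (nat_lit 14) (nat_lit 6))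
    (@En.n l644 (nat_lit 9622) (nat_lit 0) (nat_lit 10))
    (@En.n l36379 (nat_lit 9620) (nat_lit 15) (nat_lit 3))))
  (@Cl.mk (nat_lit 0x2000a000d000900070003000b0006000c000a0007000500040009000e0006) (nat_lit 0x5520050720004b0) (nat_lit 16) Lb.e (@T16.mk En
    (@En.n l31042 (nat_lit 9618) (nat_lit 5) (nat_lit 6))
    (@En.i (nat_lit 7135) (nat_lit 1) (nat_lit 14))
    (@En.n l31043 (nat_lit 9276) (nat_lit 2) (nat_lit 9))
    (@En.n l12860 (nat_lit 9407) (nat_lit 3) (nat_lit 4))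
    (@En.i (nat_lit 8093) (nat_lit 4) (nat_lit 5))
    (@En.n l31044 (nat_lit 4653) (nat_lit 5) (nat_lit 7))
    (@En.n l31045 (nat_lit 10387) (nat_lit 7) (nat_lit 10))
    (@En.n l31044 (nat_lit 7692) (nat_lit 8) (nat_lit 12))
    (@En.n l31046 (nat_lit 9625) (nat_lit 8) (nat_lit 6))
    (@En.n l31047 (nat_lit 9624) (nat_lit 10) (nat_lit 11))
    (@En.n l10862 (nat_lit 9621) (nat_lit 10) (nat_lit 3))
    (@En.n l12857 (nat_lit 6839) (nat_lit 0) (nat_lit 7))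
    (@En.n l31048 (nat_lit 9615) (nat_lit 13) (nat_lit 9))
    (@En.i (nat_lit 6295) (nat_lit 5) (nat_lit 13))
    (@En.n l31049 (nat_lit 10503) (nat_lit 3) (nat_lit 10))
    (@En.n l17 (nat_lit 9619) (nat_lit 15) (nat_lit 2))))
  (@Cl.mk (nat_lit 0x3000a0006000b000a000a000700060005000b00060006000a000d00050009) (nat_lit 0x109130005004803) (nat_lit 16) Lb.e (@T16.mk En
    (@En.n l31588 (nat_lit 11321) (nat_lit 0) (nat_lit 9))
    (@En.i (nat_lit 9374) (nat_lit 15) (nat_lit 5))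
    (@En.n l9877 (nat_lit 7146) (nat_lit 5) (nat_lit 13))
    (@En.i (nat_lit 10500) (nat_lit 9) (nat_lit 10))
    (@En.n l11401 (nat_lit 9584) (nat_lit 10) (nat_lit 6))
    (@En.n l17324 (nat_lit 10862) (nat_lit 5) (nat_lit 6))
    (@En.n l42677 (nat_lit 9468) (nat_lit 7) (nat_lit 11))
    (@En.n l31590 (nat_lit 7400) (nat_lit 11) (nat_lit 5))
    (@En.i (nat_lit 7637) (nat_lit 10) (nat_lit 6))
    (@En.n l40449 (nat_lit 10480) (nat_lit 1) (nat_lit 7))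
    (@En.n l22642 (nat_lit 9621) (nat_lit 6) (nat_lit 10))
    (@En.n l31588 (nat_lit 6223) (nat_lit 6) (nat_lit 10))
    (@En.n l13892 (nat_lit 9108) (nat_lit 13) (nat_lit 11))
    (@En.n l32547 (nat_lit 9627) (nat_lit 14) (nat_lit 6))
    (@En.n l31655 (nat_lit 8008) (nat_lit 0) (nat_lit 10))
    (@En.n l42678 (nat_lit 9618) (nat_lit 15) (nat_lit 3))))
  (@Cl.mk (nat_lit 0x2000a000d0006000a0003000b0006000c000a000600050004000a000e0006) (nat_lit 0x550602032000460) (nat_lit 16) Lb.e (@T16.mk En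
    (@En.n l17645 (nat_lit 9620) (nat_lit 5) (nat_lit 6))
    (@En.i (nat_lit 7769) (nat_lit 1) (nat_lit 14))
    (@En.n l6557 (nat_lit 9467) (nat_lit 2) (nat_lit 10))
    (@En.n l50 (nat_lit 7398) (nat_lit 3) (nat_lit 4))
    (@En.i (nat_lit 8092) (nat_lit 4) (nat_lit 5))
    (@En.n l28875 (nat_lit 11203) (nat_lit 5) (nat_lit 6))
    (@En.n l217 (nat_lit 10426) (nat_lit 7) (nat_lit 10))
    (@En.n l1690 (nat_lit 7690) (nat_lit 8) (nat_lit 12))
    (@En.n l19713 (nat_lit 9626) (nat_lit 8) (nat_lit 6))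
    (@En.n l31569 (nat_lit 8006) (nat_lit 10) (nat_lit 11))
    (@En.n l10969 (nat_lit 9619) (nat_lit 10) (nat_lit 3))
    (@En.n l16069 (nat_lit 11318) (nat_lit 0) (nat_lit 10))
    (@En.i (nat_lit 9373) (nat_lit 13) (nat_lit 6))
    (@En.n l2038 (nat_lit 6293) (nat_lit 5) (nat_lit 13))
    (@En.n l10584 (nat_lit 10504) (nat_lit 3) (nat_lit 10))
    (@En.n l17 (nat_lit 9621) (nat_lit 15) (nat_lit 2))))
  (@Cl.mk (nat_lit 0x5000a0009000900070006000a0006000a00070007000b000600090006000a) (nat_lit 0x604004060050603) (nat_lit 16) Lb.e (@T16.mk En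
    (@En.n l35169 (nat_lit 9934) (nat_lit 9) (nat_lit 10))
    (@En.n l42205 (nat_lit 5420) (nat_lit 1) (nat_lit 6))
    (@En.n l35169 (nat_lit 9906) (nat_lit 9) (nat_lit 9))
    (@En.n l3107 (nat_lit 9861) (nat_lit 1) (nat_lit 6))
    (@En.n l14270 (nat_lit 10494) (nat_lit 8) (nat_lit 11))
    (@En.n l11 (nat_lit 9854) (nat_lit 9) (nat_lit 7))
    (@En.i (nat_lit 7553) (nat_lit 2) (nat_lit 7))
    (@En.i (nat_lit 9273) (nat_lit 9) (nat_lit 10))
    (@En.n l36174 (nat_lit 9413) (nat_lit 8) (nat_lit 6))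
    (@En.n l50 (nat_lit 9623) (nat_lit 9) (nat_lit 10))
    (@En.n l217 (nat_lit 9627) (nat_lit 10) (nat_lit 6))
    (@En.n l35169 (nat_lit 4320) (nat_lit 9) (nat_lit 7))
    (@En.n l43609 (nat_lit 9624) (nat_lit 7) (nat_lit 9))
    (@En.n l35169 (nat_lit 10373) (nat_lit 7) (nat_lit 9))
    (@En.n l41283 (nat_lit 9126) (nat_lit 10) (nat_lit 10))
    (@En.n l4172 (nat_lit 5285) (nat_lit 15) (nat_lit 5))))
  (@Cl.mk (nat_lit 0x30006000b000a000a0007000a0005000900060006000a0006000d00090007) (nat_lit 0x70403050060970) (nat_lit 16) Lb.e (@T16.mk En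
    (@En.n l9941 (nat_lit 6834) (nat_lit 0) (nat_lit 7))
    (@En.i (nat_lit 9622) (nat_lit 2) (nat_lit 9))
    (@En.i (nat_lit 9618) (nat_lit 2) (nat_lit 13))
    (@En.n l3107 (nat_lit 9859) (nat_lit 3) (nat_lit 6))
    (@En.n l14270 (nat_lit 10493) (nat_lit 4) (nat_lit 10))
    (@En.n l11 (nat_lit 9853) (nat_lit 10) (nat_lit 6))
    (@En.i (nat_lit 7552) (nat_lit 6) (nat_lit 6))
    (@En.i (nat_lit 9274) (nat_lit 10) (nat_lit 9))
    (@En.i (nat_lit 9409) (nat_lit 8) (nat_lit 5))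
    (@En.i (nat_lit 7076) (nat_lit 8) (nat_lit 10))
    (@En.n l4780 (nat_lit 4319) (nat_lit 11) (nat_lit 7))
    (@En.n l619 (nat_lit 9625) (nat_lit 6) (nat_lit 10))
    (@En.n l3866 (nat_lit 10380) (nat_lit 13) (nat_lit 10))
    (@En.i (nat_lit 9125) (nat_lit 14) (nat_lit 11))
    (@En.i (nat_lit 5284) (nat_lit 12) (nat_lit 6))
    (@En.i (nat_lit 9627) (nat_lit 15) (nat_lit 3))))
  (@Cl.mk (nat_lit 0x2000b0007000a0007000b0005000b000900060005000900050009000e0007) (nat_lit 0x602040630030540) (nat_lit 16) Lb.e (@T16.mk En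
    (@En.n l42473 (nat_lit 9622) (nat_lit 6) (nat_lit 7))
    (@En.n l37959 (nat_lit 7133) (nat_lit 1) (nat_lit 14))
    (@En.n l29919 (nat_lit 9272) (nat_lit 2) (nat_lit 9))
    (@En.n l33667 (nat_lit 9405) (nat_lit 3) (nat_lit 5))
    (@En.n l41957 (nat_lit 9625) (nat_lit 4) (nat_lit 9))
    (@En.n l16484 (nat_lit 9626) (nat_lit 5) (nat_lit 5))
    (@En.n l14316 (nat_lit 4652) (nat_lit 6) (nat_lit 6))
    (@En.i (nat_lit 10376) (nat_lit 8) (nat_lit 9))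
    (@En.n l42474 (nat_lit 9131) (nat_lit 9) (nat_lit 11))
    (@En.n l42475 (nat_lit 6830) (nat_lit 9) (nat_lit 5))
    (@En.i (nat_lit 11312) (nat_lit 11) (nat_lit 11))
    (@En.n l41955 (nat_lit 6916) (nat_lit 12) (nat_lit 7))
    (@En.i (nat_lit 9908) (nat_lit 8) (nat_lit 10))
    (@En.n l42476 (nat_lit 11185) (nat_lit 14) (nat_lit 7))
    (@En.n l42477 (nat_lit 9919) (nat_lit 4) (nat_lit 11))
    (@En.n l18 (nat_lit 9624) (nat_lit 15) (nat_lit 2))))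
  (@Cl.mk (nat_lit 0x2000a0007000d000a000800030006000c000a0006000900040008000e0006) (nat_lit 0x506360073020430) (nat_lit 16) Lb.e (@T16.mk En
    (@En.n l117 (nat_lit 9623) (nat_lit 6) (nat_lit 6))
    (@En.n l23329 (nat_lit 7132) (nat_lit 1) (nat_lit 14))
    (@En.i (nat_lit 9271) (nat_lit 2) (nat_lit 8))
    (@En.n l936 (nat_lit 9406) (nat_lit 3) (nat_lit 4))
    (@En.i (nat_lit 7071) (nat_lit 9) (nat_lit 9))
    (@En.n l17902 (nat_lit 4651) (nat_lit 5) (nat_lit 6))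
    (@En.n l936 (nat_lit 10395) (nat_lit 13) (nat_lit 10))
    (@En.n l3635 (nat_lit 9130) (nat_lit 8) (nat_lit 12))
    (@En.n l12686 (nat_lit 6947) (nat_lit 8) (nat_lit 6))
    (@En.n l4185 (nat_lit 9626) (nat_lit 9) (nat_lit 3))
    (@En.n l3290 (nat_lit 6833) (nat_lit 0) (nat_lit 8))
    (@En.n l39707 (nat_lit 9624) (nat_lit 12) (nat_lit 10))
    (@En.n l14381 (nat_lit 9619) (nat_lit 13) (nat_lit 13))
    (@En.n l3751 (nat_lit 11187) (nat_lit 14) (nat_lit 7))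
    (@En.n l614 (nat_lit 10508) (nat_lit 4) (nat_lit 10))
    (@En.n l11 (nat_lit 9625) (nat_lit 15) (nat_lit 2))))
  (@Cl.mk (nat_lit 0x2000a0007000d0007000b00030006000c000a0005000900040009000e0006) (nat_lit 0x506070070020430) (nat_lit 16) Lb.e (@T16.mk En
    (@En.n l22266 (nat_lit 9627) (nat_lit 6) (nat_lit 6))
    (@En.n l476 (nat_lit 7134) (nat_lit 1) (nat_lit 14))
    (@En.n l6362 (nat_lit 9466) (nat_lit 2) (nat_lit 9))
    (@En.i (nat_lit 7399) (nat_lit 3) (nat_lit 4))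
    (@En.n l4813 (nat_lit 7072) (nat_lit 4) (nat_lit 9))
    (@En.n l19447 (nat_lit 11282) (nat_lit 5) (nat_lit 5))
    (@En.i (nat_lit 10427) (nat_lit 13) (nat_lit 10))
    (@En.n l2125 (nat_lit 9136) (nat_lit 8) (nat_lit 12))
    (@En.i (nat_lit 11035) (nat_lit 12) (nat_lit 6))
    (@En.n l10847 (nat_lit 9625) (nat_lit 9) (nat_lit 3))
    (@En.n l2038 (nat_lit 11315) (nat_lit 0) (nat_lit 11))
    (@En.i (nat_lit 10049) (nat_lit 12) (nat_lit 7))
    (@En.n l12731 (nat_lit 9621) (nat_lit 13) (nat_lit 13))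
    (@En.n l4813 (nat_lit 11188) (nat_lit 14) (nat_lit 7))
    (@En.n l32113 (nat_lit 10507) (nat_lit 4) (nat_lit 10))
    (@En.n l50 (nat_lit 9626) (nat_lit 15) (nat_lit 2))))
  (@Cl.mk (nat_lit 0x30006000b000a000a0006000a0005000a00060006000a0006000d0006000a) (nat_lit 0x71103050040904) (nat_lit 16) Lb.e (@T16.mk En
    (@En.n l33383 (nat_lit 11329) (nat_lit 0) (nat_lit 10))
    (@En.i (nat_lit 9515) (nat_lit 8) (nat_lit 6))
    (@En.n l36379 (nat_lit 9620) (nat_lit 2) (nat_lit 13))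
    (@En.n l9845 (nat_lit 9862) (nat_lit 3) (nat_lit 6))
    (@En.n l38859 (nat_lit 10495) (nat_lit 4) (nat_lit 10))
    (@En.n l11 (nat_lit 9855) (nat_lit 10) (nat_lit 6))
    (@En.n l38860 (nat_lit 10868) (nat_lit 6) (nat_lit 6))
    (@En.i (nat_lit 9469) (nat_lit 8) (nat_lit 10))
    (@En.n l4189 (nat_lit 9414) (nat_lit 8) (nat_lit 5))
    (@En.i (nat_lit 7077) (nat_lit 9) (nat_lit 10))
    (@En.n l38861 (nat_lit 10481) (nat_lit 11) (nat_lit 6))
    (@En.n l11363 (nat_lit 9626) (nat_lit 6) (nat_lit 10))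
    (@En.n l33382 (nat_lit 6224) (nat_lit 13) (nat_lit 10))
    (@En.n l10226 (nat_lit 9127) (nat_lit 14) (nat_lit 11))
    (@En.i (nat_lit 11001) (nat_lit 12) (nat_lit 6))
    (@En.n l18 (nat_lit 9623) (nat_lit 15) (nat_lit 3))))
  (@Cl.mk (nat_lit 0x20009000600090007000c0007000c0007000400070004000a0009000e0009) (nat_lit 0x506060400004641) (nat_lit 16) Lb.e (@T16.mk En
    (@En.n l22370 (nat_lit 8826) (nat_lit 12) (nat_lit 9))
    (@En.i (nat_lit 10902) (nat_lit 1) (nat_lit 14))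
    (@En.n l516 (nat_lit 9631) (nat_lit 2) (nat_lit 9))
    (@En.n l35594 (nat_lit 8827) (nat_lit 3) (nat_lit 10))
    (@En.n l20977 (nat_lit 9510) (nat_lit 4) (nat_lit 4))
    (@En.n l35595 (nat_lit 4212) (nat_lit 5) (nat_lit 7))
    (@En.n l28 (nat_lit 5105) (nat_lit 6) (nat_lit 4))
    (@En.n l35596 (nat_lit 1516) (nat_lit 7) (nat_lit 7))
    (@En.i (nat_lit 12717) (nat_lit 9) (nat_lit 12))
    (@En.n l3396 (nat_lit 10377) (nat_lit 10) (nat_lit 7))
    (@En.n l35597 (nat_lit 8829) (nat_lit 11) (nat_lit 12))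
    (@En.n l35598 (nat_lit 9351) (nat_lit 12) (nat_lit 7))
    (@En.n l3396 (nat_lit 8280) (nat_lit 13) (nat_lit 9))
    (@En.n l18896 (nat_lit 9605) (nat_lit 14) (nat_lit 6))
    (@En.n l35599 (nat_lit 8393) (nat_lit 8) (nat_lit 9))
    (@En.n l17 (nat_lit 9628) (nat_lit 15) (nat_lit 2))))
  (@Cl.mk (nat_lit 0x20008000d000600090003000c0008000c0008000400070004000a000e0008) (nat_lit 0x670308611000532) (nat_lit 16) Lb.e (@T16.mk En
    (@En.n l41563 (nat_lit 9369) (nat_lit 5) (nat_lit 8))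
    (@En.i (nat_lit 6825) (nat_lit 1) (nat_lit 14))
    (@En.n l899 (nat_lit 9632) (nat_lit 2) (nat_lit 10))
    (@En.i (nat_lit 9512) (nat_lit 3) (nat_lit 4))
    (@En.n l14789 (nat_lit 11232) (nat_lit 4) (nat_lit 7))
    (@En.n l1865 (nat_lit 6641) (nat_lit 5) (nat_lit 4))
    (@En.n l17213 (nat_lit 2588) (nat_lit 6) (nat_lit 8))
    (@En.n l5372 (nat_lit 5660) (nat_lit 8) (nat_lit 12))
    (@En.i (nat_lit 10030) (nat_lit 14) (nat_lit 8))
    (@En.n l37030 (nat_lit 9630) (nat_lit 10) (nat_lit 12))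
    (@En.n l14316 (nat_lit 9631) (nat_lit 10) (nat_lit 3))
    (@En.n l5372 (nat_lit 5220) (nat_lit 12) (nat_lit 9))
    (@En.n l5389 (nat_lit 9628) (nat_lit 13) (nat_lit 6))
    (@En.n l5372 (nat_lit 12626) (nat_lit 14) (nat_lit 13))
    (@En.n l22493 (nat_lit 10653) (nat_lit 3) (nat_lit 8))
    (@En.n l28 (nat_lit 9629) (nat_lit 15) (nat_lit 2))))
  (@Cl.mk (nat_lit 0x20009000800060009000c0007000b00070004000800070005000a000e0009) (nat_lit 0x610370100400642) (nat_lit 16) Lb.e (@T16.mk En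
    (@En.n l30081 (nat_lit 9368) (nat_lit 3) (nat_lit 9))
    (@En.n l40508 (nat_lit 6824) (nat_lit 1) (nat_lit 14))
    (@En.n l40509 (nat_lit 9633) (nat_lit 2) (nat_lit 10))
    (@En.n l22468 (nat_lit 9568) (nat_lit 3) (nat_lit 5))
    (@En.n l40510 (nat_lit 9629) (nat_lit 4) (nat_lit 7))
    (@En.n l40511 (nat_lit 9634) (nat_lit 5) (nat_lit 8))
    (@En.n l4260 (nat_lit 6645) (nat_lit 6) (nat_lit 4))
    (@En.n l22470 (nat_lit 2587) (nat_lit 7) (nat_lit 7))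
    (@En.n l13489 (nat_lit 5661) (nat_lit 9) (nat_lit 11))
    (@En.n l18108 (nat_lit 10726) (nat_lit 10) (nat_lit 7))
    (@En.i (nat_lit 9838) (nat_lit 6) (nat_lit 12))
    (@En.n l18108 (nat_lit 5218) (nat_lit 12) (nat_lit 9))
    (@En.i (nat_lit 8829) (nat_lit 13) (nat_lit 6))
    (@En.n l27807 (nat_lit 9529) (nat_lit 14) (nat_lit 8))
    (@En.n l40512 (nat_lit 10651) (nat_lit 1) (nat_lit 9))
    (@En.n l7 (nat_lit 9630) (nat_lit 15) (nat_lit 2))))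
  (@Cl.mk (nat_lit 0x20008000d000800070003000c0008000c00080004000800040009000e0008) (nat_lit 0x452008611020532) (nat_lit 16) Lb.e (@T16.mk En
    (@En.n l16649 (nat_lit 9372) (nat_lit 5) (nat_lit 8))
    (@En.n l17581 (nat_lit 6828) (nat_lit 1) (nat_lit 14))
    (@En.n l17586 (nat_lit 7582) (nat_lit 2) (nat_lit 9))
    (@En.n l17662 (nat_lit 9513) (nat_lit 3) (nat_lit 4))
    (@En.n l23644 (nat_lit 11235) (nat_lit 4) (nat_lit 8))
    (@En.n l23514 (nat_lit 6638) (nat_lit 5) (nat_lit 4))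
    (@En.n l2638 (nat_lit 2589) (nat_lit 6) (nat_lit 8))
    (@En.i (nat_lit 5662) (nat_lit 8) (nat_lit 12))
    (@En.n l2650 (nat_lit 10731) (nat_lit 14) (nat_lit 8))
    (@En.n l20182 (nat_lit 9835) (nat_lit 10) (nat_lit 12))
    (@En.n l33319 (nat_lit 9629) (nat_lit 10) (nat_lit 3))
    (@En.n l4570 (nat_lit 11014) (nat_lit 12) (nat_lit 7))
    (@En.n l20183 (nat_lit 9630) (nat_lit 13) (nat_lit 8))
    (@En.n l4570 (nat_lit 11067) (nat_lit 14) (nat_lit 13))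
    (@En.n l33320 (nat_lit 10659) (nat_lit 3) (nat_lit 8))
    (@En.n l17 (nat_lit 9631) (nat_lit 15) (nat_lit 2))))
noncomputable def a602 : T16 Cl := @T16.mk Cl
  (@Cl.mk (nat_lit 0x20007000c0006000b00090004000c00090005000900040007000a000e0007) (nat_lit 0x60440870100430) (nat_lit 16) Lb.e (@T16.mk En
    (@En.n l33314 (nat_lit 9370) (nat_lit 6) (nat_lit 7))
    (@En.n l2642 (nat_lit 9596) (nat_lit 1) (nat_lit 14))
    (@En.i (nat_lit 12842) (nat_lit 8) (nat_lit 10))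
    (@En.n l2642 (nat_lit 11231) (nat_lit 3) (nat_lit 7))
    (@En.n l1080 (nat_lit 6560) (nat_lit 4) (nat_lit 4))
    (@En.n l33315 (nat_lit 2290) (nat_lit 5) (nat_lit 9))
    (@En.n l33316 (nat_lit 9855) (nat_lit 6) (nat_lit 5))
    (@En.n l55 (nat_lit 10029) (nat_lit 8) (nat_lit 9))
    (@En.n l617 (nat_lit 9633) (nat_lit 9) (nat_lit 12))
    (@En.n l17 (nat_lit 7582) (nat_lit 9) (nat_lit 4))
    (@En.n l2642 (nat_lit 9629) (nat_lit 11) (nat_lit 9))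
    (@En.n l33316 (nat_lit 9636) (nat_lit 12) (nat_lit 11))
    (@En.n l25720 (nat_lit 8827) (nat_lit 13) (nat_lit 6))
    (@En.n l33317 (nat_lit 12625) (nat_lit 14) (nat_lit 12))
    (@En.n l5934 (nat_lit 10657) (nat_lit 13) (nat_lit 7))
    (@En.n l7 (nat_lit 9632) (nat_lit 15) (nat_lit 2))))
  (@Cl.mk (nat_lit 0x2000800070006000c0009000c000800040008000400090007000a000e0008) (nat_lit 0x500447603030551) (nat_lit 16) Lb.e (@T16.mk En
    (@En.n l11512 (nat_lit 9364) (nat_lit 9) (nat_lit 8))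
    (@En.n l9060 (nat_lit 9597) (nat_lit 1) (nat_lit 14))
    (@En.i (nat_lit 9223) (nat_lit 2) (nat_lit 10))
    (@En.n l61 (nat_lit 9632) (nat_lit 3) (nat_lit 7))
    (@En.n l7245 (nat_lit 9635) (nat_lit 4) (nat_lit 9))
    (@En.i (nat_lit 6557) (nat_lit 5) (nat_lit 4))
    (@En.n l2869 (nat_lit 2586) (nat_lit 6) (nat_lit 8))
    (@En.n l37031 (nat_lit 9584) (nat_lit 7) (nat_lit 4))
    (@En.n l7245 (nat_lit 10725) (nat_lit 0) (nat_lit 8))
    (@En.n l37032 (nat_lit 7143) (nat_lit 10) (nat_lit 12))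
    (@En.n l37033 (nat_lit 9630) (nat_lit 11) (nat_lit 9))
    (@En.n l7231 (nat_lit 9637) (nat_lit 12) (nat_lit 12))
    (@En.n l37034 (nat_lit 8819) (nat_lit 13) (nat_lit 6))
    (@En.n l37032 (nat_lit 9894) (nat_lit 14) (nat_lit 7))
    (@En.n l5934 (nat_lit 10652) (nat_lit 6) (nat_lit 8))
    (@En.n l7 (nat_lit 9633) (nat_lit 15) (nat_lit 2))))
  (@Cl.mk (nat_lit 0x200080008000d0007000a00030008000c00080008000600040009000e0008) (nat_lit 0x508010021300622) (nat_lit 16) Lb.e (@T16.mk En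
    (@En.n l30950 (nat_lit 11323) (nat_lit 6) (nat_lit 8))
    (@En.n l20949 (nat_lit 6699) (nat_lit 1) (nat_lit 14))
    (@En.n l30842 (nat_lit 9635) (nat_lit 2) (nat_lit 9))
    (@En.n l18001 (nat_lit 9929) (nat_lit 3) (nat_lit 4))
    (@En.i (nat_lit 11226) (nat_lit 4) (nat_lit 6))
    (@En.n l152 (nat_lit 9926) (nat_lit 8) (nat_lit 8))
    (@En.n l2225 (nat_lit 2590) (nat_lit 6) (nat_lit 8))
    (@En.i (nat_lit 5652) (nat_lit 8) (nat_lit 12))
    (@En.n l2228 (nat_lit 10559) (nat_lit 9) (nat_lit 8))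
    (@En.n l32778 (nat_lit 9933) (nat_lit 9) (nat_lit 3))
    (@En.i (nat_lit 4776) (nat_lit 0) (nat_lit 10))
    (@En.n l15797 (nat_lit 7714) (nat_lit 12) (nat_lit 7))
    (@En.n l20949 (nat_lit 9629) (nat_lit 13) (nat_lit 13))
    (@En.n l10002 (nat_lit 11331) (nat_lit 8) (nat_lit 8))
    (@En.n l32779 (nat_lit 10625) (nat_lit 4) (nat_lit 8))
    (@En.n l17 (nat_lit 9634) (nat_lit 15) (nat_lit 2))))
  (@Cl.mk (nat_lit 0x200070007000c0007000c000a0004000900040009000900060009000e0007) (nat_lit 0x70520201205b0) (nat_lit 16) Lb.e (@T16.mk En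
    (@En.n l9179 (nat_lit 11324) (nat_lit 7) (nat_lit 7))
    (@En.n l20411 (nat_lit 8997) (nat_lit 1) (nat_lit 14))
    (@En.n l7471 (nat_lit 12373) (nat_lit 9) (nat_lit 9))
    (@En.n l8186 (nat_lit 11225) (nat_lit 3) (nat_lit 6))
    (@En.n l152 (nat_lit 9925) (nat_lit 7) (nat_lit 9))
    (@En.n l1501 (nat_lit 2592) (nat_lit 5) (nat_lit 9))
    (@En.n l20412 (nat_lit 8015) (nat_lit 6) (nat_lit 4))
    (@En.i (nat_lit 10560) (nat_lit 8) (nat_lit 9))
    (@En.n l20381 (nat_lit 11305) (nat_lit 8) (nat_lit 4))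
    (@En.n l20413 (nat_lit 9634) (nat_lit 10) (nat_lit 10))
    (@En.n l8186 (nat_lit 9639) (nat_lit 11) (nat_lit 12))
    (@En.n l18840 (nat_lit 7715) (nat_lit 12) (nat_lit 7))
    (@En.n l3258 (nat_lit 9632) (nat_lit 13) (nat_lit 12))
    (@En.n l20414 (nat_lit 11332) (nat_lit 9) (nat_lit 7))
    (@En.n l20415 (nat_lit 10630) (nat_lit 5) (nat_lit 7))
    (@En.n l18 (nat_lit 9635) (nat_lit 15) (nat_lit 2))))
  (@Cl.mk (nat_lit 0x20007000d000b00080003000b00080005000c0009000500080004000e0008) (nat_lit 0x43308102204022) (nat_lit 16) Lb.e (@T16.mk En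
    (@En.n l3522 (nat_lit 9640) (nat_lit 5) (nat_lit 8))
    (@En.n l22466 (nat_lit 8181) (nat_lit 1) (nat_lit 14))
    (@En.n l32796 (nat_lit 9613) (nat_lit 2) (nat_lit 4))
    (@En.n l32797 (nat_lit 11131) (nat_lit 3) (nat_lit 8))
    (@En.n l23455 (nat_lit 1740) (nat_lit 4) (nat_lit 5))
    (@En.n l32798 (nat_lit 9525) (nat_lit 5) (nat_lit 9))
    (@En.n l28714 (nat_lit 9629) (nat_lit 7) (nat_lit 12))
    (@En.n l23455 (nat_lit 9562) (nat_lit 7) (nat_lit 5))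
    (@En.n l32799 (nat_lit 9557) (nat_lit 14) (nat_lit 8))
    (@En.n l32800 (nat_lit 9637) (nat_lit 10) (nat_lit 11))
    (@En.n l14227 (nat_lit 9638) (nat_lit 10) (nat_lit 3))
    (@En.n l32239 (nat_lit 5223) (nat_lit 12) (nat_lit 8))
    (@En.n l32797 (nat_lit 9357) (nat_lit 13) (nat_lit 11))
    (@En.i (nat_lit 10798) (nat_lit 14) (nat_lit 13))
    (@En.n l32801 (nat_lit 9878) (nat_lit 3) (nat_lit 7))
    (@En.n l67 (nat_lit 9636) (nat_lit 15) (nat_lit 2))))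
  (@Cl.mk (nat_lit 0x200080007000c0008000b00070004000b00080005000900080005000e0009) (nat_lit 0x503370022055015) (nat_lit 16) Lb.e (@T16.mk En
    (@En.n l30799 (nat_lit 9641) (nat_lit 14) (nat_lit 9))
    (@En.n l396 (nat_lit 5268) (nat_lit 1) (nat_lit 14))
    (@En.n l1770 (nat_lit 9870) (nat_lit 2) (nat_lit 5))
    (@En.n l10539 (nat_lit 9636) (nat_lit 3) (nat_lit 8))
    (@En.n l30800 (nat_lit 9639) (nat_lit 4) (nat_lit 9))
    (@En.n l551 (nat_lit 5386) (nat_lit 5) (nat_lit 5))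
    (@En.n l20179 (nat_lit 11258) (nat_lit 6) (nat_lit 8))
    (@En.n l5138 (nat_lit 9630) (nat_lit 8) (nat_lit 11))
    (@En.n l30801 (nat_lit 9564) (nat_lit 8) (nat_lit 4))
    (@En.n l5137 (nat_lit 6855) (nat_lit 10) (nat_lit 7))
    (@En.n l5138 (nat_lit 11518) (nat_lit 7) (nat_lit 11))
    (@En.n l22284 (nat_lit 5221) (nat_lit 12) (nat_lit 8))
    (@En.n l30801 (nat_lit 9354) (nat_lit 13) (nat_lit 12))
    (@En.n l30802 (nat_lit 9881) (nat_lit 14) (nat_lit 7))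
    (@En.n l30803 (nat_lit 9874) (nat_lit 5) (nat_lit 8))
    (@En.n l18 (nat_lit 9637) (nat_lit 15) (nat_lit 2))))
  (@Cl.mk (nat_lit 0x20007000d0007000c0003000b00080004000c0009000500090004000e0008) (nat_lit 0x80608002206090) (nat_lit 16) Lb.e (@T16.mk En
    (@En.n l8204 (nat_lit 9801) (nat_lit 5) (nat_lit 8))
    (@En.n l396 (nat_lit 8182) (nat_lit 1) (nat_lit 14))
    (@En.n l476 (nat_lit 9611) (nat_lit 2) (nat_lit 4))
    (@En.n l8204 (nat_lit 10936) (nat_lit 3) (nat_lit 9))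
    (@En.i (nat_lit 5361) (nat_lit 4) (nat_lit 5))
    (@En.n l20179 (nat_lit 11259) (nat_lit 5) (nat_lit 9))
    (@En.n l18071 (nat_lit 9631) (nat_lit 7) (nat_lit 12))
    (@En.n l5408 (nat_lit 9352) (nat_lit 7) (nat_lit 4))
    (@En.i (nat_lit 10443) (nat_lit 14) (nat_lit 8))
    (@En.i (nat_lit 11521) (nat_lit 10) (nat_lit 11))
    (@En.n l7805 (nat_lit 9636) (nat_lit 10) (nat_lit 3))
    (@En.n l619 (nat_lit 8938) (nat_lit 12) (nat_lit 12))
    (@En.i (nat_lit 9637) (nat_lit 13) (nat_lit 7))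
    (@En.n l5408 (nat_lit 10794) (nat_lit 14) (nat_lit 13))
    (@En.n l20180 (nat_lit 9877) (nat_lit 3) (nat_lit 7))
    (@En.n l18 (nat_lit 9638) (nat_lit 15) (nat_lit 2))))
  (@Cl.mk (nat_lit 0x200070007000d000c0009000300080004000c0009000900070004000e0008) (nat_lit 0x5420003240093) (nat_lit 16) Lb.e (@T16.mk En
    (@En.n l17185 (nat_lit 12002) (nat_lit 6) (nat_lit 8))
    (@En.n l4153 (nat_lit 6036) (nat_lit 1) (nat_lit 14))
    (@En.n l17186 (nat_lit 12330) (nat_lit 2) (nat_lit 4))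
    (@En.i (nat_lit 11126) (nat_lit 3) (nat_lit 7))
    (@En.n l152 (nat_lit 12333) (nat_lit 7) (nat_lit 9))
    (@En.n l17187 (nat_lit 11138) (nat_lit 5) (nat_lit 9))
    (@En.n l601 (nat_lit 9634) (nat_lit 7) (nat_lit 12))
    (@En.n l1393 (nat_lit 11056) (nat_lit 7) (nat_lit 4))
    (@En.n l17188 (nat_lit 10926) (nat_lit 9) (nat_lit 8))
    (@En.n l17189 (nat_lit 12315) (nat_lit 9) (nat_lit 3))
    (@En.n l77 (nat_lit 4891) (nat_lit 0) (nat_lit 9))
    (@En.n l55 (nat_lit 12319) (nat_lit 12) (nat_lit 12))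
    (@En.n l17190 (nat_lit 9636) (nat_lit 13) (nat_lit 13))
    (@En.n l5069 (nat_lit 12311) (nat_lit 14) (nat_lit 7))
    (@En.n l17191 (nat_lit 10140) (nat_lit 4) (nat_lit 7))
    (@En.n l17 (nat_lit 9639) (nat_lit 15) (nat_lit 2))))
  (@Cl.mk (nat_lit 0x3000a000800080006000c000a000600090004000800080006000d000a0007) (nat_lit 0x702092020100420) (nat_lit 16) Lb.e (@T16.mk En
    (@En.n l27087 (nat_lit 4837) (nat_lit 0) (nat_lit 7))
    (@En.n l27088 (nat_lit 9356) (nat_lit 11) (nat_lit 10))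
    (@En.n l649 (nat_lit 10116) (nat_lit 2) (nat_lit 13))
    (@En.n l27089 (nat_lit 9804) (nat_lit 3) (nat_lit 6))
    (@En.n l27090 (nat_lit 9799) (nat_lit 8) (nat_lit 8))
    (@En.n l13673 (nat_lit 6855) (nat_lit 5) (nat_lit 8))
    (@En.n l27091 (nat_lit 9918) (nat_lit 6) (nat_lit 4))
    (@En.n l27092 (nat_lit 11133) (nat_lit 9) (nat_lit 9))
    (@En.n l1865 (nat_lit 1739) (nat_lit 1) (nat_lit 6))
    (@En.n l12926 (nat_lit 11262) (nat_lit 10) (nat_lit 10))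
    (@En.n l27092 (nat_lit 9369) (nat_lit 11) (nat_lit 12))
    (@En.n l27093 (nat_lit 9939) (nat_lit 4) (nat_lit 6))
    (@En.n l18989 (nat_lit 9636) (nat_lit 8) (nat_lit 8))
    (@En.n l27094 (nat_lit 9945) (nat_lit 14) (nat_lit 8))
    (@En.n l27095 (nat_lit 9641) (nat_lit 8) (nat_lit 10))
    (@En.n l27096 (nat_lit 9801) (nat_lit 15) (nat_lit 3))))
  (@Cl.mk (nat_lit 0x50009000900070006000b0007000a000700070005000b00090006000a0009) (nat_lit 0x400020600082063) (nat_lit 16) Lb.e (@T16.mk En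
    (@En.n l40219 (nat_lit 9640) (nat_lit 7) (nat_lit 9))
    (@En.n l40220 (nat_lit 12002) (nat_lit 9) (nat_lit 10))
    (@En.n l40221 (nat_lit 1744) (nat_lit 2) (nat_lit 6))
    (@En.n l23119 (nat_lit 11260) (nat_lit 7) (nat_lit 9))
    (@En.n l6080 (nat_lit 9368) (nat_lit 10) (nat_lit 11))
    (@En.n l1778 (nat_lit 9940) (nat_lit 11) (nat_lit 5))
    (@En.n l40222 (nat_lit 9637) (nat_lit 9) (nat_lit 7))
    (@En.i (nat_lit 9944) (nat_lit 1) (nat_lit 7))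
    (@En.n l12062 (nat_lit 9384) (nat_lit 8) (nat_lit 10))
    (@En.n l40223 (nat_lit 4835) (nat_lit 1) (nat_lit 7))
    (@En.n l19868 (nat_lit 9355) (nat_lit 9) (nat_lit 11))
    (@En.n l3 (nat_lit 9884) (nat_lit 10) (nat_lit 6))
    (@En.n l742 (nat_lit 9805) (nat_lit 9) (nat_lit 7))
    (@En.n l40224 (nat_lit 9798) (nat_lit 7) (nat_lit 9))
    (@En.n l30796 (nat_lit 10720) (nat_lit 10) (nat_lit 9))
    (@En.n l40225 (nat_lit 9873) (nat_lit 15) (nat_lit 5))))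
  (@Cl.mk (nat_lit 0x30006000b00090006000c00070005000c00040007000a0004000d000a0009) (nat_lit 0x750a0050030946) (nat_lit 16) Lb.e (@T16.mk En
    (@En.n l37986 (nat_lit 8469) (nat_lit 0) (nat_lit 9))
    (@En.n l35967 (nat_lit 9811) (nat_lit 11) (nat_lit 10))
    (@En.n l37987 (nat_lit 8404) (nat_lit 2) (nat_lit 13))
    (@En.n l37988 (nat_lit 9670) (nat_lit 3) (nat_lit 4))
    (@En.n l31787 (nat_lit 10017) (nat_lit 8) (nat_lit 10))
    (@En.n l37989 (nat_lit 2588) (nat_lit 11) (nat_lit 7))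
    (@En.n l37990 (nat_lit 10663) (nat_lit 6) (nat_lit 4))
    (@En.n l37991 (nat_lit 8458) (nat_lit 0) (nat_lit 12))
    (@En.n l31787 (nat_lit 9682) (nat_lit 1) (nat_lit 5))
    (@En.n l37633 (nat_lit 8399) (nat_lit 10) (nat_lit 7))
    (@En.n l31783 (nat_lit 9067) (nat_lit 11) (nat_lit 12))
    (@En.n l245 (nat_lit 9674) (nat_lit 12) (nat_lit 6))
    (@En.n l50 (nat_lit 9644) (nat_lit 13) (nat_lit 9))
    (@En.n l34665 (nat_lit 9057) (nat_lit 14) (nat_lit 11))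
    (@En.n l36875 (nat_lit 7471) (nat_lit 12) (nat_lit 6))
    (@En.n l37992 (nat_lit 9065) (nat_lit 15) (nat_lit 3))))
  (@Cl.mk (nat_lit 0x30009000600090006000c0007000c0007000400070004000a000d000a0009) (nat_lit 0x403040000004841) (nat_lit 16) Lb.e (@T16.mk En
    (@En.n l4758 (nat_lit 2627) (nat_lit 0) (nat_lit 9))
    (@En.n l42033 (nat_lit 9423) (nat_lit 11) (nat_lit 10))
    (@En.n l2125 (nat_lit 9350) (nat_lit 5) (nat_lit 13))
    (@En.n l24340 (nat_lit 8404) (nat_lit 3) (nat_lit 10))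
    (@En.n l42034 (nat_lit 8881) (nat_lit 4) (nat_lit 4))
    (@En.n l42035 (nat_lit 2586) (nat_lit 11) (nat_lit 7))
    (@En.i (nat_lit 10656) (nat_lit 1) (nat_lit 4))
    (@En.n l16914 (nat_lit 6919) (nat_lit 0) (nat_lit 7))
    (@En.n l42035 (nat_lit 12410) (nat_lit 1) (nat_lit 12))
    (@En.n l20348 (nat_lit 8401) (nat_lit 4) (nat_lit 7))
    (@En.n l899 (nat_lit 9648) (nat_lit 11) (nat_lit 12))
    (@En.i (nat_lit 9726) (nat_lit 6) (nat_lit 6))
    (@En.n l23574 (nat_lit 9659) (nat_lit 9) (nat_lit 9))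
    (@En.n l19885 (nat_lit 9644) (nat_lit 14) (nat_lit 6))
    (@En.n l8628 (nat_lit 9475) (nat_lit 8) (nat_lit 9))
    (@En.n l42036 (nat_lit 9650) (nat_lit 15) (nat_lit 3))))
  (@Cl.mk (nat_lit 0x3000600090005000c0006000c000b000400070004000a0005000d000b000a) (nat_lit 0x4080a100040957) (nat_lit 16) Lb.e (@T16.mk En
    (@En.n l34514 (nat_lit 8467) (nat_lit 0) (nat_lit 10))
    (@En.n l830 (nat_lit 9710) (nat_lit 10) (nat_lit 11))
    (@En.n l16721 (nat_lit 9643) (nat_lit 2) (nat_lit 13))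
    (@En.n l1959 (nat_lit 9360) (nat_lit 3) (nat_lit 5))
    (@En.i (nat_lit 9642) (nat_lit 4) (nat_lit 10))
    (@En.n l7 (nat_lit 8879) (nat_lit 5) (nat_lit 4))
    (@En.n l7889 (nat_lit 2290) (nat_lit 11) (nat_lit 7))
    (@En.n l34515 (nat_lit 10661) (nat_lit 7) (nat_lit 4))
    (@En.n l829 (nat_lit 8457) (nat_lit 0) (nat_lit 11))
    (@En.i (nat_lit 12432) (nat_lit 1) (nat_lit 12))
    (@En.i (nat_lit 8425) (nat_lit 11) (nat_lit 6))
    (@En.n l7145 (nat_lit 9646) (nat_lit 12) (nat_lit 12))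
    (@En.n l245 (nat_lit 9714) (nat_lit 13) (nat_lit 5))
    (@En.n l829 (nat_lit 6305) (nat_lit 9) (nat_lit 9))
    (@En.i (nat_lit 9449) (nat_lit 12) (nat_lit 6))
    (@En.n l830 (nat_lit 9645) (nat_lit 15) (nat_lit 3))))
  (@Cl.mk (nat_lit 0x3000600090004000c0007000c000b000400070004000a0005000d0009000c) (nat_lit 0x3070a700040967) (nat_lit 16) Lb.e (@T16.mk En
    (@En.i (nat_lit 8551) (nat_lit 0) (nat_lit 12))
    (@En.i (nat_lit 9571) (nat_lit 12) (nat_lit 9))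
    (@En.n l3327 (nat_lit 9650) (nat_lit 2) (nat_lit 13))
    (@En.n l3348 (nat_lit 9656) (nat_lit 3) (nat_lit 5))
    (@En.n l998 (nat_lit 9065) (nat_lit 4) (nat_lit 10))
    (@En.n l50 (nat_lit 9795) (nat_lit 5) (nat_lit 4))
    (@En.i (nat_lit 2580) (nat_lit 11) (nat_lit 7))
    (@En.n l4361 (nat_lit 10667) (nat_lit 7) (nat_lit 4))
    (@En.n l217 (nat_lit 9661) (nat_lit 0) (nat_lit 11))
    (@En.n l3348 (nat_lit 11823) (nat_lit 1) (nat_lit 12))
    (@En.i (nat_lit 9782) (nat_lit 11) (nat_lit 7))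
    (@En.i (nat_lit 9647) (nat_lit 12) (nat_lit 12))
    (@En.n l117 (nat_lit 9716) (nat_lit 13) (nat_lit 4))
    (@En.n l2039 (nat_lit 6302) (nat_lit 9) (nat_lit 9))
    (@En.i (nat_lit 10970) (nat_lit 12) (nat_lit 6))
    (@En.n l2604 (nat_lit 9644) (nat_lit 15) (nat_lit 3))))
  (@Cl.mk (nat_lit 0x300060009000c0005000b000a0004000a00070005000a0006000d0006000b) (nat_lit 0x37093080050908) (nat_lit 16) Lb.e (@T16.mk En
    (@En.n l513 (nat_lit 8466) (nat_lit 0) (nat_lit 11))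
    (@En.n l24408 (nat_lit 11855) (nat_lit 8) (nat_lit 6))
    (@En.n l26300 (nat_lit 9648) (nat_lit 2) (nat_lit 13))
    (@En.n l21840 (nat_lit 9359) (nat_lit 3) (nat_lit 6))
    (@En.n l26301 (nat_lit 9067) (nat_lit 4) (nat_lit 10))
    (@En.n l26302 (nat_lit 9984) (nat_lit 5) (nat_lit 5))
    (@En.n l1738 (nat_lit 9644) (nat_lit 6) (nat_lit 7))
    (@En.n l15166 (nat_lit 8421) (nat_lit 8) (nat_lit 10))
    (@En.n l26303 (nat_lit 10675) (nat_lit 8) (nat_lit 4))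
    (@En.n l640 (nat_lit 8455) (nat_lit 10) (nat_lit 10))
    (@En.n l26301 (nat_lit 12430) (nat_lit 11) (nat_lit 11))
    (@En.n l26304 (nat_lit 8428) (nat_lit 12) (nat_lit 5))
    (@En.n l26305 (nat_lit 12261) (nat_lit 6) (nat_lit 12))
    (@En.n l640 (nat_lit 6306) (nat_lit 9) (nat_lit 9))
    (@En.i (nat_lit 9451) (nat_lit 12) (nat_lit 6))
    (@En.n l13417 (nat_lit 9647) (nat_lit 15) (nat_lit 3))))
  (@Cl.mk (nat_lit 0x300060009000c0006000b000a0004000900070005000a0006000d000a0007) (nat_lit 0x26096040050960) (nat_lit 16) Lb.e (@T16.mk En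
    (@En.i (nat_lit 11735) (nat_lit 0) (nat_lit 7))
    (@En.i (nat_lit 9713) (nat_lit 2) (nat_lit 10))
    (@En.n l19480 (nat_lit 9649) (nat_lit 2) (nat_lit 13))
    (@En.n l13484 (nat_lit 9389) (nat_lit 3) (nat_lit 6))
    (@En.n l40196 (nat_lit 9066) (nat_lit 4) (nat_lit 10))
    (@En.n l50 (nat_lit 9981) (nat_lit 5) (nat_lit 5))
    (@En.n l11 (nat_lit 9645) (nat_lit 6) (nat_lit 7))
    (@En.n l55 (nat_lit 9782) (nat_lit 8) (nat_lit 9))
    (@En.n l4361 (nat_lit 10671) (nat_lit 8) (nat_lit 4))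
    (@En.n l217 (nat_lit 9662) (nat_lit 10) (nat_lit 10))
    (@En.n l3348 (nat_lit 11825) (nat_lit 11) (nat_lit 11))
    (@En.n l11 (nat_lit 9126) (nat_lit 12) (nat_lit 6))
    (@En.n l6698 (nat_lit 12263) (nat_lit 6) (nat_lit 12))
    (@En.n l4361 (nat_lit 6304) (nat_lit 9) (nat_lit 9))
    (@En.i (nat_lit 10971) (nat_lit 12) (nat_lit 6))
    (@En.n l27031 (nat_lit 9646) (nat_lit 15) (nat_lit 3))))
noncomputable def a603 : T16 Cl := @T16.mk Cl
  (@Cl.mk (nat_lit 0x3000a00060009000c0006000b00060004000b00070005000a000d0005000a) (nat_lit 0x603300009005801) (nat_lit 16) Lb.e (@T16.mk En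
    (@En.n l3328 (nat_lit 2626) (nat_lit 0) (nat_lit 10))
    (@En.n l29915 (nat_lit 9809) (nat_lit 9) (nat_lit 5))
    (@En.i (nat_lit 9349) (nat_lit 5) (nat_lit 13))
    (@En.n l617 (nat_lit 9652) (nat_lit 3) (nat_lit 10))
    (@En.n l3480 (nat_lit 9982) (nat_lit 4) (nat_lit 5))
    (@En.n l2642 (nat_lit 9643) (nat_lit 5) (nat_lit 7))
    (@En.i (nat_lit 8418) (nat_lit 1) (nat_lit 11))
    (@En.i (nat_lit 10658) (nat_lit 7) (nat_lit 4))
    (@En.n l40261 (nat_lit 6637) (nat_lit 8) (nat_lit 6))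
    (@En.n l40262 (nat_lit 12434) (nat_lit 1) (nat_lit 11))
    (@En.n l8770 (nat_lit 8431) (nat_lit 11) (nat_lit 6))
    (@En.i (nat_lit 12262) (nat_lit 6) (nat_lit 12))
    (@En.n l32096 (nat_lit 9660) (nat_lit 9) (nat_lit 9))
    (@En.n l40263 (nat_lit 9646) (nat_lit 14) (nat_lit 6))
    (@En.i (nat_lit 8795) (nat_lit 0) (nat_lit 10))
    (@En.n l1080 (nat_lit 9649) (nat_lit 15) (nat_lit 3))))
  (@Cl.mk (nat_lit 0x3000a00060009000c0007000b00060004000a00070005000a000d00090006) (nat_lit 0x503900004005850) (nat_lit 16) Lb.e (@T16.mk En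
    (@En.n l39202 (nat_lit 10756) (nat_lit 0) (nat_lit 6))
    (@En.n l39203 (nat_lit 9480) (nat_lit 3) (nat_lit 9))
    (@En.n l3530 (nat_lit 9262) (nat_lit 5) (nat_lit 13))
    (@En.n l23885 (nat_lit 9653) (nat_lit 3) (nat_lit 10))
    (@En.n l15535 (nat_lit 9979) (nat_lit 4) (nat_lit 5))
    (@En.n l28110 (nat_lit 9650) (nat_lit 5) (nat_lit 7))
    (@En.n l39204 (nat_lit 9654) (nat_lit 1) (nat_lit 10))
    (@En.i (nat_lit 10672) (nat_lit 7) (nat_lit 4))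
    (@En.n l39205 (nat_lit 5425) (nat_lit 0) (nat_lit 6))
    (@En.n l39206 (nat_lit 12413) (nat_lit 8) (nat_lit 11))
    (@En.n l21138 (nat_lit 9129) (nat_lit 11) (nat_lit 7))
    (@En.n l3530 (nat_lit 12264) (nat_lit 6) (nat_lit 12))
    (@En.n l39206 (nat_lit 9658) (nat_lit 9) (nat_lit 9))
    (@En.n l18328 (nat_lit 9647) (nat_lit 14) (nat_lit 6))
    (@En.n l39205 (nat_lit 9842) (nat_lit 0) (nat_lit 10))
    (@En.n l4659 (nat_lit 9648) (nat_lit 15) (nat_lit 3))))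
  (@Cl.mk (nat_lit 0x30009000600090005000c0008000c0007000400070004000a000d0008000b) (nat_lit 0x6030a3000004856) (nat_lit 16) Lb.e (@T16.mk En
    (@En.n l4790 (nat_lit 8552) (nat_lit 0) (nat_lit 11))
    (@En.n l21138 (nat_lit 9476) (nat_lit 13) (nat_lit 8))
    (@En.n l3530 (nat_lit 8819) (nat_lit 5) (nat_lit 13))
    (@En.n l29596 (nat_lit 9651) (nat_lit 3) (nat_lit 10))
    (@En.n l3072 (nat_lit 9978) (nat_lit 4) (nat_lit 4))
    (@En.i (nat_lit 2583) (nat_lit 11) (nat_lit 7))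
    (@En.n l4659 (nat_lit 10662) (nat_lit 1) (nat_lit 4))
    (@En.n l4790 (nat_lit 5421) (nat_lit 0) (nat_lit 7))
    (@En.i (nat_lit 12402) (nat_lit 1) (nat_lit 12))
    (@En.i (nat_lit 9654) (nat_lit 4) (nat_lit 8))
    (@En.n l38294 (nat_lit 9649) (nat_lit 11) (nat_lit 12))
    (@En.n l38295 (nat_lit 9718) (nat_lit 6) (nat_lit 5))
    (@En.i (nat_lit 9657) (nat_lit 9) (nat_lit 9))
    (@En.n l7075 (nat_lit 9645) (nat_lit 14) (nat_lit 6))
    (@En.n l4790 (nat_lit 9846) (nat_lit 2) (nat_lit 9))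
    (@En.n l38296 (nat_lit 9643) (nat_lit 15) (nat_lit 3))))
  (@Cl.mk (nat_lit 0x300080006000b00090006000c00090005000800040007000a000d0007000a) (nat_lit 0x507405502003705) (nat_lit 16) Lb.e (@T16.mk En
    (@En.n l781 (nat_lit 8555) (nat_lit 8) (nat_lit 10))
    (@En.n l42125 (nat_lit 8402) (nat_lit 12) (nat_lit 7))
    (@En.n l1112 (nat_lit 6791) (nat_lit 5) (nat_lit 13))
    (@En.n l43206 (nat_lit 10614) (nat_lit 8) (nat_lit 10))
    (@En.n l4758 (nat_lit 2585) (nat_lit 11) (nat_lit 7))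
    (@En.n l29711 (nat_lit 10669) (nat_lit 5) (nat_lit 4))
    (@En.n l1112 (nat_lit 5418) (nat_lit 10) (nat_lit 8))
    (@En.n l97 (nat_lit 10648) (nat_lit 1) (nat_lit 5))
    (@En.n l37901 (nat_lit 9784) (nat_lit 0) (nat_lit 9))
    (@En.n l37354 (nat_lit 9653) (nat_lit 10) (nat_lit 12))
    (@En.n l35909 (nat_lit 11782) (nat_lit 2) (nat_lit 6))
    (@En.n l43207 (nat_lit 9650) (nat_lit 12) (nat_lit 9))
    (@En.n l617 (nat_lit 9655) (nat_lit 13) (nat_lit 11))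
    (@En.n l17 (nat_lit 9065) (nat_lit 14) (nat_lit 6))
    (@En.i (nat_lit 9844) (nat_lit 12) (nat_lit 8))
    (@En.n l42277 (nat_lit 8404) (nat_lit 15) (nat_lit 3))))
  (@Cl.mk (nat_lit 0x300090006000c0009000c0007000400070004000c0007000a000d00040009) (nat_lit 0x507440000a04606) (nat_lit 16) Lb.e (@T16.mk En
    (@En.n l42257 (nat_lit 8471) (nat_lit 0) (nat_lit 9))
    (@En.n l42258 (nat_lit 9875) (nat_lit 8) (nat_lit 4))
    (@En.i (nat_lit 6799) (nat_lit 5) (nat_lit 13))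
    (@En.n l1290 (nat_lit 8852) (nat_lit 8) (nat_lit 10))
    (@En.i (nat_lit 8404) (nat_lit 4) (nat_lit 7))
    (@En.n l42259 (nat_lit 8406) (nat_lit 13) (nat_lit 12))
    (@En.i (nat_lit 10655) (nat_lit 6) (nat_lit 4))
    (@En.n l3971 (nat_lit 6638) (nat_lit 11) (nat_lit 7))
    (@En.n l42260 (nat_lit 9681) (nat_lit 8) (nat_lit 4))
    (@En.n l15089 (nat_lit 8408) (nat_lit 0) (nat_lit 7))
    (@En.i (nat_lit 12419) (nat_lit 6) (nat_lit 12))
    (@En.n l61 (nat_lit 9648) (nat_lit 12) (nat_lit 9))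
    (@En.n l42261 (nat_lit 9671) (nat_lit 13) (nat_lit 12))
    (@En.n l21301 (nat_lit 9067) (nat_lit 14) (nat_lit 6))
    (@En.n l42262 (nat_lit 8796) (nat_lit 5) (nat_lit 9))
    (@En.n l3974 (nat_lit 9653) (nat_lit 15) (nat_lit 3))))
  (@Cl.mk (nat_lit 0x300090006000c0009000c0008000400070004000b0007000a000d00080005) (nat_lit 0x507444000404740) (nat_lit 16) Lb.e (@T16.mk En
    (@En.n l18 (nat_lit 10754) (nat_lit 0) (nat_lit 5))
    (@En.n l6081 (nat_lit 9422) (nat_lit 0) (nat_lit 8))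
    (@En.i (nat_lit 6792) (nat_lit 5) (nat_lit 13))
    (@En.i (nat_lit 8853) (nat_lit 8) (nat_lit 10))
    (@En.n l38059 (nat_lit 9651) (nat_lit 4) (nat_lit 7))
    (@En.n l6840 (nat_lit 9784) (nat_lit 13) (nat_lit 11))
    (@En.n l5543 (nat_lit 10673) (nat_lit 6) (nat_lit 4))
    (@En.i (nat_lit 5424) (nat_lit 11) (nat_lit 7))
    (@En.n l7691 (nat_lit 10762) (nat_lit 8) (nat_lit 4))
    (@En.i (nat_lit 9128) (nat_lit 0) (nat_lit 8))
    (@En.n l5543 (nat_lit 11161) (nat_lit 6) (nat_lit 12))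
    (@En.n l24082 (nat_lit 9649) (nat_lit 12) (nat_lit 9))
    (@En.n l28588 (nat_lit 9871) (nat_lit 13) (nat_lit 12))
    (@En.n l17524 (nat_lit 9066) (nat_lit 14) (nat_lit 6))
    (@En.n l6080 (nat_lit 9843) (nat_lit 5) (nat_lit 9))
    (@En.n l5538 (nat_lit 9652) (nat_lit 15) (nat_lit 3))))
  (@Cl.mk (nat_lit 0x40009000c00080006000b0004000a0007000a00050008000c0006000a0006) (nat_lit 0x475070704020030) (nat_lit 16) Lb.e (@T16.mk En
    (@En.n l12308 (nat_lit 1759) (nat_lit 0) (nat_lit 6))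
    (@En.n l24348 (nat_lit 9963) (nat_lit 9) (nat_lit 10))
    (@En.n l42046 (nat_lit 5420) (nat_lit 8) (nat_lit 6))
    (@En.n l16345 (nat_lit 11814) (nat_lit 7) (nat_lit 12))
    (@En.n l42047 (nat_lit 9132) (nat_lit 10) (nat_lit 8))
    (@En.n l42048 (nat_lit 9719) (nat_lit 5) (nat_lit 5))
    (@En.i (nat_lit 9382) (nat_lit 8) (nat_lit 10))
    (@En.n l7075 (nat_lit 9782) (nat_lit 14) (nat_lit 7))
    (@En.n l41408 (nat_lit 4320) (nat_lit 2) (nat_lit 10))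
    (@En.n l42049 (nat_lit 8401) (nat_lit 9) (nat_lit 4))
    (@En.n l16345 (nat_lit 9650) (nat_lit 0) (nat_lit 11))
    (@En.n l3530 (nat_lit 9073) (nat_lit 1) (nat_lit 6))
    (@En.n l42050 (nat_lit 9477) (nat_lit 13) (nat_lit 8))
    (@En.n l42049 (nat_lit 8829) (nat_lit 6) (nat_lit 12))
    (@En.n l42051 (nat_lit 9784) (nat_lit 11) (nat_lit 9))
    (@En.n l42052 (nat_lit 9786) (nat_lit 12) (nat_lit 4))))
  (@Cl.mk (nat_lit 0x30008000b00080005000b00080005000c0008000500080004000d0008000b) (nat_lit 0x463046013030845) (nat_lit 16) Lb.e (@T16.mk En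
    (@En.n l1643 (nat_lit 8556) (nat_lit 7) (nat_lit 11))
    (@En.n l38029 (nat_lit 9425) (nat_lit 14) (nat_lit 8))
    (@En.n l6131 (nat_lit 6793) (nat_lit 2) (nat_lit 13))
    (@En.n l18 (nat_lit 9793) (nat_lit 3) (nat_lit 4))
    (@En.n l4758 (nat_lit 2584) (nat_lit 10) (nat_lit 8))
    (@En.n l41955 (nat_lit 10627) (nat_lit 5) (nat_lit 5))
    (@En.n l61 (nat_lit 9651) (nat_lit 6) (nat_lit 8))
    (@En.n l43032 (nat_lit 9650) (nat_lit 8) (nat_lit 12))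
    (@En.n l97 (nat_lit 10647) (nat_lit 8) (nat_lit 5))
    (@En.n l37902 (nat_lit 9785) (nat_lit 10) (nat_lit 8))
    (@En.n l39851 (nat_lit 9871) (nat_lit 11) (nat_lit 11))
    (@En.n l2940 (nat_lit 11783) (nat_lit 12) (nat_lit 5))
    (@En.n l43033 (nat_lit 9656) (nat_lit 13) (nat_lit 8))
    (@En.n l43034 (nat_lit 9184) (nat_lit 7) (nat_lit 11))
    (@En.i (nat_lit 9845) (nat_lit 12) (nat_lit 8))
    (@En.n l28605 (nat_lit 9670) (nat_lit 15) (nat_lit 3))))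
  (@Cl.mk (nat_lit 0x3000900080004000b0007000b000b00070005000800050005000d0009000c) (nat_lit 0x420900200400944) (nat_lit 16) Lb.e (@T16.mk En
    (@En.n l5760 (nat_lit 8557) (nat_lit 0) (nat_lit 12))
    (@En.n l4770 (nat_lit 9479) (nat_lit 4) (nat_lit 9))
    (@En.i (nat_lit 8818) (nat_lit 2) (nat_lit 13))
    (@En.n l5759 (nat_lit 9867) (nat_lit 11) (nat_lit 5))
    (@En.n l8547 (nat_lit 8884) (nat_lit 4) (nat_lit 5))
    (@En.i (nat_lit 2055) (nat_lit 10) (nat_lit 8))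
    (@En.n l152 (nat_lit 10006) (nat_lit 6) (nat_lit 5))
    (@En.n l936 (nat_lit 9650) (nat_lit 7) (nat_lit 7))
    (@En.n l55 (nat_lit 9657) (nat_lit 5) (nat_lit 11))
    (@En.i (nat_lit 10143) (nat_lit 10) (nat_lit 11))
    (@En.n l25111 (nat_lit 9381) (nat_lit 14) (nat_lit 7))
    (@En.n l40348 (nat_lit 9389) (nat_lit 12) (nat_lit 11))
    (@En.n l15273 (nat_lit 9464) (nat_lit 13) (nat_lit 4))
    (@En.n l5579 (nat_lit 6729) (nat_lit 8) (nat_lit 8))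
    (@En.n l5760 (nat_lit 7189) (nat_lit 1) (nat_lit 9))
    (@En.n l5774 (nat_lit 9360) (nat_lit 15) (nat_lit 3))))
  (@Cl.mk (nat_lit 0x2000d0009000c0003000a00090004000c0007000b000600040007000e0005) (nat_lit 0x8520420a0100050) (nat_lit 16) Lb.e (@T16.mk En
    (@En.i (nat_lit 9656) (nat_lit 4) (nat_lit 5))
    (@En.n l3530 (nat_lit 9773) (nat_lit 1) (nat_lit 14))
    (@En.i (nat_lit 2051) (nat_lit 11) (nat_lit 7))
    (@En.n l152 (nat_lit 7450) (nat_lit 3) (nat_lit 4))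
    (@En.i (nat_lit 6915) (nat_lit 4) (nat_lit 6))
    (@En.i (nat_lit 4330) (nat_lit 1) (nat_lit 11))
    (@En.i (nat_lit 9382) (nat_lit 6) (nat_lit 7))
    (@En.i (nat_lit 9658) (nat_lit 8) (nat_lit 12))
    (@En.n l32608 (nat_lit 9462) (nat_lit 8) (nat_lit 4))
    (@En.n l1867 (nat_lit 6730) (nat_lit 10) (nat_lit 9))
    (@En.i (nat_lit 9903) (nat_lit 11) (nat_lit 10))
    (@En.n l5774 (nat_lit 9659) (nat_lit 11) (nat_lit 3))
    (@En.n l3082 (nat_lit 8956) (nat_lit 0) (nat_lit 12))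
    (@En.i (nat_lit 9482) (nat_lit 14) (nat_lit 9))
    (@En.i (nat_lit 8816) (nat_lit 2) (nat_lit 13))
    (@En.n l28 (nat_lit 9657) (nat_lit 15) (nat_lit 2))))
  (@Cl.mk (nat_lit 0x2000d000a00070003000b0009000c0006000a0005000400090007000e0006) (nat_lit 0xa50042907002030) (nat_lit 16) Lb.e (@T16.mk En
    (@En.n l40348 (nat_lit 9389) (nat_lit 4) (nat_lit 6))
    (@En.n l38294 (nat_lit 9775) (nat_lit 1) (nat_lit 14))
    (@En.n l17 (nat_lit 9657) (nat_lit 2) (nat_lit 7))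
    (@En.n l35117 (nat_lit 9382) (nat_lit 3) (nat_lit 9))
    (@En.n l152 (nat_lit 10010) (nat_lit 4) (nat_lit 4))
    (@En.n l32852 (nat_lit 6913) (nat_lit 5) (nat_lit 5))
    (@En.i (nat_lit 10151) (nat_lit 9) (nat_lit 10))
    (@En.n l20204 (nat_lit 9377) (nat_lit 7) (nat_lit 6))
    (@En.n l10406 (nat_lit 12564) (nat_lit 9) (nat_lit 12))
    (@En.n l1867 (nat_lit 6722) (nat_lit 10) (nat_lit 9))
    (@En.n l40349 (nat_lit 9905) (nat_lit 11) (nat_lit 11))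
    (@En.n l16733 (nat_lit 9660) (nat_lit 11) (nat_lit 3))
    (@En.n l20336 (nat_lit 12818) (nat_lit 0) (nat_lit 7))
    (@En.i (nat_lit 9484) (nat_lit 14) (nat_lit 10))
    (@En.n l10358 (nat_lit 8392) (nat_lit 2) (nat_lit 13))
    (@En.n l28 (nat_lit 9658) (nat_lit 15) (nat_lit 2))))
  (@Cl.mk (nat_lit 0x2000d000b000a0003000a00090005000c0006000b000600040007000e0005) (nat_lit 0x8570820a0200020) (nat_lit 16) Lb.e (@T16.mk En
    (@En.i (nat_lit 9360) (nat_lit 4) (nat_lit 5))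
    (@En.n l31674 (nat_lit 8584) (nat_lit 1) (nat_lit 14))
    (@En.n l2130 (nat_lit 2559) (nat_lit 11) (nat_lit 7))
    (@En.n l2129 (nat_lit 6864) (nat_lit 3) (nat_lit 4))
    (@En.i (nat_lit 6917) (nat_lit 4) (nat_lit 6))
    (@En.n l2130 (nat_lit 10150) (nat_lit 1) (nat_lit 11))
    (@En.i (nat_lit 8994) (nat_lit 6) (nat_lit 6))
    (@En.n l31675 (nat_lit 9660) (nat_lit 8) (nat_lit 12))
    (@En.n l6769 (nat_lit 9465) (nat_lit 8) (nat_lit 5))
    (@En.i (nat_lit 6732) (nat_lit 10) (nat_lit 9))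
    (@En.n l420 (nat_lit 9796) (nat_lit 11) (nat_lit 10))
    (@En.n l5944 (nat_lit 9657) (nat_lit 11) (nat_lit 3))
    (@En.n l619 (nat_lit 9293) (nat_lit 0) (nat_lit 10))
    (@En.n l29889 (nat_lit 9419) (nat_lit 14) (nat_lit 11))
    (@En.n l644 (nat_lit 8782) (nat_lit 2) (nat_lit 13))
    (@En.n l17 (nat_lit 9659) (nat_lit 15) (nat_lit 2))))
  (@Cl.mk (nat_lit 0x2000d0006000b0003000b0009000c0005000a00050004000a0007000e0006) (nat_lit 0xa07042908002030) (nat_lit 16) Lb.e (@T16.mk En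
    (@En.n l35920 (nat_lit 9359) (nat_lit 4) (nat_lit 6))
    (@En.n l35921 (nat_lit 11169) (nat_lit 1) (nat_lit 14))
    (@En.n l35922 (nat_lit 9659) (nat_lit 2) (nat_lit 7))
    (@En.n l35777 (nat_lit 8995) (nat_lit 3) (nat_lit 10))
    (@En.n l35921 (nat_lit 10014) (nat_lit 4) (nat_lit 4))
    (@En.n l35922 (nat_lit 6640) (nat_lit 5) (nat_lit 5))
    (@En.n l35923 (nat_lit 10148) (nat_lit 1) (nat_lit 10))
    (@En.n l35924 (nat_lit 8993) (nat_lit 7) (nat_lit 5))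
    (@En.i (nat_lit 12525) (nat_lit 9) (nat_lit 12))
    (@En.n l35922 (nat_lit 6725) (nat_lit 10) (nat_lit 9))
    (@En.n l3583 (nat_lit 9797) (nat_lit 11) (nat_lit 11))
    (@En.n l8543 (nat_lit 9658) (nat_lit 11) (nat_lit 3))
    (@En.i (nat_lit 9294) (nat_lit 0) (nat_lit 11))
    (@En.n l3583 (nat_lit 9802) (nat_lit 14) (nat_lit 6))
    (@En.n l16725 (nat_lit 8780) (nat_lit 2) (nat_lit 13))
    (@En.n l11 (nat_lit 9660) (nat_lit 15) (nat_lit 2))))
  (@Cl.mk (nat_lit 0x30006000d000900050003000d0009000c00030007000a0004000d0007000b) (nat_lit 0x87009770020606) (nat_lit 16) Lb.e (@T16.mk En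
    (@En.n l3348 (nat_lit 12699) (nat_lit 0) (nat_lit 11))
    (@En.i (nat_lit 9663) (nat_lit 6) (nat_lit 7))
    (@En.i (nat_lit 9662) (nat_lit 12) (nat_lit 13))
    (@En.n l117 (nat_lit 10053) (nat_lit 3) (nat_lit 4))
    (@En.n l2199 (nat_lit 6080) (nat_lit 8) (nat_lit 10))
    (@En.i (nat_lit 10543) (nat_lit 5) (nat_lit 7))
    (@En.n l29374 (nat_lit 8457) (nat_lit 6) (nat_lit 3))
    (@En.i (nat_lit 5989) (nat_lit 0) (nat_lit 12))
    (@En.i (nat_lit 10079) (nat_lit 14) (nat_lit 9))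
    (@En.i (nat_lit 4926) (nat_lit 10) (nat_lit 13))
    (@En.n l18 (nat_lit 9665) (nat_lit 3) (nat_lit 3))
    (@En.n l3348 (nat_lit 9657) (nat_lit 0) (nat_lit 5))
    (@En.n l61 (nat_lit 9664) (nat_lit 13) (nat_lit 9))
    (@En.n l5891 (nat_lit 10199) (nat_lit 7) (nat_lit 13))
    (@En.i (nat_lit 2579) (nat_lit 12) (nat_lit 6))
    (@En.i (nat_lit 9666) (nat_lit 15) (nat_lit 3))))
  (@Cl.mk (nat_lit 0x30007000a000d0006000a000300080006000d000900060003000d000a0008) (nat_lit 0x45050503300a82) (nat_lit 16) Lb.e (@T16.mk En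
    (@En.n l134 (nat_lit 12233) (nat_lit 0) (nat_lit 8))
    (@En.i (nat_lit 10080) (nat_lit 14) (nat_lit 10))
    (@En.n l23551 (nat_lit 1738) (nat_lit 2) (nat_lit 13))
    (@En.n l18 (nat_lit 9668) (nat_lit 3) (nat_lit 3))
    (@En.n l3348 (nat_lit 9658) (nat_lit 0) (nat_lit 6))
    (@En.n l61 (nat_lit 9669) (nat_lit 5) (nat_lit 9))
    (@En.n l5891 (nat_lit 12027) (nat_lit 7) (nat_lit 13))
    (@En.n l11 (nat_lit 9661) (nat_lit 14) (nat_lit 6))
    (@En.n l55 (nat_lit 9663) (nat_lit 4) (nat_lit 8))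
    (@En.n l19475 (nat_lit 10360) (nat_lit 9) (nat_lit 3))
    (@En.n l3348 (nat_lit 12706) (nat_lit 0) (nat_lit 10))
    (@En.n l39128 (nat_lit 6278) (nat_lit 7) (nat_lit 6))
    (@En.n l14963 (nat_lit 11625) (nat_lit 5) (nat_lit 13))
    (@En.n l39129 (nat_lit 6075) (nat_lit 8) (nat_lit 10))
    (@En.i (nat_lit 10544) (nat_lit 4) (nat_lit 7))
    (@En.n l39130 (nat_lit 8455) (nat_lit 15) (nat_lit 3))))
  (@Cl.mk (nat_lit 0x3000c00090008000c00040008000b00040007000b00080005000d00080005) (nat_lit 0x873805500840710) (nat_lit 16) Lb.e (@T16.mk En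
    (@En.n l3348 (nat_lit 9382) (nat_lit 0) (nat_lit 5))
    (@En.n l61 (nat_lit 6281) (nat_lit 6) (nat_lit 8))
    (@En.n l2068 (nat_lit 10201) (nat_lit 2) (nat_lit 13))
    (@En.n l2678 (nat_lit 2572) (nat_lit 3) (nat_lit 5))
    (@En.n l29372 (nat_lit 11252) (nat_lit 4) (nat_lit 8))
    (@En.n l29373 (nat_lit 9676) (nat_lit 8) (nat_lit 11))
    (@En.n l6083 (nat_lit 6277) (nat_lit 11) (nat_lit 7))
    (@En.n l117 (nat_lit 10054) (nat_lit 7) (nat_lit 4))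
    (@En.n l2199 (nat_lit 6082) (nat_lit 7) (nat_lit 11))
    (@En.i (nat_lit 10541) (nat_lit 1) (nat_lit 8))
    (@En.n l29374 (nat_lit 8495) (nat_lit 10) (nat_lit 4))
    (@En.n l28 (nat_lit 9661) (nat_lit 7) (nat_lit 12))
    (@En.n l77 (nat_lit 9666) (nat_lit 8) (nat_lit 8))
    (@En.n l29375 (nat_lit 9823) (nat_lit 14) (nat_lit 9))
    (@En.i (nat_lit 4929) (nat_lit 3) (nat_lit 12))
    (@En.n l18 (nat_lit 9667) (nat_lit 15) (nat_lit 3))))
noncomputable def a604 : T16 Cl := @T16.mk Cl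
  (@Cl.mk (nat_lit 0x3000600090004000a000d0008000b000300070006000a0005000d0008000c) (nat_lit 0x60196600030737) (nat_lit 16) Lb.e (@T16.mk En
    (@En.n l3325 (nat_lit 12696) (nat_lit 0) (nat_lit 12))
    (@En.i (nat_lit 6281) (nat_lit 10) (nat_lit 8))
    (@En.i (nat_lit 9669) (nat_lit 11) (nat_lit 13))
    (@En.n l117 (nat_lit 10511) (nat_lit 3) (nat_lit 5))
    (@En.n l617 (nat_lit 9661) (nat_lit 4) (nat_lit 10))
    (@En.n l17 (nat_lit 9665) (nat_lit 14) (nat_lit 6))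
    (@En.i (nat_lit 11758) (nat_lit 6) (nat_lit 7))
    (@En.n l2604 (nat_lit 8458) (nat_lit 7) (nat_lit 3))
    (@En.i (nat_lit 5991) (nat_lit 0) (nat_lit 11))
    (@En.n l5646 (nat_lit 10077) (nat_lit 10) (nat_lit 8))
    (@En.i (nat_lit 5415) (nat_lit 5) (nat_lit 13))
    (@En.i (nat_lit 4456) (nat_lit 3) (nat_lit 10))
    (@En.n l3327 (nat_lit 9650) (nat_lit 4) (nat_lit 4))
    (@En.i (nat_lit 11239) (nat_lit 9) (nat_lit 9))
    (@En.i (nat_lit 2581) (nat_lit 12) (nat_lit 6))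
    (@En.i (nat_lit 10357) (nat_lit 15) (nat_lit 3))))
  (@Cl.mk (nat_lit 0x30006000a0004000d0007000c00030006000d0004000a0003000d0009000c) (nat_lit 0x30606008010a72) (nat_lit 16) Lb.e (@T16.mk En
    (@En.i (nat_lit 5992) (nat_lit 0) (nat_lit 12))
    (@En.i (nat_lit 10081) (nat_lit 14) (nat_lit 9))
    (@En.i (nat_lit 9664) (nat_lit 10) (nat_lit 13))
    (@En.i (nat_lit 9661) (nat_lit 10) (nat_lit 3))
    (@En.i (nat_lit 4454) (nat_lit 0) (nat_lit 10))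
    (@En.i (nat_lit 9645) (nat_lit 5) (nat_lit 4))
    (@En.n l5891 (nat_lit 10197) (nat_lit 7) (nat_lit 13))
    (@En.i (nat_lit 2578) (nat_lit 12) (nat_lit 6))
    (@En.i (nat_lit 10356) (nat_lit 8) (nat_lit 3))
    (@En.i (nat_lit 12695) (nat_lit 0) (nat_lit 12))
    (@En.i (nat_lit 9667) (nat_lit 6) (nat_lit 7))
    (@En.i (nat_lit 9668) (nat_lit 12) (nat_lit 13))
    (@En.n l117 (nat_lit 10513) (nat_lit 3) (nat_lit 4))
    (@En.n l617 (nat_lit 6081) (nat_lit 9) (nat_lit 10))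
    (@En.i (nat_lit 11143) (nat_lit 12) (nat_lit 6))
    (@En.n l2604 (nat_lit 8453) (nat_lit 15) (nat_lit 3))))
  (@Cl.mk (nat_lit 0x30006000d000900060003000d0008000c00030007000a0004000d000a0008) (nat_lit 0x87008220030665) (nat_lit 16) Lb.e (@T16.mk En
    (@En.n l34914 (nat_lit 11256) (nat_lit 0) (nat_lit 8))
    (@En.n l12438 (nat_lit 8884) (nat_lit 11) (nat_lit 10))
    (@En.n l19475 (nat_lit 10360) (nat_lit 12) (nat_lit 13))
    (@En.n l117 (nat_lit 10055) (nat_lit 3) (nat_lit 4))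
    (@En.n l6480 (nat_lit 6078) (nat_lit 8) (nat_lit 10))
    (@En.n l4019 (nat_lit 10364) (nat_lit 5) (nat_lit 7))
    (@En.n l34914 (nat_lit 8460) (nat_lit 6) (nat_lit 3))
    (@En.i (nat_lit 5990) (nat_lit 0) (nat_lit 12))
    (@En.n l29923 (nat_lit 10552) (nat_lit 14) (nat_lit 8))
    (@En.n l34384 (nat_lit 1737) (nat_lit 10) (nat_lit 13))
    (@En.n l18 (nat_lit 10356) (nat_lit 3) (nat_lit 3))
    (@En.n l4356 (nat_lit 9596) (nat_lit 0) (nat_lit 6))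
    (@En.n l61 (nat_lit 10357) (nat_lit 13) (nat_lit 9))
    (@En.n l34915 (nat_lit 10170) (nat_lit 7) (nat_lit 13))
    (@En.n l5928 (nat_lit 6431) (nat_lit 12) (nat_lit 6))
    (@En.n l7 (nat_lit 9661) (nat_lit 15) (nat_lit 3))))
  (@Cl.mk (nat_lit 0x3000c00090008000c00040007000b00040007000c00080005000d00040009) (nat_lit 0x874300500800701) (nat_lit 16) Lb.e (@T16.mk En
    (@En.i (nat_lit 4457) (nat_lit 0) (nat_lit 9))
    (@En.i (nat_lit 9782) (nat_lit 6) (nat_lit 4))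
    (@En.n l2068 (nat_lit 9765) (nat_lit 0) (nat_lit 13))
    (@En.n l2678 (nat_lit 2573) (nat_lit 1) (nat_lit 5))
    (@En.i (nat_lit 11253) (nat_lit 4) (nat_lit 8))
    (@En.n l28 (nat_lit 9675) (nat_lit 11) (nat_lit 12))
    (@En.n l6083 (nat_lit 6276) (nat_lit 11) (nat_lit 7))
    (@En.n l117 (nat_lit 10515) (nat_lit 7) (nat_lit 4))
    (@En.n l617 (nat_lit 5940) (nat_lit 8) (nat_lit 11))
    (@En.i (nat_lit 11144) (nat_lit 11) (nat_lit 7))
    (@En.n l2604 (nat_lit 8494) (nat_lit 10) (nat_lit 4))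
    (@En.n l28 (nat_lit 9665) (nat_lit 0) (nat_lit 12))
    (@En.n l77 (nat_lit 10356) (nat_lit 1) (nat_lit 8))
    (@En.i (nat_lit 9822) (nat_lit 14) (nat_lit 9))
    (@En.i (nat_lit 6281) (nat_lit 3) (nat_lit 12))
    (@En.i (nat_lit 9663) (nat_lit 15) (nat_lit 3))))
  (@Cl.mk (nat_lit 0x30006000a000d0006000b000300080006000d0005000a0003000d000a0008) (nat_lit 0x25050104010a85) (nat_lit 16) Lb.e (@T16.mk En
    (@En.n l134 (nat_lit 12232) (nat_lit 0) (nat_lit 8))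
    (@En.i (nat_lit 10082) (nat_lit 14) (nat_lit 10))
    (@En.i (nat_lit 9669) (nat_lit 2) (nat_lit 13))
    (@En.i (nat_lit 9662) (nat_lit 3) (nat_lit 3))
    (@En.i (nat_lit 4453) (nat_lit 0) (nat_lit 10))
    (@En.i (nat_lit 9647) (nat_lit 5) (nat_lit 5))
    (@En.n l5891 (nat_lit 10899) (nat_lit 7) (nat_lit 13))
    (@En.n l11 (nat_lit 9665) (nat_lit 7) (nat_lit 6))
    (@En.n l55 (nat_lit 9667) (nat_lit 4) (nat_lit 8))
    (@En.i (nat_lit 10359) (nat_lit 9) (nat_lit 3))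
    (@En.n l2031 (nat_lit 12698) (nat_lit 0) (nat_lit 11))
    (@En.n l11 (nat_lit 6279) (nat_lit 7) (nat_lit 6))
    (@En.n l6698 (nat_lit 11624) (nat_lit 5) (nat_lit 13))
    (@En.n l617 (nat_lit 6076) (nat_lit 9) (nat_lit 10))
    (@En.i (nat_lit 11146) (nat_lit 12) (nat_lit 6))
    (@En.n l27031 (nat_lit 8454) (nat_lit 15) (nat_lit 3))))
  (@Cl.mk (nat_lit 0x300070006000a000d0007000b00030009000600090005000a000d00090007) (nat_lit 0x5606010201960) (nat_lit 16) Lb.e (@T16.mk En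
    (@En.n l134 (nat_lit 12147) (nat_lit 0) (nat_lit 7))
    (@En.n l5646 (nat_lit 10078) (nat_lit 9) (nat_lit 9))
    (@En.n l23551 (nat_lit 5282) (nat_lit 5) (nat_lit 13))
    (@En.n l31925 (nat_lit 4455) (nat_lit 3) (nat_lit 10))
    (@En.n l19480 (nat_lit 9649) (nat_lit 4) (nat_lit 5))
    (@En.n l23551 (nat_lit 11421) (nat_lit 9) (nat_lit 9))
    (@En.n l11 (nat_lit 9664) (nat_lit 14) (nat_lit 6))
    (@En.n l55 (nat_lit 6281) (nat_lit 8) (nat_lit 9))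
    (@En.n l31926 (nat_lit 10358) (nat_lit 8) (nat_lit 3))
    (@En.n l31927 (nat_lit 12701) (nat_lit 0) (nat_lit 11))
    (@En.n l31928 (nat_lit 6280) (nat_lit 11) (nat_lit 7))
    (@En.n l6698 (nat_lit 12222) (nat_lit 5) (nat_lit 13))
    (@En.n l617 (nat_lit 9662) (nat_lit 13) (nat_lit 10))
    (@En.n l17 (nat_lit 9668) (nat_lit 14) (nat_lit 6))
    (@En.i (nat_lit 11760) (nat_lit 5) (nat_lit 7))
    (@En.n l27031 (nat_lit 8456) (nat_lit 15) (nat_lit 3))))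
  (@Cl.mk (nat_lit 0x30008000b00080006000b00070005000c0008000500080004000d000a0009) (nat_lit 0x563040013030935) (nat_lit 16) Lb.e (@T16.mk En
    (@En.n l34473 (nat_lit 8473) (nat_lit 0) (nat_lit 9))
    (@En.n l34474 (nat_lit 9424) (nat_lit 14) (nat_lit 10))
    (@En.n l77 (nat_lit 1715) (nat_lit 2) (nat_lit 13))
    (@En.n l34475 (nat_lit 10133) (nat_lit 3) (nat_lit 4))
    (@En.n l34476 (nat_lit 2589) (nat_lit 10) (nat_lit 8))
    (@En.n l20463 (nat_lit 10626) (nat_lit 5) (nat_lit 5))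
    (@En.n l34477 (nat_lit 8404) (nat_lit 6) (nat_lit 8))
    (@En.n l20463 (nat_lit 9643) (nat_lit 8) (nat_lit 12))
    (@En.n l34478 (nat_lit 9677) (nat_lit 8) (nat_lit 5))
    (@En.n l20637 (nat_lit 8400) (nat_lit 10) (nat_lit 7))
    (@En.n l11434 (nat_lit 9671) (nat_lit 11) (nat_lit 11))
    (@En.n l34479 (nat_lit 9672) (nat_lit 12) (nat_lit 6))
    (@En.n l34480 (nat_lit 9360) (nat_lit 13) (nat_lit 8))
    (@En.i (nat_lit 9186) (nat_lit 7) (nat_lit 11))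
    (@En.n l601 (nat_lit 8801) (nat_lit 12) (nat_lit 8))
    (@En.n l34481 (nat_lit 9655) (nat_lit 15) (nat_lit 3))))
  (@Cl.mk (nat_lit 0x30009000c0008000b00060004000b00070005000c00080005000d0004000a) (nat_lit 0x563300100340706) (nat_lit 16) Lb.e (@T16.mk En
    (@En.n l3488 (nat_lit 8474) (nat_lit 0) (nat_lit 10))
    (@En.n l38322 (nat_lit 9872) (nat_lit 15) (nat_lit 4))
    (@En.n l38323 (nat_lit 6798) (nat_lit 0) (nat_lit 13))
    (@En.i (nat_lit 10805) (nat_lit 3) (nat_lit 5))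
    (@En.n l9885 (nat_lit 9670) (nat_lit 4) (nat_lit 8))
    (@En.n l38324 (nat_lit 8419) (nat_lit 6) (nat_lit 12))
    (@En.n l17402 (nat_lit 10629) (nat_lit 6) (nat_lit 5))
    (@En.n l38325 (nat_lit 9652) (nat_lit 7) (nat_lit 7))
    (@En.n l17402 (nat_lit 9648) (nat_lit 9) (nat_lit 11))
    (@En.n l18 (nat_lit 9676) (nat_lit 9) (nat_lit 4))
    (@En.n l21668 (nat_lit 8774) (nat_lit 0) (nat_lit 6))
    (@En.n l17401 (nat_lit 12417) (nat_lit 7) (nat_lit 11))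
    (@En.n l9856 (nat_lit 9359) (nat_lit 13) (nat_lit 8))
    (@En.i (nat_lit 9185) (nat_lit 6) (nat_lit 12))
    (@En.n l38326 (nat_lit 8797) (nat_lit 4) (nat_lit 9))
    (@En.n l38327 (nat_lit 9871) (nat_lit 15) (nat_lit 3))))
  (@Cl.mk (nat_lit 0x40009000c0006000b00060004000c00070005000c0004000c000a0004000a) (nat_lit 0x570400000107706) (nat_lit 16) Lb.e (@T16.mk En
    (@En.n l41227 (nat_lit 8878) (nat_lit 0) (nat_lit 10))
    (@En.n l27746 (nat_lit 9671) (nat_lit 1) (nat_lit 4))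
    (@En.n l217 (nat_lit 9671) (nat_lit 0) (nat_lit 10))
    (@En.n l9855 (nat_lit 6802) (nat_lit 1) (nat_lit 12))
    (@En.n l41228 (nat_lit 9816) (nat_lit 4) (nat_lit 4))
    (@En.n l41229 (nat_lit 6811) (nat_lit 0) (nat_lit 12))
    (@En.i (nat_lit 10632) (nat_lit 1) (nat_lit 5))
    (@En.n l37888 (nat_lit 9673) (nat_lit 14) (nat_lit 7))
    (@En.n l41230 (nat_lit 9726) (nat_lit 3) (nat_lit 12))
    (@En.n l41231 (nat_lit 9675) (nat_lit 12) (nat_lit 4))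
    (@En.n l36702 (nat_lit 8773) (nat_lit 0) (nat_lit 6))
    (@En.n l9855 (nat_lit 12416) (nat_lit 1) (nat_lit 11))
    (@En.n l41232 (nat_lit 8885) (nat_lit 7) (nat_lit 6))
    (@En.n l41233 (nat_lit 12460) (nat_lit 6) (nat_lit 12))
    (@En.n l41061 (nat_lit 8800) (nat_lit 11) (nat_lit 9))
    (@En.i (nat_lit 11783) (nat_lit 15) (nat_lit 4))))
  (@Cl.mk (nat_lit 0x400070004000c0009000c000900040009000400090007000c0007000c0007) (nat_lit 0x8166030508030) (nat_lit 16) Lb.e (@T16.mk En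
    (@En.n l61 (nat_lit 8403) (nat_lit 0) (nat_lit 7))
    (@En.n l36713 (nat_lit 12418) (nat_lit 1) (nat_lit 12))
    (@En.n l35919 (nat_lit 9727) (nat_lit 4) (nat_lit 7))
    (@En.n l36714 (nat_lit 9672) (nat_lit 13) (nat_lit 12))
    (@En.n l36715 (nat_lit 9674) (nat_lit 14) (nat_lit 7))
    (@En.n l899 (nat_lit 9936) (nat_lit 5) (nat_lit 9))
    (@En.i (nat_lit 11782) (nat_lit 6) (nat_lit 4))
    (@En.i (nat_lit 8881) (nat_lit 0) (nat_lit 9))
    (@En.n l36716 (nat_lit 9652) (nat_lit 1) (nat_lit 4))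
    (@En.n l28605 (nat_lit 9670) (nat_lit 0) (nat_lit 9))
    (@En.n l36713 (nat_lit 6803) (nat_lit 6) (nat_lit 12))
    (@En.i (nat_lit 4318) (nat_lit 12) (nat_lit 9))
    (@En.n l22556 (nat_lit 6812) (nat_lit 13) (nat_lit 12))
    (@En.n l36713 (nat_lit 9696) (nat_lit 4) (nat_lit 4))
    (@En.n l14316 (nat_lit 9631) (nat_lit 11) (nat_lit 7))
    (@En.n l3523 (nat_lit 9678) (nat_lit 1) (nat_lit 4))))
  (@Cl.mk (nat_lit 0x40007000c0006000c00060004000c0004000b00090004000c000a0005000a) (nat_lit 0x80700101107707) (nat_lit 16) Lb.e (@T16.mk En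
    (@En.n l55 (nat_lit 8879) (nat_lit 0) (nat_lit 10))
    (@En.n l43559 (nat_lit 9067) (nat_lit 1) (nat_lit 5))
    (@En.n l43560 (nat_lit 9672) (nat_lit 0) (nat_lit 10))
    (@En.n l37544 (nat_lit 9673) (nat_lit 10) (nat_lit 12))
    (@En.n l43561 (nat_lit 9672) (nat_lit 4) (nat_lit 4))
    (@En.n l43562 (nat_lit 4316) (nat_lit 0) (nat_lit 9))
    (@En.n l5389 (nat_lit 6813) (nat_lit 1) (nat_lit 11))
    (@En.n l37634 (nat_lit 9697) (nat_lit 7) (nat_lit 4))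
    (@En.n l9760 (nat_lit 6850) (nat_lit 0) (nat_lit 12))
    (@En.n l43562 (nat_lit 9680) (nat_lit 1) (nat_lit 4))
    (@En.n l24320 (nat_lit 9684) (nat_lit 0) (nat_lit 6))
    (@En.n l43563 (nat_lit 12424) (nat_lit 1) (nat_lit 12))
    (@En.n l776 (nat_lit 9728) (nat_lit 4) (nat_lit 6))
    (@En.n l5389 (nat_lit 12459) (nat_lit 8) (nat_lit 12))
    (@En.n l29815 (nat_lit 9460) (nat_lit 11) (nat_lit 7))
    (@En.n l43564 (nat_lit 11781) (nat_lit 15) (nat_lit 4))))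
  (@Cl.mk (nat_lit 0x40007000c0004000c00070004000c0004000c00090004000c00040009000c) (nat_lit 0x30700409204049) (nat_lit 16) Lb.e (@T16.mk En
    (@En.i (nat_lit 12695) (nat_lit 6) (nat_lit 12))
    (@En.n l134 (nat_lit 9795) (nat_lit 1) (nat_lit 9))
    (@En.n l36705 (nat_lit 11875) (nat_lit 15) (nat_lit 4))
    (@En.n l36706 (nat_lit 9677) (nat_lit 0) (nat_lit 12))
    (@En.n l3348 (nat_lit 9676) (nat_lit 1) (nat_lit 4))
    (@En.n l610 (nat_lit 10629) (nat_lit 0) (nat_lit 9))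
    (@En.n l26879 (nat_lit 1042) (nat_lit 1) (nat_lit 12))
    (@En.n l36707 (nat_lit 11815) (nat_lit 7) (nat_lit 4))
    (@En.n l2031 (nat_lit 6126) (nat_lit 0) (nat_lit 12))
    (@En.n l36708 (nat_lit 12448) (nat_lit 1) (nat_lit 4))
    (@En.n l36709 (nat_lit 9678) (nat_lit 0) (nat_lit 7))
    (@En.n l36710 (nat_lit 10769) (nat_lit 1) (nat_lit 12))
    (@En.n l36711 (nat_lit 11119) (nat_lit 9) (nat_lit 4))
    (@En.n l26879 (nat_lit 12420) (nat_lit 0) (nat_lit 12))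
    (@En.n l36708 (nat_lit 12764) (nat_lit 11) (nat_lit 7))
    (@En.n l36712 (nat_lit 9674) (nat_lit 15) (nat_lit 4))))
  (@Cl.mk (nat_lit 0x30009000c00040009000c0004000b00070004000c00070005000d0004000c) (nat_lit 0x390530700300101) (nat_lit 16) Lb.e (@T16.mk En
    (@En.n l2005 (nat_lit 2543) (nat_lit 0) (nat_lit 12))
    (@En.n l1236 (nat_lit 12443) (nat_lit 4) (nat_lit 4))
    (@En.n l36700 (nat_lit 1039) (nat_lit 2) (nat_lit 13))
    (@En.i (nat_lit 10156) (nat_lit 3) (nat_lit 5))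
    (@En.n l36147 (nat_lit 9677) (nat_lit 4) (nat_lit 7))
    (@En.n l36701 (nat_lit 9699) (nat_lit 3) (nat_lit 12))
    (@En.n l29201 (nat_lit 12446) (nat_lit 6) (nat_lit 4))
    (@En.n l36702 (nat_lit 9681) (nat_lit 7) (nat_lit 7))
    (@En.n l36703 (nat_lit 10764) (nat_lit 9) (nat_lit 11))
    (@En.n l9856 (nat_lit 9983) (nat_lit 9) (nat_lit 4))
    (@En.n l17401 (nat_lit 12421) (nat_lit 6) (nat_lit 12))
    (@En.n l36704 (nat_lit 10772) (nat_lit 1) (nat_lit 9))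
    (@En.i (nat_lit 9672) (nat_lit 15) (nat_lit 4))
    (@En.i (nat_lit 12699) (nat_lit 6) (nat_lit 12))
    (@En.n l6918 (nat_lit 8884) (nat_lit 1) (nat_lit 9))
    (@En.n l29243 (nat_lit 10763) (nat_lit 15) (nat_lit 3))))
  (@Cl.mk (nat_lit 0x30008000b000400090007000c0005000c0008000400070004000d0009000c) (nat_lit 0x380504084000123) (nat_lit 16) Lb.e (@T16.mk En
    (@En.n l2038 (nat_lit 6782) (nat_lit 0) (nat_lit 12))
    (@En.n l17748 (nat_lit 10630) (nat_lit 12) (nat_lit 9))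
    (@En.n l20643 (nat_lit 1041) (nat_lit 2) (nat_lit 13))
    (@En.n l20644 (nat_lit 11814) (nat_lit 3) (nat_lit 4))
    (@En.n l20645 (nat_lit 12137) (nat_lit 11) (nat_lit 7))
    (@En.n l20646 (nat_lit 12447) (nat_lit 5) (nat_lit 4))
    (@En.n l61 (nat_lit 9679) (nat_lit 0) (nat_lit 8))
    (@En.n l20647 (nat_lit 10767) (nat_lit 1) (nat_lit 12))
    (@En.n l20648 (nat_lit 11114) (nat_lit 8) (nat_lit 5))
    (@En.n l20644 (nat_lit 9676) (nat_lit 10) (nat_lit 12))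
    (@En.n l20649 (nat_lit 9675) (nat_lit 14) (nat_lit 7))
    (@En.n l20650 (nat_lit 12596) (nat_lit 12) (nat_lit 9))
    (@En.n l20651 (nat_lit 9673) (nat_lit 6) (nat_lit 4))
    (@En.n l20652 (nat_lit 12696) (nat_lit 7) (nat_lit 11))
    (@En.n l20653 (nat_lit 9978) (nat_lit 1) (nat_lit 8))
    (@En.n l9592 (nat_lit 10647) (nat_lit 15) (nat_lit 3))))
  (@Cl.mk (nat_lit 0x3000c0009000c00080004000b000400090007000c00050008000d00040007) (nat_lit 0x122204040a04400) (nat_lit 16) Lb.e (@T16.mk En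
    (@En.n l32151 (nat_lit 10786) (nat_lit 11) (nat_lit 7))
    (@En.n l32152 (nat_lit 11118) (nat_lit 15) (nat_lit 4))
    (@En.n l32152 (nat_lit 12423) (nat_lit 0) (nat_lit 13))
    (@En.n l32153 (nat_lit 11909) (nat_lit 10) (nat_lit 8))
    (@En.n l32154 (nat_lit 9684) (nat_lit 4) (nat_lit 5))
    (@En.n l32155 (nat_lit 9675) (nat_lit 0) (nat_lit 12))
    (@En.n l32156 (nat_lit 9680) (nat_lit 6) (nat_lit 7))
    (@En.n l32157 (nat_lit 9787) (nat_lit 2) (nat_lit 9))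
    (@En.i (nat_lit 11874) (nat_lit 8) (nat_lit 4))
    (@En.n l32158 (nat_lit 9679) (nat_lit 10) (nat_lit 11))
    (@En.n l22467 (nat_lit 9681) (nat_lit 1) (nat_lit 4))
    (@En.n l32159 (nat_lit 10626) (nat_lit 0) (nat_lit 8))
    (@En.n l32152 (nat_lit 1184) (nat_lit 6) (nat_lit 12))
    (@En.n l3532 (nat_lit 10893) (nat_lit 14) (nat_lit 9))
    (@En.n l26281 (nat_lit 6127) (nat_lit 13) (nat_lit 12))
    (@En.n l32160 (nat_lit 10683) (nat_lit 15) (nat_lit 3))))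
  (@Cl.mk (nat_lit 0x30006000a000d0008000b000300080006000b0005000a0008000d00050008) (nat_lit 0x22230309065403) (nat_lit 16) Lb.e (@T16.mk En
    (@En.n l33536 (nat_lit 10782) (nat_lit 0) (nat_lit 8))
    (@En.n l33537 (nat_lit 11113) (nat_lit 7) (nat_lit 5))
    (@En.n l899 (nat_lit 9681) (nat_lit 9) (nat_lit 13))
    (@En.n l345 (nat_lit 9678) (nat_lit 3) (nat_lit 8))
    (@En.n l33538 (nat_lit 12438) (nat_lit 4) (nat_lit 10))
    (@En.n l20651 (nat_lit 8403) (nat_lit 5) (nat_lit 5))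
    (@En.n l11404 (nat_lit 9677) (nat_lit 13) (nat_lit 11))
    (@En.n l17 (nat_lit 9682) (nat_lit 7) (nat_lit 6))
    (@En.i (nat_lit 9786) (nat_lit 9) (nat_lit 8))
    (@En.n l9592 (nat_lit 10648) (nat_lit 9) (nat_lit 3))
    (@En.n l2038 (nat_lit 6780) (nat_lit 0) (nat_lit 11))
    (@En.n l17748 (nat_lit 10625) (nat_lit 12) (nat_lit 8))
    (@En.n l33539 (nat_lit 1182) (nat_lit 5) (nat_lit 13))
    (@En.i (nat_lit 10891) (nat_lit 3) (nat_lit 10))
    (@En.n l9441 (nat_lit 12135) (nat_lit 12) (nat_lit 6))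
    (@En.n l29046 (nat_lit 10679) (nat_lit 15) (nat_lit 3))))
noncomputable def a605 : T16 Cl := @T16.mk Cl
  (@Cl.mk (nat_lit 0x3000b00090004000c00090005000c00040007000c00040007000d0004000c) (nat_lit 0x130330500a00307) (nat_lit 16) Lb.e (@T16.mk En
    (@En.n l2669 (nat_lit 12588) (nat_lit 0) (nat_lit 12))
    (@En.n l9530 (nat_lit 11120) (nat_lit 9) (nat_lit 4))
    (@En.n l1833 (nat_lit 11893) (nat_lit 0) (nat_lit 13))
    (@En.n l38971 (nat_lit 11905) (nat_lit 11) (nat_lit 7))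
    (@En.n l27870 (nat_lit 9685) (nat_lit 4) (nat_lit 4))
    (@En.n l29074 (nat_lit 12694) (nat_lit 0) (nat_lit 12))
    (@En.n l10862 (nat_lit 7464) (nat_lit 11) (nat_lit 7))
    (@En.n l345 (nat_lit 11876) (nat_lit 7) (nat_lit 4))
    (@En.n l22188 (nat_lit 9682) (nat_lit 9) (nat_lit 12))
    (@En.n l2125 (nat_lit 9683) (nat_lit 1) (nat_lit 5))
    (@En.n l517 (nat_lit 10632) (nat_lit 11) (nat_lit 9))
    (@En.n l345 (nat_lit 9678) (nat_lit 12) (nat_lit 12))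
    (@En.n l20649 (nat_lit 9675) (nat_lit 7) (nat_lit 4))
    (@En.i (nat_lit 10890) (nat_lit 14) (nat_lit 9))
    (@En.n l29074 (nat_lit 6125) (nat_lit 1) (nat_lit 11))
    (@En.n l3928 (nat_lit 10685) (nat_lit 15) (nat_lit 3))))
  (@Cl.mk (nat_lit 0x300090006000c0005000a000d000400070003000c0006000a000d0004000b) (nat_lit 0x30a063000501201) (nat_lit 16) Lb.e (@T16.mk En
    (@En.n l17892 (nat_lit 2540) (nat_lit 0) (nat_lit 11))
    (@En.n l31968 (nat_lit 12442) (nat_lit 10) (nat_lit 4))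
    (@En.n l10570 (nat_lit 1185) (nat_lit 5) (nat_lit 13))
    (@En.n l2642 (nat_lit 4324) (nat_lit 3) (nat_lit 10))
    (@En.n l2642 (nat_lit 9679) (nat_lit 14) (nat_lit 6))
    (@En.n l17893 (nat_lit 9700) (nat_lit 13) (nat_lit 12))
    (@En.n l7017 (nat_lit 10682) (nat_lit 6) (nat_lit 3))
    (@En.n l131 (nat_lit 10783) (nat_lit 11) (nat_lit 7))
    (@En.n l30210 (nat_lit 9982) (nat_lit 8) (nat_lit 4))
    (@En.n l7025 (nat_lit 12422) (nat_lit 5) (nat_lit 13))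
    (@En.n l7 (nat_lit 10775) (nat_lit 1) (nat_lit 10))
    (@En.i (nat_lit 8773) (nat_lit 4) (nat_lit 5))
    (@En.n l16186 (nat_lit 9676) (nat_lit 13) (nat_lit 12))
    (@En.n l725 (nat_lit 9683) (nat_lit 14) (nat_lit 6))
    (@En.n l511 (nat_lit 9788) (nat_lit 5) (nat_lit 9))
    (@En.n l9309 (nat_lit 10762) (nat_lit 15) (nat_lit 3))))
  (@Cl.mk (nat_lit 0x30006000a0004000d0009000c00030006000b0004000a0007000d0005000c) (nat_lit 0x20334009050408) (nat_lit 16) Lb.e (@T16.mk En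
    (@En.n l5011 (nat_lit 12590) (nat_lit 0) (nat_lit 12))
    (@En.n l7742 (nat_lit 11112) (nat_lit 8) (nat_lit 5))
    (@En.n l899 (nat_lit 9683) (nat_lit 10) (nat_lit 13))
    (@En.i (nat_lit 9680) (nat_lit 3) (nat_lit 7))
    (@En.n l28 (nat_lit 12439) (nat_lit 4) (nat_lit 10))
    (@En.n l20651 (nat_lit 9686) (nat_lit 5) (nat_lit 4))
    (@En.n l23409 (nat_lit 12678) (nat_lit 0) (nat_lit 11))
    (@En.i (nat_lit 7463) (nat_lit 12) (nat_lit 6))
    (@En.n l9592 (nat_lit 10646) (nat_lit 8) (nat_lit 3))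
    (@En.n l2038 (nat_lit 6781) (nat_lit 0) (nat_lit 12))
    (@En.n l17748 (nat_lit 10633) (nat_lit 11) (nat_lit 9))
    (@En.i (nat_lit 9679) (nat_lit 12) (nat_lit 13))
    (@En.i (nat_lit 9677) (nat_lit 3) (nat_lit 4))
    (@En.i (nat_lit 10888) (nat_lit 4) (nat_lit 10))
    (@En.n l23410 (nat_lit 12136) (nat_lit 12) (nat_lit 6))
    (@En.n l3819 (nat_lit 10681) (nat_lit 6) (nat_lit 3))))
  (@Cl.mk (nat_lit 0x30006000c0004000a000d0004000b0003000b0006000a0005000d0005000c) (nat_lit 0xa0530705010301) (nat_lit 16) Lb.e (@T16.mk En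
    (@En.n l3328 (nat_lit 2541) (nat_lit 0) (nat_lit 12))
    (@En.n l9309 (nat_lit 11845) (nat_lit 9) (nat_lit 5))
    (@En.i (nat_lit 9681) (nat_lit 2) (nat_lit 13))
    (@En.n l37451 (nat_lit 9676) (nat_lit 3) (nat_lit 5))
    (@En.n l2642 (nat_lit 4323) (nat_lit 4) (nat_lit 10))
    (@En.n l2642 (nat_lit 9682) (nat_lit 14) (nat_lit 6))
    (@En.n l21657 (nat_lit 9701) (nat_lit 7) (nat_lit 11))
    (@En.n l6081 (nat_lit 10684) (nat_lit 7) (nat_lit 3))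
    (@En.i (nat_lit 12578) (nat_lit 0) (nat_lit 11))
    (@En.i (nat_lit 9984) (nat_lit 9) (nat_lit 4))
    (@En.n l564 (nat_lit 11894) (nat_lit 5) (nat_lit 13))
    (@En.n l7 (nat_lit 12437) (nat_lit 12) (nat_lit 10))
    (@En.i (nat_lit 8792) (nat_lit 4) (nat_lit 4))
    (@En.n l644 (nat_lit 12712) (nat_lit 0) (nat_lit 12))
    (@En.n l1081 (nat_lit 7462) (nat_lit 12) (nat_lit 6))
    (@En.n l9309 (nat_lit 10649) (nat_lit 15) (nat_lit 3))))
  (@Cl.mk (nat_lit 0x3000c0008000b00080004000b00090005000a000800050008000d00070006) (nat_lit 0x116306402605900) (nat_lit 16) Lb.e (@T16.mk En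
    (@En.n l18 (nat_lit 8411) (nat_lit 0) (nat_lit 6))
    (@En.n l38924 (nat_lit 8409) (nat_lit 6) (nat_lit 7))
    (@En.n l9601 (nat_lit 8762) (nat_lit 2) (nat_lit 13))
    (@En.i (nat_lit 9267) (nat_lit 10) (nat_lit 8))
    (@En.n l38925 (nat_lit 9706) (nat_lit 4) (nat_lit 5))
    (@En.n l38926 (nat_lit 9685) (nat_lit 5) (nat_lit 8))
    (@En.n l11722 (nat_lit 8375) (nat_lit 1) (nat_lit 10))
    (@En.n l38927 (nat_lit 8435) (nat_lit 7) (nat_lit 5))
    (@En.n l38928 (nat_lit 9673) (nat_lit 7) (nat_lit 9))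
    (@En.n l38929 (nat_lit 8403) (nat_lit 10) (nat_lit 11))
    (@En.n l38930 (nat_lit 8773) (nat_lit 10) (nat_lit 4))
    (@En.n l38931 (nat_lit 2835) (nat_lit 0) (nat_lit 8))
    (@En.n l38932 (nat_lit 8256) (nat_lit 7) (nat_lit 11))
    (@En.n l38933 (nat_lit 1310) (nat_lit 14) (nat_lit 8))
    (@En.n l38934 (nat_lit 6843) (nat_lit 3) (nat_lit 12))
    (@En.n l38935 (nat_lit 9688) (nat_lit 15) (nat_lit 3))))
  (@Cl.mk (nat_lit 0x3000b00080004000b00090005000c000a0005000800040007000d0006000c) (nat_lit 0x120740780500809) (nat_lit 16) Lb.e (@T16.mk En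
    (@En.n l31265 (nat_lit 12285) (nat_lit 0) (nat_lit 12))
    (@En.i (nat_lit 9477) (nat_lit 4) (nat_lit 6))
    (@En.n l42061 (nat_lit 8767) (nat_lit 2) (nat_lit 13))
    (@En.n l42062 (nat_lit 9268) (nat_lit 11) (nat_lit 7))
    (@En.n l22676 (nat_lit 11880) (nat_lit 4) (nat_lit 4))
    (@En.n l9877 (nat_lit 7467) (nat_lit 10) (nat_lit 8))
    (@En.n l28096 (nat_lit 8434) (nat_lit 1) (nat_lit 5))
    (@En.n l42063 (nat_lit 9674) (nat_lit 0) (nat_lit 10))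
    (@En.n l28193 (nat_lit 9686) (nat_lit 9) (nat_lit 12))
    (@En.n l42064 (nat_lit 8792) (nat_lit 9) (nat_lit 5))
    (@En.n l6992 (nat_lit 10569) (nat_lit 11) (nat_lit 9))
    (@En.n l42065 (nat_lit 9684) (nat_lit 12) (nat_lit 11))
    (@En.n l42066 (nat_lit 9674) (nat_lit 7) (nat_lit 4))
    (@En.n l42067 (nat_lit 5177) (nat_lit 14) (nat_lit 8))
    (@En.n l3523 (nat_lit 6847) (nat_lit 1) (nat_lit 11))
    (@En.n l24576 (nat_lit 9687) (nat_lit 15) (nat_lit 3))))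
  (@Cl.mk (nat_lit 0x3000600090004000c0009000c0009000400070004000a0007000d0007000c) (nat_lit 0x20746700060806) (nat_lit 16) Lb.e (@T16.mk En
    (@En.n l5390 (nat_lit 9233) (nat_lit 0) (nat_lit 12))
    (@En.n l20048 (nat_lit 9476) (nat_lit 4) (nat_lit 7))
    (@En.n l26235 (nat_lit 8792) (nat_lit 2) (nat_lit 13))
    (@En.n l38972 (nat_lit 9685) (nat_lit 3) (nat_lit 7))
    (@En.n l899 (nat_lit 8793) (nat_lit 4) (nat_lit 10))
    (@En.i (nat_lit 11882) (nat_lit 5) (nat_lit 4))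
    (@En.n l5390 (nat_lit 7465) (nat_lit 11) (nat_lit 7))
    (@En.n l1106 (nat_lit 8433) (nat_lit 7) (nat_lit 4))
    (@En.n l34513 (nat_lit 9642) (nat_lit 0) (nat_lit 9))
    (@En.n l5390 (nat_lit 5970) (nat_lit 6) (nat_lit 12))
    (@En.i (nat_lit 10568) (nat_lit 11) (nat_lit 9))
    (@En.i (nat_lit 8403) (nat_lit 12) (nat_lit 12))
    (@En.i (nat_lit 9673) (nat_lit 13) (nat_lit 4))
    (@En.n l17942 (nat_lit 5182) (nat_lit 9) (nat_lit 9))
    (@En.i (nat_lit 9629) (nat_lit 12) (nat_lit 6))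
    (@En.n l5389 (nat_lit 9689) (nat_lit 15) (nat_lit 3))))
  (@Cl.mk (nat_lit 0x3000b00080005000b00090005000c00090005000800040007000d000b0007) (nat_lit 0x130240530500870) (nat_lit 16) Lb.e (@T16.mk En
    (@En.n l37598 (nat_lit 5063) (nat_lit 0) (nat_lit 7))
    (@En.n l1236 (nat_lit 9697) (nat_lit 13) (nat_lit 11))
    (@En.n l35515 (nat_lit 8768) (nat_lit 2) (nat_lit 13))
    (@En.n l21851 (nat_lit 9272) (nat_lit 11) (nat_lit 7))
    (@En.n l37599 (nat_lit 11881) (nat_lit 4) (nat_lit 4))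
    (@En.n l37600 (nat_lit 9018) (nat_lit 10) (nat_lit 8))
    (@En.n l28 (nat_lit 8783) (nat_lit 1) (nat_lit 5))
    (@En.n l35515 (nat_lit 9697) (nat_lit 0) (nat_lit 9))
    (@En.n l18 (nat_lit 9689) (nat_lit 9) (nat_lit 12))
    (@En.n l7492 (nat_lit 8772) (nat_lit 9) (nat_lit 5))
    (@En.n l37601 (nat_lit 10571) (nat_lit 11) (nat_lit 9))
    (@En.n l33469 (nat_lit 9688) (nat_lit 12) (nat_lit 11))
    (@En.n l37602 (nat_lit 11120) (nat_lit 7) (nat_lit 5))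
    (@En.n l13482 (nat_lit 1308) (nat_lit 14) (nat_lit 8))
    (@En.n l37603 (nat_lit 4312) (nat_lit 10) (nat_lit 11))
    (@En.n l37604 (nat_lit 9685) (nat_lit 15) (nat_lit 3))))
  (@Cl.mk (nat_lit 0x3000c0008000b00080004000b00080005000b000800050008000d00050008) (nat_lit 0x131304406605902) (nat_lit 16) Lb.e (@T16.mk En
    (@En.n l18 (nat_lit 5065) (nat_lit 10) (nat_lit 8))
    (@En.n l40104 (nat_lit 9477) (nat_lit 6) (nat_lit 5))
    (@En.i (nat_lit 8766) (nat_lit 2) (nat_lit 13))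
    (@En.n l16897 (nat_lit 9271) (nat_lit 10) (nat_lit 8))
    (@En.n l12285 (nat_lit 9704) (nat_lit 4) (nat_lit 5))
    (@En.n l20495 (nat_lit 9687) (nat_lit 5) (nat_lit 8))
    (@En.n l40105 (nat_lit 9693) (nat_lit 1) (nat_lit 11))
    (@En.n l19498 (nat_lit 8779) (nat_lit 7) (nat_lit 5))
    (@En.i (nat_lit 9696) (nat_lit 14) (nat_lit 8))
    (@En.n l40106 (nat_lit 9690) (nat_lit 10) (nat_lit 11))
    (@En.n l152 (nat_lit 8771) (nat_lit 10) (nat_lit 4))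
    (@En.n l40107 (nat_lit 2837) (nat_lit 0) (nat_lit 8))
    (@En.i (nat_lit 7678) (nat_lit 7) (nat_lit 11))
    (@En.n l40108 (nat_lit 1306) (nat_lit 14) (nat_lit 8))
    (@En.n l40109 (nat_lit 4314) (nat_lit 3) (nat_lit 12))
    (@En.n l40110 (nat_lit 9684) (nat_lit 15) (nat_lit 3))))
  (@Cl.mk (nat_lit 0x3000600090005000c0009000c0008000400070004000a0007000d000b0008) (nat_lit 0x30744200060874) (nat_lit 16) Lb.e (@T16.mk En
    (@En.n l97 (nat_lit 5057) (nat_lit 0) (nat_lit 8))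
    (@En.n l1236 (nat_lit 9696) (nat_lit 10) (nat_lit 11))
    (@En.n l965 (nat_lit 8772) (nat_lit 2) (nat_lit 13))
    (@En.i (nat_lit 9687) (nat_lit 3) (nat_lit 7))
    (@En.n l23473 (nat_lit 9691) (nat_lit 4) (nat_lit 10))
    (@En.n l28 (nat_lit 11885) (nat_lit 5) (nat_lit 4))
    (@En.n l1685 (nat_lit 9022) (nat_lit 11) (nat_lit 7))
    (@En.n l28 (nat_lit 8781) (nat_lit 7) (nat_lit 4))
    (@En.i (nat_lit 10663) (nat_lit 0) (nat_lit 8))
    (@En.i (nat_lit 5397) (nat_lit 6) (nat_lit 12))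
    (@En.n l4316 (nat_lit 10570) (nat_lit 11) (nat_lit 9))
    (@En.i (nat_lit 9690) (nat_lit 12) (nat_lit 12))
    (@En.n l517 (nat_lit 11118) (nat_lit 13) (nat_lit 5))
    (@En.i (nat_lit 5184) (nat_lit 9) (nat_lit 9))
    (@En.i (nat_lit 10902) (nat_lit 12) (nat_lit 6))
    (@En.n l1790 (nat_lit 9686) (nat_lit 15) (nat_lit 3))))
  (@Cl.mk (nat_lit 0x300060009000c0008000b00070004000a00070005000a0008000d00060009) (nat_lit 0x36330050076a04) (nat_lit 16) Lb.e (@T16.mk En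
    (@En.n l2038 (nat_lit 5060) (nat_lit 0) (nat_lit 9))
    (@En.n l33468 (nat_lit 8409) (nat_lit 8) (nat_lit 6))
    (@En.n l33469 (nat_lit 8771) (nat_lit 2) (nat_lit 13))
    (@En.n l33469 (nat_lit 9688) (nat_lit 3) (nat_lit 8))
    (@En.n l33470 (nat_lit 9692) (nat_lit 4) (nat_lit 10))
    (@En.n l33471 (nat_lit 9703) (nat_lit 5) (nat_lit 5))
    (@En.n l476 (nat_lit 9689) (nat_lit 6) (nat_lit 7))
    (@En.i (nat_lit 9694) (nat_lit 8) (nat_lit 10))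
    (@En.n l28 (nat_lit 8776) (nat_lit 8) (nat_lit 4))
    (@En.n l33472 (nat_lit 10654) (nat_lit 0) (nat_lit 7))
    (@En.i (nat_lit 5390) (nat_lit 7) (nat_lit 11))
    (@En.n l33473 (nat_lit 4226) (nat_lit 12) (nat_lit 8))
    (@En.n l33472 (nat_lit 7679) (nat_lit 6) (nat_lit 12))
    (@En.n l476 (nat_lit 1309) (nat_lit 9) (nat_lit 9))
    (@En.n l5011 (nat_lit 4540) (nat_lit 12) (nat_lit 6))
    (@En.n l1790 (nat_lit 8403) (nat_lit 15) (nat_lit 3))))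
  (@Cl.mk (nat_lit 0x30006000b00090006000c000a0005000900040007000a0006000d000a0007) (nat_lit 0x24085020050760) (nat_lit 16) Lb.e (@T16.mk En
    (@En.n l2038 (nat_lit 5058) (nat_lit 0) (nat_lit 7))
    (@En.n l31751 (nat_lit 10650) (nat_lit 11) (nat_lit 10))
    (@En.n l19384 (nat_lit 8794) (nat_lit 2) (nat_lit 13))
    (@En.n l19384 (nat_lit 9273) (nat_lit 3) (nat_lit 6))
    (@En.i (nat_lit 10855) (nat_lit 8) (nat_lit 10))
    (@En.n l25488 (nat_lit 9025) (nat_lit 11) (nat_lit 7))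
    (@En.n l31561 (nat_lit 8782) (nat_lit 6) (nat_lit 4))
    (@En.n l2038 (nat_lit 10661) (nat_lit 0) (nat_lit 9))
    (@En.n l31780 (nat_lit 6123) (nat_lit 1) (nat_lit 5))
    (@En.n l10625 (nat_lit 8840) (nat_lit 10) (nat_lit 10))
    (@En.n l3819 (nat_lit 9692) (nat_lit 11) (nat_lit 12))
    (@En.n l2605 (nat_lit 9939) (nat_lit 12) (nat_lit 6))
    (@En.n l23574 (nat_lit 9689) (nat_lit 13) (nat_lit 9))
    (@En.n l31781 (nat_lit 9687) (nat_lit 14) (nat_lit 11))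
    (@En.i (nat_lit 4539) (nat_lit 12) (nat_lit 6))
    (@En.n l1865 (nat_lit 8793) (nat_lit 15) (nat_lit 3))))
  (@Cl.mk (nat_lit 0x30006000c0009000c0009000400080004000b0007000a0007000d00050008) (nat_lit 0x24730305060902) (nat_lit 16) Lb.e (@T16.mk En
    (@En.n l2299 (nat_lit 5059) (nat_lit 0) (nat_lit 8))
    (@En.n l1236 (nat_lit 9423) (nat_lit 7) (nat_lit 5))
    (@En.n l11419 (nat_lit 8798) (nat_lit 2) (nat_lit 13))
    (@En.n l11419 (nat_lit 9274) (nat_lit 3) (nat_lit 7))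
    (@En.n l9715 (nat_lit 9744) (nat_lit 8) (nat_lit 10))
    (@En.n l9715 (nat_lit 9691) (nat_lit 5) (nat_lit 7))
    (@En.n l22670 (nat_lit 9695) (nat_lit 7) (nat_lit 11))
    (@En.n l3536 (nat_lit 8780) (nat_lit 7) (nat_lit 4))
    (@En.n l1106 (nat_lit 10656) (nat_lit 11) (nat_lit 8))
    (@En.n l6781 (nat_lit 6124) (nat_lit 9) (nat_lit 4))
    (@En.n l68 (nat_lit 4225) (nat_lit 0) (nat_lit 9))
    (@En.n l16508 (nat_lit 8864) (nat_lit 6) (nat_lit 12))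
    (@En.n l38252 (nat_lit 9690) (nat_lit 13) (nat_lit 9))
    (@En.n l23334 (nat_lit 9688) (nat_lit 14) (nat_lit 12))
    (@En.n l16510 (nat_lit 4541) (nat_lit 12) (nat_lit 6))
    (@En.n l22593 (nat_lit 9431) (nat_lit 15) (nat_lit 3))))
  (@Cl.mk (nat_lit 0x40007000c0005000b00080004000c0009000500090004000c0008000b0007) (nat_lit 0x50830130304450) (nat_lit 16) Lb.e (@T16.mk En
    (@En.i (nat_lit 9017) (nat_lit 0) (nat_lit 7))
    (@En.n l26253 (nat_lit 9499) (nat_lit 7) (nat_lit 11))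
    (@En.n l26254 (nat_lit 10650) (nat_lit 14) (nat_lit 8))
    (@En.n l26255 (nat_lit 9694) (nat_lit 10) (nat_lit 12))
    (@En.n l26256 (nat_lit 9698) (nat_lit 4) (nat_lit 4))
    (@En.i (nat_lit 4294) (nat_lit 10) (nat_lit 9))
    (@En.n l26257 (nat_lit 8465) (nat_lit 1) (nat_lit 5))
    (@En.n l26258 (nat_lit 1311) (nat_lit 0) (nat_lit 9))
    (@En.n l26259 (nat_lit 4318) (nat_lit 1) (nat_lit 12))
    (@En.n l25880 (nat_lit 8375) (nat_lit 9) (nat_lit 4))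
    (@En.n l26260 (nat_lit 9688) (nat_lit 0) (nat_lit 8))
    (@En.n l26261 (nat_lit 9687) (nat_lit 1) (nat_lit 11))
    (@En.n l26259 (nat_lit 9476) (nat_lit 7) (nat_lit 5))
    (@En.n l20454 (nat_lit 8769) (nat_lit 8) (nat_lit 12))
    (@En.n l15452 (nat_lit 9276) (nat_lit 11) (nat_lit 7))
    (@En.n l26262 (nat_lit 9701) (nat_lit 15) (nat_lit 4))))
  (@Cl.mk (nat_lit 0x40007000a00050009000c0007000a0006000400090007000c0006000b0009) (nat_lit 0x30330400606085) (nat_lit 16) Lb.e (@T16.mk En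
    (@En.n l22188 (nat_lit 9690) (nat_lit 0) (nat_lit 9))
    (@En.i (nat_lit 9689) (nat_lit 1) (nat_lit 11))
    (@En.n l40240 (nat_lit 8402) (nat_lit 5) (nat_lit 6))
    (@En.n l34276 (nat_lit 9698) (nat_lit 13) (nat_lit 12))
    (@En.n l40241 (nat_lit 9693) (nat_lit 14) (nat_lit 7))
    (@En.n l40242 (nat_lit 9695) (nat_lit 5) (nat_lit 9))
    (@En.n l40243 (nat_lit 9700) (nat_lit 6) (nat_lit 4))
    (@En.n l1836 (nat_lit 9021) (nat_lit 0) (nat_lit 6))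
    (@En.n l24388 (nat_lit 9493) (nat_lit 8) (nat_lit 10))
    (@En.n l40244 (nat_lit 10651) (nat_lit 10) (nat_lit 7))
    (@En.i (nat_lit 5389) (nat_lit 6) (nat_lit 12))
    (@En.n l19713 (nat_lit 4228) (nat_lit 10) (nat_lit 9))
    (@En.n l1834 (nat_lit 8830) (nat_lit 5) (nat_lit 5))
    (@En.n l40240 (nat_lit 5471) (nat_lit 8) (nat_lit 10))
    (@En.n l19713 (nat_lit 4544) (nat_lit 11) (nat_lit 7))
    (@En.n l1790 (nat_lit 8405) (nat_lit 15) (nat_lit 4))))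
  (@Cl.mk (nat_lit 0x40007000c000a0006000a00040008000b000600090006000c0005000a0008) (nat_lit 0x24040340505073) (nat_lit 16) Lb.e (@T16.mk En
    (@En.n l22578 (nat_lit 9692) (nat_lit 0) (nat_lit 8))
    (@En.n l38021 (nat_lit 9691) (nat_lit 1) (nat_lit 10))
    (@En.n l1075 (nat_lit 9425) (nat_lit 8) (nat_lit 5))
    (@En.n l16346 (nat_lit 8799) (nat_lit 0) (nat_lit 12))
    (@En.n l2364 (nat_lit 9275) (nat_lit 1) (nat_lit 6))
    (@En.n l4792 (nat_lit 9752) (nat_lit 9) (nat_lit 9))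
    (@En.i (nat_lit 9024) (nat_lit 6) (nat_lit 6))
    (@En.n l1988 (nat_lit 9500) (nat_lit 7) (nat_lit 11))
    (@En.n l3057 (nat_lit 10653) (nat_lit 11) (nat_lit 8))
    (@En.n l26281 (nat_lit 6127) (nat_lit 9) (nat_lit 4))
    (@En.i (nat_lit 4227) (nat_lit 0) (nat_lit 10))
    (@En.n l23739 (nat_lit 8832) (nat_lit 1) (nat_lit 6))
    (@En.n l38022 (nat_lit 9694) (nat_lit 13) (nat_lit 10))
    (@En.n l601 (nat_lit 9693) (nat_lit 8) (nat_lit 12))
    (@En.n l1897 (nat_lit 4543) (nat_lit 11) (nat_lit 7))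
    (@En.n l38023 (nat_lit 8389) (nat_lit 15) (nat_lit 4))))
noncomputable def a606 : T16 Cl := @T16.mk Cl
  (@Cl.mk (nat_lit 0x400080004000b0007000b0007000c0005000800050004000c0009000c0009) (nat_lit 0x308060403002545) (nat_lit 16) Lb.e (@T16.mk En
    (@En.i (nat_lit 10133) (nat_lit 0) (nat_lit 9))
    (@En.i (nat_lit 9824) (nat_lit 6) (nat_lit 12))
    (@En.i (nat_lit 9845) (nat_lit 14) (nat_lit 9))
    (@En.i (nat_lit 9422) (nat_lit 3) (nat_lit 12))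
    (@En.n l28611 (nat_lit 9686) (nat_lit 12) (nat_lit 4))
    (@En.n l18 (nat_lit 10683) (nat_lit 0) (nat_lit 5))
    (@En.i (nat_lit 5183) (nat_lit 10) (nat_lit 8))
    (@En.i (nat_lit 10564) (nat_lit 1) (nat_lit 5))
    (@En.i (nat_lit 12195) (nat_lit 8) (nat_lit 12))
    (@En.n l61 (nat_lit 10077) (nat_lit 1) (nat_lit 7))
    (@En.n l3491 (nat_lit 10632) (nat_lit 8) (nat_lit 11))
    (@En.i (nat_lit 9697) (nat_lit 14) (nat_lit 7))
    (@En.i (nat_lit 10650) (nat_lit 13) (nat_lit 11))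
    (@En.i (nat_lit 11780) (nat_lit 15) (nat_lit 4))
    (@En.n l3517 (nat_lit 10660) (nat_lit 11) (nat_lit 8))
    (@En.n l152 (nat_lit 10655) (nat_lit 1) (nat_lit 4))))
  (@Cl.mk (nat_lit 0x40007000b0006000c000a000700050004000b00090006000c000a00050009) (nat_lit 0x60700004505602) (nat_lit 16) Lb.e (@T16.mk En
    (@En.n l37335 (nat_lit 10664) (nat_lit 0) (nat_lit 9))
    (@En.n l152 (nat_lit 10676) (nat_lit 1) (nat_lit 5))
    (@En.n l37336 (nat_lit 9816) (nat_lit 0) (nat_lit 10))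
    (@En.n l7 (nat_lit 9696) (nat_lit 1) (nat_lit 12))
    (@En.n l7 (nat_lit 11075) (nat_lit 2) (nat_lit 6))
    (@En.n l37337 (nat_lit 4321) (nat_lit 5) (nat_lit 9))
    (@En.n l37338 (nat_lit 9480) (nat_lit 7) (nat_lit 11))
    (@En.n l37339 (nat_lit 9685) (nat_lit 12) (nat_lit 4))
    (@En.n l37340 (nat_lit 10685) (nat_lit 0) (nat_lit 5))
    (@En.n l28472 (nat_lit 5181) (nat_lit 1) (nat_lit 7))
    (@En.n l7694 (nat_lit 9816) (nat_lit 11) (nat_lit 10))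
    (@En.i (nat_lit 12196) (nat_lit 2) (nat_lit 12))
    (@En.n l61 (nat_lit 10076) (nat_lit 4) (nat_lit 6))
    (@En.n l37341 (nat_lit 11793) (nat_lit 8) (nat_lit 11))
    (@En.n l21477 (nat_lit 9373) (nat_lit 11) (nat_lit 7))
    (@En.n l19812 (nat_lit 11779) (nat_lit 15) (nat_lit 4))))
  (@Cl.mk (nat_lit 0x40009000c0005000a00080004000c0007000a00060004000c0008000b0006) (nat_lit 0x650120a04003340) (nat_lit 16) Lb.e (@T16.mk En
    (@En.n l11008 (nat_lit 9019) (nat_lit 0) (nat_lit 6))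
    (@En.n l24589 (nat_lit 9498) (nat_lit 7) (nat_lit 11))
    (@En.n l39131 (nat_lit 10652) (nat_lit 14) (nat_lit 8))
    (@En.n l24591 (nat_lit 5388) (nat_lit 10) (nat_lit 12))
    (@En.n l19519 (nat_lit 10089) (nat_lit 12) (nat_lit 4))
    (@En.n l28877 (nat_lit 8831) (nat_lit 0) (nat_lit 6))
    (@En.n l24589 (nat_lit 8587) (nat_lit 8) (nat_lit 10))
    (@En.n l24592 (nat_lit 9694) (nat_lit 14) (nat_lit 7))
    (@En.n l24593 (nat_lit 9845) (nat_lit 3) (nat_lit 12))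
    (@En.n l39132 (nat_lit 8788) (nat_lit 9) (nat_lit 4))
    (@En.n l39133 (nat_lit 8771) (nat_lit 0) (nat_lit 8))
    (@En.n l16069 (nat_lit 8772) (nat_lit 1) (nat_lit 10))
    (@En.n l39134 (nat_lit 9727) (nat_lit 7) (nat_lit 5))
    (@En.n l39135 (nat_lit 8770) (nat_lit 6) (nat_lit 12))
    (@En.n l39136 (nat_lit 8799) (nat_lit 1) (nat_lit 9))
    (@En.n l24588 (nat_lit 9699) (nat_lit 12) (nat_lit 4))))
  (@Cl.mk (nat_lit 0x40009000c00040009000c0004000a00070004000c0007000c00060004000c) (nat_lit 0x390640500202003) (nat_lit 16) Lb.e (@T16.mk En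
    (@En.n l36397 (nat_lit 6727) (nat_lit 0) (nat_lit 12))
    (@En.n l11 (nat_lit 9585) (nat_lit 1) (nat_lit 4))
    (@En.n l9822 (nat_lit 6269) (nat_lit 0) (nat_lit 6))
    (@En.i (nat_lit 10286) (nat_lit 1) (nat_lit 12))
    (@En.n l12225 (nat_lit 9700) (nat_lit 14) (nat_lit 7))
    (@En.n l16713 (nat_lit 11775) (nat_lit 3) (nat_lit 12))
    (@En.n l20560 (nat_lit 8416) (nat_lit 9) (nat_lit 4))
    (@En.n l19492 (nat_lit 9702) (nat_lit 0) (nat_lit 7))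
    (@En.n l9822 (nat_lit 11884) (nat_lit 1) (nat_lit 10))
    (@En.n l28468 (nat_lit 9726) (nat_lit 9) (nat_lit 4))
    (@En.n l10937 (nat_lit 8537) (nat_lit 6) (nat_lit 12))
    (@En.n l10938 (nat_lit 9750) (nat_lit 1) (nat_lit 9))
    (@En.n l35843 (nat_lit 10532) (nat_lit 15) (nat_lit 4))
    (@En.i (nat_lit 9501) (nat_lit 6) (nat_lit 12))
    (@En.n l35720 (nat_lit 9677) (nat_lit 1) (nat_lit 9))
    (@En.n l9822 (nat_lit 8799) (nat_lit 5) (nat_lit 4))))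
  (@Cl.mk (nat_lit 0x40007000c00050009000c00040008000b000400090007000c0005000b0008) (nat_lit 0x40130380605066) (nat_lit 16) Lb.e (@T16.mk En
    (@En.n l42817 (nat_lit 9703) (nat_lit 0) (nat_lit 8))
    (@En.n l30430 (nat_lit 11885) (nat_lit 1) (nat_lit 11))
    (@En.n l18910 (nat_lit 9427) (nat_lit 8) (nat_lit 5))
    (@En.n l18396 (nat_lit 9699) (nat_lit 10) (nat_lit 12))
    (@En.n l11856 (nat_lit 9701) (nat_lit 14) (nat_lit 7))
    (@En.n l30431 (nat_lit 9751) (nat_lit 11) (nat_lit 9))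
    (@En.n l42472 (nat_lit 10678) (nat_lit 6) (nat_lit 4))
    (@En.i (nat_lit 9497) (nat_lit 7) (nat_lit 11))
    (@En.n l42818 (nat_lit 9679) (nat_lit 11) (nat_lit 8))
    (@En.n l42819 (nat_lit 9695) (nat_lit 9) (nat_lit 4))
    (@En.n l30433 (nat_lit 6739) (nat_lit 6) (nat_lit 12))
    (@En.n l30434 (nat_lit 4236) (nat_lit 1) (nat_lit 9))
    (@En.n l30432 (nat_lit 6271) (nat_lit 5) (nat_lit 5))
    (@En.n l30433 (nat_lit 10089) (nat_lit 0) (nat_lit 12))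
    (@En.i (nat_lit 11493) (nat_lit 11) (nat_lit 7))
    (@En.n l42820 (nat_lit 8415) (nat_lit 15) (nat_lit 4))))
  (@Cl.mk (nat_lit 0x40007000c0004000b00070004000c000b000500090004000c00050009000c) (nat_lit 0x40500640104049) (nat_lit 16) Lb.e (@T16.mk En
    (@En.i (nat_lit 8077) (nat_lit 6) (nat_lit 12))
    (@En.n l35720 (nat_lit 9682) (nat_lit 10) (nat_lit 9))
    (@En.n l37999 (nat_lit 9275) (nat_lit 5) (nat_lit 5))
    (@En.n l4422 (nat_lit 9700) (nat_lit 10) (nat_lit 12))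
    (@En.i (nat_lit 9699) (nat_lit 1) (nat_lit 4))
    (@En.n l35724 (nat_lit 4322) (nat_lit 10) (nat_lit 9))
    (@En.n l2254 (nat_lit 6270) (nat_lit 1) (nat_lit 5))
    (@En.n l55 (nat_lit 10088) (nat_lit 5) (nat_lit 11))
    (@En.n l2039 (nat_lit 11942) (nat_lit 1) (nat_lit 12))
    (@En.n l34962 (nat_lit 8417) (nat_lit 9) (nat_lit 4))
    (@En.n l35727 (nat_lit 9704) (nat_lit 0) (nat_lit 7))
    (@En.n l38000 (nat_lit 11881) (nat_lit 1) (nat_lit 11))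
    (@En.n l13375 (nat_lit 9571) (nat_lit 7) (nat_lit 4))
    (@En.n l250 (nat_lit 8545) (nat_lit 0) (nat_lit 12))
    (@En.n l4172 (nat_lit 4430) (nat_lit 11) (nat_lit 7))
    (@En.n l35730 (nat_lit 10645) (nat_lit 15) (nat_lit 4))))
  (@Cl.mk (nat_lit 0x3000c0006000c000b0004000b000400090005000c0005000a000d00040007) (nat_lit 0x805103030a07300) (nat_lit 16) Lb.e (@T16.mk En
    (@En.i (nat_lit 7581) (nat_lit 11) (nat_lit 7))
    (@En.n l2116 (nat_lit 9714) (nat_lit 15) (nat_lit 4))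
    (@En.i (nat_lit 8539) (nat_lit 5) (nat_lit 13))
    (@En.n l1782 (nat_lit 9743) (nat_lit 1) (nat_lit 10))
    (@En.i (nat_lit 11873) (nat_lit 4) (nat_lit 5))
    (@En.n l27075 (nat_lit 9699) (nat_lit 13) (nat_lit 12))
    (@En.n l40209 (nat_lit 9441) (nat_lit 6) (nat_lit 5))
    (@En.n l5931 (nat_lit 9675) (nat_lit 5) (nat_lit 9))
    (@En.i (nat_lit 8798) (nat_lit 8) (nat_lit 4))
    (@En.n l6152 (nat_lit 6731) (nat_lit 10) (nat_lit 11))
    (@En.n l21239 (nat_lit 9820) (nat_lit 1) (nat_lit 4))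
    (@En.n l55 (nat_lit 6146) (nat_lit 0) (nat_lit 11))
    (@En.n l35281 (nat_lit 10288) (nat_lit 1) (nat_lit 12))
    (@En.i (nat_lit 9703) (nat_lit 14) (nat_lit 6))
    (@En.n l2125 (nat_lit 11776) (nat_lit 13) (nat_lit 12))
    (@En.n l3291 (nat_lit 9707) (nat_lit 15) (nat_lit 3))))
  (@Cl.mk (nat_lit 0x30006000c000b0008000b000400080005000b0005000a0008000d00050008) (nat_lit 0x41130309072405) (nat_lit 16) Lb.e (@T16.mk En
    (@En.i (nat_lit 10093) (nat_lit 0) (nat_lit 8))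
    (@En.n l2116 (nat_lit 9428) (nat_lit 7) (nat_lit 5))
    (@En.n l3 (nat_lit 9702) (nat_lit 2) (nat_lit 13))
    (@En.n l3 (nat_lit 9704) (nat_lit 3) (nat_lit 8))
    (@En.n l31969 (nat_lit 9749) (nat_lit 4) (nat_lit 10))
    (@En.n l20022 (nat_lit 11871) (nat_lit 5) (nat_lit 5))
    (@En.n l31970 (nat_lit 9700) (nat_lit 7) (nat_lit 11))
    (@En.n l9120 (nat_lit 9436) (nat_lit 7) (nat_lit 5))
    (@En.n l31971 (nat_lit 9678) (nat_lit 11) (nat_lit 8))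
    (@En.n l22673 (nat_lit 9692) (nat_lit 9) (nat_lit 4))
    (@En.n l31972 (nat_lit 6737) (nat_lit 7) (nat_lit 11))
    (@En.n l23074 (nat_lit 4223) (nat_lit 1) (nat_lit 8))
    (@En.n l55 (nat_lit 6147) (nat_lit 13) (nat_lit 11))
    (@En.n l31973 (nat_lit 9821) (nat_lit 14) (nat_lit 12))
    (@En.n l3106 (nat_lit 11494) (nat_lit 12) (nat_lit 6))
    (@En.n l31974 (nat_lit 9705) (nat_lit 15) (nat_lit 3))))
  (@Cl.mk (nat_lit 0x3000c000b000a00080004000b000500090006000c00050008000d00040007) (nat_lit 0x741104040a01300) (nat_lit 16) Lb.e (@T16.mk En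
    (@En.i (nat_lit 10092) (nat_lit 11) (nat_lit 7))
    (@En.n l16338 (nat_lit 9712) (nat_lit 15) (nat_lit 4))
    (@En.i (nat_lit 8542) (nat_lit 0) (nat_lit 13))
    (@En.n l7633 (nat_lit 4426) (nat_lit 10) (nat_lit 8))
    (@En.n l36895 (nat_lit 11872) (nat_lit 4) (nat_lit 5))
    (@En.n l34823 (nat_lit 9701) (nat_lit 0) (nat_lit 12))
    (@En.n l31397 (nat_lit 9440) (nat_lit 6) (nat_lit 6))
    (@En.n l42216 (nat_lit 9680) (nat_lit 10) (nat_lit 9))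
    (@En.i (nat_lit 9274) (nat_lit 8) (nat_lit 5))
    (@En.n l1690 (nat_lit 9703) (nat_lit 10) (nat_lit 11))
    (@En.n l152 (nat_lit 9702) (nat_lit 10) (nat_lit 4))
    (@En.n l9992 (nat_lit 4302) (nat_lit 0) (nat_lit 8))
    (@En.n l55 (nat_lit 6145) (nat_lit 1) (nat_lit 10))
    (@En.n l619 (nat_lit 9819) (nat_lit 5) (nat_lit 11))
    (@En.i (nat_lit 11943) (nat_lit 13) (nat_lit 12))
    (@En.n l42607 (nat_lit 9706) (nat_lit 15) (nat_lit 3))))
  (@Cl.mk (nat_lit 0x30006000c000b0008000b000400090005000a0005000a0008000d00070006) (nat_lit 0x21160703072400) (nat_lit 16) Lb.e (@T16.mk En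
    (@En.n l42284 (nat_lit 8352) (nat_lit 0) (nat_lit 6))
    (@En.n l61 (nat_lit 9709) (nat_lit 7) (nat_lit 7))
    (@En.n l32580 (nat_lit 9707) (nat_lit 2) (nat_lit 13))
    (@En.n l42285 (nat_lit 9706) (nat_lit 3) (nat_lit 8))
    (@En.n l32016 (nat_lit 9748) (nat_lit 4) (nat_lit 10))
    (@En.n l32016 (nat_lit 11869) (nat_lit 5) (nat_lit 5))
    (@En.n l3517 (nat_lit 8415) (nat_lit 7) (nat_lit 10))
    (@En.n l6777 (nat_lit 9433) (nat_lit 7) (nat_lit 5))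
    (@En.n l33013 (nat_lit 9673) (nat_lit 9) (nat_lit 9))
    (@En.n l42286 (nat_lit 9431) (nat_lit 9) (nat_lit 4))
    (@En.i (nat_lit 6736) (nat_lit 7) (nat_lit 11))
    (@En.n l42259 (nat_lit 4222) (nat_lit 12) (nat_lit 8))
    (@En.n l42287 (nat_lit 6153) (nat_lit 13) (nat_lit 11))
    (@En.i (nat_lit 9818) (nat_lit 14) (nat_lit 12))
    (@En.n l3971 (nat_lit 9568) (nat_lit 12) (nat_lit 6))
    (@En.n l42288 (nat_lit 9703) (nat_lit 15) (nat_lit 3))))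
  (@Cl.mk (nat_lit 0x3000c000b000a00080004000b0005000a0006000b00050008000d00060005) (nat_lit 0x721107080201300) (nat_lit 16) Lb.e (@T16.mk En
    (@En.i (nat_lit 8353) (nat_lit 0) (nat_lit 5))
    (@En.n l38001 (nat_lit 9708) (nat_lit 0) (nat_lit 6))
    (@En.n l23774 (nat_lit 8546) (nat_lit 2) (nat_lit 13))
    (@En.n l38002 (nat_lit 4427) (nat_lit 10) (nat_lit 8))
    (@En.n l7722 (nat_lit 11870) (nat_lit 4) (nat_lit 5))
    (@En.n l17884 (nat_lit 8417) (nat_lit 0) (nat_lit 11))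
    (@En.n l7722 (nat_lit 9435) (nat_lit 6) (nat_lit 6))
    (@En.n l38003 (nat_lit 9674) (nat_lit 2) (nat_lit 10))
    (@En.n l23774 (nat_lit 9269) (nat_lit 8) (nat_lit 5))
    (@En.n l38004 (nat_lit 9705) (nat_lit 10) (nat_lit 11))
    (@En.n l38005 (nat_lit 9707) (nat_lit 10) (nat_lit 4))
    (@En.n l97 (nat_lit 4303) (nat_lit 0) (nat_lit 8))
    (@En.n l872 (nat_lit 6151) (nat_lit 1) (nat_lit 10))
    (@En.n l217 (nat_lit 9817) (nat_lit 5) (nat_lit 11))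
    (@En.n l38006 (nat_lit 9812) (nat_lit 3) (nat_lit 12))
    (@En.n l38007 (nat_lit 9704) (nat_lit 15) (nat_lit 3))))
  (@Cl.mk (nat_lit 0x3000c0006000c000b0004000b0004000a0005000b0005000a000d00060005) (nat_lit 0x801107080307300) (nat_lit 16) Lb.e (@T16.mk En
    (@En.n l2921 (nat_lit 8377) (nat_lit 0) (nat_lit 5))
    (@En.n l1290 (nat_lit 9936) (nat_lit 0) (nat_lit 6))
    (@En.i (nat_lit 8541) (nat_lit 5) (nat_lit 13))
    (@En.n l97 (nat_lit 9746) (nat_lit 3) (nat_lit 10))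
    (@En.n l61 (nat_lit 11868) (nat_lit 4) (nat_lit 5))
    (@En.n l36092 (nat_lit 8416) (nat_lit 0) (nat_lit 11))
    (@En.n l36093 (nat_lit 9432) (nat_lit 6) (nat_lit 5))
    (@En.n l36094 (nat_lit 9672) (nat_lit 2) (nat_lit 10))
    (@En.n l36095 (nat_lit 8790) (nat_lit 8) (nat_lit 4))
    (@En.n l152 (nat_lit 6734) (nat_lit 10) (nat_lit 11))
    (@En.n l36096 (nat_lit 9815) (nat_lit 1) (nat_lit 4))
    (@En.n l36097 (nat_lit 6152) (nat_lit 0) (nat_lit 11))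
    (@En.n l36098 (nat_lit 8698) (nat_lit 1) (nat_lit 12))
    (@En.n l36099 (nat_lit 9705) (nat_lit 14) (nat_lit 6))
    (@En.n l36100 (nat_lit 9810) (nat_lit 3) (nat_lit 12))
    (@En.n l2101 (nat_lit 9702) (nat_lit 15) (nat_lit 3))))
  (@Cl.mk (nat_lit 0x40007000c000b000900070004000a0005000a00090007000c000600090006) (nat_lit 0x23300707503010) (nat_lit 16) Lb.e (@T16.mk En
    (@En.n l38362 (nat_lit 9705) (nat_lit 0) (nat_lit 6))
    (@En.n l7633 (nat_lit 4429) (nat_lit 9) (nat_lit 9))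
    (@En.n l35405 (nat_lit 9720) (nat_lit 8) (nat_lit 6))
    (@En.n l43055 (nat_lit 9710) (nat_lit 8) (nat_lit 12))
    (@En.n l43566 (nat_lit 9711) (nat_lit 9) (nat_lit 7))
    (@En.i (nat_lit 9704) (nat_lit 7) (nat_lit 9))
    (@En.n l43567 (nat_lit 9728) (nat_lit 10) (nat_lit 10))
    (@En.i (nat_lit 9420) (nat_lit 7) (nat_lit 5))
    (@En.n l43568 (nat_lit 9709) (nat_lit 0) (nat_lit 10))
    (@En.n l152 (nat_lit 9936) (nat_lit 9) (nat_lit 4))
    (@En.n l9992 (nat_lit 4306) (nat_lit 0) (nat_lit 7))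
    (@En.n l43569 (nat_lit 10389) (nat_lit 1) (nat_lit 9))
    (@En.n l43570 (nat_lit 10052) (nat_lit 5) (nat_lit 11))
    (@En.n l43571 (nat_lit 9816) (nat_lit 8) (nat_lit 12))
    (@En.n l17 (nat_lit 10090) (nat_lit 11) (nat_lit 7))
    (@En.n l43572 (nat_lit 9782) (nat_lit 12) (nat_lit 4))))
  (@Cl.mk (nat_lit 0x4000900080006000b0006000b00090007000500080005000c000a0007000a) (nat_lit 0x640407200203306) (nat_lit 16) Lb.e (@T16.mk En
    (@En.i (nat_lit 9866) (nat_lit 8) (nat_lit 10))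
    (@En.n l31176 (nat_lit 4221) (nat_lit 1) (nat_lit 7))
    (@En.n l43142 (nat_lit 10390) (nat_lit 6) (nat_lit 10))
    (@En.i (nat_lit 10059) (nat_lit 3) (nat_lit 12))
    (@En.n l43143 (nat_lit 10650) (nat_lit 4) (nat_lit 5))
    (@En.n l18716 (nat_lit 10091) (nat_lit 10) (nat_lit 8))
    (@En.n l43144 (nat_lit 9783) (nat_lit 11) (nat_lit 5))
    (@En.n l5821 (nat_lit 9673) (nat_lit 0) (nat_lit 7))
    (@En.n l43145 (nat_lit 9708) (nat_lit 1) (nat_lit 9))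
    (@En.n l43146 (nat_lit 11045) (nat_lit 9) (nat_lit 11))
    (@En.n l40841 (nat_lit 9722) (nat_lit 11) (nat_lit 6))
    (@En.n l43147 (nat_lit 9811) (nat_lit 9) (nat_lit 11))
    (@En.n l28132 (nat_lit 9810) (nat_lit 10) (nat_lit 6))
    (@En.n l16629 (nat_lit 9703) (nat_lit 8) (nat_lit 8))
    (@En.i (nat_lit 9727) (nat_lit 11) (nat_lit 9))
    (@En.n l14434 (nat_lit 9422) (nat_lit 15) (nat_lit 4))))
  (@Cl.mk (nat_lit 0x400080004000b0005000b0009000c0005000800050004000c0007000c000b) (nat_lit 0x108045204006033) (nat_lit 16) Lb.e (@T16.mk En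
    (@En.n l217 (nat_lit 10057) (nat_lit 0) (nat_lit 11))
    (@En.n l34065 (nat_lit 12457) (nat_lit 1) (nat_lit 12))
    (@En.n l38103 (nat_lit 9708) (nat_lit 14) (nat_lit 7))
    (@En.n l29288 (nat_lit 9724) (nat_lit 3) (nat_lit 12))
    (@En.n l152 (nat_lit 9645) (nat_lit 12) (nat_lit 4))
    (@En.n l3851 (nat_lit 9707) (nat_lit 0) (nat_lit 5))
    (@En.n l617 (nat_lit 6303) (nat_lit 10) (nat_lit 8))
    (@En.n l2605 (nat_lit 9939) (nat_lit 1) (nat_lit 5))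
    (@En.i (nat_lit 8554) (nat_lit 6) (nat_lit 12))
    (@En.n l13561 (nat_lit 9701) (nat_lit 1) (nat_lit 9))
    (@En.n l4542 (nat_lit 8883) (nat_lit 2) (nat_lit 11))
    (@En.n l3523 (nat_lit 9421) (nat_lit 6) (nat_lit 5))
    (@En.n l13149 (nat_lit 9811) (nat_lit 13) (nat_lit 11))
    (@En.n l50 (nat_lit 8800) (nat_lit 15) (nat_lit 4))
    (@En.i (nat_lit 4309) (nat_lit 11) (nat_lit 8))
    (@En.n l4542 (nat_lit 9813) (nat_lit 1) (nat_lit 4))))
  (@Cl.mk (nat_lit 0x400080005000b0006000b0007000c0005000800050004000c000b000a0009) (nat_lit 0x203050604006033) (nat_lit 16) Lb.e (@T16.mk En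
    (@En.n l28248 (nat_lit 10384) (nat_lit 0) (nat_lit 9))
    (@En.n l8311 (nat_lit 10056) (nat_lit 1) (nat_lit 10))
    (@En.n l14017 (nat_lit 9814) (nat_lit 5) (nat_lit 11))
    (@En.n l40275 (nat_lit 10073) (nat_lit 3) (nat_lit 12))
    (@En.n l40276 (nat_lit 9078) (nat_lit 12) (nat_lit 4))
    (@En.n l28249 (nat_lit 9706) (nat_lit 0) (nat_lit 5))
    (@En.n l3490 (nat_lit 7496) (nat_lit 10) (nat_lit 8))
    (@En.n l28250 (nat_lit 9717) (nat_lit 1) (nat_lit 5))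
    (@En.i (nat_lit 8520) (nat_lit 8) (nat_lit 12))
    (@En.n l5653 (nat_lit 9439) (nat_lit 1) (nat_lit 7))
    (@En.n l28251 (nat_lit 9714) (nat_lit 2) (nat_lit 11))
    (@En.n l40276 (nat_lit 9429) (nat_lit 6) (nat_lit 6))
    (@En.n l40277 (nat_lit 9810) (nat_lit 13) (nat_lit 11))
    (@En.i (nat_lit 9459) (nat_lit 8) (nat_lit 5))
    (@En.n l36091 (nat_lit 9706) (nat_lit 11) (nat_lit 8))
    (@En.n l27873 (nat_lit 9710) (nat_lit 15) (nat_lit 4))))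
noncomputable def a607 : T16 Cl := @T16.mk Cl
  (@Cl.mk (nat_lit 0x400070005000c000b000a00070004000a000500090006000c000b00060009) (nat_lit 0x941004050a303) (nat_lit 16) Lb.e (@T16.mk En
    (@En.n l2281 (nat_lit 4428) (nat_lit 9) (nat_lit 9))
    (@En.n l38270 (nat_lit 8429) (nat_lit 1) (nat_lit 6))
    (@En.n l38271 (nat_lit 9706) (nat_lit 5) (nat_lit 11))
    (@En.n l38272 (nat_lit 9571) (nat_lit 11) (nat_lit 12))
    (@En.n l38273 (nat_lit 9452) (nat_lit 4) (nat_lit 6))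
    (@En.n l37549 (nat_lit 9685) (nat_lit 10) (nat_lit 9))
    (@En.n l38274 (nat_lit 9478) (nat_lit 6) (nat_lit 5))
    (@En.n l28 (nat_lit 9428) (nat_lit 0) (nat_lit 10))
    (@En.i (nat_lit 9714) (nat_lit 8) (nat_lit 4))
    (@En.n l30652 (nat_lit 3311) (nat_lit 0) (nat_lit 7))
    (@En.n l38275 (nat_lit 6848) (nat_lit 1) (nat_lit 10))
    (@En.n l38276 (nat_lit 9823) (nat_lit 5) (nat_lit 11))
    (@En.n l38277 (nat_lit 11802) (nat_lit 13) (nat_lit 12))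
    (@En.n l38278 (nat_lit 8421) (nat_lit 11) (nat_lit 5))
    (@En.n l8087 (nat_lit 9456) (nat_lit 11) (nat_lit 7))
    (@En.n l6387 (nat_lit 9715) (nat_lit 15) (nat_lit 4))))
  (@Cl.mk (nat_lit 0x50008000b00060005000b000a0005000a00080005000b0006000a0006000b) (nat_lit 0x260097023040502) (nat_lit 16) Lb.e (@T16.mk En
    (@En.n l43368 (nat_lit 8421) (nat_lit 0) (nat_lit 11))
    (@En.n l31120 (nat_lit 9956) (nat_lit 1) (nat_lit 6))
    (@En.n l43369 (nat_lit 8793) (nat_lit 9) (nat_lit 10))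
    (@En.n l43370 (nat_lit 9481) (nat_lit 7) (nat_lit 6))
    (@En.n l43371 (nat_lit 9426) (nat_lit 0) (nat_lit 11))
    (@En.n l43372 (nat_lit 9937) (nat_lit 1) (nat_lit 5))
    (@En.n l11 (nat_lit 9571) (nat_lit 0) (nat_lit 8))
    (@En.n l43372 (nat_lit 9712) (nat_lit 10) (nat_lit 10))
    (@En.n l4361 (nat_lit 9370) (nat_lit 2) (nat_lit 5))
    (@En.n l217 (nat_lit 10080) (nat_lit 6) (nat_lit 10))
    (@En.n l899 (nat_lit 11803) (nat_lit 1) (nat_lit 11))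
    (@En.n l43373 (nat_lit 9646) (nat_lit 11) (nat_lit 5))
    (@En.n l43374 (nat_lit 9455) (nat_lit 0) (nat_lit 6))
    (@En.n l43369 (nat_lit 10859) (nat_lit 7) (nat_lit 11))
    (@En.n l43375 (nat_lit 6352) (nat_lit 10) (nat_lit 8))
    (@En.n l24018 (nat_lit 8432) (nat_lit 15) (nat_lit 5))))
  (@Cl.mk (nat_lit 0x400070005000c0005000c000b0004000a000400090005000c000b0006000b) (nat_lit 0x800101020a408) (nat_lit 16) Lb.e (@T16.mk En
    (@En.n l55 (nat_lit 8590) (nat_lit 0) (nat_lit 11))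
    (@En.n l287 (nat_lit 9646) (nat_lit 1) (nat_lit 6))
    (@En.n l2824 (nat_lit 9707) (nat_lit 5) (nat_lit 11))
    (@En.n l18354 (nat_lit 9726) (nat_lit 13) (nat_lit 12))
    (@En.n l50 (nat_lit 9358) (nat_lit 4) (nat_lit 5))
    (@En.i (nat_lit 9674) (nat_lit 5) (nat_lit 9))
    (@En.n l15801 (nat_lit 8883) (nat_lit 6) (nat_lit 4))
    (@En.i (nat_lit 8137) (nat_lit 0) (nat_lit 10))
    (@En.n l12055 (nat_lit 9822) (nat_lit 1) (nat_lit 4))
    (@En.n l9762 (nat_lit 6851) (nat_lit 0) (nat_lit 11))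
    (@En.n l532 (nat_lit 9734) (nat_lit 1) (nat_lit 12))
    (@En.i (nat_lit 9428) (nat_lit 4) (nat_lit 5))
    (@En.n l12927 (nat_lit 11777) (nat_lit 13) (nat_lit 12))
    (@En.n l134 (nat_lit 8417) (nat_lit 11) (nat_lit 5))
    (@En.i (nat_lit 9450) (nat_lit 11) (nat_lit 7))
    (@En.n l936 (nat_lit 9716) (nat_lit 15) (nat_lit 4))))
  (@Cl.mk (nat_lit 0x400070004000c000b000a000900040009000500090006000c0007000c0007) (nat_lit 0x7423040308040) (nat_lit 16) Lb.e (@T16.mk En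
    (@En.n l5653 (nat_lit 9077) (nat_lit 0) (nat_lit 7))
    (@En.n l9845 (nat_lit 8543) (nat_lit 1) (nat_lit 12))
    (@En.n l40647 (nat_lit 9455) (nat_lit 4) (nat_lit 7))
    (@En.n l43625 (nat_lit 9570) (nat_lit 11) (nat_lit 12))
    (@En.i (nat_lit 9454) (nat_lit 4) (nat_lit 6))
    (@En.n l8052 (nat_lit 11880) (nat_lit 10) (nat_lit 9))
    (@En.n l9845 (nat_lit 9469) (nat_lit 6) (nat_lit 5))
    (@En.i (nat_lit 9711) (nat_lit 0) (nat_lit 9))
    (@En.n l14016 (nat_lit 9716) (nat_lit 8) (nat_lit 4))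
    (@En.n l11412 (nat_lit 10075) (nat_lit 0) (nat_lit 9))
    (@En.n l14017 (nat_lit 10055) (nat_lit 1) (nat_lit 10))
    (@En.n l1236 (nat_lit 10086) (nat_lit 5) (nat_lit 11))
    (@En.n l4909 (nat_lit 11738) (nat_lit 13) (nat_lit 12))
    (@En.n l43626 (nat_lit 9711) (nat_lit 4) (nat_lit 4))
    (@En.n l11412 (nat_lit 6576) (nat_lit 11) (nat_lit 7))
    (@En.n l17194 (nat_lit 9704) (nat_lit 1) (nat_lit 4))))
  (@Cl.mk (nat_lit 0x400070004000c0007000c000b00040009000400090005000c0009000c0007) (nat_lit 0xa090030408430) (nat_lit 16) Lb.e (@T16.mk En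
    (@En.n l619 (nat_lit 9647) (nat_lit 0) (nat_lit 7))
    (@En.i (nat_lit 8540) (nat_lit 6) (nat_lit 12))
    (@En.i (nat_lit 9570) (nat_lit 12) (nat_lit 9))
    (@En.i (nat_lit 9718) (nat_lit 13) (nat_lit 12))
    (@En.n l50 (nat_lit 9464) (nat_lit 4) (nat_lit 5))
    (@En.n l30875 (nat_lit 11781) (nat_lit 5) (nat_lit 9))
    (@En.n l50 (nat_lit 9473) (nat_lit 6) (nat_lit 4))
    (@En.i (nat_lit 10374) (nat_lit 0) (nat_lit 9))
    (@En.n l27225 (nat_lit 10087) (nat_lit 1) (nat_lit 4))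
    (@En.n l217 (nat_lit 10053) (nat_lit 0) (nat_lit 11))
    (@En.i (nat_lit 10299) (nat_lit 1) (nat_lit 12))
    (@En.i (nat_lit 9717) (nat_lit 14) (nat_lit 7))
    (@En.i (nat_lit 11091) (nat_lit 13) (nat_lit 12))
    (@En.i (nat_lit 9710) (nat_lit 4) (nat_lit 4))
    (@En.i (nat_lit 11550) (nat_lit 11) (nat_lit 7))
    (@En.n l1865 (nat_lit 9702) (nat_lit 1) (nat_lit 4))))
  (@Cl.mk (nat_lit 0x40007000c000b00090008000400080005000b00090007000c000800050008) (nat_lit 0x73230309404102) (nat_lit 16) Lb.e (@T16.mk En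
    (@En.i (nat_lit 11551) (nat_lit 10) (nat_lit 8))
    (@En.n l1865 (nat_lit 9703) (nat_lit 1) (nat_lit 5))
    (@En.n l97 (nat_lit 9126) (nat_lit 0) (nat_lit 8))
    (@En.n l28 (nat_lit 9716) (nat_lit 1) (nat_lit 12))
    (@En.n l12788 (nat_lit 9715) (nat_lit 2) (nat_lit 7))
    (@En.n l31062 (nat_lit 9715) (nat_lit 5) (nat_lit 9))
    (@En.n l40233 (nat_lit 9719) (nat_lit 13) (nat_lit 11))
    (@En.n l40501 (nat_lit 9463) (nat_lit 7) (nat_lit 5))
    (@En.n l40502 (nat_lit 11870) (nat_lit 11) (nat_lit 8))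
    (@En.n l29575 (nat_lit 9939) (nat_lit 9) (nat_lit 4))
    (@En.n l13671 (nat_lit 10382) (nat_lit 8) (nat_lit 8))
    (@En.n l21268 (nat_lit 10397) (nat_lit 1) (nat_lit 9))
    (@En.n l217 (nat_lit 10054) (nat_lit 5) (nat_lit 11))
    (@En.n l38348 (nat_lit 11901) (nat_lit 8) (nat_lit 12))
    (@En.n l13673 (nat_lit 5749) (nat_lit 11) (nat_lit 7))
    (@En.n l38103 (nat_lit 9708) (nat_lit 15) (nat_lit 4))))
  (@Cl.mk (nat_lit 0x40009000c0008000b00060004000a00070005000c0008000c00060004000a) (nat_lit 0x373300500a25003) (nat_lit 16) Lb.e (@T16.mk En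
    (@En.i (nat_lit 10372) (nat_lit 0) (nat_lit 10))
    (@En.n l4542 (nat_lit 10085) (nat_lit 1) (nat_lit 4))
    (@En.i (nat_lit 10048) (nat_lit 0) (nat_lit 6))
    (@En.n l34068 (nat_lit 10295) (nat_lit 1) (nat_lit 12))
    (@En.n l40233 (nat_lit 9719) (nat_lit 4) (nat_lit 8))
    (@En.n l37209 (nat_lit 11093) (nat_lit 3) (nat_lit 12))
    (@En.n l4542 (nat_lit 8883) (nat_lit 11) (nat_lit 5))
    (@En.n l17 (nat_lit 9716) (nat_lit 14) (nat_lit 7))
    (@En.i (nat_lit 11085) (nat_lit 1) (nat_lit 10))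
    (@En.n l42803 (nat_lit 9699) (nat_lit 9) (nat_lit 4))
    (@En.n l40820 (nat_lit 9649) (nat_lit 0) (nat_lit 6))
    (@En.i (nat_lit 8538) (nat_lit 7) (nat_lit 11))
    (@En.n l42804 (nat_lit 9725) (nat_lit 13) (nat_lit 8))
    (@En.n l16722 (nat_lit 9607) (nat_lit 6) (nat_lit 12))
    (@En.n l30051 (nat_lit 11782) (nat_lit 11) (nat_lit 9))
    (@En.n l50 (nat_lit 9949) (nat_lit 5) (nat_lit 4))))
  (@Cl.mk (nat_lit 0x40008000b00080006000b00070005000b000800050008000c0005000a0009) (nat_lit 0x383040083014023) (nat_lit 16) Lb.e (@T16.mk En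
    (@En.i (nat_lit 10383) (nat_lit 7) (nat_lit 9))
    (@En.n l42232 (nat_lit 10399) (nat_lit 1) (nat_lit 10))
    (@En.n l2116 (nat_lit 9515) (nat_lit 15) (nat_lit 5))
    (@En.n l42233 (nat_lit 11994) (nat_lit 7) (nat_lit 12))
    (@En.i (nat_lit 6529) (nat_lit 10) (nat_lit 8))
    (@En.n l42234 (nat_lit 9728) (nat_lit 2) (nat_lit 5))
    (@En.n l42235 (nat_lit 9717) (nat_lit 0) (nat_lit 8))
    (@En.n l42236 (nat_lit 11084) (nat_lit 1) (nat_lit 11))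
    (@En.n l6103 (nat_lit 9700) (nat_lit 2) (nat_lit 5))
    (@En.n l42233 (nat_lit 9129) (nat_lit 0) (nat_lit 7))
    (@En.n l42237 (nat_lit 9718) (nat_lit 11) (nat_lit 11))
    (@En.n l42238 (nat_lit 9570) (nat_lit 10) (nat_lit 6))
    (@En.n l42239 (nat_lit 9724) (nat_lit 13) (nat_lit 8))
    (@En.i (nat_lit 9608) (nat_lit 7) (nat_lit 11))
    (@En.n l42236 (nat_lit 11869) (nat_lit 11) (nat_lit 8))
    (@En.n l42240 (nat_lit 9940) (nat_lit 15) (nat_lit 4))))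
  (@Cl.mk (nat_lit 0x4000a00080006000b000a000800060009000500080006000c000a00080007) (nat_lit 0x340472030205220) (nat_lit 16) Lb.e (@T16.mk En
    (@En.n l37214 (nat_lit 10840) (nat_lit 9) (nat_lit 7))
    (@En.i (nat_lit 10392) (nat_lit 1) (nat_lit 8))
    (@En.n l37215 (nat_lit 10071) (nat_lit 6) (nat_lit 10))
    (@En.n l37216 (nat_lit 10498) (nat_lit 3) (nat_lit 12))
    (@En.n l37217 (nat_lit 12191) (nat_lit 10) (nat_lit 6))
    (@En.n l117 (nat_lit 11052) (nat_lit 10) (nat_lit 8))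
    (@En.n l37218 (nat_lit 9709) (nat_lit 6) (nat_lit 5))
    (@En.n l37219 (nat_lit 11546) (nat_lit 9) (nat_lit 9))
    (@En.n l11880 (nat_lit 11118) (nat_lit 1) (nat_lit 6))
    (@En.n l36009 (nat_lit 9717) (nat_lit 2) (nat_lit 8))
    (@En.n l37220 (nat_lit 11872) (nat_lit 6) (nat_lit 10))
    (@En.n l36010 (nat_lit 9721) (nat_lit 9) (nat_lit 11))
    (@En.n l37221 (nat_lit 9724) (nat_lit 10) (nat_lit 6))
    (@En.n l37222 (nat_lit 9717) (nat_lit 8) (nat_lit 8))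
    (@En.n l37223 (nat_lit 9722) (nat_lit 1) (nat_lit 10))
    (@En.n l11876 (nat_lit 9938) (nat_lit 15) (nat_lit 4))))
  (@Cl.mk (nat_lit 0x4000900080004000b0008000b00090007000500080005000c00080007000c) (nat_lit 0x220343600309306) (nat_lit 16) Lb.e (@T16.mk En
    (@En.n l28173 (nat_lit 10497) (nat_lit 0) (nat_lit 12))
    (@En.n l36989 (nat_lit 11993) (nat_lit 9) (nat_lit 7))
    (@En.n l36990 (nat_lit 9720) (nat_lit 5) (nat_lit 8))
    (@En.n l24147 (nat_lit 11092) (nat_lit 3) (nat_lit 12))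
    (@En.n l29576 (nat_lit 9811) (nat_lit 4) (nat_lit 5))
    (@En.n l5308 (nat_lit 11547) (nat_lit 10) (nat_lit 8))
    (@En.n l42478 (nat_lit 11119) (nat_lit 11) (nat_lit 5))
    (@En.i (nat_lit 9716) (nat_lit 0) (nat_lit 7))
    (@En.n l42479 (nat_lit 11878) (nat_lit 1) (nat_lit 9))
    (@En.i (nat_lit 9732) (nat_lit 7) (nat_lit 11))
    (@En.n l42480 (nat_lit 9719) (nat_lit 14) (nat_lit 8))
    (@En.n l1112 (nat_lit 9723) (nat_lit 12) (nat_lit 11))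
    (@En.n l28176 (nat_lit 9739) (nat_lit 15) (nat_lit 4))
    (@En.n l28173 (nat_lit 10844) (nat_lit 8) (nat_lit 8))
    (@En.n l50 (nat_lit 10377) (nat_lit 1) (nat_lit 9))
    (@En.n l42481 (nat_lit 10073) (nat_lit 15) (nat_lit 4))))
  (@Cl.mk (nat_lit 0x5000a000900070006000b00090006000900070005000b00090007000a0007) (nat_lit 0x460064000052020) (nat_lit 16) Lb.e (@T16.mk En
    (@En.n l31376 (nat_lit 9720) (nat_lit 0) (nat_lit 7))
    (@En.n l36341 (nat_lit 8222) (nat_lit 8) (nat_lit 10))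
    (@En.n l36342 (nat_lit 10842) (nat_lit 9) (nat_lit 7))
    (@En.i (nat_lit 10393) (nat_lit 7) (nat_lit 9))
    (@En.n l36343 (nat_lit 10070) (nat_lit 10) (nat_lit 11))
    (@En.n l36344 (nat_lit 10078) (nat_lit 11) (nat_lit 5))
    (@En.n l36345 (nat_lit 12192) (nat_lit 9) (nat_lit 7))
    (@En.i (nat_lit 11053) (nat_lit 9) (nat_lit 9))
    (@En.n l36346 (nat_lit 9727) (nat_lit 2) (nat_lit 6))
    (@En.n l20241 (nat_lit 9720) (nat_lit 7) (nat_lit 9))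
    (@En.n l36347 (nat_lit 11076) (nat_lit 9) (nat_lit 11))
    (@En.n l4658 (nat_lit 11113) (nat_lit 10) (nat_lit 6))
    (@En.n l5579 (nat_lit 9719) (nat_lit 9) (nat_lit 7))
    (@En.n l9941 (nat_lit 11871) (nat_lit 7) (nat_lit 9))
    (@En.n l36348 (nat_lit 9723) (nat_lit 10) (nat_lit 10))
    (@En.n l36349 (nat_lit 9725) (nat_lit 11) (nat_lit 5))))
  (@Cl.mk (nat_lit 0x4000a0008000b0007000a000800060005000a00080006000c000900080006) (nat_lit 0x232035005405150) (nat_lit 16) Lb.e (@T16.mk En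
    (@En.n l32198 (nat_lit 10080) (nat_lit 0) (nat_lit 6))
    (@En.n l32199 (nat_lit 11990) (nat_lit 8) (nat_lit 8))
    (@En.n l32200 (nat_lit 9722) (nat_lit 7) (nat_lit 9))
    (@En.n l5523 (nat_lit 11096) (nat_lit 3) (nat_lit 12))
    (@En.n l20141 (nat_lit 8882) (nat_lit 10) (nat_lit 6))
    (@En.n l20142 (nat_lit 9721) (nat_lit 5) (nat_lit 8))
    (@En.n l20143 (nat_lit 11078) (nat_lit 10) (nat_lit 10))
    (@En.n l32201 (nat_lit 11114) (nat_lit 11) (nat_lit 5))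
    (@En.n l8523 (nat_lit 9718) (nat_lit 10) (nat_lit 6))
    (@En.n l32202 (nat_lit 11124) (nat_lit 8) (nat_lit 8))
    (@En.i (nat_lit 9731) (nat_lit 8) (nat_lit 10))
    (@En.n l32203 (nat_lit 9722) (nat_lit 2) (nat_lit 7))
    (@En.i (nat_lit 8221) (nat_lit 7) (nat_lit 11))
    (@En.n l32203 (nat_lit 11943) (nat_lit 8) (nat_lit 8))
    (@En.n l8513 (nat_lit 10378) (nat_lit 11) (nat_lit 10))
    (@En.n l20141 (nat_lit 10083) (nat_lit 15) (nat_lit 4))))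
  (@Cl.mk (nat_lit 0x4000900080005000b0006000b000a0007000500080005000c0006000b000a) (nat_lit 0x420304700205043) (nat_lit 16) Lb.e (@T16.mk En
    (@En.n l21299 (nat_lit 10066) (nat_lit 0) (nat_lit 10))
    (@En.n l41818 (nat_lit 10496) (nat_lit 1) (nat_lit 11))
    (@En.n l41819 (nat_lit 10042) (nat_lit 5) (nat_lit 6))
    (@En.n l41663 (nat_lit 11855) (nat_lit 3) (nat_lit 12))
    (@En.n l11 (nat_lit 9810) (nat_lit 4) (nat_lit 5))
    (@En.n l21299 (nat_lit 6604) (nat_lit 10) (nat_lit 8))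
    (@En.n l41820 (nat_lit 11120) (nat_lit 11) (nat_lit 5))
    (@En.n l39723 (nat_lit 9715) (nat_lit 0) (nat_lit 7))
    (@En.n l41821 (nat_lit 11881) (nat_lit 6) (nat_lit 10))
    (@En.n l15071 (nat_lit 9730) (nat_lit 9) (nat_lit 11))
    (@En.n l41822 (nat_lit 9319) (nat_lit 11) (nat_lit 6))
    (@En.n l41823 (nat_lit 9725) (nat_lit 12) (nat_lit 11))
    (@En.n l5757 (nat_lit 9937) (nat_lit 13) (nat_lit 5))
    (@En.n l6918 (nat_lit 10577) (nat_lit 8) (nat_lit 8))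
    (@En.n l41824 (nat_lit 9708) (nat_lit 11) (nat_lit 9))
    (@En.n l41825 (nat_lit 9721) (nat_lit 15) (nat_lit 4))))
  (@Cl.mk (nat_lit 0x4000a0008000b0005000a000900060005000b00080006000c00070005000b) (nat_lit 0x422036002306008) (nat_lit 16) Lb.e (@T16.mk En
    (@En.n l14297 (nat_lit 10064) (nat_lit 0) (nat_lit 11))
    (@En.n l3100 (nat_lit 10082) (nat_lit 1) (nat_lit 5))
    (@En.n l35478 (nat_lit 10044) (nat_lit 0) (nat_lit 7))
    (@En.n l20048 (nat_lit 11854) (nat_lit 1) (nat_lit 12))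
    (@En.n l8434 (nat_lit 9726) (nat_lit 4) (nat_lit 6))
    (@En.n l32173 (nat_lit 9724) (nat_lit 5) (nat_lit 8))
    (@En.n l899 (nat_lit 10281) (nat_lit 10) (nat_lit 11))
    (@En.n l9415 (nat_lit 11112) (nat_lit 11) (nat_lit 5))
    (@En.n l35821 (nat_lit 9570) (nat_lit 8) (nat_lit 6))
    (@En.n l35822 (nat_lit 11885) (nat_lit 7) (nat_lit 9))
    (@En.n l617 (nat_lit 9729) (nat_lit 10) (nat_lit 10))
    (@En.n l2125 (nat_lit 9480) (nat_lit 2) (nat_lit 5))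
    (@En.n l3851 (nat_lit 8225) (nat_lit 7) (nat_lit 11))
    (@En.n l3536 (nat_lit 10575) (nat_lit 8) (nat_lit 8))
    (@En.n l35823 (nat_lit 9709) (nat_lit 2) (nat_lit 10))
    (@En.n l10345 (nat_lit 9723) (nat_lit 15) (nat_lit 4))))
  (@Cl.mk (nat_lit 0x40009000c000a0005000a0004000a00070006000c0006000c00060004000b) (nat_lit 0x29207070080a001) (nat_lit 16) Lb.e (@T16.mk En
    (@En.n l33260 (nat_lit 8141) (nat_lit 0) (nat_lit 11))
    (@En.i (nat_lit 10081) (nat_lit 1) (nat_lit 4))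
    (@En.n l16914 (nat_lit 9372) (nat_lit 0) (nat_lit 6))
    (@En.n l13013 (nat_lit 9733) (nat_lit 1) (nat_lit 12))
    (@En.n l18235 (nat_lit 9427) (nat_lit 4) (nat_lit 6))
    (@En.n l899 (nat_lit 11778) (nat_lit 12) (nat_lit 12))
    (@En.n l2605 (nat_lit 8879) (nat_lit 10) (nat_lit 6))
    (@En.n l25747 (nat_lit 9714) (nat_lit 14) (nat_lit 7))
    (@En.n l33260 (nat_lit 9937) (nat_lit 9) (nat_lit 10))
    (@En.n l43392 (nat_lit 9718) (nat_lit 9) (nat_lit 4))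
    (@En.n l43393 (nat_lit 8591) (nat_lit 0) (nat_lit 10))
    (@En.n l2125 (nat_lit 9648) (nat_lit 1) (nat_lit 5))
    (@En.n l43394 (nat_lit 8419) (nat_lit 0) (nat_lit 10))
    (@En.n l899 (nat_lit 9352) (nat_lit 6) (nat_lit 12))
    (@En.n l43395 (nat_lit 9673) (nat_lit 11) (nat_lit 9))
    (@En.n l43396 (nat_lit 8882) (nat_lit 5) (nat_lit 4))))
  (@Cl.mk (nat_lit 0x4000b0008000b000900070005000a0005000a00080007000c000600090006) (nat_lit 0x21650030740a020) (nat_lit 16) Lb.e (@T16.mk En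
    (@En.n l43456 (nat_lit 10659) (nat_lit 0) (nat_lit 6))
    (@En.n l5253 (nat_lit 11381) (nat_lit 9) (nat_lit 9))
    (@En.n l16214 (nat_lit 8402) (nat_lit 1) (nat_lit 6))
    (@En.i (nat_lit 10639) (nat_lit 8) (nat_lit 12))
    (@En.n l5821 (nat_lit 8881) (nat_lit 9) (nat_lit 7))
    (@En.n l43457 (nat_lit 9728) (nat_lit 5) (nat_lit 8))
    (@En.n l43458 (nat_lit 9938) (nat_lit 10) (nat_lit 10))
    (@En.n l3958 (nat_lit 9723) (nat_lit 7) (nat_lit 5))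
    (@En.n l43459 (nat_lit 8882) (nat_lit 0) (nat_lit 10))
    (@En.n l1003 (nat_lit 9726) (nat_lit 11) (nat_lit 5))
    (@En.i (nat_lit 11118) (nat_lit 9) (nat_lit 7))
    (@En.n l43460 (nat_lit 8400) (nat_lit 1) (nat_lit 9))
    (@En.i (nat_lit 9354) (nat_lit 7) (nat_lit 11))
    (@En.n l43461 (nat_lit 4314) (nat_lit 14) (nat_lit 8))
    (@En.n l43462 (nat_lit 9335) (nat_lit 4) (nat_lit 11))
    (@En.i (nat_lit 10077) (nat_lit 12) (nat_lit 4))))
noncomputable def a608 : T16 Cl := @T16.mk Cl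
  (@Cl.mk (nat_lit 0x4000a00080004000b000a00080006000b000500080006000c00050008000c) (nat_lit 0x11076403030a024) (nat_lit 16) Lb.e (@T16.mk En
    (@En.n l43330 (nat_lit 8877) (nat_lit 7) (nat_lit 12))
    (@En.n l12202 (nat_lit 11379) (nat_lit 10) (nat_lit 8))
    (@En.n l15873 (nat_lit 8409) (nat_lit 5) (nat_lit 5))
    (@En.n l43331 (nat_lit 10640) (nat_lit 0) (nat_lit 12))
    (@En.n l43332 (nat_lit 8415) (nat_lit 1) (nat_lit 6))
    (@En.n l43330 (nat_lit 9461) (nat_lit 10) (nat_lit 8))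
    (@En.n l936 (nat_lit 9721) (nat_lit 6) (nat_lit 5))
    (@En.n l22721 (nat_lit 8883) (nat_lit 0) (nat_lit 11))
    (@En.i (nat_lit 9714) (nat_lit 1) (nat_lit 6))
    (@En.n l43333 (nat_lit 11120) (nat_lit 2) (nat_lit 8))
    (@En.n l43334 (nat_lit 8773) (nat_lit 6) (nat_lit 10))
    (@En.n l43335 (nat_lit 9727) (nat_lit 12) (nat_lit 11))
    (@En.n l43336 (nat_lit 8885) (nat_lit 15) (nat_lit 4))
    (@En.n l43337 (nat_lit 4313) (nat_lit 0) (nat_lit 8))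
    (@En.n l50 (nat_lit 8143) (nat_lit 1) (nat_lit 10))
    (@En.n l30536 (nat_lit 10076) (nat_lit 15) (nat_lit 4))))
  (@Cl.mk (nat_lit 0x40004000b0009000c000a000800050004000a00070006000c000c00080006) (nat_lit 0x34126007009a20) (nat_lit 16) Lb.e (@T16.mk En
    (@En.n l22493 (nat_lit 4496) (nat_lit 0) (nat_lit 6))
    (@En.n l17700 (nat_lit 11290) (nat_lit 1) (nat_lit 8))
    (@En.n l61 (nat_lit 9288) (nat_lit 4) (nat_lit 12))
    (@En.n l22494 (nat_lit 10480) (nat_lit 3) (nat_lit 12))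
    (@En.n l16761 (nat_lit 8591) (nat_lit 10) (nat_lit 6))
    (@En.n l35914 (nat_lit 9730) (nat_lit 5) (nat_lit 7))
    (@En.n l35915 (nat_lit 9738) (nat_lit 7) (nat_lit 10))
    (@En.n l35916 (nat_lit 9290) (nat_lit 12) (nat_lit 4))
    (@En.n l35917 (nat_lit 8544) (nat_lit 0) (nat_lit 5))
    (@En.n l7 (nat_lit 12708) (nat_lit 1) (nat_lit 8))
    (@En.n l35918 (nat_lit 8577) (nat_lit 11) (nat_lit 10))
    (@En.n l7429 (nat_lit 8644) (nat_lit 6) (nat_lit 12))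
    (@En.n l17885 (nat_lit 12586) (nat_lit 13) (nat_lit 9))
    (@En.n l35919 (nat_lit 9727) (nat_lit 14) (nat_lit 11))
    (@En.n l21765 (nat_lit 9731) (nat_lit 12) (nat_lit 4))
    (@En.n l16761 (nat_lit 11844) (nat_lit 0) (nat_lit 4))))
  (@Cl.mk (nat_lit 0x40004000a00090005000c000b00090006000400070005000c000c0007000b) (nat_lit 0x24023700009a03) (nat_lit 16) Lb.e (@T16.mk En
    (@En.i (nat_lit 6184) (nat_lit 0) (nat_lit 11))
    (@En.n l12283 (nat_lit 11288) (nat_lit 1) (nat_lit 7))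
    (@En.n l28677 (nat_lit 9284) (nat_lit 4) (nat_lit 12))
    (@En.n l3523 (nat_lit 10481) (nat_lit 13) (nat_lit 12))
    (@En.n l40967 (nat_lit 8422) (nat_lit 4) (nat_lit 5))
    (@En.n l40968 (nat_lit 8113) (nat_lit 11) (nat_lit 7))
    (@En.n l4172 (nat_lit 9289) (nat_lit 6) (nat_lit 4))
    (@En.n l12285 (nat_lit 8543) (nat_lit 0) (nat_lit 6))
    (@En.n l7694 (nat_lit 12441) (nat_lit 1) (nat_lit 9))
    (@En.n l40969 (nat_lit 8762) (nat_lit 5) (nat_lit 11))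
    (@En.n l33663 (nat_lit 9729) (nat_lit 11) (nat_lit 12))
    (@En.n l28681 (nat_lit 9735) (nat_lit 4) (nat_lit 5))
    (@En.i (nat_lit 12584) (nat_lit 7) (nat_lit 9))
    (@En.n l35963 (nat_lit 9728) (nat_lit 14) (nat_lit 10))
    (@En.n l40970 (nat_lit 9732) (nat_lit 12) (nat_lit 4))
    (@En.n l40969 (nat_lit 11843) (nat_lit 0) (nat_lit 4))))
  (@Cl.mk (nat_lit 0x2000900070004000b0009000c000a000700050004000900070006000e000c) (nat_lit 0x4001352000400ca) (nat_lit 16) Lb.e (@T16.mk En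
    (@En.n l20140 (nat_lit 9729) (nat_lit 3) (nat_lit 12))
    (@En.n l2842 (nat_lit 12521) (nat_lit 1) (nat_lit 14))
    (@En.n l20141 (nat_lit 9737) (nat_lit 2) (nat_lit 6))
    (@En.n l20142 (nat_lit 9732) (nat_lit 3) (nat_lit 7))
    (@En.n l20143 (nat_lit 12078) (nat_lit 4) (nat_lit 9))
    (@En.n l12635 (nat_lit 12736) (nat_lit 5) (nat_lit 4))
    (@En.n l8523 (nat_lit 8538) (nat_lit 6) (nat_lit 5))
    (@En.i (nat_lit 12702) (nat_lit 7) (nat_lit 7))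
    (@En.n l2724 (nat_lit 8569) (nat_lit 9) (nat_lit 10))
    (@En.i (nat_lit 8938) (nat_lit 6) (nat_lit 12))
    (@En.n l20144 (nat_lit 12588) (nat_lit 11) (nat_lit 9))
    (@En.n l8513 (nat_lit 8211) (nat_lit 12) (nat_lit 11))
    (@En.n l20141 (nat_lit 9733) (nat_lit 13) (nat_lit 4))
    (@En.n l20145 (nat_lit 4495) (nat_lit 14) (nat_lit 7))
    (@En.n l909 (nat_lit 11859) (nat_lit 1) (nat_lit 9))
    (@En.n l3 (nat_lit 9731) (nat_lit 15) (nat_lit 2))))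
  (@Cl.mk (nat_lit 0x20008000c0004000a00090004000c000b00080006000400070005000e000c) (nat_lit 0x47013062600008a) (nat_lit 16) Lb.e (@T16.mk En
    (@En.n l28172 (nat_lit 9730) (nat_lit 3) (nat_lit 12))
    (@En.n l28173 (nat_lit 12522) (nat_lit 1) (nat_lit 14))
    (@En.n l50 (nat_lit 8559) (nat_lit 2) (nat_lit 5))
    (@En.n l28174 (nat_lit 8115) (nat_lit 3) (nat_lit 7))
    (@En.n l13952 (nat_lit 12737) (nat_lit 4) (nat_lit 4))
    (@En.i (nat_lit 8540) (nat_lit 5) (nat_lit 6))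
    (@En.n l27773 (nat_lit 12703) (nat_lit 6) (nat_lit 8))
    (@En.n l28175 (nat_lit 8761) (nat_lit 8) (nat_lit 11))
    (@En.n l1112 (nat_lit 9731) (nat_lit 9) (nat_lit 12))
    (@En.n l28176 (nat_lit 9736) (nat_lit 9) (nat_lit 4))
    (@En.n l28177 (nat_lit 12589) (nat_lit 11) (nat_lit 9))
    (@En.n l50 (nat_lit 8209) (nat_lit 12) (nat_lit 10))
    (@En.i (nat_lit 9734) (nat_lit 13) (nat_lit 4))
    (@En.n l859 (nat_lit 4293) (nat_lit 14) (nat_lit 12))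
    (@En.n l5592 (nat_lit 11856) (nat_lit 1) (nat_lit 8))
    (@En.n l28 (nat_lit 9732) (nat_lit 15) (nat_lit 2))))
  (@Cl.mk (nat_lit 0x3000a0004000b0009000c000a000600050004000b00070006000d000c0005) (nat_lit 0x806425000600b90) (nat_lit 16) Lb.e (@T16.mk En
    (@En.n l28179 (nat_lit 10219) (nat_lit 0) (nat_lit 5))
    (@En.n l644 (nat_lit 11844) (nat_lit 4) (nat_lit 12))
    (@En.n l24584 (nat_lit 12062) (nat_lit 2) (nat_lit 13))
    (@En.i (nat_lit 10195) (nat_lit 10) (nat_lit 6))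
    (@En.n l30163 (nat_lit 9734) (nat_lit 4) (nat_lit 7))
    (@En.n l30164 (nat_lit 10274) (nat_lit 6) (nat_lit 11))
    (@En.n l11547 (nat_lit 10295) (nat_lit 6) (nat_lit 4))
    (@En.n l17 (nat_lit 8549) (nat_lit 11) (nat_lit 5))
    (@En.n l28538 (nat_lit 12434) (nat_lit 8) (nat_lit 6))
    (@En.n l30165 (nat_lit 8481) (nat_lit 10) (nat_lit 10))
    (@En.n l10040 (nat_lit 7345) (nat_lit 6) (nat_lit 12))
    (@En.n l8778 (nat_lit 10769) (nat_lit 12) (nat_lit 9))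
    (@En.n l28179 (nat_lit 9269) (nat_lit 13) (nat_lit 11))
    (@En.n l9163 (nat_lit 9729) (nat_lit 14) (nat_lit 4))
    (@En.i (nat_lit 11861) (nat_lit 0) (nat_lit 10))
    (@En.n l7 (nat_lit 11841) (nat_lit 15) (nat_lit 3))))
  (@Cl.mk (nat_lit 0x300090004000a00090006000c000b00070006000400070005000d000c000a) (nat_lit 0x503503600000ba6) (nat_lit 16) Lb.e (@T16.mk En
    (@En.n l13954 (nat_lit 11293) (nat_lit 0) (nat_lit 10))
    (@En.n l40676 (nat_lit 11843) (nat_lit 4) (nat_lit 12))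
    (@En.n l28173 (nat_lit 12061) (nat_lit 2) (nat_lit 13))
    (@En.n l40677 (nat_lit 8153) (nat_lit 3) (nat_lit 5))
    (@En.n l28174 (nat_lit 8110) (nat_lit 11) (nat_lit 7))
    (@En.n l13952 (nat_lit 10299) (nat_lit 5) (nat_lit 4))
    (@En.i (nat_lit 8548) (nat_lit 0) (nat_lit 6))
    (@En.n l40678 (nat_lit 12430) (nat_lit 1) (nat_lit 7))
    (@En.n l40679 (nat_lit 8698) (nat_lit 9) (nat_lit 11))
    (@En.n l40677 (nat_lit 9733) (nat_lit 10) (nat_lit 12))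
    (@En.n l28176 (nat_lit 10272) (nat_lit 11) (nat_lit 6))
    (@En.n l28177 (nat_lit 10770) (nat_lit 7) (nat_lit 9))
    (@En.n l50 (nat_lit 9270) (nat_lit 13) (nat_lit 10))
    (@En.n l40680 (nat_lit 9730) (nat_lit 14) (nat_lit 4))
    (@En.n l5592 (nat_lit 11860) (nat_lit 0) (nat_lit 9))
    (@En.n l40681 (nat_lit 11842) (nat_lit 15) (nat_lit 3))))
  (@Cl.mk (nat_lit 0x4000a0005000b000b0007000b000600050005000b0005000c000b00090005) (nat_lit 0x608101000308660) (nat_lit 16) Lb.e (@T16.mk En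
    (@En.n l17 (nat_lit 9106) (nat_lit 0) (nat_lit 5))
    (@En.i (nat_lit 5861) (nat_lit 1) (nat_lit 9))
    (@En.n l619 (nat_lit 8576) (nat_lit 5) (nat_lit 11))
    (@En.n l29345 (nat_lit 8940) (nat_lit 2) (nat_lit 12))
    (@En.n l50 (nat_lit 11294) (nat_lit 4) (nat_lit 5))
    (@En.i (nat_lit 8885) (nat_lit 0) (nat_lit 11))
    (@En.n l3787 (nat_lit 9736) (nat_lit 11) (nat_lit 5))
    (@En.i (nat_lit 10176) (nat_lit 11) (nat_lit 5))
    (@En.n l25851 (nat_lit 9729) (nat_lit 0) (nat_lit 6))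
    (@En.i (nat_lit 8590) (nat_lit 8) (nat_lit 11))
    (@En.n l2337 (nat_lit 10284) (nat_lit 2) (nat_lit 7))
    (@En.n l601 (nat_lit 8589) (nat_lit 5) (nat_lit 11))
    (@En.n l18989 (nat_lit 11158) (nat_lit 13) (nat_lit 11))
    (@En.i (nat_lit 8283) (nat_lit 5) (nat_lit 5))
    (@En.i (nat_lit 11179) (nat_lit 0) (nat_lit 10))
    (@En.n l77 (nat_lit 9986) (nat_lit 12) (nat_lit 4))))
  (@Cl.mk (nat_lit 0x20008000c00070005000b0004000c000b00080005000400090005000e000b) (nat_lit 0x450020615004019) (nat_lit 16) Lb.e (@T16.mk En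
    (@En.n l644 (nat_lit 9735) (nat_lit 12) (nat_lit 11))
    (@En.n l30270 (nat_lit 5298) (nat_lit 1) (nat_lit 14))
    (@En.n l11547 (nat_lit 8292) (nat_lit 2) (nat_lit 5))
    (@En.n l3696 (nat_lit 11409) (nat_lit 3) (nat_lit 9))
    (@En.n l11547 (nat_lit 9990) (nat_lit 4) (nat_lit 4))
    (@En.n l23816 (nat_lit 9107) (nat_lit 5) (nat_lit 5))
    (@En.n l35817 (nat_lit 12705) (nat_lit 6) (nat_lit 8))
    (@En.n l619 (nat_lit 7820) (nat_lit 8) (nat_lit 11))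
    (@En.n l35818 (nat_lit 8935) (nat_lit 9) (nat_lit 12))
    (@En.i (nat_lit 11293) (nat_lit 9) (nat_lit 4))
    (@En.n l23816 (nat_lit 8210) (nat_lit 11) (nat_lit 11))
    (@En.i (nat_lit 9151) (nat_lit 12) (nat_lit 5))
    (@En.n l35819 (nat_lit 9731) (nat_lit 13) (nat_lit 7))
    (@En.i (nat_lit 9740) (nat_lit 14) (nat_lit 12))
    (@En.n l35820 (nat_lit 11854) (nat_lit 2) (nat_lit 8))
    (@En.n l7 (nat_lit 9736) (nat_lit 15) (nat_lit 2))))
  (@Cl.mk (nat_lit 0x2000800060004000a000d000b000a0003000800060005000a0006000e000c) (nat_lit 0x3003a3106007032) (nat_lit 16) Lb.e (@T16.mk En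
    (@En.n l644 (nat_lit 8591) (nat_lit 9) (nat_lit 12))
    (@En.n l31676 (nat_lit 7009) (nat_lit 1) (nat_lit 14))
    (@En.n l9451 (nat_lit 8296) (nat_lit 2) (nat_lit 6))
    (@En.n l3696 (nat_lit 8003) (nat_lit 3) (nat_lit 10))
    (@En.n l4163 (nat_lit 8876) (nat_lit 4) (nat_lit 5))
    (@En.n l17 (nat_lit 9740) (nat_lit 5) (nat_lit 6))
    (@En.i (nat_lit 9736) (nat_lit 6) (nat_lit 8))
    (@En.n l31677 (nat_lit 9745) (nat_lit 7) (nat_lit 3))
    (@En.n l619 (nat_lit 8525) (nat_lit 0) (nat_lit 10))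
    (@En.n l10040 (nat_lit 8933) (nat_lit 10) (nat_lit 11))
    (@En.n l3696 (nat_lit 8165) (nat_lit 5) (nat_lit 13))
    (@En.n l24317 (nat_lit 10020) (nat_lit 12) (nat_lit 10))
    (@En.i (nat_lit 10195) (nat_lit 4) (nat_lit 4))
    (@En.n l3696 (nat_lit 4493) (nat_lit 14) (nat_lit 6))
    (@En.n l31678 (nat_lit 10487) (nat_lit 6) (nat_lit 8))
    (@En.n l7 (nat_lit 9737) (nat_lit 15) (nat_lit 2))))
  (@Cl.mk (nat_lit 0x50005000b000a0005000b00090005000a00060005000b000b00070006000b) (nat_lit 0x94076060017004) (nat_lit 16) Lb.e (@T16.mk En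
    (@En.n l28058 (nat_lit 9730) (nat_lit 0) (nat_lit 11))
    (@En.n l77 (nat_lit 11150) (nat_lit 10) (nat_lit 6))
    (@En.n l28059 (nat_lit 10276) (nat_lit 2) (nat_lit 7))
    (@En.n l28060 (nat_lit 11171) (nat_lit 5) (nat_lit 11))
    (@En.n l28061 (nat_lit 67) (nat_lit 2) (nat_lit 11))
    (@En.i (nat_lit 8002) (nat_lit 11) (nat_lit 5))
    (@En.n l28062 (nat_lit 11554) (nat_lit 0) (nat_lit 6))
    (@En.n l28063 (nat_lit 10283) (nat_lit 1) (nat_lit 10))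
    (@En.n l28064 (nat_lit 11158) (nat_lit 2) (nat_lit 5))
    (@En.n l22544 (nat_lit 11088) (nat_lit 7) (nat_lit 9))
    (@En.n l28065 (nat_lit 2412) (nat_lit 1) (nat_lit 11))
    (@En.n l28066 (nat_lit 10277) (nat_lit 2) (nat_lit 5))
    (@En.n l28058 (nat_lit 10674) (nat_lit 6) (nat_lit 10))
    (@En.n l899 (nat_lit 9938) (nat_lit 1) (nat_lit 11))
    (@En.n l28067 (nat_lit 12078) (nat_lit 11) (nat_lit 5))
    (@En.n l28068 (nat_lit 11096) (nat_lit 0) (nat_lit 5))))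
  (@Cl.mk (nat_lit 0x4000b0008000b000900060005000a0005000b00080007000c00060005000a) (nat_lit 0x232500808606002) (nat_lit 16) Lb.e (@T16.mk En
    (@En.n l23816 (nat_lit 10379) (nat_lit 0) (nat_lit 10))
    (@En.i (nat_lit 6854) (nat_lit 11) (nat_lit 5))
    (@En.n l35819 (nat_lit 9723) (nat_lit 0) (nat_lit 6))
    (@En.i (nat_lit 8883) (nat_lit 8) (nat_lit 12))
    (@En.n l43060 (nat_lit 11103) (nat_lit 9) (nat_lit 7))
    (@En.n l43061 (nat_lit 9938) (nat_lit 5) (nat_lit 8))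
    (@En.n l43062 (nat_lit 9738) (nat_lit 3) (nat_lit 11))
    (@En.n l9890 (nat_lit 9424) (nat_lit 7) (nat_lit 5))
    (@En.n l43063 (nat_lit 10643) (nat_lit 10) (nat_lit 10))
    (@En.n l36378 (nat_lit 9983) (nat_lit 11) (nat_lit 5))
    (@En.n l23816 (nat_lit 9464) (nat_lit 0) (nat_lit 6))
    (@En.n l28183 (nat_lit 11125) (nat_lit 1) (nat_lit 9))
    (@En.i (nat_lit 9736) (nat_lit 7) (nat_lit 11))
    (@En.n l43064 (nat_lit 9940) (nat_lit 14) (nat_lit 8))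
    (@En.n l43065 (nat_lit 8224) (nat_lit 3) (nat_lit 11))
    (@En.n l43066 (nat_lit 9944) (nat_lit 15) (nat_lit 4))))
  (@Cl.mk (nat_lit 0x2000c00060004000a0004000d000c000b000300060004000a0005000e000c) (nat_lit 0x40030b410005032) (nat_lit 16) Lb.e (@T16.mk En
    (@En.n l644 (nat_lit 8590) (nat_lit 10) (nat_lit 12))
    (@En.n l3528 (nat_lit 7008) (nat_lit 1) (nat_lit 14))
    (@En.i (nat_lit 8294) (nat_lit 2) (nat_lit 5))
    (@En.i (nat_lit 11155) (nat_lit 3) (nat_lit 10))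
    (@En.i (nat_lit 8532) (nat_lit 4) (nat_lit 4))
    (@En.i (nat_lit 7688) (nat_lit 5) (nat_lit 6))
    (@En.n l11077 (nat_lit 9741) (nat_lit 6) (nat_lit 3))
    (@En.n l619 (nat_lit 8522) (nat_lit 0) (nat_lit 11))
    (@En.n l3866 (nat_lit 9742) (nat_lit 9) (nat_lit 12))
    (@En.i (nat_lit 9737) (nat_lit 10) (nat_lit 13))
    (@En.i (nat_lit 7907) (nat_lit 10) (nat_lit 4))
    (@En.i (nat_lit 8213) (nat_lit 12) (nat_lit 10))
    (@En.i (nat_lit 10194) (nat_lit 5) (nat_lit 4))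
    (@En.i (nat_lit 4498) (nat_lit 14) (nat_lit 6))
    (@En.n l11391 (nat_lit 8614) (nat_lit 8) (nat_lit 12))
    (@En.n l7 (nat_lit 9740) (nat_lit 15) (nat_lit 2))))
  (@Cl.mk (nat_lit 0x2000c00060004000a0004000d000a000d000300060003000a0006000e000c) (nat_lit 0x600304560005039) (nat_lit 16) Lb.e (@T16.mk En
    (@En.n l24697 (nat_lit 9743) (nat_lit 10) (nat_lit 12))
    (@En.n l24698 (nat_lit 7007) (nat_lit 1) (nat_lit 14))
    (@En.n l11010 (nat_lit 9744) (nat_lit 2) (nat_lit 6))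
    (@En.n l11008 (nat_lit 11156) (nat_lit 3) (nat_lit 10))
    (@En.n l24699 (nat_lit 9742) (nat_lit 4) (nat_lit 3))
    (@En.n l24700 (nat_lit 12280) (nat_lit 0) (nat_lit 6))
    (@En.n l24701 (nat_lit 9740) (nat_lit 6) (nat_lit 3))
    (@En.n l24702 (nat_lit 3701) (nat_lit 0) (nat_lit 13))
    (@En.n l11008 (nat_lit 8538) (nat_lit 9) (nat_lit 10))
    (@En.n l24703 (nat_lit 9745) (nat_lit 10) (nat_lit 13))
    (@En.n l2364 (nat_lit 7906) (nat_lit 10) (nat_lit 4))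
    (@En.n l24704 (nat_lit 10014) (nat_lit 12) (nat_lit 10))
    (@En.n l24698 (nat_lit 9753) (nat_lit 5) (nat_lit 4))
    (@En.i (nat_lit 4499) (nat_lit 14) (nat_lit 6))
    (@En.n l24705 (nat_lit 10314) (nat_lit 8) (nat_lit 12))
    (@En.n l50 (nat_lit 9741) (nat_lit 15) (nat_lit 2))))
  (@Cl.mk (nat_lit 0x2000c00060004000b0004000c000a000d000500040003000a0006000e000c) (nat_lit 0x400803460008043) (nat_lit 16) Lb.e (@T16.mk En
    (@En.n l55 (nat_lit 9746) (nat_lit 12) (nat_lit 12))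
    (@En.n l2202 (nat_lit 7000) (nat_lit 1) (nat_lit 14))
    (@En.n l20149 (nat_lit 9747) (nat_lit 2) (nat_lit 6))
    (@En.i (nat_lit 11042) (nat_lit 3) (nat_lit 10))
    (@En.n l20150 (nat_lit 9741) (nat_lit 4) (nat_lit 3))
    (@En.n l18 (nat_lit 8564) (nat_lit 0) (nat_lit 4))
    (@En.n l6081 (nat_lit 10527) (nat_lit 6) (nat_lit 5))
    (@En.i (nat_lit 3697) (nat_lit 8) (nat_lit 13))
    (@En.n l61 (nat_lit 8537) (nat_lit 9) (nat_lit 10))
    (@En.i (nat_lit 8937) (nat_lit 10) (nat_lit 12))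
    (@En.i (nat_lit 7163) (nat_lit 10) (nat_lit 4))
    (@En.i (nat_lit 9660) (nat_lit 12) (nat_lit 11))
    (@En.i (nat_lit 9754) (nat_lit 7) (nat_lit 4))
    (@En.n l6458 (nat_lit 6241) (nat_lit 14) (nat_lit 6))
    (@En.n l2228 (nat_lit 8617) (nat_lit 1) (nat_lit 12))
    (@En.n l11 (nat_lit 9742) (nat_lit 15) (nat_lit 2))))
  (@Cl.mk (nat_lit 0x300060003000b0006000c000c000b000500040004000a0005000d000a000d) (nat_lit 0x508a800080b62) (nat_lit 16) Lb.e (@T16.mk En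
    (@En.n l830 (nat_lit 4084) (nat_lit 0) (nat_lit 13))
    (@En.i (nat_lit 8544) (nat_lit 3) (nat_lit 10))
    (@En.n l39525 (nat_lit 9750) (nat_lit 2) (nat_lit 13))
    (@En.n l15575 (nat_lit 6669) (nat_lit 3) (nat_lit 5))
    (@En.n l830 (nat_lit 9795) (nat_lit 4) (nat_lit 10))
    (@En.n l39526 (nat_lit 9741) (nat_lit 12) (nat_lit 4))
    (@En.i (nat_lit 10188) (nat_lit 6) (nat_lit 4))
    (@En.n l29344 (nat_lit 4500) (nat_lit 0) (nat_lit 5))
    (@En.n l21047 (nat_lit 9767) (nat_lit 9) (nat_lit 11))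
    (@En.n l601 (nat_lit 9769) (nat_lit 4) (nat_lit 12))
    (@En.n l6822 (nat_lit 8542) (nat_lit 11) (nat_lit 12))
    (@En.n l39527 (nat_lit 9749) (nat_lit 14) (nat_lit 6))
    (@En.i (nat_lit 11154) (nat_lit 13) (nat_lit 11))
    (@En.n l3851 (nat_lit 9746) (nat_lit 15) (nat_lit 3))
    (@En.i (nat_lit 10098) (nat_lit 0) (nat_lit 6))
    (@En.n l107 (nat_lit 8590) (nat_lit 15) (nat_lit 3))))
noncomputable def a609 : T16 Cl := @T16.mk Cl
  (@Cl.mk (nat_lit 0x2000c000a000400090004000c000a0006000d0004000700030006000e000c) (nat_lit 0x320209507000069) (nat_lit 16) Lb.e (@T16.mk En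
    (@En.i (nat_lit 9749) (nat_lit 13) (nat_lit 12))
    (@En.n l3928 (nat_lit 9561) (nat_lit 1) (nat_lit 14))
    (@En.n l152 (nat_lit 11567) (nat_lit 12) (nat_lit 6))
    (@En.n l1865 (nat_lit 9747) (nat_lit 3) (nat_lit 3))
    (@En.n l781 (nat_lit 10099) (nat_lit 0) (nat_lit 7))
    (@En.n l35695 (nat_lit 8294) (nat_lit 5) (nat_lit 4))
    (@En.n l17017 (nat_lit 9741) (nat_lit 7) (nat_lit 13))
    (@En.n l3928 (nat_lit 4437) (nat_lit 7) (nat_lit 6))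
    (@En.i (nat_lit 8540) (nat_lit 9) (nat_lit 10))
    (@En.n l39021 (nat_lit 9752) (nat_lit 10) (nat_lit 12))
    (@En.n l50 (nat_lit 7908) (nat_lit 10) (nat_lit 4))
    (@En.i (nat_lit 6864) (nat_lit 12) (nat_lit 9))
    (@En.n l10994 (nat_lit 9757) (nat_lit 8) (nat_lit 4))
    (@En.n l217 (nat_lit 4185) (nat_lit 14) (nat_lit 10))
    (@En.n l2125 (nat_lit 12474) (nat_lit 11) (nat_lit 12))
    (@En.n l28 (nat_lit 9744) (nat_lit 15) (nat_lit 2))))
  (@Cl.mk (nat_lit 0x2000800060004000a000d0009000c0003000800060004000a0007000e000c) (nat_lit 0x300234604002032) (nat_lit 16) Lb.e (@T16.mk En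
    (@En.n l16591 (nat_lit 9750) (nat_lit 9) (nat_lit 12))
    (@En.n l6688 (nat_lit 6491) (nat_lit 1) (nat_lit 14))
    (@En.i (nat_lit 9752) (nat_lit 2) (nat_lit 7))
    (@En.n l16592 (nat_lit 8001) (nat_lit 3) (nat_lit 10))
    (@En.n l16593 (nat_lit 8937) (nat_lit 4) (nat_lit 4))
    (@En.n l16466 (nat_lit 9741) (nat_lit 5) (nat_lit 6))
    (@En.n l16594 (nat_lit 10853) (nat_lit 6) (nat_lit 8))
    (@En.n l16595 (nat_lit 9737) (nat_lit 7) (nat_lit 3))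
    (@En.n l16596 (nat_lit 3704) (nat_lit 0) (nat_lit 12))
    (@En.n l16597 (nat_lit 9731) (nat_lit 10) (nat_lit 9))
    (@En.n l16592 (nat_lit 8162) (nat_lit 5) (nat_lit 13))
    (@En.n l16598 (nat_lit 10021) (nat_lit 12) (nat_lit 10))
    (@En.n l6688 (nat_lit 10200) (nat_lit 4) (nat_lit 4))
    (@En.n l16466 (nat_lit 4492) (nat_lit 14) (nat_lit 6))
    (@En.i (nat_lit 10490) (nat_lit 6) (nat_lit 8))
    (@En.n l50 (nat_lit 9745) (nat_lit 15) (nat_lit 2))))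
  (@Cl.mk (nat_lit 0x3000b0006000c000c000b000500040004000b0005000c000a000d00050004) (nat_lit 0x702a30009096200) (nat_lit 16) Lb.e (@T16.mk En
    (@En.n l18 (nat_lit 8346) (nat_lit 0) (nat_lit 4))
    (@En.n l6081 (nat_lit 6407) (nat_lit 0) (nat_lit 5))
    (@En.i (nat_lit 2679) (nat_lit 5) (nat_lit 13))
    (@En.n l61 (nat_lit 8545) (nat_lit 3) (nat_lit 10))
    (@En.n l7293 (nat_lit 8871) (nat_lit 2) (nat_lit 12))
    (@En.n l28 (nat_lit 6197) (nat_lit 5) (nat_lit 5))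
    (@En.n l4909 (nat_lit 8800) (nat_lit 14) (nat_lit 11))
    (@En.n l1577 (nat_lit 9742) (nat_lit 12) (nat_lit 4))
    (@En.i (nat_lit 8745) (nat_lit 0) (nat_lit 4))
    (@En.n l7293 (nat_lit 6242) (nat_lit 0) (nat_lit 5))
    (@En.n l457 (nat_lit 9401) (nat_lit 11) (nat_lit 11))
    (@En.n l1578 (nat_lit 9768) (nat_lit 4) (nat_lit 12))
    (@En.n l14315 (nat_lit 8546) (nat_lit 13) (nat_lit 12))
    (@En.n l35925 (nat_lit 9748) (nat_lit 14) (nat_lit 6))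
    (@En.i (nat_lit 11043) (nat_lit 14) (nat_lit 11))
    (@En.n l22610 (nat_lit 9743) (nat_lit 13) (nat_lit 3))))
  (@Cl.mk (nat_lit 0x2000c000a0004000a0004000b000a0006000d0006000500030006000e000c) (nat_lit 0x330803507000039) (nat_lit 16) Lb.e (@T16.mk En
    (@En.i (nat_lit 9748) (nat_lit 13) (nat_lit 12))
    (@En.n l30327 (nat_lit 9558) (nat_lit 1) (nat_lit 14))
    (@En.n l17 (nat_lit 9223) (nat_lit 12) (nat_lit 6))
    (@En.n l2869 (nat_lit 9744) (nat_lit 3) (nat_lit 3))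
    (@En.n l889 (nat_lit 8347) (nat_lit 0) (nat_lit 5))
    (@En.n l29422 (nat_lit 9190) (nat_lit 5) (nat_lit 6))
    (@En.n l28638 (nat_lit 9742) (nat_lit 7) (nat_lit 13))
    (@En.n l30327 (nat_lit 2416) (nat_lit 7) (nat_lit 6))
    (@En.i (nat_lit 8539) (nat_lit 9) (nat_lit 10))
    (@En.n l35926 (nat_lit 8936) (nat_lit 10) (nat_lit 11))
    (@En.i (nat_lit 7909) (nat_lit 10) (nat_lit 4))
    (@En.n l5933 (nat_lit 9659) (nat_lit 12) (nat_lit 10))
    (@En.n l28639 (nat_lit 9756) (nat_lit 8) (nat_lit 4))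
    (@En.n l55 (nat_lit 4188) (nat_lit 14) (nat_lit 10))
    (@En.n l698 (nat_lit 12477) (nat_lit 11) (nat_lit 12))
    (@En.n l3 (nat_lit 9747) (nat_lit 15) (nat_lit 2))))
  (@Cl.mk (nat_lit 0x30006000c000c000b000900040004000a0005000b000a0007000d00060005) (nat_lit 0x8a240080860300) (nat_lit 16) Lb.e (@T16.mk En
    (@En.n l42462 (nat_lit 8345) (nat_lit 0) (nat_lit 5))
    (@En.n l29422 (nat_lit 11045) (nat_lit 7) (nat_lit 6))
    (@En.n l42463 (nat_lit 9746) (nat_lit 2) (nat_lit 13))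
    (@En.n l42464 (nat_lit 2417) (nat_lit 3) (nat_lit 7))
    (@En.i (nat_lit 8542) (nat_lit 4) (nat_lit 10))
    (@En.n l42465 (nat_lit 8905) (nat_lit 12) (nat_lit 11))
    (@En.i (nat_lit 6666) (nat_lit 6) (nat_lit 5))
    (@En.n l476 (nat_lit 9936) (nat_lit 8) (nat_lit 10))
    (@En.n l152 (nat_lit 9747) (nat_lit 12) (nat_lit 4))
    (@En.n l35632 (nat_lit 9759) (nat_lit 9) (nat_lit 4))
    (@En.n l55 (nat_lit 4187) (nat_lit 0) (nat_lit 9))
    (@En.n l42466 (nat_lit 9758) (nat_lit 12) (nat_lit 11))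
    (@En.n l24909 (nat_lit 9770) (nat_lit 4) (nat_lit 12))
    (@En.n l2700 (nat_lit 9706) (nat_lit 14) (nat_lit 12))
    (@En.n l17 (nat_lit 9097) (nat_lit 12) (nat_lit 6))
    (@En.n l2869 (nat_lit 9749) (nat_lit 15) (nat_lit 3))))
  (@Cl.mk (nat_lit 0x30006000c000c000b00090004000400090005000c000a0007000d00040007) (nat_lit 0x8a240030960300) (nat_lit 16) Lb.e (@T16.mk En
    (@En.n l781 (nat_lit 10095) (nat_lit 0) (nat_lit 7))
    (@En.n l37081 (nat_lit 8506) (nat_lit 7) (nat_lit 4))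
    (@En.n l22524 (nat_lit 9743) (nat_lit 0) (nat_lit 13))
    (@En.n l37082 (nat_lit 4431) (nat_lit 1) (nat_lit 7))
    (@En.n l649 (nat_lit 8543) (nat_lit 4) (nat_lit 10))
    (@En.n l37083 (nat_lit 9751) (nat_lit 12) (nat_lit 12))
    (@En.n l50 (nat_lit 6667) (nat_lit 6) (nat_lit 5))
    (@En.n l12055 (nat_lit 9787) (nat_lit 5) (nat_lit 9))
    (@En.n l55 (nat_lit 9744) (nat_lit 12) (nat_lit 4))
    (@En.n l37084 (nat_lit 9761) (nat_lit 9) (nat_lit 4))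
    (@En.n l9762 (nat_lit 4184) (nat_lit 0) (nat_lit 9))
    (@En.n l134 (nat_lit 9763) (nat_lit 12) (nat_lit 11))
    (@En.n l27045 (nat_lit 9771) (nat_lit 4) (nat_lit 12))
    (@En.n l31123 (nat_lit 9704) (nat_lit 14) (nat_lit 12))
    (@En.n l152 (nat_lit 8073) (nat_lit 12) (nat_lit 6))
    (@En.n l1865 (nat_lit 9748) (nat_lit 15) (nat_lit 3))))
  (@Cl.mk (nat_lit 0x3000900060004000b0007000c000c0007000500040004000a000d0009000c) (nat_lit 0x500101300008a52) (nat_lit 16) Lb.e (@T16.mk En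
    (@En.n l1203 (nat_lit 4085) (nat_lit 0) (nat_lit 12))
    (@En.n l31888 (nat_lit 9729) (nat_lit 12) (nat_lit 9))
    (@En.i (nat_lit 8166) (nat_lit 5) (nat_lit 13))
    (@En.n l1201 (nat_lit 9978) (nat_lit 3) (nat_lit 10))
    (@En.n l31889 (nat_lit 9745) (nat_lit 12) (nat_lit 4))
    (@En.n l31890 (nat_lit 10199) (nat_lit 5) (nat_lit 4))
    (@En.i (nat_lit 4491) (nat_lit 0) (nat_lit 5))
    (@En.n l31891 (nat_lit 11244) (nat_lit 7) (nat_lit 7))
    (@En.n l457 (nat_lit 9773) (nat_lit 4) (nat_lit 12))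
    (@En.i (nat_lit 8545) (nat_lit 10) (nat_lit 12))
    (@En.n l3339 (nat_lit 9751) (nat_lit 4) (nat_lit 7))
    (@En.n l3337 (nat_lit 8000) (nat_lit 12) (nat_lit 11))
    (@En.n l1203 (nat_lit 8871) (nat_lit 12) (nat_lit 4))
    (@En.n l31892 (nat_lit 9743) (nat_lit 14) (nat_lit 6))
    (@En.n l31890 (nat_lit 10849) (nat_lit 1) (nat_lit 9))
    (@En.n l31893 (nat_lit 8591) (nat_lit 15) (nat_lit 3))))
  (@Cl.mk (nat_lit 0x400040009000c00090006000c0004000a000700040007000c000c0006000a) (nat_lit 0x38503080007404) (nat_lit 16) Lb.e (@T16.mk En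
    (@En.n l42455 (nat_lit 3968) (nat_lit 0) (nat_lit 10))
    (@En.n l42456 (nat_lit 11245) (nat_lit 1) (nat_lit 6))
    (@En.n l55 (nat_lit 9772) (nat_lit 4) (nat_lit 12))
    (@En.i (nat_lit 9701) (nat_lit 8) (nat_lit 12))
    (@En.n l2039 (nat_lit 8072) (nat_lit 11) (nat_lit 7))
    (@En.n l37098 (nat_lit 8905) (nat_lit 5) (nat_lit 4))
    (@En.n l42457 (nat_lit 9749) (nat_lit 0) (nat_lit 7))
    (@En.n l42458 (nat_lit 10851) (nat_lit 1) (nat_lit 10))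
    (@En.n l37103 (nat_lit 8507) (nat_lit 8) (nat_lit 4))
    (@En.n l250 (nat_lit 9750) (nat_lit 0) (nat_lit 12))
    (@En.n l22936 (nat_lit 6355) (nat_lit 1) (nat_lit 6))
    (@En.n l42459 (nat_lit 9730) (nat_lit 12) (nat_lit 9))
    (@En.i (nat_lit 8169) (nat_lit 6) (nat_lit 12))
    (@En.n l35720 (nat_lit 9786) (nat_lit 11) (nat_lit 9))
    (@En.n l42460 (nat_lit 9752) (nat_lit 12) (nat_lit 4))
    (@En.n l42461 (nat_lit 10201) (nat_lit 0) (nat_lit 4))))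
  (@Cl.mk (nat_lit 0x20007000b00040009000c00090005000c00040009000700040007000e000c) (nat_lit 0x20284070600028) (nat_lit 16) Lb.e (@T16.mk En
    (@En.n l31327 (nat_lit 9751) (nat_lit 3) (nat_lit 12))
    (@En.n l12233 (nat_lit 9521) (nat_lit 1) (nat_lit 14))
    (@En.n l31328 (nat_lit 11570) (nat_lit 11) (nat_lit 7))
    (@En.n l6685 (nat_lit 8936) (nat_lit 3) (nat_lit 4))
    (@En.n l17007 (nat_lit 9744) (nat_lit 4) (nat_lit 7))
    (@En.n l11870 (nat_lit 10855) (nat_lit 5) (nat_lit 9))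
    (@En.n l16336 (nat_lit 8296) (nat_lit 6) (nat_lit 4))
    (@En.n l725 (nat_lit 9745) (nat_lit 8) (nat_lit 12))
    (@En.n l31329 (nat_lit 4439) (nat_lit 8) (nat_lit 5))
    (@En.n l17007 (nat_lit 9732) (nat_lit 10) (nat_lit 9))
    (@En.n l31330 (nat_lit 8161) (nat_lit 6) (nat_lit 12))
    (@En.n l26197 (nat_lit 6865) (nat_lit 12) (nat_lit 9))
    (@En.n l25506 (nat_lit 9766) (nat_lit 13) (nat_lit 4))
    (@En.n l31331 (nat_lit 3969) (nat_lit 14) (nat_lit 11))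
    (@En.i (nat_lit 11953) (nat_lit 1) (nat_lit 7))
    (@En.n l50 (nat_lit 9752) (nat_lit 15) (nat_lit 2))))
  (@Cl.mk (nat_lit 0x300060003000c0006000d000c00040003000d0004000a0003000d000a000d) (nat_lit 0x808a004020863) (nat_lit 16) Lb.e (@T16.mk En
    (@En.n l2135 (nat_lit 4019) (nat_lit 0) (nat_lit 13))
    (@En.n l10970 (nat_lit 8549) (nat_lit 14) (nat_lit 10))
    (@En.i (nat_lit 10200) (nat_lit 2) (nat_lit 13))
    (@En.n l13800 (nat_lit 9767) (nat_lit 3) (nat_lit 3))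
    (@En.n l649 (nat_lit 6653) (nat_lit 0) (nat_lit 10))
    (@En.n l11107 (nat_lit 9743) (nat_lit 5) (nat_lit 4))
    (@En.n l476 (nat_lit 8618) (nat_lit 7) (nat_lit 13))
    (@En.n l11107 (nat_lit 9764) (nat_lit 7) (nat_lit 3))
    (@En.n l25312 (nat_lit 8927) (nat_lit 0) (nat_lit 4))
    (@En.n l25313 (nat_lit 10188) (nat_lit 10) (nat_lit 12))
    (@En.i (nat_lit 5663) (nat_lit 1) (nat_lit 13))
    (@En.n l1770 (nat_lit 9757) (nat_lit 14) (nat_lit 6))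
    (@En.i (nat_lit 10697) (nat_lit 13) (nat_lit 12))
    (@En.n l2705 (nat_lit 9754) (nat_lit 15) (nat_lit 3))
    (@En.n l10970 (nat_lit 12770) (nat_lit 12) (nat_lit 6))
    (@En.n l3522 (nat_lit 10194) (nat_lit 15) (nat_lit 3))))
  (@Cl.mk (nat_lit 0x3000c0006000d000c00040003000d0004000b0003000c000a000d00050004) (nat_lit 0x80ba00902046300) (nat_lit 16) Lb.e (@T16.mk En
    (@En.n l18 (nat_lit 8301) (nat_lit 0) (nat_lit 4))
    (@En.n l6081 (nat_lit 9168) (nat_lit 0) (nat_lit 5))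
    (@En.i (nat_lit 3829) (nat_lit 5) (nat_lit 13))
    (@En.n l61 (nat_lit 9095) (nat_lit 14) (nat_lit 10))
    (@En.i (nat_lit 8806) (nat_lit 11) (nat_lit 12))
    (@En.i (nat_lit 9401) (nat_lit 5) (nat_lit 3))
    (@En.i (nat_lit 9827) (nat_lit 0) (nat_lit 11))
    (@En.n l11 (nat_lit 9746) (nat_lit 7) (nat_lit 4))
    (@En.n l287 (nat_lit 8616) (nat_lit 2) (nat_lit 13))
    (@En.n l11 (nat_lit 9403) (nat_lit 1) (nat_lit 3))
    (@En.i (nat_lit 7540) (nat_lit 0) (nat_lit 4))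
    (@En.n l55 (nat_lit 8745) (nat_lit 4) (nat_lit 12))
    (@En.n l2202 (nat_lit 6103) (nat_lit 1) (nat_lit 13))
    (@En.i (nat_lit 9756) (nat_lit 14) (nat_lit 6))
    (@En.i (nat_lit 9175) (nat_lit 9) (nat_lit 12))
    (@En.n l669 (nat_lit 9753) (nat_lit 13) (nat_lit 3))))
  (@Cl.mk (nat_lit 0x30006000d0007000d0003000d0003000a0003000b000a0009000d00060005) (nat_lit 0x50b07020783400) (nat_lit 16) Lb.e (@T16.mk En
    (@En.n l18 (nat_lit 7454) (nat_lit 0) (nat_lit 5))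
    (@En.n l6081 (nat_lit 10143) (nat_lit 8) (nat_lit 6))
    (@En.n l3 (nat_lit 9403) (nat_lit 10) (nat_lit 13))
    (@En.n l3 (nat_lit 10161) (nat_lit 11) (nat_lit 9))
    (@En.n l61 (nat_lit 9090) (nat_lit 4) (nat_lit 10))
    (@En.i (nat_lit 8807) (nat_lit 11) (nat_lit 11))
    (@En.i (nat_lit 9402) (nat_lit 6) (nat_lit 3))
    (@En.i (nat_lit 9826) (nat_lit 0) (nat_lit 10))
    (@En.i (nat_lit 9759) (nat_lit 8) (nat_lit 3))
    (@En.i (nat_lit 5558) (nat_lit 0) (nat_lit 13))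
    (@En.i (nat_lit 9756) (nat_lit 10) (nat_lit 3))
    (@En.n l23504 (nat_lit 7374) (nat_lit 0) (nat_lit 13))
    (@En.i (nat_lit 9037) (nat_lit 13) (nat_lit 7))
    (@En.n l180 (nat_lit 6216) (nat_lit 2) (nat_lit 13))
    (@En.n l20187 (nat_lit 9100) (nat_lit 12) (nat_lit 6))
    (@En.n l25348 (nat_lit 9760) (nat_lit 15) (nat_lit 3))))
  (@Cl.mk (nat_lit 0x30006000d000c00080003000d0004000a0003000b000a0008000d00060005) (nat_lit 0x8a207020932400) (nat_lit 16) Lb.e (@T16.mk En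
    (@En.n l18 (nat_lit 8342) (nat_lit 0) (nat_lit 5))
    (@En.n l6081 (nat_lit 10144) (nat_lit 6) (nat_lit 6))
    (@En.n l3 (nat_lit 9754) (nat_lit 2) (nat_lit 13))
    (@En.n l3 (nat_lit 10230) (nat_lit 13) (nat_lit 8))
    (@En.n l61 (nat_lit 8547) (nat_lit 4) (nat_lit 10))
    (@En.i (nat_lit 8805) (nat_lit 11) (nat_lit 11))
    (@En.i (nat_lit 9758) (nat_lit 6) (nat_lit 3))
    (@En.n l200 (nat_lit 9828) (nat_lit 0) (nat_lit 10))
    (@En.n l42128 (nat_lit 9748) (nat_lit 8) (nat_lit 4))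
    (@En.n l10328 (nat_lit 12476) (nat_lit 10) (nat_lit 13))
    (@En.n l11 (nat_lit 9755) (nat_lit 10) (nat_lit 3))
    (@En.n l30198 (nat_lit 7432) (nat_lit 0) (nat_lit 8))
    (@En.n l55 (nat_lit 9759) (nat_lit 13) (nat_lit 12))
    (@En.n l42129 (nat_lit 6217) (nat_lit 2) (nat_lit 13))
    (@En.n l20187 (nat_lit 9101) (nat_lit 12) (nat_lit 6))
    (@En.n l42130 (nat_lit 9757) (nat_lit 15) (nat_lit 3))))
  (@Cl.mk (nat_lit 0x30006000d000c00080003000d000400090003000c000a0008000d00040007) (nat_lit 0x8a304020962400) (nat_lit 16) Lb.e (@T16.mk En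
    (@En.n l27476 (nat_lit 12115) (nat_lit 0) (nat_lit 7))
    (@En.n l22683 (nat_lit 8502) (nat_lit 10) (nat_lit 4))
    (@En.i (nat_lit 9753) (nat_lit 0) (nat_lit 13))
    (@En.n l2135 (nat_lit 10228) (nat_lit 1) (nat_lit 8))
    (@En.n l39866 (nat_lit 8548) (nat_lit 4) (nat_lit 10))
    (@En.i (nat_lit 9766) (nat_lit 11) (nat_lit 12))
    (@En.n l39867 (nat_lit 9763) (nat_lit 6) (nat_lit 3))
    (@En.n l1897 (nat_lit 6652) (nat_lit 0) (nat_lit 9))
    (@En.n l39868 (nat_lit 9749) (nat_lit 8) (nat_lit 4))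
    (@En.n l1690 (nat_lit 12473) (nat_lit 10) (nat_lit 13))
    (@En.n l26820 (nat_lit 9760) (nat_lit 10) (nat_lit 3))
    (@En.n l39869 (nat_lit 7435) (nat_lit 0) (nat_lit 8))
    (@En.n l39870 (nat_lit 9761) (nat_lit 13) (nat_lit 12))
    (@En.i (nat_lit 6121) (nat_lit 2) (nat_lit 13))
    (@En.n l39871 (nat_lit 4171) (nat_lit 12) (nat_lit 6))
    (@En.n l39872 (nat_lit 9756) (nat_lit 15) (nat_lit 3))))
  (@Cl.mk (nat_lit 0x30006000d000b00080003000d000900050003000b000a0008000d00070005) (nat_lit 0x81308300234600) (nat_lit 16) Lb.e (@T16.mk En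
    (@En.n l18 (nat_lit 8344) (nat_lit 0) (nat_lit 5))
    (@En.n l6081 (nat_lit 10396) (nat_lit 6) (nat_lit 7))
    (@En.n l3 (nat_lit 9401) (nat_lit 2) (nat_lit 13))
    (@En.n l3 (nat_lit 10231) (nat_lit 13) (nat_lit 8))
    (@En.n l20149 (nat_lit 9093) (nat_lit 4) (nat_lit 10))
    (@En.n l39832 (nat_lit 10715) (nat_lit 11) (nat_lit 11))
    (@En.n l7 (nat_lit 9756) (nat_lit 6) (nat_lit 3))
    (@En.n l24429 (nat_lit 7132) (nat_lit 0) (nat_lit 5))
    (@En.i (nat_lit 9964) (nat_lit 14) (nat_lit 9))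
    (@En.n l39833 (nat_lit 12478) (nat_lit 10) (nat_lit 13))
    (@En.n l11 (nat_lit 9402) (nat_lit 10) (nat_lit 3))
    (@En.n l25347 (nat_lit 7433) (nat_lit 0) (nat_lit 8))
    (@En.i (nat_lit 8734) (nat_lit 13) (nat_lit 11))
    (@En.n l15738 (nat_lit 6151) (nat_lit 2) (nat_lit 13))
    (@En.n l20187 (nat_lit 7834) (nat_lit 12) (nat_lit 6))
    (@En.n l39834 (nat_lit 9763) (nat_lit 15) (nat_lit 3))))
  (@Cl.mk (nat_lit 0x30006000c0007000d000c00040003000a0004000b000a0009000d00060005) (nat_lit 0x90b20080780700) (nat_lit 16) Lb.e (@T16.mk En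
    (@En.n l18 (nat_lit 8341) (nat_lit 0) (nat_lit 5))
    (@En.n l6081 (nat_lit 10145) (nat_lit 8) (nat_lit 6))
    (@En.n l3 (nat_lit 8745) (nat_lit 10) (nat_lit 13))
    (@En.n l3 (nat_lit 10160) (nat_lit 11) (nat_lit 9))
    (@En.n l61 (nat_lit 8605) (nat_lit 4) (nat_lit 10))
    (@En.i (nat_lit 8809) (nat_lit 13) (nat_lit 11))
    (@En.n l28 (nat_lit 8734) (nat_lit 6) (nat_lit 4))
    (@En.n l4909 (nat_lit 10058) (nat_lit 0) (nat_lit 10))
    (@En.n l28 (nat_lit 9755) (nat_lit 8) (nat_lit 3))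
    (@En.n l22609 (nat_lit 9770) (nat_lit 0) (nat_lit 4))
    (@En.n l77 (nat_lit 9402) (nat_lit 11) (nat_lit 12))
    (@En.n l41248 (nat_lit 7226) (nat_lit 1) (nat_lit 13))
    (@En.n l11424 (nat_lit 9039) (nat_lit 13) (nat_lit 7))
    (@En.n l3 (nat_lit 9707) (nat_lit 14) (nat_lit 12))
    (@En.n l20187 (nat_lit 9098) (nat_lit 12) (nat_lit 6))
    (@En.n l25348 (nat_lit 9761) (nat_lit 15) (nat_lit 3))))
noncomputable def a610 : T16 Cl := @T16.mk Cl
  (@Cl.mk (nat_lit 0x30006000d0007000d0003000d000300090003000c000a0009000d00040007) (nat_lit 0x80a04010930400) (nat_lit 16) Lb.e (@T16.mk En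
    (@En.i (nat_lit 12114) (nat_lit 0) (nat_lit 7))
    (@En.n l152 (nat_lit 8500) (nat_lit 8) (nat_lit 4))
    (@En.n l5859 (nat_lit 9764) (nat_lit 0) (nat_lit 13))
    (@En.n l15070 (nat_lit 10162) (nat_lit 1) (nat_lit 9))
    (@En.n l5859 (nat_lit 9088) (nat_lit 4) (nat_lit 10))
    (@En.i (nat_lit 9765) (nat_lit 11) (nat_lit 12))
    (@En.i (nat_lit 9762) (nat_lit 6) (nat_lit 3))
    (@En.n l637 (nat_lit 5963) (nat_lit 0) (nat_lit 9))
    (@En.i (nat_lit 9761) (nat_lit 8) (nat_lit 3))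
    (@En.n l5579 (nat_lit 5568) (nat_lit 0) (nat_lit 13))
    (@En.n l10008 (nat_lit 9757) (nat_lit 10) (nat_lit 3))
    (@En.n l637 (nat_lit 7233) (nat_lit 0) (nat_lit 13))
    (@En.i (nat_lit 9999) (nat_lit 13) (nat_lit 7))
    (@En.n l5579 (nat_lit 6122) (nat_lit 2) (nat_lit 13))
    (@En.n l4976 (nat_lit 4181) (nat_lit 12) (nat_lit 6))
    (@En.n l3866 (nat_lit 9755) (nat_lit 15) (nat_lit 3))))
  (@Cl.mk (nat_lit 0x30006000c0007000d000c0004000300090004000c000a0009000d00040007) (nat_lit 0x90b20020680700) (nat_lit 16) Lb.e (@T16.mk En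
    (@En.i (nat_lit 12118) (nat_lit 0) (nat_lit 7))
    (@En.n l152 (nat_lit 8498) (nat_lit 8) (nat_lit 4))
    (@En.n l5859 (nat_lit 10188) (nat_lit 0) (nat_lit 13))
    (@En.n l15070 (nat_lit 10163) (nat_lit 1) (nat_lit 9))
    (@En.n l5859 (nat_lit 9091) (nat_lit 4) (nat_lit 10))
    (@En.i (nat_lit 10201) (nat_lit 13) (nat_lit 12))
    (@En.n l15998 (nat_lit 7429) (nat_lit 6) (nat_lit 4))
    (@En.n l831 (nat_lit 9667) (nat_lit 0) (nat_lit 9))
    (@En.n l50 (nat_lit 9760) (nat_lit 8) (nat_lit 3))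
    (@En.n l6045 (nat_lit 9771) (nat_lit 0) (nat_lit 4))
    (@En.n l217 (nat_lit 9762) (nat_lit 11) (nat_lit 12))
    (@En.n l15864 (nat_lit 7231) (nat_lit 1) (nat_lit 13))
    (@En.i (nat_lit 10000) (nat_lit 13) (nat_lit 7))
    (@En.n l5579 (nat_lit 9702) (nat_lit 14) (nat_lit 12))
    (@En.n l4976 (nat_lit 11929) (nat_lit 12) (nat_lit 6))
    (@En.n l3866 (nat_lit 9759) (nat_lit 15) (nat_lit 3))))
  (@Cl.mk (nat_lit 0x30006000d0007000c0003000d000800040003000c000a0009000d00040008) (nat_lit 0x80104000730600) (nat_lit 16) Lb.e (@T16.mk En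
    (@En.i (nat_lit 12071) (nat_lit 0) (nat_lit 8))
    (@En.n l152 (nat_lit 8503) (nat_lit 10) (nat_lit 4))
    (@En.n l936 (nat_lit 10198) (nat_lit 0) (nat_lit 13))
    (@En.n l55 (nat_lit 10167) (nat_lit 1) (nat_lit 9))
    (@En.n l5859 (nat_lit 9086) (nat_lit 4) (nat_lit 10))
    (@En.i (nat_lit 12019) (nat_lit 11) (nat_lit 12))
    (@En.n l18 (nat_lit 9760) (nat_lit 6) (nat_lit 3))
    (@En.n l9975 (nat_lit 7428) (nat_lit 0) (nat_lit 4))
    (@En.n l61 (nat_lit 9765) (nat_lit 14) (nat_lit 8))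
    (@En.n l39887 (nat_lit 5535) (nat_lit 1) (nat_lit 13))
    (@En.n l11609 (nat_lit 9763) (nat_lit 10) (nat_lit 3))
    (@En.n l9975 (nat_lit 9158) (nat_lit 0) (nat_lit 12))
    (@En.i (nat_lit 9998) (nat_lit 13) (nat_lit 7))
    (@En.n l5579 (nat_lit 6146) (nat_lit 2) (nat_lit 13))
    (@En.n l4976 (nat_lit 11930) (nat_lit 12) (nat_lit 6))
    (@En.n l3866 (nat_lit 9402) (nat_lit 15) (nat_lit 3))))
  (@Cl.mk (nat_lit 0x30006000d000b00080003000d000800050003000c000a0008000d00040008) (nat_lit 0x81304000974600) (nat_lit 16) Lb.e (@T16.mk En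
    (@En.n l781 (nat_lit 12067) (nat_lit 0) (nat_lit 8))
    (@En.n l25339 (nat_lit 8504) (nat_lit 10) (nat_lit 4))
    (@En.n l25340 (nat_lit 9767) (nat_lit 0) (nat_lit 13))
    (@En.n l25341 (nat_lit 10227) (nat_lit 1) (nat_lit 8))
    (@En.i (nat_lit 9092) (nat_lit 4) (nat_lit 10))
    (@En.n l23814 (nat_lit 12021) (nat_lit 11) (nat_lit 12))
    (@En.n l10994 (nat_lit 9757) (nat_lit 6) (nat_lit 3))
    (@En.n l7081 (nat_lit 7134) (nat_lit 0) (nat_lit 5))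
    (@En.n l25342 (nat_lit 9766) (nat_lit 14) (nat_lit 8))
    (@En.n l25343 (nat_lit 12475) (nat_lit 10) (nat_lit 13))
    (@En.n l25344 (nat_lit 9762) (nat_lit 10) (nat_lit 3))
    (@En.n l6725 (nat_lit 7434) (nat_lit 0) (nat_lit 8))
    (@En.n l11084 (nat_lit 7429) (nat_lit 13) (nat_lit 11))
    (@En.n l25345 (nat_lit 6145) (nat_lit 2) (nat_lit 13))
    (@En.n l152 (nat_lit 11933) (nat_lit 12) (nat_lit 6))
    (@En.n l25346 (nat_lit 9758) (nat_lit 15) (nat_lit 3))))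
  (@Cl.mk (nat_lit 0x300060003000d0006000d0003000d0003000d0003000a0003000d000a000d) (nat_lit 0xb0b0a0a080873) (nat_lit 16) Lb.e (@T16.mk En
    (@En.n l5367 (nat_lit 4018) (nat_lit 0) (nat_lit 13))
    (@En.i (nat_lit 9087) (nat_lit 14) (nat_lit 10))
    (@En.i (nat_lit 10197) (nat_lit 2) (nat_lit 13))
    (@En.n l117 (nat_lit 10198) (nat_lit 3) (nat_lit 3))
    (@En.n l1106 (nat_lit 5968) (nat_lit 0) (nat_lit 10))
    (@En.i (nat_lit 10188) (nat_lit 5) (nat_lit 3))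
    (@En.n l1865 (nat_lit 5410) (nat_lit 0) (nat_lit 13))
    (@En.n l9956 (nat_lit 9753) (nat_lit 7) (nat_lit 3))
    (@En.n l1106 (nat_lit 7228) (nat_lit 0) (nat_lit 13))
    (@En.n l14488 (nat_lit 10162) (nat_lit 9) (nat_lit 3))
    (@En.n l1865 (nat_lit 5665) (nat_lit 0) (nat_lit 13))
    (@En.n l117 (nat_lit 9760) (nat_lit 14) (nat_lit 6))
    (@En.i (nat_lit 10901) (nat_lit 13) (nat_lit 13))
    (@En.n l3851 (nat_lit 9403) (nat_lit 7) (nat_lit 3))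
    (@En.i (nat_lit 12497) (nat_lit 12) (nat_lit 6))
    (@En.n l107 (nat_lit 10190) (nat_lit 15) (nat_lit 3))))
  (@Cl.mk (nat_lit 0x3000800030009000c00090008000c00040008000700040007000d0008000d) (nat_lit 0x601870304000156) (nat_lit 16) Lb.e (@T16.mk En
    (@En.n l637 (nat_lit 7236) (nat_lit 0) (nat_lit 13))
    (@En.i (nat_lit 10001) (nat_lit 3) (nat_lit 8))
    (@En.n l5579 (nat_lit 6126) (nat_lit 2) (nat_lit 13))
    (@En.n l4976 (nat_lit 11927) (nat_lit 11) (nat_lit 7))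
    (@En.n l3866 (nat_lit 8807) (nat_lit 4) (nat_lit 4))
    (@En.n l17 (nat_lit 9760) (nat_lit 0) (nat_lit 7))
    (@En.i (nat_lit 10824) (nat_lit 1) (nat_lit 8))
    (@En.n l152 (nat_lit 8499) (nat_lit 7) (nat_lit 4))
    (@En.n l5859 (nat_lit 10197) (nat_lit 0) (nat_lit 12))
    (@En.n l15070 (nat_lit 10168) (nat_lit 1) (nat_lit 8))
    (@En.n l5859 (nat_lit 11842) (nat_lit 11) (nat_lit 9))
    (@En.n l22773 (nat_lit 12316) (nat_lit 6) (nat_lit 12))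
    (@En.n l637 (nat_lit 5964) (nat_lit 13) (nat_lit 9))
    (@En.i (nat_lit 10201) (nat_lit 15) (nat_lit 3))
    (@En.i (nat_lit 11590) (nat_lit 0) (nat_lit 8))
    (@En.n l10008 (nat_lit 9766) (nat_lit 15) (nat_lit 3))))
  (@Cl.mk (nat_lit 0x3000800040009000c00090007000c00040008000700040007000d000c0009) (nat_lit 0x601860300000143) (nat_lit 16) Lb.e (@T16.mk En
    (@En.n l39881 (nat_lit 7188) (nat_lit 0) (nat_lit 9))
    (@En.n l39870 (nat_lit 10201) (nat_lit 4) (nat_lit 12))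
    (@En.i (nat_lit 6125) (nat_lit 2) (nat_lit 13))
    (@En.n l39882 (nat_lit 11931) (nat_lit 11) (nat_lit 7))
    (@En.n l39872 (nat_lit 8805) (nat_lit 4) (nat_lit 4))
    (@En.n l7 (nat_lit 9757) (nat_lit 0) (nat_lit 7))
    (@En.n l39883 (nat_lit 10831) (nat_lit 1) (nat_lit 8))
    (@En.n l22683 (nat_lit 8501) (nat_lit 7) (nat_lit 4))
    (@En.i (nat_lit 10200) (nat_lit 0) (nat_lit 12))
    (@En.n l39884 (nat_lit 10240) (nat_lit 1) (nat_lit 7))
    (@En.n l39885 (nat_lit 9734) (nat_lit 11) (nat_lit 9))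
    (@En.n l39884 (nat_lit 11139) (nat_lit 6) (nat_lit 12))
    (@En.n l1897 (nat_lit 6647) (nat_lit 13) (nat_lit 9))
    (@En.n l34823 (nat_lit 9751) (nat_lit 14) (nat_lit 4))
    (@En.n l39886 (nat_lit 11954) (nat_lit 0) (nat_lit 8))
    (@En.n l26820 (nat_lit 9765) (nat_lit 15) (nat_lit 3))))
  (@Cl.mk (nat_lit 0x300070003000c0006000d000b00040003000d000900050003000d000a000d) (nat_lit 0x70a7004700965) (nat_lit 16) Lb.e (@T16.mk En
    (@En.n l11605 (nat_lit 4025) (nat_lit 0) (nat_lit 13))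
    (@En.n l97 (nat_lit 9084) (nat_lit 14) (nat_lit 10))
    (@En.i (nat_lit 12018) (nat_lit 2) (nat_lit 13))
    (@En.n l11606 (nat_lit 9753) (nat_lit 3) (nat_lit 3))
    (@En.n l4004 (nat_lit 7769) (nat_lit 0) (nat_lit 5))
    (@En.n l11607 (nat_lit 10200) (nat_lit 5) (nat_lit 9))
    (@En.n l4003 (nat_lit 8619) (nat_lit 2) (nat_lit 13))
    (@En.n l7 (nat_lit 10198) (nat_lit 7) (nat_lit 3))
    (@En.n l11608 (nat_lit 10224) (nat_lit 0) (nat_lit 4))
    (@En.i (nat_lit 8737) (nat_lit 10) (nat_lit 11))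
    (@En.n l1140 (nat_lit 6142) (nat_lit 1) (nat_lit 13))
    (@En.n l11609 (nat_lit 9763) (nat_lit 14) (nat_lit 6))
    (@En.i (nat_lit 10700) (nat_lit 13) (nat_lit 12))
    (@En.n l3866 (nat_lit 9401) (nat_lit 15) (nat_lit 3))
    (@En.i (nat_lit 12072) (nat_lit 0) (nat_lit 7))
    (@En.n l152 (nat_lit 10196) (nat_lit 15) (nat_lit 3))))
  (@Cl.mk (nat_lit 0x2000b0006000c000a000d000500040003000c0006000c000a0004000e0004) (nat_lit 0x9086400090920c0) (nat_lit 16) Lb.e (@T16.mk En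
    (@En.n l11 (nat_lit 9746) (nat_lit 8) (nat_lit 4))
    (@En.n l22608 (nat_lit 7224) (nat_lit 1) (nat_lit 14))
    (@En.n l1392 (nat_lit 6243) (nat_lit 2) (nat_lit 4))
    (@En.i (nat_lit 8739) (nat_lit 3) (nat_lit 10))
    (@En.n l3727 (nat_lit 8696) (nat_lit 5) (nat_lit 12))
    (@En.n l22609 (nat_lit 9770) (nat_lit 5) (nat_lit 6))
    (@En.i (nat_lit 11044) (nat_lit 7) (nat_lit 12))
    (@En.n l22610 (nat_lit 9769) (nat_lit 7) (nat_lit 3))
    (@En.n l18 (nat_lit 8368) (nat_lit 0) (nat_lit 4))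
    (@En.n l6081 (nat_lit 6403) (nat_lit 9) (nat_lit 5))
    (@En.i (nat_lit 2677) (nat_lit 11) (nat_lit 13))
    (@En.n l61 (nat_lit 12716) (nat_lit 12) (nat_lit 10))
    (@En.n l1392 (nat_lit 8900) (nat_lit 13) (nat_lit 12))
    (@En.n l1878 (nat_lit 6663) (nat_lit 14) (nat_lit 6))
    (@En.n l4909 (nat_lit 9710) (nat_lit 12) (nat_lit 11))
    (@En.n l28 (nat_lit 9768) (nat_lit 15) (nat_lit 2))))
  (@Cl.mk (nat_lit 0x2000a0006000d000a000d000300060003000c0006000c000a0004000e0004) (nat_lit 0x509690009091040) (nat_lit 16) Lb.e (@T16.mk En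
    (@En.n l7 (nat_lit 9743) (nat_lit 6) (nat_lit 4))
    (@En.n l18652 (nat_lit 7227) (nat_lit 1) (nat_lit 14))
    (@En.n l36900 (nat_lit 6244) (nat_lit 2) (nat_lit 4))
    (@En.n l18589 (nat_lit 8742) (nat_lit 3) (nat_lit 10))
    (@En.n l36901 (nat_lit 8547) (nat_lit 11) (nat_lit 12))
    (@En.n l1422 (nat_lit 9771) (nat_lit 5) (nat_lit 6))
    (@En.i (nat_lit 9774) (nat_lit 7) (nat_lit 12))
    (@En.n l3851 (nat_lit 9768) (nat_lit 7) (nat_lit 3))
    (@En.i (nat_lit 12834) (nat_lit 8) (nat_lit 6))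
    (@En.n l107 (nat_lit 8583) (nat_lit 9) (nat_lit 3))
    (@En.n l830 (nat_lit 2682) (nat_lit 0) (nat_lit 13))
    (@En.i (nat_lit 12715) (nat_lit 12) (nat_lit 10))
    (@En.n l16719 (nat_lit 9773) (nat_lit 13) (nat_lit 13))
    (@En.n l18589 (nat_lit 6665) (nat_lit 14) (nat_lit 6))
    (@En.n l830 (nat_lit 9645) (nat_lit 4) (nat_lit 10))
    (@En.n l50 (nat_lit 9769) (nat_lit 15) (nat_lit 2))))
  (@Cl.mk (nat_lit 0x2000a0006000b000a0008000d0006000500030006000c000a0008000e0004) (nat_lit 0x8087150000912c0) (nat_lit 16) Lb.e (@T16.mk En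
    (@En.n l13489 (nat_lit 9748) (nat_lit 9) (nat_lit 4))
    (@En.i (nat_lit 7375) (nat_lit 1) (nat_lit 14))
    (@En.n l516 (nat_lit 4189) (nat_lit 2) (nat_lit 8))
    (@En.n l37092 (nat_lit 8741) (nat_lit 3) (nat_lit 10))
    (@En.n l25960 (nat_lit 9815) (nat_lit 5) (nat_lit 12))
    (@En.n l37093 (nat_lit 8969) (nat_lit 12) (nat_lit 6))
    (@En.n l516 (nat_lit 9771) (nat_lit 6) (nat_lit 3))
    (@En.n l37094 (nat_lit 8349) (nat_lit 0) (nat_lit 5))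
    (@En.n l12082 (nat_lit 11048) (nat_lit 8) (nat_lit 6))
    (@En.n l37095 (nat_lit 9768) (nat_lit 10) (nat_lit 13))
    (@En.n l37095 (nat_lit 6245) (nat_lit 11) (nat_lit 8))
    (@En.i (nat_lit 12718) (nat_lit 12) (nat_lit 10))
    (@En.n l37096 (nat_lit 8895) (nat_lit 13) (nat_lit 11))
    (@En.n l37097 (nat_lit 6662) (nat_lit 14) (nat_lit 6))
    (@En.n l6596 (nat_lit 9708) (nat_lit 8) (nat_lit 10))
    (@En.n l17 (nat_lit 9770) (nat_lit 15) (nat_lit 2))))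
  (@Cl.mk (nat_lit 0x200090006000c000a0008000d0004000700030006000c000a0008000e0004) (nat_lit 0x50874a000091240) (nat_lit 16) Lb.e (@T16.mk En
    (@En.n l21219 (nat_lit 9749) (nat_lit 9) (nat_lit 4))
    (@En.n l21220 (nat_lit 7239) (nat_lit 1) (nat_lit 14))
    (@En.i (nat_lit 4186) (nat_lit 2) (nat_lit 8))
    (@En.n l21221 (nat_lit 8744) (nat_lit 3) (nat_lit 10))
    (@En.n l21222 (nat_lit 9820) (nat_lit 5) (nat_lit 12))
    (@En.n l21223 (nat_lit 8068) (nat_lit 12) (nat_lit 6))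
    (@En.n l4567 (nat_lit 9770) (nat_lit 6) (nat_lit 3))
    (@En.n l4305 (nat_lit 10100) (nat_lit 0) (nat_lit 7))
    (@En.n l8951 (nat_lit 8516) (nat_lit 8) (nat_lit 4))
    (@En.n l8952 (nat_lit 9769) (nat_lit 10) (nat_lit 13))
    (@En.n l21224 (nat_lit 6246) (nat_lit 11) (nat_lit 8))
    (@En.n l111 (nat_lit 12717) (nat_lit 12) (nat_lit 10))
    (@En.n l21225 (nat_lit 9772) (nat_lit 13) (nat_lit 12))
    (@En.n l21221 (nat_lit 6664) (nat_lit 14) (nat_lit 6))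
    (@En.n l1729 (nat_lit 9782) (nat_lit 5) (nat_lit 9))
    (@En.n l17 (nat_lit 9771) (nat_lit 15) (nat_lit 2))))
  (@Cl.mk (nat_lit 0x20009000c00090007000c0004000b000700040007000c00050009000e0004) (nat_lit 0x576030900030240) (nat_lit 16) Lb.e (@T16.mk En
    (@En.i (nat_lit 9751) (nat_lit 15) (nat_lit 4))
    (@En.i (nat_lit 7237) (nat_lit 1) (nat_lit 14))
    (@En.n l37098 (nat_lit 3970) (nat_lit 2) (nat_lit 9))
    (@En.n l37099 (nat_lit 7724) (nat_lit 3) (nat_lit 5))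
    (@En.i (nat_lit 9585) (nat_lit 5) (nat_lit 12))
    (@En.n l2039 (nat_lit 8066) (nat_lit 11) (nat_lit 7))
    (@En.n l37100 (nat_lit 8895) (nat_lit 6) (nat_lit 4))
    (@En.n l37101 (nat_lit 9771) (nat_lit 7) (nat_lit 7))
    (@En.n l37102 (nat_lit 9776) (nat_lit 9) (nat_lit 11))
    (@En.n l37103 (nat_lit 8517) (nat_lit 9) (nat_lit 4))
    (@En.n l245 (nat_lit 9773) (nat_lit 11) (nat_lit 12))
    (@En.n l5592 (nat_lit 6248) (nat_lit 12) (nat_lit 7))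
    (@En.n l37104 (nat_lit 9284) (nat_lit 13) (nat_lit 9))
    (@En.i (nat_lit 10989) (nat_lit 6) (nat_lit 12))
    (@En.n l37105 (nat_lit 9654) (nat_lit 14) (nat_lit 9))
    (@En.n l28 (nat_lit 9772) (nat_lit 15) (nat_lit 2))))
  (@Cl.mk (nat_lit 0x2000a000d0009000c0003000a00060004000c0007000c00060004000e0004) (nat_lit 0x585204007020040) (nat_lit 16) Lb.e (@T16.mk En
    (@En.n l11 (nat_lit 9750) (nat_lit 5) (nat_lit 4))
    (@En.n l134 (nat_lit 7238) (nat_lit 1) (nat_lit 14))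
    (@En.n l11 (nat_lit 4502) (nat_lit 2) (nat_lit 4))
    (@En.n l21874 (nat_lit 6533) (nat_lit 3) (nat_lit 6))
    (@En.i (nat_lit 9095) (nat_lit 5) (nat_lit 12))
    (@En.n l532 (nat_lit 9772) (nat_lit 5) (nat_lit 7))
    (@En.n l15973 (nat_lit 9775) (nat_lit 7) (nat_lit 12))
    (@En.n l2409 (nat_lit 8900) (nat_lit 7) (nat_lit 4))
    (@En.n l22723 (nat_lit 9769) (nat_lit 8) (nat_lit 6))
    (@En.i (nat_lit 9777) (nat_lit 10) (nat_lit 10))
    (@En.n l2943 (nat_lit 8584) (nat_lit 10) (nat_lit 3))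
    (@En.n l2409 (nat_lit 4086) (nat_lit 0) (nat_lit 12))
    (@En.n l22724 (nat_lit 9288) (nat_lit 13) (nat_lit 9))
    (@En.i (nat_lit 10986) (nat_lit 5) (nat_lit 13))
    (@En.n l1080 (nat_lit 9650) (nat_lit 3) (nat_lit 10))
    (@En.n l7 (nat_lit 9773) (nat_lit 15) (nat_lit 2))))
  (@Cl.mk (nat_lit 0x2000a0007000d000b000800030006000c0005000b000900040008000e0005) (nat_lit 0x60b610080440350) (nat_lit 16) Lb.e (@T16.mk En
    (@En.n l7 (nat_lit 11154) (nat_lit 6) (nat_lit 5))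
    (@En.n l7705 (nat_lit 6403) (nat_lit 1) (nat_lit 14))
    (@En.n l19029 (nat_lit 9771) (nat_lit 2) (nat_lit 8))
    (@En.n l37124 (nat_lit 11142) (nat_lit 3) (nat_lit 4))
    (@En.n l18589 (nat_lit 10247) (nat_lit 4) (nat_lit 9))
    (@En.n l1865 (nat_lit 10718) (nat_lit 12) (nat_lit 11))
    (@En.n l37125 (nat_lit 11546) (nat_lit 6) (nat_lit 5))
    (@En.n l37126 (nat_lit 11903) (nat_lit 8) (nat_lit 12))
    (@En.n l8882 (nat_lit 10796) (nat_lit 8) (nat_lit 6))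
    (@En.n l107 (nat_lit 11168) (nat_lit 9) (nat_lit 3))
    (@En.n l37127 (nat_lit 6436) (nat_lit 0) (nat_lit 8))
    (@En.n l33426 (nat_lit 11172) (nat_lit 12) (nat_lit 11))
    (@En.n l37128 (nat_lit 9775) (nat_lit 13) (nat_lit 13))
    (@En.n l18589 (nat_lit 6476) (nat_lit 14) (nat_lit 7))
    (@En.n l830 (nat_lit 9647) (nat_lit 4) (nat_lit 10))
    (@En.n l50 (nat_lit 9774) (nat_lit 15) (nat_lit 2))))
  (@Cl.mk (nat_lit 0x2000a000d000a00070003000b0006000c0006000b000500040009000e0005) (nat_lit 0x6a5008060900320) (nat_lit 16) Lb.e (@T16.mk En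
    (@En.i (nat_lit 8000) (nat_lit 5) (nat_lit 5))
    (@En.i (nat_lit 6401) (nat_lit 1) (nat_lit 14))
    (@En.n l5021 (nat_lit 9772) (nat_lit 2) (nat_lit 9))
    (@En.i (nat_lit 11141) (nat_lit 3) (nat_lit 4))
    (@En.n l18409 (nat_lit 6528) (nat_lit 4) (nat_lit 5))
    (@En.n l18434 (nat_lit 10719) (nat_lit 1) (nat_lit 11))
    (@En.n l16965 (nat_lit 11547) (nat_lit 6) (nat_lit 6))
    (@En.n l37388 (nat_lit 12117) (nat_lit 8) (nat_lit 12))
    (@En.n l37389 (nat_lit 9774) (nat_lit 8) (nat_lit 6))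
    (@En.i (nat_lit 9780) (nat_lit 10) (nat_lit 11))
    (@En.n l152 (nat_lit 11169) (nat_lit 10) (nat_lit 3))
    (@En.n l18413 (nat_lit 5609) (nat_lit 0) (nat_lit 7))
    (@En.n l34966 (nat_lit 11171) (nat_lit 13) (nat_lit 10))
    (@En.i (nat_lit 7991) (nat_lit 5) (nat_lit 13))
    (@En.i (nat_lit 9649) (nat_lit 3) (nat_lit 10))
    (@En.n l17 (nat_lit 9775) (nat_lit 15) (nat_lit 2))))
noncomputable def a611 : T16 Cl := @T16.mk Cl
  (@Cl.mk (nat_lit 0x2000a0006000a0007000d000b000600030006000b0005000a0009000e0005) (nat_lit 0x2050980006023b0) (nat_lit 16) Lb.e (@T16.mk En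
    (@En.n l29001 (nat_lit 10851) (nat_lit 8) (nat_lit 5))
    (@En.n l2604 (nat_lit 9533) (nat_lit 1) (nat_lit 14))
    (@En.n l2572 (nat_lit 11140) (nat_lit 2) (nat_lit 9))
    (@En.n l37052 (nat_lit 9771) (nat_lit 3) (nat_lit 10))
    (@En.n l8962 (nat_lit 5749) (nat_lit 4) (nat_lit 5))
    (@En.n l2572 (nat_lit 10211) (nat_lit 6) (nat_lit 11))
    (@En.n l5928 (nat_lit 5747) (nat_lit 6) (nat_lit 6))
    (@En.n l7 (nat_lit 9778) (nat_lit 7) (nat_lit 3))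
    (@En.n l31646 (nat_lit 11134) (nat_lit 0) (nat_lit 6))
    (@En.i (nat_lit 11392) (nat_lit 10) (nat_lit 11))
    (@En.n l18250 (nat_lit 9777) (nat_lit 11) (nat_lit 13))
    (@En.n l23301 (nat_lit 5600) (nat_lit 12) (nat_lit 7))
    (@En.n l37053 (nat_lit 12679) (nat_lit 13) (nat_lit 10))
    (@En.i (nat_lit 10867) (nat_lit 14) (nat_lit 6))
    (@En.n l11237 (nat_lit 4320) (nat_lit 7) (nat_lit 10))
    (@En.n l17 (nat_lit 9776) (nat_lit 15) (nat_lit 2))))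
  (@Cl.mk (nat_lit 0x2000b0006000a000d000a00050003000b0006000b0006000a0005000e0005) (nat_lit 0x505830050202080) (nat_lit 16) Lb.e (@T16.mk En
    (@En.n l38318 (nat_lit 10849) (nat_lit 7) (nat_lit 5))
    (@En.n l134 (nat_lit 9532) (nat_lit 1) (nat_lit 14))
    (@En.n l9182 (nat_lit 5615) (nat_lit 2) (nat_lit 5))
    (@En.n l21299 (nat_lit 9769) (nat_lit 3) (nat_lit 10))
    (@En.n l38319 (nat_lit 6531) (nat_lit 4) (nat_lit 6))
    (@En.i (nat_lit 9197) (nat_lit 6) (nat_lit 11))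
    (@En.n l30515 (nat_lit 9776) (nat_lit 6) (nat_lit 6))
    (@En.n l15973 (nat_lit 9780) (nat_lit 8) (nat_lit 11))
    (@En.n l2409 (nat_lit 9779) (nat_lit 8) (nat_lit 3))
    (@En.n l38320 (nat_lit 11136) (nat_lit 0) (nat_lit 5))
    (@En.n l19561 (nat_lit 9808) (nat_lit 11) (nat_lit 10))
    (@En.n l38321 (nat_lit 4561) (nat_lit 5) (nat_lit 13))
    (@En.n l20447 (nat_lit 12674) (nat_lit 13) (nat_lit 10))
    (@En.i (nat_lit 10864) (nat_lit 14) (nat_lit 6))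
    (@En.n l3633 (nat_lit 9846) (nat_lit 6) (nat_lit 11))
    (@En.n l7 (nat_lit 9777) (nat_lit 15) (nat_lit 2))))
  (@Cl.mk (nat_lit 0x2000b0006000a0007000d0005000c00030006000b0004000a0009000e0005) (nat_lit 0x806090900602350) (nat_lit 16) Lb.e (@T16.mk En
    (@En.n l3098 (nat_lit 10852) (nat_lit 8) (nat_lit 5))
    (@En.n l2604 (nat_lit 9535) (nat_lit 1) (nat_lit 14))
    (@En.n l3 (nat_lit 11141) (nat_lit 2) (nat_lit 9))
    (@En.n l12597 (nat_lit 9770) (nat_lit 3) (nat_lit 10))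
    (@En.i (nat_lit 11393) (nat_lit 4) (nat_lit 4))
    (@En.n l3596 (nat_lit 10468) (nat_lit 0) (nat_lit 11))
    (@En.i (nat_lit 11511) (nat_lit 12) (nat_lit 6))
    (@En.i (nat_lit 9776) (nat_lit 7) (nat_lit 3))
    (@En.n l41392 (nat_lit 12373) (nat_lit 0) (nat_lit 12))
    (@En.i (nat_lit 11049) (nat_lit 9) (nat_lit 5))
    (@En.n l29354 (nat_lit 9779) (nat_lit 11) (nat_lit 13))
    (@En.n l10028 (nat_lit 5601) (nat_lit 12) (nat_lit 7))
    (@En.n l41393 (nat_lit 12667) (nat_lit 13) (nat_lit 10))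
    (@En.i (nat_lit 10866) (nat_lit 14) (nat_lit 6))
    (@En.n l2125 (nat_lit 10640) (nat_lit 7) (nat_lit 11))
    (@En.n l17 (nat_lit 9778) (nat_lit 15) (nat_lit 2))))
  (@Cl.mk (nat_lit 0x2000c0006000a000d0004000b0003000b0006000b0005000a0005000e0005) (nat_lit 0x906808050203050) (nat_lit 16) Lb.e (@T16.mk En
    (@En.n l10592 (nat_lit 10850) (nat_lit 7) (nat_lit 5))
    (@En.n l33430 (nat_lit 9534) (nat_lit 1) (nat_lit 14))
    (@En.n l33431 (nat_lit 5614) (nat_lit 2) (nat_lit 5))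
    (@En.n l4476 (nat_lit 9768) (nat_lit 3) (nat_lit 10))
    (@En.n l4477 (nat_lit 11396) (nat_lit 4) (nat_lit 5))
    (@En.n l3699 (nat_lit 9195) (nat_lit 6) (nat_lit 11))
    (@En.n l33432 (nat_lit 9778) (nat_lit 6) (nat_lit 6))
    (@En.n l33433 (nat_lit 11436) (nat_lit 8) (nat_lit 11))
    (@En.n l9888 (nat_lit 9777) (nat_lit 8) (nat_lit 3))
    (@En.n l3699 (nat_lit 12375) (nat_lit 10) (nat_lit 11))
    (@En.n l13355 (nat_lit 9781) (nat_lit 10) (nat_lit 4))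
    (@En.i (nat_lit 4562) (nat_lit 5) (nat_lit 13))
    (@En.n l33434 (nat_lit 12668) (nat_lit 13) (nat_lit 10))
    (@En.n l33435 (nat_lit 10863) (nat_lit 14) (nat_lit 6))
    (@En.n l33436 (nat_lit 10642) (nat_lit 3) (nat_lit 12))
    (@En.n l17 (nat_lit 9779) (nat_lit 15) (nat_lit 2))))
  (@Cl.mk (nat_lit 0x2000b0007000b0007000b0005000b0005000a0005000900050009000e0006) (nat_lit 0x6050704080504b0) (nat_lit 16) Lb.e (@T16.mk En
    (@En.n l32534 (nat_lit 8011) (nat_lit 6) (nat_lit 6))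
    (@En.i (nat_lit 9781) (nat_lit 1) (nat_lit 14))
    (@En.n l42871 (nat_lit 9776) (nat_lit 2) (nat_lit 9))
    (@En.n l41571 (nat_lit 7805) (nat_lit 3) (nat_lit 5))
    (@En.n l42872 (nat_lit 9774) (nat_lit 4) (nat_lit 9))
    (@En.n l42873 (nat_lit 6525) (nat_lit 5) (nat_lit 5))
    (@En.n l18434 (nat_lit 10710) (nat_lit 7) (nat_lit 10))
    (@En.n l23051 (nat_lit 8014) (nat_lit 7) (nat_lit 5))
    (@En.n l42874 (nat_lit 12814) (nat_lit 9) (nat_lit 11))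
    (@En.n l40831 (nat_lit 10781) (nat_lit 9) (nat_lit 5))
    (@En.n l42875 (nat_lit 9807) (nat_lit 11) (nat_lit 11))
    (@En.n l18413 (nat_lit 7436) (nat_lit 12) (nat_lit 7))
    (@En.n l36557 (nat_lit 11176) (nat_lit 13) (nat_lit 11))
    (@En.n l8631 (nat_lit 11001) (nat_lit 14) (nat_lit 7))
    (@En.n l39205 (nat_lit 9842) (nat_lit 4) (nat_lit 11))
    (@En.n l17 (nat_lit 9780) (nat_lit 15) (nat_lit 2))))
  (@Cl.mk (nat_lit 0x2000c000b0007000b0004000b0005000b0005000b000500090005000e0005) (nat_lit 0x9602060608050a0) (nat_lit 16) Lb.e (@T16.mk En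
    (@En.i (nat_lit 10857) (nat_lit 5) (nat_lit 5))
    (@En.n l5022 (nat_lit 6863) (nat_lit 1) (nat_lit 14))
    (@En.i (nat_lit 5616) (nat_lit 2) (nat_lit 5))
    (@En.n l40828 (nat_lit 6403) (nat_lit 3) (nat_lit 9))
    (@En.n l40829 (nat_lit 11602) (nat_lit 4) (nat_lit 5))
    (@En.n l8631 (nat_lit 9175) (nat_lit 6) (nat_lit 11))
    (@En.n l40830 (nat_lit 11049) (nat_lit 6) (nat_lit 5))
    (@En.n l40629 (nat_lit 12813) (nat_lit 8) (nat_lit 11))
    (@En.n l40831 (nat_lit 10127) (nat_lit 8) (nat_lit 5))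
    (@En.n l152 (nat_lit 11303) (nat_lit 10) (nat_lit 11))
    (@En.n l20805 (nat_lit 10865) (nat_lit 10) (nat_lit 4))
    (@En.n l36557 (nat_lit 12673) (nat_lit 12) (nat_lit 11))
    (@En.n l8631 (nat_lit 11427) (nat_lit 13) (nat_lit 7))
    (@En.n l21885 (nat_lit 9777) (nat_lit 14) (nat_lit 11))
    (@En.i (nat_lit 11086) (nat_lit 3) (nat_lit 12))
    (@En.n l17 (nat_lit 9781) (nat_lit 15) (nat_lit 2))))
  (@Cl.mk (nat_lit 0x40007000a00040007000c000b00090006000400090005000c00090007000c) (nat_lit 0x30079300408608) (nat_lit 16) Lb.e (@T16.mk En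
    (@En.n l28 (nat_lit 9645) (nat_lit 0) (nat_lit 12))
    (@En.n l6029 (nat_lit 9078) (nat_lit 1) (nat_lit 7))
    (@En.n l35698 (nat_lit 9712) (nat_lit 5) (nat_lit 9))
    (@En.n l3327 (nat_lit 9654) (nat_lit 13) (nat_lit 12))
    (@En.n l6029 (nat_lit 9381) (nat_lit 7) (nat_lit 5))
    (@En.n l998 (nat_lit 9783) (nat_lit 5) (nat_lit 9))
    (@En.n l50 (nat_lit 9787) (nat_lit 6) (nat_lit 4))
    (@En.n l2678 (nat_lit 2577) (nat_lit 0) (nat_lit 6))
    (@En.n l35699 (nat_lit 10301) (nat_lit 1) (nat_lit 9))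
    (@En.n l217 (nat_lit 9663) (nat_lit 5) (nat_lit 11))
    (@En.n l14627 (nat_lit 11815) (nat_lit 11) (nat_lit 12))
    (@En.n l6083 (nat_lit 9131) (nat_lit 11) (nat_lit 7))
    (@En.n l117 (nat_lit 9717) (nat_lit 15) (nat_lit 4))
    (@En.n l2039 (nat_lit 6307) (nat_lit 8) (nat_lit 10))
    (@En.i (nat_lit 10966) (nat_lit 11) (nat_lit 7))
    (@En.n l2604 (nat_lit 8425) (nat_lit 15) (nat_lit 4))))
  (@Cl.mk (nat_lit 0x40007000c000a000500080004000c000a000600090004000c00080006000b) (nat_lit 0x84040a30307507) (nat_lit 16) Lb.e (@T16.mk En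
    (@En.n l7 (nat_lit 9065) (nat_lit 0) (nat_lit 11))
    (@En.n l19840 (nat_lit 9074) (nat_lit 1) (nat_lit 6))
    (@En.n l37900 (nat_lit 9428) (nat_lit 14) (nat_lit 8))
    (@En.n l37901 (nat_lit 9784) (nat_lit 10) (nat_lit 12))
    (@En.n l37902 (nat_lit 9785) (nat_lit 4) (nat_lit 4))
    (@En.n l19840 (nat_lit 10612) (nat_lit 9) (nat_lit 9))
    (@En.n l37903 (nat_lit 1755) (nat_lit 1) (nat_lit 6))
    (@En.n l35693 (nat_lit 10302) (nat_lit 14) (nat_lit 10))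
    (@En.n l1643 (nat_lit 6281) (nat_lit 9) (nat_lit 12))
    (@En.n l37119 (nat_lit 10645) (nat_lit 9) (nat_lit 4))
    (@En.n l36941 (nat_lit 9130) (nat_lit 10) (nat_lit 8))
    (@En.n l26274 (nat_lit 11870) (nat_lit 1) (nat_lit 5))
    (@En.n l897 (nat_lit 9782) (nat_lit 13) (nat_lit 10))
    (@En.n l37904 (nat_lit 9059) (nat_lit 8) (nat_lit 12))
    (@En.n l9147 (nat_lit 10968) (nat_lit 11) (nat_lit 7))
    (@En.n l37905 (nat_lit 8399) (nat_lit 15) (nat_lit 4))))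
  (@Cl.mk (nat_lit 0x40007000b00060009000c00070005000a000400090007000c000a00060009) (nat_lit 0x30360060608504) (nat_lit 16) Lb.e (@T16.mk En
    (@En.i (nat_lit 9133) (nat_lit 9) (nat_lit 9))
    (@En.n l25764 (nat_lit 11869) (nat_lit 1) (nat_lit 6))
    (@En.n l43539 (nat_lit 9654) (nat_lit 6) (nat_lit 10))
    (@En.n l43540 (nat_lit 9785) (nat_lit 13) (nat_lit 12))
    (@En.n l43541 (nat_lit 9783) (nat_lit 14) (nat_lit 7))
    (@En.n l35689 (nat_lit 4319) (nat_lit 5) (nat_lit 9))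
    (@En.n l3531 (nat_lit 8397) (nat_lit 6) (nat_lit 4))
    (@En.n l43542 (nat_lit 9651) (nat_lit 0) (nat_lit 10))
    (@En.n l3072 (nat_lit 9070) (nat_lit 1) (nat_lit 5))
    (@En.n l43543 (nat_lit 8409) (nat_lit 0) (nat_lit 7))
    (@En.n l4790 (nat_lit 6789) (nat_lit 6) (nat_lit 12))
    (@En.n l4790 (nat_lit 10613) (nat_lit 9) (nat_lit 9))
    (@En.n l43544 (nat_lit 1754) (nat_lit 5) (nat_lit 6))
    (@En.n l5373 (nat_lit 10303) (nat_lit 8) (nat_lit 11))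
    (@En.i (nat_lit 5419) (nat_lit 11) (nat_lit 7))
    (@En.n l43545 (nat_lit 10678) (nat_lit 15) (nat_lit 4))))
  (@Cl.mk (nat_lit 0x40009000c0009000500080004000c0007000b00070004000c00080005000b) (nat_lit 0x673050104007406) (nat_lit 16) Lb.e (@T16.mk En
    (@En.n l36369 (nat_lit 9655) (nat_lit 0) (nat_lit 11))
    (@En.n l8657 (nat_lit 9069) (nat_lit 1) (nat_lit 5))
    (@En.n l18018 (nat_lit 9423) (nat_lit 14) (nat_lit 8))
    (@En.n l36370 (nat_lit 6790) (nat_lit 10) (nat_lit 12))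
    (@En.n l20426 (nat_lit 9789) (nat_lit 4) (nat_lit 4))
    (@En.i (nat_lit 1751) (nat_lit 0) (nat_lit 7))
    (@En.n l36371 (nat_lit 9198) (nat_lit 1) (nat_lit 11))
    (@En.n l36372 (nat_lit 9784) (nat_lit 14) (nat_lit 7))
    (@En.n l36373 (nat_lit 9654) (nat_lit 3) (nat_lit 12))
    (@En.n l18683 (nat_lit 10532) (nat_lit 9) (nat_lit 4))
    (@En.n l36374 (nat_lit 9134) (nat_lit 10) (nat_lit 8))
    (@En.n l36375 (nat_lit 11868) (nat_lit 1) (nat_lit 5))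
    (@En.n l8657 (nat_lit 9381) (nat_lit 0) (nat_lit 9))
    (@En.n l18686 (nat_lit 9182) (nat_lit 6) (nat_lit 12))
    (@En.n l36376 (nat_lit 4321) (nat_lit 2) (nat_lit 9))
    (@En.n l36377 (nat_lit 8400) (nat_lit 15) (nat_lit 4))))
  (@Cl.mk (nat_lit 0x40007000b00040009000c00080005000b000400090007000c00050008000c) (nat_lit 0x40222060505019) (nat_lit 16) Lb.e (@T16.mk En
    (@En.i (nat_lit 9682) (nat_lit 0) (nat_lit 12))
    (@En.n l17678 (nat_lit 9135) (nat_lit 10) (nat_lit 8))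
    (@En.n l42778 (nat_lit 9940) (nat_lit 5) (nat_lit 5))
    (@En.n l32436 (nat_lit 9788) (nat_lit 0) (nat_lit 12))
    (@En.n l42779 (nat_lit 9787) (nat_lit 14) (nat_lit 7))
    (@En.n l42780 (nat_lit 11095) (nat_lit 2) (nat_lit 9))
    (@En.n l20651 (nat_lit 8405) (nat_lit 6) (nat_lit 4))
    (@En.n l42781 (nat_lit 9978) (nat_lit 0) (nat_lit 11))
    (@En.n l42782 (nat_lit 9490) (nat_lit 1) (nat_lit 5))
    (@En.n l42783 (nat_lit 9728) (nat_lit 13) (nat_lit 8))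
    (@En.n l2038 (nat_lit 5104) (nat_lit 6) (nat_lit 12))
    (@En.n l42784 (nat_lit 6869) (nat_lit 11) (nat_lit 9))
    (@En.n l42785 (nat_lit 6281) (nat_lit 5) (nat_lit 4))
    (@En.i (nat_lit 9962) (nat_lit 0) (nat_lit 11))
    (@En.n l9590 (nat_lit 11246) (nat_lit 11) (nat_lit 7))
    (@En.n l35017 (nat_lit 9784) (nat_lit 15) (nat_lit 4))))
  (@Cl.mk (nat_lit 0x40007000c00040007000c0004000c000a000400090004000c00090006000c) (nat_lit 0x40080520203308) (nat_lit 16) Lb.e (@T16.mk En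
    (@En.n l28 (nat_lit 9795) (nat_lit 0) (nat_lit 12))
    (@En.n l16914 (nat_lit 9496) (nat_lit 1) (nat_lit 6))
    (@En.n l25747 (nat_lit 9714) (nat_lit 5) (nat_lit 9))
    (@En.n l36204 (nat_lit 9786) (nat_lit 10) (nat_lit 12))
    (@En.n l42505 (nat_lit 9788) (nat_lit 7) (nat_lit 4))
    (@En.n l25747 (nat_lit 6868) (nat_lit 0) (nat_lit 9))
    (@En.i (nat_lit 9667) (nat_lit 1) (nat_lit 4))
    (@En.n l33081 (nat_lit 10300) (nat_lit 0) (nat_lit 10))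
    (@En.n l42666 (nat_lit 9766) (nat_lit 1) (nat_lit 12))
    (@En.n l5928 (nat_lit 9783) (nat_lit 9) (nat_lit 4))
    (@En.n l33081 (nat_lit 9680) (nat_lit 0) (nat_lit 12))
    (@En.n l42667 (nat_lit 9136) (nat_lit 11) (nat_lit 7))
    (@En.n l42668 (nat_lit 9939) (nat_lit 15) (nat_lit 4))
    (@En.n l41976 (nat_lit 6406) (nat_lit 0) (nat_lit 12))
    (@En.n l23629 (nat_lit 11168) (nat_lit 11) (nat_lit 7))
    (@En.n l2604 (nat_lit 8375) (nat_lit 15) (nat_lit 4))))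
  (@Cl.mk (nat_lit 0x40007000b0004000c0007000b00050004000c00090005000c00040009000c) (nat_lit 0x80505008207054) (nat_lit 16) Lb.e (@T16.mk En
    (@En.n l1208 (nat_lit 10526) (nat_lit 6) (nat_lit 12))
    (@En.n l15678 (nat_lit 11098) (nat_lit 1) (nat_lit 9))
    (@En.n l42111 (nat_lit 8788) (nat_lit 15) (nat_lit 4))
    (@En.n l19242 (nat_lit 8884) (nat_lit 0) (nat_lit 12))
    (@En.n l42112 (nat_lit 9495) (nat_lit 1) (nat_lit 5))
    (@En.n l1208 (nat_lit 8883) (nat_lit 5) (nat_lit 9))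
    (@En.n l21657 (nat_lit 5103) (nat_lit 10) (nat_lit 12))
    (@En.n l7 (nat_lit 9791) (nat_lit 12) (nat_lit 4))
    (@En.n l22053 (nat_lit 9663) (nat_lit 0) (nat_lit 5))
    (@En.i (nat_lit 9138) (nat_lit 1) (nat_lit 11))
    (@En.n l17957 (nat_lit 9786) (nat_lit 14) (nat_lit 7))
    (@En.n l41661 (nat_lit 9751) (nat_lit 2) (nat_lit 12))
    (@En.n l9310 (nat_lit 9785) (nat_lit 9) (nat_lit 4))
    (@En.n l388 (nat_lit 9683) (nat_lit 8) (nat_lit 11))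
    (@En.n l152 (nat_lit 9137) (nat_lit 11) (nat_lit 7))
    (@En.n l6345 (nat_lit 9471) (nat_lit 15) (nat_lit 4))))
  (@Cl.mk (nat_lit 0x40008000c000b000500080004000c00050008000c0004000c00080004000b) (nat_lit 0x6a8040a03206309) (nat_lit 16) Lb.e (@T16.mk En
    (@En.n l42492 (nat_lit 9793) (nat_lit 0) (nat_lit 11))
    (@En.n l36366 (nat_lit 10304) (nat_lit 1) (nat_lit 4))
    (@En.n l387 (nat_lit 6844) (nat_lit 0) (nat_lit 8))
    (@En.n l699 (nat_lit 4306) (nat_lit 1) (nat_lit 12))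
    (@En.n l23530 (nat_lit 9783) (nat_lit 4) (nat_lit 4))
    (@En.i (nat_lit 9197) (nat_lit 0) (nat_lit 12))
    (@En.n l42493 (nat_lit 10611) (nat_lit 10) (nat_lit 8))
    (@En.n l27426 (nat_lit 4650) (nat_lit 7) (nat_lit 5))
    (@En.n l42494 (nat_lit 9786) (nat_lit 0) (nat_lit 12))
    (@En.n l34933 (nat_lit 10636) (nat_lit 1) (nat_lit 4))
    (@En.n l711 (nat_lit 7901) (nat_lit 10) (nat_lit 8))
    (@En.n l38319 (nat_lit 9947) (nat_lit 1) (nat_lit 5))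
    (@En.n l55 (nat_lit 9790) (nat_lit 5) (nat_lit 11))
    (@En.n l387 (nat_lit 9176) (nat_lit 7) (nat_lit 12))
    (@En.n l18053 (nat_lit 10897) (nat_lit 11) (nat_lit 8))
    (@En.n l42495 (nat_lit 8480) (nat_lit 15) (nat_lit 4))))
  (@Cl.mk (nat_lit 0x30008000c0005000c00090004000c00040008000b00040007000d000b0005) (nat_lit 0x410730606700a90) (nat_lit 16) Lb.e (@T16.mk En
    (@En.n l12421 (nat_lit 4649) (nat_lit 0) (nat_lit 5))
    (@En.n l77 (nat_lit 9788) (nat_lit 13) (nat_lit 11))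
    (@En.n l36366 (nat_lit 10472) (nat_lit 2) (nat_lit 13))
    (@En.n l152 (nat_lit 7902) (nat_lit 11) (nat_lit 7))
    (@En.n l345 (nat_lit 9943) (nat_lit 4) (nat_lit 4))
    (@En.n l22621 (nat_lit 8926) (nat_lit 7) (nat_lit 11))
    (@En.n l15166 (nat_lit 10257) (nat_lit 1) (nat_lit 8))
    (@En.n l3247 (nat_lit 8366) (nat_lit 7) (nat_lit 4))
    (@En.n l36367 (nat_lit 9792) (nat_lit 0) (nat_lit 12))
    (@En.n l22621 (nat_lit 9961) (nat_lit 1) (nat_lit 4))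
    (@En.n l345 (nat_lit 6845) (nat_lit 11) (nat_lit 9))
    (@En.n l36368 (nat_lit 4309) (nat_lit 12) (nat_lit 12))
    (@En.n l22053 (nat_lit 9782) (nat_lit 4) (nat_lit 5))
    (@En.i (nat_lit 8603) (nat_lit 7) (nat_lit 12))
    (@En.n l343 (nat_lit 9789) (nat_lit 6) (nat_lit 8))
    (@En.n l28 (nat_lit 9791) (nat_lit 15) (nat_lit 3))))
  (@Cl.mk (nat_lit 0x30008000c0004000c00090004000c00040008000c00040007000d0004000c) (nat_lit 0x410930806100909) (nat_lit 16) Lb.e (@T16.mk En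
    (@En.n l29163 (nat_lit 9752) (nat_lit 0) (nat_lit 12))
    (@En.i (nat_lit 9789) (nat_lit 9) (nat_lit 4))
    (@En.n l36366 (nat_lit 10471) (nat_lit 0) (nat_lit 13))
    (@En.n l152 (nat_lit 8621) (nat_lit 11) (nat_lit 7))
    (@En.n l9462 (nat_lit 9942) (nat_lit 4) (nat_lit 4))
    (@En.n l387 (nat_lit 4328) (nat_lit 0) (nat_lit 12))
    (@En.n l15166 (nat_lit 10256) (nat_lit 1) (nat_lit 8))
    (@En.n l34934 (nat_lit 8367) (nat_lit 7) (nat_lit 4))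
    (@En.n l42926 (nat_lit 9794) (nat_lit 0) (nat_lit 12))
    (@En.n l36366 (nat_lit 9960) (nat_lit 1) (nat_lit 4))
    (@En.n l387 (nat_lit 6849) (nat_lit 11) (nat_lit 9))
    (@En.n l699 (nat_lit 4249) (nat_lit 12) (nat_lit 12))
    (@En.n l22053 (nat_lit 9787) (nat_lit 4) (nat_lit 4))
    (@En.i (nat_lit 8602) (nat_lit 0) (nat_lit 12))
    (@En.n l766 (nat_lit 10006) (nat_lit 1) (nat_lit 8))
    (@En.i (nat_lit 9790) (nat_lit 15) (nat_lit 3))))
noncomputable def a612 : T16 Cl := @T16.mk Cl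
  (@Cl.mk (nat_lit 0x30007000a000400090007000d000b00060003000900070005000d0009000c) (nat_lit 0x6000a900400225) (nat_lit 16) Lb.e (@T16.mk En
    (@En.i (nat_lit 11222) (nat_lit 0) (nat_lit 12))
    (@En.n l42502 (nat_lit 6847) (nat_lit 11) (nat_lit 9))
    (@En.n l42503 (nat_lit 4220) (nat_lit 2) (nat_lit 13))
    (@En.i (nat_lit 9645) (nat_lit 3) (nat_lit 5))
    (@En.n l42504 (nat_lit 10452) (nat_lit 14) (nat_lit 7))
    (@En.n l998 (nat_lit 9793) (nat_lit 5) (nat_lit 9))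
    (@En.n l39089 (nat_lit 9794) (nat_lit 6) (nat_lit 3))
    (@En.n l24405 (nat_lit 4646) (nat_lit 0) (nat_lit 6))
    (@En.n l42504 (nat_lit 8884) (nat_lit 9) (nat_lit 11))
    (@En.n l5559 (nat_lit 11819) (nat_lit 10) (nat_lit 13))
    (@En.n l42505 (nat_lit 9790) (nat_lit 3) (nat_lit 7))
    (@En.n l42506 (nat_lit 10809) (nat_lit 4) (nat_lit 9))
    (@En.n l16259 (nat_lit 9945) (nat_lit 5) (nat_lit 4))
    (@En.n l4361 (nat_lit 8920) (nat_lit 8) (nat_lit 10))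
    (@En.i (nat_lit 10894) (nat_lit 1) (nat_lit 7))
    (@En.n l42507 (nat_lit 10132) (nat_lit 15) (nat_lit 3))))
  (@Cl.mk (nat_lit 0x30007000b000a0005000a00080005000c0006000900060004000d0008000b) (nat_lit 0x270050a0300628) (nat_lit 16) Lb.e (@T16.mk En
    (@En.n l1643 (nat_lit 12509) (nat_lit 0) (nat_lit 11))
    (@En.n l31175 (nat_lit 6843) (nat_lit 14) (nat_lit 8))
    (@En.n l31176 (nat_lit 4221) (nat_lit 2) (nat_lit 13))
    (@En.i (nat_lit 9065) (nat_lit 3) (nat_lit 4))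
    (@En.n l31177 (nat_lit 10628) (nat_lit 4) (nat_lit 6))
    (@En.n l19840 (nat_lit 10011) (nat_lit 9) (nat_lit 9))
    (@En.n l13520 (nat_lit 4645) (nat_lit 6) (nat_lit 6))
    (@En.n l1643 (nat_lit 9978) (nat_lit 8) (nat_lit 12))
    (@En.n l97 (nat_lit 10638) (nat_lit 8) (nat_lit 5))
    (@En.n l31178 (nat_lit 9789) (nat_lit 10) (nat_lit 8))
    (@En.n l31179 (nat_lit 10804) (nat_lit 11) (nat_lit 10))
    (@En.n l31180 (nat_lit 9948) (nat_lit 12) (nat_lit 5))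
    (@En.n l897 (nat_lit 9792) (nat_lit 13) (nat_lit 10))
    (@En.n l31175 (nat_lit 10137) (nat_lit 8) (nat_lit 11))
    (@En.n l31181 (nat_lit 10896) (nat_lit 12) (nat_lit 7))
    (@En.n l14434 (nat_lit 10133) (nat_lit 15) (nat_lit 3))))
  (@Cl.mk (nat_lit 0x30007000b000400090007000d0005000c0003000900070004000d0009000c) (nat_lit 0x10009030400227) (nat_lit 16) Lb.e (@T16.mk En
    (@En.n l9878 (nat_lit 11221) (nat_lit 0) (nat_lit 12))
    (@En.n l42805 (nat_lit 6850) (nat_lit 11) (nat_lit 9))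
    (@En.n l2125 (nat_lit 4219) (nat_lit 2) (nat_lit 13))
    (@En.n l9878 (nat_lit 9795) (nat_lit 3) (nat_lit 4))
    (@En.n l42806 (nat_lit 10446) (nat_lit 14) (nat_lit 7))
    (@En.n l42807 (nat_lit 10007) (nat_lit 5) (nat_lit 9))
    (@En.n l9878 (nat_lit 9792) (nat_lit 6) (nat_lit 3))
    (@En.n l16930 (nat_lit 9745) (nat_lit 0) (nat_lit 12))
    (@En.n l20731 (nat_lit 9793) (nat_lit 8) (nat_lit 5))
    (@En.i (nat_lit 11817) (nat_lit 10) (nat_lit 13))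
    (@En.n l37445 (nat_lit 9791) (nat_lit 3) (nat_lit 7))
    (@En.n l33390 (nat_lit 10811) (nat_lit 4) (nat_lit 9))
    (@En.n l42808 (nat_lit 9946) (nat_lit 5) (nat_lit 4))
    (@En.n l42805 (nat_lit 4333) (nat_lit 8) (nat_lit 11))
    (@En.n l30655 (nat_lit 10895) (nat_lit 1) (nat_lit 7))
    (@En.n l17678 (nat_lit 8877) (nat_lit 15) (nat_lit 3))))
  (@Cl.mk (nat_lit 0x30006000b0004000b0007000c0005000c00050004000a0004000d0009000c) (nat_lit 0x30508030070937) (nat_lit 16) Lb.e (@T16.mk En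
    (@En.i (nat_lit 7478) (nat_lit 0) (nat_lit 12))
    (@En.i (nat_lit 9726) (nat_lit 14) (nat_lit 9))
    (@En.i (nat_lit 9978) (nat_lit 2) (nat_lit 13))
    (@En.n l12438 (nat_lit 8884) (nat_lit 3) (nat_lit 4))
    (@En.i (nat_lit 10008) (nat_lit 4) (nat_lit 10))
    (@En.i (nat_lit 9665) (nat_lit 5) (nat_lit 4))
    (@En.n l16914 (nat_lit 10666) (nat_lit 6) (nat_lit 5))
    (@En.n l12890 (nat_lit 10200) (nat_lit 8) (nat_lit 12))
    (@En.n l5928 (nat_lit 9065) (nat_lit 8) (nat_lit 5))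
    (@En.n l12890 (nat_lit 12694) (nat_lit 10) (nat_lit 12))
    (@En.i (nat_lit 9787) (nat_lit 11) (nat_lit 7))
    (@En.i (nat_lit 9981) (nat_lit 12) (nat_lit 11))
    (@En.n l117 (nat_lit 9473) (nat_lit 13) (nat_lit 4))
    (@En.n l617 (nat_lit 6404) (nat_lit 0) (nat_lit 11))
    (@En.i (nat_lit 11169) (nat_lit 12) (nat_lit 6))
    (@En.n l2604 (nat_lit 8879) (nat_lit 15) (nat_lit 3))))
  (@Cl.mk (nat_lit 0x20006000c000b000a00080004000b0005000a0006000a00050008000e0006) (nat_lit 0x57730608010490) (nat_lit 16) Lb.e (@T16.mk En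
    (@En.n l8357 (nat_lit 9355) (nat_lit 6) (nat_lit 6))
    (@En.n l1063 (nat_lit 8589) (nat_lit 1) (nat_lit 14))
    (@En.n l40210 (nat_lit 6885) (nat_lit 2) (nat_lit 8))
    (@En.n l38361 (nat_lit 9482) (nat_lit 3) (nat_lit 5))
    (@En.i (nat_lit 6305) (nat_lit 4) (nat_lit 10))
    (@En.i (nat_lit 7572) (nat_lit 5) (nat_lit 6))
    (@En.n l2700 (nat_lit 9942) (nat_lit 7) (nat_lit 10))
    (@En.n l40211 (nat_lit 8991) (nat_lit 7) (nat_lit 5))
    (@En.n l16495 (nat_lit 9797) (nat_lit 9) (nat_lit 11))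
    (@En.n l40212 (nat_lit 9470) (nat_lit 9) (nat_lit 4))
    (@En.n l699 (nat_lit 5048) (nat_lit 11) (nat_lit 8))
    (@En.n l8906 (nat_lit 9020) (nat_lit 12) (nat_lit 10))
    (@En.n l11403 (nat_lit 9297) (nat_lit 13) (nat_lit 11))
    (@En.n l38363 (nat_lit 9317) (nat_lit 14) (nat_lit 12))
    (@En.n l17 (nat_lit 10407) (nat_lit 13) (nat_lit 6))
    (@En.n l18 (nat_lit 9796) (nat_lit 15) (nat_lit 2))))
  (@Cl.mk (nat_lit 0x200070006000c000b0008000b00040009000500090005000a0008000e0007) (nat_lit 0x7325070103570) (nat_lit 16) Lb.e (@T16.mk En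
    (@En.n l27076 (nat_lit 9356) (nat_lit 7) (nat_lit 7))
    (@En.n l12428 (nat_lit 11170) (nat_lit 1) (nat_lit 14))
    (@En.n l22933 (nat_lit 9796) (nat_lit 2) (nat_lit 8))
    (@En.n l27077 (nat_lit 8977) (nat_lit 3) (nat_lit 10))
    (@En.n l27078 (nat_lit 9484) (nat_lit 4) (nat_lit 5))
    (@En.n l22933 (nat_lit 6306) (nat_lit 5) (nat_lit 9))
    (@En.i (nat_lit 7573) (nat_lit 6) (nat_lit 5))
    (@En.n l152 (nat_lit 9946) (nat_lit 8) (nat_lit 9))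
    (@En.n l1686 (nat_lit 8992) (nat_lit 8) (nat_lit 4))
    (@En.n l5232 (nat_lit 12517) (nat_lit 10) (nat_lit 11))
    (@En.n l10136 (nat_lit 5045) (nat_lit 11) (nat_lit 8))
    (@En.n l3536 (nat_lit 9907) (nat_lit 12) (nat_lit 11))
    (@En.n l10882 (nat_lit 9298) (nat_lit 13) (nat_lit 12))
    (@En.i (nat_lit 9800) (nat_lit 14) (nat_lit 6))
    (@En.n l27079 (nat_lit 10411) (nat_lit 5) (nat_lit 7))
    (@En.n l18 (nat_lit 9797) (nat_lit 15) (nat_lit 2))))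
  (@Cl.mk (nat_lit 0x20006000b000a0007000b000a0005000900060005000a00060009000e0007) (nat_lit 0x42073070020570) (nat_lit 16) Lb.e (@T16.mk En
    (@En.n l26210 (nat_lit 9641) (nat_lit 7) (nat_lit 7))
    (@En.n l26211 (nat_lit 9808) (nat_lit 1) (nat_lit 14))
    (@En.n l26212 (nat_lit 9383) (nat_lit 2) (nat_lit 9))
    (@En.n l19118 (nat_lit 4833) (nat_lit 3) (nat_lit 6))
    (@En.n l14270 (nat_lit 9796) (nat_lit 4) (nat_lit 10))
    (@En.n l26213 (nat_lit 9901) (nat_lit 5) (nat_lit 5))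
    (@En.i (nat_lit 7254) (nat_lit 6) (nat_lit 6))
    (@En.n l9941 (nat_lit 10441) (nat_lit 8) (nat_lit 9))
    (@En.n l936 (nat_lit 9802) (nat_lit 8) (nat_lit 5))
    (@En.n l26214 (nat_lit 9799) (nat_lit 10) (nat_lit 10))
    (@En.n l19118 (nat_lit 12605) (nat_lit 11) (nat_lit 11))
    (@En.n l25152 (nat_lit 5387) (nat_lit 12) (nat_lit 7))
    (@En.n l3536 (nat_lit 11263) (nat_lit 13) (nat_lit 10))
    (@En.n l9409 (nat_lit 9365) (nat_lit 14) (nat_lit 11))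
    (@En.i (nat_lit 11113) (nat_lit 13) (nat_lit 6))
    (@En.n l18 (nat_lit 9798) (nat_lit 15) (nat_lit 2))))
  (@Cl.mk (nat_lit 0x20007000c000b0007000a000400080005000d0009000600030009000e0008) (nat_lit 0x42020603200681) (nat_lit 16) Lb.e (@T16.mk En
    (@En.n l13389 (nat_lit 9640) (nat_lit 13) (nat_lit 8))
    (@En.n l8184 (nat_lit 9807) (nat_lit 1) (nat_lit 14))
    (@En.n l13390 (nat_lit 9798) (nat_lit 2) (nat_lit 9))
    (@En.n l13391 (nat_lit 9800) (nat_lit 3) (nat_lit 3))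
    (@En.i (nat_lit 4838) (nat_lit 0) (nat_lit 6))
    (@En.n l13392 (nat_lit 9797) (nat_lit 5) (nat_lit 9))
    (@En.n l8524 (nat_lit 10113) (nat_lit 7) (nat_lit 13))
    (@En.n l12039 (nat_lit 7563) (nat_lit 7) (nat_lit 5))
    (@En.n l117 (nat_lit 10443) (nat_lit 9) (nat_lit 8))
    (@En.n l575 (nat_lit 9913) (nat_lit 9) (nat_lit 4))
    (@En.i (nat_lit 12504) (nat_lit 11) (nat_lit 10))
    (@En.n l4896 (nat_lit 1741) (nat_lit 12) (nat_lit 7))
    (@En.n l11798 (nat_lit 11265) (nat_lit 13) (nat_lit 11))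
    (@En.n l12039 (nat_lit 9367) (nat_lit 14) (nat_lit 12))
    (@En.n l12771 (nat_lit 11118) (nat_lit 4) (nat_lit 7))
    (@En.n l3 (nat_lit 9799) (nat_lit 15) (nat_lit 2))))
  (@Cl.mk (nat_lit 0x20006000c000b0007000b000400080005000d0005000a00030009000e0008) (nat_lit 0x42070104030680) (nat_lit 16) Lb.e (@T16.mk En
    (@En.n l5529 (nat_lit 9801) (nat_lit 13) (nat_lit 8))
    (@En.n l396 (nat_lit 9806) (nat_lit 1) (nat_lit 14))
    (@En.n l535 (nat_lit 9379) (nat_lit 2) (nat_lit 9))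
    (@En.n l8500 (nat_lit 9799) (nat_lit 3) (nat_lit 3))
    (@En.n l1897 (nat_lit 8939) (nat_lit 4) (nat_lit 10))
    (@En.i (nat_lit 9798) (nat_lit 5) (nat_lit 5))
    (@En.n l4559 (nat_lit 10112) (nat_lit 7) (nat_lit 13))
    (@En.i (nat_lit 7560) (nat_lit 7) (nat_lit 5))
    (@En.n l152 (nat_lit 9556) (nat_lit 9) (nat_lit 8))
    (@En.n l5365 (nat_lit 9912) (nat_lit 9) (nat_lit 4))
    (@En.n l1784 (nat_lit 12238) (nat_lit 11) (nat_lit 11))
    (@En.n l253 (nat_lit 5358) (nat_lit 12) (nat_lit 7))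
    (@En.n l3536 (nat_lit 11264) (nat_lit 13) (nat_lit 11))
    (@En.n l14271 (nat_lit 9371) (nat_lit 14) (nat_lit 12))
    (@En.i (nat_lit 9982) (nat_lit 13) (nat_lit 6))
    (@En.n l18 (nat_lit 9800) (nat_lit 15) (nat_lit 2))))
  (@Cl.mk (nat_lit 0x3000a000800080005000c000a0006000a0004000800080006000d0006000b) (nat_lit 0x661093020620503) (nat_lit 16) Lb.e (@T16.mk En
    (@En.n l24659 (nat_lit 8935) (nat_lit 0) (nat_lit 11))
    (@En.n l35866 (nat_lit 9641) (nat_lit 11) (nat_lit 6))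
    (@En.n l20109 (nat_lit 10793) (nat_lit 2) (nat_lit 13))
    (@En.n l34331 (nat_lit 9803) (nat_lit 3) (nat_lit 6))
    (@En.n l5337 (nat_lit 9800) (nat_lit 8) (nat_lit 8))
    (@En.n l35867 (nat_lit 10721) (nat_lit 5) (nat_lit 8))
    (@En.n l32525 (nat_lit 9914) (nat_lit 6) (nat_lit 4))
    (@En.i (nat_lit 12004) (nat_lit 0) (nat_lit 10))
    (@En.n l35868 (nat_lit 1742) (nat_lit 1) (nat_lit 6))
    (@En.n l34331 (nat_lit 11261) (nat_lit 10) (nat_lit 10))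
    (@En.n l35869 (nat_lit 9372) (nat_lit 11) (nat_lit 12))
    (@En.n l17790 (nat_lit 9471) (nat_lit 4) (nat_lit 5))
    (@En.n l35870 (nat_lit 9638) (nat_lit 8) (nat_lit 8))
    (@En.n l32525 (nat_lit 9946) (nat_lit 14) (nat_lit 8))
    (@En.n l3506 (nat_lit 9378) (nat_lit 2) (nat_lit 10))
    (@En.n l15099 (nat_lit 9640) (nat_lit 15) (nat_lit 3))))
  (@Cl.mk (nat_lit 0x20006000b0007000b0008000c0005000900050004000a00090008000e0007) (nat_lit 0x40335000033540) (nat_lit 16) Lb.e (@T16.mk En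
    (@En.n l5529 (nat_lit 9873) (nat_lit 7) (nat_lit 7))
    (@En.n l12428 (nat_lit 11392) (nat_lit 1) (nat_lit 14))
    (@En.n l40170 (nat_lit 9134) (nat_lit 2) (nat_lit 8))
    (@En.n l40171 (nat_lit 9658) (nat_lit 3) (nat_lit 9))
    (@En.n l40172 (nat_lit 8991) (nat_lit 4) (nat_lit 10))
    (@En.n l40173 (nat_lit 9902) (nat_lit 5) (nat_lit 4))
    (@En.i (nat_lit 6635) (nat_lit 6) (nat_lit 5))
    (@En.n l40171 (nat_lit 10456) (nat_lit 8) (nat_lit 9))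
    (@En.n l40174 (nat_lit 9909) (nat_lit 8) (nat_lit 5))
    (@En.n l4559 (nat_lit 12610) (nat_lit 10) (nat_lit 12))
    (@En.n l20064 (nat_lit 6518) (nat_lit 11) (nat_lit 8))
    (@En.i (nat_lit 9800) (nat_lit 12) (nat_lit 11))
    (@En.n l40175 (nat_lit 9327) (nat_lit 13) (nat_lit 7))
    (@En.n l40176 (nat_lit 9373) (nat_lit 14) (nat_lit 11))
    (@En.n l14649 (nat_lit 8881) (nat_lit 13) (nat_lit 6))
    (@En.n l18 (nat_lit 9802) (nat_lit 15) (nat_lit 2))))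
  (@Cl.mk (nat_lit 0x300090007000c0005000b000a00040007000b000500090006000d0005000b) (nat_lit 0x507044008000407) (nat_lit 16) Lb.e (@T16.mk En
    (@En.n l35648 (nat_lit 8932) (nat_lit 0) (nat_lit 11))
    (@En.n l35649 (nat_lit 9805) (nat_lit 8) (nat_lit 5))
    (@En.n l35650 (nat_lit 10477) (nat_lit 2) (nat_lit 13))
    (@En.n l35651 (nat_lit 7558) (nat_lit 3) (nat_lit 6))
    (@En.n l35652 (nat_lit 10812) (nat_lit 4) (nat_lit 9))
    (@En.n l719 (nat_lit 9920) (nat_lit 5) (nat_lit 5))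
    (@En.n l35653 (nat_lit 10155) (nat_lit 8) (nat_lit 11))
    (@En.n l35409 (nat_lit 9800) (nat_lit 11) (nat_lit 7))
    (@En.n l35654 (nat_lit 9953) (nat_lit 8) (nat_lit 4))
    (@En.i (nat_lit 6120) (nat_lit 0) (nat_lit 10))
    (@En.n l35655 (nat_lit 10664) (nat_lit 1) (nat_lit 11))
    (@En.n l35409 (nat_lit 9938) (nat_lit 12) (nat_lit 5))
    (@En.n l50 (nat_lit 9950) (nat_lit 13) (nat_lit 12))
    (@En.n l35656 (nat_lit 9942) (nat_lit 14) (nat_lit 7))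
    (@En.n l35657 (nat_lit 9381) (nat_lit 5) (nat_lit 9))
    (@En.n l117 (nat_lit 9804) (nat_lit 15) (nat_lit 3))))
  (@Cl.mk (nat_lit 0x300090007000c0006000b000a00040007000a000500090006000d000a0006) (nat_lit 0x607063004000350) (nat_lit 16) Lb.e (@T16.mk En
    (@En.n l21381 (nat_lit 5241) (nat_lit 0) (nat_lit 6))
    (@En.n l35400 (nat_lit 8795) (nat_lit 9) (nat_lit 10))
    (@En.n l35401 (nat_lit 10479) (nat_lit 2) (nat_lit 13))
    (@En.n l35402 (nat_lit 7561) (nat_lit 3) (nat_lit 6))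
    (@En.n l21379 (nat_lit 10808) (nat_lit 4) (nat_lit 9))
    (@En.i (nat_lit 10494) (nat_lit 5) (nat_lit 5))
    (@En.n l35403 (nat_lit 10270) (nat_lit 8) (nat_lit 10))
    (@En.n l21381 (nat_lit 9799) (nat_lit 11) (nat_lit 7))
    (@En.n l35404 (nat_lit 9954) (nat_lit 8) (nat_lit 4))
    (@En.i (nat_lit 6119) (nat_lit 0) (nat_lit 10))
    (@En.n l35403 (nat_lit 10661) (nat_lit 1) (nat_lit 11))
    (@En.n l35405 (nat_lit 9720) (nat_lit 12) (nat_lit 6))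
    (@En.n l50 (nat_lit 9879) (nat_lit 13) (nat_lit 12))
    (@En.n l217 (nat_lit 9943) (nat_lit 14) (nat_lit 7))
    (@En.n l35406 (nat_lit 9805) (nat_lit 5) (nat_lit 9))
    (@En.n l152 (nat_lit 9803) (nat_lit 15) (nat_lit 3))))
  (@Cl.mk (nat_lit 0x40007000b000a0006000a00070005000b000600090006000c0005000a0009) (nat_lit 0x65000030506054) (nat_lit 16) Lb.e (@T16.mk En
    (@En.n l35034 (nat_lit 6123) (nat_lit 0) (nat_lit 9))
    (@En.n l19493 (nat_lit 10663) (nat_lit 1) (nat_lit 10))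
    (@En.n l35035 (nat_lit 9722) (nat_lit 15) (nat_lit 5))
    (@En.n l35036 (nat_lit 9876) (nat_lit 0) (nat_lit 12))
    (@En.n l35037 (nat_lit 9941) (nat_lit 1) (nat_lit 6))
    (@En.n l13713 (nat_lit 9385) (nat_lit 9) (nat_lit 9))
    (@En.n l35038 (nat_lit 5240) (nat_lit 6) (nat_lit 6))
    (@En.n l2604 (nat_lit 9475) (nat_lit 0) (nat_lit 11))
    (@En.n l35039 (nat_lit 10642) (nat_lit 8) (nat_lit 5))
    (@En.n l35040 (nat_lit 7256) (nat_lit 0) (nat_lit 7))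
    (@En.n l35041 (nat_lit 10806) (nat_lit 9) (nat_lit 10))
    (@En.n l35042 (nat_lit 9809) (nat_lit 2) (nat_lit 6))
    (@En.n l35043 (nat_lit 9804) (nat_lit 6) (nat_lit 10))
    (@En.n l35044 (nat_lit 11812) (nat_lit 8) (nat_lit 11))
    (@En.n l35045 (nat_lit 9798) (nat_lit 11) (nat_lit 7))
    (@En.n l35046 (nat_lit 9956) (nat_lit 15) (nat_lit 4))))
  (@Cl.mk (nat_lit 0x2000c0006000c000b0004000b000400090005000d0005000a0003000e0007) (nat_lit 0x806605020601070) (nat_lit 16) Lb.e (@T16.mk En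
    (@En.n l34327 (nat_lit 11407) (nat_lit 14) (nat_lit 7))
    (@En.n l34328 (nat_lit 9470) (nat_lit 1) (nat_lit 14))
    (@En.n l23939 (nat_lit 9807) (nat_lit 2) (nat_lit 3))
    (@En.n l19951 (nat_lit 5812) (nat_lit 3) (nat_lit 10))
    (@En.n l28346 (nat_lit 9808) (nat_lit 4) (nat_lit 5))
    (@En.n l28322 (nat_lit 11434) (nat_lit 6) (nat_lit 13))
    (@En.i (nat_lit 7992) (nat_lit 6) (nat_lit 5))
    (@En.n l21209 (nat_lit 9200) (nat_lit 8) (nat_lit 9))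
    (@En.n l34329 (nat_lit 11395) (nat_lit 8) (nat_lit 4))
    (@En.n l97 (nat_lit 12330) (nat_lit 10) (nat_lit 11))
    (@En.i (nat_lit 11386) (nat_lit 10) (nat_lit 4))
    (@En.n l3536 (nat_lit 11460) (nat_lit 12) (nat_lit 11))
    (@En.n l16306 (nat_lit 9992) (nat_lit 13) (nat_lit 12))
    (@En.n l61 (nat_lit 10347) (nat_lit 14) (nat_lit 6))
    (@En.n l34330 (nat_lit 9803) (nat_lit 12) (nat_lit 12))
    (@En.n l50 (nat_lit 9806) (nat_lit 15) (nat_lit 2))))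
  (@Cl.mk (nat_lit 0x2000c0007000c000b0004000a000400090005000d000900060003000e0007) (nat_lit 0x807604020660070) (nat_lit 16) Lb.e (@T16.mk En
    (@En.n l7001 (nat_lit 11406) (nat_lit 14) (nat_lit 7))
    (@En.n l19592 (nat_lit 11303) (nat_lit 1) (nat_lit 14))
    (@En.n l19598 (nat_lit 9806) (nat_lit 2) (nat_lit 3))
    (@En.n l19599 (nat_lit 12342) (nat_lit 3) (nat_lit 6))
    (@En.n l19592 (nat_lit 11170) (nat_lit 4) (nat_lit 9))
    (@En.n l19600 (nat_lit 11435) (nat_lit 6) (nat_lit 13))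
    (@En.n l19601 (nat_lit 7993) (nat_lit 6) (nat_lit 5))
    (@En.n l19602 (nat_lit 9202) (nat_lit 8) (nat_lit 9))
    (@En.n l1262 (nat_lit 11397) (nat_lit 8) (nat_lit 4))
    (@En.n l19599 (nat_lit 11139) (nat_lit 10) (nat_lit 10))
    (@En.n l2691 (nat_lit 11384) (nat_lit 10) (nat_lit 4))
    (@En.n l19603 (nat_lit 11463) (nat_lit 12) (nat_lit 11))
    (@En.n l615 (nat_lit 7989) (nat_lit 13) (nat_lit 12))
    (@En.n l19604 (nat_lit 10352) (nat_lit 14) (nat_lit 7))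
    (@En.n l19605 (nat_lit 9804) (nat_lit 12) (nat_lit 12))
    (@En.n l17 (nat_lit 9807) (nat_lit 15) (nat_lit 2))))
noncomputable def a613 : T16 Cl := @T16.mk Cl
  (@Cl.mk (nat_lit 0x2000c0006000b000a0004000b000a0005000a00060005000a0006000e0006) (nat_lit 0x705208502002060) (nat_lit 16) Lb.e (@T16.mk En
    (@En.n l7 (nat_lit 10277) (nat_lit 5) (nat_lit 6))
    (@En.n l19253 (nat_lit 9467) (nat_lit 1) (nat_lit 14))
    (@En.n l19254 (nat_lit 5618) (nat_lit 2) (nat_lit 6))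
    (@En.i (nat_lit 8589) (nat_lit 3) (nat_lit 10))
    (@En.n l19255 (nat_lit 9779) (nat_lit 4) (nat_lit 5))
    (@En.n l19256 (nat_lit 7252) (nat_lit 5) (nat_lit 6))
    (@En.n l19257 (nat_lit 9203) (nat_lit 7) (nat_lit 10))
    (@En.n l19258 (nat_lit 11392) (nat_lit 7) (nat_lit 5))
    (@En.n l19259 (nat_lit 9807) (nat_lit 9) (nat_lit 10))
    (@En.n l19260 (nat_lit 11517) (nat_lit 10) (nat_lit 11))
    (@En.n l19256 (nat_lit 11383) (nat_lit 10) (nat_lit 4))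
    (@En.n l19261 (nat_lit 11455) (nat_lit 12) (nat_lit 10))
    (@En.n l19262 (nat_lit 9053) (nat_lit 13) (nat_lit 11))
    (@En.n l19263 (nat_lit 11449) (nat_lit 14) (nat_lit 6))
    (@En.n l10703 (nat_lit 9805) (nat_lit 3) (nat_lit 12))
    (@En.n l50 (nat_lit 9808) (nat_lit 15) (nat_lit 2))))
  (@Cl.mk (nat_lit 0x4000b000a00080006000b0005000a0006000a00050008000c0006000a0006) (nat_lit 0x855050705047000) (nat_lit 16) Lb.e (@T16.mk En
    (@En.n l3506 (nat_lit 6632) (nat_lit 0) (nat_lit 6))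
    (@En.n l34402 (nat_lit 11820) (nat_lit 9) (nat_lit 10))
    (@En.n l61 (nat_lit 9919) (nat_lit 1) (nat_lit 6))
    (@En.n l37644 (nat_lit 10638) (nat_lit 7) (nat_lit 12))
    (@En.n l43305 (nat_lit 9802) (nat_lit 10) (nat_lit 8))
    (@En.n l26277 (nat_lit 11855) (nat_lit 5) (nat_lit 5))
    (@En.n l899 (nat_lit 9803) (nat_lit 9) (nat_lit 10))
    (@En.i (nat_lit 11802) (nat_lit 1) (nat_lit 6))
    (@En.i (nat_lit 9697) (nat_lit 2) (nat_lit 10))
    (@En.n l35919 (nat_lit 9727) (nat_lit 9) (nat_lit 5))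
    (@En.n l7 (nat_lit 9875) (nat_lit 9) (nat_lit 11))
    (@En.n l7 (nat_lit 10814) (nat_lit 10) (nat_lit 6))
    (@En.n l37902 (nat_lit 9785) (nat_lit 2) (nat_lit 8))
    (@En.n l43306 (nat_lit 9649) (nat_lit 6) (nat_lit 10))
    (@En.i (nat_lit 8388) (nat_lit 2) (nat_lit 11))
    (@En.n l37644 (nat_lit 10640) (nat_lit 12) (nat_lit 4))))
  (@Cl.mk (nat_lit 0x40008000b0005000a0006000b0005000b000800060005000c0005000b000a) (nat_lit 0x220305085007028) (nat_lit 16) Lb.e (@T16.mk En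
    (@En.n l217 (nat_lit 10388) (nat_lit 0) (nat_lit 10))
    (@En.n l42037 (nat_lit 10063) (nat_lit 1) (nat_lit 11))
    (@En.n l1236 (nat_lit 9374) (nat_lit 5) (nat_lit 5))
    (@En.n l42038 (nat_lit 10083) (nat_lit 3) (nat_lit 12))
    (@En.n l6918 (nat_lit 9074) (nat_lit 11) (nat_lit 5))
    (@En.n l42039 (nat_lit 9674) (nat_lit 10) (nat_lit 6))
    (@En.n l42040 (nat_lit 9711) (nat_lit 6) (nat_lit 8))
    (@En.n l42041 (nat_lit 11043) (nat_lit 2) (nat_lit 11))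
    (@En.n l42042 (nat_lit 9719) (nat_lit 8) (nat_lit 5))
    (@En.n l42040 (nat_lit 8422) (nat_lit 9) (nat_lit 11))
    (@En.n l42043 (nat_lit 9434) (nat_lit 1) (nat_lit 6))
    (@En.n l41061 (nat_lit 9726) (nat_lit 12) (nat_lit 10))
    (@En.i (nat_lit 9426) (nat_lit 13) (nat_lit 5))
    (@En.n l42043 (nat_lit 9361) (nat_lit 7) (nat_lit 11))
    (@En.n l42044 (nat_lit 9705) (nat_lit 11) (nat_lit 8))
    (@En.n l42045 (nat_lit 9811) (nat_lit 15) (nat_lit 4))))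
  (@Cl.mk (nat_lit 0x40008000b0004000a0008000b0005000a000800060005000c00080006000c) (nat_lit 0x170343085007303) (nat_lit 16) Lb.e (@T16.mk En
    (@En.n l34491 (nat_lit 10062) (nat_lit 0) (nat_lit 12))
    (@En.n l97 (nat_lit 10633) (nat_lit 1) (nat_lit 6))
    (@En.n l43588 (nat_lit 9709) (nat_lit 5) (nat_lit 8))
    (@En.n l43597 (nat_lit 9725) (nat_lit 3) (nat_lit 12))
    (@En.i (nat_lit 9065) (nat_lit 11) (nat_lit 5))
    (@En.n l43598 (nat_lit 9672) (nat_lit 10) (nat_lit 6))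
    (@En.n l15079 (nat_lit 9710) (nat_lit 6) (nat_lit 8))
    (@En.n l43309 (nat_lit 11046) (nat_lit 10) (nat_lit 10))
    (@En.n l5390 (nat_lit 9940) (nat_lit 8) (nat_lit 5))
    (@En.n l17884 (nat_lit 8559) (nat_lit 7) (nat_lit 11))
    (@En.n l22465 (nat_lit 9700) (nat_lit 8) (nat_lit 8))
    (@En.n l38006 (nat_lit 8882) (nat_lit 2) (nat_lit 10))
    (@En.n l34491 (nat_lit 9424) (nat_lit 15) (nat_lit 4))
    (@En.n l43599 (nat_lit 9869) (nat_lit 7) (nat_lit 11))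
    (@En.n l17884 (nat_lit 4220) (nat_lit 1) (nat_lit 8))
    (@En.n l38006 (nat_lit 9812) (nat_lit 15) (nat_lit 4))))
  (@Cl.mk (nat_lit 0x40008000b0006000a0007000b00050009000800060005000c000a00090007) (nat_lit 0x250301072006200) (nat_lit 16) Lb.e (@T16.mk En
    (@En.n l41122 (nat_lit 10635) (nat_lit 0) (nat_lit 7))
    (@En.n l16485 (nat_lit 10386) (nat_lit 1) (nat_lit 9))
    (@En.n l43581 (nat_lit 9874) (nat_lit 6) (nat_lit 10))
    (@En.n l24659 (nat_lit 9723) (nat_lit 3) (nat_lit 12))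
    (@En.n l23051 (nat_lit 10668) (nat_lit 11) (nat_lit 5))
    (@En.n l36378 (nat_lit 9816) (nat_lit 10) (nat_lit 6))
    (@En.n l17 (nat_lit 9813) (nat_lit 8) (nat_lit 8))
    (@En.n l43582 (nat_lit 10416) (nat_lit 10) (nat_lit 9))
    (@En.n l25471 (nat_lit 10512) (nat_lit 8) (nat_lit 5))
    (@En.i (nat_lit 8153) (nat_lit 8) (nat_lit 11))
    (@En.n l619 (nat_lit 6271) (nat_lit 1) (nat_lit 7))
    (@En.i (nat_lit 6850) (nat_lit 9) (nat_lit 10))
    (@En.n l43583 (nat_lit 10405) (nat_lit 13) (nat_lit 6))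
    (@En.n l17407 (nat_lit 9870) (nat_lit 7) (nat_lit 11))
    (@En.n l30207 (nat_lit 2893) (nat_lit 11) (nat_lit 8))
    (@En.n l43584 (nat_lit 9810) (nat_lit 15) (nat_lit 4))))
  (@Cl.mk (nat_lit 0x3000b0007000b0008000c0005000800050004000c00090008000d00040008) (nat_lit 0x604440100a23502) (nat_lit 16) Lb.e (@T16.mk En
    (@En.n l16965 (nat_lit 5288) (nat_lit 0) (nat_lit 8))
    (@En.n l14325 (nat_lit 9711) (nat_lit 15) (nat_lit 4))
    (@En.n l564 (nat_lit 12456) (nat_lit 0) (nat_lit 13))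
    (@En.n l16485 (nat_lit 10385) (nat_lit 1) (nat_lit 8))
    (@En.n l41629 (nat_lit 9878) (nat_lit 4) (nat_lit 9))
    (@En.n l644 (nat_lit 9721) (nat_lit 3) (nat_lit 12))
    (@En.n l23051 (nat_lit 10667) (nat_lit 12) (nat_lit 4))
    (@En.n l25470 (nat_lit 9815) (nat_lit 7) (nat_lit 5))
    (@En.n l16965 (nat_lit 7082) (nat_lit 10) (nat_lit 8))
    (@En.n l25471 (nat_lit 10515) (nat_lit 9) (nat_lit 5))
    (@En.i (nat_lit 8694) (nat_lit 11) (nat_lit 12))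
    (@En.n l619 (nat_lit 6270) (nat_lit 12) (nat_lit 8))
    (@En.i (nat_lit 6849) (nat_lit 8) (nat_lit 11))
    (@En.n l21138 (nat_lit 10401) (nat_lit 14) (nat_lit 7))
    (@En.i (nat_lit 9812) (nat_lit 13) (nat_lit 11))
    (@En.i (nat_lit 9814) (nat_lit 15) (nat_lit 3))))
  (@Cl.mk (nat_lit 0x3000b0007000b0008000c0005000900050004000b00090008000d00070005) (nat_lit 0x602130700925500) (nat_lit 16) Lb.e (@T16.mk En
    (@En.n l37306 (nat_lit 9460) (nat_lit 0) (nat_lit 5))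
    (@En.n l61 (nat_lit 9812) (nat_lit 0) (nat_lit 7))
    (@En.n l564 (nat_lit 12458) (nat_lit 2) (nat_lit 13))
    (@En.n l16485 (nat_lit 10387) (nat_lit 3) (nat_lit 8))
    (@En.n l37307 (nat_lit 9877) (nat_lit 4) (nat_lit 9))
    (@En.n l16289 (nat_lit 9739) (nat_lit 6) (nat_lit 11))
    (@En.n l37308 (nat_lit 10666) (nat_lit 12) (nat_lit 4))
    (@En.n l25470 (nat_lit 9817) (nat_lit 7) (nat_lit 5))
    (@En.n l29013 (nat_lit 10460) (nat_lit 10) (nat_lit 9))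
    (@En.n l25471 (nat_lit 10054) (nat_lit 9) (nat_lit 5))
    (@En.i (nat_lit 8695) (nat_lit 11) (nat_lit 12))
    (@En.n l37307 (nat_lit 6269) (nat_lit 12) (nat_lit 8))
    (@En.i (nat_lit 6851) (nat_lit 8) (nat_lit 11))
    (@En.n l37309 (nat_lit 10402) (nat_lit 14) (nat_lit 7))
    (@En.i (nat_lit 9873) (nat_lit 4) (nat_lit 11))
    (@En.n l18 (nat_lit 9813) (nat_lit 15) (nat_lit 3))))
  (@Cl.mk (nat_lit 0x3000a0007000b00050009000d000600050003000c00090007000d0004000b) (nat_lit 0x803042000800808) (nat_lit 16) Lb.e (@T16.mk En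
    (@En.n l43307 (nat_lit 9415) (nat_lit 0) (nat_lit 11))
    (@En.i (nat_lit 9706) (nat_lit 10) (nat_lit 4))
    (@En.n l34491 (nat_lit 8703) (nat_lit 0) (nat_lit 13))
    (@En.n l3866 (nat_lit 4301) (nat_lit 3) (nat_lit 7))
    (@En.n l40391 (nat_lit 10502) (nat_lit 14) (nat_lit 9))
    (@En.i (nat_lit 9811) (nat_lit 3) (nat_lit 12))
    (@En.n l43308 (nat_lit 9820) (nat_lit 6) (nat_lit 3))
    (@En.i (nat_lit 6430) (nat_lit 0) (nat_lit 5))
    (@En.n l24753 (nat_lit 10058) (nat_lit 8) (nat_lit 6))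
    (@En.n l17884 (nat_lit 8696) (nat_lit 10) (nat_lit 13))
    (@En.n l43309 (nat_lit 6242) (nat_lit 10) (nat_lit 9))
    (@En.n l39376 (nat_lit 9947) (nat_lit 4) (nat_lit 5))
    (@En.n l17884 (nat_lit 8362) (nat_lit 8) (nat_lit 11))
    (@En.n l22465 (nat_lit 10586) (nat_lit 14) (nat_lit 7))
    (@En.n l11403 (nat_lit 9816) (nat_lit 2) (nat_lit 10))
    (@En.i (nat_lit 9817) (nat_lit 15) (nat_lit 3))))
  (@Cl.mk (nat_lit 0x40008000c0006000a00060004000c000a000800060004000c000a0006000a) (nat_lit 0x2a0800121008705) (nat_lit 16) Lb.e (@T16.mk En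
    (@En.i (nat_lit 8877) (nat_lit 0) (nat_lit 10))
    (@En.n l29212 (nat_lit 10408) (nat_lit 1) (nat_lit 6))
    (@En.n l42995 (nat_lit 9872) (nat_lit 14) (nat_lit 10))
    (@En.n l32411 (nat_lit 10566) (nat_lit 10) (nat_lit 12))
    (@En.n l42996 (nat_lit 9674) (nat_lit 4) (nat_lit 4))
    (@En.n l21433 (nat_lit 10634) (nat_lit 0) (nat_lit 6))
    (@En.n l20558 (nat_lit 4317) (nat_lit 1) (nat_lit 8))
    (@En.n l42997 (nat_lit 9872) (nat_lit 6) (nat_lit 10))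
    (@En.n l32414 (nat_lit 8882) (nat_lit 9) (nat_lit 12))
    (@En.n l42998 (nat_lit 11815) (nat_lit 12) (nat_lit 4))
    (@En.n l42999 (nat_lit 9818) (nat_lit 0) (nat_lit 6))
    (@En.i (nat_lit 11819) (nat_lit 9) (nat_lit 10))
    (@En.n l43000 (nat_lit 10498) (nat_lit 7) (nat_lit 6))
    (@En.n l32418 (nat_lit 12457) (nat_lit 7) (nat_lit 12))
    (@En.n l32419 (nat_lit 9814) (nat_lit 11) (nat_lit 8))
    (@En.n l43001 (nat_lit 9948) (nat_lit 15) (nat_lit 4))))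
  (@Cl.mk (nat_lit 0x3000a0007000b00060009000d000600050003000b00090007000d000a0005) (nat_lit 0x803042000150940) (nat_lit 16) Lb.e (@T16.mk En
    (@En.n l34489 (nat_lit 9267) (nat_lit 0) (nat_lit 5))
    (@En.n l34490 (nat_lit 9818) (nat_lit 11) (nat_lit 10))
    (@En.n l34491 (nat_lit 10292) (nat_lit 2) (nat_lit 13))
    (@En.n l97 (nat_lit 4299) (nat_lit 3) (nat_lit 7))
    (@En.n l34492 (nat_lit 10501) (nat_lit 14) (nat_lit 9))
    (@En.n l34491 (nat_lit 9424) (nat_lit 6) (nat_lit 11))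
    (@En.n l34493 (nat_lit 9819) (nat_lit 6) (nat_lit 3))
    (@En.i (nat_lit 6431) (nat_lit 0) (nat_lit 5))
    (@En.n l24753 (nat_lit 10052) (nat_lit 8) (nat_lit 6))
    (@En.n l17884 (nat_lit 8697) (nat_lit 10) (nat_lit 13))
    (@En.n l34494 (nat_lit 6241) (nat_lit 9) (nat_lit 9))
    (@En.n l24608 (nat_lit 10922) (nat_lit 4) (nat_lit 6))
    (@En.n l17884 (nat_lit 8363) (nat_lit 8) (nat_lit 11))
    (@En.n l34495 (nat_lit 10583) (nat_lit 14) (nat_lit 7))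
    (@En.n l34496 (nat_lit 9809) (nat_lit 8) (nat_lit 10))
    (@En.n l18 (nat_lit 9815) (nat_lit 15) (nat_lit 3))))
  (@Cl.mk (nat_lit 0x3000c000a0007000a0004000b00090006000a000600050009000d00070006) (nat_lit 0x150306704005300) (nat_lit 16) Lb.e (@T16.mk En
    (@En.n l38262 (nat_lit 6434) (nat_lit 0) (nat_lit 6))
    (@En.n l61 (nat_lit 10059) (nat_lit 6) (nat_lit 7))
    (@En.n l42263 (nat_lit 8698) (nat_lit 6) (nat_lit 13))
    (@En.n l42264 (nat_lit 9817) (nat_lit 10) (nat_lit 9))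
    (@En.n l38265 (nat_lit 9815) (nat_lit 11) (nat_lit 5))
    (@En.n l42265 (nat_lit 10923) (nat_lit 5) (nat_lit 6))
    (@En.n l40192 (nat_lit 8367) (nat_lit 9) (nat_lit 10))
    (@En.n l42266 (nat_lit 10581) (nat_lit 7) (nat_lit 6))
    (@En.i (nat_lit 9875) (nat_lit 7) (nat_lit 9))
    (@En.n l38268 (nat_lit 9409) (nat_lit 10) (nat_lit 11))
    (@En.n l42267 (nat_lit 9684) (nat_lit 10) (nat_lit 4))
    (@En.i (nat_lit 9047) (nat_lit 8) (nat_lit 10))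
    (@En.n l38259 (nat_lit 4298) (nat_lit 1) (nat_lit 7))
    (@En.n l42268 (nat_lit 10503) (nat_lit 14) (nat_lit 10))
    (@En.i (nat_lit 9425) (nat_lit 3) (nat_lit 12))
    (@En.n l42269 (nat_lit 9821) (nat_lit 15) (nat_lit 3))))
  (@Cl.mk (nat_lit 0x300090007000c00060009000d000400070003000b00090007000d000a0005) (nat_lit 0x602012000350940) (nat_lit 16) Lb.e (@T16.mk En
    (@En.i (nat_lit 9271) (nat_lit 0) (nat_lit 5))
    (@En.n l41014 (nat_lit 9821) (nat_lit 11) (nat_lit 10))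
    (@En.n l21239 (nat_lit 10290) (nat_lit 2) (nat_lit 13))
    (@En.n l43302 (nat_lit 4297) (nat_lit 3) (nat_lit 7))
    (@En.n l2436 (nat_lit 10499) (nat_lit 4) (nat_lit 9))
    (@En.n l41986 (nat_lit 10566) (nat_lit 13) (nat_lit 11))
    (@En.n l43303 (nat_lit 9817) (nat_lit 6) (nat_lit 3))
    (@En.i (nat_lit 9860) (nat_lit 11) (nat_lit 7))
    (@En.n l3583 (nat_lit 9823) (nat_lit 8) (nat_lit 4))
    (@En.i (nat_lit 9093) (nat_lit 0) (nat_lit 13))
    (@En.n l11069 (nat_lit 4499) (nat_lit 9) (nat_lit 9))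
    (@En.n l39714 (nat_lit 10920) (nat_lit 4) (nat_lit 6))
    (@En.n l29360 (nat_lit 10088) (nat_lit 13) (nat_lit 12))
    (@En.n l2436 (nat_lit 10584) (nat_lit 14) (nat_lit 7))
    (@En.n l287 (nat_lit 10640) (nat_lit 5) (nat_lit 9))
    (@En.n l43304 (nat_lit 9820) (nat_lit 15) (nat_lit 3))))
  (@Cl.mk (nat_lit 0x300090007000c00050009000d000400070003000c00090007000d0004000b) (nat_lit 0x604042000800908) (nat_lit 16) Lb.e (@T16.mk En
    (@En.n l33407 (nat_lit 9582) (nat_lit 0) (nat_lit 11))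
    (@En.n l35727 (nat_lit 9704) (nat_lit 10) (nat_lit 4))
    (@En.i (nat_lit 10289) (nat_lit 0) (nat_lit 13))
    (@En.n l37085 (nat_lit 4300) (nat_lit 3) (nat_lit 7))
    (@En.n l36993 (nat_lit 10500) (nat_lit 4) (nat_lit 9))
    (@En.n l2039 (nat_lit 10575) (nat_lit 13) (nat_lit 12))
    (@En.n l37086 (nat_lit 9815) (nat_lit 6) (nat_lit 3))
    (@En.n l37087 (nat_lit 9864) (nat_lit 11) (nat_lit 7))
    (@En.n l13375 (nat_lit 9822) (nat_lit 8) (nat_lit 4))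
    (@En.n l245 (nat_lit 8547) (nat_lit 0) (nat_lit 13))
    (@En.n l37088 (nat_lit 4500) (nat_lit 10) (nat_lit 9))
    (@En.n l37089 (nat_lit 11475) (nat_lit 4) (nat_lit 5))
    (@En.n l3 (nat_lit 9585) (nat_lit 13) (nat_lit 12))
    (@En.n l37090 (nat_lit 10587) (nat_lit 14) (nat_lit 7))
    (@En.n l37091 (nat_lit 11815) (nat_lit 5) (nat_lit 9))
    (@En.n l34963 (nat_lit 9819) (nat_lit 15) (nat_lit 3))))
  (@Cl.mk (nat_lit 0x3000c000a0007000a0004000b00080006000b000600050009000d00050008) (nat_lit 0x300302502002405) (nat_lit 16) Lb.e (@T16.mk En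
    (@En.n l31644 (nat_lit 9863) (nat_lit 10) (nat_lit 8))
    (@En.n l39134 (nat_lit 10076) (nat_lit 6) (nat_lit 5))
    (@En.n l39135 (nat_lit 10288) (nat_lit 6) (nat_lit 13))
    (@En.n l42821 (nat_lit 9819) (nat_lit 10) (nat_lit 9))
    (@En.n l32711 (nat_lit 9820) (nat_lit 11) (nat_lit 5))
    (@En.i (nat_lit 10921) (nat_lit 5) (nat_lit 6))
    (@En.n l34283 (nat_lit 10089) (nat_lit 9) (nat_lit 11))
    (@En.i (nat_lit 10582) (nat_lit 7) (nat_lit 6))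
    (@En.n l33391 (nat_lit 10639) (nat_lit 14) (nat_lit 8))
    (@En.n l17552 (nat_lit 9414) (nat_lit 10) (nat_lit 11))
    (@En.n l42822 (nat_lit 9688) (nat_lit 10) (nat_lit 4))
    (@En.n l33391 (nat_lit 9048) (nat_lit 8) (nat_lit 10))
    (@En.n l19471 (nat_lit 4296) (nat_lit 1) (nat_lit 7))
    (@En.n l32130 (nat_lit 10504) (nat_lit 14) (nat_lit 10))
    (@En.n l39134 (nat_lit 10565) (nat_lit 3) (nat_lit 12))
    (@En.n l33391 (nat_lit 9818) (nat_lit 15) (nat_lit 3))))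
  (@Cl.mk (nat_lit 0x300090007000c000b0006000a000400070005000c00090006000d0004000a) (nat_lit 0x604404000400205) (nat_lit 16) Lb.e (@T16.mk En
    (@En.n l25747 (nat_lit 9508) (nat_lit 0) (nat_lit 10))
    (@En.n l35698 (nat_lit 9712) (nat_lit 8) (nat_lit 4))
    (@En.n l41973 (nat_lit 11842) (nat_lit 0) (nat_lit 13))
    (@En.n l5608 (nat_lit 3308) (nat_lit 3) (nat_lit 6))
    (@En.n l30038 (nat_lit 10496) (nat_lit 4) (nat_lit 9))
    (@En.n l899 (nat_lit 11720) (nat_lit 13) (nat_lit 12))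
    (@En.n l41974 (nat_lit 8146) (nat_lit 6) (nat_lit 5))
    (@En.n l41975 (nat_lit 10051) (nat_lit 11) (nat_lit 7))
    (@En.n l7743 (nat_lit 10087) (nat_lit 8) (nat_lit 4))
    (@En.n l41976 (nat_lit 4497) (nat_lit 9) (nat_lit 10))
    (@En.n l2125 (nat_lit 10675) (nat_lit 1) (nat_lit 6))
    (@En.n l41977 (nat_lit 9815) (nat_lit 12) (nat_lit 11))
    (@En.n l28 (nat_lit 10081) (nat_lit 13) (nat_lit 12))
    (@En.n l10885 (nat_lit 10590) (nat_lit 14) (nat_lit 7))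
    (@En.n l9182 (nat_lit 9697) (nat_lit 5) (nat_lit 9))
    (@En.n l29375 (nat_lit 9823) (nat_lit 15) (nat_lit 3))))
  (@Cl.mk (nat_lit 0x300090007000c000b0007000a000400070005000b00090006000d00090005) (nat_lit 0x609402000340240) (nat_lit 16) Lb.e (@T16.mk En
    (@En.n l37298 (nat_lit 9483) (nat_lit 0) (nat_lit 5))
    (@En.n l34820 (nat_lit 10076) (nat_lit 0) (nat_lit 9))
    (@En.n l37299 (nat_lit 11843) (nat_lit 2) (nat_lit 13))
    (@En.n l37300 (nat_lit 3306) (nat_lit 3) (nat_lit 6))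
    (@En.i (nat_lit 10497) (nat_lit 4) (nat_lit 9))
    (@En.n l21460 (nat_lit 11956) (nat_lit 13) (nat_lit 11))
    (@En.n l37301 (nat_lit 8147) (nat_lit 6) (nat_lit 5))
    (@En.n l19713 (nat_lit 10050) (nat_lit 11) (nat_lit 7))
    (@En.n l37302 (nat_lit 10086) (nat_lit 8) (nat_lit 4))
    (@En.n l37303 (nat_lit 4498) (nat_lit 8) (nat_lit 10))
    (@En.n l3083 (nat_lit 10046) (nat_lit 1) (nat_lit 7))
    (@En.n l37304 (nat_lit 9817) (nat_lit 12) (nat_lit 11))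
    (@En.n l37305 (nat_lit 10079) (nat_lit 13) (nat_lit 12))
    (@En.i (nat_lit 10589) (nat_lit 14) (nat_lit 7))
    (@En.n l10134 (nat_lit 4320) (nat_lit 5) (nat_lit 9))
    (@En.n l33104 (nat_lit 9822) (nat_lit 15) (nat_lit 3))))
noncomputable def a614 : T16 Cl := @T16.mk Cl
  (@Cl.mk (nat_lit 0x2000b0008000c0005000900050004000d000c0008000300070004000e000b) (nat_lit 0x8550400a36000b8) (nat_lit 16) Lb.e (@T16.mk En
    (@En.i (nat_lit 7958) (nat_lit 12) (nat_lit 11))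
    (@En.i (nat_lit 6553) (nat_lit 1) (nat_lit 14))
    (@En.i (nat_lit 6862) (nat_lit 2) (nat_lit 4))
    (@En.n l3517 (nat_lit 9417) (nat_lit 3) (nat_lit 7))
    (@En.n l152 (nat_lit 9825) (nat_lit 4) (nat_lit 3))
    (@En.i (nat_lit 9838) (nat_lit 0) (nat_lit 8))
    (@En.n l619 (nat_lit 9827) (nat_lit 7) (nat_lit 12))
    (@En.i (nat_lit 9341) (nat_lit 8) (nat_lit 13))
    (@En.n l3519 (nat_lit 5970) (nat_lit 8) (nat_lit 4))
    (@En.n l18 (nat_lit 1549) (nat_lit 9) (nat_lit 5))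
    (@En.i (nat_lit 6227) (nat_lit 11) (nat_lit 9))
    (@En.i (nat_lit 10453) (nat_lit 6) (nat_lit 5))
    (@En.i (nat_lit 1150) (nat_lit 13) (nat_lit 12))
    (@En.n l61 (nat_lit 9574) (nat_lit 14) (nat_lit 8))
    (@En.i (nat_lit 8836) (nat_lit 10) (nat_lit 11))
    (@En.n l7 (nat_lit 9824) (nat_lit 15) (nat_lit 2))))
  (@Cl.mk (nat_lit 0x2000b0009000c0005000900050004000d0007000d000300070003000e000b) (nat_lit 0x7650400a04000b1) (nat_lit 16) Lb.e (@T16.mk En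
    (@En.i (nat_lit 7956) (nat_lit 12) (nat_lit 11))
    (@En.i (nat_lit 6554) (nat_lit 1) (nat_lit 14))
    (@En.i (nat_lit 9827) (nat_lit 2) (nat_lit 3))
    (@En.n l2869 (nat_lit 3448) (nat_lit 3) (nat_lit 7))
    (@En.n l117 (nat_lit 9824) (nat_lit 4) (nat_lit 3))
    (@En.i (nat_lit 6413) (nat_lit 0) (nat_lit 13))
    (@En.i (nat_lit 9826) (nat_lit 6) (nat_lit 7))
    (@En.i (nat_lit 9340) (nat_lit 8) (nat_lit 13))
    (@En.n l5331 (nat_lit 5968) (nat_lit 8) (nat_lit 4))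
    (@En.n l18 (nat_lit 1548) (nat_lit 9) (nat_lit 5))
    (@En.n l2869 (nat_lit 6229) (nat_lit 11) (nat_lit 9))
    (@En.n l6081 (nat_lit 10449) (nat_lit 6) (nat_lit 5))
    (@En.i (nat_lit 1216) (nat_lit 13) (nat_lit 12))
    (@En.n l61 (nat_lit 9577) (nat_lit 14) (nat_lit 9))
    (@En.i (nat_lit 8835) (nat_lit 10) (nat_lit 11))
    (@En.n l7 (nat_lit 9825) (nat_lit 15) (nat_lit 2))))
  (@Cl.mk (nat_lit 0x2000a00090008000c0006000a000600040007000d000800060003000e000a) (nat_lit 0x776605000140011) (nat_lit 16) Lb.e (@T16.mk En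
    (@En.i (nat_lit 7957) (nat_lit 14) (nat_lit 10))
    (@En.i (nat_lit 2093) (nat_lit 1) (nat_lit 14))
    (@En.n l200 (nat_lit 9828) (nat_lit 2) (nat_lit 3))
    (@En.n l32259 (nat_lit 3452) (nat_lit 3) (nat_lit 6))
    (@En.i (nat_lit 9835) (nat_lit 4) (nat_lit 8))
    (@En.n l180 (nat_lit 2625) (nat_lit 6) (nat_lit 13))
    (@En.n l20187 (nat_lit 12540) (nat_lit 11) (nat_lit 7))
    (@En.n l5331 (nat_lit 5963) (nat_lit 7) (nat_lit 4))
    (@En.n l18 (nat_lit 1547) (nat_lit 8) (nat_lit 6))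
    (@En.n l2869 (nat_lit 6231) (nat_lit 10) (nat_lit 10))
    (@En.n l6081 (nat_lit 10624) (nat_lit 11) (nat_lit 6))
    (@En.n l3 (nat_lit 9825) (nat_lit 12) (nat_lit 12))
    (@En.n l3 (nat_lit 9824) (nat_lit 13) (nat_lit 8))
    (@En.n l61 (nat_lit 9579) (nat_lit 14) (nat_lit 9))
    (@En.i (nat_lit 8833) (nat_lit 12) (nat_lit 10))
    (@En.n l7 (nat_lit 9826) (nat_lit 15) (nat_lit 2))))
  (@Cl.mk (nat_lit 0x2000b0009000c0005000a00050004000c0007000d000600040003000e000b) (nat_lit 0x675030020500031) (nat_lit 16) Lb.e (@T16.mk En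
    (@En.i (nat_lit 7955) (nat_lit 14) (nat_lit 11))
    (@En.n l19237 (nat_lit 8562) (nat_lit 1) (nat_lit 14))
    (@En.n l11 (nat_lit 9825) (nat_lit 2) (nat_lit 3))
    (@En.n l10756 (nat_lit 6860) (nat_lit 3) (nat_lit 4))
    (@En.i (nat_lit 9829) (nat_lit 4) (nat_lit 6))
    (@En.n l19237 (nat_lit 6409) (nat_lit 6) (nat_lit 13))
    (@En.n l200 (nat_lit 9828) (nat_lit 6) (nat_lit 7))
    (@En.n l2940 (nat_lit 9833) (nat_lit 8) (nat_lit 12))
    (@En.n l19237 (nat_lit 6653) (nat_lit 8) (nat_lit 4))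
    (@En.n l18 (nat_lit 1546) (nat_lit 9) (nat_lit 5))
    (@En.n l2943 (nat_lit 6401) (nat_lit 11) (nat_lit 10))
    (@En.n l6081 (nat_lit 10448) (nat_lit 12) (nat_lit 5))
    (@En.i (nat_lit 1217) (nat_lit 13) (nat_lit 12))
    (@En.n l61 (nat_lit 9578) (nat_lit 14) (nat_lit 9))
    (@En.i (nat_lit 8834) (nat_lit 12) (nat_lit 11))
    (@En.n l7 (nat_lit 9827) (nat_lit 15) (nat_lit 2))))
  (@Cl.mk (nat_lit 0x2000a00090007000c0006000b000600040007000d000500090003000e000a) (nat_lit 0x670604000103071) (nat_lit 16) Lb.e (@T16.mk En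
    (@En.n l22651 (nat_lit 7959) (nat_lit 14) (nat_lit 10))
    (@En.n l77 (nat_lit 11495) (nat_lit 1) (nat_lit 14))
    (@En.n l19483 (nat_lit 9826) (nat_lit 2) (nat_lit 3))
    (@En.n l992 (nat_lit 6564) (nat_lit 3) (nat_lit 9))
    (@En.n l724 (nat_lit 9830) (nat_lit 4) (nat_lit 5))
    (@En.n l22652 (nat_lit 2623) (nat_lit 6) (nat_lit 13))
    (@En.n l12524 (nat_lit 12541) (nat_lit 11) (nat_lit 7))
    (@En.n l22652 (nat_lit 6652) (nat_lit 7) (nat_lit 4))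
    (@En.i (nat_lit 1542) (nat_lit 8) (nat_lit 6))
    (@En.n l22653 (nat_lit 6403) (nat_lit 10) (nat_lit 11))
    (@En.n l22654 (nat_lit 10626) (nat_lit 11) (nat_lit 6))
    (@En.n l22655 (nat_lit 9827) (nat_lit 12) (nat_lit 12))
    (@En.n l22655 (nat_lit 6862) (nat_lit 13) (nat_lit 7))
    (@En.i (nat_lit 9581) (nat_lit 14) (nat_lit 9))
    (@En.n l22626 (nat_lit 8832) (nat_lit 12) (nat_lit 10))
    (@En.n l3 (nat_lit 9828) (nat_lit 15) (nat_lit 2))))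
  (@Cl.mk (nat_lit 0x2000a0008000b0005000a000900060005000d0008000600030007000e000b) (nat_lit 0x555075007500081) (nat_lit 16) Lb.e (@T16.mk En
    (@En.i (nat_lit 7961) (nat_lit 13) (nat_lit 11))
    (@En.n l134 (nat_lit 11193) (nat_lit 1) (nat_lit 14))
    (@En.n l2943 (nat_lit 4547) (nat_lit 2) (nat_lit 7))
    (@En.n l117 (nat_lit 9831) (nat_lit 3) (nat_lit 3))
    (@En.i (nat_lit 8988) (nat_lit 0) (nat_lit 6))
    (@En.i (nat_lit 9830) (nat_lit 5) (nat_lit 8))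
    (@En.i (nat_lit 9832) (nat_lit 7) (nat_lit 13))
    (@En.n l1780 (nat_lit 4454) (nat_lit 7) (nat_lit 5))
    (@En.n l207 (nat_lit 2625) (nat_lit 8) (nat_lit 6))
    (@En.i (nat_lit 9825) (nat_lit 10) (nat_lit 9))
    (@En.n l2869 (nat_lit 11047) (nat_lit 11) (nat_lit 10))
    (@En.n l6081 (nat_lit 10947) (nat_lit 7) (nat_lit 5))
    (@En.i (nat_lit 3008) (nat_lit 7) (nat_lit 11))
    (@En.n l61 (nat_lit 9580) (nat_lit 14) (nat_lit 8))
    (@En.i (nat_lit 8837) (nat_lit 11) (nat_lit 10))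
    (@En.n l7 (nat_lit 9829) (nat_lit 15) (nat_lit 2))))
  (@Cl.mk (nat_lit 0x2000900080007000b0006000b000a000700050008000500090006000e000a) (nat_lit 0x560609600402026) (nat_lit 16) Lb.e (@T16.mk En
    (@En.i (nat_lit 9413) (nat_lit 12) (nat_lit 10))
    (@En.n l134 (nat_lit 11192) (nat_lit 1) (nat_lit 14))
    (@En.n l20184 (nat_lit 4534) (nat_lit 2) (nat_lit 6))
    (@En.n l20185 (nat_lit 11521) (nat_lit 3) (nat_lit 9))
    (@En.n l20186 (nat_lit 8474) (nat_lit 4) (nat_lit 5))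
    (@En.n l20187 (nat_lit 11335) (nat_lit 10) (nat_lit 8))
    (@En.n l1780 (nat_lit 4457) (nat_lit 6) (nat_lit 5))
    (@En.n l20188 (nat_lit 2624) (nat_lit 7) (nat_lit 7))
    (@En.i (nat_lit 9826) (nat_lit 9) (nat_lit 10))
    (@En.n l20184 (nat_lit 11048) (nat_lit 10) (nat_lit 11))
    (@En.n l6081 (nat_lit 11071) (nat_lit 11) (nat_lit 6))
    (@En.n l3 (nat_lit 9829) (nat_lit 12) (nat_lit 11))
    (@En.n l3 (nat_lit 9831) (nat_lit 13) (nat_lit 7))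
    (@En.n l200 (nat_lit 9582) (nat_lit 14) (nat_lit 8))
    (@En.i (nat_lit 8838) (nat_lit 3) (nat_lit 9))
    (@En.n l7 (nat_lit 9830) (nat_lit 15) (nat_lit 2))))
  (@Cl.mk (nat_lit 0x2000a0007000b0005000b000900060005000d0005000900030007000e000b) (nat_lit 0x405095007070087) (nat_lit 16) Lb.e (@T16.mk En
    (@En.i (nat_lit 9412) (nat_lit 13) (nat_lit 11))
    (@En.n l134 (nat_lit 11194) (nat_lit 1) (nat_lit 14))
    (@En.n l3517 (nat_lit 9415) (nat_lit 2) (nat_lit 7))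
    (@En.n l152 (nat_lit 9829) (nat_lit 3) (nat_lit 3))
    (@En.i (nat_lit 11518) (nat_lit 0) (nat_lit 9))
    (@En.n l97 (nat_lit 9261) (nat_lit 5) (nat_lit 5))
    (@En.n l7797 (nat_lit 9834) (nat_lit 7) (nat_lit 13))
    (@En.n l10753 (nat_lit 4452) (nat_lit 7) (nat_lit 5))
    (@En.n l18737 (nat_lit 2623) (nat_lit 8) (nat_lit 6))
    (@En.i (nat_lit 9824) (nat_lit 10) (nat_lit 9))
    (@En.n l18738 (nat_lit 11044) (nat_lit 11) (nat_lit 11))
    (@En.n l18739 (nat_lit 10945) (nat_lit 7) (nat_lit 5))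
    (@En.i (nat_lit 3007) (nat_lit 13) (nat_lit 11))
    (@En.n l61 (nat_lit 8124) (nat_lit 14) (nat_lit 7))
    (@En.i (nat_lit 8839) (nat_lit 11) (nat_lit 10))
    (@En.n l7 (nat_lit 9831) (nat_lit 15) (nat_lit 2))))
  (@Cl.mk (nat_lit 0x2000a000900070005000b00090006000d00070005000300090007000e000b) (nat_lit 0x360033060003017) (nat_lit 16) Lb.e (@T16.mk En
    (@En.n l1111 (nat_lit 8750) (nat_lit 12) (nat_lit 11))
    (@En.n l32205 (nat_lit 4442) (nat_lit 1) (nat_lit 14))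
    (@En.n l2125 (nat_lit 7101) (nat_lit 2) (nat_lit 7))
    (@En.n l152 (nat_lit 9830) (nat_lit 3) (nat_lit 9))
    (@En.n l32206 (nat_lit 9834) (nat_lit 4) (nat_lit 3))
    (@En.n l15963 (nat_lit 8190) (nat_lit 0) (nat_lit 5))
    (@En.n l32207 (nat_lit 7723) (nat_lit 6) (nat_lit 7))
    (@En.n l16601 (nat_lit 8134) (nat_lit 8) (nat_lit 13))
    (@En.n l32208 (nat_lit 8717) (nat_lit 8) (nat_lit 6))
    (@En.i (nat_lit 9340) (nat_lit 10) (nat_lit 9))
    (@En.n l32209 (nat_lit 11049) (nat_lit 11) (nat_lit 11))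
    (@En.n l201 (nat_lit 11829) (nat_lit 12) (nat_lit 5))
    (@En.i (nat_lit 9153) (nat_lit 13) (nat_lit 7))
    (@En.n l899 (nat_lit 8652) (nat_lit 14) (nat_lit 9))
    (@En.i (nat_lit 10920) (nat_lit 10) (nat_lit 10))
    (@En.n l7 (nat_lit 9832) (nat_lit 15) (nat_lit 2))))
  (@Cl.mk (nat_lit 0x2000b000a00070005000b0005000c0006000c0005000400090004000e000b) (nat_lit 0x360030104004081) (nat_lit 16) Lb.e (@T16.mk En
    (@En.n l68 (nat_lit 8754) (nat_lit 12) (nat_lit 11))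
    (@En.i (nat_lit 4441) (nat_lit 1) (nat_lit 14))
    (@En.n l32450 (nat_lit 9345) (nat_lit 2) (nat_lit 4))
    (@En.n l29057 (nat_lit 9828) (nat_lit 3) (nat_lit 9))
    (@En.n l50 (nat_lit 10244) (nat_lit 4) (nat_lit 4))
    (@En.n l3429 (nat_lit 9832) (nat_lit 5) (nat_lit 5))
    (@En.i (nat_lit 8714) (nat_lit 7) (nat_lit 12))
    (@En.n l20731 (nat_lit 12542) (nat_lit 7) (nat_lit 6))
    (@En.i (nat_lit 8131) (nat_lit 9) (nat_lit 12))
    (@En.n l29061 (nat_lit 7520) (nat_lit 9) (nat_lit 5))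
    (@En.n l32451 (nat_lit 9781) (nat_lit 11) (nat_lit 11))
    (@En.n l29061 (nat_lit 9171) (nat_lit 12) (nat_lit 5))
    (@En.n l3429 (nat_lit 8675) (nat_lit 13) (nat_lit 7))
    (@En.n l32452 (nat_lit 8650) (nat_lit 14) (nat_lit 10))
    (@En.n l8015 (nat_lit 10305) (nat_lit 12) (nat_lit 11))
    (@En.n l67 (nat_lit 9833) (nat_lit 15) (nat_lit 2))))
  (@Cl.mk (nat_lit 0x2000a000800070005000c00090006000d00040008000300090007000e000b) (nat_lit 0x8600830602010c1) (nat_lit 16) Lb.e (@T16.mk En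
    (@En.n l68 (nat_lit 8749) (nat_lit 12) (nat_lit 11))
    (@En.n l20501 (nat_lit 6565) (nat_lit 1) (nat_lit 14))
    (@En.n l20827 (nat_lit 7097) (nat_lit 2) (nat_lit 7))
    (@En.n l17618 (nat_lit 9505) (nat_lit 3) (nat_lit 9))
    (@En.n l20828 (nat_lit 9832) (nat_lit 4) (nat_lit 3))
    (@En.n l6784 (nat_lit 6908) (nat_lit 0) (nat_lit 8))
    (@En.n l20829 (nat_lit 9837) (nat_lit 6) (nat_lit 4))
    (@En.n l20830 (nat_lit 8135) (nat_lit 8) (nat_lit 13))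
    (@En.i (nat_lit 10974) (nat_lit 8) (nat_lit 6))
    (@En.n l17618 (nat_lit 9341) (nat_lit 10) (nat_lit 9))
    (@En.n l645 (nat_lit 11051) (nat_lit 11) (nat_lit 12))
    (@En.n l9715 (nat_lit 11827) (nat_lit 12) (nat_lit 5))
    (@En.n l17 (nat_lit 9154) (nat_lit 13) (nat_lit 7))
    (@En.n l9715 (nat_lit 8718) (nat_lit 14) (nat_lit 8))
    (@En.n l20831 (nat_lit 10922) (nat_lit 10) (nat_lit 10))
    (@En.n l67 (nat_lit 9834) (nat_lit 15) (nat_lit 2))))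
  (@Cl.mk (nat_lit 0x20009000800080007000c0007000b000700040008000800050009000e0009) (nat_lit 0x712070300430192) (nat_lit 16) Lb.e (@T16.mk En
    (@En.n l32485 (nat_lit 9616) (nat_lit 10) (nat_lit 9))
    (@En.n l27329 (nat_lit 6836) (nat_lit 1) (nat_lit 14))
    (@En.n l32486 (nat_lit 5909) (nat_lit 2) (nat_lit 9))
    (@En.n l32487 (nat_lit 9854) (nat_lit 3) (nat_lit 5))
    (@En.n l26528 (nat_lit 9922) (nat_lit 8) (nat_lit 8))
    (@En.n l31726 (nat_lit 9933) (nat_lit 5) (nat_lit 8))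
    (@En.n l5331 (nat_lit 6937) (nat_lit 6) (nat_lit 4))
    (@En.n l18 (nat_lit 1588) (nat_lit 7) (nat_lit 7))
    (@En.n l2869 (nat_lit 6141) (nat_lit 9) (nat_lit 11))
    (@En.n l32488 (nat_lit 11275) (nat_lit 10) (nat_lit 7))
    (@En.n l3548 (nat_lit 9520) (nat_lit 11) (nat_lit 12))
    (@En.n l32489 (nat_lit 9828) (nat_lit 12) (nat_lit 7))
    (@En.n l3 (nat_lit 9838) (nat_lit 8) (nat_lit 8))
    (@En.n l32490 (nat_lit 9584) (nat_lit 14) (nat_lit 8))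
    (@En.i (nat_lit 9840) (nat_lit 8) (nat_lit 9))
    (@En.n l7 (nat_lit 9835) (nat_lit 15) (nat_lit 2))))
  (@Cl.mk (nat_lit 0x2000b000800070005000c0005000c000b00040008000400090005000e000b) (nat_lit 0x820080a20303041) (nat_lit 16) Lb.e (@T16.mk En
    (@En.n l68 (nat_lit 8753) (nat_lit 10) (nat_lit 11))
    (@En.n l13196 (nat_lit 6570) (nat_lit 1) (nat_lit 14))
    (@En.n l19248 (nat_lit 8476) (nat_lit 2) (nat_lit 5))
    (@En.n l19249 (nat_lit 9351) (nat_lit 3) (nat_lit 9))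
    (@En.i (nat_lit 9833) (nat_lit 4) (nat_lit 4))
    (@En.n l6784 (nat_lit 8259) (nat_lit 5) (nat_lit 8))
    (@En.n l19250 (nat_lit 9834) (nat_lit 6) (nat_lit 4))
    (@En.n l217 (nat_lit 10241) (nat_lit 8) (nat_lit 11))
    (@En.n l2297 (nat_lit 8132) (nat_lit 9) (nat_lit 12))
    (@En.n l16459 (nat_lit 7144) (nat_lit 9) (nat_lit 5))
    (@En.n l9713 (nat_lit 11383) (nat_lit 11) (nat_lit 12))
    (@En.n l9715 (nat_lit 9177) (nat_lit 12) (nat_lit 5))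
    (@En.n l7899 (nat_lit 9158) (nat_lit 13) (nat_lit 7))
    (@En.n l9715 (nat_lit 8679) (nat_lit 14) (nat_lit 8))
    (@En.n l8015 (nat_lit 10302) (nat_lit 10) (nat_lit 11))
    (@En.n l67 (nat_lit 9836) (nat_lit 15) (nat_lit 2))))
  (@Cl.mk (nat_lit 0x20009000800070005000c000b000a000700040008000500090006000e000b) (nat_lit 0x4300a43006020c1) (nat_lit 16) Lb.e (@T16.mk En
    (@En.n l217 (nat_lit 8752) (nat_lit 10) (nat_lit 11))
    (@En.n l19322 (nat_lit 6566) (nat_lit 1) (nat_lit 14))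
    (@En.n l29600 (nat_lit 7986) (nat_lit 2) (nat_lit 6))
    (@En.n l29601 (nat_lit 11520) (nat_lit 3) (nat_lit 9))
    (@En.n l3203 (nat_lit 8199) (nat_lit 4) (nat_lit 5))
    (@En.n l6001 (nat_lit 11747) (nat_lit 5) (nat_lit 8))
    (@En.n l3203 (nat_lit 9836) (nat_lit 6) (nat_lit 4))
    (@En.n l27633 (nat_lit 10973) (nat_lit 7) (nat_lit 7))
    (@En.n l29602 (nat_lit 10242) (nat_lit 9) (nat_lit 10))
    (@En.n l29603 (nat_lit 9832) (nat_lit 10) (nat_lit 11))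
    (@En.n l763 (nat_lit 11053) (nat_lit 11) (nat_lit 12))
    (@En.i (nat_lit 10145) (nat_lit 12) (nat_lit 5))
    (@En.n l29604 (nat_lit 9156) (nat_lit 13) (nat_lit 7))
    (@En.n l29601 (nat_lit 8744) (nat_lit 14) (nat_lit 8))
    (@En.n l29605 (nat_lit 10071) (nat_lit 2) (nat_lit 9))
    (@En.n l50 (nat_lit 9837) (nat_lit 15) (nat_lit 2))))
  (@Cl.mk (nat_lit 0x20006000a000e000a0002000a00080006000c0006000a00060004000e0008) (nat_lit 0x7a208106030025) (nat_lit 16) Lb.e (@T16.mk En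
    (@En.n l97 (nat_lit 9835) (nat_lit 5) (nat_lit 8))
    (@En.n l9969 (nat_lit 6503) (nat_lit 1) (nat_lit 14))
    (@En.n l3519 (nat_lit 6931) (nat_lit 2) (nat_lit 4))
    (@En.n l18 (nat_lit 1704) (nat_lit 8) (nat_lit 6))
    (@En.i (nat_lit 6133) (nat_lit 4) (nat_lit 10))
    (@En.n l16996 (nat_lit 11272) (nat_lit 5) (nat_lit 6))
    (@En.n l117 (nat_lit 9518) (nat_lit 7) (nat_lit 12))
    (@En.i (nat_lit 7351) (nat_lit 7) (nat_lit 6))
    (@En.n l61 (nat_lit 7630) (nat_lit 14) (nat_lit 8))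
    (@En.i (nat_lit 9839) (nat_lit 10) (nat_lit 10))
    (@En.n l7 (nat_lit 9838) (nat_lit 10) (nat_lit 2))
    (@En.i (nat_lit 9617) (nat_lit 12) (nat_lit 10))
    (@En.n l9970 (nat_lit 6901) (nat_lit 13) (nat_lit 14))
    (@En.n l7011 (nat_lit 7143) (nat_lit 2) (nat_lit 10))
    (@En.n l3517 (nat_lit 9852) (nat_lit 3) (nat_lit 6))
    (@En.n l67 (nat_lit 9838) (nat_lit 15) (nat_lit 2))))
  (@Cl.mk (nat_lit 0x20007000b0007000b000a00070005000b00050009000600090005000e0009) (nat_lit 0x30870040305036) (nat_lit 16) Lb.e (@T16.mk En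
    (@En.n l97 (nat_lit 9840) (nat_lit 14) (nat_lit 9))
    (@En.n l32535 (nat_lit 11280) (nat_lit 1) (nat_lit 14))
    (@En.n l11386 (nat_lit 9617) (nat_lit 2) (nat_lit 5))
    (@En.n l1723 (nat_lit 7998) (nat_lit 3) (nat_lit 9))
    (@En.n l6042 (nat_lit 1705) (nat_lit 4) (nat_lit 6))
    (@En.i (nat_lit 9636) (nat_lit 5) (nat_lit 9))
    (@En.n l32536 (nat_lit 11274) (nat_lit 6) (nat_lit 5))
    (@En.n l1865 (nat_lit 9522) (nat_lit 8) (nat_lit 11))
    (@En.n l3491 (nat_lit 7353) (nat_lit 8) (nat_lit 5))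
    (@En.n l30084 (nat_lit 10306) (nat_lit 10) (nat_lit 7))
    (@En.n l32537 (nat_lit 7191) (nat_lit 11) (nat_lit 10))
    (@En.n l30084 (nat_lit 9880) (nat_lit 12) (nat_lit 11))
    (@En.n l32239 (nat_lit 4534) (nat_lit 13) (nat_lit 7))
    (@En.n l3491 (nat_lit 7147) (nat_lit 14) (nat_lit 11))
    (@En.n l3517 (nat_lit 9841) (nat_lit 13) (nat_lit 7))
    (@En.n l67 (nat_lit 9839) (nat_lit 15) (nat_lit 2))))
noncomputable def a615 : T16 Cl := @T16.mk Cl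
  (@Cl.mk (nat_lit 0x5000900090006000a0006000a0009000700070006000b0006000a0007000a) (nat_lit 0x570301600050305) (nat_lit 16) Lb.e (@T16.mk En
    (@En.n l1723 (nat_lit 7719) (nat_lit 8) (nat_lit 10))
    (@En.n l6042 (nat_lit 1708) (nat_lit 1) (nat_lit 7))
    (@En.n l2869 (nat_lit 9640) (nat_lit 9) (nat_lit 10))
    (@En.n l42981 (nat_lit 11277) (nat_lit 6) (nat_lit 6))
    (@En.n l3548 (nat_lit 9024) (nat_lit 9) (nat_lit 11))
    (@En.n l42982 (nat_lit 8832) (nat_lit 10) (nat_lit 6))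
    (@En.n l3 (nat_lit 9839) (nat_lit 9) (nat_lit 7))
    (@En.n l42983 (nat_lit 11090) (nat_lit 9) (nat_lit 7))
    (@En.n l42984 (nat_lit 7189) (nat_lit 7) (nat_lit 9))
    (@En.n l42983 (nat_lit 7190) (nat_lit 9) (nat_lit 10))
    (@En.n l42985 (nat_lit 4528) (nat_lit 2) (nat_lit 6))
    (@En.n l42986 (nat_lit 6299) (nat_lit 9) (nat_lit 10))
    (@En.n l42987 (nat_lit 9842) (nat_lit 10) (nat_lit 6))
    (@En.n l42988 (nat_lit 9905) (nat_lit 7) (nat_lit 9))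
    (@En.n l36025 (nat_lit 10623) (nat_lit 10) (nat_lit 9))
    (@En.n l42989 (nat_lit 9616) (nat_lit 15) (nat_lit 5))))
  (@Cl.mk (nat_lit 0x4000a0007000b0006000b000900060005000a00050009000c0007000a0006) (nat_lit 0x808026005047050) (nat_lit 16) Lb.e (@T16.mk En
    (@En.n l41630 (nat_lit 9618) (nat_lit 0) (nat_lit 6))
    (@En.n l38177 (nat_lit 8001) (nat_lit 8) (nat_lit 10))
    (@En.n l21574 (nat_lit 9840) (nat_lit 1) (nat_lit 7))
    (@En.n l38177 (nat_lit 6356) (nat_lit 6) (nat_lit 12))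
    (@En.n l40379 (nat_lit 9878) (nat_lit 10) (nat_lit 9))
    (@En.n l29789 (nat_lit 9848) (nat_lit 5) (nat_lit 5))
    (@En.n l345 (nat_lit 9695) (nat_lit 10) (nat_lit 10))
    (@En.n l38177 (nat_lit 10567) (nat_lit 11) (nat_lit 5))
    (@En.n l41631 (nat_lit 10305) (nat_lit 2) (nat_lit 6))
    (@En.n l41632 (nat_lit 9845) (nat_lit 1) (nat_lit 9))
    (@En.n l41631 (nat_lit 4321) (nat_lit 9) (nat_lit 11))
    (@En.n l11438 (nat_lit 4537) (nat_lit 5) (nat_lit 6))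
    (@En.n l41633 (nat_lit 9056) (nat_lit 8) (nat_lit 11))
    (@En.n l41634 (nat_lit 9843) (nat_lit 14) (nat_lit 7))
    (@En.n l41635 (nat_lit 9842) (nat_lit 11) (nat_lit 10))
    (@En.n l41636 (nat_lit 10641) (nat_lit 12) (nat_lit 4))))
  (@Cl.mk (nat_lit 0x50008000b0006000a0006000a0005000a00080006000b0006000a0006000a) (nat_lit 0x250707025050604) (nat_lit 16) Lb.e (@T16.mk En
    (@En.n l35043 (nat_lit 9804) (nat_lit 9) (nat_lit 10))
    (@En.n l37057 (nat_lit 9850) (nat_lit 1) (nat_lit 6))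
    (@En.n l43650 (nat_lit 9691) (nat_lit 9) (nat_lit 10))
    (@En.n l43651 (nat_lit 8838) (nat_lit 1) (nat_lit 6))
    (@En.n l43652 (nat_lit 9843) (nat_lit 9) (nat_lit 11))
    (@En.n l43653 (nat_lit 11086) (nat_lit 10) (nat_lit 6))
    (@En.n l11 (nat_lit 9846) (nat_lit 8) (nat_lit 8))
    (@En.n l43654 (nat_lit 4320) (nat_lit 10) (nat_lit 10))
    (@En.n l43655 (nat_lit 4536) (nat_lit 8) (nat_lit 5))
    (@En.i (nat_lit 9647) (nat_lit 9) (nat_lit 10))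
    (@En.n l40135 (nat_lit 5280) (nat_lit 1) (nat_lit 6))
    (@En.n l3327 (nat_lit 10635) (nat_lit 9) (nat_lit 10))
    (@En.n l43656 (nat_lit 9622) (nat_lit 1) (nat_lit 6))
    (@En.n l43650 (nat_lit 11089) (nat_lit 7) (nat_lit 11))
    (@En.n l43657 (nat_lit 9905) (nat_lit 10) (nat_lit 8))
    (@En.n l10995 (nat_lit 9851) (nat_lit 15) (nat_lit 5))))
  (@Cl.mk (nat_lit 0x40007000b0005000b0008000b00050009000500090005000c0008000b0007) (nat_lit 0x80254040408360) (nat_lit 16) Lb.e (@T16.mk En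
    (@En.i (nat_lit 9623) (nat_lit 0) (nat_lit 7))
    (@En.n l35208 (nat_lit 11156) (nat_lit 7) (nat_lit 11))
    (@En.n l41648 (nat_lit 9842) (nat_lit 14) (nat_lit 8))
    (@En.n l29362 (nat_lit 9841) (nat_lit 3) (nat_lit 12))
    (@En.n l42604 (nat_lit 9847) (nat_lit 4) (nat_lit 5))
    (@En.n l14270 (nat_lit 9879) (nat_lit 10) (nat_lit 9))
    (@En.n l2125 (nat_lit 9849) (nat_lit 6) (nat_lit 5))
    (@En.n l9941 (nat_lit 9692) (nat_lit 10) (nat_lit 9))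
    (@En.n l41986 (nat_lit 10566) (nat_lit 8) (nat_lit 5))
    (@En.i (nat_lit 10328) (nat_lit 7) (nat_lit 11))
    (@En.n l30408 (nat_lit 9844) (nat_lit 1) (nat_lit 8))
    (@En.n l9836 (nat_lit 4319) (nat_lit 12) (nat_lit 11))
    (@En.n l42605 (nat_lit 74) (nat_lit 5) (nat_lit 5))
    (@En.n l3593 (nat_lit 9066) (nat_lit 8) (nat_lit 11))
    (@En.i (nat_lit 5279) (nat_lit 11) (nat_lit 7))
    (@En.n l42606 (nat_lit 10642) (nat_lit 15) (nat_lit 4))))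
  (@Cl.mk (nat_lit 0x40008000b00080005000b00080005000b000800050008000c00050008000b) (nat_lit 0x494046071019043) (nat_lit 16) Lb.e (@T16.mk En
    (@En.n l12645 (nat_lit 7673) (nat_lit 7) (nat_lit 11))
    (@En.n l4758 (nat_lit 4646) (nat_lit 10) (nat_lit 8))
    (@En.n l42560 (nat_lit 4536) (nat_lit 15) (nat_lit 5))
    (@En.i (nat_lit 9065) (nat_lit 7) (nat_lit 12))
    (@En.n l43599 (nat_lit 5281) (nat_lit 10) (nat_lit 8))
    (@En.n l97 (nat_lit 10640) (nat_lit 2) (nat_lit 5))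
    (@En.n l35053 (nat_lit 4319) (nat_lit 0) (nat_lit 8))
    (@En.n l41126 (nat_lit 9843) (nat_lit 1) (nat_lit 11))
    (@En.n l5756 (nat_lit 11776) (nat_lit 2) (nat_lit 5))
    (@En.n l897 (nat_lit 9846) (nat_lit 0) (nat_lit 8))
    (@En.n l617 (nat_lit 9845) (nat_lit 11) (nat_lit 11))
    (@En.n l17 (nat_lit 8563) (nat_lit 2) (nat_lit 5))
    (@En.n l35053 (nat_lit 9876) (nat_lit 13) (nat_lit 8))
    (@En.n l11403 (nat_lit 8561) (nat_lit 7) (nat_lit 11))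
    (@En.n l43669 (nat_lit 9690) (nat_lit 11) (nat_lit 8))
    (@En.n l37962 (nat_lit 10565) (nat_lit 15) (nat_lit 4))))
  (@Cl.mk (nat_lit 0x40009000c0008000b00070004000a00070005000b0008000c000600090005) (nat_lit 0x4a3300600729050) (nat_lit 16) Lb.e (@T16.mk En
    (@En.n l41535 (nat_lit 10896) (nat_lit 0) (nat_lit 5))
    (@En.n l4758 (nat_lit 4647) (nat_lit 9) (nat_lit 9))
    (@En.n l41536 (nat_lit 4538) (nat_lit 1) (nat_lit 6))
    (@En.i (nat_lit 9058) (nat_lit 7) (nat_lit 12))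
    (@En.n l61 (nat_lit 9844) (nat_lit 4) (nat_lit 8))
    (@En.n l1643 (nat_lit 9846) (nat_lit 12) (nat_lit 11))
    (@En.n l28611 (nat_lit 10639) (nat_lit 11) (nat_lit 5))
    (@En.n l37337 (nat_lit 4321) (nat_lit 14) (nat_lit 7))
    (@En.n l40236 (nat_lit 9841) (nat_lit 1) (nat_lit 10))
    (@En.n l8029 (nat_lit 11775) (nat_lit 9) (nat_lit 4))
    (@En.n l4758 (nat_lit 7189) (nat_lit 0) (nat_lit 7))
    (@En.n l28611 (nat_lit 6357) (nat_lit 7) (nat_lit 11))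
    (@En.n l30794 (nat_lit 9874) (nat_lit 13) (nat_lit 8))
    (@En.n l41537 (nat_lit 8562) (nat_lit 6) (nat_lit 12))
    (@En.n l29017 (nat_lit 9694) (nat_lit 11) (nat_lit 9))
    (@En.n l28611 (nat_lit 10568) (nat_lit 12) (nat_lit 4))))
  (@Cl.mk (nat_lit 0x4000b0007000b0007000b000500080005000b00050009000c000900050008) (nat_lit 0x606080404053505) (nat_lit 16) Lb.e (@T16.mk En
    (@En.n l3327 (nat_lit 9903) (nat_lit 10) (nat_lit 8))
    (@En.n l10995 (nat_lit 10963) (nat_lit 1) (nat_lit 5))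
    (@En.i (nat_lit 9805) (nat_lit 0) (nat_lit 9))
    (@En.i (nat_lit 8560) (nat_lit 6) (nat_lit 12))
    (@En.n l19493 (nat_lit 9689) (nat_lit 10) (nat_lit 9))
    (@En.n l3348 (nat_lit 10555) (nat_lit 5) (nat_lit 5))
    (@En.n l998 (nat_lit 9844) (nat_lit 0) (nat_lit 11))
    (@En.n l50 (nat_lit 11094) (nat_lit 1) (nat_lit 5))
    (@En.i (nat_lit 4649) (nat_lit 10) (nat_lit 8))
    (@En.n l38420 (nat_lit 70) (nat_lit 1) (nat_lit 5))
    (@En.i (nat_lit 9645) (nat_lit 8) (nat_lit 11))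
    (@En.n l13717 (nat_lit 4935) (nat_lit 1) (nat_lit 7))
    (@En.n l3327 (nat_lit 10634) (nat_lit 8) (nat_lit 11))
    (@En.n l40585 (nat_lit 4320) (nat_lit 14) (nat_lit 7))
    (@En.i (nat_lit 9842) (nat_lit 13) (nat_lit 11))
    (@En.n l117 (nat_lit 11085) (nat_lit 15) (nat_lit 4))))
  (@Cl.mk (nat_lit 0x4000a000a0005000a0008000b00060006000a00060005000c0008000b0006) (nat_lit 0x870533005008260) (nat_lit 16) Lb.e (@T16.mk En
    (@En.n l31670 (nat_lit 9859) (nat_lit 0) (nat_lit 6))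
    (@En.i (nat_lit 7737) (nat_lit 7) (nat_lit 11))
    (@En.n l41619 (nat_lit 9851) (nat_lit 14) (nat_lit 8))
    (@En.n l41620 (nat_lit 6353) (nat_lit 3) (nat_lit 12))
    (@En.i (nat_lit 11399) (nat_lit 11) (nat_lit 5))
    (@En.n l41621 (nat_lit 10522) (nat_lit 5) (nat_lit 6))
    (@En.n l17133 (nat_lit 8780) (nat_lit 9) (nat_lit 10))
    (@En.n l152 (nat_lit 8562) (nat_lit 10) (nat_lit 6))
    (@En.n l3540 (nat_lit 9841) (nat_lit 8) (nat_lit 6))
    (@En.n l22950 (nat_lit 9213) (nat_lit 7) (nat_lit 11))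
    (@En.n l41622 (nat_lit 8563) (nat_lit 8) (nat_lit 8))
    (@En.n l22950 (nat_lit 10961) (nat_lit 10) (nat_lit 10))
    (@En.n l6080 (nat_lit 11446) (nat_lit 3) (nat_lit 5))
    (@En.n l41623 (nat_lit 11180) (nat_lit 6) (nat_lit 10))
    (@En.n l41624 (nat_lit 9848) (nat_lit 1) (nat_lit 10))
    (@En.n l18 (nat_lit 11178) (nat_lit 12) (nat_lit 4))))
  (@Cl.mk (nat_lit 0x400090007000a0006000b0007000a0007000600050009000c0006000a0009) (nat_lit 0x1040600024070) (nat_lit 16) Lb.e (@T16.mk En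
    (@En.n l4428 (nat_lit 11279) (nat_lit 0) (nat_lit 9))
    (@En.n l42012 (nat_lit 12016) (nat_lit 1) (nat_lit 10))
    (@En.n l42013 (nat_lit 11277) (nat_lit 4) (nat_lit 6))
    (@En.n l10436 (nat_lit 7727) (nat_lit 6) (nat_lit 12))
    (@En.n l4425 (nat_lit 11944) (nat_lit 10) (nat_lit 9))
    (@En.n l28 (nat_lit 11947) (nat_lit 11) (nat_lit 5))
    (@En.n l10436 (nat_lit 10617) (nat_lit 10) (nat_lit 6))
    (@En.n l42014 (nat_lit 10308) (nat_lit 1) (nat_lit 7))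
    (@En.i (nat_lit 12187) (nat_lit 8) (nat_lit 10))
    (@En.n l42015 (nat_lit 6555) (nat_lit 2) (nat_lit 7))
    (@En.n l9384 (nat_lit 10860) (nat_lit 9) (nat_lit 11))
    (@En.n l4427 (nat_lit 9842) (nat_lit 5) (nat_lit 6))
    (@En.n l9384 (nat_lit 7944) (nat_lit 8) (nat_lit 10))
    (@En.n l50 (nat_lit 9849) (nat_lit 14) (nat_lit 7))
    (@En.n l217 (nat_lit 9850) (nat_lit 11) (nat_lit 9))
    (@En.n l42016 (nat_lit 11606) (nat_lit 15) (nat_lit 4))))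
  (@Cl.mk (nat_lit 0x40007000a0005000b00060009000c0006000500090004000c0007000b000a) (nat_lit 0x30106300205085) (nat_lit 16) Lb.e (@T16.mk En
    (@En.n l4428 (nat_lit 11756) (nat_lit 0) (nat_lit 10))
    (@En.n l11872 (nat_lit 12015) (nat_lit 1) (nat_lit 11))
    (@En.i (nat_lit 9850) (nat_lit 14) (nat_lit 7))
    (@En.i (nat_lit 9848) (nat_lit 3) (nat_lit 12))
    (@En.n l25041 (nat_lit 10522) (nat_lit 4) (nat_lit 4))
    (@En.n l4425 (nat_lit 11946) (nat_lit 10) (nat_lit 9))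
    (@En.n l28 (nat_lit 11766) (nat_lit 11) (nat_lit 5))
    (@En.i (nat_lit 10842) (nat_lit 7) (nat_lit 6))
    (@En.n l4427 (nat_lit 10333) (nat_lit 6) (nat_lit 12))
    (@En.i (nat_lit 12185) (nat_lit 9) (nat_lit 9))
    (@En.n l2257 (nat_lit 6559) (nat_lit 5) (nat_lit 6))
    (@En.n l37465 (nat_lit 7554) (nat_lit 12) (nat_lit 11))
    (@En.n l4427 (nat_lit 9846) (nat_lit 7) (nat_lit 5))
    (@En.n l168 (nat_lit 10757) (nat_lit 8) (nat_lit 10))
    (@En.i (nat_lit 7838) (nat_lit 11) (nat_lit 7))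
    (@En.n l17 (nat_lit 11605) (nat_lit 15) (nat_lit 4))))
  (@Cl.mk (nat_lit 0x40007000b000a0009000600090005000a000600090007000c00070006000a) (nat_lit 0x84703010604003) (nat_lit 16) Lb.e (@T16.mk En
    (@En.n l4425 (nat_lit 11948) (nat_lit 0) (nat_lit 10))
    (@En.n l28 (nat_lit 11768) (nat_lit 1) (nat_lit 6))
    (@En.n l16617 (nat_lit 10733) (nat_lit 0) (nat_lit 7))
    (@En.n l18 (nat_lit 9849) (nat_lit 8) (nat_lit 12))
    (@En.n l29296 (nat_lit 11610) (nat_lit 9) (nat_lit 7))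
    (@En.i (nat_lit 12189) (nat_lit 9) (nat_lit 9))
    (@En.n l29297 (nat_lit 6922) (nat_lit 6) (nat_lit 6))
    (@En.n l16617 (nat_lit 7555) (nat_lit 10) (nat_lit 10))
    (@En.n l29298 (nat_lit 4320) (nat_lit 8) (nat_lit 5))
    (@En.n l29297 (nat_lit 11735) (nat_lit 9) (nat_lit 9))
    (@En.n l11873 (nat_lit 7841) (nat_lit 1) (nat_lit 6))
    (@En.n l29299 (nat_lit 11615) (nat_lit 7) (nat_lit 9))
    (@En.n l4428 (nat_lit 11757) (nat_lit 6) (nat_lit 10))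
    (@En.n l29299 (nat_lit 11984) (nat_lit 8) (nat_lit 11))
    (@En.n l29300 (nat_lit 11280) (nat_lit 11) (nat_lit 7))
    (@En.n l29301 (nat_lit 10523) (nat_lit 15) (nat_lit 4))))
  (@Cl.mk (nat_lit 0x50008000b0005000a000900090005000900080006000b00070007000b0007) (nat_lit 0x140846053040070) (nat_lit 16) Lb.e (@T16.mk En
    (@En.n l38853 (nat_lit 10523) (nat_lit 0) (nat_lit 7))
    (@En.i (nat_lit 8782) (nat_lit 8) (nat_lit 11))
    (@En.n l11401 (nat_lit 11495) (nat_lit 9) (nat_lit 7))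
    (@En.n l38854 (nat_lit 9840) (nat_lit 6) (nat_lit 7))
    (@En.n l38855 (nat_lit 9847) (nat_lit 9) (nat_lit 11))
    (@En.n l37831 (nat_lit 11179) (nat_lit 10) (nat_lit 6))
    (@En.n l50 (nat_lit 10963) (nat_lit 8) (nat_lit 8))
    (@En.n l37831 (nat_lit 10962) (nat_lit 10) (nat_lit 9))
    (@En.n l17 (nat_lit 11443) (nat_lit 8) (nat_lit 5))
    (@En.n l8906 (nat_lit 10971) (nat_lit 7) (nat_lit 9))
    (@En.n l11403 (nat_lit 11944) (nat_lit 7) (nat_lit 9))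
    (@En.n l38856 (nat_lit 11934) (nat_lit 10) (nat_lit 10))
    (@En.n l38857 (nat_lit 9861) (nat_lit 15) (nat_lit 5))
    (@En.n l23473 (nat_lit 5860) (nat_lit 7) (nat_lit 11))
    (@En.n l38858 (nat_lit 1681) (nat_lit 10) (nat_lit 8))
    (@En.n l23473 (nat_lit 11401) (nat_lit 11) (nat_lit 5))))
  (@Cl.mk (nat_lit 0x2000900070006000b0006000a000d00070005000300090006000a000e000a) (nat_lit 0x700403200050753) (nat_lit 16) Lb.e (@T16.mk En
    (@En.n l29069 (nat_lit 9618) (nat_lit 11) (nat_lit 10))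
    (@En.n l28284 (nat_lit 6913) (nat_lit 1) (nat_lit 14))
    (@En.n l17450 (nat_lit 7834) (nat_lit 2) (nat_lit 10))
    (@En.n l29070 (nat_lit 9853) (nat_lit 3) (nat_lit 6))
    (@En.n l29071 (nat_lit 9854) (nat_lit 4) (nat_lit 9))
    (@En.n l29072 (nat_lit 9584) (nat_lit 5) (nat_lit 3))
    (@En.n l152 (nat_lit 6838) (nat_lit 0) (nat_lit 5))
    (@En.n l21574 (nat_lit 9835) (nat_lit 7) (nat_lit 7))
    (@En.n l29073 (nat_lit 7142) (nat_lit 9) (nat_lit 13))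
    (@En.n l387 (nat_lit 6187) (nat_lit 10) (nat_lit 10))
    (@En.n l29074 (nat_lit 11279) (nat_lit 4) (nat_lit 6))
    (@En.n l345 (nat_lit 9521) (nat_lit 12) (nat_lit 11))
    (@En.n l77 (nat_lit 9416) (nat_lit 13) (nat_lit 6))
    (@En.n l29073 (nat_lit 7629) (nat_lit 14) (nat_lit 7))
    (@En.i (nat_lit 9841) (nat_lit 9) (nat_lit 9))
    (@En.n l18 (nat_lit 9852) (nat_lit 15) (nat_lit 2))))
  (@Cl.mk (nat_lit 0x20008000b0006000a0006000a0005000d0008000600030006000a000e000a) (nat_lit 0x630404033000741) (nat_lit 16) Lb.e (@T16.mk En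
    (@En.n l68 (nat_lit 9623) (nat_lit 12) (nat_lit 10))
    (@En.n l12290 (nat_lit 6915) (nat_lit 1) (nat_lit 14))
    (@En.n l11472 (nat_lit 11531) (nat_lit 2) (nat_lit 10))
    (@En.i (nat_lit 5286) (nat_lit 3) (nat_lit 6))
    (@En.i (nat_lit 9855) (nat_lit 4) (nat_lit 3))
    (@En.n l9874 (nat_lit 6832) (nat_lit 0) (nat_lit 6))
    (@En.i (nat_lit 9854) (nat_lit 6) (nat_lit 8))
    (@En.n l14941 (nat_lit 9852) (nat_lit 8) (nat_lit 13))
    (@En.n l5200 (nat_lit 9856) (nat_lit 8) (nat_lit 5))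
    (@En.n l645 (nat_lit 6183) (nat_lit 10) (nat_lit 10))
    (@En.i (nat_lit 11756) (nat_lit 5) (nat_lit 6))
    (@En.n l9874 (nat_lit 9561) (nat_lit 12) (nat_lit 10))
    (@En.n l7628 (nat_lit 9415) (nat_lit 13) (nat_lit 6))
    (@En.i (nat_lit 7169) (nat_lit 7) (nat_lit 11))
    (@En.n l197 (nat_lit 9843) (nat_lit 10) (nat_lit 8))
    (@En.n l67 (nat_lit 9853) (nat_lit 15) (nat_lit 2))))
  (@Cl.mk (nat_lit 0x200080007000b0007000b0007000b000500080005000900050009000e0009) (nat_lit 0x604050402040641) (nat_lit 16) Lb.e (@T16.mk En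
    (@En.n l68 (nat_lit 9622) (nat_lit 13) (nat_lit 9))
    (@En.n l38399 (nat_lit 6916) (nat_lit 1) (nat_lit 14))
    (@En.n l29135 (nat_lit 11529) (nat_lit 2) (nat_lit 9))
    (@En.n l12599 (nat_lit 6506) (nat_lit 3) (nat_lit 5))
    (@En.n l19716 (nat_lit 9930) (nat_lit 4) (nat_lit 9))
    (@En.n l38400 (nat_lit 5419) (nat_lit 5) (nat_lit 5))
    (@En.n l21381 (nat_lit 9922) (nat_lit 10) (nat_lit 8))
    (@En.n l38401 (nat_lit 9858) (nat_lit 7) (nat_lit 5))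
    (@En.n l19716 (nat_lit 6195) (nat_lit 9) (nat_lit 11))
    (@En.i (nat_lit 11757) (nat_lit 10) (nat_lit 7))
    (@En.n l9874 (nat_lit 9560) (nat_lit 11) (nat_lit 11))
    (@En.n l13229 (nat_lit 9830) (nat_lit 12) (nat_lit 7))
    (@En.n l50 (nat_lit 9853) (nat_lit 13) (nat_lit 11))
    (@En.n l217 (nat_lit 9855) (nat_lit 14) (nat_lit 7))
    (@En.n l38402 (nat_lit 9842) (nat_lit 6) (nat_lit 8))
    (@En.n l67 (nat_lit 9854) (nat_lit 15) (nat_lit 2))))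
  (@Cl.mk (nat_lit 0x20007000b0006000b0006000a0005000d0005000900030006000a000e000a) (nat_lit 0x30504040400772) (nat_lit 16) Lb.e (@T16.mk En
    (@En.n l68 (nat_lit 9627) (nat_lit 12) (nat_lit 10))
    (@En.n l23452 (nat_lit 6914) (nat_lit 1) (nat_lit 14))
    (@En.n l11468 (nat_lit 11532) (nat_lit 2) (nat_lit 10))
    (@En.n l3471 (nat_lit 12134) (nat_lit 3) (nat_lit 6))
    (@En.n l18 (nat_lit 9853) (nat_lit 4) (nat_lit 3))
    (@En.n l23453 (nat_lit 11334) (nat_lit 0) (nat_lit 9))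
    (@En.i (nat_lit 9511) (nat_lit 6) (nat_lit 5))
    (@En.n l21909 (nat_lit 9584) (nat_lit 8) (nat_lit 13))
    (@En.n l11385 (nat_lit 9857) (nat_lit 8) (nat_lit 5))
    (@En.n l23454 (nat_lit 6188) (nat_lit 10) (nat_lit 10))
    (@En.i (nat_lit 10365) (nat_lit 5) (nat_lit 6))
    (@En.n l23455 (nat_lit 9562) (nat_lit 12) (nat_lit 11))
    (@En.n l23456 (nat_lit 9582) (nat_lit 13) (nat_lit 6))
    (@En.i (nat_lit 7165) (nat_lit 14) (nat_lit 11))
    (@En.n l23457 (nat_lit 10642) (nat_lit 10) (nat_lit 7))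
    (@En.n l67 (nat_lit 9855) (nat_lit 15) (nat_lit 2))))
noncomputable def a616 : T16 Cl := @T16.mk Cl
  (@Cl.mk (nat_lit 0x20008000b00070007000b00070005000d00080005000300090009000e0009) (nat_lit 0x4400700220076b7) (nat_lit 16) Lb.e (@T16.mk En
    (@En.n l6517 (nat_lit 9859) (nat_lit 12) (nat_lit 9))
    (@En.n l5351 (nat_lit 10050) (nat_lit 1) (nat_lit 14))
    (@En.n l29066 (nat_lit 9860) (nat_lit 2) (nat_lit 9))
    (@En.n l5854 (nat_lit 11274) (nat_lit 3) (nat_lit 9))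
    (@En.n l14713 (nat_lit 9857) (nat_lit 4) (nat_lit 3))
    (@En.n l3480 (nat_lit 3178) (nat_lit 0) (nat_lit 5))
    (@En.n l29067 (nat_lit 9858) (nat_lit 6) (nat_lit 8))
    (@En.n l18718 (nat_lit 5911) (nat_lit 8) (nat_lit 13))
    (@En.i (nat_lit 4549) (nat_lit 8) (nat_lit 5))
    (@En.n l8133 (nat_lit 10519) (nat_lit 4) (nat_lit 7))
    (@En.i (nat_lit 9349) (nat_lit 11) (nat_lit 11))
    (@En.n l2255 (nat_lit 6459) (nat_lit 12) (nat_lit 7))
    (@En.n l29068 (nat_lit 9852) (nat_lit 13) (nat_lit 7))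
    (@En.i (nat_lit 4849) (nat_lit 7) (nat_lit 11))
    (@En.n l12001 (nat_lit 9847) (nat_lit 10) (nat_lit 8))
    (@En.n l7 (nat_lit 9856) (nat_lit 15) (nat_lit 2))))
  (@Cl.mk (nat_lit 0x20007000b00070007000c00070005000d00040009000300090009000e0009) (nat_lit 0x40070030307694) (nat_lit 16) Lb.e (@T16.mk En
    (@En.n l8768 (nat_lit 9862) (nat_lit 12) (nat_lit 9))
    (@En.n l20852 (nat_lit 10051) (nat_lit 1) (nat_lit 14))
    (@En.n l20853 (nat_lit 9864) (nat_lit 2) (nat_lit 9))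
    (@En.n l20854 (nat_lit 11378) (nat_lit 3) (nat_lit 9))
    (@En.n l20855 (nat_lit 9856) (nat_lit 4) (nat_lit 3))
    (@En.n l28 (nat_lit 11335) (nat_lit 5) (nat_lit 9))
    (@En.n l13467 (nat_lit 10090) (nat_lit 6) (nat_lit 4))
    (@En.n l77 (nat_lit 5910) (nat_lit 8) (nat_lit 13))
    (@En.n l20856 (nat_lit 4531) (nat_lit 8) (nat_lit 5))
    (@En.n l15051 (nat_lit 10521) (nat_lit 4) (nat_lit 7))
    (@En.n l9850 (nat_lit 9352) (nat_lit 11) (nat_lit 12))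
    (@En.n l20857 (nat_lit 6460) (nat_lit 12) (nat_lit 7))
    (@En.n l601 (nat_lit 9584) (nat_lit 13) (nat_lit 7))
    (@En.n l7611 (nat_lit 4847) (nat_lit 14) (nat_lit 11))
    (@En.n l20856 (nat_lit 11178) (nat_lit 7) (nat_lit 7))
    (@En.n l3 (nat_lit 9857) (nat_lit 15) (nat_lit 2))))
  (@Cl.mk (nat_lit 0x200080007000b00080008000c0008000500080004000900080008000e0008) (nat_lit 0x4053173010565c5) (nat_lit 16) Lb.e (@T16.mk En
    (@En.n l33306 (nat_lit 9861) (nat_lit 11) (nat_lit 8))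
    (@En.n l33307 (nat_lit 10049) (nat_lit 1) (nat_lit 14))
    (@En.n l33308 (nat_lit 9863) (nat_lit 2) (nat_lit 8))
    (@En.n l20508 (nat_lit 11273) (nat_lit 3) (nat_lit 8))
    (@En.n l33309 (nat_lit 9935) (nat_lit 4) (nat_lit 9))
    (@En.n l33310 (nat_lit 3185) (nat_lit 5) (nat_lit 4))
    (@En.n l18785 (nat_lit 1686) (nat_lit 6) (nat_lit 8))
    (@En.n l20855 (nat_lit 4548) (nat_lit 7) (nat_lit 5))
    (@En.n l33311 (nat_lit 10520) (nat_lit 9) (nat_lit 8))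
    (@En.n l20855 (nat_lit 9350) (nat_lit 10) (nat_lit 12))
    (@En.n l20857 (nat_lit 6458) (nat_lit 11) (nat_lit 8))
    (@En.n l33312 (nat_lit 9835) (nat_lit 12) (nat_lit 8))
    (@En.n l9850 (nat_lit 9856) (nat_lit 13) (nat_lit 11))
    (@En.i (nat_lit 9857) (nat_lit 14) (nat_lit 7))
    (@En.n l33313 (nat_lit 9851) (nat_lit 6) (nat_lit 8))
    (@En.n l3 (nat_lit 9858) (nat_lit 15) (nat_lit 2))))
  (@Cl.mk (nat_lit 0x3000a000a000900090007000a00060006000a000700070006000d00090006) (nat_lit 0x586001006000420) (nat_lit 16) Lb.e (@T16.mk En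
    (@En.n l6272 (nat_lit 3177) (nat_lit 0) (nat_lit 6))
    (@En.i (nat_lit 9861) (nat_lit 0) (nat_lit 9))
    (@En.n l40927 (nat_lit 5916) (nat_lit 2) (nat_lit 13))
    (@En.n l40928 (nat_lit 11391) (nat_lit 10) (nat_lit 6))
    (@En.n l12755 (nat_lit 9856) (nat_lit 9) (nat_lit 7))
    (@En.i (nat_lit 5167) (nat_lit 5) (nat_lit 7))
    (@En.n l5663 (nat_lit 9348) (nat_lit 9) (nat_lit 10))
    (@En.n l55 (nat_lit 11193) (nat_lit 10) (nat_lit 6))
    (@En.n l30610 (nat_lit 9618) (nat_lit 8) (nat_lit 6))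
    (@En.i (nat_lit 3299) (nat_lit 8) (nat_lit 10))
    (@En.n l742 (nat_lit 10961) (nat_lit 9) (nat_lit 7))
    (@En.n l396 (nat_lit 11187) (nat_lit 7) (nat_lit 9))
    (@En.n l12756 (nat_lit 10067) (nat_lit 7) (nat_lit 9))
    (@En.n l40929 (nat_lit 9865) (nat_lit 6) (nat_lit 10))
    (@En.n l17110 (nat_lit 11277) (nat_lit 3) (nat_lit 10))
    (@En.n l11621 (nat_lit 9862) (nat_lit 15) (nat_lit 3))))
  (@Cl.mk (nat_lit 0x20007000a000e00070002000b00080006000d0009000500030009000e0008) (nat_lit 0x43008402200586) (nat_lit 16) Lb.e (@T16.mk En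
    (@En.n l21282 (nat_lit 9865) (nat_lit 5) (nat_lit 8))
    (@En.i (nat_lit 12797) (nat_lit 7) (nat_lit 14))
    (@En.n l287 (nat_lit 11270) (nat_lit 2) (nat_lit 9))
    (@En.n l21283 (nat_lit 9864) (nat_lit 3) (nat_lit 3))
    (@En.i (nat_lit 5064) (nat_lit 0) (nat_lit 5))
    (@En.n l532 (nat_lit 9863) (nat_lit 5) (nat_lit 9))
    (@En.n l3447 (nat_lit 6384) (nat_lit 7) (nat_lit 13))
    (@En.n l7108 (nat_lit 4558) (nat_lit 7) (nat_lit 6))
    (@En.n l13365 (nat_lit 11486) (nat_lit 14) (nat_lit 8))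
    (@En.n l21284 (nat_lit 9263) (nat_lit 10) (nat_lit 11))
    (@En.n l17 (nat_lit 9860) (nat_lit 10) (nat_lit 2))
    (@En.n l21284 (nat_lit 9856) (nat_lit 12) (nat_lit 7))
    (@En.i (nat_lit 7833) (nat_lit 13) (nat_lit 14))
    (@En.n l13365 (nat_lit 4853) (nat_lit 8) (nat_lit 10))
    (@En.n l20989 (nat_lit 11180) (nat_lit 3) (nat_lit 7))
    (@En.n l7 (nat_lit 9860) (nat_lit 15) (nat_lit 2))))
  (@Cl.mk (nat_lit 0x5000a000900090008000800070006000a00070007000b0008000800060009) (nat_lit 0x647400020071401) (nat_lit 16) Lb.e (@T16.mk En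
    (@En.n l31990 (nat_lit 1683) (nat_lit 9) (nat_lit 9))
    (@En.n l31991 (nat_lit 11592) (nat_lit 10) (nat_lit 6))
    (@En.n l31992 (nat_lit 9858) (nat_lit 8) (nat_lit 8))
    (@En.n l30608 (nat_lit 3159) (nat_lit 1) (nat_lit 8))
    (@En.n l30205 (nat_lit 8820) (nat_lit 8) (nat_lit 11))
    (@En.n l55 (nat_lit 11192) (nat_lit 9) (nat_lit 7))
    (@En.n l31993 (nat_lit 9616) (nat_lit 6) (nat_lit 7))
    (@En.n l3 (nat_lit 9859) (nat_lit 9) (nat_lit 10))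
    (@En.n l11620 (nat_lit 9862) (nat_lit 10) (nat_lit 6))
    (@En.n l31994 (nat_lit 10962) (nat_lit 9) (nat_lit 7))
    (@En.n l31995 (nat_lit 11185) (nat_lit 8) (nat_lit 8))
    (@En.n l31993 (nat_lit 10065) (nat_lit 8) (nat_lit 8))
    (@En.n l31996 (nat_lit 11182) (nat_lit 7) (nat_lit 9))
    (@En.n l31990 (nat_lit 11278) (nat_lit 7) (nat_lit 9))
    (@En.n l31993 (nat_lit 11350) (nat_lit 10) (nat_lit 10))
    (@En.n l31997 (nat_lit 3184) (nat_lit 15) (nat_lit 5))))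
  (@Cl.mk (nat_lit 0x3000a000a000900090006000a00060006000b000700070006000d0005000a) (nat_lit 0x563501006000904) (nat_lit 16) Lb.e (@T16.mk En
    (@En.n l32872 (nat_lit 7723) (nat_lit 0) (nat_lit 10))
    (@En.n l18636 (nat_lit 10042) (nat_lit 15) (nat_lit 5))
    (@En.n l20811 (nat_lit 5915) (nat_lit 2) (nat_lit 13))
    (@En.n l36837 (nat_lit 11389) (nat_lit 10) (nat_lit 6))
    (@En.n l20812 (nat_lit 9857) (nat_lit 9) (nat_lit 7))
    (@En.n l2943 (nat_lit 5168) (nat_lit 5) (nat_lit 7))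
    (@En.n l2943 (nat_lit 9353) (nat_lit 7) (nat_lit 11))
    (@En.n l19274 (nat_lit 11194) (nat_lit 10) (nat_lit 6))
    (@En.n l36838 (nat_lit 9620) (nat_lit 8) (nat_lit 6))
    (@En.i (nat_lit 3296) (nat_lit 9) (nat_lit 10))
    (@En.n l77 (nat_lit 11158) (nat_lit 11) (nat_lit 6))
    (@En.n l30562 (nat_lit 11188) (nat_lit 7) (nat_lit 9))
    (@En.n l17078 (nat_lit 10069) (nat_lit 7) (nat_lit 9))
    (@En.n l36839 (nat_lit 11181) (nat_lit 6) (nat_lit 10))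
    (@En.n l36840 (nat_lit 8012) (nat_lit 3) (nat_lit 10))
    (@En.n l4927 (nat_lit 9859) (nat_lit 15) (nat_lit 3))))
  (@Cl.mk (nat_lit 0x200070006000a000e00080002000c0009000600090004000a0008000e0007) (nat_lit 0x5440940105470) (nat_lit 16) Lb.e (@T16.mk En
    (@En.n l17592 (nat_lit 11182) (nat_lit 6) (nat_lit 7))
    (@En.i (nat_lit 12798) (nat_lit 1) (nat_lit 14))
    (@En.n l2579 (nat_lit 11269) (nat_lit 2) (nat_lit 8))
    (@En.n l17593 (nat_lit 11652) (nat_lit 10) (nat_lit 10))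
    (@En.n l117 (nat_lit 5065) (nat_lit 4) (nat_lit 4))
    (@En.n l17593 (nat_lit 1529) (nat_lit 5) (nat_lit 9))
    (@En.n l17594 (nat_lit 4550) (nat_lit 6) (nat_lit 6))
    (@En.n l575 (nat_lit 11484) (nat_lit 14) (nat_lit 9))
    (@En.n l17595 (nat_lit 8827) (nat_lit 9) (nat_lit 12))
    (@En.n l17 (nat_lit 9863) (nat_lit 9) (nat_lit 2))
    (@En.n l17596 (nat_lit 9858) (nat_lit 11) (nat_lit 8))
    (@En.i (nat_lit 6382) (nat_lit 12) (nat_lit 14))
    (@En.n l245 (nat_lit 9860) (nat_lit 13) (nat_lit 10))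
    (@En.n l17594 (nat_lit 9864) (nat_lit 14) (nat_lit 6))
    (@En.n l3100 (nat_lit 10971) (nat_lit 4) (nat_lit 7))
    (@En.n l28 (nat_lit 9863) (nat_lit 15) (nat_lit 2))))
  (@Cl.mk (nat_lit 0x20006000a000e00070002000c00080006000d0004000a00030009000e0008) (nat_lit 0x42008403030586) (nat_lit 16) Lb.e (@T16.mk En
    (@En.n l8978 (nat_lit 11181) (nat_lit 5) (nat_lit 8))
    (@En.n l8979 (nat_lit 12796) (nat_lit 1) (nat_lit 14))
    (@En.i (nat_lit 11900) (nat_lit 2) (nat_lit 9))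
    (@En.n l8979 (nat_lit 9860) (nat_lit 3) (nat_lit 3))
    (@En.n l295 (nat_lit 11656) (nat_lit 10) (nat_lit 10))
    (@En.n l8980 (nat_lit 10092) (nat_lit 5) (nat_lit 4))
    (@En.n l8981 (nat_lit 6383) (nat_lit 7) (nat_lit 13))
    (@En.i (nat_lit 4704) (nat_lit 7) (nat_lit 6))
    (@En.n l8982 (nat_lit 11488) (nat_lit 14) (nat_lit 8))
    (@En.n l3130 (nat_lit 9606) (nat_lit 10) (nat_lit 12))
    (@En.n l28 (nat_lit 9864) (nat_lit 10) (nat_lit 2))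
    (@En.n l8983 (nat_lit 9857) (nat_lit 12) (nat_lit 7))
    (@En.n l8979 (nat_lit 9116) (nat_lit 13) (nat_lit 14))
    (@En.n l1116 (nat_lit 4851) (nat_lit 14) (nat_lit 10))
    (@En.n l8984 (nat_lit 11174) (nat_lit 3) (nat_lit 6))
    (@En.n l3 (nat_lit 9864) (nat_lit 15) (nat_lit 2))))
  (@Cl.mk (nat_lit 0x2000a000800080007000d000a00060003000a0008000800060009000e0006) (nat_lit 0x735092007530120) (nat_lit 16) Lb.e (@T16.mk En
    (@En.n l31375 (nat_lit 9859) (nat_lit 8) (nat_lit 6))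
    (@En.n l31376 (nat_lit 9118) (nat_lit 1) (nat_lit 14))
    (@En.n l31377 (nat_lit 3297) (nat_lit 9) (nat_lit 9))
    (@En.n l31378 (nat_lit 10968) (nat_lit 3) (nat_lit 6))
    (@En.n l31379 (nat_lit 11184) (nat_lit 8) (nat_lit 8))
    (@En.i (nat_lit 10205) (nat_lit 5) (nat_lit 8))
    (@En.n l31377 (nat_lit 11276) (nat_lit 7) (nat_lit 10))
    (@En.n l152 (nat_lit 11181) (nat_lit 7) (nat_lit 3))
    (@En.n l31380 (nat_lit 3181) (nat_lit 8) (nat_lit 6))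
    (@En.n l31381 (nat_lit 11182) (nat_lit 10) (nat_lit 10))
    (@En.n l31382 (nat_lit 6252) (nat_lit 11) (nat_lit 13))
    (@En.i (nat_lit 11387) (nat_lit 12) (nat_lit 7))
    (@En.n l31383 (nat_lit 9860) (nat_lit 8) (nat_lit 8))
    (@En.n l31377 (nat_lit 5164) (nat_lit 14) (nat_lit 8))
    (@En.n l31384 (nat_lit 8825) (nat_lit 7) (nat_lit 10))
    (@En.n l50 (nat_lit 9865) (nat_lit 15) (nat_lit 2))))
  (@Cl.mk (nat_lit 0x20008000600090005000d000b000a0003000800070005000a0006000e000b) (nat_lit 0x405068506006066) (nat_lit 16) Lb.e (@T16.mk En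
    (@En.n l817 (nat_lit 9360) (nat_lit 9) (nat_lit 11))
    (@En.n l18716 (nat_lit 11577) (nat_lit 1) (nat_lit 14))
    (@En.i (nat_lit 8222) (nat_lit 2) (nat_lit 6))
    (@En.n l899 (nat_lit 9869) (nat_lit 3) (nat_lit 10))
    (@En.i (nat_lit 9361) (nat_lit 4) (nat_lit 5))
    (@En.i (nat_lit 6737) (nat_lit 5) (nat_lit 7))
    (@En.i (nat_lit 9354) (nat_lit 6) (nat_lit 8))
    (@En.n l2016 (nat_lit 9867) (nat_lit 7) (nat_lit 3))
    (@En.n l619 (nat_lit 9256) (nat_lit 0) (nat_lit 10))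
    (@En.i (nat_lit 9506) (nat_lit 10) (nat_lit 11))
    (@En.i (nat_lit 2593) (nat_lit 11) (nat_lit 13))
    (@En.n l18717 (nat_lit 10132) (nat_lit 3) (nat_lit 5))
    (@En.n l18716 (nat_lit 2057) (nat_lit 9) (nat_lit 9))
    (@En.n l18718 (nat_lit 10612) (nat_lit 14) (nat_lit 6))
    (@En.n l4172 (nat_lit 9670) (nat_lit 6) (nat_lit 8))
    (@En.n l7 (nat_lit 9866) (nat_lit 15) (nat_lit 2))))
  (@Cl.mk (nat_lit 0x20008000600090005000d0009000c0003000800070004000a0007000e000b) (nat_lit 0x404073304005051) (nat_lit 16) Lb.e (@T16.mk En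
    (@En.n l2301 (nat_lit 9656) (nat_lit 9) (nat_lit 11))
    (@En.n l12654 (nat_lit 11578) (nat_lit 1) (nat_lit 14))
    (@En.n l7733 (nat_lit 9385) (nat_lit 2) (nat_lit 7))
    (@En.n l2029 (nat_lit 9868) (nat_lit 3) (nat_lit 10))
    (@En.n l32776 (nat_lit 9566) (nat_lit 4) (nat_lit 4))
    (@En.n l2303 (nat_lit 6738) (nat_lit 5) (nat_lit 7))
    (@En.i (nat_lit 7191) (nat_lit 6) (nat_lit 8))
    (@En.n l5888 (nat_lit 9866) (nat_lit 7) (nat_lit 3))
    (@En.i (nat_lit 9208) (nat_lit 0) (nat_lit 12))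
    (@En.n l32777 (nat_lit 9486) (nat_lit 10) (nat_lit 9))
    (@En.n l763 (nat_lit 2590) (nat_lit 11) (nat_lit 13))
    (@En.i (nat_lit 9792) (nat_lit 3) (nat_lit 5))
    (@En.i (nat_lit 2056) (nat_lit 9) (nat_lit 9))
    (@En.n l32776 (nat_lit 10611) (nat_lit 14) (nat_lit 6))
    (@En.n l2026 (nat_lit 9655) (nat_lit 6) (nat_lit 8))
    (@En.n l50 (nat_lit 9867) (nat_lit 15) (nat_lit 2))))
  (@Cl.mk (nat_lit 0x200070006000b00090006000d000a0005000300090007000a0006000e000a) (nat_lit 0x7509300404048) (nat_lit 16) Lb.e (@T16.mk En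
    (@En.n l17426 (nat_lit 9389) (nat_lit 10) (nat_lit 10))
    (@En.n l17427 (nat_lit 11576) (nat_lit 1) (nat_lit 14))
    (@En.n l2720 (nat_lit 9384) (nat_lit 2) (nat_lit 6))
    (@En.n l3530 (nat_lit 12758) (nat_lit 3) (nat_lit 10))
    (@En.i (nat_lit 6728) (nat_lit 4) (nat_lit 7))
    (@En.n l9855 (nat_lit 9839) (nat_lit 5) (nat_lit 9))
    (@En.n l4659 (nat_lit 9869) (nat_lit 6) (nat_lit 3))
    (@En.n l17428 (nat_lit 11507) (nat_lit 7) (nat_lit 5))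
    (@En.n l17429 (nat_lit 9487) (nat_lit 9) (nat_lit 10))
    (@En.n l17430 (nat_lit 2591) (nat_lit 10) (nat_lit 13))
    (@En.n l17431 (nat_lit 10809) (nat_lit 11) (nat_lit 6))
    (@En.n l627 (nat_lit 9867) (nat_lit 12) (nat_lit 9))
    (@En.n l17429 (nat_lit 9385) (nat_lit 13) (nat_lit 11))
    (@En.n l17432 (nat_lit 10011) (nat_lit 14) (nat_lit 6))
    (@En.n l17433 (nat_lit 9871) (nat_lit 7) (nat_lit 7))
    (@En.n l7 (nat_lit 9868) (nat_lit 15) (nat_lit 2))))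
  (@Cl.mk (nat_lit 0x200070006000c00090006000d0004000b000300090007000a0005000e000a) (nat_lit 0x3606060405051) (nat_lit 16) Lb.e (@T16.mk En
    (@En.n l22725 (nat_lit 9359) (nat_lit 10) (nat_lit 10))
    (@En.n l15786 (nat_lit 11575) (nat_lit 1) (nat_lit 14))
    (@En.n l22725 (nat_lit 9601) (nat_lit 2) (nat_lit 5))
    (@En.i (nat_lit 12757) (nat_lit 3) (nat_lit 10))
    (@En.n l2345 (nat_lit 6739) (nat_lit 4) (nat_lit 7))
    (@En.i (nat_lit 9357) (nat_lit 5) (nat_lit 9))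
    (@En.n l1080 (nat_lit 9868) (nat_lit 6) (nat_lit 3))
    (@En.n l7645 (nat_lit 9259) (nat_lit 0) (nat_lit 11))
    (@En.n l10394 (nat_lit 9870) (nat_lit 8) (nat_lit 4))
    (@En.n l2348 (nat_lit 2595) (nat_lit 10) (nat_lit 13))
    (@En.n l2349 (nat_lit 10807) (nat_lit 11) (nat_lit 6))
    (@En.n l2642 (nat_lit 9866) (nat_lit 12) (nat_lit 9))
    (@En.n l22726 (nat_lit 8225) (nat_lit 13) (nat_lit 12))
    (@En.n l16305 (nat_lit 10015) (nat_lit 14) (nat_lit 6))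
    (@En.n l2349 (nat_lit 9671) (nat_lit 7) (nat_lit 7))
    (@En.n l50 (nat_lit 9869) (nat_lit 15) (nat_lit 2))))
  (@Cl.mk (nat_lit 0x200070006000c000b000a00070004000b000500090006000a0005000e0009) (nat_lit 0x3870040305060) (nat_lit 16) Lb.e (@T16.mk En
    (@En.n l8204 (nat_lit 9873) (nat_lit 14) (nat_lit 9))
    (@En.n l18240 (nat_lit 11574) (nat_lit 1) (nat_lit 14))
    (@En.n l1690 (nat_lit 9609) (nat_lit 2) (nat_lit 5))
    (@En.n l9720 (nat_lit 12330) (nat_lit 3) (nat_lit 10))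
    (@En.n l18240 (nat_lit 6519) (nat_lit 4) (nat_lit 6))
    (@En.i (nat_lit 9638) (nat_lit 5) (nat_lit 9))
    (@En.n l17309 (nat_lit 9891) (nat_lit 6) (nat_lit 5))
    (@En.n l31600 (nat_lit 9568) (nat_lit 8) (nat_lit 11))
    (@En.n l5408 (nat_lit 9361) (nat_lit 8) (nat_lit 4))
    (@En.n l181 (nat_lit 10808) (nat_lit 10) (nat_lit 7))
    (@En.n l31601 (nat_lit 8629) (nat_lit 11) (nat_lit 10))
    (@En.n l31602 (nat_lit 9868) (nat_lit 12) (nat_lit 11))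
    (@En.n l619 (nat_lit 8221) (nat_lit 13) (nat_lit 12))
    (@En.n l31603 (nat_lit 9882) (nat_lit 14) (nat_lit 6))
    (@En.n l25609 (nat_lit 9872) (nat_lit 5) (nat_lit 7))
    (@En.n l18 (nat_lit 9870) (nat_lit 15) (nat_lit 2))))
  (@Cl.mk (nat_lit 0x30009000c0008000b00070004000b00070005000b00080005000d00090005) (nat_lit 0x563300100540840) (nat_lit 16) Lb.e (@T16.mk En
    (@En.n l33152 (nat_lit 10755) (nat_lit 0) (nat_lit 5))
    (@En.n l8602 (nat_lit 9424) (nat_lit 0) (nat_lit 9))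
    (@En.n l33153 (nat_lit 6794) (nat_lit 2) (nat_lit 13))
    (@En.n l25092 (nat_lit 10804) (nat_lit 3) (nat_lit 5))
    (@En.n l33154 (nat_lit 9655) (nat_lit 4) (nat_lit 8))
    (@En.n l3098 (nat_lit 9785) (nat_lit 6) (nat_lit 11))
    (@En.n l33155 (nat_lit 10631) (nat_lit 6) (nat_lit 5))
    (@En.n l33156 (nat_lit 9653) (nat_lit 7) (nat_lit 7))
    (@En.n l33157 (nat_lit 9649) (nat_lit 9) (nat_lit 11))
    (@En.n l33158 (nat_lit 10763) (nat_lit 9) (nat_lit 4))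
    (@En.n l33159 (nat_lit 8631) (nat_lit 0) (nat_lit 7))
    (@En.n l33160 (nat_lit 11167) (nat_lit 7) (nat_lit 11))
    (@En.n l6900 (nat_lit 9389) (nat_lit 13) (nat_lit 8))
    (@En.n l33161 (nat_lit 9183) (nat_lit 6) (nat_lit 12))
    (@En.n l33162 (nat_lit 9841) (nat_lit 4) (nat_lit 9))
    (@En.n l33163 (nat_lit 9671) (nat_lit 15) (nat_lit 3))))
noncomputable def a617 : T16 Cl := @T16.mk Cl
  (@Cl.mk (nat_lit 0x4000a00050009000c0007000b00060004000a00070005000c000b00090006) (nat_lit 0x604508001001650) (nat_lit 16) Lb.e (@T16.mk En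
    (@En.i (nat_lit 10806) (nat_lit 0) (nat_lit 6))
    (@En.n l39851 (nat_lit 9871) (nat_lit 1) (nat_lit 9))
    (@En.n l42662 (nat_lit 9871) (nat_lit 5) (nat_lit 11))
    (@En.n l22555 (nat_lit 8386) (nat_lit 3) (nat_lit 12))
    (@En.n l42663 (nat_lit 10644) (nat_lit 11) (nat_lit 5))
    (@En.n l28 (nat_lit 9875) (nat_lit 14) (nat_lit 7))
    (@En.n l77 (nat_lit 9809) (nat_lit 1) (nat_lit 10))
    (@En.n l33662 (nat_lit 12443) (nat_lit 12) (nat_lit 4))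
    (@En.n l61 (nat_lit 10503) (nat_lit 0) (nat_lit 6))
    (@En.n l25392 (nat_lit 12414) (nat_lit 8) (nat_lit 11))
    (@En.n l42664 (nat_lit 9873) (nat_lit 1) (nat_lit 7))
    (@En.n l42665 (nat_lit 11292) (nat_lit 6) (nat_lit 12))
    (@En.n l899 (nat_lit 9877) (nat_lit 10) (nat_lit 9))
    (@En.i (nat_lit 11803) (nat_lit 5) (nat_lit 5))
    (@En.i (nat_lit 10650) (nat_lit 0) (nat_lit 10))
    (@En.n l36714 (nat_lit 9672) (nat_lit 1) (nat_lit 4))))
  (@Cl.mk (nat_lit 0x50009000900060005000b000a0009000700070005000b0006000a0007000b) (nat_lit 0x710027600050405) (nat_lit 16) Lb.e (@T16.mk En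
    (@En.i (nat_lit 11997) (nat_lit 8) (nat_lit 11))
    (@En.n l42694 (nat_lit 6515) (nat_lit 1) (nat_lit 7))
    (@En.i (nat_lit 9801) (nat_lit 9) (nat_lit 10))
    (@En.n l42695 (nat_lit 9330) (nat_lit 7) (nat_lit 6))
    (@En.n l42696 (nat_lit 9374) (nat_lit 0) (nat_lit 11))
    (@En.n l42697 (nat_lit 8885) (nat_lit 11) (nat_lit 5))
    (@En.n l35870 (nat_lit 9870) (nat_lit 9) (nat_lit 7))
    (@En.n l42698 (nat_lit 10813) (nat_lit 9) (nat_lit 7))
    (@En.n l42699 (nat_lit 8631) (nat_lit 7) (nat_lit 9))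
    (@En.n l42700 (nat_lit 9389) (nat_lit 6) (nat_lit 10))
    (@En.n l20109 (nat_lit 8224) (nat_lit 10) (nat_lit 11))
    (@En.n l37308 (nat_lit 9883) (nat_lit 11) (nat_lit 5))
    (@En.n l42701 (nat_lit 9809) (nat_lit 0) (nat_lit 6))
    (@En.n l5337 (nat_lit 9802) (nat_lit 7) (nat_lit 9))
    (@En.n l42702 (nat_lit 10415) (nat_lit 10) (nat_lit 9))
    (@En.n l42703 (nat_lit 9911) (nat_lit 2) (nat_lit 5))))
  (@Cl.mk (nat_lit 0x4000a0008000b0006000a000900060005000a00080006000c0007000a0006) (nat_lit 0x427085001404040) (nat_lit 16) Lb.e (@T16.mk En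
    (@En.n l27243 (nat_lit 10720) (nat_lit 0) (nat_lit 6))
    (@En.n l2065 (nat_lit 9868) (nat_lit 8) (nat_lit 10))
    (@En.n l42418 (nat_lit 5260) (nat_lit 1) (nat_lit 7))
    (@En.n l42419 (nat_lit 8801) (nat_lit 3) (nat_lit 12))
    (@En.n l42420 (nat_lit 10643) (nat_lit 4) (nat_lit 6))
    (@En.n l28 (nat_lit 9876) (nat_lit 5) (nat_lit 8))
    (@En.n l42421 (nat_lit 9805) (nat_lit 10) (nat_lit 10))
    (@En.n l42422 (nat_lit 9793) (nat_lit 11) (nat_lit 5))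
    (@En.i (nat_lit 9872) (nat_lit 8) (nat_lit 6))
    (@En.n l899 (nat_lit 9878) (nat_lit 7) (nat_lit 9))
    (@En.n l40191 (nat_lit 10140) (nat_lit 9) (nat_lit 10))
    (@En.n l42423 (nat_lit 9641) (nat_lit 2) (nat_lit 6))
    (@En.n l36842 (nat_lit 7928) (nat_lit 7) (nat_lit 11))
    (@En.n l2125 (nat_lit 6127) (nat_lit 8) (nat_lit 8))
    (@En.n l42424 (nat_lit 10651) (nat_lit 11) (nat_lit 10))
    (@En.n l42422 (nat_lit 9811) (nat_lit 12) (nat_lit 4))))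
  (@Cl.mk (nat_lit 0x400070004000c000b0008000b00040009000500090005000c0008000c0007) (nat_lit 0x7554060406590) (nat_lit 16) Lb.e (@T16.mk En
    (@En.n l61 (nat_lit 10508) (nat_lit 0) (nat_lit 7))
    (@En.n l11792 (nat_lit 12407) (nat_lit 1) (nat_lit 12))
    (@En.i (nat_lit 9809) (nat_lit 4) (nat_lit 8))
    (@En.i (nat_lit 9872) (nat_lit 11) (nat_lit 12))
    (@En.i (nat_lit 11854) (nat_lit 4) (nat_lit 5))
    (@En.n l899 (nat_lit 9950) (nat_lit 10) (nat_lit 9))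
    (@En.i (nat_lit 10759) (nat_lit 6) (nat_lit 5))
    (@En.i (nat_lit 9696) (nat_lit 0) (nat_lit 9))
    (@En.i (nat_lit 9673) (nat_lit 8) (nat_lit 4))
    (@En.i (nat_lit 8848) (nat_lit 7) (nat_lit 11))
    (@En.i (nat_lit 9655) (nat_lit 1) (nat_lit 8))
    (@En.n l3866 (nat_lit 9653) (nat_lit 5) (nat_lit 11))
    (@En.i (nat_lit 8387) (nat_lit 13) (nat_lit 12))
    (@En.n l18 (nat_lit 10639) (nat_lit 4) (nat_lit 4))
    (@En.i (nat_lit 6633) (nat_lit 11) (nat_lit 7))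
    (@En.n l3523 (nat_lit 12442) (nat_lit 1) (nat_lit 4))))
  (@Cl.mk (nat_lit 0x4000900080004000b0007000b000a0007000500080005000c00060009000c) (nat_lit 0x430809600307045) (nat_lit 16) Lb.e (@T16.mk En
    (@En.i (nat_lit 9340) (nat_lit 6) (nat_lit 12))
    (@En.n l2921 (nat_lit 9867) (nat_lit 9) (nat_lit 9))
    (@En.n l37925 (nat_lit 5245) (nat_lit 5) (nat_lit 6))
    (@En.n l6081 (nat_lit 9474) (nat_lit 3) (nat_lit 12))
    (@En.n l37926 (nat_lit 10641) (nat_lit 4) (nat_lit 5))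
    (@En.n l2869 (nat_lit 7564) (nat_lit 10) (nat_lit 8))
    (@En.n l26601 (nat_lit 9789) (nat_lit 11) (nat_lit 5))
    (@En.i (nat_lit 9875) (nat_lit 0) (nat_lit 7))
    (@En.n l899 (nat_lit 9879) (nat_lit 6) (nat_lit 10))
    (@En.n l4991 (nat_lit 10144) (nat_lit 8) (nat_lit 11))
    (@En.n l35635 (nat_lit 9805) (nat_lit 14) (nat_lit 7))
    (@En.i (nat_lit 9874) (nat_lit 12) (nat_lit 11))
    (@En.n l2940 (nat_lit 9955) (nat_lit 15) (nat_lit 4))
    (@En.n l2125 (nat_lit 6124) (nat_lit 8) (nat_lit 8))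
    (@En.n l152 (nat_lit 10654) (nat_lit 1) (nat_lit 9))
    (@En.n l14311 (nat_lit 9709) (nat_lit 15) (nat_lit 4))))
  (@Cl.mk (nat_lit 0x3000a00070004000b0009000c0006000a0005000400090007000d0006000c) (nat_lit 0x500338070010505) (nat_lit 16) Lb.e (@T16.mk En
    (@En.n l35989 (nat_lit 8933) (nat_lit 0) (nat_lit 12))
    (@En.n l2642 (nat_lit 9874) (nat_lit 4) (nat_lit 6))
    (@En.n l35990 (nat_lit 11986) (nat_lit 2) (nat_lit 13))
    (@En.n l7 (nat_lit 9950) (nat_lit 3) (nat_lit 7))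
    (@En.n l644 (nat_lit 9803) (nat_lit 4) (nat_lit 9))
    (@En.n l35991 (nat_lit 9794) (nat_lit 12) (nat_lit 4))
    (@En.n l5882 (nat_lit 10501) (nat_lit 0) (nat_lit 5))
    (@En.n l1203 (nat_lit 10152) (nat_lit 9) (nat_lit 10))
    (@En.n l35992 (nat_lit 9801) (nat_lit 8) (nat_lit 6))
    (@En.n l30485 (nat_lit 7927) (nat_lit 6) (nat_lit 12))
    (@En.i (nat_lit 6126) (nat_lit 11) (nat_lit 9))
    (@En.n l16383 (nat_lit 10659) (nat_lit 12) (nat_lit 11))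
    (@En.n l35993 (nat_lit 8800) (nat_lit 13) (nat_lit 4))
    (@En.n l9832 (nat_lit 10441) (nat_lit 14) (nat_lit 7))
    (@En.n l35994 (nat_lit 9389) (nat_lit 1) (nat_lit 10))
    (@En.n l117 (nat_lit 9878) (nat_lit 15) (nat_lit 3))))
  (@Cl.mk (nat_lit 0x3000a00070005000b0009000c000600090005000400090007000d000b0007) (nat_lit 0x500538040010470) (nat_lit 16) Lb.e (@T16.mk En
    (@En.n l40147 (nat_lit 5274) (nat_lit 0) (nat_lit 7))
    (@En.n l43050 (nat_lit 8797) (nat_lit 12) (nat_lit 11))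
    (@En.n l33708 (nat_lit 11987) (nat_lit 2) (nat_lit 13))
    (@En.n l7 (nat_lit 9879) (nat_lit 3) (nat_lit 7))
    (@En.n l644 (nat_lit 9804) (nat_lit 4) (nat_lit 9))
    (@En.n l38258 (nat_lit 9792) (nat_lit 12) (nat_lit 4))
    (@En.n l11399 (nat_lit 10502) (nat_lit 0) (nat_lit 5))
    (@En.n l43051 (nat_lit 8919) (nat_lit 9) (nat_lit 9))
    (@En.n l43052 (nat_lit 9640) (nat_lit 8) (nat_lit 6))
    (@En.n l43053 (nat_lit 7926) (nat_lit 6) (nat_lit 12))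
    (@En.i (nat_lit 6125) (nat_lit 11) (nat_lit 9))
    (@En.n l43054 (nat_lit 10653) (nat_lit 12) (nat_lit 11))
    (@En.n l43055 (nat_lit 9710) (nat_lit 11) (nat_lit 5))
    (@En.n l11399 (nat_lit 10440) (nat_lit 14) (nat_lit 7))
    (@En.n l16218 (nat_lit 9874) (nat_lit 1) (nat_lit 10))
    (@En.n l152 (nat_lit 9877) (nat_lit 15) (nat_lit 3))))
  (@Cl.mk (nat_lit 0x30009000c0005000a00090004000c0007000a000600040007000d000b0006) (nat_lit 0x560530905000330) (nat_lit 16) Lb.e (@T16.mk En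
    (@En.n l9874 (nat_lit 5275) (nat_lit 0) (nat_lit 6))
    (@En.n l619 (nat_lit 8796) (nat_lit 13) (nat_lit 11))
    (@En.n l38363 (nat_lit 10475) (nat_lit 2) (nat_lit 13))
    (@En.n l17 (nat_lit 7562) (nat_lit 11) (nat_lit 7))
    (@En.n l3532 (nat_lit 9790) (nat_lit 4) (nat_lit 4))
    (@En.i (nat_lit 10493) (nat_lit 0) (nat_lit 6))
    (@En.n l6788 (nat_lit 8925) (nat_lit 8) (nat_lit 10))
    (@En.i (nat_lit 9804) (nat_lit 7) (nat_lit 7))
    (@En.i (nat_lit 9878) (nat_lit 9) (nat_lit 12))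
    (@En.n l38361 (nat_lit 9952) (nat_lit 9) (nat_lit 4))
    (@En.i (nat_lit 6121) (nat_lit 11) (nat_lit 9))
    (@En.n l21082 (nat_lit 10656) (nat_lit 12) (nat_lit 10))
    (@En.i (nat_lit 9708) (nat_lit 7) (nat_lit 5))
    (@En.i (nat_lit 9145) (nat_lit 6) (nat_lit 12))
    (@En.n l16218 (nat_lit 9876) (nat_lit 1) (nat_lit 9))
    (@En.n l152 (nat_lit 9950) (nat_lit 15) (nat_lit 3))))
  (@Cl.mk (nat_lit 0x20007000c000b000900060004000a0005000d0009000700030006000e000a) (nat_lit 0x27600405400071) (nat_lit 16) Lb.e (@T16.mk En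
    (@En.i (nat_lit 7190) (nat_lit 13) (nat_lit 10))
    (@En.n l13295 (nat_lit 11283) (nat_lit 1) (nat_lit 14))
    (@En.i (nat_lit 9614) (nat_lit 2) (nat_lit 6))
    (@En.n l1651 (nat_lit 9882) (nat_lit 3) (nat_lit 3))
    (@En.n l16445 (nat_lit 497) (nat_lit 0) (nat_lit 7))
    (@En.n l16446 (nat_lit 9870) (nat_lit 5) (nat_lit 9))
    (@En.n l3695 (nat_lit 7191) (nat_lit 7) (nat_lit 13))
    (@En.n l8331 (nat_lit 9886) (nat_lit 7) (nat_lit 5))
    (@En.n l16447 (nat_lit 9527) (nat_lit 9) (nat_lit 10))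
    (@En.n l6628 (nat_lit 7354) (nat_lit 9) (nat_lit 4))
    (@En.i (nat_lit 10257) (nat_lit 6) (nat_lit 6))
    (@En.n l16448 (nat_lit 7763) (nat_lit 12) (nat_lit 9))
    (@En.n l16449 (nat_lit 10016) (nat_lit 13) (nat_lit 11))
    (@En.n l8331 (nat_lit 7525) (nat_lit 14) (nat_lit 12))
    (@En.i (nat_lit 4321) (nat_lit 11) (nat_lit 7))
    (@En.n l28 (nat_lit 9880) (nat_lit 15) (nat_lit 2))))
  (@Cl.mk (nat_lit 0x20007000c0007000b00060004000a000d00050009000300090006000e000a) (nat_lit 0x20500440406077) (nat_lit 16) Lb.e (@T16.mk En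
    (@En.n l30815 (nat_lit 9884) (nat_lit 12) (nat_lit 10))
    (@En.i (nat_lit 11282) (nat_lit 1) (nat_lit 14))
    (@En.n l15957 (nat_lit 9882) (nat_lit 2) (nat_lit 6))
    (@En.n l30816 (nat_lit 7997) (nat_lit 3) (nat_lit 9))
    (@En.n l29022 (nat_lit 7191) (nat_lit 4) (nat_lit 3))
    (@En.n l387 (nat_lit 12311) (nat_lit 5) (nat_lit 9))
    (@En.n l22614 (nat_lit 9839) (nat_lit 6) (nat_lit 5))
    (@En.i (nat_lit 6460) (nat_lit 8) (nat_lit 13))
    (@En.n l30817 (nat_lit 9529) (nat_lit 9) (nat_lit 10))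
    (@En.i (nat_lit 7357) (nat_lit 9) (nat_lit 4))
    (@En.n l10637 (nat_lit 12026) (nat_lit 5) (nat_lit 6))
    (@En.n l6758 (nat_lit 8626) (nat_lit 12) (nat_lit 11))
    (@En.n l30818 (nat_lit 4548) (nat_lit 13) (nat_lit 7))
    (@En.n l617 (nat_lit 7527) (nat_lit 14) (nat_lit 12))
    (@En.i (nat_lit 11775) (nat_lit 4) (nat_lit 7))
    (@En.n l11 (nat_lit 9881) (nat_lit 15) (nat_lit 2))))
  (@Cl.mk (nat_lit 0x20006000c000b000a00060004000a0005000d0006000a00030006000e000a) (nat_lit 0x295004050500b7) (nat_lit 16) Lb.e (@T16.mk En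
    (@En.n l24029 (nat_lit 9883) (nat_lit 13) (nat_lit 10))
    (@En.n l3422 (nat_lit 11284) (nat_lit 1) (nat_lit 14))
    (@En.n l387 (nat_lit 7709) (nat_lit 2) (nat_lit 6))
    (@En.n l6373 (nat_lit 9880) (nat_lit 3) (nat_lit 3))
    (@En.n l1386 (nat_lit 12308) (nat_lit 0) (nat_lit 10))
    (@En.n l9754 (nat_lit 9617) (nat_lit 5) (nat_lit 6))
    (@En.n l11835 (nat_lit 9881) (nat_lit 7) (nat_lit 13))
    (@En.n l28 (nat_lit 9885) (nat_lit 7) (nat_lit 5))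
    (@En.n l10852 (nat_lit 8078) (nat_lit 9) (nat_lit 10))
    (@En.i (nat_lit 7356) (nat_lit 9) (nat_lit 4))
    (@En.n l14740 (nat_lit 12025) (nat_lit 6) (nat_lit 6))
    (@En.n l457 (nat_lit 8625) (nat_lit 12) (nat_lit 10))
    (@En.n l575 (nat_lit 10011) (nat_lit 13) (nat_lit 11))
    (@En.n l17 (nat_lit 7524) (nat_lit 14) (nat_lit 12))
    (@En.i (nat_lit 11774) (nat_lit 13) (nat_lit 6))
    (@En.n l3 (nat_lit 9882) (nat_lit 15) (nat_lit 2))))
  (@Cl.mk (nat_lit 0x30006000a000a0005000b000a0009000600060005000a0006000d0007000b) (nat_lit 0x65037300050507) (nat_lit 16) Lb.e (@T16.mk En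
    (@En.n l38866 (nat_lit 12293) (nat_lit 0) (nat_lit 11))
    (@En.n l21358 (nat_lit 9616) (nat_lit 2) (nat_lit 7))
    (@En.n l38867 (nat_lit 9884) (nat_lit 2) (nat_lit 13))
    (@En.n l38868 (nat_lit 8184) (nat_lit 3) (nat_lit 6))
    (@En.n l17455 (nat_lit 9897) (nat_lit 4) (nat_lit 10))
    (@En.n l38869 (nat_lit 9541) (nat_lit 5) (nat_lit 5))
    (@En.n l38870 (nat_lit 9882) (nat_lit 10) (nat_lit 6))
    (@En.n l23990 (nat_lit 11099) (nat_lit 7) (nat_lit 6))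
    (@En.n l8015 (nat_lit 7905) (nat_lit 7) (nat_lit 9))
    (@En.n l21358 (nat_lit 10007) (nat_lit 10) (nat_lit 10))
    (@En.n l38868 (nat_lit 6296) (nat_lit 11) (nat_lit 11))
    (@En.n l38871 (nat_lit 11084) (nat_lit 12) (nat_lit 5))
    (@En.n l1899 (nat_lit 9902) (nat_lit 6) (nat_lit 10))
    (@En.n l3057 (nat_lit 10421) (nat_lit 9) (nat_lit 10))
    (@En.i (nat_lit 7703) (nat_lit 12) (nat_lit 6))
    (@En.n l17454 (nat_lit 7190) (nat_lit 15) (nat_lit 3))))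
  (@Cl.mk (nat_lit 0x3000a0006000a000a0006000b0006000a000600060005000a000d0006000a) (nat_lit 0x606603030004404) (nat_lit 16) Lb.e (@T16.mk En
    (@En.n l42425 (nat_lit 12290) (nat_lit 0) (nat_lit 10))
    (@En.n l42426 (nat_lit 9840) (nat_lit 3) (nat_lit 6))
    (@En.i (nat_lit 11194) (nat_lit 5) (nat_lit 13))
    (@En.n l15535 (nat_lit 9896) (nat_lit 3) (nat_lit 10))
    (@En.n l42427 (nat_lit 9542) (nat_lit 11) (nat_lit 5))
    (@En.n l33373 (nat_lit 9881) (nat_lit 10) (nat_lit 6))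
    (@En.i (nat_lit 11100) (nat_lit 6) (nat_lit 6))
    (@En.n l27676 (nat_lit 8623) (nat_lit 9) (nat_lit 10))
    (@En.n l30811 (nat_lit 4524) (nat_lit 8) (nat_lit 6))
    (@En.i (nat_lit 6297) (nat_lit 10) (nat_lit 11))
    (@En.n l742 (nat_lit 11085) (nat_lit 11) (nat_lit 6))
    (@En.n l396 (nat_lit 9901) (nat_lit 6) (nat_lit 10))
    (@En.n l30812 (nat_lit 10628) (nat_lit 13) (nat_lit 10))
    (@En.n l40695 (nat_lit 9883) (nat_lit 14) (nat_lit 6))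
    (@En.n l42428 (nat_lit 8010) (nat_lit 0) (nat_lit 10))
    (@En.n l152 (nat_lit 7189) (nat_lit 15) (nat_lit 3))))
  (@Cl.mk (nat_lit 0x20006000b000b0007000b000700050005000d0005000a00030009000e0009) (nat_lit 0x25060004040464) (nat_lit 16) Lb.e (@T16.mk En
    (@En.n l18142 (nat_lit 8184) (nat_lit 13) (nat_lit 9))
    (@En.n l3621 (nat_lit 11313) (nat_lit 1) (nat_lit 14))
    (@En.n l387 (nat_lit 11654) (nat_lit 2) (nat_lit 9))
    (@En.n l10010 (nat_lit 9886) (nat_lit 3) (nat_lit 3))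
    (@En.n l18143 (nat_lit 12379) (nat_lit 4) (nat_lit 10))
    (@En.n l18144 (nat_lit 9887) (nat_lit 5) (nat_lit 5))
    (@En.n l18145 (nat_lit 9857) (nat_lit 7) (nat_lit 13))
    (@En.n l575 (nat_lit 9889) (nat_lit 7) (nat_lit 5))
    (@En.i (nat_lit 10610) (nat_lit 8) (nat_lit 5))
    (@En.n l18146 (nat_lit 10253) (nat_lit 10) (nat_lit 7))
    (@En.n l6904 (nat_lit 8084) (nat_lit 11) (nat_lit 11))
    (@En.n l1316 (nat_lit 9881) (nat_lit 12) (nat_lit 7))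
    (@En.n l18147 (nat_lit 11505) (nat_lit 13) (nat_lit 11))
    (@En.n l18148 (nat_lit 7515) (nat_lit 14) (nat_lit 11))
    (@En.i (nat_lit 10850) (nat_lit 13) (nat_lit 6))
    (@En.n l3 (nat_lit 9885) (nat_lit 15) (nat_lit 2))))
  (@Cl.mk (nat_lit 0x20007000b000b0007000a000700050005000d0009000600030009000e0009) (nat_lit 0x25050003300464) (nat_lit 16) Lb.e (@T16.mk En
    (@En.n l68 (nat_lit 8183) (nat_lit 13) (nat_lit 9))
    (@En.n l1236 (nat_lit 11312) (nat_lit 1) (nat_lit 14))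
    (@En.n l6785 (nat_lit 9887) (nat_lit 2) (nat_lit 9))
    (@En.n l17689 (nat_lit 9885) (nat_lit 3) (nat_lit 3))
    (@En.n l23018 (nat_lit 3174) (nat_lit 0) (nat_lit 6))
    (@En.i (nat_lit 9891) (nat_lit 5) (nat_lit 9))
    (@En.n l5200 (nat_lit 9856) (nat_lit 7) (nat_lit 13))
    (@En.n l4045 (nat_lit 9888) (nat_lit 7) (nat_lit 5))
    (@En.n l28 (nat_lit 10608) (nat_lit 8) (nat_lit 5))
    (@En.n l1236 (nat_lit 10250) (nat_lit 10) (nat_lit 7))
    (@En.n l1792 (nat_lit 8970) (nat_lit 11) (nat_lit 10))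
    (@En.n l2438 (nat_lit 7191) (nat_lit 12) (nat_lit 7))
    (@En.n l77 (nat_lit 11504) (nat_lit 13) (nat_lit 11))
    (@En.i (nat_lit 7516) (nat_lit 14) (nat_lit 11))
    (@En.n l476 (nat_lit 10860) (nat_lit 11) (nat_lit 7))
    (@En.n l67 (nat_lit 9886) (nat_lit 15) (nat_lit 2))))
  (@Cl.mk (nat_lit 0x20006000a000a0007000b000a0008000600060005000a00060009000e0008) (nat_lit 0x25016500030351) (nat_lit 16) Lb.e (@T16.mk En
    (@En.n l21528 (nat_lit 8185) (nat_lit 1) (nat_lit 8))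
    (@En.n l564 (nat_lit 7438) (nat_lit 1) (nat_lit 14))
    (@En.n l21529 (nat_lit 12546) (nat_lit 2) (nat_lit 9))
    (@En.i (nat_lit 1941) (nat_lit 3) (nat_lit 6))
    (@En.n l21530 (nat_lit 11513) (nat_lit 4) (nat_lit 10))
    (@En.n l17159 (nat_lit 11270) (nat_lit 5) (nat_lit 5))
    (@En.n l3498 (nat_lit 9890) (nat_lit 6) (nat_lit 6))
    (@En.n l21531 (nat_lit 10609) (nat_lit 7) (nat_lit 6))
    (@En.n l9890 (nat_lit 12155) (nat_lit 9) (nat_lit 8))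
    (@En.n l10539 (nat_lit 9886) (nat_lit 10) (nat_lit 10))
    (@En.i (nat_lit 5314) (nat_lit 11) (nat_lit 11))
    (@En.n l21532 (nat_lit 9839) (nat_lit 12) (nat_lit 7))
    (@En.n l16851 (nat_lit 11506) (nat_lit 13) (nat_lit 10))
    (@En.n l8237 (nat_lit 7518) (nat_lit 14) (nat_lit 10))
    (@En.n l21533 (nat_lit 10861) (nat_lit 13) (nat_lit 6))
    (@En.n l18 (nat_lit 9887) (nat_lit 15) (nat_lit 2))))
noncomputable def a618 : T16 Cl := @T16.mk Cl
  (@Cl.mk (nat_lit 0x20007000e000b00020008000b00080005000d0009000500030008000e0008) (nat_lit 0x230473022004b6) (nat_lit 16) Lb.e (@T16.mk En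
    (@En.n l10963 (nat_lit 8179) (nat_lit 4) (nat_lit 8))
    (@En.i (nat_lit 11315) (nat_lit 6) (nat_lit 14))
    (@En.n l343 (nat_lit 9890) (nat_lit 2) (nat_lit 8))
    (@En.n l8517 (nat_lit 9889) (nat_lit 3) (nat_lit 3))
    (@En.i (nat_lit 1940) (nat_lit 8) (nat_lit 5))
    (@En.n l4316 (nat_lit 12843) (nat_lit 5) (nat_lit 9))
    (@En.n l1253 (nat_lit 5907) (nat_lit 11) (nat_lit 13))
    (@En.n l4155 (nat_lit 8626) (nat_lit 7) (nat_lit 5))
    (@En.i (nat_lit 10246) (nat_lit 13) (nat_lit 8))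
    (@En.n l387 (nat_lit 8998) (nat_lit 10) (nat_lit 11))
    (@En.n l170 (nat_lit 9526) (nat_lit 11) (nat_lit 8))
    (@En.n l3 (nat_lit 9888) (nat_lit 11) (nat_lit 2))
    (@En.n l10964 (nat_lit 9886) (nat_lit 13) (nat_lit 11))
    (@En.n l7857 (nat_lit 3951) (nat_lit 1) (nat_lit 14))
    (@En.n l10965 (nat_lit 7549) (nat_lit 2) (nat_lit 7))
    (@En.n l50 (nat_lit 9888) (nat_lit 15) (nat_lit 2))))
  (@Cl.mk (nat_lit 0x20006000e000b00020008000c00080005000d0004000a00030008000e0008) (nat_lit 0x130373030304b4) (nat_lit 16) Lb.e (@T16.mk En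
    (@En.n l17779 (nat_lit 8180) (nat_lit 4) (nat_lit 8))
    (@En.n l3621 (nat_lit 11319) (nat_lit 6) (nat_lit 14))
    (@En.n l387 (nat_lit 12550) (nat_lit 2) (nat_lit 8))
    (@En.n l3621 (nat_lit 9888) (nat_lit 3) (nat_lit 3))
    (@En.n l3629 (nat_lit 12378) (nat_lit 4) (nat_lit 10))
    (@En.n l3621 (nat_lit 9890) (nat_lit 5) (nat_lit 4))
    (@En.n l17780 (nat_lit 5908) (nat_lit 7) (nat_lit 13))
    (@En.i (nat_lit 8624) (nat_lit 7) (nat_lit 5))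
    (@En.n l10968 (nat_lit 10248) (nat_lit 13) (nat_lit 8))
    (@En.n l617 (nat_lit 8999) (nat_lit 10) (nat_lit 12))
    (@En.n l3954 (nat_lit 9894) (nat_lit 11) (nat_lit 8))
    (@En.n l11 (nat_lit 9889) (nat_lit 11) (nat_lit 2))
    (@En.i (nat_lit 9885) (nat_lit 13) (nat_lit 11))
    (@En.n l17 (nat_lit 2122) (nat_lit 1) (nat_lit 14))
    (@En.n l17781 (nat_lit 10854) (nat_lit 2) (nat_lit 6))
    (@En.n l3 (nat_lit 9889) (nat_lit 15) (nat_lit 2))))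
  (@Cl.mk (nat_lit 0x20006000e000a00020008000c000b000900060004000a00050008000e0007) (nat_lit 0x230418400203a0) (nat_lit 16) Lb.e (@T16.mk En
    (@En.n l6204 (nat_lit 8178) (nat_lit 4) (nat_lit 7))
    (@En.i (nat_lit 7443) (nat_lit 6) (nat_lit 14))
    (@En.n l21919 (nat_lit 12548) (nat_lit 2) (nat_lit 8))
    (@En.n l11 (nat_lit 1935) (nat_lit 7) (nat_lit 5))
    (@En.n l287 (nat_lit 12841) (nat_lit 4) (nat_lit 10))
    (@En.n l11 (nat_lit 11266) (nat_lit 5) (nat_lit 4))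
    (@En.n l4155 (nat_lit 8625) (nat_lit 6) (nat_lit 6))
    (@En.n l77 (nat_lit 12158) (nat_lit 12) (nat_lit 9))
    (@En.n l55 (nat_lit 9888) (nat_lit 9) (nat_lit 11))
    (@En.n l387 (nat_lit 7157) (nat_lit 10) (nat_lit 12))
    (@En.i (nat_lit 9523) (nat_lit 11) (nat_lit 8))
    (@En.n l3 (nat_lit 9890) (nat_lit 11) (nat_lit 2))
    (@En.n l387 (nat_lit 9887) (nat_lit 13) (nat_lit 10))
    (@En.n l10706 (nat_lit 3952) (nat_lit 1) (nat_lit 14))
    (@En.n l2179 (nat_lit 7550) (nat_lit 2) (nat_lit 6))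
    (@En.n l50 (nat_lit 9890) (nat_lit 15) (nat_lit 2))))
  (@Cl.mk (nat_lit 0x200070006000b000b0008000b00080005000500090005000a0008000e0008) (nat_lit 0x3648400207553) (nat_lit 16) Lb.e (@T16.mk En
    (@En.n l68 (nat_lit 9330) (nat_lit 2) (nat_lit 8))
    (@En.n l1236 (nat_lit 8006) (nat_lit 1) (nat_lit 14))
    (@En.n l32984 (nat_lit 11513) (nat_lit 2) (nat_lit 8))
    (@En.n l10949 (nat_lit 11517) (nat_lit 3) (nat_lit 10))
    (@En.n l32985 (nat_lit 5274) (nat_lit 4) (nat_lit 5))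
    (@En.n l32986 (nat_lit 9893) (nat_lit 5) (nat_lit 9))
    (@En.n l32987 (nat_lit 12843) (nat_lit 6) (nat_lit 5))
    (@En.n l32988 (nat_lit 9566) (nat_lit 7) (nat_lit 5))
    (@En.n l32989 (nat_lit 9164) (nat_lit 9) (nat_lit 8))
    (@En.n l8212 (nat_lit 8967) (nat_lit 10) (nat_lit 11))
    (@En.n l32990 (nat_lit 9637) (nat_lit 11) (nat_lit 8))
    (@En.n l77 (nat_lit 11507) (nat_lit 12) (nat_lit 11))
    (@En.i (nat_lit 9603) (nat_lit 13) (nat_lit 11))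
    (@En.n l32988 (nat_lit 9885) (nat_lit 14) (nat_lit 6))
    (@En.n l32991 (nat_lit 11803) (nat_lit 13) (nat_lit 7))
    (@En.n l67 (nat_lit 9891) (nat_lit 15) (nat_lit 2))))
  (@Cl.mk (nat_lit 0x20006000d000c000a000300090004000c000a0006000a00040007000e0006) (nat_lit 0x56403091010030) (nat_lit 16) Lb.e (@T16.mk En
    (@En.n l30004 (nat_lit 11202) (nat_lit 5) (nat_lit 6))
    (@En.i (nat_lit 7123) (nat_lit 1) (nat_lit 14))
    (@En.n l19836 (nat_lit 12727) (nat_lit 2) (nat_lit 7))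
    (@En.i (nat_lit 5184) (nat_lit 3) (nat_lit 4))
    (@En.n l2129 (nat_lit 2282) (nat_lit 4) (nat_lit 10))
    (@En.n l8498 (nat_lit 9882) (nat_lit 5) (nat_lit 6))
    (@En.n l77 (nat_lit 8251) (nat_lit 7) (nat_lit 10))
    (@En.n l476 (nat_lit 9893) (nat_lit 8) (nat_lit 12))
    (@En.n l387 (nat_lit 11267) (nat_lit 8) (nat_lit 4))
    (@En.i (nat_lit 9525) (nat_lit 10) (nat_lit 9))
    (@En.n l12587 (nat_lit 11271) (nat_lit 10) (nat_lit 3))
    (@En.n l619 (nat_lit 9890) (nat_lit 12) (nat_lit 10))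
    (@En.n l1106 (nat_lit 11269) (nat_lit 13) (nat_lit 12))
    (@En.n l30005 (nat_lit 9053) (nat_lit 14) (nat_lit 13))
    (@En.n l2179 (nat_lit 11763) (nat_lit 13) (nat_lit 6))
    (@En.n l50 (nat_lit 9892) (nat_lit 15) (nat_lit 2))))
  (@Cl.mk (nat_lit 0x20007000d0007000b00030009000c000900050009000400090007000e0007) (nat_lit 0x80402800107040) (nat_lit 16) Lb.e (@T16.mk En
    (@En.n l37283 (nat_lit 11209) (nat_lit 5) (nat_lit 7))
    (@En.n l253 (nat_lit 9626) (nat_lit 1) (nat_lit 14))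
    (@En.i (nat_lit 9892) (nat_lit 2) (nat_lit 7))
    (@En.n l21824 (nat_lit 11303) (nat_lit 3) (nat_lit 9))
    (@En.i (nat_lit 1309) (nat_lit 4) (nat_lit 4))
    (@En.n l23322 (nat_lit 2284) (nat_lit 5) (nat_lit 9))
    (@En.n l37284 (nat_lit 9881) (nat_lit 6) (nat_lit 5))
    (@En.n l21825 (nat_lit 10313) (nat_lit 8) (nat_lit 9))
    (@En.n l37285 (nat_lit 6456) (nat_lit 9) (nat_lit 12))
    (@En.n l152 (nat_lit 11258) (nat_lit 10) (nat_lit 9))
    (@En.n l37286 (nat_lit 11273) (nat_lit 10) (nat_lit 3))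
    (@En.n l513 (nat_lit 9888) (nat_lit 12) (nat_lit 11))
    (@En.n l37287 (nat_lit 9858) (nat_lit 13) (nat_lit 7))
    (@En.n l37288 (nat_lit 9052) (nat_lit 14) (nat_lit 13))
    (@En.n l37285 (nat_lit 11947) (nat_lit 3) (nat_lit 7))
    (@En.n l50 (nat_lit 9893) (nat_lit 15) (nat_lit 2))))
  (@Cl.mk (nat_lit 0x200070005000c0008000c00070004000d0004000900030008000b000e0009) (nat_lit 0x3250030304745) (nat_lit 16) Lb.e (@T16.mk En
    (@En.n l33523 (nat_lit 9895) (nat_lit 12) (nat_lit 9))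
    (@En.n l33524 (nat_lit 12820) (nat_lit 4) (nat_lit 14))
    (@En.n l10937 (nat_lit 9002) (nat_lit 2) (nat_lit 11))
    (@En.n l10938 (nat_lit 8167) (nat_lit 3) (nat_lit 8))
    (@En.n l1029 (nat_lit 9526) (nat_lit 4) (nat_lit 3))
    (@En.n l2989 (nat_lit 11332) (nat_lit 0) (nat_lit 9))
    (@En.n l19464 (nat_lit 9523) (nat_lit 6) (nat_lit 4))
    (@En.n l33525 (nat_lit 6698) (nat_lit 8) (nat_lit 13))
    (@En.n l11 (nat_lit 7633) (nat_lit 8) (nat_lit 4))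
    (@En.n l33526 (nat_lit 10360) (nat_lit 4) (nat_lit 7))
    (@En.i (nat_lit 8334) (nat_lit 11) (nat_lit 12))
    (@En.n l33527 (nat_lit 9529) (nat_lit 12) (nat_lit 8))
    (@En.n l16713 (nat_lit 9881) (nat_lit 13) (nat_lit 12))
    (@En.n l17 (nat_lit 9501) (nat_lit 14) (nat_lit 5))
    (@En.i (nat_lit 9699) (nat_lit 7) (nat_lit 7))
    (@En.n l3 (nat_lit 9894) (nat_lit 15) (nat_lit 2))))
  (@Cl.mk (nat_lit 0x30009000c0009000900060004000b0007000b000700070005000d0005000a) (nat_lit 0x584500406000403) (nat_lit 16) Lb.e (@T16.mk En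
    (@En.n l31894 (nat_lit 11326) (nat_lit 0) (nat_lit 10))
    (@En.n l43017 (nat_lit 9023) (nat_lit 7) (nat_lit 5))
    (@En.n l43018 (nat_lit 6693) (nat_lit 2) (nat_lit 13))
    (@En.i (nat_lit 10307) (nat_lit 3) (nat_lit 5))
    (@En.n l43019 (nat_lit 9894) (nat_lit 9) (nat_lit 7))
    (@En.n l34093 (nat_lit 11117) (nat_lit 5) (nat_lit 7))
    (@En.n l43020 (nat_lit 8331) (nat_lit 8) (nat_lit 11))
    (@En.n l43021 (nat_lit 9896) (nat_lit 7) (nat_lit 7))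
    (@En.n l43022 (nat_lit 9884) (nat_lit 9) (nat_lit 11))
    (@En.n l50 (nat_lit 9495) (nat_lit 9) (nat_lit 4))
    (@En.n l43023 (nat_lit 11884) (nat_lit 0) (nat_lit 6))
    (@En.n l32047 (nat_lit 9898) (nat_lit 7) (nat_lit 9))
    (@En.n l43024 (nat_lit 11070) (nat_lit 13) (nat_lit 9))
    (@En.n l3819 (nat_lit 9007) (nat_lit 6) (nat_lit 12))
    (@En.i (nat_lit 10993) (nat_lit 4) (nat_lit 9))
    (@En.n l25852 (nat_lit 9019) (nat_lit 15) (nat_lit 3))))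
  (@Cl.mk (nat_lit 0x300090006000c000a000a000700040007000b00060006000a000d00050009) (nat_lit 0x409560005003403) (nat_lit 16) Lb.e (@T16.mk En
    (@En.n l38989 (nat_lit 11325) (nat_lit 0) (nat_lit 9))
    (@En.n l38990 (nat_lit 9024) (nat_lit 8) (nat_lit 5))
    (@En.i (nat_lit 6691) (nat_lit 5) (nat_lit 13))
    (@En.n l2823 (nat_lit 9553) (nat_lit 9) (nat_lit 10))
    (@En.n l38991 (nat_lit 9529) (nat_lit 10) (nat_lit 6))
    (@En.n l4708 (nat_lit 11115) (nat_lit 5) (nat_lit 6))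
    (@En.n l9890 (nat_lit 7636) (nat_lit 8) (nat_lit 11))
    (@En.n l28288 (nat_lit 3408) (nat_lit 11) (nat_lit 7))
    (@En.n l936 (nat_lit 9490) (nat_lit 8) (nat_lit 4))
    (@En.i (nat_lit 11885) (nat_lit 0) (nat_lit 7))
    (@En.n l23686 (nat_lit 9899) (nat_lit 6) (nat_lit 10))
    (@En.n l38992 (nat_lit 10669) (nat_lit 12) (nat_lit 10))
    (@En.n l38993 (nat_lit 9895) (nat_lit 13) (nat_lit 12))
    (@En.n l17334 (nat_lit 9897) (nat_lit 14) (nat_lit 6))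
    (@En.n l38994 (nat_lit 10992) (nat_lit 5) (nat_lit 9))
    (@En.n l7 (nat_lit 9021) (nat_lit 15) (nat_lit 3))))
  (@Cl.mk (nat_lit 0x30006000c000a000a00060004000b000a00060006000a0005000d0006000a) (nat_lit 0x87700450040504) (nat_lit 16) Lb.e (@T16.mk En
    (@En.n l22640 (nat_lit 11327) (nat_lit 0) (nat_lit 10))
    (@En.n l24943 (nat_lit 9313) (nat_lit 7) (nat_lit 6))
    (@En.n l40023 (nat_lit 9896) (nat_lit 2) (nat_lit 13))
    (@En.n l40024 (nat_lit 9895) (nat_lit 3) (nat_lit 5))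
    (@En.i (nat_lit 9551) (nat_lit 4) (nat_lit 10))
    (@En.n l11401 (nat_lit 8078) (nat_lit 10) (nat_lit 6))
    (@En.n l40025 (nat_lit 11116) (nat_lit 6) (nat_lit 6))
    (@En.n l30685 (nat_lit 7635) (nat_lit 6) (nat_lit 10))
    (@En.n l40026 (nat_lit 10012) (nat_lit 9) (nat_lit 11))
    (@En.n l17324 (nat_lit 9496) (nat_lit 9) (nat_lit 4))
    (@En.n l16988 (nat_lit 11881) (nat_lit 0) (nat_lit 6))
    (@En.n l22642 (nat_lit 9900) (nat_lit 6) (nat_lit 10))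
    (@En.n l22643 (nat_lit 10668) (nat_lit 13) (nat_lit 10))
    (@En.n l38110 (nat_lit 9011) (nat_lit 14) (nat_lit 12))
    (@En.n l22644 (nat_lit 6477) (nat_lit 12) (nat_lit 6))
    (@En.n l19799 (nat_lit 9017) (nat_lit 15) (nat_lit 3))))
  (@Cl.mk (nat_lit 0x20006000d0006000b0003000a000d000900050003000a0006000a000e0007) (nat_lit 0x50504940030590) (nat_lit 16) Lb.e (@T16.mk En
    (@En.n l17859 (nat_lit 9895) (nat_lit 5) (nat_lit 7))
    (@En.n l17860 (nat_lit 12669) (nat_lit 1) (nat_lit 14))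
    (@En.i (nat_lit 8327) (nat_lit 2) (nat_lit 10))
    (@En.n l3 (nat_lit 9899) (nat_lit 3) (nat_lit 6))
    (@En.n l24201 (nat_lit 9901) (nat_lit 4) (nat_lit 10))
    (@En.n l50 (nat_lit 7462) (nat_lit 5) (nat_lit 3))
    (@En.n l24196 (nat_lit 7578) (nat_lit 6) (nat_lit 5))
    (@En.n l37262 (nat_lit 10948) (nat_lit 8) (nat_lit 9))
    (@En.n l24196 (nat_lit 9031) (nat_lit 9) (nat_lit 13))
    (@En.n l2678 (nat_lit 8056) (nat_lit 10) (nat_lit 10))
    (@En.n l24196 (nat_lit 9020) (nat_lit 10) (nat_lit 3))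
    (@En.n l6105 (nat_lit 5791) (nat_lit 12) (nat_lit 11))
    (@En.n l21697 (nat_lit 9907) (nat_lit 13) (nat_lit 6))
    (@En.n l37263 (nat_lit 6613) (nat_lit 14) (nat_lit 13))
    (@En.n l17859 (nat_lit 10895) (nat_lit 13) (nat_lit 6))
    (@En.n l17 (nat_lit 9898) (nat_lit 15) (nat_lit 2))))
  (@Cl.mk (nat_lit 0x2000a000d0006000a0003000a0006000d000a000600030006000a000e0006) (nat_lit 0x5504050a5000590) (nat_lit 16) Lb.e (@T16.mk En
    (@En.n l23474 (nat_lit 9896) (nat_lit 5) (nat_lit 6))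
    (@En.n l810 (nat_lit 12668) (nat_lit 1) (nat_lit 14))
    (@En.i (nat_lit 8094) (nat_lit 2) (nat_lit 10))
    (@En.n l2666 (nat_lit 3404) (nat_lit 3) (nat_lit 6))
    (@En.n l50 (nat_lit 7463) (nat_lit 4) (nat_lit 3))
    (@En.n l23475 (nat_lit 10039) (nat_lit 0) (nat_lit 6))
    (@En.n l23476 (nat_lit 10665) (nat_lit 7) (nat_lit 10))
    (@En.n l1690 (nat_lit 9898) (nat_lit 8) (nat_lit 13))
    (@En.n l10862 (nat_lit 9900) (nat_lit 8) (nat_lit 6))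
    (@En.n l2678 (nat_lit 8057) (nat_lit 10) (nat_lit 10))
    (@En.n l23477 (nat_lit 9022) (nat_lit 10) (nat_lit 3))
    (@En.n l7457 (nat_lit 11320) (nat_lit 0) (nat_lit 10))
    (@En.n l23475 (nat_lit 9025) (nat_lit 13) (nat_lit 6))
    (@En.n l5975 (nat_lit 6695) (nat_lit 14) (nat_lit 13))
    (@En.n l23478 (nat_lit 9545) (nat_lit 10) (nat_lit 10))
    (@En.n l17 (nat_lit 9899) (nat_lit 15) (nat_lit 2))))
  (@Cl.mk (nat_lit 0x2000a0006000d0007000b00030006000d000a00050003000a0009000e0006) (nat_lit 0x5060700a6008480) (nat_lit 16) Lb.e (@T16.mk En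
    (@En.n l17645 (nat_lit 9897) (nat_lit 6) (nat_lit 6))
    (@En.i (nat_lit 12667) (nat_lit 1) (nat_lit 14))
    (@En.n l8015 (nat_lit 8093) (nat_lit 2) (nat_lit 9))
    (@En.n l830 (nat_lit 10021) (nat_lit 3) (nat_lit 10))
    (@En.n l50 (nat_lit 7464) (nat_lit 4) (nat_lit 3))
    (@En.n l10266 (nat_lit 10037) (nat_lit 5) (nat_lit 5))
    (@En.n l217 (nat_lit 10666) (nat_lit 13) (nat_lit 10))
    (@En.n l1690 (nat_lit 9028) (nat_lit 8) (nat_lit 13))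
    (@En.i (nat_lit 6473) (nat_lit 12) (nat_lit 6))
    (@En.i (nat_lit 9018) (nat_lit 9) (nat_lit 3))
    (@En.n l5588 (nat_lit 11319) (nat_lit 0) (nat_lit 11))
    (@En.n l10266 (nat_lit 9310) (nat_lit 12) (nat_lit 7))
    (@En.n l1578 (nat_lit 9899) (nat_lit 13) (nat_lit 13))
    (@En.n l2038 (nat_lit 9898) (nat_lit 14) (nat_lit 6))
    (@En.n l37517 (nat_lit 9547) (nat_lit 4) (nat_lit 10))
    (@En.n l17 (nat_lit 9900) (nat_lit 15) (nat_lit 2))))
  (@Cl.mk (nat_lit 0x20006000a000d0007000b0003000b0006000a0005000a00050009000e0006) (nat_lit 0x63070405020460) (nat_lit 16) Lb.e (@T16.mk En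
    (@En.n l50 (nat_lit 9884) (nat_lit 6) (nat_lit 6))
    (@En.n l11706 (nat_lit 9779) (nat_lit 1) (nat_lit 14))
    (@En.n l33010 (nat_lit 7902) (nat_lit 2) (nat_lit 9))
    (@En.n l11361 (nat_lit 3407) (nat_lit 3) (nat_lit 5))
    (@En.i (nat_lit 6303) (nat_lit 4) (nat_lit 10))
    (@En.n l13562 (nat_lit 9915) (nat_lit 5) (nat_lit 5))
    (@En.n l11361 (nat_lit 10446) (nat_lit 7) (nat_lit 10))
    (@En.n l39819 (nat_lit 9902) (nat_lit 7) (nat_lit 6))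
    (@En.n l37210 (nat_lit 10117) (nat_lit 9) (nat_lit 11))
    (@En.n l39820 (nat_lit 9903) (nat_lit 9) (nat_lit 3))
    (@En.n l35679 (nat_lit 12297) (nat_lit 11) (nat_lit 11))
    (@En.n l39821 (nat_lit 9905) (nat_lit 12) (nat_lit 7))
    (@En.i (nat_lit 11191) (nat_lit 13) (nat_lit 13))
    (@En.n l39822 (nat_lit 9899) (nat_lit 14) (nat_lit 10))
    (@En.n l39823 (nat_lit 8456) (nat_lit 13) (nat_lit 6))
    (@En.n l18 (nat_lit 9901) (nat_lit 15) (nat_lit 2))))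
  (@Cl.mk (nat_lit 0x20006000a0007000d0008000c00030006000a0004000a00090008000e0006) (nat_lit 0x60408004016460) (nat_lit 16) Lb.e (@T16.mk En
    (@En.n l8770 (nat_lit 9883) (nat_lit 7) (nat_lit 6))
    (@En.n l41701 (nat_lit 9778) (nat_lit 1) (nat_lit 14))
    (@En.n l5793 (nat_lit 7901) (nat_lit 2) (nat_lit 8))
    (@En.n l41702 (nat_lit 10010) (nat_lit 3) (nat_lit 9))
    (@En.n l699 (nat_lit 4429) (nat_lit 4) (nat_lit 10))
    (@En.n l41703 (nat_lit 9910) (nat_lit 5) (nat_lit 4))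
    (@En.i (nat_lit 10459) (nat_lit 7) (nat_lit 10))
    (@En.n l21123 (nat_lit 7700) (nat_lit 7) (nat_lit 6))
    (@En.n l4427 (nat_lit 9904) (nat_lit 8) (nat_lit 3))
    (@En.n l41704 (nat_lit 12298) (nat_lit 0) (nat_lit 12))
    (@En.n l41702 (nat_lit 9906) (nat_lit 11) (nat_lit 8))
    (@En.n l36160 (nat_lit 9901) (nat_lit 12) (nat_lit 13))
    (@En.n l41705 (nat_lit 8182) (nat_lit 13) (nat_lit 7))
    (@En.n l33184 (nat_lit 9900) (nat_lit 14) (nat_lit 10))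
    (@En.n l41706 (nat_lit 8458) (nat_lit 5) (nat_lit 6))
    (@En.n l18 (nat_lit 9902) (nat_lit 15) (nat_lit 2))))
  (@Cl.mk (nat_lit 0x20006000a000d000a00080003000b0006000a0006000a00050008000e0006) (nat_lit 0x62340408020490) (nat_lit 16) Lb.e (@T16.mk En
    (@En.n l5760 (nat_lit 7189) (nat_lit 6) (nat_lit 6))
    (@En.n l3530 (nat_lit 9777) (nat_lit 1) (nat_lit 14))
    (@En.i (nat_lit 7897) (nat_lit 2) (nat_lit 8))
    (@En.n l13002 (nat_lit 3410) (nat_lit 3) (nat_lit 5))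
    (@En.n l1897 (nat_lit 6302) (nat_lit 4) (nat_lit 10))
    (@En.n l12290 (nat_lit 4933) (nat_lit 5) (nat_lit 6))
    (@En.i (nat_lit 10449) (nat_lit 7) (nat_lit 10))
    (@En.n l41408 (nat_lit 9904) (nat_lit 7) (nat_lit 6))
    (@En.n l40349 (nat_lit 9905) (nat_lit 9) (nat_lit 11))
    (@En.n l1075 (nat_lit 9901) (nat_lit 9) (nat_lit 3))
    (@En.n l3866 (nat_lit 1712) (nat_lit 11) (nat_lit 8))
    (@En.n l19841 (nat_lit 9798) (nat_lit 12) (nat_lit 10))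
    (@En.n l3082 (nat_lit 11189) (nat_lit 13) (nat_lit 13))
    (@En.n l12876 (nat_lit 9022) (nat_lit 14) (nat_lit 10))
    (@En.n l1897 (nat_lit 8464) (nat_lit 13) (nat_lit 6))
    (@En.n l28 (nat_lit 9903) (nat_lit 15) (nat_lit 2))))
noncomputable def a619 : T16 Cl := @T16.mk Cl
  (@Cl.mk (nat_lit 0x20006000a0007000d000b000900030006000a0005000a00090007000e0006) (nat_lit 0x603410080210c0) (nat_lit 16) Lb.e (@T16.mk En
    (@En.n l8044 (nat_lit 7190) (nat_lit 7) (nat_lit 6))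
    (@En.n l13076 (nat_lit 9776) (nat_lit 1) (nat_lit 14))
    (@En.n l8768 (nat_lit 7895) (nat_lit 2) (nat_lit 7))
    (@En.i (nat_lit 8212) (nat_lit 3) (nat_lit 9))
    (@En.n l28102 (nat_lit 6307) (nat_lit 4) (nat_lit 10))
    (@En.n l29254 (nat_lit 4934) (nat_lit 5) (nat_lit 5))
    (@En.i (nat_lit 10462) (nat_lit 7) (nat_lit 10))
    (@En.n l617 (nat_lit 9908) (nat_lit 7) (nat_lit 6))
    (@En.n l13784 (nat_lit 9902) (nat_lit 8) (nat_lit 3))
    (@En.n l18153 (nat_lit 499) (nat_lit 0) (nat_lit 9))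
    (@En.n l29255 (nat_lit 9802) (nat_lit 11) (nat_lit 11))
    (@En.n l29256 (nat_lit 9903) (nat_lit 12) (nat_lit 13))
    (@En.n l29257 (nat_lit 8181) (nat_lit 13) (nat_lit 7))
    (@En.n l29258 (nat_lit 9018) (nat_lit 14) (nat_lit 10))
    (@En.n l23182 (nat_lit 8461) (nat_lit 5) (nat_lit 6))
    (@En.n l28 (nat_lit 9904) (nat_lit 15) (nat_lit 2))))
  (@Cl.mk (nat_lit 0x20007000b0007000b0008000b0005000900050009000500090008000e0007) (nat_lit 0x603130602025c0) (nat_lit 16) Lb.e (@T16.mk En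
    (@En.n l40319 (nat_lit 9840) (nat_lit 7) (nat_lit 7))
    (@En.n l25490 (nat_lit 9780) (nat_lit 1) (nat_lit 14))
    (@En.n l40320 (nat_lit 9903) (nat_lit 2) (nat_lit 8))
    (@En.n l40321 (nat_lit 9904) (nat_lit 3) (nat_lit 9))
    (@En.n l40322 (nat_lit 4532) (nat_lit 4) (nat_lit 5))
    (@En.n l40323 (nat_lit 6304) (nat_lit 5) (nat_lit 9))
    (@En.n l40324 (nat_lit 4937) (nat_lit 6) (nat_lit 5))
    (@En.n l40325 (nat_lit 10451) (nat_lit 8) (nat_lit 9))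
    (@En.i (nat_lit 9906) (nat_lit 8) (nat_lit 5))
    (@En.n l40326 (nat_lit 7720) (nat_lit 10) (nat_lit 11))
    (@En.n l40327 (nat_lit 1711) (nat_lit 11) (nat_lit 8))
    (@En.n l40322 (nat_lit 9799) (nat_lit 12) (nat_lit 11))
    (@En.n l40328 (nat_lit 11280) (nat_lit 13) (nat_lit 7))
    (@En.n l40329 (nat_lit 9025) (nat_lit 14) (nat_lit 11))
    (@En.n l40330 (nat_lit 8830) (nat_lit 13) (nat_lit 7))
    (@En.n l28 (nat_lit 9905) (nat_lit 15) (nat_lit 2))))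
  (@Cl.mk (nat_lit 0x20007000b00080008000c00090005000900040009000800080007000e0007) (nat_lit 0x71645060112080) (nat_lit 16) Lb.e (@T16.mk En
    (@En.i (nat_lit 9616) (nat_lit 7) (nat_lit 7))
    (@En.n l2038 (nat_lit 8014) (nat_lit 1) (nat_lit 14))
    (@En.i (nat_lit 9904) (nat_lit 2) (nat_lit 7))
    (@En.n l2687 (nat_lit 9908) (nat_lit 3) (nat_lit 8))
    (@En.i (nat_lit 8207) (nat_lit 4) (nat_lit 8))
    (@En.n l33125 (nat_lit 5912) (nat_lit 5) (nat_lit 9))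
    (@En.n l40324 (nat_lit 6517) (nat_lit 6) (nat_lit 4))
    (@En.i (nat_lit 10465) (nat_lit 8) (nat_lit 9))
    (@En.i (nat_lit 2016) (nat_lit 8) (nat_lit 5))
    (@En.n l10040 (nat_lit 1591) (nat_lit 10) (nat_lit 9))
    (@En.n l1112 (nat_lit 9913) (nat_lit 11) (nat_lit 12))
    (@En.n l30148 (nat_lit 9922) (nat_lit 12) (nat_lit 8))
    (@En.n l40880 (nat_lit 5268) (nat_lit 13) (nat_lit 8))
    (@En.n l40881 (nat_lit 9310) (nat_lit 14) (nat_lit 11))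
    (@En.n l40812 (nat_lit 8496) (nat_lit 13) (nat_lit 7))
    (@En.n l28 (nat_lit 9906) (nat_lit 15) (nat_lit 2))))
  (@Cl.mk (nat_lit 0x200070006000b0007000a000d00080005000300090006000a0009000e0008) (nat_lit 0x20386003036a1) (nat_lit 16) Lb.e (@T16.mk En
    (@En.n l29779 (nat_lit 9023) (nat_lit 10) (nat_lit 8))
    (@En.n l134 (nat_lit 11175) (nat_lit 1) (nat_lit 14))
    (@En.n l3339 (nat_lit 9020) (nat_lit 2) (nat_lit 9))
    (@En.n l29780 (nat_lit 9015) (nat_lit 3) (nat_lit 10))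
    (@En.n l3550 (nat_lit 9025) (nat_lit 4) (nat_lit 6))
    (@En.n l23163 (nat_lit 9905) (nat_lit 5) (nat_lit 9))
    (@En.n l29781 (nat_lit 7469) (nat_lit 6) (nat_lit 3))
    (@En.i (nat_lit 7577) (nat_lit 7) (nat_lit 5))
    (@En.n l29782 (nat_lit 10949) (nat_lit 9) (nat_lit 8))
    (@En.i (nat_lit 8174) (nat_lit 10) (nat_lit 13))
    (@En.n l16221 (nat_lit 12519) (nat_lit 11) (nat_lit 10))
    (@En.n l5592 (nat_lit 1497) (nat_lit 12) (nat_lit 7))
    (@En.n l4021 (nat_lit 9366) (nat_lit 13) (nat_lit 11))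
    (@En.i (nat_lit 11264) (nat_lit 14) (nat_lit 6))
    (@En.n l29783 (nat_lit 10896) (nat_lit 7) (nat_lit 7))
    (@En.n l7 (nat_lit 9907) (nat_lit 15) (nat_lit 2))))
  (@Cl.mk (nat_lit 0x20006000a000e00080002000c000a0006000a0004000a00080006000e0006) (nat_lit 0x6b207107021070) (nat_lit 16) Lb.e (@T16.mk En
    (@En.i (nat_lit 9615) (nat_lit 5) (nat_lit 6))
    (@En.n l11793 (nat_lit 5747) (nat_lit 1) (nat_lit 14))
    (@En.n l14316 (nat_lit 7896) (nat_lit 2) (nat_lit 6))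
    (@En.i (nat_lit 8204) (nat_lit 3) (nat_lit 8))
    (@En.n l13562 (nat_lit 6291) (nat_lit 10) (nat_lit 10))
    (@En.n l14316 (nat_lit 6940) (nat_lit 5) (nat_lit 4))
    (@En.i (nat_lit 11309) (nat_lit 12) (nat_lit 10))
    (@En.n l1290 (nat_lit 2021) (nat_lit 7) (nat_lit 6))
    (@En.n l3866 (nat_lit 498) (nat_lit 9) (nat_lit 10))
    (@En.i (nat_lit 9909) (nat_lit 10) (nat_lit 12))
    (@En.n l18 (nat_lit 9908) (nat_lit 10) (nat_lit 2))
    (@En.n l61 (nat_lit 9906) (nat_lit 12) (nat_lit 8))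
    (@En.n l41700 (nat_lit 6033) (nat_lit 13) (nat_lit 14))
    (@En.i (nat_lit 9309) (nat_lit 14) (nat_lit 10))
    (@En.n l29153 (nat_lit 6435) (nat_lit 3) (nat_lit 6))
    (@En.n l28 (nat_lit 9908) (nat_lit 15) (nat_lit 2))))
  (@Cl.mk (nat_lit 0x20006000b00090008000c00090005000900040007000a00080007000e0007) (nat_lit 0x576630200340c0) (nat_lit 16) Lb.e (@T16.mk En
    (@En.n l35470 (nat_lit 9911) (nat_lit 10) (nat_lit 7))
    (@En.n l11793 (nat_lit 11394) (nat_lit 1) (nat_lit 14))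
    (@En.n l7055 (nat_lit 9133) (nat_lit 2) (nat_lit 7))
    (@En.i (nat_lit 9377) (nat_lit 3) (nat_lit 8))
    (@En.n l42289 (nat_lit 8988) (nat_lit 4) (nat_lit 10))
    (@En.n l9877 (nat_lit 5252) (nat_lit 5) (nat_lit 7))
    (@En.n l22556 (nat_lit 2093) (nat_lit 6) (nat_lit 4))
    (@En.i (nat_lit 10547) (nat_lit 0) (nat_lit 9))
    (@En.n l1290 (nat_lit 11010) (nat_lit 8) (nat_lit 5))
    (@En.n l36860 (nat_lit 6516) (nat_lit 10) (nat_lit 9))
    (@En.n l29152 (nat_lit 9912) (nat_lit 11) (nat_lit 12))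
    (@En.n l20115 (nat_lit 9913) (nat_lit 12) (nat_lit 8))
    (@En.n l42290 (nat_lit 9910) (nat_lit 13) (nat_lit 9))
    (@En.n l33369 (nat_lit 10049) (nat_lit 14) (nat_lit 11))
    (@En.n l22556 (nat_lit 8404) (nat_lit 13) (nat_lit 6))
    (@En.n l28 (nat_lit 9909) (nat_lit 15) (nat_lit 2))))
  (@Cl.mk (nat_lit 0x2000600090007000c0008000c0008000400070004000a00090008000e0008) (nat_lit 0x60325000045654) (nat_lit 16) Lb.e (@T16.mk En
    (@En.n l19999 (nat_lit 9916) (nat_lit 9) (nat_lit 8))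
    (@En.n l38434 (nat_lit 11393) (nat_lit 1) (nat_lit 14))
    (@En.n l8409 (nat_lit 9130) (nat_lit 2) (nat_lit 8))
    (@En.n l38435 (nat_lit 9597) (nat_lit 3) (nat_lit 9))
    (@En.n l38436 (nat_lit 9909) (nat_lit 4) (nat_lit 10))
    (@En.n l5801 (nat_lit 9802) (nat_lit 5) (nat_lit 4))
    (@En.n l38437 (nat_lit 7699) (nat_lit 6) (nat_lit 7))
    (@En.i (nat_lit 6636) (nat_lit 7) (nat_lit 4))
    (@En.n l38438 (nat_lit 11949) (nat_lit 0) (nat_lit 8))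
    (@En.n l8631 (nat_lit 12346) (nat_lit 10) (nat_lit 12))
    (@En.n l7471 (nat_lit 6517) (nat_lit 11) (nat_lit 8))
    (@En.n l899 (nat_lit 9915) (nat_lit 12) (nat_lit 12))
    (@En.i (nat_lit 9331) (nat_lit 13) (nat_lit 7))
    (@En.n l3197 (nat_lit 10037) (nat_lit 14) (nat_lit 9))
    (@En.i (nat_lit 9643) (nat_lit 13) (nat_lit 6))
    (@En.n l28 (nat_lit 9910) (nat_lit 15) (nat_lit 2))))
  (@Cl.mk (nat_lit 0x50008000b00090008000700070005000b00080007000b0008000500090009) (nat_lit 0x576600045043073) (nat_lit 16) Lb.e (@T16.mk En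
    (@En.n l38052 (nat_lit 9909) (nat_lit 7) (nat_lit 9))
    (@En.n l31528 (nat_lit 10520) (nat_lit 10) (nat_lit 9))
    (@En.n l3540 (nat_lit 11254) (nat_lit 2) (nat_lit 5))
    (@En.n l38053 (nat_lit 6514) (nat_lit 0) (nat_lit 8))
    (@En.n l38054 (nat_lit 9914) (nat_lit 8) (nat_lit 11))
    (@En.n l38055 (nat_lit 9918) (nat_lit 9) (nat_lit 7))
    (@En.n l38056 (nat_lit 9916) (nat_lit 6) (nat_lit 8))
    (@En.n l6080 (nat_lit 9515) (nat_lit 10) (nat_lit 11))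
    (@En.n l5953 (nat_lit 9474) (nat_lit 11) (nat_lit 5))
    (@En.n l38057 (nat_lit 9609) (nat_lit 9) (nat_lit 7))
    (@En.n l38058 (nat_lit 10504) (nat_lit 9) (nat_lit 7))
    (@En.i (nat_lit 9128) (nat_lit 8) (nat_lit 8))
    (@En.n l31528 (nat_lit 9378) (nat_lit 7) (nat_lit 9))
    (@En.n l1430 (nat_lit 7651) (nat_lit 7) (nat_lit 11))
    (@En.i (nat_lit 7702) (nat_lit 10) (nat_lit 8))
    (@En.n l38059 (nat_lit 9919) (nat_lit 15) (nat_lit 5))))
  (@Cl.mk (nat_lit 0x20006000c0009000c0008000400080004000d0007000a00030008000e0008) (nat_lit 0x56510202040680) (nat_lit 16) Lb.e (@T16.mk En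
    (@En.n l7432 (nat_lit 9914) (nat_lit 13) (nat_lit 8))
    (@En.n l10505 (nat_lit 11395) (nat_lit 1) (nat_lit 14))
    (@En.i (nat_lit 9132) (nat_lit 2) (nat_lit 8))
    (@En.n l4033 (nat_lit 9913) (nat_lit 3) (nat_lit 3))
    (@En.n l3495 (nat_lit 8990) (nat_lit 4) (nat_lit 10))
    (@En.n l30467 (nat_lit 9909) (nat_lit 5) (nat_lit 7))
    (@En.n l25375 (nat_lit 10110) (nat_lit 7) (nat_lit 13))
    (@En.n l4367 (nat_lit 6554) (nat_lit 7) (nat_lit 4))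
    (@En.i (nat_lit 10546) (nat_lit 9) (nat_lit 8))
    (@En.n l1359 (nat_lit 11009) (nat_lit 9) (nat_lit 4))
    (@En.n l1783 (nat_lit 4930) (nat_lit 11) (nat_lit 8))
    (@En.n l4367 (nat_lit 6070) (nat_lit 12) (nat_lit 12))
    (@En.n l4466 (nat_lit 9915) (nat_lit 13) (nat_lit 9))
    (@En.n l2832 (nat_lit 10050) (nat_lit 14) (nat_lit 12))
    (@En.n l4367 (nat_lit 9652) (nat_lit 13) (nat_lit 6))
    (@En.n l3 (nat_lit 9912) (nat_lit 15) (nat_lit 2))))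
  (@Cl.mk (nat_lit 0x20007000c0008000c0008000400080004000d0009000800030008000e0008) (nat_lit 0x55310202310680) (nat_lit 16) Lb.e (@T16.mk En
    (@En.n l27018 (nat_lit 9918) (nat_lit 13) (nat_lit 8))
    (@En.n l5237 (nat_lit 11397) (nat_lit 1) (nat_lit 14))
    (@En.n l27019 (nat_lit 9802) (nat_lit 2) (nat_lit 8))
    (@En.n l13309 (nat_lit 9912) (nat_lit 3) (nat_lit 3))
    (@En.i (nat_lit 6723) (nat_lit 0) (nat_lit 8))
    (@En.n l11155 (nat_lit 8992) (nat_lit 5) (nat_lit 9))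
    (@En.n l27020 (nat_lit 10111) (nat_lit 7) (nat_lit 13))
    (@En.n l12747 (nat_lit 6553) (nat_lit 7) (nat_lit 4))
    (@En.n l8523 (nat_lit 10551) (nat_lit 4) (nat_lit 8))
    (@En.i (nat_lit 11008) (nat_lit 9) (nat_lit 4))
    (@En.n l27021 (nat_lit 1735) (nat_lit 11) (nat_lit 8))
    (@En.n l12747 (nat_lit 6064) (nat_lit 12) (nat_lit 12))
    (@En.n l11 (nat_lit 9328) (nat_lit 13) (nat_lit 8))
    (@En.n l488 (nat_lit 10051) (nat_lit 14) (nat_lit 12))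
    (@En.n l13314 (nat_lit 9673) (nat_lit 4) (nat_lit 7))
    (@En.n l3 (nat_lit 9913) (nat_lit 15) (nat_lit 2))))
  (@Cl.mk (nat_lit 0x30009000800080005000c0008000b00070004000800080005000d0008000b) (nat_lit 0x762044300630465) (nat_lit 16) Lb.e (@T16.mk En
    (@En.i (nat_lit 8934) (nat_lit 0) (nat_lit 11))
    (@En.n l16536 (nat_lit 9911) (nat_lit 14) (nat_lit 8))
    (@En.n l11234 (nat_lit 10790) (nat_lit 2) (nat_lit 13))
    (@En.n l890 (nat_lit 9920) (nat_lit 3) (nat_lit 5))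
    (@En.n l4494 (nat_lit 9912) (nat_lit 8) (nat_lit 8))
    (@En.n l9826 (nat_lit 10519) (nat_lit 5) (nat_lit 8))
    (@En.n l9827 (nat_lit 11252) (nat_lit 6) (nat_lit 4))
    (@En.n l7852 (nat_lit 1738) (nat_lit 0) (nat_lit 7))
    (@En.n l170 (nat_lit 6173) (nat_lit 7) (nat_lit 11))
    (@En.n l7029 (nat_lit 9917) (nat_lit 10) (nat_lit 8))
    (@En.n l22565 (nat_lit 10048) (nat_lit 11) (nat_lit 12))
    (@En.n l3486 (nat_lit 8796) (nat_lit 4) (nat_lit 5))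
    (@En.n l5995 (nat_lit 9611) (nat_lit 8) (nat_lit 8))
    (@En.i (nat_lit 10499) (nat_lit 14) (nat_lit 8))
    (@En.n l309 (nat_lit 9129) (nat_lit 2) (nat_lit 9))
    (@En.n l2843 (nat_lit 9918) (nat_lit 15) (nat_lit 3))))
  (@Cl.mk (nat_lit 0x200060009000c0007000b00070004000c00070005000a00040009000e0009) (nat_lit 0x52040020050744) (nat_lit 16) Lb.e (@T16.mk En
    (@En.n l3038 (nat_lit 9917) (nat_lit 13) (nat_lit 9))
    (@En.n l134 (nat_lit 11396) (nat_lit 1) (nat_lit 14))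
    (@En.n l3328 (nat_lit 9131) (nat_lit 2) (nat_lit 9))
    (@En.n l34255 (nat_lit 9328) (nat_lit 3) (nat_lit 4))
    (@En.n l23541 (nat_lit 9912) (nat_lit 4) (nat_lit 10))
    (@En.n l3480 (nat_lit 9800) (nat_lit 5) (nat_lit 5))
    (@En.n l2642 (nat_lit 9910) (nat_lit 6) (nat_lit 7))
    (@En.n l34256 (nat_lit 10114) (nat_lit 8) (nat_lit 12))
    (@En.i (nat_lit 7557) (nat_lit 8) (nat_lit 4))
    (@En.n l5351 (nat_lit 11945) (nat_lit 10) (nat_lit 7))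
    (@En.n l34255 (nat_lit 12347) (nat_lit 11) (nat_lit 11))
    (@En.n l26864 (nat_lit 4937) (nat_lit 12) (nat_lit 7))
    (@En.i (nat_lit 11199) (nat_lit 6) (nat_lit 12))
    (@En.n l26871 (nat_lit 10039) (nat_lit 9) (nat_lit 9))
    (@En.i (nat_lit 9648) (nat_lit 13) (nat_lit 6))
    (@En.n l7 (nat_lit 9915) (nat_lit 15) (nat_lit 2))))
  (@Cl.mk (nat_lit 0x500080005000b000a000900080008000500080006000b0007000b00080008) (nat_lit 0x408773104030561) (nat_lit 16) Lb.e (@T16.mk En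
    (@En.n l2491 (nat_lit 9910) (nat_lit 8) (nat_lit 8))
    (@En.n l7479 (nat_lit 10523) (nat_lit 1) (nat_lit 8))
    (@En.n l27180 (nat_lit 12344) (nat_lit 8) (nat_lit 11))
    (@En.n l7479 (nat_lit 5285) (nat_lit 5) (nat_lit 7))
    (@En.n l899 (nat_lit 9917) (nat_lit 9) (nat_lit 11))
    (@En.i (nat_lit 9332) (nat_lit 10) (nat_lit 6))
    (@En.i (nat_lit 10038) (nat_lit 10) (nat_lit 8))
    (@En.n l22495 (nat_lit 9475) (nat_lit 7) (nat_lit 5))
    (@En.n l14990 (nat_lit 9610) (nat_lit 8) (nat_lit 8))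
    (@En.n l4380 (nat_lit 11865) (nat_lit 8) (nat_lit 8))
    (@En.n l26274 (nat_lit 9125) (nat_lit 7) (nat_lit 9))
    (@En.n l26275 (nat_lit 9080) (nat_lit 6) (nat_lit 10))
    (@En.n l40245 (nat_lit 9911) (nat_lit 13) (nat_lit 11))
    (@En.n l40034 (nat_lit 9873) (nat_lit 11) (nat_lit 5))
    (@En.n l27817 (nat_lit 7701) (nat_lit 10) (nat_lit 8))
    (@En.i (nat_lit 9921) (nat_lit 1) (nat_lit 5))))
  (@Cl.mk (nat_lit 0x4000a0009000900050008000b0006000a000700070005000c00080006000b) (nat_lit 0x831032040003506) (nat_lit 16) Lb.e (@T16.mk En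
    (@En.n l9498 (nat_lit 9914) (nat_lit 0) (nat_lit 11))
    (@En.n l29471 (nat_lit 9801) (nat_lit 1) (nat_lit 6))
    (@En.n l2642 (nat_lit 9916) (nat_lit 14) (nat_lit 8))
    (@En.n l29472 (nat_lit 10791) (nat_lit 3) (nat_lit 12))
    (@En.i (nat_lit 11956) (nat_lit 11) (nat_lit 5))
    (@En.n l11512 (nat_lit 9915) (nat_lit 9) (nat_lit 7))
    (@En.n l16998 (nat_lit 10522) (nat_lit 6) (nat_lit 7))
    (@En.n l29471 (nat_lit 12345) (nat_lit 9) (nat_lit 10))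
    (@En.n l29473 (nat_lit 5280) (nat_lit 8) (nat_lit 6))
    (@En.i (nat_lit 11200) (nat_lit 7) (nat_lit 11))
    (@En.n l29474 (nat_lit 7583) (nat_lit 10) (nat_lit 8))
    (@En.n l5934 (nat_lit 8795) (nat_lit 15) (nat_lit 5))
    (@En.n l22544 (nat_lit 9612) (nat_lit 7) (nat_lit 9))
    (@En.n l28217 (nat_lit 10509) (nat_lit 7) (nat_lit 9))
    (@En.n l3328 (nat_lit 9126) (nat_lit 2) (nat_lit 10))
    (@En.n l29475 (nat_lit 9329) (nat_lit 15) (nat_lit 4))))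
  (@Cl.mk (nat_lit 0x30009000800080006000c0007000b00070004000800080005000d000a0009) (nat_lit 0x762040300630443) (nat_lit 16) Lb.e (@T16.mk En
    (@En.n l38074 (nat_lit 11521) (nat_lit 0) (nat_lit 9))
    (@En.n l6992 (nat_lit 9591) (nat_lit 11) (nat_lit 10))
    (@En.n l38075 (nat_lit 10005) (nat_lit 2) (nat_lit 13))
    (@En.n l36110 (nat_lit 10494) (nat_lit 3) (nat_lit 5))
    (@En.n l38076 (nat_lit 9913) (nat_lit 8) (nat_lit 8))
    (@En.n l38077 (nat_lit 10521) (nat_lit 5) (nat_lit 8))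
    (@En.n l38078 (nat_lit 11253) (nat_lit 6) (nat_lit 4))
    (@En.i (nat_lit 1734) (nat_lit 0) (nat_lit 7))
    (@En.n l11706 (nat_lit 6139) (nat_lit 8) (nat_lit 11))
    (@En.n l33005 (nat_lit 9329) (nat_lit 10) (nat_lit 7))
    (@En.n l38079 (nat_lit 9375) (nat_lit 11) (nat_lit 12))
    (@En.n l12811 (nat_lit 9936) (nat_lit 4) (nat_lit 6))
    (@En.n l24726 (nat_lit 9613) (nat_lit 8) (nat_lit 8))
    (@En.i (nat_lit 10500) (nat_lit 14) (nat_lit 8))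
    (@En.n l38080 (nat_lit 9873) (nat_lit 8) (nat_lit 9))
    (@En.n l5368 (nat_lit 9914) (nat_lit 15) (nat_lit 3))))
  (@Cl.mk (nat_lit 0x50008000b000900070006000a0005000a00080007000b000600090006000a) (nat_lit 0x234002066050403) (nat_lit 16) Lb.e (@T16.mk En
    (@En.n l36258 (nat_lit 11477) (nat_lit 9) (nat_lit 10))
    (@En.n l43423 (nat_lit 10370) (nat_lit 1) (nat_lit 6))
    (@En.n l36258 (nat_lit 9909) (nat_lit 9) (nat_lit 9))
    (@En.n l26276 (nat_lit 11858) (nat_lit 1) (nat_lit 6))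
    (@En.n l35500 (nat_lit 9920) (nat_lit 8) (nat_lit 11))
    (@En.n l5646 (nat_lit 10494) (nat_lit 9) (nat_lit 7))
    (@En.n l17 (nat_lit 9921) (nat_lit 8) (nat_lit 8))
    (@En.i (nat_lit 10076) (nat_lit 10) (nat_lit 10))
    (@En.n l42275 (nat_lit 8402) (nat_lit 8) (nat_lit 5))
    (@En.n l7 (nat_lit 10508) (nat_lit 9) (nat_lit 10))
    (@En.n l43424 (nat_lit 10507) (nat_lit 10) (nat_lit 6))
    (@En.n l37901 (nat_lit 9784) (nat_lit 9) (nat_lit 7))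
    (@En.n l36258 (nat_lit 9129) (nat_lit 7) (nat_lit 9))
    (@En.n l35500 (nat_lit 8474) (nat_lit 7) (nat_lit 11))
    (@En.n l43425 (nat_lit 11274) (nat_lit 10) (nat_lit 8))
    (@En.n l3506 (nat_lit 2091) (nat_lit 15) (nat_lit 5))))
noncomputable def a620 : T16 Cl := @T16.mk Cl
  (@Cl.mk (nat_lit 0x300080007000b0005000b0008000b00050008000500090005000d0008000b) (nat_lit 0x602056402030737) (nat_lit 16) Lb.e (@T16.mk En
    (@En.i (nat_lit 8930) (nat_lit 0) (nat_lit 11))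
    (@En.n l35709 (nat_lit 9919) (nat_lit 14) (nat_lit 8))
    (@En.n l601 (nat_lit 12051) (nat_lit 2) (nat_lit 13))
    (@En.n l22460 (nat_lit 2095) (nat_lit 3) (nat_lit 5))
    (@En.n l21576 (nat_lit 11476) (nat_lit 4) (nat_lit 9))
    (@En.n l9361 (nat_lit 6211) (nat_lit 5) (nat_lit 5))
    (@En.n l1776 (nat_lit 9912) (nat_lit 10) (nat_lit 8))
    (@En.n l35710 (nat_lit 10491) (nat_lit 7) (nat_lit 5))
    (@En.n l710 (nat_lit 6175) (nat_lit 7) (nat_lit 11))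
    (@En.n l710 (nat_lit 11956) (nat_lit 1) (nat_lit 8))
    (@En.n l5646 (nat_lit 9823) (nat_lit 11) (nat_lit 11))
    (@En.n l8144 (nat_lit 9422) (nat_lit 12) (nat_lit 5))
    (@En.n l35711 (nat_lit 10506) (nat_lit 8) (nat_lit 11))
    (@En.i (nat_lit 10505) (nat_lit 9) (nat_lit 7))
    (@En.n l1080 (nat_lit 9654) (nat_lit 12) (nat_lit 8))
    (@En.n l1284 (nat_lit 10494) (nat_lit 15) (nat_lit 3))))
  (@Cl.mk (nat_lit 0x4000b000a00080007000b000500080006000b00050008000c000900050008) (nat_lit 0x456030503036003) (nat_lit 16) Lb.e (@T16.mk En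
    (@En.n l226 (nat_lit 11272) (nat_lit 10) (nat_lit 8))
    (@En.n l3506 (nat_lit 2094) (nat_lit 1) (nat_lit 5))
    (@En.i (nat_lit 11478) (nat_lit 0) (nat_lit 9))
    (@En.n l14431 (nat_lit 10647) (nat_lit 7) (nat_lit 12))
    (@En.n l8434 (nat_lit 9910) (nat_lit 10) (nat_lit 8))
    (@En.i (nat_lit 11857) (nat_lit 5) (nat_lit 5))
    (@En.n l899 (nat_lit 11956) (nat_lit 0) (nat_lit 11))
    (@En.i (nat_lit 11720) (nat_lit 1) (nat_lit 6))
    (@En.i (nat_lit 10041) (nat_lit 10) (nat_lit 8))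
    (@En.n l20048 (nat_lit 9476) (nat_lit 9) (nat_lit 5))
    (@En.n l7 (nat_lit 11863) (nat_lit 8) (nat_lit 11))
    (@En.n l644 (nat_lit 11864) (nat_lit 9) (nat_lit 7))
    (@En.i (nat_lit 9783) (nat_lit 2) (nat_lit 8))
    (@En.n l3866 (nat_lit 9075) (nat_lit 6) (nat_lit 10))
    (@En.i (nat_lit 9919) (nat_lit 13) (nat_lit 11))
    (@En.i (nat_lit 9809) (nat_lit 15) (nat_lit 4))))
  (@Cl.mk (nat_lit 0x20008000c0008000c00080004000800040008000e000800020008000e0008) (nat_lit 0x285310203820652) (nat_lit 16) Lb.e (@T16.mk En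
    (@En.n l12751 (nat_lit 9835) (nat_lit 13) (nat_lit 8))
    (@En.n l3855 (nat_lit 9923) (nat_lit 1) (nat_lit 14))
    (@En.n l15681 (nat_lit 9905) (nat_lit 2) (nat_lit 8))
    (@En.n l18 (nat_lit 9922) (nat_lit 3) (nat_lit 2))
    (@En.n l15682 (nat_lit 9906) (nat_lit 4) (nat_lit 8))
    (@En.n l2572 (nat_lit 6833) (nat_lit 6) (nat_lit 14))
    (@En.n l7471 (nat_lit 5906) (nat_lit 2) (nat_lit 8))
    (@En.n l8527 (nat_lit 6507) (nat_lit 3) (nat_lit 4))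
    (@En.n l8523 (nat_lit 11238) (nat_lit 4) (nat_lit 8))
    (@En.i (nat_lit 2015) (nat_lit 9) (nat_lit 4))
    (@En.n l29775 (nat_lit 1714) (nat_lit 6) (nat_lit 8))
    (@En.n l8527 (nat_lit 6062) (nat_lit 12) (nat_lit 12))
    (@En.n l29776 (nat_lit 11281) (nat_lit 13) (nat_lit 8))
    (@En.n l8527 (nat_lit 11015) (nat_lit 10) (nat_lit 12))
    (@En.n l12650 (nat_lit 2624) (nat_lit 11) (nat_lit 8))
    (@En.n l3 (nat_lit 9922) (nat_lit 15) (nat_lit 2))))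
  (@Cl.mk (nat_lit 0x2000b0008000c0008000c00050004000900040008000e00080002000e0007) (nat_lit 0x555670070556040) (nat_lit 16) Lb.e (@T16.mk En
    (@En.n l9905 (nat_lit 8015) (nat_lit 14) (nat_lit 7))
    (@En.n l21590 (nat_lit 12811) (nat_lit 1) (nat_lit 14))
    (@En.n l17 (nat_lit 9923) (nat_lit 2) (nat_lit 2))
    (@En.n l8268 (nat_lit 8014) (nat_lit 3) (nat_lit 8))
    (@En.n l7259 (nat_lit 6839) (nat_lit 5) (nat_lit 14))
    (@En.n l35525 (nat_lit 11539) (nat_lit 5) (nat_lit 8))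
    (@En.n l4517 (nat_lit 6499) (nat_lit 6) (nat_lit 4))
    (@En.n l117 (nat_lit 11423) (nat_lit 4) (nat_lit 9))
    (@En.n l7259 (nat_lit 9924) (nat_lit 8) (nat_lit 4))
    (@En.n l35526 (nat_lit 11646) (nat_lit 9) (nat_lit 5))
    (@En.i (nat_lit 4669) (nat_lit 11) (nat_lit 12))
    (@En.n l3793 (nat_lit 11248) (nat_lit 12) (nat_lit 8))
    (@En.n l4517 (nat_lit 11058) (nat_lit 13) (nat_lit 12))
    (@En.n l35527 (nat_lit 7720) (nat_lit 14) (nat_lit 8))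
    (@En.n l22910 (nat_lit 9854) (nat_lit 12) (nat_lit 11))
    (@En.n l3 (nat_lit 9923) (nat_lit 15) (nat_lit 2))))
  (@Cl.mk (nat_lit 0x2000d0008000c00030009000d0004000900030008000e00070002000e0007) (nat_lit 0xb270760205100a0) (nat_lit 16) Lb.e (@T16.mk En
    (@En.i (nat_lit 9929) (nat_lit 14) (nat_lit 7))
    (@En.n l1531 (nat_lit 11725) (nat_lit 1) (nat_lit 14))
    (@En.n l3 (nat_lit 9924) (nat_lit 2) (nat_lit 2))
    (@En.n l19773 (nat_lit 7945) (nat_lit 3) (nat_lit 7))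
    (@En.i (nat_lit 6601) (nat_lit 1) (nat_lit 14))
    (@En.n l7826 (nat_lit 5958) (nat_lit 5) (nat_lit 8))
    (@En.n l11003 (nat_lit 9926) (nat_lit 6) (nat_lit 3))
    (@En.n l19774 (nat_lit 9115) (nat_lit 0) (nat_lit 9))
    (@En.n l7264 (nat_lit 9925) (nat_lit 8) (nat_lit 4))
    (@En.n l2793 (nat_lit 5648) (nat_lit 10) (nat_lit 13))
    (@En.i (nat_lit 12145) (nat_lit 11) (nat_lit 9))
    (@En.n l3513 (nat_lit 9927) (nat_lit 11) (nat_lit 3))
    (@En.n l2793 (nat_lit 11061) (nat_lit 0) (nat_lit 12))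
    (@En.n l19775 (nat_lit 7713) (nat_lit 14) (nat_lit 8))
    (@En.n l7256 (nat_lit 5422) (nat_lit 12) (nat_lit 13))
    (@En.n l17 (nat_lit 9924) (nat_lit 15) (nat_lit 2))))
  (@Cl.mk (nat_lit 0x2000c0008000c000b0004000a0004000900050008000e00060002000e0007) (nat_lit 0x638308010460090) (nat_lit 16) Lb.e (@T16.mk En
    (@En.i (nat_lit 9635) (nat_lit 14) (nat_lit 7))
    (@En.n l7563 (nat_lit 10757) (nat_lit 1) (nat_lit 14))
    (@En.n l18 (nat_lit 9925) (nat_lit 2) (nat_lit 2))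
    (@En.n l3233 (nat_lit 7944) (nat_lit 3) (nat_lit 6))
    (@En.n l18879 (nat_lit 8996) (nat_lit 1) (nat_lit 14))
    (@En.n l7471 (nat_lit 12374) (nat_lit 10) (nat_lit 8))
    (@En.n l20381 (nat_lit 5201) (nat_lit 6) (nat_lit 5))
    (@En.n l1501 (nat_lit 9043) (nat_lit 4) (nat_lit 9))
    (@En.n l3855 (nat_lit 9923) (nat_lit 8) (nat_lit 4))
    (@En.i (nat_lit 12232) (nat_lit 10) (nat_lit 10))
    (@En.n l20381 (nat_lit 11645) (nat_lit 10) (nat_lit 4))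
    (@En.n l20413 (nat_lit 9926) (nat_lit 12) (nat_lit 11))
    (@En.n l8186 (nat_lit 12333) (nat_lit 13) (nat_lit 12))
    (@En.n l18840 (nat_lit 7718) (nat_lit 14) (nat_lit 8))
    (@En.n l14798 (nat_lit 6924) (nat_lit 12) (nat_lit 12))
    (@En.n l3 (nat_lit 9925) (nat_lit 15) (nat_lit 2))))
  (@Cl.mk (nat_lit 0x2000d0008000b00030009000d0008000500030008000e00070002000e0008) (nat_lit 0x8320772005700a6) (nat_lit 16) Lb.e (@T16.mk En
    (@En.i (nat_lit 9634) (nat_lit 14) (nat_lit 8))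
    (@En.i (nat_lit 11731) (nat_lit 1) (nat_lit 14))
    (@En.n l17 (nat_lit 9926) (nat_lit 2) (nat_lit 2))
    (@En.i (nat_lit 7941) (nat_lit 3) (nat_lit 7))
    (@En.i (nat_lit 6614) (nat_lit 1) (nat_lit 14))
    (@En.n l30842 (nat_lit 9925) (nat_lit 5) (nat_lit 8))
    (@En.n l18001 (nat_lit 9924) (nat_lit 6) (nat_lit 3))
    (@En.i (nat_lit 6016) (nat_lit 0) (nat_lit 5))
    (@En.n l6454 (nat_lit 9045) (nat_lit 5) (nat_lit 8))
    (@En.i (nat_lit 5642) (nat_lit 10) (nat_lit 13))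
    (@En.n l2228 (nat_lit 12143) (nat_lit 11) (nat_lit 9))
    (@En.n l11987 (nat_lit 9928) (nat_lit 11) (nat_lit 3))
    (@En.i (nat_lit 4904) (nat_lit 0) (nat_lit 11))
    (@En.n l15797 (nat_lit 7717) (nat_lit 14) (nat_lit 8))
    (@En.n l615 (nat_lit 6923) (nat_lit 12) (nat_lit 13))
    (@En.n l3 (nat_lit 9926) (nat_lit 15) (nat_lit 2))))
  (@Cl.mk (nat_lit 0x2000d000b000900030009000d0005000900030007000e00070002000e0007) (nat_lit 0xb66006020090070) (nat_lit 16) Lb.e (@T16.mk En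
    (@En.i (nat_lit 9930) (nat_lit 14) (nat_lit 7))
    (@En.n l4739 (nat_lit 11726) (nat_lit 1) (nat_lit 14))
    (@En.n l17 (nat_lit 9927) (nat_lit 2) (nat_lit 2))
    (@En.n l8268 (nat_lit 9931) (nat_lit 3) (nat_lit 7))
    (@En.n l8273 (nat_lit 6602) (nat_lit 1) (nat_lit 14))
    (@En.n l2967 (nat_lit 12339) (nat_lit 5) (nat_lit 7))
    (@En.n l7 (nat_lit 9928) (nat_lit 6) (nat_lit 3))
    (@En.n l8273 (nat_lit 9113) (nat_lit 0) (nat_lit 9))
    (@En.n l9902 (nat_lit 9932) (nat_lit 8) (nat_lit 5))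
    (@En.i (nat_lit 5643) (nat_lit 10) (nat_lit 13))
    (@En.n l564 (nat_lit 12030) (nat_lit 11) (nat_lit 9))
    (@En.n l9904 (nat_lit 9924) (nat_lit 11) (nat_lit 3))
    (@En.i (nat_lit 12544) (nat_lit 0) (nat_lit 9))
    (@En.i (nat_lit 9923) (nat_lit 14) (nat_lit 11))
    (@En.i (nat_lit 5418) (nat_lit 12) (nat_lit 13))
    (@En.n l3 (nat_lit 9927) (nat_lit 15) (nat_lit 2))))
  (@Cl.mk (nat_lit 0x2000d000a000900030009000d0008000600030007000e00070002000e0008) (nat_lit 0x836077200090056) (nat_lit 16) Lb.e (@T16.mk En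
    (@En.n l9862 (nat_lit 9933) (nat_lit 14) (nat_lit 8))
    (@En.i (nat_lit 11730) (nat_lit 1) (nat_lit 14))
    (@En.n l17 (nat_lit 9928) (nat_lit 2) (nat_lit 2))
    (@En.n l28762 (nat_lit 7947) (nat_lit 3) (nat_lit 7))
    (@En.i (nat_lit 6616) (nat_lit 1) (nat_lit 14))
    (@En.n l15173 (nat_lit 11645) (nat_lit 5) (nat_lit 7))
    (@En.i (nat_lit 9927) (nat_lit 6) (nat_lit 3))
    (@En.n l8163 (nat_lit 9123) (nat_lit 0) (nat_lit 6))
    (@En.n l25675 (nat_lit 9047) (nat_lit 5) (nat_lit 8))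
    (@En.i (nat_lit 5641) (nat_lit 10) (nat_lit 13))
    (@En.n l28764 (nat_lit 12029) (nat_lit 11) (nat_lit 9))
    (@En.n l8163 (nat_lit 9926) (nat_lit 11) (nat_lit 3))
    (@En.n l644 (nat_lit 11360) (nat_lit 0) (nat_lit 9))
    (@En.n l5399 (nat_lit 6499) (nat_lit 14) (nat_lit 10))
    (@En.i (nat_lit 6925) (nat_lit 12) (nat_lit 13))
    (@En.n l3 (nat_lit 9928) (nat_lit 15) (nat_lit 2))))
  (@Cl.mk (nat_lit 0x200070007000d0007000c00030008000c00040009000900040009000e0008) (nat_lit 0xb010130230656) (nat_lit 16) Lb.e (@T16.mk En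
    (@En.n l22757 (nat_lit 11328) (nat_lit 6) (nat_lit 8))
    (@En.n l22758 (nat_lit 6591) (nat_lit 1) (nat_lit 14))
    (@En.n l7822 (nat_lit 12372) (nat_lit 2) (nat_lit 9))
    (@En.n l22759 (nat_lit 11246) (nat_lit 3) (nat_lit 4))
    (@En.n l61 (nat_lit 9924) (nat_lit 7) (nat_lit 9))
    (@En.n l22760 (nat_lit 11235) (nat_lit 5) (nat_lit 9))
    (@En.n l7264 (nat_lit 9635) (nat_lit 6) (nat_lit 4))
    (@En.n l22761 (nat_lit 3625) (nat_lit 8) (nat_lit 12))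
    (@En.n l7031 (nat_lit 53) (nat_lit 1) (nat_lit 8))
    (@En.n l3513 (nat_lit 9930) (nat_lit 9) (nat_lit 3))
    (@En.n l22759 (nat_lit 8171) (nat_lit 11) (nat_lit 12))
    (@En.n l20089 (nat_lit 7711) (nat_lit 12) (nat_lit 7))
    (@En.n l22758 (nat_lit 9512) (nat_lit 13) (nat_lit 13))
    (@En.n l1697 (nat_lit 11330) (nat_lit 9) (nat_lit 7))
    (@En.n l3098 (nat_lit 10633) (nat_lit 4) (nat_lit 7))
    (@En.n l3 (nat_lit 9929) (nat_lit 15) (nat_lit 2))))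
  (@Cl.mk (nat_lit 0x200070007000d000b000800030008000c00050009000900040008000e0008) (nat_lit 0xb5204302305a2) (nat_lit 16) Lb.e (@T16.mk En
    (@En.n l9897 (nat_lit 9934) (nat_lit 6) (nat_lit 8))
    (@En.n l9898 (nat_lit 6594) (nat_lit 1) (nat_lit 14))
    (@En.n l9899 (nat_lit 12314) (nat_lit 2) (nat_lit 8))
    (@En.n l9900 (nat_lit 11240) (nat_lit 3) (nat_lit 4))
    (@En.n l152 (nat_lit 9927) (nat_lit 7) (nat_lit 9))
    (@En.n l9901 (nat_lit 11238) (nat_lit 5) (nat_lit 9))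
    (@En.n l9902 (nat_lit 9935) (nat_lit 6) (nat_lit 5))
    (@En.i (nat_lit 3632) (nat_lit 8) (nat_lit 12))
    (@En.n l9903 (nat_lit 12019) (nat_lit 9) (nat_lit 8))
    (@En.n l9904 (nat_lit 9929) (nat_lit 9) (nat_lit 3))
    (@En.n l3610 (nat_lit 11335) (nat_lit 0) (nat_lit 8))
    (@En.n l9905 (nat_lit 8015) (nat_lit 12) (nat_lit 11))
    (@En.n l9906 (nat_lit 9513) (nat_lit 13) (nat_lit 13))
    (@En.n l5014 (nat_lit 11334) (nat_lit 9) (nat_lit 7))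
    (@En.n l9907 (nat_lit 10635) (nat_lit 4) (nat_lit 7))
    (@En.n l17 (nat_lit 9930) (nat_lit 15) (nat_lit 2))))
  (@Cl.mk (nat_lit 0x2000d000a0008000300090009000d0006000a0003000800070007000e0006) (nat_lit 0xa65021701040060) (nat_lit 16) Lb.e (@T16.mk En
    (@En.n l117 (nat_lit 9934) (nat_lit 4) (nat_lit 6))
    (@En.n l5854 (nat_lit 11723) (nat_lit 1) (nat_lit 14))
    (@En.n l2575 (nat_lit 11314) (nat_lit 9) (nat_lit 7))
    (@En.i (nat_lit 8689) (nat_lit 3) (nat_lit 7))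
    (@En.i (nat_lit 12338) (nat_lit 4) (nat_lit 8))
    (@En.n l2576 (nat_lit 7947) (nat_lit 5) (nat_lit 3))
    (@En.i (nat_lit 9100) (nat_lit 0) (nat_lit 10))
    (@En.n l5646 (nat_lit 11364) (nat_lit 7) (nat_lit 6))
    (@En.i (nat_lit 11465) (nat_lit 9) (nat_lit 13))
    (@En.n l12560 (nat_lit 9927) (nat_lit 10) (nat_lit 9))
    (@En.n l50 (nat_lit 12121) (nat_lit 11) (nat_lit 9))
    (@En.i (nat_lit 7945) (nat_lit 11) (nat_lit 3))
    (@En.n l7611 (nat_lit 11352) (nat_lit 0) (nat_lit 8))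
    (@En.i (nat_lit 8014) (nat_lit 14) (nat_lit 10))
    (@En.i (nat_lit 5421) (nat_lit 2) (nat_lit 13))
    (@En.n l11 (nat_lit 9931) (nat_lit 15) (nat_lit 2))))
  (@Cl.mk (nat_lit 0x2000c000b000a000a0004000a0005000900060006000e00060002000e0007) (nat_lit 0xa747050300a0030) (nat_lit 16) Lb.e (@T16.mk En
    (@En.i (nat_lit 9935) (nat_lit 14) (nat_lit 7))
    (@En.i (nat_lit 7663) (nat_lit 1) (nat_lit 14))
    (@En.n l17 (nat_lit 9932) (nat_lit 2) (nat_lit 2))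
    (@En.n l8116 (nat_lit 11364) (nat_lit 3) (nat_lit 6))
    (@En.n l20383 (nat_lit 9311) (nat_lit 1) (nat_lit 14))
    (@En.n l8627 (nat_lit 11649) (nat_lit 10) (nat_lit 6))
    (@En.n l19999 (nat_lit 6377) (nat_lit 6) (nat_lit 6))
    (@En.n l8629 (nat_lit 9041) (nat_lit 4) (nat_lit 9))
    (@En.n l8630 (nat_lit 12535) (nat_lit 8) (nat_lit 5))
    (@En.n l11620 (nat_lit 12603) (nat_lit 10) (nat_lit 10))
    (@En.n l8632 (nat_lit 9925) (nat_lit 10) (nat_lit 4))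
    (@En.n l1415 (nat_lit 11361) (nat_lit 12) (nat_lit 10))
    (@En.n l7084 (nat_lit 9928) (nat_lit 13) (nat_lit 10))
    (@En.n l20384 (nat_lit 11646) (nat_lit 14) (nat_lit 11))
    (@En.i (nat_lit 5053) (nat_lit 12) (nat_lit 12))
    (@En.n l3 (nat_lit 9932) (nat_lit 15) (nat_lit 2))))
  (@Cl.mk (nat_lit 0x200080008000d0009000800030008000c00080008000700040008000e0008) (nat_lit 0x5063500413005a2) (nat_lit 16) Lb.e (@T16.mk En
    (@En.n l20445 (nat_lit 11322) (nat_lit 6) (nat_lit 8))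
    (@En.n l20446 (nat_lit 6682) (nat_lit 1) (nat_lit 14))
    (@En.n l20447 (nat_lit 11305) (nat_lit 2) (nat_lit 8))
    (@En.n l20448 (nat_lit 9930) (nat_lit 3) (nat_lit 4))
    (@En.n l8768 (nat_lit 11234) (nat_lit 4) (nat_lit 7))
    (@En.n l20449 (nat_lit 9928) (nat_lit 8) (nat_lit 8))
    (@En.i (nat_lit 2593) (nat_lit 6) (nat_lit 8))
    (@En.n l20448 (nat_lit 5638) (nat_lit 8) (nat_lit 12))
    (@En.n l20450 (nat_lit 12057) (nat_lit 9) (nat_lit 8))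
    (@En.n l8768 (nat_lit 9634) (nat_lit 9) (nat_lit 3))
    (@En.n l619 (nat_lit 12541) (nat_lit 0) (nat_lit 8))
    (@En.n l20451 (nat_lit 6496) (nat_lit 12) (nat_lit 9))
    (@En.n l3670 (nat_lit 9631) (nat_lit 13) (nat_lit 13))
    (@En.n l5 (nat_lit 11333) (nat_lit 8) (nat_lit 8))
    (@En.n l20452 (nat_lit 10623) (nat_lit 4) (nat_lit 8))
    (@En.n l7 (nat_lit 9933) (nat_lit 15) (nat_lit 2))))
  (@Cl.mk (nat_lit 0x300080008000c0006000a000a000400090008000800060006000d000a0007) (nat_lit 0x255022051300650) (nat_lit 16) Lb.e (@T16.mk En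
    (@En.n l22768 (nat_lit 9935) (nat_lit 0) (nat_lit 7))
    (@En.i (nat_lit 8008) (nat_lit 9) (nat_lit 10))
    (@En.i (nat_lit 10048) (nat_lit 2) (nat_lit 13))
    (@En.n l1150 (nat_lit 11329) (nat_lit 10) (nat_lit 6))
    (@En.i (nat_lit 11816) (nat_lit 4) (nat_lit 6))
    (@En.n l2687 (nat_lit 11312) (nat_lit 8) (nat_lit 8))
    (@En.i (nat_lit 8150) (nat_lit 6) (nat_lit 8))
    (@En.n l20450 (nat_lit 11999) (nat_lit 11) (nat_lit 9))
    (@En.n l1992 (nat_lit 11242) (nat_lit 8) (nat_lit 4))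
    (@En.n l619 (nat_lit 9931) (nat_lit 6) (nat_lit 10))
    (@En.i (nat_lit 10465) (nat_lit 9) (nat_lit 10))
    (@En.n l1769 (nat_lit 11350) (nat_lit 12) (nat_lit 6))
    (@En.i (nat_lit 11466) (nat_lit 7) (nat_lit 12))
    (@En.n l22769 (nat_lit 9930) (nat_lit 8) (nat_lit 8))
    (@En.n l50 (nat_lit 11661) (nat_lit 5) (nat_lit 8))
    (@En.i (nat_lit 11328) (nat_lit 15) (nat_lit 3))))
  (@Cl.mk (nat_lit 0x200070007000c000b000900090004000900050009000900070007000e0007) (nat_lit 0x56460301400b0) (nat_lit 16) Lb.e (@T16.mk En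
    (@En.n l8626 (nat_lit 11350) (nat_lit 7) (nat_lit 7))
    (@En.n l5022 (nat_lit 9312) (nat_lit 1) (nat_lit 14))
    (@En.n l8627 (nat_lit 11652) (nat_lit 9) (nat_lit 7))
    (@En.n l8628 (nat_lit 11295) (nat_lit 3) (nat_lit 7))
    (@En.n l152 (nat_lit 9932) (nat_lit 7) (nat_lit 9))
    (@En.n l8629 (nat_lit 7040) (nat_lit 5) (nat_lit 9))
    (@En.n l8630 (nat_lit 4530) (nat_lit 6) (nat_lit 5))
    (@En.n l8631 (nat_lit 12003) (nat_lit 8) (nat_lit 9))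
    (@En.n l8632 (nat_lit 9635) (nat_lit 8) (nat_lit 4))
    (@En.n l1415 (nat_lit 11352) (nat_lit 10) (nat_lit 9))
    (@En.n l8633 (nat_lit 9933) (nat_lit 11) (nat_lit 9))
    (@En.n l8634 (nat_lit 11306) (nat_lit 12) (nat_lit 11))
    (@En.n l8635 (nat_lit 10091) (nat_lit 13) (nat_lit 12))
    (@En.n l8636 (nat_lit 11335) (nat_lit 14) (nat_lit 7))
    (@En.i (nat_lit 11934) (nat_lit 5) (nat_lit 7))
    (@En.n l17 (nat_lit 9935) (nat_lit 15) (nat_lit 2))))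
noncomputable def a621 : T16 Cl := @T16.mk Cl
  (@Cl.mk (nat_lit 0x40007000c0005000c000a0004000a0004000a00090006000c0006000b0006) (nat_lit 0x20420708402010) (nat_lit 16) Lb.e (@T16.mk En
    (@En.i (nat_lit 9431) (nat_lit 0) (nat_lit 6))
    (@En.n l9385 (nat_lit 6407) (nat_lit 1) (nat_lit 11))
    (@En.n l35409 (nat_lit 9938) (nat_lit 8) (nat_lit 6))
    (@En.n l35993 (nat_lit 8800) (nat_lit 10) (nat_lit 12))
    (@En.n l43479 (nat_lit 9459) (nat_lit 4) (nat_lit 6))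
    (@En.i (nat_lit 9702) (nat_lit 7) (nat_lit 9))
    (@En.n l43480 (nat_lit 8885) (nat_lit 13) (nat_lit 10))
    (@En.i (nat_lit 8796) (nat_lit 7) (nat_lit 4))
    (@En.n l6152 (nat_lit 9360) (nat_lit 0) (nat_lit 10))
    (@En.n l38067 (nat_lit 10058) (nat_lit 1) (nat_lit 4))
    (@En.n l55 (nat_lit 10391) (nat_lit 0) (nat_lit 10))
    (@En.n l43481 (nat_lit 9964) (nat_lit 1) (nat_lit 12))
    (@En.n l31972 (nat_lit 9709) (nat_lit 4) (nat_lit 5))
    (@En.n l43482 (nat_lit 9674) (nat_lit 8) (nat_lit 12))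
    (@En.n l17 (nat_lit 7582) (nat_lit 11) (nat_lit 7))
    (@En.n l43483 (nat_lit 9787) (nat_lit 12) (nat_lit 4))))
  (@Cl.mk (nat_lit 0x5000a0005000b0005000b000a00060005000b0005000b0006000b0005000b) (nat_lit 0x302076009090203) (nat_lit 16) Lb.e (@T16.mk En
    (@En.n l1968 (nat_lit 8753) (nat_lit 0) (nat_lit 11))
    (@En.n l30055 (nat_lit 9725) (nat_lit 1) (nat_lit 5))
    (@En.i (nat_lit 9714) (nat_lit 9) (nat_lit 11))
    (@En.n l42117 (nat_lit 7574) (nat_lit 1) (nat_lit 6))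
    (@En.n l42118 (nat_lit 10274) (nat_lit 2) (nat_lit 11))
    (@En.n l42119 (nat_lit 9426) (nat_lit 5) (nat_lit 5))
    (@En.n l42120 (nat_lit 10857) (nat_lit 0) (nat_lit 11))
    (@En.n l9824 (nat_lit 9984) (nat_lit 11) (nat_lit 5))
    (@En.n l14096 (nat_lit 9454) (nat_lit 0) (nat_lit 6))
    (@En.n l36182 (nat_lit 11884) (nat_lit 6) (nat_lit 10))
    (@En.n l55 (nat_lit 9735) (nat_lit 2) (nat_lit 11))
    (@En.n l27698 (nat_lit 8795) (nat_lit 2) (nat_lit 5))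
    (@En.n l42118 (nat_lit 8226) (nat_lit 0) (nat_lit 11))
    (@En.n l1968 (nat_lit 9959) (nat_lit 1) (nat_lit 5))
    (@En.n l36182 (nat_lit 9936) (nat_lit 10) (nat_lit 10))
    (@En.n l15801 (nat_lit 9739) (nat_lit 1) (nat_lit 5))))
  (@Cl.mk (nat_lit 0x4000a00080005000b000a00070006000b000500080006000c0005000b0009) (nat_lit 0x230360020505082) (nat_lit 16) Lb.e (@T16.mk En
    (@En.n l1553 (nat_lit 10394) (nat_lit 0) (nat_lit 9))
    (@En.n l41006 (nat_lit 9336) (nat_lit 1) (nat_lit 11))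
    (@En.n l1896 (nat_lit 9722) (nat_lit 5) (nat_lit 5))
    (@En.n l41007 (nat_lit 9728) (nat_lit 0) (nat_lit 12))
    (@En.n l644 (nat_lit 11977) (nat_lit 10) (nat_lit 6))
    (@En.n l41008 (nat_lit 11051) (nat_lit 10) (nat_lit 8))
    (@En.n l5944 (nat_lit 9422) (nat_lit 6) (nat_lit 5))
    (@En.n l41009 (nat_lit 10644) (nat_lit 0) (nat_lit 11))
    (@En.i (nat_lit 9982) (nat_lit 10) (nat_lit 6))
    (@En.n l1553 (nat_lit 9463) (nat_lit 2) (nat_lit 7))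
    (@En.n l41010 (nat_lit 11873) (nat_lit 6) (nat_lit 10))
    (@En.n l21836 (nat_lit 9739) (nat_lit 12) (nat_lit 11))
    (@En.n l41007 (nat_lit 9937) (nat_lit 11) (nat_lit 5))
    (@En.n l41011 (nat_lit 9939) (nat_lit 8) (nat_lit 8))
    (@En.n l41012 (nat_lit 8223) (nat_lit 1) (nat_lit 10))
    (@En.n l6769 (nat_lit 9941) (nat_lit 15) (nat_lit 4))))
  (@Cl.mk (nat_lit 0x40007000c0006000c000a000400080004000b00090006000c000a00050008) (nat_lit 0x60330209507602) (nat_lit 16) Lb.e (@T16.mk En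
    (@En.n l5375 (nat_lit 9774) (nat_lit 10) (nat_lit 8))
    (@En.n l22145 (nat_lit 9692) (nat_lit 1) (nat_lit 5))
    (@En.n l36874 (nat_lit 10645) (nat_lit 0) (nat_lit 10))
    (@En.n l27734 (nat_lit 9473) (nat_lit 1) (nat_lit 12))
    (@En.n l16733 (nat_lit 9469) (nat_lit 2) (nat_lit 6))
    (@En.n l830 (nat_lit 9716) (nat_lit 5) (nat_lit 9))
    (@En.n l36875 (nat_lit 9940) (nat_lit 13) (nat_lit 11))
    (@En.n l7 (nat_lit 9471) (nat_lit 7) (nat_lit 4))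
    (@En.n l36876 (nat_lit 10945) (nat_lit 11) (nat_lit 8))
    (@En.n l36877 (nat_lit 10515) (nat_lit 1) (nat_lit 4))
    (@En.n l10987 (nat_lit 10398) (nat_lit 0) (nat_lit 10))
    (@En.n l33699 (nat_lit 8805) (nat_lit 1) (nat_lit 12))
    (@En.n l36878 (nat_lit 9720) (nat_lit 4) (nat_lit 6))
    (@En.n l36879 (nat_lit 11120) (nat_lit 8) (nat_lit 12))
    (@En.n l10703 (nat_lit 11393) (nat_lit 11) (nat_lit 7))
    (@En.n l36880 (nat_lit 9936) (nat_lit 15) (nat_lit 4))))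
  (@Cl.mk (nat_lit 0x40008000b00080005000b00090005000a000800050008000c00070006000b) (nat_lit 0x283065073033003) (nat_lit 16) Lb.e (@T16.mk En
    (@En.n l10479 (nat_lit 10400) (nat_lit 0) (nat_lit 11))
    (@En.n l32497 (nat_lit 9542) (nat_lit 1) (nat_lit 6))
    (@En.n l43532 (nat_lit 9722) (nat_lit 6) (nat_lit 7))
    (@En.n l43533 (nat_lit 11112) (nat_lit 7) (nat_lit 12))
    (@En.n l5381 (nat_lit 11394) (nat_lit 10) (nat_lit 8))
    (@En.n l43534 (nat_lit 8885) (nat_lit 5) (nat_lit 5))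
    (@En.n l35988 (nat_lit 9939) (nat_lit 0) (nat_lit 8))
    (@En.n l43535 (nat_lit 11088) (nat_lit 1) (nat_lit 10))
    (@En.n l10479 (nat_lit 9695) (nat_lit 2) (nat_lit 5))
    (@En.n l20310 (nat_lit 10678) (nat_lit 7) (nat_lit 9))
    (@En.n l43536 (nat_lit 9949) (nat_lit 1) (nat_lit 11))
    (@En.n l6193 (nat_lit 9468) (nat_lit 2) (nat_lit 5))
    (@En.n l43537 (nat_lit 9721) (nat_lit 13) (nat_lit 8))
    (@En.n l24480 (nat_lit 9601) (nat_lit 7) (nat_lit 11))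
    (@En.n l13756 (nat_lit 10944) (nat_lit 11) (nat_lit 8))
    (@En.n l43538 (nat_lit 10512) (nat_lit 15) (nat_lit 4))))
  (@Cl.mk (nat_lit 0x4000a00080004000b000a00090006000a000500080006000c00070006000c) (nat_lit 0x320876000205005) (nat_lit 16) Lb.e (@T16.mk En
    (@En.n l5 (nat_lit 9337) (nat_lit 0) (nat_lit 12))
    (@En.n l29655 (nat_lit 10838) (nat_lit 10) (nat_lit 6))
    (@En.n l16697 (nat_lit 9329) (nat_lit 5) (nat_lit 7))
    (@En.n l30122 (nat_lit 8885) (nat_lit 3) (nat_lit 12))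
    (@En.n l41641 (nat_lit 11178) (nat_lit 4) (nat_lit 6))
    (@En.n l10703 (nat_lit 11049) (nat_lit 10) (nat_lit 8))
    (@En.n l29817 (nat_lit 9876) (nat_lit 6) (nat_lit 5))
    (@En.n l21452 (nat_lit 11911) (nat_lit 9) (nat_lit 10))
    (@En.n l41642 (nat_lit 10814) (nat_lit 1) (nat_lit 6))
    (@En.n l41643 (nat_lit 9943) (nat_lit 7) (nat_lit 9))
    (@En.n l21452 (nat_lit 11475) (nat_lit 6) (nat_lit 10))
    (@En.n l41644 (nat_lit 9944) (nat_lit 12) (nat_lit 11))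
    (@En.n l41645 (nat_lit 9959) (nat_lit 15) (nat_lit 4))
    (@En.n l830 (nat_lit 10515) (nat_lit 0) (nat_lit 8))
    (@En.n l50 (nat_lit 11071) (nat_lit 1) (nat_lit 10))
    (@En.n l36878 (nat_lit 9720) (nat_lit 15) (nat_lit 4))))
  (@Cl.mk (nat_lit 0x30007000c0004000b00090004000c000a0005000900040007000d0006000c) (nat_lit 0x40520970000505) (nat_lit 16) Lb.e (@T16.mk En
    (@En.n l30872 (nat_lit 8936) (nat_lit 0) (nat_lit 12))
    (@En.i (nat_lit 9941) (nat_lit 4) (nat_lit 6))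
    (@En.n l8638 (nat_lit 10476) (nat_lit 2) (nat_lit 13))
    (@En.n l10703 (nat_lit 9778) (nat_lit 11) (nat_lit 7))
    (@En.n l36880 (nat_lit 9950) (nat_lit 4) (nat_lit 4))
    (@En.n l5375 (nat_lit 12028) (nat_lit 0) (nat_lit 9))
    (@En.n l21041 (nat_lit 10505) (nat_lit 1) (nat_lit 5))
    (@En.n l43098 (nat_lit 10636) (nat_lit 8) (nat_lit 10))
    (@En.n l32094 (nat_lit 9946) (nat_lit 9) (nat_lit 12))
    (@En.n l8638 (nat_lit 9957) (nat_lit 9) (nat_lit 4))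
    (@En.n l830 (nat_lit 10513) (nat_lit 11) (nat_lit 9))
    (@En.n l50 (nat_lit 10947) (nat_lit 12) (nat_lit 11))
    (@En.i (nat_lit 9939) (nat_lit 7) (nat_lit 4))
    (@En.n l5 (nat_lit 9142) (nat_lit 0) (nat_lit 12))
    (@En.n l830 (nat_lit 10946) (nat_lit 12) (nat_lit 7))
    (@En.n l24419 (nat_lit 9943) (nat_lit 15) (nat_lit 3))))
  (@Cl.mk (nat_lit 0x30007000c0005000b00090004000c00090005000900040007000d000b0007) (nat_lit 0x60330950000410) (nat_lit 16) Lb.e (@T16.mk En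
    (@En.n l32796 (nat_lit 11513) (nat_lit 0) (nat_lit 7))
    (@En.n l33099 (nat_lit 9471) (nat_lit 13) (nat_lit 11))
    (@En.n l33100 (nat_lit 10478) (nat_lit 2) (nat_lit 13))
    (@En.n l11382 (nat_lit 9776) (nat_lit 11) (nat_lit 7))
    (@En.n l18 (nat_lit 9879) (nat_lit 4) (nat_lit 4))
    (@En.n l33101 (nat_lit 12025) (nat_lit 0) (nat_lit 9))
    (@En.n l2419 (nat_lit 10495) (nat_lit 1) (nat_lit 5))
    (@En.n l33102 (nat_lit 10711) (nat_lit 0) (nat_lit 9))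
    (@En.n l33103 (nat_lit 9945) (nat_lit 9) (nat_lit 12))
    (@En.n l33104 (nat_lit 9958) (nat_lit 9) (nat_lit 4))
    (@En.i (nat_lit 10514) (nat_lit 11) (nat_lit 9))
    (@En.n l33105 (nat_lit 10945) (nat_lit 12) (nat_lit 11))
    (@En.n l33106 (nat_lit 9717) (nat_lit 7) (nat_lit 5))
    (@En.i (nat_lit 9146) (nat_lit 14) (nat_lit 12))
    (@En.n l11434 (nat_lit 9947) (nat_lit 12) (nat_lit 7))
    (@En.n l33107 (nat_lit 9942) (nat_lit 15) (nat_lit 3))))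
  (@Cl.mk (nat_lit 0x4000b0008000b00090008000500090005000a00080007000c000800070006) (nat_lit 0x327740704303300) (nat_lit 16) Lb.e (@T16.mk En
    (@En.n l41512 (nat_lit 10721) (nat_lit 10) (nat_lit 6))
    (@En.i (nat_lit 10843) (nat_lit 9) (nat_lit 7))
    (@En.n l41513 (nat_lit 9330) (nat_lit 1) (nat_lit 8))
    (@En.n l41514 (nat_lit 8880) (nat_lit 8) (nat_lit 12))
    (@En.n l3 (nat_lit 11100) (nat_lit 9) (nat_lit 7))
    (@En.n l41515 (nat_lit 9941) (nat_lit 5) (nat_lit 8))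
    (@En.n l3596 (nat_lit 10277) (nat_lit 10) (nat_lit 10))
    (@En.n l41516 (nat_lit 9874) (nat_lit 7) (nat_lit 5))
    (@En.n l14765 (nat_lit 11926) (nat_lit 10) (nat_lit 9))
    (@En.n l28982 (nat_lit 10813) (nat_lit 1) (nat_lit 5))
    (@En.n l41517 (nat_lit 9945) (nat_lit 8) (nat_lit 8))
    (@En.n l41518 (nat_lit 12001) (nat_lit 1) (nat_lit 9))
    (@En.n l41514 (nat_lit 11293) (nat_lit 7) (nat_lit 11))
    (@En.n l41519 (nat_lit 10512) (nat_lit 14) (nat_lit 8))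
    (@En.n l41520 (nat_lit 10733) (nat_lit 4) (nat_lit 11))
    (@En.n l41521 (nat_lit 9721) (nat_lit 12) (nat_lit 4))))
  (@Cl.mk (nat_lit 0x3000800070005000c0009000c000800040008000400090007000d000b0008) (nat_lit 0x600328306040514) (nat_lit 16) Lb.e (@T16.mk En
    (@En.n l3307 (nat_lit 9891) (nat_lit 0) (nat_lit 8))
    (@En.n l31228 (nat_lit 9472) (nat_lit 10) (nat_lit 11))
    (@En.n l40479 (nat_lit 10705) (nat_lit 2) (nat_lit 13))
    (@En.n l40480 (nat_lit 9943) (nat_lit 3) (nat_lit 7))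
    (@En.n l31661 (nat_lit 11406) (nat_lit 4) (nat_lit 9))
    (@En.n l40481 (nat_lit 9878) (nat_lit 5) (nat_lit 4))
    (@En.n l16254 (nat_lit 12026) (nat_lit 0) (nat_lit 8))
    (@En.n l28 (nat_lit 10500) (nat_lit 7) (nat_lit 4))
    (@En.n l17194 (nat_lit 10713) (nat_lit 0) (nat_lit 8))
    (@En.i (nat_lit 11310) (nat_lit 6) (nat_lit 12))
    (@En.n l40482 (nat_lit 10510) (nat_lit 11) (nat_lit 9))
    (@En.n l8331 (nat_lit 10944) (nat_lit 12) (nat_lit 12))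
    (@En.n l16254 (nat_lit 9716) (nat_lit 4) (nat_lit 5))
    (@En.i (nat_lit 9555) (nat_lit 14) (nat_lit 7))
    (@En.n l35186 (nat_lit 9948) (nat_lit 6) (nat_lit 8))
    (@En.n l12849 (nat_lit 9946) (nat_lit 15) (nat_lit 3))))
  (@Cl.mk (nat_lit 0x3000800070004000c0009000c000900040008000400090007000d0007000c) (nat_lit 0x500528600040606) (nat_lit 16) Lb.e (@T16.mk En
    (@En.n l39605 (nat_lit 8937) (nat_lit 0) (nat_lit 12))
    (@En.n l39606 (nat_lit 9944) (nat_lit 4) (nat_lit 7))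
    (@En.n l39607 (nat_lit 10703) (nat_lit 2) (nat_lit 13))
    (@En.n l39608 (nat_lit 9942) (nat_lit 3) (nat_lit 7))
    (@En.n l13367 (nat_lit 11407) (nat_lit 4) (nat_lit 9))
    (@En.n l10356 (nat_lit 9877) (nat_lit 5) (nat_lit 4))
    (@En.n l39609 (nat_lit 12027) (nat_lit 0) (nat_lit 8))
    (@En.i (nat_lit 10499) (nat_lit 7) (nat_lit 4))
    (@En.n l39610 (nat_lit 11995) (nat_lit 0) (nat_lit 9))
    (@En.n l11321 (nat_lit 11251) (nat_lit 6) (nat_lit 12))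
    (@En.n l13368 (nat_lit 10511) (nat_lit 11) (nat_lit 9))
    (@En.n l39611 (nat_lit 10949) (nat_lit 12) (nat_lit 12))
    (@En.n l39612 (nat_lit 9473) (nat_lit 4) (nat_lit 4))
    (@En.i (nat_lit 9556) (nat_lit 14) (nat_lit 7))
    (@En.n l3213 (nat_lit 10951) (nat_lit 1) (nat_lit 8))
    (@En.n l11319 (nat_lit 9945) (nat_lit 15) (nat_lit 3))))
  (@Cl.mk (nat_lit 0x3000c00080007000c0004000b00080004000b000800050009000d00050008) (nat_lit 0x430205308400401) (nat_lit 16) Lb.e (@T16.mk En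
    (@En.n l42763 (nat_lit 5747) (nat_lit 10) (nat_lit 8))
    (@En.n l29125 (nat_lit 9941) (nat_lit 6) (nat_lit 5))
    (@En.n l28799 (nat_lit 11796) (nat_lit 6) (nat_lit 13))
    (@En.n l42764 (nat_lit 11024) (nat_lit 10) (nat_lit 9))
    (@En.i (nat_lit 12442) (nat_lit 4) (nat_lit 5))
    (@En.n l42574 (nat_lit 10709) (nat_lit 5) (nat_lit 8))
    (@En.n l41396 (nat_lit 9948) (nat_lit 1) (nat_lit 11))
    (@En.n l6444 (nat_lit 11714) (nat_lit 7) (nat_lit 4))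
    (@En.n l28799 (nat_lit 9813) (nat_lit 0) (nat_lit 8))
    (@En.n l13489 (nat_lit 10840) (nat_lit 10) (nat_lit 11))
    (@En.n l36980 (nat_lit 11870) (nat_lit 10) (nat_lit 4))
    (@En.i (nat_lit 10185) (nat_lit 0) (nat_lit 12))
    (@En.n l42765 (nat_lit 10619) (nat_lit 1) (nat_lit 7))
    (@En.n l42766 (nat_lit 11800) (nat_lit 14) (nat_lit 8))
    (@En.n l23340 (nat_lit 9940) (nat_lit 3) (nat_lit 12))
    (@En.n l41554 (nat_lit 11475) (nat_lit 15) (nat_lit 3))))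
  (@Cl.mk (nat_lit 0x40008000c0005000a00080004000c0009000800060004000c0008000b0007) (nat_lit 0x50620505005370) (nat_lit 16) Lb.e (@T16.mk En
    (@En.n l42496 (nat_lit 10712) (nat_lit 0) (nat_lit 7))
    (@En.n l19262 (nat_lit 12792) (nat_lit 7) (nat_lit 11))
    (@En.n l42497 (nat_lit 9812) (nat_lit 14) (nat_lit 8))
    (@En.n l42498 (nat_lit 10842) (nat_lit 10) (nat_lit 12))
    (@En.n l42499 (nat_lit 11781) (nat_lit 4) (nat_lit 4))
    (@En.n l19262 (nat_lit 10154) (nat_lit 0) (nat_lit 6))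
    (@En.n l15078 (nat_lit 10621) (nat_lit 8) (nat_lit 8))
    (@En.n l41417 (nat_lit 11803) (nat_lit 14) (nat_lit 9))
    (@En.n l42169 (nat_lit 9949) (nat_lit 9) (nat_lit 12))
    (@En.n l40571 (nat_lit 11805) (nat_lit 9) (nat_lit 4))
    (@En.n l763 (nat_lit 9947) (nat_lit 0) (nat_lit 8))
    (@En.n l39730 (nat_lit 10705) (nat_lit 1) (nat_lit 10))
    (@En.n l29501 (nat_lit 9944) (nat_lit 7) (nat_lit 5))
    (@En.n l41416 (nat_lit 11795) (nat_lit 7) (nat_lit 12))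
    (@En.n l42500 (nat_lit 11938) (nat_lit 11) (nat_lit 8))
    (@En.n l42501 (nat_lit 12443) (nat_lit 15) (nat_lit 4))))
  (@Cl.mk (nat_lit 0x4000900070005000b0008000c00080007000500040009000c0008000b0008) (nat_lit 0x600044600028454) (nat_lit 16) Lb.e (@T16.mk En
    (@En.n l34966 (nat_lit 11115) (nat_lit 0) (nat_lit 8))
    (@En.i (nat_lit 7162) (nat_lit 7) (nat_lit 11))
    (@En.n l39137 (nat_lit 9723) (nat_lit 13) (nat_lit 8))
    (@En.n l24659 (nat_lit 9600) (nat_lit 6) (nat_lit 12))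
    (@En.n l39138 (nat_lit 10952) (nat_lit 4) (nat_lit 9))
    (@En.i (nat_lit 10511) (nat_lit 12) (nat_lit 4))
    (@En.n l17023 (nat_lit 10084) (nat_lit 0) (nat_lit 5))
    (@En.n l39139 (nat_lit 9538) (nat_lit 9) (nat_lit 7))
    (@En.n l24659 (nat_lit 9723) (nat_lit 1) (nat_lit 8))
    (@En.n l39139 (nat_lit 9290) (nat_lit 7) (nat_lit 12))
    (@En.n l39140 (nat_lit 9940) (nat_lit 4) (nat_lit 8))
    (@En.n l39141 (nat_lit 11090) (nat_lit 12) (nat_lit 11))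
    (@En.n l17023 (nat_lit 8880) (nat_lit 11) (nat_lit 5))
    (@En.n l17 (nat_lit 9473) (nat_lit 14) (nat_lit 7))
    (@En.i (nat_lit 11087) (nat_lit 11) (nat_lit 9))
    (@En.n l20805 (nat_lit 8799) (nat_lit 15) (nat_lit 4))))
  (@Cl.mk (nat_lit 0x30009000c0004000a00090004000c0007000b000600040007000d0005000c) (nat_lit 0x560330901000404) (nat_lit 16) Lb.e (@T16.mk En
    (@En.n l16383 (nat_lit 8931) (nat_lit 0) (nat_lit 12))
    (@En.n l2642 (nat_lit 9876) (nat_lit 4) (nat_lit 5))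
    (@En.n l23348 (nat_lit 10474) (nat_lit 2) (nat_lit 13))
    (@En.n l17 (nat_lit 7559) (nat_lit 11) (nat_lit 7))
    (@En.n l3098 (nat_lit 9791) (nat_lit 4) (nat_lit 4))
    (@En.i (nat_lit 10506) (nat_lit 0) (nat_lit 6))
    (@En.n l1203 (nat_lit 9168) (nat_lit 1) (nat_lit 11))
    (@En.i (nat_lit 9803) (nat_lit 7) (nat_lit 7))
    (@En.i (nat_lit 9877) (nat_lit 9) (nat_lit 12))
    (@En.n l23348 (nat_lit 9951) (nat_lit 9) (nat_lit 4))
    (@En.i (nat_lit 6122) (nat_lit 11) (nat_lit 9))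
    (@En.n l16383 (nat_lit 10660) (nat_lit 12) (nat_lit 10))
    (@En.i (nat_lit 9936) (nat_lit 7) (nat_lit 4))
    (@En.i (nat_lit 9144) (nat_lit 6) (nat_lit 12))
    (@En.n l2117 (nat_lit 9656) (nat_lit 1) (nat_lit 9))
    (@En.n l117 (nat_lit 9879) (nat_lit 15) (nat_lit 3))))
  (@Cl.mk (nat_lit 0x30009000c00070005000b0004000c0007000b000500040009000d0005000b) (nat_lit 0x410060901000402) (nat_lit 16) Lb.e (@T16.mk En
    (@En.n l8012 (nat_lit 6763) (nat_lit 0) (nat_lit 11))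
    (@En.n l32046 (nat_lit 9955) (nat_lit 7) (nat_lit 5))
    (@En.i (nat_lit 11104) (nat_lit 6) (nat_lit 13))
    (@En.n l41303 (nat_lit 10595) (nat_lit 3) (nat_lit 9))
    (@En.i (nat_lit 9960) (nat_lit 12) (nat_lit 4))
    (@En.n l37973 (nat_lit 10490) (nat_lit 5) (nat_lit 5))
    (@En.n l8012 (nat_lit 9139) (nat_lit 1) (nat_lit 11))
    (@En.n l32299 (nat_lit 9953) (nat_lit 7) (nat_lit 7))
    (@En.n l41304 (nat_lit 7933) (nat_lit 9) (nat_lit 12))
    (@En.n l37973 (nat_lit 10391) (nat_lit 9) (nat_lit 4))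
    (@En.n l14883 (nat_lit 10665) (nat_lit 11) (nat_lit 11))
    (@En.n l17 (nat_lit 8121) (nat_lit 1) (nat_lit 5))
    (@En.n l41305 (nat_lit 9877) (nat_lit 13) (nat_lit 7))
    (@En.n l2038 (nat_lit 8649) (nat_lit 6) (nat_lit 12))
    (@En.n l37819 (nat_lit 9464) (nat_lit 2) (nat_lit 9))
    (@En.n l32038 (nat_lit 9952) (nat_lit 15) (nat_lit 3))))
noncomputable def a622 : T16 Cl := @T16.mk Cl
  (@Cl.mk (nat_lit 0x30009000c00070006000b0004000c0007000a000500040009000d000a0006) (nat_lit 0x430030904007320) (nat_lit 16) Lb.e (@T16.mk En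
    (@En.n l17113 (nat_lit 5278) (nat_lit 0) (nat_lit 6))
    (@En.n l19729 (nat_lit 9457) (nat_lit 13) (nat_lit 10))
    (@En.n l4003 (nat_lit 11106) (nat_lit 6) (nat_lit 13))
    (@En.n l43075 (nat_lit 10596) (nat_lit 3) (nat_lit 9))
    (@En.n l5200 (nat_lit 9961) (nat_lit 12) (nat_lit 4))
    (@En.i (nat_lit 10487) (nat_lit 5) (nat_lit 5))
    (@En.n l3082 (nat_lit 8727) (nat_lit 8) (nat_lit 10))
    (@En.n l38817 (nat_lit 9954) (nat_lit 7) (nat_lit 7))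
    (@En.n l8015 (nat_lit 7932) (nat_lit 9) (nat_lit 12))
    (@En.n l8400 (nat_lit 10389) (nat_lit 9) (nat_lit 4))
    (@En.n l4003 (nat_lit 10662) (nat_lit 11) (nat_lit 11))
    (@En.n l8403 (nat_lit 6222) (nat_lit 10) (nat_lit 6))
    (@En.n l24442 (nat_lit 9878) (nat_lit 13) (nat_lit 7))
    (@En.n l8403 (nat_lit 8650) (nat_lit 6) (nat_lit 12))
    (@En.n l43076 (nat_lit 9955) (nat_lit 4) (nat_lit 9))
    (@En.n l25241 (nat_lit 9951) (nat_lit 15) (nat_lit 3))))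
  (@Cl.mk (nat_lit 0x300090007000c00080006000c00040007000b000400090008000d0005000a) (nat_lit 0x502207003020402) (nat_lit 16) Lb.e (@T16.mk En
    (@En.n l10089 (nat_lit 6575) (nat_lit 0) (nat_lit 10))
    (@En.n l35010 (nat_lit 9956) (nat_lit 8) (nat_lit 5))
    (@En.n l28322 (nat_lit 11107) (nat_lit 2) (nat_lit 13))
    (@En.i (nat_lit 10599) (nat_lit 8) (nat_lit 8))
    (@En.n l42195 (nat_lit 9165) (nat_lit 4) (nat_lit 9))
    (@En.n l117 (nat_lit 10491) (nat_lit 5) (nat_lit 4))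
    (@En.n l2843 (nat_lit 10811) (nat_lit 0) (nat_lit 11))
    (@En.n l253 (nat_lit 5434) (nat_lit 11) (nat_lit 7))
    (@En.n l32293 (nat_lit 10394) (nat_lit 8) (nat_lit 4))
    (@En.n l3593 (nat_lit 10666) (nat_lit 0) (nat_lit 12))
    (@En.n l7231 (nat_lit 8119) (nat_lit 1) (nat_lit 6))
    (@En.n l1784 (nat_lit 9801) (nat_lit 12) (nat_lit 8))
    (@En.n l42196 (nat_lit 9951) (nat_lit 13) (nat_lit 12))
    (@En.n l42197 (nat_lit 9957) (nat_lit 14) (nat_lit 7))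
    (@En.n l253 (nat_lit 9463) (nat_lit 5) (nat_lit 9))
    (@En.n l42198 (nat_lit 9954) (nat_lit 15) (nat_lit 3))))
  (@Cl.mk (nat_lit 0x300090007000c00080007000c00040007000a000400090008000d00090006) (nat_lit 0x604309003060320) (nat_lit 16) Lb.e (@T16.mk En
    (@En.n l3480 (nat_lit 5244) (nat_lit 0) (nat_lit 6))
    (@En.n l16307 (nat_lit 9453) (nat_lit 12) (nat_lit 9))
    (@En.n l810 (nat_lit 11108) (nat_lit 2) (nat_lit 13))
    (@En.n l77 (nat_lit 10598) (nat_lit 8) (nat_lit 8))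
    (@En.n l36292 (nat_lit 9164) (nat_lit 4) (nat_lit 9))
    (@En.n l43253 (nat_lit 10488) (nat_lit 5) (nat_lit 4))
    (@En.i (nat_lit 10880) (nat_lit 8) (nat_lit 10))
    (@En.n l21914 (nat_lit 5433) (nat_lit 11) (nat_lit 7))
    (@En.n l31096 (nat_lit 10392) (nat_lit 8) (nat_lit 4))
    (@En.i (nat_lit 10667) (nat_lit 0) (nat_lit 12))
    (@En.n l43358 (nat_lit 6221) (nat_lit 1) (nat_lit 7))
    (@En.n l31998 (nat_lit 9640) (nat_lit 12) (nat_lit 8))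
    (@En.n l25506 (nat_lit 9952) (nat_lit 13) (nat_lit 12))
    (@En.n l43359 (nat_lit 9958) (nat_lit 14) (nat_lit 7))
    (@En.i (nat_lit 9956) (nat_lit 5) (nat_lit 9))
    (@En.n l43360 (nat_lit 9953) (nat_lit 15) (nat_lit 3))))
  (@Cl.mk (nat_lit 0x4000b0007000b000a00060005000a0005000b00060009000c00060005000a) (nat_lit 0x802500802035003) (nat_lit 16) Lb.e (@T16.mk En
    (@En.n l41898 (nat_lit 10669) (nat_lit 0) (nat_lit 10))
    (@En.n l50 (nat_lit 6220) (nat_lit 11) (nat_lit 5))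
    (@En.n l41899 (nat_lit 9874) (nat_lit 0) (nat_lit 6))
    (@En.i (nat_lit 9833) (nat_lit 6) (nat_lit 12))
    (@En.n l15078 (nat_lit 9566) (nat_lit 9) (nat_lit 9))
    (@En.n l20731 (nat_lit 5265) (nat_lit 5) (nat_lit 6))
    (@En.n l3273 (nat_lit 9458) (nat_lit 3) (nat_lit 11))
    (@En.n l41900 (nat_lit 11090) (nat_lit 7) (nat_lit 5))
    (@En.n l41901 (nat_lit 10597) (nat_lit 10) (nat_lit 10))
    (@En.n l41900 (nat_lit 10304) (nat_lit 11) (nat_lit 5))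
    (@En.n l3429 (nat_lit 11854) (nat_lit 0) (nat_lit 6))
    (@En.n l41902 (nat_lit 9952) (nat_lit 6) (nat_lit 10))
    (@En.n l41903 (nat_lit 9204) (nat_lit 8) (nat_lit 11))
    (@En.n l41904 (nat_lit 9956) (nat_lit 14) (nat_lit 7))
    (@En.n l41905 (nat_lit 11224) (nat_lit 3) (nat_lit 11))
    (@En.n l32450 (nat_lit 10390) (nat_lit 15) (nat_lit 4))))
  (@Cl.mk (nat_lit 0x40007000b000a0005000a00090005000a000600090006000c00070006000b) (nat_lit 0x74077020506003) (nat_lit 16) Lb.e (@T16.mk En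
    (@En.i (nat_lit 10668) (nat_lit 0) (nat_lit 11))
    (@En.n l42408 (nat_lit 6219) (nat_lit 1) (nat_lit 6))
    (@En.n l42409 (nat_lit 9641) (nat_lit 6) (nat_lit 7))
    (@En.n l42410 (nat_lit 9955) (nat_lit 3) (nat_lit 12))
    (@En.n l42411 (nat_lit 9959) (nat_lit 4) (nat_lit 6))
    (@En.n l35081 (nat_lit 9565) (nat_lit 9) (nat_lit 9))
    (@En.n l35082 (nat_lit 5239) (nat_lit 6) (nat_lit 6))
    (@En.n l42412 (nat_lit 9452) (nat_lit 10) (nat_lit 10))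
    (@En.n l42413 (nat_lit 11086) (nat_lit 8) (nat_lit 5))
    (@En.n l42414 (nat_lit 10600) (nat_lit 7) (nat_lit 9))
    (@En.n l42415 (nat_lit 9163) (nat_lit 10) (nat_lit 10))
    (@En.n l35085 (nat_lit 11855) (nat_lit 2) (nat_lit 5))
    (@En.n l11 (nat_lit 9954) (nat_lit 6) (nat_lit 10))
    (@En.n l35086 (nat_lit 10701) (nat_lit 8) (nat_lit 11))
    (@En.n l42416 (nat_lit 5432) (nat_lit 11) (nat_lit 7))
    (@En.n l42417 (nat_lit 10393) (nat_lit 15) (nat_lit 4))))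
  (@Cl.mk (nat_lit 0x30007000c00070005000c0004000c000a0004000900040009000d0006000b) (nat_lit 0x80070630300502) (nat_lit 16) Lb.e (@T16.mk En
    (@En.n l30272 (nat_lit 6767) (nat_lit 0) (nat_lit 11))
    (@En.n l32046 (nat_lit 9959) (nat_lit 7) (nat_lit 6))
    (@En.i (nat_lit 10696) (nat_lit 6) (nat_lit 13))
    (@En.n l43230 (nat_lit 10835) (nat_lit 3) (nat_lit 9))
    (@En.n l7 (nat_lit 9951) (nat_lit 4) (nat_lit 4))
    (@En.i (nat_lit 10252) (nat_lit 5) (nat_lit 9))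
    (@En.n l39772 (nat_lit 10492) (nat_lit 6) (nat_lit 4))
    (@En.n l644 (nat_lit 10307) (nat_lit 0) (nat_lit 10))
    (@En.n l3528 (nat_lit 11243) (nat_lit 1) (nat_lit 12))
    (@En.n l35812 (nat_lit 10398) (nat_lit 9) (nat_lit 4))
    (@En.n l2125 (nat_lit 10948) (nat_lit 11) (nat_lit 12))
    (@En.n l17 (nat_lit 9575) (nat_lit 1) (nat_lit 5))
    (@En.n l42808 (nat_lit 9946) (nat_lit 13) (nat_lit 7))
    (@En.n l619 (nat_lit 8657) (nat_lit 14) (nat_lit 12))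
    (@En.n l43231 (nat_lit 10692) (nat_lit 12) (nat_lit 7))
    (@En.n l3517 (nat_lit 9958) (nat_lit 15) (nat_lit 3))))
  (@Cl.mk (nat_lit 0x30007000c00070006000c0004000c00090004000900040009000d000a0007) (nat_lit 0x30080630500460) (nat_lit 16) Lb.e (@T16.mk En
    (@En.n l6080 (nat_lit 11515) (nat_lit 0) (nat_lit 7))
    (@En.n l41871 (nat_lit 9353) (nat_lit 11) (nat_lit 10))
    (@En.n l4130 (nat_lit 10699) (nat_lit 6) (nat_lit 13))
    (@En.n l41872 (nat_lit 10837) (nat_lit 3) (nat_lit 9))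
    (@En.n l3348 (nat_lit 9952) (nat_lit 4) (nat_lit 4))
    (@En.n l4130 (nat_lit 10253) (nat_lit 5) (nat_lit 9))
    (@En.n l37702 (nat_lit 10489) (nat_lit 6) (nat_lit 4))
    (@En.n l899 (nat_lit 10708) (nat_lit 0) (nat_lit 9))
    (@En.n l32323 (nat_lit 10466) (nat_lit 1) (nat_lit 12))
    (@En.n l34695 (nat_lit 10397) (nat_lit 9) (nat_lit 4))
    (@En.n l899 (nat_lit 10946) (nat_lit 11) (nat_lit 12))
    (@En.n l5384 (nat_lit 10433) (nat_lit 10) (nat_lit 6))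
    (@En.n l40503 (nat_lit 9945) (nat_lit 13) (nat_lit 7))
    (@En.n l5377 (nat_lit 8656) (nat_lit 14) (nat_lit 12))
    (@En.n l20088 (nat_lit 11714) (nat_lit 12) (nat_lit 7))
    (@En.n l2834 (nat_lit 9957) (nat_lit 15) (nat_lit 3))))
  (@Cl.mk (nat_lit 0x4000b000a00090005000a0005000a0006000b00070006000c00060005000b) (nat_lit 0x634010007002003) (nat_lit 16) Lb.e (@T16.mk En
    (@En.n l29500 (nat_lit 11070) (nat_lit 0) (nat_lit 11))
    (@En.n l50 (nat_lit 10068) (nat_lit 11) (nat_lit 5))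
    (@En.n l29501 (nat_lit 9944) (nat_lit 0) (nat_lit 6))
    (@En.i (nat_lit 8754) (nat_lit 1) (nat_lit 12))
    (@En.n l15078 (nat_lit 10835) (nat_lit 10) (nat_lit 6))
    (@En.n l29502 (nat_lit 9332) (nat_lit 5) (nat_lit 7))
    (@En.n l15619 (nat_lit 9358) (nat_lit 9) (nat_lit 11))
    (@En.n l29503 (nat_lit 11179) (nat_lit 7) (nat_lit 6))
    (@En.n l29500 (nat_lit 10273) (nat_lit 10) (nat_lit 10))
    (@En.n l11 (nat_lit 9955) (nat_lit 9) (nat_lit 5))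
    (@En.n l29504 (nat_lit 5594) (nat_lit 10) (nat_lit 10))
    (@En.n l17 (nat_lit 10274) (nat_lit 1) (nat_lit 5))
    (@En.n l29505 (nat_lit 9958) (nat_lit 7) (nat_lit 9))
    (@En.n l2824 (nat_lit 11715) (nat_lit 6) (nat_lit 10))
    (@En.n l15618 (nat_lit 11294) (nat_lit 2) (nat_lit 11))
    (@En.n l29506 (nat_lit 10071) (nat_lit 15) (nat_lit 4))))
  (@Cl.mk (nat_lit 0x30008000c00040009000d0004000b00030008000c00070005000d0004000c) (nat_lit 0x410730306100908) (nat_lit 16) Lb.e (@T16.mk En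
    (@En.i (nat_lit 11219) (nat_lit 0) (nat_lit 12))
    (@En.n l10969 (nat_lit 10300) (nat_lit 9) (nat_lit 4))
    (@En.n l2125 (nat_lit 4247) (nat_lit 11) (nat_lit 13))
    (@En.n l17 (nat_lit 8088) (nat_lit 3) (nat_lit 5))
    (@En.i (nat_lit 9794) (nat_lit 4) (nat_lit 7))
    (@En.n l2038 (nat_lit 8601) (nat_lit 7) (nat_lit 12))
    (@En.n l32419 (nat_lit 7302) (nat_lit 6) (nat_lit 8))
    (@En.n l3517 (nat_lit 9961) (nat_lit 7) (nat_lit 3))
    (@En.n l21838 (nat_lit 4439) (nat_lit 0) (nat_lit 11))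
    (@En.i (nat_lit 10304) (nat_lit 9) (nat_lit 4))
    (@En.i (nat_lit 10889) (nat_lit 6) (nat_lit 13))
    (@En.n l33390 (nat_lit 10327) (nat_lit 3) (nat_lit 9))
    (@En.i (nat_lit 9957) (nat_lit 4) (nat_lit 4))
    (@En.n l476 (nat_lit 4332) (nat_lit 0) (nat_lit 12))
    (@En.i (nat_lit 10251) (nat_lit 6) (nat_lit 8))
    (@En.i (nat_lit 9962) (nat_lit 7) (nat_lit 3))))
  (@Cl.mk (nat_lit 0x30008000b00040009000d000a000500030008000c00070006000d0004000c) (nat_lit 0x410728004100902) (nat_lit 16) Lb.e (@T16.mk En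
    (@En.n l24823 (nat_lit 11220) (nat_lit 0) (nat_lit 12))
    (@En.i (nat_lit 10301) (nat_lit 9) (nat_lit 4))
    (@En.n l899 (nat_lit 4307) (nat_lit 11) (nat_lit 13))
    (@En.n l2605 (nat_lit 7621) (nat_lit 10) (nat_lit 6))
    (@En.n l1357 (nat_lit 9792) (nat_lit 4) (nat_lit 7))
    (@En.n l2605 (nat_lit 8604) (nat_lit 7) (nat_lit 12))
    (@En.n l23851 (nat_lit 10304) (nat_lit 6) (nat_lit 8))
    (@En.n l2834 (nat_lit 9960) (nat_lit 7) (nat_lit 3))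
    (@En.n l2125 (nat_lit 7842) (nat_lit 0) (nat_lit 5))
    (@En.n l4130 (nat_lit 9495) (nat_lit 10) (nat_lit 10))
    (@En.n l4130 (nat_lit 10883) (nat_lit 6) (nat_lit 13))
    (@En.n l9182 (nat_lit 10538) (nat_lit 3) (nat_lit 9))
    (@En.i (nat_lit 9958) (nat_lit 4) (nat_lit 4))
    (@En.i (nat_lit 8728) (nat_lit 7) (nat_lit 11))
    (@En.n l4130 (nat_lit 10250) (nat_lit 6) (nat_lit 8))
    (@En.i (nat_lit 9963) (nat_lit 15) (nat_lit 3))))
  (@Cl.mk (nat_lit 0x30008000b00070005000d000b000500030008000c00050009000d0004000b) (nat_lit 0x6600a7004907303) (nat_lit 16) Lb.e (@T16.mk En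
    (@En.n l9590 (nat_lit 4440) (nat_lit 0) (nat_lit 11))
    (@En.n l32434 (nat_lit 10303) (nat_lit 9) (nat_lit 4))
    (@En.i (nat_lit 10888) (nat_lit 6) (nat_lit 13))
    (@En.n l17678 (nat_lit 10324) (nat_lit 10) (nat_lit 9))
    (@En.n l32435 (nat_lit 10400) (nat_lit 4) (nat_lit 5))
    (@En.n l32436 (nat_lit 9138) (nat_lit 7) (nat_lit 12))
    (@En.i (nat_lit 10300) (nat_lit 6) (nat_lit 8))
    (@En.n l28 (nat_lit 9960) (nat_lit 15) (nat_lit 3))
    (@En.n l19197 (nat_lit 5188) (nat_lit 0) (nat_lit 5))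
    (@En.i (nat_lit 9951) (nat_lit 10) (nat_lit 11))
    (@En.n l19198 (nat_lit 4248) (nat_lit 11) (nat_lit 13))
    (@En.n l17 (nat_lit 7639) (nat_lit 3) (nat_lit 5))
    (@En.n l17678 (nat_lit 8877) (nat_lit 4) (nat_lit 7))
    (@En.n l2038 (nat_lit 12716) (nat_lit 7) (nat_lit 11))
    (@En.n l32437 (nat_lit 7299) (nat_lit 6) (nat_lit 8))
    (@En.n l3517 (nat_lit 9963) (nat_lit 7) (nat_lit 3))))
  (@Cl.mk (nat_lit 0x30008000b00050009000d000a000500030008000b00070006000d000b0005) (nat_lit 0x410732006700a40) (nat_lit 16) Lb.e (@T16.mk En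
    (@En.n l37699 (nat_lit 7829) (nat_lit 0) (nat_lit 5))
    (@En.n l5854 (nat_lit 9952) (nat_lit 10) (nat_lit 11))
    (@En.n l899 (nat_lit 4308) (nat_lit 11) (nat_lit 13))
    (@En.n l2605 (nat_lit 7620) (nat_lit 10) (nat_lit 6))
    (@En.n l34770 (nat_lit 10132) (nat_lit 4) (nat_lit 7))
    (@En.n l2605 (nat_lit 12715) (nat_lit 7) (nat_lit 11))
    (@En.n l33205 (nat_lit 10303) (nat_lit 6) (nat_lit 8))
    (@En.n l2834 (nat_lit 9962) (nat_lit 15) (nat_lit 3))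
    (@En.n l3928 (nat_lit 7839) (nat_lit 0) (nat_lit 5))
    (@En.n l37700 (nat_lit 9492) (nat_lit 10) (nat_lit 10))
    (@En.n l4130 (nat_lit 10884) (nat_lit 6) (nat_lit 13))
    (@En.n l37701 (nat_lit 10326) (nat_lit 10) (nat_lit 9))
    (@En.n l37702 (nat_lit 10399) (nat_lit 4) (nat_lit 5))
    (@En.i (nat_lit 8724) (nat_lit 7) (nat_lit 11))
    (@En.n l612 (nat_lit 10301) (nat_lit 6) (nat_lit 8))
    (@En.n l50 (nat_lit 9961) (nat_lit 15) (nat_lit 3))))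
  (@Cl.mk (nat_lit 0x300090004000a000a00090007000c00070006000600040007000d000c0009) (nat_lit 0x202850500000632) (nat_lit 16) Lb.e (@T16.mk En
    (@En.n l30198 (nat_lit 6951) (nat_lit 0) (nat_lit 9))
    (@En.n l55 (nat_lit 9966) (nat_lit 4) (nat_lit 12))
    (@En.n l30199 (nat_lit 6813) (nat_lit 2) (nat_lit 13))
    (@En.n l20187 (nat_lit 5909) (nat_lit 11) (nat_lit 7))
    (@En.n l30200 (nat_lit 9766) (nat_lit 4) (nat_lit 4))
    (@En.n l2172 (nat_lit 8259) (nat_lit 10) (nat_lit 6))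
    (@En.i (nat_lit 9756) (nat_lit 1) (nat_lit 6))
    (@En.n l30201 (nat_lit 9336) (nat_lit 7) (nat_lit 7))
    (@En.n l3 (nat_lit 9968) (nat_lit 9) (nat_lit 12))
    (@En.n l3 (nat_lit 7370) (nat_lit 9) (nat_lit 7))
    (@En.n l742 (nat_lit 10288) (nat_lit 11) (nat_lit 9))
    (@En.n l30202 (nat_lit 9976) (nat_lit 6) (nat_lit 10))
    (@En.n l30203 (nat_lit 7959) (nat_lit 13) (nat_lit 10))
    (@En.n l30204 (nat_lit 8892) (nat_lit 14) (nat_lit 4))
    (@En.n l30205 (nat_lit 8820) (nat_lit 0) (nat_lit 9))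
    (@En.n l11 (nat_lit 9965) (nat_lit 15) (nat_lit 3))))
  (@Cl.mk (nat_lit 0x300090003000a000a00090008000c00070006000600040007000d0008000d) (nat_lit 0x602650500000666) (nat_lit 16) Lb.e (@T16.mk En
    (@En.n l23119 (nat_lit 7116) (nat_lit 0) (nat_lit 13))
    (@En.i (nat_lit 10005) (nat_lit 3) (nat_lit 8))
    (@En.n l180 (nat_lit 6811) (nat_lit 2) (nat_lit 13))
    (@En.n l20187 (nat_lit 5910) (nat_lit 11) (nat_lit 7))
    (@En.n l34855 (nat_lit 9765) (nat_lit 4) (nat_lit 4))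
    (@En.n l2172 (nat_lit 8261) (nat_lit 10) (nat_lit 6))
    (@En.i (nat_lit 9755) (nat_lit 1) (nat_lit 6))
    (@En.n l10118 (nat_lit 9337) (nat_lit 7) (nat_lit 7))
    (@En.n l3 (nat_lit 9967) (nat_lit 9) (nat_lit 12))
    (@En.n l3 (nat_lit 9970) (nat_lit 12) (nat_lit 8))
    (@En.n l742 (nat_lit 10289) (nat_lit 11) (nat_lit 9))
    (@En.n l396 (nat_lit 9973) (nat_lit 6) (nat_lit 10))
    (@En.n l7 (nat_lit 7957) (nat_lit 13) (nat_lit 10))
    (@En.i (nat_lit 9966) (nat_lit 15) (nat_lit 3))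
    (@En.i (nat_lit 11192) (nat_lit 0) (nat_lit 9))
    (@En.i (nat_lit 9964) (nat_lit 15) (nat_lit 3))))
  (@Cl.mk (nat_lit 0x3000a000a00090008000c00080006000600040007000c0008000d00080004) (nat_lit 0x867073000026710) (nat_lit 16) Lb.e (@T16.mk En
    (@En.n l38597 (nat_lit 8889) (nat_lit 0) (nat_lit 4))
    (@En.i (nat_lit 2597) (nat_lit 0) (nat_lit 8))
    (@En.n l23119 (nat_lit 7117) (nat_lit 1) (nat_lit 13))
    (@En.n l11424 (nat_lit 10790) (nat_lit 3) (nat_lit 8))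
    (@En.n l38598 (nat_lit 8419) (nat_lit 8) (nat_lit 12))
    (@En.n l20187 (nat_lit 5911) (nat_lit 11) (nat_lit 7))
    (@En.n l34855 (nat_lit 10201) (nat_lit 6) (nat_lit 4))
    (@En.n l2172 (nat_lit 8260) (nat_lit 10) (nat_lit 6))
    (@En.i (nat_lit 9759) (nat_lit 1) (nat_lit 6))
    (@En.n l35216 (nat_lit 8758) (nat_lit 10) (nat_lit 8))
    (@En.n l3 (nat_lit 9969) (nat_lit 11) (nat_lit 12))
    (@En.n l3 (nat_lit 9971) (nat_lit 12) (nat_lit 8))
    (@En.n l742 (nat_lit 10290) (nat_lit 13) (nat_lit 9))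
    (@En.n l396 (nat_lit 8911) (nat_lit 6) (nat_lit 10))
    (@En.n l34857 (nat_lit 10059) (nat_lit 14) (nat_lit 10))
    (@En.n l28 (nat_lit 9965) (nat_lit 13) (nat_lit 3))))
  (@Cl.mk (nat_lit 0x3000a0003000b000b0009000c0006000500050004000d0007000d0003000d) (nat_lit 0x702654000060107) (nat_lit 16) Lb.e (@T16.mk En
    (@En.i (nat_lit 7118) (nat_lit 0) (nat_lit 13))
    (@En.n l117 (nat_lit 9970) (nat_lit 3) (nat_lit 3))
    (@En.i (nat_lit 6158) (nat_lit 0) (nat_lit 13))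
    (@En.i (nat_lit 9965) (nat_lit 3) (nat_lit 7))
    (@En.n l6080 (nat_lit 8756) (nat_lit 2) (nat_lit 13))
    (@En.n l22965 (nat_lit 10197) (nat_lit 12) (nat_lit 4))
    (@En.n l2172 (nat_lit 8264) (nat_lit 11) (nat_lit 5))
    (@En.i (nat_lit 9403) (nat_lit 9) (nat_lit 5))
    (@En.n l10118 (nat_lit 9142) (nat_lit 8) (nat_lit 6))
    (@En.i (nat_lit 3817) (nat_lit 6) (nat_lit 12))
    (@En.n l742 (nat_lit 10287) (nat_lit 11) (nat_lit 9))
    (@En.n l396 (nat_lit 9972) (nat_lit 5) (nat_lit 11))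
    (@En.n l7 (nat_lit 7956) (nat_lit 11) (nat_lit 11))
    (@En.i (nat_lit 9969) (nat_lit 15) (nat_lit 3))
    (@En.i (nat_lit 11193) (nat_lit 0) (nat_lit 10))
    (@En.i (nat_lit 9968) (nat_lit 15) (nat_lit 3))))
noncomputable def a623 : T16 Cl := @T16.mk Cl
  (@Cl.mk (nat_lit 0x3000a0004000b000b0009000c0006000500050004000c0007000d000c0004) (nat_lit 0x202854000060130) (nat_lit 16) Lb.e (@T16.mk En
    (@En.i (nat_lit 8918) (nat_lit 0) (nat_lit 4))
    (@En.n l55 (nat_lit 9969) (nat_lit 4) (nat_lit 12))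
    (@En.n l8537 (nat_lit 6159) (nat_lit 1) (nat_lit 13))
    (@En.i (nat_lit 9964) (nat_lit 3) (nat_lit 7))
    (@En.n l6080 (nat_lit 8753) (nat_lit 3) (nat_lit 12))
    (@En.n l5729 (nat_lit 10200) (nat_lit 12) (nat_lit 4))
    (@En.n l2172 (nat_lit 8262) (nat_lit 11) (nat_lit 5))
    (@En.i (nat_lit 9754) (nat_lit 1) (nat_lit 5))
    (@En.n l10118 (nat_lit 9141) (nat_lit 8) (nat_lit 6))
    (@En.i (nat_lit 3816) (nat_lit 6) (nat_lit 12))
    (@En.n l742 (nat_lit 10286) (nat_lit 11) (nat_lit 9))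
    (@En.n l396 (nat_lit 9974) (nat_lit 5) (nat_lit 11))
    (@En.n l7 (nat_lit 7955) (nat_lit 13) (nat_lit 11))
    (@En.n l11 (nat_lit 8893) (nat_lit 14) (nat_lit 4))
    (@En.n l5663 (nat_lit 9348) (nat_lit 0) (nat_lit 10))
    (@En.n l11 (nat_lit 9967) (nat_lit 15) (nat_lit 3))))
  (@Cl.mk (nat_lit 0x3000b000b0009000c0007000500050004000d0007000c0003000d00090004) (nat_lit 0x366600006020810) (nat_lit 16) Lb.e (@T16.mk En
    (@En.n l12620 (nat_lit 8891) (nat_lit 0) (nat_lit 4))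
    (@En.i (nat_lit 2598) (nat_lit 14) (nat_lit 9))
    (@En.i (nat_lit 7119) (nat_lit 1) (nat_lit 13))
    (@En.n l117 (nat_lit 9971) (nat_lit 3) (nat_lit 3))
    (@En.n l14265 (nat_lit 8536) (nat_lit 0) (nat_lit 12))
    (@En.i (nat_lit 9966) (nat_lit 5) (nat_lit 7))
    (@En.n l6080 (nat_lit 8757) (nat_lit 2) (nat_lit 13))
    (@En.n l22965 (nat_lit 10199) (nat_lit 12) (nat_lit 4))
    (@En.n l2172 (nat_lit 8263) (nat_lit 11) (nat_lit 5))
    (@En.i (nat_lit 8745) (nat_lit 9) (nat_lit 5))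
    (@En.n l10118 (nat_lit 10177) (nat_lit 6) (nat_lit 7))
    (@En.i (nat_lit 3887) (nat_lit 6) (nat_lit 12))
    (@En.n l742 (nat_lit 8336) (nat_lit 13) (nat_lit 9))
    (@En.n l396 (nat_lit 8910) (nat_lit 5) (nat_lit 11))
    (@En.n l3540 (nat_lit 10062) (nat_lit 11) (nat_lit 11))
    (@En.n l28 (nat_lit 9967) (nat_lit 13) (nat_lit 3))))
  (@Cl.mk (nat_lit 0x3000b000b0008000c0006000500050004000d000c00080003000d0004000a) (nat_lit 0x276400005730707) (nat_lit 16) Lb.e (@T16.mk En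
    (@En.i (nat_lit 11194) (nat_lit 0) (nat_lit 10))
    (@En.i (nat_lit 7370) (nat_lit 14) (nat_lit 4))
    (@En.i (nat_lit 12131) (nat_lit 2) (nat_lit 13))
    (@En.n l152 (nat_lit 9967) (nat_lit 1) (nat_lit 3))
    (@En.i (nat_lit 5858) (nat_lit 0) (nat_lit 8))
    (@En.n l619 (nat_lit 9968) (nat_lit 4) (nat_lit 12))
    (@En.i (nat_lit 8759) (nat_lit 2) (nat_lit 13))
    (@En.n l2781 (nat_lit 10168) (nat_lit 12) (nat_lit 4))
    (@En.n l2172 (nat_lit 8266) (nat_lit 11) (nat_lit 5))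
    (@En.i (nat_lit 10161) (nat_lit 9) (nat_lit 5))
    (@En.n l2781 (nat_lit 9146) (nat_lit 6) (nat_lit 6))
    (@En.i (nat_lit 3761) (nat_lit 7) (nat_lit 12))
    (@En.n l742 (nat_lit 10176) (nat_lit 13) (nat_lit 8))
    (@En.n l396 (nat_lit 9975) (nat_lit 5) (nat_lit 11))
    (@En.n l7 (nat_lit 7958) (nat_lit 11) (nat_lit 11))
    (@En.i (nat_lit 9971) (nat_lit 15) (nat_lit 3))))
  (@Cl.mk (nat_lit 0x3000b000b0008000c0007000500050004000d000b00080003000d00090005) (nat_lit 0x976600005550820) (nat_lit 16) Lb.e (@T16.mk En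
    (@En.n l15967 (nat_lit 5885) (nat_lit 0) (nat_lit 5))
    (@En.i (nat_lit 5855) (nat_lit 14) (nat_lit 9))
    (@En.n l5801 (nat_lit 12155) (nat_lit 2) (nat_lit 13))
    (@En.n l152 (nat_lit 9969) (nat_lit 3) (nat_lit 3))
    (@En.n l14227 (nat_lit 5857) (nat_lit 0) (nat_lit 8))
    (@En.n l97 (nat_lit 8893) (nat_lit 5) (nat_lit 11))
    (@En.n l15535 (nat_lit 10072) (nat_lit 2) (nat_lit 13))
    (@En.n l15968 (nat_lit 10170) (nat_lit 12) (nat_lit 4))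
    (@En.n l2172 (nat_lit 8265) (nat_lit 11) (nat_lit 5))
    (@En.i (nat_lit 10160) (nat_lit 9) (nat_lit 5))
    (@En.n l8312 (nat_lit 10179) (nat_lit 6) (nat_lit 7))
    (@En.i (nat_lit 3758) (nat_lit 7) (nat_lit 12))
    (@En.n l742 (nat_lit 10178) (nat_lit 13) (nat_lit 8))
    (@En.n l396 (nat_lit 8912) (nat_lit 5) (nat_lit 11))
    (@En.i (nat_lit 10063) (nat_lit 11) (nat_lit 11))
    (@En.n l28 (nat_lit 9970) (nat_lit 15) (nat_lit 3))))
  (@Cl.mk (nat_lit 0x20005000d0008000d0003000d0003000b0003000b0008000b0005000e0005) (nat_lit 0x75108070553050) (nat_lit 16) Lb.e (@T16.mk En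
    (@En.n l50 (nat_lit 9967) (nat_lit 7) (nat_lit 5))
    (@En.i (nat_lit 8815) (nat_lit 1) (nat_lit 14))
    (@En.i (nat_lit 9147) (nat_lit 2) (nat_lit 5))
    (@En.i (nat_lit 3855) (nat_lit 3) (nat_lit 11))
    (@En.n l6081 (nat_lit 12699) (nat_lit 4) (nat_lit 8))
    (@En.n l3348 (nat_lit 9548) (nat_lit 6) (nat_lit 11))
    (@En.i (nat_lit 8910) (nat_lit 6) (nat_lit 3))
    (@En.i (nat_lit 11189) (nat_lit 8) (nat_lit 11))
    (@En.i (nat_lit 9974) (nat_lit 8) (nat_lit 3))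
    (@En.n l947 (nat_lit 7696) (nat_lit 10) (nat_lit 13))
    (@En.n l117 (nat_lit 9975) (nat_lit 10) (nat_lit 3))
    (@En.n l2922 (nat_lit 6199) (nat_lit 12) (nat_lit 13))
    (@En.i (nat_lit 9973) (nat_lit 13) (nat_lit 8))
    (@En.n l26601 (nat_lit 10258) (nat_lit 14) (nat_lit 13))
    (@En.n l6081 (nat_lit 10941) (nat_lit 13) (nat_lit 5))
    (@En.n l18 (nat_lit 9972) (nat_lit 15) (nat_lit 2))))
  (@Cl.mk (nat_lit 0x200050008000d0009000d0003000a0003000a00080007000b0006000e0006) (nat_lit 0x485706055040b0) (nat_lit 16) Lb.e (@T16.mk En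
    (@En.n l50 (nat_lit 9965) (nat_lit 6) (nat_lit 6))
    (@En.i (nat_lit 9977) (nat_lit 1) (nat_lit 14))
    (@En.i (nat_lit 9339) (nat_lit 2) (nat_lit 6))
    (@En.n l3 (nat_lit 9972) (nat_lit 3) (nat_lit 11))
    (@En.n l3 (nat_lit 9975) (nat_lit 4) (nat_lit 7))
    (@En.n l6081 (nat_lit 12696) (nat_lit 5) (nat_lit 8))
    (@En.n l3348 (nat_lit 9547) (nat_lit 7) (nat_lit 10))
    (@En.i (nat_lit 8911) (nat_lit 7) (nat_lit 3))
    (@En.n l24163 (nat_lit 11190) (nat_lit 9) (nat_lit 10))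
    (@En.n l28893 (nat_lit 9976) (nat_lit 9) (nat_lit 3))
    (@En.n l38985 (nat_lit 7697) (nat_lit 11) (nat_lit 13))
    (@En.i (nat_lit 10778) (nat_lit 12) (nat_lit 9))
    (@En.n l37015 (nat_lit 6207) (nat_lit 13) (nat_lit 13))
    (@En.n l38757 (nat_lit 5908) (nat_lit 10) (nat_lit 8))
    (@En.n l6081 (nat_lit 12063) (nat_lit 13) (nat_lit 5))
    (@En.n l18 (nat_lit 9973) (nat_lit 15) (nat_lit 2))))
  (@Cl.mk (nat_lit 0x20005000c0008000d000c00040003000b0004000b0008000b0005000e0005) (nat_lit 0x62180070743020) (nat_lit 16) Lb.e (@T16.mk En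
    (@En.n l50 (nat_lit 9968) (nat_lit 7) (nat_lit 5))
    (@En.i (nat_lit 8913) (nat_lit 1) (nat_lit 14))
    (@En.n l28892 (nat_lit 9148) (nat_lit 2) (nat_lit 5))
    (@En.i (nat_lit 3856) (nat_lit 3) (nat_lit 11))
    (@En.n l6081 (nat_lit 10536) (nat_lit 4) (nat_lit 8))
    (@En.n l2940 (nat_lit 9539) (nat_lit 6) (nat_lit 11))
    (@En.n l11 (nat_lit 8909) (nat_lit 6) (nat_lit 4))
    (@En.n l665 (nat_lit 9299) (nat_lit 8) (nat_lit 11))
    (@En.n l11 (nat_lit 9972) (nat_lit 8) (nat_lit 3))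
    (@En.n l2351 (nat_lit 8924) (nat_lit 9) (nat_lit 4))
    (@En.n l55 (nat_lit 8910) (nat_lit 11) (nat_lit 12))
    (@En.n l5949 (nat_lit 6200) (nat_lit 12) (nat_lit 13))
    (@En.n l28893 (nat_lit 9976) (nat_lit 13) (nat_lit 8))
    (@En.n l2940 (nat_lit 8755) (nat_lit 14) (nat_lit 12))
    (@En.n l6081 (nat_lit 11135) (nat_lit 13) (nat_lit 5))
    (@En.n l18 (nat_lit 9974) (nat_lit 15) (nat_lit 2))))
  (@Cl.mk (nat_lit 0x20005000d000c00090003000d0004000b0003000b0007000b0005000e0005) (nat_lit 0x67408070604090) (nat_lit 16) Lb.e (@T16.mk En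
    (@En.n l50 (nat_lit 9970) (nat_lit 9) (nat_lit 5))
    (@En.n l10571 (nat_lit 10751) (nat_lit 1) (nat_lit 14))
    (@En.i (nat_lit 9149) (nat_lit 2) (nat_lit 5))
    (@En.i (nat_lit 3851) (nat_lit 3) (nat_lit 11))
    (@En.i (nat_lit 12794) (nat_lit 4) (nat_lit 7))
    (@En.n l11361 (nat_lit 9551) (nat_lit 6) (nat_lit 11))
    (@En.i (nat_lit 8912) (nat_lit 6) (nat_lit 3))
    (@En.i (nat_lit 11191) (nat_lit 8) (nat_lit 11))
    (@En.i (nat_lit 7371) (nat_lit 8) (nat_lit 4))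
    (@En.n l10577 (nat_lit 12127) (nat_lit 10) (nat_lit 13))
    (@En.n l152 (nat_lit 9972) (nat_lit 10) (nat_lit 3))
    (@En.i (nat_lit 10800) (nat_lit 12) (nat_lit 9))
    (@En.n l619 (nat_lit 9974) (nat_lit 13) (nat_lit 12))
    (@En.i (nat_lit 10259) (nat_lit 14) (nat_lit 13))
    (@En.i (nat_lit 10943) (nat_lit 13) (nat_lit 5))
    (@En.n l18 (nat_lit 9975) (nat_lit 15) (nat_lit 2))))
  (@Cl.mk (nat_lit 0x200050008000d000c000a0003000a0004000a00080006000b0006000e0006) (nat_lit 0x197206074040b0) (nat_lit 16) Lb.e (@T16.mk En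
    (@En.n l20235 (nat_lit 9964) (nat_lit 6) (nat_lit 6))
    (@En.n l6742 (nat_lit 10776) (nat_lit 1) (nat_lit 14))
    (@En.n l14149 (nat_lit 9338) (nat_lit 2) (nat_lit 6))
    (@En.n l17541 (nat_lit 9974) (nat_lit 3) (nat_lit 11))
    (@En.n l17541 (nat_lit 7371) (nat_lit 4) (nat_lit 6))
    (@En.n l1253 (nat_lit 10534) (nat_lit 5) (nat_lit 8))
    (@En.n l16779 (nat_lit 9541) (nat_lit 7) (nat_lit 10))
    (@En.i (nat_lit 8899) (nat_lit 7) (nat_lit 4))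
    (@En.n l10479 (nat_lit 9362) (nat_lit 9) (nat_lit 10))
    (@En.n l10441 (nat_lit 9973) (nat_lit 9) (nat_lit 3))
    (@En.i (nat_lit 6948) (nat_lit 11) (nat_lit 10))
    (@En.n l38865 (nat_lit 8911) (nat_lit 12) (nat_lit 12))
    (@En.n l20177 (nat_lit 6208) (nat_lit 13) (nat_lit 13))
    (@En.n l1253 (nat_lit 5906) (nat_lit 10) (nat_lit 8))
    (@En.n l253 (nat_lit 11138) (nat_lit 13) (nat_lit 5))
    (@En.n l3 (nat_lit 9976) (nat_lit 15) (nat_lit 2))))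
  (@Cl.mk (nat_lit 0x2000900050008000d0009000d000300070003000b00080007000b000e0005) (nat_lit 0x6029320005604a0) (nat_lit 16) Lb.e (@T16.mk En
    (@En.n l50 (nat_lit 8807) (nat_lit 7) (nat_lit 5))
    (@En.n l23446 (nat_lit 12502) (nat_lit 4) (nat_lit 14))
    (@En.n l3 (nat_lit 8815) (nat_lit 2) (nat_lit 11))
    (@En.n l23446 (nat_lit 10751) (nat_lit 3) (nat_lit 7))
    (@En.n l23447 (nat_lit 12701) (nat_lit 4) (nat_lit 8))
    (@En.n l7667 (nat_lit 9545) (nat_lit 13) (nat_lit 11))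
    (@En.n l23448 (nat_lit 8906) (nat_lit 6) (nat_lit 3))
    (@En.n l23446 (nat_lit 3404) (nat_lit 7) (nat_lit 7))
    (@En.n l19616 (nat_lit 10776) (nat_lit 8) (nat_lit 3))
    (@En.n l23449 (nat_lit 3534) (nat_lit 0) (nat_lit 13))
    (@En.n l23238 (nat_lit 10777) (nat_lit 11) (nat_lit 9))
    (@En.n l23450 (nat_lit 6205) (nat_lit 12) (nat_lit 13))
    (@En.n l23451 (nat_lit 11538) (nat_lit 13) (nat_lit 8))
    (@En.n l403 (nat_lit 9973) (nat_lit 14) (nat_lit 5))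
    (@En.n l1353 (nat_lit 10832) (nat_lit 5) (nat_lit 9))
    (@En.n l18 (nat_lit 9977) (nat_lit 15) (nat_lit 2))))
  (@Cl.mk (nat_lit 0x300080006000b0005000b0008000c0005000800050004000a000d0008000b) (nat_lit 0x404062905007825) (nat_lit 16) Lb.e (@T16.mk En
    (@En.i (nat_lit 7479) (nat_lit 0) (nat_lit 11))
    (@En.n l5646 (nat_lit 9727) (nat_lit 13) (nat_lit 8))
    (@En.n l36202 (nat_lit 5097) (nat_lit 5) (nat_lit 13))
    (@En.i (nat_lit 10012) (nat_lit 3) (nat_lit 10))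
    (@En.i (nat_lit 9664) (nat_lit 12) (nat_lit 4))
    (@En.n l27865 (nat_lit 10665) (nat_lit 0) (nat_lit 5))
    (@En.n l36203 (nat_lit 11237) (nat_lit 10) (nat_lit 8))
    (@En.n l5928 (nat_lit 9651) (nat_lit 7) (nat_lit 5))
    (@En.n l7677 (nat_lit 12678) (nat_lit 9) (nat_lit 12))
    (@En.n l36204 (nat_lit 9786) (nat_lit 1) (nat_lit 8))
    (@En.n l36202 (nat_lit 9979) (nat_lit 11) (nat_lit 11))
    (@En.n l117 (nat_lit 9949) (nat_lit 12) (nat_lit 5))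
    (@En.n l36205 (nat_lit 8884) (nat_lit 13) (nat_lit 11))
    (@En.n l17 (nat_lit 9795) (nat_lit 14) (nat_lit 6))
    (@En.i (nat_lit 11094) (nat_lit 12) (nat_lit 8))
    (@En.n l36206 (nat_lit 8881) (nat_lit 15) (nat_lit 3))))
  (@Cl.mk (nat_lit 0x300090006000c000b0007000b000400070005000b0005000a000d00090005) (nat_lit 0x504507000503230) (nat_lit 16) Lb.e (@T16.mk En
    (@En.n l31848 (nat_lit 10753) (nat_lit 0) (nat_lit 5))
    (@En.i (nat_lit 9938) (nat_lit 0) (nat_lit 9))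
    (@En.i (nat_lit 5095) (nat_lit 5) (nat_lit 13))
    (@En.n l31849 (nat_lit 8855) (nat_lit 3) (nat_lit 10))
    (@En.n l4708 (nat_lit 11115) (nat_lit 4) (nat_lit 5))
    (@En.n l16798 (nat_lit 9786) (nat_lit 13) (nat_lit 11))
    (@En.i (nat_lit 10677) (nat_lit 6) (nat_lit 5))
    (@En.n l152 (nat_lit 11435) (nat_lit 11) (nat_lit 7))
    (@En.n l1455 (nat_lit 9653) (nat_lit 8) (nat_lit 4))
    (@En.n l16798 (nat_lit 10768) (nat_lit 8) (nat_lit 11))
    (@En.n l3955 (nat_lit 8632) (nat_lit 1) (nat_lit 7))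
    (@En.n l3536 (nat_lit 10687) (nat_lit 12) (nat_lit 11))
    (@En.n l31850 (nat_lit 9980) (nat_lit 13) (nat_lit 12))
    (@En.n l31851 (nat_lit 9981) (nat_lit 14) (nat_lit 6))
    (@En.n l23473 (nat_lit 11086) (nat_lit 5) (nat_lit 9))
    (@En.n l7 (nat_lit 9982) (nat_lit 15) (nat_lit 3))))
  (@Cl.mk (nat_lit 0x30009000c000a0006000a0004000b00070006000b00060005000d000a0005) (nat_lit 0x434060100600230) (nat_lit 16) Lb.e (@T16.mk En
    (@En.n l6900 (nat_lit 10882) (nat_lit 0) (nat_lit 5))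
    (@En.n l20533 (nat_lit 9739) (nat_lit 0) (nat_lit 10))
    (@En.n l7507 (nat_lit 5090) (nat_lit 2) (nat_lit 13))
    (@En.n l22762 (nat_lit 10811) (nat_lit 11) (nat_lit 5))
    (@En.n l42433 (nat_lit 11117) (nat_lit 4) (nat_lit 6))
    (@En.n l511 (nat_lit 9788) (nat_lit 9) (nat_lit 11))
    (@En.n l644 (nat_lit 11102) (nat_lit 10) (nat_lit 6))
    (@En.n l42434 (nat_lit 9979) (nat_lit 7) (nat_lit 7))
    (@En.n l41473 (nat_lit 8000) (nat_lit 9) (nat_lit 11))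
    (@En.i (nat_lit 9871) (nat_lit 9) (nat_lit 4))
    (@En.i (nat_lit 10766) (nat_lit 9) (nat_lit 10))
    (@En.n l22762 (nat_lit 8628) (nat_lit 1) (nat_lit 6))
    (@En.n l42435 (nat_lit 12345) (nat_lit 13) (nat_lit 10))
    (@En.n l396 (nat_lit 9989) (nat_lit 6) (nat_lit 12))
    (@En.n l42436 (nat_lit 11090) (nat_lit 4) (nat_lit 9))
    (@En.n l6622 (nat_lit 9983) (nat_lit 15) (nat_lit 3))))
  (@Cl.mk (nat_lit 0x30006000c000b0006000b0004000b0005000a0005000a0005000d000a0006) (nat_lit 0x34090803040340) (nat_lit 16) Lb.e (@T16.mk En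
    (@En.i (nat_lit 7663) (nat_lit 0) (nat_lit 6))
    (@En.n l33260 (nat_lit 9937) (nat_lit 14) (nat_lit 10))
    (@En.n l36202 (nat_lit 9979) (nat_lit 2) (nat_lit 13))
    (@En.n l40760 (nat_lit 9980) (nat_lit 3) (nat_lit 5))
    (@En.n l19900 (nat_lit 9167) (nat_lit 4) (nat_lit 10))
    (@En.n l19999 (nat_lit 11116) (nat_lit 5) (nat_lit 5))
    (@En.n l55 (nat_lit 9787) (nat_lit 7) (nat_lit 10))
    (@En.n l40761 (nat_lit 10674) (nat_lit 7) (nat_lit 5))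
    (@En.n l12890 (nat_lit 10695) (nat_lit 9) (nat_lit 11))
    (@En.n l40762 (nat_lit 9066) (nat_lit 9) (nat_lit 4))
    (@En.n l1415 (nat_lit 10770) (nat_lit 11) (nat_lit 11))
    (@En.n l40763 (nat_lit 9127) (nat_lit 1) (nat_lit 6))
    (@En.n l40764 (nat_lit 10688) (nat_lit 13) (nat_lit 11))
    (@En.n l617 (nat_lit 9985) (nat_lit 14) (nat_lit 12))
    (@En.i (nat_lit 11170) (nat_lit 12) (nat_lit 6))
    (@En.n l40765 (nat_lit 9984) (nat_lit 15) (nat_lit 3))))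
  (@Cl.mk (nat_lit 0x300090006000c000b0006000b000400070005000c0005000a000d0004000a) (nat_lit 0x405608000303301) (nat_lit 16) Lb.e (@T16.mk En
    (@En.n l766 (nat_lit 7650) (nat_lit 0) (nat_lit 10))
    (@En.n l31553 (nat_lit 10814) (nat_lit 8) (nat_lit 4))
    (@En.i (nat_lit 5094) (nat_lit 5) (nat_lit 13))
    (@En.n l19951 (nat_lit 8854) (nat_lit 3) (nat_lit 10))
    (@En.i (nat_lit 11113) (nat_lit 4) (nat_lit 5))
    (@En.i (nat_lit 8415) (nat_lit 13) (nat_lit 12))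
    (@En.i (nat_lit 11976) (nat_lit 6) (nat_lit 5))
    (@En.n l152 (nat_lit 11434) (nat_lit 11) (nat_lit 7))
    (@En.n l3851 (nat_lit 9652) (nat_lit 8) (nat_lit 4))
    (@En.n l97 (nat_lit 10774) (nat_lit 0) (nat_lit 11))
    (@En.n l253 (nat_lit 8776) (nat_lit 1) (nat_lit 6))
    (@En.n l3536 (nat_lit 10682) (nat_lit 12) (nat_lit 11))
    (@En.n l17017 (nat_lit 9983) (nat_lit 13) (nat_lit 12))
    (@En.n l15562 (nat_lit 9984) (nat_lit 14) (nat_lit 6))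
    (@En.n l36881 (nat_lit 9471) (nat_lit 5) (nat_lit 9))
    (@En.i (nat_lit 9979) (nat_lit 15) (nat_lit 3))))
  (@Cl.mk (nat_lit 0x30009000c000a0005000a0004000b00070006000c00060005000d0004000b) (nat_lit 0x445070100400201) (nat_lit 16) Lb.e (@T16.mk En
    (@En.n l8012 (nat_lit 7651) (nat_lit 0) (nat_lit 11))
    (@En.i (nat_lit 10813) (nat_lit 7) (nat_lit 4))
    (@En.n l11008 (nat_lit 5047) (nat_lit 2) (nat_lit 13))
    (@En.i (nat_lit 10810) (nat_lit 11) (nat_lit 5))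
    (@En.i (nat_lit 11114) (nat_lit 4) (nat_lit 6))
    (@En.n l31550 (nat_lit 8416) (nat_lit 6) (nat_lit 12))
    (@En.n l22196 (nat_lit 11101) (nat_lit 10) (nat_lit 6))
    (@En.n l11010 (nat_lit 9982) (nat_lit 7) (nat_lit 7))
    (@En.n l18989 (nat_lit 8002) (nat_lit 9) (nat_lit 11))
    (@En.n l22603 (nat_lit 9671) (nat_lit 9) (nat_lit 4))
    (@En.n l14883 (nat_lit 10773) (nat_lit 0) (nat_lit 10))
    (@En.i (nat_lit 8775) (nat_lit 1) (nat_lit 5))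
    (@En.n l3866 (nat_lit 11123) (nat_lit 13) (nat_lit 10))
    (@En.n l22603 (nat_lit 9990) (nat_lit 6) (nat_lit 12))
    (@En.n l37819 (nat_lit 9472) (nat_lit 2) (nat_lit 9))
    (@En.n l21974 (nat_lit 9980) (nat_lit 15) (nat_lit 3))))
noncomputable def a624 : T16 Cl := @T16.mk Cl
  (@Cl.mk (nat_lit 0x30006000c000b0005000b0004000b0005000b0005000a0005000d0005000b) (nat_lit 0x35090904040401) (nat_lit 16) Lb.e (@T16.mk En
    (@En.n l29754 (nat_lit 7649) (nat_lit 0) (nat_lit 11))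
    (@En.n l9309 (nat_lit 10274) (nat_lit 7) (nat_lit 5))
    (@En.n l30210 (nat_lit 9982) (nat_lit 2) (nat_lit 13))
    (@En.n l30211 (nat_lit 9983) (nat_lit 3) (nat_lit 5))
    (@En.n l30212 (nat_lit 9166) (nat_lit 4) (nat_lit 10))
    (@En.n l25580 (nat_lit 11112) (nat_lit 5) (nat_lit 5))
    (@En.n l30213 (nat_lit 8417) (nat_lit 7) (nat_lit 11))
    (@En.n l30209 (nat_lit 11978) (nat_lit 7) (nat_lit 5))
    (@En.n l30214 (nat_lit 10694) (nat_lit 9) (nat_lit 11))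
    (@En.n l1337 (nat_lit 9067) (nat_lit 9) (nat_lit 4))
    (@En.n l7 (nat_lit 12436) (nat_lit 11) (nat_lit 11))
    (@En.n l30215 (nat_lit 8779) (nat_lit 1) (nat_lit 5))
    (@En.n l3480 (nat_lit 10684) (nat_lit 13) (nat_lit 11))
    (@En.n l30213 (nat_lit 9986) (nat_lit 14) (nat_lit 12))
    (@En.n l30216 (nat_lit 9470) (nat_lit 12) (nat_lit 6))
    (@En.n l30217 (nat_lit 9981) (nat_lit 15) (nat_lit 3))))
  (@Cl.mk (nat_lit 0x3000c000a0005000a0004000b000b0006000a000600050005000d000b0006) (nat_lit 0x270706804000340) (nat_lit 16) Lb.e (@T16.mk En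
    (@En.n l8116 (nat_lit 11364) (nat_lit 0) (nat_lit 6))
    (@En.n l24725 (nat_lit 9735) (nat_lit 5) (nat_lit 11))
    (@En.n l40760 (nat_lit 9980) (nat_lit 2) (nat_lit 13))
    (@En.n l13044 (nat_lit 9989) (nat_lit 11) (nat_lit 5))
    (@En.n l24725 (nat_lit 10294) (nat_lit 11) (nat_lit 5))
    (@En.n l19999 (nat_lit 10533) (nat_lit 5) (nat_lit 6))
    (@En.n l24725 (nat_lit 6406) (nat_lit 9) (nat_lit 10))
    (@En.n l5912 (nat_lit 11987) (nat_lit 7) (nat_lit 6))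
    (@En.n l61 (nat_lit 9987) (nat_lit 5) (nat_lit 11))
    (@En.n l5891 (nat_lit 11154) (nat_lit 10) (nat_lit 11))
    (@En.n l5928 (nat_lit 9056) (nat_lit 10) (nat_lit 4))
    (@En.n l14765 (nat_lit 12445) (nat_lit 0) (nat_lit 10))
    (@En.n l40965 (nat_lit 9108) (nat_lit 1) (nat_lit 5))
    (@En.n l40966 (nat_lit 12689) (nat_lit 14) (nat_lit 10))
    (@En.n l14767 (nat_lit 1311) (nat_lit 3) (nat_lit 12))
    (@En.n l16947 (nat_lit 9986) (nat_lit 15) (nat_lit 3))))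
  (@Cl.mk (nat_lit 0x3000c000a0004000a0004000b000b0006000b000600050005000d0005000c) (nat_lit 0x270707909000301) (nat_lit 16) Lb.e (@T16.mk En
    (@En.n l35299 (nat_lit 7653) (nat_lit 0) (nat_lit 12))
    (@En.n l35300 (nat_lit 9991) (nat_lit 4) (nat_lit 5))
    (@En.n l35301 (nat_lit 9983) (nat_lit 2) (nat_lit 13))
    (@En.n l35302 (nat_lit 9990) (nat_lit 11) (nat_lit 5))
    (@En.n l35303 (nat_lit 9205) (nat_lit 11) (nat_lit 5))
    (@En.n l35304 (nat_lit 9290) (nat_lit 5) (nat_lit 6))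
    (@En.i (nat_lit 8533) (nat_lit 9) (nat_lit 11))
    (@En.n l29256 (nat_lit 11986) (nat_lit 7) (nat_lit 6))
    (@En.n l17023 (nat_lit 9988) (nat_lit 5) (nat_lit 11))
    (@En.n l19709 (nat_lit 10967) (nat_lit 10) (nat_lit 11))
    (@En.n l35305 (nat_lit 9055) (nat_lit 10) (nat_lit 4))
    (@En.n l23186 (nat_lit 12452) (nat_lit 0) (nat_lit 10))
    (@En.n l27693 (nat_lit 9054) (nat_lit 1) (nat_lit 4))
    (@En.n l35306 (nat_lit 12690) (nat_lit 0) (nat_lit 10))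
    (@En.n l35307 (nat_lit 7809) (nat_lit 1) (nat_lit 12))
    (@En.n l16721 (nat_lit 9985) (nat_lit 15) (nat_lit 3))))
  (@Cl.mk (nat_lit 0x2000d000b00070003000c000b0005000b0004000b000500090005000e0005) (nat_lit 0x470036070705050) (nat_lit 16) Lb.e (@T16.mk En
    (@En.i (nat_lit 9985) (nat_lit 4) (nat_lit 5))
    (@En.n l19892 (nat_lit 8096) (nat_lit 1) (nat_lit 14))
    (@En.n l19999 (nat_lit 9291) (nat_lit 2) (nat_lit 5))
    (@En.n l8628 (nat_lit 6402) (nat_lit 3) (nat_lit 9))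
    (@En.n l16914 (nat_lit 10798) (nat_lit 4) (nat_lit 5))
    (@En.n l12890 (nat_lit 10697) (nat_lit 10) (nat_lit 11))
    (@En.n l5928 (nat_lit 9061) (nat_lit 6) (nat_lit 4))
    (@En.n l1415 (nat_lit 12326) (nat_lit 8) (nat_lit 11))
    (@En.n l16950 (nat_lit 9117) (nat_lit 8) (nat_lit 5))
    (@En.n l20384 (nat_lit 12693) (nat_lit 10) (nat_lit 11))
    (@En.i (nat_lit 5471) (nat_lit 11) (nat_lit 12))
    (@En.n l16948 (nat_lit 9988) (nat_lit 11) (nat_lit 3))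
    (@En.i (nat_lit 9932) (nat_lit 0) (nat_lit 7))
    (@En.n l8628 (nat_lit 8589) (nat_lit 14) (nat_lit 11))
    (@En.i (nat_lit 9981) (nat_lit 2) (nat_lit 13))
    (@En.n l17 (nat_lit 9987) (nat_lit 15) (nat_lit 2))))
  (@Cl.mk (nat_lit 0x2000d0006000c0003000c000b0004000b0004000b0005000a0005000e0005) (nat_lit 0x508026070804050) (nat_lit 16) Lb.e (@T16.mk En
    (@En.n l10536 (nat_lit 9986) (nat_lit 4) (nat_lit 5))
    (@En.n l8145 (nat_lit 8095) (nat_lit 1) (nat_lit 14))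
    (@En.n l476 (nat_lit 9287) (nat_lit 2) (nat_lit 5))
    (@En.n l10536 (nat_lit 8578) (nat_lit 3) (nat_lit 10))
    (@En.n l5408 (nat_lit 10794) (nat_lit 4) (nat_lit 5))
    (@En.i (nat_lit 10696) (nat_lit 10) (nat_lit 11))
    (@En.n l9657 (nat_lit 9062) (nat_lit 6) (nat_lit 4))
    (@En.n l8145 (nat_lit 12328) (nat_lit 8) (nat_lit 11))
    (@En.n l2385 (nat_lit 8588) (nat_lit 8) (nat_lit 4))
    (@En.n l8147 (nat_lit 12669) (nat_lit 10) (nat_lit 11))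
    (@En.i (nat_lit 7810) (nat_lit 11) (nat_lit 12))
    (@En.n l12094 (nat_lit 9987) (nat_lit 11) (nat_lit 3))
    (@En.n l619 (nat_lit 8984) (nat_lit 0) (nat_lit 12))
    (@En.n l19515 (nat_lit 11303) (nat_lit 14) (nat_lit 6))
    (@En.n l19516 (nat_lit 9984) (nat_lit 2) (nat_lit 13))
    (@En.n l18 (nat_lit 9988) (nat_lit 15) (nat_lit 2))))
  (@Cl.mk (nat_lit 0x20007000b00070005000d000b00050003000c0009000500090004000e000b) (nat_lit 0x50023002603067) (nat_lit 16) Lb.e (@T16.mk En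
    (@En.n l16049 (nat_lit 9985) (nat_lit 9) (nat_lit 11))
    (@En.n l6042 (nat_lit 5299) (nat_lit 1) (nat_lit 14))
    (@En.n l28147 (nat_lit 9183) (nat_lit 2) (nat_lit 4))
    (@En.i (nat_lit 12351) (nat_lit 3) (nat_lit 9))
    (@En.n l28148 (nat_lit 9181) (nat_lit 4) (nat_lit 5))
    (@En.n l28149 (nat_lit 12691) (nat_lit 5) (nat_lit 9))
    (@En.n l28150 (nat_lit 5470) (nat_lit 7) (nat_lit 12))
    (@En.n l28151 (nat_lit 9990) (nat_lit 7) (nat_lit 3))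
    (@En.n l28152 (nat_lit 11365) (nat_lit 8) (nat_lit 5))
    (@En.n l7246 (nat_lit 9736) (nat_lit 10) (nat_lit 11))
    (@En.n l28153 (nat_lit 5091) (nat_lit 11) (nat_lit 13))
    (@En.n l7246 (nat_lit 9139) (nat_lit 12) (nat_lit 5))
    (@En.n l403 (nat_lit 10529) (nat_lit 13) (nat_lit 7))
    (@En.n l7246 (nat_lit 10526) (nat_lit 14) (nat_lit 11))
    (@En.n l6081 (nat_lit 10475) (nat_lit 6) (nat_lit 7))
    (@En.n l3 (nat_lit 9989) (nat_lit 15) (nat_lit 2))))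
  (@Cl.mk (nat_lit 0x20007000c00070005000d0004000c0003000c0009000400090004000e000b) (nat_lit 0x60030503603028) (nat_lit 16) Lb.e (@T16.mk En
    (@En.n l22489 (nat_lit 9986) (nat_lit 9) (nat_lit 11))
    (@En.n l3532 (nat_lit 5297) (nat_lit 1) (nat_lit 14))
    (@En.i (nat_lit 9185) (nat_lit 2) (nat_lit 4))
    (@En.n l22490 (nat_lit 12354) (nat_lit 3) (nat_lit 9))
    (@En.n l22467 (nat_lit 7819) (nat_lit 4) (nat_lit 4))
    (@En.n l61 (nat_lit 12706) (nat_lit 5) (nat_lit 9))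
    (@En.n l1075 (nat_lit 7811) (nat_lit 7) (nat_lit 12))
    (@En.n l22491 (nat_lit 9989) (nat_lit 7) (nat_lit 3))
    (@En.n l1070 (nat_lit 8934) (nat_lit 9) (nat_lit 12))
    (@En.n l1236 (nat_lit 11291) (nat_lit 9) (nat_lit 4))
    (@En.n l645 (nat_lit 5046) (nat_lit 11) (nat_lit 13))
    (@En.i (nat_lit 9140) (nat_lit 12) (nat_lit 5))
    (@En.n l21453 (nat_lit 12736) (nat_lit 13) (nat_lit 7))
    (@En.n l15535 (nat_lit 8532) (nat_lit 14) (nat_lit 12))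
    (@En.n l22492 (nat_lit 10474) (nat_lit 6) (nat_lit 7))
    (@En.n l67 (nat_lit 9990) (nat_lit 15) (nat_lit 2))))
  (@Cl.mk (nat_lit 0x400090004000a000a0006000b000a0007000600060005000c0006000c000a) (nat_lit 0x204401500007066) (nat_lit 16) Lb.e (@T16.mk En
    (@En.i (nat_lit 11302) (nat_lit 0) (nat_lit 10))
    (@En.n l28047 (nat_lit 11202) (nat_lit 1) (nat_lit 12))
    (@En.n l28048 (nat_lit 11350) (nat_lit 4) (nat_lit 6))
    (@En.n l28049 (nat_lit 10277) (nat_lit 3) (nat_lit 12))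
    (@En.n l28050 (nat_lit 10703) (nat_lit 11) (nat_lit 5))
    (@En.n l72 (nat_lit 11291) (nat_lit 10) (nat_lit 6))
    (@En.n l28048 (nat_lit 11840) (nat_lit 10) (nat_lit 6))
    (@En.n l28051 (nat_lit 9242) (nat_lit 7) (nat_lit 7))
    (@En.n l28052 (nat_lit 9985) (nat_lit 6) (nat_lit 10))
    (@En.n l28053 (nat_lit 2316) (nat_lit 9) (nat_lit 11))
    (@En.n l28054 (nat_lit 67) (nat_lit 3) (nat_lit 6))
    (@En.n l28055 (nat_lit 11303) (nat_lit 6) (nat_lit 10))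
    (@En.n l28056 (nat_lit 10276) (nat_lit 13) (nat_lit 10))
    (@En.i (nat_lit 10284) (nat_lit 15) (nat_lit 4))
    (@En.n l28057 (nat_lit 12061) (nat_lit 0) (nat_lit 9))
    (@En.n l28048 (nat_lit 11289) (nat_lit 1) (nat_lit 4))))
  (@Cl.mk (nat_lit 0x2000d000c000a0003000a0004000b00090006000d000600050003000e0007) (nat_lit 0xb55070810700040) (nat_lit 16) Lb.e (@T16.mk En
    (@En.n l23976 (nat_lit 9039) (nat_lit 14) (nat_lit 7))
    (@En.n l23977 (nat_lit 7245) (nat_lit 1) (nat_lit 14))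
    (@En.n l23978 (nat_lit 7989) (nat_lit 2) (nat_lit 3))
    (@En.n l18 (nat_lit 8982) (nat_lit 3) (nat_lit 5))
    (@En.i (nat_lit 9053) (nat_lit 4) (nat_lit 6))
    (@En.n l117 (nat_lit 11027) (nat_lit 6) (nat_lit 13))
    (@En.i (nat_lit 6362) (nat_lit 6) (nat_lit 6))
    (@En.n l23976 (nat_lit 8874) (nat_lit 12) (nat_lit 9))
    (@En.n l9884 (nat_lit 10794) (nat_lit 9) (nat_lit 11))
    (@En.n l23979 (nat_lit 7983) (nat_lit 9) (nat_lit 4))
    (@En.n l14227 (nat_lit 9613) (nat_lit 11) (nat_lit 10))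
    (@En.n l28 (nat_lit 9993) (nat_lit 11) (nat_lit 3))
    (@En.n l23980 (nat_lit 3950) (nat_lit 0) (nat_lit 10))
    (@En.n l77 (nat_lit 9994) (nat_lit 14) (nat_lit 12))
    (@En.i (nat_lit 10664) (nat_lit 2) (nat_lit 13))
    (@En.n l67 (nat_lit 9992) (nat_lit 15) (nat_lit 2))))
  (@Cl.mk (nat_lit 0x2000d0009000d0003000a0003000b00090007000d000600050003000e0007) (nat_lit 0xb41030810500040) (nat_lit 16) Lb.e (@T16.mk En
    (@En.n l97 (nat_lit 9037) (nat_lit 14) (nat_lit 7))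
    (@En.n l23990 (nat_lit 7244) (nat_lit 1) (nat_lit 14))
    (@En.n l9970 (nat_lit 9995) (nat_lit 2) (nat_lit 3))
    (@En.n l18 (nat_lit 8983) (nat_lit 3) (nat_lit 5))
    (@En.i (nat_lit 11585) (nat_lit 4) (nat_lit 6))
    (@En.n l117 (nat_lit 11026) (nat_lit 6) (nat_lit 13))
    (@En.i (nat_lit 10233) (nat_lit 6) (nat_lit 7))
    (@En.n l61 (nat_lit 4334) (nat_lit 14) (nat_lit 9))
    (@En.i (nat_lit 10798) (nat_lit 9) (nat_lit 11))
    (@En.i (nat_lit 9994) (nat_lit 9) (nat_lit 3))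
    (@En.i (nat_lit 9838) (nat_lit 11) (nat_lit 10))
    (@En.i (nat_lit 9992) (nat_lit 11) (nat_lit 3))
    (@En.n l9970 (nat_lit 5333) (nat_lit 0) (nat_lit 13))
    (@En.i (nat_lit 7149) (nat_lit 14) (nat_lit 9))
    (@En.i (nat_lit 10666) (nat_lit 2) (nat_lit 13))
    (@En.n l67 (nat_lit 9993) (nat_lit 15) (nat_lit 2))))
  (@Cl.mk (nat_lit 0x2000c0009000d000900040003000b00090007000d000700050003000e0007) (nat_lit 0x431100700200020) (nat_lit 16) Lb.e (@T16.mk En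
    (@En.n l97 (nat_lit 9997) (nat_lit 14) (nat_lit 7))
    (@En.n l23990 (nat_lit 7242) (nat_lit 1) (nat_lit 14))
    (@En.n l27810 (nat_lit 9996) (nat_lit 2) (nat_lit 3))
    (@En.n l18 (nat_lit 8978) (nat_lit 3) (nat_lit 5))
    (@En.i (nat_lit 11050) (nat_lit 4) (nat_lit 7))
    (@En.n l117 (nat_lit 12072) (nat_lit 6) (nat_lit 13))
    (@En.i (nat_lit 10232) (nat_lit 6) (nat_lit 7))
    (@En.n l35182 (nat_lit 10148) (nat_lit 14) (nat_lit 9))
    (@En.n l28237 (nat_lit 11602) (nat_lit 9) (nat_lit 11))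
    (@En.n l7 (nat_lit 9993) (nat_lit 9) (nat_lit 3))
    (@En.n l39029 (nat_lit 12797) (nat_lit 0) (nat_lit 4))
    (@En.i (nat_lit 5858) (nat_lit 12) (nat_lit 9))
    (@En.n l27810 (nat_lit 5334) (nat_lit 13) (nat_lit 13))
    (@En.n l25298 (nat_lit 6533) (nat_lit 14) (nat_lit 9))
    (@En.i (nat_lit 10086) (nat_lit 12) (nat_lit 12))
    (@En.n l67 (nat_lit 9994) (nat_lit 15) (nat_lit 2))))
  (@Cl.mk (nat_lit 0x2000d0009000d000300090003000c00090007000d000400070003000e0007) (nat_lit 0x842010a00500040) (nat_lit 16) Lb.e (@T16.mk En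
    (@En.n l7708 (nat_lit 9999) (nat_lit 14) (nat_lit 7))
    (@En.n l998 (nat_lit 11271) (nat_lit 1) (nat_lit 14))
    (@En.n l34419 (nat_lit 9993) (nat_lit 2) (nat_lit 3))
    (@En.i (nat_lit 5950) (nat_lit 11) (nat_lit 7))
    (@En.n l4263 (nat_lit 6391) (nat_lit 4) (nat_lit 4))
    (@En.n l7677 (nat_lit 11919) (nat_lit 6) (nat_lit 13))
    (@En.n l790 (nat_lit 10235) (nat_lit 6) (nat_lit 7))
    (@En.i (nat_lit 10146) (nat_lit 14) (nat_lit 9))
    (@En.n l16810 (nat_lit 10002) (nat_lit 9) (nat_lit 12))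
    (@En.n l117 (nat_lit 9996) (nat_lit 9) (nat_lit 3))
    (@En.n l4361 (nat_lit 6931) (nat_lit 11) (nat_lit 9))
    (@En.n l3596 (nat_lit 7989) (nat_lit 11) (nat_lit 3))
    (@En.i (nat_lit 5862) (nat_lit 0) (nat_lit 13))
    (@En.n l790 (nat_lit 7726) (nat_lit 14) (nat_lit 9))
    (@En.n l4361 (nat_lit 10667) (nat_lit 2) (nat_lit 13))
    (@En.n l17 (nat_lit 9995) (nat_lit 15) (nat_lit 2))))
  (@Cl.mk (nat_lit 0x2000c0009000d000800040003000c00090007000d000400080003000e0007) (nat_lit 0x541300a00705070) (nat_lit 16) Lb.e (@T16.mk En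
    (@En.n l19028 (nat_lit 9998) (nat_lit 14) (nat_lit 7))
    (@En.n l5 (nat_lit 11269) (nat_lit 1) (nat_lit 14))
    (@En.n l33862 (nat_lit 9994) (nat_lit 2) (nat_lit 3))
    (@En.i (nat_lit 11542) (nat_lit 3) (nat_lit 8))
    (@En.n l14325 (nat_lit 6393) (nat_lit 4) (nat_lit 4))
    (@En.n l2827 (nat_lit 11923) (nat_lit 6) (nat_lit 13))
    (@En.n l34199 (nat_lit 10234) (nat_lit 6) (nat_lit 7))
    (@En.i (nat_lit 10147) (nat_lit 14) (nat_lit 9))
    (@En.n l16198 (nat_lit 8045) (nat_lit 9) (nat_lit 12))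
    (@En.n l152 (nat_lit 9995) (nat_lit 9) (nat_lit 3))
    (@En.n l1865 (nat_lit 12796) (nat_lit 10) (nat_lit 4))
    (@En.n l24966 (nat_lit 10002) (nat_lit 12) (nat_lit 8))
    (@En.i (nat_lit 4516) (nat_lit 13) (nat_lit 13))
    (@En.n l34199 (nat_lit 7725) (nat_lit 14) (nat_lit 9))
    (@En.n l27225 (nat_lit 10087) (nat_lit 12) (nat_lit 12))
    (@En.n l17 (nat_lit 9996) (nat_lit 15) (nat_lit 2))))
  (@Cl.mk (nat_lit 0x300070007000c0008000d000800040003000a000900090008000d00080006) (nat_lit 0x5315006715760) (nat_lit 16) Lb.e (@T16.mk En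
    (@En.n l18 (nat_lit 8980) (nat_lit 0) (nat_lit 6))
    (@En.n l6081 (nat_lit 10417) (nat_lit 10) (nat_lit 8))
    (@En.n l3548 (nat_lit 11021) (nat_lit 11) (nat_lit 13))
    (@En.n l575 (nat_lit 9758) (nat_lit 3) (nat_lit 8))
    (@En.n l3 (nat_lit 9994) (nat_lit 7) (nat_lit 9))
    (@En.n l25117 (nat_lit 10456) (nat_lit 5) (nat_lit 9))
    (@En.n l564 (nat_lit 11592) (nat_lit 7) (nat_lit 10))
    (@En.n l7 (nat_lit 9037) (nat_lit 7) (nat_lit 3))
    (@En.n l41583 (nat_lit 7804) (nat_lit 0) (nat_lit 4))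
    (@En.i (nat_lit 10005) (nat_lit 0) (nat_lit 8))
    (@En.n l40558 (nat_lit 5337) (nat_lit 1) (nat_lit 13))
    (@En.n l25347 (nat_lit 6526) (nat_lit 12) (nat_lit 8))
    (@En.n l41584 (nat_lit 10693) (nat_lit 13) (nat_lit 12))
    (@En.n l41585 (nat_lit 9038) (nat_lit 9) (nat_lit 7))
    (@En.n l31726 (nat_lit 10467) (nat_lit 12) (nat_lit 7))
    (@En.n l25348 (nat_lit 9998) (nat_lit 15) (nat_lit 3))))
  (@Cl.mk (nat_lit 0x300070007000c0008000d000700040003000b000900090008000d00050009) (nat_lit 0x4310009015706) (nat_lit 16) Lb.e (@T16.mk En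
    (@En.n l14834 (nat_lit 11537) (nat_lit 0) (nat_lit 9))
    (@En.n l152 (nat_lit 7497) (nat_lit 9) (nat_lit 5))
    (@En.n l41429 (nat_lit 11023) (nat_lit 2) (nat_lit 13))
    (@En.n l41430 (nat_lit 9763) (nat_lit 3) (nat_lit 8))
    (@En.n l28899 (nat_lit 9996) (nat_lit 7) (nat_lit 9))
    (@En.n l41431 (nat_lit 10458) (nat_lit 5) (nat_lit 9))
    (@En.n l22771 (nat_lit 11661) (nat_lit 7) (nat_lit 11))
    (@En.n l18 (nat_lit 9999) (nat_lit 7) (nat_lit 3))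
    (@En.n l41432 (nat_lit 7806) (nat_lit 0) (nat_lit 4))
    (@En.n l61 (nat_lit 10001) (nat_lit 0) (nat_lit 7))
    (@En.n l41433 (nat_lit 5570) (nat_lit 1) (nat_lit 13))
    (@En.n l41434 (nat_lit 5437) (nat_lit 12) (nat_lit 8))
    (@En.n l41435 (nat_lit 10692) (nat_lit 13) (nat_lit 12))
    (@En.n l33881 (nat_lit 11006) (nat_lit 9) (nat_lit 7))
    (@En.n l21634 (nat_lit 10540) (nat_lit 12) (nat_lit 7))
    (@En.n l3866 (nat_lit 9997) (nat_lit 15) (nat_lit 3))))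
  (@Cl.mk (nat_lit 0x300070007000d0008000d000300080003000b000900090008000d00050008) (nat_lit 0xa320209013602) (nat_lit 16) Lb.e (@T16.mk En
    (@En.i (nat_lit 5959) (nat_lit 0) (nat_lit 8))
    (@En.n l152 (nat_lit 7494) (nat_lit 7) (nat_lit 5))
    (@En.n l32627 (nat_lit 11022) (nat_lit 9) (nat_lit 13))
    (@En.n l22702 (nat_lit 9757) (nat_lit 3) (nat_lit 8))
    (@En.n l17050 (nat_lit 9995) (nat_lit 7) (nat_lit 9))
    (@En.n l5859 (nat_lit 10457) (nat_lit 5) (nat_lit 9))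
    (@En.i (nat_lit 10001) (nat_lit 13) (nat_lit 11))
    (@En.i (nat_lit 9998) (nat_lit 7) (nat_lit 3))
    (@En.n l637 (nat_lit 6937) (nat_lit 0) (nat_lit 8))
    (@En.i (nat_lit 10000) (nat_lit 9) (nat_lit 3))
    (@En.n l10815 (nat_lit 5572) (nat_lit 0) (nat_lit 13))
    (@En.n l22273 (nat_lit 5436) (nat_lit 12) (nat_lit 8))
    (@En.n l4967 (nat_lit 10946) (nat_lit 13) (nat_lit 13))
    (@En.n l17085 (nat_lit 11004) (nat_lit 9) (nat_lit 7))
    (@En.n l21634 (nat_lit 10547) (nat_lit 12) (nat_lit 7))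
    (@En.n l3866 (nat_lit 9037) (nat_lit 15) (nat_lit 3))))
noncomputable def a625 : T16 Cl := @T16.mk Cl
  (@Cl.mk (nat_lit 0x300070007000d000c0009000300080004000b000900090007000d00050008) (nat_lit 0xb540309010800) (nat_lit 16) Lb.e (@T16.mk En
    (@En.i (nat_lit 11514) (nat_lit 0) (nat_lit 8))
    (@En.n l152 (nat_lit 7499) (nat_lit 7) (nat_lit 5))
    (@En.n l32627 (nat_lit 11024) (nat_lit 9) (nat_lit 13))
    (@En.n l32628 (nat_lit 9749) (nat_lit 3) (nat_lit 7))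
    (@En.n l32629 (nat_lit 7989) (nat_lit 7) (nat_lit 9))
    (@En.n l32630 (nat_lit 10463) (nat_lit 5) (nat_lit 9))
    (@En.n l32631 (nat_lit 10004) (nat_lit 13) (nat_lit 11))
    (@En.n l32630 (nat_lit 7987) (nat_lit 7) (nat_lit 4))
    (@En.n l831 (nat_lit 11253) (nat_lit 0) (nat_lit 8))
    (@En.n l50 (nat_lit 9999) (nat_lit 9) (nat_lit 3))
    (@En.n l6045 (nat_lit 3954) (nat_lit 0) (nat_lit 9))
    (@En.n l217 (nat_lit 9998) (nat_lit 12) (nat_lit 12))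
    (@En.n l32632 (nat_lit 10945) (nat_lit 13) (nat_lit 13))
    (@En.n l17085 (nat_lit 11005) (nat_lit 9) (nat_lit 7))
    (@En.n l21634 (nat_lit 11767) (nat_lit 12) (nat_lit 7))
    (@En.n l30314 (nat_lit 9039) (nat_lit 15) (nat_lit 3))))
  (@Cl.mk (nat_lit 0x30008000b000800080007000c000500090008000400080008000d00090007) (nat_lit 0x180003073004430) (nat_lit 16) Lb.e (@T16.mk En
    (@En.n l39778 (nat_lit 10117) (nat_lit 0) (nat_lit 7))
    (@En.n l43089 (nat_lit 5435) (nat_lit 12) (nat_lit 9))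
    (@En.n l43090 (nat_lit 10951) (nat_lit 2) (nat_lit 13))
    (@En.n l23621 (nat_lit 11002) (nat_lit 8) (nat_lit 8))
    (@En.n l21634 (nat_lit 11949) (nat_lit 11) (nat_lit 8))
    (@En.n l3866 (nat_lit 10116) (nat_lit 5) (nat_lit 4))
    (@En.n l17 (nat_lit 9999) (nat_lit 0) (nat_lit 8))
    (@En.n l29206 (nat_lit 11388) (nat_lit 1) (nat_lit 9))
    (@En.n l152 (nat_lit 7493) (nat_lit 8) (nat_lit 5))
    (@En.n l32627 (nat_lit 11939) (nat_lit 10) (nat_lit 12))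
    (@En.n l22702 (nat_lit 9766) (nat_lit 9) (nat_lit 7))
    (@En.n l22773 (nat_lit 10002) (nat_lit 8) (nat_lit 8))
    (@En.n l5859 (nat_lit 10420) (nat_lit 13) (nat_lit 8))
    (@En.n l17029 (nat_lit 11663) (nat_lit 7) (nat_lit 11))
    (@En.n l637 (nat_lit 6936) (nat_lit 12) (nat_lit 8))
    (@En.n l32631 (nat_lit 10004) (nat_lit 15) (nat_lit 3))))
  (@Cl.mk (nat_lit 0x2000d000a000800030009000c00080006000c0004000800070004000e0008) (nat_lit 0x642039602060051) (nat_lit 16) Lb.e (@T16.mk En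
    (@En.n l17380 (nat_lit 10001) (nat_lit 4) (nat_lit 8))
    (@En.n l39253 (nat_lit 11273) (nat_lit 1) (nat_lit 14))
    (@En.n l33757 (nat_lit 10798) (nat_lit 2) (nat_lit 4))
    (@En.n l22499 (nat_lit 9995) (nat_lit 3) (nat_lit 7))
    (@En.n l33408 (nat_lit 11384) (nat_lit 4) (nat_lit 8))
    (@En.n l11308 (nat_lit 6389) (nat_lit 5) (nat_lit 4))
    (@En.n l9267 (nat_lit 11921) (nat_lit 7) (nat_lit 12))
    (@En.i (nat_lit 10238) (nat_lit 7) (nat_lit 6))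
    (@En.n l22499 (nat_lit 10184) (nat_lit 13) (nat_lit 8))
    (@En.i (nat_lit 11662) (nat_lit 6) (nat_lit 12))
    (@En.n l39254 (nat_lit 6932) (nat_lit 11) (nat_lit 9))
    (@En.n l7 (nat_lit 10003) (nat_lit 11) (nat_lit 3))
    (@En.n l33408 (nat_lit 7720) (nat_lit 0) (nat_lit 8))
    (@En.n l644 (nat_lit 7727) (nat_lit 14) (nat_lit 10))
    (@En.n l11219 (nat_lit 10671) (nat_lit 2) (nat_lit 13))
    (@En.n l11 (nat_lit 10002) (nat_lit 15) (nat_lit 2))))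
  (@Cl.mk (nat_lit 0x2000d0007000b00030009000c00080005000c0004000900070004000e0008) (nat_lit 0x605049006070050) (nat_lit 16) Lb.e (@T16.mk En
    (@En.n l6669 (nat_lit 10004) (nat_lit 4) (nat_lit 8))
    (@En.n l23961 (nat_lit 9893) (nat_lit 1) (nat_lit 14))
    (@En.n l3480 (nat_lit 10794) (nat_lit 2) (nat_lit 4))
    (@En.n l23962 (nat_lit 7989) (nat_lit 3) (nat_lit 7))
    (@En.n l23963 (nat_lit 9807) (nat_lit 4) (nat_lit 9))
    (@En.n l23962 (nat_lit 6390) (nat_lit 5) (nat_lit 4))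
    (@En.n l23964 (nat_lit 11922) (nat_lit 7) (nat_lit 12))
    (@En.i (nat_lit 6358) (nat_lit 7) (nat_lit 5))
    (@En.n l23965 (nat_lit 10183) (nat_lit 13) (nat_lit 8))
    (@En.i (nat_lit 11669) (nat_lit 6) (nat_lit 12))
    (@En.n l23966 (nat_lit 11257) (nat_lit 11) (nat_lit 9))
    (@En.i (nat_lit 10002) (nat_lit 11) (nat_lit 3))
    (@En.n l6758 (nat_lit 3947) (nat_lit 0) (nat_lit 11))
    (@En.n l810 (nat_lit 5860) (nat_lit 14) (nat_lit 7))
    (@En.n l3766 (nat_lit 10675) (nat_lit 2) (nat_lit 13))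
    (@En.n l11 (nat_lit 10003) (nat_lit 15) (nat_lit 2))))
  (@Cl.mk (nat_lit 0x30008000b000800080006000c0005000a0008000400080008000d0006000a) (nat_lit 0x280107061063504) (nat_lit 16) Lb.e (@T16.mk En
    (@En.n l29080 (nat_lit 3955) (nat_lit 0) (nat_lit 10))
    (@En.n l38787 (nat_lit 8009) (nat_lit 12) (nat_lit 6))
    (@En.n l391 (nat_lit 10950) (nat_lit 2) (nat_lit 13))
    (@En.n l13385 (nat_lit 11003) (nat_lit 8) (nat_lit 8))
    (@En.n l19523 (nat_lit 11950) (nat_lit 11) (nat_lit 8))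
    (@En.n l38788 (nat_lit 10793) (nat_lit 5) (nat_lit 4))
    (@En.n l38789 (nat_lit 10000) (nat_lit 0) (nat_lit 8))
    (@En.n l34174 (nat_lit 11406) (nat_lit 1) (nat_lit 10))
    (@En.n l38790 (nat_lit 7521) (nat_lit 8) (nat_lit 5))
    (@En.n l7 (nat_lit 11938) (nat_lit 10) (nat_lit 12))
    (@En.n l3224 (nat_lit 9751) (nat_lit 10) (nat_lit 6))
    (@En.n l6771 (nat_lit 10003) (nat_lit 8) (nat_lit 8))
    (@En.n l38791 (nat_lit 10425) (nat_lit 13) (nat_lit 8))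
    (@En.i (nat_lit 11664) (nat_lit 7) (nat_lit 11))
    (@En.n l29739 (nat_lit 11254) (nat_lit 12) (nat_lit 8))
    (@En.n l38792 (nat_lit 10001) (nat_lit 15) (nat_lit 3))))
  (@Cl.mk (nat_lit 0x300090009000800080007000c000800070007000400080008000d00090008) (nat_lit 0x750106600015314) (nat_lit 16) Lb.e (@T16.mk En
    (@En.n l35902 (nat_lit 11353) (nat_lit 0) (nat_lit 8))
    (@En.n l38813 (nat_lit 5160) (nat_lit 12) (nat_lit 9))
    (@En.n l38814 (nat_lit 12176) (nat_lit 2) (nat_lit 13))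
    (@En.n l38815 (nat_lit 10111) (nat_lit 8) (nat_lit 8))
    (@En.n l31726 (nat_lit 5441) (nat_lit 4) (nat_lit 8))
    (@En.n l34855 (nat_lit 10001) (nat_lit 5) (nat_lit 4))
    (@En.n l2172 (nat_lit 7971) (nat_lit 9) (nat_lit 7))
    (@En.i (nat_lit 9037) (nat_lit 1) (nat_lit 7))
    (@En.n l10118 (nat_lit 9342) (nat_lit 9) (nat_lit 8))
    (@En.n l3548 (nat_lit 11704) (nat_lit 10) (nat_lit 12))
    (@En.n l575 (nat_lit 9964) (nat_lit 9) (nat_lit 7))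
    (@En.n l3 (nat_lit 5858) (nat_lit 8) (nat_lit 8))
    (@En.n l742 (nat_lit 11980) (nat_lit 8) (nat_lit 8))
    (@En.n l396 (nat_lit 10778) (nat_lit 7) (nat_lit 9))
    (@En.n l28414 (nat_lit 9616) (nat_lit 9) (nat_lit 9))
    (@En.n l11424 (nat_lit 10790) (nat_lit 15) (nat_lit 3))))
  (@Cl.mk (nat_lit 0x3000c00080004000b00040008000c000c0005000800040004000d0008000c) (nat_lit 0x140905320100934) (nat_lit 16) Lb.e (@T16.mk En
    (@En.n l14270 (nat_lit 8674) (nat_lit 0) (nat_lit 12))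
    (@En.i (nat_lit 6869) (nat_lit 13) (nat_lit 8))
    (@En.n l2125 (nat_lit 11953) (nat_lit 2) (nat_lit 13))
    (@En.n l3625 (nat_lit 10611) (nat_lit 12) (nat_lit 4))
    (@En.n l3535 (nat_lit 10447) (nat_lit 4) (nat_lit 4))
    (@En.n l152 (nat_lit 7445) (nat_lit 10) (nat_lit 8))
    (@En.n l936 (nat_lit 10946) (nat_lit 1) (nat_lit 5))
    (@En.n l55 (nat_lit 7450) (nat_lit 4) (nat_lit 12))
    (@En.i (nat_lit 9178) (nat_lit 7) (nat_lit 12))
    (@En.n l3447 (nat_lit 8149) (nat_lit 11) (nat_lit 8))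
    (@En.n l19001 (nat_lit 2753) (nat_lit 10) (nat_lit 4))
    (@En.i (nat_lit 10007) (nat_lit 0) (nat_lit 11))
    (@En.n l4991 (nat_lit 7302) (nat_lit 1) (nat_lit 4))
    (@En.i (nat_lit 8138) (nat_lit 14) (nat_lit 8))
    (@En.n l4750 (nat_lit 4521) (nat_lit 1) (nat_lit 12))
    (@En.i (nat_lit 6868) (nat_lit 15) (nat_lit 3))))
  (@Cl.mk (nat_lit 0x30007000b000b0005000a000800050005000d000900060003000d0008000b) (nat_lit 0x22062008300a48) (nat_lit 16) Lb.e (@T16.mk En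
    (@En.n l18353 (nat_lit 12562) (nat_lit 7) (nat_lit 11))
    (@En.i (nat_lit 8139) (nat_lit 14) (nat_lit 8))
    (@En.n l1329 (nat_lit 4523) (nat_lit 2) (nat_lit 13))
    (@En.n l18354 (nat_lit 10008) (nat_lit 3) (nat_lit 3))
    (@En.n l3745 (nat_lit 11427) (nat_lit 0) (nat_lit 6))
    (@En.n l18355 (nat_lit 10012) (nat_lit 5) (nat_lit 9))
    (@En.n l18356 (nat_lit 10490) (nat_lit 7) (nat_lit 13))
    (@En.n l18357 (nat_lit 10011) (nat_lit 11) (nat_lit 5))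
    (@En.n l3535 (nat_lit 11102) (nat_lit 8) (nat_lit 5))
    (@En.n l17 (nat_lit 10006) (nat_lit 5) (nat_lit 8))
    (@En.n l3745 (nat_lit 8726) (nat_lit 11) (nat_lit 10))
    (@En.n l18358 (nat_lit 10951) (nat_lit 7) (nat_lit 5))
    (@En.n l55 (nat_lit 10010) (nat_lit 5) (nat_lit 11))
    (@En.i (nat_lit 10138) (nat_lit 8) (nat_lit 11))
    (@En.n l3447 (nat_lit 8148) (nat_lit 12) (nat_lit 7))
    (@En.n l18359 (nat_lit 10009) (nat_lit 15) (nat_lit 3))))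
  (@Cl.mk (nat_lit 0x30006000b000b0005000b000800050005000d0005000a0003000d0008000b) (nat_lit 0x22032007060a38) (nat_lit 16) Lb.e (@T16.mk En
    (@En.i (nat_lit 12563) (nat_lit 0) (nat_lit 11))
    (@En.n l33260 (nat_lit 8141) (nat_lit 14) (nat_lit 8))
    (@En.i (nat_lit 10012) (nat_lit 2) (nat_lit 13))
    (@En.n l33261 (nat_lit 10007) (nat_lit 3) (nat_lit 3))
    (@En.i (nat_lit 6775) (nat_lit 0) (nat_lit 10))
    (@En.n l16914 (nat_lit 9883) (nat_lit 5) (nat_lit 5))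
    (@En.n l33262 (nat_lit 10492) (nat_lit 7) (nat_lit 13))
    (@En.n l19152 (nat_lit 10015) (nat_lit 11) (nat_lit 5))
    (@En.n l7612 (nat_lit 11101) (nat_lit 8) (nat_lit 5))
    (@En.n l25747 (nat_lit 6868) (nat_lit 5) (nat_lit 8))
    (@En.n l19900 (nat_lit 9167) (nat_lit 11) (nat_lit 11))
    (@En.n l2511 (nat_lit 10950) (nat_lit 7) (nat_lit 5))
    (@En.n l33263 (nat_lit 10014) (nat_lit 5) (nat_lit 11))
    (@En.n l2568 (nat_lit 10139) (nat_lit 14) (nat_lit 11))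
    (@En.i (nat_lit 8518) (nat_lit 12) (nat_lit 6))
    (@En.n l33264 (nat_lit 10013) (nat_lit 15) (nat_lit 3))))
  (@Cl.mk (nat_lit 0x30007000b000b0006000a000700050005000d000900060003000d000a0009) (nat_lit 0x1080008300a57) (nat_lit 16) Lb.e (@T16.mk En
    (@En.n l20243 (nat_lit 6624) (nat_lit 0) (nat_lit 9))
    (@En.i (nat_lit 9389) (nat_lit 14) (nat_lit 10))
    (@En.i (nat_lit 4527) (nat_lit 2) (nat_lit 13))
    (@En.n l33054 (nat_lit 10013) (nat_lit 3) (nat_lit 3))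
    (@En.i (nat_lit 10873) (nat_lit 0) (nat_lit 6))
    (@En.i (nat_lit 10018) (nat_lit 5) (nat_lit 9))
    (@En.n l134 (nat_lit 10487) (nat_lit 7) (nat_lit 13))
    (@En.n l11 (nat_lit 10016) (nat_lit 11) (nat_lit 5))
    (@En.n l6891 (nat_lit 11106) (nat_lit 8) (nat_lit 5))
    (@En.n l17145 (nat_lit 2753) (nat_lit 5) (nat_lit 7))
    (@En.i (nat_lit 8725) (nat_lit 11) (nat_lit 10))
    (@En.n l20237 (nat_lit 4310) (nat_lit 7) (nat_lit 6))
    (@En.n l32289 (nat_lit 8212) (nat_lit 5) (nat_lit 11))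
    (@En.n l26668 (nat_lit 10135) (nat_lit 8) (nat_lit 11))
    (@En.n l14253 (nat_lit 8140) (nat_lit 12) (nat_lit 7))
    (@En.n l26668 (nat_lit 10007) (nat_lit 15) (nat_lit 3))))
  (@Cl.mk (nat_lit 0x2000d000900070003000d0009000c00030007000b000400090007000e0005) (nat_lit 0x670024900105060) (nat_lit 16) Lb.e (@T16.mk En
    (@En.i (nat_lit 10007) (nat_lit 8) (nat_lit 5))
    (@En.n l13127 (nat_lit 11141) (nat_lit 1) (nat_lit 14))
    (@En.n l17 (nat_lit 7450) (nat_lit 2) (nat_lit 7))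
    (@En.n l1003 (nat_lit 8727) (nat_lit 3) (nat_lit 9))
    (@En.n l33593 (nat_lit 9597) (nat_lit 4) (nat_lit 4))
    (@En.i (nat_lit 4331) (nat_lit 8) (nat_lit 11))
    (@En.n l781 (nat_lit 8152) (nat_lit 6) (nat_lit 7))
    (@En.n l19001 (nat_lit 8212) (nat_lit 7) (nat_lit 3))
    (@En.n l8766 (nat_lit 12560) (nat_lit 0) (nat_lit 12))
    (@En.i (nat_lit 8207) (nat_lit 10) (nat_lit 9))
    (@En.n l1329 (nat_lit 3421) (nat_lit 11) (nat_lit 13))
    (@En.n l11821 (nat_lit 10014) (nat_lit 11) (nat_lit 3))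
    (@En.n l17017 (nat_lit 12815) (nat_lit 0) (nat_lit 7))
    (@En.n l34159 (nat_lit 10021) (nat_lit 14) (nat_lit 9))
    (@En.n l18356 (nat_lit 10506) (nat_lit 2) (nat_lit 13))
    (@En.n l28 (nat_lit 10010) (nat_lit 15) (nat_lit 2))))
  (@Cl.mk (nat_lit 0x20006000b00090005000d000900050003000d0007000a00030007000e000b) (nat_lit 0x840820040600b3) (nat_lit 16) Lb.e (@T16.mk En
    (@En.n l7483 (nat_lit 10007) (nat_lit 13) (nat_lit 11))
    (@En.n l7484 (nat_lit 8574) (nat_lit 1) (nat_lit 14))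
    (@En.n l387 (nat_lit 8151) (nat_lit 2) (nat_lit 7))
    (@En.n l6905 (nat_lit 10016) (nat_lit 3) (nat_lit 3))
    (@En.n l7485 (nat_lit 12759) (nat_lit 8) (nat_lit 10))
    (@En.n l7486 (nat_lit 8136) (nat_lit 5) (nat_lit 7))
    (@En.n l1776 (nat_lit 4551) (nat_lit 7) (nat_lit 13))
    (@En.i (nat_lit 10015) (nat_lit 7) (nat_lit 3))
    (@En.n l7487 (nat_lit 11505) (nat_lit 8) (nat_lit 5))
    (@En.n l1316 (nat_lit 10614) (nat_lit 10) (nat_lit 9))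
    (@En.n l7486 (nat_lit 11237) (nat_lit 11) (nat_lit 13))
    (@En.n l7488 (nat_lit 10886) (nat_lit 12) (nat_lit 5))
    (@En.i (nat_lit 10611) (nat_lit 13) (nat_lit 9))
    (@En.n l7487 (nat_lit 9155) (nat_lit 14) (nat_lit 11))
    (@En.i (nat_lit 10621) (nat_lit 13) (nat_lit 6))
    (@En.n l3 (nat_lit 10011) (nat_lit 15) (nat_lit 2))))
  (@Cl.mk (nat_lit 0x300070006000b000b0006000b00090005000500090005000a000d0007000a) (nat_lit 0x3303200206907) (nat_lit 16) Lb.e (@T16.mk En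
    (@En.i (nat_lit 12561) (nat_lit 0) (nat_lit 10))
    (@En.n l33680 (nat_lit 9335) (nat_lit 3) (nat_lit 7))
    (@En.n l33681 (nat_lit 4589) (nat_lit 5) (nat_lit 13))
    (@En.i (nat_lit 6714) (nat_lit 3) (nat_lit 10))
    (@En.n l33682 (nat_lit 9884) (nat_lit 4) (nat_lit 5))
    (@En.n l30066 (nat_lit 10032) (nat_lit 10) (nat_lit 9))
    (@En.n l33683 (nat_lit 10614) (nat_lit 11) (nat_lit 5))
    (@En.n l7612 (nat_lit 11103) (nat_lit 7) (nat_lit 5))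
    (@En.n l33684 (nat_lit 6869) (nat_lit 0) (nat_lit 9))
    (@En.n l33685 (nat_lit 8855) (nat_lit 10) (nat_lit 11))
    (@En.n l33686 (nat_lit 10952) (nat_lit 11) (nat_lit 6))
    (@En.n l33263 (nat_lit 10021) (nat_lit 5) (nat_lit 11))
    (@En.n l2568 (nat_lit 9793) (nat_lit 13) (nat_lit 11))
    (@En.n l17 (nat_lit 10008) (nat_lit 14) (nat_lit 6))
    (@En.n l21631 (nat_lit 7089) (nat_lit 12) (nat_lit 7))
    (@En.n l33687 (nat_lit 10018) (nat_lit 15) (nat_lit 3))))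
  (@Cl.mk (nat_lit 0x30006000b000b0006000b000700050005000d0005000a0003000d000a0009) (nat_lit 0x31020007060a53) (nat_lit 16) Lb.e (@T16.mk En
    (@En.n l8303 (nat_lit 6623) (nat_lit 0) (nat_lit 9))
    (@En.i (nat_lit 9359) (nat_lit 14) (nat_lit 10))
    (@En.n l19312 (nat_lit 10018) (nat_lit 2) (nat_lit 13))
    (@En.n l19313 (nat_lit 10009) (nat_lit 3) (nat_lit 3))
    (@En.n l19314 (nat_lit 6774) (nat_lit 0) (nat_lit 10))
    (@En.i (nat_lit 7190) (nat_lit 5) (nat_lit 5))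
    (@En.n l19315 (nat_lit 10489) (nat_lit 7) (nat_lit 13))
    (@En.n l55 (nat_lit 10017) (nat_lit 11) (nat_lit 5))
    (@En.i (nat_lit 11104) (nat_lit 8) (nat_lit 5))
    (@En.n l8345 (nat_lit 1336) (nat_lit 5) (nat_lit 7))
    (@En.n l8012 (nat_lit 9166) (nat_lit 11) (nat_lit 11))
    (@En.n l8017 (nat_lit 4311) (nat_lit 7) (nat_lit 6))
    (@En.n l19316 (nat_lit 8213) (nat_lit 5) (nat_lit 11))
    (@En.n l15364 (nat_lit 10136) (nat_lit 14) (nat_lit 11))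
    (@En.i (nat_lit 8201) (nat_lit 12) (nat_lit 6))
    (@En.n l19317 (nat_lit 10008) (nat_lit 15) (nat_lit 3))))
  (@Cl.mk (nat_lit 0x2000d0006000a0003000d0009000c00030006000b0004000a0007000e0005) (nat_lit 0x602022900106050) (nat_lit 16) Lb.e (@T16.mk En
    (@En.n l18577 (nat_lit 10008) (nat_lit 8) (nat_lit 5))
    (@En.i (nat_lit 11143) (nat_lit 1) (nat_lit 14))
    (@En.n l8243 (nat_lit 6864) (nat_lit 2) (nat_lit 7))
    (@En.n l9871 (nat_lit 8925) (nat_lit 3) (nat_lit 10))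
    (@En.i (nat_lit 9593) (nat_lit 4) (nat_lit 4))
    (@En.n l5891 (nat_lit 4334) (nat_lit 0) (nat_lit 11))
    (@En.i (nat_lit 8513) (nat_lit 12) (nat_lit 6))
    (@En.n l19540 (nat_lit 8213) (nat_lit 7) (nat_lit 3))
    (@En.n l22727 (nat_lit 12559) (nat_lit 0) (nat_lit 12))
    (@En.n l11814 (nat_lit 8208) (nat_lit 10) (nat_lit 9))
    (@En.i (nat_lit 10021) (nat_lit 11) (nat_lit 13))
    (@En.n l39370 (nat_lit 10010) (nat_lit 11) (nat_lit 3))
    (@En.n l781 (nat_lit 6715) (nat_lit 0) (nat_lit 10))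
    (@En.n l39371 (nat_lit 9902) (nat_lit 14) (nat_lit 6))
    (@En.n l2125 (nat_lit 10505) (nat_lit 2) (nat_lit 13))
    (@En.n l17 (nat_lit 10014) (nat_lit 15) (nat_lit 2))))
  (@Cl.mk (nat_lit 0x20006000c00090005000d0004000a0003000d0007000a00030006000e000b) (nat_lit 0x440702040700b3) (nat_lit 16) Lb.e (@T16.mk En
    (@En.n l5218 (nat_lit 10008) (nat_lit 13) (nat_lit 11))
    (@En.n l2394 (nat_lit 8571) (nat_lit 1) (nat_lit 14))
    (@En.n l387 (nat_lit 8192) (nat_lit 2) (nat_lit 6))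
    (@En.n l339 (nat_lit 10017) (nat_lit 3) (nat_lit 3))
    (@En.n l7068 (nat_lit 12567) (nat_lit 0) (nat_lit 10))
    (@En.n l5134 (nat_lit 8133) (nat_lit 5) (nat_lit 7))
    (@En.n l11835 (nat_lit 10614) (nat_lit 7) (nat_lit 13))
    (@En.n l28 (nat_lit 10011) (nat_lit 7) (nat_lit 3))
    (@En.i (nat_lit 6780) (nat_lit 9) (nat_lit 10))
    (@En.n l11 (nat_lit 9882) (nat_lit 9) (nat_lit 4))
    (@En.n l9620 (nat_lit 11239) (nat_lit 11) (nat_lit 13))
    (@En.n l9175 (nat_lit 10900) (nat_lit 7) (nat_lit 5))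
    (@En.i (nat_lit 10612) (nat_lit 13) (nat_lit 9))
    (@En.n l17545 (nat_lit 9159) (nat_lit 14) (nat_lit 12))
    (@En.i (nat_lit 11788) (nat_lit 13) (nat_lit 6))
    (@En.n l3 (nat_lit 10015) (nat_lit 15) (nat_lit 2))))
noncomputable def a626 : T16 Cl := @T16.mk Cl
  (@Cl.mk (nat_lit 0x20007000b00080005000d000900050003000d0009000800030007000e000b) (nat_lit 0x64072004560061) (nat_lit 16) Lb.e (@T16.mk En
    (@En.n l68 (nat_lit 10009) (nat_lit 13) (nat_lit 11))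
    (@En.n l17240 (nat_lit 10104) (nat_lit 1) (nat_lit 14))
    (@En.n l18360 (nat_lit 8134) (nat_lit 2) (nat_lit 7))
    (@En.n l17253 (nat_lit 10011) (nat_lit 3) (nat_lit 3))
    (@En.n l7633 (nat_lit 6627) (nat_lit 0) (nat_lit 8))
    (@En.n l13226 (nat_lit 9868) (nat_lit 5) (nat_lit 9))
    (@En.n l7633 (nat_lit 4553) (nat_lit 7) (nat_lit 13))
    (@En.n l18361 (nat_lit 10017) (nat_lit 7) (nat_lit 3))
    (@En.i (nat_lit 11504) (nat_lit 8) (nat_lit 5))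
    (@En.n l1448 (nat_lit 10019) (nat_lit 10) (nat_lit 9))
    (@En.n l17239 (nat_lit 11235) (nat_lit 11) (nat_lit 13))
    (@En.n l18362 (nat_lit 10884) (nat_lit 7) (nat_lit 5))
    (@En.n l17156 (nat_lit 2752) (nat_lit 13) (nat_lit 8))
    (@En.i (nat_lit 9154) (nat_lit 14) (nat_lit 11))
    (@En.n l2318 (nat_lit 4317) (nat_lit 6) (nat_lit 7))
    (@En.n l67 (nat_lit 10016) (nat_lit 15) (nat_lit 2))))
  (@Cl.mk (nat_lit 0x20007000c00080005000d0004000a0003000d0009000800030006000e000b) (nat_lit 0x41070204530034) (nat_lit 16) Lb.e (@T16.mk En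
    (@En.i (nat_lit 10013) (nat_lit 13) (nat_lit 11))
    (@En.n l2125 (nat_lit 7821) (nat_lit 1) (nat_lit 14))
    (@En.i (nat_lit 8200) (nat_lit 2) (nat_lit 6))
    (@En.n l1235 (nat_lit 10015) (nat_lit 3) (nat_lit 3))
    (@En.n l2038 (nat_lit 6625) (nat_lit 0) (nat_lit 8))
    (@En.n l9891 (nat_lit 9869) (nat_lit 5) (nat_lit 9))
    (@En.n l9892 (nat_lit 10019) (nat_lit 7) (nat_lit 13))
    (@En.n l8331 (nat_lit 10016) (nat_lit 7) (nat_lit 3))
    (@En.n l1233 (nat_lit 6776) (nat_lit 9) (nat_lit 10))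
    (@En.i (nat_lit 9880) (nat_lit 9) (nat_lit 4))
    (@En.n l2440 (nat_lit 11238) (nat_lit 11) (nat_lit 13))
    (@En.i (nat_lit 10888) (nat_lit 7) (nat_lit 5))
    (@En.n l4149 (nat_lit 1335) (nat_lit 13) (nat_lit 8))
    (@En.n l476 (nat_lit 9158) (nat_lit 14) (nat_lit 12))
    (@En.i (nat_lit 4316) (nat_lit 6) (nat_lit 7))
    (@En.n l28 (nat_lit 10017) (nat_lit 15) (nat_lit 2))))
  (@Cl.mk (nat_lit 0x300070006000b000b0007000b00080005000500090005000a000d00090008) (nat_lit 0x4603400206945) (nat_lit 16) Lb.e (@T16.mk En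
    (@En.n l35129 (nat_lit 6621) (nat_lit 0) (nat_lit 8))
    (@En.n l26735 (nat_lit 9481) (nat_lit 3) (nat_lit 9))
    (@En.n l27259 (nat_lit 4588) (nat_lit 5) (nat_lit 13))
    (@En.n l25677 (nat_lit 6711) (nat_lit 3) (nat_lit 10))
    (@En.n l1393 (nat_lit 7189) (nat_lit 4) (nat_lit 5))
    (@En.n l27259 (nat_lit 10562) (nat_lit 5) (nat_lit 9))
    (@En.n l6303 (nat_lit 10019) (nat_lit 11) (nat_lit 5))
    (@En.n l29008 (nat_lit 11105) (nat_lit 7) (nat_lit 5))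
    (@En.n l35130 (nat_lit 3482) (nat_lit 0) (nat_lit 8))
    (@En.i (nat_lit 8854) (nat_lit 10) (nat_lit 11))
    (@En.n l20237 (nat_lit 4312) (nat_lit 11) (nat_lit 7))
    (@En.n l32289 (nat_lit 10020) (nat_lit 5) (nat_lit 11))
    (@En.n l6892 (nat_lit 10133) (nat_lit 13) (nat_lit 11))
    (@En.n l35131 (nat_lit 10013) (nat_lit 14) (nat_lit 6))
    (@En.n l14253 (nat_lit 9334) (nat_lit 12) (nat_lit 7))
    (@En.n l35132 (nat_lit 10012) (nat_lit 15) (nat_lit 3))))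
  (@Cl.mk (nat_lit 0x20008000c0009000500090004000a000d00080007000300070006000e000b) (nat_lit 0x245010234000085) (nat_lit 16) Lb.e (@T16.mk En
    (@En.n l3212 (nat_lit 10018) (nat_lit 12) (nat_lit 11))
    (@En.n l22727 (nat_lit 4657) (nat_lit 1) (nat_lit 14))
    (@En.n l22728 (nat_lit 10017) (nat_lit 2) (nat_lit 6))
    (@En.n l22729 (nat_lit 9344) (nat_lit 3) (nat_lit 7))
    (@En.n l11610 (nat_lit 10614) (nat_lit 4) (nat_lit 3))
    (@En.n l9806 (nat_lit 6622) (nat_lit 0) (nat_lit 7))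
    (@En.n l3596 (nat_lit 9487) (nat_lit 6) (nat_lit 8))
    (@En.i (nat_lit 3446) (nat_lit 8) (nat_lit 13))
    (@En.n l22730 (nat_lit 2536) (nat_lit 9) (nat_lit 10))
    (@En.n l2364 (nat_lit 7191) (nat_lit 9) (nat_lit 4))
    (@En.n l17018 (nat_lit 5633) (nat_lit 11) (nat_lit 9))
    (@En.n l22731 (nat_lit 10891) (nat_lit 6) (nat_lit 5))
    (@En.n l11357 (nat_lit 3484) (nat_lit 13) (nat_lit 9))
    (@En.i (nat_lit 8852) (nat_lit 14) (nat_lit 12))
    (@En.n l13756 (nat_lit 4318) (nat_lit 2) (nat_lit 8))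
    (@En.n l50 (nat_lit 10019) (nat_lit 15) (nat_lit 2))))
  (@Cl.mk (nat_lit 0x200090006000a000d000a0009000300070006000b0006000a0007000e0005) (nat_lit 0x6021540005010b0) (nat_lit 16) Lb.e (@T16.mk En
    (@En.n l3745 (nat_lit 10018) (nat_lit 7) (nat_lit 5))
    (@En.n l26872 (nat_lit 11147) (nat_lit 1) (nat_lit 14))
    (@En.n l17 (nat_lit 3479) (nat_lit 2) (nat_lit 7))
    (@En.n l1003 (nat_lit 8920) (nat_lit 3) (nat_lit 10))
    (@En.n l24271 (nat_lit 2892) (nat_lit 4) (nat_lit 6))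
    (@En.n l36378 (nat_lit 8877) (nat_lit 13) (nat_lit 11))
    (@En.n l17023 (nat_lit 8213) (nat_lit 6) (nat_lit 6))
    (@En.n l617 (nat_lit 8210) (nat_lit 7) (nat_lit 7))
    (@En.n l34159 (nat_lit 10021) (nat_lit 8) (nat_lit 3))
    (@En.n l18153 (nat_lit 6620) (nat_lit 0) (nat_lit 9))
    (@En.n l3518 (nat_lit 9484) (nat_lit 11) (nat_lit 10))
    (@En.n l37527 (nat_lit 3399) (nat_lit 12) (nat_lit 13))
    (@En.n l21780 (nat_lit 6707) (nat_lit 13) (nat_lit 10))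
    (@En.n l37528 (nat_lit 9903) (nat_lit 14) (nat_lit 6))
    (@En.n l37529 (nat_lit 10022) (nat_lit 5) (nat_lit 9))
    (@En.n l28 (nat_lit 10020) (nat_lit 15) (nat_lit 2))))
  (@Cl.mk (nat_lit 0x200090006000a000d0008000b000300070006000b0005000a0008000e0005) (nat_lit 0x6011280002072b0) (nat_lit 16) Lb.e (@T16.mk En
    (@En.n l18577 (nat_lit 10012) (nat_lit 7) (nat_lit 5))
    (@En.i (nat_lit 11146) (nat_lit 1) (nat_lit 14))
    (@En.n l24241 (nat_lit 6865) (nat_lit 2) (nat_lit 8))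
    (@En.n l31898 (nat_lit 8919) (nat_lit 3) (nat_lit 10))
    (@En.n l23575 (nat_lit 9592) (nat_lit 4) (nat_lit 5))
    (@En.n l5891 (nat_lit 9794) (nat_lit 13) (nat_lit 11))
    (@En.n l11 (nat_lit 10014) (nat_lit 6) (nat_lit 6))
    (@En.n l31899 (nat_lit 7090) (nat_lit 7) (nat_lit 7))
    (@En.n l31900 (nat_lit 10020) (nat_lit 8) (nat_lit 3))
    (@En.n l22727 (nat_lit 12557) (nat_lit 0) (nat_lit 11))
    (@En.n l31901 (nat_lit 8211) (nat_lit 11) (nat_lit 8))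
    (@En.n l31902 (nat_lit 3401) (nat_lit 12) (nat_lit 13))
    (@En.n l781 (nat_lit 6708) (nat_lit 13) (nat_lit 10))
    (@En.n l31903 (nat_lit 9901) (nat_lit 14) (nat_lit 6))
    (@En.n l31904 (nat_lit 10023) (nat_lit 5) (nat_lit 9))
    (@En.n l17 (nat_lit 10021) (nat_lit 15) (nat_lit 2))))
  (@Cl.mk (nat_lit 0x30007000a0007000b0007000b000800060005000900050009000d00090008) (nat_lit 0x205100500546) (nat_lit 16) Lb.e (@T16.mk En
    (@En.n l32743 (nat_lit 12138) (nat_lit 0) (nat_lit 8))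
    (@En.n l33053 (nat_lit 8838) (nat_lit 13) (nat_lit 9))
    (@En.n l32743 (nat_lit 4298) (nat_lit 6) (nat_lit 13))
    (@En.n l43351 (nat_lit 10841) (nat_lit 3) (nat_lit 9))
    (@En.i (nat_lit 10726) (nat_lit 4) (nat_lit 5))
    (@En.n l43352 (nat_lit 10563) (nat_lit 5) (nat_lit 9))
    (@En.n l5760 (nat_lit 10562) (nat_lit 6) (nat_lit 5))
    (@En.n l37373 (nat_lit 10561) (nat_lit 7) (nat_lit 6))
    (@En.n l17145 (nat_lit 72) (nat_lit 1) (nat_lit 8))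
    (@En.i (nat_lit 10435) (nat_lit 10) (nat_lit 11))
    (@En.n l134 (nat_lit 10565) (nat_lit 11) (nat_lit 7))
    (@En.i (nat_lit 10009) (nat_lit 12) (nat_lit 11))
    (@En.n l43353 (nat_lit 10494) (nat_lit 13) (nat_lit 7))
    (@En.n l26668 (nat_lit 10864) (nat_lit 8) (nat_lit 10))
    (@En.n l14253 (nat_lit 10727) (nat_lit 12) (nat_lit 7))
    (@En.n l43354 (nat_lit 10023) (nat_lit 15) (nat_lit 3))))
  (@Cl.mk (nat_lit 0x30007000a0007000b0006000b000900060005000900050009000d0007000a) (nat_lit 0x307000500503) (nat_lit 16) Lb.e (@T16.mk En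
    (@En.n l1897 (nat_lit 11029) (nat_lit 0) (nat_lit 10))
    (@En.n l41270 (nat_lit 10722) (nat_lit 2) (nat_lit 7))
    (@En.n l42809 (nat_lit 4296) (nat_lit 6) (nat_lit 13))
    (@En.n l13508 (nat_lit 10840) (nat_lit 3) (nat_lit 9))
    (@En.n l42810 (nat_lit 10727) (nat_lit 4) (nat_lit 5))
    (@En.n l50 (nat_lit 10028) (nat_lit 10) (nat_lit 9))
    (@En.n l26652 (nat_lit 10032) (nat_lit 11) (nat_lit 5))
    (@En.n l38399 (nat_lit 10027) (nat_lit 7) (nat_lit 6))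
    (@En.n l42811 (nat_lit 10024) (nat_lit 9) (nat_lit 9))
    (@En.n l42810 (nat_lit 10434) (nat_lit 10) (nat_lit 11))
    (@En.i (nat_lit 4314) (nat_lit 11) (nat_lit 6))
    (@En.n l41270 (nat_lit 10007) (nat_lit 12) (nat_lit 11))
    (@En.n l42812 (nat_lit 9920) (nat_lit 13) (nat_lit 7))
    (@En.n l30414 (nat_lit 10863) (nat_lit 8) (nat_lit 10))
    (@En.n l42813 (nat_lit 10372) (nat_lit 12) (nat_lit 7))
    (@En.n l42814 (nat_lit 10022) (nat_lit 15) (nat_lit 3))))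
  (@Cl.mk (nat_lit 0x40008000b0008000c00060009000500040008000c0008000c00070004000a) (nat_lit 0x604307002605004) (nat_lit 16) Lb.e (@T16.mk En
    (@En.n l41813 (nat_lit 10023) (nat_lit 0) (nat_lit 10))
    (@En.n l41814 (nat_lit 10595) (nat_lit 1) (nat_lit 4))
    (@En.i (nat_lit 10726) (nat_lit 0) (nat_lit 7))
    (@En.n l18543 (nat_lit 4295) (nat_lit 1) (nat_lit 12))
    (@En.n l31337 (nat_lit 10842) (nat_lit 4) (nat_lit 8))
    (@En.n l9941 (nat_lit 10475) (nat_lit 7) (nat_lit 12))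
    (@En.n l41815 (nat_lit 10027) (nat_lit 11) (nat_lit 8))
    (@En.n l9937 (nat_lit 10561) (nat_lit 12) (nat_lit 4))
    (@En.n l2125 (nat_lit 10029) (nat_lit 0) (nat_lit 5))
    (@En.n l9941 (nat_lit 12130) (nat_lit 9) (nat_lit 9))
    (@En.n l41816 (nat_lit 4312) (nat_lit 1) (nat_lit 6))
    (@En.i (nat_lit 10006) (nat_lit 7) (nat_lit 12))
    (@En.n l41817 (nat_lit 11956) (nat_lit 4) (nat_lit 8))
    (@En.i (nat_lit 10865) (nat_lit 7) (nat_lit 11))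
    (@En.n l3447 (nat_lit 10374) (nat_lit 11) (nat_lit 8))
    (@En.n l19001 (nat_lit 72) (nat_lit 7) (nat_lit 4))))
  (@Cl.mk (nat_lit 0x30007000b0007000b000a00070005000a0005000900060009000d00060009) (nat_lit 0x70640060006a00) (nat_lit 16) Lb.e (@T16.mk En
    (@En.n l32284 (nat_lit 11506) (nat_lit 0) (nat_lit 9))
    (@En.n l37371 (nat_lit 10378) (nat_lit 8) (nat_lit 6))
    (@En.n l3082 (nat_lit 10627) (nat_lit 6) (nat_lit 13))
    (@En.n l26714 (nat_lit 9582) (nat_lit 9) (nat_lit 9))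
    (@En.i (nat_lit 2094) (nat_lit 4) (nat_lit 6))
    (@En.n l7129 (nat_lit 10945) (nat_lit 5) (nat_lit 9))
    (@En.i (nat_lit 10022) (nat_lit 6) (nat_lit 5))
    (@En.n l37372 (nat_lit 10026) (nat_lit 8) (nat_lit 10))
    (@En.n l37373 (nat_lit 10603) (nat_lit 8) (nat_lit 5))
    (@En.n l9992 (nat_lit 10024) (nat_lit 2) (nat_lit 7))
    (@En.n l55 (nat_lit 10030) (nat_lit 11) (nat_lit 10))
    (@En.i (nat_lit 10960) (nat_lit 12) (nat_lit 11))
    (@En.n l37374 (nat_lit 4221) (nat_lit 13) (nat_lit 7))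
    (@En.n l32284 (nat_lit 6223) (nat_lit 8) (nat_lit 11))
    (@En.n l37375 (nat_lit 10023) (nat_lit 12) (nat_lit 7))
    (@En.n l37376 (nat_lit 10031) (nat_lit 15) (nat_lit 3))))
  (@Cl.mk (nat_lit 0x4000800040008000c000b0007000a0004000800050008000c0006000c0009) (nat_lit 0x202a40500035051) (nat_lit 16) Lb.e (@T16.mk En
    (@En.n l36995 (nat_lit 10025) (nat_lit 0) (nat_lit 9))
    (@En.n l15753 (nat_lit 10440) (nat_lit 1) (nat_lit 12))
    (@En.n l3348 (nat_lit 10393) (nat_lit 4) (nat_lit 6))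
    (@En.n l43378 (nat_lit 10631) (nat_lit 7) (nat_lit 12))
    (@En.n l5592 (nat_lit 9580) (nat_lit 10) (nat_lit 8))
    (@En.n l4172 (nat_lit 6556) (nat_lit 7) (nat_lit 5))
    (@En.i (nat_lit 10950) (nat_lit 11) (nat_lit 8))
    (@En.n l19555 (nat_lit 79) (nat_lit 7) (nat_lit 4))
    (@En.i (nat_lit 12464) (nat_lit 8) (nat_lit 10))
    (@En.n l13717 (nat_lit 10023) (nat_lit 1) (nat_lit 7))
    (@En.n l3039 (nat_lit 10029) (nat_lit 5) (nat_lit 11))
    (@En.n l134 (nat_lit 10959) (nat_lit 7) (nat_lit 12))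
    (@En.n l8091 (nat_lit 4306) (nat_lit 11) (nat_lit 8))
    (@En.n l117 (nat_lit 10597) (nat_lit 15) (nat_lit 4))
    (@En.n l3327 (nat_lit 10028) (nat_lit 0) (nat_lit 8))
    (@En.n l20560 (nat_lit 10606) (nat_lit 1) (nat_lit 4))))
  (@Cl.mk (nat_lit 0x30007000a00050008000c0007000c00060004000900040008000d000b0009) (nat_lit 0x150400406815) (nat_lit 16) Lb.e (@T16.mk En
    (@En.i (nat_lit 9915) (nat_lit 0) (nat_lit 9))
    (@En.n l29378 (nat_lit 10024) (nat_lit 13) (nat_lit 11))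
    (@En.n l134 (nat_lit 10917) (nat_lit 2) (nat_lit 13))
    (@En.n l3328 (nat_lit 10382) (nat_lit 3) (nat_lit 8))
    (@En.n l34974 (nat_lit 10558) (nat_lit 4) (nat_lit 4))
    (@En.n l18910 (nat_lit 10028) (nat_lit 5) (nat_lit 9))
    (@En.n l3480 (nat_lit 10599) (nat_lit 6) (nat_lit 4))
    (@En.n l2642 (nat_lit 10725) (nat_lit 7) (nat_lit 6))
    (@En.n l13633 (nat_lit 4251) (nat_lit 1) (nat_lit 12))
    (@En.n l3348 (nat_lit 11943) (nat_lit 4) (nat_lit 7))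
    (@En.n l34975 (nat_lit 11102) (nat_lit 11) (nat_lit 12))
    (@En.n l26864 (nat_lit 5627) (nat_lit 10) (nat_lit 8))
    (@En.i (nat_lit 10026) (nat_lit 5) (nat_lit 5))
    (@En.n l34976 (nat_lit 12129) (nat_lit 8) (nat_lit 10))
    (@En.i (nat_lit 4311) (nat_lit 12) (nat_lit 7))
    (@En.n l34977 (nat_lit 10561) (nat_lit 15) (nat_lit 3))))
  (@Cl.mk (nat_lit 0x30007000c000a0006000900040008000d0006000900030007000d000a0008) (nat_lit 0x81040240300811) (nat_lit 16) Lb.e (@T16.mk En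
    (@En.n l1791 (nat_lit 9912) (nat_lit 0) (nat_lit 8))
    (@En.i (nat_lit 10023) (nat_lit 13) (nat_lit 10))
    (@En.n l42212 (nat_lit 10916) (nat_lit 2) (nat_lit 13))
    (@En.n l1897 (nat_lit 10383) (nat_lit 3) (nat_lit 7))
    (@En.n l5200 (nat_lit 10563) (nat_lit 15) (nat_lit 3))
    (@En.n l1897 (nat_lit 11028) (nat_lit 0) (nat_lit 9))
    (@En.n l14808 (nat_lit 10723) (nat_lit 6) (nat_lit 6))
    (@En.n l3530 (nat_lit 4297) (nat_lit 8) (nat_lit 13))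
    (@En.i (nat_lit 10844) (nat_lit 3) (nat_lit 8))
    (@En.n l152 (nat_lit 10732) (nat_lit 9) (nat_lit 4))
    (@En.n l1897 (nat_lit 5630) (nat_lit 9) (nat_lit 9))
    (@En.n l12290 (nat_lit 10028) (nat_lit 6) (nat_lit 6))
    (@En.n l22465 (nat_lit 10027) (nat_lit 13) (nat_lit 10))
    (@En.n l21310 (nat_lit 10431) (nat_lit 9) (nat_lit 12))
    (@En.i (nat_lit 4313) (nat_lit 12) (nat_lit 7))
    (@En.n l11217 (nat_lit 10032) (nat_lit 15) (nat_lit 3))))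
  (@Cl.mk (nat_lit 0x30008000c0007000c000a0004000900040008000b00060009000d00070005) (nat_lit 0x470600601304200) (nat_lit 16) Lb.e (@T16.mk En
    (@En.n l28 (nat_lit 7556) (nat_lit 0) (nat_lit 5))
    (@En.n l3362 (nat_lit 10952) (nat_lit 0) (nat_lit 7))
    (@En.n l4427 (nat_lit 10447) (nat_lit 6) (nat_lit 13))
    (@En.i (nat_lit 12465) (nat_lit 9) (nat_lit 9))
    (@En.n l25042 (nat_lit 10025) (nat_lit 4) (nat_lit 6))
    (@En.i (nat_lit 10874) (nat_lit 7) (nat_lit 11))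
    (@En.n l11870 (nat_lit 4309) (nat_lit 6) (nat_lit 8))
    (@En.n l4427 (nat_lit 10596) (nat_lit 7) (nat_lit 4))
    (@En.n l13408 (nat_lit 10027) (nat_lit 0) (nat_lit 9))
    (@En.n l17 (nat_lit 10607) (nat_lit 1) (nat_lit 4))
    (@En.n l4428 (nat_lit 10030) (nat_lit 0) (nat_lit 10))
    (@En.n l25042 (nat_lit 9557) (nat_lit 1) (nat_lit 12))
    (@En.n l31147 (nat_lit 10392) (nat_lit 13) (nat_lit 7))
    (@En.n l1203 (nat_lit 11787) (nat_lit 7) (nat_lit 12))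
    (@En.n l11512 (nat_lit 10026) (nat_lit 4) (nat_lit 8))
    (@En.n l36412 (nat_lit 10604) (nat_lit 15) (nat_lit 3))))
  (@Cl.mk (nat_lit 0x30008000c0007000a000600040009000d0008000600030009000d0007000a) (nat_lit 0x510300530007a08) (nat_lit 16) Lb.e (@T16.mk En
    (@En.n l12290 (nat_lit 11504) (nat_lit 0) (nat_lit 10))
    (@En.n l37732 (nat_lit 10377) (nat_lit 13) (nat_lit 7))
    (@En.n l9874 (nat_lit 11472) (nat_lit 6) (nat_lit 13))
    (@En.n l3506 (nat_lit 10025) (nat_lit 3) (nat_lit 9))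
    (@En.n l42911 (nat_lit 10033) (nat_lit 4) (nat_lit 3))
    (@En.i (nat_lit 6634) (nat_lit 0) (nat_lit 6))
    (@En.i (nat_lit 10944) (nat_lit 6) (nat_lit 8))
    (@En.i (nat_lit 10484) (nat_lit 8) (nat_lit 13))
    (@En.n l4819 (nat_lit 10029) (nat_lit 3) (nat_lit 9))
    (@En.n l3536 (nat_lit 10601) (nat_lit 9) (nat_lit 4))
    (@En.n l12290 (nat_lit 10030) (nat_lit 5) (nat_lit 6))
    (@En.i (nat_lit 10875) (nat_lit 8) (nat_lit 10))
    (@En.n l17884 (nat_lit 4220) (nat_lit 13) (nat_lit 7))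
    (@En.n l12290 (nat_lit 6225) (nat_lit 7) (nat_lit 12))
    (@En.n l11419 (nat_lit 10024) (nat_lit 12) (nat_lit 8))
    (@En.n l16539 (nat_lit 10731) (nat_lit 15) (nat_lit 3))))
  (@Cl.mk (nat_lit 0x30007000b0007000b000a0008000500090005000900060009000d00080007) (nat_lit 0x70671000006b60) (nat_lit 16) Lb.e (@T16.mk En
    (@En.n l11401 (nat_lit 11010) (nat_lit 0) (nat_lit 7))
    (@En.n l43498 (nat_lit 10722) (nat_lit 0) (nat_lit 8))
    (@En.n l36170 (nat_lit 10628) (nat_lit 6) (nat_lit 13))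
    (@En.n l42969 (nat_lit 9415) (nat_lit 9) (nat_lit 9))
    (@En.n l43499 (nat_lit 6632) (nat_lit 4) (nat_lit 6))
    (@En.n l699 (nat_lit 10947) (nat_lit 5) (nat_lit 9))
    (@En.n l1738 (nat_lit 10023) (nat_lit 6) (nat_lit 5))
    (@En.n l36172 (nat_lit 10606) (nat_lit 10) (nat_lit 9))
    (@En.n l16508 (nat_lit 10600) (nat_lit 8) (nat_lit 5))
    (@En.n l97 (nat_lit 79) (nat_lit 0) (nat_lit 8))
    (@En.n l43500 (nat_lit 10731) (nat_lit 11) (nat_lit 10))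
    (@En.n l43501 (nat_lit 12022) (nat_lit 12) (nat_lit 11))
    (@En.n l43502 (nat_lit 2833) (nat_lit 13) (nat_lit 7))
    (@En.n l43503 (nat_lit 10386) (nat_lit 8) (nat_lit 11))
    (@En.n l22221 (nat_lit 12051) (nat_lit 12) (nat_lit 7))
    (@En.n l43504 (nat_lit 10025) (nat_lit 15) (nat_lit 3))))
noncomputable def a627 : T16 Cl := @T16.mk Cl
  (@Cl.mk (nat_lit 0x30007000c000a0005000900040009000d0006000900030007000d0007000b) (nat_lit 0x80010040300704) (nat_lit 16) Lb.e (@T16.mk En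
    (@En.n l10858 (nat_lit 10011) (nat_lit 0) (nat_lit 11))
    (@En.n l34117 (nat_lit 10491) (nat_lit 13) (nat_lit 7))
    (@En.n l34118 (nat_lit 10616) (nat_lit 2) (nat_lit 13))
    (@En.n l34119 (nat_lit 6219) (nat_lit 3) (nat_lit 7))
    (@En.n l17134 (nat_lit 10562) (nat_lit 15) (nat_lit 3))
    (@En.n l16496 (nat_lit 11011) (nat_lit 9) (nat_lit 9))
    (@En.n l24943 (nat_lit 10724) (nat_lit 6) (nat_lit 6))
    (@En.n l34120 (nat_lit 4300) (nat_lit 8) (nat_lit 13))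
    (@En.n l24739 (nat_lit 10577) (nat_lit 3) (nat_lit 9))
    (@En.i (nat_lit 10033) (nat_lit 9) (nat_lit 4))
    (@En.n l20138 (nat_lit 5629) (nat_lit 10) (nat_lit 9))
    (@En.n l25002 (nat_lit 10732) (nat_lit 6) (nat_lit 5))
    (@En.n l34121 (nat_lit 10561) (nat_lit 13) (nat_lit 10))
    (@En.n l34120 (nat_lit 10429) (nat_lit 9) (nat_lit 12))
    (@En.n l16988 (nat_lit 10604) (nat_lit 12) (nat_lit 7))
    (@En.n l14014 (nat_lit 10028) (nat_lit 15) (nat_lit 3))))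
  (@Cl.mk (nat_lit 0x30007000c0007000b000600040009000d0005000900030009000d0007000a) (nat_lit 0x20900530207605) (nat_lit 16) Lb.e (@T16.mk En
    (@En.n l20647 (nat_lit 11505) (nat_lit 0) (nat_lit 10))
    (@En.n l14457 (nat_lit 10379) (nat_lit 13) (nat_lit 7))
    (@En.n l43161 (nat_lit 10619) (nat_lit 6) (nat_lit 13))
    (@En.n l7409 (nat_lit 9414) (nat_lit 3) (nat_lit 9))
    (@En.n l8331 (nat_lit 10030) (nat_lit 4) (nat_lit 3))
    (@En.n l43162 (nat_lit 11005) (nat_lit 0) (nat_lit 9))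
    (@En.n l8331 (nat_lit 10025) (nat_lit 6) (nat_lit 5))
    (@En.n l43163 (nat_lit 10436) (nat_lit 8) (nat_lit 13))
    (@En.n l29439 (nat_lit 10604) (nat_lit 3) (nat_lit 9))
    (@En.n l28 (nat_lit 10602) (nat_lit 9) (nat_lit 4))
    (@En.n l43164 (nat_lit 10731) (nat_lit 5) (nat_lit 6))
    (@En.i (nat_lit 10884) (nat_lit 12) (nat_lit 11))
    (@En.n l43165 (nat_lit 4219) (nat_lit 13) (nat_lit 7))
    (@En.n l43163 (nat_lit 10426) (nat_lit 9) (nat_lit 12))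
    (@En.n l25099 (nat_lit 10595) (nat_lit 12) (nat_lit 7))
    (@En.n l12849 (nat_lit 10732) (nat_lit 15) (nat_lit 3))))
  (@Cl.mk (nat_lit 0x2000d0008000c0003000d000a00040003000a0008000e00060002000e0006) (nat_lit 0x7390940071700b0) (nat_lit 16) Lb.e (@T16.mk En
    (@En.n l97 (nat_lit 9028) (nat_lit 14) (nat_lit 6))
    (@En.n l3866 (nat_lit 8910) (nat_lit 1) (nat_lit 14))
    (@En.n l17 (nat_lit 10034) (nat_lit 2) (nat_lit 2))
    (@En.i (nat_lit 9042) (nat_lit 3) (nat_lit 6))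
    (@En.i (nat_lit 12773) (nat_lit 1) (nat_lit 14))
    (@En.i (nat_lit 4619) (nat_lit 5) (nat_lit 8))
    (@En.n l830 (nat_lit 10014) (nat_lit 3) (nat_lit 10))
    (@En.n l50 (nat_lit 8983) (nat_lit 7) (nat_lit 3))
    (@En.i (nat_lit 10035) (nat_lit 0) (nat_lit 4))
    (@En.n l217 (nat_lit 9993) (nat_lit 10) (nat_lit 10))
    (@En.i (nat_lit 2927) (nat_lit 11) (nat_lit 13))
    (@En.i (nat_lit 9016) (nat_lit 11) (nat_lit 3))
    (@En.n l5588 (nat_lit 12391) (nat_lit 0) (nat_lit 12))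
    (@En.i (nat_lit 7039) (nat_lit 14) (nat_lit 8))
    (@En.i (nat_lit 9900) (nat_lit 12) (nat_lit 13))
    (@En.n l67 (nat_lit 10034) (nat_lit 15) (nat_lit 2))))
  (@Cl.mk (nat_lit 0x2000a0008000e00080002000e00060002000c0008000c00080004000e0004) (nat_lit 0x5636070052510a0) (nat_lit 16) Lb.e (@T16.mk En
    (@En.n l7 (nat_lit 8959) (nat_lit 8) (nat_lit 4))
    (@En.n l10262 (nat_lit 2929) (nat_lit 1) (nat_lit 14))
    (@En.n l10263 (nat_lit 5927) (nat_lit 2) (nat_lit 4))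
    (@En.i (nat_lit 7966) (nat_lit 3) (nat_lit 8))
    (@En.n l10264 (nat_lit 12395) (nat_lit 13) (nat_lit 12))
    (@En.n l10265 (nat_lit 5195) (nat_lit 14) (nat_lit 8))
    (@En.n l10266 (nat_lit 10037) (nat_lit 12) (nat_lit 12))
    (@En.n l67 (nat_lit 10035) (nat_lit 7) (nat_lit 2))
    (@En.n l10267 (nat_lit 10036) (nat_lit 14) (nat_lit 6))
    (@En.n l10268 (nat_lit 8898) (nat_lit 1) (nat_lit 14))
    (@En.n l17 (nat_lit 10035) (nat_lit 10) (nat_lit 2))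
    (@En.n l10269 (nat_lit 9122) (nat_lit 3) (nat_lit 8))
    (@En.i (nat_lit 12834) (nat_lit 13) (nat_lit 14))
    (@En.n l6574 (nat_lit 4627) (nat_lit 14) (nat_lit 8))
    (@En.n l830 (nat_lit 9593) (nat_lit 3) (nat_lit 10))
    (@En.n l50 (nat_lit 10035) (nat_lit 15) (nat_lit 2))))
  (@Cl.mk (nat_lit 0x200060006000c0007000c00070004000e00040002000a000a0009000e0009) (nat_lit 0x4040090056745) (nat_lit 16) Lb.e (@T16.mk En
    (@En.n l19999 (nat_lit 9120) (nat_lit 11) (nat_lit 9))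
    (@En.n l1578 (nat_lit 10121) (nat_lit 12) (nat_lit 14))
    (@En.n l4758 (nat_lit 8231) (nat_lit 2) (nat_lit 9))
    (@En.n l22820 (nat_lit 10035) (nat_lit 14) (nat_lit 10))
    (@En.i (nat_lit 9910) (nat_lit 4) (nat_lit 10))
    (@En.n l17 (nat_lit 10036) (nat_lit 5) (nat_lit 2))
    (@En.i (nat_lit 8965) (nat_lit 6) (nat_lit 4))
    (@En.n l5022 (nat_lit 2930) (nat_lit 8) (nat_lit 14))
    (@En.i (nat_lit 5930) (nat_lit 8) (nat_lit 4))
    (@En.n l10991 (nat_lit 7971) (nat_lit 3) (nat_lit 7))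
    (@En.n l8631 (nat_lit 12397) (nat_lit 11) (nat_lit 12))
    (@En.n l7471 (nat_lit 5198) (nat_lit 12) (nat_lit 7))
    (@En.n l476 (nat_lit 7578) (nat_lit 13) (nat_lit 12))
    (@En.n l152 (nat_lit 10118) (nat_lit 14) (nat_lit 6))
    (@En.i (nat_lit 8584) (nat_lit 8) (nat_lit 6))
    (@En.n l28 (nat_lit 10036) (nat_lit 15) (nat_lit 2))))
  (@Cl.mk (nat_lit 0x200090006000c0007000b000700040007000e00050002000a0009000e0009) (nat_lit 0x50406000a006743) (nat_lit 16) Lb.e (@T16.mk En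
    (@En.n l21641 (nat_lit 10038) (nat_lit 12) (nat_lit 9))
    (@En.n l21642 (nat_lit 10796) (nat_lit 13) (nat_lit 14))
    (@En.n l11427 (nat_lit 11184) (nat_lit 2) (nat_lit 9))
    (@En.n l21643 (nat_lit 9592) (nat_lit 3) (nat_lit 10))
    (@En.n l50 (nat_lit 10037) (nat_lit 4) (nat_lit 2))
    (@En.n l21644 (nat_lit 10040) (nat_lit 5) (nat_lit 5))
    (@En.n l7405 (nat_lit 10036) (nat_lit 7) (nat_lit 14))
    (@En.n l21645 (nat_lit 5708) (nat_lit 11) (nat_lit 7))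
    (@En.n l7405 (nat_lit 7506) (nat_lit 8) (nat_lit 4))
    (@En.n l18386 (nat_lit 12161) (nat_lit 4) (nat_lit 7))
    (@En.n l15092 (nat_lit 11162) (nat_lit 11) (nat_lit 11))
    (@En.i (nat_lit 4959) (nat_lit 6) (nat_lit 7))
    (@En.n l61 (nat_lit 10039) (nat_lit 8) (nat_lit 12))
    (@En.n l7407 (nat_lit 7578) (nat_lit 14) (nat_lit 6))
    (@En.n l21646 (nat_lit 11440) (nat_lit 10) (nat_lit 9))
    (@En.n l107 (nat_lit 10037) (nat_lit 15) (nat_lit 2))))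
  (@Cl.mk (nat_lit 0x2000b000a0009000900080005000b0006000a0007000700050008000e0006) (nat_lit 0x3824302060003c0) (nat_lit 16) Lb.e (@T16.mk En
    (@En.n l16348 (nat_lit 10042) (nat_lit 6) (nat_lit 6))
    (@En.i (nat_lit 9120) (nat_lit 1) (nat_lit 14))
    (@En.n l16349 (nat_lit 5710) (nat_lit 10) (nat_lit 8))
    (@En.i (nat_lit 10041) (nat_lit 3) (nat_lit 5))
    (@En.n l9146 (nat_lit 10037) (nat_lit 9) (nat_lit 7))
    (@En.n l16350 (nat_lit 11572) (nat_lit 5) (nat_lit 7))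
    (@En.n l16351 (nat_lit 11834) (nat_lit 9) (nat_lit 10))
    (@En.n l16352 (nat_lit 4960) (nat_lit 7) (nat_lit 6))
    (@En.n l16353 (nat_lit 7583) (nat_lit 9) (nat_lit 11))
    (@En.n l152 (nat_lit 7579) (nat_lit 9) (nat_lit 5))
    (@En.n l16354 (nat_lit 10348) (nat_lit 11) (nat_lit 8))
    (@En.n l14990 (nat_lit 10092) (nat_lit 7) (nat_lit 9))
    (@En.n l16355 (nat_lit 12168) (nat_lit 13) (nat_lit 9))
    (@En.n l16356 (nat_lit 9865) (nat_lit 14) (nat_lit 10))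
    (@En.n l16357 (nat_lit 9589) (nat_lit 4) (nat_lit 11))
    (@En.n l17 (nat_lit 10038) (nat_lit 15) (nat_lit 2))))
  (@Cl.mk (nat_lit 0x20005000a000e000a00020009000c0006000a00060004000b0007000e0006) (nat_lit 0x846043050060a0) (nat_lit 16) Lb.e (@T16.mk En
    (@En.n l9164 (nat_lit 10043) (nat_lit 5) (nat_lit 6))
    (@En.n l7067 (nat_lit 7578) (nat_lit 7) (nat_lit 14))
    (@En.n l617 (nat_lit 10037) (nat_lit 7) (nat_lit 7))
    (@En.n l9165 (nat_lit 12840) (nat_lit 3) (nat_lit 11))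
    (@En.n l7070 (nat_lit 7504) (nat_lit 4) (nat_lit 4))
    (@En.n l9166 (nat_lit 12179) (nat_lit 5) (nat_lit 6))
    (@En.n l9167 (nat_lit 11163) (nat_lit 12) (nat_lit 10))
    (@En.i (nat_lit 5061) (nat_lit 7) (nat_lit 6))
    (@En.n l9166 (nat_lit 2477) (nat_lit 9) (nat_lit 12))
    (@En.n l7070 (nat_lit 11445) (nat_lit 10) (nat_lit 9))
    (@En.n l107 (nat_lit 10039) (nat_lit 10) (nat_lit 2))
    (@En.n l9168 (nat_lit 7583) (nat_lit 12) (nat_lit 10))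
    (@En.n l9169 (nat_lit 10795) (nat_lit 13) (nat_lit 14))
    (@En.n l2289 (nat_lit 11183) (nat_lit 2) (nat_lit 10))
    (@En.n l7072 (nat_lit 9323) (nat_lit 13) (nat_lit 5))
    (@En.n l50 (nat_lit 10039) (nat_lit 15) (nat_lit 2))))
  (@Cl.mk (nat_lit 0x200080006000b0007000b000b00080005000800050005000a0009000e0008) (nat_lit 0x502047402004693) (nat_lit 16) Lb.e (@T16.mk En
    (@En.n l16300 (nat_lit 10042) (nat_lit 2) (nat_lit 8))
    (@En.i (nat_lit 10792) (nat_lit 1) (nat_lit 14))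
    (@En.n l16303 (nat_lit 11187) (nat_lit 2) (nat_lit 9))
    (@En.n l10771 (nat_lit 9797) (nat_lit 3) (nat_lit 10))
    (@En.n l30416 (nat_lit 11195) (nat_lit 4) (nat_lit 5))
    (@En.i (nat_lit 9373) (nat_lit 5) (nat_lit 5))
    (@En.n l16303 (nat_lit 5132) (nat_lit 10) (nat_lit 8))
    (@En.n l30417 (nat_lit 7511) (nat_lit 7) (nat_lit 5))
    (@En.n l2337 (nat_lit 10086) (nat_lit 9) (nat_lit 8))
    (@En.n l30418 (nat_lit 10037) (nat_lit 10) (nat_lit 11))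
    (@En.n l16302 (nat_lit 11284) (nat_lit 11) (nat_lit 11))
    (@En.n l30419 (nat_lit 4964) (nat_lit 12) (nat_lit 7))
    (@En.n l30420 (nat_lit 10043) (nat_lit 13) (nat_lit 11))
    (@En.n l30417 (nat_lit 7575) (nat_lit 14) (nat_lit 6))
    (@En.n l30421 (nat_lit 11443) (nat_lit 6) (nat_lit 8))
    (@En.n l17 (nat_lit 10040) (nat_lit 15) (nat_lit 2))))
  (@Cl.mk (nat_lit 0x2000b00090008000c00080005000b00040007000b000800050008000e0005) (nat_lit 0x775840400500220) (nat_lit 16) Lb.e (@T16.mk En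
    (@En.i (nat_lit 10045) (nat_lit 8) (nat_lit 5))
    (@En.i (nat_lit 12199) (nat_lit 1) (nat_lit 14))
    (@En.n l226 (nat_lit 5509) (nat_lit 10) (nat_lit 8))
    (@En.n l3506 (nat_lit 7507) (nat_lit 3) (nat_lit 5))
    (@En.n l9143 (nat_lit 12294) (nat_lit 4) (nat_lit 8))
    (@En.n l9144 (nat_lit 10771) (nat_lit 8) (nat_lit 11))
    (@En.n l9145 (nat_lit 10037) (nat_lit 11) (nat_lit 7))
    (@En.n l9146 (nat_lit 10737) (nat_lit 7) (nat_lit 4))
    (@En.n l1690 (nat_lit 10047) (nat_lit 9) (nat_lit 11))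
    (@En.n l152 (nat_lit 11961) (nat_lit 9) (nat_lit 5))
    (@En.n l9144 (nat_lit 11448) (nat_lit 11) (nat_lit 8))
    (@En.n l7 (nat_lit 12172) (nat_lit 12) (nat_lit 12))
    (@En.n l644 (nat_lit 12170) (nat_lit 13) (nat_lit 8))
    (@En.n l9147 (nat_lit 10968) (nat_lit 14) (nat_lit 9))
    (@En.i (nat_lit 8432) (nat_lit 4) (nat_lit 11))
    (@En.n l17 (nat_lit 10041) (nat_lit 15) (nat_lit 2))))
  (@Cl.mk (nat_lit 0x5000a0006000a000a000800080006000900060006000b000a000800080007) (nat_lit 0x208755030057220) (nat_lit 16) Lb.e (@T16.mk En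
    (@En.n l31359 (nat_lit 10346) (nat_lit 9) (nat_lit 7))
    (@En.n l31360 (nat_lit 10090) (nat_lit 8) (nat_lit 8))
    (@En.n l31361 (nat_lit 12173) (nat_lit 8) (nat_lit 8))
    (@En.i (nat_lit 9859) (nat_lit 6) (nat_lit 10))
    (@En.n l23138 (nat_lit 9356) (nat_lit 9) (nat_lit 11))
    (@En.n l55 (nat_lit 6462) (nat_lit 10) (nat_lit 6))
    (@En.n l31362 (nat_lit 9374) (nat_lit 6) (nat_lit 6))
    (@En.i (nat_lit 5709) (nat_lit 9) (nat_lit 9))
    (@En.n l31363 (nat_lit 10045) (nat_lit 10) (nat_lit 6))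
    (@En.n l15828 (nat_lit 10040) (nat_lit 8) (nat_lit 8))
    (@En.n l31359 (nat_lit 10073) (nat_lit 8) (nat_lit 8))
    (@En.n l31364 (nat_lit 10038) (nat_lit 6) (nat_lit 10))
    (@En.n l31365 (nat_lit 11288) (nat_lit 9) (nat_lit 10))
    (@En.n l31366 (nat_lit 3180) (nat_lit 6) (nat_lit 6))
    (@En.n l30388 (nat_lit 10044) (nat_lit 10) (nat_lit 10))
    (@En.n l31367 (nat_lit 7574) (nat_lit 11) (nat_lit 5))))
  (@Cl.mk (nat_lit 0x20008000b0006000a000a00070005000c0008000600060004000a000e0009) (nat_lit 0x4103600630007a5) (nat_lit 16) Lb.e (@T16.mk En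
    (@En.n l17997 (nat_lit 10044) (nat_lit 13) (nat_lit 9))
    (@En.n l21497 (nat_lit 5857) (nat_lit 1) (nat_lit 14))
    (@En.n l21498 (nat_lit 11185) (nat_lit 2) (nat_lit 10))
    (@En.n l3535 (nat_lit 9366) (nat_lit 3) (nat_lit 4))
    (@En.n l152 (nat_lit 11630) (nat_lit 4) (nat_lit 6))
    (@En.n l21499 (nat_lit 9371) (nat_lit 5) (nat_lit 6))
    (@En.n l15750 (nat_lit 10040) (nat_lit 6) (nat_lit 8))
    (@En.n l21500 (nat_lit 11638) (nat_lit 8) (nat_lit 12))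
    (@En.i (nat_lit 7512) (nat_lit 8) (nat_lit 5))
    (@En.n l17998 (nat_lit 10084) (nat_lit 10) (nat_lit 7))
    (@En.n l21501 (nat_lit 10039) (nat_lit 6) (nat_lit 10))
    (@En.n l17998 (nat_lit 11287) (nat_lit 12) (nat_lit 10))
    (@En.n l2935 (nat_lit 5055) (nat_lit 13) (nat_lit 6))
    (@En.n l709 (nat_lit 753) (nat_lit 7) (nat_lit 11))
    (@En.i (nat_lit 11446) (nat_lit 1) (nat_lit 8))
    (@En.n l50 (nat_lit 10043) (nat_lit 15) (nat_lit 2))))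
  (@Cl.mk (nat_lit 0x4000b000900090007000a000500090009000700070006000c000900070007) (nat_lit 0x840010760007400) (nat_lit 16) Lb.e (@T16.mk En
    (@En.n l644 (nat_lit 6461) (nat_lit 9) (nat_lit 7))
    (@En.n l16649 (nat_lit 9372) (nat_lit 1) (nat_lit 7))
    (@En.n l16650 (nat_lit 10042) (nat_lit 7) (nat_lit 9))
    (@En.n l16651 (nat_lit 10096) (nat_lit 3) (nat_lit 12))
    (@En.n l10038 (nat_lit 10046) (nat_lit 10) (nat_lit 6))
    (@En.n l16652 (nat_lit 10043) (nat_lit 9) (nat_lit 7))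
    (@En.n l16653 (nat_lit 10083) (nat_lit 9) (nat_lit 7))
    (@En.n l7137 (nat_lit 7583) (nat_lit 7) (nat_lit 9))
    (@En.n l16653 (nat_lit 11290) (nat_lit 10) (nat_lit 9))
    (@En.n l16654 (nat_lit 5052) (nat_lit 9) (nat_lit 5))
    (@En.n l2633 (nat_lit 2474) (nat_lit 8) (nat_lit 10))
    (@En.n l16655 (nat_lit 10344) (nat_lit 9) (nat_lit 7))
    (@En.n l61 (nat_lit 10091) (nat_lit 7) (nat_lit 9))
    (@En.n l16656 (nat_lit 12169) (nat_lit 7) (nat_lit 9))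
    (@En.n l16657 (nat_lit 9861) (nat_lit 4) (nat_lit 11))
    (@En.n l16658 (nat_lit 9370) (nat_lit 15) (nat_lit 4))))
  (@Cl.mk (nat_lit 0x40007000b000b00090006000900050005000b00090007000c00070005000a) (nat_lit 0x86002004603004) (nat_lit 16) Lb.e (@T16.mk En
    (@En.n l3529 (nat_lit 10046) (nat_lit 0) (nat_lit 10))
    (@En.n l2710 (nat_lit 11978) (nat_lit 1) (nat_lit 5))
    (@En.n l9144 (nat_lit 11080) (nat_lit 0) (nat_lit 7))
    (@En.n l7 (nat_lit 12190) (nat_lit 8) (nat_lit 12))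
    (@En.n l13918 (nat_lit 12175) (nat_lit 9) (nat_lit 7))
    (@En.n l21473 (nat_lit 10961) (nat_lit 5) (nat_lit 9))
    (@En.n l21474 (nat_lit 8795) (nat_lit 7) (nat_lit 11))
    (@En.n l1071 (nat_lit 12189) (nat_lit 11) (nat_lit 5))
    (@En.i (nat_lit 9697) (nat_lit 8) (nat_lit 5))
    (@En.n l21473 (nat_lit 5674) (nat_lit 9) (nat_lit 9))
    (@En.n l21475 (nat_lit 7510) (nat_lit 1) (nat_lit 6))
    (@En.n l18221 (nat_lit 11901) (nat_lit 12) (nat_lit 9))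
    (@En.n l61 (nat_lit 10041) (nat_lit 5) (nat_lit 11))
    (@En.n l21476 (nat_lit 11985) (nat_lit 8) (nat_lit 11))
    (@En.n l21477 (nat_lit 10040) (nat_lit 11) (nat_lit 7))
    (@En.n l21478 (nat_lit 10739) (nat_lit 15) (nat_lit 4))))
  (@Cl.mk (nat_lit 0x30006000a000a00080006000c0009000600060004000a0008000d0007000a) (nat_lit 0x35507300072203) (nat_lit 16) Lb.e (@T16.mk En
    (@En.n l9063 (nat_lit 2465) (nat_lit 0) (nat_lit 10))
    (@En.n l9064 (nat_lit 11079) (nat_lit 2) (nat_lit 7))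
    (@En.n l18 (nat_lit 12184) (nat_lit 2) (nat_lit 13))
    (@En.n l9065 (nat_lit 12174) (nat_lit 3) (nat_lit 8))
    (@En.n l9066 (nat_lit 10962) (nat_lit 4) (nat_lit 10))
    (@En.n l3535 (nat_lit 10675) (nat_lit 5) (nat_lit 4))
    (@En.n l152 (nat_lit 12183) (nat_lit 10) (nat_lit 6))
    (@En.n l9067 (nat_lit 10664) (nat_lit 7) (nat_lit 6))
    (@En.n l870 (nat_lit 10045) (nat_lit 9) (nat_lit 9))
    (@En.n l9068 (nat_lit 9249) (nat_lit 10) (nat_lit 12))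
    (@En.n l9069 (nat_lit 7513) (nat_lit 10) (nat_lit 6))
    (@En.n l9070 (nat_lit 11994) (nat_lit 12) (nat_lit 8))
    (@En.n l3536 (nat_lit 10047) (nat_lit 6) (nat_lit 10))
    (@En.n l9071 (nat_lit 11983) (nat_lit 9) (nat_lit 10))
    (@En.n l9072 (nat_lit 10043) (nat_lit 12) (nat_lit 6))
    (@En.n l9073 (nat_lit 12159) (nat_lit 15) (nat_lit 3))))
  (@Cl.mk (nat_lit 0x20005000a0009000d0008000b00030006000a00070005000b0008000e0006) (nat_lit 0x85943004007330) (nat_lit 16) Lb.e (@T16.mk En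
    (@En.n l3098 (nat_lit 10046) (nat_lit 7) (nat_lit 6))
    (@En.n l3 (nat_lit 11961) (nat_lit 1) (nat_lit 14))
    (@En.n l3 (nat_lit 10041) (nat_lit 2) (nat_lit 8))
    (@En.n l3099 (nat_lit 12045) (nat_lit 3) (nat_lit 11))
    (@En.n l3100 (nat_lit 7505) (nat_lit 4) (nat_lit 5))
    (@En.n l3101 (nat_lit 12292) (nat_lit 5) (nat_lit 7))
    (@En.n l3099 (nat_lit 10691) (nat_lit 7) (nat_lit 10))
    (@En.n l3102 (nat_lit 10039) (nat_lit 7) (nat_lit 6))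
    (@En.n l3103 (nat_lit 12132) (nat_lit 8) (nat_lit 3))
    (@En.n l3101 (nat_lit 2478) (nat_lit 0) (nat_lit 11))
    (@En.n l3104 (nat_lit 11449) (nat_lit 11) (nat_lit 8))
    (@En.n l7 (nat_lit 7452) (nat_lit 12) (nat_lit 13))
    (@En.n l644 (nat_lit 12164) (nat_lit 13) (nat_lit 9))
    (@En.n l3105 (nat_lit 10966) (nat_lit 14) (nat_lit 10))
    (@En.n l3106 (nat_lit 9333) (nat_lit 13) (nat_lit 5))
    (@En.n l17 (nat_lit 10047) (nat_lit 15) (nat_lit 2))))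
noncomputable def a628 : T16 Cl := @T16.mk Cl
  (@Cl.mk (nat_lit 0x3000a00080008000c0007000a00060004000a000800080006000d00090006) (nat_lit 0x701302005640570) (nat_lit 16) Lb.e (@T16.mk En
    (@En.n l38060 (nat_lit 9312) (nat_lit 0) (nat_lit 6))
    (@En.n l38061 (nat_lit 9515) (nat_lit 0) (nat_lit 9))
    (@En.n l38062 (nat_lit 11703) (nat_lit 2) (nat_lit 13))
    (@En.n l23116 (nat_lit 9823) (nat_lit 3) (nat_lit 6))
    (@En.n l2687 (nat_lit 10050) (nat_lit 8) (nat_lit 8))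
    (@En.i (nat_lit 10511) (nat_lit 5) (nat_lit 8))
    (@En.n l28102 (nat_lit 9917) (nat_lit 7) (nat_lit 10))
    (@En.n l1865 (nat_lit 6269) (nat_lit 7) (nat_lit 4))
    (@En.n l619 (nat_lit 5425) (nat_lit 8) (nat_lit 6))
    (@En.i (nat_lit 6259) (nat_lit 8) (nat_lit 10))
    (@En.n l38063 (nat_lit 10044) (nat_lit 11) (nat_lit 7))
    (@En.n l1112 (nat_lit 10056) (nat_lit 7) (nat_lit 12))
    (@En.n l30148 (nat_lit 9513) (nat_lit 8) (nat_lit 8))
    (@En.n l31897 (nat_lit 10592) (nat_lit 14) (nat_lit 8))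
    (@En.n l38064 (nat_lit 9622) (nat_lit 7) (nat_lit 10))
    (@En.n l38065 (nat_lit 9375) (nat_lit 15) (nat_lit 3))))
  (@Cl.mk (nat_lit 0x2000b00080007000b00080005000c000900050008000400090008000e0007) (nat_lit 0x4605306705075b0) (nat_lit 16) Lb.e (@T16.mk En
    (@En.n l22266 (nat_lit 9515) (nat_lit 12) (nat_lit 7))
    (@En.n l43082 (nat_lit 7984) (nat_lit 1) (nat_lit 14))
    (@En.n l13540 (nat_lit 9625) (nat_lit 2) (nat_lit 8))
    (@En.n l43138 (nat_lit 9312) (nat_lit 3) (nat_lit 9))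
    (@En.n l1236 (nat_lit 9318) (nat_lit 4) (nat_lit 4))
    (@En.n l13540 (nat_lit 7704) (nat_lit 10) (nat_lit 8))
    (@En.n l43139 (nat_lit 3307) (nat_lit 6) (nat_lit 5))
    (@En.n l30683 (nat_lit 10054) (nat_lit 8) (nat_lit 9))
    (@En.n l43140 (nat_lit 9910) (nat_lit 9) (nat_lit 12))
    (@En.n l29967 (nat_lit 6274) (nat_lit 9) (nat_lit 5))
    (@En.n l43141 (nat_lit 6836) (nat_lit 11) (nat_lit 8))
    (@En.n l32503 (nat_lit 10050) (nat_lit 12) (nat_lit 11))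
    (@En.n l43139 (nat_lit 10051) (nat_lit 13) (nat_lit 7))
    (@En.n l4813 (nat_lit 10040) (nat_lit 14) (nat_lit 8))
    (@En.n l2129 (nat_lit 10059) (nat_lit 10) (nat_lit 11))
    (@En.n l50 (nat_lit 10049) (nat_lit 15) (nat_lit 2))))
  (@Cl.mk (nat_lit 0x2000c0008000b00070004000b00080005000d0008000500030009000e0008) (nat_lit 0x4540053046006a1) (nat_lit 16) Lb.e (@T16.mk En
    (@En.n l61 (nat_lit 10048) (nat_lit 13) (nat_lit 8))
    (@En.n l11706 (nat_lit 7983) (nat_lit 1) (nat_lit 14))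
    (@En.i (nat_lit 9624) (nat_lit 2) (nat_lit 9))
    (@En.n l41600 (nat_lit 10051) (nat_lit 3) (nat_lit 3))
    (@En.n l32240 (nat_lit 9311) (nat_lit 0) (nat_lit 5))
    (@En.n l38348 (nat_lit 10049) (nat_lit 5) (nat_lit 8))
    (@En.n l41601 (nat_lit 8111) (nat_lit 7) (nat_lit 13))
    (@En.n l41602 (nat_lit 3348) (nat_lit 7) (nat_lit 5))
    (@En.i (nat_lit 10053) (nat_lit 4) (nat_lit 8))
    (@En.n l13562 (nat_lit 9915) (nat_lit 10) (nat_lit 11))
    (@En.n l41603 (nat_lit 6272) (nat_lit 10) (nat_lit 4))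
    (@En.n l41604 (nat_lit 6913) (nat_lit 12) (nat_lit 7))
    (@En.i (nat_lit 5945) (nat_lit 7) (nat_lit 11))
    (@En.n l41605 (nat_lit 10043) (nat_lit 14) (nat_lit 8))
    (@En.n l38531 (nat_lit 10052) (nat_lit 11) (nat_lit 12))
    (@En.n l18 (nat_lit 10050) (nat_lit 15) (nat_lit 2))))
  (@Cl.mk (nat_lit 0x2000c0007000b00070004000c00080005000d0004000900030009000e0008) (nat_lit 0x404009604020681) (nat_lit 16) Lb.e (@T16.mk En
    (@En.n l35999 (nat_lit 9375) (nat_lit 13) (nat_lit 8))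
    (@En.n l36000 (nat_lit 7982) (nat_lit 1) (nat_lit 14))
    (@En.n l36001 (nat_lit 9373) (nat_lit 2) (nat_lit 9))
    (@En.n l36002 (nat_lit 10050) (nat_lit 3) (nat_lit 3))
    (@En.n l8798 (nat_lit 9514) (nat_lit 0) (nat_lit 9))
    (@En.n l26263 (nat_lit 9456) (nat_lit 5) (nat_lit 4))
    (@En.n l36003 (nat_lit 8109) (nat_lit 7) (nat_lit 13))
    (@En.i (nat_lit 3350) (nat_lit 7) (nat_lit 5))
    (@En.n l36004 (nat_lit 10055) (nat_lit 4) (nat_lit 8))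
    (@En.n l1776 (nat_lit 9331) (nat_lit 10) (nat_lit 12))
    (@En.i (nat_lit 6273) (nat_lit 10) (nat_lit 4))
    (@En.n l7485 (nat_lit 6912) (nat_lit 12) (nat_lit 7))
    (@En.n l6904 (nat_lit 5943) (nat_lit 13) (nat_lit 11))
    (@En.n l1316 (nat_lit 9366) (nat_lit 14) (nat_lit 7))
    (@En.n l23845 (nat_lit 10058) (nat_lit 11) (nat_lit 12))
    (@En.n l107 (nat_lit 10051) (nat_lit 15) (nat_lit 2))))
  (@Cl.mk (nat_lit 0x3000a00090008000c0007000a000600040007000b00080006000d00090005) (nat_lit 0x770305000240820) (nat_lit 16) Lb.e (@T16.mk En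
    (@En.n l3523 (nat_lit 9418) (nat_lit 0) (nat_lit 5))
    (@En.n l41249 (nat_lit 10059) (nat_lit 0) (nat_lit 9))
    (@En.n l2213 (nat_lit 9966) (nat_lit 2) (nat_lit 13))
    (@En.n l29920 (nat_lit 4305) (nat_lit 3) (nat_lit 6))
    (@En.n l41250 (nat_lit 9914) (nat_lit 4) (nat_lit 8))
    (@En.n l41251 (nat_lit 9671) (nat_lit 8) (nat_lit 11))
    (@En.n l29920 (nat_lit 9856) (nat_lit 11) (nat_lit 7))
    (@En.n l152 (nat_lit 9663) (nat_lit 7) (nat_lit 4))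
    (@En.n l41252 (nat_lit 6153) (nat_lit 0) (nat_lit 6))
    (@En.n l41253 (nat_lit 6240) (nat_lit 8) (nat_lit 10))
    (@En.n l40483 (nat_lit 10071) (nat_lit 11) (nat_lit 7))
    (@En.n l28 (nat_lit 10057) (nat_lit 7) (nat_lit 12))
    (@En.n l41254 (nat_lit 10056) (nat_lit 8) (nat_lit 8))
    (@En.n l37842 (nat_lit 9819) (nat_lit 14) (nat_lit 9))
    (@En.n l41255 (nat_lit 9919) (nat_lit 7) (nat_lit 10))
    (@En.n l18 (nat_lit 10058) (nat_lit 15) (nat_lit 3))))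
  (@Cl.mk (nat_lit 0x30008000d000800050003000c0009000c0008000400080004000d0007000b) (nat_lit 0x492005513020309) (nat_lit 16) Lb.e (@T16.mk En
    (@En.n l3523 (nat_lit 9990) (nat_lit 0) (nat_lit 11))
    (@En.i (nat_lit 10054) (nat_lit 6) (nat_lit 7))
    (@En.i (nat_lit 12213) (nat_lit 2) (nat_lit 13))
    (@En.i (nat_lit 10057) (nat_lit 3) (nat_lit 4))
    (@En.i (nat_lit 10542) (nat_lit 4) (nat_lit 8))
    (@En.n l1865 (nat_lit 6146) (nat_lit 5) (nat_lit 4))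
    (@En.n l619 (nat_lit 9662) (nat_lit 0) (nat_lit 8))
    (@En.i (nat_lit 5658) (nat_lit 6) (nat_lit 12))
    (@En.n l27275 (nat_lit 10084) (nat_lit 14) (nat_lit 9))
    (@En.n l1110 (nat_lit 9914) (nat_lit 10) (nat_lit 12))
    (@En.n l18 (nat_lit 10513) (nat_lit 10) (nat_lit 3))
    (@En.n l11706 (nat_lit 9462) (nat_lit 0) (nat_lit 5))
    (@En.n l61 (nat_lit 10511) (nat_lit 13) (nat_lit 8))
    (@En.n l649 (nat_lit 8810) (nat_lit 2) (nat_lit 13))
    (@En.i (nat_lit 10376) (nat_lit 3) (nat_lit 8))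
    (@En.i (nat_lit 10055) (nat_lit 15) (nat_lit 3))))
  (@Cl.mk (nat_lit 0x3000b00090008000c00090005000900040007000b00080007000d00070005) (nat_lit 0x550210600230200) (nat_lit 16) Lb.e (@T16.mk En
    (@En.n l38348 (nat_lit 9461) (nat_lit 0) (nat_lit 5))
    (@En.n l61 (nat_lit 10512) (nat_lit 0) (nat_lit 7))
    (@En.n l649 (nat_lit 8809) (nat_lit 2) (nat_lit 13))
    (@En.n l27675 (nat_lit 10395) (nat_lit 9) (nat_lit 7))
    (@En.n l27096 (nat_lit 9801) (nat_lit 4) (nat_lit 8))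
    (@En.n l38348 (nat_lit 9983) (nat_lit 8) (nat_lit 11))
    (@En.n l27675 (nat_lit 6583) (nat_lit 11) (nat_lit 7))
    (@En.i (nat_lit 10052) (nat_lit 7) (nat_lit 4))
    (@En.n l27096 (nat_lit 10540) (nat_lit 0) (nat_lit 9))
    (@En.n l1865 (nat_lit 6147) (nat_lit 1) (nat_lit 5))
    (@En.n l40483 (nat_lit 6278) (nat_lit 11) (nat_lit 9))
    (@En.n l28 (nat_lit 10053) (nat_lit 7) (nat_lit 12))
    (@En.n l77 (nat_lit 10055) (nat_lit 8) (nat_lit 8))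
    (@En.n l40484 (nat_lit 10086) (nat_lit 14) (nat_lit 9))
    (@En.n l38070 (nat_lit 9911) (nat_lit 7) (nat_lit 11))
    (@En.n l18 (nat_lit 10515) (nat_lit 15) (nat_lit 3))))
  (@Cl.mk (nat_lit 0x30008000d000800060003000c0008000c0008000400080004000d000a0008) (nat_lit 0x672005675050511) (nat_lit 16) Lb.e (@T16.mk En
    (@En.n l27006 (nat_lit 9638) (nat_lit 0) (nat_lit 8))
    (@En.i (nat_lit 9472) (nat_lit 12) (nat_lit 10))
    (@En.n l27007 (nat_lit 12214) (nat_lit 2) (nat_lit 13))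
    (@En.n l28645 (nat_lit 10056) (nat_lit 3) (nat_lit 4))
    (@En.i (nat_lit 10545) (nat_lit 4) (nat_lit 8))
    (@En.n l9956 (nat_lit 6145) (nat_lit 5) (nat_lit 4))
    (@En.n l40445 (nat_lit 10360) (nat_lit 0) (nat_lit 8))
    (@En.i (nat_lit 5659) (nat_lit 7) (nat_lit 12))
    (@En.n l27006 (nat_lit 10404) (nat_lit 14) (nat_lit 8))
    (@En.n l22902 (nat_lit 9918) (nat_lit 10) (nat_lit 12))
    (@En.n l25360 (nat_lit 10514) (nat_lit 10) (nat_lit 3))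
    (@En.n l40446 (nat_lit 9450) (nat_lit 0) (nat_lit 6))
    (@En.n l17791 (nat_lit 10510) (nat_lit 13) (nat_lit 8))
    (@En.n l3528 (nat_lit 8812) (nat_lit 2) (nat_lit 13))
    (@En.i (nat_lit 9814) (nat_lit 3) (nat_lit 8))
    (@En.n l7 (nat_lit 10053) (nat_lit 15) (nat_lit 3))))
  (@Cl.mk (nat_lit 0x30007000d000a00060003000b0008000c0006000900050004000d000a0008) (nat_lit 0x92006620300521) (nat_lit 16) Lb.e (@T16.mk En
    (@En.i (nat_lit 9611) (nat_lit 0) (nat_lit 8))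
    (@En.n l31740 (nat_lit 8797) (nat_lit 14) (nat_lit 10))
    (@En.n l13310 (nat_lit 10067) (nat_lit 2) (nat_lit 13))
    (@En.n l31741 (nat_lit 9666) (nat_lit 3) (nat_lit 4))
    (@En.n l12 (nat_lit 6151) (nat_lit 4) (nat_lit 5))
    (@En.i (nat_lit 6084) (nat_lit 9) (nat_lit 9))
    (@En.n l31742 (nat_lit 10397) (nat_lit 6) (nat_lit 6))
    (@En.n l31743 (nat_lit 4068) (nat_lit 7) (nat_lit 12))
    (@En.n l1501 (nat_lit 10585) (nat_lit 14) (nat_lit 8))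
    (@En.n l31744 (nat_lit 10494) (nat_lit 10) (nat_lit 11))
    (@En.n l5237 (nat_lit 10061) (nat_lit 10) (nat_lit 3))
    (@En.n l13314 (nat_lit 9430) (nat_lit 0) (nat_lit 6))
    (@En.n l31743 (nat_lit 10063) (nat_lit 13) (nat_lit 10))
    (@En.n l10539 (nat_lit 9971) (nat_lit 2) (nat_lit 13))
    (@En.n l31745 (nat_lit 9817) (nat_lit 3) (nat_lit 7))
    (@En.n l31746 (nat_lit 10057) (nat_lit 15) (nat_lit 3))))
  (@Cl.mk (nat_lit 0x30007000d000a00050003000b0009000c0006000900050004000d0007000b) (nat_lit 0x92006620400502) (nat_lit 16) Lb.e (@T16.mk En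
    (@En.n l3523 (nat_lit 9185) (nat_lit 0) (nat_lit 11))
    (@En.i (nat_lit 10052) (nat_lit 6) (nat_lit 7))
    (@En.n l31482 (nat_lit 10066) (nat_lit 2) (nat_lit 13))
    (@En.n l152 (nat_lit 9661) (nat_lit 3) (nat_lit 4))
    (@En.n l31483 (nat_lit 6152) (nat_lit 4) (nat_lit 5))
    (@En.n l17133 (nat_lit 6083) (nat_lit 9) (nat_lit 9))
    (@En.i (nat_lit 10398) (nat_lit 6) (nat_lit 6))
    (@En.i (nat_lit 5999) (nat_lit 6) (nat_lit 12))
    (@En.n l13561 (nat_lit 10088) (nat_lit 14) (nat_lit 9))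
    (@En.n l22554 (nat_lit 9920) (nat_lit 10) (nat_lit 11))
    (@En.n l18 (nat_lit 10060) (nat_lit 10) (nat_lit 3))
    (@En.n l3523 (nat_lit 9419) (nat_lit 0) (nat_lit 5))
    (@En.n l899 (nat_lit 10062) (nat_lit 13) (nat_lit 10))
    (@En.n l2213 (nat_lit 9969) (nat_lit 2) (nat_lit 13))
    (@En.i (nat_lit 4308) (nat_lit 12) (nat_lit 7))
    (@En.n l28645 (nat_lit 10056) (nat_lit 15) (nat_lit 3))))
  (@Cl.mk (nat_lit 0x3000a00090008000c0006000a000600040007000c00080006000d0004000a) (nat_lit 0x770305000140707) (nat_lit 16) Lb.e (@T16.mk En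
    (@En.n l5347 (nat_lit 9830) (nat_lit 0) (nat_lit 10))
    (@En.n l38103 (nat_lit 9708) (nat_lit 9) (nat_lit 4))
    (@En.n l2213 (nat_lit 9965) (nat_lit 0) (nat_lit 13))
    (@En.i (nat_lit 4304) (nat_lit 3) (nat_lit 6))
    (@En.n l27091 (nat_lit 9918) (nat_lit 4) (nat_lit 8))
    (@En.n l38169 (nat_lit 9672) (nat_lit 8) (nat_lit 12))
    (@En.n l40456 (nat_lit 9857) (nat_lit 11) (nat_lit 7))
    (@En.n l152 (nat_lit 9667) (nat_lit 7) (nat_lit 4))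
    (@En.n l31483 (nat_lit 6218) (nat_lit 0) (nat_lit 6))
    (@En.n l617 (nat_lit 6233) (nat_lit 9) (nat_lit 10))
    (@En.n l2605 (nat_lit 9941) (nat_lit 8) (nat_lit 6))
    (@En.n l28 (nat_lit 10060) (nat_lit 7) (nat_lit 12))
    (@En.n l6660 (nat_lit 10061) (nat_lit 8) (nat_lit 8))
    (@En.n l13561 (nat_lit 9820) (nat_lit 14) (nat_lit 9))
    (@En.n l23116 (nat_lit 10498) (nat_lit 13) (nat_lit 10))
    (@En.i (nat_lit 10052) (nat_lit 15) (nat_lit 3))))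
  (@Cl.mk (nat_lit 0x4000a000900080007000b00070006000a000700050008000c000900060009) (nat_lit 0x766030060022401) (nat_lit 16) Lb.e (@T16.mk En
    (@En.i (nat_lit 2593) (nat_lit 9) (nat_lit 9))
    (@En.n l43005 (nat_lit 2834) (nat_lit 1) (nat_lit 6))
    (@En.n l10040 (nat_lit 9911) (nat_lit 0) (nat_lit 9))
    (@En.n l43006 (nat_lit 9670) (nat_lit 7) (nat_lit 12))
    (@En.n l43007 (nat_lit 9858) (nat_lit 10) (nat_lit 8))
    (@En.n l28273 (nat_lit 6281) (nat_lit 11) (nat_lit 5))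
    (@En.n l43008 (nat_lit 6812) (nat_lit 0) (nat_lit 7))
    (@En.n l43009 (nat_lit 10052) (nat_lit 9) (nat_lit 10))
    (@En.n l43010 (nat_lit 10058) (nat_lit 10) (nat_lit 6))
    (@En.n l43011 (nat_lit 10070) (nat_lit 0) (nat_lit 7))
    (@En.n l43006 (nat_lit 10062) (nat_lit 8) (nat_lit 11))
    (@En.n l43012 (nat_lit 10063) (nat_lit 9) (nat_lit 7))
    (@En.n l19244 (nat_lit 9821) (nat_lit 8) (nat_lit 8))
    (@En.i (nat_lit 10508) (nat_lit 7) (nat_lit 9))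
    (@En.n l42200 (nat_lit 9413) (nat_lit 11) (nat_lit 10))
    (@En.n l43005 (nat_lit 8409) (nat_lit 15) (nat_lit 4))))
  (@Cl.mk (nat_lit 0x30007000d0004000b0003000b0009000c0005000900050004000d0007000c) (nat_lit 0x80206720400503) (nat_lit 16) Lb.e (@T16.mk En
    (@En.n l899 (nat_lit 12460) (nat_lit 0) (nat_lit 12))
    (@En.i (nat_lit 10058) (nat_lit 6) (nat_lit 7))
    (@En.n l29288 (nat_lit 10068) (nat_lit 2) (nat_lit 13))
    (@En.n l152 (nat_lit 9665) (nat_lit 12) (nat_lit 4))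
    (@En.n l31483 (nat_lit 6216) (nat_lit 4) (nat_lit 5))
    (@En.n l617 (nat_lit 6085) (nat_lit 10) (nat_lit 9))
    (@En.n l2605 (nat_lit 9942) (nat_lit 6) (nat_lit 5))
    (@En.i (nat_lit 4069) (nat_lit 6) (nat_lit 12))
    (@En.n l13561 (nat_lit 9585) (nat_lit 14) (nat_lit 9))
    (@En.n l23116 (nat_lit 10497) (nat_lit 10) (nat_lit 11))
    (@En.i (nat_lit 10057) (nat_lit 10) (nat_lit 3))
    (@En.n l5347 (nat_lit 9829) (nat_lit 0) (nat_lit 11))
    (@En.i (nat_lit 9710) (nat_lit 13) (nat_lit 4))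
    (@En.n l2213 (nat_lit 9967) (nat_lit 0) (nat_lit 13))
    (@En.i (nat_lit 4307) (nat_lit 12) (nat_lit 7))
    (@En.n l9448 (nat_lit 10061) (nat_lit 15) (nat_lit 3))))
  (@Cl.mk (nat_lit 0x30007000d0005000b0003000b0008000c0005000900050004000d000b0008) (nat_lit 0x80806620400511) (nat_lit 16) Lb.e (@T16.mk En
    (@En.n l14227 (nat_lit 9613) (nat_lit 0) (nat_lit 8))
    (@En.n l8047 (nat_lit 8800) (nat_lit 5) (nat_lit 11))
    (@En.n l1589 (nat_lit 10069) (nat_lit 2) (nat_lit 13))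
    (@En.n l11228 (nat_lit 10356) (nat_lit 12) (nat_lit 4))
    (@En.n l25054 (nat_lit 6217) (nat_lit 4) (nat_lit 5))
    (@En.n l3522 (nat_lit 6226) (nat_lit 10) (nat_lit 9))
    (@En.n l7584 (nat_lit 9943) (nat_lit 6) (nat_lit 5))
    (@En.i (nat_lit 4067) (nat_lit 7) (nat_lit 12))
    (@En.n l5653 (nat_lit 10588) (nat_lit 14) (nat_lit 8))
    (@En.n l28329 (nat_lit 10496) (nat_lit 10) (nat_lit 11))
    (@En.n l30450 (nat_lit 10056) (nat_lit 10) (nat_lit 3))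
    (@En.n l28 (nat_lit 9831) (nat_lit 0) (nat_lit 11))
    (@En.i (nat_lit 9711) (nat_lit 13) (nat_lit 5))
    (@En.n l77 (nat_lit 9970) (nat_lit 2) (nat_lit 13))
    (@En.n l36091 (nat_lit 9815) (nat_lit 3) (nat_lit 7))
    (@En.n l27873 (nat_lit 10060) (nat_lit 15) (nat_lit 3))))
  (@Cl.mk (nat_lit 0x30007000a0004000b000a0008000b00060005000900060005000d0008000c) (nat_lit 0x10255200500732) (nat_lit 16) Lb.e (@T16.mk En
    (@En.i (nat_lit 9186) (nat_lit 0) (nat_lit 12))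
    (@En.n l32553 (nat_lit 10059) (nat_lit 4) (nat_lit 8))
    (@En.n l19309 (nat_lit 10064) (nat_lit 2) (nat_lit 13))
    (@En.n l11401 (nat_lit 9664) (nat_lit 3) (nat_lit 5))
    (@En.n l2711 (nat_lit 6811) (nat_lit 4) (nat_lit 6))
    (@En.n l16218 (nat_lit 10057) (nat_lit 5) (nat_lit 9))
    (@En.n l1003 (nat_lit 10060) (nat_lit 6) (nat_lit 5))
    (@En.n l17 (nat_lit 10400) (nat_lit 7) (nat_lit 6))
    (@En.n l1003 (nat_lit 6000) (nat_lit 7) (nat_lit 11))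
    (@En.n l12644 (nat_lit 10089) (nat_lit 10) (nat_lit 8))
    (@En.n l5799 (nat_lit 10506) (nat_lit 6) (nat_lit 10))
    (@En.n l32554 (nat_lit 7961) (nat_lit 12) (nat_lit 11))
    (@En.i (nat_lit 9423) (nat_lit 13) (nat_lit 4))
    (@En.n l2299 (nat_lit 2595) (nat_lit 8) (nat_lit 10))
    (@En.i (nat_lit 2828) (nat_lit 12) (nat_lit 7))
    (@En.n l29769 (nat_lit 10063) (nat_lit 15) (nat_lit 3))))
  (@Cl.mk (nat_lit 0x30007000a0005000b000a0007000b00060005000900060005000d000b0009) (nat_lit 0x10850200400711) (nat_lit 16) Lb.e (@T16.mk En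
    (@En.n l30450 (nat_lit 9609) (nat_lit 0) (nat_lit 9))
    (@En.n l22963 (nat_lit 8801) (nat_lit 5) (nat_lit 11))
    (@En.n l30451 (nat_lit 10065) (nat_lit 2) (nat_lit 13))
    (@En.n l22390 (nat_lit 10357) (nat_lit 3) (nat_lit 5))
    (@En.n l22391 (nat_lit 6813) (nat_lit 4) (nat_lit 6))
    (@En.n l14227 (nat_lit 10056) (nat_lit 5) (nat_lit 9))
    (@En.i (nat_lit 10061) (nat_lit 6) (nat_lit 5))
    (@En.n l30452 (nat_lit 10399) (nat_lit 7) (nat_lit 6))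
    (@En.i (nat_lit 5998) (nat_lit 8) (nat_lit 11))
    (@En.n l22393 (nat_lit 10580) (nat_lit 2) (nat_lit 7))
    (@En.n l22394 (nat_lit 10493) (nat_lit 6) (nat_lit 10))
    (@En.n l4110 (nat_lit 9412) (nat_lit 12) (nat_lit 11))
    (@En.n l15967 (nat_lit 9428) (nat_lit 13) (nat_lit 5))
    (@En.n l6367 (nat_lit 2599) (nat_lit 8) (nat_lit 10))
    (@En.n l30453 (nat_lit 9818) (nat_lit 12) (nat_lit 7))
    (@En.n l30454 (nat_lit 10062) (nat_lit 15) (nat_lit 3))))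
noncomputable def a629 : T16 Cl := @T16.mk Cl
  (@Cl.mk (nat_lit 0x300090007000a0005000b000a000900070006000500090006000d0007000b) (nat_lit 0x504044700020607) (nat_lit 16) Lb.e (@T16.mk En
    (@En.n l18395 (nat_lit 9866) (nat_lit 0) (nat_lit 11))
    (@En.n l34851 (nat_lit 9861) (nat_lit 5) (nat_lit 7))
    (@En.n l42083 (nat_lit 10727) (nat_lit 2) (nat_lit 13))
    (@En.n l42084 (nat_lit 8141) (nat_lit 3) (nat_lit 6))
    (@En.n l19561 (nat_lit 10066) (nat_lit 4) (nat_lit 9))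
    (@En.n l22676 (nat_lit 10068) (nat_lit 5) (nat_lit 5))
    (@En.n l9876 (nat_lit 10410) (nat_lit 10) (nat_lit 6))
    (@En.n l18395 (nat_lit 10074) (nat_lit 7) (nat_lit 7))
    (@En.n l55 (nat_lit 10212) (nat_lit 7) (nat_lit 9))
    (@En.n l42085 (nat_lit 12052) (nat_lit 10) (nat_lit 10))
    (@En.n l42083 (nat_lit 8750) (nat_lit 11) (nat_lit 11))
    (@En.i (nat_lit 9477) (nat_lit 12) (nat_lit 5))
    (@En.n l7896 (nat_lit 7040) (nat_lit 8) (nat_lit 10))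
    (@En.n l6992 (nat_lit 10832) (nat_lit 14) (nat_lit 7))
    (@En.n l42086 (nat_lit 10059) (nat_lit 2) (nat_lit 9))
    (@En.n l28232 (nat_lit 10065) (nat_lit 15) (nat_lit 3))))
  (@Cl.mk (nat_lit 0x300090007000a0006000b000a000800070006000500090006000d000a0008) (nat_lit 0x101027300030602) (nat_lit 16) Lb.e (@T16.mk En
    (@En.n l5770 (nat_lit 6545) (nat_lit 0) (nat_lit 8))
    (@En.n l41110 (nat_lit 10070) (nat_lit 12) (nat_lit 10))
    (@En.n l8681 (nat_lit 10726) (nat_lit 2) (nat_lit 13))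
    (@En.i (nat_lit 8139) (nat_lit 3) (nat_lit 6))
    (@En.n l41111 (nat_lit 10067) (nat_lit 4) (nat_lit 9))
    (@En.n l41112 (nat_lit 10069) (nat_lit 5) (nat_lit 5))
    (@En.n l3745 (nat_lit 10960) (nat_lit 10) (nat_lit 6))
    (@En.n l17 (nat_lit 10435) (nat_lit 9) (nat_lit 7))
    (@En.n l18752 (nat_lit 10209) (nat_lit 8) (nat_lit 8))
    (@En.n l55 (nat_lit 12054) (nat_lit 10) (nat_lit 10))
    (@En.i (nat_lit 8749) (nat_lit 11) (nat_lit 11))
    (@En.n l41113 (nat_lit 10076) (nat_lit 12) (nat_lit 6))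
    (@En.n l8681 (nat_lit 6670) (nat_lit 8) (nat_lit 10))
    (@En.n l41114 (nat_lit 10715) (nat_lit 14) (nat_lit 7))
    (@En.n l40986 (nat_lit 9515) (nat_lit 2) (nat_lit 9))
    (@En.n l41115 (nat_lit 10064) (nat_lit 15) (nat_lit 3))))
  (@Cl.mk (nat_lit 0x300080007000d000a00060003000b000a0008000600090005000d0006000a) (nat_lit 0x509500932010402) (nat_lit 16) Lb.e (@T16.mk En
    (@En.n l764 (nat_lit 9869) (nat_lit 0) (nat_lit 10))
    (@En.n l32573 (nat_lit 9859) (nat_lit 7) (nat_lit 6))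
    (@En.n l5559 (nat_lit 10728) (nat_lit 9) (nat_lit 13))
    (@En.n l41169 (nat_lit 10388) (nat_lit 3) (nat_lit 5))
    (@En.i (nat_lit 5572) (nat_lit 9) (nat_lit 9))
    (@En.n l41170 (nat_lit 10958) (nat_lit 5) (nat_lit 6))
    (@En.n l764 (nat_lit 10075) (nat_lit 6) (nat_lit 8))
    (@En.n l4543 (nat_lit 10210) (nat_lit 6) (nat_lit 10))
    (@En.n l14735 (nat_lit 12051) (nat_lit 9) (nat_lit 11))
    (@En.n l16719 (nat_lit 10068) (nat_lit 9) (nat_lit 3))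
    (@En.n l18604 (nat_lit 9318) (nat_lit 0) (nat_lit 6))
    (@En.n l41171 (nat_lit 10064) (nat_lit 12) (nat_lit 10))
    (@En.n l16722 (nat_lit 8757) (nat_lit 13) (nat_lit 13))
    (@En.n l41172 (nat_lit 10819) (nat_lit 9) (nat_lit 7))
    (@En.n l41173 (nat_lit 10052) (nat_lit 4) (nat_lit 8))
    (@En.n l50 (nat_lit 10067) (nat_lit 15) (nat_lit 3))))
  (@Cl.mk (nat_lit 0x300080007000d000a00070003000b00090008000600090005000d00090007) (nat_lit 0x509200850020400) (nat_lit 16) Lb.e (@T16.mk En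
    (@En.n l7081 (nat_lit 6548) (nat_lit 0) (nat_lit 7))
    (@En.n l26898 (nat_lit 10071) (nat_lit 8) (nat_lit 9))
    (@En.n l31225 (nat_lit 10725) (nat_lit 9) (nat_lit 13))
    (@En.n l42737 (nat_lit 10386) (nat_lit 3) (nat_lit 5))
    (@En.i (nat_lit 5342) (nat_lit 9) (nat_lit 9))
    (@En.n l61 (nat_lit 10959) (nat_lit 5) (nat_lit 6))
    (@En.n l42738 (nat_lit 10432) (nat_lit 6) (nat_lit 8))
    (@En.n l11084 (nat_lit 10207) (nat_lit 14) (nat_lit 9))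
    (@En.n l42739 (nat_lit 12053) (nat_lit 9) (nat_lit 11))
    (@En.n l42740 (nat_lit 10069) (nat_lit 9) (nat_lit 3))
    (@En.n l42741 (nat_lit 10049) (nat_lit 0) (nat_lit 7))
    (@En.n l42742 (nat_lit 10065) (nat_lit 12) (nat_lit 10))
    (@En.n l28207 (nat_lit 10072) (nat_lit 13) (nat_lit 13))
    (@En.n l42743 (nat_lit 10714) (nat_lit 9) (nat_lit 7))
    (@En.n l26897 (nat_lit 10048) (nat_lit 4) (nat_lit 8))
    (@En.i (nat_lit 10066) (nat_lit 15) (nat_lit 3))))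
  (@Cl.mk (nat_lit 0x300080007000d0005000b0003000b000a0008000500090005000d0006000b) (nat_lit 0x508080532040407) (nat_lit 16) Lb.e (@T16.mk En
    (@En.n l38100 (nat_lit 9361) (nat_lit 0) (nat_lit 11))
    (@En.n l33873 (nat_lit 9862) (nat_lit 7) (nat_lit 6))
    (@En.n l41663 (nat_lit 10729) (nat_lit 9) (nat_lit 13))
    (@En.n l11 (nat_lit 6220) (nat_lit 3) (nat_lit 5))
    (@En.n l41664 (nat_lit 5570) (nat_lit 10) (nat_lit 9))
    (@En.n l9856 (nat_lit 10476) (nat_lit 5) (nat_lit 5))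
    (@En.n l39723 (nat_lit 10433) (nat_lit 6) (nat_lit 8))
    (@En.n l2824 (nat_lit 10211) (nat_lit 14) (nat_lit 10))
    (@En.n l14252 (nat_lit 10425) (nat_lit 9) (nat_lit 11))
    (@En.n l19561 (nat_lit 10066) (nat_lit 9) (nat_lit 3))
    (@En.n l41665 (nat_lit 9832) (nat_lit 0) (nat_lit 11))
    (@En.i (nat_lit 9724) (nat_lit 12) (nat_lit 5))
    (@En.i (nat_lit 8756) (nat_lit 13) (nat_lit 13))
    (@En.n l6918 (nat_lit 10821) (nat_lit 9) (nat_lit 7))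
    (@En.n l41666 (nat_lit 10058) (nat_lit 4) (nat_lit 8))
    (@En.n l35811 (nat_lit 10069) (nat_lit 15) (nat_lit 3))))
  (@Cl.mk (nat_lit 0x300080007000d0006000b0003000b00090008000500090005000d000a0007) (nat_lit 0x108020525030410) (nat_lit 16) Lb.e (@T16.mk En
    (@En.n l43426 (nat_lit 6549) (nat_lit 0) (nat_lit 7))
    (@En.n l43427 (nat_lit 9959) (nat_lit 8) (nat_lit 10))
    (@En.n l20089 (nat_lit 10730) (nat_lit 9) (nat_lit 13))
    (@En.n l43428 (nat_lit 6223) (nat_lit 3) (nat_lit 5))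
    (@En.n l43429 (nat_lit 5337) (nat_lit 10) (nat_lit 9))
    (@En.n l43430 (nat_lit 10478) (nat_lit 5) (nat_lit 5))
    (@En.i (nat_lit 10430) (nat_lit 6) (nat_lit 8))
    (@En.n l43431 (nat_lit 10208) (nat_lit 14) (nat_lit 9))
    (@En.n l43432 (nat_lit 10420) (nat_lit 9) (nat_lit 11))
    (@En.n l38502 (nat_lit 10067) (nat_lit 9) (nat_lit 3))
    (@En.n l43428 (nat_lit 9834) (nat_lit 0) (nat_lit 11))
    (@En.n l43433 (nat_lit 10073) (nat_lit 12) (nat_lit 6))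
    (@En.n l15647 (nat_lit 8759) (nat_lit 13) (nat_lit 13))
    (@En.n l7454 (nat_lit 10718) (nat_lit 9) (nat_lit 7))
    (@En.n l15655 (nat_lit 9375) (nat_lit 4) (nat_lit 8))
    (@En.n l43434 (nat_lit 10068) (nat_lit 15) (nat_lit 3))))
  (@Cl.mk (nat_lit 0x5000a0006000a0007000b00080006000900060005000b000a000900080007) (nat_lit 0x208042020038700) (nat_lit 16) Lb.e (@T16.mk En
    (@En.n l43490 (nat_lit 10407) (nat_lit 9) (nat_lit 7))
    (@En.n l43491 (nat_lit 10399) (nat_lit 8) (nat_lit 8))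
    (@En.n l43492 (nat_lit 10921) (nat_lit 7) (nat_lit 9))
    (@En.n l43493 (nat_lit 11859) (nat_lit 6) (nat_lit 10))
    (@En.n l43494 (nat_lit 10405) (nat_lit 10) (nat_lit 11))
    (@En.i (nat_lit 10064) (nat_lit 11) (nat_lit 5))
    (@En.n l43495 (nat_lit 10498) (nat_lit 0) (nat_lit 6))
    (@En.n l41133 (nat_lit 7041) (nat_lit 9) (nat_lit 9))
    (@En.n l6992 (nat_lit 10833) (nat_lit 10) (nat_lit 6))
    (@En.n l28213 (nat_lit 9916) (nat_lit 0) (nat_lit 8))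
    (@En.n l43490 (nat_lit 9360) (nat_lit 8) (nat_lit 11))
    (@En.n l43496 (nat_lit 9851) (nat_lit 2) (nat_lit 7))
    (@En.n l43497 (nat_lit 11070) (nat_lit 9) (nat_lit 10))
    (@En.n l28232 (nat_lit 9335) (nat_lit 7) (nat_lit 6))
    (@En.n l36297 (nat_lit 10071) (nat_lit 10) (nat_lit 10))
    (@En.n l41130 (nat_lit 9959) (nat_lit 11) (nat_lit 5))))
  (@Cl.mk (nat_lit 0x4000b000a00090007000a000500090006000a00070006000c000900070006) (nat_lit 0x980010701002300) (nat_lit 16) Lb.e (@T16.mk En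
    (@En.n l27851 (nat_lit 10066) (nat_lit 10) (nat_lit 6))
    (@En.n l41877 (nat_lit 10054) (nat_lit 1) (nat_lit 7))
    (@En.n l41878 (nat_lit 10070) (nat_lit 7) (nat_lit 9))
    (@En.n l41879 (nat_lit 8758) (nat_lit 3) (nat_lit 12))
    (@En.n l41880 (nat_lit 10834) (nat_lit 10) (nat_lit 6))
    (@En.n l3038 (nat_lit 9917) (nat_lit 5) (nat_lit 7))
    (@En.n l41881 (nat_lit 9359) (nat_lit 9) (nat_lit 10))
    (@En.n l41882 (nat_lit 9847) (nat_lit 7) (nat_lit 6))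
    (@En.n l27844 (nat_lit 11073) (nat_lit 10) (nat_lit 9))
    (@En.n l41883 (nat_lit 10390) (nat_lit 9) (nat_lit 5))
    (@En.i (nat_lit 5595) (nat_lit 8) (nat_lit 10))
    (@En.n l41884 (nat_lit 10411) (nat_lit 1) (nat_lit 7))
    (@En.n l27848 (nat_lit 10397) (nat_lit 7) (nat_lit 9))
    (@En.n l9565 (nat_lit 10920) (nat_lit 6) (nat_lit 10))
    (@En.n l27849 (nat_lit 11858) (nat_lit 4) (nat_lit 11))
    (@En.n l27845 (nat_lit 9941) (nat_lit 12) (nat_lit 4))))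
  (@Cl.mk (nat_lit 0x30008000d000900060003000b000b00090008000700050005000d000a0007) (nat_lit 0x285003521000430) (nat_lit 16) Lb.e (@T16.mk En
    (@En.n l27767 (nat_lit 4469) (nat_lit 0) (nat_lit 7))
    (@En.i (nat_lit 8758) (nat_lit 7) (nat_lit 10))
    (@En.n l30807 (nat_lit 6855) (nat_lit 2) (nat_lit 13))
    (@En.n l30808 (nat_lit 10242) (nat_lit 11) (nat_lit 5))
    (@En.n l17351 (nat_lit 9396) (nat_lit 4) (nat_lit 5))
    (@En.n l9876 (nat_lit 10225) (nat_lit 9) (nat_lit 7))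
    (@En.n l19087 (nat_lit 8738) (nat_lit 6) (nat_lit 8))
    (@En.i (nat_lit 10179) (nat_lit 13) (nat_lit 9))
    (@En.n l30809 (nat_lit 10222) (nat_lit 5) (nat_lit 11))
    (@En.n l28232 (nat_lit 10065) (nat_lit 10) (nat_lit 11))
    (@En.n l30810 (nat_lit 8759) (nat_lit 10) (nat_lit 3))
    (@En.n l18749 (nat_lit 7984) (nat_lit 0) (nat_lit 6))
    (@En.n l19087 (nat_lit 6040) (nat_lit 13) (nat_lit 9))
    (@En.i (nat_lit 8504) (nat_lit 2) (nat_lit 13))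
    (@En.n l11547 (nat_lit 11703) (nat_lit 3) (nat_lit 8))
    (@En.n l7 (nat_lit 8757) (nat_lit 15) (nat_lit 3))))
  (@Cl.mk (nat_lit 0x4000900080006000b0007000b00080007000500080005000c000a00090008) (nat_lit 0x130207400105513) (nat_lit 16) Lb.e (@T16.mk En
    (@En.n l55 (nat_lit 12016) (nat_lit 8) (nat_lit 8))
    (@En.n l41123 (nat_lit 10067) (nat_lit 1) (nat_lit 9))
    (@En.n l3866 (nat_lit 9944) (nat_lit 6) (nat_lit 10))
    (@En.n l30408 (nat_lit 11857) (nat_lit 3) (nat_lit 12))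
    (@En.n l38417 (nat_lit 9812) (nat_lit 4) (nat_lit 5))
    (@En.n l41123 (nat_lit 6587) (nat_lit 10) (nat_lit 8))
    (@En.n l20938 (nat_lit 11901) (nat_lit 11) (nat_lit 5))
    (@En.n l34005 (nat_lit 10087) (nat_lit 9) (nat_lit 7))
    (@En.n l31397 (nat_lit 10739) (nat_lit 1) (nat_lit 8))
    (@En.n l41124 (nat_lit 9734) (nat_lit 8) (nat_lit 11))
    (@En.i (nat_lit 9515) (nat_lit 11) (nat_lit 7))
    (@En.n l38417 (nat_lit 10083) (nat_lit 12) (nat_lit 11))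
    (@En.n l20938 (nat_lit 10275) (nat_lit 10) (nat_lit 6))
    (@En.i (nat_lit 11772) (nat_lit 8) (nat_lit 8))
    (@En.n l23341 (nat_lit 9455) (nat_lit 11) (nat_lit 9))
    (@En.n l28066 (nat_lit 9724) (nat_lit 15) (nat_lit 4))))
  (@Cl.mk (nat_lit 0x3000900040008000b0006000c000b00070005000400080005000d000c000a) (nat_lit 0x204109400040781) (nat_lit 16) Lb.e (@T16.mk En
    (@En.i (nat_lit 9354) (nat_lit 0) (nat_lit 10))
    (@En.n l5754 (nat_lit 10434) (nat_lit 4) (nat_lit 12))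
    (@En.n l16214 (nat_lit 10558) (nat_lit 2) (nat_lit 13))
    (@En.n l5757 (nat_lit 8137) (nat_lit 3) (nat_lit 5))
    (@En.n l899 (nat_lit 10075) (nat_lit 4) (nat_lit 8))
    (@En.n l29769 (nat_lit 10433) (nat_lit 5) (nat_lit 4))
    (@En.n l7899 (nat_lit 4322) (nat_lit 0) (nat_lit 5))
    (@En.n l6814 (nat_lit 8248) (nat_lit 1) (nat_lit 7))
    (@En.n l29517 (nat_lit 10483) (nat_lit 9) (nat_lit 11))
    (@En.n l5757 (nat_lit 8723) (nat_lit 10) (nat_lit 12))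
    (@En.n l32365 (nat_lit 9712) (nat_lit 4) (nat_lit 6))
    (@En.n l13935 (nat_lit 2315) (nat_lit 7) (nat_lit 11))
    (@En.n l20225 (nat_lit 10469) (nat_lit 13) (nat_lit 8))
    (@En.i (nat_lit 9576) (nat_lit 14) (nat_lit 4))
    (@En.n l29769 (nat_lit 10063) (nat_lit 0) (nat_lit 9))
    (@En.n l15619 (nat_lit 10435) (nat_lit 1) (nat_lit 3))))
  (@Cl.mk (nat_lit 0x3000800040008000d000b00070003000c0008000500080004000d000c0009) (nat_lit 0x204b20051030172) (nat_lit 16) Lb.e (@T16.mk En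
    (@En.i (nat_lit 9357) (nat_lit 0) (nat_lit 9))
    (@En.n l7654 (nat_lit 10431) (nat_lit 4) (nat_lit 12))
    (@En.n l12001 (nat_lit 54) (nat_lit 2) (nat_lit 13))
    (@En.n l4822 (nat_lit 10384) (nat_lit 3) (nat_lit 4))
    (@En.i (nat_lit 5528) (nat_lit 10) (nat_lit 8))
    (@En.n l6900 (nat_lit 4302) (nat_lit 5) (nat_lit 5))
    (@En.n l718 (nat_lit 8247) (nat_lit 14) (nat_lit 8))
    (@En.n l7645 (nat_lit 10485) (nat_lit 8) (nat_lit 12))
    (@En.n l25092 (nat_lit 10433) (nat_lit 8) (nat_lit 3))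
    (@En.n l3098 (nat_lit 9456) (nat_lit 0) (nat_lit 7))
    (@En.n l2642 (nat_lit 10074) (nat_lit 11) (nat_lit 11))
    (@En.n l25091 (nat_lit 8642) (nat_lit 12) (nat_lit 13))
    (@En.n l22348 (nat_lit 10214) (nat_lit 13) (nat_lit 8))
    (@En.i (nat_lit 8129) (nat_lit 4) (nat_lit 4))
    (@En.n l4033 (nat_lit 10056) (nat_lit 0) (nat_lit 8))
    (@En.n l31481 (nat_lit 10432) (nat_lit 15) (nat_lit 3))))
  (@Cl.mk (nat_lit 0x4000a00080006000b000a00070006000a000500080006000c000a00060009) (nat_lit 0x250850030407003) (nat_lit 16) Lb.e (@T16.mk En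
    (@En.n l35053 (nat_lit 11380) (nat_lit 9) (nat_lit 9))
    (@En.n l3506 (nat_lit 3304) (nat_lit 1) (nat_lit 6))
    (@En.n l31947 (nat_lit 10498) (nat_lit 6) (nat_lit 10))
    (@En.i (nat_lit 9921) (nat_lit 3) (nat_lit 12))
    (@En.n l42226 (nat_lit 8145) (nat_lit 10) (nat_lit 6))
    (@En.n l42227 (nat_lit 10049) (nat_lit 10) (nat_lit 8))
    (@En.n l26274 (nat_lit 10073) (nat_lit 6) (nat_lit 5))
    (@En.n l42228 (nat_lit 9823) (nat_lit 9) (nat_lit 10))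
    (@En.n l1003 (nat_lit 9822) (nat_lit 10) (nat_lit 6))
    (@En.n l17 (nat_lit 10045) (nat_lit 2) (nat_lit 7))
    (@En.n l35053 (nat_lit 9818) (nat_lit 6) (nat_lit 10))
    (@En.n l7 (nat_lit 10077) (nat_lit 9) (nat_lit 11))
    (@En.n l644 (nat_lit 10591) (nat_lit 10) (nat_lit 6))
    (@En.n l35053 (nat_lit 4319) (nat_lit 8) (nat_lit 8))
    (@En.n l36258 (nat_lit 9319) (nat_lit 1) (nat_lit 10))
    (@En.n l35498 (nat_lit 9477) (nat_lit 15) (nat_lit 4))))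
  (@Cl.mk (nat_lit 0x40007000a0004000b0008000b00090006000500090005000c00080007000c) (nat_lit 0x30257400308504) (nat_lit 16) Lb.e (@T16.mk En
    (@En.i (nat_lit 11863) (nat_lit 0) (nat_lit 12))
    (@En.n l28307 (nat_lit 8458) (nat_lit 1) (nat_lit 7))
    (@En.i (nat_lit 10076) (nat_lit 5) (nat_lit 8))
    (@En.i (nat_lit 10078) (nat_lit 3) (nat_lit 12))
    (@En.n l35907 (nat_lit 10083) (nat_lit 7) (nat_lit 5))
    (@En.n l16218 (nat_lit 10079) (nat_lit 10) (nat_lit 9))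
    (@En.n l1003 (nat_lit 10081) (nat_lit 11) (nat_lit 5))
    (@En.n l17 (nat_lit 12190) (nat_lit 7) (nat_lit 6))
    (@En.i (nat_lit 8480) (nat_lit 1) (nat_lit 9))
    (@En.i (nat_lit 9574) (nat_lit 7) (nat_lit 11))
    (@En.i (nat_lit 9844) (nat_lit 14) (nat_lit 8))
    (@En.n l10139 (nat_lit 9420) (nat_lit 12) (nat_lit 11))
    (@En.i (nat_lit 9476) (nat_lit 15) (nat_lit 4))
    (@En.n l2299 (nat_lit 11382) (nat_lit 8) (nat_lit 10))
    (@En.i (nat_lit 3303) (nat_lit 11) (nat_lit 7))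
    (@En.i (nat_lit 10553) (nat_lit 15) (nat_lit 4))))
  (@Cl.mk (nat_lit 0x4000a0007000a0005000b00090006000a000600050009000c00070006000b) (nat_lit 0x104045040037007) (nat_lit 16) Lb.e (@T16.mk En
    (@En.i (nat_lit 11862) (nat_lit 0) (nat_lit 11))
    (@En.n l41125 (nat_lit 8456) (nat_lit 10) (nat_lit 6))
    (@En.n l41126 (nat_lit 9515) (nat_lit 6) (nat_lit 7))
    (@En.n l41127 (nat_lit 11159) (nat_lit 6) (nat_lit 12))
    (@En.n l16218 (nat_lit 10080) (nat_lit 10) (nat_lit 9))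
    (@En.n l1003 (nat_lit 10082) (nat_lit 11) (nat_lit 5))
    (@En.n l17 (nat_lit 12191) (nat_lit 6) (nat_lit 6))
    (@En.n l35057 (nat_lit 8366) (nat_lit 9) (nat_lit 10))
    (@En.n l601 (nat_lit 10597) (nat_lit 2) (nat_lit 6))
    (@En.n l41126 (nat_lit 9843) (nat_lit 7) (nat_lit 9))
    (@En.n l41128 (nat_lit 9421) (nat_lit 11) (nat_lit 11))
    (@En.n l37961 (nat_lit 9480) (nat_lit 5) (nat_lit 5))
    (@En.n l41126 (nat_lit 11383) (nat_lit 8) (nat_lit 10))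
    (@En.n l28 (nat_lit 10077) (nat_lit 14) (nat_lit 7))
    (@En.n l77 (nat_lit 10076) (nat_lit 2) (nat_lit 10))
    (@En.n l41129 (nat_lit 10555) (nat_lit 15) (nat_lit 4))))
  (@Cl.mk (nat_lit 0x30009000c000a000600090004000c00070006000b00040007000d000a0005) (nat_lit 0x683020300700240) (nat_lit 16) Lb.e (@T16.mk En
    (@En.n l3348 (nat_lit 9482) (nat_lit 0) (nat_lit 5))
    (@En.n l899 (nat_lit 10077) (nat_lit 13) (nat_lit 10))
    (@En.n l5891 (nat_lit 11844) (nat_lit 2) (nat_lit 13))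
    (@En.i (nat_lit 3305) (nat_lit 11) (nat_lit 7))
    (@En.n l29923 (nat_lit 10552) (nat_lit 4) (nat_lit 4))
    (@En.n l17133 (nat_lit 11955) (nat_lit 0) (nat_lit 11))
    (@En.n l38509 (nat_lit 8457) (nat_lit 1) (nat_lit 6))
    (@En.n l29375 (nat_lit 9823) (nat_lit 7) (nat_lit 7))
    (@En.i (nat_lit 10080) (nat_lit 9) (nat_lit 12))
    (@En.n l28788 (nat_lit 10084) (nat_lit 9) (nat_lit 4))
    (@En.n l17133 (nat_lit 4493) (nat_lit 9) (nat_lit 9))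
    (@En.n l6080 (nat_lit 12184) (nat_lit 1) (nat_lit 6))
    (@En.n l22681 (nat_lit 8365) (nat_lit 13) (nat_lit 10))
    (@En.n l17133 (nat_lit 9572) (nat_lit 6) (nat_lit 12))
    (@En.n l10794 (nat_lit 9846) (nat_lit 4) (nat_lit 9))
    (@En.n l18 (nat_lit 10081) (nat_lit 15) (nat_lit 3))))
noncomputable def a630 : T16 Cl := @T16.mk Cl
  (@Cl.mk (nat_lit 0x3000a0007000b00060009000c00060005000a000400090007000d000a0006) (nat_lit 0x703022006050350) (nat_lit 16) Lb.e (@T16.mk En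
    (@En.n l3348 (nat_lit 9484) (nat_lit 0) (nat_lit 6))
    (@En.n l899 (nat_lit 10078) (nat_lit 12) (nat_lit 10))
    (@En.n l38403 (nat_lit 11846) (nat_lit 2) (nat_lit 13))
    (@En.n l11 (nat_lit 10079) (nat_lit 3) (nat_lit 7))
    (@En.n l38404 (nat_lit 9823) (nat_lit 4) (nat_lit 9))
    (@En.n l38405 (nat_lit 10554) (nat_lit 5) (nat_lit 4))
    (@En.n l17133 (nat_lit 11957) (nat_lit 0) (nat_lit 10))
    (@En.n l38406 (nat_lit 8455) (nat_lit 11) (nat_lit 5))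
    (@En.n l38407 (nat_lit 10048) (nat_lit 8) (nat_lit 6))
    (@En.n l14963 (nat_lit 11617) (nat_lit 6) (nat_lit 12))
    (@En.n l17133 (nat_lit 4495) (nat_lit 9) (nat_lit 9))
    (@En.n l6080 (nat_lit 12192) (nat_lit 5) (nat_lit 6))
    (@En.n l38408 (nat_lit 8361) (nat_lit 8) (nat_lit 11))
    (@En.n l38409 (nat_lit 10600) (nat_lit 14) (nat_lit 7))
    (@En.n l10794 (nat_lit 9842) (nat_lit 2) (nat_lit 10))
    (@En.n l18 (nat_lit 10082) (nat_lit 15) (nat_lit 3))))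
  (@Cl.mk (nat_lit 0x30009000c000a000500090004000c00070006000c00040007000d0004000b) (nat_lit 0x633030700900209) (nat_lit 16) Lb.e (@T16.mk En
    (@En.n l5377 (nat_lit 9507) (nat_lit 0) (nat_lit 11))
    (@En.i (nat_lit 9571) (nat_lit 15) (nat_lit 4))
    (@En.n l5891 (nat_lit 11841) (nat_lit 0) (nat_lit 13))
    (@En.i (nat_lit 3309) (nat_lit 11) (nat_lit 7))
    (@En.i (nat_lit 10557) (nat_lit 4) (nat_lit 4))
    (@En.n l899 (nat_lit 11719) (nat_lit 0) (nat_lit 12))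
    (@En.n l2605 (nat_lit 8453) (nat_lit 10) (nat_lit 6))
    (@En.i (nat_lit 9822) (nat_lit 7) (nat_lit 7))
    (@En.i (nat_lit 10082) (nat_lit 9) (nat_lit 12))
    (@En.n l28788 (nat_lit 10085) (nat_lit 9) (nat_lit 4))
    (@En.n l617 (nat_lit 4494) (nat_lit 10) (nat_lit 9))
    (@En.n l2125 (nat_lit 10658) (nat_lit 1) (nat_lit 5))
    (@En.n l22681 (nat_lit 8364) (nat_lit 13) (nat_lit 10))
    (@En.n l899 (nat_lit 9573) (nat_lit 6) (nat_lit 12))
    (@En.n l9182 (nat_lit 9696) (nat_lit 2) (nat_lit 9))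
    (@En.i (nat_lit 10079) (nat_lit 15) (nat_lit 3))))
  (@Cl.mk (nat_lit 0x3000a0007000b00050009000c00060005000b000400090007000d0005000b) (nat_lit 0x703036003010302) (nat_lit 16) Lb.e (@T16.mk En
    (@En.n l32235 (nat_lit 9506) (nat_lit 0) (nat_lit 11))
    (@En.i (nat_lit 9713) (nat_lit 5) (nat_lit 5))
    (@En.n l16638 (nat_lit 11845) (nat_lit 2) (nat_lit 13))
    (@En.n l11 (nat_lit 10081) (nat_lit 3) (nat_lit 7))
    (@En.n l55 (nat_lit 9822) (nat_lit 4) (nat_lit 9))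
    (@En.n l35114 (nat_lit 10556) (nat_lit 5) (nat_lit 4))
    (@En.n l899 (nat_lit 11717) (nat_lit 0) (nat_lit 11))
    (@En.n l43373 (nat_lit 8454) (nat_lit 11) (nat_lit 5))
    (@En.n l43446 (nat_lit 9375) (nat_lit 8) (nat_lit 6))
    (@En.n l32430 (nat_lit 11616) (nat_lit 6) (nat_lit 12))
    (@En.n l34251 (nat_lit 4496) (nat_lit 10) (nat_lit 9))
    (@En.n l2125 (nat_lit 10657) (nat_lit 5) (nat_lit 5))
    (@En.n l16638 (nat_lit 8360) (nat_lit 8) (nat_lit 11))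
    (@En.n l31120 (nat_lit 10603) (nat_lit 14) (nat_lit 7))
    (@En.n l9182 (nat_lit 10650) (nat_lit 2) (nat_lit 10))
    (@En.i (nat_lit 10080) (nat_lit 15) (nat_lit 3))))
  (@Cl.mk (nat_lit 0x4000a0008000b0006000a000700060005000c00080006000c0004000a0009) (nat_lit 0x131060008206013) (nat_lit 16) Lb.e (@T16.mk En
    (@En.n l28178 (nat_lit 11951) (nat_lit 7) (nat_lit 9))
    (@En.n l3506 (nat_lit 10065) (nat_lit 1) (nat_lit 10))
    (@En.n l28179 (nat_lit 10406) (nat_lit 15) (nat_lit 4))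
    (@En.n l28180 (nat_lit 11856) (nat_lit 0) (nat_lit 12))
    (@En.i (nat_lit 6850) (nat_lit 1) (nat_lit 6))
    (@En.n l28181 (nat_lit 10073) (nat_lit 5) (nat_lit 8))
    (@En.n l28182 (nat_lit 10276) (nat_lit 3) (nat_lit 12))
    (@En.n l28183 (nat_lit 11994) (nat_lit 11) (nat_lit 5))
    (@En.n l17 (nat_lit 10085) (nat_lit 10) (nat_lit 6))
    (@En.n l28183 (nat_lit 10740) (nat_lit 6) (nat_lit 7))
    (@En.i (nat_lit 9733) (nat_lit 9) (nat_lit 10))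
    (@En.n l28184 (nat_lit 10078) (nat_lit 8) (nat_lit 6))
    (@En.n l28180 (nat_lit 8128) (nat_lit 7) (nat_lit 11))
    (@En.n l28185 (nat_lit 11776) (nat_lit 8) (nat_lit 8))
    (@En.n l28179 (nat_lit 9429) (nat_lit 12) (nat_lit 10))
    (@En.n l28186 (nat_lit 9725) (nat_lit 15) (nat_lit 4))))
  (@Cl.mk (nat_lit 0x30009000c0007000b00070004000c00070005000b00040009000d00090005) (nat_lit 0x420500600900840) (nat_lit 16) Lb.e (@T16.mk En
    (@En.n l16289 (nat_lit 9467) (nat_lit 0) (nat_lit 5))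
    (@En.n l61 (nat_lit 10083) (nat_lit 0) (nat_lit 9))
    (@En.n l564 (nat_lit 10297) (nat_lit 6) (nat_lit 13))
    (@En.n l3506 (nat_lit 10434) (nat_lit 3) (nat_lit 9))
    (@En.n l3503 (nat_lit 10404) (nat_lit 4) (nat_lit 4))
    (@En.n l32518 (nat_lit 11953) (nat_lit 0) (nat_lit 11))
    (@En.i (nat_lit 6851) (nat_lit 1) (nat_lit 5))
    (@En.n l32519 (nat_lit 10086) (nat_lit 7) (nat_lit 7))
    (@En.n l9882 (nat_lit 10704) (nat_lit 9) (nat_lit 12))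
    (@En.n l19271 (nat_lit 10088) (nat_lit 9) (nat_lit 4))
    (@En.n l32520 (nat_lit 12160) (nat_lit 0) (nat_lit 7))
    (@En.i (nat_lit 9084) (nat_lit 12) (nat_lit 11))
    (@En.n l32521 (nat_lit 10080) (nat_lit 13) (nat_lit 7))
    (@En.n l3866 (nat_lit 8125) (nat_lit 6) (nat_lit 12))
    (@En.n l32522 (nat_lit 11085) (nat_lit 4) (nat_lit 9))
    (@En.n l18 (nat_lit 10085) (nat_lit 15) (nat_lit 3))))
  (@Cl.mk (nat_lit 0x30009000c0007000b00060004000c00070005000c00040009000d0004000a) (nat_lit 0x430300600800202) (nat_lit 16) Lb.e (@T16.mk En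
    (@En.n l22592 (nat_lit 9509) (nat_lit 0) (nat_lit 10))
    (@En.n l13355 (nat_lit 9570) (nat_lit 15) (nat_lit 4))
    (@En.n l564 (nat_lit 10296) (nat_lit 0) (nat_lit 13))
    (@En.n l3506 (nat_lit 10435) (nat_lit 3) (nat_lit 9))
    (@En.n l3505 (nat_lit 10403) (nat_lit 4) (nat_lit 4))
    (@En.n l41026 (nat_lit 11741) (nat_lit 0) (nat_lit 12))
    (@En.i (nat_lit 6849) (nat_lit 1) (nat_lit 5))
    (@En.n l38817 (nat_lit 10087) (nat_lit 7) (nat_lit 7))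
    (@En.n l9882 (nat_lit 10702) (nat_lit 9) (nat_lit 12))
    (@En.n l19271 (nat_lit 9585) (nat_lit 9) (nat_lit 4))
    (@En.n l13355 (nat_lit 10672) (nat_lit 0) (nat_lit 6))
    (@En.i (nat_lit 8549) (nat_lit 12) (nat_lit 11))
    (@En.n l32521 (nat_lit 10082) (nat_lit 13) (nat_lit 7))
    (@En.n l3866 (nat_lit 8127) (nat_lit 6) (nat_lit 12))
    (@En.n l28167 (nat_lit 11780) (nat_lit 4) (nat_lit 9))
    (@En.i (nat_lit 10084) (nat_lit 15) (nat_lit 3))))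
  (@Cl.mk (nat_lit 0x300090007000c0008000c0008000400070004000b00090008000d00080005) (nat_lit 0x403263000350240) (nat_lit 16) Lb.e (@T16.mk En
    (@En.n l18 (nat_lit 9466) (nat_lit 0) (nat_lit 5))
    (@En.n l38871 (nat_lit 10073) (nat_lit 0) (nat_lit 8))
    (@En.n l117 (nat_lit 12036) (nat_lit 2) (nat_lit 13))
    (@En.n l23711 (nat_lit 10431) (nat_lit 3) (nat_lit 8))
    (@En.n l42229 (nat_lit 9946) (nat_lit 4) (nat_lit 9))
    (@En.n l42230 (nat_lit 11952) (nat_lit 13) (nat_lit 11))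
    (@En.n l42231 (nat_lit 9814) (nat_lit 6) (nat_lit 4))
    (@En.n l23711 (nat_lit 6528) (nat_lit 11) (nat_lit 7))
    (@En.n l39029 (nat_lit 9819) (nat_lit 8) (nat_lit 4))
    (@En.i (nat_lit 12159) (nat_lit 0) (nat_lit 8))
    (@En.n l27810 (nat_lit 9092) (nat_lit 1) (nat_lit 12))
    (@En.n l27812 (nat_lit 10048) (nat_lit 12) (nat_lit 8))
    (@En.n l42231 (nat_lit 10084) (nat_lit 13) (nat_lit 12))
    (@En.n l42229 (nat_lit 10693) (nat_lit 14) (nat_lit 7))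
    (@En.n l38871 (nat_lit 11084) (nat_lit 5) (nat_lit 9))
    (@En.n l3519 (nat_lit 10087) (nat_lit 15) (nat_lit 3))))
  (@Cl.mk (nat_lit 0x300090007000c0008000c0007000400070004000c00090008000d00040009) (nat_lit 0x404140000a50302) (nat_lit 16) Lb.e (@T16.mk En
    (@En.n l19666 (nat_lit 9510) (nat_lit 0) (nat_lit 9))
    (@En.n l5385 (nat_lit 9715) (nat_lit 8) (nat_lit 4))
    (@En.n l810 (nat_lit 10298) (nat_lit 0) (nat_lit 13))
    (@En.n l77 (nat_lit 10432) (nat_lit 1) (nat_lit 8))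
    (@En.n l40503 (nat_lit 9945) (nat_lit 4) (nat_lit 9))
    (@En.n l3384 (nat_lit 11740) (nat_lit 13) (nat_lit 12))
    (@En.n l25506 (nat_lit 9813) (nat_lit 6) (nat_lit 4))
    (@En.n l2272 (nat_lit 6577) (nat_lit 11) (nat_lit 7))
    (@En.n l40504 (nat_lit 9820) (nat_lit 8) (nat_lit 4))
    (@En.n l61 (nat_lit 10671) (nat_lit 0) (nat_lit 7))
    (@En.n l19666 (nat_lit 8548) (nat_lit 1) (nat_lit 12))
    (@En.n l40475 (nat_lit 9375) (nat_lit 12) (nat_lit 8))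
    (@En.n l25506 (nat_lit 10085) (nat_lit 13) (nat_lit 12))
    (@En.n l40505 (nat_lit 10692) (nat_lit 14) (nat_lit 7))
    (@En.n l20092 (nat_lit 11779) (nat_lit 5) (nat_lit 9))
    (@En.n l2832 (nat_lit 10086) (nat_lit 15) (nat_lit 3))))
  (@Cl.mk (nat_lit 0x30009000c00050008000c0004000c00070004000b00040008000d000b0005) (nat_lit 0x510140600302230) (nat_lit 16) Lb.e (@T16.mk En
    (@En.n l34959 (nat_lit 9276) (nat_lit 0) (nat_lit 5))
    (@En.n l77 (nat_lit 10089) (nat_lit 13) (nat_lit 11))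
    (@En.i (nat_lit 8336) (nat_lit 2) (nat_lit 13))
    (@En.n l34960 (nat_lit 4251) (nat_lit 11) (nat_lit 8))
    (@En.n l34961 (nat_lit 10585) (nat_lit 4) (nat_lit 4))
    (@En.n l9724 (nat_lit 10567) (nat_lit 0) (nat_lit 11))
    (@En.n l34962 (nat_lit 8363) (nat_lit 1) (nat_lit 4))
    (@En.n l34963 (nat_lit 9819) (nat_lit 7) (nat_lit 7))
    (@En.n l11294 (nat_lit 10210) (nat_lit 1) (nat_lit 12))
    (@En.n l13375 (nat_lit 10079) (nat_lit 9) (nat_lit 4))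
    (@En.n l245 (nat_lit 9094) (nat_lit 11) (nat_lit 12))
    (@En.n l34964 (nat_lit 4492) (nat_lit 10) (nat_lit 8))
    (@En.n l10108 (nat_lit 10305) (nat_lit 7) (nat_lit 5))
    (@En.i (nat_lit 7631) (nat_lit 6) (nat_lit 12))
    (@En.n l34965 (nat_lit 10642) (nat_lit 1) (nat_lit 9))
    (@En.n l28 (nat_lit 9585) (nat_lit 15) (nat_lit 3))))
  (@Cl.mk (nat_lit 0x40008000b0004000c0008000b000500040008000c0005000c00080004000c) (nat_lit 0x220241002507603) (nat_lit 16) Lb.e (@T16.mk En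
    (@En.n l5560 (nat_lit 10568) (nat_lit 0) (nat_lit 12))
    (@En.n l32514 (nat_lit 8367) (nat_lit 1) (nat_lit 4))
    (@En.n l11001 (nat_lit 9821) (nat_lit 0) (nat_lit 8))
    (@En.n l32515 (nat_lit 10212) (nat_lit 1) (nat_lit 12))
    (@En.n l5560 (nat_lit 10077) (nat_lit 4) (nat_lit 5))
    (@En.n l245 (nat_lit 10286) (nat_lit 7) (nat_lit 12))
    (@En.n l4172 (nat_lit 10088) (nat_lit 11) (nat_lit 8))
    (@En.n l7 (nat_lit 9585) (nat_lit 12) (nat_lit 4))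
    (@En.n l32516 (nat_lit 10306) (nat_lit 0) (nat_lit 5))
    (@En.i (nat_lit 7632) (nat_lit 7) (nat_lit 11))
    (@En.n l763 (nat_lit 10641) (nat_lit 14) (nat_lit 8))
    (@En.n l5592 (nat_lit 7394) (nat_lit 2) (nat_lit 12))
    (@En.n l32517 (nat_lit 9693) (nat_lit 4) (nat_lit 4))
    (@En.i (nat_lit 8588) (nat_lit 7) (nat_lit 11))
    (@En.n l250 (nat_lit 4295) (nat_lit 11) (nat_lit 8))
    (@En.n l117 (nat_lit 10580) (nat_lit 7) (nat_lit 4))))
  (@Cl.mk (nat_lit 0x20007000a00070007000c000b0008000600040009000500090009000e0008) (nat_lit 0x200581002075b6) (nat_lit 16) Lb.e (@T16.mk En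
    (@En.n l27143 (nat_lit 10042) (nat_lit 10) (nat_lit 8))
    (@En.n l9943 (nat_lit 9456) (nat_lit 1) (nat_lit 14))
    (@En.n l61 (nat_lit 10092) (nat_lit 2) (nat_lit 9))
    (@En.n l24208 (nat_lit 11379) (nat_lit 3) (nat_lit 9))
    (@En.n l4658 (nat_lit 3186) (nat_lit 4) (nat_lit 5))
    (@En.n l27144 (nat_lit 10091) (nat_lit 5) (nat_lit 9))
    (@En.n l152 (nat_lit 7582) (nat_lit 6) (nat_lit 4))
    (@En.n l27145 (nat_lit 4552) (nat_lit 7) (nat_lit 6))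
    (@En.n l55 (nat_lit 55) (nat_lit 1) (nat_lit 8))
    (@En.n l9692 (nat_lit 9856) (nat_lit 10) (nat_lit 11))
    (@En.n l24208 (nat_lit 9357) (nat_lit 11) (nat_lit 12))
    (@En.n l27146 (nat_lit 6457) (nat_lit 12) (nat_lit 7))
    (@En.n l27147 (nat_lit 9568) (nat_lit 13) (nat_lit 7))
    (@En.n l24208 (nat_lit 5250) (nat_lit 8) (nat_lit 10))
    (@En.n l5934 (nat_lit 12191) (nat_lit 13) (nat_lit 7))
    (@En.n l7 (nat_lit 10090) (nat_lit 15) (nat_lit 2))))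
  (@Cl.mk (nat_lit 0x20007000c000a000800080004000c000900060009000400080008000e0007) (nat_lit 0x433108701064a0) (nat_lit 16) Lb.e (@T16.mk En
    (@En.i (nat_lit 10044) (nat_lit 6) (nat_lit 7))
    (@En.n l17581 (nat_lit 9430) (nat_lit 1) (nat_lit 14))
    (@En.n l17582 (nat_lit 10093) (nat_lit 8) (nat_lit 8))
    (@En.n l7138 (nat_lit 11381) (nat_lit 3) (nat_lit 8))
    (@En.n l1643 (nat_lit 5051) (nat_lit 4) (nat_lit 4))
    (@En.i (nat_lit 2057) (nat_lit 5) (nat_lit 9))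
    (@En.n l170 (nat_lit 4551) (nat_lit 6) (nat_lit 6))
    (@En.n l17583 (nat_lit 10605) (nat_lit 8) (nat_lit 9))
    (@En.n l17584 (nat_lit 9858) (nat_lit 9) (nat_lit 12))
    (@En.n l17585 (nat_lit 9632) (nat_lit 9) (nat_lit 4))
    (@En.n l644 (nat_lit 6455) (nat_lit 11) (nat_lit 8))
    (@En.i (nat_lit 9631) (nat_lit 12) (nat_lit 8))
    (@En.n l17586 (nat_lit 10090) (nat_lit 13) (nat_lit 10))
    (@En.n l4684 (nat_lit 10094) (nat_lit 14) (nat_lit 12))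
    (@En.n l10036 (nat_lit 12192) (nat_lit 13) (nat_lit 7))
    (@En.n l17 (nat_lit 10091) (nat_lit 15) (nat_lit 2))))
  (@Cl.mk (nat_lit 0x200060009000e00070002000c000b000900070004000a00050009000e0007) (nat_lit 0x430069300204b0) (nat_lit 16) Lb.e (@T16.mk En
    (@En.n l11512 (nat_lit 10038) (nat_lit 5) (nat_lit 7))
    (@En.i (nat_lit 5878) (nat_lit 1) (nat_lit 14))
    (@En.n l17564 (nat_lit 11905) (nat_lit 2) (nat_lit 9))
    (@En.i (nat_lit 4965) (nat_lit 3) (nat_lit 5))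
    (@En.n l1690 (nat_lit 10093) (nat_lit 10) (nat_lit 10))
    (@En.n l152 (nat_lit 7581) (nat_lit 5) (nat_lit 4))
    (@En.n l17565 (nat_lit 4559) (nat_lit 6) (nat_lit 7))
    (@En.n l55 (nat_lit 12074) (nat_lit 13) (nat_lit 9))
    (@En.n l619 (nat_lit 9860) (nat_lit 9) (nat_lit 11))
    (@En.i (nat_lit 9599) (nat_lit 10) (nat_lit 12))
    (@En.n l17 (nat_lit 10092) (nat_lit 10) (nat_lit 2))
    (@En.i (nat_lit 10090) (nat_lit 12) (nat_lit 7))
    (@En.i (nat_lit 9119) (nat_lit 13) (nat_lit 14))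
    (@En.n l17566 (nat_lit 5712) (nat_lit 9) (nat_lit 9))
    (@En.n l5934 (nat_lit 12171) (nat_lit 3) (nat_lit 6))
    (@En.n l7 (nat_lit 10092) (nat_lit 15) (nat_lit 2))))
  (@Cl.mk (nat_lit 0x20005000c000a0007000a00040008000e000600020006000b0009000e0008) (nat_lit 0xa80103a0004544) (nat_lit 16) Lb.e (@T16.mk En
    (@En.n l7105 (nat_lit 10091) (nat_lit 11) (nat_lit 8))
    (@En.n l3 (nat_lit 7581) (nat_lit 12) (nat_lit 14))
    (@En.n l3 (nat_lit 10092) (nat_lit 13) (nat_lit 9))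
    (@En.n l7106 (nat_lit 10095) (nat_lit 3) (nat_lit 11))
    (@En.n l5934 (nat_lit 12166) (nat_lit 4) (nat_lit 6))
    (@En.n l7 (nat_lit 10093) (nat_lit 5) (nat_lit 2))
    (@En.n l3188 (nat_lit 7583) (nat_lit 6) (nat_lit 6))
    (@En.i (nat_lit 5879) (nat_lit 8) (nat_lit 14))
    (@En.n l7107 (nat_lit 11909) (nat_lit 2) (nat_lit 8))
    (@En.n l5047 (nat_lit 5059) (nat_lit 9) (nat_lit 4))
    (@En.n l2124 (nat_lit 2064) (nat_lit 11) (nat_lit 10))
    (@En.n l7108 (nat_lit 4557) (nat_lit 5) (nat_lit 7))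
    (@En.n l3188 (nat_lit 12077) (nat_lit 13) (nat_lit 10))
    (@En.n l3105 (nat_lit 9863) (nat_lit 8) (nat_lit 12))
    (@En.n l3106 (nat_lit 12841) (nat_lit 8) (nat_lit 5))
    (@En.n l17 (nat_lit 10093) (nat_lit 15) (nat_lit 2))))
  (@Cl.mk (nat_lit 0x2000c0009000700070004000c000c000900070004000400090009000e0007) (nat_lit 0x340006950003480) (nat_lit 16) Lb.e (@T16.mk En
    (@En.n l15904 (nat_lit 10096) (nat_lit 5) (nat_lit 7))
    (@En.n l20778 (nat_lit 4626) (nat_lit 1) (nat_lit 14))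
    (@En.n l3064 (nat_lit 10095) (nat_lit 7) (nat_lit 9))
    (@En.n l20346 (nat_lit 11051) (nat_lit 3) (nat_lit 9))
    (@En.n l20849 (nat_lit 10101) (nat_lit 12) (nat_lit 4))
    (@En.n l20778 (nat_lit 12113) (nat_lit 5) (nat_lit 4))
    (@En.i (nat_lit 4882) (nat_lit 6) (nat_lit 7))
    (@En.n l6067 (nat_lit 12065) (nat_lit 1) (nat_lit 9))
    (@En.n l61 (nat_lit 10102) (nat_lit 4) (nat_lit 12))
    (@En.n l20850 (nat_lit 10090) (nat_lit 10) (nat_lit 12))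
    (@En.n l20851 (nat_lit 12625) (nat_lit 10) (nat_lit 4))
    (@En.n l152 (nat_lit 10103) (nat_lit 12) (nat_lit 7))
    (@En.n l20715 (nat_lit 11067) (nat_lit 13) (nat_lit 7))
    (@En.i (nat_lit 5723) (nat_lit 14) (nat_lit 9))
    (@En.n l3766 (nat_lit 9241) (nat_lit 9) (nat_lit 12))
    (@En.n l11 (nat_lit 10094) (nat_lit 15) (nat_lit 2))))
  (@Cl.mk (nat_lit 0x20005000c000c000a0008000400040009000e00060002000b0008000e0007) (nat_lit 0x7a7300370034b0) (nat_lit 16) Lb.e (@T16.mk En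
    (@En.n l8963 (nat_lit 10094) (nat_lit 12) (nat_lit 7))
    (@En.n l8964 (nat_lit 10098) (nat_lit 1) (nat_lit 14))
    (@En.n l8965 (nat_lit 5722) (nat_lit 14) (nat_lit 8))
    (@En.n l250 (nat_lit 5674) (nat_lit 3) (nat_lit 11))
    (@En.n l50 (nat_lit 10095) (nat_lit 4) (nat_lit 2))
    (@En.n l7 (nat_lit 10097) (nat_lit 5) (nat_lit 6))
    (@En.n l2544 (nat_lit 3751) (nat_lit 7) (nat_lit 14))
    (@En.n l117 (nat_lit 11168) (nat_lit 2) (nat_lit 9))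
    (@En.n l575 (nat_lit 10099) (nat_lit 8) (nat_lit 4))
    (@En.n l8966 (nat_lit 12118) (nat_lit 9) (nat_lit 4))
    (@En.n l1578 (nat_lit 4885) (nat_lit 11) (nat_lit 8))
    (@En.n l1578 (nat_lit 12067) (nat_lit 12) (nat_lit 10))
    (@En.n l8967 (nat_lit 10100) (nat_lit 13) (nat_lit 12))
    (@En.n l3408 (nat_lit 10092) (nat_lit 9) (nat_lit 12))
    (@En.i (nat_lit 11346) (nat_lit 13) (nat_lit 5))
    (@En.n l3 (nat_lit 10095) (nat_lit 15) (nat_lit 2))))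
noncomputable def a631 : T16 Cl := @T16.mk Cl
  (@Cl.mk (nat_lit 0x4000b000b00090009000800050005000a000a00070007000c000800060006) (nat_lit 0x685640034006300) (nat_lit 16) Lb.e (@T16.mk En
    (@En.n l30706 (nat_lit 10130) (nat_lit 10) (nat_lit 6))
    (@En.n l30707 (nat_lit 11706) (nat_lit 1) (nat_lit 6))
    (@En.n l6029 (nat_lit 5303) (nat_lit 0) (nat_lit 8))
    (@En.n l30708 (nat_lit 9242) (nat_lit 8) (nat_lit 12))
    (@En.n l3787 (nat_lit 11638) (nat_lit 9) (nat_lit 7))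
    (@En.n l30709 (nat_lit 10276) (nat_lit 5) (nat_lit 7))
    (@En.n l152 (nat_lit 10097) (nat_lit 6) (nat_lit 10))
    (@En.n l117 (nat_lit 10276) (nat_lit 10) (nat_lit 10))
    (@En.n l575 (nat_lit 12274) (nat_lit 11) (nat_lit 5))
    (@En.n l30710 (nat_lit 10283) (nat_lit 0) (nat_lit 5))
    (@En.n l30711 (nat_lit 5311) (nat_lit 8) (nat_lit 8))
    (@En.n l30712 (nat_lit 10094) (nat_lit 7) (nat_lit 9))
    (@En.n l16411 (nat_lit 12001) (nat_lit 7) (nat_lit 9))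
    (@En.n l8941 (nat_lit 10131) (nat_lit 5) (nat_lit 11))
    (@En.n l30713 (nat_lit 10042) (nat_lit 4) (nat_lit 11))
    (@En.n l30714 (nat_lit 11344) (nat_lit 12) (nat_lit 4))))
  (@Cl.mk (nat_lit 0x20005000b000b000a000a000900050005000a00060006000b0007000e0006) (nat_lit 0x476840030020a0) (nat_lit 16) Lb.e (@T16.mk En
    (@En.i (nat_lit 10096) (nat_lit 1) (nat_lit 6))
    (@En.n l16406 (nat_lit 11137) (nat_lit 1) (nat_lit 14))
    (@En.n l16407 (nat_lit 5701) (nat_lit 2) (nat_lit 7))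
    (@En.n l16408 (nat_lit 12725) (nat_lit 3) (nat_lit 11))
    (@En.n l3787 (nat_lit 12840) (nat_lit 4) (nat_lit 6))
    (@En.i (nat_lit 7175) (nat_lit 5) (nat_lit 6))
    (@En.n l117 (nat_lit 10967) (nat_lit 7) (nat_lit 10))
    (@En.n l575 (nat_lit 12275) (nat_lit 7) (nat_lit 5))
    (@En.n l16409 (nat_lit 12119) (nat_lit 8) (nat_lit 5))
    (@En.n l16410 (nat_lit 11126) (nat_lit 10) (nat_lit 9))
    (@En.n l601 (nat_lit 10095) (nat_lit 11) (nat_lit 10))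
    (@En.n l16411 (nat_lit 12073) (nat_lit 12) (nat_lit 10))
    (@En.i (nat_lit 11134) (nat_lit 13) (nat_lit 11))
    (@En.n l16412 (nat_lit 10038) (nat_lit 14) (nat_lit 11))
    (@En.i (nat_lit 11339) (nat_lit 13) (nat_lit 5))
    (@En.n l3 (nat_lit 10097) (nat_lit 15) (nat_lit 2))))
  (@Cl.mk (nat_lit 0x2000b0005000c000c000a000500040004000a000e00060002000b000e0006) (nat_lit 0x4077400037003a0) (nat_lit 16) Lb.e (@T16.mk En
    (@En.n l107 (nat_lit 10125) (nat_lit 13) (nat_lit 6))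
    (@En.n l4660 (nat_lit 2976) (nat_lit 4) (nat_lit 14))
    (@En.n l21046 (nat_lit 5677) (nat_lit 2) (nat_lit 11))
    (@En.n l17 (nat_lit 10098) (nat_lit 3) (nat_lit 2))
    (@En.i (nat_lit 11137) (nat_lit 4) (nat_lit 6))
    (@En.i (nat_lit 2649) (nat_lit 6) (nat_lit 14))
    (@En.n l830 (nat_lit 11169) (nat_lit 2) (nat_lit 10))
    (@En.n l3787 (nat_lit 12280) (nat_lit 7) (nat_lit 4))
    (@En.i (nat_lit 12773) (nat_lit 4) (nat_lit 4))
    (@En.n l16160 (nat_lit 4851) (nat_lit 5) (nat_lit 5))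
    (@En.n l21047 (nat_lit 12072) (nat_lit 11) (nat_lit 10))
    (@En.n l601 (nat_lit 12834) (nat_lit 4) (nat_lit 12))
    (@En.n l6822 (nat_lit 9119) (nat_lit 9) (nat_lit 12))
    (@En.n l21048 (nat_lit 10095) (nat_lit 14) (nat_lit 5))
    (@En.i (nat_lit 10792) (nat_lit 11) (nat_lit 11))
    (@En.n l67 (nat_lit 10098) (nat_lit 15) (nat_lit 2))))
  (@Cl.mk (nat_lit 0x20005000e000c0002000b000900040009000e00050002000b0007000e0007) (nat_lit 0x98085027005090) (nat_lit 16) Lb.e (@T16.mk En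
    (@En.i (nat_lit 10101) (nat_lit 4) (nat_lit 7))
    (@En.n l11000 (nat_lit 12280) (nat_lit 1) (nat_lit 14))
    (@En.n l4353 (nat_lit 5725) (nat_lit 14) (nat_lit 7))
    (@En.n l250 (nat_lit 5670) (nat_lit 3) (nat_lit 11))
    (@En.n l50 (nat_lit 10099) (nat_lit 4) (nat_lit 2))
    (@En.n l7 (nat_lit 12275) (nat_lit 5) (nat_lit 5))
    (@En.n l2544 (nat_lit 4089) (nat_lit 7) (nat_lit 14))
    (@En.i (nat_lit 8514) (nat_lit 2) (nat_lit 9))
    (@En.n l9647 (nat_lit 12115) (nat_lit 8) (nat_lit 4))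
    (@En.i (nat_lit 4886) (nat_lit 10) (nat_lit 9))
    (@En.i (nat_lit 10980) (nat_lit 11) (nat_lit 11))
    (@En.n l11 (nat_lit 10099) (nat_lit 11) (nat_lit 2))
    (@En.i (nat_lit 10095) (nat_lit 13) (nat_lit 12))
    (@En.n l5559 (nat_lit 4961) (nat_lit 9) (nat_lit 14))
    (@En.i (nat_lit 11349) (nat_lit 13) (nat_lit 5))
    (@En.n l3 (nat_lit 10099) (nat_lit 15) (nat_lit 2))))
  (@Cl.mk (nat_lit 0x20005000c00090007000e000400020009000e00070002000b0009000e0007) (nat_lit 0x960b00420032b0) (nat_lit 16) Lb.e (@T16.mk En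
    (@En.n l152 (nat_lit 10102) (nat_lit 7) (nat_lit 7))
    (@En.n l3058 (nat_lit 12834) (nat_lit 9) (nat_lit 14))
    (@En.n l3059 (nat_lit 5750) (nat_lit 14) (nat_lit 9))
    (@En.n l3060 (nat_lit 5509) (nat_lit 3) (nat_lit 11))
    (@En.n l11 (nat_lit 10100) (nat_lit 4) (nat_lit 2))
    (@En.n l3061 (nat_lit 11134) (nat_lit 5) (nat_lit 7))
    (@En.n l3062 (nat_lit 3750) (nat_lit 7) (nat_lit 14))
    (@En.n l3063 (nat_lit 10966) (nat_lit 2) (nat_lit 9))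
    (@En.n l17 (nat_lit 10100) (nat_lit 8) (nat_lit 2))
    (@En.n l3064 (nat_lit 10095) (nat_lit 9) (nat_lit 4))
    (@En.n l3060 (nat_lit 1888) (nat_lit 11) (nat_lit 14))
    (@En.i (nat_lit 4887) (nat_lit 12) (nat_lit 7))
    (@En.n l3065 (nat_lit 11754) (nat_lit 13) (nat_lit 9))
    (@En.n l3066 (nat_lit 9864) (nat_lit 9) (nat_lit 12))
    (@En.n l3067 (nat_lit 12836) (nat_lit 13) (nat_lit 5))
    (@En.n l3 (nat_lit 10100) (nat_lit 15) (nat_lit 2))))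
  (@Cl.mk (nat_lit 0x2000a0008000400090009000e00060002000c0008000700070004000e000c) (nat_lit 0x71063b007200087) (nat_lit 16) Lb.e (@T16.mk En
    (@En.n l8963 (nat_lit 10094) (nat_lit 9) (nat_lit 12))
    (@En.n l14732 (nat_lit 5050) (nat_lit 1) (nat_lit 14))
    (@En.n l9402 (nat_lit 12627) (nat_lit 2) (nat_lit 4))
    (@En.n l14733 (nat_lit 12512) (nat_lit 3) (nat_lit 7))
    (@En.n l14734 (nat_lit 12631) (nat_lit 4) (nat_lit 7))
    (@En.n l14735 (nat_lit 5724) (nat_lit 14) (nat_lit 8))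
    (@En.n l250 (nat_lit 5673) (nat_lit 7) (nat_lit 12))
    (@En.n l50 (nat_lit 10101) (nat_lit 7) (nat_lit 2))
    (@En.n l7 (nat_lit 12274) (nat_lit 8) (nat_lit 6))
    (@En.n l14736 (nat_lit 7694) (nat_lit 10) (nat_lit 14))
    (@En.n l152 (nat_lit 10099) (nat_lit 7) (nat_lit 9))
    (@En.i (nat_lit 8271) (nat_lit 3) (nat_lit 9))
    (@En.n l14736 (nat_lit 12109) (nat_lit 4) (nat_lit 4))
    (@En.n l3266 (nat_lit 4883) (nat_lit 14) (nat_lit 8))
    (@En.n l13132 (nat_lit 12216) (nat_lit 1) (nat_lit 10))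
    (@En.n l11 (nat_lit 10101) (nat_lit 15) (nat_lit 2))))
  (@Cl.mk (nat_lit 0x200090009000e00080002000c000a000700070004000c00080006000e0004) (nat_lit 0x454605100080010) (nat_lit 16) Lb.e (@T16.mk En
    (@En.i (nat_lit 10094) (nat_lit 5) (nat_lit 4))
    (@En.n l6068 (nat_lit 1241) (nat_lit 1) (nat_lit 14))
    (@En.i (nat_lit 4884) (nat_lit 2) (nat_lit 6))
    (@En.i (nat_lit 11747) (nat_lit 3) (nat_lit 8))
    (@En.n l8771 (nat_lit 9857) (nat_lit 10) (nat_lit 12))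
    (@En.n l7 (nat_lit 7665) (nat_lit 5) (nat_lit 4))
    (@En.n l152 (nat_lit 10123) (nat_lit 12) (nat_lit 7))
    (@En.i (nat_lit 7667) (nat_lit 7) (nat_lit 7))
    (@En.n l644 (nat_lit 4848) (nat_lit 14) (nat_lit 10))
    (@En.n l3766 (nat_lit 9248) (nat_lit 10) (nat_lit 12))
    (@En.n l11 (nat_lit 10102) (nat_lit 10) (nat_lit 2))
    (@En.i (nat_lit 10131) (nat_lit 12) (nat_lit 8))
    (@En.n l619 (nat_lit 4628) (nat_lit 13) (nat_lit 14))
    (@En.i (nat_lit 10100) (nat_lit 7) (nat_lit 9))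
    (@En.i (nat_lit 11052) (nat_lit 3) (nat_lit 9))
    (@En.n l17 (nat_lit 10102) (nat_lit 15) (nat_lit 2))))
  (@Cl.mk (nat_lit 0x2000d000a00070003000c000c0008000600040004000e00090002000e0008) (nat_lit 0x460047200094046) (nat_lit 16) Lb.e (@T16.mk En
    (@En.i (nat_lit 10130) (nat_lit 14) (nat_lit 8))
    (@En.i (nat_lit 7692) (nat_lit 1) (nat_lit 14))
    (@En.n l3 (nat_lit 10103) (nat_lit 2) (nat_lit 2))
    (@En.i (nat_lit 10094) (nat_lit 3) (nat_lit 9))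
    (@En.n l6478 (nat_lit 6439) (nat_lit 1) (nat_lit 14))
    (@En.n l5331 (nat_lit 12512) (nat_lit 12) (nat_lit 4))
    (@En.n l18 (nat_lit 12394) (nat_lit 6) (nat_lit 4))
    (@En.i (nat_lit 4596) (nat_lit 7) (nat_lit 6))
    (@En.n l8099 (nat_lit 12066) (nat_lit 5) (nat_lit 8))
    (@En.n l61 (nat_lit 10123) (nat_lit 10) (nat_lit 12))
    (@En.n l564 (nat_lit 6457) (nat_lit 11) (nat_lit 12))
    (@En.n l7 (nat_lit 10120) (nat_lit 11) (nat_lit 3))
    (@En.n l4019 (nat_lit 11058) (nat_lit 0) (nat_lit 7))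
    (@En.i (nat_lit 5248) (nat_lit 14) (nat_lit 10))
    (@En.n l4019 (nat_lit 6378) (nat_lit 12) (nat_lit 13))
    (@En.n l11 (nat_lit 10103) (nat_lit 15) (nat_lit 2))))
  (@Cl.mk (nat_lit 0x2000a0007000b00080006000d000600050003000d000900080003000e000a) (nat_lit 0x80230b000835051) (nat_lit 16) Lb.e (@T16.mk En
    (@En.n l9885 (nat_lit 9049) (nat_lit 14) (nat_lit 10))
    (@En.n l2038 (nat_lit 5289) (nat_lit 1) (nat_lit 14))
    (@En.n l152 (nat_lit 8574) (nat_lit 2) (nat_lit 3))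
    (@En.n l9970 (nat_lit 10105) (nat_lit 3) (nat_lit 8))
    (@En.i (nat_lit 11576) (nat_lit 4) (nat_lit 9))
    (@En.i (nat_lit 3344) (nat_lit 6) (nat_lit 13))
    (@En.n l7430 (nat_lit 7821) (nat_lit 6) (nat_lit 3))
    (@En.n l18 (nat_lit 11314) (nat_lit 7) (nat_lit 5))
    (@En.n l31196 (nat_lit 7816) (nat_lit 8) (nat_lit 6))
    (@En.i (nat_lit 6681) (nat_lit 10) (nat_lit 13))
    (@En.n l1075 (nat_lit 8699) (nat_lit 11) (nat_lit 6))
    (@En.n l61 (nat_lit 9007) (nat_lit 12) (nat_lit 8))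
    (@En.n l1075 (nat_lit 7695) (nat_lit 13) (nat_lit 11))
    (@En.n l31197 (nat_lit 9989) (nat_lit 14) (nat_lit 7))
    (@En.i (nat_lit 10133) (nat_lit 12) (nat_lit 10))
    (@En.n l28 (nat_lit 10104) (nat_lit 15) (nat_lit 2))))
  (@Cl.mk (nat_lit 0x20009000d000a000800030007000d000700060003000e00080002000e0009) (nat_lit 0x457200b00094041) (nat_lit 16) Lb.e (@T16.mk En
    (@En.n l10991 (nat_lit 7971) (nat_lit 14) (nat_lit 9))
    (@En.i (nat_lit 10985) (nat_lit 1) (nat_lit 14))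
    (@En.n l17 (nat_lit 10105) (nat_lit 2) (nat_lit 2))
    (@En.n l16912 (nat_lit 10111) (nat_lit 3) (nat_lit 8))
    (@En.n l8122 (nat_lit 1733) (nat_lit 1) (nat_lit 14))
    (@En.i (nat_lit 10108) (nat_lit 5) (nat_lit 3))
    (@En.n l7081 (nat_lit 11361) (nat_lit 6) (nat_lit 6))
    (@En.n l7471 (nat_lit 6498) (nat_lit 7) (nat_lit 7))
    (@En.n l13008 (nat_lit 2810) (nat_lit 9) (nat_lit 13))
    (@En.n l16914 (nat_lit 9993) (nat_lit 6) (nat_lit 7))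
    (@En.n l7081 (nat_lit 10106) (nat_lit 10) (nat_lit 3))
    (@En.i (nat_lit 9031) (nat_lit 0) (nat_lit 8))
    (@En.n l16916 (nat_lit 9347) (nat_lit 13) (nat_lit 10))
    (@En.n l1578 (nat_lit 12569) (nat_lit 14) (nat_lit 13))
    (@En.i (nat_lit 8258) (nat_lit 12) (nat_lit 9))
    (@En.n l3 (nat_lit 10105) (nat_lit 15) (nat_lit 2))))
  (@Cl.mk (nat_lit 0x20009000d0007000b00030007000d000700050003000e00090002000e0009) (nat_lit 0x260100b00054041) (nat_lit 16) Lb.e (@T16.mk En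
    (@En.n l7687 (nat_lit 7969) (nat_lit 14) (nat_lit 9))
    (@En.i (nat_lit 12206) (nat_lit 1) (nat_lit 14))
    (@En.n l17 (nat_lit 10106) (nat_lit 2) (nat_lit 2))
    (@En.i (nat_lit 10113) (nat_lit 3) (nat_lit 9))
    (@En.n l175 (nat_lit 1713) (nat_lit 1) (nat_lit 14))
    (@En.n l16444 (nat_lit 10107) (nat_lit 5) (nat_lit 3))
    (@En.i (nat_lit 12537) (nat_lit 6) (nat_lit 5))
    (@En.n l1876 (nat_lit 6500) (nat_lit 7) (nat_lit 7))
    (@En.n l8891 (nat_lit 2813) (nat_lit 9) (nat_lit 13))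
    (@En.n l810 (nat_lit 4708) (nat_lit 6) (nat_lit 7))
    (@En.n l10307 (nat_lit 10105) (nat_lit 10) (nat_lit 3))
    (@En.i (nat_lit 4817) (nat_lit 0) (nat_lit 11))
    (@En.n l9051 (nat_lit 10104) (nat_lit 13) (nat_lit 7))
    (@En.n l1395 (nat_lit 11713) (nat_lit 14) (nat_lit 13))
    (@En.n l20182 (nat_lit 7679) (nat_lit 12) (nat_lit 9))
    (@En.n l3 (nat_lit 10106) (nat_lit 15) (nat_lit 2))))
  (@Cl.mk (nat_lit 0x20008000d0007000c00030007000d000400080003000e00090002000e0009) (nat_lit 0x560600103055061) (nat_lit 16) Lb.e (@T16.mk En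
    (@En.n l18 (nat_lit 7970) (nat_lit 14) (nat_lit 9))
    (@En.n l1531 (nat_lit 10984) (nat_lit 1) (nat_lit 14))
    (@En.n l3 (nat_lit 10107) (nat_lit 2) (nat_lit 2))
    (@En.n l22257 (nat_lit 10112) (nat_lit 3) (nat_lit 9))
    (@En.n l22258 (nat_lit 6510) (nat_lit 1) (nat_lit 14))
    (@En.n l3138 (nat_lit 10106) (nat_lit 5) (nat_lit 3))
    (@En.n l626 (nat_lit 3666) (nat_lit 6) (nat_lit 8))
    (@En.n l16616 (nat_lit 7720) (nat_lit 7) (nat_lit 4))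
    (@En.i (nat_lit 2790) (nat_lit 9) (nat_lit 13))
    (@En.n l16489 (nat_lit 4711) (nat_lit 6) (nat_lit 7))
    (@En.n l3026 (nat_lit 10108) (nat_lit 10) (nat_lit 3))
    (@En.n l3138 (nat_lit 8950) (nat_lit 0) (nat_lit 12))
    (@En.n l22259 (nat_lit 7821) (nat_lit 13) (nat_lit 7))
    (@En.n l22260 (nat_lit 12571) (nat_lit 14) (nat_lit 13))
    (@En.n l699 (nat_lit 8423) (nat_lit 12) (nat_lit 8))
    (@En.n l17 (nat_lit 10107) (nat_lit 15) (nat_lit 2))))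
  (@Cl.mk (nat_lit 0x20008000d000b000800030007000d000500080003000e00080002000e0009) (nat_lit 0x555200103056061) (nat_lit 16) Lb.e (@T16.mk En
    (@En.i (nat_lit 7972) (nat_lit 14) (nat_lit 9))
    (@En.i (nat_lit 10980) (nat_lit 1) (nat_lit 14))
    (@En.n l17 (nat_lit 10108) (nat_lit 2) (nat_lit 2))
    (@En.i (nat_lit 10110) (nat_lit 3) (nat_lit 8))
    (@En.n l998 (nat_lit 6508) (nat_lit 1) (nat_lit 14))
    (@En.n l50 (nat_lit 10105) (nat_lit 5) (nat_lit 3))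
    (@En.i (nat_lit 3665) (nat_lit 6) (nat_lit 8))
    (@En.n l3506 (nat_lit 7718) (nat_lit 7) (nat_lit 5))
    (@En.n l3201 (nat_lit 2795) (nat_lit 9) (nat_lit 13))
    (@En.i (nat_lit 9995) (nat_lit 6) (nat_lit 7))
    (@En.n l5271 (nat_lit 10107) (nat_lit 10) (nat_lit 3))
    (@En.i (nat_lit 9033) (nat_lit 0) (nat_lit 8))
    (@En.n l16810 (nat_lit 10109) (nat_lit 13) (nat_lit 11))
    (@En.n l1578 (nat_lit 12570) (nat_lit 14) (nat_lit 13))
    (@En.i (nat_lit 8469) (nat_lit 12) (nat_lit 8))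
    (@En.n l3 (nat_lit 10108) (nat_lit 15) (nat_lit 2))))
  (@Cl.mk (nat_lit 0x20008000b0007000c0006000c0005000400080004000e00090002000e000a) (nat_lit 0x540301004067076) (nat_lit 16) Lb.e (@T16.mk En
    (@En.n l644 (nat_lit 7974) (nat_lit 14) (nat_lit 10))
    (@En.n l30993 (nat_lit 11608) (nat_lit 1) (nat_lit 14))
    (@En.n l11 (nat_lit 10109) (nat_lit 2) (nat_lit 2))
    (@En.n l21594 (nat_lit 10114) (nat_lit 3) (nat_lit 9))
    (@En.n l1501 (nat_lit 6507) (nat_lit 1) (nat_lit 14))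
    (@En.n l31646 (nat_lit 9347) (nat_lit 5) (nat_lit 4))
    (@En.n l22499 (nat_lit 10108) (nat_lit 6) (nat_lit 8))
    (@En.n l31647 (nat_lit 10107) (nat_lit 7) (nat_lit 4))
    (@En.n l6478 (nat_lit 7717) (nat_lit 8) (nat_lit 5))
    (@En.n l31648 (nat_lit 2791) (nat_lit 10) (nat_lit 12))
    (@En.i (nat_lit 10002) (nat_lit 7) (nat_lit 6))
    (@En.n l6478 (nat_lit 8951) (nat_lit 12) (nat_lit 12))
    (@En.n l31649 (nat_lit 8765) (nat_lit 13) (nat_lit 7))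
    (@En.i (nat_lit 12276) (nat_lit 7) (nat_lit 11))
    (@En.n l31650 (nat_lit 8468) (nat_lit 12) (nat_lit 8))
    (@En.n l7 (nat_lit 10109) (nat_lit 15) (nat_lit 2))))
  (@Cl.mk (nat_lit 0x20007000c000a0008000800040008000d00060009000300080008000e0008) (nat_lit 0x95130410305630) (nat_lit 16) Lb.e (@T16.mk En
    (@En.n l10988 (nat_lit 10790) (nat_lit 12) (nat_lit 8))
    (@En.n l13133 (nat_lit 10905) (nat_lit 1) (nat_lit 14))
    (@En.n l6983 (nat_lit 10782) (nat_lit 8) (nat_lit 8))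
    (@En.n l37695 (nat_lit 9909) (nat_lit 3) (nat_lit 8))
    (@En.n l37696 (nat_lit 10111) (nat_lit 4) (nat_lit 3))
    (@En.n l4138 (nat_lit 3024) (nat_lit 0) (nat_lit 9))
    (@En.n l4263 (nat_lit 5253) (nat_lit 6) (nat_lit 6))
    (@En.n l13133 (nat_lit 2786) (nat_lit 8) (nat_lit 13))
    (@En.n l7708 (nat_lit 9999) (nat_lit 3) (nat_lit 8))
    (@En.n l4802 (nat_lit 11003) (nat_lit 9) (nat_lit 4))
    (@En.n l61 (nat_lit 10108) (nat_lit 11) (nat_lit 8))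
    (@En.n l764 (nat_lit 9036) (nat_lit 12) (nat_lit 8))
    (@En.n l37697 (nat_lit 10114) (nat_lit 13) (nat_lit 10))
    (@En.n l1578 (nat_lit 8111) (nat_lit 14) (nat_lit 12))
    (@En.n l21714 (nat_lit 8406) (nat_lit 4) (nat_lit 7))
    (@En.n l3 (nat_lit 10110) (nat_lit 15) (nat_lit 2))))
  (@Cl.mk (nat_lit 0x20008000c00090008000800040008000d00080007000300080008000e0008) (nat_lit 0x175130412003631) (nat_lit 16) Lb.e (@T16.mk En
    (@En.n l40405 (nat_lit 10005) (nat_lit 12) (nat_lit 8))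
    (@En.n l1578 (nat_lit 10910) (nat_lit 1) (nat_lit 14))
    (@En.n l40406 (nat_lit 10785) (nat_lit 8) (nat_lit 8))
    (@En.n l31726 (nat_lit 9906) (nat_lit 3) (nat_lit 8))
    (@En.n l27329 (nat_lit 10110) (nat_lit 4) (nat_lit 3))
    (@En.n l40407 (nat_lit 11351) (nat_lit 0) (nat_lit 7))
    (@En.n l40408 (nat_lit 6521) (nat_lit 6) (nat_lit 8))
    (@En.n l3548 (nat_lit 2807) (nat_lit 8) (nat_lit 13))
    (@En.i (nat_lit 9037) (nat_lit 3) (nat_lit 8))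
    (@En.n l40409 (nat_lit 11002) (nat_lit 9) (nat_lit 4))
    (@En.n l28407 (nat_lit 10105) (nat_lit 11) (nat_lit 8))
    (@En.n l40410 (nat_lit 9034) (nat_lit 12) (nat_lit 8))
    (@En.n l40411 (nat_lit 10115) (nat_lit 13) (nat_lit 9))
    (@En.n l40410 (nat_lit 8109) (nat_lit 14) (nat_lit 12))
    (@En.i (nat_lit 6812) (nat_lit 4) (nat_lit 8))
    (@En.n l28 (nat_lit 10111) (nat_lit 15) (nat_lit 2))))
noncomputable def a632 : T16 Cl := @T16.mk Cl
  (@Cl.mk (nat_lit 0x20007000c00070007000c00040008000d00040009000300090009000e0008) (nat_lit 0x900701302046c6) (nat_lit 16) Lb.e (@T16.mk En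
    (@En.n l22166 (nat_lit 10793) (nat_lit 12) (nat_lit 8))
    (@En.n l22761 (nat_lit 11434) (nat_lit 1) (nat_lit 14))
    (@En.n l9577 (nat_lit 10783) (nat_lit 2) (nat_lit 9))
    (@En.n l9572 (nat_lit 9802) (nat_lit 3) (nat_lit 9))
    (@En.n l5349 (nat_lit 10113) (nat_lit 4) (nat_lit 3))
    (@En.n l24070 (nat_lit 3025) (nat_lit 5) (nat_lit 9))
    (@En.n l9454 (nat_lit 10117) (nat_lit 6) (nat_lit 4))
    (@En.n l22761 (nat_lit 2784) (nat_lit 8) (nat_lit 13))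
    (@En.n l7031 (nat_lit 77) (nat_lit 1) (nat_lit 8))
    (@En.n l4446 (nat_lit 10110) (nat_lit 9) (nat_lit 4))
    (@En.i (nat_lit 11408) (nat_lit 11) (nat_lit 12))
    (@En.n l37720 (nat_lit 10107) (nat_lit 12) (nat_lit 7))
    (@En.n l22162 (nat_lit 11575) (nat_lit 13) (nat_lit 7))
    (@En.n l22164 (nat_lit 11707) (nat_lit 14) (nat_lit 12))
    (@En.n l9572 (nat_lit 8415) (nat_lit 4) (nat_lit 7))
    (@En.n l3 (nat_lit 10112) (nat_lit 15) (nat_lit 2))))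
  (@Cl.mk (nat_lit 0x20008000c00070007000b00040008000d00080005000300090009000e0008) (nat_lit 0x270020522003630) (nat_lit 16) Lb.e (@T16.mk En
    (@En.n l26920 (nat_lit 10116) (nat_lit 12) (nat_lit 8))
    (@En.n l18492 (nat_lit 11435) (nat_lit 1) (nat_lit 14))
    (@En.n l26921 (nat_lit 10784) (nat_lit 2) (nat_lit 9))
    (@En.n l26922 (nat_lit 9905) (nat_lit 3) (nat_lit 9))
    (@En.n l12803 (nat_lit 10112) (nat_lit 4) (nat_lit 3))
    (@En.i (nat_lit 12536) (nat_lit 0) (nat_lit 5))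
    (@En.n l26923 (nat_lit 6520) (nat_lit 6) (nat_lit 8))
    (@En.n l26924 (nat_lit 2787) (nat_lit 8) (nat_lit 13))
    (@En.n l810 (nat_lit 10455) (nat_lit 11) (nat_lit 8))
    (@En.n l26925 (nat_lit 10111) (nat_lit 9) (nat_lit 4))
    (@En.n l26924 (nat_lit 11588) (nat_lit 11) (nat_lit 11))
    (@En.n l61 (nat_lit 10106) (nat_lit 12) (nat_lit 7))
    (@En.n l9051 (nat_lit 11576) (nat_lit 13) (nat_lit 7))
    (@En.n l1395 (nat_lit 11377) (nat_lit 14) (nat_lit 12))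
    (@En.n l20634 (nat_lit 8804) (nat_lit 4) (nat_lit 8))
    (@En.n l3 (nat_lit 10113) (nat_lit 15) (nat_lit 2))))
  (@Cl.mk (nat_lit 0x20007000a00070007000c0007000c000600040009000400090009000e0009) (nat_lit 0x40040100406745) (nat_lit 16) Lb.e (@T16.mk En
    (@En.n l42704 (nat_lit 10791) (nat_lit 12) (nat_lit 9))
    (@En.n l42705 (nat_lit 10903) (nat_lit 1) (nat_lit 14))
    (@En.n l42706 (nat_lit 10786) (nat_lit 2) (nat_lit 9))
    (@En.n l4994 (nat_lit 9910) (nat_lit 3) (nat_lit 9))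
    (@En.n l42707 (nat_lit 10115) (nat_lit 4) (nat_lit 4))
    (@En.n l42708 (nat_lit 10110) (nat_lit 5) (nat_lit 9))
    (@En.n l18212 (nat_lit 10112) (nat_lit 6) (nat_lit 4))
    (@En.n l4995 (nat_lit 7487) (nat_lit 7) (nat_lit 6))
    (@En.n l42705 (nat_lit 2785) (nat_lit 9) (nat_lit 12))
    (@En.n l42709 (nat_lit 10001) (nat_lit 10) (nat_lit 7))
    (@En.i (nat_lit 11409) (nat_lit 11) (nat_lit 12))
    (@En.n l18215 (nat_lit 10109) (nat_lit 12) (nat_lit 7))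
    (@En.n l42710 (nat_lit 11039) (nat_lit 13) (nat_lit 7))
    (@En.n l42711 (nat_lit 12840) (nat_lit 8) (nat_lit 10))
    (@En.n l42712 (nat_lit 8418) (nat_lit 7) (nat_lit 7))
    (@En.n l3 (nat_lit 10114) (nat_lit 15) (nat_lit 2))))
  (@Cl.mk (nat_lit 0x20009000900070007000b0007000c000700070005000400090009000e0009) (nat_lit 0x240040100004521) (nat_lit 16) Lb.e (@T16.mk En
    (@En.n l33678 (nat_lit 9342) (nat_lit 12) (nat_lit 9))
    (@En.n l16819 (nat_lit 10911) (nat_lit 1) (nat_lit 14))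
    (@En.n l9605 (nat_lit 10787) (nat_lit 2) (nat_lit 9))
    (@En.n l9606 (nat_lit 5268) (nat_lit 3) (nat_lit 9))
    (@En.n l8872 (nat_lit 11354) (nat_lit 4) (nat_lit 4))
    (@En.n l1578 (nat_lit 10113) (nat_lit 5) (nat_lit 5))
    (@En.n l575 (nat_lit 11358) (nat_lit 9) (nat_lit 7))
    (@En.n l5399 (nat_lit 6522) (nat_lit 7) (nat_lit 7))
    (@En.n l10798 (nat_lit 2687) (nat_lit 9) (nat_lit 12))
    (@En.n l33679 (nat_lit 10116) (nat_lit 10) (nat_lit 7))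
    (@En.n l10798 (nat_lit 11194) (nat_lit 11) (nat_lit 11))
    (@En.n l61 (nat_lit 9347) (nat_lit 12) (nat_lit 7))
    (@En.n l565 (nat_lit 11583) (nat_lit 13) (nat_lit 7))
    (@En.n l17891 (nat_lit 11347) (nat_lit 7) (nat_lit 9))
    (@En.n l32384 (nat_lit 9335) (nat_lit 10) (nat_lit 9))
    (@En.n l3 (nat_lit 10115) (nat_lit 15) (nat_lit 2))))
  (@Cl.mk (nat_lit 0x3000a000a000800080007000c00060006000a000400080008000d00090006) (nat_lit 0x256506004046310) (nat_lit 16) Lb.e (@T16.mk En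
    (@En.n l40419 (nat_lit 4529) (nat_lit 0) (nat_lit 6))
    (@En.n l40420 (nat_lit 5161) (nat_lit 12) (nat_lit 9))
    (@En.n l40421 (nat_lit 11966) (nat_lit 2) (nat_lit 13))
    (@En.n l40422 (nat_lit 10113) (nat_lit 8) (nat_lit 8))
    (@En.n l32484 (nat_lit 11390) (nat_lit 11) (nat_lit 8))
    (@En.n l403 (nat_lit 10005) (nat_lit 5) (nat_lit 4))
    (@En.n l1353 (nat_lit 11389) (nat_lit 0) (nat_lit 10))
    (@En.n l18 (nat_lit 7969) (nat_lit 10) (nat_lit 6))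
    (@En.n l6081 (nat_lit 11580) (nat_lit 8) (nat_lit 6))
    (@En.n l3548 (nat_lit 11705) (nat_lit 10) (nat_lit 12))
    (@En.n l575 (nat_lit 8805) (nat_lit 9) (nat_lit 7))
    (@En.n l3 (nat_lit 10798) (nat_lit 8) (nat_lit 8))
    (@En.n l7642 (nat_lit 10705) (nat_lit 13) (nat_lit 8))
    (@En.n l40423 (nat_lit 10777) (nat_lit 6) (nat_lit 10))
    (@En.i (nat_lit 9840) (nat_lit 9) (nat_lit 10))
    (@En.n l35315 (nat_lit 10793) (nat_lit 15) (nat_lit 3))))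
  (@Cl.mk (nat_lit 0x20007000b00070007000c000b0005000900040009000500090009000e0007) (nat_lit 0x500830602075c0) (nat_lit 16) Lb.e (@T16.mk En
    (@En.n l17342 (nat_lit 8010) (nat_lit 7) (nat_lit 7))
    (@En.n l32083 (nat_lit 11436) (nat_lit 1) (nat_lit 14))
    (@En.n l16106 (nat_lit 11000) (nat_lit 2) (nat_lit 9))
    (@En.n l32084 (nat_lit 9902) (nat_lit 3) (nat_lit 9))
    (@En.n l10249 (nat_lit 4529) (nat_lit 4) (nat_lit 5))
    (@En.n l6576 (nat_lit 6604) (nat_lit 5) (nat_lit 9))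
    (@En.n l32085 (nat_lit 10114) (nat_lit 6) (nat_lit 4))
    (@En.n l17971 (nat_lit 10454) (nat_lit 8) (nat_lit 9))
    (@En.n l25390 (nat_lit 7488) (nat_lit 8) (nat_lit 5))
    (@En.n l22518 (nat_lit 10113) (nat_lit 10) (nat_lit 11))
    (@En.n l25391 (nat_lit 10343) (nat_lit 11) (nat_lit 12))
    (@En.n l19122 (nat_lit 7720) (nat_lit 12) (nat_lit 7))
    (@En.n l4316 (nat_lit 11574) (nat_lit 13) (nat_lit 7))
    (@En.n l15882 (nat_lit 8057) (nat_lit 14) (nat_lit 11))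
    (@En.n l22521 (nat_lit 8145) (nat_lit 13) (nat_lit 7))
    (@En.n l50 (nat_lit 10117) (nat_lit 15) (nat_lit 2))))
  (@Cl.mk (nat_lit 0x20006000c0006000c00060004000e00040002000e000a0002000a000e000a) (nat_lit 0x30300800760857) (nat_lit 16) Lb.e (@T16.mk En
    (@En.n l19999 (nat_lit 6377) (nat_lit 13) (nat_lit 10))
    (@En.n l1578 (nat_lit 10119) (nat_lit 1) (nat_lit 14))
    (@En.i (nat_lit 8230) (nat_lit 2) (nat_lit 10))
    (@En.n l3 (nat_lit 10118) (nat_lit 3) (nat_lit 2))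
    (@En.i (nat_lit 10036) (nat_lit 4) (nat_lit 10))
    (@En.i (nat_lit 9322) (nat_lit 1) (nat_lit 14))
    (@En.n l17 (nat_lit 10118) (nat_lit 6) (nat_lit 2))
    (@En.i (nat_lit 9035) (nat_lit 7) (nat_lit 4))
    (@En.n l8122 (nat_lit 2936) (nat_lit 9) (nat_lit 14))
    (@En.i (nat_lit 5871) (nat_lit 9) (nat_lit 4))
    (@En.i (nat_lit 10105) (nat_lit 6) (nat_lit 6))
    (@En.n l8122 (nat_lit 12753) (nat_lit 8) (nat_lit 12))
    (@En.n l7471 (nat_lit 6017) (nat_lit 13) (nat_lit 6))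
    (@En.n l13008 (nat_lit 2519) (nat_lit 10) (nat_lit 12))
    (@En.i (nat_lit 6399) (nat_lit 7) (nat_lit 6))
    (@En.n l28 (nat_lit 10118) (nat_lit 15) (nat_lit 2))))
  (@Cl.mk (nat_lit 0x2000d0006000c0003000c00070004000e00040002000e000a0002000e0009) (nat_lit 0x403060010074045) (nat_lit 16) Lb.e (@T16.mk En
    (@En.n l7475 (nat_lit 10122) (nat_lit 14) (nat_lit 9))
    (@En.n l14754 (nat_lit 8232) (nat_lit 1) (nat_lit 14))
    (@En.n l3 (nat_lit 10119) (nat_lit 2) (nat_lit 2))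
    (@En.i (nat_lit 10121) (nat_lit 14) (nat_lit 10))
    (@En.i (nat_lit 11669) (nat_lit 1) (nat_lit 14))
    (@En.n l17 (nat_lit 10119) (nat_lit 5) (nat_lit 2))
    (@En.i (nat_lit 10120) (nat_lit 6) (nat_lit 4))
    (@En.i (nat_lit 1230) (nat_lit 1) (nat_lit 14))
    (@En.i (nat_lit 4842) (nat_lit 8) (nat_lit 4))
    (@En.i (nat_lit 12569) (nat_lit 6) (nat_lit 7))
    (@En.n l20641 (nat_lit 9103) (nat_lit 11) (nat_lit 12))
    (@En.i (nat_lit 10123) (nat_lit 11) (nat_lit 3))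
    (@En.n l77 (nat_lit 4144) (nat_lit 0) (nat_lit 12))
    (@En.n l810 (nat_lit 10931) (nat_lit 14) (nat_lit 6))
    (@En.n l3766 (nat_lit 6370) (nat_lit 12) (nat_lit 13))
    (@En.n l11 (nat_lit 10119) (nat_lit 15) (nat_lit 2))))
  (@Cl.mk (nat_lit 0x2000d0006000b0003000c000c0008000500040004000e000a0002000e0008) (nat_lit 0x501047200074046) (nat_lit 16) Lb.e (@T16.mk En
    (@En.n l8806 (nat_lit 10126) (nat_lit 14) (nat_lit 8))
    (@En.n l8094 (nat_lit 7690) (nat_lit 1) (nat_lit 14))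
    (@En.n l3 (nat_lit 10120) (nat_lit 2) (nat_lit 2))
    (@En.n l20778 (nat_lit 10125) (nat_lit 3) (nat_lit 10))
    (@En.n l10795 (nat_lit 6443) (nat_lit 1) (nat_lit 14))
    (@En.n l10800 (nat_lit 12287) (nat_lit 12) (nat_lit 4))
    (@En.n l5955 (nat_lit 10124) (nat_lit 6) (nat_lit 4))
    (@En.i (nat_lit 4843) (nat_lit 7) (nat_lit 5))
    (@En.n l10795 (nat_lit 11018) (nat_lit 5) (nat_lit 8))
    (@En.n l61 (nat_lit 10119) (nat_lit 10) (nat_lit 12))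
    (@En.n l2669 (nat_lit 8967) (nat_lit 11) (nat_lit 12))
    (@En.i (nat_lit 10103) (nat_lit 11) (nat_lit 3))
    (@En.n l8806 (nat_lit 2035) (nat_lit 0) (nat_lit 11))
    (@En.n l810 (nat_lit 8170) (nat_lit 14) (nat_lit 6))
    (@En.n l3766 (nat_lit 6379) (nat_lit 12) (nat_lit 13))
    (@En.n l11 (nat_lit 10120) (nat_lit 15) (nat_lit 2))))
  (@Cl.mk (nat_lit 0x2000a000a000e00080002000c00060006000c0004000c00080004000e0004) (nat_lit 0x353403004070010) (nat_lit 16) Lb.e (@T16.mk En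
    (@En.n l20778 (nat_lit 10125) (nat_lit 5) (nat_lit 4))
    (@En.n l6068 (nat_lit 1234) (nat_lit 1) (nat_lit 14))
    (@En.i (nat_lit 4846) (nat_lit 2) (nat_lit 4))
    (@En.n l6072 (nat_lit 11710) (nat_lit 3) (nat_lit 8))
    (@En.n l3610 (nat_lit 9101) (nat_lit 10) (nat_lit 12))
    (@En.i (nat_lit 10102) (nat_lit 5) (nat_lit 4))
    (@En.n l476 (nat_lit 10797) (nat_lit 7) (nat_lit 12))
    (@En.n l152 (nat_lit 10119) (nat_lit 13) (nat_lit 6))
    (@En.n l3610 (nat_lit 10987) (nat_lit 14) (nat_lit 6))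
    (@En.n l3766 (nat_lit 12199) (nat_lit 10) (nat_lit 12))
    (@En.n l11 (nat_lit 10121) (nat_lit 10) (nat_lit 2))
    (@En.n l7475 (nat_lit 10127) (nat_lit 12) (nat_lit 8))
    (@En.n l6072 (nat_lit 8235) (nat_lit 13) (nat_lit 14))
    (@En.n l20779 (nat_lit 12834) (nat_lit 14) (nat_lit 10))
    (@En.n l9183 (nat_lit 11393) (nat_lit 3) (nat_lit 10))
    (@En.n l17 (nat_lit 10121) (nat_lit 15) (nat_lit 2))))
  (@Cl.mk (nat_lit 0x200090009000d0005000b0003000b000700070005000e00050002000e000b) (nat_lit 0x404040600010086) (nat_lit 16) Lb.e (@T16.mk En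
    (@En.i (nat_lit 10127) (nat_lit 14) (nat_lit 11))
    (@En.n l777 (nat_lit 11664) (nat_lit 1) (nat_lit 14))
    (@En.n l17 (nat_lit 10122) (nat_lit 2) (nat_lit 2))
    (@En.n l14626 (nat_lit 10126) (nat_lit 3) (nat_lit 5))
    (@En.i (nat_lit 621) (nat_lit 1) (nat_lit 14))
    (@En.n l28 (nat_lit 8951) (nat_lit 5) (nat_lit 5))
    (@En.n l21602 (nat_lit 10119) (nat_lit 9) (nat_lit 7))
    (@En.n l767 (nat_lit 12568) (nat_lit 7) (nat_lit 7))
    (@En.n l17654 (nat_lit 9181) (nat_lit 9) (nat_lit 11))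
    (@En.n l21605 (nat_lit 10129) (nat_lit 9) (nat_lit 3))
    (@En.n l14628 (nat_lit 2977) (nat_lit 0) (nat_lit 11))
    (@En.n l27730 (nat_lit 10881) (nat_lit 8) (nat_lit 5))
    (@En.i (nat_lit 6374) (nat_lit 13) (nat_lit 13))
    (@En.n l601 (nat_lit 11636) (nat_lit 7) (nat_lit 9))
    (@En.n l28467 (nat_lit 11382) (nat_lit 12) (nat_lit 9))
    (@En.n l3 (nat_lit 10122) (nat_lit 15) (nat_lit 2))))
  (@Cl.mk (nat_lit 0x2000d000b00070003000c00070005000e00040002000e00090002000e0009) (nat_lit 0x560060080095045) (nat_lit 16) Lb.e (@T16.mk En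
    (@En.i (nat_lit 10129) (nat_lit 14) (nat_lit 9))
    (@En.i (nat_lit 8231) (nat_lit 1) (nat_lit 14))
    (@En.n l3 (nat_lit 10123) (nat_lit 2) (nat_lit 2))
    (@En.i (nat_lit 10102) (nat_lit 14) (nat_lit 9))
    (@En.i (nat_lit 11662) (nat_lit 1) (nat_lit 14))
    (@En.n l17 (nat_lit 10123) (nat_lit 5) (nat_lit 2))
    (@En.i (nat_lit 10103) (nat_lit 6) (nat_lit 4))
    (@En.i (nat_lit 1817) (nat_lit 1) (nat_lit 14))
    (@En.i (nat_lit 4845) (nat_lit 8) (nat_lit 5))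
    (@En.i (nat_lit 11749) (nat_lit 6) (nat_lit 7))
    (@En.n l564 (nat_lit 6460) (nat_lit 11) (nat_lit 12))
    (@En.n l7 (nat_lit 10119) (nat_lit 11) (nat_lit 3))
    (@En.i (nat_lit 11059) (nat_lit 0) (nat_lit 7))
    (@En.n l644 (nat_lit 4844) (nat_lit 14) (nat_lit 11))
    (@En.i (nat_lit 6369) (nat_lit 12) (nat_lit 13))
    (@En.n l11 (nat_lit 10123) (nat_lit 15) (nat_lit 2))))
  (@Cl.mk (nat_lit 0x2000d0006000d0003000c0003000d000900040003000e000a0002000e0007) (nat_lit 0x509050840074080) (nat_lit 16) Lb.e (@T16.mk En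
    (@En.n l50 (nat_lit 12494) (nat_lit 14) (nat_lit 7))
    (@En.n l1531 (nat_lit 8240) (nat_lit 1) (nat_lit 14))
    (@En.n l3 (nat_lit 10124) (nat_lit 2) (nat_lit 2))
    (@En.n l1532 (nat_lit 12491) (nat_lit 3) (nat_lit 10))
    (@En.n l3870 (nat_lit 5797) (nat_lit 1) (nat_lit 14))
    (@En.n l50 (nat_lit 12399) (nat_lit 5) (nat_lit 3))
    (@En.n l1029 (nat_lit 10119) (nat_lit 6) (nat_lit 4))
    (@En.i (nat_lit 11016) (nat_lit 4) (nat_lit 9))
    (@En.i (nat_lit 1232) (nat_lit 9) (nat_lit 13))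
    (@En.n l1029 (nat_lit 12493) (nat_lit 9) (nat_lit 3))
    (@En.i (nat_lit 9222) (nat_lit 11) (nat_lit 12))
    (@En.n l1029 (nat_lit 12394) (nat_lit 11) (nat_lit 3))
    (@En.n l3324 (nat_lit 4149) (nat_lit 0) (nat_lit 13))
    (@En.n l117 (nat_lit 10932) (nat_lit 14) (nat_lit 6))
    (@En.n l5694 (nat_lit 11895) (nat_lit 12) (nat_lit 13))
    (@En.n l17 (nat_lit 10124) (nat_lit 15) (nat_lit 2))))
  (@Cl.mk (nat_lit 0x2000c00060006000b0004000c000c0009000500040004000a000a000e0007) (nat_lit 0x300606840003430) (nat_lit 16) Lb.e (@T16.mk En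
    (@En.n l28919 (nat_lit 10128) (nat_lit 5) (nat_lit 7))
    (@En.i (nat_lit 7693) (nat_lit 1) (nat_lit 14))
    (@En.n l97 (nat_lit 10098) (nat_lit 6) (nat_lit 10))
    (@En.n l10703 (nat_lit 11392) (nat_lit 3) (nat_lit 10))
    (@En.n l3787 (nat_lit 12284) (nat_lit 12) (nat_lit 4))
    (@En.i (nat_lit 12491) (nat_lit 5) (nat_lit 4))
    (@En.n l36820 (nat_lit 4847) (nat_lit 6) (nat_lit 5))
    (@En.n l2337 (nat_lit 11021) (nat_lit 1) (nat_lit 9))
    (@En.n l36821 (nat_lit 10121) (nat_lit 4) (nat_lit 12))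
    (@En.n l18989 (nat_lit 9097) (nat_lit 10) (nat_lit 12))
    (@En.n l36820 (nat_lit 10094) (nat_lit 10) (nat_lit 4))
    (@En.n l15953 (nat_lit 10794) (nat_lit 12) (nat_lit 11))
    (@En.n l36822 (nat_lit 10120) (nat_lit 13) (nat_lit 6))
    (@En.n l23570 (nat_lit 8167) (nat_lit 14) (nat_lit 6))
    (@En.n l28988 (nat_lit 12196) (nat_lit 9) (nat_lit 12))
    (@En.n l17 (nat_lit 10125) (nat_lit 15) (nat_lit 2))))
  (@Cl.mk (nat_lit 0x200080008000d0005000a0003000b000b00080008000600050005000e000b) (nat_lit 0x504040475300083) (nat_lit 16) Lb.e (@T16.mk En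
    (@En.n l27781 (nat_lit 10128) (nat_lit 7) (nat_lit 11))
    (@En.n l27782 (nat_lit 6442) (nat_lit 1) (nat_lit 14))
    (@En.n l152 (nat_lit 12286) (nat_lit 2) (nat_lit 5))
    (@En.n l10848 (nat_lit 12494) (nat_lit 3) (nat_lit 5))
    (@En.n l217 (nat_lit 8954) (nat_lit 4) (nat_lit 6))
    (@En.n l27783 (nat_lit 10120) (nat_lit 8) (nat_lit 8))
    (@En.n l3428 (nat_lit 12644) (nat_lit 6) (nat_lit 8))
    (@En.n l27784 (nat_lit 10122) (nat_lit 8) (nat_lit 11))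
    (@En.n l27785 (nat_lit 8962) (nat_lit 9) (nat_lit 11))
    (@En.n l4322 (nat_lit 10130) (nat_lit 9) (nat_lit 3))
    (@En.i (nat_lit 2038) (nat_lit 11) (nat_lit 10))
    (@En.n l27786 (nat_lit 10930) (nat_lit 12) (nat_lit 5))
    (@En.n l27781 (nat_lit 12739) (nat_lit 13) (nat_lit 13))
    (@En.n l20107 (nat_lit 11633) (nat_lit 8) (nat_lit 8))
    (@En.n l27787 (nat_lit 11289) (nat_lit 4) (nat_lit 8))
    (@En.n l28 (nat_lit 10126) (nat_lit 15) (nat_lit 2))))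
  (@Cl.mk (nat_lit 0x2000b000b00080008000c00050005000b0004000b000800080005000e0005) (nat_lit 0x553030050751010) (nat_lit 16) Lb.e (@T16.mk En
    (@En.n l4172 (nat_lit 10128) (nat_lit 9) (nat_lit 5))
    (@En.i (nat_lit 617) (nat_lit 1) (nat_lit 14))
    (@En.n l28 (nat_lit 8949) (nat_lit 2) (nat_lit 5))
    (@En.n l21602 (nat_lit 10121) (nat_lit 3) (nat_lit 8))
    (@En.n l16644 (nat_lit 11712) (nat_lit 4) (nat_lit 8))
    (@En.n l17654 (nat_lit 9108) (nat_lit 6) (nat_lit 11))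
    (@En.n l21605 (nat_lit 10131) (nat_lit 6) (nat_lit 4))
    (@En.n l476 (nat_lit 10779) (nat_lit 8) (nat_lit 11))
    (@En.n l152 (nat_lit 10122) (nat_lit 11) (nat_lit 5))
    (@En.n l17654 (nat_lit 10990) (nat_lit 9) (nat_lit 5))
    (@En.i (nat_lit 12201) (nat_lit 11) (nat_lit 12))
    (@En.n l601 (nat_lit 11640) (nat_lit 8) (nat_lit 8))
    (@En.n l24123 (nat_lit 11383) (nat_lit 13) (nat_lit 8))
    (@En.n l20772 (nat_lit 11136) (nat_lit 5) (nat_lit 11))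
    (@En.i (nat_lit 11400) (nat_lit 12) (nat_lit 11))
    (@En.n l17 (nat_lit 10127) (nat_lit 15) (nat_lit 2))))
noncomputable def a633 : T16 Cl := @T16.mk Cl
  (@Cl.mk (nat_lit 0x4000b000b00090009000600050005000b000b00070007000c00050005000a) (nat_lit 0x484500024002005) (nat_lit 16) Lb.e (@T16.mk En
    (@En.n l13972 (nat_lit 10793) (nat_lit 0) (nat_lit 10))
    (@En.n l40713 (nat_lit 10126) (nat_lit 11) (nat_lit 5))
    (@En.n l40714 (nat_lit 10993) (nat_lit 0) (nat_lit 5))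
    (@En.i (nat_lit 11811) (nat_lit 0) (nat_lit 12))
    (@En.i (nat_lit 11634) (nat_lit 9) (nat_lit 7))
    (@En.n l40715 (nat_lit 10279) (nat_lit 2) (nat_lit 7))
    (@En.n l40716 (nat_lit 11137) (nat_lit 5) (nat_lit 11))
    (@En.n l40717 (nat_lit 10278) (nat_lit 10) (nat_lit 11))
    (@En.n l40718 (nat_lit 12279) (nat_lit 11) (nat_lit 5))
    (@En.n l40715 (nat_lit 12450) (nat_lit 11) (nat_lit 5))
    (@En.n l40719 (nat_lit 8952) (nat_lit 0) (nat_lit 6))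
    (@En.n l40720 (nat_lit 10125) (nat_lit 7) (nat_lit 9))
    (@En.n l40721 (nat_lit 11805) (nat_lit 7) (nat_lit 9))
    (@En.n l5653 (nat_lit 10127) (nat_lit 5) (nat_lit 11))
    (@En.n l27620 (nat_lit 8964) (nat_lit 3) (nat_lit 11))
    (@En.n l40722 (nat_lit 10096) (nat_lit 15) (nat_lit 4))))
  (@Cl.mk (nat_lit 0x200090009000d000a00060003000b000700070006000e00050002000e000a) (nat_lit 0x4036006000100a5) (nat_lit 16) Lb.e (@T16.mk En
    (@En.i (nat_lit 10131) (nat_lit 14) (nat_lit 10))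
    (@En.i (nat_lit 11663) (nat_lit 1) (nat_lit 14))
    (@En.n l17 (nat_lit 10129) (nat_lit 2) (nat_lit 2))
    (@En.i (nat_lit 10130) (nat_lit 3) (nat_lit 5))
    (@En.i (nat_lit 622) (nat_lit 5) (nat_lit 14))
    (@En.i (nat_lit 12504) (nat_lit 5) (nat_lit 6))
    (@En.n l575 (nat_lit 10123) (nat_lit 9) (nat_lit 7))
    (@En.i (nat_lit 11750) (nat_lit 7) (nat_lit 7))
    (@En.n l17642 (nat_lit 11194) (nat_lit 9) (nat_lit 11))
    (@En.n l17643 (nat_lit 10122) (nat_lit 9) (nat_lit 3))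
    (@En.n l575 (nat_lit 12253) (nat_lit 0) (nat_lit 6))
    (@En.n l644 (nat_lit 5739) (nat_lit 12) (nat_lit 10))
    (@En.n l7475 (nat_lit 6375) (nat_lit 13) (nat_lit 13))
    (@En.n l10544 (nat_lit 11639) (nat_lit 7) (nat_lit 9))
    (@En.i (nat_lit 11381) (nat_lit 12) (nat_lit 9))
    (@En.n l3 (nat_lit 10129) (nat_lit 15) (nat_lit 2))))
  (@Cl.mk (nat_lit 0x200080008000d000900060003000b000b00080008000700050005000e000a) (nat_lit 0x5035004743000a4) (nat_lit 16) Lb.e (@T16.mk En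
    (@En.n l15904 (nat_lit 10096) (nat_lit 7) (nat_lit 10))
    (@En.n l15905 (nat_lit 6440) (nat_lit 1) (nat_lit 14))
    (@En.n l5331 (nat_lit 12508) (nat_lit 2) (nat_lit 5))
    (@En.n l8098 (nat_lit 12398) (nat_lit 3) (nat_lit 5))
    (@En.i (nat_lit 12503) (nat_lit 4) (nat_lit 7))
    (@En.n l575 (nat_lit 10103) (nat_lit 8) (nat_lit 8))
    (@En.n l15906 (nat_lit 12643) (nat_lit 6) (nat_lit 8))
    (@En.n l61 (nat_lit 10129) (nat_lit 8) (nat_lit 11))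
    (@En.n l15907 (nat_lit 6462) (nat_lit 9) (nat_lit 11))
    (@En.n l3011 (nat_lit 10126) (nat_lit 9) (nat_lit 3))
    (@En.n l4019 (nat_lit 11057) (nat_lit 0) (nat_lit 6))
    (@En.i (nat_lit 5730) (nat_lit 12) (nat_lit 9))
    (@En.n l6698 (nat_lit 9244) (nat_lit 13) (nat_lit 13))
    (@En.n l15908 (nat_lit 11632) (nat_lit 8) (nat_lit 8))
    (@En.n l15909 (nat_lit 11290) (nat_lit 4) (nat_lit 8))
    (@En.n l3 (nat_lit 10130) (nat_lit 15) (nat_lit 2))))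
  (@Cl.mk (nat_lit 0x2000a000a00080008000c0009000600060004000b000800080007000e0005) (nat_lit 0x475023000741010) (nat_lit 16) Lb.e (@T16.mk En
    (@En.n l15904 (nat_lit 10096) (nat_lit 9) (nat_lit 5))
    (@En.n l20815 (nat_lit 618) (nat_lit 1) (nat_lit 14))
    (@En.n l17372 (nat_lit 11133) (nat_lit 2) (nat_lit 7))
    (@En.n l575 (nat_lit 10102) (nat_lit 3) (nat_lit 8))
    (@En.n l6073 (nat_lit 11746) (nat_lit 4) (nat_lit 8))
    (@En.n l20816 (nat_lit 9862) (nat_lit 6) (nat_lit 11))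
    (@En.n l20817 (nat_lit 11372) (nat_lit 6) (nat_lit 4))
    (@En.n l152 (nat_lit 10129) (nat_lit 10) (nat_lit 6))
    (@En.n l20719 (nat_lit 11702) (nat_lit 8) (nat_lit 6))
    (@En.n l20818 (nat_lit 5740) (nat_lit 10) (nat_lit 9))
    (@En.n l7475 (nat_lit 9246) (nat_lit 11) (nat_lit 12))
    (@En.n l10550 (nat_lit 11641) (nat_lit 8) (nat_lit 8))
    (@En.n l20819 (nat_lit 11051) (nat_lit 13) (nat_lit 8))
    (@En.n l3061 (nat_lit 11134) (nat_lit 6) (nat_lit 10))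
    (@En.i (nat_lit 11054) (nat_lit 14) (nat_lit 10))
    (@En.n l17 (nat_lit 10131) (nat_lit 15) (nat_lit 2))))
  (@Cl.mk (nat_lit 0x30007000a000500090006000d000b00060003000900070005000d000b000a) (nat_lit 0x60003100400264) (nat_lit 16) Lb.e (@T16.mk En
    (@En.n l6795 (nat_lit 8256) (nat_lit 0) (nat_lit 10))
    (@En.n l34464 (nat_lit 9878) (nat_lit 11) (nat_lit 11))
    (@En.n l12285 (nat_lit 2830) (nat_lit 2) (nat_lit 13))
    (@En.n l34465 (nat_lit 9644) (nat_lit 3) (nat_lit 5))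
    (@En.i (nat_lit 10453) (nat_lit 14) (nat_lit 7))
    (@En.n l34466 (nat_lit 10133) (nat_lit 5) (nat_lit 9))
    (@En.n l34467 (nat_lit 8877) (nat_lit 6) (nat_lit 3))
    (@En.n l34468 (nat_lit 4656) (nat_lit 0) (nat_lit 6))
    (@En.n l34469 (nat_lit 8878) (nat_lit 9) (nat_lit 11))
    (@En.n l7800 (nat_lit 11820) (nat_lit 10) (nat_lit 13))
    (@En.n l73 (nat_lit 8366) (nat_lit 3) (nat_lit 6))
    (@En.n l22620 (nat_lit 10807) (nat_lit 4) (nat_lit 9))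
    (@En.n l11361 (nat_lit 10496) (nat_lit 5) (nat_lit 5))
    (@En.n l34470 (nat_lit 8917) (nat_lit 8) (nat_lit 10))
    (@En.n l34471 (nat_lit 6848) (nat_lit 7) (nat_lit 7))
    (@En.n l34472 (nat_lit 9792) (nat_lit 15) (nat_lit 3))))
  (@Cl.mk (nat_lit 0x30007000b000a0006000a00070005000c0006000900060004000d000a0009) (nat_lit 0x370000a0300254) (nat_lit 16) Lb.e (@T16.mk En
    (@En.n l9970 (nat_lit 8258) (nat_lit 0) (nat_lit 9))
    (@En.n l30794 (nat_lit 9874) (nat_lit 14) (nat_lit 10))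
    (@En.n l17225 (nat_lit 2833) (nat_lit 2) (nat_lit 13))
    (@En.n l42508 (nat_lit 9642) (nat_lit 3) (nat_lit 4))
    (@En.n l42509 (nat_lit 10624) (nat_lit 4) (nat_lit 6))
    (@En.n l23455 (nat_lit 10016) (nat_lit 9) (nat_lit 9))
    (@En.n l42510 (nat_lit 4654) (nat_lit 6) (nat_lit 6))
    (@En.i (nat_lit 8881) (nat_lit 8) (nat_lit 12))
    (@En.n l3491 (nat_lit 11814) (nat_lit 8) (nat_lit 5))
    (@En.n l61 (nat_lit 8480) (nat_lit 10) (nat_lit 7))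
    (@En.n l42511 (nat_lit 10805) (nat_lit 11) (nat_lit 10))
    (@En.n l37336 (nat_lit 9816) (nat_lit 12) (nat_lit 6))
    (@En.n l40235 (nat_lit 10132) (nat_lit 13) (nat_lit 10))
    (@En.n l42511 (nat_lit 10134) (nat_lit 8) (nat_lit 11))
    (@En.n l42512 (nat_lit 6846) (nat_lit 12) (nat_lit 7))
    (@En.n l42513 (nat_lit 9793) (nat_lit 15) (nat_lit 3))))
  (@Cl.mk (nat_lit 0x300070004000d000b000a0003000b00090005000900060005000d000c0007) (nat_lit 0x2640260100420) (nat_lit 16) Lb.e (@T16.mk En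
    (@En.n l38281 (nat_lit 7243) (nat_lit 0) (nat_lit 7))
    (@En.n l19401 (nat_lit 10136) (nat_lit 8) (nat_lit 12))
    (@En.n l28450 (nat_lit 10132) (nat_lit 9) (nat_lit 13))
    (@En.n l18 (nat_lit 12402) (nat_lit 3) (nat_lit 5))
    (@En.n l38282 (nat_lit 8481) (nat_lit 4) (nat_lit 6))
    (@En.i (nat_lit 9395) (nat_lit 5) (nat_lit 9))
    (@En.n l14469 (nat_lit 12457) (nat_lit 6) (nat_lit 5))
    (@En.n l32167 (nat_lit 8849) (nat_lit 14) (nat_lit 9))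
    (@En.n l24949 (nat_lit 12471) (nat_lit 9) (nat_lit 11))
    (@En.n l15535 (nat_lit 10137) (nat_lit 9) (nat_lit 3))
    (@En.n l19405 (nat_lit 8259) (nat_lit 0) (nat_lit 10))
    (@En.i (nat_lit 10140) (nat_lit 12) (nat_lit 11))
    (@En.n l1867 (nat_lit 4224) (nat_lit 13) (nat_lit 13))
    (@En.n l38283 (nat_lit 9057) (nat_lit 3) (nat_lit 4))
    (@En.i (nat_lit 11467) (nat_lit 4) (nat_lit 7))
    (@En.n l19409 (nat_lit 10135) (nat_lit 15) (nat_lit 3))))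
  (@Cl.mk (nat_lit 0x300070003000d000b000a0003000b000a0005000900060005000d0006000d) (nat_lit 0x2340910100502) (nat_lit 16) Lb.e (@T16.mk En
    (@En.n l2711 (nat_lit 7360) (nat_lit 0) (nat_lit 13))
    (@En.n l9966 (nat_lit 9049) (nat_lit 7) (nat_lit 6))
    (@En.n l28480 (nat_lit 8877) (nat_lit 9) (nat_lit 13))
    (@En.n l3535 (nat_lit 12401) (nat_lit 3) (nat_lit 5))
    (@En.n l17 (nat_lit 8482) (nat_lit 4) (nat_lit 6))
    (@En.n l18752 (nat_lit 9397) (nat_lit 5) (nat_lit 9))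
    (@En.n l936 (nat_lit 12456) (nat_lit 6) (nat_lit 5))
    (@En.n l870 (nat_lit 8851) (nat_lit 14) (nat_lit 10))
    (@En.n l617 (nat_lit 12472) (nat_lit 11) (nat_lit 11))
    (@En.i (nat_lit 10138) (nat_lit 9) (nat_lit 3))
    (@En.n l18153 (nat_lit 8261) (nat_lit 0) (nat_lit 10))
    (@En.n l3518 (nat_lit 10141) (nat_lit 12) (nat_lit 11))
    (@En.i (nat_lit 4225) (nat_lit 2) (nat_lit 13))
    (@En.i (nat_lit 10136) (nat_lit 3) (nat_lit 3))
    (@En.n l14256 (nat_lit 11422) (nat_lit 0) (nat_lit 7))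
    (@En.n l11547 (nat_lit 10134) (nat_lit 15) (nat_lit 3))))
  (@Cl.mk (nat_lit 0x3000b000a0005000a00060005000c0006000d000600040003000d000b000a) (nat_lit 0x240800102000351) (nat_lit 16) Lb.e (@T16.mk En
    (@En.n l18153 (nat_lit 8260) (nat_lit 0) (nat_lit 10))
    (@En.n l17045 (nat_lit 10142) (nat_lit 14) (nat_lit 11))
    (@En.n l35048 (nat_lit 10133) (nat_lit 2) (nat_lit 13))
    (@En.n l50 (nat_lit 10135) (nat_lit 13) (nat_lit 3))
    (@En.n l22524 (nat_lit 9063) (nat_lit 0) (nat_lit 4))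
    (@En.i (nat_lit 10423) (nat_lit 0) (nat_lit 6))
    (@En.n l8682 (nat_lit 4341) (nat_lit 1) (nat_lit 13))
    (@En.n l23125 (nat_lit 9050) (nat_lit 7) (nat_lit 6))
    (@En.n l22524 (nat_lit 8879) (nat_lit 9) (nat_lit 12))
    (@En.n l3535 (nat_lit 12403) (nat_lit 9) (nat_lit 5))
    (@En.n l17 (nat_lit 8331) (nat_lit 6) (nat_lit 6))
    (@En.n l9824 (nat_lit 9172) (nat_lit 12) (nat_lit 10))
    (@En.n l936 (nat_lit 12458) (nat_lit 8) (nat_lit 5))
    (@En.n l870 (nat_lit 8857) (nat_lit 14) (nat_lit 10))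
    (@En.n l617 (nat_lit 12470) (nat_lit 11) (nat_lit 11))
    (@En.n l31922 (nat_lit 10139) (nat_lit 15) (nat_lit 3))))
  (@Cl.mk (nat_lit 0x300070004000d0009000c0003000b00090004000900070005000d000c0007) (nat_lit 0x7270160100ba0) (nat_lit 16) Lb.e (@T16.mk En
    (@En.n l18613 (nat_lit 7241) (nat_lit 0) (nat_lit 7))
    (@En.n l42441 (nat_lit 10139) (nat_lit 8) (nat_lit 12))
    (@En.n l18354 (nat_lit 9792) (nat_lit 9) (nat_lit 13))
    (@En.n l39629 (nat_lit 12407) (nat_lit 3) (nat_lit 5))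
    (@En.n l17 (nat_lit 9176) (nat_lit 4) (nat_lit 7))
    (@En.n l11547 (nat_lit 9393) (nat_lit 5) (nat_lit 9))
    (@En.n l42442 (nat_lit 11795) (nat_lit 6) (nat_lit 4))
    (@En.n l24188 (nat_lit 8854) (nat_lit 0) (nat_lit 9))
    (@En.n l42443 (nat_lit 8247) (nat_lit 9) (nat_lit 11))
    (@En.n l20119 (nat_lit 10134) (nat_lit 9) (nat_lit 3))
    (@En.n l18354 (nat_lit 12507) (nat_lit 6) (nat_lit 12))
    (@En.i (nat_lit 8501) (nat_lit 12) (nat_lit 9))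
    (@En.n l4774 (nat_lit 4222) (nat_lit 13) (nat_lit 13))
    (@En.n l31922 (nat_lit 9058) (nat_lit 3) (nat_lit 4))
    (@En.n l30278 (nat_lit 11468) (nat_lit 4) (nat_lit 7))
    (@En.n l7 (nat_lit 10138) (nat_lit 15) (nat_lit 3))))
  (@Cl.mk (nat_lit 0x300070003000d0009000c0003000b000a0004000900070005000d0006000d) (nat_lit 0x1370110100a02) (nat_lit 16) Lb.e (@T16.mk En
    (@En.n l18356 (nat_lit 7331) (nat_lit 0) (nat_lit 13))
    (@En.n l11 (nat_lit 8575) (nat_lit 7) (nat_lit 6))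
    (@En.n l31921 (nat_lit 9794) (nat_lit 9) (nat_lit 13))
    (@En.n l3535 (nat_lit 12404) (nat_lit 3) (nat_lit 5))
    (@En.n l17 (nat_lit 9178) (nat_lit 4) (nat_lit 7))
    (@En.n l18752 (nat_lit 9394) (nat_lit 5) (nat_lit 9))
    (@En.n l936 (nat_lit 11797) (nat_lit 6) (nat_lit 4))
    (@En.n l55 (nat_lit 4324) (nat_lit 0) (nat_lit 10))
    (@En.n l3447 (nat_lit 8249) (nat_lit 11) (nat_lit 11))
    (@En.n l19001 (nat_lit 10135) (nat_lit 9) (nat_lit 3))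
    (@En.n l8766 (nat_lit 12505) (nat_lit 6) (nat_lit 12))
    (@En.i (nat_lit 8499) (nat_lit 12) (nat_lit 9))
    (@En.i (nat_lit 4223) (nat_lit 2) (nat_lit 13))
    (@En.n l31922 (nat_lit 10139) (nat_lit 3) (nat_lit 3))
    (@En.n l17017 (nat_lit 11421) (nat_lit 0) (nat_lit 7))
    (@En.i (nat_lit 10137) (nat_lit 15) (nat_lit 3))))
  (@Cl.mk (nat_lit 0x3000b000a0004000a00070005000c0006000d000600040003000d0009000c) (nat_lit 0x170200902000748) (nat_lit 16) Lb.e (@T16.mk En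
    (@En.n l1643 (nat_lit 12506) (nat_lit 6) (nat_lit 12))
    (@En.n l31977 (nat_lit 8497) (nat_lit 14) (nat_lit 9))
    (@En.i (nat_lit 9793) (nat_lit 2) (nat_lit 13))
    (@En.n l16627 (nat_lit 10138) (nat_lit 13) (nat_lit 3))
    (@En.i (nat_lit 9060) (nat_lit 0) (nat_lit 4))
    (@En.n l35661 (nat_lit 10421) (nat_lit 0) (nat_lit 6))
    (@En.n l5856 (nat_lit 4343) (nat_lit 1) (nat_lit 13))
    (@En.n l13520 (nat_lit 8573) (nat_lit 7) (nat_lit 6))
    (@En.n l1643 (nat_lit 9795) (nat_lit 9) (nat_lit 12))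
    (@En.n l97 (nat_lit 12408) (nat_lit 9) (nat_lit 5))
    (@En.n l18886 (nat_lit 9177) (nat_lit 6) (nat_lit 7))
    (@En.n l38009 (nat_lit 9173) (nat_lit 12) (nat_lit 10))
    (@En.n l21484 (nat_lit 11828) (nat_lit 8) (nat_lit 4))
    (@En.n l897 (nat_lit 10146) (nat_lit 0) (nat_lit 10))
    (@En.n l152 (nat_lit 8248) (nat_lit 11) (nat_lit 11))
    (@En.n l41354 (nat_lit 10136) (nat_lit 15) (nat_lit 3))))
  (@Cl.mk (nat_lit 0x300070004000b0009000c000a000800050004000900070006000d000c0008) (nat_lit 0x5287400200553) (nat_lit 16) Lb.e (@T16.mk En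
    (@En.n l32802 (nat_lit 7439) (nat_lit 0) (nat_lit 8))
    (@En.n l32803 (nat_lit 10142) (nat_lit 4) (nat_lit 12))
    (@En.n l32804 (nat_lit 9878) (nat_lit 2) (nat_lit 13))
    (@En.n l18 (nat_lit 10765) (nat_lit 3) (nat_lit 6))
    (@En.n l32805 (nat_lit 10144) (nat_lit 4) (nat_lit 7))
    (@En.n l1236 (nat_lit 11812) (nat_lit 5) (nat_lit 9))
    (@En.n l32806 (nat_lit 10137) (nat_lit 6) (nat_lit 4))
    (@En.n l32807 (nat_lit 12414) (nat_lit 7) (nat_lit 5))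
    (@En.n l32808 (nat_lit 8855) (nat_lit 1) (nat_lit 8))
    (@En.n l32809 (nat_lit 11810) (nat_lit 10) (nat_lit 10))
    (@En.n l32808 (nat_lit 12503) (nat_lit 6) (nat_lit 12))
    (@En.n l32804 (nat_lit 9766) (nat_lit 12) (nat_lit 9))
    (@En.n l32810 (nat_lit 10625) (nat_lit 13) (nat_lit 11))
    (@En.n l32811 (nat_lit 11046) (nat_lit 14) (nat_lit 4))
    (@En.n l32812 (nat_lit 10918) (nat_lit 0) (nat_lit 7))
    (@En.n l32813 (nat_lit 10141) (nat_lit 15) (nat_lit 3))))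
  (@Cl.mk (nat_lit 0x300070003000b0009000c000a000900050004000900070006000d0007000d) (nat_lit 0x2286100200604) (nat_lit 16) Lb.e (@T16.mk En
    (@En.n l8549 (nat_lit 7324) (nat_lit 0) (nat_lit 13))
    (@En.i (nat_lit 11580) (nat_lit 3) (nat_lit 7))
    (@En.n l5579 (nat_lit 9877) (nat_lit 2) (nat_lit 13))
    (@En.n l20334 (nat_lit 10766) (nat_lit 3) (nat_lit 6))
    (@En.n l17 (nat_lit 10143) (nat_lit 6) (nat_lit 7))
    (@En.i (nat_lit 11813) (nat_lit 5) (nat_lit 9))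
    (@En.n l152 (nat_lit 10138) (nat_lit 6) (nat_lit 4))
    (@En.n l936 (nat_lit 12413) (nat_lit 7) (nat_lit 5))
    (@En.n l2824 (nat_lit 8856) (nat_lit 1) (nat_lit 9))
    (@En.n l20335 (nat_lit 11851) (nat_lit 10) (nat_lit 10))
    (@En.n l20336 (nat_lit 12501) (nat_lit 6) (nat_lit 12))
    (@En.i (nat_lit 9765) (nat_lit 12) (nat_lit 9))
    (@En.i (nat_lit 10623) (nat_lit 13) (nat_lit 11))
    (@En.n l20337 (nat_lit 10142) (nat_lit 15) (nat_lit 3))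
    (@En.n l20338 (nat_lit 10910) (nat_lit 0) (nat_lit 7))
    (@En.n l20339 (nat_lit 10140) (nat_lit 15) (nat_lit 3))))
  (@Cl.mk (nat_lit 0x3000b0009000c000a000900050004000a00070006000c0007000d00060004) (nat_lit 0x438800000040400) (nat_lit 16) Lb.e (@T16.mk En
    (@En.i (nat_lit 11047) (nat_lit 0) (nat_lit 4))
    (@En.n l24958 (nat_lit 10415) (nat_lit 0) (nat_lit 6))
    (@En.n l13955 (nat_lit 7332) (nat_lit 1) (nat_lit 13))
    (@En.n l50 (nat_lit 11579) (nat_lit 3) (nat_lit 7))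
    (@En.n l859 (nat_lit 8800) (nat_lit 3) (nat_lit 12))
    (@En.n l29574 (nat_lit 10773) (nat_lit 10) (nat_lit 6))
    (@En.n l29575 (nat_lit 10145) (nat_lit 6) (nat_lit 7))
    (@En.n l24958 (nat_lit 10273) (nat_lit 8) (nat_lit 10))
    (@En.n l29576 (nat_lit 10139) (nat_lit 12) (nat_lit 4))
    (@En.n l29577 (nat_lit 12434) (nat_lit 0) (nat_lit 5))
    (@En.i (nat_lit 10147) (nat_lit 1) (nat_lit 9))
    (@En.n l29578 (nat_lit 11850) (nat_lit 12) (nat_lit 10))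
    (@En.i (nat_lit 12499) (nat_lit 6) (nat_lit 12))
    (@En.n l24958 (nat_lit 10201) (nat_lit 14) (nat_lit 9))
    (@En.n l29579 (nat_lit 9944) (nat_lit 14) (nat_lit 11))
    (@En.n l29580 (nat_lit 10141) (nat_lit 13) (nat_lit 3))))
  (@Cl.mk (nat_lit 0x3000a00090004000c000b000a0006000400070005000d0006000d0003000c) (nat_lit 0x420991000050905) (nat_lit 16) Lb.e (@T16.mk En
    (@En.i (nat_lit 9161) (nat_lit 0) (nat_lit 12))
    (@En.i (nat_lit 10144) (nat_lit 15) (nat_lit 3))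
    (@En.i (nat_lit 7347) (nat_lit 0) (nat_lit 13))
    (@En.i (nat_lit 11581) (nat_lit 3) (nat_lit 6))
    (@En.n l5579 (nat_lit 9950) (nat_lit 2) (nat_lit 13))
    (@En.n l8547 (nat_lit 12712) (nat_lit 5) (nat_lit 5))
    (@En.i (nat_lit 12110) (nat_lit 11) (nat_lit 7))
    (@En.n l152 (nat_lit 9178) (nat_lit 5) (nat_lit 4))
    (@En.n l936 (nat_lit 12402) (nat_lit 0) (nat_lit 6))
    (@En.n l2824 (nat_lit 4326) (nat_lit 1) (nat_lit 10))
    (@En.n l22465 (nat_lit 11830) (nat_lit 11) (nat_lit 11))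
    (@En.i (nat_lit 10141) (nat_lit 10) (nat_lit 12))
    (@En.i (nat_lit 9203) (nat_lit 10) (nat_lit 4))
    (@En.i (nat_lit 9760) (nat_lit 7) (nat_lit 9))
    (@En.i (nat_lit 10624) (nat_lit 1) (nat_lit 10))
    (@En.i (nat_lit 10145) (nat_lit 15) (nat_lit 3))))
noncomputable def a634 : T16 Cl := @T16.mk Cl
  (@Cl.mk (nat_lit 0x3000c0004000a00090004000c000b00090006000400070005000d000c0007) (nat_lit 0x505309850000440) (nat_lit 16) Lb.e (@T16.mk En
    (@En.n l34557 (nat_lit 7437) (nat_lit 0) (nat_lit 7))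
    (@En.n l644 (nat_lit 10145) (nat_lit 4) (nat_lit 12))
    (@En.n l10008 (nat_lit 9879) (nat_lit 2) (nat_lit 13))
    (@En.n l8547 (nat_lit 12692) (nat_lit 3) (nat_lit 5))
    (@En.i (nat_lit 12109) (nat_lit 11) (nat_lit 7))
    (@En.n l152 (nat_lit 9176) (nat_lit 5) (nat_lit 4))
    (@En.n l936 (nat_lit 12407) (nat_lit 0) (nat_lit 6))
    (@En.n l2824 (nat_lit 9167) (nat_lit 1) (nat_lit 9))
    (@En.n l22465 (nat_lit 11831) (nat_lit 9) (nat_lit 11))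
    (@En.n l20339 (nat_lit 10140) (nat_lit 10) (nat_lit 12))
    (@En.n l14143 (nat_lit 9204) (nat_lit 10) (nat_lit 4))
    (@En.n l10008 (nat_lit 9757) (nat_lit 7) (nat_lit 9))
    (@En.n l10821 (nat_lit 10626) (nat_lit 1) (nat_lit 10))
    (@En.n l43056 (nat_lit 11045) (nat_lit 14) (nat_lit 4))
    (@En.n l4538 (nat_lit 10312) (nat_lit 0) (nat_lit 12))
    (@En.n l7 (nat_lit 10143) (nat_lit 1) (nat_lit 3))))
  (@Cl.mk (nat_lit 0x3000a00090005000c000b000a0006000400070005000c0006000d000b0004) (nat_lit 0x430940000030930) (nat_lit 16) Lb.e (@T16.mk En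
    (@En.n l36878 (nat_lit 11048) (nat_lit 0) (nat_lit 4))
    (@En.n l217 (nat_lit 10412) (nat_lit 0) (nat_lit 11))
    (@En.n l8550 (nat_lit 7314) (nat_lit 1) (nat_lit 13))
    (@En.i (nat_lit 11582) (nat_lit 3) (nat_lit 6))
    (@En.n l5579 (nat_lit 9936) (nat_lit 13) (nat_lit 12))
    (@En.n l8547 (nat_lit 12711) (nat_lit 5) (nat_lit 5))
    (@En.i (nat_lit 12113) (nat_lit 11) (nat_lit 7))
    (@En.n l152 (nat_lit 9177) (nat_lit 7) (nat_lit 4))
    (@En.n l936 (nat_lit 12410) (nat_lit 0) (nat_lit 6))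
    (@En.n l2824 (nat_lit 10149) (nat_lit 1) (nat_lit 10))
    (@En.n l22465 (nat_lit 11829) (nat_lit 11) (nat_lit 11))
    (@En.n l20337 (nat_lit 10142) (nat_lit 12) (nat_lit 12))
    (@En.n l8638 (nat_lit 10272) (nat_lit 4) (nat_lit 5))
    (@En.i (nat_lit 9761) (nat_lit 7) (nat_lit 9))
    (@En.i (nat_lit 9941) (nat_lit 14) (nat_lit 10))
    (@En.n l50 (nat_lit 10143) (nat_lit 15) (nat_lit 3))))
  (@Cl.mk (nat_lit 0x300090006000d000b00060003000d000700050003000d000a000d0003000a) (nat_lit 0x706100300037b06) (nat_lit 16) Lb.e (@T16.mk En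
    (@En.i (nat_lit 9527) (nat_lit 0) (nat_lit 10))
    (@En.n l39088 (nat_lit 8857) (nat_lit 15) (nat_lit 3))
    (@En.i (nat_lit 5645) (nat_lit 0) (nat_lit 13))
    (@En.n l8628 (nat_lit 10171) (nat_lit 3) (nat_lit 10))
    (@En.i (nat_lit 9792) (nat_lit 2) (nat_lit 13))
    (@En.n l29552 (nat_lit 4324) (nat_lit 5) (nat_lit 3))
    (@En.i (nat_lit 6395) (nat_lit 0) (nat_lit 5))
    (@En.n l7680 (nat_lit 10457) (nat_lit 14) (nat_lit 7))
    (@En.n l998 (nat_lit 8244) (nat_lit 2) (nat_lit 13))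
    (@En.n l39089 (nat_lit 4334) (nat_lit 9) (nat_lit 3))
    (@En.i (nat_lit 9046) (nat_lit 0) (nat_lit 6))
    (@En.n l217 (nat_lit 6404) (nat_lit 12) (nat_lit 11))
    (@En.n l14627 (nat_lit 10826) (nat_lit 13) (nat_lit 13))
    (@En.n l19885 (nat_lit 4327) (nat_lit 14) (nat_lit 6))
    (@En.n l20101 (nat_lit 10293) (nat_lit 13) (nat_lit 9))
    (@En.n l117 (nat_lit 10147) (nat_lit 15) (nat_lit 3))))
  (@Cl.mk (nat_lit 0x300090006000d000b00070003000d000700050003000c000a000d00090004) (nat_lit 0x706100300043170) (nat_lit 16) Lb.e (@T16.mk En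
    (@En.n l16716 (nat_lit 8908) (nat_lit 0) (nat_lit 4))
    (@En.n l97 (nat_lit 10184) (nat_lit 0) (nat_lit 9))
    (@En.i (nat_lit 5639) (nat_lit 5) (nat_lit 13))
    (@En.n l2503 (nat_lit 10170) (nat_lit 3) (nat_lit 10))
    (@En.n l27765 (nat_lit 9945) (nat_lit 11) (nat_lit 12))
    (@En.n l41162 (nat_lit 8856) (nat_lit 5) (nat_lit 3))
    (@En.i (nat_lit 6396) (nat_lit 0) (nat_lit 5))
    (@En.n l27765 (nat_lit 10458) (nat_lit 14) (nat_lit 7))
    (@En.n l5 (nat_lit 8254) (nat_lit 2) (nat_lit 13))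
    (@En.n l24958 (nat_lit 10148) (nat_lit 9) (nat_lit 3))
    (@En.n l4322 (nat_lit 9052) (nat_lit 0) (nat_lit 7))
    (@En.n l217 (nat_lit 6405) (nat_lit 12) (nat_lit 11))
    (@En.n l18439 (nat_lit 10829) (nat_lit 13) (nat_lit 13))
    (@En.n l41163 (nat_lit 10149) (nat_lit 14) (nat_lit 6))
    (@En.n l41164 (nat_lit 10154) (nat_lit 4) (nat_lit 9))
    (@En.n l152 (nat_lit 10146) (nat_lit 15) (nat_lit 3))))
  (@Cl.mk (nat_lit 0x300090006000d0006000c0003000d000700040003000c000a000d000a0004) (nat_lit 0x706040100063a70) (nat_lit 16) Lb.e (@T16.mk En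
    (@En.n l10269 (nat_lit 8907) (nat_lit 0) (nat_lit 4))
    (@En.n l32093 (nat_lit 11848) (nat_lit 0) (nat_lit 10))
    (@En.n l27734 (nat_lit 4670) (nat_lit 5) (nat_lit 13))
    (@En.n l97 (nat_lit 10199) (nat_lit 3) (nat_lit 10))
    (@En.n l32094 (nat_lit 9946) (nat_lit 11) (nat_lit 12))
    (@En.n l50 (nat_lit 10151) (nat_lit 13) (nat_lit 3))
    (@En.n l27734 (nat_lit 6401) (nat_lit 0) (nat_lit 4))
    (@En.i (nat_lit 10456) (nat_lit 14) (nat_lit 7))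
    (@En.n l10358 (nat_lit 2945) (nat_lit 1) (nat_lit 13))
    (@En.n l27734 (nat_lit 10147) (nat_lit 9) (nat_lit 3))
    (@En.n l16733 (nat_lit 9742) (nat_lit 0) (nat_lit 12))
    (@En.n l20337 (nat_lit 10142) (nat_lit 5) (nat_lit 6))
    (@En.n l28581 (nat_lit 10159) (nat_lit 13) (nat_lit 13))
    (@En.n l17 (nat_lit 10150) (nat_lit 14) (nat_lit 6))
    (@En.i (nat_lit 10153) (nat_lit 4) (nat_lit 9))
    (@En.n l16735 (nat_lit 4334) (nat_lit 15) (nat_lit 3))))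
  (@Cl.mk (nat_lit 0x30006000d000b00060003000d000b00050003000b000a0005000d000a0005) (nat_lit 0x31009400440280) (nat_lit 16) Lb.e (@T16.mk En
    (@En.i (nat_lit 8912) (nat_lit 0) (nat_lit 5))
    (@En.n l61 (nat_lit 10182) (nat_lit 11) (nat_lit 10))
    (@En.n l28327 (nat_lit 10147) (nat_lit 2) (nat_lit 13))
    (@En.n l8312 (nat_lit 10216) (nat_lit 3) (nat_lit 5))
    (@En.n l2863 (nat_lit 10163) (nat_lit 4) (nat_lit 10))
    (@En.n l7584 (nat_lit 9943) (nat_lit 11) (nat_lit 11))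
    (@En.n l28 (nat_lit 4326) (nat_lit 6) (nat_lit 3))
    (@En.n l28250 (nat_lit 6249) (nat_lit 0) (nat_lit 5))
    (@En.n l77 (nat_lit 9396) (nat_lit 9) (nat_lit 11))
    (@En.n l10577 (nat_lit 7623) (nat_lit 10) (nat_lit 13))
    (@En.n l9876 (nat_lit 10150) (nat_lit 10) (nat_lit 3))
    (@En.i (nat_lit 9053) (nat_lit 0) (nat_lit 6))
    (@En.n l9877 (nat_lit 6407) (nat_lit 13) (nat_lit 11))
    (@En.n l8312 (nat_lit 9084) (nat_lit 2) (nat_lit 13))
    (@En.n l9877 (nat_lit 12492) (nat_lit 12) (nat_lit 6))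
    (@En.n l25864 (nat_lit 4327) (nat_lit 15) (nat_lit 3))))
  (@Cl.mk (nat_lit 0x30006000d0005000c0003000d000b00040003000b000a0005000d000b0005) (nat_lit 0x40a09400630b10) (nat_lit 16) Lb.e (@T16.mk En
    (@En.n l3866 (nat_lit 8910) (nat_lit 0) (nat_lit 5))
    (@En.n l22465 (nat_lit 9171) (nat_lit 11) (nat_lit 11))
    (@En.i (nat_lit 10148) (nat_lit 2) (nat_lit 13))
    (@En.n l8638 (nat_lit 9151) (nat_lit 3) (nat_lit 5))
    (@En.n l97 (nat_lit 10188) (nat_lit 4) (nat_lit 10))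
    (@En.i (nat_lit 9942) (nat_lit 11) (nat_lit 11))
    (@En.n l50 (nat_lit 4330) (nat_lit 6) (nat_lit 3))
    (@En.i (nat_lit 6403) (nat_lit 0) (nat_lit 4))
    (@En.n l217 (nat_lit 9395) (nat_lit 9) (nat_lit 11))
    (@En.i (nat_lit 7229) (nat_lit 1) (nat_lit 13))
    (@En.n l1236 (nat_lit 10149) (nat_lit 10) (nat_lit 3))
    (@En.n l1867 (nat_lit 9747) (nat_lit 0) (nat_lit 12))
    (@En.i (nat_lit 10145) (nat_lit 5) (nat_lit 5))
    (@En.n l8638 (nat_lit 8549) (nat_lit 2) (nat_lit 13))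
    (@En.i (nat_lit 12491) (nat_lit 12) (nat_lit 6))
    (@En.n l152 (nat_lit 4329) (nat_lit 15) (nat_lit 3))))
  (@Cl.mk (nat_lit 0x300080003000c000a000d000a0004000300080006000d0006000d0003000d) (nat_lit 0x2067160050b0102) (nat_lit 16) Lb.e (@T16.mk En
    (@En.n l10358 (nat_lit 2949) (nat_lit 0) (nat_lit 13))
    (@En.n l1236 (nat_lit 8856) (nat_lit 9) (nat_lit 3))
    (@En.n l10406 (nat_lit 6174) (nat_lit 0) (nat_lit 13))
    (@En.i (nat_lit 10141) (nat_lit 3) (nat_lit 6))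
    (@En.n l3530 (nat_lit 10719) (nat_lit 13) (nat_lit 13))
    (@En.n l17 (nat_lit 4330) (nat_lit 14) (nat_lit 6))
    (@En.i (nat_lit 10156) (nat_lit 6) (nat_lit 8))
    (@En.n l152 (nat_lit 4331) (nat_lit 7) (nat_lit 3))
    (@En.n l3866 (nat_lit 8815) (nat_lit 0) (nat_lit 4))
    (@En.n l20335 (nat_lit 11847) (nat_lit 10) (nat_lit 10))
    (@En.n l20336 (nat_lit 3630) (nat_lit 5) (nat_lit 13))
    (@En.n l97 (nat_lit 10197) (nat_lit 3) (nat_lit 10))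
    (@En.i (nat_lit 10451) (nat_lit 11) (nat_lit 12))
    (@En.i (nat_lit 10148) (nat_lit 5) (nat_lit 3))
    (@En.n l20336 (nat_lit 4710) (nat_lit 0) (nat_lit 8))
    (@En.i (nat_lit 10152) (nat_lit 15) (nat_lit 3))))
  (@Cl.mk (nat_lit 0x300080004000c000a000d000a0004000300080006000c0006000d000c0004) (nat_lit 0x509316004090150) (nat_lit 16) Lb.e (@T16.mk En
    (@En.n l35416 (nat_lit 8919) (nat_lit 0) (nat_lit 4))
    (@En.n l644 (nat_lit 10148) (nat_lit 10) (nat_lit 12))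
    (@En.n l35417 (nat_lit 6177) (nat_lit 1) (nat_lit 13))
    (@En.n l20339 (nat_lit 10140) (nat_lit 3) (nat_lit 6))
    (@En.n l35418 (nat_lit 10155) (nat_lit 13) (nat_lit 12))
    (@En.n l17 (nat_lit 9168) (nat_lit 14) (nat_lit 6))
    (@En.i (nat_lit 10155) (nat_lit 6) (nat_lit 8))
    (@En.n l152 (nat_lit 4333) (nat_lit 7) (nat_lit 3))
    (@En.n l3866 (nat_lit 8913) (nat_lit 0) (nat_lit 4))
    (@En.n l20335 (nat_lit 11849) (nat_lit 10) (nat_lit 10))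
    (@En.n l20336 (nat_lit 4667) (nat_lit 5) (nat_lit 13))
    (@En.n l1140 (nat_lit 10200) (nat_lit 3) (nat_lit 10))
    (@En.n l34969 (nat_lit 10450) (nat_lit 13) (nat_lit 12))
    (@En.n l27734 (nat_lit 6405) (nat_lit 5) (nat_lit 4))
    (@En.n l35419 (nat_lit 10437) (nat_lit 6) (nat_lit 8))
    (@En.n l7 (nat_lit 10151) (nat_lit 15) (nat_lit 3))))
  (@Cl.mk (nat_lit 0x3000c0007000b00050004000c000b0005000b000400090005000d0005000b) (nat_lit 0x205008303060303) (nat_lit 16) Lb.e (@T16.mk En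
    (@En.n l16733 (nat_lit 11042) (nat_lit 0) (nat_lit 11))
    (@En.i (nat_lit 10273) (nat_lit 6) (nat_lit 5))
    (@En.n l8638 (nat_lit 10085) (nat_lit 2) (nat_lit 13))
    (@En.n l17 (nat_lit 12450) (nat_lit 3) (nat_lit 5))
    (@En.n l42026 (nat_lit 11840) (nat_lit 4) (nat_lit 9))
    (@En.n l15078 (nat_lit 10615) (nat_lit 5) (nat_lit 4))
    (@En.n l42027 (nat_lit 11853) (nat_lit 0) (nat_lit 11))
    (@En.n l8638 (nat_lit 6854) (nat_lit 1) (nat_lit 5))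
    (@En.n l97 (nat_lit 10848) (nat_lit 9) (nat_lit 11))
    (@En.n l42028 (nat_lit 11407) (nat_lit 10) (nat_lit 12))
    (@En.n l50 (nat_lit 10156) (nat_lit 12) (nat_lit 4))
    (@En.i (nat_lit 10631) (nat_lit 0) (nat_lit 5))
    (@En.i (nat_lit 10150) (nat_lit 8) (nat_lit 11))
    (@En.n l27735 (nat_lit 10633) (nat_lit 14) (nat_lit 7))
    (@En.n l9855 (nat_lit 6866) (nat_lit 2) (nat_lit 12))
    (@En.n l1236 (nat_lit 10154) (nat_lit 15) (nat_lit 3))))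
  (@Cl.mk (nat_lit 0x3000c0007000b00060004000c000b0005000a000400090005000d000a0006) (nat_lit 0x305007307060940) (nat_lit 16) Lb.e (@T16.mk En
    (@En.n l35186 (nat_lit 9808) (nat_lit 0) (nat_lit 6))
    (@En.n l35187 (nat_lit 10857) (nat_lit 12) (nat_lit 10))
    (@En.n l8312 (nat_lit 10084) (nat_lit 2) (nat_lit 13))
    (@En.n l35188 (nat_lit 12455) (nat_lit 3) (nat_lit 5))
    (@En.n l35186 (nat_lit 10187) (nat_lit 4) (nat_lit 9))
    (@En.n l35189 (nat_lit 10917) (nat_lit 5) (nat_lit 4))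
    (@En.n l35190 (nat_lit 10299) (nat_lit 0) (nat_lit 10))
    (@En.n l35191 (nat_lit 10721) (nat_lit 1) (nat_lit 5))
    (@En.n l2863 (nat_lit 10847) (nat_lit 9) (nat_lit 11))
    (@En.n l17196 (nat_lit 11406) (nat_lit 10) (nat_lit 12))
    (@En.n l28 (nat_lit 10157) (nat_lit 10) (nat_lit 4))
    (@En.n l28327 (nat_lit 11936) (nat_lit 0) (nat_lit 6))
    (@En.i (nat_lit 10149) (nat_lit 8) (nat_lit 11))
    (@En.n l35192 (nat_lit 10635) (nat_lit 14) (nat_lit 7))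
    (@En.n l35190 (nat_lit 10597) (nat_lit 3) (nat_lit 12))
    (@En.n l9876 (nat_lit 10153) (nat_lit 15) (nat_lit 3))))
  (@Cl.mk (nat_lit 0x30008000c0005000c000b0004000b000400080005000c0005000d000b0004) (nat_lit 0x80940703070140) (nat_lit 16) Lb.e (@T16.mk En
    (@En.n l33135 (nat_lit 10270) (nat_lit 0) (nat_lit 4))
    (@En.n l644 (nat_lit 10153) (nat_lit 0) (nat_lit 11))
    (@En.n l33136 (nat_lit 6179) (nat_lit 1) (nat_lit 13))
    (@En.n l29243 (nat_lit 11812) (nat_lit 3) (nat_lit 5))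
    (@En.n l9858 (nat_lit 10636) (nat_lit 13) (nat_lit 12))
    (@En.n l17 (nat_lit 12451) (nat_lit 5) (nat_lit 5))
    (@En.n l9854 (nat_lit 9150) (nat_lit 6) (nat_lit 8))
    (@En.n l6918 (nat_lit 10717) (nat_lit 7) (nat_lit 4))
    (@En.n l20204 (nat_lit 12414) (nat_lit 0) (nat_lit 11))
    (@En.n l9856 (nat_lit 10811) (nat_lit 1) (nat_lit 4))
    (@En.n l33136 (nat_lit 10159) (nat_lit 11) (nat_lit 11))
    (@En.n l22637 (nat_lit 10464) (nat_lit 12) (nat_lit 12))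
    (@En.i (nat_lit 10644) (nat_lit 4) (nat_lit 5))
    (@En.i (nat_lit 9168) (nat_lit 7) (nat_lit 12))
    (@En.n l33137 (nat_lit 10636) (nat_lit 14) (nat_lit 8))
    (@En.n l7 (nat_lit 10156) (nat_lit 15) (nat_lit 3))))
  (@Cl.mk (nat_lit 0x30008000c0004000c000b0004000b000400080005000d0005000d0003000c) (nat_lit 0x390a20804030102) (nat_lit 16) Lb.e (@T16.mk En
    (@En.i (nat_lit 7353) (nat_lit 0) (nat_lit 12))
    (@En.n l1236 (nat_lit 10157) (nat_lit 15) (nat_lit 3))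
    (@En.n l14222 (nat_lit 6175) (nat_lit 0) (nat_lit 13))
    (@En.i (nat_lit 11813) (nat_lit 3) (nat_lit 5))
    (@En.n l9858 (nat_lit 9585) (nat_lit 2) (nat_lit 13))
    (@En.n l17 (nat_lit 12449) (nat_lit 5) (nat_lit 5))
    (@En.n l9854 (nat_lit 9194) (nat_lit 6) (nat_lit 8))
    (@En.n l6918 (nat_lit 10816) (nat_lit 7) (nat_lit 4))
    (@En.n l20204 (nat_lit 12411) (nat_lit 0) (nat_lit 11))
    (@En.n l9856 (nat_lit 10810) (nat_lit 1) (nat_lit 4))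
    (@En.n l97 (nat_lit 10823) (nat_lit 11) (nat_lit 11))
    (@En.n l22637 (nat_lit 10462) (nat_lit 10) (nat_lit 12))
    (@En.i (nat_lit 10632) (nat_lit 10) (nat_lit 4))
    (@En.i (nat_lit 4330) (nat_lit 7) (nat_lit 12))
    (@En.n l6918 (nat_lit 10447) (nat_lit 1) (nat_lit 8))
    (@En.i (nat_lit 10155) (nat_lit 15) (nat_lit 3))))
  (@Cl.mk (nat_lit 0x3000c00040008000c0004000c000b0004000a000400080005000d000c0006) (nat_lit 0x500106500030380) (nat_lit 16) Lb.e (@T16.mk En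
    (@En.n l9885 (nat_lit 11383) (nat_lit 0) (nat_lit 6))
    (@En.n l9879 (nat_lit 10155) (nat_lit 4) (nat_lit 12))
    (@En.n l40447 (nat_lit 10088) (nat_lit 2) (nat_lit 13))
    (@En.n l35188 (nat_lit 9218) (nat_lit 3) (nat_lit 5))
    (@En.n l40448 (nat_lit 8603) (nat_lit 4) (nat_lit 8))
    (@En.i (nat_lit 10815) (nat_lit 5) (nat_lit 4))
    (@En.n l9943 (nat_lit 12457) (nat_lit 0) (nat_lit 10))
    (@En.n l40449 (nat_lit 10812) (nat_lit 1) (nat_lit 4))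
    (@En.n l2863 (nat_lit 10827) (nat_lit 0) (nat_lit 11))
    (@En.n l1723 (nat_lit 10463) (nat_lit 10) (nat_lit 12))
    (@En.n l40450 (nat_lit 10634) (nat_lit 10) (nat_lit 4))
    (@En.i (nat_lit 4326) (nat_lit 7) (nat_lit 12))
    (@En.n l11244 (nat_lit 10446) (nat_lit 11) (nat_lit 8))
    (@En.n l9885 (nat_lit 10158) (nat_lit 14) (nat_lit 4))
    (@En.n l10577 (nat_lit 10603) (nat_lit 0) (nat_lit 12))
    (@En.n l9876 (nat_lit 10156) (nat_lit 1) (nat_lit 3))))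
  (@Cl.mk (nat_lit 0x400040008000c0006000c000b00040009000400080005000c000c000a0007) (nat_lit 0x34023030409350) (nat_lit 16) Lb.e (@T16.mk En
    (@En.i (nat_lit 7077) (nat_lit 0) (nat_lit 7))
    (@En.n l16306 (nat_lit 10154) (nat_lit 1) (nat_lit 10))
    (@En.n l40468 (nat_lit 10270) (nat_lit 4) (nat_lit 12))
    (@En.n l30753 (nat_lit 10305) (nat_lit 13) (nat_lit 12))
    (@En.n l1392 (nat_lit 8952) (nat_lit 4) (nat_lit 5))
    (@En.n l14270 (nat_lit 9146) (nat_lit 11) (nat_lit 8))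
    (@En.n l3535 (nat_lit 10269) (nat_lit 6) (nat_lit 4))
    (@En.n l152 (nat_lit 8805) (nat_lit 0) (nat_lit 9))
    (@En.n l35312 (nat_lit 9165) (nat_lit 1) (nat_lit 4))
    (@En.n l55 (nat_lit 10268) (nat_lit 0) (nat_lit 11))
    (@En.n l30753 (nat_lit 7087) (nat_lit 1) (nat_lit 12))
    (@En.n l39768 (nat_lit 11544) (nat_lit 4) (nat_lit 6))
    (@En.n l3593 (nat_lit 9167) (nat_lit 7) (nat_lit 12))
    (@En.n l1353 (nat_lit 10710) (nat_lit 11) (nat_lit 8))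
    (@En.n l18 (nat_lit 10328) (nat_lit 12) (nat_lit 4))
    (@En.n l6588 (nat_lit 10155) (nat_lit 0) (nat_lit 4))))
  (@Cl.mk (nat_lit 0x30009000d0005000b0003000a000d000700050003000c0006000d000b0004) (nat_lit 0x150304200040a80) (nat_lit 16) Lb.e (@T16.mk En
    (@En.n l28086 (nat_lit 10265) (nat_lit 0) (nat_lit 4))
    (@En.n l28087 (nat_lit 10848) (nat_lit 0) (nat_lit 11))
    (@En.i (nat_lit 6114) (nat_lit 1) (nat_lit 13))
    (@En.n l28088 (nat_lit 10831) (nat_lit 14) (nat_lit 6))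
    (@En.i (nat_lit 10703) (nat_lit 10) (nat_lit 12))
    (@En.n l15259 (nat_lit 10719) (nat_lit 5) (nat_lit 3))
    (@En.n l28086 (nat_lit 12768) (nat_lit 0) (nat_lit 5))
    (@En.n l28089 (nat_lit 10215) (nat_lit 7) (nat_lit 7))
    (@En.n l5355 (nat_lit 4400) (nat_lit 5) (nat_lit 13))
    (@En.n l28090 (nat_lit 12434) (nat_lit 10) (nat_lit 10))
    (@En.n l28091 (nat_lit 10829) (nat_lit 10) (nat_lit 3))
    (@En.n l28086 (nat_lit 7000) (nat_lit 0) (nat_lit 11))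
    (@En.n l28092 (nat_lit 11773) (nat_lit 6) (nat_lit 5))
    (@En.n l50 (nat_lit 9753) (nat_lit 6) (nat_lit 13))
    (@En.n l10970 (nat_lit 10085) (nat_lit 3) (nat_lit 9))
    (@En.n l28093 (nat_lit 10823) (nat_lit 15) (nat_lit 3))))
noncomputable def a635 : T16 Cl := @T16.mk Cl
  (@Cl.mk (nat_lit 0x3000b0004000c0009000d000500040003000d000b00070003000d000c0005) (nat_lit 0x908760004800a40) (nat_lit 16) Lb.e (@T16.mk En
    (@En.i (nat_lit 6245) (nat_lit 0) (nat_lit 5))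
    (@En.n l77 (nat_lit 9399) (nat_lit 14) (nat_lit 12))
    (@En.i (nat_lit 7614) (nat_lit 2) (nat_lit 13))
    (@En.n l152 (nat_lit 8745) (nat_lit 3) (nat_lit 3))
    (@En.i (nat_lit 9992) (nat_lit 0) (nat_lit 7))
    (@En.n l97 (nat_lit 9746) (nat_lit 14) (nat_lit 11))
    (@En.n l1236 (nat_lit 9396) (nat_lit 2) (nat_lit 13))
    (@En.i (nat_lit 10163) (nat_lit 13) (nat_lit 3))
    (@En.n l18 (nat_lit 8340) (nat_lit 0) (nat_lit 4))
    (@En.i (nat_lit 10149) (nat_lit 0) (nat_lit 5))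
    (@En.i (nat_lit 4046) (nat_lit 6) (nat_lit 13))
    (@En.n l61 (nat_lit 10175) (nat_lit 12) (nat_lit 9))
    (@En.i (nat_lit 8812) (nat_lit 13) (nat_lit 12))
    (@En.n l28 (nat_lit 8736) (nat_lit 9) (nat_lit 4))
    (@En.i (nat_lit 10061) (nat_lit 11) (nat_lit 11))
    (@En.n l28 (nat_lit 10161) (nat_lit 15) (nat_lit 3))))
  (@Cl.mk (nat_lit 0x3000b0003000c0009000d000500040003000d000c00070003000d0004000d) (nat_lit 0x908240005900a02) (nat_lit 16) Lb.e (@T16.mk En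
    (@En.i (nat_lit 5339) (nat_lit 0) (nat_lit 13))
    (@En.i (nat_lit 10230) (nat_lit 3) (nat_lit 4))
    (@En.i (nat_lit 7615) (nat_lit 2) (nat_lit 13))
    (@En.n l152 (nat_lit 9403) (nat_lit 3) (nat_lit 3))
    (@En.i (nat_lit 9993) (nat_lit 0) (nat_lit 7))
    (@En.n l619 (nat_lit 9754) (nat_lit 14) (nat_lit 12))
    (@En.i (nat_lit 9395) (nat_lit 2) (nat_lit 13))
    (@En.i (nat_lit 10162) (nat_lit 13) (nat_lit 3))
    (@En.n l18 (nat_lit 8303) (nat_lit 0) (nat_lit 4))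
    (@En.i (nat_lit 4326) (nat_lit 0) (nat_lit 5))
    (@En.i (nat_lit 4027) (nat_lit 6) (nat_lit 13))
    (@En.n l61 (nat_lit 10174) (nat_lit 14) (nat_lit 9))
    (@En.i (nat_lit 8811) (nat_lit 13) (nat_lit 12))
    (@En.i (nat_lit 9399) (nat_lit 9) (nat_lit 3))
    (@En.i (nat_lit 9824) (nat_lit 0) (nat_lit 11))
    (@En.i (nat_lit 10160) (nat_lit 15) (nat_lit 3))))
  (@Cl.mk (nat_lit 0x300060003000d000c00070003000d0004000d0003000a0003000d0009000d) (nat_lit 0x5900a02080874) (nat_lit 16) Lb.e (@T16.mk En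
    (@En.i (nat_lit 4020) (nat_lit 0) (nat_lit 13))
    (@En.n l61 (nat_lit 10173) (nat_lit 14) (nat_lit 9))
    (@En.i (nat_lit 10168) (nat_lit 2) (nat_lit 13))
    (@En.n l7578 (nat_lit 10167) (nat_lit 3) (nat_lit 3))
    (@En.n l3519 (nat_lit 5970) (nat_lit 0) (nat_lit 10))
    (@En.i (nat_lit 10163) (nat_lit 5) (nat_lit 3))
    (@En.n l9970 (nat_lit 5403) (nat_lit 0) (nat_lit 13))
    (@En.i (nat_lit 10228) (nat_lit 7) (nat_lit 4))
    (@En.n l3519 (nat_lit 7618) (nat_lit 9) (nat_lit 13))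
    (@En.n l28451 (nat_lit 9764) (nat_lit 9) (nat_lit 3))
    (@En.n l9970 (nat_lit 9995) (nat_lit 0) (nat_lit 7))
    (@En.n l28801 (nat_lit 9753) (nat_lit 12) (nat_lit 12))
    (@En.i (nat_lit 10900) (nat_lit 13) (nat_lit 13))
    (@En.n l72 (nat_lit 10161) (nat_lit 7) (nat_lit 3))
    (@En.n l28954 (nat_lit 12496) (nat_lit 12) (nat_lit 6))
    (@En.n l9877 (nat_lit 10164) (nat_lit 15) (nat_lit 3))))
  (@Cl.mk (nat_lit 0x300060003000d000b00070003000d000c00050003000a0004000d0009000d) (nat_lit 0x4600a40030876) (nat_lit 16) Lb.e (@T16.mk En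
    (@En.i (nat_lit 4042) (nat_lit 0) (nat_lit 13))
    (@En.n l61 (nat_lit 10172) (nat_lit 12) (nat_lit 9))
    (@En.n l7660 (nat_lit 10170) (nat_lit 2) (nat_lit 13))
    (@En.n l28958 (nat_lit 8738) (nat_lit 3) (nat_lit 4))
    (@En.n l11228 (nat_lit 10356) (nat_lit 4) (nat_lit 10))
    (@En.n l28 (nat_lit 10162) (nat_lit 5) (nat_lit 3))
    (@En.n l3489 (nat_lit 6246) (nat_lit 0) (nat_lit 5))
    (@En.n l31460 (nat_lit 10167) (nat_lit 8) (nat_lit 12))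
    (@En.n l3519 (nat_lit 7617) (nat_lit 9) (nat_lit 13))
    (@En.n l28451 (nat_lit 10188) (nat_lit 9) (nat_lit 3))
    (@En.n l23978 (nat_lit 7989) (nat_lit 0) (nat_lit 7))
    (@En.n l28954 (nat_lit 9743) (nat_lit 12) (nat_lit 11))
    (@En.i (nat_lit 12025) (nat_lit 13) (nat_lit 13))
    (@En.n l72 (nat_lit 10160) (nat_lit 7) (nat_lit 3))
    (@En.n l28954 (nat_lit 12774) (nat_lit 12) (nat_lit 6))
    (@En.n l9877 (nat_lit 10165) (nat_lit 15) (nat_lit 3))))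
  (@Cl.mk (nat_lit 0x300060004000d000c00060003000d0004000d0003000a0003000d000c000a) (nat_lit 0xb900607080891) (nat_lit 16) Lb.e (@T16.mk En
    (@En.n l97 (nat_lit 8082) (nat_lit 0) (nat_lit 10))
    (@En.n l1236 (nat_lit 10161) (nat_lit 12) (nat_lit 12))
    (@En.i (nat_lit 10169) (nat_lit 2) (nat_lit 13))
    (@En.i (nat_lit 10166) (nat_lit 3) (nat_lit 3))
    (@En.i (nat_lit 5397) (nat_lit 0) (nat_lit 10))
    (@En.i (nat_lit 10165) (nat_lit 5) (nat_lit 3))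
    (@En.i (nat_lit 5408) (nat_lit 0) (nat_lit 13))
    (@En.n l28 (nat_lit 10226) (nat_lit 7) (nat_lit 4))
    (@En.n l601 (nat_lit 7621) (nat_lit 9) (nat_lit 13))
    (@En.n l28 (nat_lit 10190) (nat_lit 9) (nat_lit 3))
    (@En.i (nat_lit 6391) (nat_lit 0) (nat_lit 6))
    (@En.n l77 (nat_lit 10194) (nat_lit 12) (nat_lit 12))
    (@En.i (nat_lit 10888) (nat_lit 13) (nat_lit 13))
    (@En.n l345 (nat_lit 8309) (nat_lit 7) (nat_lit 4))
    (@En.i (nat_lit 8340) (nat_lit 12) (nat_lit 6))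
    (@En.n l14488 (nat_lit 10162) (nat_lit 15) (nat_lit 3))))
  (@Cl.mk (nat_lit 0x300060004000d000b00060003000d000c00050003000a0004000d000c000a) (nat_lit 0x3100640080891) (nat_lit 16) Lb.e (@T16.mk En
    (@En.n l97 (nat_lit 8086) (nat_lit 0) (nat_lit 10))
    (@En.n l1236 (nat_lit 10160) (nat_lit 12) (nat_lit 12))
    (@En.i (nat_lit 10171) (nat_lit 2) (nat_lit 13))
    (@En.n l50 (nat_lit 8642) (nat_lit 3) (nat_lit 4))
    (@En.i (nat_lit 8459) (nat_lit 4) (nat_lit 10))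
    (@En.n l50 (nat_lit 10164) (nat_lit 5) (nat_lit 3))
    (@En.n l28 (nat_lit 6247) (nat_lit 0) (nat_lit 5))
    (@En.n l217 (nat_lit 10166) (nat_lit 8) (nat_lit 12))
    (@En.n l601 (nat_lit 7620) (nat_lit 9) (nat_lit 13))
    (@En.n l28 (nat_lit 10189) (nat_lit 9) (nat_lit 3))
    (@En.i (nat_lit 6392) (nat_lit 0) (nat_lit 6))
    (@En.i (nat_lit 8590) (nat_lit 12) (nat_lit 11))
    (@En.i (nat_lit 10257) (nat_lit 13) (nat_lit 13))
    (@En.n l345 (nat_lit 8339) (nat_lit 7) (nat_lit 4))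
    (@En.i (nat_lit 8328) (nat_lit 12) (nat_lit 6))
    (@En.n l14488 (nat_lit 10163) (nat_lit 15) (nat_lit 3))))
  (@Cl.mk (nat_lit 0x300070004000d000c00060003000c0004000d000900040003000d000c000a) (nat_lit 0xb800301700895) (nat_lit 16) Lb.e (@T16.mk En
    (@En.n l97 (nat_lit 8084) (nat_lit 0) (nat_lit 10))
    (@En.n l1236 (nat_lit 9399) (nat_lit 8) (nat_lit 12))
    (@En.i (nat_lit 12006) (nat_lit 2) (nat_lit 13))
    (@En.n l18 (nat_lit 10164) (nat_lit 3) (nat_lit 3))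
    (@En.i (nat_lit 7771) (nat_lit 0) (nat_lit 4))
    (@En.n l61 (nat_lit 10169) (nat_lit 5) (nat_lit 9))
    (@En.i (nat_lit 5405) (nat_lit 1) (nat_lit 13))
    (@En.n l28 (nat_lit 10225) (nat_lit 7) (nat_lit 4))
    (@En.i (nat_lit 10433) (nat_lit 9) (nat_lit 12))
    (@En.n l28 (nat_lit 10193) (nat_lit 9) (nat_lit 3))
    (@En.i (nat_lit 6393) (nat_lit 0) (nat_lit 6))
    (@En.n l77 (nat_lit 10196) (nat_lit 12) (nat_lit 12))
    (@En.i (nat_lit 10884) (nat_lit 13) (nat_lit 13))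
    (@En.n l345 (nat_lit 8595) (nat_lit 3) (nat_lit 4))
    (@En.i (nat_lit 10160) (nat_lit 4) (nat_lit 7))
    (@En.n l117 (nat_lit 10167) (nat_lit 15) (nat_lit 3))))
  (@Cl.mk (nat_lit 0x300070003000d000c00070003000c0004000d000900040003000d0009000d) (nat_lit 0xb800301700875) (nat_lit 16) Lb.e (@T16.mk En
    (@En.n l18504 (nat_lit 4024) (nat_lit 0) (nat_lit 13))
    (@En.n l14471 (nat_lit 10216) (nat_lit 14) (nat_lit 9))
    (@En.n l17029 (nat_lit 12007) (nat_lit 2) (nat_lit 13))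
    (@En.n l14473 (nat_lit 10162) (nat_lit 3) (nat_lit 3))
    (@En.n l4004 (nat_lit 7773) (nat_lit 0) (nat_lit 4))
    (@En.n l14475 (nat_lit 10168) (nat_lit 5) (nat_lit 9))
    (@En.n l8260 (nat_lit 5402) (nat_lit 1) (nat_lit 13))
    (@En.n l18505 (nat_lit 10227) (nat_lit 7) (nat_lit 4))
    (@En.n l1589 (nat_lit 10430) (nat_lit 9) (nat_lit 12))
    (@En.n l28 (nat_lit 10198) (nat_lit 9) (nat_lit 3))
    (@En.n l8260 (nat_lit 9996) (nat_lit 0) (nat_lit 7))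
    (@En.n l77 (nat_lit 9767) (nat_lit 12) (nat_lit 12))
    (@En.i (nat_lit 10886) (nat_lit 2) (nat_lit 13))
    (@En.n l1236 (nat_lit 9399) (nat_lit 3) (nat_lit 3))
    (@En.i (nat_lit 11027) (nat_lit 0) (nat_lit 7))
    (@En.n l152 (nat_lit 10166) (nat_lit 15) (nat_lit 3))))
  (@Cl.mk (nat_lit 0x3000700060004000d000c00080003000d000400090003000a000d0008000c) (nat_lit 0xb92070606761) (nat_lit 16) Lb.e (@T16.mk En
    (@En.i (nat_lit 3588) (nat_lit 0) (nat_lit 12))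
    (@En.n l11132 (nat_lit 10181) (nat_lit 13) (nat_lit 8))
    (@En.n l11556 (nat_lit 10939) (nat_lit 5) (nat_lit 13))
    (@En.n l3519 (nat_lit 5971) (nat_lit 11) (nat_lit 10))
    (@En.n l7660 (nat_lit 10170) (nat_lit 4) (nat_lit 3))
    (@En.n l11556 (nat_lit 11588) (nat_lit 0) (nat_lit 9))
    (@En.n l7662 (nat_lit 10240) (nat_lit 6) (nat_lit 4))
    (@En.n l3519 (nat_lit 12148) (nat_lit 2) (nat_lit 13))
    (@En.n l28451 (nat_lit 10197) (nat_lit 8) (nat_lit 3))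
    (@En.n l11556 (nat_lit 10002) (nat_lit 0) (nat_lit 8))
    (@En.n l28801 (nat_lit 10200) (nat_lit 11) (nat_lit 12))
    (@En.i (nat_lit 10898) (nat_lit 12) (nat_lit 13))
    (@En.n l72 (nat_lit 8811) (nat_lit 7) (nat_lit 4))
    (@En.n l403 (nat_lit 10162) (nat_lit 14) (nat_lit 6))
    (@En.i (nat_lit 10827) (nat_lit 12) (nat_lit 7))
    (@En.n l9877 (nat_lit 10169) (nat_lit 15) (nat_lit 3))))
  (@Cl.mk (nat_lit 0x3000700060005000d000c00070003000d000400090003000a000d000b0009) (nat_lit 0xb90030608781) (nat_lit 16) Lb.e (@T16.mk En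
    (@En.n l97 (nat_lit 8083) (nat_lit 0) (nat_lit 9))
    (@En.n l17680 (nat_lit 9970) (nat_lit 13) (nat_lit 11))
    (@En.i (nat_lit 10937) (nat_lit 5) (nat_lit 13))
    (@En.i (nat_lit 5394) (nat_lit 11) (nat_lit 10))
    (@En.i (nat_lit 10171) (nat_lit 4) (nat_lit 3))
    (@En.i (nat_lit 11013) (nat_lit 0) (nat_lit 9))
    (@En.n l28 (nat_lit 10229) (nat_lit 6) (nat_lit 4))
    (@En.n l601 (nat_lit 8249) (nat_lit 2) (nat_lit 13))
    (@En.n l28 (nat_lit 10192) (nat_lit 8) (nat_lit 3))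
    (@En.i (nat_lit 6389) (nat_lit 0) (nat_lit 7))
    (@En.n l77 (nat_lit 10195) (nat_lit 11) (nat_lit 12))
    (@En.i (nat_lit 10891) (nat_lit 12) (nat_lit 13))
    (@En.n l345 (nat_lit 8851) (nat_lit 11) (nat_lit 5))
    (@En.n l17 (nat_lit 10164) (nat_lit 14) (nat_lit 6))
    (@En.i (nat_lit 10175) (nat_lit 5) (nat_lit 7))
    (@En.n l14488 (nat_lit 10168) (nat_lit 15) (nat_lit 3))))
  (@Cl.mk (nat_lit 0x3000800060004000d000b00080003000d000800050003000a000d0008000c) (nat_lit 0x500721076002705) (nat_lit 16) Lb.e (@T16.mk En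
    (@En.n l30819 (nat_lit 3884) (nat_lit 0) (nat_lit 12))
    (@En.n l30820 (nat_lit 10180) (nat_lit 13) (nat_lit 8))
    (@En.i (nat_lit 8030) (nat_lit 5) (nat_lit 13))
    (@En.n l30821 (nat_lit 10357) (nat_lit 11) (nat_lit 10))
    (@En.n l2584 (nat_lit 10168) (nat_lit 4) (nat_lit 3))
    (@En.n l8163 (nat_lit 6248) (nat_lit 0) (nat_lit 5))
    (@En.n l25675 (nat_lit 11243) (nat_lit 14) (nat_lit 8))
    (@En.n l30822 (nat_lit 12150) (nat_lit 2) (nat_lit 13))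
    (@En.n l30823 (nat_lit 10199) (nat_lit 8) (nat_lit 3))
    (@En.i (nat_lit 10003) (nat_lit 0) (nat_lit 8))
    (@En.n l5399 (nat_lit 9750) (nat_lit 11) (nat_lit 11))
    (@En.n l10637 (nat_lit 12026) (nat_lit 12) (nat_lit 13))
    (@En.n l30824 (nat_lit 8812) (nat_lit 7) (nat_lit 4))
    (@En.n l30825 (nat_lit 10163) (nat_lit 14) (nat_lit 6))
    (@En.n l30819 (nat_lit 10847) (nat_lit 5) (nat_lit 8))
    (@En.n l30826 (nat_lit 10171) (nat_lit 15) (nat_lit 3))))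
  (@Cl.mk (nat_lit 0x3000800060005000d000b00070003000d000800050003000a000d000b0009) (nat_lit 0x500720036006787) (nat_lit 16) Lb.e (@T16.mk En
    (@En.n l20832 (nat_lit 9012) (nat_lit 0) (nat_lit 9))
    (@En.n l17680 (nat_lit 9971) (nat_lit 13) (nat_lit 11))
    (@En.n l16721 (nat_lit 10933) (nat_lit 5) (nat_lit 13))
    (@En.i (nat_lit 8461) (nat_lit 11) (nat_lit 10))
    (@En.n l50 (nat_lit 10169) (nat_lit 4) (nat_lit 3))
    (@En.n l16721 (nat_lit 6250) (nat_lit 0) (nat_lit 5))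
    (@En.i (nat_lit 10466) (nat_lit 14) (nat_lit 8))
    (@En.n l29046 (nat_lit 8248) (nat_lit 2) (nat_lit 13))
    (@En.n l28 (nat_lit 10191) (nat_lit 8) (nat_lit 3))
    (@En.n l13297 (nat_lit 6390) (nat_lit 0) (nat_lit 7))
    (@En.i (nat_lit 8591) (nat_lit 11) (nat_lit 11))
    (@En.n l3695 (nat_lit 10894) (nat_lit 12) (nat_lit 13))
    (@En.n l345 (nat_lit 8857) (nat_lit 11) (nat_lit 5))
    (@En.n l17 (nat_lit 10165) (nat_lit 14) (nat_lit 6))
    (@En.i (nat_lit 10178) (nat_lit 5) (nat_lit 8))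
    (@En.n l29047 (nat_lit 10170) (nat_lit 15) (nat_lit 3))))
  (@Cl.mk (nat_lit 0x3000b00040009000d000a00050003000c000a000700060004000d000c0006) (nat_lit 0x306230026000ba0) (nat_lit 16) Lb.e (@T16.mk En
    (@En.n l18669 (nat_lit 6252) (nat_lit 0) (nat_lit 6))
    (@En.n l77 (nat_lit 10216) (nat_lit 4) (nat_lit 12))
    (@En.n l3517 (nat_lit 9963) (nat_lit 2) (nat_lit 13))
    (@En.n l19198 (nat_lit 8603) (nat_lit 3) (nat_lit 4))
    (@En.n l9877 (nat_lit 10165) (nat_lit 10) (nat_lit 6))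
    (@En.n l31251 (nat_lit 8857) (nat_lit 5) (nat_lit 7))
    (@En.n l9877 (nat_lit 8544) (nat_lit 14) (nat_lit 10))
    (@En.i (nat_lit 10212) (nat_lit 8) (nat_lit 12))
    (@En.n l18 (nat_lit 10175) (nat_lit 8) (nat_lit 3))
    (@En.i (nat_lit 9280) (nat_lit 0) (nat_lit 5))
    (@En.i (nat_lit 9010) (nat_lit 11) (nat_lit 10))
    (@En.i (nat_lit 10166) (nat_lit 6) (nat_lit 13))
    (@En.n l11469 (nat_lit 10290) (nat_lit 3) (nat_lit 9))
    (@En.n l28 (nat_lit 10179) (nat_lit 4) (nat_lit 4))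
    (@En.n l8047 (nat_lit 10557) (nat_lit 0) (nat_lit 11))
    (@En.n l28 (nat_lit 10173) (nat_lit 1) (nat_lit 3))))
  (@Cl.mk (nat_lit 0x30009000d000a00050003000c000b000700060004000d0005000d0003000b) (nat_lit 0x6960021000a0209) (nat_lit 16) Lb.e (@T16.mk En
    (@En.i (nat_lit 9485) (nat_lit 0) (nat_lit 11))
    (@En.i (nat_lit 10172) (nat_lit 15) (nat_lit 3))
    (@En.n l9875 (nat_lit 5640) (nat_lit 0) (nat_lit 13))
    (@En.i (nat_lit 8757) (nat_lit 3) (nat_lit 5))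
    (@En.n l3517 (nat_lit 9961) (nat_lit 2) (nat_lit 13))
    (@En.n l9876 (nat_lit 9194) (nat_lit 5) (nat_lit 4))
    (@En.n l9877 (nat_lit 10164) (nat_lit 10) (nat_lit 6))
    (@En.n l9878 (nat_lit 10146) (nat_lit 7) (nat_lit 7))
    (@En.n l9879 (nat_lit 8549) (nat_lit 9) (nat_lit 11))
    (@En.i (nat_lit 10469) (nat_lit 10) (nat_lit 12))
    (@En.n l18 (nat_lit 10174) (nat_lit 10) (nat_lit 3))
    (@En.i (nat_lit 9282) (nat_lit 0) (nat_lit 5))
    (@En.i (nat_lit 9009) (nat_lit 13) (nat_lit 10))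
    (@En.i (nat_lit 10193) (nat_lit 6) (nat_lit 13))
    (@En.i (nat_lit 10292) (nat_lit 3) (nat_lit 9))
    (@En.i (nat_lit 10216) (nat_lit 15) (nat_lit 3))))
  (@Cl.mk (nat_lit 0x30009000d0004000b0003000c000b000700050004000d0005000d0003000c) (nat_lit 0x1809019000a020a) (nat_lit 16) Lb.e (@T16.mk En
    (@En.i (nat_lit 9574) (nat_lit 0) (nat_lit 12))
    (@En.i (nat_lit 10175) (nat_lit 15) (nat_lit 3))
    (@En.i (nat_lit 5653) (nat_lit 0) (nat_lit 13))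
    (@En.i (nat_lit 8756) (nat_lit 3) (nat_lit 5))
    (@En.i (nat_lit 9960) (nat_lit 2) (nat_lit 13))
    (@En.n l1003 (nat_lit 4335) (nat_lit 5) (nat_lit 4))
    (@En.n l17 (nat_lit 8309) (nat_lit 4) (nat_lit 5))
    (@En.i (nat_lit 4334) (nat_lit 7) (nat_lit 7))
    (@En.n l619 (nat_lit 9095) (nat_lit 9) (nat_lit 11))
    (@En.i (nat_lit 9142) (nat_lit 10) (nat_lit 12))
    (@En.i (nat_lit 10173) (nat_lit 10) (nat_lit 3))
    (@En.i (nat_lit 4437) (nat_lit 0) (nat_lit 11))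
    (@En.i (nat_lit 9174) (nat_lit 10) (nat_lit 4))
    (@En.i (nat_lit 10190) (nat_lit 6) (nat_lit 13))
    (@En.i (nat_lit 8703) (nat_lit 1) (nat_lit 9))
    (@En.i (nat_lit 9151) (nat_lit 15) (nat_lit 3))))
  (@Cl.mk (nat_lit 0x3000c00040009000d0004000b0003000c000a000700050004000d000c0006) (nat_lit 0x906803016000b90) (nat_lit 16) Lb.e (@T16.mk En
    (@En.i (nat_lit 6380) (nat_lit 0) (nat_lit 6))
    (@En.n l77 (nat_lit 9151) (nat_lit 4) (nat_lit 12))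
    (@En.i (nat_lit 9962) (nat_lit 10) (nat_lit 13))
    (@En.n l19198 (nat_lit 8602) (nat_lit 12) (nat_lit 4))
    (@En.n l17 (nat_lit 8339) (nat_lit 4) (nat_lit 5))
    (@En.n l16294 (nat_lit 8874) (nat_lit 5) (nat_lit 7))
    (@En.n l97 (nat_lit 8545) (nat_lit 14) (nat_lit 10))
    (@En.n l1236 (nat_lit 9146) (nat_lit 8) (nat_lit 12))
    (@En.i (nat_lit 10172) (nat_lit 8) (nat_lit 3))
    (@En.n l6785 (nat_lit 4438) (nat_lit 0) (nat_lit 11))
    (@En.i (nat_lit 10182) (nat_lit 10) (nat_lit 4))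
    (@En.i (nat_lit 10164) (nat_lit 6) (nat_lit 13))
    (@En.n l11469 (nat_lit 10289) (nat_lit 1) (nat_lit 9))
    (@En.n l35451 (nat_lit 10177) (nat_lit 4) (nat_lit 4))
    (@En.n l601 (nat_lit 10588) (nat_lit 0) (nat_lit 12))
    (@En.n l28 (nat_lit 10174) (nat_lit 1) (nat_lit 3))))
noncomputable def a636 : T16 Cl := @T16.mk Cl
  (@Cl.mk (nat_lit 0x3000c0008000c00050004000b0004000c000b000800050004000d0005000b) (nat_lit 0x253004077400403) (nat_lit 16) Lb.e (@T16.mk En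
    (@En.i (nat_lit 11157) (nat_lit 0) (nat_lit 11))
    (@En.i (nat_lit 8754) (nat_lit 6) (nat_lit 5))
    (@En.i (nat_lit 10307) (nat_lit 2) (nat_lit 13))
    (@En.n l23332 (nat_lit 9205) (nat_lit 3) (nat_lit 4))
    (@En.n l17 (nat_lit 8598) (nat_lit 4) (nat_lit 5))
    (@En.i (nat_lit 11848) (nat_lit 5) (nat_lit 8))
    (@En.n l619 (nat_lit 10286) (nat_lit 5) (nat_lit 11))
    (@En.i (nat_lit 10177) (nat_lit 8) (nat_lit 12))
    (@En.n l50 (nat_lit 10181) (nat_lit 8) (nat_lit 4))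
    (@En.i (nat_lit 9541) (nat_lit 10) (nat_lit 11))
    (@En.n l50 (nat_lit 10174) (nat_lit 12) (nat_lit 4))
    (@En.i (nat_lit 10187) (nat_lit 0) (nat_lit 5))
    (@En.i (nat_lit 10189) (nat_lit 7) (nat_lit 12))
    (@En.n l217 (nat_lit 11301) (nat_lit 14) (nat_lit 8))
    (@En.i (nat_lit 9576) (nat_lit 2) (nat_lit 12))
    (@En.i (nat_lit 10178) (nat_lit 15) (nat_lit 3))))
  (@Cl.mk (nat_lit 0x3000c0009000700050004000c000c000a0007000400040009000d0006000b) (nat_lit 0x850005680002501) (nat_lit 16) Lb.e (@T16.mk En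
    (@En.n l19609 (nat_lit 2414) (nat_lit 0) (nat_lit 11))
    (@En.n l15619 (nat_lit 8758) (nat_lit 6) (nat_lit 6))
    (@En.n l23331 (nat_lit 10226) (nat_lit 6) (nat_lit 13))
    (@En.i (nat_lit 11714) (nat_lit 3) (nat_lit 9))
    (@En.n l3536 (nat_lit 10202) (nat_lit 12) (nat_lit 4))
    (@En.n l23331 (nat_lit 9151) (nat_lit 0) (nat_lit 4))
    (@En.n l3866 (nat_lit 1603) (nat_lit 0) (nat_lit 7))
    (@En.n l35097 (nat_lit 10178) (nat_lit 1) (nat_lit 10))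
    (@En.n l35098 (nat_lit 10218) (nat_lit 4) (nat_lit 12))
    (@En.n l23334 (nat_lit 10400) (nat_lit 10) (nat_lit 12))
    (@En.n l50 (nat_lit 9142) (nat_lit 12) (nat_lit 4))
    (@En.n l35099 (nat_lit 8319) (nat_lit 0) (nat_lit 5))
    (@En.n l3866 (nat_lit 8810) (nat_lit 1) (nat_lit 7))
    (@En.n l8922 (nat_lit 7050) (nat_lit 14) (nat_lit 9))
    (@En.n l15619 (nat_lit 8719) (nat_lit 2) (nat_lit 12))
    (@En.n l23331 (nat_lit 10179) (nat_lit 15) (nat_lit 3))))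
  (@Cl.mk (nat_lit 0x3000c0008000c00060004000b0004000c000a000800050004000d000a0006) (nat_lit 0x355002078400370) (nat_lit 16) Lb.e (@T16.mk En
    (@En.n l9824 (nat_lit 6388) (nat_lit 0) (nat_lit 6))
    (@En.i (nat_lit 9735) (nat_lit 14) (nat_lit 10))
    (@En.i (nat_lit 10306) (nat_lit 2) (nat_lit 13))
    (@En.n l9824 (nat_lit 10291) (nat_lit 12) (nat_lit 4))
    (@En.n l17 (nat_lit 8329) (nat_lit 4) (nat_lit 5))
    (@En.n l30837 (nat_lit 10297) (nat_lit 5) (nat_lit 8))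
    (@En.n l97 (nat_lit 8769) (nat_lit 6) (nat_lit 10))
    (@En.n l23331 (nat_lit 10179) (nat_lit 8) (nat_lit 12))
    (@En.n l50 (nat_lit 10180) (nat_lit 8) (nat_lit 4))
    (@En.n l30838 (nat_lit 9543) (nat_lit 10) (nat_lit 11))
    (@En.n l50 (nat_lit 10175) (nat_lit 10) (nat_lit 4))
    (@En.n l30839 (nat_lit 10180) (nat_lit 0) (nat_lit 6))
    (@En.i (nat_lit 10165) (nat_lit 7) (nat_lit 12))
    (@En.n l217 (nat_lit 11298) (nat_lit 14) (nat_lit 8))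
    (@En.n l601 (nat_lit 10580) (nat_lit 3) (nat_lit 12))
    (@En.n l28 (nat_lit 10176) (nat_lit 15) (nat_lit 3))))
  (@Cl.mk (nat_lit 0x3000c0009000700060004000c000c00090007000400040009000d000a0007) (nat_lit 0x310003670002480) (nat_lit 16) Lb.e (@T16.mk En
    (@En.n l14171 (nat_lit 10792) (nat_lit 0) (nat_lit 7))
    (@En.n l30829 (nat_lit 8940) (nat_lit 12) (nat_lit 10))
    (@En.i (nat_lit 10225) (nat_lit 6) (nat_lit 13))
    (@En.n l30830 (nat_lit 11715) (nat_lit 3) (nat_lit 9))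
    (@En.n l30831 (nat_lit 10203) (nat_lit 12) (nat_lit 4))
    (@En.i (nat_lit 10216) (nat_lit 0) (nat_lit 4))
    (@En.n l30832 (nat_lit 4199) (nat_lit 0) (nat_lit 7))
    (@En.n l55 (nat_lit 10180) (nat_lit 1) (nat_lit 9))
    (@En.n l30833 (nat_lit 10217) (nat_lit 4) (nat_lit 12))
    (@En.n l30834 (nat_lit 10399) (nat_lit 10) (nat_lit 12))
    (@En.n l6882 (nat_lit 9146) (nat_lit 10) (nat_lit 4))
    (@En.n l9877 (nat_lit 8642) (nat_lit 10) (nat_lit 6))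
    (@En.n l30830 (nat_lit 8812) (nat_lit 1) (nat_lit 7))
    (@En.n l9877 (nat_lit 5313) (nat_lit 14) (nat_lit 9))
    (@En.n l30835 (nat_lit 10209) (nat_lit 9) (nat_lit 12))
    (@En.n l30836 (nat_lit 10177) (nat_lit 15) (nat_lit 3))))
  (@Cl.mk (nat_lit 0x3000b0008000c0009000700050004000c000a000800070004000d00090006) (nat_lit 0x266700058000760) (nat_lit 16) Lb.e (@T16.mk En
    (@En.n l42429 (nat_lit 6251) (nat_lit 0) (nat_lit 6))
    (@En.i (nat_lit 11294) (nat_lit 14) (nat_lit 9))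
    (@En.n l5801 (nat_lit 10309) (nat_lit 2) (nat_lit 13))
    (@En.n l34011 (nat_lit 10187) (nat_lit 3) (nat_lit 4))
    (@En.n l32054 (nat_lit 10171) (nat_lit 9) (nat_lit 7))
    (@En.n l36139 (nat_lit 10183) (nat_lit 5) (nat_lit 8))
    (@En.n l42430 (nat_lit 9729) (nat_lit 6) (nat_lit 10))
    (@En.n l41135 (nat_lit 10921) (nat_lit 8) (nat_lit 12))
    (@En.n l42431 (nat_lit 10183) (nat_lit 12) (nat_lit 4))
    (@En.i (nat_lit 10172) (nat_lit 9) (nat_lit 5))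
    (@En.n l22962 (nat_lit 12036) (nat_lit 1) (nat_lit 7))
    (@En.n l644 (nat_lit 9013) (nat_lit 12) (nat_lit 9))
    (@En.i (nat_lit 8642) (nat_lit 7) (nat_lit 12))
    (@En.n l42432 (nat_lit 11984) (nat_lit 14) (nat_lit 8))
    (@En.n l22963 (nat_lit 10553) (nat_lit 11) (nat_lit 11))
    (@En.n l28 (nat_lit 10181) (nat_lit 15) (nat_lit 3))))
  (@Cl.mk (nat_lit 0x3000b0008000c0009000600050004000c000b000800070004000d0005000a) (nat_lit 0x156600057000705) (nat_lit 16) Lb.e (@T16.mk En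
    (@En.n l32059 (nat_lit 11584) (nat_lit 0) (nat_lit 10))
    (@En.i (nat_lit 8758) (nat_lit 8) (nat_lit 5))
    (@En.n l5801 (nat_lit 10708) (nat_lit 2) (nat_lit 13))
    (@En.n l41911 (nat_lit 11840) (nat_lit 3) (nat_lit 4))
    (@En.n l32054 (nat_lit 10169) (nat_lit 9) (nat_lit 7))
    (@En.n l9878 (nat_lit 10184) (nat_lit 5) (nat_lit 8))
    (@En.n l36140 (nat_lit 9733) (nat_lit 5) (nat_lit 11))
    (@En.i (nat_lit 10923) (nat_lit 8) (nat_lit 12))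
    (@En.n l36142 (nat_lit 10185) (nat_lit 12) (nat_lit 4))
    (@En.i (nat_lit 10173) (nat_lit 11) (nat_lit 5))
    (@En.n l29036 (nat_lit 12458) (nat_lit 1) (nat_lit 6))
    (@En.n l644 (nat_lit 9011) (nat_lit 12) (nat_lit 9))
    (@En.i (nat_lit 8640) (nat_lit 7) (nat_lit 12))
    (@En.n l396 (nat_lit 11985) (nat_lit 14) (nat_lit 8))
    (@En.n l7 (nat_lit 9478) (nat_lit 11) (nat_lit 11))
    (@En.i (nat_lit 10180) (nat_lit 15) (nat_lit 3))))
  (@Cl.mk (nat_lit 0x3000c000b0005000a0004000b0005000c000a000600050004000d000b0006) (nat_lit 0x940702015000a50) (nat_lit 16) Lb.e (@T16.mk En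
    (@En.n l19203 (nat_lit 6381) (nat_lit 0) (nat_lit 6))
    (@En.n l77 (nat_lit 10272) (nat_lit 5) (nat_lit 11))
    (@En.n l32434 (nat_lit 10303) (nat_lit 2) (nat_lit 13))
    (@En.n l19198 (nat_lit 9197) (nat_lit 12) (nat_lit 4))
    (@En.n l7899 (nat_lit 4327) (nat_lit 11) (nat_lit 5))
    (@En.n l16294 (nat_lit 10136) (nat_lit 5) (nat_lit 6))
    (@En.n l41989 (nat_lit 10531) (nat_lit 6) (nat_lit 10))
    (@En.n l30839 (nat_lit 8656) (nat_lit 8) (nat_lit 12))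
    (@En.n l24572 (nat_lit 8768) (nat_lit 8) (nat_lit 5))
    (@En.n l41990 (nat_lit 9488) (nat_lit 10) (nat_lit 11))
    (@En.i (nat_lit 10178) (nat_lit 10) (nat_lit 4))
    (@En.n l11469 (nat_lit 10288) (nat_lit 0) (nat_lit 10))
    (@En.n l30839 (nat_lit 10181) (nat_lit 1) (nat_lit 5))
    (@En.n l217 (nat_lit 10172) (nat_lit 14) (nat_lit 11))
    (@En.n l41991 (nat_lit 10711) (nat_lit 3) (nat_lit 12))
    (@En.n l28 (nat_lit 9174) (nat_lit 15) (nat_lit 3))))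
  (@Cl.mk (nat_lit 0x3000a00080004000c000a000800060004000d000800060003000d0008000c) (nat_lit 0x260715005600321) (nat_lit 16) Lb.e (@T16.mk En
    (@En.n l34619 (nat_lit 8641) (nat_lit 0) (nat_lit 12))
    (@En.i (nat_lit 10424) (nat_lit 14) (nat_lit 8))
    (@En.n l17393 (nat_lit 10409) (nat_lit 2) (nat_lit 13))
    (@En.n l39233 (nat_lit 10185) (nat_lit 3) (nat_lit 3))
    (@En.n l39234 (nat_lit 6387) (nat_lit 0) (nat_lit 6))
    (@En.n l39235 (nat_lit 10425) (nat_lit 5) (nat_lit 8))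
    (@En.n l5649 (nat_lit 10313) (nat_lit 2) (nat_lit 13))
    (@En.n l39236 (nat_lit 9202) (nat_lit 7) (nat_lit 4))
    (@En.n l39235 (nat_lit 8857) (nat_lit 8) (nat_lit 6))
    (@En.n l18712 (nat_lit 9202) (nat_lit 5) (nat_lit 8))
    (@En.n l39237 (nat_lit 9290) (nat_lit 11) (nat_lit 10))
    (@En.n l17170 (nat_lit 10918) (nat_lit 12) (nat_lit 12))
    (@En.n l34619 (nat_lit 10178) (nat_lit 8) (nat_lit 4))
    (@En.n l21012 (nat_lit 10298) (nat_lit 14) (nat_lit 8))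
    (@En.n l8667 (nat_lit 9546) (nat_lit 11) (nat_lit 10))
    (@En.n l34530 (nat_lit 10184) (nat_lit 15) (nat_lit 3))))
  (@Cl.mk (nat_lit 0x3000a00080005000c000a000700060004000d000800060003000d000b0009) (nat_lit 0x650460005600336) (nat_lit 16) Lb.e (@T16.mk En
    (@En.n l1175 (nat_lit 11283) (nat_lit 0) (nat_lit 9))
    (@En.n l43237 (nat_lit 10180) (nat_lit 14) (nat_lit 11))
    (@En.n l4749 (nat_lit 10713) (nat_lit 2) (nat_lit 13))
    (@En.n l43238 (nat_lit 10186) (nat_lit 3) (nat_lit 3))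
    (@En.n l575 (nat_lit 6386) (nat_lit 0) (nat_lit 6))
    (@En.n l43239 (nat_lit 10420) (nat_lit 5) (nat_lit 8))
    (@En.n l43240 (nat_lit 10311) (nat_lit 2) (nat_lit 13))
    (@En.n l43241 (nat_lit 9201) (nat_lit 7) (nat_lit 4))
    (@En.i (nat_lit 10146) (nat_lit 10) (nat_lit 6))
    (@En.n l43242 (nat_lit 10413) (nat_lit 5) (nat_lit 7))
    (@En.n l43243 (nat_lit 10533) (nat_lit 11) (nat_lit 10))
    (@En.n l14627 (nat_lit 10919) (nat_lit 12) (nat_lit 12))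
    (@En.n l43244 (nat_lit 10182) (nat_lit 8) (nat_lit 5))
    (@En.n l43245 (nat_lit 10299) (nat_lit 14) (nat_lit 8))
    (@En.n l43246 (nat_lit 9017) (nat_lit 11) (nat_lit 10))
    (@En.n l43247 (nat_lit 10183) (nat_lit 15) (nat_lit 3))))
  (@Cl.mk (nat_lit 0x3000a00070004000c000b000800060004000d000500090003000d0008000c) (nat_lit 0x700774005040651) (nat_lit 16) Lb.e (@T16.mk En
    (@En.n l6444 (nat_lit 8639) (nat_lit 0) (nat_lit 12))
    (@En.n l7658 (nat_lit 11302) (nat_lit 14) (nat_lit 8))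
    (@En.i (nat_lit 10400) (nat_lit 2) (nat_lit 13))
    (@En.n l23940 (nat_lit 10183) (nat_lit 3) (nat_lit 3))
    (@En.n l21664 (nat_lit 11316) (nat_lit 0) (nat_lit 9))
    (@En.n l14276 (nat_lit 9337) (nat_lit 5) (nat_lit 5))
    (@En.n l31653 (nat_lit 10706) (nat_lit 2) (nat_lit 13))
    (@En.n l21209 (nat_lit 9200) (nat_lit 7) (nat_lit 4))
    (@En.i (nat_lit 8851) (nat_lit 8) (nat_lit 6))
    (@En.n l23341 (nat_lit 9201) (nat_lit 5) (nat_lit 8))
    (@En.n l29019 (nat_lit 10295) (nat_lit 5) (nat_lit 11))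
    (@En.n l3866 (nat_lit 10916) (nat_lit 12) (nat_lit 12))
    (@En.n l6444 (nat_lit 10176) (nat_lit 8) (nat_lit 4))
    (@En.n l9943 (nat_lit 12456) (nat_lit 14) (nat_lit 7))
    (@En.n l18 (nat_lit 9547) (nat_lit 11) (nat_lit 10))
    (@En.n l11132 (nat_lit 10186) (nat_lit 15) (nat_lit 3))))
  (@Cl.mk (nat_lit 0x3000a00070005000c000b000700060004000d000500090003000d000b0009) (nat_lit 0x800370006040627) (nat_lit 16) Lb.e (@T16.mk En
    (@En.n l34077 (nat_lit 11284) (nat_lit 0) (nat_lit 9))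
    (@En.n l217 (nat_lit 10181) (nat_lit 14) (nat_lit 11))
    (@En.n l34078 (nat_lit 10399) (nat_lit 2) (nat_lit 13))
    (@En.n l19203 (nat_lit 10184) (nat_lit 3) (nat_lit 3))
    (@En.n l32059 (nat_lit 11586) (nat_lit 0) (nat_lit 9))
    (@En.n l29514 (nat_lit 9336) (nat_lit 5) (nat_lit 5))
    (@En.n l16210 (nat_lit 10707) (nat_lit 2) (nat_lit 13))
    (@En.n l1003 (nat_lit 9199) (nat_lit 7) (nat_lit 4))
    (@En.n l34079 (nat_lit 4324) (nat_lit 10) (nat_lit 6))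
    (@En.n l34080 (nat_lit 10414) (nat_lit 5) (nat_lit 7))
    (@En.n l619 (nat_lit 11849) (nat_lit 5) (nat_lit 11))
    (@En.n l34081 (nat_lit 10616) (nat_lit 12) (nat_lit 12))
    (@En.i (nat_lit 9174) (nat_lit 8) (nat_lit 5))
    (@En.n l29036 (nat_lit 12457) (nat_lit 14) (nat_lit 7))
    (@En.n l34082 (nat_lit 9897) (nat_lit 11) (nat_lit 10))
    (@En.n l763 (nat_lit 10185) (nat_lit 15) (nat_lit 3))))
  (@Cl.mk (nat_lit 0x3000b0007000c000b000700050004000c0005000b00090004000d00090005) (nat_lit 0x609200040350230) (nat_lit 16) Lb.e (@T16.mk En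
    (@En.i (nat_lit 8589) (nat_lit 0) (nat_lit 5))
    (@En.n l217 (nat_lit 9991) (nat_lit 14) (nat_lit 9))
    (@En.n l15619 (nat_lit 10434) (nat_lit 2) (nat_lit 13))
    (@En.n l19250 (nat_lit 11844) (nat_lit 3) (nat_lit 4))
    (@En.n l763 (nat_lit 10185) (nat_lit 4) (nat_lit 9))
    (@En.n l28101 (nat_lit 11867) (nat_lit 1) (nat_lit 11))
    (@En.n l15619 (nat_lit 8750) (nat_lit 6) (nat_lit 5))
    (@En.n l41416 (nat_lit 11715) (nat_lit 8) (nat_lit 12))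
    (@En.n l23332 (nat_lit 9202) (nat_lit 12) (nat_lit 4))
    (@En.n l43099 (nat_lit 8603) (nat_lit 9) (nat_lit 5))
    (@En.i (nat_lit 11850) (nat_lit 1) (nat_lit 7))
    (@En.n l619 (nat_lit 10293) (nat_lit 5) (nat_lit 11))
    (@En.n l35099 (nat_lit 8319) (nat_lit 13) (nat_lit 12))
    (@En.n l17650 (nat_lit 11816) (nat_lit 14) (nat_lit 7))
    (@En.n l28101 (nat_lit 10591) (nat_lit 11) (nat_lit 11))
    (@En.n l43100 (nat_lit 11840) (nat_lit 15) (nat_lit 3))))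
  (@Cl.mk (nat_lit 0x300060003000d0006000c0003000d000c00040003000a0004000d000a000d) (nat_lit 0x5090a20020876) (nat_lit 16) Lb.e (@T16.mk En
    (@En.n l830 (nat_lit 4022) (nat_lit 0) (nat_lit 13))
    (@En.i (nat_lit 8604) (nat_lit 12) (nat_lit 10))
    (@En.i (nat_lit 10199) (nat_lit 2) (nat_lit 13))
    (@En.n l7161 (nat_lit 8737) (nat_lit 3) (nat_lit 4))
    (@En.n l830 (nat_lit 9665) (nat_lit 4) (nat_lit 10))
    (@En.n l50 (nat_lit 9764) (nat_lit 5) (nat_lit 3))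
    (@En.i (nat_lit 9769) (nat_lit 0) (nat_lit 4))
    (@En.n l7162 (nat_lit 10198) (nat_lit 8) (nat_lit 12))
    (@En.n l830 (nat_lit 7225) (nat_lit 1) (nat_lit 13))
    (@En.n l14488 (nat_lit 10163) (nat_lit 9) (nat_lit 3))
    (@En.n l1865 (nat_lit 8539) (nat_lit 0) (nat_lit 12))
    (@En.n l117 (nat_lit 9761) (nat_lit 14) (nat_lit 6))
    (@En.i (nat_lit 12028) (nat_lit 13) (nat_lit 13))
    (@En.n l3851 (nat_lit 8745) (nat_lit 7) (nat_lit 3))
    (@En.i (nat_lit 12773) (nat_lit 12) (nat_lit 6))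
    (@En.n l107 (nat_lit 10189) (nat_lit 15) (nat_lit 3))))
  (@Cl.mk (nat_lit 0x300060004000d0005000c0003000d000c00040003000a0004000d000c000b) (nat_lit 0x9090620080888) (nat_lit 16) Lb.e (@T16.mk En
    (@En.n l619 (nat_lit 8338) (nat_lit 0) (nat_lit 11))
    (@En.n l3866 (nat_lit 8745) (nat_lit 12) (nat_lit 12))
    (@En.i (nat_lit 10191) (nat_lit 2) (nat_lit 13))
    (@En.n l50 (nat_lit 8640) (nat_lit 3) (nat_lit 4))
    (@En.i (nat_lit 8453) (nat_lit 4) (nat_lit 10))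
    (@En.n l50 (nat_lit 10190) (nat_lit 5) (nat_lit 3))
    (@En.i (nat_lit 8583) (nat_lit 0) (nat_lit 4))
    (@En.n l217 (nat_lit 10193) (nat_lit 8) (nat_lit 12))
    (@En.i (nat_lit 7230) (nat_lit 1) (nat_lit 13))
    (@En.i (nat_lit 10165) (nat_lit 9) (nat_lit 3))
    (@En.i (nat_lit 8540) (nat_lit 0) (nat_lit 12))
    (@En.i (nat_lit 8498) (nat_lit 5) (nat_lit 5))
    (@En.i (nat_lit 10256) (nat_lit 13) (nat_lit 13))
    (@En.i (nat_lit 8310) (nat_lit 7) (nat_lit 4))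
    (@En.i (nat_lit 4629) (nat_lit 12) (nat_lit 6))
    (@En.i (nat_lit 10188) (nat_lit 15) (nat_lit 3))))
  (@Cl.mk (nat_lit 0x300060004000d0005000d0003000d0003000d0003000a0003000d000c000b) (nat_lit 0xa0b0607080876) (nat_lit 16) Lb.e (@T16.mk En
    (@En.n l619 (nat_lit 8486) (nat_lit 0) (nat_lit 11))
    (@En.n l3866 (nat_lit 9403) (nat_lit 12) (nat_lit 12))
    (@En.i (nat_lit 10192) (nat_lit 2) (nat_lit 13))
    (@En.i (nat_lit 10193) (nat_lit 3) (nat_lit 3))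
    (@En.i (nat_lit 6688) (nat_lit 0) (nat_lit 10))
    (@En.i (nat_lit 10189) (nat_lit 5) (nat_lit 3))
    (@En.i (nat_lit 5411) (nat_lit 0) (nat_lit 13))
    (@En.i (nat_lit 10194) (nat_lit 7) (nat_lit 3))
    (@En.i (nat_lit 7265) (nat_lit 0) (nat_lit 13))
    (@En.i (nat_lit 10164) (nat_lit 9) (nat_lit 3))
    (@En.i (nat_lit 5656) (nat_lit 0) (nat_lit 13))
    (@En.i (nat_lit 8500) (nat_lit 5) (nat_lit 5))
    (@En.i (nat_lit 10889) (nat_lit 13) (nat_lit 13))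
    (@En.i (nat_lit 8304) (nat_lit 7) (nat_lit 4))
    (@En.i (nat_lit 8303) (nat_lit 12) (nat_lit 6))
    (@En.i (nat_lit 9764) (nat_lit 15) (nat_lit 3))))
  (@Cl.mk (nat_lit 0x3000800060005000d0006000c0003000d000800040003000a000d000b000a) (nat_lit 0x500701024006777) (nat_lit 16) Lb.e (@T16.mk En
    (@En.n l619 (nat_lit 8334) (nat_lit 0) (nat_lit 10))
    (@En.n l10040 (nat_lit 9969) (nat_lit 13) (nat_lit 11))
    (@En.i (nat_lit 10932) (nat_lit 5) (nat_lit 13))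
    (@En.i (nat_lit 8458) (nat_lit 11) (nat_lit 10))
    (@En.n l50 (nat_lit 10192) (nat_lit 4) (nat_lit 3))
    (@En.n l16721 (nat_lit 8584) (nat_lit 0) (nat_lit 4))
    (@En.i (nat_lit 10465) (nat_lit 14) (nat_lit 8))
    (@En.i (nat_lit 2941) (nat_lit 1) (nat_lit 13))
    (@En.i (nat_lit 10171) (nat_lit 8) (nat_lit 3))
    (@En.i (nat_lit 8538) (nat_lit 0) (nat_lit 12))
    (@En.i (nat_lit 8497) (nat_lit 5) (nat_lit 6))
    (@En.i (nat_lit 10895) (nat_lit 12) (nat_lit 13))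
    (@En.i (nat_lit 8874) (nat_lit 11) (nat_lit 5))
    (@En.n l17 (nat_lit 10189) (nat_lit 14) (nat_lit 6))
    (@En.i (nat_lit 10176) (nat_lit 5) (nat_lit 8))
    (@En.i (nat_lit 10199) (nat_lit 15) (nat_lit 3))))
noncomputable def a637 : T16 Cl := @T16.mk Cl
  (@Cl.mk (nat_lit 0x3000700060005000d0006000d0003000d000300090003000a000d000b000a) (nat_lit 0xa0b020608777) (nat_lit 16) Lb.e (@T16.mk En
    (@En.n l619 (nat_lit 8484) (nat_lit 0) (nat_lit 10))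
    (@En.n l10040 (nat_lit 9967) (nat_lit 11) (nat_lit 11))
    (@En.i (nat_lit 10935) (nat_lit 5) (nat_lit 13))
    (@En.i (nat_lit 6680) (nat_lit 11) (nat_lit 10))
    (@En.i (nat_lit 10191) (nat_lit 4) (nat_lit 3))
    (@En.i (nat_lit 11591) (nat_lit 0) (nat_lit 9))
    (@En.i (nat_lit 10195) (nat_lit 6) (nat_lit 3))
    (@En.i (nat_lit 2948) (nat_lit 0) (nat_lit 13))
    (@En.i (nat_lit 10169) (nat_lit 8) (nat_lit 3))
    (@En.i (nat_lit 5657) (nat_lit 0) (nat_lit 13))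
    (@En.i (nat_lit 8499) (nat_lit 3) (nat_lit 6))
    (@En.i (nat_lit 10892) (nat_lit 12) (nat_lit 13))
    (@En.i (nat_lit 8872) (nat_lit 5) (nat_lit 5))
    (@En.n l17 (nat_lit 10190) (nat_lit 14) (nat_lit 6))
    (@En.i (nat_lit 10174) (nat_lit 7) (nat_lit 7))
    (@En.i (nat_lit 10197) (nat_lit 15) (nat_lit 3))))
  (@Cl.mk (nat_lit 0x300070004000d0005000d0003000c0003000d000900040003000d000c000b) (nat_lit 0xa0a0108700738) (nat_lit 16) Lb.e (@T16.mk En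
    (@En.n l619 (nat_lit 8490) (nat_lit 0) (nat_lit 11))
    (@En.n l3866 (nat_lit 9400) (nat_lit 8) (nat_lit 12))
    (@En.i (nat_lit 12005) (nat_lit 2) (nat_lit 13))
    (@En.n l18 (nat_lit 10190) (nat_lit 3) (nat_lit 3))
    (@En.i (nat_lit 7770) (nat_lit 0) (nat_lit 4))
    (@En.n l61 (nat_lit 10192) (nat_lit 5) (nat_lit 9))
    (@En.i (nat_lit 5409) (nat_lit 1) (nat_lit 13))
    (@En.i (nat_lit 10196) (nat_lit 7) (nat_lit 3))
    (@En.i (nat_lit 8848) (nat_lit 0) (nat_lit 12))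
    (@En.i (nat_lit 10166) (nat_lit 9) (nat_lit 3))
    (@En.i (nat_lit 5658) (nat_lit 0) (nat_lit 13))
    (@En.i (nat_lit 8503) (nat_lit 7) (nat_lit 5))
    (@En.i (nat_lit 10883) (nat_lit 13) (nat_lit 13))
    (@En.i (nat_lit 8307) (nat_lit 3) (nat_lit 4))
    (@En.i (nat_lit 10161) (nat_lit 4) (nat_lit 7))
    (@En.n l117 (nat_lit 10198) (nat_lit 15) (nat_lit 3))))
  (@Cl.mk (nat_lit 0x300060004000c0005000d000c00040003000d0004000a0003000d000c000b) (nat_lit 0x80ba007080959) (nat_lit 16) Lb.e (@T16.mk En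
    (@En.n l619 (nat_lit 8485) (nat_lit 0) (nat_lit 11))
    (@En.n l3866 (nat_lit 9754) (nat_lit 4) (nat_lit 12))
    (@En.i (nat_lit 10195) (nat_lit 2) (nat_lit 13))
    (@En.i (nat_lit 10196) (nat_lit 3) (nat_lit 3))
    (@En.i (nat_lit 6689) (nat_lit 0) (nat_lit 10))
    (@En.n l7 (nat_lit 8590) (nat_lit 5) (nat_lit 4))
    (@En.n l396 (nat_lit 8613) (nat_lit 7) (nat_lit 13))
    (@En.n l7 (nat_lit 10190) (nat_lit 7) (nat_lit 3))
    (@En.i (nat_lit 10221) (nat_lit 0) (nat_lit 4))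
    (@En.n l644 (nat_lit 10189) (nat_lit 10) (nat_lit 12))
    (@En.n l3528 (nat_lit 5655) (nat_lit 1) (nat_lit 13))
    (@En.i (nat_lit 8502) (nat_lit 7) (nat_lit 5))
    (@En.i (nat_lit 10696) (nat_lit 13) (nat_lit 12))
    (@En.i (nat_lit 8308) (nat_lit 9) (nat_lit 4))
    (@En.i (nat_lit 8305) (nat_lit 12) (nat_lit 6))
    (@En.n l9956 (nat_lit 9753) (nat_lit 15) (nat_lit 3))))
  (@Cl.mk (nat_lit 0x3000700060005000c0006000d000c0004000300090004000a000d000b000a) (nat_lit 0x80b200608898) (nat_lit 16) Lb.e (@T16.mk En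
    (@En.n l619 (nat_lit 8483) (nat_lit 0) (nat_lit 10))
    (@En.n l10040 (nat_lit 9968) (nat_lit 11) (nat_lit 11))
    (@En.i (nat_lit 10936) (nat_lit 5) (nat_lit 13))
    (@En.i (nat_lit 6654) (nat_lit 3) (nat_lit 10))
    (@En.n l7 (nat_lit 8591) (nat_lit 4) (nat_lit 4))
    (@En.i (nat_lit 10489) (nat_lit 5) (nat_lit 9))
    (@En.n l7 (nat_lit 10192) (nat_lit 6) (nat_lit 3))
    (@En.i (nat_lit 8921) (nat_lit 0) (nat_lit 4))
    (@En.n l644 (nat_lit 10191) (nat_lit 9) (nat_lit 12))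
    (@En.n l3528 (nat_lit 5654) (nat_lit 1) (nat_lit 13))
    (@En.i (nat_lit 8501) (nat_lit 3) (nat_lit 6))
    (@En.i (nat_lit 10694) (nat_lit 12) (nat_lit 12))
    (@En.i (nat_lit 8873) (nat_lit 5) (nat_lit 5))
    (@En.n l17 (nat_lit 10194) (nat_lit 14) (nat_lit 6))
    (@En.i (nat_lit 9151) (nat_lit 7) (nat_lit 7))
    (@En.n l9956 (nat_lit 10200) (nat_lit 15) (nat_lit 3))))
  (@Cl.mk (nat_lit 0x300070004000c0005000d000b00040003000d000900050003000d000c000b) (nat_lit 0x70a9008700939) (nat_lit 16) Lb.e (@T16.mk En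
    (@En.n l619 (nat_lit 8491) (nat_lit 0) (nat_lit 11))
    (@En.n l3866 (nat_lit 9401) (nat_lit 4) (nat_lit 12))
    (@En.i (nat_lit 12004) (nat_lit 2) (nat_lit 13))
    (@En.n l18 (nat_lit 10194) (nat_lit 3) (nat_lit 3))
    (@En.n l7 (nat_lit 7768) (nat_lit 0) (nat_lit 5))
    (@En.n l61 (nat_lit 10195) (nat_lit 5) (nat_lit 9))
    (@En.n l396 (nat_lit 8612) (nat_lit 2) (nat_lit 13))
    (@En.n l7 (nat_lit 10193) (nat_lit 7) (nat_lit 3))
    (@En.i (nat_lit 10220) (nat_lit 0) (nat_lit 4))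
    (@En.i (nat_lit 8640) (nat_lit 10) (nat_lit 11))
    (@En.i (nat_lit 5659) (nat_lit 1) (nat_lit 13))
    (@En.i (nat_lit 8504) (nat_lit 7) (nat_lit 5))
    (@En.i (nat_lit 10699) (nat_lit 13) (nat_lit 12))
    (@En.i (nat_lit 8606) (nat_lit 9) (nat_lit 4))
    (@En.i (nat_lit 9399) (nat_lit 0) (nat_lit 7))
    (@En.n l117 (nat_lit 9767) (nat_lit 15) (nat_lit 3))))
  (@Cl.mk (nat_lit 0x3000700060004000d0007000d0003000d000300090003000a000d0009000c) (nat_lit 0xa0b070606772) (nat_lit 16) Lb.e (@T16.mk En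
    (@En.n l1106 (nat_lit 4016) (nat_lit 0) (nat_lit 12))
    (@En.i (nat_lit 11841) (nat_lit 11) (nat_lit 9))
    (@En.n l10326 (nat_lit 10938) (nat_lit 5) (nat_lit 13))
    (@En.n l1106 (nat_lit 5969) (nat_lit 11) (nat_lit 10))
    (@En.i (nat_lit 10199) (nat_lit 4) (nat_lit 3))
    (@En.i (nat_lit 11589) (nat_lit 0) (nat_lit 9))
    (@En.n l9956 (nat_lit 10200) (nat_lit 6) (nat_lit 3))
    (@En.n l1106 (nat_lit 7234) (nat_lit 0) (nat_lit 13))
    (@En.n l14488 (nat_lit 10168) (nat_lit 8) (nat_lit 3))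
    (@En.n l1865 (nat_lit 6170) (nat_lit 0) (nat_lit 13))
    (@En.n l117 (nat_lit 9765) (nat_lit 3) (nat_lit 7))
    (@En.i (nat_lit 10899) (nat_lit 12) (nat_lit 13))
    (@En.n l3851 (nat_lit 8808) (nat_lit 5) (nat_lit 4))
    (@En.n l17 (nat_lit 9764) (nat_lit 14) (nat_lit 6))
    (@En.i (nat_lit 10823) (nat_lit 7) (nat_lit 7))
    (@En.n l107 (nat_lit 10192) (nat_lit 15) (nat_lit 3))))
  (@Cl.mk (nat_lit 0x300070003000d0006000d0003000c0003000d000900040003000d000a000d) (nat_lit 0xb090104700785) (nat_lit 16) Lb.e (@T16.mk En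
    (@En.n l11605 (nat_lit 4023) (nat_lit 0) (nat_lit 13))
    (@En.n l97 (nat_lit 9083) (nat_lit 14) (nat_lit 10))
    (@En.i (nat_lit 12017) (nat_lit 2) (nat_lit 13))
    (@En.n l4296 (nat_lit 9764) (nat_lit 3) (nat_lit 3))
    (@En.n l4004 (nat_lit 7772) (nat_lit 0) (nat_lit 4))
    (@En.n l4007 (nat_lit 10197) (nat_lit 5) (nat_lit 9))
    (@En.n l1867 (nat_lit 5406) (nat_lit 1) (nat_lit 13))
    (@En.i (nat_lit 9767) (nat_lit 7) (nat_lit 3))
    (@En.n l637 (nat_lit 8852) (nat_lit 0) (nat_lit 12))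
    (@En.i (nat_lit 10167) (nat_lit 9) (nat_lit 3))
    (@En.n l1867 (nat_lit 6143) (nat_lit 0) (nat_lit 13))
    (@En.i (nat_lit 9762) (nat_lit 14) (nat_lit 6))
    (@En.i (nat_lit 10885) (nat_lit 2) (nat_lit 13))
    (@En.n l3866 (nat_lit 9400) (nat_lit 3) (nat_lit 3))
    (@En.i (nat_lit 11026) (nat_lit 0) (nat_lit 7))
    (@En.n l152 (nat_lit 10193) (nat_lit 15) (nat_lit 3))))
  (@Cl.mk (nat_lit 0x3000800060004000d0007000c0003000d000800040003000a000d0009000c) (nat_lit 0x500701074002775) (nat_lit 16) Lb.e (@T16.mk En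
    (@En.n l830 (nat_lit 3886) (nat_lit 0) (nat_lit 12))
    (@En.i (nat_lit 11844) (nat_lit 13) (nat_lit 9))
    (@En.n l16719 (nat_lit 10934) (nat_lit 5) (nat_lit 13))
    (@En.n l830 (nat_lit 9664) (nat_lit 11) (nat_lit 10))
    (@En.n l50 (nat_lit 10197) (nat_lit 4) (nat_lit 3))
    (@En.n l16719 (nat_lit 9773) (nat_lit 0) (nat_lit 4))
    (@En.i (nat_lit 11241) (nat_lit 14) (nat_lit 8))
    (@En.n l2058 (nat_lit 7232) (nat_lit 1) (nat_lit 13))
    (@En.n l29047 (nat_lit 10170) (nat_lit 8) (nat_lit 3))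
    (@En.n l16719 (nat_lit 8537) (nat_lit 0) (nat_lit 12))
    (@En.n l117 (nat_lit 10201) (nat_lit 5) (nat_lit 7))
    (@En.i (nat_lit 12027) (nat_lit 12) (nat_lit 13))
    (@En.n l3851 (nat_lit 8810) (nat_lit 7) (nat_lit 4))
    (@En.n l17 (nat_lit 10188) (nat_lit 14) (nat_lit 6))
    (@En.i (nat_lit 10848) (nat_lit 5) (nat_lit 8))
    (@En.n l107 (nat_lit 10191) (nat_lit 15) (nat_lit 3))))
  (@Cl.mk (nat_lit 0x3000700060004000c0007000d000c0004000300090004000a000d0009000c) (nat_lit 0x80b200602752) (nat_lit 16) Lb.e (@T16.mk En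
    (@En.n l25321 (nat_lit 4017) (nat_lit 0) (nat_lit 12))
    (@En.n l10970 (nat_lit 9733) (nat_lit 11) (nat_lit 9))
    (@En.n l5838 (nat_lit 10940) (nat_lit 5) (nat_lit 13))
    (@En.n l25321 (nat_lit 6651) (nat_lit 3) (nat_lit 10))
    (@En.n l6210 (nat_lit 9750) (nat_lit 4) (nat_lit 4))
    (@En.n l18443 (nat_lit 10492) (nat_lit 5) (nat_lit 9))
    (@En.n l11107 (nat_lit 10197) (nat_lit 6) (nat_lit 3))
    (@En.n l25322 (nat_lit 8922) (nat_lit 0) (nat_lit 4))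
    (@En.n l25313 (nat_lit 10199) (nat_lit 9) (nat_lit 12))
    (@En.i (nat_lit 5664) (nat_lit 1) (nat_lit 13))
    (@En.n l1770 (nat_lit 9766) (nat_lit 3) (nat_lit 7))
    (@En.i (nat_lit 10695) (nat_lit 12) (nat_lit 12))
    (@En.n l2705 (nat_lit 8806) (nat_lit 5) (nat_lit 4))
    (@En.n l7 (nat_lit 9753) (nat_lit 14) (nat_lit 6))
    (@En.n l644 (nat_lit 10159) (nat_lit 7) (nat_lit 7))
    (@En.n l3522 (nat_lit 10195) (nat_lit 15) (nat_lit 3))))
  (@Cl.mk (nat_lit 0x30009000c00090008000c00040009000700040007000c0008000d00070004) (nat_lit 0x257160600034600) (nat_lit 16) Lb.e (@T16.mk En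
    (@En.n l41674 (nat_lit 9772) (nat_lit 0) (nat_lit 4))
    (@En.i (nat_lit 11242) (nat_lit 0) (nat_lit 7))
    (@En.n l14112 (nat_lit 7235) (nat_lit 1) (nat_lit 13))
    (@En.n l32631 (nat_lit 10004) (nat_lit 3) (nat_lit 8))
    (@En.n l41675 (nat_lit 9699) (nat_lit 5) (nat_lit 12))
    (@En.n l41676 (nat_lit 11928) (nat_lit 11) (nat_lit 7))
    (@En.n l3866 (nat_lit 8809) (nat_lit 6) (nat_lit 4))
    (@En.n l17 (nat_lit 9761) (nat_lit 0) (nat_lit 7))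
    (@En.i (nat_lit 10837) (nat_lit 1) (nat_lit 9))
    (@En.n l152 (nat_lit 8497) (nat_lit 9) (nat_lit 4))
    (@En.n l5859 (nat_lit 10199) (nat_lit 0) (nat_lit 12))
    (@En.n l41677 (nat_lit 10170) (nat_lit 1) (nat_lit 8))
    (@En.n l8580 (nat_lit 11843) (nat_lit 13) (nat_lit 9))
    (@En.n l41675 (nat_lit 12317) (nat_lit 6) (nat_lit 12))
    (@En.n l831 (nat_lit 6281) (nat_lit 4) (nat_lit 9))
    (@En.n l50 (nat_lit 9765) (nat_lit 13) (nat_lit 3))))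
  (@Cl.mk (nat_lit 0x2000b000800040009000d0005000b0003000c0008000700050004000e000c) (nat_lit 0x710140305600026) (nat_lit 16) Lb.e (@T16.mk En
    (@En.n l9832 (nat_lit 10177) (nat_lit 9) (nat_lit 12))
    (@En.n l19700 (nat_lit 9344) (nat_lit 1) (nat_lit 14))
    (@En.n l28 (nat_lit 9144) (nat_lit 2) (nat_lit 4))
    (@En.n l19701 (nat_lit 8325) (nat_lit 3) (nat_lit 5))
    (@En.i (nat_lit 8859) (nat_lit 4) (nat_lit 7))
    (@En.n l9493 (nat_lit 6491) (nat_lit 5) (nat_lit 8))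
    (@En.n l4426 (nat_lit 8712) (nat_lit 7) (nat_lit 12))
    (@En.n l117 (nat_lit 10203) (nat_lit 7) (nat_lit 3))
    (@En.n l170 (nat_lit 7647) (nat_lit 9) (nat_lit 11))
    (@En.n l4427 (nat_lit 9345) (nat_lit 9) (nat_lit 5))
    (@En.n l19702 (nat_lit 10237) (nat_lit 11) (nat_lit 13))
    (@En.n l17 (nat_lit 5614) (nat_lit 12) (nat_lit 9))
    (@En.n l19702 (nat_lit 10175) (nat_lit 13) (nat_lit 4))
    (@En.i (nat_lit 1600) (nat_lit 14) (nat_lit 8))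
    (@En.i (nat_lit 10585) (nat_lit 1) (nat_lit 11))
    (@En.n l50 (nat_lit 10202) (nat_lit 15) (nat_lit 2))))
  (@Cl.mk (nat_lit 0x2000a000800040009000d000a00060003000c0008000700060004000e000c) (nat_lit 0x8101310052000c4) (nat_lit 16) Lb.e (@T16.mk En
    (@En.n l16290 (nat_lit 10179) (nat_lit 9) (nat_lit 12))
    (@En.n l16291 (nat_lit 8142) (nat_lit 1) (nat_lit 14))
    (@En.n l28 (nat_lit 9145) (nat_lit 2) (nat_lit 4))
    (@En.n l16292 (nat_lit 8641) (nat_lit 3) (nat_lit 6))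
    (@En.i (nat_lit 8858) (nat_lit 4) (nat_lit 7))
    (@En.n l16293 (nat_lit 7009) (nat_lit 5) (nat_lit 8))
    (@En.n l5011 (nat_lit 10206) (nat_lit 7) (nat_lit 12))
    (@En.n l152 (nat_lit 10202) (nat_lit 7) (nat_lit 3))
    (@En.n l16294 (nat_lit 7973) (nat_lit 8) (nat_lit 6))
    (@En.n l14504 (nat_lit 7653) (nat_lit 10) (nat_lit 10))
    (@En.n l16295 (nat_lit 10236) (nat_lit 11) (nat_lit 13))
    (@En.n l17 (nat_lit 5615) (nat_lit 12) (nat_lit 9))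
    (@En.n l16295 (nat_lit 10172) (nat_lit 13) (nat_lit 4))
    (@En.n l11575 (nat_lit 1605) (nat_lit 14) (nat_lit 8))
    (@En.n l5200 (nat_lit 10552) (nat_lit 1) (nat_lit 10))
    (@En.n l50 (nat_lit 10203) (nat_lit 15) (nat_lit 2))))
  (@Cl.mk (nat_lit 0x2000a0008000400090008000d0006000c00030008000700040008000e000c) (nat_lit 0x8306350404001c9) (nat_lit 16) Lb.e (@T16.mk En
    (@En.n l396 (nat_lit 10208) (nat_lit 10) (nat_lit 12))
    (@En.n l4316 (nat_lit 9340) (nat_lit 1) (nat_lit 14))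
    (@En.n l17747 (nat_lit 5319) (nat_lit 2) (nat_lit 8))
    (@En.i (nat_lit 10254) (nat_lit 3) (nat_lit 4))
    (@En.n l17747 (nat_lit 4289) (nat_lit 4) (nat_lit 7))
    (@En.n l152 (nat_lit 7101) (nat_lit 5) (nat_lit 8))
    (@En.n l117 (nat_lit 10205) (nat_lit 6) (nat_lit 3))
    (@En.n l10357 (nat_lit 8708) (nat_lit 8) (nat_lit 12))
    (@En.n l19001 (nat_lit 11572) (nat_lit 8) (nat_lit 6))
    (@En.n l10882 (nat_lit 10202) (nat_lit 10) (nat_lit 13))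
    (@En.i (nat_lit 10329) (nat_lit 11) (nat_lit 8))
    (@En.n l3213 (nat_lit 7806) (nat_lit 12) (nat_lit 9))
    (@En.n l3593 (nat_lit 10211) (nat_lit 5) (nat_lit 4))
    (@En.i (nat_lit 5517) (nat_lit 14) (nat_lit 8))
    (@En.i (nat_lit 10592) (nat_lit 1) (nat_lit 10))
    (@En.n l50 (nat_lit 10204) (nat_lit 15) (nat_lit 2))))
  (@Cl.mk (nat_lit 0x200090008000400090008000d000b000700030008000700050008000e000c) (nat_lit 0x1306342004001c5) (nat_lit 16) Lb.e (@T16.mk En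
    (@En.n l31409 (nat_lit 10207) (nat_lit 10) (nat_lit 12))
    (@En.n l4316 (nat_lit 9341) (nat_lit 1) (nat_lit 14))
    (@En.n l31410 (nat_lit 5321) (nat_lit 10) (nat_lit 8))
    (@En.n l21461 (nat_lit 10249) (nat_lit 3) (nat_lit 5))
    (@En.n l6820 (nat_lit 4291) (nat_lit 4) (nat_lit 7))
    (@En.i (nat_lit 12522) (nat_lit 5) (nat_lit 8))
    (@En.n l152 (nat_lit 10204) (nat_lit 6) (nat_lit 3))
    (@En.n l6820 (nat_lit 11195) (nat_lit 0) (nat_lit 7))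
    (@En.n l31381 (nat_lit 10206) (nat_lit 9) (nat_lit 11))
    (@En.n l15538 (nat_lit 10203) (nat_lit 10) (nat_lit 13))
    (@En.i (nat_lit 10331) (nat_lit 11) (nat_lit 8))
    (@En.n l19511 (nat_lit 7804) (nat_lit 12) (nat_lit 9))
    (@En.n l31411 (nat_lit 10210) (nat_lit 13) (nat_lit 4))
    (@En.n l17986 (nat_lit 5514) (nat_lit 14) (nat_lit 8))
    (@En.n l6820 (nat_lit 8837) (nat_lit 1) (nat_lit 9))
    (@En.n l50 (nat_lit 10205) (nat_lit 15) (nat_lit 2))))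
  (@Cl.mk (nat_lit 0x2000a00090004000a0008000b0006000c00070006000500040008000e000c) (nat_lit 0x206310400002c7) (nat_lit 16) Lb.e (@T16.mk En
    (@En.n l6741 (nat_lit 10209) (nat_lit 3) (nat_lit 12))
    (@En.n l16791 (nat_lit 9345) (nat_lit 1) (nat_lit 14))
    (@En.n l16673 (nat_lit 10205) (nat_lit 2) (nat_lit 8))
    (@En.n l16674 (nat_lit 10204) (nat_lit 3) (nat_lit 4))
    (@En.n l237 (nat_lit 10246) (nat_lit 4) (nat_lit 5))
    (@En.i (nat_lit 4290) (nat_lit 5) (nat_lit 6))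
    (@En.n l2842 (nat_lit 12521) (nat_lit 6) (nat_lit 7))
    (@En.i (nat_lit 8705) (nat_lit 8) (nat_lit 12))
    (@En.n l2724 (nat_lit 12189) (nat_lit 8) (nat_lit 6))
    (@En.i (nat_lit 8984) (nat_lit 10) (nat_lit 11))
    (@En.n l16676 (nat_lit 10333) (nat_lit 11) (nat_lit 8))
    (@En.n l16792 (nat_lit 7805) (nat_lit 12) (nat_lit 10))
    (@En.n l16793 (nat_lit 10212) (nat_lit 13) (nat_lit 4))
    (@En.n l16674 (nat_lit 5519) (nat_lit 14) (nat_lit 9))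
    (@En.i (nat_lit 10554) (nat_lit 1) (nat_lit 10))
    (@En.n l3 (nat_lit 10206) (nat_lit 15) (nat_lit 2))))
  (@Cl.mk (nat_lit 0x30009000700050008000c000c000800070004000400090008000d000b0008) (nat_lit 0x400144300065594) (nat_lit 16) Lb.e (@T16.mk En
    (@En.n l25112 (nat_lit 10040) (nat_lit 0) (nat_lit 8))
    (@En.n l25113 (nat_lit 10209) (nat_lit 11) (nat_lit 11))
    (@En.n l25114 (nat_lit 10179) (nat_lit 2) (nat_lit 13))
    (@En.n l25115 (nat_lit 10266) (nat_lit 3) (nat_lit 8))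
    (@En.n l22566 (nat_lit 10592) (nat_lit 4) (nat_lit 9))
    (@En.n l25116 (nat_lit 10205) (nat_lit 12) (nat_lit 4))
    (@En.n l237 (nat_lit 10213) (nat_lit 0) (nat_lit 4))
    (@En.i (nat_lit 5515) (nat_lit 0) (nat_lit 7))
    (@En.n l16813 (nat_lit 10920) (nat_lit 1) (nat_lit 8))
    (@En.n l4380 (nat_lit 10735) (nat_lit 4) (nat_lit 12))
    (@En.n l25117 (nat_lit 10186) (nat_lit 11) (nat_lit 12))
    (@En.i (nat_lit 4485) (nat_lit 10) (nat_lit 8))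
    (@En.n l25117 (nat_lit 8715) (nat_lit 5) (nat_lit 5))
    (@En.n l25118 (nat_lit 12153) (nat_lit 14) (nat_lit 7))
    (@En.n l25115 (nat_lit 10992) (nat_lit 1) (nat_lit 9))
    (@En.n l24737 (nat_lit 10208) (nat_lit 15) (nat_lit 3))))
noncomputable def a638 : T16 Cl := @T16.mk Cl
  (@Cl.mk (nat_lit 0x30009000700040008000c000c000900070004000400090008000d0007000c) (nat_lit 0x100188500064604) (nat_lit 16) Lb.e (@T16.mk En
    (@En.n l30753 (nat_lit 8718) (nat_lit 0) (nat_lit 12))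
    (@En.n l39768 (nat_lit 10739) (nat_lit 4) (nat_lit 7))
    (@En.n l39769 (nat_lit 10177) (nat_lit 2) (nat_lit 13))
    (@En.i (nat_lit 8814) (nat_lit 3) (nat_lit 8))
    (@En.n l6446 (nat_lit 10593) (nat_lit 4) (nat_lit 9))
    (@En.n l18 (nat_lit 10204) (nat_lit 12) (nat_lit 4))
    (@En.n l6588 (nat_lit 10215) (nat_lit 0) (nat_lit 4))
    (@En.i (nat_lit 5516) (nat_lit 0) (nat_lit 7))
    (@En.n l16306 (nat_lit 11715) (nat_lit 1) (nat_lit 9))
    (@En.n l39770 (nat_lit 10734) (nat_lit 4) (nat_lit 12))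
    (@En.n l15662 (nat_lit 10185) (nat_lit 11) (nat_lit 12))
    (@En.n l25392 (nat_lit 4483) (nat_lit 11) (nat_lit 8))
    (@En.n l30753 (nat_lit 10255) (nat_lit 5) (nat_lit 4))
    (@En.n l17747 (nat_lit 12151) (nat_lit 14) (nat_lit 7))
    (@En.n l152 (nat_lit 7104) (nat_lit 1) (nat_lit 9))
    (@En.n l16990 (nat_lit 10207) (nat_lit 15) (nat_lit 3))))
  (@Cl.mk (nat_lit 0x40004000a0008000b0007000c00080006000500040008000c000c00090008) (nat_lit 0x65802200026703) (nat_lit 16) Lb.e (@T16.mk En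
    (@En.n l32054 (nat_lit 5518) (nat_lit 0) (nat_lit 8))
    (@En.n l32055 (nat_lit 10921) (nat_lit 1) (nat_lit 9))
    (@En.n l16698 (nat_lit 10736) (nat_lit 4) (nat_lit 12))
    (@En.i (nat_lit 10181) (nat_lit 7) (nat_lit 12))
    (@En.n l27780 (nat_lit 10207) (nat_lit 11) (nat_lit 8))
    (@En.n l32056 (nat_lit 10208) (nat_lit 12) (nat_lit 4))
    (@En.i (nat_lit 10250) (nat_lit 0) (nat_lit 5))
    (@En.n l27776 (nat_lit 12152) (nat_lit 1) (nat_lit 6))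
    (@En.n l644 (nat_lit 10993) (nat_lit 1) (nat_lit 8))
    (@En.i (nat_lit 8704) (nat_lit 10) (nat_lit 12))
    (@En.n l32057 (nat_lit 10045) (nat_lit 4) (nat_lit 7))
    (@En.n l27776 (nat_lit 8973) (nat_lit 7) (nat_lit 11))
    (@En.n l32058 (nat_lit 10269) (nat_lit 13) (nat_lit 8))
    (@En.n l32059 (nat_lit 10594) (nat_lit 14) (nat_lit 10))
    (@En.n l16704 (nat_lit 10206) (nat_lit 12) (nat_lit 4))
    (@En.n l32060 (nat_lit 10470) (nat_lit 0) (nat_lit 4))))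
  (@Cl.mk (nat_lit 0x3000a000400090008000d000b00060003000a000700050008000d000c0006) (nat_lit 0x106334002001b50) (nat_lit 16) Lb.e (@T16.mk En
    (@En.n l38861 (nat_lit 9865) (nat_lit 0) (nat_lit 6))
    (@En.n l18281 (nat_lit 10213) (nat_lit 4) (nat_lit 12))
    (@En.n l11429 (nat_lit 9198) (nat_lit 11) (nat_lit 13))
    (@En.n l1723 (nat_lit 2961) (nat_lit 10) (nat_lit 8))
    (@En.n l14426 (nat_lit 10897) (nat_lit 4) (nat_lit 5))
    (@En.i (nat_lit 8250) (nat_lit 14) (nat_lit 7))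
    (@En.n l38861 (nat_lit 10481) (nat_lit 1) (nat_lit 10))
    (@En.n l15414 (nat_lit 10211) (nat_lit 15) (nat_lit 3))
    (@En.i (nat_lit 9272) (nat_lit 0) (nat_lit 6))
    (@En.n l42614 (nat_lit 10212) (nat_lit 10) (nat_lit 11))
    (@En.n l20198 (nat_lit 10172) (nat_lit 11) (nat_lit 13))
    (@En.n l15890 (nat_lit 10817) (nat_lit 3) (nat_lit 8))
    (@En.n l30403 (nat_lit 9819) (nat_lit 4) (nat_lit 9))
    (@En.n l9061 (nat_lit 10207) (nat_lit 5) (nat_lit 4))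
    (@En.i (nat_lit 8839) (nat_lit 0) (nat_lit 10))
    (@En.n l39789 (nat_lit 10214) (nat_lit 1) (nat_lit 3))))
  (@Cl.mk (nat_lit 0x3000a000700040008000d000c00060003000b000400090008000d0005000c) (nat_lit 0x2001b900501390a) (nat_lit 16) Lb.e (@T16.mk En
    (@En.n l1723 (nat_lit 8652) (nat_lit 0) (nat_lit 12))
    (@En.n l16988 (nat_lit 11881) (nat_lit 9) (nat_lit 5))
    (@En.n l9877 (nat_lit 10175) (nat_lit 11) (nat_lit 13))
    (@En.i (nat_lit 10822) (nat_lit 3) (nat_lit 8))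
    (@En.n l11401 (nat_lit 9820) (nat_lit 4) (nat_lit 9))
    (@En.n l9885 (nat_lit 10208) (nat_lit 5) (nat_lit 4))
    (@En.n l34050 (nat_lit 10593) (nat_lit 0) (nat_lit 11))
    (@En.n l9876 (nat_lit 10468) (nat_lit 1) (nat_lit 3))
    (@En.n l9885 (nat_lit 11181) (nat_lit 0) (nat_lit 6))
    (@En.n l9879 (nat_lit 10215) (nat_lit 4) (nat_lit 12))
    (@En.n l41329 (nat_lit 9197) (nat_lit 11) (nat_lit 13))
    (@En.n l27563 (nat_lit 2955) (nat_lit 11) (nat_lit 8))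
    (@En.n l40449 (nat_lit 10473) (nat_lit 4) (nat_lit 4))
    (@En.i (nat_lit 8252) (nat_lit 14) (nat_lit 7))
    (@En.n l9943 (nat_lit 11816) (nat_lit 1) (nat_lit 10))
    (@En.n l34049 (nat_lit 10210) (nat_lit 7) (nat_lit 3))))
  (@Cl.mk (nat_lit 0x3000b0004000a0008000b0005000c00090006000500040008000d000c0007) (nat_lit 0x301330160002b60) (nat_lit 16) Lb.e (@T16.mk En
    (@En.n l32161 (nat_lit 11182) (nat_lit 0) (nat_lit 7))
    (@En.n l77 (nat_lit 10470) (nat_lit 4) (nat_lit 12))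
    (@En.n l22690 (nat_lit 10182) (nat_lit 2) (nat_lit 13))
    (@En.n l32162 (nat_lit 10210) (nat_lit 3) (nat_lit 8))
    (@En.n l32163 (nat_lit 10211) (nat_lit 12) (nat_lit 4))
    (@En.n l9877 (nat_lit 10257) (nat_lit 11) (nat_lit 5))
    (@En.n l19658 (nat_lit 8251) (nat_lit 1) (nat_lit 6))
    (@En.n l9877 (nat_lit 10480) (nat_lit 8) (nat_lit 9))
    (@En.n l19658 (nat_lit 8655) (nat_lit 9) (nat_lit 12))
    (@En.n l24576 (nat_lit 9687) (nat_lit 9) (nat_lit 5))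
    (@En.n l19658 (nat_lit 9040) (nat_lit 7) (nat_lit 11))
    (@En.n l32164 (nat_lit 10815) (nat_lit 12) (nat_lit 8))
    (@En.n l32165 (nat_lit 9821) (nat_lit 13) (nat_lit 10))
    (@En.n l32166 (nat_lit 10209) (nat_lit 14) (nat_lit 4))
    (@En.n l19658 (nat_lit 10556) (nat_lit 0) (nat_lit 11))
    (@En.n l28 (nat_lit 10469) (nat_lit 1) (nat_lit 3))))
  (@Cl.mk (nat_lit 0x300090008000d000b00070003000b000700050008000c0005000d00090004) (nat_lit 0x64a600800140100) (nat_lit 16) Lb.e (@T16.mk En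
    (@En.i (nat_lit 10735) (nat_lit 0) (nat_lit 4))
    (@En.n l16386 (nat_lit 10922) (nat_lit 0) (nat_lit 9))
    (@En.n l33128 (nat_lit 3249) (nat_lit 1) (nat_lit 13))
    (@En.n l10307 (nat_lit 10067) (nat_lit 3) (nat_lit 5))
    (@En.n l10788 (nat_lit 9199) (nat_lit 11) (nat_lit 12))
    (@En.i (nat_lit 2960) (nat_lit 10) (nat_lit 8))
    (@En.n l33129 (nat_lit 10887) (nat_lit 6) (nat_lit 5))
    (@En.n l33130 (nat_lit 8253) (nat_lit 14) (nat_lit 7))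
    (@En.n l25081 (nat_lit 10479) (nat_lit 9) (nat_lit 11))
    (@En.n l17679 (nat_lit 10215) (nat_lit 9) (nat_lit 3))
    (@En.n l18386 (nat_lit 9373) (nat_lit 0) (nat_lit 7))
    (@En.n l33131 (nat_lit 10470) (nat_lit 12) (nat_lit 11))
    (@En.n l16386 (nat_lit 10216) (nat_lit 13) (nat_lit 13))
    (@En.n l33132 (nat_lit 10716) (nat_lit 14) (nat_lit 8))
    (@En.n l33133 (nat_lit 10080) (nat_lit 4) (nat_lit 9))
    (@En.n l33134 (nat_lit 10214) (nat_lit 15) (nat_lit 3))))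
  (@Cl.mk (nat_lit 0x300090008000d000b00060003000b000700050008000d0005000d0003000a) (nat_lit 0x63a4009001a0202) (nat_lit 16) Lb.e (@T16.mk En
    (@En.i (nat_lit 9487) (nat_lit 0) (nat_lit 10))
    (@En.n l32162 (nat_lit 10210) (nat_lit 15) (nat_lit 3))
    (@En.n l17405 (nat_lit 3253) (nat_lit 0) (nat_lit 13))
    (@En.n l19561 (nat_lit 10066) (nat_lit 3) (nat_lit 5))
    (@En.n l13195 (nat_lit 9196) (nat_lit 11) (nat_lit 13))
    (@En.n l32902 (nat_lit 2954) (nat_lit 10) (nat_lit 8))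
    (@En.n l9877 (nat_lit 10890) (nat_lit 4) (nat_lit 5))
    (@En.n l6918 (nat_lit 8245) (nat_lit 14) (nat_lit 7))
    (@En.n l42637 (nat_lit 10477) (nat_lit 9) (nat_lit 11))
    (@En.n l18 (nat_lit 10468) (nat_lit 9) (nat_lit 3))
    (@En.n l42062 (nat_lit 9268) (nat_lit 0) (nat_lit 6))
    (@En.n l19001 (nat_lit 10469) (nat_lit 12) (nat_lit 11))
    (@En.i (nat_lit 10173) (nat_lit 13) (nat_lit 13))
    (@En.n l6918 (nat_lit 10818) (nat_lit 14) (nat_lit 8))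
    (@En.n l36171 (nat_lit 9817) (nat_lit 4) (nat_lit 9))
    (@En.n l11308 (nat_lit 10213) (nat_lit 15) (nat_lit 3))))
  (@Cl.mk (nat_lit 0x300090008000d0006000c0003000b000700040008000c0005000d000a0004) (nat_lit 0x249040800180100) (nat_lit 16) Lb.e (@T16.mk En
    (@En.n l17380 (nat_lit 10734) (nat_lit 0) (nat_lit 4))
    (@En.n l644 (nat_lit 11714) (nat_lit 0) (nat_lit 10))
    (@En.n l35810 (nat_lit 3252) (nat_lit 1) (nat_lit 13))
    (@En.n l35811 (nat_lit 10069) (nat_lit 3) (nat_lit 5))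
    (@En.n l35812 (nat_lit 9200) (nat_lit 11) (nat_lit 12))
    (@En.n l17380 (nat_lit 2956) (nat_lit 11) (nat_lit 8))
    (@En.n l9856 (nat_lit 10472) (nat_lit 6) (nat_lit 4))
    (@En.n l35813 (nat_lit 8255) (nat_lit 14) (nat_lit 7))
    (@En.n l35814 (nat_lit 11820) (nat_lit 1) (nat_lit 11))
    (@En.n l11308 (nat_lit 10213) (nat_lit 9) (nat_lit 3))
    (@En.n l35815 (nat_lit 8653) (nat_lit 0) (nat_lit 12))
    (@En.i (nat_lit 11779) (nat_lit 4) (nat_lit 6))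
    (@En.i (nat_lit 9151) (nat_lit 13) (nat_lit 13))
    (@En.n l6918 (nat_lit 10719) (nat_lit 14) (nat_lit 8))
    (@En.n l35816 (nat_lit 10082) (nat_lit 4) (nat_lit 9))
    (@En.n l7 (nat_lit 10468) (nat_lit 15) (nat_lit 3))))
  (@Cl.mk (nat_lit 0x30009000d000a00060003000c000b000700060004000c0005000d000a0004) (nat_lit 0x694002600090160) (nat_lit 16) Lb.e (@T16.mk En
    (@En.n l33138 (nat_lit 10217) (nat_lit 0) (nat_lit 4))
    (@En.i (nat_lit 10181) (nat_lit 0) (nat_lit 10))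
    (@En.n l27777 (nat_lit 3257) (nat_lit 1) (nat_lit 13))
    (@En.i (nat_lit 10072) (nat_lit 3) (nat_lit 5))
    (@En.n l3517 (nat_lit 9958) (nat_lit 10) (nat_lit 12))
    (@En.n l9876 (nat_lit 9150) (nat_lit 5) (nat_lit 4))
    (@En.n l9877 (nat_lit 10166) (nat_lit 10) (nat_lit 6))
    (@En.n l27779 (nat_lit 10147) (nat_lit 7) (nat_lit 7))
    (@En.n l9879 (nat_lit 9084) (nat_lit 9) (nat_lit 11))
    (@En.i (nat_lit 10470) (nat_lit 10) (nat_lit 12))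
    (@En.n l18 (nat_lit 9151) (nat_lit 10) (nat_lit 3))
    (@En.n l33139 (nat_lit 9286) (nat_lit 0) (nat_lit 6))
    (@En.i (nat_lit 8981) (nat_lit 13) (nat_lit 10))
    (@En.i (nat_lit 10196) (nat_lit 6) (nat_lit 13))
    (@En.i (nat_lit 11846) (nat_lit 3) (nat_lit 9))
    (@En.n l7 (nat_lit 10173) (nat_lit 15) (nat_lit 3))))
  (@Cl.mk (nat_lit 0x20009000d000a00080003000c000a000700060004000c00080006000e0004) (nat_lit 0x348403600050070) (nat_lit 16) Lb.e (@T16.mk En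
    (@En.n l25119 (nat_lit 10179) (nat_lit 5) (nat_lit 4))
    (@En.n l5137 (nat_lit 5638) (nat_lit 1) (nat_lit 14))
    (@En.i (nat_lit 4462) (nat_lit 2) (nat_lit 6))
    (@En.n l24106 (nat_lit 11293) (nat_lit 3) (nat_lit 8))
    (@En.n l25120 (nat_lit 10489) (nat_lit 10) (nat_lit 12))
    (@En.n l25121 (nat_lit 9149) (nat_lit 5) (nat_lit 4))
    (@En.n l6565 (nat_lit 7771) (nat_lit 6) (nat_lit 6))
    (@En.n l1136 (nat_lit 8908) (nat_lit 7) (nat_lit 7))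
    (@En.n l644 (nat_lit 7125) (nat_lit 9) (nat_lit 10))
    (@En.n l22285 (nat_lit 10736) (nat_lit 10) (nat_lit 12))
    (@En.n l24942 (nat_lit 10218) (nat_lit 10) (nat_lit 3))
    (@En.n l5137 (nat_lit 10796) (nat_lit 12) (nat_lit 8))
    (@En.n l22284 (nat_lit 8968) (nat_lit 13) (nat_lit 10))
    (@En.n l24106 (nat_lit 10220) (nat_lit 14) (nat_lit 13))
    (@En.i (nat_lit 10921) (nat_lit 3) (nat_lit 9))
    (@En.n l17 (nat_lit 10217) (nat_lit 15) (nat_lit 2))))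
  (@Cl.mk (nat_lit 0x20009000d0007000b0003000c000a000700050004000c00090006000e0004) (nat_lit 0x340103500055050) (nat_lit 16) Lb.e (@T16.mk En
    (@En.n l35451 (nat_lit 10177) (nat_lit 5) (nat_lit 4))
    (@En.n l30270 (nat_lit 5652) (nat_lit 1) (nat_lit 14))
    (@En.n l39771 (nat_lit 4463) (nat_lit 2) (nat_lit 6))
    (@En.i (nat_lit 9736) (nat_lit 3) (nat_lit 9))
    (@En.n l39772 (nat_lit 10492) (nat_lit 10) (nat_lit 12))
    (@En.n l19165 (nat_lit 9147) (nat_lit 5) (nat_lit 4))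
    (@En.n l17 (nat_lit 7777) (nat_lit 6) (nat_lit 5))
    (@En.n l35817 (nat_lit 8907) (nat_lit 7) (nat_lit 7))
    (@En.n l97 (nat_lit 7126) (nat_lit 9) (nat_lit 10))
    (@En.n l20118 (nat_lit 8722) (nat_lit 10) (nat_lit 12))
    (@En.n l33138 (nat_lit 10217) (nat_lit 10) (nat_lit 3))
    (@En.n l30270 (nat_lit 2410) (nat_lit 12) (nat_lit 11))
    (@En.n l39773 (nat_lit 10219) (nat_lit 13) (nat_lit 7))
    (@En.i (nat_lit 10221) (nat_lit 14) (nat_lit 13))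
    (@En.n l39774 (nat_lit 10923) (nat_lit 3) (nat_lit 9))
    (@En.n l7 (nat_lit 10218) (nat_lit 15) (nat_lit 2))))
  (@Cl.mk (nat_lit 0x2000a0007000b0008000c0009000600050004000b000900080007000e0005) (nat_lit 0x306532000851060) (nat_lit 16) Lb.e (@T16.mk En
    (@En.n l6251 (nat_lit 8758) (nat_lit 9) (nat_lit 5))
    (@En.i (nat_lit 10271) (nat_lit 1) (nat_lit 14))
    (@En.n l35101 (nat_lit 8921) (nat_lit 2) (nat_lit 7))
    (@En.n l40575 (nat_lit 10217) (nat_lit 3) (nat_lit 8))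
    (@En.n l2848 (nat_lit 9731) (nat_lit 4) (nat_lit 9))
    (@En.n l40576 (nat_lit 11861) (nat_lit 6) (nat_lit 11))
    (@En.n l32090 (nat_lit 9339) (nat_lit 6) (nat_lit 4))
    (@En.n l35103 (nat_lit 10223) (nat_lit 7) (nat_lit 5))
    (@En.n l152 (nat_lit 8906) (nat_lit 8) (nat_lit 6))
    (@En.n l40577 (nat_lit 6041) (nat_lit 10) (nat_lit 9))
    (@En.i (nat_lit 8678) (nat_lit 11) (nat_lit 12))
    (@En.n l55 (nat_lit 10781) (nat_lit 12) (nat_lit 8))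
    (@En.i (nat_lit 8218) (nat_lit 13) (nat_lit 11))
    (@En.n l40578 (nat_lit 6352) (nat_lit 14) (nat_lit 7))
    (@En.n l40579 (nat_lit 10070) (nat_lit 14) (nat_lit 10))
    (@En.n l17 (nat_lit 10219) (nat_lit 15) (nat_lit 2))))
  (@Cl.mk (nat_lit 0x2000d000900070003000d000c000a000300070004000c00090006000e0004) (nat_lit 0x3100935000670b0) (nat_lit 16) Lb.e (@T16.mk En
    (@En.n l28 (nat_lit 10225) (nat_lit 8) (nat_lit 4))
    (@En.n l10889 (nat_lit 5662) (nat_lit 1) (nat_lit 14))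
    (@En.n l3503 (nat_lit 3047) (nat_lit 2) (nat_lit 6))
    (@En.i (nat_lit 7907) (nat_lit 3) (nat_lit 9))
    (@En.n l10832 (nat_lit 11626) (nat_lit 13) (nat_lit 12))
    (@En.n l137 (nat_lit 7539) (nat_lit 5) (nat_lit 4))
    (@En.i (nat_lit 7774) (nat_lit 6) (nat_lit 7))
    (@En.n l24905 (nat_lit 10224) (nat_lit 7) (nat_lit 3))
    (@En.n l14921 (nat_lit 7411) (nat_lit 0) (nat_lit 10))
    (@En.n l11642 (nat_lit 7541) (nat_lit 10) (nat_lit 12))
    (@En.n l17406 (nat_lit 11133) (nat_lit 11) (nat_lit 13))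
    (@En.n l18 (nat_lit 10221) (nat_lit 11) (nat_lit 3))
    (@En.n l14171 (nat_lit 3139) (nat_lit 0) (nat_lit 7))
    (@En.n l61 (nat_lit 8921) (nat_lit 14) (nat_lit 9))
    (@En.n l19300 (nat_lit 9552) (nat_lit 2) (nat_lit 13))
    (@En.n l7 (nat_lit 10220) (nat_lit 15) (nat_lit 2))))
  (@Cl.mk (nat_lit 0x2000d0006000a0003000d000c000a000300060004000c000a0006000e0004) (nat_lit 0x302071200066090) (nat_lit 16) Lb.e (@T16.mk En
    (@En.n l28 (nat_lit 10226) (nat_lit 8) (nat_lit 4))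
    (@En.n l1684 (nat_lit 5660) (nat_lit 1) (nat_lit 14))
    (@En.i (nat_lit 4465) (nat_lit 2) (nat_lit 6))
    (@En.i (nat_lit 9740) (nat_lit 3) (nat_lit 10))
    (@En.i (nat_lit 11628) (nat_lit 13) (nat_lit 12))
    (@En.i (nat_lit 7538) (nat_lit 5) (nat_lit 4))
    (@En.i (nat_lit 8312) (nat_lit 6) (nat_lit 6))
    (@En.n l4288 (nat_lit 8927) (nat_lit 7) (nat_lit 3))
    (@En.n l97 (nat_lit 7412) (nat_lit 0) (nat_lit 10))
    (@En.n l3866 (nat_lit 7540) (nat_lit 10) (nat_lit 12))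
    (@En.i (nat_lit 8921) (nat_lit 11) (nat_lit 13))
    (@En.i (nat_lit 10220) (nat_lit 11) (nat_lit 3))
    (@En.n l1684 (nat_lit 6856) (nat_lit 0) (nat_lit 10))
    (@En.i (nat_lit 4428) (nat_lit 14) (nat_lit 6))
    (@En.n l396 (nat_lit 9551) (nat_lit 2) (nat_lit 13))
    (@En.n l7 (nat_lit 10221) (nat_lit 15) (nat_lit 2))))
  (@Cl.mk (nat_lit 0x2000d000a000800030009000d000a00060003000b000800070006000e0005) (nat_lit 0x5420666004500a0) (nat_lit 16) Lb.e (@T16.mk En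
    (@En.n l31771 (nat_lit 10072) (nat_lit 4) (nat_lit 5))
    (@En.n l31772 (nat_lit 10264) (nat_lit 1) (nat_lit 14))
    (@En.n l3208 (nat_lit 10220) (nat_lit 2) (nat_lit 6))
    (@En.i (nat_lit 7773) (nat_lit 3) (nat_lit 7))
    (@En.n l31773 (nat_lit 7162) (nat_lit 4) (nat_lit 8))
    (@En.n l396 (nat_lit 12056) (nat_lit 10) (nat_lit 11))
    (@En.n l10178 (nat_lit 10259) (nat_lit 6) (nat_lit 3))
    (@En.n l24002 (nat_lit 12798) (nat_lit 0) (nat_lit 6))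
    (@En.n l644 (nat_lit 6038) (nat_lit 9) (nat_lit 10))
    (@En.n l19805 (nat_lit 7943) (nat_lit 10) (nat_lit 13))
    (@En.n l6562 (nat_lit 11701) (nat_lit 11) (nat_lit 9))
    (@En.n l11616 (nat_lit 10223) (nat_lit 11) (nat_lit 3))
    (@En.n l360 (nat_lit 3137) (nat_lit 0) (nat_lit 8))
    (@En.n l31774 (nat_lit 10219) (nat_lit 14) (nat_lit 10))
    (@En.n l4879 (nat_lit 9546) (nat_lit 2) (nat_lit 13))
    (@En.n l17 (nat_lit 10222) (nat_lit 15) (nat_lit 2))))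
  (@Cl.mk (nat_lit 0x2000d0007000b00030009000d000a00050003000b000900070006000e0005) (nat_lit 0x606066600460070) (nat_lit 16) Lb.e (@T16.mk En
    (@En.n l1236 (nat_lit 8757) (nat_lit 4) (nat_lit 5))
    (@En.n l22592 (nat_lit 10265) (nat_lit 1) (nat_lit 14))
    (@En.i (nat_lit 10221) (nat_lit 2) (nat_lit 6))
    (@En.n l14190 (nat_lit 7771) (nat_lit 3) (nat_lit 7))
    (@En.n l10536 (nat_lit 8538) (nat_lit 4) (nat_lit 9))
    (@En.n l8146 (nat_lit 12055) (nat_lit 10) (nat_lit 11))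
    (@En.n l3536 (nat_lit 10258) (nat_lit 6) (nat_lit 3))
    (@En.n l22592 (nat_lit 8897) (nat_lit 0) (nat_lit 5))
    (@En.n l68 (nat_lit 6037) (nat_lit 9) (nat_lit 10))
    (@En.n l3866 (nat_lit 8684) (nat_lit 10) (nat_lit 13))
    (@En.n l14187 (nat_lit 8911) (nat_lit 11) (nat_lit 9))
    (@En.n l3503 (nat_lit 10222) (nat_lit 11) (nat_lit 3))
    (@En.n l1362 (nat_lit 8215) (nat_lit 0) (nat_lit 11))
    (@En.n l1035 (nat_lit 5914) (nat_lit 14) (nat_lit 7))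
    (@En.n l25350 (nat_lit 9547) (nat_lit 2) (nat_lit 13))
    (@En.n l7 (nat_lit 10223) (nat_lit 15) (nat_lit 2))))
noncomputable def a639 : T16 Cl := @T16.mk Cl
  (@Cl.mk (nat_lit 0x2000d000900070003000d0009000d000300070003000c00090007000e0004) (nat_lit 0x4100876000670b0) (nat_lit 16) Lb.e (@T16.mk En
    (@En.n l11319 (nat_lit 10227) (nat_lit 8) (nat_lit 4))
    (@En.n l25327 (nat_lit 6144) (nat_lit 1) (nat_lit 14))
    (@En.n l25328 (nat_lit 4208) (nat_lit 2) (nat_lit 7))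
    (@En.n l25329 (nat_lit 7906) (nat_lit 3) (nat_lit 9))
    (@En.i (nat_lit 11627) (nat_lit 13) (nat_lit 12))
    (@En.n l19818 (nat_lit 7541) (nat_lit 5) (nat_lit 3))
    (@En.n l25330 (nat_lit 12799) (nat_lit 0) (nat_lit 7))
    (@En.n l11323 (nat_lit 10220) (nat_lit 7) (nat_lit 3))
    (@En.n l25331 (nat_lit 3643) (nat_lit 0) (nat_lit 13))
    (@En.n l25328 (nat_lit 10222) (nat_lit 10) (nat_lit 9))
    (@En.n l25328 (nat_lit 11132) (nat_lit 11) (nat_lit 13))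
    (@En.n l117 (nat_lit 8927) (nat_lit 11) (nat_lit 3))
    (@En.n l25329 (nat_lit 3140) (nat_lit 0) (nat_lit 7))
    (@En.n l253 (nat_lit 8922) (nat_lit 14) (nat_lit 9))
    (@En.n l3851 (nat_lit 9550) (nat_lit 2) (nat_lit 13))
    (@En.n l17 (nat_lit 10224) (nat_lit 15) (nat_lit 2))))
  (@Cl.mk (nat_lit 0x300070004000c000c000a000700040004000d000900060003000d000c0009) (nat_lit 0x6720003700735) (nat_lit 16) Lb.e (@T16.mk En
    (@En.n l10957 (nat_lit 5314) (nat_lit 0) (nat_lit 9))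
    (@En.n l2824 (nat_lit 10231) (nat_lit 14) (nat_lit 12))
    (@En.i (nat_lit 5311) (nat_lit 2) (nat_lit 13))
    (@En.n l18 (nat_lit 10226) (nat_lit 3) (nat_lit 3))
    (@En.n l14171 (nat_lit 4470) (nat_lit 0) (nat_lit 6))
    (@En.n l61 (nat_lit 10229) (nat_lit 5) (nat_lit 9))
    (@En.n l31488 (nat_lit 9557) (nat_lit 7) (nat_lit 13))
    (@En.n l237 (nat_lit 10236) (nat_lit 12) (nat_lit 4))
    (@En.i (nat_lit 10196) (nat_lit 8) (nat_lit 4))
    (@En.n l13034 (nat_lit 3042) (nat_lit 0) (nat_lit 7))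
    (@En.n l55 (nat_lit 8642) (nat_lit 11) (nat_lit 10))
    (@En.n l134 (nat_lit 10220) (nat_lit 4) (nat_lit 12))
    (@En.n l28688 (nat_lit 10960) (nat_lit 13) (nat_lit 12))
    (@En.n l870 (nat_lit 8672) (nat_lit 9) (nat_lit 4))
    (@En.i (nat_lit 8736) (nat_lit 0) (nat_lit 7))
    (@En.n l31489 (nat_lit 10227) (nat_lit 15) (nat_lit 3))))
  (@Cl.mk (nat_lit 0x300060004000c000c000b000700040004000d0005000a0003000d000c0009) (nat_lit 0x6720004020883) (nat_lit 16) Lb.e (@T16.mk En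
    (@En.n l97 (nat_lit 7153) (nat_lit 0) (nat_lit 9))
    (@En.n l2824 (nat_lit 10230) (nat_lit 14) (nat_lit 12))
    (@En.i (nat_lit 10229) (nat_lit 2) (nat_lit 13))
    (@En.i (nat_lit 10225) (nat_lit 3) (nat_lit 3))
    (@En.i (nat_lit 6777) (nat_lit 0) (nat_lit 10))
    (@En.n l7 (nat_lit 4433) (nat_lit 5) (nat_lit 5))
    (@En.n l2724 (nat_lit 9555) (nat_lit 7) (nat_lit 13))
    (@En.n l237 (nat_lit 10237) (nat_lit 12) (nat_lit 4))
    (@En.i (nat_lit 10194) (nat_lit 8) (nat_lit 4))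
    (@En.i (nat_lit 1602) (nat_lit 0) (nat_lit 7))
    (@En.n l4380 (nat_lit 10165) (nat_lit 11) (nat_lit 11))
    (@En.n l134 (nat_lit 10221) (nat_lit 4) (nat_lit 12))
    (@En.i (nat_lit 10410) (nat_lit 13) (nat_lit 12))
    (@En.n l870 (nat_lit 8667) (nat_lit 9) (nat_lit 4))
    (@En.i (nat_lit 8316) (nat_lit 12) (nat_lit 6))
    (@En.n l19660 (nat_lit 10228) (nat_lit 15) (nat_lit 3))))
  (@Cl.mk (nat_lit 0x300070003000c000c000a000800040004000d000900060003000d0008000d) (nat_lit 0x6781003500735) (nat_lit 16) Lb.e (@T16.mk En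
    (@En.n l26976 (nat_lit 3823) (nat_lit 0) (nat_lit 13))
    (@En.n l14009 (nat_lit 10072) (nat_lit 14) (nat_lit 8))
    (@En.n l26977 (nat_lit 10338) (nat_lit 2) (nat_lit 13))
    (@En.n l26978 (nat_lit 10228) (nat_lit 3) (nat_lit 3))
    (@En.n l14016 (nat_lit 4472) (nat_lit 0) (nat_lit 6))
    (@En.n l6446 (nat_lit 10240) (nat_lit 5) (nat_lit 9))
    (@En.n l8329 (nat_lit 10443) (nat_lit 7) (nat_lit 13))
    (@En.n l17199 (nat_lit 10234) (nat_lit 12) (nat_lit 4))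
    (@En.n l26979 (nat_lit 9767) (nat_lit 8) (nat_lit 4))
    (@En.n l25000 (nat_lit 4201) (nat_lit 0) (nat_lit 8))
    (@En.n l14017 (nat_lit 8738) (nat_lit 11) (nat_lit 10))
    (@En.n l17193 (nat_lit 10224) (nat_lit 4) (nat_lit 12))
    (@En.n l26980 (nat_lit 12022) (nat_lit 13) (nat_lit 12))
    (@En.n l13902 (nat_lit 10231) (nat_lit 9) (nat_lit 3))
    (@En.n l7409 (nat_lit 12802) (nat_lit 0) (nat_lit 7))
    (@En.n l17197 (nat_lit 10225) (nat_lit 15) (nat_lit 3))))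
  (@Cl.mk (nat_lit 0x300060003000c000c000b000800040004000d0005000a0003000d0008000d) (nat_lit 0x897100202081a) (nat_lit 16) Lb.e (@T16.mk En
    (@En.i (nat_lit 3593) (nat_lit 0) (nat_lit 13))
    (@En.n l61 (nat_lit 8757) (nat_lit 14) (nat_lit 8))
    (@En.n l7662 (nat_lit 10240) (nat_lit 2) (nat_lit 13))
    (@En.n l27657 (nat_lit 10227) (nat_lit 3) (nat_lit 3))
    (@En.n l8031 (nat_lit 6658) (nat_lit 0) (nat_lit 10))
    (@En.n l27657 (nat_lit 4431) (nat_lit 5) (nat_lit 5))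
    (@En.n l35452 (nat_lit 9556) (nat_lit 7) (nat_lit 13))
    (@En.n l35453 (nat_lit 10235) (nat_lit 12) (nat_lit 4))
    (@En.n l35454 (nat_lit 9753) (nat_lit 8) (nat_lit 4))
    (@En.n l27657 (nat_lit 4203) (nat_lit 0) (nat_lit 8))
    (@En.n l55 (nat_lit 10163) (nat_lit 11) (nat_lit 11))
    (@En.n l35455 (nat_lit 8927) (nat_lit 4) (nat_lit 12))
    (@En.n l22119 (nat_lit 12023) (nat_lit 13) (nat_lit 12))
    (@En.n l72 (nat_lit 10230) (nat_lit 9) (nat_lit 3))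
    (@En.n l35456 (nat_lit 12775) (nat_lit 12) (nat_lit 6))
    (@En.n l9876 (nat_lit 10226) (nat_lit 15) (nat_lit 3))))
  (@Cl.mk (nat_lit 0x3000700060005000c000c000b00080004000400090005000a000d000b0008) (nat_lit 0x893100601712) (nat_lit 16) Lb.e (@T16.mk En
    (@En.n l8765 (nat_lit 7154) (nat_lit 0) (nat_lit 8))
    (@En.n l20501 (nat_lit 7370) (nat_lit 10) (nat_lit 11))
    (@En.n l8765 (nat_lit 11126) (nat_lit 5) (nat_lit 13))
    (@En.n l2825 (nat_lit 6659) (nat_lit 3) (nat_lit 10))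
    (@En.n l16721 (nat_lit 6354) (nat_lit 4) (nat_lit 5))
    (@En.n l30278 (nat_lit 9958) (nat_lit 5) (nat_lit 9))
    (@En.n l6741 (nat_lit 10239) (nat_lit 12) (nat_lit 4))
    (@En.i (nat_lit 10195) (nat_lit 7) (nat_lit 4))
    (@En.n l13035 (nat_lit 1604) (nat_lit 0) (nat_lit 8))
    (@En.n l4380 (nat_lit 10171) (nat_lit 10) (nat_lit 11))
    (@En.n l134 (nat_lit 8921) (nat_lit 4) (nat_lit 12))
    (@En.n l2825 (nat_lit 10407) (nat_lit 12) (nat_lit 12))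
    (@En.n l8552 (nat_lit 8849) (nat_lit 11) (nat_lit 5))
    (@En.n l17 (nat_lit 10226) (nat_lit 14) (nat_lit 6))
    (@En.n l28538 (nat_lit 10177) (nat_lit 12) (nat_lit 7))
    (@En.n l30279 (nat_lit 10240) (nat_lit 15) (nat_lit 3))))
  (@Cl.mk (nat_lit 0x3000c0008000d000500040003000c000c000b000800040004000d0005000b) (nat_lit 0x714000919300409) (nat_lit 16) Lb.e (@T16.mk En
    (@En.i (nat_lit 6862) (nat_lit 0) (nat_lit 11))
    (@En.i (nat_lit 2417) (nat_lit 7) (nat_lit 5))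
    (@En.n l134 (nat_lit 10445) (nat_lit 2) (nat_lit 13))
    (@En.n l11 (nat_lit 10233) (nat_lit 12) (nat_lit 4))
    (@En.n l152 (nat_lit 9754) (nat_lit 10) (nat_lit 4))
    (@En.n l9885 (nat_lit 7113) (nat_lit 0) (nat_lit 8))
    (@En.n l55 (nat_lit 10160) (nat_lit 5) (nat_lit 11))
    (@En.n l619 (nat_lit 7540) (nat_lit 4) (nat_lit 12))
    (@En.i (nat_lit 10412) (nat_lit 9) (nat_lit 12))
    (@En.i (nat_lit 10228) (nat_lit 13) (nat_lit 3))
    (@En.n l18 (nat_lit 4623) (nat_lit 0) (nat_lit 4))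
    (@En.i (nat_lit 9167) (nat_lit 0) (nat_lit 5))
    (@En.i (nat_lit 3819) (nat_lit 1) (nat_lit 13))
    (@En.n l61 (nat_lit 8756) (nat_lit 14) (nat_lit 8))
    (@En.i (nat_lit 8813) (nat_lit 2) (nat_lit 12))
    (@En.i (nat_lit 10231) (nat_lit 15) (nat_lit 3))))
  (@Cl.mk (nat_lit 0x3000c0008000d000600040003000c000c000a000800040004000d000a0006) (nat_lit 0x23a000618100280) (nat_lit 16) Lb.e (@T16.mk En
    (@En.n l40437 (nat_lit 4471) (nat_lit 0) (nat_lit 6))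
    (@En.i (nat_lit 7370) (nat_lit 13) (nat_lit 10))
    (@En.n l40438 (nat_lit 10444) (nat_lit 2) (nat_lit 13))
    (@En.n l11 (nat_lit 10232) (nat_lit 12) (nat_lit 4))
    (@En.n l152 (nat_lit 9401) (nat_lit 10) (nat_lit 4))
    (@En.n l8085 (nat_lit 4209) (nat_lit 0) (nat_lit 8))
    (@En.i (nat_lit 8736) (nat_lit 1) (nat_lit 10))
    (@En.n l27596 (nat_lit 7541) (nat_lit 4) (nat_lit 12))
    (@En.i (nat_lit 10396) (nat_lit 9) (nat_lit 12))
    (@En.n l27657 (nat_lit 10227) (nat_lit 13) (nat_lit 3))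
    (@En.n l18 (nat_lit 4624) (nat_lit 0) (nat_lit 4))
    (@En.n l13906 (nat_lit 9392) (nat_lit 0) (nat_lit 6))
    (@En.i (nat_lit 3822) (nat_lit 1) (nat_lit 13))
    (@En.n l40439 (nat_lit 8759) (nat_lit 14) (nat_lit 8))
    (@En.n l28237 (nat_lit 10269) (nat_lit 10) (nat_lit 12))
    (@En.n l7 (nat_lit 10230) (nat_lit 15) (nat_lit 3))))
  (@Cl.mk (nat_lit 0x2000b00090004000d000a00050003000c0007000d000600040003000e000c) (nat_lit 0x930180080100067) (nat_lit 16) Lb.e (@T16.mk En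
    (@En.n l68 (nat_lit 10231) (nat_lit 8) (nat_lit 12))
    (@En.i (nat_lit 9183) (nat_lit 1) (nat_lit 14))
    (@En.n l17805 (nat_lit 10234) (nat_lit 2) (nat_lit 3))
    (@En.n l18 (nat_lit 4621) (nat_lit 3) (nat_lit 4))
    (@En.n l23711 (nat_lit 9157) (nat_lit 4) (nat_lit 6))
    (@En.i (nat_lit 3825) (nat_lit 6) (nat_lit 13))
    (@En.n l28236 (nat_lit 10243) (nat_lit 6) (nat_lit 7))
    (@En.n l28237 (nat_lit 10333) (nat_lit 8) (nat_lit 12))
    (@En.n l7 (nat_lit 10233) (nat_lit 8) (nat_lit 3))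
    (@En.n l28238 (nat_lit 4561) (nat_lit 9) (nat_lit 5))
    (@En.i (nat_lit 7368) (nat_lit 11) (nat_lit 10))
    (@En.n l28239 (nat_lit 4710) (nat_lit 12) (nat_lit 13))
    (@En.i (nat_lit 9399) (nat_lit 13) (nat_lit 4))
    (@En.n l25298 (nat_lit 7110) (nat_lit 14) (nat_lit 9))
    (@En.n l23711 (nat_lit 10431) (nat_lit 12) (nat_lit 11))
    (@En.n l67 (nat_lit 10232) (nat_lit 15) (nat_lit 2))))
  (@Cl.mk (nat_lit 0x2000c00090004000d0004000b0003000c0007000d000500040003000e000c) (nat_lit 0x14010908050007a) (nat_lit 16) Lb.e (@T16.mk En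
    (@En.n l68 (nat_lit 10230) (nat_lit 8) (nat_lit 12))
    (@En.i (nat_lit 9185) (nat_lit 1) (nat_lit 14))
    (@En.n l3489 (nat_lit 10235) (nat_lit 2) (nat_lit 3))
    (@En.n l18 (nat_lit 4620) (nat_lit 3) (nat_lit 4))
    (@En.i (nat_lit 9159) (nat_lit 4) (nat_lit 5))
    (@En.i (nat_lit 3832) (nat_lit 6) (nat_lit 13))
    (@En.n l61 (nat_lit 10244) (nat_lit 6) (nat_lit 7))
    (@En.n l1075 (nat_lit 8847) (nat_lit 8) (nat_lit 12))
    (@En.i (nat_lit 10232) (nat_lit 8) (nat_lit 3))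
    (@En.i (nat_lit 7351) (nat_lit 10) (nat_lit 11))
    (@En.i (nat_lit 6362) (nat_lit 10) (nat_lit 4))
    (@En.n l3493 (nat_lit 4708) (nat_lit 12) (nat_lit 13))
    (@En.i (nat_lit 10161) (nat_lit 1) (nat_lit 4))
    (@En.n l9885 (nat_lit 7112) (nat_lit 14) (nat_lit 9))
    (@En.n l8015 (nat_lit 7613) (nat_lit 12) (nat_lit 12))
    (@En.n l67 (nat_lit 10233) (nat_lit 15) (nat_lit 2))))
  (@Cl.mk (nat_lit 0x2000b00090004000d000900050003000d0007000d000300070003000e000c) (nat_lit 0x6102700602000c7) (nat_lit 16) Lb.e (@T16.mk En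
    (@En.n l6904 (nat_lit 10227) (nat_lit 12) (nat_lit 12))
    (@En.i (nat_lit 10011) (nat_lit 1) (nat_lit 14))
    (@En.n l14184 (nat_lit 10232) (nat_lit 2) (nat_lit 3))
    (@En.n l387 (nat_lit 12806) (nat_lit 3) (nat_lit 7))
    (@En.n l6907 (nat_lit 10236) (nat_lit 4) (nat_lit 3))
    (@En.n l3713 (nat_lit 3835) (nat_lit 0) (nat_lit 13))
    (@En.i (nat_lit 10242) (nat_lit 6) (nat_lit 7))
    (@En.n l1776 (nat_lit 10335) (nat_lit 8) (nat_lit 13))
    (@En.i (nat_lit 10235) (nat_lit 8) (nat_lit 3))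
    (@En.n l16243 (nat_lit 4562) (nat_lit 9) (nat_lit 5))
    (@En.n l1316 (nat_lit 10238) (nat_lit 11) (nat_lit 9))
    (@En.n l11 (nat_lit 4712) (nat_lit 12) (nat_lit 13))
    (@En.n l7488 (nat_lit 10167) (nat_lit 7) (nat_lit 4))
    (@En.i (nat_lit 4200) (nat_lit 14) (nat_lit 9))
    (@En.n l5995 (nat_lit 10432) (nat_lit 10) (nat_lit 11))
    (@En.n l3 (nat_lit 10234) (nat_lit 15) (nat_lit 2))))
  (@Cl.mk (nat_lit 0x2000c00090004000d0004000a0003000d0007000d000300060003000e000c) (nat_lit 0x1103020a04000c9) (nat_lit 16) Lb.e (@T16.mk En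
    (@En.n l24812 (nat_lit 10228) (nat_lit 12) (nat_lit 12))
    (@En.i (nat_lit 10015) (nat_lit 1) (nat_lit 14))
    (@En.n l4315 (nat_lit 10233) (nat_lit 2) (nat_lit 3))
    (@En.n l387 (nat_lit 12777) (nat_lit 12) (nat_lit 6))
    (@En.n l339 (nat_lit 10237) (nat_lit 4) (nat_lit 3))
    (@En.n l9175 (nat_lit 3584) (nat_lit 0) (nat_lit 13))
    (@En.n l3112 (nat_lit 10241) (nat_lit 6) (nat_lit 7))
    (@En.n l11835 (nat_lit 10238) (nat_lit 8) (nat_lit 13))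
    (@En.n l28 (nat_lit 10234) (nat_lit 8) (nat_lit 3))
    (@En.i (nat_lit 6781) (nat_lit 10) (nat_lit 10))
    (@En.n l11 (nat_lit 6360) (nat_lit 10) (nat_lit 4))
    (@En.n l5224 (nat_lit 4711) (nat_lit 12) (nat_lit 13))
    (@En.n l9175 (nat_lit 10162) (nat_lit 7) (nat_lit 4))
    (@En.i (nat_lit 4202) (nat_lit 14) (nat_lit 9))
    (@En.n l170 (nat_lit 7616) (nat_lit 10) (nat_lit 12))
    (@En.n l3 (nat_lit 10235) (nat_lit 15) (nat_lit 2))))
  (@Cl.mk (nat_lit 0x2000b00080004000d000900050003000d000c0008000300070004000e000c) (nat_lit 0x350270079200077) (nat_lit 16) Lb.e (@T16.mk En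
    (@En.n l77 (nat_lit 10225) (nat_lit 12) (nat_lit 12))
    (@En.n l8331 (nat_lit 10016) (nat_lit 1) (nat_lit 14))
    (@En.n l6611 (nat_lit 8674) (nat_lit 2) (nat_lit 4))
    (@En.i (nat_lit 8740) (nat_lit 3) (nat_lit 7))
    (@En.n l16385 (nat_lit 10234) (nat_lit 4) (nat_lit 3))
    (@En.n l6625 (nat_lit 7150) (nat_lit 0) (nat_lit 8))
    (@En.n l1236 (nat_lit 10232) (nat_lit 7) (nat_lit 12))
    (@En.n l16386 (nat_lit 10336) (nat_lit 8) (nat_lit 13))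
    (@En.n l18 (nat_lit 10237) (nat_lit 8) (nat_lit 3))
    (@En.n l14171 (nat_lit 4563) (nat_lit 9) (nat_lit 5))
    (@En.n l7492 (nat_lit 10239) (nat_lit 11) (nat_lit 9))
    (@En.i (nat_lit 4706) (nat_lit 12) (nat_lit 13))
    (@En.i (nat_lit 10166) (nat_lit 7) (nat_lit 4))
    (@En.n l16387 (nat_lit 4196) (nat_lit 14) (nat_lit 8))
    (@En.n l11412 (nat_lit 10075) (nat_lit 10) (nat_lit 11))
    (@En.n l28 (nat_lit 10236) (nat_lit 15) (nat_lit 2))))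
  (@Cl.mk (nat_lit 0x2000c00080004000d0004000a0003000d000c0008000300060004000e000c) (nat_lit 0x1103020b9600047) (nat_lit 16) Lb.e (@T16.mk En
    (@En.n l77 (nat_lit 10226) (nat_lit 12) (nat_lit 12))
    (@En.i (nat_lit 10017) (nat_lit 1) (nat_lit 14))
    (@En.n l345 (nat_lit 8673) (nat_lit 2) (nat_lit 4))
    (@En.i (nat_lit 8323) (nat_lit 3) (nat_lit 6))
    (@En.n l1235 (nat_lit 10235) (nat_lit 4) (nat_lit 3))
    (@En.n l97 (nat_lit 7151) (nat_lit 0) (nat_lit 8))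
    (@En.n l1236 (nat_lit 10233) (nat_lit 7) (nat_lit 12))
    (@En.n l965 (nat_lit 10239) (nat_lit 8) (nat_lit 13))
    (@En.i (nat_lit 10236) (nat_lit 8) (nat_lit 3))
    (@En.i (nat_lit 6778) (nat_lit 10) (nat_lit 10))
    (@En.i (nat_lit 6359) (nat_lit 10) (nat_lit 4))
    (@En.n l1119 (nat_lit 4705) (nat_lit 12) (nat_lit 13))
    (@En.i (nat_lit 10164) (nat_lit 7) (nat_lit 4))
    (@En.n l5165 (nat_lit 1599) (nat_lit 14) (nat_lit 8))
    (@En.n l3424 (nat_lit 7619) (nat_lit 10) (nat_lit 12))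
    (@En.n l28 (nat_lit 10237) (nat_lit 15) (nat_lit 2))))
  (@Cl.mk (nat_lit 0x2000c000a000400090004000a000d0006000c0003000700060004000e000c) (nat_lit 0xa106029030000c9) (nat_lit 16) Lb.e (@T16.mk En
    (@En.i (nat_lit 10240) (nat_lit 11) (nat_lit 12))
    (@En.i (nat_lit 10614) (nat_lit 1) (nat_lit 14))
    (@En.n l3480 (nat_lit 8847) (nat_lit 2) (nat_lit 4))
    (@En.n l15957 (nat_lit 10235) (nat_lit 3) (nat_lit 6))
    (@En.n l17957 (nat_lit 10330) (nat_lit 4) (nat_lit 7))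
    (@En.n l6081 (nat_lit 10239) (nat_lit 5) (nat_lit 3))
    (@En.n l2584 (nat_lit 3583) (nat_lit 0) (nat_lit 12))
    (@En.i (nat_lit 9345) (nat_lit 7) (nat_lit 6))
    (@En.i (nat_lit 10339) (nat_lit 5) (nat_lit 13))
    (@En.n l3328 (nat_lit 2541) (nat_lit 10) (nat_lit 10))
    (@En.n l7 (nat_lit 6358) (nat_lit 10) (nat_lit 4))
    (@En.i (nat_lit 10878) (nat_lit 12) (nat_lit 9))
    (@En.n l2584 (nat_lit 10168) (nat_lit 6) (nat_lit 4))
    (@En.n l644 (nat_lit 4204) (nat_lit 14) (nat_lit 10))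
    (@En.n l3260 (nat_lit 12149) (nat_lit 1) (nat_lit 12))
    (@En.n l11 (nat_lit 10238) (nat_lit 15) (nat_lit 2))))
  (@Cl.mk (nat_lit 0x2000c0009000400090004000a000d000b00070003000700060005000e000c) (nat_lit 0x110602a80000099) (nat_lit 16) Lb.e (@T16.mk En
    (@En.n l8048 (nat_lit 10229) (nat_lit 11) (nat_lit 12))
    (@En.n l16911 (nat_lit 10019) (nat_lit 1) (nat_lit 14))
    (@En.i (nat_lit 8848) (nat_lit 2) (nat_lit 5))
    (@En.n l18185 (nat_lit 10237) (nat_lit 3) (nat_lit 6))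
    (@En.n l4819 (nat_lit 10202) (nat_lit 4) (nat_lit 7))
    (@En.n l3536 (nat_lit 10238) (nat_lit 5) (nat_lit 3))
    (@En.n l9969 (nat_lit 7152) (nat_lit 0) (nat_lit 7))
    (@En.n l21946 (nat_lit 7368) (nat_lit 8) (nat_lit 11))
    (@En.n l3866 (nat_lit 10341) (nat_lit 5) (nat_lit 13))
    (@En.n l21653 (nat_lit 2537) (nat_lit 10) (nat_lit 10))
    (@En.n l18 (nat_lit 6357) (nat_lit 10) (nat_lit 4))
    (@En.i (nat_lit 10877) (nat_lit 12) (nat_lit 9))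
    (@En.n l10179 (nat_lit 10169) (nat_lit 6) (nat_lit 4))
    (@En.n l61 (nat_lit 1601) (nat_lit 14) (nat_lit 9))
    (@En.i (nat_lit 8247) (nat_lit 1) (nat_lit 12))
    (@En.n l7 (nat_lit 10239) (nat_lit 15) (nat_lit 2))))
noncomputable def a640 : T16 Cl := @T16.mk Cl
  (@Cl.mk (nat_lit 0x3000700060004000c000c000b00090004000400090005000a000d0007000c) (nat_lit 0x893100401701) (nat_lit 16) Lb.e (@T16.mk En
    (@En.n l25215 (nat_lit 3585) (nat_lit 0) (nat_lit 12))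
    (@En.n l29752 (nat_lit 8758) (nat_lit 4) (nat_lit 7))
    (@En.i (nat_lit 11127) (nat_lit 5) (nat_lit 13))
    (@En.n l40432 (nat_lit 6655) (nat_lit 3) (nat_lit 10))
    (@En.n l7 (nat_lit 6355) (nat_lit 4) (nat_lit 5))
    (@En.n l117 (nat_lit 9957) (nat_lit 5) (nat_lit 9))
    (@En.n l575 (nat_lit 10238) (nat_lit 12) (nat_lit 4))
    (@En.n l33844 (nat_lit 10200) (nat_lit 7) (nat_lit 4))
    (@En.n l11881 (nat_lit 4205) (nat_lit 0) (nat_lit 9))
    (@En.n l1578 (nat_lit 10170) (nat_lit 10) (nat_lit 11))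
    (@En.n l40433 (nat_lit 8922) (nat_lit 4) (nat_lit 12))
    (@En.i (nat_lit 12024) (nat_lit 12) (nat_lit 12))
    (@En.n l40434 (nat_lit 8813) (nat_lit 12) (nat_lit 4))
    (@En.n l40435 (nat_lit 10228) (nat_lit 14) (nat_lit 6))
    (@En.n l40436 (nat_lit 10268) (nat_lit 12) (nat_lit 7))
    (@En.n l17304 (nat_lit 10229) (nat_lit 15) (nat_lit 3))))
  (@Cl.mk (nat_lit 0x2000b000900080005000d0005000b00030007000d000800050003000e000b) (nat_lit 0x922040100640066) (nat_lit 16) Lb.e (@T16.mk En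
    (@En.n l68 (nat_lit 8757) (nat_lit 9) (nat_lit 11))
    (@En.n l9176 (nat_lit 8133) (nat_lit 1) (nat_lit 14))
    (@En.n l18 (nat_lit 10244) (nat_lit 2) (nat_lit 3))
    (@En.n l265 (nat_lit 8888) (nat_lit 3) (nat_lit 5))
    (@En.i (nat_lit 6481) (nat_lit 4) (nat_lit 8))
    (@En.i (nat_lit 8711) (nat_lit 6) (nat_lit 13))
    (@En.n l6784 (nat_lit 8260) (nat_lit 6) (nat_lit 7))
    (@En.n l17806 (nat_lit 10242) (nat_lit 7) (nat_lit 3))
    (@En.n l265 (nat_lit 7648) (nat_lit 9) (nat_lit 11))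
    (@En.n l16457 (nat_lit 6361) (nat_lit 9) (nat_lit 5))
    (@En.n l9875 (nat_lit 11384) (nat_lit 11) (nat_lit 13))
    (@En.n l9715 (nat_lit 4327) (nat_lit 3) (nat_lit 5))
    (@En.n l9877 (nat_lit 10237) (nat_lit 13) (nat_lit 8))
    (@En.n l9715 (nat_lit 8641) (nat_lit 14) (nat_lit 9))
    (@En.n l3476 (nat_lit 10301) (nat_lit 12) (nat_lit 11))
    (@En.n l67 (nat_lit 10241) (nat_lit 15) (nat_lit 2))))
  (@Cl.mk (nat_lit 0x2000a000900080005000d000a000600030007000d000800060003000e000b) (nat_lit 0x816032000750084) (nat_lit 16) Lb.e (@T16.mk En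
    (@En.n l16240 (nat_lit 10072) (nat_lit 9) (nat_lit 11))
    (@En.n l7486 (nat_lit 8136) (nat_lit 1) (nat_lit 14))
    (@En.n l16241 (nat_lit 10243) (nat_lit 2) (nat_lit 3))
    (@En.n l803 (nat_lit 7981) (nat_lit 3) (nat_lit 6))
    (@En.n l362 (nat_lit 6196) (nat_lit 4) (nat_lit 8))
    (@En.n l11522 (nat_lit 7482) (nat_lit 6) (nat_lit 13))
    (@En.n l16242 (nat_lit 11709) (nat_lit 6) (nat_lit 7))
    (@En.n l3112 (nat_lit 10241) (nat_lit 7) (nat_lit 3))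
    (@En.n l16243 (nat_lit 4474) (nat_lit 0) (nat_lit 6))
    (@En.n l1316 (nat_lit 9345) (nat_lit 10) (nat_lit 10))
    (@En.n l16244 (nat_lit 11385) (nat_lit 11) (nat_lit 13))
    (@En.n l2856 (nat_lit 10149) (nat_lit 3) (nat_lit 5))
    (@En.n l16245 (nat_lit 10236) (nat_lit 13) (nat_lit 8))
    (@En.n l4217 (nat_lit 8743) (nat_lit 14) (nat_lit 9))
    (@En.n l16246 (nat_lit 10397) (nat_lit 12) (nat_lit 10))
    (@En.n l3 (nat_lit 10242) (nat_lit 15) (nat_lit 2))))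
  (@Cl.mk (nat_lit 0x2000a000900070005000d000b000600030007000d000500090003000e000b) (nat_lit 0x4100340006030b4) (nat_lit 16) Lb.e (@T16.mk En
    (@En.n l217 (nat_lit 8759) (nat_lit 9) (nat_lit 11))
    (@En.n l22821 (nat_lit 6567) (nat_lit 1) (nat_lit 14))
    (@En.n l6571 (nat_lit 10242) (nat_lit 2) (nat_lit 3))
    (@En.n l28557 (nat_lit 6563) (nat_lit 3) (nat_lit 9))
    (@En.i (nat_lit 9837) (nat_lit 4) (nat_lit 5))
    (@En.n l8638 (nat_lit 10972) (nat_lit 6) (nat_lit 13))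
    (@En.i (nat_lit 11710) (nat_lit 6) (nat_lit 7))
    (@En.n l3203 (nat_lit 10244) (nat_lit 7) (nat_lit 3))
    (@En.n l3866 (nat_lit 4473) (nat_lit 0) (nat_lit 6))
    (@En.n l15031 (nat_lit 9833) (nat_lit 10) (nat_lit 11))
    (@En.n l763 (nat_lit 11387) (nat_lit 11) (nat_lit 13))
    (@En.i (nat_lit 10150) (nat_lit 3) (nat_lit 5))
    (@En.n l1545 (nat_lit 8674) (nat_lit 13) (nat_lit 7))
    (@En.n l28557 (nat_lit 8742) (nat_lit 14) (nat_lit 9))
    (@En.n l10987 (nat_lit 10398) (nat_lit 12) (nat_lit 10))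
    (@En.n l50 (nat_lit 10243) (nat_lit 15) (nat_lit 2))))
  (@Cl.mk (nat_lit 0x2000b000900070005000d0005000c00030007000d000400090003000e000b) (nat_lit 0x820030a00603061) (nat_lit 16) Lb.e (@T16.mk En
    (@En.n l68 (nat_lit 8756) (nat_lit 9) (nat_lit 11))
    (@En.i (nat_lit 6568) (nat_lit 1) (nat_lit 14))
    (@En.i (nat_lit 10241) (nat_lit 2) (nat_lit 3))
    (@En.n l1065 (nat_lit 6562) (nat_lit 3) (nat_lit 9))
    (@En.i (nat_lit 9836) (nat_lit 4) (nat_lit 4))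
    (@En.i (nat_lit 8716) (nat_lit 6) (nat_lit 13))
    (@En.n l6784 (nat_lit 8261) (nat_lit 6) (nat_lit 7))
    (@En.n l16865 (nat_lit 10243) (nat_lit 7) (nat_lit 3))
    (@En.i (nat_lit 8130) (nat_lit 9) (nat_lit 12))
    (@En.i (nat_lit 7146) (nat_lit 9) (nat_lit 5))
    (@En.n l9713 (nat_lit 11386) (nat_lit 11) (nat_lit 13))
    (@En.n l9715 (nat_lit 4329) (nat_lit 3) (nat_lit 5))
    (@En.n l17 (nat_lit 8673) (nat_lit 13) (nat_lit 7))
    (@En.n l9715 (nat_lit 8639) (nat_lit 14) (nat_lit 9))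
    (@En.n l8015 (nat_lit 10300) (nat_lit 12) (nat_lit 11))
    (@En.n l67 (nat_lit 10244) (nat_lit 15) (nat_lit 2))))
  (@Cl.mk (nat_lit 0x2000900070004000d0008000c00030007000d0004000900030008000e000c) (nat_lit 0x400a2a008030573) (nat_lit 16) Lb.e (@T16.mk En
    (@En.n l10625 (nat_lit 10251) (nat_lit 13) (nat_lit 12))
    (@En.n l3819 (nat_lit 10244) (nat_lit 1) (nat_lit 14))
    (@En.i (nat_lit 8718) (nat_lit 2) (nat_lit 8))
    (@En.n l10927 (nat_lit 10246) (nat_lit 3) (nat_lit 3))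
    (@En.n l23774 (nat_lit 6980) (nat_lit 0) (nat_lit 9))
    (@En.n l10969 (nat_lit 10249) (nat_lit 5) (nat_lit 4))
    (@En.n l5969 (nat_lit 8157) (nat_lit 7) (nat_lit 13))
    (@En.i (nat_lit 12157) (nat_lit 7) (nat_lit 7))
    (@En.n l18589 (nat_lit 10247) (nat_lit 8) (nat_lit 3))
    (@En.n l2038 (nat_lit 8637) (nat_lit 0) (nat_lit 12))
    (@En.n l7529 (nat_lit 9160) (nat_lit 11) (nat_lit 8))
    (@En.n l763 (nat_lit 5434) (nat_lit 12) (nat_lit 13))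
    (@En.i (nat_lit 10256) (nat_lit 3) (nat_lit 4))
    (@En.n l23775 (nat_lit 7060) (nat_lit 14) (nat_lit 7))
    (@En.n l23776 (nat_lit 8455) (nat_lit 5) (nat_lit 9))
    (@En.n l50 (nat_lit 10245) (nat_lit 15) (nat_lit 2))))
  (@Cl.mk (nat_lit 0x2000900080004000d0008000b00030007000d0008000500030008000e000c) (nat_lit 0x420824008400574) (nat_lit 16) Lb.e (@T16.mk En
    (@En.n l965 (nat_lit 10250) (nat_lit 13) (nat_lit 12))
    (@En.n l1246 (nat_lit 10241) (nat_lit 1) (nat_lit 14))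
    (@En.n l10359 (nat_lit 10249) (nat_lit 2) (nat_lit 8))
    (@En.n l10360 (nat_lit 10245) (nat_lit 3) (nat_lit 3))
    (@En.i (nat_lit 7596) (nat_lit 4) (nat_lit 5))
    (@En.n l10359 (nat_lit 12514) (nat_lit 5) (nat_lit 8))
    (@En.i (nat_lit 8709) (nat_lit 7) (nat_lit 13))
    (@En.n l115 (nat_lit 12158) (nat_lit 7) (nat_lit 7))
    (@En.n l10361 (nat_lit 10248) (nat_lit 8) (nat_lit 3))
    (@En.i (nat_lit 8645) (nat_lit 0) (nat_lit 11))
    (@En.n l1115 (nat_lit 9162) (nat_lit 11) (nat_lit 8))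
    (@En.n l1253 (nat_lit 5433) (nat_lit 12) (nat_lit 13))
    (@En.n l10359 (nat_lit 10257) (nat_lit 3) (nat_lit 4))
    (@En.n l3255 (nat_lit 5526) (nat_lit 14) (nat_lit 8))
    (@En.i (nat_lit 8463) (nat_lit 5) (nat_lit 9))
    (@En.n l3 (nat_lit 10246) (nat_lit 15) (nat_lit 2))))
  (@Cl.mk (nat_lit 0x2000900070004000d000b000900030007000d0005000900030007000e000c) (nat_lit 0x400a750060300c3) (nat_lit 16) Lb.e (@T16.mk En
    (@En.n l30166 (nat_lit 10252) (nat_lit 13) (nat_lit 12))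
    (@En.n l30827 (nat_lit 10243) (nat_lit 1) (nat_lit 14))
    (@En.n l1353 (nat_lit 8744) (nat_lit 2) (nat_lit 7))
    (@En.n l18 (nat_lit 10248) (nat_lit 3) (nat_lit 3))
    (@En.i (nat_lit 6970) (nat_lit 0) (nat_lit 9))
    (@En.n l30828 (nat_lit 5595) (nat_lit 5) (nat_lit 5))
    (@En.n l19621 (nat_lit 10976) (nat_lit 7) (nat_lit 13))
    (@En.n l2912 (nat_lit 12591) (nat_lit 7) (nat_lit 7))
    (@En.n l20259 (nat_lit 10245) (nat_lit 8) (nat_lit 3))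
    (@En.n l19621 (nat_lit 12507) (nat_lit 0) (nat_lit 9))
    (@En.n l2346 (nat_lit 10254) (nat_lit 11) (nat_lit 11))
    (@En.n l7882 (nat_lit 6524) (nat_lit 12) (nat_lit 13))
    (@En.n l11583 (nat_lit 12028) (nat_lit 3) (nat_lit 4))
    (@En.i (nat_lit 7063) (nat_lit 14) (nat_lit 7))
    (@En.n l14556 (nat_lit 9662) (nat_lit 5) (nat_lit 9))
    (@En.n l3 (nat_lit 10247) (nat_lit 15) (nat_lit 2))))
  (@Cl.mk (nat_lit 0x2000900080004000d000a000900030007000d0008000600030007000e000c) (nat_lit 0x420875007500094) (nat_lit 16) Lb.e (@T16.mk En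
    (@En.n l23777 (nat_lit 10253) (nat_lit 13) (nat_lit 12))
    (@En.n l11772 (nat_lit 10242) (nat_lit 1) (nat_lit 14))
    (@En.n l23778 (nat_lit 5590) (nat_lit 2) (nat_lit 7))
    (@En.i (nat_lit 10247) (nat_lit 3) (nat_lit 3))
    (@En.n l23779 (nat_lit 11266) (nat_lit 0) (nat_lit 6))
    (@En.n l50 (nat_lit 12513) (nat_lit 5) (nat_lit 8))
    (@En.n l19621 (nat_lit 7483) (nat_lit 7) (nat_lit 13))
    (@En.n l5960 (nat_lit 12638) (nat_lit 7) (nat_lit 7))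
    (@En.n l23779 (nat_lit 10246) (nat_lit 8) (nat_lit 3))
    (@En.n l5350 (nat_lit 12505) (nat_lit 0) (nat_lit 9))
    (@En.n l1313 (nat_lit 10206) (nat_lit 11) (nat_lit 10))
    (@En.n l23780 (nat_lit 6523) (nat_lit 12) (nat_lit 13))
    (@En.n l23781 (nat_lit 12025) (nat_lit 3) (nat_lit 4))
    (@En.i (nat_lit 5528) (nat_lit 14) (nat_lit 8))
    (@En.n l19621 (nat_lit 10360) (nat_lit 5) (nat_lit 9))
    (@En.n l3 (nat_lit 10248) (nat_lit 15) (nat_lit 2))))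
  (@Cl.mk (nat_lit 0x2000800070004000c0008000c000b000400080004000900050008000e000c) (nat_lit 0x20073a506000453) (nat_lit 16) Lb.e (@T16.mk En
    (@En.n l23767 (nat_lit 8715) (nat_lit 3) (nat_lit 12))
    (@En.n l23768 (nat_lit 9836) (nat_lit 1) (nat_lit 14))
    (@En.n l23769 (nat_lit 8708) (nat_lit 10) (nat_lit 8))
    (@En.n l23770 (nat_lit 7591) (nat_lit 3) (nat_lit 5))
    (@En.n l10626 (nat_lit 12515) (nat_lit 4) (nat_lit 9))
    (@En.n l23771 (nat_lit 10254) (nat_lit 5) (nat_lit 4))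
    (@En.n l15954 (nat_lit 7597) (nat_lit 6) (nat_lit 8))
    (@En.n l23770 (nat_lit 5590) (nat_lit 7) (nat_lit 4))
    (@En.n l3296 (nat_lit 10246) (nat_lit 9) (nat_lit 11))
    (@En.i (nat_lit 8641) (nat_lit 10) (nat_lit 12))
    (@En.n l21456 (nat_lit 9161) (nat_lit 11) (nat_lit 8))
    (@En.n l763 (nat_lit 5432) (nat_lit 12) (nat_lit 12))
    (@En.i (nat_lit 10897) (nat_lit 13) (nat_lit 4))
    (@En.n l23772 (nat_lit 5524) (nat_lit 14) (nat_lit 7))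
    (@En.n l23773 (nat_lit 8831) (nat_lit 1) (nat_lit 8))
    (@En.n l50 (nat_lit 10249) (nat_lit 15) (nat_lit 2))))
  (@Cl.mk (nat_lit 0x30008000c000c0008000700040004000d0008000b00030008000d00090005) (nat_lit 0x634300033104920) (nat_lit 16) Lb.e (@T16.mk En
    (@En.n l19308 (nat_lit 7598) (nat_lit 0) (nat_lit 5))
    (@En.i (nat_lit 8059) (nat_lit 13) (nat_lit 9))
    (@En.i (nat_lit 8701) (nat_lit 2) (nat_lit 13))
    (@En.i (nat_lit 12155) (nat_lit 3) (nat_lit 8))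
    (@En.i (nat_lit 10253) (nat_lit 4) (nat_lit 3))
    (@En.n l19308 (nat_lit 8646) (nat_lit 0) (nat_lit 11))
    (@En.n l22689 (nat_lit 9164) (nat_lit 6) (nat_lit 8))
    (@En.n l9875 (nat_lit 10519) (nat_lit 2) (nat_lit 13))
    (@En.n l1154 (nat_lit 10246) (nat_lit 12) (nat_lit 4))
    (@En.n l8776 (nat_lit 10884) (nat_lit 4) (nat_lit 4))
    (@En.n l9877 (nat_lit 3926) (nat_lit 0) (nat_lit 7))
    (@En.n l9878 (nat_lit 10894) (nat_lit 6) (nat_lit 8))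
    (@En.n l9879 (nat_lit 10875) (nat_lit 4) (nat_lit 12))
    (@En.i (nat_lit 10173) (nat_lit 9) (nat_lit 12))
    (@En.n l22690 (nat_lit 8715) (nat_lit 4) (nat_lit 8))
    (@En.n l18 (nat_lit 10251) (nat_lit 15) (nat_lit 3))))
  (@Cl.mk (nat_lit 0x30008000c000c0008000600040004000d0008000c00030008000d0004000a) (nat_lit 0x5226000a3a06701) (nat_lit 16) Lb.e (@T16.mk En
    (@En.n l37580 (nat_lit 5300) (nat_lit 0) (nat_lit 10))
    (@En.i (nat_lit 8715) (nat_lit 7) (nat_lit 4))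
    (@En.i (nat_lit 8154) (nat_lit 0) (nat_lit 13))
    (@En.n l8776 (nat_lit 12131) (nat_lit 3) (nat_lit 8))
    (@En.i (nat_lit 10252) (nat_lit 4) (nat_lit 3))
    (@En.n l4814 (nat_lit 8635) (nat_lit 0) (nat_lit 12))
    (@En.i (nat_lit 9165) (nat_lit 6) (nat_lit 8))
    (@En.i (nat_lit 10516) (nat_lit 2) (nat_lit 13))
    (@En.n l10617 (nat_lit 10245) (nat_lit 12) (nat_lit 4))
    (@En.n l8776 (nat_lit 10883) (nat_lit 4) (nat_lit 4))
    (@En.n l17 (nat_lit 7035) (nat_lit 0) (nat_lit 6))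
    (@En.n l30655 (nat_lit 10895) (nat_lit 6) (nat_lit 8))
    (@En.n l619 (nat_lit 10876) (nat_lit 4) (nat_lit 12))
    (@En.i (nat_lit 10174) (nat_lit 9) (nat_lit 12))
    (@En.n l8776 (nat_lit 8704) (nat_lit 12) (nat_lit 8))
    (@En.i (nat_lit 10250) (nat_lit 15) (nat_lit 3))))
  (@Cl.mk (nat_lit 0x30007000c000c0008000600040004000d000b000900030008000d0005000a) (nat_lit 0x22300038204901) (nat_lit 16) Lb.e (@T16.mk En
    (@En.n l30206 (nat_lit 5295) (nat_lit 0) (nat_lit 10))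
    (@En.n l38366 (nat_lit 5594) (nat_lit 7) (nat_lit 5))
    (@En.i (nat_lit 8694) (nat_lit 2) (nat_lit 13))
    (@En.n l18228 (nat_lit 12038) (nat_lit 3) (nat_lit 8))
    (@En.n l7 (nat_lit 10251) (nat_lit 4) (nat_lit 3))
    (@En.n l39662 (nat_lit 12503) (nat_lit 0) (nat_lit 9))
    (@En.n l644 (nat_lit 10255) (nat_lit 13) (nat_lit 11))
    (@En.n l3528 (nat_lit 10517) (nat_lit 2) (nat_lit 13))
    (@En.n l39663 (nat_lit 10247) (nat_lit 12) (nat_lit 4))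
    (@En.n l18228 (nat_lit 10885) (nat_lit 9) (nat_lit 4))
    (@En.n l35667 (nat_lit 7036) (nat_lit 0) (nat_lit 6))
    (@En.n l30655 (nat_lit 12027) (nat_lit 6) (nat_lit 8))
    (@En.n l619 (nat_lit 10878) (nat_lit 4) (nat_lit 12))
    (@En.i (nat_lit 9151) (nat_lit 9) (nat_lit 12))
    (@En.n l20120 (nat_lit 7429) (nat_lit 12) (nat_lit 7))
    (@En.i (nat_lit 10253) (nat_lit 15) (nat_lit 3))))
  (@Cl.mk (nat_lit 0x30007000c000c0008000700040004000d000a000900030008000d00090006) (nat_lit 0x35000097406840) (nat_lit 16) Lb.e (@T16.mk En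
    (@En.n l27776 (nat_lit 11267) (nat_lit 0) (nat_lit 6))
    (@En.n l23017 (nat_lit 10930) (nat_lit 13) (nat_lit 9))
    (@En.i (nat_lit 8695) (nat_lit 2) (nat_lit 13))
    (@En.n l27771 (nat_lit 9249) (nat_lit 3) (nat_lit 8))
    (@En.n l7 (nat_lit 10250) (nat_lit 4) (nat_lit 3))
    (@En.n l22882 (nat_lit 12501) (nat_lit 0) (nat_lit 9))
    (@En.i (nat_lit 10209) (nat_lit 13) (nat_lit 10))
    (@En.n l27777 (nat_lit 10521) (nat_lit 2) (nat_lit 13))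
    (@En.n l27778 (nat_lit 10248) (nat_lit 12) (nat_lit 4))
    (@En.n l18228 (nat_lit 10886) (nat_lit 9) (nat_lit 4))
    (@En.n l9877 (nat_lit 5527) (nat_lit 0) (nat_lit 7))
    (@En.n l27779 (nat_lit 12026) (nat_lit 6) (nat_lit 8))
    (@En.n l9879 (nat_lit 10877) (nat_lit 4) (nat_lit 12))
    (@En.i (nat_lit 10216) (nat_lit 9) (nat_lit 12))
    (@En.n l27780 (nat_lit 5592) (nat_lit 12) (nat_lit 7))
    (@En.n l18 (nat_lit 10252) (nat_lit 15) (nat_lit 3))))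
  (@Cl.mk (nat_lit 0x2000a00070004000b0008000c0006000c00050004000900040008000e000c) (nat_lit 0x60064a010040399) (nat_lit 16) Lb.e (@T16.mk En
    (@En.n l32192 (nat_lit 10255) (nat_lit 3) (nat_lit 12))
    (@En.n l30753 (nat_lit 9833) (nat_lit 1) (nat_lit 14))
    (@En.n l14270 (nat_lit 8652) (nat_lit 2) (nat_lit 8))
    (@En.n l32193 (nat_lit 10206) (nat_lit 3) (nat_lit 4))
    (@En.n l19998 (nat_lit 7097) (nat_lit 4) (nat_lit 9))
    (@En.n l32194 (nat_lit 10245) (nat_lit 5) (nat_lit 4))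
    (@En.i (nat_lit 5591) (nat_lit 6) (nat_lit 5))
    (@En.n l9496 (nat_lit 8156) (nat_lit 8) (nat_lit 12))
    (@En.n l32195 (nat_lit 12294) (nat_lit 8) (nat_lit 6))
    (@En.n l32196 (nat_lit 8325) (nat_lit 10) (nat_lit 12))
    (@En.i (nat_lit 10328) (nat_lit 11) (nat_lit 8))
    (@En.n l10459 (nat_lit 9780) (nat_lit 12) (nat_lit 11))
    (@En.n l32194 (nat_lit 10473) (nat_lit 13) (nat_lit 4))
    (@En.i (nat_lit 7053) (nat_lit 14) (nat_lit 7))
    (@En.n l32197 (nat_lit 10080) (nat_lit 1) (nat_lit 10))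
    (@En.n l50 (nat_lit 10254) (nat_lit 15) (nat_lit 2))))
  (@Cl.mk (nat_lit 0x40004000b0008000c0007000c00050004000a00040008000c000c00090006) (nat_lit 0x74a01002038160) (nat_lit 16) Lb.e (@T16.mk En
    (@En.n l17 (nat_lit 7052) (nat_lit 0) (nat_lit 6))
    (@En.n l16940 (nat_lit 11846) (nat_lit 1) (nat_lit 9))
    (@En.n l619 (nat_lit 7807) (nat_lit 4) (nat_lit 12))
    (@En.i (nat_lit 10176) (nat_lit 7) (nat_lit 12))
    (@En.n l23331 (nat_lit 8655) (nat_lit 11) (nat_lit 8))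
    (@En.n l50 (nat_lit 10209) (nat_lit 5) (nat_lit 4))
    (@En.i (nat_lit 7105) (nat_lit 0) (nat_lit 10))
    (@En.n l50 (nat_lit 10251) (nat_lit 1) (nat_lit 4))
    (@En.n l29990 (nat_lit 5593) (nat_lit 0) (nat_lit 5))
    (@En.i (nat_lit 8149) (nat_lit 1) (nat_lit 12))
    (@En.n l20450 (nat_lit 11999) (nat_lit 4) (nat_lit 7))
    (@En.n l29990 (nat_lit 8319) (nat_lit 7) (nat_lit 12))
    (@En.n l38899 (nat_lit 10158) (nat_lit 13) (nat_lit 8))
    (@En.i (nat_lit 11085) (nat_lit 14) (nat_lit 11))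
    (@En.n l42403 (nat_lit 10254) (nat_lit 12) (nat_lit 4))
    (@En.n l38215 (nat_lit 10472) (nat_lit 0) (nat_lit 4))))
noncomputable def a641 : T16 Cl := @T16.mk Cl
  (@Cl.mk (nat_lit 0x30006000d0004000b00030008000d000c00050003000a0004000d0008000c) (nat_lit 0x80605120070b58) (nat_lit 16) Lb.e (@T16.mk En
    (@En.n l2038 (nat_lit 8335) (nat_lit 0) (nat_lit 12))
    (@En.i (nat_lit 10812) (nat_lit 6) (nat_lit 8))
    (@En.i (nat_lit 10895) (nat_lit 2) (nat_lit 13))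
    (@En.n l3819 (nat_lit 10251) (nat_lit 8) (nat_lit 4))
    (@En.n l7145 (nat_lit 8454) (nat_lit 4) (nat_lit 10))
    (@En.n l50 (nat_lit 10889) (nat_lit 5) (nat_lit 3))
    (@En.i (nat_lit 11168) (nat_lit 0) (nat_lit 5))
    (@En.n l217 (nat_lit 10883) (nat_lit 8) (nat_lit 12))
    (@En.n l476 (nat_lit 4329) (nat_lit 9) (nat_lit 13))
    (@En.i (nat_lit 8149) (nat_lit 3) (nat_lit 8))
    (@En.i (nat_lit 10257) (nat_lit 10) (nat_lit 3))
    (@En.i (nat_lit 10855) (nat_lit 0) (nat_lit 11))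
    (@En.n l10969 (nat_lit 10897) (nat_lit 6) (nat_lit 4))
    (@En.n l3819 (nat_lit 9088) (nat_lit 8) (nat_lit 13))
    (@En.i (nat_lit 8092) (nat_lit 12) (nat_lit 6))
    (@En.i (nat_lit 12028) (nat_lit 15) (nat_lit 3))))
  (@Cl.mk (nat_lit 0x30006000d000a000500030008000d000c00060003000a0004000d0008000b) (nat_lit 0x25005140070b51) (nat_lit 16) Lb.e (@T16.mk En
    (@En.n l2038 (nat_lit 8085) (nat_lit 0) (nat_lit 11))
    (@En.n l23424 (nat_lit 10808) (nat_lit 6) (nat_lit 8))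
    (@En.n l3695 (nat_lit 10894) (nat_lit 2) (nat_lit 13))
    (@En.n l3819 (nat_lit 10250) (nat_lit 8) (nat_lit 4))
    (@En.n l7145 (nat_lit 8462) (nat_lit 4) (nat_lit 10))
    (@En.n l50 (nat_lit 10888) (nat_lit 5) (nat_lit 3))
    (@En.n l21255 (nat_lit 10966) (nat_lit 0) (nat_lit 6))
    (@En.n l217 (nat_lit 10884) (nat_lit 8) (nat_lit 12))
    (@En.n l476 (nat_lit 4327) (nat_lit 9) (nat_lit 13))
    (@En.i (nat_lit 10897) (nat_lit 3) (nat_lit 8))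
    (@En.n l28 (nat_lit 10256) (nat_lit 10) (nat_lit 3))
    (@En.n l13295 (nat_lit 5184) (nat_lit 0) (nat_lit 5))
    (@En.i (nat_lit 11098) (nat_lit 13) (nat_lit 10))
    (@En.n l3819 (nat_lit 9086) (nat_lit 8) (nat_lit 13))
    (@En.i (nat_lit 8094) (nat_lit 12) (nat_lit 6))
    (@En.n l14488 (nat_lit 12025) (nat_lit 15) (nat_lit 3))))
  (@Cl.mk (nat_lit 0x2000d0007000c00030009000d0004000b0003000b000900070005000e0005) (nat_lit 0x60a068010860080) (nat_lit 16) Lb.e (@T16.mk En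
    (@En.n l117 (nat_lit 8756) (nat_lit 4) (nat_lit 5))
    (@En.i (nat_lit 10262) (nat_lit 1) (nat_lit 14))
    (@En.n l3480 (nat_lit 7538) (nat_lit 2) (nat_lit 5))
    (@En.n l31688 (nat_lit 7770) (nat_lit 3) (nat_lit 7))
    (@En.i (nat_lit 8537) (nat_lit 4) (nat_lit 9))
    (@En.n l38319 (nat_lit 10185) (nat_lit 10) (nat_lit 11))
    (@En.n l6081 (nat_lit 10223) (nat_lit 6) (nat_lit 3))
    (@En.n l21793 (nat_lit 4443) (nat_lit 0) (nat_lit 11))
    (@En.n l9979 (nat_lit 8755) (nat_lit 8) (nat_lit 4))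
    (@En.i (nat_lit 8683) (nat_lit 10) (nat_lit 13))
    (@En.n l23498 (nat_lit 9973) (nat_lit 11) (nat_lit 9))
    (@En.n l9309 (nat_lit 10259) (nat_lit 11) (nat_lit 3))
    (@En.n l1803 (nat_lit 8214) (nat_lit 0) (nat_lit 12))
    (@En.i (nat_lit 5913) (nat_lit 14) (nat_lit 7))
    (@En.n l15991 (nat_lit 9541) (nat_lit 2) (nat_lit 13))
    (@En.n l11 (nat_lit 10258) (nat_lit 15) (nat_lit 2))))
  (@Cl.mk (nat_lit 0x2000d000b000800030009000d0005000b0003000b000800070005000e0005) (nat_lit 0x5820650208300b0) (nat_lit 16) Lb.e (@T16.mk En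
    (@En.n l50 (nat_lit 8759) (nat_lit 4) (nat_lit 5))
    (@En.n l35466 (nat_lit 10261) (nat_lit 1) (nat_lit 14))
    (@En.n l4004 (nat_lit 7539) (nat_lit 2) (nat_lit 5))
    (@En.n l4004 (nat_lit 7772) (nat_lit 3) (nat_lit 7))
    (@En.n l28304 (nat_lit 7160) (nat_lit 4) (nat_lit 8))
    (@En.n l8030 (nat_lit 10186) (nat_lit 10) (nat_lit 11))
    (@En.n l4004 (nat_lit 10222) (nat_lit 6) (nat_lit 3))
    (@En.n l11709 (nat_lit 7682) (nat_lit 0) (nat_lit 11))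
    (@En.n l8030 (nat_lit 8751) (nat_lit 8) (nat_lit 5))
    (@En.n l22467 (nat_lit 8686) (nat_lit 10) (nat_lit 13))
    (@En.i (nat_lit 11700) (nat_lit 11) (nat_lit 9))
    (@En.n l35467 (nat_lit 10258) (nat_lit 11) (nat_lit 3))
    (@En.n l10578 (nat_lit 3138) (nat_lit 0) (nat_lit 8))
    (@En.n l35468 (nat_lit 10260) (nat_lit 14) (nat_lit 11))
    (@En.i (nat_lit 9543) (nat_lit 2) (nat_lit 13))
    (@En.n l18 (nat_lit 10259) (nat_lit 15) (nat_lit 2))))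
  (@Cl.mk (nat_lit 0x2000b0007000c0008000c00050004000b0004000b000900080005000e0005) (nat_lit 0x70a4300308640c0) (nat_lit 16) Lb.e (@T16.mk En
    (@En.n l117 (nat_lit 8754) (nat_lit 7) (nat_lit 5))
    (@En.n l2351 (nat_lit 10263) (nat_lit 1) (nat_lit 14))
    (@En.n l15186 (nat_lit 7537) (nat_lit 2) (nat_lit 5))
    (@En.n l39457 (nat_lit 9082) (nat_lit 3) (nat_lit 8))
    (@En.i (nat_lit 8770) (nat_lit 4) (nat_lit 9))
    (@En.n l20559 (nat_lit 10181) (nat_lit 6) (nat_lit 11))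
    (@En.n l2351 (nat_lit 10219) (nat_lit 6) (nat_lit 4))
    (@En.n l9822 (nat_lit 7951) (nat_lit 8) (nat_lit 11))
    (@En.n l50 (nat_lit 10258) (nat_lit 8) (nat_lit 4))
    (@En.n l20559 (nat_lit 8747) (nat_lit 9) (nat_lit 5))
    (@En.i (nat_lit 8680) (nat_lit 11) (nat_lit 12))
    (@En.n l20162 (nat_lit 11644) (nat_lit 12) (nat_lit 8))
    (@En.n l20559 (nat_lit 8203) (nat_lit 13) (nat_lit 12))
    (@En.n l5294 (nat_lit 7529) (nat_lit 14) (nat_lit 7))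
    (@En.n l15991 (nat_lit 9475) (nat_lit 4) (nat_lit 11))
    (@En.n l11 (nat_lit 10260) (nat_lit 15) (nat_lit 2))))
  (@Cl.mk (nat_lit 0x20008000d000b000800030009000d000500080003000c00080007000e0004) (nat_lit 0x5595043010620a0) (nat_lit 16) Lb.e (@T16.mk En
    (@En.n l25122 (nat_lit 10266) (nat_lit 5) (nat_lit 4))
    (@En.n l998 (nat_lit 6107) (nat_lit 1) (nat_lit 14))
    (@En.n l24423 (nat_lit 5412) (nat_lit 2) (nat_lit 7))
    (@En.n l25123 (nat_lit 7550) (nat_lit 3) (nat_lit 8))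
    (@En.n l25124 (nat_lit 10707) (nat_lit 5) (nat_lit 12))
    (@En.n l28 (nat_lit 10264) (nat_lit 5) (nat_lit 3))
    (@En.n l24423 (nat_lit 4478) (nat_lit 6) (nat_lit 8))
    (@En.n l11787 (nat_lit 10752) (nat_lit 7) (nat_lit 5))
    (@En.i (nat_lit 4371) (nat_lit 9) (nat_lit 13))
    (@En.n l998 (nat_lit 10760) (nat_lit 10) (nat_lit 9))
    (@En.n l8137 (nat_lit 10262) (nat_lit 10) (nat_lit 3))
    (@En.i (nat_lit 11184) (nat_lit 0) (nat_lit 8))
    (@En.n l11778 (nat_lit 10263) (nat_lit 13) (nat_lit 11))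
    (@En.n l813 (nat_lit 7541) (nat_lit 14) (nat_lit 13))
    (@En.n l9724 (nat_lit 10585) (nat_lit 3) (nat_lit 8))
    (@En.n l17 (nat_lit 10261) (nat_lit 15) (nat_lit 2))))
  (@Cl.mk (nat_lit 0x20008000d0007000c00030009000d000400080003000c00090007000e0004) (nat_lit 0x560204301085070) (nat_lit 16) Lb.e (@T16.mk En
    (@En.n l39775 (nat_lit 8814) (nat_lit 5) (nat_lit 4))
    (@En.n l2691 (nat_lit 6104) (nat_lit 1) (nat_lit 14))
    (@En.n l31688 (nat_lit 5413) (nat_lit 2) (nat_lit 7))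
    (@En.n l17781 (nat_lit 10854) (nat_lit 3) (nat_lit 9))
    (@En.n l17108 (nat_lit 10706) (nat_lit 5) (nat_lit 12))
    (@En.n l2351 (nat_lit 10265) (nat_lit 5) (nat_lit 3))
    (@En.n l21793 (nat_lit 4477) (nat_lit 6) (nat_lit 8))
    (@En.n l39776 (nat_lit 10270) (nat_lit 7) (nat_lit 4))
    (@En.i (nat_lit 4370) (nat_lit 9) (nat_lit 13))
    (@En.n l23498 (nat_lit 9977) (nat_lit 10) (nat_lit 9))
    (@En.n l322 (nat_lit 10261) (nat_lit 10) (nat_lit 3))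
    (@En.n l2351 (nat_lit 7094) (nat_lit 0) (nat_lit 12))
    (@En.n l34942 (nat_lit 11545) (nat_lit 13) (nat_lit 7))
    (@En.n l617 (nat_lit 7540) (nat_lit 14) (nat_lit 13))
    (@En.n l15991 (nat_lit 10588) (nat_lit 3) (nat_lit 8))
    (@En.n l11 (nat_lit 10262) (nat_lit 15) (nat_lit 2))))
  (@Cl.mk (nat_lit 0x20008000b0007000c0008000c0005000400080004000c00090008000e0004) (nat_lit 0x5801010020721b0) (nat_lit 16) Lb.e (@T16.mk En
    (@En.n l32644 (nat_lit 10269) (nat_lit 15) (nat_lit 4))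
    (@En.n l16802 (nat_lit 6110) (nat_lit 1) (nat_lit 14))
    (@En.n l6752 (nat_lit 5625) (nat_lit 2) (nat_lit 8))
    (@En.n l32645 (nat_lit 7549) (nat_lit 3) (nat_lit 9))
    (@En.n l14088 (nat_lit 10708) (nat_lit 5) (nat_lit 12))
    (@En.i (nat_lit 10271) (nat_lit 5) (nat_lit 4))
    (@En.n l219 (nat_lit 10261) (nat_lit 6) (nat_lit 8))
    (@En.n l1964 (nat_lit 10262) (nat_lit 7) (nat_lit 4))
    (@En.n l6753 (nat_lit 10879) (nat_lit 8) (nat_lit 5))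
    (@En.i (nat_lit 3649) (nat_lit 10) (nat_lit 12))
    (@En.n l32646 (nat_lit 11372) (nat_lit 11) (nat_lit 8))
    (@En.i (nat_lit 7091) (nat_lit 12) (nat_lit 12))
    (@En.n l32647 (nat_lit 10968) (nat_lit 13) (nat_lit 7))
    (@En.n l1596 (nat_lit 8924) (nat_lit 7) (nat_lit 11))
    (@En.n l6867 (nat_lit 10580) (nat_lit 6) (nat_lit 8))
    (@En.n l17 (nat_lit 10263) (nat_lit 15) (nat_lit 2))))
  (@Cl.mk (nat_lit 0x20009000d000a000800030009000d000700060003000c00080007000e0004) (nat_lit 0x650504300062090) (nat_lit 16) Lb.e (@T16.mk En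
    (@En.n l32648 (nat_lit 10267) (nat_lit 5) (nat_lit 4))
    (@En.n l998 (nat_lit 6099) (nat_lit 1) (nat_lit 14))
    (@En.n l32649 (nat_lit 5404) (nat_lit 2) (nat_lit 7))
    (@En.n l32650 (nat_lit 11672) (nat_lit 3) (nat_lit 8))
    (@En.n l32651 (nat_lit 11980) (nat_lit 5) (nat_lit 12))
    (@En.i (nat_lit 10261) (nat_lit 5) (nat_lit 3))
    (@En.n l3457 (nat_lit 12800) (nat_lit 0) (nat_lit 6))
    (@En.n l11787 (nat_lit 10735) (nat_lit 7) (nat_lit 7))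
    (@En.i (nat_lit 4376) (nat_lit 9) (nat_lit 13))
    (@En.n l998 (nat_lit 11702) (nat_lit 10) (nat_lit 9))
    (@En.n l6868 (nat_lit 10265) (nat_lit 10) (nat_lit 3))
    (@En.n l32650 (nat_lit 11186) (nat_lit 0) (nat_lit 8))
    (@En.n l3462 (nat_lit 10271) (nat_lit 13) (nat_lit 10))
    (@En.n l32652 (nat_lit 10224) (nat_lit 14) (nat_lit 13))
    (@En.n l32653 (nat_lit 10404) (nat_lit 3) (nat_lit 9))
    (@En.n l17 (nat_lit 10264) (nat_lit 15) (nat_lit 2))))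
  (@Cl.mk (nat_lit 0x20009000d0007000b00030009000d000700050003000c00090007000e0004) (nat_lit 0x660304300085060) (nat_lit 16) Lb.e (@T16.mk En
    (@En.n l41029 (nat_lit 10268) (nat_lit 5) (nat_lit 4))
    (@En.n l2698 (nat_lit 6116) (nat_lit 1) (nat_lit 14))
    (@En.n l5592 (nat_lit 5407) (nat_lit 2) (nat_lit 7))
    (@En.n l20656 (nat_lit 10853) (nat_lit 3) (nat_lit 9))
    (@En.n l15082 (nat_lit 11982) (nat_lit 5) (nat_lit 12))
    (@En.n l6569 (nat_lit 10262) (nat_lit 5) (nat_lit 3))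
    (@En.i (nat_lit 8955) (nat_lit 0) (nat_lit 5))
    (@En.n l33415 (nat_lit 10734) (nat_lit 7) (nat_lit 7))
    (@En.i (nat_lit 4372) (nat_lit 9) (nat_lit 13))
    (@En.n l197 (nat_lit 8906) (nat_lit 10) (nat_lit 9))
    (@En.n l8400 (nat_lit 10264) (nat_lit 10) (nat_lit 3))
    (@En.i (nat_lit 7001) (nat_lit 0) (nat_lit 11))
    (@En.n l13520 (nat_lit 11560) (nat_lit 13) (nat_lit 7))
    (@En.n l9751 (nat_lit 8927) (nat_lit 14) (nat_lit 13))
    (@En.n l22804 (nat_lit 10403) (nat_lit 3) (nat_lit 9))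
    (@En.n l17 (nat_lit 10265) (nat_lit 15) (nat_lit 2))))
  (@Cl.mk (nat_lit 0x30008000d000500080003000c000c00090008000400040008000d000b0007) (nat_lit 0x490106733004320) (nat_lit 16) Lb.e (@T16.mk En
    (@En.n l32238 (nat_lit 11187) (nat_lit 0) (nat_lit 7))
    (@En.n l22465 (nat_lit 10269) (nat_lit 12) (nat_lit 11))
    (@En.n l13889 (nat_lit 10231) (nat_lit 2) (nat_lit 13))
    (@En.n l3471 (nat_lit 10584) (nat_lit 3) (nat_lit 8))
    (@En.n l18 (nat_lit 10331) (nat_lit 12) (nat_lit 4))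
    (@En.n l22467 (nat_lit 10716) (nat_lit 0) (nat_lit 4))
    (@En.n l1867 (nat_lit 5406) (nat_lit 0) (nat_lit 8))
    (@En.n l3866 (nat_lit 10916) (nat_lit 1) (nat_lit 9))
    (@En.n l39781 (nat_lit 10261) (nat_lit 4) (nat_lit 12))
    (@En.i (nat_lit 10310) (nat_lit 10) (nat_lit 12))
    (@En.i (nat_lit 10267) (nat_lit 10) (nat_lit 3))
    (@En.n l1867 (nat_lit 4479) (nat_lit 10) (nat_lit 8))
    (@En.i (nat_lit 9163) (nat_lit 6) (nat_lit 5))
    (@En.n l13889 (nat_lit 4393) (nat_lit 2) (nat_lit 13))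
    (@En.i (nat_lit 11705) (nat_lit 3) (nat_lit 8))
    (@En.n l152 (nat_lit 8814) (nat_lit 15) (nat_lit 3))))
  (@Cl.mk (nat_lit 0x30008000d000700060003000c000c00090008000400040009000d000a0007) (nat_lit 0x60009731006450) (nat_lit 16) Lb.e (@T16.mk En
    (@En.n l16986 (nat_lit 11188) (nat_lit 0) (nat_lit 7))
    (@En.n l32970 (nat_lit 10337) (nat_lit 12) (nat_lit 10))
    (@En.n l32971 (nat_lit 10227) (nat_lit 6) (nat_lit 13))
    (@En.n l17193 (nat_lit 10693) (nat_lit 3) (nat_lit 9))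
    (@En.n l23977 (nat_lit 10332) (nat_lit 12) (nat_lit 4))
    (@En.n l32972 (nat_lit 10829) (nat_lit 0) (nat_lit 4))
    (@En.n l8260 (nat_lit 5402) (nat_lit 0) (nat_lit 8))
    (@En.n l32020 (nat_lit 10918) (nat_lit 1) (nat_lit 9))
    (@En.n l32973 (nat_lit 10264) (nat_lit 4) (nat_lit 12))
    (@En.n l32974 (nat_lit 10420) (nat_lit 10) (nat_lit 12))
    (@En.n l28 (nat_lit 10266) (nat_lit 10) (nat_lit 3))
    (@En.n l8260 (nat_lit 12804) (nat_lit 0) (nat_lit 6))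
    (@En.n l32975 (nat_lit 10207) (nat_lit 13) (nat_lit 7))
    (@En.n l32976 (nat_lit 4392) (nat_lit 2) (nat_lit 13))
    (@En.i (nat_lit 11706) (nat_lit 3) (nat_lit 8))
    (@En.n l152 (nat_lit 10268) (nat_lit 15) (nat_lit 3))))
  (@Cl.mk (nat_lit 0x30008000d000700050003000c000c000a0008000400040009000d0006000b) (nat_lit 0x490009973006302) (nat_lit 16) Lb.e (@T16.mk En
    (@En.n l14869 (nat_lit 7003) (nat_lit 0) (nat_lit 11))
    (@En.n l40705 (nat_lit 11562) (nat_lit 6) (nat_lit 6))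
    (@En.n l3593 (nat_lit 10228) (nat_lit 6) (nat_lit 13))
    (@En.n l7406 (nat_lit 10692) (nat_lit 3) (nat_lit 9))
    (@En.n l18 (nat_lit 10330) (nat_lit 12) (nat_lit 4))
    (@En.n l40706 (nat_lit 10159) (nat_lit 0) (nat_lit 4))
    (@En.i (nat_lit 5405) (nat_lit 0) (nat_lit 8))
    (@En.n l16306 (nat_lit 10847) (nat_lit 1) (nat_lit 10))
    (@En.n l34534 (nat_lit 10265) (nat_lit 4) (nat_lit 12))
    (@En.n l15662 (nat_lit 10425) (nat_lit 10) (nat_lit 12))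
    (@En.n l28 (nat_lit 8814) (nat_lit 10) (nat_lit 3))
    (@En.n l9845 (nat_lit 12771) (nat_lit 0) (nat_lit 5))
    (@En.i (nat_lit 10208) (nat_lit 13) (nat_lit 7))
    (@En.n l3593 (nat_lit 4396) (nat_lit 2) (nat_lit 13))
    (@En.n l152 (nat_lit 8809) (nat_lit 3) (nat_lit 8))
    (@En.n l117 (nat_lit 10267) (nat_lit 15) (nat_lit 3))))
  (@Cl.mk (nat_lit 0x400040008000b0006000c0007000c0005000400080004000c000c000a0009) (nat_lit 0x41010300207831) (nat_lit 16) Lb.e (@T16.mk En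
    (@En.n l3480 (nat_lit 5536) (nat_lit 0) (nat_lit 9))
    (@En.i (nat_lit 10917) (nat_lit 1) (nat_lit 10))
    (@En.n l32967 (nat_lit 10263) (nat_lit 4) (nat_lit 12))
    (@En.n l29756 (nat_lit 10308) (nat_lit 13) (nat_lit 12))
    (@En.n l4018 (nat_lit 10337) (nat_lit 4) (nat_lit 4))
    (@En.n l18910 (nat_lit 10266) (nat_lit 11) (nat_lit 8))
    (@En.n l3480 (nat_lit 8814) (nat_lit 12) (nat_lit 4))
    (@En.n l32968 (nat_lit 9164) (nat_lit 0) (nat_lit 5))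
    (@En.n l17961 (nat_lit 4394) (nat_lit 1) (nat_lit 12))
    (@En.n l31875 (nat_lit 11344) (nat_lit 1) (nat_lit 7))
    (@En.n l32969 (nat_lit 7092) (nat_lit 11) (nat_lit 12))
    (@En.n l3506 (nat_lit 10961) (nat_lit 4) (nat_lit 6))
    (@En.n l17961 (nat_lit 7371) (nat_lit 7) (nat_lit 11))
    (@En.n l21632 (nat_lit 10582) (nat_lit 11) (nat_lit 8))
    (@En.n l7 (nat_lit 10333) (nat_lit 12) (nat_lit 4))
    (@En.n l12503 (nat_lit 10717) (nat_lit 0) (nat_lit 4))))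
  (@Cl.mk (nat_lit 0x20008000c0007000c000b0004000a000400080005000c00090006000e0004) (nat_lit 0x450240303024090) (nat_lit 16) Lb.e (@T16.mk En
    (@En.n l35423 (nat_lit 10158) (nat_lit 15) (nat_lit 4))
    (@En.n l35424 (nat_lit 6195) (nat_lit 1) (nat_lit 14))
    (@En.n l35425 (nat_lit 7164) (nat_lit 2) (nat_lit 6))
    (@En.n l31098 (nat_lit 10530) (nat_lit 3) (nat_lit 9))
    (@En.n l810 (nat_lit 10307) (nat_lit 5) (nat_lit 12))
    (@En.n l6029 (nat_lit 8949) (nat_lit 5) (nat_lit 5))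
    (@En.n l35426 (nat_lit 9149) (nat_lit 6) (nat_lit 8))
    (@En.n l6029 (nat_lit 10263) (nat_lit 7) (nat_lit 4))
    (@En.n l35427 (nat_lit 10776) (nat_lit 9) (nat_lit 10))
    (@En.n l50 (nat_lit 10880) (nat_lit 9) (nat_lit 4))
    (@En.n l34772 (nat_lit 10265) (nat_lit 11) (nat_lit 11))
    (@En.i (nat_lit 7085) (nat_lit 12) (nat_lit 12))
    (@En.i (nat_lit 11546) (nat_lit 13) (nat_lit 7))
    (@En.n l17172 (nat_lit 8925) (nat_lit 14) (nat_lit 12))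
    (@En.n l810 (nat_lit 10711) (nat_lit 6) (nat_lit 8))
    (@En.n l11 (nat_lit 10270) (nat_lit 15) (nat_lit 2))))
  (@Cl.mk (nat_lit 0x2000a000a0007000b0008000c0006000600050004000c00090008000e0004) (nat_lit 0x680312000055150) (nat_lit 16) Lb.e (@T16.mk En
    (@En.n l28194 (nat_lit 10337) (nat_lit 15) (nat_lit 4))
    (@En.n l6749 (nat_lit 6128) (nat_lit 1) (nat_lit 14))
    (@En.n l6752 (nat_lit 5638) (nat_lit 2) (nat_lit 8))
    (@En.i (nat_lit 12521) (nat_lit 3) (nat_lit 9))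
    (@En.n l8841 (nat_lit 11289) (nat_lit 5) (nat_lit 12))
    (@En.n l6752 (nat_lit 11132) (nat_lit 5) (nat_lit 4))
    (@En.n l11 (nat_lit 10265) (nat_lit 6) (nat_lit 5))
    (@En.n l152 (nat_lit 12500) (nat_lit 10) (nat_lit 6))
    (@En.n l16802 (nat_lit 10736) (nat_lit 8) (nat_lit 6))
    (@En.i (nat_lit 3636) (nat_lit 10) (nat_lit 12))
    (@En.n l55 (nat_lit 10127) (nat_lit 11) (nat_lit 8))
    (@En.i (nat_lit 6876) (nat_lit 12) (nat_lit 11))
    (@En.n l8009 (nat_lit 11172) (nat_lit 13) (nat_lit 7))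
    (@En.n l18892 (nat_lit 11130) (nat_lit 6) (nat_lit 10))
    (@En.i (nat_lit 10406) (nat_lit 14) (nat_lit 10))
    (@En.n l17 (nat_lit 10271) (nat_lit 15) (nat_lit 2))))
noncomputable def a642 : T16 Cl := @T16.mk Cl
  (@Cl.mk (nat_lit 0x4000a0005000b0006000c000b000600050004000b0005000c000b000a0005) (nat_lit 0x8060a5000407470) (nat_lit 16) Lb.e (@T16.mk En
    (@En.n l19250 (nat_lit 9733) (nat_lit 0) (nat_lit 5))
    (@En.n l217 (nat_lit 10216) (nat_lit 1) (nat_lit 10))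
    (@En.n l644 (nat_lit 10187) (nat_lit 5) (nat_lit 11))
    (@En.n l3528 (nat_lit 10337) (nat_lit 2) (nat_lit 12))
    (@En.n l11547 (nat_lit 8752) (nat_lit 4) (nat_lit 5))
    (@En.n l32046 (nat_lit 9959) (nat_lit 0) (nat_lit 11))
    (@En.n l11547 (nat_lit 9203) (nat_lit 12) (nat_lit 4))
    (@En.n l7899 (nat_lit 9398) (nat_lit 11) (nat_lit 5))
    (@En.n l42122 (nat_lit 10142) (nat_lit 1) (nat_lit 6))
    (@En.n l619 (nat_lit 9173) (nat_lit 5) (nat_lit 11))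
    (@En.n l20124 (nat_lit 8320) (nat_lit 2) (nat_lit 12))
    (@En.n l19248 (nat_lit 10285) (nat_lit 4) (nat_lit 6))
    (@En.n l18200 (nat_lit 9459) (nat_lit 13) (nat_lit 11))
    (@En.n l7 (nat_lit 9735) (nat_lit 6) (nat_lit 5))
    (@En.n l16865 (nat_lit 10274) (nat_lit 0) (nat_lit 10))
    (@En.n l7 (nat_lit 9174) (nat_lit 12) (nat_lit 4))))
  (@Cl.mk (nat_lit 0x4000b000a0005000b000a0005000a00060005000b0006000c0006000b0005) (nat_lit 0x830880800302040) (nat_lit 16) Lb.e (@T16.mk En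
    (@En.n l27739 (nat_lit 11073) (nat_lit 0) (nat_lit 5))
    (@En.i (nat_lit 10145) (nat_lit 1) (nat_lit 11))
    (@En.n l27735 (nat_lit 11077) (nat_lit 1) (nat_lit 6))
    (@En.n l30117 (nat_lit 6867) (nat_lit 2) (nat_lit 12))
    (@En.n l30118 (nat_lit 10277) (nat_lit 4) (nat_lit 6))
    (@En.n l29612 (nat_lit 9937) (nat_lit 2) (nat_lit 11))
    (@En.n l30118 (nat_lit 11883) (nat_lit 11) (nat_lit 5))
    (@En.n l17 (nat_lit 10283) (nat_lit 7) (nat_lit 6))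
    (@En.n l30119 (nat_lit 10272) (nat_lit 1) (nat_lit 10))
    (@En.n l30120 (nat_lit 11780) (nat_lit 9) (nat_lit 5))
    (@En.n l2824 (nat_lit 10154) (nat_lit 6) (nat_lit 10))
    (@En.n l30117 (nat_lit 9242) (nat_lit 1) (nat_lit 11))
    (@En.n l30121 (nat_lit 10275) (nat_lit 2) (nat_lit 5))
    (@En.i (nat_lit 10837) (nat_lit 6) (nat_lit 10))
    (@En.n l30122 (nat_lit 10277) (nat_lit 1) (nat_lit 11))
    (@En.n l50 (nat_lit 11813) (nat_lit 12) (nat_lit 4))))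
  (@Cl.mk (nat_lit 0x4000a0005000b000a0006000b00060005000b00060005000c000b0005000a) (nat_lit 0x4402005007807) (nat_lit 16) Lb.e (@T16.mk En
    (@En.n l27632 (nat_lit 9734) (nat_lit 0) (nat_lit 10))
    (@En.n l27633 (nat_lit 11861) (nat_lit 1) (nat_lit 5))
    (@En.n l27634 (nat_lit 11846) (nat_lit 5) (nat_lit 11))
    (@En.n l17645 (nat_lit 9991) (nat_lit 1) (nat_lit 12))
    (@En.n l27635 (nat_lit 10694) (nat_lit 11) (nat_lit 5))
    (@En.n l50 (nat_lit 11742) (nat_lit 5) (nat_lit 6))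
    (@En.n l27636 (nat_lit 10273) (nat_lit 1) (nat_lit 11))
    (@En.n l27637 (nat_lit 10476) (nat_lit 11) (nat_lit 5))
    (@En.n l8083 (nat_lit 10813) (nat_lit 8) (nat_lit 6))
    (@En.i (nat_lit 8670) (nat_lit 9) (nat_lit 11))
    (@En.n l61 (nat_lit 10273) (nat_lit 2) (nat_lit 6))
    (@En.n l27638 (nat_lit 9981) (nat_lit 6) (nat_lit 10))
    (@En.n l27639 (nat_lit 9257) (nat_lit 13) (nat_lit 11))
    (@En.n l27640 (nat_lit 9738) (nat_lit 14) (nat_lit 5))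
    (@En.n l27641 (nat_lit 10275) (nat_lit 0) (nat_lit 10))
    (@En.n l6251 (nat_lit 11854) (nat_lit 15) (nat_lit 4))))
  (@Cl.mk (nat_lit 0x4000a00090005000a0006000b0006000b000700060005000c0005000b000a) (nat_lit 0x550604060004038) (nat_lit 16) Lb.e (@T16.mk En
    (@En.n l32130 (nat_lit 10721) (nat_lit 0) (nat_lit 10))
    (@En.n l40766 (nat_lit 11860) (nat_lit 1) (nat_lit 11))
    (@En.n l40767 (nat_lit 10405) (nat_lit 5) (nat_lit 5))
    (@En.n l40768 (nat_lit 10279) (nat_lit 0) (nat_lit 12))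
    (@En.i (nat_lit 10698) (nat_lit 11) (nat_lit 5))
    (@En.n l33196 (nat_lit 10692) (nat_lit 10) (nat_lit 6))
    (@En.n l3866 (nat_lit 10747) (nat_lit 6) (nat_lit 7))
    (@En.n l32418 (nat_lit 10272) (nat_lit 9) (nat_lit 11))
    (@En.n l40769 (nat_lit 10594) (nat_lit 8) (nat_lit 6))
    (@En.n l18826 (nat_lit 8122) (nat_lit 9) (nat_lit 11))
    (@En.n l24107 (nat_lit 10278) (nat_lit 7) (nat_lit 6))
    (@En.n l40770 (nat_lit 9454) (nat_lit 10) (nat_lit 10))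
    (@En.n l14340 (nat_lit 9937) (nat_lit 15) (nat_lit 5))
    (@En.n l17791 (nat_lit 10695) (nat_lit 7) (nat_lit 9))
    (@En.n l40771 (nat_lit 8752) (nat_lit 1) (nat_lit 10))
    (@En.n l40772 (nat_lit 10083) (nat_lit 2) (nat_lit 4))))
  (@Cl.mk (nat_lit 0x4000a000a00090005000a000900060006000b00070006000c00070005000b) (nat_lit 0x634026003007005) (nat_lit 16) Lb.e (@T16.mk En
    (@En.n l40990 (nat_lit 11288) (nat_lit 0) (nat_lit 11))
    (@En.n l34124 (nat_lit 12212) (nat_lit 1) (nat_lit 5))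
    (@En.n l40991 (nat_lit 6438) (nat_lit 0) (nat_lit 7))
    (@En.n l40992 (nat_lit 10280) (nat_lit 1) (nat_lit 12))
    (@En.n l40993 (nat_lit 10702) (nat_lit 10) (nat_lit 6))
    (@En.n l39246 (nat_lit 7736) (nat_lit 5) (nat_lit 7))
    (@En.n l40994 (nat_lit 10274) (nat_lit 9) (nat_lit 11))
    (@En.n l3787 (nat_lit 11159) (nat_lit 10) (nat_lit 6))
    (@En.n l39652 (nat_lit 10274) (nat_lit 8) (nat_lit 6))
    (@En.n l527 (nat_lit 11154) (nat_lit 7) (nat_lit 9))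
    (@En.n l12788 (nat_lit 8277) (nat_lit 10) (nat_lit 10))
    (@En.n l16161 (nat_lit 10281) (nat_lit 2) (nat_lit 5))
    (@En.n l2337 (nat_lit 10701) (nat_lit 7) (nat_lit 9))
    (@En.n l39250 (nat_lit 11051) (nat_lit 6) (nat_lit 10))
    (@En.n l18989 (nat_lit 10073) (nat_lit 2) (nat_lit 10))
    (@En.n l40995 (nat_lit 11055) (nat_lit 15) (nat_lit 4))))
  (@Cl.mk (nat_lit 0x4000a00090005000a000a00070006000b000700060006000c0005000b0009) (nat_lit 0x530530020006073) (nat_lit 16) Lb.e (@T16.mk En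
    (@En.n l35022 (nat_lit 10518) (nat_lit 0) (nat_lit 9))
    (@En.n l35023 (nat_lit 11582) (nat_lit 1) (nat_lit 11))
    (@En.n l35024 (nat_lit 11079) (nat_lit 5) (nat_lit 5))
    (@En.n l35025 (nat_lit 9941) (nat_lit 0) (nat_lit 12))
    (@En.n l35026 (nat_lit 11083) (nat_lit 10) (nat_lit 6))
    (@En.i (nat_lit 11714) (nat_lit 10) (nat_lit 6))
    (@En.n l35027 (nat_lit 10282) (nat_lit 6) (nat_lit 7))
    (@En.i (nat_lit 9735) (nat_lit 9) (nat_lit 11))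
    (@En.n l15078 (nat_lit 10850) (nat_lit 10) (nat_lit 6))
    (@En.n l35028 (nat_lit 10281) (nat_lit 9) (nat_lit 7))
    (@En.n l601 (nat_lit 9808) (nat_lit 6) (nat_lit 10))
    (@En.n l35029 (nat_lit 10280) (nat_lit 10) (nat_lit 10))
    (@En.n l35030 (nat_lit 10278) (nat_lit 15) (nat_lit 5))
    (@En.n l33034 (nat_lit 11406) (nat_lit 7) (nat_lit 9))
    (@En.n l35031 (nat_lit 10282) (nat_lit 1) (nat_lit 10))
    (@En.n l17 (nat_lit 10279) (nat_lit 15) (nat_lit 4))))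
  (@Cl.mk (nat_lit 0x5000a000a00060005000b000a00060006000b0005000b0006000a0005000b) (nat_lit 0x820016005050602) (nat_lit 16) Lb.e (@T16.mk En
    (@En.n l42658 (nat_lit 12000) (nat_lit 0) (nat_lit 11))
    (@En.n l41005 (nat_lit 10276) (nat_lit 1) (nat_lit 5))
    (@En.n l18212 (nat_lit 11407) (nat_lit 9) (nat_lit 10))
    (@En.n l31397 (nat_lit 6444) (nat_lit 1) (nat_lit 6))
    (@En.n l41846 (nat_lit 10285) (nat_lit 2) (nat_lit 11))
    (@En.i (nat_lit 11446) (nat_lit 5) (nat_lit 5))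
    (@En.n l42659 (nat_lit 10814) (nat_lit 9) (nat_lit 11))
    (@En.n l152 (nat_lit 9569) (nat_lit 10) (nat_lit 6))
    (@En.n l28066 (nat_lit 9959) (nat_lit 2) (nat_lit 6))
    (@En.n l870 (nat_lit 8000) (nat_lit 6) (nat_lit 10))
    (@En.n l28066 (nat_lit 8283) (nat_lit 1) (nat_lit 11))
    (@En.i (nat_lit 10852) (nat_lit 11) (nat_lit 5))
    (@En.n l42660 (nat_lit 10858) (nat_lit 0) (nat_lit 6))
    (@En.n l3536 (nat_lit 11392) (nat_lit 6) (nat_lit 10))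
    (@En.n l42661 (nat_lit 11779) (nat_lit 10) (nat_lit 10))
    (@En.n l35769 (nat_lit 11398) (nat_lit 2) (nat_lit 5))))
  (@Cl.mk (nat_lit 0x4000a00090004000a000a00090006000a000700060006000c00070006000c) (nat_lit 0x240335020003003) (nat_lit 16) Lb.e (@T16.mk En
    (@En.n l43382 (nat_lit 11581) (nat_lit 0) (nat_lit 12))
    (@En.n l27635 (nat_lit 10955) (nat_lit 10) (nat_lit 6))
    (@En.n l50 (nat_lit 7735) (nat_lit 5) (nat_lit 7))
    (@En.n l27636 (nat_lit 9959) (nat_lit 3) (nat_lit 12))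
    (@En.n l43383 (nat_lit 11584) (nat_lit 10) (nat_lit 6))
    (@En.i (nat_lit 11845) (nat_lit 10) (nat_lit 6))
    (@En.n l43384 (nat_lit 12000) (nat_lit 6) (nat_lit 7))
    (@En.i (nat_lit 9106) (nat_lit 9) (nat_lit 10))
    (@En.n l42521 (nat_lit 10857) (nat_lit 8) (nat_lit 6))
    (@En.n l2337 (nat_lit 11812) (nat_lit 7) (nat_lit 9))
    (@En.n l23226 (nat_lit 11383) (nat_lit 6) (nat_lit 10))
    (@En.n l40926 (nat_lit 10417) (nat_lit 12) (nat_lit 10))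
    (@En.n l8083 (nat_lit 10276) (nat_lit 15) (nat_lit 4))
    (@En.n l43385 (nat_lit 11388) (nat_lit 7) (nat_lit 9))
    (@En.n l43386 (nat_lit 11286) (nat_lit 1) (nat_lit 10))
    (@En.n l25869 (nat_lit 11080) (nat_lit 15) (nat_lit 4))))
  (@Cl.mk (nat_lit 0x4000a0004000b000a000a000900060005000a00060006000c0007000c0006) (nat_lit 0x309645003003060) (nat_lit 16) Lb.e (@T16.mk En
    (@En.n l27621 (nat_lit 11580) (nat_lit 0) (nat_lit 6))
    (@En.n l27622 (nat_lit 11911) (nat_lit 1) (nat_lit 12))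
    (@En.n l27623 (nat_lit 7710) (nat_lit 4) (nat_lit 7))
    (@En.n l27624 (nat_lit 10273) (nat_lit 3) (nat_lit 12))
    (@En.n l27625 (nat_lit 11583) (nat_lit 10) (nat_lit 6))
    (@En.n l27626 (nat_lit 9991) (nat_lit 5) (nat_lit 6))
    (@En.n l27627 (nat_lit 11158) (nat_lit 10) (nat_lit 10))
    (@En.n l18 (nat_lit 11886) (nat_lit 11) (nat_lit 5))
    (@En.n l27628 (nat_lit 20) (nat_lit 0) (nat_lit 6))
    (@En.n l619 (nat_lit 9204) (nat_lit 7) (nat_lit 9))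
    (@En.i (nat_lit 11910) (nat_lit 6) (nat_lit 10))
    (@En.n l27629 (nat_lit 10422) (nat_lit 6) (nat_lit 10))
    (@En.n l27630 (nat_lit 10096) (nat_lit 13) (nat_lit 11))
    (@En.n l27631 (nat_lit 10417) (nat_lit 15) (nat_lit 4))
    (@En.n l20194 (nat_lit 11276) (nat_lit 0) (nat_lit 10))
    (@En.i (nat_lit 11821) (nat_lit 1) (nat_lit 4))))
  (@Cl.mk (nat_lit 0x50005000b000a0006000b00070005000b00060005000b000b0005000a0009) (nat_lit 0x86010060059034) (nat_lit 16) Lb.e (@T16.mk En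
    (@En.n l26178 (nat_lit 11153) (nat_lit 7) (nat_lit 9))
    (@En.n l29412 (nat_lit 11045) (nat_lit 1) (nat_lit 10))
    (@En.n l2125 (nat_lit 11078) (nat_lit 2) (nat_lit 5))
    (@En.n l3536 (nat_lit 11049) (nat_lit 5) (nat_lit 11))
    (@En.n l29413 (nat_lit 9724) (nat_lit 1) (nat_lit 11))
    (@En.n l5934 (nat_lit 11717) (nat_lit 11) (nat_lit 5))
    (@En.n l7882 (nat_lit 10096) (nat_lit 0) (nat_lit 6))
    (@En.n l29414 (nat_lit 10284) (nat_lit 1) (nat_lit 11))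
    (@En.n l14973 (nat_lit 11778) (nat_lit 11) (nat_lit 5))
    (@En.n l29415 (nat_lit 5608) (nat_lit 0) (nat_lit 7))
    (@En.n l29416 (nat_lit 20) (nat_lit 1) (nat_lit 11))
    (@En.n l50 (nat_lit 10858) (nat_lit 2) (nat_lit 6))
    (@En.n l2579 (nat_lit 10851) (nat_lit 6) (nat_lit 10))
    (@En.n l29417 (nat_lit 9738) (nat_lit 10) (nat_lit 11))
    (@En.n l152 (nat_lit 12265) (nat_lit 11) (nat_lit 5))
    (@En.n l28066 (nat_lit 10273) (nat_lit 0) (nat_lit 5))))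
  (@Cl.mk (nat_lit 0x40009000900060006000b000b00080007000700050005000c000a000a0008) (nat_lit 0x730021400004543) (nat_lit 16) Lb.e (@T16.mk En
    (@En.n l14009 (nat_lit 12002) (nat_lit 0) (nat_lit 8))
    (@En.n l61 (nat_lit 11516) (nat_lit 6) (nat_lit 10))
    (@En.n l7398 (nat_lit 10739) (nat_lit 6) (nat_lit 10))
    (@En.n l4108 (nat_lit 9329) (nat_lit 3) (nat_lit 12))
    (@En.n l152 (nat_lit 12386) (nat_lit 11) (nat_lit 5))
    (@En.n l3503 (nat_lit 11805) (nat_lit 5) (nat_lit 5))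
    (@En.n l644 (nat_lit 5309) (nat_lit 9) (nat_lit 7))
    (@En.n l17291 (nat_lit 5592) (nat_lit 9) (nat_lit 7))
    (@En.n l16651 (nat_lit 10096) (nat_lit 2) (nat_lit 8))
    (@En.n l17292 (nat_lit 5618) (nat_lit 5) (nat_lit 11))
    (@En.n l17293 (nat_lit 9991) (nat_lit 9) (nat_lit 11))
    (@En.n l17294 (nat_lit 5621) (nat_lit 10) (nat_lit 6))
    (@En.n l17295 (nat_lit 9738) (nat_lit 6) (nat_lit 6))
    (@En.n l17296 (nat_lit 11517) (nat_lit 7) (nat_lit 9))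
    (@En.n l17297 (nat_lit 10096) (nat_lit 11) (nat_lit 9))
    (@En.n l7139 (nat_lit 12000) (nat_lit 15) (nat_lit 4))))
  (@Cl.mk (nat_lit 0x4000a000a00060006000c000b000600060004000b0005000c000a000a0005) (nat_lit 0x43001500050a650) (nat_lit 16) Lb.e (@T16.mk En
    (@En.n l14964 (nat_lit 12345) (nat_lit 0) (nat_lit 5))
    (@En.n l61 (nat_lit 12113) (nat_lit 6) (nat_lit 10))
    (@En.n l217 (nat_lit 11878) (nat_lit 6) (nat_lit 10))
    (@En.n l14965 (nat_lit 1256) (nat_lit 2) (nat_lit 12))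
    (@En.n l14830 (nat_lit 10282) (nat_lit 4) (nat_lit 5))
    (@En.n l14966 (nat_lit 7574) (nat_lit 0) (nat_lit 11))
    (@En.n l14967 (nat_lit 11875) (nat_lit 6) (nat_lit 4))
    (@En.n l14968 (nat_lit 12398) (nat_lit 10) (nat_lit 6))
    (@En.n l936 (nat_lit 11877) (nat_lit 1) (nat_lit 6))
    (@En.n l55 (nat_lit 12455) (nat_lit 5) (nat_lit 11))
    (@En.n l14969 (nat_lit 22) (nat_lit 3) (nat_lit 12))
    (@En.n l14970 (nat_lit 12607) (nat_lit 10) (nat_lit 6))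
    (@En.i (nat_lit 10274) (nat_lit 5) (nat_lit 6))
    (@En.i (nat_lit 12119) (nat_lit 6) (nat_lit 10))
    (@En.n l14971 (nat_lit 10281) (nat_lit 1) (nat_lit 10))
    (@En.n l50 (nat_lit 12112) (nat_lit 12) (nat_lit 4))))
  (@Cl.mk (nat_lit 0x4000a000a0005000b000a0009000600060005000b0006000c0007000b0005) (nat_lit 0x600176000606050) (nat_lit 16) Lb.e (@T16.mk En
    (@En.n l28048 (nat_lit 11290) (nat_lit 0) (nat_lit 5))
    (@En.i (nat_lit 12004) (nat_lit 8) (nat_lit 11))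
    (@En.n l15506 (nat_lit 5161) (nat_lit 1) (nat_lit 7))
    (@En.n l17407 (nat_lit 11198) (nat_lit 2) (nat_lit 12))
    (@En.n l40996 (nat_lit 11324) (nat_lit 4) (nat_lit 6))
    (@En.n l40997 (nat_lit 10278) (nat_lit 6) (nat_lit 11))
    (@En.n l3518 (nat_lit 11986) (nat_lit 11) (nat_lit 5))
    (@En.n l72 (nat_lit 11292) (nat_lit 10) (nat_lit 6))
    (@En.n l18 (nat_lit 10272) (nat_lit 8) (nat_lit 6))
    (@En.n l40998 (nat_lit 11839) (nat_lit 7) (nat_lit 9))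
    (@En.n l32328 (nat_lit 9056) (nat_lit 6) (nat_lit 10))
    (@En.n l40999 (nat_lit 2318) (nat_lit 12) (nat_lit 11))
    (@En.n l7 (nat_lit 8013) (nat_lit 3) (nat_lit 5))
    (@En.n l61 (nat_lit 11304) (nat_lit 6) (nat_lit 10))
    (@En.n l32329 (nat_lit 11855) (nat_lit 1) (nat_lit 10))
    (@En.n l7 (nat_lit 11301) (nat_lit 12) (nat_lit 4))))
  (@Cl.mk (nat_lit 0x4000a0005000b000a000a000700060005000b00060006000c000b00050009) (nat_lit 0x509510005003405) (nat_lit 16) Lb.e (@T16.mk En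
    (@En.n l40649 (nat_lit 9039) (nat_lit 10) (nat_lit 9))
    (@En.n l11375 (nat_lit 11579) (nat_lit 1) (nat_lit 5))
    (@En.n l77 (nat_lit 11896) (nat_lit 5) (nat_lit 11))
    (@En.n l28693 (nat_lit 11075) (nat_lit 1) (nat_lit 12))
    (@En.n l40538 (nat_lit 11039) (nat_lit 10) (nat_lit 6))
    (@En.n l40650 (nat_lit 11294) (nat_lit 5) (nat_lit 6))
    (@En.n l40651 (nat_lit 9738) (nat_lit 0) (nat_lit 11))
    (@En.n l18 (nat_lit 8767) (nat_lit 11) (nat_lit 5))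
    (@En.n l18109 (nat_lit 12687) (nat_lit 10) (nat_lit 6))
    (@En.n l97 (nat_lit 11043) (nat_lit 1) (nat_lit 7))
    (@En.i (nat_lit 9286) (nat_lit 6) (nat_lit 10))
    (@En.n l40649 (nat_lit 11816) (nat_lit 6) (nat_lit 10))
    (@En.n l28693 (nat_lit 10128) (nat_lit 13) (nat_lit 11))
    (@En.n l40652 (nat_lit 7988) (nat_lit 14) (nat_lit 5))
    (@En.n l40653 (nat_lit 9332) (nat_lit 0) (nat_lit 10))
    (@En.n l28 (nat_lit 10280) (nat_lit 15) (nat_lit 4))))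
  (@Cl.mk (nat_lit 0x3000b0004000c0009000c00050004000c0004000b00070004000d000c0005) (nat_lit 0x102440040600310) (nat_lit 16) Lb.e (@T16.mk En
    (@En.i (nat_lit 10260) (nat_lit 0) (nat_lit 5))
    (@En.n l55 (nat_lit 8336) (nat_lit 4) (nat_lit 12))
    (@En.i (nat_lit 10717) (nat_lit 2) (nat_lit 13))
    (@En.n l15186 (nat_lit 8535) (nat_lit 3) (nat_lit 4))
    (@En.i (nat_lit 10288) (nat_lit 4) (nat_lit 7))
    (@En.n l19493 (nat_lit 10182) (nat_lit 1) (nat_lit 11))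
    (@En.n l25037 (nat_lit 9733) (nat_lit 6) (nat_lit 4))
    (@En.n l19468 (nat_lit 10319) (nat_lit 0) (nat_lit 12))
    (@En.n l50 (nat_lit 9095) (nat_lit 12) (nat_lit 4))
    (@En.i (nat_lit 10293) (nat_lit 9) (nat_lit 5))
    (@En.i (nat_lit 8338) (nat_lit 6) (nat_lit 12))
    (@En.i (nat_lit 12692) (nat_lit 12) (nat_lit 9))
    (@En.i (nat_lit 7395) (nat_lit 13) (nat_lit 12))
    (@En.n l11 (nat_lit 8769) (nat_lit 14) (nat_lit 4))
    (@En.n l287 (nat_lit 8779) (nat_lit 0) (nat_lit 11))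
    (@En.n l11 (nat_lit 10287) (nat_lit 15) (nat_lit 3))))
  (@Cl.mk (nat_lit 0x3000b0003000c0009000c00050004000c0004000c00070004000d0004000d) (nat_lit 0x102410020a00301) (nat_lit 16) Lb.e (@T16.mk En
    (@En.i (nat_lit 4204) (nat_lit 0) (nat_lit 13))
    (@En.n l117 (nat_lit 10176) (nat_lit 3) (nat_lit 4))
    (@En.i (nat_lit 10816) (nat_lit 2) (nat_lit 13))
    (@En.n l15186 (nat_lit 8599) (nat_lit 3) (nat_lit 4))
    (@En.i (nat_lit 10289) (nat_lit 4) (nat_lit 7))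
    (@En.n l19493 (nat_lit 10175) (nat_lit 1) (nat_lit 12))
    (@En.n l25037 (nat_lit 11841) (nat_lit 6) (nat_lit 4))
    (@En.n l5649 (nat_lit 10323) (nat_lit 10) (nat_lit 12))
    (@En.n l50 (nat_lit 8600) (nat_lit 12) (nat_lit 4))
    (@En.i (nat_lit 10291) (nat_lit 9) (nat_lit 5))
    (@En.i (nat_lit 8337) (nat_lit 6) (nat_lit 12))
    (@En.i (nat_lit 12712) (nat_lit 14) (nat_lit 9))
    (@En.i (nat_lit 7397) (nat_lit 13) (nat_lit 12))
    (@En.i (nat_lit 8336) (nat_lit 15) (nat_lit 3))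
    (@En.i (nat_lit 8560) (nat_lit 0) (nat_lit 11))
    (@En.i (nat_lit 10286) (nat_lit 15) (nat_lit 3))))
noncomputable def a643 : T16 Cl := @T16.mk Cl
  (@Cl.mk (nat_lit 0x3000a0004000b00090006000c00060005000d000400070003000d000c000a) (nat_lit 0x602405003000746) (nat_lit 16) Lb.e (@T16.mk En
    (@En.n l39457 (nat_lit 11285) (nat_lit 0) (nat_lit 10))
    (@En.n l55 (nat_lit 10290) (nat_lit 4) (nat_lit 12))
    (@En.n l17392 (nat_lit 10715) (nat_lit 2) (nat_lit 13))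
    (@En.n l33404 (nat_lit 8698) (nat_lit 3) (nat_lit 3))
    (@En.n l40670 (nat_lit 6382) (nat_lit 11) (nat_lit 7))
    (@En.n l42131 (nat_lit 9734) (nat_lit 5) (nat_lit 4))
    (@En.n l19492 (nat_lit 10325) (nat_lit 0) (nat_lit 13))
    (@En.n l50 (nat_lit 8547) (nat_lit 1) (nat_lit 5))
    (@En.n l34530 (nat_lit 10184) (nat_lit 8) (nat_lit 6))
    (@En.n l3 (nat_lit 10286) (nat_lit 10) (nat_lit 12))
    (@En.n l5294 (nat_lit 9172) (nat_lit 6) (nat_lit 6))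
    (@En.n l17392 (nat_lit 10537) (nat_lit 12) (nat_lit 9))
    (@En.n l1284 (nat_lit 7400) (nat_lit 13) (nat_lit 11))
    (@En.n l42132 (nat_lit 8766) (nat_lit 9) (nat_lit 4))
    (@En.n l36397 (nat_lit 8783) (nat_lit 11) (nat_lit 10))
    (@En.n l11 (nat_lit 10289) (nat_lit 15) (nat_lit 3))))
  (@Cl.mk (nat_lit 0x3000a0003000b00090007000c00060005000d000400070003000d0009000d) (nat_lit 0x602402002000858) (nat_lit 16) Lb.e (@T16.mk En
    (@En.n l11840 (nat_lit 4202) (nat_lit 0) (nat_lit 13))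
    (@En.i (nat_lit 11980) (nat_lit 14) (nat_lit 9))
    (@En.i (nat_lit 10832) (nat_lit 2) (nat_lit 13))
    (@En.n l33404 (nat_lit 8703) (nat_lit 3) (nat_lit 3))
    (@En.n l33405 (nat_lit 6383) (nat_lit 11) (nat_lit 7))
    (@En.n l33406 (nat_lit 11842) (nat_lit 5) (nat_lit 4))
    (@En.n l5649 (nat_lit 10324) (nat_lit 0) (nat_lit 13))
    (@En.n l50 (nat_lit 9090) (nat_lit 1) (nat_lit 5))
    (@En.i (nat_lit 10183) (nat_lit 8) (nat_lit 6))
    (@En.n l3 (nat_lit 10287) (nat_lit 10) (nat_lit 12))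
    (@En.n l18712 (nat_lit 9205) (nat_lit 13) (nat_lit 7))
    (@En.n l8770 (nat_lit 12678) (nat_lit 14) (nat_lit 9))
    (@En.i (nat_lit 9583) (nat_lit 13) (nat_lit 11))
    (@En.i (nat_lit 10290) (nat_lit 15) (nat_lit 3))
    (@En.n l33407 (nat_lit 10965) (nat_lit 0) (nat_lit 10))
    (@En.i (nat_lit 10288) (nat_lit 15) (nat_lit 3))))
  (@Cl.mk (nat_lit 0x3000b00090007000c00070005000d000400070003000c0009000d00090004) (nat_lit 0x360200300035820) (nat_lit 16) Lb.e (@T16.mk En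
    (@En.n l41608 (nat_lit 9279) (nat_lit 0) (nat_lit 4))
    (@En.i (nat_lit 9050) (nat_lit 0) (nat_lit 9))
    (@En.n l39110 (nat_lit 4203) (nat_lit 1) (nat_lit 13))
    (@En.n l41609 (nat_lit 11982) (nat_lit 14) (nat_lit 9))
    (@En.n l24426 (nat_lit 10564) (nat_lit 13) (nat_lit 12))
    (@En.n l33404 (nat_lit 10292) (nat_lit 5) (nat_lit 3))
    (@En.n l41610 (nat_lit 6384) (nat_lit 11) (nat_lit 7))
    (@En.n l35200 (nat_lit 11843) (nat_lit 7) (nat_lit 4))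
    (@En.n l41611 (nat_lit 10326) (nat_lit 0) (nat_lit 13))
    (@En.n l50 (nat_lit 8605) (nat_lit 1) (nat_lit 5))
    (@En.n l41612 (nat_lit 10180) (nat_lit 4) (nat_lit 7))
    (@En.n l3 (nat_lit 8336) (nat_lit 12) (nat_lit 12))
    (@En.n l5294 (nat_lit 10291) (nat_lit 6) (nat_lit 7))
    (@En.n l26244 (nat_lit 12707) (nat_lit 14) (nat_lit 9))
    (@En.n l17172 (nat_lit 9821) (nat_lit 9) (nat_lit 11))
    (@En.n l28 (nat_lit 10289) (nat_lit 13) (nat_lit 3))))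
  (@Cl.mk (nat_lit 0x3000b00090004000d000a00050003000c0007000c00060004000d0004000c) (nat_lit 0x360980030900905) (nat_lit 16) Lb.e (@T16.mk En
    (@En.n l19493 (nat_lit 10203) (nat_lit 0) (nat_lit 12))
    (@En.n l117 (nat_lit 10187) (nat_lit 8) (nat_lit 4))
    (@En.n l17393 (nat_lit 10807) (nat_lit 10) (nat_lit 13))
    (@En.n l18287 (nat_lit 8602) (nat_lit 3) (nat_lit 4))
    (@En.i (nat_lit 10183) (nat_lit 4) (nat_lit 6))
    (@En.n l38420 (nat_lit 8339) (nat_lit 1) (nat_lit 12))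
    (@En.n l41213 (nat_lit 11818) (nat_lit 14) (nat_lit 7))
    (@En.n l5649 (nat_lit 10582) (nat_lit 8) (nat_lit 12))
    (@En.n l39236 (nat_lit 9205) (nat_lit 15) (nat_lit 3))
    (@En.i (nat_lit 8588) (nat_lit 0) (nat_lit 5))
    (@En.n l33357 (nat_lit 9986) (nat_lit 11) (nat_lit 10))
    (@En.n l18287 (nat_lit 10437) (nat_lit 2) (nat_lit 13))
    (@En.n l12503 (nat_lit 8336) (nat_lit 3) (nat_lit 4))
    (@En.n l18287 (nat_lit 10296) (nat_lit 14) (nat_lit 9))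
    (@En.i (nat_lit 10571) (nat_lit 1) (nat_lit 11))
    (@En.i (nat_lit 10293) (nat_lit 15) (nat_lit 3))))
  (@Cl.mk (nat_lit 0x3000b000a0007000b00070005000d000600050003000c0009000d00090004) (nat_lit 0x7506002000a5820) (nat_lit 16) Lb.e (@T16.mk En
    (@En.n l22216 (nat_lit 9281) (nat_lit 0) (nat_lit 4))
    (@En.i (nat_lit 9049) (nat_lit 0) (nat_lit 9))
    (@En.i (nat_lit 7113) (nat_lit 1) (nat_lit 13))
    (@En.i (nat_lit 11983) (nat_lit 14) (nat_lit 9))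
    (@En.i (nat_lit 9423) (nat_lit 3) (nat_lit 12))
    (@En.n l11469 (nat_lit 10290) (nat_lit 5) (nat_lit 3))
    (@En.n l11401 (nat_lit 8152) (nat_lit 0) (nat_lit 5))
    (@En.n l14256 (nat_lit 9966) (nat_lit 7) (nat_lit 6))
    (@En.n l11434 (nat_lit 10538) (nat_lit 9) (nat_lit 13))
    (@En.n l1003 (nat_lit 8702) (nat_lit 9) (nat_lit 5))
    (@En.n l403 (nat_lit 10181) (nat_lit 4) (nat_lit 7))
    (@En.n l1003 (nat_lit 8330) (nat_lit 12) (nat_lit 11))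
    (@En.n l21492 (nat_lit 10293) (nat_lit 6) (nat_lit 7))
    (@En.n l11403 (nat_lit 12410) (nat_lit 6) (nat_lit 10))
    (@En.n l18984 (nat_lit 9818) (nat_lit 9) (nat_lit 11))
    (@En.n l18 (nat_lit 8703) (nat_lit 13) (nat_lit 3))))
  (@Cl.mk (nat_lit 0x3000b00090005000d000a00050003000c0007000b00060004000d000b0005) (nat_lit 0x960280030100930) (nat_lit 16) Lb.e (@T16.mk En
    (@En.n l20559 (nat_lit 8747) (nat_lit 0) (nat_lit 5))
    (@En.n l15675 (nat_lit 10178) (nat_lit 9) (nat_lit 11))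
    (@En.n l17394 (nat_lit 10809) (nat_lit 10) (nat_lit 13))
    (@En.n l18287 (nat_lit 9138) (nat_lit 3) (nat_lit 4))
    (@En.n l34530 (nat_lit 10184) (nat_lit 4) (nat_lit 6))
    (@En.n l15675 (nat_lit 4327) (nat_lit 8) (nat_lit 11))
    (@En.n l35842 (nat_lit 11820) (nat_lit 14) (nat_lit 7))
    (@En.n l35843 (nat_lit 10581) (nat_lit 8) (nat_lit 12))
    (@En.n l35844 (nat_lit 10294) (nat_lit 15) (nat_lit 3))
    (@En.i (nat_lit 8587) (nat_lit 0) (nat_lit 5))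
    (@En.n l25923 (nat_lit 9985) (nat_lit 11) (nat_lit 10))
    (@En.n l20559 (nat_lit 10438) (nat_lit 2) (nat_lit 13))
    (@En.n l35845 (nat_lit 8331) (nat_lit 3) (nat_lit 5))
    (@En.n l19509 (nat_lit 10295) (nat_lit 14) (nat_lit 9))
    (@En.n l12220 (nat_lit 9693) (nat_lit 11) (nat_lit 11))
    (@En.n l11 (nat_lit 10291) (nat_lit 15) (nat_lit 3))))
  (@Cl.mk (nat_lit 0x3000c0007000b00050004000d000b00050003000c00090005000d0004000b) (nat_lit 0x20100a500870309) (nat_lit 16) Lb.e (@T16.mk En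
    (@En.i (nat_lit 11156) (nat_lit 0) (nat_lit 11))
    (@En.n l9824 (nat_lit 9173) (nat_lit 10) (nat_lit 4))
    (@En.n l3928 (nat_lit 10484) (nat_lit 2) (nat_lit 13))
    (@En.n l32538 (nat_lit 8482) (nat_lit 1) (nat_lit 5))
    (@En.n l9824 (nat_lit 11849) (nat_lit 14) (nat_lit 9))
    (@En.n l781 (nat_lit 10089) (nat_lit 3) (nat_lit 12))
    (@En.n l43030 (nat_lit 9205) (nat_lit 6) (nat_lit 3))
    (@En.n l3928 (nat_lit 8748) (nat_lit 0) (nat_lit 5))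
    (@En.i (nat_lit 10176) (nat_lit 9) (nat_lit 11))
    (@En.n l5788 (nat_lit 10811) (nat_lit 10) (nat_lit 13))
    (@En.n l50 (nat_lit 4332) (nat_lit 12) (nat_lit 4))
    (@En.n l43031 (nat_lit 9201) (nat_lit 4) (nat_lit 5))
    (@En.i (nat_lit 4329) (nat_lit 8) (nat_lit 11))
    (@En.n l3480 (nat_lit 11819) (nat_lit 14) (nat_lit 7))
    (@En.n l2125 (nat_lit 8129) (nat_lit 8) (nat_lit 12))
    (@En.n l9824 (nat_lit 10293) (nat_lit 8) (nat_lit 3))))
  (@Cl.mk (nat_lit 0x300090004000d0009000c0003000b00070004000b00070005000d000c0005) (nat_lit 0x507420600600240) (nat_lit 16) Lb.e (@T16.mk En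
    (@En.n l10408 (nat_lit 9339) (nat_lit 0) (nat_lit 5))
    (@En.n l19401 (nat_lit 10297) (nat_lit 8) (nat_lit 12))
    (@En.n l19402 (nat_lit 12018) (nat_lit 9) (nat_lit 13))
    (@En.n l15535 (nat_lit 8873) (nat_lit 3) (nat_lit 5))
    (@En.n l19403 (nat_lit 10299) (nat_lit 4) (nat_lit 7))
    (@En.n l19404 (nat_lit 10154) (nat_lit 12) (nat_lit 11))
    (@En.n l19405 (nat_lit 10286) (nat_lit 6) (nat_lit 4))
    (@En.n l61 (nat_lit 12413) (nat_lit 14) (nat_lit 7))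
    (@En.n l19406 (nat_lit 10315) (nat_lit 9) (nat_lit 11))
    (@En.n l19407 (nat_lit 11849) (nat_lit 9) (nat_lit 3))
    (@En.n l19405 (nat_lit 8638) (nat_lit 6) (nat_lit 12))
    (@En.i (nat_lit 12689) (nat_lit 12) (nat_lit 9))
    (@En.n l1867 (nat_lit 10490) (nat_lit 2) (nat_lit 13))
    (@En.n l19408 (nat_lit 9290) (nat_lit 3) (nat_lit 4))
    (@En.n l3057 (nat_lit 12055) (nat_lit 4) (nat_lit 9))
    (@En.n l19409 (nat_lit 10296) (nat_lit 15) (nat_lit 3))))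
  (@Cl.mk (nat_lit 0x300090003000d0009000c0003000b00070004000c00070005000d0004000d) (nat_lit 0x507520300600301) (nat_lit 16) Lb.e (@T16.mk En
    (@En.n l2711 (nat_lit 1605) (nat_lit 0) (nat_lit 13))
    (@En.n l345 (nat_lit 10185) (nat_lit 7) (nat_lit 4))
    (@En.n l32862 (nat_lit 12017) (nat_lit 9) (nat_lit 13))
    (@En.i (nat_lit 8872) (nat_lit 3) (nat_lit 5))
    (@En.n l18752 (nat_lit 10298) (nat_lit 4) (nat_lit 7))
    (@En.n l23945 (nat_lit 10846) (nat_lit 12) (nat_lit 12))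
    (@En.n l18153 (nat_lit 10287) (nat_lit 6) (nat_lit 4))
    (@En.n l18156 (nat_lit 12406) (nat_lit 14) (nat_lit 7))
    (@En.n l10393 (nat_lit 10317) (nat_lit 11) (nat_lit 11))
    (@En.n l34054 (nat_lit 11847) (nat_lit 9) (nat_lit 3))
    (@En.n l18153 (nat_lit 8636) (nat_lit 6) (nat_lit 12))
    (@En.i (nat_lit 12690) (nat_lit 14) (nat_lit 9))
    (@En.i (nat_lit 10492) (nat_lit 2) (nat_lit 13))
    (@En.i (nat_lit 10297) (nat_lit 3) (nat_lit 3))
    (@En.n l7646 (nat_lit 10908) (nat_lit 0) (nat_lit 9))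
    (@En.n l11547 (nat_lit 10295) (nat_lit 15) (nat_lit 3))))
  (@Cl.mk (nat_lit 0x3000b00080004000c00070005000c0004000d000800040003000d0009000c) (nat_lit 0x360600307300762) (nat_lit 16) Lb.e (@T16.mk En
    (@En.n l18153 (nat_lit 8637) (nat_lit 6) (nat_lit 12))
    (@En.n l18161 (nat_lit 5861) (nat_lit 14) (nat_lit 9))
    (@En.n l23942 (nat_lit 11994) (nat_lit 2) (nat_lit 13))
    (@En.n l50 (nat_lit 10296) (nat_lit 13) (nat_lit 3))
    (@En.n l4542 (nat_lit 9287) (nat_lit 0) (nat_lit 4))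
    (@En.i (nat_lit 11982) (nat_lit 0) (nat_lit 8))
    (@En.n l11423 (nat_lit 4199) (nat_lit 1) (nat_lit 13))
    (@En.n l9821 (nat_lit 10183) (nat_lit 7) (nat_lit 4))
    (@En.n l23943 (nat_lit 12011) (nat_lit 9) (nat_lit 12))
    (@En.i (nat_lit 8874) (nat_lit 9) (nat_lit 5))
    (@En.n l23944 (nat_lit 12036) (nat_lit 6) (nat_lit 7))
    (@En.n l23945 (nat_lit 10847) (nat_lit 12) (nat_lit 12))
    (@En.n l18153 (nat_lit 8336) (nat_lit 8) (nat_lit 4))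
    (@En.n l3536 (nat_lit 12037) (nat_lit 14) (nat_lit 8))
    (@En.n l10393 (nat_lit 10316) (nat_lit 11) (nat_lit 11))
    (@En.n l23946 (nat_lit 11848) (nat_lit 15) (nat_lit 3))))
  (@Cl.mk (nat_lit 0x300080003000c00090007000c0004000c0008000400070004000d0009000d) (nat_lit 0x505603070000852) (nat_lit 16) Lb.e (@T16.mk En
    (@En.n l2038 (nat_lit 4198) (nat_lit 0) (nat_lit 13))
    (@En.i (nat_lit 10705) (nat_lit 3) (nat_lit 9))
    (@En.n l18269 (nat_lit 12019) (nat_lit 2) (nat_lit 13))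
    (@En.n l5801 (nat_lit 12456) (nat_lit 3) (nat_lit 4))
    (@En.n l8229 (nat_lit 12068) (nat_lit 11) (nat_lit 7))
    (@En.n l18270 (nat_lit 10289) (nat_lit 5) (nat_lit 4))
    (@En.n l61 (nat_lit 12428) (nat_lit 0) (nat_lit 8))
    (@En.n l10687 (nat_lit 10321) (nat_lit 1) (nat_lit 12))
    (@En.n l18271 (nat_lit 11851) (nat_lit 8) (nat_lit 4))
    (@En.n l5801 (nat_lit 10296) (nat_lit 10) (nat_lit 12))
    (@En.i (nat_lit 9200) (nat_lit 1) (nat_lit 7))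
    (@En.n l10685 (nat_lit 12675) (nat_lit 12) (nat_lit 9))
    (@En.n l18272 (nat_lit 11954) (nat_lit 13) (nat_lit 12))
    (@En.n l16433 (nat_lit 12036) (nat_lit 15) (nat_lit 3))
    (@En.i (nat_lit 10907) (nat_lit 0) (nat_lit 8))
    (@En.n l8238 (nat_lit 10299) (nat_lit 15) (nat_lit 3))))
  (@Cl.mk (nat_lit 0x300080004000c00090006000c0004000c0008000400070004000d000c000a) (nat_lit 0x404503070000786) (nat_lit 16) Lb.e (@T16.mk En
    (@En.n l5747 (nat_lit 11291) (nat_lit 0) (nat_lit 10))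
    (@En.n l18439 (nat_lit 12036) (nat_lit 4) (nat_lit 12))
    (@En.n l30946 (nat_lit 12021) (nat_lit 2) (nat_lit 13))
    (@En.n l34065 (nat_lit 12457) (nat_lit 3) (nat_lit 4))
    (@En.n l4634 (nat_lit 12069) (nat_lit 11) (nat_lit 7))
    (@En.n l34066 (nat_lit 10288) (nat_lit 5) (nat_lit 4))
    (@En.n l8772 (nat_lit 11825) (nat_lit 0) (nat_lit 8))
    (@En.i (nat_lit 10318) (nat_lit 1) (nat_lit 12))
    (@En.n l34067 (nat_lit 11810) (nat_lit 8) (nat_lit 4))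
    (@En.n l34068 (nat_lit 10295) (nat_lit 10) (nat_lit 12))
    (@En.n l3523 (nat_lit 9203) (nat_lit 1) (nat_lit 6))
    (@En.n l23359 (nat_lit 12688) (nat_lit 12) (nat_lit 9))
    (@En.n l34069 (nat_lit 11953) (nat_lit 13) (nat_lit 12))
    (@En.n l34070 (nat_lit 9289) (nat_lit 14) (nat_lit 4))
    (@En.i (nat_lit 11867) (nat_lit 0) (nat_lit 8))
    (@En.n l2830 (nat_lit 10298) (nat_lit 15) (nat_lit 3))))
  (@Cl.mk (nat_lit 0x30008000c000b000800060004000c00050008000c00040008000d0004000a) (nat_lit 0x527200803a06701) (nat_lit 16) Lb.e (@T16.mk En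
    (@En.n l32297 (nat_lit 4441) (nat_lit 0) (nat_lit 10))
    (@En.i (nat_lit 10302) (nat_lit 15) (nat_lit 4))
    (@En.i (nat_lit 10890) (nat_lit 0) (nat_lit 13))
    (@En.n l17678 (nat_lit 12476) (nat_lit 11) (nat_lit 8))
    (@En.n l32298 (nat_lit 10398) (nat_lit 4) (nat_lit 4))
    (@En.n l22332 (nat_lit 9394) (nat_lit 0) (nat_lit 12))
    (@En.n l22329 (nat_lit 10245) (nat_lit 10) (nat_lit 8))
    (@En.i (nat_lit 5186) (nat_lit 7) (nat_lit 5))
    (@En.n l32299 (nat_lit 9953) (nat_lit 9) (nat_lit 12))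
    (@En.n l19198 (nat_lit 9791) (nat_lit 9) (nat_lit 4))
    (@En.n l17 (nat_lit 7638) (nat_lit 0) (nat_lit 6))
    (@En.n l22332 (nat_lit 6851) (nat_lit 12) (nat_lit 8))
    (@En.n l22188 (nat_lit 9962) (nat_lit 13) (nat_lit 11))
    (@En.i (nat_lit 10175) (nat_lit 7) (nat_lit 12))
    (@En.n l32300 (nat_lit 7300) (nat_lit 12) (nat_lit 8))
    (@En.n l8047 (nat_lit 10301) (nat_lit 15) (nat_lit 3))))
  (@Cl.mk (nat_lit 0x30008000c000b000800070004000c00050008000b00040008000d00090005) (nat_lit 0x638200a03306720) (nat_lit 16) Lb.e (@T16.mk En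
    (@En.n l133 (nat_lit 7838) (nat_lit 0) (nat_lit 5))
    (@En.n l9448 (nat_lit 9494) (nat_lit 13) (nat_lit 9))
    (@En.n l9448 (nat_lit 10887) (nat_lit 2) (nat_lit 13))
    (@En.n l9182 (nat_lit 12478) (nat_lit 11) (nat_lit 8))
    (@En.n l34695 (nat_lit 10397) (nat_lit 4) (nat_lit 4))
    (@En.i (nat_lit 9390) (nat_lit 7) (nat_lit 11))
    (@En.n l133 (nat_lit 10246) (nat_lit 10) (nat_lit 8))
    (@En.n l10416 (nat_lit 5189) (nat_lit 7) (nat_lit 5))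
    (@En.n l9479 (nat_lit 9954) (nat_lit 9) (nat_lit 12))
    (@En.n l34696 (nat_lit 9790) (nat_lit 9) (nat_lit 4))
    (@En.n l2605 (nat_lit 7619) (nat_lit 9) (nat_lit 7))
    (@En.n l1501 (nat_lit 6848) (nat_lit 12) (nat_lit 8))
    (@En.n l644 (nat_lit 9963) (nat_lit 5) (nat_lit 11))
    (@En.n l9448 (nat_lit 10172) (nat_lit 7) (nat_lit 12))
    (@En.n l34697 (nat_lit 10302) (nat_lit 12) (nat_lit 8))
    (@En.n l21682 (nat_lit 10300) (nat_lit 15) (nat_lit 3))))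
  (@Cl.mk (nat_lit 0x4000a00050008000c000b000700060004000b00050008000c000b00050009) (nat_lit 0x20527000404a407) (nat_lit 16) Lb.e (@T16.mk En
    (@En.n l32434 (nat_lit 12477) (nat_lit 10) (nat_lit 9))
    (@En.n l30839 (nat_lit 10922) (nat_lit 1) (nat_lit 5))
    (@En.n l35011 (nat_lit 10301) (nat_lit 5) (nat_lit 11))
    (@En.n l22332 (nat_lit 9179) (nat_lit 7) (nat_lit 12))
    (@En.n l35012 (nat_lit 10249) (nat_lit 10) (nat_lit 8))
    (@En.n l31502 (nat_lit 5460) (nat_lit 5) (nat_lit 5))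
    (@En.n l35013 (nat_lit 9956) (nat_lit 0) (nat_lit 11))
    (@En.n l19198 (nat_lit 9789) (nat_lit 1) (nat_lit 4))
    (@En.n l35014 (nat_lit 8243) (nat_lit 10) (nat_lit 6))
    (@En.n l22332 (nat_lit 6846) (nat_lit 1) (nat_lit 7))
    (@En.n l35015 (nat_lit 10303) (nat_lit 5) (nat_lit 11))
    (@En.i (nat_lit 10182) (nat_lit 7) (nat_lit 12))
    (@En.n l35014 (nat_lit 10609) (nat_lit 10) (nat_lit 8))
    (@En.n l35016 (nat_lit 7841) (nat_lit 5) (nat_lit 5))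
    (@En.n l35017 (nat_lit 9491) (nat_lit 0) (nat_lit 10))
    (@En.i (nat_lit 10305) (nat_lit 1) (nat_lit 4))))
  (@Cl.mk (nat_lit 0x30008000c000b0006000a0004000b00050008000b00060005000d000a0005) (nat_lit 0x592080205600940) (nat_lit 16) Lb.e (@T16.mk En
    (@En.n l29681 (nat_lit 7822) (nat_lit 0) (nat_lit 5))
    (@En.n l29694 (nat_lit 9955) (nat_lit 0) (nat_lit 10))
    (@En.n l5931 (nat_lit 4305) (nat_lit 2) (nat_lit 13))
    (@En.n l42947 (nat_lit 8242) (nat_lit 11) (nat_lit 5))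
    (@En.n l29693 (nat_lit 10133) (nat_lit 4) (nat_lit 6))
    (@En.n l1643 (nat_lit 12719) (nat_lit 7) (nat_lit 11))
    (@En.n l23054 (nat_lit 10608) (nat_lit 10) (nat_lit 8))
    (@En.n l42948 (nat_lit 7840) (nat_lit 7) (nat_lit 5))
    (@En.n l5933 (nat_lit 9489) (nat_lit 9) (nat_lit 11))
    (@En.n l29685 (nat_lit 10306) (nat_lit 9) (nat_lit 4))
    (@En.i (nat_lit 10325) (nat_lit 9) (nat_lit 10))
    (@En.n l19133 (nat_lit 10923) (nat_lit 1) (nat_lit 6))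
    (@En.n l42949 (nat_lit 9963) (nat_lit 13) (nat_lit 11))
    (@En.n l17270 (nat_lit 9198) (nat_lit 7) (nat_lit 12))
    (@En.n l29685 (nat_lit 10302) (nat_lit 4) (nat_lit 8))
    (@En.n l29687 (nat_lit 10304) (nat_lit 15) (nat_lit 3))))
noncomputable def a644 : T16 Cl := @T16.mk Cl
  (@Cl.mk (nat_lit 0x30008000c000b0005000a0004000b00050008000c00060005000d0004000b) (nat_lit 0x592080903200806) (nat_lit 16) Lb.e (@T16.mk En
    (@En.i (nat_lit 11223) (nat_lit 0) (nat_lit 11))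
    (@En.n l10969 (nat_lit 10302) (nat_lit 7) (nat_lit 4))
    (@En.n l39674 (nat_lit 4304) (nat_lit 2) (nat_lit 13))
    (@En.n l16210 (nat_lit 7625) (nat_lit 11) (nat_lit 5))
    (@En.n l20731 (nat_lit 9793) (nat_lit 4) (nat_lit 6))
    (@En.n l2038 (nat_lit 9171) (nat_lit 7) (nat_lit 12))
    (@En.n l16210 (nat_lit 10610) (nat_lit 10) (nat_lit 8))
    (@En.n l17134 (nat_lit 7843) (nat_lit 7) (nat_lit 5))
    (@En.n l39675 (nat_lit 9490) (nat_lit 9) (nat_lit 11))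
    (@En.i (nat_lit 10307) (nat_lit 9) (nat_lit 4))
    (@En.n l39676 (nat_lit 10539) (nat_lit 11) (nat_lit 10))
    (@En.n l32046 (nat_lit 11714) (nat_lit 1) (nat_lit 5))
    (@En.n l868 (nat_lit 9961) (nat_lit 13) (nat_lit 11))
    (@En.n l5255 (nat_lit 9196) (nat_lit 7) (nat_lit 12))
    (@En.i (nat_lit 8715) (nat_lit 12) (nat_lit 8))
    (@En.n l32434 (nat_lit 10303) (nat_lit 15) (nat_lit 3))))
  (@Cl.mk (nat_lit 0x40008000c000b000900060004000a00050008000c0007000c00060004000a) (nat_lit 0x482500705304003) (nat_lit 16) Lb.e (@T16.mk En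
    (@En.n l39098 (nat_lit 8832) (nat_lit 0) (nat_lit 10))
    (@En.n l50 (nat_lit 10300) (nat_lit 1) (nat_lit 4))
    (@En.n l38899 (nat_lit 10920) (nat_lit 0) (nat_lit 6))
    (@En.i (nat_lit 10897) (nat_lit 1) (nat_lit 12))
    (@En.n l36212 (nat_lit 11478) (nat_lit 4) (nat_lit 7))
    (@En.n l42957 (nat_lit 9173) (nat_lit 7) (nat_lit 12))
    (@En.n l42958 (nat_lit 10254) (nat_lit 10) (nat_lit 8))
    (@En.n l42959 (nat_lit 1311) (nat_lit 7) (nat_lit 5))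
    (@En.n l41542 (nat_lit 11086) (nat_lit 0) (nat_lit 10))
    (@En.n l9824 (nat_lit 10636) (nat_lit 9) (nat_lit 4))
    (@En.n l38899 (nat_lit 7635) (nat_lit 0) (nat_lit 6))
    (@En.n l42960 (nat_lit 10084) (nat_lit 1) (nat_lit 9))
    (@En.n l22188 (nat_lit 10306) (nat_lit 5) (nat_lit 11))
    (@En.i (nat_lit 10178) (nat_lit 7) (nat_lit 12))
    (@En.n l23331 (nat_lit 10440) (nat_lit 11) (nat_lit 8))
    (@En.n l23768 (nat_lit 10308) (nat_lit 15) (nat_lit 4))))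
  (@Cl.mk (nat_lit 0x30008000c0008000c00070004000b00040008000b00080005000d00090005) (nat_lit 0x643500204140250) (nat_lit 16) Lb.e (@T16.mk En
    (@En.n l39095 (nat_lit 5471) (nat_lit 0) (nat_lit 5))
    (@En.i (nat_lit 11090) (nat_lit 0) (nat_lit 9))
    (@En.n l3928 (nat_lit 10439) (nat_lit 2) (nat_lit 13))
    (@En.n l31131 (nat_lit 7636) (nat_lit 3) (nat_lit 5))
    (@En.n l39081 (nat_lit 11994) (nat_lit 4) (nat_lit 8))
    (@En.n l39096 (nat_lit 9278) (nat_lit 7) (nat_lit 11))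
    (@En.n l39097 (nat_lit 9557) (nat_lit 11) (nat_lit 8))
    (@En.n l3819 (nat_lit 10309) (nat_lit 7) (nat_lit 4))
    (@En.n l39098 (nat_lit 9544) (nat_lit 0) (nat_lit 11))
    (@En.n l50 (nat_lit 9962) (nat_lit 1) (nat_lit 4))
    (@En.n l39099 (nat_lit 10921) (nat_lit 0) (nat_lit 7))
    (@En.i (nat_lit 10257) (nat_lit 7) (nat_lit 12))
    (@En.n l39081 (nat_lit 11477) (nat_lit 13) (nat_lit 8))
    (@En.n l39100 (nat_lit 10293) (nat_lit 7) (nat_lit 12))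
    (@En.i (nat_lit 10305) (nat_lit 6) (nat_lit 8))
    (@En.n l28 (nat_lit 10307) (nat_lit 15) (nat_lit 3))))
  (@Cl.mk (nat_lit 0x30008000c0008000c00060004000b00040008000c00080005000d0004000a) (nat_lit 0x530300204140302) (nat_lit 16) Lb.e (@T16.mk En
    (@En.i (nat_lit 11089) (nat_lit 0) (nat_lit 10))
    (@En.n l10969 (nat_lit 10305) (nat_lit 9) (nat_lit 4))
    (@En.n l3819 (nat_lit 10486) (nat_lit 0) (nat_lit 13))
    (@En.n l31131 (nat_lit 7637) (nat_lit 3) (nat_lit 5))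
    (@En.n l16940 (nat_lit 11995) (nat_lit 4) (nat_lit 8))
    (@En.n l2038 (nat_lit 8336) (nat_lit 7) (nat_lit 12))
    (@En.n l41416 (nat_lit 9555) (nat_lit 11) (nat_lit 8))
    (@En.n l3819 (nat_lit 10708) (nat_lit 7) (nat_lit 4))
    (@En.n l7145 (nat_lit 9542) (nat_lit 0) (nat_lit 11))
    (@En.n l50 (nat_lit 9960) (nat_lit 9) (nat_lit 4))
    (@En.n l41416 (nat_lit 11715) (nat_lit 0) (nat_lit 6))
    (@En.i (nat_lit 10256) (nat_lit 7) (nat_lit 12))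
    (@En.n l43271 (nat_lit 11414) (nat_lit 13) (nat_lit 8))
    (@En.n l476 (nat_lit 10294) (nat_lit 14) (nat_lit 12))
    (@En.i (nat_lit 10255) (nat_lit 12) (nat_lit 8))
    (@En.i (nat_lit 10306) (nat_lit 15) (nat_lit 3))))
  (@Cl.mk (nat_lit 0x40008000c000b000900080004000900050008000b0007000c000800070005) (nat_lit 0x262510604104100) (nat_lit 16) Lb.e (@T16.mk En
    (@En.n l1003 (nat_lit 10301) (nat_lit 0) (nat_lit 5))
    (@En.n l13196 (nat_lit 12475) (nat_lit 9) (nat_lit 7))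
    (@En.n l39954 (nat_lit 9023) (nat_lit 1) (nat_lit 8))
    (@En.i (nat_lit 8715) (nat_lit 2) (nat_lit 12))
    (@En.n l16215 (nat_lit 9850) (nat_lit 4) (nat_lit 7))
    (@En.i (nat_lit 8751) (nat_lit 7) (nat_lit 11))
    (@En.n l13196 (nat_lit 10206) (nat_lit 10) (nat_lit 8))
    (@En.n l39955 (nat_lit 5473) (nat_lit 7) (nat_lit 5))
    (@En.n l39956 (nat_lit 11610) (nat_lit 0) (nat_lit 9))
    (@En.i (nat_lit 10711) (nat_lit 1) (nat_lit 4))
    (@En.n l39957 (nat_lit 8247) (nat_lit 0) (nat_lit 8))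
    (@En.n l39958 (nat_lit 10404) (nat_lit 1) (nat_lit 9))
    (@En.n l217 (nat_lit 10309) (nat_lit 5) (nat_lit 11))
    (@En.n l29769 (nat_lit 10180) (nat_lit 7) (nat_lit 12))
    (@En.n l39959 (nat_lit 10310) (nat_lit 11) (nat_lit 8))
    (@En.n l39957 (nat_lit 10312) (nat_lit 12) (nat_lit 4))))
  (@Cl.mk (nat_lit 0x30008000b0008000c00090008000500040008000b00080007000d00080005) (nat_lit 0x510510003140650) (nat_lit 16) Lb.e (@T16.mk En
    (@En.n l37959 (nat_lit 5495) (nat_lit 0) (nat_lit 5))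
    (@En.i (nat_lit 11609) (nat_lit 0) (nat_lit 8))
    (@En.i (nat_lit 10376) (nat_lit 2) (nat_lit 13))
    (@En.n l43607 (nat_lit 8248) (nat_lit 3) (nat_lit 7))
    (@En.n l35385 (nat_lit 10409) (nat_lit 4) (nat_lit 8))
    (@En.n l37962 (nat_lit 9288) (nat_lit 7) (nat_lit 11))
    (@En.n l43608 (nat_lit 10311) (nat_lit 6) (nat_lit 8))
    (@En.n l38071 (nat_lit 10313) (nat_lit 7) (nat_lit 4))
    (@En.n l1003 (nat_lit 9963) (nat_lit 8) (nat_lit 5))
    (@En.n l9877 (nat_lit 10320) (nat_lit 8) (nat_lit 8))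
    (@En.n l38072 (nat_lit 9019) (nat_lit 11) (nat_lit 9))
    (@En.i (nat_lit 10250) (nat_lit 12) (nat_lit 12))
    (@En.n l33018 (nat_lit 11757) (nat_lit 13) (nat_lit 8))
    (@En.i (nat_lit 8747) (nat_lit 7) (nat_lit 11))
    (@En.n l22690 (nat_lit 10308) (nat_lit 6) (nat_lit 8))
    (@En.n l18 (nat_lit 10708) (nat_lit 15) (nat_lit 3))))
  (@Cl.mk (nat_lit 0x30009000800050008000c000b000800070004000800050008000d000b0008) (nat_lit 0x100152000004326) (nat_lit 16) Lb.e (@T16.mk En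
    (@En.n l32535 (nat_lit 11280) (nat_lit 0) (nat_lit 8))
    (@En.n l37912 (nat_lit 10308) (nat_lit 5) (nat_lit 11))
    (@En.n l13889 (nat_lit 10396) (nat_lit 2) (nat_lit 13))
    (@En.n l1723 (nat_lit 10205) (nat_lit 10) (nat_lit 8))
    (@En.n l5992 (nat_lit 5476) (nat_lit 4) (nat_lit 5))
    (@En.n l22466 (nat_lit 12216) (nat_lit 5) (nat_lit 8))
    (@En.n l37913 (nat_lit 10709) (nat_lit 6) (nat_lit 4))
    (@En.n l37914 (nat_lit 8245) (nat_lit 0) (nat_lit 7))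
    (@En.n l37915 (nat_lit 10402) (nat_lit 1) (nat_lit 8))
    (@En.n l37338 (nat_lit 10311) (nat_lit 5) (nat_lit 11))
    (@En.n l28758 (nat_lit 10184) (nat_lit 11) (nat_lit 12))
    (@En.n l37916 (nat_lit 4582) (nat_lit 10) (nat_lit 8))
    (@En.n l19283 (nat_lit 10302) (nat_lit 13) (nat_lit 5))
    (@En.n l3488 (nat_lit 12474) (nat_lit 8) (nat_lit 8))
    (@En.i (nat_lit 9024) (nat_lit 1) (nat_lit 9))
    (@En.n l152 (nat_lit 10312) (nat_lit 15) (nat_lit 3))))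
  (@Cl.mk (nat_lit 0x30008000d000b00090003000a000900050008000b00070006000d00070005) (nat_lit 0x542707002100400) (nat_lit 16) Lb.e (@T16.mk En
    (@En.n l5934 (nat_lit 5474) (nat_lit 0) (nat_lit 5))
    (@En.n l39668 (nat_lit 12218) (nat_lit 6) (nat_lit 7))
    (@En.n l39669 (nat_lit 10395) (nat_lit 8) (nat_lit 13))
    (@En.n l14973 (nat_lit 8244) (nat_lit 3) (nat_lit 6))
    (@En.n l20813 (nat_lit 10408) (nat_lit 4) (nat_lit 7))
    (@En.n l1643 (nat_lit 9291) (nat_lit 7) (nat_lit 11))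
    (@En.n l28104 (nat_lit 4584) (nat_lit 10) (nat_lit 8))
    (@En.n l50 (nat_lit 10303) (nat_lit 7) (nat_lit 5))
    (@En.n l2579 (nat_lit 10318) (nat_lit 7) (nat_lit 9))
    (@En.n l5933 (nat_lit 9021) (nat_lit 10) (nat_lit 10))
    (@En.n l21051 (nat_lit 10313) (nat_lit 10) (nat_lit 3))
    (@En.i (nat_lit 11281) (nat_lit 0) (nat_lit 9))
    (@En.n l39670 (nat_lit 10309) (nat_lit 13) (nat_lit 11))
    (@En.n l619 (nat_lit 10414) (nat_lit 2) (nat_lit 13))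
    (@En.n l35280 (nat_lit 10310) (nat_lit 3) (nat_lit 8))
    (@En.n l39671 (nat_lit 10707) (nat_lit 15) (nat_lit 3))))
  (@Cl.mk (nat_lit 0x30009000800040008000c000b000900070004000800050008000d0007000c) (nat_lit 0x100282700304304) (nat_lit 16) Lb.e (@T16.mk En
    (@En.n l30753 (nat_lit 10249) (nat_lit 0) (nat_lit 12))
    (@En.n l37925 (nat_lit 10523) (nat_lit 4) (nat_lit 7))
    (@En.n l3593 (nat_lit 10412) (nat_lit 2) (nat_lit 13))
    (@En.n l1723 (nat_lit 10204) (nat_lit 10) (nat_lit 8))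
    (@En.n l43604 (nat_lit 5472) (nat_lit 4) (nat_lit 5))
    (@En.n l2869 (nat_lit 12215) (nat_lit 5) (nat_lit 8))
    (@En.n l26601 (nat_lit 10710) (nat_lit 6) (nat_lit 4))
    (@En.i (nat_lit 8250) (nat_lit 0) (nat_lit 7))
    (@En.n l2125 (nat_lit 10693) (nat_lit 1) (nat_lit 9))
    (@En.n l29397 (nat_lit 10313) (nat_lit 5) (nat_lit 11))
    (@En.n l21205 (nat_lit 10183) (nat_lit 11) (nat_lit 12))
    (@En.n l15890 (nat_lit 4580) (nat_lit 11) (nat_lit 8))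
    (@En.n l30753 (nat_lit 10305) (nat_lit 15) (nat_lit 4))
    (@En.n l2125 (nat_lit 12473) (nat_lit 8) (nat_lit 8))
    (@En.n l152 (nat_lit 8833) (nat_lit 1) (nat_lit 9))
    (@En.n l117 (nat_lit 10310) (nat_lit 15) (nat_lit 3))))
  (@Cl.mk (nat_lit 0x30008000d0008000c0003000a000900040008000b00080006000d00070005) (nat_lit 0x540502701160400) (nat_lit 16) Lb.e (@T16.mk En
    (@En.n l17638 (nat_lit 5478) (nat_lit 0) (nat_lit 5))
    (@En.n l7 (nat_lit 12217) (nat_lit 6) (nat_lit 7))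
    (@En.n l7074 (nat_lit 10427) (nat_lit 8) (nat_lit 13))
    (@En.n l10972 (nat_lit 8251) (nat_lit 3) (nat_lit 6))
    (@En.i (nat_lit 10698) (nat_lit 4) (nat_lit 8))
    (@En.n l10972 (nat_lit 9287) (nat_lit 7) (nat_lit 11))
    (@En.n l1769 (nat_lit 3658) (nat_lit 11) (nat_lit 8))
    (@En.n l23642 (nat_lit 10306) (nat_lit 7) (nat_lit 4))
    (@En.n l644 (nat_lit 10321) (nat_lit 7) (nat_lit 9))
    (@En.n l1140 (nat_lit 8841) (nat_lit 1) (nat_lit 10))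
    (@En.n l24992 (nat_lit 10311) (nat_lit 10) (nat_lit 3))
    (@En.n l3066 (nat_lit 10246) (nat_lit 0) (nat_lit 12))
    (@En.n l3866 (nat_lit 10520) (nat_lit 13) (nat_lit 8))
    (@En.n l17555 (nat_lit 10413) (nat_lit 2) (nat_lit 13))
    (@En.n l38863 (nat_lit 10312) (nat_lit 3) (nat_lit 8))
    (@En.n l18261 (nat_lit 10706) (nat_lit 15) (nat_lit 3))))
  (@Cl.mk (nat_lit 0x300070003000b00060009000d000c00050003000900040007000d000a000d) (nat_lit 0x303b500600864) (nat_lit 16) Lb.e (@T16.mk En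
    (@En.i (nat_lit 6320) (nat_lit 0) (nat_lit 13))
    (@En.i (nat_lit 10315) (nat_lit 11) (nat_lit 10))
    (@En.n l591 (nat_lit 10295) (nat_lit 12) (nat_lit 13))
    (@En.n l7029 (nat_lit 7214) (nat_lit 11) (nat_lit 7))
    (@En.n l4073 (nat_lit 7855) (nat_lit 4) (nat_lit 4))
    (@En.n l287 (nat_lit 10505) (nat_lit 0) (nat_lit 9))
    (@En.n l11 (nat_lit 8618) (nat_lit 6) (nat_lit 3))
    (@En.n l12412 (nat_lit 7953) (nat_lit 0) (nat_lit 5))
    (@En.n l55 (nat_lit 8619) (nat_lit 4) (nat_lit 12))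
    (@En.n l1329 (nat_lit 9767) (nat_lit 10) (nat_lit 13))
    (@En.n l4750 (nat_lit 4282) (nat_lit 9) (nat_lit 9))
    (@En.n l3651 (nat_lit 12474) (nat_lit 14) (nat_lit 6))
    (@En.i (nat_lit 10600) (nat_lit 13) (nat_lit 11))
    (@En.n l1063 (nat_lit 8617) (nat_lit 6) (nat_lit 3))
    (@En.i (nat_lit 10978) (nat_lit 0) (nat_lit 7))
    (@En.n l2843 (nat_lit 8614) (nat_lit 15) (nat_lit 3))))
  (@Cl.mk (nat_lit 0x3000a00040007000a000d000b00060003000a000600050009000d000c0006) (nat_lit 0x700535003004b30) (nat_lit 16) Lb.e (@T16.mk En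
    (@En.n l10833 (nat_lit 7954) (nat_lit 0) (nat_lit 6))
    (@En.n l55 (nat_lit 10316) (nat_lit 4) (nat_lit 12))
    (@En.n l1330 (nat_lit 9084) (nat_lit 6) (nat_lit 13))
    (@En.n l50 (nat_lit 10314) (nat_lit 10) (nat_lit 9))
    (@En.n l1330 (nat_lit 8614) (nat_lit 11) (nat_lit 5))
    (@En.n l35207 (nat_lit 10318) (nat_lit 14) (nat_lit 6))
    (@En.n l35208 (nat_lit 10597) (nat_lit 1) (nat_lit 10))
    (@En.n l35209 (nat_lit 10319) (nat_lit 15) (nat_lit 3))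
    (@En.n l10436 (nat_lit 10977) (nat_lit 0) (nat_lit 6))
    (@En.n l35210 (nat_lit 7905) (nat_lit 10) (nat_lit 11))
    (@En.n l1708 (nat_lit 8448) (nat_lit 5) (nat_lit 13))
    (@En.n l35211 (nat_lit 12693) (nat_lit 8) (nat_lit 10))
    (@En.n l35212 (nat_lit 7215) (nat_lit 11) (nat_lit 7))
    (@En.n l4073 (nat_lit 7851) (nat_lit 5) (nat_lit 4))
    (@En.n l287 (nat_lit 10507) (nat_lit 0) (nat_lit 10))
    (@En.n l11 (nat_lit 10317) (nat_lit 1) (nat_lit 3))))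
  (@Cl.mk (nat_lit 0x30007000a000d000b00070003000b000600050009000c0005000d00090004) (nat_lit 0x54200300420160) (nat_lit 16) Lb.e (@T16.mk En
    (@En.n l170 (nat_lit 7852) (nat_lit 0) (nat_lit 4))
    (@En.i (nat_lit 10504) (nat_lit 0) (nat_lit 9))
    (@En.n l24850 (nat_lit 5518) (nat_lit 1) (nat_lit 13))
    (@En.n l5235 (nat_lit 9546) (nat_lit 3) (nat_lit 5))
    (@En.n l1330 (nat_lit 9082) (nat_lit 6) (nat_lit 12))
    (@En.n l50 (nat_lit 8619) (nat_lit 5) (nat_lit 9))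
    (@En.n l1330 (nat_lit 8612) (nat_lit 6) (nat_lit 5))
    (@En.n l20482 (nat_lit 10320) (nat_lit 14) (nat_lit 6))
    (@En.n l24851 (nat_lit 10596) (nat_lit 9) (nat_lit 11))
    (@En.n l24852 (nat_lit 10322) (nat_lit 9) (nat_lit 3))
    (@En.n l10436 (nat_lit 11603) (nat_lit 0) (nat_lit 7))
    (@En.n l24853 (nat_lit 8623) (nat_lit 12) (nat_lit 11))
    (@En.n l1708 (nat_lit 8451) (nat_lit 5) (nat_lit 13))
    (@En.n l10436 (nat_lit 12709) (nat_lit 8) (nat_lit 10))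
    (@En.n l343 (nat_lit 10315) (nat_lit 12) (nat_lit 7))
    (@En.n l28 (nat_lit 10317) (nat_lit 15) (nat_lit 3))))
  (@Cl.mk (nat_lit 0x30007000a000d000b00060003000b000600050009000d0005000d0003000a) (nat_lit 0x5a2008004b0207) (nat_lit 16) Lb.e (@T16.mk En
    (@En.n l2571 (nat_lit 11492) (nat_lit 0) (nat_lit 10))
    (@En.i (nat_lit 10315) (nat_lit 15) (nat_lit 3))
    (@En.n l1782 (nat_lit 5519) (nat_lit 0) (nat_lit 13))
    (@En.n l117 (nat_lit 9547) (nat_lit 3) (nat_lit 5))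
    (@En.n l1330 (nat_lit 9083) (nat_lit 6) (nat_lit 13))
    (@En.n l50 (nat_lit 8618) (nat_lit 10) (nat_lit 9))
    (@En.n l1330 (nat_lit 8613) (nat_lit 11) (nat_lit 5))
    (@En.n l33386 (nat_lit 10321) (nat_lit 14) (nat_lit 6))
    (@En.i (nat_lit 10595) (nat_lit 9) (nat_lit 11))
    (@En.n l24852 (nat_lit 10323) (nat_lit 9) (nat_lit 3))
    (@En.i (nat_lit 10981) (nat_lit 0) (nat_lit 6))
    (@En.n l24853 (nat_lit 8622) (nat_lit 12) (nat_lit 11))
    (@En.n l1708 (nat_lit 8445) (nat_lit 5) (nat_lit 13))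
    (@En.n l33386 (nat_lit 12669) (nat_lit 8) (nat_lit 10))
    (@En.n l33386 (nat_lit 4347) (nat_lit 12) (nat_lit 7))
    (@En.i (nat_lit 10316) (nat_lit 15) (nat_lit 3))))
  (@Cl.mk (nat_lit 0x3000600040009000d000c000a0003000900040007000a0006000d000c0007) (nat_lit 0x3336070050460) (nat_lit 16) Lb.e (@T16.mk En
    (@En.n l97 (nat_lit 10979) (nat_lit 0) (nat_lit 7))
    (@En.n l3866 (nat_lit 10539) (nat_lit 4) (nat_lit 12))
    (@En.n l19384 (nat_lit 10315) (nat_lit 10) (nat_lit 13))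
    (@En.n l4172 (nat_lit 10806) (nat_lit 3) (nat_lit 6))
    (@En.n l226 (nat_lit 12673) (nat_lit 8) (nat_lit 10))
    (@En.n l5592 (nat_lit 7289) (nat_lit 11) (nat_lit 7))
    (@En.n l14035 (nat_lit 7860) (nat_lit 6) (nat_lit 4))
    (@En.i (nat_lit 11864) (nat_lit 0) (nat_lit 9))
    (@En.n l18065 (nat_lit 10321) (nat_lit 8) (nat_lit 3))
    (@En.i (nat_lit 11201) (nat_lit 0) (nat_lit 10))
    (@En.n l3039 (nat_lit 10320) (nat_lit 11) (nat_lit 12))
    (@En.n l134 (nat_lit 9092) (nat_lit 12) (nat_lit 13))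
    (@En.n l899 (nat_lit 12474) (nat_lit 13) (nat_lit 9))
    (@En.n l4172 (nat_lit 12461) (nat_lit 4) (nat_lit 4))
    (@En.n l1897 (nat_lit 12479) (nat_lit 12) (nat_lit 6))
    (@En.n l1865 (nat_lit 10325) (nat_lit 15) (nat_lit 3))))
  (@Cl.mk (nat_lit 0x3000a000600040009000d000c00060003000b00040007000a000d0005000c) (nat_lit 0x500544001005403) (nat_lit 16) Lb.e (@T16.mk En
    (@En.n l12583 (nat_lit 890) (nat_lit 0) (nat_lit 12))
    (@En.n l35265 (nat_lit 10581) (nat_lit 9) (nat_lit 5))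
    (@En.n l27759 (nat_lit 8447) (nat_lit 5) (nat_lit 13))
    (@En.n l7604 (nat_lit 12713) (nat_lit 8) (nat_lit 10))
    (@En.n l9530 (nat_lit 7213) (nat_lit 11) (nat_lit 7))
    (@En.n l20981 (nat_lit 7747) (nat_lit 5) (nat_lit 4))
    (@En.n l19713 (nat_lit 8776) (nat_lit 0) (nat_lit 11))
    (@En.n l10862 (nat_lit 10323) (nat_lit 1) (nat_lit 3))
    (@En.n l35266 (nat_lit 7951) (nat_lit 0) (nat_lit 6))
    (@En.n l22188 (nat_lit 10322) (nat_lit 4) (nat_lit 12))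
    (@En.n l3530 (nat_lit 9094) (nat_lit 6) (nat_lit 13))
    (@En.n l35267 (nat_lit 8617) (nat_lit 3) (nat_lit 9))
    (@En.n l22705 (nat_lit 8608) (nat_lit 4) (nat_lit 4))
    (@En.n l29865 (nat_lit 10325) (nat_lit 14) (nat_lit 6))
    (@En.n l35266 (nat_lit 10303) (nat_lit 1) (nat_lit 10))
    (@En.n l35268 (nat_lit 10315) (nat_lit 7) (nat_lit 3))))
noncomputable def a645 : T16 Cl := @T16.mk Cl
  (@Cl.mk (nat_lit 0x3000600040009000c0009000d0008000400030007000a0007000d000c0008) (nat_lit 0x3251600060576) (nat_lit 16) Lb.e (@T16.mk En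
    (@En.n l97 (nat_lit 11607) (nat_lit 0) (nat_lit 8))
    (@En.n l1236 (nat_lit 10538) (nat_lit 11) (nat_lit 12))
    (@En.n l39582 (nat_lit 10316) (nat_lit 12) (nat_lit 13))
    (@En.n l21642 (nat_lit 10808) (nat_lit 13) (nat_lit 7))
    (@En.n l2129 (nat_lit 12674) (nat_lit 8) (nat_lit 10))
    (@En.n l11512 (nat_lit 10318) (nat_lit 5) (nat_lit 7))
    (@En.n l39583 (nat_lit 10321) (nat_lit 6) (nat_lit 3))
    (@En.n l28 (nat_lit 7853) (nat_lit 0) (nat_lit 4))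
    (@En.n l8898 (nat_lit 11865) (nat_lit 0) (nat_lit 8))
    (@En.i (nat_lit 3926) (nat_lit 1) (nat_lit 13))
    (@En.n l601 (nat_lit 11762) (nat_lit 3) (nat_lit 9))
    (@En.i (nat_lit 8660) (nat_lit 6) (nat_lit 12))
    (@En.n l899 (nat_lit 12475) (nat_lit 13) (nat_lit 9))
    (@En.n l345 (nat_lit 12462) (nat_lit 6) (nat_lit 4))
    (@En.i (nat_lit 12074) (nat_lit 12) (nat_lit 6))
    (@En.n l1790 (nat_lit 10326) (nat_lit 15) (nat_lit 3))))
  (@Cl.mk (nat_lit 0x3000600040009000d0009000d0003000900030007000a0007000d000c0007) (nat_lit 0x3362060060b60) (nat_lit 16) Lb.e (@T16.mk En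
    (@En.n l10584 (nat_lit 10982) (nat_lit 0) (nat_lit 7))
    (@En.n l217 (nat_lit 10327) (nat_lit 11) (nat_lit 12))
    (@En.n l33394 (nat_lit 10317) (nat_lit 12) (nat_lit 13))
    (@En.i (nat_lit 10812) (nat_lit 13) (nat_lit 7))
    (@En.i (nat_lit 12668) (nat_lit 8) (nat_lit 10))
    (@En.n l13924 (nat_lit 7285) (nat_lit 12) (nat_lit 7))
    (@En.n l33395 (nat_lit 10320) (nat_lit 6) (nat_lit 3))
    (@En.n l1867 (nat_lit 11494) (nat_lit 0) (nat_lit 9))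
    (@En.n l33396 (nat_lit 10318) (nat_lit 8) (nat_lit 3))
    (@En.n l33395 (nat_lit 5526) (nat_lit 0) (nat_lit 13))
    (@En.n l3866 (nat_lit 11767) (nat_lit 3) (nat_lit 9))
    (@En.n l7160 (nat_lit 9086) (nat_lit 12) (nat_lit 13))
    (@En.n l17664 (nat_lit 12473) (nat_lit 13) (nat_lit 9))
    (@En.n l7160 (nat_lit 12463) (nat_lit 6) (nat_lit 4))
    (@En.n l33397 (nat_lit 12075) (nat_lit 12) (nat_lit 6))
    (@En.n l50 (nat_lit 10324) (nat_lit 15) (nat_lit 3))))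
  (@Cl.mk (nat_lit 0x30007000a000d0006000c0003000b000600040009000c0005000d000a0004) (nat_lit 0x55010500330110) (nat_lit 16) Lb.e (@T16.mk En
    (@En.n l11283 (nat_lit 7850) (nat_lit 0) (nat_lit 4))
    (@En.i (nat_lit 8775) (nat_lit 0) (nat_lit 10))
    (@En.n l29968 (nat_lit 3917) (nat_lit 1) (nat_lit 13))
    (@En.n l1236 (nat_lit 9543) (nat_lit 3) (nat_lit 5))
    (@En.n l17555 (nat_lit 8661) (nat_lit 6) (nat_lit 12))
    (@En.n l9858 (nat_lit 8615) (nat_lit 5) (nat_lit 9))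
    (@En.n l15535 (nat_lit 8609) (nat_lit 6) (nat_lit 4))
    (@En.n l7157 (nat_lit 10326) (nat_lit 14) (nat_lit 6))
    (@En.n l33182 (nat_lit 9963) (nat_lit 1) (nat_lit 11))
    (@En.n l10584 (nat_lit 10316) (nat_lit 9) (nat_lit 3))
    (@En.n l29968 (nat_lit 2321) (nat_lit 0) (nat_lit 12))
    (@En.n l20977 (nat_lit 10580) (nat_lit 4) (nat_lit 6))
    (@En.n l1899 (nat_lit 8452) (nat_lit 5) (nat_lit 13))
    (@En.n l1412 (nat_lit 12710) (nat_lit 8) (nat_lit 10))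
    (@En.i (nat_lit 10319) (nat_lit 4) (nat_lit 7))
    (@En.n l28 (nat_lit 10323) (nat_lit 15) (nat_lit 3))))
  (@Cl.mk (nat_lit 0x30007000a000d0005000c0003000b000600040009000d0005000d0003000b) (nat_lit 0x59010800340201) (nat_lit 16) Lb.e (@T16.mk En
    (@En.i (nat_lit 8561) (nat_lit 0) (nat_lit 11))
    (@En.n l10969 (nat_lit 10319) (nat_lit 7) (nat_lit 3))
    (@En.n l4659 (nat_lit 3924) (nat_lit 0) (nat_lit 13))
    (@En.n l23295 (nat_lit 9541) (nat_lit 3) (nat_lit 5))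
    (@En.n l17555 (nat_lit 9085) (nat_lit 6) (nat_lit 13))
    (@En.n l9858 (nat_lit 8616) (nat_lit 5) (nat_lit 9))
    (@En.n l15535 (nat_lit 8607) (nat_lit 6) (nat_lit 4))
    (@En.i (nat_lit 10324) (nat_lit 14) (nat_lit 6))
    (@En.n l9644 (nat_lit 9962) (nat_lit 9) (nat_lit 11))
    (@En.n l10584 (nat_lit 10317) (nat_lit 9) (nat_lit 3))
    (@En.n l17556 (nat_lit 2322) (nat_lit 0) (nat_lit 12))
    (@En.i (nat_lit 10582) (nat_lit 9) (nat_lit 5))
    (@En.n l1899 (nat_lit 8446) (nat_lit 5) (nat_lit 13))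
    (@En.i (nat_lit 12672) (nat_lit 8) (nat_lit 10))
    (@En.i (nat_lit 7216) (nat_lit 12) (nat_lit 7))
    (@En.i (nat_lit 10322) (nat_lit 15) (nat_lit 3))))
  (@Cl.mk (nat_lit 0x3000600030009000d0009000d0003000a00030007000a0007000d0006000d) (nat_lit 0x6768070060a01) (nat_lit 16) Lb.e (@T16.mk En
    (@En.i (nat_lit 2325) (nat_lit 0) (nat_lit 13))
    (@En.i (nat_lit 10313) (nat_lit 3) (nat_lit 6))
    (@En.n l1770 (nat_lit 10323) (nat_lit 12) (nat_lit 13))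
    (@En.i (nat_lit 10810) (nat_lit 13) (nat_lit 7))
    (@En.i (nat_lit 12670) (nat_lit 8) (nat_lit 10))
    (@En.n l1769 (nat_lit 7290) (nat_lit 12) (nat_lit 7))
    (@En.n l7157 (nat_lit 10326) (nat_lit 6) (nat_lit 3))
    (@En.n l1867 (nat_lit 11496) (nat_lit 0) (nat_lit 10))
    (@En.n l24992 (nat_lit 10325) (nat_lit 8) (nat_lit 3))
    (@En.n l3062 (nat_lit 3923) (nat_lit 0) (nat_lit 13))
    (@En.n l3866 (nat_lit 10547) (nat_lit 3) (nat_lit 9))
    (@En.n l17555 (nat_lit 9089) (nat_lit 12) (nat_lit 13))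
    (@En.i (nat_lit 12476) (nat_lit 13) (nat_lit 9))
    (@En.i (nat_lit 10327) (nat_lit 6) (nat_lit 3))
    (@En.i (nat_lit 7826) (nat_lit 12) (nat_lit 6))
    (@En.i (nat_lit 10321) (nat_lit 15) (nat_lit 3))))
  (@Cl.mk (nat_lit 0x3000600030009000d000c000a0003000a00040007000a0006000d0006000d) (nat_lit 0x67a7010050502) (nat_lit 16) Lb.e (@T16.mk En
    (@En.n l5931 (nat_lit 2324) (nat_lit 0) (nat_lit 13))
    (@En.i (nat_lit 10311) (nat_lit 3) (nat_lit 6))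
    (@En.n l23613 (nat_lit 10319) (nat_lit 2) (nat_lit 13))
    (@En.n l20813 (nat_lit 10805) (nat_lit 5) (nat_lit 6))
    (@En.n l1643 (nat_lit 12677) (nat_lit 8) (nat_lit 10))
    (@En.n l23054 (nat_lit 7217) (nat_lit 11) (nat_lit 7))
    (@En.n l615 (nat_lit 7845) (nat_lit 6) (nat_lit 4))
    (@En.n l5933 (nat_lit 8781) (nat_lit 0) (nat_lit 10))
    (@En.n l21051 (nat_lit 10324) (nat_lit 8) (nat_lit 3))
    (@En.i (nat_lit 11205) (nat_lit 0) (nat_lit 10))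
    (@En.n l1643 (nat_lit 10326) (nat_lit 11) (nat_lit 12))
    (@En.n l619 (nat_lit 9093) (nat_lit 12) (nat_lit 13))
    (@En.i (nat_lit 12477) (nat_lit 13) (nat_lit 9))
    (@En.n l3291 (nat_lit 10539) (nat_lit 15) (nat_lit 3))
    (@En.i (nat_lit 7824) (nat_lit 12) (nat_lit 6))
    (@En.n l2869 (nat_lit 10318) (nat_lit 15) (nat_lit 3))))
  (@Cl.mk (nat_lit 0x3000600030009000c0009000d0009000400030007000a0007000d0007000d) (nat_lit 0x6962100060602) (nat_lit 16) Lb.e (@T16.mk En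
    (@En.n l5390 (nat_lit 2323) (nat_lit 0) (nat_lit 13))
    (@En.n l20048 (nat_lit 10309) (nat_lit 3) (nat_lit 7))
    (@En.n l15323 (nat_lit 10322) (nat_lit 12) (nat_lit 13))
    (@En.n l14812 (nat_lit 10807) (nat_lit 13) (nat_lit 7))
    (@En.i (nat_lit 12676) (nat_lit 8) (nat_lit 10))
    (@En.n l730 (nat_lit 10325) (nat_lit 5) (nat_lit 7))
    (@En.n l17701 (nat_lit 10324) (nat_lit 6) (nat_lit 3))
    (@En.n l1106 (nat_lit 7846) (nat_lit 0) (nat_lit 4))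
    (@En.n l14436 (nat_lit 8777) (nat_lit 0) (nat_lit 9))
    (@En.n l5390 (nat_lit 3920) (nat_lit 1) (nat_lit 13))
    (@En.i (nat_lit 10548) (nat_lit 3) (nat_lit 9))
    (@En.n l1106 (nat_lit 8659) (nat_lit 6) (nat_lit 12))
    (@En.n l25977 (nat_lit 12478) (nat_lit 13) (nat_lit 9))
    (@En.n l36713 (nat_lit 10538) (nat_lit 6) (nat_lit 3))
    (@En.i (nat_lit 7825) (nat_lit 12) (nat_lit 6))
    (@En.n l5389 (nat_lit 10320) (nat_lit 15) (nat_lit 3))))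
  (@Cl.mk (nat_lit 0x30007000b0007000c0006000d0005000400030009000d0009000d0003000a) (nat_lit 0x60501000676807) (nat_lit 16) Lb.e (@T16.mk En
    (@En.n l1867 (nat_lit 11497) (nat_lit 0) (nat_lit 10))
    (@En.n l41373 (nat_lit 10539) (nat_lit 10) (nat_lit 3))
    (@En.n l41374 (nat_lit 7108) (nat_lit 0) (nat_lit 13))
    (@En.n l3866 (nat_lit 10540) (nat_lit 3) (nat_lit 9))
    (@En.n l18261 (nat_lit 8699) (nat_lit 6) (nat_lit 13))
    (@En.n l41361 (nat_lit 12131) (nat_lit 5) (nat_lit 9))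
    (@En.n l18 (nat_lit 10324) (nat_lit 13) (nat_lit 3))
    (@En.n l41375 (nat_lit 12125) (nat_lit 0) (nat_lit 4))
    (@En.n l61 (nat_lit 12476) (nat_lit 0) (nat_lit 5))
    (@En.n l33224 (nat_lit 2326) (nat_lit 1) (nat_lit 13))
    (@En.n l18261 (nat_lit 10706) (nat_lit 3) (nat_lit 6))
    (@En.n l14469 (nat_lit 8607) (nat_lit 12) (nat_lit 12))
    (@En.i (nat_lit 10811) (nat_lit 13) (nat_lit 7))
    (@En.n l17634 (nat_lit 12403) (nat_lit 12) (nat_lit 11))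
    (@En.n l1769 (nat_lit 7202) (nat_lit 12) (nat_lit 7))
    (@En.n l14457 (nat_lit 10538) (nat_lit 15) (nat_lit 3))))
  (@Cl.mk (nat_lit 0x2000b000800040008000c0005000c000b00040008000400080005000e000c) (nat_lit 0x93038013030304a) (nat_lit 16) Lb.e (@T16.mk En
    (@En.n l396 (nat_lit 10158) (nat_lit 3) (nat_lit 12))
    (@En.n l2125 (nat_lit 5470) (nat_lit 1) (nat_lit 14))
    (@En.n l23547 (nat_lit 9213) (nat_lit 2) (nat_lit 5))
    (@En.n l14270 (nat_lit 9145) (nat_lit 3) (nat_lit 8))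
    (@En.n l3535 (nat_lit 10333) (nat_lit 4) (nat_lit 4))
    (@En.n l152 (nat_lit 8864) (nat_lit 5) (nat_lit 8))
    (@En.n l936 (nat_lit 9160) (nat_lit 6) (nat_lit 4))
    (@En.n l55 (nat_lit 10330) (nat_lit 8) (nat_lit 11))
    (@En.n l9836 (nat_lit 7672) (nat_lit 9) (nat_lit 12))
    (@En.n l19001 (nat_lit 11568) (nat_lit 9) (nat_lit 5))
    (@En.n l3593 (nat_lit 9159) (nat_lit 11) (nat_lit 12))
    (@En.i (nat_lit 7427) (nat_lit 12) (nat_lit 8))
    (@En.n l3593 (nat_lit 10157) (nat_lit 13) (nat_lit 4))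
    (@En.i (nat_lit 7076) (nat_lit 14) (nat_lit 8))
    (@En.i (nat_lit 10600) (nat_lit 1) (nat_lit 11))
    (@En.n l50 (nat_lit 10328) (nat_lit 15) (nat_lit 2))))
  (@Cl.mk (nat_lit 0x2000b000900040008000d0005000c00030007000d000400080003000e000c) (nat_lit 0x820220a005010ca) (nat_lit 16) Lb.e (@T16.mk En
    (@En.n l396 (nat_lit 8814) (nat_lit 9) (nat_lit 12))
    (@En.n l2125 (nat_lit 5479) (nat_lit 1) (nat_lit 14))
    (@En.i (nat_lit 10330) (nat_lit 2) (nat_lit 3))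
    (@En.n l10089 (nat_lit 5316) (nat_lit 3) (nat_lit 8))
    (@En.i (nat_lit 10328) (nat_lit 4) (nat_lit 4))
    (@En.n l2125 (nat_lit 4435) (nat_lit 6) (nat_lit 13))
    (@En.n l152 (nat_lit 8862) (nat_lit 6) (nat_lit 7))
    (@En.n l117 (nat_lit 10331) (nat_lit 7) (nat_lit 3))
    (@En.n l10357 (nat_lit 7671) (nat_lit 9) (nat_lit 12))
    (@En.n l19001 (nat_lit 11566) (nat_lit 9) (nat_lit 5))
    (@En.n l3593 (nat_lit 10233) (nat_lit 11) (nat_lit 13))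
    (@En.i (nat_lit 7418) (nat_lit 12) (nat_lit 8))
    (@En.n l3593 (nat_lit 10822) (nat_lit 4) (nat_lit 4))
    (@En.i (nat_lit 5411) (nat_lit 14) (nat_lit 9))
    (@En.i (nat_lit 10599) (nat_lit 1) (nat_lit 11))
    (@En.n l50 (nat_lit 10329) (nat_lit 15) (nat_lit 2))))
  (@Cl.mk (nat_lit 0x2000b000900040009000d0005000b00030007000d000700050003000e000c) (nat_lit 0x83064020010002a) (nat_lit 16) Lb.e (@T16.mk En
    (@En.n l396 (nat_lit 10268) (nat_lit 9) (nat_lit 12))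
    (@En.n l7877 (nat_lit 7673) (nat_lit 1) (nat_lit 14))
    (@En.n l28 (nat_lit 10329) (nat_lit 2) (nat_lit 3))
    (@En.n l170 (nat_lit 12776) (nat_lit 3) (nat_lit 5))
    (@En.i (nat_lit 10204) (nat_lit 4) (nat_lit 7))
    (@En.n l2125 (nat_lit 3582) (nat_lit 6) (nat_lit 13))
    (@En.n l152 (nat_lit 8860) (nat_lit 6) (nat_lit 7))
    (@En.n l345 (nat_lit 10332) (nat_lit 7) (nat_lit 3))
    (@En.n l170 (nat_lit 7670) (nat_lit 9) (nat_lit 11))
    (@En.n l345 (nat_lit 11563) (nat_lit 9) (nat_lit 5))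
    (@En.n l4037 (nat_lit 10235) (nat_lit 11) (nat_lit 13))
    (@En.i (nat_lit 7428) (nat_lit 12) (nat_lit 9))
    (@En.n l3593 (nat_lit 10827) (nat_lit 4) (nat_lit 4))
    (@En.i (nat_lit 5408) (nat_lit 14) (nat_lit 9))
    (@En.n l9911 (nat_lit 10598) (nat_lit 1) (nat_lit 11))
    (@En.n l50 (nat_lit 10330) (nat_lit 15) (nat_lit 2))))
  (@Cl.mk (nat_lit 0x2000a000900040008000d000b000600030007000d000500080003000e000c) (nat_lit 0x230222000201057) (nat_lit 16) Lb.e (@T16.mk En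
    (@En.n l396 (nat_lit 10266) (nat_lit 9) (nat_lit 12))
    (@En.i (nat_lit 5475) (nat_lit 1) (nat_lit 14))
    (@En.n l1236 (nat_lit 10332) (nat_lit 2) (nat_lit 3))
    (@En.n l1867 (nat_lit 5318) (nat_lit 10) (nat_lit 8))
    (@En.i (nat_lit 9161) (nat_lit 4) (nat_lit 5))
    (@En.n l3530 (nat_lit 4436) (nat_lit 6) (nat_lit 13))
    (@En.i (nat_lit 11711) (nat_lit 6) (nat_lit 7))
    (@En.n l152 (nat_lit 10329) (nat_lit 7) (nat_lit 3))
    (@En.n l3866 (nat_lit 11189) (nat_lit 0) (nat_lit 6))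
    (@En.n l22465 (nat_lit 10333) (nat_lit 10) (nat_lit 11))
    (@En.n l13889 (nat_lit 10232) (nat_lit 11) (nat_lit 13))
    (@En.i (nat_lit 7419) (nat_lit 12) (nat_lit 8))
    (@En.n l13889 (nat_lit 10817) (nat_lit 4) (nat_lit 4))
    (@En.n l1867 (nat_lit 5410) (nat_lit 14) (nat_lit 9))
    (@En.i (nat_lit 10028) (nat_lit 1) (nat_lit 10))
    (@En.n l50 (nat_lit 10331) (nat_lit 15) (nat_lit 2))))
  (@Cl.mk (nat_lit 0x2000a000900040009000d000a000600030007000d000700060003000e000c) (nat_lit 0x23063400010005a) (nat_lit 16) Lb.e (@T16.mk En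
    (@En.n l28625 (nat_lit 10267) (nat_lit 9) (nat_lit 12))
    (@En.n l10577 (nat_lit 7676) (nat_lit 1) (nat_lit 14))
    (@En.n l9876 (nat_lit 10331) (nat_lit 2) (nat_lit 3))
    (@En.n l21422 (nat_lit 12807) (nat_lit 3) (nat_lit 6))
    (@En.n l9877 (nat_lit 10205) (nat_lit 4) (nat_lit 7))
    (@En.n l22467 (nat_lit 891) (nat_lit 6) (nat_lit 13))
    (@En.n l9877 (nat_lit 11708) (nat_lit 6) (nat_lit 7))
    (@En.n l25864 (nat_lit 10330) (nat_lit 7) (nat_lit 3))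
    (@En.i (nat_lit 11191) (nat_lit 0) (nat_lit 6))
    (@En.n l61 (nat_lit 10334) (nat_lit 10) (nat_lit 10))
    (@En.n l21428 (nat_lit 10234) (nat_lit 11) (nat_lit 13))
    (@En.i (nat_lit 8733) (nat_lit 12) (nat_lit 9))
    (@En.n l28626 (nat_lit 10828) (nat_lit 4) (nat_lit 4))
    (@En.n l28627 (nat_lit 5403) (nat_lit 14) (nat_lit 9))
    (@En.n l13562 (nat_lit 10563) (nat_lit 12) (nat_lit 10))
    (@En.n l28 (nat_lit 10332) (nat_lit 15) (nat_lit 2))))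
  (@Cl.mk (nat_lit 0x2000b000a00040008000b0005000c0006000c0005000400080004000e000c) (nat_lit 0x220210702002068) (nat_lit 16) Lb.e (@T16.mk En
    (@En.n l134 (nat_lit 10269) (nat_lit 3) (nat_lit 12))
    (@En.n l13633 (nat_lit 5491) (nat_lit 1) (nat_lit 14))
    (@En.n l117 (nat_lit 10334) (nat_lit 2) (nat_lit 4))
    (@En.n l18910 (nat_lit 10331) (nat_lit 3) (nat_lit 8))
    (@En.n l3480 (nat_lit 10329) (nat_lit 4) (nat_lit 4))
    (@En.n l2642 (nat_lit 9162) (nat_lit 5) (nat_lit 5))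
    (@En.n l13633 (nat_lit 4434) (nat_lit 7) (nat_lit 12))
    (@En.n l31875 (nat_lit 11712) (nat_lit 7) (nat_lit 6))
    (@En.n l31876 (nat_lit 7674) (nat_lit 9) (nat_lit 12))
    (@En.i (nat_lit 8560) (nat_lit 9) (nat_lit 5))
    (@En.n l1081 (nat_lit 7369) (nat_lit 7) (nat_lit 11))
    (@En.i (nat_lit 7421) (nat_lit 12) (nat_lit 8))
    (@En.n l17961 (nat_lit 10815) (nat_lit 13) (nat_lit 4))
    (@En.n l3480 (nat_lit 5624) (nat_lit 14) (nat_lit 10))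
    (@En.i (nat_lit 10027) (nat_lit 1) (nat_lit 11))
    (@En.n l28 (nat_lit 10333) (nat_lit 15) (nat_lit 2))))
  (@Cl.mk (nat_lit 0x2000b000a0004000a000a0005000b0006000c0006000600050004000e000c) (nat_lit 0x230630802000096) (nat_lit 16) Lb.e (@T16.mk En
    (@En.n l649 (nat_lit 10337) (nat_lit 3) (nat_lit 12))
    (@En.i (nat_lit 11223) (nat_lit 1) (nat_lit 14))
    (@En.n l1003 (nat_lit 10335) (nat_lit 2) (nat_lit 4))
    (@En.n l7899 (nat_lit 10330) (nat_lit 3) (nat_lit 5))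
    (@En.n l16211 (nat_lit 12506) (nat_lit 10) (nat_lit 6))
    (@En.n l29773 (nat_lit 10206) (nat_lit 5) (nat_lit 6))
    (@En.n l13196 (nat_lit 3581) (nat_lit 7) (nat_lit 12))
    (@En.n l9875 (nat_lit 12279) (nat_lit 7) (nat_lit 6))
    (@En.n l16214 (nat_lit 7476) (nat_lit 9) (nat_lit 11))
    (@En.i (nat_lit 11157) (nat_lit 9) (nat_lit 5))
    (@En.n l11401 (nat_lit 10340) (nat_lit 6) (nat_lit 10))
    (@En.i (nat_lit 8751) (nat_lit 12) (nat_lit 10))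
    (@En.n l29774 (nat_lit 12059) (nat_lit 13) (nat_lit 4))
    (@En.n l16217 (nat_lit 5640) (nat_lit 14) (nat_lit 10))
    (@En.n l16214 (nat_lit 10558) (nat_lit 1) (nat_lit 11))
    (@En.n l28 (nat_lit 10334) (nat_lit 15) (nat_lit 2))))
  (@Cl.mk (nat_lit 0x2000b000a0004000900090005000d0006000c0003000700070004000e000c) (nat_lit 0x610330502000097) (nat_lit 16) Lb.e (@T16.mk En
    (@En.i (nat_lit 10338) (nat_lit 11) (nat_lit 12))
    (@En.i (nat_lit 4551) (nat_lit 1) (nat_lit 14))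
    (@En.n l2125 (nat_lit 10333) (nat_lit 2) (nat_lit 4))
    (@En.n l3261 (nat_lit 12505) (nat_lit 9) (nat_lit 7))
    (@En.n l9182 (nat_lit 10332) (nat_lit 4) (nat_lit 7))
    (@En.i (nat_lit 10336) (nat_lit 5) (nat_lit 3))
    (@En.i (nat_lit 3608) (nat_lit 0) (nat_lit 12))
    (@En.n l7 (nat_lit 12274) (nat_lit 7) (nat_lit 6))
    (@En.n l18235 (nat_lit 11219) (nat_lit 9) (nat_lit 13))
    (@En.n l18236 (nat_lit 11155) (nat_lit 9) (nat_lit 5))
    (@En.n l152 (nat_lit 10339) (nat_lit 7) (nat_lit 9))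
    (@En.i (nat_lit 9390) (nat_lit 12) (nat_lit 9))
    (@En.i (nat_lit 12007) (nat_lit 6) (nat_lit 4))
    (@En.n l644 (nat_lit 3634) (nat_lit 14) (nat_lit 10))
    (@En.i (nat_lit 10560) (nat_lit 9) (nat_lit 11))
    (@En.n l11 (nat_lit 10335) (nat_lit 15) (nat_lit 2))))
noncomputable def a646 : T16 Cl := @T16.mk Cl
  (@Cl.mk (nat_lit 0x2000b00090004000900090005000d000b00070003000700070005000e000c) (nat_lit 0x110330690000091) (nat_lit 16) Lb.e (@T16.mk En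
    (@En.n l17304 (nat_lit 5311) (nat_lit 11) (nat_lit 12))
    (@En.n l10415 (nat_lit 4553) (nat_lit 1) (nat_lit 14))
    (@En.n l6080 (nat_lit 10328) (nat_lit 2) (nat_lit 5))
    (@En.n l22854 (nat_lit 12507) (nat_lit 9) (nat_lit 7))
    (@En.n l27068 (nat_lit 10203) (nat_lit 4) (nat_lit 7))
    (@En.n l18 (nat_lit 10335) (nat_lit 5) (nat_lit 3))
    (@En.n l4353 (nat_lit 4760) (nat_lit 0) (nat_lit 7))
    (@En.n l899 (nat_lit 10334) (nat_lit 8) (nat_lit 11))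
    (@En.n l27069 (nat_lit 11220) (nat_lit 9) (nat_lit 13))
    (@En.n l899 (nat_lit 11156) (nat_lit 9) (nat_lit 5))
    (@En.n l152 (nat_lit 10341) (nat_lit 7) (nat_lit 9))
    (@En.i (nat_lit 9391) (nat_lit 12) (nat_lit 9))
    (@En.n l11308 (nat_lit 12006) (nat_lit 6) (nat_lit 4))
    (@En.n l6080 (nat_lit 3995) (nat_lit 14) (nat_lit 9))
    (@En.i (nat_lit 54) (nat_lit 1) (nat_lit 11))
    (@En.n l11 (nat_lit 10336) (nat_lit 15) (nat_lit 2))))
  (@Cl.mk (nat_lit 0x40004000a000a0006000b0007000c0006000600050004000c000c000a0009) (nat_lit 0x64090200005661) (nat_lit 16) Lb.e (@T16.mk En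
    (@En.n l27642 (nat_lit 3257) (nat_lit 0) (nat_lit 9))
    (@En.n l3522 (nat_lit 10924) (nat_lit 1) (nat_lit 10))
    (@En.n l27643 (nat_lit 10271) (nat_lit 4) (nat_lit 12))
    (@En.n l27644 (nat_lit 11294) (nat_lit 3) (nat_lit 12))
    (@En.n l27645 (nat_lit 10338) (nat_lit 12) (nat_lit 4))
    (@En.n l27646 (nat_lit 10268) (nat_lit 11) (nat_lit 5))
    (@En.n l27647 (nat_lit 12499) (nat_lit 10) (nat_lit 6))
    (@En.n l27644 (nat_lit 10209) (nat_lit 7) (nat_lit 6))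
    (@En.n l27648 (nat_lit 2879) (nat_lit 8) (nat_lit 12))
    (@En.n l27649 (nat_lit 10128) (nat_lit 4) (nat_lit 7))
    (@En.n l27650 (nat_lit 6877) (nat_lit 11) (nat_lit 11))
    (@En.i (nat_lit 11158) (nat_lit 6) (nat_lit 6))
    (@En.n l5913 (nat_lit 11128) (nat_lit 6) (nat_lit 10))
    (@En.n l27651 (nat_lit 10275) (nat_lit 14) (nat_lit 10))
    (@En.n l8258 (nat_lit 10334) (nat_lit 12) (nat_lit 4))
    (@En.n l27652 (nat_lit 12062) (nat_lit 0) (nat_lit 4))))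
  (@Cl.mk (nat_lit 0x3000700070004000c000c000a000900040004000900090006000d0007000c) (nat_lit 0x665100240602) (nat_lit 16) Lb.e (@T16.mk En
    (@En.n l2795 (nat_lit 3563) (nat_lit 0) (nat_lit 12))
    (@En.n l7 (nat_lit 10096) (nat_lit 4) (nat_lit 7))
    (@En.n l9958 (nat_lit 7933) (nat_lit 2) (nat_lit 13))
    (@En.n l17298 (nat_lit 10967) (nat_lit 3) (nat_lit 6))
    (@En.n l152 (nat_lit 11127) (nat_lit 7) (nat_lit 9))
    (@En.n l117 (nat_lit 10698) (nat_lit 5) (nat_lit 9))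
    (@En.n l575 (nat_lit 10335) (nat_lit 12) (nat_lit 4))
    (@En.n l17299 (nat_lit 12018) (nat_lit 7) (nat_lit 4))
    (@En.n l11881 (nat_lit 3628) (nat_lit 0) (nat_lit 9))
    (@En.n l1578 (nat_lit 10926) (nat_lit 10) (nat_lit 10))
    (@En.n l17300 (nat_lit 11132) (nat_lit 4) (nat_lit 12))
    (@En.n l17301 (nat_lit 10349) (nat_lit 12) (nat_lit 12))
    (@En.n l17302 (nat_lit 10269) (nat_lit 4) (nat_lit 4))
    (@En.n l3261 (nat_lit 12501) (nat_lit 9) (nat_lit 7))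
    (@En.n l17303 (nat_lit 10267) (nat_lit 12) (nat_lit 7))
    (@En.n l17304 (nat_lit 5311) (nat_lit 15) (nat_lit 3))))
  (@Cl.mk (nat_lit 0x20005000e000c0002000c000b000400090004000d0005000b0003000e0007) (nat_lit 0x2a073020804080) (nat_lit 16) Lb.e (@T16.mk En
    (@En.i (nat_lit 10335) (nat_lit 4) (nat_lit 7))
    (@En.i (nat_lit 10340) (nat_lit 1) (nat_lit 14))
    (@En.i (nat_lit 10341) (nat_lit 2) (nat_lit 3))
    (@En.i (nat_lit 3612) (nat_lit 3) (nat_lit 11))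
    (@En.n l7 (nat_lit 12275) (nat_lit 4) (nat_lit 5))
    (@En.n l564 (nat_lit 11230) (nat_lit 6) (nat_lit 13))
    (@En.n l7 (nat_lit 8027) (nat_lit 6) (nat_lit 4))
    (@En.i (nat_lit 8692) (nat_lit 12) (nat_lit 9))
    (@En.i (nat_lit 10939) (nat_lit 8) (nat_lit 4))
    (@En.n l644 (nat_lit 5541) (nat_lit 10) (nat_lit 11))
    (@En.i (nat_lit 12232) (nat_lit 11) (nat_lit 12))
    (@En.n l11 (nat_lit 10339) (nat_lit 11) (nat_lit 2))
    (@En.i (nat_lit 11127) (nat_lit 13) (nat_lit 12))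
    (@En.i (nat_lit 3451) (nat_lit 1) (nat_lit 14))
    (@En.i (nat_lit 10750) (nat_lit 13) (nat_lit 5))
    (@En.n l3 (nat_lit 10339) (nat_lit 15) (nat_lit 2))))
  (@Cl.mk (nat_lit 0x200060005000e000c0002000c000b0004000a0004000a0005000b000e0006) (nat_lit 0x3a08302060270) (nat_lit 16) Lb.e (@T16.mk En
    (@En.n l5646 (nat_lit 10334) (nat_lit 5) (nat_lit 6))
    (@En.n l3858 (nat_lit 8985) (nat_lit 7) (nat_lit 14))
    (@En.n l2582 (nat_lit 3590) (nat_lit 2) (nat_lit 11))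
    (@En.n l19390 (nat_lit 12277) (nat_lit 3) (nat_lit 5))
    (@En.n l3858 (nat_lit 8186) (nat_lit 10) (nat_lit 10))
    (@En.n l7 (nat_lit 8029) (nat_lit 5) (nat_lit 4))
    (@En.i (nat_lit 8691) (nat_lit 12) (nat_lit 10))
    (@En.n l2582 (nat_lit 10943) (nat_lit 7) (nat_lit 4))
    (@En.n l644 (nat_lit 5543) (nat_lit 9) (nat_lit 11))
    (@En.i (nat_lit 12147) (nat_lit 10) (nat_lit 12))
    (@En.n l11 (nat_lit 10340) (nat_lit 10) (nat_lit 2))
    (@En.i (nat_lit 11128) (nat_lit 12) (nat_lit 12))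
    (@En.i (nat_lit 11227) (nat_lit 13) (nat_lit 14))
    (@En.n l17 (nat_lit 10339) (nat_lit 14) (nat_lit 5))
    (@En.i (nat_lit 10238) (nat_lit 3) (nat_lit 6))
    (@En.n l3 (nat_lit 10340) (nat_lit 15) (nat_lit 2))))
  (@Cl.mk (nat_lit 0x20006000e000c0002000c000a000400090004000d000a00060003000e0007) (nat_lit 0x3a071020970080) (nat_lit 16) Lb.e (@T16.mk En
    (@En.i (nat_lit 10336) (nat_lit 4) (nat_lit 7))
    (@En.i (nat_lit 8986) (nat_lit 1) (nat_lit 14))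
    (@En.n l18 (nat_lit 10339) (nat_lit 2) (nat_lit 3))
    (@En.n l4353 (nat_lit 5834) (nat_lit 3) (nat_lit 6))
    (@En.n l61 (nat_lit 10340) (nat_lit 4) (nat_lit 10))
    (@En.n l25107 (nat_lit 11228) (nat_lit 6) (nat_lit 13))
    (@En.n l7 (nat_lit 8028) (nat_lit 6) (nat_lit 4))
    (@En.i (nat_lit 8693) (nat_lit 12) (nat_lit 9))
    (@En.n l11308 (nat_lit 10937) (nat_lit 8) (nat_lit 4))
    (@En.i (nat_lit 3994) (nat_lit 10) (nat_lit 10))
    (@En.i (nat_lit 12233) (nat_lit 11) (nat_lit 12))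
    (@En.n l11 (nat_lit 10341) (nat_lit 11) (nat_lit 2))
    (@En.n l8965 (nat_lit 11126) (nat_lit 13) (nat_lit 12))
    (@En.n l2199 (nat_lit 3446) (nat_lit 1) (nat_lit 14))
    (@En.i (nat_lit 8853) (nat_lit 2) (nat_lit 6))
    (@En.n l3 (nat_lit 10341) (nat_lit 15) (nat_lit 2))))
  (@Cl.mk (nat_lit 0x20006000c0009000c0009000400080004000c0007000a00070004000e0008) (nat_lit 0x15a50609080081) (nat_lit 16) Lb.e (@T16.mk En
    (@En.n l24080 (nat_lit 60) (nat_lit 6) (nat_lit 8))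
    (@En.i (nat_lit 8992) (nat_lit 1) (nat_lit 14))
    (@En.n l18 (nat_lit 11482) (nat_lit 2) (nat_lit 4))
    (@En.n l24081 (nat_lit 4588) (nat_lit 3) (nat_lit 7))
    (@En.i (nat_lit 10341) (nat_lit 4) (nat_lit 10))
    (@En.n l5572 (nat_lit 4543) (nat_lit 5) (nat_lit 7))
    (@En.n l6840 (nat_lit 4544) (nat_lit 7) (nat_lit 12))
    (@En.n l7 (nat_lit 8562) (nat_lit 7) (nat_lit 4))
    (@En.n l4806 (nat_lit 10385) (nat_lit 9) (nat_lit 8))
    (@En.n l1547 (nat_lit 11458) (nat_lit 9) (nat_lit 4))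
    (@En.n l5911 (nat_lit 3424) (nat_lit 11) (nat_lit 9))
    (@En.n l19474 (nat_lit 12507) (nat_lit 12) (nat_lit 12))
    (@En.n l24082 (nat_lit 4542) (nat_lit 13) (nat_lit 9))
    (@En.n l19474 (nat_lit 4545) (nat_lit 14) (nat_lit 12))
    (@En.i (nat_lit 9653) (nat_lit 13) (nat_lit 6))
    (@En.n l3 (nat_lit 10342) (nat_lit 15) (nat_lit 2))))
  (@Cl.mk (nat_lit 0x20007000c0007000c000a000400080004000c0009000600090004000e0008) (nat_lit 0xa07203022030c4) (nat_lit 16) Lb.e (@T16.mk En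
    (@En.n l12332 (nat_lit 10344) (nat_lit 6) (nat_lit 8))
    (@En.n l7264 (nat_lit 9635) (nat_lit 1) (nat_lit 14))
    (@En.i (nat_lit 10342) (nat_lit 2) (nat_lit 4))
    (@En.n l10247 (nat_lit 12298) (nat_lit 9) (nat_lit 9))
    (@En.n l25103 (nat_lit 4589) (nat_lit 4) (nat_lit 6))
    (@En.n l61 (nat_lit 11485) (nat_lit 5) (nat_lit 9))
    (@En.n l25104 (nat_lit 11590) (nat_lit 7) (nat_lit 12))
    (@En.n l25105 (nat_lit 11409) (nat_lit 7) (nat_lit 4))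
    (@En.i (nat_lit 10432) (nat_lit 9) (nat_lit 8))
    (@En.n l10665 (nat_lit 10355) (nat_lit 9) (nat_lit 4))
    (@En.n l644 (nat_lit 10345) (nat_lit 11) (nat_lit 10))
    (@En.n l25106 (nat_lit 12503) (nat_lit 12) (nat_lit 12))
    (@En.n l20091 (nat_lit 11081) (nat_lit 13) (nat_lit 7))
    (@En.n l10247 (nat_lit 11620) (nat_lit 14) (nat_lit 12))
    (@En.n l3098 (nat_lit 11782) (nat_lit 4) (nat_lit 7))
    (@En.n l3 (nat_lit 10343) (nat_lit 15) (nat_lit 2))))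
  (@Cl.mk (nat_lit 0x4000800080005000c000a0007000a0004000800080006000c0006000b0009) (nat_lit 0x440820403309014) (nat_lit 16) Lb.e (@T16.mk En
    (@En.n l2642 (nat_lit 10346) (nat_lit 0) (nat_lit 9))
    (@En.n l1240 (nat_lit 5311) (nat_lit 1) (nat_lit 11))
    (@En.n l10437 (nat_lit 11079) (nat_lit 11) (nat_lit 6))
    (@En.n l31833 (nat_lit 11444) (nat_lit 12) (nat_lit 12))
    (@En.i (nat_lit 11776) (nat_lit 4) (nat_lit 6))
    (@En.n l31834 (nat_lit 10347) (nat_lit 8) (nat_lit 8))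
    (@En.n l31835 (nat_lit 11790) (nat_lit 11) (nat_lit 8))
    (@En.n l31836 (nat_lit 60) (nat_lit 7) (nat_lit 4))
    (@En.i (nat_lit 12293) (nat_lit 8) (nat_lit 10))
    (@En.n l31837 (nat_lit 4523) (nat_lit 1) (nat_lit 7))
    (@En.n l31838 (nat_lit 10522) (nat_lit 11) (nat_lit 10))
    (@En.n l31839 (nat_lit 11592) (nat_lit 12) (nat_lit 12))
    (@En.n l31840 (nat_lit 11086) (nat_lit 4) (nat_lit 5))
    (@En.n l31841 (nat_lit 10343) (nat_lit 8) (nat_lit 8))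
    (@En.n l10442 (nat_lit 10397) (nat_lit 11) (nat_lit 8))
    (@En.n l31842 (nat_lit 10353) (nat_lit 15) (nat_lit 4))))
  (@Cl.mk (nat_lit 0x20008000d0007000a00030007000c000b00080006000400090005000e0009) (nat_lit 0x6a0100462004034) (nat_lit 16) Lb.e (@T16.mk En
    (@En.n l3928 (nat_lit 10346) (nat_lit 5) (nat_lit 9))
    (@En.n l11003 (nat_lit 9634) (nat_lit 1) (nat_lit 14))
    (@En.n l3348 (nat_lit 3424) (nat_lit 2) (nat_lit 5))
    (@En.n l612 (nat_lit 10343) (nat_lit 3) (nat_lit 9))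
    (@En.n l50 (nat_lit 11408) (nat_lit 4) (nat_lit 4))
    (@En.n l31286 (nat_lit 4590) (nat_lit 5) (nat_lit 6))
    (@En.n l61 (nat_lit 11486) (nat_lit 6) (nat_lit 8))
    (@En.n l12473 (nat_lit 11589) (nat_lit 8) (nat_lit 11))
    (@En.n l31287 (nat_lit 10218) (nat_lit 9) (nat_lit 12))
    (@En.n l3348 (nat_lit 10435) (nat_lit 12) (nat_lit 7))
    (@En.n l2265 (nat_lit 10351) (nat_lit 10) (nat_lit 3))
    (@En.n l26195 (nat_lit 4822) (nat_lit 0) (nat_lit 10))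
    (@En.n l17182 (nat_lit 11082) (nat_lit 13) (nat_lit 7))
    (@En.n l31287 (nat_lit 11618) (nat_lit 14) (nat_lit 13))
    (@En.n l3928 (nat_lit 11869) (nat_lit 3) (nat_lit 8))
    (@En.n l3 (nat_lit 10345) (nat_lit 15) (nat_lit 2))))
  (@Cl.mk (nat_lit 0x300070007000c000b000900070004000a0005000900090007000d00060009) (nat_lit 0xa720050340a03) (nat_lit 16) Lb.e (@T16.mk En
    (@En.n l7633 (nat_lit 5307) (nat_lit 0) (nat_lit 9))
    (@En.n l42213 (nat_lit 11080) (nat_lit 8) (nat_lit 6))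
    (@En.n l42214 (nat_lit 11441) (nat_lit 2) (nat_lit 13))
    (@En.i (nat_lit 11772) (nat_lit 3) (nat_lit 7))
    (@En.n l42215 (nat_lit 10348) (nat_lit 7) (nat_lit 9))
    (@En.n l42216 (nat_lit 11792) (nat_lit 5) (nat_lit 9))
    (@En.i (nat_lit 4527) (nat_lit 6) (nat_lit 5))
    (@En.n l899 (nat_lit 10344) (nat_lit 8) (nat_lit 10))
    (@En.n l18752 (nat_lit 11407) (nat_lit 8) (nat_lit 4))
    (@En.n l42216 (nat_lit 4521) (nat_lit 0) (nat_lit 7))
    (@En.n l19122 (nat_lit 10519) (nat_lit 11) (nat_lit 9))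
    (@En.n l42217 (nat_lit 11391) (nat_lit 12) (nat_lit 11))
    (@En.n l2824 (nat_lit 10398) (nat_lit 13) (nat_lit 12))
    (@En.n l6784 (nat_lit 10345) (nat_lit 9) (nat_lit 7))
    (@En.n l42218 (nat_lit 10399) (nat_lit 12) (nat_lit 7))
    (@En.n l31804 (nat_lit 10349) (nat_lit 15) (nat_lit 3))))
  (@Cl.mk (nat_lit 0x20006000c000b0008000b000400080005000c0005000a00080004000e0008) (nat_lit 0x75170208032085) (nat_lit 16) Lb.e (@T16.mk En
    (@En.n l16566 (nat_lit 10344) (nat_lit 14) (nat_lit 8))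
    (@En.n l889 (nat_lit 9797) (nat_lit 1) (nat_lit 14))
    (@En.n l16567 (nat_lit 10354) (nat_lit 2) (nat_lit 4))
    (@En.n l1003 (nat_lit 10348) (nat_lit 3) (nat_lit 8))
    (@En.n l6833 (nat_lit 11126) (nat_lit 4) (nat_lit 10))
    (@En.n l5770 (nat_lit 11449) (nat_lit 5) (nat_lit 5))
    (@En.n l16568 (nat_lit 11439) (nat_lit 7) (nat_lit 12))
    (@En.n l17 (nat_lit 11501) (nat_lit 7) (nat_lit 5))
    (@En.n l3589 (nat_lit 11797) (nat_lit 9) (nat_lit 8))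
    (@En.n l2413 (nat_lit 10342) (nat_lit 9) (nat_lit 4))
    (@En.n l16569 (nat_lit 12308) (nat_lit 7) (nat_lit 11))
    (@En.n l3592 (nat_lit 3422) (nat_lit 12) (nat_lit 8))
    (@En.n l16570 (nat_lit 11459) (nat_lit 13) (nat_lit 11))
    (@En.n l16571 (nat_lit 11602) (nat_lit 14) (nat_lit 12))
    (@En.n l699 (nat_lit 9979) (nat_lit 13) (nat_lit 6))
    (@En.n l50 (nat_lit 10347) (nat_lit 15) (nat_lit 2))))
  (@Cl.mk (nat_lit 0x2000c000b000a00080004000b000500090006000d000500080003000e0007) (nat_lit 0x8832080309010a0) (nat_lit 16) Lb.e (@T16.mk En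
    (@En.n l31314 (nat_lit 10346) (nat_lit 14) (nat_lit 7))
    (@En.n l31315 (nat_lit 9796) (nat_lit 1) (nat_lit 14))
    (@En.n l31316 (nat_lit 10350) (nat_lit 2) (nat_lit 3))
    (@En.n l152 (nat_lit 5199) (nat_lit 10) (nat_lit 8))
    (@En.n l1992 (nat_lit 11448) (nat_lit 4) (nat_lit 5))
    (@En.n l31317 (nat_lit 11437) (nat_lit 6) (nat_lit 13))
    (@En.n l31318 (nat_lit 11566) (nat_lit 6) (nat_lit 6))
    (@En.i (nat_lit 11826) (nat_lit 10) (nat_lit 9))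
    (@En.n l20558 (nat_lit 4588) (nat_lit 8) (nat_lit 5))
    (@En.n l5646 (nat_lit 10347) (nat_lit 10) (nat_lit 11))
    (@En.n l31318 (nat_lit 9806) (nat_lit 10) (nat_lit 4))
    (@En.i (nat_lit 4700) (nat_lit 12) (nat_lit 8))
    (@En.n l31319 (nat_lit 11457) (nat_lit 13) (nat_lit 10))
    (@En.n l31320 (nat_lit 11387) (nat_lit 14) (nat_lit 11))
    (@En.i (nat_lit 10394) (nat_lit 12) (nat_lit 12))
    (@En.n l7 (nat_lit 10348) (nat_lit 15) (nat_lit 2))))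
  (@Cl.mk (nat_lit 0x300070007000c000b00090008000400090005000900090007000d00080007) (nat_lit 0x5721050340a60) (nat_lit 16) Lb.e (@T16.mk En
    (@En.n l31290 (nat_lit 12314) (nat_lit 0) (nat_lit 7))
    (@En.n l10040 (nat_lit 10042) (nat_lit 9) (nat_lit 8))
    (@En.n l31291 (nat_lit 11442) (nat_lit 2) (nat_lit 13))
    (@En.n l31292 (nat_lit 11771) (nat_lit 3) (nat_lit 7))
    (@En.n l31293 (nat_lit 10350) (nat_lit 7) (nat_lit 9))
    (@En.n l31294 (nat_lit 10421) (nat_lit 5) (nat_lit 9))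
    (@En.n l16317 (nat_lit 4523) (nat_lit 6) (nat_lit 5))
    (@En.n l31295 (nat_lit 10353) (nat_lit 8) (nat_lit 9))
    (@En.n l6583 (nat_lit 11406) (nat_lit 8) (nat_lit 4))
    (@En.n l31296 (nat_lit 61) (nat_lit 0) (nat_lit 8))
    (@En.n l31297 (nat_lit 10521) (nat_lit 11) (nat_lit 9))
    (@En.i (nat_lit 11390) (nat_lit 12) (nat_lit 11))
    (@En.n l31298 (nat_lit 10397) (nat_lit 13) (nat_lit 12))
    (@En.n l644 (nat_lit 10351) (nat_lit 9) (nat_lit 7))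
    (@En.n l6585 (nat_lit 10420) (nat_lit 12) (nat_lit 7))
    (@En.n l31299 (nat_lit 10346) (nat_lit 15) (nat_lit 3))))
  (@Cl.mk (nat_lit 0x2000c000b000a00090004000a000500090006000d000700060003000e0007) (nat_lit 0x885105030500070) (nat_lit 16) Lb.e (@T16.mk En
    (@En.n l17301 (nat_lit 10349) (nat_lit 14) (nat_lit 7))
    (@En.n l25046 (nat_lit 11295) (nat_lit 1) (nat_lit 14))
    (@En.n l25047 (nat_lit 10348) (nat_lit 2) (nat_lit 3))
    (@En.n l25048 (nat_lit 12339) (nat_lit 3) (nat_lit 6))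
    (@En.n l25049 (nat_lit 10038) (nat_lit 4) (nat_lit 7))
    (@En.n l21593 (nat_lit 11438) (nat_lit 6) (nat_lit 13))
    (@En.n l25050 (nat_lit 11563) (nat_lit 6) (nat_lit 6))
    (@En.n l11131 (nat_lit 11830) (nat_lit 10) (nat_lit 9))
    (@En.i (nat_lit 4589) (nat_lit 8) (nat_lit 5))
    (@En.i (nat_lit 10354) (nat_lit 10) (nat_lit 10))
    (@En.n l4524 (nat_lit 9807) (nat_lit 10) (nat_lit 4))
    (@En.n l25047 (nat_lit 4707) (nat_lit 12) (nat_lit 9))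
    (@En.n l15961 (nat_lit 11464) (nat_lit 13) (nat_lit 10))
    (@En.n l25051 (nat_lit 11385) (nat_lit 14) (nat_lit 11))
    (@En.i (nat_lit 10392) (nat_lit 12) (nat_lit 12))
    (@En.n l3 (nat_lit 10350) (nat_lit 15) (nat_lit 2))))
  (@Cl.mk (nat_lit 0x20008000d0009000800030007000c000b00080007000400080005000e0009) (nat_lit 0x6b15004620000b4) (nat_lit 16) Lb.e (@T16.mk En
    (@En.i (nat_lit 10349) (nat_lit 5) (nat_lit 9))
    (@En.n l601 (nat_lit 9933) (nat_lit 1) (nat_lit 14))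
    (@En.n l16317 (nat_lit 3422) (nat_lit 2) (nat_lit 5))
    (@En.n l16318 (nat_lit 10355) (nat_lit 3) (nat_lit 8))
    (@En.n l6583 (nat_lit 11012) (nat_lit 4) (nat_lit 4))
    (@En.n l16319 (nat_lit 4707) (nat_lit 5) (nat_lit 7))
    (@En.n l16320 (nat_lit 11488) (nat_lit 6) (nat_lit 8))
    (@En.i (nat_lit 11591) (nat_lit 8) (nat_lit 11))
    (@En.n l16317 (nat_lit 10217) (nat_lit 9) (nat_lit 12))
    (@En.n l6585 (nat_lit 11842) (nat_lit 10) (nat_lit 7))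
    (@En.n l6586 (nat_lit 10345) (nat_lit 10) (nat_lit 3))
    (@En.n l619 (nat_lit 12310) (nat_lit 0) (nat_lit 8))
    (@En.n l10040 (nat_lit 6462) (nat_lit 13) (nat_lit 9))
    (@En.n l16321 (nat_lit 11619) (nat_lit 14) (nat_lit 13))
    (@En.i (nat_lit 11871) (nat_lit 3) (nat_lit 8))
    (@En.n l50 (nat_lit 10351) (nat_lit 15) (nat_lit 2))))
noncomputable def a647 : T16 Cl := @T16.mk Cl
  (@Cl.mk (nat_lit 0x20007000c000b00090009000400080005000c0009000700070004000e0008) (nat_lit 0xa82506072000c1) (nat_lit 16) Lb.e (@T16.mk En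
    (@En.n l11435 (nat_lit 45) (nat_lit 6) (nat_lit 8))
    (@En.n l11436 (nat_lit 9935) (nat_lit 1) (nat_lit 14))
    (@En.n l6581 (nat_lit 10347) (nat_lit 2) (nat_lit 4))
    (@En.n l11437 (nat_lit 12104) (nat_lit 9) (nat_lit 7))
    (@En.n l11438 (nat_lit 10350) (nat_lit 4) (nat_lit 7))
    (@En.n l11439 (nat_lit 11489) (nat_lit 5) (nat_lit 9))
    (@En.i (nat_lit 11433) (nat_lit 7) (nat_lit 12))
    (@En.n l11440 (nat_lit 11555) (nat_lit 7) (nat_lit 5))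
    (@En.n l11441 (nat_lit 11851) (nat_lit 9) (nat_lit 8))
    (@En.n l11442 (nat_lit 10343) (nat_lit 9) (nat_lit 4))
    (@En.n l619 (nat_lit 11696) (nat_lit 7) (nat_lit 9))
    (@En.i (nat_lit 10351) (nat_lit 12) (nat_lit 9))
    (@En.n l11443 (nat_lit 12092) (nat_lit 13) (nat_lit 11))
    (@En.n l11440 (nat_lit 8045) (nat_lit 14) (nat_lit 12))
    (@En.n l11444 (nat_lit 11124) (nat_lit 4) (nat_lit 7))
    (@En.n l50 (nat_lit 10352) (nat_lit 15) (nat_lit 2))))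
  (@Cl.mk (nat_lit 0x4000800080004000c000a000900090004000800080006000c00070007000c) (nat_lit 0x20883404408003) (nat_lit 16) Lb.e (@T16.mk En
    (@En.n l2894 (nat_lit 10338) (nat_lit 0) (nat_lit 12))
    (@En.n l152 (nat_lit 12288) (nat_lit 9) (nat_lit 7))
    (@En.n l35478 (nat_lit 10044) (nat_lit 5) (nat_lit 7))
    (@En.n l23794 (nat_lit 11404) (nat_lit 12) (nat_lit 12))
    (@En.n l39173 (nat_lit 11777) (nat_lit 4) (nat_lit 6))
    (@En.n l39174 (nat_lit 10354) (nat_lit 8) (nat_lit 8))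
    (@En.n l39175 (nat_lit 11896) (nat_lit 11) (nat_lit 8))
    (@En.n l1369 (nat_lit 11479) (nat_lit 7) (nat_lit 4))
    (@En.n l39176 (nat_lit 12105) (nat_lit 7) (nat_lit 9))
    (@En.n l39177 (nat_lit 11466) (nat_lit 1) (nat_lit 9))
    (@En.n l39178 (nat_lit 10913) (nat_lit 11) (nat_lit 10))
    (@En.n l39179 (nat_lit 11429) (nat_lit 12) (nat_lit 12))
    (@En.n l25900 (nat_lit 11610) (nat_lit 4) (nat_lit 4))
    (@En.n l39180 (nat_lit 10355) (nat_lit 8) (nat_lit 8))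
    (@En.n l39181 (nat_lit 12214) (nat_lit 11) (nat_lit 8))
    (@En.n l25900 (nat_lit 45) (nat_lit 7) (nat_lit 4))))
  (@Cl.mk (nat_lit 0x20005000c000b000a000a000400080005000c00060006000b0004000e0008) (nat_lit 0xa90403070030c1) (nat_lit 16) Lb.e (@T16.mk En
    (@En.n l11879 (nat_lit 10353) (nat_lit 14) (nat_lit 8))
    (@En.n l16488 (nat_lit 11489) (nat_lit 1) (nat_lit 14))
    (@En.n l24137 (nat_lit 10352) (nat_lit 2) (nat_lit 4))
    (@En.i (nat_lit 11127) (nat_lit 3) (nat_lit 11))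
    (@En.n l4900 (nat_lit 12103) (nat_lit 10) (nat_lit 6))
    (@En.n l21417 (nat_lit 7583) (nat_lit 5) (nat_lit 6))
    (@En.n l24138 (nat_lit 11447) (nat_lit 7) (nat_lit 12))
    (@En.n l10667 (nat_lit 12084) (nat_lit 7) (nat_lit 5))
    (@En.n l117 (nat_lit 11808) (nat_lit 9) (nat_lit 8))
    (@En.n l575 (nat_lit 11482) (nat_lit 9) (nat_lit 4))
    (@En.n l24139 (nat_lit 11693) (nat_lit 11) (nat_lit 10))
    (@En.n l11881 (nat_lit 11487) (nat_lit 12) (nat_lit 10))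
    (@En.n l24140 (nat_lit 11698) (nat_lit 13) (nat_lit 11))
    (@En.n l24141 (nat_lit 11658) (nat_lit 14) (nat_lit 12))
    (@En.i (nat_lit 10753) (nat_lit 13) (nat_lit 5))
    (@En.n l3 (nat_lit 10354) (nat_lit 15) (nat_lit 2))))
  (@Cl.mk (nat_lit 0x20007000c00080008000d000400080003000c0009000800080004000e0008) (nat_lit 0x91350107736085) (nat_lit 16) Lb.e (@T16.mk En
    (@En.n l24119 (nat_lit 10353) (nat_lit 6) (nat_lit 8))
    (@En.n l24120 (nat_lit 11305) (nat_lit 1) (nat_lit 14))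
    (@En.n l13323 (nat_lit 11458) (nat_lit 2) (nat_lit 4))
    (@En.n l2503 (nat_lit 12098) (nat_lit 3) (nat_lit 8))
    (@En.n l24121 (nat_lit 11465) (nat_lit 4) (nat_lit 8))
    (@En.n l24122 (nat_lit 11697) (nat_lit 5) (nat_lit 9))
    (@En.n l24123 (nat_lit 11426) (nat_lit 7) (nat_lit 12))
    (@En.n l24124 (nat_lit 12092) (nat_lit 7) (nat_lit 3))
    (@En.n l24121 (nat_lit 8109) (nat_lit 0) (nat_lit 8))
    (@En.n l19604 (nat_lit 10352) (nat_lit 9) (nat_lit 4))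
    (@En.n l1262 (nat_lit 12501) (nat_lit 11) (nat_lit 13))
    (@En.n l24125 (nat_lit 11694) (nat_lit 8) (nat_lit 8))
    (@En.n l4924 (nat_lit 6461) (nat_lit 13) (nat_lit 8))
    (@En.n l24126 (nat_lit 11403) (nat_lit 14) (nat_lit 12))
    (@En.n l24127 (nat_lit 11874) (nat_lit 6) (nat_lit 7))
    (@En.n l17 (nat_lit 10355) (nat_lit 15) (nat_lit 2))))
  (@Cl.mk (nat_lit 0x30006000a0004000d000b000800030006000d0005000a0003000d0008000c) (nat_lit 0x20663008020832) (nat_lit 16) Lb.e (@T16.mk En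
    (@En.i (nat_lit 5993) (nat_lit 0) (nat_lit 12))
    (@En.i (nat_lit 10557) (nat_lit 14) (nat_lit 8))
    (@En.i (nat_lit 10357) (nat_lit 10) (nat_lit 13))
    (@En.i (nat_lit 9666) (nat_lit 10) (nat_lit 3))
    (@En.i (nat_lit 4452) (nat_lit 0) (nat_lit 10))
    (@En.n l29002 (nat_lit 9078) (nat_lit 5) (nat_lit 5))
    (@En.n l2572 (nat_lit 10168) (nat_lit 7) (nat_lit 13))
    (@En.n l5928 (nat_lit 6430) (nat_lit 12) (nat_lit 6))
    (@En.n l7 (nat_lit 9665) (nat_lit 8) (nat_lit 3))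
    (@En.n l30889 (nat_lit 11255) (nat_lit 0) (nat_lit 8))
    (@En.i (nat_lit 9795) (nat_lit 11) (nat_lit 11))
    (@En.i (nat_lit 10359) (nat_lit 12) (nat_lit 13))
    (@En.n l4018 (nat_lit 10514) (nat_lit 3) (nat_lit 4))
    (@En.n l5473 (nat_lit 6079) (nat_lit 9) (nat_lit 10))
    (@En.i (nat_lit 11145) (nat_lit 12) (nat_lit 6))
    (@En.n l2604 (nat_lit 8459) (nat_lit 15) (nat_lit 3))))
  (@Cl.mk (nat_lit 0x3000600090005000a000d0007000b000300070006000a0005000d000b0009) (nat_lit 0x60170600040773) (nat_lit 16) Lb.e (@T16.mk En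
    (@En.n l16747 (nat_lit 11257) (nat_lit 0) (nat_lit 9))
    (@En.i (nat_lit 9978) (nat_lit 10) (nat_lit 11))
    (@En.n l31926 (nat_lit 10358) (nat_lit 11) (nat_lit 13))
    (@En.n l4018 (nat_lit 10510) (nat_lit 3) (nat_lit 5))
    (@En.n l617 (nat_lit 9666) (nat_lit 4) (nat_lit 10))
    (@En.n l17 (nat_lit 10356) (nat_lit 14) (nat_lit 6))
    (@En.i (nat_lit 10362) (nat_lit 6) (nat_lit 7))
    (@En.n l2604 (nat_lit 8461) (nat_lit 7) (nat_lit 3))
    (@En.i (nat_lit 5994) (nat_lit 0) (nat_lit 11))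
    (@En.n l5646 (nat_lit 10553) (nat_lit 10) (nat_lit 7))
    (@En.n l6482 (nat_lit 5416) (nat_lit 5) (nat_lit 13))
    (@En.n l18882 (nat_lit 4451) (nat_lit 3) (nat_lit 10))
    (@En.n l19555 (nat_lit 9073) (nat_lit 4) (nat_lit 5))
    (@En.n l16089 (nat_lit 11236) (nat_lit 9) (nat_lit 9))
    (@En.n l5928 (nat_lit 6434) (nat_lit 12) (nat_lit 6))
    (@En.n l7 (nat_lit 9664) (nat_lit 15) (nat_lit 3))))
  (@Cl.mk (nat_lit 0x300070006000a000d000a000800030009000600090006000a000d00080007) (nat_lit 0x3665030201920) (nat_lit 16) Lb.e (@T16.mk En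
    (@En.n l18 (nat_lit 12141) (nat_lit 0) (nat_lit 7))
    (@En.n l6081 (nat_lit 10555) (nat_lit 9) (nat_lit 8))
    (@En.n l180 (nat_lit 1736) (nat_lit 5) (nat_lit 13))
    (@En.i (nat_lit 4449) (nat_lit 3) (nat_lit 10))
    (@En.n l180 (nat_lit 9075) (nat_lit 4) (nat_lit 6))
    (@En.i (nat_lit 11422) (nat_lit 9) (nat_lit 9))
    (@En.n l28373 (nat_lit 10357) (nat_lit 14) (nat_lit 6))
    (@En.n l39065 (nat_lit 6271) (nat_lit 8) (nat_lit 9))
    (@En.n l26041 (nat_lit 9669) (nat_lit 8) (nat_lit 3))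
    (@En.n l14564 (nat_lit 11258) (nat_lit 0) (nat_lit 8))
    (@En.n l39066 (nat_lit 11115) (nat_lit 11) (nat_lit 10))
    (@En.n l39067 (nat_lit 12220) (nat_lit 5) (nat_lit 13))
    (@En.n l39068 (nat_lit 10360) (nat_lit 13) (nat_lit 10))
    (@En.n l39069 (nat_lit 10359) (nat_lit 14) (nat_lit 6))
    (@En.n l20187 (nat_lit 10361) (nat_lit 5) (nat_lit 7))
    (@En.n l13686 (nat_lit 8464) (nat_lit 15) (nat_lit 3))))
  (@Cl.mk (nat_lit 0x30006000a000d000a0007000300080006000d0006000a0003000d00090008) (nat_lit 0x35500505020a32) (nat_lit 16) Lb.e (@T16.mk En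
    (@En.n l9311 (nat_lit 12145) (nat_lit 0) (nat_lit 8))
    (@En.n l35114 (nat_lit 10556) (nat_lit 14) (nat_lit 9))
    (@En.n l31926 (nat_lit 10358) (nat_lit 2) (nat_lit 13))
    (@En.n l19475 (nat_lit 10360) (nat_lit 3) (nat_lit 3))
    (@En.n l9311 (nat_lit 4450) (nat_lit 0) (nat_lit 10))
    (@En.n l29002 (nat_lit 9077) (nat_lit 5) (nat_lit 6))
    (@En.n l2572 (nat_lit 10898) (nat_lit 7) (nat_lit 13))
    (@En.n l11 (nat_lit 10356) (nat_lit 7) (nat_lit 6))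
    (@En.i (nat_lit 6270) (nat_lit 4) (nat_lit 8))
    (@En.n l7 (nat_lit 9668) (nat_lit 9) (nat_lit 3))
    (@En.n l38963 (nat_lit 9525) (nat_lit 0) (nat_lit 7))
    (@En.n l19999 (nat_lit 11116) (nat_lit 12) (nat_lit 10))
    (@En.n l6698 (nat_lit 12219) (nat_lit 5) (nat_lit 13))
    (@En.n l38964 (nat_lit 6077) (nat_lit 9) (nat_lit 10))
    (@En.i (nat_lit 11147) (nat_lit 12) (nat_lit 6))
    (@En.n l27031 (nat_lit 8462) (nat_lit 15) (nat_lit 3))))
  (@Cl.mk (nat_lit 0x30007000a000d00090007000300080006000d000900070003000d00090008) (nat_lit 0x25500305300a44) (nat_lit 16) Lb.e (@T16.mk En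
    (@En.n l13094 (nat_lit 12146) (nat_lit 0) (nat_lit 8))
    (@En.n l11084 (nat_lit 10554) (nat_lit 14) (nat_lit 9))
    (@En.n l23688 (nat_lit 1734) (nat_lit 2) (nat_lit 13))
    (@En.n l23689 (nat_lit 10359) (nat_lit 3) (nat_lit 3))
    (@En.n l1504 (nat_lit 9597) (nat_lit 0) (nat_lit 7))
    (@En.n l9696 (nat_lit 10358) (nat_lit 5) (nat_lit 9))
    (@En.n l23690 (nat_lit 12026) (nat_lit 7) (nat_lit 13))
    (@En.n l18585 (nat_lit 9666) (nat_lit 14) (nat_lit 6))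
    (@En.n l23691 (nat_lit 6269) (nat_lit 4) (nat_lit 8))
    (@En.n l23692 (nat_lit 9662) (nat_lit 9) (nat_lit 3))
    (@En.n l7081 (nat_lit 11259) (nat_lit 0) (nat_lit 7))
    (@En.n l8992 (nat_lit 11117) (nat_lit 12) (nat_lit 9))
    (@En.n l253 (nat_lit 12224) (nat_lit 5) (nat_lit 13))
    (@En.i (nat_lit 6074) (nat_lit 8) (nat_lit 10))
    (@En.n l23693 (nat_lit 10363) (nat_lit 4) (nat_lit 7))
    (@En.n l7081 (nat_lit 8463) (nat_lit 15) (nat_lit 3))))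
  (@Cl.mk (nat_lit 0x3000800060009000d0007000b00030009000800070005000a000d00090007) (nat_lit 0x302601044002870) (nat_lit 16) Lb.e (@T16.mk En
    (@En.n l7611 (nat_lit 11138) (nat_lit 0) (nat_lit 7))
    (@En.i (nat_lit 11092) (nat_lit 9) (nat_lit 9))
    (@En.n l40867 (nat_lit 6533) (nat_lit 5) (nat_lit 13))
    (@En.n l40868 (nat_lit 10363) (nat_lit 3) (nat_lit 10))
    (@En.n l2832 (nat_lit 11210) (nat_lit 4) (nat_lit 5))
    (@En.n l2575 (nat_lit 11472) (nat_lit 13) (nat_lit 7))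
    (@En.i (nat_lit 12148) (nat_lit 8) (nat_lit 8))
    (@En.n l26157 (nat_lit 11611) (nat_lit 8) (nat_lit 9))
    (@En.n l34745 (nat_lit 10366) (nat_lit 8) (nat_lit 3))
    (@En.i (nat_lit 6189) (nat_lit 0) (nat_lit 11))
    (@En.n l5646 (nat_lit 11609) (nat_lit 11) (nat_lit 7))
    (@En.n l36291 (nat_lit 10359) (nat_lit 6) (nat_lit 13))
    (@En.i (nat_lit 9931) (nat_lit 9) (nat_lit 9))
    (@En.n l7826 (nat_lit 10362) (nat_lit 14) (nat_lit 6))
    (@En.n l50 (nat_lit 11245) (nat_lit 5) (nat_lit 8))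
    (@En.n l19563 (nat_lit 11760) (nat_lit 15) (nat_lit 3))))
  (@Cl.mk (nat_lit 0x300060009000d0006000b00030008000c00070005000a0004000d000a0008) (nat_lit 0x9010060030984) (nat_lit 16) Lb.e (@T16.mk En
    (@En.n l10065 (nat_lit 11139) (nat_lit 0) (nat_lit 8))
    (@En.i (nat_lit 11094) (nat_lit 8) (nat_lit 10))
    (@En.n l9311 (nat_lit 10361) (nat_lit 2) (nat_lit 13))
    (@En.n l4018 (nat_lit 10517) (nat_lit 3) (nat_lit 4))
    (@En.n l5473 (nat_lit 10364) (nat_lit 4) (nat_lit 10))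
    (@En.n l29014 (nat_lit 11111) (nat_lit 5) (nat_lit 5))
    (@En.n l29015 (nat_lit 10839) (nat_lit 6) (nat_lit 7))
    (@En.i (nat_lit 5562) (nat_lit 7) (nat_lit 12))
    (@En.n l17957 (nat_lit 11612) (nat_lit 9) (nat_lit 8))
    (@En.n l6081 (nat_lit 10365) (nat_lit 9) (nat_lit 3))
    (@En.n l3260 (nat_lit 6192) (nat_lit 0) (nat_lit 11))
    (@En.n l29014 (nat_lit 11610) (nat_lit 12) (nat_lit 6))
    (@En.i (nat_lit 10356) (nat_lit 6) (nat_lit 13))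
    (@En.n l3260 (nat_lit 11726) (nat_lit 9) (nat_lit 9))
    (@En.n l21632 (nat_lit 7799) (nat_lit 12) (nat_lit 6))
    (@En.n l7 (nat_lit 11758) (nat_lit 15) (nat_lit 3))))
  (@Cl.mk (nat_lit 0x300070006000c0009000d000800040003000a00090007000a000d00080006) (nat_lit 0x5342004101350) (nat_lit 16) Lb.e (@T16.mk En
    (@En.n l18 (nat_lit 11135) (nat_lit 0) (nat_lit 6))
    (@En.n l27806 (nat_lit 11096) (nat_lit 10) (nat_lit 8))
    (@En.i (nat_lit 9994) (nat_lit 5) (nat_lit 13))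
    (@En.n l27807 (nat_lit 2248) (nat_lit 8) (nat_lit 10))
    (@En.i (nat_lit 11787) (nat_lit 13) (nat_lit 7))
    (@En.n l27808 (nat_lit 8255) (nat_lit 5) (nat_lit 9))
    (@En.n l4252 (nat_lit 11613) (nat_lit 7) (nat_lit 10))
    (@En.n l7 (nat_lit 10367) (nat_lit 7) (nat_lit 3))
    (@En.n l27809 (nat_lit 11147) (nat_lit 0) (nat_lit 4))
    (@En.i (nat_lit 12218) (nat_lit 0) (nat_lit 8))
    (@En.n l27810 (nat_lit 6077) (nat_lit 1) (nat_lit 13))
    (@En.n l27811 (nat_lit 10361) (nat_lit 12) (nat_lit 9))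
    (@En.n l27812 (nat_lit 10422) (nat_lit 13) (nat_lit 12))
    (@En.n l27813 (nat_lit 10364) (nat_lit 14) (nat_lit 6))
    (@En.n l27814 (nat_lit 11244) (nat_lit 12) (nat_lit 7))
    (@En.n l27815 (nat_lit 10544) (nat_lit 15) (nat_lit 3))))
  (@Cl.mk (nat_lit 0x30006000c0009000d0007000400030009000d0007000a0003000d00090007) (nat_lit 0x41100046020470) (nat_lit 16) Lb.e (@T16.mk En
    (@En.n l3423 (nat_lit 10940) (nat_lit 0) (nat_lit 7))
    (@En.n l4973 (nat_lit 11097) (nat_lit 14) (nat_lit 9))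
    (@En.n l14738 (nat_lit 10363) (nat_lit 2) (nat_lit 13))
    (@En.n l7293 (nat_lit 10545) (nat_lit 3) (nat_lit 3))
    (@En.n l454 (nat_lit 3680) (nat_lit 8) (nat_lit 10))
    (@En.i (nat_lit 10845) (nat_lit 5) (nat_lit 7))
    (@En.n l4973 (nat_lit 5559) (nat_lit 6) (nat_lit 13))
    (@En.n l14739 (nat_lit 11614) (nat_lit 3) (nat_lit 9))
    (@En.n l1577 (nat_lit 10368) (nat_lit 8) (nat_lit 3))
    (@En.n l1393 (nat_lit 11145) (nat_lit 0) (nat_lit 4))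
    (@En.n l575 (nat_lit 12216) (nat_lit 0) (nat_lit 7))
    (@En.i (nat_lit 6079) (nat_lit 1) (nat_lit 13))
    (@En.n l5987 (nat_lit 10362) (nat_lit 13) (nat_lit 9))
    (@En.n l14740 (nat_lit 10847) (nat_lit 14) (nat_lit 12))
    (@En.n l4946 (nat_lit 7798) (nat_lit 12) (nat_lit 6))
    (@En.n l5989 (nat_lit 10543) (nat_lit 15) (nat_lit 3))))
  (@Cl.mk (nat_lit 0x300060009000d000a000700030008000c00070006000a0004000d00090008) (nat_lit 0x9300540030846) (nat_lit 16) Lb.e (@T16.mk En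
    (@En.n l9155 (nat_lit 12316) (nat_lit 0) (nat_lit 8))
    (@En.i (nat_lit 11611) (nat_lit 14) (nat_lit 9))
    (@En.n l31728 (nat_lit 10366) (nat_lit 2) (nat_lit 13))
    (@En.n l28251 (nat_lit 10521) (nat_lit 3) (nat_lit 4))
    (@En.n l30931 (nat_lit 10368) (nat_lit 4) (nat_lit 10))
    (@En.i (nat_lit 11764) (nat_lit 5) (nat_lit 6))
    (@En.n l16543 (nat_lit 10841) (nat_lit 6) (nat_lit 7))
    (@En.i (nat_lit 5536) (nat_lit 7) (nat_lit 12))
    (@En.n l16540 (nat_lit 11605) (nat_lit 9) (nat_lit 8))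
    (@En.n l3536 (nat_lit 10362) (nat_lit 9) (nat_lit 3))
    (@En.n l31729 (nat_lit 9632) (nat_lit 0) (nat_lit 7))
    (@En.n l31730 (nat_lit 10868) (nat_lit 12) (nat_lit 10))
    (@En.n l3866 (nat_lit 9666) (nat_lit 13) (nat_lit 13))
    (@En.n l30935 (nat_lit 11730) (nat_lit 9) (nat_lit 9))
    (@En.n l5368 (nat_lit 7803) (nat_lit 12) (nat_lit 6))
    (@En.n l18 (nat_lit 11756) (nat_lit 15) (nat_lit 3))))
  (@Cl.mk (nat_lit 0x3000800060009000d000a000800030009000800070006000a000d00080007) (nat_lit 0x301642041003730) (nat_lit 16) Lb.e (@T16.mk En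
    (@En.n l18 (nat_lit 12063) (nat_lit 0) (nat_lit 7))
    (@En.n l18108 (nat_lit 11857) (nat_lit 9) (nat_lit 8))
    (@En.i (nat_lit 7149) (nat_lit 5) (nat_lit 13))
    (@En.n l936 (nat_lit 10367) (nat_lit 3) (nat_lit 10))
    (@En.n l41923 (nat_lit 10369) (nat_lit 4) (nat_lit 6))
    (@En.n l9885 (nat_lit 11471) (nat_lit 13) (nat_lit 7))
    (@En.n l22951 (nat_lit 8249) (nat_lit 8) (nat_lit 8))
    (@En.n l9885 (nat_lit 11606) (nat_lit 8) (nat_lit 9))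
    (@En.n l27811 (nat_lit 10361) (nat_lit 8) (nat_lit 3))
    (@En.n l40509 (nat_lit 9633) (nat_lit 0) (nat_lit 8))
    (@En.n l41924 (nat_lit 10862) (nat_lit 11) (nat_lit 10))
    (@En.n l41925 (nat_lit 10360) (nat_lit 6) (nat_lit 13))
    (@En.n l41926 (nat_lit 7947) (nat_lit 9) (nat_lit 9))
    (@En.n l41927 (nat_lit 10365) (nat_lit 14) (nat_lit 6))
    (@En.n l41928 (nat_lit 11242) (nat_lit 5) (nat_lit 8))
    (@En.n l41929 (nat_lit 11279) (nat_lit 15) (nat_lit 3))))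
  (@Cl.mk (nat_lit 0x300070006000d0009000d000300090003000a00090007000a000d00070006) (nat_lit 0x8210304102600) (nat_lit 16) Lb.e (@T16.mk En
    (@En.n l18 (nat_lit 10941) (nat_lit 0) (nat_lit 6))
    (@En.n l18108 (nat_lit 11856) (nat_lit 7) (nat_lit 7))
    (@En.i (nat_lit 9993) (nat_lit 5) (nat_lit 13))
    (@En.n l27807 (nat_lit 2397) (nat_lit 8) (nat_lit 10))
    (@En.i (nat_lit 11786) (nat_lit 13) (nat_lit 7))
    (@En.n l27807 (nat_lit 8246) (nat_lit 5) (nat_lit 9))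
    (@En.i (nat_lit 12211) (nat_lit 13) (nat_lit 10))
    (@En.i (nat_lit 10363) (nat_lit 7) (nat_lit 3))
    (@En.i (nat_lit 9630) (nat_lit 0) (nat_lit 9))
    (@En.n l40847 (nat_lit 10369) (nat_lit 9) (nat_lit 3))
    (@En.n l9970 (nat_lit 6074) (nat_lit 0) (nat_lit 13))
    (@En.i (nat_lit 10366) (nat_lit 12) (nat_lit 9))
    (@En.n l3057 (nat_lit 10421) (nat_lit 13) (nat_lit 13))
    (@En.n l40848 (nat_lit 10368) (nat_lit 14) (nat_lit 6))
    (@En.n l40708 (nat_lit 11241) (nat_lit 4) (nat_lit 7))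
    (@En.n l4260 (nat_lit 10550) (nat_lit 15) (nat_lit 3))))
noncomputable def a648 : T16 Cl := @T16.mk Cl
  (@Cl.mk (nat_lit 0x30006000d0009000d0003000800030009000d0007000a0003000d00080007) (nat_lit 0x81103044020700) (nat_lit 16) Lb.e (@T16.mk En
    (@En.n l86 (nat_lit 10938) (nat_lit 0) (nat_lit 7))
    (@En.n l6892 (nat_lit 12012) (nat_lit 14) (nat_lit 8))
    (@En.n l28768 (nat_lit 10367) (nat_lit 2) (nat_lit 13))
    (@En.n l19561 (nat_lit 10551) (nat_lit 3) (nat_lit 3))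
    (@En.n l4484 (nat_lit 3679) (nat_lit 8) (nat_lit 10))
    (@En.n l21298 (nat_lit 11785) (nat_lit 5) (nat_lit 7))
    (@En.n l4484 (nat_lit 5406) (nat_lit 6) (nat_lit 13))
    (@En.n l25677 (nat_lit 12210) (nat_lit 13) (nat_lit 9))
    (@En.n l11 (nat_lit 10364) (nat_lit 8) (nat_lit 3))
    (@En.n l13306 (nat_lit 9629) (nat_lit 0) (nat_lit 8))
    (@En.n l15990 (nat_lit 11764) (nat_lit 10) (nat_lit 3))
    (@En.i (nat_lit 6078) (nat_lit 0) (nat_lit 13))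
    (@En.n l4961 (nat_lit 10365) (nat_lit 13) (nat_lit 9))
    (@En.n l10968 (nat_lit 11468) (nat_lit 2) (nat_lit 13))
    (@En.n l2436 (nat_lit 7801) (nat_lit 12) (nat_lit 6))
    (@En.n l13304 (nat_lit 10549) (nat_lit 15) (nat_lit 3))))
  (@Cl.mk (nat_lit 0x300070006000d000c000a000300090004000a00090006000a000d00070006) (nat_lit 0x8640703102800) (nat_lit 16) Lb.e (@T16.mk En
    (@En.n l42627 (nat_lit 10943) (nat_lit 0) (nat_lit 6))
    (@En.n l34007 (nat_lit 11860) (nat_lit 7) (nat_lit 7))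
    (@En.n l42580 (nat_lit 9992) (nat_lit 5) (nat_lit 13))
    (@En.n l42627 (nat_lit 2402) (nat_lit 9) (nat_lit 10))
    (@En.n l42580 (nat_lit 11773) (nat_lit 4) (nat_lit 6))
    (@En.n l36379 (nat_lit 8252) (nat_lit 5) (nat_lit 9))
    (@En.n l31318 (nat_lit 12212) (nat_lit 13) (nat_lit 10))
    (@En.n l16702 (nat_lit 11210) (nat_lit 7) (nat_lit 4))
    (@En.i (nat_lit 10510) (nat_lit 0) (nat_lit 9))
    (@En.n l31728 (nat_lit 10367) (nat_lit 9) (nat_lit 3))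
    (@En.n l6943 (nat_lit 11672) (nat_lit 0) (nat_lit 10))
    (@En.n l42628 (nat_lit 10363) (nat_lit 12) (nat_lit 12))
    (@En.n l22897 (nat_lit 10423) (nat_lit 13) (nat_lit 13))
    (@En.n l7 (nat_lit 11764) (nat_lit 14) (nat_lit 6))
    (@En.i (nat_lit 11243) (nat_lit 4) (nat_lit 7))
    (@En.n l18 (nat_lit 11763) (nat_lit 15) (nat_lit 3))))
  (@Cl.mk (nat_lit 0x40007000b0008000b000600090005000a000500090008000c00070006000a) (nat_lit 0x22702080626005) (nat_lit 16) Lb.e (@T16.mk En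
    (@En.n l28 (nat_lit 6154) (nat_lit 0) (nat_lit 10))
    (@En.n l41190 (nat_lit 6215) (nat_lit 10) (nat_lit 6))
    (@En.n l41191 (nat_lit 10378) (nat_lit 0) (nat_lit 7))
    (@En.n l41192 (nat_lit 6211) (nat_lit 7) (nat_lit 12))
    (@En.n l41192 (nat_lit 10371) (nat_lit 8) (nat_lit 8))
    (@En.n l41193 (nat_lit 10715) (nat_lit 10) (nat_lit 9))
    (@En.n l2678 (nat_lit 1177) (nat_lit 6) (nat_lit 5))
    (@En.n l30041 (nat_lit 8145) (nat_lit 0) (nat_lit 10))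
    (@En.n l41194 (nat_lit 9784) (nat_lit 8) (nat_lit 5))
    (@En.n l41195 (nat_lit 6209) (nat_lit 9) (nat_lit 9))
    (@En.n l41196 (nat_lit 10059) (nat_lit 1) (nat_lit 6))
    (@En.i (nat_lit 4457) (nat_lit 7) (nat_lit 11))
    (@En.n l3178 (nat_lit 4929) (nat_lit 13) (nat_lit 8))
    (@En.n l2568 (nat_lit 9068) (nat_lit 8) (nat_lit 11))
    (@En.n l3340 (nat_lit 9854) (nat_lit 11) (nat_lit 7))
    (@En.n l3596 (nat_lit 11260) (nat_lit 15) (nat_lit 4))))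
  (@Cl.mk (nat_lit 0x3000b0007000a0006000b00050008000c0006000500090004000d000a0008) (nat_lit 0x807090150020512) (nat_lit 16) Lb.e (@T16.mk En
    (@En.n l37927 (nat_lit 5417) (nat_lit 0) (nat_lit 8))
    (@En.n l619 (nat_lit 8391) (nat_lit 14) (nat_lit 10))
    (@En.n l12289 (nat_lit 10373) (nat_lit 2) (nat_lit 13))
    (@En.n l37928 (nat_lit 11262) (nat_lit 3) (nat_lit 4))
    (@En.n l37929 (nat_lit 6155) (nat_lit 10) (nat_lit 9))
    (@En.n l28299 (nat_lit 6214) (nat_lit 11) (nat_lit 5))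
    (@En.n l22596 (nat_lit 10377) (nat_lit 6) (nat_lit 6))
    (@En.i (nat_lit 6111) (nat_lit 7) (nat_lit 12))
    (@En.n l37930 (nat_lit 10263) (nat_lit 10) (nat_lit 8))
    (@En.n l217 (nat_lit 1176) (nat_lit 9) (nat_lit 5))
    (@En.n l2129 (nat_lit 8146) (nat_lit 11) (nat_lit 11))
    (@En.n l37931 (nat_lit 9783) (nat_lit 1) (nat_lit 6))
    (@En.i (nat_lit 6208) (nat_lit 8) (nat_lit 10))
    (@En.n l28302 (nat_lit 10063) (nat_lit 14) (nat_lit 7))
    (@En.n l37932 (nat_lit 10370) (nat_lit 11) (nat_lit 11))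
    (@En.n l152 (nat_lit 6211) (nat_lit 15) (nat_lit 3))))
  (@Cl.mk (nat_lit 0x30008000b0007000a0006000b0005000a0008000600050009000d0006000a) (nat_lit 0x360301062003502) (nat_lit 16) Lb.e (@T16.mk En
    (@En.n l31894 (nat_lit 9602) (nat_lit 0) (nat_lit 10))
    (@En.n l38064 (nat_lit 9622) (nat_lit 8) (nat_lit 6))
    (@En.n l18754 (nat_lit 12055) (nat_lit 6) (nat_lit 13))
    (@En.n l40233 (nat_lit 10383) (nat_lit 10) (nat_lit 9))
    (@En.n l40795 (nat_lit 6219) (nat_lit 11) (nat_lit 5))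
    (@En.n l18754 (nat_lit 4311) (nat_lit 5) (nat_lit 6))
    (@En.n l17 (nat_lit 10374) (nat_lit 6) (nat_lit 8))
    (@En.i (nat_lit 10711) (nat_lit 10) (nat_lit 10))
    (@En.n l40796 (nat_lit 6816) (nat_lit 8) (nat_lit 5))
    (@En.i (nat_lit 8148) (nat_lit 10) (nat_lit 11))
    (@En.n l13074 (nat_lit 9654) (nat_lit 11) (nat_lit 6))
    (@En.i (nat_lit 8208) (nat_lit 8) (nat_lit 10))
    (@En.n l40797 (nat_lit 10064) (nat_lit 13) (nat_lit 7))
    (@En.n l18754 (nat_lit 11523) (nat_lit 7) (nat_lit 11))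
    (@En.n l40798 (nat_lit 10370) (nat_lit 12) (nat_lit 8))
    (@En.n l50 (nat_lit 10373) (nat_lit 15) (nat_lit 3))))
  (@Cl.mk (nat_lit 0x30008000b0007000a0007000b000500090008000600050009000d00090007) (nat_lit 0x160305072003420) (nat_lit 16) Lb.e (@T16.mk En
    (@En.n l41949 (nat_lit 10869) (nat_lit 0) (nat_lit 7))
    (@En.i (nat_lit 10378) (nat_lit 13) (nat_lit 9))
    (@En.n l5646 (nat_lit 12052) (nat_lit 6) (nat_lit 13))
    (@En.n l40231 (nat_lit 10380) (nat_lit 10) (nat_lit 9))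
    (@En.n l41950 (nat_lit 6224) (nat_lit 11) (nat_lit 5))
    (@En.i (nat_lit 4310) (nat_lit 5) (nat_lit 6))
    (@En.n l17 (nat_lit 10375) (nat_lit 6) (nat_lit 8))
    (@En.i (nat_lit 10708) (nat_lit 10) (nat_lit 9))
    (@En.i (nat_lit 6822) (nat_lit 8) (nat_lit 5))
    (@En.i (nat_lit 8150) (nat_lit 8) (nat_lit 11))
    (@En.n l2038 (nat_lit 6281) (nat_lit 1) (nat_lit 7))
    (@En.i (nat_lit 8207) (nat_lit 8) (nat_lit 10))
    (@En.n l1769 (nat_lit 10065) (nat_lit 13) (nat_lit 7))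
    (@En.n l1112 (nat_lit 11530) (nat_lit 7) (nat_lit 11))
    (@En.i (nat_lit 5420) (nat_lit 12) (nat_lit 8))
    (@En.i (nat_lit 10372) (nat_lit 15) (nat_lit 3))))
  (@Cl.mk (nat_lit 0x300080004000b0008000b0007000c00050008000500040008000d000c0009) (nat_lit 0x307550101003b72) (nat_lit 16) Lb.e (@T16.mk En
    (@En.n l7867 (nat_lit 9603) (nat_lit 0) (nat_lit 9))
    (@En.n l217 (nat_lit 10376) (nat_lit 4) (nat_lit 12))
    (@En.i (nat_lit 11867) (nat_lit 2) (nat_lit 13))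
    (@En.n l13671 (nat_lit 10382) (nat_lit 11) (nat_lit 8))
    (@En.n l14210 (nat_lit 6221) (nat_lit 12) (nat_lit 4))
    (@En.i (nat_lit 4309) (nat_lit 0) (nat_lit 5))
    (@En.i (nat_lit 7888) (nat_lit 10) (nat_lit 8))
    (@En.n l27799 (nat_lit 6818) (nat_lit 7) (nat_lit 5))
    (@En.i (nat_lit 8149) (nat_lit 9) (nat_lit 12))
    (@En.n l2038 (nat_lit 9782) (nat_lit 1) (nat_lit 7))
    (@En.i (nat_lit 8205) (nat_lit 7) (nat_lit 11))
    (@En.n l5745 (nat_lit 10074) (nat_lit 12) (nat_lit 8))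
    (@En.i (nat_lit 10372) (nat_lit 13) (nat_lit 11))
    (@En.n l50 (nat_lit 8117) (nat_lit 14) (nat_lit 4))
    (@En.n l5389 (nat_lit 10371) (nat_lit 0) (nat_lit 8))
    (@En.n l50 (nat_lit 10375) (nat_lit 15) (nat_lit 3))))
  (@Cl.mk (nat_lit 0x300080003000b0008000b0008000c00050008000500040008000d0008000d) (nat_lit 0x107635101003b55) (nat_lit 16) Lb.e (@T16.mk En
    (@En.i (nat_lit 7424) (nat_lit 0) (nat_lit 13))
    (@En.i (nat_lit 10377) (nat_lit 3) (nat_lit 8))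
    (@En.i (nat_lit 11866) (nat_lit 2) (nat_lit 13))
    (@En.n l13671 (nat_lit 10381) (nat_lit 11) (nat_lit 8))
    (@En.n l10969 (nat_lit 10428) (nat_lit 12) (nat_lit 4))
    (@En.i (nat_lit 4307) (nat_lit 0) (nat_lit 5))
    (@En.i (nat_lit 7890) (nat_lit 10) (nat_lit 8))
    (@En.i (nat_lit 6823) (nat_lit 7) (nat_lit 5))
    (@En.i (nat_lit 8154) (nat_lit 9) (nat_lit 12))
    (@En.n l2038 (nat_lit 9667) (nat_lit 12) (nat_lit 8))
    (@En.i (nat_lit 8206) (nat_lit 7) (nat_lit 11))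
    (@En.n l1769 (nat_lit 10435) (nat_lit 14) (nat_lit 8))
    (@En.i (nat_lit 10373) (nat_lit 13) (nat_lit 11))
    (@En.i (nat_lit 10376) (nat_lit 15) (nat_lit 3))
    (@En.i (nat_lit 5419) (nat_lit 0) (nat_lit 8))
    (@En.i (nat_lit 10374) (nat_lit 15) (nat_lit 3))))
  (@Cl.mk (nat_lit 0x3000b0008000b0008000c00050009000500040008000c0008000d00070004) (nat_lit 0x762440200363500) (nat_lit 16) Lb.e (@T16.mk En
    (@En.n l16484 (nat_lit 8116) (nat_lit 0) (nat_lit 4))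
    (@En.n l61 (nat_lit 10373) (nat_lit 0) (nat_lit 7))
    (@En.n l11792 (nat_lit 7422) (nat_lit 1) (nat_lit 13))
    (@En.i (nat_lit 10379) (nat_lit 3) (nat_lit 8))
    (@En.n l16484 (nat_lit 10474) (nat_lit 7) (nat_lit 12))
    (@En.n l27675 (nat_lit 10395) (nat_lit 11) (nat_lit 8))
    (@En.n l16484 (nat_lit 10427) (nat_lit 12) (nat_lit 4))
    (@En.i (nat_lit 4308) (nat_lit 0) (nat_lit 5))
    (@En.i (nat_lit 10538) (nat_lit 1) (nat_lit 9))
    (@En.n l1769 (nat_lit 6826) (nat_lit 9) (nat_lit 5))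
    (@En.i (nat_lit 8701) (nat_lit 11) (nat_lit 12))
    (@En.n l2038 (nat_lit 9663) (nat_lit 12) (nat_lit 8))
    (@En.i (nat_lit 8204) (nat_lit 7) (nat_lit 11))
    (@En.n l1769 (nat_lit 10434) (nat_lit 14) (nat_lit 8))
    (@En.i (nat_lit 9129) (nat_lit 14) (nat_lit 11))
    (@En.n l18 (nat_lit 10375) (nat_lit 13) (nat_lit 3))))
  (@Cl.mk (nat_lit 0x3000a0007000a00080007000c000600090006000400090008000d00090007) (nat_lit 0x704605000064110) (nat_lit 16) Lb.e (@T16.mk En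
    (@En.n l22170 (nat_lit 5283) (nat_lit 0) (nat_lit 7))
    (@En.n l18925 (nat_lit 9590) (nat_lit 12) (nat_lit 9))
    (@En.n l564 (nat_lit 4310) (nat_lit 2) (nat_lit 13))
    (@En.n l16485 (nat_lit 10731) (nat_lit 8) (nat_lit 8))
    (@En.n l7866 (nat_lit 10392) (nat_lit 4) (nat_lit 9))
    (@En.n l23051 (nat_lit 9954) (nat_lit 5) (nat_lit 4))
    (@En.i (nat_lit 4220) (nat_lit 6) (nat_lit 6))
    (@En.n l22170 (nat_lit 10879) (nat_lit 9) (nat_lit 9))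
    (@En.i (nat_lit 5083) (nat_lit 8) (nat_lit 6))
    (@En.i (nat_lit 9813) (nat_lit 10) (nat_lit 12))
    (@En.n l644 (nat_lit 10374) (nat_lit 9) (nat_lit 7))
    (@En.n l2038 (nat_lit 11253) (nat_lit 12) (nat_lit 8))
    (@En.i (nat_lit 8209) (nat_lit 8) (nat_lit 10))
    (@En.n l25556 (nat_lit 10399) (nat_lit 14) (nat_lit 7))
    (@En.i (nat_lit 10378) (nat_lit 9) (nat_lit 10))
    (@En.i (nat_lit 10379) (nat_lit 15) (nat_lit 3))))
  (@Cl.mk (nat_lit 0x5000a00090006000a0007000a0006000900070006000b0006000a00090007) (nat_lit 0x710106030020610) (nat_lit 16) Lb.e (@T16.mk En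
    (@En.i (nat_lit 4312) (nat_lit 9) (nat_lit 7))
    (@En.n l17 (nat_lit 10377) (nat_lit 7) (nat_lit 9))
    (@En.n l39706 (nat_lit 10713) (nat_lit 9) (nat_lit 10))
    (@En.n l25557 (nat_lit 5081) (nat_lit 6) (nat_lit 6))
    (@En.i (nat_lit 9812) (nat_lit 9) (nat_lit 11))
    (@En.n l644 (nat_lit 10372) (nat_lit 10) (nat_lit 6))
    (@En.n l42876 (nat_lit 11254) (nat_lit 9) (nat_lit 7))
    (@En.i (nat_lit 8211) (nat_lit 9) (nat_lit 9))
    (@En.n l42877 (nat_lit 10070) (nat_lit 8) (nat_lit 6))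
    (@En.n l20109 (nat_lit 9508) (nat_lit 8) (nat_lit 10))
    (@En.n l39706 (nat_lit 4936) (nat_lit 1) (nat_lit 7))
    (@En.n l20109 (nat_lit 9588) (nat_lit 9) (nat_lit 10))
    (@En.n l42878 (nat_lit 9842) (nat_lit 3) (nat_lit 6))
    (@En.n l42879 (nat_lit 10031) (nat_lit 7) (nat_lit 9))
    (@En.n l38061 (nat_lit 10393) (nat_lit 10) (nat_lit 10))
    (@En.n l23051 (nat_lit 9956) (nat_lit 11) (nat_lit 5))))
  (@Cl.mk (nat_lit 0x3000a0007000a00080006000c0006000a0006000400090008000d0006000a) (nat_lit 0x705504080062101) (nat_lit 16) Lb.e (@T16.mk En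
    (@En.n l13919 (nat_lit 6573) (nat_lit 0) (nat_lit 10))
    (@En.n l61 (nat_lit 10378) (nat_lit 12) (nat_lit 6))
    (@En.n l35391 (nat_lit 4311) (nat_lit 2) (nat_lit 13))
    (@En.n l41197 (nat_lit 10732) (nat_lit 8) (nat_lit 8))
    (@En.n l27675 (nat_lit 10394) (nat_lit 4) (nat_lit 9))
    (@En.n l41197 (nat_lit 9953) (nat_lit 5) (nat_lit 4))
    (@En.n l29919 (nat_lit 2830) (nat_lit 6) (nat_lit 6))
    (@En.n l27676 (nat_lit 10809) (nat_lit 1) (nat_lit 10))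
    (@En.n l25558 (nat_lit 5084) (nat_lit 8) (nat_lit 6))
    (@En.i (nat_lit 9814) (nat_lit 10) (nat_lit 12))
    (@En.i (nat_lit 8117) (nat_lit 10) (nat_lit 6))
    (@En.n l41198 (nat_lit 11252) (nat_lit 12) (nat_lit 8))
    (@En.i (nat_lit 8210) (nat_lit 8) (nat_lit 10))
    (@En.n l29919 (nat_lit 10400) (nat_lit 14) (nat_lit 7))
    (@En.i (nat_lit 9319) (nat_lit 9) (nat_lit 10))
    (@En.n l18 (nat_lit 10377) (nat_lit 15) (nat_lit 3))))
  (@Cl.mk (nat_lit 0x30006000a000900060009000d0008000600030007000a0007000d000a0008) (nat_lit 0x82023200060945) (nat_lit 16) Lb.e (@T16.mk En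
    (@En.n l23501 (nat_lit 6275) (nat_lit 0) (nat_lit 8))
    (@En.n l29778 (nat_lit 10373) (nat_lit 11) (nat_lit 10))
    (@En.n l38504 (nat_lit 10386) (nat_lit 12) (nat_lit 13))
    (@En.n l27329 (nat_lit 10067) (nat_lit 13) (nat_lit 7))
    (@En.n l27330 (nat_lit 8633) (nat_lit 8) (nat_lit 10))
    (@En.n l20187 (nat_lit 5421) (nat_lit 5) (nat_lit 7))
    (@En.n l13686 (nat_lit 10383) (nat_lit 6) (nat_lit 3))
    (@En.n l18 (nat_lit 10866) (nat_lit 0) (nat_lit 6))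
    (@En.n l6081 (nat_lit 10393) (nat_lit 9) (nat_lit 8))
    (@En.n l3 (nat_lit 11988) (nat_lit 10) (nat_lit 13))
    (@En.i (nat_lit 5558) (nat_lit 9) (nat_lit 9))
    (@En.n l3 (nat_lit 4315) (nat_lit 4) (nat_lit 6))
    (@En.n l23504 (nat_lit 10381) (nat_lit 13) (nat_lit 9))
    (@En.n l6392 (nat_lit 10707) (nat_lit 9) (nat_lit 10))
    (@En.i (nat_lit 6842) (nat_lit 12) (nat_lit 6))
    (@En.n l30913 (nat_lit 6224) (nat_lit 15) (nat_lit 3))))
  (@Cl.mk (nat_lit 0x30006000900050008000d0007000d000300070003000a0008000d000b0009) (nat_lit 0x102b0400076a46) (nat_lit 16) Lb.e (@T16.mk En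
    (@En.i (nat_lit 6276) (nat_lit 0) (nat_lit 9))
    (@En.n l8351 (nat_lit 10375) (nat_lit 10) (nat_lit 11))
    (@En.n l180 (nat_lit 10385) (nat_lit 11) (nat_lit 13))
    (@En.n l5011 (nat_lit 10432) (nat_lit 12) (nat_lit 8))
    (@En.n l18864 (nat_lit 10380) (nat_lit 4) (nat_lit 10))
    (@En.n l3540 (nat_lit 10395) (nat_lit 5) (nat_lit 3))
    (@En.n l387 (nat_lit 5418) (nat_lit 0) (nat_lit 7))
    (@En.i (nat_lit 10382) (nat_lit 7) (nat_lit 3))
    (@En.n l5234 (nat_lit 7423) (nat_lit 0) (nat_lit 13))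
    (@En.n l2678 (nat_lit 10392) (nat_lit 3) (nat_lit 7))
    (@En.n l3815 (nat_lit 11992) (nat_lit 11) (nat_lit 13))
    (@En.n l810 (nat_lit 5539) (nat_lit 10) (nat_lit 8))
    (@En.n l10491 (nat_lit 4304) (nat_lit 6) (nat_lit 5))
    (@En.n l781 (nat_lit 7891) (nat_lit 9) (nat_lit 9))
    (@En.i (nat_lit 6827) (nat_lit 12) (nat_lit 6))
    (@En.n l10491 (nat_lit 10428) (nat_lit 15) (nat_lit 3))))
  (@Cl.mk (nat_lit 0x30006000900050008000d000c0008000300070004000a0008000d000b0008) (nat_lit 0x102b6200075b64) (nat_lit 16) Lb.e (@T16.mk En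
    (@En.i (nat_lit 9131) (nat_lit 0) (nat_lit 8))
    (@En.n l8351 (nat_lit 10374) (nat_lit 10) (nat_lit 11))
    (@En.n l180 (nat_lit 10384) (nat_lit 11) (nat_lit 13))
    (@En.n l9505 (nat_lit 10075) (nat_lit 12) (nat_lit 8))
    (@En.n l11036 (nat_lit 10383) (nat_lit 4) (nat_lit 10))
    (@En.n l3939 (nat_lit 8118) (nat_lit 5) (nat_lit 4))
    (@En.n l612 (nat_lit 6155) (nat_lit 6) (nat_lit 7))
    (@En.n l50 (nat_lit 10381) (nat_lit 7) (nat_lit 3))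
    (@En.n l5556 (nat_lit 9599) (nat_lit 0) (nat_lit 8))
    (@En.n l32366 (nat_lit 10395) (nat_lit 10) (nat_lit 12))
    (@En.n l3815 (nat_lit 12015) (nat_lit 11) (nat_lit 13))
    (@En.n l810 (nat_lit 5533) (nat_lit 10) (nat_lit 8))
    (@En.n l9504 (nat_lit 4306) (nat_lit 4) (nat_lit 5))
    (@En.n l781 (nat_lit 7889) (nat_lit 9) (nat_lit 9))
    (@En.i (nat_lit 6821) (nat_lit 12) (nat_lit 6))
    (@En.n l32367 (nat_lit 6221) (nat_lit 15) (nat_lit 3))))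
  (@Cl.mk (nat_lit 0x30006000b000900060009000d0005000900030007000a0007000d000a0007) (nat_lit 0x72023020060840) (nat_lit 16) Lb.e (@T16.mk En
    (@En.n l4370 (nat_lit 9132) (nat_lit 0) (nat_lit 7))
    (@En.n l42237 (nat_lit 10372) (nat_lit 11) (nat_lit 10))
    (@En.n l42935 (nat_lit 10388) (nat_lit 12) (nat_lit 13))
    (@En.n l23036 (nat_lit 10066) (nat_lit 13) (nat_lit 7))
    (@En.i (nat_lit 9438) (nat_lit 8) (nat_lit 10))
    (@En.n l2125 (nat_lit 6154) (nat_lit 12) (nat_lit 7))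
    (@En.n l22246 (nat_lit 10380) (nat_lit 6) (nat_lit 3))
    (@En.n l42936 (nat_lit 9598) (nat_lit 0) (nat_lit 9))
    (@En.n l2116 (nat_lit 9623) (nat_lit 8) (nat_lit 5))
    (@En.n l1638 (nat_lit 11991) (nat_lit 10) (nat_lit 13))
    (@En.i (nat_lit 5568) (nat_lit 9) (nat_lit 9))
    (@En.n l1388 (nat_lit 4313) (nat_lit 4) (nat_lit 6))
    (@En.n l15305 (nat_lit 10382) (nat_lit 13) (nat_lit 9))
    (@En.n l14798 (nat_lit 10709) (nat_lit 14) (nat_lit 11))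
    (@En.i (nat_lit 6820) (nat_lit 12) (nat_lit 6))
    (@En.n l42937 (nat_lit 6219) (nat_lit 15) (nat_lit 3))))
noncomputable def a649 : T16 Cl := @T16.mk Cl
  (@Cl.mk (nat_lit 0x300070004000a000d000a00070003000c0006000900060004000d000c0009) (nat_lit 0x6a40020100682) (nat_lit 16) Lb.e (@T16.mk En
    (@En.n l3298 (nat_lit 9600) (nat_lit 0) (nat_lit 9))
    (@En.n l217 (nat_lit 10387) (nat_lit 4) (nat_lit 12))
    (@En.n l16903 (nat_lit 12016) (nat_lit 10) (nat_lit 13))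
    (@En.n l13296 (nat_lit 7619) (nat_lit 3) (nat_lit 4))
    (@En.n l3457 (nat_lit 4303) (nat_lit 4) (nat_lit 6))
    (@En.n l2096 (nat_lit 7943) (nat_lit 9) (nat_lit 9))
    (@En.n l159 (nat_lit 10382) (nat_lit 14) (nat_lit 6))
    (@En.n l3459 (nat_lit 10374) (nat_lit 8) (nat_lit 12))
    (@En.n l16904 (nat_lit 6222) (nat_lit 8) (nat_lit 3))
    (@En.n l9518 (nat_lit 9448) (nat_lit 0) (nat_lit 7))
    (@En.n l3462 (nat_lit 8137) (nat_lit 11) (nat_lit 10))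
    (@En.n l13296 (nat_lit 8641) (nat_lit 5) (nat_lit 13))
    (@En.n l16905 (nat_lit 10388) (nat_lit 13) (nat_lit 10))
    (@En.n l16906 (nat_lit 8120) (nat_lit 4) (nat_lit 4))
    (@En.n l612 (nat_lit 6151) (nat_lit 0) (nat_lit 7))
    (@En.n l50 (nat_lit 10385) (nat_lit 15) (nat_lit 3))))
  (@Cl.mk (nat_lit 0x300070003000a000d000a00080003000c0006000900060004000d0008000d) (nat_lit 0x6955020200724) (nat_lit 16) Lb.e (@T16.mk En
    (@En.n l5995 (nat_lit 7326) (nat_lit 0) (nat_lit 13))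
    (@En.i (nat_lit 10389) (nat_lit 3) (nat_lit 8))
    (@En.n l3457 (nat_lit 11993) (nat_lit 10) (nat_lit 13))
    (@En.n l170 (nat_lit 7616) (nat_lit 3) (nat_lit 4))
    (@En.n l21288 (nat_lit 4301) (nat_lit 6) (nat_lit 6))
    (@En.n l5995 (nat_lit 8693) (nat_lit 9) (nat_lit 9))
    (@En.n l159 (nat_lit 10381) (nat_lit 14) (nat_lit 6))
    (@En.n l3459 (nat_lit 10375) (nat_lit 8) (nat_lit 12))
    (@En.n l6868 (nat_lit 6225) (nat_lit 8) (nat_lit 3))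
    (@En.i (nat_lit 6273) (nat_lit 0) (nat_lit 8))
    (@En.n l3462 (nat_lit 8138) (nat_lit 11) (nat_lit 10))
    (@En.n l21288 (nat_lit 8743) (nat_lit 5) (nat_lit 13))
    (@En.i (nat_lit 10386) (nat_lit 13) (nat_lit 10))
    (@En.i (nat_lit 10387) (nat_lit 15) (nat_lit 3))
    (@En.n l5995 (nat_lit 5424) (nat_lit 0) (nat_lit 7))
    (@En.i (nat_lit 10384) (nat_lit 15) (nat_lit 3))))
  (@Cl.mk (nat_lit 0x30007000a000d000900070003000b0006000a000900070005000d00090006) (nat_lit 0x58300601300670) (nat_lit 16) Lb.e (@T16.mk En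
    (@En.n l2446 (nat_lit 10863) (nat_lit 0) (nat_lit 6))
    (@En.n l34111 (nat_lit 10390) (nat_lit 8) (nat_lit 9))
    (@En.n l34112 (nat_lit 11990) (nat_lit 9) (nat_lit 13))
    (@En.n l170 (nat_lit 7622) (nat_lit 3) (nat_lit 5))
    (@En.n l21288 (nat_lit 4317) (nat_lit 4) (nat_lit 7))
    (@En.n l17 (nat_lit 10385) (nat_lit 5) (nat_lit 9))
    (@En.n l28643 (nat_lit 9207) (nat_lit 13) (nat_lit 10))
    (@En.n l34113 (nat_lit 10380) (nat_lit 14) (nat_lit 6))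
    (@En.n l3459 (nat_lit 10373) (nat_lit 9) (nat_lit 11))
    (@En.n l6868 (nat_lit 6223) (nat_lit 9) (nat_lit 3))
    (@En.i (nat_lit 6274) (nat_lit 0) (nat_lit 7))
    (@En.n l3462 (nat_lit 8139) (nat_lit 12) (nat_lit 9))
    (@En.n l34114 (nat_lit 10242) (nat_lit 5) (nat_lit 13))
    (@En.n l34115 (nat_lit 8629) (nat_lit 8) (nat_lit 10))
    (@En.n l34116 (nat_lit 5425) (nat_lit 4) (nat_lit 7))
    (@En.n l16905 (nat_lit 10388) (nat_lit 15) (nat_lit 3))))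
  (@Cl.mk (nat_lit 0x3000a000d000a00080003000c0006000a00060004000c0008000d00060004) (nat_lit 0x6a2605010074400) (nat_lit 16) Lb.e (@T16.mk En
    (@En.n l3307 (nat_lit 8100) (nat_lit 0) (nat_lit 4))
    (@En.n l61 (nat_lit 10386) (nat_lit 0) (nat_lit 6))
    (@En.n l14869 (nat_lit 7327) (nat_lit 1) (nat_lit 13))
    (@En.n l32334 (nat_lit 10391) (nat_lit 3) (nat_lit 8))
    (@En.n l14868 (nat_lit 11103) (nat_lit 10) (nat_lit 12))
    (@En.n l14869 (nat_lit 7613) (nat_lit 5) (nat_lit 4))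
    (@En.n l3457 (nat_lit 4299) (nat_lit 6) (nat_lit 6))
    (@En.n l14462 (nat_lit 8697) (nat_lit 1) (nat_lit 10))
    (@En.n l32335 (nat_lit 10395) (nat_lit 14) (nat_lit 6))
    (@En.n l3459 (nat_lit 10376) (nat_lit 10) (nat_lit 12))
    (@En.n l4315 (nat_lit 10426) (nat_lit 10) (nat_lit 3))
    (@En.n l9518 (nat_lit 6272) (nat_lit 0) (nat_lit 8))
    (@En.n l3462 (nat_lit 8140) (nat_lit 13) (nat_lit 10))
    (@En.n l14869 (nat_lit 8740) (nat_lit 5) (nat_lit 13))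
    (@En.n l29348 (nat_lit 8631) (nat_lit 3) (nat_lit 10))
    (@En.n l18 (nat_lit 10385) (nat_lit 13) (nat_lit 3))))
  (@Cl.mk (nat_lit 0x30007000a000d000900060003000b0006000b000900070005000d0005000a) (nat_lit 0x57300207200307) (nat_lit 16) Lb.e (@T16.mk En
    (@En.n l32312 (nat_lit 9601) (nat_lit 0) (nat_lit 10))
    (@En.n l32313 (nat_lit 9618) (nat_lit 7) (nat_lit 5))
    (@En.n l32314 (nat_lit 11951) (nat_lit 9) (nat_lit 13))
    (@En.n l6918 (nat_lit 8243) (nat_lit 3) (nat_lit 5))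
    (@En.n l9877 (nat_lit 4316) (nat_lit 4) (nat_lit 7))
    (@En.n l32315 (nat_lit 10384) (nat_lit 5) (nat_lit 9))
    (@En.n l32316 (nat_lit 9179) (nat_lit 13) (nat_lit 11))
    (@En.n l32317 (nat_lit 10383) (nat_lit 14) (nat_lit 6))
    (@En.n l32318 (nat_lit 10372) (nat_lit 9) (nat_lit 11))
    (@En.n l18 (nat_lit 6220) (nat_lit 9) (nat_lit 3))
    (@En.n l32312 (nat_lit 9445) (nat_lit 0) (nat_lit 6))
    (@En.n l32319 (nat_lit 8141) (nat_lit 12) (nat_lit 9))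
    (@En.i (nat_lit 10241) (nat_lit 5) (nat_lit 13))
    (@En.n l6918 (nat_lit 11522) (nat_lit 8) (nat_lit 10))
    (@En.n l32320 (nat_lit 6153) (nat_lit 12) (nat_lit 7))
    (@En.n l32321 (nat_lit 10386) (nat_lit 15) (nat_lit 3))))
  (@Cl.mk (nat_lit 0x30009000c0009000800070004000c0007000a000700040008000d00090006) (nat_lit 0x564600603001120) (nat_lit 16) Lb.e (@T16.mk En
    (@En.n l37703 (nat_lit 5279) (nat_lit 0) (nat_lit 6))
    (@En.n l23900 (nat_lit 9591) (nat_lit 13) (nat_lit 9))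
    (@En.n l22131 (nat_lit 4317) (nat_lit 2) (nat_lit 13))
    (@En.n l23901 (nat_lit 55) (nat_lit 3) (nat_lit 8))
    (@En.n l170 (nat_lit 10301) (nat_lit 4) (nat_lit 4))
    (@En.n l21288 (nat_lit 4222) (nat_lit 0) (nat_lit 7))
    (@En.n l5995 (nat_lit 9391) (nat_lit 8) (nat_lit 10))
    (@En.n l22133 (nat_lit 10392) (nat_lit 7) (nat_lit 7))
    (@En.n l3459 (nat_lit 10377) (nat_lit 9) (nat_lit 12))
    (@En.n l27057 (nat_lit 9879) (nat_lit 9) (nat_lit 4))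
    (@En.n l644 (nat_lit 10384) (nat_lit 9) (nat_lit 7))
    (@En.n l27059 (nat_lit 6145) (nat_lit 12) (nat_lit 8))
    (@En.n l3462 (nat_lit 8143) (nat_lit 13) (nat_lit 9))
    (@En.n l27059 (nat_lit 10203) (nat_lit 6) (nat_lit 12))
    (@En.n l34111 (nat_lit 10390) (nat_lit 4) (nat_lit 9))
    (@En.n l32334 (nat_lit 10391) (nat_lit 15) (nat_lit 3))))
  (@Cl.mk (nat_lit 0x4000b0007000b000a0008000500090005000a00060009000c000800070006) (nat_lit 0x309450602045300) (nat_lit 16) Lb.e (@T16.mk En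
    (@En.n l9265 (nat_lit 10388) (nat_lit 10) (nat_lit 6))
    (@En.n l13633 (nat_lit 6147) (nat_lit 9) (nat_lit 7))
    (@En.n l42950 (nat_lit 9335) (nat_lit 1) (nat_lit 8))
    (@En.i (nat_lit 9345) (nat_lit 6) (nat_lit 12))
    (@En.n l42951 (nat_lit 9506) (nat_lit 9) (nat_lit 9))
    (@En.n l7 (nat_lit 5280) (nat_lit 5) (nat_lit 6))
    (@En.n l42952 (nat_lit 9586) (nat_lit 10) (nat_lit 10))
    (@En.n l42953 (nat_lit 9841) (nat_lit 7) (nat_lit 5))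
    (@En.n l17894 (nat_lit 10605) (nat_lit 10) (nat_lit 9))
    (@En.n l11002 (nat_lit 10302) (nat_lit 1) (nat_lit 5))
    (@En.n l3480 (nat_lit 4318) (nat_lit 0) (nat_lit 8))
    (@En.n l42954 (nat_lit 10389) (nat_lit 6) (nat_lit 10))
    (@En.n l31005 (nat_lit 10396) (nat_lit 8) (nat_lit 11))
    (@En.n l33690 (nat_lit 10393) (nat_lit 14) (nat_lit 7))
    (@En.n l42955 (nat_lit 10378) (nat_lit 4) (nat_lit 11))
    (@En.n l3480 (nat_lit 9876) (nat_lit 12) (nat_lit 4))))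
  (@Cl.mk (nat_lit 0x30009000c0009000800060004000c0007000b000700040008000d0005000a) (nat_lit 0x665600502003101) (nat_lit 16) Lb.e (@T16.mk En
    (@En.n l170 (nat_lit 6570) (nat_lit 0) (nat_lit 10))
    (@En.n l4427 (nat_lit 10390) (nat_lit 7) (nat_lit 5))
    (@En.n l19702 (nat_lit 4316) (nat_lit 2) (nat_lit 13))
    (@En.n l17 (nat_lit 10607) (nat_lit 3) (nat_lit 8))
    (@En.n l19702 (nat_lit 10300) (nat_lit 4) (nat_lit 4))
    (@En.i (nat_lit 4224) (nat_lit 0) (nat_lit 7))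
    (@En.n l1203 (nat_lit 9393) (nat_lit 1) (nat_lit 11))
    (@En.n l32438 (nat_lit 10394) (nat_lit 7) (nat_lit 7))
    (@En.n l32439 (nat_lit 10379) (nat_lit 9) (nat_lit 12))
    (@En.n l28 (nat_lit 9950) (nat_lit 9) (nat_lit 4))
    (@En.n l32440 (nat_lit 8120) (nat_lit 0) (nat_lit 6))
    (@En.i (nat_lit 6146) (nat_lit 12) (nat_lit 8))
    (@En.n l32441 (nat_lit 9334) (nat_lit 13) (nat_lit 9))
    (@En.i (nat_lit 10202) (nat_lit 6) (nat_lit 12))
    (@En.n l2117 (nat_lit 9421) (nat_lit 4) (nat_lit 9))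
    (@En.n l32442 (nat_lit 10389) (nat_lit 15) (nat_lit 3))))
  (@Cl.mk (nat_lit 0x300090007000c000a0009000800040007000a000600090007000d00080006) (nat_lit 0x607575000050110) (nat_lit 16) Lb.e (@T16.mk En
    (@En.n l38506 (nat_lit 5281) (nat_lit 0) (nat_lit 6))
    (@En.n l7 (nat_lit 9589) (nat_lit 9) (nat_lit 8))
    (@En.n l21593 (nat_lit 4315) (nat_lit 2) (nat_lit 13))
    (@En.n l7 (nat_lit 10605) (nat_lit 3) (nat_lit 7))
    (@En.n l117 (nat_lit 9162) (nat_lit 9) (nat_lit 9))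
    (@En.n l23387 (nat_lit 4221) (nat_lit 5) (nat_lit 6))
    (@En.n l33659 (nat_lit 10752) (nat_lit 8) (nat_lit 10))
    (@En.i (nat_lit 5087) (nat_lit 11) (nat_lit 7))
    (@En.n l38507 (nat_lit 9804) (nat_lit 8) (nat_lit 4))
    (@En.n l11881 (nat_lit 10382) (nat_lit 0) (nat_lit 8))
    (@En.n l1578 (nat_lit 6148) (nat_lit 1) (nat_lit 9))
    (@En.n l10727 (nat_lit 10377) (nat_lit 12) (nat_lit 10))
    (@En.n l37711 (nat_lit 10389) (nat_lit 13) (nat_lit 12))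
    (@En.n l38508 (nat_lit 10397) (nat_lit 14) (nat_lit 7))
    (@En.n l37223 (nat_lit 10393) (nat_lit 5) (nat_lit 9))
    (@En.n l25047 (nat_lit 10394) (nat_lit 15) (nat_lit 3))))
  (@Cl.mk (nat_lit 0x40007000b000a0007000a000800050009000600090006000c000900080007) (nat_lit 0x71061010506460) (nat_lit 16) Lb.e (@T16.mk En
    (@En.n l5579 (nat_lit 10383) (nat_lit 0) (nat_lit 7))
    (@En.n l9941 (nat_lit 6150) (nat_lit 8) (nat_lit 8))
    (@En.n l35169 (nat_lit 10378) (nat_lit 7) (nat_lit 9))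
    (@En.n l33712 (nat_lit 10390) (nat_lit 3) (nat_lit 12))
    (@En.n l26965 (nat_lit 10071) (nat_lit 4) (nat_lit 6))
    (@En.n l36078 (nat_lit 9507) (nat_lit 9) (nat_lit 9))
    (@En.n l36079 (nat_lit 4935) (nat_lit 6) (nat_lit 6))
    (@En.i (nat_lit 9587) (nat_lit 10) (nat_lit 9))
    (@En.n l152 (nat_lit 9843) (nat_lit 8) (nat_lit 5))
    (@En.n l17149 (nat_lit 56) (nat_lit 0) (nat_lit 8))
    (@En.i (nat_lit 9161) (nat_lit 8) (nat_lit 10))
    (@En.n l20238 (nat_lit 4314) (nat_lit 2) (nat_lit 7))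
    (@En.n l20241 (nat_lit 10392) (nat_lit 6) (nat_lit 10))
    (@En.n l36080 (nat_lit 10712) (nat_lit 8) (nat_lit 11))
    (@En.n l4658 (nat_lit 5086) (nat_lit 11) (nat_lit 7))
    (@En.n l36081 (nat_lit 9805) (nat_lit 15) (nat_lit 4))))
  (@Cl.mk (nat_lit 0x300090007000c000a0009000700040007000b000600090007000d00050009) (nat_lit 0x607670009050101) (nat_lit 16) Lb.e (@T16.mk En
    (@En.n l152 (nat_lit 6571) (nat_lit 0) (nat_lit 9))
    (@En.n l1992 (nat_lit 10393) (nat_lit 8) (nat_lit 5))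
    (@En.n l31317 (nat_lit 4313) (nat_lit 2) (nat_lit 13))
    (@En.n l19430 (nat_lit 10606) (nat_lit 3) (nat_lit 7))
    (@En.i (nat_lit 9160) (nat_lit 9) (nat_lit 9))
    (@En.n l42597 (nat_lit 2833) (nat_lit 5) (nat_lit 6))
    (@En.n l32473 (nat_lit 10804) (nat_lit 8) (nat_lit 11))
    (@En.n l4818 (nat_lit 5088) (nat_lit 11) (nat_lit 7))
    (@En.n l42598 (nat_lit 9803) (nat_lit 8) (nat_lit 4))
    (@En.i (nat_lit 8118) (nat_lit 0) (nat_lit 7))
    (@En.n l31319 (nat_lit 6149) (nat_lit 1) (nat_lit 9))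
    (@En.n l16960 (nat_lit 10379) (nat_lit 12) (nat_lit 10))
    (@En.n l42599 (nat_lit 10391) (nat_lit 13) (nat_lit 12))
    (@En.n l42600 (nat_lit 10398) (nat_lit 14) (nat_lit 7))
    (@En.n l29288 (nat_lit 9420) (nat_lit 5) (nat_lit 9))
    (@En.n l31316 (nat_lit 10392) (nat_lit 15) (nat_lit 3))))
  (@Cl.mk (nat_lit 0x30006000a00050008000c0007000d000600040003000a0008000d000b0009) (nat_lit 0x20250300086b37) (nat_lit 16) Lb.e (@T16.mk En
    (@En.n l4814 (nat_lit 6277) (nat_lit 0) (nat_lit 9))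
    (@En.n l16960 (nat_lit 10376) (nat_lit 12) (nat_lit 11))
    (@En.n l16964 (nat_lit 10387) (nat_lit 13) (nat_lit 13))
    (@En.n l28284 (nat_lit 10431) (nat_lit 14) (nat_lit 8))
    (@En.n l2213 (nat_lit 9128) (nat_lit 4) (nat_lit 10))
    (@En.n l38505 (nat_lit 10381) (nat_lit 5) (nat_lit 3))
    (@En.n l152 (nat_lit 8101) (nat_lit 0) (nat_lit 4))
    (@En.n l21574 (nat_lit 10380) (nat_lit 7) (nat_lit 6))
    (@En.n l725 (nat_lit 7420) (nat_lit 1) (nat_lit 13))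
    (@En.i (nat_lit 10394) (nat_lit 3) (nat_lit 7))
    (@En.n l9960 (nat_lit 11101) (nat_lit 11) (nat_lit 12))
    (@En.i (nat_lit 7075) (nat_lit 10) (nat_lit 8))
    (@En.n l20558 (nat_lit 4305) (nat_lit 6) (nat_lit 5))
    (@En.n l4814 (nat_lit 10539) (nat_lit 9) (nat_lit 10))
    (@En.n l4817 (nat_lit 6829) (nat_lit 12) (nat_lit 6))
    (@En.n l8258 (nat_lit 10427) (nat_lit 15) (nat_lit 3))))
  (@Cl.mk (nat_lit 0x3000c0009000800060004000c000b00090007000400080005000d000a0007) (nat_lit 0x561005840060210) (nat_lit 16) Lb.e (@T16.mk En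
    (@En.n l25297 (nat_lit 7436) (nat_lit 0) (nat_lit 7))
    (@En.i (nat_lit 8752) (nat_lit 12) (nat_lit 10))
    (@En.n l43601 (nat_lit 10389) (nat_lit 2) (nat_lit 13))
    (@En.n l43602 (nat_lit 9056) (nat_lit 3) (nat_lit 5))
    (@En.i (nat_lit 12065) (nat_lit 4) (nat_lit 8))
    (@En.n l152 (nat_lit 9179) (nat_lit 5) (nat_lit 4))
    (@En.n l18394 (nat_lit 10137) (nat_lit 0) (nat_lit 7))
    (@En.n l14143 (nat_lit 9392) (nat_lit 1) (nat_lit 9))
    (@En.n l25061 (nat_lit 10414) (nat_lit 9) (nat_lit 11))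
    (@En.n l32345 (nat_lit 10713) (nat_lit 10) (nat_lit 12))
    (@En.n l18 (nat_lit 10144) (nat_lit 10) (nat_lit 4))
    (@En.n l14143 (nat_lit 9179) (nat_lit 0) (nat_lit 6))
    (@En.n l11609 (nat_lit 9763) (nat_lit 8) (nat_lit 8))
    (@En.n l43603 (nat_lit 9336) (nat_lit 14) (nat_lit 9))
    (@En.n l41890 (nat_lit 10308) (nat_lit 3) (nat_lit 12))
    (@En.n l7 (nat_lit 10412) (nat_lit 15) (nat_lit 3))))
  (@Cl.mk (nat_lit 0x30007000c000a000800070004000c00090006000900040008000d00090007) (nat_lit 0x47300670605410) (nat_lit 16) Lb.e (@T16.mk En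
    (@En.n l23779 (nat_lit 9612) (nat_lit 0) (nat_lit 7))
    (@En.n l11132 (nat_lit 9356) (nat_lit 13) (nat_lit 9))
    (@En.n l19621 (nat_lit 10959) (nat_lit 2) (nat_lit 13))
    (@En.n l31200 (nat_lit 10845) (nat_lit 3) (nat_lit 8))
    (@En.n l11772 (nat_lit 10389) (nat_lit 4) (nat_lit 4))
    (@En.i (nat_lit 10248) (nat_lit 9) (nat_lit 9))
    (@En.n l31201 (nat_lit 4223) (nat_lit 6) (nat_lit 6))
    (@En.n l31202 (nat_lit 10308) (nat_lit 8) (nat_lit 9))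
    (@En.n l31203 (nat_lit 10488) (nat_lit 9) (nat_lit 12))
    (@En.n l31204 (nat_lit 9943) (nat_lit 9) (nat_lit 4))
    (@En.i (nat_lit 10075) (nat_lit 9) (nat_lit 7))
    (@En.n l31205 (nat_lit 10055) (nat_lit 12) (nat_lit 8))
    (@En.n l31206 (nat_lit 10399) (nat_lit 13) (nat_lit 10))
    (@En.n l23777 (nat_lit 10179) (nat_lit 14) (nat_lit 12))
    (@En.n l22348 (nat_lit 10922) (nat_lit 12) (nat_lit 7))
    (@En.n l31207 (nat_lit 10398) (nat_lit 15) (nat_lit 3))))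
  (@Cl.mk (nat_lit 0x30007000c000a000800060004000c000a0006000900040008000d0006000a) (nat_lit 0x93300880605502) (nat_lit 16) Lb.e (@T16.mk En
    (@En.n l8772 (nat_lit 6568) (nat_lit 0) (nat_lit 10))
    (@En.n l40483 (nat_lit 10071) (nat_lit 7) (nat_lit 6))
    (@En.n l34057 (nat_lit 10958) (nat_lit 2) (nat_lit 13))
    (@En.n l152 (nat_lit 10843) (nat_lit 3) (nat_lit 8))
    (@En.n l1865 (nat_lit 10391) (nat_lit 4) (nat_lit 4))
    (@En.n l42516 (nat_lit 10247) (nat_lit 9) (nat_lit 9))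
    (@En.n l6080 (nat_lit 4225) (nat_lit 6) (nat_lit 6))
    (@En.n l42517 (nat_lit 10305) (nat_lit 8) (nat_lit 10))
    (@En.n l16979 (nat_lit 10491) (nat_lit 9) (nat_lit 12))
    (@En.n l35450 (nat_lit 9942) (nat_lit 9) (nat_lit 4))
    (@En.n l42516 (nat_lit 8129) (nat_lit 0) (nat_lit 6))
    (@En.i (nat_lit 10053) (nat_lit 12) (nat_lit 8))
    (@En.n l31318 (nat_lit 10400) (nat_lit 13) (nat_lit 10))
    (@En.n l5891 (nat_lit 10177) (nat_lit 14) (nat_lit 12))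
    (@En.i (nat_lit 10401) (nat_lit 12) (nat_lit 7))
    (@En.n l42518 (nat_lit 10397) (nat_lit 15) (nat_lit 3))))
  (@Cl.mk (nat_lit 0x30007000a00070006000c000b000800060004000900050009000d000a0008) (nat_lit 0x60025600706511) (nat_lit 16) Lb.e (@T16.mk En
    (@En.n l32526 (nat_lit 9610) (nat_lit 0) (nat_lit 8))
    (@En.n l42252 (nat_lit 9355) (nat_lit 11) (nat_lit 10))
    (@En.n l32526 (nat_lit 10960) (nat_lit 6) (nat_lit 13))
    (@En.n l29667 (nat_lit 10839) (nat_lit 3) (nat_lit 9))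
    (@En.n l34019 (nat_lit 8143) (nat_lit 4) (nat_lit 5))
    (@En.n l42253 (nat_lit 10397) (nat_lit 5) (nat_lit 9))
    (@En.n l32642 (nat_lit 9958) (nat_lit 6) (nat_lit 4))
    (@En.n l31676 (nat_lit 4236) (nat_lit 7) (nat_lit 6))
    (@En.n l39961 (nat_lit 10309) (nat_lit 1) (nat_lit 8))
    (@En.n l31678 (nat_lit 10487) (nat_lit 10) (nat_lit 11))
    (@En.n l39961 (nat_lit 10401) (nat_lit 11) (nat_lit 12))
    (@En.n l34631 (nat_lit 10074) (nat_lit 10) (nat_lit 6))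
    (@En.n l18226 (nat_lit 10496) (nat_lit 13) (nat_lit 7))
    (@En.n l25065 (nat_lit 7046) (nat_lit 8) (nat_lit 10))
    (@En.n l39774 (nat_lit 10923) (nat_lit 12) (nat_lit 7))
    (@En.n l42254 (nat_lit 10400) (nat_lit 15) (nat_lit 3))))
noncomputable def a650 : T16 Cl := @T16.mk Cl
  (@Cl.mk (nat_lit 0x30007000a00070005000c000b000900060004000900050009000d0007000b) (nat_lit 0x20047600706502) (nat_lit 16) Lb.e (@T16.mk En
    (@En.n l6444 (nat_lit 6768) (nat_lit 0) (nat_lit 11))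
    (@En.n l33044 (nat_lit 10070) (nat_lit 11) (nat_lit 7))
    (@En.n l38163 (nat_lit 10410) (nat_lit 6) (nat_lit 13))
    (@En.n l38164 (nat_lit 10838) (nat_lit 3) (nat_lit 9))
    (@En.n l19286 (nat_lit 9334) (nat_lit 4) (nat_lit 5))
    (@En.n l31653 (nat_lit 10398) (nat_lit 5) (nat_lit 9))
    (@En.n l38163 (nat_lit 9957) (nat_lit 6) (nat_lit 4))
    (@En.i (nat_lit 4227) (nat_lit 7) (nat_lit 6))
    (@En.n l30084 (nat_lit 10306) (nat_lit 1) (nat_lit 9))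
    (@En.n l38165 (nat_lit 10490) (nat_lit 10) (nat_lit 11))
    (@En.n l37915 (nat_lit 10402) (nat_lit 11) (nat_lit 12))
    (@En.n l6444 (nat_lit 9576) (nat_lit 11) (nat_lit 5))
    (@En.n l1723 (nat_lit 10497) (nat_lit 13) (nat_lit 7))
    (@En.n l38166 (nat_lit 7043) (nat_lit 8) (nat_lit 10))
    (@En.i (nat_lit 10403) (nat_lit 12) (nat_lit 7))
    (@En.n l38116 (nat_lit 10399) (nat_lit 15) (nat_lit 3))))
  (@Cl.mk (nat_lit 0x30007000b0007000c000a000700050004000b000900060009000d00050009) (nat_lit 0x10180009204502) (nat_lit 16) Lb.e (@T16.mk En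
    (@En.n l152 (nat_lit 9604) (nat_lit 0) (nat_lit 9))
    (@En.n l41954 (nat_lit 9429) (nat_lit 9) (nat_lit 5))
    (@En.i (nat_lit 9206) (nat_lit 6) (nat_lit 13))
    (@En.n l41955 (nat_lit 8744) (nat_lit 9) (nat_lit 9))
    (@En.n l4991 (nat_lit 6844) (nat_lit 4) (nat_lit 6))
    (@En.n l41956 (nat_lit 10440) (nat_lit 5) (nat_lit 9))
    (@En.n l24554 (nat_lit 9719) (nat_lit 7) (nat_lit 11))
    (@En.n l18 (nat_lit 10946) (nat_lit 7) (nat_lit 4))
    (@En.n l41955 (nat_lit 10586) (nat_lit 8) (nat_lit 5))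
    (@En.i (nat_lit 10376) (nat_lit 1) (nat_lit 7))
    (@En.n l31318 (nat_lit 10403) (nat_lit 11) (nat_lit 10))
    (@En.n l4991 (nat_lit 8731) (nat_lit 12) (nat_lit 12))
    (@En.n l29919 (nat_lit 8839) (nat_lit 13) (nat_lit 7))
    (@En.n l8772 (nat_lit 6220) (nat_lit 8) (nat_lit 11))
    (@En.n l41957 (nat_lit 10834) (nat_lit 12) (nat_lit 7))
    (@En.n l41958 (nat_lit 10402) (nat_lit 15) (nat_lit 3))))
  (@Cl.mk (nat_lit 0x30007000b0007000c000a000800050004000a000900060009000d00080006) (nat_lit 0x30386008204660) (nat_lit 16) Lb.e (@T16.mk En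
    (@En.n l42022 (nat_lit 7470) (nat_lit 0) (nat_lit 6))
    (@En.n l35151 (nat_lit 10405) (nat_lit 0) (nat_lit 8))
    (@En.n l20123 (nat_lit 10413) (nat_lit 6) (nat_lit 13))
    (@En.n l43448 (nat_lit 8741) (nat_lit 9) (nat_lit 9))
    (@En.n l43449 (nat_lit 6846) (nat_lit 4) (nat_lit 6))
    (@En.i (nat_lit 10441) (nat_lit 5) (nat_lit 9))
    (@En.n l24522 (nat_lit 9940) (nat_lit 7) (nat_lit 10))
    (@En.n l34969 (nat_lit 10948) (nat_lit 7) (nat_lit 4))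
    (@En.n l16508 (nat_lit 10583) (nat_lit 8) (nat_lit 5))
    (@En.n l43450 (nat_lit 10439) (nat_lit 1) (nat_lit 8))
    (@En.n l39418 (nat_lit 10404) (nat_lit 11) (nat_lit 10))
    (@En.n l43449 (nat_lit 9392) (nat_lit 12) (nat_lit 12))
    (@En.n l3866 (nat_lit 8837) (nat_lit 13) (nat_lit 7))
    (@En.n l43451 (nat_lit 10388) (nat_lit 8) (nat_lit 11))
    (@En.n l43452 (nat_lit 10906) (nat_lit 12) (nat_lit 7))
    (@En.n l43453 (nat_lit 10401) (nat_lit 15) (nat_lit 3))))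
  (@Cl.mk (nat_lit 0x30008000c0007000a00060004000c000a0008000600040009000d0006000a) (nat_lit 0x10700261005602) (nat_lit 16) Lb.e (@T16.mk En
    (@En.n l38415 (nat_lit 9081) (nat_lit 0) (nat_lit 10))
    (@En.n l23341 (nat_lit 9455) (nat_lit 7) (nat_lit 6))
    (@En.i (nat_lit 10185) (nat_lit 6) (nat_lit 13))
    (@En.n l31653 (nat_lit 10401) (nat_lit 3) (nat_lit 9))
    (@En.n l43057 (nat_lit 10692) (nat_lit 4) (nat_lit 4))
    (@En.i (nat_lit 6845) (nat_lit 0) (nat_lit 6))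
    (@En.n l32799 (nat_lit 9557) (nat_lit 6) (nat_lit 8))
    (@En.n l43058 (nat_lit 9718) (nat_lit 8) (nat_lit 10))
    (@En.n l33998 (nat_lit 10906) (nat_lit 9) (nat_lit 12))
    (@En.n l6444 (nat_lit 10588) (nat_lit 9) (nat_lit 4))
    (@En.n l9943 (nat_lit 4310) (nat_lit 0) (nat_lit 6))
    (@En.n l1073 (nat_lit 10223) (nat_lit 8) (nat_lit 10))
    (@En.n l43059 (nat_lit 10556) (nat_lit 13) (nat_lit 7))
    (@En.n l6444 (nat_lit 6222) (nat_lit 7) (nat_lit 12))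
    (@En.n l34008 (nat_lit 10833) (nat_lit 12) (nat_lit 8))
    (@En.n l14227 (nat_lit 10404) (nat_lit 15) (nat_lit 3))))
  (@Cl.mk (nat_lit 0x30008000c0007000a00070004000c00090008000600040009000d00090007) (nat_lit 0x530700272005640) (nat_lit 16) Lb.e (@T16.mk En
    (@En.n l42561 (nat_lit 9451) (nat_lit 0) (nat_lit 7))
    (@En.n l31774 (nat_lit 10406) (nat_lit 13) (nat_lit 9))
    (@En.n l2385 (nat_lit 10183) (nat_lit 6) (nat_lit 13))
    (@En.n l24923 (nat_lit 10402) (nat_lit 3) (nat_lit 9))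
    (@En.n l24924 (nat_lit 10693) (nat_lit 4) (nat_lit 4))
    (@En.n l42562 (nat_lit 6848) (nat_lit 0) (nat_lit 6))
    (@En.i (nat_lit 10443) (nat_lit 6) (nat_lit 8))
    (@En.n l31773 (nat_lit 9949) (nat_lit 14) (nat_lit 9))
    (@En.n l396 (nat_lit 10909) (nat_lit 9) (nat_lit 12))
    (@En.n l24925 (nat_lit 10585) (nat_lit 9) (nat_lit 4))
    (@En.n l42563 (nat_lit 11615) (nat_lit 0) (nat_lit 7))
    (@En.i (nat_lit 10222) (nat_lit 8) (nat_lit 10))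
    (@En.n l24926 (nat_lit 10554) (nat_lit 13) (nat_lit 7))
    (@En.n l31772 (nat_lit 10384) (nat_lit 7) (nat_lit 12))
    (@En.n l42564 (nat_lit 10904) (nat_lit 12) (nat_lit 8))
    (@En.n l7805 (nat_lit 10403) (nat_lit 15) (nat_lit 3))))
  (@Cl.mk (nat_lit 0x500090006000a0006000b00090008000700060005000b000a0007000a0008) (nat_lit 0x101024600072045) (nat_lit 16) Lb.e (@T16.mk En
    (@En.n l43397 (nat_lit 11934) (nat_lit 0) (nat_lit 8))
    (@En.n l43398 (nat_lit 9837) (nat_lit 8) (nat_lit 10))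
    (@En.n l43399 (nat_lit 6843) (nat_lit 2) (nat_lit 7))
    (@En.n l41958 (nat_lit 10720) (nat_lit 6) (nat_lit 10))
    (@En.n l43400 (nat_lit 9722) (nat_lit 10) (nat_lit 11))
    (@En.n l43398 (nat_lit 11070) (nat_lit 11) (nat_lit 5))
    (@En.n l43401 (nat_lit 10408) (nat_lit 10) (nat_lit 6))
    (@En.i (nat_lit 10401) (nat_lit 9) (nat_lit 7))
    (@En.n l43402 (nat_lit 10836) (nat_lit 8) (nat_lit 8))
    (@En.n l43403 (nat_lit 10406) (nat_lit 7) (nat_lit 9))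
    (@En.n l43401 (nat_lit 8752) (nat_lit 9) (nat_lit 11))
    (@En.n l43404 (nat_lit 8838) (nat_lit 5) (nat_lit 6))
    (@En.n l43405 (nat_lit 8141) (nat_lit 9) (nat_lit 10))
    (@En.n l43406 (nat_lit 11398) (nat_lit 10) (nat_lit 6))
    (@En.n l43405 (nat_lit 9080) (nat_lit 10) (nat_lit 9))
    (@En.n l43407 (nat_lit 9426) (nat_lit 15) (nat_lit 5))))
  (@Cl.mk (nat_lit 0x4000a00090006000a0007000b00060009000700060005000c000a00090007) (nat_lit 0x530101030003610) (nat_lit 16) Lb.e (@T16.mk En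
    (@En.n l18420 (nat_lit 6847) (nat_lit 0) (nat_lit 7))
    (@En.n l6752 (nat_lit 6855) (nat_lit 1) (nat_lit 9))
    (@En.n l2848 (nat_lit 9723) (nat_lit 6) (nat_lit 10))
    (@En.n l40576 (nat_lit 11055) (nat_lit 3) (nat_lit 12))
    (@En.n l41116 (nat_lit 10409) (nat_lit 11) (nat_lit 5))
    (@En.n l28169 (nat_lit 10403) (nat_lit 10) (nat_lit 6))
    (@En.n l16710 (nat_lit 12020) (nat_lit 9) (nat_lit 7))
    (@En.i (nat_lit 10219) (nat_lit 9) (nat_lit 9))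
    (@En.n l16802 (nat_lit 10555) (nat_lit 8) (nat_lit 6))
    (@En.i (nat_lit 8137) (nat_lit 8) (nat_lit 11))
    (@En.n l55 (nat_lit 11400) (nat_lit 9) (nat_lit 7))
    (@En.i (nat_lit 9079) (nat_lit 9) (nat_lit 10))
    (@En.n l41117 (nat_lit 9713) (nat_lit 3) (nat_lit 6))
    (@En.n l41118 (nat_lit 12024) (nat_lit 7) (nat_lit 9))
    (@En.n l41119 (nat_lit 10405) (nat_lit 1) (nat_lit 10))
    (@En.n l41120 (nat_lit 10275) (nat_lit 15) (nat_lit 4))))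
  (@Cl.mk (nat_lit 0x300070006000c000b000a00070004000a000500090006000a000d00060009) (nat_lit 0x7970060001a02) (nat_lit 16) Lb.e (@T16.mk En
    (@En.n l40271 (nat_lit 7047) (nat_lit 0) (nat_lit 9))
    (@En.n l2129 (nat_lit 10406) (nat_lit 8) (nat_lit 6))
    (@En.n l13804 (nat_lit 10348) (nat_lit 5) (nat_lit 13))
    (@En.i (nat_lit 6731) (nat_lit 3) (nat_lit 10))
    (@En.n l61 (nat_lit 10963) (nat_lit 4) (nat_lit 6))
    (@En.n l13804 (nat_lit 10946) (nat_lit 5) (nat_lit 9))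
    (@En.n l28286 (nat_lit 10018) (nat_lit 6) (nat_lit 5))
    (@En.n l40272 (nat_lit 10411) (nat_lit 0) (nat_lit 10))
    (@En.n l6307 (nat_lit 10694) (nat_lit 8) (nat_lit 4))
    (@En.n l13804 (nat_lit 4228) (nat_lit 0) (nat_lit 7))
    (@En.n l22951 (nat_lit 10894) (nat_lit 11) (nat_lit 10))
    (@En.n l29019 (nat_lit 12010) (nat_lit 12) (nat_lit 11))
    (@En.n l40273 (nat_lit 10408) (nat_lit 13) (nat_lit 12))
    (@En.n l6312 (nat_lit 10410) (nat_lit 14) (nat_lit 6))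
    (@En.n l9072 (nat_lit 10400) (nat_lit 12) (nat_lit 7))
    (@En.n l40274 (nat_lit 12024) (nat_lit 15) (nat_lit 3))))
  (@Cl.mk (nat_lit 0x30007000c000a000900060004000b000a0006000900070005000d0006000a) (nat_lit 0x63000600100201) (nat_lit 16) Lb.e (@T16.mk En
    (@En.n l42927 (nat_lit 8133) (nat_lit 0) (nat_lit 10))
    (@En.n l22771 (nat_lit 11055) (nat_lit 7) (nat_lit 6))
    (@En.n l42928 (nat_lit 10394) (nat_lit 2) (nat_lit 13))
    (@En.n l42929 (nat_lit 9067) (nat_lit 3) (nat_lit 5))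
    (@En.i (nat_lit 11935) (nat_lit 4) (nat_lit 7))
    (@En.n l36537 (nat_lit 9156) (nat_lit 9) (nat_lit 9))
    (@En.n l42930 (nat_lit 10133) (nat_lit 6) (nat_lit 6))
    (@En.n l42931 (nat_lit 10806) (nat_lit 6) (nat_lit 10))
    (@En.n l36539 (nat_lit 11113) (nat_lit 9) (nat_lit 11))
    (@En.n l18 (nat_lit 11813) (nat_lit 9) (nat_lit 4))
    (@En.n l42932 (nat_lit 10581) (nat_lit 0) (nat_lit 6))
    (@En.i (nat_lit 10825) (nat_lit 7) (nat_lit 9))
    (@En.n l19001 (nat_lit 10409) (nat_lit 13) (nat_lit 10))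
    (@En.i (nat_lit 10412) (nat_lit 14) (nat_lit 12))
    (@En.n l42933 (nat_lit 10402) (nat_lit 12) (nat_lit 7))
    (@En.n l42934 (nat_lit 10712) (nat_lit 15) (nat_lit 3))))
  (@Cl.mk (nat_lit 0x30007000a00080005000c000a000900060004000900080006000d0007000b) (nat_lit 0x20072000230201) (nat_lit 16) Lb.e (@T16.mk En
    (@En.n l22119 (nat_lit 8132) (nat_lit 0) (nat_lit 11))
    (@En.n l17029 (nat_lit 11054) (nat_lit 11) (nat_lit 7))
    (@En.n l32341 (nat_lit 10379) (nat_lit 2) (nat_lit 13))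
    (@En.n l32342 (nat_lit 9646) (nat_lit 3) (nat_lit 6))
    (@En.n l22119 (nat_lit 12023) (nat_lit 8) (nat_lit 8))
    (@En.i (nat_lit 10408) (nat_lit 5) (nat_lit 9))
    (@En.n l9876 (nat_lit 10698) (nat_lit 6) (nat_lit 4))
    (@En.n l22119 (nat_lit 10132) (nat_lit 7) (nat_lit 6))
    (@En.n l22773 (nat_lit 10808) (nat_lit 1) (nat_lit 9))
    (@En.n l9877 (nat_lit 11114) (nat_lit 10) (nat_lit 10))
    (@En.n l18 (nat_lit 10415) (nat_lit 11) (nat_lit 12))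
    (@En.n l32343 (nat_lit 10580) (nat_lit 12) (nat_lit 5))
    (@En.i (nat_lit 12019) (nat_lit 13) (nat_lit 8))
    (@En.n l9161 (nat_lit 9339) (nat_lit 8) (nat_lit 10))
    (@En.n l32344 (nat_lit 10404) (nat_lit 12) (nat_lit 7))
    (@En.n l32345 (nat_lit 10713) (nat_lit 15) (nat_lit 3))))
  (@Cl.mk (nat_lit 0x30006000c000b000a0006000400090005000d0006000a0003000d0007000a) (nat_lit 0x55600004020b03) (nat_lit 16) Lb.e (@T16.mk En
    (@En.n l13405 (nat_lit 7048) (nat_lit 0) (nat_lit 10))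
    (@En.n l2824 (nat_lit 10409) (nat_lit 14) (nat_lit 7))
    (@En.n l2825 (nat_lit 10407) (nat_lit 2) (nat_lit 13))
    (@En.n l28688 (nat_lit 10960) (nat_lit 3) (nat_lit 3))
    (@En.n l2815 (nat_lit 6737) (nat_lit 0) (nat_lit 10))
    (@En.n l7 (nat_lit 10962) (nat_lit 5) (nat_lit 6))
    (@En.n l2724 (nat_lit 10033) (nat_lit 7) (nat_lit 13))
    (@En.n l7 (nat_lit 10013) (nat_lit 7) (nat_lit 5))
    (@En.n l1157 (nat_lit 10958) (nat_lit 4) (nat_lit 9))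
    (@En.i (nat_lit 10696) (nat_lit 9) (nat_lit 4))
    (@En.n l5408 (nat_lit 4294) (nat_lit 0) (nat_lit 6))
    (@En.n l4380 (nat_lit 10257) (nat_lit 12) (nat_lit 10))
    (@En.n l55 (nat_lit 12009) (nat_lit 13) (nat_lit 11))
    (@En.n l34623 (nat_lit 10413) (nat_lit 14) (nat_lit 12))
    (@En.i (nat_lit 8097) (nat_lit 12) (nat_lit 6))
    (@En.n l5408 (nat_lit 12023) (nat_lit 15) (nat_lit 3))))
  (@Cl.mk (nat_lit 0x4000800050009000c0006000b00090004000800070005000c000b0007000a) (nat_lit 0x290230400a905) (nat_lit 16) Lb.e (@T16.mk En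
    (@En.n l10618 (nat_lit 10975) (nat_lit 8) (nat_lit 10))
    (@En.n l36542 (nat_lit 4226) (nat_lit 1) (nat_lit 7))
    (@En.n l24939 (nat_lit 10896) (nat_lit 5) (nat_lit 11))
    (@En.n l36543 (nat_lit 11613) (nat_lit 12) (nat_lit 12))
    (@En.n l27524 (nat_lit 10814) (nat_lit 4) (nat_lit 5))
    (@En.n l17 (nat_lit 10958) (nat_lit 9) (nat_lit 7))
    (@En.n l35812 (nat_lit 10398) (nat_lit 11) (nat_lit 8))
    (@En.n l36544 (nat_lit 11940) (nat_lit 7) (nat_lit 4))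
    (@En.n l2825 (nat_lit 10407) (nat_lit 0) (nat_lit 9))
    (@En.n l1144 (nat_lit 10229) (nat_lit 1) (nat_lit 11))
    (@En.n l35812 (nat_lit 10405) (nat_lit 11) (nat_lit 6))
    (@En.n l21557 (nat_lit 10347) (nat_lit 6) (nat_lit 12))
    (@En.n l2825 (nat_lit 6727) (nat_lit 10) (nat_lit 9))
    (@En.n l21253 (nat_lit 8563) (nat_lit 5) (nat_lit 5))
    (@En.n l36545 (nat_lit 10951) (nat_lit 11) (nat_lit 8))
    (@En.n l36546 (nat_lit 4318) (nat_lit 15) (nat_lit 4))))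
  (@Cl.mk (nat_lit 0x3000c0009000800050004000c000b000a0007000400080005000d0006000b) (nat_lit 0x521008910020202) (nat_lit 16) Lb.e (@T16.mk En
    (@En.n l8030 (nat_lit 9836) (nat_lit 0) (nat_lit 11))
    (@En.i (nat_lit 10417) (nat_lit 6) (nat_lit 6))
    (@En.n l5579 (nat_lit 10391) (nat_lit 2) (nat_lit 13))
    (@En.n l8547 (nat_lit 9055) (nat_lit 3) (nat_lit 5))
    (@En.i (nat_lit 11025) (nat_lit 4) (nat_lit 8))
    (@En.n l152 (nat_lit 9175) (nat_lit 5) (nat_lit 4))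
    (@En.n l936 (nat_lit 10134) (nat_lit 0) (nat_lit 7))
    (@En.n l2824 (nat_lit 9396) (nat_lit 1) (nat_lit 10))
    (@En.n l22465 (nat_lit 10413) (nat_lit 9) (nat_lit 11))
    (@En.i (nat_lit 10409) (nat_lit 10) (nat_lit 12))
    (@En.n l18 (nat_lit 10143) (nat_lit 12) (nat_lit 4))
    (@En.n l22467 (nat_lit 9173) (nat_lit 0) (nat_lit 5))
    (@En.i (nat_lit 9762) (nat_lit 8) (nat_lit 8))
    (@En.n l61 (nat_lit 9337) (nat_lit 14) (nat_lit 9))
    (@En.i (nat_lit 9163) (nat_lit 2) (nat_lit 12))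
    (@En.i (nat_lit 10396) (nat_lit 15) (nat_lit 3))))
  (@Cl.mk (nat_lit 0x3000c000a000900050004000b00090006000d000700050003000d0007000b) (nat_lit 0x437008305000307) (nat_lit 16) Lb.e (@T16.mk En
    (@En.n l9265 (nat_lit 10241) (nat_lit 0) (nat_lit 11))
    (@En.n l15677 (nat_lit 10415) (nat_lit 14) (nat_lit 7))
    (@En.n l18910 (nat_lit 10408) (nat_lit 2) (nat_lit 13))
    (@En.n l21124 (nat_lit 9206) (nat_lit 3) (nat_lit 3))
    (@En.n l43110 (nat_lit 9062) (nat_lit 0) (nat_lit 5))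
    (@En.n l43111 (nat_lit 10419) (nat_lit 5) (nat_lit 7))
    (@En.n l38771 (nat_lit 10426) (nat_lit 2) (nat_lit 13))
    (@En.n l43112 (nat_lit 10136) (nat_lit 7) (nat_lit 6))
    (@En.n l9309 (nat_lit 9203) (nat_lit 4) (nat_lit 9))
    (@En.n l25580 (nat_lit 11112) (nat_lit 10) (nat_lit 11))
    (@En.n l7 (nat_lit 11830) (nat_lit 12) (nat_lit 4))
    (@En.n l12503 (nat_lit 10293) (nat_lit 0) (nat_lit 5))
    (@En.n l21124 (nat_lit 9086) (nat_lit 7) (nat_lit 9))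
    (@En.n l644 (nat_lit 10183) (nat_lit 14) (nat_lit 10))
    (@En.n l32968 (nat_lit 9164) (nat_lit 11) (nat_lit 12))
    (@En.n l20276 (nat_lit 10414) (nat_lit 15) (nat_lit 3))))
  (@Cl.mk (nat_lit 0x3000c000a000900060004000b00080006000d000700050003000d000a0008) (nat_lit 0x677007305000310) (nat_lit 16) Lb.e (@T16.mk En
    (@En.i (nat_lit 11248) (nat_lit 0) (nat_lit 8))
    (@En.n l28018 (nat_lit 8750) (nat_lit 14) (nat_lit 10))
    (@En.i (nat_lit 10712) (nat_lit 2) (nat_lit 13))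
    (@En.n l43103 (nat_lit 9207) (nat_lit 3) (nat_lit 3))
    (@En.n l20989 (nat_lit 9061) (nat_lit 0) (nat_lit 5))
    (@En.n l18636 (nat_lit 10418) (nat_lit 5) (nat_lit 7))
    (@En.n l5937 (nat_lit 10387) (nat_lit 2) (nat_lit 13))
    (@En.n l39709 (nat_lit 10139) (nat_lit 7) (nat_lit 6))
    (@En.n l15989 (nat_lit 10412) (nat_lit 4) (nat_lit 8))
    (@En.n l287 (nat_lit 11116) (nat_lit 10) (nat_lit 11))
    (@En.n l41312 (nat_lit 11831) (nat_lit 10) (nat_lit 4))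
    (@En.n l43104 (nat_lit 9198) (nat_lit 0) (nat_lit 6))
    (@En.n l16078 (nat_lit 9092) (nat_lit 7) (nat_lit 9))
    (@En.n l43105 (nat_lit 10184) (nat_lit 14) (nat_lit 10))
    (@En.n l43106 (nat_lit 10309) (nat_lit 11) (nat_lit 12))
    (@En.n l30866 (nat_lit 10413) (nat_lit 15) (nat_lit 3))))
  (@Cl.mk (nat_lit 0x30007000b0008000c0009000800050004000a000900080007000d00080006) (nat_lit 0x30665003340610) (nat_lit 16) Lb.e (@T16.mk En
    (@En.n l41930 (nat_lit 11304) (nat_lit 0) (nat_lit 6))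
    (@En.n l41931 (nat_lit 8012) (nat_lit 0) (nat_lit 8))
    (@En.n l41932 (nat_lit 9814) (nat_lit 2) (nat_lit 13))
    (@En.n l20334 (nat_lit 12430) (nat_lit 3) (nat_lit 7))
    (@En.n l38120 (nat_lit 10414) (nat_lit 8) (nat_lit 8))
    (@En.i (nat_lit 10141) (nat_lit 5) (nat_lit 9))
    (@En.n l27735 (nat_lit 11077) (nat_lit 7) (nat_lit 10))
    (@En.n l41933 (nat_lit 10421) (nat_lit 7) (nat_lit 4))
    (@En.n l41934 (nat_lit 11820) (nat_lit 8) (nat_lit 5))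
    (@En.n l41935 (nat_lit 10458) (nat_lit 8) (nat_lit 8))
    (@En.n l41936 (nat_lit 10424) (nat_lit 11) (nat_lit 9))
    (@En.n l41932 (nat_lit 10253) (nat_lit 12) (nat_lit 12))
    (@En.i (nat_lit 11242) (nat_lit 13) (nat_lit 8))
    (@En.n l32094 (nat_lit 10721) (nat_lit 8) (nat_lit 11))
    (@En.n l41937 (nat_lit 10909) (nat_lit 12) (nat_lit 7))
    (@En.n l41938 (nat_lit 10416) (nat_lit 15) (nat_lit 3))))
noncomputable def a651 : T16 Cl := @T16.mk Cl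
  (@Cl.mk (nat_lit 0x30007000b0008000c0009000700050004000b000900080007000d00050009) (nat_lit 0x40360007310601) (nat_lit 16) Lb.e (@T16.mk En
    (@En.n l152 (nat_lit 5289) (nat_lit 0) (nat_lit 9))
    (@En.n l1992 (nat_lit 10417) (nat_lit 9) (nat_lit 5))
    (@En.n l42798 (nat_lit 9813) (nat_lit 2) (nat_lit 13))
    (@En.n l20652 (nat_lit 11825) (nat_lit 3) (nat_lit 7))
    (@En.n l27243 (nat_lit 9207) (nat_lit 8) (nat_lit 8))
    (@En.n l42799 (nat_lit 10140) (nat_lit 5) (nat_lit 9))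
    (@En.n l16978 (nat_lit 11078) (nat_lit 7) (nat_lit 11))
    (@En.n l18 (nat_lit 11792) (nat_lit 7) (nat_lit 4))
    (@En.n l42356 (nat_lit 11819) (nat_lit 8) (nat_lit 5))
    (@En.i (nat_lit 7081) (nat_lit 1) (nat_lit 7))
    (@En.n l42800 (nat_lit 11302) (nat_lit 11) (nat_lit 9))
    (@En.n l42798 (nat_lit 10252) (nat_lit 12) (nat_lit 12))
    (@En.n l42801 (nat_lit 11245) (nat_lit 13) (nat_lit 8))
    (@En.n l42798 (nat_lit 6854) (nat_lit 8) (nat_lit 11))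
    (@En.n l42802 (nat_lit 10836) (nat_lit 12) (nat_lit 7))
    (@En.n l41588 (nat_lit 10415) (nat_lit 15) (nat_lit 3))))
  (@Cl.mk (nat_lit 0x4000b000a000a000900080005000900060006000b0007000c000800070005) (nat_lit 0x942550500501600) (nat_lit 16) Lb.e (@T16.mk En
    (@En.n l13911 (nat_lit 11896) (nat_lit 0) (nat_lit 5))
    (@En.i (nat_lit 9998) (nat_lit 9) (nat_lit 7))
    (@En.n l61 (nat_lit 9342) (nat_lit 1) (nat_lit 8))
    (@En.n l29128 (nat_lit 5594) (nat_lit 2) (nat_lit 12))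
    (@En.n l40703 (nat_lit 6527) (nat_lit 4) (nat_lit 7))
    (@En.n l30130 (nat_lit 10275) (nat_lit 9) (nat_lit 11))
    (@En.n l32618 (nat_lit 11036) (nat_lit 10) (nat_lit 6))
    (@En.n l21634 (nat_lit 10284) (nat_lit 7) (nat_lit 6))
    (@En.i (nat_lit 11562) (nat_lit 10) (nat_lit 9))
    (@En.n l4976 (nat_lit 11043) (nat_lit 9) (nat_lit 5))
    (@En.n l40704 (nat_lit 11806) (nat_lit 8) (nat_lit 8))
    (@En.n l77 (nat_lit 10396) (nat_lit 7) (nat_lit 9))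
    (@En.n l2824 (nat_lit 11050) (nat_lit 6) (nat_lit 10))
    (@En.n l27621 (nat_lit 10415) (nat_lit 6) (nat_lit 10))
    (@En.n l17029 (nat_lit 11054) (nat_lit 4) (nat_lit 11))
    (@En.n l18 (nat_lit 11581) (nat_lit 12) (nat_lit 4))))
  (@Cl.mk (nat_lit 0x3000b00090009000800070005000c00090007000700040008000d00090007) (nat_lit 0x834600760001450) (nat_lit 16) Lb.e (@T16.mk En
    (@En.n l25192 (nat_lit 8016) (nat_lit 0) (nat_lit 7))
    (@En.n l34182 (nat_lit 11350) (nat_lit 13) (nat_lit 9))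
    (@En.n l25192 (nat_lit 11936) (nat_lit 2) (nat_lit 13))
    (@En.n l34183 (nat_lit 68) (nat_lit 3) (nat_lit 8))
    (@En.n l30719 (nat_lit 11790) (nat_lit 4) (nat_lit 4))
    (@En.n l34184 (nat_lit 11038) (nat_lit 9) (nat_lit 7))
    (@En.n l34185 (nat_lit 10421) (nat_lit 1) (nat_lit 7))
    (@En.n l34186 (nat_lit 10417) (nat_lit 8) (nat_lit 9))
    (@En.n l34187 (nat_lit 12159) (nat_lit 9) (nat_lit 12))
    (@En.n l27804 (nat_lit 11835) (nat_lit 9) (nat_lit 5))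
    (@En.n l18318 (nat_lit 11810) (nat_lit 9) (nat_lit 7))
    (@En.n l34182 (nat_lit 9207) (nat_lit 12) (nat_lit 8))
    (@En.n l152 (nat_lit 11899) (nat_lit 7) (nat_lit 9))
    (@En.n l30719 (nat_lit 10420) (nat_lit 14) (nat_lit 9))
    (@En.n l34188 (nat_lit 11609) (nat_lit 10) (nat_lit 11))
    (@En.n l34189 (nat_lit 10419) (nat_lit 15) (nat_lit 3))))
  (@Cl.mk (nat_lit 0x3000b00090009000800060005000c000a0007000700040008000d0006000a) (nat_lit 0x840300840003502) (nat_lit 16) Lb.e (@T16.mk En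
    (@En.n l8772 (nat_lit 6481) (nat_lit 0) (nat_lit 10))
    (@En.n l36505 (nat_lit 8012) (nat_lit 13) (nat_lit 6))
    (@En.n l29288 (nat_lit 11935) (nat_lit 2) (nat_lit 13))
    (@En.n l4976 (nat_lit 6449) (nat_lit 3) (nat_lit 8))
    (@En.n l1992 (nat_lit 11789) (nat_lit 4) (nat_lit 4))
    (@En.n l36506 (nat_lit 11041) (nat_lit 9) (nat_lit 7))
    (@En.n l6080 (nat_lit 10423) (nat_lit 1) (nat_lit 7))
    (@En.n l12743 (nat_lit 10280) (nat_lit 6) (nat_lit 10))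
    (@En.n l36507 (nat_lit 10046) (nat_lit 9) (nat_lit 12))
    (@En.n l36508 (nat_lit 11834) (nat_lit 11) (nat_lit 5))
    (@En.n l36509 (nat_lit 12684) (nat_lit 10) (nat_lit 6))
    (@En.i (nat_lit 9206) (nat_lit 12) (nat_lit 8))
    (@En.n l1154 (nat_lit 11900) (nat_lit 7) (nat_lit 9))
    (@En.n l31318 (nat_lit 10425) (nat_lit 14) (nat_lit 9))
    (@En.n l29442 (nat_lit 11744) (nat_lit 10) (nat_lit 11))
    (@En.n l15710 (nat_lit 10418) (nat_lit 15) (nat_lit 3))))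
  (@Cl.mk (nat_lit 0x30009000800070006000c000b000800070004000800050009000d000a0008) (nat_lit 0x260084200505543) (nat_lit 16) Lb.e (@T16.mk En
    (@En.n l19309 (nat_lit 11574) (nat_lit 0) (nat_lit 8))
    (@En.n l30784 (nat_lit 11294) (nat_lit 11) (nat_lit 10))
    (@En.n l42589 (nat_lit 12022) (nat_lit 6) (nat_lit 13))
    (@En.n l42590 (nat_lit 11420) (nat_lit 3) (nat_lit 9))
    (@En.i (nat_lit 7088) (nat_lit 4) (nat_lit 5))
    (@En.n l42591 (nat_lit 12214) (nat_lit 5) (nat_lit 8))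
    (@En.n l8776 (nat_lit 10705) (nat_lit 6) (nat_lit 4))
    (@En.n l17 (nat_lit 10457) (nat_lit 0) (nat_lit 7))
    (@En.n l42592 (nat_lit 10415) (nat_lit 1) (nat_lit 8))
    (@En.n l31300 (nat_lit 11981) (nat_lit 5) (nat_lit 11))
    (@En.n l17680 (nat_lit 10922) (nat_lit 11) (nat_lit 12))
    (@En.n l42593 (nat_lit 9734) (nat_lit 10) (nat_lit 6))
    (@En.n l42594 (nat_lit 10186) (nat_lit 13) (nat_lit 7))
    (@En.n l42592 (nat_lit 11825) (nat_lit 8) (nat_lit 8))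
    (@En.n l42595 (nat_lit 9374) (nat_lit 8) (nat_lit 9))
    (@En.n l42596 (nat_lit 10425) (nat_lit 15) (nat_lit 3))))
  (@Cl.mk (nat_lit 0x30007000d0008000c0003000a00090004000a000900080006000d00070006) (nat_lit 0x72505300250400) (nat_lit 16) Lb.e (@T16.mk En
    (@En.n l21125 (nat_lit 11299) (nat_lit 0) (nat_lit 6))
    (@En.n l42582 (nat_lit 11288) (nat_lit 6) (nat_lit 7))
    (@En.n l8770 (nat_lit 10666) (nat_lit 8) (nat_lit 13))
    (@En.n l42583 (nat_lit 12436) (nat_lit 3) (nat_lit 6))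
    (@En.n l575 (nat_lit 11831) (nat_lit 8) (nat_lit 8))
    (@En.n l41702 (nat_lit 10138) (nat_lit 5) (nat_lit 9))
    (@En.n l42584 (nat_lit 11896) (nat_lit 12) (nat_lit 10))
    (@En.n l42585 (nat_lit 10422) (nat_lit 7) (nat_lit 4))
    (@En.n l21124 (nat_lit 10457) (nat_lit 7) (nat_lit 9))
    (@En.n l2763 (nat_lit 10366) (nat_lit 10) (nat_lit 10))
    (@En.n l4427 (nat_lit 10423) (nat_lit 10) (nat_lit 3))
    (@En.n l42586 (nat_lit 10248) (nat_lit 0) (nat_lit 12))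
    (@En.n l41702 (nat_lit 11322) (nat_lit 13) (nat_lit 8))
    (@En.n l42587 (nat_lit 10628) (nat_lit 2) (nat_lit 13))
    (@En.n l42588 (nat_lit 11420) (nat_lit 12) (nat_lit 7))
    (@En.n l21124 (nat_lit 11792) (nat_lit 15) (nat_lit 3))))
  (@Cl.mk (nat_lit 0x30007000c0008000c00070004000b0004000a000900080005000d00090006) (nat_lit 0x46800205540360) (nat_lit 16) Lb.e (@T16.mk En
    (@En.n l32504 (nat_lit 11303) (nat_lit 0) (nat_lit 6))
    (@En.n l32505 (nat_lit 8013) (nat_lit 14) (nat_lit 9))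
    (@En.n l32506 (nat_lit 10086) (nat_lit 2) (nat_lit 13))
    (@En.n l28285 (nat_lit 12441) (nat_lit 3) (nat_lit 5))
    (@En.n l32507 (nat_lit 9201) (nat_lit 8) (nat_lit 8))
    (@En.i (nat_lit 11797) (nat_lit 5) (nat_lit 9))
    (@En.n l32508 (nat_lit 11901) (nat_lit 7) (nat_lit 10))
    (@En.n l1992 (nat_lit 10415) (nat_lit 7) (nat_lit 4))
    (@En.n l619 (nat_lit 10361) (nat_lit 9) (nat_lit 11))
    (@En.n l18945 (nat_lit 11818) (nat_lit 9) (nat_lit 4))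
    (@En.n l32509 (nat_lit 10418) (nat_lit 0) (nat_lit 7))
    (@En.n l32510 (nat_lit 12025) (nat_lit 7) (nat_lit 12))
    (@En.i (nat_lit 9934) (nat_lit 13) (nat_lit 8))
    (@En.n l32511 (nat_lit 10154) (nat_lit 14) (nat_lit 12))
    (@En.n l32512 (nat_lit 10704) (nat_lit 12) (nat_lit 7))
    (@En.n l32513 (nat_lit 11794) (nat_lit 15) (nat_lit 3))))
  (@Cl.mk (nat_lit 0x30007000d000b00090003000a00090005000a000900070006000d00070006) (nat_lit 0x74308300200a00) (nat_lit 16) Lb.e (@T16.mk En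
    (@En.n l20447 (nat_lit 11296) (nat_lit 0) (nat_lit 6))
    (@En.n l38623 (nat_lit 11286) (nat_lit 6) (nat_lit 7))
    (@En.n l41382 (nat_lit 10664) (nat_lit 8) (nat_lit 13))
    (@En.n l3535 (nat_lit 12437) (nat_lit 3) (nat_lit 6))
    (@En.n l8768 (nat_lit 11832) (nat_lit 4) (nat_lit 7))
    (@En.i (nat_lit 10135) (nat_lit 5) (nat_lit 9))
    (@En.n l41383 (nat_lit 11821) (nat_lit 12) (nat_lit 10))
    (@En.n l936 (nat_lit 11816) (nat_lit 7) (nat_lit 5))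
    (@En.n l870 (nat_lit 10463) (nat_lit 7) (nat_lit 9))
    (@En.n l617 (nat_lit 11673) (nat_lit 10) (nat_lit 10))
    (@En.n l13784 (nat_lit 10421) (nat_lit 10) (nat_lit 3))
    (@En.n l18153 (nat_lit 6485) (nat_lit 0) (nat_lit 9))
    (@En.n l3518 (nat_lit 10415) (nat_lit 13) (nat_lit 11))
    (@En.n l29256 (nat_lit 10624) (nat_lit 2) (nat_lit 13))
    (@En.n l41384 (nat_lit 10956) (nat_lit 12) (nat_lit 7))
    (@En.n l11547 (nat_lit 11791) (nat_lit 15) (nat_lit 3))))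
  (@Cl.mk (nat_lit 0x30008000c0009000900070004000b00090008000700070005000d00090007) (nat_lit 0x133500276000420) (nat_lit 16) Lb.e (@T16.mk En
    (@En.n l42523 (nat_lit 6015) (nat_lit 0) (nat_lit 7))
    (@En.n l42524 (nat_lit 8012) (nat_lit 14) (nat_lit 9))
    (@En.n l36993 (nat_lit 10520) (nat_lit 2) (nat_lit 13))
    (@En.n l42525 (nat_lit 10422) (nat_lit 3) (nat_lit 5))
    (@En.n l42526 (nat_lit 12793) (nat_lit 9) (nat_lit 7))
    (@En.n l42527 (nat_lit 10184) (nat_lit 9) (nat_lit 7))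
    (@En.n l5294 (nat_lit 11851) (nat_lit 6) (nat_lit 8))
    (@En.n l42528 (nat_lit 12722) (nat_lit 7) (nat_lit 9))
    (@En.n l17170 (nat_lit 10862) (nat_lit 9) (nat_lit 11))
    (@En.n l42524 (nat_lit 11298) (nat_lit 9) (nat_lit 4))
    (@En.n l21012 (nat_lit 10705) (nat_lit 0) (nat_lit 7))
    (@En.n l42529 (nat_lit 11297) (nat_lit 7) (nat_lit 9))
    (@En.n l42530 (nat_lit 11286) (nat_lit 13) (nat_lit 9))
    (@En.n l42524 (nat_lit 10928) (nat_lit 7) (nat_lit 12))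
    (@En.n l42531 (nat_lit 73) (nat_lit 4) (nat_lit 8))
    (@En.n l42532 (nat_lit 11302) (nat_lit 15) (nat_lit 3))))
  (@Cl.mk (nat_lit 0x30009000800070005000c000b000900070004000800050009000d0007000b) (nat_lit 0x360084700503503) (nat_lit 16) Lb.e (@T16.mk En
    (@En.n l6444 (nat_lit 6190) (nat_lit 0) (nat_lit 11))
    (@En.n l7658 (nat_lit 8012) (nat_lit 11) (nat_lit 7))
    (@En.n l4316 (nat_lit 12023) (nat_lit 6) (nat_lit 13))
    (@En.n l16992 (nat_lit 10955) (nat_lit 3) (nat_lit 9))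
    (@En.n l41775 (nat_lit 7089) (nat_lit 4) (nat_lit 5))
    (@En.n l40659 (nat_lit 12213) (nat_lit 5) (nat_lit 8))
    (@En.n l41776 (nat_lit 10703) (nat_lit 6) (nat_lit 4))
    (@En.i (nat_lit 10463) (nat_lit 0) (nat_lit 7))
    (@En.n l16992 (nat_lit 10422) (nat_lit 1) (nat_lit 9))
    (@En.n l33927 (nat_lit 11983) (nat_lit 5) (nat_lit 11))
    (@En.n l31411 (nat_lit 10920) (nat_lit 11) (nat_lit 12))
    (@En.n l41777 (nat_lit 9730) (nat_lit 11) (nat_lit 5))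
    (@En.i (nat_lit 10185) (nat_lit 13) (nat_lit 7))
    (@En.n l16992 (nat_lit 12428) (nat_lit 8) (nat_lit 8))
    (@En.n l18 (nat_lit 10498) (nat_lit 2) (nat_lit 9))
    (@En.n l41778 (nat_lit 10420) (nat_lit 15) (nat_lit 3))))
  (@Cl.mk (nat_lit 0x3000a000d0007000b0003000c0006000a00050004000c0009000d00060004) (nat_lit 0x6a05010100a1400) (nat_lit 16) Lb.e (@T16.mk En
    (@En.n l18 (nat_lit 8098) (nat_lit 0) (nat_lit 4))
    (@En.n l40787 (nat_lit 6223) (nat_lit 0) (nat_lit 6))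
    (@En.i (nat_lit 7330) (nat_lit 1) (nat_lit 13))
    (@En.n l61 (nat_lit 9951) (nat_lit 3) (nat_lit 9))
    (@En.n l40788 (nat_lit 11105) (nat_lit 10) (nat_lit 12))
    (@En.i (nat_lit 7615) (nat_lit 12) (nat_lit 4))
    (@En.n l22633 (nat_lit 10438) (nat_lit 6) (nat_lit 5))
    (@En.n l19415 (nat_lit 8699) (nat_lit 1) (nat_lit 10))
    (@En.n l38107 (nat_lit 10427) (nat_lit 14) (nat_lit 6))
    (@En.n l27664 (nat_lit 7081) (nat_lit 10) (nat_lit 12))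
    (@En.n l19273 (nat_lit 10387) (nat_lit 10) (nat_lit 3))
    (@En.n l22633 (nat_lit 8711) (nat_lit 0) (nat_lit 11))
    (@En.n l21465 (nat_lit 9814) (nat_lit 13) (nat_lit 7))
    (@En.n l2038 (nat_lit 8739) (nat_lit 5) (nat_lit 13))
    (@En.i (nat_lit 8628) (nat_lit 3) (nat_lit 10))
    (@En.n l40789 (nat_lit 6225) (nat_lit 13) (nat_lit 3))))
  (@Cl.mk (nat_lit 0x30006000a00040008000c0008000d000600040003000a0008000d0008000c) (nat_lit 0x802a1300066b16) (nat_lit 16) Lb.e (@T16.mk En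
    (@En.n l2038 (nat_lit 8709) (nat_lit 0) (nat_lit 12))
    (@En.n l30683 (nat_lit 10054) (nat_lit 12) (nat_lit 8))
    (@En.n l33656 (nat_lit 10426) (nat_lit 13) (nat_lit 13))
    (@En.n l22628 (nat_lit 10429) (nat_lit 14) (nat_lit 8))
    (@En.n l33473 (nat_lit 8632) (nat_lit 4) (nat_lit 10))
    (@En.n l41983 (nat_lit 10428) (nat_lit 5) (nat_lit 3))
    (@En.i (nat_lit 8099) (nat_lit 0) (nat_lit 4))
    (@En.i (nat_lit 6224) (nat_lit 7) (nat_lit 6))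
    (@En.n l8012 (nat_lit 7417) (nat_lit 1) (nat_lit 13))
    (@En.n l11010 (nat_lit 9953) (nat_lit 3) (nat_lit 8))
    (@En.i (nat_lit 11104) (nat_lit 11) (nat_lit 12))
    (@En.n l41984 (nat_lit 5538) (nat_lit 11) (nat_lit 8))
    (@En.n l41985 (nat_lit 10439) (nat_lit 6) (nat_lit 4))
    (@En.n l23409 (nat_lit 10327) (nat_lit 0) (nat_lit 10))
    (@En.n l27662 (nat_lit 11006) (nat_lit 12) (nat_lit 6))
    (@En.n l6822 (nat_lit 10395) (nat_lit 15) (nat_lit 3))))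
  (@Cl.mk (nat_lit 0x30006000900040008000d0008000d000300070003000a0008000d0008000c) (nat_lit 0x402b130007693a) (nat_lit 16) Lb.e (@T16.mk En
    (@En.n l9530 (nat_lit 8157) (nat_lit 0) (nat_lit 12))
    (@En.i (nat_lit 10515) (nat_lit 12) (nat_lit 8))
    (@En.n l10862 (nat_lit 6225) (nat_lit 11) (nat_lit 13))
    (@En.n l19470 (nat_lit 10430) (nat_lit 12) (nat_lit 8))
    (@En.n l38347 (nat_lit 6224) (nat_lit 4) (nat_lit 10))
    (@En.n l38348 (nat_lit 10427) (nat_lit 5) (nat_lit 3))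
    (@En.n l12583 (nat_lit 5422) (nat_lit 0) (nat_lit 7))
    (@En.n l38349 (nat_lit 6221) (nat_lit 7) (nat_lit 3))
    (@En.n l12583 (nat_lit 7425) (nat_lit 0) (nat_lit 13))
    (@En.n l27092 (nat_lit 9954) (nat_lit 3) (nat_lit 8))
    (@En.n l38348 (nat_lit 12011) (nat_lit 11) (nat_lit 13))
    (@En.n l13673 (nat_lit 5534) (nat_lit 11) (nat_lit 8))
    (@En.n l10862 (nat_lit 10486) (nat_lit 4) (nat_lit 4))
    (@En.n l12583 (nat_lit 12125) (nat_lit 9) (nat_lit 9))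
    (@En.n l38350 (nat_lit 11004) (nat_lit 12) (nat_lit 6))
    (@En.n l38351 (nat_lit 10381) (nat_lit 15) (nat_lit 3))))
  (@Cl.mk (nat_lit 0x30008000d0007000c0003000c0009000400080004000c0009000d00070004) (nat_lit 0x590207303081100) (nat_lit 16) Lb.e (@T16.mk En
    (@En.n l18 (nat_lit 8095) (nat_lit 0) (nat_lit 4))
    (@En.n l11245 (nat_lit 10069) (nat_lit 0) (nat_lit 7))
    (@En.i (nat_lit 3043) (nat_lit 1) (nat_lit 13))
    (@En.n l61 (nat_lit 9957) (nat_lit 3) (nat_lit 9))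
    (@En.n l21509 (nat_lit 10561) (nat_lit 10) (nat_lit 12))
    (@En.n l7 (nat_lit 10426) (nat_lit 5) (nat_lit 4))
    (@En.i (nat_lit 3929) (nat_lit 11) (nat_lit 8))
    (@En.n l39404 (nat_lit 10437) (nat_lit 7) (nat_lit 4))
    (@En.i (nat_lit 12131) (nat_lit 0) (nat_lit 9))
    (@En.n l3528 (nat_lit 10458) (nat_lit 1) (nat_lit 12))
    (@En.n l41495 (nat_lit 10431) (nat_lit 10) (nat_lit 3))
    (@En.n l22886 (nat_lit 9155) (nat_lit 0) (nat_lit 12))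
    (@En.i (nat_lit 10086) (nat_lit 13) (nat_lit 7))
    (@En.n l619 (nat_lit 8735) (nat_lit 2) (nat_lit 13))
    (@En.n l33196 (nat_lit 10710) (nat_lit 3) (nat_lit 8))
    (@En.n l3519 (nat_lit 10430) (nat_lit 13) (nat_lit 3))))
  (@Cl.mk (nat_lit 0x3000800030008000d0007000c0003000c0008000400080004000d0009000d) (nat_lit 0x205b02054030112) (nat_lit 16) Lb.e (@T16.mk En
    (@En.i (nat_lit 4197) (nat_lit 0) (nat_lit 13))
    (@En.i (nat_lit 9958) (nat_lit 3) (nat_lit 9))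
    (@En.i (nat_lit 53) (nat_lit 2) (nat_lit 13))
    (@En.n l3348 (nat_lit 6225) (nat_lit 3) (nat_lit 4))
    (@En.n l11416 (nat_lit 3922) (nat_lit 11) (nat_lit 8))
    (@En.n l34071 (nat_lit 10436) (nat_lit 7) (nat_lit 4))
    (@En.n l61 (nat_lit 12148) (nat_lit 0) (nat_lit 8))
    (@En.n l3749 (nat_lit 10457) (nat_lit 1) (nat_lit 12))
    (@En.i (nat_lit 10432) (nat_lit 8) (nat_lit 3))
    (@En.n l3348 (nat_lit 9154) (nat_lit 0) (nat_lit 12))
    (@En.i (nat_lit 10087) (nat_lit 13) (nat_lit 7))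
    (@En.n l15647 (nat_lit 8737) (nat_lit 12) (nat_lit 13))
    (@En.n l20092 (nat_lit 10215) (nat_lit 13) (nat_lit 8))
    (@En.n l2832 (nat_lit 10429) (nat_lit 15) (nat_lit 3))
    (@En.n l3098 (nat_lit 9512) (nat_lit 0) (nat_lit 8))
    (@En.n l5385 (nat_lit 10433) (nat_lit 15) (nat_lit 3))))
  (@Cl.mk (nat_lit 0x30008000d000b00080003000c0009000500080004000c0008000d00070004) (nat_lit 0x5a8207603066100) (nat_lit 16) Lb.e (@T16.mk En
    (@En.n l13182 (nat_lit 8096) (nat_lit 0) (nat_lit 4))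
    (@En.i (nat_lit 10067) (nat_lit 0) (nat_lit 7))
    (@En.n l41143 (nat_lit 3039) (nat_lit 1) (nat_lit 13))
    (@En.n l41144 (nat_lit 10398) (nat_lit 3) (nat_lit 8))
    (@En.n l12438 (nat_lit 10027) (nat_lit 10) (nat_lit 12))
    (@En.n l9138 (nat_lit 10387) (nat_lit 5) (nat_lit 4))
    (@En.i (nat_lit 7109) (nat_lit 10) (nat_lit 8))
    (@En.n l17769 (nat_lit 4297) (nat_lit 7) (nat_lit 5))
    (@En.n l41145 (nat_lit 12154) (nat_lit 14) (nat_lit 9))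
    (@En.n l41146 (nat_lit 10439) (nat_lit 10) (nat_lit 12))
    (@En.n l15827 (nat_lit 10429) (nat_lit 10) (nat_lit 3))
    (@En.n l41144 (nat_lit 10050) (nat_lit 0) (nat_lit 8))
    (@En.n l41147 (nat_lit 10434) (nat_lit 13) (nat_lit 11))
    (@En.n l24726 (nat_lit 8736) (nat_lit 2) (nat_lit 13))
    (@En.n l2588 (nat_lit 10709) (nat_lit 3) (nat_lit 8))
    (@En.n l41148 (nat_lit 10432) (nat_lit 13) (nat_lit 3))))
noncomputable def a652 : T16 Cl := @T16.mk Cl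
  (@Cl.mk (nat_lit 0x3000800030008000d000b00080003000c0008000500080004000d0008000d) (nat_lit 0x105a52056030762) (nat_lit 16) Lb.e (@T16.mk En
    (@En.i (nat_lit 3041) (nat_lit 0) (nat_lit 13))
    (@En.n l34695 (nat_lit 10397) (nat_lit 3) (nat_lit 8))
    (@En.n l7264 (nat_lit 10560) (nat_lit 2) (nat_lit 13))
    (@En.n l4806 (nat_lit 10385) (nat_lit 3) (nat_lit 4))
    (@En.n l9453 (nat_lit 3925) (nat_lit 10) (nat_lit 8))
    (@En.n l34071 (nat_lit 4300) (nat_lit 7) (nat_lit 5))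
    (@En.n l61 (nat_lit 12149) (nat_lit 14) (nat_lit 8))
    (@En.n l6840 (nat_lit 10486) (nat_lit 8) (nat_lit 12))
    (@En.n l7 (nat_lit 10430) (nat_lit 8) (nat_lit 3))
    (@En.n l4806 (nat_lit 10051) (nat_lit 0) (nat_lit 8))
    (@En.n l5911 (nat_lit 10435) (nat_lit 13) (nat_lit 11))
    (@En.n l34071 (nat_lit 8738) (nat_lit 12) (nat_lit 13))
    (@En.n l20091 (nat_lit 10213) (nat_lit 13) (nat_lit 8))
    (@En.n l38502 (nat_lit 10431) (nat_lit 15) (nat_lit 3))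
    (@En.n l12333 (nat_lit 9513) (nat_lit 0) (nat_lit 8))
    (@En.n l38503 (nat_lit 10075) (nat_lit 15) (nat_lit 3))))
  (@Cl.mk (nat_lit 0x3000800040008000d0006000c0003000c0008000400080004000d000c000a) (nat_lit 0x204902041030b96) (nat_lit 16) Lb.e (@T16.mk En
    (@En.n l22963 (nat_lit 9352) (nat_lit 0) (nat_lit 10))
    (@En.n l1236 (nat_lit 10429) (nat_lit 4) (nat_lit 12))
    (@En.n l8047 (nat_lit 10560) (nat_lit 10) (nat_lit 13))
    (@En.n l25054 (nat_lit 6222) (nat_lit 3) (nat_lit 4))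
    (@En.i (nat_lit 5527) (nat_lit 11) (nat_lit 8))
    (@En.n l16532 (nat_lit 10482) (nat_lit 5) (nat_lit 4))
    (@En.n l5653 (nat_lit 8249) (nat_lit 0) (nat_lit 8))
    (@En.n l15662 (nat_lit 10463) (nat_lit 1) (nat_lit 12))
    (@En.n l30903 (nat_lit 10075) (nat_lit 8) (nat_lit 3))
    (@En.n l28 (nat_lit 9153) (nat_lit 0) (nat_lit 12))
    (@En.i (nat_lit 9715) (nat_lit 4) (nat_lit 6))
    (@En.n l77 (nat_lit 8640) (nat_lit 12) (nat_lit 13))
    (@En.n l8052 (nat_lit 10468) (nat_lit 13) (nat_lit 8))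
    (@En.n l345 (nat_lit 9575) (nat_lit 4) (nat_lit 4))
    (@En.i (nat_lit 10061) (nat_lit 0) (nat_lit 8))
    (@En.n l1798 (nat_lit 10430) (nat_lit 15) (nat_lit 3))))
  (@Cl.mk (nat_lit 0x30008000b0007000c000b00080005000400080005000c0009000d00080004) (nat_lit 0x570365004077130) (nat_lit 16) Lb.e (@T16.mk En
    (@En.n l42087 (nat_lit 8097) (nat_lit 0) (nat_lit 4))
    (@En.n l61 (nat_lit 10065) (nat_lit 0) (nat_lit 8))
    (@En.n l39616 (nat_lit 3042) (nat_lit 1) (nat_lit 13))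
    (@En.n l14670 (nat_lit 10400) (nat_lit 3) (nat_lit 9))
    (@En.n l26668 (nat_lit 10024) (nat_lit 5) (nat_lit 12))
    (@En.i (nat_lit 8140) (nat_lit 5) (nat_lit 5))
    (@En.n l42088 (nat_lit 10431) (nat_lit 6) (nat_lit 8))
    (@En.n l39616 (nat_lit 10429) (nat_lit 7) (nat_lit 4))
    (@En.n l7961 (nat_lit 4251) (nat_lit 0) (nat_lit 5))
    (@En.n l9885 (nat_lit 12155) (nat_lit 1) (nat_lit 8))
    (@En.n l55 (nat_lit 10438) (nat_lit 11) (nat_lit 11))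
    (@En.i (nat_lit 8726) (nat_lit 12) (nat_lit 12))
    (@En.n l42089 (nat_lit 9823) (nat_lit 13) (nat_lit 7))
    (@En.n l42090 (nat_lit 6663) (nat_lit 7) (nat_lit 11))
    (@En.n l18395 (nat_lit 10711) (nat_lit 14) (nat_lit 8))
    (@En.n l18 (nat_lit 10435) (nat_lit 15) (nat_lit 3))))
  (@Cl.mk (nat_lit 0x30008000b0007000c000b00070005000400080005000d0009000d00030009) (nat_lit 0x540340004087201) (nat_lit 16) Lb.e (@T16.mk En
    (@En.n l17240 (nat_lit 9511) (nat_lit 0) (nat_lit 9))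
    (@En.n l1968 (nat_lit 10074) (nat_lit 15) (nat_lit 3))
    (@En.n l3082 (nat_lit 4196) (nat_lit 0) (nat_lit 13))
    (@En.n l42575 (nat_lit 10399) (nat_lit 3) (nat_lit 9))
    (@En.n l26668 (nat_lit 10559) (nat_lit 2) (nat_lit 13))
    (@En.i (nat_lit 8138) (nat_lit 3) (nat_lit 5))
    (@En.n l42576 (nat_lit 10432) (nat_lit 4) (nat_lit 8))
    (@En.n l5760 (nat_lit 10430) (nat_lit 5) (nat_lit 4))
    (@En.n l42577 (nat_lit 4250) (nat_lit 0) (nat_lit 5))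
    (@En.n l936 (nat_lit 12150) (nat_lit 1) (nat_lit 7))
    (@En.n l55 (nat_lit 10484) (nat_lit 11) (nat_lit 11))
    (@En.i (nat_lit 8725) (nat_lit 12) (nat_lit 12))
    (@En.n l11941 (nat_lit 9822) (nat_lit 13) (nat_lit 7))
    (@En.n l42090 (nat_lit 6665) (nat_lit 7) (nat_lit 11))
    (@En.n l41110 (nat_lit 10470) (nat_lit 13) (nat_lit 8))
    (@En.i (nat_lit 10434) (nat_lit 15) (nat_lit 3))))
  (@Cl.mk (nat_lit 0x30008000c0007000c00060004000d000400080003000d0009000d0003000a) (nat_lit 0x240300204090703) (nat_lit 16) Lb.e (@T16.mk En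
    (@En.n l22633 (nat_lit 9855) (nat_lit 0) (nat_lit 10))
    (@En.n l42762 (nat_lit 10482) (nat_lit 15) (nat_lit 3))
    (@En.n l10858 (nat_lit 4200) (nat_lit 0) (nat_lit 13))
    (@En.n l11008 (nat_lit 10489) (nat_lit 3) (nat_lit 9))
    (@En.n l34121 (nat_lit 10561) (nat_lit 2) (nat_lit 13))
    (@En.n l43169 (nat_lit 10484) (nat_lit 5) (nat_lit 3))
    (@En.n l6042 (nat_lit 4705) (nat_lit 0) (nat_lit 8))
    (@En.n l43169 (nat_lit 10435) (nat_lit 7) (nat_lit 4))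
    (@En.n l39557 (nat_lit 10459) (nat_lit 0) (nat_lit 13))
    (@En.i (nat_lit 4244) (nat_lit 1) (nat_lit 4))
    (@En.n l37744 (nat_lit 11468) (nat_lit 8) (nat_lit 6))
    (@En.n l43169 (nat_lit 9194) (nat_lit 12) (nat_lit 12))
    (@En.n l43170 (nat_lit 9820) (nat_lit 13) (nat_lit 7))
    (@En.i (nat_lit 7330) (nat_lit 7) (nat_lit 12))
    (@En.n l11244 (nat_lit 10472) (nat_lit 13) (nat_lit 8))
    (@En.n l6961 (nat_lit 10437) (nat_lit 15) (nat_lit 3))))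
  (@Cl.mk (nat_lit 0x30008000c0007000c00070004000d000400080003000c0009000d00090004) (nat_lit 0x3a0300204014850) (nat_lit 16) Lb.e (@T16.mk En
    (@En.n l43414 (nat_lit 7396) (nat_lit 0) (nat_lit 4))
    (@En.n l17176 (nat_lit 12056) (nat_lit 0) (nat_lit 9))
    (@En.n l43415 (nat_lit 4201) (nat_lit 1) (nat_lit 13))
    (@En.i (nat_lit 10492) (nat_lit 3) (nat_lit 9))
    (@En.i (nat_lit 79) (nat_lit 3) (nat_lit 12))
    (@En.n l7641 (nat_lit 10438) (nat_lit 5) (nat_lit 3))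
    (@En.n l43416 (nat_lit 4706) (nat_lit 0) (nat_lit 8))
    (@En.n l7641 (nat_lit 10434) (nat_lit 7) (nat_lit 4))
    (@En.n l43417 (nat_lit 10456) (nat_lit 0) (nat_lit 13))
    (@En.i (nat_lit 4242) (nat_lit 1) (nat_lit 4))
    (@En.n l43415 (nat_lit 10918) (nat_lit 4) (nat_lit 7))
    (@En.n l7641 (nat_lit 9150) (nat_lit 12) (nat_lit 12))
    (@En.n l43418 (nat_lit 9819) (nat_lit 13) (nat_lit 7))
    (@En.n l20423 (nat_lit 7327) (nat_lit 7) (nat_lit 12))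
    (@En.n l18153 (nat_lit 10636) (nat_lit 6) (nat_lit 8))
    (@En.n l1329 (nat_lit 10436) (nat_lit 15) (nat_lit 3))))
  (@Cl.mk (nat_lit 0x30009000c0007000b00070004000d000700050003000c0009000d00090004) (nat_lit 0x680500200022160) (nat_lit 16) Lb.e (@T16.mk En
    (@En.n l16425 (nat_lit 7393) (nat_lit 0) (nat_lit 4))
    (@En.n l61 (nat_lit 12054) (nat_lit 0) (nat_lit 9))
    (@En.n l27666 (nat_lit 4209) (nat_lit 1) (nat_lit 13))
    (@En.n l17220 (nat_lit 10490) (nat_lit 3) (nat_lit 9))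
    (@En.i (nat_lit 4318) (nat_lit 3) (nat_lit 12))
    (@En.n l36422 (nat_lit 10437) (nat_lit 5) (nat_lit 3))
    (@En.i (nat_lit 8204) (nat_lit 0) (nat_lit 5))
    (@En.i (nat_lit 10439) (nat_lit 7) (nat_lit 7))
    (@En.n l8015 (nat_lit 10460) (nat_lit 2) (nat_lit 13))
    (@En.n l3536 (nat_lit 4241) (nat_lit 9) (nat_lit 4))
    (@En.n l28858 (nat_lit 10919) (nat_lit 4) (nat_lit 7))
    (@En.i (nat_lit 9083) (nat_lit 12) (nat_lit 11))
    (@En.i (nat_lit 9817) (nat_lit 13) (nat_lit 7))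
    (@En.n l3866 (nat_lit 7326) (nat_lit 6) (nat_lit 12))
    (@En.n l9178 (nat_lit 10532) (nat_lit 14) (nat_lit 9))
    (@En.n l18 (nat_lit 10484) (nat_lit 15) (nat_lit 3))))
  (@Cl.mk (nat_lit 0x300090008000c0008000c00080004000700040008000c0008000d00080004) (nat_lit 0x749160000424150) (nat_lit 16) Lb.e (@T16.mk En
    (@En.n l18185 (nat_lit 7392) (nat_lit 0) (nat_lit 4))
    (@En.n l36719 (nat_lit 12053) (nat_lit 0) (nat_lit 8))
    (@En.n l43546 (nat_lit 4587) (nat_lit 1) (nat_lit 13))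
    (@En.n l43547 (nat_lit 10491) (nat_lit 3) (nat_lit 8))
    (@En.n l18185 (nat_lit 4316) (nat_lit 7) (nat_lit 12))
    (@En.n l43548 (nat_lit 4525) (nat_lit 5) (nat_lit 8))
    (@En.n l936 (nat_lit 10376) (nat_lit 6) (nat_lit 4))
    (@En.n l36723 (nat_lit 9038) (nat_lit 11) (nat_lit 7))
    (@En.n l7961 (nat_lit 4248) (nat_lit 1) (nat_lit 4))
    (@En.n l28856 (nat_lit 10836) (nat_lit 0) (nat_lit 8))
    (@En.n l936 (nat_lit 9086) (nat_lit 1) (nat_lit 12))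
    (@En.n l24753 (nat_lit 10052) (nat_lit 12) (nat_lit 8))
    (@En.n l936 (nat_lit 10438) (nat_lit 13) (nat_lit 12))
    (@En.n l7961 (nat_lit 10437) (nat_lit 14) (nat_lit 8))
    (@En.n l43549 (nat_lit 10678) (nat_lit 5) (nat_lit 9))
    (@En.n l36724 (nat_lit 10486) (nat_lit 13) (nat_lit 3))))
  (@Cl.mk (nat_lit 0x300070004000b0008000c000b000800050004000900050008000d000c0008) (nat_lit 0x8389400103542) (nat_lit 16) Lb.e (@T16.mk En
    (@En.n l10957 (nat_lit 9887) (nat_lit 0) (nat_lit 8))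
    (@En.n l36109 (nat_lit 10442) (nat_lit 4) (nat_lit 12))
    (@En.n l32982 (nat_lit 9204) (nat_lit 2) (nat_lit 13))
    (@En.n l36110 (nat_lit 8652) (nat_lit 10) (nat_lit 8))
    (@En.n l11706 (nat_lit 3124) (nat_lit 4) (nat_lit 5))
    (@En.n l17334 (nat_lit 9943) (nat_lit 5) (nat_lit 9))
    (@En.n l36111 (nat_lit 10452) (nat_lit 6) (nat_lit 4))
    (@En.i (nat_lit 8614) (nat_lit 7) (nat_lit 5))
    (@En.n l32982 (nat_lit 10434) (nat_lit 1) (nat_lit 8))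
    (@En.n l36112 (nat_lit 9557) (nat_lit 10) (nat_lit 11))
    (@En.i (nat_lit 10225) (nat_lit 11) (nat_lit 12))
    (@En.n l17334 (nat_lit 8836) (nat_lit 12) (nat_lit 8))
    (@En.n l28688 (nat_lit 10025) (nat_lit 13) (nat_lit 11))
    (@En.n l32982 (nat_lit 7300) (nat_lit 14) (nat_lit 4))
    (@En.n l36113 (nat_lit 10916) (nat_lit 0) (nat_lit 7))
    (@En.n l36114 (nat_lit 10441) (nat_lit 15) (nat_lit 3))))
  (@Cl.mk (nat_lit 0x300070003000b0008000c000b000900050004000900050008000d0007000d) (nat_lit 0x8389600103602) (nat_lit 16) Lb.e (@T16.mk En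
    (@En.n l18041 (nat_lit 6339) (nat_lit 0) (nat_lit 13))
    (@En.i (nat_lit 10720) (nat_lit 3) (nat_lit 7))
    (@En.n l19334 (nat_lit 9203) (nat_lit 2) (nat_lit 13))
    (@En.n l39416 (nat_lit 8651) (nat_lit 10) (nat_lit 8))
    (@En.n l39417 (nat_lit 3119) (nat_lit 4) (nat_lit 5))
    (@En.n l1738 (nat_lit 9942) (nat_lit 5) (nat_lit 9))
    (@En.n l20615 (nat_lit 10446) (nat_lit 6) (nat_lit 4))
    (@En.n l16508 (nat_lit 10314) (nat_lit 7) (nat_lit 5))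
    (@En.n l97 (nat_lit 10437) (nat_lit 1) (nat_lit 9))
    (@En.n l39418 (nat_lit 10443) (nat_lit 10) (nat_lit 11))
    (@En.n l39419 (nat_lit 10227) (nat_lit 11) (nat_lit 12))
    (@En.n l3866 (nat_lit 8835) (nat_lit 12) (nat_lit 8))
    (@En.i (nat_lit 10031) (nat_lit 13) (nat_lit 11))
    (@En.n l20123 (nat_lit 10442) (nat_lit 15) (nat_lit 3))
    (@En.n l16508 (nat_lit 10905) (nat_lit 0) (nat_lit 7))
    (@En.n l39420 (nat_lit 10440) (nat_lit 15) (nat_lit 3))))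
  (@Cl.mk (nat_lit 0x3000b0008000c000b000900050004000a00050008000c0007000d00060004) (nat_lit 0x442970070330100) (nat_lit 16) Lb.e (@T16.mk En
    (@En.n l3480 (nat_lit 7298) (nat_lit 0) (nat_lit 4))
    (@En.n l35886 (nat_lit 10402) (nat_lit 0) (nat_lit 6))
    (@En.n l31005 (nat_lit 4083) (nat_lit 1) (nat_lit 13))
    (@En.n l35887 (nat_lit 6853) (nat_lit 3) (nat_lit 7))
    (@En.i (nat_lit 9172) (nat_lit 7) (nat_lit 12))
    (@En.n l35888 (nat_lit 8653) (nat_lit 10) (nat_lit 8))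
    (@En.n l7 (nat_lit 3122) (nat_lit 6) (nat_lit 5))
    (@En.n l35889 (nat_lit 9471) (nat_lit 0) (nat_lit 10))
    (@En.n l7 (nat_lit 10447) (nat_lit 12) (nat_lit 4))
    (@En.n l12503 (nat_lit 8617) (nat_lit 0) (nat_lit 5))
    (@En.n l3480 (nat_lit 10438) (nat_lit 1) (nat_lit 9))
    (@En.n l644 (nat_lit 10444) (nat_lit 5) (nat_lit 11))
    (@En.n l31005 (nat_lit 10231) (nat_lit 7) (nat_lit 12))
    (@En.n l22574 (nat_lit 8834) (nat_lit 14) (nat_lit 8))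
    (@En.i (nat_lit 10390) (nat_lit 14) (nat_lit 11))
    (@En.n l35890 (nat_lit 10441) (nat_lit 13) (nat_lit 3))))
  (@Cl.mk (nat_lit 0x300080003000c0008000b00080004000d0008000500030008000d0008000d) (nat_lit 0x604385021004712) (nat_lit 16) Lb.e (@T16.mk En
    (@En.n l619 (nat_lit 6338) (nat_lit 0) (nat_lit 13))
    (@En.n l5137 (nat_lit 6855) (nat_lit 13) (nat_lit 8))
    (@En.n l24316 (nat_lit 9202) (nat_lit 2) (nat_lit 13))
    (@En.n l24923 (nat_lit 10441) (nat_lit 3) (nat_lit 8))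
    (@En.n l24924 (nat_lit 9556) (nat_lit 4) (nat_lit 3))
    (@En.i (nat_lit 3128) (nat_lit 0) (nat_lit 5))
    (@En.n l24925 (nat_lit 9946) (nat_lit 6) (nat_lit 8))
    (@En.n l396 (nat_lit 10455) (nat_lit 10) (nat_lit 13))
    (@En.n l24925 (nat_lit 8619) (nat_lit 3) (nat_lit 4))
    (@En.n l181 (nat_lit 11626) (nat_lit 4) (nat_lit 8))
    (@En.i (nat_lit 7773) (nat_lit 7) (nat_lit 11))
    (@En.n l24926 (nat_lit 8842) (nat_lit 6) (nat_lit 8))
    (@En.n l24927 (nat_lit 10731) (nat_lit 13) (nat_lit 12))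
    (@En.n l2385 (nat_lit 10444) (nat_lit 8) (nat_lit 3))
    (@En.n l24925 (nat_lit 10903) (nat_lit 0) (nat_lit 8))
    (@En.n l19790 (nat_lit 9557) (nat_lit 15) (nat_lit 3))))
  (@Cl.mk (nat_lit 0x30008000c0008000d000700040003000c0008000b00080004000d00090005) (nat_lit 0x444b00073860160) (nat_lit 16) Lb.e (@T16.mk En
    (@En.n l1807 (nat_lit 3129) (nat_lit 0) (nat_lit 5))
    (@En.n l22354 (nat_lit 9472) (nat_lit 14) (nat_lit 9))
    (@En.n l31255 (nat_lit 71) (nat_lit 2) (nat_lit 13))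
    (@En.n l12503 (nat_lit 8615) (nat_lit 3) (nat_lit 4))
    (@En.n l18287 (nat_lit 12008) (nat_lit 4) (nat_lit 8))
    (@En.n l31005 (nat_lit 7774) (nat_lit 7) (nat_lit 11))
    (@En.n l29383 (nat_lit 8843) (nat_lit 6) (nat_lit 8))
    (@En.n l31256 (nat_lit 10389) (nat_lit 8) (nat_lit 12))
    (@En.n l1459 (nat_lit 10443) (nat_lit 13) (nat_lit 3))
    (@En.n l18287 (nat_lit 7297) (nat_lit 0) (nat_lit 4))
    (@En.n l1807 (nat_lit 10404) (nat_lit 0) (nat_lit 7))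
    (@En.n l31005 (nat_lit 4081) (nat_lit 1) (nat_lit 13))
    (@En.n l4342 (nat_lit 6852) (nat_lit 13) (nat_lit 8))
    (@En.i (nat_lit 10291) (nat_lit 7) (nat_lit 12))
    (@En.n l612 (nat_lit 10442) (nat_lit 5) (nat_lit 8))
    (@En.n l31257 (nat_lit 10445) (nat_lit 15) (nat_lit 3))))
  (@Cl.mk (nat_lit 0x30008000c0008000d000600040003000c0008000c00080004000d0004000a) (nat_lit 0x431100064960303) (nat_lit 16) Lb.e (@T16.mk En
    (@En.n l38247 (nat_lit 11409) (nat_lit 0) (nat_lit 10))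
    (@En.n l28237 (nat_lit 10442) (nat_lit 8) (nat_lit 4))
    (@En.n l32348 (nat_lit 10455) (nat_lit 2) (nat_lit 13))
    (@En.n l3498 (nat_lit 8616) (nat_lit 3) (nat_lit 4))
    (@En.n l32520 (nat_lit 11989) (nat_lit 4) (nat_lit 8))
    (@En.i (nat_lit 9399) (nat_lit 1) (nat_lit 12))
    (@En.n l564 (nat_lit 9538) (nat_lit 6) (nat_lit 8))
    (@En.n l4003 (nat_lit 10391) (nat_lit 8) (nat_lit 12))
    (@En.n l42539 (nat_lit 9556) (nat_lit 13) (nat_lit 3))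
    (@En.n l18 (nat_lit 7301) (nat_lit 0) (nat_lit 4))
    (@En.n l42540 (nat_lit 10693) (nat_lit 0) (nat_lit 6))
    (@En.i (nat_lit 4082) (nat_lit 1) (nat_lit 13))
    (@En.n l61 (nat_lit 6854) (nat_lit 13) (nat_lit 8))
    (@En.n l31940 (nat_lit 9205) (nat_lit 14) (nat_lit 12))
    (@En.n l3506 (nat_lit 8658) (nat_lit 5) (nat_lit 8))
    (@En.n l28237 (nat_lit 10444) (nat_lit 15) (nat_lit 3))))
  (@Cl.mk (nat_lit 0x300070003000d0008000c0003000c000a0004000900040008000d0006000d) (nat_lit 0x8680740006502) (nat_lit 16) Lb.e (@T16.mk En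
    (@En.n l61 (nat_lit 4492) (nat_lit 0) (nat_lit 13))
    (@En.i (nat_lit 10628) (nat_lit 7) (nat_lit 6))
    (@En.n l33000 (nat_lit 9195) (nat_lit 2) (nat_lit 13))
    (@En.n l24739 (nat_lit 8605) (nat_lit 3) (nat_lit 8))
    (@En.i (nat_lit 4240) (nat_lit 4) (nat_lit 4))
    (@En.n l19801 (nat_lit 10885) (nat_lit 5) (nat_lit 9))
    (@En.n l25002 (nat_lit 9556) (nat_lit 6) (nat_lit 4))
    (@En.i (nat_lit 10436) (nat_lit 0) (nat_lit 10))
    (@En.n l1353 (nat_lit 10454) (nat_lit 9) (nat_lit 12))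
    (@En.n l14014 (nat_lit 10449) (nat_lit 9) (nat_lit 3))
    (@En.n l10858 (nat_lit 10234) (nat_lit 0) (nat_lit 12))
    (@En.n l12851 (nat_lit 10451) (nat_lit 12) (nat_lit 8))
    (@En.i (nat_lit 10032) (nat_lit 2) (nat_lit 13))
    (@En.n l3519 (nat_lit 10447) (nat_lit 3) (nat_lit 3))
    (@En.n l6042 (nat_lit 11423) (nat_lit 0) (nat_lit 7))
    (@En.n l11245 (nat_lit 10452) (nat_lit 15) (nat_lit 3))))
  (@Cl.mk (nat_lit 0x3000c000a0004000a00040008000c0006000d000600040003000d0008000c) (nat_lit 0x230705901000928) (nat_lit 16) Lb.e (@T16.mk En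
    (@En.n l31005 (nat_lit 10232) (nat_lit 0) (nat_lit 12))
    (@En.i (nat_lit 10450) (nat_lit 14) (nat_lit 8))
    (@En.n l13633 (nat_lit 10567) (nat_lit 2) (nat_lit 13))
    (@En.n l2832 (nat_lit 10446) (nat_lit 13) (nat_lit 3))
    (@En.n l3480 (nat_lit 7450) (nat_lit 0) (nat_lit 4))
    (@En.i (nat_lit 10948) (nat_lit 0) (nat_lit 6))
    (@En.n l13633 (nat_lit 4491) (nat_lit 1) (nat_lit 13))
    (@En.i (nat_lit 10627) (nat_lit 7) (nat_lit 6))
    (@En.i (nat_lit 9170) (nat_lit 7) (nat_lit 12))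
    (@En.n l18912 (nat_lit 8702) (nat_lit 11) (nat_lit 8))
    (@En.i (nat_lit 4239) (nat_lit 10) (nat_lit 4))
    (@En.i (nat_lit 11102) (nat_lit 0) (nat_lit 10))
    (@En.n l31005 (nat_lit 10445) (nat_lit 1) (nat_lit 4))
    (@En.n l3480 (nat_lit 10484) (nat_lit 0) (nat_lit 10))
    (@En.n l18289 (nat_lit 4525) (nat_lit 11) (nat_lit 12))
    (@En.n l19240 (nat_lit 10448) (nat_lit 15) (nat_lit 3))))
noncomputable def a653 : T16 Cl := @T16.mk Cl
  (@Cl.mk (nat_lit 0x3000c000a0005000a00040007000c0006000d000600040003000d000b0009) (nat_lit 0x23070040b000951) (nat_lit 16) Lb.e (@T16.mk En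
    (@En.n l4449 (nat_lit 6792) (nat_lit 0) (nat_lit 9))
    (@En.n l34967 (nat_lit 10442) (nat_lit 14) (nat_lit 11))
    (@En.n l10976 (nat_lit 8840) (nat_lit 2) (nat_lit 13))
    (@En.n l7 (nat_lit 10449) (nat_lit 13) (nat_lit 3))
    (@En.n l24571 (nat_lit 6864) (nat_lit 0) (nat_lit 4))
    (@En.i (nat_lit 10947) (nat_lit 0) (nat_lit 6))
    (@En.n l2817 (nat_lit 4494) (nat_lit 1) (nat_lit 13))
    (@En.n l10821 (nat_lit 10626) (nat_lit 7) (nat_lit 6))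
    (@En.n l34968 (nat_lit 9171) (nat_lit 9) (nat_lit 12))
    (@En.i (nat_lit 8521) (nat_lit 11) (nat_lit 7))
    (@En.n l34968 (nat_lit 4238) (nat_lit 10) (nat_lit 4))
    (@En.i (nat_lit 11101) (nat_lit 0) (nat_lit 10))
    (@En.n l8148 (nat_lit 9539) (nat_lit 1) (nat_lit 5))
    (@En.n l24571 (nat_lit 10483) (nat_lit 14) (nat_lit 10))
    (@En.n l34969 (nat_lit 10450) (nat_lit 11) (nat_lit 12))
    (@En.n l34970 (nat_lit 10447) (nat_lit 15) (nat_lit 3))))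
  (@Cl.mk (nat_lit 0x300070003000d000b00090003000c000a0005000900040007000d0006000d) (nat_lit 0x992077060050b) (nat_lit 16) Lb.e (@T16.mk En
    (@En.n l1897 (nat_lit 4493) (nat_lit 0) (nat_lit 13))
    (@En.i (nat_lit 10624) (nat_lit 7) (nat_lit 6))
    (@En.n l3530 (nat_lit 9197) (nat_lit 2) (nat_lit 13))
    (@En.i (nat_lit 12718) (nat_lit 11) (nat_lit 7))
    (@En.n l3536 (nat_lit 4237) (nat_lit 4) (nat_lit 4))
    (@En.n l5375 (nat_lit 10901) (nat_lit 0) (nat_lit 9))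
    (@En.n l12290 (nat_lit 9548) (nat_lit 1) (nat_lit 5))
    (@En.n l22465 (nat_lit 10482) (nat_lit 14) (nat_lit 10))
    (@En.i (nat_lit 10451) (nat_lit 9) (nat_lit 12))
    (@En.n l11217 (nat_lit 10446) (nat_lit 9) (nat_lit 3))
    (@En.n l3866 (nat_lit 6799) (nat_lit 0) (nat_lit 9))
    (@En.n l5 (nat_lit 10441) (nat_lit 12) (nat_lit 11))
    (@En.i (nat_lit 10028) (nat_lit 2) (nat_lit 13))
    (@En.i (nat_lit 10448) (nat_lit 3) (nat_lit 3))
    (@En.n l3531 (nat_lit 11424) (nat_lit 0) (nat_lit 7))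
    (@En.n l1236 (nat_lit 10453) (nat_lit 15) (nat_lit 3))))
  (@Cl.mk (nat_lit 0x30008000c0009000c000900040009000400080007000c0007000d00070004) (nat_lit 0x181150606050b00) (nat_lit 16) Lb.e (@T16.mk En
    (@En.n l3480 (nat_lit 6865) (nat_lit 0) (nat_lit 4))
    (@En.n l28542 (nat_lit 10949) (nat_lit 0) (nat_lit 7))
    (@En.n l13633 (nat_lit 4496) (nat_lit 1) (nat_lit 13))
    (@En.n l5701 (nat_lit 10625) (nat_lit 3) (nat_lit 7))
    (@En.n l780 (nat_lit 10636) (nat_lit 5) (nat_lit 12))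
    (@En.n l43258 (nat_lit 10448) (nat_lit 9) (nat_lit 7))
    (@En.n l29382 (nat_lit 10464) (nat_lit 6) (nat_lit 8))
    (@En.i (nat_lit 4232) (nat_lit 7) (nat_lit 4))
    (@En.n l28542 (nat_lit 11103) (nat_lit 0) (nat_lit 9))
    (@En.n l15675 (nat_lit 9538) (nat_lit 1) (nat_lit 4))
    (@En.n l3480 (nat_lit 10487) (nat_lit 0) (nat_lit 9))
    (@En.n l43259 (nat_lit 4706) (nat_lit 6) (nat_lit 12))
    (@En.n l20037 (nat_lit 6794) (nat_lit 13) (nat_lit 9))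
    (@En.n l780 (nat_lit 10444) (nat_lit 7) (nat_lit 12))
    (@En.n l43260 (nat_lit 79) (nat_lit 4) (nat_lit 8))
    (@En.n l43261 (nat_lit 10451) (nat_lit 13) (nat_lit 3))))
  (@Cl.mk (nat_lit 0x3000800030008000c0009000c000900040008000400080007000d0007000d) (nat_lit 0x605516500040a0b) (nat_lit 16) Lb.e (@T16.mk En
    (@En.n l1897 (nat_lit 4495) (nat_lit 0) (nat_lit 13))
    (@En.i (nat_lit 10623) (nat_lit 3) (nat_lit 7))
    (@En.n l3530 (nat_lit 10710) (nat_lit 2) (nat_lit 13))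
    (@En.n l17 (nat_lit 10449) (nat_lit 3) (nat_lit 7))
    (@En.n l22637 (nat_lit 10462) (nat_lit 4) (nat_lit 8))
    (@En.n l36314 (nat_lit 4230) (nat_lit 7) (nat_lit 4))
    (@En.n l5375 (nat_lit 10899) (nat_lit 0) (nat_lit 8))
    (@En.n l38334 (nat_lit 9549) (nat_lit 7) (nat_lit 4))
    (@En.n l22783 (nat_lit 10489) (nat_lit 0) (nat_lit 9))
    (@En.n l36314 (nat_lit 4705) (nat_lit 6) (nat_lit 12))
    (@En.n l637 (nat_lit 6798) (nat_lit 11) (nat_lit 9))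
    (@En.n l36314 (nat_lit 10443) (nat_lit 12) (nat_lit 12))
    (@En.n l38335 (nat_lit 10439) (nat_lit 13) (nat_lit 8))
    (@En.n l34969 (nat_lit 10450) (nat_lit 15) (nat_lit 3))
    (@En.n l6788 (nat_lit 11425) (nat_lit 0) (nat_lit 8))
    (@En.n l1236 (nat_lit 10622) (nat_lit 15) (nat_lit 3))))
  (@Cl.mk (nat_lit 0x300070004000d0008000c0003000c00090004000900040008000d000c0007) (nat_lit 0x95801206054a0) (nat_lit 16) Lb.e (@T16.mk En
    (@En.n l23031 (nat_lit 11270) (nat_lit 0) (nat_lit 7))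
    (@En.i (nat_lit 10447) (nat_lit 8) (nat_lit 12))
    (@En.n l22743 (nat_lit 9196) (nat_lit 2) (nat_lit 13))
    (@En.n l34162 (nat_lit 9091) (nat_lit 3) (nat_lit 8))
    (@En.i (nat_lit 4295) (nat_lit 4) (nat_lit 4))
    (@En.n l28544 (nat_lit 10886) (nat_lit 5) (nat_lit 9))
    (@En.n l34163 (nat_lit 9555) (nat_lit 6) (nat_lit 4))
    (@En.n l22743 (nat_lit 10435) (nat_lit 0) (nat_lit 9))
    (@En.n l34164 (nat_lit 61) (nat_lit 1) (nat_lit 12))
    (@En.n l34165 (nat_lit 10453) (nat_lit 9) (nat_lit 3))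
    (@En.n l34163 (nat_lit 10236) (nat_lit 0) (nat_lit 12))
    (@En.n l22750 (nat_lit 10622) (nat_lit 12) (nat_lit 8))
    (@En.n l11131 (nat_lit 10562) (nat_lit 13) (nat_lit 13))
    (@En.n l22743 (nat_lit 10006) (nat_lit 3) (nat_lit 4))
    (@En.n l34166 (nat_lit 11469) (nat_lit 4) (nat_lit 7))
    (@En.n l16861 (nat_lit 10446) (nat_lit 15) (nat_lit 3))))
  (@Cl.mk (nat_lit 0x300070004000d000b00090003000c00090005000900040007000d000c0007) (nat_lit 0x9920230600550) (nat_lit 16) Lb.e (@T16.mk En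
    (@En.n l16996 (nat_lit 11272) (nat_lit 0) (nat_lit 7))
    (@En.n l9879 (nat_lit 10448) (nat_lit 8) (nat_lit 12))
    (@En.n l22467 (nat_lit 9198) (nat_lit 2) (nat_lit 13))
    (@En.n l9877 (nat_lit 12717) (nat_lit 11) (nat_lit 7))
    (@En.n l18 (nat_lit 4294) (nat_lit 4) (nat_lit 4))
    (@En.n l22620 (nat_lit 10900) (nat_lit 0) (nat_lit 9))
    (@En.n l11361 (nat_lit 9551) (nat_lit 1) (nat_lit 5))
    (@En.n l61 (nat_lit 10074) (nat_lit 14) (nat_lit 9))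
    (@En.i (nat_lit 10622) (nat_lit 9) (nat_lit 12))
    (@En.n l8640 (nat_lit 10452) (nat_lit 9) (nat_lit 3))
    (@En.i (nat_lit 6803) (nat_lit 0) (nat_lit 9))
    (@En.n l20274 (nat_lit 10440) (nat_lit 12) (nat_lit 11))
    (@En.n l13562 (nat_lit 10563) (nat_lit 13) (nat_lit 13))
    (@En.n l2750 (nat_lit 6868) (nat_lit 3) (nat_lit 4))
    (@En.n l3517 (nat_lit 11470) (nat_lit 4) (nat_lit 7))
    (@En.n l9876 (nat_lit 10449) (nat_lit 15) (nat_lit 3))))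
  (@Cl.mk (nat_lit 0x30008000300080008000d000c000900030008000400080008000d0007000d) (nat_lit 0x3061b6504023a02) (nat_lit 16) Lb.e (@T16.mk En
    (@En.n l7562 (nat_lit 2961) (nat_lit 0) (nat_lit 13))
    (@En.n l38384 (nat_lit 10349) (nat_lit 3) (nat_lit 7))
    (@En.n l24478 (nat_lit 10433) (nat_lit 11) (nat_lit 13))
    (@En.n l152 (nat_lit 4713) (nat_lit 8) (nat_lit 8))
    (@En.n l30818 (nat_lit 10459) (nat_lit 4) (nat_lit 8))
    (@En.n l38385 (nat_lit 4520) (nat_lit 7) (nat_lit 4))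
    (@En.i (nat_lit 11411) (nat_lit 0) (nat_lit 8))
    (@En.n l5012 (nat_lit 77) (nat_lit 7) (nat_lit 3))
    (@En.n l31242 (nat_lit 9857) (nat_lit 0) (nat_lit 9))
    (@En.n l38386 (nat_lit 10455) (nat_lit 12) (nat_lit 12))
    (@En.n l5011 (nat_lit 10432) (nat_lit 11) (nat_lit 13))
    (@En.n l38387 (nat_lit 4705) (nat_lit 8) (nat_lit 8))
    (@En.n l24478 (nat_lit 10458) (nat_lit 4) (nat_lit 8))
    (@En.n l9962 (nat_lit 4525) (nat_lit 15) (nat_lit 3))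
    (@En.n l387 (nat_lit 9930) (nat_lit 0) (nat_lit 8))
    (@En.n l3939 (nat_lit 61) (nat_lit 7) (nat_lit 3))))
  (@Cl.mk (nat_lit 0x300080008000c0008000d00070004000300080008000d0008000d00030009) (nat_lit 0x6154100051a3203) (nat_lit 16) Lb.e (@T16.mk En
    (@En.i (nat_lit 8015) (nat_lit 0) (nat_lit 9))
    (@En.n l8013 (nat_lit 4525) (nat_lit 9) (nat_lit 3))
    (@En.n l2038 (nat_lit 2960) (nat_lit 0) (nat_lit 13))
    (@En.n l11008 (nat_lit 11390) (nat_lit 3) (nat_lit 8))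
    (@En.n l22628 (nat_lit 10429) (nat_lit 13) (nat_lit 13))
    (@En.n l39553 (nat_lit 4712) (nat_lit 8) (nat_lit 8))
    (@En.n l39554 (nat_lit 10451) (nat_lit 4) (nat_lit 8))
    (@En.n l39555 (nat_lit 77) (nat_lit 5) (nat_lit 3))
    (@En.i (nat_lit 4519) (nat_lit 0) (nat_lit 4))
    (@En.n l39556 (nat_lit 11420) (nat_lit 0) (nat_lit 7))
    (@En.n l8012 (nat_lit 2952) (nat_lit 1) (nat_lit 13))
    (@En.n l39557 (nat_lit 11389) (nat_lit 3) (nat_lit 8))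
    (@En.i (nat_lit 10436) (nat_lit 13) (nat_lit 12))
    (@En.n l61 (nat_lit 4708) (nat_lit 8) (nat_lit 8))
    (@En.n l18989 (nat_lit 10460) (nat_lit 6) (nat_lit 8))
    (@En.n l39558 (nat_lit 71) (nat_lit 7) (nat_lit 3))))
  (@Cl.mk (nat_lit 0x3000700030008000c0009000d000900040003000900080007000d0007000d) (nat_lit 0x1802700660a01) (nat_lit 16) Lb.e (@T16.mk En
    (@En.n l42751 (nat_lit 6241) (nat_lit 0) (nat_lit 13))
    (@En.i (nat_lit 10415) (nat_lit 3) (nat_lit 7))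
    (@En.n l35418 (nat_lit 10215) (nat_lit 12) (nat_lit 13))
    (@En.n l38120 (nat_lit 9093) (nat_lit 3) (nat_lit 7))
    (@En.i (nat_lit 10151) (nat_lit 6) (nat_lit 8))
    (@En.n l27735 (nat_lit 10633) (nat_lit 5) (nat_lit 9))
    (@En.n l41933 (nat_lit 10459) (nat_lit 6) (nat_lit 3))
    (@En.n l32094 (nat_lit 7801) (nat_lit 0) (nat_lit 4))
    (@En.n l41936 (nat_lit 11980) (nat_lit 11) (nat_lit 9))
    (@En.n l20336 (nat_lit 3922) (nat_lit 1) (nat_lit 13))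
    (@En.n l97 (nat_lit 11241) (nat_lit 11) (nat_lit 9))
    (@En.n l32094 (nat_lit 9556) (nat_lit 12) (nat_lit 12))
    (@En.n l42752 (nat_lit 71) (nat_lit 5) (nat_lit 8))
    (@En.n l41938 (nat_lit 10460) (nat_lit 15) (nat_lit 3))
    (@En.n l38120 (nat_lit 11235) (nat_lit 0) (nat_lit 7))
    (@En.n l42753 (nat_lit 10458) (nat_lit 15) (nat_lit 3))))
  (@Cl.mk (nat_lit 0x3000700040008000d0009000d000300090003000900080007000d000c0007) (nat_lit 0x1a02020760b40) (nat_lit 16) Lb.e (@T16.mk En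
    (@En.n l6825 (nat_lit 11379) (nat_lit 0) (nat_lit 7))
    (@En.n l68 (nat_lit 10461) (nat_lit 4) (nat_lit 12))
    (@En.n l1236 (nat_lit 10214) (nat_lit 12) (nat_lit 13))
    (@En.n l6014 (nat_lit 8548) (nat_lit 3) (nat_lit 7))
    (@En.n l41466 (nat_lit 4324) (nat_lit 14) (nat_lit 8))
    (@En.n l10181 (nat_lit 11820) (nat_lit 5) (nat_lit 9))
    (@En.n l38975 (nat_lit 10458) (nat_lit 6) (nat_lit 3))
    (@En.n l6014 (nat_lit 9568) (nat_lit 0) (nat_lit 9))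
    (@En.n l21456 (nat_lit 10463) (nat_lit 8) (nat_lit 3))
    (@En.n l6825 (nat_lit 5528) (nat_lit 0) (nat_lit 13))
    (@En.n l41466 (nat_lit 10466) (nat_lit 11) (nat_lit 9))
    (@En.n l42283 (nat_lit 10452) (nat_lit 12) (nat_lit 13))
    (@En.n l6825 (nat_lit 77) (nat_lit 3) (nat_lit 8))
    (@En.i (nat_lit 7084) (nat_lit 4) (nat_lit 4))
    (@En.n l39212 (nat_lit 10551) (nat_lit 0) (nat_lit 7))
    (@En.n l29436 (nat_lit 10459) (nat_lit 15) (nat_lit 3))))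
  (@Cl.mk (nat_lit 0x3000700040008000c0009000d000800040003000900080007000d000c0008) (nat_lit 0x2401400750b65) (nat_lit 16) Lb.e (@T16.mk En
    (@En.n l3522 (nat_lit 11378) (nat_lit 0) (nat_lit 8))
    (@En.n l43644 (nat_lit 10460) (nat_lit 4) (nat_lit 12))
    (@En.n l43645 (nat_lit 10213) (nat_lit 12) (nat_lit 13))
    (@En.n l26984 (nat_lit 9092) (nat_lit 3) (nat_lit 7))
    (@En.n l39753 (nat_lit 8856) (nat_lit 14) (nat_lit 8))
    (@En.n l32354 (nat_lit 10635) (nat_lit 5) (nat_lit 9))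
    (@En.n l43646 (nat_lit 10457) (nat_lit 6) (nat_lit 3))
    (@En.n l28 (nat_lit 7802) (nat_lit 0) (nat_lit 4))
    (@En.n l43647 (nat_lit 10420) (nat_lit 0) (nat_lit 8))
    (@En.i (nat_lit 5527) (nat_lit 1) (nat_lit 13))
    (@En.n l77 (nat_lit 11243) (nat_lit 11) (nat_lit 9))
    (@En.i (nat_lit 9555) (nat_lit 12) (nat_lit 12))
    (@En.n l43163 (nat_lit 10455) (nat_lit 13) (nat_lit 8))
    (@En.n l43648 (nat_lit 7081) (nat_lit 6) (nat_lit 4))
    (@En.n l3522 (nat_lit 10545) (nat_lit 0) (nat_lit 7))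
    (@En.n l43649 (nat_lit 10456) (nat_lit 15) (nat_lit 3))))
  (@Cl.mk (nat_lit 0x3000700030008000d0009000d0003000a0003000900080007000d0006000d) (nat_lit 0x2902030610a01) (nat_lit 16) Lb.e (@T16.mk En
    (@En.n l33296 (nat_lit 4499) (nat_lit 0) (nat_lit 13))
    (@En.i (nat_lit 10421) (nat_lit 3) (nat_lit 6))
    (@En.n l3548 (nat_lit 10468) (nat_lit 12) (nat_lit 13))
    (@En.n l575 (nat_lit 8547) (nat_lit 3) (nat_lit 7))
    (@En.n l41702 (nat_lit 4331) (nat_lit 6) (nat_lit 8))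
    (@En.n l2642 (nat_lit 11819) (nat_lit 5) (nat_lit 9))
    (@En.n l15677 (nat_lit 10456) (nat_lit 6) (nat_lit 3))
    (@En.n l21123 (nat_lit 9584) (nat_lit 0) (nat_lit 10))
    (@En.n l4427 (nat_lit 10462) (nat_lit 8) (nat_lit 3))
    (@En.n l41427 (nat_lit 3925) (nat_lit 0) (nat_lit 13))
    (@En.n l41702 (nat_lit 10465) (nat_lit 11) (nat_lit 9))
    (@En.n l42587 (nat_lit 10446) (nat_lit 12) (nat_lit 13))
    (@En.n l41705 (nat_lit 10455) (nat_lit 5) (nat_lit 8))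
    (@En.n l21124 (nat_lit 10461) (nat_lit 15) (nat_lit 3))
    (@En.n l43643 (nat_lit 11238) (nat_lit 0) (nat_lit 7))
    (@En.n l37985 (nat_lit 10457) (nat_lit 15) (nat_lit 3))))
  (@Cl.mk (nat_lit 0x30008000c0009000d000900040003000a00080007000c0007000d00060004) (nat_lit 0x573160025050100) (nat_lit 16) Lb.e (@T16.mk En
    (@En.n l152 (nat_lit 7082) (nat_lit 0) (nat_lit 4))
    (@En.n l21574 (nat_lit 9997) (nat_lit 0) (nat_lit 6))
    (@En.n l41586 (nat_lit 6242) (nat_lit 1) (nat_lit 13))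
    (@En.i (nat_lit 10416) (nat_lit 3) (nat_lit 7))
    (@En.n l10862 (nat_lit 10472) (nat_lit 12) (nat_lit 12))
    (@En.n l77 (nat_lit 8697) (nat_lit 13) (nat_lit 7))
    (@En.n l41587 (nat_lit 10152) (nat_lit 6) (nat_lit 8))
    (@En.n l3518 (nat_lit 10643) (nat_lit 8) (nat_lit 10))
    (@En.n l18 (nat_lit 10461) (nat_lit 8) (nat_lit 3))
    (@En.n l3523 (nat_lit 7798) (nat_lit 0) (nat_lit 4))
    (@En.n l899 (nat_lit 11981) (nat_lit 11) (nat_lit 9))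
    (@En.n l41586 (nat_lit 3929) (nat_lit 1) (nat_lit 13))
    (@En.n l22901 (nat_lit 11244) (nat_lit 3) (nat_lit 9))
    (@En.n l41586 (nat_lit 10445) (nat_lit 7) (nat_lit 12))
    (@En.n l22253 (nat_lit 10439) (nat_lit 5) (nat_lit 8))
    (@En.n l41588 (nat_lit 10456) (nat_lit 13) (nat_lit 3))))
  (@Cl.mk (nat_lit 0x30008000d0009000d0003000a0003000a00080007000c0006000d00060004) (nat_lit 0x5a0704021030100) (nat_lit 16) Lb.e (@T16.mk En
    (@En.n l152 (nat_lit 7083) (nat_lit 0) (nat_lit 4))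
    (@En.n l21574 (nat_lit 9037) (nat_lit 0) (nat_lit 6))
    (@En.n l617 (nat_lit 4500) (nat_lit 1) (nat_lit 13))
    (@En.i (nat_lit 11792) (nat_lit 3) (nat_lit 6))
    (@En.n l10862 (nat_lit 10471) (nat_lit 10) (nat_lit 12))
    (@En.n l77 (nat_lit 8696) (nat_lit 13) (nat_lit 7))
    (@En.n l13947 (nat_lit 4333) (nat_lit 6) (nat_lit 8))
    (@En.i (nat_lit 11987) (nat_lit 13) (nat_lit 10))
    (@En.i (nat_lit 10460) (nat_lit 8) (nat_lit 3))
    (@En.i (nat_lit 9852) (nat_lit 0) (nat_lit 10))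
    (@En.n l31750 (nat_lit 10464) (nat_lit 10) (nat_lit 3))
    (@En.n l28284 (nat_lit 7109) (nat_lit 0) (nat_lit 13))
    (@En.n l13947 (nat_lit 10467) (nat_lit 3) (nat_lit 9))
    (@En.n l42714 (nat_lit 10447) (nat_lit 2) (nat_lit 13))
    (@En.n l10862 (nat_lit 10486) (nat_lit 3) (nat_lit 8))
    (@En.n l22650 (nat_lit 10459) (nat_lit 13) (nat_lit 3))))
  (@Cl.mk (nat_lit 0x3000700030008000d000c000a0003000a0004000900080006000d0006000d) (nat_lit 0x1a97070630a0a) (nat_lit 16) Lb.e (@T16.mk En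
    (@En.n l4542 (nat_lit 4498) (nat_lit 0) (nat_lit 13))
    (@En.i (nat_lit 10423) (nat_lit 3) (nat_lit 6))
    (@En.n l9182 (nat_lit 10211) (nat_lit 2) (nat_lit 13))
    (@En.n l8768 (nat_lit 8542) (nat_lit 3) (nat_lit 6))
    (@En.i (nat_lit 8872) (nat_lit 6) (nat_lit 8))
    (@En.n l41699 (nat_lit 11817) (nat_lit 5) (nat_lit 9))
    (@En.n l3851 (nat_lit 7102) (nat_lit 6) (nat_lit 4))
    (@En.n l617 (nat_lit 10500) (nat_lit 0) (nat_lit 10))
    (@En.n l13784 (nat_lit 10459) (nat_lit 8) (nat_lit 3))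
    (@En.n l18153 (nat_lit 6488) (nat_lit 0) (nat_lit 10))
    (@En.n l3518 (nat_lit 10456) (nat_lit 11) (nat_lit 12))
    (@En.n l29256 (nat_lit 10449) (nat_lit 12) (nat_lit 13))
    (@En.n l50 (nat_lit 4525) (nat_lit 13) (nat_lit 8))
    (@En.i (nat_lit 10464) (nat_lit 15) (nat_lit 3))
    (@En.n l8768 (nat_lit 11234) (nat_lit 0) (nat_lit 7))
    (@En.n l345 (nat_lit 10463) (nat_lit 15) (nat_lit 3))))
  (@Cl.mk (nat_lit 0x3000700040008000d000c000a000300090004000900080006000d000c0007) (nat_lit 0x2a57020750430) (nat_lit 16) Lb.e (@T16.mk En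
    (@En.n l1075 (nat_lit 11380) (nat_lit 0) (nat_lit 7))
    (@En.n l2749 (nat_lit 10464) (nat_lit 4) (nat_lit 12))
    (@En.n l31411 (nat_lit 10210) (nat_lit 10) (nat_lit 13))
    (@En.n l12842 (nat_lit 8543) (nat_lit 3) (nat_lit 6))
    (@En.i (nat_lit 8851) (nat_lit 12) (nat_lit 8))
    (@En.n l41277 (nat_lit 11818) (nat_lit 5) (nat_lit 9))
    (@En.i (nat_lit 7103) (nat_lit 6) (nat_lit 4))
    (@En.n l11217 (nat_lit 10496) (nat_lit 0) (nat_lit 9))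
    (@En.n l41235 (nat_lit 10457) (nat_lit 8) (nat_lit 3))
    (@En.n l6444 (nat_lit 6490) (nat_lit 0) (nat_lit 10))
    (@En.n l41278 (nat_lit 10458) (nat_lit 11) (nat_lit 12))
    (@En.n l4316 (nat_lit 10453) (nat_lit 12) (nat_lit 13))
    (@En.n l27012 (nat_lit 10454) (nat_lit 11) (nat_lit 8))
    (@En.n l21461 (nat_lit 7087) (nat_lit 4) (nat_lit 4))
    (@En.n l22708 (nat_lit 11770) (nat_lit 0) (nat_lit 7))
    (@En.n l2710 (nat_lit 10462) (nat_lit 15) (nat_lit 3))))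
noncomputable def a654 : T16 Cl := @T16.mk Cl
  (@Cl.mk (nat_lit 0x30008000d000c000a0003000a0004000a00080006000c0006000d00060004) (nat_lit 0x2a8302065020a00) (nat_lit 16) Lb.e (@T16.mk En
    (@En.n l22234 (nat_lit 7085) (nat_lit 0) (nat_lit 4))
    (@En.i (nat_lit 9039) (nat_lit 0) (nat_lit 6))
    (@En.n l19709 (nat_lit 4497) (nat_lit 1) (nat_lit 13))
    (@En.n l11547 (nat_lit 11791) (nat_lit 3) (nat_lit 6))
    (@En.n l34629 (nat_lit 10473) (nat_lit 10) (nat_lit 12))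
    (@En.n l37316 (nat_lit 8546) (nat_lit 5) (nat_lit 6))
    (@En.i (nat_lit 8873) (nat_lit 6) (nat_lit 8))
    (@En.n l29256 (nat_lit 11986) (nat_lit 13) (nat_lit 10))
    (@En.n l3851 (nat_lit 7098) (nat_lit 8) (nat_lit 4))
    (@En.n l617 (nat_lit 10502) (nat_lit 10) (nat_lit 10))
    (@En.n l37317 (nat_lit 10461) (nat_lit 10) (nat_lit 3))
    (@En.n l18153 (nat_lit 6489) (nat_lit 0) (nat_lit 10))
    (@En.n l37318 (nat_lit 10460) (nat_lit 13) (nat_lit 12))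
    (@En.n l29256 (nat_lit 10448) (nat_lit 2) (nat_lit 13))
    (@En.n l18225 (nat_lit 10485) (nat_lit 3) (nat_lit 8))
    (@En.n l7 (nat_lit 10462) (nat_lit 13) (nat_lit 3))))
  (@Cl.mk (nat_lit 0x30008000300090009000d000a000900030008000700070006000d0007000d) (nat_lit 0x306751506000a05) (nat_lit 16) Lb.e (@T16.mk En
    (@En.i (nat_lit 6259) (nat_lit 0) (nat_lit 13))
    (@En.i (nat_lit 11322) (nat_lit 3) (nat_lit 7))
    (@En.i (nat_lit 10955) (nat_lit 11) (nat_lit 13))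
    (@En.i (nat_lit 10462) (nat_lit 3) (nat_lit 6))
    (@En.n l2687 (nat_lit 11309) (nat_lit 9) (nat_lit 7))
    (@En.i (nat_lit 10192) (nat_lit 14) (nat_lit 7))
    (@En.n l217 (nat_lit 11301) (nat_lit 6) (nat_lit 8))
    (@En.i (nat_lit 11241) (nat_lit 7) (nat_lit 3))
    (@En.n l619 (nat_lit 9101) (nat_lit 0) (nat_lit 9))
    (@En.n l10040 (nat_lit 2598) (nat_lit 10) (nat_lit 10))
    (@En.i (nat_lit 10551) (nat_lit 6) (nat_lit 13))
    (@En.n l5 (nat_lit 11238) (nat_lit 7) (nat_lit 9))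
    (@En.n l50 (nat_lit 11390) (nat_lit 4) (nat_lit 9))
    (@En.i (nat_lit 10467) (nat_lit 5) (nat_lit 3))
    (@En.i (nat_lit 9933) (nat_lit 0) (nat_lit 8))
    (@En.i (nat_lit 10466) (nat_lit 15) (nat_lit 3))))
  (@Cl.mk (nat_lit 0x30008000400090009000d000a000800030008000700070006000d000c0008) (nat_lit 0x506763204000b53) (nat_lit 16) Lb.e (@T16.mk En
    (@En.i (nat_lit 5859) (nat_lit 0) (nat_lit 8))
    (@En.n l77 (nat_lit 10467) (nat_lit 10) (nat_lit 12))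
    (@En.i (nat_lit 10953) (nat_lit 11) (nat_lit 13))
    (@En.n l345 (nat_lit 10463) (nat_lit 3) (nat_lit 6))
    (@En.n l2687 (nat_lit 11310) (nat_lit 9) (nat_lit 7))
    (@En.i (nat_lit 10169) (nat_lit 14) (nat_lit 7))
    (@En.n l217 (nat_lit 11298) (nat_lit 6) (nat_lit 8))
    (@En.n l30499 (nat_lit 11243) (nat_lit 7) (nat_lit 3))
    (@En.n l41591 (nat_lit 9097) (nat_lit 0) (nat_lit 8))
    (@En.n l17680 (nat_lit 5855) (nat_lit 10) (nat_lit 10))
    (@En.n l31737 (nat_lit 11770) (nat_lit 6) (nat_lit 13))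
    (@En.n l36908 (nat_lit 11234) (nat_lit 7) (nat_lit 9))
    (@En.n l50 (nat_lit 11388) (nat_lit 4) (nat_lit 9))
    (@En.n l41592 (nat_lit 7932) (nat_lit 5) (nat_lit 4))
    (@En.n l17413 (nat_lit 10521) (nat_lit 0) (nat_lit 8))
    (@En.n l28 (nat_lit 10465) (nat_lit 15) (nat_lit 3))))
  (@Cl.mk (nat_lit 0x30009000700070006000c0007000d00070004000300090009000d000a0009) (nat_lit 0x700040600067711) (nat_lit 16) Lb.e (@T16.mk En
    (@En.n l619 (nat_lit 7834) (nat_lit 0) (nat_lit 9))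
    (@En.n l10040 (nat_lit 2596) (nat_lit 12) (nat_lit 10))
    (@En.n l15100 (nat_lit 10545) (nat_lit 6) (nat_lit 13))
    (@En.n l30760 (nat_lit 11235) (nat_lit 7) (nat_lit 9))
    (@En.i (nat_lit 10488) (nat_lit 4) (nat_lit 9))
    (@En.n l7 (nat_lit 10465) (nat_lit 13) (nat_lit 3))
    (@En.n l22232 (nat_lit 7929) (nat_lit 0) (nat_lit 4))
    (@En.i (nat_lit 5441) (nat_lit 0) (nat_lit 7))
    (@En.n l30761 (nat_lit 6256) (nat_lit 1) (nat_lit 13))
    (@En.i (nat_lit 11323) (nat_lit 3) (nat_lit 7))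
    (@En.n l19536 (nat_lit 10702) (nat_lit 11) (nat_lit 12))
    (@En.i (nat_lit 10464) (nat_lit 5) (nat_lit 6))
    (@En.n l2687 (nat_lit 11308) (nat_lit 9) (nat_lit 7))
    (@En.i (nat_lit 10195) (nat_lit 14) (nat_lit 7))
    (@En.n l217 (nat_lit 10284) (nat_lit 9) (nat_lit 9))
    (@En.n l30498 (nat_lit 11244) (nat_lit 15) (nat_lit 3))))
  (@Cl.mk (nat_lit 0x300090008000d0005000c0003000b000700040008000d0005000d0003000b) (nat_lit 0x1390105001a0205) (nat_lit 16) Lb.e (@T16.mk En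
    (@En.i (nat_lit 9564) (nat_lit 0) (nat_lit 11))
    (@En.n l1236 (nat_lit 10211) (nat_lit 7) (nat_lit 3))
    (@En.n l17405 (nat_lit 5666) (nat_lit 0) (nat_lit 13))
    (@En.i (nat_lit 10068) (nat_lit 3) (nat_lit 5))
    (@En.n l30599 (nat_lit 9195) (nat_lit 11) (nat_lit 13))
    (@En.n l41339 (nat_lit 2952) (nat_lit 11) (nat_lit 8))
    (@En.n l9856 (nat_lit 10471) (nat_lit 4) (nat_lit 4))
    (@En.n l6918 (nat_lit 8246) (nat_lit 14) (nat_lit 7))
    (@En.i (nat_lit 11818) (nat_lit 1) (nat_lit 11))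
    (@En.i (nat_lit 10214) (nat_lit 9) (nat_lit 3))
    (@En.n l39416 (nat_lit 8651) (nat_lit 0) (nat_lit 12))
    (@En.i (nat_lit 11880) (nat_lit 9) (nat_lit 5))
    (@En.i (nat_lit 10174) (nat_lit 13) (nat_lit 13))
    (@En.n l6918 (nat_lit 10820) (nat_lit 14) (nat_lit 8))
    (@En.n l36171 (nat_lit 9815) (nat_lit 4) (nat_lit 9))
    (@En.i (nat_lit 10215) (nat_lit 15) (nat_lit 3))))
  (@Cl.mk (nat_lit 0x3000a0008000b0005000c000a0006000500040008000d0006000d0003000b) (nat_lit 0x6330140002a0202) (nat_lit 16) Lb.e (@T16.mk En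
    (@En.i (nat_lit 9486) (nat_lit 0) (nat_lit 11))
    (@En.i (nat_lit 10212) (nat_lit 15) (nat_lit 3))
    (@En.n l22675 (nat_lit 3247) (nat_lit 0) (nat_lit 13))
    (@En.i (nat_lit 10064) (nat_lit 3) (nat_lit 6))
    (@En.n l22690 (nat_lit 9174) (nat_lit 2) (nat_lit 13))
    (@En.i (nat_lit 10214) (nat_lit 5) (nat_lit 8))
    (@En.n l22676 (nat_lit 10468) (nat_lit 6) (nat_lit 4))
    (@En.n l9877 (nat_lit 10888) (nat_lit 11) (nat_lit 5))
    (@En.n l9176 (nat_lit 8244) (nat_lit 1) (nat_lit 6))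
    (@En.n l9877 (nat_lit 10474) (nat_lit 10) (nat_lit 10))
    (@En.n l3521 (nat_lit 8654) (nat_lit 9) (nat_lit 12))
    (@En.i (nat_lit 9685) (nat_lit 9) (nat_lit 5))
    (@En.n l7896 (nat_lit 9041) (nat_lit 7) (nat_lit 11))
    (@En.n l6992 (nat_lit 10816) (nat_lit 14) (nat_lit 8))
    (@En.n l18984 (nat_lit 9818) (nat_lit 13) (nat_lit 10))
    (@En.i (nat_lit 10470) (nat_lit 15) (nat_lit 3))))
  (@Cl.mk (nat_lit 0x3000a0008000b0006000c000a0006000500040008000c0006000d000a0004) (nat_lit 0x245017000250140) (nat_lit 16) Lb.e (@T16.mk En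
    (@En.n l27769 (nat_lit 10736) (nat_lit 0) (nat_lit 4))
    (@En.i (nat_lit 10923) (nat_lit 0) (nat_lit 10))
    (@En.n l28231 (nat_lit 3246) (nat_lit 1) (nat_lit 13))
    (@En.n l28232 (nat_lit 10065) (nat_lit 3) (nat_lit 6))
    (@En.n l28233 (nat_lit 11840) (nat_lit 7) (nat_lit 12))
    (@En.n l11308 (nat_lit 10213) (nat_lit 5) (nat_lit 8))
    (@En.n l22676 (nat_lit 10215) (nat_lit 6) (nat_lit 4))
    (@En.n l9877 (nat_lit 10884) (nat_lit 11) (nat_lit 5))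
    (@En.n l28234 (nat_lit 8254) (nat_lit 1) (nat_lit 6))
    (@En.n l28235 (nat_lit 10475) (nat_lit 10) (nat_lit 10))
    (@En.n l28231 (nat_lit 8658) (nat_lit 11) (nat_lit 12))
    (@En.n l20122 (nat_lit 9697) (nat_lit 4) (nat_lit 6))
    (@En.n l28231 (nat_lit 8979) (nat_lit 7) (nat_lit 11))
    (@En.n l6992 (nat_lit 10717) (nat_lit 14) (nat_lit 8))
    (@En.n l21491 (nat_lit 10078) (nat_lit 14) (nat_lit 10))
    (@En.n l7 (nat_lit 10469) (nat_lit 15) (nat_lit 3))))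
  (@Cl.mk (nat_lit 0x3000b0003000b0008000c0005000c00050004000c00040008000d0004000d) (nat_lit 0x206420100a03808) (nat_lit 16) Lb.e (@T16.mk En
    (@En.n l32935 (nat_lit 5627) (nat_lit 0) (nat_lit 13))
    (@En.i (nat_lit 10476) (nat_lit 3) (nat_lit 4))
    (@En.n l24086 (nat_lit 9170) (nat_lit 0) (nat_lit 13))
    (@En.i (nat_lit 9088) (nat_lit 11) (nat_lit 8))
    (@En.n l1236 (nat_lit 10469) (nat_lit 6) (nat_lit 4))
    (@En.n l17941 (nat_lit 11817) (nat_lit 0) (nat_lit 12))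
    (@En.i (nat_lit 10889) (nat_lit 12) (nat_lit 4))
    (@En.n l22670 (nat_lit 11019) (nat_lit 7) (nat_lit 5))
    (@En.n l34693 (nat_lit 8605) (nat_lit 9) (nat_lit 12))
    (@En.n l8015 (nat_lit 9680) (nat_lit 9) (nat_lit 5))
    (@En.n l22670 (nat_lit 8309) (nat_lit 11) (nat_lit 12))
    (@En.n l22603 (nat_lit 10156) (nat_lit 14) (nat_lit 8))
    (@En.n l22670 (nat_lit 12442) (nat_lit 13) (nat_lit 11))
    (@En.i (nat_lit 10472) (nat_lit 15) (nat_lit 3))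
    (@En.n l22670 (nat_lit 9521) (nat_lit 0) (nat_lit 11))
    (@En.i (nat_lit 10473) (nat_lit 15) (nat_lit 3))))
  (@Cl.mk (nat_lit 0x3000b0008000c0006000c00050004000c00040008000c0004000d000a0004) (nat_lit 0x614020090480970) (nat_lit 16) Lb.e (@T16.mk En
    (@En.n l28094 (nat_lit 7807) (nat_lit 0) (nat_lit 4))
    (@En.n l39648 (nat_lit 11845) (nat_lit 0) (nat_lit 10))
    (@En.n l32935 (nat_lit 5626) (nat_lit 1) (nat_lit 13))
    (@En.i (nat_lit 10478) (nat_lit 3) (nat_lit 4))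
    (@En.n l3517 (nat_lit 9205) (nat_lit 7) (nat_lit 12))
    (@En.i (nat_lit 9086) (nat_lit 11) (nat_lit 8))
    (@En.n l1236 (nat_lit 10470) (nat_lit 6) (nat_lit 4))
    (@En.n l39651 (nat_lit 11819) (nat_lit 0) (nat_lit 12))
    (@En.i (nat_lit 10883) (nat_lit 12) (nat_lit 4))
    (@En.n l22670 (nat_lit 11021) (nat_lit 9) (nat_lit 5))
    (@En.n l33421 (nat_lit 8702) (nat_lit 1) (nat_lit 12))
    (@En.n l117 (nat_lit 11815) (nat_lit 4) (nat_lit 6))
    (@En.n l22670 (nat_lit 8595) (nat_lit 7) (nat_lit 12))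
    (@En.n l22603 (nat_lit 10155) (nat_lit 14) (nat_lit 8))
    (@En.i (nat_lit 10642) (nat_lit 11) (nat_lit 11))
    (@En.n l18 (nat_lit 10471) (nat_lit 13) (nat_lit 3))))
  (@Cl.mk (nat_lit 0x3000b0004000b0008000c0005000c00050004000b00040008000d000c0005) (nat_lit 0x307110a00804890) (nat_lit 16) Lb.e (@T16.mk En
    (@En.n l33426 (nat_lit 11172) (nat_lit 0) (nat_lit 5))
    (@En.n l217 (nat_lit 10472) (nat_lit 4) (nat_lit 12))
    (@En.n l24086 (nat_lit 9171) (nat_lit 2) (nat_lit 13))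
    (@En.i (nat_lit 9091) (nat_lit 11) (nat_lit 8))
    (@En.n l1236 (nat_lit 10212) (nat_lit 4) (nat_lit 4))
    (@En.i (nat_lit 11793) (nat_lit 0) (nat_lit 11))
    (@En.i (nat_lit 10256) (nat_lit 12) (nat_lit 4))
    (@En.n l22670 (nat_lit 11020) (nat_lit 7) (nat_lit 5))
    (@En.n l28159 (nat_lit 9091) (nat_lit 9) (nat_lit 12))
    (@En.n l17699 (nat_lit 10685) (nat_lit 9) (nat_lit 5))
    (@En.n l22670 (nat_lit 8339) (nat_lit 11) (nat_lit 12))
    (@En.n l28158 (nat_lit 10157) (nat_lit 12) (nat_lit 8))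
    (@En.n l33426 (nat_lit 10637) (nat_lit 13) (nat_lit 11))
    (@En.n l28159 (nat_lit 10255) (nat_lit 14) (nat_lit 4))
    (@En.n l830 (nat_lit 10082) (nat_lit 0) (nat_lit 11))
    (@En.n l50 (nat_lit 10471) (nat_lit 15) (nat_lit 3))))
  (@Cl.mk (nat_lit 0x3000b0009000c0005000a00050004000c0007000c00060004000d0004000b) (nat_lit 0x642030050800301) (nat_lit 16) Lb.e (@T16.mk En
    (@En.n l8012 (nat_lit 9252) (nat_lit 0) (nat_lit 11))
    (@En.i (nat_lit 10480) (nat_lit 15) (nat_lit 4))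
    (@En.n l37972 (nat_lit 4230) (nat_lit 2) (nat_lit 13))
    (@En.i (nat_lit 10471) (nat_lit 1) (nat_lit 4))
    (@En.n l37973 (nat_lit 12052) (nat_lit 4) (nat_lit 6))
    (@En.n l37974 (nat_lit 9169) (nat_lit 1) (nat_lit 12))
    (@En.n l37975 (nat_lit 10477) (nat_lit 6) (nat_lit 7))
    (@En.n l37976 (nat_lit 11986) (nat_lit 8) (nat_lit 12))
    (@En.i (nat_lit 11104) (nat_lit 12) (nat_lit 4))
    (@En.n l22670 (nat_lit 11786) (nat_lit 9) (nat_lit 5))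
    (@En.n l11013 (nat_lit 12409) (nat_lit 1) (nat_lit 10))
    (@En.n l37977 (nat_lit 9674) (nat_lit 1) (nat_lit 5))
    (@En.n l22670 (nat_lit 8673) (nat_lit 6) (nat_lit 12))
    (@En.n l22603 (nat_lit 9676) (nat_lit 14) (nat_lit 9))
    (@En.n l24602 (nat_lit 9875) (nat_lit 11) (nat_lit 11))
    (@En.n l11005 (nat_lit 10475) (nat_lit 15) (nat_lit 3))))
  (@Cl.mk (nat_lit 0x3000b0009000c0006000a00050004000c0007000b00060004000d000a0005) (nat_lit 0x352060050600250) (nat_lit 16) Lb.e (@T16.mk En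
    (@En.n l8656 (nat_lit 10990) (nat_lit 0) (nat_lit 5))
    (@En.n l28167 (nat_lit 11854) (nat_lit 14) (nat_lit 10))
    (@En.n l264 (nat_lit 4232) (nat_lit 2) (nat_lit 13))
    (@En.n l41055 (nat_lit 10472) (nat_lit 3) (nat_lit 4))
    (@En.i (nat_lit 12054) (nat_lit 4) (nat_lit 6))
    (@En.n l9715 (nat_lit 10294) (nat_lit 8) (nat_lit 11))
    (@En.n l9715 (nat_lit 10479) (nat_lit 6) (nat_lit 7))
    (@En.n l8015 (nat_lit 11987) (nat_lit 8) (nat_lit 12))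
    (@En.n l3536 (nat_lit 11106) (nat_lit 12) (nat_lit 4))
    (@En.n l41056 (nat_lit 11787) (nat_lit 9) (nat_lit 5))
    (@En.i (nat_lit 12405) (nat_lit 9) (nat_lit 10))
    (@En.n l11403 (nat_lit 9816) (nat_lit 1) (nat_lit 6))
    (@En.n l7721 (nat_lit 8674) (nat_lit 6) (nat_lit 12))
    (@En.n l41057 (nat_lit 10763) (nat_lit 14) (nat_lit 9))
    (@En.n l11419 (nat_lit 9843) (nat_lit 11) (nat_lit 11))
    (@En.n l22806 (nat_lit 10474) (nat_lit 15) (nat_lit 3))))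
  (@Cl.mk (nat_lit 0x3000b0007000c0005000b00050004000c000b000500090004000d0005000b) (nat_lit 0x702090059010407) (nat_lit 16) Lb.e (@T16.mk En
    (@En.n l2815 (nat_lit 9254) (nat_lit 0) (nat_lit 11))
    (@En.n l40709 (nat_lit 11158) (nat_lit 8) (nat_lit 5))
    (@En.n l5369 (nat_lit 10595) (nat_lit 2) (nat_lit 13))
    (@En.n l7 (nat_lit 10474) (nat_lit 3) (nat_lit 4))
    (@En.n l10536 (nat_lit 8548) (nat_lit 10) (nat_lit 9))
    (@En.n l8146 (nat_lit 12055) (nat_lit 5) (nat_lit 5))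
    (@En.n l644 (nat_lit 10473) (nat_lit 5) (nat_lit 11))
    (@En.n l9956 (nat_lit 10703) (nat_lit 8) (nat_lit 12))
    (@En.i (nat_lit 10696) (nat_lit 12) (nat_lit 4))
    (@En.n l22670 (nat_lit 11025) (nat_lit 9) (nat_lit 5))
    (@En.n l34693 (nat_lit 11829) (nat_lit 1) (nat_lit 11))
    (@En.n l575 (nat_lit 11120) (nat_lit 1) (nat_lit 5))
    (@En.n l22670 (nat_lit 8667) (nat_lit 13) (nat_lit 12))
    (@En.n l22603 (nat_lit 11813) (nat_lit 14) (nat_lit 7))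
    (@En.n l40710 (nat_lit 10814) (nat_lit 11) (nat_lit 11))
    (@En.i (nat_lit 10478) (nat_lit 15) (nat_lit 3))))
  (@Cl.mk (nat_lit 0x3000a00090007000c0006000b000600040007000c00050009000d0004000a) (nat_lit 0x640308000801303) (nat_lit 16) Lb.e (@T16.mk En
    (@En.n l28675 (nat_lit 9253) (nat_lit 0) (nat_lit 10))
    (@En.n l43172 (nat_lit 10481) (nat_lit 9) (nat_lit 4))
    (@En.i (nat_lit 4237) (nat_lit 0) (nat_lit 13))
    (@En.n l43420 (nat_lit 10457) (nat_lit 10) (nat_lit 9))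
    (@En.n l20720 (nat_lit 12051) (nat_lit 4) (nat_lit 5))
    (@En.n l22071 (nat_lit 10636) (nat_lit 0) (nat_lit 12))
    (@En.n l43421 (nat_lit 10112) (nat_lit 11) (nat_lit 7))
    (@En.n l3098 (nat_lit 11107) (nat_lit 7) (nat_lit 4))
    (@En.i (nat_lit 11785) (nat_lit 0) (nat_lit 6))
    (@En.n l28671 (nat_lit 12433) (nat_lit 1) (nat_lit 11))
    (@En.n l17722 (nat_lit 9728) (nat_lit 8) (nat_lit 6))
    (@En.n l43422 (nat_lit 10474) (nat_lit 12) (nat_lit 12))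
    (@En.n l13206 (nat_lit 10476) (nat_lit 13) (nat_lit 7))
    (@En.n l7636 (nat_lit 9681) (nat_lit 14) (nat_lit 9))
    (@En.n l37161 (nat_lit 9809) (nat_lit 13) (nat_lit 10))
    (@En.n l29713 (nat_lit 10479) (nat_lit 15) (nat_lit 3))))
  (@Cl.mk (nat_lit 0x3000b0007000c0006000b00050004000c000a000500090004000d000a0006) (nat_lit 0x702040063010310) (nat_lit 16) Lb.e (@T16.mk En
    (@En.n l6319 (nat_lit 8018) (nat_lit 0) (nat_lit 6))
    (@En.n l39648 (nat_lit 10274) (nat_lit 14) (nat_lit 10))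
    (@En.n l39649 (nat_lit 10596) (nat_lit 2) (nat_lit 13))
    (@En.n l39650 (nat_lit 10475) (nat_lit 3) (nat_lit 4))
    (@En.n l15710 (nat_lit 9092) (nat_lit 10) (nat_lit 9))
    (@En.n l24952 (nat_lit 12056) (nat_lit 5) (nat_lit 5))
    (@En.n l33421 (nat_lit 10255) (nat_lit 6) (nat_lit 10))
    (@En.n l39651 (nat_lit 10705) (nat_lit 8) (nat_lit 12))
    (@En.i (nat_lit 10699) (nat_lit 12) (nat_lit 4))
    (@En.n l22670 (nat_lit 12065) (nat_lit 9) (nat_lit 5))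
    (@En.n l33421 (nat_lit 11827) (nat_lit 1) (nat_lit 11))
    (@En.n l16269 (nat_lit 11901) (nat_lit 1) (nat_lit 6))
    (@En.n l22670 (nat_lit 8672) (nat_lit 13) (nat_lit 12))
    (@En.n l39652 (nat_lit 11812) (nat_lit 14) (nat_lit 7))
    (@En.n l33563 (nat_lit 11086) (nat_lit 11) (nat_lit 11))
    (@En.n l18 (nat_lit 10476) (nat_lit 15) (nat_lit 3))))
  (@Cl.mk (nat_lit 0x3000a00090007000c0007000b000600040007000b00050009000d00090005) (nat_lit 0x360307000301250) (nat_lit 16) Lb.e (@T16.mk En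
    (@En.n l41999 (nat_lit 10991) (nat_lit 0) (nat_lit 5))
    (@En.n l42000 (nat_lit 11855) (nat_lit 0) (nat_lit 9))
    (@En.n l2038 (nat_lit 4238) (nat_lit 6) (nat_lit 13))
    (@En.n l41416 (nat_lit 10458) (nat_lit 10) (nat_lit 9))
    (@En.n l3819 (nat_lit 12053) (nat_lit 4) (nat_lit 5))
    (@En.i (nat_lit 10307) (nat_lit 8) (nat_lit 11))
    (@En.n l41999 (nat_lit 10113) (nat_lit 11) (nat_lit 7))
    (@En.n l50 (nat_lit 11108) (nat_lit 7) (nat_lit 4))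
    (@En.n l42001 (nat_lit 10845) (nat_lit 0) (nat_lit 6))
    (@En.i (nat_lit 12431) (nat_lit 8) (nat_lit 11))
    (@En.n l42002 (nat_lit 10498) (nat_lit 11) (nat_lit 7))
    (@En.n l3819 (nat_lit 10475) (nat_lit 12) (nat_lit 12))
    (@En.n l38215 (nat_lit 10478) (nat_lit 13) (nat_lit 7))
    (@En.n l42003 (nat_lit 10762) (nat_lit 14) (nat_lit 9))
    (@En.n l42000 (nat_lit 9842) (nat_lit 7) (nat_lit 10))
    (@En.n l42004 (nat_lit 10477) (nat_lit 15) (nat_lit 3))))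
noncomputable def a655 : T16 Cl := @T16.mk Cl
  (@Cl.mk (nat_lit 0x4000b0005000b0009000c0005000900050004000b0007000c000b00070005) (nat_lit 0x905470500108700) (nat_lit 16) Lb.e (@T16.mk En
    (@En.i (nat_lit 10473) (nat_lit 0) (nat_lit 5))
    (@En.n l28154 (nat_lit 11204) (nat_lit 1) (nat_lit 7))
    (@En.n l11013 (nat_lit 10475) (nat_lit 5) (nat_lit 11))
    (@En.n l28155 (nat_lit 10531) (nat_lit 2) (nat_lit 12))
    (@En.n l21456 (nat_lit 10481) (nat_lit 14) (nat_lit 7))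
    (@En.n l28156 (nat_lit 67) (nat_lit 4) (nat_lit 11))
    (@En.i (nat_lit 11098) (nat_lit 12) (nat_lit 4))
    (@En.n l22670 (nat_lit 11773) (nat_lit 0) (nat_lit 5))
    (@En.n l11013 (nat_lit 10689) (nat_lit 10) (nat_lit 9))
    (@En.n l23989 (nat_lit 9697) (nat_lit 1) (nat_lit 5))
    (@En.n l28157 (nat_lit 7641) (nat_lit 6) (nat_lit 12))
    (@En.n l28158 (nat_lit 12443) (nat_lit 1) (nat_lit 9))
    (@En.n l28157 (nat_lit 10639) (nat_lit 2) (nat_lit 11))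
    (@En.n l28159 (nat_lit 10993) (nat_lit 6) (nat_lit 5))
    (@En.n l28160 (nat_lit 9725) (nat_lit 0) (nat_lit 11))
    (@En.n l28157 (nat_lit 11866) (nat_lit 12) (nat_lit 4))))
  (@Cl.mk (nat_lit 0x40007000c000b0006000a0004000a0005000a00090006000c0006000a0006) (nat_lit 0x84080405508010) (nat_lit 16) Lb.e (@T16.mk En
    (@En.n l31411 (nat_lit 11771) (nat_lit 0) (nat_lit 6))
    (@En.n l38021 (nat_lit 39) (nat_lit 1) (nat_lit 10))
    (@En.n l41085 (nat_lit 10076) (nat_lit 8) (nat_lit 6))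
    (@En.n l41086 (nat_lit 10480) (nat_lit 10) (nat_lit 12))
    (@En.n l12842 (nat_lit 11158) (nat_lit 4) (nat_lit 6))
    (@En.i (nat_lit 12442) (nat_lit 7) (nat_lit 9))
    (@En.n l41087 (nat_lit 10640) (nat_lit 10) (nat_lit 10))
    (@En.i (nat_lit 10992) (nat_lit 7) (nat_lit 5))
    (@En.n l41088 (nat_lit 9724) (nat_lit 0) (nat_lit 10))
    (@En.n l41089 (nat_lit 12050) (nat_lit 9) (nat_lit 4))
    (@En.i (nat_lit 10463) (nat_lit 9) (nat_lit 10))
    (@En.n l31377 (nat_lit 11276) (nat_lit 1) (nat_lit 6))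
    (@En.n l41090 (nat_lit 10479) (nat_lit 5) (nat_lit 11))
    (@En.n l41087 (nat_lit 10645) (nat_lit 8) (nat_lit 12))
    (@En.n l41091 (nat_lit 10117) (nat_lit 11) (nat_lit 7))
    (@En.n l41092 (nat_lit 11095) (nat_lit 12) (nat_lit 4))))
  (@Cl.mk (nat_lit 0x3000a00040008000c0006000c00060004000d000400080003000d000c000a) (nat_lit 0x60590300b020922) (nat_lit 16) Lb.e (@T16.mk En
    (@En.i (nat_lit 9349) (nat_lit 0) (nat_lit 10))
    (@En.n l30194 (nat_lit 10437) (nat_lit 4) (nat_lit 12))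
    (@En.i (nat_lit 10027) (nat_lit 2) (nat_lit 13))
    (@En.n l9979 (nat_lit 10483) (nat_lit 3) (nat_lit 3))
    (@En.n l34574 (nat_lit 4707) (nat_lit 0) (nat_lit 8))
    (@En.n l117 (nat_lit 10074) (nat_lit 5) (nat_lit 4))
    (@En.n l33375 (nat_lit 10462) (nat_lit 0) (nat_lit 13))
    (@En.n l3480 (nat_lit 4245) (nat_lit 1) (nat_lit 4))
    (@En.n l8770 (nat_lit 11467) (nat_lit 8) (nat_lit 6))
    (@En.n l13633 (nat_lit 8603) (nat_lit 10) (nat_lit 12))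
    (@En.n l3348 (nat_lit 9704) (nat_lit 6) (nat_lit 6))
    (@En.n l38430 (nat_lit 7328) (nat_lit 7) (nat_lit 12))
    (@En.n l34574 (nat_lit 10471) (nat_lit 11) (nat_lit 8))
    (@En.i (nat_lit 7397) (nat_lit 9) (nat_lit 4))
    (@En.i (nat_lit 10495) (nat_lit 11) (nat_lit 10))
    (@En.n l35234 (nat_lit 10436) (nat_lit 1) (nat_lit 3))))
  (@Cl.mk (nat_lit 0x3000a00040009000c0006000b00060004000d000700050003000d000c000a) (nat_lit 0x20590300b000932) (nat_lit 16) Lb.e (@T16.mk En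
    (@En.n l20211 (nat_lit 9262) (nat_lit 0) (nat_lit 10))
    (@En.n l217 (nat_lit 10438) (nat_lit 4) (nat_lit 12))
    (@En.n l22804 (nat_lit 10570) (nat_lit 2) (nat_lit 13))
    (@En.n l20221 (nat_lit 10482) (nat_lit 3) (nat_lit 3))
    (@En.i (nat_lit 8205) (nat_lit 0) (nat_lit 5))
    (@En.n l20211 (nat_lit 10485) (nat_lit 5) (nat_lit 7))
    (@En.n l22805 (nat_lit 10464) (nat_lit 2) (nat_lit 13))
    (@En.n l3536 (nat_lit 4246) (nat_lit 7) (nat_lit 4))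
    (@En.n l7722 (nat_lit 11471) (nat_lit 8) (nat_lit 6))
    (@En.i (nat_lit 8604) (nat_lit 10) (nat_lit 11))
    (@En.i (nat_lit 9706) (nat_lit 6) (nat_lit 6))
    (@En.n l7722 (nat_lit 7325) (nat_lit 6) (nat_lit 12))
    (@En.n l22806 (nat_lit 10474) (nat_lit 13) (nat_lit 9))
    (@En.n l20211 (nat_lit 7395) (nat_lit 9) (nat_lit 4))
    (@En.n l7722 (nat_lit 10493) (nat_lit 11) (nat_lit 10))
    (@En.n l50 (nat_lit 10484) (nat_lit 1) (nat_lit 3))))
  (@Cl.mk (nat_lit 0x30009000c0007000b00060004000d000700050003000d0009000d0003000a) (nat_lit 0x6403002000a2202) (nat_lit 16) Lb.e (@T16.mk En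
    (@En.n l12290 (nat_lit 9853) (nat_lit 0) (nat_lit 10))
    (@En.i (nat_lit 10483) (nat_lit 15) (nat_lit 3))
    (@En.n l3082 (nat_lit 7110) (nat_lit 0) (nat_lit 13))
    (@En.i (nat_lit 10487) (nat_lit 3) (nat_lit 9))
    (@En.i (nat_lit 10568) (nat_lit 2) (nat_lit 13))
    (@En.n l38376 (nat_lit 10436) (nat_lit 5) (nat_lit 3))
    (@En.i (nat_lit 8206) (nat_lit 0) (nat_lit 5))
    (@En.n l936 (nat_lit 10486) (nat_lit 5) (nat_lit 7))
    (@En.n l8015 (nat_lit 10461) (nat_lit 2) (nat_lit 13))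
    (@En.n l3536 (nat_lit 4243) (nat_lit 9) (nat_lit 4))
    (@En.i (nat_lit 11472) (nat_lit 8) (nat_lit 6))
    (@En.i (nat_lit 9087) (nat_lit 12) (nat_lit 11))
    (@En.i (nat_lit 9815) (nat_lit 13) (nat_lit 7))
    (@En.n l3866 (nat_lit 7329) (nat_lit 6) (nat_lit 12))
    (@En.i (nat_lit 10475) (nat_lit 13) (nat_lit 9))
    (@En.i (nat_lit 10438) (nat_lit 15) (nat_lit 3))))
  (@Cl.mk (nat_lit 0x30009000400090008000c0007000c00070004000700040008000d000c0009) (nat_lit 0x5056a0400001a32) (nat_lit 16) Lb.e (@T16.mk En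
    (@En.i (nat_lit 9263) (nat_lit 0) (nat_lit 9))
    (@En.n l34944 (nat_lit 10439) (nat_lit 4) (nat_lit 12))
    (@En.n l532 (nat_lit 10571) (nat_lit 2) (nat_lit 13))
    (@En.n l37385 (nat_lit 61) (nat_lit 3) (nat_lit 8))
    (@En.n l34786 (nat_lit 10374) (nat_lit 4) (nat_lit 4))
    (@En.n l1776 (nat_lit 9036) (nat_lit 11) (nat_lit 7))
    (@En.n l3480 (nat_lit 4249) (nat_lit 1) (nat_lit 4))
    (@En.n l8770 (nat_lit 10841) (nat_lit 0) (nat_lit 7))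
    (@En.n l34786 (nat_lit 9091) (nat_lit 1) (nat_lit 12))
    (@En.n l3348 (nat_lit 9708) (nat_lit 4) (nat_lit 7))
    (@En.n l34786 (nat_lit 10483) (nat_lit 11) (nat_lit 12))
    (@En.i (nat_lit 10482) (nat_lit 12) (nat_lit 8))
    (@En.n l37386 (nat_lit 10477) (nat_lit 13) (nat_lit 9))
    (@En.i (nat_lit 7394) (nat_lit 14) (nat_lit 4))
    (@En.n l1284 (nat_lit 10494) (nat_lit 0) (nat_lit 9))
    (@En.n l36584 (nat_lit 10486) (nat_lit 15) (nat_lit 3))))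
  (@Cl.mk (nat_lit 0x30009000300090008000c0008000c00070004000700040008000d0008000d) (nat_lit 0x207351400004a02) (nat_lit 16) Lb.e (@T16.mk En
    (@En.n l4790 (nat_lit 7111) (nat_lit 0) (nat_lit 13))
    (@En.n l25556 (nat_lit 10488) (nat_lit 3) (nat_lit 8))
    (@En.n l24087 (nat_lit 10569) (nat_lit 2) (nat_lit 13))
    (@En.n l41678 (nat_lit 10454) (nat_lit 3) (nat_lit 8))
    (@En.i (nat_lit 10375) (nat_lit 4) (nat_lit 4))
    (@En.n l24084 (nat_lit 9034) (nat_lit 11) (nat_lit 7))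
    (@En.n l29436 (nat_lit 4247) (nat_lit 1) (nat_lit 4))
    (@En.n l11972 (nat_lit 10839) (nat_lit 0) (nat_lit 7))
    (@En.i (nat_lit 9088) (nat_lit 1) (nat_lit 12))
    (@En.n l8015 (nat_lit 10058) (nat_lit 12) (nat_lit 8))
    (@En.i (nat_lit 10484) (nat_lit 13) (nat_lit 12))
    (@En.n l41679 (nat_lit 10436) (nat_lit 14) (nat_lit 8))
    (@En.n l10181 (nat_lit 10479) (nat_lit 13) (nat_lit 9))
    (@En.n l1769 (nat_lit 10439) (nat_lit 15) (nat_lit 3))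
    (@En.n l38412 (nat_lit 9854) (nat_lit 0) (nat_lit 9))
    (@En.n l29428 (nat_lit 10485) (nat_lit 15) (nat_lit 3))))
  (@Cl.mk (nat_lit 0x30008000b00070006000b00070005000d0008000500030009000d000a0009) (nat_lit 0x450040072001614) (nat_lit 16) Lb.e (@T16.mk En
    (@En.n l12876 (nat_lit 11531) (nat_lit 0) (nat_lit 9))
    (@En.i (nat_lit 8822) (nat_lit 13) (nat_lit 10))
    (@En.n l564 (nat_lit 12008) (nat_lit 6) (nat_lit 13))
    (@En.n l3506 (nat_lit 10022) (nat_lit 3) (nat_lit 9))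
    (@En.n l42721 (nat_lit 10489) (nat_lit 4) (nat_lit 3))
    (@En.i (nat_lit 8209) (nat_lit 0) (nat_lit 5))
    (@En.n l42575 (nat_lit 10488) (nat_lit 6) (nat_lit 8))
    (@En.n l25556 (nat_lit 10467) (nat_lit 8) (nat_lit 13))
    (@En.n l3536 (nat_lit 4235) (nat_lit 8) (nat_lit 5))
    (@En.n l3439 (nat_lit 11737) (nat_lit 4) (nat_lit 7))
    (@En.i (nat_lit 10085) (nat_lit 11) (nat_lit 11))
    (@En.n l644 (nat_lit 10483) (nat_lit 10) (nat_lit 6))
    (@En.n l40391 (nat_lit 10502) (nat_lit 7) (nat_lit 7))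
    (@En.n l3866 (nat_lit 7360) (nat_lit 7) (nat_lit 11))
    (@En.n l28167 (nat_lit 11854) (nat_lit 10) (nat_lit 8))
    (@En.n l17220 (nat_lit 10490) (nat_lit 15) (nat_lit 3))))
  (@Cl.mk (nat_lit 0x300080007000b00080007000c000800050008000400090008000d00090008) (nat_lit 0x406305001056214) (nat_lit 16) Lb.e (@T16.mk En
    (@En.n l39960 (nat_lit 11529) (nat_lit 0) (nat_lit 8))
    (@En.n l29664 (nat_lit 8825) (nat_lit 12) (nat_lit 9))
    (@En.n l39961 (nat_lit 11615) (nat_lit 2) (nat_lit 13))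
    (@En.n l39962 (nat_lit 10563) (nat_lit 3) (nat_lit 8))
    (@En.n l6979 (nat_lit 10349) (nat_lit 4) (nat_lit 9))
    (@En.n l39963 (nat_lit 10377) (nat_lit 5) (nat_lit 4))
    (@En.n l39962 (nat_lit 6523) (nat_lit 10) (nat_lit 8))
    (@En.n l39964 (nat_lit 4219) (nat_lit 7) (nat_lit 5))
    (@En.n l39965 (nat_lit 11736) (nat_lit 0) (nat_lit 8))
    (@En.n l39966 (nat_lit 10087) (nat_lit 10) (nat_lit 12))
    (@En.n l18225 (nat_lit 10485) (nat_lit 9) (nat_lit 7))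
    (@En.n l18226 (nat_lit 9918) (nat_lit 12) (nat_lit 8))
    (@En.n l39963 (nat_lit 10487) (nat_lit 13) (nat_lit 11))
    (@En.i (nat_lit 10489) (nat_lit 14) (nat_lit 7))
    (@En.n l39967 (nat_lit 11855) (nat_lit 12) (nat_lit 8))
    (@En.n l32936 (nat_lit 10491) (nat_lit 15) (nat_lit 3))))
  (@Cl.mk (nat_lit 0x30007000b00070006000c00070005000d0004000900030009000d000a0009) (nat_lit 0x50040060507324) (nat_lit 16) Lb.e (@T16.mk En
    (@En.n l619 (nat_lit 11532) (nat_lit 0) (nat_lit 9))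
    (@En.n l29664 (nat_lit 9348) (nat_lit 13) (nat_lit 10))
    (@En.n l18231 (nat_lit 11626) (nat_lit 6) (nat_lit 13))
    (@En.i (nat_lit 10836) (nat_lit 3) (nat_lit 9))
    (@En.n l34019 (nat_lit 10487) (nat_lit 4) (nat_lit 3))
    (@En.n l7 (nat_lit 10351) (nat_lit 0) (nat_lit 9))
    (@En.i (nat_lit 10399) (nat_lit 6) (nat_lit 4))
    (@En.n l644 (nat_lit 10465) (nat_lit 0) (nat_lit 13))
    (@En.n l34020 (nat_lit 4234) (nat_lit 8) (nat_lit 5))
    (@En.n l11547 (nat_lit 11473) (nat_lit 4) (nat_lit 7))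
    (@En.n l34021 (nat_lit 10692) (nat_lit 11) (nat_lit 12))
    (@En.n l18225 (nat_lit 10482) (nat_lit 10) (nat_lit 6))
    (@En.n l18226 (nat_lit 10500) (nat_lit 13) (nat_lit 7))
    (@En.n l17017 (nat_lit 4341) (nat_lit 8) (nat_lit 11))
    (@En.n l16865 (nat_lit 11845) (nat_lit 12) (nat_lit 7))
    (@En.n l34022 (nat_lit 10492) (nat_lit 15) (nat_lit 3))))
  (@Cl.mk (nat_lit 0x30008000b00070005000b00080005000d0008000500030009000d0008000b) (nat_lit 0x450065072001631) (nat_lit 16) Lb.e (@T16.mk En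
    (@En.n l31905 (nat_lit 6760) (nat_lit 7) (nat_lit 11))
    (@En.n l6675 (nat_lit 11859) (nat_lit 13) (nat_lit 8))
    (@En.n l23348 (nat_lit 12009) (nat_lit 6) (nat_lit 13))
    (@En.n l31906 (nat_lit 10023) (nat_lit 3) (nat_lit 9))
    (@En.n l9951 (nat_lit 10492) (nat_lit 4) (nat_lit 3))
    (@En.n l31824 (nat_lit 8210) (nat_lit 0) (nat_lit 5))
    (@En.n l31907 (nat_lit 10491) (nat_lit 6) (nat_lit 8))
    (@En.n l30485 (nat_lit 11244) (nat_lit 8) (nat_lit 13))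
    (@En.n l9947 (nat_lit 4231) (nat_lit 8) (nat_lit 5))
    (@En.i (nat_lit 11953) (nat_lit 4) (nat_lit 8))
    (@En.n l31824 (nat_lit 10084) (nat_lit 11) (nat_lit 11))
    (@En.n l31905 (nat_lit 7395) (nat_lit 6) (nat_lit 5))
    (@En.n l31908 (nat_lit 10501) (nat_lit 7) (nat_lit 7))
    (@En.i (nat_lit 7331) (nat_lit 7) (nat_lit 11))
    (@En.n l16594 (nat_lit 9718) (nat_lit 12) (nat_lit 8))
    (@En.n l31909 (nat_lit 10487) (nat_lit 15) (nat_lit 3))))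
  (@Cl.mk (nat_lit 0x300080007000b00080006000c000900050008000400090008000d0007000a) (nat_lit 0x406307601053501) (nat_lit 16) Lb.e (@T16.mk En
    (@En.n l30409 (nat_lit 6761) (nat_lit 8) (nat_lit 10))
    (@En.n l14808 (nat_lit 11858) (nat_lit 12) (nat_lit 7))
    (@En.n l19406 (nat_lit 11614) (nat_lit 2) (nat_lit 13))
    (@En.i (nat_lit 10028) (nat_lit 8) (nat_lit 8))
    (@En.n l13489 (nat_lit 10346) (nat_lit 4) (nat_lit 9))
    (@En.n l30410 (nat_lit 10379) (nat_lit 5) (nat_lit 4))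
    (@En.n l1897 (nat_lit 6524) (nat_lit 10) (nat_lit 8))
    (@En.n l30411 (nat_lit 4233) (nat_lit 7) (nat_lit 5))
    (@En.n l30412 (nat_lit 11952) (nat_lit 0) (nat_lit 9))
    (@En.n l13889 (nat_lit 10086) (nat_lit 10) (nat_lit 12))
    (@En.n l30409 (nat_lit 7394) (nat_lit 10) (nat_lit 6))
    (@En.n l30413 (nat_lit 9914) (nat_lit 12) (nat_lit 8))
    (@En.n l30414 (nat_lit 10490) (nat_lit 13) (nat_lit 11))
    (@En.n l30411 (nat_lit 10492) (nat_lit 14) (nat_lit 7))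
    (@En.n l1897 (nat_lit 9719) (nat_lit 12) (nat_lit 8))
    (@En.n l30415 (nat_lit 10488) (nat_lit 15) (nat_lit 3))))
  (@Cl.mk (nat_lit 0x30007000b00070005000c00080005000d0004000900030009000d0008000b) (nat_lit 0x50045060503641) (nat_lit 16) Lb.e (@T16.mk En
    (@En.n l18153 (nat_lit 6762) (nat_lit 0) (nat_lit 11))
    (@En.n l39873 (nat_lit 11861) (nat_lit 13) (nat_lit 8))
    (@En.n l39874 (nat_lit 11628) (nat_lit 6) (nat_lit 13))
    (@En.n l7646 (nat_lit 10834) (nat_lit 3) (nat_lit 9))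
    (@En.n l384 (nat_lit 10490) (nat_lit 4) (nat_lit 3))
    (@En.n l39875 (nat_lit 10345) (nat_lit 0) (nat_lit 9))
    (@En.n l345 (nat_lit 10400) (nat_lit 6) (nat_lit 4))
    (@En.n l39876 (nat_lit 11241) (nat_lit 0) (nat_lit 13))
    (@En.i (nat_lit 4229) (nat_lit 8) (nat_lit 5))
    (@En.n l39877 (nat_lit 11954) (nat_lit 4) (nat_lit 8))
    (@En.n l9967 (nat_lit 10693) (nat_lit 11) (nat_lit 12))
    (@En.n l18153 (nat_lit 7397) (nat_lit 6) (nat_lit 5))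
    (@En.n l39878 (nat_lit 10499) (nat_lit 13) (nat_lit 7))
    (@En.n l39879 (nat_lit 4343) (nat_lit 8) (nat_lit 11))
    (@En.n l387 (nat_lit 10085) (nat_lit 12) (nat_lit 7))
    (@En.n l39880 (nat_lit 10489) (nat_lit 15) (nat_lit 3))))
  (@Cl.mk (nat_lit 0x30006000d000b000a00030008000b0005000a0006000a0005000d00080006) (nat_lit 0x71106104050330) (nat_lit 16) Lb.e (@T16.mk En
    (@En.n l889 (nat_lit 6208) (nat_lit 0) (nat_lit 6))
    (@En.i (nat_lit 10494) (nat_lit 6) (nat_lit 8))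
    (@En.n l11399 (nat_lit 10502) (nat_lit 2) (nat_lit 13))
    (@En.n l38361 (nat_lit 10487) (nat_lit 8) (nat_lit 5))
    (@En.i (nat_lit 6178) (nat_lit 9) (nat_lit 10))
    (@En.i (nat_lit 11799) (nat_lit 5) (nat_lit 6))
    (@En.n l21082 (nat_lit 10081) (nat_lit 12) (nat_lit 10))
    (@En.n l38362 (nat_lit 9705) (nat_lit 7) (nat_lit 5))
    (@En.i (nat_lit 2947) (nat_lit 7) (nat_lit 11))
    (@En.n l16218 (nat_lit 9875) (nat_lit 10) (nat_lit 8))
    (@En.n l152 (nat_lit 10506) (nat_lit 10) (nat_lit 3))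
    (@En.n l8906 (nat_lit 8633) (nat_lit 0) (nat_lit 10))
    (@En.n l619 (nat_lit 8392) (nat_lit 13) (nat_lit 11))
    (@En.n l38363 (nat_lit 12054) (nat_lit 2) (nat_lit 13))
    (@En.n l17 (nat_lit 6550) (nat_lit 12) (nat_lit 6))
    (@En.n l2419 (nat_lit 10495) (nat_lit 15) (nat_lit 3))))
  (@Cl.mk (nat_lit 0x300080007000b0006000b0007000b00050008000500090005000d000a0009) (nat_lit 0x602050402060614) (nat_lit 16) Lb.e (@T16.mk En
    (@En.n l42068 (nat_lit 11530) (nat_lit 0) (nat_lit 9))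
    (@En.n l6678 (nat_lit 8394) (nat_lit 12) (nat_lit 10))
    (@En.n l42069 (nat_lit 12053) (nat_lit 2) (nat_lit 13))
    (@En.n l29419 (nat_lit 6551) (nat_lit 3) (nat_lit 5))
    (@En.n l42070 (nat_lit 11466) (nat_lit 4) (nat_lit 9))
    (@En.n l29421 (nat_lit 10371) (nat_lit 5) (nat_lit 5))
    (@En.n l42068 (nat_lit 9913) (nat_lit 10) (nat_lit 8))
    (@En.n l42071 (nat_lit 10488) (nat_lit 7) (nat_lit 5))
    (@En.i (nat_lit 6179) (nat_lit 8) (nat_lit 11))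
    (@En.i (nat_lit 11801) (nat_lit 1) (nat_lit 7))
    (@En.n l21082 (nat_lit 9822) (nat_lit 11) (nat_lit 11))
    (@En.n l42072 (nat_lit 9709) (nat_lit 12) (nat_lit 6))
    (@En.n l50 (nat_lit 10493) (nat_lit 8) (nat_lit 11))
    (@En.n l6678 (nat_lit 10495) (nat_lit 9) (nat_lit 7))
    (@En.n l16218 (nat_lit 9809) (nat_lit 12) (nat_lit 8))
    (@En.n l42073 (nat_lit 9920) (nat_lit 15) (nat_lit 3))))
  (@Cl.mk (nat_lit 0x30006000d000b000a00030007000b0005000b0006000a0005000d00050009) (nat_lit 0x72500105030405) (nat_lit 16) Lb.e (@T16.mk En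
    (@En.n l3328 (nat_lit 11487) (nat_lit 0) (nat_lit 9))
    (@En.n l31755 (nat_lit 10063) (nat_lit 6) (nat_lit 5))
    (@En.n l28540 (nat_lit 10500) (nat_lit 8) (nat_lit 13))
    (@En.n l31756 (nat_lit 10489) (nat_lit 8) (nat_lit 5))
    (@En.n l2642 (nat_lit 6181) (nat_lit 9) (nat_lit 10))
    (@En.n l31757 (nat_lit 11798) (nat_lit 5) (nat_lit 6))
    (@En.n l13633 (nat_lit 10590) (nat_lit 12) (nat_lit 11))
    (@En.n l7638 (nat_lit 9703) (nat_lit 7) (nat_lit 5))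
    (@En.n l31757 (nat_lit 2943) (nat_lit 8) (nat_lit 11))
    (@En.n l8770 (nat_lit 12442) (nat_lit 12) (nat_lit 7))
    (@En.n l50 (nat_lit 10505) (nat_lit 10) (nat_lit 3))
    (@En.n l31758 (nat_lit 8630) (nat_lit 0) (nat_lit 10))
    (@En.i (nat_lit 8780) (nat_lit 13) (nat_lit 11))
    (@En.n l31759 (nat_lit 12056) (nat_lit 2) (nat_lit 13))
    (@En.n l1081 (nat_lit 10867) (nat_lit 12) (nat_lit 6))
    (@En.n l1284 (nat_lit 10493) (nat_lit 15) (nat_lit 3))))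
noncomputable def a656 : T16 Cl := @T16.mk Cl
  (@Cl.mk (nat_lit 0x3000800070005000c000b0007000b00040008000500090005000d000b0009) (nat_lit 0x200750306070631) (nat_lit 16) Lb.e (@T16.mk En
    (@En.n l41221 (nat_lit 9870) (nat_lit 0) (nat_lit 9))
    (@En.n l41222 (nat_lit 8880) (nat_lit 10) (nat_lit 11))
    (@En.n l40045 (nat_lit 10420) (nat_lit 2) (nat_lit 13))
    (@En.n l41223 (nat_lit 10063) (nat_lit 3) (nat_lit 5))
    (@En.n l31661 (nat_lit 11411) (nat_lit 4) (nat_lit 9))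
    (@En.n l24943 (nat_lit 8802) (nat_lit 5) (nat_lit 5))
    (@En.n l41224 (nat_lit 10055) (nat_lit 6) (nat_lit 8))
    (@En.i (nat_lit 9945) (nat_lit 7) (nat_lit 4))
    (@En.n l20138 (nat_lit 6184) (nat_lit 8) (nat_lit 11))
    (@En.n l24654 (nat_lit 10409) (nat_lit 1) (nat_lit 7))
    (@En.n l77 (nat_lit 10502) (nat_lit 5) (nat_lit 11))
    (@En.n l41225 (nat_lit 8839) (nat_lit 12) (nat_lit 12))
    (@En.n l41226 (nat_lit 9714) (nat_lit 4) (nat_lit 5))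
    (@En.i (nat_lit 9551) (nat_lit 9) (nat_lit 7))
    (@En.n l41043 (nat_lit 9816) (nat_lit 6) (nat_lit 8))
    (@En.n l14014 (nat_lit 10497) (nat_lit 15) (nat_lit 3))))
  (@Cl.mk (nat_lit 0x3000800070004000c000b0008000b00040008000500090005000d0008000c) (nat_lit 0x300855104030635) (nat_lit 16) Lb.e (@T16.mk En
    (@En.i (nat_lit 8876) (nat_lit 0) (nat_lit 12))
    (@En.i (nat_lit 10498) (nat_lit 4) (nat_lit 8))
    (@En.n l396 (nat_lit 10425) (nat_lit 2) (nat_lit 13))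
    (@En.n l890 (nat_lit 10062) (nat_lit 3) (nat_lit 5))
    (@En.n l27012 (nat_lit 11410) (nat_lit 4) (nat_lit 9))
    (@En.n l3087 (nat_lit 8803) (nat_lit 5) (nat_lit 5))
    (@En.n l19713 (nat_lit 10053) (nat_lit 6) (nat_lit 8))
    (@En.n l152 (nat_lit 9946) (nat_lit 7) (nat_lit 4))
    (@En.n l10134 (nat_lit 4293) (nat_lit 7) (nat_lit 11))
    (@En.n l6823 (nat_lit 11994) (nat_lit 1) (nat_lit 8))
    (@En.n l14504 (nat_lit 10501) (nat_lit 5) (nat_lit 11))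
    (@En.n l6820 (nat_lit 8837) (nat_lit 12) (nat_lit 12))
    (@En.n l37303 (nat_lit 8883) (nat_lit 4) (nat_lit 4))
    (@En.i (nat_lit 9548) (nat_lit 9) (nat_lit 7))
    (@En.n l10134 (nat_lit 4310) (nat_lit 1) (nat_lit 8))
    (@En.n l11217 (nat_lit 10496) (nat_lit 15) (nat_lit 3))))
  (@Cl.mk (nat_lit 0x4000b000a00080007000b000500090006000a00050008000c000900070006) (nat_lit 0x765020208024200) (nat_lit 16) Lb.e (@T16.mk En
    (@En.i (nat_lit 9547) (nat_lit 10) (nat_lit 6))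
    (@En.n l43573 (nat_lit 4315) (nat_lit 1) (nat_lit 7))
    (@En.n l43574 (nat_lit 9873) (nat_lit 13) (nat_lit 9))
    (@En.n l50 (nat_lit 8878) (nat_lit 7) (nat_lit 12))
    (@En.n l43573 (nat_lit 11378) (nat_lit 10) (nat_lit 8))
    (@En.n l43575 (nat_lit 10059) (nat_lit 5) (nat_lit 5))
    (@En.n l27012 (nat_lit 11414) (nat_lit 9) (nat_lit 10))
    (@En.n l3087 (nat_lit 8804) (nat_lit 1) (nat_lit 6))
    (@En.n l19713 (nat_lit 10054) (nat_lit 10) (nat_lit 9))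
    (@En.n l43576 (nat_lit 9944) (nat_lit 9) (nat_lit 5))
    (@En.n l50 (nat_lit 10497) (nat_lit 8) (nat_lit 11))
    (@En.n l26652 (nat_lit 10496) (nat_lit 9) (nat_lit 7))
    (@En.n l1792 (nat_lit 11901) (nat_lit 2) (nat_lit 8))
    (@En.n l43577 (nat_lit 10503) (nat_lit 6) (nat_lit 10))
    (@En.n l6820 (nat_lit 8838) (nat_lit 4) (nat_lit 11))
    (@En.n l43578 (nat_lit 9728) (nat_lit 12) (nat_lit 4))))
  (@Cl.mk (nat_lit 0x3000800070004000c0007000a000d00040008000300090006000d0009000c) (nat_lit 0x500403404040776) (nat_lit 16) Lb.e (@T16.mk En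
    (@En.i (nat_lit 8869) (nat_lit 0) (nat_lit 12))
    (@En.i (nat_lit 10504) (nat_lit 12) (nat_lit 9))
    (@En.n l11234 (nat_lit 11982) (nat_lit 13) (nat_lit 13))
    (@En.n l890 (nat_lit 10505) (nat_lit 14) (nat_lit 6))
    (@En.n l13367 (nat_lit 11399) (nat_lit 4) (nat_lit 9))
    (@En.n l4073 (nat_lit 10501) (nat_lit 15) (nat_lit 3))
    (@En.n l6103 (nat_lit 11486) (nat_lit 0) (nat_lit 8))
    (@En.n l117 (nat_lit 10497) (nat_lit 7) (nat_lit 4))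
    (@En.n l3486 (nat_lit 11247) (nat_lit 5) (nat_lit 13))
    (@En.n l253 (nat_lit 4292) (nat_lit 8) (nat_lit 10))
    (@En.i (nat_lit 10509) (nat_lit 4) (nat_lit 7))
    (@En.i (nat_lit 10592) (nat_lit 12) (nat_lit 12))
    (@En.n l3486 (nat_lit 8798) (nat_lit 6) (nat_lit 4))
    (@En.i (nat_lit 8618) (nat_lit 14) (nat_lit 7))
    (@En.n l3213 (nat_lit 10672) (nat_lit 1) (nat_lit 8))
    (@En.n l2843 (nat_lit 10500) (nat_lit 15) (nat_lit 3))))
  (@Cl.mk (nat_lit 0x3000800070005000c0006000a000d00040008000300090006000d000b000a) (nat_lit 0x500503304070736) (nat_lit 16) Lb.e (@T16.mk En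
    (@En.n l10858 (nat_lit 8627) (nat_lit 0) (nat_lit 10))
    (@En.n l6992 (nat_lit 8778) (nat_lit 12) (nat_lit 11))
    (@En.n l29320 (nat_lit 11980) (nat_lit 13) (nat_lit 13))
    (@En.n l39587 (nat_lit 10495) (nat_lit 14) (nat_lit 6))
    (@En.i (nat_lit 11402) (nat_lit 4) (nat_lit 9))
    (@En.i (nat_lit 10502) (nat_lit 15) (nat_lit 3))
    (@En.n l29153 (nat_lit 11488) (nat_lit 0) (nat_lit 8))
    (@En.i (nat_lit 10496) (nat_lit 7) (nat_lit 4))
    (@En.i (nat_lit 11309) (nat_lit 5) (nat_lit 13))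
    (@En.n l11244 (nat_lit 6182) (nat_lit 9) (nat_lit 10))
    (@En.i (nat_lit 11673) (nat_lit 4) (nat_lit 6))
    (@En.n l11245 (nat_lit 10593) (nat_lit 12) (nat_lit 12))
    (@En.n l12811 (nat_lit 9702) (nat_lit 6) (nat_lit 5))
    (@En.i (nat_lit 8613) (nat_lit 14) (nat_lit 7))
    (@En.i (nat_lit 12443) (nat_lit 6) (nat_lit 8))
    (@En.n l5368 (nat_lit 10499) (nat_lit 15) (nat_lit 3))))
  (@Cl.mk (nat_lit 0x300090006000d0009000c0003000900070004000b0007000a000d00070005) (nat_lit 0x407650600403400) (nat_lit 16) Lb.e (@T16.mk En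
    (@En.n l829 (nat_lit 6205) (nat_lit 0) (nat_lit 5))
    (@En.n l8262 (nat_lit 9914) (nat_lit 7) (nat_lit 7))
    (@En.n l253 (nat_lit 11249) (nat_lit 5) (nat_lit 13))
    (@En.i (nat_lit 6174) (nat_lit 8) (nat_lit 10))
    (@En.n l2019 (nat_lit 11957) (nat_lit 4) (nat_lit 7))
    (@En.n l23837 (nat_lit 10080) (nat_lit 12) (nat_lit 11))
    (@En.n l688 (nat_lit 8790) (nat_lit 6) (nat_lit 4))
    (@En.n l8262 (nat_lit 10314) (nat_lit 14) (nat_lit 7))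
    (@En.n l23838 (nat_lit 9649) (nat_lit 1) (nat_lit 9))
    (@En.n l23839 (nat_lit 10502) (nat_lit 9) (nat_lit 3))
    (@En.n l8262 (nat_lit 8928) (nat_lit 0) (nat_lit 12))
    (@En.n l23840 (nat_lit 10503) (nat_lit 12) (nat_lit 9))
    (@En.n l23355 (nat_lit 11983) (nat_lit 13) (nat_lit 13))
    (@En.n l14909 (nat_lit 10506) (nat_lit 14) (nat_lit 6))
    (@En.n l23841 (nat_lit 9920) (nat_lit 4) (nat_lit 9))
    (@En.n l8283 (nat_lit 10499) (nat_lit 5) (nat_lit 3))))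
  (@Cl.mk (nat_lit 0x300090006000d000b000a0003000900070005000b0006000a000d00070005) (nat_lit 0x707710600403200) (nat_lit 16) Lb.e (@T16.mk En
    (@En.n l39195 (nat_lit 6206) (nat_lit 0) (nat_lit 5))
    (@En.i (nat_lit 9918) (nat_lit 7) (nat_lit 7))
    (@En.i (nat_lit 11308) (nat_lit 5) (nat_lit 13))
    (@En.n l17790 (nat_lit 6177) (nat_lit 9) (nat_lit 10))
    (@En.n l33009 (nat_lit 11800) (nat_lit 4) (nat_lit 6))
    (@En.n l39196 (nat_lit 10082) (nat_lit 12) (nat_lit 11))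
    (@En.n l14725 (nat_lit 9707) (nat_lit 6) (nat_lit 5))
    (@En.i (nat_lit 8614) (nat_lit 14) (nat_lit 7))
    (@En.n l39197 (nat_lit 9872) (nat_lit 1) (nat_lit 9))
    (@En.n l39198 (nat_lit 10501) (nat_lit 9) (nat_lit 3))
    (@En.n l39199 (nat_lit 8629) (nat_lit 0) (nat_lit 10))
    (@En.n l6992 (nat_lit 8395) (nat_lit 12) (nat_lit 11))
    (@En.n l39200 (nat_lit 11981) (nat_lit 13) (nat_lit 13))
    (@En.n l36110 (nat_lit 10493) (nat_lit 14) (nat_lit 6))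
    (@En.n l4200 (nat_lit 10494) (nat_lit 4) (nat_lit 9))
    (@En.n l7 (nat_lit 10500) (nat_lit 5) (nat_lit 3))))
  (@Cl.mk (nat_lit 0x3000a00060009000c000a000800060004000a00070006000a000d00080006) (nat_lit 0x405415005004540) (nat_lit 16) Lb.e (@T16.mk En
    (@En.n l37353 (nat_lit 6210) (nat_lit 0) (nat_lit 6))
    (@En.n l37354 (nat_lit 9911) (nat_lit 3) (nat_lit 8))
    (@En.n l24529 (nat_lit 11287) (nat_lit 5) (nat_lit 13))
    (@En.n l16127 (nat_lit 10501) (nat_lit 3) (nat_lit 10))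
    (@En.n l24529 (nat_lit 10502) (nat_lit 4) (nat_lit 6))
    (@En.n l17 (nat_lit 11862) (nat_lit 5) (nat_lit 7))
    (@En.i (nat_lit 10078) (nat_lit 7) (nat_lit 10))
    (@En.n l26235 (nat_lit 8773) (nat_lit 7) (nat_lit 4))
    (@En.n l37355 (nat_lit 10315) (nat_lit 8) (nat_lit 6))
    (@En.n l37354 (nat_lit 9653) (nat_lit 1) (nat_lit 8))
    (@En.n l10040 (nat_lit 8631) (nat_lit 11) (nat_lit 10))
    (@En.n l37356 (nat_lit 8475) (nat_lit 6) (nat_lit 12))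
    (@En.n l37354 (nat_lit 9051) (nat_lit 9) (nat_lit 9))
    (@En.n l28 (nat_lit 10508) (nat_lit 14) (nat_lit 6))
    (@En.n l77 (nat_lit 9919) (nat_lit 0) (nat_lit 10))
    (@En.n l37357 (nat_lit 10504) (nat_lit 15) (nat_lit 3))))
  (@Cl.mk (nat_lit 0x3000a00060009000c000a000700060004000b00070006000a000d00050009) (nat_lit 0x806810004004405) (nat_lit 16) Lb.e (@T16.mk En
    (@En.n l39577 (nat_lit 11484) (nat_lit 0) (nat_lit 9))
    (@En.n l117 (nat_lit 10498) (nat_lit 9) (nat_lit 5))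
    (@En.n l1330 (nat_lit 11285) (nat_lit 5) (nat_lit 13))
    (@En.n l50 (nat_lit 10499) (nat_lit 9) (nat_lit 10))
    (@En.n l1330 (nat_lit 10500) (nat_lit 10) (nat_lit 6))
    (@En.n l39578 (nat_lit 11865) (nat_lit 5) (nat_lit 7))
    (@En.n l24851 (nat_lit 10594) (nat_lit 7) (nat_lit 11))
    (@En.n l39579 (nat_lit 8771) (nat_lit 7) (nat_lit 4))
    (@En.i (nat_lit 10317) (nat_lit 10) (nat_lit 6))
    (@En.n l39580 (nat_lit 10673) (nat_lit 1) (nat_lit 7))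
    (@En.n l24853 (nat_lit 8628) (nat_lit 11) (nat_lit 10))
    (@En.n l1708 (nat_lit 7680) (nat_lit 6) (nat_lit 12))
    (@En.n l16536 (nat_lit 9052) (nat_lit 9) (nat_lit 9))
    (@En.n l890 (nat_lit 10507) (nat_lit 14) (nat_lit 6))
    (@En.n l13367 (nat_lit 11398) (nat_lit 0) (nat_lit 10))
    (@En.n l39581 (nat_lit 10503) (nat_lit 15) (nat_lit 3))))
  (@Cl.mk (nat_lit 0x30006000d0009000c00030007000b0004000b0007000a0005000d00050009) (nat_lit 0x74500104030505) (nat_lit 16) Lb.e (@T16.mk En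
    (@En.n l3328 (nat_lit 11419) (nat_lit 0) (nat_lit 9))
    (@En.n l117 (nat_lit 10062) (nat_lit 6) (nat_lit 5))
    (@En.n l1722 (nat_lit 10499) (nat_lit 8) (nat_lit 13))
    (@En.n l3480 (nat_lit 10492) (nat_lit 8) (nat_lit 5))
    (@En.n l2642 (nat_lit 6180) (nat_lit 8) (nat_lit 10))
    (@En.n l2642 (nat_lit 11958) (nat_lit 5) (nat_lit 7))
    (@En.n l5646 (nat_lit 10589) (nat_lit 12) (nat_lit 11))
    (@En.n l6081 (nat_lit 9692) (nat_lit 7) (nat_lit 4))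
    (@En.n l5793 (nat_lit 2938) (nat_lit 8) (nat_lit 11))
    (@En.i (nat_lit 10662) (nat_lit 12) (nat_lit 7))
    (@En.i (nat_lit 10495) (nat_lit 10) (nat_lit 3))
    (@En.i (nat_lit 8870) (nat_lit 0) (nat_lit 12))
    (@En.i (nat_lit 10507) (nat_lit 13) (nat_lit 9))
    (@En.n l601 (nat_lit 12055) (nat_lit 2) (nat_lit 13))
    (@En.n l1081 (nat_lit 10866) (nat_lit 12) (nat_lit 6))
    (@En.n l710 (nat_lit 10506) (nat_lit 15) (nat_lit 3))))
  (@Cl.mk (nat_lit 0x30006000d0009000c00030008000b0004000a0007000a0005000d00080006) (nat_lit 0x85406104030530) (nat_lit 16) Lb.e (@T16.mk En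
    (@En.n l889 (nat_lit 6207) (nat_lit 0) (nat_lit 6))
    (@En.n l719 (nat_lit 9920) (nat_lit 6) (nat_lit 8))
    (@En.n l5882 (nat_lit 10501) (nat_lit 2) (nat_lit 13))
    (@En.i (nat_lit 10490) (nat_lit 8) (nat_lit 5))
    (@En.i (nat_lit 6176) (nat_lit 8) (nat_lit 10))
    (@En.i (nat_lit 11955) (nat_lit 5) (nat_lit 7))
    (@En.n l22877 (nat_lit 10079) (nat_lit 12) (nat_lit 10))
    (@En.i (nat_lit 9431) (nat_lit 7) (nat_lit 4))
    (@En.i (nat_lit 2944) (nat_lit 7) (nat_lit 11))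
    (@En.n l14619 (nat_lit 9650) (nat_lit 1) (nat_lit 8))
    (@En.n l117 (nat_lit 10493) (nat_lit 10) (nat_lit 3))
    (@En.n l719 (nat_lit 8929) (nat_lit 0) (nat_lit 12))
    (@En.n l6675 (nat_lit 10508) (nat_lit 13) (nat_lit 9))
    (@En.i (nat_lit 12052) (nat_lit 2) (nat_lit 13))
    (@En.n l17 (nat_lit 6552) (nat_lit 12) (nat_lit 6))
    (@En.n l720 (nat_lit 10505) (nat_lit 15) (nat_lit 3))))
  (@Cl.mk (nat_lit 0x300060009000c000a0006000a0004000a00070006000a0006000d0006000a) (nat_lit 0x38101040040506) (nat_lit 16) Lb.e (@T16.mk En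
    (@En.n l43408 (nat_lit 11480) (nat_lit 0) (nat_lit 10))
    (@En.n l21321 (nat_lit 10059) (nat_lit 8) (nat_lit 6))
    (@En.n l1722 (nat_lit 10504) (nat_lit 2) (nat_lit 13))
    (@En.n l43409 (nat_lit 11861) (nat_lit 3) (nat_lit 6))
    (@En.n l7 (nat_lit 10505) (nat_lit 4) (nat_lit 10))
    (@En.n l644 (nat_lit 10495) (nat_lit 5) (nat_lit 6))
    (@En.n l43410 (nat_lit 11864) (nat_lit 6) (nat_lit 7))
    (@En.n l21321 (nat_lit 10591) (nat_lit 8) (nat_lit 10))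
    (@En.n l35278 (nat_lit 9690) (nat_lit 8) (nat_lit 4))
    (@En.n l21321 (nat_lit 2941) (nat_lit 9) (nat_lit 10))
    (@En.i (nat_lit 10669) (nat_lit 1) (nat_lit 6))
    (@En.n l43411 (nat_lit 8632) (nat_lit 12) (nat_lit 10))
    (@En.n l7 (nat_lit 8440) (nat_lit 6) (nat_lit 12))
    (@En.n l43412 (nat_lit 9893) (nat_lit 9) (nat_lit 9))
    (@En.n l1081 (nat_lit 10869) (nat_lit 12) (nat_lit 6))
    (@En.n l35709 (nat_lit 10508) (nat_lit 15) (nat_lit 3))))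
  (@Cl.mk (nat_lit 0x300060009000c000a0007000a0004000900070006000a0006000d00090007) (nat_lit 0x47401050040650) (nat_lit 16) Lb.e (@T16.mk En
    (@En.n l23098 (nat_lit 6209) (nat_lit 0) (nat_lit 7))
    (@En.i (nat_lit 9919) (nat_lit 2) (nat_lit 9))
    (@En.i (nat_lit 10503) (nat_lit 2) (nat_lit 13))
    (@En.i (nat_lit 11859) (nat_lit 3) (nat_lit 6))
    (@En.n l5646 (nat_lit 10506) (nat_lit 4) (nat_lit 10))
    (@En.n l5646 (nat_lit 10493) (nat_lit 5) (nat_lit 6))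
    (@En.n l17 (nat_lit 11863) (nat_lit 6) (nat_lit 7))
    (@En.i (nat_lit 10077) (nat_lit 8) (nat_lit 9))
    (@En.i (nat_lit 8403) (nat_lit 8) (nat_lit 4))
    (@En.i (nat_lit 2948) (nat_lit 8) (nat_lit 10))
    (@En.i (nat_lit 9651) (nat_lit 1) (nat_lit 7))
    (@En.n l10040 (nat_lit 9128) (nat_lit 12) (nat_lit 10))
    (@En.n l1112 (nat_lit 8473) (nat_lit 6) (nat_lit 12))
    (@En.n l226 (nat_lit 11273) (nat_lit 9) (nat_lit 9))
    (@En.i (nat_lit 2092) (nat_lit 12) (nat_lit 6))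
    (@En.n l29711 (nat_lit 10507) (nat_lit 15) (nat_lit 3))))
  (@Cl.mk (nat_lit 0x300080006000c00090007000c00040009000800040007000a000d00090007) (nat_lit 0x7707020002740) (nat_lit 16) Lb.e (@T16.mk En
    (@En.n l6731 (nat_lit 11485) (nat_lit 0) (nat_lit 7))
    (@En.n l16977 (nat_lit 11078) (nat_lit 12) (nat_lit 9))
    (@En.n l3486 (nat_lit 11248) (nat_lit 5) (nat_lit 13))
    (@En.n l11247 (nat_lit 11211) (nat_lit 8) (nat_lit 10))
    (@En.n l3106 (nat_lit 12165) (nat_lit 11) (nat_lit 7))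
    (@En.n l3486 (nat_lit 8794) (nat_lit 5) (nat_lit 4))
    (@En.i (nat_lit 12473) (nat_lit 0) (nat_lit 8))
    (@En.n l6101 (nat_lit 10671) (nat_lit 1) (nat_lit 9))
    (@En.n l2843 (nat_lit 11673) (nat_lit 8) (nat_lit 4))
    (@En.n l3 (nat_lit 10499) (nat_lit 0) (nat_lit 12))
    (@En.i (nat_lit 9946) (nat_lit 1) (nat_lit 7))
    (@En.n l39578 (nat_lit 11865) (nat_lit 12) (nat_lit 9))
    (@En.n l4592 (nat_lit 11984) (nat_lit 13) (nat_lit 12))
    (@En.n l23605 (nat_lit 11958) (nat_lit 14) (nat_lit 6))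
    (@En.n l13368 (nat_lit 11401) (nat_lit 5) (nat_lit 8))
    (@En.n l10356 (nat_lit 11957) (nat_lit 15) (nat_lit 3))))
  (@Cl.mk (nat_lit 0x30009000800050009000c0007000b00070004000800070005000d000b0009) (nat_lit 0x110140600600616) (nat_lit 16) Lb.e (@T16.mk En
    (@En.n l32800 (nat_lit 9637) (nat_lit 0) (nat_lit 9))
    (@En.n l3522 (nat_lit 9949) (nat_lit 11) (nat_lit 11))
    (@En.n l42628 (nat_lit 12218) (nat_lit 2) (nat_lit 13))
    (@En.n l33103 (nat_lit 10496) (nat_lit 3) (nat_lit 5))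
    (@En.n l7 (nat_lit 10514) (nat_lit 4) (nat_lit 7))
    (@En.i (nat_lit 10517) (nat_lit 5) (nat_lit 8))
    (@En.n l18 (nat_lit 6125) (nat_lit 6) (nat_lit 4))
    (@En.n l43622 (nat_lit 10358) (nat_lit 0) (nat_lit 7))
    (@En.i (nat_lit 5654) (nat_lit 8) (nat_lit 11))
    (@En.n l34007 (nat_lit 10406) (nat_lit 10) (nat_lit 7))
    (@En.n l5838 (nat_lit 9613) (nat_lit 6) (nat_lit 12))
    (@En.n l18757 (nat_lit 2882) (nat_lit 10) (nat_lit 9))
    (@En.n l43623 (nat_lit 9570) (nat_lit 13) (nat_lit 5))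
    (@En.n l43624 (nat_lit 9553) (nat_lit 14) (nat_lit 8))
    (@En.n l3522 (nat_lit 9812) (nat_lit 1) (nat_lit 9))
    (@En.n l8258 (nat_lit 10511) (nat_lit 15) (nat_lit 3))))
  (@Cl.mk (nat_lit 0x30009000800040009000c0008000b00070004000800070005000d0008000c) (nat_lit 0x310144100500725) (nat_lit 16) Lb.e (@T16.mk En
    (@En.n l23116 (nat_lit 12736) (nat_lit 0) (nat_lit 12))
    (@En.i (nat_lit 10512) (nat_lit 4) (nat_lit 8))
    (@En.n l38887 (nat_lit 12217) (nat_lit 2) (nat_lit 13))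
    (@En.n l23116 (nat_lit 10497) (nat_lit 3) (nat_lit 5))
    (@En.n l17 (nat_lit 10513) (nat_lit 4) (nat_lit 7))
    (@En.i (nat_lit 10516) (nat_lit 5) (nat_lit 8))
    (@En.n l1865 (nat_lit 6126) (nat_lit 6) (nat_lit 4))
    (@En.n l619 (nat_lit 9669) (nat_lit 0) (nat_lit 7))
    (@En.i (nat_lit 5657) (nat_lit 7) (nat_lit 11))
    (@En.n l27275 (nat_lit 10083) (nat_lit 13) (nat_lit 8))
    (@En.n l1112 (nat_lit 9611) (nat_lit 6) (nat_lit 12))
    (@En.i (nat_lit 2880) (nat_lit 12) (nat_lit 9))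
    (@En.i (nat_lit 9718) (nat_lit 15) (nat_lit 4))
    (@En.n l17017 (nat_lit 9549) (nat_lit 14) (nat_lit 8))
    (@En.i (nat_lit 10373) (nat_lit 1) (nat_lit 9))
    (@En.n l3528 (nat_lit 10510) (nat_lit 15) (nat_lit 3))))
noncomputable def a657 : T16 Cl := @T16.mk Cl
  (@Cl.mk (nat_lit 0x40008000b00080007000b000800050009000800050008000c000900080007) (nat_lit 0x144024063014130) (nat_lit 16) Lb.e (@T16.mk En
    (@En.n l17017 (nat_lit 9545) (nat_lit 0) (nat_lit 7))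
    (@En.n l40231 (nat_lit 10380) (nat_lit 8) (nat_lit 8))
    (@En.n l27095 (nat_lit 9641) (nat_lit 13) (nat_lit 9))
    (@En.n l38347 (nat_lit 11114) (nat_lit 7) (nat_lit 12))
    (@En.n l40231 (nat_lit 6584) (nat_lit 10) (nat_lit 8))
    (@En.n l23116 (nat_lit 10498) (nat_lit 5) (nat_lit 5))
    (@En.n l17 (nat_lit 10515) (nat_lit 8) (nat_lit 8))
    (@En.i (nat_lit 10518) (nat_lit 10) (nat_lit 9))
    (@En.n l1865 (nat_lit 6127) (nat_lit 2) (nat_lit 5))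
    (@En.n l30044 (nat_lit 6280) (nat_lit 0) (nat_lit 8))
    (@En.n l28 (nat_lit 10511) (nat_lit 8) (nat_lit 11))
    (@En.n l18989 (nat_lit 10510) (nat_lit 9) (nat_lit 7))
    (@En.n l40232 (nat_lit 10073) (nat_lit 13) (nat_lit 8))
    (@En.n l1112 (nat_lit 9609) (nat_lit 7) (nat_lit 11))
    (@En.n l30044 (nat_lit 2848) (nat_lit 11) (nat_lit 8))
    (@En.n l40233 (nat_lit 9719) (nat_lit 15) (nat_lit 4))))
  (@Cl.mk (nat_lit 0x30008000d000400090003000c0009000c0008000400070004000d0007000c) (nat_lit 0x630105516000609) (nat_lit 16) Lb.e (@T16.mk En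
    (@En.i (nat_lit 12737) (nat_lit 0) (nat_lit 12))
    (@En.i (nat_lit 10515) (nat_lit 6) (nat_lit 7))
    (@En.i (nat_lit 12215) (nat_lit 2) (nat_lit 13))
    (@En.i (nat_lit 10060) (nat_lit 3) (nat_lit 4))
    (@En.i (nat_lit 11141) (nat_lit 11) (nat_lit 7))
    (@En.n l1865 (nat_lit 6122) (nat_lit 5) (nat_lit 4))
    (@En.n l619 (nat_lit 9668) (nat_lit 0) (nat_lit 8))
    (@En.i (nat_lit 5656) (nat_lit 6) (nat_lit 12))
    (@En.n l27275 (nat_lit 10085) (nat_lit 14) (nat_lit 9))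
    (@En.i (nat_lit 10511) (nat_lit 10) (nat_lit 12))
    (@En.i (nat_lit 10053) (nat_lit 10) (nat_lit 3))
    (@En.i (nat_lit 2851) (nat_lit 0) (nat_lit 9))
    (@En.i (nat_lit 9716) (nat_lit 6) (nat_lit 4))
    (@En.n l649 (nat_lit 8808) (nat_lit 0) (nat_lit 13))
    (@En.i (nat_lit 10375) (nat_lit 1) (nat_lit 8))
    (@En.n l3528 (nat_lit 10514) (nat_lit 15) (nat_lit 3))))
  (@Cl.mk (nat_lit 0x30008000d000500090003000c0008000c0008000400070004000d000b0008) (nat_lit 0x490205173000313) (nat_lit 16) Lb.e (@T16.mk En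
    (@En.i (nat_lit 9636) (nat_lit 0) (nat_lit 8))
    (@En.n l3522 (nat_lit 9473) (nat_lit 12) (nat_lit 11))
    (@En.n l22466 (nat_lit 12216) (nat_lit 2) (nat_lit 13))
    (@En.n l11386 (nat_lit 10061) (nat_lit 3) (nat_lit 4))
    (@En.i (nat_lit 11140) (nat_lit 11) (nat_lit 7))
    (@En.n l18 (nat_lit 6121) (nat_lit 5) (nat_lit 4))
    (@En.n l22607 (nat_lit 10359) (nat_lit 0) (nat_lit 8))
    (@En.i (nat_lit 5655) (nat_lit 7) (nat_lit 12))
    (@En.i (nat_lit 10403) (nat_lit 14) (nat_lit 8))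
    (@En.i (nat_lit 10510) (nat_lit 10) (nat_lit 12))
    (@En.n l3522 (nat_lit 10055) (nat_lit 10) (nat_lit 3))
    (@En.n l21428 (nat_lit 4448) (nat_lit 0) (nat_lit 9))
    (@En.n l18738 (nat_lit 9715) (nat_lit 6) (nat_lit 5))
    (@En.i (nat_lit 8811) (nat_lit 2) (nat_lit 13))
    (@En.n l3522 (nat_lit 9813) (nat_lit 3) (nat_lit 8))
    (@En.n l8258 (nat_lit 10513) (nat_lit 15) (nat_lit 3))))
  (@Cl.mk (nat_lit 0x3000b00090008000c00090005000800040007000c00080007000d00040008) (nat_lit 0x552210200610301) (nat_lit 16) Lb.e (@T16.mk En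
    (@En.n l13676 (nat_lit 2847) (nat_lit 0) (nat_lit 8))
    (@En.i (nat_lit 9717) (nat_lit 9) (nat_lit 4))
    (@En.n l649 (nat_lit 8807) (nat_lit 0) (nat_lit 13))
    (@En.n l13671 (nat_lit 10381) (nat_lit 9) (nat_lit 7))
    (@En.i (nat_lit 9640) (nat_lit 4) (nat_lit 8))
    (@En.n l27135 (nat_lit 11119) (nat_lit 8) (nat_lit 12))
    (@En.n l13673 (nat_lit 6582) (nat_lit 11) (nat_lit 7))
    (@En.i (nat_lit 10058) (nat_lit 7) (nat_lit 4))
    (@En.i (nat_lit 11142) (nat_lit 10) (nat_lit 8))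
    (@En.n l1865 (nat_lit 6124) (nat_lit 1) (nat_lit 5))
    (@En.n l97 (nat_lit 6279) (nat_lit 11) (nat_lit 9))
    (@En.n l28 (nat_lit 10513) (nat_lit 7) (nat_lit 12))
    (@En.n l18989 (nat_lit 10514) (nat_lit 8) (nat_lit 8))
    (@En.n l19470 (nat_lit 10087) (nat_lit 14) (nat_lit 9))
    (@En.i (nat_lit 10512) (nat_lit 13) (nat_lit 11))
    (@En.i (nat_lit 10054) (nat_lit 15) (nat_lit 3))))
  (@Cl.mk (nat_lit 0x300080008000d0005000a00030009000c0008000800060004000d0007000b) (nat_lit 0x504040425400906) (nat_lit 16) Lb.e (@T16.mk En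
    (@En.n l4814 (nat_lit 12495) (nat_lit 0) (nat_lit 11))
    (@En.i (nat_lit 10518) (nat_lit 7) (nat_lit 7))
    (@En.n l40556 (nat_lit 5437) (nat_lit 2) (nat_lit 13))
    (@En.n l1003 (nat_lit 11410) (nat_lit 3) (nat_lit 4))
    (@En.n l17 (nat_lit 11152) (nat_lit 4) (nat_lit 6))
    (@En.n l9878 (nat_lit 11460) (nat_lit 8) (nat_lit 8))
    (@En.n l619 (nat_lit 11760) (nat_lit 6) (nat_lit 8))
    (@En.i (nat_lit 5653) (nat_lit 6) (nat_lit 12))
    (@En.n l8776 (nat_lit 10740) (nat_lit 9) (nat_lit 9))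
    (@En.n l9875 (nat_lit 10519) (nat_lit 9) (nat_lit 3))
    (@En.n l30043 (nat_lit 3957) (nat_lit 0) (nat_lit 10))
    (@En.i (nat_lit 10522) (nat_lit 12) (nat_lit 5))
    (@En.i (nat_lit 10513) (nat_lit 13) (nat_lit 13))
    (@En.n l11401 (nat_lit 11416) (nat_lit 8) (nat_lit 8))
    (@En.i (nat_lit 10708) (nat_lit 4) (nat_lit 8))
    (@En.n l3528 (nat_lit 10517) (nat_lit 15) (nat_lit 3))))
  (@Cl.mk (nat_lit 0x300080008000d0006000a00030008000c0008000800060004000d000a0008) (nat_lit 0x20a040035500264) (nat_lit 16) Lb.e (@T16.mk En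
    (@En.n l32865 (nat_lit 9639) (nat_lit 0) (nat_lit 8))
    (@En.n l3522 (nat_lit 11087) (nat_lit 8) (nat_lit 10))
    (@En.n l32866 (nat_lit 6526) (nat_lit 2) (nat_lit 13))
    (@En.n l32867 (nat_lit 11411) (nat_lit 3) (nat_lit 4))
    (@En.n l32868 (nat_lit 11110) (nat_lit 4) (nat_lit 6))
    (@En.n l32869 (nat_lit 11463) (nat_lit 8) (nat_lit 8))
    (@En.n l32870 (nat_lit 10361) (nat_lit 6) (nat_lit 8))
    (@En.i (nat_lit 5553) (nat_lit 7) (nat_lit 12))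
    (@En.n l32871 (nat_lit 12020) (nat_lit 12) (nat_lit 8))
    (@En.n l32872 (nat_lit 10521) (nat_lit 9) (nat_lit 3))
    (@En.n l32870 (nat_lit 3956) (nat_lit 0) (nat_lit 10))
    (@En.n l32873 (nat_lit 12093) (nat_lit 12) (nat_lit 6))
    (@En.i (nat_lit 10514) (nat_lit 13) (nat_lit 13))
    (@En.n l7423 (nat_lit 11417) (nat_lit 8) (nat_lit 8))
    (@En.n l32874 (nat_lit 10416) (nat_lit 4) (nat_lit 8))
    (@En.n l8258 (nat_lit 10516) (nat_lit 15) (nat_lit 3))))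
  (@Cl.mk (nat_lit 0x300090008000c00090009000700040007000b000800070007000d00050009) (nat_lit 0x513650001400402) (nat_lit 16) Lb.e (@T16.mk En
    (@En.n l27295 (nat_lit 3150) (nat_lit 0) (nat_lit 9))
    (@En.n l27296 (nat_lit 10523) (nat_lit 8) (nat_lit 5))
    (@En.i (nat_lit 10515) (nat_lit 2) (nat_lit 13))
    (@En.n l11401 (nat_lit 11418) (nat_lit 9) (nat_lit 7))
    (@En.n l27297 (nat_lit 10707) (nat_lit 4) (nat_lit 7))
    (@En.n l27298 (nat_lit 12002) (nat_lit 5) (nat_lit 8))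
    (@En.n l27299 (nat_lit 5861) (nat_lit 8) (nat_lit 11))
    (@En.n l27297 (nat_lit 3151) (nat_lit 11) (nat_lit 7))
    (@En.n l1003 (nat_lit 11414) (nat_lit 8) (nat_lit 4))
    (@En.n l27300 (nat_lit 11153) (nat_lit 0) (nat_lit 7))
    (@En.n l9878 (nat_lit 11455) (nat_lit 7) (nat_lit 9))
    (@En.n l27301 (nat_lit 11276) (nat_lit 12) (nat_lit 9))
    (@En.n l28 (nat_lit 10516) (nat_lit 7) (nat_lit 12))
    (@En.n l18989 (nat_lit 10517) (nat_lit 8) (nat_lit 8))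
    (@En.n l27302 (nat_lit 10739) (nat_lit 5) (nat_lit 9))
    (@En.n l27303 (nat_lit 10520) (nat_lit 15) (nat_lit 3))))
  (@Cl.mk (nat_lit 0x300080008000d0009000600030009000c0008000800070004000d0007000a) (nat_lit 0x50a100642500202) (nat_lit 16) Lb.e (@T16.mk En
    (@En.n l781 (nat_lit 12612) (nat_lit 0) (nat_lit 10))
    (@En.n l36071 (nat_lit 10520) (nat_lit 7) (nat_lit 7))
    (@En.n l7003 (nat_lit 5436) (nat_lit 2) (nat_lit 13))
    (@En.n l13052 (nat_lit 11476) (nat_lit 3) (nat_lit 4))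
    (@En.n l6981 (nat_lit 11765) (nat_lit 9) (nat_lit 7))
    (@En.n l55 (nat_lit 11457) (nat_lit 8) (nat_lit 8))
    (@En.n l37963 (nat_lit 11279) (nat_lit 6) (nat_lit 8))
    (@En.i (nat_lit 5640) (nat_lit 6) (nat_lit 12))
    (@En.n l29027 (nat_lit 10522) (nat_lit 9) (nat_lit 9))
    (@En.n l20100 (nat_lit 10516) (nat_lit 9) (nat_lit 3))
    (@En.n l22482 (nat_lit 7568) (nat_lit 0) (nat_lit 6))
    (@En.n l217 (nat_lit 5167) (nat_lit 12) (nat_lit 9))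
    (@En.n l7477 (nat_lit 10053) (nat_lit 13) (nat_lit 13))
    (@En.n l22483 (nat_lit 11486) (nat_lit 8) (nat_lit 8))
    (@En.n l7477 (nat_lit 10309) (nat_lit 4) (nat_lit 8))
    (@En.n l117 (nat_lit 10521) (nat_lit 15) (nat_lit 3))))
  (@Cl.mk (nat_lit 0x300090008000c00090009000800040007000a000800070007000d00080006) (nat_lit 0x565362007400310) (nat_lit 16) Lb.e (@T16.mk En
    (@En.n l33004 (nat_lit 7570) (nat_lit 0) (nat_lit 6))
    (@En.n l33887 (nat_lit 3159) (nat_lit 9) (nat_lit 8))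
    (@En.n l40550 (nat_lit 10054) (nat_lit 2) (nat_lit 13))
    (@En.n l40551 (nat_lit 11484) (nat_lit 9) (nat_lit 7))
    (@En.n l12811 (nat_lit 10311) (nat_lit 4) (nat_lit 7))
    (@En.i (nat_lit 12003) (nat_lit 5) (nat_lit 8))
    (@En.n l40552 (nat_lit 12723) (nat_lit 8) (nat_lit 10))
    (@En.n l9876 (nat_lit 4567) (nat_lit 11) (nat_lit 7))
    (@En.n l936 (nat_lit 11477) (nat_lit 8) (nat_lit 4))
    (@En.n l55 (nat_lit 11767) (nat_lit 0) (nat_lit 8))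
    (@En.n l40553 (nat_lit 11452) (nat_lit 7) (nat_lit 9))
    (@En.n l8280 (nat_lit 11275) (nat_lit 12) (nat_lit 9))
    (@En.n l36517 (nat_lit 10519) (nat_lit 7) (nat_lit 12))
    (@En.n l36517 (nat_lit 10521) (nat_lit 8) (nat_lit 8))
    (@En.n l29319 (nat_lit 10523) (nat_lit 5) (nat_lit 9))
    (@En.n l15101 (nat_lit 10518) (nat_lit 15) (nat_lit 3))))
  (@Cl.mk (nat_lit 0x300080008000d0009000700030008000c0008000800070004000d00090008) (nat_lit 0x508100542500804) (nat_lit 16) Lb.e (@T16.mk En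
    (@En.n l29563 (nat_lit 12315) (nat_lit 0) (nat_lit 8))
    (@En.n l97 (nat_lit 12173) (nat_lit 14) (nat_lit 9))
    (@En.n l29564 (nat_lit 5441) (nat_lit 2) (nat_lit 13))
    (@En.n l29565 (nat_lit 11466) (nat_lit 3) (nat_lit 4))
    (@En.n l6996 (nat_lit 11770) (nat_lit 4) (nat_lit 7))
    (@En.n l55 (nat_lit 11464) (nat_lit 8) (nat_lit 8))
    (@En.n l16733 (nat_lit 10366) (nat_lit 6) (nat_lit 8))
    (@En.i (nat_lit 3257) (nat_lit 7) (nat_lit 12))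
    (@En.n l20170 (nat_lit 10913) (nat_lit 9) (nat_lit 8))
    (@En.n l13950 (nat_lit 10517) (nat_lit 9) (nat_lit 3))
    (@En.n l29566 (nat_lit 7582) (nat_lit 0) (nat_lit 7))
    (@En.n l217 (nat_lit 5168) (nat_lit 12) (nat_lit 9))
    (@En.n l29567 (nat_lit 10055) (nat_lit 13) (nat_lit 13))
    (@En.n l29568 (nat_lit 11488) (nat_lit 8) (nat_lit 8))
    (@En.n l29569 (nat_lit 10415) (nat_lit 4) (nat_lit 8))
    (@En.n l152 (nat_lit 10519) (nat_lit 15) (nat_lit 3))))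
  (@Cl.mk (nat_lit 0x4000900090005000a00060009000c0007000700060004000c0007000b000a) (nat_lit 0x630105300005043) (nat_lit 16) Lb.e (@T16.mk En
    (@En.n l16217 (nat_lit 10519) (nat_lit 0) (nat_lit 10))
    (@En.n l29769 (nat_lit 10928) (nat_lit 1) (nat_lit 11))
    (@En.n l27296 (nat_lit 10523) (nat_lit 14) (nat_lit 7))
    (@En.n l29770 (nat_lit 5435) (nat_lit 3) (nat_lit 12))
    (@En.n l1003 (nat_lit 11479) (nat_lit 12) (nat_lit 4))
    (@En.n l13196 (nat_lit 11769) (nat_lit 10) (nat_lit 6))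
    (@En.n l16211 (nat_lit 11459) (nat_lit 9) (nat_lit 7))
    (@En.n l29771 (nat_lit 9848) (nat_lit 7) (nat_lit 7))
    (@En.i (nat_lit 10334) (nat_lit 6) (nat_lit 12))
    (@En.n l13196 (nat_lit 12302) (nat_lit 9) (nat_lit 9))
    (@En.n l29772 (nat_lit 7569) (nat_lit 5) (nat_lit 6))
    (@En.n l16214 (nat_lit 5170) (nat_lit 12) (nat_lit 10))
    (@En.i (nat_lit 11085) (nat_lit 7) (nat_lit 5))
    (@En.n l11401 (nat_lit 11485) (nat_lit 7) (nat_lit 9))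
    (@En.i (nat_lit 10308) (nat_lit 11) (nat_lit 9))
    (@En.n l29772 (nat_lit 10913) (nat_lit 15) (nat_lit 4))))
  (@Cl.mk (nat_lit 0x40007000b000a00090008000800050009000600090007000c000800080007) (nat_lit 0x38512030404350) (nat_lit 16) Lb.e (@T16.mk En
    (@En.n l11165 (nat_lit 11950) (nat_lit 0) (nat_lit 7))
    (@En.n l36273 (nat_lit 11453) (nat_lit 8) (nat_lit 8))
    (@En.i (nat_lit 11277) (nat_lit 8) (nat_lit 8))
    (@En.n l36274 (nat_lit 10522) (nat_lit 8) (nat_lit 12))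
    (@En.n l31397 (nat_lit 12093) (nat_lit 9) (nat_lit 7))
    (@En.n l31400 (nat_lit 11572) (nat_lit 9) (nat_lit 9))
    (@En.n l36275 (nat_lit 7571) (nat_lit 6) (nat_lit 6))
    (@En.i (nat_lit 5172) (nat_lit 10) (nat_lit 9))
    (@En.n l77 (nat_lit 11084) (nat_lit 8) (nat_lit 5))
    (@En.n l19122 (nat_lit 11483) (nat_lit 8) (nat_lit 8))
    (@En.n l20813 (nat_lit 10310) (nat_lit 8) (nat_lit 8))
    (@En.n l36276 (nat_lit 12176) (nat_lit 7) (nat_lit 9))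
    (@En.n l36277 (nat_lit 10520) (nat_lit 6) (nat_lit 10))
    (@En.n l36278 (nat_lit 10424) (nat_lit 8) (nat_lit 11))
    (@En.n l36279 (nat_lit 4568) (nat_lit 11) (nat_lit 7))
    (@En.n l11512 (nat_lit 11478) (nat_lit 15) (nat_lit 4))))
  (@Cl.mk (nat_lit 0x2000700060004000d000a000d0003000b000300090006000a0005000e000c) (nat_lit 0xa46020708021) (nat_lit 16) Lb.e (@T16.mk En
    (@En.n l16049 (nat_lit 6404) (nat_lit 10) (nat_lit 12))
    (@En.n l18 (nat_lit 6189) (nat_lit 1) (nat_lit 14))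
    (@En.i (nat_lit 9184) (nat_lit 2) (nat_lit 5))
    (@En.i (nat_lit 12484) (nat_lit 3) (nat_lit 10))
    (@En.n l18474 (nat_lit 10526) (nat_lit 4) (nat_lit 6))
    (@En.i (nat_lit 9989) (nat_lit 5) (nat_lit 9))
    (@En.i (nat_lit 10525) (nat_lit 6) (nat_lit 3))
    (@En.n l3348 (nat_lit 7627) (nat_lit 0) (nat_lit 11))
    (@En.n l4830 (nat_lit 8876) (nat_lit 8) (nat_lit 3))
    (@En.n l13394 (nat_lit 4662) (nat_lit 10) (nat_lit 13))
    (@En.n l7246 (nat_lit 9737) (nat_lit 11) (nat_lit 10))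
    (@En.i (nat_lit 5102) (nat_lit 12) (nat_lit 13))
    (@En.n l7246 (nat_lit 4333) (nat_lit 13) (nat_lit 4))
    (@En.n l6147 (nat_lit 6080) (nat_lit 14) (nat_lit 6))
    (@En.n l6081 (nat_lit 10484) (nat_lit 7) (nat_lit 7))
    (@En.n l3 (nat_lit 10524) (nat_lit 15) (nat_lit 2))))
  (@Cl.mk (nat_lit 0x2000700060004000c000a000d000a0004000300090006000a0006000e000c) (nat_lit 0x731300705061) (nat_lit 16) Lb.e (@T16.mk En
    (@En.n l7576 (nat_lit 6405) (nat_lit 10) (nat_lit 12))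
    (@En.n l18 (nat_lit 6191) (nat_lit 1) (nat_lit 14))
    (@En.n l11286 (nat_lit 9189) (nat_lit 2) (nat_lit 6))
    (@En.i (nat_lit 12485) (nat_lit 3) (nat_lit 10))
    (@En.n l24765 (nat_lit 10527) (nat_lit 4) (nat_lit 6))
    (@En.n l7017 (nat_lit 10530) (nat_lit 5) (nat_lit 9))
    (@En.n l7 (nat_lit 10524) (nat_lit 6) (nat_lit 3))
    (@En.n l5203 (nat_lit 8942) (nat_lit 7) (nat_lit 4))
    (@En.i (nat_lit 10529) (nat_lit 9) (nat_lit 10))
    (@En.n l24766 (nat_lit 4661) (nat_lit 10) (nat_lit 13))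
    (@En.n l11287 (nat_lit 9745) (nat_lit 11) (nat_lit 10))
    (@En.i (nat_lit 8992) (nat_lit 12) (nat_lit 12))
    (@En.n l24767 (nat_lit 10152) (nat_lit 13) (nat_lit 4))
    (@En.n l5337 (nat_lit 6083) (nat_lit 14) (nat_lit 6))
    (@En.n l6081 (nat_lit 10438) (nat_lit 7) (nat_lit 7))
    (@En.n l3 (nat_lit 10525) (nat_lit 15) (nat_lit 2))))
  (@Cl.mk (nat_lit 0x2000b00060004000c000a0005000d0004000c00030006000a0004000e000c) (nat_lit 0x400940703007021) (nat_lit 16) Lb.e (@T16.mk En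
    (@En.n l644 (nat_lit 6406) (nat_lit 11) (nat_lit 12))
    (@En.n l25259 (nat_lit 6192) (nat_lit 1) (nat_lit 14))
    (@En.n l15739 (nat_lit 9182) (nat_lit 2) (nat_lit 4))
    (@En.n l6524 (nat_lit 11894) (nat_lit 3) (nat_lit 10))
    (@En.n l152 (nat_lit 7684) (nat_lit 12) (nat_lit 6))
    (@En.n l117 (nat_lit 10527) (nat_lit 5) (nat_lit 3))
    (@En.n l781 (nat_lit 7628) (nat_lit 0) (nat_lit 12))
    (@En.n l19001 (nat_lit 8534) (nat_lit 7) (nat_lit 4))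
    (@En.n l25065 (nat_lit 10524) (nat_lit 9) (nat_lit 13))
    (@En.n l9775 (nat_lit 9004) (nat_lit 9) (nat_lit 5))
    (@En.i (nat_lit 9740) (nat_lit 11) (nat_lit 10))
    (@En.i (nat_lit 5107) (nat_lit 12) (nat_lit 12))
    (@En.i (nat_lit 4328) (nat_lit 6) (nat_lit 4))
    (@En.n l39482 (nat_lit 6082) (nat_lit 14) (nat_lit 6))
    (@En.n l6524 (nat_lit 10586) (nat_lit 9) (nat_lit 11))
    (@En.n l7 (nat_lit 10526) (nat_lit 15) (nat_lit 2))))
  (@Cl.mk (nat_lit 0x2000b00060004000b000a0005000d000b000500030006000a0005000e000c) (nat_lit 0x500840250004051) (nat_lit 16) Lb.e (@T16.mk En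
    (@En.n l644 (nat_lit 6407) (nat_lit 11) (nat_lit 12))
    (@En.n l1140 (nat_lit 6193) (nat_lit 1) (nat_lit 14))
    (@En.n l28996 (nat_lit 9190) (nat_lit 2) (nat_lit 5))
    (@En.n l35927 (nat_lit 12425) (nat_lit 3) (nat_lit 10))
    (@En.i (nat_lit 12284) (nat_lit 4) (nat_lit 6))
    (@En.n l152 (nat_lit 10526) (nat_lit 5) (nat_lit 3))
    (@En.n l10661 (nat_lit 8944) (nat_lit 0) (nat_lit 5))
    (@En.n l35928 (nat_lit 10528) (nat_lit 8) (nat_lit 11))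
    (@En.n l35929 (nat_lit 10525) (nat_lit 9) (nat_lit 13))
    (@En.n l14143 (nat_lit 9005) (nat_lit 9) (nat_lit 5))
    (@En.n l35930 (nat_lit 9741) (nat_lit 11) (nat_lit 10))
    (@En.n l17308 (nat_lit 8993) (nat_lit 12) (nat_lit 11))
    (@En.i (nat_lit 9168) (nat_lit 6) (nat_lit 4))
    (@En.n l35931 (nat_lit 6240) (nat_lit 14) (nat_lit 6))
    (@En.n l7201 (nat_lit 10583) (nat_lit 9) (nat_lit 11))
    (@En.n l7 (nat_lit 10527) (nat_lit 15) (nat_lit 2))))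
noncomputable def a658 : T16 Cl := @T16.mk Cl
  (@Cl.mk (nat_lit 0x2000b00070004000c000b0005000b0004000c0005000900050004000e000c) (nat_lit 0x600180402040066) (nat_lit 16) Lb.e (@T16.mk En
    (@En.i (nat_lit 10531) (nat_lit 3) (nat_lit 12))
    (@En.i (nat_lit 10530) (nat_lit 1) (nat_lit 14))
    (@En.n l27609 (nat_lit 10526) (nat_lit 2) (nat_lit 4))
    (@En.n l3038 (nat_lit 9191) (nat_lit 3) (nat_lit 5))
    (@En.n l77 (nat_lit 11895) (nat_lit 4) (nat_lit 9))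
    (@En.n l27793 (nat_lit 12285) (nat_lit 5) (nat_lit 5))
    (@En.n l5856 (nat_lit 7640) (nat_lit 7) (nat_lit 12))
    (@En.n l27731 (nat_lit 8770) (nat_lit 7) (nat_lit 4))
    (@En.n l397 (nat_lit 10534) (nat_lit 9) (nat_lit 11))
    (@En.n l38011 (nat_lit 9007) (nat_lit 9) (nat_lit 5))
    (@En.n l14127 (nat_lit 8538) (nat_lit 11) (nat_lit 11))
    (@En.n l3047 (nat_lit 6815) (nat_lit 12) (nat_lit 12))
    (@En.n l27731 (nat_lit 9169) (nat_lit 13) (nat_lit 4))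
    (@En.i (nat_lit 5935) (nat_lit 14) (nat_lit 7))
    (@En.i (nat_lit 10581) (nat_lit 1) (nat_lit 11))
    (@En.n l3 (nat_lit 10528) (nat_lit 15) (nat_lit 2))))
  (@Cl.mk (nat_lit 0x2000800070004000d000b000a0003000b00080005000900060005000e000c) (nat_lit 0x600822024060074) (nat_lit 16) Lb.e (@T16.mk En
    (@En.n l23361 (nat_lit 10533) (nat_lit 8) (nat_lit 12))
    (@En.n l15506 (nat_lit 12513) (nat_lit 1) (nat_lit 14))
    (@En.i (nat_lit 10524) (nat_lit 2) (nat_lit 5))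
    (@En.n l23362 (nat_lit 12685) (nat_lit 3) (nat_lit 6))
    (@En.i (nat_lit 12494) (nat_lit 4) (nat_lit 9))
    (@En.n l18476 (nat_lit 10528) (nat_lit 5) (nat_lit 5))
    (@En.n l23363 (nat_lit 10535) (nat_lit 6) (nat_lit 8))
    (@En.n l5911 (nat_lit 904) (nat_lit 8) (nat_lit 11))
    (@En.n l4830 (nat_lit 12736) (nat_lit 8) (nat_lit 3))
    (@En.n l13658 (nat_lit 9236) (nat_lit 10) (nat_lit 10))
    (@En.n l23364 (nat_lit 9731) (nat_lit 11) (nat_lit 11))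
    (@En.n l17040 (nat_lit 5079) (nat_lit 12) (nat_lit 13))
    (@En.n l23365 (nat_lit 11849) (nat_lit 13) (nat_lit 4))
    (@En.n l23366 (nat_lit 6075) (nat_lit 14) (nat_lit 7))
    (@En.n l10118 (nat_lit 12054) (nat_lit 5) (nat_lit 8))
    (@En.n l3 (nat_lit 10529) (nat_lit 15) (nat_lit 2))))
  (@Cl.mk (nat_lit 0x20007000b00070005000c000b0005000b00040009000500090005000e000b) (nat_lit 0x60075040603055) (nat_lit 16) Lb.e (@T16.mk En
    (@En.n l39306 (nat_lit 10857) (nat_lit 10) (nat_lit 11))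
    (@En.n l32098 (nat_lit 6194) (nat_lit 1) (nat_lit 14))
    (@En.n l3038 (nat_lit 12265) (nat_lit 2) (nat_lit 5))
    (@En.n l7636 (nat_lit 12261) (nat_lit 3) (nat_lit 9))
    (@En.n l39307 (nat_lit 12279) (nat_lit 4) (nat_lit 5))
    (@En.n l39308 (nat_lit 11291) (nat_lit 5) (nat_lit 9))
    (@En.n l217 (nat_lit 7549) (nat_lit 6) (nat_lit 4))
    (@En.n l397 (nat_lit 10535) (nat_lit 8) (nat_lit 11))
    (@En.n l37334 (nat_lit 8180) (nat_lit 8) (nat_lit 5))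
    (@En.n l14127 (nat_lit 10853) (nat_lit 10) (nat_lit 11))
    (@En.n l19838 (nat_lit 7529) (nat_lit 11) (nat_lit 12))
    (@En.n l38223 (nat_lit 10155) (nat_lit 12) (nat_lit 5))
    (@En.i (nat_lit 5595) (nat_lit 13) (nat_lit 7))
    (@En.n l38223 (nat_lit 10527) (nat_lit 14) (nat_lit 11))
    (@En.i (nat_lit 10532) (nat_lit 7) (nat_lit 7))
    (@En.n l3 (nat_lit 10530) (nat_lit 15) (nat_lit 2))))
  (@Cl.mk (nat_lit 0x40004000c000b0006000b0004000c0005000a00050004000c000c000a0006) (nat_lit 0x23090204005760) (nat_lit 16) Lb.e (@T16.mk En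
    (@En.i (nat_lit 5936) (nat_lit 0) (nat_lit 6))
    (@En.n l38009 (nat_lit 9173) (nat_lit 1) (nat_lit 10))
    (@En.n l41081 (nat_lit 12719) (nat_lit 4) (nat_lit 12))
    (@En.n l41079 (nat_lit 10644) (nat_lit 10) (nat_lit 12))
    (@En.n l16623 (nat_lit 6406) (nat_lit 12) (nat_lit 4))
    (@En.n l3038 (nat_lit 11832) (nat_lit 0) (nat_lit 5))
    (@En.n l41082 (nat_lit 11892) (nat_lit 1) (nat_lit 10))
    (@En.n l35660 (nat_lit 12196) (nat_lit 7) (nat_lit 5))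
    (@En.n l14422 (nat_lit 7608) (nat_lit 9) (nat_lit 12))
    (@En.n l41083 (nat_lit 8769) (nat_lit 9) (nat_lit 4))
    (@En.n l41084 (nat_lit 10537) (nat_lit 0) (nat_lit 11))
    (@En.n l17700 (nat_lit 9011) (nat_lit 1) (nat_lit 6))
    (@En.n l16623 (nat_lit 8544) (nat_lit 5) (nat_lit 11))
    (@En.n l476 (nat_lit 10532) (nat_lit 3) (nat_lit 12))
    (@En.n l152 (nat_lit 10528) (nat_lit 12) (nat_lit 4))
    (@En.n l41083 (nat_lit 9171) (nat_lit 0) (nat_lit 4))))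
  (@Cl.mk (nat_lit 0x40009000c0006000a00060004000c0007000b00060004000c000a0005000a) (nat_lit 0x530400704001404) (nat_lit 16) Lb.e (@T16.mk En
    (@En.n l43083 (nat_lit 10647) (nat_lit 0) (nat_lit 10))
    (@En.n l35642 (nat_lit 9895) (nat_lit 1) (nat_lit 5))
    (@En.n l14127 (nat_lit 9718) (nat_lit 0) (nat_lit 10))
    (@En.n l19838 (nat_lit 6814) (nat_lit 10) (nat_lit 12))
    (@En.n l43084 (nat_lit 10636) (nat_lit 12) (nat_lit 4))
    (@En.i (nat_lit 6278) (nat_lit 0) (nat_lit 6))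
    (@En.n l43085 (nat_lit 10293) (nat_lit 1) (nat_lit 11))
    (@En.n l20724 (nat_lit 10678) (nat_lit 14) (nat_lit 7))
    (@En.n l40191 (nat_lit 10643) (nat_lit 3) (nat_lit 12))
    (@En.n l43086 (nat_lit 9788) (nat_lit 12) (nat_lit 4))
    (@En.n l3038 (nat_lit 11873) (nat_lit 0) (nat_lit 6))
    (@En.n l5741 (nat_lit 10684) (nat_lit 9) (nat_lit 10))
    (@En.n l37161 (nat_lit 9809) (nat_lit 7) (nat_lit 6))
    (@En.i (nat_lit 10528) (nat_lit 6) (nat_lit 12))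
    (@En.n l43087 (nat_lit 10480) (nat_lit 11) (nat_lit 9))
    (@En.n l43088 (nat_lit 9698) (nat_lit 15) (nat_lit 4))))
  (@Cl.mk (nat_lit 0x3000b00090005000a00060005000c000c0007000600040004000d000b000a) (nat_lit 0x270500330000841) (nat_lit 16) Lb.e (@T16.mk En
    (@En.n l38946 (nat_lit 6378) (nat_lit 0) (nat_lit 10))
    (@En.i (nat_lit 9729) (nat_lit 13) (nat_lit 11))
    (@En.n l21305 (nat_lit 11117) (nat_lit 2) (nat_lit 13))
    (@En.n l38947 (nat_lit 10529) (nat_lit 12) (nat_lit 4))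
    (@En.n l38948 (nat_lit 11848) (nat_lit 4) (nat_lit 4))
    (@En.n l3100 (nat_lit 6076) (nat_lit 0) (nat_lit 6))
    (@En.n l33285 (nat_lit 11981) (nat_lit 1) (nat_lit 7))
    (@En.n l61 (nat_lit 9291) (nat_lit 4) (nat_lit 12))
    (@En.n l38949 (nat_lit 11099) (nat_lit 9) (nat_lit 12))
    (@En.n l8434 (nat_lit 6404) (nat_lit 11) (nat_lit 5))
    (@En.n l27546 (nat_lit 12684) (nat_lit 5) (nat_lit 6))
    (@En.n l38950 (nat_lit 12450) (nat_lit 12) (nat_lit 10))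
    (@En.n l38951 (nat_lit 10531) (nat_lit 7) (nat_lit 5))
    (@En.n l7 (nat_lit 12688) (nat_lit 14) (nat_lit 9))
    (@En.n l28262 (nat_lit 903) (nat_lit 10) (nat_lit 11))
    (@En.n l3911 (nat_lit 9290) (nat_lit 15) (nat_lit 3))))
  (@Cl.mk (nat_lit 0x2000500080004000d000c000b0003000b000400080005000b0005000e000c) (nat_lit 0x10193010303042) (nat_lit 16) Lb.e (@T16.mk En
    (@En.n l649 (nat_lit 10537) (nat_lit 8) (nat_lit 12))
    (@En.i (nat_lit 10535) (nat_lit 1) (nat_lit 14))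
    (@En.n l33717 (nat_lit 10529) (nat_lit 2) (nat_lit 5))
    (@En.n l14904 (nat_lit 10536) (nat_lit 3) (nat_lit 11))
    (@En.n l33718 (nat_lit 12683) (nat_lit 4) (nat_lit 5))
    (@En.n l6126 (nat_lit 12356) (nat_lit 5) (nat_lit 8))
    (@En.n l564 (nat_lit 9233) (nat_lit 6) (nat_lit 4))
    (@En.n l20793 (nat_lit 5482) (nat_lit 8) (nat_lit 11))
    (@En.n l33719 (nat_lit 12696) (nat_lit 8) (nat_lit 3))
    (@En.n l644 (nat_lit 9232) (nat_lit 10) (nat_lit 11))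
    (@En.n l287 (nat_lit 12700) (nat_lit 11) (nat_lit 12))
    (@En.n l20793 (nat_lit 1037) (nat_lit 12) (nat_lit 13))
    (@En.n l14904 (nat_lit 12407) (nat_lit 13) (nat_lit 4))
    (@En.i (nat_lit 6266) (nat_lit 10) (nat_lit 8))
    (@En.n l1643 (nat_lit 12326) (nat_lit 13) (nat_lit 5))
    (@En.n l3 (nat_lit 10534) (nat_lit 15) (nat_lit 2))))
  (@Cl.mk (nat_lit 0x20008000500080005000d000c000b00030008000400080005000b000e000b) (nat_lit 0x505012303040335) (nat_lit 16) Lb.e (@T16.mk En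
    (@En.n l6108 (nat_lit 12688) (nat_lit 9) (nat_lit 11))
    (@En.n l3334 (nat_lit 12517) (nat_lit 4) (nat_lit 14))
    (@En.n l14904 (nat_lit 12691) (nat_lit 2) (nat_lit 11))
    (@En.n l21409 (nat_lit 12682) (nat_lit 3) (nat_lit 5))
    (@En.n l8199 (nat_lit 12270) (nat_lit 4) (nat_lit 8))
    (@En.n l564 (nat_lit 9235) (nat_lit 5) (nat_lit 4))
    (@En.n l21410 (nat_lit 11201) (nat_lit 6) (nat_lit 8))
    (@En.n l19017 (nat_lit 12701) (nat_lit 7) (nat_lit 3))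
    (@En.n l644 (nat_lit 9237) (nat_lit 0) (nat_lit 11))
    (@En.n l19680 (nat_lit 12702) (nat_lit 10) (nat_lit 12))
    (@En.n l3336 (nat_lit 979) (nat_lit 11) (nat_lit 13))
    (@En.n l21411 (nat_lit 12414) (nat_lit 3) (nat_lit 5))
    (@En.i (nat_lit 12807) (nat_lit 13) (nat_lit 8))
    (@En.n l725 (nat_lit 10534) (nat_lit 14) (nat_lit 5))
    (@En.n l2571 (nat_lit 10647) (nat_lit 6) (nat_lit 8))
    (@En.n l3 (nat_lit 10535) (nat_lit 15) (nat_lit 2))))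
  (@Cl.mk (nat_lit 0x20005000b00080005000d000c00050003000c00040008000b0004000e000b) (nat_lit 0x72012008032055) (nat_lit 16) Lb.e (@T16.mk En
    (@En.n l22465 (nat_lit 12692) (nat_lit 9) (nat_lit 11))
    (@En.i (nat_lit 12691) (nat_lit 1) (nat_lit 14))
    (@En.n l22491 (nat_lit 9989) (nat_lit 2) (nat_lit 4))
    (@En.n l4003 (nat_lit 12753) (nat_lit 3) (nat_lit 11))
    (@En.n l39858 (nat_lit 12352) (nat_lit 4) (nat_lit 8))
    (@En.n l39859 (nat_lit 9234) (nat_lit 5) (nat_lit 4))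
    (@En.n l4003 (nat_lit 5479) (nat_lit 7) (nat_lit 12))
    (@En.n l7 (nat_lit 12699) (nat_lit 7) (nat_lit 3))
    (@En.n l32709 (nat_lit 11341) (nat_lit 8) (nat_lit 5))
    (@En.n l644 (nat_lit 12704) (nat_lit 10) (nat_lit 12))
    (@En.n l645 (nat_lit 1033) (nat_lit 11) (nat_lit 13))
    (@En.i (nat_lit 9168) (nat_lit 12) (nat_lit 5))
    (@En.n l21454 (nat_lit 10534) (nat_lit 13) (nat_lit 8))
    (@En.n l29242 (nat_lit 10528) (nat_lit 14) (nat_lit 11))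
    (@En.i (nat_lit 12634) (nat_lit 13) (nat_lit 5))
    (@En.n l67 (nat_lit 10536) (nat_lit 15) (nat_lit 2))))
  (@Cl.mk (nat_lit 0x3000b000400090005000c0005000c000c0004000700040004000d000c000b) (nat_lit 0x8030401800002a8) (nat_lit 16) Lb.e (@T16.mk En
    (@En.n l575 (nat_lit 9240) (nat_lit 0) (nat_lit 11))
    (@En.i (nat_lit 12707) (nat_lit 4) (nat_lit 12))
    (@En.i (nat_lit 10647) (nat_lit 2) (nat_lit 13))
    (@En.n l5331 (nat_lit 10534) (nat_lit 12) (nat_lit 4))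
    (@En.n l18 (nat_lit 12408) (nat_lit 4) (nat_lit 4))
    (@En.n l2869 (nat_lit 6264) (nat_lit 11) (nat_lit 7))
    (@En.n l947 (nat_lit 10770) (nat_lit 1) (nat_lit 4))
    (@En.n l61 (nat_lit 12677) (nat_lit 4) (nat_lit 12))
    (@En.n l2865 (nat_lit 44) (nat_lit 1) (nat_lit 12))
    (@En.i (nat_lit 10533) (nat_lit 9) (nat_lit 5))
    (@En.n l24098 (nat_lit 12692) (nat_lit 11) (nat_lit 12))
    (@En.i (nat_lit 12681) (nat_lit 6) (nat_lit 5))
    (@En.n l2869 (nat_lit 12448) (nat_lit 13) (nat_lit 9))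
    (@En.n l117 (nat_lit 12195) (nat_lit 14) (nat_lit 4))
    (@En.n l9790 (nat_lit 5480) (nat_lit 0) (nat_lit 11))
    (@En.n l755 (nat_lit 12678) (nat_lit 1) (nat_lit 3))))
  (@Cl.mk (nat_lit 0x30007000b0007000c0007000d0005000400030009000c0009000d00090004) (nat_lit 0x90601000696810) (nat_lit 16) Lb.e (@T16.mk En
    (@En.n l152 (nat_lit 7849) (nat_lit 0) (nat_lit 4))
    (@En.n l27676 (nat_lit 8786) (nat_lit 0) (nat_lit 9))
    (@En.i (nat_lit 3927) (nat_lit 1) (nat_lit 13))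
    (@En.n l2038 (nat_lit 10541) (nat_lit 3) (nat_lit 9))
    (@En.i (nat_lit 8746) (nat_lit 6) (nat_lit 12))
    (@En.n l24949 (nat_lit 12155) (nat_lit 5) (nat_lit 9))
    (@En.n l28611 (nat_lit 10326) (nat_lit 13) (nat_lit 3))
    (@En.n l18 (nat_lit 7890) (nat_lit 0) (nat_lit 4))
    (@En.i (nat_lit 12478) (nat_lit 0) (nat_lit 5))
    (@En.i (nat_lit 2262) (nat_lit 1) (nat_lit 13))
    (@En.n l61 (nat_lit 10708) (nat_lit 3) (nat_lit 7))
    (@En.n l28612 (nat_lit 8609) (nat_lit 12) (nat_lit 12))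
    (@En.n l27676 (nat_lit 10809) (nat_lit 13) (nat_lit 7))
    (@En.n l28613 (nat_lit 12409) (nat_lit 14) (nat_lit 11))
    (@En.n l13671 (nat_lit 10539) (nat_lit 7) (nat_lit 7))
    (@En.n l28614 (nat_lit 10327) (nat_lit 15) (nat_lit 3))))
  (@Cl.mk (nat_lit 0x30009000d000c000a0003000a00040007000b0006000c0006000d00050004) (nat_lit 0x67a701009050100) (nat_lit 16) Lb.e (@T16.mk En
    (@En.n l2921 (nat_lit 7891) (nat_lit 0) (nat_lit 4))
    (@En.n l15089 (nat_lit 12477) (nat_lit 0) (nat_lit 5))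
    (@En.i (nat_lit 2263) (nat_lit 1) (nat_lit 13))
    (@En.n l29728 (nat_lit 10707) (nat_lit 3) (nat_lit 6))
    (@En.n l29729 (nat_lit 8608) (nat_lit 10) (nat_lit 12))
    (@En.n l29730 (nat_lit 10804) (nat_lit 5) (nat_lit 6))
    (@En.n l25666 (nat_lit 12408) (nat_lit 12) (nat_lit 11))
    (@En.n l810 (nat_lit 7219) (nat_lit 11) (nat_lit 7))
    (@En.n l29731 (nat_lit 7872) (nat_lit 8) (nat_lit 4))
    (@En.n l1430 (nat_lit 8785) (nat_lit 0) (nat_lit 10))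
    (@En.n l29732 (nat_lit 10327) (nat_lit 1) (nat_lit 3))
    (@En.i (nat_lit 11203) (nat_lit 0) (nat_lit 10))
    (@En.n l8351 (nat_lit 10538) (nat_lit 4) (nat_lit 12))
    (@En.n l23404 (nat_lit 8697) (nat_lit 6) (nat_lit 13))
    (@En.n l28693 (nat_lit 12154) (nat_lit 3) (nat_lit 9))
    (@En.n l2101 (nat_lit 10325) (nat_lit 13) (nat_lit 3))))
  (@Cl.mk (nat_lit 0x30006000a00070006000c0007000d000600040003000a0009000d000a0009) (nat_lit 0x60030200075435) (nat_lit 16) Lb.e (@T16.mk En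
    (@En.n l15094 (nat_lit 11933) (nat_lit 0) (nat_lit 9))
    (@En.n l15095 (nat_lit 11204) (nat_lit 12) (nat_lit 10))
    (@En.n l15096 (nat_lit 10542) (nat_lit 6) (nat_lit 13))
    (@En.n l15097 (nat_lit 10545) (nat_lit 7) (nat_lit 9))
    (@En.n l15098 (nat_lit 12159) (nat_lit 4) (nat_lit 10))
    (@En.n l7 (nat_lit 10547) (nat_lit 5) (nat_lit 3))
    (@En.n l15099 (nat_lit 11142) (nat_lit 0) (nat_lit 4))
    (@En.n l2781 (nat_lit 11949) (nat_lit 7) (nat_lit 6))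
    (@En.n l15100 (nat_lit 6233) (nat_lit 1) (nat_lit 13))
    (@En.n l15101 (nat_lit 10518) (nat_lit 3) (nat_lit 7))
    (@En.n l15102 (nat_lit 10835) (nat_lit 11) (nat_lit 12))
    (@En.n l14725 (nat_lit 10539) (nat_lit 5) (nat_lit 6))
    (@En.i (nat_lit 12004) (nat_lit 13) (nat_lit 7))
    (@En.n l15103 (nat_lit 10773) (nat_lit 14) (nat_lit 10))
    (@En.n l9877 (nat_lit 7515) (nat_lit 12) (nat_lit 6))
    (@En.n l15104 (nat_lit 10541) (nat_lit 15) (nat_lit 3))))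
  (@Cl.mk (nat_lit 0x30006000a00070005000c0008000d000600040003000a0009000d0008000b) (nat_lit 0x40020100085741) (nat_lit 16) Lb.e (@T16.mk En
    (@En.n l2065 (nat_lit 2207) (nat_lit 0) (nat_lit 11))
    (@En.n l6079 (nat_lit 11073) (nat_lit 12) (nat_lit 8))
    (@En.n l28 (nat_lit 10543) (nat_lit 6) (nat_lit 13))
    (@En.n l2062 (nat_lit 10364) (nat_lit 7) (nat_lit 9))
    (@En.n l6080 (nat_lit 10046) (nat_lit 4) (nat_lit 10))
    (@En.n l2065 (nat_lit 10548) (nat_lit 5) (nat_lit 3))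
    (@En.n l18 (nat_lit 11144) (nat_lit 0) (nat_lit 4))
    (@En.n l6081 (nat_lit 11948) (nat_lit 7) (nat_lit 6))
    (@En.i (nat_lit 5940) (nat_lit 1) (nat_lit 13))
    (@En.n l61 (nat_lit 11759) (nat_lit 3) (nat_lit 8))
    (@En.n l2068 (nat_lit 10837) (nat_lit 11) (nat_lit 12))
    (@En.n l2065 (nat_lit 7872) (nat_lit 5) (nat_lit 5))
    (@En.n l6082 (nat_lit 12018) (nat_lit 13) (nat_lit 7))
    (@En.n l2065 (nat_lit 10772) (nat_lit 14) (nat_lit 10))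
    (@En.n l6083 (nat_lit 11203) (nat_lit 12) (nat_lit 6))
    (@En.n l6084 (nat_lit 10540) (nat_lit 15) (nat_lit 3))))
  (@Cl.mk (nat_lit 0x30007000c0008000d000600040003000a000d000900080003000d0006000a) (nat_lit 0x51100073210806) (nat_lit 16) Lb.e (@T16.mk En
    (@En.n l11359 (nat_lit 12354) (nat_lit 0) (nat_lit 10))
    (@En.n l27096 (nat_lit 10540) (nat_lit 14) (nat_lit 6))
    (@En.n l28776 (nat_lit 9998) (nat_lit 2) (nat_lit 13))
    (@En.n l152 (nat_lit 10543) (nat_lit 3) (nat_lit 3))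
    (@En.n l9970 (nat_lit 4172) (nat_lit 0) (nat_lit 8))
    (@En.n l619 (nat_lit 10544) (nat_lit 5) (nat_lit 9))
    (@En.i (nat_lit 5339) (nat_lit 5) (nat_lit 13))
    (@En.n l24949 (nat_lit 12160) (nat_lit 3) (nat_lit 10))
    (@En.n l3519 (nat_lit 10546) (nat_lit 13) (nat_lit 3))
    (@En.n l18 (nat_lit 11141) (nat_lit 0) (nat_lit 4))
    (@En.i (nat_lit 11945) (nat_lit 0) (nat_lit 6))
    (@En.i (nat_lit 6085) (nat_lit 1) (nat_lit 13))
    (@En.n l61 (nat_lit 10516) (nat_lit 13) (nat_lit 8))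
    (@En.n l21428 (nat_lit 10620) (nat_lit 14) (nat_lit 12))
    (@En.i (nat_lit 10538) (nat_lit 12) (nat_lit 7))
    (@En.i (nat_lit 10545) (nat_lit 15) (nat_lit 3))))
  (@Cl.mk (nat_lit 0x30006000c0009000d000600040003000a000d0007000a0003000d0006000a) (nat_lit 0x20100086010905) (nat_lit 16) Lb.e (@T16.mk En
    (@En.n l5205 (nat_lit 12355) (nat_lit 0) (nat_lit 10))
    (@En.i (nat_lit 10541) (nat_lit 14) (nat_lit 6))
    (@En.i (nat_lit 10544) (nat_lit 2) (nat_lit 13))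
    (@En.n l117 (nat_lit 10542) (nat_lit 3) (nat_lit 3))
    (@En.n l2921 (nat_lit 2205) (nat_lit 0) (nat_lit 10))
    (@En.i (nat_lit 10843) (nat_lit 5) (nat_lit 7))
    (@En.i (nat_lit 5560) (nat_lit 5) (nat_lit 13))
    (@En.n l6080 (nat_lit 12184) (nat_lit 3) (nat_lit 10))
    (@En.n l5331 (nat_lit 10549) (nat_lit 8) (nat_lit 3))
    (@En.n l18 (nat_lit 11143) (nat_lit 0) (nat_lit 4))
    (@En.n l6081 (nat_lit 11946) (nat_lit 0) (nat_lit 6))
    (@En.i (nat_lit 6081) (nat_lit 1) (nat_lit 13))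
    (@En.n l61 (nat_lit 11758) (nat_lit 13) (nat_lit 9))
    (@En.n l5891 (nat_lit 10848) (nat_lit 14) (nat_lit 12))
    (@En.i (nat_lit 7849) (nat_lit 12) (nat_lit 6))
    (@En.n l4019 (nat_lit 10364) (nat_lit 15) (nat_lit 3))))
noncomputable def a659 : T16 Cl := @T16.mk Cl
  (@Cl.mk (nat_lit 0x300070006000c0009000d000700040003000b00090007000a000d00050009) (nat_lit 0x4240009101804) (nat_lit 16) Lb.e (@T16.mk En
    (@En.n l5205 (nat_lit 12273) (nat_lit 0) (nat_lit 9))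
    (@En.n l18415 (nat_lit 11204) (nat_lit 9) (nat_lit 5))
    (@En.n l14963 (nat_lit 9996) (nat_lit 5) (nat_lit 13))
    (@En.n l2202 (nat_lit 2206) (nat_lit 8) (nat_lit 10))
    (@En.n l18416 (nat_lit 10621) (nat_lit 4) (nat_lit 7))
    (@En.n l134 (nat_lit 8253) (nat_lit 5) (nat_lit 9))
    (@En.n l6080 (nat_lit 12192) (nat_lit 7) (nat_lit 11))
    (@En.n l5205 (nat_lit 10550) (nat_lit 7) (nat_lit 3))
    (@En.n l18 (nat_lit 11146) (nat_lit 0) (nat_lit 4))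
    (@En.n l6081 (nat_lit 11944) (nat_lit 0) (nat_lit 7))
    (@En.i (nat_lit 6076) (nat_lit 1) (nat_lit 13))
    (@En.n l61 (nat_lit 11760) (nat_lit 12) (nat_lit 9))
    (@En.n l5891 (nat_lit 11794) (nat_lit 13) (nat_lit 12))
    (@En.n l11 (nat_lit 10543) (nat_lit 14) (nat_lit 6))
    (@En.n l55 (nat_lit 10541) (nat_lit 12) (nat_lit 7))
    (@En.n l18417 (nat_lit 10363) (nat_lit 15) (nat_lit 3))))
  (@Cl.mk (nat_lit 0x30007000c0008000d0007000400030009000d000900080003000d00090007) (nat_lit 0x51100046240850) (nat_lit 16) Lb.e (@T16.mk En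
    (@En.n l27096 (nat_lit 10936) (nat_lit 0) (nat_lit 7))
    (@En.i (nat_lit 11100) (nat_lit 14) (nat_lit 9))
    (@En.n l29009 (nat_lit 9997) (nat_lit 2) (nat_lit 13))
    (@En.n l17789 (nat_lit 10364) (nat_lit 3) (nat_lit 3))
    (@En.n l27810 (nat_lit 12066) (nat_lit 0) (nat_lit 8))
    (@En.n l29010 (nat_lit 10363) (nat_lit 5) (nat_lit 9))
    (@En.i (nat_lit 5338) (nat_lit 6) (nat_lit 13))
    (@En.n l29011 (nat_lit 11615) (nat_lit 3) (nat_lit 9))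
    (@En.n l29012 (nat_lit 10551) (nat_lit 8) (nat_lit 3))
    (@En.n l25360 (nat_lit 11140) (nat_lit 0) (nat_lit 4))
    (@En.n l24683 (nat_lit 12214) (nat_lit 0) (nat_lit 7))
    (@En.i (nat_lit 6226) (nat_lit 1) (nat_lit 13))
    (@En.n l17791 (nat_lit 10517) (nat_lit 13) (nat_lit 8))
    (@En.n l3528 (nat_lit 10846) (nat_lit 14) (nat_lit 12))
    (@En.n l29013 (nat_lit 10460) (nat_lit 5) (nat_lit 7))
    (@En.n l7 (nat_lit 10542) (nat_lit 15) (nat_lit 3))))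
  (@Cl.mk (nat_lit 0x300070003000a000d000900080003000d0006000900030007000d0008000d) (nat_lit 0x8421070000711) (nat_lit 16) Lb.e (@T16.mk En
    (@En.i (nat_lit 6083) (nat_lit 0) (nat_lit 13))
    (@En.n l24823 (nat_lit 10519) (nat_lit 13) (nat_lit 8))
    (@En.n l24824 (nat_lit 10619) (nat_lit 2) (nat_lit 13))
    (@En.n l5381 (nat_lit 10326) (nat_lit 3) (nat_lit 7))
    (@En.n l30467 (nat_lit 10551) (nat_lit 15) (nat_lit 3))
    (@En.n l3486 (nat_lit 12611) (nat_lit 0) (nat_lit 9))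
    (@En.n l30467 (nat_lit 10547) (nat_lit 14) (nat_lit 6))
    (@En.n l41391 (nat_lit 9999) (nat_lit 2) (nat_lit 13))
    (@En.n l1722 (nat_lit 10549) (nat_lit 3) (nat_lit 3))
    (@En.n l1357 (nat_lit 4170) (nat_lit 0) (nat_lit 8))
    (@En.n l1783 (nat_lit 10550) (nat_lit 5) (nat_lit 9))
    (@En.n l1357 (nat_lit 5403) (nat_lit 5) (nat_lit 13))
    (@En.n l21137 (nat_lit 11945) (nat_lit 13) (nat_lit 10))
    (@En.n l2832 (nat_lit 10542) (nat_lit 8) (nat_lit 3))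
    (@En.n l1357 (nat_lit 6638) (nat_lit 0) (nat_lit 7))
    (@En.n l5385 (nat_lit 11765) (nat_lit 15) (nat_lit 3))))
  (@Cl.mk (nat_lit 0x30006000900070006000d0007000d000300070003000a0009000d000a0009) (nat_lit 0x60060200075531) (nat_lit 16) Lb.e (@T16.mk En
    (@En.n l9879 (nat_lit 4171) (nat_lit 0) (nat_lit 9))
    (@En.n l8280 (nat_lit 11206) (nat_lit 10) (nat_lit 10))
    (@En.n l29152 (nat_lit 10546) (nat_lit 11) (nat_lit 13))
    (@En.n l61 (nat_lit 10551) (nat_lit 7) (nat_lit 9))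
    (@En.i (nat_lit 11949) (nat_lit 4) (nat_lit 10))
    (@En.i (nat_lit 10540) (nat_lit 5) (nat_lit 3))
    (@En.n l29153 (nat_lit 6925) (nat_lit 0) (nat_lit 7))
    (@En.i (nat_lit 11767) (nat_lit 7) (nat_lit 3))
    (@En.n l29154 (nat_lit 6240) (nat_lit 0) (nat_lit 13))
    (@En.i (nat_lit 10520) (nat_lit 3) (nat_lit 7))
    (@En.n l17134 (nat_lit 10838) (nat_lit 11) (nat_lit 13))
    (@En.n l12811 (nat_lit 10325) (nat_lit 3) (nat_lit 6))
    (@En.i (nat_lit 12005) (nat_lit 13) (nat_lit 7))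
    (@En.n l29155 (nat_lit 12363) (nat_lit 9) (nat_lit 9))
    (@En.n l9877 (nat_lit 7516) (nat_lit 12) (nat_lit 6))
    (@En.n l29156 (nat_lit 10548) (nat_lit 15) (nat_lit 3))))
  (@Cl.mk (nat_lit 0x30006000900070005000d0008000d000300070003000a0009000d0008000b) (nat_lit 0x60070200085561) (nat_lit 16) Lb.e (@T16.mk En
    (@En.i (nat_lit 2204) (nat_lit 0) (nat_lit 11))
    (@En.n l14809 (nat_lit 11072) (nat_lit 12) (nat_lit 8))
    (@En.n l634 (nat_lit 10549) (nat_lit 6) (nat_lit 13))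
    (@En.n l2320 (nat_lit 10368) (nat_lit 7) (nat_lit 9))
    (@En.n l14810 (nat_lit 11948) (nat_lit 4) (nat_lit 10))
    (@En.n l5992 (nat_lit 10541) (nat_lit 5) (nat_lit 3))
    (@En.i (nat_lit 6923) (nat_lit 0) (nat_lit 7))
    (@En.n l14811 (nat_lit 11762) (nat_lit 7) (nat_lit 3))
    (@En.n l636 (nat_lit 6082) (nat_lit 0) (nat_lit 13))
    (@En.n l8397 (nat_lit 11757) (nat_lit 3) (nat_lit 8))
    (@En.i (nat_lit 10839) (nat_lit 11) (nat_lit 13))
    (@En.i (nat_lit 7845) (nat_lit 3) (nat_lit 5))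
    (@En.n l14812 (nat_lit 12017) (nat_lit 13) (nat_lit 7))
    (@En.i (nat_lit 12370) (nat_lit 9) (nat_lit 9))
    (@En.n l730 (nat_lit 11205) (nat_lit 12) (nat_lit 6))
    (@En.n l14813 (nat_lit 10547) (nat_lit 15) (nat_lit 3))))
  (@Cl.mk (nat_lit 0x30006000d0009000d000300070003000a000d0007000a0003000d00060009) (nat_lit 0x54100074010700) (nat_lit 16) Lb.e (@T16.mk En
    (@En.n l2034 (nat_lit 12343) (nat_lit 0) (nat_lit 9))
    (@En.n l2030 (nat_lit 10548) (nat_lit 14) (nat_lit 6))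
    (@En.n l2034 (nat_lit 10550) (nat_lit 2) (nat_lit 13))
    (@En.n l564 (nat_lit 10546) (nat_lit 8) (nat_lit 3))
    (@En.n l2031 (nat_lit 2200) (nat_lit 8) (nat_lit 10))
    (@En.n l9025 (nat_lit 10844) (nat_lit 5) (nat_lit 7))
    (@En.n l2031 (nat_lit 5410) (nat_lit 5) (nat_lit 13))
    (@En.n l2037 (nat_lit 11946) (nat_lit 13) (nat_lit 10))
    (@En.n l2221 (nat_lit 10543) (nat_lit 8) (nat_lit 3))
    (@En.n l1643 (nat_lit 6641) (nat_lit 0) (nat_lit 7))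
    (@En.n l3596 (nat_lit 11761) (nat_lit 10) (nat_lit 3))
    (@En.i (nat_lit 6080) (nat_lit 0) (nat_lit 13))
    (@En.n l5891 (nat_lit 11756) (nat_lit 13) (nat_lit 9))
    (@En.n l5381 (nat_lit 11472) (nat_lit 2) (nat_lit 13))
    (@En.n l2031 (nat_lit 7846) (nat_lit 12) (nat_lit 6))
    (@En.n l9807 (nat_lit 10368) (nat_lit 15) (nat_lit 3))))
  (@Cl.mk (nat_lit 0x300070006000d0009000d000300080003000b00090007000a000d00050008) (nat_lit 0x8210209101600) (nat_lit 16) Lb.e (@T16.mk En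
    (@En.i (nat_lit 10742) (nat_lit 0) (nat_lit 8))
    (@En.n l3333 (nat_lit 11206) (nat_lit 7) (nat_lit 5))
    (@En.n l862 (nat_lit 9995) (nat_lit 5) (nat_lit 13))
    (@En.n l2034 (nat_lit 2202) (nat_lit 8) (nat_lit 10))
    (@En.n l1005 (nat_lit 11788) (nat_lit 4) (nat_lit 7))
    (@En.n l12295 (nat_lit 8245) (nat_lit 5) (nat_lit 9))
    (@En.n l2911 (nat_lit 11944) (nat_lit 13) (nat_lit 11))
    (@En.n l1559 (nat_lit 10544) (nat_lit 7) (nat_lit 3))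
    (@En.i (nat_lit 6645) (nat_lit 0) (nat_lit 8))
    (@En.n l9025 (nat_lit 11763) (nat_lit 9) (nat_lit 3))
    (@En.n l15197 (nat_lit 6075) (nat_lit 0) (nat_lit 13))
    (@En.n l12637 (nat_lit 11279) (nat_lit 12) (nat_lit 9))
    (@En.n l33286 (nat_lit 11792) (nat_lit 13) (nat_lit 13))
    (@En.n l9512 (nat_lit 10549) (nat_lit 14) (nat_lit 6))
    (@En.n l3340 (nat_lit 10548) (nat_lit 12) (nat_lit 7))
    (@En.n l33287 (nat_lit 10367) (nat_lit 15) (nat_lit 3))))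
  (@Cl.mk (nat_lit 0x30007000d0008000d0003000800030009000d000900080003000d00080007) (nat_lit 0x71103044210730) (nat_lit 16) Lb.e (@T16.mk En
    (@En.i (nat_lit 10935) (nat_lit 0) (nat_lit 7))
    (@En.n l31735 (nat_lit 11993) (nat_lit 14) (nat_lit 8))
    (@En.n l16522 (nat_lit 9037) (nat_lit 2) (nat_lit 13))
    (@En.n l16719 (nat_lit 10368) (nat_lit 3) (nat_lit 3))
    (@En.n l3667 (nat_lit 4174) (nat_lit 0) (nat_lit 8))
    (@En.n l31736 (nat_lit 10367) (nat_lit 5) (nat_lit 9))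
    (@En.n l3667 (nat_lit 5402) (nat_lit 6) (nat_lit 13))
    (@En.n l31657 (nat_lit 12208) (nat_lit 13) (nat_lit 9))
    (@En.n l15100 (nat_lit 10545) (nat_lit 8) (nat_lit 3))
    (@En.n l3670 (nat_lit 9631) (nat_lit 0) (nat_lit 8))
    (@En.n l31737 (nat_lit 11770) (nat_lit 10) (nat_lit 3))
    (@En.n l1112 (nat_lit 6084) (nat_lit 0) (nat_lit 13))
    (@En.n l31738 (nat_lit 10521) (nat_lit 13) (nat_lit 8))
    (@En.n l1110 (nat_lit 11469) (nat_lit 2) (nat_lit 13))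
    (@En.n l3518 (nat_lit 10456) (nat_lit 3) (nat_lit 7))
    (@En.n l31739 (nat_lit 10546) (nat_lit 4) (nat_lit 3))))
  (@Cl.mk (nat_lit 0x30008000c0009000600090004000c00090008000700040007000d000a0007) (nat_lit 0x163020376000870) (nat_lit 16) Lb.e (@T16.mk En
    (@En.n l22060 (nat_lit 9594) (nat_lit 0) (nat_lit 7))
    (@En.n l31252 (nat_lit 10553) (nat_lit 13) (nat_lit 10))
    (@En.n l27936 (nat_lit 10180) (nat_lit 2) (nat_lit 13))
    (@En.n l31253 (nat_lit 7960) (nat_lit 11) (nat_lit 7))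
    (@En.n l3348 (nat_lit 10589) (nat_lit 4) (nat_lit 4))
    (@En.n l27016 (nat_lit 8460) (nat_lit 0) (nat_lit 7))
    (@En.i (nat_lit 9550) (nat_lit 1) (nat_lit 8))
    (@En.n l27017 (nat_lit 8882) (nat_lit 14) (nat_lit 9))
    (@En.n l397 (nat_lit 10554) (nat_lit 9) (nat_lit 12))
    (@En.n l24819 (nat_lit 10404) (nat_lit 9) (nat_lit 4))
    (@En.i (nat_lit 1325) (nat_lit 9) (nat_lit 9))
    (@En.n l22153 (nat_lit 11614) (nat_lit 1) (nat_lit 6))
    (@En.n l6064 (nat_lit 7749) (nat_lit 13) (nat_lit 9))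
    (@En.n l15189 (nat_lit 10075) (nat_lit 7) (nat_lit 12))
    (@En.n l31254 (nat_lit 70) (nat_lit 4) (nat_lit 8))
    (@En.n l29804 (nat_lit 10557) (nat_lit 15) (nat_lit 3))))
  (@Cl.mk (nat_lit 0x40007000a0006000b0007000b00080006000500090005000c000a00090008) (nat_lit 0x60105300304843) (nat_lit 16) Lb.e (@T16.mk En
    (@En.n l28307 (nat_lit 8461) (nat_lit 0) (nat_lit 8))
    (@En.n l42558 (nat_lit 9546) (nat_lit 1) (nat_lit 9))
    (@En.i (nat_lit 9727) (nat_lit 6) (nat_lit 10))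
    (@En.n l41129 (nat_lit 10555) (nat_lit 3) (nat_lit 12))
    (@En.n l5757 (nat_lit 10406) (nat_lit 4) (nat_lit 5))
    (@En.n l42559 (nat_lit 10552) (nat_lit 10) (nat_lit 9))
    (@En.n l1003 (nat_lit 10557) (nat_lit 11) (nat_lit 5))
    (@En.n l7899 (nat_lit 11612) (nat_lit 7) (nat_lit 6))
    (@En.n l35055 (nat_lit 7744) (nat_lit 1) (nat_lit 8))
    (@En.i (nat_lit 10074) (nat_lit 8) (nat_lit 11))
    (@En.n l42560 (nat_lit 4536) (nat_lit 11) (nat_lit 7))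
    (@En.n l5757 (nat_lit 9381) (nat_lit 12) (nat_lit 11))
    (@En.n l37959 (nat_lit 8393) (nat_lit 5) (nat_lit 6))
    (@En.n l13935 (nat_lit 11295) (nat_lit 8) (nat_lit 10))
    (@En.n l16214 (nat_lit 9405) (nat_lit 11) (nat_lit 7))
    (@En.i (nat_lit 10591) (nat_lit 15) (nat_lit 4))))
  (@Cl.mk (nat_lit 0x300090007000a00060009000c000800070006000400090007000d000a0008) (nat_lit 0x303022600050783) (nat_lit 16) Lb.e (@T16.mk En
    (@En.n l16676 (nat_lit 9592) (nat_lit 0) (nat_lit 8))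
    (@En.n l12172 (nat_lit 10555) (nat_lit 12) (nat_lit 10))
    (@En.n l3955 (nat_lit 10921) (nat_lit 2) (nat_lit 13))
    (@En.n l13384 (nat_lit 10552) (nat_lit 3) (nat_lit 7))
    (@En.n l6204 (nat_lit 8837) (nat_lit 4) (nat_lit 9))
    (@En.n l16674 (nat_lit 10592) (nat_lit 5) (nat_lit 4))
    (@En.n l237 (nat_lit 8463) (nat_lit 10) (nat_lit 6))
    (@En.i (nat_lit 8842) (nat_lit 1) (nat_lit 7))
    (@En.i (nat_lit 9723) (nat_lit 9) (nat_lit 8))
    (@En.n l2738 (nat_lit 10912) (nat_lit 6) (nat_lit 12))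
    (@En.i (nat_lit 1321) (nat_lit 9) (nat_lit 9))
    (@En.n l2724 (nat_lit 11613) (nat_lit 5) (nat_lit 6))
    (@En.i (nat_lit 7836) (nat_lit 8) (nat_lit 10))
    (@En.n l16676 (nat_lit 10027) (nat_lit 14) (nat_lit 7))
    (@En.n l11 (nat_lit 4536) (nat_lit 2) (nat_lit 9))
    (@En.n l117 (nat_lit 10556) (nat_lit 15) (nat_lit 3))))
  (@Cl.mk (nat_lit 0x4000a0007000a0007000b000800060009000600050009000c000900080007) (nat_lit 0x507031030033760) (nat_lit 16) Lb.e (@T16.mk En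
    (@En.n l5579 (nat_lit 8464) (nat_lit 9) (nat_lit 7))
    (@En.n l9941 (nat_lit 8841) (nat_lit 8) (nat_lit 8))
    (@En.n l20244 (nat_lit 9722) (nat_lit 13) (nat_lit 9))
    (@En.n l9941 (nat_lit 11593) (nat_lit 6) (nat_lit 12))
    (@En.n l4682 (nat_lit 10554) (nat_lit 10) (nat_lit 9))
    (@En.n l4682 (nat_lit 10556) (nat_lit 11) (nat_lit 5))
    (@En.n l25109 (nat_lit 11611) (nat_lit 6) (nat_lit 6))
    (@En.n l39355 (nat_lit 7837) (nat_lit 9) (nat_lit 9))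
    (@En.n l152 (nat_lit 10024) (nat_lit 10) (nat_lit 6))
    (@En.n l25110 (nat_lit 74) (nat_lit 0) (nat_lit 8))
    (@En.i (nat_lit 9656) (nat_lit 8) (nat_lit 11))
    (@En.n l134 (nat_lit 8432) (nat_lit 2) (nat_lit 7))
    (@En.i (nat_lit 11448) (nat_lit 8) (nat_lit 10))
    (@En.n l39356 (nat_lit 10553) (nat_lit 14) (nat_lit 7))
    (@En.n l39357 (nat_lit 8838) (nat_lit 11) (nat_lit 10))
    (@En.n l36081 (nat_lit 10594) (nat_lit 15) (nat_lit 4))))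
  (@Cl.mk (nat_lit 0x300090007000a00050009000c000900070006000400090007000d0007000b) (nat_lit 0x202022700050802) (nat_lit 16) Lb.e (@T16.mk En
    (@En.n l4536 (nat_lit 9867) (nat_lit 0) (nat_lit 11))
    (@En.n l97 (nat_lit 8821) (nat_lit 5) (nat_lit 7))
    (@En.n l39348 (nat_lit 10923) (nat_lit 2) (nat_lit 13))
    (@En.n l39349 (nat_lit 10557) (nat_lit 3) (nat_lit 7))
    (@En.n l6204 (nat_lit 8839) (nat_lit 4) (nat_lit 9))
    (@En.n l39350 (nat_lit 10593) (nat_lit 5) (nat_lit 4))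
    (@En.n l39351 (nat_lit 8462) (nat_lit 10) (nat_lit 6))
    (@En.i (nat_lit 9554) (nat_lit 1) (nat_lit 7))
    (@En.n l39352 (nat_lit 9725) (nat_lit 9) (nat_lit 9))
    (@En.n l39353 (nat_lit 10908) (nat_lit 6) (nat_lit 12))
    (@En.i (nat_lit 1318) (nat_lit 10) (nat_lit 9))
    (@En.n l39354 (nat_lit 4312) (nat_lit 5) (nat_lit 5))
    (@En.i (nat_lit 7753) (nat_lit 8) (nat_lit 10))
    (@En.n l12131 (nat_lit 10561) (nat_lit 14) (nat_lit 7))
    (@En.n l38462 (nat_lit 10565) (nat_lit 2) (nat_lit 9))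
    (@En.n l152 (nat_lit 10554) (nat_lit 15) (nat_lit 3))))
  (@Cl.mk (nat_lit 0x30008000c0009000500090004000c000a0008000700040007000d0006000b) (nat_lit 0x252020381000802) (nat_lit 16) Lb.e (@T16.mk En
    (@En.n l3850 (nat_lit 9385) (nat_lit 0) (nat_lit 11))
    (@En.n l29002 (nat_lit 8826) (nat_lit 7) (nat_lit 6))
    (@En.n l7441 (nat_lit 10181) (nat_lit 2) (nat_lit 13))
    (@En.n l5928 (nat_lit 9404) (nat_lit 11) (nat_lit 7))
    (@En.n l34696 (nat_lit 10590) (nat_lit 4) (nat_lit 4))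
    (@En.n l2605 (nat_lit 8459) (nat_lit 9) (nat_lit 7))
    (@En.n l29922 (nat_lit 9552) (nat_lit 1) (nat_lit 8))
    (@En.i (nat_lit 9726) (nat_lit 8) (nat_lit 10))
    (@En.n l35114 (nat_lit 10556) (nat_lit 9) (nat_lit 12))
    (@En.n l4018 (nat_lit 10403) (nat_lit 9) (nat_lit 4))
    (@En.n l29922 (nat_lit 1322) (nat_lit 10) (nat_lit 9))
    (@En.n l2125 (nat_lit 4311) (nat_lit 1) (nat_lit 5))
    (@En.n l35115 (nat_lit 7751) (nat_lit 13) (nat_lit 9))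
    (@En.n l9448 (nat_lit 10433) (nat_lit 7) (nat_lit 12))
    (@En.n l9182 (nat_lit 10564) (nat_lit 12) (nat_lit 8))
    (@En.n l29923 (nat_lit 10552) (nat_lit 15) (nat_lit 3))))
  (@Cl.mk (nat_lit 0x30009000900050008000b0007000c00070007000500040008000d000b0009) (nat_lit 0x550690100001611) (nat_lit 16) Lb.e (@T16.mk En
    (@En.n l1504 (nat_lit 9328) (nat_lit 0) (nat_lit 9))
    (@En.n l34347 (nat_lit 72) (nat_lit 5) (nat_lit 11))
    (@En.n l34348 (nat_lit 10924) (nat_lit 2) (nat_lit 13))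
    (@En.n l34349 (nat_lit 54) (nat_lit 3) (nat_lit 8))
    (@En.n l2509 (nat_lit 10560) (nat_lit 12) (nat_lit 4))
    (@En.n l21891 (nat_lit 10598) (nat_lit 5) (nat_lit 5))
    (@En.n l55 (nat_lit 12144) (nat_lit 9) (nat_lit 7))
    (@En.n l11084 (nat_lit 10554) (nat_lit 7) (nat_lit 7))
    (@En.n l6727 (nat_lit 2751) (nat_lit 9) (nat_lit 12))
    (@En.n l8995 (nat_lit 11802) (nat_lit 4) (nat_lit 7))
    (@En.n l253 (nat_lit 10881) (nat_lit 7) (nat_lit 11))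
    (@En.i (nat_lit 3247) (nat_lit 10) (nat_lit 8))
    (@En.n l6539 (nat_lit 10597) (nat_lit 7) (nat_lit 5))
    (@En.n l34350 (nat_lit 12147) (nat_lit 7) (nat_lit 9))
    (@En.n l6539 (nat_lit 10553) (nat_lit 1) (nat_lit 9))
    (@En.n l18583 (nat_lit 10559) (nat_lit 15) (nat_lit 3))))
  (@Cl.mk (nat_lit 0x30009000900040008000b0008000c00070007000500040008000d0008000c) (nat_lit 0x550546100005707) (nat_lit 16) Lb.e (@T16.mk En
    (@En.n l3633 (nat_lit 2752) (nat_lit 0) (nat_lit 12))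
    (@En.i (nat_lit 11736) (nat_lit 4) (nat_lit 8))
    (@En.n l35152 (nat_lit 10925) (nat_lit 2) (nat_lit 13))
    (@En.n l2491 (nat_lit 10560) (nat_lit 3) (nat_lit 8))
    (@En.n l3604 (nat_lit 53) (nat_lit 4) (nat_lit 4))
    (@En.n l3535 (nat_lit 10601) (nat_lit 5) (nat_lit 5))
    (@En.n l152 (nat_lit 12143) (nat_lit 9) (nat_lit 7))
    (@En.n l34585 (nat_lit 10556) (nat_lit 7) (nat_lit 7))
    (@En.i (nat_lit 2750) (nat_lit 9) (nat_lit 12))
    (@En.n l134 (nat_lit 11720) (nat_lit 4) (nat_lit 8))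
    (@En.i (nat_lit 8053) (nat_lit 7) (nat_lit 11))
    (@En.n l617 (nat_lit 3246) (nat_lit 11) (nat_lit 8))
    (@En.i (nat_lit 10024) (nat_lit 15) (nat_lit 4))
    (@En.n l3536 (nat_lit 12141) (nat_lit 7) (nat_lit 9))
    (@En.n l3745 (nat_lit 10022) (nat_lit 1) (nat_lit 9))
    (@En.n l15024 (nat_lit 10558) (nat_lit 15) (nat_lit 3))))
noncomputable def a660 : T16 Cl := @T16.mk Cl
  (@Cl.mk (nat_lit 0x30008000800040008000d000b000900030008000800050008000d0007000c) (nat_lit 0x3505a5102504606) (nat_lit 16) Lb.e (@T16.mk En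
    (@En.n l3260 (nat_lit 2748) (nat_lit 0) (nat_lit 12))
    (@En.n l3506 (nat_lit 11738) (nat_lit 4) (nat_lit 7))
    (@En.n l7441 (nat_lit 10929) (nat_lit 11) (nat_lit 13))
    (@En.n l7471 (nat_lit 5666) (nat_lit 10) (nat_lit 8))
    (@En.n l19331 (nat_lit 10603) (nat_lit 4) (nat_lit 5))
    (@En.n l152 (nat_lit 12232) (nat_lit 8) (nat_lit 8))
    (@En.i (nat_lit 10557) (nat_lit 6) (nat_lit 8))
    (@En.n l11219 (nat_lit 53) (nat_lit 7) (nat_lit 3))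
    (@En.i (nat_lit 9331) (nat_lit 0) (nat_lit 9))
    (@En.n l6698 (nat_lit 10559) (nat_lit 10) (nat_lit 11))
    (@En.n l1578 (nat_lit 10926) (nat_lit 11) (nat_lit 13))
    (@En.n l617 (nat_lit 3249) (nat_lit 11) (nat_lit 8))
    (@En.n l2125 (nat_lit 10027) (nat_lit 4) (nat_lit 4))
    (@En.n l3261 (nat_lit 12146) (nat_lit 8) (nat_lit 8))
    (@En.n l19332 (nat_lit 10563) (nat_lit 1) (nat_lit 8))
    (@En.i (nat_lit 54) (nat_lit 7) (nat_lit 3))))
  (@Cl.mk (nat_lit 0x30007000a00040008000c0008000c00060004000900040008000d0008000c) (nat_lit 0x80174200406845) (nat_lit 16) Lb.e (@T16.mk En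
    (@En.n l43254 (nat_lit 10611) (nat_lit 0) (nat_lit 12))
    (@En.n l20041 (nat_lit 11952) (nat_lit 4) (nat_lit 8))
    (@En.n l43255 (nat_lit 10615) (nat_lit 2) (nat_lit 13))
    (@En.n l35081 (nat_lit 6221) (nat_lit 3) (nat_lit 8))
    (@En.n l35082 (nat_lit 10559) (nat_lit 4) (nat_lit 4))
    (@En.n l39261 (nat_lit 10032) (nat_lit 5) (nat_lit 9))
    (@En.n l34038 (nat_lit 10602) (nat_lit 6) (nat_lit 4))
    (@En.n l22756 (nat_lit 10730) (nat_lit 7) (nat_lit 6))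
    (@En.n l11 (nat_lit 4250) (nat_lit 1) (nat_lit 12))
    (@En.i (nat_lit 10575) (nat_lit 4) (nat_lit 8))
    (@En.n l1316 (nat_lit 11106) (nat_lit 11) (nat_lit 12))
    (@En.n l35240 (nat_lit 5626) (nat_lit 11) (nat_lit 8))
    (@En.n l43256 (nat_lit 79) (nat_lit 5) (nat_lit 4))
    (@En.i (nat_lit 12127) (nat_lit 8) (nat_lit 10))
    (@En.n l35089 (nat_lit 10033) (nat_lit 1) (nat_lit 7))
    (@En.n l43257 (nat_lit 10027) (nat_lit 15) (nat_lit 3))))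
  (@Cl.mk (nat_lit 0x30007000d0007000b00030008000c00090005000900040009000d00080007) (nat_lit 0x80201660105160) (nat_lit 16) Lb.e (@T16.mk En
    (@En.n l3098 (nat_lit 12139) (nat_lit 0) (nat_lit 7))
    (@En.n l43248 (nat_lit 8839) (nat_lit 6) (nat_lit 8))
    (@En.i (nat_lit 4301) (nat_lit 8) (nat_lit 13))
    (@En.n l43249 (nat_lit 11784) (nat_lit 3) (nat_lit 9))
    (@En.n l6081 (nat_lit 10030) (nat_lit 9) (nat_lit 4))
    (@En.n l43250 (nat_lit 5632) (nat_lit 10) (nat_lit 9))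
    (@En.n l43251 (nat_lit 10033) (nat_lit 6) (nat_lit 5))
    (@En.n l12517 (nat_lit 10559) (nat_lit 13) (nat_lit 9))
    (@En.i (nat_lit 10430) (nat_lit 7) (nat_lit 12))
    (@En.n l43252 (nat_lit 79) (nat_lit 2) (nat_lit 8))
    (@En.n l22795 (nat_lit 10563) (nat_lit 10) (nat_lit 3))
    (@En.n l3348 (nat_lit 10016) (nat_lit 0) (nat_lit 11))
    (@En.n l43253 (nat_lit 10488) (nat_lit 13) (nat_lit 7))
    (@En.n l15647 (nat_lit 10919) (nat_lit 2) (nat_lit 13))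
    (@En.n l35085 (nat_lit 10729) (nat_lit 3) (nat_lit 7))
    (@En.n l16304 (nat_lit 10032) (nat_lit 4) (nat_lit 3))))
  (@Cl.mk (nat_lit 0x30007000d000a000800030008000c00090006000900040008000d00080007) (nat_lit 0x81105660405420) (nat_lit 16) Lb.e (@T16.mk En
    (@En.n l1927 (nat_lit 12140) (nat_lit 0) (nat_lit 7))
    (@En.n l5592 (nat_lit 8837) (nat_lit 6) (nat_lit 8))
    (@En.n l34588 (nat_lit 4299) (nat_lit 8) (nat_lit 13))
    (@En.i (nat_lit 11785) (nat_lit 3) (nat_lit 8))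
    (@En.n l34589 (nat_lit 10731) (nat_lit 9) (nat_lit 4))
    (@En.i (nat_lit 5634) (nat_lit 9) (nat_lit 9))
    (@En.n l34590 (nat_lit 10032) (nat_lit 6) (nat_lit 6))
    (@En.n l33601 (nat_lit 10558) (nat_lit 13) (nat_lit 9))
    (@En.n l34591 (nat_lit 10432) (nat_lit 7) (nat_lit 12))
    (@En.n l5351 (nat_lit 10564) (nat_lit 4) (nat_lit 8))
    (@En.n l34592 (nat_lit 10562) (nat_lit 10) (nat_lit 3))
    (@En.n l34593 (nat_lit 9913) (nat_lit 0) (nat_lit 8))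
    (@En.n l34594 (nat_lit 10022) (nat_lit 13) (nat_lit 10))
    (@En.n l34595 (nat_lit 10918) (nat_lit 2) (nat_lit 13))
    (@En.n l8153 (nat_lit 10728) (nat_lit 3) (nat_lit 7))
    (@En.n l3348 (nat_lit 10028) (nat_lit 4) (nat_lit 3))))
  (@Cl.mk (nat_lit 0x40007000c0008000c0008000400080004000b00090008000c000800050008) (nat_lit 0x21610305649404) (nat_lit 16) Lb.e (@T16.mk En
    (@En.n l43342 (nat_lit 9406) (nat_lit 10) (nat_lit 8))
    (@En.n l33010 (nat_lit 10577) (nat_lit 1) (nat_lit 5))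
    (@En.n l61 (nat_lit 10553) (nat_lit 0) (nat_lit 8))
    (@En.n l33011 (nat_lit 10569) (nat_lit 7) (nat_lit 12))
    (@En.n l33012 (nat_lit 10571) (nat_lit 8) (nat_lit 8))
    (@En.n l33013 (nat_lit 9673) (nat_lit 5) (nat_lit 9))
    (@En.n l40238 (nat_lit 10565) (nat_lit 13) (nat_lit 11))
    (@En.n l32050 (nat_lit 10833) (nat_lit 7) (nat_lit 4))
    (@En.n l43343 (nat_lit 2827) (nat_lit 11) (nat_lit 8))
    (@En.n l9876 (nat_lit 4313) (nat_lit 1) (nat_lit 4))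
    (@En.n l42510 (nat_lit 4654) (nat_lit 0) (nat_lit 8))
    (@En.i (nat_lit 10453) (nat_lit 1) (nat_lit 12))
    (@En.n l41536 (nat_lit 4538) (nat_lit 13) (nat_lit 8))
    (@En.n l21432 (nat_lit 9785) (nat_lit 8) (nat_lit 12))
    (@En.n l9877 (nat_lit 9628) (nat_lit 11) (nat_lit 7))
    (@En.n l40238 (nat_lit 12050) (nat_lit 15) (nat_lit 4))))
  (@Cl.mk (nat_lit 0x40008000b00080007000b00070005000a000800050008000c000900060009) (nat_lit 0x345090055052101) (nat_lit 16) Lb.e (@T16.mk En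
    (@En.n l22844 (nat_lit 4656) (nat_lit 9) (nat_lit 9))
    (@En.n l3506 (nat_lit 10025) (nat_lit 1) (nat_lit 6))
    (@En.n l43585 (nat_lit 4537) (nat_lit 0) (nat_lit 9))
    (@En.n l20048 (nat_lit 9655) (nat_lit 7) (nat_lit 12))
    (@En.n l20657 (nat_lit 8827) (nat_lit 10) (nat_lit 8))
    (@En.i (nat_lit 9921) (nat_lit 5) (nat_lit 5))
    (@En.n l43586 (nat_lit 10564) (nat_lit 0) (nat_lit 8))
    (@En.n l43587 (nat_lit 10566) (nat_lit 1) (nat_lit 10))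
    (@En.n l3536 (nat_lit 10575) (nat_lit 2) (nat_lit 5))
    (@En.n l9144 (nat_lit 10555) (nat_lit 0) (nat_lit 7))
    (@En.n l7 (nat_lit 10568) (nat_lit 8) (nat_lit 11))
    (@En.n l21649 (nat_lit 10570) (nat_lit 9) (nat_lit 7))
    (@En.n l43588 (nat_lit 9709) (nat_lit 13) (nat_lit 8))
    (@En.n l3866 (nat_lit 11492) (nat_lit 7) (nat_lit 11))
    (@En.n l22844 (nat_lit 2832) (nat_lit 11) (nat_lit 8))
    (@En.n l38329 (nat_lit 4314) (nat_lit 15) (nat_lit 4))))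
  (@Cl.mk (nat_lit 0x40007000b00080006000c000900050009000400090008000c0007000a0007) (nat_lit 0x2107203066a040) (nat_lit 16) Lb.e (@T16.mk En
    (@En.n l12272 (nat_lit 9409) (nat_lit 0) (nat_lit 7))
    (@En.n l37377 (nat_lit 11218) (nat_lit 8) (nat_lit 10))
    (@En.n l21574 (nat_lit 8838) (nat_lit 12) (nat_lit 7))
    (@En.n l37378 (nat_lit 10567) (nat_lit 7) (nat_lit 12))
    (@En.i (nat_lit 8840) (nat_lit 8) (nat_lit 8))
    (@En.n l37379 (nat_lit 9708) (nat_lit 5) (nat_lit 9))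
    (@En.n l37380 (nat_lit 10842) (nat_lit 6) (nat_lit 4))
    (@En.i (nat_lit 4233) (nat_lit 0) (nat_lit 9))
    (@En.n l37381 (nat_lit 10394) (nat_lit 1) (nat_lit 5))
    (@En.n l37382 (nat_lit 10565) (nat_lit 0) (nat_lit 9))
    (@En.n l37383 (nat_lit 10564) (nat_lit 11) (nat_lit 12))
    (@En.n l37377 (nat_lit 10026) (nat_lit 2) (nat_lit 6))
    (@En.n l37384 (nat_lit 60) (nat_lit 5) (nat_lit 8))
    (@En.n l17451 (nat_lit 9871) (nat_lit 8) (nat_lit 11))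
    (@En.n l21573 (nat_lit 9263) (nat_lit 11) (nat_lit 7))
    (@En.n l9868 (nat_lit 11956) (nat_lit 15) (nat_lit 4))))
  (@Cl.mk (nat_lit 0x30007000c000a0005000a00040009000c0006000900060004000d0007000b) (nat_lit 0x84030690300802) (nat_lit 16) Lb.e (@T16.mk En
    (@En.n l1203 (nat_lit 9183) (nat_lit 0) (nat_lit 11))
    (@En.n l9102 (nat_lit 10566) (nat_lit 14) (nat_lit 7))
    (@En.n l4191 (nat_lit 8839) (nat_lit 2) (nat_lit 13))
    (@En.n l28 (nat_lit 11955) (nat_lit 3) (nat_lit 4))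
    (@En.n l502 (nat_lit 9410) (nat_lit 4) (nat_lit 6))
    (@En.i (nat_lit 11216) (nat_lit 9) (nat_lit 9))
    (@En.n l22626 (nat_lit 8832) (nat_lit 6) (nat_lit 6))
    (@En.i (nat_lit 7280) (nat_lit 6) (nat_lit 12))
    (@En.n l11870 (nat_lit 9710) (nat_lit 9) (nat_lit 9))
    (@En.n l4427 (nat_lit 10617) (nat_lit 9) (nat_lit 4))
    (@En.n l9102 (nat_lit 4231) (nat_lit 0) (nat_lit 10))
    (@En.i (nat_lit 10391) (nat_lit 1) (nat_lit 5))
    (@En.n l4428 (nat_lit 10568) (nat_lit 13) (nat_lit 10))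
    (@En.n l4429 (nat_lit 10569) (nat_lit 14) (nat_lit 12))
    (@En.i (nat_lit 10029) (nat_lit 12) (nat_lit 7))
    (@En.n l16997 (nat_lit 8840) (nat_lit 15) (nat_lit 3))))
  (@Cl.mk (nat_lit 0x30007000a00040009000c0008000b00060004000900070005000d0008000c) (nat_lit 0x30375800400962) (nat_lit 16) Lb.e (@T16.mk En
    (@En.n l3082 (nat_lit 9184) (nat_lit 0) (nat_lit 12))
    (@En.i (nat_lit 10565) (nat_lit 4) (nat_lit 8))
    (@En.n l38153 (nat_lit 10556) (nat_lit 2) (nat_lit 13))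
    (@En.i (nat_lit 11863) (nat_lit 3) (nat_lit 5))
    (@En.n l11864 (nat_lit 10569) (nat_lit 4) (nat_lit 7))
    (@En.n l4819 (nat_lit 10567) (nat_lit 5) (nat_lit 9))
    (@En.n l3536 (nat_lit 10572) (nat_lit 6) (nat_lit 4))
    (@En.n l5390 (nat_lit 9544) (nat_lit 7) (nat_lit 6))
    (@En.i (nat_lit 6993) (nat_lit 7) (nat_lit 11))
    (@En.i (nat_lit 9811) (nat_lit 10) (nat_lit 8))
    (@En.n l3866 (nat_lit 11491) (nat_lit 6) (nat_lit 12))
    (@En.n l264 (nat_lit 4232) (nat_lit 12) (nat_lit 9))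
    (@En.i (nat_lit 4318) (nat_lit 13) (nat_lit 4))
    (@En.n l2299 (nat_lit 7808) (nat_lit 8) (nat_lit 10))
    (@En.i (nat_lit 10030) (nat_lit 1) (nat_lit 7))
    (@En.n l22804 (nat_lit 10570) (nat_lit 15) (nat_lit 3))))
  (@Cl.mk (nat_lit 0x3000c0009000400090004000c0009000c0007000400070004000d0007000c) (nat_lit 0x71030868000090a) (nat_lit 16) Lb.e (@T16.mk En
    (@En.n l22612 (nat_lit 9182) (nat_lit 0) (nat_lit 12))
    (@En.n l24426 (nat_lit 10564) (nat_lit 14) (nat_lit 7))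
    (@En.n l22621 (nat_lit 10557) (nat_lit 2) (nat_lit 13))
    (@En.n l3939 (nat_lit 11866) (nat_lit 3) (nat_lit 4))
    (@En.n l612 (nat_lit 9407) (nat_lit 11) (nat_lit 7))
    (@En.n l50 (nat_lit 10574) (nat_lit 5) (nat_lit 4))
    (@En.n l17393 (nat_lit 9543) (nat_lit 0) (nat_lit 7))
    (@En.i (nat_lit 6992) (nat_lit 6) (nat_lit 12))
    (@En.n l18910 (nat_lit 9672) (nat_lit 14) (nat_lit 9))
    (@En.n l3939 (nat_lit 10568) (nat_lit 10) (nat_lit 12))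
    (@En.n l28 (nat_lit 10615) (nat_lit 10) (nat_lit 4))
    (@En.i (nat_lit 4238) (nat_lit 0) (nat_lit 9))
    (@En.n l339 (nat_lit 4316) (nat_lit 1) (nat_lit 4))
    (@En.n l4839 (nat_lit 4655) (nat_lit 0) (nat_lit 9))
    (@En.n l22614 (nat_lit 10622) (nat_lit 1) (nat_lit 12))
    (@En.n l32878 (nat_lit 10571) (nat_lit 15) (nat_lit 3))))
  (@Cl.mk (nat_lit 0x30007000a00050009000c0007000b00060004000900070005000d000b0009) (nat_lit 0x20380500400882) (nat_lit 16) Lb.e (@T16.mk En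
    (@En.n l3522 (nat_lit 4542) (nat_lit 0) (nat_lit 9))
    (@En.n l16894 (nat_lit 9845) (nat_lit 5) (nat_lit 11))
    (@En.n l34033 (nat_lit 10554) (nat_lit 2) (nat_lit 13))
    (@En.n l38415 (nat_lit 11864) (nat_lit 3) (nat_lit 5))
    (@En.n l38416 (nat_lit 10571) (nat_lit 4) (nat_lit 7))
    (@En.n l34000 (nat_lit 8840) (nat_lit 5) (nat_lit 9))
    (@En.n l16496 (nat_lit 10573) (nat_lit 6) (nat_lit 4))
    (@En.n l61 (nat_lit 8841) (nat_lit 7) (nat_lit 6))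
    (@En.n l38415 (nat_lit 6991) (nat_lit 8) (nat_lit 11))
    (@En.n l38417 (nat_lit 9812) (nat_lit 10) (nat_lit 7))
    (@En.i (nat_lit 11490) (nat_lit 6) (nat_lit 12))
    (@En.n l10971 (nat_lit 4230) (nat_lit 12) (nat_lit 9))
    (@En.n l34006 (nat_lit 10411) (nat_lit 13) (nat_lit 5))
    (@En.n l10971 (nat_lit 7810) (nat_lit 8) (nat_lit 10))
    (@En.n l9943 (nat_lit 4310) (nat_lit 12) (nat_lit 7))
    (@En.n l38418 (nat_lit 10568) (nat_lit 15) (nat_lit 3))))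
  (@Cl.mk (nat_lit 0x3000c0009000500090004000c0008000c0007000400070004000d000b0008) (nat_lit 0x1203093a0000922) (nat_lit 16) Lb.e (@T16.mk En
    (@En.i (nat_lit 4545) (nat_lit 0) (nat_lit 8))
    (@En.n l37055 (nat_lit 4321) (nat_lit 12) (nat_lit 11))
    (@En.n l10997 (nat_lit 10552) (nat_lit 2) (nat_lit 13))
    (@En.n l43004 (nat_lit 11867) (nat_lit 3) (nat_lit 4))
    (@En.n l617 (nat_lit 9408) (nat_lit 11) (nat_lit 7))
    (@En.n l18287 (nat_lit 10576) (nat_lit 5) (nat_lit 4))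
    (@En.n l8667 (nat_lit 9546) (nat_lit 0) (nat_lit 7))
    (@En.n l17961 (nat_lit 6990) (nat_lit 7) (nat_lit 12))
    (@En.n l9325 (nat_lit 9816) (nat_lit 14) (nat_lit 8))
    (@En.n l43419 (nat_lit 10570) (nat_lit 10) (nat_lit 12))
    (@En.n l50 (nat_lit 10917) (nat_lit 10) (nat_lit 4))
    (@En.n l34604 (nat_lit 4237) (nat_lit 10) (nat_lit 9))
    (@En.n l1807 (nat_lit 10958) (nat_lit 1) (nat_lit 5))
    (@En.n l31041 (nat_lit 7809) (nat_lit 14) (nat_lit 9))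
    (@En.n l18287 (nat_lit 79) (nat_lit 1) (nat_lit 12))
    (@En.n l12503 (nat_lit 10569) (nat_lit 15) (nat_lit 3))))
  (@Cl.mk (nat_lit 0x30007000c00040009000c00040009000c0004000900070004000d0007000c) (nat_lit 0x30150670700601) (nat_lit 16) Lb.e (@T16.mk En
    (@En.n l13550 (nat_lit 9187) (nat_lit 0) (nat_lit 12))
    (@En.i (nat_lit 10575) (nat_lit 14) (nat_lit 7))
    (@En.i (nat_lit 10593) (nat_lit 2) (nat_lit 13))
    (@En.n l3480 (nat_lit 11719) (nat_lit 3) (nat_lit 4))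
    (@En.n l15957 (nat_lit 10574) (nat_lit 4) (nat_lit 7))
    (@En.n l9182 (nat_lit 11152) (nat_lit 5) (nat_lit 9))
    (@En.n l3098 (nat_lit 10633) (nat_lit 6) (nat_lit 4))
    (@En.i (nat_lit 6986) (nat_lit 6) (nat_lit 12))
    (@En.n l1329 (nat_lit 12585) (nat_lit 1) (nat_lit 9))
    (@En.n l13633 (nat_lit 10567) (nat_lit 9) (nat_lit 4))
    (@En.i (nat_lit 11412) (nat_lit 6) (nat_lit 12))
    (@En.n l7507 (nat_lit 4235) (nat_lit 1) (nat_lit 9))
    (@En.i (nat_lit 11942) (nat_lit 13) (nat_lit 4))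
    (@En.n l3328 (nat_lit 10816) (nat_lit 0) (nat_lit 12))
    (@En.i (nat_lit 10601) (nat_lit 1) (nat_lit 7))
    (@En.i (nat_lit 10573) (nat_lit 15) (nat_lit 3))))
  (@Cl.mk (nat_lit 0x30007000c00050009000c00040008000c0004000900070004000d000b0008) (nat_lit 0x70180270700566) (nat_lit 16) Lb.e (@T16.mk En
    (@En.n l31869 (nat_lit 10347) (nat_lit 0) (nat_lit 8))
    (@En.i (nat_lit 11775) (nat_lit 5) (nat_lit 11))
    (@En.n l19239 (nat_lit 10592) (nat_lit 2) (nat_lit 13))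
    (@En.n l31870 (nat_lit 11718) (nat_lit 3) (nat_lit 4))
    (@En.n l31869 (nat_lit 10576) (nat_lit 4) (nat_lit 7))
    (@En.n l31871 (nat_lit 11110) (nat_lit 5) (nat_lit 9))
    (@En.n l31872 (nat_lit 10635) (nat_lit 6) (nat_lit 4))
    (@En.i (nat_lit 6985) (nat_lit 7) (nat_lit 12))
    (@En.n l31873 (nat_lit 12428) (nat_lit 11) (nat_lit 8))
    (@En.n l15184 (nat_lit 8840) (nat_lit 9) (nat_lit 4))
    (@En.i (nat_lit 11413) (nat_lit 6) (nat_lit 12))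
    (@En.n l31874 (nat_lit 4234) (nat_lit 1) (nat_lit 9))
    (@En.n l19241 (nat_lit 11940) (nat_lit 13) (nat_lit 5))
    (@En.n l3815 (nat_lit 10815) (nat_lit 14) (nat_lit 12))
    (@En.n l810 (nat_lit 11108) (nat_lit 12) (nat_lit 7))
    (@En.n l28 (nat_lit 10572) (nat_lit 15) (nat_lit 3))))
  (@Cl.mk (nat_lit 0x3000c000b000400090004000c0005000a000d000400070003000d0006000c) (nat_lit 0x66010603700050a) (nat_lit 16) Lb.e (@T16.mk En
    (@En.i (nat_lit 9188) (nat_lit 0) (nat_lit 12))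
    (@En.i (nat_lit 10577) (nat_lit 14) (nat_lit 6))
    (@En.i (nat_lit 10590) (nat_lit 2) (nat_lit 13))
    (@En.n l6081 (nat_lit 10578) (nat_lit 3) (nat_lit 3))
    (@En.n l387 (nat_lit 8061) (nat_lit 11) (nat_lit 7))
    (@En.n l18910 (nat_lit 10632) (nat_lit 5) (nat_lit 4))
    (@En.i (nat_lit 6987) (nat_lit 5) (nat_lit 13))
    (@En.n l6622 (nat_lit 12582) (nat_lit 1) (nat_lit 10))
    (@En.n l28 (nat_lit 9410) (nat_lit 8) (nat_lit 5))
    (@En.n l11835 (nat_lit 10572) (nat_lit 10) (nat_lit 12))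
    (@En.n l28 (nat_lit 10620) (nat_lit 10) (nat_lit 4))
    (@En.i (nat_lit 4246) (nat_lit 0) (nat_lit 9))
    (@En.i (nat_lit 11788) (nat_lit 8) (nat_lit 4))
    (@En.n l77 (nat_lit 10818) (nat_lit 0) (nat_lit 11))
    (@En.i (nat_lit 9553) (nat_lit 1) (nat_lit 12))
    (@En.n l38112 (nat_lit 10576) (nat_lit 15) (nat_lit 3))))
  (@Cl.mk (nat_lit 0x40007000c00080006000c00040008000b000400090008000c0005000a0008) (nat_lit 0x75030170638085) (nat_lit 16) Lb.e (@T16.mk En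
    (@En.n l15957 (nat_lit 10577) (nat_lit 0) (nat_lit 8))
    (@En.n l34038 (nat_lit 11153) (nat_lit 1) (nat_lit 10))
    (@En.n l3098 (nat_lit 11077) (nat_lit 8) (nat_lit 5))
    (@En.n l11 (nat_lit 10572) (nat_lit 7) (nat_lit 12))
    (@En.n l55 (nat_lit 10573) (nat_lit 8) (nat_lit 8))
    (@En.n l40027 (nat_lit 12586) (nat_lit 11) (nat_lit 9))
    (@En.n l28543 (nat_lit 10566) (nat_lit 6) (nat_lit 4))
    (@En.i (nat_lit 11415) (nat_lit 7) (nat_lit 11))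
    (@En.n l7507 (nat_lit 4219) (nat_lit 1) (nat_lit 8))
    (@En.n l33690 (nat_lit 11943) (nat_lit 9) (nat_lit 4))
    (@En.n l3328 (nat_lit 10832) (nat_lit 0) (nat_lit 12))
    (@En.i (nat_lit 10603) (nat_lit 1) (nat_lit 6))
    (@En.n l430 (nat_lit 10344) (nat_lit 13) (nat_lit 8))
    (@En.n l2611 (nat_lit 11783) (nat_lit 8) (nat_lit 12))
    (@En.n l35081 (nat_lit 9606) (nat_lit 11) (nat_lit 7))
    (@En.n l3480 (nat_lit 11720) (nat_lit 15) (nat_lit 4))))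
noncomputable def a661 : T16 Cl := @T16.mk Cl
  (@Cl.mk (nat_lit 0x3000c000b000500090004000c00050009000d000400070003000d000b0007) (nat_lit 0x660109068000450) (nat_lit 16) Lb.e (@T16.mk En
    (@En.n l1003 (nat_lit 10348) (nat_lit 0) (nat_lit 7))
    (@En.n l21670 (nat_lit 11774) (nat_lit 14) (nat_lit 11))
    (@En.n l5646 (nat_lit 10589) (nat_lit 2) (nat_lit 13))
    (@En.n l4427 (nat_lit 10579) (nat_lit 3) (nat_lit 3))
    (@En.n l1081 (nat_lit 8060) (nat_lit 11) (nat_lit 7))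
    (@En.n l1080 (nat_lit 10634) (nat_lit 5) (nat_lit 4))
    (@En.n l42601 (nat_lit 6984) (nat_lit 6) (nat_lit 13))
    (@En.n l1003 (nat_lit 11824) (nat_lit 1) (nat_lit 9))
    (@En.n l117 (nat_lit 9411) (nat_lit 8) (nat_lit 5))
    (@En.n l16588 (nat_lit 10573) (nat_lit 10) (nat_lit 12))
    (@En.n l42601 (nat_lit 10846) (nat_lit 10) (nat_lit 4))
    (@En.n l2642 (nat_lit 4245) (nat_lit 10) (nat_lit 9))
    (@En.i (nat_lit 4176) (nat_lit 1) (nat_lit 5))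
    (@En.n l41478 (nat_lit 10817) (nat_lit 5) (nat_lit 11))
    (@En.i (nat_lit 10604) (nat_lit 11) (nat_lit 12))
    (@En.n l13633 (nat_lit 10574) (nat_lit 15) (nat_lit 3))))
  (@Cl.mk (nat_lit 0x30006000c0007000c000b000400080004000b0005000a0009000d00050008) (nat_lit 0x60550108037804) (nat_lit 16) Lb.e (@T16.mk En
    (@En.n l41858 (nat_lit 8062) (nat_lit 0) (nat_lit 8))
    (@En.n l33187 (nat_lit 11075) (nat_lit 7) (nat_lit 5))
    (@En.n l3 (nat_lit 10574) (nat_lit 6) (nat_lit 13))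
    (@En.n l4427 (nat_lit 10576) (nat_lit 7) (nat_lit 9))
    (@En.n l6737 (nat_lit 12584) (nat_lit 4) (nat_lit 10))
    (@En.n l15349 (nat_lit 9409) (nat_lit 5) (nat_lit 5))
    (@En.n l11835 (nat_lit 10575) (nat_lit 7) (nat_lit 11))
    (@En.n l28 (nat_lit 10835) (nat_lit 7) (nat_lit 4))
    (@En.n l499 (nat_lit 4249) (nat_lit 11) (nat_lit 8))
    (@En.n l10171 (nat_lit 10844) (nat_lit 9) (nat_lit 4))
    (@En.n l77 (nat_lit 10819) (nat_lit 11) (nat_lit 11))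
    (@En.n l33186 (nat_lit 9551) (nat_lit 12) (nat_lit 12))
    (@En.n l15349 (nat_lit 10346) (nat_lit 13) (nat_lit 7))
    (@En.n l3 (nat_lit 11868) (nat_lit 14) (nat_lit 12))
    (@En.n l29703 (nat_lit 9605) (nat_lit 12) (nat_lit 6))
    (@En.n l37985 (nat_lit 11784) (nat_lit 15) (nat_lit 3))))
  (@Cl.mk (nat_lit 0x3000c000b0004000a0004000b0005000a000d000600050003000d0006000c) (nat_lit 0x770304038000409) (nat_lit 16) Lb.e (@T16.mk En
    (@En.n l1865 (nat_lit 9191) (nat_lit 0) (nat_lit 12))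
    (@En.n l936 (nat_lit 11784) (nat_lit 14) (nat_lit 6))
    (@En.i (nat_lit 11793) (nat_lit 2) (nat_lit 13))
    (@En.n l3536 (nat_lit 10574) (nat_lit 3) (nat_lit 3))
    (@En.n l21041 (nat_lit 12661) (nat_lit 0) (nat_lit 5))
    (@En.n l34491 (nat_lit 11880) (nat_lit 5) (nat_lit 6))
    (@En.n l41410 (nat_lit 7377) (nat_lit 5) (nat_lit 13))
    (@En.n l23334 (nat_lit 12583) (nat_lit 3) (nat_lit 10))
    (@En.n l41410 (nat_lit 7400) (nat_lit 8) (nat_lit 5))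
    (@En.n l30872 (nat_lit 11719) (nat_lit 10) (nat_lit 11))
    (@En.n l17941 (nat_lit 10848) (nat_lit 10) (nat_lit 4))
    (@En.i (nat_lit 10483) (nat_lit 0) (nat_lit 10))
    (@En.n l37893 (nat_lit 11786) (nat_lit 1) (nat_lit 4))
    (@En.n l41411 (nat_lit 10826) (nat_lit 0) (nat_lit 11))
    (@En.n l22845 (nat_lit 9554) (nat_lit 11) (nat_lit 12))
    (@En.n l20221 (nat_lit 10579) (nat_lit 15) (nat_lit 3))))
  (@Cl.mk (nat_lit 0x3000c000b0005000a0004000b00050009000d000600050003000d000b0007) (nat_lit 0x740304038000470) (nat_lit 16) Lb.e (@T16.mk En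
    (@En.n l17169 (nat_lit 10350) (nat_lit 0) (nat_lit 7))
    (@En.n l33374 (nat_lit 11773) (nat_lit 14) (nat_lit 11))
    (@En.n l33375 (nat_lit 11816) (nat_lit 2) (nat_lit 13))
    (@En.n l13784 (nat_lit 10576) (nat_lit 3) (nat_lit 3))
    (@En.n l33376 (nat_lit 12664) (nat_lit 0) (nat_lit 5))
    (@En.n l13633 (nat_lit 11881) (nat_lit 5) (nat_lit 6))
    (@En.n l33377 (nat_lit 7376) (nat_lit 6) (nat_lit 13))
    (@En.n l33378 (nat_lit 11822) (nat_lit 10) (nat_lit 9))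
    (@En.n l152 (nat_lit 9583) (nat_lit 8) (nat_lit 5))
    (@En.n l33379 (nat_lit 11718) (nat_lit 10) (nat_lit 11))
    (@En.n l33377 (nat_lit 10847) (nat_lit 10) (nat_lit 4))
    (@En.i (nat_lit 10482) (nat_lit 0) (nat_lit 10))
    (@En.n l19246 (nat_lit 11025) (nat_lit 1) (nat_lit 5))
    (@En.n l33380 (nat_lit 10828) (nat_lit 5) (nat_lit 11))
    (@En.n l26871 (nat_lit 10029) (nat_lit 11) (nat_lit 12))
    (@En.n l9979 (nat_lit 10578) (nat_lit 15) (nat_lit 3))))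
  (@Cl.mk (nat_lit 0x40008000b0005000c000a0009000500040008000b0006000c0007000b0005) (nat_lit 0x340827004502020) (nat_lit 16) Lb.e (@T16.mk En
    (@En.n l40028 (nat_lit 10309) (nat_lit 0) (nat_lit 5))
    (@En.i (nat_lit 7620) (nat_lit 8) (nat_lit 11))
    (@En.n l763 (nat_lit 11606) (nat_lit 1) (nat_lit 7))
    (@En.n l40028 (nat_lit 8117) (nat_lit 2) (nat_lit 12))
    (@En.n l40029 (nat_lit 8428) (nat_lit 4) (nat_lit 6))
    (@En.i (nat_lit 8589) (nat_lit 7) (nat_lit 11))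
    (@En.n l40030 (nat_lit 10581) (nat_lit 11) (nat_lit 8))
    (@En.n l8151 (nat_lit 10582) (nat_lit 12) (nat_lit 4))
    (@En.n l17 (nat_lit 8366) (nat_lit 0) (nat_lit 5))
    (@En.n l40031 (nat_lit 10316) (nat_lit 1) (nat_lit 9))
    (@En.n l37186 (nat_lit 9698) (nat_lit 11) (nat_lit 10))
    (@En.n l40028 (nat_lit 10209) (nat_lit 2) (nat_lit 12))
    (@En.n l16900 (nat_lit 10553) (nat_lit 4) (nat_lit 5))
    (@En.n l7889 (nat_lit 10260) (nat_lit 7) (nat_lit 11))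
    (@En.n l40032 (nat_lit 10585) (nat_lit 11) (nat_lit 8))
    (@En.n l7 (nat_lit 10588) (nat_lit 12) (nat_lit 4))))
  (@Cl.mk (nat_lit 0x3000b000a00050008000b0005000c0006000a000500040008000d000b0006) (nat_lit 0x980380202003950) (nat_lit 16) Lb.e (@T16.mk En
    (@En.n l1643 (nat_lit 9405) (nat_lit 0) (nat_lit 6))
    (@En.n l32359 (nat_lit 10580) (nat_lit 13) (nat_lit 11))
    (@En.n l38009 (nat_lit 9173) (nat_lit 2) (nat_lit 13))
    (@En.n l37326 (nat_lit 10583) (nat_lit 11) (nat_lit 8))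
    (@En.n l5734 (nat_lit 10586) (nat_lit 12) (nat_lit 4))
    (@En.n l3038 (nat_lit 10311) (nat_lit 0) (nat_lit 5))
    (@En.n l13775 (nat_lit 8242) (nat_lit 9) (nat_lit 10))
    (@En.n l13963 (nat_lit 12211) (nat_lit 7) (nat_lit 6))
    (@En.n l5856 (nat_lit 8118) (nat_lit 9) (nat_lit 12))
    (@En.n l38010 (nat_lit 8435) (nat_lit 9) (nat_lit 5))
    (@En.n l1643 (nat_lit 9987) (nat_lit 7) (nat_lit 11))
    (@En.n l5856 (nat_lit 7424) (nat_lit 10) (nat_lit 8))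
    (@En.n l38011 (nat_lit 8480) (nat_lit 7) (nat_lit 5))
    (@En.n l37323 (nat_lit 10315) (nat_lit 14) (nat_lit 10))
    (@En.n l38012 (nat_lit 9694) (nat_lit 1) (nat_lit 11))
    (@En.n l38013 (nat_lit 10582) (nat_lit 15) (nat_lit 3))))
  (@Cl.mk (nat_lit 0x3000b000a00040008000b0005000c0006000b000500040008000d0005000c) (nat_lit 0x980380201003908) (nat_lit 16) Lb.e (@T16.mk En
    (@En.n l42856 (nat_lit 10206) (nat_lit 0) (nat_lit 12))
    (@En.n l8148 (nat_lit 10591) (nat_lit 4) (nat_lit 5))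
    (@En.n l17555 (nat_lit 9172) (nat_lit 2) (nat_lit 13))
    (@En.n l32464 (nat_lit 10584) (nat_lit 11) (nat_lit 8))
    (@En.n l33196 (nat_lit 10587) (nat_lit 12) (nat_lit 4))
    (@En.i (nat_lit 10313) (nat_lit 0) (nat_lit 5))
    (@En.n l19520 (nat_lit 7639) (nat_lit 1) (nat_lit 11))
    (@En.n l10584 (nat_lit 12212) (nat_lit 7) (nat_lit 6))
    (@En.n l17552 (nat_lit 8119) (nat_lit 9) (nat_lit 12))
    (@En.n l1899 (nat_lit 8779) (nat_lit 9) (nat_lit 5))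
    (@En.n l17552 (nat_lit 9988) (nat_lit 7) (nat_lit 11))
    (@En.i (nat_lit 7422) (nat_lit 11) (nat_lit 8))
    (@En.n l19519 (nat_lit 10089) (nat_lit 15) (nat_lit 4))
    (@En.n l32130 (nat_lit 10317) (nat_lit 0) (nat_lit 10))
    (@En.n l3528 (nat_lit 10570) (nat_lit 1) (nat_lit 11))
    (@En.n l25484 (nat_lit 10581) (nat_lit 15) (nat_lit 3))))
  (@Cl.mk (nat_lit 0x30007000b00050008000d000b00050003000a000900050008000d000b0006) (nat_lit 0x20294008703390) (nat_lit 16) Lb.e (@T16.mk En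
    (@En.n l1080 (nat_lit 9297) (nat_lit 0) (nat_lit 6))
    (@En.n l22549 (nat_lit 10581) (nat_lit 10) (nat_lit 11))
    (@En.n l1063 (nat_lit 10293) (nat_lit 11) (nat_lit 13))
    (@En.n l22550 (nat_lit 7423) (nat_lit 10) (nat_lit 8))
    (@En.n l22551 (nat_lit 8365) (nat_lit 4) (nat_lit 5))
    (@En.i (nat_lit 10314) (nat_lit 5) (nat_lit 9))
    (@En.n l1080 (nat_lit 9695) (nat_lit 1) (nat_lit 10))
    (@En.n l11 (nat_lit 10584) (nat_lit 7) (nat_lit 3))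
    (@En.n l22552 (nat_lit 7960) (nat_lit 0) (nat_lit 5))
    (@En.n l55 (nat_lit 10585) (nat_lit 10) (nat_lit 11))
    (@En.n l1329 (nat_lit 9393) (nat_lit 11) (nat_lit 13))
    (@En.n l4750 (nat_lit 3016) (nat_lit 10) (nat_lit 8))
    (@En.n l1080 (nat_lit 10310) (nat_lit 4) (nat_lit 5))
    (@En.n l22550 (nat_lit 8243) (nat_lit 8) (nat_lit 11))
    (@En.n l17 (nat_lit 12210) (nat_lit 6) (nat_lit 7))
    (@En.n l22553 (nat_lit 10586) (nat_lit 15) (nat_lit 3))))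
  (@Cl.mk (nat_lit 0x30007000c00050008000d0004000c0003000a000900040008000d000b0006) (nat_lit 0x90290601703a90) (nat_lit 16) Lb.e (@T16.mk En
    (@En.i (nat_lit 9299) (nat_lit 0) (nat_lit 6))
    (@En.n l24852 (nat_lit 10582) (nat_lit 10) (nat_lit 11))
    (@En.n l1063 (nat_lit 10291) (nat_lit 11) (nat_lit 13))
    (@En.n l253 (nat_lit 7420) (nat_lit 11) (nat_lit 8))
    (@En.n l31332 (nat_lit 10088) (nat_lit 4) (nat_lit 4))
    (@En.i (nat_lit 8618) (nat_lit 5) (nat_lit 9))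
    (@En.n l16383 (nat_lit 8840) (nat_lit 1) (nat_lit 10))
    (@En.i (nat_lit 10583) (nat_lit 7) (nat_lit 3))
    (@En.n l9385 (nat_lit 10205) (nat_lit 0) (nat_lit 12))
    (@En.n l117 (nat_lit 10589) (nat_lit 9) (nat_lit 4))
    (@En.n l1329 (nat_lit 9395) (nat_lit 11) (nat_lit 13))
    (@En.n l253 (nat_lit 3015) (nat_lit 10) (nat_lit 8))
    (@En.n l2642 (nat_lit 10312) (nat_lit 4) (nat_lit 5))
    (@En.n l33756 (nat_lit 7638) (nat_lit 14) (nat_lit 12))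
    (@En.n l17 (nat_lit 12209) (nat_lit 6) (nat_lit 7))
    (@En.n l3098 (nat_lit 10587) (nat_lit 15) (nat_lit 3))))
  (@Cl.mk (nat_lit 0x30008000c00050008000b0004000c00090008000500040008000d000b0007) (nat_lit 0x520230526004460) (nat_lit 16) Lb.e (@T16.mk En
    (@En.i (nat_lit 9298) (nat_lit 0) (nat_lit 7))
    (@En.n l25858 (nat_lit 10580) (nat_lit 5) (nat_lit 11))
    (@En.n l25859 (nat_lit 10178) (nat_lit 2) (nat_lit 13))
    (@En.n l343 (nat_lit 10583) (nat_lit 3) (nat_lit 8))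
    (@En.n l28 (nat_lit 10584) (nat_lit 4) (nat_lit 4))
    (@En.n l502 (nat_lit 8361) (nat_lit 0) (nat_lit 5))
    (@En.i (nat_lit 8619) (nat_lit 1) (nat_lit 8))
    (@En.n l25860 (nat_lit 8799) (nat_lit 14) (nat_lit 9))
    (@En.n l11106 (nat_lit 10207) (nat_lit 9) (nat_lit 12))
    (@En.n l5235 (nat_lit 10552) (nat_lit 9) (nat_lit 4))
    (@En.n l1329 (nat_lit 10259) (nat_lit 7) (nat_lit 11))
    (@En.n l170 (nat_lit 4490) (nat_lit 10) (nat_lit 8))
    (@En.n l25861 (nat_lit 10308) (nat_lit 7) (nat_lit 5))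
    (@En.n l25859 (nat_lit 7619) (nat_lit 7) (nat_lit 12))
    (@En.n l17 (nat_lit 11605) (nat_lit 1) (nat_lit 8))
    (@En.n l25862 (nat_lit 10588) (nat_lit 15) (nat_lit 3))))
  (@Cl.mk (nat_lit 0x30007000b00040008000d000b00050003000b000900050008000d0005000c) (nat_lit 0x30293007703407) (nat_lit 16) Lb.e (@T16.mk En
    (@En.n l1722 (nat_lit 8123) (nat_lit 0) (nat_lit 12))
    (@En.n l4711 (nat_lit 9435) (nat_lit 9) (nat_lit 5))
    (@En.n l24372 (nat_lit 10294) (nat_lit 2) (nat_lit 13))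
    (@En.i (nat_lit 7425) (nat_lit 10) (nat_lit 8))
    (@En.n l37993 (nat_lit 8364) (nat_lit 4) (nat_lit 5))
    (@En.n l37994 (nat_lit 8614) (nat_lit 5) (nat_lit 9))
    (@En.i (nat_lit 9700) (nat_lit 1) (nat_lit 11))
    (@En.n l37995 (nat_lit 10587) (nat_lit 7) (nat_lit 3))
    (@En.n l31875 (nat_lit 9404) (nat_lit 0) (nat_lit 5))
    (@En.n l24372 (nat_lit 10588) (nat_lit 10) (nat_lit 11))
    (@En.n l37994 (nat_lit 9394) (nat_lit 11) (nat_lit 13))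
    (@En.n l37996 (nat_lit 3014) (nat_lit 11) (nat_lit 8))
    (@En.i (nat_lit 10709) (nat_lit 4) (nat_lit 4))
    (@En.i (nat_lit 7625) (nat_lit 8) (nat_lit 11))
    (@En.n l37997 (nat_lit 10819) (nat_lit 12) (nat_lit 7))
    (@En.n l37998 (nat_lit 10583) (nat_lit 15) (nat_lit 3))))
  (@Cl.mk (nat_lit 0x30007000c00040008000d0004000c0003000b000900040008000d0005000c) (nat_lit 0x30230a07702909) (nat_lit 16) Lb.e (@T16.mk En
    (@En.i (nat_lit 8126) (nat_lit 0) (nat_lit 12))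
    (@En.n l34934 (nat_lit 9440) (nat_lit 9) (nat_lit 5))
    (@En.n l22753 (nat_lit 9205) (nat_lit 2) (nat_lit 13))
    (@En.n l387 (nat_lit 7417) (nat_lit 11) (nat_lit 8))
    (@En.n l27442 (nat_lit 9585) (nat_lit 4) (nat_lit 4))
    (@En.n l617 (nat_lit 8613) (nat_lit 5) (nat_lit 9))
    (@En.n l16588 (nat_lit 10573) (nat_lit 1) (nat_lit 11))
    (@En.n l17893 (nat_lit 10586) (nat_lit 7) (nat_lit 3))
    (@En.n l1722 (nat_lit 10204) (nat_lit 0) (nat_lit 12))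
    (@En.i (nat_lit 10590) (nat_lit 9) (nat_lit 4))
    (@En.n l617 (nat_lit 9397) (nat_lit 11) (nat_lit 13))
    (@En.i (nat_lit 3013) (nat_lit 11) (nat_lit 8))
    (@En.i (nat_lit 10710) (nat_lit 4) (nat_lit 4))
    (@En.n l9182 (nat_lit 8088) (nat_lit 0) (nat_lit 12))
    (@En.n l152 (nat_lit 10821) (nat_lit 12) (nat_lit 7))
    (@En.n l10393 (nat_lit 10584) (nat_lit 15) (nat_lit 3))))
  (@Cl.mk (nat_lit 0x30008000c00040008000b0004000c000a0008000500040008000d0006000c) (nat_lit 0x530220966004508) (nat_lit 16) Lb.e (@T16.mk En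
    (@En.n l5592 (nat_lit 8124) (nat_lit 0) (nat_lit 12))
    (@En.i (nat_lit 9439) (nat_lit 4) (nat_lit 6))
    (@En.i (nat_lit 10176) (nat_lit 2) (nat_lit 13))
    (@En.n l8484 (nat_lit 10586) (nat_lit 3) (nat_lit 8))
    (@En.n l40019 (nat_lit 10587) (nat_lit 4) (nat_lit 4))
    (@En.n l17 (nat_lit 8360) (nat_lit 0) (nat_lit 5))
    (@En.n l29991 (nat_lit 8612) (nat_lit 1) (nat_lit 8))
    (@En.n l619 (nat_lit 9699) (nat_lit 8) (nat_lit 10))
    (@En.n l40020 (nat_lit 10208) (nat_lit 9) (nat_lit 12))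
    (@En.n l40021 (nat_lit 10557) (nat_lit 9) (nat_lit 4))
    (@En.n l7889 (nat_lit 10258) (nat_lit 7) (nat_lit 11))
    (@En.n l16937 (nat_lit 3019) (nat_lit 11) (nat_lit 8))
    (@En.n l28101 (nat_lit 10711) (nat_lit 15) (nat_lit 4))
    (@En.i (nat_lit 7621) (nat_lit 7) (nat_lit 12))
    (@En.n l16938 (nat_lit 10832) (nat_lit 1) (nat_lit 8))
    (@En.n l40022 (nat_lit 10585) (nat_lit 15) (nat_lit 3))))
  (@Cl.mk (nat_lit 0x30007000c000b000600090004000c0005000a000900040007000d000a0006) (nat_lit 0x93030306600350) (nat_lit 16) Lb.e (@T16.mk En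
    (@En.i (nat_lit 9796) (nat_lit 0) (nat_lit 6))
    (@En.n l35401 (nat_lit 10591) (nat_lit 13) (nat_lit 10))
    (@En.n l1063 (nat_lit 10187) (nat_lit 2) (nat_lit 13))
    (@En.n l1743 (nat_lit 6662) (nat_lit 11) (nat_lit 7))
    (@En.n l42538 (nat_lit 10079) (nat_lit 4) (nat_lit 4))
    (@En.i (nat_lit 9548) (nat_lit 0) (nat_lit 9))
    (@En.n l21082 (nat_lit 11958) (nat_lit 1) (nat_lit 10))
    (@En.n l14808 (nat_lit 7961) (nat_lit 7) (nat_lit 5))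
    (@En.n l16495 (nat_lit 10592) (nat_lit 9) (nat_lit 12))
    (@En.n l152 (nat_lit 10693) (nat_lit 9) (nat_lit 4))
    (@En.n l1897 (nat_lit 3011) (nat_lit 9) (nat_lit 9))
    (@En.i (nat_lit 12174) (nat_lit 1) (nat_lit 6))
    (@En.n l619 (nat_lit 10583) (nat_lit 13) (nat_lit 11))
    (@En.n l14229 (nat_lit 8129) (nat_lit 14) (nat_lit 12))
    (@En.n l17 (nat_lit 11441) (nat_lit 12) (nat_lit 7))
    (@En.n l3532 (nat_lit 10590) (nat_lit 15) (nat_lit 3))))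
  (@Cl.mk (nat_lit 0x30007000c000b000500090004000c0005000b000900040007000d0005000b) (nat_lit 0x34020309600409) (nat_lit 16) Lb.e (@T16.mk En
    (@En.i (nat_lit 9565) (nat_lit 0) (nat_lit 11))
    (@En.n l3247 (nat_lit 9452) (nat_lit 7) (nat_lit 5))
    (@En.n l42754 (nat_lit 11840) (nat_lit 2) (nat_lit 13))
    (@En.n l42755 (nat_lit 6664) (nat_lit 11) (nat_lit 7))
    (@En.n l22621 (nat_lit 10081) (nat_lit 4) (nat_lit 4))
    (@En.n l617 (nat_lit 9551) (nat_lit 0) (nat_lit 9))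
    (@En.n l42756 (nat_lit 11718) (nat_lit 1) (nat_lit 11))
    (@En.n l34627 (nat_lit 9412) (nat_lit 7) (nat_lit 5))
    (@En.n l11835 (nat_lit 10593) (nat_lit 9) (nat_lit 12))
    (@En.n l28 (nat_lit 10692) (nat_lit 9) (nat_lit 4))
    (@En.n l965 (nat_lit 3010) (nat_lit 10) (nat_lit 9))
    (@En.n l12421 (nat_lit 10950) (nat_lit 1) (nat_lit 5))
    (@En.n l42755 (nat_lit 10586) (nat_lit 13) (nat_lit 11))
    (@En.n l9182 (nat_lit 9575) (nat_lit 14) (nat_lit 12))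
    (@En.n l152 (nat_lit 10577) (nat_lit 12) (nat_lit 7))
    (@En.n l42757 (nat_lit 10589) (nat_lit 15) (nat_lit 3))))
  (@Cl.mk (nat_lit 0x40007000a0005000b0006000b000a0006000500090005000c0006000b000a) (nat_lit 0x40502300404077) (nat_lit 16) Lb.e (@T16.mk En
    (@En.n l42199 (nat_lit 9547) (nat_lit 0) (nat_lit 10))
    (@En.i (nat_lit 11864) (nat_lit 1) (nat_lit 11))
    (@En.n l42200 (nat_lit 9413) (nat_lit 5) (nat_lit 6))
    (@En.n l41034 (nat_lit 10594) (nat_lit 3) (nat_lit 12))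
    (@En.n l42201 (nat_lit 10275) (nat_lit 4) (nat_lit 5))
    (@En.n l42202 (nat_lit 10589) (nat_lit 10) (nat_lit 9))
    (@En.n l33124 (nat_lit 10590) (nat_lit 11) (nat_lit 5))
    (@En.n l3429 (nat_lit 12175) (nat_lit 7) (nat_lit 6))
    (@En.n l33125 (nat_lit 10581) (nat_lit 6) (nat_lit 10))
    (@En.i (nat_lit 9576) (nat_lit 9) (nat_lit 11))
    (@En.n l37597 (nat_lit 11443) (nat_lit 11) (nat_lit 6))
    (@En.n l23334 (nat_lit 9463) (nat_lit 12) (nat_lit 11))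
    (@En.n l33122 (nat_lit 9475) (nat_lit 13) (nat_lit 5))
    (@En.n l42203 (nat_lit 11303) (nat_lit 8) (nat_lit 10))
    (@En.i (nat_lit 6661) (nat_lit 11) (nat_lit 7))
    (@En.n l50 (nat_lit 10077) (nat_lit 15) (nat_lit 4))))

end Pool.Agent.MP_61a8e3_al.G4.K
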