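import Pool.Agent.MP_61a8e3_al.G4.KL0
import Pool.Agent.MP_61a8e3_al.G4.KL1
import Pool.Agent.MP_61a8e3_al.G4.KL2
import Pool.Agent.MP_61a8e3_al.G4.KL3
import Pool.Agent.MP_61a8e3_al.G4.KL4
import Pool.Agent.MP_61a8e3_al.G4.KL5
import Pool.Agent.MP_61a8e3_al.G4.KL6
import Pool.Agent.MP_61a8e3_al.G4.KL7

/-! Part K: classes, part 6. -/

set_option autoImplicit false
set_option maxRecDepth 100000
set_option linter.all false

namespace Pool.Agent.MP_61a8e3_al.G4.K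

noncomputable def a662 : T16 Cl := @T16.mk Cl
  (@Cl.mk (nat_lit 0x300080007000c00060009000c000400090008000400090007000d000a0007) (nat_lit 0x603012051050470) (nat_lit 16) Lb.e (@T16.mk En
    (@En.i (nat_lit 9797) (nat_lit 0) (nat_lit 7))
    (@En.n l24851 (nat_lit 10594) (nat_lit 12) (nat_lit 10))
    (@En.n l33756 (nat_lit 11715) (nat_lit 2) (nat_lit 13))
    (@En.n l22933 (nat_lit 10589) (nat_lit 3) (nat_lit 7))
    (@En.n l38427 (nat_lit 7107) (nat_lit 4) (nat_lit 9))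
    (@En.n l32197 (nat_lit 10080) (nat_lit 5) (nat_lit 4))
    (@En.n l38428 (nat_lit 9549) (nat_lit 6) (nat_lit 8))
    (@En.n l152 (nat_lit 10509) (nat_lit 1) (nat_lit 9))
    (@En.n l38429 (nat_lit 8837) (nat_lit 8) (nat_lit 4))
    (@En.n l9911 (nat_lit 11586) (nat_lit 6) (nat_lit 12))
    (@En.n l38428 (nat_lit 1324) (nat_lit 9) (nat_lit 9))
    (@En.n l22796 (nat_lit 12169) (nat_lit 5) (nat_lit 6))
    (@En.n l10882 (nat_lit 10585) (nat_lit 13) (nat_lit 12))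
    (@En.i (nat_lit 10599) (nat_lit 14) (nat_lit 7))
    (@En.n l3213 (nat_lit 11444) (nat_lit 5) (nat_lit 8))
    (@En.n l9910 (nat_lit 10593) (nat_lit 15) (nat_lit 3))))
  (@Cl.mk (nat_lit 0x300080007000c00050009000c0004000a0008000400090007000d0006000b) (nat_lit 0x604012081050504) (nat_lit 16) Lb.e (@T16.mk En
    (@En.n l22765 (nat_lit 9566) (nat_lit 0) (nat_lit 11))
    (@En.i (nat_lit 9453) (nat_lit 8) (nat_lit 6))
    (@En.n l37071 (nat_lit 11714) (nat_lit 2) (nat_lit 13))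
    (@En.n l15957 (nat_lit 10590) (nat_lit 3) (nat_lit 7))
    (@En.n l36161 (nat_lit 7987) (nat_lit 4) (nat_lit 9))
    (@En.n l37077 (nat_lit 10082) (nat_lit 5) (nat_lit 4))
    (@En.n l1578 (nat_lit 9553) (nat_lit 6) (nat_lit 8))
    (@En.n l2832 (nat_lit 11716) (nat_lit 1) (nat_lit 10))
    (@En.n l43201 (nat_lit 8839) (nat_lit 8) (nat_lit 4))
    (@En.i (nat_lit 11316) (nat_lit 6) (nat_lit 12))
    (@En.n l7507 (nat_lit 1319) (nat_lit 10) (nat_lit 9))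
    (@En.n l22763 (nat_lit 10952) (nat_lit 5) (nat_lit 5))
    (@En.n l37071 (nat_lit 10588) (nat_lit 13) (nat_lit 12))
    (@En.n l2832 (nat_lit 10602) (nat_lit 14) (nat_lit 7))
    (@En.n l575 (nat_lit 10575) (nat_lit 12) (nat_lit 8))
    (@En.n l19239 (nat_lit 10592) (nat_lit 15) (nat_lit 3))))
  (@Cl.mk (nat_lit 0x4000a0007000a0006000b00070006000b000600050009000c0005000a0009) (nat_lit 0x506030030023061) (nat_lit 16) Lb.e (@T16.mk En
    (@En.n l42839 (nat_lit 9545) (nat_lit 7) (nat_lit 9))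
    (@En.n l42840 (nat_lit 11865) (nat_lit 1) (nat_lit 10))
    (@En.n l42841 (nat_lit 8838) (nat_lit 15) (nat_lit 5))
    (@En.i (nat_lit 11584) (nat_lit 6) (nat_lit 12))
    (@En.n l42842 (nat_lit 10592) (nat_lit 10) (nat_lit 9))
    (@En.n l35808 (nat_lit 10593) (nat_lit 11) (nat_lit 5))
    (@En.n l35809 (nat_lit 12173) (nat_lit 6) (nat_lit 6))
    (@En.n l2604 (nat_lit 10580) (nat_lit 1) (nat_lit 11))
    (@En.n l42843 (nat_lit 10595) (nat_lit 10) (nat_lit 6))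
    (@En.n l42844 (nat_lit 11446) (nat_lit 6) (nat_lit 7))
    (@En.n l30854 (nat_lit 9464) (nat_lit 9) (nat_lit 11))
    (@En.n l31098 (nat_lit 8795) (nat_lit 5) (nat_lit 6))
    (@En.n l2604 (nat_lit 9808) (nat_lit 8) (nat_lit 10))
    (@En.n l38422 (nat_lit 10591) (nat_lit 14) (nat_lit 7))
    (@En.n l42845 (nat_lit 7988) (nat_lit 11) (nat_lit 10))
    (@En.n l42846 (nat_lit 10078) (nat_lit 15) (nat_lit 4))))
  (@Cl.mk (nat_lit 0x30008000b0007000c0006000b000500040008000c00050009000d0004000a) (nat_lit 0x560307002a07303) (nat_lit 16) Lb.e (@T16.mk En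
    (@En.n l25962 (nat_lit 11031) (nat_lit 0) (nat_lit 10))
    (@En.n l35208 (nat_lit 10597) (nat_lit 9) (nat_lit 4))
    (@En.n l39767 (nat_lit 4240) (nat_lit 0) (nat_lit 13))
    (@En.n l43658 (nat_lit 10321) (nat_lit 10) (nat_lit 9))
    (@En.n l117 (nat_lit 10023) (nat_lit 4) (nat_lit 5))
    (@En.n l1330 (nat_lit 10472) (nat_lit 7) (nat_lit 12))
    (@En.n l50 (nat_lit 10599) (nat_lit 11) (nat_lit 8))
    (@En.n l1330 (nat_lit 10602) (nat_lit 12) (nat_lit 4))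
    (@En.n l38559 (nat_lit 10607) (nat_lit 8) (nat_lit 5))
    (@En.n l39767 (nat_lit 7614) (nat_lit 1) (nat_lit 11))
    (@En.i (nat_lit 11109) (nat_lit 1) (nat_lit 6))
    (@En.n l38557 (nat_lit 7302) (nat_lit 12) (nat_lit 12))
    (@En.n l39994 (nat_lit 9803) (nat_lit 13) (nat_lit 7))
    (@En.n l43659 (nat_lit 9779) (nat_lit 7) (nat_lit 11))
    (@En.n l43660 (nat_lit 8117) (nat_lit 12) (nat_lit 8))
    (@En.n l24851 (nat_lit 10596) (nat_lit 15) (nat_lit 3))))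
  (@Cl.mk (nat_lit 0x30008000b0007000c0007000b000500040008000b00050009000d00090005) (nat_lit 0x560202003406220) (nat_lit 16) Lb.e (@T16.mk En
    (@En.n l10995 (nat_lit 7792) (nat_lit 0) (nat_lit 5))
    (@En.i (nat_lit 10594) (nat_lit 0) (nat_lit 9))
    (@En.i (nat_lit 4239) (nat_lit 6) (nat_lit 13))
    (@En.n l19493 (nat_lit 10320) (nat_lit 10) (nat_lit 9))
    (@En.n l3348 (nat_lit 10022) (nat_lit 4) (nat_lit 5))
    (@En.i (nat_lit 7807) (nat_lit 7) (nat_lit 11))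
    (@En.n l612 (nat_lit 10598) (nat_lit 11) (nat_lit 8))
    (@En.n l50 (nat_lit 10601) (nat_lit 12) (nat_lit 4))
    (@En.n l38420 (nat_lit 55) (nat_lit 0) (nat_lit 5))
    (@En.i (nat_lit 7617) (nat_lit 8) (nat_lit 11))
    (@En.n l26157 (nat_lit 11611) (nat_lit 1) (nat_lit 7))
    (@En.n l3348 (nat_lit 7299) (nat_lit 12) (nat_lit 12))
    (@En.n l38421 (nat_lit 9804) (nat_lit 13) (nat_lit 7))
    (@En.n l2790 (nat_lit 9777) (nat_lit 7) (nat_lit 11))
    (@En.n l38422 (nat_lit 10597) (nat_lit 6) (nat_lit 8))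
    (@En.n l38423 (nat_lit 10595) (nat_lit 15) (nat_lit 3))))
  (@Cl.mk (nat_lit 0x40008000c000b0006000a0004000a00050008000b0006000c0006000a0005) (nat_lit 0x375070804702020) (nat_lit 16) Lb.e (@T16.mk En
    (@En.n l31244 (nat_lit 10605) (nat_lit 0) (nat_lit 5))
    (@En.n l41031 (nat_lit 7623) (nat_lit 9) (nat_lit 10))
    (@En.n l28098 (nat_lit 11613) (nat_lit 1) (nat_lit 6))
    (@En.n l41032 (nat_lit 7300) (nat_lit 2) (nat_lit 12))
    (@En.n l28099 (nat_lit 9805) (nat_lit 4) (nat_lit 6))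
    (@En.n l41033 (nat_lit 9781) (nat_lit 7) (nat_lit 11))
    (@En.n l5592 (nat_lit 8124) (nat_lit 10) (nat_lit 8))
    (@En.n l14035 (nat_lit 5692) (nat_lit 7) (nat_lit 5))
    (@En.i (nat_lit 10591) (nat_lit 0) (nat_lit 10))
    (@En.n l39288 (nat_lit 10024) (nat_lit 1) (nat_lit 4))
    (@En.i (nat_lit 10318) (nat_lit 9) (nat_lit 10))
    (@En.n l41032 (nat_lit 10727) (nat_lit 1) (nat_lit 6))
    (@En.n l41034 (nat_lit 10596) (nat_lit 5) (nat_lit 11))
    (@En.n l15753 (nat_lit 10478) (nat_lit 7) (nat_lit 12))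
    (@En.n l41035 (nat_lit 10600) (nat_lit 11) (nat_lit 8))
    (@En.n l41036 (nat_lit 10603) (nat_lit 12) (nat_lit 4))))
  (@Cl.mk (nat_lit 0x30008000c00050008000b00040008000d0008000500030008000d000b0008) (nat_lit 0x610230622005572) (nat_lit 16) Lb.e (@T16.mk En
    (@En.n l10065 (nat_lit 9799) (nat_lit 0) (nat_lit 8))
    (@En.n l644 (nat_lit 10596) (nat_lit 13) (nat_lit 11))
    (@En.n l13544 (nat_lit 10847) (nat_lit 2) (nat_lit 13))
    (@En.n l22792 (nat_lit 10600) (nat_lit 3) (nat_lit 8))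
    (@En.n l22793 (nat_lit 10599) (nat_lit 4) (nat_lit 3))
    (@En.n l13786 (nat_lit 7793) (nat_lit 0) (nat_lit 5))
    (@En.n l22794 (nat_lit 10592) (nat_lit 6) (nat_lit 8))
    (@En.i (nat_lit 4241) (nat_lit 8) (nat_lit 13))
    (@En.n l388 (nat_lit 12475) (nat_lit 11) (nat_lit 8))
    (@En.n l22795 (nat_lit 10563) (nat_lit 4) (nat_lit 4))
    (@En.i (nat_lit 10878) (nat_lit 7) (nat_lit 11))
    (@En.n l13786 (nat_lit 5428) (nat_lit 10) (nat_lit 8))
    (@En.n l17894 (nat_lit 10605) (nat_lit 7) (nat_lit 5))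
    (@En.i (nat_lit 7616) (nat_lit 7) (nat_lit 12))
    (@En.n l22794 (nat_lit 11612) (nat_lit 1) (nat_lit 8))
    (@En.n l7 (nat_lit 10601) (nat_lit 15) (nat_lit 3))))
  (@Cl.mk (nat_lit 0x30007000c00050008000c00040008000d0004000900030008000d000b0008) (nat_lit 0x801a0630305571) (nat_lit 16) Lb.e (@T16.mk En
    (@En.i (nat_lit 9800) (nat_lit 0) (nat_lit 8))
    (@En.i (nat_lit 10595) (nat_lit 13) (nat_lit 11))
    (@En.n l33756 (nat_lit 10846) (nat_lit 2) (nat_lit 13))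
    (@En.n l253 (nat_lit 8118) (nat_lit 3) (nat_lit 8))
    (@En.n l9911 (nat_lit 10598) (nat_lit 4) (nat_lit 3))
    (@En.n l10089 (nat_lit 11030) (nat_lit 0) (nat_lit 9))
    (@En.i (nat_lit 10600) (nat_lit 6) (nat_lit 4))
    (@En.n l2125 (nat_lit 4242) (nat_lit 0) (nat_lit 13))
    (@En.n l152 (nat_lit 12473) (nat_lit 11) (nat_lit 8))
    (@En.n l117 (nat_lit 10028) (nat_lit 9) (nat_lit 4))
    (@En.n l1329 (nat_lit 10885) (nat_lit 0) (nat_lit 12))
    (@En.n l253 (nat_lit 3985) (nat_lit 10) (nat_lit 8))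
    (@En.n l22796 (nat_lit 10606) (nat_lit 7) (nat_lit 5))
    (@En.n l33756 (nat_lit 7613) (nat_lit 9) (nat_lit 12))
    (@En.i (nat_lit 11107) (nat_lit 12) (nat_lit 7))
    (@En.n l2843 (nat_lit 10602) (nat_lit 15) (nat_lit 3))))
  (@Cl.mk (nat_lit 0x30007000b00050008000c000b000500090004000900050008000d000b0007) (nat_lit 0x20284060704a80) (nat_lit 16) Lb.e (@T16.mk En
    (@En.i (nat_lit 9798) (nat_lit 0) (nat_lit 7))
    (@En.n l35208 (nat_lit 10597) (nat_lit 5) (nat_lit 11))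
    (@En.n l33756 (nat_lit 10154) (nat_lit 2) (nat_lit 13))
    (@En.n l10354 (nat_lit 8123) (nat_lit 10) (nat_lit 8))
    (@En.n l23547 (nat_lit 5690) (nat_lit 4) (nat_lit 5))
    (@En.n l14270 (nat_lit 10589) (nat_lit 5) (nat_lit 9))
    (@En.n l3535 (nat_lit 10027) (nat_lit 6) (nat_lit 4))
    (@En.n l25152 (nat_lit 12474) (nat_lit 10) (nat_lit 9))
    (@En.n l936 (nat_lit 10728) (nat_lit 8) (nat_lit 5))
    (@En.n l38424 (nat_lit 10598) (nat_lit 10) (nat_lit 11))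
    (@En.n l1329 (nat_lit 10700) (nat_lit 11) (nat_lit 12))
    (@En.n l4750 (nat_lit 5430) (nat_lit 10) (nat_lit 8))
    (@En.n l38425 (nat_lit 56) (nat_lit 5) (nat_lit 5))
    (@En.n l38426 (nat_lit 7622) (nat_lit 8) (nat_lit 11))
    (@En.i (nat_lit 11614) (nat_lit 12) (nat_lit 7))
    (@En.n l35010 (nat_lit 10603) (nat_lit 15) (nat_lit 3))))
  (@Cl.mk (nat_lit 0x30008000c00040008000b00040009000d0008000500030008000d0007000c) (nat_lit 0x530330522005605) (nat_lit 16) Lb.e (@T16.mk En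
    (@En.n l3348 (nat_lit 10608) (nat_lit 0) (nat_lit 12))
    (@En.i (nat_lit 9954) (nat_lit 13) (nat_lit 7))
    (@En.n l2605 (nat_lit 10848) (nat_lit 2) (nat_lit 13))
    (@En.i (nat_lit 10603) (nat_lit 3) (nat_lit 8))
    (@En.n l16304 (nat_lit 10602) (nat_lit 4) (nat_lit 3))
    (@En.n l3480 (nat_lit 7791) (nat_lit 0) (nat_lit 5))
    (@En.n l16307 (nat_lit 10593) (nat_lit 6) (nat_lit 8))
    (@En.i (nat_lit 4243) (nat_lit 8) (nat_lit 13))
    (@En.n l9182 (nat_lit 12462) (nat_lit 3) (nat_lit 9))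
    (@En.i (nat_lit 10562) (nat_lit 4) (nat_lit 4))
    (@En.i (nat_lit 10876) (nat_lit 7) (nat_lit 11))
    (@En.n l1329 (nat_lit 3984) (nat_lit 11) (nat_lit 8))
    (@En.n l13633 (nat_lit 10029) (nat_lit 7) (nat_lit 4))
    (@En.i (nat_lit 7618) (nat_lit 7) (nat_lit 12))
    (@En.n l7507 (nat_lit 10561) (nat_lit 1) (nat_lit 8))
    (@En.i (nat_lit 10598) (nat_lit 15) (nat_lit 3))))
  (@Cl.mk (nat_lit 0x30007000c00040008000c00040009000d0004000900030008000d0007000c) (nat_lit 0x303a0530305602) (nat_lit 16) Lb.e (@T16.mk En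
    (@En.n l10858 (nat_lit 10610) (nat_lit 0) (nat_lit 12))
    (@En.n l4256 (nat_lit 9953) (nat_lit 13) (nat_lit 7))
    (@En.n l34118 (nat_lit 10620) (nat_lit 2) (nat_lit 13))
    (@En.n l6042 (nat_lit 8119) (nat_lit 3) (nat_lit 8))
    (@En.n l17134 (nat_lit 10601) (nat_lit 4) (nat_lit 3))
    (@En.n l10971 (nat_lit 11007) (nat_lit 0) (nat_lit 9))
    (@En.n l11408 (nat_lit 10603) (nat_lit 6) (nat_lit 4))
    (@En.n l34120 (nat_lit 4244) (nat_lit 0) (nat_lit 13))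
    (@En.i (nat_lit 12463) (nat_lit 3) (nat_lit 9))
    (@En.i (nat_lit 10032) (nat_lit 9) (nat_lit 4))
    (@En.i (nat_lit 10883) (nat_lit 11) (nat_lit 12))
    (@En.n l11244 (nat_lit 3981) (nat_lit 11) (nat_lit 8))
    (@En.n l6961 (nat_lit 10604) (nat_lit 7) (nat_lit 4))
    (@En.n l34120 (nat_lit 7615) (nat_lit 0) (nat_lit 12))
    (@En.n l31653 (nat_lit 10602) (nat_lit 1) (nat_lit 7))
    (@En.n l5368 (nat_lit 10599) (nat_lit 15) (nat_lit 3))))
  (@Cl.mk (nat_lit 0x30007000b00040008000c000b0005000a0004000900050008000d0006000c) (nat_lit 0x30284060704404) (nat_lit 16) Lb.e (@T16.mk En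
    (@En.n l35080 (nat_lit 10609) (nat_lit 0) (nat_lit 12))
    (@En.i (nat_lit 9956) (nat_lit 4) (nat_lit 6))
    (@En.n l2611 (nat_lit 10153) (nat_lit 2) (nat_lit 13))
    (@En.n l35081 (nat_lit 8126) (nat_lit 10) (nat_lit 8))
    (@En.n l35082 (nat_lit 5691) (nat_lit 4) (nat_lit 5))
    (@En.n l35083 (nat_lit 10590) (nat_lit 5) (nat_lit 9))
    (@En.i (nat_lit 10561) (nat_lit 6) (nat_lit 4))
    (@En.n l35084 (nat_lit 12461) (nat_lit 0) (nat_lit 10))
    (@En.n l35085 (nat_lit 10729) (nat_lit 8) (nat_lit 5))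
    (@En.n l11 (nat_lit 10601) (nat_lit 10) (nat_lit 11))
    (@En.n l35086 (nat_lit 10699) (nat_lit 11) (nat_lit 12))
    (@En.n l35087 (nat_lit 5429) (nat_lit 11) (nat_lit 8))
    (@En.n l35088 (nat_lit 10026) (nat_lit 13) (nat_lit 4))
    (@En.i (nat_lit 7624) (nat_lit 8) (nat_lit 11))
    (@En.n l35089 (nat_lit 10032) (nat_lit 1) (nat_lit 7))
    (@En.n l22792 (nat_lit 10600) (nat_lit 15) (nat_lit 3))))
  (@Cl.mk (nat_lit 0x30008000c0007000c000a0004000800040008000c00060009000d00040008) (nat_lit 0x470560202a04302) (nat_lit 16) Lb.e (@T16.mk En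
    (@En.n l1081 (nat_lit 11003) (nat_lit 0) (nat_lit 8))
    (@En.n l3633 (nat_lit 10026) (nat_lit 7) (nat_lit 4))
    (@En.n l42601 (nat_lit 10446) (nat_lit 0) (nat_lit 13))
    (@En.n l1003 (nat_lit 12466) (nat_lit 9) (nat_lit 9))
    (@En.n l117 (nat_lit 10031) (nat_lit 4) (nat_lit 6))
    (@En.n l20423 (nat_lit 10887) (nat_lit 7) (nat_lit 12))
    (@En.n l699 (nat_lit 4249) (nat_lit 6) (nat_lit 8))
    (@En.n l1738 (nat_lit 10595) (nat_lit 7) (nat_lit 4))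
    (@En.n l2642 (nat_lit 10599) (nat_lit 0) (nat_lit 8))
    (@En.n l20421 (nat_lit 75) (nat_lit 1) (nat_lit 4))
    (@En.n l36414 (nat_lit 10033) (nat_lit 0) (nat_lit 10))
    (@En.n l20423 (nat_lit 9555) (nat_lit 1) (nat_lit 12))
    (@En.n l1003 (nat_lit 10394) (nat_lit 13) (nat_lit 7))
    (@En.n l4244 (nat_lit 10621) (nat_lit 14) (nat_lit 12))
    (@En.n l15347 (nat_lit 7394) (nat_lit 12) (nat_lit 8))
    (@En.n l3496 (nat_lit 10029) (nat_lit 15) (nat_lit 3))))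
  (@Cl.mk (nat_lit 0x30008000c000b000900090004000900050008000b00070007000d00070005) (nat_lit 0x191650606900200) (nat_lit 16) Lb.e (@T16.mk En
    (@En.n l13597 (nat_lit 7564) (nat_lit 0) (nat_lit 5))
    (@En.n l20537 (nat_lit 12169) (nat_lit 0) (nat_lit 7))
    (@En.n l15124 (nat_lit 10442) (nat_lit 2) (nat_lit 13))
    (@En.n l16431 (nat_lit 12077) (nat_lit 9) (nat_lit 7))
    (@En.n l20538 (nat_lit 10724) (nat_lit 4) (nat_lit 7))
    (@En.n l13597 (nat_lit 5616) (nat_lit 7) (nat_lit 11))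
    (@En.n l20539 (nat_lit 2553) (nat_lit 10) (nat_lit 8))
    (@En.n l13591 (nat_lit 7561) (nat_lit 7) (nat_lit 5))
    (@En.n l3872 (nat_lit 12175) (nat_lit 0) (nat_lit 9))
    (@En.n l20540 (nat_lit 10029) (nat_lit 9) (nat_lit 4))
    (@En.n l565 (nat_lit 12479) (nat_lit 7) (nat_lit 9))
    (@En.n l5403 (nat_lit 10731) (nat_lit 1) (nat_lit 9))
    (@En.n l20541 (nat_lit 55) (nat_lit 5) (nat_lit 11))
    (@En.n l20542 (nat_lit 12065) (nat_lit 7) (nat_lit 12))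
    (@En.n l20543 (nat_lit 56) (nat_lit 4) (nat_lit 8))
    (@En.n l20544 (nat_lit 10606) (nat_lit 15) (nat_lit 3))))
  (@Cl.mk (nat_lit 0x30008000c000b000900090004000800050008000c00070007000d00040008) (nat_lit 0x196470002a00301) (nat_lit 16) Lb.e (@T16.mk En
    (@En.n l24687 (nat_lit 10110) (nat_lit 0) (nat_lit 8))
    (@En.i (nat_lit 56) (nat_lit 7) (nat_lit 4))
    (@En.n l9931 (nat_lit 10441) (nat_lit 0) (nat_lit 13))
    (@En.n l8649 (nat_lit 12482) (nat_lit 9) (nat_lit 7))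
    (@En.n l3851 (nat_lit 10723) (nat_lit 4) (nat_lit 7))
    (@En.n l9463 (nat_lit 11924) (nat_lit 7) (nat_lit 12))
    (@En.n l50 (nat_lit 2781) (nat_lit 10) (nat_lit 8))
    (@En.i (nat_lit 7558) (nat_lit 7) (nat_lit 5))
    (@En.i (nat_lit 11967) (nat_lit 11) (nat_lit 8))
    (@En.n l5 (nat_lit 10604) (nat_lit 9) (nat_lit 4))
    (@En.n l8652 (nat_lit 12481) (nat_lit 7) (nat_lit 9))
    (@En.n l36578 (nat_lit 10732) (nat_lit 1) (nat_lit 9))
    (@En.n l36579 (nat_lit 10607) (nat_lit 13) (nat_lit 11))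
    (@En.n l36580 (nat_lit 12064) (nat_lit 7) (nat_lit 12))
    (@En.n l5788 (nat_lit 2799) (nat_lit 12) (nat_lit 8))
    (@En.n l36581 (nat_lit 10605) (nat_lit 15) (nat_lit 3))))
  (@Cl.mk (nat_lit 0x30008000b00080008000d0007000500030008000c00080008000d00040009) (nat_lit 0x253220003a52306) (nat_lit 16) Lb.e (@T16.mk En
    (@En.n l36488 (nat_lit 10114) (nat_lit 0) (nat_lit 9))
    (@En.n l36489 (nat_lit 10605) (nat_lit 9) (nat_lit 4))
    (@En.n l11426 (nat_lit 10443) (nat_lit 0) (nat_lit 13))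
    (@En.n l36490 (nat_lit 12075) (nat_lit 8) (nat_lit 8))
    (@En.n l7405 (nat_lit 10725) (nat_lit 4) (nat_lit 8))
    (@En.n l3187 (nat_lit 11021) (nat_lit 7) (nat_lit 12))
    (@En.n l36491 (nat_lit 10606) (nat_lit 6) (nat_lit 8))
    (@En.n l36492 (nat_lit 75) (nat_lit 7) (nat_lit 3))
    (@En.n l28 (nat_lit 7559) (nat_lit 0) (nat_lit 5))
    (@En.n l36493 (nat_lit 11968) (nat_lit 0) (nat_lit 7))
    (@En.n l3187 (nat_lit 10445) (nat_lit 11) (nat_lit 13))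
    (@En.n l61 (nat_lit 12076) (nat_lit 8) (nat_lit 8))
    (@En.n l18384 (nat_lit 10729) (nat_lit 4) (nat_lit 8))
    (@En.i (nat_lit 5614) (nat_lit 7) (nat_lit 11))
    (@En.n l2116 (nat_lit 2798) (nat_lit 6) (nat_lit 8))
    (@En.n l36494 (nat_lit 55) (nat_lit 7) (nat_lit 3))))
noncomputable def a663 : T16 Cl := @T16.mk Cl
  (@Cl.mk (nat_lit 0x20007000b0004000c0008000b00050004000d0009000500030008000e000c) (nat_lit 0x30645001600454) (nat_lit 16) Lb.e (@T16.mk En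
    (@En.n l68 (nat_lit 7299) (nat_lit 13) (nat_lit 12))
    (@En.n l17251 (nat_lit 11888) (nat_lit 1) (nat_lit 14))
    (@En.n l17252 (nat_lit 10609) (nat_lit 2) (nat_lit 8))
    (@En.n l17253 (nat_lit 10610) (nat_lit 3) (nat_lit 3))
    (@En.n l9994 (nat_lit 3196) (nat_lit 0) (nat_lit 5))
    (@En.n l17254 (nat_lit 9566) (nat_lit 5) (nat_lit 9))
    (@En.n l3082 (nat_lit 4549) (nat_lit 7) (nat_lit 13))
    (@En.n l17254 (nat_lit 8610) (nat_lit 7) (nat_lit 4))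
    (@En.i (nat_lit 10016) (nat_lit 8) (nat_lit 5))
    (@En.n l8210 (nat_lit 7779) (nat_lit 10) (nat_lit 11))
    (@En.n l1448 (nat_lit 7355) (nat_lit 11) (nat_lit 8))
    (@En.n l9994 (nat_lit 11226) (nat_lit 12) (nat_lit 12))
    (@En.i (nat_lit 9557) (nat_lit 13) (nat_lit 4))
    (@En.i (nat_lit 7217) (nat_lit 14) (nat_lit 11))
    (@En.n l17254 (nat_lit 10615) (nat_lit 1) (nat_lit 7))
    (@En.n l67 (nat_lit 10608) (nat_lit 15) (nat_lit 2))))
  (@Cl.mk (nat_lit 0x20006000a0004000b0008000c000b000600050004000a00050008000e000c) (nat_lit 0x30642600070343) (nat_lit 16) Lb.e (@T16.mk En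
    (@En.n l9847 (nat_lit 7300) (nat_lit 3) (nat_lit 12))
    (@En.n l18363 (nat_lit 11042) (nat_lit 1) (nat_lit 14))
    (@En.n l20261 (nat_lit 8708) (nat_lit 2) (nat_lit 8))
    (@En.n l11728 (nat_lit 3197) (nat_lit 3) (nat_lit 5))
    (@En.n l10569 (nat_lit 9565) (nat_lit 4) (nat_lit 10))
    (@En.n l7 (nat_lit 10611) (nat_lit 5) (nat_lit 4))
    (@En.i (nat_lit 8531) (nat_lit 6) (nat_lit 5))
    (@En.n l18365 (nat_lit 8134) (nat_lit 7) (nat_lit 6))
    (@En.n l7487 (nat_lit 10608) (nat_lit 9) (nat_lit 11))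
    (@En.n l617 (nat_lit 8666) (nat_lit 10) (nat_lit 12))
    (@En.n l8558 (nat_lit 7353) (nat_lit 11) (nat_lit 8))
    (@En.n l5423 (nat_lit 11225) (nat_lit 12) (nat_lit 11))
    (@En.n l6680 (nat_lit 10440) (nat_lit 13) (nat_lit 4))
    (@En.n l8558 (nat_lit 7218) (nat_lit 14) (nat_lit 10))
    (@En.i (nat_lit 10616) (nat_lit 1) (nat_lit 6))
    (@En.n l3 (nat_lit 10609) (nat_lit 15) (nat_lit 2))))
  (@Cl.mk (nat_lit 0x20006000b0004000c0008000c00050004000d0004000a00030008000e000c) (nat_lit 0x20922001070451) (nat_lit 16) Lb.e (@T16.mk En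
    (@En.n l18283 (nat_lit 7302) (nat_lit 13) (nat_lit 12))
    (@En.n l2427 (nat_lit 11889) (nat_lit 1) (nat_lit 14))
    (@En.n l387 (nat_lit 8705) (nat_lit 2) (nat_lit 8))
    (@En.n l6905 (nat_lit 10608) (nat_lit 3) (nat_lit 3))
    (@En.n l3713 (nat_lit 12760) (nat_lit 4) (nat_lit 10))
    (@En.i (nat_lit 10609) (nat_lit 5) (nat_lit 4))
    (@En.n l1776 (nat_lit 4531) (nat_lit 7) (nat_lit 13))
    (@En.i (nat_lit 8611) (nat_lit 7) (nat_lit 4))
    (@En.i (nat_lit 10011) (nat_lit 8) (nat_lit 5))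
    (@En.n l6904 (nat_lit 8593) (nat_lit 10) (nat_lit 12))
    (@En.n l1316 (nat_lit 7357) (nat_lit 11) (nat_lit 8))
    (@En.n l11 (nat_lit 11229) (nat_lit 12) (nat_lit 12))
    (@En.n l6909 (nat_lit 9555) (nat_lit 13) (nat_lit 4))
    (@En.n l11802 (nat_lit 7219) (nat_lit 14) (nat_lit 11))
    (@En.i (nat_lit 10620) (nat_lit 1) (nat_lit 6))
    (@En.n l3 (nat_lit 10610) (nat_lit 15) (nat_lit 2))))
  (@Cl.mk (nat_lit 0x2000600090004000d0008000c0003000c00070004000a00040008000e000c) (nat_lit 0x307280400705c4) (nat_lit 16) Lb.e (@T16.mk En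
    (@En.n l9847 (nat_lit 10006) (nat_lit 8) (nat_lit 12))
    (@En.n l18363 (nat_lit 8568) (nat_lit 1) (nat_lit 14))
    (@En.n l18364 (nat_lit 8156) (nat_lit 2) (nat_lit 8))
    (@En.n l4217 (nat_lit 2752) (nat_lit 3) (nat_lit 4))
    (@En.n l754 (nat_lit 10011) (nat_lit 4) (nat_lit 10))
    (@En.i (nat_lit 10610) (nat_lit 5) (nat_lit 4))
    (@En.n l18365 (nat_lit 8135) (nat_lit 6) (nat_lit 7))
    (@En.n l11849 (nat_lit 4552) (nat_lit 8) (nat_lit 12))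
    (@En.i (nat_lit 10612) (nat_lit 8) (nat_lit 3))
    (@En.n l6904 (nat_lit 8671) (nat_lit 10) (nat_lit 12))
    (@En.n l5498 (nat_lit 10613) (nat_lit 11) (nat_lit 8))
    (@En.n l18366 (nat_lit 11246) (nat_lit 12) (nat_lit 13))
    (@En.n l18367 (nat_lit 10452) (nat_lit 13) (nat_lit 4))
    (@En.n l18366 (nat_lit 7698) (nat_lit 9) (nat_lit 9))
    (@En.i (nat_lit 10619) (nat_lit 5) (nat_lit 6))
    (@En.n l3 (nat_lit 10611) (nat_lit 15) (nat_lit 2))))
  (@Cl.mk (nat_lit 0x2000600090004000d000b00090003000c00070005000a00040007000e000c) (nat_lit 0x306720200800c1) (nat_lit 16) Lb.e (@T16.mk En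
    (@En.n l9847 (nat_lit 6868) (nat_lit 8) (nat_lit 12))
    (@En.n l4406 (nat_lit 8567) (nat_lit 1) (nat_lit 14))
    (@En.n l4407 (nat_lit 8193) (nat_lit 2) (nat_lit 7))
    (@En.n l9848 (nat_lit 1335) (nat_lit 3) (nat_lit 4))
    (@En.n l754 (nat_lit 10015) (nat_lit 4) (nat_lit 10))
    (@En.i (nat_lit 7356) (nat_lit 5) (nat_lit 5))
    (@En.n l9849 (nat_lit 8132) (nat_lit 6) (nat_lit 7))
    (@En.n l4408 (nat_lit 10613) (nat_lit 8) (nat_lit 12))
    (@En.n l28 (nat_lit 10611) (nat_lit 8) (nat_lit 3))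
    (@En.n l2399 (nat_lit 6782) (nat_lit 10) (nat_lit 9))
    (@En.n l77 (nat_lit 10609) (nat_lit 11) (nat_lit 11))
    (@En.n l9850 (nat_lit 11240) (nat_lit 12) (nat_lit 13))
    (@En.n l1246 (nat_lit 10453) (nat_lit 13) (nat_lit 4))
    (@En.n l9478 (nat_lit 7697) (nat_lit 9) (nat_lit 9))
    (@En.i (nat_lit 10618) (nat_lit 5) (nat_lit 6))
    (@En.n l3 (nat_lit 10612) (nat_lit 15) (nat_lit 2))))
  (@Cl.mk (nat_lit 0x20007000a00040008000c0009000c000600040009000400080007000e000c) (nat_lit 0x301721007050c1) (nat_lit 16) Lb.e (@T16.mk En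
    (@En.n l22611 (nat_lit 6869) (nat_lit 3) (nat_lit 12))
    (@En.n l22612 (nat_lit 4652) (nat_lit 1) (nat_lit 14))
    (@En.n l11840 (nat_lit 10612) (nat_lit 2) (nat_lit 7))
    (@En.n l22613 (nat_lit 7672) (nat_lit 3) (nat_lit 8))
    (@En.n l3348 (nat_lit 3484) (nat_lit 4) (nat_lit 4))
    (@En.n l612 (nat_lit 10614) (nat_lit 5) (nat_lit 9))
    (@En.n l50 (nat_lit 7357) (nat_lit 6) (nat_lit 4))
    (@En.n l17393 (nat_lit 8142) (nat_lit 7) (nat_lit 6))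
    (@En.i (nat_lit 3447) (nat_lit 9) (nat_lit 12))
    (@En.n l13631 (nat_lit 2543) (nat_lit 10) (nat_lit 9))
    (@En.n l5556 (nat_lit 10608) (nat_lit 11) (nat_lit 12))
    (@En.n l3348 (nat_lit 5628) (nat_lit 12) (nat_lit 8))
    (@En.n l22614 (nat_lit 10622) (nat_lit 13) (nat_lit 4))
    (@En.n l2039 (nat_lit 7696) (nat_lit 8) (nat_lit 10))
    (@En.i (nat_lit 10617) (nat_lit 1) (nat_lit 7))
    (@En.n l11 (nat_lit 10613) (nat_lit 15) (nat_lit 2))))
  (@Cl.mk (nat_lit 0x20007000c000a000500090004000a000d00060009000300070006000e000b) (nat_lit 0x440102306000b4) (nat_lit 16) Lb.e (@T16.mk En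
    (@En.n l17892 (nat_lit 10012) (nat_lit 12) (nat_lit 11))
    (@En.i (nat_lit 4651) (nat_lit 1) (nat_lit 14))
    (@En.n l15957 (nat_lit 10015) (nat_lit 2) (nat_lit 6))
    (@En.n l17893 (nat_lit 7673) (nat_lit 3) (nat_lit 7))
    (@En.n l2199 (nat_lit 10019) (nat_lit 4) (nat_lit 3))
    (@En.n l17893 (nat_lit 12566) (nat_lit 0) (nat_lit 9))
    (@En.n l17894 (nat_lit 9343) (nat_lit 6) (nat_lit 6))
    (@En.i (nat_lit 3451) (nat_lit 8) (nat_lit 13))
    (@En.n l17892 (nat_lit 2540) (nat_lit 9) (nat_lit 10))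
    (@En.n l7 (nat_lit 9881) (nat_lit 9) (nat_lit 4))
    (@En.n l1501 (nat_lit 5631) (nat_lit 11) (nat_lit 9))
    (@En.n l2584 (nat_lit 10898) (nat_lit 6) (nat_lit 5))
    (@En.n l644 (nat_lit 10613) (nat_lit 13) (nat_lit 10))
    (@En.n l617 (nat_lit 8853) (nat_lit 14) (nat_lit 12))
    (@En.i (nat_lit 11942) (nat_lit 2) (nat_lit 7))
    (@En.n l11 (nat_lit 10614) (nat_lit 15) (nat_lit 2))))
  (@Cl.mk (nat_lit 0x3000c0007000a00050004000c0009000c0006000400090004000d0007000b) (nat_lit 0x403002660020701) (nat_lit 16) Lb.e (@T16.mk En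
    (@En.n l32875 (nat_lit 8568) (nat_lit 0) (nat_lit 11))
    (@En.i (nat_lit 10833) (nat_lit 14) (nat_lit 7))
    (@En.n l32876 (nat_lit 10403) (nat_lit 2) (nat_lit 13))
    (@En.n l17393 (nat_lit 10925) (nat_lit 3) (nat_lit 4))
    (@En.n l612 (nat_lit 10616) (nat_lit 4) (nat_lit 9))
    (@En.n l50 (nat_lit 10620) (nat_lit 5) (nat_lit 4))
    (@En.n l32875 (nat_lit 6852) (nat_lit 0) (nat_lit 6))
    (@En.i (nat_lit 4571) (nat_lit 6) (nat_lit 12))
    (@En.n l18372 (nat_lit 11783) (nat_lit 14) (nat_lit 9))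
    (@En.n l1776 (nat_lit 11399) (nat_lit 10) (nat_lit 12))
    (@En.i (nat_lit 10816) (nat_lit 12) (nat_lit 4))
    (@En.n l12571 (nat_lit 4317) (nat_lit 0) (nat_lit 5))
    (@En.n l6904 (nat_lit 8910) (nat_lit 8) (nat_lit 10))
    (@En.n l4133 (nat_lit 10568) (nat_lit 14) (nat_lit 7))
    (@En.n l32877 (nat_lit 6869) (nat_lit 2) (nat_lit 12))
    (@En.n l32878 (nat_lit 10917) (nat_lit 15) (nat_lit 3))))
  (@Cl.mk (nat_lit 0x3000b0007000c000a000600050004000a000d000600090003000d0006000a) (nat_lit 0x402400086010601) (nat_lit 16) Lb.e (@T16.mk En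
    (@En.n l21738 (nat_lit 8574) (nat_lit 0) (nat_lit 10))
    (@En.n l20276 (nat_lit 10834) (nat_lit 14) (nat_lit 6))
    (@En.n l34170 (nat_lit 10401) (nat_lit 2) (nat_lit 13))
    (@En.n l7020 (nat_lit 10919) (nat_lit 3) (nat_lit 3))
    (@En.n l386 (nat_lit 5584) (nat_lit 9) (nat_lit 9))
    (@En.n l18910 (nat_lit 6853) (nat_lit 5) (nat_lit 6))
    (@En.i (nat_lit 4583) (nat_lit 5) (nat_lit 13))
    (@En.n l10569 (nat_lit 11868) (nat_lit 3) (nat_lit 10))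
    (@En.n l7 (nat_lit 10619) (nat_lit 12) (nat_lit 4))
    (@En.i (nat_lit 10818) (nat_lit 11) (nat_lit 5))
    (@En.n l22622 (nat_lit 10387) (nat_lit 1) (nat_lit 6))
    (@En.n l644 (nat_lit 10615) (nat_lit 12) (nat_lit 10))
    (@En.n l617 (nat_lit 8735) (nat_lit 13) (nat_lit 12))
    (@En.n l386 (nat_lit 10567) (nat_lit 14) (nat_lit 7))
    (@En.n l36115 (nat_lit 10012) (nat_lit 11) (nat_lit 11))
    (@En.n l36116 (nat_lit 10916) (nat_lit 15) (nat_lit 3))))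
  (@Cl.mk (nat_lit 0x30007000c0008000b000600040009000c0005000900080004000d0007000a) (nat_lit 0x51300630320601) (nat_lit 16) Lb.e (@T16.mk En
    (@En.n l11003 (nat_lit 7939) (nat_lit 0) (nat_lit 10))
    (@En.n l430 (nat_lit 10842) (nat_lit 14) (nat_lit 7))
    (@En.n l6670 (nat_lit 10944) (nat_lit 2) (nat_lit 13))
    (@En.n l10995 (nat_lit 11799) (nat_lit 3) (nat_lit 4))
    (@En.n l11840 (nat_lit 10618) (nat_lit 8) (nat_lit 8))
    (@En.n l19493 (nat_lit 11765) (nat_lit 10) (nat_lit 9))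
    (@En.n l17184 (nat_lit 10625) (nat_lit 6) (nat_lit 5))
    (@En.i (nat_lit 4204) (nat_lit 6) (nat_lit 12))
    (@En.n l612 (nat_lit 11942) (nat_lit 9) (nat_lit 9))
    (@En.n l50 (nat_lit 10572) (nat_lit 9) (nat_lit 4))
    (@En.n l31256 (nat_lit 10389) (nat_lit 0) (nat_lit 6))
    (@En.i (nat_lit 11419) (nat_lit 7) (nat_lit 11))
    (@En.i (nat_lit 5099) (nat_lit 13) (nat_lit 8))
    (@En.n l11845 (nat_lit 10615) (nat_lit 14) (nat_lit 12))
    (@En.i (nat_lit 10596) (nat_lit 12) (nat_lit 7))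
    (@En.n l15184 (nat_lit 11474) (nat_lit 15) (nat_lit 3))))
  (@Cl.mk (nat_lit 0x3000b00070005000a000d000500080003000d000600090003000d000b0008) (nat_lit 0x40076010b010551) (nat_lit 16) Lb.e (@T16.mk En
    (@En.n l499 (nat_lit 5097) (nat_lit 0) (nat_lit 8))
    (@En.n l77 (nat_lit 10616) (nat_lit 14) (nat_lit 11))
    (@En.n l745 (nat_lit 9545) (nat_lit 2) (nat_lit 13))
    (@En.n l19239 (nat_lit 11470) (nat_lit 3) (nat_lit 3))
    (@En.n l21738 (nat_lit 7937) (nat_lit 9) (nat_lit 9))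
    (@En.n l15349 (nat_lit 10840) (nat_lit 14) (nat_lit 6))
    (@En.n l22621 (nat_lit 10945) (nat_lit 2) (nat_lit 13))
    (@En.n l9962 (nat_lit 11471) (nat_lit 7) (nat_lit 3))
    (@En.n l4407 (nat_lit 8067) (nat_lit 10) (nat_lit 8))
    (@En.n l22621 (nat_lit 10626) (nat_lit 9) (nat_lit 5))
    (@En.i (nat_lit 4202) (nat_lit 5) (nat_lit 13))
    (@En.n l754 (nat_lit 11788) (nat_lit 3) (nat_lit 10))
    (@En.i (nat_lit 10574) (nat_lit 8) (nat_lit 5))
    (@En.n l22622 (nat_lit 10384) (nat_lit 14) (nat_lit 7))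
    (@En.n l4408 (nat_lit 10617) (nat_lit 11) (nat_lit 11))
    (@En.n l28 (nat_lit 10619) (nat_lit 15) (nat_lit 3))))
  (@Cl.mk (nat_lit 0x3000b00070004000a000d000500090003000d000600090003000d0007000c) (nat_lit 0x400750105010602) (nat_lit 16) Lb.e (@T16.mk En
    (@En.n l6904 (nat_lit 8739) (nat_lit 0) (nat_lit 12))
    (@En.n l5498 (nat_lit 10617) (nat_lit 14) (nat_lit 7))
    (@En.n l34167 (nat_lit 9542) (nat_lit 2) (nat_lit 13))
    (@En.n l34168 (nat_lit 11469) (nat_lit 3) (nat_lit 3))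
    (@En.n l21738 (nat_lit 7938) (nat_lit 9) (nat_lit 9))
    (@En.n l34169 (nat_lit 10838) (nat_lit 14) (nat_lit 6))
    (@En.n l34170 (nat_lit 10946) (nat_lit 2) (nat_lit 13))
    (@En.n l23844 (nat_lit 11472) (nat_lit 7) (nat_lit 3))
    (@En.n l34171 (nat_lit 4177) (nat_lit 0) (nat_lit 9))
    (@En.n l4217 (nat_lit 10627) (nat_lit 9) (nat_lit 5))
    (@En.i (nat_lit 4200) (nat_lit 5) (nat_lit 13))
    (@En.n l754 (nat_lit 10621) (nat_lit 3) (nat_lit 10))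
    (@En.i (nat_lit 10620) (nat_lit 8) (nat_lit 4))
    (@En.n l22622 (nat_lit 10385) (nat_lit 14) (nat_lit 7))
    (@En.n l11849 (nat_lit 11476) (nat_lit 11) (nat_lit 11))
    (@En.i (nat_lit 10618) (nat_lit 15) (nat_lit 3))))
  (@Cl.mk (nat_lit 0x3000c0007000c00050004000c0004000a000d000400090003000d0006000b) (nat_lit 0x401002075010507) (nat_lit 16) Lb.e (@T16.mk En
    (@En.n l18377 (nat_lit 11889) (nat_lit 0) (nat_lit 11))
    (@En.i (nat_lit 10835) (nat_lit 14) (nat_lit 6))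
    (@En.i (nat_lit 10692) (nat_lit 2) (nat_lit 13))
    (@En.n l28085 (nat_lit 10848) (nat_lit 3) (nat_lit 3))
    (@En.n l387 (nat_lit 5587) (nat_lit 0) (nat_lit 9))
    (@En.n l18372 (nat_lit 10153) (nat_lit 5) (nat_lit 4))
    (@En.i (nat_lit 4569) (nat_lit 5) (nat_lit 13))
    (@En.n l3713 (nat_lit 12037) (nat_lit 1) (nat_lit 10))
    (@En.i (nat_lit 10616) (nat_lit 8) (nat_lit 4))
    (@En.n l1776 (nat_lit 11410) (nat_lit 10) (nat_lit 12))
    (@En.i (nat_lit 10820) (nat_lit 12) (nat_lit 4))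
    (@En.i (nat_lit 10621) (nat_lit 7) (nat_lit 5))
    (@En.n l6904 (nat_lit 8745) (nat_lit 1) (nat_lit 12))
    (@En.n l1316 (nat_lit 10572) (nat_lit 14) (nat_lit 7))
    (@En.n l11 (nat_lit 9536) (nat_lit 11) (nat_lit 12))
    (@En.n l6909 (nat_lit 10846) (nat_lit 15) (nat_lit 3))))
  (@Cl.mk (nat_lit 0x3000c0006000b00090004000d000800050003000c0007000a000d00040008) (nat_lit 0x608205400506304) (nat_lit 16) Lb.e (@T16.mk En
    (@En.n l387 (nat_lit 11932) (nat_lit 0) (nat_lit 8))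
    (@En.n l18372 (nat_lit 10631) (nat_lit 10) (nat_lit 4))
    (@En.i (nat_lit 10234) (nat_lit 5) (nat_lit 13))
    (@En.n l18373 (nat_lit 12581) (nat_lit 8) (nat_lit 10))
    (@En.n l18374 (nat_lit 10386) (nat_lit 14) (nat_lit 7))
    (@En.n l1776 (nat_lit 11479) (nat_lit 3) (nat_lit 12))
    (@En.i (nat_lit 11788) (nat_lit 6) (nat_lit 3))
    (@En.n l16243 (nat_lit 9779) (nat_lit 0) (nat_lit 5))
    (@En.n l1316 (nat_lit 11942) (nat_lit 14) (nat_lit 8))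
    (@En.n l18375 (nat_lit 9538) (nat_lit 10) (nat_lit 13))
    (@En.n l18376 (nat_lit 11023) (nat_lit 10) (nat_lit 4))
    (@En.i (nat_lit 10619) (nat_lit 4) (nat_lit 9))
    (@En.n l18377 (nat_lit 9199) (nat_lit 1) (nat_lit 11))
    (@En.n l18378 (nat_lit 10843) (nat_lit 14) (nat_lit 6))
    (@En.n l18379 (nat_lit 10951) (nat_lit 8) (nat_lit 12))
    (@En.n l14184 (nat_lit 11787) (nat_lit 8) (nat_lit 3))))
  (@Cl.mk (nat_lit 0x3000800040008000c0009000c000800040008000400080007000d000c0008) (nat_lit 0x604321205060a60) (nat_lit 16) Lb.e (@T16.mk En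
    (@En.n l32536 (nat_lit 11274) (nat_lit 0) (nat_lit 8))
    (@En.n l9945 (nat_lit 10450) (nat_lit 4) (nat_lit 12))
    (@En.n l37913 (nat_lit 10709) (nat_lit 2) (nat_lit 13))
    (@En.n l403 (nat_lit 10453) (nat_lit 3) (nat_lit 7))
    (@En.n l1723 (nat_lit 10463) (nat_lit 4) (nat_lit 8))
    (@En.n l38115 (nat_lit 4228) (nat_lit 5) (nat_lit 4))
    (@En.n l22620 (nat_lit 10898) (nat_lit 0) (nat_lit 8))
    (@En.n l16753 (nat_lit 9553) (nat_lit 7) (nat_lit 4))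
    (@En.n l38116 (nat_lit 10399) (nat_lit 0) (nat_lit 8))
    (@En.n l38115 (nat_lit 4707) (nat_lit 6) (nat_lit 12))
    (@En.i (nat_lit 6802) (nat_lit 11) (nat_lit 9))
    (@En.n l38117 (nat_lit 9557) (nat_lit 12) (nat_lit 12))
    (@En.n l38115 (nat_lit 10486) (nat_lit 11) (nat_lit 8))
    (@En.n l19285 (nat_lit 6869) (nat_lit 14) (nat_lit 4))
    (@En.n l3517 (nat_lit 11474) (nat_lit 0) (nat_lit 8))
    (@En.n l9876 (nat_lit 10451) (nat_lit 15) (nat_lit 3))))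
  (@Cl.mk (nat_lit 0x30007000b0008000b00090008000500090005000900080007000d00080007) (nat_lit 0x11743000340b30) (nat_lit 16) Lb.e (@T16.mk En
    (@En.n l36313 (nat_lit 11451) (nat_lit 0) (nat_lit 7))
    (@En.n l36311 (nat_lit 11277) (nat_lit 0) (nat_lit 8))
    (@En.n l2747 (nat_lit 10659) (nat_lit 2) (nat_lit 13))
    (@En.n l20334 (nat_lit 10680) (nat_lit 3) (nat_lit 7))
    (@En.n l17 (nat_lit 10624) (nat_lit 8) (nat_lit 8))
    (@En.n l22637 (nat_lit 10423) (nat_lit 5) (nat_lit 9))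
    (@En.n l36314 (nat_lit 4226) (nat_lit 6) (nat_lit 5))
    (@En.n l36315 (nat_lit 11925) (nat_lit 10) (nat_lit 9))
    (@En.n l936 (nat_lit 10635) (nat_lit 8) (nat_lit 5))
    (@En.n l2824 (nat_lit 10622) (nat_lit 8) (nat_lit 8))
    (@En.n l36315 (nat_lit 11473) (nat_lit 11) (nat_lit 9))
    (@En.n l36316 (nat_lit 10351) (nat_lit 7) (nat_lit 11))
    (@En.n l36317 (nat_lit 1715) (nat_lit 13) (nat_lit 8))
    (@En.n l36318 (nat_lit 6855) (nat_lit 8) (nat_lit 11))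
    (@En.n l36319 (nat_lit 12053) (nat_lit 12) (nat_lit 7))
    (@En.n l22788 (nat_lit 10625) (nat_lit 15) (nat_lit 3))))
noncomputable def a664 : T16 Cl := @T16.mk Cl
  (@Cl.mk (nat_lit 0x3000b000a00090006000a000500080006000d000700060003000d000a0008) (nat_lit 0x88400030b000632) (nat_lit 16) Lb.e (@T16.mk En
    (@En.n l3866 (nat_lit 1716) (nat_lit 0) (nat_lit 8))
    (@En.n l5 (nat_lit 10720) (nat_lit 14) (nat_lit 10))
    (@En.n l14808 (nat_lit 10723) (nat_lit 2) (nat_lit 13))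
    (@En.n l10821 (nat_lit 10626) (nat_lit 3) (nat_lit 3))
    (@En.n l21640 (nat_lit 11450) (nat_lit 0) (nat_lit 6))
    (@En.n l12480 (nat_lit 11275) (nat_lit 5) (nat_lit 7))
    (@En.n l2747 (nat_lit 10660) (nat_lit 2) (nat_lit 13))
    (@En.n l43463 (nat_lit 12453) (nat_lit 7) (nat_lit 6))
    (@En.i (nat_lit 12107) (nat_lit 10) (nat_lit 8))
    (@En.n l3536 (nat_lit 2837) (nat_lit 9) (nat_lit 5))
    (@En.n l21452 (nat_lit 11920) (nat_lit 9) (nat_lit 10))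
    (@En.n l936 (nat_lit 10634) (nat_lit 7) (nat_lit 6))
    (@En.n l2824 (nat_lit 10453) (nat_lit 7) (nat_lit 9))
    (@En.n l21452 (nat_lit 11467) (nat_lit 14) (nat_lit 10))
    (@En.i (nat_lit 10623) (nat_lit 11) (nat_lit 11))
    (@En.n l11217 (nat_lit 10628) (nat_lit 15) (nat_lit 3))))
  (@Cl.mk (nat_lit 0x30007000b0008000b000900070005000a0005000900080007000d00060009) (nat_lit 0x41740060340402) (nat_lit 16) Lb.e (@T16.mk En
    (@En.n l43035 (nat_lit 7486) (nat_lit 0) (nat_lit 9))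
    (@En.n l43036 (nat_lit 10733) (nat_lit 8) (nat_lit 6))
    (@En.n l43037 (nat_lit 10653) (nat_lit 2) (nat_lit 13))
    (@En.i (nat_lit 10648) (nat_lit 3) (nat_lit 7))
    (@En.n l43038 (nat_lit 10626) (nat_lit 8) (nat_lit 8))
    (@En.n l43039 (nat_lit 11791) (nat_lit 5) (nat_lit 9))
    (@En.n l117 (nat_lit 2836) (nat_lit 6) (nat_lit 5))
    (@En.n l617 (nat_lit 10630) (nat_lit 8) (nat_lit 10))
    (@En.n l17 (nat_lit 10633) (nat_lit 8) (nat_lit 5))
    (@En.n l43040 (nat_lit 6869) (nat_lit 9) (nat_lit 7))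
    (@En.n l43041 (nat_lit 11737) (nat_lit 11) (nat_lit 9))
    (@En.n l26935 (nat_lit 10345) (nat_lit 7) (nat_lit 11))
    (@En.n l9796 (nat_lit 6793) (nat_lit 13) (nat_lit 8))
    (@En.n l43035 (nat_lit 6852) (nat_lit 8) (nat_lit 11))
    (@En.n l30473 (nat_lit 10022) (nat_lit 12) (nat_lit 7))
    (@En.n l9912 (nat_lit 10623) (nat_lit 15) (nat_lit 3))))
  (@Cl.mk (nat_lit 0x3000b000a00080006000b000500080006000d000500080003000d000a0008) (nat_lit 0x854070303010641) (nat_lit 16) Lb.e (@T16.mk En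
    (@En.n l38143 (nat_lit 6791) (nat_lit 0) (nat_lit 8))
    (@En.n l38144 (nat_lit 6853) (nat_lit 14) (nat_lit 10))
    (@En.n l24340 (nat_lit 8833) (nat_lit 2) (nat_lit 13))
    (@En.n l24341 (nat_lit 10624) (nat_lit 3) (nat_lit 3))
    (@En.n l38145 (nat_lit 7442) (nat_lit 10) (nat_lit 8))
    (@En.n l24342 (nat_lit 11071) (nat_lit 5) (nat_lit 5))
    (@En.i (nat_lit 10656) (nat_lit 2) (nat_lit 13))
    (@En.n l38146 (nat_lit 12447) (nat_lit 7) (nat_lit 6))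
    (@En.n l38143 (nat_lit 12106) (nat_lit 10) (nat_lit 8))
    (@En.n l38147 (nat_lit 2835) (nat_lit 9) (nat_lit 5))
    (@En.n l899 (nat_lit 10629) (nat_lit 11) (nat_lit 11))
    (@En.n l38148 (nat_lit 10632) (nat_lit 7) (nat_lit 6))
    (@En.n l38149 (nat_lit 6868) (nat_lit 13) (nat_lit 8))
    (@En.n l38147 (nat_lit 11471) (nat_lit 14) (nat_lit 10))
    (@En.n l38150 (nat_lit 10625) (nat_lit 11) (nat_lit 11))
    (@En.n l38151 (nat_lit 10627) (nat_lit 15) (nat_lit 3))))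
  (@Cl.mk (nat_lit 0x3000b000a00080005000b000500090006000d000500080003000d0007000b) (nat_lit 0x835030309010605) (nat_lit 16) Lb.e (@T16.mk En
    (@En.n l40832 (nat_lit 10243) (nat_lit 0) (nat_lit 11))
    (@En.n l5701 (nat_lit 10625) (nat_lit 14) (nat_lit 7))
    (@En.n l26155 (nat_lit 8832) (nat_lit 2) (nat_lit 13))
    (@En.n l2832 (nat_lit 10628) (nat_lit 3) (nat_lit 3))
    (@En.n l3098 (nat_lit 7451) (nat_lit 10) (nat_lit 8))
    (@En.n l29960 (nat_lit 11070) (nat_lit 5) (nat_lit 5))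
    (@En.n l40833 (nat_lit 10662) (nat_lit 2) (nat_lit 13))
    (@En.n l40834 (nat_lit 12445) (nat_lit 7) (nat_lit 6))
    (@En.n l18912 (nat_lit 11827) (nat_lit 10) (nat_lit 9))
    (@En.n l17184 (nat_lit 4298) (nat_lit 9) (nat_lit 5))
    (@En.n l28547 (nat_lit 10631) (nat_lit 11) (nat_lit 11))
    (@En.n l40832 (nat_lit 10153) (nat_lit 7) (nat_lit 5))
    (@En.n l12517 (nat_lit 10006) (nat_lit 13) (nat_lit 8))
    (@En.n l3480 (nat_lit 11472) (nat_lit 14) (nat_lit 10))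
    (@En.n l3348 (nat_lit 10346) (nat_lit 11) (nat_lit 11))
    (@En.n l40835 (nat_lit 10626) (nat_lit 15) (nat_lit 3))))
  (@Cl.mk (nat_lit 0x3000b000a00090005000a000500090006000d000700060003000d0007000b) (nat_lit 0x85306030a000605) (nat_lit 16) Lb.e (@T16.mk En
    (@En.n l10858 (nat_lit 10242) (nat_lit 0) (nat_lit 11))
    (@En.n l12851 (nat_lit 10623) (nat_lit 14) (nat_lit 7))
    (@En.n l24943 (nat_lit 10724) (nat_lit 2) (nat_lit 13))
    (@En.n l3519 (nat_lit 10627) (nat_lit 3) (nat_lit 3))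
    (@En.n l39617 (nat_lit 11454) (nat_lit 0) (nat_lit 6))
    (@En.n l14012 (nat_lit 11276) (nat_lit 5) (nat_lit 7))
    (@En.n l39618 (nat_lit 10665) (nat_lit 2) (nat_lit 13))
    (@En.n l39619 (nat_lit 12452) (nat_lit 7) (nat_lit 6))
    (@En.n l24739 (nat_lit 11829) (nat_lit 10) (nat_lit 9))
    (@En.n l28 (nat_lit 4296) (nat_lit 9) (nat_lit 5))
    (@En.n l19801 (nat_lit 11924) (nat_lit 11) (nat_lit 10))
    (@En.n l13354 (nat_lit 10154) (nat_lit 7) (nat_lit 5))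
    (@En.n l38375 (nat_lit 10452) (nat_lit 7) (nat_lit 9))
    (@En.n l37744 (nat_lit 11468) (nat_lit 14) (nat_lit 10))
    (@En.n l39620 (nat_lit 10349) (nat_lit 11) (nat_lit 11))
    (@En.n l14014 (nat_lit 10624) (nat_lit 15) (nat_lit 3))))
  (@Cl.mk (nat_lit 0x3000c000b0008000b000400070005000c0005000c00080004000d00040009) (nat_lit 0x454600030520901) (nat_lit 16) Lb.e (@T16.mk En
    (@En.n l3328 (nat_lit 6789) (nat_lit 0) (nat_lit 9))
    (@En.n l40825 (nat_lit 10644) (nat_lit 6) (nat_lit 4))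
    (@En.n l617 (nat_lit 8835) (nat_lit 0) (nat_lit 13))
    (@En.n l40826 (nat_lit 11920) (nat_lit 1) (nat_lit 4))
    (@En.n l2642 (nat_lit 10626) (nat_lit 4) (nat_lit 8))
    (@En.n l25682 (nat_lit 10144) (nat_lit 1) (nat_lit 12))
    (@En.n l5693 (nat_lit 11072) (nat_lit 6) (nat_lit 5))
    (@En.i (nat_lit 10658) (nat_lit 8) (nat_lit 12))
    (@En.n l17559 (nat_lit 12446) (nat_lit 8) (nat_lit 5))
    (@En.n l5590 (nat_lit 12108) (nat_lit 11) (nat_lit 7))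
    (@En.n l18290 (nat_lit 4316) (nat_lit 10) (nat_lit 4))
    (@En.i (nat_lit 12594) (nat_lit 7) (nat_lit 11))
    (@En.n l40827 (nat_lit 10008) (nat_lit 1) (nat_lit 8))
    (@En.n l40826 (nat_lit 11786) (nat_lit 14) (nat_lit 11))
    (@En.n l36418 (nat_lit 10630) (nat_lit 11) (nat_lit 12))
    (@En.n l40825 (nat_lit 10631) (nat_lit 15) (nat_lit 3))))
  (@Cl.mk (nat_lit 0x4000800040009000c000a0007000a0004000800070006000c0006000c0009) (nat_lit 0x201340503004063) (nat_lit 16) Lb.e (@T16.mk En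
    (@En.n l61 (nat_lit 10625) (nat_lit 0) (nat_lit 9))
    (@En.n l36406 (nat_lit 10140) (nat_lit 1) (nat_lit 12))
    (@En.n l35486 (nat_lit 11074) (nat_lit 4) (nat_lit 6))
    (@En.n l20428 (nat_lit 10657) (nat_lit 12) (nat_lit 12))
    (@En.i (nat_lit 10647) (nat_lit 10) (nat_lit 6))
    (@En.n l20427 (nat_lit 10629) (nat_lit 9) (nat_lit 7))
    (@En.n l36407 (nat_lit 11789) (nat_lit 11) (nat_lit 8))
    (@En.n l117 (nat_lit 4318) (nat_lit 7) (nat_lit 4))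
    (@En.n l36370 (nat_lit 12595) (nat_lit 8) (nat_lit 10))
    (@En.n l9330 (nat_lit 10012) (nat_lit 1) (nat_lit 7))
    (@En.n l36408 (nat_lit 11739) (nat_lit 11) (nat_lit 10))
    (@En.n l3851 (nat_lit 10343) (nat_lit 6) (nat_lit 12))
    (@En.n l36370 (nat_lit 6790) (nat_lit 4) (nat_lit 9))
    (@En.n l36409 (nat_lit 10643) (nat_lit 15) (nat_lit 4))
    (@En.n l36410 (nat_lit 10563) (nat_lit 11) (nat_lit 8))
    (@En.n l36408 (nat_lit 11925) (nat_lit 1) (nat_lit 4))))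
  (@Cl.mk (nat_lit 0x3000c000b0008000b000400080005000c0005000b00080004000d00080005) (nat_lit 0x935202040820930) (nat_lit 16) Lb.e (@T16.mk En
    (@En.n l27734 (nat_lit 9781) (nat_lit 0) (nat_lit 5))
    (@En.n l27735 (nat_lit 10630) (nat_lit 14) (nat_lit 8))
    (@En.n l27736 (nat_lit 8834) (nat_lit 2) (nat_lit 13))
    (@En.n l27737 (nat_lit 11924) (nat_lit 3) (nat_lit 4))
    (@En.n l27738 (nat_lit 10627) (nat_lit 4) (nat_lit 8))
    (@En.n l16733 (nat_lit 9204) (nat_lit 1) (nat_lit 11))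
    (@En.n l27739 (nat_lit 11073) (nat_lit 6) (nat_lit 5))
    (@En.n l27740 (nat_lit 10672) (nat_lit 8) (nat_lit 12))
    (@En.n l27741 (nat_lit 12444) (nat_lit 8) (nat_lit 5))
    (@En.n l27742 (nat_lit 11828) (nat_lit 11) (nat_lit 8))
    (@En.n l27743 (nat_lit 4317) (nat_lit 10) (nat_lit 4))
    (@En.n l27744 (nat_lit 12640) (nat_lit 7) (nat_lit 11))
    (@En.n l27745 (nat_lit 10007) (nat_lit 1) (nat_lit 8))
    (@En.n l27746 (nat_lit 11787) (nat_lit 14) (nat_lit 11))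
    (@En.n l27747 (nat_lit 10344) (nat_lit 11) (nat_lit 12))
    (@En.n l27748 (nat_lit 10629) (nat_lit 15) (nat_lit 3))))
  (@Cl.mk (nat_lit 0x3000c000a000400090004000c000b0006000b000400070005000d0005000c) (nat_lit 0x640208508000305) (nat_lit 16) Lb.e (@T16.mk En
    (@En.n l43627 (nat_lit 9190) (nat_lit 0) (nat_lit 12))
    (@En.n l30117 (nat_lit 11075) (nat_lit 4) (nat_lit 5))
    (@En.n l41230 (nat_lit 10081) (nat_lit 2) (nat_lit 13))
    (@En.n l43628 (nat_lit 12448) (nat_lit 3) (nat_lit 5))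
    (@En.n l9854 (nat_lit 11890) (nat_lit 11) (nat_lit 7))
    (@En.n l6918 (nat_lit 10569) (nat_lit 5) (nat_lit 4))
    (@En.n l9855 (nat_lit 12415) (nat_lit 0) (nat_lit 11))
    (@En.n l41232 (nat_lit 9541) (nat_lit 1) (nat_lit 6))
    (@En.n l17405 (nat_lit 10578) (nat_lit 9) (nat_lit 11))
    (@En.n l43629 (nat_lit 10633) (nat_lit 10) (nat_lit 12))
    (@En.i (nat_lit 10153) (nat_lit 10) (nat_lit 4))
    (@En.n l43630 (nat_lit 10448) (nat_lit 0) (nat_lit 9))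
    (@En.n l42682 (nat_lit 10629) (nat_lit 1) (nat_lit 4))
    (@En.n l217 (nat_lit 10805) (nat_lit 0) (nat_lit 10))
    (@En.n l9855 (nat_lit 8836) (nat_lit 1) (nat_lit 12))
    (@En.n l43631 (nat_lit 10634) (nat_lit 15) (nat_lit 3))))
  (@Cl.mk (nat_lit 0x30007000b00040009000c000a0005000a0004000900070006000d0006000c) (nat_lit 0x40274060500406) (nat_lit 16) Lb.e (@T16.mk En
    (@En.n l2432 (nat_lit 9189) (nat_lit 0) (nat_lit 12))
    (@En.i (nat_lit 11077) (nat_lit 4) (nat_lit 6))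
    (@En.n l38370 (nat_lit 10082) (nat_lit 2) (nat_lit 13))
    (@En.i (nat_lit 10646) (nat_lit 3) (nat_lit 6))
    (@En.n l38371 (nat_lit 10632) (nat_lit 4) (nat_lit 7))
    (@En.n l38372 (nat_lit 11793) (nat_lit 5) (nat_lit 9))
    (@En.n l117 (nat_lit 10568) (nat_lit 6) (nat_lit 4))
    (@En.n l617 (nat_lit 12371) (nat_lit 0) (nat_lit 10))
    (@En.n l38373 (nat_lit 9542) (nat_lit 8) (nat_lit 5))
    (@En.n l4245 (nat_lit 11741) (nat_lit 10) (nat_lit 10))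
    (@En.n l3851 (nat_lit 11408) (nat_lit 6) (nat_lit 12))
    (@En.n l17849 (nat_lit 10450) (nat_lit 12) (nat_lit 9))
    (@En.i (nat_lit 10630) (nat_lit 13) (nat_lit 4))
    (@En.n l14301 (nat_lit 10807) (nat_lit 8) (nat_lit 11))
    (@En.n l3851 (nat_lit 10562) (nat_lit 12) (nat_lit 7))
    (@En.n l9912 (nat_lit 10635) (nat_lit 15) (nat_lit 3))))
  (@Cl.mk (nat_lit 0x3000c000a000500090004000c000b0006000a000400070005000d000b0006) (nat_lit 0x63030a500000350) (nat_lit 16) Lb.e (@T16.mk En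
    (@En.n l3531 (nat_lit 11448) (nat_lit 0) (nat_lit 6))
    (@En.n l33580 (nat_lit 10644) (nat_lit 12) (nat_lit 11))
    (@En.n l21097 (nat_lit 10079) (nat_lit 2) (nat_lit 13))
    (@En.n l38410 (nat_lit 12454) (nat_lit 3) (nat_lit 5))
    (@En.i (nat_lit 11891) (nat_lit 11) (nat_lit 7))
    (@En.n l38411 (nat_lit 10571) (nat_lit 5) (nat_lit 4))
    (@En.n l3531 (nat_lit 11823) (nat_lit 0) (nat_lit 10))
    (@En.n l38412 (nat_lit 9547) (nat_lit 1) (nat_lit 6))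
    (@En.n l22465 (nat_lit 10579) (nat_lit 9) (nat_lit 11))
    (@En.i (nat_lit 10635) (nat_lit 10) (nat_lit 12))
    (@En.n l19404 (nat_lit 10154) (nat_lit 10) (nat_lit 4))
    (@En.i (nat_lit 10449) (nat_lit 10) (nat_lit 9))
    (@En.n l38413 (nat_lit 11935) (nat_lit 1) (nat_lit 5))
    (@En.n l32107 (nat_lit 10806) (nat_lit 14) (nat_lit 10))
    (@En.n l4790 (nat_lit 10026) (nat_lit 1) (nat_lit 12))
    (@En.n l38414 (nat_lit 10632) (nat_lit 15) (nat_lit 3))))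
  (@Cl.mk (nat_lit 0x30007000b00050009000c000a000500090004000900070006000d000b0007) (nat_lit 0x30296000600480) (nat_lit 16) Lb.e (@T16.mk En
    (@En.n l3531 (nat_lit 11449) (nat_lit 0) (nat_lit 7))
    (@En.n l22779 (nat_lit 10643) (nat_lit 5) (nat_lit 11))
    (@En.n l21097 (nat_lit 10080) (nat_lit 2) (nat_lit 13))
    (@En.n l22780 (nat_lit 10686) (nat_lit 10) (nat_lit 6))
    (@En.n l17 (nat_lit 10634) (nat_lit 4) (nat_lit 7))
    (@En.n l22637 (nat_lit 11816) (nat_lit 5) (nat_lit 9))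
    (@En.n l22781 (nat_lit 10570) (nat_lit 6) (nat_lit 4))
    (@En.n l3531 (nat_lit 11825) (nat_lit 10) (nat_lit 9))
    (@En.n l22782 (nat_lit 9545) (nat_lit 8) (nat_lit 5))
    (@En.n l22783 (nat_lit 11727) (nat_lit 10) (nat_lit 10))
    (@En.n l22784 (nat_lit 11012) (nat_lit 6) (nat_lit 12))
    (@En.i (nat_lit 10451) (nat_lit 10) (nat_lit 9))
    (@En.n l22785 (nat_lit 11934) (nat_lit 13) (nat_lit 5))
    (@En.n l22786 (nat_lit 10808) (nat_lit 8) (nat_lit 11))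
    (@En.n l22787 (nat_lit 11615) (nat_lit 12) (nat_lit 7))
    (@En.n l22788 (nat_lit 10633) (nat_lit 15) (nat_lit 3))))
  (@Cl.mk (nat_lit 0x40008000c0004000c000a0004000a00040008000c0006000c00060004000c) (nat_lit 0x66043060240a007) (nat_lit 16) Lb.e (@T16.mk En
    (@En.n l43002 (nat_lit 10633) (nat_lit 0) (nat_lit 12))
    (@En.n l18287 (nat_lit 9791) (nat_lit 1) (nat_lit 4))
    (@En.n l37089 (nat_lit 11475) (nat_lit 0) (nat_lit 6))
    (@En.n l32516 (nat_lit 10473) (nat_lit 1) (nat_lit 12))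
    (@En.n l43002 (nat_lit 10640) (nat_lit 4) (nat_lit 6))
    (@En.n l245 (nat_lit 9169) (nat_lit 7) (nat_lit 12))
    (@En.n l43003 (nat_lit 10473) (nat_lit 11) (nat_lit 8))
    (@En.i (nat_lit 10089) (nat_lit 7) (nat_lit 4))
    (@En.n l35730 (nat_lit 10638) (nat_lit 0) (nat_lit 10))
    (@En.n l32516 (nat_lit 10307) (nat_lit 1) (nat_lit 4))
    (@En.n l34962 (nat_lit 10085) (nat_lit 0) (nat_lit 10))
    (@En.n l5592 (nat_lit 10485) (nat_lit 1) (nat_lit 12))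
    (@En.n l35730 (nat_lit 10645) (nat_lit 4) (nat_lit 4))
    (@En.i (nat_lit 10291) (nat_lit 0) (nat_lit 12))
    (@En.n l250 (nat_lit 10452) (nat_lit 11) (nat_lit 8))
    (@En.n l43004 (nat_lit 10711) (nat_lit 7) (nat_lit 4))))
  (@Cl.mk (nat_lit 0x3000c000b0007000b0004000b0005000a0005000b00050009000d00060005) (nat_lit 0x660207040703900) (nat_lit 16) Lb.e (@T16.mk En
    (@En.i (nat_lit 11173) (nat_lit 0) (nat_lit 5))
    (@En.n l43172 (nat_lit 10481) (nat_lit 0) (nat_lit 6))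
    (@En.i (nat_lit 12408) (nat_lit 6) (nat_lit 13))
    (@En.n l38220 (nat_lit 12433) (nat_lit 10) (nat_lit 9))
    (@En.n l31978 (nat_lit 9821) (nat_lit 4) (nat_lit 5))
    (@En.n l5856 (nat_lit 12361) (nat_lit 0) (nat_lit 11))
    (@En.n l38222 (nat_lit 11846) (nat_lit 6) (nat_lit 5))
    (@En.n l43084 (nat_lit 10636) (nat_lit 10) (nat_lit 10))
    (@En.n l43172 (nat_lit 11706) (nat_lit 8) (nat_lit 5))
    (@En.n l33428 (nat_lit 11784) (nat_lit 10) (nat_lit 11))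
    (@En.n l117 (nat_lit 10683) (nat_lit 10) (nat_lit 4))
    (@En.n l43172 (nat_lit 8857) (nat_lit 0) (nat_lit 11))
    (@En.n l43173 (nat_lit 10628) (nat_lit 1) (nat_lit 7))
    (@En.n l575 (nat_lit 10687) (nat_lit 5) (nat_lit 11))
    (@En.n l43174 (nat_lit 10650) (nat_lit 3) (nat_lit 12))
    (@En.n l43175 (nat_lit 12442) (nat_lit 15) (nat_lit 3))))
  (@Cl.mk (nat_lit 0x30007000b0005000b0006000b0005000c0005000900050004000d000b000a) (nat_lit 0x30605060300745) (nat_lit 16) Lb.e (@T16.mk En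
    (@En.n l575 (nat_lit 12264) (nat_lit 0) (nat_lit 10))
    (@En.n l14434 (nat_lit 11780) (nat_lit 5) (nat_lit 11))
    (@En.n l32098 (nat_lit 10494) (nat_lit 2) (nat_lit 13))
    (@En.i (nat_lit 10646) (nat_lit 12) (nat_lit 4))
    (@En.n l5854 (nat_lit 12452) (nat_lit 4) (nat_lit 5))
    (@En.n l38220 (nat_lit 10886) (nat_lit 10) (nat_lit 9))
    (@En.n l217 (nat_lit 10715) (nat_lit 6) (nat_lit 5))
    (@En.n l38221 (nat_lit 12371) (nat_lit 8) (nat_lit 12))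
    (@En.n l38222 (nat_lit 11995) (nat_lit 8) (nat_lit 5))
    (@En.n l38223 (nat_lit 10155) (nat_lit 10) (nat_lit 11))
    (@En.n l27614 (nat_lit 11805) (nat_lit 11) (nat_lit 6))
    (@En.n l33428 (nat_lit 11793) (nat_lit 12) (nat_lit 11))
    (@En.n l117 (nat_lit 10639) (nat_lit 13) (nat_lit 5))
    (@En.n l38223 (nat_lit 12407) (nat_lit 8) (nat_lit 11))
    (@En.i (nat_lit 10637) (nat_lit 12) (nat_lit 7))
    (@En.n l38224 (nat_lit 11814) (nat_lit 15) (nat_lit 3))))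
  (@Cl.mk (nat_lit 0x400080005000b0005000b0008000c0005000800050004000c000b0008000b) (nat_lit 0x404052905004436) (nat_lit 16) Lb.e (@T16.mk En
    (@En.i (nat_lit 7584) (nat_lit 7) (nat_lit 11))
    (@En.i (nat_lit 9793) (nat_lit 1) (nat_lit 8))
    (@En.n l14435 (nat_lit 10673) (nat_lit 5) (nat_lit 11))
    (@En.i (nat_lit 9709) (nat_lit 3) (nat_lit 12))
    (@En.i (nat_lit 11863) (nat_lit 12) (nat_lit 4))
    (@En.n l35663 (nat_lit 10637) (nat_lit 0) (nat_lit 5))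
    (@En.n l20734 (nat_lit 11269) (nat_lit 10) (nat_lit 8))
    (@En.n l217 (nat_lit 4319) (nat_lit 1) (nat_lit 5))
    (@En.n l5821 (nat_lit 10537) (nat_lit 7) (nat_lit 12))
    (@En.n l14431 (nat_lit 10640) (nat_lit 1) (nat_lit 8))
    (@En.n l41079 (nat_lit 10644) (nat_lit 2) (nat_lit 11))
    (@En.i (nat_lit 11096) (nat_lit 6) (nat_lit 5))
    (@En.n l899 (nat_lit 10641) (nat_lit 13) (nat_lit 11))
    (@En.i (nat_lit 11778) (nat_lit 1) (nat_lit 5))
    (@En.i (nat_lit 10683) (nat_lit 11) (nat_lit 8))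
    (@En.n l14434 (nat_lit 9696) (nat_lit 15) (nat_lit 4))))
noncomputable def a665 : T16 Cl := @T16.mk Cl
  (@Cl.mk (nat_lit 0x40007000b0004000b000a00080005000b000500090006000c00050008000c) (nat_lit 0x30444070504019) (nat_lit 16) Lb.e (@T16.mk En
    (@En.i (nat_lit 10646) (nat_lit 0) (nat_lit 12))
    (@En.n l43513 (nat_lit 9902) (nat_lit 10) (nat_lit 8))
    (@En.n l20356 (nat_lit 11092) (nat_lit 5) (nat_lit 5))
    (@En.n l38987 (nat_lit 10642) (nat_lit 0) (nat_lit 12))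
    (@En.n l1803 (nat_lit 11777) (nat_lit 1) (nat_lit 6))
    (@En.n l43514 (nat_lit 10685) (nat_lit 10) (nat_lit 9))
    (@En.n l117 (nat_lit 10077) (nat_lit 6) (nat_lit 5))
    (@En.n l28605 (nat_lit 10639) (nat_lit 0) (nat_lit 11))
    (@En.n l3480 (nat_lit 11177) (nat_lit 8) (nat_lit 5))
    (@En.n l43515 (nat_lit 9789) (nat_lit 2) (nat_lit 8))
    (@En.n l28475 (nat_lit 10672) (nat_lit 6) (nat_lit 10))
    (@En.n l5646 (nat_lit 9708) (nat_lit 12) (nat_lit 11))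
    (@En.n l9790 (nat_lit 9921) (nat_lit 15) (nat_lit 4))
    (@En.n l43516 (nat_lit 11818) (nat_lit 8) (nat_lit 11))
    (@En.i (nat_lit 11270) (nat_lit 11) (nat_lit 7))
    (@En.n l34573 (nat_lit 4320) (nat_lit 15) (nat_lit 4))))
  (@Cl.mk (nat_lit 0x40008000b0004000a0007000b0005000b000800060005000c00050009000c) (nat_lit 0x330408086004037) (nat_lit 16) Lb.e (@T16.mk En
    (@En.i (nat_lit 7148) (nat_lit 6) (nat_lit 12))
    (@En.n l3328 (nat_lit 9792) (nat_lit 1) (nat_lit 9))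
    (@En.n l117 (nat_lit 11606) (nat_lit 5) (nat_lit 5))
    (@En.n l42990 (nat_lit 9811) (nat_lit 0) (nat_lit 12))
    (@En.i (nat_lit 11955) (nat_lit 11) (nat_lit 5))
    (@En.n l6444 (nat_lit 10636) (nat_lit 2) (nat_lit 6))
    (@En.n l2642 (nat_lit 10639) (nat_lit 6) (nat_lit 8))
    (@En.n l42991 (nat_lit 10480) (nat_lit 2) (nat_lit 11))
    (@En.n l42990 (nat_lit 9844) (nat_lit 8) (nat_lit 5))
    (@En.n l42992 (nat_lit 12692) (nat_lit 8) (nat_lit 11))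
    (@En.n l42993 (nat_lit 10642) (nat_lit 14) (nat_lit 7))
    (@En.n l42994 (nat_lit 10643) (nat_lit 12) (nat_lit 10))
    (@En.n l42991 (nat_lit 11090) (nat_lit 15) (nat_lit 4))
    (@En.i (nat_lit 8003) (nat_lit 7) (nat_lit 11))
    (@En.n l1081 (nat_lit 10679) (nat_lit 11) (nat_lit 8))
    (@En.n l42658 (nat_lit 10650) (nat_lit 15) (nat_lit 4))))
  (@Cl.mk (nat_lit 0x40007000b0004000b0007000b0005000b000500090005000c00050009000c) (nat_lit 0x80506040408043) (nat_lit 16) Lb.e (@T16.mk En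
    (@En.n l37442 (nat_lit 11155) (nat_lit 6) (nat_lit 12))
    (@En.i (nat_lit 10681) (nat_lit 1) (nat_lit 9))
    (@En.n l37443 (nat_lit 10078) (nat_lit 5) (nat_lit 5))
    (@En.n l37444 (nat_lit 10641) (nat_lit 0) (nat_lit 12))
    (@En.n l3517 (nat_lit 11178) (nat_lit 1) (nat_lit 5))
    (@En.n l37445 (nat_lit 9790) (nat_lit 10) (nat_lit 9))
    (@En.n l37446 (nat_lit 11605) (nat_lit 6) (nat_lit 5))
    (@En.n l33421 (nat_lit 9710) (nat_lit 0) (nat_lit 11))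
    (@En.n l37447 (nat_lit 11956) (nat_lit 8) (nat_lit 5))
    (@En.n l9160 (nat_lit 10157) (nat_lit 8) (nat_lit 11))
    (@En.n l37448 (nat_lit 10640) (nat_lit 14) (nat_lit 7))
    (@En.n l37449 (nat_lit 10481) (nat_lit 12) (nat_lit 11))
    (@En.n l28094 (nat_lit 9846) (nat_lit 15) (nat_lit 4))
    (@En.n l9160 (nat_lit 10649) (nat_lit 8) (nat_lit 11))
    (@En.n l37450 (nat_lit 9901) (nat_lit 11) (nat_lit 7))
    (@En.n l33563 (nat_lit 11086) (nat_lit 15) (nat_lit 4))))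
  (@Cl.mk (nat_lit 0x40009000c000a0006000a0004000a00070006000b0006000c0006000a0005) (nat_lit 0x423070100706080) (nat_lit 16) Lb.e (@T16.mk En
    (@En.n l17 (nat_lit 11926) (nat_lit 0) (nat_lit 5))
    (@En.n l22634 (nat_lit 10809) (nat_lit 9) (nat_lit 10))
    (@En.n l22635 (nat_lit 11592) (nat_lit 1) (nat_lit 6))
    (@En.n l38197 (nat_lit 11046) (nat_lit 2) (nat_lit 12))
    (@En.n l38198 (nat_lit 11078) (nat_lit 4) (nat_lit 6))
    (@En.n l38199 (nat_lit 10642) (nat_lit 9) (nat_lit 11))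
    (@En.n l38200 (nat_lit 10638) (nat_lit 10) (nat_lit 6))
    (@En.n l38201 (nat_lit 10644) (nat_lit 14) (nat_lit 7))
    (@En.n l38202 (nat_lit 67) (nat_lit 1) (nat_lit 10))
    (@En.n l9855 (nat_lit 9845) (nat_lit 9) (nat_lit 4))
    (@En.i (nat_lit 10765) (nat_lit 9) (nat_lit 10))
    (@En.n l38197 (nat_lit 9884) (nat_lit 1) (nat_lit 6))
    (@En.n l38203 (nat_lit 11093) (nat_lit 13) (nat_lit 10))
    (@En.n l38204 (nat_lit 11409) (nat_lit 6) (nat_lit 12))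
    (@En.n l21140 (nat_lit 10678) (nat_lit 11) (nat_lit 9))
    (@En.n l38200 (nat_lit 10633) (nat_lit 12) (nat_lit 4))))
  (@Cl.mk (nat_lit 0x400070005000b0005000c000b00090005000400090005000c000b0007000b) (nat_lit 0x4049300403401) (nat_lit 16) Lb.e (@T16.mk En
    (@En.n l42679 (nat_lit 44) (nat_lit 0) (nat_lit 11))
    (@En.n l9856 (nat_lit 9883) (nat_lit 1) (nat_lit 7))
    (@En.n l27746 (nat_lit 11773) (nat_lit 5) (nat_lit 11))
    (@En.n l42680 (nat_lit 10643) (nat_lit 13) (nat_lit 12))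
    (@En.n l27734 (nat_lit 10857) (nat_lit 4) (nat_lit 5))
    (@En.n l42679 (nat_lit 10645) (nat_lit 5) (nat_lit 9))
    (@En.n l7 (nat_lit 10632) (nat_lit 12) (nat_lit 4))
    (@En.n l27746 (nat_lit 11911) (nat_lit 0) (nat_lit 5))
    (@En.n l7899 (nat_lit 10804) (nat_lit 1) (nat_lit 9))
    (@En.n l644 (nat_lit 10631) (nat_lit 5) (nat_lit 11))
    (@En.n l42681 (nat_lit 11045) (nat_lit 2) (nat_lit 12))
    (@En.n l40572 (nat_lit 11076) (nat_lit 4) (nat_lit 5))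
    (@En.n l42682 (nat_lit 10640) (nat_lit 13) (nat_lit 11))
    (@En.n l42683 (nat_lit 12361) (nat_lit 11) (nat_lit 5))
    (@En.n l42684 (nat_lit 11910) (nat_lit 11) (nat_lit 7))
    (@En.n l42685 (nat_lit 4321) (nat_lit 15) (nat_lit 4))))
  (@Cl.mk (nat_lit 0x40007000c0006000b00060004000c000a000500090004000c000a0006000a) (nat_lit 0x30400740302105) (nat_lit 16) Lb.e (@T16.mk En
    (@En.i (nat_lit 10646) (nat_lit 9) (nat_lit 10))
    (@En.n l43505 (nat_lit 9897) (nat_lit 1) (nat_lit 6))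
    (@En.n l43506 (nat_lit 9570) (nat_lit 14) (nat_lit 10))
    (@En.i (nat_lit 10678) (nat_lit 10) (nat_lit 12))
    (@En.n l43507 (nat_lit 10532) (nat_lit 4) (nat_lit 4))
    (@En.n l14299 (nat_lit 10453) (nat_lit 10) (nat_lit 9))
    (@En.n l36243 (nat_lit 6279) (nat_lit 1) (nat_lit 5))
    (@En.n l43508 (nat_lit 10305) (nat_lit 0) (nat_lit 10))
    (@En.n l43509 (nat_lit 10630) (nat_lit 1) (nat_lit 12))
    (@En.n l36243 (nat_lit 9787) (nat_lit 9) (nat_lit 4))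
    (@En.n l7944 (nat_lit 11872) (nat_lit 0) (nat_lit 6))
    (@En.n l43510 (nat_lit 10685) (nat_lit 1) (nat_lit 11))
    (@En.n l35645 (nat_lit 9921) (nat_lit 7) (nat_lit 6))
    (@En.n l43511 (nat_lit 10531) (nat_lit 8) (nat_lit 12))
    (@En.i (nat_lit 11172) (nat_lit 11) (nat_lit 7))
    (@En.n l43512 (nat_lit 9693) (nat_lit 15) (nat_lit 4))))
  (@Cl.mk (nat_lit 0x30006000a0004000d000b000a00030006000b0005000a0006000d0005000c) (nat_lit 0x80334009010408) (nat_lit 16) Lb.e (@T16.mk En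
    (@En.i (nat_lit 12595) (nat_lit 0) (nat_lit 12))
    (@En.i (nat_lit 11116) (nat_lit 8) (nat_lit 5))
    (@En.n l14299 (nat_lit 10649) (nat_lit 10) (nat_lit 13))
    (@En.n l7944 (nat_lit 11876) (nat_lit 3) (nat_lit 6))
    (@En.n l1578 (nat_lit 43) (nat_lit 4) (nat_lit 10))
    (@En.n l117 (nat_lit 11863) (nat_lit 5) (nat_lit 5))
    (@En.n l617 (nat_lit 10537) (nat_lit 14) (nat_lit 11))
    (@En.i (nat_lit 11173) (nat_lit 12) (nat_lit 6))
    (@En.n l3927 (nat_lit 9682) (nat_lit 8) (nat_lit 3))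
    (@En.n l575 (nat_lit 11684) (nat_lit 0) (nat_lit 10))
    (@En.i (nat_lit 11882) (nat_lit 11) (nat_lit 11))
    (@En.i (nat_lit 10648) (nat_lit 12) (nat_lit 13))
    (@En.i (nat_lit 10647) (nat_lit 3) (nat_lit 4))
    (@En.n l14301 (nat_lit 10900) (nat_lit 4) (nat_lit 10))
    (@En.i (nat_lit 12139) (nat_lit 12) (nat_lit 6))
    (@En.i (nat_lit 10686) (nat_lit 6) (nat_lit 3))))
  (@Cl.mk (nat_lit 0x30008000b000500090006000c0005000c0008000400070004000d000b000a) (nat_lit 0x420404054000143) (nat_lit 16) Lb.e (@T16.mk En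
    (@En.n l575 (nat_lit 12225) (nat_lit 0) (nat_lit 10))
    (@En.i (nat_lit 11782) (nat_lit 12) (nat_lit 11))
    (@En.n l9790 (nat_lit 1044) (nat_lit 2) (nat_lit 13))
    (@En.n l18 (nat_lit 10638) (nat_lit 3) (nat_lit 4))
    (@En.n l2199 (nat_lit 12140) (nat_lit 11) (nat_lit 7))
    (@En.n l3348 (nat_lit 12445) (nat_lit 5) (nat_lit 4))
    (@En.n l61 (nat_lit 10648) (nat_lit 0) (nat_lit 8))
    (@En.n l17920 (nat_lit 10765) (nat_lit 1) (nat_lit 12))
    (@En.n l21305 (nat_lit 11117) (nat_lit 8) (nat_lit 5))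
    (@En.n l14299 (nat_lit 10763) (nat_lit 10) (nat_lit 12))
    (@En.n l7944 (nat_lit 11875) (nat_lit 11) (nat_lit 6))
    (@En.n l36717 (nat_lit 10771) (nat_lit 12) (nat_lit 9))
    (@En.n l117 (nat_lit 9875) (nat_lit 6) (nat_lit 5))
    (@En.n l2199 (nat_lit 10534) (nat_lit 7) (nat_lit 11))
    (@En.n l14311 (nat_lit 10639) (nat_lit 1) (nat_lit 8))
    (@En.n l3927 (nat_lit 9677) (nat_lit 15) (nat_lit 3))))
  (@Cl.mk (nat_lit 0x30006000a000d000a0009000300080006000b0006000a0007000d00050008) (nat_lit 0x22230503030403) (nat_lit 16) Lb.e (@T16.mk En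
    (@En.n l20563 (nat_lit 10785) (nat_lit 0) (nat_lit 8))
    (@En.i (nat_lit 11115) (nat_lit 7) (nat_lit 5))
    (@En.n l14299 (nat_lit 10762) (nat_lit 9) (nat_lit 13))
    (@En.n l7944 (nat_lit 11874) (nat_lit 3) (nat_lit 7))
    (@En.n l21435 (nat_lit 10690) (nat_lit 4) (nat_lit 10))
    (@En.n l117 (nat_lit 10508) (nat_lit 5) (nat_lit 6))
    (@En.n l617 (nat_lit 10647) (nat_lit 13) (nat_lit 11))
    (@En.n l17 (nat_lit 10646) (nat_lit 7) (nat_lit 6))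
    (@En.i (nat_lit 10640) (nat_lit 9) (nat_lit 8))
    (@En.n l3927 (nat_lit 9679) (nat_lit 9) (nat_lit 3))
    (@En.n l575 (nat_lit 11683) (nat_lit 0) (nat_lit 9))
    (@En.n l5646 (nat_lit 11869) (nat_lit 12) (nat_lit 10))
    (@En.i (nat_lit 1181) (nat_lit 5) (nat_lit 13))
    (@En.n l14301 (nat_lit 10898) (nat_lit 3) (nat_lit 10))
    (@En.i (nat_lit 12138) (nat_lit 12) (nat_lit 6))
    (@En.n l20748 (nat_lit 10680) (nat_lit 15) (nat_lit 3))))
  (@Cl.mk (nat_lit 0x30006000c0005000a000d0004000b0003000a0006000a0005000d000b0006) (nat_lit 0xa0430705010330) (nat_lit 16) Lb.e (@T16.mk En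
    (@En.i (nat_lit 11700) (nat_lit 0) (nat_lit 6))
    (@En.n l61 (nat_lit 11883) (nat_lit 10) (nat_lit 11))
    (@En.i (nat_lit 10762) (nat_lit 2) (nat_lit 13))
    (@En.i (nat_lit 10763) (nat_lit 3) (nat_lit 5))
    (@En.i (nat_lit 4326) (nat_lit 4) (nat_lit 10))
    (@En.n l21431 (nat_lit 10646) (nat_lit 14) (nat_lit 6))
    (@En.n l13333 (nat_lit 10645) (nat_lit 7) (nat_lit 10))
    (@En.n l8312 (nat_lit 10688) (nat_lit 7) (nat_lit 3))
    (@En.i (nat_lit 12579) (nat_lit 0) (nat_lit 11))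
    (@En.n l7981 (nat_lit 9981) (nat_lit 9) (nat_lit 4))
    (@En.n l16958 (nat_lit 11162) (nat_lit 5) (nat_lit 13))
    (@En.n l9876 (nat_lit 10690) (nat_lit 12) (nat_lit 10))
    (@En.n l21668 (nat_lit 11862) (nat_lit 4) (nat_lit 5))
    (@En.n l35468 (nat_lit 12692) (nat_lit 14) (nat_lit 12))
    (@En.n l9877 (nat_lit 11174) (nat_lit 12) (nat_lit 6))
    (@En.n l21425 (nat_lit 9683) (nat_lit 15) (nat_lit 3))))
  (@Cl.mk (nat_lit 0x40008000b0006000a0006000b0005000a000800060005000c000a0006000a) (nat_lit 0x370507014005605) (nat_lit 16) Lb.e (@T16.mk En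
    (@En.n l40235 (nat_lit 10132) (nat_lit 0) (nat_lit 10))
    (@En.i (nat_lit 10724) (nat_lit 1) (nat_lit 6))
    (@En.n l40236 (nat_lit 9841) (nat_lit 6) (nat_lit 10))
    (@En.n l40237 (nat_lit 9424) (nat_lit 3) (nat_lit 12))
    (@En.n l32052 (nat_lit 8793) (nat_lit 11) (nat_lit 5))
    (@En.n l31714 (nat_lit 10645) (nat_lit 10) (nat_lit 6))
    (@En.n l28 (nat_lit 9696) (nat_lit 6) (nat_lit 8))
    (@En.n l77 (nat_lit 9697) (nat_lit 10) (nat_lit 10))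
    (@En.n l40238 (nat_lit 10565) (nat_lit 8) (nat_lit 5))
    (@En.i (nat_lit 12194) (nat_lit 9) (nat_lit 11))
    (@En.n l61 (nat_lit 10078) (nat_lit 1) (nat_lit 6))
    (@En.n l31714 (nat_lit 10633) (nat_lit 9) (nat_lit 10))
    (@En.n l40239 (nat_lit 9374) (nat_lit 13) (nat_lit 6))
    (@En.n l32052 (nat_lit 9569) (nat_lit 7) (nat_lit 11))
    (@En.n l3517 (nat_lit 10659) (nat_lit 11) (nat_lit 8))
    (@En.n l152 (nat_lit 10652) (nat_lit 15) (nat_lit 4))))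
  (@Cl.mk (nat_lit 0x50008000b0006000a0007000a0005000900080006000b0006000a00090007) (nat_lit 0x150304055070250) (nat_lit 16) Lb.e (@T16.mk En
    (@En.n l43670 (nat_lit 10678) (nat_lit 0) (nat_lit 7))
    (@En.n l43671 (nat_lit 10654) (nat_lit 7) (nat_lit 9))
    (@En.n l43672 (nat_lit 10663) (nat_lit 9) (nat_lit 10))
    (@En.n l43673 (nat_lit 2831) (nat_lit 2) (nat_lit 6))
    (@En.n l43674 (nat_lit 10652) (nat_lit 9) (nat_lit 11))
    (@En.n l43674 (nat_lit 10650) (nat_lit 10) (nat_lit 6))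
    (@En.n l7 (nat_lit 10653) (nat_lit 8) (nat_lit 8))
    (@En.n l43670 (nat_lit 10625) (nat_lit 10) (nat_lit 9))
    (@En.n l43412 (nat_lit 9368) (nat_lit 8) (nat_lit 5))
    (@En.n l43675 (nat_lit 11621) (nat_lit 8) (nat_lit 10))
    (@En.n l43676 (nat_lit 2612) (nat_lit 1) (nat_lit 7))
    (@En.n l8770 (nat_lit 6847) (nat_lit 9) (nat_lit 10))
    (@En.n l43677 (nat_lit 10722) (nat_lit 13) (nat_lit 6))
    (@En.n l43678 (nat_lit 9839) (nat_lit 7) (nat_lit 11))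
    (@En.n l43677 (nat_lit 5205) (nat_lit 10) (nat_lit 8))
    (@En.n l37425 (nat_lit 8390) (nat_lit 11) (nat_lit 5))))
  (@Cl.mk (nat_lit 0x40008000b0005000a0008000b00050009000800060005000c0008000b0007) (nat_lit 0x270546024005270) (nat_lit 16) Lb.e (@T16.mk En
    (@En.i (nat_lit 10723) (nat_lit 0) (nat_lit 7))
    (@En.n l2065 (nat_lit 7147) (nat_lit 7) (nat_lit 11))
    (@En.n l41729 (nat_lit 10651) (nat_lit 14) (nat_lit 8))
    (@En.i (nat_lit 9874) (nat_lit 3) (nat_lit 12))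
    (@En.n l2065 (nat_lit 8816) (nat_lit 11) (nat_lit 5))
    (@En.n l18 (nat_lit 10532) (nat_lit 10) (nat_lit 6))
    (@En.n l28 (nat_lit 10655) (nat_lit 8) (nat_lit 8))
    (@En.n l77 (nat_lit 10676) (nat_lit 10) (nat_lit 9))
    (@En.n l6081 (nat_lit 4314) (nat_lit 8) (nat_lit 5))
    (@En.i (nat_lit 9225) (nat_lit 7) (nat_lit 11))
    (@En.n l61 (nat_lit 10657) (nat_lit 1) (nat_lit 8))
    (@En.n l41730 (nat_lit 10630) (nat_lit 10) (nat_lit 10))
    (@En.n l28 (nat_lit 9364) (nat_lit 13) (nat_lit 5))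
    (@En.n l29585 (nat_lit 11622) (nat_lit 7) (nat_lit 11))
    (@En.n l2065 (nat_lit 2442) (nat_lit 11) (nat_lit 8))
    (@En.n l41731 (nat_lit 10641) (nat_lit 15) (nat_lit 4))))
  (@Cl.mk (nat_lit 0x3000b0007000b0008000b000500080005000b000500090008000d00050008) (nat_lit 0x604250403025302) (nat_lit 16) Lb.e (@T16.mk En
    (@En.n l26871 (nat_lit 5206) (nat_lit 10) (nat_lit 8))
    (@En.i (nat_lit 8393) (nat_lit 7) (nat_lit 5))
    (@En.n l8770 (nat_lit 12442) (nat_lit 2) (nat_lit 13))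
    (@En.n l2579 (nat_lit 10656) (nat_lit 3) (nat_lit 8))
    (@En.n l3328 (nat_lit 10661) (nat_lit 10) (nat_lit 9))
    (@En.n l21569 (nat_lit 2829) (nat_lit 5) (nat_lit 5))
    (@En.n l43606 (nat_lit 10657) (nat_lit 0) (nat_lit 11))
    (@En.n l23585 (nat_lit 10082) (nat_lit 7) (nat_lit 5))
    (@En.n l2642 (nat_lit 6865) (nat_lit 10) (nat_lit 8))
    (@En.n l15957 (nat_lit 9369) (nat_lit 9) (nat_lit 5))
    (@En.n l26869 (nat_lit 11618) (nat_lit 7) (nat_lit 11))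
    (@En.n l22624 (nat_lit 2611) (nat_lit 12) (nat_lit 8))
    (@En.n l8770 (nat_lit 6845) (nat_lit 8) (nat_lit 11))
    (@En.n l21569 (nat_lit 10025) (nat_lit 14) (nat_lit 7))
    (@En.i (nat_lit 10651) (nat_lit 13) (nat_lit 11))
    (@En.n l38219 (nat_lit 10659) (nat_lit 15) (nat_lit 3))))
  (@Cl.mk (nat_lit 0x3000a0006000a00090007000c00060009000600040007000a000d00090007) (nat_lit 0x506404040005230) (nat_lit 16) Lb.e (@T16.mk En
    (@En.n l43176 (nat_lit 2621) (nat_lit 0) (nat_lit 7))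
    (@En.n l31195 (nat_lit 6843) (nat_lit 12) (nat_lit 9))
    (@En.i (nat_lit 9826) (nat_lit 5) (nat_lit 13))
    (@En.n l27330 (nat_lit 7191) (nat_lit 8) (nat_lit 10))
    (@En.n l20187 (nat_lit 5208) (nat_lit 11) (nat_lit 7))
    (@En.n l13686 (nat_lit 8407) (nat_lit 5) (nat_lit 4))
    (@En.n l18 (nat_lit 10679) (nat_lit 0) (nat_lit 6))
    (@En.n l2869 (nat_lit 7604) (nat_lit 9) (nat_lit 9))
    (@En.n l6081 (nat_lit 2826) (nat_lit 8) (nat_lit 6))
    (@En.n l3 (nat_lit 10655) (nat_lit 10) (nat_lit 12))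
    (@En.n l3 (nat_lit 9696) (nat_lit 9) (nat_lit 7))
    (@En.n l7642 (nat_lit 10656) (nat_lit 7) (nat_lit 9))
    (@En.n l16560 (nat_lit 10626) (nat_lit 13) (nat_lit 10))
    (@En.n l35634 (nat_lit 10663) (nat_lit 14) (nat_lit 6))
    (@En.n l41729 (nat_lit 10651) (nat_lit 9) (nat_lit 10))
    (@En.n l29581 (nat_lit 10669) (nat_lit 15) (nat_lit 3))))
  (@Cl.mk (nat_lit 0x3000b0006000b0009000c0005000800050004000c0007000a000d00040008) (nat_lit 0x806430300806502) (nat_lit 16) Lb.e (@T16.mk En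
    (@En.n l2869 (nat_lit 2620) (nat_lit 0) (nat_lit 8))
    (@En.n l14311 (nat_lit 10639) (nat_lit 15) (nat_lit 4))
    (@En.i (nat_lit 9825) (nat_lit 5) (nat_lit 13))
    (@En.n l2921 (nat_lit 7526) (nat_lit 8) (nat_lit 10))
    (@En.i (nat_lit 10654) (nat_lit 4) (nat_lit 7))
    (@En.i (nat_lit 9876) (nat_lit 3) (nat_lit 12))
    (@En.n l2101 (nat_lit 8433) (nat_lit 12) (nat_lit 4))
    (@En.n l18 (nat_lit 10682) (nat_lit 7) (nat_lit 5))
    (@En.n l2869 (nat_lit 5494) (nat_lit 10) (nat_lit 8))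
    (@En.n l6081 (nat_lit 4313) (nat_lit 9) (nat_lit 5))
    (@En.i (nat_lit 9230) (nat_lit 6) (nat_lit 12))
    (@En.n l61 (nat_lit 10658) (nat_lit 12) (nat_lit 9))
    (@En.n l1353 (nat_lit 10629) (nat_lit 13) (nat_lit 11))
    (@En.i (nat_lit 10676) (nat_lit 14) (nat_lit 6))
    (@En.i (nat_lit 10652) (nat_lit 13) (nat_lit 11))
    (@En.i (nat_lit 10673) (nat_lit 15) (nat_lit 3))))
noncomputable def a666 : T16 Cl := @T16.mk Cl
  (@Cl.mk (nat_lit 0x3000a000d000a00080003000b000600090006000c00050008000d00040007) (nat_lit 0x654206030704200) (nat_lit 16) Lb.e (@T16.mk En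
    (@En.n l8226 (nat_lit 5207) (nat_lit 11) (nat_lit 7))
    (@En.i (nat_lit 8426) (nat_lit 6) (nat_lit 4))
    (@En.n l5891 (nat_lit 12405) (nat_lit 0) (nat_lit 13))
    (@En.i (nat_lit 7603) (nat_lit 10) (nat_lit 8))
    (@En.i (nat_lit 2825) (nat_lit 4) (nat_lit 5))
    (@En.n l899 (nat_lit 10658) (nat_lit 11) (nat_lit 12))
    (@En.i (nat_lit 10081) (nat_lit 6) (nat_lit 6))
    (@En.n l8243 (nat_lit 6864) (nat_lit 9) (nat_lit 9))
    (@En.n l7741 (nat_lit 10661) (nat_lit 14) (nat_lit 6))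
    (@En.n l9921 (nat_lit 10653) (nat_lit 10) (nat_lit 11))
    (@En.n l1865 (nat_lit 10662) (nat_lit 10) (nat_lit 3))
    (@En.n l4758 (nat_lit 2619) (nat_lit 0) (nat_lit 8))
    (@En.n l22681 (nat_lit 6844) (nat_lit 13) (nat_lit 10))
    (@En.n l2125 (nat_lit 9579) (nat_lit 5) (nat_lit 13))
    (@En.n l24340 (nat_lit 10654) (nat_lit 3) (nat_lit 10))
    (@En.n l5801 (nat_lit 10660) (nat_lit 15) (nat_lit 3))))
  (@Cl.mk (nat_lit 0x400080007000c0005000b00080004000b000800050009000c00050008000b) (nat_lit 0x203083083028032) (nat_lit 16) Lb.e (@T16.mk En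
    (@En.i (nat_lit 11681) (nat_lit 7) (nat_lit 11))
    (@En.n l2642 (nat_lit 10021) (nat_lit 10) (nat_lit 8))
    (@En.n l38986 (nat_lit 9370) (nat_lit 9) (nat_lit 5))
    (@En.n l3039 (nat_lit 11620) (nat_lit 6) (nat_lit 12))
    (@En.n l3328 (nat_lit 2443) (nat_lit 10) (nat_lit 9))
    (@En.n l38987 (nat_lit 10642) (nat_lit 2) (nat_lit 5))
    (@En.n l601 (nat_lit 10026) (nat_lit 14) (nat_lit 8))
    (@En.n l617 (nat_lit 10652) (nat_lit 1) (nat_lit 11))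
    (@En.n l3480 (nat_lit 11977) (nat_lit 8) (nat_lit 4))
    (@En.n l38988 (nat_lit 10653) (nat_lit 0) (nat_lit 8))
    (@En.n l5646 (nat_lit 9878) (nat_lit 1) (nat_lit 11))
    (@En.n l2070 (nat_lit 8432) (nat_lit 5) (nat_lit 5))
    (@En.n l14299 (nat_lit 12443) (nat_lit 13) (nat_lit 12))
    (@En.n l28 (nat_lit 10658) (nat_lit 9) (nat_lit 7))
    (@En.n l77 (nat_lit 10675) (nat_lit 11) (nat_lit 8))
    (@En.n l34576 (nat_lit 4312) (nat_lit 15) (nat_lit 4))))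
  (@Cl.mk (nat_lit 0x3000c00060009000c00040007000c0004000b00070004000a000d00050009) (nat_lit 0x903600204007402) (nat_lit 16) Lb.e (@T16.mk En
    (@En.n l3328 (nat_lit 2618) (nat_lit 0) (nat_lit 9))
    (@En.i (nat_lit 10640) (nat_lit 6) (nat_lit 5))
    (@En.i (nat_lit 9577) (nat_lit 5) (nat_lit 13))
    (@En.n l617 (nat_lit 10655) (nat_lit 3) (nat_lit 10))
    (@En.n l3480 (nat_lit 11976) (nat_lit 4) (nat_lit 4))
    (@En.n l2642 (nat_lit 10656) (nat_lit 0) (nat_lit 7))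
    (@En.n l5646 (nat_lit 9879) (nat_lit 1) (nat_lit 11))
    (@En.n l6081 (nat_lit 8430) (nat_lit 7) (nat_lit 4))
    (@En.n l14373 (nat_lit 12412) (nat_lit 0) (nat_lit 12))
    (@En.i (nat_lit 5492) (nat_lit 11) (nat_lit 7))
    (@En.i (nat_lit 4311) (nat_lit 10) (nat_lit 4))
    (@En.i (nat_lit 11682) (nat_lit 6) (nat_lit 12))
    (@En.n l2642 (nat_lit 10014) (nat_lit 9) (nat_lit 9))
    (@En.i (nat_lit 10675) (nat_lit 14) (nat_lit 6))
    (@En.i (nat_lit 10657) (nat_lit 3) (nat_lit 12))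
    (@En.n l1080 (nat_lit 10672) (nat_lit 15) (nat_lit 3))))
  (@Cl.mk (nat_lit 0x3000b0007000b0008000b000500090005000a000500090008000d00070006) (nat_lit 0x602260607023a00) (nat_lit 16) Lb.e (@T16.mk En
    (@En.n l152 (nat_lit 7468) (nat_lit 0) (nat_lit 6))
    (@En.n l39118 (nat_lit 10651) (nat_lit 0) (nat_lit 7))
    (@En.n l39119 (nat_lit 10637) (nat_lit 2) (nat_lit 13))
    (@En.n l50 (nat_lit 10660) (nat_lit 3) (nat_lit 8))
    (@En.n l39120 (nat_lit 10664) (nat_lit 10) (nat_lit 9))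
    (@En.n l39121 (nat_lit 2832) (nat_lit 5) (nat_lit 5))
    (@En.i (nat_lit 11977) (nat_lit 0) (nat_lit 10))
    (@En.n l8776 (nat_lit 10080) (nat_lit 7) (nat_lit 5))
    (@En.n l39122 (nat_lit 10450) (nat_lit 10) (nat_lit 9))
    (@En.n l39123 (nat_lit 9372) (nat_lit 9) (nat_lit 5))
    (@En.n l39124 (nat_lit 11619) (nat_lit 7) (nat_lit 11))
    (@En.n l39125 (nat_lit 2613) (nat_lit 12) (nat_lit 8))
    (@En.n l39126 (nat_lit 6848) (nat_lit 8) (nat_lit 11))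
    (@En.n l9931 (nat_lit 10031) (nat_lit 14) (nat_lit 7))
    (@En.n l38180 (nat_lit 9840) (nat_lit 4) (nat_lit 11))
    (@En.n l39127 (nat_lit 10653) (nat_lit 15) (nat_lit 3))))
  (@Cl.mk (nat_lit 0x3000a000d000a00080003000b0006000a0006000b00050008000d00060005) (nat_lit 0x592207040902a00) (nat_lit 16) Lb.e (@T16.mk En
    (@En.n l152 (nat_lit 7465) (nat_lit 0) (nat_lit 5))
    (@En.n l21574 (nat_lit 10654) (nat_lit 6) (nat_lit 6))
    (@En.n l36926 (nat_lit 12409) (nat_lit 8) (nat_lit 13))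
    (@En.n l387 (nat_lit 7601) (nat_lit 10) (nat_lit 8))
    (@En.n l36927 (nat_lit 2827) (nat_lit 4) (nat_lit 5))
    (@En.i (nat_lit 11976) (nat_lit 11) (nat_lit 11))
    (@En.n l8776 (nat_lit 10079) (nat_lit 6) (nat_lit 6))
    (@En.n l4817 (nat_lit 10448) (nat_lit 13) (nat_lit 10))
    (@En.n l32121 (nat_lit 10664) (nat_lit 14) (nat_lit 6))
    (@En.i (nat_lit 10659) (nat_lit 10) (nat_lit 11))
    (@En.n l9866 (nat_lit 10665) (nat_lit 10) (nat_lit 3))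
    (@En.n l5777 (nat_lit 2622) (nat_lit 0) (nat_lit 8))
    (@En.n l30374 (nat_lit 6846) (nat_lit 13) (nat_lit 10))
    (@En.i (nat_lit 9417) (nat_lit 5) (nat_lit 13))
    (@En.n l2213 (nat_lit 7189) (nat_lit 3) (nat_lit 10))
    (@En.n l28285 (nat_lit 10656) (nat_lit 15) (nat_lit 3))))
  (@Cl.mk (nat_lit 0x3000600090005000c00090007000d000400070003000a0007000d000b0009) (nat_lit 0x20610900060651) (nat_lit 16) Lb.e (@T16.mk En
    (@En.n l29266 (nat_lit 2470) (nat_lit 0) (nat_lit 9))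
    (@En.n l34768 (nat_lit 9813) (nat_lit 12) (nat_lit 11))
    (@En.n l16513 (nat_lit 10656) (nat_lit 13) (nat_lit 13))
    (@En.n l18664 (nat_lit 10945) (nat_lit 14) (nat_lit 7))
    (@En.n l33208 (nat_lit 10663) (nat_lit 4) (nat_lit 10))
    (@En.n l2832 (nat_lit 10664) (nat_lit 5) (nat_lit 3))
    (@En.i (nat_lit 5211) (nat_lit 0) (nat_lit 7))
    (@En.n l34769 (nat_lit 8427) (nat_lit 7) (nat_lit 4))
    (@En.n l810 (nat_lit 12431) (nat_lit 0) (nat_lit 13))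
    (@En.n l12316 (nat_lit 5468) (nat_lit 1) (nat_lit 7))
    (@En.n l34770 (nat_lit 10132) (nat_lit 11) (nat_lit 9))
    (@En.n l9872 (nat_lit 10675) (nat_lit 12) (nat_lit 12))
    (@En.n l18664 (nat_lit 9822) (nat_lit 6) (nat_lit 5))
    (@En.i (nat_lit 7085) (nat_lit 9) (nat_lit 9))
    (@En.n l13773 (nat_lit 9367) (nat_lit 12) (nat_lit 6))
    (@En.n l50 (nat_lit 10667) (nat_lit 15) (nat_lit 3))))
  (@Cl.mk (nat_lit 0x3000a000d0007000b0003000b000600090005000c00050009000d00040007) (nat_lit 0x660206050801800) (nat_lit 16) Lb.e (@T16.mk En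
    (@En.n l1081 (nat_lit 5209) (nat_lit 11) (nat_lit 7))
    (@En.i (nat_lit 9073) (nat_lit 6) (nat_lit 4))
    (@En.i (nat_lit 12401) (nat_lit 0) (nat_lit 13))
    (@En.n l3328 (nat_lit 7617) (nat_lit 1) (nat_lit 9))
    (@En.n l117 (nat_lit 2828) (nat_lit 4) (nat_lit 5))
    (@En.n l3337 (nat_lit 10672) (nat_lit 11) (nat_lit 12))
    (@En.n l1203 (nat_lit 10085) (nat_lit 6) (nat_lit 5))
    (@En.n l2642 (nat_lit 7450) (nat_lit 9) (nat_lit 9))
    (@En.n l15957 (nat_lit 10667) (nat_lit 14) (nat_lit 6))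
    (@En.n l9182 (nat_lit 11441) (nat_lit 10) (nat_lit 11))
    (@En.n l2869 (nat_lit 10656) (nat_lit 10) (nat_lit 3))
    (@En.n l1203 (nat_lit 10972) (nat_lit 0) (nat_lit 11))
    (@En.i (nat_lit 10653) (nat_lit 13) (nat_lit 7))
    (@En.i (nat_lit 9581) (nat_lit 5) (nat_lit 13))
    (@En.i (nat_lit 10669) (nat_lit 3) (nat_lit 10))
    (@En.i (nat_lit 10665) (nat_lit 15) (nat_lit 3))))
  (@Cl.mk (nat_lit 0x30006000a00090006000c000a0008000600040007000a0006000d000a0008) (nat_lit 0x33071400050341) (nat_lit 16) Lb.e (@T16.mk En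
    (@En.n l8501 (nat_lit 2473) (nat_lit 0) (nat_lit 8))
    (@En.n l37310 (nat_lit 9812) (nat_lit 11) (nat_lit 10))
    (@En.n l33472 (nat_lit 10654) (nat_lit 2) (nat_lit 13))
    (@En.n l37311 (nat_lit 11071) (nat_lit 3) (nat_lit 6))
    (@En.n l13482 (nat_lit 9880) (nat_lit 8) (nat_lit 10))
    (@En.n l478 (nat_lit 5212) (nat_lit 11) (nat_lit 7))
    (@En.n l8498 (nat_lit 8436) (nat_lit 6) (nat_lit 4))
    (@En.n l965 (nat_lit 10681) (nat_lit 7) (nat_lit 6))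
    (@En.n l37312 (nat_lit 5465) (nat_lit 1) (nat_lit 8))
    (@En.n l1236 (nat_lit 10133) (nat_lit 10) (nat_lit 10))
    (@En.n l35515 (nat_lit 10676) (nat_lit 11) (nat_lit 12))
    (@En.n l35515 (nat_lit 9697) (nat_lit 12) (nat_lit 6))
    (@En.n l37313 (nat_lit 10661) (nat_lit 13) (nat_lit 9))
    (@En.n l32339 (nat_lit 11791) (nat_lit 9) (nat_lit 10))
    (@En.n l37314 (nat_lit 9365) (nat_lit 12) (nat_lit 6))
    (@En.n l37315 (nat_lit 10668) (nat_lit 15) (nat_lit 3))))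
  (@Cl.mk (nat_lit 0x30006000a0005000b00090007000d000600050003000a0007000d000b0009) (nat_lit 0x30310900060a31) (nat_lit 16) Lb.e (@T16.mk En
    (@En.n l21464 (nat_lit 2469) (nat_lit 0) (nat_lit 9))
    (@En.n l21465 (nat_lit 9814) (nat_lit 12) (nat_lit 11))
    (@En.n l21466 (nat_lit 10660) (nat_lit 13) (nat_lit 13))
    (@En.n l21467 (nat_lit 10947) (nat_lit 14) (nat_lit 7))
    (@En.n l17454 (nat_lit 7190) (nat_lit 4) (nat_lit 10))
    (@En.n l3519 (nat_lit 10661) (nat_lit 5) (nat_lit 3))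
    (@En.n l18 (nat_lit 7467) (nat_lit 0) (nat_lit 5))
    (@En.n l21468 (nat_lit 10663) (nat_lit 7) (nat_lit 6))
    (@En.n l117 (nat_lit 12433) (nat_lit 9) (nat_lit 13))
    (@En.n l14179 (nat_lit 7602) (nat_lit 3) (nat_lit 7))
    (@En.n l21469 (nat_lit 8877) (nat_lit 11) (nat_lit 9))
    (@En.n l21470 (nat_lit 11978) (nat_lit 12) (nat_lit 11))
    (@En.n l21471 (nat_lit 9823) (nat_lit 6) (nat_lit 5))
    (@En.n l21472 (nat_lit 10464) (nat_lit 9) (nat_lit 10))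
    (@En.n l9524 (nat_lit 9371) (nat_lit 12) (nat_lit 6))
    (@En.n l28 (nat_lit 10666) (nat_lit 15) (nat_lit 3))))
  (@Cl.mk (nat_lit 0x3000a000d0007000b0003000b0006000a0005000b00050009000d00060005) (nat_lit 0x590508040801900) (nat_lit 16) Lb.e (@T16.mk En
    (@En.n l10203 (nat_lit 7463) (nat_lit 0) (nat_lit 5))
    (@En.n l77 (nat_lit 10669) (nat_lit 6) (nat_lit 6))
    (@En.i (nat_lit 12403) (nat_lit 6) (nat_lit 13))
    (@En.n l38216 (nat_lit 7614) (nat_lit 10) (nat_lit 9))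
    (@En.n l17687 (nat_lit 3409) (nat_lit 4) (nat_lit 5))
    (@En.n l9102 (nat_lit 10677) (nat_lit 11) (nat_lit 11))
    (@En.n l1203 (nat_lit 10084) (nat_lit 6) (nat_lit 5))
    (@En.n l4427 (nat_lit 10447) (nat_lit 13) (nat_lit 10))
    (@En.n l38217 (nat_lit 10666) (nat_lit 14) (nat_lit 6))
    (@En.n l38218 (nat_lit 11442) (nat_lit 10) (nat_lit 11))
    (@En.n l16997 (nat_lit 10660) (nat_lit 10) (nat_lit 3))
    (@En.n l1203 (nat_lit 7482) (nat_lit 0) (nat_lit 11))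
    (@En.n l38219 (nat_lit 10659) (nat_lit 13) (nat_lit 7))
    (@En.n l9102 (nat_lit 9416) (nat_lit 5) (nat_lit 13))
    (@En.n l17092 (nat_lit 9884) (nat_lit 3) (nat_lit 10))
    (@En.n l28 (nat_lit 10662) (nat_lit 15) (nat_lit 3))))
  (@Cl.mk (nat_lit 0x30006000a0004000b00090008000d000600050003000a0007000d0008000c) (nat_lit 0x50711300060a16) (nat_lit 16) Lb.e (@T16.mk En
    (@En.n l9970 (nat_lit 7483) (nat_lit 0) (nat_lit 12))
    (@En.i (nat_lit 9372) (nat_lit 12) (nat_lit 8))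
    (@En.n l37321 (nat_lit 10665) (nat_lit 13) (nat_lit 13))
    (@En.n l37322 (nat_lit 10948) (nat_lit 14) (nat_lit 7))
    (@En.i (nat_lit 9883) (nat_lit 4) (nat_lit 10))
    (@En.n l3519 (nat_lit 10667) (nat_lit 5) (nat_lit 3))
    (@En.n l18 (nat_lit 7464) (nat_lit 0) (nat_lit 5))
    (@En.n l10577 (nat_lit 10668) (nat_lit 7) (nat_lit 6))
    (@En.n l117 (nat_lit 11822) (nat_lit 9) (nat_lit 13))
    (@En.n l8015 (nat_lit 7613) (nat_lit 3) (nat_lit 8))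
    (@En.n l61 (nat_lit 9794) (nat_lit 11) (nat_lit 9))
    (@En.n l25258 (nat_lit 10674) (nat_lit 12) (nat_lit 11))
    (@En.i (nat_lit 10086) (nat_lit 6) (nat_lit 4))
    (@En.n l3517 (nat_lit 10461) (nat_lit 9) (nat_lit 10))
    (@En.i (nat_lit 6578) (nat_lit 12) (nat_lit 6))
    (@En.i (nat_lit 10664) (nat_lit 15) (nat_lit 3))))
  (@Cl.mk (nat_lit 0x3000600090004000c00090008000d000400070003000a0007000d0008000c) (nat_lit 0x40811700060718) (nat_lit 16) Lb.e (@T16.mk En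
    (@En.n l1357 (nat_lit 10976) (nat_lit 0) (nat_lit 12))
    (@En.i (nat_lit 9369) (nat_lit 12) (nat_lit 8))
    (@En.n l11835 (nat_lit 10662) (nat_lit 13) (nat_lit 13))
    (@En.n l810 (nat_lit 10946) (nat_lit 14) (nat_lit 7))
    (@En.i (nat_lit 10668) (nat_lit 4) (nat_lit 10))
    (@En.n l2832 (nat_lit 10666) (nat_lit 5) (nat_lit 3))
    (@En.i (nat_lit 5213) (nat_lit 0) (nat_lit 7))
    (@En.n l2604 (nat_lit 9078) (nat_lit 7) (nat_lit 4))
    (@En.n l810 (nat_lit 11824) (nat_lit 0) (nat_lit 13))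
    (@En.n l77 (nat_lit 7616) (nat_lit 1) (nat_lit 8))
    (@En.n l1357 (nat_lit 9792) (nat_lit 11) (nat_lit 9))
    (@En.i (nat_lit 10671) (nat_lit 12) (nat_lit 12))
    (@En.i (nat_lit 10087) (nat_lit 6) (nat_lit 4))
    (@En.i (nat_lit 7083) (nat_lit 9) (nat_lit 9))
    (@En.i (nat_lit 6579) (nat_lit 12) (nat_lit 6))
    (@En.i (nat_lit 10661) (nat_lit 15) (nat_lit 3))))
  (@Cl.mk (nat_lit 0x30006000a00090005000c000a0009000600040007000a0006000d0007000b) (nat_lit 0x65031100050302) (nat_lit 16) Lb.e (@T16.mk En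
    (@En.n l23847 (nat_lit 10975) (nat_lit 0) (nat_lit 11))
    (@En.n l33208 (nat_lit 9368) (nat_lit 11) (nat_lit 7))
    (@En.n l11835 (nat_lit 10669) (nat_lit 2) (nat_lit 13))
    (@En.n l2611 (nat_lit 11070) (nat_lit 3) (nat_lit 6))
    (@En.n l23850 (nat_lit 9882) (nat_lit 8) (nat_lit 10))
    (@En.n l13141 (nat_lit 5214) (nat_lit 11) (nat_lit 7))
    (@En.n l23850 (nat_lit 9074) (nat_lit 6) (nat_lit 4))
    (@En.n l1517 (nat_lit 10686) (nat_lit 7) (nat_lit 6))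
    (@En.n l77 (nat_lit 7622) (nat_lit 1) (nat_lit 9))
    (@En.n l18557 (nat_lit 9793) (nat_lit 10) (nat_lit 10))
    (@En.i (nat_lit 10670) (nat_lit 11) (nat_lit 12))
    (@En.n l20092 (nat_lit 11779) (nat_lit 12) (nat_lit 5))
    (@En.n l11 (nat_lit 10667) (nat_lit 13) (nat_lit 9))
    (@En.n l159 (nat_lit 11792) (nat_lit 9) (nat_lit 10))
    (@En.n l21137 (nat_lit 6581) (nat_lit 12) (nat_lit 6))
    (@En.n l33208 (nat_lit 10663) (nat_lit 15) (nat_lit 3))))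
  (@Cl.mk (nat_lit 0x3000a0006000a00090006000c0006000a000600040007000a000d0006000a) (nat_lit 0x704603010005202) (nat_lit 16) Lb.e (@T16.mk En
    (@En.n l1203 (nat_lit 10973) (nat_lit 0) (nat_lit 10))
    (@En.i (nat_lit 10651) (nat_lit 12) (nat_lit 6))
    (@En.n l7 (nat_lit 9828) (nat_lit 5) (nat_lit 13))
    (@En.n l38238 (nat_lit 9881) (nat_lit 8) (nat_lit 10))
    (@En.n l41942 (nat_lit 5210) (nat_lit 11) (nat_lit 7))
    (@En.n l38238 (nat_lit 9070) (nat_lit 5) (nat_lit 4))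
    (@En.i (nat_lit 10680) (nat_lit 0) (nat_lit 6))
    (@En.n l3328 (nat_lit 7623) (nat_lit 1) (nat_lit 10))
    (@En.n l117 (nat_lit 2834) (nat_lit 8) (nat_lit 6))
    (@En.n l41943 (nat_lit 10673) (nat_lit 10) (nat_lit 12))
    (@En.n l41943 (nat_lit 11780) (nat_lit 11) (nat_lit 6))
    (@En.n l7 (nat_lit 10662) (nat_lit 7) (nat_lit 9))
    (@En.n l41944 (nat_lit 10627) (nat_lit 13) (nat_lit 10))
    (@En.n l15957 (nat_lit 10668) (nat_lit 14) (nat_lit 6))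
    (@En.n l9182 (nat_lit 11443) (nat_lit 9) (nat_lit 10))
    (@En.n l36808 (nat_lit 10654) (nat_lit 15) (nat_lit 3))))
  (@Cl.mk (nat_lit 0x30006000b0009000c0009000800050004000a0007000a0007000d00080006) (nat_lit 0x65201003060710) (nat_lit 16) Lb.e (@T16.mk En
    (@En.n l31229 (nat_lit 12811) (nat_lit 0) (nat_lit 6))
    (@En.n l31230 (nat_lit 9364) (nat_lit 0) (nat_lit 8))
    (@En.n l31231 (nat_lit 10673) (nat_lit 2) (nat_lit 13))
    (@En.n l31231 (nat_lit 11073) (nat_lit 3) (nat_lit 7))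
    (@En.n l19478 (nat_lit 7524) (nat_lit 8) (nat_lit 10))
    (@En.n l17 (nat_lit 10668) (nat_lit 5) (nat_lit 7))
    (@En.i (nat_lit 9956) (nat_lit 7) (nat_lit 10))
    (@En.n l19478 (nat_lit 9076) (nat_lit 7) (nat_lit 4))
    (@En.n l25822 (nat_lit 10688) (nat_lit 8) (nat_lit 5))
    (@En.n l31232 (nat_lit 8253) (nat_lit 8) (nat_lit 8))
    (@En.n l31233 (nat_lit 10712) (nat_lit 11) (nat_lit 9))
    (@En.n l31234 (nat_lit 6378) (nat_lit 6) (nat_lit 12))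
    (@En.n l11 (nat_lit 10671) (nat_lit 13) (nat_lit 9))
    (@En.n l159 (nat_lit 11790) (nat_lit 14) (nat_lit 11))
    (@En.n l19479 (nat_lit 5169) (nat_lit 12) (nat_lit 6))
    (@En.n l31235 (nat_lit 10676) (nat_lit 15) (nat_lit 3))))
  (@Cl.mk (nat_lit 0x300060009000c00080007000c0004000900070004000a0008000d00090007) (nat_lit 0x47004030074510) (nat_lit 16) Lb.e (@T16.mk En
    (@En.n l2286 (nat_lit 12814) (nat_lit 0) (nat_lit 7))
    (@En.i (nat_lit 9370) (nat_lit 12) (nat_lit 9))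
    (@En.n l16554 (nat_lit 10672) (nat_lit 2) (nat_lit 13))
    (@En.n l13103 (nat_lit 10951) (nat_lit 3) (nat_lit 8))
    (@En.i (nat_lit 10670) (nat_lit 4) (nat_lit 10))
    (@En.n l1246 (nat_lit 10674) (nat_lit 5) (nat_lit 4))
    (@En.n l17 (nat_lit 10667) (nat_lit 6) (nat_lit 7))
    (@En.i (nat_lit 9954) (nat_lit 1) (nat_lit 9))
    (@En.n l2604 (nat_lit 9077) (nat_lit 8) (nat_lit 4))
    (@En.n l810 (nat_lit 12428) (nat_lit 10) (nat_lit 12))
    (@En.n l77 (nat_lit 12149) (nat_lit 9) (nat_lit 7))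
    (@En.n l37191 (nat_lit 10713) (nat_lit 12) (nat_lit 8))
    (@En.n l19421 (nat_lit 12231) (nat_lit 6) (nat_lit 12))
    (@En.i (nat_lit 7086) (nat_lit 9) (nat_lit 9))
    (@En.n l7826 (nat_lit 6580) (nat_lit 12) (nat_lit 6))
    (@En.n l9872 (nat_lit 10675) (nat_lit 15) (nat_lit 3))))
noncomputable def a667 : T16 Cl := @T16.mk Cl
  (@Cl.mk (nat_lit 0x3000c00060009000c00040008000c0004000a00070004000a000d00080006) (nat_lit 0x905702303007440) (nat_lit 16) Lb.e (@T16.mk En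
    (@En.n l5588 (nat_lit 12813) (nat_lit 0) (nat_lit 6))
    (@En.n l1767 (nat_lit 10657) (nat_lit 6) (nat_lit 8))
    (@En.n l3530 (nat_lit 9578) (nat_lit 5) (nat_lit 13))
    (@En.n l13941 (nat_lit 10673) (nat_lit 3) (nat_lit 10))
    (@En.n l15535 (nat_lit 10677) (nat_lit 4) (nat_lit 4))
    (@En.n l1867 (nat_lit 10662) (nat_lit 0) (nat_lit 7))
    (@En.n l19886 (nat_lit 9952) (nat_lit 1) (nat_lit 10))
    (@En.n l22927 (nat_lit 9075) (nat_lit 7) (nat_lit 4))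
    (@En.n l1897 (nat_lit 12406) (nat_lit 7) (nat_lit 12))
    (@En.i (nat_lit 12150) (nat_lit 11) (nat_lit 8))
    (@En.n l34688 (nat_lit 4310) (nat_lit 10) (nat_lit 4))
    (@En.n l3530 (nat_lit 11684) (nat_lit 6) (nat_lit 12))
    (@En.n l29596 (nat_lit 10010) (nat_lit 9) (nat_lit 9))
    (@En.n l12583 (nat_lit 10671) (nat_lit 14) (nat_lit 6))
    (@En.i (nat_lit 11444) (nat_lit 3) (nat_lit 12))
    (@En.n l4659 (nat_lit 10658) (nat_lit 15) (nat_lit 3))))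
  (@Cl.mk (nat_lit 0x3000b0006000b0009000c0005000900050004000b0007000a000d00070005) (nat_lit 0x804620100306600) (nat_lit 16) Lb.e (@T16.mk En
    (@En.n l10756 (nat_lit 12812) (nat_lit 0) (nat_lit 5))
    (@En.n l55 (nat_lit 10652) (nat_lit 0) (nat_lit 7))
    (@En.i (nat_lit 9827) (nat_lit 5) (nat_lit 13))
    (@En.n l19237 (nat_lit 7527) (nat_lit 8) (nat_lit 10))
    (@En.n l29581 (nat_lit 10669) (nat_lit 4) (nat_lit 7))
    (@En.n l2940 (nat_lit 9955) (nat_lit 6) (nat_lit 11))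
    (@En.n l19237 (nat_lit 9072) (nat_lit 12) (nat_lit 4))
    (@En.n l18 (nat_lit 10687) (nat_lit 7) (nat_lit 5))
    (@En.n l2943 (nat_lit 8254) (nat_lit 10) (nat_lit 9))
    (@En.n l29582 (nat_lit 4315) (nat_lit 9) (nat_lit 5))
    (@En.i (nat_lit 9240) (nat_lit 6) (nat_lit 12))
    (@En.n l6277 (nat_lit 10672) (nat_lit 12) (nat_lit 9))
    (@En.n l29583 (nat_lit 10631) (nat_lit 13) (nat_lit 11))
    (@En.n l29584 (nat_lit 10670) (nat_lit 14) (nat_lit 6))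
    (@En.n l29585 (nat_lit 11446) (nat_lit 4) (nat_lit 11))
    (@En.n l11 (nat_lit 10655) (nat_lit 15) (nat_lit 3))))
  (@Cl.mk (nat_lit 0x30006000b000b00080007000c00050005000a0004000a0008000d00090006) (nat_lit 0x46307003075210) (nat_lit 16) Lb.e (@T16.mk En
    (@En.n l35674 (nat_lit 11557) (nat_lit 0) (nat_lit 6))
    (@En.n l35675 (nat_lit 7574) (nat_lit 12) (nat_lit 9))
    (@En.n l1850 (nat_lit 10677) (nat_lit 2) (nat_lit 13))
    (@En.n l7694 (nat_lit 11966) (nat_lit 3) (nat_lit 8))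
    (@En.n l35676 (nat_lit 6296) (nat_lit 4) (nat_lit 10))
    (@En.n l13865 (nat_lit 12159) (nat_lit 5) (nat_lit 4))
    (@En.n l35677 (nat_lit 9953) (nat_lit 0) (nat_lit 10))
    (@En.n l35678 (nat_lit 11979) (nat_lit 11) (nat_lit 5))
    (@En.n l35679 (nat_lit 10670) (nat_lit 8) (nat_lit 5))
    (@En.i (nat_lit 12584) (nat_lit 10) (nat_lit 12))
    (@En.n l35680 (nat_lit 12153) (nat_lit 9) (nat_lit 7))
    (@En.n l35681 (nat_lit 10701) (nat_lit 12) (nat_lit 8))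
    (@En.n l21753 (nat_lit 11962) (nat_lit 5) (nat_lit 11))
    (@En.n l10179 (nat_lit 11987) (nat_lit 14) (nat_lit 11))
    (@En.n l35682 (nat_lit 6448) (nat_lit 12) (nat_lit 6))
    (@En.n l35683 (nat_lit 11978) (nat_lit 15) (nat_lit 3))))
  (@Cl.mk (nat_lit 0x300060009000c00080006000c0004000a00070004000a0008000d0006000a) (nat_lit 0x25102060074503) (nat_lit 16) Lb.e (@T16.mk En
    (@En.n l21319 (nat_lit 2466) (nat_lit 0) (nat_lit 10))
    (@En.n l20356 (nat_lit 11092) (nat_lit 8) (nat_lit 6))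
    (@En.n l7 (nat_lit 10658) (nat_lit 2) (nat_lit 13))
    (@En.n l644 (nat_lit 10950) (nat_lit 3) (nat_lit 8))
    (@En.n l617 (nat_lit 10676) (nat_lit 4) (nat_lit 10))
    (@En.n l3480 (nat_lit 11978) (nat_lit 5) (nat_lit 4))
    (@En.n l21320 (nat_lit 10661) (nat_lit 6) (nat_lit 7))
    (@En.n l5646 (nat_lit 9804) (nat_lit 1) (nat_lit 10))
    (@En.n l6081 (nat_lit 8429) (nat_lit 8) (nat_lit 4))
    (@En.n l21321 (nat_lit 12429) (nat_lit 10) (nat_lit 12))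
    (@En.n l3100 (nat_lit 5488) (nat_lit 1) (nat_lit 6))
    (@En.n l21322 (nat_lit 10409) (nat_lit 12) (nat_lit 8))
    (@En.i (nat_lit 12260) (nat_lit 6) (nat_lit 12))
    (@En.n l20356 (nat_lit 7090) (nat_lit 9) (nat_lit 9))
    (@En.n l8434 (nat_lit 9366) (nat_lit 12) (nat_lit 6))
    (@En.n l8089 (nat_lit 10671) (nat_lit 15) (nat_lit 3))))
  (@Cl.mk (nat_lit 0x30006000b0009000c0009000700050004000b0007000a0007000d00050009) (nat_lit 0x63610004060601) (nat_lit 16) Lb.e (@T16.mk En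
    (@En.n l892 (nat_lit 2467) (nat_lit 0) (nat_lit 9))
    (@En.n l14311 (nat_lit 11096) (nat_lit 9) (nat_lit 5))
    (@En.n l7 (nat_lit 10655) (nat_lit 2) (nat_lit 13))
    (@En.n l7 (nat_lit 11072) (nat_lit 3) (nat_lit 7))
    (@En.n l6272 (nat_lit 7525) (nat_lit 8) (nat_lit 10))
    (@En.n l35634 (nat_lit 10663) (nat_lit 5) (nat_lit 7))
    (@En.n l35635 (nat_lit 9805) (nat_lit 7) (nat_lit 11))
    (@En.n l28265 (nat_lit 8434) (nat_lit 7) (nat_lit 4))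
    (@En.n l35636 (nat_lit 10684) (nat_lit 8) (nat_lit 5))
    (@En.n l28266 (nat_lit 5486) (nat_lit 1) (nat_lit 7))
    (@En.n l35637 (nat_lit 10408) (nat_lit 11) (nat_lit 9))
    (@En.i (nat_lit 6379) (nat_lit 6) (nat_lit 12))
    (@En.n l61 (nat_lit 10675) (nat_lit 13) (nat_lit 9))
    (@En.n l35637 (nat_lit 11789) (nat_lit 14) (nat_lit 11))
    (@En.n l8434 (nat_lit 9363) (nat_lit 12) (nat_lit 6))
    (@En.n l29584 (nat_lit 10670) (nat_lit 15) (nat_lit 3))))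
  (@Cl.mk (nat_lit 0x3000c0006000b000b00040008000c00050005000b0004000a000d00080005) (nat_lit 0x805702800307130) (nat_lit 16) Lb.e (@T16.mk En
    (@En.n l31877 (nat_lit 12087) (nat_lit 0) (nat_lit 5))
    (@En.n l644 (nat_lit 11977) (nat_lit 6) (nat_lit 8))
    (@En.i (nat_lit 2554) (nat_lit 5) (nat_lit 13))
    (@En.n l7441 (nat_lit 6297) (nat_lit 3) (nat_lit 10))
    (@En.n l9451 (nat_lit 12160) (nat_lit 4) (nat_lit 4))
    (@En.n l16798 (nat_lit 9951) (nat_lit 0) (nat_lit 11))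
    (@En.n l152 (nat_lit 11974) (nat_lit 11) (nat_lit 5))
    (@En.n l3851 (nat_lit 10673) (nat_lit 7) (nat_lit 5))
    (@En.n l16798 (nat_lit 12582) (nat_lit 7) (nat_lit 12))
    (@En.n l1208 (nat_lit 12152) (nat_lit 11) (nat_lit 8))
    (@En.n l16798 (nat_lit 11108) (nat_lit 10) (nat_lit 4))
    (@En.n l3536 (nat_lit 11960) (nat_lit 5) (nat_lit 11))
    (@En.n l12433 (nat_lit 11102) (nat_lit 1) (nat_lit 11))
    (@En.n l9068 (nat_lit 10674) (nat_lit 14) (nat_lit 6))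
    (@En.i (nat_lit 11404) (nat_lit 3) (nat_lit 12))
    (@En.n l7 (nat_lit 11976) (nat_lit 15) (nat_lit 3))))
  (@Cl.mk (nat_lit 0x40007000b00050009000c000900050009000400090007000c0007000b0007) (nat_lit 0x30314040604050) (nat_lit 16) Lb.e (@T16.mk En
    (@En.n l29540 (nat_lit 11871) (nat_lit 0) (nat_lit 7))
    (@En.n l36229 (nat_lit 10681) (nat_lit 8) (nat_lit 11))
    (@En.n l35645 (nat_lit 9919) (nat_lit 5) (nat_lit 7))
    (@En.n l36230 (nat_lit 10532) (nat_lit 13) (nat_lit 12))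
    (@En.n l17 (nat_lit 10645) (nat_lit 14) (nat_lit 7))
    (@En.n l36231 (nat_lit 10481) (nat_lit 5) (nat_lit 9))
    (@En.n l36232 (nat_lit 9694) (nat_lit 6) (nat_lit 4))
    (@En.i (nat_lit 10648) (nat_lit 10) (nat_lit 9))
    (@En.n l36233 (nat_lit 9896) (nat_lit 1) (nat_lit 5))
    (@En.n l36234 (nat_lit 9719) (nat_lit 0) (nat_lit 9))
    (@En.n l36233 (nat_lit 6779) (nat_lit 6) (nat_lit 12))
    (@En.n l14299 (nat_lit 10622) (nat_lit 10) (nat_lit 9))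
    (@En.n l36235 (nat_lit 6280) (nat_lit 5) (nat_lit 5))
    (@En.n l36236 (nat_lit 10306) (nat_lit 8) (nat_lit 11))
    (@En.n l36237 (nat_lit 11590) (nat_lit 11) (nat_lit 7))
    (@En.n l36238 (nat_lit 9786) (nat_lit 15) (nat_lit 4))))
  (@Cl.mk (nat_lit 0x30006000a000d0008000b000300090006000a0005000a0008000d00070006) (nat_lit 0x32230506035300) (nat_lit 16) Lb.e (@T16.mk En
    (@En.i (nat_lit 7452) (nat_lit 0) (nat_lit 6))
    (@En.n l20720 (nat_lit 12051) (nat_lit 7) (nat_lit 7))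
    (@En.n l3 (nat_lit 10682) (nat_lit 9) (nat_lit 13))
    (@En.n l3 (nat_lit 10683) (nat_lit 3) (nat_lit 8))
    (@En.n l20721 (nat_lit 10689) (nat_lit 4) (nat_lit 10))
    (@En.n l17723 (nat_lit 9690) (nat_lit 5) (nat_lit 5))
    (@En.n l20722 (nat_lit 12447) (nat_lit 13) (nat_lit 10))
    (@En.n l20723 (nat_lit 10681) (nat_lit 14) (nat_lit 6))
    (@En.n l20724 (nat_lit 10678) (nat_lit 9) (nat_lit 9))
    (@En.n l20725 (nat_lit 10680) (nat_lit 9) (nat_lit 3))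
    (@En.n l20726 (nat_lit 6776) (nat_lit 0) (nat_lit 11))
    (@En.n l20727 (nat_lit 10623) (nat_lit 12) (nat_lit 8))
    (@En.i (nat_lit 1547) (nat_lit 5) (nat_lit 13))
    (@En.n l3105 (nat_lit 10894) (nat_lit 3) (nat_lit 10))
    (@En.n l3106 (nat_lit 11596) (nat_lit 12) (nat_lit 6))
    (@En.n l20728 (nat_lit 9679) (nat_lit 15) (nat_lit 3))))
  (@Cl.mk (nat_lit 0x30006000a000d000a0009000300090006000a0006000a0007000d00070006) (nat_lit 0x31230504030400) (nat_lit 16) Lb.e (@T16.mk En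
    (@En.n l36327 (nat_lit 12162) (nat_lit 0) (nat_lit 6))
    (@En.n l36328 (nat_lit 12053) (nat_lit 7) (nat_lit 7))
    (@En.n l31881 (nat_lit 10687) (nat_lit 9) (nat_lit 13))
    (@En.n l36329 (nat_lit 11877) (nat_lit 3) (nat_lit 7))
    (@En.n l7 (nat_lit 12437) (nat_lit 4) (nat_lit 10))
    (@En.i (nat_lit 10507) (nat_lit 5) (nat_lit 6))
    (@En.n l7509 (nat_lit 12445) (nat_lit 13) (nat_lit 10))
    (@En.n l36330 (nat_lit 10686) (nat_lit 14) (nat_lit 6))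
    (@En.n l36331 (nat_lit 11084) (nat_lit 9) (nat_lit 9))
    (@En.n l24115 (nat_lit 10679) (nat_lit 9) (nat_lit 3))
    (@En.n l4242 (nat_lit 11678) (nat_lit 0) (nat_lit 9))
    (@En.n l16669 (nat_lit 11871) (nat_lit 12) (nat_lit 10))
    (@En.n l7 (nat_lit 1542) (nat_lit 5) (nat_lit 13))
    (@En.n l11501 (nat_lit 12026) (nat_lit 3) (nat_lit 10))
    (@En.n l7506 (nat_lit 12221) (nat_lit 12) (nat_lit 6))
    (@En.n l36332 (nat_lit 10648) (nat_lit 15) (nat_lit 3))))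
  (@Cl.mk (nat_lit 0x30006000a0004000a0007000d000b000600030006000a0005000d0009000c) (nat_lit 0x70103400080336) (nat_lit 16) Lb.e (@T16.mk En
    (@En.n l10179 (nat_lit 6778) (nat_lit 0) (nat_lit 12))
    (@En.n l10180 (nat_lit 10635) (nat_lit 11) (nat_lit 9))
    (@En.n l8774 (nat_lit 10679) (nat_lit 12) (nat_lit 13))
    (@En.i (nat_lit 11121) (nat_lit 3) (nat_lit 5))
    (@En.n l10181 (nat_lit 10257) (nat_lit 4) (nat_lit 10))
    (@En.n l10182 (nat_lit 11598) (nat_lit 12) (nat_lit 6))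
    (@En.n l8776 (nat_lit 9682) (nat_lit 15) (nat_lit 3))
    (@En.n l8777 (nat_lit 10047) (nat_lit 0) (nat_lit 6))
    (@En.n l8780 (nat_lit 11814) (nat_lit 9) (nat_lit 11))
    (@En.i (nat_lit 10684) (nat_lit 10) (nat_lit 13))
    (@En.n l1769 (nat_lit 10685) (nat_lit 3) (nat_lit 7))
    (@En.n l10183 (nat_lit 39) (nat_lit 4) (nat_lit 10))
    (@En.n l10179 (nat_lit 9689) (nat_lit 5) (nat_lit 4))
    (@En.n l8780 (nat_lit 10690) (nat_lit 9) (nat_lit 10))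
    (@En.n l10181 (nat_lit 9899) (nat_lit 12) (nat_lit 6))
    (@En.n l10184 (nat_lit 10686) (nat_lit 15) (nat_lit 3))))
  (@Cl.mk (nat_lit 0x3000a0006000b0005000a000d000600050003000c0006000a000d0004000b) (nat_lit 0x505012000508201) (nat_lit 16) Lb.e (@T16.mk En
    (@En.n l253 (nat_lit 2536) (nat_lit 0) (nat_lit 11))
    (@En.i (nat_lit 10637) (nat_lit 10) (nat_lit 4))
    (@En.i (nat_lit 1548) (nat_lit 5) (nat_lit 13))
    (@En.n l781 (nat_lit 10146) (nat_lit 3) (nat_lit 10))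
    (@En.i (nat_lit 10679) (nat_lit 14) (nat_lit 6))
    (@En.n l2125 (nat_lit 10641) (nat_lit 3) (nat_lit 12))
    (@En.n l18062 (nat_lit 9681) (nat_lit 6) (nat_lit 3))
    (@En.i (nat_lit 11959) (nat_lit 0) (nat_lit 5))
    (@En.i (nat_lit 10477) (nat_lit 8) (nat_lit 6))
    (@En.i (nat_lit 12426) (nat_lit 5) (nat_lit 13))
    (@En.n l28628 (nat_lit 26) (nat_lit 3) (nat_lit 10))
    (@En.n l217 (nat_lit 8771) (nat_lit 4) (nat_lit 5))
    (@En.n l5856 (nat_lit 12446) (nat_lit 13) (nat_lit 11))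
    (@En.n l8433 (nat_lit 10684) (nat_lit 14) (nat_lit 6))
    (@En.i (nat_lit 10532) (nat_lit 2) (nat_lit 10))
    (@En.i (nat_lit 10687) (nat_lit 15) (nat_lit 3))))
  (@Cl.mk (nat_lit 0x3000c0009000c00080004000b0004000a0007000b00050008000d00060005) (nat_lit 0x642304020604500) (nat_lit 16) Lb.e (@T16.mk En
    (@En.i (nat_lit 12172) (nat_lit 0) (nat_lit 5))
    (@En.n l36787 (nat_lit 12050) (nat_lit 0) (nat_lit 6))
    (@En.i (nat_lit 12203) (nat_lit 2) (nat_lit 13))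
    (@En.n l20734 (nat_lit 12731) (nat_lit 10) (nat_lit 8))
    (@En.n l217 (nat_lit 9688) (nat_lit 4) (nat_lit 5))
    (@En.n l20734 (nat_lit 12448) (nat_lit 8) (nat_lit 11))
    (@En.n l9143 (nat_lit 10685) (nat_lit 6) (nat_lit 7))
    (@En.n l20737 (nat_lit 10645) (nat_lit 2) (nat_lit 10))
    (@En.n l5306 (nat_lit 11877) (nat_lit 8) (nat_lit 4))
    (@En.n l1690 (nat_lit 10679) (nat_lit 10) (nat_lit 11))
    (@En.n l152 (nat_lit 10682) (nat_lit 1) (nat_lit 4))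
    (@En.n l20739 (nat_lit 10624) (nat_lit 0) (nat_lit 8))
    (@En.i (nat_lit 1549) (nat_lit 6) (nat_lit 12))
    (@En.n l31181 (nat_lit 10896) (nat_lit 14) (nat_lit 9))
    (@En.n l630 (nat_lit 10652) (nat_lit 3) (nat_lit 12))
    (@En.n l36788 (nat_lit 9678) (nat_lit 15) (nat_lit 3))))
  (@Cl.mk (nat_lit 0x30006000b0004000a000d000a00050003000b0006000a0006000d0005000c) (nat_lit 0x40623005010301) (nat_lit 16) Lb.e (@T16.mk En
    (@En.n l21653 (nat_lit 2537) (nat_lit 0) (nat_lit 12))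
    (@En.n l1236 (nat_lit 11846) (nat_lit 9) (nat_lit 5))
    (@En.n l9178 (nat_lit 10682) (nat_lit 2) (nat_lit 13))
    (@En.i (nat_lit 11123) (nat_lit 3) (nat_lit 6))
    (@En.n l9715 (nat_lit 4327) (nat_lit 4) (nat_lit 10))
    (@En.n l936 (nat_lit 10681) (nat_lit 5) (nat_lit 6))
    (@En.i (nat_lit 10642) (nat_lit 7) (nat_lit 11))
    (@En.n l3536 (nat_lit 9683) (nat_lit 7) (nat_lit 3))
    (@En.n l9176 (nat_lit 11961) (nat_lit 0) (nat_lit 5))
    (@En.n l8780 (nat_lit 11813) (nat_lit 10) (nat_lit 10))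
    (@En.n l9176 (nat_lit 11895) (nat_lit 5) (nat_lit 13))
    (@En.n l18 (nat_lit 10689) (nat_lit 12) (nat_lit 10))
    (@En.i (nat_lit 8772) (nat_lit 4) (nat_lit 4))
    (@En.n l8780 (nat_lit 10771) (nat_lit 0) (nat_lit 11))
    (@En.n l6784 (nat_lit 9898) (nat_lit 12) (nat_lit 6))
    (@En.i (nat_lit 10688) (nat_lit 15) (nat_lit 3))))
  (@Cl.mk (nat_lit 0x3000b00090005000c00090005000c00040007000b00040007000d000b0005) (nat_lit 0x940340700100230) (nat_lit 16) Lb.e (@T16.mk En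
    (@En.n l10427 (nat_lit 10041) (nat_lit 0) (nat_lit 5))
    (@En.n l23463 (nat_lit 11815) (nat_lit 13) (nat_lit 11))
    (@En.n l23464 (nat_lit 11892) (nat_lit 2) (nat_lit 13))
    (@En.n l23465 (nat_lit 11907) (nat_lit 11) (nat_lit 7))
    (@En.n l18185 (nat_lit 9687) (nat_lit 4) (nat_lit 4))
    (@En.n l23466 (nat_lit 43) (nat_lit 0) (nat_lit 11))
    (@En.n l10430 (nat_lit 9900) (nat_lit 11) (nat_lit 7))
    (@En.n l23467 (nat_lit 11879) (nat_lit 7) (nat_lit 4))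
    (@En.n l2941 (nat_lit 10681) (nat_lit 0) (nat_lit 12))
    (@En.i (nat_lit 10684) (nat_lit 1) (nat_lit 5))
    (@En.n l23468 (nat_lit 10634) (nat_lit 11) (nat_lit 9))
    (@En.n l10433 (nat_lit 10683) (nat_lit 12) (nat_lit 12))
    (@En.i (nat_lit 11122) (nat_lit 7) (nat_lit 5))
    (@En.n l9715 (nat_lit 10897) (nat_lit 14) (nat_lit 9))
    (@En.n l23466 (nat_lit 10657) (nat_lit 10) (nat_lit 11))
    (@En.n l18752 (nat_lit 9680) (nat_lit 15) (nat_lit 3))))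
  (@Cl.mk (nat_lit 0x30006000a0005000a0006000d000b000600030006000a0005000d000b000a) (nat_lit 0x30504600040235) (nat_lit 16) Lb.e (@T16.mk En
    (@En.n l575 (nat_lit 11685) (nat_lit 0) (nat_lit 10))
    (@En.n l10775 (nat_lit 11885) (nat_lit 11) (nat_lit 11))
    (@En.n l20748 (nat_lit 10680) (nat_lit 12) (nat_lit 13))
    (@En.n l3348 (nat_lit 12344) (nat_lit 3) (nat_lit 5))
    (@En.n l14301 (nat_lit 12025) (nat_lit 4) (nat_lit 10))
    (@En.i (nat_lit 12223) (nat_lit 12) (nat_lit 6))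
    (@En.n l50 (nat_lit 10646) (nat_lit 15) (nat_lit 3))
    (@En.n l1366 (nat_lit 12132) (nat_lit 0) (nat_lit 6))
    (@En.i (nat_lit 10638) (nat_lit 9) (nat_lit 11))
    (@En.n l17914 (nat_lit 10688) (nat_lit 10) (nat_lit 13))
    (@En.n l7944 (nat_lit 11879) (nat_lit 3) (nat_lit 6))
    (@En.n l23479 (nat_lit 12439) (nat_lit 12) (nat_lit 10))
    (@En.n l117 (nat_lit 11864) (nat_lit 5) (nat_lit 5))
    (@En.n l2039 (nat_lit 10770) (nat_lit 9) (nat_lit 10))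
    (@En.i (nat_lit 11176) (nat_lit 12) (nat_lit 6))
    (@En.n l3620 (nat_lit 10681) (nat_lit 15) (nat_lit 3))))
  (@Cl.mk (nat_lit 0x3000a0006000b0006000a000d000600050003000b0006000a000d000a0005) (nat_lit 0x504033000504220) (nat_lit 16) Lb.e (@T16.mk En
    (@En.n l3477 (nat_lit 11702) (nat_lit 0) (nat_lit 5))
    (@En.n l14128 (nat_lit 11873) (nat_lit 11) (nat_lit 10))
    (@En.i (nat_lit 1546) (nat_lit 5) (nat_lit 13))
    (@En.n l3447 (nat_lit 10147) (nat_lit 3) (nat_lit 10))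
    (@En.n l20725 (nat_lit 10680) (nat_lit 14) (nat_lit 6))
    (@En.n l29713 (nat_lit 11090) (nat_lit 6) (nat_lit 11))
    (@En.n l29714 (nat_lit 10762) (nat_lit 6) (nat_lit 3))
    (@En.i (nat_lit 11960) (nat_lit 0) (nat_lit 5))
    (@En.n l29713 (nat_lit 10479) (nat_lit 8) (nat_lit 6))
    (@En.i (nat_lit 11165) (nat_lit 5) (nat_lit 13))
    (@En.n l29715 (nat_lit 10775) (nat_lit 9) (nat_lit 10))
    (@En.n l29716 (nat_lit 10504) (nat_lit 4) (nat_lit 6))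
    (@En.n l29717 (nat_lit 12444) (nat_lit 13) (nat_lit 11))
    (@En.n l8433 (nat_lit 10688) (nat_lit 14) (nat_lit 6))
    (@En.n l14127 (nat_lit 11085) (nat_lit 8) (nat_lit 10))
    (@En.n l11 (nat_lit 10682) (nat_lit 15) (nat_lit 3))))
noncomputable def a668 : T16 Cl := @T16.mk Cl
  (@Cl.mk (nat_lit 0x30006000b0005000a000d000a00050003000a0006000a0006000d000b0006) (nat_lit 0x30433005050330) (nat_lit 16) Lb.e (@T16.mk En
    (@En.n l23467 (nat_lit 11701) (nat_lit 0) (nat_lit 6))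
    (@En.n l33561 (nat_lit 11884) (nat_lit 10) (nat_lit 11))
    (@En.n l9178 (nat_lit 10687) (nat_lit 2) (nat_lit 13))
    (@En.i (nat_lit 12345) (nat_lit 3) (nat_lit 6))
    (@En.n l23467 (nat_lit 10149) (nat_lit 4) (nat_lit 10))
    (@En.n l33562 (nat_lit 10686) (nat_lit 5) (nat_lit 6))
    (@En.n l33563 (nat_lit 11086) (nat_lit 7) (nat_lit 10))
    (@En.n l17351 (nat_lit 10649) (nat_lit 7) (nat_lit 3))
    (@En.n l17802 (nat_lit 11962) (nat_lit 0) (nat_lit 5))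
    (@En.n l33564 (nat_lit 11812) (nat_lit 10) (nat_lit 10))
    (@En.n l33565 (nat_lit 11164) (nat_lit 5) (nat_lit 13))
    (@En.n l33566 (nat_lit 12438) (nat_lit 12) (nat_lit 10))
    (@En.n l33567 (nat_lit 11865) (nat_lit 4) (nat_lit 5))
    (@En.n l8780 (nat_lit 10769) (nat_lit 14) (nat_lit 11))
    (@En.n l17804 (nat_lit 11175) (nat_lit 12) (nat_lit 6))
    (@En.n l7 (nat_lit 10684) (nat_lit 15) (nat_lit 3))))
  (@Cl.mk (nat_lit 0x30006000c000a000d000900040003000a0006000b000a0007000d00060005) (nat_lit 0x75b40050720100) (nat_lit 16) Lb.e (@T16.mk En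
    (@En.n l8925 (nat_lit 12042) (nat_lit 0) (nat_lit 5))
    (@En.n l1236 (nat_lit 11843) (nat_lit 8) (nat_lit 6))
    (@En.n l28658 (nat_lit 26) (nat_lit 2) (nat_lit 13))
    (@En.n l8925 (nat_lit 9247) (nat_lit 3) (nat_lit 7))
    (@En.i (nat_lit 12405) (nat_lit 4) (nat_lit 10))
    (@En.n l28659 (nat_lit 11892) (nat_lit 13) (nat_lit 11))
    (@En.n l9715 (nat_lit 39) (nat_lit 6) (nat_lit 6))
    (@En.n l22670 (nat_lit 10481) (nat_lit 8) (nat_lit 10))
    (@En.n l3536 (nat_lit 12437) (nat_lit 8) (nat_lit 3))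
    (@En.n l20731 (nat_lit 12048) (nat_lit 0) (nat_lit 4))
    (@En.n l68 (nat_lit 10423) (nat_lit 11) (nat_lit 9))
    (@En.n l8925 (nat_lit 1107) (nat_lit 5) (nat_lit 13))
    (@En.n l28660 (nat_lit 12429) (nat_lit 13) (nat_lit 10))
    (@En.n l16509 (nat_lit 10683) (nat_lit 14) (nat_lit 12))
    (@En.n l28661 (nat_lit 8056) (nat_lit 12) (nat_lit 6))
    (@En.n l9163 (nat_lit 12438) (nat_lit 15) (nat_lit 3))))
  (@Cl.mk (nat_lit 0x30006000d000a000d0003000a000300090006000c000a0006000d00040007) (nat_lit 0x23b06050320100) (nat_lit 16) Lb.e (@T16.mk En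
    (@En.n l3076 (nat_lit 8107) (nat_lit 0) (nat_lit 7))
    (@En.n l3530 (nat_lit 12675) (nat_lit 6) (nat_lit 4))
    (@En.n l10407 (nat_lit 16) (nat_lit 0) (nat_lit 13))
    (@En.n l10657 (nat_lit 10691) (nat_lit 1) (nat_lit 6))
    (@En.i (nat_lit 12402) (nat_lit 4) (nat_lit 10))
    (@En.i (nat_lit 10771) (nat_lit 13) (nat_lit 12))
    (@En.n l10658 (nat_lit 43) (nat_lit 6) (nat_lit 6))
    (@En.n l10657 (nat_lit 10685) (nat_lit 13) (nat_lit 9))
    (@En.n l10659 (nat_lit 12438) (nat_lit 8) (nat_lit 3))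
    (@En.n l10660 (nat_lit 11676) (nat_lit 0) (nat_lit 10))
    (@En.n l10661 (nat_lit 10770) (nat_lit 10) (nat_lit 3))
    (@En.n l3530 (nat_lit 1592) (nat_lit 0) (nat_lit 13))
    (@En.n l10662 (nat_lit 11825) (nat_lit 13) (nat_lit 10))
    (@En.n l10663 (nat_lit 12447) (nat_lit 2) (nat_lit 13))
    (@En.i (nat_lit 12324) (nat_lit 12) (nat_lit 6))
    (@En.n l4659 (nat_lit 12437) (nat_lit 15) (nat_lit 3))))
  (@Cl.mk (nat_lit 0x300060003000a000d0009000c0003000a00060004000a0007000d0006000d) (nat_lit 0x4b31030020102) (nat_lit 16) Lb.e (@T16.mk En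
    (@En.n l264 (nat_lit 1010) (nat_lit 0) (nat_lit 13))
    (@En.n l1236 (nat_lit 11983) (nat_lit 3) (nat_lit 6))
    (@En.n l9157 (nat_lit 34) (nat_lit 2) (nat_lit 13))
    (@En.n l8778 (nat_lit 10771) (nat_lit 5) (nat_lit 7))
    (@En.i (nat_lit 10684) (nat_lit 4) (nat_lit 10))
    (@En.n l9158 (nat_lit 12423) (nat_lit 5) (nat_lit 4))
    (@En.n l9159 (nat_lit 16) (nat_lit 6) (nat_lit 6))
    (@En.n l9160 (nat_lit 10762) (nat_lit 1) (nat_lit 10))
    (@En.n l3536 (nat_lit 10766) (nat_lit 8) (nat_lit 3))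
    (@En.n l9158 (nat_lit 1023) (nat_lit 0) (nat_lit 12))
    (@En.n l8780 (nat_lit 10141) (nat_lit 11) (nat_lit 9))
    (@En.n l9161 (nat_lit 12352) (nat_lit 5) (nat_lit 13))
    (@En.n l9162 (nat_lit 10679) (nat_lit 13) (nat_lit 10))
    (@En.n l9163 (nat_lit 10772) (nat_lit 4) (nat_lit 3))
    (@En.n l6784 (nat_lit 11371) (nat_lit 12) (nat_lit 6))
    (@En.n l9163 (nat_lit 10767) (nat_lit 15) (nat_lit 3))))
  (@Cl.mk (nat_lit 0x30007000c0007000c00060004000c0004000b000900040009000d0005000a) (nat_lit 0x30300208105406) (nat_lit 16) Lb.e (@T16.mk En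
    (@En.n l43232 (nat_lit 9567) (nat_lit 0) (nat_lit 10))
    (@En.n l43233 (nat_lit 9454) (nat_lit 7) (nat_lit 5))
    (@En.n l34170 (nat_lit 9200) (nat_lit 6) (nat_lit 13))
    (@En.n l387 (nat_lit 7429) (nat_lit 3) (nat_lit 9))
    (@En.n l43234 (nat_lit 10085) (nat_lit 4) (nat_lit 4))
    (@En.n l6904 (nat_lit 9555) (nat_lit 5) (nat_lit 9))
    (@En.n l43235 (nat_lit 11727) (nat_lit 1) (nat_lit 11))
    (@En.n l34170 (nat_lit 10401) (nat_lit 7) (nat_lit 4))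
    (@En.n l43236 (nat_lit 10955) (nat_lit 9) (nat_lit 12))
    (@En.i (nat_lit 10587) (nat_lit 9) (nat_lit 4))
    (@En.n l18379 (nat_lit 10951) (nat_lit 0) (nat_lit 6))
    (@En.n l6904 (nat_lit 9398) (nat_lit 12) (nat_lit 12))
    (@En.n l1316 (nat_lit 10593) (nat_lit 13) (nat_lit 7))
    (@En.n l9182 (nat_lit 8121) (nat_lit 14) (nat_lit 12))
    (@En.n l152 (nat_lit 10835) (nat_lit 12) (nat_lit 7))
    (@En.n l10393 (nat_lit 10693) (nat_lit 15) (nat_lit 3))))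
  (@Cl.mk (nat_lit 0x30007000c0007000c00070004000c0004000a000900040009000d00090006) (nat_lit 0x40300203105360) (nat_lit 16) Lb.e (@T16.mk En
    (@En.n l42963 (nat_lit 9470) (nat_lit 0) (nat_lit 6))
    (@En.n l24852 (nat_lit 10275) (nat_lit 13) (nat_lit 9))
    (@En.n l42964 (nat_lit 9202) (nat_lit 6) (nat_lit 13))
    (@En.n l42965 (nat_lit 8734) (nat_lit 3) (nat_lit 9))
    (@En.n l22551 (nat_lit 10084) (nat_lit 4) (nat_lit 4))
    (@En.i (nat_lit 9556) (nat_lit 5) (nat_lit 9))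
    (@En.n l42966 (nat_lit 11954) (nat_lit 1) (nat_lit 10))
    (@En.n l22673 (nat_lit 10402) (nat_lit 7) (nat_lit 4))
    (@En.n l42967 (nat_lit 11420) (nat_lit 9) (nat_lit 12))
    (@En.i (nat_lit 10584) (nat_lit 9) (nat_lit 4))
    (@En.n l39655 (nat_lit 12176) (nat_lit 0) (nat_lit 7))
    (@En.n l39604 (nat_lit 9396) (nat_lit 12) (nat_lit 12))
    (@En.n l42968 (nat_lit 10592) (nat_lit 13) (nat_lit 7))
    (@En.n l42969 (nat_lit 8120) (nat_lit 14) (nat_lit 12))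
    (@En.n l17 (nat_lit 10702) (nat_lit 12) (nat_lit 7))
    (@En.n l3098 (nat_lit 10692) (nat_lit 15) (nat_lit 3))))
  (@Cl.mk (nat_lit 0x300070006000c0005000c000b0004000a000400090005000a000d0006000b) (nat_lit 0x7078020201704) (nat_lit 16) Lb.e (@T16.mk En
    (@En.n l619 (nat_lit 8664) (nat_lit 0) (nat_lit 11))
    (@En.n l17 (nat_lit 10275) (nat_lit 8) (nat_lit 6))
    (@En.n l19612 (nat_lit 9806) (nat_lit 5) (nat_lit 13))
    (@En.n l2825 (nat_lit 6741) (nat_lit 3) (nat_lit 10))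
    (@En.n l19612 (nat_lit 8002) (nat_lit 4) (nat_lit 5))
    (@En.n l34021 (nat_lit 10692) (nat_lit 5) (nat_lit 9))
    (@En.n l7 (nat_lit 11105) (nat_lit 6) (nat_lit 4))
    (@En.i (nat_lit 8153) (nat_lit 0) (nat_lit 10))
    (@En.n l19536 (nat_lit 11629) (nat_lit 8) (nat_lit 4))
    (@En.n l644 (nat_lit 10895) (nat_lit 10) (nat_lit 11))
    (@En.n l3528 (nat_lit 10369) (nat_lit 11) (nat_lit 12))
    (@En.i (nat_lit 10411) (nat_lit 4) (nat_lit 5))
    (@En.n l18945 (nat_lit 11813) (nat_lit 13) (nat_lit 12))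
    (@En.n l17 (nat_lit 10696) (nat_lit 14) (nat_lit 6))
    (@En.i (nat_lit 9957) (nat_lit 12) (nat_lit 7))
    (@En.n l9956 (nat_lit 10695) (nat_lit 15) (nat_lit 3))))
  (@Cl.mk (nat_lit 0x300070006000c0006000c000b00040009000400090005000a000d000a0007) (nat_lit 0x7067040201750) (nat_lit 16) Lb.e (@T16.mk En
    (@En.n l2135 (nat_lit 12604) (nat_lit 0) (nat_lit 7))
    (@En.n l32465 (nat_lit 10274) (nat_lit 11) (nat_lit 10))
    (@En.n l5833 (nat_lit 9807) (nat_lit 5) (nat_lit 13))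
    (@En.n l32466 (nat_lit 6745) (nat_lit 3) (nat_lit 10))
    (@En.n l32467 (nat_lit 8000) (nat_lit 4) (nat_lit 5))
    (@En.n l21571 (nat_lit 10693) (nat_lit 5) (nat_lit 9))
    (@En.n l9960 (nat_lit 11103) (nat_lit 6) (nat_lit 4))
    (@En.i (nat_lit 9766) (nat_lit 0) (nat_lit 9))
    (@En.n l25322 (nat_lit 11951) (nat_lit 8) (nat_lit 4))
    (@En.n l25313 (nat_lit 12027) (nat_lit 10) (nat_lit 11))
    (@En.i (nat_lit 11763) (nat_lit 11) (nat_lit 12))
    (@En.n l32468 (nat_lit 11934) (nat_lit 4) (nat_lit 6))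
    (@En.n l32469 (nat_lit 11812) (nat_lit 13) (nat_lit 12))
    (@En.n l7 (nat_lit 10697) (nat_lit 14) (nat_lit 6))
    (@En.n l644 (nat_lit 10703) (nat_lit 12) (nat_lit 7))
    (@En.n l3522 (nat_lit 10694) (nat_lit 15) (nat_lit 3))))
  (@Cl.mk (nat_lit 0x30006000c0004000c000b000400090004000d0005000a0003000d0007000c) (nat_lit 0x70670204020805) (nat_lit 16) Lb.e (@T16.mk En
    (@En.n l619 (nat_lit 8665) (nat_lit 0) (nat_lit 12))
    (@En.i (nat_lit 10698) (nat_lit 14) (nat_lit 7))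
    (@En.i (nat_lit 10694) (nat_lit 2) (nat_lit 13))
    (@En.i (nat_lit 10699) (nat_lit 3) (nat_lit 3))
    (@En.i (nat_lit 6742) (nat_lit 0) (nat_lit 10))
    (@En.n l7 (nat_lit 10967) (nat_lit 5) (nat_lit 5))
    (@En.n l396 (nat_lit 10602) (nat_lit 7) (nat_lit 13))
    (@En.n l7 (nat_lit 11104) (nat_lit 7) (nat_lit 4))
    (@En.i (nat_lit 8694) (nat_lit 4) (nat_lit 9))
    (@En.i (nat_lit 11628) (nat_lit 9) (nat_lit 4))
    (@En.n l644 (nat_lit 10256) (nat_lit 11) (nat_lit 11))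
    (@En.n l3528 (nat_lit 11764) (nat_lit 12) (nat_lit 12))
    (@En.i (nat_lit 10958) (nat_lit 8) (nat_lit 4))
    (@En.n l2125 (nat_lit 11830) (nat_lit 0) (nat_lit 12))
    (@En.i (nat_lit 8095) (nat_lit 12) (nat_lit 6))
    (@En.n l9956 (nat_lit 10697) (nat_lit 15) (nat_lit 3))))
  (@Cl.mk (nat_lit 0x30006000c0005000c000b000400080004000d0005000a0003000d000b0008) (nat_lit 0x70460404020885) (nat_lit 16) Lb.e (@T16.mk En
    (@En.n l2135 (nat_lit 12603) (nat_lit 0) (nat_lit 8))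
    (@En.n l10970 (nat_lit 10476) (nat_lit 14) (nat_lit 11))
    (@En.i (nat_lit 10695) (nat_lit 2) (nat_lit 13))
    (@En.n l13800 (nat_lit 10700) (nat_lit 3) (nat_lit 3))
    (@En.n l649 (nat_lit 6757) (nat_lit 0) (nat_lit 10))
    (@En.n l11107 (nat_lit 11154) (nat_lit 5) (nat_lit 5))
    (@En.n l476 (nat_lit 10599) (nat_lit 7) (nat_lit 13))
    (@En.n l9960 (nat_lit 11101) (nat_lit 7) (nat_lit 4))
    (@En.i (nat_lit 9757) (nat_lit 11) (nat_lit 8))
    (@En.n l25312 (nat_lit 11991) (nat_lit 9) (nat_lit 4))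
    (@En.n l25313 (nat_lit 12028) (nat_lit 11) (nat_lit 11))
    (@En.i (nat_lit 11761) (nat_lit 12) (nat_lit 12))
    (@En.n l20552 (nat_lit 11935) (nat_lit 8) (nat_lit 5))
    (@En.n l6678 (nat_lit 11831) (nat_lit 14) (nat_lit 12))
    (@En.n l10970 (nat_lit 9283) (nat_lit 12) (nat_lit 6))
    (@En.n l3522 (nat_lit 10696) (nat_lit 15) (nat_lit 3))))
  (@Cl.mk (nat_lit 0x30007000c00080005000c0004000b000a0004000900080005000d0006000b) (nat_lit 0x60060620150502) (nat_lit 16) Lb.e (@T16.mk En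
    (@En.n l8148 (nat_lit 8131) (nat_lit 0) (nat_lit 11))
    (@En.n l7 (nat_lit 10276) (nat_lit 7) (nat_lit 6))
    (@En.n l4252 (nat_lit 9953) (nat_lit 2) (nat_lit 13))
    (@En.n l32463 (nat_lit 9984) (nat_lit 3) (nat_lit 5))
    (@En.n l3528 (nat_lit 10697) (nat_lit 8) (nat_lit 8))
    (@En.n l1769 (nat_lit 8731) (nat_lit 5) (nat_lit 9))
    (@En.n l19535 (nat_lit 11994) (nat_lit 6) (nat_lit 4))
    (@En.n l644 (nat_lit 10812) (nat_lit 0) (nat_lit 10))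
    (@En.n l3528 (nat_lit 12013) (nat_lit 9) (nat_lit 11))
    (@En.n l22603 (nat_lit 10408) (nat_lit 9) (nat_lit 4))
    (@En.n l2125 (nat_lit 10421) (nat_lit 11) (nat_lit 12))
    (@En.i (nat_lit 10582) (nat_lit 1) (nat_lit 5))
    (@En.n l3866 (nat_lit 12003) (nat_lit 13) (nat_lit 8))
    (@En.n l22603 (nat_lit 9203) (nat_lit 14) (nat_lit 12))
    (@En.n l32464 (nat_lit 10693) (nat_lit 12) (nat_lit 7))
    (@En.i (nat_lit 10701) (nat_lit 15) (nat_lit 3))))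
  (@Cl.mk (nat_lit 0x30007000c0004000c000a000400090004000d000900060003000d0007000c) (nat_lit 0x60720603300805) (nat_lit 16) Lb.e (@T16.mk En
    (@En.n l619 (nat_lit 8666) (nat_lit 0) (nat_lit 12))
    (@En.i (nat_lit 10701) (nat_lit 14) (nat_lit 7))
    (@En.n l3517 (nat_lit 11407) (nat_lit 2) (nat_lit 13))
    (@En.n l18 (nat_lit 10696) (nat_lit 3) (nat_lit 3))
    (@En.n l28688 (nat_lit 8019) (nat_lit 0) (nat_lit 6))
    (@En.n l61 (nat_lit 10694) (nat_lit 5) (nat_lit 9))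
    (@En.n l11408 (nat_lit 10601) (nat_lit 7) (nat_lit 13))
    (@En.n l39667 (nat_lit 11106) (nat_lit 7) (nat_lit 4))
    (@En.i (nat_lit 8695) (nat_lit 4) (nat_lit 9))
    (@En.n l10832 (nat_lit 11626) (nat_lit 9) (nat_lit 4))
    (@En.n l5801 (nat_lit 10251) (nat_lit 0) (nat_lit 10))
    (@En.n l3528 (nat_lit 11770) (nat_lit 12) (nat_lit 12))
    (@En.n l24955 (nat_lit 10959) (nat_lit 8) (nat_lit 4))
    (@En.n l5801 (nat_lit 11826) (nat_lit 0) (nat_lit 12))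
    (@En.i (nat_lit 10429) (nat_lit 12) (nat_lit 7))
    (@En.n l117 (nat_lit 10700) (nat_lit 15) (nat_lit 3))))
  (@Cl.mk (nat_lit 0x30007000c0005000c000a000400080004000d000900060003000d000b0008) (nat_lit 0x60720403300880) (nat_lit 16) Lb.e (@T16.mk En
    (@En.n l24980 (nat_lit 12605) (nat_lit 0) (nat_lit 8))
    (@En.n l97 (nat_lit 10478) (nat_lit 14) (nat_lit 11))
    (@En.n l6991 (nat_lit 11406) (nat_lit 2) (nat_lit 13))
    (@En.n l11606 (nat_lit 10697) (nat_lit 3) (nat_lit 3))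
    (@En.n l11340 (nat_lit 8020) (nat_lit 0) (nat_lit 6))
    (@En.n l11607 (nat_lit 10695) (nat_lit 5) (nat_lit 9))
    (@En.n l18295 (nat_lit 10598) (nat_lit 7) (nat_lit 13))
    (@En.n l24981 (nat_lit 11102) (nat_lit 7) (nat_lit 4))
    (@En.n l24982 (nat_lit 9763) (nat_lit 11) (nat_lit 8))
    (@En.n l11608 (nat_lit 11627) (nat_lit 9) (nat_lit 4))
    (@En.n l14469 (nat_lit 10252) (nat_lit 0) (nat_lit 10))
    (@En.n l1140 (nat_lit 11765) (nat_lit 1) (nat_lit 12))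
    (@En.n l11340 (nat_lit 11936) (nat_lit 8) (nat_lit 5))
    (@En.n l14469 (nat_lit 11796) (nat_lit 14) (nat_lit 12))
    (@En.i (nat_lit 12036) (nat_lit 12) (nat_lit 7))
    (@En.n l152 (nat_lit 10699) (nat_lit 15) (nat_lit 3))))
  (@Cl.mk (nat_lit 0x30007000c00080006000c0004000b00090004000900080005000d000a0007) (nat_lit 0x62050630750470) (nat_lit 16) Lb.e (@T16.mk En
    (@En.n l28688 (nat_lit 7176) (nat_lit 0) (nat_lit 7))
    (@En.i (nat_lit 10275) (nat_lit 11) (nat_lit 10))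
    (@En.n l11408 (nat_lit 9954) (nat_lit 2) (nat_lit 13))
    (@En.n l42970 (nat_lit 9981) (nat_lit 3) (nat_lit 5))
    (@En.n l3 (nat_lit 10700) (nat_lit 8) (nat_lit 8))
    (@En.n l1769 (nat_lit 9392) (nat_lit 5) (nat_lit 9))
    (@En.n l42971 (nat_lit 11995) (nat_lit 6) (nat_lit 4))
    (@En.n l5801 (nat_lit 9165) (nat_lit 0) (nat_lit 9))
    (@En.n l3528 (nat_lit 12016) (nat_lit 9) (nat_lit 11))
    (@En.n l42972 (nat_lit 10712) (nat_lit 9) (nat_lit 4))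
    (@En.n l5801 (nat_lit 11792) (nat_lit 11) (nat_lit 12))
    (@En.n l33196 (nat_lit 10710) (nat_lit 1) (nat_lit 6))
    (@En.n l3866 (nat_lit 12002) (nat_lit 13) (nat_lit 8))
    (@En.n l21506 (nat_lit 9204) (nat_lit 14) (nat_lit 12))
    (@En.n l42973 (nat_lit 11715) (nat_lit 12) (nat_lit 7))
    (@En.n l18 (nat_lit 10698) (nat_lit 15) (nat_lit 3))))
  (@Cl.mk (nat_lit 0x3000a00070007000c0006000c00060004000b000400090009000d0005000a) (nat_lit 0x700305009063602) (nat_lit 16) Lb.e (@T16.mk En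
    (@En.n l42398 (nat_lit 8278) (nat_lit 0) (nat_lit 10))
    (@En.n l42399 (nat_lit 10858) (nat_lit 9) (nat_lit 5))
    (@En.n l11319 (nat_lit 10846) (nat_lit 6) (nat_lit 13))
    (@En.n l61 (nat_lit 11434) (nat_lit 7) (nat_lit 9))
    (@En.n l2571 (nat_lit 10087) (nat_lit 4) (nat_lit 9))
    (@En.n l41165 (nat_lit 10906) (nat_lit 5) (nat_lit 4))
    (@En.n l42400 (nat_lit 11328) (nat_lit 0) (nat_lit 11))
    (@En.i (nat_lit 12209) (nat_lit 1) (nat_lit 4))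
    (@En.n l42401 (nat_lit 6449) (nat_lit 8) (nat_lit 6))
    (@En.n l11319 (nat_lit 11020) (nat_lit 1) (nat_lit 12))
    (@En.n l5036 (nat_lit 11444) (nat_lit 4) (nat_lit 6))
    (@En.n l7231 (nat_lit 10476) (nat_lit 12) (nat_lit 12))
    (@En.n l42402 (nat_lit 11616) (nat_lit 9) (nat_lit 7))
    (@En.n l42400 (nat_lit 10694) (nat_lit 14) (nat_lit 7))
    (@En.n l42399 (nat_lit 10278) (nat_lit 9) (nat_lit 10))
    (@En.i (nat_lit 10704) (nat_lit 15) (nat_lit 3))))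
  (@Cl.mk (nat_lit 0x3000b000800070005000c0005000c000a0004000800040009000d0006000b) (nat_lit 0x840030460304503) (nat_lit 16) Lb.e (@T16.mk En
    (@En.n l40971 (nat_lit 6996) (nat_lit 0) (nat_lit 11))
    (@En.n l40972 (nat_lit 8013) (nat_lit 11) (nat_lit 6))
    (@En.n l50 (nat_lit 10697) (nat_lit 6) (nat_lit 13))
    (@En.n l31779 (nat_lit 10702) (nat_lit 3) (nat_lit 9))
    (@En.n l40973 (nat_lit 11986) (nat_lit 4) (nat_lit 4))
    (@En.n l39866 (nat_lit 10831) (nat_lit 11) (nat_lit 8))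
    (@En.n l40974 (nat_lit 11982) (nat_lit 1) (nat_lit 4))
    (@En.n l28087 (nat_lit 11794) (nat_lit 0) (nat_lit 10))
    (@En.i (nat_lit 11762) (nat_lit 9) (nat_lit 12))
    (@En.n l40975 (nat_lit 10419) (nat_lit 9) (nat_lit 5))
    (@En.n l40976 (nat_lit 11475) (nat_lit 11) (nat_lit 12))
    (@En.n l40977 (nat_lit 9289) (nat_lit 11) (nat_lit 5))
    (@En.n l40975 (nat_lit 9200) (nat_lit 13) (nat_lit 7))
    (@En.n l40978 (nat_lit 11807) (nat_lit 14) (nat_lit 8))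
    (@En.n l40979 (nat_lit 10813) (nat_lit 10) (nat_lit 11))
    (@En.n l40980 (nat_lit 10705) (nat_lit 15) (nat_lit 3))))
noncomputable def a669 : T16 Cl := @T16.mk Cl
  (@Cl.mk (nat_lit 0x3000a00070007000c0007000c00060004000a000400090009000d00090006) (nat_lit 0x700305002063650) (nat_lit 16) Lb.e (@T16.mk En
    (@En.n l30744 (nat_lit 12257) (nat_lit 0) (nat_lit 6))
    (@En.n l30745 (nat_lit 10276) (nat_lit 12) (nat_lit 9))
    (@En.n l11319 (nat_lit 10847) (nat_lit 6) (nat_lit 13))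
    (@En.n l61 (nat_lit 11435) (nat_lit 7) (nat_lit 9))
    (@En.n l19816 (nat_lit 10086) (nat_lit 4) (nat_lit 9))
    (@En.n l30746 (nat_lit 10909) (nat_lit 5) (nat_lit 4))
    (@En.n l4851 (nat_lit 11245) (nat_lit 0) (nat_lit 10))
    (@En.i (nat_lit 12207) (nat_lit 1) (nat_lit 4))
    (@En.n l30747 (nat_lit 68) (nat_lit 0) (nat_lit 6))
    (@En.n l11319 (nat_lit 11024) (nat_lit 1) (nat_lit 12))
    (@En.n l4589 (nat_lit 11661) (nat_lit 4) (nat_lit 7))
    (@En.n l7231 (nat_lit 10478) (nat_lit 12) (nat_lit 12))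
    (@En.n l30748 (nat_lit 11617) (nat_lit 9) (nat_lit 7))
    (@En.n l30749 (nat_lit 10695) (nat_lit 14) (nat_lit 7))
    (@En.n l30750 (nat_lit 8011) (nat_lit 7) (nat_lit 10))
    (@En.n l7 (nat_lit 10702) (nat_lit 15) (nat_lit 3))))
  (@Cl.mk (nat_lit 0x3000b000800070006000c0005000c00090004000800040009000d000a0007) (nat_lit 0x450030520204450) (nat_lit 16) Lb.e (@T16.mk En
    (@En.n l32167 (nat_lit 8006) (nat_lit 0) (nat_lit 7))
    (@En.n l3866 (nat_lit 9991) (nat_lit 11) (nat_lit 10))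
    (@En.n l31753 (nat_lit 10700) (nat_lit 6) (nat_lit 13))
    (@En.n l33108 (nat_lit 10704) (nat_lit 3) (nat_lit 9))
    (@En.n l5801 (nat_lit 11987) (nat_lit 4) (nat_lit 4))
    (@En.n l33109 (nat_lit 10830) (nat_lit 11) (nat_lit 8))
    (@En.n l18270 (nat_lit 11980) (nat_lit 1) (nat_lit 4))
    (@En.n l32167 (nat_lit 10416) (nat_lit 0) (nat_lit 9))
    (@En.n l33110 (nat_lit 11767) (nat_lit 9) (nat_lit 12))
    (@En.n l33111 (nat_lit 10418) (nat_lit 9) (nat_lit 5))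
    (@En.n l33112 (nat_lit 9947) (nat_lit 11) (nat_lit 12))
    (@En.n l8224 (nat_lit 10299) (nat_lit 10) (nat_lit 6))
    (@En.n l8239 (nat_lit 9199) (nat_lit 13) (nat_lit 7))
    (@En.n l10685 (nat_lit 11806) (nat_lit 14) (nat_lit 8))
    (@En.n l33113 (nat_lit 11090) (nat_lit 10) (nat_lit 11))
    (@En.n l33114 (nat_lit 10703) (nat_lit 15) (nat_lit 3))))
  (@Cl.mk (nat_lit 0x30008000d0008000c0003000a000800040008000c00080006000d00040008) (nat_lit 0x572408001760402) (nat_lit 16) Lb.e (@T16.mk En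
    (@En.n l39698 (nat_lit 5440) (nat_lit 0) (nat_lit 8))
    (@En.n l9601 (nat_lit 10312) (nat_lit 6) (nat_lit 4))
    (@En.n l29442 (nat_lit 10428) (nat_lit 8) (nat_lit 13))
    (@En.n l39699 (nat_lit 8252) (nat_lit 1) (nat_lit 6))
    (@En.n l34034 (nat_lit 10701) (nat_lit 4) (nat_lit 8))
    (@En.n l39700 (nat_lit 10297) (nat_lit 11) (nat_lit 12))
    (@En.n l39701 (nat_lit 3662) (nat_lit 11) (nat_lit 8))
    (@En.n l39702 (nat_lit 10307) (nat_lit 7) (nat_lit 4))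
    (@En.i (nat_lit 12463) (nat_lit 0) (nat_lit 8))
    (@En.n l16579 (nat_lit 9545) (nat_lit 1) (nat_lit 10))
    (@En.n l39703 (nat_lit 10707) (nat_lit 10) (nat_lit 3))
    (@En.n l39702 (nat_lit 10245) (nat_lit 0) (nat_lit 12))
    (@En.n l29442 (nat_lit 10518) (nat_lit 13) (nat_lit 8))
    (@En.i (nat_lit 9206) (nat_lit 2) (nat_lit 13))
    (@En.n l39704 (nat_lit 10208) (nat_lit 3) (nat_lit 8))
    (@En.n l39705 (nat_lit 10313) (nat_lit 15) (nat_lit 3))))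
  (@Cl.mk (nat_lit 0x30008000d000b00090003000a000800050008000c00070006000d00040008) (nat_lit 0x662707402500502) (nat_lit 16) Lb.e (@T16.mk En
    (@En.n l25022 (nat_lit 6534) (nat_lit 0) (nat_lit 8))
    (@En.n l25023 (nat_lit 10310) (nat_lit 6) (nat_lit 4))
    (@En.n l18475 (nat_lit 10381) (nat_lit 8) (nat_lit 13))
    (@En.i (nat_lit 8246) (nat_lit 1) (nat_lit 6))
    (@En.n l25024 (nat_lit 10712) (nat_lit 4) (nat_lit 7))
    (@En.n l18372 (nat_lit 11848) (nat_lit 11) (nat_lit 12))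
    (@En.i (nat_lit 4585) (nat_lit 10) (nat_lit 8))
    (@En.n l25025 (nat_lit 10304) (nat_lit 7) (nat_lit 5))
    (@En.n l25026 (nat_lit 12461) (nat_lit 14) (nat_lit 8))
    (@En.n l25027 (nat_lit 9896) (nat_lit 10) (nat_lit 10))
    (@En.n l25028 (nat_lit 10706) (nat_lit 10) (nat_lit 3))
    (@En.n l18475 (nat_lit 11282) (nat_lit 0) (nat_lit 9))
    (@En.n l25029 (nat_lit 10708) (nat_lit 13) (nat_lit 11))
    (@En.n l25030 (nat_lit 9207) (nat_lit 2) (nat_lit 13))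
    (@En.n l14056 (nat_lit 10207) (nat_lit 3) (nat_lit 8))
    (@En.n l25031 (nat_lit 10311) (nat_lit 15) (nat_lit 3))))
  (@Cl.mk (nat_lit 0x30008000b0008000c00090007000500040008000c00080007000d00040009) (nat_lit 0x612360003640602) (nat_lit 16) Lb.e (@T16.mk En
    (@En.n l37580 (nat_lit 6535) (nat_lit 0) (nat_lit 9))
    (@En.i (nat_lit 10308) (nat_lit 9) (nat_lit 4))
    (@En.i (nat_lit 10375) (nat_lit 0) (nat_lit 13))
    (@En.n l28307 (nat_lit 8249) (nat_lit 3) (nat_lit 7))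
    (@En.n l39706 (nat_lit 10713) (nat_lit 4) (nat_lit 8))
    (@En.n l28307 (nat_lit 11844) (nat_lit 7) (nat_lit 12))
    (@En.n l27297 (nat_lit 10707) (nat_lit 6) (nat_lit 8))
    (@En.n l20872 (nat_lit 10706) (nat_lit 7) (nat_lit 4))
    (@En.n l1003 (nat_lit 9961) (nat_lit 8) (nat_lit 5))
    (@En.n l17 (nat_lit 12462) (nat_lit 1) (nat_lit 7))
    (@En.n l10181 (nat_lit 9895) (nat_lit 11) (nat_lit 9))
    (@En.i (nat_lit 10251) (nat_lit 12) (nat_lit 12))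
    (@En.n l2038 (nat_lit 11759) (nat_lit 13) (nat_lit 8))
    (@En.i (nat_lit 8748) (nat_lit 7) (nat_lit 11))
    (@En.n l8776 (nat_lit 10209) (nat_lit 12) (nat_lit 8))
    (@En.i (nat_lit 10309) (nat_lit 15) (nat_lit 3))))
  (@Cl.mk (nat_lit 0x3000b000800050008000c0005000c00090004000800040008000d000b0007) (nat_lit 0x640240730304960) (nat_lit 16) Lb.e (@T16.mk En
    (@En.n l41784 (nat_lit 9624) (nat_lit 0) (nat_lit 7))
    (@En.n l42467 (nat_lit 10711) (nat_lit 13) (nat_lit 11))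
    (@En.n l37994 (nat_lit 9179) (nat_lit 2) (nat_lit 13))
    (@En.n l42468 (nat_lit 10210) (nat_lit 11) (nat_lit 8))
    (@En.n l5549 (nat_lit 10581) (nat_lit 4) (nat_lit 4))
    (@En.n l42469 (nat_lit 10714) (nat_lit 11) (nat_lit 8))
    (@En.n l12047 (nat_lit 10707) (nat_lit 1) (nat_lit 4))
    (@En.n l41784 (nat_lit 10401) (nat_lit 0) (nat_lit 9))
    (@En.n l42470 (nat_lit 10382) (nat_lit 9) (nat_lit 12))
    (@En.n l4711 (nat_lit 9125) (nat_lit 9) (nat_lit 5))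
    (@En.n l42471 (nat_lit 9201) (nat_lit 11) (nat_lit 12))
    (@En.i (nat_lit 7111) (nat_lit 10) (nat_lit 8))
    (@En.n l42471 (nat_lit 9789) (nat_lit 7) (nat_lit 5))
    (@En.n l42468 (nat_lit 12471) (nat_lit 14) (nat_lit 8))
    (@En.n l42472 (nat_lit 10678) (nat_lit 1) (nat_lit 11))
    (@En.n l37995 (nat_lit 10710) (nat_lit 15) (nat_lit 3))))
  (@Cl.mk (nat_lit 0x3000b000800040008000c0005000c000a0004000800040008000d0006000c) (nat_lit 0x90028017030490a) (nat_lit 16) Lb.e (@T16.mk En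
    (@En.n l1722 (nat_lit 10254) (nat_lit 0) (nat_lit 12))
    (@En.n l27426 (nat_lit 11084) (nat_lit 4) (nat_lit 6))
    (@En.n l617 (nat_lit 9175) (nat_lit 2) (nat_lit 13))
    (@En.n l34036 (nat_lit 10211) (nat_lit 3) (nat_lit 8))
    (@En.n l43101 (nat_lit 10582) (nat_lit 4) (nat_lit 4))
    (@En.n l17781 (nat_lit 10718) (nat_lit 11) (nat_lit 8))
    (@En.n l17108 (nat_lit 10706) (nat_lit 1) (nat_lit 4))
    (@En.i (nat_lit 10692) (nat_lit 0) (nat_lit 10))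
    (@En.i (nat_lit 6221) (nat_lit 9) (nat_lit 12))
    (@En.n l34934 (nat_lit 9127) (nat_lit 9) (nat_lit 5))
    (@En.n l22753 (nat_lit 9202) (nat_lit 11) (nat_lit 12))
    (@En.n l387 (nat_lit 4587) (nat_lit 11) (nat_lit 8))
    (@En.n l27442 (nat_lit 10636) (nat_lit 15) (nat_lit 4))
    (@En.n l617 (nat_lit 12472) (nat_lit 0) (nat_lit 8))
    (@En.n l1080 (nat_lit 10635) (nat_lit 1) (nat_lit 11))
    (@En.n l17893 (nat_lit 10709) (nat_lit 15) (nat_lit 3))))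
  (@Cl.mk (nat_lit 0x40008000b0006000c000a0007000500040008000c0006000c000a00040009) (nat_lit 0x450250003508304) (nat_lit 16) Lb.e (@T16.mk En
    (@En.n l33119 (nat_lit 10715) (nat_lit 0) (nat_lit 9))
    (@En.n l50 (nat_lit 10708) (nat_lit 1) (nat_lit 4))
    (@En.n l33120 (nat_lit 10403) (nat_lit 0) (nat_lit 10))
    (@En.i (nat_lit 10374) (nat_lit 1) (nat_lit 12))
    (@En.n l33121 (nat_lit 9126) (nat_lit 4) (nat_lit 6))
    (@En.n l33122 (nat_lit 10187) (nat_lit 7) (nat_lit 12))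
    (@En.n l33123 (nat_lit 10709) (nat_lit 11) (nat_lit 8))
    (@En.n l14210 (nat_lit 10710) (nat_lit 12) (nat_lit 4))
    (@En.n l33124 (nat_lit 9790) (nat_lit 0) (nat_lit 5))
    (@En.n l3429 (nat_lit 12470) (nat_lit 1) (nat_lit 7))
    (@En.n l33125 (nat_lit 10532) (nat_lit 11) (nat_lit 10))
    (@En.i (nat_lit 10255) (nat_lit 2) (nat_lit 12))
    (@En.n l33126 (nat_lit 4320) (nat_lit 4) (nat_lit 6))
    (@En.i (nat_lit 8755) (nat_lit 7) (nat_lit 11))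
    (@En.n l33127 (nat_lit 10212) (nat_lit 11) (nat_lit 8))
    (@En.n l33122 (nat_lit 10580) (nat_lit 15) (nat_lit 4))))
  (@Cl.mk (nat_lit 0x30007000c000a000900070004000b00090006000900070005000d00090007) (nat_lit 0x67700610100220) (nat_lit 16) Lb.e (@T16.mk En
    (@En.n l11065 (nat_lit 7542) (nat_lit 0) (nat_lit 7))
    (@En.n l39707 (nat_lit 10405) (nat_lit 14) (nat_lit 9))
    (@En.n l25212 (nat_lit 10392) (nat_lit 2) (nat_lit 13))
    (@En.n l30355 (nat_lit 9066) (nat_lit 3) (nat_lit 5))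
    (@En.n l30877 (nat_lit 11936) (nat_lit 4) (nat_lit 7))
    (@En.n l39708 (nat_lit 9157) (nat_lit 9) (nat_lit 9))
    (@En.n l39709 (nat_lit 9793) (nat_lit 6) (nat_lit 6))
    (@En.n l15989 (nat_lit 9163) (nat_lit 7) (nat_lit 9))
    (@En.n l287 (nat_lit 11115) (nat_lit 9) (nat_lit 11))
    (@En.n l39710 (nat_lit 11812) (nat_lit 9) (nat_lit 4))
    (@En.n l39711 (nat_lit 10709) (nat_lit 0) (nat_lit 7))
    (@En.n l16078 (nat_lit 10830) (nat_lit 7) (nat_lit 9))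
    (@En.n l39712 (nat_lit 10713) (nat_lit 13) (nat_lit 10))
    (@En.n l39713 (nat_lit 10396) (nat_lit 14) (nat_lit 12))
    (@En.n l39714 (nat_lit 10920) (nat_lit 12) (nat_lit 7))
    (@En.n l39715 (nat_lit 10408) (nat_lit 15) (nat_lit 3))))
  (@Cl.mk (nat_lit 0x30007000a00080006000c000a000800060004000900080006000d000a0008) (nat_lit 0x66045500230222) (nat_lit 16) Lb.e (@T16.mk En
    (@En.i (nat_lit 7544) (nat_lit 0) (nat_lit 8))
    (@En.n l42918 (nat_lit 10406) (nat_lit 11) (nat_lit 10))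
    (@En.n l37371 (nat_lit 10377) (nat_lit 2) (nat_lit 13))
    (@En.n l14752 (nat_lit 9647) (nat_lit 3) (nat_lit 6))
    (@En.n l42919 (nat_lit 12022) (nat_lit 8) (nat_lit 8))
    (@En.n l42920 (nat_lit 10712) (nat_lit 5) (nat_lit 9))
    (@En.n l32287 (nat_lit 10701) (nat_lit 6) (nat_lit 4))
    (@En.n l9991 (nat_lit 9792) (nat_lit 7) (nat_lit 6))
    (@En.n l42921 (nat_lit 9164) (nat_lit 1) (nat_lit 8))
    (@En.n l42919 (nat_lit 11117) (nat_lit 10) (nat_lit 10))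
    (@En.n l2824 (nat_lit 10416) (nat_lit 11) (nat_lit 12))
    (@En.n l42922 (nat_lit 10711) (nat_lit 12) (nat_lit 6))
    (@En.n l42921 (nat_lit 12021) (nat_lit 13) (nat_lit 8))
    (@En.n l37371 (nat_lit 9338) (nat_lit 8) (nat_lit 10))
    (@En.n l42923 (nat_lit 10921) (nat_lit 12) (nat_lit 7))
    (@En.n l42924 (nat_lit 10409) (nat_lit 15) (nat_lit 3))))
  (@Cl.mk (nat_lit 0x30006000d000a000800030007000d000a00060003000a0008000d00060009) (nat_lit 0x52200980045504) (nat_lit 16) Lb.e (@T16.mk En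
    (@En.n l11068 (nat_lit 5578) (nat_lit 0) (nat_lit 9))
    (@En.i (nat_lit 10712) (nat_lit 6) (nat_lit 6))
    (@En.n l6238 (nat_lit 10716) (nat_lit 8) (nat_lit 13))
    (@En.n l15989 (nat_lit 10266) (nat_lit 14) (nat_lit 8))
    (@En.n l287 (nat_lit 10648) (nat_lit 4) (nat_lit 10))
    (@En.n l11 (nat_lit 10718) (nat_lit 5) (nat_lit 3))
    (@En.i (nat_lit 9625) (nat_lit 0) (nat_lit 6))
    (@En.n l4780 (nat_lit 10715) (nat_lit 13) (nat_lit 10))
    (@En.n l38886 (nat_lit 9758) (nat_lit 9) (nat_lit 13))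
    (@En.i (nat_lit 9819) (nat_lit 3) (nat_lit 7))
    (@En.n l30866 (nat_lit 10819) (nat_lit 10) (nat_lit 3))
    (@En.i (nat_lit 5804) (nat_lit 0) (nat_lit 8))
    (@En.i (nat_lit 10834) (nat_lit 13) (nat_lit 10))
    (@En.n l17902 (nat_lit 6155) (nat_lit 8) (nat_lit 13))
    (@En.i (nat_lit 11531) (nat_lit 12) (nat_lit 6))
    (@En.n l2943 (nat_lit 10830) (nat_lit 15) (nat_lit 3))))
  (@Cl.mk (nat_lit 0x30007000a0005000b00090007000c00060005000900040007000d000b0009) (nat_lit 0x70150500500623) (nat_lit 16) Lb.e (@T16.mk En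
    (@En.n l33085 (nat_lit 7543) (nat_lit 0) (nat_lit 9))
    (@En.n l27548 (nat_lit 10833) (nat_lit 13) (nat_lit 11))
    (@En.n l33086 (nat_lit 10371) (nat_lit 2) (nat_lit 13))
    (@En.n l18 (nat_lit 11529) (nat_lit 11) (nat_lit 7))
    (@En.n l3348 (nat_lit 12061) (nat_lit 4) (nat_lit 4))
    (@En.n l9062 (nat_lit 10714) (nat_lit 0) (nat_lit 9))
    (@En.n l12285 (nat_lit 10718) (nat_lit 1) (nat_lit 5))
    (@En.n l33087 (nat_lit 10713) (nat_lit 7) (nat_lit 6))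
    (@En.n l24098 (nat_lit 10717) (nat_lit 9) (nat_lit 12))
    (@En.n l12579 (nat_lit 10269) (nat_lit 9) (nat_lit 7))
    (@En.i (nat_lit 10647) (nat_lit 11) (nat_lit 9))
    (@En.n l33088 (nat_lit 7105) (nat_lit 12) (nat_lit 11))
    (@En.n l117 (nat_lit 4319) (nat_lit 7) (nat_lit 5))
    (@En.n l12281 (nat_lit 9976) (nat_lit 8) (nat_lit 10))
    (@En.n l33089 (nat_lit 9821) (nat_lit 12) (nat_lit 7))
    (@En.n l33090 (nat_lit 10832) (nat_lit 15) (nat_lit 3))))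
  (@Cl.mk (nat_lit 0x30008000d000b00060003000a000d000500080003000c0006000d000a0004) (nat_lit 0x349002402050220) (nat_lit 16) Lb.e (@T16.mk En
    (@En.n l322 (nat_lit 10261) (nat_lit 0) (nat_lit 4))
    (@En.i (nat_lit 10616) (nat_lit 0) (nat_lit 10))
    (@En.n l26838 (nat_lit 6109) (nat_lit 1) (nat_lit 13))
    (@En.n l20276 (nat_lit 10714) (nat_lit 14) (nat_lit 6))
    (@En.n l17893 (nat_lit 10709) (nat_lit 10) (nat_lit 12))
    (@En.n l7020 (nat_lit 10829) (nat_lit 5) (nat_lit 3))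
    (@En.n l9313 (nat_lit 5582) (nat_lit 10) (nat_lit 8))
    (@En.n l31034 (nat_lit 10804) (nat_lit 7) (nat_lit 5))
    (@En.i (nat_lit 4398) (nat_lit 5) (nat_lit 13))
    (@En.n l9309 (nat_lit 10762) (nat_lit 10) (nat_lit 10))
    (@En.n l7 (nat_lit 10719) (nat_lit 10) (nat_lit 3))
    (@En.n l562 (nat_lit 9619) (nat_lit 0) (nat_lit 6))
    (@En.n l644 (nat_lit 10717) (nat_lit 13) (nat_lit 11))
    (@En.n l617 (nat_lit 9401) (nat_lit 8) (nat_lit 13))
    (@En.n l780 (nat_lit 10088) (nat_lit 3) (nat_lit 8))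
    (@En.n l11 (nat_lit 10818) (nat_lit 15) (nat_lit 3))))
  (@Cl.mk (nat_lit 0x30008000b0005000c0009000c0005000400080004000c0007000d000b0004) (nat_lit 0x380154003060220) (nat_lit 16) Lb.e (@T16.mk En
    (@En.n l2351 (nat_lit 10263) (nat_lit 0) (nat_lit 4))
    (@En.i (nat_lit 10615) (nat_lit 0) (nat_lit 11))
    (@En.n l14080 (nat_lit 6111) (nat_lit 1) (nat_lit 13))
    (@En.n l17392 (nat_lit 10715) (nat_lit 3) (nat_lit 7))
    (@En.n l6937 (nat_lit 10711) (nat_lit 5) (nat_lit 12))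
    (@En.n l17393 (nat_lit 12062) (nat_lit 5) (nat_lit 4))
    (@En.n l612 (nat_lit 10716) (nat_lit 6) (nat_lit 8))
    (@En.n l50 (nat_lit 10719) (nat_lit 7) (nat_lit 4))
    (@En.n l17394 (nat_lit 10809) (nat_lit 0) (nat_lit 5))
    (@En.i (nat_lit 4399) (nat_lit 6) (nat_lit 12))
    (@En.n l17395 (nat_lit 10763) (nat_lit 11) (nat_lit 9))
    (@En.n l1722 (nat_lit 7098) (nat_lit 12) (nat_lit 12))
    (@En.n l339 (nat_lit 4321) (nat_lit 4) (nat_lit 5))
    (@En.n l617 (nat_lit 9974) (nat_lit 7) (nat_lit 11))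
    (@En.n l780 (nat_lit 10089) (nat_lit 14) (nat_lit 8))
    (@En.n l11 (nat_lit 10816) (nat_lit 15) (nat_lit 3))))
  (@Cl.mk (nat_lit 0x30006000d000b000800030007000d0005000b0003000a0008000d00050009) (nat_lit 0x53200801042404) (nat_lit 16) Lb.e (@T16.mk En
    (@En.n l24696 (nat_lit 5576) (nat_lit 0) (nat_lit 9))
    (@En.n l30351 (nat_lit 11812) (nat_lit 6) (nat_lit 5))
    (@En.n l6238 (nat_lit 10719) (nat_lit 8) (nat_lit 13))
    (@En.n l4961 (nat_lit 8814) (nat_lit 14) (nat_lit 8))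
    (@En.n l23054 (nat_lit 11825) (nat_lit 4) (nat_lit 10))
    (@En.i (nat_lit 10714) (nat_lit 5) (nat_lit 3))
    (@En.n l21050 (nat_lit 7097) (nat_lit 0) (nat_lit 11))
    (@En.n l117 (nat_lit 11772) (nat_lit 7) (nat_lit 5))
    (@En.n l38886 (nat_lit 9756) (nat_lit 9) (nat_lit 13))
    (@En.n l21239 (nat_lit 9820) (nat_lit 3) (nat_lit 7))
    (@En.n l30866 (nat_lit 10821) (nat_lit 10) (nat_lit 3))
    (@En.n l4961 (nat_lit 5803) (nat_lit 0) (nat_lit 8))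
    (@En.n l26068 (nat_lit 10835) (nat_lit 13) (nat_lit 11))
    (@En.n l6238 (nat_lit 6214) (nat_lit 8) (nat_lit 13))
    (@En.n l17597 (nat_lit 11532) (nat_lit 12) (nat_lit 6))
    (@En.n l2869 (nat_lit 10831) (nat_lit 15) (nat_lit 3))))
  (@Cl.mk (nat_lit 0x30008000d0005000c0003000a000d000400080003000c0006000d000b0004) (nat_lit 0x3a0102302090280) (nat_lit 16) Lb.e (@T16.mk En
    (@En.i (nat_lit 10262) (nat_lit 0) (nat_lit 4))
    (@En.i (nat_lit 10620) (nat_lit 0) (nat_lit 11))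
    (@En.i (nat_lit 6105) (nat_lit 1) (nat_lit 13))
    (@En.n l20276 (nat_lit 10718) (nat_lit 14) (nat_lit 6))
    (@En.i (nat_lit 10710) (nat_lit 10) (nat_lit 12))
    (@En.n l14125 (nat_lit 10159) (nat_lit 5) (nat_lit 3))
    (@En.n l387 (nat_lit 4489) (nat_lit 0) (nat_lit 8))
    (@En.n l18910 (nat_lit 10155) (nat_lit 7) (nat_lit 4))
    (@En.i (nat_lit 4397) (nat_lit 5) (nat_lit 13))
    (@En.n l1080 (nat_lit 12413) (nat_lit 1) (nat_lit 10))
    (@En.i (nat_lit 10716) (nat_lit 10) (nat_lit 3))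
    (@En.n l1722 (nat_lit 7096) (nat_lit 0) (nat_lit 12))
    (@En.n l11 (nat_lit 11774) (nat_lit 6) (nat_lit 5))
    (@En.n l617 (nat_lit 9754) (nat_lit 8) (nat_lit 13))
    (@En.n l780 (nat_lit 9585) (nat_lit 3) (nat_lit 8))
    (@En.n l11 (nat_lit 10820) (nat_lit 15) (nat_lit 3))))
noncomputable def a670 : T16 Cl := @T16.mk Cl
  (@Cl.mk (nat_lit 0x3000a0007000b000a0009000800060005000a000600090007000d00080006) (nat_lit 0x206835001040420) (nat_lit 16) Lb.e (@T16.mk En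
    (@En.n l43663 (nat_lit 11394) (nat_lit 0) (nat_lit 6))
    (@En.n l20620 (nat_lit 8185) (nat_lit 0) (nat_lit 8))
    (@En.n l19333 (nat_lit 6846) (nat_lit 2) (nat_lit 13))
    (@En.n l43664 (nat_lit 11926) (nat_lit 3) (nat_lit 7))
    (@En.n l41665 (nat_lit 9832) (nat_lit 9) (nat_lit 9))
    (@En.n l39417 (nat_lit 3126) (nat_lit 5) (nat_lit 6))
    (@En.n l1738 (nat_lit 9941) (nat_lit 7) (nat_lit 10))
    (@En.n l20615 (nat_lit 10628) (nat_lit 11) (nat_lit 5))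
    (@En.n l39723 (nat_lit 10806) (nat_lit 8) (nat_lit 6))
    (@En.n l43665 (nat_lit 10440) (nat_lit 8) (nat_lit 8))
    (@En.n l43666 (nat_lit 10918) (nat_lit 11) (nat_lit 9))
    (@En.n l43667 (nat_lit 6855) (nat_lit 6) (nat_lit 10))
    (@En.n l19333 (nat_lit 10072) (nat_lit 8) (nat_lit 11))
    (@En.n l3866 (nat_lit 8833) (nat_lit 14) (nat_lit 7))
    (@En.n l43498 (nat_lit 10722) (nat_lit 12) (nat_lit 10))
    (@En.n l43668 (nat_lit 6853) (nat_lit 15) (nat_lit 3))))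
  (@Cl.mk (nat_lit 0x300090008000d000900060003000b0007000b000800070005000d0005000a) (nat_lit 0x764600207500407) (nat_lit 16) Lb.e (@T16.mk En
    (@En.n l2571 (nat_lit 11083) (nat_lit 0) (nat_lit 10))
    (@En.n l22673 (nat_lit 10720) (nat_lit 7) (nat_lit 5))
    (@En.n l43313 (nat_lit 11388) (nat_lit 9) (nat_lit 13))
    (@En.n l33386 (nat_lit 10812) (nat_lit 3) (nat_lit 5))
    (@En.n l26577 (nat_lit 9555) (nat_lit 9) (nat_lit 7))
    (@En.n l39659 (nat_lit 10928) (nat_lit 5) (nat_lit 8))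
    (@En.n l43314 (nat_lit 10216) (nat_lit 8) (nat_lit 11))
    (@En.n l253 (nat_lit 9545) (nat_lit 14) (nat_lit 7))
    (@En.n l41364 (nat_lit 10727) (nat_lit 9) (nat_lit 11))
    (@En.n l43315 (nat_lit 6854) (nat_lit 9) (nat_lit 3))
    (@En.n l21345 (nat_lit 11392) (nat_lit 0) (nat_lit 6))
    (@En.n l43316 (nat_lit 8184) (nat_lit 12) (nat_lit 9))
    (@En.n l43314 (nat_lit 6851) (nat_lit 13) (nat_lit 13))
    (@En.n l43317 (nat_lit 12027) (nat_lit 8) (nat_lit 8))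
    (@En.n l43318 (nat_lit 8750) (nat_lit 4) (nat_lit 9))
    (@En.n l43319 (nat_lit 6855) (nat_lit 15) (nat_lit 3))))
  (@Cl.mk (nat_lit 0x600090006000a0006000a0009000800070006000a0006000a0007000a0008) (nat_lit 0x601086200202075) (nat_lit 16) Lb.e (@T16.mk En
    (@En.n l8681 (nat_lit 6280) (nat_lit 8) (nat_lit 8))
    (@En.n l43181 (nat_lit 9830) (nat_lit 8) (nat_lit 10))
    (@En.n l43454 (nat_lit 2091) (nat_lit 2) (nat_lit 7))
    (@En.n l41740 (nat_lit 11071) (nat_lit 9) (nat_lit 10))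
    (@En.n l5770 (nat_lit 10722) (nat_lit 6) (nat_lit 6))
    (@En.n l26276 (nat_lit 10723) (nat_lit 9) (nat_lit 10))
    (@En.n l26276 (nat_lit 10724) (nat_lit 10) (nat_lit 6))
    (@En.n l43455 (nat_lit 10025) (nat_lit 9) (nat_lit 7))
    (@En.n l3745 (nat_lit 10022) (nat_lit 8) (nat_lit 8))
    (@En.n l17 (nat_lit 10726) (nat_lit 7) (nat_lit 9))
    (@En.n l5770 (nat_lit 10065) (nat_lit 9) (nat_lit 10))
    (@En.n l34587 (nat_lit 2831) (nat_lit 6) (nat_lit 6))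
    (@En.i (nat_lit 8139) (nat_lit 9) (nat_lit 10))
    (@En.n l134 (nat_lit 9919) (nat_lit 10) (nat_lit 6))
    (@En.i (nat_lit 10872) (nat_lit 9) (nat_lit 9))
    (@En.n l30142 (nat_lit 10370) (nat_lit 10) (nat_lit 6))))
  (@Cl.mk (nat_lit 0x30007000b000a00090007000a000500090006000900070006000d00090007) (nat_lit 0x96701000600570) (nat_lit 16) Lb.e (@T16.mk En
    (@En.n l15038 (nat_lit 9909) (nat_lit 0) (nat_lit 7))
    (@En.n l32485 (nat_lit 10722) (nat_lit 14) (nat_lit 9))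
    (@En.n l27243 (nat_lit 10720) (nat_lit 2) (nat_lit 13))
    (@En.n l3180 (nat_lit 6154) (nat_lit 10) (nat_lit 6))
    (@En.n l18 (nat_lit 6278) (nat_lit 4) (nat_lit 7))
    (@En.n l28 (nat_lit 9829) (nat_lit 9) (nat_lit 9))
    (@En.i (nat_lit 2095) (nat_lit 6) (nat_lit 6))
    (@En.i (nat_lit 11072) (nat_lit 10) (nat_lit 9))
    (@En.n l36173 (nat_lit 10031) (nat_lit 8) (nat_lit 5))
    (@En.i (nat_lit 5636) (nat_lit 8) (nat_lit 10))
    (@En.n l5653 (nat_lit 10026) (nat_lit 9) (nat_lit 7))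
    (@En.n l601 (nat_lit 10563) (nat_lit 7) (nat_lit 9))
    (@En.n l38501 (nat_lit 10725) (nat_lit 13) (nat_lit 10))
    (@En.n l14375 (nat_lit 10067) (nat_lit 8) (nat_lit 11))
    (@En.n l9926 (nat_lit 2826) (nat_lit 12) (nat_lit 7))
    (@En.n l117 (nat_lit 10724) (nat_lit 15) (nat_lit 3))))
  (@Cl.mk (nat_lit 0x30007000b000a00090006000a0005000a0006000900070006000d0006000a) (nat_lit 0x66701020600501) (nat_lit 16) Lb.e (@T16.mk En
    (@En.n l30086 (nat_lit 8136) (nat_lit 0) (nat_lit 10))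
    (@En.n l97 (nat_lit 11858) (nat_lit 8) (nat_lit 6))
    (@En.n l35788 (nat_lit 6853) (nat_lit 2) (nat_lit 13))
    (@En.n l36163 (nat_lit 6215) (nat_lit 3) (nat_lit 6))
    (@En.n l36164 (nat_lit 6279) (nat_lit 4) (nat_lit 7))
    (@En.n l28 (nat_lit 9831) (nat_lit 9) (nat_lit 9))
    (@En.i (nat_lit 6551) (nat_lit 6) (nat_lit 6))
    (@En.i (nat_lit 11075) (nat_lit 8) (nat_lit 10))
    (@En.n l36165 (nat_lit 10025) (nat_lit 8) (nat_lit 5))
    (@En.i (nat_lit 5635) (nat_lit 9) (nat_lit 10))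
    (@En.n l5653 (nat_lit 10597) (nat_lit 11) (nat_lit 6))
    (@En.n l36166 (nat_lit 10562) (nat_lit 7) (nat_lit 9))
    (@En.n l36167 (nat_lit 10730) (nat_lit 13) (nat_lit 10))
    (@En.n l36166 (nat_lit 10069) (nat_lit 8) (nat_lit 11))
    (@En.n l8052 (nat_lit 10031) (nat_lit 12) (nat_lit 7))
    (@En.n l152 (nat_lit 10723) (nat_lit 15) (nat_lit 3))))
  (@Cl.mk (nat_lit 0x30007000a000800060009000d000800060003000900080007000d000a0008) (nat_lit 0x56043000740645) (nat_lit 16) Lb.e (@T16.mk En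
    (@En.i (nat_lit 9910) (nat_lit 0) (nat_lit 8))
    (@En.n l6698 (nat_lit 10726) (nat_lit 11) (nat_lit 10))
    (@En.n l1578 (nat_lit 6855) (nat_lit 12) (nat_lit 13))
    (@En.n l4758 (nat_lit 6155) (nat_lit 3) (nat_lit 7))
    (@En.n l22854 (nat_lit 10360) (nat_lit 8) (nat_lit 8))
    (@En.n l22855 (nat_lit 10723) (nat_lit 5) (nat_lit 9))
    (@En.n l5801 (nat_lit 10728) (nat_lit 6) (nat_lit 3))
    (@En.n l8932 (nat_lit 6552) (nat_lit 0) (nat_lit 6))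
    (@En.n l22856 (nat_lit 11074) (nat_lit 9) (nat_lit 8))
    (@En.n l3528 (nat_lit 11989) (nat_lit 10) (nat_lit 13))
    (@En.n l3197 (nat_lit 6096) (nat_lit 9) (nat_lit 9))
    (@En.n l7456 (nat_lit 10029) (nat_lit 4) (nat_lit 6))
    (@En.i (nat_lit 10560) (nat_lit 5) (nat_lit 8))
    (@En.n l3197 (nat_lit 10735) (nat_lit 8) (nat_lit 10))
    (@En.i (nat_lit 2825) (nat_lit 7) (nat_lit 7))
    (@En.n l22857 (nat_lit 10730) (nat_lit 15) (nat_lit 3))))
  (@Cl.mk (nat_lit 0x3000a00090007000a0007000b000600090007000600050009000d00090007) (nat_lit 0x840309050005520) (nat_lit 16) Lb.e (@T16.mk En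
    (@En.n l9941 (nat_lit 2092) (nat_lit 0) (nat_lit 7))
    (@En.i (nat_lit 10733) (nat_lit 13) (nat_lit 9))
    (@En.n l9941 (nat_lit 12054) (nat_lit 6) (nat_lit 13))
    (@En.n l2491 (nat_lit 10725) (nat_lit 10) (nat_lit 9))
    (@En.n l38451 (nat_lit 10730) (nat_lit 11) (nat_lit 5))
    (@En.n l25109 (nat_lit 10030) (nat_lit 10) (nat_lit 6))
    (@En.i (nat_lit 10559) (nat_lit 6) (nat_lit 7))
    (@En.i (nat_lit 10736) (nat_lit 9) (nat_lit 9))
    (@En.i (nat_lit 2829) (nat_lit 8) (nat_lit 6))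
    (@En.i (nat_lit 8138) (nat_lit 8) (nat_lit 11))
    (@En.n l134 (nat_lit 9921) (nat_lit 11) (nat_lit 7))
    (@En.i (nat_lit 10873) (nat_lit 8) (nat_lit 10))
    (@En.n l27121 (nat_lit 10371) (nat_lit 13) (nat_lit 7))
    (@En.n l3866 (nat_lit 10358) (nat_lit 7) (nat_lit 9))
    (@En.i (nat_lit 10722) (nat_lit 1) (nat_lit 10))
    (@En.i (nat_lit 10727) (nat_lit 15) (nat_lit 3))))
  (@Cl.mk (nat_lit 0x3000a00090007000a0006000b0006000a0007000600050009000d0006000a) (nat_lit 0x820301080005503) (nat_lit 16) Lb.e (@T16.mk En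
    (@En.n l33383 (nat_lit 11577) (nat_lit 0) (nat_lit 10))
    (@En.n l61 (nat_lit 10722) (nat_lit 4) (nat_lit 6))
    (@En.n l13917 (nat_lit 12056) (nat_lit 6) (nat_lit 13))
    (@En.n l42078 (nat_lit 10728) (nat_lit 10) (nat_lit 9))
    (@En.n l16881 (nat_lit 10729) (nat_lit 11) (nat_lit 5))
    (@En.n l43661 (nat_lit 10033) (nat_lit 10) (nat_lit 6))
    (@En.n l15024 (nat_lit 10558) (nat_lit 6) (nat_lit 7))
    (@En.n l32049 (nat_lit 10470) (nat_lit 9) (nat_lit 10))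
    (@En.n l4189 (nat_lit 2832) (nat_lit 8) (nat_lit 6))
    (@En.i (nat_lit 8140) (nat_lit 10) (nat_lit 11))
    (@En.n l134 (nat_lit 9809) (nat_lit 11) (nat_lit 6))
    (@En.i (nat_lit 11427) (nat_lit 8) (nat_lit 10))
    (@En.n l43662 (nat_lit 6211) (nat_lit 13) (nat_lit 7))
    (@En.n l42081 (nat_lit 9669) (nat_lit 7) (nat_lit 9))
    (@En.n l43181 (nat_lit 9413) (nat_lit 3) (nat_lit 10))
    (@En.n l18 (nat_lit 10726) (nat_lit 15) (nat_lit 3))))
  (@Cl.mk (nat_lit 0x30007000b000800060009000d000500090003000900080007000d000a0007) (nat_lit 0x91043030760540) (nat_lit 16) Lb.e (@T16.mk En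
    (@En.i (nat_lit 9802) (nat_lit 0) (nat_lit 7))
    (@En.n l38248 (nat_lit 10727) (nat_lit 11) (nat_lit 10))
    (@En.n l33300 (nat_lit 10721) (nat_lit 12) (nat_lit 13))
    (@En.n l38480 (nat_lit 6212) (nat_lit 3) (nat_lit 7))
    (@En.n l38481 (nat_lit 9662) (nat_lit 8) (nat_lit 8))
    (@En.n l38482 (nat_lit 7961) (nat_lit 5) (nat_lit 9))
    (@En.n l28285 (nat_lit 10725) (nat_lit 6) (nat_lit 3))
    (@En.n l152 (nat_lit 11575) (nat_lit 0) (nat_lit 9))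
    (@En.n l38483 (nat_lit 10723) (nat_lit 8) (nat_lit 5))
    (@En.n l38484 (nat_lit 11627) (nat_lit 10) (nat_lit 13))
    (@En.n l38485 (nat_lit 6086) (nat_lit 9) (nat_lit 9))
    (@En.n l2125 (nat_lit 10604) (nat_lit 4) (nat_lit 6))
    (@En.n l38486 (nat_lit 54) (nat_lit 5) (nat_lit 8))
    (@En.n l18442 (nat_lit 10213) (nat_lit 8) (nat_lit 11))
    (@En.n l36927 (nat_lit 2827) (nat_lit 7) (nat_lit 7))
    (@En.n l38487 (nat_lit 10729) (nat_lit 15) (nat_lit 3))))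
  (@Cl.mk (nat_lit 0x30007000b000800050009000d0005000a0003000900080007000d0006000b) (nat_lit 0x96043070720501) (nat_lit 16) Lb.e (@T16.mk En
    (@En.n l41297 (nat_lit 8134) (nat_lit 0) (nat_lit 11))
    (@En.i (nat_lit 11855) (nat_lit 11) (nat_lit 6))
    (@En.n l38403 (nat_lit 6854) (nat_lit 12) (nat_lit 13))
    (@En.n l40259 (nat_lit 6213) (nat_lit 3) (nat_lit 7))
    (@En.i (nat_lit 9668) (nat_lit 8) (nat_lit 8))
    (@En.n l41298 (nat_lit 9412) (nat_lit 5) (nat_lit 9))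
    (@En.n l32429 (nat_lit 10730) (nat_lit 6) (nat_lit 3))
    (@En.n l41299 (nat_lit 11039) (nat_lit 0) (nat_lit 10))
    (@En.n l41300 (nat_lit 10724) (nat_lit 8) (nat_lit 5))
    (@En.n l32430 (nat_lit 11626) (nat_lit 10) (nat_lit 13))
    (@En.n l617 (nat_lit 6014) (nat_lit 10) (nat_lit 9))
    (@En.n l40254 (nat_lit 10595) (nat_lit 4) (nat_lit 5))
    (@En.n l26749 (nat_lit 10560) (nat_lit 13) (nat_lit 8))
    (@En.n l38403 (nat_lit 10215) (nat_lit 8) (nat_lit 11))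
    (@En.n l41301 (nat_lit 10732) (nat_lit 12) (nat_lit 7))
    (@En.n l41302 (nat_lit 10728) (nat_lit 15) (nat_lit 3))))
  (@Cl.mk (nat_lit 0x30007000a000800050009000d000900060003000900080007000d0007000b) (nat_lit 0x51043200760601) (nat_lit 16) Lb.e (@T16.mk En
    (@En.n l38337 (nat_lit 8135) (nat_lit 0) (nat_lit 11))
    (@En.n l38338 (nat_lit 11857) (nat_lit 11) (nat_lit 7))
    (@En.n l38339 (nat_lit 6852) (nat_lit 12) (nat_lit 13))
    (@En.n l5355 (nat_lit 6214) (nat_lit 3) (nat_lit 7))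
    (@En.n l27127 (nat_lit 10359) (nat_lit 8) (nat_lit 8))
    (@En.n l38340 (nat_lit 10724) (nat_lit 5) (nat_lit 9))
    (@En.n l27129 (nat_lit 10729) (nat_lit 6) (nat_lit 3))
    (@En.n l38341 (nat_lit 6550) (nat_lit 0) (nat_lit 6))
    (@En.n l38342 (nat_lit 11077) (nat_lit 9) (nat_lit 9))
    (@En.n l14889 (nat_lit 12008) (nat_lit 10) (nat_lit 13))
    (@En.n l38343 (nat_lit 6012) (nat_lit 10) (nat_lit 9))
    (@En.n l38344 (nat_lit 10596) (nat_lit 4) (nat_lit 5))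
    (@En.n l38345 (nat_lit 53) (nat_lit 5) (nat_lit 8))
    (@En.n l38343 (nat_lit 10734) (nat_lit 8) (nat_lit 10))
    (@En.n l14892 (nat_lit 10731) (nat_lit 12) (nat_lit 7))
    (@En.n l38346 (nat_lit 10725) (nat_lit 15) (nat_lit 3))))
  (@Cl.mk (nat_lit 0x30008000c0007000a000700040008000d0008000600030009000d00090008) (nat_lit 0x530600332007655) (nat_lit 16) Lb.e (@T16.mk En
    (@En.n l8798 (nat_lit 11008) (nat_lit 0) (nat_lit 8))
    (@En.n l3462 (nat_lit 10726) (nat_lit 13) (nat_lit 9))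
    (@En.n l21288 (nat_lit 11468) (nat_lit 6) (nat_lit 13))
    (@En.n l36449 (nat_lit 10031) (nat_lit 3) (nat_lit 9))
    (@En.n l9962 (nat_lit 10732) (nat_lit 4) (nat_lit 3))
    (@En.n l29309 (nat_lit 6633) (nat_lit 0) (nat_lit 6))
    (@En.n l29787 (nat_lit 10949) (nat_lit 6) (nat_lit 8))
    (@En.n l29309 (nat_lit 10438) (nat_lit 8) (nat_lit 13))
    (@En.n l36450 (nat_lit 10607) (nat_lit 11) (nat_lit 8))
    (@En.n l170 (nat_lit 10598) (nat_lit 9) (nat_lit 4))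
    (@En.n l21288 (nat_lit 10562) (nat_lit 0) (nat_lit 7))
    (@En.n l29309 (nat_lit 10877) (nat_lit 8) (nat_lit 10))
    (@En.n l13128 (nat_lit 2830) (nat_lit 13) (nat_lit 7))
    (@En.i (nat_lit 10385) (nat_lit 7) (nat_lit 12))
    (@En.n l35563 (nat_lit 12050) (nat_lit 4) (nat_lit 8))
    (@En.n l36451 (nat_lit 10030) (nat_lit 15) (nat_lit 3))))
  (@Cl.mk (nat_lit 0x30007000c0007000b000700040008000d0005000900030009000d00090008) (nat_lit 0x60400130107636) (nat_lit 16) Lb.e (@T16.mk En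
    (@En.n l3536 (nat_lit 11009) (nat_lit 0) (nat_lit 8))
    (@En.n l41364 (nat_lit 10727) (nat_lit 13) (nat_lit 9))
    (@En.n l41365 (nat_lit 11469) (nat_lit 6) (nat_lit 13))
    (@En.n l3549 (nat_lit 9409) (nat_lit 3) (nat_lit 9))
    (@En.n l4037 (nat_lit 10731) (nat_lit 4) (nat_lit 3))
    (@En.n l2571 (nat_lit 9036) (nat_lit 0) (nat_lit 9))
    (@En.n l22673 (nat_lit 10031) (nat_lit 6) (nat_lit 5))
    (@En.n l2125 (nat_lit 10437) (nat_lit 8) (nat_lit 13))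
    (@En.n l12940 (nat_lit 75) (nat_lit 3) (nat_lit 8))
    (@En.i (nat_lit 10599) (nat_lit 9) (nat_lit 4))
    (@En.n l3851 (nat_lit 10563) (nat_lit 0) (nat_lit 7))
    (@En.n l24928 (nat_lit 10886) (nat_lit 1) (nat_lit 11))
    (@En.n l41366 (nat_lit 4233) (nat_lit 13) (nat_lit 7))
    (@En.n l14271 (nat_lit 10387) (nat_lit 9) (nat_lit 12))
    (@En.n l3851 (nat_lit 10477) (nat_lit 12) (nat_lit 7))
    (@En.n l11319 (nat_lit 10033) (nat_lit 15) (nat_lit 3))))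
  (@Cl.mk (nat_lit 0x5000a00090006000a000900080006000900070006000b0007000a00080007) (nat_lit 0x310230030020440) (nat_lit 16) Lb.e (@T16.mk En
    (@En.n l25109 (nat_lit 10944) (nat_lit 9) (nat_lit 7))
    (@En.i (nat_lit 11736) (nat_lit 8) (nat_lit 8))
    (@En.i (nat_lit 11082) (nat_lit 8) (nat_lit 10))
    (@En.n l34581 (nat_lit 2842) (nat_lit 9) (nat_lit 7))
    (@En.i (nat_lit 10406) (nat_lit 9) (nat_lit 11))
    (@En.n l217 (nat_lit 10727) (nat_lit 10) (nat_lit 6))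
    (@En.n l134 (nat_lit 11478) (nat_lit 9) (nat_lit 7))
    (@En.i (nat_lit 11509) (nat_lit 9) (nat_lit 9))
    (@En.n l41738 (nat_lit 8391) (nat_lit 10) (nat_lit 6))
    (@En.n l41739 (nat_lit 11115) (nat_lit 8) (nat_lit 8))
    (@En.n l41740 (nat_lit 11071) (nat_lit 7) (nat_lit 9))
    (@En.n l41741 (nat_lit 11582) (nat_lit 9) (nat_lit 10))
    (@En.n l41742 (nat_lit 10651) (nat_lit 3) (nat_lit 6))
    (@En.n l41743 (nat_lit 10623) (nat_lit 7) (nat_lit 9))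
    (@En.n l41744 (nat_lit 11074) (nat_lit 10) (nat_lit 10))
    (@En.n l41745 (nat_lit 11077) (nat_lit 11) (nat_lit 5))))
  (@Cl.mk (nat_lit 0x200090008000d0008000c0003000a000700040008000c00080006000e0004) (nat_lit 0x665330400176010) (nat_lit 16) Lb.e (@T16.mk En
    (@En.n l25095 (nat_lit 10208) (nat_lit 6) (nat_lit 4))
    (@En.n l25096 (nat_lit 5506) (nat_lit 1) (nat_lit 14))
    (@En.n l28 (nat_lit 5521) (nat_lit 2) (nat_lit 6))
    (@En.n l24997 (nat_lit 11083) (nat_lit 3) (nat_lit 8))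
    (@En.n l25097 (nat_lit 10296) (nat_lit 5) (nat_lit 12))
    (@En.i (nat_lit 4484) (nat_lit 5) (nat_lit 8))
    (@En.n l23976 (nat_lit 7807) (nat_lit 6) (nat_lit 4))
    (@En.n l25098 (nat_lit 12128) (nat_lit 7) (nat_lit 7))
    (@En.n l25099 (nat_lit 7803) (nat_lit 9) (nat_lit 10))
    (@En.n l152 (nat_lit 10735) (nat_lit 9) (nat_lit 3))
    (@En.n l23976 (nat_lit 8676) (nat_lit 0) (nat_lit 12))
    (@En.n l97 (nat_lit 10737) (nat_lit 12) (nat_lit 8))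
    (@En.n l17029 (nat_lit 10218) (nat_lit 13) (nat_lit 13))
    (@En.n l25100 (nat_lit 10262) (nat_lit 14) (nat_lit 8))
    (@En.n l7409 (nat_lit 10556) (nat_lit 4) (nat_lit 9))
    (@En.n l50 (nat_lit 10734) (nat_lit 15) (nat_lit 2))))
  (@Cl.mk (nat_lit 0x200090008000d000b00090003000a000700050008000c00070006000e0004) (nat_lit 0x665240400130010) (nat_lit 16) Lb.e (@T16.mk En
    (@En.n l28 (nat_lit 10207) (nat_lit 6) (nat_lit 4))
    (@En.n l7405 (nat_lit 3254) (nat_lit 1) (nat_lit 14))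
    (@En.n l28 (nat_lit 5520) (nat_lit 2) (nat_lit 6))
    (@En.i (nat_lit 11081) (nat_lit 3) (nat_lit 7))
    (@En.n l11424 (nat_lit 11847) (nat_lit 5) (nat_lit 12))
    (@En.i (nat_lit 4486) (nat_lit 5) (nat_lit 8))
    (@En.n l61 (nat_lit 10874) (nat_lit 6) (nat_lit 5))
    (@En.n l7407 (nat_lit 12133) (nat_lit 7) (nat_lit 7))
    (@En.i (nat_lit 10991) (nat_lit 9) (nat_lit 10))
    (@En.n l117 (nat_lit 10734) (nat_lit 9) (nat_lit 3))
    (@En.i (nat_lit 10037) (nat_lit 0) (nat_lit 9))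
    (@En.n l11425 (nat_lit 10736) (nat_lit 12) (nat_lit 11))
    (@En.n l11426 (nat_lit 10217) (nat_lit 13) (nat_lit 13))
    (@En.n l11427 (nat_lit 10261) (nat_lit 14) (nat_lit 8))
    (@En.n l7409 (nat_lit 10554) (nat_lit 4) (nat_lit 9))
    (@En.n l50 (nat_lit 10735) (nat_lit 15) (nat_lit 2))))
noncomputable def a671 : T16 Cl := @T16.mk Cl
  (@Cl.mk (nat_lit 0x2000a0008000b0008000c00090006000500040008000c00080007000e0004) (nat_lit 0x661624000262090) (nat_lit 16) Lb.e (@T16.mk En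
    (@En.n l15273 (nat_lit 10209) (nat_lit 15) (nat_lit 4))
    (@En.i (nat_lit 3248) (nat_lit 1) (nat_lit 14))
    (@En.n l9941 (nat_lit 5522) (nat_lit 2) (nat_lit 7))
    (@En.i (nat_lit 11082) (nat_lit 3) (nat_lit 8))
    (@En.n l9941 (nat_lit 11841) (nat_lit 5) (nat_lit 12))
    (@En.n l9146 (nat_lit 10735) (nat_lit 5) (nat_lit 8))
    (@En.n l9146 (nat_lit 10734) (nat_lit 6) (nat_lit 4))
    (@En.n l25109 (nat_lit 10875) (nat_lit 7) (nat_lit 5))
    (@En.n l152 (nat_lit 12156) (nat_lit 8) (nat_lit 6))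
    (@En.n l25110 (nat_lit 10990) (nat_lit 10) (nat_lit 9))
    (@En.i (nat_lit 7455) (nat_lit 11) (nat_lit 12))
    (@En.n l134 (nat_lit 10041) (nat_lit 12) (nat_lit 8))
    (@En.i (nat_lit 8972) (nat_lit 13) (nat_lit 11))
    (@En.n l25111 (nat_lit 10263) (nat_lit 14) (nat_lit 8))
    (@En.i (nat_lit 10555) (nat_lit 14) (nat_lit 10))
    (@En.n l17 (nat_lit 10736) (nat_lit 15) (nat_lit 2))))
  (@Cl.mk (nat_lit 0x2000a00090008000c00090009000600040007000b000800070007000e0005) (nat_lit 0x772253000640020) (nat_lit 16) Lb.e (@T16.mk En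
    (@En.n l13689 (nat_lit 10739) (nat_lit 8) (nat_lit 5))
    (@En.n l13690 (nat_lit 9248) (nat_lit 1) (nat_lit 14))
    (@En.n l13691 (nat_lit 10743) (nat_lit 9) (nat_lit 7))
    (@En.i (nat_lit 10735) (nat_lit 3) (nat_lit 7))
    (@En.n l13692 (nat_lit 12386) (nat_lit 4) (nat_lit 8))
    (@En.n l13693 (nat_lit 12690) (nat_lit 8) (nat_lit 11))
    (@En.i (nat_lit 4899) (nat_lit 6) (nat_lit 7))
    (@En.n l11424 (nat_lit 12338) (nat_lit 7) (nat_lit 4))
    (@En.n l7407 (nat_lit 11962) (nat_lit 8) (nat_lit 6))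
    (@En.n l13694 (nat_lit 12341) (nat_lit 10) (nat_lit 9))
    (@En.n l13690 (nat_lit 10038) (nat_lit 11) (nat_lit 9))
    (@En.n l11425 (nat_lit 10738) (nat_lit 12) (nat_lit 12))
    (@En.n l13695 (nat_lit 10741) (nat_lit 13) (nat_lit 8))
    (@En.n l13696 (nat_lit 11545) (nat_lit 14) (nat_lit 9))
    (@En.n l7409 (nat_lit 8821) (nat_lit 7) (nat_lit 10))
    (@En.n l50 (nat_lit 10737) (nat_lit 15) (nat_lit 2))))
  (@Cl.mk (nat_lit 0x2000b0009000c0008000800050004000d0007000b000300080008000e0005) (nat_lit 0x751530080603260) (nat_lit 16) Lb.e (@T16.mk En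
    (@En.n l15273 (nat_lit 10740) (nat_lit 12) (nat_lit 5))
    (@En.i (nat_lit 9245) (nat_lit 1) (nat_lit 14))
    (@En.n l2040 (nat_lit 10742) (nat_lit 8) (nat_lit 8))
    (@En.i (nat_lit 10736) (nat_lit 3) (nat_lit 8))
    (@En.n l2496 (nat_lit 10741) (nat_lit 4) (nat_lit 3))
    (@En.n l5760 (nat_lit 12494) (nat_lit 0) (nat_lit 11))
    (@En.n l9146 (nat_lit 10737) (nat_lit 6) (nat_lit 7))
    (@En.n l27338 (nat_lit 8102) (nat_lit 8) (nat_lit 13))
    (@En.n l5760 (nat_lit 12336) (nat_lit 8) (nat_lit 4))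
    (@En.n l152 (nat_lit 11960) (nat_lit 9) (nat_lit 5))
    (@En.n l27339 (nat_lit 11069) (nat_lit 11) (nat_lit 8))
    (@En.n l55 (nat_lit 12171) (nat_lit 12) (nat_lit 8))
    (@En.i (nat_lit 2556) (nat_lit 6) (nat_lit 12))
    (@En.n l5587 (nat_lit 11549) (nat_lit 14) (nat_lit 9))
    (@En.i (nat_lit 8818) (nat_lit 10) (nat_lit 11))
    (@En.n l17 (nat_lit 10738) (nat_lit 15) (nat_lit 2))))
  (@Cl.mk (nat_lit 0x40007000b000b00090008000800050005000a00090007000c000800080006) (nat_lit 0x37544004402330) (nat_lit 16) Lb.e (@T16.mk En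
    (@En.n l27340 (nat_lit 10674) (nat_lit 0) (nat_lit 6))
    (@En.n l9272 (nat_lit 12313) (nat_lit 8) (nat_lit 8))
    (@En.n l3851 (nat_lit 10042) (nat_lit 1) (nat_lit 8))
    (@En.n l27341 (nat_lit 10740) (nat_lit 8) (nat_lit 12))
    (@En.n l27342 (nat_lit 10747) (nat_lit 9) (nat_lit 7))
    (@En.i (nat_lit 11543) (nat_lit 7) (nat_lit 9))
    (@En.n l27343 (nat_lit 9453) (nat_lit 10) (nat_lit 10))
    (@En.n l644 (nat_lit 11572) (nat_lit 11) (nat_lit 5))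
    (@En.n l27344 (nat_lit 11779) (nat_lit 8) (nat_lit 5))
    (@En.n l9279 (nat_lit 10745) (nat_lit 8) (nat_lit 8))
    (@En.n l27345 (nat_lit 10207) (nat_lit 8) (nat_lit 8))
    (@En.n l27346 (nat_lit 12001) (nat_lit 12) (nat_lit 9))
    (@En.n l27347 (nat_lit 10737) (nat_lit 5) (nat_lit 11))
    (@En.n l27341 (nat_lit 11302) (nat_lit 8) (nat_lit 11))
    (@En.n l27345 (nat_lit 4783) (nat_lit 11) (nat_lit 7))
    (@En.n l27342 (nat_lit 11999) (nat_lit 15) (nat_lit 4))))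
  (@Cl.mk (nat_lit 0x40009000900050005000b0009000c0007000700050004000c0007000b000b) (nat_lit 0x120043100006047) (nat_lit 16) Lb.e (@T16.mk En
    (@En.n l16698 (nat_lit 10738) (nat_lit 5) (nat_lit 11))
    (@En.i (nat_lit 10929) (nat_lit 1) (nat_lit 11))
    (@En.n l16699 (nat_lit 10739) (nat_lit 14) (nat_lit 7))
    (@En.n l15506 (nat_lit 7736) (nat_lit 3) (nat_lit 12))
    (@En.i (nat_lit 11998) (nat_lit 12) (nat_lit 4))
    (@En.n l16700 (nat_lit 10677) (nat_lit 0) (nat_lit 5))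
    (@En.n l16701 (nat_lit 12303) (nat_lit 9) (nat_lit 7))
    (@En.n l16702 (nat_lit 12191) (nat_lit 7) (nat_lit 7))
    (@En.n l15205 (nat_lit 2549) (nat_lit 6) (nat_lit 12))
    (@En.n l16699 (nat_lit 11552) (nat_lit 4) (nat_lit 9))
    (@En.n l16703 (nat_lit 9457) (nat_lit 11) (nat_lit 11))
    (@En.n l16704 (nat_lit 12302) (nat_lit 11) (nat_lit 5))
    (@En.n l15205 (nat_lit 11780) (nat_lit 7) (nat_lit 5))
    (@En.n l11407 (nat_lit 10744) (nat_lit 7) (nat_lit 9))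
    (@En.i (nat_lit 10209) (nat_lit 1) (nat_lit 9))
    (@En.n l16703 (nat_lit 12020) (nat_lit 2) (nat_lit 4))))
  (@Cl.mk (nat_lit 0x2000b0008000c0008000800050004000d000a0008000300080008000e0006) (nat_lit 0x511030095602360) (nat_lit 16) Lb.e (@T16.mk En
    (@En.n l15019 (nat_lit 10747) (nat_lit 12) (nat_lit 6))
    (@En.n l7394 (nat_lit 9246) (nat_lit 1) (nat_lit 14))
    (@En.n l27348 (nat_lit 10746) (nat_lit 8) (nat_lit 8))
    (@En.n l7394 (nat_lit 10219) (nat_lit 3) (nat_lit 8))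
    (@En.n l21127 (nat_lit 10738) (nat_lit 4) (nat_lit 3))
    (@En.i (nat_lit 12388) (nat_lit 0) (nat_lit 8))
    (@En.n l11484 (nat_lit 11877) (nat_lit 7) (nat_lit 10))
    (@En.n l8515 (nat_lit 8103) (nat_lit 8) (nat_lit 13))
    (@En.n l8517 (nat_lit 12334) (nat_lit 8) (nat_lit 4))
    (@En.n l3756 (nat_lit 11965) (nat_lit 9) (nat_lit 5))
    (@En.n l61 (nat_lit 12340) (nat_lit 11) (nat_lit 8))
    (@En.n l8516 (nat_lit 12168) (nat_lit 12) (nat_lit 8))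
    (@En.n l7394 (nat_lit 1842) (nat_lit 13) (nat_lit 12))
    (@En.i (nat_lit 6447) (nat_lit 14) (nat_lit 8))
    (@En.n l27349 (nat_lit 8820) (nat_lit 10) (nat_lit 11))
    (@En.n l3 (nat_lit 10741) (nat_lit 15) (nat_lit 2))))
  (@Cl.mk (nat_lit 0x200060005000d0008000c00030008000e00040002000a0008000b000e0008) (nat_lit 0x9370110044536) (nat_lit 16) Lb.e (@T16.mk En
    (@En.n l3333 (nat_lit 10738) (nat_lit 11) (nat_lit 8))
    (@En.n l862 (nat_lit 5950) (nat_lit 12) (nat_lit 14))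
    (@En.n l3340 (nat_lit 2709) (nat_lit 2) (nat_lit 11))
    (@En.n l1353 (nat_lit 8065) (nat_lit 14) (nat_lit 8))
    (@En.i (nat_lit 8824) (nat_lit 4) (nat_lit 10))
    (@En.n l50 (nat_lit 10742) (nat_lit 5) (nat_lit 2))
    (@En.n l564 (nat_lit 10744) (nat_lit 6) (nat_lit 4))
    (@En.n l2544 (nat_lit 214) (nat_lit 8) (nat_lit 14))
    (@En.i (nat_lit 3918) (nat_lit 2) (nat_lit 8))
    (@En.i (nat_lit 10746) (nat_lit 9) (nat_lit 3))
    (@En.i (nat_lit 12751) (nat_lit 11) (nat_lit 12))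
    (@En.i (nat_lit 10743) (nat_lit 12) (nat_lit 8))
    (@En.n l25317 (nat_lit 8105) (nat_lit 13) (nat_lit 13))
    (@En.n l725 (nat_lit 12343) (nat_lit 14) (nat_lit 5))
    (@En.n l3340 (nat_lit 12370) (nat_lit 8) (nat_lit 6))
    (@En.n l3 (nat_lit 10742) (nat_lit 15) (nat_lit 2))))
  (@Cl.mk (nat_lit 0x2000700050008000c00090007000e00040002000900080007000b000e0009) (nat_lit 0x2760100640646) (nat_lit 16) Lb.e (@T16.mk En
    (@En.n l13347 (nat_lit 10737) (nat_lit 10) (nat_lit 9))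
    (@En.n l862 (nat_lit 5711) (nat_lit 4) (nat_lit 14))
    (@En.n l11 (nat_lit 10742) (nat_lit 2) (nat_lit 11))
    (@En.n l55 (nat_lit 10746) (nat_lit 3) (nat_lit 7))
    (@En.n l13348 (nat_lit 8067) (nat_lit 14) (nat_lit 8))
    (@En.n l13349 (nat_lit 8828) (nat_lit 5) (nat_lit 9))
    (@En.n l50 (nat_lit 10743) (nat_lit 6) (nat_lit 2))
    (@En.n l13350 (nat_lit 10745) (nat_lit 7) (nat_lit 4))
    (@En.n l2544 (nat_lit 1052) (nat_lit 9) (nat_lit 14))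
    (@En.n l13351 (nat_lit 5510) (nat_lit 2) (nat_lit 7))
    (@En.n l13352 (nat_lit 5785) (nat_lit 11) (nat_lit 9))
    (@En.n l2037 (nat_lit 12706) (nat_lit 12) (nat_lit 12))
    (@En.n l13351 (nat_lit 4905) (nat_lit 13) (nat_lit 8))
    (@En.n l725 (nat_lit 12600) (nat_lit 14) (nat_lit 5))
    (@En.n l3340 (nat_lit 12587) (nat_lit 7) (nat_lit 7))
    (@En.n l3 (nat_lit 10743) (nat_lit 15) (nat_lit 2))))
  (@Cl.mk (nat_lit 0x200060005000c0008000c000c0004000900040004000a0008000b000e0007) (nat_lit 0x7278010073280) (nat_lit 16) Lb.e (@T16.mk En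
    (@En.n l15182 (nat_lit 10740) (nat_lit 7) (nat_lit 7))
    (@En.n l7826 (nat_lit 5958) (nat_lit 4) (nat_lit 14))
    (@En.n l1329 (nat_lit 2708) (nat_lit 2) (nat_lit 11))
    (@En.n l7826 (nat_lit 8071) (nat_lit 3) (nat_lit 8))
    (@En.n l6203 (nat_lit 7470) (nat_lit 4) (nat_lit 10))
    (@En.n l7828 (nat_lit 11573) (nat_lit 12) (nat_lit 4))
    (@En.n l1722 (nat_lit 12273) (nat_lit 6) (nat_lit 4))
    (@En.i (nat_lit 3917) (nat_lit 0) (nat_lit 9))
    (@En.n l6203 (nat_lit 12032) (nat_lit 8) (nat_lit 4))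
    (@En.n l2593 (nat_lit 10742) (nat_lit 10) (nat_lit 12))
    (@En.n l4365 (nat_lit 12236) (nat_lit 11) (nat_lit 12))
    (@En.n l25820 (nat_lit 10745) (nat_lit 12) (nat_lit 8))
    (@En.n l32053 (nat_lit 7176) (nat_lit 13) (nat_lit 12))
    (@En.n l17 (nat_lit 12601) (nat_lit 14) (nat_lit 5))
    (@En.n l1329 (nat_lit 12585) (nat_lit 13) (nat_lit 6))
    (@En.n l3 (nat_lit 10744) (nat_lit 15) (nat_lit 2))))
  (@Cl.mk (nat_lit 0x2000700050008000c000c000a000800040004000900080006000b000e0008) (nat_lit 0x1385300730394) (nat_lit 16) Lb.e (@T16.mk En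
    (@En.n l3147 (nat_lit 10739) (nat_lit 2) (nat_lit 8))
    (@En.i (nat_lit 5713) (nat_lit 4) (nat_lit 14))
    (@En.n l27047 (nat_lit 10744) (nat_lit 2) (nat_lit 11))
    (@En.n l27048 (nat_lit 12604) (nat_lit 3) (nat_lit 6))
    (@En.i (nat_lit 4178) (nat_lit 4) (nat_lit 8))
    (@En.n l614 (nat_lit 9451) (nat_lit 5) (nat_lit 9))
    (@En.n l55 (nat_lit 11571) (nat_lit 6) (nat_lit 4))
    (@En.n l27049 (nat_lit 12598) (nat_lit 7) (nat_lit 4))
    (@En.n l9762 (nat_lit 5512) (nat_lit 0) (nat_lit 8))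
    (@En.n l134 (nat_lit 12643) (nat_lit 10) (nat_lit 10))
    (@En.n l27050 (nat_lit 10743) (nat_lit 11) (nat_lit 12))
    (@En.n l11312 (nat_lit 12795) (nat_lit 12) (nat_lit 12))
    (@En.n l20132 (nat_lit 4903) (nat_lit 13) (nat_lit 8))
    (@En.n l27051 (nat_lit 12599) (nat_lit 14) (nat_lit 5))
    (@En.n l27052 (nat_lit 12586) (nat_lit 6) (nat_lit 7))
    (@En.n l17 (nat_lit 10745) (nat_lit 15) (nat_lit 2))))
  (@Cl.mk (nat_lit 0x200060005000d000b000900030008000e00050002000a0007000b000e0008) (nat_lit 0xa820210040531) (nat_lit 16) Lb.e (@T16.mk En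
    (@En.n l25314 (nat_lit 10741) (nat_lit 11) (nat_lit 8))
    (@En.n l2651 (nat_lit 5957) (nat_lit 12) (nat_lit 14))
    (@En.n l3340 (nat_lit 2695) (nat_lit 2) (nat_lit 11))
    (@En.n l25315 (nat_lit 8063) (nat_lit 14) (nat_lit 7))
    (@En.n l10479 (nat_lit 9362) (nat_lit 4) (nat_lit 10))
    (@En.n l50 (nat_lit 10746) (nat_lit 5) (nat_lit 2))
    (@En.n l13542 (nat_lit 12604) (nat_lit 6) (nat_lit 5))
    (@En.n l2544 (nat_lit 290) (nat_lit 8) (nat_lit 14))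
    (@En.n l25316 (nat_lit 8922) (nat_lit 2) (nat_lit 8))
    (@En.n l28 (nat_lit 10742) (nat_lit 9) (nat_lit 3))
    (@En.n l13549 (nat_lit 5787) (nat_lit 11) (nat_lit 9))
    (@En.i (nat_lit 12273) (nat_lit 12) (nat_lit 11))
    (@En.n l25317 (nat_lit 8104) (nat_lit 13) (nat_lit 13))
    (@En.n l725 (nat_lit 12602) (nat_lit 14) (nat_lit 5))
    (@En.n l3340 (nat_lit 12369) (nat_lit 8) (nat_lit 6))
    (@En.n l3 (nat_lit 10746) (nat_lit 15) (nat_lit 2))))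
  (@Cl.mk (nat_lit 0x40009000900060006000b0007000c0007000700050004000c000a000a0009) (nat_lit 0x130040100006362) (nat_lit 16) Lb.e (@T16.mk En
    (@En.n l55 (nat_lit 10928) (nat_lit 0) (nat_lit 9))
    (@En.n l29521 (nat_lit 10741) (nat_lit 6) (nat_lit 10))
    (@En.n l28206 (nat_lit 12060) (nat_lit 6) (nat_lit 10))
    (@En.n l29522 (nat_lit 7735) (nat_lit 3) (nat_lit 12))
    (@En.i (nat_lit 12003) (nat_lit 12) (nat_lit 4))
    (@En.n l29523 (nat_lit 11966) (nat_lit 0) (nat_lit 5))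
    (@En.n l29524 (nat_lit 12319) (nat_lit 9) (nat_lit 7))
    (@En.n l29525 (nat_lit 12173) (nat_lit 7) (nat_lit 7))
    (@En.n l13915 (nat_lit 2555) (nat_lit 8) (nat_lit 12))
    (@En.n l22891 (nat_lit 6444) (nat_lit 4) (nat_lit 7))
    (@En.n l29526 (nat_lit 9353) (nat_lit 9) (nat_lit 11))
    (@En.n l29527 (nat_lit 12301) (nat_lit 10) (nat_lit 6))
    (@En.n l29528 (nat_lit 10273) (nat_lit 7) (nat_lit 6))
    (@En.n l2781 (nat_lit 12604) (nat_lit 7) (nat_lit 9))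
    (@En.i (nat_lit 8758) (nat_lit 11) (nat_lit 9))
    (@En.n l936 (nat_lit 10740) (nat_lit 15) (nat_lit 4))))
  (@Cl.mk (nat_lit 0x20008000e000c0002000b000a0004000b00080005000c00060005000e0004) (nat_lit 0x356036074030080) (nat_lit 16) Lb.e (@T16.mk En
    (@En.n l7460 (nat_lit 8712) (nat_lit 4) (nat_lit 4))
    (@En.n l7405 (nat_lit 4884) (nat_lit 1) (nat_lit 14))
    (@En.n l28 (nat_lit 4858) (nat_lit 2) (nat_lit 5))
    (@En.i (nat_lit 12549) (nat_lit 3) (nat_lit 6))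
    (@En.n l7406 (nat_lit 10610) (nat_lit 9) (nat_lit 12))
    (@En.n l61 (nat_lit 8710) (nat_lit 9) (nat_lit 5))
    (@En.n l7407 (nat_lit 10750) (nat_lit 6) (nat_lit 8))
    (@En.n l7405 (nat_lit 10999) (nat_lit 8) (nat_lit 11))
    (@En.n l7461 (nat_lit 9149) (nat_lit 8) (nat_lit 4))
    (@En.n l7408 (nat_lit 7196) (nat_lit 10) (nat_lit 10))
    (@En.i (nat_lit 10735) (nat_lit 11) (nat_lit 11))
    (@En.n l3 (nat_lit 10748) (nat_lit 11) (nat_lit 2))
    (@En.n l345 (nat_lit 8730) (nat_lit 13) (nat_lit 12))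
    (@En.n l7462 (nat_lit 8285) (nat_lit 1) (nat_lit 14))
    (@En.n l7409 (nat_lit 10206) (nat_lit 2) (nat_lit 8))
    (@En.n l50 (nat_lit 10748) (nat_lit 15) (nat_lit 2))))
  (@Cl.mk (nat_lit 0x200080005000c000c000b000a0004000400080005000c0006000b000e0004) (nat_lit 0x306741004050480) (nat_lit 16) Lb.e (@T16.mk En
    (@En.n l33658 (nat_lit 8813) (nat_lit 15) (nat_lit 4))
    (@En.i (nat_lit 4595) (nat_lit 4) (nat_lit 14))
    (@En.n l2804 (nat_lit 3068) (nat_lit 2) (nat_lit 11))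
    (@En.n l7 (nat_lit 11339) (nat_lit 3) (nat_lit 6))
    (@En.n l564 (nat_lit 9536) (nat_lit 5) (nat_lit 12))
    (@En.n l7 (nat_lit 5880) (nat_lit 5) (nat_lit 5))
    (@En.n l117 (nat_lit 8095) (nat_lit 6) (nat_lit 8))
    (@En.n l575 (nat_lit 10750) (nat_lit 7) (nat_lit 4))
    (@En.n l4523 (nat_lit 8913) (nat_lit 8) (nat_lit 4))
    (@En.n l11881 (nat_lit 4807) (nat_lit 10) (nat_lit 10))
    (@En.n l1578 (nat_lit 8908) (nat_lit 11) (nat_lit 11))
    (@En.n l18851 (nat_lit 8923) (nat_lit 12) (nat_lit 12))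
    (@En.n l33659 (nat_lit 10752) (nat_lit 13) (nat_lit 12))
    (@En.n l17527 (nat_lit 7371) (nat_lit 14) (nat_lit 5))
    (@En.n l17302 (nat_lit 10269) (nat_lit 5) (nat_lit 8))
    (@En.n l17 (nat_lit 10749) (nat_lit 15) (nat_lit 2))))
  (@Cl.mk (nat_lit 0x200080005000e000c0002000c000b000400080004000c0005000b000e0004) (nat_lit 0x309703103060310) (nat_lit 16) Lb.e (@T16.mk En
    (@En.n l3098 (nat_lit 8847) (nat_lit 5) (nat_lit 4))
    (@En.i (nat_lit 4845) (nat_lit 7) (nat_lit 14))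
    (@En.i (nat_lit 3065) (nat_lit 2) (nat_lit 11))
    (@En.n l7 (nat_lit 11348) (nat_lit 3) (nat_lit 5))
    (@En.n l564 (nat_lit 7357) (nat_lit 10) (nat_lit 12))
    (@En.n l7 (nat_lit 7501) (nat_lit 5) (nat_lit 4))
    (@En.i (nat_lit 7028) (nat_lit 6) (nat_lit 8))
    (@En.i (nat_lit 10751) (nat_lit 7) (nat_lit 4))
    (@En.n l644 (nat_lit 4809) (nat_lit 9) (nat_lit 11))
    (@En.i (nat_lit 12133) (nat_lit 10) (nat_lit 12))
    (@En.n l11 (nat_lit 10750) (nat_lit 10) (nat_lit 2))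
    (@En.i (nat_lit 10749) (nat_lit 12) (nat_lit 12))
    (@En.n l781 (nat_lit 7886) (nat_lit 1) (nat_lit 14))
    (@En.i (nat_lit 7369) (nat_lit 14) (nat_lit 5))
    (@En.n l2125 (nat_lit 10333) (nat_lit 3) (nat_lit 8))
    (@En.n l17 (nat_lit 10750) (nat_lit 15) (nat_lit 2))))
  (@Cl.mk (nat_lit 0x200080005000d000c00090003000d000400080003000c0007000b000e0004) (nat_lit 0x406750301060380) (nat_lit 16) Lb.e (@T16.mk En
    (@En.n l7691 (nat_lit 8811) (nat_lit 10) (nat_lit 4))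
    (@En.i (nat_lit 5643) (nat_lit 4) (nat_lit 14))
    (@En.n l1361 (nat_lit 3070) (nat_lit 2) (nat_lit 11))
    (@En.i (nat_lit 12795) (nat_lit 3) (nat_lit 7))
    (@En.n l564 (nat_lit 9553) (nat_lit 11) (nat_lit 12))
    (@En.n l7 (nat_lit 8908) (nat_lit 5) (nat_lit 3))
    (@En.i (nat_lit 3406) (nat_lit 6) (nat_lit 8))
    (@En.n l2678 (nat_lit 10749) (nat_lit 7) (nat_lit 4))
    (@En.n l24353 (nat_lit 12128) (nat_lit 9) (nat_lit 13))
    (@En.n l10176 (nat_lit 8815) (nat_lit 9) (nat_lit 3))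
    (@En.i (nat_lit 10799) (nat_lit 11) (nat_lit 9))
    (@En.n l4523 (nat_lit 8913) (nat_lit 12) (nat_lit 12))
    (@En.n l781 (nat_lit 10261) (nat_lit 13) (nat_lit 13))
    (@En.n l3763 (nat_lit 9975) (nat_lit 14) (nat_lit 5))
    (@En.n l1361 (nat_lit 10815) (nat_lit 4) (nat_lit 8))
    (@En.n l17 (nat_lit 10751) (nat_lit 15) (nat_lit 2))))
noncomputable def a672 : T16 Cl := @T16.mk Cl
  (@Cl.mk (nat_lit 0x20008000c000b000a00090004000a000500080006000c00070006000e0004) (nat_lit 0x359160805030080) (nat_lit 16) Lb.e (@T16.mk En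
    (@En.n l31146 (nat_lit 9163) (nat_lit 15) (nat_lit 4))
    (@En.n l31147 (nat_lit 4190) (nat_lit 1) (nat_lit 14))
    (@En.n l28 (nat_lit 5569) (nat_lit 2) (nat_lit 6))
    (@En.n l31148 (nat_lit 8178) (nat_lit 3) (nat_lit 7))
    (@En.n l22306 (nat_lit 10304) (nat_lit 5) (nat_lit 12))
    (@En.n l29296 (nat_lit 5616) (nat_lit 5) (nat_lit 6))
    (@En.i (nat_lit 10748) (nat_lit 6) (nat_lit 8))
    (@En.n l31149 (nat_lit 7884) (nat_lit 7) (nat_lit 5))
    (@En.n l31147 (nat_lit 10753) (nat_lit 9) (nat_lit 10))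
    (@En.n l4427 (nat_lit 10270) (nat_lit 9) (nat_lit 4))
    (@En.n l2289 (nat_lit 7889) (nat_lit 11) (nat_lit 9))
    (@En.n l7462 (nat_lit 10264) (nat_lit 12) (nat_lit 10))
    (@En.n l4428 (nat_lit 10879) (nat_lit 13) (nat_lit 11))
    (@En.n l31150 (nat_lit 9391) (nat_lit 14) (nat_lit 12))
    (@En.n l22306 (nat_lit 10308) (nat_lit 14) (nat_lit 8))
    (@En.n l50 (nat_lit 10752) (nat_lit 15) (nat_lit 2))))
  (@Cl.mk (nat_lit 0x200090005000c000b000a000a000400070005000b00060006000b000e0005) (nat_lit 0x40a757000500510) (nat_lit 16) Lb.e (@T16.mk En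
    (@En.n l33658 (nat_lit 11743) (nat_lit 7) (nat_lit 5))
    (@En.n l11879 (nat_lit 1348) (nat_lit 4) (nat_lit 14))
    (@En.i (nat_lit 10749) (nat_lit 2) (nat_lit 11))
    (@En.n l4900 (nat_lit 7658) (nat_lit 10) (nat_lit 6))
    (@En.n l37232 (nat_lit 9325) (nat_lit 4) (nat_lit 6))
    (@En.n l37233 (nat_lit 9490) (nat_lit 6) (nat_lit 11))
    (@En.n l2799 (nat_lit 12087) (nat_lit 6) (nat_lit 5))
    (@En.n l117 (nat_lit 10999) (nat_lit 7) (nat_lit 7))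
    (@En.n l575 (nat_lit 10754) (nat_lit 8) (nat_lit 4))
    (@En.n l37234 (nat_lit 11375) (nat_lit 10) (nat_lit 10))
    (@En.n l11881 (nat_lit 11729) (nat_lit 11) (nat_lit 10))
    (@En.n l1578 (nat_lit 11702) (nat_lit 12) (nat_lit 11))
    (@En.n l37235 (nat_lit 10882) (nat_lit 13) (nat_lit 12))
    (@En.n l37236 (nat_lit 7663) (nat_lit 14) (nat_lit 5))
    (@En.n l37237 (nat_lit 11610) (nat_lit 5) (nat_lit 9))
    (@En.n l17 (nat_lit 10753) (nat_lit 15) (nat_lit 2))))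
  (@Cl.mk (nat_lit 0x200090005000c0008000c000b000400070004000b00050008000b000e0005) (nat_lit 0x3084a6000204470) (nat_lit 16) Lb.e (@T16.mk En
    (@En.n l3098 (nat_lit 10759) (nat_lit 7) (nat_lit 5))
    (@En.i (nat_lit 6858) (nat_lit 4) (nat_lit 14))
    (@En.i (nat_lit 10750) (nat_lit 2) (nat_lit 11))
    (@En.n l133 (nat_lit 5675) (nat_lit 10) (nat_lit 8))
    (@En.n l7 (nat_lit 4643) (nat_lit 4) (nat_lit 5))
    (@En.n l564 (nat_lit 9070) (nat_lit 6) (nat_lit 11))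
    (@En.n l7 (nat_lit 12812) (nat_lit 6) (nat_lit 4))
    (@En.i (nat_lit 5689) (nat_lit 11) (nat_lit 7))
    (@En.i (nat_lit 10760) (nat_lit 8) (nat_lit 4))
    (@En.n l644 (nat_lit 10758) (nat_lit 10) (nat_lit 11))
    (@En.n l781 (nat_lit 12364) (nat_lit 11) (nat_lit 12))
    (@En.i (nat_lit 10756) (nat_lit 12) (nat_lit 8))
    (@En.i (nat_lit 10755) (nat_lit 13) (nat_lit 12))
    (@En.i (nat_lit 10757) (nat_lit 14) (nat_lit 5))
    (@En.n l133 (nat_lit 9849) (nat_lit 5) (nat_lit 9))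
    (@En.n l17 (nat_lit 10754) (nat_lit 15) (nat_lit 2))))
  (@Cl.mk (nat_lit 0x20009000c0007000b000a0004000a00070005000b000600090006000e0005) (nat_lit 0x370950000305080) (nat_lit 16) Lb.e (@T16.mk En
    (@En.n l3098 (nat_lit 11803) (nat_lit 6) (nat_lit 5))
    (@En.i (nat_lit 6859) (nat_lit 1) (nat_lit 14))
    (@En.n l33659 (nat_lit 10752) (nat_lit 2) (nat_lit 6))
    (@En.n l41613 (nat_lit 5679) (nat_lit 9) (nat_lit 9))
    (@En.n l41614 (nat_lit 4639) (nat_lit 4) (nat_lit 6))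
    (@En.n l41615 (nat_lit 9069) (nat_lit 6) (nat_lit 11))
    (@En.n l41616 (nat_lit 9781) (nat_lit 6) (nat_lit 5))
    (@En.n l107 (nat_lit 10754) (nat_lit 7) (nat_lit 7))
    (@En.n l575 (nat_lit 10756) (nat_lit 9) (nat_lit 10))
    (@En.n l24144 (nat_lit 11372) (nat_lit 9) (nat_lit 4))
    (@En.n l644 (nat_lit 7946) (nat_lit 11) (nat_lit 10))
    (@En.n l41617 (nat_lit 12365) (nat_lit 12) (nat_lit 11))
    (@En.n l41615 (nat_lit 11509) (nat_lit 13) (nat_lit 7))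
    (@En.n l41618 (nat_lit 7939) (nat_lit 6) (nat_lit 12))
    (@En.n l133 (nat_lit 9848) (nat_lit 4) (nat_lit 9))
    (@En.n l17 (nat_lit 10755) (nat_lit 15) (nat_lit 2))))
  (@Cl.mk (nat_lit 0x2000a00050008000c000b000a00060004000a000500080006000b000e0006) (nat_lit 0x403a580020505a0) (nat_lit 16) Lb.e (@T16.mk En
    (@En.n l3098 (nat_lit 11802) (nat_lit 2) (nat_lit 6))
    (@En.n l1637 (nat_lit 8217) (nat_lit 4) (nat_lit 14))
    (@En.n l11 (nat_lit 10754) (nat_lit 2) (nat_lit 11))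
    (@En.n l11 (nat_lit 10753) (nat_lit 3) (nat_lit 6))
    (@En.n l40068 (nat_lit 5672) (nat_lit 4) (nat_lit 8))
    (@En.n l40069 (nat_lit 5234) (nat_lit 5) (nat_lit 5))
    (@En.n l40070 (nat_lit 9073) (nat_lit 7) (nat_lit 10))
    (@En.n l3880 (nat_lit 12813) (nat_lit 7) (nat_lit 4))
    (@En.n l5732 (nat_lit 5684) (nat_lit 8) (nat_lit 6))
    (@En.n l32176 (nat_lit 12204) (nat_lit 10) (nat_lit 10))
    (@En.n l644 (nat_lit 11732) (nat_lit 11) (nat_lit 11))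
    (@En.n l40071 (nat_lit 12360) (nat_lit 12) (nat_lit 12))
    (@En.n l40072 (nat_lit 12818) (nat_lit 13) (nat_lit 8))
    (@En.n l12229 (nat_lit 11735) (nat_lit 14) (nat_lit 5))
    (@En.n l133 (nat_lit 9850) (nat_lit 0) (nat_lit 10))
    (@En.n l17 (nat_lit 10756) (nat_lit 15) (nat_lit 2))))
  (@Cl.mk (nat_lit 0x20005000c0008000c000b0004000a0004000a00050008000b0006000e0006) (nat_lit 0x93a50202045080) (nat_lit 16) Lb.e (@T16.mk En
    (@En.n l17524 (nat_lit 11739) (nat_lit 6) (nat_lit 6))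
    (@En.n l3 (nat_lit 10754) (nat_lit 1) (nat_lit 14))
    (@En.n l527 (nat_lit 10755) (nat_lit 2) (nat_lit 6))
    (@En.i (nat_lit 7369) (nat_lit 3) (nat_lit 11))
    (@En.n l25362 (nat_lit 5671) (nat_lit 10) (nat_lit 8))
    (@En.n l40083 (nat_lit 4642) (nat_lit 5) (nat_lit 5))
    (@En.n l6646 (nat_lit 9074) (nat_lit 7) (nat_lit 10))
    (@En.n l7 (nat_lit 12811) (nat_lit 7) (nat_lit 4))
    (@En.n l15234 (nat_lit 12147) (nat_lit 9) (nat_lit 10))
    (@En.n l3763 (nat_lit 11700) (nat_lit 9) (nat_lit 4))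
    (@En.n l11529 (nat_lit 11731) (nat_lit 11) (nat_lit 11))
    (@En.n l3264 (nat_lit 12366) (nat_lit 12) (nat_lit 12))
    (@En.n l12229 (nat_lit 11735) (nat_lit 13) (nat_lit 8))
    (@En.n l40084 (nat_lit 7944) (nat_lit 14) (nat_lit 12))
    (@En.n l3106 (nat_lit 11485) (nat_lit 13) (nat_lit 5))
    (@En.n l17 (nat_lit 10757) (nat_lit 15) (nat_lit 2))))
  (@Cl.mk (nat_lit 0x2000a0005000d0008000b00030006000d000a000500030008000b000e0006) (nat_lit 0x30a450092005680) (nat_lit 16) Lb.e (@T16.mk En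
    (@En.n l3928 (nat_lit 11799) (nat_lit 6) (nat_lit 6))
    (@En.i (nat_lit 6715) (nat_lit 4) (nat_lit 14))
    (@En.i (nat_lit 4809) (nat_lit 2) (nat_lit 11))
    (@En.n l612 (nat_lit 10754) (nat_lit 3) (nat_lit 8))
    (@En.n l50 (nat_lit 10761) (nat_lit 4) (nat_lit 3))
    (@En.n l3201 (nat_lit 5276) (nat_lit 0) (nat_lit 5))
    (@En.n l217 (nat_lit 9072) (nat_lit 13) (nat_lit 10))
    (@En.n l1638 (nat_lit 10942) (nat_lit 8) (nat_lit 13))
    (@En.i (nat_lit 5688) (nat_lit 12) (nat_lit 6))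
    (@En.i (nat_lit 11729) (nat_lit 9) (nat_lit 3))
    (@En.n l3201 (nat_lit 12835) (nat_lit 0) (nat_lit 11))
    (@En.i (nat_lit 11732) (nat_lit 12) (nat_lit 8))
    (@En.i (nat_lit 7946) (nat_lit 13) (nat_lit 13))
    (@En.n l3264 (nat_lit 11731) (nat_lit 14) (nat_lit 5))
    (@En.n l3928 (nat_lit 11756) (nat_lit 4) (nat_lit 10))
    (@En.n l17 (nat_lit 10758) (nat_lit 15) (nat_lit 2))))
  (@Cl.mk (nat_lit 0x400070004000b000b00060009000c0005000500090004000c0007000c000a) (nat_lit 0x1306500205085) (nat_lit 16) Lb.e (@T16.mk En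
    (@En.n l899 (nat_lit 11799) (nat_lit 0) (nat_lit 10))
    (@En.n l725 (nat_lit 11804) (nat_lit 1) (nat_lit 12))
    (@En.i (nat_lit 11802) (nat_lit 14) (nat_lit 7))
    (@En.i (nat_lit 11803) (nat_lit 3) (nat_lit 12))
    (@En.n l2938 (nat_lit 11739) (nat_lit 4) (nat_lit 4))
    (@En.n l17133 (nat_lit 11766) (nat_lit 10) (nat_lit 9))
    (@En.n l152 (nat_lit 12229) (nat_lit 11) (nat_lit 5))
    (@En.i (nat_lit 11782) (nat_lit 7) (nat_lit 5))
    (@En.i (nat_lit 8847) (nat_lit 6) (nat_lit 12))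
    (@En.n l17133 (nat_lit 9233) (nat_lit 9) (nat_lit 9))
    (@En.i (nat_lit 9876) (nat_lit 2) (nat_lit 6))
    (@En.n l3536 (nat_lit 10754) (nat_lit 5) (nat_lit 11))
    (@En.n l3518 (nat_lit 8390) (nat_lit 13) (nat_lit 11))
    (@En.n l18 (nat_lit 11778) (nat_lit 8) (nat_lit 4))
    (@En.n l20665 (nat_lit 7793) (nat_lit 11) (nat_lit 7))
    (@En.n l3523 (nat_lit 11705) (nat_lit 1) (nat_lit 4))))
  (@Cl.mk (nat_lit 0x200090005000c00090009000d000400070003000b00070007000b000e0005) (nat_lit 0x307434000600410) (nat_lit 16) Lb.e (@T16.mk En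
    (@En.n l7691 (nat_lit 11705) (nat_lit 9) (nat_lit 5))
    (@En.i (nat_lit 624) (nat_lit 4) (nat_lit 14))
    (@En.i (nat_lit 10751) (nat_lit 2) (nat_lit 11))
    (@En.n l1172 (nat_lit 7664) (nat_lit 3) (nat_lit 7))
    (@En.n l3878 (nat_lit 11676) (nat_lit 4) (nat_lit 7))
    (@En.n l3879 (nat_lit 9896) (nat_lit 6) (nat_lit 11))
    (@En.n l7 (nat_lit 11702) (nat_lit 6) (nat_lit 3))
    (@En.i (nat_lit 12556) (nat_lit 7) (nat_lit 7))
    (@En.n l2678 (nat_lit 10753) (nat_lit 8) (nat_lit 4))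
    (@En.n l24142 (nat_lit 12367) (nat_lit 10) (nat_lit 13))
    (@En.n l24143 (nat_lit 11373) (nat_lit 11) (nat_lit 9))
    (@En.i (nat_lit 10977) (nat_lit 12) (nat_lit 9))
    (@En.n l24144 (nat_lit 11372) (nat_lit 13) (nat_lit 12))
    (@En.n l3763 (nat_lit 11700) (nat_lit 14) (nat_lit 5))
    (@En.n l1672 (nat_lit 11605) (nat_lit 5) (nat_lit 9))
    (@En.n l17 (nat_lit 10760) (nat_lit 15) (nat_lit 2))))
  (@Cl.mk (nat_lit 0x2000a0005000d0008000c00030006000d0004000b00030008000b000e0005) (nat_lit 0x307410080205680) (nat_lit 16) Lb.e (@T16.mk En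
    (@En.n l3098 (nat_lit 11719) (nat_lit 6) (nat_lit 5))
    (@En.i (nat_lit 6857) (nat_lit 4) (nat_lit 14))
    (@En.i (nat_lit 7500) (nat_lit 2) (nat_lit 11))
    (@En.n l513 (nat_lit 5678) (nat_lit 3) (nat_lit 8))
    (@En.i (nat_lit 10758) (nat_lit 4) (nat_lit 3))
    (@En.i (nat_lit 9438) (nat_lit 0) (nat_lit 11))
    (@En.i (nat_lit 10754) (nat_lit 6) (nat_lit 4))
    (@En.n l1638 (nat_lit 10941) (nat_lit 8) (nat_lit 13))
    (@En.i (nat_lit 5687) (nat_lit 12) (nat_lit 6))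
    (@En.i (nat_lit 11722) (nat_lit 9) (nat_lit 3))
    (@En.n l781 (nat_lit 4039) (nat_lit 0) (nat_lit 12))
    (@En.i (nat_lit 11724) (nat_lit 12) (nat_lit 8))
    (@En.i (nat_lit 11721) (nat_lit 13) (nat_lit 13))
    (@En.i (nat_lit 11725) (nat_lit 14) (nat_lit 5))
    (@En.n l2125 (nat_lit 11758) (nat_lit 4) (nat_lit 10))
    (@En.n l17 (nat_lit 10761) (nat_lit 15) (nat_lit 2))))
  (@Cl.mk (nat_lit 0x300090006000c0006000a000d000400070003000b0006000a000d000a0005) (nat_lit 0x50a013000408220) (nat_lit 16) Lb.e (@T16.mk En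
    (@En.n l10571 (nat_lit 10760) (nat_lit 0) (nat_lit 5))
    (@En.n l21661 (nat_lit 11868) (nat_lit 11) (nat_lit 10))
    (@En.n l21662 (nat_lit 1183) (nat_lit 5) (nat_lit 13))
    (@En.i (nat_lit 8856) (nat_lit 3) (nat_lit 10))
    (@En.n l21431 (nat_lit 10648) (nat_lit 14) (nat_lit 6))
    (@En.n l13333 (nat_lit 10678) (nat_lit 13) (nat_lit 11))
    (@En.n l21663 (nat_lit 10687) (nat_lit 6) (nat_lit 3))
    (@En.n l21664 (nat_lit 10784) (nat_lit 11) (nat_lit 7))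
    (@En.n l21665 (nat_lit 9979) (nat_lit 8) (nat_lit 4))
    (@En.n l21666 (nat_lit 11163) (nat_lit 5) (nat_lit 13))
    (@En.n l21667 (nat_lit 16) (nat_lit 1) (nat_lit 10))
    (@En.n l21668 (nat_lit 10503) (nat_lit 4) (nat_lit 6))
    (@En.n l20490 (nat_lit 10763) (nat_lit 13) (nat_lit 12))
    (@En.n l403 (nat_lit 10649) (nat_lit 14) (nat_lit 6))
    (@En.n l21669 (nat_lit 10642) (nat_lit 5) (nat_lit 9))
    (@En.n l21425 (nat_lit 9681) (nat_lit 15) (nat_lit 3))))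
  (@Cl.mk (nat_lit 0x30009000c00050009000c0004000b00070004000b00070005000d000b0005) (nat_lit 0x490430100500190) (nat_lit 16) Lb.e (@T16.mk En
    (@En.i (nat_lit 11372) (nat_lit 0) (nat_lit 5))
    (@En.n l33055 (nat_lit 11783) (nat_lit 5) (nat_lit 11))
    (@En.n l33056 (nat_lit 1034) (nat_lit 2) (nat_lit 13))
    (@En.n l33057 (nat_lit 10155) (nat_lit 3) (nat_lit 5))
    (@En.n l21431 (nat_lit 10647) (nat_lit 4) (nat_lit 7))
    (@En.n l33058 (nat_lit 10532) (nat_lit 6) (nat_lit 11))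
    (@En.n l33059 (nat_lit 12444) (nat_lit 6) (nat_lit 4))
    (@En.n l2781 (nat_lit 10762) (nat_lit 7) (nat_lit 7))
    (@En.n l33060 (nat_lit 41) (nat_lit 1) (nat_lit 11))
    (@En.n l33061 (nat_lit 9980) (nat_lit 9) (nat_lit 4))
    (@En.n l16958 (nat_lit 11166) (nat_lit 6) (nat_lit 12))
    (@En.n l33062 (nat_lit 10691) (nat_lit 10) (nat_lit 9))
    (@En.n l21668 (nat_lit 9872) (nat_lit 13) (nat_lit 5))
    (@En.n l33057 (nat_lit 10536) (nat_lit 6) (nat_lit 12))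
    (@En.n l33063 (nat_lit 10641) (nat_lit 1) (nat_lit 9))
    (@En.n l33064 (nat_lit 9676) (nat_lit 15) (nat_lit 3))))
  (@Cl.mk (nat_lit 0x3000a00060004000a000d000b00060003000b00060005000a000d0005000c) (nat_lit 0x400526004002302) (nat_lit 16) Lb.e (@T16.mk En
    (@En.n l7507 (nat_lit 1025) (nat_lit 0) (nat_lit 12))
    (@En.n l16382 (nat_lit 11987) (nat_lit 9) (nat_lit 5))
    (@En.n l31878 (nat_lit 12349) (nat_lit 5) (nat_lit 13))
    (@En.i (nat_lit 9681) (nat_lit 3) (nat_lit 10))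
    (@En.n l31878 (nat_lit 12411) (nat_lit 11) (nat_lit 5))
    (@En.n l6737 (nat_lit 10767) (nat_lit 14) (nat_lit 6))
    (@En.n l16588 (nat_lit 11775) (nat_lit 1) (nat_lit 11))
    (@En.n l31879 (nat_lit 34) (nat_lit 7) (nat_lit 3))
    (@En.n l31880 (nat_lit 10779) (nat_lit 0) (nat_lit 6))
    (@En.n l16661 (nat_lit 11838) (nat_lit 10) (nat_lit 11))
    (@En.n l396 (nat_lit 12350) (nat_lit 5) (nat_lit 13))
    (@En.n l31881 (nat_lit 10687) (nat_lit 3) (nat_lit 10))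
    (@En.n l29720 (nat_lit 12416) (nat_lit 4) (nat_lit 4))
    (@En.n l725 (nat_lit 10766) (nat_lit 14) (nat_lit 6))
    (@En.i (nat_lit 9980) (nat_lit 1) (nat_lit 10))
    (@En.n l1080 (nat_lit 41) (nat_lit 7) (nat_lit 3))))
  (@Cl.mk (nat_lit 0x300060004000a000d000b000a0003000900060005000a0006000d000c0007) (nat_lit 0x3b36040020140) (nat_lit 16) Lb.e (@T16.mk En
    (@En.n l10408 (nat_lit 10778) (nat_lit 0) (nat_lit 7))
    (@En.n l1767 (nat_lit 10773) (nat_lit 9) (nat_lit 12))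
    (@En.n l22779 (nat_lit 41) (nat_lit 2) (nat_lit 13))
    (@En.i (nat_lit 12689) (nat_lit 3) (nat_lit 6))
    (@En.n l1236 (nat_lit 10649) (nat_lit 4) (nat_lit 10))
    (@En.n l77 (nat_lit 12407) (nat_lit 5) (nat_lit 5))
    (@En.n l21291 (nat_lit 44) (nat_lit 6) (nat_lit 6))
    (@En.n l33580 (nat_lit 10644) (nat_lit 8) (nat_lit 9))
    (@En.n l10659 (nat_lit 10767) (nat_lit 8) (nat_lit 3))
    (@En.n l31376 (nat_lit 12576) (nat_lit 0) (nat_lit 10))
    (@En.n l33581 (nat_lit 11837) (nat_lit 11) (nat_lit 11))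
    (@En.n l33582 (nat_lit 12346) (nat_lit 5) (nat_lit 13))
    (@En.n l21140 (nat_lit 10648) (nat_lit 13) (nat_lit 10))
    (@En.n l33583 (nat_lit 12371) (nat_lit 4) (nat_lit 4))
    (@En.i (nat_lit 11913) (nat_lit 12) (nat_lit 6))
    (@En.n l4659 (nat_lit 10766) (nat_lit 15) (nat_lit 3))))
  (@Cl.mk (nat_lit 0x300060003000a000d000b000a0003000a00060005000a0006000d0006000d) (nat_lit 0x4235040020401) (nat_lit 16) Lb.e (@T16.mk En
    (@En.n l7507 (nat_lit 1014) (nat_lit 0) (nat_lit 13))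
    (@En.n l117 (nat_lit 11981) (nat_lit 3) (nat_lit 6))
    (@En.i (nat_lit 10764) (nat_lit 2) (nat_lit 13))
    (@En.n l3480 (nat_lit 12690) (nat_lit 5) (nat_lit 6))
    (@En.i (nat_lit 9683) (nat_lit 4) (nat_lit 10))
    (@En.n l644 (nat_lit 12404) (nat_lit 5) (nat_lit 5))
    (@En.n l2642 (nat_lit 10768) (nat_lit 6) (nat_lit 6))
    (@En.n l21670 (nat_lit 11774) (nat_lit 10) (nat_lit 10))
    (@En.n l6081 (nat_lit 10691) (nat_lit 8) (nat_lit 3))
    (@En.i (nat_lit 12573) (nat_lit 0) (nat_lit 10))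
    (@En.i (nat_lit 11836) (nat_lit 11) (nat_lit 11))
    (@En.n l396 (nat_lit 12351) (nat_lit 5) (nat_lit 13))
    (@En.i (nat_lit 10680) (nat_lit 13) (nat_lit 10))
    (@En.i (nat_lit 10773) (nat_lit 4) (nat_lit 3))
    (@En.n l1081 (nat_lit 11370) (nat_lit 12) (nat_lit 6))
    (@En.n l1080 (nat_lit 10765) (nat_lit 15) (nat_lit 3))))
  (@Cl.mk (nat_lit 0x300060004000a000d0009000c0003000900060004000a0007000d000c0007) (nat_lit 0x3231040060370) (nat_lit 16) Lb.e (@T16.mk En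
    (@En.n l17809 (nat_lit 10780) (nat_lit 0) (nat_lit 7))
    (@En.n l61 (nat_lit 10772) (nat_lit 9) (nat_lit 12))
    (@En.n l16753 (nat_lit 10764) (nat_lit 10) (nat_lit 13))
    (@En.n l15083 (nat_lit 10769) (nat_lit 3) (nat_lit 7))
    (@En.n l17700 (nat_lit 10688) (nat_lit 4) (nat_lit 10))
    (@En.i (nat_lit 12418) (nat_lit 5) (nat_lit 4))
    (@En.n l16756 (nat_lit 10768) (nat_lit 14) (nat_lit 6))
    (@En.n l3476 (nat_lit 9979) (nat_lit 1) (nat_lit 9))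
    (@En.n l16757 (nat_lit 10765) (nat_lit 8) (nat_lit 3))
    (@En.i (nat_lit 1024) (nat_lit 0) (nat_lit 12))
    (@En.n l16758 (nat_lit 10140) (nat_lit 11) (nat_lit 9))
    (@En.n l3471 (nat_lit 12348) (nat_lit 5) (nat_lit 13))
    (@En.n l16760 (nat_lit 9679) (nat_lit 13) (nat_lit 10))
    (@En.i (nat_lit 12585) (nat_lit 4) (nat_lit 4))
    (@En.n l3472 (nat_lit 11922) (nat_lit 12) (nat_lit 6))
    (@En.n l16761 (nat_lit 10691) (nat_lit 15) (nat_lit 3))))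
noncomputable def a673 : T16 Cl := @T16.mk Cl
  (@Cl.mk (nat_lit 0x300060003000a0006000d000c000b000300060004000a0005000d000a000d) (nat_lit 0x5034600030353) (nat_lit 16) Lb.e (@T16.mk En
    (@En.n l2038 (nat_lit 1368) (nat_lit 0) (nat_lit 13))
    (@En.n l10683 (nat_lit 12414) (nat_lit 10) (nat_lit 10))
    (@En.n l10684 (nat_lit 10767) (nat_lit 11) (nat_lit 13))
    (@En.n l10685 (nat_lit 12675) (nat_lit 3) (nat_lit 5))
    (@En.i (nat_lit 9682) (nat_lit 13) (nat_lit 10))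
    (@En.i (nat_lit 12582) (nat_lit 5) (nat_lit 4))
    (@En.n l10686 (nat_lit 11915) (nat_lit 12) (nat_lit 6))
    (@En.n l1185 (nat_lit 16) (nat_lit 7) (nat_lit 3))
    (@En.n l10687 (nat_lit 12581) (nat_lit 0) (nat_lit 11))
    (@En.n l10688 (nat_lit 10775) (nat_lit 10) (nat_lit 12))
    (@En.n l899 (nat_lit 10766) (nat_lit 11) (nat_lit 13))
    (@En.n l10674 (nat_lit 10770) (nat_lit 14) (nat_lit 6))
    (@En.n l1189 (nat_lit 10686) (nat_lit 4) (nat_lit 10))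
    (@En.n l10689 (nat_lit 10774) (nat_lit 5) (nat_lit 3))
    (@En.i (nat_lit 11375) (nat_lit 0) (nat_lit 6))
    (@En.n l1182 (nat_lit 44) (nat_lit 7) (nat_lit 3))))
  (@Cl.mk (nat_lit 0x3000b00040009000c00090005000c0004000a000700040007000d000c0006) (nat_lit 0x203240205000260) (nat_lit 16) Lb.e (@T16.mk En
    (@En.n l33572 (nat_lit 10781) (nat_lit 0) (nat_lit 6))
    (@En.n l644 (nat_lit 12596) (nat_lit 4) (nat_lit 12))
    (@En.n l33573 (nat_lit 12444) (nat_lit 2) (nat_lit 13))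
    (@En.n l3070 (nat_lit 12636) (nat_lit 11) (nat_lit 7))
    (@En.n l21636 (nat_lit 12424) (nat_lit 4) (nat_lit 4))
    (@En.n l21920 (nat_lit 10770) (nat_lit 0) (nat_lit 7))
    (@En.n l33574 (nat_lit 9981) (nat_lit 1) (nat_lit 10))
    (@En.n l33575 (nat_lit 12689) (nat_lit 7) (nat_lit 4))
    (@En.n l29654 (nat_lit 10767) (nat_lit 9) (nat_lit 12))
    (@En.n l33576 (nat_lit 10764) (nat_lit 1) (nat_lit 5))
    (@En.i (nat_lit 10144) (nat_lit 11) (nat_lit 9))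
    (@En.n l21639 (nat_lit 12357) (nat_lit 6) (nat_lit 12))
    (@En.n l33577 (nat_lit 9678) (nat_lit 13) (nat_lit 9))
    (@En.n l33578 (nat_lit 12586) (nat_lit 14) (nat_lit 4))
    (@En.n l33579 (nat_lit 11947) (nat_lit 0) (nat_lit 11))
    (@En.n l7 (nat_lit 10771) (nat_lit 1) (nat_lit 3))))
  (@Cl.mk (nat_lit 0x30006000d000c000b0003000a000400090005000c000a0006000d00040007) (nat_lit 0x23802040350400) (nat_lit 16) Lb.e (@T16.mk En
    (@En.i (nat_lit 8106) (nat_lit 0) (nat_lit 7))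
    (@En.n l7512 (nat_lit 12688) (nat_lit 6) (nat_lit 4))
    (@En.n l6606 (nat_lit 10768) (nat_lit 0) (nat_lit 13))
    (@En.n l24133 (nat_lit 10766) (nat_lit 1) (nat_lit 6))
    (@En.n l17911 (nat_lit 12407) (nat_lit 4) (nat_lit 10))
    (@En.n l17911 (nat_lit 10769) (nat_lit 11) (nat_lit 12))
    (@En.n l2547 (nat_lit 12687) (nat_lit 6) (nat_lit 5))
    (@En.n l7489 (nat_lit 9680) (nat_lit 13) (nat_lit 9))
    (@En.n l3815 (nat_lit 12584) (nat_lit 8) (nat_lit 4))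
    (@En.n l9025 (nat_lit 11763) (nat_lit 10) (nat_lit 10))
    (@En.n l9042 (nat_lit 10690) (nat_lit 10) (nat_lit 3))
    (@En.n l77 (nat_lit 12591) (nat_lit 0) (nat_lit 11))
    (@En.n l2544 (nat_lit 12438) (nat_lit 13) (nat_lit 12))
    (@En.n l3337 (nat_lit 12445) (nat_lit 2) (nat_lit 13))
    (@En.n l253 (nat_lit 12327) (nat_lit 12) (nat_lit 6))
    (@En.n l24134 (nat_lit 12436) (nat_lit 15) (nat_lit 3))))
  (@Cl.mk (nat_lit 0x30009000c00090005000c0004000b000700040007000d0005000d0003000b) (nat_lit 0x523020400020303) (nat_lit 16) Lb.e (@T16.mk En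
    (@En.n l14808 (nat_lit 12230) (nat_lit 0) (nat_lit 11))
    (@En.i (nat_lit 10769) (nat_lit 15) (nat_lit 3))
    (@En.n l21633 (nat_lit 1059) (nat_lit 0) (nat_lit 13))
    (@En.n l21634 (nat_lit 11985) (nat_lit 3) (nat_lit 5))
    (@En.n l21635 (nat_lit 12446) (nat_lit 2) (nat_lit 13))
    (@En.n l3070 (nat_lit 12329) (nat_lit 11) (nat_lit 7))
    (@En.n l21636 (nat_lit 11893) (nat_lit 4) (nat_lit 4))
    (@En.n l936 (nat_lit 10690) (nat_lit 0) (nat_lit 7))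
    (@En.n l2824 (nat_lit 10649) (nat_lit 1) (nat_lit 11))
    (@En.n l3068 (nat_lit 12690) (nat_lit 9) (nat_lit 4))
    (@En.n l21637 (nat_lit 10691) (nat_lit 9) (nat_lit 12))
    (@En.n l21638 (nat_lit 34) (nat_lit 1) (nat_lit 5))
    (@En.i (nat_lit 10143) (nat_lit 13) (nat_lit 9))
    (@En.n l21639 (nat_lit 12356) (nat_lit 6) (nat_lit 12))
    (@En.n l21640 (nat_lit 10683) (nat_lit 13) (nat_lit 9))
    (@En.i (nat_lit 12596) (nat_lit 15) (nat_lit 3))))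
  (@Cl.mk (nat_lit 0x3000a00060004000b0007000c0006000d000500040003000a000d0009000c) (nat_lit 0x300606020004441) (nat_lit 16) Lb.e (@T16.mk En
    (@En.i (nat_lit 1021) (nat_lit 0) (nat_lit 12))
    (@En.n l15079 (nat_lit 10142) (nat_lit 13) (nat_lit 9))
    (@En.n l645 (nat_lit 12355) (nat_lit 5) (nat_lit 13))
    (@En.n l5972 (nat_lit 11097) (nat_lit 3) (nat_lit 10))
    (@En.n l1056 (nat_lit 10691) (nat_lit 13) (nat_lit 3))
    (@En.i (nat_lit 12370) (nat_lit 0) (nat_lit 4))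
    (@En.n l15080 (nat_lit 12429) (nat_lit 0) (nat_lit 5))
    (@En.n l15081 (nat_lit 216) (nat_lit 1) (nat_lit 13))
    (@En.n l15082 (nat_lit 11982) (nat_lit 3) (nat_lit 6))
    (@En.n l15081 (nat_lit 12420) (nat_lit 10) (nat_lit 12))
    (@En.n l15083 (nat_lit 12596) (nat_lit 5) (nat_lit 7))
    (@En.n l15084 (nat_lit 11884) (nat_lit 12) (nat_lit 11))
    (@En.i (nat_lit 12203) (nat_lit 7) (nat_lit 4))
    (@En.n l15085 (nat_lit 10775) (nat_lit 14) (nat_lit 6))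
    (@En.n l197 (nat_lit 10687) (nat_lit 1) (nat_lit 10))
    (@En.n l15086 (nat_lit 10773) (nat_lit 15) (nat_lit 3))))
  (@Cl.mk (nat_lit 0x3000a00060005000b0006000c0006000d000500040003000a000d000b000a) (nat_lit 0x500203040005476) (nat_lit 16) Lb.e (@T16.mk En
    (@En.n l4233 (nat_lit 12572) (nat_lit 0) (nat_lit 10))
    (@En.n l16670 (nat_lit 9247) (nat_lit 13) (nat_lit 11))
    (@En.n l396 (nat_lit 12354) (nat_lit 5) (nat_lit 13))
    (@En.n l17092 (nat_lit 11100) (nat_lit 3) (nat_lit 10))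
    (@En.n l28 (nat_lit 10766) (nat_lit 13) (nat_lit 3))
    (@En.n l29718 (nat_lit 12363) (nat_lit 0) (nat_lit 4))
    (@En.i (nat_lit 12430) (nat_lit 0) (nat_lit 5))
    (@En.n l29719 (nat_lit 1158) (nat_lit 1) (nat_lit 13))
    (@En.n l17687 (nat_lit 11980) (nat_lit 3) (nat_lit 6))
    (@En.n l29720 (nat_lit 12416) (nat_lit 10) (nat_lit 12))
    (@En.n l29721 (nat_lit 5861) (nat_lit 5) (nat_lit 6))
    (@En.n l25041 (nat_lit 11883) (nat_lit 12) (nat_lit 11))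
    (@En.n l29718 (nat_lit 12408) (nat_lit 11) (nat_lit 5))
    (@En.n l29722 (nat_lit 10774) (nat_lit 14) (nat_lit 6))
    (@En.n l29719 (nat_lit 11773) (nat_lit 10) (nat_lit 10))
    (@En.n l29723 (nat_lit 10772) (nat_lit 15) (nat_lit 3))))
  (@Cl.mk (nat_lit 0x300060004000b0005000c000a000d000500040003000a0006000d000c000b) (nat_lit 0x40a2400050517) (nat_lit 16) Lb.e (@T16.mk En
    (@En.n l1439 (nat_lit 12639) (nat_lit 0) (nat_lit 11))
    (@En.n l16774 (nat_lit 26) (nat_lit 4) (nat_lit 12))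
    (@En.n l16775 (nat_lit 10773) (nat_lit 2) (nat_lit 13))
    (@En.n l16776 (nat_lit 12436) (nat_lit 14) (nat_lit 6))
    (@En.n l16777 (nat_lit 11099) (nat_lit 4) (nat_lit 10))
    (@En.n l16778 (nat_lit 10768) (nat_lit 13) (nat_lit 3))
    (@En.n l2044 (nat_lit 12362) (nat_lit 0) (nat_lit 4))
    (@En.n l16779 (nat_lit 12432) (nat_lit 7) (nat_lit 5))
    (@En.i (nat_lit 1114) (nat_lit 5) (nat_lit 13))
    (@En.n l16780 (nat_lit 12411) (nat_lit 10) (nat_lit 10))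
    (@En.n l2832 (nat_lit 12418) (nat_lit 11) (nat_lit 12))
    (@En.n l16781 (nat_lit 12708) (nat_lit 5) (nat_lit 5))
    (@En.n l16782 (nat_lit 11882) (nat_lit 13) (nat_lit 11))
    (@En.n l2832 (nat_lit 12583) (nat_lit 7) (nat_lit 4))
    (@En.n l1329 (nat_lit 11027) (nat_lit 12) (nat_lit 6))
    (@En.n l16783 (nat_lit 10775) (nat_lit 15) (nat_lit 3))))
  (@Cl.mk (nat_lit 0x300060003000b0006000c000a000d000500040003000a0006000d000a000d) (nat_lit 0x5032400050551) (nat_lit 16) Lb.e (@T16.mk En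
    (@En.n l725 (nat_lit 1009) (nat_lit 0) (nat_lit 13))
    (@En.n l6733 (nat_lit 12434) (nat_lit 3) (nat_lit 10))
    (@En.n l1223 (nat_lit 10772) (nat_lit 2) (nat_lit 13))
    (@En.n l725 (nat_lit 12437) (nat_lit 14) (nat_lit 6))
    (@En.n l6622 (nat_lit 11098) (nat_lit 4) (nat_lit 10))
    (@En.n l6734 (nat_lit 16) (nat_lit 5) (nat_lit 3))
    (@En.n l6735 (nat_lit 12044) (nat_lit 0) (nat_lit 4))
    (@En.n l6622 (nat_lit 12431) (nat_lit 7) (nat_lit 5))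
    (@En.n l6736 (nat_lit 1109) (nat_lit 5) (nat_lit 13))
    (@En.i (nat_lit 12406) (nat_lit 10) (nat_lit 10))
    (@En.n l6736 (nat_lit 12423) (nat_lit 11) (nat_lit 12))
    (@En.n l6737 (nat_lit 12438) (nat_lit 14) (nat_lit 6))
    (@En.n l6738 (nat_lit 11885) (nat_lit 13) (nat_lit 11))
    (@En.n l6739 (nat_lit 26) (nat_lit 7) (nat_lit 3))
    (@En.n l387 (nat_lit 12246) (nat_lit 0) (nat_lit 6))
    (@En.n l6740 (nat_lit 10774) (nat_lit 15) (nat_lit 3))))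
  (@Cl.mk (nat_lit 0x2000900050008000d000c000a000300070004000b00080006000b000e0005) (nat_lit 0x6029220007504a0) (nat_lit 16) Lb.e (@T16.mk En
    (@En.n l35420 (nat_lit 8805) (nat_lit 7) (nat_lit 5))
    (@En.i (nat_lit 12504) (nat_lit 4) (nat_lit 14))
    (@En.n l2804 (nat_lit 8913) (nat_lit 2) (nat_lit 11))
    (@En.i (nat_lit 10749) (nat_lit 3) (nat_lit 6))
    (@En.n l33322 (nat_lit 10535) (nat_lit 4) (nat_lit 8))
    (@En.n l35421 (nat_lit 9542) (nat_lit 13) (nat_lit 11))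
    (@En.n l17685 (nat_lit 8904) (nat_lit 6) (nat_lit 4))
    (@En.n l117 (nat_lit 7401) (nat_lit 7) (nat_lit 7))
    (@En.n l35422 (nat_lit 9977) (nat_lit 8) (nat_lit 3))
    (@En.n l11881 (nat_lit 6949) (nat_lit 0) (nat_lit 10))
    (@En.n l7475 (nat_lit 8906) (nat_lit 11) (nat_lit 12))
    (@En.n l18851 (nat_lit 6206) (nat_lit 12) (nat_lit 13))
    (@En.n l33322 (nat_lit 11539) (nat_lit 13) (nat_lit 8))
    (@En.n l15125 (nat_lit 9976) (nat_lit 14) (nat_lit 5))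
    (@En.n l17374 (nat_lit 10715) (nat_lit 5) (nat_lit 9))
    (@En.n l17 (nat_lit 10776) (nat_lit 15) (nat_lit 2))))
  (@Cl.mk (nat_lit 0x2000a000500090009000d000a00060003000a000700070006000b000e0006) (nat_lit 0x503241004000520) (nat_lit 16) Lb.e (@T16.mk En
    (@En.n l33559 (nat_lit 10116) (nat_lit 8) (nat_lit 6))
    (@En.i (nat_lit 10129) (nat_lit 4) (nat_lit 14))
    (@En.n l5117 (nat_lit 10760) (nat_lit 2) (nat_lit 11))
    (@En.i (nat_lit 10776) (nat_lit 3) (nat_lit 6))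
    (@En.n l575 (nat_lit 10799) (nat_lit 4) (nat_lit 7))
    (@En.n l13930 (nat_lit 12579) (nat_lit 5) (nat_lit 7))
    (@En.n l17642 (nat_lit 9884) (nat_lit 7) (nat_lit 10))
    (@En.n l17643 (nat_lit 10779) (nat_lit 7) (nat_lit 3))
    (@En.n l575 (nat_lit 38) (nat_lit 0) (nat_lit 6))
    (@En.n l644 (nat_lit 5158) (nat_lit 10) (nat_lit 10))
    (@En.n l7475 (nat_lit 11965) (nat_lit 11) (nat_lit 13))
    (@En.n l33560 (nat_lit 10784) (nat_lit 7) (nat_lit 9))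
    (@En.n l13930 (nat_lit 11385) (nat_lit 13) (nat_lit 9))
    (@En.n l24364 (nat_lit 10778) (nat_lit 14) (nat_lit 5))
    (@En.n l1167 (nat_lit 11592) (nat_lit 0) (nat_lit 10))
    (@En.n l17 (nat_lit 10777) (nat_lit 15) (nat_lit 2))))
  (@Cl.mk (nat_lit 0x2000500090009000d000a000900030009000700070006000b0007000e0007) (nat_lit 0x24214040006030) (nat_lit 16) Lb.e (@T16.mk En
    (@En.n l50 (nat_lit 10005) (nat_lit 7) (nat_lit 7))
    (@En.n l23238 (nat_lit 10777) (nat_lit 1) (nat_lit 14))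
    (@En.n l23239 (nat_lit 10788) (nat_lit 2) (nat_lit 7))
    (@En.n l3548 (nat_lit 11700) (nat_lit 3) (nat_lit 11))
    (@En.n l23240 (nat_lit 9976) (nat_lit 4) (nat_lit 6))
    (@En.n l3 (nat_lit 10800) (nat_lit 5) (nat_lit 7))
    (@En.n l23241 (nat_lit 12595) (nat_lit 6) (nat_lit 7))
    (@En.n l23242 (nat_lit 9883) (nat_lit 8) (nat_lit 9))
    (@En.n l23243 (nat_lit 10780) (nat_lit 8) (nat_lit 3))
    (@En.n l23244 (nat_lit 11355) (nat_lit 10) (nat_lit 9))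
    (@En.n l23245 (nat_lit 5156) (nat_lit 11) (nat_lit 10))
    (@En.n l23246 (nat_lit 12163) (nat_lit 12) (nat_lit 13))
    (@En.n l23247 (nat_lit 10785) (nat_lit 13) (nat_lit 9))
    (@En.n l23248 (nat_lit 6523) (nat_lit 14) (nat_lit 9))
    (@En.n l23249 (nat_lit 11660) (nat_lit 13) (nat_lit 5))
    (@En.n l18 (nat_lit 10778) (nat_lit 15) (nat_lit 2))))
  (@Cl.mk (nat_lit 0x2000b000500090009000d0005000b0003000a000700070005000b000e0006) (nat_lit 0x603240404000720) (nat_lit 16) Lb.e (@T16.mk En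
    (@En.n l21600 (nat_lit 10793) (nat_lit 8) (nat_lit 6))
    (@En.i (nat_lit 10122) (nat_lit 4) (nat_lit 14))
    (@En.n l21601 (nat_lit 11702) (nat_lit 2) (nat_lit 11))
    (@En.n l28 (nat_lit 8904) (nat_lit 3) (nat_lit 5))
    (@En.n l21602 (nat_lit 10797) (nat_lit 4) (nat_lit 7))
    (@En.n l21603 (nat_lit 12578) (nat_lit 5) (nat_lit 7))
    (@En.n l21604 (nat_lit 8628) (nat_lit 7) (nat_lit 10))
    (@En.n l21605 (nat_lit 10777) (nat_lit 7) (nat_lit 3))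
    (@En.n l21606 (nat_lit 2971) (nat_lit 9) (nat_lit 11))
    (@En.n l21604 (nat_lit 10994) (nat_lit 9) (nat_lit 5))
    (@En.i (nat_lit 11964) (nat_lit 11) (nat_lit 13))
    (@En.n l601 (nat_lit 10783) (nat_lit 7) (nat_lit 9))
    (@En.n l781 (nat_lit 11384) (nat_lit 13) (nat_lit 9))
    (@En.n l17733 (nat_lit 10780) (nat_lit 14) (nat_lit 5))
    (@En.n l10773 (nat_lit 11401) (nat_lit 0) (nat_lit 11))
    (@En.n l17 (nat_lit 10779) (nat_lit 15) (nat_lit 2))))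
  (@Cl.mk (nat_lit 0x2000500090009000d0008000b00030009000700070005000b0008000e0007) (nat_lit 0x24244040007430) (nat_lit 16) Lb.e (@T16.mk En
    (@En.n l10071 (nat_lit 10790) (nat_lit 7) (nat_lit 7))
    (@En.n l10072 (nat_lit 10779) (nat_lit 1) (nat_lit 14))
    (@En.n l10072 (nat_lit 10781) (nat_lit 2) (nat_lit 8))
    (@En.n l10073 (nat_lit 11701) (nat_lit 3) (nat_lit 11))
    (@En.n l10074 (nat_lit 8899) (nat_lit 4) (nat_lit 5))
    (@En.n l10075 (nat_lit 10795) (nat_lit 5) (nat_lit 7))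
    (@En.n l10076 (nat_lit 12590) (nat_lit 6) (nat_lit 7))
    (@En.n l2644 (nat_lit 8632) (nat_lit 8) (nat_lit 9))
    (@En.n l10077 (nat_lit 10778) (nat_lit 8) (nat_lit 3))
    (@En.n l10076 (nat_lit 3023) (nat_lit 10) (nat_lit 11))
    (@En.n l10078 (nat_lit 7439) (nat_lit 11) (nat_lit 8))
    (@En.n l9213 (nat_lit 12164) (nat_lit 12) (nat_lit 13))
    (@En.n l55 (nat_lit 10782) (nat_lit 13) (nat_lit 9))
    (@En.n l10079 (nat_lit 5433) (nat_lit 14) (nat_lit 9))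
    (@En.n l1081 (nat_lit 11668) (nat_lit 13) (nat_lit 5))
    (@En.n l3 (nat_lit 10780) (nat_lit 15) (nat_lit 2))))
  (@Cl.mk (nat_lit 0x2000b00080008000c00080005000b0004000a0008000800050008000e0006) (nat_lit 0x524340505400320) (nat_lit 16) Lb.e (@T16.mk En
    (@En.n l23219 (nat_lit 10791) (nat_lit 8) (nat_lit 6))
    (@En.i (nat_lit 10127) (nat_lit 1) (nat_lit 14))
    (@En.n l23220 (nat_lit 11134) (nat_lit 10) (nat_lit 8))
    (@En.n l18929 (nat_lit 8948) (nat_lit 3) (nat_lit 5))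
    (@En.n l21602 (nat_lit 10796) (nat_lit 4) (nat_lit 8))
    (@En.n l23221 (nat_lit 12588) (nat_lit 5) (nat_lit 8))
    (@En.n l23222 (nat_lit 9127) (nat_lit 7) (nat_lit 10))
    (@En.n l15483 (nat_lit 10788) (nat_lit 7) (nat_lit 4))
    (@En.n l23223 (nat_lit 10780) (nat_lit 9) (nat_lit 11))
    (@En.n l152 (nat_lit 10779) (nat_lit 9) (nat_lit 5))
    (@En.n l23224 (nat_lit 7437) (nat_lit 11) (nat_lit 8))
    (@En.i (nat_lit 12170) (nat_lit 12) (nat_lit 12))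
    (@En.n l601 (nat_lit 10786) (nat_lit 8) (nat_lit 8))
    (@En.n l23225 (nat_lit 5432) (nat_lit 14) (nat_lit 8))
    (@En.n l14811 (nat_lit 9851) (nat_lit 4) (nat_lit 11))
    (@En.n l17 (nat_lit 10781) (nat_lit 15) (nat_lit 2))))
  (@Cl.mk (nat_lit 0x200050009000d0007000a00030008000e000700020006000b0009000e0008) (nat_lit 0x310305c0008542) (nat_lit 16) Lb.e (@T16.mk En
    (@En.n l2519 (nat_lit 10110) (nat_lit 11) (nat_lit 8))
    (@En.n l12369 (nat_lit 10783) (nat_lit 12) (nat_lit 14))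
    (@En.n l12369 (nat_lit 10786) (nat_lit 13) (nat_lit 9))
    (@En.n l7271 (nat_lit 8108) (nat_lit 3) (nat_lit 11))
    (@En.i (nat_lit 8410) (nat_lit 4) (nat_lit 6))
    (@En.n l28 (nat_lit 10782) (nat_lit 5) (nat_lit 2))
    (@En.i (nat_lit 10780) (nat_lit 6) (nat_lit 7))
    (@En.n l7507 (nat_lit 3458) (nat_lit 8) (nat_lit 14))
    (@En.n l2644 (nat_lit 9135) (nat_lit 2) (nat_lit 8))
    (@En.n l15068 (nat_lit 10785) (nat_lit 9) (nat_lit 3))
    (@En.n l699 (nat_lit 3022) (nat_lit 11) (nat_lit 10))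
    (@En.n l3564 (nat_lit 7486) (nat_lit 12) (nat_lit 7))
    (@En.i (nat_lit 1820) (nat_lit 13) (nat_lit 13))
    (@En.n l2644 (nat_lit 11004) (nat_lit 14) (nat_lit 9))
    (@En.n l1081 (nat_lit 11432) (nat_lit 8) (nat_lit 5))
    (@En.n l3 (nat_lit 10782) (nat_lit 15) (nat_lit 2))))
  (@Cl.mk (nat_lit 0x20006000b000e00070002000c00050009000d0004000a00030009000e0007) (nat_lit 0x830090130305c0) (nat_lit 16) Lb.e (@T16.mk En
    (@En.n l7 (nat_lit 10779) (nat_lit 5) (nat_lit 7))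
    (@En.n l246 (nat_lit 3456) (nat_lit 7) (nat_lit 14))
    (@En.n l33493 (nat_lit 9137) (nat_lit 2) (nat_lit 9))
    (@En.n l12052 (nat_lit 10784) (nat_lit 3) (nat_lit 3))
    (@En.n l19004 (nat_lit 3021) (nat_lit 10) (nat_lit 10))
    (@En.n l33444 (nat_lit 11000) (nat_lit 5) (nat_lit 4))
    (@En.i (nat_lit 2783) (nat_lit 7) (nat_lit 13))
    (@En.n l33494 (nat_lit 4711) (nat_lit 13) (nat_lit 9))
    (@En.n l12099 (nat_lit 10782) (nat_lit 14) (nat_lit 5))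
    (@En.n l3265 (nat_lit 11493) (nat_lit 10) (nat_lit 12))
    (@En.n l17 (nat_lit 10783) (nat_lit 10) (nat_lit 2))
    (@En.n l9489 (nat_lit 10112) (nat_lit 12) (nat_lit 7))
    (@En.i (nat_lit 11636) (nat_lit 13) (nat_lit 14))
    (@En.n l246 (nat_lit 12246) (nat_lit 2) (nat_lit 11))
    (@En.i (nat_lit 8412) (nat_lit 3) (nat_lit 6))
    (@En.n l50 (nat_lit 10783) (nat_lit 15) (nat_lit 2))))
noncomputable def a674 : T16 Cl := @T16.mk Cl
  (@Cl.mk (nat_lit 0x20007000b000e00070002000b00050009000d0009000500030009000e0007) (nat_lit 0x63003013200510) (nat_lit 16) Lb.e (@T16.mk En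
    (@En.n l25216 (nat_lit 10777) (nat_lit 5) (nat_lit 7))
    (@En.n l25039 (nat_lit 3467) (nat_lit 7) (nat_lit 14))
    (@En.n l1246 (nat_lit 9901) (nat_lit 2) (nat_lit 9))
    (@En.n l25217 (nat_lit 10783) (nat_lit 3) (nat_lit 3))
    (@En.n l25218 (nat_lit 12556) (nat_lit 0) (nat_lit 5))
    (@En.n l17869 (nat_lit 5742) (nat_lit 5) (nat_lit 9))
    (@En.n l24432 (nat_lit 1828) (nat_lit 7) (nat_lit 13))
    (@En.i (nat_lit 4712) (nat_lit 13) (nat_lit 9))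
    (@En.n l25219 (nat_lit 10785) (nat_lit 14) (nat_lit 5))
    (@En.n l25220 (nat_lit 11590) (nat_lit 10) (nat_lit 11))
    (@En.n l3 (nat_lit 10784) (nat_lit 10) (nat_lit 2))
    (@En.n l25221 (nat_lit 10113) (nat_lit 12) (nat_lit 7))
    (@En.n l24432 (nat_lit 11639) (nat_lit 13) (nat_lit 14))
    (@En.n l7408 (nat_lit 11373) (nat_lit 2) (nat_lit 11))
    (@En.n l10039 (nat_lit 6210) (nat_lit 3) (nat_lit 7))
    (@En.n l50 (nat_lit 10784) (nat_lit 15) (nat_lit 2))))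
  (@Cl.mk (nat_lit 0x200050009000d0009000800030008000e000700020007000b0008000e0008) (nat_lit 0x311305c0006542) (nat_lit 16) Lb.e (@T16.mk En
    (@En.n l36589 (nat_lit 10111) (nat_lit 11) (nat_lit 8))
    (@En.n l36590 (nat_lit 10784) (nat_lit 12) (nat_lit 14))
    (@En.n l30767 (nat_lit 10787) (nat_lit 13) (nat_lit 8))
    (@En.n l3126 (nat_lit 8107) (nat_lit 3) (nat_lit 11))
    (@En.n l25166 (nat_lit 6209) (nat_lit 4) (nat_lit 7))
    (@En.n l50 (nat_lit 10785) (nat_lit 5) (nat_lit 2))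
    (@En.n l36591 (nat_lit 10778) (nat_lit 6) (nat_lit 7))
    (@En.n l9190 (nat_lit 6884) (nat_lit 8) (nat_lit 14))
    (@En.n l36592 (nat_lit 9902) (nat_lit 2) (nat_lit 8))
    (@En.n l21312 (nat_lit 10782) (nat_lit 9) (nat_lit 3))
    (@En.n l6918 (nat_lit 11366) (nat_lit 11) (nat_lit 8))
    (@En.n l36593 (nat_lit 5748) (nat_lit 12) (nat_lit 9))
    (@En.n l645 (nat_lit 1819) (nat_lit 13) (nat_lit 13))
    (@En.n l6918 (nat_lit 9034) (nat_lit 14) (nat_lit 9))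
    (@En.i (nat_lit 11430) (nat_lit 8) (nat_lit 5))
    (@En.n l936 (nat_lit 10785) (nat_lit 15) (nat_lit 2))))
  (@Cl.mk (nat_lit 0x200060009000e00070002000c0008000c00070004000a00040009000e0008) (nat_lit 0x43007320040645) (nat_lit 16) Lb.e (@T16.mk En
    (@En.n l7 (nat_lit 10781) (nat_lit 5) (nat_lit 8))
    (@En.n l19653 (nat_lit 3459) (nat_lit 1) (nat_lit 14))
    (@En.n l35964 (nat_lit 9136) (nat_lit 2) (nat_lit 9))
    (@En.n l2496 (nat_lit 10787) (nat_lit 3) (nat_lit 4))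
    (@En.n l18064 (nat_lit 10782) (nat_lit 10) (nat_lit 10))
    (@En.n l152 (nat_lit 10783) (nat_lit 5) (nat_lit 4))
    (@En.n l18801 (nat_lit 7442) (nat_lit 6) (nat_lit 7))
    (@En.i (nat_lit 2782) (nat_lit 8) (nat_lit 12))
    (@En.n l23225 (nat_lit 11002) (nat_lit 14) (nat_lit 8))
    (@En.n l35965 (nat_lit 11495) (nat_lit 10) (nat_lit 12))
    (@En.n l17 (nat_lit 10786) (nat_lit 10) (nat_lit 2))
    (@En.n l35966 (nat_lit 10114) (nat_lit 12) (nat_lit 7))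
    (@En.i (nat_lit 11640) (nat_lit 13) (nat_lit 14))
    (@En.n l19653 (nat_lit 12838) (nat_lit 9) (nat_lit 9))
    (@En.n l35967 (nat_lit 8411) (nat_lit 3) (nat_lit 6))
    (@En.n l50 (nat_lit 10786) (nat_lit 15) (nat_lit 2))))
  (@Cl.mk (nat_lit 0x200080008000e00070002000b0008000c00080008000500040009000e0008) (nat_lit 0x244005312200416) (nat_lit 16) Lb.e (@T16.mk En
    (@En.n l7399 (nat_lit 10788) (nat_lit 5) (nat_lit 8))
    (@En.n l8894 (nat_lit 2169) (nat_lit 7) (nat_lit 14))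
    (@En.n l810 (nat_lit 8182) (nat_lit 2) (nat_lit 9))
    (@En.n l20134 (nat_lit 10789) (nat_lit 3) (nat_lit 4))
    (@En.n l17120 (nat_lit 10784) (nat_lit 4) (nat_lit 5))
    (@En.n l61 (nat_lit 11362) (nat_lit 11) (nat_lit 8))
    (@En.n l3213 (nat_lit 5744) (nat_lit 6) (nat_lit 8))
    (@En.n l8348 (nat_lit 2698) (nat_lit 8) (nat_lit 12))
    (@En.i (nat_lit 10113) (nat_lit 14) (nat_lit 8))
    (@En.n l16657 (nat_lit 11192) (nat_lit 10) (nat_lit 11))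
    (@En.n l3 (nat_lit 10787) (nat_lit 10) (nat_lit 2))
    (@En.n l8158 (nat_lit 10115) (nat_lit 12) (nat_lit 7))
    (@En.n l7491 (nat_lit 11641) (nat_lit 13) (nat_lit 14))
    (@En.n l20135 (nat_lit 11369) (nat_lit 8) (nat_lit 8))
    (@En.n l7399 (nat_lit 8211) (nat_lit 3) (nat_lit 8))
    (@En.n l50 (nat_lit 10787) (nat_lit 15) (nat_lit 2))))
  (@Cl.mk (nat_lit 0x2000a00080008000c0009000900060004000a0008000800070007000e0006) (nat_lit 0x324215005540020) (nat_lit 16) Lb.e (@T16.mk En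
    (@En.n l18094 (nat_lit 9342) (nat_lit 8) (nat_lit 6))
    (@En.n l18095 (nat_lit 10131) (nat_lit 1) (nat_lit 14))
    (@En.n l18096 (nat_lit 11345) (nat_lit 9) (nat_lit 7))
    (@En.i (nat_lit 9338) (nat_lit 3) (nat_lit 7))
    (@En.n l3532 (nat_lit 10801) (nat_lit 4) (nat_lit 8))
    (@En.n l18097 (nat_lit 12738) (nat_lit 5) (nat_lit 8))
    (@En.n l18098 (nat_lit 8184) (nat_lit 7) (nat_lit 10))
    (@En.n l18099 (nat_lit 11644) (nat_lit 7) (nat_lit 4))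
    (@En.n l18100 (nat_lit 10777) (nat_lit 8) (nat_lit 6))
    (@En.n l18101 (nat_lit 11646) (nat_lit 10) (nat_lit 9))
    (@En.n l18098 (nat_lit 5157) (nat_lit 11) (nat_lit 9))
    (@En.n l18102 (nat_lit 10741) (nat_lit 12) (nat_lit 12))
    (@En.n l18103 (nat_lit 10787) (nat_lit 8) (nat_lit 8))
    (@En.n l3589 (nat_lit 6520) (nat_lit 14) (nat_lit 8))
    (@En.n l18104 (nat_lit 9861) (nat_lit 7) (nat_lit 10))
    (@En.n l28 (nat_lit 10788) (nat_lit 15) (nat_lit 2))))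
  (@Cl.mk (nat_lit 0x200070007000e00070002000d0008000c00030009000900040009000e0008) (nat_lit 0x4007210240353) (nat_lit 16) Lb.e (@T16.mk En
    (@En.n l33810 (nat_lit 11644) (nat_lit 5) (nat_lit 8))
    (@En.n l3548 (nat_lit 2434) (nat_lit 1) (nat_lit 14))
    (@En.i (nat_lit 9028) (nat_lit 2) (nat_lit 9))
    (@En.n l21014 (nat_lit 10786) (nat_lit 3) (nat_lit 4))
    (@En.n l23111 (nat_lit 11359) (nat_lit 10) (nat_lit 9))
    (@En.n l33811 (nat_lit 10785) (nat_lit 11) (nat_lit 9))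
    (@En.n l33812 (nat_lit 11351) (nat_lit 6) (nat_lit 3))
    (@En.n l33813 (nat_lit 2693) (nat_lit 0) (nat_lit 12))
    (@En.n l217 (nat_lit 10111) (nat_lit 14) (nat_lit 8))
    (@En.n l8916 (nat_lit 5033) (nat_lit 10) (nat_lit 13))
    (@En.n l28 (nat_lit 10789) (nat_lit 10) (nat_lit 2))
    (@En.n l33814 (nat_lit 11354) (nat_lit 12) (nat_lit 7))
    (@En.n l1578 (nat_lit 11371) (nat_lit 13) (nat_lit 14))
    (@En.n l8073 (nat_lit 11368) (nat_lit 9) (nat_lit 7))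
    (@En.n l2947 (nat_lit 8208) (nat_lit 3) (nat_lit 7))
    (@En.n l17 (nat_lit 10789) (nat_lit 15) (nat_lit 2))))
  (@Cl.mk (nat_lit 0x300090009000800080006000c000900070007000400080008000d0007000a) (nat_lit 0x756108600035303) (nat_lit 16) Lb.e (@T16.mk En
    (@En.n l18153 (nat_lit 3664) (nat_lit 8) (nat_lit 10))
    (@En.n l23179 (nat_lit 5849) (nat_lit 12) (nat_lit 7))
    (@En.n l23180 (nat_lit 12174) (nat_lit 2) (nat_lit 13))
    (@En.n l23181 (nat_lit 10110) (nat_lit 8) (nat_lit 8))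
    (@En.n l23182 (nat_lit 5436) (nat_lit 4) (nat_lit 8))
    (@En.n l23183 (nat_lit 10004) (nat_lit 5) (nat_lit 4))
    (@En.n l23184 (nat_lit 7972) (nat_lit 9) (nat_lit 7))
    (@En.i (nat_lit 9039) (nat_lit 1) (nat_lit 7))
    (@En.n l23185 (nat_lit 10791) (nat_lit 9) (nat_lit 9))
    (@En.n l23186 (nat_lit 11703) (nat_lit 10) (nat_lit 12))
    (@En.n l23187 (nat_lit 8892) (nat_lit 10) (nat_lit 6))
    (@En.n l17023 (nat_lit 5857) (nat_lit 8) (nat_lit 8))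
    (@En.i (nat_lit 11982) (nat_lit 8) (nat_lit 8))
    (@En.n l23188 (nat_lit 10780) (nat_lit 7) (nat_lit 9))
    (@En.n l23189 (nat_lit 9911) (nat_lit 12) (nat_lit 9))
    (@En.n l23190 (nat_lit 10005) (nat_lit 15) (nat_lit 3))))
  (@Cl.mk (nat_lit 0x4000a000a000900090006000900060006000b00070007000c00070005000a) (nat_lit 0x864605004002004) (nat_lit 16) Lb.e (@T16.mk En
    (@En.n l38802 (nat_lit 10790) (nat_lit 0) (nat_lit 10))
    (@En.n l38803 (nat_lit 10793) (nat_lit 1) (nat_lit 5))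
    (@En.n l38804 (nat_lit 7440) (nat_lit 0) (nat_lit 7))
    (@En.n l38805 (nat_lit 12175) (nat_lit 8) (nat_lit 12))
    (@En.n l38806 (nat_lit 10114) (nat_lit 9) (nat_lit 7))
    (@En.i (nat_lit 5435) (nat_lit 5) (nat_lit 7))
    (@En.n l117 (nat_lit 11179) (nat_lit 9) (nat_lit 11))
    (@En.n l575 (nat_lit 7974) (nat_lit 10) (nat_lit 6))
    (@En.n l38807 (nat_lit 10285) (nat_lit 8) (nat_lit 6))
    (@En.i (nat_lit 10097) (nat_lit 9) (nat_lit 9))
    (@En.n l38808 (nat_lit 8894) (nat_lit 1) (nat_lit 6))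
    (@En.n l38809 (nat_lit 10792) (nat_lit 7) (nat_lit 9))
    (@En.n l38810 (nat_lit 11984) (nat_lit 7) (nat_lit 9))
    (@En.n l38811 (nat_lit 10781) (nat_lit 6) (nat_lit 10))
    (@En.n l16412 (nat_lit 9916) (nat_lit 11) (nat_lit 10))
    (@En.n l38812 (nat_lit 9342) (nat_lit 15) (nat_lit 4))))
  (@Cl.mk (nat_lit 0x2000c00080006000b0004000b000b00090005000800050005000a000e0007) (nat_lit 0x430309850400280) (nat_lit 16) Lb.e (@T16.mk En
    (@En.n l23981 (nat_lit 10791) (nat_lit 5) (nat_lit 7))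
    (@En.i (nat_lit 4470) (nat_lit 1) (nat_lit 14))
    (@En.n l830 (nat_lit 11170) (nat_lit 2) (nat_lit 10))
    (@En.n l23982 (nat_lit 7973) (nat_lit 11) (nat_lit 5))
    (@En.n l23983 (nat_lit 9286) (nat_lit 4) (nat_lit 5))
    (@En.n l23984 (nat_lit 10095) (nat_lit 10) (nat_lit 8))
    (@En.n l23985 (nat_lit 6365) (nat_lit 6) (nat_lit 5))
    (@En.n l21047 (nat_lit 12036) (nat_lit 8) (nat_lit 9))
    (@En.n l23986 (nat_lit 10796) (nat_lit 5) (nat_lit 11))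
    (@En.n l6822 (nat_lit 9610) (nat_lit 10) (nat_lit 11))
    (@En.n l23987 (nat_lit 10802) (nat_lit 10) (nat_lit 4))
    (@En.n l23988 (nat_lit 5857) (nat_lit 12) (nat_lit 11))
    (@En.n l23985 (nat_lit 10794) (nat_lit 13) (nat_lit 6))
    (@En.n l15808 (nat_lit 5850) (nat_lit 14) (nat_lit 8))
    (@En.n l23989 (nat_lit 10045) (nat_lit 3) (nat_lit 12))
    (@En.n l17 (nat_lit 10792) (nat_lit 15) (nat_lit 2))))
  (@Cl.mk (nat_lit 0x3000a000a000800080006000c00060006000b000400080008000d0005000a) (nat_lit 0x855507002022404) (nat_lit 16) Lb.e (@T16.mk En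
    (@En.i (nat_lit 2037) (nat_lit 0) (nat_lit 10))
    (@En.n l35316 (nat_lit 8010) (nat_lit 12) (nat_lit 5))
    (@En.n l35317 (nat_lit 11967) (nat_lit 2) (nat_lit 13))
    (@En.n l17165 (nat_lit 10112) (nat_lit 8) (nat_lit 8))
    (@En.n l35318 (nat_lit 11388) (nat_lit 11) (nat_lit 8))
    (@En.n l35319 (nat_lit 10790) (nat_lit 5) (nat_lit 4))
    (@En.n l35320 (nat_lit 11407) (nat_lit 0) (nat_lit 11))
    (@En.n l35321 (nat_lit 7970) (nat_lit 10) (nat_lit 6))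
    (@En.n l936 (nat_lit 11579) (nat_lit 8) (nat_lit 6))
    (@En.n l35322 (nat_lit 11706) (nat_lit 10) (nat_lit 12))
    (@En.n l217 (nat_lit 8905) (nat_lit 10) (nat_lit 6))
    (@En.n l35323 (nat_lit 10794) (nat_lit 8) (nat_lit 8))
    (@En.n l35324 (nat_lit 10703) (nat_lit 13) (nat_lit 8))
    (@En.n l35325 (nat_lit 10779) (nat_lit 6) (nat_lit 10))
    (@En.n l19595 (nat_lit 9873) (nat_lit 9) (nat_lit 10))
    (@En.n l35326 (nat_lit 10116) (nat_lit 15) (nat_lit 3))))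
  (@Cl.mk (nat_lit 0x2000d0006000b0003000b000b00080005000c00050005000a0004000e0008) (nat_lit 0x705097406002093) (nat_lit 16) Lb.e (@T16.mk En
    (@En.n l8133 (nat_lit 10793) (nat_lit 4) (nat_lit 8))
    (@En.n l6448 (nat_lit 11188) (nat_lit 1) (nat_lit 14))
    (@En.n l3958 (nat_lit 5857) (nat_lit 2) (nat_lit 4))
    (@En.n l899 (nat_lit 9806) (nat_lit 3) (nat_lit 10))
    (@En.n l152 (nat_lit 7967) (nat_lit 11) (nat_lit 5))
    (@En.n l3851 (nat_lit 9052) (nat_lit 5) (nat_lit 5))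
    (@En.n l2255 (nat_lit 11067) (nat_lit 7) (nat_lit 12))
    (@En.i (nat_lit 6364) (nat_lit 7) (nat_lit 5))
    (@En.n l19521 (nat_lit 9202) (nat_lit 13) (nat_lit 8))
    (@En.n l3536 (nat_lit 10797) (nat_lit 5) (nat_lit 11))
    (@En.n l18831 (nat_lit 9870) (nat_lit 11) (nat_lit 11))
    (@En.n l3523 (nat_lit 10798) (nat_lit 11) (nat_lit 3))
    (@En.n l8133 (nat_lit 2032) (nat_lit 0) (nat_lit 11))
    (@En.n l5748 (nat_lit 7997) (nat_lit 14) (nat_lit 6))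
    (@En.n l3961 (nat_lit 11978) (nat_lit 2) (nat_lit 13))
    (@En.n l7 (nat_lit 10794) (nat_lit 15) (nat_lit 2))))
  (@Cl.mk (nat_lit 0x20005000e00090002000d0009000c0003000a00070004000b0007000e0006) (nat_lit 0x330a5506006030) (nat_lit 16) Lb.e (@T16.mk En
    (@En.n l3759 (nat_lit 5857) (nat_lit 4) (nat_lit 6))
    (@En.n l3 (nat_lit 10797) (nat_lit 1) (nat_lit 14))
    (@En.n l3 (nat_lit 10796) (nat_lit 2) (nat_lit 7))
    (@En.n l3760 (nat_lit 7666) (nat_lit 3) (nat_lit 11))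
    (@En.i (nat_lit 5889) (nat_lit 4) (nat_lit 4))
    (@En.n l3761 (nat_lit 12581) (nat_lit 5) (nat_lit 7))
    (@En.n l3762 (nat_lit 8630) (nat_lit 11) (nat_lit 10))
    (@En.n l3763 (nat_lit 10800) (nat_lit 7) (nat_lit 3))
    (@En.n l3764 (nat_lit 4142) (nat_lit 9) (nat_lit 12))
    (@En.n l3765 (nat_lit 5852) (nat_lit 10) (nat_lit 9))
    (@En.n l3766 (nat_lit 10047) (nat_lit 11) (nat_lit 13))
    (@En.n l11 (nat_lit 10795) (nat_lit 11) (nat_lit 2))
    (@En.n l3767 (nat_lit 10780) (nat_lit 13) (nat_lit 9))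
    (@En.n l3761 (nat_lit 3137) (nat_lit 1) (nat_lit 14))
    (@En.n l3106 (nat_lit 11666) (nat_lit 13) (nat_lit 5))
    (@En.n l17 (nat_lit 10795) (nat_lit 15) (nat_lit 2))))
  (@Cl.mk (nat_lit 0x2000a000e00080002000c00090006000c0004000b000800040007000e0005) (nat_lit 0x533095060760020) (nat_lit 16) Lb.e (@T16.mk En
    (@En.n l10558 (nat_lit 10792) (nat_lit 4) (nat_lit 5))
    (@En.i (nat_lit 10121) (nat_lit 1) (nat_lit 14))
    (@En.n l9184 (nat_lit 10100) (nat_lit 11) (nat_lit 7))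
    (@En.i (nat_lit 7514) (nat_lit 3) (nat_lit 4))
    (@En.n l10559 (nat_lit 12591) (nat_lit 4) (nat_lit 8))
    (@En.n l10560 (nat_lit 11532) (nat_lit 10) (nat_lit 11))
    (@En.n l3197 (nat_lit 10801) (nat_lit 6) (nat_lit 4))
    (@En.n l1690 (nat_lit 10795) (nat_lit 8) (nat_lit 12))
    (@En.n l152 (nat_lit 10797) (nat_lit 8) (nat_lit 6))
    (@En.n l3618 (nat_lit 7441) (nat_lit 14) (nat_lit 9))
    (@En.n l3766 (nat_lit 10041) (nat_lit 11) (nat_lit 12))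
    (@En.n l11 (nat_lit 10796) (nat_lit 11) (nat_lit 2))
    (@En.n l7475 (nat_lit 10781) (nat_lit 13) (nat_lit 8))
    (@En.n l10561 (nat_lit 3139) (nat_lit 1) (nat_lit 14))
    (@En.n l10562 (nat_lit 10971) (nat_lit 2) (nat_lit 10))
    (@En.n l17 (nat_lit 10796) (nat_lit 15) (nat_lit 2))))
  (@Cl.mk (nat_lit 0x2000a0005000e00090002000d0006000c0003000b00070004000b000e0005) (nat_lit 0x304405030600620) (nat_lit 16) Lb.e (@T16.mk En
    (@En.n l3098 (nat_lit 10794) (nat_lit 5) (nat_lit 5))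
    (@En.i (nat_lit 10119) (nat_lit 7) (nat_lit 14))
    (@En.n l3760 (nat_lit 7667) (nat_lit 2) (nat_lit 11))
    (@En.i (nat_lit 7501) (nat_lit 3) (nat_lit 4))
    (@En.n l9133 (nat_lit 12573) (nat_lit 4) (nat_lit 7))
    (@En.n l9134 (nat_lit 8627) (nat_lit 11) (nat_lit 11))
    (@En.i (nat_lit 10799) (nat_lit 6) (nat_lit 3))
    (@En.n l3872 (nat_lit 4141) (nat_lit 8) (nat_lit 12))
    (@En.n l810 (nat_lit 7999) (nat_lit 14) (nat_lit 6))
    (@En.n l3766 (nat_lit 11961) (nat_lit 10) (nat_lit 13))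
    (@En.n l11 (nat_lit 10797) (nat_lit 10) (nat_lit 2))
    (@En.n l7475 (nat_lit 10779) (nat_lit 12) (nat_lit 9))
    (@En.n l3761 (nat_lit 11186) (nat_lit 1) (nat_lit 14))
    (@En.i (nat_lit 10795) (nat_lit 14) (nat_lit 5))
    (@En.n l2125 (nat_lit 11396) (nat_lit 3) (nat_lit 10))
    (@En.n l17 (nat_lit 10797) (nat_lit 15) (nat_lit 2))))
  (@Cl.mk (nat_lit 0x2000d000a00070003000b000b00080006000c0005000500090004000e0008) (nat_lit 0x310097405004095) (nat_lit 16) Lb.e (@T16.mk En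
    (@En.n l97 (nat_lit 10116) (nat_lit 4) (nat_lit 8))
    (@En.n l32238 (nat_lit 11187) (nat_lit 1) (nat_lit 14))
    (@En.n l403 (nat_lit 5858) (nat_lit 2) (nat_lit 4))
    (@En.n l9885 (nat_lit 11386) (nat_lit 3) (nat_lit 9))
    (@En.n l18 (nat_lit 7965) (nat_lit 11) (nat_lit 5))
    (@En.n l28839 (nat_lit 9051) (nat_lit 5) (nat_lit 5))
    (@En.n l1865 (nat_lit 12626) (nat_lit 7) (nat_lit 12))
    (@En.n l1075 (nat_lit 8847) (nat_lit 7) (nat_lit 6))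
    (@En.n l23341 (nat_lit 9201) (nat_lit 13) (nat_lit 8))
    (@En.n l18630 (nat_lit 10799) (nat_lit 5) (nat_lit 11))
    (@En.i (nat_lit 9839) (nat_lit 11) (nat_lit 11))
    (@En.n l9884 (nat_lit 10794) (nat_lit 11) (nat_lit 3))
    (@En.n l32239 (nat_lit 12535) (nat_lit 0) (nat_lit 7))
    (@En.n l9885 (nat_lit 5155) (nat_lit 14) (nat_lit 10))
    (@En.n l25258 (nat_lit 10674) (nat_lit 2) (nat_lit 13))
    (@En.n l67 (nat_lit 10798) (nat_lit 15) (nat_lit 2))))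
  (@Cl.mk (nat_lit 0x200090005000e00090002000d000b00070003000b00070005000b000e0005) (nat_lit 0x504404200600590) (nat_lit 16) Lb.e (@T16.mk En
    (@En.n l7691 (nat_lit 10798) (nat_lit 5) (nat_lit 5))
    (@En.i (nat_lit 10123) (nat_lit 7) (nat_lit 14))
    (@En.i (nat_lit 7664) (nat_lit 2) (nat_lit 11))
    (@En.i (nat_lit 10750) (nat_lit 3) (nat_lit 5))
    (@En.i (nat_lit 12576) (nat_lit 4) (nat_lit 7))
    (@En.n l564 (nat_lit 9881) (nat_lit 11) (nat_lit 11))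
    (@En.n l7 (nat_lit 10797) (nat_lit 6) (nat_lit 3))
    (@En.i (nat_lit 12554) (nat_lit 7) (nat_lit 7))
    (@En.n l644 (nat_lit 5154) (nat_lit 9) (nat_lit 11))
    (@En.i (nat_lit 11962) (nat_lit 10) (nat_lit 13))
    (@En.n l11 (nat_lit 10799) (nat_lit 10) (nat_lit 2))
    (@En.i (nat_lit 10777) (nat_lit 12) (nat_lit 9))
    (@En.n l781 (nat_lit 11184) (nat_lit 1) (nat_lit 14))
    (@En.n l3763 (nat_lit 10800) (nat_lit 14) (nat_lit 5))
    (@En.n l2125 (nat_lit 11602) (nat_lit 3) (nat_lit 9))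
    (@En.n l17 (nat_lit 10799) (nat_lit 15) (nat_lit 2))))
noncomputable def a675 : T16 Cl := @T16.mk Cl
  (@Cl.mk (nat_lit 0x20005000e00090002000d000b000a0003000a00070005000b0006000e0006) (nat_lit 0x330425060050a0) (nat_lit 16) Lb.e (@T16.mk En
    (@En.n l50 (nat_lit 5858) (nat_lit 4) (nat_lit 6))
    (@En.n l10571 (nat_lit 10799) (nat_lit 1) (nat_lit 14))
    (@En.n l10572 (nat_lit 10801) (nat_lit 2) (nat_lit 6))
    (@En.n l117 (nat_lit 7662) (nat_lit 3) (nat_lit 11))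
    (@En.n l10573 (nat_lit 7369) (nat_lit 4) (nat_lit 5))
    (@En.n l10574 (nat_lit 12640) (nat_lit 5) (nat_lit 7))
    (@En.n l265 (nat_lit 9882) (nat_lit 11) (nat_lit 10))
    (@En.n l10575 (nat_lit 10795) (nat_lit 7) (nat_lit 3))
    (@En.n l9875 (nat_lit 12552) (nat_lit 9) (nat_lit 10))
    (@En.n l10576 (nat_lit 5152) (nat_lit 10) (nat_lit 11))
    (@En.n l10577 (nat_lit 12132) (nat_lit 11) (nat_lit 13))
    (@En.n l67 (nat_lit 10800) (nat_lit 11) (nat_lit 2))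
    (@En.n l97 (nat_lit 10778) (nat_lit 13) (nat_lit 9))
    (@En.n l10578 (nat_lit 3138) (nat_lit 1) (nat_lit 14))
    (@En.n l3155 (nat_lit 11667) (nat_lit 13) (nat_lit 5))
    (@En.n l18 (nat_lit 10800) (nat_lit 15) (nat_lit 2))))
  (@Cl.mk (nat_lit 0x20009000e00080002000c000a000a00070004000b000800060006000e0005) (nat_lit 0x323032600730020) (nat_lit 16) Lb.e (@T16.mk En
    (@En.n l7404 (nat_lit 10802) (nat_lit 4) (nat_lit 5))
    (@En.n l7405 (nat_lit 10102) (nat_lit 1) (nat_lit 14))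
    (@En.n l1577 (nat_lit 12836) (nat_lit 10) (nat_lit 6))
    (@En.i (nat_lit 10748) (nat_lit 3) (nat_lit 6))
    (@En.n l7132 (nat_lit 9244) (nat_lit 4) (nat_lit 8))
    (@En.n l7406 (nat_lit 9885) (nat_lit 10) (nat_lit 11))
    (@En.n l61 (nat_lit 10803) (nat_lit 6) (nat_lit 4))
    (@En.n l7407 (nat_lit 10799) (nat_lit 7) (nat_lit 7))
    (@En.n l1578 (nat_lit 11648) (nat_lit 9) (nat_lit 10))
    (@En.n l7408 (nat_lit 5151) (nat_lit 14) (nat_lit 10))
    (@En.i (nat_lit 10737) (nat_lit 11) (nat_lit 12))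
    (@En.n l3 (nat_lit 10801) (nat_lit 11) (nat_lit 2))
    (@En.n l517 (nat_lit 10788) (nat_lit 13) (nat_lit 8))
    (@En.n l7132 (nat_lit 2985) (nat_lit 1) (nat_lit 14))
    (@En.n l7409 (nat_lit 11182) (nat_lit 2) (nat_lit 9))
    (@En.n l50 (nat_lit 10801) (nat_lit 15) (nat_lit 2))))
  (@Cl.mk (nat_lit 0x2000c0009000900070004000b000b000900070007000500050009000e0007) (nat_lit 0x326002840000280) (nat_lit 16) Lb.e (@T16.mk En
    (@En.n l9877 (nat_lit 9342) (nat_lit 5) (nat_lit 7))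
    (@En.n l18135 (nat_lit 2914) (nat_lit 1) (nat_lit 14))
    (@En.n l9885 (nat_lit 11181) (nat_lit 2) (nat_lit 9))
    (@En.n l18 (nat_lit 7975) (nat_lit 11) (nat_lit 5))
    (@En.n l18136 (nat_lit 11910) (nat_lit 4) (nat_lit 5))
    (@En.n l18137 (nat_lit 11346) (nat_lit 9) (nat_lit 7))
    (@En.n l1075 (nat_lit 8712) (nat_lit 6) (nat_lit 7))
    (@En.n l6444 (nat_lit 11850) (nat_lit 8) (nat_lit 9))
    (@En.n l18138 (nat_lit 10801) (nat_lit 5) (nat_lit 11))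
    (@En.n l18139 (nat_lit 9887) (nat_lit 10) (nat_lit 11))
    (@En.n l18136 (nat_lit 11653) (nat_lit 10) (nat_lit 4))
    (@En.i (nat_lit 10798) (nat_lit 12) (nat_lit 7))
    (@En.n l18140 (nat_lit 11651) (nat_lit 7) (nat_lit 9))
    (@En.n l9885 (nat_lit 5150) (nat_lit 14) (nat_lit 9))
    (@En.n l18141 (nat_lit 10739) (nat_lit 3) (nat_lit 12))
    (@En.n l67 (nat_lit 10802) (nat_lit 15) (nat_lit 2))))
  (@Cl.mk (nat_lit 0x2000b000e00080002000c0005000b000b0004000b000800050005000e0005) (nat_lit 0x734040370620020) (nat_lit 16) Lb.e (@T16.mk En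
    (@En.n l17631 (nat_lit 11653) (nat_lit 4) (nat_lit 5))
    (@En.n l6606 (nat_lit 7665) (nat_lit 1) (nat_lit 14))
    (@En.n l1577 (nat_lit 12835) (nat_lit 11) (nat_lit 5))
    (@En.i (nat_lit 8710) (nat_lit 7) (nat_lit 5))
    (@En.n l7132 (nat_lit 9240) (nat_lit 4) (nat_lit 8))
    (@En.i (nat_lit 8083) (nat_lit 10) (nat_lit 11))
    (@En.n l6606 (nat_lit 10796) (nat_lit 6) (nat_lit 4))
    (@En.n l17632 (nat_lit 11647) (nat_lit 8) (nat_lit 11))
    (@En.n l1246 (nat_lit 10800) (nat_lit 9) (nat_lit 11))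
    (@En.n l17 (nat_lit 7660) (nat_lit 14) (nat_lit 5))
    (@En.n l4427 (nat_lit 12338) (nat_lit 11) (nat_lit 12))
    (@En.n l3 (nat_lit 10803) (nat_lit 11) (nat_lit 2))
    (@En.n l17633 (nat_lit 11644) (nat_lit 13) (nat_lit 8))
    (@En.n l7132 (nat_lit 3133) (nat_lit 4) (nat_lit 14))
    (@En.n l16616 (nat_lit 5075) (nat_lit 2) (nat_lit 11))
    (@En.n l50 (nat_lit 10803) (nat_lit 15) (nat_lit 2))))
  (@Cl.mk (nat_lit 0x30008000c000b000a00070004000b000500080006000c0005000d00090004) (nat_lit 0x577800805030720) (nat_lit 16) Lb.e (@T16.mk En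
    (@En.n l41385 (nat_lit 10752) (nat_lit 0) (nat_lit 4))
    (@En.n l1236 (nat_lit 6853) (nat_lit 0) (nat_lit 9))
    (@En.n l42005 (nat_lit 2361) (nat_lit 1) (nat_lit 13))
    (@En.n l42006 (nat_lit 10712) (nat_lit 3) (nat_lit 5))
    (@En.n l42007 (nat_lit 9789) (nat_lit 5) (nat_lit 12))
    (@En.n l34397 (nat_lit 11924) (nat_lit 5) (nat_lit 6))
    (@En.n l22253 (nat_lit 9155) (nat_lit 10) (nat_lit 8))
    (@En.n l27872 (nat_lit 4648) (nat_lit 7) (nat_lit 5))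
    (@En.n l11010 (nat_lit 9979) (nat_lit 9) (nat_lit 11))
    (@En.n l517 (nat_lit 10155) (nat_lit 9) (nat_lit 4))
    (@En.i (nat_lit 7905) (nat_lit 0) (nat_lit 7))
    (@En.n l1236 (nat_lit 10829) (nat_lit 12) (nat_lit 10))
    (@En.n l22188 (nat_lit 10809) (nat_lit 5) (nat_lit 11))
    (@En.n l1236 (nat_lit 9393) (nat_lit 7) (nat_lit 12))
    (@En.n l22690 (nat_lit 10305) (nat_lit 14) (nat_lit 8))
    (@En.n l23977 (nat_lit 10805) (nat_lit 15) (nat_lit 3))))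
  (@Cl.mk (nat_lit 0x30008000c000b000a00060004000b000500080006000d0005000d0003000a) (nat_lit 0x5998009050a0703) (nat_lit 16) Lb.e (@T16.mk En
    (@En.n l22120 (nat_lit 9343) (nat_lit 0) (nat_lit 10))
    (@En.n l38322 (nat_lit 10806) (nat_lit 15) (nat_lit 3))
    (@En.n l43445 (nat_lit 2359) (nat_lit 0) (nat_lit 13))
    (@En.i (nat_lit 10408) (nat_lit 3) (nat_lit 5))
    (@En.n l15535 (nat_lit 8364) (nat_lit 2) (nat_lit 13))
    (@En.i (nat_lit 11920) (nat_lit 3) (nat_lit 6))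
    (@En.n l36537 (nat_lit 9154) (nat_lit 10) (nat_lit 8))
    (@En.n l18108 (nat_lit 4655) (nat_lit 7) (nat_lit 5))
    (@En.n l36539 (nat_lit 9982) (nat_lit 9) (nat_lit 11))
    (@En.n l18 (nat_lit 10156) (nat_lit 9) (nat_lit 4))
    (@En.n l9877 (nat_lit 10319) (nat_lit 8) (nat_lit 6))
    (@En.i (nat_lit 10826) (nat_lit 12) (nat_lit 10))
    (@En.n l19001 (nat_lit 10807) (nat_lit 5) (nat_lit 11))
    (@En.i (nat_lit 9395) (nat_lit 7) (nat_lit 12))
    (@En.n l6918 (nat_lit 10442) (nat_lit 13) (nat_lit 8))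
    (@En.n l9877 (nat_lit 10804) (nat_lit 15) (nat_lit 3))))
  (@Cl.mk (nat_lit 0x3000a00040008000c000b000a00060004000a000500080006000d000c0006) (nat_lit 0x204968008050b40) (nat_lit 16) Lb.e (@T16.mk En
    (@En.n l8050 (nat_lit 11053) (nat_lit 0) (nat_lit 6))
    (@En.n l43387 (nat_lit 10804) (nat_lit 4) (nat_lit 12))
    (@En.n l1111 (nat_lit 8365) (nat_lit 2) (nat_lit 13))
    (@En.n l43388 (nat_lit 11911) (nat_lit 3) (nat_lit 6))
    (@En.n l28 (nat_lit 9153) (nat_lit 10) (nat_lit 8))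
    (@En.i (nat_lit 7809) (nat_lit 5) (nat_lit 5))
    (@En.i (nat_lit 10814) (nat_lit 0) (nat_lit 10))
    (@En.n l33662 (nat_lit 10157) (nat_lit 7) (nat_lit 4))
    (@En.n l43389 (nat_lit 10315) (nat_lit 0) (nat_lit 6))
    (@En.n l43388 (nat_lit 10828) (nat_lit 1) (nat_lit 10))
    (@En.n l43390 (nat_lit 10808) (nat_lit 5) (nat_lit 11))
    (@En.n l42665 (nat_lit 9396) (nat_lit 7) (nat_lit 12))
    (@En.n l8052 (nat_lit 10441) (nat_lit 11) (nat_lit 8))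
    (@En.n l8050 (nat_lit 9163) (nat_lit 14) (nat_lit 4))
    (@En.i (nat_lit 10724) (nat_lit 0) (nat_lit 10))
    (@En.n l43391 (nat_lit 10805) (nat_lit 1) (nat_lit 3))))
  (@Cl.mk (nat_lit 0x300080007000d0006000d0003000b00030008000b00090005000d000a0005) (nat_lit 0x60b080304870380) (nat_lit 16) Lb.e (@T16.mk En
    (@En.n l6992 (nat_lit 7808) (nat_lit 0) (nat_lit 5))
    (@En.n l9877 (nat_lit 9983) (nat_lit 10) (nat_lit 10))
    (@En.n l18 (nat_lit 10456) (nat_lit 9) (nat_lit 13))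
    (@En.n l9877 (nat_lit 10322) (nat_lit 3) (nat_lit 5))
    (@En.i (nat_lit 12017) (nat_lit 4) (nat_lit 9))
    (@En.n l9161 (nat_lit 9147) (nat_lit 7) (nat_lit 11))
    (@En.n l6992 (nat_lit 10444) (nat_lit 6) (nat_lit 8))
    (@En.n l9877 (nat_lit 10809) (nat_lit 7) (nat_lit 3))
    (@En.i (nat_lit 8142) (nat_lit 0) (nat_lit 11))
    (@En.n l17029 (nat_lit 10808) (nat_lit 9) (nat_lit 3))
    (@En.n l17027 (nat_lit 2360) (nat_lit 0) (nat_lit 13))
    (@En.i (nat_lit 10409) (nat_lit 3) (nat_lit 6))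
    (@En.n l22123 (nat_lit 8360) (nat_lit 13) (nat_lit 13))
    (@En.i (nat_lit 10900) (nat_lit 9) (nat_lit 7))
    (@En.i (nat_lit 10805) (nat_lit 6) (nat_lit 8))
    (@En.n l9876 (nat_lit 10810) (nat_lit 15) (nat_lit 3))))
  (@Cl.mk (nat_lit 0x300080007000d000c00070003000b00040008000b00090005000d00090005) (nat_lit 0x60b300204570270) (nat_lit 16) Lb.e (@T16.mk En
    (@En.n l4386 (nat_lit 7810) (nat_lit 0) (nat_lit 5))
    (@En.n l16424 (nat_lit 10813) (nat_lit 0) (nat_lit 9))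
    (@En.n l38388 (nat_lit 10458) (nat_lit 9) (nat_lit 13))
    (@En.n l38389 (nat_lit 10316) (nat_lit 3) (nat_lit 5))
    (@En.i (nat_lit 12007) (nat_lit 4) (nat_lit 9))
    (@En.n l1361 (nat_lit 9149) (nat_lit 7) (nat_lit 11))
    (@En.n l4386 (nat_lit 10443) (nat_lit 11) (nat_lit 8))
    (@En.n l2678 (nat_lit 9164) (nat_lit 7) (nat_lit 4))
    (@En.n l22857 (nat_lit 10730) (nat_lit 0) (nat_lit 11))
    (@En.n l10173 (nat_lit 10807) (nat_lit 9) (nat_lit 3))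
    (@En.i (nat_lit 11052) (nat_lit 0) (nat_lit 7))
    (@En.n l38303 (nat_lit 10809) (nat_lit 12) (nat_lit 12))
    (@En.n l619 (nat_lit 8361) (nat_lit 13) (nat_lit 13))
    (@En.n l17380 (nat_lit 12025) (nat_lit 9) (nat_lit 7))
    (@En.n l38390 (nat_lit 10806) (nat_lit 4) (nat_lit 8))
    (@En.n l38391 (nat_lit 10812) (nat_lit 15) (nat_lit 3))))
  (@Cl.mk (nat_lit 0x300080007000c0006000d000a000400030008000b00090006000d000a0005) (nat_lit 0x602087005670270) (nat_lit 16) Lb.e (@T16.mk En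
    (@En.n l17453 (nat_lit 4647) (nat_lit 0) (nat_lit 5))
    (@En.n l21974 (nat_lit 9980) (nat_lit 10) (nat_lit 10))
    (@En.n l5801 (nat_lit 10460) (nat_lit 11) (nat_lit 13))
    (@En.i (nat_lit 8623) (nat_lit 3) (nat_lit 6))
    (@En.n l1236 (nat_lit 12018) (nat_lit 4) (nat_lit 9))
    (@En.n l14457 (nat_lit 9148) (nat_lit 7) (nat_lit 11))
    (@En.n l22690 (nat_lit 10306) (nat_lit 6) (nat_lit 8))
    (@En.n l23977 (nat_lit 10807) (nat_lit 7) (nat_lit 3))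
    (@En.n l8331 (nat_lit 10879) (nat_lit 0) (nat_lit 4))
    (@En.n l17456 (nat_lit 6852) (nat_lit 10) (nat_lit 10))
    (@En.n l14457 (nat_lit 4191) (nat_lit 1) (nat_lit 13))
    (@En.n l8331 (nat_lit 10713) (nat_lit 3) (nat_lit 6))
    (@En.n l19442 (nat_lit 9790) (nat_lit 13) (nat_lit 12))
    (@En.n l3 (nat_lit 10886) (nat_lit 14) (nat_lit 7))
    (@En.i (nat_lit 10804) (nat_lit 6) (nat_lit 8))
    (@En.n l28 (nat_lit 10811) (nat_lit 15) (nat_lit 3))))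
  (@Cl.mk (nat_lit 0x300080007000d0005000d0003000b00030008000c00090005000d0004000b) (nat_lit 0x60b080305870302) (nat_lit 16) Lb.e (@T16.mk En
    (@En.n l649 (nat_lit 8003) (nat_lit 0) (nat_lit 11))
    (@En.n l22603 (nat_lit 10805) (nat_lit 9) (nat_lit 4))
    (@En.n l2125 (nat_lit 10459) (nat_lit 9) (nat_lit 13))
    (@En.i (nat_lit 10323) (nat_lit 3) (nat_lit 5))
    (@En.n l3866 (nat_lit 12005) (nat_lit 4) (nat_lit 9))
    (@En.n l22603 (nat_lit 9140) (nat_lit 7) (nat_lit 12))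
    (@En.n l32419 (nat_lit 10445) (nat_lit 6) (nat_lit 8))
    (@En.i (nat_lit 10811) (nat_lit 7) (nat_lit 3))
    (@En.i (nat_lit 9344) (nat_lit 0) (nat_lit 11))
    (@En.i (nat_lit 10812) (nat_lit 9) (nat_lit 3))
    (@En.i (nat_lit 4195) (nat_lit 0) (nat_lit 13))
    (@En.i (nat_lit 10698) (nat_lit 3) (nat_lit 5))
    (@En.n l32418 (nat_lit 8362) (nat_lit 13) (nat_lit 13))
    (@En.n l527 (nat_lit 10901) (nat_lit 9) (nat_lit 7))
    (@En.n l1769 (nat_lit 8725) (nat_lit 6) (nat_lit 8))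
    (@En.n l1236 (nat_lit 10807) (nat_lit 15) (nat_lit 3))))
  (@Cl.mk (nat_lit 0x300080007000c0005000d000a000400030008000c00090006000d0004000b) (nat_lit 0x602097005870802) (nat_lit 16) Lb.e (@T16.mk En
    (@En.n l649 (nat_lit 8001) (nat_lit 0) (nat_lit 11))
    (@En.n l10969 (nat_lit 10804) (nat_lit 9) (nat_lit 4))
    (@En.n l5801 (nat_lit 10461) (nat_lit 11) (nat_lit 13))
    (@En.i (nat_lit 8622) (nat_lit 3) (nat_lit 6))
    (@En.n l3866 (nat_lit 12004) (nat_lit 4) (nat_lit 9))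
    (@En.n l32418 (nat_lit 9139) (nat_lit 7) (nat_lit 12))
    (@En.n l22690 (nat_lit 10307) (nat_lit 6) (nat_lit 8))
    (@En.n l18 (nat_lit 10810) (nat_lit 7) (nat_lit 3))
    (@En.n l17134 (nat_lit 10880) (nat_lit 0) (nat_lit 4))
    (@En.n l32418 (nat_lit 6854) (nat_lit 10) (nat_lit 10))
    (@En.n l32411 (nat_lit 4193) (nat_lit 1) (nat_lit 13))
    (@En.i (nat_lit 10701) (nat_lit 3) (nat_lit 5))
    (@En.n l19442 (nat_lit 9791) (nat_lit 13) (nat_lit 12))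
    (@En.n l3 (nat_lit 10885) (nat_lit 14) (nat_lit 7))
    (@En.n l1769 (nat_lit 8726) (nat_lit 6) (nat_lit 8))
    (@En.i (nat_lit 10809) (nat_lit 15) (nat_lit 3))))
  (@Cl.mk (nat_lit 0x300080007000d000c00060003000b00040008000c00090005000d0004000a) (nat_lit 0x60b300204770301) (nat_lit 16) Lb.e (@T16.mk En
    (@En.n l649 (nat_lit 9569) (nat_lit 0) (nat_lit 10))
    (@En.n l31551 (nat_lit 10806) (nat_lit 7) (nat_lit 4))
    (@En.n l3819 (nat_lit 10457) (nat_lit 9) (nat_lit 13))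
    (@En.n l10584 (nat_lit 10317) (nat_lit 3) (nat_lit 5))
    (@En.n l3866 (nat_lit 12006) (nat_lit 4) (nat_lit 9))
    (@En.n l17645 (nat_lit 9150) (nat_lit 7) (nat_lit 12))
    (@En.n l17664 (nat_lit 9556) (nat_lit 11) (nat_lit 8))
    (@En.n l3819 (nat_lit 9165) (nat_lit 7) (nat_lit 4))
    (@En.n l10703 (nat_lit 10729) (nat_lit 0) (nat_lit 11))
    (@En.n l50 (nat_lit 10810) (nat_lit 9) (nat_lit 3))
    (@En.n l10584 (nat_lit 11051) (nat_lit 0) (nat_lit 6))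
    (@En.n l217 (nat_lit 10811) (nat_lit 12) (nat_lit 12))
    (@En.n l32418 (nat_lit 8363) (nat_lit 13) (nat_lit 13))
    (@En.n l527 (nat_lit 12028) (nat_lit 9) (nat_lit 7))
    (@En.n l1769 (nat_lit 8723) (nat_lit 4) (nat_lit 8))
    (@En.n l23424 (nat_lit 10808) (nat_lit 15) (nat_lit 3))))
  (@Cl.mk (nat_lit 0x4000a00070006000c000b000700060004000b00050009000c000a00050009) (nat_lit 0x300370003036806) (nat_lit 16) Lb.e (@T16.mk En
    (@En.n l14883 (nat_lit 12430) (nat_lit 10) (nat_lit 9))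
    (@En.n l10584 (nat_lit 10504) (nat_lit 1) (nat_lit 5))
    (@En.n l3866 (nat_lit 11996) (nat_lit 0) (nat_lit 10))
    (@En.n l28158 (nat_lit 11291) (nat_lit 6) (nat_lit 12))
    (@En.n l17664 (nat_lit 9946) (nat_lit 10) (nat_lit 9))
    (@En.n l3819 (nat_lit 11744) (nat_lit 5) (nat_lit 5))
    (@En.n l31548 (nat_lit 11077) (nat_lit 0) (nat_lit 11))
    (@En.n l10787 (nat_lit 11119) (nat_lit 1) (nat_lit 4))
    (@En.i (nat_lit 10812) (nat_lit 10) (nat_lit 6))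
    (@En.n l31549 (nat_lit 11073) (nat_lit 1) (nat_lit 7))
    (@En.n l14883 (nat_lit 9980) (nat_lit 5) (nat_lit 11))
    (@En.n l31550 (nat_lit 8789) (nat_lit 12) (nat_lit 12))
    (@En.n l10787 (nat_lit 11099) (nat_lit 10) (nat_lit 6))
    (@En.n l31062 (nat_lit 10814) (nat_lit 14) (nat_lit 7))
    (@En.n l18989 (nat_lit 10278) (nat_lit 13) (nat_lit 10))
    (@En.n l31551 (nat_lit 9872) (nat_lit 7) (nat_lit 4))))
  (@Cl.mk (nat_lit 0x400070005000c000b0006000b0004000a000500090005000c000b0006000a) (nat_lit 0x2604030307807) (nat_lit 16) Lb.e (@T16.mk En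
    (@En.n l36882 (nat_lit 12432) (nat_lit 0) (nat_lit 10))
    (@En.n l36883 (nat_lit 10507) (nat_lit 1) (nat_lit 6))
    (@En.n l36884 (nat_lit 10637) (nat_lit 5) (nat_lit 11))
    (@En.n l27616 (nat_lit 10813) (nat_lit 3) (nat_lit 12))
    (@En.n l2934 (nat_lit 10274) (nat_lit 4) (nat_lit 5))
    (@En.n l36885 (nat_lit 9942) (nat_lit 10) (nat_lit 9))
    (@En.n l8050 (nat_lit 11743) (nat_lit 6) (nat_lit 5))
    (@En.i (nat_lit 11075) (nat_lit 0) (nat_lit 10))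
    (@En.n l18172 (nat_lit 11118) (nat_lit 8) (nat_lit 4))
    (@En.i (nat_lit 8849) (nat_lit 0) (nat_lit 11))
    (@En.n l36886 (nat_lit 11070) (nat_lit 1) (nat_lit 6))
    (@En.n l36887 (nat_lit 9979) (nat_lit 5) (nat_lit 11))
    (@En.n l36888 (nat_lit 8389) (nat_lit 13) (nat_lit 12))
    (@En.n l36889 (nat_lit 11177) (nat_lit 11) (nat_lit 5))
    (@En.n l36890 (nat_lit 11436) (nat_lit 11) (nat_lit 7))
    (@En.n l77 (nat_lit 9875) (nat_lit 15) (nat_lit 4))))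
  (@Cl.mk (nat_lit 0x3000c00040008000b0004000c0008000c0005000400080004000d000c0008) (nat_lit 0x602807330030576) (nat_lit 16) Lb.e (@T16.mk En
    (@En.n l17325 (nat_lit 11602) (nat_lit 0) (nat_lit 8))
    (@En.n l10858 (nat_lit 10717) (nat_lit 4) (nat_lit 12))
    (@En.n l3471 (nat_lit 10585) (nat_lit 2) (nat_lit 13))
    (@En.n l32546 (nat_lit 12059) (nat_lit 3) (nat_lit 4))
    (@En.n l6042 (nat_lit 10817) (nat_lit 11) (nat_lit 8))
    (@En.n l50 (nat_lit 10822) (nat_lit 12) (nat_lit 4))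
    (@En.n l10571 (nat_lit 10808) (nat_lit 0) (nat_lit 5))
    (@En.i (nat_lit 4407) (nat_lit 7) (nat_lit 12))
    (@En.i (nat_lit 12443) (nat_lit 14) (nat_lit 8))
    (@En.n l1723 (nat_lit 7103) (nat_lit 10) (nat_lit 12))
    (@En.n l17325 (nat_lit 10571) (nat_lit 10) (nat_lit 4))
    (@En.i (nat_lit 9975) (nat_lit 7) (nat_lit 11))
    (@En.n l11244 (nat_lit 4240) (nat_lit 11) (nat_lit 8))
    (@En.n l17325 (nat_lit 10269) (nat_lit 14) (nat_lit 4))
    (@En.n l10577 (nat_lit 10561) (nat_lit 0) (nat_lit 12))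
    (@En.n l6962 (nat_lit 10816) (nat_lit 1) (nat_lit 3))))
noncomputable def a676 : T16 Cl := @T16.mk Cl
  (@Cl.mk (nat_lit 0x30008000b0004000c0009000c0005000400080004000d0007000d0003000c) (nat_lit 0x280164003060202) (nat_lit 16) Lb.e (@T16.mk En
    (@En.i (nat_lit 10613) (nat_lit 0) (nat_lit 12))
    (@En.n l6680 (nat_lit 10815) (nat_lit 15) (nat_lit 3))
    (@En.n l22612 (nat_lit 6198) (nat_lit 0) (nat_lit 13))
    (@En.i (nat_lit 10832) (nat_lit 3) (nat_lit 7))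
    (@En.n l17038 (nat_lit 10588) (nat_lit 2) (nat_lit 13))
    (@En.n l17393 (nat_lit 12058) (nat_lit 5) (nat_lit 4))
    (@En.n l612 (nat_lit 10818) (nat_lit 6) (nat_lit 8))
    (@En.n l50 (nat_lit 10820) (nat_lit 7) (nat_lit 4))
    (@En.n l17393 (nat_lit 10807) (nat_lit 0) (nat_lit 5))
    (@En.i (nat_lit 4406) (nat_lit 6) (nat_lit 12))
    (@En.n l18910 (nat_lit 9676) (nat_lit 11) (nat_lit 9))
    (@En.n l1722 (nat_lit 7102) (nat_lit 10) (nat_lit 12))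
    (@En.i (nat_lit 10569) (nat_lit 10) (nat_lit 4))
    (@En.n l617 (nat_lit 9972) (nat_lit 7) (nat_lit 11))
    (@En.i (nat_lit 4239) (nat_lit 1) (nat_lit 8))
    (@En.i (nat_lit 10717) (nat_lit 15) (nat_lit 3))))
  (@Cl.mk (nat_lit 0x30009000d000500080003000d000c00070003000b00040008000d000b0005) (nat_lit 0x450204600502290) (nat_lit 16) Lb.e (@T16.mk En
    (@En.n l36113 (nat_lit 9408) (nat_lit 0) (nat_lit 5))
    (@En.n l644 (nat_lit 10815) (nat_lit 11) (nat_lit 11))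
    (@En.i (nat_lit 9399) (nat_lit 12) (nat_lit 13))
    (@En.n l43605 (nat_lit 4242) (nat_lit 11) (nat_lit 8))
    (@En.n l9883 (nat_lit 10266) (nat_lit 4) (nat_lit 4))
    (@En.n l31653 (nat_lit 10032) (nat_lit 0) (nat_lit 11))
    (@En.n l6962 (nat_lit 10818) (nat_lit 1) (nat_lit 3))
    (@En.n l9883 (nat_lit 11387) (nat_lit 0) (nat_lit 7))
    (@En.n l10858 (nat_lit 10716) (nat_lit 4) (nat_lit 12))
    (@En.n l3471 (nat_lit 10583) (nat_lit 2) (nat_lit 13))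
    (@En.n l7578 (nat_lit 10828) (nat_lit 10) (nat_lit 3))
    (@En.n l28075 (nat_lit 5583) (nat_lit 10) (nat_lit 8))
    (@En.n l39197 (nat_lit 10806) (nat_lit 5) (nat_lit 5))
    (@En.i (nat_lit 4403) (nat_lit 6) (nat_lit 13))
    (@En.n l9883 (nat_lit 12442) (nat_lit 3) (nat_lit 9))
    (@En.n l7 (nat_lit 10822) (nat_lit 15) (nat_lit 3))))
  (@Cl.mk (nat_lit 0x30008000d000b00050003000a000d000500080003000d0006000d0003000b) (nat_lit 0x2b9007402050205) (nat_lit 16) Lb.e (@T16.mk En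
    (@En.i (nat_lit 10614) (nat_lit 0) (nat_lit 11))
    (@En.n l6680 (nat_lit 10817) (nat_lit 6) (nat_lit 3))
    (@En.i (nat_lit 6112) (nat_lit 0) (nat_lit 13))
    (@En.i (nat_lit 10819) (nat_lit 14) (nat_lit 6))
    (@En.n l17893 (nat_lit 10586) (nat_lit 2) (nat_lit 13))
    (@En.n l7020 (nat_lit 10826) (nat_lit 5) (nat_lit 3))
    (@En.n l387 (nat_lit 5580) (nat_lit 10) (nat_lit 8))
    (@En.n l18910 (nat_lit 10805) (nat_lit 7) (nat_lit 5))
    (@En.i (nat_lit 4405) (nat_lit 5) (nat_lit 13))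
    (@En.i (nat_lit 9681) (nat_lit 10) (nat_lit 10))
    (@En.n l7 (nat_lit 10820) (nat_lit 10) (nat_lit 3))
    (@En.i (nat_lit 9407) (nat_lit 0) (nat_lit 5))
    (@En.n l644 (nat_lit 10816) (nat_lit 13) (nat_lit 11))
    (@En.n l617 (nat_lit 9400) (nat_lit 12) (nat_lit 13))
    (@En.i (nat_lit 4241) (nat_lit 3) (nat_lit 8))
    (@En.i (nat_lit 10716) (nat_lit 15) (nat_lit 3))))
  (@Cl.mk (nat_lit 0x30006000d0007000b00030007000d000a00050003000a0009000d00060009) (nat_lit 0x50400980075504) (nat_lit 16) Lb.e (@T16.mk En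
    (@En.n l29961 (nat_lit 5575) (nat_lit 0) (nat_lit 9))
    (@En.n l18910 (nat_lit 10408) (nat_lit 6) (nat_lit 6))
    (@En.n l3 (nat_lit 10818) (nat_lit 8) (nat_lit 13))
    (@En.n l38129 (nat_lit 10817) (nat_lit 14) (nat_lit 9))
    (@En.n l2642 (nat_lit 9679) (nat_lit 4) (nat_lit 10))
    (@En.n l7 (nat_lit 10821) (nat_lit 5) (nat_lit 3))
    (@En.n l22402 (nat_lit 9406) (nat_lit 0) (nat_lit 5))
    (@En.n l644 (nat_lit 10832) (nat_lit 13) (nat_lit 10))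
    (@En.n l617 (nat_lit 9402) (nat_lit 9) (nat_lit 13))
    (@En.n l511 (nat_lit 4248) (nat_lit 12) (nat_lit 7))
    (@En.n l20276 (nat_lit 10714) (nat_lit 10) (nat_lit 3))
    (@En.n l15957 (nat_lit 10015) (nat_lit 0) (nat_lit 11))
    (@En.n l31968 (nat_lit 11391) (nat_lit 13) (nat_lit 7))
    (@En.n l3 (nat_lit 6212) (nat_lit 8) (nat_lit 13))
    (@En.n l29703 (nat_lit 11526) (nat_lit 12) (nat_lit 6))
    (@En.n l7020 (nat_lit 10825) (nat_lit 15) (nat_lit 3))))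
  (@Cl.mk (nat_lit 0x30008000d0004000c0003000a000d000400080003000d0006000d0003000c) (nat_lit 0x2b01073020a0201) (nat_lit 16) Lb.e (@T16.mk En
    (@En.i (nat_lit 7357) (nat_lit 0) (nat_lit 12))
    (@En.n l6680 (nat_lit 10822) (nat_lit 6) (nat_lit 3))
    (@En.i (nat_lit 6113) (nat_lit 0) (nat_lit 13))
    (@En.i (nat_lit 10821) (nat_lit 14) (nat_lit 6))
    (@En.i (nat_lit 10587) (nat_lit 2) (nat_lit 13))
    (@En.n l14379 (nat_lit 10823) (nat_lit 5) (nat_lit 3))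
    (@En.n l387 (nat_lit 2958) (nat_lit 0) (nat_lit 8))
    (@En.n l18910 (nat_lit 10156) (nat_lit 7) (nat_lit 4))
    (@En.i (nat_lit 4404) (nat_lit 5) (nat_lit 13))
    (@En.i (nat_lit 12406) (nat_lit 1) (nat_lit 10))
    (@En.i (nat_lit 10818) (nat_lit 10) (nat_lit 3))
    (@En.n l1722 (nat_lit 7099) (nat_lit 0) (nat_lit 12))
    (@En.i (nat_lit 10574) (nat_lit 10) (nat_lit 4))
    (@En.n l617 (nat_lit 9403) (nat_lit 0) (nat_lit 13))
    (@En.i (nat_lit 4243) (nat_lit 3) (nat_lit 8))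
    (@En.i (nat_lit 10719) (nat_lit 15) (nat_lit 3))))
  (@Cl.mk (nat_lit 0x30006000d0007000c00030007000d0004000b0003000a0009000d00050009) (nat_lit 0x50100801085404) (nat_lit 16) Lb.e (@T16.mk En
    (@En.n l387 (nat_lit 5573) (nat_lit 0) (nat_lit 9))
    (@En.n l18910 (nat_lit 11813) (nat_lit 6) (nat_lit 5))
    (@En.n l3 (nat_lit 10820) (nat_lit 8) (nat_lit 13))
    (@En.n l38129 (nat_lit 10822) (nat_lit 14) (nat_lit 9))
    (@En.n l2642 (nat_lit 12428) (nat_lit 4) (nat_lit 10))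
    (@En.i (nat_lit 10819) (nat_lit 5) (nat_lit 3))
    (@En.n l1722 (nat_lit 7101) (nat_lit 0) (nat_lit 11))
    (@En.i (nat_lit 10577) (nat_lit 7) (nat_lit 4))
    (@En.n l617 (nat_lit 9755) (nat_lit 9) (nat_lit 13))
    (@En.i (nat_lit 4247) (nat_lit 12) (nat_lit 7))
    (@En.n l20276 (nat_lit 10718) (nat_lit 10) (nat_lit 3))
    (@En.n l15957 (nat_lit 7356) (nat_lit 0) (nat_lit 12))
    (@En.i (nat_lit 11389) (nat_lit 13) (nat_lit 7))
    (@En.n l3 (nat_lit 6213) (nat_lit 8) (nat_lit 13))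
    (@En.n l29703 (nat_lit 11528) (nat_lit 12) (nat_lit 6))
    (@En.n l7020 (nat_lit 10824) (nat_lit 15) (nat_lit 3))))
  (@Cl.mk (nat_lit 0x30009000d000400080003000d000c00070003000c00040008000d0004000c) (nat_lit 0x43020ba00302301) (nat_lit 16) Lb.e (@T16.mk En
    (@En.n l1723 (nat_lit 7100) (nat_lit 0) (nat_lit 12))
    (@En.n l16988 (nat_lit 10576) (nat_lit 10) (nat_lit 4))
    (@En.i (nat_lit 10161) (nat_lit 0) (nat_lit 13))
    (@En.n l11244 (nat_lit 4244) (nat_lit 11) (nat_lit 8))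
    (@En.n l9885 (nat_lit 8814) (nat_lit 4) (nat_lit 4))
    (@En.n l31653 (nat_lit 10602) (nat_lit 0) (nat_lit 12))
    (@En.n l6962 (nat_lit 10820) (nat_lit 1) (nat_lit 3))
    (@En.n l9885 (nat_lit 11386) (nat_lit 0) (nat_lit 7))
    (@En.n l10858 (nat_lit 10719) (nat_lit 4) (nat_lit 12))
    (@En.n l3471 (nat_lit 10584) (nat_lit 2) (nat_lit 13))
    (@En.i (nat_lit 10827) (nat_lit 10) (nat_lit 3))
    (@En.n l6042 (nat_lit 5581) (nat_lit 0) (nat_lit 8))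
    (@En.i (nat_lit 10157) (nat_lit 5) (nat_lit 4))
    (@En.i (nat_lit 4402) (nat_lit 6) (nat_lit 13))
    (@En.n l9943 (nat_lit 12456) (nat_lit 1) (nat_lit 9))
    (@En.i (nat_lit 10817) (nat_lit 15) (nat_lit 3))))
  (@Cl.mk (nat_lit 0x30009000d0004000b0003000a000d000700050003000d0006000d0003000c) (nat_lit 0x3b01023000b0a01) (nat_lit 16) Lb.e (@T16.mk En
    (@En.n l1106 (nat_lit 7355) (nat_lit 0) (nat_lit 12))
    (@En.n l14488 (nat_lit 10827) (nat_lit 6) (nat_lit 3))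
    (@En.n l41027 (nat_lit 6115) (nat_lit 0) (nat_lit 13))
    (@En.n l117 (nat_lit 10824) (nat_lit 14) (nat_lit 6))
    (@En.i (nat_lit 11817) (nat_lit 2) (nat_lit 13))
    (@En.n l18156 (nat_lit 10820) (nat_lit 5) (nat_lit 3))
    (@En.n l38334 (nat_lit 12766) (nat_lit 0) (nat_lit 5))
    (@En.n l107 (nat_lit 10468) (nat_lit 7) (nat_lit 7))
    (@En.n l32939 (nat_lit 4418) (nat_lit 5) (nat_lit 13))
    (@En.i (nat_lit 12412) (nat_lit 10) (nat_lit 10))
    (@En.n l117 (nat_lit 10826) (nat_lit 10) (nat_lit 3))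
    (@En.n l38334 (nat_lit 7007) (nat_lit 0) (nat_lit 11))
    (@En.n l28537 (nat_lit 10578) (nat_lit 10) (nat_lit 4))
    (@En.i (nat_lit 9764) (nat_lit 6) (nat_lit 13))
    (@En.n l28537 (nat_lit 10484) (nat_lit 3) (nat_lit 9))
    (@En.n l41028 (nat_lit 10159) (nat_lit 15) (nat_lit 3))))
  (@Cl.mk (nat_lit 0x30006000d0007000c00030008000d0004000a0003000a0009000d00080006) (nat_lit 0x10101501045430) (nat_lit 16) Lb.e (@T16.mk En
    (@En.n l29201 (nat_lit 12116) (nat_lit 0) (nat_lit 6))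
    (@En.n l152 (nat_lit 10068) (nat_lit 6) (nat_lit 8))
    (@En.n l5859 (nat_lit 10823) (nat_lit 8) (nat_lit 13))
    (@En.n l15070 (nat_lit 10827) (nat_lit 14) (nat_lit 9))
    (@En.n l29202 (nat_lit 12429) (nat_lit 4) (nat_lit 10))
    (@En.i (nat_lit 10825) (nat_lit 5) (nat_lit 3))
    (@En.n l29201 (nat_lit 6483) (nat_lit 0) (nat_lit 10))
    (@En.n l29203 (nat_lit 11784) (nat_lit 7) (nat_lit 4))
    (@En.i (nat_lit 9760) (nat_lit 9) (nat_lit 13))
    (@En.n l29203 (nat_lit 10486) (nat_lit 1) (nat_lit 8))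
    (@En.n l29204 (nat_lit 10831) (nat_lit 10) (nat_lit 3))
    (@En.n l29205 (nat_lit 7354) (nat_lit 0) (nat_lit 12))
    (@En.n l29206 (nat_lit 11388) (nat_lit 13) (nat_lit 7))
    (@En.n l29207 (nat_lit 6120) (nat_lit 8) (nat_lit 13))
    (@En.n l4976 (nat_lit 11040) (nat_lit 12) (nat_lit 6))
    (@En.n l6918 (nat_lit 10821) (nat_lit 15) (nat_lit 3))))
  (@Cl.mk (nat_lit 0x30006000d0007000b00030008000d000900050003000a0009000d00080007) (nat_lit 0x10505570045430) (nat_lit 16) Lb.e (@T16.mk En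
    (@En.n l17516 (nat_lit 11918) (nat_lit 0) (nat_lit 7))
    (@En.n l38331 (nat_lit 10066) (nat_lit 6) (nat_lit 8))
    (@En.n l936 (nat_lit 10826) (nat_lit 8) (nat_lit 13))
    (@En.n l55 (nat_lit 10828) (nat_lit 14) (nat_lit 9))
    (@En.n l17402 (nat_lit 10679) (nat_lit 4) (nat_lit 10))
    (@En.n l18 (nat_lit 10824) (nat_lit 5) (nat_lit 3))
    (@En.n l38332 (nat_lit 7399) (nat_lit 0) (nat_lit 5))
    (@En.n l17404 (nat_lit 12057) (nat_lit 13) (nat_lit 9))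
    (@En.i (nat_lit 9762) (nat_lit 9) (nat_lit 13))
    (@En.n l17405 (nat_lit 10439) (nat_lit 3) (nat_lit 8))
    (@En.n l17398 (nat_lit 10830) (nat_lit 10) (nat_lit 3))
    (@En.n l38332 (nat_lit 10017) (nat_lit 0) (nat_lit 11))
    (@En.n l22771 (nat_lit 11390) (nat_lit 13) (nat_lit 7))
    (@En.n l14981 (nat_lit 6149) (nat_lit 8) (nat_lit 13))
    (@En.n l38333 (nat_lit 11037) (nat_lit 12) (nat_lit 6))
    (@En.n l6918 (nat_lit 10819) (nat_lit 15) (nat_lit 3))))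
  (@Cl.mk (nat_lit 0x30009000d000a00050003000a000d000700060003000d0006000d0003000b) (nat_lit 0x3570023000a0906) (nat_lit 16) Lb.e (@T16.mk En
    (@En.n l637 (nat_lit 10019) (nat_lit 0) (nat_lit 11))
    (@En.i (nat_lit 10828) (nat_lit 6) (nat_lit 3))
    (@En.n l17516 (nat_lit 6098) (nat_lit 0) (nat_lit 13))
    (@En.i (nat_lit 10825) (nat_lit 14) (nat_lit 6))
    (@En.n l17399 (nat_lit 11819) (nat_lit 2) (nat_lit 13))
    (@En.n l6918 (nat_lit 10818) (nat_lit 5) (nat_lit 3))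
    (@En.n l17516 (nat_lit 11914) (nat_lit 0) (nat_lit 6))
    (@En.n l152 (nat_lit 10214) (nat_lit 7) (nat_lit 7))
    (@En.n l17401 (nat_lit 4419) (nat_lit 5) (nat_lit 13))
    (@En.n l17402 (nat_lit 10682) (nat_lit 10) (nat_lit 10))
    (@En.n l4296 (nat_lit 10823) (nat_lit 10) (nat_lit 3))
    (@En.n l4004 (nat_lit 7398) (nat_lit 0) (nat_lit 5))
    (@En.n l17404 (nat_lit 12058) (nat_lit 13) (nat_lit 10))
    (@En.i (nat_lit 10198) (nat_lit 6) (nat_lit 13))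
    (@En.n l17405 (nat_lit 10438) (nat_lit 3) (nat_lit 9))
    (@En.i (nat_lit 10829) (nat_lit 15) (nat_lit 3))))
  (@Cl.mk (nat_lit 0x30009000d000700050003000d000c00070003000c00040009000d0004000b) (nat_lit 0x43000b500601304) (nat_lit 16) Lb.e (@T16.mk En
    (@En.n l13793 (nat_lit 7008) (nat_lit 0) (nat_lit 11))
    (@En.n l41500 (nat_lit 10579) (nat_lit 10) (nat_lit 4))
    (@En.i (nat_lit 10162) (nat_lit 6) (nat_lit 13))
    (@En.n l8297 (nat_lit 10436) (nat_lit 3) (nat_lit 9))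
    (@En.n l9885 (nat_lit 10268) (nat_lit 4) (nat_lit 4))
    (@En.n l3519 (nat_lit 10601) (nat_lit 0) (nat_lit 12))
    (@En.n l28451 (nat_lit 10823) (nat_lit 1) (nat_lit 3))
    (@En.n l9970 (nat_lit 11384) (nat_lit 0) (nat_lit 7))
    (@En.n l41501 (nat_lit 10159) (nat_lit 4) (nat_lit 12))
    (@En.n l28528 (nat_lit 11818) (nat_lit 2) (nat_lit 13))
    (@En.n l72 (nat_lit 10822) (nat_lit 10) (nat_lit 3))
    (@En.n l13793 (nat_lit 12767) (nat_lit 0) (nat_lit 5))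
    (@En.i (nat_lit 10211) (nat_lit 13) (nat_lit 7))
    (@En.i (nat_lit 4412) (nat_lit 6) (nat_lit 13))
    (@En.n l9943 (nat_lit 12458) (nat_lit 3) (nat_lit 9))
    (@En.n l7578 (nat_lit 10828) (nat_lit 15) (nat_lit 3))))
  (@Cl.mk (nat_lit 0x30009000d000700060003000d000c00070003000b00040009000d000a0005) (nat_lit 0x46000b500305270) (nat_lit 16) Lb.e (@T16.mk En
    (@En.n l4004 (nat_lit 7401) (nat_lit 0) (nat_lit 5))
    (@En.n l17404 (nat_lit 12059) (nat_lit 11) (nat_lit 10))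
    (@En.i (nat_lit 10167) (nat_lit 6) (nat_lit 13))
    (@En.n l39190 (nat_lit 10437) (nat_lit 3) (nat_lit 9))
    (@En.n l39191 (nat_lit 10267) (nat_lit 4) (nat_lit 4))
    (@En.n l1589 (nat_lit 10562) (nat_lit 11) (nat_lit 11))
    (@En.n l28 (nat_lit 10826) (nat_lit 1) (nat_lit 3))
    (@En.n l39192 (nat_lit 11385) (nat_lit 0) (nat_lit 7))
    (@En.n l77 (nat_lit 10829) (nat_lit 4) (nat_lit 12))
    (@En.n l17399 (nat_lit 11820) (nat_lit 2) (nat_lit 13))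
    (@En.n l1236 (nat_lit 10817) (nat_lit 10) (nat_lit 3))
    (@En.n l39193 (nat_lit 11912) (nat_lit 0) (nat_lit 6))
    (@En.n l39194 (nat_lit 10210) (nat_lit 5) (nat_lit 7))
    (@En.n l18504 (nat_lit 4415) (nat_lit 6) (nat_lit 13))
    (@En.n l17402 (nat_lit 10637) (nat_lit 3) (nat_lit 9))
    (@En.n l14473 (nat_lit 10827) (nat_lit 15) (nat_lit 3))))
  (@Cl.mk (nat_lit 0x30009000d000a00060003000a000d000700060003000c0006000d000a0004) (nat_lit 0x157004300040930) (nat_lit 16) Lb.e (@T16.mk En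
    (@En.n l17396 (nat_lit 10264) (nat_lit 0) (nat_lit 4))
    (@En.i (nat_lit 10919) (nat_lit 0) (nat_lit 10))
    (@En.n l17397 (nat_lit 6097) (nat_lit 1) (nat_lit 13))
    (@En.n l17398 (nat_lit 10830) (nat_lit 14) (nat_lit 6))
    (@En.n l17399 (nat_lit 10705) (nat_lit 10) (nat_lit 12))
    (@En.n l6918 (nat_lit 10716) (nat_lit 5) (nat_lit 3))
    (@En.n l17397 (nat_lit 11917) (nat_lit 0) (nat_lit 6))
    (@En.n l17400 (nat_lit 10213) (nat_lit 7) (nat_lit 7))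
    (@En.n l17401 (nat_lit 4401) (nat_lit 5) (nat_lit 13))
    (@En.n l17402 (nat_lit 10687) (nat_lit 10) (nat_lit 10))
    (@En.n l17403 (nat_lit 10159) (nat_lit 10) (nat_lit 3))
    (@En.n l4004 (nat_lit 9621) (nat_lit 0) (nat_lit 6))
    (@En.n l17404 (nat_lit 12062) (nat_lit 13) (nat_lit 10))
    (@En.i (nat_lit 9767) (nat_lit 6) (nat_lit 13))
    (@En.n l17405 (nat_lit 10084) (nat_lit 3) (nat_lit 9))
    (@En.n l7 (nat_lit 10826) (nat_lit 15) (nat_lit 3))))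
  (@Cl.mk (nat_lit 0x30006000d000a000800030008000d000900060003000a0008000d00080007) (nat_lit 0x12101560041410) (nat_lit 16) Lb.e (@T16.mk En
    (@En.n l4758 (nat_lit 12069) (nat_lit 0) (nat_lit 7))
    (@En.n l33091 (nat_lit 10067) (nat_lit 6) (nat_lit 8))
    (@En.n l33092 (nat_lit 10829) (nat_lit 8) (nat_lit 13))
    (@En.n l33093 (nat_lit 10267) (nat_lit 14) (nat_lit 8))
    (@En.n l33094 (nat_lit 10680) (nat_lit 4) (nat_lit 10))
    (@En.i (nat_lit 10831) (nat_lit 5) (nat_lit 3))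
    (@En.n l7081 (nat_lit 9626) (nat_lit 0) (nat_lit 6))
    (@En.n l9657 (nat_lit 12061) (nat_lit 13) (nat_lit 9))
    (@En.n l476 (nat_lit 9763) (nat_lit 9) (nat_lit 13))
    (@En.n l28106 (nat_lit 10086) (nat_lit 3) (nat_lit 8))
    (@En.n l33095 (nat_lit 10825) (nat_lit 10) (nat_lit 3))
    (@En.n l33096 (nat_lit 5800) (nat_lit 0) (nat_lit 8))
    (@En.n l33097 (nat_lit 10836) (nat_lit 13) (nat_lit 10))
    (@En.n l33098 (nat_lit 6148) (nat_lit 8) (nat_lit 13))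
    (@En.i (nat_lit 11038) (nat_lit 12) (nat_lit 6))
    (@En.n l20805 (nat_lit 10714) (nat_lit 15) (nat_lit 3))))
  (@Cl.mk (nat_lit 0x30006000d000b000800030008000d0005000a0003000a0008000d00080006) (nat_lit 0x14201501045360) (nat_lit 16) Lb.e (@T16.mk En
    (@En.n l23774 (nat_lit 12117) (nat_lit 0) (nat_lit 6))
    (@En.n l22926 (nat_lit 10069) (nat_lit 6) (nat_lit 8))
    (@En.n l10994 (nat_lit 10159) (nat_lit 8) (nat_lit 13))
    (@En.n l27765 (nat_lit 10268) (nat_lit 14) (nat_lit 8))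
    (@En.n l31783 (nat_lit 12430) (nat_lit 4) (nat_lit 10))
    (@En.n l50 (nat_lit 10830) (nat_lit 5) (nat_lit 3))
    (@En.n l11315 (nat_lit 6484) (nat_lit 0) (nat_lit 10))
    (@En.n l3528 (nat_lit 11771) (nat_lit 7) (nat_lit 5))
    (@En.n l37122 (nat_lit 9757) (nat_lit 9) (nat_lit 13))
    (@En.n l27225 (nat_lit 10087) (nat_lit 3) (nat_lit 8))
    (@En.n l37123 (nat_lit 10824) (nat_lit 10) (nat_lit 3))
    (@En.n l23774 (nat_lit 5801) (nat_lit 0) (nat_lit 8))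
    (@En.n l16203 (nat_lit 10837) (nat_lit 13) (nat_lit 11))
    (@En.n l10994 (nat_lit 6119) (nat_lit 8) (nat_lit 13))
    (@En.i (nat_lit 11041) (nat_lit 12) (nat_lit 6))
    (@En.n l1865 (nat_lit 10718) (nat_lit 15) (nat_lit 3))))
noncomputable def a677 : T16 Cl := @T16.mk Cl
  (@Cl.mk (nat_lit 0x30007000a0004000b00090008000c00060005000900040007000d0008000c) (nat_lit 0x70164500500742) (nat_lit 16) Lb.e (@T16.mk En
    (@En.n l11840 (nat_lit 10612) (nat_lit 0) (nat_lit 12))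
    (@En.i (nat_lit 11592) (nat_lit 13) (nat_lit 8))
    (@En.n l38127 (nat_lit 6211) (nat_lit 2) (nat_lit 13))
    (@En.n l38128 (nat_lit 11527) (nat_lit 11) (nat_lit 7))
    (@En.n l17393 (nat_lit 12057) (nat_lit 4) (nat_lit 4))
    (@En.n l612 (nat_lit 10819) (nat_lit 0) (nat_lit 9))
    (@En.n l50 (nat_lit 10821) (nat_lit 1) (nat_lit 5))
    (@En.n l17393 (nat_lit 10409) (nat_lit 7) (nat_lit 6))
    (@En.n l3 (nat_lit 10816) (nat_lit 9) (nat_lit 12))
    (@En.n l38129 (nat_lit 10815) (nat_lit 8) (nat_lit 8))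
    (@En.n l38130 (nat_lit 9677) (nat_lit 11) (nat_lit 9))
    (@En.n l1722 (nat_lit 7104) (nat_lit 12) (nat_lit 11))
    (@En.n l24426 (nat_lit 10564) (nat_lit 7) (nat_lit 4))
    (@En.n l617 (nat_lit 9973) (nat_lit 8) (nat_lit 10))
    (@En.i (nat_lit 3409) (nat_lit 12) (nat_lit 7))
    (@En.n l17392 (nat_lit 10715) (nat_lit 15) (nat_lit 3))))
  (@Cl.mk (nat_lit 0x40007000b0008000c0006000900050004000b00090008000c00070005000a) (nat_lit 0x16303005727002) (nat_lit 16) Lb.e (@T16.mk En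
    (@En.n l42847 (nat_lit 10834) (nat_lit 0) (nat_lit 10))
    (@En.n l50 (nat_lit 10835) (nat_lit 1) (nat_lit 5))
    (@En.n l42848 (nat_lit 10406) (nat_lit 0) (nat_lit 7))
    (@En.n l3 (nat_lit 10615) (nat_lit 7) (nat_lit 12))
    (@En.n l5294 (nat_lit 10917) (nat_lit 8) (nat_lit 8))
    (@En.n l17392 (nat_lit 11782) (nat_lit 5) (nat_lit 9))
    (@En.n l1776 (nat_lit 11398) (nat_lit 7) (nat_lit 11))
    (@En.i (nat_lit 10832) (nat_lit 12) (nat_lit 4))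
    (@En.n l42849 (nat_lit 4315) (nat_lit 0) (nat_lit 5))
    (@En.n l6904 (nat_lit 8911) (nat_lit 9) (nat_lit 9))
    (@En.n l4133 (nat_lit 10565) (nat_lit 1) (nat_lit 6))
    (@En.n l42848 (nat_lit 6868) (nat_lit 7) (nat_lit 12))
    (@En.n l42850 (nat_lit 11401) (nat_lit 13) (nat_lit 8))
    (@En.n l42848 (nat_lit 9069) (nat_lit 8) (nat_lit 11))
    (@En.n l42851 (nat_lit 9510) (nat_lit 11) (nat_lit 7))
    (@En.n l42852 (nat_lit 12060) (nat_lit 15) (nat_lit 4))))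
  (@Cl.mk (nat_lit 0x30006000a0007000b0006000c0009000600050004000a0009000d0007000a) (nat_lit 0x10303400082701) (nat_lit 16) Lb.e (@T16.mk En
    (@En.n l4934 (nat_lit 5586) (nat_lit 0) (nat_lit 10))
    (@En.n l39707 (nat_lit 10405) (nat_lit 2) (nat_lit 7))
    (@En.n l6238 (nat_lit 10616) (nat_lit 6) (nat_lit 13))
    (@En.n l1393 (nat_lit 10916) (nat_lit 7) (nat_lit 9))
    (@En.n l14270 (nat_lit 11869) (nat_lit 4) (nat_lit 10))
    (@En.n l3535 (nat_lit 10838) (nat_lit 5) (nat_lit 4))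
    (@En.n l26068 (nat_lit 10819) (nat_lit 6) (nat_lit 5))
    (@En.n l936 (nat_lit 10395) (nat_lit 7) (nat_lit 6))
    (@En.n l38760 (nat_lit 10833) (nat_lit 9) (nat_lit 9))
    (@En.n l38886 (nat_lit 8734) (nat_lit 10) (nat_lit 12))
    (@En.n l41986 (nat_lit 10566) (nat_lit 11) (nat_lit 6))
    (@En.n l41987 (nat_lit 10008) (nat_lit 12) (nat_lit 11))
    (@En.n l18752 (nat_lit 11399) (nat_lit 13) (nat_lit 7))
    (@En.n l14250 (nat_lit 9071) (nat_lit 14) (nat_lit 10))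
    (@En.n l19904 (nat_lit 9509) (nat_lit 12) (nat_lit 6))
    (@En.n l41988 (nat_lit 10836) (nat_lit 15) (nat_lit 3))))
  (@Cl.mk (nat_lit 0x30006000b0007000c0006000c00050004000b0004000a0009000d0005000a) (nat_lit 0x20203006087601) (nat_lit 16) Lb.e (@T16.mk En
    (@En.n l387 (nat_lit 5589) (nat_lit 0) (nat_lit 10))
    (@En.n l18372 (nat_lit 10273) (nat_lit 9) (nat_lit 5))
    (@En.n l3 (nat_lit 10620) (nat_lit 6) (nat_lit 13))
    (@En.n l29699 (nat_lit 10846) (nat_lit 7) (nat_lit 9))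
    (@En.n l29700 (nat_lit 12038) (nat_lit 4) (nat_lit 10))
    (@En.n l20276 (nat_lit 10834) (nat_lit 5) (nat_lit 4))
    (@En.n l1776 (nat_lit 11414) (nat_lit 0) (nat_lit 11))
    (@En.i (nat_lit 10821) (nat_lit 7) (nat_lit 4))
    (@En.n l18378 (nat_lit 10843) (nat_lit 8) (nat_lit 5))
    (@En.n l6904 (nat_lit 9759) (nat_lit 10) (nat_lit 12))
    (@En.n l1316 (nat_lit 10575) (nat_lit 11) (nat_lit 6))
    (@En.n l29701 (nat_lit 9537) (nat_lit 12) (nat_lit 12))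
    (@En.n l29702 (nat_lit 11407) (nat_lit 13) (nat_lit 7))
    (@En.n l18375 (nat_lit 11883) (nat_lit 14) (nat_lit 11))
    (@En.n l29703 (nat_lit 9567) (nat_lit 12) (nat_lit 6))
    (@En.n l29704 (nat_lit 10837) (nat_lit 15) (nat_lit 3))))
  (@Cl.mk (nat_lit 0x30006000a0007000b0007000c0008000600050004000a0009000d00090008) (nat_lit 0x10203500056816) (nat_lit 16) Lb.e (@T16.mk En
    (@En.n l29663 (nat_lit 11937) (nat_lit 0) (nat_lit 8))
    (@En.n l29664 (nat_lit 10071) (nat_lit 12) (nat_lit 9))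
    (@En.n l29665 (nat_lit 10919) (nat_lit 6) (nat_lit 13))
    (@En.n l29666 (nat_lit 10918) (nat_lit 7) (nat_lit 9))
    (@En.n l7 (nat_lit 11871) (nat_lit 4) (nat_lit 10))
    (@En.n l29667 (nat_lit 10839) (nat_lit 5) (nat_lit 4))
    (@En.n l25768 (nat_lit 10825) (nat_lit 6) (nat_lit 5))
    (@En.n l29668 (nat_lit 10427) (nat_lit 7) (nat_lit 6))
    (@En.n l29669 (nat_lit 12060) (nat_lit 9) (nat_lit 8))
    (@En.n l29670 (nat_lit 7429) (nat_lit 10) (nat_lit 12))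
    (@En.n l29671 (nat_lit 11952) (nat_lit 11) (nat_lit 7))
    (@En.n l29668 (nat_lit 10013) (nat_lit 12) (nat_lit 11))
    (@En.n l18226 (nat_lit 11402) (nat_lit 13) (nat_lit 7))
    (@En.n l17017 (nat_lit 8786) (nat_lit 14) (nat_lit 10))
    (@En.n l16865 (nat_lit 11036) (nat_lit 12) (nat_lit 6))
    (@En.n l29672 (nat_lit 10834) (nat_lit 15) (nat_lit 3))))
  (@Cl.mk (nat_lit 0x30006000b0007000c0007000c00050004000a0004000a0009000d00090006) (nat_lit 0x30103002087650) (nat_lit 16) Lb.e (@T16.mk En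
    (@En.n l17 (nat_lit 12119) (nat_lit 0) (nat_lit 6))
    (@En.n l152 (nat_lit 9959) (nat_lit 12) (nat_lit 9))
    (@En.n l5859 (nat_lit 10848) (nat_lit 6) (nat_lit 13))
    (@En.n l15070 (nat_lit 10847) (nat_lit 7) (nat_lit 9))
    (@En.n l15071 (nat_lit 9249) (nat_lit 4) (nat_lit 10))
    (@En.n l15072 (nat_lit 10836) (nat_lit 5) (nat_lit 4))
    (@En.n l831 (nat_lit 11759) (nat_lit 0) (nat_lit 10))
    (@En.n l50 (nat_lit 10824) (nat_lit 7) (nat_lit 4))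
    (@En.n l15073 (nat_lit 10845) (nat_lit 8) (nat_lit 5))
    (@En.i (nat_lit 9761) (nat_lit 10) (nat_lit 12))
    (@En.n l15074 (nat_lit 11740) (nat_lit 11) (nat_lit 7))
    (@En.n l15075 (nat_lit 7358) (nat_lit 12) (nat_lit 12))
    (@En.n l15076 (nat_lit 11406) (nat_lit 13) (nat_lit 7))
    (@En.n l5579 (nat_lit 11884) (nat_lit 14) (nat_lit 11))
    (@En.n l15077 (nat_lit 11583) (nat_lit 12) (nat_lit 6))
    (@En.n l15078 (nat_lit 10835) (nat_lit 15) (nat_lit 3))))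
  (@Cl.mk (nat_lit 0x3000600090007000d0006000c0003000a00070004000a0009000d0006000a) (nat_lit 0x502040085605) (nat_lit 16) Lb.e (@T16.mk En
    (@En.n l39943 (nat_lit 11929) (nat_lit 0) (nat_lit 10))
    (@En.n l15069 (nat_lit 11070) (nat_lit 8) (nat_lit 6))
    (@En.n l34200 (nat_lit 10619) (nat_lit 10) (nat_lit 13))
    (@En.n l41427 (nat_lit 11469) (nat_lit 11) (nat_lit 9))
    (@En.n l617 (nat_lit 10843) (nat_lit 4) (nat_lit 10))
    (@En.n l41428 (nat_lit 10835) (nat_lit 5) (nat_lit 4))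
    (@En.n l15957 (nat_lit 10381) (nat_lit 6) (nat_lit 7))
    (@En.n l24339 (nat_lit 11477) (nat_lit 1) (nat_lit 10))
    (@En.n l6081 (nat_lit 10840) (nat_lit 8) (nat_lit 3))
    (@En.n l29052 (nat_lit 8741) (nat_lit 0) (nat_lit 12))
    (@En.n l13633 (nat_lit 10842) (nat_lit 11) (nat_lit 6))
    (@En.n l2604 (nat_lit 9541) (nat_lit 12) (nat_lit 13))
    (@En.n l2642 (nat_lit 11410) (nat_lit 13) (nat_lit 7))
    (@En.n l16307 (nat_lit 11721) (nat_lit 9) (nat_lit 9))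
    (@En.n l39943 (nat_lit 9081) (nat_lit 12) (nat_lit 6))
    (@En.n l29015 (nat_lit 10839) (nat_lit 15) (nat_lit 3))))
  (@Cl.mk (nat_lit 0x3000600090007000d0007000c0003000900070004000a0009000d00090007) (nat_lit 0x40602020085670) (nat_lit 16) Lb.e (@T16.mk En
    (@En.n l29140 (nat_lit 12327) (nat_lit 0) (nat_lit 7))
    (@En.n l29141 (nat_lit 9941) (nat_lit 9) (nat_lit 9))
    (@En.n l4547 (nat_lit 11472) (nat_lit 10) (nat_lit 13))
    (@En.n l29142 (nat_lit 11468) (nat_lit 11) (nat_lit 9))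
    (@En.n l29143 (nat_lit 10845) (nat_lit 4) (nat_lit 10))
    (@En.n l29144 (nat_lit 10837) (nat_lit 5) (nat_lit 4))
    (@En.n l29145 (nat_lit 10428) (nat_lit 6) (nat_lit 7))
    (@En.n l29146 (nat_lit 11757) (nat_lit 1) (nat_lit 9))
    (@En.n l29147 (nat_lit 10841) (nat_lit 8) (nat_lit 3))
    (@En.n l5200 (nat_lit 8744) (nat_lit 0) (nat_lit 12))
    (@En.n l20657 (nat_lit 11736) (nat_lit 11) (nat_lit 7))
    (@En.n l29148 (nat_lit 9543) (nat_lit 12) (nat_lit 13))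
    (@En.n l29149 (nat_lit 11411) (nat_lit 13) (nat_lit 7))
    (@En.i (nat_lit 11723) (nat_lit 9) (nat_lit 9))
    (@En.n l730 (nat_lit 11578) (nat_lit 12) (nat_lit 6))
    (@En.n l29150 (nat_lit 10838) (nat_lit 15) (nat_lit 3))))
  (@Cl.mk (nat_lit 0x3000600090007000d000b00070003000a00070005000a0009000d00060009) (nat_lit 0x10540040087701) (nat_lit 16) Lb.e (@T16.mk En
    (@En.n l7632 (nat_lit 8068) (nat_lit 0) (nat_lit 9))
    (@En.n l14928 (nat_lit 11071) (nat_lit 8) (nat_lit 6))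
    (@En.n l6210 (nat_lit 10618) (nat_lit 10) (nat_lit 13))
    (@En.n l7628 (nat_lit 11470) (nat_lit 11) (nat_lit 9))
    (@En.n l37246 (nat_lit 10844) (nat_lit 4) (nat_lit 10))
    (@En.n l37247 (nat_lit 10577) (nat_lit 5) (nat_lit 5))
    (@En.n l11864 (nat_lit 10382) (nat_lit 6) (nat_lit 7))
    (@En.n l4819 (nat_lit 10842) (nat_lit 8) (nat_lit 10))
    (@En.n l3536 (nat_lit 10838) (nat_lit 8) (nat_lit 3))
    (@En.n l7628 (nat_lit 5100) (nat_lit 0) (nat_lit 7))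
    (@En.n l68 (nat_lit 10834) (nat_lit 11) (nat_lit 11))
    (@En.n l26883 (nat_lit 9547) (nat_lit 12) (nat_lit 13))
    (@En.n l9715 (nat_lit 11476) (nat_lit 13) (nat_lit 7))
    (@En.n l6787 (nat_lit 7946) (nat_lit 9) (nat_lit 9))
    (@En.n l25537 (nat_lit 9602) (nat_lit 12) (nat_lit 6))
    (@En.n l16543 (nat_lit 10841) (nat_lit 15) (nat_lit 3))))
  (@Cl.mk (nat_lit 0x3000600090007000d000b00080003000900070005000a0009000d00080007) (nat_lit 0x40632040087830) (nat_lit 16) Lb.e (@T16.mk En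
    (@En.n l18 (nat_lit 12324) (nat_lit 0) (nat_lit 7))
    (@En.n l21354 (nat_lit 9720) (nat_lit 9) (nat_lit 8))
    (@En.n l21355 (nat_lit 11471) (nat_lit 10) (nat_lit 13))
    (@En.i (nat_lit 11467) (nat_lit 11) (nat_lit 9))
    (@En.n l21356 (nat_lit 11785) (nat_lit 4) (nat_lit 10))
    (@En.n l21357 (nat_lit 11784) (nat_lit 5) (nat_lit 5))
    (@En.n l21358 (nat_lit 6221) (nat_lit 6) (nat_lit 7))
    (@En.n l16563 (nat_lit 11801) (nat_lit 8) (nat_lit 9))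
    (@En.n l21359 (nat_lit 10839) (nat_lit 8) (nat_lit 3))
    (@En.n l21360 (nat_lit 8827) (nat_lit 0) (nat_lit 8))
    (@En.n l21361 (nat_lit 10836) (nat_lit 11) (nat_lit 11))
    (@En.n l21362 (nat_lit 9546) (nat_lit 12) (nat_lit 13))
    (@En.n l21363 (nat_lit 11466) (nat_lit 13) (nat_lit 7))
    (@En.n l21364 (nat_lit 11728) (nat_lit 9) (nat_lit 9))
    (@En.n l21365 (nat_lit 11577) (nat_lit 12) (nat_lit 6))
    (@En.n l21366 (nat_lit 10840) (nat_lit 15) (nat_lit 3))))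
  (@Cl.mk (nat_lit 0x40007000a00080006000c0007000a0006000400090008000c0006000a0009) (nat_lit 0x13040300664042) (nat_lit 16) Lb.e (@T16.mk En
    (@En.n l4428 (nat_lit 10840) (nat_lit 0) (nat_lit 9))
    (@En.n l11872 (nat_lit 11767) (nat_lit 1) (nat_lit 10))
    (@En.n l16617 (nat_lit 10733) (nat_lit 12) (nat_lit 6))
    (@En.n l10436 (nat_lit 10617) (nat_lit 7) (nat_lit 12))
    (@En.n l43148 (nat_lit 11474) (nat_lit 8) (nat_lit 8))
    (@En.n l4425 (nat_lit 11943) (nat_lit 5) (nat_lit 9))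
    (@En.n l10472 (nat_lit 10575) (nat_lit 6) (nat_lit 4))
    (@En.n l11657 (nat_lit 10392) (nat_lit 0) (nat_lit 6))
    (@En.i (nat_lit 11480) (nat_lit 8) (nat_lit 10))
    (@En.n l43149 (nat_lit 5101) (nat_lit 10) (nat_lit 7))
    (@En.n l43150 (nat_lit 10833) (nat_lit 11) (nat_lit 12))
    (@En.n l43151 (nat_lit 10597) (nat_lit 4) (nat_lit 6))
    (@En.n l499 (nat_lit 11479) (nat_lit 5) (nat_lit 8))
    (@En.n l11657 (nat_lit 10755) (nat_lit 8) (nat_lit 10))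
    (@En.n l11868 (nat_lit 9603) (nat_lit 11) (nat_lit 7))
    (@En.n l43152 (nat_lit 11801) (nat_lit 15) (nat_lit 4))))
  (@Cl.mk (nat_lit 0x30006000b00090008000d000700050003000b0007000a0008000d00050009) (nat_lit 0x512a0005074400) (nat_lit 16) Lb.e (@T16.mk En
    (@En.n l28772 (nat_lit 11928) (nat_lit 0) (nat_lit 9))
    (@En.n l6079 (nat_lit 11073) (nat_lit 9) (nat_lit 5))
    (@En.n l18416 (nat_lit 10621) (nat_lit 2) (nat_lit 13))
    (@En.n l27329 (nat_lit 12064) (nat_lit 12) (nat_lit 8))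
    (@En.n l28773 (nat_lit 12591) (nat_lit 8) (nat_lit 10))
    (@En.i (nat_lit 10380) (nat_lit 5) (nat_lit 7))
    (@En.n l28774 (nat_lit 11478) (nat_lit 7) (nat_lit 11))
    (@En.n l28775 (nat_lit 10844) (nat_lit 7) (nat_lit 3))
    (@En.n l18 (nat_lit 9778) (nat_lit 0) (nat_lit 5))
    (@En.n l6081 (nat_lit 11943) (nat_lit 10) (nat_lit 7))
    (@En.n l3596 (nat_lit 9539) (nat_lit 11) (nat_lit 13))
    (@En.n l3 (nat_lit 10542) (nat_lit 12) (nat_lit 8))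
    (@En.n l61 (nat_lit 10838) (nat_lit 13) (nat_lit 9))
    (@En.n l3596 (nat_lit 11714) (nat_lit 14) (nat_lit 11))
    (@En.i (nat_lit 9604) (nat_lit 12) (nat_lit 6))
    (@En.n l4019 (nat_lit 10845) (nat_lit 15) (nat_lit 3))))
  (@Cl.mk (nat_lit 0x30006000c00090008000d000400080003000b0007000a0008000d00050008) (nat_lit 0x522a0105071601) (nat_lit 16) Lb.e (@T16.mk En
    (@En.n l1897 (nat_lit 8066) (nat_lit 0) (nat_lit 8))
    (@En.n l14808 (nat_lit 11072) (nat_lit 9) (nat_lit 5))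
    (@En.n l9642 (nat_lit 11788) (nat_lit 2) (nat_lit 13))
    (@En.n l34773 (nat_lit 4176) (nat_lit 12) (nat_lit 8))
    (@En.n l1897 (nat_lit 12589) (nat_lit 8) (nat_lit 10))
    (@En.n l4660 (nat_lit 10383) (nat_lit 5) (nat_lit 7))
    (@En.n l6596 (nat_lit 11943) (nat_lit 7) (nat_lit 11))
    (@En.n l26306 (nat_lit 10843) (nat_lit 7) (nat_lit 3))
    (@En.i (nat_lit 5105) (nat_lit 0) (nat_lit 8))
    (@En.n l13489 (nat_lit 11772) (nat_lit 9) (nat_lit 4))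
    (@En.i (nat_lit 9548) (nat_lit 11) (nat_lit 13))
    (@En.n l1791 (nat_lit 10546) (nat_lit 1) (nat_lit 8))
    (@En.n l13508 (nat_lit 10840) (nat_lit 13) (nat_lit 9))
    (@En.n l396 (nat_lit 9947) (nat_lit 14) (nat_lit 12))
    (@En.n l20701 (nat_lit 9598) (nat_lit 12) (nat_lit 6))
    (@En.n l5200 (nat_lit 11785) (nat_lit 15) (nat_lit 3))))
  (@Cl.mk (nat_lit 0x30006000b00090008000d000800050003000a0007000a0008000d00080006) (nat_lit 0x552a2002074350) (nat_lit 16) Lb.e (@T16.mk En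
    (@En.n l27412 (nat_lit 12636) (nat_lit 0) (nat_lit 6))
    (@En.n l4973 (nat_lit 9944) (nat_lit 10) (nat_lit 8))
    (@En.n l14738 (nat_lit 11787) (nat_lit 11) (nat_lit 13))
    (@En.n l28989 (nat_lit 12065) (nat_lit 12) (nat_lit 8))
    (@En.n l9727 (nat_lit 12638) (nat_lit 8) (nat_lit 10))
    (@En.n l26995 (nat_lit 6224) (nat_lit 5) (nat_lit 7))
    (@En.n l28990 (nat_lit 9850) (nat_lit 7) (nat_lit 10))
    (@En.n l28991 (nat_lit 11785) (nat_lit 7) (nat_lit 3))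
    (@En.n l1393 (nat_lit 9776) (nat_lit 0) (nat_lit 5))
    (@En.n l28992 (nat_lit 11738) (nat_lit 10) (nat_lit 8))
    (@En.n l9727 (nat_lit 9540) (nat_lit 11) (nat_lit 13))
    (@En.n l28993 (nat_lit 10545) (nat_lit 12) (nat_lit 8))
    (@En.n l28994 (nat_lit 10839) (nat_lit 13) (nat_lit 9))
    (@En.n l14740 (nat_lit 11715) (nat_lit 14) (nat_lit 11))
    (@En.n l4946 (nat_lit 11576) (nat_lit 12) (nat_lit 6))
    (@En.n l5989 (nat_lit 10843) (nat_lit 15) (nat_lit 3))))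
  (@Cl.mk (nat_lit 0x3000c0007000c00060004000c00040009000d000400090003000d000a0007) (nat_lit 0x405007065010450) (nat_lit 16) Lb.e (@T16.mk En
    (@En.n l12848 (nat_lit 9806) (nat_lit 0) (nat_lit 7))
    (@En.n l17192 (nat_lit 10850) (nat_lit 14) (nat_lit 10))
    (@En.n l17193 (nat_lit 10693) (nat_lit 2) (nat_lit 13))
    (@En.i (nat_lit 10847) (nat_lit 3) (nat_lit 3))
    (@En.n l7409 (nat_lit 5588) (nat_lit 0) (nat_lit 9))
    (@En.i (nat_lit 10154) (nat_lit 5) (nat_lit 4))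
    (@En.i (nat_lit 4570) (nat_lit 6) (nat_lit 13))
    (@En.n l41211 (nat_lit 10298) (nat_lit 1) (nat_lit 9))
    (@En.n l41212 (nat_lit 10916) (nat_lit 8) (nat_lit 4))
    (@En.n l17196 (nat_lit 11411) (nat_lit 10) (nat_lit 12))
    (@En.n l28 (nat_lit 10822) (nat_lit 1) (nat_lit 4))
    (@En.n l41212 (nat_lit 12064) (nat_lit 0) (nat_lit 6))
    (@En.i (nat_lit 10160) (nat_lit 1) (nat_lit 12))
    (@En.n l24739 (nat_lit 10573) (nat_lit 14) (nat_lit 7))
    (@En.n l25099 (nat_lit 10595) (nat_lit 11) (nat_lit 12))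
    (@En.n l17199 (nat_lit 10620) (nat_lit 15) (nat_lit 3))))
  (@Cl.mk (nat_lit 0x3000c0008000c00060004000b00040009000d000800050003000d000a0007) (nat_lit 0x305002065400460) (nat_lit 16) Lb.e (@T16.mk En
    (@En.n l28953 (nat_lit 9807) (nat_lit 0) (nat_lit 7))
    (@En.n l28954 (nat_lit 10849) (nat_lit 14) (nat_lit 10))
    (@En.n l28955 (nat_lit 10422) (nat_lit 2) (nat_lit 13))
    (@En.n l72 (nat_lit 10846) (nat_lit 3) (nat_lit 3))
    (@En.n l28956 (nat_lit 12772) (nat_lit 0) (nat_lit 5))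
    (@En.i (nat_lit 11715) (nat_lit 5) (nat_lit 8))
    (@En.i (nat_lit 3659) (nat_lit 6) (nat_lit 13))
    (@En.n l28957 (nat_lit 12036) (nat_lit 3) (nat_lit 9))
    (@En.n l28958 (nat_lit 10918) (nat_lit 8) (nat_lit 4))
    (@En.n l11228 (nat_lit 10362) (nat_lit 10) (nat_lit 11))
    (@En.n l28 (nat_lit 10827) (nat_lit 1) (nat_lit 4))
    (@En.n l13902 (nat_lit 12065) (nat_lit 0) (nat_lit 6))
    (@En.i (nat_lit 10163) (nat_lit 7) (nat_lit 12))
    (@En.n l28959 (nat_lit 11727) (nat_lit 14) (nat_lit 8))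
    (@En.n l3519 (nat_lit 10596) (nat_lit 11) (nat_lit 12))
    (@En.n l28451 (nat_lit 10848) (nat_lit 15) (nat_lit 3))))
noncomputable def a678 : T16 Cl := @T16.mk Cl
  (@Cl.mk (nat_lit 0x3000c0008000c00050004000b0004000a000d000800050003000d0006000b) (nat_lit 0x123002075400507) (nat_lit 16) Lb.e (@T16.mk En
    (@En.n l1865 (nat_lit 11888) (nat_lit 0) (nat_lit 11))
    (@En.n l117 (nat_lit 10837) (nat_lit 14) (nat_lit 6))
    (@En.i (nat_lit 11794) (nat_lit 2) (nat_lit 13))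
    (@En.n l28748 (nat_lit 10620) (nat_lit 3) (nat_lit 3))
    (@En.n l17 (nat_lit 12769) (nat_lit 0) (nat_lit 5))
    (@En.n l107 (nat_lit 11714) (nat_lit 5) (nat_lit 8))
    (@En.n l28749 (nat_lit 4573) (nat_lit 5) (nat_lit 13))
    (@En.n l23338 (nat_lit 11852) (nat_lit 3) (nat_lit 10))
    (@En.n l7161 (nat_lit 10919) (nat_lit 8) (nat_lit 4))
    (@En.n l830 (nat_lit 11758) (nat_lit 10) (nat_lit 11))
    (@En.n l50 (nat_lit 10823) (nat_lit 12) (nat_lit 4))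
    (@En.n l28750 (nat_lit 11787) (nat_lit 0) (nat_lit 5))
    (@En.i (nat_lit 10188) (nat_lit 7) (nat_lit 12))
    (@En.n l28751 (nat_lit 11741) (nat_lit 14) (nat_lit 8))
    (@En.n l830 (nat_lit 7359) (nat_lit 11) (nat_lit 12))
    (@En.n l14488 (nat_lit 10847) (nat_lit 15) (nat_lit 3))))
  (@Cl.mk (nat_lit 0x3000a0006000b000b0007000b000600050005000b0005000a000d00090005) (nat_lit 0x505309000504740) (nat_lit 16) Lb.e (@T16.mk En
    (@En.n l17 (nat_lit 11137) (nat_lit 0) (nat_lit 5))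
    (@En.n l107 (nat_lit 10277) (nat_lit 0) (nat_lit 9))
    (@En.n l28749 (nat_lit 4566) (nat_lit 5) (nat_lit 13))
    (@En.n l41502 (nat_lit 12708) (nat_lit 3) (nat_lit 10))
    (@En.n l15575 (nat_lit 10862) (nat_lit 4) (nat_lit 5))
    (@En.n l830 (nat_lit 11094) (nat_lit 0) (nat_lit 11))
    (@En.n l41503 (nat_lit 10853) (nat_lit 11) (nat_lit 5))
    (@En.i (nat_lit 10848) (nat_lit 11) (nat_lit 5))
    (@En.n l28750 (nat_lit 5593) (nat_lit 8) (nat_lit 6))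
    (@En.i (nat_lit 9743) (nat_lit 8) (nat_lit 11))
    (@En.n l28751 (nat_lit 11093) (nat_lit 2) (nat_lit 7))
    (@En.n l41504 (nat_lit 9777) (nat_lit 5) (nat_lit 11))
    (@En.n l6822 (nat_lit 11887) (nat_lit 13) (nat_lit 11))
    (@En.n l41505 (nat_lit 10851) (nat_lit 14) (nat_lit 6))
    (@En.n l41506 (nat_lit 8011) (nat_lit 14) (nat_lit 10))
    (@En.n l28748 (nat_lit 10850) (nat_lit 15) (nat_lit 3))))
  (@Cl.mk (nat_lit 0x3000a0006000b000b0006000b000600050005000c0005000a000d0004000a) (nat_lit 0x404304000904707) (nat_lit 16) Lb.e (@T16.mk En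
    (@En.n l387 (nat_lit 5621) (nat_lit 0) (nat_lit 10))
    (@En.n l33930 (nat_lit 10857) (nat_lit 15) (nat_lit 4))
    (@En.i (nat_lit 4564) (nat_lit 5) (nat_lit 13))
    (@En.n l18143 (nat_lit 12675) (nat_lit 1) (nat_lit 10))
    (@En.n l17781 (nat_lit 10861) (nat_lit 4) (nat_lit 5))
    (@En.n l1776 (nat_lit 11178) (nat_lit 0) (nat_lit 12))
    (@En.n l33931 (nat_lit 10854) (nat_lit 11) (nat_lit 5))
    (@En.i (nat_lit 10620) (nat_lit 11) (nat_lit 5))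
    (@En.n l33932 (nat_lit 5592) (nat_lit 8) (nat_lit 6))
    (@En.n l6904 (nat_lit 9746) (nat_lit 10) (nat_lit 11))
    (@En.n l1316 (nat_lit 11775) (nat_lit 2) (nat_lit 6))
    (@En.n l10011 (nat_lit 9779) (nat_lit 5) (nat_lit 11))
    (@En.n l33933 (nat_lit 11886) (nat_lit 13) (nat_lit 11))
    (@En.n l20276 (nat_lit 10852) (nat_lit 14) (nat_lit 6))
    (@En.n l17781 (nat_lit 10858) (nat_lit 13) (nat_lit 10))
    (@En.n l28085 (nat_lit 10849) (nat_lit 15) (nat_lit 3))))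
  (@Cl.mk (nat_lit 0x30006000b000b0006000b000a00050005000a0005000a0006000d000a0006) (nat_lit 0x47035005050870) (nat_lit 16) Lb.e (@T16.mk En
    (@En.n l2038 (nat_lit 10097) (nat_lit 0) (nat_lit 6))
    (@En.n l649 (nat_lit 10278) (nat_lit 2) (nat_lit 10))
    (@En.n l31558 (nat_lit 10849) (nat_lit 2) (nat_lit 13))
    (@En.n l31559 (nat_lit 5607) (nat_lit 3) (nat_lit 6))
    (@En.n l31560 (nat_lit 12441) (nat_lit 4) (nat_lit 10))
    (@En.n l31561 (nat_lit 10868) (nat_lit 5) (nat_lit 5))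
    (@En.n l9938 (nat_lit 11095) (nat_lit 7) (nat_lit 10))
    (@En.n l55 (nat_lit 10855) (nat_lit 11) (nat_lit 5))
    (@En.n l16203 (nat_lit 10837) (nat_lit 8) (nat_lit 5))
    (@En.n l31562 (nat_lit 11110) (nat_lit 10) (nat_lit 10))
    (@En.n l476 (nat_lit 9749) (nat_lit 11) (nat_lit 11))
    (@En.i (nat_lit 11091) (nat_lit 12) (nat_lit 6))
    (@En.n l28928 (nat_lit 9776) (nat_lit 5) (nat_lit 11))
    (@En.n l31562 (nat_lit 11881) (nat_lit 14) (nat_lit 11))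
    (@En.n l31563 (nat_lit 8006) (nat_lit 12) (nat_lit 6))
    (@En.n l1865 (nat_lit 10852) (nat_lit 15) (nat_lit 3))))
  (@Cl.mk (nat_lit 0x30006000b000b0005000b000a00050005000b0005000a0006000d0005000b) (nat_lit 0x37035008050808) (nat_lit 16) Lb.e (@T16.mk En
    (@En.n l766 (nat_lit 5790) (nat_lit 0) (nat_lit 11))
    (@En.i (nat_lit 10281) (nat_lit 8) (nat_lit 5))
    (@En.n l6238 (nat_lit 10850) (nat_lit 2) (nat_lit 13))
    (@En.n l31397 (nat_lit 5606) (nat_lit 3) (nat_lit 6))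
    (@En.n l41409 (nat_lit 12687) (nat_lit 4) (nat_lit 10))
    (@En.i (nat_lit 7552) (nat_lit 5) (nat_lit 5))
    (@En.n l899 (nat_lit 11177) (nat_lit 7) (nat_lit 11))
    (@En.n l152 (nat_lit 10856) (nat_lit 11) (nat_lit 5))
    (@En.n l26068 (nat_lit 10835) (nat_lit 8) (nat_lit 5))
    (@En.n l870 (nat_lit 11152) (nat_lit 10) (nat_lit 10))
    (@En.n l725 (nat_lit 9748) (nat_lit 11) (nat_lit 11))
    (@En.n l2125 (nat_lit 11776) (nat_lit 12) (nat_lit 5))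
    (@En.n l3536 (nat_lit 9778) (nat_lit 5) (nat_lit 11))
    (@En.n l29413 (nat_lit 11880) (nat_lit 14) (nat_lit 11))
    (@En.i (nat_lit 11515) (nat_lit 12) (nat_lit 6))
    (@En.n l2869 (nat_lit 10851) (nat_lit 15) (nat_lit 3))))
  (@Cl.mk (nat_lit 0x20008000c00070005000b0004000a000d00080005000300090006000e000b) (nat_lit 0x370040453004036) (nat_lit 16) Lb.e (@T16.mk En
    (@En.n l31558 (nat_lit 10849) (nat_lit 12) (nat_lit 11))
    (@En.n l10994 (nat_lit 6483) (nat_lit 1) (nat_lit 14))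
    (@En.n l17 (nat_lit 10855) (nat_lit 2) (nat_lit 6))
    (@En.i (nat_lit 11089) (nat_lit 3) (nat_lit 9))
    (@En.n l1865 (nat_lit 10854) (nat_lit 4) (nat_lit 3))
    (@En.n l31894 (nat_lit 12277) (nat_lit 0) (nat_lit 5))
    (@En.n l22926 (nat_lit 11083) (nat_lit 6) (nat_lit 8))
    (@En.n l31894 (nat_lit 3949) (nat_lit 8) (nat_lit 13))
    (@En.n l31895 (nat_lit 12702) (nat_lit 9) (nat_lit 10))
    (@En.n l31896 (nat_lit 11672) (nat_lit 9) (nat_lit 4))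
    (@En.n l2038 (nat_lit 7090) (nat_lit 11) (nat_lit 11))
    (@En.n l10994 (nat_lit 10159) (nat_lit 12) (nat_lit 5))
    (@En.n l31897 (nat_lit 5591) (nat_lit 13) (nat_lit 7))
    (@En.n l12731 (nat_lit 9741) (nat_lit 14) (nat_lit 12))
    (@En.i (nat_lit 9718) (nat_lit 4) (nat_lit 8))
    (@En.n l28 (nat_lit 10853) (nat_lit 15) (nat_lit 2))))
  (@Cl.mk (nat_lit 0x20007000c00070005000c0004000a000d00040009000300090006000e000b) (nat_lit 0x50010350204045) (nat_lit 16) Lb.e (@T16.mk En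
    (@En.n l6238 (nat_lit 10850) (nat_lit 12) (nat_lit 11))
    (@En.n l6238 (nat_lit 6484) (nat_lit 1) (nat_lit 14))
    (@En.n l7 (nat_lit 10856) (nat_lit 2) (nat_lit 6))
    (@En.i (nat_lit 10859) (nat_lit 3) (nat_lit 9))
    (@En.n l2869 (nat_lit 10853) (nat_lit 4) (nat_lit 3))
    (@En.n l11589 (nat_lit 5788) (nat_lit 5) (nat_lit 9))
    (@En.n l14973 (nat_lit 10530) (nat_lit 6) (nat_lit 4))
    (@En.n l6238 (nat_lit 3948) (nat_lit 8) (nat_lit 13))
    (@En.n l9225 (nat_lit 12701) (nat_lit 9) (nat_lit 10))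
    (@En.i (nat_lit 7550) (nat_lit 9) (nat_lit 4))
    (@En.n l27074 (nat_lit 6306) (nat_lit 11) (nat_lit 12))
    (@En.n l6238 (nat_lit 10719) (nat_lit 12) (nat_lit 5))
    (@En.i (nat_lit 5590) (nat_lit 13) (nat_lit 7))
    (@En.n l16122 (nat_lit 9742) (nat_lit 14) (nat_lit 12))
    (@En.n l27075 (nat_lit 9699) (nat_lit 4) (nat_lit 7))
    (@En.n l3 (nat_lit 10854) (nat_lit 15) (nat_lit 2))))
  (@Cl.mk (nat_lit 0x20007000c000b0005000a0004000a0005000d0009000600030006000e000b) (nat_lit 0x44040406500025) (nat_lit 16) Lb.e (@T16.mk En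
    (@En.i (nat_lit 10851) (nat_lit 13) (nat_lit 11))
    (@En.n l3928 (nat_lit 9560) (nat_lit 1) (nat_lit 14))
    (@En.i (nat_lit 8005) (nat_lit 2) (nat_lit 6))
    (@En.n l1865 (nat_lit 10856) (nat_lit 3) (nat_lit 3))
    (@En.n l2038 (nat_lit 12275) (nat_lit 0) (nat_lit 6))
    (@En.n l649 (nat_lit 9569) (nat_lit 5) (nat_lit 9))
    (@En.i (nat_lit 10853) (nat_lit 7) (nat_lit 13))
    (@En.n l23774 (nat_lit 5300) (nat_lit 7) (nat_lit 5))
    (@En.n l30871 (nat_lit 12703) (nat_lit 9) (nat_lit 10))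
    (@En.n l50 (nat_lit 7551) (nat_lit 9) (nat_lit 4))
    (@En.n l2038 (nat_lit 7085) (nat_lit 11) (nat_lit 10))
    (@En.i (nat_lit 10831) (nat_lit 7) (nat_lit 5))
    (@En.n l217 (nat_lit 11215) (nat_lit 13) (nat_lit 11))
    (@En.n l476 (nat_lit 9744) (nat_lit 14) (nat_lit 12))
    (@En.i (nat_lit 9716) (nat_lit 11) (nat_lit 7))
    (@En.n l28 (nat_lit 10855) (nat_lit 15) (nat_lit 2))))
  (@Cl.mk (nat_lit 0x20006000c000b0005000b0004000a0005000d0005000a00030006000e000b) (nat_lit 0x46010406020034) (nat_lit 16) Lb.e (@T16.mk En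
    (@En.i (nat_lit 10852) (nat_lit 13) (nat_lit 11))
    (@En.n l9103 (nat_lit 9559) (nat_lit 1) (nat_lit 14))
    (@En.i (nat_lit 12842) (nat_lit 2) (nat_lit 6))
    (@En.n l2869 (nat_lit 10855) (nat_lit 3) (nat_lit 3))
    (@En.i (nat_lit 5789) (nat_lit 0) (nat_lit 10))
    (@En.i (nat_lit 12265) (nat_lit 5) (nat_lit 5))
    (@En.i (nat_lit 10854) (nat_lit 7) (nat_lit 13))
    (@En.n l40209 (nat_lit 5295) (nat_lit 7) (nat_lit 5))
    (@En.n l134 (nat_lit 12698) (nat_lit 9) (nat_lit 10))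
    (@En.i (nat_lit 7548) (nat_lit 9) (nat_lit 4))
    (@En.n l8435 (nat_lit 6305) (nat_lit 11) (nat_lit 11))
    (@En.i (nat_lit 10718) (nat_lit 7) (nat_lit 5))
    (@En.n l55 (nat_lit 11216) (nat_lit 13) (nat_lit 11))
    (@En.n l725 (nat_lit 9747) (nat_lit 14) (nat_lit 12))
    (@En.i (nat_lit 9702) (nat_lit 13) (nat_lit 6))
    (@En.n l3 (nat_lit 10856) (nat_lit 15) (nat_lit 2))))
  (@Cl.mk (nat_lit 0x4000a0005000a0005000b000b0006000a000600050005000c000b0006000b) (nat_lit 0x703049060009608) (nat_lit 16) Lb.e (@T16.mk En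
    (@En.n l40624 (nat_lit 12688) (nat_lit 0) (nat_lit 11))
    (@En.n l8631 (nat_lit 8184) (nat_lit 1) (nat_lit 6))
    (@En.n l40625 (nat_lit 10849) (nat_lit 5) (nat_lit 11))
    (@En.n l40626 (nat_lit 11179) (nat_lit 3) (nat_lit 12))
    (@En.n l40627 (nat_lit 10530) (nat_lit 11) (nat_lit 5))
    (@En.n l39528 (nat_lit 10153) (nat_lit 11) (nat_lit 5))
    (@En.n l29806 (nat_lit 5594) (nat_lit 0) (nat_lit 6))
    (@En.n l39528 (nat_lit 6407) (nat_lit 9) (nat_lit 10))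
    (@En.n l40628 (nat_lit 10643) (nat_lit 2) (nat_lit 6))
    (@En.n l61 (nat_lit 9781) (nat_lit 5) (nat_lit 11))
    (@En.n l649 (nat_lit 11043) (nat_lit 11) (nat_lit 11))
    (@En.n l32894 (nat_lit 10281) (nat_lit 5) (nat_lit 5))
    (@En.n l40629 (nat_lit 11777) (nat_lit 10) (nat_lit 10))
    (@En.n l40630 (nat_lit 10128) (nat_lit 1) (nat_lit 5))
    (@En.n l40631 (nat_lit 9991) (nat_lit 0) (nat_lit 10))
    (@En.n l1865 (nat_lit 10860) (nat_lit 15) (nat_lit 4))))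
  (@Cl.mk (nat_lit 0x4000b000a0005000a000a0005000a0006000a00060006000c0006000b0006) (nat_lit 0x730380306003060) (nat_lit 16) Lb.e (@T16.mk En
    (@En.n l38614 (nat_lit 5301) (nat_lit 0) (nat_lit 6))
    (@En.n l41846 (nat_lit 11879) (nat_lit 1) (nat_lit 11))
    (@En.n l644 (nat_lit 7553) (nat_lit 1) (nat_lit 6))
    (@En.n l41847 (nat_lit 11158) (nat_lit 3) (nat_lit 12))
    (@En.n l152 (nat_lit 10859) (nat_lit 10) (nat_lit 6))
    (@En.n l39814 (nat_lit 10275) (nat_lit 5) (nat_lit 6))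
    (@En.i (nat_lit 10852) (nat_lit 9) (nat_lit 10))
    (@En.n l41848 (nat_lit 10998) (nat_lit 7) (nat_lit 6))
    (@En.n l41849 (nat_lit 11043) (nat_lit 10) (nat_lit 10))
    (@En.n l29686 (nat_lit 11085) (nat_lit 9) (nat_lit 5))
    (@En.n l3536 (nat_lit 11436) (nat_lit 6) (nat_lit 10))
    (@En.n l41850 (nat_lit 9715) (nat_lit 10) (nat_lit 10))
    (@En.n l29681 (nat_lit 9332) (nat_lit 2) (nat_lit 5))
    (@En.n l41851 (nat_lit 10704) (nat_lit 6) (nat_lit 10))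
    (@En.n l11589 (nat_lit 11324) (nat_lit 1) (nat_lit 11))
    (@En.n l41852 (nat_lit 11777) (nat_lit 12) (nat_lit 4))))
  (@Cl.mk (nat_lit 0x20006000b0007000b0006000c0005000b00050004000a00090005000e000a) (nat_lit 0x60704050083034) (nat_lit 16) Lb.e (@T16.mk En
    (@En.i (nat_lit 10858) (nat_lit 11) (nat_lit 10))
    (@En.n l9103 (nat_lit 9510) (nat_lit 1) (nat_lit 14))
    (@En.n l29681 (nat_lit 9326) (nat_lit 2) (nat_lit 5))
    (@En.n l29689 (nat_lit 11617) (nat_lit 3) (nat_lit 9))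
    (@En.n l39811 (nat_lit 11336) (nat_lit 4) (nat_lit 10))
    (@En.n l39812 (nat_lit 12261) (nat_lit 5) (nat_lit 4))
    (@En.n l35771 (nat_lit 5289) (nat_lit 6) (nat_lit 5))
    (@En.n l39813 (nat_lit 12598) (nat_lit 8) (nat_lit 11))
    (@En.n l644 (nat_lit 7547) (nat_lit 8) (nat_lit 5))
    (@En.n l35773 (nat_lit 6309) (nat_lit 10) (nat_lit 12))
    (@En.n l39814 (nat_lit 10701) (nat_lit 11) (nat_lit 6))
    (@En.i (nat_lit 10856) (nat_lit 12) (nat_lit 11))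
    (@En.n l18117 (nat_lit 12524) (nat_lit 13) (nat_lit 7))
    (@En.n l16122 (nat_lit 11042) (nat_lit 14) (nat_lit 11))
    (@En.i (nat_lit 11884) (nat_lit 13) (nat_lit 6))
    (@En.n l3 (nat_lit 10859) (nat_lit 15) (nat_lit 2))))
  (@Cl.mk (nat_lit 0x4000a0004000a0007000b000b00060009000600050005000c0009000c0007) (nat_lit 0x701093060009360) (nat_lit 16) Lb.e (@T16.mk En
    (@En.n l575 (nat_lit 8183) (nat_lit 0) (nat_lit 7))
    (@En.n l18972 (nat_lit 4565) (nat_lit 6) (nat_lit 12))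
    (@En.n l29328 (nat_lit 11803) (nat_lit 4) (nat_lit 9))
    (@En.n l38664 (nat_lit 9847) (nat_lit 3) (nat_lit 12))
    (@En.n l38665 (nat_lit 7549) (nat_lit 11) (nat_lit 5))
    (@En.n l18972 (nat_lit 10615) (nat_lit 11) (nat_lit 5))
    (@En.n l517 (nat_lit 8715) (nat_lit 0) (nat_lit 6))
    (@En.n l571 (nat_lit 8909) (nat_lit 9) (nat_lit 9))
    (@En.n l4946 (nat_lit 9845) (nat_lit 2) (nat_lit 6))
    (@En.n l457 (nat_lit 10865) (nat_lit 5) (nat_lit 11))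
    (@En.i (nat_lit 8572) (nat_lit 8) (nat_lit 11))
    (@En.n l38666 (nat_lit 7554) (nat_lit 14) (nat_lit 7))
    (@En.n l20132 (nat_lit 7555) (nat_lit 13) (nat_lit 10))
    (@En.n l517 (nat_lit 10993) (nat_lit 15) (nat_lit 4))
    (@En.n l38667 (nat_lit 10861) (nat_lit 0) (nat_lit 10))
    (@En.n l38668 (nat_lit 10850) (nat_lit 1) (nat_lit 4))))
  (@Cl.mk (nat_lit 0x300090006000a000a0006000b00090007000600060005000a000d0007000a) (nat_lit 0x108301700003606) (nat_lit 16) Lb.e (@T16.mk En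
    (@En.n l30640 (nat_lit 5785) (nat_lit 0) (nat_lit 10))
    (@En.n l30641 (nat_lit 8185) (nat_lit 3) (nat_lit 7))
    (@En.n l6238 (nat_lit 3355) (nat_lit 5) (nat_lit 13))
    (@En.n l14270 (nat_lit 11800) (nat_lit 3) (nat_lit 10))
    (@En.n l3535 (nat_lit 11760) (nat_lit 4) (nat_lit 5))
    (@En.n l152 (nat_lit 7550) (nat_lit 10) (nat_lit 6))
    (@En.n l6238 (nat_lit 10616) (nat_lit 10) (nat_lit 6))
    (@En.n l27589 (nat_lit 12154) (nat_lit 7) (nat_lit 7))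
    (@En.n l30642 (nat_lit 10860) (nat_lit 7) (nat_lit 9))
    (@En.n l16122 (nat_lit 6197) (nat_lit 10) (nat_lit 11))
    (@En.n l29362 (nat_lit 9841) (nat_lit 11) (nat_lit 6))
    (@En.n l30643 (nat_lit 10863) (nat_lit 6) (nat_lit 10))
    (@En.n l30644 (nat_lit 8575) (nat_lit 13) (nat_lit 10))
    (@En.n l7 (nat_lit 7552) (nat_lit 14) (nat_lit 6))
    (@En.n l644 (nat_lit 7553) (nat_lit 12) (nat_lit 9))
    (@En.n l30645 (nat_lit 10862) (nat_lit 15) (nat_lit 3))))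
  (@Cl.mk (nat_lit 0x300090006000a000a0007000b00080007000600060005000a000d00090008) (nat_lit 0x102301500004653) (nat_lit 16) Lb.e (@T16.mk En
    (@En.n l38655 (nat_lit 11660) (nat_lit 0) (nat_lit 8))
    (@En.n l21503 (nat_lit 11079) (nat_lit 3) (nat_lit 9))
    (@En.n l2038 (nat_lit 3354) (nat_lit 5) (nat_lit 13))
    (@En.n l21506 (nat_lit 11673) (nat_lit 3) (nat_lit 10))
    (@En.n l11407 (nat_lit 10361) (nat_lit 4) (nat_lit 5))
    (@En.n l2172 (nat_lit 11672) (nat_lit 10) (nat_lit 6))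
    (@En.n l24673 (nat_lit 10919) (nat_lit 10) (nat_lit 6))
    (@En.i (nat_lit 12131) (nat_lit 9) (nat_lit 7))
    (@En.n l38656 (nat_lit 10993) (nat_lit 9) (nat_lit 8))
    (@En.i (nat_lit 6669) (nat_lit 8) (nat_lit 11))
    (@En.n l742 (nat_lit 11090) (nat_lit 11) (nat_lit 7))
    (@En.n l28385 (nat_lit 10864) (nat_lit 6) (nat_lit 10))
    (@En.n l5801 (nat_lit 9049) (nat_lit 13) (nat_lit 10))
    (@En.n l37366 (nat_lit 10868) (nat_lit 14) (nat_lit 6))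
    (@En.n l38657 (nat_lit 8009) (nat_lit 0) (nat_lit 9))
    (@En.n l38658 (nat_lit 10861) (nat_lit 15) (nat_lit 3))))
  (@Cl.mk (nat_lit 0x20006000a000d0008000b0003000a0006000a0005000a00080006000e0006) (nat_lit 0x473708020140c0) (nat_lit 16) Lb.e (@T16.mk En
    (@En.n l16603 (nat_lit 10861) (nat_lit 6) (nat_lit 6))
    (@En.n l16598 (nat_lit 10021) (nat_lit 1) (nat_lit 14))
    (@En.n l6683 (nat_lit 12129) (nat_lit 2) (nat_lit 6))
    (@En.n l2642 (nat_lit 10865) (nat_lit 3) (nat_lit 8))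
    (@En.n l16604 (nat_lit 6663) (nat_lit 4) (nat_lit 10))
    (@En.n l16605 (nat_lit 4542) (nat_lit 5) (nat_lit 5))
    (@En.n l6675 (nat_lit 10138) (nat_lit 7) (nat_lit 10))
    (@En.n l6642 (nat_lit 10866) (nat_lit 7) (nat_lit 6))
    (@En.n l6607 (nat_lit 10869) (nat_lit 9) (nat_lit 10))
    (@En.n l16606 (nat_lit 10864) (nat_lit 9) (nat_lit 3))
    (@En.n l3590 (nat_lit 12378) (nat_lit 11) (nat_lit 11))
    (@En.n l6675 (nat_lit 10872) (nat_lit 12) (nat_lit 8))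
    (@En.n l16607 (nat_lit 4474) (nat_lit 13) (nat_lit 13))
    (@En.n l16608 (nat_lit 7946) (nat_lit 14) (nat_lit 10))
    (@En.n l16609 (nat_lit 9669) (nat_lit 13) (nat_lit 6))
    (@En.n l50 (nat_lit 10863) (nat_lit 15) (nat_lit 2))))
noncomputable def a679 : T16 Cl := @T16.mk Cl
  (@Cl.mk (nat_lit 0x20006000a000d000a00090003000a0006000a0006000a00070006000e0006) (nat_lit 0x564508020100c0) (nat_lit 16) Lb.e (@T16.mk En
    (@En.n l14249 (nat_lit 10862) (nat_lit 6) (nat_lit 6))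
    (@En.n l134 (nat_lit 10020) (nat_lit 1) (nat_lit 14))
    (@En.n l31679 (nat_lit 12127) (nat_lit 2) (nat_lit 6))
    (@En.n l17 (nat_lit 10990) (nat_lit 3) (nat_lit 7))
    (@En.n l14250 (nat_lit 6665) (nat_lit 4) (nat_lit 10))
    (@En.n l2711 (nat_lit 11492) (nat_lit 5) (nat_lit 6))
    (@En.i (nat_lit 10135) (nat_lit 7) (nat_lit 10))
    (@En.n l30515 (nat_lit 10867) (nat_lit 7) (nat_lit 6))
    (@En.n l617 (nat_lit 11001) (nat_lit 9) (nat_lit 10))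
    (@En.n l18356 (nat_lit 10863) (nat_lit 9) (nat_lit 3))
    (@En.n l17801 (nat_lit 11430) (nat_lit 11) (nat_lit 9))
    (@En.n l3518 (nat_lit 11449) (nat_lit 12) (nat_lit 10))
    (@En.n l31680 (nat_lit 4473) (nat_lit 13) (nat_lit 13))
    (@En.n l20447 (nat_lit 11728) (nat_lit 14) (nat_lit 10))
    (@En.n l14256 (nat_lit 10358) (nat_lit 13) (nat_lit 6))
    (@En.n l7 (nat_lit 10864) (nat_lit 15) (nat_lit 2))))
  (@Cl.mk (nat_lit 0x2000c0009000c00080004000b0004000b0007000b000500080005000e0005) (nat_lit 0x9463080902030c0) (nat_lit 16) Lb.e (@T16.mk En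
    (@En.n l11 (nat_lit 10860) (nat_lit 5) (nat_lit 5))
    (@En.n l134 (nat_lit 6865) (nat_lit 1) (nat_lit 14))
    (@En.n l2125 (nat_lit 10874) (nat_lit 2) (nat_lit 5))
    (@En.n l152 (nat_lit 8898) (nat_lit 10) (nat_lit 8))
    (@En.n l4934 (nat_lit 4545) (nat_lit 4) (nat_lit 5))
    (@En.i (nat_lit 9178) (nat_lit 6) (nat_lit 11))
    (@En.n l20917 (nat_lit 10870) (nat_lit 6) (nat_lit 7))
    (@En.n l3447 (nat_lit 10871) (nat_lit 8) (nat_lit 11))
    (@En.n l19001 (nat_lit 10990) (nat_lit 8) (nat_lit 4))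
    (@En.n l18356 (nat_lit 10863) (nat_lit 10) (nat_lit 11))
    (@En.n l22671 (nat_lit 9779) (nat_lit 10) (nat_lit 4))
    (@En.i (nat_lit 10873) (nat_lit 12) (nat_lit 8))
    (@En.n l3988 (nat_lit 4563) (nat_lit 6) (nat_lit 12))
    (@En.n l29226 (nat_lit 10755) (nat_lit 14) (nat_lit 9))
    (@En.i (nat_lit 9843) (nat_lit 3) (nat_lit 12))
    (@En.n l7 (nat_lit 10865) (nat_lit 15) (nat_lit 2))))
  (@Cl.mk (nat_lit 0x20006000a0006000d0009000c00030006000a0004000a0007000a000e0006) (nat_lit 0x40848008010560) (nat_lit 16) Lb.e (@T16.mk En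
    (@En.n l3098 (nat_lit 7552) (nat_lit 7) (nat_lit 6))
    (@En.n l3 (nat_lit 10014) (nat_lit 1) (nat_lit 14))
    (@En.i (nat_lit 7251) (nat_lit 2) (nat_lit 10))
    (@En.n l3 (nat_lit 10870) (nat_lit 3) (nat_lit 7))
    (@En.i (nat_lit 6662) (nat_lit 4) (nat_lit 10))
    (@En.n l17733 (nat_lit 4541) (nat_lit 5) (nat_lit 4))
    (@En.n l2571 (nat_lit 8246) (nat_lit 7) (nat_lit 10))
    (@En.i (nat_lit 5209) (nat_lit 7) (nat_lit 6))
    (@En.i (nat_lit 10867) (nat_lit 8) (nat_lit 3))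
    (@En.n l17733 (nat_lit 12376) (nat_lit 0) (nat_lit 12))
    (@En.i (nat_lit 10869) (nat_lit 11) (nat_lit 9))
    (@En.n l6696 (nat_lit 10863) (nat_lit 12) (nat_lit 13))
    (@En.n l10028 (nat_lit 6548) (nat_lit 13) (nat_lit 6))
    (@En.n l3105 (nat_lit 10758) (nat_lit 14) (nat_lit 10))
    (@En.n l3106 (nat_lit 9664) (nat_lit 5) (nat_lit 6))
    (@En.n l17 (nat_lit 10866) (nat_lit 15) (nat_lit 2))))
  (@Cl.mk (nat_lit 0x20006000a0006000d000b000a00030006000a0005000a0006000a000e0006) (nat_lit 0x50777001010580) (nat_lit 16) Lb.e (@T16.mk En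
    (@En.n l37457 (nat_lit 10868) (nat_lit 7) (nat_lit 6))
    (@En.n l18247 (nat_lit 8213) (nat_lit 1) (nat_lit 14))
    (@En.i (nat_lit 6962) (nat_lit 2) (nat_lit 10))
    (@En.n l17525 (nat_lit 10991) (nat_lit 3) (nat_lit 6))
    (@En.n l32303 (nat_lit 6664) (nat_lit 4) (nat_lit 10))
    (@En.n l12099 (nat_lit 11494) (nat_lit 5) (nat_lit 5))
    (@En.n l2572 (nat_lit 8252) (nat_lit 7) (nat_lit 10))
    (@En.n l6646 (nat_lit 11000) (nat_lit 7) (nat_lit 6))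
    (@En.n l7 (nat_lit 10866) (nat_lit 8) (nat_lit 3))
    (@En.n l37458 (nat_lit 11665) (nat_lit 0) (nat_lit 10))
    (@En.i (nat_lit 11445) (nat_lit 11) (nat_lit 11))
    (@En.n l18250 (nat_lit 10864) (nat_lit 12) (nat_lit 13))
    (@En.n l23301 (nat_lit 6549) (nat_lit 13) (nat_lit 6))
    (@En.n l3105 (nat_lit 11729) (nat_lit 14) (nat_lit 10))
    (@En.n l3106 (nat_lit 10357) (nat_lit 5) (nat_lit 6))
    (@En.n l17 (nat_lit 10867) (nat_lit 15) (nat_lit 2))))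
  (@Cl.mk (nat_lit 0x30006000a000a0006000b0007000b000600060005000a0005000d000a0009) (nat_lit 0x82010600040744) (nat_lit 16) Lb.e (@T16.mk En
    (@En.n l36053 (nat_lit 11663) (nat_lit 0) (nat_lit 9))
    (@En.n l42670 (nat_lit 11446) (nat_lit 2) (nat_lit 10))
    (@En.n l29666 (nat_lit 10862) (nat_lit 2) (nat_lit 13))
    (@En.n l42671 (nat_lit 5168) (nat_lit 3) (nat_lit 5))
    (@En.n l42672 (nat_lit 11798) (nat_lit 4) (nat_lit 10))
    (@En.n l42673 (nat_lit 10362) (nat_lit 5) (nat_lit 5))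
    (@En.n l31674 (nat_lit 7551) (nat_lit 10) (nat_lit 6))
    (@En.n l5 (nat_lit 10836) (nat_lit 7) (nat_lit 6))
    (@En.n l42674 (nat_lit 7249) (nat_lit 8) (nat_lit 11))
    (@En.n l38994 (nat_lit 10992) (nat_lit 10) (nat_lit 7))
    (@En.n l32111 (nat_lit 6667) (nat_lit 11) (nat_lit 11))
    (@En.n l23473 (nat_lit 11086) (nat_lit 12) (nat_lit 6))
    (@En.n l42675 (nat_lit 10867) (nat_lit 6) (nat_lit 10))
    (@En.n l7910 (nat_lit 8787) (nat_lit 9) (nat_lit 10))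
    (@En.n l2817 (nat_lit 10994) (nat_lit 12) (nat_lit 6))
    (@En.n l42676 (nat_lit 7552) (nat_lit 15) (nat_lit 3))))
  (@Cl.mk (nat_lit 0x20007000b00060009000c000a000500090004000900070006000a000e0007) (nat_lit 0x403770701006c0) (nat_lit 16) Lb.e (@T16.mk En
    (@En.n l3098 (nat_lit 7553) (nat_lit 3) (nat_lit 7))
    (@En.n l31910 (nat_lit 8208) (nat_lit 1) (nat_lit 14))
    (@En.n l28 (nat_lit 10866) (nat_lit 2) (nat_lit 10))
    (@En.n l77 (nat_lit 10867) (nat_lit 3) (nat_lit 6))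
    (@En.n l31911 (nat_lit 10871) (nat_lit 4) (nat_lit 7))
    (@En.n l31910 (nat_lit 6661) (nat_lit 5) (nat_lit 9))
    (@En.n l31912 (nat_lit 4540) (nat_lit 6) (nat_lit 4))
    (@En.n l31910 (nat_lit 8249) (nat_lit 10) (nat_lit 9))
    (@En.n l2678 (nat_lit 5210) (nat_lit 8) (nat_lit 5))
    (@En.n l18350 (nat_lit 11433) (nat_lit 10) (nat_lit 10))
    (@En.n l31913 (nat_lit 11332) (nat_lit 6) (nat_lit 12))
    (@En.n l20290 (nat_lit 12817) (nat_lit 12) (nat_lit 9))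
    (@En.n l31914 (nat_lit 6545) (nat_lit 13) (nat_lit 6))
    (@En.n l3105 (nat_lit 11732) (nat_lit 14) (nat_lit 11))
    (@En.n l3106 (nat_lit 6281) (nat_lit 13) (nat_lit 7))
    (@En.n l17 (nat_lit 10869) (nat_lit 15) (nat_lit 2))))
  (@Cl.mk (nat_lit 0x2000b00090006000c00090005000c00040007000b00040007000a000e0005) (nat_lit 0x540740900900420) (nat_lit 16) Lb.e (@T16.mk En
    (@En.n l25358 (nat_lit 7554) (nat_lit 8) (nat_lit 5))
    (@En.n l8243 (nat_lit 6864) (nat_lit 1) (nat_lit 14))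
    (@En.i (nat_lit 8004) (nat_lit 8) (nat_lit 10))
    (@En.n l8226 (nat_lit 8896) (nat_lit 11) (nat_lit 7))
    (@En.i (nat_lit 4539) (nat_lit 4) (nat_lit 4))
    (@En.n l1897 (nat_lit 7625) (nat_lit 0) (nat_lit 11))
    (@En.n l2038 (nat_lit 5213) (nat_lit 11) (nat_lit 7))
    (@En.n l3197 (nat_lit 10991) (nat_lit 7) (nat_lit 4))
    (@En.n l1690 (nat_lit 10866) (nat_lit 9) (nat_lit 12))
    (@En.n l152 (nat_lit 9778) (nat_lit 9) (nat_lit 5))
    (@En.n l8243 (nat_lit 10871) (nat_lit 11) (nat_lit 9))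
    (@En.n l39022 (nat_lit 10865) (nat_lit 12) (nat_lit 12))
    (@En.n l5588 (nat_lit 6547) (nat_lit 13) (nat_lit 6))
    (@En.n l4758 (nat_lit 10754) (nat_lit 14) (nat_lit 9))
    (@En.n l31748 (nat_lit 9844) (nat_lit 10) (nat_lit 11))
    (@En.n l17 (nat_lit 10870) (nat_lit 15) (nat_lit 2))))
  (@Cl.mk (nat_lit 0x2000c000a000600090004000c000b0006000a000400070005000a000e0006) (nat_lit 0x150308808000530) (nat_lit 16) Lb.e (@T16.mk En
    (@En.i (nat_lit 7555) (nat_lit 5) (nat_lit 6))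
    (@En.i (nat_lit 8205) (nat_lit 1) (nat_lit 14))
    (@En.n l2899 (nat_lit 10870) (nat_lit 2) (nat_lit 10))
    (@En.n l6826 (nat_lit 8054) (nat_lit 3) (nat_lit 5))
    (@En.i (nat_lit 8897) (nat_lit 4) (nat_lit 7))
    (@En.n l5389 (nat_lit 10902) (nat_lit 5) (nat_lit 4))
    (@En.i (nat_lit 7621) (nat_lit 0) (nat_lit 10))
    (@En.n l13520 (nat_lit 5214) (nat_lit 7) (nat_lit 6))
    (@En.n l16898 (nat_lit 11438) (nat_lit 9) (nat_lit 11))
    (@En.n l41188 (nat_lit 10869) (nat_lit 10) (nat_lit 12))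
    (@En.n l41189 (nat_lit 11436) (nat_lit 10) (nat_lit 4))
    (@En.n l7889 (nat_lit 12816) (nat_lit 12) (nat_lit 9))
    (@En.n l5592 (nat_lit 6544) (nat_lit 13) (nat_lit 6))
    (@En.n l1369 (nat_lit 10756) (nat_lit 14) (nat_lit 10))
    (@En.n l217 (nat_lit 4319) (nat_lit 3) (nat_lit 12))
    (@En.n l28 (nat_lit 10871) (nat_lit 15) (nat_lit 2))))
  (@Cl.mk (nat_lit 0x20007000b0008000b000900090005000900050009000800070007000e0007) (nat_lit 0x426650301500c0) (nat_lit 16) Lb.e (@T16.mk En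
    (@En.i (nat_lit 8185) (nat_lit 7) (nat_lit 7))
    (@En.n l134 (nat_lit 8211) (nat_lit 1) (nat_lit 14))
    (@En.n l11 (nat_lit 11506) (nat_lit 9) (nat_lit 7))
    (@En.i (nat_lit 10864) (nat_lit 3) (nat_lit 7))
    (@En.n l17 (nat_lit 10873) (nat_lit 4) (nat_lit 8))
    (@En.i (nat_lit 6670) (nat_lit 5) (nat_lit 9))
    (@En.n l20621 (nat_lit 4535) (nat_lit 6) (nat_lit 5))
    (@En.i (nat_lit 8499) (nat_lit 8) (nat_lit 9))
    (@En.n l16602 (nat_lit 10869) (nat_lit 8) (nat_lit 5))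
    (@En.n l20622 (nat_lit 12817) (nat_lit 10) (nat_lit 9))
    (@En.n l8681 (nat_lit 11426) (nat_lit 11) (nat_lit 9))
    (@En.n l20623 (nat_lit 11335) (nat_lit 12) (nat_lit 11))
    (@En.i (nat_lit 2086) (nat_lit 13) (nat_lit 8))
    (@En.n l20621 (nat_lit 11510) (nat_lit 14) (nat_lit 11))
    (@En.i (nat_lit 6280) (nat_lit 13) (nat_lit 7))
    (@En.n l7 (nat_lit 10872) (nat_lit 15) (nat_lit 2))))
  (@Cl.mk (nat_lit 0x2000d000a00080003000b000a000a0006000a0005000800060006000e0006) (nat_lit 0xa420762030400c0) (nat_lit 16) Lb.e (@T16.mk En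
    (@En.i (nat_lit 8183) (nat_lit 4) (nat_lit 6))
    (@En.n l134 (nat_lit 8209) (nat_lit 1) (nat_lit 14))
    (@En.n l11 (nat_lit 11504) (nat_lit 10) (nat_lit 6))
    (@En.i (nat_lit 8053) (nat_lit 3) (nat_lit 6))
    (@En.i (nat_lit 8972) (nat_lit 10) (nat_lit 8))
    (@En.i (nat_lit 3425) (nat_lit 5) (nat_lit 5))
    (@En.i (nat_lit 8500) (nat_lit 9) (nat_lit 10))
    (@En.n l532 (nat_lit 10871) (nat_lit 7) (nat_lit 6))
    (@En.n l619 (nat_lit 12816) (nat_lit 9) (nat_lit 10))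
    (@En.n l3866 (nat_lit 11422) (nat_lit 10) (nat_lit 10))
    (@En.i (nat_lit 10872) (nat_lit 11) (nat_lit 11))
    (@En.i (nat_lit 11427) (nat_lit 11) (nat_lit 3))
    (@En.i (nat_lit 2087) (nat_lit 0) (nat_lit 8))
    (@En.i (nat_lit 11509) (nat_lit 14) (nat_lit 10))
    (@En.i (nat_lit 9623) (nat_lit 2) (nat_lit 13))
    (@En.n l7 (nat_lit 10873) (nat_lit 15) (nat_lit 2))))
  (@Cl.mk (nat_lit 0x2000c0008000c000b0004000a0004000b00050008000c00060005000e0004) (nat_lit 0x641908020420010) (nat_lit 16) Lb.e (@T16.mk En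
    (@En.n l25041 (nat_lit 8715) (nat_lit 15) (nat_lit 4))
    (@En.n l601 (nat_lit 5431) (nat_lit 1) (nat_lit 14))
    (@En.n l28 (nat_lit 5525) (nat_lit 2) (nat_lit 5))
    (@En.n l11657 (nat_lit 11317) (nat_lit 3) (nat_lit 6))
    (@En.n l4427 (nat_lit 9170) (nat_lit 5) (nat_lit 12))
    (@En.i (nat_lit 8706) (nat_lit 10) (nat_lit 8))
    (@En.n l25042 (nat_lit 7507) (nat_lit 6) (nat_lit 5))
    (@En.n l8347 (nat_lit 8054) (nat_lit 8) (nat_lit 11))
    (@En.n l4427 (nat_lit 7807) (nat_lit 8) (nat_lit 4))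
    (@En.n l502 (nat_lit 12129) (nat_lit 10) (nat_lit 10))
    (@En.n l17 (nat_lit 5614) (nat_lit 10) (nat_lit 4))
    (@En.n l4428 (nat_lit 10875) (nat_lit 12) (nat_lit 11))
    (@En.n l11872 (nat_lit 7771) (nat_lit 13) (nat_lit 12))
    (@En.i (nat_lit 10752) (nat_lit 14) (nat_lit 8))
    (@En.i (nat_lit 9849) (nat_lit 3) (nat_lit 12))
    (@En.n l50 (nat_lit 10874) (nat_lit 15) (nat_lit 2))))
  (@Cl.mk (nat_lit 0x2000d0008000b00030009000d000a000500030008000c00070006000e0004) (nat_lit 0x958076200530010) (nat_lit 16) Lb.e (@T16.mk En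
    (@En.n l1236 (nat_lit 10250) (nat_lit 9) (nat_lit 4))
    (@En.n l12290 (nat_lit 3983) (nat_lit 1) (nat_lit 14))
    (@En.i (nat_lit 5530) (nat_lit 2) (nat_lit 6))
    (@En.i (nat_lit 10957) (nat_lit 3) (nat_lit 7))
    (@En.i (nat_lit 9087) (nat_lit 9) (nat_lit 12))
    (@En.n l4819 (nat_lit 10874) (nat_lit 5) (nat_lit 8))
    (@En.n l3536 (nat_lit 10876) (nat_lit 6) (nat_lit 3))
    (@En.n l12290 (nat_lit 7509) (nat_lit 0) (nat_lit 5))
    (@En.n l68 (nat_lit 8053) (nat_lit 9) (nat_lit 10))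
    (@En.n l3866 (nat_lit 8688) (nat_lit 10) (nat_lit 13))
    (@En.i (nat_lit 12130) (nat_lit 11) (nat_lit 9))
    (@En.i (nat_lit 10877) (nat_lit 11) (nat_lit 3))
    (@En.n l12290 (nat_lit 8971) (nat_lit 0) (nat_lit 11))
    (@En.i (nat_lit 10879) (nat_lit 14) (nat_lit 8))
    (@En.i (nat_lit 11756) (nat_lit 2) (nat_lit 13))
    (@En.n l7 (nat_lit 10875) (nat_lit 15) (nat_lit 2))))
  (@Cl.mk (nat_lit 0x2000d0008000c00030009000d0004000b00030008000c00070005000e0004) (nat_lit 0x952066020510010) (nat_lit 16) Lb.e (@T16.mk En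
    (@En.n l117 (nat_lit 10251) (nat_lit 9) (nat_lit 4))
    (@En.i (nat_lit 3982) (nat_lit 1) (nat_lit 14))
    (@En.n l3480 (nat_lit 7033) (nat_lit 2) (nat_lit 5))
    (@En.n l16307 (nat_lit 11316) (nat_lit 3) (nat_lit 7))
    (@En.i (nat_lit 8600) (nat_lit 9) (nat_lit 12))
    (@En.n l9182 (nat_lit 7457) (nat_lit 5) (nat_lit 8))
    (@En.n l6081 (nat_lit 10875) (nat_lit 6) (nat_lit 3))
    (@En.i (nat_lit 6965) (nat_lit 0) (nat_lit 11))
    (@En.n l13633 (nat_lit 10874) (nat_lit 8) (nat_lit 4))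
    (@En.i (nat_lit 8687) (nat_lit 10) (nat_lit 13))
    (@En.n l7507 (nat_lit 12127) (nat_lit 11) (nat_lit 9))
    (@En.i (nat_lit 10878) (nat_lit 11) (nat_lit 3))
    (@En.n l23552 (nat_lit 7779) (nat_lit 0) (nat_lit 12))
    (@En.i (nat_lit 10880) (nat_lit 14) (nat_lit 8))
    (@En.i (nat_lit 11758) (nat_lit 2) (nat_lit 13))
    (@En.n l11 (nat_lit 10876) (nat_lit 15) (nat_lit 2))))
  (@Cl.mk (nat_lit 0x2000d000a000900030009000d000a000600030007000c00070006000e0004) (nat_lit 0x9750795000400b0) (nat_lit 16) Lb.e (@T16.mk En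
    (@En.n l1236 (nat_lit 10253) (nat_lit 9) (nat_lit 4))
    (@En.n l16539 (nat_lit 5633) (nat_lit 1) (nat_lit 14))
    (@En.i (nat_lit 5529) (nat_lit 2) (nat_lit 6))
    (@En.i (nat_lit 11587) (nat_lit 3) (nat_lit 7))
    (@En.i (nat_lit 9083) (nat_lit 9) (nat_lit 12))
    (@En.n l16540 (nat_lit 5614) (nat_lit 5) (nat_lit 7))
    (@En.n l3536 (nat_lit 10878) (nat_lit 6) (nat_lit 3))
    (@En.n l16541 (nat_lit 11268) (nat_lit 0) (nat_lit 6))
    (@En.n l28466 (nat_lit 10881) (nat_lit 9) (nat_lit 10))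
    (@En.n l3866 (nat_lit 8693) (nat_lit 10) (nat_lit 13))
    (@En.i (nat_lit 12045) (nat_lit 11) (nat_lit 9))
    (@En.n l18 (nat_lit 10875) (nat_lit 11) (nat_lit 3))
    (@En.n l9155 (nat_lit 12502) (nat_lit 0) (nat_lit 9))
    (@En.n l12536 (nat_lit 10736) (nat_lit 14) (nat_lit 10))
    (@En.i (nat_lit 10365) (nat_lit 2) (nat_lit 13))
    (@En.n l7 (nat_lit 10877) (nat_lit 15) (nat_lit 2))))
  (@Cl.mk (nat_lit 0x2000d000b000900030009000d0005000b00030007000c00070005000e0004) (nat_lit 0xa850680200100b0) (nat_lit 16) Lb.e (@T16.mk En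
    (@En.n l117 (nat_lit 10252) (nat_lit 9) (nat_lit 4))
    (@En.n l1501 (nat_lit 5631) (nat_lit 1) (nat_lit 14))
    (@En.n l29014 (nat_lit 7034) (nat_lit 2) (nat_lit 5))
    (@En.i (nat_lit 11586) (nat_lit 3) (nat_lit 7))
    (@En.i (nat_lit 9085) (nat_lit 9) (nat_lit 12))
    (@En.n l17957 (nat_lit 7428) (nat_lit 5) (nat_lit 7))
    (@En.n l6081 (nat_lit 10877) (nat_lit 6) (nat_lit 3))
    (@En.n l13786 (nat_lit 6958) (nat_lit 0) (nat_lit 11))
    (@En.n l29014 (nat_lit 5616) (nat_lit 8) (nat_lit 5))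
    (@En.i (nat_lit 8692) (nat_lit 10) (nat_lit 13))
    (@En.i (nat_lit 12039) (nat_lit 11) (nat_lit 9))
    (@En.n l7 (nat_lit 10876) (nat_lit 11) (nat_lit 3))
    (@En.n l10065 (nat_lit 12504) (nat_lit 0) (nat_lit 9))
    (@En.n l644 (nat_lit 7807) (nat_lit 14) (nat_lit 11))
    (@En.i (nat_lit 10362) (nat_lit 2) (nat_lit 13))
    (@En.n l11 (nat_lit 10878) (nat_lit 15) (nat_lit 2))))
  (@Cl.mk (nat_lit 0x20008000b00090008000d00090005000300080007000c00080007000e0004) (nat_lit 0x483557006023090) (nat_lit 16) Lb.e (@T16.mk En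
    (@En.n l32989 (nat_lit 9164) (nat_lit 8) (nat_lit 4))
    (@En.n l37732 (nat_lit 4192) (nat_lit 1) (nat_lit 14))
    (@En.i (nat_lit 5532) (nat_lit 2) (nat_lit 7))
    (@En.n l10453 (nat_lit 8179) (nat_lit 3) (nat_lit 8))
    (@En.n l830 (nat_lit 9961) (nat_lit 5) (nat_lit 12))
    (@En.n l217 (nat_lit 10877) (nat_lit 5) (nat_lit 7))
    (@En.n l4819 (nat_lit 10752) (nat_lit 6) (nat_lit 8))
    (@En.n l3536 (nat_lit 10880) (nat_lit 7) (nat_lit 3))
    (@En.n l25586 (nat_lit 7883) (nat_lit 0) (nat_lit 5))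
    (@En.n l68 (nat_lit 10882) (nat_lit 10) (nat_lit 9))
    (@En.n l3866 (nat_lit 7082) (nat_lit 11) (nat_lit 13))
    (@En.n l16509 (nat_lit 7888) (nat_lit 12) (nat_lit 8))
    (@En.n l9155 (nat_lit 11132) (nat_lit 13) (nat_lit 9))
    (@En.n l37732 (nat_lit 8729) (nat_lit 7) (nat_lit 11))
    (@En.n l16898 (nat_lit 10309) (nat_lit 6) (nat_lit 8))
    (@En.n l7 (nat_lit 10879) (nat_lit 15) (nat_lit 2))))
noncomputable def a680 : T16 Cl := @T16.mk Cl
  (@Cl.mk (nat_lit 0x20008000c00090008000d0004000a000300080007000c00080006000e0004) (nat_lit 0x455470206023090) (nat_lit 16) Lb.e (@T16.mk En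
    (@En.n l117 (nat_lit 9165) (nat_lit 8) (nat_lit 4))
    (@En.n l12271 (nat_lit 4194) (nat_lit 1) (nat_lit 14))
    (@En.n l3480 (nat_lit 7079) (nat_lit 2) (nat_lit 6))
    (@En.n l16307 (nat_lit 8180) (nat_lit 3) (nat_lit 8))
    (@En.n l810 (nat_lit 9960) (nat_lit 5) (nat_lit 12))
    (@En.n l77 (nat_lit 10878) (nat_lit 5) (nat_lit 7))
    (@En.n l9182 (nat_lit 8730) (nat_lit 6) (nat_lit 8))
    (@En.n l6081 (nat_lit 10879) (nat_lit 7) (nat_lit 3))
    (@En.i (nat_lit 7010) (nat_lit 0) (nat_lit 10))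
    (@En.n l13633 (nat_lit 10752) (nat_lit 9) (nat_lit 4))
    (@En.i (nat_lit 7083) (nat_lit 11) (nat_lit 13))
    (@En.n l42327 (nat_lit 12126) (nat_lit 12) (nat_lit 8))
    (@En.i (nat_lit 11133) (nat_lit 13) (nat_lit 9))
    (@En.n l4206 (nat_lit 8727) (nat_lit 14) (nat_lit 12))
    (@En.n l810 (nat_lit 10708) (nat_lit 6) (nat_lit 8))
    (@En.n l11 (nat_lit 10880) (nat_lit 15) (nat_lit 2))))
  (@Cl.mk (nat_lit 0x2000d000b000a0003000a000a0005000b0006000b000600060005000e0005) (nat_lit 0x826074080500020) (nat_lit 16) Lb.e (@T16.mk En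
    (@En.n l24723 (nat_lit 10930) (nat_lit 4) (nat_lit 5))
    (@En.n l5022 (nat_lit 3478) (nat_lit 1) (nat_lit 14))
    (@En.n l28928 (nat_lit 10878) (nat_lit 2) (nat_lit 5))
    (@En.n l55 (nat_lit 10931) (nat_lit 10) (nat_lit 6))
    (@En.n l7081 (nat_lit 10912) (nat_lit 4) (nat_lit 6))
    (@En.n l8631 (nat_lit 8492) (nat_lit 10) (nat_lit 11))
    (@En.n l41314 (nat_lit 10995) (nat_lit 6) (nat_lit 6))
    (@En.n l476 (nat_lit 5603) (nat_lit 8) (nat_lit 11))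
    (@En.i (nat_lit 9781) (nat_lit 8) (nat_lit 5))
    (@En.n l38586 (nat_lit 8051) (nat_lit 6) (nat_lit 10))
    (@En.n l8628 (nat_lit 11295) (nat_lit 11) (nat_lit 10))
    (@En.n l20805 (nat_lit 8053) (nat_lit 11) (nat_lit 3))
    (@En.n l4758 (nat_lit 10129) (nat_lit 0) (nat_lit 10))
    (@En.n l8631 (nat_lit 10990) (nat_lit 14) (nat_lit 11))
    (@En.n l39289 (nat_lit 10868) (nat_lit 2) (nat_lit 13))
    (@En.n l17 (nat_lit 10881) (nat_lit 15) (nat_lit 2))))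
  (@Cl.mk (nat_lit 0x20009000c000a000900090004000a00070006000b000700070006000e0005) (nat_lit 0x498460300600010) (nat_lit 16) Lb.e (@T16.mk En
    (@En.n l9966 (nat_lit 11744) (nat_lit 6) (nat_lit 5))
    (@En.n l134 (nat_lit 1346) (nat_lit 1) (nat_lit 14))
    (@En.n l3535 (nat_lit 10880) (nat_lit 2) (nat_lit 6))
    (@En.n l152 (nat_lit 7659) (nat_lit 9) (nat_lit 7))
    (@En.n l3895 (nat_lit 9324) (nat_lit 4) (nat_lit 7))
    (@En.n l16710 (nat_lit 9495) (nat_lit 6) (nat_lit 11))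
    (@En.n l16078 (nat_lit 10881) (nat_lit 6) (nat_lit 6))
    (@En.n l30604 (nat_lit 10753) (nat_lit 7) (nat_lit 7))
    (@En.n l16079 (nat_lit 6445) (nat_lit 9) (nat_lit 10))
    (@En.n l29226 (nat_lit 10755) (nat_lit 9) (nat_lit 4))
    (@En.n l3536 (nat_lit 11370) (nat_lit 7) (nat_lit 9))
    (@En.n l20447 (nat_lit 11728) (nat_lit 12) (nat_lit 9))
    (@En.n l15110 (nat_lit 10131) (nat_lit 13) (nat_lit 10))
    (@En.n l30605 (nat_lit 11365) (nat_lit 6) (nat_lit 12))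
    (@En.n l16710 (nat_lit 11609) (nat_lit 4) (nat_lit 9))
    (@En.n l7 (nat_lit 10882) (nat_lit 15) (nat_lit 2))))
  (@Cl.mk (nat_lit 0x30007000d0004000c00030008000c0004000d000900040003000d0008000c) (nat_lit 0x90905101300b69) (nat_lit 16) Lb.e (@T16.mk En
    (@En.n l2038 (nat_lit 8593) (nat_lit 0) (nat_lit 12))
    (@En.i (nat_lit 10811) (nat_lit 6) (nat_lit 8))
    (@En.n l3517 (nat_lit 11410) (nat_lit 2) (nat_lit 13))
    (@En.n l18 (nat_lit 10889) (nat_lit 3) (nat_lit 3))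
    (@En.n l17134 (nat_lit 10876) (nat_lit 0) (nat_lit 4))
    (@En.n l61 (nat_lit 10892) (nat_lit 5) (nat_lit 9))
    (@En.i (nat_lit 3981) (nat_lit 1) (nat_lit 13))
    (@En.i (nat_lit 10699) (nat_lit 7) (nat_lit 4))
    (@En.n l3517 (nat_lit 4335) (nat_lit 9) (nat_lit 12))
    (@En.i (nat_lit 8701) (nat_lit 5) (nat_lit 8))
    (@En.i (nat_lit 10884) (nat_lit 10) (nat_lit 3))
    (@En.i (nat_lit 11215) (nat_lit 0) (nat_lit 12))
    (@En.n l10969 (nat_lit 10887) (nat_lit 8) (nat_lit 4))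
    (@En.n l5801 (nat_lit 8700) (nat_lit 0) (nat_lit 13))
    (@En.i (nat_lit 7615) (nat_lit 3) (nat_lit 7))
    (@En.n l117 (nat_lit 10885) (nat_lit 4) (nat_lit 3))))
  (@Cl.mk (nat_lit 0x30007000d000b000500030008000c0005000d000900040003000d0008000b) (nat_lit 0xa8005302300761) (nat_lit 16) Lb.e (@T16.mk En
    (@En.n l2038 (nat_lit 8081) (nat_lit 0) (nat_lit 11))
    (@En.i (nat_lit 10809) (nat_lit 6) (nat_lit 8))
    (@En.n l3517 (nat_lit 11476) (nat_lit 2) (nat_lit 13))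
    (@En.n l18 (nat_lit 10888) (nat_lit 3) (nat_lit 3))
    (@En.n l8331 (nat_lit 10875) (nat_lit 0) (nat_lit 4))
    (@En.n l61 (nat_lit 10891) (nat_lit 5) (nat_lit 9))
    (@En.n l20647 (nat_lit 3984) (nat_lit 1) (nat_lit 13))
    (@En.n l8331 (nat_lit 10960) (nat_lit 7) (nat_lit 5))
    (@En.n l8331 (nat_lit 9194) (nat_lit 9) (nat_lit 12))
    (@En.i (nat_lit 10887) (nat_lit 5) (nat_lit 8))
    (@En.n l28 (nat_lit 10883) (nat_lit 10) (nat_lit 3))
    (@En.n l20647 (nat_lit 5183) (nat_lit 0) (nat_lit 5))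
    (@En.n l21974 (nat_lit 11106) (nat_lit 13) (nat_lit 11))
    (@En.n l5801 (nat_lit 8699) (nat_lit 2) (nat_lit 13))
    (@En.i (nat_lit 7614) (nat_lit 3) (nat_lit 7))
    (@En.n l117 (nat_lit 10886) (nat_lit 4) (nat_lit 3))))
  (@Cl.mk (nat_lit 0x30007000c0004000d000900040003000d000b000900030007000d0005000c) (nat_lit 0x608200a7700a09) (nat_lit 16) Lb.e (@T16.mk En
    (@En.n l1867 (nat_lit 11216) (nat_lit 0) (nat_lit 12))
    (@En.i (nat_lit 11924) (nat_lit 8) (nat_lit 5))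
    (@En.n l14469 (nat_lit 8696) (nat_lit 2) (nat_lit 13))
    (@En.i (nat_lit 11822) (nat_lit 3) (nat_lit 7))
    (@En.n l152 (nat_lit 10883) (nat_lit 15) (nat_lit 3))
    (@En.n l11605 (nat_lit 12238) (nat_lit 0) (nat_lit 9))
    (@En.n l97 (nat_lit 10472) (nat_lit 14) (nat_lit 11))
    (@En.n l6991 (nat_lit 11411) (nat_lit 2) (nat_lit 13))
    (@En.n l4296 (nat_lit 10901) (nat_lit 3) (nat_lit 3))
    (@En.n l23408 (nat_lit 10878) (nat_lit 0) (nat_lit 4))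
    (@En.n l4007 (nat_lit 10899) (nat_lit 5) (nat_lit 9))
    (@En.n l14514 (nat_lit 5629) (nat_lit 1) (nat_lit 13))
    (@En.i (nat_lit 10700) (nat_lit 7) (nat_lit 4))
    (@En.n l1770 (nat_lit 9140) (nat_lit 9) (nat_lit 12))
    (@En.n l1769 (nat_lit 9762) (nat_lit 12) (nat_lit 7))
    (@En.i (nat_lit 10886) (nat_lit 15) (nat_lit 3))))
  (@Cl.mk (nat_lit 0x30007000c0005000d000900040003000d000a000900030007000d000b0006) (nat_lit 0x60120073500a30) (nat_lit 16) Lb.e (@T16.mk En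
    (@En.n l5877 (nat_lit 11269) (nat_lit 0) (nat_lit 6))
    (@En.n l14388 (nat_lit 11102) (nat_lit 13) (nat_lit 11))
    (@En.n l14469 (nat_lit 8697) (nat_lit 2) (nat_lit 13))
    (@En.i (nat_lit 12433) (nat_lit 3) (nat_lit 7))
    (@En.n l152 (nat_lit 10884) (nat_lit 15) (nat_lit 3))
    (@En.n l14470 (nat_lit 12243) (nat_lit 0) (nat_lit 9))
    (@En.n l14471 (nat_lit 10470) (nat_lit 14) (nat_lit 10))
    (@En.n l14472 (nat_lit 11466) (nat_lit 2) (nat_lit 13))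
    (@En.n l14473 (nat_lit 10900) (nat_lit 3) (nat_lit 3))
    (@En.n l14474 (nat_lit 10877) (nat_lit 0) (nat_lit 4))
    (@En.n l14475 (nat_lit 10898) (nat_lit 5) (nat_lit 9))
    (@En.n l5875 (nat_lit 5632) (nat_lit 1) (nat_lit 13))
    (@En.n l14384 (nat_lit 12022) (nat_lit 7) (nat_lit 5))
    (@En.n l14474 (nat_lit 9150) (nat_lit 9) (nat_lit 12))
    (@En.n l8249 (nat_lit 11023) (nat_lit 12) (nat_lit 7))
    (@En.n l28 (nat_lit 10885) (nat_lit 15) (nat_lit 3))))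
  (@Cl.mk (nat_lit 0x3000c0008000c000b000400080004000c00050008000c0004000d00080004) (nat_lit 0xa6a201090420630) (nat_lit 16) Lb.e (@T16.mk En
    (@En.n l41385 (nat_lit 10874) (nat_lit 0) (nat_lit 4))
    (@En.n l61 (nat_lit 10893) (nat_lit 0) (nat_lit 8))
    (@En.n l33632 (nat_lit 5429) (nat_lit 1) (nat_lit 13))
    (@En.n l41386 (nat_lit 10959) (nat_lit 3) (nat_lit 4))
    (@En.n l8047 (nat_lit 9195) (nat_lit 0) (nat_lit 12))
    (@En.n l41385 (nat_lit 8709) (nat_lit 10) (nat_lit 8))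
    (@En.i (nat_lit 5181) (nat_lit 6) (nat_lit 5))
    (@En.n l8052 (nat_lit 11108) (nat_lit 8) (nat_lit 12))
    (@En.n l10862 (nat_lit 10472) (nat_lit 8) (nat_lit 4))
    (@En.i (nat_lit 7613) (nat_lit 11) (nat_lit 8))
    (@En.n l41387 (nat_lit 11023) (nat_lit 1) (nat_lit 4))
    (@En.n l22188 (nat_lit 10884) (nat_lit 0) (nat_lit 11))
    (@En.i (nat_lit 10166) (nat_lit 1) (nat_lit 12))
    (@En.i (nat_lit 10804) (nat_lit 14) (nat_lit 8))
    (@En.n l8047 (nat_lit 11479) (nat_lit 11) (nat_lit 12))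
    (@En.n l18 (nat_lit 10890) (nat_lit 13) (nat_lit 3))))
  (@Cl.mk (nat_lit 0x30006000d000b000500030008000d0005000d0003000a0003000d0008000b) (nat_lit 0xa9005102010b51) (nat_lit 16) Lb.e (@T16.mk En
    (@En.n l2038 (nat_lit 8079) (nat_lit 0) (nat_lit 11))
    (@En.n l1236 (nat_lit 10807) (nat_lit 6) (nat_lit 8))
    (@En.i (nat_lit 10891) (nat_lit 2) (nat_lit 13))
    (@En.i (nat_lit 10884) (nat_lit 3) (nat_lit 3))
    (@En.i (nat_lit 5390) (nat_lit 0) (nat_lit 10))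
    (@En.i (nat_lit 10257) (nat_lit 5) (nat_lit 3))
    (@En.n l4108 (nat_lit 5428) (nat_lit 0) (nat_lit 13))
    (@En.n l28 (nat_lit 10410) (nat_lit 7) (nat_lit 5))
    (@En.n l476 (nat_lit 4323) (nat_lit 9) (nat_lit 13))
    (@En.i (nat_lit 10890) (nat_lit 3) (nat_lit 8))
    (@En.n l28 (nat_lit 10889) (nat_lit 10) (nat_lit 3))
    (@En.n l4108 (nat_lit 5182) (nat_lit 0) (nat_lit 5))
    (@En.i (nat_lit 11104) (nat_lit 13) (nat_lit 11))
    (@En.n l2125 (nat_lit 9089) (nat_lit 8) (nat_lit 13))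
    (@En.i (nat_lit 8091) (nat_lit 12) (nat_lit 6))
    (@En.n l14488 (nat_lit 10900) (nat_lit 15) (nat_lit 3))))
  (@Cl.mk (nat_lit 0x30006000d0004000c00030008000d0004000d0003000a0003000d0008000c) (nat_lit 0x90a05102020b68) (nat_lit 16) Lb.e (@T16.mk En
    (@En.n l2038 (nat_lit 8592) (nat_lit 0) (nat_lit 12))
    (@En.i (nat_lit 10810) (nat_lit 6) (nat_lit 8))
    (@En.i (nat_lit 10892) (nat_lit 2) (nat_lit 13))
    (@En.i (nat_lit 10883) (nat_lit 3) (nat_lit 3))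
    (@En.i (nat_lit 5398) (nat_lit 0) (nat_lit 10))
    (@En.i (nat_lit 10256) (nat_lit 5) (nat_lit 3))
    (@En.i (nat_lit 3985) (nat_lit 0) (nat_lit 13))
    (@En.i (nat_lit 10696) (nat_lit 7) (nat_lit 4))
    (@En.n l476 (nat_lit 4325) (nat_lit 9) (nat_lit 13))
    (@En.i (nat_lit 8154) (nat_lit 3) (nat_lit 8))
    (@En.i (nat_lit 10888) (nat_lit 10) (nat_lit 3))
    (@En.i (nat_lit 11212) (nat_lit 0) (nat_lit 12))
    (@En.n l10969 (nat_lit 10890) (nat_lit 6) (nat_lit 4))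
    (@En.n l2125 (nat_lit 9090) (nat_lit 8) (nat_lit 13))
    (@En.i (nat_lit 8089) (nat_lit 12) (nat_lit 6))
    (@En.i (nat_lit 10901) (nat_lit 15) (nat_lit 3))))
  (@Cl.mk (nat_lit 0x300090003000c0008000c000b000400070004000c00050008000d0004000d) (nat_lit 0x20a6a2000a04506) (nat_lit 16) Lb.e (@T16.mk En
    (@En.i (nat_lit 5430) (nat_lit 0) (nat_lit 13))
    (@En.n l9530 (nat_lit 10958) (nat_lit 3) (nat_lit 4))
    (@En.n l1836 (nat_lit 9178) (nat_lit 0) (nat_lit 13))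
    (@En.n l9530 (nat_lit 8157) (nat_lit 10) (nat_lit 8))
    (@En.i (nat_lit 5177) (nat_lit 4) (nat_lit 5))
    (@En.n l11010 (nat_lit 11107) (nat_lit 8) (nat_lit 12))
    (@En.n l10862 (nat_lit 10471) (nat_lit 6) (nat_lit 4))
    (@En.i (nat_lit 8090) (nat_lit 11) (nat_lit 7))
    (@En.n l14488 (nat_lit 11022) (nat_lit 8) (nat_lit 4))
    (@En.n l22188 (nat_lit 10888) (nat_lit 0) (nat_lit 11))
    (@En.i (nat_lit 10164) (nat_lit 1) (nat_lit 12))
    (@En.n l1236 (nat_lit 10805) (nat_lit 14) (nat_lit 8))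
    (@En.i (nat_lit 10893) (nat_lit 13) (nat_lit 12))
    (@En.i (nat_lit 10887) (nat_lit 15) (nat_lit 3))
    (@En.i (nat_lit 5389) (nat_lit 0) (nat_lit 9))
    (@En.i (nat_lit 10897) (nat_lit 15) (nat_lit 3))))
  (@Cl.mk (nat_lit 0x300070006000d000b000600030009000d000500090003000a000d0007000a) (nat_lit 0xa900510201a01) (nat_lit 16) Lb.e (@T16.mk En
    (@En.n l2038 (nat_lit 8080) (nat_lit 0) (nat_lit 10))
    (@En.n l32437 (nat_lit 6852) (nat_lit 7) (nat_lit 7))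
    (@En.n l20836 (nat_lit 11456) (nat_lit 5) (nat_lit 13))
    (@En.n l9441 (nat_lit 5391) (nat_lit 3) (nat_lit 10))
    (@En.n l3695 (nat_lit 10894) (nat_lit 4) (nat_lit 3))
    (@En.n l17678 (nat_lit 11004) (nat_lit 0) (nat_lit 9))
    (@En.n l9447 (nat_lit 10407) (nat_lit 6) (nat_lit 5))
    (@En.n l476 (nat_lit 4324) (nat_lit 8) (nat_lit 13))
    (@En.i (nat_lit 10893) (nat_lit 3) (nat_lit 9))
    (@En.n l28 (nat_lit 10892) (nat_lit 9) (nat_lit 3))
    (@En.n l4108 (nat_lit 5185) (nat_lit 0) (nat_lit 6))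
    (@En.i (nat_lit 11105) (nat_lit 12) (nat_lit 11))
    (@En.n l2125 (nat_lit 10819) (nat_lit 8) (nat_lit 13))
    (@En.n l17 (nat_lit 10888) (nat_lit 14) (nat_lit 6))
    (@En.i (nat_lit 9962) (nat_lit 12) (nat_lit 7))
    (@En.n l14488 (nat_lit 10898) (nat_lit 15) (nat_lit 3))))
  (@Cl.mk (nat_lit 0x300070006000d0005000c00030009000d000400090003000a000d0007000b) (nat_lit 0x90a0530201a03) (nat_lit 16) Lb.e (@T16.mk En
    (@En.n l2038 (nat_lit 8596) (nat_lit 0) (nat_lit 11))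
    (@En.n l33654 (nat_lit 6854) (nat_lit 7) (nat_lit 7))
    (@En.n l1110 (nat_lit 11461) (nat_lit 5) (nat_lit 13))
    (@En.i (nat_lit 5395) (nat_lit 3) (nat_lit 10))
    (@En.i (nat_lit 10895) (nat_lit 4) (nat_lit 3))
    (@En.i (nat_lit 11006) (nat_lit 0) (nat_lit 9))
    (@En.i (nat_lit 10694) (nat_lit 6) (nat_lit 4))
    (@En.n l476 (nat_lit 4331) (nat_lit 0) (nat_lit 13))
    (@En.i (nat_lit 8150) (nat_lit 1) (nat_lit 9))
    (@En.i (nat_lit 10891) (nat_lit 9) (nat_lit 3))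
    (@En.n l12731 (nat_lit 11211) (nat_lit 0) (nat_lit 12))
    (@En.n l10969 (nat_lit 10893) (nat_lit 6) (nat_lit 5))
    (@En.n l2125 (nat_lit 10821) (nat_lit 8) (nat_lit 13))
    (@En.n l17 (nat_lit 10889) (nat_lit 14) (nat_lit 6))
    (@En.i (nat_lit 9960) (nat_lit 4) (nat_lit 7))
    (@En.i (nat_lit 10899) (nat_lit 15) (nat_lit 3))))
  (@Cl.mk (nat_lit 0x30009000c0007000b000a0004000800070005000c00060009000d00040008) (nat_lit 0x190920300a04302) (nat_lit 16) Lb.e (@T16.mk En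
    (@En.i (nat_lit 11002) (nat_lit 0) (nat_lit 8))
    (@En.n l9530 (nat_lit 10411) (nat_lit 15) (nat_lit 4))
    (@En.n l1836 (nat_lit 10138) (nat_lit 0) (nat_lit 13))
    (@En.n l9530 (nat_lit 8155) (nat_lit 9) (nat_lit 9))
    (@En.i (nat_lit 1310) (nat_lit 4) (nat_lit 6))
    (@En.n l11010 (nat_lit 11109) (nat_lit 12) (nat_lit 12))
    (@En.n l345 (nat_lit 12442) (nat_lit 6) (nat_lit 5))
    (@En.n l17 (nat_lit 10890) (nat_lit 7) (nat_lit 7))
    (@En.i (nat_lit 10300) (nat_lit 11) (nat_lit 8))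
    (@En.n l14488 (nat_lit 11939) (nat_lit 9) (nat_lit 4))
    (@En.n l22188 (nat_lit 10891) (nat_lit 0) (nat_lit 10))
    (@En.i (nat_lit 10169) (nat_lit 1) (nat_lit 11))
    (@En.n l17680 (nat_lit 6853) (nat_lit 13) (nat_lit 7))
    (@En.n l10398 (nat_lit 11458) (nat_lit 6) (nat_lit 12))
    (@En.i (nat_lit 5388) (nat_lit 4) (nat_lit 9))
    (@En.i (nat_lit 10896) (nat_lit 15) (nat_lit 3))))
  (@Cl.mk (nat_lit 0x300080006000d000a000600030009000d000800060003000a000d0007000a) (nat_lit 0x506600542002a01) (nat_lit 16) Lb.e (@T16.mk En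
    (@En.n l23625 (nat_lit 8087) (nat_lit 0) (nat_lit 10))
    (@En.n l8962 (nat_lit 6855) (nat_lit 7) (nat_lit 7))
    (@En.i (nat_lit 11457) (nat_lit 5) (nat_lit 13))
    (@En.n l23626 (nat_lit 8464) (nat_lit 3) (nat_lit 10))
    (@En.n l6719 (nat_lit 10891) (nat_lit 4) (nat_lit 3))
    (@En.i (nat_lit 10970) (nat_lit 0) (nat_lit 6))
    (@En.n l6723 (nat_lit 10953) (nat_lit 6) (nat_lit 8))
    (@En.i (nat_lit 10146) (nat_lit 8) (nat_lit 13))
    (@En.n l6723 (nat_lit 10896) (nat_lit 3) (nat_lit 9))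
    (@En.n l23627 (nat_lit 10895) (nat_lit 9) (nat_lit 3))
    (@En.n l9491 (nat_lit 1309) (nat_lit 0) (nat_lit 6))
    (@En.n l217 (nat_lit 11097) (nat_lit 12) (nat_lit 10))
    (@En.n l23628 (nat_lit 10825) (nat_lit 8) (nat_lit 13))
    (@En.n l23629 (nat_lit 10257) (nat_lit 14) (nat_lit 6))
    (@En.n l6723 (nat_lit 10306) (nat_lit 4) (nat_lit 8))
    (@En.n l117 (nat_lit 12026) (nat_lit 15) (nat_lit 3))))
  (@Cl.mk (nat_lit 0x300080006000d0005000b00030009000d000800050003000a000d0007000b) (nat_lit 0x506070625003a07) (nat_lit 16) Lb.e (@T16.mk En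
    (@En.n l2038 (nat_lit 8332) (nat_lit 0) (nat_lit 11))
    (@En.n l17664 (nat_lit 10721) (nat_lit 7) (nat_lit 7))
    (@En.n l3695 (nat_lit 11460) (nat_lit 5) (nat_lit 13))
    (@En.n l7145 (nat_lit 8456) (nat_lit 3) (nat_lit 10))
    (@En.n l50 (nat_lit 10892) (nat_lit 4) (nat_lit 3))
    (@En.n l3695 (nat_lit 11169) (nat_lit 0) (nat_lit 5))
    (@En.i (nat_lit 10955) (nat_lit 6) (nat_lit 8))
    (@En.n l29707 (nat_lit 4334) (nat_lit 8) (nat_lit 13))
    (@En.i (nat_lit 8148) (nat_lit 3) (nat_lit 9))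
    (@En.n l3695 (nat_lit 10894) (nat_lit 9) (nat_lit 3))
    (@En.i (nat_lit 10853) (nat_lit 0) (nat_lit 11))
    (@En.n l10969 (nat_lit 10896) (nat_lit 6) (nat_lit 5))
    (@En.n l39094 (nat_lit 10824) (nat_lit 8) (nat_lit 13))
    (@En.n l17 (nat_lit 10256) (nat_lit 14) (nat_lit 6))
    (@En.i (nat_lit 10307) (nat_lit 4) (nat_lit 8))
    (@En.i (nat_lit 12027) (nat_lit 15) (nat_lit 3))))
noncomputable def a681 : T16 Cl := @T16.mk Cl
  (@Cl.mk (nat_lit 0x30009000c0007000b000a0004000900070005000b00060009000d00070005) (nat_lit 0x390920600804300) (nat_lit 16) Lb.e (@T16.mk En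
    (@En.n l39090 (nat_lit 10969) (nat_lit 0) (nat_lit 5))
    (@En.i (nat_lit 10954) (nat_lit 0) (nat_lit 7))
    (@En.n l39090 (nat_lit 10139) (nat_lit 6) (nat_lit 13))
    (@En.n l39091 (nat_lit 8151) (nat_lit 9) (nat_lit 9))
    (@En.n l31063 (nat_lit 1306) (nat_lit 4) (nat_lit 6))
    (@En.n l33039 (nat_lit 11094) (nat_lit 6) (nat_lit 11))
    (@En.n l39092 (nat_lit 10637) (nat_lit 6) (nat_lit 5))
    (@En.n l17 (nat_lit 10897) (nat_lit 7) (nat_lit 7))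
    (@En.i (nat_lit 10305) (nat_lit 11) (nat_lit 9))
    (@En.n l31063 (nat_lit 11938) (nat_lit 9) (nat_lit 4))
    (@En.n l39093 (nat_lit 10894) (nat_lit 0) (nat_lit 10))
    (@En.i (nat_lit 10171) (nat_lit 1) (nat_lit 11))
    (@En.n l38190 (nat_lit 10720) (nat_lit 13) (nat_lit 7))
    (@En.n l33039 (nat_lit 11459) (nat_lit 6) (nat_lit 12))
    (@En.n l35735 (nat_lit 8830) (nat_lit 4) (nat_lit 9))
    (@En.n l50 (nat_lit 10893) (nat_lit 15) (nat_lit 3))))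
  (@Cl.mk (nat_lit 0x300090004000c0008000c000b000400070004000b00050008000d000c0005) (nat_lit 0x30a5a2000804530) (nat_lit 16) Lb.e (@T16.mk En
    (@En.n l9530 (nat_lit 10968) (nat_lit 0) (nat_lit 5))
    (@En.n l217 (nat_lit 10887) (nat_lit 4) (nat_lit 12))
    (@En.n l1836 (nat_lit 9177) (nat_lit 2) (nat_lit 13))
    (@En.n l9530 (nat_lit 8156) (nat_lit 10) (nat_lit 8))
    (@En.i (nat_lit 1308) (nat_lit 4) (nat_lit 5))
    (@En.n l11010 (nat_lit 11095) (nat_lit 13) (nat_lit 11))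
    (@En.n l10862 (nat_lit 10473) (nat_lit 6) (nat_lit 4))
    (@En.i (nat_lit 8093) (nat_lit 11) (nat_lit 7))
    (@En.n l14488 (nat_lit 11024) (nat_lit 8) (nat_lit 4))
    (@En.n l22188 (nat_lit 10257) (nat_lit 0) (nat_lit 11))
    (@En.i (nat_lit 10165) (nat_lit 1) (nat_lit 12))
    (@En.n l31062 (nat_lit 10806) (nat_lit 12) (nat_lit 8))
    (@En.i (nat_lit 10896) (nat_lit 13) (nat_lit 12))
    (@En.n l23768 (nat_lit 8715) (nat_lit 14) (nat_lit 4))
    (@En.n l13266 (nat_lit 8465) (nat_lit 0) (nat_lit 9))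
    (@En.n l50 (nat_lit 10890) (nat_lit 15) (nat_lit 3))))
  (@Cl.mk (nat_lit 0x300070006000d000b000700030008000d000500090003000a000d00090008) (nat_lit 0xa500240101a34) (nat_lit 16) Lb.e (@T16.mk En
    (@En.n l7059 (nat_lit 12241) (nat_lit 0) (nat_lit 8))
    (@En.n l11132 (nat_lit 10923) (nat_lit 13) (nat_lit 9))
    (@En.n l7059 (nat_lit 11465) (nat_lit 5) (nat_lit 13))
    (@En.n l28526 (nat_lit 5396) (nat_lit 3) (nat_lit 10))
    (@En.n l28527 (nat_lit 12026) (nat_lit 4) (nat_lit 3))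
    (@En.n l7059 (nat_lit 9034) (nat_lit 0) (nat_lit 9))
    (@En.n l7662 (nat_lit 12024) (nat_lit 6) (nat_lit 5))
    (@En.n l28450 (nat_lit 8856) (nat_lit 8) (nat_lit 13))
    (@En.i (nat_lit 11939) (nat_lit 3) (nat_lit 8))
    (@En.n l28451 (nat_lit 10899) (nat_lit 9) (nat_lit 3))
    (@En.n l4259 (nat_lit 11273) (nat_lit 0) (nat_lit 7))
    (@En.n l28452 (nat_lit 11103) (nat_lit 12) (nat_lit 11))
    (@En.n l7064 (nat_lit 10714) (nat_lit 8) (nat_lit 13))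
    (@En.n l403 (nat_lit 10900) (nat_lit 14) (nat_lit 6))
    (@En.n l28528 (nat_lit 11818) (nat_lit 4) (nat_lit 7))
    (@En.n l9877 (nat_lit 10891) (nat_lit 15) (nat_lit 3))))
  (@Cl.mk (nat_lit 0x300070006000d0006000c00030008000d000400090003000a000d000a0008) (nat_lit 0x90a0630101a76) (nat_lit 16) Lb.e (@T16.mk En
    (@En.n l5367 (nat_lit 12236) (nat_lit 0) (nat_lit 8))
    (@En.n l30164 (nat_lit 11845) (nat_lit 13) (nat_lit 10))
    (@En.n l10326 (nat_lit 11462) (nat_lit 5) (nat_lit 13))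
    (@En.n l1106 (nat_lit 5967) (nat_lit 3) (nat_lit 10))
    (@En.i (nat_lit 12027) (nat_lit 4) (nat_lit 3))
    (@En.n l32937 (nat_lit 9038) (nat_lit 0) (nat_lit 9))
    (@En.n l9956 (nat_lit 10695) (nat_lit 6) (nat_lit 4))
    (@En.n l7705 (nat_lit 10151) (nat_lit 0) (nat_lit 13))
    (@En.n l1992 (nat_lit 9765) (nat_lit 1) (nat_lit 8))
    (@En.n l14488 (nat_lit 10898) (nat_lit 9) (nat_lit 3))
    (@En.n l1865 (nat_lit 11213) (nat_lit 0) (nat_lit 12))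
    (@En.n l39171 (nat_lit 11925) (nat_lit 6) (nat_lit 6))
    (@En.n l39172 (nat_lit 10718) (nat_lit 8) (nat_lit 13))
    (@En.n l17 (nat_lit 10901) (nat_lit 14) (nat_lit 6))
    (@En.i (nat_lit 11817) (nat_lit 4) (nat_lit 7))
    (@En.n l107 (nat_lit 10892) (nat_lit 15) (nat_lit 3))))
  (@Cl.mk (nat_lit 0x30006000d000b000600030007000d0005000d0003000a0003000d000a0009) (nat_lit 0x43000102070b75) (nat_lit 16) Lb.e (@T16.mk En
    (@En.i (nat_lit 12240) (nat_lit 0) (nat_lit 9))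
    (@En.n l61 (nat_lit 10469) (nat_lit 14) (nat_lit 10))
    (@En.i (nat_lit 10898) (nat_lit 2) (nat_lit 13))
    (@En.n l7578 (nat_lit 10886) (nat_lit 8) (nat_lit 3))
    (@En.n l7062 (nat_lit 5972) (nat_lit 0) (nat_lit 10))
    (@En.i (nat_lit 12025) (nat_lit 5) (nat_lit 3))
    (@En.n l28449 (nat_lit 5634) (nat_lit 0) (nat_lit 13))
    (@En.n l22119 (nat_lit 12023) (nat_lit 7) (nat_lit 5))
    (@En.n l28450 (nat_lit 4326) (nat_lit 9) (nat_lit 13))
    (@En.i (nat_lit 11022) (nat_lit 3) (nat_lit 7))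
    (@En.n l28451 (nat_lit 10901) (nat_lit 10) (nat_lit 3))
    (@En.n l4259 (nat_lit 11271) (nat_lit 0) (nat_lit 6))
    (@En.n l28452 (nat_lit 11101) (nat_lit 13) (nat_lit 11))
    (@En.n l7064 (nat_lit 9093) (nat_lit 8) (nat_lit 13))
    (@En.n l17523 (nat_lit 12714) (nat_lit 12) (nat_lit 6))
    (@En.n l9877 (nat_lit 10888) (nat_lit 15) (nat_lit 3))))
  (@Cl.mk (nat_lit 0x30006000d0005000c00030007000d0004000d0003000a0003000d000b0009) (nat_lit 0xa0a00107070b75) (nat_lit 16) Lb.e (@T16.mk En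
    (@En.n l5367 (nat_lit 12237) (nat_lit 0) (nat_lit 9))
    (@En.i (nat_lit 10471) (nat_lit 12) (nat_lit 11))
    (@En.i (nat_lit 10899) (nat_lit 2) (nat_lit 13))
    (@En.n l117 (nat_lit 10885) (nat_lit 8) (nat_lit 3))
    (@En.n l1106 (nat_lit 5966) (nat_lit 0) (nat_lit 10))
    (@En.i (nat_lit 12028) (nat_lit 5) (nat_lit 3))
    (@En.n l1865 (nat_lit 5630) (nat_lit 0) (nat_lit 13))
    (@En.n l9956 (nat_lit 10697) (nat_lit 7) (nat_lit 4))
    (@En.n l7705 (nat_lit 4330) (nat_lit 9) (nat_lit 13))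
    (@En.n l1992 (nat_lit 9760) (nat_lit 12) (nat_lit 7))
    (@En.n l14488 (nat_lit 10900) (nat_lit 10) (nat_lit 3))
    (@En.n l1865 (nat_lit 11214) (nat_lit 0) (nat_lit 12))
    (@En.n l22670 (nat_lit 11920) (nat_lit 6) (nat_lit 5))
    (@En.n l2125 (nat_lit 8547) (nat_lit 8) (nat_lit 13))
    (@En.i (nat_lit 12671) (nat_lit 12) (nat_lit 6))
    (@En.n l107 (nat_lit 10889) (nat_lit 15) (nat_lit 3))))
  (@Cl.mk (nat_lit 0x2000c0009000600090004000c0008000c0007000400070004000a000e0008) (nat_lit 0xa70101680000131) (nat_lit 16) Lb.e (@T16.mk En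
    (@En.i (nat_lit 70) (nat_lit 5) (nat_lit 8))
    (@En.i (nat_lit 6819) (nat_lit 1) (nat_lit 14))
    (@En.n l23473 (nat_lit 4539) (nat_lit 2) (nat_lit 10))
    (@En.n l3865 (nat_lit 10907) (nat_lit 3) (nat_lit 4))
    (@En.n l1685 (nat_lit 3403) (nat_lit 11) (nat_lit 7))
    (@En.n l28 (nat_lit 11437) (nat_lit 5) (nat_lit 4))
    (@En.n l478 (nat_lit 5212) (nat_lit 6) (nat_lit 7))
    (@En.i (nat_lit 6994) (nat_lit 8) (nat_lit 12))
    (@En.n l10134 (nat_lit 4310) (nat_lit 9) (nat_lit 8))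
    (@En.n l5011 (nat_lit 4540) (nat_lit 10) (nat_lit 12))
    (@En.n l152 (nat_lit 10903) (nat_lit 10) (nat_lit 4))
    (@En.n l27012 (nat_lit 3413) (nat_lit 12) (nat_lit 9))
    (@En.n l1792 (nat_lit 11618) (nat_lit 13) (nat_lit 6))
    (@En.n l14504 (nat_lit 5234) (nat_lit 14) (nat_lit 9))
    (@En.n l1236 (nat_lit 10564) (nat_lit 3) (nat_lit 12))
    (@En.n l17 (nat_lit 10902) (nat_lit 15) (nat_lit 2))))
  (@Cl.mk (nat_lit 0x2000c0007000a00070004000c0008000c00060004000900040009000e0008) (nat_lit 0x703007320070635) (nat_lit 16) Lb.e (@T16.mk En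
    (@En.n l11424 (nat_lit 10904) (nat_lit 13) (nat_lit 8))
    (@En.n l3 (nat_lit 6343) (nat_lit 1) (nat_lit 14))
    (@En.n l21345 (nat_lit 11393) (nat_lit 2) (nat_lit 9))
    (@En.n l11322 (nat_lit 10911) (nat_lit 3) (nat_lit 4))
    (@En.n l343 (nat_lit 10905) (nat_lit 4) (nat_lit 9))
    (@En.n l28 (nat_lit 11434) (nat_lit 5) (nat_lit 4))
    (@En.n l11321 (nat_lit 11510) (nat_lit 6) (nat_lit 6))
    (@En.i (nat_lit 4574) (nat_lit 8) (nat_lit 12))
    (@En.n l3213 (nat_lit 10951) (nat_lit 9) (nat_lit 8))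
    (@En.n l36227 (nat_lit 8015) (nat_lit 10) (nat_lit 12))
    (@En.i (nat_lit 11604) (nat_lit 10) (nat_lit 4))
    (@En.n l11323 (nat_lit 11619) (nat_lit 12) (nat_lit 7))
    (@En.n l11321 (nat_lit 7666) (nat_lit 8) (nat_lit 10))
    (@En.n l5236 (nat_lit 4540) (nat_lit 14) (nat_lit 7))
    (@En.n l36228 (nat_lit 12050) (nat_lit 3) (nat_lit 12))
    (@En.n l17 (nat_lit 10903) (nat_lit 15) (nat_lit 2))))
  (@Cl.mk (nat_lit 0x4000a00080008000c0006000900060004000b00080008000c00070005000a) (nat_lit 0x744606009343005) (nat_lit 16) Lb.e (@T16.mk En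
    (@En.n l42884 (nat_lit 10906) (nat_lit 0) (nat_lit 10))
    (@En.n l23190 (nat_lit 10702) (nat_lit 1) (nat_lit 5))
    (@En.n l42885 (nat_lit 9329) (nat_lit 0) (nat_lit 7))
    (@En.i (nat_lit 10917) (nat_lit 7) (nat_lit 12))
    (@En.n l13633 (nat_lit 10903) (nat_lit 8) (nat_lit 8))
    (@En.n l42886 (nat_lit 10952) (nat_lit 14) (nat_lit 8))
    (@En.n l21631 (nat_lit 8008) (nat_lit 7) (nat_lit 11))
    (@En.n l27311 (nat_lit 11605) (nat_lit 12) (nat_lit 4))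
    (@En.n l16914 (nat_lit 11442) (nat_lit 0) (nat_lit 6))
    (@En.n l24921 (nat_lit 11701) (nat_lit 9) (nat_lit 9))
    (@En.n l42887 (nat_lit 4536) (nat_lit 1) (nat_lit 6))
    (@En.n l42888 (nat_lit 11867) (nat_lit 7) (nat_lit 12))
    (@En.n l42889 (nat_lit 10907) (nat_lit 8) (nat_lit 8))
    (@En.n l42890 (nat_lit 11109) (nat_lit 14) (nat_lit 8))
    (@En.n l42888 (nat_lit 11400) (nat_lit 11) (nat_lit 10))
    (@En.n l42891 (nat_lit 73) (nat_lit 7) (nat_lit 4))))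
  (@Cl.mk (nat_lit 0x2000b0007000c000a0008000500040009000d0006000900030008000e0007) (nat_lit 0x405410025060520) (nat_lit 16) Lb.e (@T16.mk En
    (@En.n l41165 (nat_lit 10906) (nat_lit 13) (nat_lit 7))
    (@En.n l3 (nat_lit 6342) (nat_lit 1) (nat_lit 14))
    (@En.n l41166 (nat_lit 11394) (nat_lit 2) (nat_lit 8))
    (@En.n l34139 (nat_lit 10910) (nat_lit 3) (nat_lit 3))
    (@En.n l919 (nat_lit 9210) (nat_lit 0) (nat_lit 9))
    (@En.n l41167 (nat_lit 11509) (nat_lit 5) (nat_lit 6))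
    (@En.i (nat_lit 4576) (nat_lit 7) (nat_lit 13))
    (@En.n l5042 (nat_lit 10946) (nat_lit 3) (nat_lit 9))
    (@En.n l24436 (nat_lit 11423) (nat_lit 8) (nat_lit 4))
    (@En.i (nat_lit 10978) (nat_lit 9) (nat_lit 5))
    (@En.n l41168 (nat_lit 4706) (nat_lit 11) (nat_lit 8))
    (@En.n l55 (nat_lit 10903) (nat_lit 12) (nat_lit 10))
    (@En.n l24438 (nat_lit 12802) (nat_lit 13) (nat_lit 12))
    (@En.n l5042 (nat_lit 4544) (nat_lit 14) (nat_lit 7))
    (@En.n l24577 (nat_lit 12051) (nat_lit 11) (nat_lit 11))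
    (@En.n l17 (nat_lit 10905) (nat_lit 15) (nat_lit 2))))
  (@Cl.mk (nat_lit 0x3000900070007000b0006000c000900070005000400090009000d0007000a) (nat_lit 0x600301700033604) (nat_lit 16) Lb.e (@T16.mk En
    (@En.n l2038 (nat_lit 9209) (nat_lit 8) (nat_lit 10))
    (@En.n l36214 (nat_lit 9330) (nat_lit 12) (nat_lit 7))
    (@En.n l16427 (nat_lit 10916) (nat_lit 6) (nat_lit 13))
    (@En.n l41522 (nat_lit 10905) (nat_lit 7) (nat_lit 9))
    (@En.n l41523 (nat_lit 10944) (nat_lit 4) (nat_lit 9))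
    (@En.i (nat_lit 10955) (nat_lit 5) (nat_lit 4))
    (@En.n l41524 (nat_lit 12210) (nat_lit 0) (nat_lit 5))
    (@En.n l41525 (nat_lit 4525) (nat_lit 1) (nat_lit 7))
    (@En.n l33039 (nat_lit 10904) (nat_lit 9) (nat_lit 9))
    (@En.n l41526 (nat_lit 5593) (nat_lit 10) (nat_lit 12))
    (@En.n l41527 (nat_lit 4538) (nat_lit 4) (nat_lit 6))
    (@En.n l41528 (nat_lit 12055) (nat_lit 12) (nat_lit 11))
    (@En.n l41529 (nat_lit 10908) (nat_lit 9) (nat_lit 7))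
    (@En.i (nat_lit 11105) (nat_lit 14) (nat_lit 7))
    (@En.n l41530 (nat_lit 11398) (nat_lit 12) (nat_lit 9))
    (@En.n l41531 (nat_lit 10909) (nat_lit 15) (nat_lit 3))))
  (@Cl.mk (nat_lit 0x2000c00080006000b0004000b0008000c0005000800050004000a000e0008) (nat_lit 0x860305350500814) (nat_lit 16) Lb.e (@T16.mk En
    (@En.n l9970 (nat_lit 10904) (nat_lit 5) (nat_lit 8))
    (@En.n l16956 (nat_lit 2885) (nat_lit 1) (nat_lit 14))
    (@En.n l32167 (nat_lit 8006) (nat_lit 2) (nat_lit 10))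
    (@En.n l8230 (nat_lit 11598) (nat_lit 3) (nat_lit 4))
    (@En.i (nat_lit 11438) (nat_lit 4) (nat_lit 5))
    (@En.n l17741 (nat_lit 8108) (nat_lit 10) (nat_lit 8))
    (@En.n l32168 (nat_lit 4539) (nat_lit 6) (nat_lit 5))
    (@En.i (nat_lit 7381) (nat_lit 8) (nat_lit 12))
    (@En.n l61 (nat_lit 11108) (nat_lit 9) (nat_lit 8))
    (@En.n l32169 (nat_lit 11494) (nat_lit 10) (nat_lit 11))
    (@En.n l8242 (nat_lit 10911) (nat_lit 10) (nat_lit 4))
    (@En.n l3529 (nat_lit 10908) (nat_lit 12) (nat_lit 11))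
    (@En.n l8239 (nat_lit 11616) (nat_lit 13) (nat_lit 6))
    (@En.n l32170 (nat_lit 9325) (nat_lit 14) (nat_lit 8))
    (@En.n l32171 (nat_lit 10833) (nat_lit 3) (nat_lit 12))
    (@En.n l11 (nat_lit 10907) (nat_lit 15) (nat_lit 2))))
  (@Cl.mk (nat_lit 0x2000d0008000b0003000a0007000b0005000c0008000600050004000e0009) (nat_lit 0x862060201600014) (nat_lit 16) Lb.e (@T16.mk En
    (@En.n l29008 (nat_lit 10906) (nat_lit 4) (nat_lit 9))
    (@En.n l134 (nat_lit 2886) (nat_lit 1) (nat_lit 14))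
    (@En.n l41159 (nat_lit 11316) (nat_lit 2) (nat_lit 4))
    (@En.n l35249 (nat_lit 11597) (nat_lit 3) (nat_lit 5))
    (@En.n l3647 (nat_lit 4709) (nat_lit 4) (nat_lit 6))
    (@En.n l870 (nat_lit 10907) (nat_lit 5) (nat_lit 8))
    (@En.n l34585 (nat_lit 5588) (nat_lit 7) (nat_lit 12))
    (@En.n l4934 (nat_lit 4545) (nat_lit 7) (nat_lit 5))
    (@En.n l870 (nat_lit 7384) (nat_lit 9) (nat_lit 11))
    (@En.n l6891 (nat_lit 11106) (nat_lit 14) (nat_lit 7))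
    (@En.n l2711 (nat_lit 11492) (nat_lit 11) (nat_lit 10))
    (@En.n l4185 (nat_lit 10912) (nat_lit 11) (nat_lit 3))
    (@En.n l4934 (nat_lit 9208) (nat_lit 7) (nat_lit 11))
    (@En.n l3895 (nat_lit 9324) (nat_lit 14) (nat_lit 8))
    (@En.i (nat_lit 10834) (nat_lit 2) (nat_lit 13))
    (@En.n l7 (nat_lit 10908) (nat_lit 15) (nat_lit 2))))
  (@Cl.mk (nat_lit 0x3000900070007000b0007000c000800070005000400090009000d00090008) (nat_lit 0x600301100043636) (nat_lit 16) Lb.e (@T16.mk En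
    (@En.n l42381 (nat_lit 11376) (nat_lit 0) (nat_lit 8))
    (@En.n l11008 (nat_lit 11055) (nat_lit 12) (nat_lit 9))
    (@En.n l22628 (nat_lit 10918) (nat_lit 6) (nat_lit 13))
    (@En.n l42382 (nat_lit 10910) (nat_lit 7) (nat_lit 9))
    (@En.n l39554 (nat_lit 10949) (nat_lit 4) (nat_lit 9))
    (@En.n l42383 (nat_lit 11420) (nat_lit 5) (nat_lit 4))
    (@En.n l55 (nat_lit 12208) (nat_lit 0) (nat_lit 5))
    (@En.i (nat_lit 10455) (nat_lit 9) (nat_lit 7))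
    (@En.n l42384 (nat_lit 73) (nat_lit 1) (nat_lit 8))
    (@En.n l8012 (nat_lit 5592) (nat_lit 10) (nat_lit 12))
    (@En.n l42385 (nat_lit 11592) (nat_lit 4) (nat_lit 7))
    (@En.i (nat_lit 12056) (nat_lit 12) (nat_lit 11))
    (@En.n l61 (nat_lit 10912) (nat_lit 9) (nat_lit 7))
    (@En.n l42386 (nat_lit 11103) (nat_lit 14) (nat_lit 7))
    (@En.n l42387 (nat_lit 8008) (nat_lit 12) (nat_lit 9))
    (@En.n l42388 (nat_lit 10906) (nat_lit 15) (nat_lit 3))))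
  (@Cl.mk (nat_lit 0x2000b0008000c00090008000500040009000d0008000700030008000e0007) (nat_lit 0x445010025200520) (nat_lit 16) Lb.e (@T16.mk En
    (@En.n l31723 (nat_lit 10909) (nat_lit 13) (nat_lit 7))
    (@En.n l180 (nat_lit 6754) (nat_lit 1) (nat_lit 14))
    (@En.n l20187 (nat_lit 8014) (nat_lit 2) (nat_lit 8))
    (@En.n l36320 (nat_lit 10905) (nat_lit 3) (nat_lit 3))
    (@En.n l18 (nat_lit 11370) (nat_lit 0) (nat_lit 7))
    (@En.n l36321 (nat_lit 11053) (nat_lit 5) (nat_lit 8))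
    (@En.n l36322 (nat_lit 4577) (nat_lit 7) (nat_lit 13))
    (@En.n l36323 (nat_lit 10948) (nat_lit 3) (nat_lit 9))
    (@En.n l36324 (nat_lit 11421) (nat_lit 8) (nat_lit 4))
    (@En.n l36325 (nat_lit 12204) (nat_lit 9) (nat_lit 5))
    (@En.n l23504 (nat_lit 4712) (nat_lit 11) (nat_lit 8))
    (@En.n l23507 (nat_lit 10911) (nat_lit 12) (nat_lit 9))
    (@En.n l36322 (nat_lit 12803) (nat_lit 13) (nat_lit 12))
    (@En.n l36326 (nat_lit 11590) (nat_lit 14) (nat_lit 8))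
    (@En.n l29778 (nat_lit 12053) (nat_lit 11) (nat_lit 11))
    (@En.n l11 (nat_lit 10910) (nat_lit 15) (nat_lit 2))))
  (@Cl.mk (nat_lit 0x2000c0009000900070004000b0008000c00070007000500040009000e0008) (nat_lit 0x637005640000611) (nat_lit 16) Lb.e (@T16.mk En
    (@En.n l32213 (nat_lit 73) (nat_lit 5) (nat_lit 8))
    (@En.n l32214 (nat_lit 2168) (nat_lit 1) (nat_lit 14))
    (@En.n l32215 (nat_lit 8016) (nat_lit 2) (nat_lit 9))
    (@En.n l55 (nat_lit 10914) (nat_lit 3) (nat_lit 4))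
    (@En.n l8016 (nat_lit 11435) (nat_lit 4) (nat_lit 5))
    (@En.n l32216 (nat_lit 11688) (nat_lit 9) (nat_lit 7))
    (@En.n l8340 (nat_lit 11052) (nat_lit 6) (nat_lit 7))
    (@En.i (nat_lit 3652) (nat_lit 8) (nat_lit 12))
    (@En.n l8341 (nat_lit 11966) (nat_lit 9) (nat_lit 8))
    (@En.n l8616 (nat_lit 8017) (nat_lit 10) (nat_lit 11))
    (@En.n l8016 (nat_lit 10915) (nat_lit 10) (nat_lit 4))
    (@En.n l11613 (nat_lit 11617) (nat_lit 12) (nat_lit 7))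
    (@En.n l8343 (nat_lit 12099) (nat_lit 7) (nat_lit 9))
    (@En.n l32217 (nat_lit 11594) (nat_lit 14) (nat_lit 9))
    (@En.n l32218 (nat_lit 12060) (nat_lit 3) (nat_lit 12))
    (@En.n l17 (nat_lit 10911) (nat_lit 15) (nat_lit 2))))
noncomputable def a682 : T16 Cl := @T16.mk Cl
  (@Cl.mk (nat_lit 0x2000d000a00090003000a0007000b0006000c0007000600050004000e0009) (nat_lit 0x937070201000015) (nat_lit 16) Lb.e (@T16.mk En
    (@En.i (nat_lit 10909) (nat_lit 4) (nat_lit 9))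
    (@En.n l8012 (nat_lit 2887) (nat_lit 1) (nat_lit 14))
    (@En.n l31124 (nat_lit 11586) (nat_lit 2) (nat_lit 4))
    (@En.n l55 (nat_lit 11601) (nat_lit 3) (nat_lit 5))
    (@En.i (nat_lit 4708) (nat_lit 4) (nat_lit 6))
    (@En.i (nat_lit 10911) (nat_lit 5) (nat_lit 7))
    (@En.n l8012 (nat_lit 5587) (nat_lit 7) (nat_lit 12))
    (@En.n l8017 (nat_lit 11602) (nat_lit 7) (nat_lit 6))
    (@En.i (nat_lit 7407) (nat_lit 9) (nat_lit 11))
    (@En.n l31125 (nat_lit 11102) (nat_lit 14) (nat_lit 7))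
    (@En.n l2440 (nat_lit 8007) (nat_lit 11) (nat_lit 10))
    (@En.n l10847 (nat_lit 10908) (nat_lit 11) (nat_lit 3))
    (@En.n l31126 (nat_lit 11750) (nat_lit 0) (nat_lit 9))
    (@En.n l11008 (nat_lit 11593) (nat_lit 14) (nat_lit 10))
    (@En.n l19315 (nat_lit 10836) (nat_lit 2) (nat_lit 13))
    (@En.n l17 (nat_lit 10912) (nat_lit 15) (nat_lit 2))))
  (@Cl.mk (nat_lit 0x4000900090004000a00080008000c0007000700060004000c00080008000c) (nat_lit 0x440734300008336) (nat_lit 16) Lb.e (@T16.mk En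
    (@En.n l10436 (nat_lit 10926) (nat_lit 0) (nat_lit 12))
    (@En.n l32185 (nat_lit 10914) (nat_lit 8) (nat_lit 8))
    (@En.i (nat_lit 12169) (nat_lit 14) (nat_lit 8))
    (@En.n l32186 (nat_lit 5161) (nat_lit 3) (nat_lit 12))
    (@En.n l10436 (nat_lit 40) (nat_lit 4) (nat_lit 4))
    (@En.n l32187 (nat_lit 12207) (nat_lit 10) (nat_lit 6))
    (@En.n l152 (nat_lit 11698) (nat_lit 9) (nat_lit 7))
    (@En.n l16826 (nat_lit 11606) (nat_lit 7) (nat_lit 7))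
    (@En.n l32188 (nat_lit 12059) (nat_lit 7) (nat_lit 12))
    (@En.n l32189 (nat_lit 10915) (nat_lit 8) (nat_lit 8))
    (@En.i (nat_lit 11977) (nat_lit 14) (nat_lit 8))
    (@En.n l32190 (nat_lit 6475) (nat_lit 12) (nat_lit 10))
    (@En.n l31554 (nat_lit 10904) (nat_lit 15) (nat_lit 4))
    (@En.n l3536 (nat_lit 11697) (nat_lit 7) (nat_lit 9))
    (@En.n l32191 (nat_lit 10909) (nat_lit 1) (nat_lit 9))
    (@En.n l9072 (nat_lit 12093) (nat_lit 15) (nat_lit 4))))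
  (@Cl.mk (nat_lit 0x2000c0008000800070004000d0008000c00030008000800040009000e0008) (nat_lit 0x340007250300654) (nat_lit 16) Lb.e (@T16.mk En
    (@En.n l20838 (nat_lit 10913) (nat_lit 10) (nat_lit 8))
    (@En.n l3165 (nat_lit 2436) (nat_lit 1) (nat_lit 14))
    (@En.n l20839 (nat_lit 6468) (nat_lit 2) (nat_lit 9))
    (@En.n l4147 (nat_lit 10903) (nat_lit 3) (nat_lit 4))
    (@En.n l20840 (nat_lit 11689) (nat_lit 8) (nat_lit 8))
    (@En.n l20841 (nat_lit 10910) (nat_lit 5) (nat_lit 8))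
    (@En.n l20842 (nat_lit 12095) (nat_lit 6) (nat_lit 3))
    (@En.i (nat_lit 3616) (nat_lit 0) (nat_lit 12))
    (@En.n l2440 (nat_lit 12176) (nat_lit 9) (nat_lit 8))
    (@En.n l17584 (nat_lit 6497) (nat_lit 10) (nat_lit 13))
    (@En.n l4147 (nat_lit 11671) (nat_lit 10) (nat_lit 4))
    (@En.n l681 (nat_lit 11623) (nat_lit 12) (nat_lit 7))
    (@En.n l4148 (nat_lit 12097) (nat_lit 8) (nat_lit 8))
    (@En.n l20843 (nat_lit 11596) (nat_lit 14) (nat_lit 8))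
    (@En.n l20844 (nat_lit 12057) (nat_lit 8) (nat_lit 12))
    (@En.n l17 (nat_lit 10914) (nat_lit 15) (nat_lit 2))))
  (@Cl.mk (nat_lit 0x2000c0005000a000a0004000b0008000c0006000600050004000b000e0008) (nat_lit 0x304608320000814) (nat_lit 16) Lb.e (@T16.mk En
    (@En.n l16794 (nat_lit 10913) (nat_lit 2) (nat_lit 8))
    (@En.n l3174 (nat_lit 2161) (nat_lit 4) (nat_lit 14))
    (@En.n l6744 (nat_lit 5158) (nat_lit 2) (nat_lit 11))
    (@En.n l237 (nat_lit 11671) (nat_lit 3) (nat_lit 4))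
    (@En.i (nat_lit 12205) (nat_lit 4) (nat_lit 5))
    (@En.n l9904 (nat_lit 11690) (nat_lit 10) (nat_lit 6))
    (@En.n l16795 (nat_lit 11603) (nat_lit 6) (nat_lit 6))
    (@En.i (nat_lit 3651) (nat_lit 8) (nat_lit 12))
    (@En.n l3174 (nat_lit 10677) (nat_lit 9) (nat_lit 8))
    (@En.n l16796 (nat_lit 8025) (nat_lit 10) (nat_lit 11))
    (@En.n l2845 (nat_lit 10907) (nat_lit 10) (nat_lit 4))
    (@En.n l3177 (nat_lit 12100) (nat_lit 6) (nat_lit 10))
    (@En.n l2738 (nat_lit 10912) (nat_lit 13) (nat_lit 10))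
    (@En.n l16797 (nat_lit 12094) (nat_lit 14) (nat_lit 5))
    (@En.n l16798 (nat_lit 12020) (nat_lit 3) (nat_lit 12))
    (@En.n l17 (nat_lit 10915) (nat_lit 15) (nat_lit 2))))
  (@Cl.mk (nat_lit 0x3000b0007000c000a0007000500040009000d000600090003000d00090007) (nat_lit 0x406700015010720) (nat_lit 16) Lb.e (@T16.mk En
    (@En.n l25672 (nat_lit 11395) (nat_lit 0) (nat_lit 7))
    (@En.n l30610 (nat_lit 10861) (nat_lit 14) (nat_lit 9))
    (@En.n l17763 (nat_lit 10402) (nat_lit 2) (nat_lit 13))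
    (@En.n l15827 (nat_lit 10918) (nat_lit 3) (nat_lit 3))
    (@En.n l43484 (nat_lit 5585) (nat_lit 9) (nat_lit 9))
    (@En.n l17764 (nat_lit 10720) (nat_lit 5) (nat_lit 6))
    (@En.n l33754 (nat_lit 4575) (nat_lit 6) (nat_lit 13))
    (@En.n l6081 (nat_lit 9947) (nat_lit 3) (nat_lit 9))
    (@En.n l8121 (nat_lit 11469) (nat_lit 12) (nat_lit 4))
    (@En.n l33754 (nat_lit 10817) (nat_lit 0) (nat_lit 5))
    (@En.i (nat_lit 10431) (nat_lit 1) (nat_lit 7))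
    (@En.n l61 (nat_lit 10917) (nat_lit 12) (nat_lit 10))
    (@En.n l33754 (nat_lit 8736) (nat_lit 13) (nat_lit 12))
    (@En.n l43485 (nat_lit 8840) (nat_lit 14) (nat_lit 7))
    (@En.n l43486 (nat_lit 10023) (nat_lit 11) (nat_lit 11))
    (@En.n l24384 (nat_lit 10616) (nat_lit 15) (nat_lit 3))))
  (@Cl.mk (nat_lit 0x3000c0007000a00060004000c0008000c0006000400090004000d000a0008) (nat_lit 0x406007120020726) (nat_lit 16) Lb.e (@T16.mk En
    (@En.i (nat_lit 11396) (nat_lit 0) (nat_lit 8))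
    (@En.n l41968 (nat_lit 10860) (nat_lit 12) (nat_lit 10))
    (@En.n l37190 (nat_lit 10404) (nat_lit 2) (nat_lit 13))
    (@En.n l117 (nat_lit 10924) (nat_lit 3) (nat_lit 4))
    (@En.n l617 (nat_lit 10916) (nat_lit 4) (nat_lit 9))
    (@En.n l41970 (nat_lit 10846) (nat_lit 5) (nat_lit 4))
    (@En.n l2642 (nat_lit 6855) (nat_lit 0) (nat_lit 6))
    (@En.n l24921 (nat_lit 4572) (nat_lit 7) (nat_lit 12))
    (@En.n l31846 (nat_lit 9948) (nat_lit 14) (nat_lit 8))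
    (@En.n l41971 (nat_lit 11402) (nat_lit 10) (nat_lit 12))
    (@En.n l17961 (nat_lit 10815) (nat_lit 10) (nat_lit 4))
    (@En.i (nat_lit 10959) (nat_lit 0) (nat_lit 6))
    (@En.n l24921 (nat_lit 8912) (nat_lit 8) (nat_lit 10))
    (@En.n l41971 (nat_lit 10570) (nat_lit 14) (nat_lit 7))
    (@En.n l41972 (nat_lit 10024) (nat_lit 11) (nat_lit 12))
    (@En.n l12503 (nat_lit 10615) (nat_lit 15) (nat_lit 3))))
  (@Cl.mk (nat_lit 0x3000b0008000c00090007000500040009000d000800070003000d00090007) (nat_lit 0x346200055500720) (nat_lit 16) Lb.e (@T16.mk En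
    (@En.n l14384 (nat_lit 11397) (nat_lit 0) (nat_lit 7))
    (@En.i (nat_lit 10862) (nat_lit 14) (nat_lit 9))
    (@En.n l41494 (nat_lit 10415) (nat_lit 2) (nat_lit 13))
    (@En.n l41495 (nat_lit 10916) (nat_lit 3) (nat_lit 3))
    (@En.n l41496 (nat_lit 11913) (nat_lit 0) (nat_lit 7))
    (@En.n l41497 (nat_lit 10920) (nat_lit 5) (nat_lit 8))
    (@En.n l619 (nat_lit 4578) (nat_lit 6) (nat_lit 13))
    (@En.n l41498 (nat_lit 11475) (nat_lit 3) (nat_lit 9))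
    (@En.n l3519 (nat_lit 11468) (nat_lit 12) (nat_lit 4))
    (@En.n l24673 (nat_lit 10828) (nat_lit 0) (nat_lit 5))
    (@En.i (nat_lit 10429) (nat_lit 1) (nat_lit 7))
    (@En.n l41499 (nat_lit 10924) (nat_lit 12) (nat_lit 9))
    (@En.i (nat_lit 8738) (nat_lit 7) (nat_lit 12))
    (@En.n l24107 (nat_lit 11954) (nat_lit 14) (nat_lit 8))
    (@En.n l33920 (nat_lit 10022) (nat_lit 11) (nat_lit 11))
    (@En.n l33921 (nat_lit 10919) (nat_lit 15) (nat_lit 3))))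
  (@Cl.mk (nat_lit 0x3000b0008000c0009000600050004000a000d000800070003000d0006000a) (nat_lit 0x723600057200702) (nat_lit 16) Lb.e (@T16.mk En
    (@En.n l32879 (nat_lit 10104) (nat_lit 0) (nat_lit 10))
    (@En.n l32880 (nat_lit 10836) (nat_lit 14) (nat_lit 6))
    (@En.n l32881 (nat_lit 10416) (nat_lit 2) (nat_lit 13))
    (@En.n l6918 (nat_lit 10616) (nat_lit 3) (nat_lit 3))
    (@En.n l32882 (nat_lit 11916) (nat_lit 0) (nat_lit 7))
    (@En.n l152 (nat_lit 10922) (nat_lit 5) (nat_lit 8))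
    (@En.n l32883 (nat_lit 4581) (nat_lit 5) (nat_lit 13))
    (@En.n l32884 (nat_lit 11873) (nat_lit 3) (nat_lit 10))
    (@En.n l32885 (nat_lit 11472) (nat_lit 12) (nat_lit 4))
    (@En.i (nat_lit 10826) (nat_lit 11) (nat_lit 5))
    (@En.n l11091 (nat_lit 10426) (nat_lit 1) (nat_lit 6))
    (@En.n l17404 (nat_lit 10925) (nat_lit 12) (nat_lit 9))
    (@En.i (nat_lit 8737) (nat_lit 7) (nat_lit 12))
    (@En.n l32886 (nat_lit 11953) (nat_lit 14) (nat_lit 8))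
    (@En.n l25337 (nat_lit 10018) (nat_lit 11) (nat_lit 11))
    (@En.n l11091 (nat_lit 10918) (nat_lit 15) (nat_lit 3))))
  (@Cl.mk (nat_lit 0x3000a00080007000c000a000800060004000a000800060009000d00080006) (nat_lit 0x110725007401620) (nat_lit 16) Lb.e (@T16.mk En
    (@En.n l39782 (nat_lit 11180) (nat_lit 0) (nat_lit 6))
    (@En.n l39783 (nat_lit 11079) (nat_lit 0) (nat_lit 8))
    (@En.n l39784 (nat_lit 10414) (nat_lit 6) (nat_lit 13))
    (@En.n l1723 (nat_lit 5591) (nat_lit 9) (nat_lit 9))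
    (@En.n l39785 (nat_lit 10896) (nat_lit 4) (nat_lit 6))
    (@En.i (nat_lit 10312) (nat_lit 5) (nat_lit 8))
    (@En.n l39786 (nat_lit 11092) (nat_lit 7) (nat_lit 10))
    (@En.n l39787 (nat_lit 11475) (nat_lit 7) (nat_lit 4))
    (@En.i (nat_lit 10210) (nat_lit 8) (nat_lit 6))
    (@En.n l39788 (nat_lit 10086) (nat_lit 1) (nat_lit 8))
    (@En.n l29397 (nat_lit 10921) (nat_lit 11) (nat_lit 10))
    (@En.n l20198 (nat_lit 10180) (nat_lit 12) (nat_lit 12))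
    (@En.n l30402 (nat_lit 10916) (nat_lit 13) (nat_lit 7))
    (@En.n l2125 (nat_lit 10509) (nat_lit 14) (nat_lit 8))
    (@En.n l152 (nat_lit 8838) (nat_lit 7) (nat_lit 10))
    (@En.n l39789 (nat_lit 10922) (nat_lit 15) (nat_lit 3))))
  (@Cl.mk (nat_lit 0x3000b00090007000a00070005000c00090007000600040009000d00090007) (nat_lit 0x440100460002670) (nat_lit 16) Lb.e (@T16.mk En
    (@En.n l39358 (nat_lit 10971) (nat_lit 0) (nat_lit 7))
    (@En.n l22284 (nat_lit 11080) (nat_lit 13) (nat_lit 9))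
    (@En.n l39359 (nat_lit 10184) (nat_lit 6) (nat_lit 13))
    (@En.n l38863 (nat_lit 10920) (nat_lit 3) (nat_lit 9))
    (@En.n l14384 (nat_lit 11715) (nat_lit 4) (nat_lit 4))
    (@En.n l39359 (nat_lit 10894) (nat_lit 10) (nat_lit 6))
    (@En.i (nat_lit 10313) (nat_lit 1) (nat_lit 7))
    (@En.n l33391 (nat_lit 11096) (nat_lit 8) (nat_lit 9))
    (@En.n l25120 (nat_lit 10836) (nat_lit 9) (nat_lit 12))
    (@En.n l39360 (nat_lit 10212) (nat_lit 9) (nat_lit 5))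
    (@En.i (nat_lit 11901) (nat_lit 5) (nat_lit 7))
    (@En.n l10972 (nat_lit 9014) (nat_lit 8) (nat_lit 10))
    (@En.n l23460 (nat_lit 10917) (nat_lit 13) (nat_lit 7))
    (@En.n l39361 (nat_lit 11865) (nat_lit 14) (nat_lit 9))
    (@En.n l22285 (nat_lit 10555) (nat_lit 10) (nat_lit 11))
    (@En.n l39362 (nat_lit 10923) (nat_lit 15) (nat_lit 3))))
  (@Cl.mk (nat_lit 0x3000a00080007000c000a000700060004000b000800060009000d00050009) (nat_lit 0x150770009101607) (nat_lit 16) Lb.e (@T16.mk En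
    (@En.n l36296 (nat_lit 11576) (nat_lit 0) (nat_lit 9))
    (@En.n l36297 (nat_lit 10071) (nat_lit 9) (nat_lit 5))
    (@En.n l36298 (nat_lit 9207) (nat_lit 6) (nat_lit 13))
    (@En.n l36299 (nat_lit 5590) (nat_lit 9) (nat_lit 9))
    (@En.n l32054 (nat_lit 10893) (nat_lit 4) (nat_lit 6))
    (@En.n l36300 (nat_lit 10310) (nat_lit 5) (nat_lit 8))
    (@En.n l36301 (nat_lit 11855) (nat_lit 7) (nat_lit 11))
    (@En.n l36142 (nat_lit 9947) (nat_lit 7) (nat_lit 4))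
    (@En.i (nat_lit 10214) (nat_lit 10) (nat_lit 6))
    (@En.n l36302 (nat_lit 9814) (nat_lit 1) (nat_lit 7))
    (@En.n l19001 (nat_lit 10923) (nat_lit 11) (nat_lit 10))
    (@En.i (nat_lit 10181) (nat_lit 12) (nat_lit 12))
    (@En.n l6918 (nat_lit 10616) (nat_lit 13) (nat_lit 7))
    (@En.n l36299 (nat_lit 11957) (nat_lit 14) (nat_lit 8))
    (@En.n l7 (nat_lit 9481) (nat_lit 13) (nat_lit 10))
    (@En.n l32162 (nat_lit 10920) (nat_lit 15) (nat_lit 3))))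
  (@Cl.mk (nat_lit 0x3000b00090007000a00060005000c000a0007000600040009000d0006000a) (nat_lit 0x420600480002703) (nat_lit 16) Lb.e (@T16.mk En
    (@En.n l33561 (nat_lit 11578) (nat_lit 0) (nat_lit 10))
    (@En.i (nat_lit 10070) (nat_lit 13) (nat_lit 6))
    (@En.n l22690 (nat_lit 10186) (nat_lit 6) (nat_lit 13))
    (@En.i (nat_lit 10922) (nat_lit 3) (nat_lit 9))
    (@En.n l41130 (nat_lit 11714) (nat_lit 4) (nat_lit 4))
    (@En.n l32054 (nat_lit 10891) (nat_lit 10) (nat_lit 6))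
    (@En.n l31072 (nat_lit 10311) (nat_lit 1) (nat_lit 7))
    (@En.n l41131 (nat_lit 11854) (nat_lit 6) (nat_lit 10))
    (@En.n l28211 (nat_lit 10834) (nat_lit 9) (nat_lit 12))
    (@En.i (nat_lit 10469) (nat_lit 11) (nat_lit 5))
    (@En.n l41132 (nat_lit 9816) (nat_lit 5) (nat_lit 6))
    (@En.n l41133 (nat_lit 9042) (nat_lit 8) (nat_lit 10))
    (@En.n l6992 (nat_lit 10615) (nat_lit 13) (nat_lit 7))
    (@En.n l21491 (nat_lit 11862) (nat_lit 14) (nat_lit 9))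
    (@En.n l41134 (nat_lit 9479) (nat_lit 10) (nat_lit 11))
    (@En.n l41135 (nat_lit 10921) (nat_lit 15) (nat_lit 3))))
  (@Cl.mk (nat_lit 0x3000c0009000900060004000b0008000c0007000700050004000d000a0008) (nat_lit 0x1310020a0000551) (nat_lit 16) Lb.e (@T16.mk En
    (@En.n l40684 (nat_lit 8043) (nat_lit 0) (nat_lit 8))
    (@En.n l40685 (nat_lit 10993) (nat_lit 14) (nat_lit 10))
    (@En.n l39157 (nat_lit 10424) (nat_lit 2) (nat_lit 13))
    (@En.n l1003 (nat_lit 10926) (nat_lit 12) (nat_lit 4))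
    (@En.n l40686 (nat_lit 10847) (nat_lit 4) (nat_lit 5))
    (@En.n l40687 (nat_lit 12510) (nat_lit 9) (nat_lit 7))
    (@En.n l40688 (nat_lit 10921) (nat_lit 6) (nat_lit 7))
    (@En.n l40689 (nat_lit 3653) (nat_lit 7) (nat_lit 12))
    (@En.n l24726 (nat_lit 11805) (nat_lit 14) (nat_lit 8))
    (@En.n l40690 (nat_lit 10868) (nat_lit 10) (nat_lit 11))
    (@En.n l29774 (nat_lit 12059) (nat_lit 10) (nat_lit 4))
    (@En.n l17023 (nat_lit 10478) (nat_lit 0) (nat_lit 6))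
    (@En.n l11401 (nat_lit 8031) (nat_lit 7) (nat_lit 9))
    (@En.n l40691 (nat_lit 11860) (nat_lit 14) (nat_lit 9))
    (@En.n l40692 (nat_lit 72) (nat_lit 3) (nat_lit 12))
    (@En.n l40693 (nat_lit 10925) (nat_lit 15) (nat_lit 3))))
  (@Cl.mk (nat_lit 0x3000c0009000900050004000b0009000c0007000700050004000d0007000b) (nat_lit 0x245002640000606) (nat_lit 16) Lb.e (@T16.mk En
    (@En.n l20112 (nat_lit 9007) (nat_lit 0) (nat_lit 11))
    (@En.n l28206 (nat_lit 12060) (nat_lit 14) (nat_lit 7))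
    (@En.n l14169 (nat_lit 11302) (nat_lit 2) (nat_lit 13))
    (@En.n l28207 (nat_lit 10927) (nat_lit 12) (nat_lit 4))
    (@En.n l28208 (nat_lit 10848) (nat_lit 4) (nat_lit 5))
    (@En.n l28209 (nat_lit 12245) (nat_lit 9) (nat_lit 7))
    (@En.i (nat_lit 10923) (nat_lit 6) (nat_lit 7))
    (@En.n l3521 (nat_lit 3657) (nat_lit 6) (nat_lit 12))
    (@En.n l28210 (nat_lit 11875) (nat_lit 14) (nat_lit 9))
    (@En.n l28211 (nat_lit 7552) (nat_lit 10) (nat_lit 11))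
    (@En.i (nat_lit 12058) (nat_lit 12) (nat_lit 4))
    (@En.n l20112 (nat_lit 10475) (nat_lit 0) (nat_lit 5))
    (@En.n l28212 (nat_lit 10942) (nat_lit 7) (nat_lit 9))
    (@En.n l28213 (nat_lit 11856) (nat_lit 14) (nat_lit 9))
    (@En.n l28214 (nat_lit 3482) (nat_lit 2) (nat_lit 12))
    (@En.n l28215 (nat_lit 10924) (nat_lit 15) (nat_lit 3))))
  (@Cl.mk (nat_lit 0x3000800080004000d000a00080003000c0008000800060004000d0008000c) (nat_lit 0x600946023600945) (nat_lit 16) Lb.e (@T16.mk En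
    (@En.n l8160 (nat_lit 3615) (nat_lit 0) (nat_lit 12))
    (@En.i (nat_lit 12001) (nat_lit 14) (nat_lit 8))
    (@En.n l32794 (nat_lit 5802) (nat_lit 2) (nat_lit 13))
    (@En.i (nat_lit 12007) (nat_lit 3) (nat_lit 4))
    (@En.n l16184 (nat_lit 10699) (nat_lit 4) (nat_lit 6))
    (@En.n l152 (nat_lit 8030) (nat_lit 8) (nat_lit 8))
    (@En.n l25675 (nat_lit 12013) (nat_lit 6) (nat_lit 8))
    (@En.n l565 (nat_lit 10559) (nat_lit 8) (nat_lit 12))
    (@En.n l8163 (nat_lit 10927) (nat_lit 8) (nat_lit 3))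
    (@En.i (nat_lit 11403) (nat_lit 0) (nat_lit 8))
    (@En.n l32795 (nat_lit 8059) (nat_lit 11) (nat_lit 10))
    (@En.n l10637 (nat_lit 10521) (nat_lit 12) (nat_lit 13))
    (@En.n l2125 (nat_lit 10917) (nat_lit 3) (nat_lit 4))
    (@En.n l3261 (nat_lit 12242) (nat_lit 8) (nat_lit 8))
    (@En.n l16184 (nat_lit 10918) (nat_lit 5) (nat_lit 8))
    (@En.n l11308 (nat_lit 10928) (nat_lit 15) (nat_lit 3))))
  (@Cl.mk (nat_lit 0x3000800080004000d0007000b0003000c0008000800050004000d0009000c) (nat_lit 0x300b03022500171) (nat_lit 16) Lb.e (@T16.mk En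
    (@En.n l6892 (nat_lit 3620) (nat_lit 0) (nat_lit 12))
    (@En.n l17228 (nat_lit 11125) (nat_lit 14) (nat_lit 9))
    (@En.n l7239 (nat_lit 52) (nat_lit 2) (nat_lit 13))
    (@En.n l17229 (nat_lit 12017) (nat_lit 3) (nat_lit 4))
    (@En.n l6891 (nat_lit 11106) (nat_lit 4) (nat_lit 5))
    (@En.n l152 (nat_lit 10934) (nat_lit 8) (nat_lit 8))
    (@En.n l6892 (nat_lit 12012) (nat_lit 6) (nat_lit 8))
    (@En.n l9825 (nat_lit 3481) (nat_lit 8) (nat_lit 12))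
    (@En.n l11987 (nat_lit 10926) (nat_lit 8) (nat_lit 3))
    (@En.i (nat_lit 9004) (nat_lit 0) (nat_lit 11))
    (@En.n l833 (nat_lit 12020) (nat_lit 14) (nat_lit 7))
    (@En.n l17230 (nat_lit 10517) (nat_lit 12) (nat_lit 13))
    (@En.n l993 (nat_lit 10615) (nat_lit 3) (nat_lit 4))
    (@En.n l9820 (nat_lit 12241) (nat_lit 8) (nat_lit 8))
    (@En.n l17229 (nat_lit 10919) (nat_lit 5) (nat_lit 8))
    (@En.n l17231 (nat_lit 10929) (nat_lit 15) (nat_lit 3))))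
noncomputable def a683 : T16 Cl := @T16.mk Cl
  (@Cl.mk (nat_lit 0x3000800080005000d000a00070003000c0008000800060004000d000b0009) (nat_lit 0x130b40024400131) (nat_lit 16) Lb.e (@T16.mk En
    (@En.n l38577 (nat_lit 5309) (nat_lit 0) (nat_lit 9))
    (@En.n l28215 (nat_lit 10924) (nat_lit 9) (nat_lit 11))
    (@En.n l15506 (nat_lit 63) (nat_lit 2) (nat_lit 13))
    (@En.i (nat_lit 12006) (nat_lit 3) (nat_lit 4))
    (@En.n l22962 (nat_lit 10700) (nat_lit 4) (nat_lit 6))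
    (@En.n l38578 (nat_lit 10933) (nat_lit 8) (nat_lit 8))
    (@En.n l38579 (nat_lit 12016) (nat_lit 6) (nat_lit 8))
    (@En.n l10404 (nat_lit 10558) (nat_lit 8) (nat_lit 12))
    (@En.n l28 (nat_lit 10929) (nat_lit 8) (nat_lit 3))
    (@En.n l38580 (nat_lit 6441) (nat_lit 0) (nat_lit 7))
    (@En.i (nat_lit 10930) (nat_lit 11) (nat_lit 10))
    (@En.n l20836 (nat_lit 10519) (nat_lit 12) (nat_lit 13))
    (@En.n l38581 (nat_lit 10154) (nat_lit 3) (nat_lit 5))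
    (@En.n l16516 (nat_lit 12234) (nat_lit 8) (nat_lit 8))
    (@En.i (nat_lit 10180) (nat_lit 5) (nat_lit 8))
    (@En.n l17679 (nat_lit 10926) (nat_lit 15) (nat_lit 3))))
  (@Cl.mk (nat_lit 0x3000800080005000d0006000b0003000c0008000800050004000d000b000a) (nat_lit 0x140503024500a36) (nat_lit 16) Lb.e (@T16.mk En
    (@En.n l619 (nat_lit 12398) (nat_lit 0) (nat_lit 10))
    (@En.i (nat_lit 10925) (nat_lit 9) (nat_lit 11))
    (@En.n l15506 (nat_lit 5802) (nat_lit 10) (nat_lit 13))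
    (@En.i (nat_lit 12005) (nat_lit 3) (nat_lit 4))
    (@En.n l32035 (nat_lit 11102) (nat_lit 4) (nat_lit 5))
    (@En.n l742 (nat_lit 10932) (nat_lit 8) (nat_lit 8))
    (@En.n l32036 (nat_lit 11993) (nat_lit 6) (nat_lit 8))
    (@En.n l7 (nat_lit 3483) (nat_lit 8) (nat_lit 12))
    (@En.i (nat_lit 10928) (nat_lit 8) (nat_lit 3))
    (@En.n l28207 (nat_lit 9005) (nat_lit 0) (nat_lit 11))
    (@En.i (nat_lit 10747) (nat_lit 11) (nat_lit 6))
    (@En.n l5801 (nat_lit 10516) (nat_lit 12) (nat_lit 13))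
    (@En.n l29528 (nat_lit 10153) (nat_lit 3) (nat_lit 5))
    (@En.n l2781 (nat_lit 12236) (nat_lit 8) (nat_lit 8))
    (@En.i (nat_lit 10181) (nat_lit 5) (nat_lit 8))
    (@En.n l32037 (nat_lit 10927) (nat_lit 15) (nat_lit 3))))
  (@Cl.mk (nat_lit 0x3000900090005000a0006000b000b00070007000600050005000d000b000a) (nat_lit 0x430302600000765) (nat_lit 16) Lb.e (@T16.mk En
    (@En.n l38669 (nat_lit 10130) (nat_lit 0) (nat_lit 10))
    (@En.n l38670 (nat_lit 10993) (nat_lit 5) (nat_lit 11))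
    (@En.n l38671 (nat_lit 5168) (nat_lit 2) (nat_lit 13))
    (@En.n l10399 (nat_lit 12513) (nat_lit 11) (nat_lit 5))
    (@En.i (nat_lit 10929) (nat_lit 4) (nat_lit 5))
    (@En.n l38672 (nat_lit 10252) (nat_lit 10) (nat_lit 6))
    (@En.n l38673 (nat_lit 8170) (nat_lit 9) (nat_lit 7))
    (@En.n l38674 (nat_lit 11100) (nat_lit 7) (nat_lit 7))
    (@En.n l38675 (nat_lit 10881) (nat_lit 5) (nat_lit 11))
    (@En.n l38672 (nat_lit 8981) (nat_lit 10) (nat_lit 11))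
    (@En.n l30303 (nat_lit 10998) (nat_lit 11) (nat_lit 6))
    (@En.n l3696 (nat_lit 5606) (nat_lit 12) (nat_lit 10))
    (@En.n l38676 (nat_lit 10857) (nat_lit 13) (nat_lit 5))
    (@En.n l38677 (nat_lit 8058) (nat_lit 7) (nat_lit 9))
    (@En.i (nat_lit 11294) (nat_lit 1) (nat_lit 9))
    (@En.n l38678 (nat_lit 8059) (nat_lit 15) (nat_lit 3))))
  (@Cl.mk (nat_lit 0x20006000c0007000c00060004000e00040002000d000a00090003000e000a) (nat_lit 0x40600800726058) (nat_lit 16) Lb.e (@T16.mk En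
    (@En.i (nat_lit 10881) (nat_lit 10) (nat_lit 10))
    (@En.i (nat_lit 10036) (nat_lit 1) (nat_lit 14))
    (@En.n l20805 (nat_lit 10986) (nat_lit 2) (nat_lit 3))
    (@En.n l4758 (nat_lit 10123) (nat_lit 3) (nat_lit 9))
    (@En.n l21885 (nat_lit 10987) (nat_lit 4) (nat_lit 10))
    (@En.i (nat_lit 7551) (nat_lit 6) (nat_lit 13))
    (@En.n l17 (nat_lit 10931) (nat_lit 6) (nat_lit 2))
    (@En.i (nat_lit 8170) (nat_lit 7) (nat_lit 4))
    (@En.n l5022 (nat_lit 3496) (nat_lit 9) (nat_lit 14))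
    (@En.i (nat_lit 7065) (nat_lit 9) (nat_lit 4))
    (@En.i (nat_lit 12224) (nat_lit 3) (nat_lit 6))
    (@En.n l8631 (nat_lit 8490) (nat_lit 12) (nat_lit 12))
    (@En.n l9882 (nat_lit 10996) (nat_lit 13) (nat_lit 7))
    (@En.n l476 (nat_lit 7990) (nat_lit 14) (nat_lit 12))
    (@En.i (nat_lit 6401) (nat_lit 7) (nat_lit 6))
    (@En.n l28 (nat_lit 10931) (nat_lit 15) (nat_lit 2))))
  (@Cl.mk (nat_lit 0x20006000d0007000c0003000d000800040003000d000a00090003000e0008) (nat_lit 0x60607400637092) (nat_lit 16) Lb.e (@T16.mk En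
    (@En.n l50 (nat_lit 10929) (nat_lit 14) (nat_lit 8))
    (@En.n l1105 (nat_lit 9028) (nat_lit 1) (nat_lit 14))
    (@En.n l16719 (nat_lit 10934) (nat_lit 2) (nat_lit 3))
    (@En.n l16720 (nat_lit 12394) (nat_lit 3) (nat_lit 9))
    (@En.n l7896 (nat_lit 10942) (nat_lit 4) (nat_lit 10))
    (@En.n l3669 (nat_lit 5800) (nat_lit 6) (nat_lit 13))
    (@En.n l50 (nat_lit 10935) (nat_lit 6) (nat_lit 3))
    (@En.n l16721 (nat_lit 10931) (nat_lit 7) (nat_lit 4))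
    (@En.i (nat_lit 10551) (nat_lit 9) (nat_lit 8))
    (@En.n l1109 (nat_lit 3490) (nat_lit 10) (nat_lit 13))
    (@En.n l16721 (nat_lit 10933) (nat_lit 10) (nat_lit 3))
    (@En.n l16722 (nat_lit 8999) (nat_lit 12) (nat_lit 12))
    (@En.n l8765 (nat_lit 12319) (nat_lit 13) (nat_lit 7))
    (@En.n l3695 (nat_lit 11460) (nat_lit 14) (nat_lit 13))
    (@En.n l3518 (nat_lit 10148) (nat_lit 13) (nat_lit 6))
    (@En.n l17 (nat_lit 10932) (nat_lit 15) (nat_lit 2))))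
  (@Cl.mk (nat_lit 0x20006000d000b00080003000d000800050003000d000a00080003000e0008) (nat_lit 0x65207300634052) (nat_lit 16) Lb.e (@T16.mk En
    (@En.n l29552 (nat_lit 10928) (nat_lit 14) (nat_lit 8))
    (@En.n l10991 (nat_lit 9015) (nat_lit 1) (nat_lit 14))
    (@En.n l16716 (nat_lit 8030) (nat_lit 2) (nat_lit 3))
    (@En.n l1262 (nat_lit 12390) (nat_lit 3) (nat_lit 8))
    (@En.n l2503 (nat_lit 8031) (nat_lit 4) (nat_lit 10))
    (@En.n l23774 (nat_lit 5801) (nat_lit 6) (nat_lit 13))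
    (@En.n l29552 (nat_lit 10937) (nat_lit 6) (nat_lit 3))
    (@En.i (nat_lit 8022) (nat_lit 7) (nat_lit 5))
    (@En.n l27765 (nat_lit 11770) (nat_lit 9) (nat_lit 8))
    (@En.n l7145 (nat_lit 12144) (nat_lit 10) (nat_lit 13))
    (@En.n l29553 (nat_lit 10932) (nat_lit 10) (nat_lit 3))
    (@En.n l1262 (nat_lit 6443) (nat_lit 12) (nat_lit 8))
    (@En.n l217 (nat_lit 8170) (nat_lit 13) (nat_lit 11))
    (@En.n l476 (nat_lit 11457) (nat_lit 14) (nat_lit 13))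
    (@En.i (nat_lit 10147) (nat_lit 13) (nat_lit 6))
    (@En.n l28 (nat_lit 10933) (nat_lit 15) (nat_lit 2))))
  (@Cl.mk (nat_lit 0x20005000d0008000c0003000d000800040003000d0008000b0003000e0008) (nat_lit 0x50407400651094) (nat_lit 16) Lb.e (@T16.mk En
    (@En.i (nat_lit 10927) (nat_lit 14) (nat_lit 8))
    (@En.n l3659 (nat_lit 10942) (nat_lit 1) (nat_lit 14))
    (@En.n l19561 (nat_lit 10932) (nat_lit 2) (nat_lit 3))
    (@En.n l3633 (nat_lit 3617) (nat_lit 3) (nat_lit 11))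
    (@En.i (nat_lit 12652) (nat_lit 4) (nat_lit 8))
    (@En.i (nat_lit 5804) (nat_lit 6) (nat_lit 13))
    (@En.n l996 (nat_lit 10938) (nat_lit 6) (nat_lit 3))
    (@En.i (nat_lit 10986) (nat_lit 7) (nat_lit 4))
    (@En.i (nat_lit 10368) (nat_lit 9) (nat_lit 8))
    (@En.n l9825 (nat_lit 3491) (nat_lit 10) (nat_lit 13))
    (@En.n l11987 (nat_lit 8030) (nat_lit 10) (nat_lit 3))
    (@En.i (nat_lit 9000) (nat_lit 12) (nat_lit 12))
    (@En.n l15797 (nat_lit 12317) (nat_lit 13) (nat_lit 8))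
    (@En.n l15973 (nat_lit 11463) (nat_lit 14) (nat_lit 13))
    (@En.i (nat_lit 8907) (nat_lit 13) (nat_lit 5))
    (@En.n l3 (nat_lit 10934) (nat_lit 15) (nat_lit 2))))
  (@Cl.mk (nat_lit 0x20006000d0007000d0003000d000300090003000d000a00090003000e0007) (nat_lit 0xa0206050627090) (nat_lit 16) Lb.e (@T16.mk En
    (@En.i (nat_lit 12005) (nat_lit 14) (nat_lit 7))
    (@En.n l1105 (nat_lit 9027) (nat_lit 1) (nat_lit 14))
    (@En.n l10326 (nat_lit 10938) (nat_lit 2) (nat_lit 3))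
    (@En.n l619 (nat_lit 12395) (nat_lit 3) (nat_lit 9))
    (@En.n l7896 (nat_lit 10941) (nat_lit 4) (nat_lit 10))
    (@En.i (nat_lit 11238) (nat_lit 6) (nat_lit 13))
    (@En.i (nat_lit 10932) (nat_lit 6) (nat_lit 3))
    (@En.n l8766 (nat_lit 11601) (nat_lit 0) (nat_lit 9))
    (@En.i (nat_lit 10936) (nat_lit 8) (nat_lit 3))
    (@En.i (nat_lit 3487) (nat_lit 10) (nat_lit 13))
    (@En.i (nat_lit 10937) (nat_lit 10) (nat_lit 3))
    (@En.n l1112 (nat_lit 6137) (nat_lit 12) (nat_lit 13))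
    (@En.i (nat_lit 12315) (nat_lit 13) (nat_lit 7))
    (@En.n l1110 (nat_lit 11461) (nat_lit 14) (nat_lit 13))
    (@En.n l3518 (nat_lit 10151) (nat_lit 5) (nat_lit 6))
    (@En.n l17 (nat_lit 10935) (nat_lit 15) (nat_lit 2))))
  (@Cl.mk (nat_lit 0x20006000c0007000d000c0004000300090004000d000a00090003000e0007) (nat_lit 0x90270050725080) (nat_lit 16) Lb.e (@T16.mk En
    (@En.i (nat_lit 12004) (nat_lit 14) (nat_lit 7))
    (@En.n l1105 (nat_lit 8980) (nat_lit 1) (nat_lit 14))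
    (@En.n l19610 (nat_lit 10940) (nat_lit 2) (nat_lit 3))
    (@En.n l8763 (nat_lit 12396) (nat_lit 3) (nat_lit 9))
    (@En.n l7896 (nat_lit 11135) (nat_lit 4) (nat_lit 10))
    (@En.n l19611 (nat_lit 11235) (nat_lit 6) (nat_lit 13))
    (@En.n l16721 (nat_lit 8170) (nat_lit 6) (nat_lit 4))
    (@En.n l18231 (nat_lit 11626) (nat_lit 8) (nat_lit 9))
    (@En.n l7 (nat_lit 10935) (nat_lit 8) (nat_lit 3))
    (@En.n l3696 (nat_lit 11131) (nat_lit 9) (nat_lit 4))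
    (@En.n l644 (nat_lit 10932) (nat_lit 11) (nat_lit 12))
    (@En.n l17407 (nat_lit 6134) (nat_lit 12) (nat_lit 13))
    (@En.n l8765 (nat_lit 9639) (nat_lit 13) (nat_lit 7))
    (@En.n l19612 (nat_lit 9806) (nat_lit 14) (nat_lit 12))
    (@En.n l3518 (nat_lit 10152) (nat_lit 5) (nat_lit 6))
    (@En.n l17 (nat_lit 10936) (nat_lit 15) (nat_lit 2))))
  (@Cl.mk (nat_lit 0x20006000d000c00080003000d000400090003000d000a00080003000e0007) (nat_lit 0xba106050622070) (nat_lit 16) Lb.e (@T16.mk En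
    (@En.i (nat_lit 12006) (nat_lit 14) (nat_lit 7))
    (@En.n l1105 (nat_lit 9026) (nat_lit 1) (nat_lit 14))
    (@En.n l17679 (nat_lit 10939) (nat_lit 2) (nat_lit 3))
    (@En.n l20832 (nat_lit 12392) (nat_lit 3) (nat_lit 8))
    (@En.n l20833 (nat_lit 10943) (nat_lit 4) (nat_lit 10))
    (@En.n l20834 (nat_lit 11234) (nat_lit 6) (nat_lit 13))
    (@En.n l16721 (nat_lit 10933) (nat_lit 6) (nat_lit 3))
    (@En.n l16386 (nat_lit 11623) (nat_lit 0) (nat_lit 9))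
    (@En.n l20832 (nat_lit 11126) (nat_lit 8) (nat_lit 4))
    (@En.n l10398 (nat_lit 12146) (nat_lit 10) (nat_lit 13))
    (@En.n l28 (nat_lit 10935) (nat_lit 10) (nat_lit 3))
    (@En.n l20835 (nat_lit 6439) (nat_lit 12) (nat_lit 8))
    (@En.n l77 (nat_lit 10936) (nat_lit 13) (nat_lit 12))
    (@En.n l20836 (nat_lit 11456) (nat_lit 14) (nat_lit 13))
    (@En.n l20837 (nat_lit 8856) (nat_lit 13) (nat_lit 6))
    (@En.n l17 (nat_lit 10937) (nat_lit 15) (nat_lit 2))))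
  (@Cl.mk (nat_lit 0x20005000d0008000d0003000d000300090003000d0008000b0003000e0007) (nat_lit 0x70a06050661070) (nat_lit 16) Lb.e (@T16.mk En
    (@En.n l18604 (nat_lit 12017) (nat_lit 14) (nat_lit 7))
    (@En.n l18605 (nat_lit 10941) (nat_lit 1) (nat_lit 14))
    (@En.n l18606 (nat_lit 10935) (nat_lit 2) (nat_lit 3))
    (@En.n l770 (nat_lit 3618) (nat_lit 3) (nat_lit 11))
    (@En.n l564 (nat_lit 12329) (nat_lit 4) (nat_lit 8))
    (@En.n l770 (nat_lit 11239) (nat_lit 6) (nat_lit 13))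
    (@En.n l278 (nat_lit 10934) (nat_lit 6) (nat_lit 3))
    (@En.n l872 (nat_lit 11597) (nat_lit 0) (nat_lit 9))
    (@En.n l615 (nat_lit 10940) (nat_lit 8) (nat_lit 3))
    (@En.n l770 (nat_lit 3492) (nat_lit 10) (nat_lit 13))
    (@En.n l771 (nat_lit 10939) (nat_lit 10) (nat_lit 3))
    (@En.n l1643 (nat_lit 6135) (nat_lit 12) (nat_lit 13))
    (@En.n l872 (nat_lit 12316) (nat_lit 13) (nat_lit 8))
    (@En.i (nat_lit 11462) (nat_lit 14) (nat_lit 13))
    (@En.n l1367 (nat_lit 8815) (nat_lit 13) (nat_lit 5))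
    (@En.n l17 (nat_lit 10938) (nat_lit 15) (nat_lit 2))))
  (@Cl.mk (nat_lit 0x20005000d000c00090003000d000400090003000d0007000b0003000e0007) (nat_lit 0x6a006050602070) (nat_lit 16) Lb.e (@T16.mk En
    (@En.i (nat_lit 12007) (nat_lit 14) (nat_lit 7))
    (@En.n l2582 (nat_lit 10943) (nat_lit 1) (nat_lit 14))
    (@En.n l11308 (nat_lit 10937) (nat_lit 2) (nat_lit 3))
    (@En.n l2584 (nat_lit 3565) (nat_lit 3) (nat_lit 11))
    (@En.i (nat_lit 12358) (nat_lit 4) (nat_lit 7))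
    (@En.n l564 (nat_lit 11236) (nat_lit 6) (nat_lit 13))
    (@En.n l7 (nat_lit 8030) (nat_lit 6) (nat_lit 3))
    (@En.i (nat_lit 11600) (nat_lit 0) (nat_lit 9))
    (@En.n l2678 (nat_lit 11127) (nat_lit 8) (nat_lit 4))
    (@En.n l11219 (nat_lit 12145) (nat_lit 10) (nat_lit 13))
    (@En.n l238 (nat_lit 10938) (nat_lit 10) (nat_lit 3))
    (@En.i (nat_lit 11662) (nat_lit 12) (nat_lit 9))
    (@En.n l9740 (nat_lit 10940) (nat_lit 13) (nat_lit 12))
    (@En.n l1252 (nat_lit 11465) (nat_lit 14) (nat_lit 13))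
    (@En.i (nat_lit 10751) (nat_lit 13) (nat_lit 5))
    (@En.n l3 (nat_lit 10939) (nat_lit 15) (nat_lit 2))))
  (@Cl.mk (nat_lit 0x20005000c0008000d000c0004000300090004000d0008000b0003000e0007) (nat_lit 0x90b500506410a0) (nat_lit 16) Lb.e (@T16.mk En
    (@En.n l8202 (nat_lit 12018) (nat_lit 14) (nat_lit 7))
    (@En.n l8203 (nat_lit 11135) (nat_lit 1) (nat_lit 14))
    (@En.n l8204 (nat_lit 10936) (nat_lit 2) (nat_lit 3))
    (@En.n l8205 (nat_lit 3619) (nat_lit 3) (nat_lit 11))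
    (@En.n l1836 (nat_lit 12636) (nat_lit 4) (nat_lit 8))
    (@En.i (nat_lit 11237) (nat_lit 6) (nat_lit 13))
    (@En.n l1652 (nat_lit 8166) (nat_lit 6) (nat_lit 4))
    (@En.n l8206 (nat_lit 11628) (nat_lit 8) (nat_lit 9))
    (@En.n l731 (nat_lit 10938) (nat_lit 8) (nat_lit 3))
    (@En.n l8207 (nat_lit 11129) (nat_lit 9) (nat_lit 4))
    (@En.n l3463 (nat_lit 10934) (nat_lit 11) (nat_lit 12))
    (@En.i (nat_lit 6132) (nat_lit 12) (nat_lit 13))
    (@En.n l8208 (nat_lit 11139) (nat_lit 13) (nat_lit 8))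
    (@En.n l639 (nat_lit 9807) (nat_lit 14) (nat_lit 12))
    (@En.n l8209 (nat_lit 8913) (nat_lit 13) (nat_lit 5))
    (@En.n l18 (nat_lit 10940) (nat_lit 15) (nat_lit 2))))
  (@Cl.mk (nat_lit 0x200060005000d0008000d0003000d0003000a0003000a0008000b000e0006) (nat_lit 0xa680705014360) (nat_lit 16) Lb.e (@T16.mk En
    (@En.n l15602 (nat_lit 12058) (nat_lit 8) (nat_lit 6))
    (@En.i (nat_lit 8983) (nat_lit 4) (nat_lit 14))
    (@En.n l3866 (nat_lit 4029) (nat_lit 2) (nat_lit 11))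
    (@En.i (nat_lit 12637) (nat_lit 3) (nat_lit 8))
    (@En.n l20701 (nat_lit 7044) (nat_lit 4) (nat_lit 10))
    (@En.i (nat_lit 10942) (nat_lit 5) (nat_lit 3))
    (@En.i (nat_lit 11595) (nat_lit 0) (nat_lit 10))
    (@En.i (nat_lit 11135) (nat_lit 7) (nat_lit 3))
    (@En.n l5320 (nat_lit 3488) (nat_lit 9) (nat_lit 13))
    (@En.n l1236 (nat_lit 10943) (nat_lit 9) (nat_lit 3))
    (@En.n l5588 (nat_lit 6136) (nat_lit 11) (nat_lit 13))
    (@En.i (nat_lit 12063) (nat_lit 12) (nat_lit 8))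
    (@En.i (nat_lit 11299) (nat_lit 13) (nat_lit 13))
    (@En.n l23598 (nat_lit 10938) (nat_lit 14) (nat_lit 5))
    (@En.n l6593 (nat_lit 10197) (nat_lit 13) (nat_lit 6))
    (@En.n l17 (nat_lit 10941) (nat_lit 15) (nat_lit 2))))
  (@Cl.mk (nat_lit 0x200060005000d0008000c0003000d000900040003000a0008000b000e0007) (nat_lit 0x7650840025180) (nat_lit 16) Lb.e (@T16.mk En
    (@En.n l28738 (nat_lit 10925) (nat_lit 6) (nat_lit 7))
    (@En.i (nat_lit 10034) (nat_lit 4) (nat_lit 14))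
    (@En.n l3866 (nat_lit 3621) (nat_lit 2) (nat_lit 11))
    (@En.i (nat_lit 12635) (nat_lit 3) (nat_lit 8))
    (@En.n l10703 (nat_lit 10866) (nat_lit 4) (nat_lit 10))
    (@En.n l50 (nat_lit 10941) (nat_lit 5) (nat_lit 3))
    (@En.n l10264 (nat_lit 10987) (nat_lit 6) (nat_lit 4))
    (@En.n l217 (nat_lit 10367) (nat_lit 8) (nat_lit 9))
    (@En.n l6168 (nat_lit 3489) (nat_lit 9) (nat_lit 13))
    (@En.n l12857 (nat_lit 8031) (nat_lit 9) (nat_lit 3))
    (@En.n l10264 (nat_lit 9002) (nat_lit 11) (nat_lit 12))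
    (@En.n l20702 (nat_lit 12318) (nat_lit 12) (nat_lit 8))
    (@En.i (nat_lit 11300) (nat_lit 13) (nat_lit 13))
    (@En.n l29193 (nat_lit 10934) (nat_lit 14) (nat_lit 5))
    (@En.n l6593 (nat_lit 10199) (nat_lit 13) (nat_lit 6))
    (@En.n l17 (nat_lit 10942) (nat_lit 15) (nat_lit 2))))
  (@Cl.mk (nat_lit 0x200060005000d000c00090003000d0004000a0003000a0007000b000e0006) (nat_lit 0xba40705010260) (nat_lit 16) Lb.e (@T16.mk En
    (@En.n l18268 (nat_lit 12059) (nat_lit 6) (nat_lit 6))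
    (@En.n l9877 (nat_lit 8982) (nat_lit 4) (nat_lit 14))
    (@En.i (nat_lit 2860) (nat_lit 2) (nat_lit 11))
    (@En.n l28305 (nat_lit 12359) (nat_lit 3) (nat_lit 7))
    (@En.n l19308 (nat_lit 7045) (nat_lit 4) (nat_lit 10))
    (@En.n l15580 (nat_lit 8031) (nat_lit 5) (nat_lit 3))
    (@En.n l3155 (nat_lit 11599) (nat_lit 0) (nat_lit 10))
    (@En.n l33241 (nat_lit 11128) (nat_lit 7) (nat_lit 4))
    (@En.n l3519 (nat_lit 12141) (nat_lit 9) (nat_lit 13))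
    (@En.n l9876 (nat_lit 10941) (nat_lit 9) (nat_lit 3))
    (@En.n l3155 (nat_lit 11667) (nat_lit 11) (nat_lit 9))
    (@En.n l9879 (nat_lit 11135) (nat_lit 12) (nat_lit 12))
    (@En.n l28305 (nat_lit 11296) (nat_lit 13) (nat_lit 13))
    (@En.n l6145 (nat_lit 10939) (nat_lit 14) (nat_lit 5))
    (@En.n l1545 (nat_lit 10168) (nat_lit 13) (nat_lit 6))
    (@En.n l403 (nat_lit 10943) (nat_lit 15) (nat_lit 2))))
noncomputable def a684 : T16 Cl := @T16.mk Cl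
  (@Cl.mk (nat_lit 0x300080007000c0008000b00070004000a0008000500090008000d00060009) (nat_lit 0x402140086026503) (nat_lit 16) Lb.e (@T16.mk En
    (@En.n l12290 (nat_lit 11507) (nat_lit 0) (nat_lit 9))
    (@En.n l43325 (nat_lit 9590) (nat_lit 8) (nat_lit 6))
    (@En.n l14821 (nat_lit 9947) (nat_lit 2) (nat_lit 13))
    (@En.n l2491 (nat_lit 10945) (nat_lit 3) (nat_lit 8))
    (@En.n l43326 (nat_lit 10000) (nat_lit 4) (nat_lit 9))
    (@En.n l26714 (nat_lit 10653) (nat_lit 5) (nat_lit 5))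
    (@En.n l43327 (nat_lit 10622) (nat_lit 6) (nat_lit 8))
    (@En.n l43328 (nat_lit 10952) (nat_lit 1) (nat_lit 10))
    (@En.n l14250 (nat_lit 10593) (nat_lit 8) (nat_lit 4))
    (@En.n l29115 (nat_lit 10377) (nat_lit 0) (nat_lit 7))
    (@En.i (nat_lit 10957) (nat_lit 7) (nat_lit 11))
    (@En.n l17213 (nat_lit 2846) (nat_lit 12) (nat_lit 8))
    (@En.n l14821 (nat_lit 10403) (nat_lit 13) (nat_lit 12))
    (@En.n l18362 (nat_lit 10033) (nat_lit 14) (nat_lit 7))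
    (@En.n l932 (nat_lit 10842) (nat_lit 12) (nat_lit 8))
    (@En.n l43329 (nat_lit 10949) (nat_lit 15) (nat_lit 3))))
  (@Cl.mk (nat_lit 0x30007000d000b00080003000b00080005000b000900050008000d00050008) (nat_lit 0xa2105409705a03) (nat_lit 16) Lb.e (@T16.mk En
    (@En.n l8226 (nat_lit 11508) (nat_lit 0) (nat_lit 8))
    (@En.n l7834 (nat_lit 9588) (nat_lit 6) (nat_lit 5))
    (@En.n l8243 (nat_lit 11827) (nat_lit 8) (nat_lit 13))
    (@En.n l34535 (nat_lit 9771) (nat_lit 10) (nat_lit 8))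
    (@En.i (nat_lit 10656) (nat_lit 4) (nat_lit 5))
    (@En.n l34536 (nat_lit 10453) (nat_lit 5) (nat_lit 9))
    (@En.n l17532 (nat_lit 10950) (nat_lit 12) (nat_lit 11))
    (@En.n l10885 (nat_lit 10590) (nat_lit 7) (nat_lit 5))
    (@En.n l8243 (nat_lit 10374) (nat_lit 14) (nat_lit 8))
    (@En.n l6698 (nat_lit 10944) (nat_lit 10) (nat_lit 11))
    (@En.n l24242 (nat_lit 10946) (nat_lit 10) (nat_lit 3))
    (@En.n l4758 (nat_lit 2845) (nat_lit 0) (nat_lit 8))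
    (@En.n l24243 (nat_lit 10401) (nat_lit 13) (nat_lit 11))
    (@En.n l18663 (nat_lit 9583) (nat_lit 2) (nat_lit 13))
    (@En.n l34537 (nat_lit 10840) (nat_lit 12) (nat_lit 7))
    (@En.n l18875 (nat_lit 10947) (nat_lit 15) (nat_lit 3))))
  (@Cl.mk (nat_lit 0x30007000d0007000c0003000b00080004000b000900050009000d00050008) (nat_lit 0x90705209701400) (nat_lit 16) Lb.e (@T16.mk En
    (@En.n l152 (nat_lit 11511) (nat_lit 0) (nat_lit 8))
    (@En.n l25555 (nat_lit 9079) (nat_lit 6) (nat_lit 5))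
    (@En.i (nat_lit 11826) (nat_lit 8) (nat_lit 13))
    (@En.n l41951 (nat_lit 9761) (nat_lit 3) (nat_lit 9))
    (@En.n l2125 (nat_lit 10662) (nat_lit 4) (nat_lit 5))
    (@En.n l34578 (nat_lit 10452) (nat_lit 5) (nat_lit 9))
    (@En.n l13127 (nat_lit 10951) (nat_lit 12) (nat_lit 11))
    (@En.n l41952 (nat_lit 10692) (nat_lit 7) (nat_lit 4))
    (@En.i (nat_lit 10375) (nat_lit 14) (nat_lit 8))
    (@En.n l41953 (nat_lit 10953) (nat_lit 10) (nat_lit 11))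
    (@En.n l10773 (nat_lit 10945) (nat_lit 10) (nat_lit 3))
    (@En.n l4991 (nat_lit 9156) (nat_lit 0) (nat_lit 12))
    (@En.n l12274 (nat_lit 10944) (nat_lit 13) (nat_lit 7))
    (@En.n l899 (nat_lit 7400) (nat_lit 2) (nat_lit 13))
    (@En.n l38173 (nat_lit 10838) (nat_lit 12) (nat_lit 7))
    (@En.n l22650 (nat_lit 10948) (nat_lit 15) (nat_lit 3))))
  (@Cl.mk (nat_lit 0x30007000d000b00080003000b00090005000a000900050008000d00070006) (nat_lit 0xa4105608702a00) (nat_lit 16) Lb.e (@T16.mk En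
    (@En.n l4847 (nat_lit 7466) (nat_lit 0) (nat_lit 6))
    (@En.i (nat_lit 11071) (nat_lit 6) (nat_lit 7))
    (@En.n l34968 (nat_lit 11829) (nat_lit 8) (nat_lit 13))
    (@En.i (nat_lit 9770) (nat_lit 10) (nat_lit 8))
    (@En.n l1553 (nat_lit 10660) (nat_lit 4) (nat_lit 5))
    (@En.i (nat_lit 10449) (nat_lit 5) (nat_lit 9))
    (@En.n l36987 (nat_lit 11967) (nat_lit 12) (nat_lit 10))
    (@En.n l12290 (nat_lit 10589) (nat_lit 7) (nat_lit 5))
    (@En.n l22465 (nat_lit 10485) (nat_lit 14) (nat_lit 9))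
    (@En.i (nat_lit 10949) (nat_lit 10) (nat_lit 11))
    (@En.n l34970 (nat_lit 10948) (nat_lit 10) (nat_lit 3))
    (@En.n l3866 (nat_lit 2843) (nat_lit 0) (nat_lit 8))
    (@En.n l5 (nat_lit 10402) (nat_lit 13) (nat_lit 11))
    (@En.n l420 (nat_lit 9411) (nat_lit 2) (nat_lit 13))
    (@En.n l36988 (nat_lit 10953) (nat_lit 12) (nat_lit 7))
    (@En.n l7839 (nat_lit 10945) (nat_lit 15) (nat_lit 3))))
  (@Cl.mk (nat_lit 0x30007000d0007000c0003000b00090004000a000900050009000d00070006) (nat_lit 0x90605308101400) (nat_lit 16) Lb.e (@T16.mk En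
    (@En.n l43487 (nat_lit 7462) (nat_lit 0) (nat_lit 6))
    (@En.n l29960 (nat_lit 11070) (nat_lit 6) (nat_lit 7))
    (@En.i (nat_lit 11830) (nat_lit 8) (nat_lit 13))
    (@En.n l43488 (nat_lit 9759) (nat_lit 3) (nat_lit 9))
    (@En.n l13634 (nat_lit 10665) (nat_lit 4) (nat_lit 5))
    (@En.n l4365 (nat_lit 10446) (nat_lit 5) (nat_lit 9))
    (@En.n l2642 (nat_lit 11966) (nat_lit 12) (nat_lit 10))
    (@En.n l43489 (nat_lit 10693) (nat_lit 7) (nat_lit 4))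
    (@En.n l21124 (nat_lit 10486) (nat_lit 14) (nat_lit 9))
    (@En.n l23207 (nat_lit 10956) (nat_lit 10) (nat_lit 11))
    (@En.n l19240 (nat_lit 10947) (nat_lit 10) (nat_lit 3))
    (@En.n l14711 (nat_lit 9157) (nat_lit 0) (nat_lit 12))
    (@En.n l28542 (nat_lit 10949) (nat_lit 13) (nat_lit 7))
    (@En.n l7507 (nat_lit 9410) (nat_lit 2) (nat_lit 13))
    (@En.n l42588 (nat_lit 10955) (nat_lit 12) (nat_lit 7))
    (@En.n l21124 (nat_lit 10946) (nat_lit 15) (nat_lit 3))))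
  (@Cl.mk (nat_lit 0x300080007000c0008000b0008000400090008000500090008000d00080007) (nat_lit 0x404145071033510) (nat_lit 16) Lb.e (@T16.mk En
    (@En.n l42022 (nat_lit 7469) (nat_lit 0) (nat_lit 7))
    (@En.n l36021 (nat_lit 10733) (nat_lit 9) (nat_lit 8))
    (@En.n l19520 (nat_lit 11475) (nat_lit 2) (nat_lit 13))
    (@En.n l17 (nat_lit 10947) (nat_lit 3) (nat_lit 8))
    (@En.n l22637 (nat_lit 9039) (nat_lit 4) (nat_lit 9))
    (@En.n l1553 (nat_lit 10659) (nat_lit 5) (nat_lit 5))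
    (@En.i (nat_lit 10451) (nat_lit 6) (nat_lit 8))
    (@En.n l36987 (nat_lit 11968) (nat_lit 1) (nat_lit 9))
    (@En.n l42023 (nat_lit 10592) (nat_lit 8) (nat_lit 4))
    (@En.n l22783 (nat_lit 10488) (nat_lit 0) (nat_lit 8))
    (@En.n l38335 (nat_lit 11587) (nat_lit 7) (nat_lit 11))
    (@En.n l42024 (nat_lit 2844) (nat_lit 12) (nat_lit 8))
    (@En.n l36314 (nat_lit 10404) (nat_lit 13) (nat_lit 12))
    (@En.n l42023 (nat_lit 10732) (nat_lit 14) (nat_lit 7))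
    (@En.n l36988 (nat_lit 10954) (nat_lit 5) (nat_lit 8))
    (@En.n l42025 (nat_lit 10944) (nat_lit 15) (nat_lit 3))))
  (@Cl.mk (nat_lit 0x3000c0008000b000800040007000c0005000b000800040008000d00050009) (nat_lit 0x848600502403401) (nat_lit 16) Lb.e (@T16.mk En
    (@En.n l11845 (nat_lit 2849) (nat_lit 0) (nat_lit 9))
    (@En.n l25521 (nat_lit 11084) (nat_lit 6) (nat_lit 5))
    (@En.i (nat_lit 7397) (nat_lit 2) (nat_lit 13))
    (@En.n l3327 (nat_lit 10844) (nat_lit 11) (nat_lit 8))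
    (@En.n l20560 (nat_lit 11967) (nat_lit 4) (nat_lit 4))
    (@En.n l18712 (nat_lit 10945) (nat_lit 0) (nat_lit 8))
    (@En.n l5646 (nat_lit 9943) (nat_lit 1) (nat_lit 11))
    (@En.n l3348 (nat_lit 9587) (nat_lit 7) (nat_lit 5))
    (@En.n l34573 (nat_lit 11828) (nat_lit 9) (nat_lit 12))
    (@En.i (nat_lit 9772) (nat_lit 11) (nat_lit 7))
    (@En.n l50 (nat_lit 10658) (nat_lit 10) (nat_lit 4))
    (@En.n l13713 (nat_lit 12023) (nat_lit 0) (nat_lit 8))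
    (@En.i (nat_lit 11680) (nat_lit 7) (nat_lit 11))
    (@En.n l34573 (nat_lit 10372) (nat_lit 14) (nat_lit 8))
    (@En.n l4065 (nat_lit 10952) (nat_lit 3) (nat_lit 12))
    (@En.n l6269 (nat_lit 10951) (nat_lit 15) (nat_lit 3))))
  (@Cl.mk (nat_lit 0x3000c0008000b000800040008000c0005000a000800040008000d00080006) (nat_lit 0x828602507103340) (nat_lit 16) Lb.e (@T16.mk En
    (@En.n l29592 (nat_lit 11436) (nat_lit 0) (nat_lit 6))
    (@En.n l29593 (nat_lit 10952) (nat_lit 6) (nat_lit 8))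
    (@En.n l15533 (nat_lit 7395) (nat_lit 2) (nat_lit 13))
    (@En.n l29594 (nat_lit 10843) (nat_lit 11) (nat_lit 8))
    (@En.n l29595 (nat_lit 11966) (nat_lit 4) (nat_lit 4))
    (@En.n l13675 (nat_lit 10946) (nat_lit 0) (nat_lit 8))
    (@En.n l21097 (nat_lit 9958) (nat_lit 1) (nat_lit 10))
    (@En.n l13923 (nat_lit 9080) (nat_lit 7) (nat_lit 5))
    (@En.n l29596 (nat_lit 11797) (nat_lit 7) (nat_lit 12))
    (@En.n l29597 (nat_lit 10201) (nat_lit 11) (nat_lit 8))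
    (@En.i (nat_lit 10672) (nat_lit 10) (nat_lit 4))
    (@En.n l29598 (nat_lit 12022) (nat_lit 0) (nat_lit 8))
    (@En.n l15533 (nat_lit 11685) (nat_lit 7) (nat_lit 11))
    (@En.n l29596 (nat_lit 10373) (nat_lit 14) (nat_lit 8))
    (@En.n l29599 (nat_lit 10954) (nat_lit 3) (nat_lit 12))
    (@En.n l15541 (nat_lit 10950) (nat_lit 15) (nat_lit 3))))
  (@Cl.mk (nat_lit 0x400080007000c0006000b000900040009000800050009000c0007000a0007) (nat_lit 0x206024063017070) (nat_lit 16) Lb.e (@T16.mk En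
    (@En.n l20417 (nat_lit 12024) (nat_lit 0) (nat_lit 7))
    (@En.n l15345 (nat_lit 11677) (nat_lit 8) (nat_lit 10))
    (@En.n l41732 (nat_lit 10378) (nat_lit 10) (nat_lit 7))
    (@En.n l20417 (nat_lit 11317) (nat_lit 6) (nat_lit 12))
    (@En.n l699 (nat_lit 2850) (nat_lit 10) (nat_lit 9))
    (@En.n l41733 (nat_lit 11085) (nat_lit 5) (nat_lit 5))
    (@En.i (nat_lit 10604) (nat_lit 8) (nat_lit 8))
    (@En.n l25042 (nat_lit 11943) (nat_lit 11) (nat_lit 9))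
    (@En.n l41734 (nat_lit 11968) (nat_lit 8) (nat_lit 4))
    (@En.n l41735 (nat_lit 10944) (nat_lit 0) (nat_lit 9))
    (@En.n l20423 (nat_lit 9945) (nat_lit 1) (nat_lit 11))
    (@En.n l6623 (nat_lit 9589) (nat_lit 5) (nat_lit 6))
    (@En.n l41736 (nat_lit 9948) (nat_lit 13) (nat_lit 12))
    (@En.n l15347 (nat_lit 10950) (nat_lit 9) (nat_lit 7))
    (@En.n l41737 (nat_lit 10004) (nat_lit 11) (nat_lit 8))
    (@En.n l1232 (nat_lit 10657) (nat_lit 15) (nat_lit 4))))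
  (@Cl.mk (nat_lit 0x3000800070007000d000b00070003000a0008000500090009000d00060009) (nat_lit 0x600a40061022502) (nat_lit 16) Lb.e (@T16.mk En
    (@En.n l2038 (nat_lit 8969) (nat_lit 0) (nat_lit 9))
    (@En.n l36214 (nat_lit 8183) (nat_lit 8) (nat_lit 6))
    (@En.n l24389 (nat_lit 11470) (nat_lit 10) (nat_lit 13))
    (@En.n l39077 (nat_lit 11424) (nat_lit 7) (nat_lit 9))
    (@En.n l36216 (nat_lit 9999) (nat_lit 4) (nat_lit 9))
    (@En.n l9447 (nat_lit 11441) (nat_lit 5) (nat_lit 5))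
    (@En.n l39078 (nat_lit 61) (nat_lit 6) (nat_lit 8))
    (@En.i (nat_lit 10954) (nat_lit 1) (nat_lit 10))
    (@En.n l28 (nat_lit 10955) (nat_lit 8) (nat_lit 3))
    (@En.n l24389 (nat_lit 3185) (nat_lit 0) (nat_lit 7))
    (@En.i (nat_lit 10906) (nat_lit 11) (nat_lit 11))
    (@En.n l39079 (nat_lit 10066) (nat_lit 12) (nat_lit 13))
    (@En.n l39080 (nat_lit 10957) (nat_lit 9) (nat_lit 7))
    (@En.i (nat_lit 10891) (nat_lit 14) (nat_lit 7))
    (@En.n l39081 (nat_lit 11477) (nat_lit 5) (nat_lit 8))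
    (@En.n l36213 (nat_lit 10956) (nat_lit 15) (nat_lit 3))))
  (@Cl.mk (nat_lit 0x400080008000c0006000a000900040009000800080006000c0007000a0007) (nat_lit 0x128043054307050) (nat_lit 16) Lb.e (@T16.mk En
    (@En.n l36208 (nat_lit 10349) (nat_lit 0) (nat_lit 7))
    (@En.n l36209 (nat_lit 11329) (nat_lit 8) (nat_lit 10))
    (@En.n l36210 (nat_lit 3184) (nat_lit 10) (nat_lit 7))
    (@En.n l33039 (nat_lit 10904) (nat_lit 11) (nat_lit 12))
    (@En.n l345 (nat_lit 10481) (nat_lit 4) (nat_lit 6))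
    (@En.n l36211 (nat_lit 11317) (nat_lit 8) (nat_lit 8))
    (@En.i (nat_lit 10893) (nat_lit 8) (nat_lit 8))
    (@En.n l36212 (nat_lit 11478) (nat_lit 11) (nat_lit 9))
    (@En.n l36213 (nat_lit 11405) (nat_lit 8) (nat_lit 4))
    (@En.n l22188 (nat_lit 10953) (nat_lit 0) (nat_lit 9))
    (@En.i (nat_lit 10466) (nat_lit 9) (nat_lit 10))
    (@En.n l36214 (nat_lit 8185) (nat_lit 12) (nat_lit 6))
    (@En.n l24389 (nat_lit 11474) (nat_lit 7) (nat_lit 12))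
    (@En.n l36215 (nat_lit 11425) (nat_lit 8) (nat_lit 8))
    (@En.n l36216 (nat_lit 10001) (nat_lit 11) (nat_lit 8))
    (@En.n l36217 (nat_lit 11444) (nat_lit 15) (nat_lit 4))))
  (@Cl.mk (nat_lit 0x3000800070007000d0006000c0003000a0008000400090009000d0006000a) (nat_lit 0x400901064022907) (nat_lit 16) Lb.e (@T16.mk En
    (@En.n l2038 (nat_lit 9098) (nat_lit 0) (nat_lit 10))
    (@En.n l43618 (nat_lit 8184) (nat_lit 8) (nat_lit 6))
    (@En.n l1110 (nat_lit 11469) (nat_lit 10) (nat_lit 13))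
    (@En.n l22769 (nat_lit 11423) (nat_lit 7) (nat_lit 9))
    (@En.n l43619 (nat_lit 9998) (nat_lit 4) (nat_lit 9))
    (@En.n l19536 (nat_lit 10702) (nat_lit 5) (nat_lit 4))
    (@En.n l43620 (nat_lit 10454) (nat_lit 14) (nat_lit 8))
    (@En.i (nat_lit 9934) (nat_lit 1) (nat_lit 10))
    (@En.i (nat_lit 10953) (nat_lit 8) (nat_lit 3))
    (@En.n l31897 (nat_lit 5591) (nat_lit 0) (nat_lit 12))
    (@En.n l10969 (nat_lit 10954) (nat_lit 4) (nat_lit 6))
    (@En.n l18945 (nat_lit 10068) (nat_lit 12) (nat_lit 13))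
    (@En.n l43621 (nat_lit 11316) (nat_lit 9) (nat_lit 7))
    (@En.i (nat_lit 10892) (nat_lit 14) (nat_lit 7))
    (@En.n l43271 (nat_lit 11414) (nat_lit 5) (nat_lit 8))
    (@En.i (nat_lit 11420) (nat_lit 15) (nat_lit 3))))
  (@Cl.mk (nat_lit 0x3000800070007000d000b0008000300090008000500090009000d00080007) (nat_lit 0x400a46025035500) (nat_lit 16) Lb.e (@T16.mk En
    (@En.n l18 (nat_lit 8052) (nat_lit 0) (nat_lit 7))
    (@En.n l6081 (nat_lit 11080) (nat_lit 9) (nat_lit 8))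
    (@En.n l3548 (nat_lit 11467) (nat_lit 10) (nat_lit 13))
    (@En.n l575 (nat_lit 11422) (nat_lit 7) (nat_lit 9))
    (@En.i (nat_lit 9037) (nat_lit 4) (nat_lit 9))
    (@En.n l3 (nat_lit 11442) (nat_lit 5) (nat_lit 5))
    (@En.n l23504 (nat_lit 10454) (nat_lit 6) (nat_lit 8))
    (@En.i (nat_lit 11405) (nat_lit 1) (nat_lit 9))
    (@En.n l31721 (nat_lit 11420) (nat_lit 8) (nat_lit 3))
    (@En.n l31722 (nat_lit 9858) (nat_lit 0) (nat_lit 8))
    (@En.n l31723 (nat_lit 10909) (nat_lit 11) (nat_lit 11))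
    (@En.n l27329 (nat_lit 10067) (nat_lit 12) (nat_lit 13))
    (@En.n l31724 (nat_lit 11587) (nat_lit 9) (nat_lit 7))
    (@En.n l31725 (nat_lit 10898) (nat_lit 14) (nat_lit 7))
    (@En.n l31726 (nat_lit 9934) (nat_lit 5) (nat_lit 8))
    (@En.n l31727 (nat_lit 10953) (nat_lit 15) (nat_lit 3))))
  (@Cl.mk (nat_lit 0x2000d0007000a000300090007000d000b00060003000900070005000e0009) (nat_lit 0x802040730050093) (nat_lit 16) Lb.e (@T16.mk En
    (@En.n l31695 (nat_lit 10953) (nat_lit 4) (nat_lit 9))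
    (@En.n l12290 (nat_lit 5439) (nat_lit 1) (nat_lit 14))
    (@En.n l7630 (nat_lit 11618) (nat_lit 2) (nat_lit 5))
    (@En.n l936 (nat_lit 4707) (nat_lit 3) (nat_lit 7))
    (@En.n l26819 (nat_lit 11317) (nat_lit 4) (nat_lit 9))
    (@En.n l14250 (nat_lit 11316) (nat_lit 5) (nat_lit 3))
    (@En.n l12290 (nat_lit 5065) (nat_lit 0) (nat_lit 6))
    (@En.n l68 (nat_lit 10908) (nat_lit 8) (nat_lit 11))
    (@En.n l7630 (nat_lit 10223) (nat_lit 9) (nat_lit 13))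
    (@En.n l18362 (nat_lit 10884) (nat_lit 14) (nat_lit 7))
    (@En.n l932 (nat_lit 11480) (nat_lit 11) (nat_lit 9))
    (@En.i (nat_lit 11587) (nat_lit 11) (nat_lit 3))
    (@En.n l12290 (nat_lit 9096) (nat_lit 0) (nat_lit 10))
    (@En.n l10453 (nat_lit 8179) (nat_lit 14) (nat_lit 7))
    (@En.i (nat_lit 10840) (nat_lit 2) (nat_lit 13))
    (@En.n l7 (nat_lit 10957) (nat_lit 15) (nat_lit 2))))
  (@Cl.mk (nat_lit 0x3000c0007000c000a000400070004000c000b000600090004000d00050009) (nat_lit 0xa094000a9070402) (nat_lit 16) Lb.e (@T16.mk En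
    (@En.n l2385 (nat_lit 6739) (nat_lit 0) (nat_lit 9))
    (@En.n l21244 (nat_lit 10961) (nat_lit 6) (nat_lit 5))
    (@En.n l17159 (nat_lit 10604) (nat_lit 2) (nat_lit 13))
    (@En.n l24951 (nat_lit 4316) (nat_lit 3) (nat_lit 4))
    (@En.n l2385 (nat_lit 10976) (nat_lit 9) (nat_lit 9))
    (@En.n l4879 (nat_lit 2837) (nat_lit 5) (nat_lit 6))
    (@En.n l24939 (nat_lit 10897) (nat_lit 5) (nat_lit 11))
    (@En.n l9938 (nat_lit 11614) (nat_lit 8) (nat_lit 12))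
    (@En.n l11 (nat_lit 10476) (nat_lit 8) (nat_lit 4))
    (@En.i (nat_lit 8096) (nat_lit 11) (nat_lit 7))
    (@En.n l43355 (nat_lit 4176) (nat_lit 10) (nat_lit 4))
    (@En.i (nat_lit 10410) (nat_lit 0) (nat_lit 10))
    (@En.n l1144 (nat_lit 10226) (nat_lit 1) (nat_lit 12))
    (@En.n l22603 (nat_lit 10408) (nat_lit 14) (nat_lit 7))
    (@En.i (nat_lit 10411) (nat_lit 11) (nat_lit 12))
    (@En.n l24955 (nat_lit 10959) (nat_lit 15) (nat_lit 3))))
  (@Cl.mk (nat_lit 0x3000c0007000c000a000400080004000c000a000600090004000d00080006) (nat_lit 0xa04603093010310) (nat_lit 16) Lb.e (@T16.mk En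
    (@En.n l7081 (nat_lit 6547) (nat_lit 0) (nat_lit 6))
    (@En.n l39631 (nat_lit 10411) (nat_lit 14) (nat_lit 8))
    (@En.n l1415 (nat_lit 10029) (nat_lit 2) (nat_lit 13))
    (@En.n l39632 (nat_lit 4317) (nat_lit 3) (nat_lit 4))
    (@En.i (nat_lit 7483) (nat_lit 9) (nat_lit 9))
    (@En.n l39633 (nat_lit 4296) (nat_lit 5) (nat_lit 6))
    (@En.n l39634 (nat_lit 8715) (nat_lit 6) (nat_lit 10))
    (@En.n l39635 (nat_lit 11615) (nat_lit 8) (nat_lit 12))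
    (@En.n l7270 (nat_lit 10478) (nat_lit 8) (nat_lit 4))
    (@En.n l617 (nat_lit 10431) (nat_lit 11) (nat_lit 8))
    (@En.n l17 (nat_lit 12064) (nat_lit 10) (nat_lit 4))
    (@En.n l39636 (nat_lit 10960) (nat_lit 0) (nat_lit 10))
    (@En.n l17023 (nat_lit 10225) (nat_lit 1) (nat_lit 12))
    (@En.n l39637 (nat_lit 10712) (nat_lit 14) (nat_lit 7))
    (@En.n l7081 (nat_lit 10344) (nat_lit 3) (nat_lit 12))
    (@En.n l1807 (nat_lit 10958) (nat_lit 15) (nat_lit 3))))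
noncomputable def a685 : T16 Cl := @T16.mk Cl
  (@Cl.mk (nat_lit 0x30007000c000b00090006000400090005000d000900070003000d0007000a) (nat_lit 0x55300204100b05) (nat_lit 16) Lb.e (@T16.mk En
    (@En.n l32284 (nat_lit 7049) (nat_lit 0) (nat_lit 10))
    (@En.i (nat_lit 10713) (nat_lit 14) (nat_lit 7))
    (@En.i (nat_lit 10346) (nat_lit 2) (nat_lit 13))
    (@En.n l32285 (nat_lit 10410) (nat_lit 3) (nat_lit 3))
    (@En.i (nat_lit 6544) (nat_lit 0) (nat_lit 7))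
    (@En.n l25677 (nat_lit 10407) (nat_lit 5) (nat_lit 9))
    (@En.n l134 (nat_lit 10030) (nat_lit 7) (nat_lit 13))
    (@En.i (nat_lit 10009) (nat_lit 7) (nat_lit 5))
    (@En.n l32286 (nat_lit 10959) (nat_lit 4) (nat_lit 9))
    (@En.n l32287 (nat_lit 10699) (nat_lit 9) (nat_lit 4))
    (@En.n l32288 (nat_lit 4295) (nat_lit 0) (nat_lit 6))
    (@En.n l2824 (nat_lit 10250) (nat_lit 1) (nat_lit 9))
    (@En.n l32289 (nat_lit 12008) (nat_lit 13) (nat_lit 11))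
    (@En.n l2824 (nat_lit 9206) (nat_lit 14) (nat_lit 12))
    (@En.n l14253 (nat_lit 10434) (nat_lit 12) (nat_lit 7))
    (@En.n l32290 (nat_lit 12022) (nat_lit 15) (nat_lit 3))))
  (@Cl.mk (nat_lit 0x400070004000b000b000a0007000a0005000500090006000c0006000c0009) (nat_lit 0x9740400504022) (nat_lit 16) Lb.e (@T16.mk En
    (@En.n l11663 (nat_lit 10962) (nat_lit 0) (nat_lit 9))
    (@En.n l22524 (nat_lit 4433) (nat_lit 1) (nat_lit 12))
    (@En.n l25037 (nat_lit 11055) (nat_lit 4) (nat_lit 6))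
    (@En.n l37054 (nat_lit 8563) (nat_lit 3) (nat_lit 12))
    (@En.n l50 (nat_lit 5170) (nat_lit 6) (nat_lit 6))
    (@En.n l287 (nat_lit 8779) (nat_lit 10) (nat_lit 9))
    (@En.n l55 (nat_lit 8560) (nat_lit 11) (nat_lit 5))
    (@En.n l37055 (nat_lit 4321) (nat_lit 7) (nat_lit 5))
    (@En.i (nat_lit 8550) (nat_lit 8) (nat_lit 10))
    (@En.n l15053 (nat_lit 5986) (nat_lit 1) (nat_lit 7))
    (@En.n l134 (nat_lit 10959) (nat_lit 6) (nat_lit 10))
    (@En.n l37056 (nat_lit 10968) (nat_lit 5) (nat_lit 11))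
    (@En.n l37057 (nat_lit 9850) (nat_lit 13) (nat_lit 11))
    (@En.n l2221 (nat_lit 11158) (nat_lit 15) (nat_lit 4))
    (@En.n l617 (nat_lit 11187) (nat_lit 11) (nat_lit 7))
    (@En.n l15186 (nat_lit 11543) (nat_lit 1) (nat_lit 4))))
  (@Cl.mk (nat_lit 0x30006000b000a000a000900070005000a00060006000a0007000d00060009) (nat_lit 0x94640050060b01) (nat_lit 16) Lb.e (@T16.mk En
    (@En.n l8303 (nat_lit 1682) (nat_lit 0) (nat_lit 9))
    (@En.n l21196 (nat_lit 11054) (nat_lit 8) (nat_lit 6))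
    (@En.n l15628 (nat_lit 10963) (nat_lit 2) (nat_lit 13))
    (@En.n l19313 (nat_lit 5172) (nat_lit 3) (nat_lit 7))
    (@En.n l15635 (nat_lit 8783) (nat_lit 4) (nat_lit 10))
    (@En.n l21197 (nat_lit 10965) (nat_lit 10) (nat_lit 6))
    (@En.i (nat_lit 7190) (nat_lit 6) (nat_lit 6))
    (@En.n l21198 (nat_lit 10961) (nat_lit 8) (nat_lit 10))
    (@En.i (nat_lit 10967) (nat_lit 8) (nat_lit 5))
    (@En.n l21199 (nat_lit 5985) (nat_lit 9) (nat_lit 7))
    (@En.n l21200 (nat_lit 10960) (nat_lit 11) (nat_lit 9))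
    (@En.n l21201 (nat_lit 10966) (nat_lit 6) (nat_lit 10))
    (@En.n l21202 (nat_lit 11948) (nat_lit 13) (nat_lit 10))
    (@En.n l21203 (nat_lit 10419) (nat_lit 14) (nat_lit 11))
    (@En.i (nat_lit 11185) (nat_lit 12) (nat_lit 6))
    (@En.n l16417 (nat_lit 10964) (nat_lit 15) (nat_lit 3))))
  (@Cl.mk (nat_lit 0x3000b0006000b000a000a000500080005000b00060006000a000d00050008) (nat_lit 0x509570203006a01) (nat_lit 16) Lb.e (@T16.mk En
    (@En.n l2299 (nat_lit 1680) (nat_lit 10) (nat_lit 8))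
    (@En.n l2129 (nat_lit 11400) (nat_lit 7) (nat_lit 5))
    (@En.n l1003 (nat_lit 11566) (nat_lit 5) (nat_lit 13))
    (@En.i (nat_lit 8781) (nat_lit 9) (nat_lit 10))
    (@En.n l11401 (nat_lit 11496) (nat_lit 10) (nat_lit 6))
    (@En.n l18752 (nat_lit 7189) (nat_lit 5) (nat_lit 6))
    (@En.n l34694 (nat_lit 8563) (nat_lit 7) (nat_lit 11))
    (@En.n l1003 (nat_lit 8002) (nat_lit 7) (nat_lit 5))
    (@En.n l699 (nat_lit 7887) (nat_lit 10) (nat_lit 8))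
    (@En.n l17 (nat_lit 11441) (nat_lit 9) (nat_lit 5))
    (@En.n l8906 (nat_lit 10970) (nat_lit 6) (nat_lit 10))
    (@En.n l11403 (nat_lit 11946) (nat_lit 6) (nat_lit 10))
    (@En.n l36925 (nat_lit 11935) (nat_lit 13) (nat_lit 11))
    (@En.n l6311 (nat_lit 10962) (nat_lit 14) (nat_lit 6))
    (@En.i (nat_lit 9851) (nat_lit 13) (nat_lit 11))
    (@En.n l16865 (nat_lit 11498) (nat_lit 15) (nat_lit 3))))
  (@Cl.mk (nat_lit 0x30006000b000a000a000900080005000900060006000a0007000d00080007) (nat_lit 0x96864020050350) (nat_lit 16) Lb.e (@T16.mk En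
    (@En.n l37064 (nat_lit 12121) (nat_lit 0) (nat_lit 7))
    (@En.n l37065 (nat_lit 9861) (nat_lit 2) (nat_lit 8))
    (@En.n l2934 (nat_lit 11498) (nat_lit 2) (nat_lit 13))
    (@En.i (nat_lit 5301) (nat_lit 3) (nat_lit 7))
    (@En.n l23006 (nat_lit 8787) (nat_lit 4) (nat_lit 10))
    (@En.n l31518 (nat_lit 11499) (nat_lit 10) (nat_lit 6))
    (@En.n l17324 (nat_lit 9883) (nat_lit 6) (nat_lit 6))
    (@En.n l37066 (nat_lit 11543) (nat_lit 10) (nat_lit 9))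
    (@En.n l31520 (nat_lit 11154) (nat_lit 8) (nat_lit 5))
    (@En.n l23006 (nat_lit 12471) (nat_lit 8) (nat_lit 8))
    (@En.n l37067 (nat_lit 12022) (nat_lit 11) (nat_lit 9))
    (@En.n l30753 (nat_lit 11551) (nat_lit 6) (nat_lit 10))
    (@En.n l37067 (nat_lit 11949) (nat_lit 13) (nat_lit 10))
    (@En.n l37068 (nat_lit 10418) (nat_lit 14) (nat_lit 11))
    (@En.n l17329 (nat_lit 5150) (nat_lit 12) (nat_lit 6))
    (@En.n l6959 (nat_lit 10962) (nat_lit 15) (nat_lit 3))))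
  (@Cl.mk (nat_lit 0x2000a00080006000b0006000a0006000d0005000800030006000a000e000a) (nat_lit 0x540505040300875) (nat_lit 16) Lb.e (@T16.mk En
    (@En.n l21563 (nat_lit 10962) (nat_lit 12) (nat_lit 10))
    (@En.n l3324 (nat_lit 6918) (nat_lit 1) (nat_lit 14))
    (@En.n l12369 (nat_lit 11041) (nat_lit 2) (nat_lit 10))
    (@En.n l14973 (nat_lit 11190) (nat_lit 12) (nat_lit 6))
    (@En.n l21564 (nat_lit 11499) (nat_lit 4) (nat_lit 3))
    (@En.n l8854 (nat_lit 1703) (nat_lit 0) (nat_lit 8))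
    (@En.n l21565 (nat_lit 11594) (nat_lit 6) (nat_lit 5))
    (@En.n l50 (nat_lit 11496) (nat_lit 8) (nat_lit 13))
    (@En.n l7611 (nat_lit 6582) (nat_lit 8) (nat_lit 6))
    (@En.n l7611 (nat_lit 7239) (nat_lit 10) (nat_lit 10))
    (@En.n l21566 (nat_lit 9546) (nat_lit 5) (nat_lit 6))
    (@En.n l21567 (nat_lit 8560) (nat_lit 12) (nat_lit 11))
    (@En.n l21568 (nat_lit 11155) (nat_lit 13) (nat_lit 6))
    (@En.n l5934 (nat_lit 5979) (nat_lit 14) (nat_lit 8))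
    (@En.n l21569 (nat_lit 10025) (nat_lit 10) (nat_lit 10))
    (@En.n l3 (nat_lit 10965) (nat_lit 15) (nat_lit 2))))
  (@Cl.mk (nat_lit 0x2000a0008000d0007000a00030006000c000a0008000600040009000e0006) (nat_lit 0x73a0300855003a0) (nat_lit 16) Lb.e (@T16.mk En
    (@En.n l8956 (nat_lit 10962) (nat_lit 6) (nat_lit 6))
    (@En.i (nat_lit 6394) (nat_lit 1) (nat_lit 14))
    (@En.n l8957 (nat_lit 10968) (nat_lit 2) (nat_lit 9))
    (@En.n l8958 (nat_lit 11168) (nat_lit 3) (nat_lit 4))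
    (@En.n l8959 (nat_lit 7882) (nat_lit 4) (nat_lit 6))
    (@En.n l2902 (nat_lit 10246) (nat_lit 5) (nat_lit 8))
    (@En.n l217 (nat_lit 10541) (nat_lit 13) (nat_lit 10))
    (@En.n l2902 (nat_lit 11900) (nat_lit 8) (nat_lit 12))
    (@En.n l8960 (nat_lit 11183) (nat_lit 12) (nat_lit 6))
    (@En.n l117 (nat_lit 11551) (nat_lit 9) (nat_lit 3))
    (@En.n l8961 (nat_lit 1679) (nat_lit 0) (nat_lit 10))
    (@En.n l8962 (nat_lit 11052) (nat_lit 12) (nat_lit 7))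
    (@En.n l28 (nat_lit 10970) (nat_lit 13) (nat_lit 13))
    (@En.n l2900 (nat_lit 5171) (nat_lit 14) (nat_lit 8))
    (@En.n l3928 (nat_lit 8429) (nat_lit 4) (nat_lit 10))
    (@En.n l17 (nat_lit 10966) (nat_lit 15) (nat_lit 2))))
  (@Cl.mk (nat_lit 0x30006000b0004000b000b000a0005000a00050005000a0006000d0006000c) (nat_lit 0x90763020050502) (nat_lit 16) Lb.e (@T16.mk En
    (@En.n l619 (nat_lit 7643) (nat_lit 0) (nat_lit 12))
    (@En.i (nat_lit 10276) (nat_lit 4) (nat_lit 6))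
    (@En.n l31513 (nat_lit 8002) (nat_lit 2) (nat_lit 13))
    (@En.n l19313 (nat_lit 5174) (nat_lit 3) (nat_lit 6))
    (@En.n l30269 (nat_lit 9984) (nat_lit 4) (nat_lit 10))
    (@En.n l3787 (nat_lit 11155) (nat_lit 11) (nat_lit 5))
    (@En.i (nat_lit 11098) (nat_lit 6) (nat_lit 5))
    (@En.n l12788 (nat_lit 8520) (nat_lit 0) (nat_lit 10))
    (@En.n l16161 (nat_lit 11151) (nat_lit 8) (nat_lit 5))
    (@En.n l2337 (nat_lit 10699) (nat_lit 10) (nat_lit 10))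
    (@En.n l601 (nat_lit 11168) (nat_lit 5) (nat_lit 11))
    (@En.n l18989 (nat_lit 11771) (nat_lit 12) (nat_lit 11))
    (@En.n l31514 (nat_lit 10961) (nat_lit 13) (nat_lit 4))
    (@En.n l16180 (nat_lit 11834) (nat_lit 0) (nat_lit 11))
    (@En.i (nat_lit 11188) (nat_lit 12) (nat_lit 6))
    (@En.i (nat_lit 11154) (nat_lit 15) (nat_lit 3))))
  (@Cl.mk (nat_lit 0x200090007000c0007000c000a000400070004000b000900060009000e0005) (nat_lit 0x60a0440006102a0) (nat_lit 16) Lb.e (@T16.mk En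
    (@En.n l21244 (nat_lit 10961) (nat_lit 7) (nat_lit 5))
    (@En.n l21245 (nat_lit 9064) (nat_lit 1) (nat_lit 14))
    (@En.n l21246 (nat_lit 8193) (nat_lit 9) (nat_lit 9))
    (@En.n l21247 (nat_lit 7884) (nat_lit 3) (nat_lit 6))
    (@En.n l10969 (nat_lit 10249) (nat_lit 4) (nat_lit 9))
    (@En.n l21248 (nat_lit 11759) (nat_lit 6) (nat_lit 11))
    (@En.n l21249 (nat_lit 11172) (nat_lit 6) (nat_lit 4))
    (@En.n l21250 (nat_lit 11184) (nat_lit 11) (nat_lit 7))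
    (@En.n l21251 (nat_lit 11545) (nat_lit 8) (nat_lit 4))
    (@En.n l17042 (nat_lit 10966) (nat_lit 10) (nat_lit 10))
    (@En.n l1144 (nat_lit 6247) (nat_lit 11) (nat_lit 12))
    (@En.n l21252 (nat_lit 11053) (nat_lit 12) (nat_lit 7))
    (@En.n l21253 (nat_lit 10969) (nat_lit 13) (nat_lit 12))
    (@En.n l2828 (nat_lit 5166) (nat_lit 14) (nat_lit 7))
    (@En.n l21254 (nat_lit 8428) (nat_lit 5) (nat_lit 9))
    (@En.n l50 (nat_lit 10968) (nat_lit 15) (nat_lit 2))))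
  (@Cl.mk (nat_lit 0x20009000c0006000b00090004000c00070005000b00040007000a000e0005) (nat_lit 0x690330700700220) (nat_lit 16) Lb.e (@T16.mk En
    (@En.i (nat_lit 8563) (nat_lit 6) (nat_lit 5))
    (@En.i (nat_lit 9060) (nat_lit 1) (nat_lit 14))
    (@En.n l28615 (nat_lit 8192) (nat_lit 8) (nat_lit 10))
    (@En.n l4758 (nat_lit 7883) (nat_lit 11) (nat_lit 7))
    (@En.n l7865 (nat_lit 6581) (nat_lit 4) (nat_lit 4))
    (@En.n l1643 (nat_lit 11758) (nat_lit 0) (nat_lit 11))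
    (@En.n l97 (nat_lit 11173) (nat_lit 6) (nat_lit 5))
    (@En.n l9147 (nat_lit 10968) (nat_lit 7) (nat_lit 7))
    (@En.i (nat_lit 11180) (nat_lit 9) (nat_lit 12))
    (@En.n l5587 (nat_lit 11549) (nat_lit 9) (nat_lit 4))
    (@En.n l897 (nat_lit 10970) (nat_lit 11) (nat_lit 9))
    (@En.n l24348 (nat_lit 6250) (nat_lit 12) (nat_lit 11))
    (@En.i (nat_lit 11394) (nat_lit 13) (nat_lit 6))
    (@En.n l1643 (nat_lit 11569) (nat_lit 6) (nat_lit 12))
    (@En.n l6589 (nat_lit 8431) (nat_lit 4) (nat_lit 9))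
    (@En.n l17 (nat_lit 10969) (nat_lit 15) (nat_lit 2))))
  (@Cl.mk (nat_lit 0x2000a000d000600090003000c0006000c000a000400070004000a000e0006) (nat_lit 0x690206096000330) (nat_lit 16) Lb.e (@T16.mk En
    (@En.n l3928 (nat_lit 10963) (nat_lit 5) (nat_lit 6))
    (@En.i (nat_lit 6395) (nat_lit 1) (nat_lit 14))
    (@En.n l998 (nat_lit 10969) (nat_lit 2) (nat_lit 10))
    (@En.n l50 (nat_lit 11169) (nat_lit 3) (nat_lit 4))
    (@En.i (nat_lit 7881) (nat_lit 11) (nat_lit 7))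
    (@En.n l4361 (nat_lit 6579) (nat_lit 5) (nat_lit 4))
    (@En.n l217 (nat_lit 10543) (nat_lit 0) (nat_lit 10))
    (@En.n l253 (nat_lit 11918) (nat_lit 8) (nat_lit 12))
    (@En.i (nat_lit 10966) (nat_lit 8) (nat_lit 6))
    (@En.i (nat_lit 10971) (nat_lit 10) (nat_lit 12))
    (@En.n l117 (nat_lit 11550) (nat_lit 10) (nat_lit 3))
    (@En.n l781 (nat_lit 1678) (nat_lit 12) (nat_lit 9))
    (@En.i (nat_lit 11393) (nat_lit 13) (nat_lit 6))
    (@En.i (nat_lit 11565) (nat_lit 5) (nat_lit 13))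
    (@En.n l3928 (nat_lit 8430) (nat_lit 3) (nat_lit 10))
    (@En.n l17 (nat_lit 10970) (nat_lit 15) (nat_lit 2))))
  (@Cl.mk (nat_lit 0x2000b000800060009000c0005000b00090004000800070005000a000e0007) (nat_lit 0x6401508506004b0) (nat_lit 16) Lb.e (@T16.mk En
    (@En.n l3928 (nat_lit 9851) (nat_lit 3) (nat_lit 7))
    (@En.i (nat_lit 6386) (nat_lit 1) (nat_lit 14))
    (@En.n l998 (nat_lit 11180) (nat_lit 2) (nat_lit 10))
    (@En.n l50 (nat_lit 11170) (nat_lit 3) (nat_lit 5))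
    (@En.n l11 (nat_lit 10970) (nat_lit 4) (nat_lit 7))
    (@En.n l55 (nat_lit 10966) (nat_lit 5) (nat_lit 8))
    (@En.n l24015 (nat_lit 6580) (nat_lit 6) (nat_lit 4))
    (@En.n l217 (nat_lit 10544) (nat_lit 0) (nat_lit 9))
    (@En.n l24016 (nat_lit 11937) (nat_lit 9) (nat_lit 11))
    (@En.n l24017 (nat_lit 11182) (nat_lit 9) (nat_lit 5))
    (@En.n l24015 (nat_lit 8036) (nat_lit 6) (nat_lit 12))
    (@En.n l781 (nat_lit 1677) (nat_lit 12) (nat_lit 9))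
    (@En.n l24015 (nat_lit 11396) (nat_lit 13) (nat_lit 6))
    (@En.i (nat_lit 11483) (nat_lit 14) (nat_lit 8))
    (@En.n l24018 (nat_lit 8432) (nat_lit 1) (nat_lit 11))
    (@En.n l17 (nat_lit 10971) (nat_lit 15) (nat_lit 2))))
  (@Cl.mk (nat_lit 0x2000a000500080005000d000c00060003000d000400080003000b000e000b) (nat_lit 0x5040b4005010521) (nat_lit 16) Lb.e (@T16.mk En
    (@En.n l68 (nat_lit 8502) (nat_lit 13) (nat_lit 11))
    (@En.n l3866 (nat_lit 9103) (nat_lit 4) (nat_lit 14))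
    (@En.i (nat_lit 10973) (nat_lit 2) (nat_lit 11))
    (@En.i (nat_lit 7482) (nat_lit 3) (nat_lit 3))
    (@En.i (nat_lit 6697) (nat_lit 4) (nat_lit 8))
    (@En.n l7 (nat_lit 8197) (nat_lit 5) (nat_lit 4))
    (@En.n l4003 (nat_lit 12469) (nat_lit 7) (nat_lit 13))
    (@En.n l7 (nat_lit 8716) (nat_lit 7) (nat_lit 3))
    (@En.i (nat_lit 4560) (nat_lit 8) (nat_lit 6))
    (@En.n l644 (nat_lit 8714) (nat_lit 10) (nat_lit 12))
    (@En.n l645 (nat_lit 10978) (nat_lit 11) (nat_lit 13))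
    (@En.i (nat_lit 8549) (nat_lit 7) (nat_lit 5))
    (@En.i (nat_lit 4621) (nat_lit 13) (nat_lit 8))
    (@En.n l4624 (nat_lit 10976) (nat_lit 14) (nat_lit 5))
    (@En.n l575 (nat_lit 10958) (nat_lit 11) (nat_lit 10))
    (@En.n l67 (nat_lit 10972) (nat_lit 15) (nat_lit 2))))
  (@Cl.mk (nat_lit 0x200090005000900080006000d000c00070003000700040008000b000e000a) (nat_lit 0x40250b500001471) (nat_lit 16) Lb.e (@T16.mk En
    (@En.n l68 (nat_lit 8501) (nat_lit 10) (nat_lit 10))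
    (@En.n l10040 (nat_lit 6564) (nat_lit 4) (nat_lit 14))
    (@En.n l3125 (nat_lit 12311) (nat_lit 7) (nat_lit 11))
    (@En.n l24336 (nat_lit 6698) (nat_lit 3) (nat_lit 8))
    (@En.n l3125 (nat_lit 8196) (nat_lit 4) (nat_lit 4))
    (@En.n l16865 (nat_lit 11678) (nat_lit 5) (nat_lit 7))
    (@En.n l7 (nat_lit 10974) (nat_lit 6) (nat_lit 3))
    (@En.i (nat_lit 4475) (nat_lit 0) (nat_lit 7))
    (@En.n l644 (nat_lit 8717) (nat_lit 9) (nat_lit 12))
    (@En.n l3125 (nat_lit 10977) (nat_lit 10) (nat_lit 13))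
    (@En.n l16865 (nat_lit 12410) (nat_lit 3) (nat_lit 6))
    (@En.n l17 (nat_lit 10972) (nat_lit 12) (nat_lit 8))
    (@En.n l16865 (nat_lit 10243) (nat_lit 13) (nat_lit 9))
    (@En.n l33532 (nat_lit 10975) (nat_lit 14) (nat_lit 5))
    (@En.n l575 (nat_lit 10411) (nat_lit 8) (nat_lit 9))
    (@En.n l67 (nat_lit 10973) (nat_lit 15) (nat_lit 2))))
  (@Cl.mk (nat_lit 0x2000a0005000900080006000d0006000d0003000700030008000b000e000a) (nat_lit 0x30350a0b0001548) (nat_lit 16) Lb.e (@T16.mk En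
    (@En.n l68 (nat_lit 8499) (nat_lit 10) (nat_lit 10))
    (@En.n l10040 (nat_lit 6563) (nat_lit 4) (nat_lit 14))
    (@En.i (nat_lit 12309) (nat_lit 7) (nat_lit 11))
    (@En.i (nat_lit 5006) (nat_lit 3) (nat_lit 8))
    (@En.i (nat_lit 8717) (nat_lit 4) (nat_lit 3))
    (@En.i (nat_lit 11430) (nat_lit 0) (nat_lit 7))
    (@En.i (nat_lit 10973) (nat_lit 6) (nat_lit 3))
    (@En.i (nat_lit 4614) (nat_lit 0) (nat_lit 13))
    (@En.i (nat_lit 7518) (nat_lit 8) (nat_lit 6))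
    (@En.n l645 (nat_lit 10981) (nat_lit 10) (nat_lit 13))
    (@En.i (nat_lit 12405) (nat_lit 3) (nat_lit 6))
    (@En.n l17 (nat_lit 8716) (nat_lit 12) (nat_lit 8))
    (@En.i (nat_lit 10244) (nat_lit 13) (nat_lit 9))
    (@En.n l3015 (nat_lit 8155) (nat_lit 14) (nat_lit 5))
    (@En.n l8015 (nat_lit 10893) (nat_lit 10) (nat_lit 10))
    (@En.n l67 (nat_lit 10974) (nat_lit 15) (nat_lit 2))))
  (@Cl.mk (nat_lit 0x20005000900080005000d000c000a0003000700040008000b0006000e000b) (nat_lit 0x540a1400014081) (nat_lit 16) Lb.e (@T16.mk En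
    (@En.n l24077 (nat_lit 8153) (nat_lit 9) (nat_lit 11))
    (@En.n l24078 (nat_lit 10973) (nat_lit 1) (nat_lit 14))
    (@En.n l15545 (nat_lit 9837) (nat_lit 2) (nat_lit 6))
    (@En.n l7271 (nat_lit 12308) (nat_lit 3) (nat_lit 11))
    (@En.i (nat_lit 6596) (nat_lit 4) (nat_lit 8))
    (@En.i (nat_lit 8198) (nat_lit 5) (nat_lit 4))
    (@En.n l766 (nat_lit 11685) (nat_lit 6) (nat_lit 7))
    (@En.n l15994 (nat_lit 8155) (nat_lit 7) (nat_lit 3))
    (@En.i (nat_lit 12509) (nat_lit 9) (nat_lit 10))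
    (@En.n l19680 (nat_lit 8151) (nat_lit 10) (nat_lit 12))
    (@En.n l1253 (nat_lit 10979) (nat_lit 11) (nat_lit 13))
    (@En.n l9462 (nat_lit 12432) (nat_lit 3) (nat_lit 5))
    (@En.n l2593 (nat_lit 10976) (nat_lit 13) (nat_lit 8))
    (@En.n l24079 (nat_lit 10247) (nat_lit 14) (nat_lit 9))
    (@En.i (nat_lit 4175) (nat_lit 13) (nat_lit 5))
    (@En.n l3 (nat_lit 10975) (nat_lit 15) (nat_lit 2))))
noncomputable def a686 : T16 Cl := @T16.mk Cl
  (@Cl.mk (nat_lit 0x2000500080004000d000c00090003000d000400080003000b0007000e000c) (nat_lit 0x30a16050205037) (nat_lit 16) Lb.e (@T16.mk En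
    (@En.n l4542 (nat_lit 8694) (nat_lit 12) (nat_lit 12))
    (@En.n l1459 (nat_lit 10972) (nat_lit 1) (nat_lit 14))
    (@En.n l4343 (nat_lit 9156) (nat_lit 2) (nat_lit 7))
    (@En.n l5 (nat_lit 10975) (nat_lit 3) (nat_lit 11))
    (@En.n l50 (nat_lit 7483) (nat_lit 4) (nat_lit 3))
    (@En.i (nat_lit 6969) (nat_lit 5) (nat_lit 8))
    (@En.n l3506 (nat_lit 8550) (nat_lit 6) (nat_lit 4))
    (@En.n l5559 (nat_lit 12466) (nat_lit 8) (nat_lit 13))
    (@En.n l2266 (nat_lit 8157) (nat_lit 8) (nat_lit 3))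
    (@En.i (nat_lit 11222) (nat_lit 10) (nat_lit 9))
    (@En.n l11663 (nat_lit 8156) (nat_lit 11) (nat_lit 12))
    (@En.i (nat_lit 10980) (nat_lit 12) (nat_lit 13))
    (@En.n l117 (nat_lit 8548) (nat_lit 13) (nat_lit 4))
    (@En.n l4361 (nat_lit 7067) (nat_lit 14) (nat_lit 8))
    (@En.i (nat_lit 4170) (nat_lit 13) (nat_lit 5))
    (@En.n l3 (nat_lit 10976) (nat_lit 15) (nat_lit 2))))
  (@Cl.mk (nat_lit 0x2000a000500090008000d000b00060003000a000700050008000b000e0006) (nat_lit 0x4032a9002001660) (nat_lit 16) Lb.e (@T16.mk En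
    (@En.n l7691 (nat_lit 12211) (nat_lit 8) (nat_lit 6))
    (@En.n l430 (nat_lit 9293) (nat_lit 4) (nat_lit 14))
    (@En.i (nat_lit 10799) (nat_lit 2) (nat_lit 11))
    (@En.n l10923 (nat_lit 2136) (nat_lit 10) (nat_lit 8))
    (@En.i (nat_lit 10754) (nat_lit 4) (nat_lit 5))
    (@En.n l39187 (nat_lit 12467) (nat_lit 5) (nat_lit 7))
    (@En.n l39188 (nat_lit 10669) (nat_lit 7) (nat_lit 10))
    (@En.n l10667 (nat_lit 10981) (nat_lit 7) (nat_lit 3))
    (@En.n l7262 (nat_lit 3402) (nat_lit 0) (nat_lit 6))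
    (@En.n l644 (nat_lit 11603) (nat_lit 10) (nat_lit 11))
    (@En.n l39189 (nat_lit 11898) (nat_lit 11) (nat_lit 13))
    (@En.n l430 (nat_lit 10978) (nat_lit 12) (nat_lit 8))
    (@En.n l39187 (nat_lit 11387) (nat_lit 13) (nat_lit 9))
    (@En.n l10921 (nat_lit 10979) (nat_lit 14) (nat_lit 5))
    (@En.n l1672 (nat_lit 11613) (nat_lit 0) (nat_lit 10))
    (@En.n l17 (nat_lit 10977) (nat_lit 15) (nat_lit 2))))
  (@Cl.mk (nat_lit 0x2000b00050008000d000b000500030009000d000500080003000b000e0007) (nat_lit 0x501a20023020740) (nat_lit 16) Lb.e (@T16.mk En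
    (@En.i (nat_lit 12210) (nat_lit 7) (nat_lit 7))
    (@En.i (nat_lit 6351) (nat_lit 4) (nat_lit 14))
    (@En.n l10436 (nat_lit 10977) (nat_lit 2) (nat_lit 11))
    (@En.i (nat_lit 12204) (nat_lit 3) (nat_lit 3))
    (@En.n l253 (nat_lit 5190) (nat_lit 10) (nat_lit 8))
    (@En.n l6771 (nat_lit 10756) (nat_lit 5) (nat_lit 5))
    (@En.i (nat_lit 4410) (nat_lit 7) (nat_lit 13))
    (@En.n l287 (nat_lit 10662) (nat_lit 3) (nat_lit 9))
    (@En.n l11 (nat_lit 10983) (nat_lit 8) (nat_lit 3))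
    (@En.i (nat_lit 3403) (nat_lit 0) (nat_lit 5))
    (@En.n l55 (nat_lit 11604) (nat_lit 11) (nat_lit 11))
    (@En.n l1329 (nat_lit 12072) (nat_lit 12) (nat_lit 13))
    (@En.n l4750 (nat_lit 3414) (nat_lit 13) (nat_lit 8))
    (@En.n l5047 (nat_lit 10980) (nat_lit 14) (nat_lit 5))
    (@En.i (nat_lit 11614) (nat_lit 11) (nat_lit 11))
    (@En.n l17 (nat_lit 10978) (nat_lit 15) (nat_lit 2))))
  (@Cl.mk (nat_lit 0x2000500090008000d000b000900030009000700050008000b0007000e0007) (nat_lit 0x25985020026070) (nat_lit 16) Lb.e (@T16.mk En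
    (@En.n l27805 (nat_lit 12218) (nat_lit 7) (nat_lit 7))
    (@En.n l5647 (nat_lit 10977) (nat_lit 1) (nat_lit 14))
    (@En.n l3348 (nat_lit 11053) (nat_lit 2) (nat_lit 7))
    (@En.n l39280 (nat_lit 10800) (nat_lit 3) (nat_lit 11))
    (@En.n l5592 (nat_lit 2130) (nat_lit 4) (nat_lit 8))
    (@En.n l39281 (nat_lit 10757) (nat_lit 5) (nat_lit 5))
    (@En.i (nat_lit 12464) (nat_lit 6) (nat_lit 7))
    (@En.n l1366 (nat_lit 10668) (nat_lit 8) (nat_lit 9))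
    (@En.n l30907 (nat_lit 10982) (nat_lit 8) (nat_lit 3))
    (@En.i (nat_lit 8175) (nat_lit 10) (nat_lit 9))
    (@En.n l3039 (nat_lit 11607) (nat_lit 11) (nat_lit 11))
    (@En.n l134 (nat_lit 11899) (nat_lit 12) (nat_lit 13))
    (@En.n l3339 (nat_lit 10980) (nat_lit 13) (nat_lit 8))
    (@En.n l2039 (nat_lit 6524) (nat_lit 14) (nat_lit 9))
    (@En.i (nat_lit 12181) (nat_lit 13) (nat_lit 5))
    (@En.n l3 (nat_lit 10979) (nat_lit 15) (nat_lit 2))))
  (@Cl.mk (nat_lit 0x200050008000d000b000800030008000d000500080003000b0008000e0008) (nat_lit 0x49740240207652) (nat_lit 16) Lb.e (@T16.mk En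
    (@En.n l13132 (nat_lit 12216) (nat_lit 6) (nat_lit 8))
    (@En.n l11003 (nat_lit 10978) (nat_lit 1) (nat_lit 14))
    (@En.n l13133 (nat_lit 10905) (nat_lit 2) (nat_lit 8))
    (@En.n l250 (nat_lit 10979) (nat_lit 3) (nat_lit 11))
    (@En.n l50 (nat_lit 10985) (nat_lit 4) (nat_lit 3))
    (@En.i (nat_lit 2451) (nat_lit 5) (nat_lit 8))
    (@En.n l3506 (nat_lit 11735) (nat_lit 6) (nat_lit 5))
    (@En.n l13133 (nat_lit 4423) (nat_lit 8) (nat_lit 13))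
    (@En.n l4361 (nat_lit 10667) (nat_lit 9) (nat_lit 8))
    (@En.n l6667 (nat_lit 10984) (nat_lit 9) (nat_lit 3))
    (@En.i (nat_lit 8176) (nat_lit 11) (nat_lit 8))
    (@En.n l16808 (nat_lit 11608) (nat_lit 12) (nat_lit 11))
    (@En.n l1578 (nat_lit 12067) (nat_lit 13) (nat_lit 13))
    (@En.n l4361 (nat_lit 11032) (nat_lit 14) (nat_lit 8))
    (@En.n l3201 (nat_lit 12177) (nat_lit 13) (nat_lit 5))
    (@En.n l3 (nat_lit 10980) (nat_lit 15) (nat_lit 2))))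
  (@Cl.mk (nat_lit 0x2000b000500090008000d0005000c0003000a000700040008000b000e0006) (nat_lit 0x3032909010017b0) (nat_lit 16) Lb.e (@T16.mk En
    (@En.i (nat_lit 12212) (nat_lit 8) (nat_lit 6))
    (@En.n l50 (nat_lit 9292) (nat_lit 4) (nat_lit 14))
    (@En.n l10436 (nat_lit 10797) (nat_lit 2) (nat_lit 11))
    (@En.n l253 (nat_lit 2132) (nat_lit 3) (nat_lit 8))
    (@En.n l10436 (nat_lit 12812) (nat_lit 4) (nat_lit 4))
    (@En.n l5 (nat_lit 12469) (nat_lit 5) (nat_lit 7))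
    (@En.n l3340 (nat_lit 6223) (nat_lit 1) (nat_lit 10))
    (@En.n l10436 (nat_lit 10977) (nat_lit 7) (nat_lit 3))
    (@En.n l20178 (nat_lit 8164) (nat_lit 9) (nat_lit 12))
    (@En.n l117 (nat_lit 11440) (nat_lit 9) (nat_lit 5))
    (@En.n l1329 (nat_lit 11897) (nat_lit 11) (nat_lit 13))
    (@En.n l50 (nat_lit 10983) (nat_lit 12) (nat_lit 8))
    (@En.n l15054 (nat_lit 11386) (nat_lit 13) (nat_lit 9))
    (@En.i (nat_lit 10982) (nat_lit 14) (nat_lit 5))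
    (@En.i (nat_lit 11109) (nat_lit 0) (nat_lit 11))
    (@En.n l17 (nat_lit 10981) (nat_lit 15) (nat_lit 2))))
  (@Cl.mk (nat_lit 0x2000500090008000d0008000c00030009000700040008000b0008000e0007) (nat_lit 0x269160100175c0) (nat_lit 16) Lb.e (@T16.mk En
    (@En.n l24042 (nat_lit 12217) (nat_lit 7) (nat_lit 7))
    (@En.n l3 (nat_lit 10981) (nat_lit 1) (nat_lit 14))
    (@En.i (nat_lit 11051) (nat_lit 2) (nat_lit 8))
    (@En.n l10436 (nat_lit 10795) (nat_lit 3) (nat_lit 11))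
    (@En.n l24043 (nat_lit 2126) (nat_lit 4) (nat_lit 8))
    (@En.n l10436 (nat_lit 12811) (nat_lit 5) (nat_lit 4))
    (@En.n l15054 (nat_lit 12466) (nat_lit 6) (nat_lit 7))
    (@En.n l24044 (nat_lit 6224) (nat_lit 8) (nat_lit 9))
    (@En.n l24045 (nat_lit 10979) (nat_lit 8) (nat_lit 3))
    (@En.n l6645 (nat_lit 8162) (nat_lit 10) (nat_lit 12))
    (@En.n l24046 (nat_lit 5291) (nat_lit 11) (nat_lit 8))
    (@En.n l24047 (nat_lit 11900) (nat_lit 12) (nat_lit 13))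
    (@En.n l50 (nat_lit 10984) (nat_lit 13) (nat_lit 8))
    (@En.n l15054 (nat_lit 5434) (nat_lit 14) (nat_lit 9))
    (@En.n l3106 (nat_lit 11970) (nat_lit 13) (nat_lit 5))
    (@En.n l17 (nat_lit 10982) (nat_lit 15) (nat_lit 2))))
  (@Cl.mk (nat_lit 0x2000c00050008000d0004000c00030009000d000400080003000b000e0007) (nat_lit 0x301908013020840) (nat_lit 16) Lb.e (@T16.mk En
    (@En.i (nat_lit 12209) (nat_lit 7) (nat_lit 7))
    (@En.i (nat_lit 6750) (nat_lit 4) (nat_lit 14))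
    (@En.i (nat_lit 10981) (nat_lit 2) (nat_lit 11))
    (@En.i (nat_lit 12205) (nat_lit 3) (nat_lit 3))
    (@En.n l253 (nat_lit 2452) (nat_lit 4) (nat_lit 8))
    (@En.i (nat_lit 12813) (nat_lit 5) (nat_lit 4))
    (@En.i (nat_lit 4409) (nat_lit 7) (nat_lit 13))
    (@En.n l3340 (nat_lit 6225) (nat_lit 1) (nat_lit 9))
    (@En.i (nat_lit 10978) (nat_lit 8) (nat_lit 3))
    (@En.n l253 (nat_lit 8163) (nat_lit 10) (nat_lit 12))
    (@En.n l117 (nat_lit 11437) (nat_lit 10) (nat_lit 4))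
    (@En.n l1329 (nat_lit 11026) (nat_lit 12) (nat_lit 13))
    (@En.n l253 (nat_lit 3416) (nat_lit 13) (nat_lit 8))
    (@En.i (nat_lit 10984) (nat_lit 14) (nat_lit 5))
    (@En.i (nat_lit 11107) (nat_lit 11) (nat_lit 12))
    (@En.n l17 (nat_lit 10983) (nat_lit 15) (nat_lit 2))))
  (@Cl.mk (nat_lit 0x200050008000d0007000c00030008000d000400080003000b0009000e0008) (nat_lit 0x59030260208655) (nat_lit 16) Lb.e (@T16.mk En
    (@En.n l5036 (nat_lit 12215) (nat_lit 6) (nat_lit 8))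
    (@En.n l3 (nat_lit 10983) (nat_lit 1) (nat_lit 14))
    (@En.i (nat_lit 11434) (nat_lit 2) (nat_lit 9))
    (@En.i (nat_lit 10982) (nat_lit 3) (nat_lit 11))
    (@En.n l7213 (nat_lit 12206) (nat_lit 4) (nat_lit 3))
    (@En.n l253 (nat_lit 2131) (nat_lit 5) (nat_lit 8))
    (@En.i (nat_lit 12814) (nat_lit 6) (nat_lit 4))
    (@En.i (nat_lit 4424) (nat_lit 8) (nat_lit 13))
    (@En.n l29157 (nat_lit 10428) (nat_lit 9) (nat_lit 8))
    (@En.n l5047 (nat_lit 10980) (nat_lit 9) (nat_lit 3))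
    (@En.n l6645 (nat_lit 8161) (nat_lit 11) (nat_lit 12))
    (@En.n l3550 (nat_lit 5290) (nat_lit 12) (nat_lit 7))
    (@En.n l1329 (nat_lit 12071) (nat_lit 13) (nat_lit 13))
    (@En.n l11247 (nat_lit 11034) (nat_lit 14) (nat_lit 8))
    (@En.n l3106 (nat_lit 11969) (nat_lit 13) (nat_lit 5))
    (@En.n l17 (nat_lit 10984) (nat_lit 15) (nat_lit 2))))
  (@Cl.mk (nat_lit 0x200050009000d000a000800030008000d000700060003000b0008000e0008) (nat_lit 0x38640210007635) (nat_lit 16) Lb.e (@T16.mk En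
    (@En.n l35140 (nat_lit 12214) (nat_lit 6) (nat_lit 8))
    (@En.n l21390 (nat_lit 12204) (nat_lit 1) (nat_lit 14))
    (@En.n l33802 (nat_lit 10910) (nat_lit 2) (nat_lit 8))
    (@En.n l39182 (nat_lit 10778) (nat_lit 3) (nat_lit 11))
    (@En.i (nat_lit 10980) (nat_lit 4) (nat_lit 3))
    (@En.n l7081 (nat_lit 8106) (nat_lit 5) (nat_lit 6))
    (@En.n l7471 (nat_lit 10979) (nat_lit 6) (nat_lit 7))
    (@En.n l2544 (nat_lit 779) (nat_lit 8) (nat_lit 13))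
    (@En.n l16914 (nat_lit 10666) (nat_lit 9) (nat_lit 8))
    (@En.n l7081 (nat_lit 12206) (nat_lit 9) (nat_lit 3))
    (@En.i (nat_lit 8177) (nat_lit 11) (nat_lit 8))
    (@En.n l16916 (nat_lit 12094) (nat_lit 12) (nat_lit 10))
    (@En.n l21417 (nat_lit 12068) (nat_lit 13) (nat_lit 13))
    (@En.n l16919 (nat_lit 9038) (nat_lit 14) (nat_lit 9))
    (@En.i (nat_lit 12178) (nat_lit 13) (nat_lit 5))
    (@En.n l3 (nat_lit 10985) (nat_lit 15) (nat_lit 2))))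
  (@Cl.mk (nat_lit 0x20005000c0008000c00060004000e00040002000d0008000b0003000e000a) (nat_lit 0x46500700751056) (nat_lit 16) Lb.e (@T16.mk En
    (@En.i (nat_lit 8053) (nat_lit 10) (nat_lit 10))
    (@En.i (nat_lit 10987) (nat_lit 1) (nat_lit 14))
    (@En.n l2943 (nat_lit 10931) (nat_lit 2) (nat_lit 3))
    (@En.i (nat_lit 2906) (nat_lit 3) (nat_lit 11))
    (@En.i (nat_lit 7659) (nat_lit 4) (nat_lit 8))
    (@En.i (nat_lit 7548) (nat_lit 6) (nat_lit 13))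
    (@En.n l7 (nat_lit 10986) (nat_lit 6) (nat_lit 2))
    (@En.n l11 (nat_lit 8166) (nat_lit 7) (nat_lit 4))
    (@En.n l134 (nat_lit 3498) (nat_lit 9) (nat_lit 14))
    (@En.n l11 (nat_lit 7064) (nat_lit 9) (nat_lit 4))
    (@En.i (nat_lit 12219) (nat_lit 3) (nat_lit 6))
    (@En.i (nat_lit 8486) (nat_lit 12) (nat_lit 12))
    (@En.n l532 (nat_lit 10989) (nat_lit 13) (nat_lit 8))
    (@En.n l15973 (nat_lit 7991) (nat_lit 14) (nat_lit 12))
    (@En.i (nat_lit 8901) (nat_lit 13) (nat_lit 5))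
    (@En.n l3 (nat_lit 10986) (nat_lit 15) (nat_lit 2))))
  (@Cl.mk (nat_lit 0x200060005000c0008000c00070004000e00040002000a0008000b000e0009) (nat_lit 0x5050080014145) (nat_lit 16) Lb.e (@T16.mk En
    (@En.n l17 (nat_lit 10990) (nat_lit 11) (nat_lit 9))
    (@En.n l3659 (nat_lit 10035) (nat_lit 12) (nat_lit 14))
    (@En.n l2409 (nat_lit 2921) (nat_lit 2) (nat_lit 11))
    (@En.n l2989 (nat_lit 7665) (nat_lit 14) (nat_lit 8))
    (@En.i (nat_lit 4541) (nat_lit 4) (nat_lit 10))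
    (@En.n l7 (nat_lit 10987) (nat_lit 5) (nat_lit 2))
    (@En.n l11 (nat_lit 8167) (nat_lit 6) (nat_lit 4))
    (@En.n l134 (nat_lit 3497) (nat_lit 8) (nat_lit 14))
    (@En.n l11 (nat_lit 7057) (nat_lit 8) (nat_lit 4))
    (@En.i (nat_lit 12220) (nat_lit 3) (nat_lit 7))
    (@En.i (nat_lit 8484) (nat_lit 11) (nat_lit 12))
    (@En.n l11802 (nat_lit 10988) (nat_lit 12) (nat_lit 8))
    (@En.n l15973 (nat_lit 7999) (nat_lit 13) (nat_lit 12))
    (@En.n l17 (nat_lit 10986) (nat_lit 14) (nat_lit 5))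
    (@En.i (nat_lit 9773) (nat_lit 8) (nat_lit 6))
    (@En.n l3 (nat_lit 10987) (nat_lit 15) (nat_lit 2))))
  (@Cl.mk (nat_lit 0x2000700050008000c0006000a000e00040002000900080006000b000e000a) (nat_lit 0x6403700150256) (nat_lit 16) Lb.e (@T16.mk En
    (@En.n l1578 (nat_lit 10991) (nat_lit 10) (nat_lit 10))
    (@En.n l21109 (nat_lit 5195) (nat_lit 4) (nat_lit 14))
    (@En.n l4993 (nat_lit 10987) (nat_lit 2) (nat_lit 11))
    (@En.n l18234 (nat_lit 8023) (nat_lit 3) (nat_lit 6))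
    (@En.n l31821 (nat_lit 7664) (nat_lit 14) (nat_lit 8))
    (@En.n l6042 (nat_lit 4540) (nat_lit 5) (nat_lit 9))
    (@En.n l50 (nat_lit 10988) (nat_lit 6) (nat_lit 2))
    (@En.i (nat_lit 8168) (nat_lit 7) (nat_lit 4))
    (@En.n l25503 (nat_lit 3499) (nat_lit 9) (nat_lit 14))
    (@En.i (nat_lit 3959) (nat_lit 10) (nat_lit 10))
    (@En.i (nat_lit 12221) (nat_lit 3) (nat_lit 6))
    (@En.n l25503 (nat_lit 7633) (nat_lit 12) (nat_lit 12))
    (@En.i (nat_lit 12538) (nat_lit 13) (nat_lit 8))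
    (@En.n l29587 (nat_lit 10989) (nat_lit 14) (nat_lit 5))
    (@En.n l25503 (nat_lit 9772) (nat_lit 7) (nat_lit 7))
    (@En.n l11 (nat_lit 10988) (nat_lit 15) (nat_lit 2))))
  (@Cl.mk (nat_lit 0x200050008000c0005000a000e00040002000c00080006000b0004000e000b) (nat_lit 0x53037006502069) (nat_lit 16) Lb.e (@T16.mk En
    (@En.n l6826 (nat_lit 8054) (nat_lit 9) (nat_lit 11))
    (@En.n l24727 (nat_lit 10988) (nat_lit 1) (nat_lit 14))
    (@En.n l30843 (nat_lit 10996) (nat_lit 2) (nat_lit 4))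
    (@En.n l245 (nat_lit 10986) (nat_lit 3) (nat_lit 11))
    (@En.n l5592 (nat_lit 8021) (nat_lit 4) (nat_lit 6))
    (@En.i (nat_lit 7658) (nat_lit 5) (nat_lit 8))
    (@En.n l217 (nat_lit 7546) (nat_lit 7) (nat_lit 12))
    (@En.n l28 (nat_lit 10989) (nat_lit 7) (nat_lit 2))
    (@En.i (nat_lit 8169) (nat_lit 8) (nat_lit 4))
    (@En.i (nat_lit 3500) (nat_lit 10) (nat_lit 14))
    (@En.n l250 (nat_lit 3961) (nat_lit 11) (nat_lit 10))
    (@En.i (nat_lit 12223) (nat_lit 3) (nat_lit 5))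
    (@En.i (nat_lit 7634) (nat_lit 13) (nat_lit 12))
    (@En.n l2039 (nat_lit 8114) (nat_lit 10) (nat_lit 8))
    (@En.i (nat_lit 8902) (nat_lit 6) (nat_lit 5))
    (@En.n l3 (nat_lit 10989) (nat_lit 15) (nat_lit 2))))
  (@Cl.mk (nat_lit 0x2000b0009000c0009000900050004000b0007000b000700070005000e0005) (nat_lit 0x156430090600020) (nat_lit 16) Lb.e (@T16.mk En
    (@En.n l30099 (nat_lit 10993) (nat_lit 7) (nat_lit 5))
    (@En.n l134 (nat_lit 3479) (nat_lit 1) (nat_lit 14))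
    (@En.n l22921 (nat_lit 7807) (nat_lit 2) (nat_lit 5))
    (@En.n l9272 (nat_lit 10987) (nat_lit 9) (nat_lit 7))
    (@En.n l3647 (nat_lit 11593) (nat_lit 4) (nat_lit 7))
    (@En.i (nat_lit 8482) (nat_lit 6) (nat_lit 11))
    (@En.n l18282 (nat_lit 10991) (nat_lit 6) (nat_lit 7))
    (@En.n l30101 (nat_lit 10994) (nat_lit 8) (nat_lit 11))
    (@En.i (nat_lit 8053) (nat_lit 8) (nat_lit 4))
    (@En.n l61 (nat_lit 9777) (nat_lit 9) (nat_lit 5))
    (@En.n l9279 (nat_lit 8049) (nat_lit 7) (nat_lit 9))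
    (@En.n l3518 (nat_lit 11448) (nat_lit 12) (nat_lit 9))
    (@En.n l32681 (nat_lit 2913) (nat_lit 6) (nat_lit 12))
    (@En.n l32682 (nat_lit 11372) (nat_lit 14) (nat_lit 9))
    (@En.i (nat_lit 74) (nat_lit 4) (nat_lit 11))
    (@En.n l7 (nat_lit 10990) (nat_lit 15) (nat_lit 2))))
  (@Cl.mk (nat_lit 0x2000a00090006000c000a000a000600040007000b00060006000a000e0005) (nat_lit 0x140753000500410) (nat_lit 16) Lb.e (@T16.mk En
    (@En.n l25077 (nat_lit 10992) (nat_lit 8) (nat_lit 5))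
    (@En.n l25078 (nat_lit 1339) (nat_lit 1) (nat_lit 14))
    (@En.n l25079 (nat_lit 7802) (nat_lit 2) (nat_lit 10))
    (@En.n l28 (nat_lit 10988) (nat_lit 10) (nat_lit 6))
    (@En.n l18382 (nat_lit 11594) (nat_lit 4) (nat_lit 6))
    (@En.n l25079 (nat_lit 7637) (nat_lit 8) (nat_lit 11))
    (@En.i (nat_lit 12536) (nat_lit 6) (nat_lit 7))
    (@En.n l25080 (nat_lit 8054) (nat_lit 7) (nat_lit 4))
    (@En.n l7407 (nat_lit 9776) (nat_lit 8) (nat_lit 6))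
    (@En.n l25081 (nat_lit 8050) (nat_lit 6) (nat_lit 10))
    (@En.n l21646 (nat_lit 11440) (nat_lit 11) (nat_lit 10))
    (@En.n l25082 (nat_lit 10990) (nat_lit 12) (nat_lit 12))
    (@En.n l25083 (nat_lit 8018) (nat_lit 13) (nat_lit 6))
    (@En.n l25084 (nat_lit 10760) (nat_lit 14) (nat_lit 9))
    (@En.n l25085 (nat_lit 4536) (nat_lit 7) (nat_lit 10))
    (@En.n l50 (nat_lit 10991) (nat_lit 15) (nat_lit 2))))
noncomputable def a687 : T16 Cl := @T16.mk Cl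
  (@Cl.mk (nat_lit 0x40007000b000b00070007000b00050005000a00090005000c000900090006) (nat_lit 0x56005005308430) (nat_lit 16) Lb.e (@T16.mk En
    (@En.n l39758 (nat_lit 10851) (nat_lit 0) (nat_lit 6))
    (@En.n l39759 (nat_lit 8057) (nat_lit 7) (nat_lit 9))
    (@En.n l39760 (nat_lit 11443) (nat_lit 7) (nat_lit 9))
    (@En.n l39761 (nat_lit 10993) (nat_lit 3) (nat_lit 12))
    (@En.n l12842 (nat_lit 6475) (nat_lit 4) (nat_lit 5))
    (@En.i (nat_lit 11705) (nat_lit 7) (nat_lit 9))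
    (@En.n l39762 (nat_lit 11444) (nat_lit 10) (nat_lit 10))
    (@En.n l18 (nat_lit 12522) (nat_lit 11) (nat_lit 5))
    (@En.n l39763 (nat_lit 12060) (nat_lit 8) (nat_lit 5))
    (@En.i (nat_lit 7103) (nat_lit 8) (nat_lit 11))
    (@En.n l32975 (nat_lit 8168) (nat_lit 9) (nat_lit 7))
    (@En.n l29333 (nat_lit 11092) (nat_lit 2) (nat_lit 7))
    (@En.n l39764 (nat_lit 10991) (nat_lit 5) (nat_lit 11))
    (@En.n l28329 (nat_lit 9897) (nat_lit 8) (nat_lit 11))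
    (@En.n l39765 (nat_lit 4529) (nat_lit 11) (nat_lit 7))
    (@En.n l39766 (nat_lit 10997) (nat_lit 15) (nat_lit 4))))
  (@Cl.mk (nat_lit 0x4000a0007000b000b00080008000600050005000b0009000c000800080005) (nat_lit 0x406764000547310) (nat_lit 16) Lb.e (@T16.mk En
    (@En.n l32072 (nat_lit 10849) (nat_lit 0) (nat_lit 5))
    (@En.n l2717 (nat_lit 8056) (nat_lit 8) (nat_lit 8))
    (@En.n l25856 (nat_lit 11080) (nat_lit 1) (nat_lit 8))
    (@En.n l32073 (nat_lit 2915) (nat_lit 6) (nat_lit 12))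
    (@En.n l32074 (nat_lit 11344) (nat_lit 4) (nat_lit 9))
    (@En.n l32075 (nat_lit 11446) (nat_lit 10) (nat_lit 11))
    (@En.n l32076 (nat_lit 12521) (nat_lit 11) (nat_lit 5))
    (@En.n l32077 (nat_lit 10925) (nat_lit 11) (nat_lit 5))
    (@En.i (nat_lit 10255) (nat_lit 0) (nat_lit 6))
    (@En.n l8641 (nat_lit 8167) (nat_lit 8) (nat_lit 8))
    (@En.n l32078 (nat_lit 11096) (nat_lit 2) (nat_lit 8))
    (@En.n l32079 (nat_lit 10990) (nat_lit 5) (nat_lit 11))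
    (@En.i (nat_lit 9011) (nat_lit 8) (nat_lit 11))
    (@En.n l32080 (nat_lit 10992) (nat_lit 14) (nat_lit 7))
    (@En.n l32081 (nat_lit 8010) (nat_lit 11) (nat_lit 10))
    (@En.n l50 (nat_lit 8059) (nat_lit 12) (nat_lit 4))))
  (@Cl.mk (nat_lit 0x2000b000a0006000a000a0005000b0006000a000600060005000a000e0006) (nat_lit 0x260620803000530) (nat_lit 16) Lb.e (@T16.mk En
    (@En.n l37390 (nat_lit 8010) (nat_lit 3) (nat_lit 6))
    (@En.n l37391 (nat_lit 10881) (nat_lit 1) (nat_lit 14))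
    (@En.n l37392 (nat_lit 10991) (nat_lit 2) (nat_lit 10))
    (@En.n l18 (nat_lit 7799) (nat_lit 3) (nat_lit 5))
    (@En.n l37393 (nat_lit 7999) (nat_lit 10) (nat_lit 6))
    (@En.n l37394 (nat_lit 11036) (nat_lit 5) (nat_lit 6))
    (@En.i (nat_lit 8622) (nat_lit 9) (nat_lit 10))
    (@En.n l37395 (nat_lit 4529) (nat_lit 7) (nat_lit 6))
    (@En.n l37396 (nat_lit 5605) (nat_lit 9) (nat_lit 11))
    (@En.n l37391 (nat_lit 9780) (nat_lit 9) (nat_lit 5))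
    (@En.n l37397 (nat_lit 11000) (nat_lit 6) (nat_lit 10))
    (@En.n l37398 (nat_lit 10350) (nat_lit 12) (nat_lit 10))
    (@En.n l19409 (nat_lit 7438) (nat_lit 13) (nat_lit 6))
    (@En.n l37399 (nat_lit 10777) (nat_lit 14) (nat_lit 10))
    (@En.n l37398 (nat_lit 4537) (nat_lit 4) (nat_lit 11))
    (@En.n l11 (nat_lit 10994) (nat_lit 15) (nat_lit 2))))
  (@Cl.mk (nat_lit 0x2000c000a000a00070004000b000b00060006000b000500050009000e0005) (nat_lit 0x928008300600420) (nat_lit 16) Lb.e (@T16.mk En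
    (@En.n l34041 (nat_lit 10998) (nat_lit 5) (nat_lit 5))
    (@En.n l34042 (nat_lit 2703) (nat_lit 1) (nat_lit 14))
    (@En.n l18380 (nat_lit 7806) (nat_lit 2) (nat_lit 9))
    (@En.n l28 (nat_lit 10996) (nat_lit 11) (nat_lit 5))
    (@En.n l24050 (nat_lit 10911) (nat_lit 4) (nat_lit 5))
    (@En.n l25080 (nat_lit 9575) (nat_lit 6) (nat_lit 11))
    (@En.n l61 (nat_lit 12089) (nat_lit 10) (nat_lit 6))
    (@En.n l7490 (nat_lit 11049) (nat_lit 7) (nat_lit 6))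
    (@En.n l18454 (nat_lit 10999) (nat_lit 5) (nat_lit 11))
    (@En.n l34043 (nat_lit 11225) (nat_lit 10) (nat_lit 11))
    (@En.n l34044 (nat_lit 12087) (nat_lit 10) (nat_lit 4))
    (@En.n l34045 (nat_lit 8020) (nat_lit 12) (nat_lit 7))
    (@En.n l18449 (nat_lit 12253) (nat_lit 6) (nat_lit 10))
    (@En.i (nat_lit 10991) (nat_lit 14) (nat_lit 10))
    (@En.n l21111 (nat_lit 10992) (nat_lit 3) (nat_lit 12))
    (@En.n l50 (nat_lit 10995) (nat_lit 15) (nat_lit 2))))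
  (@Cl.mk (nat_lit 0x200070007000c00050009000e00040002000c0009000900070004000e000b) (nat_lit 0x4036007220079) (nat_lit 16) Lb.e (@T16.mk En
    (@En.n l1578 (nat_lit 10995) (nat_lit 9) (nat_lit 11))
    (@En.n l21109 (nat_lit 5198) (nat_lit 1) (nat_lit 14))
    (@En.n l6644 (nat_lit 12763) (nat_lit 2) (nat_lit 4))
    (@En.n l16579 (nat_lit 8022) (nat_lit 3) (nat_lit 7))
    (@En.n l21110 (nat_lit 11059) (nat_lit 7) (nat_lit 9))
    (@En.i (nat_lit 10988) (nat_lit 5) (nat_lit 9))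
    (@En.n l21111 (nat_lit 12522) (nat_lit 7) (nat_lit 12))
    (@En.n l50 (nat_lit 10996) (nat_lit 7) (nat_lit 2))
    (@En.n l7257 (nat_lit 11056) (nat_lit 8) (nat_lit 4))
    (@En.n l21112 (nat_lit 3508) (nat_lit 10) (nat_lit 14))
    (@En.n l7257 (nat_lit 3972) (nat_lit 11) (nat_lit 9))
    (@En.i (nat_lit 12095) (nat_lit 3) (nat_lit 5))
    (@En.n l3098 (nat_lit 9573) (nat_lit 13) (nat_lit 12))
    (@En.n l61 (nat_lit 12779) (nat_lit 14) (nat_lit 7))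
    (@En.n l16579 (nat_lit 11047) (nat_lit 6) (nat_lit 7))
    (@En.n l11 (nat_lit 10996) (nat_lit 15) (nat_lit 2))))
  (@Cl.mk (nat_lit 0x40007000b000b00060006000b00050005000c00090005000c0004000a000a) (nat_lit 0x55005007408051) (nat_lit 16) Lb.e (@T16.mk En
    (@En.n l61 (nat_lit 8055) (nat_lit 6) (nat_lit 10))
    (@En.n l30281 (nat_lit 10868) (nat_lit 1) (nat_lit 10))
    (@En.n l38659 (nat_lit 10998) (nat_lit 15) (nat_lit 4))
    (@En.n l3056 (nat_lit 8059) (nat_lit 0) (nat_lit 12))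
    (@En.n l2710 (nat_lit 5174) (nat_lit 1) (nat_lit 5))
    (@En.n l38660 (nat_lit 11743) (nat_lit 5) (nat_lit 9))
    (@En.n l9972 (nat_lit 5170) (nat_lit 3) (nat_lit 12))
    (@En.n l38661 (nat_lit 12515) (nat_lit 11) (nat_lit 5))
    (@En.n l9968 (nat_lit 12020) (nat_lit 8) (nat_lit 5))
    (@En.n l38662 (nat_lit 7092) (nat_lit 9) (nat_lit 11))
    (@En.n l16957 (nat_lit 8169) (nat_lit 10) (nat_lit 6))
    (@En.n l9970 (nat_lit 11094) (nat_lit 2) (nat_lit 6))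
    (@En.n l575 (nat_lit 8054) (nat_lit 5) (nat_lit 11))
    (@En.i (nat_lit 9496) (nat_lit 8) (nat_lit 11))
    (@En.n l30283 (nat_lit 11557) (nat_lit 11) (nat_lit 7))
    (@En.n l38663 (nat_lit 7554) (nat_lit 15) (nat_lit 4))))
  (@Cl.mk (nat_lit 0x4000a000a00060006000b000b00060006000a00050005000c000a000a0006) (nat_lit 0x730067004009650) (nat_lit 16) Lb.e (@T16.mk En
    (@En.n l810 (nat_lit 6474) (nat_lit 0) (nat_lit 6))
    (@En.n l2062 (nat_lit 11057) (nat_lit 6) (nat_lit 10))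
    (@En.n l19681 (nat_lit 10992) (nat_lit 6) (nat_lit 10))
    (@En.n l30657 (nat_lit 6475) (nat_lit 3) (nat_lit 12))
    (@En.n l30658 (nat_lit 12524) (nat_lit 11) (nat_lit 5))
    (@En.n l30659 (nat_lit 10747) (nat_lit 5) (nat_lit 5))
    (@En.n l19681 (nat_lit 7987) (nat_lit 9) (nat_lit 10))
    (@En.n l575 (nat_lit 11056) (nat_lit 10) (nat_lit 6))
    (@En.n l30660 (nat_lit 11087) (nat_lit 2) (nat_lit 6))
    (@En.n l30661 (nat_lit 10995) (nat_lit 5) (nat_lit 11))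
    (@En.n l30657 (nat_lit 9469) (nat_lit 9) (nat_lit 11))
    (@En.n l17235 (nat_lit 12083) (nat_lit 10) (nat_lit 6))
    (@En.n l30662 (nat_lit 10281) (nat_lit 6) (nat_lit 6))
    (@En.n l30663 (nat_lit 12257) (nat_lit 6) (nat_lit 10))
    (@En.n l30664 (nat_lit 11224) (nat_lit 1) (nat_lit 10))
    (@En.n l30665 (nat_lit 11558) (nat_lit 15) (nat_lit 4))))
  (@Cl.mk (nat_lit 0x20009000e00060002000c000b000b00070004000b00050005000a000e0005) (nat_lit 0x530082600200520) (nat_lit 16) Lb.e (@T16.mk En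
    (@En.n l18256 (nat_lit 10995) (nat_lit 4) (nat_lit 5))
    (@En.i (nat_lit 3654) (nat_lit 6) (nat_lit 14))
    (@En.i (nat_lit 8095) (nat_lit 2) (nat_lit 10))
    (@En.n l8932 (nat_lit 12780) (nat_lit 11) (nat_lit 5))
    (@En.n l18257 (nat_lit 11641) (nat_lit 4) (nat_lit 5))
    (@En.n l18258 (nat_lit 11229) (nat_lit 10) (nat_lit 11))
    (@En.n l7 (nat_lit 12247) (nat_lit 6) (nat_lit 4))
    (@En.n l152 (nat_lit 5741) (nat_lit 7) (nat_lit 7))
    (@En.n l18259 (nat_lit 12249) (nat_lit 5) (nat_lit 11))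
    (@En.n l644 (nat_lit 8050) (nat_lit 10) (nat_lit 11))
    (@En.n l3197 (nat_lit 10991) (nat_lit 11) (nat_lit 12))
    (@En.n l11 (nat_lit 10999) (nat_lit 11) (nat_lit 2))
    (@En.n l18260 (nat_lit 12257) (nat_lit 13) (nat_lit 6))
    (@En.n l619 (nat_lit 2704) (nat_lit 1) (nat_lit 14))
    (@En.i (nat_lit 7805) (nat_lit 2) (nat_lit 9))
    (@En.n l17 (nat_lit 10999) (nat_lit 15) (nat_lit 2))))
  (@Cl.mk (nat_lit 0x20006000a000e00070002000c000b0006000a0004000a00050009000e0006) (nat_lit 0x52001401020470) (nat_lit 16) Lb.e (@T16.mk En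
    (@En.n l31999 (nat_lit 10994) (nat_lit 5) (nat_lit 6))
    (@En.n l3815 (nat_lit 8202) (nat_lit 1) (nat_lit 14))
    (@En.n l30818 (nat_lit 8621) (nat_lit 2) (nat_lit 9))
    (@En.n l617 (nat_lit 12536) (nat_lit 3) (nat_lit 5))
    (@En.i (nat_lit 8062) (nat_lit 10) (nat_lit 10))
    (@En.n l7857 (nat_lit 10786) (nat_lit 5) (nat_lit 4))
    (@En.i (nat_lit 4713) (nat_lit 12) (nat_lit 10))
    (@En.n l8572 (nat_lit 7451) (nat_lit 7) (nat_lit 6))
    (@En.i (nat_lit 10784) (nat_lit 9) (nat_lit 11))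
    (@En.i (nat_lit 4543) (nat_lit 10) (nat_lit 12))
    (@En.n l3 (nat_lit 11000) (nat_lit 10) (nat_lit 2))
    (@En.n l7562 (nat_lit 10117) (nat_lit 12) (nat_lit 7))
    (@En.n l7070 (nat_lit 8051) (nat_lit 13) (nat_lit 14))
    (@En.n l7408 (nat_lit 8050) (nat_lit 14) (nat_lit 10))
    (@En.n l10039 (nat_lit 6434) (nat_lit 3) (nat_lit 6))
    (@En.n l50 (nat_lit 11000) (nat_lit 15) (nat_lit 2))))
  (@Cl.mk (nat_lit 0x20007000b0006000b000a000a000500090005000900060006000a000e0007) (nat_lit 0x50957070500690) (nat_lit 16) Lb.e (@T16.mk En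
    (@En.i (nat_lit 8009) (nat_lit 7) (nat_lit 7))
    (@En.i (nat_lit 11427) (nat_lit 1) (nat_lit 14))
    (@En.n l39790 (nat_lit 10867) (nat_lit 2) (nat_lit 10))
    (@En.n l6961 (nat_lit 12134) (nat_lit 10) (nat_lit 6))
    (@En.n l17324 (nat_lit 10994) (nat_lit 4) (nat_lit 6))
    (@En.n l32797 (nat_lit 6476) (nat_lit 5) (nat_lit 9))
    (@En.n l4189 (nat_lit 11031) (nat_lit 6) (nat_lit 5))
    (@En.i (nat_lit 12472) (nat_lit 10) (nat_lit 9))
    (@En.n l1723 (nat_lit 10117) (nat_lit 8) (nat_lit 5))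
    (@En.n l11363 (nat_lit 11035) (nat_lit 10) (nat_lit 10))
    (@En.n l32545 (nat_lit 11002) (nat_lit 11) (nat_lit 10))
    (@En.n l32545 (nat_lit 10352) (nat_lit 12) (nat_lit 11))
    (@En.n l1723 (nat_lit 6952) (nat_lit 13) (nat_lit 6))
    (@En.n l33383 (nat_lit 8044) (nat_lit 14) (nat_lit 11))
    (@En.n l39791 (nat_lit 6271) (nat_lit 13) (nat_lit 7))
    (@En.n l7 (nat_lit 11001) (nat_lit 15) (nat_lit 2))))
  (@Cl.mk (nat_lit 0x20008000c0006000a000900040008000d0008000600030007000a000e0008) (nat_lit 0x250400373000681) (nat_lit 16) Lb.e (@T16.mk En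
    (@En.n l32640 (nat_lit 10001) (nat_lit 12) (nat_lit 8))
    (@En.n l34276 (nat_lit 11421) (nat_lit 1) (nat_lit 14))
    (@En.n l22329 (nat_lit 11665) (nat_lit 8) (nat_lit 10))
    (@En.n l34277 (nat_lit 2016) (nat_lit 3) (nat_lit 7))
    (@En.n l34278 (nat_lit 11003) (nat_lit 4) (nat_lit 3))
    (@En.n l4037 (nat_lit 11000) (nat_lit 0) (nat_lit 6))
    (@En.n l17 (nat_lit 5432) (nat_lit 6) (nat_lit 8))
    (@En.n l34276 (nat_lit 7393) (nat_lit 8) (nat_lit 13))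
    (@En.n l17678 (nat_lit 12476) (nat_lit 3) (nat_lit 8))
    (@En.n l34279 (nat_lit 10113) (nat_lit 9) (nat_lit 4))
    (@En.n l34280 (nat_lit 11004) (nat_lit 11) (nat_lit 9))
    (@En.i (nat_lit 11013) (nat_lit 12) (nat_lit 10))
    (@En.n l34281 (nat_lit 6569) (nat_lit 13) (nat_lit 6))
    (@En.n l10398 (nat_lit 4180) (nat_lit 14) (nat_lit 12))
    (@En.n l9441 (nat_lit 6127) (nat_lit 4) (nat_lit 8))
    (@En.n l50 (nat_lit 11002) (nat_lit 15) (nat_lit 2))))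
  (@Cl.mk (nat_lit 0x20007000c0006000b000900040008000d0005000900030007000a000e0008) (nat_lit 0x80800260300631) (nat_lit 16) Lb.e (@T16.mk En
    (@En.n l6650 (nat_lit 10004) (nat_lit 12) (nat_lit 8))
    (@En.n l9870 (nat_lit 11423) (nat_lit 1) (nat_lit 14))
    (@En.n l11247 (nat_lit 11670) (nat_lit 8) (nat_lit 10))
    (@En.n l3106 (nat_lit 11010) (nat_lit 3) (nat_lit 7))
    (@En.n l33385 (nat_lit 11002) (nat_lit 4) (nat_lit 3))
    (@En.i (nat_lit 4216) (nat_lit 0) (nat_lit 9))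
    (@En.n l2843 (nat_lit 11001) (nat_lit 6) (nat_lit 5))
    (@En.n l9870 (nat_lit 7396) (nat_lit 8) (nat_lit 13))
    (@En.i (nat_lit 12473) (nat_lit 3) (nat_lit 8))
    (@En.n l11028 (nat_lit 10112) (nat_lit 9) (nat_lit 4))
    (@En.n l33386 (nat_lit 11005) (nat_lit 11) (nat_lit 9))
    (@En.n l33387 (nat_lit 11012) (nat_lit 12) (nat_lit 11))
    (@En.n l24627 (nat_lit 6571) (nat_lit 13) (nat_lit 6))
    (@En.n l33388 (nat_lit 11932) (nat_lit 14) (nat_lit 12))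
    (@En.n l5032 (nat_lit 9700) (nat_lit 4) (nat_lit 7))
    (@En.n l11 (nat_lit 11003) (nat_lit 15) (nat_lit 2))))
  (@Cl.mk (nat_lit 0x20009000d0006000900030007000d0007000d000300070003000a000e0009) (nat_lit 0x2607006020007b1) (nat_lit 16) Lb.e (@T16.mk En
    (@En.n l7143 (nat_lit 9999) (nat_lit 5) (nat_lit 9))
    (@En.n l17663 (nat_lit 4711) (nat_lit 1) (nat_lit 14))
    (@En.n l17666 (nat_lit 11002) (nat_lit 2) (nat_lit 10))
    (@En.n l17668 (nat_lit 11006) (nat_lit 3) (nat_lit 3))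
    (@En.n l4451 (nat_lit 2015) (nat_lit 4) (nat_lit 7))
    (@En.i (nat_lit 11005) (nat_lit 5) (nat_lit 3))
    (@En.n l17614 (nat_lit 5575) (nat_lit 7) (nat_lit 13))
    (@En.n l10097 (nat_lit 5433) (nat_lit 7) (nat_lit 7))
    (@En.n l17663 (nat_lit 7398) (nat_lit 9) (nat_lit 13))
    (@En.i (nat_lit 10324) (nat_lit 3) (nat_lit 7))
    (@En.n l33330 (nat_lit 9034) (nat_lit 10) (nat_lit 3))
    (@En.n l19566 (nat_lit 12380) (nat_lit 0) (nat_lit 9))
    (@En.n l1769 (nat_lit 6572) (nat_lit 13) (nat_lit 6))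
    (@En.n l17675 (nat_lit 4173) (nat_lit 14) (nat_lit 13))
    (@En.n l7142 (nat_lit 6124) (nat_lit 3) (nat_lit 9))
    (@En.n l11 (nat_lit 11004) (nat_lit 15) (nat_lit 2))))
  (@Cl.mk (nat_lit 0x20008000d0006000900030007000d000c0008000300070004000a000e0009) (nat_lit 0x390700573000741) (nat_lit 16) Lb.e (@T16.mk En
    (@En.n l7143 (nat_lit 10000) (nat_lit 5) (nat_lit 9))
    (@En.n l17663 (nat_lit 4705) (nat_lit 1) (nat_lit 14))
    (@En.n l17664 (nat_lit 11003) (nat_lit 2) (nat_lit 10))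
    (@En.n l17663 (nat_lit 11007) (nat_lit 3) (nat_lit 4))
    (@En.n l2508 (nat_lit 11008) (nat_lit 4) (nat_lit 7))
    (@En.n l50 (nat_lit 11004) (nat_lit 5) (nat_lit 3))
    (@En.n l17665 (nat_lit 4215) (nat_lit 0) (nat_lit 8))
    (@En.n l17666 (nat_lit 11006) (nat_lit 8) (nat_lit 12))
    (@En.n l17663 (nat_lit 7401) (nat_lit 9) (nat_lit 13))
    (@En.i (nat_lit 10321) (nat_lit 3) (nat_lit 7))
    (@En.n l3200 (nat_lit 9036) (nat_lit 10) (nat_lit 3))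
    (@En.n l2498 (nat_lit 12384) (nat_lit 0) (nat_lit 9))
    (@En.n l1769 (nat_lit 6573) (nat_lit 13) (nat_lit 6))
    (@En.n l17667 (nat_lit 4177) (nat_lit 14) (nat_lit 13))
    (@En.n l7142 (nat_lit 9703) (nat_lit 3) (nat_lit 8))
    (@En.n l11 (nat_lit 11005) (nat_lit 15) (nat_lit 2))))
  (@Cl.mk (nat_lit 0x20009000d0006000a00030007000c0007000d000600040003000a000e0009) (nat_lit 0x280500601000831) (nat_lit 16) Lb.e (@T16.mk En
    (@En.n l33389 (nat_lit 9998) (nat_lit 5) (nat_lit 9))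
    (@En.n l12731 (nat_lit 4708) (nat_lit 1) (nat_lit 14))
    (@En.i (nat_lit 11433) (nat_lit 2) (nat_lit 10))
    (@En.n l17678 (nat_lit 11004) (nat_lit 3) (nat_lit 3))
    (@En.n l12731 (nat_lit 11034) (nat_lit 4) (nat_lit 4))
    (@En.n l10969 (nat_lit 11002) (nat_lit 5) (nat_lit 6))
    (@En.n l12585 (nat_lit 5573) (nat_lit 7) (nat_lit 13))
    (@En.n l17 (nat_lit 5434) (nat_lit 7) (nat_lit 7))
    (@En.n l12731 (nat_lit 8098) (nat_lit 9) (nat_lit 12))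
    (@En.n l33390 (nat_lit 10327) (nat_lit 12) (nat_lit 7))
    (@En.n l32937 (nat_lit 9038) (nat_lit 10) (nat_lit 3))
    (@En.n l2038 (nat_lit 12383) (nat_lit 0) (nat_lit 10))
    (@En.n l16495 (nat_lit 6574) (nat_lit 13) (nat_lit 6))
    (@En.n l1110 (nat_lit 4179) (nat_lit 14) (nat_lit 13))
    (@En.n l16439 (nat_lit 6147) (nat_lit 3) (nat_lit 9))
    (@En.n l50 (nat_lit 11006) (nat_lit 15) (nat_lit 2))))
  (@Cl.mk (nat_lit 0x20007000d0006000b00030007000c000c0005000900040004000a000e0009) (nat_lit 0xa0900560300852) (nat_lit 16) Lb.e (@T16.mk En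
    (@En.n l18239 (nat_lit 7987) (nat_lit 5) (nat_lit 9))
    (@En.i (nat_lit 4701) (nat_lit 1) (nat_lit 14))
    (@En.n l18240 (nat_lit 11447) (nat_lit 2) (nat_lit 10))
    (@En.n l18241 (nat_lit 11011) (nat_lit 12) (nat_lit 4))
    (@En.n l18242 (nat_lit 11006) (nat_lit 4) (nat_lit 4))
    (@En.i (nat_lit 3102) (nat_lit 5) (nat_lit 9))
    (@En.n l18243 (nat_lit 11003) (nat_lit 6) (nat_lit 5))
    (@En.n l644 (nat_lit 11034) (nat_lit 8) (nat_lit 12))
    (@En.i (nat_lit 8095) (nat_lit 9) (nat_lit 12))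
    (@En.n l3528 (nat_lit 12463) (nat_lit 12) (nat_lit 7))
    (@En.n l18244 (nat_lit 11030) (nat_lit 10) (nat_lit 3))
    (@En.n l7456 (nat_lit 12760) (nat_lit 0) (nat_lit 11))
    (@En.n l15604 (nat_lit 6575) (nat_lit 13) (nat_lit 6))
    (@En.n l619 (nat_lit 5587) (nat_lit 14) (nat_lit 13))
    (@En.n l17552 (nat_lit 9436) (nat_lit 3) (nat_lit 7))
    (@En.n l17 (nat_lit 11007) (nat_lit 15) (nat_lit 2))))
noncomputable def a688 : T16 Cl := @T16.mk Cl
  (@Cl.mk (nat_lit 0x20007000c00060009000d000400080003000d000900070003000a000e0008) (nat_lit 0x50240508300584) (nat_lit 16) Lb.e (@T16.mk En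
    (@En.n l2659 (nat_lit 11253) (nat_lit 13) (nat_lit 8))
    (@En.n l1038 (nat_lit 11462) (nat_lit 1) (nat_lit 14))
    (@En.n l11154 (nat_lit 11010) (nat_lit 2) (nat_lit 10))
    (@En.n l18495 (nat_lit 11009) (nat_lit 3) (nat_lit 3))
    (@En.i (nat_lit 5348) (nat_lit 0) (nat_lit 7))
    (@En.n l11159 (nat_lit 7469) (nat_lit 5) (nat_lit 9))
    (@En.n l7146 (nat_lit 11002) (nat_lit 7) (nat_lit 13))
    (@En.n l488 (nat_lit 11265) (nat_lit 7) (nat_lit 3))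
    (@En.n l18496 (nat_lit 12075) (nat_lit 0) (nat_lit 8))
    (@En.n l2678 (nat_lit 9799) (nat_lit 9) (nat_lit 4))
    (@En.n l18497 (nat_lit 6066) (nat_lit 11) (nat_lit 13))
    (@En.i (nat_lit 12502) (nat_lit 12) (nat_lit 9))
    (@En.n l18498 (nat_lit 1096) (nat_lit 13) (nat_lit 6))
    (@En.n l488 (nat_lit 6273) (nat_lit 14) (nat_lit 12))
    (@En.n l18499 (nat_lit 9678) (nat_lit 6) (nat_lit 7))
    (@En.n l3 (nat_lit 11008) (nat_lit 15) (nat_lit 2))))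
  (@Cl.mk (nat_lit 0x20006000c0006000a000d000400080003000d0006000a0003000a000e0008) (nat_lit 0xa0740207030685) (nat_lit 16) Lb.e (@T16.mk En
    (@En.n l7361 (nat_lit 11252) (nat_lit 13) (nat_lit 8))
    (@En.n l1195 (nat_lit 11461) (nat_lit 1) (nat_lit 14))
    (@En.n l18055 (nat_lit 6606) (nat_lit 2) (nat_lit 10))
    (@En.n l18056 (nat_lit 11008) (nat_lit 3) (nat_lit 3))
    (@En.n l18057 (nat_lit 9032) (nat_lit 4) (nat_lit 10))
    (@En.n l18058 (nat_lit 11010) (nat_lit 5) (nat_lit 6))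
    (@En.n l18059 (nat_lit 11003) (nat_lit 7) (nat_lit 13))
    (@En.n l17 (nat_lit 11264) (nat_lit 7) (nat_lit 3))
    (@En.n l18060 (nat_lit 12483) (nat_lit 0) (nat_lit 8))
    (@En.n l3480 (nat_lit 9800) (nat_lit 9) (nat_lit 4))
    (@En.i (nat_lit 6068) (nat_lit 11) (nat_lit 13))
    (@En.n l18056 (nat_lit 12243) (nat_lit 12) (nat_lit 10))
    (@En.n l7365 (nat_lit 1093) (nat_lit 13) (nat_lit 6))
    (@En.n l18061 (nat_lit 6272) (nat_lit 14) (nat_lit 12))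
    (@En.n l18062 (nat_lit 9681) (nat_lit 13) (nat_lit 6))
    (@En.n l7 (nat_lit 11009) (nat_lit 15) (nat_lit 2))))
  (@Cl.mk (nat_lit 0x20006000b0006000a0009000d0005000900030006000a0007000a000e0007) (nat_lit 0x90835060020470) (nat_lit 16) Lb.e (@T16.mk En
    (@En.n l117 (nat_lit 11254) (nat_lit 10) (nat_lit 7))
    (@En.n l33852 (nat_lit 11454) (nat_lit 1) (nat_lit 14))
    (@En.n l699 (nat_lit 6955) (nat_lit 2) (nat_lit 10))
    (@En.n l1738 (nat_lit 5346) (nat_lit 3) (nat_lit 7))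
    (@En.i (nat_lit 7466) (nat_lit 4) (nat_lit 10))
    (@En.i (nat_lit 12134) (nat_lit 12) (nat_lit 6))
    (@En.n l33853 (nat_lit 11263) (nat_lit 6) (nat_lit 3))
    (@En.i (nat_lit 12482) (nat_lit 0) (nat_lit 9))
    (@En.n l12559 (nat_lit 9798) (nat_lit 8) (nat_lit 5))
    (@En.n l33854 (nat_lit 11009) (nat_lit 10) (nat_lit 13))
    (@En.n l20174 (nat_lit 11008) (nat_lit 11) (nat_lit 9))
    (@En.n l4240 (nat_lit 12034) (nat_lit 12) (nat_lit 10))
    (@En.n l1253 (nat_lit 1095) (nat_lit 13) (nat_lit 6))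
    (@En.n l30074 (nat_lit 6274) (nat_lit 14) (nat_lit 11))
    (@En.n l17796 (nat_lit 9679) (nat_lit 7) (nat_lit 6))
    (@En.n l11 (nat_lit 11010) (nat_lit 15) (nat_lit 2))))
  (@Cl.mk (nat_lit 0x20006000a0004000a000e000900020006000d0006000a00030007000e000c) (nat_lit 0x20742005080036) (nat_lit 16) Lb.e (@T16.mk En
    (@En.n l7560 (nat_lit 11007) (nat_lit 8) (nat_lit 12))
    (@En.n l3815 (nat_lit 11191) (nat_lit 9) (nat_lit 14))
    (@En.n l810 (nat_lit 12466) (nat_lit 2) (nat_lit 7))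
    (@En.n l28 (nat_lit 11028) (nat_lit 10) (nat_lit 3))
    (@En.n l3813 (nat_lit 12759) (nat_lit 4) (nat_lit 10))
    (@En.n l7561 (nat_lit 6761) (nat_lit 5) (nat_lit 6))
    (@En.n l1386 (nat_lit 5584) (nat_lit 7) (nat_lit 13))
    (@En.n l5234 (nat_lit 11525) (nat_lit 7) (nat_lit 6))
    (@En.n l3 (nat_lit 11011) (nat_lit 8) (nat_lit 2))
    (@En.n l7562 (nat_lit 7985) (nat_lit 10) (nat_lit 9))
    (@En.n l1386 (nat_lit 4704) (nat_lit 11) (nat_lit 14))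
    (@En.i (nat_lit 8062) (nat_lit 2) (nat_lit 10))
    (@En.n l7452 (nat_lit 11005) (nat_lit 3) (nat_lit 4))
    (@En.i (nat_lit 3978) (nat_lit 4) (nat_lit 10))
    (@En.n l1359 (nat_lit 11009) (nat_lit 5) (nat_lit 6))
    (@En.n l50 (nat_lit 11011) (nat_lit 15) (nat_lit 2))))
  (@Cl.mk (nat_lit 0x20007000d000b000800030007000c0005000c0009000400080004000e0009) (nat_lit 0x873005084040b7) (nat_lit 16) Lb.e (@T16.mk En
    (@En.i (nat_lit 11406) (nat_lit 5) (nat_lit 9))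
    (@En.n l3513 (nat_lit 9930) (nat_lit 1) (nat_lit 14))
    (@En.n l7451 (nat_lit 11490) (nat_lit 2) (nat_lit 4))
    (@En.n l3509 (nat_lit 12034) (nat_lit 3) (nat_lit 8))
    (@En.n l2265 (nat_lit 11013) (nat_lit 4) (nat_lit 4))
    (@En.n l61 (nat_lit 11417) (nat_lit 5) (nat_lit 9))
    (@En.n l7452 (nat_lit 11005) (nat_lit 7) (nat_lit 12))
    (@En.n l7453 (nat_lit 10352) (nat_lit 7) (nat_lit 5))
    (@En.n l3815 (nat_lit 9149) (nat_lit 9) (nat_lit 12))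
    (@En.n l810 (nat_lit 10298) (nat_lit 10) (nat_lit 7))
    (@En.n l28 (nat_lit 11408) (nat_lit 10) (nat_lit 3))
    (@En.n l1247 (nat_lit 12379) (nat_lit 0) (nat_lit 8))
    (@En.n l7454 (nat_lit 11409) (nat_lit 13) (nat_lit 11))
    (@En.n l7455 (nat_lit 11617) (nat_lit 14) (nat_lit 13))
    (@En.n l1430 (nat_lit 11885) (nat_lit 3) (nat_lit 7))
    (@En.n l3 (nat_lit 11012) (nat_lit 15) (nat_lit 2))))
  (@Cl.mk (nat_lit 0x20009000d000a000800030007000c00070006000d000400080003000e0009) (nat_lit 0x7633005003020b5) (nat_lit 16) Lb.e (@T16.mk En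
    (@En.i (nat_lit 11388) (nat_lit 5) (nat_lit 9))
    (@En.n l601 (nat_lit 11240) (nat_lit 1) (nat_lit 14))
    (@En.n l28 (nat_lit 11591) (nat_lit 2) (nat_lit 3))
    (@En.n l8501 (nat_lit 7713) (nat_lit 3) (nat_lit 8))
    (@En.i (nat_lit 10351) (nat_lit 4) (nat_lit 4))
    (@En.n l17678 (nat_lit 11004) (nat_lit 6) (nat_lit 13))
    (@En.n l4037 (nat_lit 4713) (nat_lit 6) (nat_lit 6))
    (@En.n l17 (nat_lit 7728) (nat_lit 7) (nat_lit 7))
    (@En.n l965 (nat_lit 9082) (nat_lit 9) (nat_lit 12))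
    (@En.n l11469 (nat_lit 10289) (nat_lit 10) (nat_lit 7))
    (@En.n l17679 (nat_lit 11588) (nat_lit 10) (nat_lit 3))
    (@En.n l97 (nat_lit 12377) (nat_lit 0) (nat_lit 8))
    (@En.n l17680 (nat_lit 11194) (nat_lit 13) (nat_lit 10))
    (@En.n l16386 (nat_lit 11623) (nat_lit 14) (nat_lit 13))
    (@En.n l9446 (nat_lit 6123) (nat_lit 12) (nat_lit 9))
    (@En.n l50 (nat_lit 11013) (nat_lit 15) (nat_lit 2))))
  (@Cl.mk (nat_lit 0x20009000e00070002000c0007000c00070004000d000400090003000e0009) (nat_lit 0x470070200501057) (nat_lit 16) Lb.e (@T16.mk En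
    (@En.n l20104 (nat_lit 9308) (nat_lit 4) (nat_lit 9))
    (@En.i (nat_lit 10786) (nat_lit 1) (nat_lit 14))
    (@En.n l6574 (nat_lit 11015) (nat_lit 2) (nat_lit 3))
    (@En.n l20170 (nat_lit 6456) (nat_lit 3) (nat_lit 9))
    (@En.n l19599 (nat_lit 9514) (nat_lit 4) (nat_lit 4))
    (@En.n l20171 (nat_lit 6479) (nat_lit 10) (nat_lit 13))
    (@En.n l152 (nat_lit 1927) (nat_lit 6) (nat_lit 4))
    (@En.i (nat_lit 1719) (nat_lit 7) (nat_lit 7))
    (@En.i (nat_lit 8235) (nat_lit 9) (nat_lit 12))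
    (@En.n l773 (nat_lit 11008) (nat_lit 14) (nat_lit 7))
    (@En.n l18804 (nat_lit 9828) (nat_lit 11) (nat_lit 12))
    (@En.n l17 (nat_lit 11014) (nat_lit 11) (nat_lit 2))
    (@En.n l17650 (nat_lit 9351) (nat_lit 13) (nat_lit 7))
    (@En.i (nat_lit 11060) (nat_lit 1) (nat_lit 14))
    (@En.n l20170 (nat_lit 7468) (nat_lit 2) (nat_lit 9))
    (@En.n l50 (nat_lit 11014) (nat_lit 15) (nat_lit 2))))
  (@Cl.mk (nat_lit 0x20009000e00080002000c0007000b00070004000d000800050003000e0009) (nat_lit 0x656070400530052) (nat_lit 16) Lb.e (@T16.mk En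
    (@En.i (nat_lit 9310) (nat_lit 4) (nat_lit 9))
    (@En.i (nat_lit 6940) (nat_lit 1) (nat_lit 14))
    (@En.n l20181 (nat_lit 11014) (nat_lit 2) (nat_lit 3))
    (@En.i (nat_lit 4956) (nat_lit 3) (nat_lit 5))
    (@En.i (nat_lit 9631) (nat_lit 4) (nat_lit 8))
    (@En.n l601 (nat_lit 6480) (nat_lit 10) (nat_lit 13))
    (@En.n l1643 (nat_lit 5960) (nat_lit 6) (nat_lit 4))
    (@En.n l4306 (nat_lit 1718) (nat_lit 7) (nat_lit 7))
    (@En.i (nat_lit 6282) (nat_lit 9) (nat_lit 11))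
    (@En.n l2650 (nat_lit 11265) (nat_lit 14) (nat_lit 7))
    (@En.n l20182 (nat_lit 9826) (nat_lit 11) (nat_lit 12))
    (@En.n l107 (nat_lit 11015) (nat_lit 11) (nat_lit 2))
    (@En.n l20183 (nat_lit 9520) (nat_lit 13) (nat_lit 8))
    (@En.n l97 (nat_lit 11058) (nat_lit 1) (nat_lit 14))
    (@En.i (nat_lit 9025) (nat_lit 2) (nat_lit 9))
    (@En.n l17 (nat_lit 11015) (nat_lit 15) (nat_lit 2))))
  (@Cl.mk (nat_lit 0x2000d000700060003000d0007000d0003000d000300090003000a000e0009) (nat_lit 0x500060a02030863) (nat_lit 16) Lb.e (@T16.mk En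
    (@En.n l34191 (nat_lit 11019) (nat_lit 11) (nat_lit 9))
    (@En.n l24865 (nat_lit 2957) (nat_lit 1) (nat_lit 14))
    (@En.n l50 (nat_lit 11377) (nat_lit 2) (nat_lit 10))
    (@En.n l22013 (nat_lit 11018) (nat_lit 3) (nat_lit 3))
    (@En.n l3324 (nat_lit 11015) (nat_lit 0) (nat_lit 9))
    (@En.i (nat_lit 11017) (nat_lit 5) (nat_lit 3))
    (@En.i (nat_lit 5454) (nat_lit 0) (nat_lit 13))
    (@En.n l3659 (nat_lit 4174) (nat_lit 7) (nat_lit 3))
    (@En.n l3859 (nat_lit 7312) (nat_lit 0) (nat_lit 13))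
    (@En.n l117 (nat_lit 10551) (nat_lit 14) (nat_lit 7))
    (@En.n l18910 (nat_lit 11040) (nat_lit 11) (nat_lit 13))
    (@En.n l42744 (nat_lit 4173) (nat_lit 11) (nat_lit 3))
    (@En.i (nat_lit 12399) (nat_lit 0) (nat_lit 6))
    (@En.n l41597 (nat_lit 12270) (nat_lit 14) (nat_lit 7))
    (@En.n l24877 (nat_lit 9755) (nat_lit 2) (nat_lit 13))
    (@En.n l3 (nat_lit 11016) (nat_lit 15) (nat_lit 2))))
  (@Cl.mk (nat_lit 0x2000d000700060003000c0007000d000c0004000300090004000a000e0009) (nat_lit 0x8000a0b40030753) (nat_lit 16) Lb.e (@T16.mk En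
    (@En.n l34191 (nat_lit 11020) (nat_lit 11) (nat_lit 9))
    (@En.n l23632 (nat_lit 4513) (nat_lit 1) (nat_lit 14))
    (@En.n l41594 (nat_lit 11707) (nat_lit 2) (nat_lit 10))
    (@En.n l9618 (nat_lit 5588) (nat_lit 3) (nat_lit 4))
    (@En.n l20852 (nat_lit 10051) (nat_lit 4) (nat_lit 9))
    (@En.n l28 (nat_lit 11016) (nat_lit 5) (nat_lit 3))
    (@En.n l13464 (nat_lit 8069) (nat_lit 0) (nat_lit 4))
    (@En.n l3868 (nat_lit 11018) (nat_lit 8) (nat_lit 12))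
    (@En.n l23632 (nat_lit 7305) (nat_lit 9) (nat_lit 13))
    (@En.n l41595 (nat_lit 11770) (nat_lit 14) (nat_lit 7))
    (@En.n l18910 (nat_lit 11039) (nat_lit 11) (nat_lit 12))
    (@En.n l41596 (nat_lit 4177) (nat_lit 11) (nat_lit 3))
    (@En.i (nat_lit 12487) (nat_lit 0) (nat_lit 6))
    (@En.n l41597 (nat_lit 12598) (nat_lit 14) (nat_lit 7))
    (@En.n l24877 (nat_lit 9759) (nat_lit 2) (nat_lit 13))
    (@En.n l3 (nat_lit 11017) (nat_lit 15) (nat_lit 2))))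
  (@Cl.mk (nat_lit 0x2000d000800060003000d0007000c0003000d000800040003000a000e0009) (nat_lit 0x760060304100764) (nat_lit 16) Lb.e (@T16.mk En
    (@En.n l31249 (nat_lit 11021) (nat_lit 13) (nat_lit 9))
    (@En.i (nat_lit 5332) (nat_lit 1) (nat_lit 14))
    (@En.n l149 (nat_lit 11598) (nat_lit 2) (nat_lit 10))
    (@En.n l12857 (nat_lit 11016) (nat_lit 3) (nat_lit 3))
    (@En.i (nat_lit 5612) (nat_lit 0) (nat_lit 4))
    (@En.n l18896 (nat_lit 8109) (nat_lit 5) (nat_lit 8))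
    (@En.n l3424 (nat_lit 5452) (nat_lit 7) (nat_lit 13))
    (@En.n l10307 (nat_lit 12066) (nat_lit 7) (nat_lit 3))
    (@En.i (nat_lit 8323) (nat_lit 0) (nat_lit 12))
    (@En.n l33768 (nat_lit 10545) (nat_lit 14) (nat_lit 7))
    (@En.n l24413 (nat_lit 11037) (nat_lit 11) (nat_lit 13))
    (@En.n l152 (nat_lit 4179) (nat_lit 11) (nat_lit 3))
    (@En.n l18896 (nat_lit 12486) (nat_lit 0) (nat_lit 6))
    (@En.n l97 (nat_lit 12644) (nat_lit 14) (nat_lit 8))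
    (@En.n l39828 (nat_lit 9402) (nat_lit 2) (nat_lit 13))
    (@En.n l17 (nat_lit 11018) (nat_lit 15) (nat_lit 2))))
  (@Cl.mk (nat_lit 0x3000a0003000b00090009000d000600050003000c00070007000d0004000d) (nat_lit 0x208255000900302) (nat_lit 16) Lb.e (@T16.mk En
    (@En.n l649 (nat_lit 6096) (nat_lit 0) (nat_lit 13))
    (@En.i (nat_lit 11025) (nat_lit 3) (nat_lit 4))
    (@En.n l3057 (nat_lit 11830) (nat_lit 2) (nat_lit 13))
    (@En.n l28746 (nat_lit 11016) (nat_lit 9) (nat_lit 7))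
    (@En.i (nat_lit 10367) (nat_lit 14) (nat_lit 7))
    (@En.i (nat_lit 11821) (nat_lit 8) (nat_lit 12))
    (@En.i (nat_lit 11022) (nat_lit 6) (nat_lit 3))
    (@En.n l18 (nat_lit 12488) (nat_lit 0) (nat_lit 5))
    (@En.i (nat_lit 11876) (nat_lit 8) (nat_lit 6))
    (@En.i (nat_lit 10161) (nat_lit 10) (nat_lit 13))
    (@En.i (nat_lit 11026) (nat_lit 7) (nat_lit 9))
    (@En.n l61 (nat_lit 10468) (nat_lit 14) (nat_lit 9))
    (@En.i (nat_lit 11705) (nat_lit 13) (nat_lit 11))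
    (@En.i (nat_lit 11021) (nat_lit 15) (nat_lit 3))
    (@En.i (nat_lit 9520) (nat_lit 0) (nat_lit 10))
    (@En.i (nat_lit 11020) (nat_lit 15) (nat_lit 3))))
  (@Cl.mk (nat_lit 0x3000a0004000b00090009000d000600050003000b00070007000d000c0005) (nat_lit 0x608237000600240) (nat_lit 16) Lb.e (@T16.mk En
    (@En.n l41483 (nat_lit 11560) (nat_lit 0) (nat_lit 5))
    (@En.n l77 (nat_lit 11021) (nat_lit 4) (nat_lit 12))
    (@En.n l3057 (nat_lit 11829) (nat_lit 2) (nat_lit 13))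
    (@En.n l28746 (nat_lit 11017) (nat_lit 9) (nat_lit 7))
    (@En.n l40847 (nat_lit 10369) (nat_lit 14) (nat_lit 7))
    (@En.i (nat_lit 10285) (nat_lit 6) (nat_lit 11))
    (@En.i (nat_lit 11024) (nat_lit 6) (nat_lit 3))
    (@En.n l18 (nat_lit 12490) (nat_lit 0) (nat_lit 5))
    (@En.i (nat_lit 11879) (nat_lit 8) (nat_lit 6))
    (@En.i (nat_lit 10160) (nat_lit 10) (nat_lit 13))
    (@En.i (nat_lit 11027) (nat_lit 7) (nat_lit 9))
    (@En.n l41018 (nat_lit 10211) (nat_lit 4) (nat_lit 9))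
    (@En.i (nat_lit 11706) (nat_lit 13) (nat_lit 11))
    (@En.n l28 (nat_lit 5593) (nat_lit 6) (nat_lit 4))
    (@En.i (nat_lit 9375) (nat_lit 0) (nat_lit 10))
    (@En.n l28 (nat_lit 11019) (nat_lit 15) (nat_lit 3))))
  (@Cl.mk (nat_lit 0x3000b00090009000d000700050003000c00070007000c0004000d00090004) (nat_lit 0x833600090030230) (nat_lit 16) Lb.e (@T16.mk En
    (@En.n l34234 (nat_lit 5615) (nat_lit 0) (nat_lit 4))
    (@En.i (nat_lit 11704) (nat_lit 0) (nat_lit 9))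
    (@En.n l3528 (nat_lit 6012) (nat_lit 1) (nat_lit 13))
    (@En.i (nat_lit 12065) (nat_lit 3) (nat_lit 4))
    (@En.n l34235 (nat_lit 9202) (nat_lit 0) (nat_lit 12))
    (@En.n l34236 (nat_lit 11018) (nat_lit 9) (nat_lit 7))
    (@En.i (nat_lit 10363) (nat_lit 14) (nat_lit 7))
    (@En.i (nat_lit 11896) (nat_lit 8) (nat_lit 12))
    (@En.n l33236 (nat_lit 11023) (nat_lit 15) (nat_lit 3))
    (@En.n l18 (nat_lit 12489) (nat_lit 0) (nat_lit 5))
    (@En.i (nat_lit 11805) (nat_lit 0) (nat_lit 7))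
    (@En.i (nat_lit 9399) (nat_lit 6) (nat_lit 13))
    (@En.i (nat_lit 12072) (nat_lit 7) (nat_lit 9))
    (@En.n l61 (nat_lit 10215) (nat_lit 14) (nat_lit 9))
    (@En.n l4252 (nat_lit 11605) (nat_lit 11) (nat_lit 11))
    (@En.n l7 (nat_lit 11019) (nat_lit 13) (nat_lit 3))))
  (@Cl.mk (nat_lit 0x300090003000c00090009000d000400070003000c00070007000d0004000d) (nat_lit 0x20a755000900302) (nat_lit 16) Lb.e (@T16.mk En
    (@En.n l33232 (nat_lit 6086) (nat_lit 0) (nat_lit 13))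
    (@En.n l29184 (nat_lit 4176) (nat_lit 3) (nat_lit 4))
    (@En.n l26427 (nat_lit 11826) (nat_lit 2) (nat_lit 13))
    (@En.n l33233 (nat_lit 4173) (nat_lit 9) (nat_lit 7))
    (@En.n l4260 (nat_lit 10550) (nat_lit 14) (nat_lit 7))
    (@En.n l33234 (nat_lit 11967) (nat_lit 8) (nat_lit 12))
    (@En.n l72 (nat_lit 11019) (nat_lit 6) (nat_lit 3))
    (@En.n l33235 (nat_lit 12252) (nat_lit 11) (nat_lit 7))
    (@En.i (nat_lit 11920) (nat_lit 8) (nat_lit 4))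
    (@En.i (nat_lit 10162) (nat_lit 0) (nat_lit 13))
    (@En.i (nat_lit 11919) (nat_lit 7) (nat_lit 9))
    (@En.n l61 (nat_lit 10214) (nat_lit 14) (nat_lit 9))
    (@En.i (nat_lit 11939) (nat_lit 13) (nat_lit 12))
    (@En.n l33236 (nat_lit 11023) (nat_lit 6) (nat_lit 3))
    (@En.n l26427 (nat_lit 5961) (nat_lit 0) (nat_lit 9))
    (@En.i (nat_lit 11024) (nat_lit 15) (nat_lit 3))))
  (@Cl.mk (nat_lit 0x3000c00070007000c0004000d000800040003000c00090009000d00040008) (nat_lit 0xa00302200173606) (nat_lit 16) Lb.e (@T16.mk En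
    (@En.n l690 (nat_lit 11707) (nat_lit 0) (nat_lit 8))
    (@En.n l18447 (nat_lit 11924) (nat_lit 10) (nat_lit 4))
    (@En.n l18448 (nat_lit 10167) (nat_lit 0) (nat_lit 13))
    (@En.n l18449 (nat_lit 11923) (nat_lit 7) (nat_lit 9))
    (@En.i (nat_lit 10213) (nat_lit 14) (nat_lit 9))
    (@En.n l10381 (nat_lit 40) (nat_lit 3) (nat_lit 12))
    (@En.n l18450 (nat_lit 11022) (nat_lit 13) (nat_lit 3))
    (@En.i (nat_lit 5614) (nat_lit 0) (nat_lit 4))
    (@En.n l18451 (nat_lit 11939) (nat_lit 0) (nat_lit 8))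
    (@En.n l18452 (nat_lit 6014) (nat_lit 1) (nat_lit 13))
    (@En.n l10307 (nat_lit 12064) (nat_lit 3) (nat_lit 4))
    (@En.n l18453 (nat_lit 9200) (nat_lit 0) (nat_lit 12))
    (@En.n l61 (nat_lit 4179) (nat_lit 9) (nat_lit 7))
    (@En.n l18452 (nat_lit 10544) (nat_lit 14) (nat_lit 7))
    (@En.n l18454 (nat_lit 11966) (nat_lit 8) (nat_lit 12))
    (@En.n l18455 (nat_lit 11021) (nat_lit 8) (nat_lit 3))))
noncomputable def a689 : T16 Cl := @T16.mk Cl
  (@Cl.mk (nat_lit 0x300090004000c00090009000d000400070003000b00070007000d000c0005) (nat_lit 0x30a777000900240) (nat_lit 16) Lb.e (@T16.mk En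
    (@En.n l33899 (nat_lit 11545) (nat_lit 0) (nat_lit 5))
    (@En.n l33900 (nat_lit 11023) (nat_lit 11) (nat_lit 12))
    (@En.n l26427 (nat_lit 11827) (nat_lit 2) (nat_lit 13))
    (@En.n l33901 (nat_lit 4177) (nat_lit 9) (nat_lit 7))
    (@En.n l33902 (nat_lit 11763) (nat_lit 14) (nat_lit 7))
    (@En.n l33234 (nat_lit 11088) (nat_lit 13) (nat_lit 11))
    (@En.n l72 (nat_lit 11020) (nat_lit 6) (nat_lit 3))
    (@En.n l33235 (nat_lit 12254) (nat_lit 11) (nat_lit 7))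
    (@En.i (nat_lit 11911) (nat_lit 8) (nat_lit 4))
    (@En.i (nat_lit 10163) (nat_lit 0) (nat_lit 13))
    (@En.n l4299 (nat_lit 11915) (nat_lit 7) (nat_lit 9))
    (@En.n l33903 (nat_lit 10210) (nat_lit 12) (nat_lit 9))
    (@En.n l33644 (nat_lit 11938) (nat_lit 13) (nat_lit 12))
    (@En.n l33904 (nat_lit 5592) (nat_lit 6) (nat_lit 4))
    (@En.n l11228 (nat_lit 6270) (nat_lit 0) (nat_lit 9))
    (@En.n l28 (nat_lit 11022) (nat_lit 15) (nat_lit 3))))
  (@Cl.mk (nat_lit 0x3000b00080008000d000600050003000c000b000800080004000d0005000a) (nat_lit 0x763500097510403) (nat_lit 16) Lb.e (@T16.mk En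
    (@En.n l15274 (nat_lit 9351) (nat_lit 0) (nat_lit 10))
    (@En.i (nat_lit 11562) (nat_lit 8) (nat_lit 5))
    (@En.n l14805 (nat_lit 10607) (nat_lit 2) (nat_lit 13))
    (@En.n l11 (nat_lit 11786) (nat_lit 3) (nat_lit 4))
    (@En.n l20242 (nat_lit 4174) (nat_lit 8) (nat_lit 8))
    (@En.n l936 (nat_lit 11467) (nat_lit 5) (nat_lit 8))
    (@En.n l55 (nat_lit 11020) (nat_lit 5) (nat_lit 11))
    (@En.n l2691 (nat_lit 10419) (nat_lit 8) (nat_lit 12))
    (@En.n l29184 (nat_lit 4176) (nat_lit 8) (nat_lit 3))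
    (@En.n l18 (nat_lit 12110) (nat_lit 0) (nat_lit 5))
    (@En.i (nat_lit 11878) (nat_lit 0) (nat_lit 6))
    (@En.i (nat_lit 10230) (nat_lit 12) (nat_lit 13))
    (@En.i (nat_lit 12071) (nat_lit 8) (nat_lit 8))
    (@En.n l61 (nat_lit 10068) (nat_lit 14) (nat_lit 8))
    (@En.i (nat_lit 11743) (nat_lit 11) (nat_lit 11))
    (@En.i (nat_lit 12065) (nat_lit 15) (nat_lit 3))))
  (@Cl.mk (nat_lit 0x2000d0005000d0003000b0003000c0009000d000500040003000b000e0007) (nat_lit 0x308070844000530) (nat_lit 16) Lb.e (@T16.mk En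
    (@En.n l152 (nat_lit 11019) (nat_lit 4) (nat_lit 7))
    (@En.n l14597 (nat_lit 2395) (nat_lit 4) (nat_lit 14))
    (@En.i (nat_lit 11897) (nat_lit 2) (nat_lit 11))
    (@En.i (nat_lit 11919) (nat_lit 3) (nat_lit 3))
    (@En.n l4296 (nat_lit 12497) (nat_lit 0) (nat_lit 4))
    (@En.i (nat_lit 12663) (nat_lit 5) (nat_lit 5))
    (@En.i (nat_lit 3845) (nat_lit 7) (nat_lit 13))
    (@En.n l4007 (nat_lit 10823) (nat_lit 14) (nat_lit 9))
    (@En.n l1867 (nat_lit 12626) (nat_lit 9) (nat_lit 12))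
    (@En.i (nat_lit 12072) (nat_lit 9) (nat_lit 3))
    (@En.i (nat_lit 9518) (nat_lit 11) (nat_lit 11))
    (@En.i (nat_lit 11027) (nat_lit 11) (nat_lit 3))
    (@En.n l1867 (nat_lit 6089) (nat_lit 0) (nat_lit 13))
    (@En.i (nat_lit 12071) (nat_lit 14) (nat_lit 5))
    (@En.i (nat_lit 11822) (nat_lit 2) (nat_lit 13))
    (@En.n l3 (nat_lit 11026) (nat_lit 15) (nat_lit 2))))
  (@Cl.mk (nat_lit 0x2000d000c00060003000b0004000c0009000d000500040003000a000e0007) (nat_lit 0x350070826000430) (nat_lit 16) Lb.e (@T16.mk En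
    (@En.n l152 (nat_lit 11020) (nat_lit 4) (nat_lit 7))
    (@En.n l14597 (nat_lit 2396) (nat_lit 1) (nat_lit 14))
    (@En.i (nat_lit 9286) (nat_lit 2) (nat_lit 10))
    (@En.n l4299 (nat_lit 11915) (nat_lit 3) (nat_lit 3))
    (@En.n l4296 (nat_lit 12496) (nat_lit 0) (nat_lit 4))
    (@En.n l148 (nat_lit 12666) (nat_lit 5) (nat_lit 5))
    (@En.i (nat_lit 4045) (nat_lit 7) (nat_lit 13))
    (@En.n l14475 (nat_lit 10827) (nat_lit 3) (nat_lit 9))
    (@En.n l8260 (nat_lit 11067) (nat_lit 9) (nat_lit 12))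
    (@En.n l5876 (nat_lit 12802) (nat_lit 9) (nat_lit 4))
    (@En.n l28755 (nat_lit 9512) (nat_lit 11) (nat_lit 11))
    (@En.n l28 (nat_lit 11026) (nat_lit 11) (nat_lit 3))
    (@En.n l8260 (nat_lit 11542) (nat_lit 0) (nat_lit 6))
    (@En.n l77 (nat_lit 12072) (nat_lit 14) (nat_lit 12))
    (@En.i (nat_lit 12433) (nat_lit 2) (nat_lit 13))
    (@En.n l3 (nat_lit 11027) (nat_lit 15) (nat_lit 2))))
  (@Cl.mk (nat_lit 0x20006000d0009000700030007000e000c00020007000a00040009000e0009) (nat_lit 0x45000230030642) (nat_lit 16) Lb.e (@T16.mk En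
    (@En.n l7432 (nat_lit 7106) (nat_lit 10) (nat_lit 9))
    (@En.n l10505 (nat_lit 4558) (nat_lit 11) (nat_lit 14))
    (@En.i (nat_lit 8066) (nat_lit 2) (nat_lit 9))
    (@En.i (nat_lit 9036) (nat_lit 3) (nat_lit 4))
    (@En.i (nat_lit 3980) (nat_lit 4) (nat_lit 10))
    (@En.i (nat_lit 9912) (nat_lit 5) (nat_lit 7))
    (@En.n l50 (nat_lit 11028) (nat_lit 6) (nat_lit 2))
    (@En.n l4270 (nat_lit 11030) (nat_lit 8) (nat_lit 12))
    (@En.n l2544 (nat_lit 11189) (nat_lit 9) (nat_lit 14))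
    (@En.i (nat_lit 7093) (nat_lit 2) (nat_lit 7))
    (@En.i (nat_lit 11011) (nat_lit 3) (nat_lit 3))
    (@En.n l725 (nat_lit 8990) (nat_lit 0) (nat_lit 7))
    (@En.i (nat_lit 11029) (nat_lit 13) (nat_lit 9))
    (@En.n l11131 (nat_lit 5585) (nat_lit 7) (nat_lit 13))
    (@En.i (nat_lit 9438) (nat_lit 7) (nat_lit 6))
    (@En.n l3 (nat_lit 11028) (nat_lit 15) (nat_lit 2))))
  (@Cl.mk (nat_lit 0x2000600090006000a0006000e000b000200070006000a0005000a000e000a) (nat_lit 0x40802500040722) (nat_lit 16) Lb.e (@T16.mk En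
    (@En.n l7432 (nat_lit 7986) (nat_lit 9) (nat_lit 10))
    (@En.n l10505 (nat_lit 4550) (nat_lit 10) (nat_lit 14))
    (@En.i (nat_lit 8068) (nat_lit 2) (nat_lit 10))
    (@En.n l18478 (nat_lit 11577) (nat_lit 3) (nat_lit 5))
    (@En.n l11 (nat_lit 11028) (nat_lit 4) (nat_lit 10))
    (@En.n l55 (nat_lit 11011) (nat_lit 14) (nat_lit 6))
    (@En.n l4466 (nat_lit 9915) (nat_lit 6) (nat_lit 7))
    (@En.n l50 (nat_lit 11029) (nat_lit 7) (nat_lit 2))
    (@En.n l18479 (nat_lit 11031) (nat_lit 9) (nat_lit 11))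
    (@En.n l4466 (nat_lit 11190) (nat_lit 10) (nat_lit 14))
    (@En.i (nat_lit 7676) (nat_lit 2) (nat_lit 6))
    (@En.n l18480 (nat_lit 12562) (nat_lit 3) (nat_lit 10))
    (@En.n l18481 (nat_lit 8930) (nat_lit 13) (nat_lit 6))
    (@En.n l18478 (nat_lit 12378) (nat_lit 9) (nat_lit 9))
    (@En.n l4466 (nat_lit 11523) (nat_lit 6) (nat_lit 6))
    (@En.n l3 (nat_lit 11029) (nat_lit 15) (nat_lit 2))))
  (@Cl.mk (nat_lit 0x20007000d000a000700030007000c000c00060009000400040009000e0009) (nat_lit 0xa5000250200752) (nat_lit 16) Lb.e (@T16.mk En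
    (@En.n l30365 (nat_lit 7107) (nat_lit 5) (nat_lit 9))
    (@En.n l20884 (nat_lit 4702) (nat_lit 1) (nat_lit 14))
    (@En.n l12583 (nat_lit 11493) (nat_lit 2) (nat_lit 9))
    (@En.n l7126 (nat_lit 11028) (nat_lit 3) (nat_lit 4))
    (@En.i (nat_lit 9038) (nat_lit 4) (nat_lit 4))
    (@En.n l6825 (nat_lit 3103) (nat_lit 5) (nat_lit 9))
    (@En.n l14558 (nat_lit 10110) (nat_lit 6) (nat_lit 6))
    (@En.n l619 (nat_lit 11032) (nat_lit 8) (nat_lit 12))
    (@En.n l20884 (nat_lit 8096) (nat_lit 9) (nat_lit 12))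
    (@En.i (nat_lit 7084) (nat_lit 10) (nat_lit 7))
    (@En.n l6362 (nat_lit 11007) (nat_lit 10) (nat_lit 3))
    (@En.n l19470 (nat_lit 8939) (nat_lit 0) (nat_lit 7))
    (@En.n l20884 (nat_lit 11031) (nat_lit 13) (nat_lit 10))
    (@En.n l28708 (nat_lit 5588) (nat_lit 14) (nat_lit 13))
    (@En.n l6825 (nat_lit 9433) (nat_lit 3) (nat_lit 7))
    (@En.n l50 (nat_lit 11030) (nat_lit 15) (nat_lit 2))))
  (@Cl.mk (nat_lit 0x20007000a0006000b0006000b000b00060005000900050005000a000e000a) (nat_lit 0x40304200300862) (nat_lit 16) Lb.e (@T16.mk En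
    (@En.n l33978 (nat_lit 7988) (nat_lit 12) (nat_lit 10))
    (@En.i (nat_lit 4703) (nat_lit 1) (nat_lit 14))
    (@En.n l33979 (nat_lit 11494) (nat_lit 2) (nat_lit 10))
    (@En.n l33980 (nat_lit 11029) (nat_lit 3) (nat_lit 5))
    (@En.n l33981 (nat_lit 11036) (nat_lit 4) (nat_lit 5))
    (@En.n l33982 (nat_lit 11030) (nat_lit 5) (nat_lit 9))
    (@En.i (nat_lit 11007) (nat_lit 6) (nat_lit 5))
    (@En.n l33983 (nat_lit 10114) (nat_lit 7) (nat_lit 6))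
    (@En.n l4380 (nat_lit 11033) (nat_lit 9) (nat_lit 11))
    (@En.i (nat_lit 8097) (nat_lit 10) (nat_lit 11))
    (@En.n l18244 (nat_lit 7088) (nat_lit 11) (nat_lit 6))
    (@En.n l33984 (nat_lit 11555) (nat_lit 12) (nat_lit 11))
    (@En.n l33985 (nat_lit 8932) (nat_lit 13) (nat_lit 6))
    (@En.n l33984 (nat_lit 12375) (nat_lit 8) (nat_lit 10))
    (@En.n l33986 (nat_lit 9434) (nat_lit 13) (nat_lit 7))
    (@En.n l17 (nat_lit 11031) (nat_lit 15) (nat_lit 2))))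
  (@Cl.mk (nat_lit 0x20008000d000b000700030007000c00050008000e000400020009000e0009) (nat_lit 0x3a6000402b00237) (nat_lit 16) Lb.e (@T16.mk En
    (@En.i (nat_lit 7804) (nat_lit 13) (nat_lit 9))
    (@En.n l7489 (nat_lit 3414) (nat_lit 1) (nat_lit 14))
    (@En.n l810 (nat_lit 4544) (nat_lit 2) (nat_lit 9))
    (@En.n l11 (nat_lit 11032) (nat_lit 3) (nat_lit 2))
    (@En.n l117 (nat_lit 11030) (nat_lit 4) (nat_lit 4))
    (@En.n l37698 (nat_lit 5577) (nat_lit 6) (nat_lit 14))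
    (@En.n l6105 (nat_lit 3977) (nat_lit 10) (nat_lit 8))
    (@En.n l2576 (nat_lit 7489) (nat_lit 7) (nat_lit 5))
    (@En.n l7489 (nat_lit 8090) (nat_lit 9) (nat_lit 12))
    (@En.i (nat_lit 7083) (nat_lit 5) (nat_lit 7))
    (@En.n l3213 (nat_lit 11034) (nat_lit 10) (nat_lit 3))
    (@En.n l2669 (nat_lit 9306) (nat_lit 0) (nat_lit 7))
    (@En.n l6606 (nat_lit 11033) (nat_lit 13) (nat_lit 11))
    (@En.n l7489 (nat_lit 5612) (nat_lit 10) (nat_lit 13))
    (@En.i (nat_lit 9437) (nat_lit 11) (nat_lit 8))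
    (@En.n l50 (nat_lit 11032) (nat_lit 15) (nat_lit 2))))
  (@Cl.mk (nat_lit 0x20008000b0006000c0006000b000500040008000e00050002000a000e000a) (nat_lit 0x450301003a00138) (nat_lit 16) Lb.e (@T16.mk En
    (@En.n l31248 (nat_lit 7805) (nat_lit 13) (nat_lit 10))
    (@En.i (nat_lit 3415) (nat_lit 1) (nat_lit 14))
    (@En.n l5011 (nat_lit 4540) (nat_lit 2) (nat_lit 10))
    (@En.n l50 (nat_lit 11033) (nat_lit 3) (nat_lit 2))
    (@En.n l28 (nat_lit 11031) (nat_lit 4) (nat_lit 5))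
    (@En.n l1690 (nat_lit 5613) (nat_lit 6) (nat_lit 14))
    (@En.n l10674 (nat_lit 11032) (nat_lit 6) (nat_lit 8))
    (@En.n l28 (nat_lit 11034) (nat_lit 7) (nat_lit 4))
    (@En.n l21760 (nat_lit 7490) (nat_lit 8) (nat_lit 5))
    (@En.i (nat_lit 8091) (nat_lit 10) (nat_lit 11))
    (@En.n l7457 (nat_lit 7086) (nat_lit 6) (nat_lit 6))
    (@En.n l5011 (nat_lit 12090) (nat_lit 8) (nat_lit 12))
    (@En.n l28161 (nat_lit 8946) (nat_lit 13) (nat_lit 6))
    (@En.n l5011 (nat_lit 5622) (nat_lit 14) (nat_lit 11))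
    (@En.i (nat_lit 9445) (nat_lit 11) (nat_lit 8))
    (@En.n l17 (nat_lit 11033) (nat_lit 15) (nat_lit 2))))
  (@Cl.mk (nat_lit 0x20008000d0006000c00030007000c00040008000e00040002000a000e0009) (nat_lit 0x490a00502b00827) (nat_lit 16) Lb.e (@T16.mk En
    (@En.n l5551 (nat_lit 7806) (nat_lit 13) (nat_lit 9))
    (@En.i (nat_lit 3416) (nat_lit 1) (nat_lit 14))
    (@En.n l9591 (nat_lit 11439) (nat_lit 2) (nat_lit 10))
    (@En.n l50 (nat_lit 11034) (nat_lit 3) (nat_lit 2))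
    (@En.i (nat_lit 11007) (nat_lit 4) (nat_lit 4))
    (@En.n l1690 (nat_lit 5574) (nat_lit 6) (nat_lit 14))
    (@En.i (nat_lit 3973) (nat_lit 6) (nat_lit 8))
    (@En.i (nat_lit 11035) (nat_lit 7) (nat_lit 4))
    (@En.i (nat_lit 8089) (nat_lit 9) (nat_lit 12))
    (@En.n l1897 (nat_lit 12125) (nat_lit 5) (nat_lit 7))
    (@En.n l22384 (nat_lit 11032) (nat_lit 10) (nat_lit 3))
    (@En.i (nat_lit 12761) (nat_lit 8) (nat_lit 12))
    (@En.n l5588 (nat_lit 7460) (nat_lit 13) (nat_lit 6))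
    (@En.n l2038 (nat_lit 5611) (nat_lit 10) (nat_lit 13))
    (@En.i (nat_lit 9442) (nat_lit 11) (nat_lit 8))
    (@En.n l17 (nat_lit 11034) (nat_lit 15) (nat_lit 2))))
  (@Cl.mk (nat_lit 0x20008000c0006000c000a0004000800040008000e00060002000a000e0008) (nat_lit 0x260a60601300785) (nat_lit 16) Lb.e (@T16.mk En
    (@En.n l5551 (nat_lit 8016) (nat_lit 13) (nat_lit 8))
    (@En.i (nat_lit 12815) (nat_lit 1) (nat_lit 14))
    (@En.n l32225 (nat_lit 10869) (nat_lit 2) (nat_lit 10))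
    (@En.n l50 (nat_lit 11035) (nat_lit 3) (nat_lit 2))
    (@En.n l22266 (nat_lit 11001) (nat_lit 4) (nat_lit 6))
    (@En.n l1690 (nat_lit 5599) (nat_lit 6) (nat_lit 14))
    (@En.n l6362 (nat_lit 6472) (nat_lit 6) (nat_lit 8))
    (@En.i (nat_lit 11033) (nat_lit 7) (nat_lit 4))
    (@En.n l32226 (nat_lit 12126) (nat_lit 4) (nat_lit 8))
    (@En.n l21760 (nat_lit 7491) (nat_lit 9) (nat_lit 4))
    (@En.n l27662 (nat_lit 11006) (nat_lit 11) (nat_lit 10))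
    (@En.n l7457 (nat_lit 11696) (nat_lit 8) (nat_lit 12))
    (@En.n l30423 (nat_lit 6950) (nat_lit 13) (nat_lit 6))
    (@En.n l2038 (nat_lit 8039) (nat_lit 10) (nat_lit 12))
    (@En.n l29967 (nat_lit 6274) (nat_lit 11) (nat_lit 8))
    (@En.n l17 (nat_lit 11035) (nat_lit 15) (nat_lit 2))))
  (@Cl.mk (nat_lit 0x2000a00090006000a0006000b0006000c0007000600050004000a000e000a) (nat_lit 0x550304010000825) (nat_lit 16) Lb.e (@T16.mk En
    (@En.n l17644 (nat_lit 10417) (nat_lit 13) (nat_lit 10))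
    (@En.n l15283 (nat_lit 10912) (nat_lit 1) (nat_lit 14))
    (@En.n l27635 (nat_lit 11594) (nat_lit 2) (nat_lit 10))
    (@En.n l33694 (nat_lit 11578) (nat_lit 3) (nat_lit 4))
    (@En.n l25903 (nat_lit 11037) (nat_lit 4) (nat_lit 5))
    (@En.n l27635 (nat_lit 11006) (nat_lit 5) (nat_lit 6))
    (@En.n l33695 (nat_lit 10115) (nat_lit 6) (nat_lit 7))
    (@En.n l33696 (nat_lit 5589) (nat_lit 8) (nat_lit 12))
    (@En.n l33697 (nat_lit 6525) (nat_lit 8) (nat_lit 6))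
    (@En.n l15283 (nat_lit 8201) (nat_lit 10) (nat_lit 11))
    (@En.n l33698 (nat_lit 11987) (nat_lit 11) (nat_lit 6))
    (@En.i (nat_lit 11563) (nat_lit 12) (nat_lit 10))
    (@En.n l33699 (nat_lit 11042) (nat_lit 13) (nat_lit 6))
    (@En.n l217 (nat_lit 12579) (nat_lit 14) (nat_lit 9))
    (@En.n l33700 (nat_lit 10390) (nat_lit 11) (nat_lit 10))
    (@En.n l28 (nat_lit 11036) (nat_lit 15) (nat_lit 2))))
  (@Cl.mk (nat_lit 0x2000900080006000d0006000b00030007000d000800050003000a000e000a) (nat_lit 0x340504007600874) (nat_lit 16) Lb.e (@T16.mk En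
    (@En.n l33281 (nat_lit 11896) (nat_lit 13) (nat_lit 10))
    (@En.n l3023 (nat_lit 11601) (nat_lit 1) (nat_lit 14))
    (@En.n l2588 (nat_lit 11596) (nat_lit 2) (nat_lit 10))
    (@En.n l33282 (nat_lit 11040) (nat_lit 3) (nat_lit 3))
    (@En.n l3023 (nat_lit 11033) (nat_lit 4) (nat_lit 5))
    (@En.i (nat_lit 11354) (nat_lit 5) (nat_lit 8))
    (@En.n l28267 (nat_lit 11930) (nat_lit 7) (nat_lit 13))
    (@En.n l33283 (nat_lit 9038) (nat_lit 7) (nat_lit 7))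
    (@En.n l33284 (nat_lit 11038) (nat_lit 8) (nat_lit 3))
    (@En.n l3023 (nat_lit 8200) (nat_lit 0) (nat_lit 11))
    (@En.n l33285 (nat_lit 11981) (nat_lit 6) (nat_lit 6))
    (@En.n l4357 (nat_lit 11979) (nat_lit 12) (nat_lit 13))
    (@En.n l13772 (nat_lit 12425) (nat_lit 13) (nat_lit 6))
    (@En.n l2588 (nat_lit 12577) (nat_lit 14) (nat_lit 8))
    (@En.n l28267 (nat_lit 10388) (nat_lit 5) (nat_lit 9))
    (@En.n l3 (nat_lit 11037) (nat_lit 15) (nat_lit 2))))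
  (@Cl.mk (nat_lit 0x2000900080006000d000a000700030007000d000800060003000a000e0009) (nat_lit 0x440440004600794) (nat_lit 16) Lb.e (@T16.mk En
    (@En.n l18407 (nat_lit 10418) (nat_lit 13) (nat_lit 9))
    (@En.i (nat_lit 12224) (nat_lit 1) (nat_lit 14))
    (@En.n l18408 (nat_lit 12221) (nat_lit 2) (nat_lit 10))
    (@En.i (nat_lit 11041) (nat_lit 3) (nat_lit 3))
    (@En.n l7081 (nat_lit 11035) (nat_lit 4) (nat_lit 6))
    (@En.n l18240 (nat_lit 11353) (nat_lit 5) (nat_lit 8))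
    (@En.n l1690 (nat_lit 11933) (nat_lit 7) (nat_lit 13))
    (@En.n l18409 (nat_lit 6528) (nat_lit 7) (nat_lit 7))
    (@En.n l18410 (nat_lit 11037) (nat_lit 8) (nat_lit 3))
    (@En.n l18411 (nat_lit 11300) (nat_lit 0) (nat_lit 7))
    (@En.n l18412 (nat_lit 11036) (nat_lit 11) (nat_lit 10))
    (@En.n l18411 (nat_lit 12161) (nat_lit 12) (nat_lit 13))
    (@En.n l18413 (nat_lit 11160) (nat_lit 13) (nat_lit 6))
    (@En.n l4758 (nat_lit 12576) (nat_lit 14) (nat_lit 8))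
    (@En.n l18414 (nat_lit 10386) (nat_lit 5) (nat_lit 9))
    (@En.n l17 (nat_lit 11038) (nat_lit 15) (nat_lit 2))))
  (@Cl.mk (nat_lit 0x2000800070006000c0006000c000b00040008000400090005000a000e000a) (nat_lit 0x600902504030856) (nat_lit 16) Lb.e (@T16.mk En
    (@En.n l22584 (nat_lit 10285) (nat_lit 11) (nat_lit 10))
    (@En.n l41059 (nat_lit 11619) (nat_lit 1) (nat_lit 14))
    (@En.n l30765 (nat_lit 11634) (nat_lit 2) (nat_lit 10))
    (@En.n l41060 (nat_lit 11031) (nat_lit 3) (nat_lit 5))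
    (@En.n l41061 (nat_lit 9331) (nat_lit 4) (nat_lit 9))
    (@En.n l41062 (nat_lit 11583) (nat_lit 5) (nat_lit 4))
    (@En.n l41063 (nat_lit 9036) (nat_lit 6) (nat_lit 8))
    (@En.n l41064 (nat_lit 11575) (nat_lit 7) (nat_lit 4))
    (@En.n l41065 (nat_lit 11037) (nat_lit 9) (nat_lit 11))
    (@En.n l41059 (nat_lit 7952) (nat_lit 10) (nat_lit 12))
    (@En.n l41066 (nat_lit 10420) (nat_lit 11) (nat_lit 6))
    (@En.n l36700 (nat_lit 12078) (nat_lit 12) (nat_lit 12))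
    (@En.n l6918 (nat_lit 8763) (nat_lit 13) (nat_lit 6))
    (@En.n l41067 (nat_lit 12698) (nat_lit 14) (nat_lit 7))
    (@En.i (nat_lit 9810) (nat_lit 6) (nat_lit 8))
    (@En.n l936 (nat_lit 11039) (nat_lit 15) (nat_lit 2))))
noncomputable def a690 : T16 Cl := @T16.mk Cl
  (@Cl.mk (nat_lit 0x2000900070006000d0006000c00030007000d000400090003000a000e000a) (nat_lit 0x100501001020875) (nat_lit 16) Lb.e (@T16.mk En
    (@En.n l22584 (nat_lit 11821) (nat_lit 13) (nat_lit 10))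
    (@En.n l41680 (nat_lit 11623) (nat_lit 1) (nat_lit 14))
    (@En.i (nat_lit 11374) (nat_lit 2) (nat_lit 10))
    (@En.n l41681 (nat_lit 11037) (nat_lit 3) (nat_lit 3))
    (@En.n l41682 (nat_lit 6480) (nat_lit 4) (nat_lit 9))
    (@En.i (nat_lit 11039) (nat_lit 5) (nat_lit 4))
    (@En.i (nat_lit 4181) (nat_lit 7) (nat_lit 13))
    (@En.n l6918 (nat_lit 9034) (nat_lit 7) (nat_lit 7))
    (@En.n l41683 (nat_lit 11041) (nat_lit 8) (nat_lit 3))
    (@En.n l30769 (nat_lit 7352) (nat_lit 0) (nat_lit 12))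
    (@En.n l41684 (nat_lit 11980) (nat_lit 6) (nat_lit 6))
    (@En.n l36700 (nat_lit 11975) (nat_lit 12) (nat_lit 13))
    (@En.n l6918 (nat_lit 11894) (nat_lit 13) (nat_lit 6))
    (@En.n l41685 (nat_lit 12623) (nat_lit 14) (nat_lit 7))
    (@En.i (nat_lit 6220) (nat_lit 5) (nat_lit 9))
    (@En.n l936 (nat_lit 11040) (nat_lit 15) (nat_lit 2))))
  (@Cl.mk (nat_lit 0x2000900070006000d000b000700030007000d000500090003000a000e0009) (nat_lit 0x100440004020795) (nat_lit 16) Lb.e (@T16.mk En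
    (@En.n l33197 (nat_lit 10419) (nat_lit 13) (nat_lit 9))
    (@En.i (nat_lit 11625) (nat_lit 1) (nat_lit 14))
    (@En.n l33198 (nat_lit 11376) (nat_lit 2) (nat_lit 10))
    (@En.n l50 (nat_lit 11038) (nat_lit 3) (nat_lit 3))
    (@En.n l20171 (nat_lit 6479) (nat_lit 4) (nat_lit 9))
    (@En.n l3528 (nat_lit 11574) (nat_lit 5) (nat_lit 5))
    (@En.n l33199 (nat_lit 4171) (nat_lit 7) (nat_lit 13))
    (@En.n l21271 (nat_lit 6577) (nat_lit 7) (nat_lit 7))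
    (@En.n l33200 (nat_lit 11040) (nat_lit 8) (nat_lit 3))
    (@En.n l33201 (nat_lit 11297) (nat_lit 0) (nat_lit 7))
    (@En.n l33202 (nat_lit 11583) (nat_lit 11) (nat_lit 11))
    (@En.n l3201 (nat_lit 12183) (nat_lit 12) (nat_lit 13))
    (@En.n l10264 (nat_lit 11162) (nat_lit 13) (nat_lit 6))
    (@En.n l33203 (nat_lit 12648) (nat_lit 14) (nat_lit 7))
    (@En.n l20171 (nat_lit 6223) (nat_lit 5) (nat_lit 9))
    (@En.n l17 (nat_lit 11041) (nat_lit 15) (nat_lit 2))))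
  (@Cl.mk (nat_lit 0x2000b0006000a0005000b0005000c000b000600050004000a0005000e000b) (nat_lit 0x504080160007032) (nat_lit 16) Lb.e (@T16.mk En
    (@En.n l55 (nat_lit 11043) (nat_lit 12) (nat_lit 11))
    (@En.n l2202 (nat_lit 9509) (nat_lit 1) (nat_lit 14))
    (@En.n l35775 (nat_lit 9224) (nat_lit 2) (nat_lit 5))
    (@En.n l6081 (nat_lit 11159) (nat_lit 3) (nat_lit 10))
    (@En.n l18 (nat_lit 8568) (nat_lit 4) (nat_lit 4))
    (@En.n l35776 (nat_lit 12425) (nat_lit 5) (nat_lit 5))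
    (@En.n l6420 (nat_lit 6574) (nat_lit 6) (nat_lit 6))
    (@En.n l23763 (nat_lit 11888) (nat_lit 8) (nat_lit 11))
    (@En.n l13371 (nat_lit 5310) (nat_lit 9) (nat_lit 12))
    (@En.n l23762 (nat_lit 7910) (nat_lit 9) (nat_lit 5))
    (@En.n l35777 (nat_lit 8995) (nat_lit 11) (nat_lit 11))
    (@En.i (nat_lit 9204) (nat_lit 12) (nat_lit 5))
    (@En.n l23763 (nat_lit 9747) (nat_lit 13) (nat_lit 10))
    (@En.n l35778 (nat_lit 9189) (nat_lit 14) (nat_lit 6))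
    (@En.n l35779 (nat_lit 10302) (nat_lit 2) (nat_lit 11))
    (@En.n l11 (nat_lit 11042) (nat_lit 15) (nat_lit 2))))
  (@Cl.mk (nat_lit 0x4000b0005000b000b000a0005000900050005000b0006000c000b00070005) (nat_lit 0x60132050030a700) (nat_lit 16) Lb.e (@T16.mk En
    (@En.n l20228 (nat_lit 12424) (nat_lit 0) (nat_lit 5))
    (@En.n l575 (nat_lit 7497) (nat_lit 1) (nat_lit 7))
    (@En.n l43320 (nat_lit 11887) (nat_lit 5) (nat_lit 11))
    (@En.n l7293 (nat_lit 8952) (nat_lit 2) (nat_lit 12))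
    (@En.n l43321 (nat_lit 6668) (nat_lit 4) (nat_lit 6))
    (@En.n l43322 (nat_lit 9937) (nat_lit 12) (nat_lit 11))
    (@En.n l1577 (nat_lit 11042) (nat_lit 11) (nat_lit 5))
    (@En.n l517 (nat_lit 10272) (nat_lit 7) (nat_lit 5))
    (@En.n l43320 (nat_lit 9748) (nat_lit 10) (nat_lit 9))
    (@En.n l7293 (nat_lit 11046) (nat_lit 1) (nat_lit 5))
    (@En.n l457 (nat_lit 9179) (nat_lit 6) (nat_lit 10))
    (@En.n l1578 (nat_lit 11044) (nat_lit 5) (nat_lit 11))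
    (@En.n l43323 (nat_lit 9711) (nat_lit 2) (nat_lit 11))
    (@En.n l43324 (nat_lit 8964) (nat_lit 5) (nat_lit 5))
    (@En.n l6081 (nat_lit 10276) (nat_lit 0) (nat_lit 11))
    (@En.n l18 (nat_lit 8572) (nat_lit 12) (nat_lit 4))))
  (@Cl.mk (nat_lit 0x2000b0007000c000b000800050004000c0005000b000900040008000e0005) (nat_lit 0x4068200802103c0) (nat_lit 16) Lb.e (@T16.mk En
    (@En.n l11 (nat_lit 11043) (nat_lit 7) (nat_lit 5))
    (@En.n l20647 (nat_lit 7343) (nat_lit 1) (nat_lit 14))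
    (@En.n l34531 (nat_lit 9770) (nat_lit 2) (nat_lit 8))
    (@En.n l14016 (nat_lit 11047) (nat_lit 3) (nat_lit 4))
    (@En.n l6631 (nat_lit 9156) (nat_lit 4) (nat_lit 9))
    (@En.n l14869 (nat_lit 10061) (nat_lit 1) (nat_lit 11))
    (@En.n l34532 (nat_lit 8961) (nat_lit 6) (nat_lit 5))
    (@En.n l34533 (nat_lit 11051) (nat_lit 8) (nat_lit 12))
    (@En.n l18 (nat_lit 9043) (nat_lit 8) (nat_lit 4))
    (@En.n l6631 (nat_lit 11902) (nat_lit 9) (nat_lit 5))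
    (@En.i (nat_lit 6393) (nat_lit 11) (nat_lit 8))
    (@En.n l34531 (nat_lit 11891) (nat_lit 12) (nat_lit 11))
    (@En.n l9845 (nat_lit 12771) (nat_lit 13) (nat_lit 12))
    (@En.n l34534 (nat_lit 6661) (nat_lit 14) (nat_lit 7))
    (@En.n l27243 (nat_lit 9724) (nat_lit 11) (nat_lit 11))
    (@En.n l28 (nat_lit 11044) (nat_lit 15) (nat_lit 2))))
  (@Cl.mk (nat_lit 0x40004000a00090006000c000b00080006000400070005000c000c000a0008) (nat_lit 0x34096300003321) (nat_lit 16) Lb.e (@T16.mk En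
    (@En.n l7975 (nat_lit 2361) (nat_lit 0) (nat_lit 8))
    (@En.n l41853 (nat_lit 10396) (nat_lit 1) (nat_lit 10))
    (@En.n l14916 (nat_lit 11048) (nat_lit 4) (nat_lit 12))
    (@En.n l32016 (nat_lit 9708) (nat_lit 13) (nat_lit 12))
    (@En.n l55 (nat_lit 12194) (nat_lit 4) (nat_lit 5))
    (@En.n l14918 (nat_lit 10094) (nat_lit 11) (nat_lit 7))
    (@En.n l41854 (nat_lit 9059) (nat_lit 6) (nat_lit 4))
    (@En.i (nat_lit 12418) (nat_lit 0) (nat_lit 6))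
    (@En.n l41855 (nat_lit 6296) (nat_lit 1) (nat_lit 8))
    (@En.n l32913 (nat_lit 11832) (nat_lit 5) (nat_lit 11))
    (@En.n l28029 (nat_lit 11046) (nat_lit 11) (nat_lit 12))
    (@En.n l41856 (nat_lit 11043) (nat_lit 4) (nat_lit 6))
    (@En.n l13962 (nat_lit 9749) (nat_lit 7) (nat_lit 9))
    (@En.n l3517 (nat_lit 9938) (nat_lit 14) (nat_lit 10))
    (@En.n l152 (nat_lit 9190) (nat_lit 12) (nat_lit 4))
    (@En.n l41857 (nat_lit 10145) (nat_lit 0) (nat_lit 4))))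
  (@Cl.mk (nat_lit 0x40004000b0009000c000a000700050004000b00070006000c000c00050009) (nat_lit 0x34870007004504) (nat_lit 16) Lb.e (@T16.mk En
    (@En.i (nat_lit 4191) (nat_lit 0) (nat_lit 9))
    (@En.n l27667 (nat_lit 10416) (nat_lit 1) (nat_lit 5))
    (@En.n l742 (nat_lit 11047) (nat_lit 4) (nat_lit 12))
    (@En.n l564 (nat_lit 9710) (nat_lit 1) (nat_lit 12))
    (@En.n l32892 (nat_lit 12371) (nat_lit 10) (nat_lit 6))
    (@En.n l32893 (nat_lit 11045) (nat_lit 5) (nat_lit 7))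
    (@En.n l32894 (nat_lit 10281) (nat_lit 7) (nat_lit 11))
    (@En.n l25470 (nat_lit 9058) (nat_lit 12) (nat_lit 4))
    (@En.n l28572 (nat_lit 12416) (nat_lit 0) (nat_lit 5))
    (@En.i (nat_lit 6297) (nat_lit 1) (nat_lit 7))
    (@En.n l28573 (nat_lit 12684) (nat_lit 11) (nat_lit 10))
    (@En.i (nat_lit 8954) (nat_lit 6) (nat_lit 12))
    (@En.n l8381 (nat_lit 9751) (nat_lit 13) (nat_lit 9))
    (@En.n l16289 (nat_lit 9739) (nat_lit 14) (nat_lit 11))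
    (@En.n l32895 (nat_lit 9189) (nat_lit 12) (nat_lit 4))
    (@En.n l2172 (nat_lit 10142) (nat_lit 0) (nat_lit 4))))
  (@Cl.mk (nat_lit 0x2000b0009000c000a000800050004000c00070006000c00040008000e0004) (nat_lit 0x4686200a00401a0) (nat_lit 16) Lb.e (@T16.mk En
    (@En.n l50 (nat_lit 11046) (nat_lit 15) (nat_lit 4))
    (@En.n l27775 (nat_lit 7333) (nat_lit 1) (nat_lit 14))
    (@En.n l50 (nat_lit 4192) (nat_lit 2) (nat_lit 8))
    (@En.n l33862 (nat_lit 11050) (nat_lit 3) (nat_lit 4))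
    (@En.n l859 (nat_lit 10060) (nat_lit 0) (nat_lit 12))
    (@En.n l36989 (nat_lit 12363) (nat_lit 5) (nat_lit 6))
    (@En.n l36990 (nat_lit 11048) (nat_lit 6) (nat_lit 7))
    (@En.n l36991 (nat_lit 11049) (nat_lit 8) (nat_lit 12))
    (@En.n l29576 (nat_lit 9060) (nat_lit 8) (nat_lit 4))
    (@En.n l13952 (nat_lit 12734) (nat_lit 9) (nat_lit 5))
    (@En.i (nat_lit 6396) (nat_lit 11) (nat_lit 8))
    (@En.n l36992 (nat_lit 12686) (nat_lit 12) (nat_lit 10))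
    (@En.i (nat_lit 12511) (nat_lit 6) (nat_lit 12))
    (@En.n l27774 (nat_lit 9772) (nat_lit 14) (nat_lit 9))
    (@En.i (nat_lit 9721) (nat_lit 11) (nat_lit 11))
    (@En.n l17 (nat_lit 11047) (nat_lit 15) (nat_lit 2))))
  (@Cl.mk (nat_lit 0x2000a00090007000c000b00090006000400070005000c00090007000e0004) (nat_lit 0x460981000023090) (nat_lit 16) Lb.e (@T16.mk En
    (@En.n l18134 (nat_lit 11045) (nat_lit 15) (nat_lit 4))
    (@En.n l25727 (nat_lit 7334) (nat_lit 1) (nat_lit 14))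
    (@En.i (nat_lit 4190) (nat_lit 2) (nat_lit 7))
    (@En.n l36005 (nat_lit 9837) (nat_lit 3) (nat_lit 9))
    (@En.n l36006 (nat_lit 10058) (nat_lit 5) (nat_lit 12))
    (@En.n l36007 (nat_lit 12193) (nat_lit 5) (nat_lit 5))
    (@En.n l117 (nat_lit 10102) (nat_lit 6) (nat_lit 7))
    (@En.n l36008 (nat_lit 9064) (nat_lit 7) (nat_lit 4))
    (@En.n l24613 (nat_lit 12732) (nat_lit 8) (nat_lit 6))
    (@En.n l36009 (nat_lit 6249) (nat_lit 10) (nat_lit 9))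
    (@En.n l25727 (nat_lit 12107) (nat_lit 11) (nat_lit 11))
    (@En.n l36010 (nat_lit 11047) (nat_lit 12) (nat_lit 12))
    (@En.n l36011 (nat_lit 11044) (nat_lit 13) (nat_lit 7))
    (@En.n l22688 (nat_lit 9771) (nat_lit 14) (nat_lit 9))
    (@En.i (nat_lit 9720) (nat_lit 14) (nat_lit 10))
    (@En.n l17 (nat_lit 11048) (nat_lit 15) (nat_lit 2))))
  (@Cl.mk (nat_lit 0x2000b000a0007000b00080005000c00060005000b000400090008000e0005) (nat_lit 0x830210900804460) (nat_lit 16) Lb.e (@T16.mk En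
    (@En.n l3098 (nat_lit 10281) (nat_lit 15) (nat_lit 5))
    (@En.n l2604 (nat_lit 6861) (nat_lit 1) (nat_lit 14))
    (@En.n l3 (nat_lit 11142) (nat_lit 2) (nat_lit 8))
    (@En.n l6175 (nat_lit 11048) (nat_lit 3) (nat_lit 9))
    (@En.n l8962 (nat_lit 11052) (nat_lit 4) (nat_lit 4))
    (@En.n l3596 (nat_lit 10068) (nat_lit 0) (nat_lit 11))
    (@En.n l5154 (nat_lit 11721) (nat_lit 6) (nat_lit 5))
    (@En.n l29180 (nat_lit 10131) (nat_lit 7) (nat_lit 6))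
    (@En.n l29181 (nat_lit 11304) (nat_lit 9) (nat_lit 12))
    (@En.n l6083 (nat_lit 12812) (nat_lit 9) (nat_lit 5))
    (@En.n l29182 (nat_lit 5602) (nat_lit 11) (nat_lit 8))
    (@En.n l29183 (nat_lit 12680) (nat_lit 12) (nat_lit 11))
    (@En.n l28 (nat_lit 11436) (nat_lit 13) (nat_lit 7))
    (@En.n l77 (nat_lit 9776) (nat_lit 14) (nat_lit 10))
    (@En.n l8565 (nat_lit 11092) (nat_lit 10) (nat_lit 11))
    (@En.n l17 (nat_lit 11049) (nat_lit 15) (nat_lit 2))))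
  (@Cl.mk (nat_lit 0x2000b0008000c0009000800050004000c000a0008000700040008000e0006) (nat_lit 0x3387400a1100460) (nat_lit 16) Lb.e (@T16.mk En
    (@En.n l9877 (nat_lit 10417) (nat_lit 7) (nat_lit 6))
    (@En.n l39798 (nat_lit 7247) (nat_lit 1) (nat_lit 14))
    (@En.n l39799 (nat_lit 11560) (nat_lit 2) (nat_lit 8))
    (@En.n l25864 (nat_lit 11044) (nat_lit 3) (nat_lit 4))
    (@En.n l39800 (nat_lit 12365) (nat_lit 4) (nat_lit 7))
    (@En.n l23711 (nat_lit 9157) (nat_lit 5) (nat_lit 8))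
    (@En.n l39801 (nat_lit 10142) (nat_lit 7) (nat_lit 10))
    (@En.n l18630 (nat_lit 11052) (nat_lit 8) (nat_lit 12))
    (@En.n l7 (nat_lit 11585) (nat_lit 8) (nat_lit 4))
    (@En.n l25866 (nat_lit 11898) (nat_lit 9) (nat_lit 5))
    (@En.n l39801 (nat_lit 9996) (nat_lit 11) (nat_lit 8))
    (@En.n l2781 (nat_lit 10802) (nat_lit 12) (nat_lit 9))
    (@En.n l39801 (nat_lit 12804) (nat_lit 13) (nat_lit 12))
    (@En.n l39802 (nat_lit 7724) (nat_lit 14) (nat_lit 8))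
    (@En.n l38871 (nat_lit 10073) (nat_lit 11) (nat_lit 11))
    (@En.n l67 (nat_lit 11050) (nat_lit 15) (nat_lit 2))))
  (@Cl.mk (nat_lit 0x2000b00080007000c00080005000c0004000a0008000400090008000e0006) (nat_lit 0x440740702302490) (nat_lit 16) Lb.e (@T16.mk En
    (@En.n l24042 (nat_lit 10276) (nat_lit 8) (nat_lit 6))
    (@En.n l36333 (nat_lit 9277) (nat_lit 1) (nat_lit 14))
    (@En.n l36334 (nat_lit 9774) (nat_lit 2) (nat_lit 8))
    (@En.n l36335 (nat_lit 8272) (nat_lit 3) (nat_lit 9))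
    (@En.n l21345 (nat_lit 11049) (nat_lit 4) (nat_lit 4))
    (@En.n l15054 (nat_lit 9160) (nat_lit 5) (nat_lit 8))
    (@En.n l36336 (nat_lit 10069) (nat_lit 1) (nat_lit 10))
    (@En.n l19436 (nat_lit 11053) (nat_lit 7) (nat_lit 4))
    (@En.n l20178 (nat_lit 11379) (nat_lit 9) (nat_lit 12))
    (@En.i (nat_lit 10981) (nat_lit 9) (nat_lit 5))
    (@En.n l36337 (nat_lit 6437) (nat_lit 11) (nat_lit 8))
    (@En.n l1329 (nat_lit 11910) (nat_lit 12) (nat_lit 12))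
    (@En.n l50 (nat_lit 11434) (nat_lit 13) (nat_lit 7))
    (@En.n l15054 (nat_lit 7707) (nat_lit 14) (nat_lit 8))
    (@En.n l36338 (nat_lit 11855) (nat_lit 10) (nat_lit 11))
    (@En.n l17 (nat_lit 11051) (nat_lit 15) (nat_lit 2))))
  (@Cl.mk (nat_lit 0x2000b00090007000a00080005000c000900070006000400090008000e0007) (nat_lit 0x320710920003530) (nat_lit 16) Lb.e (@T16.mk En
    (@En.i (nat_lit 11054) (nat_lit 12) (nat_lit 7))
    (@En.n l619 (nat_lit 9296) (nat_lit 1) (nat_lit 14))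
    (@En.n l20345 (nat_lit 11551) (nat_lit 2) (nat_lit 8))
    (@En.n l18945 (nat_lit 11053) (nat_lit 3) (nat_lit 9))
    (@En.n l20346 (nat_lit 11051) (nat_lit 4) (nat_lit 4))
    (@En.n l20347 (nat_lit 7946) (nat_lit 5) (nat_lit 6))
    (@En.i (nat_lit 9162) (nat_lit 6) (nat_lit 7))
    (@En.n l6074 (nat_lit 11073) (nat_lit 8) (nat_lit 9))
    (@En.n l20348 (nat_lit 11378) (nat_lit 9) (nat_lit 12))
    (@En.n l20349 (nat_lit 11603) (nat_lit 9) (nat_lit 5))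
    (@En.i (nat_lit 8045) (nat_lit 11) (nat_lit 8))
    (@En.n l3197 (nat_lit 10801) (nat_lit 8) (nat_lit 10))
    (@En.n l18949 (nat_lit 10903) (nat_lit 13) (nat_lit 7))
    (@En.n l644 (nat_lit 5749) (nat_lit 14) (nat_lit 9))
    (@En.n l3766 (nat_lit 11857) (nat_lit 10) (nat_lit 11))
    (@En.n l11 (nat_lit 11052) (nat_lit 15) (nat_lit 2))))
  (@Cl.mk (nat_lit 0x2000a00080007000c000a000900060004000a0008000600090007000e0006) (nat_lit 0x420987002102060) (nat_lit 16) Lb.e (@T16.mk En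
    (@En.n l36073 (nat_lit 11055) (nat_lit 8) (nat_lit 6))
    (@En.n l23738 (nat_lit 9295) (nat_lit 1) (nat_lit 14))
    (@En.n l36074 (nat_lit 11546) (nat_lit 2) (nat_lit 7))
    (@En.n l36075 (nat_lit 8194) (nat_lit 3) (nat_lit 9))
    (@En.n l31376 (nat_lit 10755) (nat_lit 4) (nat_lit 6))
    (@En.i (nat_lit 9161) (nat_lit 5) (nat_lit 8))
    (@En.n l36076 (nat_lit 11070) (nat_lit 7) (nat_lit 10))
    (@En.n l152 (nat_lit 11383) (nat_lit 7) (nat_lit 4))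
    (@En.n l36077 (nat_lit 10977) (nat_lit 8) (nat_lit 6))
    (@En.n l2824 (nat_lit 11385) (nat_lit 10) (nat_lit 9))
    (@En.n l24220 (nat_lit 11052) (nat_lit 11) (nat_lit 10))
    (@En.n l13889 (nat_lit 11050) (nat_lit 12) (nat_lit 12))
    (@En.n l5585 (nat_lit 10905) (nat_lit 13) (nat_lit 7))
    (@En.n l5579 (nat_lit 6529) (nat_lit 14) (nat_lit 8))
    (@En.n l14808 (nat_lit 11858) (nat_lit 7) (nat_lit 10))
    (@En.n l50 (nat_lit 11053) (nat_lit 15) (nat_lit 2))))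
  (@Cl.mk (nat_lit 0x5000a000900070007000b00080006000900070005000b0009000900080007) (nat_lit 0x330031060083360) (nat_lit 16) Lb.e (@T16.mk En
    (@En.n l36280 (nat_lit 11800) (nat_lit 9) (nat_lit 7))
    (@En.n l36281 (nat_lit 10713) (nat_lit 8) (nat_lit 8))
    (@En.n l575 (nat_lit 11052) (nat_lit 7) (nat_lit 9))
    (@En.n l36282 (nat_lit 11074) (nat_lit 7) (nat_lit 9))
    (@En.n l36283 (nat_lit 8012) (nat_lit 10) (nat_lit 11))
    (@En.n l36284 (nat_lit 11606) (nat_lit 11) (nat_lit 5))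
    (@En.n l23442 (nat_lit 11661) (nat_lit 9) (nat_lit 7))
    (@En.n l36285 (nat_lit 10788) (nat_lit 9) (nat_lit 9))
    (@En.n l36286 (nat_lit 10904) (nat_lit 10) (nat_lit 6))
    (@En.n l20818 (nat_lit 76) (nat_lit 0) (nat_lit 8))
    (@En.n l7475 (nat_lit 11860) (nat_lit 8) (nat_lit 11))
    (@En.n l36287 (nat_lit 11594) (nat_lit 9) (nat_lit 7))
    (@En.n l36288 (nat_lit 11855) (nat_lit 9) (nat_lit 7))
    (@En.n l32030 (nat_lit 10964) (nat_lit 7) (nat_lit 9))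
    (@En.n l23442 (nat_lit 11055) (nat_lit 10) (nat_lit 10))
    (@En.n l36289 (nat_lit 10276) (nat_lit 11) (nat_lit 5))))
  (@Cl.mk (nat_lit 0x4000a000a00090007000a000800060006000a00070006000c000900080006) (nat_lit 0x332025005002740) (nat_lit 16) Lb.e (@T16.mk En
    (@En.n l43474 (nat_lit 12211) (nat_lit 0) (nat_lit 6))
    (@En.i (nat_lit 11390) (nat_lit 8) (nat_lit 8))
    (@En.n l43475 (nat_lit 11054) (nat_lit 7) (nat_lit 9))
    (@En.n l33389 (nat_lit 10417) (nat_lit 3) (nat_lit 12))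
    (@En.n l43476 (nat_lit 10906) (nat_lit 10) (nat_lit 6))
    (@En.n l17 (nat_lit 6532) (nat_lit 5) (nat_lit 7))
    (@En.i (nat_lit 11861) (nat_lit 9) (nat_lit 10))
    (@En.n l644 (nat_lit 11593) (nat_lit 10) (nat_lit 6))
    (@En.n l40756 (nat_lit 11854) (nat_lit 8) (nat_lit 6))
    (@En.n l30165 (nat_lit 11544) (nat_lit 8) (nat_lit 8))
    (@En.n l10040 (nat_lit 8957) (nat_lit 8) (nat_lit 10))
    (@En.n l24278 (nat_lit 11803) (nat_lit 9) (nat_lit 7))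
    (@En.n l29672 (nat_lit 10712) (nat_lit 7) (nat_lit 9))
    (@En.n l43477 (nat_lit 11053) (nat_lit 6) (nat_lit 10))
    (@En.n l40750 (nat_lit 10733) (nat_lit 11) (nat_lit 10))
    (@En.n l43478 (nat_lit 10279) (nat_lit 12) (nat_lit 4))))
noncomputable def a691 : T16 Cl := @T16.mk Cl
  (@Cl.mk (nat_lit 0x200070007000c000c0006000a00040004000c0009000900060004000e000a) (nat_lit 0xa5030024500b8) (nat_lit 16) Lb.e (@T16.mk En
    (@En.i (nat_lit 10998) (nat_lit 14) (nat_lit 10))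
    (@En.n l12450 (nat_lit 1646) (nat_lit 1) (nat_lit 14))
    (@En.n l3089 (nat_lit 11066) (nat_lit 2) (nat_lit 4))
    (@En.n l810 (nat_lit 8026) (nat_lit 3) (nat_lit 6))
    (@En.n l2062 (nat_lit 11058) (nat_lit 7) (nat_lit 9))
    (@En.n l8907 (nat_lit 8168) (nat_lit 5) (nat_lit 9))
    (@En.n l6478 (nat_lit 5298) (nat_lit 7) (nat_lit 12))
    (@En.n l11056 (nat_lit 8171) (nat_lit 7) (nat_lit 4))
    (@En.n l4019 (nat_lit 12319) (nat_lit 8) (nat_lit 4))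
    (@En.i (nat_lit 2080) (nat_lit 10) (nat_lit 10))
    (@En.n l17232 (nat_lit 10517) (nat_lit 11) (nat_lit 6))
    (@En.n l17233 (nat_lit 10996) (nat_lit 12) (nat_lit 12))
    (@En.n l17234 (nat_lit 9562) (nat_lit 13) (nat_lit 12))
    (@En.n l17235 (nat_lit 12778) (nat_lit 9) (nat_lit 7))
    (@En.n l810 (nat_lit 11046) (nat_lit 5) (nat_lit 7))
    (@En.n l11 (nat_lit 11056) (nat_lit 15) (nat_lit 2))))
  (@Cl.mk (nat_lit 0x2000b000b00070007000b00050005000d000a0005000300090009000e0006) (nat_lit 0x840040094006330) (nat_lit 16) Lb.e (@T16.mk En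
    (@En.n l4973 (nat_lit 10998) (nat_lit 12) (nat_lit 6))
    (@En.n l30537 (nat_lit 12680) (nat_lit 1) (nat_lit 14))
    (@En.n l30538 (nat_lit 12254) (nat_lit 2) (nat_lit 9))
    (@En.n l30539 (nat_lit 7931) (nat_lit 3) (nat_lit 9))
    (@En.n l8936 (nat_lit 11064) (nat_lit 4) (nat_lit 3))
    (@En.i (nat_lit 4899) (nat_lit 0) (nat_lit 5))
    (@En.n l30540 (nat_lit 11706) (nat_lit 7) (nat_lit 10))
    (@En.n l30541 (nat_lit 6468) (nat_lit 8) (nat_lit 13))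
    (@En.n l30542 (nat_lit 12618) (nat_lit 11) (nat_lit 5))
    (@En.i (nat_lit 10741) (nat_lit 9) (nat_lit 5))
    (@En.n l30543 (nat_lit 7982) (nat_lit 11) (nat_lit 11))
    (@En.n l61 (nat_lit 11058) (nat_lit 12) (nat_lit 7))
    (@En.n l8516 (nat_lit 11175) (nat_lit 13) (nat_lit 7))
    (@En.n l30544 (nat_lit 12253) (nat_lit 14) (nat_lit 11))
    (@En.n l30545 (nat_lit 9273) (nat_lit 10) (nat_lit 11))
    (@En.n l3 (nat_lit 11057) (nat_lit 15) (nat_lit 2))))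
  (@Cl.mk (nat_lit 0x2000c000c0007000b00040004000d000900050003000e00090002000e0007) (nat_lit 0x540300840017040) (nat_lit 16) Lb.e (@T16.mk En
    (@En.n l4973 (nat_lit 11056) (nat_lit 14) (nat_lit 7))
    (@En.n l3423 (nat_lit 12654) (nat_lit 1) (nat_lit 14))
    (@En.n l17 (nat_lit 11058) (nat_lit 2) (nat_lit 2))
    (@En.i (nat_lit 11057) (nat_lit 3) (nat_lit 9))
    (@En.i (nat_lit 1641) (nat_lit 1) (nat_lit 14))
    (@En.n l8936 (nat_lit 11060) (nat_lit 5) (nat_lit 3))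
    (@En.i (nat_lit 4902) (nat_lit 6) (nat_lit 5))
    (@En.n l480 (nat_lit 11067) (nat_lit 4) (nat_lit 9))
    (@En.n l6370 (nat_lit 6465) (nat_lit 9) (nat_lit 13))
    (@En.n l12117 (nat_lit 11061) (nat_lit 12) (nat_lit 4))
    (@En.i (nat_lit 12340) (nat_lit 10) (nat_lit 4))
    (@En.i (nat_lit 3931) (nat_lit 12) (nat_lit 11))
    (@En.n l3213 (nat_lit 11463) (nat_lit 13) (nat_lit 7))
    (@En.n l5987 (nat_lit 11059) (nat_lit 14) (nat_lit 12))
    (@En.n l19560 (nat_lit 9560) (nat_lit 12) (nat_lit 12))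
    (@En.n l3 (nat_lit 11058) (nat_lit 15) (nat_lit 2))))
  (@Cl.mk (nat_lit 0x2000c0006000a000e00040002000d000900060003000e000a0002000e0007) (nat_lit 0x303700810066040) (nat_lit 16) Lb.e (@T16.mk En
    (@En.n l8907 (nat_lit 10996) (nat_lit 14) (nat_lit 7))
    (@En.n l1347 (nat_lit 12655) (nat_lit 1) (nat_lit 14))
    (@En.n l11 (nat_lit 11059) (nat_lit 2) (nat_lit 2))
    (@En.n l575 (nat_lit 12253) (nat_lit 3) (nat_lit 10))
    (@En.n l1347 (nat_lit 6030) (nat_lit 1) (nat_lit 14))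
    (@En.n l8908 (nat_lit 11063) (nat_lit 5) (nat_lit 3))
    (@En.i (nat_lit 4900) (nat_lit 6) (nat_lit 6))
    (@En.i (nat_lit 7667) (nat_lit 14) (nat_lit 9))
    (@En.n l1162 (nat_lit 12520) (nat_lit 9) (nat_lit 13))
    (@En.n l17 (nat_lit 11059) (nat_lit 9) (nat_lit 2))
    (@En.n l4019 (nat_lit 11058) (nat_lit 10) (nat_lit 4))
    (@En.n l8909 (nat_lit 1833) (nat_lit 12) (nat_lit 14))
    (@En.i (nat_lit 3937) (nat_lit 2) (nat_lit 10))
    (@En.n l1347 (nat_lit 12096) (nat_lit 14) (nat_lit 6))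
    (@En.n l8910 (nat_lit 9579) (nat_lit 12) (nat_lit 12))
    (@En.n l7 (nat_lit 11059) (nat_lit 15) (nat_lit 2))))
  (@Cl.mk (nat_lit 0x2000c000c0007000c00040004000d0004000a0003000e00090002000e0006) (nat_lit 0x9402007050a7060) (nat_lit 16) Lb.e (@T16.mk En
    (@En.i (nat_lit 11066) (nat_lit 14) (nat_lit 6))
    (@En.n l5 (nat_lit 12659) (nat_lit 1) (nat_lit 14))
    (@En.n l50 (nat_lit 11060) (nat_lit 2) (nat_lit 2))
    (@En.i (nat_lit 11064) (nat_lit 3) (nat_lit 9))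
    (@En.i (nat_lit 11640) (nat_lit 1) (nat_lit 14))
    (@En.n l1422 (nat_lit 11058) (nat_lit 5) (nat_lit 3))
    (@En.n l4322 (nat_lit 10120) (nat_lit 3) (nat_lit 10))
    (@En.i (nat_lit 11062) (nat_lit 7) (nat_lit 4))
    (@En.i (nat_lit 6466) (nat_lit 9) (nat_lit 13))
    (@En.n l152 (nat_lit 11065) (nat_lit 12) (nat_lit 4))
    (@En.i (nat_lit 11069) (nat_lit 10) (nat_lit 4))
    (@En.i (nat_lit 2644) (nat_lit 12) (nat_lit 12))
    (@En.i (nat_lit 11462) (nat_lit 13) (nat_lit 7))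
    (@En.n l2503 (nat_lit 11063) (nat_lit 14) (nat_lit 12))
    (@En.i (nat_lit 9559) (nat_lit 12) (nat_lit 12))
    (@En.n l17 (nat_lit 11060) (nat_lit 15) (nat_lit 2))))
  (@Cl.mk (nat_lit 0x20008000c0004000d000900040003000e00080002000e00070002000e000c) (nat_lit 0x150870016040066) (nat_lit 16) Lb.e (@T16.mk En
    (@En.n l1422 (nat_lit 11058) (nat_lit 14) (nat_lit 12))
    (@En.n l2266 (nat_lit 5004) (nat_lit 1) (nat_lit 14))
    (@En.n l17 (nat_lit 11061) (nat_lit 2) (nat_lit 2))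
    (@En.n l8169 (nat_lit 8171) (nat_lit 14) (nat_lit 7))
    (@En.n l5 (nat_lit 4040) (nat_lit 1) (nat_lit 14))
    (@En.n l50 (nat_lit 11061) (nat_lit 5) (nat_lit 2))
    (@En.n l564 (nat_lit 12618) (nat_lit 6) (nat_lit 8))
    (@En.n l685 (nat_lit 1638) (nat_lit 1) (nat_lit 14))
    (@En.n l28 (nat_lit 11065) (nat_lit 8) (nat_lit 3))
    (@En.n l685 (nat_lit 4904) (nat_lit 9) (nat_lit 4))
    (@En.i (nat_lit 12631) (nat_lit 11) (nat_lit 9))
    (@En.n l3268 (nat_lit 3666) (nat_lit 12) (nat_lit 13))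
    (@En.n l685 (nat_lit 12333) (nat_lit 9) (nat_lit 4))
    (@En.i (nat_lit 3933) (nat_lit 14) (nat_lit 12))
    (@En.n l278 (nat_lit 10934) (nat_lit 12) (nat_lit 8))
    (@En.n l3 (nat_lit 11061) (nat_lit 15) (nat_lit 2))))
  (@Cl.mk (nat_lit 0x2000b000b0007000c000b000500050004000a0005000e00090002000e0006) (nat_lit 0x6402400030260a0) (nat_lit 16) Lb.e (@T16.mk En
    (@En.i (nat_lit 11556) (nat_lit 14) (nat_lit 6))
    (@En.n l5 (nat_lit 12729) (nat_lit 1) (nat_lit 14))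
    (@En.n l50 (nat_lit 11062) (nat_lit 2) (nat_lit 2))
    (@En.i (nat_lit 11553) (nat_lit 3) (nat_lit 9))
    (@En.n l7480 (nat_lit 11641) (nat_lit 1) (nat_lit 14))
    (@En.n l685 (nat_lit 4901) (nat_lit 5) (nat_lit 5))
    (@En.n l845 (nat_lit 10794) (nat_lit 3) (nat_lit 10))
    (@En.n l11 (nat_lit 11541) (nat_lit 7) (nat_lit 4))
    (@En.n l152 (nat_lit 12621) (nat_lit 11) (nat_lit 5))
    (@En.n l936 (nat_lit 11542) (nat_lit 9) (nat_lit 5))
    (@En.n l8195 (nat_lit 11058) (nat_lit 11) (nat_lit 11))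
    (@En.i (nat_lit 3748) (nat_lit 12) (nat_lit 12))
    (@En.i (nat_lit 9807) (nat_lit 13) (nat_lit 7))
    (@En.n l8196 (nat_lit 12558) (nat_lit 5) (nat_lit 11))
    (@En.i (nat_lit 9508) (nat_lit 12) (nat_lit 11))
    (@En.n l17 (nat_lit 11062) (nat_lit 15) (nat_lit 2))))
  (@Cl.mk (nat_lit 0x2000c0006000b000e00040002000d0005000a0003000e000a0002000e0006) (nat_lit 0x302b00705068020) (nat_lit 16) Lb.e (@T16.mk En
    (@En.n l1599 (nat_lit 12763) (nat_lit 14) (nat_lit 6))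
    (@En.n l8801 (nat_lit 12658) (nat_lit 1) (nat_lit 14))
    (@En.n l11 (nat_lit 11063) (nat_lit 2) (nat_lit 2))
    (@En.n l8802 (nat_lit 12251) (nat_lit 3) (nat_lit 10))
    (@En.n l8803 (nat_lit 12837) (nat_lit 1) (nat_lit 14))
    (@En.n l8804 (nat_lit 11059) (nat_lit 5) (nat_lit 3))
    (@En.i (nat_lit 10119) (nat_lit 3) (nat_lit 10))
    (@En.n l8805 (nat_lit 12558) (nat_lit 14) (nat_lit 5))
    (@En.i (nat_lit 12518) (nat_lit 9) (nat_lit 13))
    (@En.n l17 (nat_lit 11063) (nat_lit 9) (nat_lit 2))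
    (@En.n l8806 (nat_lit 11060) (nat_lit 10) (nat_lit 4))
    (@En.n l8803 (nat_lit 1836) (nat_lit 4) (nat_lit 14))
    (@En.n l8807 (nat_lit 3749) (nat_lit 2) (nat_lit 11))
    (@En.i (nat_lit 12098) (nat_lit 14) (nat_lit 6))
    (@En.n l8803 (nat_lit 9581) (nat_lit 12) (nat_lit 12))
    (@En.n l7 (nat_lit 11063) (nat_lit 15) (nat_lit 2))))
  (@Cl.mk (nat_lit 0x2000b000b00070007000c00050005000d0004000b000300090009000e0005) (nat_lit 0x840090080406350) (nat_lit 16) Lb.e (@T16.mk En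
    (@En.n l17030 (nat_lit 11558) (nat_lit 12) (nat_lit 5))
    (@En.n l34385 (nat_lit 12665) (nat_lit 1) (nat_lit 14))
    (@En.n l15985 (nat_lit 12252) (nat_lit 2) (nat_lit 9))
    (@En.n l3506 (nat_lit 10271) (nat_lit 3) (nat_lit 9))
    (@En.n l1422 (nat_lit 11057) (nat_lit 4) (nat_lit 3))
    (@En.i (nat_lit 10126) (nat_lit 0) (nat_lit 11))
    (@En.i (nat_lit 11553) (nat_lit 6) (nat_lit 4))
    (@En.n l11313 (nat_lit 6469) (nat_lit 8) (nat_lit 13))
    (@En.n l3498 (nat_lit 12616) (nat_lit 11) (nat_lit 5))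
    (@En.n l16715 (nat_lit 10738) (nat_lit 9) (nat_lit 5))
    (@En.n l3506 (nat_lit 5887) (nat_lit 11) (nat_lit 12))
    (@En.n l644 (nat_lit 11060) (nat_lit 12) (nat_lit 7))
    (@En.n l34275 (nat_lit 11174) (nat_lit 13) (nat_lit 7))
    (@En.n l4003 (nat_lit 12251) (nat_lit 14) (nat_lit 11))
    (@En.i (nat_lit 9270) (nat_lit 10) (nat_lit 11))
    (@En.n l17 (nat_lit 11064) (nat_lit 15) (nat_lit 2))))
  (@Cl.mk (nat_lit 0x20008000d0004000d0003000a0003000e00080002000e00060002000e000c) (nat_lit 0x13070304506009a) (nat_lit 16) Lb.e (@T16.mk En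
    (@En.i (nat_lit 11060) (nat_lit 14) (nat_lit 12))
    (@En.i (nat_lit 6969) (nat_lit 1) (nat_lit 14))
    (@En.n l17 (nat_lit 11065) (nat_lit 2) (nat_lit 2))
    (@En.n l764 (nat_lit 12757) (nat_lit 14) (nat_lit 6))
    (@En.n l5 (nat_lit 4037) (nat_lit 1) (nat_lit 14))
    (@En.n l50 (nat_lit 11065) (nat_lit 5) (nat_lit 2))
    (@En.n l564 (nat_lit 12616) (nat_lit 6) (nat_lit 8))
    (@En.i (nat_lit 11636) (nat_lit 1) (nat_lit 14))
    (@En.i (nat_lit 11061) (nat_lit 8) (nat_lit 3))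
    (@En.i (nat_lit 12287) (nat_lit 10) (nat_lit 10))
    (@En.i (nat_lit 12621) (nat_lit 10) (nat_lit 3))
    (@En.i (nat_lit 3665) (nat_lit 12) (nat_lit 13))
    (@En.i (nat_lit 11068) (nat_lit 9) (nat_lit 4))
    (@En.i (nat_lit 681) (nat_lit 14) (nat_lit 13))
    (@En.i (nat_lit 10938) (nat_lit 12) (nat_lit 8))
    (@En.n l3 (nat_lit 11065) (nat_lit 15) (nat_lit 2))))
  (@Cl.mk (nat_lit 0x200060006000c000c0006000c00040004000c0004000a000a0004000e000a) (nat_lit 0x9603003056038) (nat_lit 16) Lb.e (@T16.mk En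
    (@En.n l17030 (nat_lit 11558) (nat_lit 14) (nat_lit 10))
    (@En.n l6980 (nat_lit 11634) (nat_lit 1) (nat_lit 14))
    (@En.n l17031 (nat_lit 8169) (nat_lit 2) (nat_lit 4))
    (@En.n l61 (nat_lit 11060) (nat_lit 6) (nat_lit 10))
    (@En.n l17032 (nat_lit 8170) (nat_lit 4) (nat_lit 10))
    (@En.i (nat_lit 11556) (nat_lit 5) (nat_lit 4))
    (@En.n l7001 (nat_lit 5297) (nat_lit 7) (nat_lit 12))
    (@En.n l6998 (nat_lit 12757) (nat_lit 7) (nat_lit 4))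
    (@En.n l16714 (nat_lit 12303) (nat_lit 8) (nat_lit 4))
    (@En.i (nat_lit 1171) (nat_lit 10) (nat_lit 12))
    (@En.n l7001 (nat_lit 11411) (nat_lit 11) (nat_lit 6))
    (@En.n l17033 (nat_lit 12763) (nat_lit 12) (nat_lit 12))
    (@En.n l17034 (nat_lit 9563) (nat_lit 13) (nat_lit 12))
    (@En.n l17035 (nat_lit 12086) (nat_lit 10) (nat_lit 6))
    (@En.n l17036 (nat_lit 12416) (nat_lit 13) (nat_lit 6))
    (@En.n l50 (nat_lit 11066) (nat_lit 15) (nat_lit 2))))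
  (@Cl.mk (nat_lit 0x2000d000700060003000c000c0008000c0004000400090004000a000e0008) (nat_lit 0x400077450030516) (nat_lit 16) Lb.e (@T16.mk En
    (@En.n l14325 (nat_lit 11706) (nat_lit 4) (nat_lit 8))
    (@En.n l19012 (nat_lit 2403) (nat_lit 1) (nat_lit 14))
    (@En.n l28998 (nat_lit 10125) (nat_lit 2) (nat_lit 10))
    (@En.n l685 (nat_lit 12633) (nat_lit 3) (nat_lit 4))
    (@En.n l12786 (nat_lit 11434) (nat_lit 4) (nat_lit 9))
    (@En.n l152 (nat_lit 12631) (nat_lit 12) (nat_lit 4))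
    (@En.n l28998 (nat_lit 12322) (nat_lit 6) (nat_lit 4))
    (@En.i (nat_lit 3878) (nat_lit 8) (nat_lit 12))
    (@En.n l28999 (nat_lit 11468) (nat_lit 1) (nat_lit 8))
    (@En.n l10582 (nat_lit 7667) (nat_lit 4) (nat_lit 12))
    (@En.i (nat_lit 9568) (nat_lit 11) (nat_lit 12))
    (@En.n l19013 (nat_lit 12626) (nat_lit 11) (nat_lit 3))
    (@En.i (nat_lit 11060) (nat_lit 0) (nat_lit 6))
    (@En.n l15929 (nat_lit 8168) (nat_lit 14) (nat_lit 7))
    (@En.n l14728 (nat_lit 12435) (nat_lit 2) (nat_lit 13))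
    (@En.n l50 (nat_lit 11067) (nat_lit 15) (nat_lit 2))))
  (@Cl.mk (nat_lit 0x2000d000c000b000300090004000d0005000a0003000e00070002000e0006) (nat_lit 0x2a80107030a0060) (nat_lit 16) Lb.e (@T16.mk En
    (@En.n l764 (nat_lit 12330) (nat_lit 14) (nat_lit 6))
    (@En.n l5 (nat_lit 12043) (nat_lit 1) (nat_lit 14))
    (@En.n l50 (nat_lit 11068) (nat_lit 2) (nat_lit 2))
    (@En.n l10848 (nat_lit 12331) (nat_lit 3) (nat_lit 7))
    (@En.n l2494 (nat_lit 8051) (nat_lit 1) (nat_lit 14))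
    (@En.n l685 (nat_lit 12333) (nat_lit 5) (nat_lit 3))
    (@En.n l10848 (nat_lit 12486) (nat_lit 3) (nat_lit 10))
    (@En.n l7831 (nat_lit 12342) (nat_lit 7) (nat_lit 5))
    (@En.n l18601 (nat_lit 9924) (nat_lit 9) (nat_lit 13))
    (@En.n l117 (nat_lit 11060) (nat_lit 9) (nat_lit 4))
    (@En.n l771 (nat_lit 10939) (nat_lit 11) (nat_lit 9))
    (@En.n l1179 (nat_lit 12332) (nat_lit 11) (nat_lit 3))
    (@En.n l575 (nat_lit 12621) (nat_lit 0) (nat_lit 11))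
    (@En.i (nat_lit 11069) (nat_lit 14) (nat_lit 12))
    (@En.i (nat_lit 5416) (nat_lit 12) (nat_lit 13))
    (@En.n l17 (nat_lit 11068) (nat_lit 15) (nat_lit 2))))
  (@Cl.mk (nat_lit 0x2000c000a000d000800040003000d0006000a0003000e00080002000e0006) (nat_lit 0x976200705094060) (nat_lit 16) Lb.e (@T16.mk En
    (@En.n l16714 (nat_lit 12303) (nat_lit 14) (nat_lit 6))
    (@En.n l16715 (nat_lit 12042) (nat_lit 1) (nat_lit 14))
    (@En.n l50 (nat_lit 11069) (nat_lit 2) (nat_lit 2))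
    (@En.n l16715 (nat_lit 10738) (nat_lit 3) (nat_lit 8))
    (@En.n l4921 (nat_lit 8049) (nat_lit 1) (nat_lit 14))
    (@En.n l1422 (nat_lit 12340) (nat_lit 5) (nat_lit 3))
    (@En.n l11883 (nat_lit 10124) (nat_lit 3) (nat_lit 10))
    (@En.n l4922 (nat_lit 12341) (nat_lit 7) (nat_lit 6))
    (@En.n l4923 (nat_lit 7722) (nat_lit 9) (nat_lit 13))
    (@En.n l10848 (nat_lit 12332) (nat_lit 9) (nat_lit 3))
    (@En.n l16716 (nat_lit 11063) (nat_lit 10) (nat_lit 4))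
    (@En.n l11883 (nat_lit 11465) (nat_lit 12) (nat_lit 8))
    (@En.n l16717 (nat_lit 1837) (nat_lit 5) (nat_lit 13))
    (@En.i (nat_lit 11541) (nat_lit 14) (nat_lit 10))
    (@En.n l16718 (nat_lit 8819) (nat_lit 12) (nat_lit 12))
    (@En.n l17 (nat_lit 11069) (nat_lit 15) (nat_lit 2))))
  (@Cl.mk (nat_lit 0x3000a000900080005000b000a0006000a0007000500080006000d0006000b) (nat_lit 0x733037010000502) (nat_lit 16) Lb.e (@T16.mk En
    (@En.n l15488 (nat_lit 9837) (nat_lit 0) (nat_lit 11))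
    (@En.n l29611 (nat_lit 10733) (nat_lit 5) (nat_lit 6))
    (@En.n l29612 (nat_lit 7959) (nat_lit 2) (nat_lit 13))
    (@En.n l29613 (nat_lit 11414) (nat_lit 3) (nat_lit 6))
    (@En.n l15485 (nat_lit 11512) (nat_lit 10) (nat_lit 8))
    (@En.n l152 (nat_lit 9069) (nat_lit 5) (nat_lit 5))
    (@En.n l20244 (nat_lit 12344) (nat_lit 6) (nat_lit 7))
    (@En.i (nat_lit 10145) (nat_lit 9) (nat_lit 10))
    (@En.n l29614 (nat_lit 10669) (nat_lit 8) (nat_lit 6))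
    (@En.n l8550 (nat_lit 10628) (nat_lit 10) (nat_lit 10))
    (@En.n l17644 (nat_lit 11073) (nat_lit 11) (nat_lit 11))
    (@En.n l15488 (nat_lit 10273) (nat_lit 12) (nat_lit 5))
    (@En.n l29615 (nat_lit 10946) (nat_lit 8) (nat_lit 8))
    (@En.n l29616 (nat_lit 10839) (nat_lit 7) (nat_lit 9))
    (@En.n l4172 (nat_lit 11080) (nat_lit 2) (nat_lit 10))
    (@En.n l7973 (nat_lit 11071) (nat_lit 15) (nat_lit 3))))
  (@Cl.mk (nat_lit 0x3000a000900080006000b000a000600090007000500080006000d000a0007) (nat_lit 0x555031020000520) (nat_lit 16) Lb.e (@T16.mk En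
    (@En.n l12082 (nat_lit 2841) (nat_lit 0) (nat_lit 7))
    (@En.n l36016 (nat_lit 10405) (nat_lit 12) (nat_lit 10))
    (@En.n l36017 (nat_lit 7957) (nat_lit 2) (nat_lit 13))
    (@En.n l36018 (nat_lit 11477) (nat_lit 3) (nat_lit 6))
    (@En.n l11917 (nat_lit 11510) (nat_lit 10) (nat_lit 8))
    (@En.n l36019 (nat_lit 9068) (nat_lit 5) (nat_lit 5))
    (@En.n l36018 (nat_lit 11121) (nat_lit 6) (nat_lit 7))
    (@En.n l12082 (nat_lit 11048) (nat_lit 9) (nat_lit 9))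
    (@En.n l17435 (nat_lit 10654) (nat_lit 8) (nat_lit 6))
    (@En.i (nat_lit 10624) (nat_lit 10) (nat_lit 10))
    (@En.n l36020 (nat_lit 11072) (nat_lit 11) (nat_lit 11))
    (@En.n l36020 (nat_lit 11075) (nat_lit 10) (nat_lit 6))
    (@En.n l29832 (nat_lit 10945) (nat_lit 8) (nat_lit 8))
    (@En.n l21452 (nat_lit 10841) (nat_lit 7) (nat_lit 9))
    (@En.n l36021 (nat_lit 10733) (nat_lit 2) (nat_lit 10))
    (@En.n l19145 (nat_lit 11070) (nat_lit 15) (nat_lit 3))))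
noncomputable def a692 : T16 Cl := @T16.mk Cl
  (@Cl.mk (nat_lit 0x3000b000a0008000b00090005000800060005000c00080007000d00040008) (nat_lit 0x555270300610503) (nat_lit 16) Lb.e (@T16.mk En
    (@En.n l3133 (nat_lit 2839) (nat_lit 0) (nat_lit 8))
    (@En.n l29129 (nat_lit 11076) (nat_lit 15) (nat_lit 4))
    (@En.i (nat_lit 7956) (nat_lit 0) (nat_lit 13))
    (@En.n l15038 (nat_lit 10547) (nat_lit 9) (nat_lit 7))
    (@En.n l29130 (nat_lit 11071) (nat_lit 4) (nat_lit 8))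
    (@En.n l29131 (nat_lit 9941) (nat_lit 3) (nat_lit 12))
    (@En.n l29132 (nat_lit 8437) (nat_lit 11) (nat_lit 5))
    (@En.n l15038 (nat_lit 11123) (nat_lit 7) (nat_lit 6))
    (@En.n l13964 (nat_lit 11047) (nat_lit 10) (nat_lit 8))
    (@En.n l77 (nat_lit 10655) (nat_lit 9) (nat_lit 5))
    (@En.n l29133 (nat_lit 11935) (nat_lit 11) (nat_lit 9))
    (@En.i (nat_lit 12739) (nat_lit 7) (nat_lit 11))
    (@En.n l5653 (nat_lit 10950) (nat_lit 13) (nat_lit 8))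
    (@En.n l601 (nat_lit 11785) (nat_lit 6) (nat_lit 10))
    (@En.i (nat_lit 11074) (nat_lit 13) (nat_lit 11))
    (@En.i (nat_lit 11073) (nat_lit 15) (nat_lit 3))))
  (@Cl.mk (nat_lit 0x3000b000a0008000b00090005000900060005000b00080007000d00070005) (nat_lit 0x533260100810600) (nat_lit 16) Lb.e (@T16.mk En
    (@En.n l15037 (nat_lit 11049) (nat_lit 0) (nat_lit 5))
    (@En.n l548 (nat_lit 11074) (nat_lit 0) (nat_lit 7))
    (@En.i (nat_lit 7955) (nat_lit 2) (nat_lit 13))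
    (@En.n l15038 (nat_lit 10540) (nat_lit 9) (nat_lit 7))
    (@En.n l15039 (nat_lit 11070) (nat_lit 4) (nat_lit 8))
    (@En.n l8045 (nat_lit 9959) (nat_lit 6) (nat_lit 11))
    (@En.n l15040 (nat_lit 9071) (nat_lit 11) (nat_lit 5))
    (@En.n l15038 (nat_lit 12345) (nat_lit 7) (nat_lit 6))
    (@En.n l5651 (nat_lit 10142) (nat_lit 10) (nat_lit 9))
    (@En.n l77 (nat_lit 10673) (nat_lit 9) (nat_lit 5))
    (@En.n l15041 (nat_lit 11936) (nat_lit 11) (nat_lit 9))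
    (@En.i (nat_lit 9244) (nat_lit 7) (nat_lit 11))
    (@En.n l15042 (nat_lit 10951) (nat_lit 13) (nat_lit 8))
    (@En.n l15043 (nat_lit 10845) (nat_lit 6) (nat_lit 10))
    (@En.n l5654 (nat_lit 11079) (nat_lit 4) (nat_lit 11))
    (@En.n l11 (nat_lit 11072) (nat_lit 15) (nat_lit 3))))
  (@Cl.mk (nat_lit 0x40008000b00090007000a000800050009000800070006000c000900080007) (nat_lit 0x144026024004440) (nat_lit 16) Lb.e (@T16.mk En
    (@En.n l26445 (nat_lit 10728) (nat_lit 0) (nat_lit 7))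
    (@En.n l15038 (nat_lit 11949) (nat_lit 8) (nat_lit 8))
    (@En.n l29289 (nat_lit 10733) (nat_lit 7) (nat_lit 9))
    (@En.n l29290 (nat_lit 9944) (nat_lit 3) (nat_lit 12))
    (@En.n l29132 (nat_lit 8817) (nat_lit 10) (nat_lit 6))
    (@En.n l15038 (nat_lit 11117) (nat_lit 9) (nat_lit 7))
    (@En.n l142 (nat_lit 11072) (nat_lit 8) (nat_lit 8))
    (@En.n l13972 (nat_lit 11579) (nat_lit 10) (nat_lit 9))
    (@En.n l77 (nat_lit 10652) (nat_lit 8) (nat_lit 5))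
    (@En.n l29291 (nat_lit 11934) (nat_lit 8) (nat_lit 8))
    (@En.i (nat_lit 12738) (nat_lit 8) (nat_lit 10))
    (@En.n l29292 (nat_lit 10952) (nat_lit 2) (nat_lit 7))
    (@En.n l29293 (nat_lit 11738) (nat_lit 7) (nat_lit 9))
    (@En.n l5654 (nat_lit 11081) (nat_lit 7) (nat_lit 11))
    (@En.n l29294 (nat_lit 2840) (nat_lit 11) (nat_lit 8))
    (@En.n l29295 (nat_lit 11078) (nat_lit 15) (nat_lit 4))))
  (@Cl.mk (nat_lit 0x400080004000b000a0006000b000a0005000800060005000c0006000c000a) (nat_lit 0x208807103006022) (nat_lit 16) Lb.e (@T16.mk En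
    (@En.n l41450 (nat_lit 10408) (nat_lit 0) (nat_lit 10))
    (@En.i (nat_lit 7958) (nat_lit 1) (nat_lit 12))
    (@En.n l18169 (nat_lit 11080) (nat_lit 4) (nat_lit 6))
    (@En.n l36887 (nat_lit 9938) (nat_lit 3) (nat_lit 12))
    (@En.n l41451 (nat_lit 8792) (nat_lit 11) (nat_lit 5))
    (@En.n l41452 (nat_lit 11122) (nat_lit 10) (nat_lit 6))
    (@En.n l9524 (nat_lit 11044) (nat_lit 10) (nat_lit 8))
    (@En.n l77 (nat_lit 9696) (nat_lit 7) (nat_lit 5))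
    (@En.n l41453 (nat_lit 10634) (nat_lit 6) (nat_lit 10))
    (@En.i (nat_lit 11811) (nat_lit 9) (nat_lit 11))
    (@En.n l5653 (nat_lit 10591) (nat_lit 2) (nat_lit 6))
    (@En.n l41454 (nat_lit 11784) (nat_lit 6) (nat_lit 10))
    (@En.n l41455 (nat_lit 11077) (nat_lit 13) (nat_lit 11))
    (@En.n l30087 (nat_lit 10273) (nat_lit 15) (nat_lit 4))
    (@En.n l41453 (nat_lit 10947) (nat_lit 11) (nat_lit 8))
    (@En.n l152 (nat_lit 11072) (nat_lit 1) (nat_lit 4))))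
  (@Cl.mk (nat_lit 0x400080005000b000a0007000b00080005000800060005000c000b00090008) (nat_lit 0x303405505006933) (nat_lit 16) Lb.e (@T16.mk En
    (@En.n l36891 (nat_lit 11767) (nat_lit 8) (nat_lit 8))
    (@En.n l619 (nat_lit 10712) (nat_lit 1) (nat_lit 9))
    (@En.n l36892 (nat_lit 11073) (nat_lit 5) (nat_lit 11))
    (@En.n l36893 (nat_lit 9720) (nat_lit 3) (nat_lit 12))
    (@En.n l5934 (nat_lit 11862) (nat_lit 11) (nat_lit 5))
    (@En.n l36891 (nat_lit 11996) (nat_lit 10) (nat_lit 6))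
    (@En.n l36894 (nat_lit 11050) (nat_lit 10) (nat_lit 8))
    (@En.n l14973 (nat_lit 10639) (nat_lit 7) (nat_lit 5))
    (@En.n l31397 (nat_lit 11544) (nat_lit 0) (nat_lit 8))
    (@En.n l29416 (nat_lit 12688) (nat_lit 8) (nat_lit 11))
    (@En.n l50 (nat_lit 11084) (nat_lit 2) (nat_lit 7))
    (@En.n l217 (nat_lit 11771) (nat_lit 6) (nat_lit 10))
    (@En.n l899 (nat_lit 11078) (nat_lit 13) (nat_lit 11))
    (@En.i (nat_lit 10281) (nat_lit 14) (nat_lit 5))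
    (@En.n l36895 (nat_lit 11872) (nat_lit 11) (nat_lit 8))
    (@En.n l36896 (nat_lit 11075) (nat_lit 15) (nat_lit 4))))
  (@Cl.mk (nat_lit 0x40008000b00090005000a00090005000a000800070006000c00070006000b) (nat_lit 0x277061024007002) (nat_lit 16) Lb.e (@T16.mk En
    (@En.n l14301 (nat_lit 10409) (nat_lit 0) (nat_lit 11))
    (@En.n l3100 (nat_lit 10729) (nat_lit 1) (nat_lit 6))
    (@En.n l35478 (nat_lit 11079) (nat_lit 6) (nat_lit 7))
    (@En.n l35479 (nat_lit 9739) (nat_lit 3) (nat_lit 12))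
    (@En.n l35480 (nat_lit 8791) (nat_lit 10) (nat_lit 6))
    (@En.i (nat_lit 11116) (nat_lit 9) (nat_lit 7))
    (@En.n l35481 (nat_lit 11075) (nat_lit 6) (nat_lit 8))
    (@En.n l35482 (nat_lit 10285) (nat_lit 10) (nat_lit 10))
    (@En.n l35483 (nat_lit 10650) (nat_lit 8) (nat_lit 5))
    (@En.n l35484 (nat_lit 10635) (nat_lit 7) (nat_lit 9))
    (@En.n l35485 (nat_lit 12722) (nat_lit 10) (nat_lit 10))
    (@En.n l23392 (nat_lit 10594) (nat_lit 2) (nat_lit 5))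
    (@En.n l4245 (nat_lit 11740) (nat_lit 7) (nat_lit 9))
    (@En.n l3851 (nat_lit 11083) (nat_lit 7) (nat_lit 11))
    (@En.n l35484 (nat_lit 10949) (nat_lit 11) (nat_lit 8))
    (@En.n l35486 (nat_lit 11074) (nat_lit 15) (nat_lit 4))))
  (@Cl.mk (nat_lit 0x40008000b00090006000a00070005000b000800070006000c0005000a0009) (nat_lit 0x323040066007034) (nat_lit 16) Lb.e (@T16.mk En
    (@En.n l13788 (nat_lit 11950) (nat_lit 7) (nat_lit 9))
    (@En.n l32491 (nat_lit 10713) (nat_lit 1) (nat_lit 10))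
    (@En.n l32492 (nat_lit 11054) (nat_lit 15) (nat_lit 5))
    (@En.n l14147 (nat_lit 9721) (nat_lit 0) (nat_lit 12))
    (@En.n l2179 (nat_lit 11957) (nat_lit 10) (nat_lit 6))
    (@En.n l32493 (nat_lit 11995) (nat_lit 9) (nat_lit 7))
    (@En.n l2642 (nat_lit 11076) (nat_lit 6) (nat_lit 8))
    (@En.n l32494 (nat_lit 8013) (nat_lit 8) (nat_lit 11))
    (@En.n l9072 (nat_lit 10641) (nat_lit 8) (nat_lit 5))
    (@En.n l32495 (nat_lit 11548) (nat_lit 0) (nat_lit 7))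
    (@En.n l32496 (nat_lit 12689) (nat_lit 9) (nat_lit 10))
    (@En.n l14147 (nat_lit 11085) (nat_lit 2) (nat_lit 6))
    (@En.n l25719 (nat_lit 11091) (nat_lit 7) (nat_lit 9))
    (@En.i (nat_lit 12078) (nat_lit 7) (nat_lit 11))
    (@En.n l32497 (nat_lit 11871) (nat_lit 11) (nat_lit 8))
    (@En.n l32498 (nat_lit 11077) (nat_lit 15) (nat_lit 4))))
  (@Cl.mk (nat_lit 0x50009000900070006000b00090008000700070005000b00090007000a0008) (nat_lit 0x230025600044051) (nat_lit 16) Lb.e (@T16.mk En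
    (@En.n l20327 (nat_lit 45) (nat_lit 0) (nat_lit 8))
    (@En.i (nat_lit 12386) (nat_lit 8) (nat_lit 10))
    (@En.n l20328 (nat_lit 10954) (nat_lit 2) (nat_lit 7))
    (@En.n l20329 (nat_lit 10523) (nat_lit 7) (nat_lit 9))
    (@En.n l20330 (nat_lit 11054) (nat_lit 10) (nat_lit 11))
    (@En.n l16658 (nat_lit 11092) (nat_lit 11) (nat_lit 5))
    (@En.n l644 (nat_lit 11081) (nat_lit 9) (nat_lit 7))
    (@En.n l16386 (nat_lit 10922) (nat_lit 9) (nat_lit 7))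
    (@En.n l16649 (nat_lit 12159) (nat_lit 8) (nat_lit 8))
    (@En.n l20331 (nat_lit 11080) (nat_lit 7) (nat_lit 9))
    (@En.n l16386 (nat_lit 11294) (nat_lit 9) (nat_lit 11))
    (@En.n l18387 (nat_lit 10861) (nat_lit 10) (nat_lit 6))
    (@En.n l7396 (nat_lit 11078) (nat_lit 9) (nat_lit 7))
    (@En.n l20332 (nat_lit 11449) (nat_lit 7) (nat_lit 9))
    (@En.n l20333 (nat_lit 11580) (nat_lit 10) (nat_lit 9))
    (@En.n l18381 (nat_lit 11446) (nat_lit 15) (nat_lit 5))))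
  (@Cl.mk (nat_lit 0x4000a00090006000a000a000800060009000700060006000c000a00080007) (nat_lit 0x660536040003620) (nat_lit 16) Lb.e (@T16.mk En
    (@En.n l23621 (nat_lit 10953) (nat_lit 9) (nat_lit 7))
    (@En.n l36065 (nat_lit 10520) (nat_lit 1) (nat_lit 8))
    (@En.n l36066 (nat_lit 11055) (nat_lit 6) (nat_lit 10))
    (@En.n l26965 (nat_lit 10071) (nat_lit 3) (nat_lit 12))
    (@En.n l36067 (nat_lit 11082) (nat_lit 10) (nat_lit 6))
    (@En.n l36068 (nat_lit 10923) (nat_lit 10) (nat_lit 6))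
    (@En.n l36065 (nat_lit 11999) (nat_lit 9) (nat_lit 7))
    (@En.n l13514 (nat_lit 8961) (nat_lit 9) (nat_lit 9))
    (@En.n l4976 (nat_lit 10860) (nat_lit 8) (nat_lit 6))
    (@En.n l36069 (nat_lit 11076) (nat_lit 8) (nat_lit 8))
    (@En.n l77 (nat_lit 11448) (nat_lit 6) (nat_lit 10))
    (@En.i (nat_lit 11581) (nat_lit 9) (nat_lit 10))
    (@En.n l20238 (nat_lit 11443) (nat_lit 3) (nat_lit 6))
    (@En.n l36066 (nat_lit 10349) (nat_lit 7) (nat_lit 9))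
    (@En.n l8574 (nat_lit 11079) (nat_lit 1) (nat_lit 10))
    (@En.n l36070 (nat_lit 10277) (nat_lit 15) (nat_lit 4))))
  (@Cl.mk (nat_lit 0x200080007000c000a000900070004000b00080006000900070005000e0009) (nat_lit 0x507240032040023) (nat_lit 16) Lb.e (@T16.mk En
    (@En.i (nat_lit 11079) (nat_lit 14) (nat_lit 9))
    (@En.n l18380 (nat_lit 7715) (nat_lit 1) (nat_lit 14))
    (@En.n l18381 (nat_lit 11622) (nat_lit 2) (nat_lit 5))
    (@En.n l18382 (nat_lit 10352) (nat_lit 3) (nat_lit 7))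
    (@En.i (nat_lit 12388) (nat_lit 4) (nat_lit 9))
    (@En.n l18383 (nat_lit 11317) (nat_lit 5) (nat_lit 6))
    (@En.n l18384 (nat_lit 11483) (nat_lit 6) (nat_lit 8))
    (@En.n l18382 (nat_lit 11594) (nat_lit 8) (nat_lit 11))
    (@En.n l18385 (nat_lit 12078) (nat_lit 8) (nat_lit 4))
    (@En.i (nat_lit 10213) (nat_lit 10) (nat_lit 7))
    (@En.n l18386 (nat_lit 12161) (nat_lit 11) (nat_lit 9))
    (@En.n l11425 (nat_lit 11082) (nat_lit 12) (nat_lit 10))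
    (@En.n l16386 (nat_lit 11293) (nat_lit 13) (nat_lit 12))
    (@En.n l18387 (nat_lit 7550) (nat_lit 14) (nat_lit 7))
    (@En.n l7409 (nat_lit 9723) (nat_lit 5) (nat_lit 8))
    (@En.n l50 (nat_lit 11081) (nat_lit 15) (nat_lit 2))))
  (@Cl.mk (nat_lit 0x200090007000a00080006000c000a000700060004000900080006000e000a) (nat_lit 0x501304300051026) (nat_lit 16) Lb.e (@T16.mk En
    (@En.n l31797 (nat_lit 11080) (nat_lit 11) (nat_lit 10))
    (@En.i (nat_lit 7714) (nat_lit 1) (nat_lit 14))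
    (@En.n l31798 (nat_lit 11621) (nat_lit 2) (nat_lit 6))
    (@En.n l31799 (nat_lit 10351) (nat_lit 3) (nat_lit 8))
    (@En.n l9146 (nat_lit 11081) (nat_lit 4) (nat_lit 9))
    (@En.n l9937 (nat_lit 11083) (nat_lit 5) (nat_lit 4))
    (@En.n l25109 (nat_lit 10957) (nat_lit 6) (nat_lit 6))
    (@En.n l152 (nat_lit 11484) (nat_lit 7) (nat_lit 7))
    (@En.n l31799 (nat_lit 11593) (nat_lit 9) (nat_lit 10))
    (@En.i (nat_lit 10219) (nat_lit 10) (nat_lit 12))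
    (@En.n l31800 (nat_lit 10470) (nat_lit 11) (nat_lit 6))
    (@En.n l31801 (nat_lit 12294) (nat_lit 12) (nat_lit 8))
    (@En.i (nat_lit 8958) (nat_lit 8) (nat_lit 10))
    (@En.n l31802 (nat_lit 7549) (nat_lit 14) (nat_lit 7))
    (@En.n l20244 (nat_lit 9722) (nat_lit 9) (nat_lit 9))
    (@En.n l17 (nat_lit 11082) (nat_lit 15) (nat_lit 2))))
  (@Cl.mk (nat_lit 0x200080007000c00080006000c0004000b00080004000900080005000e000a) (nat_lit 0x406304062015046) (nat_lit 16) Lb.e (@T16.mk En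
    (@En.n l20088 (nat_lit 10277) (nat_lit 11) (nat_lit 10))
    (@En.n l20089 (nat_lit 7711) (nat_lit 1) (nat_lit 14))
    (@En.n l20090 (nat_lit 9569) (nat_lit 2) (nat_lit 5))
    (@En.n l55 (nat_lit 11012) (nat_lit 3) (nat_lit 8))
    (@En.n l11417 (nat_lit 5309) (nat_lit 4) (nat_lit 9))
    (@En.n l4572 (nat_lit 11584) (nat_lit 5) (nat_lit 4))
    (@En.n l61 (nat_lit 11418) (nat_lit 6) (nat_lit 8))
    (@En.n l18478 (nat_lit 11577) (nat_lit 8) (nat_lit 11))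
    (@En.n l20091 (nat_lit 11081) (nat_lit 8) (nat_lit 4))
    (@En.n l2544 (nat_lit 9339) (nat_lit 10) (nat_lit 12))
    (@En.n l20092 (nat_lit 10215) (nat_lit 11) (nat_lit 6))
    (@En.n l20093 (nat_lit 12386) (nat_lit 12) (nat_lit 8))
    (@En.n l20092 (nat_lit 9736) (nat_lit 13) (nat_lit 12))
    (@En.n l7454 (nat_lit 10854) (nat_lit 14) (nat_lit 7))
    (@En.n l3098 (nat_lit 9725) (nat_lit 5) (nat_lit 8))
    (@En.n l3 (nat_lit 11083) (nat_lit 15) (nat_lit 2))))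
  (@Cl.mk (nat_lit 0x40007000b0005000b000a000900050009000500090006000c0007000b0007) (nat_lit 0x30484050304070) (nat_lit 16) Lb.e (@T16.mk En
    (@En.n l38614 (nat_lit 10964) (nat_lit 0) (nat_lit 7))
    (@En.n l39947 (nat_lit 10686) (nat_lit 8) (nat_lit 11))
    (@En.n l644 (nat_lit 9622) (nat_lit 5) (nat_lit 7))
    (@En.n l43517 (nat_lit 11085) (nat_lit 3) (nat_lit 12))
    (@En.i (nat_lit 10858) (nat_lit 4) (nat_lit 6))
    (@En.n l43518 (nat_lit 11881) (nat_lit 10) (nat_lit 9))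
    (@En.n l39949 (nat_lit 10591) (nat_lit 6) (nat_lit 5))
    (@En.i (nat_lit 11772) (nat_lit 10) (nat_lit 9))
    (@En.n l43519 (nat_lit 11088) (nat_lit 8) (nat_lit 5))
    (@En.n l43520 (nat_lit 10709) (nat_lit 7) (nat_lit 9))
    (@En.n l43521 (nat_lit 10951) (nat_lit 6) (nat_lit 10))
    (@En.n l29686 (nat_lit 9717) (nat_lit 12) (nat_lit 11))
    (@En.n l29681 (nat_lit 9916) (nat_lit 13) (nat_lit 5))
    (@En.n l41492 (nat_lit 10422) (nat_lit 8) (nat_lit 11))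
    (@En.n l43520 (nat_lit 7724) (nat_lit 11) (nat_lit 7))
    (@En.n l39945 (nat_lit 10640) (nat_lit 15) (nat_lit 4))))
  (@Cl.mk (nat_lit 0x4000b0007000b0006000b0005000a0005000a00050009000c0006000a0006) (nat_lit 0x604010405033040) (nat_lit 16) Lb.e (@T16.mk En
    (@En.n l17 (nat_lit 11498) (nat_lit 0) (nat_lit 6))
    (@En.n l38060 (nat_lit 10688) (nat_lit 9) (nat_lit 10))
    (@En.n l619 (nat_lit 9842) (nat_lit 1) (nat_lit 6))
    (@En.i (nat_lit 11157) (nat_lit 6) (nat_lit 12))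
    (@En.n l23331 (nat_lit 11885) (nat_lit 10) (nat_lit 9))
    (@En.n l28099 (nat_lit 10594) (nat_lit 5) (nat_lit 5))
    (@En.n l28100 (nat_lit 11776) (nat_lit 10) (nat_lit 10))
    (@En.n l50 (nat_lit 11087) (nat_lit 1) (nat_lit 5))
    (@En.i (nat_lit 10711) (nat_lit 2) (nat_lit 10))
    (@En.n l41992 (nat_lit 10904) (nat_lit 1) (nat_lit 5))
    (@En.i (nat_lit 9716) (nat_lit 9) (nat_lit 11))
    (@En.n l28102 (nat_lit 9917) (nat_lit 1) (nat_lit 6))
    (@En.n l41993 (nat_lit 10154) (nat_lit 8) (nat_lit 11))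
    (@En.n l40502 (nat_lit 11084) (nat_lit 14) (nat_lit 7))
    (@En.n l41994 (nat_lit 8011) (nat_lit 2) (nat_lit 11))
    (@En.n l38215 (nat_lit 10642) (nat_lit 12) (nat_lit 4))))
  (@Cl.mk (nat_lit 0x40007000b0006000b0006000b0005000a000500090005000c000a0006000a) (nat_lit 0x90604040408606) (nat_lit 16) Lb.e (@T16.mk En
    (@En.n l36557 (nat_lit 10686) (nat_lit 0) (nat_lit 10))
    (@En.n l8631 (nat_lit 9627) (nat_lit 1) (nat_lit 6))
    (@En.n l28111 (nat_lit 11085) (nat_lit 6) (nat_lit 10))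
    (@En.n l39141 (nat_lit 11090) (nat_lit 3) (nat_lit 12))
    (@En.n l40626 (nat_lit 11179) (nat_lit 4) (nat_lit 5))
    (@En.n l42794 (nat_lit 9943) (nat_lit 10) (nat_lit 9))
    (@En.i (nat_lit 11610) (nat_lit 6) (nat_lit 5))
    (@En.n l40828 (nat_lit 9939) (nat_lit 10) (nat_lit 10))
    (@En.n l42795 (nat_lit 11952) (nat_lit 8) (nat_lit 5))
    (@En.n l8631 (nat_lit 10158) (nat_lit 9) (nat_lit 11))
    (@En.n l23051 (nat_lit 11092) (nat_lit 1) (nat_lit 6))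
    (@En.n l40629 (nat_lit 11095) (nat_lit 9) (nat_lit 11))
    (@En.n l40831 (nat_lit 11400) (nat_lit 5) (nat_lit 6))
    (@En.n l41570 (nat_lit 9981) (nat_lit 8) (nat_lit 11))
    (@En.i (nat_lit 9780) (nat_lit 11) (nat_lit 7))
    (@En.n l20805 (nat_lit 9843) (nat_lit 15) (nat_lit 4))))
  (@Cl.mk (nat_lit 0x40009000c0009000900060004000a0007000b00070007000c00060005000a) (nat_lit 0x485500504007005) (nat_lit 16) Lb.e (@T16.mk En
    (@En.n l32140 (nat_lit 10004) (nat_lit 0) (nat_lit 10))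
    (@En.i (nat_lit 10516) (nat_lit 11) (nat_lit 5))
    (@En.n l42343 (nat_lit 73) (nat_lit 0) (nat_lit 6))
    (@En.i (nat_lit 9473) (nat_lit 8) (nat_lit 12))
    (@En.n l11401 (nat_lit 12082) (nat_lit 9) (nat_lit 7))
    (@En.n l32141 (nat_lit 11078) (nat_lit 5) (nat_lit 7))
    (@En.n l42344 (nat_lit 12455) (nat_lit 8) (nat_lit 11))
    (@En.n l42345 (nat_lit 11088) (nat_lit 14) (nat_lit 7))
    (@En.n l42346 (nat_lit 8011) (nat_lit 9) (nat_lit 10))
    (@En.n l1003 (nat_lit 11178) (nat_lit 9) (nat_lit 4))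
    (@En.n l17 (nat_lit 8000) (nat_lit 0) (nat_lit 6))
    (@En.n l9878 (nat_lit 11175) (nat_lit 7) (nat_lit 9))
    (@En.n l42347 (nat_lit 11092) (nat_lit 13) (nat_lit 9))
    (@En.i (nat_lit 8032) (nat_lit 6) (nat_lit 12))
    (@En.n l8776 (nat_lit 11124) (nat_lit 11) (nat_lit 9))
    (@En.n l9875 (nat_lit 12173) (nat_lit 5) (nat_lit 4))))
noncomputable def a693 : T16 Cl := @T16.mk Cl
  (@Cl.mk (nat_lit 0x40007000b00060006000c000b00050009000400090005000c000a000a0007) (nat_lit 0x80044050209660) (nat_lit 16) Lb.e (@T16.mk En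
    (@En.n l33957 (nat_lit 11154) (nat_lit 0) (nat_lit 7))
    (@En.n l8652 (nat_lit 11176) (nat_lit 6) (nat_lit 10))
    (@En.n l33958 (nat_lit 10481) (nat_lit 6) (nat_lit 10))
    (@En.n l33959 (nat_lit 11087) (nat_lit 13) (nat_lit 12))
    (@En.n l33960 (nat_lit 10998) (nat_lit 4) (nat_lit 5))
    (@En.n l33961 (nat_lit 11878) (nat_lit 5) (nat_lit 9))
    (@En.n l15636 (nat_lit 12175) (nat_lit 6) (nat_lit 4))
    (@En.n l33962 (nat_lit 10000) (nat_lit 10) (nat_lit 9))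
    (@En.n l33963 (nat_lit 10518) (nat_lit 1) (nat_lit 5))
    (@En.n l33964 (nat_lit 11966) (nat_lit 5) (nat_lit 11))
    (@En.n l33965 (nat_lit 9939) (nat_lit 11) (nat_lit 12))
    (@En.n l8649 (nat_lit 12080) (nat_lit 10) (nat_lit 6))
    (@En.n l33966 (nat_lit 11076) (nat_lit 5) (nat_lit 6))
    (@En.n l33964 (nat_lit 12441) (nat_lit 8) (nat_lit 11))
    (@En.n l33967 (nat_lit 7984) (nat_lit 11) (nat_lit 7))
    (@En.n l217 (nat_lit 11177) (nat_lit 15) (nat_lit 4))))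
  (@Cl.mk (nat_lit 0x20007000b0007000b0006000b0005000b00050009000500090005000e000a) (nat_lit 0x60505040503051) (nat_lit 16) Lb.e (@T16.mk En
    (@En.i (nat_lit 8011) (nat_lit 12) (nat_lit 10))
    (@En.n l10994 (nat_lit 9854) (nat_lit 1) (nat_lit 14))
    (@En.n l31131 (nat_lit 8007) (nat_lit 2) (nat_lit 5))
    (@En.n l31132 (nat_lit 12263) (nat_lit 3) (nat_lit 9))
    (@En.n l2038 (nat_lit 7974) (nat_lit 4) (nat_lit 5))
    (@En.n l31133 (nat_lit 11012) (nat_lit 5) (nat_lit 9))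
    (@En.n l23774 (nat_lit 6535) (nat_lit 6) (nat_lit 5))
    (@En.n l28100 (nat_lit 12080) (nat_lit 8) (nat_lit 11))
    (@En.n l50 (nat_lit 5860) (nat_lit 8) (nat_lit 5))
    (@En.n l2038 (nat_lit 10270) (nat_lit 10) (nat_lit 11))
    (@En.n l31134 (nat_lit 11984) (nat_lit 11) (nat_lit 6))
    (@En.i (nat_lit 10855) (nat_lit 12) (nat_lit 11))
    (@En.n l31135 (nat_lit 7986) (nat_lit 13) (nat_lit 7))
    (@En.n l476 (nat_lit 11156) (nat_lit 14) (nat_lit 11))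
    (@En.i (nat_lit 11085) (nat_lit 13) (nat_lit 7))
    (@En.n l28 (nat_lit 11089) (nat_lit 15) (nat_lit 2))))
  (@Cl.mk (nat_lit 0x4000a0007000b0007000b000700060005000b00050009000c000900050009) (nat_lit 0x109030004037504) (nat_lit 16) Lb.e (@T16.mk En
    (@En.n l41538 (nat_lit 10680) (nat_lit 10) (nat_lit 9))
    (@En.n l31131 (nat_lit 9620) (nat_lit 1) (nat_lit 5))
    (@En.n l41539 (nat_lit 11078) (nat_lit 0) (nat_lit 9))
    (@En.n l2038 (nat_lit 7520) (nat_lit 6) (nat_lit 12))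
    (@En.n l41416 (nat_lit 9945) (nat_lit 10) (nat_lit 9))
    (@En.n l3819 (nat_lit 11609) (nat_lit 5) (nat_lit 5))
    (@En.n l39098 (nat_lit 9940) (nat_lit 0) (nat_lit 11))
    (@En.n l41540 (nat_lit 11953) (nat_lit 11) (nat_lit 5))
    (@En.i (nat_lit 10307) (nat_lit 10) (nat_lit 6))
    (@En.n l41541 (nat_lit 11096) (nat_lit 1) (nat_lit 7))
    (@En.i (nat_lit 11098) (nat_lit 8) (nat_lit 11))
    (@En.n l41530 (nat_lit 11398) (nat_lit 5) (nat_lit 7))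
    (@En.n l16427 (nat_lit 9985) (nat_lit 8) (nat_lit 11))
    (@En.n l41542 (nat_lit 11086) (nat_lit 14) (nat_lit 7))
    (@En.n l28 (nat_lit 8011) (nat_lit 11) (nat_lit 10))
    (@En.n l41543 (nat_lit 9841) (nat_lit 15) (nat_lit 4))))
  (@Cl.mk (nat_lit 0x40007000c0006000b000a000400090009000500090006000c000a00070007) (nat_lit 0x90630320505700) (nat_lit 16) Lb.e (@T16.mk En
    (@En.n l12926 (nat_lit 12263) (nat_lit 9) (nat_lit 7))
    (@En.n l649 (nat_lit 11771) (nat_lit 1) (nat_lit 7))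
    (@En.n l37208 (nat_lit 10858) (nat_lit 6) (nat_lit 10))
    (@En.n l37209 (nat_lit 11093) (nat_lit 10) (nat_lit 12))
    (@En.n l37210 (nat_lit 11554) (nat_lit 4) (nat_lit 6))
    (@En.n l37211 (nat_lit 11835) (nat_lit 10) (nat_lit 9))
    (@En.n l50 (nat_lit 11086) (nat_lit 6) (nat_lit 5))
    (@En.n l2262 (nat_lit 12814) (nat_lit 7) (nat_lit 9))
    (@En.n l55 (nat_lit 9717) (nat_lit 11) (nat_lit 9))
    (@En.n l37212 (nat_lit 11740) (nat_lit 9) (nat_lit 4))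
    (@En.n l217 (nat_lit 12213) (nat_lit 0) (nat_lit 10))
    (@En.n l30946 (nat_lit 12021) (nat_lit 1) (nat_lit 11))
    (@En.n l37213 (nat_lit 76) (nat_lit 5) (nat_lit 6))
    (@En.n l29812 (nat_lit 11878) (nat_lit 8) (nat_lit 12))
    (@En.i (nat_lit 8016) (nat_lit 11) (nat_lit 7))
    (@En.n l12925 (nat_lit 11776) (nat_lit 15) (nat_lit 4))))
  (@Cl.mk (nat_lit 0x4000a000900080005000b00090006000a000700050008000c00070006000b) (nat_lit 0x344076060018004) (nat_lit 16) Lb.e (@T16.mk En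
    (@En.n l36290 (nat_lit 10425) (nat_lit 0) (nat_lit 11))
    (@En.n l36291 (nat_lit 11760) (nat_lit 10) (nat_lit 6))
    (@En.n l36292 (nat_lit 11054) (nat_lit 6) (nat_lit 7))
    (@En.n l9872 (nat_lit 11116) (nat_lit 7) (nat_lit 12))
    (@En.i (nat_lit 8014) (nat_lit 10) (nat_lit 8))
    (@En.n l7826 (nat_lit 11094) (nat_lit 5) (nat_lit 5))
    (@En.n l6735 (nat_lit 11091) (nat_lit 0) (nat_lit 7))
    (@En.n l36293 (nat_lit 11879) (nat_lit 9) (nat_lit 10))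
    (@En.n l36290 (nat_lit 10481) (nat_lit 2) (nat_lit 6))
    (@En.n l36294 (nat_lit 11084) (nat_lit 7) (nat_lit 9))
    (@En.n l27863 (nat_lit 11096) (nat_lit 11) (nat_lit 11))
    (@En.n l36295 (nat_lit 9738) (nat_lit 11) (nat_lit 5))
    (@En.n l36290 (nat_lit 9947) (nat_lit 8) (nat_lit 8))
    (@En.i (nat_lit 10671) (nat_lit 7) (nat_lit 9))
    (@En.n l31096 (nat_lit 9720) (nat_lit 2) (nat_lit 10))
    (@En.n l27866 (nat_lit 11857) (nat_lit 15) (nat_lit 4))))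
  (@Cl.mk (nat_lit 0x4000a000a00050009000c0009000600060004000b0007000c0007000b0005) (nat_lit 0x320545000609050) (nat_lit 16) Lb.e (@T16.mk En
    (@En.n l6449 (nat_lit 11703) (nat_lit 0) (nat_lit 5))
    (@En.n l30756 (nat_lit 12018) (nat_lit 8) (nat_lit 11))
    (@En.n l30757 (nat_lit 6532) (nat_lit 1) (nat_lit 7))
    (@En.n l30758 (nat_lit 12684) (nat_lit 2) (nat_lit 12))
    (@En.n l30759 (nat_lit 11091) (nat_lit 14) (nat_lit 7))
    (@En.n l14127 (nat_lit 8011) (nat_lit 4) (nat_lit 11))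
    (@En.n l3535 (nat_lit 11775) (nat_lit 6) (nat_lit 4))
    (@En.n l152 (nat_lit 12264) (nat_lit 10) (nat_lit 6))
    (@En.n l6449 (nat_lit 11773) (nat_lit 1) (nat_lit 6))
    (@En.n l14128 (nat_lit 10281) (nat_lit 0) (nat_lit 9))
    (@En.i (nat_lit 6363) (nat_lit 6) (nat_lit 12))
    (@En.n l617 (nat_lit 11837) (nat_lit 10) (nat_lit 9))
    (@En.n l29713 (nat_lit 11090) (nat_lit 5) (nat_lit 5))
    (@En.n l3536 (nat_lit 12811) (nat_lit 6) (nat_lit 10))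
    (@En.n l6450 (nat_lit 9719) (nat_lit 1) (nat_lit 10))
    (@En.i (nat_lit 11741) (nat_lit 12) (nat_lit 4))))
  (@Cl.mk (nat_lit 0x40009000c00080005000b0004000a0007000b00050008000c00060005000b) (nat_lit 0x463060707034004) (nat_lit 16) Lb.e (@T16.mk En
    (@En.n l21631 (nat_lit 7089) (nat_lit 0) (nat_lit 11))
    (@En.i (nat_lit 11758) (nat_lit 11) (nat_lit 5))
    (@En.i (nat_lit 10904) (nat_lit 8) (nat_lit 6))
    (@En.i (nat_lit 9795) (nat_lit 7) (nat_lit 12))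
    (@En.n l1081 (nat_lit 12811) (nat_lit 10) (nat_lit 8))
    (@En.n l5928 (nat_lit 9844) (nat_lit 5) (nat_lit 5))
    (@En.n l12890 (nat_lit 12454) (nat_lit 8) (nat_lit 11))
    (@En.n l41532 (nat_lit 11095) (nat_lit 14) (nat_lit 7))
    (@En.n l41533 (nat_lit 11086) (nat_lit 2) (nat_lit 10))
    (@En.n l117 (nat_lit 11087) (nat_lit 9) (nat_lit 4))
    (@En.n l617 (nat_lit 11097) (nat_lit 0) (nat_lit 11))
    (@En.n l3480 (nat_lit 8002) (nat_lit 1) (nat_lit 5))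
    (@En.n l41534 (nat_lit 9941) (nat_lit 13) (nat_lit 8))
    (@En.i (nat_lit 6585) (nat_lit 6) (nat_lit 12))
    (@En.n l5646 (nat_lit 11118) (nat_lit 11) (nat_lit 9))
    (@En.n l6081 (nat_lit 11611) (nat_lit 5) (nat_lit 4))))
  (@Cl.mk (nat_lit 0x40007000b00040007000c000b0005000a000400090005000c00090006000c) (nat_lit 0x70065040407407) (nat_lit 16) Lb.e (@T16.mk En
    (@En.n l17017 (nat_lit 11098) (nat_lit 0) (nat_lit 12))
    (@En.n l10089 (nat_lit 10967) (nat_lit 1) (nat_lit 6))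
    (@En.n l31553 (nat_lit 10814) (nat_lit 5) (nat_lit 9))
    (@En.n l31554 (nat_lit 11094) (nat_lit 13) (nat_lit 12))
    (@En.n l16773 (nat_lit 10997) (nat_lit 7) (nat_lit 5))
    (@En.n l31555 (nat_lit 11120) (nat_lit 5) (nat_lit 9))
    (@En.i (nat_lit 11612) (nat_lit 6) (nat_lit 4))
    (@En.n l10089 (nat_lit 7087) (nat_lit 0) (nat_lit 10))
    (@En.n l31556 (nat_lit 11759) (nat_lit 1) (nat_lit 5))
    (@En.n l31557 (nat_lit 11108) (nat_lit 5) (nat_lit 11))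
    (@En.n l31556 (nat_lit 9787) (nat_lit 8) (nat_lit 12))
    (@En.n l152 (nat_lit 12814) (nat_lit 11) (nat_lit 7))
    (@En.n l1790 (nat_lit 4319) (nat_lit 15) (nat_lit 4))
    (@En.n l31557 (nat_lit 12439) (nat_lit 0) (nat_lit 11))
    (@En.n l253 (nat_lit 9626) (nat_lit 11) (nat_lit 7))
    (@En.n l22796 (nat_lit 11088) (nat_lit 15) (nat_lit 4))))
  (@Cl.mk (nat_lit 0x4000b000a0008000b00080005000900060005000b0008000c000800070005) (nat_lit 0x644640500124500) (nat_lit 16) Lb.e (@T16.mk En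
    (@En.n l14045 (nat_lit 11846) (nat_lit 0) (nat_lit 5))
    (@En.n l40836 (nat_lit 10544) (nat_lit 9) (nat_lit 7))
    (@En.n l40576 (nat_lit 11055) (nat_lit 1) (nat_lit 8))
    (@En.n l5821 (nat_lit 10533) (nat_lit 7) (nat_lit 12))
    (@En.n l13979 (nat_lit 11092) (nat_lit 4) (nat_lit 8))
    (@En.n l40837 (nat_lit 8013) (nat_lit 10) (nat_lit 11))
    (@En.n l40838 (nat_lit 11097) (nat_lit 11) (nat_lit 5))
    (@En.i (nat_lit 11093) (nat_lit 7) (nat_lit 6))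
    (@En.n l5306 (nat_lit 11877) (nat_lit 10) (nat_lit 9))
    (@En.n l40839 (nat_lit 10480) (nat_lit 9) (nat_lit 5))
    (@En.n l14128 (nat_lit 11076) (nat_lit 0) (nat_lit 8))
    (@En.i (nat_lit 7523) (nat_lit 7) (nat_lit 11))
    (@En.n l31180 (nat_lit 9948) (nat_lit 2) (nat_lit 8))
    (@En.n l40840 (nat_lit 10670) (nat_lit 6) (nat_lit 10))
    (@En.n l40841 (nat_lit 9722) (nat_lit 4) (nat_lit 11))
    (@En.i (nat_lit 11856) (nat_lit 12) (nat_lit 4))))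
  (@Cl.mk (nat_lit 0x300090006000a0005000b0008000c0007000600050004000a000d0008000b) (nat_lit 0x605044200003635) (nat_lit 16) Lb.e (@T16.mk En
    (@En.n l14763 (nat_lit 7644) (nat_lit 0) (nat_lit 11))
    (@En.i (nat_lit 9944) (nat_lit 13) (nat_lit 8))
    (@En.i (nat_lit 6586) (nat_lit 5) (nat_lit 13))
    (@En.n l6080 (nat_lit 11113) (nat_lit 3) (nat_lit 10))
    (@En.n l14763 (nat_lit 12012) (nat_lit 4) (nat_lit 4))
    (@En.n l28981 (nat_lit 10895) (nat_lit 5) (nat_lit 5))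
    (@En.i (nat_lit 10543) (nat_lit 10) (nat_lit 6))
    (@En.n l28981 (nat_lit 10906) (nat_lit 7) (nat_lit 7))
    (@En.i (nat_lit 6404) (nat_lit 9) (nat_lit 12))
    (@En.n l61 (nat_lit 11094) (nat_lit 4) (nat_lit 8))
    (@En.n l5891 (nat_lit 10849) (nat_lit 11) (nat_lit 11))
    (@En.n l5928 (nat_lit 9845) (nat_lit 6) (nat_lit 5))
    (@En.n l14765 (nat_lit 12453) (nat_lit 13) (nat_lit 10))
    (@En.n l28982 (nat_lit 11098) (nat_lit 14) (nat_lit 6))
    (@En.n l28981 (nat_lit 11090) (nat_lit 2) (nat_lit 9))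
    (@En.n l117 (nat_lit 11100) (nat_lit 15) (nat_lit 3))))
  (@Cl.mk (nat_lit 0x30006000a0004000b0007000c000b000600050004000a0005000d0009000c) (nat_lit 0x40802200040746) (nat_lit 16) Lb.e (@T16.mk En
    (@En.n l2038 (nat_lit 7642) (nat_lit 0) (nat_lit 12))
    (@En.i (nat_lit 10813) (nat_lit 4) (nat_lit 9))
    (@En.n l16427 (nat_lit 11097) (nat_lit 2) (nat_lit 13))
    (@En.n l3819 (nat_lit 8059) (nat_lit 3) (nat_lit 5))
    (@En.n l6557 (nat_lit 11112) (nat_lit 4) (nat_lit 10))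
    (@En.n l50 (nat_lit 12011) (nat_lit 5) (nat_lit 4))
    (@En.i (nat_lit 10256) (nat_lit 6) (nat_lit 5))
    (@En.n l6566 (nat_lit 10541) (nat_lit 7) (nat_lit 6))
    (@En.n l14883 (nat_lit 11106) (nat_lit 9) (nat_lit 11))
    (@En.n l476 (nat_lit 6406) (nat_lit 10) (nat_lit 12))
    (@En.n l11010 (nat_lit 11095) (nat_lit 11) (nat_lit 7))
    (@En.n l28 (nat_lit 10851) (nat_lit 12) (nat_lit 11))
    (@En.n l10969 (nat_lit 4321) (nat_lit 13) (nat_lit 4))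
    (@En.n l14883 (nat_lit 12437) (nat_lit 9) (nat_lit 10))
    (@En.i (nat_lit 9621) (nat_lit 12) (nat_lit 6))
    (@En.n l10786 (nat_lit 11099) (nat_lit 15) (nat_lit 3))))
  (@Cl.mk (nat_lit 0x30006000a0005000b0006000c000b000600050004000a0005000d000b000a) (nat_lit 0x60802400040765) (nat_lit 16) Lb.e (@T16.mk En
    (@En.n l31570 (nat_lit 12641) (nat_lit 0) (nat_lit 10))
    (@En.n l31571 (nat_lit 10480) (nat_lit 12) (nat_lit 11))
    (@En.n l31572 (nat_lit 11100) (nat_lit 2) (nat_lit 13))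
    (@En.n l50 (nat_lit 10930) (nat_lit 3) (nat_lit 5))
    (@En.n l31573 (nat_lit 11116) (nat_lit 4) (nat_lit 10))
    (@En.i (nat_lit 11992) (nat_lit 5) (nat_lit 4))
    (@En.n l31571 (nat_lit 12028) (nat_lit 6) (nat_lit 5))
    (@En.n l77 (nat_lit 10540) (nat_lit 7) (nat_lit 6))
    (@En.n l19182 (nat_lit 11102) (nat_lit 9) (nat_lit 11))
    (@En.n l18987 (nat_lit 6407) (nat_lit 10) (nat_lit 12))
    (@En.n l31574 (nat_lit 11088) (nat_lit 11) (nat_lit 6))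
    (@En.n l19313 (nat_lit 10852) (nat_lit 12) (nat_lit 11))
    (@En.n l31575 (nat_lit 10644) (nat_lit 13) (nat_lit 5))
    (@En.n l19182 (nat_lit 12436) (nat_lit 9) (nat_lit 10))
    (@En.n l24574 (nat_lit 9286) (nat_lit 12) (nat_lit 6))
    (@En.n l24302 (nat_lit 11098) (nat_lit 15) (nat_lit 3))))
  (@Cl.mk (nat_lit 0x300090006000a0006000b0007000c0007000600050004000a000d000a0009) (nat_lit 0x404040200004654) (nat_lit 16) Lb.e (@T16.mk En
    (@En.n l9970 (nat_lit 12643) (nat_lit 0) (nat_lit 9))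
    (@En.n l41544 (nat_lit 11096) (nat_lit 13) (nat_lit 10))
    (@En.i (nat_lit 6588) (nat_lit 5) (nat_lit 13))
    (@En.n l41545 (nat_lit 11115) (nat_lit 3) (nat_lit 10))
    (@En.n l41546 (nat_lit 11993) (nat_lit 4) (nat_lit 4))
    (@En.n l41547 (nat_lit 12027) (nat_lit 5) (nat_lit 5))
    (@En.i (nat_lit 10542) (nat_lit 10) (nat_lit 6))
    (@En.n l18265 (nat_lit 10909) (nat_lit 7) (nat_lit 7))
    (@En.i (nat_lit 6405) (nat_lit 9) (nat_lit 12))
    (@En.n l61 (nat_lit 11087) (nat_lit 4) (nat_lit 7))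
    (@En.n l21428 (nat_lit 10850) (nat_lit 11) (nat_lit 11))
    (@En.n l41548 (nat_lit 10643) (nat_lit 6) (nat_lit 6))
    (@En.n l41549 (nat_lit 12452) (nat_lit 13) (nat_lit 10))
    (@En.n l29012 (nat_lit 11099) (nat_lit 14) (nat_lit 6))
    (@En.n l41550 (nat_lit 8013) (nat_lit 0) (nat_lit 9))
    (@En.n l152 (nat_lit 11097) (nat_lit 15) (nat_lit 3))))
  (@Cl.mk (nat_lit 0x30006000b0005000c0006000c00050004000d0004000a0003000d000b000a) (nat_lit 0x20401003020876) (nat_lit 16) Lb.e (@T16.mk En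
    (@En.n l39454 (nat_lit 12349) (nat_lit 0) (nat_lit 10))
    (@En.n l28554 (nat_lit 10474) (nat_lit 14) (nat_lit 11))
    (@En.i (nat_lit 11103) (nat_lit 2) (nat_lit 13))
    (@En.n l34970 (nat_lit 11102) (nat_lit 3) (nat_lit 3))
    (@En.n l4449 (nat_lit 6786) (nat_lit 0) (nat_lit 10))
    (@En.n l28553 (nat_lit 11099) (nat_lit 5) (nat_lit 4))
    (@En.n l10976 (nat_lit 4229) (nat_lit 7) (nat_lit 13))
    (@En.n l28554 (nat_lit 10901) (nat_lit 7) (nat_lit 4))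
    (@En.n l12130 (nat_lit 11988) (nat_lit 8) (nat_lit 5))
    (@En.i (nat_lit 9168) (nat_lit 10) (nat_lit 12))
    (@En.n l36987 (nat_lit 11967) (nat_lit 6) (nat_lit 6))
    (@En.n l12128 (nat_lit 11149) (nat_lit 12) (nat_lit 12))
    (@En.n l12396 (nat_lit 10629) (nat_lit 8) (nat_lit 5))
    (@En.n l29242 (nat_lit 12408) (nat_lit 14) (nat_lit 11))
    (@En.n l17552 (nat_lit 9285) (nat_lit 12) (nat_lit 6))
    (@En.n l10977 (nat_lit 11104) (nat_lit 15) (nat_lit 3))))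
  (@Cl.mk (nat_lit 0x30007000b0005000c0006000b00050004000d000900050003000d000b000a) (nat_lit 0x20403002300846) (nat_lit 16) Lb.e (@T16.mk En
    (@En.n l28539 (nat_lit 12347) (nat_lit 0) (nat_lit 10))
    (@En.n l3480 (nat_lit 10475) (nat_lit 14) (nat_lit 11))
    (@En.n l28540 (nat_lit 11402) (nat_lit 2) (nat_lit 13))
    (@En.n l19240 (nat_lit 11101) (nat_lit 3) (nat_lit 3))
    (@En.n l28541 (nat_lit 10881) (nat_lit 0) (nat_lit 5))
    (@En.n l28542 (nat_lit 11103) (nat_lit 5) (nat_lit 9))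
    (@En.n l28543 (nat_lit 4231) (nat_lit 7) (nat_lit 13))
    (@En.n l28544 (nat_lit 10885) (nat_lit 12) (nat_lit 4))
    (@En.n l28545 (nat_lit 11989) (nat_lit 8) (nat_lit 5))
    (@En.n l2642 (nat_lit 9139) (nat_lit 10) (nat_lit 11))
    (@En.n l2642 (nat_lit 11966) (nat_lit 6) (nat_lit 6))
    (@En.n l28546 (nat_lit 11152) (nat_lit 12) (nat_lit 12))
    (@En.n l28547 (nat_lit 10631) (nat_lit 8) (nat_lit 5))
    (@En.i (nat_lit 12404) (nat_lit 8) (nat_lit 11))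
    (@En.n l18912 (nat_lit 12458) (nat_lit 12) (nat_lit 7))
    (@En.n l50 (nat_lit 11106) (nat_lit 15) (nat_lit 3))))
  (@Cl.mk (nat_lit 0x300070006000b0006000c0007000c0005000400090004000a000d000a0009) (nat_lit 0x4060600202765) (nat_lit 16) Lb.e (@T16.mk En
    (@En.n l39454 (nat_lit 12268) (nat_lit 0) (nat_lit 9))
    (@En.n l41331 (nat_lit 11854) (nat_lit 11) (nat_lit 10))
    (@En.n l20336 (nat_lit 11397) (nat_lit 5) (nat_lit 13))
    (@En.n l25800 (nat_lit 6755) (nat_lit 3) (nat_lit 10))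
    (@En.n l27734 (nat_lit 11100) (nat_lit 4) (nat_lit 4))
    (@En.n l41332 (nat_lit 10732) (nat_lit 5) (nat_lit 9))
    (@En.n l28554 (nat_lit 10899) (nat_lit 6) (nat_lit 4))
    (@En.n l35667 (nat_lit 11990) (nat_lit 7) (nat_lit 5))
    (@En.i (nat_lit 10152) (nat_lit 1) (nat_lit 12))
    (@En.n l36987 (nat_lit 11968) (nat_lit 10) (nat_lit 7))
    (@En.n l12128 (nat_lit 11150) (nat_lit 11) (nat_lit 12))
    (@En.n l41333 (nat_lit 10630) (nat_lit 4) (nat_lit 6))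
    (@En.n l29242 (nat_lit 10638) (nat_lit 13) (nat_lit 11))
    (@En.n l17 (nat_lit 11101) (nat_lit 14) (nat_lit 6))
    (@En.i (nat_lit 11986) (nat_lit 12) (nat_lit 7))
    (@En.n l10977 (nat_lit 11105) (nat_lit 15) (nat_lit 3))))
noncomputable def a694 : T16 Cl := @T16.mk Cl
  (@Cl.mk (nat_lit 0x30006000b0004000c0007000c00050004000d0004000a0003000d0009000c) (nat_lit 0x80901003020851) (nat_lit 16) Lb.e (@T16.mk En
    (@En.n l2038 (nat_lit 8668) (nat_lit 0) (nat_lit 12))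
    (@En.i (nat_lit 9983) (nat_lit 14) (nat_lit 9))
    (@En.i (nat_lit 11105) (nat_lit 2) (nat_lit 13))
    (@En.n l21974 (nat_lit 11106) (nat_lit 3) (nat_lit 3))
    (@En.n l8012 (nat_lit 6347) (nat_lit 0) (nat_lit 10))
    (@En.i (nat_lit 11098) (nat_lit 5) (nat_lit 4))
    (@En.n l11008 (nat_lit 4234) (nat_lit 7) (nat_lit 13))
    (@En.i (nat_lit 10889) (nat_lit 7) (nat_lit 4))
    (@En.i (nat_lit 12009) (nat_lit 8) (nat_lit 5))
    (@En.n l8012 (nat_lit 4328) (nat_lit 10) (nat_lit 12))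
    (@En.n l11010 (nat_lit 11107) (nat_lit 6) (nat_lit 7))
    (@En.n l28 (nat_lit 11111) (nat_lit 12) (nat_lit 12))
    (@En.n l10969 (nat_lit 4316) (nat_lit 8) (nat_lit 4))
    (@En.n l14883 (nat_lit 12403) (nat_lit 14) (nat_lit 11))
    (@En.i (nat_lit 8098) (nat_lit 12) (nat_lit 6))
    (@En.n l14486 (nat_lit 11101) (nat_lit 15) (nat_lit 3))))
  (@Cl.mk (nat_lit 0x300070006000b0005000c0008000c0005000400090004000a000d0008000b) (nat_lit 0x8093100302741) (nat_lit 16) Lb.e (@T16.mk En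
    (@En.n l2038 (nat_lit 8669) (nat_lit 0) (nat_lit 11))
    (@En.n l33654 (nat_lit 9739) (nat_lit 13) (nat_lit 8))
    (@En.n l33655 (nat_lit 11395) (nat_lit 5) (nat_lit 13))
    (@En.n l8012 (nat_lit 6345) (nat_lit 3) (nat_lit 10))
    (@En.n l16427 (nat_lit 11097) (nat_lit 4) (nat_lit 4))
    (@En.n l11404 (nat_lit 10033) (nat_lit 5) (nat_lit 9))
    (@En.i (nat_lit 10892) (nat_lit 6) (nat_lit 4))
    (@En.n l11004 (nat_lit 12010) (nat_lit 7) (nat_lit 5))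
    (@En.n l8012 (nat_lit 4333) (nat_lit 1) (nat_lit 12))
    (@En.n l11010 (nat_lit 11109) (nat_lit 10) (nat_lit 8))
    (@En.n l33656 (nat_lit 11210) (nat_lit 11) (nat_lit 12))
    (@En.n l10684 (nat_lit 4318) (nat_lit 4) (nat_lit 5))
    (@En.n l21973 (nat_lit 11814) (nat_lit 13) (nat_lit 11))
    (@En.n l17 (nat_lit 11104) (nat_lit 14) (nat_lit 6))
    (@En.i (nat_lit 9951) (nat_lit 12) (nat_lit 7))
    (@En.n l14486 (nat_lit 11103) (nat_lit 15) (nat_lit 3))))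
  (@Cl.mk (nat_lit 0x30007000b0004000c0007000b00050004000d000900050003000d0009000c) (nat_lit 0x70601002400854) (nat_lit 16) Lb.e (@T16.mk En
    (@En.n l10505 (nat_lit 8671) (nat_lit 0) (nat_lit 12))
    (@En.i (nat_lit 9980) (nat_lit 14) (nat_lit 9))
    (@En.n l12001 (nat_lit 11399) (nat_lit 2) (nat_lit 13))
    (@En.n l6622 (nat_lit 11104) (nat_lit 3) (nat_lit 3))
    (@En.n l6900 (nat_lit 8053) (nat_lit 0) (nat_lit 5))
    (@En.n l17881 (nat_lit 11105) (nat_lit 5) (nat_lit 9))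
    (@En.n l7507 (nat_lit 4235) (nat_lit 7) (nat_lit 13))
    (@En.n l22762 (nat_lit 10883) (nat_lit 7) (nat_lit 4))
    (@En.n l3480 (nat_lit 12008) (nat_lit 8) (nat_lit 5))
    (@En.n l2642 (nat_lit 4332) (nat_lit 10) (nat_lit 11))
    (@En.n l2642 (nat_lit 11108) (nat_lit 6) (nat_lit 7))
    (@En.i (nat_lit 11110) (nat_lit 12) (nat_lit 12))
    (@En.i (nat_lit 4317) (nat_lit 8) (nat_lit 4))
    (@En.i (nat_lit 12401) (nat_lit 8) (nat_lit 11))
    (@En.n l22762 (nat_lit 10426) (nat_lit 12) (nat_lit 7))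
    (@En.i (nat_lit 11102) (nat_lit 15) (nat_lit 3))))
  (@Cl.mk (nat_lit 0x3000c00090007000c00040007000c00040007000c00040009000d00040009) (nat_lit 0x550200900a01302) (nat_lit 16) Lb.e (@T16.mk En
    (@En.n l253 (nat_lit 6346) (nat_lit 0) (nat_lit 9))
    (@En.i (nat_lit 11095) (nat_lit 6) (nat_lit 4))
    (@En.i (nat_lit 4245) (nat_lit 0) (nat_lit 13))
    (@En.n l10089 (nat_lit 7084) (nat_lit 1) (nat_lit 9))
    (@En.i (nat_lit 11614) (nat_lit 4) (nat_lit 4))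
    (@En.n l2125 (nat_lit 9791) (nat_lit 0) (nat_lit 12))
    (@En.n l152 (nat_lit 10984) (nat_lit 11) (nat_lit 7))
    (@En.n l117 (nat_lit 4313) (nat_lit 7) (nat_lit 4))
    (@En.n l1329 (nat_lit 11822) (nat_lit 0) (nat_lit 12))
    (@En.n l253 (nat_lit 8099) (nat_lit 11) (nat_lit 7))
    (@En.n l22796 (nat_lit 11967) (nat_lit 10) (nat_lit 4))
    (@En.n l17017 (nat_lit 11104) (nat_lit 0) (nat_lit 12))
    (@En.n l7231 (nat_lit 10696) (nat_lit 1) (nat_lit 7))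
    (@En.i (nat_lit 9982) (nat_lit 14) (nat_lit 9))
    (@En.i (nat_lit 11109) (nat_lit 3) (nat_lit 12))
    (@En.n l16798 (nat_lit 11108) (nat_lit 15) (nat_lit 3))))
  (@Cl.mk (nat_lit 0x3000c00090007000c00040008000c00040007000b00040009000d00080005) (nat_lit 0x560502800401240) (nat_lit 16) Lb.e (@T16.mk En
    (@En.n l17 (nat_lit 8054) (nat_lit 0) (nat_lit 5))
    (@En.n l42644 (nat_lit 11109) (nat_lit 6) (nat_lit 8))
    (@En.n l2038 (nat_lit 4246) (nat_lit 6) (nat_lit 13))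
    (@En.n l31884 (nat_lit 7081) (nat_lit 3) (nat_lit 9))
    (@En.i (nat_lit 11615) (nat_lit 4) (nat_lit 4))
    (@En.i (nat_lit 9960) (nat_lit 8) (nat_lit 11))
    (@En.n l34806 (nat_lit 12206) (nat_lit 11) (nat_lit 7))
    (@En.n l42645 (nat_lit 4315) (nat_lit 7) (nat_lit 4))
    (@En.i (nat_lit 11824) (nat_lit 7) (nat_lit 12))
    (@En.n l42646 (nat_lit 10427) (nat_lit 1) (nat_lit 8))
    (@En.i (nat_lit 11966) (nat_lit 10) (nat_lit 4))
    (@En.n l899 (nat_lit 11106) (nat_lit 0) (nat_lit 12))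
    (@En.n l8776 (nat_lit 10699) (nat_lit 1) (nat_lit 7))
    (@En.n l42647 (nat_lit 9979) (nat_lit 14) (nat_lit 9))
    (@En.i (nat_lit 11401) (nat_lit 3) (nat_lit 12))
    (@En.n l38398 (nat_lit 11107) (nat_lit 15) (nat_lit 3))))
  (@Cl.mk (nat_lit 0x400080007000c00050008000c0004000a000800040009000c00080006000b) (nat_lit 0x309024013024402) (nat_lit 16) Lb.e (@T16.mk En
    (@En.n l17017 (nat_lit 11105) (nat_lit 0) (nat_lit 11))
    (@En.n l7231 (nat_lit 10694) (nat_lit 1) (nat_lit 6))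
    (@En.n l50 (nat_lit 9938) (nat_lit 13) (nat_lit 8))
    (@En.n l31554 (nat_lit 11396) (nat_lit 6) (nat_lit 12))
    (@En.n l43199 (nat_lit 6344) (nat_lit 11) (nat_lit 9))
    (@En.n l31554 (nat_lit 11094) (nat_lit 15) (nat_lit 4))
    (@En.n l5 (nat_lit 10604) (nat_lit 0) (nat_lit 8))
    (@En.n l10089 (nat_lit 7088) (nat_lit 1) (nat_lit 10))
    (@En.n l23878 (nat_lit 11613) (nat_lit 8) (nat_lit 4))
    (@En.n l43200 (nat_lit 9794) (nat_lit 7) (nat_lit 12))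
    (@En.n l152 (nat_lit 10982) (nat_lit 10) (nat_lit 8))
    (@En.n l117 (nat_lit 4314) (nat_lit 5) (nat_lit 5))
    (@En.n l1329 (nat_lit 11815) (nat_lit 0) (nat_lit 12))
    (@En.n l50 (nat_lit 11107) (nat_lit 9) (nat_lit 7))
    (@En.n l15054 (nat_lit 9953) (nat_lit 11) (nat_lit 8))
    (@En.n l22796 (nat_lit 11968) (nat_lit 15) (nat_lit 4))))
  (@Cl.mk (nat_lit 0x30007000c000c0006000a000400040009000d000900060003000d000a0007) (nat_lit 0x75040024600980) (nat_lit 16) Lb.e (@T16.mk En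
    (@En.n l12002 (nat_lit 11126) (nat_lit 0) (nat_lit 7))
    (@En.n l41473 (nat_lit 8000) (nat_lit 14) (nat_lit 10))
    (@En.n l41474 (nat_lit 7107) (nat_lit 2) (nat_lit 13))
    (@En.n l41475 (nat_lit 11111) (nat_lit 3) (nat_lit 3))
    (@En.n l41476 (nat_lit 5604) (nat_lit 0) (nat_lit 6))
    (@En.n l34038 (nat_lit 11210) (nat_lit 5) (nat_lit 9))
    (@En.n l41476 (nat_lit 6981) (nat_lit 6) (nat_lit 13))
    (@En.n l1003 (nat_lit 11108) (nat_lit 3) (nat_lit 9))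
    (@En.n l22762 (nat_lit 11215) (nat_lit 12) (nat_lit 4))
    (@En.n l41473 (nat_lit 10545) (nat_lit 9) (nat_lit 4))
    (@En.n l2642 (nat_lit 3971) (nat_lit 0) (nat_lit 10))
    (@En.n l41477 (nat_lit 12213) (nat_lit 1) (nat_lit 6))
    (@En.n l41478 (nat_lit 11140) (nat_lit 4) (nat_lit 12))
    (@En.i (nat_lit 10576) (nat_lit 14) (nat_lit 12))
    (@En.n l20423 (nat_lit 7081) (nat_lit 12) (nat_lit 7))
    (@En.n l28546 (nat_lit 11152) (nat_lit 15) (nat_lit 3))))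
  (@Cl.mk (nat_lit 0x30006000c000c0006000b000400040009000d0005000a0003000d000a0007) (nat_lit 0x88010024010980) (nat_lit 16) Lb.e (@T16.mk En
    (@En.n l4758 (nat_lit 11127) (nat_lit 0) (nat_lit 7))
    (@En.n l649 (nat_lit 8002) (nat_lit 14) (nat_lit 10))
    (@En.n l28925 (nat_lit 11210) (nat_lit 2) (nat_lit 13))
    (@En.n l28926 (nat_lit 11110) (nat_lit 3) (nat_lit 3))
    (@En.n l8490 (nat_lit 2238) (nat_lit 0) (nat_lit 10))
    (@En.i (nat_lit 10851) (nat_lit 5) (nat_lit 5))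
    (@En.n l16834 (nat_lit 5565) (nat_lit 6) (nat_lit 13))
    (@En.n l9938 (nat_lit 11107) (nat_lit 3) (nat_lit 9))
    (@En.n l55 (nat_lit 11212) (nat_lit 12) (nat_lit 4))
    (@En.n l28927 (nat_lit 10364) (nat_lit 9) (nat_lit 4))
    (@En.n l5845 (nat_lit 6181) (nat_lit 0) (nat_lit 11))
    (@En.i (nat_lit 12215) (nat_lit 1) (nat_lit 6))
    (@En.n l28928 (nat_lit 11145) (nat_lit 4) (nat_lit 12))
    (@En.n l28929 (nat_lit 10579) (nat_lit 14) (nat_lit 12))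
    (@En.i (nat_lit 7800) (nat_lit 12) (nat_lit 6))
    (@En.n l1865 (nat_lit 11149) (nat_lit 15) (nat_lit 3))))
  (@Cl.mk (nat_lit 0x30006000b000a0005000b00080005000c00060005000a0004000d0008000b) (nat_lit 0x98074020030731) (nat_lit 16) Lb.e (@T16.mk En
    (@En.n l158 (nat_lit 7648) (nat_lit 0) (nat_lit 11))
    (@En.n l21839 (nat_lit 11077) (nat_lit 14) (nat_lit 8))
    (@En.n l9335 (nat_lit 11113) (nat_lit 2) (nat_lit 13))
    (@En.n l21840 (nat_lit 11114) (nat_lit 3) (nat_lit 4))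
    (@En.n l9337 (nat_lit 10410) (nat_lit 4) (nat_lit 10))
    (@En.n l7 (nat_lit 8454) (nat_lit 5) (nat_lit 5))
    (@En.n l10543 (nat_lit 10046) (nat_lit 6) (nat_lit 6))
    (@En.n l2738 (nat_lit 11105) (nat_lit 8) (nat_lit 12))
    (@En.n l4600 (nat_lit 8879) (nat_lit 8) (nat_lit 5))
    (@En.n l21841 (nat_lit 11120) (nat_lit 10) (nat_lit 8))
    (@En.n l9337 (nat_lit 12441) (nat_lit 11) (nat_lit 11))
    (@En.n l12192 (nat_lit 9693) (nat_lit 12) (nat_lit 5))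
    (@En.n l21842 (nat_lit 10681) (nat_lit 13) (nat_lit 10))
    (@En.n l4600 (nat_lit 9290) (nat_lit 14) (nat_lit 11))
    (@En.i (nat_lit 9467) (nat_lit 12) (nat_lit 6))
    (@En.n l9343 (nat_lit 11116) (nat_lit 15) (nat_lit 3))))
  (@Cl.mk (nat_lit 0x300080006000b000a0006000b00090005000800060005000a000d0007000a) (nat_lit 0x409705302002601) (nat_lit 16) Lb.e (@T16.mk En
    (@En.n l36355 (nat_lit 6785) (nat_lit 8) (nat_lit 10))
    (@En.n l28289 (nat_lit 10733) (nat_lit 3) (nat_lit 7))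
    (@En.i (nat_lit 5092) (nat_lit 5) (nat_lit 13))
    (@En.n l21561 (nat_lit 10407) (nat_lit 3) (nat_lit 10))
    (@En.n l36356 (nat_lit 8456) (nat_lit 4) (nat_lit 5))
    (@En.i (nat_lit 12184) (nat_lit 5) (nat_lit 6))
    (@En.n l152 (nat_lit 10905) (nat_lit 10) (nat_lit 8))
    (@En.n l20367 (nat_lit 8881) (nat_lit 7) (nat_lit 5))
    (@En.n l833 (nat_lit 11118) (nat_lit 0) (nat_lit 9))
    (@En.n l36357 (nat_lit 12708) (nat_lit 10) (nat_lit 11))
    (@En.n l4750 (nat_lit 9694) (nat_lit 2) (nat_lit 6))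
    (@En.n l3536 (nat_lit 10679) (nat_lit 6) (nat_lit 10))
    (@En.n l17017 (nat_lit 11114) (nat_lit 13) (nat_lit 11))
    (@En.n l3173 (nat_lit 11112) (nat_lit 14) (nat_lit 6))
    (@En.n l36358 (nat_lit 9940) (nat_lit 12) (nat_lit 8))
    (@En.n l4708 (nat_lit 11115) (nat_lit 15) (nat_lit 3))))
  (@Cl.mk (nat_lit 0x30008000b00090005000a00080005000c0008000700060004000d0008000b) (nat_lit 0x586016033000721) (nat_lit 16) Lb.e (@T16.mk En
    (@En.n l23677 (nat_lit 7652) (nat_lit 7) (nat_lit 11))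
    (@En.n l23678 (nat_lit 11074) (nat_lit 14) (nat_lit 8))
    (@En.n l11008 (nat_lit 5044) (nat_lit 2) (nat_lit 13))
    (@En.n l19535 (nat_lit 11994) (nat_lit 3) (nat_lit 4))
    (@En.n l23679 (nat_lit 8455) (nat_lit 4) (nat_lit 6))
    (@En.n l12363 (nat_lit 11988) (nat_lit 9) (nat_lit 7))
    (@En.n l11010 (nat_lit 11113) (nat_lit 6) (nat_lit 8))
    (@En.n l12363 (nat_lit 11097) (nat_lit 8) (nat_lit 12))
    (@En.n l23679 (nat_lit 8878) (nat_lit 8) (nat_lit 5))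
    (@En.n l6565 (nat_lit 11119) (nat_lit 10) (nat_lit 8))
    (@En.n l23680 (nat_lit 5861) (nat_lit 11) (nat_lit 10))
    (@En.i (nat_lit 9698) (nat_lit 12) (nat_lit 5))
    (@En.n l19535 (nat_lit 11121) (nat_lit 13) (nat_lit 9))
    (@En.n l23679 (nat_lit 12736) (nat_lit 7) (nat_lit 11))
    (@En.n l23681 (nat_lit 9949) (nat_lit 2) (nat_lit 8))
    (@En.n l19682 (nat_lit 11117) (nat_lit 15) (nat_lit 3))))
  (@Cl.mk (nat_lit 0x300080006000b000a0007000b00080005000800060005000a000d00090008) (nat_lit 0x504505602003633) (nat_lit 16) Lb.e (@T16.mk En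
    (@En.n l9021 (nat_lit 12227) (nat_lit 0) (nat_lit 8))
    (@En.n l20350 (nat_lit 9722) (nat_lit 3) (nat_lit 9))
    (@En.n l1539 (nat_lit 5089) (nat_lit 5) (nat_lit 13))
    (@En.n l20351 (nat_lit 12024) (nat_lit 3) (nat_lit 10))
    (@En.n l3100 (nat_lit 9669) (nat_lit 4) (nat_lit 5))
    (@En.n l20352 (nat_lit 12160) (nat_lit 5) (nat_lit 6))
    (@En.n l20353 (nat_lit 10910) (nat_lit 10) (nat_lit 8))
    (@En.n l8434 (nat_lit 9978) (nat_lit 7) (nat_lit 5))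
    (@En.n l20354 (nat_lit 11124) (nat_lit 0) (nat_lit 8))
    (@En.n l9797 (nat_lit 12675) (nat_lit 8) (nat_lit 11))
    (@En.n l7 (nat_lit 10678) (nat_lit 2) (nat_lit 7))
    (@En.n l20355 (nat_lit 10680) (nat_lit 6) (nat_lit 10))
    (@En.n l20352 (nat_lit 11117) (nat_lit 13) (nat_lit 11))
    (@En.n l17 (nat_lit 11116) (nat_lit 14) (nat_lit 6))
    (@En.n l20356 (nat_lit 11092) (nat_lit 12) (nat_lit 8))
    (@En.n l20357 (nat_lit 11113) (nat_lit 15) (nat_lit 3))))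
  (@Cl.mk (nat_lit 0x30006000b000a0006000b00070005000c00060005000a0004000d000a0009) (nat_lit 0x34060070030754) (nat_lit 16) Lb.e (@T16.mk En
    (@En.n l19961 (nat_lit 12231) (nat_lit 0) (nat_lit 9))
    (@En.i (nat_lit 9725) (nat_lit 14) (nat_lit 10))
    (@En.i (nat_lit 11115) (nat_lit 2) (nat_lit 13))
    (@En.n l21305 (nat_lit 11117) (nat_lit 3) (nat_lit 4))
    (@En.n l14605 (nat_lit 12023) (nat_lit 4) (nat_lit 10))
    (@En.n l3100 (nat_lit 9668) (nat_lit 5) (nat_lit 5))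
    (@En.n l17544 (nat_lit 12159) (nat_lit 6) (nat_lit 6))
    (@En.n l19957 (nat_lit 11103) (nat_lit 8) (nat_lit 12))
    (@En.n l8434 (nat_lit 9795) (nat_lit 8) (nat_lit 5))
    (@En.n l7944 (nat_lit 11878) (nat_lit 10) (nat_lit 7))
    (@En.n l3897 (nat_lit 12687) (nat_lit 11) (nat_lit 11))
    (@En.n l7 (nat_lit 10645) (nat_lit 12) (nat_lit 6))
    (@En.n l644 (nat_lit 10686) (nat_lit 13) (nat_lit 10))
    (@En.n l617 (nat_lit 10533) (nat_lit 14) (nat_lit 11))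
    (@En.i (nat_lit 11171) (nat_lit 12) (nat_lit 6))
    (@En.n l20365 (nat_lit 11112) (nat_lit 15) (nat_lit 3))))
  (@Cl.mk (nat_lit 0x30008000b00090006000a00070005000c0008000700060004000d000a0009) (nat_lit 0x534040033000733) (nat_lit 16) Lb.e (@T16.mk En
    (@En.n l36350 (nat_lit 12226) (nat_lit 0) (nat_lit 9))
    (@En.n l36351 (nat_lit 9723) (nat_lit 14) (nat_lit 10))
    (@En.n l3520 (nat_lit 5078) (nat_lit 2) (nat_lit 13))
    (@En.n l34102 (nat_lit 11995) (nat_lit 3) (nat_lit 4))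
    (@En.n l36352 (nat_lit 9662) (nat_lit 4) (nat_lit 6))
    (@En.i (nat_lit 11989) (nat_lit 9) (nat_lit 7))
    (@En.n l36353 (nat_lit 11115) (nat_lit 6) (nat_lit 8))
    (@En.n l11434 (nat_lit 11100) (nat_lit 8) (nat_lit 12))
    (@En.n l16584 (nat_lit 8884) (nat_lit 8) (nat_lit 5))
    (@En.n l403 (nat_lit 11125) (nat_lit 10) (nat_lit 7))
    (@En.n l36354 (nat_lit 12690) (nat_lit 11) (nat_lit 10))
    (@En.n l9176 (nat_lit 10532) (nat_lit 12) (nat_lit 6))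
    (@En.n l8778 (nat_lit 12344) (nat_lit 13) (nat_lit 9))
    (@En.n l16583 (nat_lit 10529) (nat_lit 7) (nat_lit 11))
    (@En.n l20859 (nat_lit 11096) (nat_lit 12) (nat_lit 8))
    (@En.n l19558 (nat_lit 11114) (nat_lit 15) (nat_lit 3))))
  (@Cl.mk (nat_lit 0x400070005000c0009000c00070004000a000400090007000c000b00060009) (nat_lit 0x336002060a702) (nat_lit 16) Lb.e (@T16.mk En
    (@En.n l5253 (nat_lit 12733) (nat_lit 9) (nat_lit 9))
    (@En.n l5257 (nat_lit 9690) (nat_lit 1) (nat_lit 6))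
    (@En.i (nat_lit 10683) (nat_lit 5) (nat_lit 11))
    (@En.n l20869 (nat_lit 11119) (nat_lit 13) (nat_lit 12))
    (@En.n l20870 (nat_lit 11120) (nat_lit 14) (nat_lit 7))
    (@En.n l20871 (nat_lit 9939) (nat_lit 5) (nat_lit 9))
    (@En.n l20872 (nat_lit 11124) (nat_lit 6) (nat_lit 4))
    (@En.n l5255 (nat_lit 11113) (nat_lit 0) (nat_lit 10))
    (@En.n l5254 (nat_lit 9982) (nat_lit 1) (nat_lit 4))
    (@En.n l20739 (nat_lit 11071) (nat_lit 0) (nat_lit 7))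
    (@En.i (nat_lit 5093) (nat_lit 6) (nat_lit 12))
    (@En.n l20873 (nat_lit 10411) (nat_lit 12) (nat_lit 9))
    (@En.n l20874 (nat_lit 8804) (nat_lit 13) (nat_lit 12))
    (@En.n l17 (nat_lit 12190) (nat_lit 11) (nat_lit 5))
    (@En.n l3532 (nat_lit 10903) (nat_lit 11) (nat_lit 7))
    (@En.n l20875 (nat_lit 9673) (nat_lit 15) (nat_lit 4))))
  (@Cl.mk (nat_lit 0x40009000c000a000500080004000c00070006000c0004000c00080004000b) (nat_lit 0x596050500a08402) (nat_lit 16) Lb.e (@T16.mk En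
    (@En.n l19558 (nat_lit 11114) (nat_lit 0) (nat_lit 11))
    (@En.n l15575 (nat_lit 9983) (nat_lit 1) (nat_lit 4))
    (@En.n l36860 (nat_lit 11072) (nat_lit 0) (nat_lit 8))
    (@En.n l36861 (nat_lit 5049) (nat_lit 1) (nat_lit 12))
    (@En.n l15575 (nat_lit 11901) (nat_lit 4) (nat_lit 4))
    (@En.n l36862 (nat_lit 8803) (nat_lit 0) (nat_lit 12))
    (@En.i (nat_lit 11992) (nat_lit 10) (nat_lit 6))
    (@En.n l3444 (nat_lit 11118) (nat_lit 14) (nat_lit 7))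
    (@En.n l17134 (nat_lit 11094) (nat_lit 3) (nat_lit 12))
    (@En.n l3518 (nat_lit 9672) (nat_lit 9) (nat_lit 4))
    (@En.n l36863 (nat_lit 12735) (nat_lit 10) (nat_lit 8))
    (@En.n l28096 (nat_lit 8771) (nat_lit 1) (nat_lit 5))
    (@En.n l36864 (nat_lit 11122) (nat_lit 0) (nat_lit 10))
    (@En.n l28193 (nat_lit 12737) (nat_lit 6) (nat_lit 12))
    (@En.n l36865 (nat_lit 9473) (nat_lit 2) (nat_lit 9))
    (@En.n l50 (nat_lit 11125) (nat_lit 15) (nat_lit 4))))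
noncomputable def a695 : T16 Cl := @T16.mk Cl
  (@Cl.mk (nat_lit 0x40007000c000b000500080004000c0005000b00090004000c00080005000b) (nat_lit 0xa2030508307302) (nat_lit 16) Lb.e (@T16.mk En
    (@En.n l21559 (nat_lit 11112) (nat_lit 0) (nat_lit 11))
    (@En.n l31441 (nat_lit 9984) (nat_lit 1) (nat_lit 5))
    (@En.n l36867 (nat_lit 11075) (nat_lit 14) (nat_lit 8))
    (@En.n l36868 (nat_lit 11118) (nat_lit 10) (nat_lit 12))
    (@En.n l36869 (nat_lit 11119) (nat_lit 4) (nat_lit 4))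
    (@En.i (nat_lit 10958) (nat_lit 0) (nat_lit 9))
    (@En.n l36867 (nat_lit 8802) (nat_lit 1) (nat_lit 11))
    (@En.n l21245 (nat_lit 10045) (nat_lit 7) (nat_lit 5))
    (@En.n l24937 (nat_lit 11109) (nat_lit 9) (nat_lit 12))
    (@En.n l36870 (nat_lit 9674) (nat_lit 9) (nat_lit 4))
    (@En.n l2385 (nat_lit 11903) (nat_lit 10) (nat_lit 8))
    (@En.n l36871 (nat_lit 9688) (nat_lit 1) (nat_lit 5))
    (@En.n l36872 (nat_lit 10685) (nat_lit 5) (nat_lit 11))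
    (@En.n l36867 (nat_lit 9289) (nat_lit 8) (nat_lit 12))
    (@En.n l11 (nat_lit 9466) (nat_lit 11) (nat_lit 7))
    (@En.n l36873 (nat_lit 11878) (nat_lit 15) (nat_lit 4))))
  (@Cl.mk (nat_lit 0x300090009000400090007000c000b00070007000400070005000d0009000c) (nat_lit 0x450605400000126) (nat_lit 16) Lb.e (@T16.mk En
    (@En.n l8772 (nat_lit 1281) (nat_lit 0) (nat_lit 12))
    (@En.n l8773 (nat_lit 11934) (nat_lit 12) (nat_lit 9))
    (@En.n l8774 (nat_lit 981) (nat_lit 2) (nat_lit 13))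
    (@En.i (nat_lit 11998) (nat_lit 3) (nat_lit 5))
    (@En.n l8775 (nat_lit 10914) (nat_lit 11) (nat_lit 7))
    (@En.n l8776 (nat_lit 9677) (nat_lit 5) (nat_lit 4))
    (@En.n l3519 (nat_lit 12348) (nat_lit 9) (nat_lit 7))
    (@En.n l8777 (nat_lit 10679) (nat_lit 1) (nat_lit 7))
    (@En.n l8778 (nat_lit 12453) (nat_lit 9) (nat_lit 11))
    (@En.i (nat_lit 11123) (nat_lit 10) (nat_lit 12))
    (@En.n l1769 (nat_lit 11122) (nat_lit 14) (nat_lit 7))
    (@En.n l8779 (nat_lit 11833) (nat_lit 12) (nat_lit 9))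
    (@En.n l8772 (nat_lit 11118) (nat_lit 6) (nat_lit 4))
    (@En.n l8780 (nat_lit 12324) (nat_lit 7) (nat_lit 9))
    (@En.n l8781 (nat_lit 11115) (nat_lit 1) (nat_lit 9))
    (@En.n l8782 (nat_lit 12344) (nat_lit 15) (nat_lit 3))))
  (@Cl.mk (nat_lit 0x40007000c000b000600060004000c0005000c00090004000c0004000a000a) (nat_lit 0x23000709307065) (nat_lit 16) Lb.e (@T16.mk En
    (@En.n l20860 (nat_lit 12662) (nat_lit 6) (nat_lit 10))
    (@En.n l10376 (nat_lit 11116) (nat_lit 1) (nat_lit 10))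
    (@En.n l20861 (nat_lit 10283) (nat_lit 15) (nat_lit 4))
    (@En.n l2941 (nat_lit 11121) (nat_lit 0) (nat_lit 12))
    (@En.i (nat_lit 11123) (nat_lit 1) (nat_lit 4))
    (@En.n l20862 (nat_lit 11935) (nat_lit 0) (nat_lit 9))
    (@En.n l10433 (nat_lit 1050) (nat_lit 1) (nat_lit 12))
    (@En.i (nat_lit 11999) (nat_lit 7) (nat_lit 5))
    (@En.n l20863 (nat_lit 11977) (nat_lit 9) (nat_lit 12))
    (@En.n l20864 (nat_lit 9675) (nat_lit 9) (nat_lit 4))
    (@En.n l20865 (nat_lit 12357) (nat_lit 10) (nat_lit 6))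
    (@En.n l10427 (nat_lit 10683) (nat_lit 1) (nat_lit 6))
    (@En.n l20866 (nat_lit 12454) (nat_lit 5) (nat_lit 11))
    (@En.n l10433 (nat_lit 12427) (nat_lit 8) (nat_lit 12))
    (@En.n l20867 (nat_lit 12729) (nat_lit 11) (nat_lit 7))
    (@En.n l20868 (nat_lit 11120) (nat_lit 15) (nat_lit 4))))
  (@Cl.mk (nat_lit 0x3000a000a00040009000c000a000600060004000c00070006000d0004000c) (nat_lit 0x440543000600107) (nat_lit 16) Lb.e (@T16.mk En
    (@En.n l20858 (nat_lit 1278) (nat_lit 0) (nat_lit 12))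
    (@En.i (nat_lit 11996) (nat_lit 4) (nat_lit 4))
    (@En.n l9178 (nat_lit 1049) (nat_lit 2) (nat_lit 13))
    (@En.i (nat_lit 12005) (nat_lit 10) (nat_lit 6))
    (@En.n l936 (nat_lit 11121) (nat_lit 4) (nat_lit 7))
    (@En.n l3517 (nat_lit 11178) (nat_lit 3) (nat_lit 12))
    (@En.n l3518 (nat_lit 9676) (nat_lit 6) (nat_lit 4))
    (@En.i (nat_lit 12349) (nat_lit 10) (nat_lit 6))
    (@En.n l9176 (nat_lit 10682) (nat_lit 8) (nat_lit 6))
    (@En.n l8778 (nat_lit 12112) (nat_lit 10) (nat_lit 10))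
    (@En.n l9178 (nat_lit 12651) (nat_lit 6) (nat_lit 12))
    (@En.n l20859 (nat_lit 9247) (nat_lit 12) (nat_lit 9))
    (@En.i (nat_lit 11119) (nat_lit 15) (nat_lit 4))
    (@En.n l17353 (nat_lit 12329) (nat_lit 6) (nat_lit 10))
    (@En.i (nat_lit 11117) (nat_lit 1) (nat_lit 10))
    (@En.i (nat_lit 12345) (nat_lit 15) (nat_lit 3))))
  (@Cl.mk (nat_lit 0x400070005000b0009000c000800080005000400090007000c000b00080008) (nat_lit 0x5323400604535) (nat_lit 16) Lb.e (@T16.mk En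
    (@En.n l21335 (nat_lit 12271) (nat_lit 8) (nat_lit 8))
    (@En.n l21336 (nat_lit 11871) (nat_lit 1) (nat_lit 8))
    (@En.n l21337 (nat_lit 11877) (nat_lit 5) (nat_lit 11))
    (@En.i (nat_lit 11125) (nat_lit 13) (nat_lit 12))
    (@En.n l21338 (nat_lit 11878) (nat_lit 14) (nat_lit 7))
    (@En.n l21339 (nat_lit 11091) (nat_lit 5) (nat_lit 9))
    (@En.i (nat_lit 11121) (nat_lit 12) (nat_lit 4))
    (@En.n l16700 (nat_lit 9979) (nat_lit 0) (nat_lit 5))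
    (@En.n l21340 (nat_lit 12320) (nat_lit 8) (nat_lit 8))
    (@En.n l21341 (nat_lit 9720) (nat_lit 1) (nat_lit 8))
    (@En.n l16700 (nat_lit 1383) (nat_lit 6) (nat_lit 12))
    (@En.n l21342 (nat_lit 11940) (nat_lit 12) (nat_lit 9))
    (@En.n l21336 (nat_lit 11254) (nat_lit 13) (nat_lit 11))
    (@En.i (nat_lit 10740) (nat_lit 11) (nat_lit 5))
    (@En.n l21343 (nat_lit 10911) (nat_lit 11) (nat_lit 7))
    (@En.n l21344 (nat_lit 11782) (nat_lit 15) (nat_lit 4))))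
  (@Cl.mk (nat_lit 0x40009000c000a000700070004000c00070006000b0004000c000900090005) (nat_lit 0x634000800408340) (nat_lit 16) Lb.e (@T16.mk En
    (@En.n l31067 (nat_lit 9980) (nat_lit 0) (nat_lit 5))
    (@En.n l31068 (nat_lit 12652) (nat_lit 7) (nat_lit 9))
    (@En.n l31069 (nat_lit 9721) (nat_lit 14) (nat_lit 9))
    (@En.n l31070 (nat_lit 1279) (nat_lit 2) (nat_lit 12))
    (@En.n l17679 (nat_lit 12001) (nat_lit 4) (nat_lit 4))
    (@En.n l31071 (nat_lit 11252) (nat_lit 0) (nat_lit 11))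
    (@En.i (nat_lit 10929) (nat_lit 10) (nat_lit 6))
    (@En.n l936 (nat_lit 11124) (nat_lit 14) (nat_lit 7))
    (@En.n l5801 (nat_lit 11087) (nat_lit 3) (nat_lit 12))
    (@En.n l29528 (nat_lit 11783) (nat_lit 9) (nat_lit 4))
    (@En.n l2781 (nat_lit 12268) (nat_lit 9) (nat_lit 7))
    (@En.n l31072 (nat_lit 11873) (nat_lit 1) (nat_lit 7))
    (@En.n l21337 (nat_lit 10283) (nat_lit 13) (nat_lit 10))
    (@En.n l31071 (nat_lit 12685) (nat_lit 6) (nat_lit 12))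
    (@En.n l31073 (nat_lit 11093) (nat_lit 11) (nat_lit 9))
    (@En.i (nat_lit 11123) (nat_lit 12) (nat_lit 4))))
  (@Cl.mk (nat_lit 0x20006000c000c000b00090004000400090005000d000a00070003000e0007) (nat_lit 0x95630070620090) (nat_lit 16) Lb.e (@T16.mk En
    (@En.n l17185 (nat_lit 5311) (nat_lit 14) (nat_lit 7))
    (@En.n l4153 (nat_lit 8977) (nat_lit 1) (nat_lit 14))
    (@En.n l31484 (nat_lit 11127) (nat_lit 2) (nat_lit 3))
    (@En.i (nat_lit 5202) (nat_lit 3) (nat_lit 7))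
    (@En.n l31485 (nat_lit 11128) (nat_lit 4) (nat_lit 10))
    (@En.n l601 (nat_lit 11226) (nat_lit 6) (nat_lit 13))
    (@En.n l4509 (nat_lit 8026) (nat_lit 6) (nat_lit 5))
    (@En.n l31486 (nat_lit 10699) (nat_lit 8) (nat_lit 9))
    (@En.n l31487 (nat_lit 10341) (nat_lit 8) (nat_lit 4))
    (@En.n l17185 (nat_lit 10936) (nat_lit 9) (nat_lit 4))
    (@En.n l77 (nat_lit 3996) (nat_lit 11) (nat_lit 9))
    (@En.n l4512 (nat_lit 10933) (nat_lit 12) (nat_lit 11))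
    (@En.n l25743 (nat_lit 11131) (nat_lit 13) (nat_lit 12))
    (@En.n l22702 (nat_lit 10348) (nat_lit 14) (nat_lit 12))
    (@En.n l28902 (nat_lit 8855) (nat_lit 13) (nat_lit 6))
    (@En.n l17 (nat_lit 11126) (nat_lit 15) (nat_lit 2))))
  (@Cl.mk (nat_lit 0x20005000c000c000b000a0004000400090005000d0006000b0003000e0007) (nat_lit 0x976100306020b0) (nat_lit 16) Lb.e (@T16.mk En
    (@En.i (nat_lit 10338) (nat_lit 14) (nat_lit 7))
    (@En.i (nat_lit 11128) (nat_lit 1) (nat_lit 14))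
    (@En.n l8965 (nat_lit 11126) (nat_lit 2) (nat_lit 3))
    (@En.i (nat_lit 3610) (nat_lit 3) (nat_lit 11))
    (@En.n l7 (nat_lit 10097) (nat_lit 4) (nat_lit 6))
    (@En.n l564 (nat_lit 11229) (nat_lit 6) (nat_lit 13))
    (@En.n l7 (nat_lit 8024) (nat_lit 6) (nat_lit 5))
    (@En.n l117 (nat_lit 10696) (nat_lit 8) (nat_lit 9))
    (@En.n l575 (nat_lit 10339) (nat_lit 8) (nat_lit 4))
    (@En.n l9740 (nat_lit 10940) (nat_lit 9) (nat_lit 4))
    (@En.n l11881 (nat_lit 5540) (nat_lit 11) (nat_lit 10))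
    (@En.n l1578 (nat_lit 8030) (nat_lit 12) (nat_lit 11))
    (@En.i (nat_lit 11129) (nat_lit 13) (nat_lit 12))
    (@En.i (nat_lit 10350) (nat_lit 14) (nat_lit 12))
    (@En.i (nat_lit 10749) (nat_lit 13) (nat_lit 5))
    (@En.n l3 (nat_lit 11127) (nat_lit 15) (nat_lit 2))))
  (@Cl.mk (nat_lit 0x200060005000c000c000b000a00040004000a0005000a0006000b000e0006) (nat_lit 0x9a710030101a0) (nat_lit 16) Lb.e (@T16.mk En
    (@En.n l3323 (nat_lit 10337) (nat_lit 7) (nat_lit 6))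
    (@En.n l30240 (nat_lit 8975) (nat_lit 4) (nat_lit 14))
    (@En.n l2796 (nat_lit 2864) (nat_lit 2) (nat_lit 11))
    (@En.n l8964 (nat_lit 11137) (nat_lit 3) (nat_lit 6))
    (@En.n l3858 (nat_lit 6878) (nat_lit 4) (nat_lit 10))
    (@En.n l7 (nat_lit 8025) (nat_lit 5) (nat_lit 5))
    (@En.n l117 (nat_lit 10694) (nat_lit 7) (nat_lit 10))
    (@En.n l575 (nat_lit 10340) (nat_lit 7) (nat_lit 4))
    (@En.n l30240 (nat_lit 11135) (nat_lit 8) (nat_lit 4))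
    (@En.n l11881 (nat_lit 5544) (nat_lit 10) (nat_lit 10))
    (@En.n l1578 (nat_lit 8031) (nat_lit 11) (nat_lit 11))
    (@En.n l18846 (nat_lit 11130) (nat_lit 12) (nat_lit 12))
    (@En.n l25046 (nat_lit 11295) (nat_lit 13) (nat_lit 12))
    (@En.n l17 (nat_lit 11127) (nat_lit 14) (nat_lit 5))
    (@En.i (nat_lit 10240) (nat_lit 13) (nat_lit 6))
    (@En.n l3 (nat_lit 11128) (nat_lit 15) (nat_lit 2))))
  (@Cl.mk (nat_lit 0x20005000c000a0009000e0004000200090006000d0007000b0003000e0007) (nat_lit 0x651800106020b0) (nat_lit 16) Lb.e (@T16.mk En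
    (@En.n l17300 (nat_lit 11132) (nat_lit 7) (nat_lit 7))
    (@En.n l18846 (nat_lit 11130) (nat_lit 1) (nat_lit 14))
    (@En.n l18847 (nat_lit 11131) (nat_lit 2) (nat_lit 3))
    (@En.n l2802 (nat_lit 3638) (nat_lit 3) (nat_lit 11))
    (@En.n l7 (nat_lit 11134) (nat_lit 4) (nat_lit 7))
    (@En.n l17372 (nat_lit 11233) (nat_lit 6) (nat_lit 13))
    (@En.n l11796 (nat_lit 8075) (nat_lit 6) (nat_lit 6))
    (@En.n l8947 (nat_lit 10410) (nat_lit 8) (nat_lit 9))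
    (@En.n l11 (nat_lit 11129) (nat_lit 8) (nat_lit 2))
    (@En.n l575 (nat_lit 11127) (nat_lit 9) (nat_lit 4))
    (@En.n l11796 (nat_lit 6131) (nat_lit 11) (nat_lit 14))
    (@En.n l18848 (nat_lit 5507) (nat_lit 12) (nat_lit 9))
    (@En.n l18849 (nat_lit 8162) (nat_lit 13) (nat_lit 10))
    (@En.n l18850 (nat_lit 11384) (nat_lit 14) (nat_lit 12))
    (@En.n l18851 (nat_lit 8923) (nat_lit 13) (nat_lit 5))
    (@En.n l3 (nat_lit 11129) (nat_lit 15) (nat_lit 2))))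
  (@Cl.mk (nat_lit 0x200060005000c000a0009000e00040002000a0006000a0007000b000e0006) (nat_lit 0x96110070101a0) (nat_lit 16) Lb.e (@T16.mk En
    (@En.n l7948 (nat_lit 10271) (nat_lit 8) (nat_lit 6))
    (@En.i (nat_lit 8974) (nat_lit 10) (nat_lit 14))
    (@En.n l12575 (nat_lit 3607) (nat_lit 2) (nat_lit 11))
    (@En.n l27218 (nat_lit 11136) (nat_lit 3) (nat_lit 7))
    (@En.i (nat_lit 6873) (nat_lit 4) (nat_lit 10))
    (@En.n l8840 (nat_lit 8076) (nat_lit 5) (nat_lit 6))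
    (@En.n l27219 (nat_lit 10407) (nat_lit 7) (nat_lit 10))
    (@En.n l17 (nat_lit 11130) (nat_lit 7) (nat_lit 2))
    (@En.n l27220 (nat_lit 11128) (nat_lit 8) (nat_lit 4))
    (@En.i (nat_lit 6130) (nat_lit 10) (nat_lit 14))
    (@En.n l27221 (nat_lit 5549) (nat_lit 11) (nat_lit 9))
    (@En.n l27222 (nat_lit 8164) (nat_lit 12) (nat_lit 10))
    (@En.n l2383 (nat_lit 11382) (nat_lit 13) (nat_lit 12))
    (@En.n l27223 (nat_lit 11129) (nat_lit 14) (nat_lit 5))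
    (@En.n l27224 (nat_lit 8922) (nat_lit 6) (nat_lit 6))
    (@En.n l11 (nat_lit 11130) (nat_lit 15) (nat_lit 2))))
  (@Cl.mk (nat_lit 0x20006000c000a0008000e0004000200090006000d000a00080003000e0007) (nat_lit 0x431400305230b0) (nat_lit 16) Lb.e (@T16.mk En
    (@En.n l16852 (nat_lit 11133) (nat_lit 7) (nat_lit 7))
    (@En.n l10386 (nat_lit 8976) (nat_lit 1) (nat_lit 14))
    (@En.n l16853 (nat_lit 11129) (nat_lit 2) (nat_lit 3))
    (@En.n l6393 (nat_lit 5808) (nat_lit 11) (nat_lit 8))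
    (@En.n l16854 (nat_lit 11130) (nat_lit 4) (nat_lit 10))
    (@En.n l16855 (nat_lit 11232) (nat_lit 6) (nat_lit 13))
    (@En.i (nat_lit 8074) (nat_lit 6) (nat_lit 6))
    (@En.n l16856 (nat_lit 10960) (nat_lit 8) (nat_lit 9))
    (@En.n l3 (nat_lit 11131) (nat_lit 8) (nat_lit 2))
    (@En.n l16857 (nat_lit 11126) (nat_lit 9) (nat_lit 4))
    (@En.n l16858 (nat_lit 6133) (nat_lit 11) (nat_lit 14))
    (@En.n l16859 (nat_lit 3997) (nat_lit 12) (nat_lit 8))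
    (@En.i (nat_lit 8165) (nat_lit 13) (nat_lit 10))
    (@En.n l117 (nat_lit 11386) (nat_lit 14) (nat_lit 12))
    (@En.n l16860 (nat_lit 8919) (nat_lit 5) (nat_lit 6))
    (@En.n l50 (nat_lit 11131) (nat_lit 15) (nat_lit 2))))
  (@Cl.mk (nat_lit 0x2000900090007000d0008000c0003000700070004000c00090008000e0004) (nat_lit 0x320712000054170) (nat_lit 16) Lb.e (@T16.mk En
    (@En.n l17086 (nat_lit 10338) (nat_lit 7) (nat_lit 4))
    (@En.n l2659 (nat_lit 6140) (nat_lit 1) (nat_lit 14))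
    (@En.i (nat_lit 3632) (nat_lit 2) (nat_lit 8))
    (@En.n l360 (nat_lit 12514) (nat_lit 3) (nat_lit 9))
    (@En.n l7146 (nat_lit 11388) (nat_lit 12) (nat_lit 12))
    (@En.n l3793 (nat_lit 10263) (nat_lit 5) (nat_lit 4))
    (@En.n l152 (nat_lit 12502) (nat_lit 9) (nat_lit 7))
    (@En.n l17087 (nat_lit 10264) (nat_lit 7) (nat_lit 7))
    (@En.n l17088 (nat_lit 11133) (nat_lit 8) (nat_lit 3))
    (@En.n l135 (nat_lit 3639) (nat_lit 0) (nat_lit 12))
    (@En.n l11 (nat_lit 10131) (nat_lit 11) (nat_lit 8))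
    (@En.n l17089 (nat_lit 7930) (nat_lit 12) (nat_lit 13))
    (@En.n l360 (nat_lit 11168) (nat_lit 13) (nat_lit 7))
    (@En.n l17090 (nat_lit 11129) (nat_lit 7) (nat_lit 9))
    (@En.n l10173 (nat_lit 10409) (nat_lit 5) (nat_lit 9))
    (@En.n l17 (nat_lit 11132) (nat_lit 15) (nat_lit 2))))
  (@Cl.mk (nat_lit 0x2000900090007000d000b00090003000700070005000c00090007000e0004) (nat_lit 0x3408410000a4040) (nat_lit 16) Lb.e (@T16.mk En
    (@En.n l32276 (nat_lit 5311) (nat_lit 7) (nat_lit 4))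
    (@En.n l31998 (nat_lit 6141) (nat_lit 1) (nat_lit 14))
    (@En.n l10065 (nat_lit 3998) (nat_lit 2) (nat_lit 7))
    (@En.n l32277 (nat_lit 12513) (nat_lit 3) (nat_lit 9))
    (@En.n l32278 (nat_lit 11389) (nat_lit 12) (nat_lit 12))
    (@En.n l644 (nat_lit 10270) (nat_lit 5) (nat_lit 5))
    (@En.n l32279 (nat_lit 12504) (nat_lit 9) (nat_lit 7))
    (@En.n l16751 (nat_lit 10217) (nat_lit 7) (nat_lit 7))
    (@En.n l10064 (nat_lit 11132) (nat_lit 8) (nat_lit 3))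
    (@En.n l9268 (nat_lit 5305) (nat_lit 0) (nat_lit 9))
    (@En.n l32280 (nat_lit 10271) (nat_lit 11) (nat_lit 11))
    (@En.i (nat_lit 7929) (nat_lit 12) (nat_lit 13))
    (@En.n l32281 (nat_lit 9774) (nat_lit 13) (nat_lit 7))
    (@En.n l32282 (nat_lit 11131) (nat_lit 7) (nat_lit 9))
    (@En.n l32283 (nat_lit 10713) (nat_lit 5) (nat_lit 9))
    (@En.n l11 (nat_lit 11133) (nat_lit 15) (nat_lit 2))))
  (@Cl.mk (nat_lit 0x20005000b000900090008000e00050002000a00070007000b0008000e0006) (nat_lit 0x6372b0060033a0) (nat_lit 16) Lb.e (@T16.mk En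
    (@En.n l8941 (nat_lit 10131) (nat_lit 8) (nat_lit 6))
    (@En.n l8942 (nat_lit 11136) (nat_lit 1) (nat_lit 14))
    (@En.n l8943 (nat_lit 5746) (nat_lit 11) (nat_lit 8))
    (@En.n l8944 (nat_lit 12727) (nat_lit 3) (nat_lit 11))
    (@En.n l8945 (nat_lit 12838) (nat_lit 4) (nat_lit 7))
    (@En.n l8946 (nat_lit 7174) (nat_lit 5) (nat_lit 7))
    (@En.n l8947 (nat_lit 10962) (nat_lit 7) (nat_lit 10))
    (@En.n l11 (nat_lit 11134) (nat_lit 7) (nat_lit 2))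
    (@En.n l575 (nat_lit 10097) (nat_lit 8) (nat_lit 5))
    (@En.n l8944 (nat_lit 615) (nat_lit 10) (nat_lit 14))
    (@En.n l8946 (nat_lit 11131) (nat_lit 11) (nat_lit 8))
    (@En.n l8948 (nat_lit 10100) (nat_lit 12) (nat_lit 9))
    (@En.n l8946 (nat_lit 11753) (nat_lit 13) (nat_lit 9))
    (@En.n l8949 (nat_lit 11181) (nat_lit 14) (nat_lit 11))
    (@En.n l8950 (nat_lit 11345) (nat_lit 13) (nat_lit 5))
    (@En.n l3 (nat_lit 11134) (nat_lit 15) (nat_lit 2))))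
  (@Cl.mk (nat_lit 0x200060005000c0008000d000c00040003000a0004000a0008000b000e0006) (nat_lit 0x9686005014390) (nat_lit 16) Lb.e (@T16.mk En
    (@En.n l15602 (nat_lit 12062) (nat_lit 8) (nat_lit 6))
    (@En.i (nat_lit 8978) (nat_lit 4) (nat_lit 14))
    (@En.n l3866 (nat_lit 4028) (nat_lit 2) (nat_lit 11))
    (@En.i (nat_lit 12634) (nat_lit 3) (nat_lit 8))
    (@En.n l10979 (nat_lit 6879) (nat_lit 4) (nat_lit 10))
    (@En.n l10263 (nat_lit 8167) (nat_lit 5) (nat_lit 4))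
    (@En.n l4252 (nat_lit 11629) (nat_lit 7) (nat_lit 10))
    (@En.n l7 (nat_lit 10941) (nat_lit 7) (nat_lit 3))
    (@En.n l15603 (nat_lit 11130) (nat_lit 8) (nat_lit 4))
    (@En.n l644 (nat_lit 10942) (nat_lit 10) (nat_lit 12))
    (@En.n l15604 (nat_lit 6129) (nat_lit 11) (nat_lit 13))
    (@En.n l15605 (nat_lit 11138) (nat_lit 12) (nat_lit 8))
    (@En.n l15606 (nat_lit 11303) (nat_lit 13) (nat_lit 12))
    (@En.n l15607 (nat_lit 10940) (nat_lit 14) (nat_lit 5))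
    (@En.n l15608 (nat_lit 10200) (nat_lit 13) (nat_lit 6))
    (@En.n l17 (nat_lit 11135) (nat_lit 15) (nat_lit 2))))
noncomputable def a696 : T16 Cl := @T16.mk Cl
  (@Cl.mk (nat_lit 0x2000b0005000b000900090005000e00050002000b00070007000b000e0005) (nat_lit 0x606400100400290) (nat_lit 16) Lb.e (@T16.mk En
    (@En.n l8868 (nat_lit 10127) (nat_lit 9) (nat_lit 5))
    (@En.n l14560 (nat_lit 2920) (nat_lit 4) (nat_lit 14))
    (@En.n l21033 (nat_lit 12726) (nat_lit 2) (nat_lit 11))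
    (@En.n l21034 (nat_lit 12837) (nat_lit 9) (nat_lit 7))
    (@En.n l2579 (nat_lit 7173) (nat_lit 14) (nat_lit 7))
    (@En.n l21035 (nat_lit 10963) (nat_lit 6) (nat_lit 11))
    (@En.n l11 (nat_lit 11136) (nat_lit 6) (nat_lit 2))
    (@En.n l21036 (nat_lit 11137) (nat_lit 7) (nat_lit 5))
    (@En.n l8865 (nat_lit 616) (nat_lit 9) (nat_lit 14))
    (@En.n l14560 (nat_lit 5819) (nat_lit 9) (nat_lit 5))
    (@En.n l21037 (nat_lit 12834) (nat_lit 3) (nat_lit 9))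
    (@En.i (nat_lit 12627) (nat_lit 4) (nat_lit 9))
    (@En.n l21038 (nat_lit 9117) (nat_lit 13) (nat_lit 11))
    (@En.n l21039 (nat_lit 11134) (nat_lit 14) (nat_lit 5))
    (@En.n l21040 (nat_lit 10781) (nat_lit 8) (nat_lit 11))
    (@En.n l17 (nat_lit 11136) (nat_lit 15) (nat_lit 2))))
  (@Cl.mk (nat_lit 0x2000a0005000b000b000a000a000600050005000b00060006000b000e0005) (nat_lit 0x505745000300290) (nat_lit 16) Lb.e (@T16.mk En
    (@En.n l28930 (nat_lit 10128) (nat_lit 2) (nat_lit 5))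
    (@En.n l28931 (nat_lit 2039) (nat_lit 4) (nat_lit 14))
    (@En.n l28932 (nat_lit 12724) (nat_lit 2) (nat_lit 11))
    (@En.n l14588 (nat_lit 12839) (nat_lit 10) (nat_lit 6))
    (@En.n l7161 (nat_lit 5854) (nat_lit 4) (nat_lit 6))
    (@En.n l14589 (nat_lit 8002) (nat_lit 6) (nat_lit 11))
    (@En.n l28933 (nat_lit 12277) (nat_lit 6) (nat_lit 5))
    (@En.i (nat_lit 12769) (nat_lit 7) (nat_lit 5))
    (@En.n l14590 (nat_lit 5818) (nat_lit 8) (nat_lit 6))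
    (@En.n l61 (nat_lit 10098) (nat_lit 10) (nat_lit 10))
    (@En.n l21047 (nat_lit 12360) (nat_lit 11) (nat_lit 10))
    (@En.n l28934 (nat_lit 11136) (nat_lit 12) (nat_lit 11))
    (@En.n l28935 (nat_lit 9120) (nat_lit 13) (nat_lit 11))
    (@En.n l28936 (nat_lit 10097) (nat_lit 14) (nat_lit 5))
    (@En.n l23981 (nat_lit 10791) (nat_lit 0) (nat_lit 10))
    (@En.n l67 (nat_lit 11137) (nat_lit 15) (nat_lit 2))))
  (@Cl.mk (nat_lit 0x2000700050008000d000c000a000300090004000900080006000b000e0007) (nat_lit 0x5b520401504a0) (nat_lit 16) Lb.e (@T16.mk En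
    (@En.n l8258 (nat_lit 12061) (nat_lit 7) (nat_lit 7))
    (@En.n l30241 (nat_lit 7038) (nat_lit 4) (nat_lit 14))
    (@En.n l9022 (nat_lit 11135) (nat_lit 2) (nat_lit 11))
    (@En.n l30242 (nat_lit 11128) (nat_lit 3) (nat_lit 6))
    (@En.n l152 (nat_lit 12326) (nat_lit 4) (nat_lit 8))
    (@En.n l30243 (nat_lit 6881) (nat_lit 5) (nat_lit 9))
    (@En.n l11108 (nat_lit 8168) (nat_lit 6) (nat_lit 4))
    (@En.n l30241 (nat_lit 12013) (nat_lit 8) (nat_lit 9))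
    (@En.n l20773 (nat_lit 12063) (nat_lit 8) (nat_lit 3))
    (@En.n l8874 (nat_lit 7184) (nat_lit 10) (nat_lit 10))
    (@En.n l9905 (nat_lit 12318) (nat_lit 11) (nat_lit 12))
    (@En.n l30244 (nat_lit 9525) (nat_lit 12) (nat_lit 13))
    (@En.i (nat_lit 11352) (nat_lit 13) (nat_lit 8))
    (@En.n l30245 (nat_lit 11139) (nat_lit 14) (nat_lit 5))
    (@En.n l30246 (nat_lit 9766) (nat_lit 5) (nat_lit 7))
    (@En.n l17 (nat_lit 11138) (nat_lit 15) (nat_lit 2))))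
  (@Cl.mk (nat_lit 0x200050008000d000c000a000300080004000c00080006000b0004000e0008) (nat_lit 0x686304075020b3) (nat_lit 16) Lb.e (@T16.mk En
    (@En.i (nat_lit 12021) (nat_lit 6) (nat_lit 8))
    (@En.n l19613 (nat_lit 11138) (nat_lit 1) (nat_lit 14))
    (@En.n l8965 (nat_lit 9639) (nat_lit 2) (nat_lit 4))
    (@En.n l19614 (nat_lit 10940) (nat_lit 3) (nat_lit 11))
    (@En.i (nat_lit 11127) (nat_lit 4) (nat_lit 6))
    (@En.n l19615 (nat_lit 12327) (nat_lit 5) (nat_lit 8))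
    (@En.n l17373 (nat_lit 11246) (nat_lit 7) (nat_lit 12))
    (@En.n l17685 (nat_lit 8169) (nat_lit 7) (nat_lit 4))
    (@En.n l117 (nat_lit 12014) (nat_lit 9) (nat_lit 8))
    (@En.n l575 (nat_lit 12316) (nat_lit 9) (nat_lit 3))
    (@En.n l17373 (nat_lit 7185) (nat_lit 11) (nat_lit 10))
    (@En.n l7475 (nat_lit 12317) (nat_lit 12) (nat_lit 12))
    (@En.n l19614 (nat_lit 11255) (nat_lit 13) (nat_lit 13))
    (@En.n l17373 (nat_lit 11696) (nat_lit 10) (nat_lit 8))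
    (@En.i (nat_lit 10776) (nat_lit 13) (nat_lit 5))
    (@En.n l3 (nat_lit 11139) (nat_lit 15) (nat_lit 2))))
  (@Cl.mk (nat_lit 0x20009000d000900070003000d000b000700030007000c00050009000e0004) (nat_lit 0x16700a900040260) (nat_lit 16) Lb.e (@T16.mk En
    (@En.n l16988 (nat_lit 11110) (nat_lit 9) (nat_lit 4))
    (@En.i (nat_lit 6227) (nat_lit 1) (nat_lit 14))
    (@En.n l13804 (nat_lit 4354) (nat_lit 2) (nat_lit 9))
    (@En.n l32797 (nat_lit 6576) (nat_lit 3) (nat_lit 5))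
    (@En.i (nat_lit 10822) (nat_lit 5) (nat_lit 12))
    (@En.n l41388 (nat_lit 7082) (nat_lit 5) (nat_lit 7))
    (@En.n l8258 (nat_lit 11141) (nat_lit 6) (nat_lit 3))
    (@En.n l32797 (nat_lit 11131) (nat_lit 0) (nat_lit 7))
    (@En.n l3522 (nat_lit 9775) (nat_lit 9) (nat_lit 11))
    (@En.n l41389 (nat_lit 7804) (nat_lit 10) (nat_lit 13))
    (@En.n l11382 (nat_lit 11145) (nat_lit 10) (nat_lit 3))
    (@En.n l1723 (nat_lit 5597) (nat_lit 12) (nat_lit 7))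
    (@En.n l22607 (nat_lit 11147) (nat_lit 13) (nat_lit 9))
    (@En.i (nat_lit 6964) (nat_lit 14) (nat_lit 13))
    (@En.n l9943 (nat_lit 4310) (nat_lit 3) (nat_lit 9))
    (@En.n l7 (nat_lit 11140) (nat_lit 15) (nat_lit 2))))
  (@Cl.mk (nat_lit 0x2000a000d000900070003000d0006000c00030007000c00040009000e0004) (nat_lit 0x8470090a0020250) (nat_lit 16) Lb.e (@T16.mk En
    (@En.i (nat_lit 11152) (nat_lit 9) (nat_lit 4))
    (@En.i (nat_lit 6229) (nat_lit 1) (nat_lit 14))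
    (@En.n l19886 (nat_lit 4353) (nat_lit 2) (nat_lit 9))
    (@En.i (nat_lit 11550) (nat_lit 3) (nat_lit 4))
    (@En.n l1897 (nat_lit 10820) (nat_lit 0) (nat_lit 12))
    (@En.i (nat_lit 7890) (nat_lit 5) (nat_lit 7))
    (@En.n l3528 (nat_lit 11140) (nat_lit 6) (nat_lit 3))
    (@En.n l1897 (nat_lit 12740) (nat_lit 8) (nat_lit 12))
    (@En.i (nat_lit 11142) (nat_lit 8) (nat_lit 6))
    (@En.i (nat_lit 7806) (nat_lit 10) (nat_lit 13))
    (@En.n l152 (nat_lit 11143) (nat_lit 10) (nat_lit 3))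
    (@En.n l5588 (nat_lit 5598) (nat_lit 12) (nat_lit 7))
    (@En.n l619 (nat_lit 11146) (nat_lit 13) (nat_lit 9))
    (@En.i (nat_lit 6967) (nat_lit 5) (nat_lit 13))
    (@En.i (nat_lit 10672) (nat_lit 3) (nat_lit 10))
    (@En.n l17 (nat_lit 11141) (nat_lit 15) (nat_lit 2))))
  (@Cl.mk (nat_lit 0x2000a0009000d000a000800030006000c00070006000c00040008000e0004) (nat_lit 0x8258100800203a0) (nat_lit 16) Lb.e (@T16.mk En
    (@En.n l22708 (nat_lit 11153) (nat_lit 6) (nat_lit 4))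
    (@En.i (nat_lit 6231) (nat_lit 1) (nat_lit 14))
    (@En.n l19886 (nat_lit 4194) (nat_lit 2) (nat_lit 8))
    (@En.i (nat_lit 11551) (nat_lit 3) (nat_lit 4))
    (@En.n l1897 (nat_lit 10821) (nat_lit 11) (nat_lit 12))
    (@En.n l17105 (nat_lit 7891) (nat_lit 5) (nat_lit 6))
    (@En.n l27092 (nat_lit 11133) (nat_lit 6) (nat_lit 7))
    (@En.n l27012 (nat_lit 12735) (nat_lit 8) (nat_lit 12))
    (@En.n l13673 (nat_lit 7514) (nat_lit 8) (nat_lit 6))
    (@En.n l152 (nat_lit 11144) (nat_lit 9) (nat_lit 3))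
    (@En.n l5588 (nat_lit 5599) (nat_lit 0) (nat_lit 8))
    (@En.n l29209 (nat_lit 11148) (nat_lit 12) (nat_lit 10))
    (@En.n l28 (nat_lit 11141) (nat_lit 13) (nat_lit 13))
    (@En.n l18989 (nat_lit 11140) (nat_lit 14) (nat_lit 9))
    (@En.n l12583 (nat_lit 10671) (nat_lit 4) (nat_lit 10))
    (@En.n l17 (nat_lit 11142) (nat_lit 15) (nat_lit 2))))
  (@Cl.mk (nat_lit 0x2000a000d0006000a0003000d0006000c00030006000c0004000a000e0004) (nat_lit 0x8502090a0020140) (nat_lit 16) Lb.e (@T16.mk En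
    (@En.n l3098 (nat_lit 11149) (nat_lit 9) (nat_lit 4))
    (@En.i (nat_lit 6230) (nat_lit 1) (nat_lit 14))
    (@En.i (nat_lit 6183) (nat_lit 2) (nat_lit 10))
    (@En.i (nat_lit 10970) (nat_lit 3) (nat_lit 4))
    (@En.n l5891 (nat_lit 10823) (nat_lit 0) (nat_lit 12))
    (@En.i (nat_lit 7880) (nat_lit 12) (nat_lit 6))
    (@En.i (nat_lit 11145) (nat_lit 6) (nat_lit 3))
    (@En.n l14615 (nat_lit 12742) (nat_lit 0) (nat_lit 12))
    (@En.i (nat_lit 11144) (nat_lit 8) (nat_lit 6))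
    (@En.i (nat_lit 11146) (nat_lit 10) (nat_lit 13))
    (@En.n l117 (nat_lit 11141) (nat_lit 10) (nat_lit 3))
    (@En.n l781 (nat_lit 2245) (nat_lit 12) (nat_lit 10))
    (@En.i (nat_lit 9778) (nat_lit 13) (nat_lit 6))
    (@En.i (nat_lit 6966) (nat_lit 5) (nat_lit 13))
    (@En.n l2125 (nat_lit 10658) (nat_lit 3) (nat_lit 10))
    (@En.n l17 (nat_lit 11143) (nat_lit 15) (nat_lit 2))))
  (@Cl.mk (nat_lit 0x2000a0009000d0007000b00030006000c00070005000c00040009000e0004) (nat_lit 0x8260200a0020290) (nat_lit 16) Lb.e (@T16.mk En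
    (@En.n l3098 (nat_lit 11151) (nat_lit 6) (nat_lit 4))
    (@En.i (nat_lit 6232) (nat_lit 1) (nat_lit 14))
    (@En.n l14831 (nat_lit 6195) (nat_lit 2) (nat_lit 9))
    (@En.i (nat_lit 10966) (nat_lit 3) (nat_lit 4))
    (@En.n l2068 (nat_lit 10824) (nat_lit 11) (nat_lit 12))
    (@En.n l8959 (nat_lit 7879) (nat_lit 5) (nat_lit 5))
    (@En.n l14831 (nat_lit 11132) (nat_lit 6) (nat_lit 7))
    (@En.n l6178 (nat_lit 12764) (nat_lit 8) (nat_lit 12))
    (@En.n l8960 (nat_lit 11196) (nat_lit 12) (nat_lit 6))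
    (@En.n l117 (nat_lit 11142) (nat_lit 9) (nat_lit 3))
    (@En.n l8959 (nat_lit 2234) (nat_lit 0) (nat_lit 11))
    (@En.i (nat_lit 11049) (nat_lit 12) (nat_lit 7))
    (@En.n l28 (nat_lit 11143) (nat_lit 13) (nat_lit 13))
    (@En.n l77 (nat_lit 11145) (nat_lit 14) (nat_lit 9))
    (@En.n l2125 (nat_lit 10675) (nat_lit 4) (nat_lit 10))
    (@En.n l17 (nat_lit 11144) (nat_lit 15) (nat_lit 2))))
  (@Cl.mk (nat_lit 0x20009000d0006000a0003000d000b000700030006000c0005000a000e0004) (nat_lit 0x15020a900070160) (nat_lit 16) Lb.e (@T16.mk En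
    (@En.n l29001 (nat_lit 11111) (nat_lit 9) (nat_lit 4))
    (@En.i (nat_lit 6228) (nat_lit 1) (nat_lit 14))
    (@En.n l18881 (nat_lit 6188) (nat_lit 2) (nat_lit 10))
    (@En.n l4263 (nat_lit 5171) (nat_lit 3) (nat_lit 5))
    (@En.n l2572 (nat_lit 10827) (nat_lit 5) (nat_lit 12))
    (@En.n l5928 (nat_lit 7797) (nat_lit 5) (nat_lit 6))
    (@En.n l7 (nat_lit 11143) (nat_lit 6) (nat_lit 3))
    (@En.n l10065 (nat_lit 11129) (nat_lit 0) (nat_lit 7))
    (@En.i (nat_lit 11169) (nat_lit 9) (nat_lit 11))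
    (@En.i (nat_lit 11147) (nat_lit 10) (nat_lit 13))
    (@En.n l4018 (nat_lit 11140) (nat_lit 10) (nat_lit 3))
    (@En.n l781 (nat_lit 2244) (nat_lit 12) (nat_lit 10))
    (@En.i (nat_lit 9776) (nat_lit 13) (nat_lit 6))
    (@En.i (nat_lit 6961) (nat_lit 14) (nat_lit 13))
    (@En.n l2125 (nat_lit 4311) (nat_lit 3) (nat_lit 9))
    (@En.n l17 (nat_lit 11145) (nat_lit 15) (nat_lit 2))))
  (@Cl.mk (nat_lit 0x2000b00090006000a000d0005000b000300070006000c0005000a000e0004) (nat_lit 0x9601807000401a0) (nat_lit 16) Lb.e (@T16.mk En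
    (@En.n l3098 (nat_lit 11150) (nat_lit 8) (nat_lit 4))
    (@En.i (nat_lit 6234) (nat_lit 1) (nat_lit 14))
    (@En.n l29354 (nat_lit 6187) (nat_lit 2) (nat_lit 10))
    (@En.i (nat_lit 10971) (nat_lit 3) (nat_lit 5))
    (@En.n l5891 (nat_lit 11817) (nat_lit 13) (nat_lit 12))
    (@En.n l11 (nat_lit 11143) (nat_lit 5) (nat_lit 6))
    (@En.n l55 (nat_lit 11144) (nat_lit 6) (nat_lit 7))
    (@En.i (nat_lit 11147) (nat_lit 7) (nat_lit 3))
    (@En.n l14615 (nat_lit 12746) (nat_lit 9) (nat_lit 11))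
    (@En.n l8960 (nat_lit 11148) (nat_lit 9) (nat_lit 5))
    (@En.n l6698 (nat_lit 12796) (nat_lit 5) (nat_lit 13))
    (@En.n l781 (nat_lit 2243) (nat_lit 12) (nat_lit 10))
    (@En.n l29354 (nat_lit 9779) (nat_lit 13) (nat_lit 6))
    (@En.n l134 (nat_lit 12133) (nat_lit 14) (nat_lit 9))
    (@En.n l2125 (nat_lit 10657) (nat_lit 7) (nat_lit 11))
    (@En.n l17 (nat_lit 11146) (nat_lit 15) (nat_lit 2))))
  (@Cl.mk (nat_lit 0x2000a00090006000a000d000a0006000300070006000c0006000a000e0004) (nat_lit 0x1601980000701a0) (nat_lit 16) Lb.e (@T16.mk En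
    (@En.n l40849 (nat_lit 11210) (nat_lit 8) (nat_lit 4))
    (@En.i (nat_lit 6235) (nat_lit 1) (nat_lit 14))
    (@En.n l40850 (nat_lit 6186) (nat_lit 2) (nat_lit 10))
    (@En.n l40851 (nat_lit 5165) (nat_lit 3) (nat_lit 6))
    (@En.n l40852 (nat_lit 11818) (nat_lit 13) (nat_lit 12))
    (@En.n l11 (nat_lit 11145) (nat_lit 5) (nat_lit 6))
    (@En.n l34879 (nat_lit 7930) (nat_lit 6) (nat_lit 7))
    (@En.n l7 (nat_lit 11146) (nat_lit 7) (nat_lit 3))
    (@En.n l6698 (nat_lit 11130) (nat_lit 0) (nat_lit 6))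
    (@En.n l19999 (nat_lit 11171) (nat_lit 10) (nat_lit 10))
    (@En.n l6698 (nat_lit 12797) (nat_lit 11) (nat_lit 13))
    (@En.n l40853 (nat_lit 2242) (nat_lit 12) (nat_lit 10))
    (@En.n l18250 (nat_lit 9777) (nat_lit 13) (nat_lit 6))
    (@En.n l40854 (nat_lit 12128) (nat_lit 14) (nat_lit 9))
    (@En.n l31900 (nat_lit 4312) (nat_lit 7) (nat_lit 10))
    (@En.n l17 (nat_lit 11147) (nat_lit 15) (nat_lit 2))))
  (@Cl.mk (nat_lit 0x2000b000a000a0007000b0005000b000600060005000c00050009000e0004) (nat_lit 0x927010700040390) (nat_lit 16) Lb.e (@T16.mk En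
    (@En.n l27825 (nat_lit 11198) (nat_lit 15) (nat_lit 4))
    (@En.n l19915 (nat_lit 5938) (nat_lit 1) (nat_lit 14))
    (@En.n l27826 (nat_lit 6141) (nat_lit 2) (nat_lit 9))
    (@En.n l3298 (nat_lit 11182) (nat_lit 3) (nat_lit 5))
    (@En.n l27827 (nat_lit 11821) (nat_lit 5) (nat_lit 12))
    (@En.n l19915 (nat_lit 11144) (nat_lit 5) (nat_lit 5))
    (@En.n l527 (nat_lit 11196) (nat_lit 10) (nat_lit 6))
    (@En.n l3462 (nat_lit 10271) (nat_lit 7) (nat_lit 6))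
    (@En.n l3303 (nat_lit 12729) (nat_lit 9) (nat_lit 11))
    (@En.n l27828 (nat_lit 7507) (nat_lit 9) (nat_lit 5))
    (@En.i (nat_lit 2225) (nat_lit 11) (nat_lit 11))
    (@En.n l27829 (nat_lit 9781) (nat_lit 12) (nat_lit 7))
    (@En.n l27830 (nat_lit 11268) (nat_lit 6) (nat_lit 10))
    (@En.n l27831 (nat_lit 11147) (nat_lit 14) (nat_lit 10))
    (@En.n l9440 (nat_lit 9370) (nat_lit 14) (nat_lit 11))
    (@En.n l17 (nat_lit 11148) (nat_lit 15) (nat_lit 2))))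
  (@Cl.mk (nat_lit 0x30006000c000c0005000b00040004000a000d0005000a0003000d0006000b) (nat_lit 0x83010085010809) (nat_lit 16) Lb.e (@T16.mk En
    (@En.n l766 (nat_lit 12606) (nat_lit 0) (nat_lit 11))
    (@En.i (nat_lit 11151) (nat_lit 14) (nat_lit 6))
    (@En.i (nat_lit 11150) (nat_lit 2) (nat_lit 13))
    (@En.n l345 (nat_lit 11152) (nat_lit 3) (nat_lit 3))
    (@En.n l2213 (nat_lit 2236) (nat_lit 0) (nat_lit 10))
    (@En.i (nat_lit 10852) (nat_lit 5) (nat_lit 5))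
    (@En.i (nat_lit 5567) (nat_lit 5) (nat_lit 13))
    (@En.n l899 (nat_lit 11976) (nat_lit 3) (nat_lit 10))
    (@En.n l152 (nat_lit 11214) (nat_lit 12) (nat_lit 4))
    (@En.n l3851 (nat_lit 10543) (nat_lit 9) (nat_lit 4))
    (@En.n l725 (nat_lit 6178) (nat_lit 0) (nat_lit 11))
    (@En.n l2125 (nat_lit 11766) (nat_lit 1) (nat_lit 5))
    (@En.n l3536 (nat_lit 11143) (nat_lit 4) (nat_lit 12))
    (@En.n l28740 (nat_lit 10578) (nat_lit 14) (nat_lit 12))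
    (@En.i (nat_lit 7878) (nat_lit 12) (nat_lit 6))
    (@En.n l2869 (nat_lit 11111) (nat_lit 15) (nat_lit 3))))
  (@Cl.mk (nat_lit 0x300070006000c000c0006000b00040004000b00090005000a000d0005000a) (nat_lit 0x8501009501708) (nat_lit 16) Lb.e (@T16.mk En
    (@En.n l11590 (nat_lit 12607) (nat_lit 0) (nat_lit 10))
    (@En.n l33956 (nat_lit 11198) (nat_lit 8) (nat_lit 5))
    (@En.n l5779 (nat_lit 7982) (nat_lit 5) (nat_lit 13))
    (@En.n l7441 (nat_lit 2237) (nat_lit 3) (nat_lit 10))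
    (@En.n l6238 (nat_lit 10850) (nat_lit 4) (nat_lit 5))
    (@En.i (nat_lit 12153) (nat_lit 5) (nat_lit 9))
    (@En.n l899 (nat_lit 11977) (nat_lit 7) (nat_lit 11))
    (@En.n l152 (nat_lit 11213) (nat_lit 12) (nat_lit 4))
    (@En.n l3851 (nat_lit 10544) (nat_lit 8) (nat_lit 4))
    (@En.n l6508 (nat_lit 6177) (nat_lit 0) (nat_lit 11))
    (@En.n l2125 (nat_lit 11947) (nat_lit 1) (nat_lit 6))
    (@En.n l3536 (nat_lit 11146) (nat_lit 4) (nat_lit 12))
    (@En.n l28740 (nat_lit 11793) (nat_lit 13) (nat_lit 12))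
    (@En.n l7 (nat_lit 11149) (nat_lit 14) (nat_lit 6))
    (@En.n l644 (nat_lit 11151) (nat_lit 12) (nat_lit 7))
    (@En.n l16702 (nat_lit 11210) (nat_lit 15) (nat_lit 3))))
  (@Cl.mk (nat_lit 0x30006000b00070005000c000c0005000a00040004000a0009000d0006000b) (nat_lit 0x70073010083602) (nat_lit 16) Lb.e (@T16.mk En
    (@En.n l2910 (nat_lit 2235) (nat_lit 0) (nat_lit 11))
    (@En.i (nat_lit 10281) (nat_lit 11) (nat_lit 6))
    (@En.n l50 (nat_lit 11149) (nat_lit 6) (nat_lit 13))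
    (@En.n l2579 (nat_lit 11111) (nat_lit 7) (nat_lit 9))
    (@En.n l899 (nat_lit 11978) (nat_lit 4) (nat_lit 10))
    (@En.n l152 (nat_lit 11217) (nat_lit 12) (nat_lit 4))
    (@En.n l3851 (nat_lit 10541) (nat_lit 6) (nat_lit 4))
    (@En.n l725 (nat_lit 6179) (nat_lit 0) (nat_lit 10))
    (@En.n l2125 (nat_lit 11768) (nat_lit 8) (nat_lit 5))
    (@En.n l3536 (nat_lit 11144) (nat_lit 4) (nat_lit 12))
    (@En.n l14972 (nat_lit 11784) (nat_lit 11) (nat_lit 12))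
    (@En.n l5934 (nat_lit 7875) (nat_lit 11) (nat_lit 5))
    (@En.n l2912 (nat_lit 10338) (nat_lit 13) (nat_lit 7))
    (@En.n l766 (nat_lit 11838) (nat_lit 14) (nat_lit 11))
    (@En.n l14973 (nat_lit 11197) (nat_lit 12) (nat_lit 6))
    (@En.n l11294 (nat_lit 11153) (nat_lit 15) (nat_lit 3))))
noncomputable def a697 : T16 Cl := @T16.mk Cl
  (@Cl.mk (nat_lit 0x30007000c000c0005000a00040004000a000d000900060003000d0006000b) (nat_lit 0x73040085600809) (nat_lit 16) Lb.e (@T16.mk En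
    (@En.n l39664 (nat_lit 12608) (nat_lit 0) (nat_lit 11))
    (@En.n l22708 (nat_lit 11153) (nat_lit 14) (nat_lit 6))
    (@En.n l37111 (nat_lit 7987) (nat_lit 2) (nat_lit 13))
    (@En.n l2710 (nat_lit 11149) (nat_lit 3) (nat_lit 3))
    (@En.n l9972 (nat_lit 5603) (nat_lit 0) (nat_lit 6))
    (@En.n l2749 (nat_lit 11150) (nat_lit 5) (nat_lit 9))
    (@En.i (nat_lit 6983) (nat_lit 5) (nat_lit 13))
    (@En.n l15535 (nat_lit 10677) (nat_lit 3) (nat_lit 10))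
    (@En.n l1071 (nat_lit 11216) (nat_lit 12) (nat_lit 4))
    (@En.i (nat_lit 10542) (nat_lit 9) (nat_lit 4))
    (@En.n l19886 (nat_lit 4352) (nat_lit 0) (nat_lit 10))
    (@En.n l22467 (nat_lit 11769) (nat_lit 1) (nat_lit 5))
    (@En.n l61 (nat_lit 11141) (nat_lit 4) (nat_lit 12))
    (@En.n l1897 (nat_lit 10574) (nat_lit 14) (nat_lit 12))
    (@En.i (nat_lit 12462) (nat_lit 12) (nat_lit 7))
    (@En.n l39665 (nat_lit 11110) (nat_lit 15) (nat_lit 3))))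
  (@Cl.mk (nat_lit 0x30006000b00070006000c000c0005000900040004000a0009000d000a0007) (nat_lit 0x70063030083670) (nat_lit 16) Lb.e (@T16.mk En
    (@En.n l29437 (nat_lit 5605) (nat_lit 0) (nat_lit 7))
    (@En.n l29438 (nat_lit 11198) (nat_lit 11) (nat_lit 10))
    (@En.n l8050 (nat_lit 11152) (nat_lit 6) (nat_lit 13))
    (@En.n l29439 (nat_lit 11110) (nat_lit 7) (nat_lit 9))
    (@En.n l20138 (nat_lit 10674) (nat_lit 4) (nat_lit 10))
    (@En.n l11021 (nat_lit 11218) (nat_lit 12) (nat_lit 4))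
    (@En.n l29440 (nat_lit 10540) (nat_lit 6) (nat_lit 4))
    (@En.n l29441 (nat_lit 4193) (nat_lit 0) (nat_lit 9))
    (@En.n l17070 (nat_lit 11950) (nat_lit 8) (nat_lit 5))
    (@En.n l29442 (nat_lit 11142) (nat_lit 4) (nat_lit 12))
    (@En.n l24739 (nat_lit 10577) (nat_lit 11) (nat_lit 12))
    (@En.n l15744 (nat_lit 12461) (nat_lit 10) (nat_lit 6))
    (@En.n l29440 (nat_lit 5311) (nat_lit 13) (nat_lit 7))
    (@En.n l3524 (nat_lit 11839) (nat_lit 14) (nat_lit 11))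
    (@En.n l29443 (nat_lit 6365) (nat_lit 12) (nat_lit 6))
    (@En.n l29444 (nat_lit 11151) (nat_lit 15) (nat_lit 3))))
  (@Cl.mk (nat_lit 0x30006000b0005000b000b000a0005000900050005000a0006000d000b0007) (nat_lit 0x40753050050460) (nat_lit 16) Lb.e (@T16.mk En
    (@En.n l42651 (nat_lit 5315) (nat_lit 0) (nat_lit 7))
    (@En.n l42557 (nat_lit 11158) (nat_lit 5) (nat_lit 11))
    (@En.n l42652 (nat_lit 8000) (nat_lit 2) (nat_lit 13))
    (@En.n l42653 (nat_lit 6474) (nat_lit 3) (nat_lit 6))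
    (@En.n l830 (nat_lit 9981) (nat_lit 4) (nat_lit 10))
    (@En.n l23354 (nat_lit 11156) (nat_lit 11) (nat_lit 5))
    (@En.n l10786 (nat_lit 11099) (nat_lit 6) (nat_lit 5))
    (@En.n l21198 (nat_lit 9749) (nat_lit 10) (nat_lit 9))
    (@En.n l29344 (nat_lit 11153) (nat_lit 8) (nat_lit 5))
    (@En.n l21047 (nat_lit 10700) (nat_lit 10) (nat_lit 10))
    (@En.n l601 (nat_lit 9774) (nat_lit 5) (nat_lit 11))
    (@En.n l6822 (nat_lit 11772) (nat_lit 12) (nat_lit 11))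
    (@En.n l31087 (nat_lit 11544) (nat_lit 13) (nat_lit 5))
    (@En.n l16180 (nat_lit 11835) (nat_lit 14) (nat_lit 11))
    (@En.i (nat_lit 10792) (nat_lit 12) (nat_lit 6))
    (@En.n l107 (nat_lit 10967) (nat_lit 15) (nat_lit 3))))
  (@Cl.mk (nat_lit 0x2000b0006000b0005000a0005000d0005000c00030006000a0004000e000b) (nat_lit 0x504040302004088) (nat_lit 16) Lb.e (@T16.mk En
    (@En.n l644 (nat_lit 10967) (nat_lit 11) (nat_lit 11))
    (@En.n l3528 (nat_lit 9855) (nat_lit 1) (nat_lit 14))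
    (@En.n l2385 (nat_lit 8560) (nat_lit 2) (nat_lit 4))
    (@En.n l6524 (nat_lit 11162) (nat_lit 3) (nat_lit 10))
    (@En.n l17308 (nat_lit 11191) (nat_lit 12) (nat_lit 6))
    (@En.n l10536 (nat_lit 11156) (nat_lit 5) (nat_lit 3))
    (@En.n l619 (nat_lit 7647) (nat_lit 0) (nat_lit 12))
    (@En.i (nat_lit 11159) (nat_lit 7) (nat_lit 5))
    (@En.n l3696 (nat_lit 8003) (nat_lit 9) (nat_lit 13))
    (@En.n l24316 (nat_lit 6589) (nat_lit 9) (nat_lit 5))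
    (@En.n l24316 (nat_lit 8926) (nat_lit 11) (nat_lit 10))
    (@En.i (nat_lit 12014) (nat_lit 5) (nat_lit 5))
    (@En.n l10536 (nat_lit 8554) (nat_lit 13) (nat_lit 11))
    (@En.n l22906 (nat_lit 11217) (nat_lit 14) (nat_lit 6))
    (@En.n l19697 (nat_lit 10603) (nat_lit 9) (nat_lit 11))
    (@En.n l7 (nat_lit 11155) (nat_lit 15) (nat_lit 2))))
  (@Cl.mk (nat_lit 0x2000b0006000a0005000a0005000d000b000600030006000a0005000e000b) (nat_lit 0x503040450004058) (nat_lit 16) Lb.e (@T16.mk En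
    (@En.n l22524 (nat_lit 11154) (nat_lit 11) (nat_lit 11))
    (@En.n l10994 (nat_lit 9853) (nat_lit 1) (nat_lit 14))
    (@En.n l32538 (nat_lit 11568) (nat_lit 2) (nat_lit 5))
    (@En.n l32539 (nat_lit 11160) (nat_lit 3) (nat_lit 10))
    (@En.n l781 (nat_lit 7973) (nat_lit 4) (nat_lit 6))
    (@En.n l32540 (nat_lit 11155) (nat_lit 5) (nat_lit 3))
    (@En.n l3928 (nat_lit 7011) (nat_lit 0) (nat_lit 6))
    (@En.i (nat_lit 11157) (nat_lit 8) (nat_lit 11))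
    (@En.n l32541 (nat_lit 8001) (nat_lit 9) (nat_lit 13))
    (@En.n l23332 (nat_lit 7737) (nat_lit 9) (nat_lit 5))
    (@En.n l32542 (nat_lit 8925) (nat_lit 11) (nat_lit 10))
    (@En.n l29774 (nat_lit 12015) (nat_lit 5) (nat_lit 5))
    (@En.i (nat_lit 9744) (nat_lit 13) (nat_lit 10))
    (@En.n l32543 (nat_lit 11218) (nat_lit 14) (nat_lit 6))
    (@En.n l19384 (nat_lit 10600) (nat_lit 9) (nat_lit 11))
    (@En.n l28 (nat_lit 11156) (nat_lit 15) (nat_lit 2))))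
  (@Cl.mk (nat_lit 0x2000b0007000b0005000b0005000b0005000c0005000900050004000e000b) (nat_lit 0x602080402040062) (nat_lit 16) Lb.e (@T16.mk En
    (@En.n l649 (nat_lit 11158) (nat_lit 14) (nat_lit 11))
    (@En.i (nat_lit 11089) (nat_lit 1) (nat_lit 14))
    (@En.n l4542 (nat_lit 11155) (nat_lit 2) (nat_lit 4))
    (@En.n l17 (nat_lit 11563) (nat_lit 3) (nat_lit 5))
    (@En.n l28097 (nat_lit 11164) (nat_lit 4) (nat_lit 9))
    (@En.n l28098 (nat_lit 12189) (nat_lit 5) (nat_lit 5))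
    (@En.n l19609 (nat_lit 2414) (nat_lit 7) (nat_lit 12))
    (@En.n l28099 (nat_lit 11584) (nat_lit 7) (nat_lit 5))
    (@En.n l28100 (nat_lit 12079) (nat_lit 9) (nat_lit 11))
    (@En.n l50 (nat_lit 8032) (nat_lit 9) (nat_lit 5))
    (@En.i (nat_lit 8755) (nat_lit 11) (nat_lit 11))
    (@En.n l28101 (nat_lit 11867) (nat_lit 12) (nat_lit 5))
    (@En.i (nat_lit 8540) (nat_lit 13) (nat_lit 11))
    (@En.n l28102 (nat_lit 11200) (nat_lit 14) (nat_lit 7))
    (@En.i (nat_lit 10597) (nat_lit 12) (nat_lit 11))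
    (@En.n l28 (nat_lit 11157) (nat_lit 15) (nat_lit 2))))
  (@Cl.mk (nat_lit 0x4000b000b000a0006000a00050005000b0006000b0006000c0005000a0005) (nat_lit 0x174020040502040) (nat_lit 16) Lb.e (@T16.mk En
    (@En.n l40733 (nat_lit 11562) (nat_lit 0) (nat_lit 5))
    (@En.n l40734 (nat_lit 11833) (nat_lit 1) (nat_lit 10))
    (@En.n l40735 (nat_lit 10045) (nat_lit 1) (nat_lit 5))
    (@En.n l40733 (nat_lit 2415) (nat_lit 2) (nat_lit 12))
    (@En.n l14016 (nat_lit 10279) (nat_lit 1) (nat_lit 6))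
    (@En.n l40736 (nat_lit 11177) (nat_lit 9) (nat_lit 11))
    (@En.i (nat_lit 6475) (nat_lit 6) (nat_lit 6))
    (@En.n l2869 (nat_lit 9937) (nat_lit 0) (nat_lit 11))
    (@En.n l8258 (nat_lit 11157) (nat_lit 11) (nat_lit 5))
    (@En.n l40520 (nat_lit 10480) (nat_lit 0) (nat_lit 5))
    (@En.i (nat_lit 8543) (nat_lit 9) (nat_lit 10))
    (@En.n l40737 (nat_lit 11198) (nat_lit 1) (nat_lit 6))
    (@En.n l40738 (nat_lit 10478) (nat_lit 6) (nat_lit 10))
    (@En.n l40739 (nat_lit 11172) (nat_lit 5) (nat_lit 11))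
    (@En.n l40740 (nat_lit 8013) (nat_lit 2) (nat_lit 11))
    (@En.n l40520 (nat_lit 10967) (nat_lit 12) (nat_lit 4))))
  (@Cl.mk (nat_lit 0x2000a0006000b000a0006000b00060005000c00060005000a0004000e000a) (nat_lit 0x505404006006027) (nat_lit 16) Lb.e (@T16.mk En
    (@En.n l644 (nat_lit 10276) (nat_lit 14) (nat_lit 10))
    (@En.n l3528 (nat_lit 9511) (nat_lit 1) (nat_lit 14))
    (@En.n l30773 (nat_lit 11593) (nat_lit 2) (nat_lit 4))
    (@En.n l30774 (nat_lit 11284) (nat_lit 3) (nat_lit 10))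
    (@En.n l30775 (nat_lit 11599) (nat_lit 4) (nat_lit 5))
    (@En.n l30776 (nat_lit 6543) (nat_lit 5) (nat_lit 6))
    (@En.n l30777 (nat_lit 11583) (nat_lit 7) (nat_lit 12))
    (@En.n l30778 (nat_lit 11616) (nat_lit 7) (nat_lit 5))
    (@En.n l24316 (nat_lit 7731) (nat_lit 8) (nat_lit 6))
    (@En.n l30778 (nat_lit 7537) (nat_lit 10) (nat_lit 11))
    (@En.n l30779 (nat_lit 10478) (nat_lit 11) (nat_lit 6))
    (@En.n l30780 (nat_lit 11156) (nat_lit 12) (nat_lit 10))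
    (@En.n l10536 (nat_lit 8286) (nat_lit 13) (nat_lit 11))
    (@En.n l22906 (nat_lit 12265) (nat_lit 14) (nat_lit 6))
    (@En.n l19697 (nat_lit 9956) (nat_lit 12) (nat_lit 10))
    (@En.n l7 (nat_lit 11159) (nat_lit 15) (nat_lit 2))))
  (@Cl.mk (nat_lit 0x2000a0006000d000a000600030006000d000c00060003000a0004000e000a) (nat_lit 0x5035000b80030a4) (nat_lit 16) Lb.e (@T16.mk En
    (@En.n l10903 (nat_lit 11835) (nat_lit 12) (nat_lit 10))
    (@En.n l601 (nat_lit 11531) (nat_lit 1) (nat_lit 14))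
    (@En.n l11 (nat_lit 6378) (nat_lit 2) (nat_lit 4))
    (@En.n l287 (nat_lit 12222) (nat_lit 3) (nat_lit 10))
    (@En.n l22067 (nat_lit 11162) (nat_lit 4) (nat_lit 3))
    (@En.i (nat_lit 6950) (nat_lit 5) (nat_lit 6))
    (@En.n l55 (nat_lit 11164) (nat_lit 7) (nat_lit 12))
    (@En.n l17458 (nat_lit 5312) (nat_lit 8) (nat_lit 13))
    (@En.n l21745 (nat_lit 8035) (nat_lit 8) (nat_lit 6))
    (@En.n l25301 (nat_lit 12425) (nat_lit 9) (nat_lit 3))
    (@En.i (nat_lit 12366) (nat_lit 0) (nat_lit 6))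
    (@En.n l20075 (nat_lit 11042) (nat_lit 12) (nat_lit 10))
    (@En.n l2394 (nat_lit 11161) (nat_lit 13) (nat_lit 13))
    (@En.n l4155 (nat_lit 11167) (nat_lit 14) (nat_lit 6))
    (@En.n l6771 (nat_lit 7622) (nat_lit 4) (nat_lit 10))
    (@En.n l50 (nat_lit 11160) (nat_lit 15) (nat_lit 2))))
  (@Cl.mk (nat_lit 0x2000a000d000900050003000a0006000d000c0007000300060004000e000b) (nat_lit 0x4240050b30000b7) (nat_lit 16) Lb.e (@T16.mk En
    (@En.i (nat_lit 11837) (nat_lit 12) (nat_lit 11))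
    (@En.n l3973 (nat_lit 8633) (nat_lit 1) (nat_lit 14))
    (@En.i (nat_lit 9240) (nat_lit 2) (nat_lit 4))
    (@En.n l3354 (nat_lit 12632) (nat_lit 3) (nat_lit 6))
    (@En.n l12286 (nat_lit 11163) (nat_lit 4) (nat_lit 3))
    (@En.n l3972 (nat_lit 6948) (nat_lit 0) (nat_lit 7))
    (@En.n l61 (nat_lit 11165) (nat_lit 7) (nat_lit 12))
    (@En.n l17452 (nat_lit 11167) (nat_lit 8) (nat_lit 13))
    (@En.n l8842 (nat_lit 11160) (nat_lit 8) (nat_lit 6))
    (@En.n l13962 (nat_lit 11156) (nat_lit 10) (nat_lit 10))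
    (@En.n l11 (nat_lit 12419) (nat_lit 10) (nat_lit 3))
    (@En.n l881 (nat_lit 12364) (nat_lit 0) (nat_lit 5))
    (@En.i (nat_lit 9190) (nat_lit 13) (nat_lit 9))
    (@En.i (nat_lit 1122) (nat_lit 14) (nat_lit 13))
    (@En.n l3974 (nat_lit 8253) (nat_lit 10) (nat_lit 10))
    (@En.n l3 (nat_lit 11161) (nat_lit 15) (nat_lit 2))))
  (@Cl.mk (nat_lit 0x2000a0006000d000b000600030006000d0005000d0003000a0003000e000a) (nat_lit 0x5045000b02030a4) (nat_lit 16) Lb.e (@T16.mk En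
    (@En.n l1532 (nat_lit 11834) (nat_lit 14) (nat_lit 10))
    (@En.n l387 (nat_lit 11532) (nat_lit 1) (nat_lit 14))
    (@En.n l3621 (nat_lit 11164) (nat_lit 2) (nat_lit 3))
    (@En.n l3710 (nat_lit 11750) (nat_lit 3) (nat_lit 10))
    (@En.n l3621 (nat_lit 11160) (nat_lit 4) (nat_lit 3))
    (@En.n l1722 (nat_lit 1594) (nat_lit 0) (nat_lit 13))
    (@En.n l5292 (nat_lit 11284) (nat_lit 6) (nat_lit 5))
    (@En.n l617 (nat_lit 12397) (nat_lit 8) (nat_lit 13))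
    (@En.n l7503 (nat_lit 8034) (nat_lit 8) (nat_lit 6))
    (@En.n l11 (nat_lit 11894) (nat_lit 9) (nat_lit 3))
    (@En.n l17779 (nat_lit 12041) (nat_lit 0) (nat_lit 6))
    (@En.n l2427 (nat_lit 11889) (nat_lit 12) (nat_lit 11))
    (@En.n l17 (nat_lit 11163) (nat_lit 13) (nat_lit 13))
    (@En.i (nat_lit 11166) (nat_lit 14) (nat_lit 6))
    (@En.n l17779 (nat_lit 7624) (nat_lit 4) (nat_lit 10))
    (@En.n l3 (nat_lit 11162) (nat_lit 15) (nat_lit 2))))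
  (@Cl.mk (nat_lit 0x2000a000d000a00050003000a0006000d0006000d000300060003000e000b) (nat_lit 0x4340050b02000b7) (nat_lit 16) Lb.e (@T16.mk En
    (@En.n l18469 (nat_lit 11836) (nat_lit 12) (nat_lit 11))
    (@En.n l18470 (nat_lit 8630) (nat_lit 1) (nat_lit 14))
    (@En.n l5694 (nat_lit 11165) (nat_lit 2) (nat_lit 3))
    (@En.n l18471 (nat_lit 11639) (nat_lit 12) (nat_lit 6))
    (@En.n l5694 (nat_lit 11161) (nat_lit 4) (nat_lit 3))
    (@En.n l18472 (nat_lit 355) (nat_lit 0) (nat_lit 13))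
    (@En.n l18473 (nat_lit 11287) (nat_lit 6) (nat_lit 6))
    (@En.n l2196 (nat_lit 11166) (nat_lit 8) (nat_lit 13))
    (@En.i (nat_lit 11162) (nat_lit 8) (nat_lit 6))
    (@En.n l18474 (nat_lit 11155) (nat_lit 10) (nat_lit 10))
    (@En.n l11 (nat_lit 12422) (nat_lit 10) (nat_lit 3))
    (@En.n l7028 (nat_lit 12367) (nat_lit 0) (nat_lit 5))
    (@En.n l18475 (nat_lit 9188) (nat_lit 13) (nat_lit 10))
    (@En.n l18476 (nat_lit 1120) (nat_lit 5) (nat_lit 13))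
    (@En.n l18477 (nat_lit 8255) (nat_lit 10) (nat_lit 10))
    (@En.n l3 (nat_lit 11163) (nat_lit 15) (nat_lit 2))))
  (@Cl.mk (nat_lit 0x2000a0007000d000b000600030006000c0005000d000900040003000e000a) (nat_lit 0x4035000702300a5) (nat_lit 16) Lb.e (@T16.mk En
    (@En.n l10903 (nat_lit 11833) (nat_lit 14) (nat_lit 10))
    (@En.n l601 (nat_lit 12263) (nat_lit 1) (nat_lit 14))
    (@En.n l8517 (nat_lit 11162) (nat_lit 2) (nat_lit 3))
    (@En.n l1393 (nat_lit 6369) (nat_lit 3) (nat_lit 4))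
    (@En.n l3213 (nat_lit 11041) (nat_lit 4) (nat_lit 9))
    (@En.n l7394 (nat_lit 353) (nat_lit 6) (nat_lit 13))
    (@En.n l117 (nat_lit 11283) (nat_lit 6) (nat_lit 5))
    (@En.n l17458 (nat_lit 12357) (nat_lit 8) (nat_lit 12))
    (@En.n l8429 (nat_lit 8033) (nat_lit 8) (nat_lit 6))
    (@En.n l17459 (nat_lit 11895) (nat_lit 9) (nat_lit 3))
    (@En.i (nat_lit 12049) (nat_lit 0) (nat_lit 6))
    (@En.n l17460 (nat_lit 11888) (nat_lit 12) (nat_lit 11))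
    (@En.n l2394 (nat_lit 11165) (nat_lit 13) (nat_lit 13))
    (@En.n l2394 (nat_lit 12650) (nat_lit 14) (nat_lit 7))
    (@En.n l6771 (nat_lit 7623) (nat_lit 4) (nat_lit 10))
    (@En.n l50 (nat_lit 11164) (nat_lit 15) (nat_lit 2))))
  (@Cl.mk (nat_lit 0x2000a000d000a00050003000b0006000c0006000d000500040003000e000b) (nat_lit 0x4240090202000b8) (nat_lit 16) Lb.e (@T16.mk En
    (@En.i (nat_lit 9247) (nat_lit 14) (nat_lit 11))
    (@En.i (nat_lit 12264) (nat_lit 1) (nat_lit 14))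
    (@En.n l14126 (nat_lit 11163) (nat_lit 2) (nat_lit 3))
    (@En.i (nat_lit 6371) (nat_lit 3) (nat_lit 4))
    (@En.i (nat_lit 12638) (nat_lit 4) (nat_lit 5))
    (@En.n l7596 (nat_lit 350) (nat_lit 6) (nat_lit 13))
    (@En.n l6753 (nat_lit 11285) (nat_lit 6) (nat_lit 6))
    (@En.n l7596 (nat_lit 12645) (nat_lit 8) (nat_lit 12))
    (@En.n l8842 (nat_lit 11164) (nat_lit 8) (nat_lit 6))
    (@En.n l14127 (nat_lit 11157) (nat_lit 10) (nat_lit 11))
    (@En.n l11 (nat_lit 12426) (nat_lit 10) (nat_lit 3))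
    (@En.n l7596 (nat_lit 12368) (nat_lit 0) (nat_lit 5))
    (@En.n l14128 (nat_lit 9191) (nat_lit 13) (nat_lit 10))
    (@En.i (nat_lit 1118) (nat_lit 5) (nat_lit 13))
    (@En.n l615 (nat_lit 8254) (nat_lit 12) (nat_lit 10))
    (@En.n l3 (nat_lit 11165) (nat_lit 15) (nat_lit 2))))
  (@Cl.mk (nat_lit 0x20006000d000b00050003000a000d0005000c0003000a00060004000e000b) (nat_lit 0x44004a020600b6) (nat_lit 16) Lb.e (@T16.mk En
    (@En.n l12527 (nat_lit 11838) (nat_lit 11) (nat_lit 11))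
    (@En.n l18 (nat_lit 8627) (nat_lit 1) (nat_lit 14))
    (@En.n l2351 (nat_lit 12645) (nat_lit 2) (nat_lit 4))
    (@En.i (nat_lit 11163) (nat_lit 3) (nat_lit 6))
    (@En.n l3710 (nat_lit 12347) (nat_lit 4) (nat_lit 10))
    (@En.i (nat_lit 11167) (nat_lit 5) (nat_lit 3))
    (@En.n l2351 (nat_lit 1019) (nat_lit 7) (nat_lit 12))
    (@En.n l14124 (nat_lit 11292) (nat_lit 7) (nat_lit 5))
    (@En.n l796 (nat_lit 12753) (nat_lit 5) (nat_lit 13))
    (@En.n l797 (nat_lit 8003) (nat_lit 10) (nat_lit 10))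
    (@En.n l11 (nat_lit 12421) (nat_lit 10) (nat_lit 3))
    (@En.n l2351 (nat_lit 12369) (nat_lit 0) (nat_lit 5))
    (@En.i (nat_lit 9187) (nat_lit 13) (nat_lit 11))
    (@En.n l12527 (nat_lit 297) (nat_lit 14) (nat_lit 13))
    (@En.n l14125 (nat_lit 10159) (nat_lit 3) (nat_lit 6))
    (@En.n l3 (nat_lit 11166) (nat_lit 15) (nat_lit 2))))
  (@Cl.mk (nat_lit 0x20006000d000a00050003000a000d000b00060003000a00060005000e000b) (nat_lit 0x14004a200600b5) (nat_lit 16) Lb.e (@T16.mk En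
    (@En.n l7014 (nat_lit 11839) (nat_lit 11) (nat_lit 11))
    (@En.n l7015 (nat_lit 8629) (nat_lit 1) (nat_lit 14))
    (@En.n l7016 (nat_lit 12640) (nat_lit 2) (nat_lit 5))
    (@En.n l5694 (nat_lit 11161) (nat_lit 3) (nat_lit 6))
    (@En.n l7017 (nat_lit 12264) (nat_lit 4) (nat_lit 10))
    (@En.n l7 (nat_lit 11166) (nat_lit 5) (nat_lit 3))
    (@En.n l2356 (nat_lit 6949) (nat_lit 6) (nat_lit 6))
    (@En.n l7018 (nat_lit 12650) (nat_lit 8) (nat_lit 11))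
    (@En.n l796 (nat_lit 12754) (nat_lit 9) (nat_lit 13))
    (@En.n l797 (nat_lit 8001) (nat_lit 10) (nat_lit 10))
    (@En.n l11 (nat_lit 12417) (nat_lit 10) (nat_lit 3))
    (@En.n l2354 (nat_lit 12365) (nat_lit 0) (nat_lit 5))
    (@En.n l2358 (nat_lit 9189) (nat_lit 13) (nat_lit 10))
    (@En.n l7019 (nat_lit 299) (nat_lit 14) (nat_lit 13))
    (@En.n l7020 (nat_lit 10829) (nat_lit 3) (nat_lit 6))
    (@En.n l3 (nat_lit 11167) (nat_lit 15) (nat_lit 2))))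
noncomputable def a698 : T16 Cl := @T16.mk Cl
  (@Cl.mk (nat_lit 0x2000a0007000d0007000c00030006000c0004000b000900040009000e0005) (nat_lit 0x60b020080540290) (nat_lit 16) Lb.e (@T16.mk En
    (@En.n l7 (nat_lit 10967) (nat_lit 6) (nat_lit 5))
    (@En.n l476 (nat_lit 6402) (nat_lit 1) (nat_lit 14))
    (@En.i (nat_lit 8515) (nat_lit 2) (nat_lit 9))
    (@En.n l21255 (nat_lit 11144) (nat_lit 3) (nat_lit 4))
    (@En.i (nat_lit 10245) (nat_lit 4) (nat_lit 9))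
    (@En.i (nat_lit 10831) (nat_lit 12) (nat_lit 11))
    (@En.i (nat_lit 10968) (nat_lit 6) (nat_lit 4))
    (@En.n l14844 (nat_lit 11905) (nat_lit 8) (nat_lit 12))
    (@En.i (nat_lit 11186) (nat_lit 12) (nat_lit 6))
    (@En.i (nat_lit 9774) (nat_lit 9) (nat_lit 3))
    (@En.n l619 (nat_lit 6418) (nat_lit 0) (nat_lit 12))
    (@En.n l10584 (nat_lit 11051) (nat_lit 12) (nat_lit 7))
    (@En.n l3695 (nat_lit 11169) (nat_lit 13) (nat_lit 13))
    (@En.n l21256 (nat_lit 5175) (nat_lit 14) (nat_lit 7))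
    (@En.n l7145 (nat_lit 9646) (nat_lit 4) (nat_lit 10))
    (@En.n l50 (nat_lit 11168) (nat_lit 15) (nat_lit 2))))
  (@Cl.mk (nat_lit 0x2000a000d0006000b0003000b0006000c0005000b00050004000a000e0005) (nat_lit 0x6a0308080900220) (nat_lit 16) Lb.e (@T16.mk En
    (@En.n l3098 (nat_lit 8002) (nat_lit 5) (nat_lit 5))
    (@En.i (nat_lit 6399) (nat_lit 1) (nat_lit 14))
    (@En.i (nat_lit 8518) (nat_lit 2) (nat_lit 10))
    (@En.i (nat_lit 11143) (nat_lit 3) (nat_lit 4))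
    (@En.n l16914 (nat_lit 6578) (nat_lit 4) (nat_lit 5))
    (@En.n l29231 (nat_lit 10159) (nat_lit 1) (nat_lit 11))
    (@En.n l5928 (nat_lit 10969) (nat_lit 6) (nat_lit 5))
    (@En.n l29231 (nat_lit 12116) (nat_lit 8) (nat_lit 12))
    (@En.n l23629 (nat_lit 11168) (nat_lit 8) (nat_lit 6))
    (@En.i (nat_lit 11170) (nat_lit 10) (nat_lit 11))
    (@En.n l117 (nat_lit 9775) (nat_lit 10) (nat_lit 3))
    (@En.n l781 (nat_lit 6419) (nat_lit 0) (nat_lit 11))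
    (@En.i (nat_lit 11392) (nat_lit 13) (nat_lit 6))
    (@En.i (nat_lit 7990) (nat_lit 5) (nat_lit 13))
    (@En.n l2125 (nat_lit 9648) (nat_lit 3) (nat_lit 10))
    (@En.n l17 (nat_lit 11169) (nat_lit 15) (nat_lit 2))))
  (@Cl.mk (nat_lit 0x2000b00070006000c000b0005000b0004000a000500090005000a000e0006) (nat_lit 0x700170307050160) (nat_lit 16) Lb.e (@T16.mk En
    (@En.n l28981 (nat_lit 11179) (nat_lit 8) (nat_lit 6))
    (@En.i (nat_lit 9987) (nat_lit 1) (nat_lit 14))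
    (@En.n l7612 (nat_lit 5818) (nat_lit 2) (nat_lit 10))
    (@En.n l19999 (nat_lit 11171) (nat_lit 3) (nat_lit 5))
    (@En.n l6723 (nat_lit 11168) (nat_lit 4) (nat_lit 9))
    (@En.n l29230 (nat_lit 6448) (nat_lit 5) (nat_lit 5))
    (@En.n l29231 (nat_lit 10703) (nat_lit 7) (nat_lit 10))
    (@En.n l5928 (nat_lit 11180) (nat_lit 7) (nat_lit 4))
    (@En.n l29232 (nat_lit 12327) (nat_lit 9) (nat_lit 11))
    (@En.n l29230 (nat_lit 11181) (nat_lit 9) (nat_lit 5))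
    (@En.n l29233 (nat_lit 11175) (nat_lit 11) (nat_lit 11))
    (@En.n l29234 (nat_lit 6388) (nat_lit 12) (nat_lit 12))
    (@En.n l29230 (nat_lit 9806) (nat_lit 13) (nat_lit 6))
    (@En.i (nat_lit 11489) (nat_lit 14) (nat_lit 7))
    (@En.n l2125 (nat_lit 8795) (nat_lit 4) (nat_lit 11))
    (@En.n l17 (nat_lit 11170) (nat_lit 15) (nat_lit 2))))
  (@Cl.mk (nat_lit 0x2000b000a0006000b000a0005000b00060005000b00060005000a000e0005) (nat_lit 0x840770900600250) (nat_lit 16) Lb.e (@T16.mk En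
    (@En.n l19955 (nat_lit 9738) (nat_lit 15) (nat_lit 5))
    (@En.i (nat_lit 9291) (nat_lit 1) (nat_lit 14))
    (@En.n l19956 (nat_lit 9284) (nat_lit 2) (nat_lit 10))
    (@En.n l3100 (nat_lit 11146) (nat_lit 3) (nat_lit 5))
    (@En.n l8433 (nat_lit 7654) (nat_lit 4) (nat_lit 6))
    (@En.n l19957 (nat_lit 11986) (nat_lit 6) (nat_lit 11))
    (@En.n l8434 (nat_lit 11169) (nat_lit 6) (nat_lit 5))
    (@En.n l19958 (nat_lit 11553) (nat_lit 7) (nat_lit 6))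
    (@En.n l19959 (nat_lit 12119) (nat_lit 9) (nat_lit 11))
    (@En.n l7 (nat_lit 11172) (nat_lit 9) (nat_lit 5))
    (@En.n l644 (nat_lit 11176) (nat_lit 11) (nat_lit 10))
    (@En.n l19960 (nat_lit 6398) (nat_lit 12) (nat_lit 11))
    (@En.n l19956 (nat_lit 9808) (nat_lit 13) (nat_lit 6))
    (@En.n l19961 (nat_lit 11962) (nat_lit 14) (nat_lit 10))
    (@En.n l2125 (nat_lit 9480) (nat_lit 4) (nat_lit 11))
    (@En.n l17 (nat_lit 11171) (nat_lit 15) (nat_lit 2))))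
  (@Cl.mk (nat_lit 0x2000b0007000b0007000c0005000b00050004000b000900050009000e0005) (nat_lit 0x5050405006502b0) (nat_lit 16) Lb.e (@T16.mk En
    (@En.n l35638 (nat_lit 11158) (nat_lit 9) (nat_lit 5))
    (@En.i (nat_lit 12719) (nat_lit 1) (nat_lit 14))
    (@En.n l4549 (nat_lit 12717) (nat_lit 2) (nat_lit 9))
    (@En.n l35639 (nat_lit 11148) (nat_lit 3) (nat_lit 5))
    (@En.n l35640 (nat_lit 10254) (nat_lit 4) (nat_lit 9))
    (@En.n l35641 (nat_lit 11789) (nat_lit 6) (nat_lit 11))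
    (@En.n l35642 (nat_lit 11168) (nat_lit 6) (nat_lit 4))
    (@En.n l35643 (nat_lit 11560) (nat_lit 7) (nat_lit 5))
    (@En.n l35644 (nat_lit 11907) (nat_lit 9) (nat_lit 11))
    (@En.n l35645 (nat_lit 10041) (nat_lit 9) (nat_lit 5))
    (@En.n l18677 (nat_lit 6253) (nat_lit 11) (nat_lit 12))
    (@En.n l35640 (nat_lit 11383) (nat_lit 12) (nat_lit 7))
    (@En.i (nat_lit 11173) (nat_lit 13) (nat_lit 11))
    (@En.n l20474 (nat_lit 6477) (nat_lit 14) (nat_lit 7))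
    (@En.n l35646 (nat_lit 9713) (nat_lit 4) (nat_lit 11))
    (@En.n l17 (nat_lit 11172) (nat_lit 15) (nat_lit 2))))
  (@Cl.mk (nat_lit 0x2000c000b0006000b0004000a0005000d0005000b00030006000a000e0005) (nat_lit 0x940304080700250) (nat_lit 16) Lb.e (@T16.mk En
    (@En.n l3098 (nat_lit 11177) (nat_lit 12) (nat_lit 5))
    (@En.i (nat_lit 12677) (nat_lit 1) (nat_lit 14))
    (@En.n l253 (nat_lit 12714) (nat_lit 2) (nat_lit 10))
    (@En.i (nat_lit 11268) (nat_lit 12) (nat_lit 6))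
    (@En.i (nat_lit 11176) (nat_lit 4) (nat_lit 3))
    (@En.n l7288 (nat_lit 12642) (nat_lit 0) (nat_lit 11))
    (@En.i (nat_lit 11171) (nat_lit 6) (nat_lit 5))
    (@En.n l4549 (nat_lit 11174) (nat_lit 8) (nat_lit 13))
    (@En.n l19958 (nat_lit 11064) (nat_lit 8) (nat_lit 5))
    (@En.n l19960 (nat_lit 12662) (nat_lit 10) (nat_lit 10))
    (@En.n l117 (nat_lit 12172) (nat_lit 10) (nat_lit 4))
    (@En.n l19960 (nat_lit 6397) (nat_lit 12) (nat_lit 11))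
    (@En.i (nat_lit 11454) (nat_lit 13) (nat_lit 6))
    (@En.n l575 (nat_lit 11960) (nat_lit 14) (nat_lit 11))
    (@En.n l2125 (nat_lit 8793) (nat_lit 10) (nat_lit 12))
    (@En.n l17 (nat_lit 11173) (nat_lit 15) (nat_lit 2))))
  (@Cl.mk (nat_lit 0x2000c00070006000c0004000a000d0004000a000300090006000a000e0006) (nat_lit 0x900303706060360) (nat_lit 16) Lb.e (@T16.mk En
    (@En.n l21290 (nat_lit 11178) (nat_lit 5) (nat_lit 6))
    (@En.n l7604 (nat_lit 12713) (nat_lit 1) (nat_lit 14))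
    (@En.i (nat_lit 12490) (nat_lit 2) (nat_lit 10))
    (@En.n l21291 (nat_lit 11173) (nat_lit 3) (nat_lit 6))
    (@En.n l7604 (nat_lit 11172) (nat_lit 4) (nat_lit 9))
    (@En.n l21292 (nat_lit 11175) (nat_lit 5) (nat_lit 3))
    (@En.n l4787 (nat_lit 12644) (nat_lit 0) (nat_lit 10))
    (@En.n l21293 (nat_lit 11170) (nat_lit 7) (nat_lit 4))
    (@En.n l4787 (nat_lit 8034) (nat_lit 5) (nat_lit 13))
    (@En.n l28 (nat_lit 12324) (nat_lit 10) (nat_lit 10))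
    (@En.n l20981 (nat_lit 12171) (nat_lit 10) (nat_lit 4))
    (@En.n l3398 (nat_lit 6387) (nat_lit 12) (nat_lit 12))
    (@En.n l4787 (nat_lit 11461) (nat_lit 13) (nat_lit 6))
    (@En.n l7604 (nat_lit 11697) (nat_lit 14) (nat_lit 7))
    (@En.n l21294 (nat_lit 8791) (nat_lit 9) (nat_lit 12))
    (@En.n l17 (nat_lit 11174) (nat_lit 15) (nat_lit 2))))
  (@Cl.mk (nat_lit 0x2000c00070006000b0004000a000d00090005000300090006000a000e0007) (nat_lit 0x800603840060490) (nat_lit 16) Lb.e (@T16.mk En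
    (@En.n l7477 (nat_lit 11087) (nat_lit 5) (nat_lit 7))
    (@En.n l37150 (nat_lit 12693) (nat_lit 1) (nat_lit 14))
    (@En.n l37151 (nat_lit 12492) (nat_lit 2) (nat_lit 10))
    (@En.n l37152 (nat_lit 11176) (nat_lit 3) (nat_lit 6))
    (@En.n l37153 (nat_lit 9780) (nat_lit 4) (nat_lit 9))
    (@En.n l37154 (nat_lit 11174) (nat_lit 5) (nat_lit 3))
    (@En.i (nat_lit 7656) (nat_lit 0) (nat_lit 5))
    (@En.n l37155 (nat_lit 11475) (nat_lit 8) (nat_lit 9))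
    (@En.i (nat_lit 8033) (nat_lit 5) (nat_lit 13))
    (@En.n l37156 (nat_lit 12320) (nat_lit 10) (nat_lit 10))
    (@En.i (nat_lit 12168) (nat_lit 10) (nat_lit 4))
    (@En.n l4021 (nat_lit 10003) (nat_lit 12) (nat_lit 11))
    (@En.i (nat_lit 11460) (nat_lit 13) (nat_lit 6))
    (@En.n l31373 (nat_lit 11687) (nat_lit 14) (nat_lit 7))
    (@En.n l25196 (nat_lit 8794) (nat_lit 9) (nat_lit 12))
    (@En.n l28 (nat_lit 11175) (nat_lit 15) (nat_lit 2))))
  (@Cl.mk (nat_lit 0x2000c000b0006000a0004000a0005000d000a000600030006000a000e0006) (nat_lit 0x940604095000330) (nat_lit 16) Lb.e (@T16.mk En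
    (@En.n l19359 (nat_lit 11088) (nat_lit 12) (nat_lit 6))
    (@En.i (nat_lit 12673) (nat_lit 1) (nat_lit 14))
    (@En.n l253 (nat_lit 12679) (nat_lit 2) (nat_lit 10))
    (@En.i (nat_lit 12798) (nat_lit 12) (nat_lit 6))
    (@En.n l50 (nat_lit 11173) (nat_lit 4) (nat_lit 3))
    (@En.n l33444 (nat_lit 7655) (nat_lit 0) (nat_lit 6))
    (@En.i (nat_lit 10637) (nat_lit 7) (nat_lit 10))
    (@En.n l29450 (nat_lit 11175) (nat_lit 8) (nat_lit 13))
    (@En.n l13968 (nat_lit 11057) (nat_lit 8) (nat_lit 5))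
    (@En.n l19959 (nat_lit 12653) (nat_lit 10) (nat_lit 10))
    (@En.n l117 (nat_lit 12170) (nat_lit 10) (nat_lit 4))
    (@En.n l19960 (nat_lit 7989) (nat_lit 12) (nat_lit 10))
    (@En.n l25285 (nat_lit 11455) (nat_lit 13) (nat_lit 6))
    (@En.n l575 (nat_lit 11965) (nat_lit 14) (nat_lit 11))
    (@En.n l10773 (nat_lit 9691) (nat_lit 10) (nat_lit 12))
    (@En.n l17 (nat_lit 11176) (nat_lit 15) (nat_lit 2))))
  (@Cl.mk (nat_lit 0x40007000b00050005000c000b0005000b000400090005000c0005000b000b) (nat_lit 0x40054070409078) (nat_lit 16) Lb.e (@T16.mk En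
    (@En.n l3536 (nat_lit 11173) (nat_lit 5) (nat_lit 11))
    (@En.n l965 (nat_lit 11099) (nat_lit 1) (nat_lit 11))
    (@En.n l9072 (nat_lit 9738) (nat_lit 5) (nat_lit 5))
    (@En.n l10436 (nat_lit 11178) (nat_lit 13) (nat_lit 12))
    (@En.n l17536 (nat_lit 11558) (nat_lit 4) (nat_lit 5))
    (@En.n l38536 (nat_lit 11122) (nat_lit 5) (nat_lit 9))
    (@En.n l345 (nat_lit 12190) (nat_lit 6) (nat_lit 4))
    (@En.n l38537 (nat_lit 6300) (nat_lit 0) (nat_lit 11))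
    (@En.n l6771 (nat_lit 11414) (nat_lit 1) (nat_lit 5))
    (@En.n l77 (nat_lit 10677) (nat_lit 5) (nat_lit 11))
    (@En.n l9967 (nat_lit 9936) (nat_lit 11) (nat_lit 12))
    (@En.n l152 (nat_lit 12079) (nat_lit 11) (nat_lit 5))
    (@En.n l6193 (nat_lit 10639) (nat_lit 5) (nat_lit 5))
    (@En.n l38538 (nat_lit 12440) (nat_lit 8) (nat_lit 11))
    (@En.n l387 (nat_lit 11267) (nat_lit 11) (nat_lit 7))
    (@En.i (nat_lit 11095) (nat_lit 15) (nat_lit 4))))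
  (@Cl.mk (nat_lit 0x40009000c0004000a000a0004000a0007000b00060006000c00060005000c) (nat_lit 0x380670503005008) (nat_lit 16) Lb.e (@T16.mk En
    (@En.n l36854 (nat_lit 6301) (nat_lit 0) (nat_lit 12))
    (@En.i (nat_lit 11410) (nat_lit 11) (nat_lit 5))
    (@En.n l6669 (nat_lit 10913) (nat_lit 5) (nat_lit 6))
    (@En.n l899 (nat_lit 8800) (nat_lit 1) (nat_lit 12))
    (@En.n l152 (nat_lit 12081) (nat_lit 10) (nat_lit 6))
    (@En.n l2669 (nat_lit 10641) (nat_lit 5) (nat_lit 6))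
    (@En.n l36855 (nat_lit 9218) (nat_lit 8) (nat_lit 11))
    (@En.n l430 (nat_lit 11177) (nat_lit 14) (nat_lit 7))
    (@En.n l36856 (nat_lit 11158) (nat_lit 12) (nat_lit 10))
    (@En.n l2125 (nat_lit 11094) (nat_lit 9) (nat_lit 4))
    (@En.n l36857 (nat_lit 11174) (nat_lit 6) (nat_lit 10))
    (@En.n l9182 (nat_lit 11100) (nat_lit 1) (nat_lit 10))
    (@En.n l17382 (nat_lit 11179) (nat_lit 15) (nat_lit 4))
    (@En.i (nat_lit 6589) (nat_lit 6) (nat_lit 12))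
    (@En.n l4130 (nat_lit 11121) (nat_lit 1) (nat_lit 9))
    (@En.n l36858 (nat_lit 12191) (nat_lit 5) (nat_lit 4))))
  (@Cl.mk (nat_lit 0x4000a000a0006000a0006000b00060006000b00060005000c000a0005000a) (nat_lit 0x180403004008605) (nat_lit 16) Lb.e (@T16.mk En
    (@En.n l33031 (nat_lit 12344) (nat_lit 0) (nat_lit 10))
    (@En.n l33032 (nat_lit 9862) (nat_lit 1) (nat_lit 5))
    (@En.n l33033 (nat_lit 11087) (nat_lit 0) (nat_lit 10))
    (@En.n l619 (nat_lit 7522) (nat_lit 1) (nat_lit 12))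
    (@En.n l33034 (nat_lit 11407) (nat_lit 11) (nat_lit 5))
    (@En.n l31513 (nat_lit 12093) (nat_lit 5) (nat_lit 6))
    (@En.n l33035 (nat_lit 9471) (nat_lit 9) (nat_lit 11))
    (@En.n l33036 (nat_lit 11409) (nat_lit 10) (nat_lit 6))
    (@En.i (nat_lit 11090) (nat_lit 8) (nat_lit 6))
    (@En.n l28368 (nat_lit 8952) (nat_lit 9) (nat_lit 11))
    (@En.n l33037 (nat_lit 9738) (nat_lit 1) (nat_lit 6))
    (@En.i (nat_lit 10967) (nat_lit 9) (nat_lit 10))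
    (@En.n l33038 (nat_lit 10278) (nat_lit 3) (nat_lit 6))
    (@En.n l33039 (nat_lit 11170) (nat_lit 6) (nat_lit 10))
    (@En.n l33040 (nat_lit 8013) (nat_lit 1) (nat_lit 10))
    (@En.n l33034 (nat_lit 9847) (nat_lit 15) (nat_lit 4))))
  (@Cl.mk (nat_lit 0x2000a00070006000c0009000c00060004000a000400090007000a000e0006) (nat_lit 0x600326006020360) (nat_lit 16) Lb.e (@T16.mk En
    (@En.n l31718 (nat_lit 9847) (nat_lit 8) (nat_lit 6))
    (@En.i (nat_lit 9061) (nat_lit 1) (nat_lit 14))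
    (@En.n l4757 (nat_lit 8195) (nat_lit 2) (nat_lit 10))
    (@En.n l28 (nat_lit 10969) (nat_lit 3) (nat_lit 7))
    (@En.n l37134 (nat_lit 10968) (nat_lit 4) (nat_lit 9))
    (@En.n l37135 (nat_lit 5169) (nat_lit 5) (nat_lit 4))
    (@En.n l1643 (nat_lit 11760) (nat_lit 0) (nat_lit 10))
    (@En.n l4757 (nat_lit 11174) (nat_lit 7) (nat_lit 4))
    (@En.n l37136 (nat_lit 9865) (nat_lit 8) (nat_lit 6))
    (@En.n l37137 (nat_lit 8035) (nat_lit 6) (nat_lit 12))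
    (@En.n l897 (nat_lit 10971) (nat_lit 11) (nat_lit 9))
    (@En.n l37138 (nat_lit 6251) (nat_lit 12) (nat_lit 12))
    (@En.n l37137 (nat_lit 11395) (nat_lit 13) (nat_lit 6))
    (@En.n l37139 (nat_lit 11485) (nat_lit 14) (nat_lit 7))
    (@En.n l37140 (nat_lit 8394) (nat_lit 7) (nat_lit 10))
    (@En.n l17 (nat_lit 11180) (nat_lit 15) (nat_lit 2))))
  (@Cl.mk (nat_lit 0x2000b000800080007000d0005000b0003000a0008000800050009000e0006) (nat_lit 0x535090505540120) (nat_lit 16) Lb.e (@T16.mk En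
    (@En.n l21204 (nat_lit 9862) (nat_lit 8) (nat_lit 6))
    (@En.n l21205 (nat_lit 9117) (nat_lit 1) (nat_lit 14))
    (@En.n l21206 (nat_lit 3292) (nat_lit 2) (nat_lit 9))
    (@En.n l21207 (nat_lit 11172) (nat_lit 3) (nat_lit 5))
    (@En.n l21208 (nat_lit 11186) (nat_lit 8) (nat_lit 8))
    (@En.i (nat_lit 10204) (nat_lit 5) (nat_lit 8))
    (@En.n l21209 (nat_lit 10419) (nat_lit 7) (nat_lit 10))
    (@En.n l117 (nat_lit 9865) (nat_lit 7) (nat_lit 3))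
    (@En.n l11722 (nat_lit 12546) (nat_lit 9) (nat_lit 11))
    (@En.n l21210 (nat_lit 10038) (nat_lit 9) (nat_lit 5))
    (@En.n l6582 (nat_lit 6380) (nat_lit 11) (nat_lit 13))
    (@En.i (nat_lit 11386) (nat_lit 12) (nat_lit 7))
    (@En.n l21211 (nat_lit 9864) (nat_lit 8) (nat_lit 8))
    (@En.i (nat_lit 5163) (nat_lit 14) (nat_lit 8))
    (@En.n l9910 (nat_lit 9453) (nat_lit 7) (nat_lit 11))
    (@En.n l50 (nat_lit 11181) (nat_lit 15) (nat_lit 2))))
  (@Cl.mk (nat_lit 0x2000b000900090007000a0005000b000900070007000600050009000e0007) (nat_lit 0x635010860000230) (nat_lit 16) Lb.e (@T16.mk En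
    (@En.n l16671 (nat_lit 9861) (nat_lit 6) (nat_lit 7))
    (@En.n l16672 (nat_lit 6381) (nat_lit 1) (nat_lit 14))
    (@En.n l16673 (nat_lit 9865) (nat_lit 2) (nat_lit 9))
    (@En.n l16674 (nat_lit 11181) (nat_lit 3) (nat_lit 5))
    (@En.n l16672 (nat_lit 10966) (nat_lit 4) (nat_lit 6))
    (@En.n l2726 (nat_lit 11183) (nat_lit 9) (nat_lit 7))
    (@En.i (nat_lit 10206) (nat_lit 6) (nat_lit 7))
    (@En.n l2727 (nat_lit 11204) (nat_lit 8) (nat_lit 9))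
    (@En.i (nat_lit 11654) (nat_lit 9) (nat_lit 11))
    (@En.n l16675 (nat_lit 5063) (nat_lit 9) (nat_lit 5))
    (@En.i (nat_lit 1534) (nat_lit 11) (nat_lit 10))
    (@En.n l16676 (nat_lit 11602) (nat_lit 12) (nat_lit 7))
    (@En.n l16677 (nat_lit 9863) (nat_lit 7) (nat_lit 9))
    (@En.n l16674 (nat_lit 5165) (nat_lit 14) (nat_lit 9))
    (@En.i (nat_lit 8821) (nat_lit 4) (nat_lit 11))
    (@En.n l3 (nat_lit 11182) (nat_lit 15) (nat_lit 2))))
  (@Cl.mk (nat_lit 0x20008000b0006000c000a0007000500040008000e00060002000a000e0009) (nat_lit 0x330960002b00734) (nat_lit 16) Lb.e (@T16.mk En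
    (@En.n l3298 (nat_lit 11182) (nat_lit 13) (nat_lit 9))
    (@En.n l21263 (nat_lit 3144) (nat_lit 1) (nat_lit 14))
    (@En.n l5560 (nat_lit 8828) (nat_lit 2) (nat_lit 10))
    (@En.n l17 (nat_lit 11183) (nat_lit 3) (nat_lit 2))
    (@En.n l21264 (nat_lit 11185) (nat_lit 4) (nat_lit 6))
    (@En.n l998 (nat_lit 6285) (nat_lit 6) (nat_lit 14))
    (@En.n l4172 (nat_lit 11184) (nat_lit 6) (nat_lit 8))
    (@En.n l21263 (nat_lit 11186) (nat_lit 7) (nat_lit 4))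
    (@En.i (nat_lit 7885) (nat_lit 8) (nat_lit 5))
    (@En.n l3298 (nat_lit 12158) (nat_lit 5) (nat_lit 7))
    (@En.n l2026 (nat_lit 11203) (nat_lit 11) (nat_lit 10))
    (@En.n l3298 (nat_lit 12550) (nat_lit 8) (nat_lit 12))
    (@En.n l4395 (nat_lit 5148) (nat_lit 13) (nat_lit 6))
    (@En.i (nat_lit 1928) (nat_lit 14) (nat_lit 11))
    (@En.n l998 (nat_lit 11603) (nat_lit 11) (nat_lit 8))
    (@En.n l107 (nat_lit 11183) (nat_lit 15) (nat_lit 2))))
noncomputable def a699 : T16 Cl := @T16.mk Cl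
  (@Cl.mk (nat_lit 0x20008000d000b00070003000b000800050008000e000500020009000e0008) (nat_lit 0x3a4007201b00634) (nat_lit 16) Lb.e (@T16.mk En
    (@En.n l33528 (nat_lit 9865) (nat_lit 13) (nat_lit 8))
    (@En.n l32650 (nat_lit 2991) (nat_lit 1) (nat_lit 14))
    (@En.n l9724 (nat_lit 9298) (nat_lit 2) (nat_lit 9))
    (@En.n l17 (nat_lit 11184) (nat_lit 3) (nat_lit 2))
    (@En.n l33529 (nat_lit 11187) (nat_lit 4) (nat_lit 5))
    (@En.n l998 (nat_lit 8231) (nat_lit 6) (nat_lit 14))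
    (@En.n l33530 (nat_lit 3289) (nat_lit 10) (nat_lit 8))
    (@En.i (nat_lit 7886) (nat_lit 7) (nat_lit 5))
    (@En.n l13378 (nat_lit 7597) (nat_lit 4) (nat_lit 8))
    (@En.n l9726 (nat_lit 11282) (nat_lit 10) (nat_lit 11))
    (@En.n l33531 (nat_lit 11186) (nat_lit 10) (nat_lit 3))
    (@En.n l24423 (nat_lit 5024) (nat_lit 7) (nat_lit 7))
    (@En.n l77 (nat_lit 11183) (nat_lit 13) (nat_lit 11))
    (@En.i (nat_lit 6283) (nat_lit 10) (nat_lit 13))
    (@En.n l998 (nat_lit 10977) (nat_lit 11) (nat_lit 8))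
    (@En.n l107 (nat_lit 11184) (nat_lit 15) (nat_lit 2))))
  (@Cl.mk (nat_lit 0x20007000a0006000b000a000a000800060005000900060006000a000e0008) (nat_lit 0x20947600200692) (nat_lit 16) Lb.e (@T16.mk En
    (@En.n l37058 (nat_lit 9861) (nat_lit 3) (nat_lit 8))
    (@En.i (nat_lit 3147) (nat_lit 1) (nat_lit 14))
    (@En.n l37059 (nat_lit 9362) (nat_lit 2) (nat_lit 10))
    (@En.n l37060 (nat_lit 11190) (nat_lit 3) (nat_lit 6))
    (@En.n l19704 (nat_lit 9615) (nat_lit 4) (nat_lit 6))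
    (@En.n l27754 (nat_lit 11187) (nat_lit 5) (nat_lit 9))
    (@En.i (nat_lit 11188) (nat_lit 6) (nat_lit 5))
    (@En.n l37059 (nat_lit 7874) (nat_lit 7) (nat_lit 6))
    (@En.n l19704 (nat_lit 10434) (nat_lit 9) (nat_lit 8))
    (@En.n l37061 (nat_lit 11183) (nat_lit 10) (nat_lit 10))
    (@En.n l37062 (nat_lit 11208) (nat_lit 11) (nat_lit 10))
    (@En.n l19704 (nat_lit 11338) (nat_lit 12) (nat_lit 11))
    (@En.n l10771 (nat_lit 5149) (nat_lit 13) (nat_lit 6))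
    (@En.n l37063 (nat_lit 1563) (nat_lit 8) (nat_lit 10))
    (@En.n l37059 (nat_lit 11606) (nat_lit 13) (nat_lit 7))
    (@En.n l17 (nat_lit 11185) (nat_lit 15) (nat_lit 2))))
  (@Cl.mk (nat_lit 0x20008000d0006000c0003000b000800040008000e00050002000a000e0008) (nat_lit 0x390305301a00534) (nat_lit 16) Lb.e (@T16.mk En
    (@En.n l7529 (nat_lit 11181) (nat_lit 13) (nat_lit 8))
    (@En.i (nat_lit 3140) (nat_lit 1) (nat_lit 14))
    (@En.n l7145 (nat_lit 9451) (nat_lit 2) (nat_lit 10))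
    (@En.n l50 (nat_lit 11186) (nat_lit 3) (nat_lit 2))
    (@En.n l7 (nat_lit 11188) (nat_lit 4) (nat_lit 5))
    (@En.n l1690 (nat_lit 8232) (nat_lit 6) (nat_lit 14))
    (@En.i (nat_lit 3288) (nat_lit 6) (nat_lit 8))
    (@En.n l21250 (nat_lit 11196) (nat_lit 7) (nat_lit 4))
    (@En.i (nat_lit 12157) (nat_lit 4) (nat_lit 8))
    (@En.i (nat_lit 11041) (nat_lit 10) (nat_lit 11))
    (@En.n l21250 (nat_lit 11184) (nat_lit 10) (nat_lit 3))
    (@En.i (nat_lit 12548) (nat_lit 8) (nat_lit 12))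
    (@En.n l10266 (nat_lit 10037) (nat_lit 13) (nat_lit 6))
    (@En.n l619 (nat_lit 6284) (nat_lit 10) (nat_lit 13))
    (@En.n l10584 (nat_lit 10981) (nat_lit 11) (nat_lit 8))
    (@En.n l17 (nat_lit 11186) (nat_lit 15) (nat_lit 2))))
  (@Cl.mk (nat_lit 0x20007000d000a00070003000b000b000900060009000500050009000e0007) (nat_lit 0x93005870100580) (nat_lit 16) Lb.e (@T16.mk En
    (@En.n l50 (nat_lit 9859) (nat_lit 5) (nat_lit 7))
    (@En.n l13533 (nat_lit 4471) (nat_lit 1) (nat_lit 14))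
    (@En.n l665 (nat_lit 9299) (nat_lit 2) (nat_lit 9))
    (@En.n l55 (nat_lit 11189) (nat_lit 3) (nat_lit 5))
    (@En.n l31271 (nat_lit 9619) (nat_lit 4) (nat_lit 5))
    (@En.i (nat_lit 3298) (nat_lit 5) (nat_lit 9))
    (@En.n l14556 (nat_lit 7877) (nat_lit 6) (nat_lit 6))
    (@En.n l134 (nat_lit 10431) (nat_lit 8) (nat_lit 9))
    (@En.n l31272 (nat_lit 11184) (nat_lit 9) (nat_lit 11))
    (@En.n l23319 (nat_lit 11280) (nat_lit 10) (nat_lit 11))
    (@En.n l13533 (nat_lit 11188) (nat_lit 10) (nat_lit 3))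
    (@En.n l1295 (nat_lit 3179) (nat_lit 12) (nat_lit 7))
    (@En.n l17935 (nat_lit 11185) (nat_lit 13) (nat_lit 10))
    (@En.n l18332 (nat_lit 6287) (nat_lit 14) (nat_lit 13))
    (@En.n l31273 (nat_lit 12211) (nat_lit 3) (nat_lit 7))
    (@En.n l18 (nat_lit 11187) (nat_lit 15) (nat_lit 2))))
  (@Cl.mk (nat_lit 0x20007000d0006000b0003000b000b00090005000900050005000a000e0007) (nat_lit 0x80305640100580) (nat_lit 16) Lb.e (@T16.mk En
    (@En.n l12788 (nat_lit 9862) (nat_lit 5) (nat_lit 7))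
    (@En.i (nat_lit 4472) (nat_lit 1) (nat_lit 14))
    (@En.n l34122 (nat_lit 9470) (nat_lit 2) (nat_lit 10))
    (@En.n l27959 (nat_lit 11191) (nat_lit 3) (nat_lit 5))
    (@En.i (nat_lit 9621) (nat_lit 4) (nat_lit 5))
    (@En.n l27754 (nat_lit 3291) (nat_lit 5) (nat_lit 9))
    (@En.n l15953 (nat_lit 11197) (nat_lit 6) (nat_lit 5))
    (@En.n l2337 (nat_lit 10429) (nat_lit 8) (nat_lit 9))
    (@En.n l601 (nat_lit 11186) (nat_lit 9) (nat_lit 11))
    (@En.n l18989 (nat_lit 11574) (nat_lit 10) (nat_lit 11))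
    (@En.n l34123 (nat_lit 11187) (nat_lit 10) (nat_lit 3))
    (@En.n l10674 (nat_lit 12549) (nat_lit 12) (nat_lit 11))
    (@En.i (nat_lit 10040) (nat_lit 13) (nat_lit 6))
    (@En.n l619 (nat_lit 6286) (nat_lit 14) (nat_lit 13))
    (@En.n l34124 (nat_lit 12212) (nat_lit 3) (nat_lit 7))
    (@En.n l17 (nat_lit 11188) (nat_lit 15) (nat_lit 2))))
  (@Cl.mk (nat_lit 0x20006000d000900070003000e000b0002000a0007000a00050009000e0006) (nat_lit 0x13001602010460) (nat_lit 16) Lb.e (@T16.mk En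
    (@En.n l50 (nat_lit 11193) (nat_lit 8) (nat_lit 6))
    (@En.n l13182 (nat_lit 4561) (nat_lit 10) (nat_lit 14))
    (@En.i (nat_lit 7335) (nat_lit 2) (nat_lit 9))
    (@En.i (nat_lit 9408) (nat_lit 3) (nat_lit 5))
    (@En.i (nat_lit 5121) (nat_lit 4) (nat_lit 10))
    (@En.n l14556 (nat_lit 5977) (nat_lit 5) (nat_lit 7))
    (@En.n l3348 (nat_lit 10028) (nat_lit 12) (nat_lit 10))
    (@En.n l28 (nat_lit 11189) (nat_lit 7) (nat_lit 2))
    (@En.i (nat_lit 11187) (nat_lit 9) (nat_lit 11))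
    (@En.n l947 (nat_lit 2020) (nat_lit 1) (nat_lit 14))
    (@En.n l117 (nat_lit 11191) (nat_lit 10) (nat_lit 3))
    (@En.n l1295 (nat_lit 5038) (nat_lit 12) (nat_lit 7))
    (@En.n l24163 (nat_lit 11190) (nat_lit 13) (nat_lit 9))
    (@En.n l11706 (nat_lit 4443) (nat_lit 6) (nat_lit 13))
    (@En.n l6081 (nat_lit 11595) (nat_lit 6) (nat_lit 6))
    (@En.n l18 (nat_lit 11189) (nat_lit 15) (nat_lit 2))))
  (@Cl.mk (nat_lit 0x2000600090006000a000e000a0002000900070006000a0006000a000e0007) (nat_lit 0x20815010020510) (nat_lit 16) Lb.e (@T16.mk En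
    (@En.n l33782 (nat_lit 11192) (nat_lit 7) (nat_lit 7))
    (@En.n l28977 (nat_lit 2120) (nat_lit 9) (nat_lit 14))
    (@En.n l33783 (nat_lit 7309) (nat_lit 2) (nat_lit 10))
    (@En.n l28977 (nat_lit 7954) (nat_lit 3) (nat_lit 6))
    (@En.n l33784 (nat_lit 11189) (nat_lit 4) (nat_lit 10))
    (@En.n l33784 (nat_lit 11191) (nat_lit 5) (nat_lit 6))
    (@En.i (nat_lit 5981) (nat_lit 6) (nat_lit 7))
    (@En.n l13717 (nat_lit 10023) (nat_lit 8) (nat_lit 9))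
    (@En.n l3 (nat_lit 11190) (nat_lit 8) (nat_lit 2))
    (@En.n l33785 (nat_lit 11185) (nat_lit 10) (nat_lit 10))
    (@En.i (nat_lit 2019) (nat_lit 11) (nat_lit 14))
    (@En.n l2759 (nat_lit 11355) (nat_lit 12) (nat_lit 10))
    (@En.n l5592 (nat_lit 5030) (nat_lit 13) (nat_lit 6))
    (@En.n l7058 (nat_lit 1900) (nat_lit 9) (nat_lit 9))
    (@En.i (nat_lit 11596) (nat_lit 5) (nat_lit 6))
    (@En.n l7 (nat_lit 11190) (nat_lit 15) (nat_lit 2))))
  (@Cl.mk (nat_lit 0x20006000d0006000a0003000e000b0002000a0006000a0005000a000e0006) (nat_lit 0x20602601020460) (nat_lit 16) Lb.e (@T16.mk En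
    (@En.n l50 (nat_lit 11194) (nat_lit 8) (nat_lit 6))
    (@En.n l11706 (nat_lit 4562) (nat_lit 10) (nat_lit 14))
    (@En.n l10573 (nat_lit 8314) (nat_lit 2) (nat_lit 10))
    (@En.n l11706 (nat_lit 7401) (nat_lit 3) (nat_lit 5))
    (@En.i (nat_lit 5122) (nat_lit 4) (nat_lit 10))
    (@En.n l13562 (nat_lit 11199) (nat_lit 14) (nat_lit 6))
    (@En.n l11361 (nat_lit 10032) (nat_lit 12) (nat_lit 10))
    (@En.n l28 (nat_lit 11191) (nat_lit 7) (nat_lit 2))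
    (@En.n l18332 (nat_lit 11188) (nat_lit 9) (nat_lit 11))
    (@En.n l17134 (nat_lit 12134) (nat_lit 1) (nat_lit 14))
    (@En.n l152 (nat_lit 11189) (nat_lit 10) (nat_lit 3))
    (@En.n l9875 (nat_lit 12552) (nat_lit 12) (nat_lit 10))
    (@En.n l18333 (nat_lit 11195) (nat_lit 13) (nat_lit 6))
    (@En.n l11709 (nat_lit 7682) (nat_lit 6) (nat_lit 13))
    (@En.n l3155 (nat_lit 11599) (nat_lit 6) (nat_lit 6))
    (@En.n l18 (nat_lit 11191) (nat_lit 15) (nat_lit 2))))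
  (@Cl.mk (nat_lit 0x20009000900080007000b0007000b000700070005000800050009000e0009) (nat_lit 0x725040600020715) (nat_lit 16) Lb.e (@T16.mk En
    (@En.i (nat_lit 9861) (nat_lit 13) (nat_lit 9))
    (@En.n l12062 (nat_lit 2025) (nat_lit 1) (nat_lit 14))
    (@En.n l35902 (nat_lit 11353) (nat_lit 2) (nat_lit 9))
    (@En.n l34373 (nat_lit 5031) (nat_lit 3) (nat_lit 5))
    (@En.n l20187 (nat_lit 1699) (nat_lit 4) (nat_lit 8))
    (@En.n l34855 (nat_lit 11590) (nat_lit 5) (nat_lit 5))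
    (@En.n l35903 (nat_lit 6458) (nat_lit 9) (nat_lit 7))
    (@En.i (nat_lit 6584) (nat_lit 7) (nat_lit 7))
    (@En.n l12062 (nat_lit 7334) (nat_lit 9) (nat_lit 11))
    (@En.n l35904 (nat_lit 7957) (nat_lit 10) (nat_lit 7))
    (@En.n l3 (nat_lit 11193) (nat_lit 11) (nat_lit 11))
    (@En.n l3 (nat_lit 11194) (nat_lit 12) (nat_lit 7))
    (@En.n l35905 (nat_lit 10965) (nat_lit 13) (nat_lit 8))
    (@En.n l35906 (nat_lit 11190) (nat_lit 7) (nat_lit 9))
    (@En.n l28414 (nat_lit 10722) (nat_lit 9) (nat_lit 9))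
    (@En.n l28 (nat_lit 11192) (nat_lit 15) (nat_lit 2))))
  (@Cl.mk (nat_lit 0x2000a000a0008000b0006000a000600060005000d000800060003000e000a) (nat_lit 0x735305000130076) (nat_lit 16) Lb.e (@T16.mk En
    (@En.i (nat_lit 9859) (nat_lit 14) (nat_lit 10))
    (@En.i (nat_lit 6939) (nat_lit 1) (nat_lit 14))
    (@En.n l117 (nat_lit 11194) (nat_lit 2) (nat_lit 3))
    (@En.n l6272 (nat_lit 3182) (nat_lit 3) (nat_lit 6))
    (@En.i (nat_lit 11192) (nat_lit 4) (nat_lit 8))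
    (@En.n l6080 (nat_lit 4442) (nat_lit 6) (nat_lit 13))
    (@En.n l22965 (nat_lit 11589) (nat_lit 6) (nat_lit 5))
    (@En.n l2172 (nat_lit 6459) (nat_lit 10) (nat_lit 6))
    (@En.i (nat_lit 6586) (nat_lit 8) (nat_lit 6))
    (@En.i (nat_lit 7333) (nat_lit 10) (nat_lit 10))
    (@En.n l10118 (nat_lit 9411) (nat_lit 11) (nat_lit 6))
    (@En.i (nat_lit 4820) (nat_lit 7) (nat_lit 11))
    (@En.n l742 (nat_lit 8560) (nat_lit 13) (nat_lit 8))
    (@En.n l396 (nat_lit 11189) (nat_lit 6) (nat_lit 10))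
    (@En.n l7 (nat_lit 10723) (nat_lit 12) (nat_lit 10))
    (@En.n l28 (nat_lit 11193) (nat_lit 15) (nat_lit 2))))
  (@Cl.mk (nat_lit 0x2000a000a0007000b0006000b000600060005000d000500090003000e000a) (nat_lit 0x720305000305076) (nat_lit 16) Lb.e (@T16.mk En
    (@En.n l8631 (nat_lit 9862) (nat_lit 14) (nat_lit 10))
    (@En.i (nat_lit 8017) (nat_lit 1) (nat_lit 14))
    (@En.n l152 (nat_lit 11193) (nat_lit 2) (nat_lit 3))
    (@En.n l23991 (nat_lit 11356) (nat_lit 3) (nat_lit 9))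
    (@En.n l97 (nat_lit 6462) (nat_lit 4) (nat_lit 5))
    (@En.n l25338 (nat_lit 6565) (nat_lit 6) (nat_lit 13))
    (@En.n l7430 (nat_lit 11588) (nat_lit 6) (nat_lit 5))
    (@En.n l33373 (nat_lit 6460) (nat_lit 10) (nat_lit 6))
    (@En.i (nat_lit 6588) (nat_lit 8) (nat_lit 6))
    (@En.i (nat_lit 7343) (nat_lit 10) (nat_lit 11))
    (@En.n l32059 (nat_lit 9583) (nat_lit 11) (nat_lit 6))
    (@En.i (nat_lit 4819) (nat_lit 12) (nat_lit 11))
    (@En.n l742 (nat_lit 11157) (nat_lit 13) (nat_lit 7))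
    (@En.n l396 (nat_lit 11191) (nat_lit 6) (nat_lit 10))
    (@En.n l7 (nat_lit 10724) (nat_lit 12) (nat_lit 10))
    (@En.n l28 (nat_lit 11194) (nat_lit 15) (nat_lit 2))))
  (@Cl.mk (nat_lit 0x200070006000a0007000e000b00020009000600090005000a0009000e0007) (nat_lit 0x3085070403570) (nat_lit 16) Lb.e (@T16.mk En
    (@En.n l15745 (nat_lit 6462) (nat_lit 7) (nat_lit 7))
    (@En.n l15746 (nat_lit 7973) (nat_lit 9) (nat_lit 14))
    (@En.n l15747 (nat_lit 11189) (nat_lit 2) (nat_lit 9))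
    (@En.n l15748 (nat_lit 8976) (nat_lit 3) (nat_lit 10))
    (@En.n l117 (nat_lit 9272) (nat_lit 4) (nat_lit 5))
    (@En.n l15747 (nat_lit 5125) (nat_lit 5) (nat_lit 9))
    (@En.i (nat_lit 7590) (nat_lit 14) (nat_lit 6))
    (@En.n l15749 (nat_lit 10491) (nat_lit 8) (nat_lit 9))
    (@En.n l3 (nat_lit 11195) (nat_lit 8) (nat_lit 2))
    (@En.n l15750 (nat_lit 10040) (nat_lit 10) (nat_lit 11))
    (@En.n l15751 (nat_lit 6503) (nat_lit 11) (nat_lit 14))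
    (@En.n l1723 (nat_lit 5037) (nat_lit 12) (nat_lit 7))
    (@En.n l207 (nat_lit 11630) (nat_lit 13) (nat_lit 10))
    (@En.i (nat_lit 11631) (nat_lit 14) (nat_lit 6))
    (@En.n l15752 (nat_lit 11621) (nat_lit 5) (nat_lit 7))
    (@En.n l50 (nat_lit 11195) (nat_lit 15) (nat_lit 2))))
  (@Cl.mk (nat_lit 0x20008000c0006000c00060004000c00040008000e00040002000a000e000a) (nat_lit 0x520800205500873) (nat_lit 16) Lb.e (@T16.mk En
    (@En.i (nat_lit 11148) (nat_lit 13) (nat_lit 10))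
    (@En.n l619 (nat_lit 7923) (nat_lit 1) (nat_lit 14))
    (@En.n l2039 (nat_lit 9366) (nat_lit 2) (nat_lit 10))
    (@En.n l17 (nat_lit 11196) (nat_lit 3) (nat_lit 2))
    (@En.n l13375 (nat_lit 11197) (nat_lit 4) (nat_lit 4))
    (@En.n l998 (nat_lit 5937) (nat_lit 6) (nat_lit 14))
    (@En.n l4172 (nat_lit 6062) (nat_lit 6) (nat_lit 8))
    (@En.i (nat_lit 11183) (nat_lit 7) (nat_lit 4))
    (@En.n l29208 (nat_lit 11040) (nat_lit 9) (nat_lit 12))
    (@En.i (nat_lit 7876) (nat_lit 9) (nat_lit 4))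
    (@En.i (nat_lit 10264) (nat_lit 6) (nat_lit 6))
    (@En.n l3303 (nat_lit 4038) (nat_lit 8) (nat_lit 12))
    (@En.n l4395 (nat_lit 7506) (nat_lit 13) (nat_lit 6))
    (@En.i (nat_lit 2193) (nat_lit 10) (nat_lit 12))
    (@En.n l998 (nat_lit 12812) (nat_lit 11) (nat_lit 8))
    (@En.n l107 (nat_lit 11196) (nat_lit 15) (nat_lit 2))))
  (@Cl.mk (nat_lit 0x20007000c0006000b00060004000c000c0005000900040004000a000e000a) (nat_lit 0x209003304008b4) (nat_lit 16) Lb.e (@T16.mk En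
    (@En.n l28131 (nat_lit 11198) (nat_lit 12) (nat_lit 10))
    (@En.n l6448 (nat_lit 7927) (nat_lit 1) (nat_lit 14))
    (@En.n l899 (nat_lit 7575) (nat_lit 2) (nat_lit 10))
    (@En.n l152 (nat_lit 11199) (nat_lit 12) (nat_lit 4))
    (@En.n l3851 (nat_lit 11203) (nat_lit 4) (nat_lit 4))
    (@En.n l617 (nat_lit 6064) (nat_lit 5) (nat_lit 9))
    (@En.n l2125 (nat_lit 11207) (nat_lit 6) (nat_lit 5))
    (@En.n l13561 (nat_lit 11196) (nat_lit 8) (nat_lit 12))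
    (@En.n l28132 (nat_lit 11039) (nat_lit 9) (nat_lit 12))
    (@En.i (nat_lit 7873) (nat_lit 9) (nat_lit 4))
    (@En.n l5748 (nat_lit 10267) (nat_lit 11) (nat_lit 6))
    (@En.n l28133 (nat_lit 12650) (nat_lit 12) (nat_lit 11))
    (@En.n l5592 (nat_lit 7511) (nat_lit 13) (nat_lit 6))
    (@En.n l2213 (nat_lit 2190) (nat_lit 14) (nat_lit 12))
    (@En.i (nat_lit 11778) (nat_lit 13) (nat_lit 7))
    (@En.n l7 (nat_lit 11197) (nat_lit 15) (nat_lit 2))))
  (@Cl.mk (nat_lit 0x40004000b000a000a0006000b0005000a000600060005000c000c0006000a) (nat_lit 0x93601010004508) (nat_lit 16) Lb.e (@T16.mk En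
    (@En.i (nat_lit 6139) (nat_lit 0) (nat_lit 10))
    (@En.n l27534 (nat_lit 11209) (nat_lit 1) (nat_lit 6))
    (@En.n l27535 (nat_lit 11148) (nat_lit 4) (nat_lit 12))
    (@En.n l27536 (nat_lit 10285) (nat_lit 3) (nat_lit 12))
    (@En.n l27537 (nat_lit 11151) (nat_lit 11) (nat_lit 5))
    (@En.n l27538 (nat_lit 11197) (nat_lit 10) (nat_lit 6))
    (@En.n l18068 (nat_lit 10337) (nat_lit 6) (nat_lit 6))
    (@En.n l27539 (nat_lit 22) (nat_lit 2) (nat_lit 10))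
    (@En.n l9881 (nat_lit 7510) (nat_lit 8) (nat_lit 5))
    (@En.n l27540 (nat_lit 2224) (nat_lit 9) (nat_lit 11))
    (@En.n l27541 (nat_lit 10857) (nat_lit 1) (nat_lit 6))
    (@En.n l217 (nat_lit 11267) (nat_lit 6) (nat_lit 10))
    (@En.n l14326 (nat_lit 11210) (nat_lit 6) (nat_lit 10))
    (@En.n l27542 (nat_lit 7574) (nat_lit 14) (nat_lit 11))
    (@En.n l27543 (nat_lit 11200) (nat_lit 12) (nat_lit 4))
    (@En.n l27544 (nat_lit 11204) (nat_lit 0) (nat_lit 4))))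
  (@Cl.mk (nat_lit 0x20006000a0004000a000e000a00020006000c0006000a00060004000e000c) (nat_lit 0x80843001010034) (nat_lit 16) Lb.e (@T16.mk En
    (@En.i (nat_lit 11197) (nat_lit 8) (nat_lit 12))
    (@En.n l8135 (nat_lit 11029) (nat_lit 9) (nat_lit 14))
    (@En.i (nat_lit 5983) (nat_lit 2) (nat_lit 4))
    (@En.n l5351 (nat_lit 10332) (nat_lit 3) (nat_lit 6))
    (@En.n l885 (nat_lit 7) (nat_lit 4) (nat_lit 10))
    (@En.n l5592 (nat_lit 7590) (nat_lit 5) (nat_lit 6))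
    (@En.n l4172 (nat_lit 881) (nat_lit 7) (nat_lit 12))
    (@En.i (nat_lit 12262) (nat_lit 7) (nat_lit 6))
    (@En.n l7 (nat_lit 11199) (nat_lit 8) (nat_lit 2))
    (@En.n l3038 (nat_lit 11200) (nat_lit 10) (nat_lit 10))
    (@En.n l134 (nat_lit 11221) (nat_lit 11) (nat_lit 14))
    (@En.i (nat_lit 6291) (nat_lit 2) (nat_lit 10))
    (@En.n l117 (nat_lit 11201) (nat_lit 3) (nat_lit 4))
    (@En.n l617 (nat_lit 6070) (nat_lit 4) (nat_lit 10))
    (@En.i (nat_lit 11264) (nat_lit 5) (nat_lit 6))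
    (@En.n l3 (nat_lit 11199) (nat_lit 15) (nat_lit 2))))
noncomputable def a700 : T16 Cl := @T16.mk Cl
  (@Cl.mk (nat_lit 0x20007000b0004000b000a000a0005000b00050009000600060005000e000c) (nat_lit 0x70922010600045) (nat_lit 16) Lb.e (@T16.mk En
    (@En.n l28216 (nat_lit 11198) (nat_lit 3) (nat_lit 12))
    (@En.n l28217 (nat_lit 7986) (nat_lit 1) (nat_lit 14))
    (@En.i (nat_lit 11217) (nat_lit 2) (nat_lit 5))
    (@En.n l11512 (nat_lit 11199) (nat_lit 3) (nat_lit 6))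
    (@En.n l16998 (nat_lit 10334) (nat_lit 4) (nat_lit 6))
    (@En.n l28218 (nat_lit 12650) (nat_lit 5) (nat_lit 9))
    (@En.n l22543 (nat_lit 7591) (nat_lit 6) (nat_lit 5))
    (@En.n l22542 (nat_lit 885) (nat_lit 8) (nat_lit 11))
    (@En.n l5934 (nat_lit 10530) (nat_lit 8) (nat_lit 5))
    (@En.n l22544 (nat_lit 11266) (nat_lit 6) (nat_lit 10))
    (@En.n l8566 (nat_lit 11211) (nat_lit 11) (nat_lit 10))
    (@En.n l28219 (nat_lit 5912) (nat_lit 12) (nat_lit 11))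
    (@En.n l28220 (nat_lit 11202) (nat_lit 13) (nat_lit 4))
    (@En.n l28216 (nat_lit 6173) (nat_lit 14) (nat_lit 11))
    (@En.i (nat_lit 11261) (nat_lit 1) (nat_lit 7))
    (@En.n l3 (nat_lit 11200) (nat_lit 15) (nat_lit 2))))
  (@Cl.mk (nat_lit 0x20008000c0006000900060004000d000c0008000300070004000a000e000a) (nat_lit 0x3203006420008a5) (nat_lit 16) Lb.e (@T16.mk En
    (@En.n l14422 (nat_lit 11202) (nat_lit 11) (nat_lit 10))
    (@En.n l18829 (nat_lit 11251) (nat_lit 1) (nat_lit 14))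
    (@En.n l899 (nat_lit 11207) (nat_lit 2) (nat_lit 10))
    (@En.i (nat_lit 11197) (nat_lit 3) (nat_lit 4))
    (@En.n l1897 (nat_lit 11265) (nat_lit 4) (nat_lit 7))
    (@En.n l1865 (nat_lit 11205) (nat_lit 5) (nat_lit 3))
    (@En.n l97 (nat_lit 8175) (nat_lit 0) (nat_lit 8))
    (@En.n l3866 (nat_lit 11203) (nat_lit 8) (nat_lit 12))
    (@En.n l18716 (nat_lit 11577) (nat_lit 9) (nat_lit 13))
    (@En.i (nat_lit 7863) (nat_lit 9) (nat_lit 4))
    (@En.n l28143 (nat_lit 10828) (nat_lit 11) (nat_lit 6))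
    (@En.n l14422 (nat_lit 6375) (nat_lit 12) (nat_lit 9))
    (@En.n l5592 (nat_lit 5179) (nat_lit 13) (nat_lit 6))
    (@En.n l649 (nat_lit 2148) (nat_lit 14) (nat_lit 12))
    (@En.i (nat_lit 10639) (nat_lit 9) (nat_lit 8))
    (@En.n l7 (nat_lit 11201) (nat_lit 15) (nat_lit 2))))
  (@Cl.mk (nat_lit 0x300080004000b000a000a0007000b00050008000600060005000d000c0009) (nat_lit 0x309420103000755) (nat_lit 16) Lb.e (@T16.mk En
    (@En.n l33968 (nat_lit 8178) (nat_lit 0) (nat_lit 9))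
    (@En.i (nat_lit 11204) (nat_lit 4) (nat_lit 12))
    (@En.n l2312 (nat_lit 11582) (nat_lit 2) (nat_lit 13))
    (@En.n l33969 (nat_lit 11762) (nat_lit 11) (nat_lit 5))
    (@En.n l33970 (nat_lit 11201) (nat_lit 10) (nat_lit 6))
    (@En.n l14812 (nat_lit 12059) (nat_lit 5) (nat_lit 6))
    (@En.i (nat_lit 9246) (nat_lit 10) (nat_lit 8))
    (@En.n l27816 (nat_lit 1308) (nat_lit 7) (nat_lit 5))
    (@En.i (nat_lit 2146) (nat_lit 8) (nat_lit 11))
    (@En.n l33971 (nat_lit 10644) (nat_lit 1) (nat_lit 7))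
    (@En.n l33972 (nat_lit 9892) (nat_lit 6) (nat_lit 10))
    (@En.n l18420 (nat_lit 10369) (nat_lit 6) (nat_lit 10))
    (@En.n l27843 (nat_lit 11209) (nat_lit 13) (nat_lit 11))
    (@En.n l33973 (nat_lit 11198) (nat_lit 14) (nat_lit 4))
    (@En.n l8011 (nat_lit 11262) (nat_lit 0) (nat_lit 8))
    (@En.n l50 (nat_lit 11206) (nat_lit 15) (nat_lit 3))))
  (@Cl.mk (nat_lit 0x20009000c0006000a00060004000c0007000d000600040003000a000e000a) (nat_lit 0x7205003030008b6) (nat_lit 16) Lb.e (@T16.mk En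
    (@En.n l15087 (nat_lit 11204) (nat_lit 13) (nat_lit 10))
    (@En.n l15088 (nat_lit 11249) (nat_lit 1) (nat_lit 14))
    (@En.n l6080 (nat_lit 10043) (nat_lit 2) (nat_lit 10))
    (@En.n l2101 (nat_lit 11205) (nat_lit 3) (nat_lit 3))
    (@En.n l2921 (nat_lit 11196) (nat_lit 4) (nat_lit 4))
    (@En.n l15089 (nat_lit 11208) (nat_lit 5) (nat_lit 6))
    (@En.i (nat_lit 5933) (nat_lit 7) (nat_lit 13))
    (@En.n l61 (nat_lit 11282) (nat_lit 7) (nat_lit 7))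
    (@En.n l15090 (nat_lit 11583) (nat_lit 9) (nat_lit 12))
    (@En.i (nat_lit 7870) (nat_lit 9) (nat_lit 4))
    (@En.n l15091 (nat_lit 10829) (nat_lit 6) (nat_lit 6))
    (@En.n l15087 (nat_lit 11165) (nat_lit 12) (nat_lit 10))
    (@En.n l15092 (nat_lit 5180) (nat_lit 13) (nat_lit 6))
    (@En.n l2921 (nat_lit 2186) (nat_lit 14) (nat_lit 12))
    (@En.n l15093 (nat_lit 10673) (nat_lit 11) (nat_lit 9))
    (@En.n l11 (nat_lit 11203) (nat_lit 15) (nat_lit 2))))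
  (@Cl.mk (nat_lit 0x3000b000a000a0008000b00050009000600060005000c0008000d00070004) (nat_lit 0x952610500044100) (nat_lit 16) Lb.e (@T16.mk En
    (@En.n l1945 (nat_lit 11148) (nat_lit 0) (nat_lit 4))
    (@En.n l5 (nat_lit 11278) (nat_lit 0) (nat_lit 7))
    (@En.n l13978 (nat_lit 5936) (nat_lit 1) (nat_lit 13))
    (@En.n l13979 (nat_lit 11276) (nat_lit 3) (nat_lit 8))
    (@En.n l13980 (nat_lit 10280) (nat_lit 3) (nat_lit 12))
    (@En.n l13981 (nat_lit 10541) (nat_lit 11) (nat_lit 5))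
    (@En.n l13982 (nat_lit 11203) (nat_lit 10) (nat_lit 6))
    (@En.n l13983 (nat_lit 12062) (nat_lit 7) (nat_lit 6))
    (@En.i (nat_lit 9247) (nat_lit 10) (nat_lit 9))
    (@En.n l13984 (nat_lit 5181) (nat_lit 9) (nat_lit 5))
    (@En.i (nat_lit 2223) (nat_lit 7) (nat_lit 11))
    (@En.n l13985 (nat_lit 10631) (nat_lit 12) (nat_lit 8))
    (@En.n l5865 (nat_lit 11269) (nat_lit 6) (nat_lit 10))
    (@En.n l13986 (nat_lit 10363) (nat_lit 6) (nat_lit 10))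
    (@En.n l13987 (nat_lit 10044) (nat_lit 14) (nat_lit 11))
    (@En.i (nat_lit 11206) (nat_lit 13) (nat_lit 3))))
  (@Cl.mk (nat_lit 0x20009000c0006000900060004000d0007000d000300070003000a000e000a) (nat_lit 0x5303006020008a6) (nat_lit 16) Lb.e (@T16.mk En
    (@En.n l3303 (nat_lit 11206) (nat_lit 11) (nat_lit 10))
    (@En.n l619 (nat_lit 11247) (nat_lit 1) (nat_lit 14))
    (@En.i (nat_lit 11208) (nat_lit 2) (nat_lit 10))
    (@En.n l3291 (nat_lit 11203) (nat_lit 3) (nat_lit 3))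
    (@En.n l3303 (nat_lit 2014) (nat_lit 4) (nat_lit 7))
    (@En.n l2869 (nat_lit 11201) (nat_lit 5) (nat_lit 3))
    (@En.n l25696 (nat_lit 5934) (nat_lit 7) (nat_lit 13))
    (@En.i (nat_lit 11281) (nat_lit 7) (nat_lit 7))
    (@En.i (nat_lit 11578) (nat_lit 9) (nat_lit 13))
    (@En.i (nat_lit 7865) (nat_lit 9) (nat_lit 4))
    (@En.n l20813 (nat_lit 10826) (nat_lit 6) (nat_lit 6))
    (@En.n l3303 (nat_lit 6371) (nat_lit 12) (nat_lit 9))
    (@En.n l29151 (nat_lit 5178) (nat_lit 13) (nat_lit 6))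
    (@En.i (nat_lit 2187) (nat_lit 14) (nat_lit 12))
    (@En.n l5996 (nat_lit 10655) (nat_lit 11) (nat_lit 9))
    (@En.n l107 (nat_lit 11205) (nat_lit 15) (nat_lit 2))))
  (@Cl.mk (nat_lit 0x300080003000b000a000a0008000b00050008000600060005000d0008000d) (nat_lit 0x209525103000741) (nat_lit 16) Lb.e (@T16.mk En
    (@En.n l3289 (nat_lit 5935) (nat_lit 0) (nat_lit 13))
    (@En.i (nat_lit 11275) (nat_lit 3) (nat_lit 8))
    (@En.n l2312 (nat_lit 11581) (nat_lit 2) (nat_lit 13))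
    (@En.n l11 (nat_lit 10548) (nat_lit 11) (nat_lit 5))
    (@En.n l5703 (nat_lit 11205) (nat_lit 10) (nat_lit 6))
    (@En.n l14812 (nat_lit 12058) (nat_lit 7) (nat_lit 6))
    (@En.i (nat_lit 9245) (nat_lit 10) (nat_lit 8))
    (@En.n l27816 (nat_lit 5177) (nat_lit 7) (nat_lit 5))
    (@En.i (nat_lit 2222) (nat_lit 7) (nat_lit 11))
    (@En.n l1947 (nat_lit 10629) (nat_lit 12) (nat_lit 8))
    (@En.n l230 (nat_lit 11271) (nat_lit 6) (nat_lit 10))
    (@En.n l27817 (nat_lit 10367) (nat_lit 6) (nat_lit 10))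
    (@En.i (nat_lit 11278) (nat_lit 13) (nat_lit 11))
    (@En.n l18 (nat_lit 11204) (nat_lit 15) (nat_lit 3))
    (@En.i (nat_lit 2024) (nat_lit 0) (nat_lit 8))
    (@En.i (nat_lit 11202) (nat_lit 15) (nat_lit 3))))
  (@Cl.mk (nat_lit 0x20007000b0006000b000900070005000d0005000900030007000a000e0009) (nat_lit 0x20740060400794) (nat_lit 16) Lb.e (@T16.mk En
    (@En.n l25139 (nat_lit 11209) (nat_lit 12) (nat_lit 9))
    (@En.n l16310 (nat_lit 7434) (nat_lit 1) (nat_lit 14))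
    (@En.i (nat_lit 11631) (nat_lit 2) (nat_lit 10))
    (@En.n l1081 (nat_lit 11263) (nat_lit 3) (nat_lit 7))
    (@En.n l711 (nat_lit 11208) (nat_lit 4) (nat_lit 3))
    (@En.n l3328 (nat_lit 8176) (nat_lit 0) (nat_lit 9))
    (@En.n l41058 (nat_lit 11185) (nat_lit 6) (nat_lit 5))
    (@En.n l15786 (nat_lit 11575) (nat_lit 8) (nat_lit 13))
    (@En.i (nat_lit 7869) (nat_lit 8) (nat_lit 5))
    (@En.n l3098 (nat_lit 10437) (nat_lit 10) (nat_lit 7))
    (@En.n l2642 (nat_lit 11201) (nat_lit 11) (nat_lit 9))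
    (@En.n l35673 (nat_lit 11291) (nat_lit 12) (nat_lit 11))
    (@En.n l1723 (nat_lit 1307) (nat_lit 13) (nat_lit 6))
    (@En.n l5798 (nat_lit 2140) (nat_lit 14) (nat_lit 11))
    (@En.i (nat_lit 10641) (nat_lit 10) (nat_lit 7))
    (@En.n l50 (nat_lit 11207) (nat_lit 15) (nat_lit 2))))
  (@Cl.mk (nat_lit 0x20008000b0006000a000900070005000d0008000600030007000a000e0009) (nat_lit 0x530340073000725) (nat_lit 16) Lb.e (@T16.mk En
    (@En.n l3303 (nat_lit 11278) (nat_lit 12) (nat_lit 9))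
    (@En.n l29308 (nat_lit 7433) (nat_lit 1) (nat_lit 14))
    (@En.n l2366 (nat_lit 11630) (nat_lit 2) (nat_lit 10))
    (@En.n l6031 (nat_lit 2013) (nat_lit 3) (nat_lit 7))
    (@En.n l2368 (nat_lit 11207) (nat_lit 4) (nat_lit 3))
    (@En.n l29309 (nat_lit 9908) (nat_lit 0) (nat_lit 6))
    (@En.n l29310 (nat_lit 11280) (nat_lit 6) (nat_lit 8))
    (@En.n l29311 (nat_lit 11576) (nat_lit 8) (nat_lit 13))
    (@En.i (nat_lit 7866) (nat_lit 8) (nat_lit 5))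
    (@En.n l29309 (nat_lit 10438) (nat_lit 10) (nat_lit 7))
    (@En.n l725 (nat_lit 11205) (nat_lit 11) (nat_lit 9))
    (@En.n l29309 (nat_lit 11285) (nat_lit 12) (nat_lit 10))
    (@En.n l13128 (nat_lit 5176) (nat_lit 13) (nat_lit 6))
    (@En.i (nat_lit 2194) (nat_lit 7) (nat_lit 11))
    (@En.n l5996 (nat_lit 10652) (nat_lit 10) (nat_lit 8))
    (@En.n l107 (nat_lit 11208) (nat_lit 15) (nat_lit 2))))
  (@Cl.mk (nat_lit 0x30008000b000900090006000a0005000a0008000700070006000d0006000a) (nat_lit 0x283101064000705) (nat_lit 16) Lb.e (@T16.mk En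
    (@En.n l20708 (nat_lit 8179) (nat_lit 0) (nat_lit 10))
    (@En.n l40635 (nat_lit 9861) (nat_lit 8) (nat_lit 6))
    (@En.n l40636 (nat_lit 11579) (nat_lit 2) (nat_lit 13))
    (@En.n l817 (nat_lit 11768) (nat_lit 10) (nat_lit 6))
    (@En.n l35093 (nat_lit 11207) (nat_lit 9) (nat_lit 7))
    (@En.n l40637 (nat_lit 12056) (nat_lit 9) (nat_lit 7))
    (@En.n l40638 (nat_lit 11202) (nat_lit 6) (nat_lit 8))
    (@En.n l40639 (nat_lit 9991) (nat_lit 8) (nat_lit 10))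
    (@En.n l40640 (nat_lit 1306) (nat_lit 8) (nat_lit 5))
    (@En.n l40637 (nat_lit 2143) (nat_lit 9) (nat_lit 10))
    (@En.n l5649 (nat_lit 10643) (nat_lit 11) (nat_lit 6))
    (@En.n l40641 (nat_lit 9893) (nat_lit 7) (nat_lit 9))
    (@En.n l40642 (nat_lit 12217) (nat_lit 13) (nat_lit 9))
    (@En.n l817 (nat_lit 6463) (nat_lit 7) (nat_lit 11))
    (@En.n l35229 (nat_lit 11260) (nat_lit 12) (nat_lit 8))
    (@En.n l40643 (nat_lit 11278) (nat_lit 15) (nat_lit 3))))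
  (@Cl.mk (nat_lit 0x300070006000c000c0007000b00040004000a00090005000a000d00090006) (nat_lit 0x8806002501870) (nat_lit 16) Lb.e (@T16.mk En
    (@En.n l40654 (nat_lit 11128) (nat_lit 0) (nat_lit 6))
    (@En.n l22708 (nat_lit 9738) (nat_lit 9) (nat_lit 9))
    (@En.n l8329 (nat_lit 7983) (nat_lit 5) (nat_lit 13))
    (@En.n l40655 (nat_lit 2239) (nat_lit 3) (nat_lit 10))
    (@En.n l35354 (nat_lit 10849) (nat_lit 4) (nat_lit 5))
    (@En.i (nat_lit 12151) (nat_lit 5) (nat_lit 9))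
    (@En.n l25099 (nat_lit 11109) (nat_lit 7) (nat_lit 10))
    (@En.n l18 (nat_lit 11211) (nat_lit 12) (nat_lit 4))
    (@En.n l40656 (nat_lit 10363) (nat_lit 8) (nat_lit 4))
    (@En.i (nat_lit 6182) (nat_lit 0) (nat_lit 11))
    (@En.n l40657 (nat_lit 12217) (nat_lit 1) (nat_lit 7))
    (@En.n l40658 (nat_lit 11147) (nat_lit 4) (nat_lit 12))
    (@En.n l3517 (nat_lit 11816) (nat_lit 13) (nat_lit 12))
    (@En.n l40659 (nat_lit 11111) (nat_lit 14) (nat_lit 6))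
    (@En.n l33071 (nat_lit 7933) (nat_lit 12) (nat_lit 7))
    (@En.n l27665 (nat_lit 11150) (nat_lit 15) (nat_lit 3))))
  (@Cl.mk (nat_lit 0x20008000c0004000a00090004000a000d00080006000300070006000e000c) (nat_lit 0x370110136000039) (nat_lit 16) Lb.e (@T16.mk En
    (@En.n l396 (nat_lit 11210) (nat_lit 12) (nat_lit 12))
    (@En.n l1690 (nat_lit 7101) (nat_lit 1) (nat_lit 14))
    (@En.n l19713 (nat_lit 11212) (nat_lit 2) (nat_lit 6))
    (@En.n l27662 (nat_lit 11219) (nat_lit 3) (nat_lit 7))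
    (@En.n l32122 (nat_lit 11213) (nat_lit 4) (nat_lit 3))
    (@En.n l9188 (nat_lit 10340) (nat_lit 0) (nat_lit 6))
    (@En.n l28161 (nat_lit 12078) (nat_lit 6) (nat_lit 8))
    (@En.n l5011 (nat_lit 7980) (nat_lit 8) (nat_lit 13))
    (@En.n l17556 (nat_lit 2405) (nat_lit 9) (nat_lit 10))
    (@En.n l27662 (nat_lit 10853) (nat_lit 9) (nat_lit 4))
    (@En.i (nat_lit 4289) (nat_lit 11) (nat_lit 9))
    (@En.n l7457 (nat_lit 7086) (nat_lit 12) (nat_lit 10))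
    (@En.n l28612 (nat_lit 10369) (nat_lit 7) (nat_lit 4))
    (@En.i (nat_lit 4292) (nat_lit 14) (nat_lit 12))
    (@En.n l27662 (nat_lit 10511) (nat_lit 1) (nat_lit 8))
    (@En.n l50 (nat_lit 11211) (nat_lit 15) (nat_lit 2))))
  (@Cl.mk (nat_lit 0x20007000c00040009000d0004000a0003000d0009000700030006000e000c) (nat_lit 0x60130304700099) (nat_lit 16) Lb.e (@T16.mk En
    (@En.i (nat_lit 11111) (nat_lit 13) (nat_lit 12))
    (@En.n l2125 (nat_lit 9579) (nat_lit 1) (nat_lit 14))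
    (@En.i (nat_lit 8004) (nat_lit 2) (nat_lit 6))
    (@En.n l1865 (nat_lit 11214) (nat_lit 3) (nat_lit 3))
    (@En.n l4758 (nat_lit 10339) (nat_lit 0) (nat_lit 7))
    (@En.n l649 (nat_lit 8003) (nat_lit 5) (nat_lit 9))
    (@En.n l12731 (nat_lit 11211) (nat_lit 7) (nat_lit 13))
    (@En.i (nat_lit 11215) (nat_lit 7) (nat_lit 3))
    (@En.i (nat_lit 2407) (nat_lit 9) (nat_lit 10))
    (@En.i (nat_lit 10855) (nat_lit 9) (nat_lit 4))
    (@En.n l649 (nat_lit 6973) (nat_lit 11) (nat_lit 13))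
    (@En.n l2038 (nat_lit 7083) (nat_lit 12) (nat_lit 9))
    (@En.n l3528 (nat_lit 11764) (nat_lit 8) (nat_lit 4))
    (@En.n l476 (nat_lit 6180) (nat_lit 14) (nat_lit 12))
    (@En.i (nat_lit 10513) (nat_lit 1) (nat_lit 7))
    (@En.n l28 (nat_lit 11212) (nat_lit 15) (nat_lit 2))))
  (@Cl.mk (nat_lit 0x20007000c0004000b00090004000a000d00050009000300070006000e000c) (nat_lit 0x10910140700099) (nat_lit 16) Lb.e (@T16.mk En
    (@En.i (nat_lit 11150) (nat_lit 12) (nat_lit 12))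
    (@En.i (nat_lit 7097) (nat_lit 1) (nat_lit 14))
    (@En.n l7 (nat_lit 11214) (nat_lit 2) (nat_lit 6))
    (@En.n l644 (nat_lit 11217) (nat_lit 3) (nat_lit 7))
    (@En.n l6840 (nat_lit 11211) (nat_lit 4) (nat_lit 3))
    (@En.i (nat_lit 12752) (nat_lit 0) (nat_lit 9))
    (@En.n l7 (nat_lit 11200) (nat_lit 6) (nat_lit 5))
    (@En.n l5838 (nat_lit 7979) (nat_lit 8) (nat_lit 13))
    (@En.i (nat_lit 887) (nat_lit 9) (nat_lit 10))
    (@En.i (nat_lit 10854) (nat_lit 9) (nat_lit 4))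
    (@En.n l396 (nat_lit 4291) (nat_lit 11) (nat_lit 9))
    (@En.n l7882 (nat_lit 6304) (nat_lit 12) (nat_lit 11))
    (@En.n l117 (nat_lit 11763) (nat_lit 7) (nat_lit 4))
    (@En.n l6508 (nat_lit 6174) (nat_lit 14) (nat_lit 12))
    (@En.i (nat_lit 6126) (nat_lit 1) (nat_lit 7))
    (@En.n l3 (nat_lit 11213) (nat_lit 15) (nat_lit 2))))
  (@Cl.mk (nat_lit 0x20006000c0004000a000d0004000a0003000d0006000a00030006000e000c) (nat_lit 0x10870105070099) (nat_lit 16) Lb.e (@T16.mk En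
    (@En.i (nat_lit 11149) (nat_lit 13) (nat_lit 12))
    (@En.i (nat_lit 9581) (nat_lit 1) (nat_lit 14))
    (@En.i (nat_lit 5984) (nat_lit 2) (nat_lit 6))
    (@En.n l2869 (nat_lit 11212) (nat_lit 3) (nat_lit 3))
    (@En.i (nat_lit 12753) (nat_lit 0) (nat_lit 10))
    (@En.i (nat_lit 11217) (nat_lit 5) (nat_lit 6))
    (@En.i (nat_lit 11213) (nat_lit 7) (nat_lit 13))
    (@En.i (nat_lit 11216) (nat_lit 7) (nat_lit 3))
    (@En.i (nat_lit 884) (nat_lit 9) (nat_lit 10))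
    (@En.i (nat_lit 10856) (nat_lit 9) (nat_lit 4))
    (@En.i (nat_lit 6977) (nat_lit 11) (nat_lit 13))
    (@En.i (nat_lit 6302) (nat_lit 12) (nat_lit 10))
    (@En.n l117 (nat_lit 11761) (nat_lit 8) (nat_lit 4))
    (@En.n l725 (nat_lit 6176) (nat_lit 14) (nat_lit 12))
    (@En.i (nat_lit 6122) (nat_lit 1) (nat_lit 6))
    (@En.n l3 (nat_lit 11214) (nat_lit 15) (nat_lit 2))))
  (@Cl.mk (nat_lit 0x20007000b00040009000d000900050003000d0009000700030007000e000c) (nat_lit 0x30142004700098) (nat_lit 16) Lb.e (@T16.mk En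
    (@En.n l28926 (nat_lit 11110) (nat_lit 13) (nat_lit 12))
    (@En.n l5801 (nat_lit 9417) (nat_lit 1) (nat_lit 14))
    (@En.i (nat_lit 7675) (nat_lit 2) (nat_lit 7))
    (@En.n l1865 (nat_lit 11216) (nat_lit 3) (nat_lit 3))
    (@En.n l4758 (nat_lit 10341) (nat_lit 0) (nat_lit 7))
    (@En.n l649 (nat_lit 8001) (nat_lit 5) (nat_lit 9))
    (@En.n l1110 (nat_lit 7106) (nat_lit 7) (nat_lit 13))
    (@En.n l18 (nat_lit 11212) (nat_lit 7) (nat_lit 3))
    (@En.n l17134 (nat_lit 6965) (nat_lit 8) (nat_lit 5))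
    (@En.n l4813 (nat_lit 11211) (nat_lit 10) (nat_lit 9))
    (@En.n l649 (nat_lit 6976) (nat_lit 11) (nat_lit 13))
    (@En.n l2038 (nat_lit 7082) (nat_lit 12) (nat_lit 9))
    (@En.n l3528 (nat_lit 11770) (nat_lit 8) (nat_lit 4))
    (@En.n l4813 (nat_lit 4350) (nat_lit 14) (nat_lit 11))
    (@En.i (nat_lit 10053) (nat_lit 1) (nat_lit 7))
    (@En.n l28 (nat_lit 11215) (nat_lit 15) (nat_lit 2))))
noncomputable def a701 : T16 Cl := @T16.mk Cl
  (@Cl.mk (nat_lit 0x20006000b0004000a000d000900050003000d0006000a00030007000e000c) (nat_lit 0x50882005070098) (nat_lit 16) Lb.e (@T16.mk En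
    (@En.n l345 (nat_lit 11152) (nat_lit 13) (nat_lit 12))
    (@En.n l9102 (nat_lit 9416) (nat_lit 1) (nat_lit 14))
    (@En.i (nat_lit 12465) (nat_lit 2) (nat_lit 7))
    (@En.n l2869 (nat_lit 11215) (nat_lit 3) (nat_lit 3))
    (@En.i (nat_lit 12754) (nat_lit 4) (nat_lit 10))
    (@En.n l11512 (nat_lit 11218) (nat_lit 5) (nat_lit 6))
    (@En.n l4270 (nat_lit 7985) (nat_lit 7) (nat_lit 13))
    (@En.n l28 (nat_lit 11214) (nat_lit 7) (nat_lit 3))
    (@En.n l1393 (nat_lit 6958) (nat_lit 8) (nat_lit 5))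
    (@En.n l77 (nat_lit 11213) (nat_lit 10) (nat_lit 9))
    (@En.i (nat_lit 6978) (nat_lit 11) (nat_lit 13))
    (@En.n l3815 (nat_lit 6303) (nat_lit 12) (nat_lit 10))
    (@En.n l117 (nat_lit 11765) (nat_lit 13) (nat_lit 4))
    (@En.n l725 (nat_lit 4351) (nat_lit 14) (nat_lit 11))
    (@En.i (nat_lit 6146) (nat_lit 1) (nat_lit 6))
    (@En.n l3 (nat_lit 11216) (nat_lit 15) (nat_lit 2))))
  (@Cl.mk (nat_lit 0x20006000b0004000a0009000d0005000b00030006000a00070005000e000c) (nat_lit 0x10828010070098) (nat_lit 16) Lb.e (@T16.mk En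
    (@En.i (nat_lit 11151) (nat_lit 10) (nat_lit 12))
    (@En.i (nat_lit 9582) (nat_lit 1) (nat_lit 14))
    (@En.n l5934 (nat_lit 5980) (nat_lit 2) (nat_lit 5))
    (@En.n l2912 (nat_lit 10335) (nat_lit 3) (nat_lit 7))
    (@En.n l622 (nat_lit 11166) (nat_lit 4) (nat_lit 10))
    (@En.n l14973 (nat_lit 11199) (nat_lit 5) (nat_lit 6))
    (@En.n l11512 (nat_lit 11218) (nat_lit 6) (nat_lit 3))
    (@En.i (nat_lit 882) (nat_lit 0) (nat_lit 11))
    (@En.i (nat_lit 12265) (nat_lit 8) (nat_lit 5))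
    (@En.n l50 (nat_lit 11214) (nat_lit 10) (nat_lit 13))
    (@En.n l2579 (nat_lit 11212) (nat_lit 11) (nat_lit 9))
    (@En.i (nat_lit 6307) (nat_lit 12) (nat_lit 10))
    (@En.n l117 (nat_lit 11762) (nat_lit 5) (nat_lit 4))
    (@En.n l725 (nat_lit 6175) (nat_lit 14) (nat_lit 11))
    (@En.i (nat_lit 6120) (nat_lit 7) (nat_lit 6))
    (@En.n l3 (nat_lit 11217) (nat_lit 15) (nat_lit 2))))
  (@Cl.mk (nat_lit 0x20006000a0004000a0009000d000a000600030006000a00070006000e000c) (nat_lit 0x30829300070067) (nat_lit 16) Lb.e (@T16.mk En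
    (@En.n l6388 (nat_lit 11153) (nat_lit 10) (nat_lit 12))
    (@En.n l31224 (nat_lit 9415) (nat_lit 1) (nat_lit 14))
    (@En.i (nat_lit 12464) (nat_lit 2) (nat_lit 6))
    (@En.n l31225 (nat_lit 10336) (nat_lit 3) (nat_lit 7))
    (@En.n l31226 (nat_lit 11167) (nat_lit 4) (nat_lit 10))
    (@En.n l5592 (nat_lit 7587) (nat_lit 5) (nat_lit 6))
    (@En.n l31227 (nat_lit 11217) (nat_lit 6) (nat_lit 3))
    (@En.n l1461 (nat_lit 6957) (nat_lit 0) (nat_lit 6))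
    (@En.n l7479 (nat_lit 11200) (nat_lit 9) (nat_lit 10))
    (@En.n l3039 (nat_lit 11216) (nat_lit 10) (nat_lit 13))
    (@En.n l7477 (nat_lit 11215) (nat_lit 11) (nat_lit 9))
    (@En.n l24174 (nat_lit 4429) (nat_lit 12) (nat_lit 10))
    (@En.n l16259 (nat_lit 11767) (nat_lit 5) (nat_lit 4))
    (@En.n l5559 (nat_lit 4195) (nat_lit 14) (nat_lit 10))
    (@En.i (nat_lit 6149) (nat_lit 7) (nat_lit 6))
    (@En.n l3 (nat_lit 11218) (nat_lit 15) (nat_lit 2))))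
  (@Cl.mk (nat_lit 0x20007000b000400090009000d0005000b00030009000700070005000e000c) (nat_lit 0x10654020600037) (nat_lit 16) Lb.e (@T16.mk En
    (@En.n l30597 (nat_lit 7933) (nat_lit 10) (nat_lit 12))
    (@En.n l2125 (nat_lit 4548) (nat_lit 1) (nat_lit 14))
    (@En.n l30598 (nat_lit 7674) (nat_lit 2) (nat_lit 5))
    (@En.n l9878 (nat_lit 11221) (nat_lit 3) (nat_lit 7))
    (@En.n l4758 (nat_lit 10238) (nat_lit 4) (nat_lit 7))
    (@En.n l30599 (nat_lit 11555) (nat_lit 5) (nat_lit 9))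
    (@En.n l9875 (nat_lit 11220) (nat_lit 6) (nat_lit 3))
    (@En.n l18041 (nat_lit 3033) (nat_lit 8) (nat_lit 11))
    (@En.i (nat_lit 11223) (nat_lit 8) (nat_lit 5))
    (@En.i (nat_lit 11212) (nat_lit 10) (nat_lit 13))
    (@En.n l11401 (nat_lit 11230) (nat_lit 7) (nat_lit 9))
    (@En.n l2038 (nat_lit 10880) (nat_lit 12) (nat_lit 9))
    (@En.n l3528 (nat_lit 11243) (nat_lit 13) (nat_lit 4))
    (@En.n l16218 (nat_lit 3635) (nat_lit 14) (nat_lit 11))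
    (@En.i (nat_lit 10516) (nat_lit 1) (nat_lit 7))
    (@En.n l28 (nat_lit 11219) (nat_lit 15) (nat_lit 2))))
  (@Cl.mk (nat_lit 0x20007000a000400090009000d000a000600030009000700070006000e000c) (nat_lit 0x10455700500081) (nat_lit 16) Lb.e (@T16.mk En
    (@En.n l4542 (nat_lit 7932) (nat_lit 10) (nat_lit 12))
    (@En.n l29026 (nat_lit 4547) (nat_lit 1) (nat_lit 14))
    (@En.n l4543 (nat_lit 7672) (nat_lit 2) (nat_lit 6))
    (@En.n l55 (nat_lit 11222) (nat_lit 3) (nat_lit 7))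
    (@En.n l4543 (nat_lit 10239) (nat_lit 4) (nat_lit 7))
    (@En.n l29027 (nat_lit 11223) (nat_lit 5) (nat_lit 9))
    (@En.n l20100 (nat_lit 11219) (nat_lit 6) (nat_lit 3))
    (@En.n l25414 (nat_lit 4761) (nat_lit 7) (nat_lit 6))
    (@En.n l217 (nat_lit 5856) (nat_lit 9) (nat_lit 10))
    (@En.n l7477 (nat_lit 11215) (nat_lit 10) (nat_lit 13))
    (@En.n l29028 (nat_lit 11228) (nat_lit 7) (nat_lit 9))
    (@En.n l13484 (nat_lit 10879) (nat_lit 12) (nat_lit 9))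
    (@En.n l29029 (nat_lit 10466) (nat_lit 13) (nat_lit 4))
    (@En.n l22481 (nat_lit 3988) (nat_lit 8) (nat_lit 10))
    (@En.i (nat_lit 10519) (nat_lit 1) (nat_lit 7))
    (@En.n l3 (nat_lit 11220) (nat_lit 15) (nat_lit 2))))
  (@Cl.mk (nat_lit 0x20006000a0004000e00090002000d0006000c0003000a00070004000e000c) (nat_lit 0x10370903050026) (nat_lit 16) Lb.e (@T16.mk En
    (@En.n l18466 (nat_lit 7927) (nat_lit 7) (nat_lit 12))
    (@En.n l11960 (nat_lit 4550) (nat_lit 1) (nat_lit 14))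
    (@En.i (nat_lit 7478) (nat_lit 2) (nat_lit 4))
    (@En.n l9138 (nat_lit 10234) (nat_lit 3) (nat_lit 7))
    (@En.n l217 (nat_lit 12562) (nat_lit 11) (nat_lit 10))
    (@En.i (nat_lit 11222) (nat_lit 5) (nat_lit 3))
    (@En.n l18467 (nat_lit 3704) (nat_lit 7) (nat_lit 12))
    (@En.n l564 (nat_lit 12509) (nat_lit 7) (nat_lit 6))
    (@En.n l7479 (nat_lit 11217) (nat_lit 9) (nat_lit 13))
    (@En.n l28 (nat_lit 11221) (nat_lit 9) (nat_lit 2))
    (@En.n l7477 (nat_lit 11219) (nat_lit 11) (nat_lit 9))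
    (@En.i (nat_lit 8177) (nat_lit 12) (nat_lit 14))
    (@En.n l18468 (nat_lit 11251) (nat_lit 2) (nat_lit 4))
    (@En.n l9136 (nat_lit 4668) (nat_lit 14) (nat_lit 10))
    (@En.i (nat_lit 11460) (nat_lit 4) (nat_lit 6))
    (@En.n l3 (nat_lit 11221) (nat_lit 15) (nat_lit 2))))
  (@Cl.mk (nat_lit 0x2000600090004000e00090002000d000b00070003000a00070005000e000c) (nat_lit 0x50350a80060074) (nat_lit 16) Lb.e (@T16.mk En
    (@En.n l4542 (nat_lit 7926) (nat_lit 7) (nat_lit 12))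
    (@En.n l16258 (nat_lit 4554) (nat_lit 1) (nat_lit 14))
    (@En.i (nat_lit 8551) (nat_lit 2) (nat_lit 5))
    (@En.n l16259 (nat_lit 10236) (nat_lit 3) (nat_lit 7))
    (@En.n l5 (nat_lit 12509) (nat_lit 4) (nat_lit 10))
    (@En.n l50 (nat_lit 11221) (nat_lit 5) (nat_lit 3))
    (@En.i (nat_lit 4763) (nat_lit 6) (nat_lit 7))
    (@En.n l217 (nat_lit 7480) (nat_lit 8) (nat_lit 11))
    (@En.i (nat_lit 11218) (nat_lit 9) (nat_lit 13))
    (@En.n l28 (nat_lit 11222) (nat_lit 9) (nat_lit 2))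
    (@En.i (nat_lit 11220) (nat_lit 11) (nat_lit 9))
    (@En.i (nat_lit 8176) (nat_lit 12) (nat_lit 14))
    (@En.n l16259 (nat_lit 11310) (nat_lit 2) (nat_lit 4))
    (@En.n l617 (nat_lit 4826) (nat_lit 9) (nat_lit 9))
    (@En.i (nat_lit 11457) (nat_lit 4) (nat_lit 6))
    (@En.n l3 (nat_lit 11222) (nat_lit 15) (nat_lit 2))))
  (@Cl.mk (nat_lit 0x20007000b000a0005000a000a0005000b00060009000600060005000e000b) (nat_lit 0x22026080400085) (nat_lit 16) Lb.e (@T16.mk En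
    (@En.n l16208 (nat_lit 11224) (nat_lit 4) (nat_lit 11))
    (@En.n l16209 (nat_lit 4534) (nat_lit 1) (nat_lit 14))
    (@En.n l16210 (nat_lit 7673) (nat_lit 2) (nat_lit 5))
    (@En.n l16211 (nat_lit 12509) (nat_lit 3) (nat_lit 6))
    (@En.n l4758 (nat_lit 9345) (nat_lit 4) (nat_lit 6))
    (@En.n l16212 (nat_lit 12760) (nat_lit 9) (nat_lit 9))
    (@En.n l16213 (nat_lit 4762) (nat_lit 6) (nat_lit 6))
    (@En.n l16214 (nat_lit 7475) (nat_lit 8) (nat_lit 11))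
    (@En.i (nat_lit 11089) (nat_lit 8) (nat_lit 5))
    (@En.n l11401 (nat_lit 11227) (nat_lit 6) (nat_lit 10))
    (@En.n l16215 (nat_lit 10752) (nat_lit 11) (nat_lit 10))
    (@En.n l16216 (nat_lit 11298) (nat_lit 12) (nat_lit 5))
    (@En.n l16217 (nat_lit 11220) (nat_lit 13) (nat_lit 10))
    (@En.n l16218 (nat_lit 10336) (nat_lit 14) (nat_lit 11))
    (@En.i (nat_lit 10522) (nat_lit 2) (nat_lit 7))
    (@En.n l28 (nat_lit 11223) (nat_lit 15) (nat_lit 2))))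
  (@Cl.mk (nat_lit 0x50005000a000a0006000b0007000a000600060005000b000b0006000a0009) (nat_lit 0x88030500047063) (nat_lit 16) Lb.e (@T16.mk En
    (@En.n l17 (nat_lit 7932) (nat_lit 7) (nat_lit 9))
    (@En.n l30781 (nat_lit 5311) (nat_lit 9) (nat_lit 10))
    (@En.n l30782 (nat_lit 5435) (nat_lit 2) (nat_lit 6))
    (@En.n l619 (nat_lit 7931) (nat_lit 5) (nat_lit 11))
    (@En.n l12632 (nat_lit 11443) (nat_lit 10) (nat_lit 11))
    (@En.n l644 (nat_lit 7089) (nat_lit 11) (nat_lit 5))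
    (@En.n l30783 (nat_lit 7928) (nat_lit 10) (nat_lit 6))
    (@En.n l30784 (nat_lit 8758) (nat_lit 1) (nat_lit 6))
    (@En.n l10403 (nat_lit 11556) (nat_lit 8) (nat_lit 10))
    (@En.n l30785 (nat_lit 1643) (nat_lit 1) (nat_lit 7))
    (@En.n l30784 (nat_lit 6672) (nat_lit 9) (nat_lit 11))
    (@En.n l30786 (nat_lit 8011) (nat_lit 3) (nat_lit 6))
    (@En.n l30787 (nat_lit 11225) (nat_lit 6) (nat_lit 10))
    (@En.n l27092 (nat_lit 9956) (nat_lit 10) (nat_lit 10))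
    (@En.n l30788 (nat_lit 11223) (nat_lit 11) (nat_lit 5))
    (@En.n l30781 (nat_lit 10284) (nat_lit 0) (nat_lit 5))))
  (@Cl.mk (nat_lit 0x20006000b000b0007000b000a00050005000a0005000a00060009000e0006) (nat_lit 0x25072007010560) (nat_lit 16) Lb.e (@T16.mk En
    (@En.n l36101 (nat_lit 11224) (nat_lit 7) (nat_lit 6))
    (@En.n l36102 (nat_lit 8995) (nat_lit 1) (nat_lit 14))
    (@En.n l36103 (nat_lit 12762) (nat_lit 2) (nat_lit 9))
    (@En.i (nat_lit 5196) (nat_lit 3) (nat_lit 6))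
    (@En.n l36104 (nat_lit 6671) (nat_lit 4) (nat_lit 10))
    (@En.n l4509 (nat_lit 8017) (nat_lit 5) (nat_lit 5))
    (@En.n l36105 (nat_lit 10603) (nat_lit 7) (nat_lit 10))
    (@En.n l36106 (nat_lit 11227) (nat_lit 7) (nat_lit 5))
    (@En.n l17185 (nat_lit 11304) (nat_lit 8) (nat_lit 5))
    (@En.n l77 (nat_lit 11226) (nat_lit 10) (nat_lit 10))
    (@En.i (nat_lit 11126) (nat_lit 11) (nat_lit 11))
    (@En.n l36103 (nat_lit 5438) (nat_lit 12) (nat_lit 7))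
    (@En.n l36107 (nat_lit 11231) (nat_lit 13) (nat_lit 11))
    (@En.n l21729 (nat_lit 11440) (nat_lit 14) (nat_lit 11))
    (@En.n l36108 (nat_lit 10012) (nat_lit 13) (nat_lit 6))
    (@En.n l17 (nat_lit 11225) (nat_lit 15) (nat_lit 2))))
  (@Cl.mk (nat_lit 0x20007000c000c0007000a000400040009000d0009000600030009000e0007) (nat_lit 0x25010065100680) (nat_lit 16) Lb.e (@T16.mk En
    (@En.n l5583 (nat_lit 7932) (nat_lit 13) (nat_lit 7))
    (@En.n l1596 (nat_lit 6702) (nat_lit 1) (nat_lit 14))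
    (@En.n l4172 (nat_lit 11225) (nat_lit 2) (nat_lit 9))
    (@En.n l32760 (nat_lit 11229) (nat_lit 3) (nat_lit 3))
    (@En.i (nat_lit 5197) (nat_lit 0) (nat_lit 6))
    (@En.n l1448 (nat_lit 6673) (nat_lit 5) (nat_lit 9))
    (@En.i (nat_lit 6982) (nat_lit 7) (nat_lit 13))
    (@En.n l5579 (nat_lit 10601) (nat_lit 8) (nat_lit 9))
    (@En.n l6303 (nat_lit 11228) (nat_lit 8) (nat_lit 4))
    (@En.n l152 (nat_lit 11235) (nat_lit 9) (nat_lit 4))
    (@En.i (nat_lit 3992) (nat_lit 11) (nat_lit 10))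
    (@En.n l532 (nat_lit 5439) (nat_lit 12) (nat_lit 7))
    (@En.n l2691 (nat_lit 11232) (nat_lit 13) (nat_lit 12))
    (@En.n l1596 (nat_lit 11437) (nat_lit 14) (nat_lit 12))
    (@En.n l5582 (nat_lit 6869) (nat_lit 4) (nat_lit 7))
    (@En.n l17 (nat_lit 11226) (nat_lit 15) (nat_lit 2))))
  (@Cl.mk (nat_lit 0x20006000e000b00020008000c000b0005000a0004000a00050008000e0006) (nat_lit 0x230482050703a0) (nat_lit 16) Lb.e (@T16.mk En
    (@En.n l5646 (nat_lit 11223) (nat_lit 4) (nat_lit 6))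
    (@En.n l20934 (nat_lit 8987) (nat_lit 6) (nat_lit 14))
    (@En.n l5414 (nat_lit 12761) (nat_lit 2) (nat_lit 8))
    (@En.n l16749 (nat_lit 4768) (nat_lit 7) (nat_lit 5))
    (@En.n l3858 (nat_lit 8187) (nat_lit 4) (nat_lit 10))
    (@En.n l7 (nat_lit 11686) (nat_lit 5) (nat_lit 4))
    (@En.n l16749 (nat_lit 7891) (nat_lit 11) (nat_lit 10))
    (@En.n l20267 (nat_lit 11296) (nat_lit 7) (nat_lit 5))
    (@En.n l31143 (nat_lit 11228) (nat_lit 9) (nat_lit 11))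
    (@En.n l617 (nat_lit 10341) (nat_lit 10) (nat_lit 12))
    (@En.i (nat_lit 11485) (nat_lit 11) (nat_lit 8))
    (@En.n l11 (nat_lit 11227) (nat_lit 11) (nat_lit 2))
    (@En.n l3408 (nat_lit 11225) (nat_lit 13) (nat_lit 11))
    (@En.n l13056 (nat_lit 3452) (nat_lit 1) (nat_lit 14))
    (@En.i (nat_lit 10614) (nat_lit 2) (nat_lit 6))
    (@En.n l3 (nat_lit 11227) (nat_lit 15) (nat_lit 2))))
  (@Cl.mk (nat_lit 0x20007000e000c00020008000b00040009000d0009000500030008000e0007) (nat_lit 0x230410486004a0) (nat_lit 16) Lb.e (@T16.mk En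
    (@En.n l32555 (nat_lit 11220) (nat_lit 4) (nat_lit 7))
    (@En.n l32556 (nat_lit 2535) (nat_lit 6) (nat_lit 14))
    (@En.n l6731 (nat_lit 11227) (nat_lit 2) (nat_lit 8))
    (@En.n l13260 (nat_lit 11230) (nat_lit 3) (nat_lit 3))
    (@En.n l3219 (nat_lit 4769) (nat_lit 8) (nat_lit 5))
    (@En.i (nat_lit 8188) (nat_lit 5) (nat_lit 9))
    (@En.n l3219 (nat_lit 6975) (nat_lit 11) (nat_lit 13))
    (@En.n l3213 (nat_lit 7890) (nat_lit 12) (nat_lit 9))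
    (@En.n l3219 (nat_lit 11234) (nat_lit 8) (nat_lit 4))
    (@En.i (nat_lit 3993) (nat_lit 10) (nat_lit 11))
    (@En.n l6103 (nat_lit 11486) (nat_lit 11) (nat_lit 8))
    (@En.n l50 (nat_lit 11228) (nat_lit 11) (nat_lit 2))
    (@En.n l3212 (nat_lit 11226) (nat_lit 13) (nat_lit 12))
    (@En.n l3213 (nat_lit 3448) (nat_lit 1) (nat_lit 14))
    (@En.n l6103 (nat_lit 10613) (nat_lit 2) (nat_lit 7))
    (@En.n l11 (nat_lit 11228) (nat_lit 15) (nat_lit 2))))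
  (@Cl.mk (nat_lit 0x20006000c000c0007000b000400040009000d0005000a00030009000e0007) (nat_lit 0x28010065020680) (nat_lit 16) Lb.e (@T16.mk En
    (@En.n l34046 (nat_lit 7933) (nat_lit 13) (nat_lit 7))
    (@En.n l7256 (nat_lit 6656) (nat_lit 1) (nat_lit 14))
    (@En.n l387 (nat_lit 11557) (nat_lit 2) (nat_lit 9))
    (@En.n l3408 (nat_lit 11226) (nat_lit 3) (nat_lit 3))
    (@En.n l16556 (nat_lit 3031) (nat_lit 4) (nat_lit 10))
    (@En.n l3408 (nat_lit 11225) (nat_lit 5) (nat_lit 5))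
    (@En.n l34047 (nat_lit 5566) (nat_lit 7) (nat_lit 13))
    (@En.n l6680 (nat_lit 10602) (nat_lit 8) (nat_lit 9))
    (@En.n l575 (nat_lit 11230) (nat_lit 8) (nat_lit 4))
    (@En.n l34048 (nat_lit 11237) (nat_lit 9) (nat_lit 4))
    (@En.n l17759 (nat_lit 5548) (nat_lit 11) (nat_lit 11))
    (@En.i (nat_lit 5440) (nat_lit 12) (nat_lit 7))
    (@En.n l32765 (nat_lit 11233) (nat_lit 13) (nat_lit 12))
    (@En.n l21904 (nat_lit 11438) (nat_lit 14) (nat_lit 12))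
    (@En.i (nat_lit 9536) (nat_lit 13) (nat_lit 6))
    (@En.n l3 (nat_lit 11229) (nat_lit 15) (nat_lit 2))))
  (@Cl.mk (nat_lit 0x20006000e000c00020008000c00040009000d0004000a00030008000e0007) (nat_lit 0x430310470105a0) (nat_lit 16) Lb.e (@T16.mk En
    (@En.n l5646 (nat_lit 11219) (nat_lit 4) (nat_lit 7))
    (@En.i (nat_lit 2539) (nat_lit 6) (nat_lit 14))
    (@En.n l387 (nat_lit 12090) (nat_lit 2) (nat_lit 8))
    (@En.n l8769 (nat_lit 11228) (nat_lit 3) (nat_lit 3))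
    (@En.i (nat_lit 3027) (nat_lit 4) (nat_lit 10))
    (@En.i (nat_lit 11227) (nat_lit 5) (nat_lit 4))
    (@En.n l2544 (nat_lit 6971) (nat_lit 7) (nat_lit 13))
    (@En.i (nat_lit 12125) (nat_lit 12) (nat_lit 9))
    (@En.i (nat_lit 11236) (nat_lit 8) (nat_lit 4))
    (@En.n l617 (nat_lit 5547) (nat_lit 10) (nat_lit 12))
    (@En.i (nat_lit 11416) (nat_lit 11) (nat_lit 8))
    (@En.n l11 (nat_lit 11230) (nat_lit 11) (nat_lit 2))
    (@En.i (nat_lit 11229) (nat_lit 13) (nat_lit 12))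
    (@En.n l17 (nat_lit 3450) (nat_lit 1) (nat_lit 14))
    (@En.i (nat_lit 7357) (nat_lit 2) (nat_lit 6))
    (@En.n l3 (nat_lit 11230) (nat_lit 15) (nat_lit 2))))
  (@Cl.mk (nat_lit 0x20006000b0006000a0009000e00050002000a0006000a0007000a000e0006) (nat_lit 0x40425007020580) (nat_lit 16) Lb.e (@T16.mk En
    (@En.n l21619 (nat_lit 7931) (nat_lit 8) (nat_lit 6))
    (@En.i (nat_lit 9266) (nat_lit 10) (nat_lit 14))
    (@En.n l21620 (nat_lit 12558) (nat_lit 2) (nat_lit 10))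
    (@En.n l21621 (nat_lit 5200) (nat_lit 12) (nat_lit 7))
    (@En.n l3922 (nat_lit 6872) (nat_lit 4) (nat_lit 10))
    (@En.n l21622 (nat_lit 12134) (nat_lit 5) (nat_lit 6))
    (@En.n l13107 (nat_lit 10025) (nat_lit 7) (nat_lit 10))
    (@En.n l17 (nat_lit 11231) (nat_lit 7) (nat_lit 2))
    (@En.n l21623 (nat_lit 11225) (nat_lit 8) (nat_lit 5))
    (@En.i (nat_lit 11268) (nat_lit 10) (nat_lit 14))
    (@En.n l14789 (nat_lit 11232) (nat_lit 11) (nat_lit 9))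
    (@En.n l21624 (nat_lit 11131) (nat_lit 12) (nat_lit 10))
    (@En.n l21625 (nat_lit 4213) (nat_lit 13) (nat_lit 6))
    (@En.n l21626 (nat_lit 10981) (nat_lit 14) (nat_lit 11))
    (@En.n l3100 (nat_lit 10021) (nat_lit 6) (nat_lit 6))
    (@En.n l28 (nat_lit 11231) (nat_lit 15) (nat_lit 2))))
noncomputable def a702 : T16 Cl := @T16.mk Cl
  (@Cl.mk (nat_lit 0x20007000c00060009000e000400020009000d000900070003000a000e0007) (nat_lit 0x401b0064200690) (nat_lit 16) Lb.e (@T16.mk En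
    (@En.n l29030 (nat_lit 7929) (nat_lit 7) (nat_lit 7))
    (@En.n l32265 (nat_lit 6704) (nat_lit 9) (nat_lit 14))
    (@En.n l32266 (nat_lit 11231) (nat_lit 2) (nat_lit 10))
    (@En.n l18643 (nat_lit 11233) (nat_lit 3) (nat_lit 3))
    (@En.n l1769 (nat_lit 5203) (nat_lit 0) (nat_lit 7))
    (@En.n l32267 (nat_lit 6871) (nat_lit 5) (nat_lit 9))
    (@En.n l476 (nat_lit 6963) (nat_lit 7) (nat_lit 13))
    (@En.n l5891 (nat_lit 10030) (nat_lit 8) (nat_lit 9))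
    (@En.n l11 (nat_lit 11232) (nat_lit 8) (nat_lit 2))
    (@En.n l1992 (nat_lit 11226) (nat_lit 9) (nat_lit 4))
    (@En.n l32265 (nat_lit 6257) (nat_lit 11) (nat_lit 14))
    (@En.i (nat_lit 3999) (nat_lit 2) (nat_lit 9))
    (@En.i (nat_lit 4212) (nat_lit 13) (nat_lit 6))
    (@En.n l476 (nat_lit 10983) (nat_lit 14) (nat_lit 12))
    (@En.n l4817 (nat_lit 6865) (nat_lit 5) (nat_lit 7))
    (@En.n l17 (nat_lit 11232) (nat_lit 15) (nat_lit 2))))
  (@Cl.mk (nat_lit 0x20006000c0006000a000e000400020009000d0006000a0003000a000e0007) (nat_lit 0x70140065020690) (nat_lit 16) Lb.e (@T16.mk En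
    (@En.n l33398 (nat_lit 7930) (nat_lit 7) (nat_lit 7))
    (@En.n l1819 (nat_lit 6705) (nat_lit 9) (nat_lit 14))
    (@En.n l10068 (nat_lit 12255) (nat_lit 2) (nat_lit 10))
    (@En.n l1174 (nat_lit 11232) (nat_lit 3) (nat_lit 3))
    (@En.n l33399 (nat_lit 4772) (nat_lit 4) (nat_lit 10))
    (@En.n l24006 (nat_lit 11231) (nat_lit 5) (nat_lit 6))
    (@En.i (nat_lit 6960) (nat_lit 7) (nat_lit 13))
    (@En.n l23808 (nat_lit 10033) (nat_lit 8) (nat_lit 9))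
    (@En.n l17 (nat_lit 11233) (nat_lit 8) (nat_lit 2))
    (@En.n l24004 (nat_lit 11229) (nat_lit 9) (nat_lit 4))
    (@En.i (nat_lit 6262) (nat_lit 11) (nat_lit 14))
    (@En.n l1174 (nat_lit 5552) (nat_lit 12) (nat_lit 10))
    (@En.n l8813 (nat_lit 2121) (nat_lit 13) (nat_lit 6))
    (@En.n l566 (nat_lit 12205) (nat_lit 14) (nat_lit 12))
    (@En.n l33334 (nat_lit 9534) (nat_lit 5) (nat_lit 6))
    (@En.n l7 (nat_lit 11233) (nat_lit 15) (nat_lit 2))))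
  (@Cl.mk (nat_lit 0x20007000d000c00090003000900040009000d0009000700030007000e0007) (nat_lit 0xa6106065100020) (nat_lit 16) Lb.e (@T16.mk En
    (@En.n l36117 (nat_lit 10466) (nat_lit 5) (nat_lit 7))
    (@En.n l36118 (nat_lit 5399) (nat_lit 1) (nat_lit 14))
    (@En.n l5934 (nat_lit 11296) (nat_lit 2) (nat_lit 7))
    (@En.n l36119 (nat_lit 11236) (nat_lit 3) (nat_lit 3))
    (@En.i (nat_lit 9119) (nat_lit 0) (nat_lit 7))
    (@En.n l36120 (nat_lit 2599) (nat_lit 5) (nat_lit 9))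
    (@En.i (nat_lit 5407) (nat_lit 7) (nat_lit 13))
    (@En.n l36121 (nat_lit 10824) (nat_lit 3) (nat_lit 9))
    (@En.i (nat_lit 11226) (nat_lit 8) (nat_lit 4))
    (@En.n l25678 (nat_lit 11488) (nat_lit 10) (nat_lit 9))
    (@En.n l36122 (nat_lit 11238) (nat_lit 10) (nat_lit 3))
    (@En.n l55 (nat_lit 6492) (nat_lit 0) (nat_lit 9))
    (@En.n l619 (nat_lit 11235) (nat_lit 13) (nat_lit 12))
    (@En.n l36121 (nat_lit 11424) (nat_lit 14) (nat_lit 13))
    (@En.n l36123 (nat_lit 10622) (nat_lit 3) (nat_lit 7))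
    (@En.n l17 (nat_lit 11234) (nat_lit 15) (nat_lit 2))))
  (@Cl.mk (nat_lit 0x20007000c0008000d0008000400030009000d0009000800030008000e0007) (nat_lit 0x51640066110420) (nat_lit 16) Lb.e (@T16.mk En
    (@En.n l34126 (nat_lit 10467) (nat_lit 13) (nat_lit 7))
    (@En.n l34127 (nat_lit 6681) (nat_lit 1) (nat_lit 14))
    (@En.n l34128 (nat_lit 11304) (nat_lit 2) (nat_lit 8))
    (@En.n l34129 (nat_lit 11237) (nat_lit 3) (nat_lit 3))
    (@En.i (nat_lit 7833) (nat_lit 0) (nat_lit 8))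
    (@En.n l34130 (nat_lit 2591) (nat_lit 5) (nat_lit 9))
    (@En.i (nat_lit 5340) (nat_lit 7) (nat_lit 13))
    (@En.n l14805 (nat_lit 10562) (nat_lit 3) (nat_lit 9))
    (@En.n l34131 (nat_lit 11238) (nat_lit 8) (nat_lit 3))
    (@En.n l936 (nat_lit 11232) (nat_lit 9) (nat_lit 4))
    (@En.n l34132 (nat_lit 6385) (nat_lit 11) (nat_lit 8))
    (@En.n l34127 (nat_lit 6258) (nat_lit 12) (nat_lit 13))
    (@En.n l3 (nat_lit 9634) (nat_lit 13) (nat_lit 8))
    (@En.n l839 (nat_lit 11434) (nat_lit 14) (nat_lit 12))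
    (@En.n l34133 (nat_lit 10450) (nat_lit 5) (nat_lit 7))
    (@En.n l17 (nat_lit 11235) (nat_lit 15) (nat_lit 2))))
  (@Cl.mk (nat_lit 0x20006000d000c000a0003000900040009000d0006000a00030007000e0007) (nat_lit 0xb62050650200c0) (nat_lit 16) Lb.e (@T16.mk En
    (@En.n l10746 (nat_lit 11243) (nat_lit 5) (nat_lit 7))
    (@En.n l20935 (nat_lit 6677) (nat_lit 1) (nat_lit 14))
    (@En.n l7072 (nat_lit 11726) (nat_lit 2) (nat_lit 7))
    (@En.n l5556 (nat_lit 11234) (nat_lit 3) (nat_lit 3))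
    (@En.n l7069 (nat_lit 2647) (nat_lit 4) (nat_lit 10))
    (@En.n l7066 (nat_lit 11295) (nat_lit 5) (nat_lit 6))
    (@En.n l3815 (nat_lit 5413) (nat_lit 7) (nat_lit 13))
    (@En.n l30818 (nat_lit 10821) (nat_lit 3) (nat_lit 9))
    (@En.n l2678 (nat_lit 11229) (nat_lit 8) (nat_lit 4))
    (@En.i (nat_lit 11417) (nat_lit 10) (nat_lit 9))
    (@En.n l9620 (nat_lit 11239) (nat_lit 10) (nat_lit 3))
    (@En.i (nat_lit 11686) (nat_lit 12) (nat_lit 10))
    (@En.n l34048 (nat_lit 11237) (nat_lit 13) (nat_lit 12))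
    (@En.n l18864 (nat_lit 11422) (nat_lit 14) (nat_lit 13))
    (@En.i (nat_lit 9553) (nat_lit 3) (nat_lit 6))
    (@En.n l3 (nat_lit 11236) (nat_lit 15) (nat_lit 2))))
  (@Cl.mk (nat_lit 0x20006000c0009000d0008000400030009000d0007000a00030008000e0007) (nat_lit 0x567400150206a0) (nat_lit 16) Lb.e (@T16.mk En
    (@En.n l18334 (nat_lit 11244) (nat_lit 13) (nat_lit 7))
    (@En.n l649 (nat_lit 6650) (nat_lit 1) (nat_lit 14))
    (@En.n l18335 (nat_lit 12811) (nat_lit 2) (nat_lit 8))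
    (@En.n l18336 (nat_lit 11235) (nat_lit 3) (nat_lit 3))
    (@En.n l8205 (nat_lit 4770) (nat_lit 4) (nat_lit 10))
    (@En.n l18327 (nat_lit 11381) (nat_lit 5) (nat_lit 7))
    (@En.n l18070 (nat_lit 5561) (nat_lit 7) (nat_lit 13))
    (@En.n l18337 (nat_lit 10032) (nat_lit 8) (nat_lit 9))
    (@En.n l18338 (nat_lit 11239) (nat_lit 8) (nat_lit 3))
    (@En.n l18072 (nat_lit 11233) (nat_lit 9) (nat_lit 4))
    (@En.n l18339 (nat_lit 6534) (nat_lit 11) (nat_lit 8))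
    (@En.i (nat_lit 6261) (nat_lit 12) (nat_lit 13))
    (@En.n l18340 (nat_lit 11246) (nat_lit 13) (nat_lit 9))
    (@En.n l18341 (nat_lit 11435) (nat_lit 14) (nat_lit 12))
    (@En.n l18076 (nat_lit 9538) (nat_lit 13) (nat_lit 6))
    (@En.n l18 (nat_lit 11237) (nat_lit 15) (nat_lit 2))))
  (@Cl.mk (nat_lit 0x20007000d0008000d0003000900030009000d0009000800030007000e0007) (nat_lit 0xa1606065110020) (nat_lit 16) Lb.e (@T16.mk En
    (@En.n l18 (nat_lit 10465) (nat_lit 5) (nat_lit 7))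
    (@En.i (nat_lit 6679) (nat_lit 1) (nat_lit 14))
    (@En.n l22732 (nat_lit 11299) (nat_lit 2) (nat_lit 7))
    (@En.n l1106 (nat_lit 11239) (nat_lit 3) (nat_lit 3))
    (@En.n l19611 (nat_lit 9116) (nat_lit 0) (nat_lit 8))
    (@En.n l22733 (nat_lit 2595) (nat_lit 5) (nat_lit 9))
    (@En.n l3669 (nat_lit 5404) (nat_lit 7) (nat_lit 13))
    (@En.n l22734 (nat_lit 10825) (nat_lit 3) (nat_lit 9))
    (@En.n l19611 (nat_lit 11235) (nat_lit 8) (nat_lit 3))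
    (@En.i (nat_lit 11333) (nat_lit 10) (nat_lit 9))
    (@En.n l20834 (nat_lit 11234) (nat_lit 10) (nat_lit 3))
    (@En.n l1112 (nat_lit 6260) (nat_lit 12) (nat_lit 13))
    (@En.n l8764 (nat_lit 9933) (nat_lit 13) (nat_lit 8))
    (@En.n l3669 (nat_lit 11423) (nat_lit 14) (nat_lit 13))
    (@En.n l3518 (nat_lit 10451) (nat_lit 3) (nat_lit 7))
    (@En.n l17 (nat_lit 11238) (nat_lit 15) (nat_lit 2))))
  (@Cl.mk (nat_lit 0x20006000d0009000d0003000900030009000d0007000a00030007000e0007) (nat_lit 0xa6605065020090) (nat_lit 16) Lb.e (@T16.mk En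
    (@En.n l33228 (nat_lit 11241) (nat_lit 5) (nat_lit 7))
    (@En.i (nat_lit 5973) (nat_lit 1) (nat_lit 14))
    (@En.n l1081 (nat_lit 11725) (nat_lit 2) (nat_lit 7))
    (@En.n l3596 (nat_lit 11238) (nat_lit 3) (nat_lit 3))
    (@En.i (nat_lit 4771) (nat_lit 0) (nat_lit 10))
    (@En.n l2519 (nat_lit 11382) (nat_lit 5) (nat_lit 7))
    (@En.n l2520 (nat_lit 5412) (nat_lit 7) (nat_lit 13))
    (@En.n l33229 (nat_lit 10819) (nat_lit 3) (nat_lit 9))
    (@En.n l33230 (nat_lit 11237) (nat_lit 8) (nat_lit 3))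
    (@En.i (nat_lit 11331) (nat_lit 10) (nat_lit 9))
    (@En.n l16089 (nat_lit 11236) (nat_lit 10) (nat_lit 3))
    (@En.n l3602 (nat_lit 6263) (nat_lit 12) (nat_lit 13))
    (@En.n l33231 (nat_lit 11240) (nat_lit 13) (nat_lit 9))
    (@En.n l23551 (nat_lit 11421) (nat_lit 14) (nat_lit 13))
    (@En.n l2644 (nat_lit 9549) (nat_lit 3) (nat_lit 6))
    (@En.n l725 (nat_lit 11239) (nat_lit 15) (nat_lit 2))))
  (@Cl.mk (nat_lit 0x200060009000d000a000800030008000c00070006000a00040008000e0008) (nat_lit 0x551605600305a6) (nat_lit 16) Lb.e (@T16.mk En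
    (@En.n l22615 (nat_lit 11242) (nat_lit 6) (nat_lit 8))
    (@En.n l5592 (nat_lit 6649) (nat_lit 1) (nat_lit 14))
    (@En.n l22616 (nat_lit 11734) (nat_lit 2) (nat_lit 8))
    (@En.i (nat_lit 9933) (nat_lit 3) (nat_lit 4))
    (@En.n l22617 (nat_lit 11239) (nat_lit 4) (nat_lit 10))
    (@En.n l18718 (nat_lit 11236) (nat_lit 5) (nat_lit 6))
    (@En.n l2687 (nat_lit 11380) (nat_lit 6) (nat_lit 7))
    (@En.n l20448 (nat_lit 5625) (nat_lit 8) (nat_lit 12))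
    (@En.n l16938 (nat_lit 10832) (nat_lit 9) (nat_lit 8))
    (@En.n l830 (nat_lit 11246) (nat_lit 9) (nat_lit 3))
    (@En.n l20448 (nat_lit 11332) (nat_lit 11) (nat_lit 8))
    (@En.n l22618 (nat_lit 8017) (nat_lit 12) (nat_lit 10))
    (@En.n l3670 (nat_lit 12137) (nat_lit 13) (nat_lit 13))
    (@En.n l7889 (nat_lit 11431) (nat_lit 9) (nat_lit 9))
    (@En.n l22619 (nat_lit 9545) (nat_lit 4) (nat_lit 6))
    (@En.n l7 (nat_lit 11240) (nat_lit 15) (nat_lit 2))))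
  (@Cl.mk (nat_lit 0x30008000300090009000d0008000b00030008000700070005000d0008000d) (nat_lit 0x306755204000a55) (nat_lit 16) Lb.e (@T16.mk En
    (@En.n l1865 (nat_lit 6268) (nat_lit 0) (nat_lit 13))
    (@En.n l117 (nat_lit 11242) (nat_lit 3) (nat_lit 8))
    (@En.i (nat_lit 11420) (nat_lit 11) (nat_lit 13))
    (@En.n l3851 (nat_lit 7102) (nat_lit 3) (nat_lit 5))
    (@En.n l30496 (nat_lit 11247) (nat_lit 9) (nat_lit 7))
    (@En.i (nat_lit 10197) (nat_lit 14) (nat_lit 7))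
    (@En.n l28751 (nat_lit 11741) (nat_lit 6) (nat_lit 8))
    (@En.n l107 (nat_lit 10465) (nat_lit 7) (nat_lit 3))
    (@En.n l1106 (nat_lit 3681) (nat_lit 0) (nat_lit 11))
    (@En.i (nat_lit 11289) (nat_lit 12) (nat_lit 8))
    (@En.n l16719 (nat_lit 10368) (nat_lit 6) (nat_lit 13))
    (@En.n l830 (nat_lit 11239) (nat_lit 7) (nat_lit 9))
    (@En.n l30497 (nat_lit 11391) (nat_lit 4) (nat_lit 9))
    (@En.n l30498 (nat_lit 11244) (nat_lit 5) (nat_lit 3))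
    (@En.n l8768 (nat_lit 9634) (nat_lit 0) (nat_lit 8))
    (@En.n l30499 (nat_lit 11243) (nat_lit 15) (nat_lit 3))))
  (@Cl.mk (nat_lit 0x300080008000c00080007000b000400090008000800050008000d00090007) (nat_lit 0x565603055204810) (nat_lit 16) Lb.e (@T16.mk En
    (@En.n l38118 (nat_lit 9635) (nat_lit 0) (nat_lit 7))
    (@En.n l38119 (nat_lit 8009) (nat_lit 13) (nat_lit 9))
    (@En.n l5579 (nat_lit 6269) (nat_lit 2) (nat_lit 13))
    (@En.n l4976 (nat_lit 11659) (nat_lit 10) (nat_lit 8))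
    (@En.n l3866 (nat_lit 7104) (nat_lit 4) (nat_lit 5))
    (@En.n l38120 (nat_lit 11248) (nat_lit 8) (nat_lit 8))
    (@En.i (nat_lit 9765) (nat_lit 6) (nat_lit 8))
    (@En.n l15074 (nat_lit 11740) (nat_lit 2) (nat_lit 9))
    (@En.n l152 (nat_lit 11322) (nat_lit 8) (nat_lit 4))
    (@En.n l5859 (nat_lit 11241) (nat_lit 8) (nat_lit 11))
    (@En.n l38121 (nat_lit 11243) (nat_lit 9) (nat_lit 7))
    (@En.n l38122 (nat_lit 11286) (nat_lit 12) (nat_lit 8))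
    (@En.n l38121 (nat_lit 10365) (nat_lit 7) (nat_lit 12))
    (@En.n l38123 (nat_lit 11240) (nat_lit 8) (nat_lit 8))
    (@En.n l38124 (nat_lit 11592) (nat_lit 5) (nat_lit 8))
    (@En.n l38125 (nat_lit 11245) (nat_lit 15) (nat_lit 3))))
  (@Cl.mk (nat_lit 0x30008000400090009000d0007000b00030008000700070005000d000c0009) (nat_lit 0x506760204000b51) (nat_lit 16) Lb.e (@T16.mk En
    (@En.n l3522 (nat_lit 5860) (nat_lit 0) (nat_lit 9))
    (@En.n l32866 (nat_lit 11244) (nat_lit 10) (nat_lit 12))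
    (@En.n l38901 (nat_lit 10956) (nat_lit 11) (nat_lit 13))
    (@En.n l38902 (nat_lit 7103) (nat_lit 3) (nat_lit 5))
    (@En.n l38903 (nat_lit 11251) (nat_lit 9) (nat_lit 7))
    (@En.n l38904 (nat_lit 10168) (nat_lit 14) (nat_lit 7))
    (@En.n l38905 (nat_lit 11727) (nat_lit 6) (nat_lit 8))
    (@En.n l21399 (nat_lit 10466) (nat_lit 7) (nat_lit 3))
    (@En.n l38904 (nat_lit 3682) (nat_lit 0) (nat_lit 11))
    (@En.n l27644 (nat_lit 11294) (nat_lit 10) (nat_lit 7))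
    (@En.i (nat_lit 11764) (nat_lit 6) (nat_lit 13))
    (@En.n l7423 (nat_lit 11236) (nat_lit 7) (nat_lit 9))
    (@En.n l38906 (nat_lit 11389) (nat_lit 4) (nat_lit 9))
    (@En.n l38907 (nat_lit 7933) (nat_lit 5) (nat_lit 4))
    (@En.i (nat_lit 10517) (nat_lit 0) (nat_lit 8))
    (@En.n l38908 (nat_lit 11241) (nat_lit 15) (nat_lit 3))))
  (@Cl.mk (nat_lit 0x30009000700070005000c0008000d00070004000300090009000d0008000b) (nat_lit 0x600045600062762) (nat_lit 16) Lb.e (@T16.mk En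
    (@En.n l15921 (nat_lit 3683) (nat_lit 0) (nat_lit 11))
    (@En.n l15922 (nat_lit 11290) (nat_lit 12) (nat_lit 8))
    (@En.n l15923 (nat_lit 10364) (nat_lit 6) (nat_lit 13))
    (@En.n l15924 (nat_lit 11237) (nat_lit 7) (nat_lit 9))
    (@En.n l15925 (nat_lit 10491) (nat_lit 4) (nat_lit 9))
    (@En.n l15926 (nat_lit 11241) (nat_lit 13) (nat_lit 3))
    (@En.n l11662 (nat_lit 7930) (nat_lit 0) (nat_lit 4))
    (@En.i (nat_lit 6526) (nat_lit 0) (nat_lit 7))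
    (@En.n l15927 (nat_lit 5944) (nat_lit 1) (nat_lit 13))
    (@En.n l15928 (nat_lit 11245) (nat_lit 3) (nat_lit 8))
    (@En.n l15929 (nat_lit 10704) (nat_lit 11) (nat_lit 12))
    (@En.n l15930 (nat_lit 7098) (nat_lit 5) (nat_lit 5))
    (@En.n l61 (nat_lit 11249) (nat_lit 9) (nat_lit 7))
    (@En.n l15927 (nat_lit 10200) (nat_lit 14) (nat_lit 7))
    (@En.n l6563 (nat_lit 11093) (nat_lit 9) (nat_lit 9))
    (@En.n l15931 (nat_lit 10467) (nat_lit 15) (nat_lit 3))))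
  (@Cl.mk (nat_lit 0x300080008000c00080006000b0004000a0008000800050008000d0006000a) (nat_lit 0x567603081204701) (nat_lit 16) Lb.e (@T16.mk En
    (@En.i (nat_lit 5299) (nat_lit 0) (nat_lit 10))
    (@En.n l30735 (nat_lit 6527) (nat_lit 8) (nat_lit 6))
    (@En.n l7264 (nat_lit 6270) (nat_lit 2) (nat_lit 13))
    (@En.i (nat_lit 12121) (nat_lit 10) (nat_lit 8))
    (@En.n l30736 (nat_lit 7105) (nat_lit 4) (nat_lit 5))
    (@En.n l30737 (nat_lit 11250) (nat_lit 8) (nat_lit 8))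
    (@En.n l30738 (nat_lit 9766) (nat_lit 6) (nat_lit 8))
    (@En.n l12523 (nat_lit 11091) (nat_lit 2) (nat_lit 10))
    (@En.n l30739 (nat_lit 11323) (nat_lit 8) (nat_lit 4))
    (@En.n l30740 (nat_lit 11244) (nat_lit 0) (nat_lit 11))
    (@En.n l30741 (nat_lit 7933) (nat_lit 1) (nat_lit 6))
    (@En.n l23413 (nat_lit 11288) (nat_lit 12) (nat_lit 8))
    (@En.n l7264 (nat_lit 10362) (nat_lit 7) (nat_lit 12))
    (@En.n l644 (nat_lit 11246) (nat_lit 8) (nat_lit 8))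
    (@En.n l30742 (nat_lit 11952) (nat_lit 12) (nat_lit 8))
    (@En.n l30743 (nat_lit 11242) (nat_lit 15) (nat_lit 3))))
  (@Cl.mk (nat_lit 0x200060009000d0007000b00030008000c00070005000a00040009000e0008) (nat_lit 0x560205600306b2) (nat_lit 16) Lb.e (@T16.mk En
    (@En.i (nat_lit 11245) (nat_lit 6) (nat_lit 8))
    (@En.n l7036 (nat_lit 6648) (nat_lit 1) (nat_lit 14))
    (@En.n l2286 (nat_lit 12814) (nat_lit 2) (nat_lit 9))
    (@En.n l6899 (nat_lit 9634) (nat_lit 3) (nat_lit 4))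
    (@En.n l19481 (nat_lit 11237) (nat_lit 4) (nat_lit 10))
    (@En.n l34134 (nat_lit 11229) (nat_lit 5) (nat_lit 5))
    (@En.n l17 (nat_lit 11379) (nat_lit 6) (nat_lit 7))
    (@En.i (nat_lit 5563) (nat_lit 8) (nat_lit 12))
    (@En.n l7507 (nat_lit 10561) (nat_lit 9) (nat_lit 8))
    (@En.n l2604 (nat_lit 11240) (nat_lit 9) (nat_lit 3))
    (@En.i (nat_lit 8158) (nat_lit 11) (nat_lit 11))
    (@En.n l34135 (nat_lit 6535) (nat_lit 12) (nat_lit 7))
    (@En.n l19421 (nat_lit 12136) (nat_lit 13) (nat_lit 13))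
    (@En.i (nat_lit 12122) (nat_lit 9) (nat_lit 9))
    (@En.n l34136 (nat_lit 9542) (nat_lit 4) (nat_lit 6))
    (@En.n l50 (nat_lit 11246) (nat_lit 15) (nat_lit 2))))
  (@Cl.mk (nat_lit 0x2000d0009000c0003000900070004000d0007000d000300070003000e0009) (nat_lit 0x653060070300097) (nat_lit 16) Lb.e (@T16.mk En
    (@En.n l15987 (nat_lit 11241) (nat_lit 12) (nat_lit 9))
    (@En.i (nat_lit 5804) (nat_lit 1) (nat_lit 14))
    (@En.n l6474 (nat_lit 11249) (nat_lit 2) (nat_lit 3))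
    (@En.i (nat_lit 9926) (nat_lit 3) (nat_lit 7))
    (@En.n l6474 (nat_lit 11251) (nat_lit 4) (nat_lit 3))
    (@En.n l4484 (nat_lit 5941) (nat_lit 0) (nat_lit 13))
    (@En.i (nat_lit 11248) (nat_lit 6) (nat_lit 7))
    (@En.n l15988 (nat_lit 11586) (nat_lit 8) (nat_lit 13))
    (@En.i (nat_lit 7912) (nat_lit 8) (nat_lit 4))
    (@En.n l15989 (nat_lit 10198) (nat_lit 14) (nat_lit 7))
    (@En.n l2228 (nat_lit 11684) (nat_lit 11) (nat_lit 9))
    (@En.n l15990 (nat_lit 11309) (nat_lit 11) (nat_lit 3))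
    (@En.i (nat_lit 3725) (nat_lit 0) (nat_lit 12))
    (@En.n l4961 (nat_lit 11285) (nat_lit 14) (nat_lit 9))
    (@En.n l615 (nat_lit 10548) (nat_lit 2) (nat_lit 13))
    (@En.n l3 (nat_lit 11247) (nat_lit 15) (nat_lit 2))))
noncomputable def a703 : T16 Cl := @T16.mk Cl
  (@Cl.mk (nat_lit 0x2000c00090008000c0004000a000800040007000d000800060003000e0008) (nat_lit 0x655406100610056) (nat_lit 16) Lb.e (@T16.mk En
    (@En.n l30876 (nat_lit 11242) (nat_lit 14) (nat_lit 8))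
    (@En.n l11065 (nat_lit 7542) (nat_lit 1) (nat_lit 14))
    (@En.n l25214 (nat_lit 11250) (nat_lit 2) (nat_lit 3))
    (@En.n l30842 (nat_lit 9925) (nat_lit 3) (nat_lit 6))
    (@En.n l30877 (nat_lit 8016) (nat_lit 4) (nat_lit 8))
    (@En.n l30878 (nat_lit 6272) (nat_lit 6) (nat_lit 13))
    (@En.n l30879 (nat_lit 8042) (nat_lit 11) (nat_lit 7))
    (@En.i (nat_lit 7914) (nat_lit 7) (nat_lit 4))
    (@En.n l15989 (nat_lit 9762) (nat_lit 0) (nat_lit 8))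
    (@En.n l30842 (nat_lit 12231) (nat_lit 10) (nat_lit 10))
    (@En.n l15990 (nat_lit 11311) (nat_lit 10) (nat_lit 4))
    (@En.n l50 (nat_lit 11247) (nat_lit 12) (nat_lit 12))
    (@En.n l30880 (nat_lit 11251) (nat_lit 13) (nat_lit 8))
    (@En.n l30881 (nat_lit 11283) (nat_lit 14) (nat_lit 9))
    (@En.n l19778 (nat_lit 11757) (nat_lit 12) (nat_lit 12))
    (@En.n l3 (nat_lit 11248) (nat_lit 15) (nat_lit 2))))
  (@Cl.mk (nat_lit 0x2000d0009000c0003000a00070004000c0007000d000600040003000e0009) (nat_lit 0x8730600603000a7) (nat_lit 16) Lb.e (@T16.mk En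
    (@En.i (nat_lit 11244) (nat_lit 4) (nat_lit 9))
    (@En.n l6557 (nat_lit 9611) (nat_lit 1) (nat_lit 14))
    (@En.n l6558 (nat_lit 11247) (nat_lit 2) (nat_lit 3))
    (@En.n l6559 (nat_lit 7923) (nat_lit 3) (nat_lit 4))
    (@En.i (nat_lit 7433) (nat_lit 4) (nat_lit 6))
    (@En.n l6560 (nat_lit 5939) (nat_lit 6) (nat_lit 13))
    (@En.n l6561 (nat_lit 11250) (nat_lit 6) (nat_lit 7))
    (@En.n l28 (nat_lit 11617) (nat_lit 8) (nat_lit 12))
    (@En.n l6560 (nat_lit 7913) (nat_lit 8) (nat_lit 4))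
    (@En.n l6562 (nat_lit 9767) (nat_lit 14) (nat_lit 7))
    (@En.n l6563 (nat_lit 12264) (nat_lit 11) (nat_lit 10))
    (@En.n l6564 (nat_lit 11308) (nat_lit 11) (nat_lit 3))
    (@En.n l2038 (nat_lit 3726) (nat_lit 0) (nat_lit 12))
    (@En.n l6565 (nat_lit 11287) (nat_lit 14) (nat_lit 9))
    (@En.n l6566 (nat_lit 10541) (nat_lit 2) (nat_lit 13))
    (@En.n l17 (nat_lit 11249) (nat_lit 15) (nat_lit 2))))
  (@Cl.mk (nat_lit 0x2000c00090007000c0004000b000800040007000d000500090003000e0008) (nat_lit 0x870409100201056) (nat_lit 16) Lb.e (@T16.mk En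
    (@En.n l16281 (nat_lit 11245) (nat_lit 14) (nat_lit 8))
    (@En.n l8763 (nat_lit 9612) (nat_lit 1) (nat_lit 14))
    (@En.n l2884 (nat_lit 11248) (nat_lit 2) (nat_lit 3))
    (@En.n l16282 (nat_lit 6467) (nat_lit 3) (nat_lit 9))
    (@En.n l16283 (nat_lit 7436) (nat_lit 4) (nat_lit 5))
    (@En.i (nat_lit 6273) (nat_lit 6) (nat_lit 13))
    (@En.n l16284 (nat_lit 8041) (nat_lit 11) (nat_lit 7))
    (@En.i (nat_lit 7915) (nat_lit 7) (nat_lit 4))
    (@En.n l16285 (nat_lit 9763) (nat_lit 0) (nat_lit 8))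
    (@En.n l16286 (nat_lit 12263) (nat_lit 10) (nat_lit 11))
    (@En.i (nat_lit 7942) (nat_lit 10) (nat_lit 4))
    (@En.n l16287 (nat_lit 11249) (nat_lit 12) (nat_lit 12))
    (@En.n l16288 (nat_lit 7927) (nat_lit 13) (nat_lit 7))
    (@En.n l16283 (nat_lit 11284) (nat_lit 14) (nat_lit 9))
    (@En.n l11303 (nat_lit 11759) (nat_lit 12) (nat_lit 12))
    (@En.n l107 (nat_lit 11250) (nat_lit 15) (nat_lit 2))))
  (@Cl.mk (nat_lit 0x2000d0008000c0003000900070004000d000c0008000300070004000e0009) (nat_lit 0x543060087200097) (nat_lit 16) Lb.e (@T16.mk En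
    (@En.n l24104 (nat_lit 11243) (nat_lit 12) (nat_lit 9))
    (@En.n l181 (nat_lit 5800) (nat_lit 1) (nat_lit 14))
    (@En.n l7 (nat_lit 7927) (nat_lit 2) (nat_lit 4))
    (@En.n l16421 (nat_lit 11463) (nat_lit 3) (nat_lit 7))
    (@En.n l24105 (nat_lit 11247) (nat_lit 4) (nat_lit 3))
    (@En.n l4477 (nat_lit 8036) (nat_lit 0) (nat_lit 8))
    (@En.n l644 (nat_lit 11249) (nat_lit 7) (nat_lit 12))
    (@En.n l3528 (nat_lit 11587) (nat_lit 8) (nat_lit 13))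
    (@En.n l16421 (nat_lit 7911) (nat_lit 8) (nat_lit 4))
    (@En.n l6562 (nat_lit 10167) (nat_lit 14) (nat_lit 7))
    (@En.n l3616 (nat_lit 11685) (nat_lit 11) (nat_lit 9))
    (@En.n l6564 (nat_lit 11310) (nat_lit 11) (nat_lit 3))
    (@En.n l16068 (nat_lit 3705) (nat_lit 0) (nat_lit 12))
    (@En.n l24106 (nat_lit 11293) (nat_lit 14) (nat_lit 8))
    (@En.n l24107 (nat_lit 11762) (nat_lit 2) (nat_lit 13))
    (@En.n l17 (nat_lit 11251) (nat_lit 15) (nat_lit 2))))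
  (@Cl.mk (nat_lit 0x3000b000800080005000c00050009000c0004000800080004000d0007000b) (nat_lit 0x744040650330603) (nat_lit 16) Lb.e (@T16.mk En
    (@En.n l27075 (nat_lit 9006) (nat_lit 0) (nat_lit 11))
    (@En.n l20024 (nat_lit 11254) (nat_lit 14) (nat_lit 7))
    (@En.n l2125 (nat_lit 10004) (nat_lit 2) (nat_lit 13))
    (@En.n l17273 (nat_lit 6211) (nat_lit 3) (nat_lit 4))
    (@En.n l4328 (nat_lit 11009) (nat_lit 8) (nat_lit 8))
    (@En.n l8898 (nat_lit 6149) (nat_lit 11) (nat_lit 8))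
    (@En.n l3187 (nat_lit 9801) (nat_lit 6) (nat_lit 4))
    (@En.i (nat_lit 6172) (nat_lit 6) (nat_lit 12))
    (@En.n l1203 (nat_lit 12018) (nat_lit 1) (nat_lit 9))
    (@En.n l14160 (nat_lit 984) (nat_lit 9) (nat_lit 5))
    (@En.n l28 (nat_lit 6269) (nat_lit 11) (nat_lit 12))
    (@En.n l170 (nat_lit 9788) (nat_lit 4) (nat_lit 5))
    (@En.n l3961 (nat_lit 11256) (nat_lit 8) (nat_lit 8))
    (@En.n l4270 (nat_lit 10497) (nat_lit 14) (nat_lit 8))
    (@En.n l29939 (nat_lit 6598) (nat_lit 11) (nat_lit 11))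
    (@En.n l19137 (nat_lit 11253) (nat_lit 15) (nat_lit 3))))
  (@Cl.mk (nat_lit 0x3000b000800080006000c00050008000c0004000800080004000d000a0008) (nat_lit 0x735040250160542) (nat_lit 16) Lb.e (@T16.mk En
    (@En.n l14831 (nat_lit 5354) (nat_lit 0) (nat_lit 8))
    (@En.n l33081 (nat_lit 9494) (nat_lit 11) (nat_lit 10))
    (@En.n l2068 (nat_lit 10001) (nat_lit 2) (nat_lit 13))
    (@En.n l33082 (nat_lit 10371) (nat_lit 3) (nat_lit 4))
    (@En.n l6179 (nat_lit 11008) (nat_lit 8) (nat_lit 8))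
    (@En.n l6083 (nat_lit 6148) (nat_lit 11) (nat_lit 8))
    (@En.n l117 (nat_lit 9640) (nat_lit 6) (nat_lit 4))
    (@En.n l33083 (nat_lit 6138) (nat_lit 7) (nat_lit 12))
    (@En.n l14831 (nat_lit 11132) (nat_lit 10) (nat_lit 8))
    (@En.n l2604 (nat_lit 983) (nat_lit 9) (nat_lit 5))
    (@En.n l28 (nat_lit 6270) (nat_lit 11) (nat_lit 12))
    (@En.i (nat_lit 9787) (nat_lit 1) (nat_lit 6))
    (@En.n l30037 (nat_lit 11255) (nat_lit 8) (nat_lit 8))
    (@En.n l30038 (nat_lit 10496) (nat_lit 14) (nat_lit 8))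
    (@En.n l33084 (nat_lit 11254) (nat_lit 11) (nat_lit 11))
    (@En.n l29372 (nat_lit 11252) (nat_lit 15) (nat_lit 3))))
  (@Cl.mk (nat_lit 0x40007000b0008000b000700070005000b000500090008000c000500090009) (nat_lit 0x41600080736017) (nat_lit 16) Lb.e (@T16.mk En
    (@En.n l619 (nat_lit 11010) (nat_lit 7) (nat_lit 9))
    (@En.i (nat_lit 6150) (nat_lit 1) (nat_lit 9))
    (@En.n l11433 (nat_lit 9641) (nat_lit 15) (nat_lit 5))
    (@En.n l37224 (nat_lit 11252) (nat_lit 7) (nat_lit 12))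
    (@En.n l37225 (nat_lit 11253) (nat_lit 8) (nat_lit 8))
    (@En.n l34150 (nat_lit 12021) (nat_lit 10) (nat_lit 9))
    (@En.n l37226 (nat_lit 980) (nat_lit 6) (nat_lit 5))
    (@En.n l36655 (nat_lit 6271) (nat_lit 0) (nat_lit 11))
    (@En.n l30384 (nat_lit 9786) (nat_lit 8) (nat_lit 5))
    (@En.n l23484 (nat_lit 11257) (nat_lit 9) (nat_lit 7))
    (@En.n l22176 (nat_lit 10498) (nat_lit 1) (nat_lit 7))
    (@En.n l699 (nat_lit 6954) (nat_lit 7) (nat_lit 11))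
    (@En.n l1738 (nat_lit 5353) (nat_lit 13) (nat_lit 8))
    (@En.n l4817 (nat_lit 9492) (nat_lit 8) (nat_lit 11))
    (@En.n l8776 (nat_lit 8017) (nat_lit 11) (nat_lit 7))
    (@En.n l10138 (nat_lit 10370) (nat_lit 15) (nat_lit 4))))
  (@Cl.mk (nat_lit 0x20005000d000b00090003000c00080005000c00040007000b0004000e0008) (nat_lit 0x73307408004052) (nat_lit 16) Lb.e (@T16.mk En
    (@En.n l15418 (nat_lit 11253) (nat_lit 5) (nat_lit 8))
    (@En.n l396 (nat_lit 9525) (nat_lit 1) (nat_lit 14))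
    (@En.n l17310 (nat_lit 9636) (nat_lit 2) (nat_lit 4))
    (@En.i (nat_lit 6132) (nat_lit 3) (nat_lit 11))
    (@En.n l29445 (nat_lit 11129) (nat_lit 4) (nat_lit 7))
    (@En.i (nat_lit 989) (nat_lit 5) (nat_lit 4))
    (@En.n l15418 (nat_lit 12136) (nat_lit 7) (nat_lit 12))
    (@En.n l14983 (nat_lit 8077) (nat_lit 7) (nat_lit 5))
    (@En.n l7912 (nat_lit 9552) (nat_lit 9) (nat_lit 8))
    (@En.n l1690 (nat_lit 11257) (nat_lit 10) (nat_lit 12))
    (@En.n l152 (nat_lit 11256) (nat_lit 10) (nat_lit 3))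
    (@En.n l22094 (nat_lit 7183) (nat_lit 12) (nat_lit 9))
    (@En.n l29446 (nat_lit 9524) (nat_lit 13) (nat_lit 11))
    (@En.n l29447 (nat_lit 10002) (nat_lit 14) (nat_lit 13))
    (@En.n l29448 (nat_lit 6206) (nat_lit 13) (nat_lit 5))
    (@En.n l18 (nat_lit 11255) (nat_lit 15) (nat_lit 2))))
  (@Cl.mk (nat_lit 0x20005000d0008000c0003000c00080004000c00040008000b0004000e0008) (nat_lit 0x76606308055054) (nat_lit 16) Lb.e (@T16.mk En
    (@En.n l7910 (nat_lit 11252) (nat_lit 5) (nat_lit 8))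
    (@En.n l396 (nat_lit 11259) (nat_lit 1) (nat_lit 14))
    (@En.n l253 (nat_lit 9638) (nat_lit 2) (nat_lit 4))
    (@En.i (nat_lit 6135) (nat_lit 3) (nat_lit 11))
    (@En.n l253 (nat_lit 10940) (nat_lit 4) (nat_lit 8))
    (@En.i (nat_lit 918) (nat_lit 5) (nat_lit 4))
    (@En.n l19017 (nat_lit 12137) (nat_lit 7) (nat_lit 12))
    (@En.n l3942 (nat_lit 9501) (nat_lit 7) (nat_lit 4))
    (@En.n l7912 (nat_lit 9550) (nat_lit 9) (nat_lit 8))
    (@En.n l1735 (nat_lit 6721) (nat_lit 10) (nat_lit 12))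
    (@En.n l117 (nat_lit 11255) (nat_lit 10) (nat_lit 3))
    (@En.n l3942 (nat_lit 9001) (nat_lit 12) (nat_lit 12))
    (@En.i (nat_lit 11257) (nat_lit 13) (nat_lit 8))
    (@En.n l10542 (nat_lit 10003) (nat_lit 14) (nat_lit 13))
    (@En.n l640 (nat_lit 6205) (nat_lit 13) (nat_lit 5))
    (@En.n l18 (nat_lit 11256) (nat_lit 15) (nat_lit 2))))
  (@Cl.mk (nat_lit 0x200050008000c0009000c00070004000b000400080007000b0005000e0009) (nat_lit 0x55360070606062) (nat_lit 16) Lb.e (@T16.mk En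
    (@En.n l21367 (nat_lit 11254) (nat_lit 1) (nat_lit 9))
    (@En.n l396 (nat_lit 11258) (nat_lit 1) (nat_lit 14))
    (@En.n l253 (nat_lit 9637) (nat_lit 2) (nat_lit 5))
    (@En.n l3 (nat_lit 11256) (nat_lit 3) (nat_lit 11))
    (@En.n l3 (nat_lit 11255) (nat_lit 4) (nat_lit 7))
    (@En.n l21368 (nat_lit 11139) (nat_lit 5) (nat_lit 8))
    (@En.i (nat_lit 985) (nat_lit 6) (nat_lit 4))
    (@En.n l9698 (nat_lit 12135) (nat_lit 8) (nat_lit 11))
    (@En.n l21369 (nat_lit 9497) (nat_lit 8) (nat_lit 4))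
    (@En.n l7912 (nat_lit 9546) (nat_lit 10) (nat_lit 7))
    (@En.n l21370 (nat_lit 6968) (nat_lit 11) (nat_lit 12))
    (@En.n l9698 (nat_lit 7179) (nat_lit 12) (nat_lit 9))
    (@En.n l21370 (nat_lit 9498) (nat_lit 13) (nat_lit 12))
    (@En.n l21369 (nat_lit 11686) (nat_lit 10) (nat_lit 8))
    (@En.n l21371 (nat_lit 6210) (nat_lit 13) (nat_lit 5))
    (@En.n l18 (nat_lit 11257) (nat_lit 15) (nat_lit 2))))
  (@Cl.mk (nat_lit 0x2000800050008000c0009000c000800040008000400080007000b000e0008) (nat_lit 0x601416301060554) (nat_lit 16) Lb.e (@T16.mk En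
    (@En.n l36953 (nat_lit 11260) (nat_lit 2) (nat_lit 8))
    (@En.n l253 (nat_lit 12817) (nat_lit 4) (nat_lit 14))
    (@En.n l3 (nat_lit 11259) (nat_lit 2) (nat_lit 11))
    (@En.n l3 (nat_lit 9525) (nat_lit 3) (nat_lit 7))
    (@En.n l36954 (nat_lit 11138) (nat_lit 4) (nat_lit 8))
    (@En.n l5236 (nat_lit 1302) (nat_lit 5) (nat_lit 4))
    (@En.n l36955 (nat_lit 2291) (nat_lit 6) (nat_lit 8))
    (@En.n l36956 (nat_lit 9529) (nat_lit 7) (nat_lit 4))
    (@En.n l13368 (nat_lit 8841) (nat_lit 0) (nat_lit 8))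
    (@En.n l36957 (nat_lit 6701) (nat_lit 10) (nat_lit 12))
    (@En.n l22080 (nat_lit 7180) (nat_lit 11) (nat_lit 9))
    (@En.n l5236 (nat_lit 9526) (nat_lit 12) (nat_lit 12))
    (@En.n l36956 (nat_lit 6458) (nat_lit 13) (nat_lit 8))
    (@En.n l699 (nat_lit 11257) (nat_lit 14) (nat_lit 5))
    (@En.n l2179 (nat_lit 6127) (nat_lit 0) (nat_lit 8))
    (@En.n l50 (nat_lit 11258) (nat_lit 15) (nat_lit 2))))
  (@Cl.mk (nat_lit 0x200070005000d0008000c0003000c00090004000900040008000b000e0007) (nat_lit 0x9250740105440) (nat_lit 16) Lb.e (@T16.mk En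
    (@En.n l6204 (nat_lit 11261) (nat_lit 6) (nat_lit 7))
    (@En.n l253 (nat_lit 12815) (nat_lit 4) (nat_lit 14))
    (@En.i (nat_lit 6136) (nat_lit 2) (nat_lit 11))
    (@En.n l30003 (nat_lit 11135) (nat_lit 3) (nat_lit 8))
    (@En.i (nat_lit 917) (nat_lit 4) (nat_lit 4))
    (@En.n l6194 (nat_lit 2288) (nat_lit 5) (nat_lit 9))
    (@En.n l10289 (nat_lit 9894) (nat_lit 6) (nat_lit 4))
    (@En.n l77 (nat_lit 8842) (nat_lit 8) (nat_lit 9))
    (@En.n l1735 (nat_lit 6700) (nat_lit 9) (nat_lit 12))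
    (@En.n l117 (nat_lit 9525) (nat_lit 9) (nat_lit 3))
    (@En.n l513 (nat_lit 9003) (nat_lit 11) (nat_lit 12))
    (@En.i (nat_lit 11258) (nat_lit 12) (nat_lit 8))
    (@En.i (nat_lit 9893) (nat_lit 13) (nat_lit 13))
    (@En.n l699 (nat_lit 11256) (nat_lit 14) (nat_lit 5))
    (@En.n l2179 (nat_lit 6126) (nat_lit 4) (nat_lit 7))
    (@En.n l50 (nat_lit 11259) (nat_lit 15) (nat_lit 2))))
  (@Cl.mk (nat_lit 0x40007000b0008000b0008000800050009000500090008000c000800080007) (nat_lit 0x51744010635330) (nat_lit 16) Lb.e (@T16.mk En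
    (@En.n l43556 (nat_lit 6123) (nat_lit 9) (nat_lit 7))
    (@En.n l38714 (nat_lit 11263) (nat_lit 8) (nat_lit 8))
    (@En.n l30009 (nat_lit 10722) (nat_lit 8) (nat_lit 8))
    (@En.n l39059 (nat_lit 11261) (nat_lit 7) (nat_lit 12))
    (@En.n l39431 (nat_lit 11262) (nat_lit 8) (nat_lit 8))
    (@En.n l43551 (nat_lit 12061) (nat_lit 10) (nat_lit 9))
    (@En.n l43557 (nat_lit 1300) (nat_lit 6) (nat_lit 5))
    (@En.n l30011 (nat_lit 2503) (nat_lit 10) (nat_lit 9))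
    (@En.n l30006 (nat_lit 10678) (nat_lit 8) (nat_lit 5))
    (@En.n l43558 (nat_lit 11258) (nat_lit 8) (nat_lit 8))
    (@En.n l26233 (nat_lit 10512) (nat_lit 1) (nat_lit 8))
    (@En.n l699 (nat_lit 6696) (nat_lit 7) (nat_lit 11))
    (@En.n l1738 (nat_lit 5352) (nat_lit 13) (nat_lit 8))
    (@En.i (nat_lit 9019) (nat_lit 8) (nat_lit 11))
    (@En.n l14256 (nat_lit 11192) (nat_lit 11) (nat_lit 7))
    (@En.n l936 (nat_lit 11254) (nat_lit 15) (nat_lit 4))))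
  (@Cl.mk (nat_lit 0x3000b000900090005000a00050009000c0007000700060004000d0007000b) (nat_lit 0x845020740000806) (nat_lit 16) Lb.e (@T16.mk En
    (@En.n l41136 (nat_lit 9008) (nat_lit 0) (nat_lit 11))
    (@En.n l21959 (nat_lit 11260) (nat_lit 14) (nat_lit 7))
    (@En.n l41137 (nat_lit 11209) (nat_lit 2) (nat_lit 13))
    (@En.n l22540 (nat_lit 11252) (nat_lit 3) (nat_lit 4))
    (@En.i (nat_lit 6120) (nat_lit 10) (nat_lit 6))
    (@En.n l11512 (nat_lit 11264) (nat_lit 9) (nat_lit 7))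
    (@En.n l41138 (nat_lit 10727) (nat_lit 6) (nat_lit 7))
    (@En.i (nat_lit 6171) (nat_lit 6) (nat_lit 12))
    (@En.n l29471 (nat_lit 12062) (nat_lit 10) (nat_lit 9))
    (@En.n l22543 (nat_lit 1301) (nat_lit 9) (nat_lit 5))
    (@En.n l41139 (nat_lit 2502) (nat_lit 11) (nat_lit 10))
    (@En.n l5934 (nat_lit 10532) (nat_lit 1) (nat_lit 5))
    (@En.n l22544 (nat_lit 11259) (nat_lit 7) (nat_lit 9))
    (@En.n l22545 (nat_lit 10511) (nat_lit 14) (nat_lit 9))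
    (@En.n l15302 (nat_lit 6611) (nat_lit 11) (nat_lit 11))
    (@En.n l41140 (nat_lit 11262) (nat_lit 15) (nat_lit 3))))
  (@Cl.mk (nat_lit 0x3000b000900090006000a00050008000c0007000700060004000d000a0008) (nat_lit 0x825010240000952) (nat_lit 16) Lb.e (@T16.mk En
    (@En.n l40469 (nat_lit 5356) (nat_lit 0) (nat_lit 8))
    (@En.i (nat_lit 9023) (nat_lit 14) (nat_lit 10))
    (@En.n l2683 (nat_lit 11278) (nat_lit 2) (nat_lit 13))
    (@En.n l2491 (nat_lit 11253) (nat_lit 3) (nat_lit 4))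
    (@En.n l40470 (nat_lit 6119) (nat_lit 10) (nat_lit 6))
    (@En.n l7946 (nat_lit 11265) (nat_lit 9) (nat_lit 7))
    (@En.n l117 (nat_lit 10726) (nat_lit 6) (nat_lit 7))
    (@En.n l40470 (nat_lit 6071) (nat_lit 7) (nat_lit 12))
    (@En.n l7948 (nat_lit 10271) (nat_lit 10) (nat_lit 8))
    (@En.n l40471 (nat_lit 1299) (nat_lit 9) (nat_lit 5))
    (@En.i (nat_lit 2228) (nat_lit 9) (nat_lit 10))
    (@En.n l55 (nat_lit 10645) (nat_lit 1) (nat_lit 6))
    (@En.n l40472 (nat_lit 9525) (nat_lit 7) (nat_lit 9))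
    (@En.n l37742 (nat_lit 10510) (nat_lit 14) (nat_lit 9))
    (@En.n l29540 (nat_lit 11260) (nat_lit 11) (nat_lit 11))
    (@En.n l40473 (nat_lit 11261) (nat_lit 15) (nat_lit 3))))
  (@Cl.mk (nat_lit 0x20006000a0006000a0009000d0008000600030006000a0007000a000e0008) (nat_lit 0x108352000406b5) (nat_lit 16) Lb.e (@T16.mk En
    (@En.n l37558 (nat_lit 11260) (nat_lit 10) (nat_lit 8))
    (@En.n l134 (nat_lit 11455) (nat_lit 1) (nat_lit 14))
    (@En.n l8915 (nat_lit 6612) (nat_lit 2) (nat_lit 10))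
    (@En.n l18056 (nat_lit 5349) (nat_lit 3) (nat_lit 7))
    (@En.n l3105 (nat_lit 9020) (nat_lit 4) (nat_lit 10))
    (@En.n l3106 (nat_lit 11190) (nat_lit 5) (nat_lit 6))
    (@En.n l18058 (nat_lit 11010) (nat_lit 6) (nat_lit 3))
    (@En.i (nat_lit 7255) (nat_lit 0) (nat_lit 6))
    (@En.n l36452 (nat_lit 10031) (nat_lit 9) (nat_lit 8))
    (@En.n l3 (nat_lit 11264) (nat_lit 10) (nat_lit 13))
    (@En.n l2571 (nat_lit 11265) (nat_lit 11) (nat_lit 9))
    (@En.n l18782 (nat_lit 12033) (nat_lit 12) (nat_lit 10))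
    (@En.n l5592 (nat_lit 1304) (nat_lit 13) (nat_lit 6))
    (@En.n l5032 (nat_lit 2510) (nat_lit 14) (nat_lit 10))
    (@En.i (nat_lit 10679) (nat_lit 7) (nat_lit 6))
    (@En.n l7 (nat_lit 11263) (nat_lit 15) (nat_lit 2))))
noncomputable def a704 : T16 Cl := @T16.mk Cl
  (@Cl.mk (nat_lit 0x20006000b0006000a000d000700050003000d0006000a0003000a000e0009) (nat_lit 0x107400070507b5) (nat_lit 16) Lb.e (@T16.mk En
    (@En.n l3038 (nat_lit 11261) (nat_lit 13) (nat_lit 9))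
    (@En.n l134 (nat_lit 11460) (nat_lit 1) (nat_lit 14))
    (@En.n l253 (nat_lit 6609) (nat_lit 2) (nat_lit 10))
    (@En.n l11610 (nat_lit 11265) (nat_lit 3) (nat_lit 3))
    (@En.n l781 (nat_lit 9033) (nat_lit 4) (nat_lit 10))
    (@En.i (nat_lit 11263) (nat_lit 5) (nat_lit 6))
    (@En.n l2125 (nat_lit 11207) (nat_lit 7) (nat_lit 13))
    (@En.i (nat_lit 11009) (nat_lit 7) (nat_lit 3))
    (@En.i (nat_lit 7258) (nat_lit 8) (nat_lit 5))
    (@En.n l3098 (nat_lit 10732) (nat_lit 10) (nat_lit 7))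
    (@En.i (nat_lit 6069) (nat_lit 11) (nat_lit 13))
    (@En.n l253 (nat_lit 12498) (nat_lit 12) (nat_lit 10))
    (@En.n l5592 (nat_lit 1305) (nat_lit 13) (nat_lit 6))
    (@En.n l2571 (nat_lit 2513) (nat_lit 14) (nat_lit 11))
    (@En.i (nat_lit 10682) (nat_lit 13) (nat_lit 6))
    (@En.n l7 (nat_lit 11264) (nat_lit 15) (nat_lit 2))))
  (@Cl.mk (nat_lit 0x20007000b00060009000d000700050003000d000900070003000a000e0009) (nat_lit 0x102400084007b3) (nat_lit 16) Lb.e (@T16.mk En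
    (@En.n l5706 (nat_lit 11262) (nat_lit 13) (nat_lit 9))
    (@En.n l9960 (nat_lit 11463) (nat_lit 1) (nat_lit 14))
    (@En.n l9502 (nat_lit 11263) (nat_lit 2) (nat_lit 10))
    (@En.n l2199 (nat_lit 11264) (nat_lit 3) (nat_lit 3))
    (@En.n l1620 (nat_lit 5350) (nat_lit 0) (nat_lit 7))
    (@En.n l12896 (nat_lit 9907) (nat_lit 5) (nat_lit 9))
    (@En.i (nat_lit 11208) (nat_lit 7) (nat_lit 13))
    (@En.n l1620 (nat_lit 11008) (nat_lit 7) (nat_lit 3))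
    (@En.i (nat_lit 7259) (nat_lit 8) (nat_lit 5))
    (@En.i (nat_lit 10731) (nat_lit 10) (nat_lit 7))
    (@En.n l3337 (nat_lit 6067) (nat_lit 11) (nat_lit 13))
    (@En.n l6031 (nat_lit 12500) (nat_lit 12) (nat_lit 9))
    (@En.n l13128 (nat_lit 1303) (nat_lit 13) (nat_lit 6))
    (@En.i (nat_lit 2512) (nat_lit 14) (nat_lit 11))
    (@En.n l3337 (nat_lit 10683) (nat_lit 6) (nat_lit 7))
    (@En.n l107 (nat_lit 11265) (nat_lit 15) (nat_lit 2))))
  (@Cl.mk (nat_lit 0x20006000e000c00020008000c0004000c000a0004000a00040008000e0006) (nat_lit 0x380360a1010120) (nat_lit 16) Lb.e (@T16.mk En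
    (@En.n l6204 (nat_lit 11200) (nat_lit 4) (nat_lit 6))
    (@En.i (nat_lit 7474) (nat_lit 6) (nat_lit 14))
    (@En.n l766 (nat_lit 4038) (nat_lit 2) (nat_lit 8))
    (@En.i (nat_lit 7596) (nat_lit 7) (nat_lit 4))
    (@En.i (nat_lit 2285) (nat_lit 4) (nat_lit 10))
    (@En.n l4155 (nat_lit 9889) (nat_lit 5) (nat_lit 4))
    (@En.n l77 (nat_lit 4290) (nat_lit 11) (nat_lit 10))
    (@En.n l1253 (nat_lit 5906) (nat_lit 8) (nat_lit 12))
    (@En.n l117 (nat_lit 9892) (nat_lit 8) (nat_lit 4))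
    (@En.n l387 (nat_lit 6137) (nat_lit 10) (nat_lit 12))
    (@En.i (nat_lit 11259) (nat_lit 11) (nat_lit 8))
    (@En.n l3 (nat_lit 11266) (nat_lit 11) (nat_lit 2))
    (@En.n l387 (nat_lit 11267) (nat_lit 13) (nat_lit 12))
    (@En.i (nat_lit 7981) (nat_lit 1) (nat_lit 14))
    (@En.n l2179 (nat_lit 11213) (nat_lit 2) (nat_lit 6))
    (@En.n l50 (nat_lit 11266) (nat_lit 15) (nat_lit 2))))
  (@Cl.mk (nat_lit 0x20006000c000c0007000b00040004000c000a0005000a00040009000e0006) (nat_lit 0x76050095010560) (nat_lit 16) Lb.e (@T16.mk En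
    (@En.i (nat_lit 11198) (nat_lit 6) (nat_lit 6))
    (@En.n l564 (nat_lit 7131) (nat_lit 1) (nat_lit 14))
    (@En.n l3506 (nat_lit 12729) (nat_lit 2) (nat_lit 9))
    (@En.i (nat_lit 7598) (nat_lit 3) (nat_lit 4))
    (@En.n l27833 (nat_lit 2281) (nat_lit 4) (nat_lit 10))
    (@En.n l21531 (nat_lit 9885) (nat_lit 5) (nat_lit 5))
    (@En.i (nat_lit 12152) (nat_lit 7) (nat_lit 10))
    (@En.n l9882 (nat_lit 7582) (nat_lit 8) (nat_lit 12))
    (@En.n l3498 (nat_lit 11266) (nat_lit 8) (nat_lit 4))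
    (@En.n l13355 (nat_lit 11269) (nat_lit 9) (nat_lit 4))
    (@En.i (nat_lit 6134) (nat_lit 11) (nat_lit 11))
    (@En.n l564 (nat_lit 9893) (nat_lit 12) (nat_lit 7))
    (@En.n l4003 (nat_lit 11268) (nat_lit 13) (nat_lit 12))
    (@En.n l27834 (nat_lit 9286) (nat_lit 14) (nat_lit 12))
    (@En.n l21533 (nat_lit 11150) (nat_lit 13) (nat_lit 6))
    (@En.n l18 (nat_lit 11267) (nat_lit 15) (nat_lit 2))))
  (@Cl.mk (nat_lit 0x20006000c0006000a000e00040002000c000a0006000a0004000a000e0006) (nat_lit 0x50840096010160) (nat_lit 16) Lb.e (@T16.mk En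
    (@En.n l19990 (nat_lit 11148) (nat_lit 7) (nat_lit 6))
    (@En.i (nat_lit 7934) (nat_lit 9) (nat_lit 14))
    (@En.n l19991 (nat_lit 12) (nat_lit 2) (nat_lit 10))
    (@En.n l117 (nat_lit 7509) (nat_lit 3) (nat_lit 4))
    (@En.n l3922 (nat_lit 2292) (nat_lit 4) (nat_lit 10))
    (@En.n l19992 (nat_lit 11505) (nat_lit 5) (nat_lit 6))
    (@En.n l575 (nat_lit 12156) (nat_lit 14) (nat_lit 10))
    (@En.n l2125 (nat_lit 9632) (nat_lit 8) (nat_lit 12))
    (@En.n l17 (nat_lit 11268) (nat_lit 8) (nat_lit 2))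
    (@En.n l3187 (nat_lit 11267) (nat_lit 9) (nat_lit 4))
    (@En.i (nat_lit 6265) (nat_lit 11) (nat_lit 14))
    (@En.n l19992 (nat_lit 6133) (nat_lit 12) (nat_lit 10))
    (@En.i (nat_lit 9863) (nat_lit 13) (nat_lit 6))
    (@En.n l19993 (nat_lit 11897) (nat_lit 14) (nat_lit 12))
    (@En.n l3100 (nat_lit 11146) (nat_lit 5) (nat_lit 6))
    (@En.n l28 (nat_lit 11268) (nat_lit 15) (nat_lit 2))))
  (@Cl.mk (nat_lit 0x20006000c0009000d000800040003000c000a0007000a00040008000e0006) (nat_lit 0x54740091010360) (nat_lit 16) Lb.e (@T16.mk En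
    (@En.n l14319 (nat_lit 11204) (nat_lit 7) (nat_lit 6))
    (@En.n l649 (nat_lit 7128) (nat_lit 1) (nat_lit 14))
    (@En.i (nat_lit 12731) (nat_lit 2) (nat_lit 8))
    (@En.n l3528 (nat_lit 5183) (nat_lit 3) (nat_lit 4))
    (@En.n l14320 (nat_lit 2306) (nat_lit 4) (nat_lit 10))
    (@En.n l14321 (nat_lit 10011) (nat_lit 5) (nat_lit 7))
    (@En.i (nat_lit 8254) (nat_lit 7) (nat_lit 10))
    (@En.n l14322 (nat_lit 10091) (nat_lit 8) (nat_lit 12))
    (@En.n l731 (nat_lit 11271) (nat_lit 8) (nat_lit 3))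
    (@En.n l1865 (nat_lit 11268) (nat_lit 9) (nat_lit 4))
    (@En.n l2013 (nat_lit 11273) (nat_lit 11) (nat_lit 8))
    (@En.i (nat_lit 6264) (nat_lit 12) (nat_lit 13))
    (@En.n l1867 (nat_lit 11270) (nat_lit 13) (nat_lit 9))
    (@En.n l14323 (nat_lit 11910) (nat_lit 14) (nat_lit 12))
    (@En.n l14324 (nat_lit 10544) (nat_lit 13) (nat_lit 6))
    (@En.n l18 (nat_lit 11269) (nat_lit 15) (nat_lit 2))))
  (@Cl.mk (nat_lit 0x200060009000d0007000b0003000b000900070005000a00050009000e0007) (nat_lit 0x38020940020440) (nat_lit 16) Lb.e (@T16.mk En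
    (@En.n l22097 (nat_lit 11276) (nat_lit 6) (nat_lit 7))
    (@En.i (nat_lit 7129) (nat_lit 1) (nat_lit 14))
    (@En.n l28473 (nat_lit 11907) (nat_lit 2) (nat_lit 9))
    (@En.n l117 (nat_lit 3303) (nat_lit 3) (nat_lit 5))
    (@En.n l3337 (nat_lit 11269) (nat_lit 4) (nat_lit 10))
    (@En.n l1203 (nat_lit 11267) (nat_lit 5) (nat_lit 5))
    (@En.n l28474 (nat_lit 10611) (nat_lit 6) (nat_lit 7))
    (@En.n l28475 (nat_lit 12150) (nat_lit 8) (nat_lit 9))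
    (@En.n l9182 (nat_lit 10090) (nat_lit 9) (nat_lit 11))
    (@En.n l12368 (nat_lit 11272) (nat_lit 9) (nat_lit 3))
    (@En.n l1203 (nat_lit 7150) (nat_lit 11) (nat_lit 11))
    (@En.n l28476 (nat_lit 11274) (nat_lit 12) (nat_lit 7))
    (@En.i (nat_lit 12139) (nat_lit 13) (nat_lit 13))
    (@En.n l22097 (nat_lit 7700) (nat_lit 9) (nat_lit 9))
    (@En.n l3100 (nat_lit 11760) (nat_lit 13) (nat_lit 6))
    (@En.n l28 (nat_lit 11270) (nat_lit 15) (nat_lit 2))))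
  (@Cl.mk (nat_lit 0x20006000d0009000d000300090003000c000a0007000a00040007000e0006) (nat_lit 0x53603091010030) (nat_lit 16) Lb.e (@T16.mk En
    (@En.n l215 (nat_lit 11206) (nat_lit 5) (nat_lit 6))
    (@En.n l2567 (nat_lit 7124) (nat_lit 1) (nat_lit 14))
    (@En.i (nat_lit 5955) (nat_lit 2) (nat_lit 7))
    (@En.n l1643 (nat_lit 5182) (nat_lit 3) (nat_lit 4))
    (@En.n l613 (nat_lit 2307) (nat_lit 4) (nat_lit 10))
    (@En.n l7073 (nat_lit 10015) (nat_lit 5) (nat_lit 7))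
    (@En.i (nat_lit 8244) (nat_lit 7) (nat_lit 10))
    (@En.i (nat_lit 11273) (nat_lit 8) (nat_lit 12))
    (@En.n l615 (nat_lit 11269) (nat_lit 8) (nat_lit 3))
    (@En.n l613 (nat_lit 6929) (nat_lit 10) (nat_lit 9))
    (@En.n l12278 (nat_lit 9892) (nat_lit 10) (nat_lit 3))
    (@En.n l1643 (nat_lit 6266) (nat_lit 12) (nat_lit 13))
    (@En.i (nat_lit 11272) (nat_lit 13) (nat_lit 9))
    (@En.n l7865 (nat_lit 11585) (nat_lit 14) (nat_lit 13))
    (@En.n l2039 (nat_lit 10550) (nat_lit 13) (nat_lit 6))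
    (@En.n l17 (nat_lit 11271) (nat_lit 15) (nat_lit 2))))
  (@Cl.mk (nat_lit 0x200060009000d000a00080003000b000900070006000a00050008000e0007) (nat_lit 0x28620910020140) (nat_lit 16) Lb.e (@T16.mk En
    (@En.n l215 (nat_lit 11275) (nat_lit 6) (nat_lit 7))
    (@En.n l12279 (nat_lit 7127) (nat_lit 1) (nat_lit 14))
    (@En.i (nat_lit 5509) (nat_lit 2) (nat_lit 8))
    (@En.n l1643 (nat_lit 3301) (nat_lit 3) (nat_lit 5))
    (@En.n l3 (nat_lit 11271) (nat_lit 4) (nat_lit 10))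
    (@En.n l12279 (nat_lit 9892) (nat_lit 5) (nat_lit 6))
    (@En.n l7073 (nat_lit 10612) (nat_lit 6) (nat_lit 7))
    (@En.i (nat_lit 8248) (nat_lit 8) (nat_lit 9))
    (@En.n l26541 (nat_lit 11274) (nat_lit 9) (nat_lit 11))
    (@En.n l1911 (nat_lit 11270) (nat_lit 9) (nat_lit 3))
    (@En.n l12752 (nat_lit 6928) (nat_lit 11) (nat_lit 8))
    (@En.n l26542 (nat_lit 9887) (nat_lit 12) (nat_lit 10))
    (@En.n l1644 (nat_lit 12140) (nat_lit 13) (nat_lit 13))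
    (@En.n l11173 (nat_lit 7699) (nat_lit 9) (nat_lit 9))
    (@En.n l26543 (nat_lit 11279) (nat_lit 13) (nat_lit 6))
    (@En.n l17 (nat_lit 11272) (nat_lit 15) (nat_lit 2))))
  (@Cl.mk (nat_lit 0x20007000d000a000800030009000c000900060009000400080007000e0007) (nat_lit 0x94303810105040) (nat_lit 16) Lb.e (@T16.mk En
    (@En.n l215 (nat_lit 11278) (nat_lit 5) (nat_lit 7))
    (@En.n l2567 (nat_lit 9625) (nat_lit 1) (nat_lit 14))
    (@En.n l28 (nat_lit 11271) (nat_lit 2) (nat_lit 7))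
    (@En.n l28467 (nat_lit 11382) (nat_lit 3) (nat_lit 8))
    (@En.n l1643 (nat_lit 5185) (nat_lit 4) (nat_lit 4))
    (@En.n l613 (nat_lit 2308) (nat_lit 5) (nat_lit 9))
    (@En.n l28470 (nat_lit 10614) (nat_lit 6) (nat_lit 6))
    (@En.n l3038 (nat_lit 10311) (nat_lit 8) (nat_lit 9))
    (@En.n l3039 (nat_lit 6455) (nat_lit 9) (nat_lit 12))
    (@En.n l3047 (nat_lit 6930) (nat_lit 10) (nat_lit 9))
    (@En.n l27732 (nat_lit 9893) (nat_lit 10) (nat_lit 3))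
    (@En.n l26378 (nat_lit 9922) (nat_lit 0) (nat_lit 8))
    (@En.n l26541 (nat_lit 11274) (nat_lit 13) (nat_lit 10))
    (@En.n l28118 (nat_lit 9051) (nat_lit 14) (nat_lit 13))
    (@En.n l28471 (nat_lit 11944) (nat_lit 3) (nat_lit 7))
    (@En.n l17 (nat_lit 11273) (nat_lit 15) (nat_lit 2))))
  (@Cl.mk (nat_lit 0x20007000a0007000b0008000b0008000600050009000500090008000e0008) (nat_lit 0x30618100206256) (nat_lit 16) Lb.e (@T16.mk En
    (@En.n l68 (nat_lit 11277) (nat_lit 1) (nat_lit 8))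
    (@En.n l1236 (nat_lit 9624) (nat_lit 1) (nat_lit 14))
    (@En.n l40298 (nat_lit 11272) (nat_lit 2) (nat_lit 8))
    (@En.n l40299 (nat_lit 11380) (nat_lit 3) (nat_lit 9))
    (@En.n l40300 (nat_lit 3300) (nat_lit 4) (nat_lit 5))
    (@En.n l40301 (nat_lit 11273) (nat_lit 5) (nat_lit 9))
    (@En.n l40302 (nat_lit 9893) (nat_lit 6) (nat_lit 5))
    (@En.n l40303 (nat_lit 10613) (nat_lit 7) (nat_lit 6))
    (@En.n l1236 (nat_lit 10309) (nat_lit 9) (nat_lit 8))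
    (@En.n l40303 (nat_lit 6457) (nat_lit 10) (nat_lit 11))
    (@En.n l40304 (nat_lit 6927) (nat_lit 11) (nat_lit 8))
    (@En.i (nat_lit 9886) (nat_lit 12) (nat_lit 11))
    (@En.n l601 (nat_lit 9854) (nat_lit 13) (nat_lit 7))
    (@En.i (nat_lit 5252) (nat_lit 8) (nat_lit 10))
    (@En.n l40305 (nat_lit 9848) (nat_lit 13) (nat_lit 7))
    (@En.n l67 (nat_lit 11274) (nat_lit 15) (nat_lit 2))))
  (@Cl.mk (nat_lit 0x3000a0009000900080007000b000600090007000700050008000d00090007) (nat_lit 0x852502040003750) (nat_lit 16) Lb.e (@T16.mk En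
    (@En.n l2491 (nat_lit 6926) (nat_lit 0) (nat_lit 7))
    (@En.n l40337 (nat_lit 8185) (nat_lit 13) (nat_lit 9))
    (@En.n l40338 (nat_lit 6278) (nat_lit 2) (nat_lit 13))
    (@En.n l8757 (nat_lit 7487) (nat_lit 10) (nat_lit 8))
    (@En.n l40339 (nat_lit 11757) (nat_lit 4) (nat_lit 5))
    (@En.n l5703 (nat_lit 11281) (nat_lit 9) (nat_lit 7))
    (@En.n l14812 (nat_lit 12057) (nat_lit 6) (nat_lit 7))
    (@En.i (nat_lit 9248) (nat_lit 9) (nat_lit 9))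
    (@En.n l17701 (nat_lit 3302) (nat_lit 8) (nat_lit 6))
    (@En.n l7 (nat_lit 11206) (nat_lit 8) (nat_lit 11))
    (@En.n l644 (nat_lit 11202) (nat_lit 9) (nat_lit 7))
    (@En.n l40340 (nat_lit 10626) (nat_lit 12) (nat_lit 8))
    (@En.n l230 (nat_lit 11272) (nat_lit 7) (nat_lit 9))
    (@En.n l27817 (nat_lit 10366) (nat_lit 7) (nat_lit 9))
    (@En.n l27838 (nat_lit 11277) (nat_lit 10) (nat_lit 10))
    (@En.n l40341 (nat_lit 11276) (nat_lit 15) (nat_lit 3))))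
  (@Cl.mk (nat_lit 0x3000a0009000900080006000b0006000a0007000700050008000d0006000a) (nat_lit 0x855602060003702) (nat_lit 16) Lb.e (@T16.mk En
    (@En.i (nat_lit 6196) (nat_lit 0) (nat_lit 10))
    (@En.n l8668 (nat_lit 11277) (nat_lit 13) (nat_lit 6))
    (@En.n l7828 (nat_lit 6279) (nat_lit 2) (nat_lit 13))
    (@En.i (nat_lit 7488) (nat_lit 10) (nat_lit 8))
    (@En.n l7828 (nat_lit 11759) (nat_lit 4) (nat_lit 5))
    (@En.n l27860 (nat_lit 11282) (nat_lit 9) (nat_lit 7))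
    (@En.n l22326 (nat_lit 12061) (nat_lit 6) (nat_lit 7))
    (@En.n l27861 (nat_lit 11833) (nat_lit 9) (nat_lit 10))
    (@En.n l27862 (nat_lit 3304) (nat_lit 8) (nat_lit 6))
    (@En.n l27863 (nat_lit 11204) (nat_lit 10) (nat_lit 11))
    (@En.n l1459 (nat_lit 11198) (nat_lit 10) (nat_lit 6))
    (@En.n l27864 (nat_lit 10627) (nat_lit 12) (nat_lit 8))
    (@En.n l27865 (nat_lit 11270) (nat_lit 7) (nat_lit 9))
    (@En.i (nat_lit 10361) (nat_lit 7) (nat_lit 9))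
    (@En.n l19388 (nat_lit 10042) (nat_lit 3) (nat_lit 10))
    (@En.n l27866 (nat_lit 11275) (nat_lit 15) (nat_lit 3))))
  (@Cl.mk (nat_lit 0x600090006000a0007000a0008000800070006000a0006000a000900080008) (nat_lit 0x305074200204552) (nat_lit 16) Lb.e (@T16.mk En
    (@En.n l40882 (nat_lit 11280) (nat_lit 8) (nat_lit 8))
    (@En.n l40293 (nat_lit 12053) (nat_lit 8) (nat_lit 8))
    (@En.n l26802 (nat_lit 11275) (nat_lit 7) (nat_lit 9))
    (@En.n l40883 (nat_lit 11286) (nat_lit 9) (nat_lit 10))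
    (@En.n l29111 (nat_lit 3183) (nat_lit 6) (nat_lit 6))
    (@En.n l40884 (nat_lit 11278) (nat_lit 9) (nat_lit 10))
    (@En.n l26642 (nat_lit 11209) (nat_lit 10) (nat_lit 6))
    (@En.n l40885 (nat_lit 10625) (nat_lit 9) (nat_lit 7))
    (@En.n l11 (nat_lit 11274) (nat_lit 8) (nat_lit 8))
    (@En.n l9966 (nat_lit 11609) (nat_lit 8) (nat_lit 8))
    (@En.n l16179 (nat_lit 6462) (nat_lit 8) (nat_lit 10))
    (@En.n l3107 (nat_lit 2023) (nat_lit 9) (nat_lit 7))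
    (@En.i (nat_lit 8183) (nat_lit 9) (nat_lit 10))
    (@En.n l601 (nat_lit 9622) (nat_lit 10) (nat_lit 6))
    (@En.i (nat_lit 5253) (nat_lit 9) (nat_lit 9))
    (@En.n l40886 (nat_lit 9850) (nat_lit 10) (nat_lit 6))))
  (@Cl.mk (nat_lit 0x30008000b000900090007000a000500090008000700070006000d00090007) (nat_lit 0x184201034000840) (nat_lit 16) Lb.e (@T16.mk En
    (@En.n l27837 (nat_lit 9906) (nat_lit 0) (nat_lit 7))
    (@En.n l27838 (nat_lit 11277) (nat_lit 14) (nat_lit 9))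
    (@En.n l2312 (nat_lit 11580) (nat_lit 2) (nat_lit 13))
    (@En.n l27839 (nat_lit 11948) (nat_lit 10) (nat_lit 6))
    (@En.n l5703 (nat_lit 11208) (nat_lit 9) (nat_lit 7))
    (@En.n l27837 (nat_lit 12054) (nat_lit 9) (nat_lit 7))
    (@En.n l17 (nat_lit 11206) (nat_lit 6) (nat_lit 8))
    (@En.n l27837 (nat_lit 11289) (nat_lit 10) (nat_lit 9))
    (@En.n l27816 (nat_lit 1310) (nat_lit 8) (nat_lit 5))
    (@En.i (nat_lit 2151) (nat_lit 8) (nat_lit 10))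
    (@En.n l27840 (nat_lit 10630) (nat_lit 9) (nat_lit 7))
    (@En.n l230 (nat_lit 11273) (nat_lit 7) (nat_lit 9))
    (@En.n l27841 (nat_lit 12218) (nat_lit 13) (nat_lit 9))
    (@En.n l27842 (nat_lit 6461) (nat_lit 7) (nat_lit 11))
    (@En.n l1738 (nat_lit 2022) (nat_lit 12) (nat_lit 8))
    (@En.n l27843 (nat_lit 11209) (nat_lit 15) (nat_lit 3))))
  (@Cl.mk (nat_lit 0x3000800060009000d000a00070003000a000800070006000a000d00060009) (nat_lit 0x501440071002707) (nat_lit 16) Lb.e (@T16.mk En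
    (@En.n l5376 (nat_lit 10743) (nat_lit 0) (nat_lit 9))
    (@En.n l14926 (nat_lit 11275) (nat_lit 8) (nat_lit 6))
    (@En.n l6210 (nat_lit 7726) (nat_lit 5) (nat_lit 13))
    (@En.n l14790 (nat_lit 10550) (nat_lit 3) (nat_lit 10))
    (@En.i (nat_lit 11763) (nat_lit 4) (nat_lit 6))
    (@En.n l6210 (nat_lit 10618) (nat_lit 13) (nat_lit 7))
    (@En.n l396 (nat_lit 8247) (nat_lit 6) (nat_lit 8))
    (@En.n l4819 (nat_lit 9848) (nat_lit 8) (nat_lit 10))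
    (@En.n l3536 (nat_lit 11760) (nat_lit 8) (nat_lit 3))
    (@En.n l40147 (nat_lit 6557) (nat_lit 0) (nat_lit 7))
    (@En.n l68 (nat_lit 10861) (nat_lit 11) (nat_lit 10))
    (@En.n l3866 (nat_lit 9662) (nat_lit 6) (nat_lit 13))
    (@En.n l40147 (nat_lit 7941) (nat_lit 9) (nat_lit 9))
    (@En.n l7 (nat_lit 11756) (nat_lit 14) (nat_lit 6))
    (@En.n l644 (nat_lit 11757) (nat_lit 5) (nat_lit 8))
    (@En.n l31728 (nat_lit 10366) (nat_lit 15) (nat_lit 3))))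
noncomputable def a705 : T16 Cl := @T16.mk Cl
  (@Cl.mk (nat_lit 0x200080007000b0007000b000a0008000500080005000900060009000e0008) (nat_lit 0x604045102010625) (nat_lit 16) Lb.e (@T16.mk En
    (@En.n l41770 (nat_lit 11277) (nat_lit 9) (nat_lit 8))
    (@En.n l1836 (nat_lit 7436) (nat_lit 1) (nat_lit 14))
    (@En.n l37832 (nat_lit 11195) (nat_lit 2) (nat_lit 9))
    (@En.n l8501 (nat_lit 2018) (nat_lit 3) (nat_lit 6))
    (@En.n l41771 (nat_lit 8181) (nat_lit 4) (nat_lit 9))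
    (@En.n l965 (nat_lit 9624) (nat_lit 5) (nat_lit 5))
    (@En.n l41771 (nat_lit 7489) (nat_lit 10) (nat_lit 8))
    (@En.n l37832 (nat_lit 7868) (nat_lit 7) (nat_lit 5))
    (@En.n l7492 (nat_lit 10439) (nat_lit 9) (nat_lit 8))
    (@En.n l41772 (nat_lit 11281) (nat_lit 10) (nat_lit 10))
    (@En.i (nat_lit 11283) (nat_lit 11) (nat_lit 11))
    (@En.n l41773 (nat_lit 3345) (nat_lit 12) (nat_lit 7))
    (@En.n l41774 (nat_lit 11208) (nat_lit 13) (nat_lit 11))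
    (@En.n l37832 (nat_lit 11207) (nat_lit 14) (nat_lit 7))
    (@En.n l40244 (nat_lit 10651) (nat_lit 6) (nat_lit 8))
    (@En.n l50 (nat_lit 11280) (nat_lit 15) (nat_lit 2))))
  (@Cl.mk (nat_lit 0x200090008000c0007000a000700040007000d0008000600030009000e0009) (nat_lit 0x544040006100766) (nat_lit 16) Lb.e (@T16.mk En
    (@En.n l3303 (nat_lit 11275) (nat_lit 13) (nat_lit 9))
    (@En.n l619 (nat_lit 11248) (nat_lit 1) (nat_lit 14))
    (@En.n l29310 (nat_lit 11280) (nat_lit 2) (nat_lit 9))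
    (@En.n l9105 (nat_lit 11282) (nat_lit 3) (nat_lit 3))
    (@En.n l15162 (nat_lit 2017) (nat_lit 4) (nat_lit 6))
    (@En.n l41593 (nat_lit 5268) (nat_lit 5) (nat_lit 8))
    (@En.n l1012 (nat_lit 6277) (nat_lit 7) (nat_lit 13))
    (@En.n l39486 (nat_lit 7490) (nat_lit 11) (nat_lit 7))
    (@En.i (nat_lit 7844) (nat_lit 8) (nat_lit 4))
    (@En.n l20813 (nat_lit 10825) (nat_lit 0) (nat_lit 7))
    (@En.n l15162 (nat_lit 6369) (nat_lit 11) (nat_lit 10))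
    (@En.n l25501 (nat_lit 3347) (nat_lit 12) (nat_lit 7))
    (@En.n l50 (nat_lit 11205) (nat_lit 13) (nat_lit 12))
    (@En.n l2579 (nat_lit 11201) (nat_lit 14) (nat_lit 8))
    (@En.n l5996 (nat_lit 10654) (nat_lit 11) (nat_lit 9))
    (@En.n l107 (nat_lit 11281) (nat_lit 15) (nat_lit 2))))
  (@Cl.mk (nat_lit 0x200090007000c0007000b000700040007000d0005000900030009000e0009) (nat_lit 0x703060006020766) (nat_lit 16) Lb.e (@T16.mk En
    (@En.n l29656 (nat_lit 11276) (nat_lit 13) (nat_lit 9))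
    (@En.n l180 (nat_lit 11250) (nat_lit 1) (nat_lit 14))
    (@En.n l29657 (nat_lit 10040) (nat_lit 2) (nat_lit 9))
    (@En.n l6131 (nat_lit 11281) (nat_lit 3) (nat_lit 3))
    (@En.n l13783 (nat_lit 6478) (nat_lit 4) (nat_lit 9))
    (@En.n l29658 (nat_lit 11280) (nat_lit 5) (nat_lit 5))
    (@En.i (nat_lit 6276) (nat_lit 7) (nat_lit 13))
    (@En.n l29659 (nat_lit 7491) (nat_lit 11) (nat_lit 7))
    (@En.i (nat_lit 7871) (nat_lit 8) (nat_lit 4))
    (@En.n l29660 (nat_lit 10830) (nat_lit 0) (nat_lit 7))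
    (@En.n l29661 (nat_lit 11164) (nat_lit 11) (nat_lit 11))
    (@En.n l9167 (nat_lit 3307) (nat_lit 12) (nat_lit 7))
    (@En.n l617 (nat_lit 11203) (nat_lit 13) (nat_lit 12))
    (@En.n l3480 (nat_lit 11197) (nat_lit 14) (nat_lit 7))
    (@En.n l29662 (nat_lit 10669) (nat_lit 11) (nat_lit 9))
    (@En.n l11 (nat_lit 11282) (nat_lit 15) (nat_lit 2))))
  (@Cl.mk (nat_lit 0x200090007000c000b00090007000400070005000d000900070003000e0009) (nat_lit 0x407360000720065) (nat_lit 16) Lb.e (@T16.mk En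
    (@En.i (nat_lit 11286) (nat_lit 14) (nat_lit 9))
    (@En.n l601 (nat_lit 7544) (nat_lit 1) (nat_lit 14))
    (@En.n l28 (nat_lit 11284) (nat_lit 2) (nat_lit 3))
    (@En.n l8501 (nat_lit 7718) (nat_lit 3) (nat_lit 7))
    (@En.n l4316 (nat_lit 11574) (nat_lit 4) (nat_lit 9))
    (@En.n l31598 (nat_lit 11281) (nat_lit 6) (nat_lit 13))
    (@En.n l965 (nat_lit 11312) (nat_lit 6) (nat_lit 5))
    (@En.n l6576 (nat_lit 8038) (nat_lit 7) (nat_lit 7))
    (@En.n l31599 (nat_lit 8765) (nat_lit 8) (nat_lit 4))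
    (@En.n l965 (nat_lit 9086) (nat_lit 0) (nat_lit 7))
    (@En.n l97 (nat_lit 6378) (nat_lit 11) (nat_lit 9))
    (@En.n l1236 (nat_lit 10104) (nat_lit 12) (nat_lit 11))
    (@En.n l965 (nat_lit 11285) (nat_lit 13) (nat_lit 12))
    (@En.n l20138 (nat_lit 11291) (nat_lit 14) (nat_lit 7))
    (@En.i (nat_lit 10663) (nat_lit 12) (nat_lit 9))
    (@En.n l50 (nat_lit 11283) (nat_lit 15) (nat_lit 2))))
  (@Cl.mk (nat_lit 0x200090006000c000b000a0007000400070005000d0006000a0003000e0009) (nat_lit 0x6063600007050a6) (nat_lit 16) Lb.e (@T16.mk En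
    (@En.n l8898 (nat_lit 11288) (nat_lit 14) (nat_lit 9))
    (@En.n l601 (nat_lit 9610) (nat_lit 1) (nat_lit 14))
    (@En.i (nat_lit 11283) (nat_lit 2) (nat_lit 3))
    (@En.n l13540 (nat_lit 12517) (nat_lit 3) (nat_lit 10))
    (@En.i (nat_lit 6952) (nat_lit 4) (nat_lit 6))
    (@En.n l19447 (nat_lit 11282) (nat_lit 6) (nat_lit 13))
    (@En.i (nat_lit 11313) (nat_lit 6) (nat_lit 5))
    (@En.i (nat_lit 8037) (nat_lit 7) (nat_lit 7))
    (@En.n l8498 (nat_lit 8763) (nat_lit 8) (nat_lit 4))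
    (@En.n l5076 (nat_lit 9092) (nat_lit 0) (nat_lit 7))
    (@En.n l619 (nat_lit 11160) (nat_lit 11) (nat_lit 10))
    (@En.n l3866 (nat_lit 8574) (nat_lit 12) (nat_lit 11))
    (@En.n l1240 (nat_lit 11287) (nat_lit 13) (nat_lit 12))
    (@En.n l31236 (nat_lit 11292) (nat_lit 14) (nat_lit 6))
    (@En.n l31237 (nat_lit 10668) (nat_lit 12) (nat_lit 9))
    (@En.n l50 (nat_lit 11284) (nat_lit 15) (nat_lit 2))))
  (@Cl.mk (nat_lit 0x20009000c000a000800060004000c00070006000d000400080003000e000a) (nat_lit 0x462300500302025) (nat_lit 16) Lb.e (@T16.mk En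
    (@En.n l61 (nat_lit 11289) (nat_lit 14) (nat_lit 10))
    (@En.i (nat_lit 7543) (nat_lit 1) (nat_lit 14))
    (@En.i (nat_lit 11287) (nat_lit 2) (nat_lit 3))
    (@En.n l17691 (nat_lit 7717) (nat_lit 3) (nat_lit 8))
    (@En.n l1236 (nat_lit 11293) (nat_lit 4) (nat_lit 4))
    (@En.n l16539 (nat_lit 11205) (nat_lit 6) (nat_lit 13))
    (@En.i (nat_lit 11309) (nat_lit 6) (nat_lit 6))
    (@En.n l18185 (nat_lit 11283) (nat_lit 7) (nat_lit 7))
    (@En.n l28094 (nat_lit 11584) (nat_lit 9) (nat_lit 12))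
    (@En.n l28095 (nat_lit 8764) (nat_lit 9) (nat_lit 4))
    (@En.i (nat_lit 9083) (nat_lit 11) (nat_lit 6))
    (@En.n l10578 (nat_lit 9240) (nat_lit 12) (nat_lit 8))
    (@En.n l68 (nat_lit 9181) (nat_lit 13) (nat_lit 10))
    (@En.n l3866 (nat_lit 7918) (nat_lit 6) (nat_lit 12))
    (@En.n l28096 (nat_lit 10676) (nat_lit 12) (nat_lit 9))
    (@En.n l18 (nat_lit 11285) (nat_lit 15) (nat_lit 2))))
  (@Cl.mk (nat_lit 0x30009000900080006000b000a000800070007000500080006000d000a0008) (nat_lit 0x425023600030812) (nat_lit 16) Lb.e (@T16.mk En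
    (@En.n l8501 (nat_lit 7715) (nat_lit 0) (nat_lit 8))
    (@En.n l17293 (nat_lit 8012) (nat_lit 12) (nat_lit 10))
    (@En.n l32336 (nat_lit 11275) (nat_lit 2) (nat_lit 13))
    (@En.n l10185 (nat_lit 9934) (nat_lit 3) (nat_lit 6))
    (@En.n l6576 (nat_lit 8103) (nat_lit 10) (nat_lit 8))
    (@En.n l32337 (nat_lit 11984) (nat_lit 5) (nat_lit 5))
    (@En.n l644 (nat_lit 11283) (nat_lit 9) (nat_lit 7))
    (@En.n l10185 (nat_lit 11842) (nat_lit 7) (nat_lit 7))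
    (@En.n l32338 (nat_lit 9241) (nat_lit 8) (nat_lit 8))
    (@En.n l5165 (nat_lit 9049) (nat_lit 10) (nat_lit 10))
    (@En.n l10185 (nat_lit 11289) (nat_lit 11) (nat_lit 11))
    (@En.n l17293 (nat_lit 9991) (nat_lit 10) (nat_lit 6))
    (@En.n l32339 (nat_lit 11791) (nat_lit 8) (nat_lit 8))
    (@En.n l32340 (nat_lit 11380) (nat_lit 7) (nat_lit 9))
    (@En.n l7138 (nat_lit 11054) (nat_lit 2) (nat_lit 9))
    (@En.n l7139 (nat_lit 11288) (nat_lit 15) (nat_lit 3))))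
  (@Cl.mk (nat_lit 0x20009000c000a000900060004000b00070006000d000700050003000e000a) (nat_lit 0x652500500400036) (nat_lit 16) Lb.e (@T16.mk En
    (@En.n l61 (nat_lit 11290) (nat_lit 14) (nat_lit 10))
    (@En.n l16265 (nat_lit 9609) (nat_lit 1) (nat_lit 14))
    (@En.n l7 (nat_lit 11285) (nat_lit 2) (nat_lit 3))
    (@En.n l16266 (nat_lit 7925) (nat_lit 3) (nat_lit 5))
    (@En.i (nat_lit 6951) (nat_lit 4) (nat_lit 7))
    (@En.n l16267 (nat_lit 11203) (nat_lit 6) (nat_lit 13))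
    (@En.i (nat_lit 11308) (nat_lit 6) (nat_lit 6))
    (@En.n l16268 (nat_lit 11284) (nat_lit 7) (nat_lit 7))
    (@En.n l16269 (nat_lit 11159) (nat_lit 9) (nat_lit 11))
    (@En.n l16270 (nat_lit 8761) (nat_lit 9) (nat_lit 4))
    (@En.i (nat_lit 9084) (nat_lit 11) (nat_lit 6))
    (@En.n l16271 (nat_lit 11161) (nat_lit 12) (nat_lit 9))
    (@En.n l16272 (nat_lit 9180) (nat_lit 13) (nat_lit 10))
    (@En.n l3866 (nat_lit 7919) (nat_lit 6) (nat_lit 12))
    (@En.n l16273 (nat_lit 10670) (nat_lit 12) (nat_lit 9))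
    (@En.n l18 (nat_lit 11287) (nat_lit 15) (nat_lit 2))))
  (@Cl.mk (nat_lit 0x30009000900080005000b000a000900070007000500080006000d0007000b) (nat_lit 0x545027700030804) (nat_lit 16) Lb.e (@T16.mk En
    (@En.n l27338 (nat_lit 12513) (nat_lit 0) (nat_lit 11))
    (@En.n l42372 (nat_lit 5159) (nat_lit 5) (nat_lit 7))
    (@En.n l27881 (nat_lit 11276) (nat_lit 2) (nat_lit 13))
    (@En.n l23411 (nat_lit 11328) (nat_lit 3) (nat_lit 6))
    (@En.n l27338 (nat_lit 8102) (nat_lit 10) (nat_lit 8))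
    (@En.n l42373 (nat_lit 11985) (nat_lit 5) (nat_lit 5))
    (@En.n l7479 (nat_lit 11284) (nat_lit 9) (nat_lit 7))
    (@En.n l27852 (nat_lit 9734) (nat_lit 7) (nat_lit 7))
    (@En.n l1866 (nat_lit 11835) (nat_lit 7) (nat_lit 9))
    (@En.n l42374 (nat_lit 8575) (nat_lit 10) (nat_lit 10))
    (@En.n l23411 (nat_lit 11290) (nat_lit 11) (nat_lit 11))
    (@En.n l15890 (nat_lit 10284) (nat_lit 12) (nat_lit 5))
    (@En.n l42375 (nat_lit 11792) (nat_lit 8) (nat_lit 8))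
    (@En.n l16879 (nat_lit 11379) (nat_lit 7) (nat_lit 9))
    (@En.n l77 (nat_lit 11857) (nat_lit 2) (nat_lit 9))
    (@En.n l3039 (nat_lit 11286) (nat_lit 15) (nat_lit 3))))
  (@Cl.mk (nat_lit 0x3000a000a0008000b00090007000600060005000c00080007000d00040009) (nat_lit 0x424120000440202) (nat_lit 16) Lb.e (@T16.mk En
    (@En.n l8925 (nat_lit 7714) (nat_lit 0) (nat_lit 9))
    (@En.n l17680 (nat_lit 11294) (nat_lit 15) (nat_lit 4))
    (@En.n l40842 (nat_lit 11206) (nat_lit 0) (nat_lit 13))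
    (@En.i (nat_lit 10465) (nat_lit 1) (nat_lit 7))
    (@En.n l40843 (nat_lit 11286) (nat_lit 4) (nat_lit 8))
    (@En.n l30164 (nat_lit 10279) (nat_lit 3) (nat_lit 12))
    (@En.i (nat_lit 11982) (nat_lit 6) (nat_lit 5))
    (@En.n l2687 (nat_lit 11285) (nat_lit 10) (nat_lit 6))
    (@En.i (nat_lit 11841) (nat_lit 8) (nat_lit 6))
    (@En.n l23338 (nat_lit 9243) (nat_lit 9) (nat_lit 7))
    (@En.n l30165 (nat_lit 9108) (nat_lit 11) (nat_lit 9))
    (@En.n l10040 (nat_lit 2312) (nat_lit 7) (nat_lit 11))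
    (@En.n l40844 (nat_lit 11789) (nat_lit 13) (nat_lit 8))
    (@En.n l40845 (nat_lit 11382) (nat_lit 6) (nat_lit 10))
    (@En.n l50 (nat_lit 11055) (nat_lit 13) (nat_lit 10))
    (@En.i (nat_lit 11290) (nat_lit 15) (nat_lit 3))))
  (@Cl.mk (nat_lit 0x3000a000a0008000b00090008000600060005000b00080007000d00080005) (nat_lit 0x545163000440210) (nat_lit 16) Lb.e (@T16.mk En
    (@En.n l30720 (nat_lit 7931) (nat_lit 0) (nat_lit 5))
    (@En.i (nat_lit 5160) (nat_lit 0) (nat_lit 8))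
    (@En.n l30721 (nat_lit 11204) (nat_lit 2) (nat_lit 13))
    (@En.i (nat_lit 10467) (nat_lit 9) (nat_lit 7))
    (@En.n l30722 (nat_lit 11288) (nat_lit 4) (nat_lit 8))
    (@En.n l30723 (nat_lit 10276) (nat_lit 6) (nat_lit 11))
    (@En.n l29307 (nat_lit 11983) (nat_lit 6) (nat_lit 5))
    (@En.n l2687 (nat_lit 11287) (nat_lit 10) (nat_lit 6))
    (@En.i (nat_lit 9733) (nat_lit 8) (nat_lit 6))
    (@En.n l30724 (nat_lit 11837) (nat_lit 8) (nat_lit 8))
    (@En.n l30165 (nat_lit 9124) (nat_lit 11) (nat_lit 9))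
    (@En.n l10040 (nat_lit 2313) (nat_lit 7) (nat_lit 11))
    (@En.n l30725 (nat_lit 11790) (nat_lit 13) (nat_lit 8))
    (@En.n l30726 (nat_lit 11381) (nat_lit 6) (nat_lit 10))
    (@En.n l30727 (nat_lit 11858) (nat_lit 14) (nat_lit 10))
    (@En.n l7 (nat_lit 11289) (nat_lit 15) (nat_lit 3))))
  (@Cl.mk (nat_lit 0x20007000c000b000800060004000c0005000c0009000400080004000e000a) (nat_lit 0x66300505504025) (nat_lit 16) Lb.e (@T16.mk En
    (@En.n l14139 (nat_lit 9991) (nat_lit 12) (nat_lit 10))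
    (@En.n l10571 (nat_lit 7187) (nat_lit 1) (nat_lit 14))
    (@En.i (nat_lit 11292) (nat_lit 2) (nat_lit 4))
    (@En.n l14140 (nat_lit 12033) (nat_lit 3) (nat_lit 8))
    (@En.n l13906 (nat_lit 11285) (nat_lit 4) (nat_lit 4))
    (@En.n l10573 (nat_lit 12795) (nat_lit 5) (nat_lit 9))
    (@En.n l14141 (nat_lit 11201) (nat_lit 7) (nat_lit 12))
    (@En.n l13906 (nat_lit 11338) (nat_lit 7) (nat_lit 5))
    (@En.n l10577 (nat_lit 11083) (nat_lit 9) (nat_lit 12))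
    (@En.n l14141 (nat_lit 12737) (nat_lit 9) (nat_lit 4))
    (@En.n l13906 (nat_lit 9150) (nat_lit 11) (nat_lit 6))
    (@En.n l14142 (nat_lit 9244) (nat_lit 12) (nat_lit 8))
    (@En.n l14140 (nat_lit 9989) (nat_lit 13) (nat_lit 11))
    (@En.n l14143 (nat_lit 7916) (nat_lit 14) (nat_lit 12))
    (@En.n l14144 (nat_lit 10480) (nat_lit 4) (nat_lit 7))
    (@En.n l18 (nat_lit 11291) (nat_lit 15) (nat_lit 2))))
  (@Cl.mk (nat_lit 0x20006000c000b000a00060004000b0005000c0006000a00050004000e000a) (nat_lit 0xa9500504050077) (nat_lit 16) Lb.e (@T16.mk En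
    (@En.n l14139 (nat_lit 10284) (nat_lit 14) (nat_lit 10))
    (@En.n l16289 (nat_lit 9870) (nat_lit 1) (nat_lit 14))
    (@En.n l7 (nat_lit 12794) (nat_lit 2) (nat_lit 4))
    (@En.n l13906 (nat_lit 11287) (nat_lit 3) (nat_lit 5))
    (@En.n l2863 (nat_lit 12238) (nat_lit 4) (nat_lit 10))
    (@En.n l2781 (nat_lit 6953) (nat_lit 5) (nat_lit 6))
    (@En.n l14141 (nat_lit 11197) (nat_lit 7) (nat_lit 12))
    (@En.n l18265 (nat_lit 11336) (nat_lit 7) (nat_lit 5))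
    (@En.n l28076 (nat_lit 9569) (nat_lit 9) (nat_lit 11))
    (@En.n l28077 (nat_lit 12460) (nat_lit 9) (nat_lit 4))
    (@En.i (nat_lit 9396) (nat_lit 11) (nat_lit 6))
    (@En.n l28078 (nat_lit 11167) (nat_lit 12) (nat_lit 10))
    (@En.n l9879 (nat_lit 9183) (nat_lit 13) (nat_lit 11))
    (@En.n l28079 (nat_lit 7917) (nat_lit 14) (nat_lit 12))
    (@En.n l9877 (nat_lit 11773) (nat_lit 13) (nat_lit 6))
    (@En.n l18 (nat_lit 11292) (nat_lit 15) (nat_lit 2))))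
  (@Cl.mk (nat_lit 0x20008000c0009000800060004000c000b00080007000400080005000e000a) (nat_lit 0x3615005640060b5) (nat_lit 16) Lb.e (@T16.mk En
    (@En.i (nat_lit 11294) (nat_lit 12) (nat_lit 10))
    (@En.n l27766 (nat_lit 7186) (nat_lit 1) (nat_lit 14))
    (@En.n l27767 (nat_lit 7928) (nat_lit 2) (nat_lit 5))
    (@En.n l3696 (nat_lit 12092) (nat_lit 3) (nat_lit 8))
    (@En.n l17351 (nat_lit 11291) (nat_lit 4) (nat_lit 4))
    (@En.n l9877 (nat_lit 11310) (nat_lit 5) (nat_lit 7))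
    (@En.n l27768 (nat_lit 12793) (nat_lit 6) (nat_lit 8))
    (@En.n l9879 (nat_lit 11287) (nat_lit 8) (nat_lit 11))
    (@En.n l27769 (nat_lit 11082) (nat_lit 9) (nat_lit 12))
    (@En.n l27770 (nat_lit 9732) (nat_lit 9) (nat_lit 4))
    (@En.i (nat_lit 10216) (nat_lit 11) (nat_lit 6))
    (@En.n l24684 (nat_lit 12591) (nat_lit 12) (nat_lit 8))
    (@En.i (nat_lit 8962) (nat_lit 13) (nat_lit 9))
    (@En.i (nat_lit 7907) (nat_lit 14) (nat_lit 12))
    (@En.n l27771 (nat_lit 11096) (nat_lit 4) (nat_lit 8))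
    (@En.n l7 (nat_lit 11293) (nat_lit 15) (nat_lit 2))))
  (@Cl.mk (nat_lit 0x400090005000a000a0007000b00080007000600060005000c000b00090008) (nat_lit 0x504301100004534) (nat_lit 16) Lb.e (@T16.mk En
    (@En.n l32054 (nat_lit 10466) (nat_lit 0) (nat_lit 8))
    (@En.n l36139 (nat_lit 10424) (nat_lit 1) (nat_lit 9))
    (@En.n l36140 (nat_lit 11290) (nat_lit 5) (nat_lit 11))
    (@En.n l36141 (nat_lit 11080) (nat_lit 3) (nat_lit 12))
    (@En.n l36142 (nat_lit 10425) (nat_lit 11) (nat_lit 5))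
    (@En.n l77 (nat_lit 11293) (nat_lit 10) (nat_lit 6))
    (@En.i (nat_lit 10181) (nat_lit 10) (nat_lit 6))
    (@En.n l22962 (nat_lit 12038) (nat_lit 9) (nat_lit 7))
    (@En.n l36143 (nat_lit 8964) (nat_lit 8) (nat_lit 8))
    (@En.i (nat_lit 2317) (nat_lit 8) (nat_lit 11))
    (@En.n l396 (nat_lit 8013) (nat_lit 9) (nat_lit 7))
    (@En.n l6367 (nat_lit 11295) (nat_lit 6) (nat_lit 10))
    (@En.n l27960 (nat_lit 10279) (nat_lit 10) (nat_lit 10))
    (@En.n l36144 (nat_lit 11224) (nat_lit 14) (nat_lit 5))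
    (@En.n l3696 (nat_lit 12093) (nat_lit 0) (nat_lit 9))
    (@En.n l36145 (nat_lit 9991) (nat_lit 15) (nat_lit 4))))
  (@Cl.mk (nat_lit 0x20006000c000b000a00090004000a0005000a0006000a00070006000e0006) (nat_lit 0x86620502010060) (nat_lit 16) Lb.e (@T16.mk En
    (@En.n l6979 (nat_lit 11294) (nat_lit 6) (nat_lit 6))
    (@En.n l8151 (nat_lit 9483) (nat_lit 1) (nat_lit 14))
    (@En.n l20268 (nat_lit 12039) (nat_lit 2) (nat_lit 6))
    (@En.n l20269 (nat_lit 9120) (nat_lit 3) (nat_lit 7))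
    (@En.i (nat_lit 2315) (nat_lit 4) (nat_lit 10))
    (@En.n l763 (nat_lit 8007) (nat_lit 5) (nat_lit 6))
    (@En.n l19263 (nat_lit 11813) (nat_lit 7) (nat_lit 10))
    (@En.n l20270 (nat_lit 11225) (nat_lit 7) (nat_lit 5))
    (@En.n l3695 (nat_lit 11489) (nat_lit 9) (nat_lit 10))
    (@En.n l20271 (nat_lit 11303) (nat_lit 9) (nat_lit 4))
    (@En.n l15339 (nat_lit 11234) (nat_lit 11) (nat_lit 9))
    (@En.n l20272 (nat_lit 11297) (nat_lit 12) (nat_lit 10))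
    (@En.n l16720 (nat_lit 11381) (nat_lit 13) (nat_lit 11))
    (@En.n l19263 (nat_lit 11448) (nat_lit 14) (nat_lit 12))
    (@En.n l20273 (nat_lit 12024) (nat_lit 13) (nat_lit 6))
    (@En.n l50 (nat_lit 11295) (nat_lit 15) (nat_lit 2))))
noncomputable def a706 : T16 Cl := @T16.mk Cl
  (@Cl.mk (nat_lit 0x20006000d000b000800030009000d0005000a0003000a00080007000e0006) (nat_lit 0xa8104706010060) (nat_lit 16) Lb.e (@T16.mk En
    (@En.n l36124 (nat_lit 11298) (nat_lit 5) (nat_lit 6))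
    (@En.n l15323 (nat_lit 7467) (nat_lit 1) (nat_lit 14))
    (@En.n l28 (nat_lit 12040) (nat_lit 2) (nat_lit 7))
    (@En.i (nat_lit 12197) (nat_lit 3) (nat_lit 8))
    (@En.n l36125 (nat_lit 7046) (nat_lit 4) (nat_lit 10))
    (@En.i (nat_lit 11297) (nat_lit 5) (nat_lit 3))
    (@En.n l14824 (nat_lit 11040) (nat_lit 0) (nat_lit 10))
    (@En.n l17700 (nat_lit 11295) (nat_lit 7) (nat_lit 5))
    (@En.n l36124 (nat_lit 10937) (nat_lit 9) (nat_lit 13))
    (@En.n l476 (nat_lit 11697) (nat_lit 10) (nat_lit 9))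
    (@En.n l3135 (nat_lit 11299) (nat_lit 10) (nat_lit 3))
    (@En.n l36126 (nat_lit 6493) (nat_lit 12) (nat_lit 8))
    (@En.n l36127 (nat_lit 11304) (nat_lit 13) (nat_lit 11))
    (@En.n l4547 (nat_lit 11450) (nat_lit 14) (nat_lit 13))
    (@En.n l36128 (nat_lit 10898) (nat_lit 13) (nat_lit 6))
    (@En.n l17 (nat_lit 11296) (nat_lit 15) (nat_lit 2))))
  (@Cl.mk (nat_lit 0x20006000d000a000800030009000d000900060003000a00080007000e0007) (nat_lit 0x55105840023040) (nat_lit 16) Lb.e (@T16.mk En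
    (@En.n l36148 (nat_lit 10424) (nat_lit 5) (nat_lit 7))
    (@En.n l15323 (nat_lit 9018) (nat_lit 1) (nat_lit 14))
    (@En.n l36149 (nat_lit 12041) (nat_lit 2) (nat_lit 7))
    (@En.i (nat_lit 12720) (nat_lit 3) (nat_lit 8))
    (@En.n l36150 (nat_lit 10864) (nat_lit 4) (nat_lit 10))
    (@En.n l50 (nat_lit 11296) (nat_lit 5) (nat_lit 3))
    (@En.n l36151 (nat_lit 8005) (nat_lit 6) (nat_lit 6))
    (@En.n l36150 (nat_lit 10423) (nat_lit 8) (nat_lit 9))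
    (@En.n l36151 (nat_lit 10933) (nat_lit 9) (nat_lit 13))
    (@En.n l36152 (nat_lit 11687) (nat_lit 10) (nat_lit 9))
    (@En.n l3135 (nat_lit 11300) (nat_lit 10) (nat_lit 3))
    (@En.n l36126 (nat_lit 6494) (nat_lit 12) (nat_lit 8))
    (@En.n l36153 (nat_lit 11378) (nat_lit 13) (nat_lit 10))
    (@En.n l36154 (nat_lit 11452) (nat_lit 14) (nat_lit 13))
    (@En.n l36151 (nat_lit 12026) (nat_lit 13) (nat_lit 6))
    (@En.n l17 (nat_lit 11297) (nat_lit 15) (nat_lit 2))))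
  (@Cl.mk (nat_lit 0x30008000c0005000a000a0004000b00090008000600060005000d000b0007) (nat_lit 0x480470303000a70) (nat_lit 16) Lb.e (@T16.mk En
    (@En.n l31151 (nat_lit 6010) (nat_lit 0) (nat_lit 7))
    (@En.n l77 (nat_lit 10284) (nat_lit 5) (nat_lit 11))
    (@En.n l31152 (nat_lit 11477) (nat_lit 2) (nat_lit 13))
    (@En.n l31153 (nat_lit 11818) (nat_lit 3) (nat_lit 5))
    (@En.n l72 (nat_lit 12792) (nat_lit 10) (nat_lit 6))
    (@En.n l18 (nat_lit 10182) (nat_lit 5) (nat_lit 6))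
    (@En.n l31154 (nat_lit 12037) (nat_lit 6) (nat_lit 8))
    (@En.n l31155 (nat_lit 12194) (nat_lit 7) (nat_lit 9))
    (@En.n l31156 (nat_lit 5313) (nat_lit 9) (nat_lit 11))
    (@En.n l31157 (nat_lit 11984) (nat_lit 9) (nat_lit 4))
    (@En.n l31158 (nat_lit 11296) (nat_lit 6) (nat_lit 10))
    (@En.n l31159 (nat_lit 11980) (nat_lit 12) (nat_lit 10))
    (@En.n l31156 (nat_lit 11294) (nat_lit 13) (nat_lit 5))
    (@En.i (nat_lit 12006) (nat_lit 7) (nat_lit 12))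
    (@En.n l31160 (nat_lit 10913) (nat_lit 1) (nat_lit 8))
    (@En.n l28 (nat_lit 11301) (nat_lit 15) (nat_lit 3))))
  (@Cl.mk (nat_lit 0x20006000d0007000c00030009000d0004000a0003000a00090007000e0006) (nat_lit 0x90904705017060) (nat_lit 16) Lb.e (@T16.mk En
    (@En.n l3056 (nat_lit 11301) (nat_lit 5) (nat_lit 6))
    (@En.i (nat_lit 7464) (nat_lit 1) (nat_lit 14))
    (@En.n l23790 (nat_lit 12043) (nat_lit 2) (nat_lit 7))
    (@En.n l7384 (nat_lit 12713) (nat_lit 3) (nat_lit 9))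
    (@En.n l9642 (nat_lit 7043) (nat_lit 4) (nat_lit 10))
    (@En.i (nat_lit 11300) (nat_lit 5) (nat_lit 3))
    (@En.n l11727 (nat_lit 11037) (nat_lit 0) (nat_lit 10))
    (@En.n l15606 (nat_lit 11303) (nat_lit 7) (nat_lit 4))
    (@En.n l3056 (nat_lit 10935) (nat_lit 9) (nat_lit 13))
    (@En.n l1769 (nat_lit 12063) (nat_lit 10) (nat_lit 9))
    (@En.n l1412 (nat_lit 11296) (nat_lit 10) (nat_lit 3))
    (@En.n l5588 (nat_lit 11266) (nat_lit 12) (nat_lit 12))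
    (@En.n l17696 (nat_lit 11305) (nat_lit 13) (nat_lit 7))
    (@En.n l23791 (nat_lit 11454) (nat_lit 14) (nat_lit 13))
    (@En.n l6593 (nat_lit 10899) (nat_lit 13) (nat_lit 6))
    (@En.n l17 (nat_lit 11299) (nat_lit 15) (nat_lit 2))))
  (@Cl.mk (nat_lit 0x20006000d0007000b00030009000d000900050003000a00090007000e0007) (nat_lit 0x60405840027090) (nat_lit 16) Lb.e (@T16.mk En
    (@En.n l31428 (nat_lit 11302) (nat_lit 5) (nat_lit 7))
    (@En.i (nat_lit 9900) (nat_lit 1) (nat_lit 14))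
    (@En.n l31429 (nat_lit 12366) (nat_lit 2) (nat_lit 7))
    (@En.n l7384 (nat_lit 12693) (nat_lit 3) (nat_lit 9))
    (@En.n l31430 (nat_lit 10863) (nat_lit 4) (nat_lit 10))
    (@En.n l50 (nat_lit 11299) (nat_lit 5) (nat_lit 3))
    (@En.n l21758 (nat_lit 7999) (nat_lit 6) (nat_lit 5))
    (@En.n l17695 (nat_lit 10421) (nat_lit 8) (nat_lit 9))
    (@En.n l3056 (nat_lit 10932) (nat_lit 9) (nat_lit 13))
    (@En.n l9019 (nat_lit 12318) (nat_lit 10) (nat_lit 9))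
    (@En.n l1412 (nat_lit 11297) (nat_lit 10) (nat_lit 3))
    (@En.n l10264 (nat_lit 9889) (nat_lit 12) (nat_lit 11))
    (@En.n l31431 (nat_lit 11306) (nat_lit 13) (nat_lit 7))
    (@En.n l31432 (nat_lit 11455) (nat_lit 14) (nat_lit 13))
    (@En.n l6593 (nat_lit 12027) (nat_lit 13) (nat_lit 6))
    (@En.n l17 (nat_lit 11300) (nat_lit 15) (nat_lit 2))))
  (@Cl.mk (nat_lit 0x30008000c0004000a000a0004000b000a0008000600060005000d0006000c) (nat_lit 0x480660385000906) (nat_lit 16) Lb.e (@T16.mk En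
    (@En.n l38523 (nat_lit 11200) (nat_lit 0) (nat_lit 12))
    (@En.i (nat_lit 11307) (nat_lit 4) (nat_lit 6))
    (@En.n l38524 (nat_lit 11414) (nat_lit 2) (nat_lit 13))
    (@En.n l38525 (nat_lit 11817) (nat_lit 3) (nat_lit 5))
    (@En.n l72 (nat_lit 12794) (nat_lit 10) (nat_lit 6))
    (@En.n l18 (nat_lit 9174) (nat_lit 5) (nat_lit 6))
    (@En.n l38526 (nat_lit 11853) (nat_lit 6) (nat_lit 8))
    (@En.n l38527 (nat_lit 12692) (nat_lit 6) (nat_lit 10))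
    (@En.n l8610 (nat_lit 7050) (nat_lit 9) (nat_lit 11))
    (@En.i (nat_lit 11985) (nat_lit 9) (nat_lit 4))
    (@En.n l38528 (nat_lit 11299) (nat_lit 6) (nat_lit 10))
    (@En.n l6042 (nat_lit 11981) (nat_lit 12) (nat_lit 10))
    (@En.i (nat_lit 9991) (nat_lit 13) (nat_lit 4))
    (@En.i (nat_lit 12005) (nat_lit 7) (nat_lit 12))
    (@En.n l38529 (nat_lit 12057) (nat_lit 1) (nat_lit 8))
    (@En.i (nat_lit 11298) (nat_lit 15) (nat_lit 3))))
  (@Cl.mk (nat_lit 0x30008000c0009000900060004000b000a0008000700070005000d0006000a) (nat_lit 0x435500284000505) (nat_lit 16) Lb.e (@T16.mk En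
    (@En.n l33934 (nat_lit 8180) (nat_lit 0) (nat_lit 10))
    (@En.n l33935 (nat_lit 9342) (nat_lit 7) (nat_lit 6))
    (@En.n l33936 (nat_lit 10518) (nat_lit 2) (nat_lit 13))
    (@En.n l33937 (nat_lit 11794) (nat_lit 3) (nat_lit 5))
    (@En.n l33938 (nat_lit 12795) (nat_lit 9) (nat_lit 7))
    (@En.n l18 (nat_lit 10186) (nat_lit 9) (nat_lit 7))
    (@En.n l33939 (nat_lit 11810) (nat_lit 6) (nat_lit 8))
    (@En.n l33940 (nat_lit 12689) (nat_lit 6) (nat_lit 10))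
    (@En.n l33941 (nat_lit 10861) (nat_lit 9) (nat_lit 11))
    (@En.i (nat_lit 11301) (nat_lit 9) (nat_lit 4))
    (@En.n l33942 (nat_lit 11987) (nat_lit 0) (nat_lit 6))
    (@En.n l33943 (nat_lit 11300) (nat_lit 7) (nat_lit 9))
    (@En.n l33944 (nat_lit 11288) (nat_lit 13) (nat_lit 9))
    (@En.i (nat_lit 10929) (nat_lit 7) (nat_lit 12))
    (@En.n l33945 (nat_lit 12060) (nat_lit 12) (nat_lit 8))
    (@En.n l33946 (nat_lit 10424) (nat_lit 15) (nat_lit 3))))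
  (@Cl.mk (nat_lit 0x20006000c0007000c000b0004000a0004000a0005000a00090006000e0006) (nat_lit 0x80750303016060) (nat_lit 16) Lb.e (@T16.mk En
    (@En.n l16944 (nat_lit 9991) (nat_lit 6) (nat_lit 6))
    (@En.n l16945 (nat_lit 9466) (nat_lit 1) (nat_lit 14))
    (@En.n l16946 (nat_lit 12725) (nat_lit 2) (nat_lit 6))
    (@En.i (nat_lit 9987) (nat_lit 3) (nat_lit 9))
    (@En.n l16947 (nat_lit 2311) (nat_lit 4) (nat_lit 10))
    (@En.n l16914 (nat_lit 7997) (nat_lit 5) (nat_lit 5))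
    (@En.n l16948 (nat_lit 10698) (nat_lit 7) (nat_lit 10))
    (@En.n l16944 (nat_lit 11304) (nat_lit 7) (nat_lit 4))
    (@En.n l16949 (nat_lit 11138) (nat_lit 9) (nat_lit 10))
    (@En.n l16950 (nat_lit 11382) (nat_lit 9) (nat_lit 4))
    (@En.n l16951 (nat_lit 11300) (nat_lit 11) (nat_lit 11))
    (@En.n l16952 (nat_lit 9892) (nat_lit 12) (nat_lit 12))
    (@En.n l3 (nat_lit 9935) (nat_lit 13) (nat_lit 7))
    (@En.n l8628 (nat_lit 9808) (nat_lit 14) (nat_lit 12))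
    (@En.n l16953 (nat_lit 10695) (nat_lit 13) (nat_lit 6))
    (@En.n l17 (nat_lit 11303) (nat_lit 15) (nat_lit 2))))
  (@Cl.mk (nat_lit 0x20006000b0007000c0008000c00050004000a0004000a00090008000e0006) (nat_lit 0x70718008016360) (nat_lit 16) Lb.e (@T16.mk En
    (@En.i (nat_lit 10284) (nat_lit 8) (nat_lit 6))
    (@En.n l32326 (nat_lit 9460) (nat_lit 1) (nat_lit 14))
    (@En.n l32327 (nat_lit 12735) (nat_lit 2) (nat_lit 8))
    (@En.n l32328 (nat_lit 9061) (nat_lit 3) (nat_lit 9))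
    (@En.n l28053 (nat_lit 2314) (nat_lit 4) (nat_lit 10))
    (@En.n l16721 (nat_lit 11378) (nat_lit 5) (nat_lit 4))
    (@En.n l32329 (nat_lit 10729) (nat_lit 7) (nat_lit 10))
    (@En.n l32326 (nat_lit 11299) (nat_lit 7) (nat_lit 4))
    (@En.n l32330 (nat_lit 11381) (nat_lit 8) (nat_lit 5))
    (@En.i (nat_lit 10936) (nat_lit 10) (nat_lit 12))
    (@En.n l32331 (nat_lit 6015) (nat_lit 11) (nat_lit 8))
    (@En.n l17407 (nat_lit 11267) (nat_lit 12) (nat_lit 12))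
    (@En.n l32332 (nat_lit 9635) (nat_lit 13) (nat_lit 7))
    (@En.n l32333 (nat_lit 11392) (nat_lit 14) (nat_lit 11))
    (@En.n l3518 (nat_lit 11103) (nat_lit 13) (nat_lit 6))
    (@En.n l17 (nat_lit 11304) (nat_lit 15) (nat_lit 2))))
  (@Cl.mk (nat_lit 0x200070007000c00080008000d0004000900030009000900080008000e0007) (nat_lit 0x5356030251470) (nat_lit 16) Lb.e (@T16.mk En
    (@En.n l20473 (nat_lit 11307) (nat_lit 7) (nat_lit 7))
    (@En.n l3135 (nat_lit 9308) (nat_lit 1) (nat_lit 14))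
    (@En.n l1577 (nat_lit 11650) (nat_lit 2) (nat_lit 8))
    (@En.i (nat_lit 11296) (nat_lit 3) (nat_lit 8))
    (@En.n l152 (nat_lit 11645) (nat_lit 7) (nat_lit 9))
    (@En.n l20474 (nat_lit 7041) (nat_lit 5) (nat_lit 9))
    (@En.n l17651 (nat_lit 11306) (nat_lit 6) (nat_lit 3))
    (@En.n l20475 (nat_lit 11354) (nat_lit 0) (nat_lit 9))
    (@En.n l8434 (nat_lit 9935) (nat_lit 8) (nat_lit 4))
    (@En.n l20473 (nat_lit 12315) (nat_lit 10) (nat_lit 13))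
    (@En.n l14629 (nat_lit 11357) (nat_lit 11) (nat_lit 8))
    (@En.n l601 (nat_lit 6495) (nat_lit 12) (nat_lit 8))
    (@En.n l20476 (nat_lit 7582) (nat_lit 13) (nat_lit 12))
    (@En.n l20477 (nat_lit 12541) (nat_lit 14) (nat_lit 7))
    (@En.n l20478 (nat_lit 11925) (nat_lit 7) (nat_lit 7))
    (@En.n l17 (nat_lit 11305) (nat_lit 15) (nat_lit 2))))
  (@Cl.mk (nat_lit 0x200070007000b00080008000d0008000500030009000900080008000e0008) (nat_lit 0x5157400254553) (nat_lit 16) Lb.e (@T16.mk En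
    (@En.n l20506 (nat_lit 9342) (nat_lit 10) (nat_lit 8))
    (@En.n l3324 (nat_lit 9310) (nat_lit 1) (nat_lit 14))
    (@En.n l20507 (nat_lit 11651) (nat_lit 2) (nat_lit 8))
    (@En.n l20508 (nat_lit 11297) (nat_lit 3) (nat_lit 8))
    (@En.n l20509 (nat_lit 11646) (nat_lit 7) (nat_lit 9))
    (@En.n l20510 (nat_lit 10872) (nat_lit 5) (nat_lit 9))
    (@En.n l8740 (nat_lit 11305) (nat_lit 6) (nat_lit 3))
    (@En.n l7611 (nat_lit 12534) (nat_lit 7) (nat_lit 5))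
    (@En.n l20510 (nat_lit 11322) (nat_lit 9) (nat_lit 8))
    (@En.n l20511 (nat_lit 12319) (nat_lit 10) (nat_lit 13))
    (@En.n l8744 (nat_lit 11358) (nat_lit 11) (nat_lit 8))
    (@En.i (nat_lit 6497) (nat_lit 12) (nat_lit 8))
    (@En.i (nat_lit 9857) (nat_lit 13) (nat_lit 11))
    (@En.n l77 (nat_lit 12540) (nat_lit 14) (nat_lit 7))
    (@En.n l8770 (nat_lit 11926) (nat_lit 7) (nat_lit 7))
    (@En.n l3 (nat_lit 11306) (nat_lit 15) (nat_lit 2))))
  (@Cl.mk (nat_lit 0x4000900090004000a000a000900090007000700060006000c00070007000c) (nat_lit 0x240381400004003) (nat_lit 16) Lb.e (@T16.mk En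
    (@En.i (nat_lit 12003) (nat_lit 0) (nat_lit 12))
    (@En.n l36469 (nat_lit 11354) (nat_lit 9) (nat_lit 7))
    (@En.n l36470 (nat_lit 5160) (nat_lit 5) (nat_lit 7))
    (@En.n l36471 (nat_lit 7574) (nat_lit 3) (nat_lit 12))
    (@En.n l36472 (nat_lit 12542) (nat_lit 10) (nat_lit 6))
    (@En.n l17324 (nat_lit 11821) (nat_lit 10) (nat_lit 6))
    (@En.n l72 (nat_lit 11337) (nat_lit 9) (nat_lit 7))
    (@En.n l18 (nat_lit 8753) (nat_lit 7) (nat_lit 7))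
    (@En.n l17324 (nat_lit 11653) (nat_lit 7) (nat_lit 9))
    (@En.n l55 (nat_lit 11298) (nat_lit 7) (nat_lit 9))
    (@En.n l36473 (nat_lit 11644) (nat_lit 6) (nat_lit 10))
    (@En.n l36474 (nat_lit 6042) (nat_lit 12) (nat_lit 10))
    (@En.n l36475 (nat_lit 10791) (nat_lit 15) (nat_lit 4))
    (@En.n l36476 (nat_lit 11305) (nat_lit 7) (nat_lit 9))
    (@En.n l36477 (nat_lit 10005) (nat_lit 1) (nat_lit 9))
    (@En.n l28048 (nat_lit 11350) (nat_lit 15) (nat_lit 4))))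
  (@Cl.mk (nat_lit 0x2000d000b000a0003000a00070005000c0006000d000600040003000e0009) (nat_lit 0x5410600601000b7) (nat_lit 16) Lb.e (@T16.mk En
    (@En.n l61 (nat_lit 10467) (nat_lit 4) (nat_lit 9))
    (@En.n l16289 (nat_lit 9613) (nat_lit 1) (nat_lit 14))
    (@En.n l7 (nat_lit 11309) (nat_lit 2) (nat_lit 3))
    (@En.n l10832 (nat_lit 7924) (nat_lit 3) (nat_lit 4))
    (@En.i (nat_lit 7432) (nat_lit 4) (nat_lit 6))
    (@En.n l14725 (nat_lit 5943) (nat_lit 6) (nat_lit 13))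
    (@En.n l14723 (nat_lit 7942) (nat_lit 6) (nat_lit 6))
    (@En.n l8332 (nat_lit 11616) (nat_lit 8) (nat_lit 12))
    (@En.n l14725 (nat_lit 8541) (nat_lit 8) (nat_lit 5))
    (@En.i (nat_lit 10196) (nat_lit 14) (nat_lit 7))
    (@En.i (nat_lit 11292) (nat_lit 11) (nat_lit 10))
    (@En.n l15575 (nat_lit 11249) (nat_lit 11) (nat_lit 3))
    (@En.n l619 (nat_lit 7835) (nat_lit 0) (nat_lit 10))
    (@En.n l3866 (nat_lit 7815) (nat_lit 14) (nat_lit 11))
    (@En.i (nat_lit 10540) (nat_lit 2) (nat_lit 13))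
    (@En.n l18 (nat_lit 11308) (nat_lit 15) (nat_lit 2))))
  (@Cl.mk (nat_lit 0x2000d000b000a0003000900070005000d0006000d000300070003000e0009) (nat_lit 0x6460600a02000b7) (nat_lit 16) Lb.e (@T16.mk En
    (@En.n l61 (nat_lit 10465) (nat_lit 12) (nat_lit 9))
    (@En.i (nat_lit 5803) (nat_lit 1) (nat_lit 14))
    (@En.i (nat_lit 11308) (nat_lit 2) (nat_lit 3))
    (@En.n l29153 (nat_lit 9928) (nat_lit 3) (nat_lit 7))
    (@En.i (nat_lit 11310) (nat_lit 4) (nat_lit 3))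
    (@En.i (nat_lit 5945) (nat_lit 0) (nat_lit 13))
    (@En.i (nat_lit 11311) (nat_lit 6) (nat_lit 6))
    (@En.n l11245 (nat_lit 11316) (nat_lit 8) (nat_lit 13))
    (@En.n l12811 (nat_lit 8539) (nat_lit 8) (nat_lit 5))
    (@En.i (nat_lit 10193) (nat_lit 14) (nat_lit 7))
    (@En.i (nat_lit 12794) (nat_lit 11) (nat_lit 9))
    (@En.n l12811 (nat_lit 11247) (nat_lit 11) (nat_lit 3))
    (@En.n l619 (nat_lit 9103) (nat_lit 0) (nat_lit 10))
    (@En.n l3866 (nat_lit 7814) (nat_lit 14) (nat_lit 11))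
    (@En.i (nat_lit 10547) (nat_lit 2) (nat_lit 13))
    (@En.n l18 (nat_lit 11309) (nat_lit 15) (nat_lit 2))))
  (@Cl.mk (nat_lit 0x2000d000b00090003000900070005000d000c0007000300070004000e0009) (nat_lit 0x542060087000027) (nat_lit 16) Lb.e (@T16.mk En
    (@En.n l61 (nat_lit 10466) (nat_lit 12) (nat_lit 9))
    (@En.n l17194 (nat_lit 5801) (nat_lit 1) (nat_lit 14))
    (@En.n l20648 (nat_lit 7926) (nat_lit 2) (nat_lit 4))
    (@En.n l16254 (nat_lit 11464) (nat_lit 3) (nat_lit 7))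
    (@En.n l28 (nat_lit 11309) (nat_lit 4) (nat_lit 3))
    (@En.n l17194 (nat_lit 6009) (nat_lit 0) (nat_lit 7))
    (@En.n l77 (nat_lit 11308) (nat_lit 7) (nat_lit 12))
    (@En.n l8331 (nat_lit 10957) (nat_lit 8) (nat_lit 13))
    (@En.n l16254 (nat_lit 8540) (nat_lit 8) (nat_lit 5))
    (@En.i (nat_lit 10166) (nat_lit 14) (nat_lit 7))
    (@En.i (nat_lit 12792) (nat_lit 11) (nat_lit 9))
    (@En.n l15575 (nat_lit 11251) (nat_lit 11) (nat_lit 3))
    (@En.n l97 (nat_lit 8967) (nat_lit 0) (nat_lit 9))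
    (@En.n l31228 (nat_lit 7813) (nat_lit 14) (nat_lit 11))
    (@En.i (nat_lit 11767) (nat_lit 2) (nat_lit 13))
    (@En.n l18 (nat_lit 11310) (nat_lit 15) (nat_lit 2))))
  (@Cl.mk (nat_lit 0x2000c000a000a00090004000a000800060006000d000700060003000e0008) (nat_lit 0x641305500900040) (nat_lit 16) Lb.e (@T16.mk En
    (@En.n l61 (nat_lit 11322) (nat_lit 14) (nat_lit 8))
    (@En.i (nat_lit 7177) (nat_lit 1) (nat_lit 14))
    (@En.n l14723 (nat_lit 7942) (nat_lit 2) (nat_lit 3))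
    (@En.n l33004 (nat_lit 11645) (nat_lit 3) (nat_lit 6))
    (@En.i (nat_lit 5157) (nat_lit 4) (nat_lit 7))
    (@En.n l33384 (nat_lit 9371) (nat_lit 6) (nat_lit 13))
    (@En.n l11 (nat_lit 11318) (nat_lit 10) (nat_lit 6))
    (@En.n l12811 (nat_lit 9191) (nat_lit 7) (nat_lit 6))
    (@En.i (nat_lit 8503) (nat_lit 9) (nat_lit 8))
    (@En.i (nat_lit 11337) (nat_lit 10) (nat_lit 10))
    (@En.n l936 (nat_lit 11312) (nat_lit 10) (nat_lit 4))
    (@En.n l55 (nat_lit 11310) (nat_lit 12) (nat_lit 9))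
    (@En.n l2940 (nat_lit 7940) (nat_lit 6) (nat_lit 10))
    (@En.n l3866 (nat_lit 7816) (nat_lit 14) (nat_lit 10))
    (@En.i (nat_lit 10520) (nat_lit 12) (nat_lit 12))
    (@En.n l18 (nat_lit 11311) (nat_lit 15) (nat_lit 2))))
noncomputable def a707 : T16 Cl := @T16.mk Cl
  (@Cl.mk (nat_lit 0x2000c0007000b000b0004000a000800050005000d000900060003000e0008) (nat_lit 0x705306200540053) (nat_lit 16) Lb.e (@T16.mk En
    (@En.n l61 (nat_lit 9934) (nat_lit 14) (nat_lit 8))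
    (@En.n l29444 (nat_lit 7176) (nat_lit 1) (nat_lit 14))
    (@En.n l6319 (nat_lit 11313) (nat_lit 2) (nat_lit 3))
    (@En.n l33667 (nat_lit 9932) (nat_lit 3) (nat_lit 6))
    (@En.i (nat_lit 8006) (nat_lit 4) (nat_lit 9))
    (@En.i (nat_lit 10050) (nat_lit 6) (nat_lit 13))
    (@En.n l1154 (nat_lit 11315) (nat_lit 11) (nat_lit 5))
    (@En.n l12811 (nat_lit 11888) (nat_lit 7) (nat_lit 5))
    (@En.i (nat_lit 8701) (nat_lit 9) (nat_lit 8))
    (@En.n l10577 (nat_lit 12599) (nat_lit 10) (nat_lit 10))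
    (@En.n l38251 (nat_lit 11248) (nat_lit 10) (nat_lit 4))
    (@En.n l8772 (nat_lit 11314) (nat_lit 12) (nat_lit 11))
    (@En.i (nat_lit 11309) (nat_lit 13) (nat_lit 11))
    (@En.n l1769 (nat_lit 11338) (nat_lit 14) (nat_lit 7))
    (@En.i (nat_lit 11477) (nat_lit 12) (nat_lit 12))
    (@En.n l18 (nat_lit 11312) (nat_lit 15) (nat_lit 2))))
  (@Cl.mk (nat_lit 0x2000c0006000b000b0004000b000800050005000d0005000a0003000e0008) (nat_lit 0x505108400506053) (nat_lit 16) Lb.e (@T16.mk En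
    (@En.n l3234 (nat_lit 11328) (nat_lit 14) (nat_lit 8))
    (@En.n l601 (nat_lit 11515) (nat_lit 1) (nat_lit 14))
    (@En.n l965 (nat_lit 11312) (nat_lit 2) (nat_lit 3))
    (@En.n l6195 (nat_lit 12523) (nat_lit 3) (nat_lit 10))
    (@En.i (nat_lit 7438) (nat_lit 4) (nat_lit 5))
    (@En.n l25167 (nat_lit 10051) (nat_lit 6) (nat_lit 13))
    (@En.n l152 (nat_lit 11319) (nat_lit 11) (nat_lit 5))
    (@En.n l31088 (nat_lit 11889) (nat_lit 7) (nat_lit 5))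
    (@En.n l1240 (nat_lit 8695) (nat_lit 9) (nat_lit 8))
    (@En.n l617 (nat_lit 5308) (nat_lit 10) (nat_lit 11))
    (@En.n l25167 (nat_lit 11250) (nat_lit 10) (nat_lit 4))
    (@En.n l3536 (nat_lit 7938) (nat_lit 5) (nat_lit 11))
    (@En.n l1240 (nat_lit 11308) (nat_lit 13) (nat_lit 11))
    (@En.i (nat_lit 11336) (nat_lit 14) (nat_lit 6))
    (@En.n l6771 (nat_lit 11414) (nat_lit 12) (nat_lit 12))
    (@En.n l50 (nat_lit 11313) (nat_lit 15) (nat_lit 2))))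
  (@Cl.mk (nat_lit 0x2000d0007000b000300090007000e00050002000d000900070003000e0009) (nat_lit 0x802060500450043) (nat_lit 16) Lb.e (@T16.mk En
    (@En.n l1101 (nat_lit 9931) (nat_lit 10) (nat_lit 9))
    (@En.n l2038 (nat_lit 8105) (nat_lit 1) (nat_lit 14))
    (@En.n l152 (nat_lit 7938) (nat_lit 11) (nat_lit 3))
    (@En.n l5588 (nat_lit 11361) (nat_lit 3) (nat_lit 7))
    (@En.i (nat_lit 5747) (nat_lit 14) (nat_lit 9))
    (@En.i (nat_lit 6915) (nat_lit 6) (nat_lit 13))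
    (@En.n l17 (nat_lit 11314) (nat_lit 6) (nat_lit 2))
    (@En.n l1075 (nat_lit 11312) (nat_lit 7) (nat_lit 5))
    (@En.i (nat_lit 6704) (nat_lit 1) (nat_lit 14))
    (@En.n l3082 (nat_lit 8688) (nat_lit 2) (nat_lit 7))
    (@En.n l5515 (nat_lit 12600) (nat_lit 11) (nat_lit 9))
    (@En.i (nat_lit 7940) (nat_lit 4) (nat_lit 3))
    (@En.n l3082 (nat_lit 9102) (nat_lit 0) (nat_lit 11))
    (@En.i (nat_lit 11365) (nat_lit 14) (nat_lit 7))
    (@En.i (nat_lit 11450) (nat_lit 8) (nat_lit 13))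
    (@En.n l28 (nat_lit 11314) (nat_lit 15) (nat_lit 2))))
  (@Cl.mk (nat_lit 0x20005000b00090005000d000900050003000e00070002000b0007000e000b) (nat_lit 0x8503300a005046) (nat_lit 16) Lb.e (@T16.mk En
    (@En.n l965 (nat_lit 11312) (nat_lit 12) (nat_lit 11))
    (@En.n l1246 (nat_lit 11318) (nat_lit 1) (nat_lit 14))
    (@En.i (nat_lit 12549) (nat_lit 14) (nat_lit 7))
    (@En.i (nat_lit 11480) (nat_lit 3) (nat_lit 11))
    (@En.n l50 (nat_lit 11315) (nat_lit 4) (nat_lit 2))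
    (@En.i (nat_lit 11329) (nat_lit 5) (nat_lit 7))
    (@En.n l601 (nat_lit 7172) (nat_lit 7) (nat_lit 14))
    (@En.n l28 (nat_lit 11319) (nat_lit 7) (nat_lit 3))
    (@En.i (nat_lit 11649) (nat_lit 8) (nat_lit 5))
    (@En.n l3213 (nat_lit 8005) (nat_lit 10) (nat_lit 9))
    (@En.i (nat_lit 8108) (nat_lit 11) (nat_lit 13))
    (@En.i (nat_lit 11164) (nat_lit 6) (nat_lit 5))
    (@En.i (nat_lit 8709) (nat_lit 13) (nat_lit 9))
    (@En.i (nat_lit 12299) (nat_lit 9) (nat_lit 11))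
    (@En.i (nat_lit 8039) (nat_lit 9) (nat_lit 5))
    (@En.n l3 (nat_lit 11315) (nat_lit 15) (nat_lit 2))))
  (@Cl.mk (nat_lit 0x2000d0007000b000300090007000d0005000c0003000900070004000e0009) (nat_lit 0x709040901050093) (nat_lit 16) Lb.e (@T16.mk En
    (@En.n l2834 (nat_lit 10955) (nat_lit 4) (nat_lit 9))
    (@En.i (nat_lit 5440) (nat_lit 1) (nat_lit 14))
    (@En.n l18274 (nat_lit 11616) (nat_lit 2) (nat_lit 4))
    (@En.n l1578 (nat_lit 4713) (nat_lit 3) (nat_lit 7))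
    (@En.n l2832 (nat_lit 11312) (nat_lit 4) (nat_lit 9))
    (@En.n l6670 (nat_lit 10957) (nat_lit 5) (nat_lit 3))
    (@En.n l11131 (nat_lit 5585) (nat_lit 0) (nat_lit 12))
    (@En.i (nat_lit 11317) (nat_lit 7) (nat_lit 5))
    (@En.n l23053 (nat_lit 10258) (nat_lit 9) (nat_lit 13))
    (@En.n l2832 (nat_lit 10883) (nat_lit 14) (nat_lit 7))
    (@En.n l575 (nat_lit 11415) (nat_lit 11) (nat_lit 9))
    (@En.n l11131 (nat_lit 11586) (nat_lit 11) (nat_lit 3))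
    (@En.n l12871 (nat_lit 9099) (nat_lit 0) (nat_lit 11))
    (@En.i (nat_lit 8180) (nat_lit 14) (nat_lit 7))
    (@En.n l11131 (nat_lit 10838) (nat_lit 2) (nat_lit 13))
    (@En.n l3 (nat_lit 11316) (nat_lit 15) (nat_lit 2))))
  (@Cl.mk (nat_lit 0x2000c0007000b000a0004000a00080005000c0006000900060004000e0008) (nat_lit 0x505305206040082) (nat_lit 16) Lb.e (@T16.mk En
    (@En.n l21682 (nat_lit 10954) (nat_lit 14) (nat_lit 8))
    (@En.n l33437 (nat_lit 5438) (nat_lit 1) (nat_lit 14))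
    (@En.n l10247 (nat_lit 11620) (nat_lit 2) (nat_lit 4))
    (@En.i (nat_lit 10350) (nat_lit 3) (nat_lit 6))
    (@En.n l132 (nat_lit 11315) (nat_lit 9) (nat_lit 9))
    (@En.n l13134 (nat_lit 5063) (nat_lit 5) (nat_lit 6))
    (@En.n l21593 (nat_lit 10907) (nat_lit 7) (nat_lit 12))
    (@En.n l15961 (nat_lit 11157) (nat_lit 7) (nat_lit 5))
    (@En.n l9450 (nat_lit 10887) (nat_lit 9) (nat_lit 8))
    (@En.n l6669 (nat_lit 11481) (nat_lit 10) (nat_lit 10))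
    (@En.n l10669 (nat_lit 8043) (nat_lit 10) (nat_lit 4))
    (@En.n l16871 (nat_lit 10957) (nat_lit 12) (nat_lit 10))
    (@En.n l9450 (nat_lit 11310) (nat_lit 13) (nat_lit 11))
    (@En.n l32687 (nat_lit 8178) (nat_lit 14) (nat_lit 7))
    (@En.n l132 (nat_lit 10842) (nat_lit 3) (nat_lit 12))
    (@En.n l3 (nat_lit 11317) (nat_lit 15) (nat_lit 2))))
  (@Cl.mk (nat_lit 0x2000a0005000b00090006000d000600050003000e00070002000b000e000a) (nat_lit 0x408604000a00835) (nat_lit 16) Lb.e (@T16.mk En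
    (@En.n l68 (nat_lit 11311) (nat_lit 13) (nat_lit 10))
    (@En.n l17691 (nat_lit 1629) (nat_lit 4) (nat_lit 14))
    (@En.n l6332 (nat_lit 11484) (nat_lit 2) (nat_lit 11))
    (@En.n l18 (nat_lit 11318) (nat_lit 3) (nat_lit 2))
    (@En.n l61 (nat_lit 11321) (nat_lit 4) (nat_lit 7))
    (@En.n l16425 (nat_lit 7171) (nat_lit 1) (nat_lit 14))
    (@En.n l3451 (nat_lit 11320) (nat_lit 6) (nat_lit 3))
    (@En.n l17691 (nat_lit 11647) (nat_lit 3) (nat_lit 5))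
    (@En.n l16425 (nat_lit 5151) (nat_lit 8) (nat_lit 6))
    (@En.n l645 (nat_lit 12246) (nat_lit 10) (nat_lit 13))
    (@En.n l17691 (nat_lit 11165) (nat_lit 6) (nat_lit 6))
    (@En.i (nat_lit 8711) (nat_lit 12) (nat_lit 9))
    (@En.n l17692 (nat_lit 11343) (nat_lit 9) (nat_lit 11))
    (@En.n l2316 (nat_lit 11315) (nat_lit 14) (nat_lit 5))
    (@En.n l3474 (nat_lit 11317) (nat_lit 11) (nat_lit 10))
    (@En.n l67 (nat_lit 11318) (nat_lit 15) (nat_lit 2))))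
  (@Cl.mk (nat_lit 0x20005000c00090005000d0004000a0003000e00070002000b0006000e000b) (nat_lit 0x9403060a004046) (nat_lit 16) Lb.e (@T16.mk En
    (@En.i (nat_lit 11313) (nat_lit 12) (nat_lit 11))
    (@En.i (nat_lit 11320) (nat_lit 1) (nat_lit 14))
    (@En.i (nat_lit 5791) (nat_lit 14) (nat_lit 6))
    (@En.n l6771 (nat_lit 11415) (nat_lit 3) (nat_lit 11))
    (@En.n l50 (nat_lit 11319) (nat_lit 4) (nat_lit 2))
    (@En.n l8898 (nat_lit 11327) (nat_lit 5) (nat_lit 7))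
    (@En.n l601 (nat_lit 12842) (nat_lit 7) (nat_lit 14))
    (@En.i (nat_lit 11315) (nat_lit 7) (nat_lit 3))
    (@En.n l5076 (nat_lit 12557) (nat_lit 9) (nat_lit 10))
    (@En.i (nat_lit 7443) (nat_lit 9) (nat_lit 4))
    (@En.i (nat_lit 8107) (nat_lit 11) (nat_lit 13))
    (@En.n l4155 (nat_lit 11162) (nat_lit 6) (nat_lit 5))
    (@En.n l5076 (nat_lit 7483) (nat_lit 13) (nat_lit 9))
    (@En.n l617 (nat_lit 12393) (nat_lit 9) (nat_lit 12))
    (@En.i (nat_lit 8040) (nat_lit 9) (nat_lit 5))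
    (@En.n l3 (nat_lit 11319) (nat_lit 15) (nat_lit 2))))
  (@Cl.mk (nat_lit 0x200090005000c00090006000d000400070003000e00070002000b000e000a) (nat_lit 0x40a504000c00433) (nat_lit 16) Lb.e (@T16.mk En
    (@En.n l25197 (nat_lit 7942) (nat_lit 13) (nat_lit 10))
    (@En.n l23875 (nat_lit 1635) (nat_lit 4) (nat_lit 14))
    (@En.n l6771 (nat_lit 11418) (nat_lit 2) (nat_lit 11))
    (@En.n l50 (nat_lit 11320) (nat_lit 3) (nat_lit 2))
    (@En.n l3235 (nat_lit 11325) (nat_lit 4) (nat_lit 7))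
    (@En.n l601 (nat_lit 12841) (nat_lit 1) (nat_lit 14))
    (@En.n l1246 (nat_lit 11318) (nat_lit 6) (nat_lit 3))
    (@En.n l25198 (nat_lit 2114) (nat_lit 7) (nat_lit 7))
    (@En.i (nat_lit 7441) (nat_lit 8) (nat_lit 4))
    (@En.n l6606 (nat_lit 11373) (nat_lit 10) (nat_lit 13))
    (@En.n l8520 (nat_lit 11163) (nat_lit 6) (nat_lit 6))
    (@En.n l1241 (nat_lit 7482) (nat_lit 12) (nat_lit 9))
    (@En.n l617 (nat_lit 5791) (nat_lit 9) (nat_lit 12))
    (@En.n l17 (nat_lit 11319) (nat_lit 14) (nat_lit 5))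
    (@En.i (nat_lit 11620) (nat_lit 11) (nat_lit 9))
    (@En.n l3 (nat_lit 11320) (nat_lit 15) (nat_lit 2))))
  (@Cl.mk (nat_lit 0x200090005000a000900090007000d00070006000300070007000b000e0009) (nat_lit 0x406470500000512) (nat_lit 16) Lb.e (@T16.mk En
    (@En.n l68 (nat_lit 11322) (nat_lit 11) (nat_lit 9))
    (@En.n l10040 (nat_lit 1695) (nat_lit 4) (nat_lit 14))
    (@En.n l3125 (nat_lit 11488) (nat_lit 2) (nat_lit 11))
    (@En.n l20729 (nat_lit 11333) (nat_lit 3) (nat_lit 7))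
    (@En.n l50 (nat_lit 11660) (nat_lit 4) (nat_lit 7))
    (@En.i (nat_lit 11325) (nat_lit 5) (nat_lit 3))
    (@En.n l8925 (nat_lit 11650) (nat_lit 0) (nat_lit 6))
    (@En.n l20730 (nat_lit 5150) (nat_lit 7) (nat_lit 7))
    (@En.n l3125 (nat_lit 11702) (nat_lit 9) (nat_lit 13))
    (@En.i (nat_lit 10689) (nat_lit 3) (nat_lit 7))
    (@En.n l2687 (nat_lit 11318) (nat_lit 11) (nat_lit 9))
    (@En.i (nat_lit 10974) (nat_lit 12) (nat_lit 9))
    (@En.n l20731 (nat_lit 12542) (nat_lit 13) (nat_lit 10))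
    (@En.n l267 (nat_lit 11329) (nat_lit 14) (nat_lit 5))
    (@En.n l8015 (nat_lit 10954) (nat_lit 9) (nat_lit 9))
    (@En.n l67 (nat_lit 11321) (nat_lit 15) (nat_lit 2))))
  (@Cl.mk (nat_lit 0x300080008000c000900090008000400090008000800070007000d00080007) (nat_lit 0x615113051600710) (nat_lit 16) Lb.e (@T16.mk En
    (@En.n l20447 (nat_lit 11305) (nat_lit 0) (nat_lit 7))
    (@En.i (nat_lit 5159) (nat_lit 9) (nat_lit 8))
    (@En.n l36440 (nat_lit 9372) (nat_lit 2) (nat_lit 13))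
    (@En.n l11 (nat_lit 11321) (nat_lit 9) (nat_lit 7))
    (@En.i (nat_lit 10423) (nat_lit 4) (nat_lit 7))
    (@En.n l2687 (nat_lit 11311) (nat_lit 8) (nat_lit 8))
    (@En.i (nat_lit 8499) (nat_lit 6) (nat_lit 8))
    (@En.n l217 (nat_lit 11307) (nat_lit 8) (nat_lit 9))
    (@En.n l936 (nat_lit 9934) (nat_lit 8) (nat_lit 4))
    (@En.n l55 (nat_lit 10466) (nat_lit 8) (nat_lit 8))
    (@En.n l619 (nat_lit 7947) (nat_lit 7) (nat_lit 9))
    (@En.n l10040 (nat_lit 2597) (nat_lit 12) (nat_lit 9))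
    (@En.n l31738 (nat_lit 10521) (nat_lit 7) (nat_lit 12))
    (@En.n l30060 (nat_lit 9933) (nat_lit 8) (nat_lit 8))
    (@En.n l50 (nat_lit 11429) (nat_lit 5) (nat_lit 8))
    (@En.i (nat_lit 11323) (nat_lit 15) (nat_lit 3))))
  (@Cl.mk (nat_lit 0x300080008000c0009000900070004000a0008000800070007000d00060009) (nat_lit 0x614110051400703) (nat_lit 16) Lb.e (@T16.mk En
    (@En.n l2821 (nat_lit 4782) (nat_lit 0) (nat_lit 9))
    (@En.n l37758 (nat_lit 7440) (nat_lit 8) (nat_lit 6))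
    (@En.n l40541 (nat_lit 9369) (nat_lit 2) (nat_lit 13))
    (@En.n l11 (nat_lit 11325) (nat_lit 9) (nat_lit 7))
    (@En.n l11547 (nat_lit 11791) (nat_lit 4) (nat_lit 7))
    (@En.n l40542 (nat_lit 7942) (nat_lit 8) (nat_lit 8))
    (@En.i (nat_lit 8501) (nat_lit 6) (nat_lit 8))
    (@En.n l40543 (nat_lit 11324) (nat_lit 8) (nat_lit 10))
    (@En.n l936 (nat_lit 11328) (nat_lit 8) (nat_lit 4))
    (@En.n l37317 (nat_lit 7932) (nat_lit 0) (nat_lit 7))
    (@En.n l40544 (nat_lit 7941) (nat_lit 7) (nat_lit 9))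
    (@En.n l40545 (nat_lit 2594) (nat_lit 12) (nat_lit 9))
    (@En.n l40546 (nat_lit 10517) (nat_lit 7) (nat_lit 12))
    (@En.n l40547 (nat_lit 9634) (nat_lit 8) (nat_lit 8))
    (@En.n l39965 (nat_lit 11736) (nat_lit 12) (nat_lit 8))
    (@En.n l7 (nat_lit 11322) (nat_lit 15) (nat_lit 3))))
  (@Cl.mk (nat_lit 0x4000900090005000a000a0007000a0007000700060006000c0006000b0009) (nat_lit 0x30110400006064) (nat_lit 16) Lb.e (@T16.mk En
    (@En.n l9074 (nat_lit 11323) (nat_lit 0) (nat_lit 9))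
    (@En.n l36398 (nat_lit 12002) (nat_lit 1) (nat_lit 11))
    (@En.n l3279 (nat_lit 5849) (nat_lit 5) (nat_lit 6))
    (@En.n l36399 (nat_lit 9370) (nat_lit 3) (nat_lit 12))
    (@En.n l36400 (nat_lit 11326) (nat_lit 10) (nat_lit 6))
    (@En.n l16188 (nat_lit 11789) (nat_lit 10) (nat_lit 6))
    (@En.n l36401 (nat_lit 11336) (nat_lit 9) (nat_lit 7))
    (@En.n l16188 (nat_lit 8752) (nat_lit 7) (nat_lit 7))
    (@En.n l9819 (nat_lit 5790) (nat_lit 8) (nat_lit 10))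
    (@En.n l36402 (nat_lit 11224) (nat_lit 9) (nat_lit 7))
    (@En.n l4380 (nat_lit 7944) (nat_lit 6) (nat_lit 10))
    (@En.i (nat_lit 6891) (nat_lit 10) (nat_lit 10))
    (@En.n l36403 (nat_lit 8011) (nat_lit 13) (nat_lit 5))
    (@En.n l21521 (nat_lit 9635) (nat_lit 7) (nat_lit 9))
    (@En.n l36404 (nat_lit 11738) (nat_lit 11) (nat_lit 9))
    (@En.n l36405 (nat_lit 11307) (nat_lit 15) (nat_lit 4))))
  (@Cl.mk (nat_lit 0x200080005000b000900090007000d00050008000300070007000b000e0009) (nat_lit 0x608360503000312) (nat_lit 16) Lb.e (@T16.mk En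
    (@En.n l68 (nat_lit 11323) (nat_lit 11) (nat_lit 9))
    (@En.n l33540 (nat_lit 1696) (nat_lit 4) (nat_lit 14))
    (@En.n l16273 (nat_lit 11417) (nat_lit 2) (nat_lit 11))
    (@En.n l33541 (nat_lit 11331) (nat_lit 3) (nat_lit 7))
    (@En.n l33542 (nat_lit 12227) (nat_lit 4) (nat_lit 7))
    (@En.n l7 (nat_lit 11321) (nat_lit 5) (nat_lit 3))
    (@En.n l23276 (nat_lit 4777) (nat_lit 0) (nat_lit 8))
    (@En.n l33543 (nat_lit 5850) (nat_lit 7) (nat_lit 5))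
    (@En.n l3125 (nat_lit 10760) (nat_lit 9) (nat_lit 13))
    (@En.n l9163 (nat_lit 12438) (nat_lit 3) (nat_lit 7))
    (@En.n l33544 (nat_lit 11320) (nat_lit 11) (nat_lit 9))
    (@En.i (nat_lit 10973) (nat_lit 12) (nat_lit 9))
    (@En.n l33545 (nat_lit 11326) (nat_lit 13) (nat_lit 11))
    (@En.n l33546 (nat_lit 11327) (nat_lit 14) (nat_lit 5))
    (@En.n l33547 (nat_lit 11444) (nat_lit 9) (nat_lit 8))
    (@En.n l67 (nat_lit 11325) (nat_lit 15) (nat_lit 2))))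
  (@Cl.mk (nat_lit 0x20008000b000800080006000c0005000b00080004000800080005000e000a) (nat_lit 0x4745040540600b2) (nat_lit 16) Lb.e (@T16.mk En
    (@En.n l20654 (nat_lit 11324) (nat_lit 11) (nat_lit 10))
    (@En.n l20655 (nat_lit 1558) (nat_lit 1) (nat_lit 14))
    (@En.n l20656 (nat_lit 11089) (nat_lit 2) (nat_lit 5))
    (@En.n l19593 (nat_lit 11332) (nat_lit 3) (nat_lit 8))
    (@En.n l20657 (nat_lit 12226) (nat_lit 4) (nat_lit 8))
    (@En.i (nat_lit 12542) (nat_lit 5) (nat_lit 4))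
    (@En.n l20658 (nat_lit 11325) (nat_lit 6) (nat_lit 8))
    (@En.n l20659 (nat_lit 12290) (nat_lit 8) (nat_lit 11))
    (@En.n l20660 (nat_lit 5783) (nat_lit 8) (nat_lit 5))
    (@En.n l20661 (nat_lit 11372) (nat_lit 10) (nat_lit 12))
    (@En.n l15083 (nat_lit 12596) (nat_lit 11) (nat_lit 6))
    (@En.n l8761 (nat_lit 5791) (nat_lit 8) (nat_lit 8))
    (@En.n l15083 (nat_lit 9837) (nat_lit 13) (nat_lit 8))
    (@En.n l20662 (nat_lit 5784) (nat_lit 7) (nat_lit 11))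
    (@En.n l20663 (nat_lit 11446) (nat_lit 9) (nat_lit 8))
    (@En.n l17 (nat_lit 11326) (nat_lit 15) (nat_lit 2))))
  (@Cl.mk (nat_lit 0x20005000b000900090006000d0005000b000300070007000b0005000e000a) (nat_lit 0x86504070004023) (nat_lit 16) Lb.e (@T16.mk En
    (@En.n l23411 (nat_lit 11328) (nat_lit 10) (nat_lit 10))
    (@En.n l8458 (nat_lit 11325) (nat_lit 1) (nat_lit 14))
    (@En.n l15027 (nat_lit 11326) (nat_lit 2) (nat_lit 5))
    (@En.n l558 (nat_lit 11413) (nat_lit 3) (nat_lit 11))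
    (@En.n l3607 (nat_lit 11330) (nat_lit 4) (nat_lit 7))
    (@En.n l5611 (nat_lit 12231) (nat_lit 5) (nat_lit 7))
    (@En.n l3039 (nat_lit 11329) (nat_lit 6) (nat_lit 3))
    (@En.n l17626 (nat_lit 12561) (nat_lit 8) (nat_lit 11))
    (@En.n l8757 (nat_lit 5705) (nat_lit 8) (nat_lit 5))
    (@En.n l23412 (nat_lit 11700) (nat_lit 10) (nat_lit 13))
    (@En.n l22200 (nat_lit 12439) (nat_lit 3) (nat_lit 6))
    (@En.n l7479 (nat_lit 11319) (nat_lit 12) (nat_lit 9))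
    (@En.n l17626 (nat_lit 10975) (nat_lit 13) (nat_lit 9))
    (@En.n l617 (nat_lit 12381) (nat_lit 14) (nat_lit 11))
    (@En.i (nat_lit 12120) (nat_lit 13) (nat_lit 5))
    (@En.n l3 (nat_lit 11327) (nat_lit 15) (nat_lit 2))))
noncomputable def a708 : T16 Cl := @T16.mk Cl
  (@Cl.mk (nat_lit 0x300080008000c0005000a000a0004000a0008000800060006000d0006000b) (nat_lit 0x224021075500408) (nat_lit 16) Lb.e (@T16.mk En
    (@En.n l35333 (nat_lit 12524) (nat_lit 0) (nat_lit 11))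
    (@En.n l38064 (nat_lit 7710) (nat_lit 8) (nat_lit 6))
    (@En.n l38065 (nat_lit 9375) (nat_lit 2) (nat_lit 13))
    (@En.n l38364 (nat_lit 11327) (nat_lit 10) (nat_lit 6))
    (@En.n l34629 (nat_lit 11793) (nat_lit 4) (nat_lit 6))
    (@En.n l38365 (nat_lit 11313) (nat_lit 8) (nat_lit 8))
    (@En.i (nat_lit 8153) (nat_lit 6) (nat_lit 8))
    (@En.n l38366 (nat_lit 12000) (nat_lit 8) (nat_lit 10))
    (@En.n l38367 (nat_lit 11245) (nat_lit 8) (nat_lit 4))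
    (@En.n l619 (nat_lit 7945) (nat_lit 6) (nat_lit 10))
    (@En.i (nat_lit 10467) (nat_lit 1) (nat_lit 10))
    (@En.n l20120 (nat_lit 11324) (nat_lit 12) (nat_lit 5))
    (@En.n l16527 (nat_lit 11411) (nat_lit 7) (nat_lit 12))
    (@En.n l38368 (nat_lit 9929) (nat_lit 8) (nat_lit 8))
    (@En.n l18233 (nat_lit 11740) (nat_lit 12) (nat_lit 8))
    (@En.n l7 (nat_lit 9934) (nat_lit 15) (nat_lit 3))))
  (@Cl.mk (nat_lit 0x20005000a000900090006000d000a0006000300070007000b0006000e000a) (nat_lit 0x76604400005023) (nat_lit 16) Lb.e (@T16.mk En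
    (@En.n l10185 (nat_lit 9934) (nat_lit 10) (nat_lit 10))
    (@En.n l75 (nat_lit 11321) (nat_lit 1) (nat_lit 14))
    (@En.n l7394 (nat_lit 7723) (nat_lit 2) (nat_lit 6))
    (@En.n l10186 (nat_lit 11487) (nat_lit 3) (nat_lit 11))
    (@En.n l10187 (nat_lit 11334) (nat_lit 4) (nat_lit 7))
    (@En.n l7138 (nat_lit 11663) (nat_lit 5) (nat_lit 7))
    (@En.n l7139 (nat_lit 11327) (nat_lit 6) (nat_lit 3))
    (@En.i (nat_lit 11652) (nat_lit 7) (nat_lit 6))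
    (@En.n l10188 (nat_lit 8007) (nat_lit 9) (nat_lit 10))
    (@En.n l10189 (nat_lit 11701) (nat_lit 10) (nat_lit 13))
    (@En.n l10190 (nat_lit 39) (nat_lit 3) (nat_lit 6))
    (@En.n l644 (nat_lit 11315) (nat_lit 12) (nat_lit 9))
    (@En.n l3701 (nat_lit 8155) (nat_lit 13) (nat_lit 9))
    (@En.n l3112 (nat_lit 12294) (nat_lit 14) (nat_lit 10))
    (@En.i (nat_lit 8044) (nat_lit 13) (nat_lit 5))
    (@En.n l3 (nat_lit 11329) (nat_lit 15) (nat_lit 2))))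
  (@Cl.mk (nat_lit 0x20005000a000e000900020007000d0006000c00030007000b0004000e0009) (nat_lit 0x72700506002023) (nat_lit 16) Lb.e (@T16.mk En
    (@En.n l4072 (nat_lit 9929) (nat_lit 5) (nat_lit 9))
    (@En.n l9620 (nat_lit 11331) (nat_lit 1) (nat_lit 14))
    (@En.n l5224 (nat_lit 11332) (nat_lit 2) (nat_lit 4))
    (@En.i (nat_lit 5550) (nat_lit 3) (nat_lit 11))
    (@En.n l4011 (nat_lit 12145) (nat_lit 4) (nat_lit 7))
    (@En.n l5224 (nat_lit 11334) (nat_lit 5) (nat_lit 3))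
    (@En.n l5242 (nat_lit 12566) (nat_lit 7) (nat_lit 12))
    (@En.n l10161 (nat_lit 7712) (nat_lit 7) (nat_lit 6))
    (@En.n l10162 (nat_lit 7662) (nat_lit 9) (nat_lit 13))
    (@En.n l810 (nat_lit 9682) (nat_lit 3) (nat_lit 7))
    (@En.n l28 (nat_lit 11330) (nat_lit 10) (nat_lit 2))
    (@En.n l10163 (nat_lit 11327) (nat_lit 12) (nat_lit 9))
    (@En.n l10164 (nat_lit 6719) (nat_lit 13) (nat_lit 14))
    (@En.n l1544 (nat_lit 12377) (nat_lit 2) (nat_lit 10))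
    (@En.n l5242 (nat_lit 12123) (nat_lit 3) (nat_lit 5))
    (@En.n l3 (nat_lit 11330) (nat_lit 15) (nat_lit 2))))
  (@Cl.mk (nat_lit 0x200070005000a000e000900020008000d0006000900030007000b000e0008) (nat_lit 0x7640650100212) (nat_lit 16) Lb.e (@T16.mk En
    (@En.n l3564 (nat_lit 9634) (nat_lit 6) (nat_lit 8))
    (@En.i (nat_lit 1700) (nat_lit 8) (nat_lit 14))
    (@En.n l2644 (nat_lit 5551) (nat_lit 2) (nat_lit 11))
    (@En.n l1081 (nat_lit 12141) (nat_lit 3) (nat_lit 7))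
    (@En.n l3596 (nat_lit 11333) (nat_lit 4) (nat_lit 3))
    (@En.i (nat_lit 4774) (nat_lit 0) (nat_lit 9))
    (@En.n l7645 (nat_lit 7716) (nat_lit 6) (nat_lit 6))
    (@En.n l3806 (nat_lit 7664) (nat_lit 8) (nat_lit 13))
    (@En.n l17796 (nat_lit 9679) (nat_lit 3) (nat_lit 8))
    (@En.n l50 (nat_lit 11331) (nat_lit 9) (nat_lit 2))
    (@En.n l17797 (nat_lit 11325) (nat_lit 11) (nat_lit 9))
    (@En.n l3546 (nat_lit 6717) (nat_lit 12) (nat_lit 14))
    (@En.n l17798 (nat_lit 11332) (nat_lit 13) (nat_lit 10))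
    (@En.n l17799 (nat_lit 11330) (nat_lit 14) (nat_lit 5))
    (@En.n l2644 (nat_lit 11439) (nat_lit 4) (nat_lit 7))
    (@En.n l725 (nat_lit 11331) (nat_lit 15) (nat_lit 2))))
  (@Cl.mk (nat_lit 0x20007000a000e000800020007000c0006000c0009000400080004000e0009) (nat_lit 0x685006062060a2) (nat_lit 16) Lb.e (@T16.mk En
    (@En.n l8683 (nat_lit 9635) (nat_lit 5) (nat_lit 9))
    (@En.n l8684 (nat_lit 1560) (nat_lit 1) (nat_lit 14))
    (@En.i (nat_lit 12526) (nat_lit 2) (nat_lit 4))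
    (@En.n l8685 (nat_lit 12146) (nat_lit 3) (nat_lit 8))
    (@En.n l3610 (nat_lit 12541) (nat_lit 9) (nat_lit 4))
    (@En.n l8686 (nat_lit 11331) (nat_lit 5) (nat_lit 9))
    (@En.n l8012 (nat_lit 12311) (nat_lit 12) (nat_lit 12))
    (@En.n l8687 (nat_lit 5853) (nat_lit 7) (nat_lit 6))
    (@En.i (nat_lit 7665) (nat_lit 9) (nat_lit 12))
    (@En.n l8688 (nat_lit 9677) (nat_lit 10) (nat_lit 7))
    (@En.n l11 (nat_lit 11332) (nat_lit 10) (nat_lit 2))
    (@En.n l3771 (nat_lit 11326) (nat_lit 12) (nat_lit 8))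
    (@En.n l3616 (nat_lit 6724) (nat_lit 13) (nat_lit 14))
    (@En.n l8689 (nat_lit 12376) (nat_lit 8) (nat_lit 10))
    (@En.n l8690 (nat_lit 11445) (nat_lit 3) (nat_lit 7))
    (@En.n l17 (nat_lit 11332) (nat_lit 15) (nat_lit 2))))
  (@Cl.mk (nat_lit 0x2000800050009000e000900020008000d0008000700030007000b000e0008) (nat_lit 0x506650641000312) (nat_lit 16) Lb.e (@T16.mk En
    (@En.n l18 (nat_lit 9933) (nat_lit 6) (nat_lit 8))
    (@En.n l8717 (nat_lit 1698) (nat_lit 8) (nat_lit 14))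
    (@En.n l3669 (nat_lit 5549) (nat_lit 2) (nat_lit 11))
    (@En.n l8717 (nat_lit 12063) (nat_lit 3) (nat_lit 7))
    (@En.n l1106 (nat_lit 11331) (nat_lit 4) (nat_lit 3))
    (@En.n l8718 (nat_lit 11655) (nat_lit 0) (nat_lit 7))
    (@En.n l8719 (nat_lit 6505) (nat_lit 6) (nat_lit 8))
    (@En.n l3669 (nat_lit 7667) (nat_lit 8) (nat_lit 13))
    (@En.n l8720 (nat_lit 10679) (nat_lit 3) (nat_lit 8))
    (@En.n l7 (nat_lit 11333) (nat_lit 9) (nat_lit 2))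
    (@En.n l8721 (nat_lit 11321) (nat_lit 11) (nat_lit 9))
    (@En.n l1112 (nat_lit 6716) (nat_lit 12) (nat_lit 14))
    (@En.n l8722 (nat_lit 12541) (nat_lit 2) (nat_lit 9))
    (@En.n l3669 (nat_lit 11334) (nat_lit 14) (nat_lit 5))
    (@En.n l8723 (nat_lit 11425) (nat_lit 4) (nat_lit 8))
    (@En.n l17 (nat_lit 11333) (nat_lit 15) (nat_lit 2))))
  (@Cl.mk (nat_lit 0x200050009000e000900020007000d000b000700030007000b0005000e0009) (nat_lit 0x61700540003023) (nat_lit 16) Lb.e (@T16.mk En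
    (@En.n l3608 (nat_lit 9930) (nat_lit 5) (nat_lit 9))
    (@En.n l3609 (nat_lit 11333) (nat_lit 1) (nat_lit 14))
    (@En.n l3610 (nat_lit 11335) (nat_lit 7) (nat_lit 5))
    (@En.n l3611 (nat_lit 5507) (nat_lit 3) (nat_lit 11))
    (@En.n l3612 (nat_lit 12316) (nat_lit 4) (nat_lit 7))
    (@En.n l3613 (nat_lit 11330) (nat_lit 5) (nat_lit 3))
    (@En.n l3614 (nat_lit 11656) (nat_lit 6) (nat_lit 7))
    (@En.n l644 (nat_lit 12526) (nat_lit 8) (nat_lit 11))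
    (@En.i (nat_lit 7666) (nat_lit 9) (nat_lit 13))
    (@En.n l3528 (nat_lit 10681) (nat_lit 10) (nat_lit 7))
    (@En.n l11 (nat_lit 11334) (nat_lit 10) (nat_lit 2))
    (@En.n l3615 (nat_lit 11329) (nat_lit 12) (nat_lit 9))
    (@En.n l3616 (nat_lit 5005) (nat_lit 13) (nat_lit 14))
    (@En.n l3617 (nat_lit 12310) (nat_lit 2) (nat_lit 9))
    (@En.n l3618 (nat_lit 12124) (nat_lit 3) (nat_lit 5))
    (@En.n l17 (nat_lit 11334) (nat_lit 15) (nat_lit 2))))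
  (@Cl.mk (nat_lit 0x20007000c000b00080008000400080005000e0009000200080008000e0008) (nat_lit 0x6523040a2055c1) (nat_lit 16) Lb.e (@T16.mk En
    (@En.n l2984 (nat_lit 7723) (nat_lit 12) (nat_lit 8))
    (@En.n l2985 (nat_lit 9514) (nat_lit 13) (nat_lit 14))
    (@En.n l2986 (nat_lit 11656) (nat_lit 8) (nat_lit 8))
    (@En.n l2987 (nat_lit 11449) (nat_lit 3) (nat_lit 8))
    (@En.n l7 (nat_lit 11335) (nat_lit 4) (nat_lit 2))
    (@En.n l2988 (nat_lit 9935) (nat_lit 5) (nat_lit 9))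
    (@En.n l134 (nat_lit 1699) (nat_lit 1) (nat_lit 14))
    (@En.n l2989 (nat_lit 12528) (nat_lit 2) (nat_lit 5))
    (@En.n l2990 (nat_lit 12315) (nat_lit 3) (nat_lit 8))
    (@En.n l2991 (nat_lit 11332) (nat_lit 4) (nat_lit 4))
    (@En.n l2992 (nat_lit 12544) (nat_lit 11) (nat_lit 8))
    (@En.n l2993 (nat_lit 11333) (nat_lit 6) (nat_lit 8))
    (@En.i (nat_lit 12540) (nat_lit 13) (nat_lit 11))
    (@En.n l2989 (nat_lit 10102) (nat_lit 9) (nat_lit 12))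
    (@En.n l2994 (nat_lit 11121) (nat_lit 10) (nat_lit 7))
    (@En.n l3 (nat_lit 11335) (nat_lit 15) (nat_lit 2))))
  (@Cl.mk (nat_lit 0x20006000b000b0008000b000700050005000c0005000a00080004000e0009) (nat_lit 0x31470003073061) (nat_lit 16) Lb.e (@T16.mk En
    (@En.n l23010 (nat_lit 11324) (nat_lit 14) (nat_lit 9))
    (@En.n l33791 (nat_lit 9891) (nat_lit 1) (nat_lit 14))
    (@En.n l20138 (nat_lit 11337) (nat_lit 2) (nat_lit 4))
    (@En.n l33792 (nat_lit 7942) (nat_lit 3) (nat_lit 8))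
    (@En.n l33793 (nat_lit 12605) (nat_lit 4) (nat_lit 10))
    (@En.i (nat_lit 7439) (nat_lit 5) (nat_lit 5))
    (@En.n l33794 (nat_lit 9366) (nat_lit 7) (nat_lit 12))
    (@En.n l152 (nat_lit 5791) (nat_lit 7) (nat_lit 5))
    (@En.n l4155 (nat_lit 9187) (nat_lit 8) (nat_lit 5))
    (@En.n l19427 (nat_lit 9392) (nat_lit 10) (nat_lit 7))
    (@En.n l33795 (nat_lit 5789) (nat_lit 7) (nat_lit 11))
    (@En.n l10089 (nat_lit 7928) (nat_lit 12) (nat_lit 8))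
    (@En.n l23009 (nat_lit 7939) (nat_lit 13) (nat_lit 11))
    (@En.n l33796 (nat_lit 7818) (nat_lit 14) (nat_lit 11))
    (@En.n l33797 (nat_lit 10849) (nat_lit 13) (nat_lit 6))
    (@En.n l50 (nat_lit 11336) (nat_lit 15) (nat_lit 2))))
  (@Cl.mk (nat_lit 0x20005000b000b000a000a000700050005000c00060006000b0004000e0009) (nat_lit 0x492400080030c3) (nat_lit 16) Lb.e (@T16.mk En
    (@En.n l14139 (nat_lit 11307) (nat_lit 14) (nat_lit 9))
    (@En.n l33269 (nat_lit 11339) (nat_lit 1) (nat_lit 14))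
    (@En.n l13906 (nat_lit 11338) (nat_lit 2) (nat_lit 4))
    (@En.n l2863 (nat_lit 12603) (nat_lit 3) (nat_lit 11))
    (@En.n l33270 (nat_lit 11342) (nat_lit 4) (nat_lit 6))
    (@En.n l33271 (nat_lit 5156) (nat_lit 5) (nat_lit 6))
    (@En.n l33272 (nat_lit 7575) (nat_lit 7) (nat_lit 12))
    (@En.n l33273 (nat_lit 11343) (nat_lit 7) (nat_lit 5))
    (@En.n l33274 (nat_lit 12683) (nat_lit 8) (nat_lit 5))
    (@En.i (nat_lit 9167) (nat_lit 10) (nat_lit 7))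
    (@En.n l33275 (nat_lit 11340) (nat_lit 11) (nat_lit 10))
    (@En.n l55 (nat_lit 12792) (nat_lit 12) (nat_lit 10))
    (@En.n l33276 (nat_lit 11341) (nat_lit 13) (nat_lit 11))
    (@En.n l22466 (nat_lit 7159) (nat_lit 14) (nat_lit 11))
    (@En.n l33277 (nat_lit 11137) (nat_lit 13) (nat_lit 5))
    (@En.n l18 (nat_lit 11337) (nat_lit 15) (nat_lit 2))))
  (@Cl.mk (nat_lit 0x20007000b000b00090009000700050005000c0009000700070004000e0009) (nat_lit 0x18240007300064) (nat_lit 16) Lb.e (@T16.mk En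
    (@En.n l61 (nat_lit 11350) (nat_lit 14) (nat_lit 9))
    (@En.n l8194 (nat_lit 4892) (nat_lit 1) (nat_lit 14))
    (@En.n l16268 (nat_lit 11336) (nat_lit 2) (nat_lit 4))
    (@En.n l18388 (nat_lit 11355) (nat_lit 3) (nat_lit 7))
    (@En.i (nat_lit 11311) (nat_lit 4) (nat_lit 7))
    (@En.n l18389 (nat_lit 11339) (nat_lit 5) (nat_lit 9))
    (@En.n l18390 (nat_lit 10043) (nat_lit 7) (nat_lit 12))
    (@En.n l18391 (nat_lit 12549) (nat_lit 7) (nat_lit 5))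
    (@En.n l18392 (nat_lit 12685) (nat_lit 8) (nat_lit 5))
    (@En.i (nat_lit 8726) (nat_lit 10) (nat_lit 7))
    (@En.n l18393 (nat_lit 12550) (nat_lit 7) (nat_lit 9))
    (@En.n l2824 (nat_lit 11293) (nat_lit 12) (nat_lit 9))
    (@En.n l3444 (nat_lit 11365) (nat_lit 13) (nat_lit 11))
    (@En.n l18394 (nat_lit 7158) (nat_lit 14) (nat_lit 11))
    (@En.n l18395 (nat_lit 10993) (nat_lit 13) (nat_lit 7))
    (@En.n l18 (nat_lit 11338) (nat_lit 15) (nat_lit 2))))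
  (@Cl.mk (nat_lit 0x200070005000b000b000a000a000800050005000900060006000b000e0008) (nat_lit 0x29074002002b2) (nat_lit 16) Lb.e (@T16.mk En
    (@En.n l31515 (nat_lit 9342) (nat_lit 2) (nat_lit 8))
    (@En.i (nat_lit 4898) (nat_lit 4) (nat_lit 14))
    (@En.n l31516 (nat_lit 12604) (nat_lit 2) (nat_lit 11))
    (@En.n l3787 (nat_lit 11347) (nat_lit 3) (nat_lit 6))
    (@En.i (nat_lit 5158) (nat_lit 4) (nat_lit 6))
    (@En.n l117 (nat_lit 11188) (nat_lit 5) (nat_lit 9))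
    (@En.n l575 (nat_lit 11348) (nat_lit 6) (nat_lit 5))
    (@En.n l17895 (nat_lit 12682) (nat_lit 7) (nat_lit 5))
    (@En.n l2337 (nat_lit 8855) (nat_lit 9) (nat_lit 8))
    (@En.n l601 (nat_lit 11346) (nat_lit 10) (nat_lit 10))
    (@En.n l16411 (nat_lit 12793) (nat_lit 11) (nat_lit 10))
    (@En.n l8950 (nat_lit 11345) (nat_lit 12) (nat_lit 11))
    (@En.n l31395 (nat_lit 8178) (nat_lit 13) (nat_lit 11))
    (@En.n l16741 (nat_lit 11337) (nat_lit 14) (nat_lit 5))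
    (@En.n l30714 (nat_lit 11344) (nat_lit 13) (nat_lit 7))
    (@En.n l17 (nat_lit 11339) (nat_lit 15) (nat_lit 2))))
  (@Cl.mk (nat_lit 0x20005000c000c000a000600040004000b000e00060002000b0005000e000a) (nat_lit 0x48300077004045) (nat_lit 16) Lb.e (@T16.mk En
    (@En.n l20909 (nat_lit 11653) (nat_lit 12) (nat_lit 10))
    (@En.n l17599 (nat_lit 11346) (nat_lit 1) (nat_lit 14))
    (@En.n l20910 (nat_lit 12550) (nat_lit 14) (nat_lit 5))
    (@En.n l20911 (nat_lit 12599) (nat_lit 3) (nat_lit 11))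
    (@En.n l7 (nat_lit 11340) (nat_lit 4) (nat_lit 2))
    (@En.n l7521 (nat_lit 11337) (nat_lit 5) (nat_lit 6))
    (@En.i (nat_lit 2902) (nat_lit 7) (nat_lit 14))
    (@En.n l4936 (nat_lit 7578) (nat_lit 8) (nat_lit 11))
    (@En.i (nat_lit 12547) (nat_lit 8) (nat_lit 4))
    (@En.n l2042 (nat_lit 4039) (nat_lit 9) (nat_lit 4))
    (@En.n l17597 (nat_lit 4862) (nat_lit 5) (nat_lit 6))
    (@En.n l55 (nat_lit 12639) (nat_lit 12) (nat_lit 10))
    (@En.n l20912 (nat_lit 12835) (nat_lit 13) (nat_lit 12))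
    (@En.n l766 (nat_lit 7155) (nat_lit 9) (nat_lit 12))
    (@En.n l1782 (nat_lit 10098) (nat_lit 13) (nat_lit 5))
    (@En.n l3 (nat_lit 11340) (nat_lit 15) (nat_lit 2))))
  (@Cl.mk (nat_lit 0x20005000b000900090006000e00050002000c00070007000b0004000e000a) (nat_lit 0x81501005006023) (nat_lit 16) Lb.e (@T16.mk En
    (@En.n l649 (nat_lit 11644) (nat_lit 9) (nat_lit 10))
    (@En.n l33739 (nat_lit 11345) (nat_lit 1) (nat_lit 14))
    (@En.n l33740 (nat_lit 11365) (nat_lit 2) (nat_lit 4))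
    (@En.n l33741 (nat_lit 12602) (nat_lit 3) (nat_lit 11))
    (@En.n l33742 (nat_lit 11368) (nat_lit 4) (nat_lit 7))
    (@En.n l1353 (nat_lit 5748) (nat_lit 5) (nat_lit 7))
    (@En.n l33743 (nat_lit 7572) (nat_lit 7) (nat_lit 12))
    (@En.n l28 (nat_lit 11341) (nat_lit 7) (nat_lit 2))
    (@En.n l33744 (nat_lit 11337) (nat_lit 8) (nat_lit 5))
    (@En.n l21552 (nat_lit 619) (nat_lit 10) (nat_lit 14))
    (@En.n l14904 (nat_lit 8925) (nat_lit 2) (nat_lit 6))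
    (@En.n l33745 (nat_lit 12835) (nat_lit 12) (nat_lit 9))
    (@En.i (nat_lit 9226) (nat_lit 13) (nat_lit 9))
    (@En.n l33746 (nat_lit 9007) (nat_lit 14) (nat_lit 11))
    (@En.n l1643 (nat_lit 11136) (nat_lit 13) (nat_lit 5))
    (@En.n l3 (nat_lit 11341) (nat_lit 15) (nat_lit 2))))
  (@Cl.mk (nat_lit 0x20005000a000a000e000a0002000800060006000d0006000b0003000e0008) (nat_lit 0x47730300501054) (nat_lit 16) Lb.e (@T16.mk En
    (@En.n l2348 (nat_lit 11354) (nat_lit 6) (nat_lit 8))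
    (@En.n l9404 (nat_lit 11347) (nat_lit 1) (nat_lit 14))
    (@En.n l17548 (nat_lit 11355) (nat_lit 2) (nat_lit 3))
    (@En.n l17549 (nat_lit 2686) (nat_lit 3) (nat_lit 11))
    (@En.n l17550 (nat_lit 10778) (nat_lit 4) (nat_lit 6))
    (@En.i (nat_lit 11631) (nat_lit 6) (nat_lit 13))
    (@En.n l2345 (nat_lit 12551) (nat_lit 6) (nat_lit 6))
    (@En.i (nat_lit 12649) (nat_lit 7) (nat_lit 6))
    (@En.n l17549 (nat_lit 10008) (nat_lit 9) (nat_lit 8))
    (@En.n l3 (nat_lit 11342) (nat_lit 9) (nat_lit 2))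
    (@En.n l17551 (nat_lit 11337) (nat_lit 11) (nat_lit 10))
    (@En.n l4992 (nat_lit 12097) (nat_lit 12) (nat_lit 14))
    (@En.n l1353 (nat_lit 11368) (nat_lit 13) (nat_lit 10))
    (@En.n l2205 (nat_lit 8174) (nat_lit 3) (nat_lit 10))
    (@En.i (nat_lit 12839) (nat_lit 4) (nat_lit 5))
    (@En.n l50 (nat_lit 11342) (nat_lit 15) (nat_lit 2))))
  (@Cl.mk (nat_lit 0x20005000e000b0002000b000b00080005000c00050005000b0004000e0008) (nat_lit 0x350474030020c5) (nat_lit 16) Lb.e (@T16.mk En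
    (@En.i (nat_lit 12542) (nat_lit 4) (nat_lit 8))
    (@En.n l17546 (nat_lit 11348) (nat_lit 1) (nat_lit 14))
    (@En.n l2496 (nat_lit 12549) (nat_lit 2) (nat_lit 4))
    (@En.n l14216 (nat_lit 12295) (nat_lit 3) (nat_lit 11))
    (@En.n l152 (nat_lit 12551) (nat_lit 4) (nat_lit 5))
    (@En.n l4921 (nat_lit 5152) (nat_lit 5) (nat_lit 5))
    (@En.i (nat_lit 11640) (nat_lit 7) (nat_lit 12))
    (@En.i (nat_lit 12645) (nat_lit 7) (nat_lit 5))
    (@En.n l7865 (nat_lit 9159) (nat_lit 13) (nat_lit 8))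
    (@En.n l6219 (nat_lit 12547) (nat_lit 10) (nat_lit 11))
    (@En.n l6220 (nat_lit 11481) (nat_lit 11) (nat_lit 11))
    (@En.n l17 (nat_lit 11343) (nat_lit 11) (nat_lit 2))
    (@En.n l17547 (nat_lit 11337) (nat_lit 13) (nat_lit 11))
    (@En.n l2567 (nat_lit 1624) (nat_lit 1) (nat_lit 14))
    (@En.i (nat_lit 12277) (nat_lit 13) (nat_lit 5))
    (@En.n l50 (nat_lit 11343) (nat_lit 15) (nat_lit 2))))
noncomputable def a709 : T16 Cl := @T16.mk Cl
  (@Cl.mk (nat_lit 0x4000900070004000b000b000900090007000500050009000c00070007000c) (nat_lit 0x200681500039004) (nat_lit 16) Lb.e (@T16.mk En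
    (@En.n l41394 (nat_lit 11807) (nat_lit 0) (nat_lit 12))
    (@En.n l40538 (nat_lit 11374) (nat_lit 9) (nat_lit 7))
    (@En.n l41395 (nat_lit 11055) (nat_lit 5) (nat_lit 7))
    (@En.n l28501 (nat_lit 11337) (nat_lit 6) (nat_lit 12))
    (@En.n l4256 (nat_lit 12212) (nat_lit 10) (nat_lit 9))
    (@En.n l18 (nat_lit 11712) (nat_lit 11) (nat_lit 5))
    (@En.n l20490 (nat_lit 11875) (nat_lit 0) (nat_lit 5))
    (@En.n l619 (nat_lit 10158) (nat_lit 0) (nat_lit 7))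
    (@En.n l1867 (nat_lit 12625) (nat_lit 7) (nat_lit 9))
    (@En.n l41396 (nat_lit 9948) (nat_lit 7) (nat_lit 9))
    (@En.n l41397 (nat_lit 11372) (nat_lit 5) (nat_lit 11))
    (@En.n l41398 (nat_lit 9023) (nat_lit 12) (nat_lit 11))
    (@En.n l28693 (nat_lit 10128) (nat_lit 15) (nat_lit 4))
    (@En.n l16345 (nat_lit 11705) (nat_lit 0) (nat_lit 7))
    (@En.n l6590 (nat_lit 10116) (nat_lit 1) (nat_lit 9))
    (@En.n l29122 (nat_lit 11744) (nat_lit 15) (nat_lit 4))))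
  (@Cl.mk (nat_lit 0x200070005000b000900090007000e00050002000900070007000b000e0009) (nat_lit 0x8660b00300612) (nat_lit 16) Lb.e (@T16.mk En
    (@En.n l4538 (nat_lit 10788) (nat_lit 10) (nat_lit 9))
    (@En.n l21212 (nat_lit 2118) (nat_lit 11) (nat_lit 14))
    (@En.n l21213 (nat_lit 10746) (nat_lit 2) (nat_lit 11))
    (@En.n l17114 (nat_lit 11369) (nat_lit 3) (nat_lit 7))
    (@En.n l3428 (nat_lit 5742) (nat_lit 14) (nat_lit 7))
    (@En.n l21214 (nat_lit 11185) (nat_lit 5) (nat_lit 9))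
    (@En.n l17 (nat_lit 11345) (nat_lit 6) (nat_lit 2))
    (@En.n l21215 (nat_lit 11339) (nat_lit 7) (nat_lit 5))
    (@En.i (nat_lit 614) (nat_lit 9) (nat_lit 14))
    (@En.n l3082 (nat_lit 8919) (nat_lit 2) (nat_lit 7))
    (@En.n l12876 (nat_lit 12836) (nat_lit 11) (nat_lit 9))
    (@En.n l21216 (nat_lit 9227) (nat_lit 12) (nat_lit 9))
    (@En.n l12013 (nat_lit 8180) (nat_lit 13) (nat_lit 11))
    (@En.n l21217 (nat_lit 11341) (nat_lit 14) (nat_lit 5))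
    (@En.n l21218 (nat_lit 11372) (nat_lit 7) (nat_lit 7))
    (@En.n l28 (nat_lit 11345) (nat_lit 15) (nat_lit 2))))
  (@Cl.mk (nat_lit 0x200080005000c000c000a0007000400040008000e00060002000b000e0009) (nat_lit 0x502960002700433) (nat_lit 16) Lb.e (@T16.mk En
    (@En.n l21275 (nat_lit 10802) (nat_lit 13) (nat_lit 9))
    (@En.i (nat_lit 4907) (nat_lit 4) (nat_lit 14))
    (@En.n l250 (nat_lit 10745) (nat_lit 2) (nat_lit 11))
    (@En.n l50 (nat_lit 11346) (nat_lit 3) (nat_lit 2))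
    (@En.n l7 (nat_lit 11339) (nat_lit 4) (nat_lit 6))
    (@En.n l21276 (nat_lit 2903) (nat_lit 6) (nat_lit 14))
    (@En.n l117 (nat_lit 11186) (nat_lit 6) (nat_lit 8))
    (@En.n l575 (nat_lit 11349) (nat_lit 7) (nat_lit 4))
    (@En.n l21277 (nat_lit 12620) (nat_lit 8) (nat_lit 4))
    (@En.n l11559 (nat_lit 4863) (nat_lit 5) (nat_lit 7))
    (@En.n l1578 (nat_lit 12572) (nat_lit 11) (nat_lit 10))
    (@En.n l21278 (nat_lit 12836) (nat_lit 12) (nat_lit 12))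
    (@En.n l10725 (nat_lit 9890) (nat_lit 9) (nat_lit 12))
    (@En.n l21279 (nat_lit 11340) (nat_lit 14) (nat_lit 5))
    (@En.n l21280 (nat_lit 12625) (nat_lit 11) (nat_lit 8))
    (@En.n l17 (nat_lit 11346) (nat_lit 15) (nat_lit 2))))
  (@Cl.mk (nat_lit 0x200060005000a000a000e000a0002000900060006000a0006000b000e0007) (nat_lit 0x5721030030140) (nat_lit 16) Lb.e (@T16.mk En
    (@En.n l7261 (nat_lit 10115) (nat_lit 7) (nat_lit 7))
    (@En.i (nat_lit 4897) (nat_lit 9) (nat_lit 14))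
    (@En.n l14653 (nat_lit 2689) (nat_lit 2) (nat_lit 11))
    (@En.i (nat_lit 10777) (nat_lit 3) (nat_lit 6))
    (@En.n l11238 (nat_lit 11191) (nat_lit 4) (nat_lit 10))
    (@En.n l575 (nat_lit 12553) (nat_lit 5) (nat_lit 6))
    (@En.n l17897 (nat_lit 25) (nat_lit 6) (nat_lit 6))
    (@En.n l14652 (nat_lit 10012) (nat_lit 8) (nat_lit 9))
    (@En.n l7 (nat_lit 11347) (nat_lit 8) (nat_lit 2))
    (@En.n l644 (nat_lit 11339) (nat_lit 10) (nat_lit 10))
    (@En.n l9390 (nat_lit 12099) (nat_lit 11) (nat_lit 14))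
    (@En.n l17898 (nat_lit 11369) (nat_lit 12) (nat_lit 10))
    (@En.n l17899 (nat_lit 8175) (nat_lit 13) (nat_lit 10))
    (@En.n l17900 (nat_lit 11342) (nat_lit 14) (nat_lit 5))
    (@En.n l15935 (nat_lit 11374) (nat_lit 5) (nat_lit 6))
    (@En.n l17 (nat_lit 11347) (nat_lit 15) (nat_lit 2))))
  (@Cl.mk (nat_lit 0x200070005000e000b0002000b000b00090005000900050005000b000e0007) (nat_lit 0x43088401002b0) (nat_lit 16) Lb.e (@T16.mk En
    (@En.n l2900 (nat_lit 9346) (nat_lit 5) (nat_lit 7))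
    (@En.i (nat_lit 4893) (nat_lit 7) (nat_lit 14))
    (@En.n l3786 (nat_lit 12300) (nat_lit 2) (nat_lit 11))
    (@En.n l3787 (nat_lit 12553) (nat_lit 3) (nat_lit 5))
    (@En.i (nat_lit 5154) (nat_lit 4) (nat_lit 5))
    (@En.n l2900 (nat_lit 3293) (nat_lit 5) (nat_lit 9))
    (@En.n l17895 (nat_lit 12648) (nat_lit 6) (nat_lit 5))
    (@En.n l2337 (nat_lit 8853) (nat_lit 13) (nat_lit 9))
    (@En.n l601 (nat_lit 11349) (nat_lit 9) (nat_lit 11))
    (@En.n l28 (nat_lit 11483) (nat_lit 10) (nat_lit 11))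
    (@En.n l11 (nat_lit 11348) (nat_lit 10) (nat_lit 2))
    (@En.i (nat_lit 11339) (nat_lit 12) (nat_lit 11))
    (@En.n l781 (nat_lit 1934) (nat_lit 13) (nat_lit 14))
    (@En.n l17896 (nat_lit 11343) (nat_lit 14) (nat_lit 5))
    (@En.n l16180 (nat_lit 11712) (nat_lit 3) (nat_lit 7))
    (@En.n l17 (nat_lit 11348) (nat_lit 15) (nat_lit 2))))
  (@Cl.mk (nat_lit 0x200080005000e000c0002000b000800040008000e00050002000b000e0008) (nat_lit 0x4307101700353) (nat_lit 16) Lb.e (@T16.mk En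
    (@En.n l3928 (nat_lit 7975) (nat_lit 5) (nat_lit 8))
    (@En.i (nat_lit 4909) (nat_lit 7) (nat_lit 14))
    (@En.n l250 (nat_lit 11571) (nat_lit 2) (nat_lit 11))
    (@En.n l50 (nat_lit 11349) (nat_lit 3) (nat_lit 2))
    (@En.n l7 (nat_lit 11348) (nat_lit 4) (nat_lit 5))
    (@En.n l9399 (nat_lit 2921) (nat_lit 6) (nat_lit 14))
    (@En.i (nat_lit 3290) (nat_lit 6) (nat_lit 8))
    (@En.n l9400 (nat_lit 12619) (nat_lit 7) (nat_lit 4))
    (@En.i (nat_lit 4866) (nat_lit 14) (nat_lit 8))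
    (@En.n l3201 (nat_lit 12177) (nat_lit 10) (nat_lit 11))
    (@En.n l11 (nat_lit 11349) (nat_lit 10) (nat_lit 2))
    (@En.i (nat_lit 11346) (nat_lit 12) (nat_lit 12))
    (@En.n l9401 (nat_lit 1933) (nat_lit 1) (nat_lit 14))
    (@En.n l3264 (nat_lit 12547) (nat_lit 14) (nat_lit 5))
    (@En.n l9402 (nat_lit 12627) (nat_lit 3) (nat_lit 8))
    (@En.n l17 (nat_lit 11349) (nat_lit 15) (nat_lit 2))))
  (@Cl.mk (nat_lit 0x4000900090006000a000a000800080007000700060006000c000a00080008) (nat_lit 0x340252400008325) (nat_lit 16) Lb.e (@T16.mk En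
    (@En.n l20496 (nat_lit 11353) (nat_lit 8) (nat_lit 8))
    (@En.i (nat_lit 11322) (nat_lit 1) (nat_lit 8))
    (@En.n l20497 (nat_lit 9342) (nat_lit 6) (nat_lit 10))
    (@En.n l20498 (nat_lit 10044) (nat_lit 3) (nat_lit 12))
    (@En.n l20499 (nat_lit 7723) (nat_lit 10) (nat_lit 6))
    (@En.n l18752 (nat_lit 10419) (nat_lit 10) (nat_lit 6))
    (@En.n l2687 (nat_lit 11338) (nat_lit 9) (nat_lit 7))
    (@En.i (nat_lit 8749) (nat_lit 9) (nat_lit 7))
    (@En.n l20500 (nat_lit 11654) (nat_lit 8) (nat_lit 8))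
    (@En.n l20501 (nat_lit 11294) (nat_lit 8) (nat_lit 8))
    (@En.n l20502 (nat_lit 11364) (nat_lit 6) (nat_lit 10))
    (@En.n l8681 (nat_lit 6039) (nat_lit 9) (nat_lit 10))
    (@En.n l18721 (nat_lit 8010) (nat_lit 10) (nat_lit 6))
    (@En.n l20503 (nat_lit 9935) (nat_lit 7) (nat_lit 9))
    (@En.n l20504 (nat_lit 6438) (nat_lit 11) (nat_lit 9))
    (@En.n l20505 (nat_lit 11324) (nat_lit 15) (nat_lit 4))))
  (@Cl.mk (nat_lit 0x200070007000e00070002000d000b000900030009000900050009000e0007) (nat_lit 0x4006640240570) (nat_lit 16) Lb.e (@T16.mk En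
    (@En.n l18007 (nat_lit 11364) (nat_lit 5) (nat_lit 7))
    (@En.n l8894 (nat_lit 2433) (nat_lit 1) (nat_lit 14))
    (@En.n l8516 (nat_lit 9027) (nat_lit 2) (nat_lit 9))
    (@En.n l1353 (nat_lit 11000) (nat_lit 3) (nat_lit 5))
    (@En.n l61 (nat_lit 11361) (nat_lit 10) (nat_lit 9))
    (@En.n l1353 (nat_lit 8064) (nat_lit 11) (nat_lit 9))
    (@En.n l8516 (nat_lit 10789) (nat_lit 6) (nat_lit 3))
    (@En.i (nat_lit 11358) (nat_lit 0) (nat_lit 9))
    (@En.n l1578 (nat_lit 10787) (nat_lit 9) (nat_lit 11))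
    (@En.n l8516 (nat_lit 5029) (nat_lit 10) (nat_lit 13))
    (@En.n l3 (nat_lit 11351) (nat_lit 10) (nat_lit 2))
    (@En.i (nat_lit 11353) (nat_lit 12) (nat_lit 7))
    (@En.n l7490 (nat_lit 11370) (nat_lit 13) (nat_lit 14))
    (@En.n l18317 (nat_lit 11366) (nat_lit 9) (nat_lit 7))
    (@En.n l18007 (nat_lit 8207) (nat_lit 3) (nat_lit 7))
    (@En.n l50 (nat_lit 11351) (nat_lit 15) (nat_lit 2))))
  (@Cl.mk (nat_lit 0x200080008000d000c000900030008000400080008000e00070002000e0008) (nat_lit 0x2466504024700b4) (nat_lit 16) Lb.e (@T16.mk En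
    (@En.i (nat_lit 11353) (nat_lit 14) (nat_lit 8))
    (@En.n l1013 (nat_lit 1920) (nat_lit 1) (nat_lit 14))
    (@En.n l50 (nat_lit 11352) (nat_lit 2) (nat_lit 2))
    (@En.n l9902 (nat_lit 9935) (nat_lit 3) (nat_lit 7))
    (@En.n l476 (nat_lit 11691) (nat_lit 5) (nat_lit 14))
    (@En.n l152 (nat_lit 11361) (nat_lit 8) (nat_lit 8))
    (@En.n l3213 (nat_lit 6043) (nat_lit 6) (nat_lit 8))
    (@En.n l11108 (nat_lit 12532) (nat_lit 7) (nat_lit 4))
    (@En.n l13540 (nat_lit 12334) (nat_lit 5) (nat_lit 8))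
    (@En.i (nat_lit 11357) (nat_lit 9) (nat_lit 3))
    (@En.n l8874 (nat_lit 12540) (nat_lit 0) (nat_lit 9))
    (@En.n l9905 (nat_lit 11358) (nat_lit 12) (nat_lit 12))
    (@En.n l2038 (nat_lit 6455) (nat_lit 13) (nat_lit 13))
    (@En.n l5014 (nat_lit 12544) (nat_lit 14) (nat_lit 8))
    (@En.i (nat_lit 11931) (nat_lit 12) (nat_lit 8))
    (@En.n l17 (nat_lit 11352) (nat_lit 15) (nat_lit 2))))
  (@Cl.mk (nat_lit 0x20008000800070007000d000b0008000300080008000500090009000e0008) (nat_lit 0x340055402503683) (nat_lit 16) Lb.e (@T16.mk En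
    (@En.n l18311 (nat_lit 11350) (nat_lit 9) (nat_lit 8))
    (@En.n l476 (nat_lit 12095) (nat_lit 1) (nat_lit 14))
    (@En.n l152 (nat_lit 11351) (nat_lit 2) (nat_lit 9))
    (@En.n l8516 (nat_lit 6035) (nat_lit 3) (nat_lit 9))
    (@En.n l18312 (nat_lit 10117) (nat_lit 4) (nat_lit 5))
    (@En.n l61 (nat_lit 11352) (nat_lit 8) (nat_lit 8))
    (@En.n l18313 (nat_lit 6587) (nat_lit 6) (nat_lit 8))
    (@En.n l18314 (nat_lit 11354) (nat_lit 7) (nat_lit 3))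
    (@En.n l8874 (nat_lit 11306) (nat_lit 0) (nat_lit 8))
    (@En.n l9905 (nat_lit 10115) (nat_lit 10) (nat_lit 11))
    (@En.n l2038 (nat_lit 6461) (nat_lit 11) (nat_lit 13))
    (@En.n l18315 (nat_lit 11356) (nat_lit 12) (nat_lit 7))
    (@En.n l18316 (nat_lit 11041) (nat_lit 13) (nat_lit 7))
    (@En.n l18317 (nat_lit 11355) (nat_lit 8) (nat_lit 8))
    (@En.n l18007 (nat_lit 8139) (nat_lit 6) (nat_lit 8))
    (@En.n l50 (nat_lit 11353) (nat_lit 15) (nat_lit 2))))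
  (@Cl.mk (nat_lit 0x20008000800070007000d0007000c000300080008000400090009000e0009) (nat_lit 0x540060103503462) (nat_lit 16) Lb.e (@T16.mk En
    (@En.n l20769 (nat_lit 11307) (nat_lit 9) (nat_lit 9))
    (@En.n l3023 (nat_lit 10914) (nat_lit 1) (nat_lit 14))
    (@En.n l33254 (nat_lit 10789) (nat_lit 2) (nat_lit 9))
    (@En.n l33255 (nat_lit 6034) (nat_lit 3) (nat_lit 9))
    (@En.n l764 (nat_lit 10114) (nat_lit 4) (nat_lit 4))
    (@En.n l33256 (nat_lit 11357) (nat_lit 8) (nat_lit 8))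
    (@En.n l33257 (nat_lit 10111) (nat_lit 6) (nat_lit 8))
    (@En.n l33258 (nat_lit 11353) (nat_lit 7) (nat_lit 3))
    (@En.n l3023 (nat_lit 2564) (nat_lit 0) (nat_lit 12))
    (@En.n l33257 (nat_lit 10005) (nat_lit 10) (nat_lit 7))
    (@En.n l33259 (nat_lit 6463) (nat_lit 11) (nat_lit 13))
    (@En.n l61 (nat_lit 12543) (nat_lit 12) (nat_lit 7))
    (@En.n l28267 (nat_lit 11040) (nat_lit 13) (nat_lit 7))
    (@En.n l5802 (nat_lit 11342) (nat_lit 8) (nat_lit 8))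
    (@En.n l16872 (nat_lit 8141) (nat_lit 6) (nat_lit 8))
    (@En.n l3 (nat_lit 11354) (nat_lit 15) (nat_lit 2))))
  (@Cl.mk (nat_lit 0x20006000a000a000e00090002000800060006000d000a00070003000e0008) (nat_lit 0x47b30300440023) (nat_lit 16) Lb.e (@T16.mk En
    (@En.n l7493 (nat_lit 11353) (nat_lit 6) (nat_lit 8))
    (@En.n l7494 (nat_lit 4896) (nat_lit 1) (nat_lit 14))
    (@En.n l7495 (nat_lit 11342) (nat_lit 2) (nat_lit 3))
    (@En.n l7496 (nat_lit 11646) (nat_lit 3) (nat_lit 7))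
    (@En.n l7497 (nat_lit 11347) (nat_lit 4) (nat_lit 10))
    (@En.n l7498 (nat_lit 11630) (nat_lit 6) (nat_lit 13))
    (@En.n l7499 (nat_lit 12552) (nat_lit 6) (nat_lit 6))
    (@En.n l7500 (nat_lit 12565) (nat_lit 14) (nat_lit 6))
    (@En.n l7501 (nat_lit 10007) (nat_lit 9) (nat_lit 8))
    (@En.n l17 (nat_lit 11355) (nat_lit 9) (nat_lit 2))
    (@En.n l7502 (nat_lit 11338) (nat_lit 11) (nat_lit 9))
    (@En.n l7503 (nat_lit 12096) (nat_lit 12) (nat_lit 14))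
    (@En.n l55 (nat_lit 11366) (nat_lit 13) (nat_lit 10))
    (@En.i (nat_lit 8172) (nat_lit 3) (nat_lit 10))
    (@En.n l7504 (nat_lit 8056) (nat_lit 4) (nat_lit 6))
    (@En.n l3 (nat_lit 11355) (nat_lit 15) (nat_lit 2))))
  (@Cl.mk (nat_lit 0x2000900090007000d000b00070003000700070005000e00090002000e0009) (nat_lit 0x460440000014097) (nat_lit 16) Lb.e (@T16.mk En
    (@En.n l3766 (nat_lit 7723) (nat_lit 14) (nat_lit 9))
    (@En.n l7468 (nat_lit 12289) (nat_lit 1) (nat_lit 14))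
    (@En.n l17 (nat_lit 11356) (nat_lit 2) (nat_lit 2))
    (@En.n l7469 (nat_lit 11353) (nat_lit 3) (nat_lit 9))
    (@En.n l7470 (nat_lit 1692) (nat_lit 1) (nat_lit 14))
    (@En.n l3506 (nat_lit 7720) (nat_lit 5) (nat_lit 5))
    (@En.n l335 (nat_lit 12544) (nat_lit 9) (nat_lit 7))
    (@En.n l7471 (nat_lit 6906) (nat_lit 7) (nat_lit 7))
    (@En.n l3007 (nat_lit 12543) (nat_lit 8) (nat_lit 3))
    (@En.n l7472 (nat_lit 11651) (nat_lit 0) (nat_lit 7))
    (@En.n l7473 (nat_lit 9347) (nat_lit 11) (nat_lit 11))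
    (@En.n l7474 (nat_lit 10129) (nat_lit 12) (nat_lit 13))
    (@En.n l1347 (nat_lit 11164) (nat_lit 13) (nat_lit 7))
    (@En.n l7475 (nat_lit 12552) (nat_lit 7) (nat_lit 9))
    (@En.n l7476 (nat_lit 8136) (nat_lit 12) (nat_lit 9))
    (@En.n l3 (nat_lit 11356) (nat_lit 15) (nat_lit 2))))
  (@Cl.mk (nat_lit 0x200080008000d0008000d00030008000300080008000e00080002000e0008) (nat_lit 0x347450402352086) (nat_lit 16) Lb.e (@T16.mk En
    (@En.n l18314 (nat_lit 11354) (nat_lit 14) (nat_lit 8))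
    (@En.n l20773 (nat_lit 1915) (nat_lit 1) (nat_lit 14))
    (@En.n l50 (nat_lit 11357) (nat_lit 2) (nat_lit 2))
    (@En.n l7140 (nat_lit 11305) (nat_lit 3) (nat_lit 8))
    (@En.n l476 (nat_lit 11689) (nat_lit 5) (nat_lit 14))
    (@En.n l152 (nat_lit 11359) (nat_lit 8) (nat_lit 8))
    (@En.n l3213 (nat_lit 7039) (nat_lit 6) (nat_lit 8))
    (@En.n l8158 (nat_lit 11358) (nat_lit 7) (nat_lit 3))
    (@En.n l20774 (nat_lit 10789) (nat_lit 0) (nat_lit 8))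
    (@En.n l11 (nat_lit 11352) (nat_lit 9) (nat_lit 3))
    (@En.n l4150 (nat_lit 2560) (nat_lit 0) (nat_lit 13))
    (@En.n l20774 (nat_lit 7971) (nat_lit 12) (nat_lit 8))
    (@En.n l20775 (nat_lit 6456) (nat_lit 13) (nat_lit 13))
    (@En.n l20776 (nat_lit 11360) (nat_lit 14) (nat_lit 8))
    (@En.n l20777 (nat_lit 11927) (nat_lit 12) (nat_lit 8))
    (@En.n l17 (nat_lit 11357) (nat_lit 15) (nat_lit 2))))
  (@Cl.mk (nat_lit 0x200080008000c0008000d00070004000300080008000e00080002000e0009) (nat_lit 0x45460003525063) (nat_lit 16) Lb.e (@T16.mk En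
    (@En.i (nat_lit 10115) (nat_lit 14) (nat_lit 9))
    (@En.n l1353 (nat_lit 1918) (nat_lit 1) (nat_lit 14))
    (@En.n l3 (nat_lit 11358) (nat_lit 2) (nat_lit 2))
    (@En.n l8874 (nat_lit 11306) (nat_lit 3) (nat_lit 8))
    (@En.i (nat_lit 11688) (nat_lit 5) (nat_lit 14))
    (@En.n l9605 (nat_lit 11362) (nat_lit 8) (nat_lit 8))
    (@En.n l9606 (nat_lit 12817) (nat_lit 6) (nat_lit 8))
    (@En.n l8875 (nat_lit 11357) (nat_lit 7) (nat_lit 3))
    (@En.i (nat_lit 12538) (nat_lit 8) (nat_lit 4))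
    (@En.n l28762 (nat_lit 7947) (nat_lit 6) (nat_lit 7))
    (@En.n l28763 (nat_lit 2561) (nat_lit 11) (nat_lit 13))
    (@En.n l8516 (nat_lit 7969) (nat_lit 12) (nat_lit 8))
    (@En.n l1353 (nat_lit 6460) (nat_lit 13) (nat_lit 12))
    (@En.n l61 (nat_lit 11363) (nat_lit 14) (nat_lit 8))
    (@En.n l1353 (nat_lit 11928) (nat_lit 12) (nat_lit 8))
    (@En.n l11 (nat_lit 11358) (nat_lit 15) (nat_lit 2))))
  (@Cl.mk (nat_lit 0x2000d0009000d0003000900030008000e00070002000e00070002000e0008) (nat_lit 0x856030240070044) (nat_lit 16) Lb.e (@T16.mk En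
    (@En.i (nat_lit 11357) (nat_lit 14) (nat_lit 8))
    (@En.i (nat_lit 8107) (nat_lit 1) (nat_lit 14))
    (@En.n l17 (nat_lit 11359) (nat_lit 2) (nat_lit 2))
    (@En.n l8516 (nat_lit 10789) (nat_lit 14) (nat_lit 7))
    (@En.n l21045 (nat_lit 1921) (nat_lit 1) (nat_lit 14))
    (@En.n l50 (nat_lit 11359) (nat_lit 5) (nat_lit 2))
    (@En.n l7140 (nat_lit 11645) (nat_lit 6) (nat_lit 7))
    (@En.n l8898 (nat_lit 2177) (nat_lit 1) (nat_lit 14))
    (@En.n l3213 (nat_lit 10034) (nat_lit 5) (nat_lit 8))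
    (@En.i (nat_lit 11362) (nat_lit 9) (nat_lit 3))
    (@En.n l17792 (nat_lit 11368) (nat_lit 11) (nat_lit 9))
    (@En.n l11 (nat_lit 11361) (nat_lit 11) (nat_lit 3))
    (@En.i (nat_lit 1839) (nat_lit 0) (nat_lit 13))
    (@En.n l5076 (nat_lit 10105) (nat_lit 14) (nat_lit 9))
    (@En.i (nat_lit 6452) (nat_lit 12) (nat_lit 13))
    (@En.n l3 (nat_lit 11359) (nat_lit 15) (nat_lit 2))))
noncomputable def a710 : T16 Cl := @T16.mk Cl
  (@Cl.mk (nat_lit 0x20008000d0007000d000300070003000e00080002000e00090002000e0009) (nat_lit 0x350500013064095) (nat_lit 16) Lb.e (@T16.mk En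
    (@En.n l8872 (nat_lit 12543) (nat_lit 14) (nat_lit 9))
    (@En.n l8873 (nat_lit 1916) (nat_lit 1) (nat_lit 14))
    (@En.n l3 (nat_lit 11360) (nat_lit 2) (nat_lit 2))
    (@En.n l8874 (nat_lit 12541) (nat_lit 3) (nat_lit 9))
    (@En.i (nat_lit 11694) (nat_lit 1) (nat_lit 14))
    (@En.n l17 (nat_lit 11360) (nat_lit 5) (nat_lit 2))
    (@En.n l8875 (nat_lit 11357) (nat_lit 6) (nat_lit 8))
    (@En.n l8876 (nat_lit 1689) (nat_lit 1) (nat_lit 14))
    (@En.n l50 (nat_lit 11363) (nat_lit 8) (nat_lit 3))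
    (@En.n l8877 (nat_lit 11359) (nat_lit 6) (nat_lit 7))
    (@En.n l50 (nat_lit 12544) (nat_lit 10) (nat_lit 3))
    (@En.n l2680 (nat_lit 2562) (nat_lit 0) (nat_lit 13))
    (@En.n l8878 (nat_lit 7966) (nat_lit 13) (nat_lit 7))
    (@En.n l50 (nat_lit 10119) (nat_lit 14) (nat_lit 13))
    (@En.n l8879 (nat_lit 12352) (nat_lit 12) (nat_lit 8))
    (@En.n l11 (nat_lit 11360) (nat_lit 15) (nat_lit 2))))
  (@Cl.mk (nat_lit 0x2000d000c000a0003000900040008000e00060002000e00070002000e0008) (nat_lit 0x7760303600a0043) (nat_lit 16) Lb.e (@T16.mk En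
    (@En.i (nat_lit 11352) (nat_lit 14) (nat_lit 8))
    (@En.i (nat_lit 8106) (nat_lit 1) (nat_lit 14))
    (@En.n l17 (nat_lit 11361) (nat_lit 2) (nat_lit 2))
    (@En.i (nat_lit 11351) (nat_lit 14) (nat_lit 7))
    (@En.n l1013 (nat_lit 1923) (nat_lit 1) (nat_lit 14))
    (@En.n l50 (nat_lit 11361) (nat_lit 5) (nat_lit 2))
    (@En.n l9902 (nat_lit 9932) (nat_lit 6) (nat_lit 6))
    (@En.i (nat_lit 2489) (nat_lit 1) (nat_lit 14))
    (@En.n l3213 (nat_lit 8983) (nat_lit 5) (nat_lit 8))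
    (@En.i (nat_lit 12537) (nat_lit 9) (nat_lit 4))
    (@En.i (nat_lit 12602) (nat_lit 11) (nat_lit 9))
    (@En.i (nat_lit 11359) (nat_lit 11) (nat_lit 3))
    (@En.i (nat_lit 11363) (nat_lit 0) (nat_lit 10))
    (@En.n l1578 (nat_lit 11362) (nat_lit 14) (nat_lit 12))
    (@En.i (nat_lit 6451) (nat_lit 12) (nat_lit 13))
    (@En.n l3 (nat_lit 11361) (nat_lit 15) (nat_lit 2))))
  (@Cl.mk (nat_lit 0x2000c0009000d0008000400030008000e00070002000e00080002000e0008) (nat_lit 0x637100410053041) (nat_lit 16) Lb.e (@T16.mk En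
    (@En.n l8158 (nat_lit 11358) (nat_lit 14) (nat_lit 8))
    (@En.i (nat_lit 8108) (nat_lit 1) (nat_lit 14))
    (@En.n l17 (nat_lit 11362) (nat_lit 2) (nat_lit 2))
    (@En.i (nat_lit 10787) (nat_lit 14) (nat_lit 8))
    (@En.n l17837 (nat_lit 1922) (nat_lit 1) (nat_lit 14))
    (@En.n l50 (nat_lit 11362) (nat_lit 5) (nat_lit 2))
    (@En.n l7140 (nat_lit 11646) (nat_lit 6) (nat_lit 7))
    (@En.i (nat_lit 2170) (nat_lit 1) (nat_lit 14))
    (@En.n l810 (nat_lit 12815) (nat_lit 5) (nat_lit 8))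
    (@En.n l28 (nat_lit 11359) (nat_lit 9) (nat_lit 3))
    (@En.n l1393 (nat_lit 12539) (nat_lit 0) (nat_lit 4))
    (@En.n l3213 (nat_lit 7940) (nat_lit 5) (nat_lit 8))
    (@En.i (nat_lit 1832) (nat_lit 13) (nat_lit 13))
    (@En.i (nat_lit 10106) (nat_lit 14) (nat_lit 9))
    (@En.n l5012 (nat_lit 6458) (nat_lit 12) (nat_lit 12))
    (@En.n l3 (nat_lit 11362) (nat_lit 15) (nat_lit 2))))
  (@Cl.mk (nat_lit 0x20008000c0007000d000600040003000e00080002000e00090002000e000a) (nat_lit 0x340400024035075) (nat_lit 16) Lb.e (@T16.mk En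
    (@En.i (nat_lit 9347) (nat_lit 14) (nat_lit 10))
    (@En.i (nat_lit 1917) (nat_lit 1) (nat_lit 14))
    (@En.n l3 (nat_lit 11363) (nat_lit 2) (nat_lit 2))
    (@En.n l8874 (nat_lit 12540) (nat_lit 3) (nat_lit 9))
    (@En.i (nat_lit 11695) (nat_lit 1) (nat_lit 14))
    (@En.n l17 (nat_lit 11363) (nat_lit 5) (nat_lit 2))
    (@En.i (nat_lit 11358) (nat_lit 6) (nat_lit 8))
    (@En.i (nat_lit 1983) (nat_lit 1) (nat_lit 14))
    (@En.i (nat_lit 11360) (nat_lit 8) (nat_lit 3))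
    (@En.i (nat_lit 12533) (nat_lit 9) (nat_lit 4))
    (@En.i (nat_lit 9928) (nat_lit 7) (nat_lit 6))
    (@En.n l2680 (nat_lit 2491) (nat_lit 12) (nat_lit 13))
    (@En.n l3213 (nat_lit 7965) (nat_lit 13) (nat_lit 7))
    (@En.i (nat_lit 4842) (nat_lit 14) (nat_lit 12))
    (@En.i (nat_lit 12355) (nat_lit 12) (nat_lit 8))
    (@En.n l11 (nat_lit 11363) (nat_lit 15) (nat_lit 2))))
  (@Cl.mk (nat_lit 0x2000c000a000900090004000a000a0006000a0007000700060006000e0006) (nat_lit 0x944501604000020) (nat_lit 16) Lb.e (@T16.mk En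
    (@En.n l5770 (nat_lit 11350) (nat_lit 5) (nat_lit 6))
    (@En.n l32044 (nat_lit 10882) (nat_lit 1) (nat_lit 14))
    (@En.n l18096 (nat_lit 11365) (nat_lit 10) (nat_lit 6))
    (@En.i (nat_lit 8748) (nat_lit 3) (nat_lit 6))
    (@En.n l3532 (nat_lit 7660) (nat_lit 9) (nat_lit 7))
    (@En.n l31951 (nat_lit 9224) (nat_lit 5) (nat_lit 7))
    (@En.i (nat_lit 9009) (nat_lit 9) (nat_lit 10))
    (@En.n l32665 (nat_lit 10994) (nat_lit 7) (nat_lit 6))
    (@En.n l22675 (nat_lit 9932) (nat_lit 9) (nat_lit 10))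
    (@En.n l32666 (nat_lit 5315) (nat_lit 10) (nat_lit 10))
    (@En.n l7899 (nat_lit 7944) (nat_lit 10) (nat_lit 4))
    (@En.n l32667 (nat_lit 11351) (nat_lit 7) (nat_lit 9))
    (@En.n l14223 (nat_lit 7947) (nat_lit 13) (nat_lit 9))
    (@En.i (nat_lit 10788) (nat_lit 14) (nat_lit 10))
    (@En.i (nat_lit 5054) (nat_lit 3) (nat_lit 12))
    (@En.n l28 (nat_lit 11364) (nat_lit 15) (nat_lit 2))))
  (@Cl.mk (nat_lit 0x20007000b000800080006000e00050002000c0009000800080004000e000a) (nat_lit 0x71501008425072) (nat_lit 16) Lb.e (@T16.mk En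
    (@En.n l4538 (nat_lit 11364) (nat_lit 9) (nat_lit 10))
    (@En.n l17112 (nat_lit 4782) (nat_lit 1) (nat_lit 14))
    (@En.n l17113 (nat_lit 7939) (nat_lit 2) (nat_lit 4))
    (@En.n l17114 (nat_lit 11366) (nat_lit 3) (nat_lit 8))
    (@En.n l644 (nat_lit 7940) (nat_lit 13) (nat_lit 8))
    (@En.i (nat_lit 11345) (nat_lit 5) (nat_lit 9))
    (@En.n l14639 (nat_lit 5056) (nat_lit 7) (nat_lit 12))
    (@En.n l17 (nat_lit 11365) (nat_lit 7) (nat_lit 2))
    (@En.n l13918 (nat_lit 11338) (nat_lit 8) (nat_lit 5))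
    (@En.i (nat_lit 1345) (nat_lit 10) (nat_lit 14))
    (@En.n l3082 (nat_lit 8727) (nat_lit 2) (nat_lit 6))
    (@En.n l12876 (nat_lit 11367) (nat_lit 8) (nat_lit 8))
    (@En.n l17115 (nat_lit 8966) (nat_lit 13) (nat_lit 8))
    (@En.n l17113 (nat_lit 9004) (nat_lit 14) (nat_lit 11))
    (@En.n l17116 (nat_lit 10990) (nat_lit 6) (nat_lit 7))
    (@En.n l28 (nat_lit 11365) (nat_lit 15) (nat_lit 2))))
  (@Cl.mk (nat_lit 0x20006000a000e000800020007000e00060002000d000a00080003000e0009) (nat_lit 0x68200300644063) (nat_lit 16) Lb.e (@T16.mk En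
    (@En.n l7493 (nat_lit 11351) (nat_lit 5) (nat_lit 9))
    (@En.n l387 (nat_lit 4777) (nat_lit 1) (nat_lit 14))
    (@En.n l7253 (nat_lit 11368) (nat_lit 2) (nat_lit 3))
    (@En.n l2789 (nat_lit 11362) (nat_lit 3) (nat_lit 8))
    (@En.i (nat_lit 11369) (nat_lit 4) (nat_lit 10))
    (@En.n l15211 (nat_lit 5027) (nat_lit 11) (nat_lit 13))
    (@En.n l28 (nat_lit 11366) (nat_lit 6) (nat_lit 2))
    (@En.i (nat_lit 11355) (nat_lit 7) (nat_lit 6))
    (@En.n l18396 (nat_lit 1344) (nat_lit 9) (nat_lit 14))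
    (@En.n l7501 (nat_lit 10010) (nat_lit 2) (nat_lit 7))
    (@En.n l17 (nat_lit 11366) (nat_lit 10) (nat_lit 2))
    (@En.n l17994 (nat_lit 11365) (nat_lit 12) (nat_lit 8))
    (@En.i (nat_lit 1729) (nat_lit 13) (nat_lit 14))
    (@En.i (nat_lit 9029) (nat_lit 2) (nat_lit 10))
    (@En.n l7504 (nat_lit 8049) (nat_lit 3) (nat_lit 6))
    (@En.n l3 (nat_lit 11366) (nat_lit 15) (nat_lit 2))))
  (@Cl.mk (nat_lit 0x20005000e000b00020008000c00080005000e00040002000b0008000e0008) (nat_lit 0x33017409007443) (nat_lit 16) Lb.e (@T16.mk En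
    (@En.n l5580 (nat_lit 11365) (nat_lit 4) (nat_lit 8))
    (@En.i (nat_lit 12835) (nat_lit 6) (nat_lit 14))
    (@En.i (nat_lit 12836) (nat_lit 6) (nat_lit 8))
    (@En.i (nat_lit 5062) (nat_lit 3) (nat_lit 11))
    (@En.n l50 (nat_lit 11367) (nat_lit 4) (nat_lit 2))
    (@En.i (nat_lit 12550) (nat_lit 5) (nat_lit 4))
    (@En.n l6453 (nat_lit 1350) (nat_lit 7) (nat_lit 14))
    (@En.i (nat_lit 7192) (nat_lit 7) (nat_lit 5))
    (@En.i (nat_lit 9236) (nat_lit 13) (nat_lit 8))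
    (@En.i (nat_lit 9000) (nat_lit 10) (nat_lit 12))
    (@En.n l2228 (nat_lit 10987) (nat_lit 11) (nat_lit 8))
    (@En.n l11 (nat_lit 11367) (nat_lit 11) (nat_lit 2))
    (@En.n l55 (nat_lit 7660) (nat_lit 13) (nat_lit 11))
    (@En.n l617 (nat_lit 4905) (nat_lit 1) (nat_lit 14))
    (@En.i (nat_lit 5620) (nat_lit 2) (nat_lit 5))
    (@En.n l3 (nat_lit 11367) (nat_lit 15) (nat_lit 2))))
  (@Cl.mk (nat_lit 0x20005000a000e000900020007000e00060002000d0007000b0003000e0009) (nat_lit 0x6a200300502033) (nat_lit 16) Lb.e (@T16.mk En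
    (@En.n l5790 (nat_lit 10789) (nat_lit 5) (nat_lit 9))
    (@En.n l24118 (nat_lit 11369) (nat_lit 1) (nat_lit 14))
    (@En.n l10274 (nat_lit 11366) (nat_lit 2) (nat_lit 3))
    (@En.n l3328 (nat_lit 2694) (nat_lit 3) (nat_lit 11))
    (@En.n l20563 (nat_lit 10785) (nat_lit 4) (nat_lit 7))
    (@En.i (nat_lit 5032) (nat_lit 6) (nat_lit 13))
    (@En.n l725 (nat_lit 11368) (nat_lit 6) (nat_lit 2))
    (@En.n l17 (nat_lit 11342) (nat_lit 7) (nat_lit 6))
    (@En.i (nat_lit 1342) (nat_lit 9) (nat_lit 14))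
    (@En.n l2642 (nat_lit 10014) (nat_lit 2) (nat_lit 7))
    (@En.n l3 (nat_lit 11368) (nat_lit 10) (nat_lit 2))
    (@En.n l24686 (nat_lit 11341) (nat_lit 12) (nat_lit 9))
    (@En.n l4778 (nat_lit 1730) (nat_lit 13) (nat_lit 14))
    (@En.n l7643 (nat_lit 9031) (nat_lit 2) (nat_lit 10))
    (@En.i (nat_lit 12837) (nat_lit 3) (nat_lit 5))
    (@En.n l50 (nat_lit 11368) (nat_lit 15) (nat_lit 2))))
  (@Cl.mk (nat_lit 0x200060005000a000e000900020008000e00060002000a0007000b000e0008) (nat_lit 0x6b70330030123) (nat_lit 16) Lb.e (@T16.mk En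
    (@En.n l17987 (nat_lit 10787) (nat_lit 6) (nat_lit 8))
    (@En.n l17988 (nat_lit 2114) (nat_lit 8) (nat_lit 14))
    (@En.n l17989 (nat_lit 2691) (nat_lit 2) (nat_lit 11))
    (@En.n l17990 (nat_lit 10784) (nat_lit 14) (nat_lit 7))
    (@En.n l17991 (nat_lit 11190) (nat_lit 4) (nat_lit 10))
    (@En.n l28 (nat_lit 11369) (nat_lit 5) (nat_lit 2))
    (@En.n l7497 (nat_lit 11347) (nat_lit 6) (nat_lit 6))
    (@En.n l17992 (nat_lit 1341) (nat_lit 8) (nat_lit 14))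
    (@En.n l17993 (nat_lit 10021) (nat_lit 2) (nat_lit 8))
    (@En.n l17 (nat_lit 11369) (nat_lit 9) (nat_lit 2))
    (@En.n l17994 (nat_lit 11345) (nat_lit 11) (nat_lit 9))
    (@En.n l17995 (nat_lit 2166) (nat_lit 12) (nat_lit 14))
    (@En.n l17996 (nat_lit 8177) (nat_lit 13) (nat_lit 10))
    (@En.n l15211 (nat_lit 11368) (nat_lit 14) (nat_lit 5))
    (@En.n l7504 (nat_lit 11371) (nat_lit 4) (nat_lit 6))
    (@En.n l3 (nat_lit 11369) (nat_lit 15) (nat_lit 2))))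
  (@Cl.mk (nat_lit 0x20007000e00060002000a000d000b00090003000900060005000a000e0007) (nat_lit 0x30037850200570) (nat_lit 16) Lb.e (@T16.mk En
    (@En.n l3098 (nat_lit 10882) (nat_lit 4) (nat_lit 7))
    (@En.n l3 (nat_lit 2432) (nat_lit 6) (nat_lit 14))
    (@En.i (nat_lit 7462) (nat_lit 2) (nat_lit 10))
    (@En.n l77 (nat_lit 8051) (nat_lit 3) (nat_lit 5))
    (@En.n l3 (nat_lit 11375) (nat_lit 8) (nat_lit 6))
    (@En.n l24628 (nat_lit 8063) (nat_lit 5) (nat_lit 9))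
    (@En.i (nat_lit 11371) (nat_lit 6) (nat_lit 3))
    (@En.n l6105 (nat_lit 11688) (nat_lit 0) (nat_lit 9))
    (@En.i (nat_lit 11641) (nat_lit 9) (nat_lit 11))
    (@En.n l15291 (nat_lit 11366) (nat_lit 5) (nat_lit 13))
    (@En.n l6105 (nat_lit 12221) (nat_lit 11) (nat_lit 10))
    (@En.n l11 (nat_lit 11370) (nat_lit 11) (nat_lit 2))
    (@En.i (nat_lit 11376) (nat_lit 13) (nat_lit 6))
    (@En.n l180 (nat_lit 1343) (nat_lit 1) (nat_lit 14))
    (@En.n l3106 (nat_lit 7086) (nat_lit 2) (nat_lit 7))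
    (@En.n l17 (nat_lit 11370) (nat_lit 15) (nat_lit 2))))
  (@Cl.mk (nat_lit 0x20007000e00060002000a000d0008000c0003000900060004000a000e0008) (nat_lit 0x30036520300655) (nat_lit 16) Lb.e (@T16.mk En
    (@En.n l21388 (nat_lit 11372) (nat_lit 4) (nat_lit 8))
    (@En.n l3 (nat_lit 2421) (nat_lit 6) (nat_lit 14))
    (@En.i (nat_lit 9898) (nat_lit 2) (nat_lit 10))
    (@En.n l17896 (nat_lit 11640) (nat_lit 3) (nat_lit 4))
    (@En.n l3 (nat_lit 11373) (nat_lit 8) (nat_lit 6))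
    (@En.n l6645 (nat_lit 10784) (nat_lit 5) (nat_lit 9))
    (@En.n l50 (nat_lit 11370) (nat_lit 6) (nat_lit 3))
    (@En.n l17896 (nat_lit 2716) (nat_lit 0) (nat_lit 12))
    (@En.n l217 (nat_lit 10910) (nat_lit 13) (nat_lit 8))
    (@En.n l8913 (nat_lit 11368) (nat_lit 5) (nat_lit 13))
    (@En.n l21155 (nat_lit 11596) (nat_lit 11) (nat_lit 10))
    (@En.n l11 (nat_lit 11371) (nat_lit 11) (nat_lit 2))
    (@En.n l16707 (nat_lit 11374) (nat_lit 13) (nat_lit 6))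
    (@En.n l180 (nat_lit 1251) (nat_lit 1) (nat_lit 14))
    (@En.n l3106 (nat_lit 7090) (nat_lit 2) (nat_lit 7))
    (@En.n l17 (nat_lit 11371) (nat_lit 15) (nat_lit 2))))
  (@Cl.mk (nat_lit 0x20009000c00080008000c0004000a00070004000b000800080006000e0005) (nat_lit 0x463630200741010) (nat_lit 16) Lb.e (@T16.mk En
    (@En.n l14600 (nat_lit 11344) (nat_lit 6) (nat_lit 5))
    (@En.n l36691 (nat_lit 620) (nat_lit 1) (nat_lit 14))
    (@En.n l36692 (nat_lit 10270) (nat_lit 2) (nat_lit 6))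
    (@En.n l4004 (nat_lit 7665) (nat_lit 3) (nat_lit 8))
    (@En.n l13333 (nat_lit 12230) (nat_lit 4) (nat_lit 8))
    (@En.n l36693 (nat_lit 9895) (nat_lit 6) (nat_lit 11))
    (@En.n l36694 (nat_lit 10127) (nat_lit 6) (nat_lit 4))
    (@En.n l10573 (nat_lit 10760) (nat_lit 7) (nat_lit 7))
    (@En.n l21426 (nat_lit 10777) (nat_lit 9) (nat_lit 10))
    (@En.n l36695 (nat_lit 10882) (nat_lit 9) (nat_lit 4))
    (@En.n l36694 (nat_lit 12369) (nat_lit 11) (nat_lit 12))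
    (@En.n l36696 (nat_lit 11371) (nat_lit 8) (nat_lit 8))
    (@En.n l36697 (nat_lit 11053) (nat_lit 13) (nat_lit 8))
    (@En.n l36698 (nat_lit 11341) (nat_lit 6) (nat_lit 12))
    (@En.n l36699 (nat_lit 11606) (nat_lit 4) (nat_lit 9))
    (@En.n l18 (nat_lit 11372) (nat_lit 15) (nat_lit 2))))
  (@Cl.mk (nat_lit 0x2000a0005000d0009000d000300060003000a000e00070002000b000e0006) (nat_lit 0x407230006500520) (nat_lit 16) Lb.e (@T16.mk En
    (@En.n l10670 (nat_lit 11377) (nat_lit 13) (nat_lit 6))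
    (@En.n l2038 (nat_lit 1333) (nat_lit 4) (nat_lit 14))
    (@En.n l10671 (nat_lit 9977) (nat_lit 2) (nat_lit 11))
    (@En.n l17 (nat_lit 11373) (nat_lit 3) (nat_lit 2))
    (@En.n l10672 (nat_lit 10760) (nat_lit 4) (nat_lit 7))
    (@En.i (nat_lit 2420) (nat_lit 6) (nat_lit 14))
    (@En.i (nat_lit 9899) (nat_lit 2) (nat_lit 10))
    (@En.n l1186 (nat_lit 12246) (nat_lit 7) (nat_lit 3))
    (@En.n l10673 (nat_lit 42) (nat_lit 0) (nat_lit 6))
    (@En.n l50 (nat_lit 11375) (nat_lit 9) (nat_lit 3))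
    (@En.n l10673 (nat_lit 2726) (nat_lit 0) (nat_lit 13))
    (@En.n l1183 (nat_lit 12204) (nat_lit 12) (nat_lit 9))
    (@En.n l1690 (nat_lit 11371) (nat_lit 9) (nat_lit 13))
    (@En.n l10674 (nat_lit 8107) (nat_lit 14) (nat_lit 5))
    (@En.n l10673 (nat_lit 11598) (nat_lit 11) (nat_lit 10))
    (@En.n l11 (nat_lit 11373) (nat_lit 15) (nat_lit 2))))
  (@Cl.mk (nat_lit 0x2000800060006000a000d0007000c0003000800060004000a000a000e0009) (nat_lit 0x300260103004772) (nat_lit 16) Lb.e (@T16.mk En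
    (@En.n l22584 (nat_lit 11344) (nat_lit 9) (nat_lit 9))
    (@En.n l30762 (nat_lit 11922) (nat_lit 1) (nat_lit 14))
    (@En.n l30763 (nat_lit 11371) (nat_lit 2) (nat_lit 10))
    (@En.n l30764 (nat_lit 9907) (nat_lit 3) (nat_lit 10))
    (@En.n l30765 (nat_lit 11634) (nat_lit 4) (nat_lit 4))
    (@En.n l30766 (nat_lit 11377) (nat_lit 5) (nat_lit 6))
    (@En.n l30767 (nat_lit 10113) (nat_lit 6) (nat_lit 8))
    (@En.n l30768 (nat_lit 11376) (nat_lit 7) (nat_lit 3))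
    (@En.n l30769 (nat_lit 2725) (nat_lit 0) (nat_lit 12))
    (@En.n l30770 (nat_lit 10909) (nat_lit 10) (nat_lit 7))
    (@En.n l30771 (nat_lit 11342) (nat_lit 5) (nat_lit 13))
    (@En.n l30769 (nat_lit 11599) (nat_lit 12) (nat_lit 10))
    (@En.n l6918 (nat_lit 12568) (nat_lit 13) (nat_lit 6))
    (@En.n l30771 (nat_lit 12267) (nat_lit 14) (nat_lit 6))
    (@En.n l30772 (nat_lit 7089) (nat_lit 6) (nat_lit 8))
    (@En.n l936 (nat_lit 11374) (nat_lit 15) (nat_lit 2))))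
  (@Cl.mk (nat_lit 0x2000a0005000d000c000a000300060004000a000e00060002000b000e0006) (nat_lit 0x408960006600520) (nat_lit 16) Lb.e (@T16.mk En
    (@En.n l18253 (nat_lit 11751) (nat_lit 13) (nat_lit 6))
    (@En.n l2038 (nat_lit 1347) (nat_lit 4) (nat_lit 14))
    (@En.n l24145 (nat_lit 10776) (nat_lit 2) (nat_lit 11))
    (@En.n l17 (nat_lit 11375) (nat_lit 3) (nat_lit 2))
    (@En.n l24145 (nat_lit 10753) (nat_lit 4) (nat_lit 6))
    (@En.i (nat_lit 2383) (nat_lit 6) (nat_lit 14))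
    (@En.i (nat_lit 7463) (nat_lit 2) (nat_lit 10))
    (@En.i (nat_lit 12247) (nat_lit 3) (nat_lit 4))
    (@En.n l17738 (nat_lit 12249) (nat_lit 4) (nat_lit 6))
    (@En.i (nat_lit 11373) (nat_lit 9) (nat_lit 3))
    (@En.n l7457 (nat_lit 11690) (nat_lit 0) (nat_lit 10))
    (@En.n l3903 (nat_lit 12246) (nat_lit 12) (nat_lit 12))
    (@En.n l1690 (nat_lit 11370) (nat_lit 9) (nat_lit 13))
    (@En.n l10674 (nat_lit 8106) (nat_lit 14) (nat_lit 5))
    (@En.n l1189 (nat_lit 12223) (nat_lit 11) (nat_lit 10))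
    (@En.n l11 (nat_lit 11375) (nat_lit 15) (nat_lit 2))))
noncomputable def a711 : T16 Cl := @T16.mk Cl
  (@Cl.mk (nat_lit 0x2000800060006000a000d000b00080003000800060005000a000a000e0008) (nat_lit 0x300257202001685) (nat_lit 16) Lb.e (@T16.mk En
    (@En.n l2947 (nat_lit 11744) (nat_lit 9) (nat_lit 8))
    (@En.n l3548 (nat_lit 11913) (nat_lit 1) (nat_lit 14))
    (@En.n l575 (nat_lit 11370) (nat_lit 2) (nat_lit 10))
    (@En.i (nat_lit 7469) (nat_lit 3) (nat_lit 10))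
    (@En.n l77 (nat_lit 8058) (nat_lit 4) (nat_lit 5))
    (@En.n l23268 (nat_lit 11751) (nat_lit 5) (nat_lit 6))
    (@En.n l23176 (nat_lit 6447) (nat_lit 6) (nat_lit 8))
    (@En.n l16707 (nat_lit 11374) (nat_lit 7) (nat_lit 3))
    (@En.n l16743 (nat_lit 11687) (nat_lit 0) (nat_lit 8))
    (@En.n l18351 (nat_lit 11638) (nat_lit 10) (nat_lit 11))
    (@En.n l15291 (nat_lit 11355) (nat_lit 5) (nat_lit 13))
    (@En.n l11032 (nat_lit 12222) (nat_lit 12) (nat_lit 10))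
    (@En.n l23269 (nat_lit 11750) (nat_lit 13) (nat_lit 6))
    (@En.n l23270 (nat_lit 12268) (nat_lit 14) (nat_lit 6))
    (@En.n l2947 (nat_lit 7088) (nat_lit 6) (nat_lit 8))
    (@En.n l17 (nat_lit 11376) (nat_lit 15) (nat_lit 2))))
  (@Cl.mk (nat_lit 0x2000c00060006000a0004000d0008000d000300060003000a000a000e0008) (nat_lit 0x600307220004765) (nat_lit 16) Lb.e (@T16.mk En
    (@En.n l24112 (nat_lit 11705) (nat_lit 12) (nat_lit 8))
    (@En.n l24114 (nat_lit 11915) (nat_lit 1) (nat_lit 14))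
    (@En.n l24135 (nat_lit 11373) (nat_lit 6) (nat_lit 10))
    (@En.n l18627 (nat_lit 9025) (nat_lit 3) (nat_lit 10))
    (@En.n l2394 (nat_lit 11707) (nat_lit 4) (nat_lit 3))
    (@En.n l3858 (nat_lit 12556) (nat_lit 12) (nat_lit 6))
    (@En.n l9375 (nat_lit 11751) (nat_lit 6) (nat_lit 3))
    (@En.n l3858 (nat_lit 2728) (nat_lit 0) (nat_lit 13))
    (@En.n l2652 (nat_lit 12208) (nat_lit 3) (nat_lit 8))
    (@En.n l16186 (nat_lit 11374) (nat_lit 10) (nat_lit 13))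
    (@En.n l2364 (nat_lit 8109) (nat_lit 10) (nat_lit 4))
    (@En.n l3858 (nat_lit 11600) (nat_lit 12) (nat_lit 10))
    (@En.n l644 (nat_lit 11713) (nat_lit 13) (nat_lit 6))
    (@En.i (nat_lit 12269) (nat_lit 14) (nat_lit 6))
    (@En.n l24136 (nat_lit 8807) (nat_lit 8) (nat_lit 12))
    (@En.n l3 (nat_lit 11377) (nat_lit 15) (nat_lit 2))))
  (@Cl.mk (nat_lit 0x20006000a0007000b0008000c0008000600050004000a00090008000e0008) (nat_lit 0x40618600036684) (nat_lit 16) Lb.e (@T16.mk En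
    (@En.n l24723 (nat_lit 8012) (nat_lit 1) (nat_lit 8))
    (@En.n l32346 (nat_lit 9373) (nat_lit 1) (nat_lit 14))
    (@En.n l9970 (nat_lit 11899) (nat_lit 2) (nat_lit 8))
    (@En.n l4758 (nat_lit 9051) (nat_lit 3) (nat_lit 9))
    (@En.n l32347 (nat_lit 11449) (nat_lit 4) (nat_lit 10))
    (@En.n l3519 (nat_lit 11379) (nat_lit 5) (nat_lit 4))
    (@En.n l32346 (nat_lit 11300) (nat_lit 6) (nat_lit 5))
    (@En.i (nat_lit 7675) (nat_lit 7) (nat_lit 6))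
    (@En.n l32347 (nat_lit 10415) (nat_lit 9) (nat_lit 8))
    (@En.i (nat_lit 8170) (nat_lit 10) (nat_lit 12))
    (@En.n l61 (nat_lit 5860) (nat_lit 11) (nat_lit 8))
    (@En.n l21428 (nat_lit 9885) (nat_lit 12) (nat_lit 11))
    (@En.n l32348 (nat_lit 8015) (nat_lit 13) (nat_lit 7))
    (@En.n l3517 (nat_lit 6583) (nat_lit 14) (nat_lit 10))
    (@En.i (nat_lit 11100) (nat_lit 13) (nat_lit 6))
    (@En.n l28 (nat_lit 11378) (nat_lit 15) (nat_lit 2))))
  (@Cl.mk (nat_lit 0x2000600090007000d0008000c0003000900070004000a00090008000e0007) (nat_lit 0x209160300265b0) (nat_lit 16) Lb.e (@T16.mk En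
    (@En.n l32322 (nat_lit 11288) (nat_lit 7) (nat_lit 7))
    (@En.n l7036 (nat_lit 9268) (nat_lit 1) (nat_lit 14))
    (@En.n l1357 (nat_lit 11903) (nat_lit 2) (nat_lit 8))
    (@En.n l725 (nat_lit 9045) (nat_lit 3) (nat_lit 9))
    (@En.n l24069 (nat_lit 11381) (nat_lit 4) (nat_lit 10))
    (@En.n l10385 (nat_lit 11304) (nat_lit 5) (nat_lit 4))
    (@En.i (nat_lit 7093) (nat_lit 6) (nat_lit 7))
    (@En.n l6024 (nat_lit 10730) (nat_lit 8) (nat_lit 9))
    (@En.n l30468 (nat_lit 11380) (nat_lit 8) (nat_lit 3))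
    (@En.i (nat_lit 8165) (nat_lit 10) (nat_lit 12))
    (@En.n l32323 (nat_lit 5859) (nat_lit 11) (nat_lit 8))
    (@En.n l7036 (nat_lit 11270) (nat_lit 12) (nat_lit 13))
    (@En.n l32324 (nat_lit 9929) (nat_lit 13) (nat_lit 7))
    (@En.i (nat_lit 7705) (nat_lit 14) (nat_lit 9))
    (@En.n l32325 (nat_lit 11993) (nat_lit 13) (nat_lit 6))
    (@En.n l50 (nat_lit 11379) (nat_lit 15) (nat_lit 2))))
  (@Cl.mk (nat_lit 0x2000600090007000d000b00090003000900070005000a00090007000e0007) (nat_lit 0x20972010025090) (nat_lit 16) Lb.e (@T16.mk En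
    (@En.n l16889 (nat_lit 11286) (nat_lit 7) (nat_lit 7))
    (@En.n l12285 (nat_lit 9272) (nat_lit 1) (nat_lit 14))
    (@En.n l7010 (nat_lit 5674) (nat_lit 2) (nat_lit 7))
    (@En.i (nat_lit 9047) (nat_lit 3) (nat_lit 9))
    (@En.n l16890 (nat_lit 11382) (nat_lit 4) (nat_lit 10))
    (@En.n l16891 (nat_lit 11303) (nat_lit 5) (nat_lit 5))
    (@En.i (nat_lit 7672) (nat_lit 6) (nat_lit 7))
    (@En.n l16892 (nat_lit 10409) (nat_lit 8) (nat_lit 9))
    (@En.n l16893 (nat_lit 11379) (nat_lit 8) (nat_lit 3))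
    (@En.n l2940 (nat_lit 5853) (nat_lit 10) (nat_lit 9))
    (@En.n l16894 (nat_lit 11378) (nat_lit 11) (nat_lit 11))
    (@En.n l16895 (nat_lit 11272) (nat_lit 12) (nat_lit 13))
    (@En.n l16896 (nat_lit 9930) (nat_lit 13) (nat_lit 7))
    (@En.n l16897 (nat_lit 7704) (nat_lit 14) (nat_lit 9))
    (@En.n l1723 (nat_lit 12016) (nat_lit 13) (nat_lit 6))
    (@En.n l7 (nat_lit 11380) (nat_lit 15) (nat_lit 2))))
  (@Cl.mk (nat_lit 0x20006000b00090008000d000900050003000a0007000a00080007000e0006) (nat_lit 0x532810030150a0) (nat_lit 16) Lb.e (@T16.mk En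
    (@En.n l15909 (nat_lit 11290) (nat_lit 8) (nat_lit 6))
    (@En.n l21778 (nat_lit 9267) (nat_lit 1) (nat_lit 14))
    (@En.i (nat_lit 12733) (nat_lit 2) (nat_lit 7))
    (@En.i (nat_lit 9118) (nat_lit 3) (nat_lit 8))
    (@En.n l3832 (nat_lit 2310) (nat_lit 4) (nat_lit 10))
    (@En.n l10426 (nat_lit 7676) (nat_lit 5) (nat_lit 7))
    (@En.n l33302 (nat_lit 10724) (nat_lit 7) (nat_lit 10))
    (@En.n l15280 (nat_lit 11382) (nat_lit 7) (nat_lit 3))
    (@En.n l23869 (nat_lit 11231) (nat_lit 8) (nat_lit 5))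
    (@En.n l644 (nat_lit 6010) (nat_lit 10) (nat_lit 9))
    (@En.n l33303 (nat_lit 11269) (nat_lit 11) (nat_lit 13))
    (@En.n l33304 (nat_lit 11235) (nat_lit 12) (nat_lit 8))
    (@En.n l23871 (nat_lit 11379) (nat_lit 13) (nat_lit 9))
    (@En.n l20819 (nat_lit 11051) (nat_lit 14) (nat_lit 11))
    (@En.n l33305 (nat_lit 11990) (nat_lit 13) (nat_lit 6))
    (@En.n l17 (nat_lit 11381) (nat_lit 15) (nat_lit 2))))
  (@Cl.mk (nat_lit 0x20006000c00090008000d0004000a0003000a0007000a00080006000e0006) (nat_lit 0x832702010140a0) (nat_lit 16) Lb.e (@T16.mk En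
    (@En.n l32306 (nat_lit 11289) (nat_lit 8) (nat_lit 6))
    (@En.n l4356 (nat_lit 9271) (nat_lit 1) (nat_lit 14))
    (@En.n l4794 (nat_lit 5676) (nat_lit 2) (nat_lit 6))
    (@En.i (nat_lit 9117) (nat_lit 3) (nat_lit 8))
    (@En.i (nat_lit 2309) (nat_lit 4) (nat_lit 10))
    (@En.n l764 (nat_lit 7673) (nat_lit 5) (nat_lit 7))
    (@En.n l32307 (nat_lit 10408) (nat_lit 7) (nat_lit 10))
    (@En.n l1029 (nat_lit 11381) (nat_lit 7) (nat_lit 3))
    (@En.n l10998 (nat_lit 7716) (nat_lit 9) (nat_lit 10))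
    (@En.n l117 (nat_lit 11295) (nat_lit 9) (nat_lit 4))
    (@En.n l4793 (nat_lit 11271) (nat_lit 11) (nat_lit 13))
    (@En.n l32308 (nat_lit 11238) (nat_lit 12) (nat_lit 8))
    (@En.n l32309 (nat_lit 11380) (nat_lit 13) (nat_lit 9))
    (@En.n l32310 (nat_lit 11383) (nat_lit 14) (nat_lit 12))
    (@En.n l32311 (nat_lit 11951) (nat_lit 13) (nat_lit 6))
    (@En.n l50 (nat_lit 11382) (nat_lit 15) (nat_lit 2))))
  (@Cl.mk (nat_lit 0x2000c00080007000c0004000b000a0004000a0008000500090006000e0006) (nat_lit 0x720708302404030) (nat_lit 16) Lb.e (@T16.mk En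
    (@En.n l35005 (nat_lit 10279) (nat_lit 5) (nat_lit 6))
    (@En.n l35006 (nat_lit 9276) (nat_lit 1) (nat_lit 14))
    (@En.n l19077 (nat_lit 5952) (nat_lit 2) (nat_lit 6))
    (@En.n l28345 (nat_lit 9112) (nat_lit 3) (nat_lit 9))
    (@En.n l35007 (nat_lit 9781) (nat_lit 4) (nat_lit 5))
    (@En.i (nat_lit 10328) (nat_lit 5) (nat_lit 8))
    (@En.n l27597 (nat_lit 10412) (nat_lit 7) (nat_lit 10))
    (@En.n l35008 (nat_lit 11051) (nat_lit 7) (nat_lit 4))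
    (@En.n l35009 (nat_lit 11384) (nat_lit 9) (nat_lit 10))
    (@En.n l9836 (nat_lit 11380) (nat_lit 10) (nat_lit 11))
    (@En.n l29125 (nat_lit 11448) (nat_lit 10) (nat_lit 4))
    (@En.n l3593 (nat_lit 11585) (nat_lit 12) (nat_lit 12))
    (@En.n l7231 (nat_lit 11423) (nat_lit 13) (nat_lit 7))
    (@En.i (nat_lit 7706) (nat_lit 14) (nat_lit 8))
    (@En.n l35010 (nat_lit 9956) (nat_lit 3) (nat_lit 12))
    (@En.n l50 (nat_lit 11383) (nat_lit 15) (nat_lit 2))))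
  (@Cl.mk (nat_lit 0x2000c00090008000d0004000a000300090007000d000800060003000e0007) (nat_lit 0x5213020403500b0) (nat_lit 16) Lb.e (@T16.mk En
    (@En.n l34639 (nat_lit 11388) (nat_lit 14) (nat_lit 7))
    (@En.n l34640 (nat_lit 11382) (nat_lit 1) (nat_lit 14))
    (@En.n l34641 (nat_lit 11386) (nat_lit 2) (nat_lit 3))
    (@En.n l34642 (nat_lit 5958) (nat_lit 3) (nat_lit 6))
    (@En.n l34643 (nat_lit 11181) (nat_lit 4) (nat_lit 8))
    (@En.n l2565 (nat_lit 12205) (nat_lit 6) (nat_lit 13))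
    (@En.n l34643 (nat_lit 10330) (nat_lit 6) (nat_lit 7))
    (@En.n l34644 (nat_lit 10413) (nat_lit 8) (nat_lit 9))
    (@En.n l34645 (nat_lit 11385) (nat_lit 8) (nat_lit 3))
    (@En.n l34642 (nat_lit 7712) (nat_lit 10) (nat_lit 10))
    (@En.n l34646 (nat_lit 10350) (nat_lit 10) (nat_lit 4))
    (@En.i (nat_lit 9995) (nat_lit 12) (nat_lit 13))
    (@En.n l16811 (nat_lit 4705) (nat_lit 13) (nat_lit 8))
    (@En.n l34643 (nat_lit 7728) (nat_lit 14) (nat_lit 9))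
    (@En.n l4361 (nat_lit 9954) (nat_lit 12) (nat_lit 12))
    (@En.n l17 (nat_lit 11384) (nat_lit 15) (nat_lit 2))))
  (@Cl.mk (nat_lit 0x2000b00090008000d00090005000300090007000d000800070003000e0007) (nat_lit 0x7212600407400b0) (nat_lit 16) Lb.e (@T16.mk En
    (@En.n l31168 (nat_lit 11390) (nat_lit 14) (nat_lit 7))
    (@En.n l21420 (nat_lit 11381) (nat_lit 1) (nat_lit 14))
    (@En.n l9876 (nat_lit 11387) (nat_lit 2) (nat_lit 3))
    (@En.n l21422 (nat_lit 11539) (nat_lit 3) (nat_lit 7))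
    (@En.n l9877 (nat_lit 9865) (nat_lit 4) (nat_lit 8))
    (@En.n l31169 (nat_lit 12204) (nat_lit 6) (nat_lit 13))
    (@En.i (nat_lit 10332) (nat_lit 6) (nat_lit 7))
    (@En.n l31170 (nat_lit 10628) (nat_lit 8) (nat_lit 9))
    (@En.n l31171 (nat_lit 11384) (nat_lit 8) (nat_lit 3))
    (@En.n l10573 (nat_lit 3401) (nat_lit 0) (nat_lit 5))
    (@En.n l61 (nat_lit 11658) (nat_lit 11) (nat_lit 9))
    (@En.n l31172 (nat_lit 9996) (nat_lit 12) (nat_lit 13))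
    (@En.n l31173 (nat_lit 4706) (nat_lit 13) (nat_lit 8))
    (@En.n l31174 (nat_lit 7729) (nat_lit 14) (nat_lit 9))
    (@En.n l31168 (nat_lit 10488) (nat_lit 12) (nat_lit 11))
    (@En.n l28 (nat_lit 11385) (nat_lit 15) (nat_lit 2))))
  (@Cl.mk (nat_lit 0x2000c00090007000d0004000b000300090007000d000500090003000e0007) (nat_lit 0x320202040403040) (nat_lit 16) Lb.e (@T16.mk En
    (@En.n l32291 (nat_lit 11389) (nat_lit 14) (nat_lit 7))
    (@En.n l2125 (nat_lit 9299) (nat_lit 1) (nat_lit 14))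
    (@En.n l32292 (nat_lit 11384) (nat_lit 2) (nat_lit 3))
    (@En.n l10089 (nat_lit 5810) (nat_lit 3) (nat_lit 9))
    (@En.i (nat_lit 11383) (nat_lit 4) (nat_lit 5))
    (@En.n l28322 (nat_lit 10983) (nat_lit 6) (nat_lit 13))
    (@En.i (nat_lit 10329) (nat_lit 6) (nat_lit 7))
    (@En.n l21209 (nat_lit 9206) (nat_lit 8) (nat_lit 9))
    (@En.n l117 (nat_lit 11387) (nat_lit 8) (nat_lit 3))
    (@En.n l11722 (nat_lit 7998) (nat_lit 10) (nat_lit 11))
    (@En.n l32293 (nat_lit 10348) (nat_lit 10) (nat_lit 4))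
    (@En.n l3593 (nat_lit 9993) (nat_lit 12) (nat_lit 13))
    (@En.n l7231 (nat_lit 4701) (nat_lit 13) (nat_lit 7))
    (@En.i (nat_lit 7730) (nat_lit 14) (nat_lit 9))
    (@En.i (nat_lit 9953) (nat_lit 12) (nat_lit 12))
    (@En.n l50 (nat_lit 11386) (nat_lit 15) (nat_lit 2))))
  (@Cl.mk (nat_lit 0x2000b00090007000d000a0005000300090007000d000600090003000e0007) (nat_lit 0x7202700404030b0) (nat_lit 16) Lb.e (@T16.mk En
    (@En.i (nat_lit 11391) (nat_lit 14) (nat_lit 7))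
    (@En.i (nat_lit 9297) (nat_lit 1) (nat_lit 14))
    (@En.n l1236 (nat_lit 11385) (nat_lit 2) (nat_lit 3))
    (@En.n l1867 (nat_lit 5811) (nat_lit 9) (nat_lit 9))
    (@En.i (nat_lit 11053) (nat_lit 4) (nat_lit 6))
    (@En.n l19406 (nat_lit 10978) (nat_lit 6) (nat_lit 13))
    (@En.i (nat_lit 10331) (nat_lit 6) (nat_lit 7))
    (@En.n l27807 (nat_lit 10627) (nat_lit 8) (nat_lit 9))
    (@En.n l152 (nat_lit 11386) (nat_lit 8) (nat_lit 3))
    (@En.n l3866 (nat_lit 3399) (nat_lit 0) (nat_lit 5))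
    (@En.n l22465 (nat_lit 11602) (nat_lit 11) (nat_lit 10))
    (@En.n l13889 (nat_lit 9994) (nat_lit 12) (nat_lit 13))
    (@En.n l12291 (nat_lit 4702) (nat_lit 13) (nat_lit 7))
    (@En.n l1867 (nat_lit 6530) (nat_lit 14) (nat_lit 9))
    (@En.i (nat_lit 10491) (nat_lit 12) (nat_lit 11))
    (@En.n l50 (nat_lit 11387) (nat_lit 15) (nat_lit 2))))
  (@Cl.mk (nat_lit 0x300070007000c00080007000d000400090003000900090008000d00090007) (nat_lit 0x4103030456560) (nat_lit 16) Lb.e (@T16.mk En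
    (@En.n l32633 (nat_lit 12372) (nat_lit 0) (nat_lit 7))
    (@En.n l32634 (nat_lit 9862) (nat_lit 11) (nat_lit 9))
    (@En.n l32635 (nat_lit 12207) (nat_lit 12) (nat_lit 13))
    (@En.n l32636 (nat_lit 10831) (nat_lit 3) (nat_lit 8))
    (@En.n l32637 (nat_lit 11384) (nat_lit 7) (nat_lit 9))
    (@En.n l32638 (nat_lit 10415) (nat_lit 5) (nat_lit 9))
    (@En.n l28 (nat_lit 11390) (nat_lit 6) (nat_lit 3))
    (@En.n l32639 (nat_lit 7711) (nat_lit 0) (nat_lit 9))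
    (@En.i (nat_lit 10349) (nat_lit 8) (nat_lit 4))
    (@En.n l32640 (nat_lit 9999) (nat_lit 10) (nat_lit 13))
    (@En.n l4037 (nat_lit 10454) (nat_lit 1) (nat_lit 7))
    (@En.n l32641 (nat_lit 63) (nat_lit 4) (nat_lit 8))
    (@En.n l32642 (nat_lit 9958) (nat_lit 13) (nat_lit 12))
    (@En.n l644 (nat_lit 11013) (nat_lit 9) (nat_lit 7))
    (@En.n l11469 (nat_lit 11980) (nat_lit 7) (nat_lit 7))
    (@En.n l32643 (nat_lit 11389) (nat_lit 15) (nat_lit 3))))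
  (@Cl.mk (nat_lit 0x300070007000c00080006000d0004000a0003000900090008000d0006000a) (nat_lit 0x9303010453503) (nat_lit 16) Lb.e (@T16.mk En
    (@En.n l41705 (nat_lit 4816) (nat_lit 0) (nat_lit 10))
    (@En.n l42913 (nat_lit 10279) (nat_lit 8) (nat_lit 6))
    (@En.n l42787 (nat_lit 12209) (nat_lit 12) (nat_lit 13))
    (@En.n l33846 (nat_lit 10718) (nat_lit 3) (nat_lit 8))
    (@En.n l31688 (nat_lit 11386) (nat_lit 7) (nat_lit 9))
    (@En.n l22762 (nat_lit 10416) (nat_lit 5) (nat_lit 9))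
    (@En.n l31968 (nat_lit 11391) (nat_lit 6) (nat_lit 3))
    (@En.n l1722 (nat_lit 7719) (nat_lit 0) (nat_lit 10))
    (@En.n l15349 (nat_lit 10346) (nat_lit 8) (nat_lit 4))
    (@En.n l617 (nat_lit 9037) (nat_lit 10) (nat_lit 13))
    (@En.n l22766 (nat_lit 4520) (nat_lit 3) (nat_lit 6))
    (@En.n l39775 (nat_lit 5802) (nat_lit 12) (nat_lit 8))
    (@En.n l42914 (nat_lit 9957) (nat_lit 13) (nat_lit 12))
    (@En.n l42915 (nat_lit 11588) (nat_lit 9) (nat_lit 7))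
    (@En.n l42916 (nat_lit 10489) (nat_lit 12) (nat_lit 7))
    (@En.n l42917 (nat_lit 11388) (nat_lit 15) (nat_lit 3))))
  (@Cl.mk (nat_lit 0x300070007000b00080007000d000800050003000900090008000d00090008) (nat_lit 0x6302300452816) (nat_lit 16) Lb.e (@T16.mk En
    (@En.n l619 (nat_lit 11534) (nat_lit 0) (nat_lit 8))
    (@En.n l10040 (nat_lit 9859) (nat_lit 11) (nat_lit 9))
    (@En.n l8766 (nat_lit 12208) (nat_lit 12) (nat_lit 13))
    (@En.n l32636 (nat_lit 10830) (nat_lit 3) (nat_lit 8))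
    (@En.n l42485 (nat_lit 11385) (nat_lit 7) (nat_lit 9))
    (@En.n l42486 (nat_lit 10623) (nat_lit 5) (nat_lit 9))
    (@En.i (nat_lit 11388) (nat_lit 6) (nat_lit 3))
    (@En.n l17017 (nat_lit 3421) (nat_lit 0) (nat_lit 5))
    (@En.i (nat_lit 11429) (nat_lit 9) (nat_lit 8))
    (@En.n l33389 (nat_lit 9998) (nat_lit 10) (nat_lit 13))
    (@En.i (nat_lit 4525) (nat_lit 3) (nat_lit 7))
    (@En.n l17 (nat_lit 5802) (nat_lit 4) (nat_lit 8))
    (@En.i (nat_lit 10489) (nat_lit 13) (nat_lit 11))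
    (@En.n l644 (nat_lit 11591) (nat_lit 9) (nat_lit 7))
    (@En.i (nat_lit 11981) (nat_lit 7) (nat_lit 7))
    (@En.n l32936 (nat_lit 11391) (nat_lit 15) (nat_lit 3))))
  (@Cl.mk (nat_lit 0x300070007000b00080006000d000900050003000900090008000d0007000a) (nat_lit 0x6102600456703) (nat_lit 16) Lb.e (@T16.mk En
    (@En.n l39474 (nat_lit 4815) (nat_lit 8) (nat_lit 10))
    (@En.n l36073 (nat_lit 11055) (nat_lit 11) (nat_lit 7))
    (@En.n l19406 (nat_lit 12210) (nat_lit 12) (nat_lit 13))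
    (@En.n l39475 (nat_lit 10714) (nat_lit 3) (nat_lit 8))
    (@En.n l644 (nat_lit 11387) (nat_lit 7) (nat_lit 9))
    (@En.n l39476 (nat_lit 10625) (nat_lit 5) (nat_lit 9))
    (@En.n l39477 (nat_lit 11389) (nat_lit 6) (nat_lit 3))
    (@En.n l23736 (nat_lit 3423) (nat_lit 0) (nat_lit 5))
    (@En.n l39478 (nat_lit 11592) (nat_lit 9) (nat_lit 9))
    (@En.n l39479 (nat_lit 9997) (nat_lit 10) (nat_lit 13))
    (@En.n l30409 (nat_lit 4522) (nat_lit 3) (nat_lit 6))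
    (@En.n l39480 (nat_lit 52) (nat_lit 4) (nat_lit 8))
    (@En.n l30411 (nat_lit 10492) (nat_lit 13) (nat_lit 11))
    (@En.n l39481 (nat_lit 11589) (nat_lit 9) (nat_lit 7))
    (@En.n l23736 (nat_lit 10487) (nat_lit 12) (nat_lit 7))
    (@En.n l30415 (nat_lit 11390) (nat_lit 15) (nat_lit 3))))
noncomputable def a712 : T16 Cl := @T16.mk Cl
  (@Cl.mk (nat_lit 0x2000b0006000b0007000b0005000c0005000a00050004000a0009000e0006) (nat_lit 0x606070201002430) (nat_lit 16) Lb.e (@T16.mk En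
    (@En.n l3098 (nat_lit 10278) (nat_lit 8) (nat_lit 6))
    (@En.n l2604 (nat_lit 9465) (nat_lit 1) (nat_lit 14))
    (@En.n l3 (nat_lit 9775) (nat_lit 2) (nat_lit 9))
    (@En.n l34484 (nat_lit 8519) (nat_lit 3) (nat_lit 10))
    (@En.i (nat_lit 9778) (nat_lit 4) (nat_lit 4))
    (@En.n l29230 (nat_lit 6583) (nat_lit 5) (nat_lit 5))
    (@En.n l16948 (nat_lit 10215) (nat_lit 1) (nat_lit 10))
    (@En.n l5928 (nat_lit 11394) (nat_lit 7) (nat_lit 5))
    (@En.n l34485 (nat_lit 12372) (nat_lit 9) (nat_lit 12))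
    (@En.n l34486 (nat_lit 11051) (nat_lit 9) (nat_lit 5))
    (@En.n l29230 (nat_lit 9806) (nat_lit 11) (nat_lit 11))
    (@En.n l9365 (nat_lit 6441) (nat_lit 12) (nat_lit 7))
    (@En.n l34487 (nat_lit 9286) (nat_lit 13) (nat_lit 11))
    (@En.i (nat_lit 11445) (nat_lit 14) (nat_lit 6))
    (@En.n l34488 (nat_lit 9809) (nat_lit 10) (nat_lit 11))
    (@En.n l17 (nat_lit 11392) (nat_lit 15) (nat_lit 2))))
  (@Cl.mk (nat_lit 0x2000b000600090007000c0005000c0009000400070004000a0009000e0007) (nat_lit 0x406050910002540) (nat_lit 16) Lb.e (@T16.mk En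
    (@En.n l36262 (nat_lit 11400) (nat_lit 10) (nat_lit 7))
    (@En.n l2604 (nat_lit 9449) (nat_lit 1) (nat_lit 14))
    (@En.n l3 (nat_lit 11550) (nat_lit 2) (nat_lit 9))
    (@En.n l998 (nat_lit 11394) (nat_lit 3) (nat_lit 10))
    (@En.n l50 (nat_lit 11392) (nat_lit 4) (nat_lit 4))
    (@En.i (nat_lit 11508) (nat_lit 11) (nat_lit 7))
    (@En.n l8962 (nat_lit 6582) (nat_lit 6) (nat_lit 4))
    (@En.n l217 (nat_lit 10843) (nat_lit 0) (nat_lit 9))
    (@En.n l36263 (nat_lit 11534) (nat_lit 9) (nat_lit 12))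
    (@En.n l8962 (nat_lit 11052) (nat_lit 9) (nat_lit 5))
    (@En.n l24015 (nat_lit 11396) (nat_lit 11) (nat_lit 12))
    (@En.n l8962 (nat_lit 11403) (nat_lit 12) (nat_lit 7))
    (@En.n l8962 (nat_lit 10796) (nat_lit 9) (nat_lit 9))
    (@En.n l17733 (nat_lit 4541) (nat_lit 14) (nat_lit 6))
    (@En.n l36264 (nat_lit 9921) (nat_lit 10) (nat_lit 11))
    (@En.n l17 (nat_lit 11393) (nat_lit 15) (nat_lit 2))))
  (@Cl.mk (nat_lit 0x2000a0006000b00090008000c00060005000a00040007000a0008000e0006) (nat_lit 0x3057270060014b0) (nat_lit 16) Lb.e (@T16.mk En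
    (@En.n l38516 (nat_lit 11398) (nat_lit 11) (nat_lit 6))
    (@En.n l5390 (nat_lit 7471) (nat_lit 1) (nat_lit 14))
    (@En.n l3082 (nat_lit 11547) (nat_lit 2) (nat_lit 8))
    (@En.n l41244 (nat_lit 8190) (nat_lit 3) (nat_lit 10))
    (@En.n l9874 (nat_lit 11507) (nat_lit 11) (nat_lit 7))
    (@En.n l35899 (nat_lit 6584) (nat_lit 5) (nat_lit 4))
    (@En.n l1643 (nat_lit 10838) (nat_lit 0) (nat_lit 10))
    (@En.n l97 (nat_lit 11454) (nat_lit 7) (nat_lit 5))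
    (@En.n l16356 (nat_lit 11053) (nat_lit 8) (nat_lit 6))
    (@En.n l37137 (nat_lit 11395) (nat_lit 10) (nat_lit 12))
    (@En.n l37137 (nat_lit 11397) (nat_lit 11) (nat_lit 8))
    (@En.n l897 (nat_lit 11393) (nat_lit 12) (nat_lit 9))
    (@En.n l41245 (nat_lit 7984) (nat_lit 13) (nat_lit 11))
    (@En.n l41246 (nat_lit 4543) (nat_lit 14) (nat_lit 6))
    (@En.n l41247 (nat_lit 9919) (nat_lit 9) (nat_lit 10))
    (@En.n l17 (nat_lit 11394) (nat_lit 15) (nat_lit 2))))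
  (@Cl.mk (nat_lit 0x2000b0006000c0009000c0005000400090004000d0007000a0003000e0007) (nat_lit 0x305760020601070) (nat_lit 16) Lb.e (@T16.mk En
    (@En.n l982 (nat_lit 11399) (nat_lit 14) (nat_lit 7))
    (@En.n l31473 (nat_lit 7470) (nat_lit 1) (nat_lit 14))
    (@En.n l117 (nat_lit 11397) (nat_lit 2) (nat_lit 3))
    (@En.n l31474 (nat_lit 5817) (nat_lit 3) (nat_lit 10))
    (@En.n l28343 (nat_lit 11394) (nat_lit 4) (nat_lit 7))
    (@En.n l31475 (nat_lit 10905) (nat_lit 6) (nat_lit 13))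
    (@En.n l5567 (nat_lit 6586) (nat_lit 6) (nat_lit 4))
    (@En.n l7406 (nat_lit 10619) (nat_lit 8) (nat_lit 9))
    (@En.n l18 (nat_lit 11461) (nat_lit 8) (nat_lit 4))
    (@En.n l31476 (nat_lit 11387) (nat_lit 9) (nat_lit 5))
    (@En.i (nat_lit 4668) (nat_lit 6) (nat_lit 12))
    (@En.n l10557 (nat_lit 11396) (nat_lit 12) (nat_lit 9))
    (@En.n l1392 (nat_lit 7983) (nat_lit 13) (nat_lit 12))
    (@En.n l1878 (nat_lit 10342) (nat_lit 14) (nat_lit 6))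
    (@En.n l10556 (nat_lit 9920) (nat_lit 12) (nat_lit 11))
    (@En.n l28 (nat_lit 11395) (nat_lit 15) (nat_lit 2))))
  (@Cl.mk (nat_lit 0x2000c00060009000c0004000b00080004000c00070005000a0004000e0008) (nat_lit 0x406408503002035) (nat_lit 16) Lb.e (@T16.mk En
    (@En.n l7477 (nat_lit 11401) (nat_lit 14) (nat_lit 8))
    (@En.n l21627 (nat_lit 9451) (nat_lit 1) (nat_lit 14))
    (@En.n l21628 (nat_lit 8043) (nat_lit 2) (nat_lit 4))
    (@En.n l9136 (nat_lit 11395) (nat_lit 3) (nat_lit 10))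
    (@En.n l3480 (nat_lit 9806) (nat_lit 4) (nat_lit 5))
    (@En.n l21629 (nat_lit 11393) (nat_lit 5) (nat_lit 7))
    (@En.n l21630 (nat_lit 10903) (nat_lit 7) (nat_lit 12))
    (@En.i (nat_lit 6585) (nat_lit 7) (nat_lit 4))
    (@En.n l9138 (nat_lit 10621) (nat_lit 0) (nat_lit 8))
    (@En.n l21631 (nat_lit 11533) (nat_lit 10) (nat_lit 11))
    (@En.i (nat_lit 11602) (nat_lit 10) (nat_lit 4))
    (@En.i (nat_lit 11221) (nat_lit 6) (nat_lit 12))
    (@En.n l1081 (nat_lit 10795) (nat_lit 9) (nat_lit 9))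
    (@En.n l21632 (nat_lit 4542) (nat_lit 14) (nat_lit 6))
    (@En.n l7479 (nat_lit 11956) (nat_lit 3) (nat_lit 12))
    (@En.n l28 (nat_lit 11396) (nat_lit 15) (nat_lit 2))))
  (@Cl.mk (nat_lit 0x2000b0007000c0008000c0005000400090004000d000900080003000e0007) (nat_lit 0x307170050636070) (nat_lit 16) Lb.e (@T16.mk En
    (@En.n l35395 (nat_lit 11402) (nat_lit 14) (nat_lit 7))
    (@En.n l2440 (nat_lit 11304) (nat_lit 1) (nat_lit 14))
    (@En.n l152 (nat_lit 11395) (nat_lit 2) (nat_lit 3))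
    (@En.n l35396 (nat_lit 11540) (nat_lit 3) (nat_lit 8))
    (@En.n l35397 (nat_lit 11180) (nat_lit 4) (nat_lit 9))
    (@En.n l35398 (nat_lit 10910) (nat_lit 6) (nat_lit 13))
    (@En.n l5567 (nat_lit 6588) (nat_lit 6) (nat_lit 4))
    (@En.n l19741 (nat_lit 11469) (nat_lit 8) (nat_lit 9))
    (@En.n l28249 (nat_lit 11462) (nat_lit 8) (nat_lit 4))
    (@En.n l5567 (nat_lit 11385) (nat_lit 9) (nat_lit 5))
    (@En.i (nat_lit 4667) (nat_lit 11) (nat_lit 12))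
    (@En.n l35399 (nat_lit 8043) (nat_lit 12) (nat_lit 8))
    (@En.n l28251 (nat_lit 7982) (nat_lit 13) (nat_lit 12))
    (@En.n l19742 (nat_lit 10343) (nat_lit 14) (nat_lit 7))
    (@En.n l10555 (nat_lit 10494) (nat_lit 12) (nat_lit 11))
    (@En.n l28 (nat_lit 11397) (nat_lit 15) (nat_lit 2))))
  (@Cl.mk (nat_lit 0x50008000b000900060006000a0005000b00080007000b00060005000a000a) (nat_lit 0x535002046060057) (nat_lit 16) Lb.e (@T16.mk En
    (@En.n l43610 (nat_lit 11394) (nat_lit 6) (nat_lit 10))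
    (@En.n l43611 (nat_lit 10842) (nat_lit 1) (nat_lit 10))
    (@En.n l18 (nat_lit 11414) (nat_lit 11) (nat_lit 5))
    (@En.n l16500 (nat_lit 11055) (nat_lit 0) (nat_lit 6))
    (@En.n l11 (nat_lit 11399) (nat_lit 8) (nat_lit 11))
    (@En.n l43612 (nat_lit 11402) (nat_lit 9) (nat_lit 7))
    (@En.n l43613 (nat_lit 11400) (nat_lit 6) (nat_lit 8))
    (@En.n l7432 (nat_lit 7988) (nat_lit 3) (nat_lit 11))
    (@En.n l43614 (nat_lit 4537) (nat_lit 8) (nat_lit 5))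
    (@En.n l17133 (nat_lit 10507) (nat_lit 9) (nat_lit 10))
    (@En.n l152 (nat_lit 11492) (nat_lit 10) (nat_lit 6))
    (@En.n l43615 (nat_lit 9955) (nat_lit 2) (nat_lit 6))
    (@En.n l43616 (nat_lit 11548) (nat_lit 7) (nat_lit 9))
    (@En.n l43615 (nat_lit 8199) (nat_lit 7) (nat_lit 11))
    (@En.n l43617 (nat_lit 9891) (nat_lit 10) (nat_lit 8))
    (@En.n l6080 (nat_lit 7553) (nat_lit 15) (nat_lit 5))))
  (@Cl.mk (nat_lit 0x300070007000b0005000c0008000b00050004000900090005000d0008000b) (nat_lit 0x2016500430764) (nat_lit 16) Lb.e (@T16.mk En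
    (@En.n l13393 (nat_lit 9211) (nat_lit 0) (nat_lit 11))
    (@En.i (nat_lit 11398) (nat_lit 14) (nat_lit 8))
    (@En.n l39585 (nat_lit 10906) (nat_lit 2) (nat_lit 13))
    (@En.n l6080 (nat_lit 7552) (nat_lit 3) (nat_lit 5))
    (@En.n l3261 (nat_lit 11395) (nat_lit 7) (nat_lit 9))
    (@En.n l10794 (nat_lit 10617) (nat_lit 5) (nat_lit 9))
    (@En.n l18 (nat_lit 11410) (nat_lit 6) (nat_lit 4))
    (@En.n l39586 (nat_lit 11391) (nat_lit 7) (nat_lit 5))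
    (@En.i (nat_lit 3635) (nat_lit 7) (nat_lit 11))
    (@En.n l899 (nat_lit 11401) (nat_lit 10) (nat_lit 8))
    (@En.n l7432 (nat_lit 7107) (nat_lit 11) (nat_lit 12))
    (@En.i (nat_lit 60) (nat_lit 4) (nat_lit 5))
    (@En.n l17133 (nat_lit 10505) (nat_lit 8) (nat_lit 11))
    (@En.n l152 (nat_lit 11491) (nat_lit 9) (nat_lit 7))
    (@En.n l3348 (nat_lit 9952) (nat_lit 12) (nat_lit 7))
    (@En.n l17387 (nat_lit 11402) (nat_lit 15) (nat_lit 3))))
  (@Cl.mk (nat_lit 0x500080005000b000a00070007000b000500080006000b0005000b00090009) (nat_lit 0x504600305040842) (nat_lit 16) Lb.e (@T16.mk En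
    (@En.n l31980 (nat_lit 11393) (nat_lit 7) (nat_lit 9))
    (@En.n l42360 (nat_lit 11943) (nat_lit 1) (nat_lit 9))
    (@En.n l23222 (nat_lit 11544) (nat_lit 2) (nat_lit 11))
    (@En.n l21605 (nat_lit 11054) (nat_lit 5) (nat_lit 5))
    (@En.n l2899 (nat_lit 11401) (nat_lit 9) (nat_lit 11))
    (@En.n l777 (nat_lit 11404) (nat_lit 10) (nat_lit 6))
    (@En.i (nat_lit 10781) (nat_lit 10) (nat_lit 8))
    (@En.n l31982 (nat_lit 74) (nat_lit 7) (nat_lit 5))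
    (@En.i (nat_lit 11864) (nat_lit 8) (nat_lit 11))
    (@En.n l42361 (nat_lit 11494) (nat_lit 9) (nat_lit 7))
    (@En.n l7650 (nat_lit 9956) (nat_lit 2) (nat_lit 7))
    (@En.n l42362 (nat_lit 11498) (nat_lit 6) (nat_lit 10))
    (@En.n l42363 (nat_lit 11398) (nat_lit 13) (nat_lit 11))
    (@En.n l31982 (nat_lit 10278) (nat_lit 11) (nat_lit 5))
    (@En.n l42364 (nat_lit 11513) (nat_lit 10) (nat_lit 8))
    (@En.n l28 (nat_lit 7555) (nat_lit 1) (nat_lit 5))))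
  (@Cl.mk (nat_lit 0x400080008000c00050008000b0004000a000800080005000c00080006000b) (nat_lit 0x453053074604605) (nat_lit 16) Lb.e (@T16.mk En
    (@En.n l16218 (nat_lit 11399) (nat_lit 0) (nat_lit 11))
    (@En.n l1003 (nat_lit 11407) (nat_lit 1) (nat_lit 6))
    (@En.n l8243 (nat_lit 11400) (nat_lit 14) (nat_lit 8))
    (@En.n l37402 (nat_lit 10904) (nat_lit 3) (nat_lit 12))
    (@En.n l30598 (nat_lit 7554) (nat_lit 4) (nat_lit 5))
    (@En.n l9878 (nat_lit 11396) (nat_lit 8) (nat_lit 8))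
    (@En.n l4758 (nat_lit 11942) (nat_lit 6) (nat_lit 8))
    (@En.n l31884 (nat_lit 11548) (nat_lit 2) (nat_lit 10))
    (@En.n l37403 (nat_lit 11592) (nat_lit 8) (nat_lit 4))
    (@En.i (nat_lit 11219) (nat_lit 7) (nat_lit 11))
    (@En.n l37404 (nat_lit 10780) (nat_lit 10) (nat_lit 8))
    (@En.n l16209 (nat_lit 4537) (nat_lit 15) (nat_lit 5))
    (@En.i (nat_lit 11958) (nat_lit 7) (nat_lit 12))
    (@En.n l11401 (nat_lit 11493) (nat_lit 8) (nat_lit 8))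
    (@En.n l2038 (nat_lit 9954) (nat_lit 11) (nat_lit 8))
    (@En.n l34210 (nat_lit 11405) (nat_lit 15) (nat_lit 4))))
  (@Cl.mk (nat_lit 0x300070007000b0006000c0007000b00050004000900090005000d000a0009) (nat_lit 0x2060600460767) (nat_lit 16) Lb.e (@T16.mk En
    (@En.n l31655 (nat_lit 11533) (nat_lit 0) (nat_lit 9))
    (@En.n l31656 (nat_lit 9847) (nat_lit 11) (nat_lit 10))
    (@En.n l31657 (nat_lit 10909) (nat_lit 2) (nat_lit 13))
    (@En.n l31658 (nat_lit 10868) (nat_lit 3) (nat_lit 5))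
    (@En.n l31659 (nat_lit 11397) (nat_lit 7) (nat_lit 9))
    (@En.n l31660 (nat_lit 11474) (nat_lit 5) (nat_lit 9))
    (@En.n l31661 (nat_lit 11411) (nat_lit 6) (nat_lit 4))
    (@En.n l31662 (nat_lit 11390) (nat_lit 7) (nat_lit 5))
    (@En.n l31656 (nat_lit 3627) (nat_lit 8) (nat_lit 11))
    (@En.n l31663 (nat_lit 11405) (nat_lit 10) (nat_lit 7))
    (@En.n l31664 (nat_lit 7987) (nat_lit 11) (nat_lit 12))
    (@En.n l31665 (nat_lit 10344) (nat_lit 4) (nat_lit 6))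
    (@En.n l31666 (nat_lit 10495) (nat_lit 8) (nat_lit 11))
    (@En.i (nat_lit 11490) (nat_lit 9) (nat_lit 7))
    (@En.n l31667 (nat_lit 11987) (nat_lit 12) (nat_lit 7))
    (@En.n l31668 (nat_lit 11399) (nat_lit 15) (nat_lit 3))))
  (@Cl.mk (nat_lit 0x2000c00070007000c0004000c00080004000c0004000900090004000e0008) (nat_lit 0x800407206046035) (nat_lit 16) Lb.e (@T16.mk En
    (@En.n l6669 (nat_lit 11404) (nat_lit 14) (nat_lit 8))
    (@En.n l39290 (nat_lit 7582) (nat_lit 1) (nat_lit 14))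
    (@En.n l2125 (nat_lit 11396) (nat_lit 2) (nat_lit 4))
    (@En.n l39291 (nat_lit 8040) (nat_lit 3) (nat_lit 9))
    (@En.n l39292 (nat_lit 11397) (nat_lit 4) (nat_lit 9))
    (@En.n l39293 (nat_lit 6441) (nat_lit 5) (nat_lit 4))
    (@En.n l11270 (nat_lit 10914) (nat_lit 7) (nat_lit 12))
    (@En.i (nat_lit 6589) (nat_lit 7) (nat_lit 4))
    (@En.n l39294 (nat_lit 12064) (nat_lit 9) (nat_lit 8))
    (@En.n l39295 (nat_lit 5796) (nat_lit 10) (nat_lit 12))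
    (@En.i (nat_lit 8045) (nat_lit 10) (nat_lit 4))
    (@En.n l39296 (nat_lit 7927) (nat_lit 12) (nat_lit 12))
    (@En.n l152 (nat_lit 11669) (nat_lit 9) (nat_lit 7))
    (@En.n l20641 (nat_lit 11622) (nat_lit 14) (nat_lit 7))
    (@En.n l3766 (nat_lit 11720) (nat_lit 3) (nat_lit 12))
    (@En.n l11 (nat_lit 11403) (nat_lit 15) (nat_lit 2))))
  (@Cl.mk (nat_lit 0x400080008000c00060006000b0004000b000800080005000c0005000a000a) (nat_lit 0x457003084307077) (nat_lit 16) Lb.e (@T16.mk En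
    (@En.n l3536 (nat_lit 12120) (nat_lit 6) (nat_lit 10))
    (@En.n l42655 (nat_lit 11402) (nat_lit 1) (nat_lit 10))
    (@En.n l31576 (nat_lit 6444) (nat_lit 9) (nat_lit 5))
    (@En.n l7 (nat_lit 10913) (nat_lit 0) (nat_lit 12))
    (@En.n l42656 (nat_lit 10997) (nat_lit 4) (nat_lit 5))
    (@En.n l6771 (nat_lit 11403) (nat_lit 8) (nat_lit 8))
    (@En.i (nat_lit 11940) (nat_lit 6) (nat_lit 8))
    (@En.n l7441 (nat_lit 5608) (nat_lit 2) (nat_lit 11))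
    (@En.n l42657 (nat_lit 11661) (nat_lit 8) (nat_lit 4))
    (@En.n l39124 (nat_lit 7933) (nat_lit 0) (nat_lit 11))
    (@En.n l152 (nat_lit 11664) (nat_lit 10) (nat_lit 6))
    (@En.n l35253 (nat_lit 11446) (nat_lit 12) (nat_lit 6))
    (@En.n l15329 (nat_lit 11718) (nat_lit 7) (nat_lit 12))
    (@En.n l42655 (nat_lit 11447) (nat_lit 8) (nat_lit 8))
    (@En.n l389 (nat_lit 10674) (nat_lit 11) (nat_lit 8))
    (@En.n l16798 (nat_lit 11401) (nat_lit 15) (nat_lit 4))))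
  (@Cl.mk (nat_lit 0x400080008000c00070007000b00040009000800080005000c000900090007) (nat_lit 0x62a003074101610) (nat_lit 16) Lb.e (@T16.mk En
    (@En.n l23504 (nat_lit 11406) (nat_lit 0) (nat_lit 7))
    (@En.n l38878 (nat_lit 8044) (nat_lit 7) (nat_lit 9))
    (@En.n l38879 (nat_lit 9851) (nat_lit 7) (nat_lit 9))
    (@En.n l38880 (nat_lit 73) (nat_lit 3) (nat_lit 12))
    (@En.n l38881 (nat_lit 10992) (nat_lit 4) (nat_lit 5))
    (@En.n l38882 (nat_lit 8043) (nat_lit 8) (nat_lit 8))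
    (@En.n l31725 (nat_lit 11939) (nat_lit 8) (nat_lit 8))
    (@En.n l32484 (nat_lit 11661) (nat_lit 11) (nat_lit 9))
    (@En.n l23258 (nat_lit 11429) (nat_lit 8) (nat_lit 4))
    (@En.n l38883 (nat_lit 11243) (nat_lit 8) (nat_lit 11))
    (@En.n l18 (nat_lit 11668) (nat_lit 9) (nat_lit 7))
    (@En.n l38884 (nat_lit 11079) (nat_lit 12) (nat_lit 7))
    (@En.n l38883 (nat_lit 11798) (nat_lit 7) (nat_lit 12))
    (@En.n l575 (nat_lit 11428) (nat_lit 8) (nat_lit 8))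
    (@En.i (nat_lit 10116) (nat_lit 11) (nat_lit 8))
    (@En.n l23402 (nat_lit 11404) (nat_lit 15) (nat_lit 4))))
  (@Cl.mk (nat_lit 0x300070007000c0006000c000a000400090004000900090006000d000a0007) (nat_lit 0x7065020630750) (nat_lit 16) Lb.e (@T16.mk En
    (@En.n l17381 (nat_lit 11517) (nat_lit 0) (nat_lit 7))
    (@En.n l17382 (nat_lit 11179) (nat_lit 11) (nat_lit 10))
    (@En.n l17383 (nat_lit 10704) (nat_lit 2) (nat_lit 13))
    (@En.n l17384 (nat_lit 10851) (nat_lit 3) (nat_lit 6))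
    (@En.n l17385 (nat_lit 9807) (nat_lit 7) (nat_lit 9))
    (@En.n l17386 (nat_lit 10422) (nat_lit 5) (nat_lit 9))
    (@En.n l17387 (nat_lit 11402) (nat_lit 6) (nat_lit 4))
    (@En.n l17388 (nat_lit 12021) (nat_lit 0) (nat_lit 9))
    (@En.n l2265 (nat_lit 11388) (nat_lit 8) (nat_lit 4))
    (@En.n l17389 (nat_lit 10517) (nat_lit 10) (nat_lit 10))
    (@En.n l17390 (nat_lit 10000) (nat_lit 11) (nat_lit 12))
    (@En.n l17391 (nat_lit 45) (nat_lit 4) (nat_lit 6))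
    (@En.n l17389 (nat_lit 9943) (nat_lit 13) (nat_lit 12))
    (@En.n l152 (nat_lit 11012) (nat_lit 9) (nat_lit 7))
    (@En.n l810 (nat_lit 10705) (nat_lit 12) (nat_lit 7))
    (@En.n l28 (nat_lit 11407) (nat_lit 15) (nat_lit 3))))
  (@Cl.mk (nat_lit 0x300070007000c0005000c000a0004000a0004000900090006000d0006000b) (nat_lit 0x5075050630701) (nat_lit 16) Lb.e (@T16.mk En
    (@En.n l5347 (nat_lit 5310) (nat_lit 0) (nat_lit 11))
    (@En.n l20088 (nat_lit 10277) (nat_lit 8) (nat_lit 6))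
    (@En.n l17383 (nat_lit 10702) (nat_lit 2) (nat_lit 13))
    (@En.n l6080 (nat_lit 10852) (nat_lit 3) (nat_lit 6))
    (@En.n l33115 (nat_lit 9806) (nat_lit 7) (nat_lit 9))
    (@En.n l33116 (nat_lit 11794) (nat_lit 5) (nat_lit 9))
    (@En.i (nat_lit 11399) (nat_lit 6) (nat_lit 4))
    (@En.n l4130 (nat_lit 11997) (nat_lit 0) (nat_lit 10))
    (@En.n l33117 (nat_lit 11389) (nat_lit 8) (nat_lit 4))
    (@En.n l899 (nat_lit 10516) (nat_lit 10) (nat_lit 10))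
    (@En.n l30464 (nat_lit 9039) (nat_lit 11) (nat_lit 12))
    (@En.n l12332 (nat_lit 10344) (nat_lit 12) (nat_lit 5))
    (@En.n l33118 (nat_lit 9942) (nat_lit 13) (nat_lit 12))
    (@En.n l152 (nat_lit 11408) (nat_lit 9) (nat_lit 7))
    (@En.i (nat_lit 9958) (nat_lit 12) (nat_lit 7))
    (@En.i (nat_lit 11406) (nat_lit 15) (nat_lit 3))))
noncomputable def a713 : T16 Cl := @T16.mk Cl
  (@Cl.mk (nat_lit 0x20007000d0007000c00030007000c0004000c0009000400090004000e0009) (nat_lit 0x80600506303067) (nat_lit 16) Lb.e (@T16.mk En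
    (@En.i (nat_lit 11407) (nat_lit 5) (nat_lit 9))
    (@En.i (nat_lit 9929) (nat_lit 1) (nat_lit 14))
    (@En.i (nat_lit 11491) (nat_lit 2) (nat_lit 4))
    (@En.i (nat_lit 12610) (nat_lit 3) (nat_lit 9))
    (@En.n l18273 (nat_lit 11588) (nat_lit 4) (nat_lit 4))
    (@En.n l61 (nat_lit 11416) (nat_lit 5) (nat_lit 9))
    (@En.i (nat_lit 9036) (nat_lit 7) (nat_lit 12))
    (@En.i (nat_lit 10343) (nat_lit 7) (nat_lit 4))
    (@En.n l2544 (nat_lit 9147) (nat_lit 9) (nat_lit 12))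
    (@En.i (nat_lit 10430) (nat_lit 10) (nat_lit 7))
    (@En.i (nat_lit 11012) (nat_lit 10) (nat_lit 3))
    (@En.n l4575 (nat_lit 8953) (nat_lit 0) (nat_lit 12))
    (@En.i (nat_lit 11083) (nat_lit 13) (nat_lit 7))
    (@En.n l18274 (nat_lit 11616) (nat_lit 14) (nat_lit 13))
    (@En.n l3098 (nat_lit 11882) (nat_lit 3) (nat_lit 7))
    (@En.n l3 (nat_lit 11408) (nat_lit 15) (nat_lit 2))))
  (@Cl.mk (nat_lit 0x20007000b0007000c0006000b00050004000c0009000500090004000e000a) (nat_lit 0x603030015030a2) (nat_lit 16) Lb.e (@T16.mk En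
    (@En.n l18210 (nat_lit 11179) (nat_lit 14) (nat_lit 10))
    (@En.n l18211 (nat_lit 8015) (nat_lit 1) (nat_lit 14))
    (@En.n l18212 (nat_lit 8562) (nat_lit 2) (nat_lit 4))
    (@En.n l535 (nat_lit 12346) (nat_lit 3) (nat_lit 9))
    (@En.n l18213 (nat_lit 11194) (nat_lit 4) (nat_lit 5))
    (@En.n l18214 (nat_lit 12082) (nat_lit 5) (nat_lit 9))
    (@En.n l18215 (nat_lit 6570) (nat_lit 7) (nat_lit 12))
    (@En.n l18212 (nat_lit 11408) (nat_lit 7) (nat_lit 4))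
    (@En.i (nat_lit 12092) (nat_lit 8) (nat_lit 5))
    (@En.n l18213 (nat_lit 9148) (nat_lit 10) (nat_lit 11))
    (@En.n l117 (nat_lit 11954) (nat_lit 11) (nat_lit 6))
    (@En.n l18213 (nat_lit 8954) (nat_lit 12) (nat_lit 12))
    (@En.n l18216 (nat_lit 12078) (nat_lit 13) (nat_lit 7))
    (@En.n l10385 (nat_lit 11155) (nat_lit 14) (nat_lit 11))
    (@En.n l18217 (nat_lit 11780) (nat_lit 13) (nat_lit 7))
    (@En.n l3 (nat_lit 11409) (nat_lit 15) (nat_lit 2))))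
  (@Cl.mk (nat_lit 0x300070007000d0005000c00030009000c0004000900090004000d0007000b) (nat_lit 0x9010530320a03) (nat_lit 16) Lb.e (@T16.mk En
    (@En.n l6108 (nat_lit 9214) (nat_lit 0) (nat_lit 11))
    (@En.i (nat_lit 11414) (nat_lit 7) (nat_lit 7))
    (@En.n l2834 (nat_lit 10955) (nat_lit 2) (nat_lit 13))
    (@En.n l2125 (nat_lit 11758) (nat_lit 3) (nat_lit 4))
    (@En.n l3261 (nat_lit 11461) (nat_lit 7) (nat_lit 9))
    (@En.n l9182 (nat_lit 10542) (nat_lit 5) (nat_lit 9))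
    (@En.i (nat_lit 11407) (nat_lit 6) (nat_lit 4))
    (@En.i (nat_lit 3626) (nat_lit 6) (nat_lit 12))
    (@En.n l4130 (nat_lit 11998) (nat_lit 1) (nat_lit 9))
    (@En.i (nat_lit 11476) (nat_lit 9) (nat_lit 3))
    (@En.n l7432 (nat_lit 7106) (nat_lit 0) (nat_lit 12))
    (@En.i (nat_lit 11479) (nat_lit 4) (nat_lit 5))
    (@En.n l899 (nat_lit 10060) (nat_lit 13) (nat_lit 13))
    (@En.n l152 (nat_lit 11412) (nat_lit 9) (nat_lit 7))
    (@En.i (nat_lit 9961) (nat_lit 4) (nat_lit 7))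
    (@En.i (nat_lit 11411) (nat_lit 15) (nat_lit 3))))
  (@Cl.mk (nat_lit 0x300070007000d0006000c00030008000c0004000900090004000d000a0008) (nat_lit 0x9060530360963) (nat_lit 16) Lb.e (@T16.mk En
    (@En.n l3812 (nat_lit 12330) (nat_lit 0) (nat_lit 8))
    (@En.i (nat_lit 11178) (nat_lit 8) (nat_lit 10))
    (@En.n l2834 (nat_lit 11420) (nat_lit 2) (nat_lit 13))
    (@En.n l2125 (nat_lit 10362) (nat_lit 3) (nat_lit 4))
    (@En.n l17385 (nat_lit 11462) (nat_lit 7) (nat_lit 9))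
    (@En.n l9182 (nat_lit 10545) (nat_lit 5) (nat_lit 9))
    (@En.i (nat_lit 11406) (nat_lit 6) (nat_lit 4))
    (@En.i (nat_lit 3624) (nat_lit 7) (nat_lit 12))
    (@En.n l1325 (nat_lit 12019) (nat_lit 1) (nat_lit 8))
    (@En.n l6665 (nat_lit 11466) (nat_lit 9) (nat_lit 3))
    (@En.n l7562 (nat_lit 7985) (nat_lit 0) (nat_lit 12))
    (@En.n l3875 (nat_lit 10353) (nat_lit 4) (nat_lit 6))
    (@En.n l24478 (nat_lit 10061) (nat_lit 13) (nat_lit 13))
    (@En.n l152 (nat_lit 11413) (nat_lit 9) (nat_lit 7))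
    (@En.n l810 (nat_lit 11819) (nat_lit 4) (nat_lit 7))
    (@En.n l28 (nat_lit 11410) (nat_lit 15) (nat_lit 3))))
  (@Cl.mk (nat_lit 0x20005000d0008000c00030007000d0004000c00030008000b0004000e0009) (nat_lit 0x85700904042034) (nat_lit 16) Lb.e (@T16.mk En
    (@En.i (nat_lit 11410) (nat_lit 5) (nat_lit 9))
    (@En.i (nat_lit 11416) (nat_lit 1) (nat_lit 14))
    (@En.i (nat_lit 11408) (nat_lit 2) (nat_lit 4))
    (@En.i (nat_lit 5542) (nat_lit 3) (nat_lit 11))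
    (@En.i (nat_lit 12601) (nat_lit 4) (nat_lit 8))
    (@En.i (nat_lit 11419) (nat_lit 5) (nat_lit 3))
    (@En.i (nat_lit 11028) (nat_lit 7) (nat_lit 12))
    (@En.i (nat_lit 11482) (nat_lit 7) (nat_lit 4))
    (@En.n l2544 (nat_lit 9972) (nat_lit 9) (nat_lit 13))
    (@En.i (nat_lit 7618) (nat_lit 10) (nat_lit 7))
    (@En.i (nat_lit 11413) (nat_lit 10) (nat_lit 3))
    (@En.i (nat_lit 9217) (nat_lit 12) (nat_lit 12))
    (@En.i (nat_lit 11415) (nat_lit 13) (nat_lit 8))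
    (@En.i (nat_lit 11316) (nat_lit 14) (nat_lit 13))
    (@En.i (nat_lit 10761) (nat_lit 13) (nat_lit 5))
    (@En.n l3 (nat_lit 11412) (nat_lit 15) (nat_lit 2))))
  (@Cl.mk (nat_lit 0x20005000d000b000900030007000d0005000c00030007000b0004000e0009) (nat_lit 0x887009070030b4) (nat_lit 16) Lb.e (@T16.mk En
    (@En.i (nat_lit 11411) (nat_lit 5) (nat_lit 9))
    (@En.i (nat_lit 11417) (nat_lit 1) (nat_lit 14))
    (@En.i (nat_lit 11012) (nat_lit 2) (nat_lit 4))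
    (@En.i (nat_lit 3629) (nat_lit 3) (nat_lit 11))
    (@En.i (nat_lit 12030) (nat_lit 4) (nat_lit 7))
    (@En.i (nat_lit 11487) (nat_lit 5) (nat_lit 3))
    (@En.i (nat_lit 11011) (nat_lit 0) (nat_lit 12))
    (@En.n l2678 (nat_lit 10354) (nat_lit 7) (nat_lit 5))
    (@En.n l3815 (nat_lit 9975) (nat_lit 9) (nat_lit 13))
    (@En.n l810 (nat_lit 11824) (nat_lit 10) (nat_lit 7))
    (@En.n l28 (nat_lit 11412) (nat_lit 10) (nat_lit 3))
    (@En.i (nat_lit 12308) (nat_lit 12) (nat_lit 9))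
    (@En.i (nat_lit 12081) (nat_lit 13) (nat_lit 11))
    (@En.n l11131 (nat_lit 11586) (nat_lit 14) (nat_lit 13))
    (@En.i (nat_lit 11722) (nat_lit 13) (nat_lit 5))
    (@En.n l3 (nat_lit 11413) (nat_lit 15) (nat_lit 2))))
  (@Cl.mk (nat_lit 0x300090008000c0005000a000a00040007000b000800060006000d0005000b) (nat_lit 0x564047005300805) (nat_lit 16) Lb.e (@T16.mk En
    (@En.n l7432 (nat_lit 7986) (nat_lit 0) (nat_lit 11))
    (@En.n l1637 (nat_lit 11478) (nat_lit 8) (nat_lit 5))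
    (@En.n l899 (nat_lit 10058) (nat_lit 2) (nat_lit 13))
    (@En.n l152 (nat_lit 11415) (nat_lit 10) (nat_lit 6))
    (@En.n l23851 (nat_lit 10304) (nat_lit 4) (nat_lit 6))
    (@En.n l40554 (nat_lit 11997) (nat_lit 5) (nat_lit 8))
    (@En.n l34251 (nat_lit 12711) (nat_lit 8) (nat_lit 11))
    (@En.n l23849 (nat_lit 9885) (nat_lit 11) (nat_lit 7))
    (@En.n l2125 (nat_lit 11759) (nat_lit 8) (nat_lit 4))
    (@En.n l40555 (nat_lit 11454) (nat_lit 6) (nat_lit 10))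
    (@En.n l40554 (nat_lit 10540) (nat_lit 1) (nat_lit 10))
    (@En.n l20088 (nat_lit 10277) (nat_lit 12) (nat_lit 5))
    (@En.n l11 (nat_lit 11410) (nat_lit 7) (nat_lit 12))
    (@En.n l55 (nat_lit 11411) (nat_lit 8) (nat_lit 8))
    (@En.n l4291 (nat_lit 11999) (nat_lit 5) (nat_lit 9))
    (@En.n l6665 (nat_lit 11477) (nat_lit 15) (nat_lit 3))))
  (@Cl.mk (nat_lit 0x200050008000c00090006000d0004000b000300080007000b0005000e000a) (nat_lit 0x46308060403035) (nat_lit 16) Lb.e (@T16.mk En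
    (@En.i (nat_lit 11414) (nat_lit 10) (nat_lit 10))
    (@En.i (nat_lit 11418) (nat_lit 1) (nat_lit 14))
    (@En.i (nat_lit 11083) (nat_lit 2) (nat_lit 5))
    (@En.n l11 (nat_lit 11412) (nat_lit 3) (nat_lit 11))
    (@En.n l55 (nat_lit 11413) (nat_lit 4) (nat_lit 7))
    (@En.i (nat_lit 12599) (nat_lit 5) (nat_lit 8))
    (@En.n l430 (nat_lit 11480) (nat_lit 6) (nat_lit 3))
    (@En.i (nat_lit 11029) (nat_lit 8) (nat_lit 11))
    (@En.n l430 (nat_lit 11481) (nat_lit 8) (nat_lit 4))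
    (@En.n l2544 (nat_lit 9973) (nat_lit 10) (nat_lit 13))
    (@En.i (nat_lit 7624) (nat_lit 11) (nat_lit 6))
    (@En.n l430 (nat_lit 12293) (nat_lit 12) (nat_lit 9))
    (@En.n l2611 (nat_lit 12704) (nat_lit 13) (nat_lit 12))
    (@En.n l23849 (nat_lit 9889) (nat_lit 10) (nat_lit 8))
    (@En.i (nat_lit 11724) (nat_lit 13) (nat_lit 5))
    (@En.n l3 (nat_lit 11415) (nat_lit 15) (nat_lit 2))))
  (@Cl.mk (nat_lit 0x200070005000d0008000c00030008000d0004000900030008000b000e0008) (nat_lit 0x7270630204226) (nat_lit 16) Lb.e (@T16.mk En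
    (@En.n l5646 (nat_lit 10516) (nat_lit 6) (nat_lit 8))
    (@En.i (nat_lit 9924) (nat_lit 4) (nat_lit 14))
    (@En.i (nat_lit 5546) (nat_lit 2) (nat_lit 11))
    (@En.i (nat_lit 10744) (nat_lit 3) (nat_lit 8))
    (@En.i (nat_lit 11486) (nat_lit 4) (nat_lit 3))
    (@En.i (nat_lit 4217) (nat_lit 0) (nat_lit 9))
    (@En.i (nat_lit 11485) (nat_lit 6) (nat_lit 4))
    (@En.n l2544 (nat_lit 8815) (nat_lit 8) (nat_lit 13))
    (@En.i (nat_lit 12148) (nat_lit 3) (nat_lit 8))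
    (@En.i (nat_lit 11417) (nat_lit 9) (nat_lit 3))
    (@En.i (nat_lit 9220) (nat_lit 11) (nat_lit 12))
    (@En.i (nat_lit 11418) (nat_lit 12) (nat_lit 8))
    (@En.i (nat_lit 5440) (nat_lit 13) (nat_lit 13))
    (@En.n l17 (nat_lit 11412) (nat_lit 14) (nat_lit 5))
    (@En.i (nat_lit 10572) (nat_lit 4) (nat_lit 7))
    (@En.n l3 (nat_lit 11416) (nat_lit 15) (nat_lit 2))))
  (@Cl.mk (nat_lit 0x200070005000d000b000900030008000d0005000900030007000b000e0008) (nat_lit 0x68406403002a6) (nat_lit 16) Lb.e (@T16.mk En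
    (@En.n l10746 (nat_lit 10517) (nat_lit 6) (nat_lit 8))
    (@En.n l3513 (nat_lit 9927) (nat_lit 4) (nat_lit 14))
    (@En.i (nat_lit 5545) (nat_lit 2) (nat_lit 11))
    (@En.n l6203 (nat_lit 12032) (nat_lit 3) (nat_lit 7))
    (@En.n l6666 (nat_lit 11488) (nat_lit 4) (nat_lit 3))
    (@En.n l17867 (nat_lit 4218) (nat_lit 0) (nat_lit 9))
    (@En.n l17868 (nat_lit 11489) (nat_lit 6) (nat_lit 5))
    (@En.n l3513 (nat_lit 10751) (nat_lit 8) (nat_lit 13))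
    (@En.n l810 (nat_lit 12428) (nat_lit 3) (nat_lit 8))
    (@En.n l28 (nat_lit 11416) (nat_lit 9) (nat_lit 3))
    (@En.n l3513 (nat_lit 12311) (nat_lit 0) (nat_lit 9))
    (@En.i (nat_lit 12082) (nat_lit 12) (nat_lit 11))
    (@En.n l17869 (nat_lit 6534) (nat_lit 13) (nat_lit 13))
    (@En.n l17 (nat_lit 11413) (nat_lit 14) (nat_lit 5))
    (@En.i (nat_lit 10573) (nat_lit 4) (nat_lit 7))
    (@En.n l3 (nat_lit 11417) (nat_lit 15) (nat_lit 2))))
  (@Cl.mk (nat_lit 0x2000800050008000c00090007000d00040008000300080007000b000e0009) (nat_lit 0x601940301040327) (nat_lit 16) Lb.e (@T16.mk En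
    (@En.n l5646 (nat_lit 10518) (nat_lit 11) (nat_lit 9))
    (@En.n l19775 (nat_lit 7713) (nat_lit 4) (nat_lit 14))
    (@En.n l11 (nat_lit 11416) (nat_lit 2) (nat_lit 11))
    (@En.n l55 (nat_lit 11417) (nat_lit 3) (nat_lit 7))
    (@En.n l25820 (nat_lit 10745) (nat_lit 4) (nat_lit 8))
    (@En.n l17182 (nat_lit 11484) (nat_lit 5) (nat_lit 3))
    (@En.n l19774 (nat_lit 2121) (nat_lit 0) (nat_lit 8))
    (@En.n l25821 (nat_lit 11483) (nat_lit 7) (nat_lit 4))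
    (@En.n l2544 (nat_lit 9977) (nat_lit 9) (nat_lit 13))
    (@En.i (nat_lit 8255) (nat_lit 1) (nat_lit 7))
    (@En.n l25822 (nat_lit 12290) (nat_lit 11) (nat_lit 9))
    (@En.n l17182 (nat_lit 12705) (nat_lit 12) (nat_lit 12))
    (@En.n l19477 (nat_lit 2122) (nat_lit 13) (nat_lit 8))
    (@En.n l17 (nat_lit 11415) (nat_lit 14) (nat_lit 5))
    (@En.i (nat_lit 10575) (nat_lit 0) (nat_lit 8))
    (@En.n l3 (nat_lit 11418) (nat_lit 15) (nat_lit 2))))
  (@Cl.mk (nat_lit 0x20005000d0008000b00030007000d000b000500030008000b0005000e0009) (nat_lit 0x96200a20043094) (nat_lit 16) Lb.e (@T16.mk En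
    (@En.i (nat_lit 11476) (nat_lit 5) (nat_lit 9))
    (@En.i (nat_lit 11486) (nat_lit 1) (nat_lit 14))
    (@En.i (nat_lit 10345) (nat_lit 2) (nat_lit 5))
    (@En.i (nat_lit 5541) (nat_lit 3) (nat_lit 11))
    (@En.n l612 (nat_lit 11482) (nat_lit 4) (nat_lit 8))
    (@En.n l50 (nat_lit 11412) (nat_lit 5) (nat_lit 3))
    (@En.i (nat_lit 5059) (nat_lit 6) (nat_lit 5))
    (@En.n l217 (nat_lit 11491) (nat_lit 8) (nat_lit 11))
    (@En.n l2544 (nat_lit 8910) (nat_lit 9) (nat_lit 13))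
    (@En.i (nat_lit 7617) (nat_lit 10) (nat_lit 7))
    (@En.i (nat_lit 11487) (nat_lit 10) (nat_lit 3))
    (@En.i (nat_lit 9216) (nat_lit 12) (nat_lit 11))
    (@En.n l430 (nat_lit 11480) (nat_lit 13) (nat_lit 8))
    (@En.n l6670 (nat_lit 10957) (nat_lit 14) (nat_lit 13))
    (@En.i (nat_lit 10758) (nat_lit 13) (nat_lit 5))
    (@En.n l3 (nat_lit 11419) (nat_lit 15) (nat_lit 2))))
  (@Cl.mk (nat_lit 0x3000800070007000d0007000c000300090008000400090009000d00090007) (nat_lit 0x600901021024860) (nat_lit 16) Lb.e (@T16.mk En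
    (@En.n l42291 (nat_lit 8058) (nat_lit 0) (nat_lit 7))
    (@En.n l30164 (nat_lit 10279) (nat_lit 9) (nat_lit 9))
    (@En.n l42292 (nat_lit 11468) (nat_lit 10) (nat_lit 13))
    (@En.n l42293 (nat_lit 11421) (nat_lit 7) (nat_lit 9))
    (@En.n l42294 (nat_lit 9997) (nat_lit 4) (nat_lit 9))
    (@En.n l19536 (nat_lit 10704) (nat_lit 5) (nat_lit 4))
    (@En.n l42295 (nat_lit 77) (nat_lit 6) (nat_lit 8))
    (@En.n l1992 (nat_lit 11242) (nat_lit 1) (nat_lit 9))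
    (@En.n l36213 (nat_lit 10956) (nat_lit 8) (nat_lit 3))
    (@En.n l1865 (nat_lit 5590) (nat_lit 0) (nat_lit 12))
    (@En.n l42296 (nat_lit 11429) (nat_lit 4) (nat_lit 7))
    (@En.n l42295 (nat_lit 10069) (nat_lit 12) (nat_lit 13))
    (@En.n l42297 (nat_lit 11586) (nat_lit 9) (nat_lit 7))
    (@En.i (nat_lit 10899) (nat_lit 14) (nat_lit 7))
    (@En.n l34096 (nat_lit 11328) (nat_lit 5) (nat_lit 8))
    (@En.n l107 (nat_lit 10955) (nat_lit 15) (nat_lit 3))))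
  (@Cl.mk (nat_lit 0x2000d0008000c0003000a000900040009000d0008000600030007000e0007) (nat_lit 0x956021038500070) (nat_lit 16) Lb.e (@T16.mk En
    (@En.n l39556 (nat_lit 11420) (nat_lit 13) (nat_lit 7))
    (@En.n l42440 (nat_lit 6675) (nat_lit 1) (nat_lit 14))
    (@En.n l39273 (nat_lit 7945) (nat_lit 2) (nat_lit 7))
    (@En.i (nat_lit 11423) (nat_lit 3) (nat_lit 3))
    (@En.n l39274 (nat_lit 8051) (nat_lit 0) (nat_lit 6))
    (@En.n l11010 (nat_lit 11383) (nat_lit 5) (nat_lit 8))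
    (@En.i (nat_lit 7430) (nat_lit 7) (nat_lit 13))
    (@En.n l39276 (nat_lit 9402) (nat_lit 3) (nat_lit 9))
    (@En.n l8016 (nat_lit 11435) (nat_lit 8) (nat_lit 4))
    (@En.i (nat_lit 4711) (nat_lit 10) (nat_lit 9))
    (@En.n l9862 (nat_lit 11240) (nat_lit 11) (nat_lit 10))
    (@En.n l39279 (nat_lit 11422) (nat_lit 11) (nat_lit 3))
    (@En.n l2038 (nat_lit 12805) (nat_lit 0) (nat_lit 12))
    (@En.n l11008 (nat_lit 11426) (nat_lit 14) (nat_lit 8))
    (@En.i (nat_lit 6224) (nat_lit 2) (nat_lit 13))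
    (@En.n l17 (nat_lit 11421) (nat_lit 15) (nat_lit 2))))
  (@Cl.mk (nat_lit 0x2000d000b00090003000a000900050009000d0007000600030007000e0007) (nat_lit 0xa51051048000040) (nat_lit 16) Lb.e (@T16.mk En
    (@En.i (nat_lit 10956) (nat_lit 13) (nat_lit 7))
    (@En.n l180 (nat_lit 6676) (nat_lit 1) (nat_lit 14))
    (@En.n l20187 (nat_lit 9931) (nat_lit 2) (nat_lit 7))
    (@En.n l25348 (nat_lit 11424) (nat_lit 3) (nat_lit 3))
    (@En.n l18 (nat_lit 8048) (nat_lit 0) (nat_lit 6))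
    (@En.n l6081 (nat_lit 11448) (nat_lit 5) (nat_lit 7))
    (@En.n l3 (nat_lit 7431) (nat_lit 7) (nat_lit 13))
    (@En.i (nat_lit 9755) (nat_lit 3) (nat_lit 9))
    (@En.n l3 (nat_lit 11438) (nat_lit 8) (nat_lit 5))
    (@En.n l23504 (nat_lit 4713) (nat_lit 10) (nat_lit 9))
    (@En.i (nat_lit 11428) (nat_lit 11) (nat_lit 10))
    (@En.n l30913 (nat_lit 11421) (nat_lit 11) (nat_lit 3))
    (@En.n l23504 (nat_lit 6458) (nat_lit 0) (nat_lit 9))
    (@En.i (nat_lit 10910) (nat_lit 14) (nat_lit 11))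
    (@En.i (nat_lit 10380) (nat_lit 2) (nat_lit 13))
    (@En.n l11 (nat_lit 11422) (nat_lit 15) (nat_lit 2))))
  (@Cl.mk (nat_lit 0x2000d0007000c0003000b000900040009000d0005000900030007000e0007) (nat_lit 0x906061018060020) (nat_lit 16) Lb.e (@T16.mk En
    (@En.n l9897 (nat_lit 10955) (nat_lit 13) (nat_lit 7))
    (@En.n l38096 (nat_lit 6678) (nat_lit 1) (nat_lit 14))
    (@En.n l20297 (nat_lit 11454) (nat_lit 2) (nat_lit 7))
    (@En.n l7 (nat_lit 11421) (nat_lit 3) (nat_lit 3))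
    (@En.i (nat_lit 9114) (nat_lit 0) (nat_lit 9))
    (@En.n l22266 (nat_lit 11427) (nat_lit 5) (nat_lit 5))
    (@En.i (nat_lit 4208) (nat_lit 7) (nat_lit 13))
    (@En.n l9903 (nat_lit 9762) (nat_lit 3) (nat_lit 9))
    (@En.n l4147 (nat_lit 11434) (nat_lit 8) (nat_lit 4))
    (@En.i (nat_lit 4705) (nat_lit 10) (nat_lit 9))
    (@En.i (nat_lit 9930) (nat_lit 11) (nat_lit 11))
    (@En.n l22938 (nat_lit 11424) (nat_lit 11) (nat_lit 3))
    (@En.n l619 (nat_lit 12806) (nat_lit 0) (nat_lit 12))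
    (@En.i (nat_lit 11425) (nat_lit 14) (nat_lit 7))
    (@En.n l37368 (nat_lit 6219) (nat_lit 2) (nat_lit 13))
    (@En.n l17 (nat_lit 11423) (nat_lit 15) (nat_lit 2))))
noncomputable def a714 : T16 Cl := @T16.mk Cl
  (@Cl.mk (nat_lit 0x2000d000b00080003000b000900050009000d0005000800030007000e0007) (nat_lit 0x952061018030020) (nat_lit 16) Lb.e (@T16.mk En
    (@En.n l23621 (nat_lit 10953) (nat_lit 13) (nat_lit 7))
    (@En.n l5579 (nat_lit 5393) (nat_lit 1) (nat_lit 14))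
    (@En.n l21635 (nat_lit 11450) (nat_lit 2) (nat_lit 7))
    (@En.n l3866 (nat_lit 11422) (nat_lit 3) (nat_lit 3))
    (@En.n l13511 (nat_lit 9121) (nat_lit 0) (nat_lit 8))
    (@En.n l152 (nat_lit 10873) (nat_lit 5) (nat_lit 5))
    (@En.n l36059 (nat_lit 4206) (nat_lit 7) (nat_lit 13))
    (@En.i (nat_lit 9760) (nat_lit 3) (nat_lit 9))
    (@En.n l36059 (nat_lit 11437) (nat_lit 8) (nat_lit 5))
    (@En.n l5859 (nat_lit 4707) (nat_lit 10) (nat_lit 9))
    (@En.n l8582 (nat_lit 11425) (nat_lit 11) (nat_lit 11))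
    (@En.n l9976 (nat_lit 11423) (nat_lit 11) (nat_lit 3))
    (@En.n l14044 (nat_lit 6453) (nat_lit 0) (nat_lit 8))
    (@En.n l36060 (nat_lit 10905) (nat_lit 14) (nat_lit 11))
    (@En.n l5579 (nat_lit 10383) (nat_lit 2) (nat_lit 13))
    (@En.n l7 (nat_lit 11424) (nat_lit 15) (nat_lit 2))))
  (@Cl.mk (nat_lit 0x20007000c0008000b000800040008000c00050009000800040008000e0008) (nat_lit 0x82560170240515) (nat_lit 16) Lb.e (@T16.mk En
    (@En.n l20296 (nat_lit 10954) (nat_lit 6) (nat_lit 8))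
    (@En.n l551 (nat_lit 5392) (nat_lit 1) (nat_lit 14))
    (@En.n l20297 (nat_lit 11451) (nat_lit 2) (nat_lit 8))
    (@En.n l20298 (nat_lit 11428) (nat_lit 3) (nat_lit 4))
    (@En.n l9903 (nat_lit 11424) (nat_lit 4) (nat_lit 8))
    (@En.n l20299 (nat_lit 11234) (nat_lit 5) (nat_lit 9))
    (@En.n l20300 (nat_lit 10872) (nat_lit 6) (nat_lit 5))
    (@En.i (nat_lit 4207) (nat_lit 8) (nat_lit 12))
    (@En.n l20301 (nat_lit 9765) (nat_lit 9) (nat_lit 8))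
    (@En.n l20302 (nat_lit 11439) (nat_lit 9) (nat_lit 4))
    (@En.n l20303 (nat_lit 10351) (nat_lit 11) (nat_lit 8))
    (@En.n l5014 (nat_lit 11334) (nat_lit 7) (nat_lit 11))
    (@En.n l20304 (nat_lit 5031) (nat_lit 13) (nat_lit 8))
    (@En.n l20305 (nat_lit 10903) (nat_lit 14) (nat_lit 12))
    (@En.n l20306 (nat_lit 10678) (nat_lit 4) (nat_lit 7))
    (@En.n l17 (nat_lit 11425) (nat_lit 15) (nat_lit 2))))
  (@Cl.mk (nat_lit 0x20008000c00090009000800040008000c00080007000700040008000e0008) (nat_lit 0x443540166000696) (nat_lit 16) Lb.e (@T16.mk En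
    (@En.i (nat_lit 11429) (nat_lit 6) (nat_lit 8))
    (@En.n l2711 (nat_lit 6674) (nat_lit 1) (nat_lit 14))
    (@En.n l19073 (nat_lit 7488) (nat_lit 2) (nat_lit 8))
    (@En.n l17017 (nat_lit 11425) (nat_lit 3) (nat_lit 4))
    (@En.n l11 (nat_lit 11430) (nat_lit 4) (nat_lit 7))
    (@En.n l14256 (nat_lit 11422) (nat_lit 5) (nat_lit 7))
    (@En.n l17 (nat_lit 7706) (nat_lit 6) (nat_lit 8))
    (@En.i (nat_lit 7372) (nat_lit 8) (nat_lit 12))
    (@En.n l14256 (nat_lit 9965) (nat_lit 9) (nat_lit 8))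
    (@En.n l936 (nat_lit 11433) (nat_lit 9) (nat_lit 4))
    (@En.n l55 (nat_lit 11013) (nat_lit 11) (nat_lit 8))
    (@En.n l619 (nat_lit 11431) (nat_lit 7) (nat_lit 9))
    (@En.n l10040 (nat_lit 11192) (nat_lit 13) (nat_lit 9))
    (@En.n l8766 (nat_lit 10914) (nat_lit 14) (nat_lit 12))
    (@En.i (nat_lit 11260) (nat_lit 4) (nat_lit 8))
    (@En.n l50 (nat_lit 11426) (nat_lit 15) (nat_lit 2))))
  (@Cl.mk (nat_lit 0x2000d0007000b0003000b000a000a0005000a0005000900060006000e0006) (nat_lit 0xa05073207030080) (nat_lit 16) Lb.e (@T16.mk En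
    (@En.i (nat_lit 8184) (nat_lit 4) (nat_lit 6))
    (@En.n l134 (nat_lit 8210) (nat_lit 1) (nat_lit 14))
    (@En.n l11 (nat_lit 11505) (nat_lit 10) (nat_lit 6))
    (@En.n l2943 (nat_lit 10881) (nat_lit 3) (nat_lit 6))
    (@En.i (nat_lit 8979) (nat_lit 4) (nat_lit 9))
    (@En.n l4189 (nat_lit 4703) (nat_lit 5) (nat_lit 5))
    (@En.i (nat_lit 8503) (nat_lit 11) (nat_lit 10))
    (@En.n l33381 (nat_lit 11436) (nat_lit 7) (nat_lit 5))
    (@En.n l11363 (nat_lit 12815) (nat_lit 9) (nat_lit 10))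
    (@En.n l33382 (nat_lit 11421) (nat_lit 10) (nat_lit 10))
    (@En.n l2943 (nat_lit 9935) (nat_lit 11) (nat_lit 11))
    (@En.n l18 (nat_lit 10873) (nat_lit 11) (nat_lit 3))
    (@En.n l33383 (nat_lit 12389) (nat_lit 0) (nat_lit 11))
    (@En.n l61 (nat_lit 10872) (nat_lit 14) (nat_lit 7))
    (@En.i (nat_lit 9627) (nat_lit 2) (nat_lit 13))
    (@En.n l7 (nat_lit 11427) (nat_lit 15) (nat_lit 2))))
  (@Cl.mk (nat_lit 0x20006000c000a000a000800040008000c00060006000a00040008000e0008) (nat_lit 0x77440170030695) (nat_lit 16) Lb.e (@T16.mk En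
    (@En.i (nat_lit 11405) (nat_lit 6) (nat_lit 8))
    (@En.n l180 (nat_lit 6618) (nat_lit 1) (nat_lit 14))
    (@En.n l23500 (nat_lit 12121) (nat_lit 2) (nat_lit 8))
    (@En.n l23258 (nat_lit 11426) (nat_lit 3) (nat_lit 4))
    (@En.n l23501 (nat_lit 11236) (nat_lit 4) (nat_lit 10))
    (@En.n l18 (nat_lit 11432) (nat_lit 5) (nat_lit 6))
    (@En.n l6081 (nat_lit 11449) (nat_lit 6) (nat_lit 6))
    (@En.n l23502 (nat_lit 7272) (nat_lit 8) (nat_lit 12))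
    (@En.i (nat_lit 8807) (nat_lit 9) (nat_lit 8))
    (@En.n l23503 (nat_lit 11447) (nat_lit 9) (nat_lit 4))
    (@En.n l23504 (nat_lit 11012) (nat_lit 11) (nat_lit 8))
    (@En.n l23505 (nat_lit 12124) (nat_lit 12) (nat_lit 10))
    (@En.n l23506 (nat_lit 11495) (nat_lit 13) (nat_lit 10))
    (@En.n l23507 (nat_lit 10911) (nat_lit 14) (nat_lit 12))
    (@En.n l11723 (nat_lit 9896) (nat_lit 13) (nat_lit 6))
    (@En.n l11 (nat_lit 11428) (nat_lit 15) (nat_lit 2))))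
  (@Cl.mk (nat_lit 0x400080008000c00090008000800040009000800080007000c000800080007) (nat_lit 0x227612075504160) (nat_lit 16) Lb.e (@T16.mk En
    (@En.n l55 (nat_lit 11388) (nat_lit 0) (nat_lit 7))
    (@En.n l43550 (nat_lit 11659) (nat_lit 8) (nat_lit 8))
    (@En.n l10040 (nat_lit 9861) (nat_lit 10) (nat_lit 8))
    (@En.n l36521 (nat_lit 10913) (nat_lit 8) (nat_lit 12))
    (@En.n l43551 (nat_lit 12061) (nat_lit 9) (nat_lit 7))
    (@En.n l43552 (nat_lit 11658) (nat_lit 8) (nat_lit 8))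
    (@En.n l43553 (nat_lit 11925) (nat_lit 8) (nat_lit 8))
    (@En.n l43554 (nat_lit 7710) (nat_lit 11) (nat_lit 9))
    (@En.n l43555 (nat_lit 10954) (nat_lit 8) (nat_lit 4))
    (@En.n l11 (nat_lit 11660) (nat_lit 8) (nat_lit 8))
    (@En.n l14256 (nat_lit 10956) (nat_lit 1) (nat_lit 8))
    (@En.n l43553 (nat_lit 7735) (nat_lit 12) (nat_lit 9))
    (@En.n l11547 (nat_lit 11473) (nat_lit 7) (nat_lit 12))
    (@En.n l644 (nat_lit 11426) (nat_lit 8) (nat_lit 8))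
    (@En.n l14256 (nat_lit 10005) (nat_lit 11) (nat_lit 8))
    (@En.n l936 (nat_lit 11661) (nat_lit 15) (nat_lit 4))))
  (@Cl.mk (nat_lit 0x20007000b000e00090002000900050009000d0009000700030007000e0007) (nat_lit 0x69401014500040) (nat_lit 16) Lb.e (@T16.mk En
    (@En.i (nat_lit 11660) (nat_lit 5) (nat_lit 7))
    (@En.n l264 (nat_lit 6620) (nat_lit 7) (nat_lit 14))
    (@En.n l11469 (nat_lit 7700) (nat_lit 2) (nat_lit 7))
    (@En.n l11470 (nat_lit 11432) (nat_lit 3) (nat_lit 3))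
    (@En.n l6784 (nat_lit 8049) (nat_lit 0) (nat_lit 7))
    (@En.n l17 (nat_lit 7173) (nat_lit 5) (nat_lit 9))
    (@En.i (nat_lit 7390) (nat_lit 7) (nat_lit 13))
    (@En.n l6784 (nat_lit 8261) (nat_lit 13) (nat_lit 9))
    (@En.n l9715 (nat_lit 11665) (nat_lit 14) (nat_lit 5))
    (@En.n l8015 (nat_lit 11002) (nat_lit 10) (nat_lit 9))
    (@En.n l67 (nat_lit 11430) (nat_lit 10) (nat_lit 2))
    (@En.n l68 (nat_lit 11426) (nat_lit 12) (nat_lit 9))
    (@En.n l9190 (nat_lit 1697) (nat_lit 13) (nat_lit 14))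
    (@En.n l3126 (nat_lit 11689) (nat_lit 2) (nat_lit 11))
    (@En.n l25166 (nat_lit 11258) (nat_lit 3) (nat_lit 7))
    (@En.n l50 (nat_lit 11430) (nat_lit 15) (nat_lit 2))))
  (@Cl.mk (nat_lit 0x200050009000e000900020009000d0009000700030007000b0007000e0007) (nat_lit 0x31404840006040) (nat_lit 16) Lb.e (@T16.mk En
    (@En.n l117 (nat_lit 11426) (nat_lit 5) (nat_lit 7))
    (@En.n l2370 (nat_lit 12124) (nat_lit 7) (nat_lit 14))
    (@En.n l17 (nat_lit 7704) (nat_lit 7) (nat_lit 7))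
    (@En.n l12686 (nat_lit 4811) (nat_lit 3) (nat_lit 11))
    (@En.n l23498 (nat_lit 9973) (nat_lit 4) (nat_lit 7))
    (@En.n l936 (nat_lit 12122) (nat_lit 5) (nat_lit 3))
    (@En.i (nat_lit 12376) (nat_lit 6) (nat_lit 7))
    (@En.n l7290 (nat_lit 11499) (nat_lit 13) (nat_lit 9))
    (@En.n l3798 (nat_lit 12097) (nat_lit 9) (nat_lit 13))
    (@En.n l9213 (nat_lit 11263) (nat_lit 10) (nat_lit 9))
    (@En.n l50 (nat_lit 11431) (nat_lit 10) (nat_lit 2))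
    (@En.n l23499 (nat_lit 11659) (nat_lit 12) (nat_lit 9))
    (@En.n l17849 (nat_lit 1922) (nat_lit 13) (nat_lit 14))
    (@En.n l9212 (nat_lit 7491) (nat_lit 2) (nat_lit 9))
    (@En.n l614 (nat_lit 11333) (nat_lit 13) (nat_lit 5))
    (@En.n l11 (nat_lit 11431) (nat_lit 15) (nat_lit 2))))
  (@Cl.mk (nat_lit 0x20006000b000e000a0002000900050009000d0006000a00030007000e0007) (nat_lit 0x47801025020010) (nat_lit 16) Lb.e (@T16.mk En
    (@En.i (nat_lit 11668) (nat_lit 5) (nat_lit 7))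
    (@En.n l180 (nat_lit 5119) (nat_lit 7) (nat_lit 14))
    (@En.n l3106 (nat_lit 12122) (nat_lit 2) (nat_lit 7))
    (@En.n l23258 (nat_lit 11430) (nat_lit 3) (nat_lit 3))
    (@En.i (nat_lit 3029) (nat_lit 4) (nat_lit 10))
    (@En.n l3098 (nat_lit 10864) (nat_lit 5) (nat_lit 6))
    (@En.n l3 (nat_lit 7273) (nat_lit 7) (nat_lit 13))
    (@En.i (nat_lit 8862) (nat_lit 13) (nat_lit 9))
    (@En.n l3 (nat_lit 11670) (nat_lit 14) (nat_lit 5))
    (@En.i (nat_lit 11003) (nat_lit 10) (nat_lit 9))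
    (@En.n l50 (nat_lit 11432) (nat_lit 10) (nat_lit 2))
    (@En.n l396 (nat_lit 11428) (nat_lit 12) (nat_lit 10))
    (@En.n l5033 (nat_lit 1689) (nat_lit 13) (nat_lit 14))
    (@En.n l6105 (nat_lit 11688) (nat_lit 2) (nat_lit 11))
    (@En.n l2571 (nat_lit 9529) (nat_lit 3) (nat_lit 6))
    (@En.n l11 (nat_lit 11432) (nat_lit 15) (nat_lit 2))))
  (@Cl.mk (nat_lit 0x20008000c0006000a000a00040008000c0008000600060004000a000e0008) (nat_lit 0x4405602650007b6) (nat_lit 16) Lb.e (@T16.mk En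
    (@En.i (nat_lit 11661) (nat_lit 6) (nat_lit 8))
    (@En.n l4814 (nat_lit 6808) (nat_lit 1) (nat_lit 14))
    (@En.n l19309 (nat_lit 11001) (nat_lit 2) (nat_lit 10))
    (@En.n l17017 (nat_lit 11439) (nat_lit 3) (nat_lit 4))
    (@En.n l10617 (nat_lit 11665) (nat_lit 10) (nat_lit 6))
    (@En.n l8776 (nat_lit 11438) (nat_lit 5) (nat_lit 6))
    (@En.n l17 (nat_lit 7707) (nat_lit 6) (nat_lit 8))
    (@En.n l4817 (nat_lit 7373) (nat_lit 8) (nat_lit 12))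
    (@En.n l8776 (nat_lit 12131) (nat_lit 11) (nat_lit 8))
    (@En.n l1992 (nat_lit 11590) (nat_lit 9) (nat_lit 4))
    (@En.n l619 (nat_lit 12122) (nat_lit 6) (nat_lit 10))
    (@En.i (nat_lit 11591) (nat_lit 12) (nat_lit 10))
    (@En.n l11433 (nat_lit 6543) (nat_lit 13) (nat_lit 6))
    (@En.n l1110 (nat_lit 11671) (nat_lit 14) (nat_lit 12))
    (@En.i (nat_lit 11254) (nat_lit 4) (nat_lit 8))
    (@En.n l50 (nat_lit 11433) (nat_lit 15) (nat_lit 2))))
  (@Cl.mk (nat_lit 0x2000c0007000c00070004000c00040009000d0004000900030009000e0007) (nat_lit 0x4060020250205b0) (nat_lit 16) Lb.e (@T16.mk En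
    (@En.i (nat_lit 10702) (nat_lit 13) (nat_lit 7))
    (@En.n l3 (nat_lit 6744) (nat_lit 1) (nat_lit 14))
    (@En.n l21345 (nat_lit 11392) (nat_lit 2) (nat_lit 9))
    (@En.i (nat_lit 11435) (nat_lit 3) (nat_lit 3))
    (@En.n l3549 (nat_lit 8279) (nat_lit 0) (nat_lit 9))
    (@En.n l21345 (nat_lit 11436) (nat_lit 5) (nat_lit 4))
    (@En.i (nat_lit 4586) (nat_lit 7) (nat_lit 13))
    (@En.n l2571 (nat_lit 10430) (nat_lit 1) (nat_lit 9))
    (@En.i (nat_lit 10905) (nat_lit 8) (nat_lit 4))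
    (@En.n l41556 (nat_lit 9929) (nat_lit 10) (nat_lit 12))
    (@En.i (nat_lit 10983) (nat_lit 10) (nat_lit 4))
    (@En.n l39656 (nat_lit 6537) (nat_lit 12) (nat_lit 7))
    (@En.n l24928 (nat_lit 11027) (nat_lit 13) (nat_lit 12))
    (@En.n l253 (nat_lit 11439) (nat_lit 14) (nat_lit 7))
    (@En.n l3851 (nat_lit 10477) (nat_lit 11) (nat_lit 12))
    (@En.n l17 (nat_lit 11434) (nat_lit 15) (nat_lit 2))))
  (@Cl.mk (nat_lit 0x2000c0008000c00070004000b00040009000d0008000500030009000e0007) (nat_lit 0x456003025400520) (nat_lit 16) Lb.e (@T16.mk En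
    (@En.i (nat_lit 10704) (nat_lit 13) (nat_lit 7))
    (@En.n l34137 (nat_lit 6746) (nat_lit 1) (nat_lit 14))
    (@En.n l34138 (nat_lit 9780) (nat_lit 2) (nat_lit 9))
    (@En.n l7 (nat_lit 11434) (nat_lit 3) (nat_lit 3))
    (@En.n l19815 (nat_lit 10999) (nat_lit 0) (nat_lit 5))
    (@En.n l644 (nat_lit 11051) (nat_lit 5) (nat_lit 8))
    (@En.i (nat_lit 3660) (nat_lit 7) (nat_lit 13))
    (@En.n l19816 (nat_lit 10429) (nat_lit 3) (nat_lit 9))
    (@En.n l34139 (nat_lit 10910) (nat_lit 8) (nat_lit 4))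
    (@En.n l4851 (nat_lit 11246) (nat_lit 10) (nat_lit 11))
    (@En.i (nat_lit 12205) (nat_lit 10) (nat_lit 4))
    (@En.n l30747 (nat_lit 6536) (nat_lit 12) (nat_lit 7))
    (@En.n l19819 (nat_lit 11915) (nat_lit 13) (nat_lit 12))
    (@En.n l4589 (nat_lit 11433) (nat_lit 14) (nat_lit 8))
    (@En.n l34140 (nat_lit 10479) (nat_lit 11) (nat_lit 12))
    (@En.n l17 (nat_lit 11435) (nat_lit 15) (nat_lit 2))))
  (@Cl.mk (nat_lit 0x2000c0007000b00070004000c000b0005000a0004000900050009000e0006) (nat_lit 0x9070064070204b0) (nat_lit 16) Lb.e (@T16.mk En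
    (@En.n l3098 (nat_lit 10858) (nat_lit 5) (nat_lit 6))
    (@En.n l37035 (nat_lit 8203) (nat_lit 1) (nat_lit 14))
    (@En.i (nat_lit 9778) (nat_lit 2) (nat_lit 9))
    (@En.n l32433 (nat_lit 10995) (nat_lit 3) (nat_lit 5))
    (@En.n l37036 (nat_lit 11044) (nat_lit 4) (nat_lit 9))
    (@En.n l34486 (nat_lit 10903) (nat_lit 5) (nat_lit 4))
    (@En.n l37037 (nat_lit 10433) (nat_lit 0) (nat_lit 10))
    (@En.n l37038 (nat_lit 11512) (nat_lit 7) (nat_lit 5))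
    (@En.n l37039 (nat_lit 11435) (nat_lit 9) (nat_lit 11))
    (@En.n l37040 (nat_lit 9635) (nat_lit 10) (nat_lit 12))
    (@En.n l34486 (nat_lit 12813) (nat_lit 10) (nat_lit 4))
    (@En.n l37041 (nat_lit 6546) (nat_lit 12) (nat_lit 7))
    (@En.n l37042 (nat_lit 12666) (nat_lit 13) (nat_lit 11))
    (@En.n l55 (nat_lit 10869) (nat_lit 14) (nat_lit 7))
    (@En.n l37043 (nat_lit 10481) (nat_lit 3) (nat_lit 12))
    (@En.n l17 (nat_lit 11436) (nat_lit 15) (nat_lit 2))))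
  (@Cl.mk (nat_lit 0x2000c000b000600090004000c00050009000d000400070003000a000e0007) (nat_lit 0x1603080180006c0) (nat_lit 16) Lb.e (@T16.mk En
    (@En.i (nat_lit 11441) (nat_lit 13) (nat_lit 7))
    (@En.i (nat_lit 6732) (nat_lit 1) (nat_lit 14))
    (@En.i (nat_lit 11440) (nat_lit 2) (nat_lit 10))
    (@En.n l2817 (nat_lit 11438) (nat_lit 3) (nat_lit 3))
    (@En.n l1897 (nat_lit 5191) (nat_lit 11) (nat_lit 7))
    (@En.n l2129 (nat_lit 10871) (nat_lit 5) (nat_lit 4))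
    (@En.i (nat_lit 6988) (nat_lit 7) (nat_lit 13))
    (@En.n l1897 (nat_lit 7618) (nat_lit 1) (nat_lit 9))
    (@En.i (nat_lit 4546) (nat_lit 8) (nat_lit 5))
    (@En.n l9591 (nat_lit 11439) (nat_lit 10) (nat_lit 12))
    (@En.n l152 (nat_lit 11434) (nat_lit 10) (nat_lit 4))
    (@En.n l1897 (nat_lit 3417) (nat_lit 12) (nat_lit 9))
    (@En.n l5588 (nat_lit 6539) (nat_lit 13) (nat_lit 6))
    (@En.n l619 (nat_lit 10978) (nat_lit 14) (nat_lit 11))
    (@En.i (nat_lit 4313) (nat_lit 11) (nat_lit 12))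
    (@En.n l17 (nat_lit 11437) (nat_lit 15) (nat_lit 2))))
  (@Cl.mk (nat_lit 0x2000c000b0006000a0004000b00050009000d000600050003000a000e0007) (nat_lit 0x170107014000620) (nat_lit 16) Lb.e (@T16.mk En
    (@En.i (nat_lit 11442) (nat_lit 13) (nat_lit 7))
    (@En.n l2038 (nat_lit 6733) (nat_lit 1) (nat_lit 14))
    (@En.i (nat_lit 10994) (nat_lit 2) (nat_lit 10))
    (@En.n l16981 (nat_lit 11437) (nat_lit 3) (nat_lit 3))
    (@En.n l18 (nat_lit 8047) (nat_lit 0) (nat_lit 5))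
    (@En.n l39724 (nat_lit 11440) (nat_lit 5) (nat_lit 6))
    (@En.n l8240 (nat_lit 7378) (nat_lit 7) (nat_lit 13))
    (@En.i (nat_lit 7615) (nat_lit 10) (nat_lit 9))
    (@En.n l39725 (nat_lit 3408) (nat_lit 8) (nat_lit 5))
    (@En.n l11434 (nat_lit 11447) (nat_lit 10) (nat_lit 11))
    (@En.n l39726 (nat_lit 11435) (nat_lit 10) (nat_lit 4))
    (@En.n l5801 (nat_lit 4709) (nat_lit 12) (nat_lit 10))
    (@En.n l152 (nat_lit 6538) (nat_lit 13) (nat_lit 6))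
    (@En.n l39727 (nat_lit 12204) (nat_lit 14) (nat_lit 11))
    (@En.i (nat_lit 4315) (nat_lit 11) (nat_lit 12))
    (@En.n l11 (nat_lit 11438) (nat_lit 15) (nat_lit 2))))
  (@Cl.mk (nat_lit 0x20007000c00060009000c00040008000c0004000900070004000a000e0008) (nat_lit 0x902704702007c6) (nat_lit 16) Lb.e (@T16.mk En
    (@En.n l31161 (nat_lit 11444) (nat_lit 6) (nat_lit 8))
    (@En.n l21433 (nat_lit 6725) (nat_lit 1) (nat_lit 14))
    (@En.n l31827 (nat_lit 11445) (nat_lit 2) (nat_lit 10))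
    (@En.n l9882 (nat_lit 11447) (nat_lit 3) (nat_lit 4))
    (@En.n l21433 (nat_lit 11437) (nat_lit 4) (nat_lit 7))
    (@En.n l1769 (nat_lit 11226) (nat_lit 5) (nat_lit 9))
    (@En.n l31828 (nat_lit 10869) (nat_lit 6) (nat_lit 4))
    (@En.i (nat_lit 6989) (nat_lit 8) (nat_lit 12))
    (@En.n l1867 (nat_lit 12148) (nat_lit 11) (nat_lit 8))
    (@En.n l9938 (nat_lit 4544) (nat_lit 9) (nat_lit 4))
    (@En.n l2498 (nat_lit 11330) (nat_lit 6) (nat_lit 12))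
    (@En.i (nat_lit 3418) (nat_lit 12) (nat_lit 9))
    (@En.n l13798 (nat_lit 6541) (nat_lit 13) (nat_lit 6))
    (@En.n l24510 (nat_lit 11604) (nat_lit 14) (nat_lit 12))
    (@En.n l17666 (nat_lit 9786) (nat_lit 4) (nat_lit 7))
    (@En.n l17 (nat_lit 11439) (nat_lit 15) (nat_lit 2))))
noncomputable def a715 : T16 Cl := @T16.mk Cl
  (@Cl.mk (nat_lit 0x2000b000a0006000a00090005000c0006000a000600040007000a000e0006) (nat_lit 0x150440601000530) (nat_lit 16) Lb.e (@T16.mk En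
    (@En.i (nat_lit 11443) (nat_lit 12) (nat_lit 6))
    (@En.n l50 (nat_lit 9659) (nat_lit 1) (nat_lit 14))
    (@En.n l23473 (nat_lit 7999) (nat_lit 8) (nat_lit 10))
    (@En.n l36048 (nat_lit 5192) (nat_lit 11) (nat_lit 7))
    (@En.n l23473 (nat_lit 10870) (nat_lit 4) (nat_lit 4))
    (@En.n l5 (nat_lit 11499) (nat_lit 5) (nat_lit 6))
    (@En.n l1897 (nat_lit 7624) (nat_lit 1) (nat_lit 10))
    (@En.n l28287 (nat_lit 4533) (nat_lit 7) (nat_lit 6))
    (@En.n l36049 (nat_lit 11445) (nat_lit 9) (nat_lit 12))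
    (@En.n l36050 (nat_lit 11392) (nat_lit 9) (nat_lit 5))
    (@En.n l50 (nat_lit 11437) (nat_lit 11) (nat_lit 9))
    (@En.n l36051 (nat_lit 10348) (nat_lit 12) (nat_lit 10))
    (@En.n l36052 (nat_lit 6540) (nat_lit 13) (nat_lit 6))
    (@En.n l36053 (nat_lit 10977) (nat_lit 14) (nat_lit 10))
    (@En.i (nat_lit 4314) (nat_lit 10) (nat_lit 11))
    (@En.n l17 (nat_lit 11440) (nat_lit 15) (nat_lit 2))))
  (@Cl.mk (nat_lit 0x3000b00070007000c000b000500080004000b000500090009000d00050008) (nat_lit 0x500a50309022904) (nat_lit 16) Lb.e (@T16.mk En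
    (@En.n l1072 (nat_lit 5193) (nat_lit 10) (nat_lit 8))
    (@En.n l2129 (nat_lit 7555) (nat_lit 9) (nat_lit 5))
    (@En.n l9943 (nat_lit 10576) (nat_lit 6) (nat_lit 13))
    (@En.n l61 (nat_lit 11437) (nat_lit 7) (nat_lit 9))
    (@En.n l1897 (nat_lit 10667) (nat_lit 10) (nat_lit 9))
    (@En.n l28286 (nat_lit 4526) (nat_lit 5) (nat_lit 5))
    (@En.n l5551 (nat_lit 11444) (nat_lit 0) (nat_lit 11))
    (@En.n l152 (nat_lit 10702) (nat_lit 7) (nat_lit 4))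
    (@En.n l1897 (nat_lit 4518) (nat_lit 10) (nat_lit 8))
    (@En.n l5588 (nat_lit 57) (nat_lit 1) (nat_lit 5))
    (@En.n l619 (nat_lit 12210) (nat_lit 5) (nat_lit 11))
    (@En.n l12291 (nat_lit 10958) (nat_lit 12) (nat_lit 12))
    (@En.n l13808 (nat_lit 11618) (nat_lit 9) (nat_lit 7))
    (@En.i (nat_lit 10407) (nat_lit 14) (nat_lit 7))
    (@En.i (nat_lit 11443) (nat_lit 13) (nat_lit 11))
    (@En.n l2817 (nat_lit 11442) (nat_lit 15) (nat_lit 3))))
  (@Cl.mk (nat_lit 0x3000b00070007000c000b000500090004000a000500090009000d00070006) (nat_lit 0x700570108022900) (nat_lit 16) Lb.e (@T16.mk En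
    (@En.n l18 (nat_lit 8055) (nat_lit 0) (nat_lit 6))
    (@En.n l39724 (nat_lit 11443) (nat_lit 0) (nat_lit 7))
    (@En.n l42348 (nat_lit 10579) (nat_lit 6) (nat_lit 13))
    (@En.n l575 (nat_lit 11438) (nat_lit 7) (nat_lit 9))
    (@En.i (nat_lit 10666) (nat_lit 10) (nat_lit 9))
    (@En.n l42349 (nat_lit 4524) (nat_lit 5) (nat_lit 5))
    (@En.n l30281 (nat_lit 11404) (nat_lit 0) (nat_lit 10))
    (@En.n l39726 (nat_lit 10704) (nat_lit 7) (nat_lit 4))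
    (@En.n l5801 (nat_lit 4525) (nat_lit 10) (nat_lit 9))
    (@En.n l152 (nat_lit 6449) (nat_lit 1) (nat_lit 5))
    (@En.n l42350 (nat_lit 12208) (nat_lit 5) (nat_lit 11))
    (@En.n l9970 (nat_lit 10959) (nat_lit 12) (nat_lit 12))
    (@En.n l42351 (nat_lit 11619) (nat_lit 9) (nat_lit 7))
    (@En.n l42352 (nat_lit 12024) (nat_lit 14) (nat_lit 7))
    (@En.n l37390 (nat_lit 8010) (nat_lit 4) (nat_lit 11))
    (@En.n l16981 (nat_lit 11441) (nat_lit 15) (nat_lit 3))))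
  (@Cl.mk (nat_lit 0x50008000b00060006000b000a0005000900080005000b0006000a000a0007) (nat_lit 0x240036034060220) (nat_lit 16) Lb.e (@T16.mk En
    (@En.n l42241 (nat_lit 11084) (nat_lit 0) (nat_lit 7))
    (@En.n l61 (nat_lit 11440) (nat_lit 6) (nat_lit 10))
    (@En.n l1897 (nat_lit 10668) (nat_lit 9) (nat_lit 10))
    (@En.n l42242 (nat_lit 4528) (nat_lit 14) (nat_lit 6))
    (@En.n l42243 (nat_lit 11446) (nat_lit 0) (nat_lit 11))
    (@En.n l42244 (nat_lit 10278) (nat_lit 1) (nat_lit 5))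
    (@En.n l50 (nat_lit 11441) (nat_lit 8) (nat_lit 8))
    (@En.n l42241 (nat_lit 10346) (nat_lit 10) (nat_lit 9))
    (@En.n l36052 (nat_lit 5173) (nat_lit 2) (nat_lit 5))
    (@En.n l42245 (nat_lit 12211) (nat_lit 6) (nat_lit 10))
    (@En.n l12291 (nat_lit 10411) (nat_lit 9) (nat_lit 11))
    (@En.n l42246 (nat_lit 11621) (nat_lit 10) (nat_lit 6))
    (@En.n l42247 (nat_lit 10070) (nat_lit 6) (nat_lit 6))
    (@En.n l42245 (nat_lit 7997) (nat_lit 7) (nat_lit 11))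
    (@En.n l42248 (nat_lit 5194) (nat_lit 10) (nat_lit 8))
    (@En.n l42249 (nat_lit 7554) (nat_lit 11) (nat_lit 5))))
  (@Cl.mk (nat_lit 0x400080008000c0005000a00080004000b000800080006000c00050008000b) (nat_lit 0x158045085508028) (nat_lit 16) Lb.e (@T16.mk En
    (@En.n l3530 (nat_lit 11327) (nat_lit 7) (nat_lit 11))
    (@En.n l42773 (nat_lit 3421) (nat_lit 10) (nat_lit 8))
    (@En.n l12924 (nat_lit 5173) (nat_lit 9) (nat_lit 5))
    (@En.n l37113 (nat_lit 11605) (nat_lit 0) (nat_lit 12))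
    (@En.n l5588 (nat_lit 11095) (nat_lit 1) (nat_lit 6))
    (@En.n l42774 (nat_lit 11620) (nat_lit 8) (nat_lit 8))
    (@En.n l42775 (nat_lit 10411) (nat_lit 6) (nat_lit 8))
    (@En.n l37208 (nat_lit 11446) (nat_lit 8) (nat_lit 11))
    (@En.n l15535 (nat_lit 11404) (nat_lit 8) (nat_lit 4))
    (@En.n l12927 (nat_lit 11441) (nat_lit 0) (nat_lit 8))
    (@En.n l12928 (nat_lit 7932) (nat_lit 1) (nat_lit 10))
    (@En.n l39810 (nat_lit 7553) (nat_lit 8) (nat_lit 5))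
    (@En.n l42776 (nat_lit 10573) (nat_lit 7) (nat_lit 12))
    (@En.n l11993 (nat_lit 11439) (nat_lit 8) (nat_lit 8))
    (@En.n l10660 (nat_lit 10671) (nat_lit 11) (nat_lit 8))
    (@En.n l42777 (nat_lit 4538) (nat_lit 15) (nat_lit 4))))
  (@Cl.mk (nat_lit 0x20006000b0006000b0009000c0005000900050004000a0007000a000e0007) (nat_lit 0x80635010020640) (nat_lit 16) Lb.e (@T16.mk En
    (@En.n l3098 (nat_lit 11446) (nat_lit 7) (nat_lit 7))
    (@En.n l20286 (nat_lit 9660) (nat_lit 1) (nat_lit 14))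
    (@En.i (nat_lit 7253) (nat_lit 2) (nat_lit 10))
    (@En.n l20287 (nat_lit 11440) (nat_lit 3) (nat_lit 7))
    (@En.n l20288 (nat_lit 11225) (nat_lit 4) (nat_lit 10))
    (@En.i (nat_lit 10866) (nat_lit 5) (nat_lit 4))
    (@En.n l11527 (nat_lit 11497) (nat_lit 6) (nat_lit 5))
    (@En.n l20289 (nat_lit 8255) (nat_lit 8) (nat_lit 9))
    (@En.n l6646 (nat_lit 4543) (nat_lit 8) (nat_lit 5))
    (@En.n l11527 (nat_lit 12377) (nat_lit 10) (nat_lit 12))
    (@En.n l20290 (nat_lit 11439) (nat_lit 11) (nat_lit 9))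
    (@En.n l20291 (nat_lit 10347) (nat_lit 12) (nat_lit 11))
    (@En.n l9365 (nat_lit 6542) (nat_lit 13) (nat_lit 6))
    (@En.n l3105 (nat_lit 11603) (nat_lit 14) (nat_lit 11))
    (@En.n l3106 (nat_lit 9978) (nat_lit 13) (nat_lit 6))
    (@En.n l17 (nat_lit 11445) (nat_lit 15) (nat_lit 2))))
  (@Cl.mk (nat_lit 0x50009000900060005000b0008000b000700070005000b0005000a0008000b) (nat_lit 0x120043700070335) (nat_lit 16) Lb.e (@T16.mk En
    (@En.n l36194 (nat_lit 12381) (nat_lit 7) (nat_lit 11))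
    (@En.n l36195 (nat_lit 11444) (nat_lit 1) (nat_lit 8))
    (@En.n l36196 (nat_lit 10344) (nat_lit 10) (nat_lit 10))
    (@En.n l36197 (nat_lit 59) (nat_lit 7) (nat_lit 5))
    (@En.n l14270 (nat_lit 11606) (nat_lit 0) (nat_lit 11))
    (@En.n l3535 (nat_lit 11094) (nat_lit 11) (nat_lit 5))
    (@En.n l152 (nat_lit 11622) (nat_lit 9) (nat_lit 7))
    (@En.n l36198 (nat_lit 10071) (nat_lit 1) (nat_lit 7))
    (@En.i (nat_lit 7252) (nat_lit 7) (nat_lit 11))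
    (@En.n l36199 (nat_lit 11443) (nat_lit 14) (nat_lit 8))
    (@En.n l36200 (nat_lit 11224) (nat_lit 10) (nat_lit 11))
    (@En.i (nat_lit 7552) (nat_lit 11) (nat_lit 5))
    (@En.n l32088 (nat_lit 11085) (nat_lit 0) (nat_lit 6))
    (@En.n l3536 (nat_lit 11445) (nat_lit 7) (nat_lit 9))
    (@En.n l36201 (nat_lit 10670) (nat_lit 10) (nat_lit 9))
    (@En.n l26816 (nat_lit 4537) (nat_lit 2) (nat_lit 5))))
  (@Cl.mk (nat_lit 0x20006000c0006000b000b00040008000c00050005000a0004000a000e0008) (nat_lit 0x40860460030785) (nat_lit 16) Lb.e (@T16.mk En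
    (@En.n l31531 (nat_lit 11404) (nat_lit 6) (nat_lit 8))
    (@En.n l34029 (nat_lit 5108) (nat_lit 1) (nat_lit 14))
    (@En.n l29437 (nat_lit 5605) (nat_lit 2) (nat_lit 10))
    (@En.n l61 (nat_lit 11433) (nat_lit 3) (nat_lit 4))
    (@En.n l34030 (nat_lit 11229) (nat_lit 4) (nat_lit 10))
    (@En.n l16563 (nat_lit 11670) (nat_lit 11) (nat_lit 5))
    (@En.n l29330 (nat_lit 11445) (nat_lit 6) (nat_lit 5))
    (@En.n l10971 (nat_lit 7274) (nat_lit 8) (nat_lit 12))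
    (@En.n l24949 (nat_lit 12151) (nat_lit 9) (nat_lit 8))
    (@En.n l34031 (nat_lit 11493) (nat_lit 9) (nat_lit 4))
    (@En.n l10858 (nat_lit 12123) (nat_lit 11) (nat_lit 11))
    (@En.i (nat_lit 11490) (nat_lit 12) (nat_lit 11))
    (@En.n l34032 (nat_lit 6446) (nat_lit 13) (nat_lit 6))
    (@En.n l34033 (nat_lit 10915) (nat_lit 14) (nat_lit 12))
    (@En.n l6042 (nat_lit 9490) (nat_lit 13) (nat_lit 6))
    (@En.n l50 (nat_lit 11447) (nat_lit 15) (nat_lit 2))))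
  (@Cl.mk (nat_lit 0x2000c000a000900080004000b000a0006000a0007000500080006000e0006) (nat_lit 0x753305602003060) (nat_lit 16) Lb.e (@T16.mk En
    (@En.i (nat_lit 11080) (nat_lit 5) (nat_lit 6))
    (@En.n l134 (nat_lit 9482) (nat_lit 1) (nat_lit 14))
    (@En.n l8547 (nat_lit 12338) (nat_lit 2) (nat_lit 6))
    (@En.i (nat_lit 9122) (nat_lit 10) (nat_lit 8))
    (@En.n l152 (nat_lit 10865) (nat_lit 4) (nat_lit 5))
    (@En.n l17145 (nat_lit 11568) (nat_lit 5) (nat_lit 7))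
    (@En.i (nat_lit 10143) (nat_lit 9) (nat_lit 10))
    (@En.n l20238 (nat_lit 11440) (nat_lit 7) (nat_lit 6))
    (@En.n l20241 (nat_lit 10350) (nat_lit 9) (nat_lit 10))
    (@En.i (nat_lit 11449) (nat_lit 10) (nat_lit 11))
    (@En.n l20242 (nat_lit 9808) (nat_lit 10) (nat_lit 4))
    (@En.i (nat_lit 11424) (nat_lit 12) (nat_lit 8))
    (@En.n l20243 (nat_lit 11452) (nat_lit 13) (nat_lit 9))
    (@En.n l20244 (nat_lit 11053) (nat_lit 14) (nat_lit 10))
    (@En.i (nat_lit 10393) (nat_lit 3) (nat_lit 12))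
    (@En.n l7 (nat_lit 11448) (nat_lit 15) (nat_lit 2))))
  (@Cl.mk (nat_lit 0x20006000b000a0008000b00090005000900060005000a00080007000e0007) (nat_lit 0x43346020024070) (nat_lit 16) Lb.e (@T16.mk En
    (@En.n l8574 (nat_lit 11079) (nat_lit 7) (nat_lit 7))
    (@En.n l134 (nat_lit 9484) (nat_lit 1) (nat_lit 14))
    (@En.n l8575 (nat_lit 12132) (nat_lit 2) (nat_lit 7))
    (@En.n l17 (nat_lit 11448) (nat_lit 3) (nat_lit 8))
    (@En.n l8576 (nat_lit 11295) (nat_lit 4) (nat_lit 10))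
    (@En.n l8577 (nat_lit 10863) (nat_lit 5) (nat_lit 5))
    (@En.n l8578 (nat_lit 11500) (nat_lit 6) (nat_lit 6))
    (@En.i (nat_lit 10141) (nat_lit 8) (nat_lit 9))
    (@En.n l8579 (nat_lit 11445) (nat_lit 8) (nat_lit 5))
    (@En.n l8580 (nat_lit 10352) (nat_lit 10) (nat_lit 9))
    (@En.n l8581 (nat_lit 12379) (nat_lit 11) (nat_lit 11))
    (@En.n l8582 (nat_lit 11425) (nat_lit 12) (nat_lit 8))
    (@En.n l8583 (nat_lit 11453) (nat_lit 13) (nat_lit 10))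
    (@En.n l8578 (nat_lit 11052) (nat_lit 14) (nat_lit 11))
    (@En.n l8584 (nat_lit 11115) (nat_lit 13) (nat_lit 6))
    (@En.n l7 (nat_lit 11449) (nat_lit 15) (nat_lit 2))))
  (@Cl.mk (nat_lit 0x2000d000a00070003000a0009000d0006000a0003000600090007000e0006) (nat_lit 0x940066701001060) (nat_lit 16) Lb.e (@T16.mk En
    (@En.n l1075 (nat_lit 11477) (nat_lit 4) (nat_lit 6))
    (@En.n l5390 (nat_lit 7465) (nat_lit 1) (nat_lit 14))
    (@En.n l3082 (nat_lit 12336) (nat_lit 2) (nat_lit 7))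
    (@En.n l10024 (nat_lit 5956) (nat_lit 9) (nat_lit 9))
    (@En.n l9874 (nat_lit 11504) (nat_lit 12) (nat_lit 6))
    (@En.n l18801 (nat_lit 11452) (nat_lit 5) (nat_lit 3))
    (@En.n l9874 (nat_lit 4181) (nat_lit 0) (nat_lit 10))
    (@En.n l9144 (nat_lit 11448) (nat_lit 7) (nat_lit 6))
    (@En.n l24110 (nat_lit 11456) (nat_lit 9) (nat_lit 13))
    (@En.n l1101 (nat_lit 11465) (nat_lit 10) (nat_lit 9))
    (@En.n l1690 (nat_lit 11451) (nat_lit 11) (nat_lit 10))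
    (@En.n l152 (nat_lit 11454) (nat_lit 11) (nat_lit 3))
    (@En.n l5588 (nat_lit 6451) (nat_lit 0) (nat_lit 7))
    (@En.i (nat_lit 11394) (nat_lit 14) (nat_lit 10))
    (@En.n l5390 (nat_lit 6154) (nat_lit 9) (nat_lit 13))
    (@En.n l17 (nat_lit 11450) (nat_lit 15) (nat_lit 2))))
  (@Cl.mk (nat_lit 0x20006000b0007000a0008000d0005000900030006000a00090008000e0007) (nat_lit 0x50546060022470) (nat_lit 16) Lb.e (@T16.mk En
    (@En.n l20317 (nat_lit 11478) (nat_lit 10) (nat_lit 7))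
    (@En.n l20318 (nat_lit 7468) (nat_lit 1) (nat_lit 14))
    (@En.n l8824 (nat_lit 12162) (nat_lit 2) (nat_lit 8))
    (@En.n l3 (nat_lit 11450) (nat_lit 3) (nat_lit 9))
    (@En.n l9697 (nat_lit 11296) (nat_lit 4) (nat_lit 10))
    (@En.n l15766 (nat_lit 11506) (nat_lit 12) (nat_lit 6))
    (@En.n l8916 (nat_lit 11453) (nat_lit 6) (nat_lit 3))
    (@En.n l15766 (nat_lit 11927) (nat_lit 0) (nat_lit 9))
    (@En.n l3104 (nat_lit 11449) (nat_lit 8) (nat_lit 5))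
    (@En.n l10649 (nat_lit 11458) (nat_lit 10) (nat_lit 13))
    (@En.n l20319 (nat_lit 10355) (nat_lit 11) (nat_lit 8))
    (@En.n l20320 (nat_lit 12310) (nat_lit 12) (nat_lit 10))
    (@En.i (nat_lit 5029) (nat_lit 13) (nat_lit 7))
    (@En.n l3105 (nat_lit 11393) (nat_lit 14) (nat_lit 11))
    (@En.n l3106 (nat_lit 10648) (nat_lit 7) (nat_lit 6))
    (@En.n l17 (nat_lit 11451) (nat_lit 15) (nat_lit 2))))
  (@Cl.mk (nat_lit 0x2000d000900070003000a0009000d000900070003000600090007000e0007) (nat_lit 0x420085850002040) (nat_lit 16) Lb.e (@T16.mk En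
    (@En.n l36071 (nat_lit 10520) (nat_lit 4) (nat_lit 7))
    (@En.n l3264 (nat_lit 9022) (nat_lit 1) (nat_lit 14))
    (@En.n l30157 (nat_lit 12334) (nat_lit 2) (nat_lit 7))
    (@En.n l3105 (nat_lit 12721) (nat_lit 9) (nat_lit 9))
    (@En.n l7112 (nat_lit 4560) (nat_lit 12) (nat_lit 6))
    (@En.n l21704 (nat_lit 11450) (nat_lit 5) (nat_lit 3))
    (@En.i (nat_lit 11567) (nat_lit 0) (nat_lit 7))
    (@En.n l16849 (nat_lit 10624) (nat_lit 12) (nat_lit 9))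
    (@En.n l3 (nat_lit 11457) (nat_lit 9) (nat_lit 13))
    (@En.n l3 (nat_lit 11464) (nat_lit 10) (nat_lit 9))
    (@En.n l6724 (nat_lit 11453) (nat_lit 11) (nat_lit 10))
    (@En.n l50 (nat_lit 11455) (nat_lit 11) (nat_lit 3))
    (@En.n l21013 (nat_lit 6452) (nat_lit 0) (nat_lit 7))
    (@En.n l217 (nat_lit 6584) (nat_lit 14) (nat_lit 9))
    (@En.n l36072 (nat_lit 6150) (nat_lit 9) (nat_lit 13))
    (@En.n l28 (nat_lit 11452) (nat_lit 15) (nat_lit 2))))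
  (@Cl.mk (nat_lit 0x20006000a0007000a0008000d0008000600030006000a00090008000e0008) (nat_lit 0x20747400033552) (nat_lit 16) Lb.e (@T16.mk En
    (@En.n l20340 (nat_lit 10523) (nat_lit 10) (nat_lit 8))
    (@En.n l18627 (nat_lit 9025) (nat_lit 1) (nat_lit 14))
    (@En.i (nat_lit 12163) (nat_lit 2) (nat_lit 8))
    (@En.n l20341 (nat_lit 11452) (nat_lit 3) (nat_lit 9))
    (@En.n l20342 (nat_lit 11297) (nat_lit 4) (nat_lit 10))
    (@En.n l17797 (nat_lit 4475) (nat_lit 5) (nat_lit 6))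
    (@En.n l17847 (nat_lit 11451) (nat_lit 6) (nat_lit 3))
    (@En.n l20343 (nat_lit 11570) (nat_lit 0) (nat_lit 6))
    (@En.n l20344 (nat_lit 10623) (nat_lit 9) (nat_lit 8))
    (@En.n l2371 (nat_lit 11459) (nat_lit 10) (nat_lit 13))
    (@En.n l17 (nat_lit 12092) (nat_lit 11) (nat_lit 8))
    (@En.n l7 (nat_lit 12304) (nat_lit 12) (nat_lit 10))
    (@En.i (nat_lit 5033) (nat_lit 13) (nat_lit 7))
    (@En.n l20343 (nat_lit 6582) (nat_lit 14) (nat_lit 10))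
    (@En.i (nat_lit 10680) (nat_lit 7) (nat_lit 6))
    (@En.n l3 (nat_lit 11453) (nat_lit 15) (nat_lit 2))))
  (@Cl.mk (nat_lit 0x2000d0006000b0003000a0009000d0005000a00030006000a0007000e0006) (nat_lit 0x801066706003060) (nat_lit 16) Lb.e (@T16.mk En
    (@En.n l35018 (nat_lit 11414) (nat_lit 4) (nat_lit 6))
    (@En.n l3927 (nat_lit 7463) (nat_lit 1) (nat_lit 14))
    (@En.n l2383 (nat_lit 12331) (nat_lit 2) (nat_lit 7))
    (@En.n l9697 (nat_lit 12710) (nat_lit 3) (nat_lit 10))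
    (@En.n l19992 (nat_lit 11505) (nat_lit 12) (nat_lit 6))
    (@En.n l25285 (nat_lit 11455) (nat_lit 5) (nat_lit 3))
    (@En.n l19992 (nat_lit 11930) (nat_lit 0) (nat_lit 10))
    (@En.n l19956 (nat_lit 9808) (nat_lit 7) (nat_lit 5))
    (@En.n l10649 (nat_lit 11461) (nat_lit 9) (nat_lit 13))
    (@En.n l20319 (nat_lit 11462) (nat_lit 10) (nat_lit 9))
    (@En.n l35019 (nat_lit 12314) (nat_lit 11) (nat_lit 10))
    (@En.n l117 (nat_lit 11450) (nat_lit 11) (nat_lit 3))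
    (@En.n l35020 (nat_lit 7981) (nat_lit 0) (nat_lit 11))
    (@En.i (nat_lit 11451) (nat_lit 14) (nat_lit 6))
    (@En.n l35021 (nat_lit 6215) (nat_lit 2) (nat_lit 13))
    (@En.n l17 (nat_lit 11454) (nat_lit 15) (nat_lit 2))))
  (@Cl.mk (nat_lit 0x2000d0006000a0003000a0009000d0009000600030006000a0007000e0007) (nat_lit 0x5010658400040a0) (nat_lit 16) Lb.e (@T16.mk En
    (@En.n l7477 (nat_lit 10518) (nat_lit 4) (nat_lit 7))
    (@En.n l25230 (nat_lit 9899) (nat_lit 1) (nat_lit 14))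
    (@En.n l9365 (nat_lit 12337) (nat_lit 2) (nat_lit 7))
    (@En.n l3105 (nat_lit 12709) (nat_lit 3) (nat_lit 10))
    (@En.n l25231 (nat_lit 2120) (nat_lit 12) (nat_lit 6))
    (@En.n l25232 (nat_lit 11454) (nat_lit 5) (nat_lit 3))
    (@En.i (nat_lit 7253) (nat_lit 0) (nat_lit 6))
    (@En.n l25233 (nat_lit 10628) (nat_lit 12) (nat_lit 9))
    (@En.n l3 (nat_lit 11460) (nat_lit 9) (nat_lit 13))
    (@En.n l3 (nat_lit 11463) (nat_lit 10) (nat_lit 9))
    (@En.n l6724 (nat_lit 12313) (nat_lit 11) (nat_lit 10))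
    (@En.i (nat_lit 11452) (nat_lit 11) (nat_lit 3))
    (@En.n l6727 (nat_lit 2122) (nat_lit 0) (nat_lit 10))
    (@En.n l25234 (nat_lit 11453) (nat_lit 14) (nat_lit 6))
    (@En.n l7479 (nat_lit 6123) (nat_lit 2) (nat_lit 13))
    (@En.n l28 (nat_lit 11455) (nat_lit 15) (nat_lit 2))))
noncomputable def a716 : T16 Cl := @T16.mk Cl
  (@Cl.mk (nat_lit 0x2000d000b00070003000a000d000500090003000d000600090003000e0007) (nat_lit 0xa40066010903070) (nat_lit 16) Lb.e (@T16.mk En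
    (@En.n l13052 (nat_lit 11476) (nat_lit 14) (nat_lit 7))
    (@En.n l21702 (nat_lit 7466) (nat_lit 1) (nat_lit 14))
    (@En.n l21703 (nat_lit 11465) (nat_lit 2) (nat_lit 3))
    (@En.n l13055 (nat_lit 5951) (nat_lit 3) (nat_lit 9))
    (@En.n l21704 (nat_lit 11450) (nat_lit 4) (nat_lit 6))
    (@En.n l21705 (nat_lit 11424) (nat_lit 6) (nat_lit 13))
    (@En.n l17 (nat_lit 11457) (nat_lit 6) (nat_lit 3))
    (@En.n l13055 (nat_lit 4173) (nat_lit 0) (nat_lit 9))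
    (@En.n l9325 (nat_lit 10348) (nat_lit 8) (nat_lit 5))
    (@En.i (nat_lit 5646) (nat_lit 5) (nat_lit 13))
    (@En.n l21706 (nat_lit 11458) (nat_lit 11) (nat_lit 10))
    (@En.n l13049 (nat_lit 11461) (nat_lit 11) (nat_lit 3))
    (@En.n l13055 (nat_lit 6450) (nat_lit 0) (nat_lit 7))
    (@En.n l13050 (nat_lit 11395) (nat_lit 14) (nat_lit 11))
    (@En.n l13051 (nat_lit 6212) (nat_lit 2) (nat_lit 13))
    (@En.n l28 (nat_lit 11456) (nat_lit 15) (nat_lit 2))))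
  (@Cl.mk (nat_lit 0x2000d000a00070003000a000d000800060003000d000600090003000e0008) (nat_lit 0x520077400902056) (nat_lit 16) Lb.e (@T16.mk En
    (@En.i (nat_lit 10519) (nat_lit 14) (nat_lit 8))
    (@En.i (nat_lit 9020) (nat_lit 1) (nat_lit 14))
    (@En.n l117 (nat_lit 11464) (nat_lit 2) (nat_lit 3))
    (@En.n l781 (nat_lit 12622) (nat_lit 3) (nat_lit 9))
    (@En.i (nat_lit 11452) (nat_lit 4) (nat_lit 6))
    (@En.n l19281 (nat_lit 7435) (nat_lit 6) (nat_lit 13))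
    (@En.i (nat_lit 11456) (nat_lit 6) (nat_lit 3))
    (@En.i (nat_lit 11565) (nat_lit 7) (nat_lit 6))
    (@En.n l9325 (nat_lit 11470) (nat_lit 13) (nat_lit 8))
    (@En.i (nat_lit 5645) (nat_lit 5) (nat_lit 13))
    (@En.n l5 (nat_lit 11459) (nat_lit 11) (nat_lit 10))
    (@En.n l50 (nat_lit 11460) (nat_lit 11) (nat_lit 3))
    (@En.i (nat_lit 6454) (nat_lit 0) (nat_lit 7))
    (@En.n l217 (nat_lit 6586) (nat_lit 14) (nat_lit 10))
    (@En.i (nat_lit 6149) (nat_lit 2) (nat_lit 13))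
    (@En.n l28 (nat_lit 11457) (nat_lit 15) (nat_lit 2))))
  (@Cl.mk (nat_lit 0x20006000c0007000a000d000400080003000c0006000a00090004000e0008) (nat_lit 0x50550108034084) (nat_lit 16) Lb.e (@T16.mk En
    (@En.n l982 (nat_lit 11479) (nat_lit 6) (nat_lit 8))
    (@En.n l9207 (nat_lit 7469) (nat_lit 1) (nat_lit 14))
    (@En.n l4083 (nat_lit 11699) (nat_lit 2) (nat_lit 4))
    (@En.n l5233 (nat_lit 11456) (nat_lit 3) (nat_lit 9))
    (@En.n l9208 (nat_lit 10937) (nat_lit 4) (nat_lit 10))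
    (@En.n l9209 (nat_lit 11451) (nat_lit 5) (nat_lit 6))
    (@En.n l1119 (nat_lit 11425) (nat_lit 7) (nat_lit 12))
    (@En.n l3129 (nat_lit 11459) (nat_lit 7) (nat_lit 3))
    (@En.i (nat_lit 4180) (nat_lit 0) (nat_lit 8))
    (@En.n l1275 (nat_lit 10347) (nat_lit 9) (nat_lit 4))
    (@En.i (nat_lit 12505) (nat_lit 11) (nat_lit 13))
    (@En.n l309 (nat_lit 12307) (nat_lit 8) (nat_lit 10))
    (@En.n l690 (nat_lit 5028) (nat_lit 13) (nat_lit 7))
    (@En.n l3129 (nat_lit 11396) (nat_lit 14) (nat_lit 12))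
    (@En.n l9210 (nat_lit 10762) (nat_lit 13) (nat_lit 6))
    (@En.n l28 (nat_lit 11458) (nat_lit 15) (nat_lit 2))))
  (@Cl.mk (nat_lit 0x20006000b0007000a000d000700050003000c0006000a00090004000e0009) (nat_lit 0x406600080430b7) (nat_lit 16) Lb.e (@T16.mk En
    (@En.n l6539 (nat_lit 10522) (nat_lit 14) (nat_lit 9))
    (@En.n l1253 (nat_lit 9907) (nat_lit 1) (nat_lit 14))
    (@En.n l15165 (nat_lit 11698) (nat_lit 2) (nat_lit 4))
    (@En.n l2593 (nat_lit 11457) (nat_lit 3) (nat_lit 9))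
    (@En.n l15166 (nat_lit 10933) (nat_lit 4) (nat_lit 10))
    (@En.n l15167 (nat_lit 11453) (nat_lit 5) (nat_lit 6))
    (@En.n l15168 (nat_lit 7188) (nat_lit 7) (nat_lit 12))
    (@En.n l2513 (nat_lit 11458) (nat_lit 7) (nat_lit 3))
    (@En.i (nat_lit 11569) (nat_lit 8) (nat_lit 5))
    (@En.n l15169 (nat_lit 11474) (nat_lit 10) (nat_lit 7))
    (@En.i (nat_lit 12506) (nat_lit 11) (nat_lit 13))
    (@En.n l15170 (nat_lit 12305) (nat_lit 8) (nat_lit 10))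
    (@En.n l15165 (nat_lit 5035) (nat_lit 13) (nat_lit 7))
    (@En.i (nat_lit 6585) (nat_lit 14) (nat_lit 11))
    (@En.n l766 (nat_lit 10687) (nat_lit 13) (nat_lit 6))
    (@En.n l28 (nat_lit 11459) (nat_lit 15) (nat_lit 2))))
  (@Cl.mk (nat_lit 0x2000d0006000b0003000a000d000800050003000d0006000a0003000e0008) (nat_lit 0x5050773009050a6) (nat_lit 16) Lb.e (@T16.mk En
    (@En.n l7477 (nat_lit 10516) (nat_lit 14) (nat_lit 8))
    (@En.n l21416 (nat_lit 9898) (nat_lit 1) (nat_lit 14))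
    (@En.n l117 (nat_lit 11463) (nat_lit 2) (nat_lit 3))
    (@En.n l781 (nat_lit 12493) (nat_lit 3) (nat_lit 10))
    (@En.i (nat_lit 11455) (nat_lit 4) (nat_lit 6))
    (@En.n l6725 (nat_lit 7434) (nat_lit 6) (nat_lit 13))
    (@En.n l11960 (nat_lit 11461) (nat_lit 6) (nat_lit 3))
    (@En.i (nat_lit 7990) (nat_lit 7) (nat_lit 5))
    (@En.n l25672 (nat_lit 11469) (nat_lit 13) (nat_lit 8))
    (@En.i (nat_lit 5647) (nat_lit 5) (nat_lit 13))
    (@En.i (nat_lit 12303) (nat_lit 11) (nat_lit 10))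
    (@En.i (nat_lit 11457) (nat_lit 11) (nat_lit 3))
    (@En.n l9137 (nat_lit 3949) (nat_lit 0) (nat_lit 11))
    (@En.n l564 (nat_lit 11459) (nat_lit 14) (nat_lit 6))
    (@En.n l7479 (nat_lit 6120) (nat_lit 2) (nat_lit 13))
    (@En.n l28 (nat_lit 11460) (nat_lit 15) (nat_lit 2))))
  (@Cl.mk (nat_lit 0x2000d0006000c0003000a000d000400090003000d0006000a0003000e0007) (nat_lit 0x901066010906070) (nat_lit 16) Lb.e (@T16.mk En
    (@En.n l982 (nat_lit 11410) (nat_lit 14) (nat_lit 7))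
    (@En.n l9207 (nat_lit 7462) (nat_lit 1) (nat_lit 14))
    (@En.n l1925 (nat_lit 11462) (nat_lit 2) (nat_lit 3))
    (@En.n l9264 (nat_lit 12487) (nat_lit 3) (nat_lit 10))
    (@En.n l9209 (nat_lit 11454) (nat_lit 4) (nat_lit 6))
    (@En.n l1119 (nat_lit 11423) (nat_lit 6) (nat_lit 13))
    (@En.n l5567 (nat_lit 11460) (nat_lit 6) (nat_lit 3))
    (@En.i (nat_lit 4179) (nat_lit 0) (nat_lit 9))
    (@En.n l23718 (nat_lit 9806) (nat_lit 8) (nat_lit 4))
    (@En.i (nat_lit 5649) (nat_lit 5) (nat_lit 13))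
    (@En.n l309 (nat_lit 12312) (nat_lit 11) (nat_lit 10))
    (@En.n l10557 (nat_lit 11456) (nat_lit 11) (nat_lit 3))
    (@En.n l170 (nat_lit 7980) (nat_lit 0) (nat_lit 12))
    (@En.i (nat_lit 11458) (nat_lit 14) (nat_lit 6))
    (@En.n l3130 (nat_lit 6213) (nat_lit 2) (nat_lit 13))
    (@En.n l28 (nat_lit 11461) (nat_lit 15) (nat_lit 2))))
  (@Cl.mk (nat_lit 0x2000d0007000c00030009000d000400090003000d000900070003000e0007) (nat_lit 0x607057050970070) (nat_lit 16) Lb.e (@T16.mk En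
    (@En.n l7001 (nat_lit 11411) (nat_lit 14) (nat_lit 7))
    (@En.n l18605 (nat_lit 11299) (nat_lit 1) (nat_lit 14))
    (@En.n l13323 (nat_lit 11461) (nat_lit 2) (nat_lit 3))
    (@En.n l97 (nat_lit 11068) (nat_lit 3) (nat_lit 7))
    (@En.n l34275 (nat_lit 11174) (nat_lit 4) (nat_lit 9))
    (@En.n l31975 (nat_lit 11421) (nat_lit 6) (nat_lit 13))
    (@En.n l19601 (nat_lit 11463) (nat_lit 6) (nat_lit 3))
    (@En.n l1262 (nat_lit 11018) (nat_lit 0) (nat_lit 9))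
    (@En.i (nat_lit 9807) (nat_lit 8) (nat_lit 4))
    (@En.n l1262 (nat_lit 3630) (nat_lit 10) (nat_lit 13))
    (@En.n l773 (nat_lit 12316) (nat_lit 11) (nat_lit 9))
    (@En.n l11883 (nat_lit 11465) (nat_lit 11) (nat_lit 3))
    (@En.n l1643 (nat_lit 7979) (nat_lit 0) (nat_lit 12))
    (@En.i (nat_lit 10355) (nat_lit 14) (nat_lit 7))
    (@En.n l11315 (nat_lit 6214) (nat_lit 2) (nat_lit 13))
    (@En.n l17 (nat_lit 11462) (nat_lit 15) (nat_lit 2))))
  (@Cl.mk (nat_lit 0x2000d0007000b00030009000d000800050003000d000900070003000e0008) (nat_lit 0x4050464009700a3) (nat_lit 16) Lb.e (@T16.mk En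
    (@En.n l28577 (nat_lit 10517) (nat_lit 14) (nat_lit 8))
    (@En.n l18411 (nat_lit 11300) (nat_lit 1) (nat_lit 14))
    (@En.n l152 (nat_lit 11460) (nat_lit 2) (nat_lit 3))
    (@En.n l18413 (nat_lit 12333) (nat_lit 3) (nat_lit 7))
    (@En.n l97 (nat_lit 11175) (nat_lit 4) (nat_lit 9))
    (@En.n l35358 (nat_lit 7433) (nat_lit 6) (nat_lit 13))
    (@En.n l35359 (nat_lit 11462) (nat_lit 6) (nat_lit 3))
    (@En.i (nat_lit 7991) (nat_lit 7) (nat_lit 5))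
    (@En.n l35360 (nat_lit 11468) (nat_lit 13) (nat_lit 8))
    (@En.i (nat_lit 4670) (nat_lit 10) (nat_lit 13))
    (@En.n l35361 (nat_lit 12317) (nat_lit 11) (nat_lit 9))
    (@En.i (nat_lit 11464) (nat_lit 11) (nat_lit 3))
    (@En.n l18434 (nat_lit 3948) (nat_lit 0) (nat_lit 11))
    (@En.n l35362 (nat_lit 12092) (nat_lit 14) (nat_lit 7))
    (@En.n l7479 (nat_lit 6119) (nat_lit 2) (nat_lit 13))
    (@En.n l28 (nat_lit 11463) (nat_lit 15) (nat_lit 2))))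
  (@Cl.mk (nat_lit 0x2000d000a000800030009000d000800060003000d000800070003000e0008) (nat_lit 0x441047400920056) (nat_lit 16) Lb.e (@T16.mk En
    (@En.i (nat_lit 10521) (nat_lit 14) (nat_lit 8))
    (@En.n l33201 (nat_lit 11297) (nat_lit 1) (nat_lit 14))
    (@En.n l152 (nat_lit 11457) (nat_lit 2) (nat_lit 3))
    (@En.n l5588 (nat_lit 12335) (nat_lit 3) (nat_lit 7))
    (@En.n l97 (nat_lit 12168) (nat_lit 4) (nat_lit 8))
    (@En.n l39728 (nat_lit 7432) (nat_lit 6) (nat_lit 13))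
    (@En.n l39729 (nat_lit 11465) (nat_lit 6) (nat_lit 3))
    (@En.i (nat_lit 11564) (nat_lit 7) (nat_lit 6))
    (@En.n l39730 (nat_lit 11467) (nat_lit 13) (nat_lit 8))
    (@En.i (nat_lit 5639) (nat_lit 10) (nat_lit 13))
    (@En.n l20170 (nat_lit 11698) (nat_lit 11) (nat_lit 9))
    (@En.n l50 (nat_lit 11463) (nat_lit 11) (nat_lit 3))
    (@En.n l20170 (nat_lit 6456) (nat_lit 0) (nat_lit 8))
    (@En.n l217 (nat_lit 6588) (nat_lit 14) (nat_lit 10))
    (@En.n l15955 (nat_lit 6148) (nat_lit 2) (nat_lit 13))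
    (@En.n l28 (nat_lit 11464) (nat_lit 15) (nat_lit 2))))
  (@Cl.mk (nat_lit 0x2000d000b000800030009000d000500090003000d000800070003000e0007) (nat_lit 0x541056040920070) (nat_lit 16) Lb.e (@T16.mk En
    (@En.n l117 (nat_lit 11466) (nat_lit 14) (nat_lit 7))
    (@En.n l5854 (nat_lit 11296) (nat_lit 1) (nat_lit 14))
    (@En.n l31731 (nat_lit 11456) (nat_lit 2) (nat_lit 3))
    (@En.i (nat_lit 12332) (nat_lit 3) (nat_lit 7))
    (@En.n l5854 (nat_lit 12171) (nat_lit 4) (nat_lit 8))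
    (@En.n l24877 (nat_lit 11422) (nat_lit 6) (nat_lit 13))
    (@En.n l31732 (nat_lit 11464) (nat_lit 6) (nat_lit 3))
    (@En.i (nat_lit 11016) (nat_lit 0) (nat_lit 9))
    (@En.n l31733 (nat_lit 10350) (nat_lit 8) (nat_lit 5))
    (@En.n l24865 (nat_lit 5644) (nat_lit 10) (nat_lit 13))
    (@En.n l3859 (nat_lit 11699) (nat_lit 11) (nat_lit 9))
    (@En.n l19390 (nat_lit 11462) (nat_lit 11) (nat_lit 3))
    (@En.n l3324 (nat_lit 6455) (nat_lit 0) (nat_lit 8))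
    (@En.n l31734 (nat_lit 11397) (nat_lit 14) (nat_lit 11))
    (@En.n l3859 (nat_lit 6155) (nat_lit 2) (nat_lit 13))
    (@En.n l11 (nat_lit 11465) (nat_lit 15) (nat_lit 2))))
  (@Cl.mk (nat_lit 0x300070007000d000b000700030008000c0005000900090004000d00090008) (nat_lit 0xa300140350626) (nat_lit 16) Lb.e (@T16.mk En
    (@En.i (nat_lit 12312) (nat_lit 0) (nat_lit 8))
    (@En.n l5748 (nat_lit 12191) (nat_lit 14) (nat_lit 9))
    (@En.n l16522 (nat_lit 10956) (nat_lit 2) (nat_lit 13))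
    (@En.n l16523 (nat_lit 10365) (nat_lit 3) (nat_lit 4))
    (@En.n l619 (nat_lit 11465) (nat_lit 7) (nat_lit 9))
    (@En.i (nat_lit 10551) (nat_lit 5) (nat_lit 9))
    (@En.n l16524 (nat_lit 10349) (nat_lit 6) (nat_lit 5))
    (@En.n l16525 (nat_lit 3628) (nat_lit 7) (nat_lit 12))
    (@En.n l16526 (nat_lit 40) (nat_lit 1) (nat_lit 8))
    (@En.n l16527 (nat_lit 11411) (nat_lit 9) (nat_lit 3))
    (@En.n l3670 (nat_lit 10091) (nat_lit 0) (nat_lit 7))
    (@En.n l16528 (nat_lit 11402) (nat_lit 12) (nat_lit 11))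
    (@En.n l1112 (nat_lit 10056) (nat_lit 13) (nat_lit 13))
    (@En.n l16529 (nat_lit 11487) (nat_lit 9) (nat_lit 7))
    (@En.n l16530 (nat_lit 11820) (nat_lit 4) (nat_lit 7))
    (@En.n l16531 (nat_lit 11476) (nat_lit 15) (nat_lit 3))))
  (@Cl.mk (nat_lit 0x3000a000800050009000d000700060003000d000800070003000d000b0009) (nat_lit 0x73064000b400742) (nat_lit 16) Lb.e (@T16.mk En
    (@En.n l3057 (nat_lit 9350) (nat_lit 0) (nat_lit 9))
    (@En.n l32812 (nat_lit 10918) (nat_lit 14) (nat_lit 11))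
    (@En.n l28799 (nat_lit 10725) (nat_lit 2) (nat_lit 13))
    (@En.n l16563 (nat_lit 11471) (nat_lit 3) (nat_lit 3))
    (@En.n l28746 (nat_lit 11465) (nat_lit 0) (nat_lit 7))
    (@En.n l1769 (nat_lit 10366) (nat_lit 14) (nat_lit 8))
    (@En.n l19401 (nat_lit 10423) (nat_lit 2) (nat_lit 13))
    (@En.n l26427 (nat_lit 11470) (nat_lit 7) (nat_lit 3))
    (@En.n l18 (nat_lit 12325) (nat_lit 0) (nat_lit 6))
    (@En.i (nat_lit 11872) (nat_lit 5) (nat_lit 7))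
    (@En.n l24949 (nat_lit 7113) (nat_lit 6) (nat_lit 13))
    (@En.i (nat_lit 11019) (nat_lit 10) (nat_lit 9))
    (@En.n l14331 (nat_lit 10579) (nat_lit 8) (nat_lit 5))
    (@En.n l32167 (nat_lit 10433) (nat_lit 14) (nat_lit 8))
    (@En.n l24949 (nat_lit 11798) (nat_lit 11) (nat_lit 10))
    (@En.n l29486 (nat_lit 11468) (nat_lit 15) (nat_lit 3))))
  (@Cl.mk (nat_lit 0x3000a000800040009000d000800060003000d000800070003000d0008000c) (nat_lit 0x430475005400736) (nat_lit 16) Lb.e (@T16.mk En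
    (@En.i (nat_lit 8743) (nat_lit 0) (nat_lit 12))
    (@En.n l41557 (nat_lit 11473) (nat_lit 14) (nat_lit 8))
    (@En.n l35134 (nat_lit 10730) (nat_lit 2) (nat_lit 13))
    (@En.n l3348 (nat_lit 11472) (nat_lit 3) (nat_lit 3))
    (@En.n l41558 (nat_lit 11462) (nat_lit 0) (nat_lit 7))
    (@En.n l61 (nat_lit 10361) (nat_lit 14) (nat_lit 8))
    (@En.n l41559 (nat_lit 10421) (nat_lit 2) (nat_lit 13))
    (@En.n l9453 (nat_lit 11469) (nat_lit 7) (nat_lit 3))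
    (@En.n l41560 (nat_lit 12328) (nat_lit 0) (nat_lit 6))
    (@En.n l40475 (nat_lit 11475) (nat_lit 5) (nat_lit 8))
    (@En.n l34071 (nat_lit 4209) (nat_lit 6) (nat_lit 13))
    (@En.n l41557 (nat_lit 11021) (nat_lit 12) (nat_lit 9))
    (@En.n l23781 (nat_lit 10847) (nat_lit 8) (nat_lit 4))
    (@En.i (nat_lit 10430) (nat_lit 14) (nat_lit 8))
    (@En.n l41561 (nat_lit 10365) (nat_lit 11) (nat_lit 10))
    (@En.n l41562 (nat_lit 11467) (nat_lit 15) (nat_lit 3))))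
  (@Cl.mk (nat_lit 0x3000b000800040009000d000500090003000d000800070003000d0007000c) (nat_lit 0x420480405000606) (nat_lit 16) Lb.e (@T16.mk En
    (@En.n l19701 (nat_lit 8740) (nat_lit 0) (nat_lit 12))
    (@En.n l42745 (nat_lit 11474) (nat_lit 14) (nat_lit 7))
    (@En.n l42746 (nat_lit 10729) (nat_lit 2) (nat_lit 13))
    (@En.n l42747 (nat_lit 10619) (nat_lit 3) (nat_lit 3))
    (@En.i (nat_lit 11461) (nat_lit 0) (nat_lit 7))
    (@En.n l42746 (nat_lit 11760) (nat_lit 14) (nat_lit 8))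
    (@En.n l42748 (nat_lit 10948) (nat_lit 2) (nat_lit 13))
    (@En.n l697 (nat_lit 11468) (nat_lit 7) (nat_lit 3))
    (@En.n l9264 (nat_lit 11017) (nat_lit 0) (nat_lit 9))
    (@En.n l42749 (nat_lit 10628) (nat_lit 9) (nat_lit 5))
    (@En.n l42749 (nat_lit 4201) (nat_lit 6) (nat_lit 13))
    (@En.n l17 (nat_lit 11023) (nat_lit 3) (nat_lit 9))
    (@En.n l19701 (nat_lit 10846) (nat_lit 8) (nat_lit 4))
    (@En.n l6683 (nat_lit 10432) (nat_lit 14) (nat_lit 8))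
    (@En.n l309 (nat_lit 11466) (nat_lit 11) (nat_lit 11))
    (@En.n l42750 (nat_lit 11470) (nat_lit 15) (nat_lit 3))))
  (@Cl.mk (nat_lit 0x3000b000800050009000d000500080003000d000800070003000d000b0008) (nat_lit 0x43064010b600651) (nat_lit 16) Lb.e (@T16.mk En
    (@En.i (nat_lit 5096) (nat_lit 0) (nat_lit 8))
    (@En.n l38141 (nat_lit 10916) (nat_lit 14) (nat_lit 11))
    (@En.i (nat_lit 10728) (nat_lit 2) (nat_lit 13))
    (@En.n l133 (nat_lit 10618) (nat_lit 3) (nat_lit 3))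
    (@En.n l22160 (nat_lit 11456) (nat_lit 0) (nat_lit 7))
    (@En.n l29074 (nat_lit 11279) (nat_lit 14) (nat_lit 8))
    (@En.n l5377 (nat_lit 10947) (nat_lit 2) (nat_lit 13))
    (@En.n l23640 (nat_lit 11467) (nat_lit 7) (nat_lit 3))
    (@En.n l152 (nat_lit 8069) (nat_lit 10) (nat_lit 8))
    (@En.n l1992 (nat_lit 10624) (nat_lit 9) (nat_lit 5))
    (@En.n l38142 (nat_lit 4203) (nat_lit 6) (nat_lit 13))
    (@En.n l29793 (nat_lit 11022) (nat_lit 10) (nat_lit 9))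
    (@En.n l2125 (nat_lit 10576) (nat_lit 8) (nat_lit 5))
    (@En.n l20558 (nat_lit 10075) (nat_lit 14) (nat_lit 8))
    (@En.i (nat_lit 11474) (nat_lit 11) (nat_lit 11))
    (@En.n l34059 (nat_lit 11469) (nat_lit 15) (nat_lit 3))))
  (@Cl.mk (nat_lit 0x3000a00070005000a000d000700060003000d000600090003000d000b0009) (nat_lit 0x40087000b010782) (nat_lit 16) Lb.e (@T16.mk En
    (@En.n l619 (nat_lit 8819) (nat_lit 0) (nat_lit 9))
    (@En.n l17250 (nat_lit 10919) (nat_lit 14) (nat_lit 11))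
    (@En.i (nat_lit 8841) (nat_lit 2) (nat_lit 13))
    (@En.n l11434 (nat_lit 11467) (nat_lit 3) (nat_lit 3))
    (@En.n l2700 (nat_lit 7940) (nat_lit 9) (nat_lit 9))
    (@En.n l21398 (nat_lit 10841) (nat_lit 14) (nat_lit 6))
    (@En.n l11428 (nat_lit 11791) (nat_lit 2) (nat_lit 13))
    (@En.n l4037 (nat_lit 10618) (nat_lit 7) (nat_lit 3))
    (@En.n l16314 (nat_lit 12323) (nat_lit 0) (nat_lit 6))
    (@En.i (nat_lit 11870) (nat_lit 5) (nat_lit 7))
    (@En.i (nat_lit 7112) (nat_lit 5) (nat_lit 13))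
    (@En.n l11434 (nat_lit 11786) (nat_lit 12) (nat_lit 10))
    (@En.n l28740 (nat_lit 10578) (nat_lit 8) (nat_lit 5))
    (@En.n l2364 (nat_lit 6222) (nat_lit 14) (nat_lit 7))
    (@En.i (nat_lit 11799) (nat_lit 11) (nat_lit 10))
    (@En.n l1060 (nat_lit 11472) (nat_lit 15) (nat_lit 3))))
noncomputable def a717 : T16 Cl := @T16.mk Cl
  (@Cl.mk (nat_lit 0x3000a00070004000a000d000800060003000d000600090003000d0008000c) (nat_lit 0x200755009040422) (nat_lit 16) Lb.e (@T16.mk En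
    (@En.n l3082 (nat_lit 8742) (nat_lit 0) (nat_lit 12))
    (@En.n l3439 (nat_lit 11737) (nat_lit 14) (nat_lit 8))
    (@En.n l5390 (nat_lit 9544) (nat_lit 2) (nat_lit 13))
    (@En.n l5200 (nat_lit 11468) (nat_lit 3) (nat_lit 3))
    (@En.i (nat_lit 11314) (nat_lit 0) (nat_lit 9))
    (@En.n l15227 (nat_lit 10839) (nat_lit 14) (nat_lit 6))
    (@En.n l8015 (nat_lit 11792) (nat_lit 2) (nat_lit 13))
    (@En.n l17219 (nat_lit 10619) (nat_lit 7) (nat_lit 3))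
    (@En.n l5588 (nat_lit 12326) (nat_lit 0) (nat_lit 6))
    (@En.n l39376 (nat_lit 9947) (nat_lit 5) (nat_lit 8))
    (@En.n l3866 (nat_lit 7110) (nat_lit 5) (nat_lit 13))
    (@En.n l41056 (nat_lit 11787) (nat_lit 12) (nat_lit 10))
    (@En.n l41390 (nat_lit 10848) (nat_lit 8) (nat_lit 4))
    (@En.i (nat_lit 6225) (nat_lit 14) (nat_lit 7))
    (@En.n l12290 (nat_lit 11756) (nat_lit 11) (nat_lit 10))
    (@En.n l7722 (nat_lit 11471) (nat_lit 15) (nat_lit 3))))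
  (@Cl.mk (nat_lit 0x30008000c00090009000700040008000c0008000700070004000d00090008) (nat_lit 0x231300564000846) (nat_lit 16) Lb.e (@T16.mk En
    (@En.n l29482 (nat_lit 10355) (nat_lit 0) (nat_lit 8))
    (@En.n l29483 (nat_lit 11609) (nat_lit 14) (nat_lit 9))
    (@En.n l19401 (nat_lit 11322) (nat_lit 2) (nat_lit 13))
    (@En.n l29484 (nat_lit 11474) (nat_lit 3) (nat_lit 4))
    (@En.n l2172 (nat_lit 11678) (nat_lit 9) (nat_lit 7))
    (@En.i (nat_lit 11467) (nat_lit 9) (nat_lit 7))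
    (@En.n l29485 (nat_lit 11673) (nat_lit 6) (nat_lit 8))
    (@En.n l24949 (nat_lit 7361) (nat_lit 7) (nat_lit 12))
    (@En.i (nat_lit 11704) (nat_lit 11) (nat_lit 8))
    (@En.n l14469 (nat_lit 11727) (nat_lit 9) (nat_lit 4))
    (@En.n l29486 (nat_lit 9958) (nat_lit 0) (nat_lit 7))
    (@En.n l29487 (nat_lit 11730) (nat_lit 7) (nat_lit 9))
    (@En.n l29488 (nat_lit 8820) (nat_lit 13) (nat_lit 9))
    (@En.n l29489 (nat_lit 10926) (nat_lit 7) (nat_lit 12))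
    (@En.n l28745 (nat_lit 12060) (nat_lit 4) (nat_lit 8))
    (@En.n l16563 (nat_lit 11737) (nat_lit 15) (nat_lit 3))))
  (@Cl.mk (nat_lit 0x30007000c0008000b000700040008000c0005000900080004000d00090008) (nat_lit 0x51300570320615) (nat_lit 16) Lb.e (@T16.mk En
    (@En.n l29788 (nat_lit 11458) (nat_lit 0) (nat_lit 8))
    (@En.n l29789 (nat_lit 9848) (nat_lit 14) (nat_lit 9))
    (@En.n l5377 (nat_lit 10949) (nat_lit 2) (nat_lit 13))
    (@En.n l29790 (nat_lit 11798) (nat_lit 3) (nat_lit 4))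
    (@En.n l17 (nat_lit 11470) (nat_lit 8) (nat_lit 8))
    (@En.n l29791 (nat_lit 11770) (nat_lit 5) (nat_lit 9))
    (@En.n l1992 (nat_lit 10623) (nat_lit 6) (nat_lit 5))
    (@En.n l29792 (nat_lit 4205) (nat_lit 7) (nat_lit 12))
    (@En.n l29793 (nat_lit 11939) (nat_lit 11) (nat_lit 8))
    (@En.n l29794 (nat_lit 10573) (nat_lit 9) (nat_lit 4))
    (@En.n l29795 (nat_lit 10397) (nat_lit 0) (nat_lit 7))
    (@En.n l29792 (nat_lit 11487) (nat_lit 7) (nat_lit 11))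
    (@En.n l22176 (nat_lit 5098) (nat_lit 13) (nat_lit 8))
    (@En.n l29796 (nat_lit 10917) (nat_lit 14) (nat_lit 12))
    (@En.n l29797 (nat_lit 10479) (nat_lit 12) (nat_lit 7))
    (@En.n l12433 (nat_lit 10617) (nat_lit 15) (nat_lit 3))))
  (@Cl.mk (nat_lit 0x3000c00080007000c0004000b00090004000a000800050009000d00070006) (nat_lit 0x830204306404400) (nat_lit 16) Lb.e (@T16.mk En
    (@En.n l18 (nat_lit 11174) (nat_lit 0) (nat_lit 6))
    (@En.n l18114 (nat_lit 11092) (nat_lit 6) (nat_lit 7))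
    (@En.n l33193 (nat_lit 11831) (nat_lit 6) (nat_lit 13))
    (@En.i (nat_lit 11020) (nat_lit 10) (nat_lit 9))
    (@En.n l43114 (nat_lit 10637) (nat_lit 4) (nat_lit 5))
    (@En.n l43115 (nat_lit 10710) (nat_lit 5) (nat_lit 8))
    (@En.n l43116 (nat_lit 11805) (nat_lit 1) (nat_lit 10))
    (@En.n l43117 (nat_lit 11715) (nat_lit 7) (nat_lit 4))
    (@En.n l43118 (nat_lit 10087) (nat_lit 0) (nat_lit 9))
    (@En.n l28 (nat_lit 10841) (nat_lit 10) (nat_lit 11))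
    (@En.n l43119 (nat_lit 11872) (nat_lit 10) (nat_lit 4))
    (@En.n l43120 (nat_lit 10183) (nat_lit 0) (nat_lit 12))
    (@En.n l43121 (nat_lit 11469) (nat_lit 1) (nat_lit 7))
    (@En.n l33190 (nat_lit 11673) (nat_lit 14) (nat_lit 8))
    (@En.n l43122 (nat_lit 11077) (nat_lit 3) (nat_lit 12))
    (@En.n l43123 (nat_lit 9947) (nat_lit 15) (nat_lit 3))))
  (@Cl.mk (nat_lit 0x300070007000d000b000600030009000c0005000900090004000d0007000a) (nat_lit 0xa300550320603) (nat_lit 16) Lb.e (@T16.mk En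
    (@En.n l6108 (nat_lit 9215) (nat_lit 0) (nat_lit 10))
    (@En.n l6665 (nat_lit 11477) (nat_lit 7) (nat_lit 7))
    (@En.n l2834 (nat_lit 10953) (nat_lit 2) (nat_lit 13))
    (@En.n l3928 (nat_lit 11756) (nat_lit 3) (nat_lit 4))
    (@En.n l26839 (nat_lit 11456) (nat_lit 7) (nat_lit 9))
    (@En.n l23863 (nat_lit 10546) (nat_lit 10) (nat_lit 9))
    (@En.n l3928 (nat_lit 10346) (nat_lit 6) (nat_lit 5))
    (@En.i (nat_lit 3634) (nat_lit 6) (nat_lit 12))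
    (@En.n l612 (nat_lit 11479) (nat_lit 1) (nat_lit 9))
    (@En.n l50 (nat_lit 11410) (nat_lit 9) (nat_lit 3))
    (@En.n l13132 (nat_lit 5051) (nat_lit 0) (nat_lit 6))
    (@En.n l217 (nat_lit 11399) (nat_lit 12) (nat_lit 11))
    (@En.n l899 (nat_lit 10057) (nat_lit 13) (nat_lit 13))
    (@En.n l152 (nat_lit 11419) (nat_lit 9) (nat_lit 7))
    (@En.i (nat_lit 9963) (nat_lit 4) (nat_lit 7))
    (@En.n l6665 (nat_lit 11466) (nat_lit 15) (nat_lit 3))))
  (@Cl.mk (nat_lit 0x300090008000c0006000a000a00040007000a000800060006000d000a0006) (nat_lit 0x626042002500930) (nat_lit 16) Lb.e (@T16.mk En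
    (@En.n l33667 (nat_lit 5053) (nat_lit 0) (nat_lit 6))
    (@En.n l38530 (nat_lit 11398) (nat_lit 9) (nat_lit 10))
    (@En.n l38531 (nat_lit 10052) (nat_lit 2) (nat_lit 13))
    (@En.n l1154 (nat_lit 11480) (nat_lit 10) (nat_lit 6))
    (@En.n l12811 (nat_lit 10303) (nat_lit 4) (nat_lit 6))
    (@En.i (nat_lit 11998) (nat_lit 5) (nat_lit 8))
    (@En.n l38532 (nat_lit 12193) (nat_lit 8) (nat_lit 10))
    (@En.n l9877 (nat_lit 9886) (nat_lit 11) (nat_lit 7))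
    (@En.n l16523 (nat_lit 11757) (nat_lit 8) (nat_lit 4))
    (@En.n l8772 (nat_lit 11450) (nat_lit 6) (nat_lit 10))
    (@En.i (nat_lit 10547) (nat_lit 1) (nat_lit 10))
    (@En.n l38533 (nat_lit 11080) (nat_lit 12) (nat_lit 6))
    (@En.n l38534 (nat_lit 11476) (nat_lit 7) (nat_lit 12))
    (@En.n l61 (nat_lit 11466) (nat_lit 8) (nat_lit 8))
    (@En.n l38535 (nat_lit 11478) (nat_lit 5) (nat_lit 9))
    (@En.n l16527 (nat_lit 11414) (nat_lit 15) (nat_lit 3))))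
  (@Cl.mk (nat_lit 0x40007000b000a0009000700070005000b000600090007000c000500090009) (nat_lit 0x43400040504047) (nat_lit 16) Lb.e (@T16.mk En
    (@En.n l36255 (nat_lit 11451) (nat_lit 7) (nat_lit 9))
    (@En.n l36256 (nat_lit 11949) (nat_lit 1) (nat_lit 9))
    (@En.n l2496 (nat_lit 11079) (nat_lit 15) (nat_lit 5))
    (@En.n l2894 (nat_lit 11479) (nat_lit 0) (nat_lit 12))
    (@En.i (nat_lit 10353) (nat_lit 1) (nat_lit 7))
    (@En.n l9143 (nat_lit 12294) (nat_lit 9) (nat_lit 9))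
    (@En.n l20048 (nat_lit 5054) (nat_lit 6) (nat_lit 6))
    (@En.n l7 (nat_lit 11400) (nat_lit 8) (nat_lit 11))
    (@En.n l14431 (nat_lit 10640) (nat_lit 8) (nat_lit 5))
    (@En.n l36257 (nat_lit 11481) (nat_lit 9) (nat_lit 7))
    (@En.n l35693 (nat_lit 10302) (nat_lit 9) (nat_lit 7))
    (@En.n l36256 (nat_lit 12160) (nat_lit 7) (nat_lit 9))
    (@En.n l36258 (nat_lit 11477) (nat_lit 6) (nat_lit 10))
    (@En.n l36259 (nat_lit 11298) (nat_lit 8) (nat_lit 11))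
    (@En.n l36260 (nat_lit 9887) (nat_lit 11) (nat_lit 7))
    (@En.n l3024 (nat_lit 9850) (nat_lit 15) (nat_lit 4))))
  (@Cl.mk (nat_lit 0x4000800080004000c0007000b000a0004000800080005000c00060009000c) (nat_lit 0x320905403204043) (nat_lit 16) Lb.e (@T16.mk En
    (@En.i (nat_lit 10335) (nat_lit 6) (nat_lit 12))
    (@En.n l133 (nat_lit 12292) (nat_lit 9) (nat_lit 9))
    (@En.n l7 (nat_lit 5052) (nat_lit 5) (nat_lit 6))
    (@En.n l18235 (nat_lit 11401) (nat_lit 12) (nat_lit 12))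
    (@En.n l1335 (nat_lit 10642) (nat_lit 4) (nat_lit 5))
    (@En.n l152 (nat_lit 11482) (nat_lit 8) (nat_lit 8))
    (@En.i (nat_lit 10301) (nat_lit 11) (nat_lit 8))
    (@En.i (nat_lit 40) (nat_lit 7) (nat_lit 4))
    (@En.n l644 (nat_lit 11476) (nat_lit 0) (nat_lit 10))
    (@En.n l9448 (nat_lit 12006) (nat_lit 1) (nat_lit 11))
    (@En.n l1637 (nat_lit 11478) (nat_lit 14) (nat_lit 7))
    (@En.n l21682 (nat_lit 10954) (nat_lit 12) (nat_lit 12))
    (@En.n l133 (nat_lit 9849) (nat_lit 4) (nat_lit 4))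
    (@En.n l3261 (nat_lit 11458) (nat_lit 8) (nat_lit 8))
    (@En.n l9182 (nat_lit 11945) (nat_lit 11) (nat_lit 8))
    (@En.n l12332 (nat_lit 10344) (nat_lit 7) (nat_lit 4))))
  (@Cl.mk (nat_lit 0x200050008000b00090006000d000a0005000300080007000b0006000e000a) (nat_lit 0x52309200604035) (nat_lit 16) Lb.e (@T16.mk En
    (@En.n l965 (nat_lit 11477) (nat_lit 10) (nat_lit 10))
    (@En.n l16617 (nat_lit 11484) (nat_lit 1) (nat_lit 14))
    (@En.n l16617 (nat_lit 11082) (nat_lit 2) (nat_lit 6))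
    (@En.n l10436 (nat_lit 11419) (nat_lit 3) (nat_lit 11))
    (@En.n l10186 (nat_lit 11487) (nat_lit 4) (nat_lit 7))
    (@En.n l343 (nat_lit 11481) (nat_lit 5) (nat_lit 8))
    (@En.n l10472 (nat_lit 11415) (nat_lit 6) (nat_lit 3))
    (@En.i (nat_lit 5060) (nat_lit 7) (nat_lit 5))
    (@En.n l23879 (nat_lit 11492) (nat_lit 9) (nat_lit 10))
    (@En.n l10441 (nat_lit 8911) (nat_lit 10) (nat_lit 13))
    (@En.n l6771 (nat_lit 7623) (nat_lit 11) (nat_lit 6))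
    (@En.i (nat_lit 12292) (nat_lit 12) (nat_lit 9))
    (@En.n l313 (nat_lit 5679) (nat_lit 13) (nat_lit 11))
    (@En.i (nat_lit 9888) (nat_lit 10) (nat_lit 8))
    (@En.n l6771 (nat_lit 11732) (nat_lit 13) (nat_lit 5))
    (@En.n l3 (nat_lit 11480) (nat_lit 15) (nat_lit 2))))
  (@Cl.mk (nat_lit 0x200050008000c000b000a00070004000b000500080006000b0005000e0009) (nat_lit 0x55340030506035) (nat_lit 16) Lb.e (@T16.mk En
    (@En.n l2150 (nat_lit 11478) (nat_lit 1) (nat_lit 9))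
    (@En.n l21849 (nat_lit 11483) (nat_lit 1) (nat_lit 14))
    (@En.n l9064 (nat_lit 11081) (nat_lit 2) (nat_lit 5))
    (@En.n l10436 (nat_lit 11482) (nat_lit 3) (nat_lit 11))
    (@En.n l10436 (nat_lit 10354) (nat_lit 4) (nat_lit 6))
    (@En.n l33267 (nat_lit 12299) (nat_lit 5) (nat_lit 8))
    (@En.n l11 (nat_lit 5057) (nat_lit 6) (nat_lit 5))
    (@En.n l287 (nat_lit 11494) (nat_lit 8) (nat_lit 11))
    (@En.n l11 (nat_lit 12079) (nat_lit 8) (nat_lit 4))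
    (@En.n l6771 (nat_lit 7622) (nat_lit 10) (nat_lit 7))
    (@En.n l77 (nat_lit 12179) (nat_lit 11) (nat_lit 10))
    (@En.n l55 (nat_lit 11480) (nat_lit 12) (nat_lit 11))
    (@En.n l33268 (nat_lit 12792) (nat_lit 13) (nat_lit 12))
    (@En.i (nat_lit 9890) (nat_lit 10) (nat_lit 8))
    (@En.n l6771 (nat_lit 10756) (nat_lit 13) (nat_lit 5))
    (@En.n l3 (nat_lit 11481) (nat_lit 15) (nat_lit 2))))
  (@Cl.mk (nat_lit 0x20005000c0008000c000b000400080004000c00050008000b0004000e0008) (nat_lit 0x66630103035084) (nat_lit 16) Lb.e (@T16.mk En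
    (@En.i (nat_lit 11479) (nat_lit 14) (nat_lit 8))
    (@En.i (nat_lit 11485) (nat_lit 1) (nat_lit 14))
    (@En.i (nat_lit 10343) (nat_lit 2) (nat_lit 4))
    (@En.i (nat_lit 10339) (nat_lit 3) (nat_lit 11))
    (@En.i (nat_lit 12296) (nat_lit 10) (nat_lit 8))
    (@En.n l7 (nat_lit 5058) (nat_lit 5) (nat_lit 5))
    (@En.n l564 (nat_lit 11493) (nat_lit 7) (nat_lit 12))
    (@En.n l7 (nat_lit 12081) (nat_lit 7) (nat_lit 4))
    (@En.i (nat_lit 7616) (nat_lit 9) (nat_lit 8))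
    (@En.i (nat_lit 11699) (nat_lit 9) (nat_lit 4))
    (@En.n l644 (nat_lit 11419) (nat_lit 11) (nat_lit 11))
    (@En.n l13544 (nat_lit 12235) (nat_lit 12) (nat_lit 12))
    (@En.n l430 (nat_lit 11481) (nat_lit 13) (nat_lit 8))
    (@En.i (nat_lit 11317) (nat_lit 14) (nat_lit 12))
    (@En.i (nat_lit 10754) (nat_lit 13) (nat_lit 5))
    (@En.n l3 (nat_lit 11482) (nat_lit 15) (nat_lit 2))))
  (@Cl.mk (nat_lit 0x2000800050008000c000b000a000800040008000500080006000b000e0008) (nat_lit 0x302a75101030424) (nat_lit 16) Lb.e (@T16.mk En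
    (@En.n l6981 (nat_lit 10523) (nat_lit 2) (nat_lit 8))
    (@En.i (nat_lit 7718) (nat_lit 4) (nat_lit 14))
    (@En.n l33691 (nat_lit 11485) (nat_lit 2) (nat_lit 11))
    (@En.n l50 (nat_lit 11489) (nat_lit 3) (nat_lit 6))
    (@En.n l11 (nat_lit 11571) (nat_lit 4) (nat_lit 8))
    (@En.i (nat_lit 5075) (nat_lit 5) (nat_lit 5))
    (@En.n l6981 (nat_lit 5171) (nat_lit 6) (nat_lit 8))
    (@En.n l29377 (nat_lit 12080) (nat_lit 7) (nat_lit 4))
    (@En.n l9762 (nat_lit 8253) (nat_lit 0) (nat_lit 8))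
    (@En.n l134 (nat_lit 12178) (nat_lit 10) (nat_lit 10))
    (@En.n l8323 (nat_lit 11484) (nat_lit 11) (nat_lit 11))
    (@En.n l19776 (nat_lit 12793) (nat_lit 12) (nat_lit 12))
    (@En.n l781 (nat_lit 3952) (nat_lit 13) (nat_lit 8))
    (@En.n l33487 (nat_lit 11481) (nat_lit 14) (nat_lit 5))
    (@En.n l31123 (nat_lit 11943) (nat_lit 0) (nat_lit 8))
    (@En.n l17 (nat_lit 11483) (nat_lit 15) (nat_lit 2))))
  (@Cl.mk (nat_lit 0x2000900050008000b00090007000d00070005000300080007000b000e0009) (nat_lit 0x302640200040724) (nat_lit 16) Lb.e (@T16.mk En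
    (@En.n l33327 (nat_lit 10520) (nat_lit 11) (nat_lit 9))
    (@En.i (nat_lit 7717) (nat_lit 4) (nat_lit 14))
    (@En.n l18543 (nat_lit 11486) (nat_lit 2) (nat_lit 11))
    (@En.n l6752 (nat_lit 11488) (nat_lit 3) (nat_lit 7))
    (@En.n l6751 (nat_lit 11483) (nat_lit 4) (nat_lit 8))
    (@En.n l9937 (nat_lit 11418) (nat_lit 5) (nat_lit 3))
    (@En.n l11 (nat_lit 5076) (nat_lit 0) (nat_lit 5))
    (@En.n l33328 (nat_lit 5165) (nat_lit 7) (nat_lit 7))
    (@En.i (nat_lit 8906) (nat_lit 9) (nat_lit 13))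
    (@En.n l16078 (nat_lit 8254) (nat_lit 3) (nat_lit 7))
    (@En.n l33329 (nat_lit 12291) (nat_lit 11) (nat_lit 9))
    (@En.i (nat_lit 12282) (nat_lit 7) (nat_lit 11))
    (@En.n l3447 (nat_lit 3951) (nat_lit 13) (nat_lit 8))
    (@En.n l17724 (nat_lit 11480) (nat_lit 14) (nat_lit 5))
    (@En.n l31337 (nat_lit 10842) (nat_lit 0) (nat_lit 9))
    (@En.n l17 (nat_lit 11484) (nat_lit 15) (nat_lit 2))))
  (@Cl.mk (nat_lit 0x200070005000c0008000c000b000400090004000900050008000b000e0007) (nat_lit 0x8373020103370) (nat_lit 16) Lb.e (@T16.mk En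
    (@En.n l5646 (nat_lit 10522) (nat_lit 7) (nat_lit 7))
    (@En.n l7264 (nat_lit 9925) (nat_lit 4) (nat_lit 14))
    (@En.i (nat_lit 10340) (nat_lit 2) (nat_lit 11))
    (@En.n l7828 (nat_lit 11573) (nat_lit 10) (nat_lit 8))
    (@En.n l9756 (nat_lit 7576) (nat_lit 4) (nat_lit 5))
    (@En.n l3858 (nat_lit 5166) (nat_lit 5) (nat_lit 9))
    (@En.n l7 (nat_lit 12082) (nat_lit 6) (nat_lit 4))
    (@En.i (nat_lit 12149) (nat_lit 0) (nat_lit 9))
    (@En.n l9756 (nat_lit 11697) (nat_lit 8) (nat_lit 4))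
    (@En.n l644 (nat_lit 11486) (nat_lit 10) (nat_lit 11))
    (@En.n l11003 (nat_lit 12234) (nat_lit 11) (nat_lit 12))
    (@En.n l25821 (nat_lit 11483) (nat_lit 12) (nat_lit 8))
    (@En.n l33437 (nat_lit 5438) (nat_lit 13) (nat_lit 12))
    (@En.n l17 (nat_lit 11482) (nat_lit 14) (nat_lit 5))
    (@En.i (nat_lit 11942) (nat_lit 5) (nat_lit 7))
    (@En.n l3 (nat_lit 11485) (nat_lit 15) (nat_lit 2))))
  (@Cl.mk (nat_lit 0x200080005000d0008000b00030008000d0008000500030008000b000e0008) (nat_lit 0x309320621004683) (nat_lit 16) Lb.e (@T16.mk En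
    (@En.n l24652 (nat_lit 10519) (nat_lit 6) (nat_lit 8))
    (@En.n l11003 (nat_lit 9926) (nat_lit 4) (nat_lit 14))
    (@En.i (nat_lit 5543) (nat_lit 2) (nat_lit 11))
    (@En.n l612 (nat_lit 11485) (nat_lit 3) (nat_lit 8))
    (@En.n l50 (nat_lit 11416) (nat_lit 4) (nat_lit 3))
    (@En.n l11003 (nat_lit 7580) (nat_lit 0) (nat_lit 5))
    (@En.i (nat_lit 5164) (nat_lit 6) (nat_lit 8))
    (@En.n l11003 (nat_lit 8907) (nat_lit 8) (nat_lit 13))
    (@En.n l3327 (nat_lit 12150) (nat_lit 3) (nat_lit 8))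
    (@En.n l6666 (nat_lit 11488) (nat_lit 9) (nat_lit 3))
    (@En.n l11003 (nat_lit 5620) (nat_lit 0) (nat_lit 11))
    (@En.n l17182 (nat_lit 11484) (nat_lit 12) (nat_lit 8))
    (@En.n l13134 (nat_lit 5439) (nat_lit 13) (nat_lit 13))
    (@En.n l17 (nat_lit 11419) (nat_lit 14) (nat_lit 5))
    (@En.i (nat_lit 10617) (nat_lit 4) (nat_lit 8))
    (@En.n l3 (nat_lit 11486) (nat_lit 15) (nat_lit 2))))
  (@Cl.mk (nat_lit 0x20005000d000a000900030007000d000b000600030007000b0005000e0009) (nat_lit 0xa8700a200040b4) (nat_lit 16) Lb.e (@T16.mk En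
    (@En.n l6665 (nat_lit 11466) (nat_lit 5) (nat_lit 9))
    (@En.n l6666 (nat_lit 11488) (nat_lit 1) (nat_lit 14))
    (@En.n l2265 (nat_lit 10351) (nat_lit 2) (nat_lit 5))
    (@En.i (nat_lit 5540) (nat_lit 3) (nat_lit 11))
    (@En.n l612 (nat_lit 11699) (nat_lit 4) (nat_lit 7))
    (@En.n l50 (nat_lit 11413) (nat_lit 5) (nat_lit 3))
    (@En.n l6667 (nat_lit 10093) (nat_lit 6) (nat_lit 6))
    (@En.n l6668 (nat_lit 11490) (nat_lit 8) (nat_lit 11))
    (@En.n l3815 (nat_lit 8912) (nat_lit 9) (nat_lit 13))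
    (@En.n l810 (nat_lit 12431) (nat_lit 10) (nat_lit 7))
    (@En.n l28 (nat_lit 11419) (nat_lit 10) (nat_lit 3))
    (@En.n l344 (nat_lit 12307) (nat_lit 12) (nat_lit 9))
    (@En.n l6669 (nat_lit 12187) (nat_lit 13) (nat_lit 10))
    (@En.n l6670 (nat_lit 11587) (nat_lit 14) (nat_lit 13))
    (@En.i (nat_lit 11729) (nat_lit 13) (nat_lit 5))
    (@En.n l3 (nat_lit 11487) (nat_lit 15) (nat_lit 2))))
noncomputable def a718 : T16 Cl := @T16.mk Cl
  (@Cl.mk (nat_lit 0x200080005000d000a000900030008000d0008000600030007000b000e0008) (nat_lit 0x30a3506310004a3) (nat_lit 16) Lb.e (@T16.mk En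
    (@En.n l15171 (nat_lit 10521) (nat_lit 6) (nat_lit 8))
    (@En.i (nat_lit 9928) (nat_lit 4) (nat_lit 14))
    (@En.n l15172 (nat_lit 5544) (nat_lit 2) (nat_lit 11))
    (@En.n l15173 (nat_lit 11697) (nat_lit 3) (nat_lit 7))
    (@En.n l7259 (nat_lit 11417) (nat_lit 4) (nat_lit 3))
    (@En.n l8163 (nat_lit 7581) (nat_lit 0) (nat_lit 6))
    (@En.n l15174 (nat_lit 5163) (nat_lit 6) (nat_lit 8))
    (@En.i (nat_lit 8908) (nat_lit 8) (nat_lit 13))
    (@En.n l15175 (nat_lit 12429) (nat_lit 3) (nat_lit 8))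
    (@En.n l15176 (nat_lit 11486) (nat_lit 9) (nat_lit 3))
    (@En.n l7212 (nat_lit 12309) (nat_lit 0) (nat_lit 9))
    (@En.n l5399 (nat_lit 12188) (nat_lit 12) (nat_lit 10))
    (@En.n l781 (nat_lit 6385) (nat_lit 13) (nat_lit 13))
    (@En.n l15177 (nat_lit 11487) (nat_lit 14) (nat_lit 5))
    (@En.n l15178 (nat_lit 11474) (nat_lit 4) (nat_lit 8))
    (@En.n l17 (nat_lit 11488) (nat_lit 15) (nat_lit 2))))
  (@Cl.mk (nat_lit 0x200070005000c000b000a000a000400090005000900060006000b000e0007) (nat_lit 0xa9440401002b0) (nat_lit 16) Lb.e (@T16.mk En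
    (@En.n l3098 (nat_lit 12093) (nat_lit 7) (nat_lit 7))
    (@En.i (nat_lit 9932) (nat_lit 4) (nat_lit 14))
    (@En.n l25056 (nat_lit 11128) (nat_lit 2) (nat_lit 11))
    (@En.n l8627 (nat_lit 12102) (nat_lit 10) (nat_lit 6))
    (@En.n l19999 (nat_lit 7579) (nat_lit 4) (nat_lit 6))
    (@En.n l8629 (nat_lit 5175) (nat_lit 5) (nat_lit 9))
    (@En.n l8630 (nat_lit 12083) (nat_lit 6) (nat_lit 5))
    (@En.n l11620 (nat_lit 11807) (nat_lit 8) (nat_lit 9))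
    (@En.n l25057 (nat_lit 11485) (nat_lit 8) (nat_lit 4))
    (@En.n l1415 (nat_lit 11691) (nat_lit 10) (nat_lit 10))
    (@En.n l7084 (nat_lit 11488) (nat_lit 11) (nat_lit 10))
    (@En.n l25058 (nat_lit 11687) (nat_lit 12) (nat_lit 11))
    (@En.n l781 (nat_lit 6010) (nat_lit 13) (nat_lit 12))
    (@En.n l21890 (nat_lit 10354) (nat_lit 14) (nat_lit 5))
    (@En.n l25059 (nat_lit 11940) (nat_lit 5) (nat_lit 7))
    (@En.n l17 (nat_lit 11489) (nat_lit 15) (nat_lit 2))))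
  (@Cl.mk (nat_lit 0x20006000d000b000a00030007000b0005000c0006000a00050004000e0009) (nat_lit 0xa78001070400b5) (nat_lit 16) Lb.e (@T16.mk En
    (@En.n l644 (nat_lit 11402) (nat_lit 5) (nat_lit 9))
    (@En.n l1723 (nat_lit 5162) (nat_lit 1) (nat_lit 14))
    (@En.n l16496 (nat_lit 11413) (nat_lit 2) (nat_lit 4))
    (@En.n l61 (nat_lit 11591) (nat_lit 3) (nat_lit 5))
    (@En.n l16497 (nat_lit 5548) (nat_lit 4) (nat_lit 10))
    (@En.n l16498 (nat_lit 11428) (nat_lit 5) (nat_lit 6))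
    (@En.n l10971 (nat_lit 11007) (nat_lit 7) (nat_lit 12))
    (@En.n l61 (nat_lit 10347) (nat_lit 7) (nat_lit 5))
    (@En.i (nat_lit 2942) (nat_lit 9) (nat_lit 11))
    (@En.n l9943 (nat_lit 12456) (nat_lit 10) (nat_lit 7))
    (@En.n l16499 (nat_lit 11491) (nat_lit 10) (nat_lit 3))
    (@En.n l10858 (nat_lit 11503) (nat_lit 0) (nat_lit 10))
    (@En.n l16497 (nat_lit 8562) (nat_lit 13) (nat_lit 11))
    (@En.n l8766 (nat_lit 10912) (nat_lit 14) (nat_lit 13))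
    (@En.n l6042 (nat_lit 8785) (nat_lit 3) (nat_lit 6))
    (@En.n l50 (nat_lit 11490) (nat_lit 15) (nat_lit 2))))
  (@Cl.mk (nat_lit 0x20006000d0009000c00030007000b0004000c0007000a00050004000e0009) (nat_lit 0x97700106040015) (nat_lit 16) Lb.e (@T16.mk En
    (@En.i (nat_lit 11399) (nat_lit 5) (nat_lit 9))
    (@En.i (nat_lit 5102) (nat_lit 1) (nat_lit 14))
    (@En.n l18 (nat_lit 11412) (nat_lit 2) (nat_lit 4))
    (@En.n l16500 (nat_lit 11589) (nat_lit 3) (nat_lit 5))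
    (@En.i (nat_lit 5547) (nat_lit 4) (nat_lit 10))
    (@En.n l61 (nat_lit 11493) (nat_lit 5) (nat_lit 7))
    (@En.n l3749 (nat_lit 11030) (nat_lit 7) (nat_lit 12))
    (@En.i (nat_lit 10342) (nat_lit 7) (nat_lit 4))
    (@En.n l2544 (nat_lit 2939) (nat_lit 9) (nat_lit 11))
    (@En.n l3348 (nat_lit 6225) (nat_lit 10) (nat_lit 7))
    (@En.n l7451 (nat_lit 11490) (nat_lit 10) (nat_lit 3))
    (@En.n l2199 (nat_lit 9212) (nat_lit 0) (nat_lit 12))
    (@En.i (nat_lit 11492) (nat_lit 13) (nat_lit 9))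
    (@En.n l16871 (nat_lit 10908) (nat_lit 14) (nat_lit 13))
    (@En.i (nat_lit 9072) (nat_lit 3) (nat_lit 6))
    (@En.n l3 (nat_lit 11491) (nat_lit 15) (nat_lit 2))))
  (@Cl.mk (nat_lit 0x200060009000c000a0006000a0004000b00070006000a00060005000e000a) (nat_lit 0x62501030050016) (nat_lit 16) Lb.e (@T16.mk En
    (@En.i (nat_lit 11398) (nat_lit 1) (nat_lit 10))
    (@En.n l4862 (nat_lit 2892) (nat_lit 1) (nat_lit 14))
    (@En.n l18 (nat_lit 11415) (nat_lit 2) (nat_lit 5))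
    (@En.n l16500 (nat_lit 11593) (nat_lit 3) (nat_lit 6))
    (@En.n l11 (nat_lit 11491) (nat_lit 4) (nat_lit 10))
    (@En.n l38085 (nat_lit 11490) (nat_lit 5) (nat_lit 6))
    (@En.n l38086 (nat_lit 11494) (nat_lit 6) (nat_lit 7))
    (@En.n l38087 (nat_lit 11031) (nat_lit 8) (nat_lit 11))
    (@En.n l24082 (nat_lit 4542) (nat_lit 8) (nat_lit 4))
    (@En.n l38085 (nat_lit 2940) (nat_lit 10) (nat_lit 10))
    (@En.n l3348 (nat_lit 6223) (nat_lit 11) (nat_lit 6))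
    (@En.n l38088 (nat_lit 11500) (nat_lit 12) (nat_lit 10))
    (@En.n l27066 (nat_lit 8556) (nat_lit 13) (nat_lit 12))
    (@En.n l20090 (nat_lit 12843) (nat_lit 9) (nat_lit 9))
    (@En.i (nat_lit 9075) (nat_lit 13) (nat_lit 6))
    (@En.n l3 (nat_lit 11492) (nat_lit 15) (nat_lit 2))))
  (@Cl.mk (nat_lit 0x20006000c00090007000c00040008000c00040007000a00040009000e0008) (nat_lit 0x97080420020615) (nat_lit 16) Lb.e (@T16.mk En
    (@En.n l5646 (nat_lit 11401) (nat_lit 6) (nat_lit 8))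
    (@En.n l2427 (nat_lit 5107) (nat_lit 1) (nat_lit 14))
    (@En.n l387 (nat_lit 8072) (nat_lit 2) (nat_lit 9))
    (@En.n l25102 (nat_lit 11590) (nat_lit 3) (nat_lit 4))
    (@En.i (nat_lit 11230) (nat_lit 4) (nat_lit 10))
    (@En.n l2373 (nat_lit 10782) (nat_lit 11) (nat_lit 7))
    (@En.n l13056 (nat_lit 4543) (nat_lit 6) (nat_lit 4))
    (@En.n l2544 (nat_lit 7275) (nat_lit 8) (nat_lit 12))
    (@En.n l13103 (nat_lit 10428) (nat_lit 1) (nat_lit 8))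
    (@En.n l18864 (nat_lit 11428) (nat_lit 9) (nat_lit 4))
    (@En.n l617 (nat_lit 11491) (nat_lit 11) (nat_lit 12))
    (@En.n l17 (nat_lit 11408) (nat_lit 12) (nat_lit 7))
    (@En.n l35936 (nat_lit 11494) (nat_lit 13) (nat_lit 9))
    (@En.n l21904 (nat_lit 10907) (nat_lit 14) (nat_lit 12))
    (@En.i (nat_lit 9070) (nat_lit 13) (nat_lit 6))
    (@En.n l3 (nat_lit 11493) (nat_lit 15) (nat_lit 2))))
  (@Cl.mk (nat_lit 0x2000600090006000c000b0007000b000400070005000a0005000a000e0009) (nat_lit 0x60340200030715) (nat_lit 16) Lb.e (@T16.mk En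
    (@En.n l42823 (nat_lit 11400) (nat_lit 1) (nat_lit 9))
    (@En.n l11637 (nat_lit 2891) (nat_lit 1) (nat_lit 14))
    (@En.n l42824 (nat_lit 8073) (nat_lit 2) (nat_lit 10))
    (@En.n l21565 (nat_lit 11594) (nat_lit 3) (nat_lit 5))
    (@En.n l38238 (nat_lit 11493) (nat_lit 4) (nat_lit 10))
    (@En.n l42825 (nat_lit 11447) (nat_lit 5) (nat_lit 5))
    (@En.n l9103 (nat_lit 10786) (nat_lit 6) (nat_lit 7))
    (@En.i (nat_lit 4541) (nat_lit 7) (nat_lit 4))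
    (@En.n l9103 (nat_lit 7276) (nat_lit 9) (nat_lit 11))
    (@En.n l24024 (nat_lit 6224) (nat_lit 1) (nat_lit 7))
    (@En.n l55 (nat_lit 11497) (nat_lit 11) (nat_lit 11))
    (@En.n l42250 (nat_lit 11492) (nat_lit 12) (nat_lit 12))
    (@En.n l17 (nat_lit 9569) (nat_lit 13) (nat_lit 6))
    (@En.i (nat_lit 12841) (nat_lit 9) (nat_lit 9))
    (@En.i (nat_lit 9073) (nat_lit 13) (nat_lit 6))
    (@En.n l3 (nat_lit 11494) (nat_lit 15) (nat_lit 2))))
  (@Cl.mk (nat_lit 0x20006000a00090007000c0007000b000600040007000a00050009000e0009) (nat_lit 0x66060600040765) (nat_lit 16) Lb.e (@T16.mk En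
    (@En.n l5646 (nat_lit 9851) (nat_lit 10) (nat_lit 9))
    (@En.i (nat_lit 6644) (nat_lit 1) (nat_lit 14))
    (@En.n l38236 (nat_lit 11931) (nat_lit 2) (nat_lit 9))
    (@En.n l38237 (nat_lit 11192) (nat_lit 3) (nat_lit 5))
    (@En.n l38238 (nat_lit 11686) (nat_lit 4) (nat_lit 10))
    (@En.n l8855 (nat_lit 1688) (nat_lit 5) (nat_lit 7))
    (@En.n l38238 (nat_lit 11493) (nat_lit 6) (nat_lit 4))
    (@En.i (nat_lit 11453) (nat_lit 7) (nat_lit 6))
    (@En.n l38237 (nat_lit 7277) (nat_lit 9) (nat_lit 11))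
    (@En.n l38239 (nat_lit 8833) (nat_lit 10) (nat_lit 7))
    (@En.n l38240 (nat_lit 8562) (nat_lit 11) (nat_lit 12))
    (@En.n l17 (nat_lit 11409) (nat_lit 12) (nat_lit 7))
    (@En.n l7 (nat_lit 11496) (nat_lit 13) (nat_lit 9))
    (@En.n l644 (nat_lit 10965) (nat_lit 14) (nat_lit 10))
    (@En.i (nat_lit 10669) (nat_lit 13) (nat_lit 6))
    (@En.n l3 (nat_lit 11495) (nat_lit 15) (nat_lit 2))))
  (@Cl.mk (nat_lit 0x2000600090006000c0006000a000d000400070003000a0006000a000e000a) (nat_lit 0x50504300050176) (nat_lit 16) Lb.e (@T16.mk En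
    (@En.n l5646 (nat_lit 10963) (nat_lit 11) (nat_lit 10))
    (@En.i (nat_lit 6642) (nat_lit 1) (nat_lit 14))
    (@En.n l1203 (nat_lit 4171) (nat_lit 2) (nat_lit 10))
    (@En.i (nat_lit 10965) (nat_lit 3) (nat_lit 6))
    (@En.i (nat_lit 11495) (nat_lit 4) (nat_lit 10))
    (@En.i (nat_lit 11497) (nat_lit 5) (nat_lit 3))
    (@En.i (nat_lit 1914) (nat_lit 6) (nat_lit 7))
    (@En.i (nat_lit 11494) (nat_lit 7) (nat_lit 4))
    (@En.i (nat_lit 12400) (nat_lit 9) (nat_lit 13))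
    (@En.n l7611 (nat_lit 7227) (nat_lit 10) (nat_lit 10))
    (@En.n l117 (nat_lit 8841) (nat_lit 11) (nat_lit 6))
    (@En.n l3337 (nat_lit 8561) (nat_lit 12) (nat_lit 12))
    (@En.n l17 (nat_lit 8003) (nat_lit 13) (nat_lit 6))
    (@En.i (nat_lit 5982) (nat_lit 9) (nat_lit 9))
    (@En.i (nat_lit 10662) (nat_lit 8) (nat_lit 6))
    (@En.n l3 (nat_lit 11496) (nat_lit 15) (nat_lit 2))))
  (@Cl.mk (nat_lit 0x20006000a0006000b0006000a000d000600050003000a0006000a000e000a) (nat_lit 0x20305200050876) (nat_lit 16) Lb.e (@T16.mk En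
    (@En.n l3247 (nat_lit 11498) (nat_lit 11) (nat_lit 10))
    (@En.n l22646 (nat_lit 6640) (nat_lit 1) (nat_lit 14))
    (@En.n l21902 (nat_lit 11933) (nat_lit 2) (nat_lit 10))
    (@En.n l21564 (nat_lit 11499) (nat_lit 3) (nat_lit 6))
    (@En.n l17092 (nat_lit 8017) (nat_lit 4) (nat_lit 10))
    (@En.n l28 (nat_lit 11496) (nat_lit 5) (nat_lit 3))
    (@En.n l7068 (nat_lit 12123) (nat_lit 6) (nat_lit 5))
    (@En.n l77 (nat_lit 11495) (nat_lit 7) (nat_lit 6))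
    (@En.i (nat_lit 12383) (nat_lit 9) (nat_lit 13))
    (@En.n l22647 (nat_lit 7224) (nat_lit 10) (nat_lit 10))
    (@En.n l22648 (nat_lit 9545) (nat_lit 11) (nat_lit 6))
    (@En.n l22649 (nat_lit 11501) (nat_lit 12) (nat_lit 11))
    (@En.n l17 (nat_lit 8001) (nat_lit 13) (nat_lit 6))
    (@En.n l6606 (nat_lit 12468) (nat_lit 14) (nat_lit 10))
    (@En.i (nat_lit 10665) (nat_lit 8) (nat_lit 6))
    (@En.n l3 (nat_lit 11497) (nat_lit 15) (nat_lit 2))))
  (@Cl.mk (nat_lit 0x3000b0006000b000a000a000500090005000a00060006000a000d00070006) (nat_lit 0x509580705005200) (nat_lit 16) Lb.e (@T16.mk En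
    (@En.n l17647 (nat_lit 12120) (nat_lit 0) (nat_lit 6))
    (@En.n l15031 (nat_lit 9851) (nat_lit 0) (nat_lit 7))
    (@En.i (nat_lit 11563) (nat_lit 5) (nat_lit 13))
    (@En.n l8638 (nat_lit 8785) (nat_lit 9) (nat_lit 10))
    (@En.n l8639 (nat_lit 11497) (nat_lit 10) (nat_lit 6))
    (@En.n l50 (nat_lit 9884) (nat_lit 5) (nat_lit 6))
    (@En.n l38225 (nat_lit 11552) (nat_lit 7) (nat_lit 10))
    (@En.n l50 (nat_lit 8000) (nat_lit 7) (nat_lit 5))
    (@En.n l8605 (nat_lit 12470) (nat_lit 10) (nat_lit 9))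
    (@En.n l38226 (nat_lit 11442) (nat_lit 9) (nat_lit 5))
    (@En.n l61 (nat_lit 11550) (nat_lit 6) (nat_lit 10))
    (@En.n l217 (nat_lit 11945) (nat_lit 6) (nat_lit 10))
    (@En.n l38227 (nat_lit 11936) (nat_lit 13) (nat_lit 11))
    (@En.n l21265 (nat_lit 10964) (nat_lit 14) (nat_lit 6))
    (@En.n l29813 (nat_lit 8009) (nat_lit 4) (nat_lit 11))
    (@En.n l3203 (nat_lit 10963) (nat_lit 15) (nat_lit 3))))
  (@Cl.mk (nat_lit 0x2000a00090006000a0006000a0006000d0007000600030006000a000e000a) (nat_lit 0x830504030000847) (nat_lit 16) Lb.e (@T16.mk En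
    (@En.n l37369 (nat_lit 10964) (nat_lit 12) (nat_lit 10))
    (@En.n l699 (nat_lit 6917) (nat_lit 1) (nat_lit 14))
    (@En.n l32636 (nat_lit 11038) (nat_lit 2) (nat_lit 10))
    (@En.n l22221 (nat_lit 6505) (nat_lit 12) (nat_lit 6))
    (@En.n l37370 (nat_lit 10965) (nat_lit 4) (nat_lit 3))
    (@En.n l11401 (nat_lit 12122) (nat_lit 0) (nat_lit 6))
    (@En.n l14256 (nat_lit 11192) (nat_lit 6) (nat_lit 7))
    (@En.n l16438 (nat_lit 11497) (nat_lit 8) (nat_lit 13))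
    (@En.n l1003 (nat_lit 6583) (nat_lit 8) (nat_lit 6))
    (@En.n l699 (nat_lit 7375) (nat_lit 10) (nat_lit 10))
    (@En.n l1738 (nat_lit 9547) (nat_lit 5) (nat_lit 6))
    (@En.n l1003 (nat_lit 11566) (nat_lit 12) (nat_lit 10))
    (@En.n l8906 (nat_lit 11156) (nat_lit 13) (nat_lit 6))
    (@En.n l11403 (nat_lit 12467) (nat_lit 14) (nat_lit 9))
    (@En.i (nat_lit 10031) (nat_lit 10) (nat_lit 10))
    (@En.n l18 (nat_lit 11499) (nat_lit 15) (nat_lit 2))))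
  (@Cl.mk (nat_lit 0x20006000a000a00050009000c000a000600060004000a00070006000e000b) (nat_lit 0x640248000600c7) (nat_lit 16) Lb.e (@T16.mk En
    (@En.n l9958 (nat_lit 11548) (nat_lit 11) (nat_lit 11))
    (@En.n l619 (nat_lit 5055) (nat_lit 1) (nat_lit 14))
    (@En.n l3526 (nat_lit 12293) (nat_lit 2) (nat_lit 6))
    (@En.n l7260 (nat_lit 11568) (nat_lit 3) (nat_lit 7))
    (@En.n l9959 (nat_lit 8007) (nat_lit 4) (nat_lit 10))
    (@En.n l8147 (nat_lit 8561) (nat_lit 5) (nat_lit 4))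
    (@En.n l7258 (nat_lit 11503) (nat_lit 10) (nat_lit 6))
    (@En.n l7456 (nat_lit 11497) (nat_lit 7) (nat_lit 6))
    (@En.i (nat_lit 11555) (nat_lit 9) (nat_lit 10))
    (@En.n l7456 (nat_lit 12760) (nat_lit 10) (nat_lit 12))
    (@En.n l7260 (nat_lit 7121) (nat_lit 11) (nat_lit 9))
    (@En.n l9907 (nat_lit 10635) (nat_lit 12) (nat_lit 5))
    (@En.n l644 (nat_lit 11570) (nat_lit 6) (nat_lit 10))
    (@En.i (nat_lit 9162) (nat_lit 14) (nat_lit 10))
    (@En.n l3528 (nat_lit 12160) (nat_lit 13) (nat_lit 6))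
    (@En.n l11 (nat_lit 11500) (nat_lit 15) (nat_lit 2))))
  (@Cl.mk (nat_lit 0x20006000b000b00050009000c00050005000c0004000a00070004000e000b) (nat_lit 0x320320020600c6) (nat_lit 16) Lb.e (@T16.mk En
    (@En.i (nat_lit 11552) (nat_lit 11) (nat_lit 11))
    (@En.n l1723 (nat_lit 7573) (nat_lit 1) (nat_lit 14))
    (@En.n l16577 (nat_lit 12084) (nat_lit 2) (nat_lit 4))
    (@En.i (nat_lit 11566) (nat_lit 3) (nat_lit 7))
    (@En.n l16578 (nat_lit 8026) (nat_lit 4) (nat_lit 10))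
    (@En.n l7247 (nat_lit 11500) (nat_lit 5) (nat_lit 4))
    (@En.n l16579 (nat_lit 4439) (nat_lit 7) (nat_lit 12))
    (@En.n l6962 (nat_lit 11502) (nat_lit 11) (nat_lit 5))
    (@En.n l16580 (nat_lit 8562) (nat_lit 8) (nat_lit 5))
    (@En.n l16581 (nat_lit 12086) (nat_lit 6) (nat_lit 12))
    (@En.i (nat_lit 7221) (nat_lit 11) (nat_lit 9))
    (@En.n l16582 (nat_lit 10573) (nat_lit 12) (nat_lit 5))
    (@En.n l16583 (nat_lit 11569) (nat_lit 13) (nat_lit 11))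
    (@En.n l16584 (nat_lit 10333) (nat_lit 14) (nat_lit 11))
    (@En.n l6042 (nat_lit 10677) (nat_lit 13) (nat_lit 6))
    (@En.n l50 (nat_lit 11501) (nat_lit 15) (nat_lit 2))))
  (@Cl.mk (nat_lit 0x20006000a000d0005000c0003000a00060004000e000a00020006000e000b) (nat_lit 0x44010500a60094) (nat_lit 16) Lb.e (@T16.mk En
    (@En.n l617 (nat_lit 11501) (nat_lit 13) (nat_lit 11))
    (@En.i (nat_lit 12568) (nat_lit 1) (nat_lit 14))
    (@En.n l387 (nat_lit 11974) (nat_lit 2) (nat_lit 6))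
    (@En.n l50 (nat_lit 11502) (nat_lit 3) (nat_lit 2))
    (@En.i (nat_lit 11536) (nat_lit 4) (nat_lit 10))
    (@En.n l1722 (nat_lit 5034) (nat_lit 1) (nat_lit 14))
    (@En.i (nat_lit 12086) (nat_lit 2) (nat_lit 4))
    (@En.n l725 (nat_lit 12400) (nat_lit 7) (nat_lit 6))
    (@En.i (nat_lit 8158) (nat_lit 4) (nat_lit 10))
    (@En.i (nat_lit 11503) (nat_lit 9) (nat_lit 3))
    (@En.i (nat_lit 3027) (nat_lit 11) (nat_lit 12))
    (@En.n l6680 (nat_lit 11490) (nat_lit 7) (nat_lit 5))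
    (@En.i (nat_lit 12567) (nat_lit 5) (nat_lit 13))
    (@En.n l617 (nat_lit 4858) (nat_lit 10) (nat_lit 10))
    (@En.i (nat_lit 12406) (nat_lit 11) (nat_lit 6))
    (@En.n l3 (nat_lit 11502) (nat_lit 15) (nat_lit 2))))
  (@Cl.mk (nat_lit 0x20006000a000d000b00060003000a00060005000e000a00020006000e000a) (nat_lit 0x33900500b500a7) (nat_lit 16) Lb.e (@T16.mk En
    (@En.n l2429 (nat_lit 11500) (nat_lit 13) (nat_lit 10))
    (@En.n l3710 (nat_lit 11750) (nat_lit 1) (nat_lit 14))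
    (@En.n l387 (nat_lit 12179) (nat_lit 2) (nat_lit 6))
    (@En.n l50 (nat_lit 11503) (nat_lit 3) (nat_lit 2))
    (@En.n l3711 (nat_lit 11533) (nat_lit 4) (nat_lit 10))
    (@En.n l1722 (nat_lit 5026) (nat_lit 6) (nat_lit 14))
    (@En.n l1227 (nat_lit 12308) (nat_lit 2) (nat_lit 5))
    (@En.n l725 (nat_lit 12382) (nat_lit 7) (nat_lit 6))
    (@En.n l3712 (nat_lit 12526) (nat_lit 4) (nat_lit 10))
    (@En.n l11 (nat_lit 11502) (nat_lit 9) (nat_lit 3))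
    (@En.n l2370 (nat_lit 12124) (nat_lit 6) (nat_lit 6))
    (@En.n l3713 (nat_lit 12760) (nat_lit 12) (nat_lit 11))
    (@En.n l2370 (nat_lit 12759) (nat_lit 13) (nat_lit 13))
    (@En.n l617 (nat_lit 4867) (nat_lit 10) (nat_lit 10))
    (@En.n l1080 (nat_lit 12413) (nat_lit 11) (nat_lit 6))
    (@En.n l3 (nat_lit 11503) (nat_lit 15) (nat_lit 2))))
noncomputable def a719 : T16 Cl := @T16.mk Cl
  (@Cl.mk (nat_lit 0x20007000b000600090006000e00050002000d000900070003000a000e000a) (nat_lit 0x4050c004400757) (nat_lit 16) Lb.e (@T16.mk En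
    (@En.n l68 (nat_lit 10873) (nat_lit 9) (nat_lit 10))
    (@En.n l12290 (nat_lit 11314) (nat_lit 1) (nat_lit 14))
    (@En.i (nat_lit 11506) (nat_lit 2) (nat_lit 10))
    (@En.i (nat_lit 11505) (nat_lit 3) (nat_lit 3))
    (@En.n l638 (nat_lit 2089) (nat_lit 0) (nat_lit 7))
    (@En.i (nat_lit 11507) (nat_lit 5) (nat_lit 9))
    (@En.i (nat_lit 9853) (nat_lit 7) (nat_lit 13))
    (@En.n l7 (nat_lit 11504) (nat_lit 7) (nat_lit 2))
    (@En.i (nat_lit 9886) (nat_lit 8) (nat_lit 5))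
    (@En.n l255 (nat_lit 11232) (nat_lit 10) (nat_lit 14))
    (@En.i (nat_lit 10875) (nat_lit 2) (nat_lit 6))
    (@En.i (nat_lit 8971) (nat_lit 12) (nat_lit 9))
    (@En.i (nat_lit 4554) (nat_lit 13) (nat_lit 6))
    (@En.i (nat_lit 8716) (nat_lit 14) (nat_lit 11))
    (@En.n l197 (nat_lit 10865) (nat_lit 6) (nat_lit 7))
    (@En.n l67 (nat_lit 11504) (nat_lit 15) (nat_lit 2))))
  (@Cl.mk (nat_lit 0x20006000b0006000a0006000e00050002000d0006000a0003000a000e000a) (nat_lit 0x40305005050754) (nat_lit 16) Lb.e (@T16.mk En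
    (@En.n l68 (nat_lit 11427) (nat_lit 9) (nat_lit 10))
    (@En.n l16541 (nat_lit 7938) (nat_lit 10) (nat_lit 14))
    (@En.n l930 (nat_lit 11652) (nat_lit 2) (nat_lit 10))
    (@En.n l18 (nat_lit 11504) (nat_lit 3) (nat_lit 3))
    (@En.n l265 (nat_lit 12384) (nat_lit 4) (nat_lit 10))
    (@En.n l61 (nat_lit 11506) (nat_lit 5) (nat_lit 6))
    (@En.i (nat_lit 9855) (nat_lit 7) (nat_lit 13))
    (@En.n l7 (nat_lit 11505) (nat_lit 7) (nat_lit 2))
    (@En.n l17689 (nat_lit 9885) (nat_lit 8) (nat_lit 5))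
    (@En.n l17690 (nat_lit 11233) (nat_lit 10) (nat_lit 14))
    (@En.i (nat_lit 10877) (nat_lit 2) (nat_lit 6))
    (@En.n l3490 (nat_lit 8081) (nat_lit 12) (nat_lit 10))
    (@En.n l2316 (nat_lit 4550) (nat_lit 13) (nat_lit 6))
    (@En.i (nat_lit 8711) (nat_lit 14) (nat_lit 11))
    (@En.n l3522 (nat_lit 9779) (nat_lit 6) (nat_lit 6))
    (@En.n l67 (nat_lit 11505) (nat_lit 15) (nat_lit 2))))
  (@Cl.mk (nat_lit 0x20006000a0006000a00090007000e000600020006000a0007000a000e0009) (nat_lit 0x40160600040647) (nat_lit 16) Lb.e (@T16.mk En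
    (@En.n l68 (nat_lit 10872) (nat_lit 10) (nat_lit 9))
    (@En.n l6781 (nat_lit 7451) (nat_lit 11) (nat_lit 14))
    (@En.i (nat_lit 11656) (nat_lit 2) (nat_lit 10))
    (@En.n l638 (nat_lit 2083) (nat_lit 13) (nat_lit 7))
    (@En.n l9189 (nat_lit 11508) (nat_lit 4) (nat_lit 10))
    (@En.n l9190 (nat_lit 12138) (nat_lit 5) (nat_lit 6))
    (@En.n l7 (nat_lit 11506) (nat_lit 6) (nat_lit 2))
    (@En.n l6785 (nat_lit 9887) (nat_lit 7) (nat_lit 6))
    (@En.n l9191 (nat_lit 11231) (nat_lit 9) (nat_lit 14))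
    (@En.i (nat_lit 12130) (nat_lit 2) (nat_lit 7))
    (@En.n l17 (nat_lit 11504) (nat_lit 11) (nat_lit 9))
    (@En.i (nat_lit 7049) (nat_lit 12) (nat_lit 10))
    (@En.i (nat_lit 4555) (nat_lit 5) (nat_lit 6))
    (@En.i (nat_lit 10974) (nat_lit 14) (nat_lit 10))
    (@En.n l3272 (nat_lit 10863) (nat_lit 7) (nat_lit 6))
    (@En.n l67 (nat_lit 11506) (nat_lit 15) (nat_lit 2))))
  (@Cl.mk (nat_lit 0x200070006000b0007000a0007000e0005000200090006000a0009000e0009) (nat_lit 0x5050900302442) (nat_lit 16) Lb.e (@T16.mk En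
    (@En.n l68 (nat_lit 11509) (nat_lit 10) (nat_lit 9))
    (@En.n l12290 (nat_lit 5747) (nat_lit 11) (nat_lit 14))
    (@En.n l9189 (nat_lit 11508) (nat_lit 2) (nat_lit 9))
    (@En.n l10945 (nat_lit 11514) (nat_lit 3) (nat_lit 10))
    (@En.n l1068 (nat_lit 5206) (nat_lit 14) (nat_lit 6))
    (@En.n l4172 (nat_lit 11274) (nat_lit 5) (nat_lit 9))
    (@En.n l7 (nat_lit 11507) (nat_lit 6) (nat_lit 2))
    (@En.i (nat_lit 9891) (nat_lit 7) (nat_lit 5))
    (@En.n l29064 (nat_lit 6871) (nat_lit 9) (nat_lit 14))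
    (@En.i (nat_lit 10879) (nat_lit 2) (nat_lit 7))
    (@En.i (nat_lit 9096) (nat_lit 11) (nat_lit 10))
    (@En.i (nat_lit 5224) (nat_lit 4) (nat_lit 7))
    (@En.i (nat_lit 9081) (nat_lit 13) (nat_lit 11))
    (@En.n l217 (nat_lit 11505) (nat_lit 14) (nat_lit 6))
    (@En.n l29065 (nat_lit 10755) (nat_lit 7) (nat_lit 7))
    (@En.n l67 (nat_lit 11507) (nat_lit 15) (nat_lit 2))))
  (@Cl.mk (nat_lit 0x20006000d000a00070003000a0008000e00060002000a00060009000e0008) (nat_lit 0x950063300303b2) (nat_lit 16) Lb.e (@T16.mk En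
    (@En.n l17094 (nat_lit 11510) (nat_lit 11) (nat_lit 8))
    (@En.i (nat_lit 5745) (nat_lit 12) (nat_lit 14))
    (@En.n l15944 (nat_lit 10100) (nat_lit 2) (nat_lit 9))
    (@En.i (nat_lit 5207) (nat_lit 14) (nat_lit 6))
    (@En.n l17095 (nat_lit 11272) (nat_lit 4) (nat_lit 10))
    (@En.n l17 (nat_lit 11508) (nat_lit 5) (nat_lit 2))
    (@En.n l11822 (nat_lit 11513) (nat_lit 6) (nat_lit 6))
    (@En.n l2576 (nat_lit 6872) (nat_lit 8) (nat_lit 14))
    (@En.n l3 (nat_lit 7888) (nat_lit 2) (nat_lit 8))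
    (@En.n l17096 (nat_lit 11507) (nat_lit 10) (nat_lit 10))
    (@En.n l50 (nat_lit 11511) (nat_lit 10) (nat_lit 3))
    (@En.n l15944 (nat_lit 5226) (nat_lit 12) (nat_lit 7))
    (@En.n l217 (nat_lit 9604) (nat_lit 13) (nat_lit 10))
    (@En.n l17097 (nat_lit 11651) (nat_lit 8) (nat_lit 13))
    (@En.n l5154 (nat_lit 7946) (nat_lit 8) (nat_lit 6))
    (@En.n l11 (nat_lit 11508) (nat_lit 15) (nat_lit 2))))
  (@Cl.mk (nat_lit 0x2000a0007000b000a0009000900060005000a0006000900070007000e0006) (nat_lit 0x302312004060090) (nat_lit 16) Lb.e (@T16.mk En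
    (@En.i (nat_lit 9330) (nat_lit 8) (nat_lit 6))
    (@En.n l134 (nat_lit 8220) (nat_lit 1) (nat_lit 14))
    (@En.n l11 (nat_lit 11507) (nat_lit 9) (nat_lit 7))
    (@En.i (nat_lit 10882) (nat_lit 3) (nat_lit 7))
    (@En.i (nat_lit 8958) (nat_lit 4) (nat_lit 9))
    (@En.n l28431 (nat_lit 5227) (nat_lit 5) (nat_lit 6))
    (@En.i (nat_lit 9079) (nat_lit 7) (nat_lit 10))
    (@En.n l217 (nat_lit 11427) (nat_lit 7) (nat_lit 5))
    (@En.n l40077 (nat_lit 10756) (nat_lit 8) (nat_lit 6))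
    (@En.n l40078 (nat_lit 12818) (nat_lit 10) (nat_lit 9))
    (@En.n l3866 (nat_lit 10910) (nat_lit 11) (nat_lit 9))
    (@En.n l20621 (nat_lit 11510) (nat_lit 12) (nat_lit 10))
    (@En.n l33383 (nat_lit 11516) (nat_lit 13) (nat_lit 11))
    (@En.n l5 (nat_lit 5205) (nat_lit 14) (nat_lit 7))
    (@En.n l4172 (nat_lit 11277) (nat_lit 5) (nat_lit 10))
    (@En.n l7 (nat_lit 11509) (nat_lit 15) (nat_lit 2))))
  (@Cl.mk (nat_lit 0x2000b0007000a000800080005000d000900060003000900080008000e0007) (nat_lit 0x302160820073440) (nat_lit 16) Lb.e (@T16.mk En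
    (@En.i (nat_lit 9329) (nat_lit 11) (nat_lit 7))
    (@En.n l619 (nat_lit 8219) (nat_lit 1) (nat_lit 14))
    (@En.n l32623 (nat_lit 11508) (nat_lit 8) (nat_lit 8))
    (@En.n l32624 (nat_lit 11728) (nat_lit 3) (nat_lit 8))
    (@En.n l17346 (nat_lit 11509) (nat_lit 4) (nat_lit 9))
    (@En.n l32625 (nat_lit 11512) (nat_lit 5) (nat_lit 3))
    (@En.i (nat_lit 5229) (nat_lit 0) (nat_lit 6))
    (@En.n l9899 (nat_lit 9080) (nat_lit 8) (nat_lit 9))
    (@En.n l8771 (nat_lit 11306) (nat_lit 9) (nat_lit 13))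
    (@En.n l32626 (nat_lit 11732) (nat_lit 9) (nat_lit 5))
    (@En.n l152 (nat_lit 12819) (nat_lit 11) (nat_lit 8))
    (@En.n l13399 (nat_lit 10914) (nat_lit 12) (nat_lit 8))
    (@En.i (nat_lit 10102) (nat_lit 8) (nat_lit 10))
    (@En.n l6068 (nat_lit 5208) (nat_lit 14) (nat_lit 7))
    (@En.n l3766 (nat_lit 11275) (nat_lit 9) (nat_lit 11))
    (@En.n l11 (nat_lit 11510) (nat_lit 15) (nat_lit 2))))
  (@Cl.mk (nat_lit 0x20006000d0006000b0003000a0008000e00050002000a0006000a000e0008) (nat_lit 0x80607250030536) (nat_lit 16) Lb.e (@T16.mk En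
    (@En.n l14025 (nat_lit 11512) (nat_lit 11) (nat_lit 8))
    (@En.i (nat_lit 8046) (nat_lit 12) (nat_lit 14))
    (@En.n l27472 (nat_lit 12118) (nat_lit 2) (nat_lit 10))
    (@En.i (nat_lit 5209) (nat_lit 14) (nat_lit 6))
    (@En.n l2125 (nat_lit 11270) (nat_lit 4) (nat_lit 10))
    (@En.n l17 (nat_lit 11511) (nat_lit 5) (nat_lit 2))
    (@En.n l3098 (nat_lit 11515) (nat_lit 6) (nat_lit 5))
    (@En.n l2576 (nat_lit 6873) (nat_lit 8) (nat_lit 14))
    (@En.n l3 (nat_lit 7890) (nat_lit 2) (nat_lit 8))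
    (@En.n l11031 (nat_lit 8969) (nat_lit 10) (nat_lit 10))
    (@En.i (nat_lit 11508) (nat_lit 10) (nat_lit 3))
    (@En.n l12335 (nat_lit 11519) (nat_lit 12) (nat_lit 11))
    (@En.n l13212 (nat_lit 11507) (nat_lit 13) (nat_lit 6))
    (@En.n l23035 (nat_lit 11650) (nat_lit 8) (nat_lit 13))
    (@En.n l5154 (nat_lit 11721) (nat_lit 8) (nat_lit 6))
    (@En.n l11 (nat_lit 11511) (nat_lit 15) (nat_lit 2))))
  (@Cl.mk (nat_lit 0x2000b0007000b000800080005000d0005000a0003000900080008000e0006) (nat_lit 0x307560703063360) (nat_lit 16) Lb.e (@T16.mk En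
    (@En.n l3098 (nat_lit 9332) (nat_lit 11) (nat_lit 6))
    (@En.n l25908 (nat_lit 8218) (nat_lit 1) (nat_lit 14))
    (@En.n l25909 (nat_lit 11511) (nat_lit 8) (nat_lit 8))
    (@En.n l25910 (nat_lit 11723) (nat_lit 3) (nat_lit 8))
    (@En.n l25911 (nat_lit 8961) (nat_lit 4) (nat_lit 9))
    (@En.n l25912 (nat_lit 11510) (nat_lit 5) (nat_lit 3))
    (@En.n l25913 (nat_lit 11520) (nat_lit 0) (nat_lit 10))
    (@En.n l25914 (nat_lit 11509) (nat_lit 7) (nat_lit 5))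
    (@En.n l25910 (nat_lit 11305) (nat_lit 9) (nat_lit 13))
    (@En.i (nat_lit 11724) (nat_lit 9) (nat_lit 5))
    (@En.n l25915 (nat_lit 12820) (nat_lit 11) (nat_lit 8))
    (@En.n l9207 (nat_lit 12095) (nat_lit 12) (nat_lit 8))
    (@En.n l25908 (nat_lit 12113) (nat_lit 13) (nat_lit 11))
    (@En.n l11303 (nat_lit 5210) (nat_lit 14) (nat_lit 7))
    (@En.n l25913 (nat_lit 11276) (nat_lit 9) (nat_lit 11))
    (@En.n l17 (nat_lit 11512) (nat_lit 15) (nat_lit 2))))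
  (@Cl.mk (nat_lit 0x20006000c000a000a00080004000b000900060006000a00050008000e0007) (nat_lit 0x436409300204b0) (nat_lit 16) Lb.e (@T16.mk En
    (@En.n l17305 (nat_lit 9329) (nat_lit 6) (nat_lit 7))
    (@En.n l420 (nat_lit 8018) (nat_lit 1) (nat_lit 14))
    (@En.n l17306 (nat_lit 11134) (nat_lit 2) (nat_lit 8))
    (@En.n l1688 (nat_lit 5275) (nat_lit 3) (nat_lit 5))
    (@En.n l420 (nat_lit 9892) (nat_lit 4) (nat_lit 10))
    (@En.n l4847 (nat_lit 12841) (nat_lit 5) (nat_lit 6))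
    (@En.n l17307 (nat_lit 9565) (nat_lit 6) (nat_lit 6))
    (@En.n l17308 (nat_lit 12470) (nat_lit 8) (nat_lit 9))
    (@En.n l17309 (nat_lit 9891) (nat_lit 9) (nat_lit 11))
    (@En.n l1553 (nat_lit 11515) (nat_lit 9) (nat_lit 4))
    (@En.n l17310 (nat_lit 9636) (nat_lit 11) (nat_lit 8))
    (@En.n l4536 (nat_lit 11508) (nat_lit 12) (nat_lit 10))
    (@En.n l12028 (nat_lit 9599) (nat_lit 13) (nat_lit 10))
    (@En.n l17310 (nat_lit 10802) (nat_lit 14) (nat_lit 12))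
    (@En.n l17311 (nat_lit 11800) (nat_lit 13) (nat_lit 6))
    (@En.n l18 (nat_lit 11513) (nat_lit 15) (nat_lit 2))))
  (@Cl.mk (nat_lit 0x200060006000d000b000800030008000e00050002000a000a0008000e0008) (nat_lit 0xa620220031536) (nat_lit 16) Lb.e (@T16.mk En
    (@En.n l6851 (nat_lit 11516) (nat_lit 11) (nat_lit 8))
    (@En.n l6852 (nat_lit 12254) (nat_lit 12) (nat_lit 14))
    (@En.n l6853 (nat_lit 10095) (nat_lit 2) (nat_lit 8))
    (@En.n l6854 (nat_lit 5957) (nat_lit 14) (nat_lit 10))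
    (@En.n l6855 (nat_lit 11380) (nat_lit 4) (nat_lit 10))
    (@En.n l17 (nat_lit 11514) (nat_lit 5) (nat_lit 2))
    (@En.n l6060 (nat_lit 11517) (nat_lit 6) (nat_lit 5))
    (@En.i (nat_lit 1164) (nat_lit 8) (nat_lit 14))
    (@En.n l6856 (nat_lit 11132) (nat_lit 2) (nat_lit 8))
    (@En.n l50 (nat_lit 5959) (nat_lit 9) (nat_lit 3))
    (@En.n l6857 (nat_lit 4890) (nat_lit 11) (nat_lit 8))
    (@En.n l6858 (nat_lit 11537) (nat_lit 12) (nat_lit 11))
    (@En.n l6859 (nat_lit 11508) (nat_lit 13) (nat_lit 13))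
    (@En.n l6860 (nat_lit 12384) (nat_lit 14) (nat_lit 6))
    (@En.n l6861 (nat_lit 12365) (nat_lit 8) (nat_lit 6))
    (@En.n l3 (nat_lit 11514) (nat_lit 15) (nat_lit 2))))
  (@Cl.mk (nat_lit 0x20006000c0006000b000b0004000b000900050005000a0005000a000e0007) (nat_lit 0x50470820020440) (nat_lit 16) Lb.e (@T16.mk En
    (@En.n l11512 (nat_lit 9332) (nat_lit 6) (nat_lit 7))
    (@En.i (nat_lit 8019) (nat_lit 1) (nat_lit 14))
    (@En.n l29461 (nat_lit 12119) (nat_lit 2) (nat_lit 10))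
    (@En.i (nat_lit 5278) (nat_lit 3) (nat_lit 5))
    (@En.n l4817 (nat_lit 11267) (nat_lit 4) (nat_lit 10))
    (@En.n l152 (nat_lit 12842) (nat_lit 11) (nat_lit 5))
    (@En.n l17597 (nat_lit 9567) (nat_lit 6) (nat_lit 5))
    (@En.n l870 (nat_lit 12462) (nat_lit 8) (nat_lit 9))
    (@En.n l617 (nat_lit 9097) (nat_lit 9) (nat_lit 11))
    (@En.n l2125 (nat_lit 9612) (nat_lit 9) (nat_lit 4))
    (@En.n l3536 (nat_lit 11511) (nat_lit 11) (nat_lit 11))
    (@En.n l4817 (nat_lit 9613) (nat_lit 12) (nat_lit 11))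
    (@En.n l24508 (nat_lit 9891) (nat_lit 13) (nat_lit 6))
    (@En.n l20909 (nat_lit 11653) (nat_lit 14) (nat_lit 12))
    (@En.n l5934 (nat_lit 11717) (nat_lit 13) (nat_lit 6))
    (@En.n l7 (nat_lit 11515) (nat_lit 15) (nat_lit 2))))
  (@Cl.mk (nat_lit 0x2000b000b00090008000800050005000d000a0007000300080008000e0006) (nat_lit 0x315520093002330) (nat_lit 16) Lb.e (@T16.mk En
    (@En.i (nat_lit 10282) (nat_lit 12) (nat_lit 6))
    (@En.n l2639 (nat_lit 2411) (nat_lit 1) (nat_lit 14))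
    (@En.n l2639 (nat_lit 11514) (nat_lit 8) (nat_lit 8))
    (@En.n l7138 (nat_lit 10131) (nat_lit 3) (nat_lit 8))
    (@En.n l7139 (nat_lit 5953) (nat_lit 4) (nat_lit 3))
    (@En.n l2438 (nat_lit 4889) (nat_lit 0) (nat_lit 7))
    (@En.n l17080 (nat_lit 11562) (nat_lit 7) (nat_lit 10))
    (@En.n l4108 (nat_lit 11510) (nat_lit 8) (nat_lit 13))
    (@En.n l152 (nat_lit 12389) (nat_lit 11) (nat_lit 5))
    (@En.n l17081 (nat_lit 12360) (nat_lit 9) (nat_lit 5))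
    (@En.n l644 (nat_lit 12390) (nat_lit 11) (nat_lit 8))
    (@En.i (nat_lit 12803) (nat_lit 12) (nat_lit 8))
    (@En.n l4684 (nat_lit 10094) (nat_lit 13) (nat_lit 9))
    (@En.n l10815 (nat_lit 5954) (nat_lit 14) (nat_lit 11))
    (@En.i (nat_lit 11286) (nat_lit 10) (nat_lit 11))
    (@En.n l17 (nat_lit 11516) (nat_lit 15) (nat_lit 2))))
  (@Cl.mk (nat_lit 0x200060006000c000b000b00090004000900050005000a000a0007000e0007) (nat_lit 0x5673020026040) (nat_lit 16) Lb.e (@T16.mk En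
    (@En.n l6946 (nat_lit 10282) (nat_lit 7) (nat_lit 7))
    (@En.n l6947 (nat_lit 12257) (nat_lit 1) (nat_lit 14))
    (@En.n l1055 (nat_lit 10097) (nat_lit 2) (nat_lit 7))
    (@En.n l6948 (nat_lit 12342) (nat_lit 6) (nat_lit 10))
    (@En.n l6949 (nat_lit 11303) (nat_lit 4) (nat_lit 10))
    (@En.n l6950 (nat_lit 12375) (nat_lit 5) (nat_lit 5))
    (@En.n l6951 (nat_lit 11556) (nat_lit 6) (nat_lit 5))
    (@En.n l947 (nat_lit 10338) (nat_lit 8) (nat_lit 9))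
    (@En.n l6952 (nat_lit 12372) (nat_lit 8) (nat_lit 4))
    (@En.n l6953 (nat_lit 9639) (nat_lit 10) (nat_lit 9))
    (@En.n l6954 (nat_lit 11514) (nat_lit 11) (nat_lit 11))
    (@En.n l6955 (nat_lit 12313) (nat_lit 12) (nat_lit 11))
    (@En.n l6956 (nat_lit 11513) (nat_lit 13) (nat_lit 12))
    (@En.n l6957 (nat_lit 12379) (nat_lit 14) (nat_lit 6))
    (@En.n l6955 (nat_lit 11806) (nat_lit 13) (nat_lit 6))
    (@En.n l7 (nat_lit 11517) (nat_lit 15) (nat_lit 2))))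
  (@Cl.mk (nat_lit 0x20006000e000a000200090007000d000b00060003000a00070005000e0009) (nat_lit 0xa5060460040096) (nat_lit 16) Lb.e (@T16.mk En
    (@En.n l7005 (nat_lit 11521) (nat_lit 4) (nat_lit 9))
    (@En.n l7006 (nat_lit 6908) (nat_lit 1) (nat_lit 14))
    (@En.n l7007 (nat_lit 7183) (nat_lit 2) (nat_lit 5))
    (@En.n l7008 (nat_lit 6701) (nat_lit 7) (nat_lit 7))
    (@En.i (nat_lit 9838) (nat_lit 4) (nat_lit 10))
    (@En.n l7009 (nat_lit 11519) (nat_lit 5) (nat_lit 3))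
    (@En.n l7006 (nat_lit 11508) (nat_lit 6) (nat_lit 6))
    (@En.n l7008 (nat_lit 9504) (nat_lit 8) (nat_lit 11))
    (@En.n l7010 (nat_lit 2310) (nat_lit 9) (nat_lit 13))
    (@En.n l7011 (nat_lit 8626) (nat_lit 14) (nat_lit 7))
    (@En.n l3491 (nat_lit 9868) (nat_lit 11) (nat_lit 9))
    (@En.n l7 (nat_lit 11518) (nat_lit 11) (nat_lit 2))
    (@En.n l7012 (nat_lit 9384) (nat_lit 13) (nat_lit 10))
    (@En.n l7013 (nat_lit 11356) (nat_lit 1) (nat_lit 14))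
    (@En.n l3517 (nat_lit 8629) (nat_lit 2) (nat_lit 6))
    (@En.n l67 (nat_lit 11518) (nat_lit 15) (nat_lit 2))))
  (@Cl.mk (nat_lit 0x20006000e000b000200090007000d0005000c0003000a00070004000e0009) (nat_lit 0x85070608040037) (nat_lit 16) Lb.e (@T16.mk En
    (@En.i (nat_lit 11520) (nat_lit 4) (nat_lit 9))
    (@En.n l7678 (nat_lit 6907) (nat_lit 1) (nat_lit 14))
    (@En.n l9683 (nat_lit 9519) (nat_lit 2) (nat_lit 4))
    (@En.n l17037 (nat_lit 6697) (nat_lit 7) (nat_lit 7))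
    (@En.n l1459 (nat_lit 7150) (nat_lit 4) (nat_lit 10))
    (@En.n l12219 (nat_lit 11518) (nat_lit 5) (nat_lit 3))
    (@En.n l5556 (nat_lit 9210) (nat_lit 7) (nat_lit 12))
    (@En.n l1459 (nat_lit 9613) (nat_lit 7) (nat_lit 5))
    (@En.n l3297 (nat_lit 2309) (nat_lit 9) (nat_lit 13))
    (@En.i (nat_lit 8610) (nat_lit 14) (nat_lit 7))
    (@En.n l763 (nat_lit 9869) (nat_lit 11) (nat_lit 9))
    (@En.n l3 (nat_lit 11519) (nat_lit 11) (nat_lit 2))
    (@En.n l17038 (nat_lit 9388) (nat_lit 13) (nat_lit 11))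
    (@En.n l5694 (nat_lit 12543) (nat_lit 1) (nat_lit 14))
    (@En.n l612 (nat_lit 11522) (nat_lit 2) (nat_lit 6))
    (@En.n l50 (nat_lit 11519) (nat_lit 15) (nat_lit 2))))
noncomputable def a720 : T16 Cl := @T16.mk Cl
  (@Cl.mk (nat_lit 0x2000800070007000d0006000c0003000b00080004000900090005000e000a) (nat_lit 0x500509043061072) (nat_lit 16) Lb.e (@T16.mk En
    (@En.n l32567 (nat_lit 9387) (nat_lit 11) (nat_lit 10))
    (@En.n l5694 (nat_lit 11354) (nat_lit 1) (nat_lit 14))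
    (@En.n l32568 (nat_lit 11523) (nat_lit 2) (nat_lit 5))
    (@En.n l32569 (nat_lit 6724) (nat_lit 3) (nat_lit 9))
    (@En.n l32570 (nat_lit 12319) (nat_lit 4) (nat_lit 9))
    (@En.n l9850 (nat_lit 9351) (nat_lit 5) (nat_lit 4))
    (@En.n l617 (nat_lit 6698) (nat_lit 6) (nat_lit 8))
    (@En.i (nat_lit 6196) (nat_lit 8) (nat_lit 11))
    (@En.n l25922 (nat_lit 11521) (nat_lit 8) (nat_lit 3))
    (@En.n l22011 (nat_lit 8194) (nat_lit 10) (nat_lit 12))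
    (@En.n l6680 (nat_lit 9918) (nat_lit 11) (nat_lit 6))
    (@En.n l32571 (nat_lit 8442) (nat_lit 12) (nat_lit 13))
    (@En.n l644 (nat_lit 11519) (nat_lit 9) (nat_lit 7))
    (@En.i (nat_lit 11524) (nat_lit 14) (nat_lit 7))
    (@En.n l17394 (nat_lit 9359) (nat_lit 5) (nat_lit 8))
    (@En.n l3 (nat_lit 11520) (nat_lit 15) (nat_lit 2))))
  (@Cl.mk (nat_lit 0x2000800070007000d000b00070003000b00080005000900090005000e0009) (nat_lit 0x600470044051092) (nat_lit 16) Lb.e (@T16.mk En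
    (@En.n l8523 (nat_lit 9378) (nat_lit 8) (nat_lit 9))
    (@En.n l396 (nat_lit 11353) (nat_lit 1) (nat_lit 14))
    (@En.n l476 (nat_lit 11530) (nat_lit 2) (nat_lit 5))
    (@En.n l152 (nat_lit 6723) (nat_lit 3) (nat_lit 9))
    (@En.n l8523 (nat_lit 12315) (nat_lit 4) (nat_lit 9))
    (@En.i (nat_lit 5354) (nat_lit 5) (nat_lit 5))
    (@En.n l4869 (nat_lit 6700) (nat_lit 6) (nat_lit 8))
    (@En.n l12751 (nat_lit 9835) (nat_lit 8) (nat_lit 11))
    (@En.n l17344 (nat_lit 11520) (nat_lit 8) (nat_lit 3))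
    (@En.i (nat_lit 11510) (nat_lit 0) (nat_lit 7))
    (@En.n l8529 (nat_lit 9505) (nat_lit 11) (nat_lit 11))
    (@En.n l619 (nat_lit 8479) (nat_lit 12) (nat_lit 13))
    (@En.n l5138 (nat_lit 11518) (nat_lit 9) (nat_lit 7))
    (@En.n l17345 (nat_lit 8627) (nat_lit 14) (nat_lit 7))
    (@En.n l17346 (nat_lit 9389) (nat_lit 5) (nat_lit 8))
    (@En.n l18 (nat_lit 11521) (nat_lit 15) (nat_lit 2))))
  (@Cl.mk (nat_lit 0x200080006000d0005000b0003000a000d000800050003000a0006000e000b) (nat_lit 0x504010424008082) (nat_lit 16) Lb.e (@T16.mk En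
    (@En.n l387 (nat_lit 9432) (nat_lit 12) (nat_lit 11))
    (@En.n l5694 (nat_lit 11037) (nat_lit 1) (nat_lit 14))
    (@En.n l19386 (nat_lit 9438) (nat_lit 2) (nat_lit 6))
    (@En.n l10570 (nat_lit 11523) (nat_lit 3) (nat_lit 10))
    (@En.n l7 (nat_lit 11524) (nat_lit 4) (nat_lit 3))
    (@En.n l9770 (nat_lit 9251) (nat_lit 0) (nat_lit 5))
    (@En.i (nat_lit 11520) (nat_lit 6) (nat_lit 8))
    (@En.n l617 (nat_lit 8290) (nat_lit 8) (nat_lit 13))
    (@En.i (nat_lit 6191) (nat_lit 9) (nat_lit 10))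
    (@En.n l17463 (nat_lit 8629) (nat_lit 9) (nat_lit 3))
    (@En.n l8769 (nat_lit 8190) (nat_lit 11) (nat_lit 11))
    (@En.n l6680 (nat_lit 10502) (nat_lit 6) (nat_lit 5))
    (@En.n l24662 (nat_lit 6748) (nat_lit 13) (nat_lit 13))
    (@En.i (nat_lit 8531) (nat_lit 14) (nat_lit 6))
    (@En.n l18910 (nat_lit 9671) (nat_lit 4) (nat_lit 8))
    (@En.n l3 (nat_lit 11522) (nat_lit 15) (nat_lit 2))))
  (@Cl.mk (nat_lit 0x200070006000a000d0006000b0003000b000600090005000a0005000e000a) (nat_lit 0x5501050407074) (nat_lit 16) Lb.e (@T16.mk En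
    (@En.i (nat_lit 9434) (nat_lit 8) (nat_lit 10))
    (@En.i (nat_lit 11596) (nat_lit 1) (nat_lit 14))
    (@En.n l8135 (nat_lit 6899) (nat_lit 2) (nat_lit 5))
    (@En.n l32095 (nat_lit 12303) (nat_lit 3) (nat_lit 10))
    (@En.n l8132 (nat_lit 8829) (nat_lit 4) (nat_lit 5))
    (@En.n l32096 (nat_lit 6724) (nat_lit 5) (nat_lit 9))
    (@En.n l32097 (nat_lit 11527) (nat_lit 6) (nat_lit 6))
    (@En.n l32098 (nat_lit 6194) (nat_lit 8) (nat_lit 11))
    (@En.n l3737 (nat_lit 11530) (nat_lit 8) (nat_lit 3))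
    (@En.n l32099 (nat_lit 8191) (nat_lit 10) (nat_lit 11))
    (@En.n l32098 (nat_lit 10494) (nat_lit 11) (nat_lit 6))
    (@En.i (nat_lit 9258) (nat_lit 12) (nat_lit 13))
    (@En.n l23541 (nat_lit 9438) (nat_lit 13) (nat_lit 10))
    (@En.n l18062 (nat_lit 11525) (nat_lit 14) (nat_lit 6))
    (@En.i (nat_lit 9648) (nat_lit 5) (nat_lit 7))
    (@En.n l3 (nat_lit 11523) (nat_lit 15) (nat_lit 2))))
  (@Cl.mk (nat_lit 0x200070006000d0005000c0003000a000d000400090003000a0006000e000b) (nat_lit 0x3050430508086) (nat_lit 16) Lb.e (@T16.mk En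
    (@En.n l387 (nat_lit 9441) (nat_lit 12) (nat_lit 11))
    (@En.n l18910 (nat_lit 11040) (nat_lit 1) (nat_lit 14))
    (@En.n l612 (nat_lit 11525) (nat_lit 2) (nat_lit 6))
    (@En.n l50 (nat_lit 11536) (nat_lit 3) (nat_lit 10))
    (@En.i (nat_lit 11522) (nat_lit 4) (nat_lit 3))
    (@En.n l8769 (nat_lit 12306) (nat_lit 5) (nat_lit 9))
    (@En.n l9850 (nat_lit 9361) (nat_lit 6) (nat_lit 4))
    (@En.n l617 (nat_lit 9102) (nat_lit 8) (nat_lit 13))
    (@En.i (nat_lit 6189) (nat_lit 9) (nat_lit 10))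
    (@En.i (nat_lit 8627) (nat_lit 9) (nat_lit 3))
    (@En.n l8769 (nat_lit 8188) (nat_lit 11) (nat_lit 12))
    (@En.n l6680 (nat_lit 10500) (nat_lit 12) (nat_lit 5))
    (@En.n l15048 (nat_lit 6749) (nat_lit 13) (nat_lit 13))
    (@En.i (nat_lit 8611) (nat_lit 14) (nat_lit 6))
    (@En.n l18910 (nat_lit 9676) (nat_lit 4) (nat_lit 7))
    (@En.n l3 (nat_lit 11524) (nat_lit 15) (nat_lit 2))))
  (@Cl.mk (nat_lit 0x20006000a000d0005000b0003000a0006000d0005000a00030006000e000b) (nat_lit 0x44090504060081) (nat_lit 16) Lb.e (@T16.mk En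
    (@En.n l16736 (nat_lit 9436) (nat_lit 13) (nat_lit 11))
    (@En.n l3858 (nat_lit 11599) (nat_lit 1) (nat_lit 14))
    (@En.n l5414 (nat_lit 11670) (nat_lit 2) (nat_lit 6))
    (@En.n l16737 (nat_lit 9438) (nat_lit 3) (nat_lit 3))
    (@En.n l7 (nat_lit 12305) (nat_lit 0) (nat_lit 10))
    (@En.n l13056 (nat_lit 9608) (nat_lit 5) (nat_lit 5))
    (@En.n l644 (nat_lit 11524) (nat_lit 7) (nat_lit 13))
    (@En.n l725 (nat_lit 11528) (nat_lit 7) (nat_lit 6))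
    (@En.i (nat_lit 6192) (nat_lit 9) (nat_lit 10))
    (@En.i (nat_lit 8630) (nat_lit 9) (nat_lit 3))
    (@En.n l3858 (nat_lit 8187) (nat_lit 11) (nat_lit 11))
    (@En.n l16738 (nat_lit 10495) (nat_lit 7) (nat_lit 5))
    (@En.n l10570 (nat_lit 6743) (nat_lit 13) (nat_lit 13))
    (@En.n l617 (nat_lit 4859) (nat_lit 14) (nat_lit 10))
    (@En.i (nat_lit 9681) (nat_lit 4) (nat_lit 6))
    (@En.n l3 (nat_lit 11525) (nat_lit 15) (nat_lit 2))))
  (@Cl.mk (nat_lit 0x20007000a0006000d0006000b00030006000d000900050003000a000e000a) (nat_lit 0x40501003400771) (nat_lit 16) Lb.e (@T16.mk En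
    (@En.n l35247 (nat_lit 9435) (nat_lit 13) (nat_lit 10))
    (@En.n l3858 (nat_lit 11597) (nat_lit 1) (nat_lit 14))
    (@En.n l13385 (nat_lit 12135) (nat_lit 2) (nat_lit 10))
    (@En.n l1337 (nat_lit 11528) (nat_lit 3) (nat_lit 3))
    (@En.n l39972 (nat_lit 8280) (nat_lit 4) (nat_lit 5))
    (@En.i (nat_lit 11527) (nat_lit 5) (nat_lit 9))
    (@En.n l644 (nat_lit 9104) (nat_lit 7) (nat_lit 13))
    (@En.n l39973 (nat_lit 4217) (nat_lit 7) (nat_lit 6))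
    (@En.n l9375 (nat_lit 11531) (nat_lit 8) (nat_lit 3))
    (@En.n l3858 (nat_lit 8192) (nat_lit 0) (nat_lit 11))
    (@En.n l39972 (nat_lit 10487) (nat_lit 11) (nat_lit 6))
    (@En.n l16737 (nat_lit 9438) (nat_lit 12) (nat_lit 13))
    (@En.n l24012 (nat_lit 11522) (nat_lit 13) (nat_lit 6))
    (@En.n l13385 (nat_lit 4861) (nat_lit 8) (nat_lit 10))
    (@En.n l1337 (nat_lit 9067) (nat_lit 5) (nat_lit 7))
    (@En.n l3 (nat_lit 11526) (nat_lit 15) (nat_lit 2))))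
  (@Cl.mk (nat_lit 0x200070006000a0007000d0007000c0003000600090004000a0009000e0009) (nat_lit 0x5060100307764) (nat_lit 16) Lb.e (@T16.mk En
    (@En.n l25578 (nat_lit 9439) (nat_lit 9) (nat_lit 9))
    (@En.n l3858 (nat_lit 11598) (nat_lit 1) (nat_lit 14))
    (@En.n l18458 (nat_lit 12137) (nat_lit 2) (nat_lit 9))
    (@En.n l6979 (nat_lit 12313) (nat_lit 3) (nat_lit 10))
    (@En.n l22013 (nat_lit 9628) (nat_lit 4) (nat_lit 4))
    (@En.i (nat_lit 5908) (nat_lit 5) (nat_lit 9))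
    (@En.n l564 (nat_lit 2121) (nat_lit 6) (nat_lit 6))
    (@En.n l25281 (nat_lit 11529) (nat_lit 7) (nat_lit 3))
    (@En.n l25579 (nat_lit 8193) (nat_lit 0) (nat_lit 12))
    (@En.n l117 (nat_lit 10488) (nat_lit 10) (nat_lit 7))
    (@En.n l10570 (nat_lit 11523) (nat_lit 11) (nat_lit 13))
    (@En.n l24012 (nat_lit 11520) (nat_lit 12) (nat_lit 7))
    (@En.n l50 (nat_lit 11526) (nat_lit 13) (nat_lit 10))
    (@En.i (nat_lit 11528) (nat_lit 14) (nat_lit 6))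
    (@En.n l25580 (nat_lit 9646) (nat_lit 6) (nat_lit 7))
    (@En.n l3 (nat_lit 11527) (nat_lit 15) (nat_lit 2))))
  (@Cl.mk (nat_lit 0x20006000a0006000d0006000c00030006000d0004000a0003000a000e000a) (nat_lit 0x30503003050773) (nat_lit 16) Lb.e (@T16.mk En
    (@En.n l17 (nat_lit 9440) (nat_lit 13) (nat_lit 10))
    (@En.n l3858 (nat_lit 11600) (nat_lit 1) (nat_lit 14))
    (@En.i (nat_lit 11941) (nat_lit 2) (nat_lit 10))
    (@En.i (nat_lit 11526) (nat_lit 3) (nat_lit 3))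
    (@En.n l7 (nat_lit 12304) (nat_lit 4) (nat_lit 10))
    (@En.i (nat_lit 9605) (nat_lit 5) (nat_lit 4))
    (@En.n l644 (nat_lit 9100) (nat_lit 7) (nat_lit 13))
    (@En.n l564 (nat_lit 4218) (nat_lit 7) (nat_lit 6))
    (@En.i (nat_lit 11532) (nat_lit 8) (nat_lit 3))
    (@En.n l3858 (nat_lit 8186) (nat_lit 0) (nat_lit 12))
    (@En.n l117 (nat_lit 10489) (nat_lit 11) (nat_lit 6))
    (@En.i (nat_lit 11525) (nat_lit 12) (nat_lit 13))
    (@En.n l24012 (nat_lit 11524) (nat_lit 13) (nat_lit 6))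
    (@En.i (nat_lit 4856) (nat_lit 14) (nat_lit 10))
    (@En.i (nat_lit 9683) (nat_lit 5) (nat_lit 6))
    (@En.n l3 (nat_lit 11528) (nat_lit 15) (nat_lit 2))))
  (@Cl.mk (nat_lit 0x200070006000a0007000d000b00080003000600090005000a0009000e0008) (nat_lit 0x4056600408583) (nat_lit 16) Lb.e (@T16.mk En
    (@En.n l2491 (nat_lit 9126) (nat_lit 9) (nat_lit 8))
    (@En.i (nat_lit 12223) (nat_lit 1) (nat_lit 14))
    (@En.n l12896 (nat_lit 12140) (nat_lit 2) (nat_lit 9))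
    (@En.n l36818 (nat_lit 12314) (nat_lit 3) (nat_lit 10))
    (@En.n l117 (nat_lit 5283) (nat_lit 4) (nat_lit 5))
    (@En.n l12896 (nat_lit 5906) (nat_lit 5) (nat_lit 9))
    (@En.i (nat_lit 9863) (nat_lit 6) (nat_lit 6))
    (@En.n l39183 (nat_lit 11527) (nat_lit 7) (nat_lit 3))
    (@En.n l575 (nat_lit 11733) (nat_lit 0) (nat_lit 8))
    (@En.n l25494 (nat_lit 9510) (nat_lit 10) (nat_lit 11))
    (@En.n l5595 (nat_lit 11530) (nat_lit 11) (nat_lit 13))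
    (@En.n l2912 (nat_lit 11521) (nat_lit 12) (nat_lit 7))
    (@En.n l245 (nat_lit 11531) (nat_lit 13) (nat_lit 10))
    (@En.n l39184 (nat_lit 11532) (nat_lit 14) (nat_lit 6))
    (@En.n l3100 (nat_lit 9647) (nat_lit 6) (nat_lit 7))
    (@En.n l28 (nat_lit 11529) (nat_lit 15) (nat_lit 2))))
  (@Cl.mk (nat_lit 0x200070006000a000d000a00070003000b000600090006000a0005000e0009) (nat_lit 0x4470050508093) (nat_lit 16) Lb.e (@T16.mk En
    (@En.n l8523 (nat_lit 9129) (nat_lit 8) (nat_lit 9))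
    (@En.n l396 (nat_lit 12221) (nat_lit 1) (nat_lit 14))
    (@En.n l11236 (nat_lit 6902) (nat_lit 2) (nat_lit 5))
    (@En.n l8523 (nat_lit 12312) (nat_lit 3) (nat_lit 10))
    (@En.n l2738 (nat_lit 5417) (nat_lit 4) (nat_lit 6))
    (@En.i (nat_lit 6723) (nat_lit 5) (nat_lit 9))
    (@En.n l12031 (nat_lit 11529) (nat_lit 6) (nat_lit 6))
    (@En.n l22776 (nat_lit 9854) (nat_lit 8) (nat_lit 11))
    (@En.n l23828 (nat_lit 11523) (nat_lit 8) (nat_lit 3))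
    (@En.n l23829 (nat_lit 11732) (nat_lit 0) (nat_lit 7))
    (@En.n l8184 (nat_lit 9508) (nat_lit 11) (nat_lit 10))
    (@En.n l23830 (nat_lit 9256) (nat_lit 12) (nat_lit 13))
    (@En.n l12696 (nat_lit 8633) (nat_lit 13) (nat_lit 10))
    (@En.n l23831 (nat_lit 8630) (nat_lit 14) (nat_lit 6))
    (@En.n l23832 (nat_lit 9649) (nat_lit 5) (nat_lit 7))
    (@En.n l18 (nat_lit 11530) (nat_lit 15) (nat_lit 2))))
  (@Cl.mk (nat_lit 0x20007000a0006000d000a000700030006000d000900060003000a000e0009) (nat_lit 0x30470008500693) (nat_lit 16) Lb.e (@T16.mk En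
    (@En.n l30354 (nat_lit 9125) (nat_lit 13) (nat_lit 9))
    (@En.i (nat_lit 12219) (nat_lit 1) (nat_lit 14))
    (@En.n l287 (nat_lit 12138) (nat_lit 2) (nat_lit 10))
    (@En.n l20988 (nat_lit 11532) (nat_lit 3) (nat_lit 3))
    (@En.n l12686 (nat_lit 6947) (nat_lit 0) (nat_lit 6))
    (@En.n l532 (nat_lit 11529) (nat_lit 5) (nat_lit 9))
    (@En.n l20912 (nat_lit 7834) (nat_lit 7) (nat_lit 13))
    (@En.i (nat_lit 9860) (nat_lit 7) (nat_lit 6))
    (@En.n l25202 (nat_lit 11526) (nat_lit 8) (nat_lit 3))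
    (@En.i (nat_lit 11731) (nat_lit 0) (nat_lit 7))
    (@En.n l19904 (nat_lit 9509) (nat_lit 11) (nat_lit 10))
    (@En.n l3026 (nat_lit 8633) (nat_lit 12) (nat_lit 13))
    (@En.n l13250 (nat_lit 8629) (nat_lit 13) (nat_lit 6))
    (@En.n l8800 (nat_lit 4865) (nat_lit 8) (nat_lit 10))
    (@En.n l30355 (nat_lit 9066) (nat_lit 5) (nat_lit 7))
    (@En.n l7 (nat_lit 11531) (nat_lit 15) (nat_lit 2))))
  (@Cl.mk (nat_lit 0x20006000a0006000d000b000700030006000d0005000a0003000a000e0009) (nat_lit 0x30460007040693) (nat_lit 16) Lb.e (@T16.mk En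
    (@En.n l17 (nat_lit 9127) (nat_lit 13) (nat_lit 9))
    (@En.n l9375 (nat_lit 11624) (nat_lit 1) (nat_lit 14))
    (@En.n l319 (nat_lit 11937) (nat_lit 2) (nat_lit 10))
    (@En.n l9375 (nat_lit 11531) (nat_lit 3) (nat_lit 3))
    (@En.n l7 (nat_lit 12310) (nat_lit 4) (nat_lit 10))
    (@En.n l24009 (nat_lit 9610) (nat_lit 5) (nat_lit 5))
    (@En.n l644 (nat_lit 9101) (nat_lit 7) (nat_lit 13))
    (@En.n l24010 (nat_lit 9864) (nat_lit 7) (nat_lit 6))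
    (@En.n l11 (nat_lit 11528) (nat_lit 8) (nat_lit 3))
    (@En.n l24011 (nat_lit 11730) (nat_lit 0) (nat_lit 7))
    (@En.i (nat_lit 9567) (nat_lit 11) (nat_lit 11))
    (@En.i (nat_lit 8630) (nat_lit 12) (nat_lit 13))
    (@En.n l24012 (nat_lit 8627) (nat_lit 13) (nat_lit 6))
    (@En.i (nat_lit 4862) (nat_lit 14) (nat_lit 10))
    (@En.n l9309 (nat_lit 10649) (nat_lit 5) (nat_lit 6))
    (@En.n l3 (nat_lit 11532) (nat_lit 15) (nat_lit 2))))
  (@Cl.mk (nat_lit 0x200060006000a000d000b00070003000b00060005000a000a0005000e0009) (nat_lit 0x4470070048096) (nat_lit 16) Lb.e (@T16.mk En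
    (@En.i (nat_lit 11548) (nat_lit 8) (nat_lit 9))
    (@En.n l1105 (nat_lit 11376) (nat_lit 1) (nat_lit 14))
    (@En.n l10397 (nat_lit 11663) (nat_lit 2) (nat_lit 5))
    (@En.n l619 (nat_lit 11540) (nat_lit 6) (nat_lit 10))
    (@En.n l10398 (nat_lit 11458) (nat_lit 4) (nat_lit 10))
    (@En.n l10399 (nat_lit 12330) (nat_lit 5) (nat_lit 5))
    (@En.n l10400 (nat_lit 11534) (nat_lit 6) (nat_lit 6))
    (@En.n l10401 (nat_lit 8015) (nat_lit 8) (nat_lit 11))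
    (@En.n l10402 (nat_lit 11536) (nat_lit 8) (nat_lit 3))
    (@En.n l10398 (nat_lit 8044) (nat_lit 0) (nat_lit 7))
    (@En.n l10403 (nat_lit 11556) (nat_lit 11) (nat_lit 11))
    (@En.n l10404 (nat_lit 12562) (nat_lit 12) (nat_lit 13))
    (@En.n l10405 (nat_lit 8630) (nat_lit 13) (nat_lit 10))
    (@En.n l1151 (nat_lit 11503) (nat_lit 14) (nat_lit 6))
    (@En.n l3518 (nat_lit 41) (nat_lit 5) (nat_lit 6))
    (@En.n l17 (nat_lit 11533) (nat_lit 15) (nat_lit 2))))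
  (@Cl.mk (nat_lit 0x200060006000a0007000d000c0008000300060004000a000a0009000e0008) (nat_lit 0x4058300035685) (nat_lit 16) Lb.e (@T16.mk En
    (@En.n l17 (nat_lit 11544) (nat_lit 9) (nat_lit 8))
    (@En.n l9375 (nat_lit 11751) (nat_lit 1) (nat_lit 14))
    (@En.n l4233 (nat_lit 12069) (nat_lit 2) (nat_lit 9))
    (@En.n l23796 (nat_lit 11539) (nat_lit 6) (nat_lit 10))
    (@En.n l17847 (nat_lit 11451) (nat_lit 4) (nat_lit 10))
    (@En.n l7147 (nat_lit 12372) (nat_lit 5) (nat_lit 4))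
    (@En.n l23499 (nat_lit 11651) (nat_lit 6) (nat_lit 6))
    (@En.n l11 (nat_lit 11535) (nat_lit 7) (nat_lit 3))
    (@En.n l23499 (nat_lit 11659) (nat_lit 0) (nat_lit 8))
    (@En.n l55 (nat_lit 11537) (nat_lit 10) (nat_lit 12))
    (@En.n l3711 (nat_lit 11533) (nat_lit 11) (nat_lit 13))
    (@En.n l17 (nat_lit 5796) (nat_lit 12) (nat_lit 7))
    (@En.i (nat_lit 11532) (nat_lit 13) (nat_lit 10))
    (@En.n l644 (nat_lit 12382) (nat_lit 14) (nat_lit 6))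
    (@En.n l1080 (nat_lit 10765) (nat_lit 6) (nat_lit 6))
    (@En.n l3 (nat_lit 11534) (nat_lit 15) (nat_lit 2))))
  (@Cl.mk (nat_lit 0x200060006000a0007000d0007000d000300060003000a000a0009000e0009) (nat_lit 0x4060200046675) (nat_lit 16) Lb.e (@T16.mk En
    (@En.n l17 (nat_lit 11543) (nat_lit 11) (nat_lit 9))
    (@En.i (nat_lit 11377) (nat_lit 1) (nat_lit 14))
    (@En.i (nat_lit 12068) (nat_lit 2) (nat_lit 9))
    (@En.i (nat_lit 11538) (nat_lit 6) (nat_lit 10))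
    (@En.i (nat_lit 11453) (nat_lit 4) (nat_lit 10))
    (@En.i (nat_lit 11537) (nat_lit 5) (nat_lit 3))
    (@En.i (nat_lit 4777) (nat_lit 6) (nat_lit 6))
    (@En.i (nat_lit 11534) (nat_lit 7) (nat_lit 3))
    (@En.i (nat_lit 1165) (nat_lit 0) (nat_lit 13))
    (@En.n l117 (nat_lit 11390) (nat_lit 10) (nat_lit 7))
    (@En.i (nat_lit 11536) (nat_lit 11) (nat_lit 13))
    (@En.n l17 (nat_lit 5799) (nat_lit 12) (nat_lit 7))
    (@En.i (nat_lit 11528) (nat_lit 13) (nat_lit 10))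
    (@En.n l644 (nat_lit 12400) (nat_lit 14) (nat_lit 6))
    (@En.i (nat_lit 10766) (nat_lit 6) (nat_lit 6))
    (@En.n l3 (nat_lit 11535) (nat_lit 15) (nat_lit 2))))
noncomputable def a721 : T16 Cl := @T16.mk Cl
  (@Cl.mk (nat_lit 0x200060006000a000d0006000c0003000b00060004000a000a0005000e000a) (nat_lit 0x5502070057085) (nat_lit 16) Lb.e (@T16.mk En
    (@En.n l617 (nat_lit 11552) (nat_lit 8) (nat_lit 10))
    (@En.n l16186 (nat_lit 11374) (nat_lit 1) (nat_lit 14))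
    (@En.n l387 (nat_lit 11664) (nat_lit 2) (nat_lit 5))
    (@En.n l16586 (nat_lit 11541) (nat_lit 6) (nat_lit 10))
    (@En.n l2371 (nat_lit 11459) (nat_lit 4) (nat_lit 10))
    (@En.n l7066 (nat_lit 11066) (nat_lit 5) (nat_lit 4))
    (@En.n l725 (nat_lit 11535) (nat_lit 6) (nat_lit 6))
    (@En.i (nat_lit 5299) (nat_lit 8) (nat_lit 11))
    (@En.n l3711 (nat_lit 11533) (nat_lit 8) (nat_lit 3))
    (@En.n l7066 (nat_lit 3032) (nat_lit 10) (nat_lit 12))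
    (@En.n l16587 (nat_lit 11402) (nat_lit 11) (nat_lit 6))
    (@En.n l2371 (nat_lit 12563) (nat_lit 5) (nat_lit 13))
    (@En.i (nat_lit 11525) (nat_lit 13) (nat_lit 10))
    (@En.n l644 (nat_lit 11502) (nat_lit 14) (nat_lit 6))
    (@En.i (nat_lit 10764) (nat_lit 5) (nat_lit 6))
    (@En.n l3 (nat_lit 11536) (nat_lit 15) (nat_lit 2))))
  (@Cl.mk (nat_lit 0x200060006000b0007000c0007000d000500040003000a000a0009000e0009) (nat_lit 0x5070200045655) (nat_lit 16) Lb.e (@T16.mk En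
    (@En.n l17091 (nat_lit 11562) (nat_lit 11) (nat_lit 9))
    (@En.n l2394 (nat_lit 11707) (nat_lit 1) (nat_lit 14))
    (@En.n l4233 (nat_lit 12067) (nat_lit 2) (nat_lit 9))
    (@En.n l16586 (nat_lit 11542) (nat_lit 6) (nat_lit 10))
    (@En.n l17092 (nat_lit 11378) (nat_lit 4) (nat_lit 10))
    (@En.n l28 (nat_lit 11535) (nat_lit 5) (nat_lit 3))
    (@En.n l2395 (nat_lit 5959) (nat_lit 6) (nat_lit 4))
    (@En.i (nat_lit 12313) (nat_lit 7) (nat_lit 5))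
    (@En.n l17093 (nat_lit 1163) (nat_lit 9) (nat_lit 13))
    (@En.n l117 (nat_lit 11388) (nat_lit 10) (nat_lit 7))
    (@En.n l7066 (nat_lit 11066) (nat_lit 11) (nat_lit 12))
    (@En.n l17 (nat_lit 5719) (nat_lit 12) (nat_lit 7))
    (@En.n l28 (nat_lit 9567) (nat_lit 13) (nat_lit 11))
    (@En.n l644 (nat_lit 12383) (nat_lit 14) (nat_lit 6))
    (@En.i (nat_lit 10773) (nat_lit 13) (nat_lit 6))
    (@En.n l3 (nat_lit 11537) (nat_lit 15) (nat_lit 2))))
  (@Cl.mk (nat_lit 0x2000a0008000d0008000d000300060003000a0008000e00080002000e0006) (nat_lit 0x617220005564030) (nat_lit 16) Lb.e (@T16.mk En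
    (@En.n l644 (nat_lit 11535) (nat_lit 14) (nat_lit 6))
    (@En.n l16668 (nat_lit 11909) (nat_lit 1) (nat_lit 14))
    (@En.n l3 (nat_lit 11538) (nat_lit 2) (nat_lit 2))
    (@En.n l17 (nat_lit 11545) (nat_lit 3) (nat_lit 8))
    (@En.n l24135 (nat_lit 11373) (nat_lit 5) (nat_lit 14))
    (@En.n l20953 (nat_lit 12805) (nat_lit 5) (nat_lit 8))
    (@En.n l20341 (nat_lit 11455) (nat_lit 3) (nat_lit 10))
    (@En.n l16586 (nat_lit 11542) (nat_lit 7) (nat_lit 3))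
    (@En.n l18493 (nat_lit 2114) (nat_lit 12) (nat_lit 6))
    (@En.n l23796 (nat_lit 11539) (nat_lit 9) (nat_lit 3))
    (@En.n l20953 (nat_lit 3709) (nat_lit 0) (nat_lit 13))
    (@En.n l25186 (nat_lit 11385) (nat_lit 12) (nat_lit 8))
    (@En.n l16586 (nat_lit 11541) (nat_lit 13) (nat_lit 13))
    (@En.n l17 (nat_lit 5721) (nat_lit 14) (nat_lit 8))
    (@En.n l644 (nat_lit 11527) (nat_lit 12) (nat_lit 10))
    (@En.n l50 (nat_lit 11538) (nat_lit 15) (nat_lit 2))))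
  (@Cl.mk (nat_lit 0x2000a0008000d000c0009000300060004000a0008000e00070002000e0006) (nat_lit 0x516610004470060) (nat_lit 16) Lb.e (@T16.mk En
    (@En.n l21684 (nat_lit 11534) (nat_lit 14) (nat_lit 6))
    (@En.n l23882 (nat_lit 12733) (nat_lit 1) (nat_lit 14))
    (@En.n l18 (nat_lit 11539) (nat_lit 2) (nat_lit 2))
    (@En.n l30892 (nat_lit 11546) (nat_lit 3) (nat_lit 7))
    (@En.n l8175 (nat_lit 11375) (nat_lit 5) (nat_lit 14))
    (@En.i (nat_lit 12807) (nat_lit 5) (nat_lit 8))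
    (@En.n l30893 (nat_lit 11454) (nat_lit 3) (nat_lit 10))
    (@En.i (nat_lit 5958) (nat_lit 7) (nat_lit 4))
    (@En.n l30894 (nat_lit 11648) (nat_lit 8) (nat_lit 6))
    (@En.n l30895 (nat_lit 11538) (nat_lit 9) (nat_lit 3))
    (@En.i (nat_lit 8042) (nat_lit 0) (nat_lit 9))
    (@En.n l30896 (nat_lit 11542) (nat_lit 12) (nat_lit 12))
    (@En.n l8174 (nat_lit 11540) (nat_lit 13) (nat_lit 13))
    (@En.n l2593 (nat_lit 5718) (nat_lit 14) (nat_lit 8))
    (@En.n l11610 (nat_lit 11529) (nat_lit 12) (nat_lit 10))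
    (@En.n l3 (nat_lit 11539) (nat_lit 15) (nat_lit 2))))
  (@Cl.mk (nat_lit 0x2000a000d000b00080003000c00060005000a0004000e00080002000e0006) (nat_lit 0x555108007085060) (nat_lit 16) Lb.e (@T16.mk En
    (@En.n l117 (nat_lit 11533) (nat_lit 14) (nat_lit 6))
    (@En.n l11835 (nat_lit 12735) (nat_lit 1) (nat_lit 14))
    (@En.n l17 (nat_lit 11540) (nat_lit 2) (nat_lit 2))
    (@En.i (nat_lit 11547) (nat_lit 3) (nat_lit 8))
    (@En.n l1531 (nat_lit 11370) (nat_lit 1) (nat_lit 14))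
    (@En.n l23564 (nat_lit 6906) (nat_lit 5) (nat_lit 4))
    (@En.n l3860 (nat_lit 11461) (nat_lit 3) (nat_lit 10))
    (@En.n l10586 (nat_lit 11068) (nat_lit 7) (nat_lit 5))
    (@En.n l4105 (nat_lit 11539) (nat_lit 8) (nat_lit 6))
    (@En.n l3870 (nat_lit 9923) (nat_lit 10) (nat_lit 12))
    (@En.n l3871 (nat_lit 11541) (nat_lit 10) (nat_lit 3))
    (@En.n l3860 (nat_lit 8039) (nat_lit 12) (nat_lit 8))
    (@En.n l16752 (nat_lit 11062) (nat_lit 13) (nat_lit 11))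
    (@En.n l3860 (nat_lit 12560) (nat_lit 5) (nat_lit 13))
    (@En.n l3806 (nat_lit 11530) (nat_lit 12) (nat_lit 10))
    (@En.n l11 (nat_lit 11540) (nat_lit 15) (nat_lit 2))))
  (@Cl.mk (nat_lit 0x2000a000d0007000c0003000c00060004000a0004000e00090002000e0006) (nat_lit 0x660108006064060) (nat_lit 16) Lb.e (@T16.mk En
    (@En.n l18852 (nat_lit 11536) (nat_lit 14) (nat_lit 6))
    (@En.n l5 (nat_lit 12764) (nat_lit 1) (nat_lit 14))
    (@En.n l50 (nat_lit 11541) (nat_lit 2) (nat_lit 2))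
    (@En.n l4003 (nat_lit 11549) (nat_lit 3) (nat_lit 9))
    (@En.n l4921 (nat_lit 11371) (nat_lit 1) (nat_lit 14))
    (@En.n l1422 (nat_lit 6905) (nat_lit 5) (nat_lit 4))
    (@En.n l8450 (nat_lit 11460) (nat_lit 3) (nat_lit 10))
    (@En.i (nat_lit 11060) (nat_lit 7) (nat_lit 4))
    (@En.n l19596 (nat_lit 11538) (nat_lit 8) (nat_lit 6))
    (@En.n l4923 (nat_lit 6467) (nat_lit 10) (nat_lit 12))
    (@En.n l10848 (nat_lit 11540) (nat_lit 10) (nat_lit 3))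
    (@En.i (nat_lit 3710) (nat_lit 0) (nat_lit 12))
    (@En.n l8309 (nat_lit 11397) (nat_lit 13) (nat_lit 7))
    (@En.n l8450 (nat_lit 12559) (nat_lit 5) (nat_lit 13))
    (@En.n l19597 (nat_lit 11523) (nat_lit 12) (nat_lit 10))
    (@En.n l17 (nat_lit 11541) (nat_lit 15) (nat_lit 2))))
  (@Cl.mk (nat_lit 0x2000b0008000c0008000d000500040003000a0008000e00080002000e0006) (nat_lit 0x925220004544030) (nat_lit 16) Lb.e (@T16.mk En
    (@En.n l18852 (nat_lit 11537) (nat_lit 14) (nat_lit 6))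
    (@En.n l5 (nat_lit 12731) (nat_lit 1) (nat_lit 14))
    (@En.n l50 (nat_lit 11542) (nat_lit 2) (nat_lit 2))
    (@En.n l18853 (nat_lit 11560) (nat_lit 3) (nat_lit 8))
    (@En.n l18854 (nat_lit 12246) (nat_lit 5) (nat_lit 14))
    (@En.n l2826 (nat_lit 12806) (nat_lit 5) (nat_lit 8))
    (@En.n l4322 (nat_lit 9052) (nat_lit 3) (nat_lit 10))
    (@En.n l18855 (nat_lit 11538) (nat_lit 7) (nat_lit 3))
    (@En.n l152 (nat_lit 5950) (nat_lit 0) (nat_lit 4))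
    (@En.n l4923 (nat_lit 12341) (nat_lit 9) (nat_lit 5))
    (@En.i (nat_lit 1168) (nat_lit 11) (nat_lit 13))
    (@En.n l619 (nat_lit 11384) (nat_lit 12) (nat_lit 8))
    (@En.i (nat_lit 11060) (nat_lit 13) (nat_lit 12))
    (@En.n l18856 (nat_lit 5717) (nat_lit 14) (nat_lit 8))
    (@En.i (nat_lit 9510) (nat_lit 12) (nat_lit 11))
    (@En.n l17 (nat_lit 11542) (nat_lit 15) (nat_lit 2))))
  (@Cl.mk (nat_lit 0x3000b000b000a000900090005000500090006000c00070007000d00040007) (nat_lit 0x436410030900300) (nat_lit 16) Lb.e (@T16.mk En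
    (@En.n l12809 (nat_lit 4781) (nat_lit 11) (nat_lit 7))
    (@En.i (nat_lit 11544) (nat_lit 15) (nat_lit 4))
    (@En.n l34271 (nat_lit 4431) (nat_lit 0) (nat_lit 13))
    (@En.n l9272 (nat_lit 11535) (nat_lit 9) (nat_lit 7))
    (@En.n l3851 (nat_lit 9859) (nat_lit 4) (nat_lit 7))
    (@En.n l2196 (nat_lit 11552) (nat_lit 3) (nat_lit 12))
    (@En.i (nat_lit 5606) (nat_lit 6) (nat_lit 6))
    (@En.i (nat_lit 9440) (nat_lit 10) (nat_lit 9))
    (@En.n l644 (nat_lit 11566) (nat_lit 11) (nat_lit 5))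
    (@En.n l40564 (nat_lit 11774) (nat_lit 9) (nat_lit 5))
    (@En.n l9279 (nat_lit 4178) (nat_lit 7) (nat_lit 9))
    (@En.n l38512 (nat_lit 10266) (nat_lit 7) (nat_lit 9))
    (@En.n l40565 (nat_lit 12064) (nat_lit 6) (nat_lit 10))
    (@En.i (nat_lit 11545) (nat_lit 5) (nat_lit 11))
    (@En.n l39747 (nat_lit 10523) (nat_lit 13) (nat_lit 11))
    (@En.n l40566 (nat_lit 11562) (nat_lit 15) (nat_lit 3))))
  (@Cl.mk (nat_lit 0x400070005000b000b000a000800080005000500090006000c000b00080008) (nat_lit 0x5754400309764) (nat_lit 16) Lb.e (@T16.mk En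
    (@En.n l9272 (nat_lit 11534) (nat_lit 8) (nat_lit 8))
    (@En.n l38510 (nat_lit 10964) (nat_lit 1) (nat_lit 8))
    (@En.n l38511 (nat_lit 11562) (nat_lit 5) (nat_lit 11))
    (@En.n l27341 (nat_lit 11548) (nat_lit 3) (nat_lit 12))
    (@En.n l19354 (nat_lit 5608) (nat_lit 4) (nat_lit 6))
    (@En.i (nat_lit 9127) (nat_lit 10) (nat_lit 9))
    (@En.n l644 (nat_lit 11568) (nat_lit 11) (nat_lit 5))
    (@En.n l27344 (nat_lit 10644) (nat_lit 7) (nat_lit 5))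
    (@En.n l9279 (nat_lit 8073) (nat_lit 8) (nat_lit 8))
    (@En.n l38512 (nat_lit 9163) (nat_lit 1) (nat_lit 8))
    (@En.n l19355 (nat_lit 11936) (nat_lit 6) (nat_lit 10))
    (@En.n l27356 (nat_lit 11546) (nat_lit 5) (nat_lit 11))
    (@En.n l38513 (nat_lit 11478) (nat_lit 13) (nat_lit 11))
    (@En.n l22919 (nat_lit 12000) (nat_lit 11) (nat_lit 5))
    (@En.n l38514 (nat_lit 10802) (nat_lit 11) (nat_lit 7))
    (@En.n l22921 (nat_lit 10961) (nat_lit 15) (nat_lit 4))))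
  (@Cl.mk (nat_lit 0x200090007000c00080008000d000400070003000b000900080008000e0005) (nat_lit 0x60a6350002533c0) (nat_lit 16) Lb.e (@T16.mk En
    (@En.n l644 (nat_lit 11543) (nat_lit 9) (nat_lit 5))
    (@En.n l27350 (nat_lit 12106) (nat_lit 1) (nat_lit 14))
    (@En.n l9279 (nat_lit 8067) (nat_lit 2) (nat_lit 8))
    (@En.n l27351 (nat_lit 10261) (nat_lit 3) (nat_lit 8))
    (@En.n l27352 (nat_lit 5590) (nat_lit 4) (nat_lit 9))
    (@En.n l27353 (nat_lit 10518) (nat_lit 6) (nat_lit 11))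
    (@En.n l27354 (nat_lit 11560) (nat_lit 6) (nat_lit 3))
    (@En.n l27355 (nat_lit 2119) (nat_lit 11) (nat_lit 7))
    (@En.n l27356 (nat_lit 11546) (nat_lit 8) (nat_lit 4))
    (@En.n l27357 (nat_lit 6246) (nat_lit 10) (nat_lit 13))
    (@En.n l9272 (nat_lit 11538) (nat_lit 11) (nat_lit 8))
    (@En.n l27358 (nat_lit 9865) (nat_lit 12) (nat_lit 8))
    (@En.n l27359 (nat_lit 11549) (nat_lit 13) (nat_lit 12))
    (@En.n l23968 (nat_lit 6590) (nat_lit 14) (nat_lit 7))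
    (@En.n l27360 (nat_lit 9439) (nat_lit 5) (nat_lit 9))
    (@En.n l50 (nat_lit 11545) (nat_lit 15) (nat_lit 2))))
  (@Cl.mk (nat_lit 0x200090007000c000b00090009000400070005000b000900070007000e0005) (nat_lit 0x40a6720006400a0) (nat_lit 16) Lb.e (@T16.mk En
    (@En.n l31095 (nat_lit 11544) (nat_lit 7) (nat_lit 5))
    (@En.n l31096 (nat_lit 11048) (nat_lit 1) (nat_lit 14))
    (@En.n l31097 (nat_lit 8068) (nat_lit 9) (nat_lit 7))
    (@En.n l13633 (nat_lit 10752) (nat_lit 3) (nat_lit 7))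
    (@En.n l31098 (nat_lit 5595) (nat_lit 4) (nat_lit 9))
    (@En.n l31099 (nat_lit 11414) (nat_lit 6) (nat_lit 11))
    (@En.n l31100 (nat_lit 5952) (nat_lit 6) (nat_lit 5))
    (@En.n l13633 (nat_lit 10801) (nat_lit 7) (nat_lit 7))
    (@En.n l31101 (nat_lit 10968) (nat_lit 8) (nat_lit 4))
    (@En.n l31102 (nat_lit 11539) (nat_lit 10) (nat_lit 9))
    (@En.n l31103 (nat_lit 11551) (nat_lit 11) (nat_lit 9))
    (@En.n l31104 (nat_lit 11560) (nat_lit 12) (nat_lit 11))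
    (@En.n l217 (nat_lit 11547) (nat_lit 13) (nat_lit 12))
    (@En.n l31105 (nat_lit 6604) (nat_lit 14) (nat_lit 7))
    (@En.n l31106 (nat_lit 9126) (nat_lit 5) (nat_lit 9))
    (@En.n l11 (nat_lit 11546) (nat_lit 15) (nat_lit 2))))
  (@Cl.mk (nat_lit 0x20009000c000a000800080004000c00070006000b000400080008000e0005) (nat_lit 0x4956209004043b0) (nat_lit 16) Lb.e (@T16.mk En
    (@En.n l117 (nat_lit 11548) (nat_lit 6) (nat_lit 5))
    (@En.n l1223 (nat_lit 11047) (nat_lit 1) (nat_lit 14))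
    (@En.n l3180 (nat_lit 8066) (nat_lit 8) (nat_lit 8))
    (@En.n l6081 (nat_lit 10879) (nat_lit 3) (nat_lit 8))
    (@En.n l23564 (nat_lit 6587) (nat_lit 4) (nat_lit 4))
    (@En.n l4909 (nat_lit 11410) (nat_lit 0) (nat_lit 11))
    (@En.n l77 (nat_lit 12331) (nat_lit 6) (nat_lit 6))
    (@En.n l10794 (nat_lit 11546) (nat_lit 7) (nat_lit 7))
    (@En.n l18 (nat_lit 8014) (nat_lit 9) (nat_lit 12))
    (@En.n l3348 (nat_lit 10969) (nat_lit 9) (nat_lit 4))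
    (@En.n l61 (nat_lit 11540) (nat_lit 11) (nat_lit 8))
    (@En.n l1223 (nat_lit 11550) (nat_lit 12) (nat_lit 8))
    (@En.n l16752 (nat_lit 11553) (nat_lit 13) (nat_lit 10))
    (@En.n l4909 (nat_lit 8115) (nat_lit 6) (nat_lit 12))
    (@En.n l810 (nat_lit 9129) (nat_lit 4) (nat_lit 9))
    (@En.n l11 (nat_lit 11547) (nat_lit 15) (nat_lit 2))))
  (@Cl.mk (nat_lit 0x4000b00070006000b000b000500090009000500050009000c000a00070007) (nat_lit 0x800650540038600) (nat_lit 16) Lb.e (@T16.mk En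
    (@En.n l61 (nat_lit 11533) (nat_lit 9) (nat_lit 7))
    (@En.n l22881 (nat_lit 11498) (nat_lit 1) (nat_lit 7))
    (@En.n l22882 (nat_lit 11554) (nat_lit 6) (nat_lit 10))
    (@En.n l8047 (nat_lit 11555) (nat_lit 6) (nat_lit 12))
    (@En.n l22883 (nat_lit 8632) (nat_lit 10) (nat_lit 9))
    (@En.n l22884 (nat_lit 11500) (nat_lit 11) (nat_lit 5))
    (@En.n l3518 (nat_lit 10643) (nat_lit 0) (nat_lit 5))
    (@En.n l11228 (nat_lit 8072) (nat_lit 7) (nat_lit 9))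
    (@En.n l22689 (nat_lit 9164) (nat_lit 10) (nat_lit 9))
    (@En.n l22885 (nat_lit 11661) (nat_lit 2) (nat_lit 5))
    (@En.n l619 (nat_lit 11547) (nat_lit 5) (nat_lit 11))
    (@En.n l8047 (nat_lit 11479) (nat_lit 9) (nat_lit 11))
    (@En.n l77 (nat_lit 11997) (nat_lit 10) (nat_lit 6))
    (@En.n l16699 (nat_lit 11544) (nat_lit 14) (nat_lit 7))
    (@En.n l18 (nat_lit 8008) (nat_lit 4) (nat_lit 11))
    (@En.n l3523 (nat_lit 8563) (nat_lit 15) (nat_lit 4))))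
  (@Cl.mk (nat_lit 0x20009000c00070007000c0004000c00070004000b000400090009000e0005) (nat_lit 0x490030700703390) (nat_lit 16) Lb.e (@T16.mk En
    (@En.n l35376 (nat_lit 11552) (nat_lit 6) (nat_lit 5))
    (@En.n l35377 (nat_lit 12108) (nat_lit 1) (nat_lit 14))
    (@En.n l1316 (nat_lit 8065) (nat_lit 2) (nat_lit 9))
    (@En.n l2117 (nat_lit 10263) (nat_lit 3) (nat_lit 9))
    (@En.n l35378 (nat_lit 6447) (nat_lit 4) (nat_lit 4))
    (@En.n l9397 (nat_lit 10516) (nat_lit 0) (nat_lit 11))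
    (@En.n l1203 (nat_lit 11064) (nat_lit 6) (nat_lit 4))
    (@En.n l35379 (nat_lit 11545) (nat_lit 7) (nat_lit 7))
    (@En.n l30515 (nat_lit 6470) (nat_lit 9) (nat_lit 12))
    (@En.n l35380 (nat_lit 11547) (nat_lit 9) (nat_lit 4))
    (@En.i (nat_lit 6248) (nat_lit 11) (nat_lit 12))
    (@En.n l18462 (nat_lit 11541) (nat_lit 12) (nat_lit 7))
    (@En.n l35381 (nat_lit 11180) (nat_lit 13) (nat_lit 7))
    (@En.i (nat_lit 12258) (nat_lit 6) (nat_lit 12))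
    (@En.n l35382 (nat_lit 9434) (nat_lit 4) (nat_lit 9))
    (@En.n l7 (nat_lit 11549) (nat_lit 15) (nat_lit 2))))
  (@Cl.mk (nat_lit 0x2000a000d000800070003000c0006000c000a0004000800040009000e0006) (nat_lit 0x695006087010430) (nat_lit 16) Lb.e (@T16.mk En
    (@En.i (nat_lit 11498) (nat_lit 5) (nat_lit 6))
    (@En.i (nat_lit 6396) (nat_lit 1) (nat_lit 14))
    (@En.n l1897 (nat_lit 11549) (nat_lit 2) (nat_lit 9))
    (@En.n l50 (nat_lit 9775) (nat_lit 3) (nat_lit 4))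
    (@En.i (nat_lit 7888) (nat_lit 4) (nat_lit 8))
    (@En.n l21271 (nat_lit 6577) (nat_lit 5) (nat_lit 4))
    (@En.n l217 (nat_lit 10542) (nat_lit 0) (nat_lit 10))
    (@En.n l4634 (nat_lit 12069) (nat_lit 8) (nat_lit 12))
    (@En.i (nat_lit 11551) (nat_lit 8) (nat_lit 6))
    (@En.i (nat_lit 8016) (nat_lit 10) (nat_lit 12))
    (@En.n l152 (nat_lit 10970) (nat_lit 10) (nat_lit 3))
    (@En.n l5588 (nat_lit 8040) (nat_lit 12) (nat_lit 7))
    (@En.n l619 (nat_lit 10971) (nat_lit 13) (nat_lit 8))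
    (@En.i (nat_lit 11564) (nat_lit 5) (nat_lit 13))
    (@En.n l22927 (nat_lit 9075) (nat_lit 3) (nat_lit 10))
    (@En.n l17 (nat_lit 11550) (nat_lit 15) (nat_lit 2))))
  (@Cl.mk (nat_lit 0x2000a0008000d0009000800030006000c000a0008000700040008000e0006) (nat_lit 0x72a610097600410) (nat_lit 16) Lb.e (@T16.mk En
    (@En.n l21265 (nat_lit 10964) (nat_lit 6) (nat_lit 6))
    (@En.i (nat_lit 6249) (nat_lit 1) (nat_lit 14))
    (@En.n l21266 (nat_lit 11545) (nat_lit 2) (nat_lit 8))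
    (@En.n l21267 (nat_lit 9774) (nat_lit 3) (nat_lit 4))
    (@En.n l17105 (nat_lit 7889) (nat_lit 4) (nat_lit 7))
    (@En.n l21268 (nat_lit 10248) (nat_lit 5) (nat_lit 8))
    (@En.n l21269 (nat_lit 10540) (nat_lit 13) (nat_lit 10))
    (@En.n l21270 (nat_lit 11899) (nat_lit 8) (nat_lit 12))
    (@En.n l13673 (nat_lit 5151) (nat_lit 12) (nat_lit 6))
    (@En.n l152 (nat_lit 10966) (nat_lit 9) (nat_lit 3))
    (@En.n l21271 (nat_lit 8041) (nat_lit 0) (nat_lit 8))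
    (@En.n l21272 (nat_lit 11182) (nat_lit 12) (nat_lit 9))
    (@En.n l28 (nat_lit 11550) (nat_lit 13) (nat_lit 13))
    (@En.n l21268 (nat_lit 6576) (nat_lit 14) (nat_lit 8))
    (@En.n l13923 (nat_lit 9077) (nat_lit 4) (nat_lit 10))
    (@En.n l17 (nat_lit 11551) (nat_lit 15) (nat_lit 2))))
noncomputable def a722 : T16 Cl := @T16.mk Cl
  (@Cl.mk (nat_lit 0x4000b00070004000b000b0005000a000a000500050009000c00060006000c) (nat_lit 0x600580440028002) (nat_lit 16) Lb.e (@T16.mk En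
    (@En.n l31854 (nat_lit 6355) (nat_lit 0) (nat_lit 12))
    (@En.n l6962 (nat_lit 11536) (nat_lit 10) (nat_lit 6))
    (@En.n l16580 (nat_lit 9847) (nat_lit 5) (nat_lit 6))
    (@En.n l31855 (nat_lit 12084) (nat_lit 6) (nat_lit 12))
    (@En.n l31856 (nat_lit 9436) (nat_lit 10) (nat_lit 9))
    (@En.n l644 (nat_lit 11501) (nat_lit 11) (nat_lit 5))
    (@En.n l16582 (nat_lit 11775) (nat_lit 0) (nat_lit 5))
    (@En.n l31857 (nat_lit 8071) (nat_lit 6) (nat_lit 10))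
    (@En.n l31858 (nat_lit 10269) (nat_lit 1) (nat_lit 10))
    (@En.n l6042 (nat_lit 11404) (nat_lit 2) (nat_lit 5))
    (@En.n l31859 (nat_lit 11549) (nat_lit 5) (nat_lit 11))
    (@En.n l31860 (nat_lit 10522) (nat_lit 1) (nat_lit 11))
    (@En.n l31861 (nat_lit 11558) (nat_lit 2) (nat_lit 4))
    (@En.i (nat_lit 11543) (nat_lit 0) (nat_lit 7))
    (@En.n l16578 (nat_lit 6474) (nat_lit 1) (nat_lit 11))
    (@En.n l19396 (nat_lit 11548) (nat_lit 15) (nat_lit 4))))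
  (@Cl.mk (nat_lit 0x2000a000a00070007000c000b000600060004000b000500090009000e0005) (nat_lit 0x5400a5000305290) (nat_lit 16) Lb.e (@T16.mk En
    (@En.n l6993 (nat_lit 11554) (nat_lit 9) (nat_lit 5))
    (@En.n l19592 (nat_lit 12686) (nat_lit 1) (nat_lit 14))
    (@En.n l17165 (nat_lit 8070) (nat_lit 2) (nat_lit 9))
    (@En.n l19593 (nat_lit 11132) (nat_lit 3) (nat_lit 9))
    (@En.n l685 (nat_lit 4783) (nat_lit 4) (nat_lit 5))
    (@En.i (nat_lit 10793) (nat_lit 6) (nat_lit 11))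
    (@En.n l17159 (nat_lit 11549) (nat_lit 6) (nat_lit 4))
    (@En.n l3498 (nat_lit 12617) (nat_lit 10) (nat_lit 6))
    (@En.n l19594 (nat_lit 11560) (nat_lit 8) (nat_lit 6))
    (@En.n l8195 (nat_lit 11057) (nat_lit 10) (nat_lit 11))
    (@En.n l3506 (nat_lit 5885) (nat_lit 11) (nat_lit 12))
    (@En.n l644 (nat_lit 11062) (nat_lit 12) (nat_lit 7))
    (@En.n l19592 (nat_lit 11170) (nat_lit 13) (nat_lit 7))
    (@En.n l4003 (nat_lit 12255) (nat_lit 6) (nat_lit 10))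
    (@En.n l19595 (nat_lit 9319) (nat_lit 14) (nat_lit 10))
    (@En.n l17 (nat_lit 11553) (nat_lit 15) (nat_lit 2))))
  (@Cl.mk (nat_lit 0x4000b000b0006000a000a00050005000a000a00060006000c000a00060006) (nat_lit 0x340620025004500) (nat_lit 16) Lb.e (@T16.mk En
    (@En.n l8390 (nat_lit 11559) (nat_lit 10) (nat_lit 6))
    (@En.n l17080 (nat_lit 11562) (nat_lit 1) (nat_lit 6))
    (@En.n l15874 (nat_lit 10998) (nat_lit 6) (nat_lit 10))
    (@En.n l17080 (nat_lit 5883) (nat_lit 3) (nat_lit 12))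
    (@En.n l17336 (nat_lit 11556) (nat_lit 10) (nat_lit 6))
    (@En.n l17337 (nat_lit 11179) (nat_lit 5) (nat_lit 6))
    (@En.n l4494 (nat_lit 11557) (nat_lit 6) (nat_lit 10))
    (@En.n l17338 (nat_lit 9463) (nat_lit 10) (nat_lit 10))
    (@En.n l17339 (nat_lit 11555) (nat_lit 11) (nat_lit 5))
    (@En.n l984 (nat_lit 11093) (nat_lit 0) (nat_lit 5))
    (@En.n l644 (nat_lit 8113) (nat_lit 6) (nat_lit 10))
    (@En.n l982 (nat_lit 10338) (nat_lit 9) (nat_lit 10))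
    (@En.n l17340 (nat_lit 7736) (nat_lit 2) (nat_lit 6))
    (@En.n l17341 (nat_lit 11553) (nat_lit 5) (nat_lit 11))
    (@En.n l17342 (nat_lit 8010) (nat_lit 1) (nat_lit 11))
    (@En.n l17343 (nat_lit 11552) (nat_lit 12) (nat_lit 4))))
  (@Cl.mk (nat_lit 0x20007000b000b0005000a000a00050005000c0009000600060004000e000b) (nat_lit 0x720170075000c4) (nat_lit 16) Lb.e (@T16.mk En
    (@En.n l7432 (nat_lit 11554) (nat_lit 14) (nat_lit 11))
    (@En.n l7433 (nat_lit 4530) (nat_lit 1) (nat_lit 14))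
    (@En.n l7260 (nat_lit 11501) (nat_lit 2) (nat_lit 4))
    (@En.n l7434 (nat_lit 12562) (nat_lit 10) (nat_lit 6))
    (@En.n l7435 (nat_lit 11563) (nat_lit 4) (nat_lit 6))
    (@En.n l7436 (nat_lit 12083) (nat_lit 5) (nat_lit 9))
    (@En.n l7437 (nat_lit 6763) (nat_lit 7) (nat_lit 12))
    (@En.n l7438 (nat_lit 12760) (nat_lit 11) (nat_lit 5))
    (@En.n l7439 (nat_lit 11409) (nat_lit 8) (nat_lit 5))
    (@En.n l152 (nat_lit 12090) (nat_lit 6) (nat_lit 10))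
    (@En.n l4817 (nat_lit 8730) (nat_lit 11) (nat_lit 10))
    (@En.n l7440 (nat_lit 11727) (nat_lit 12) (nat_lit 5))
    (@En.n l644 (nat_lit 8115) (nat_lit 13) (nat_lit 11))
    (@En.i (nat_lit 10335) (nat_lit 14) (nat_lit 11))
    (@En.n l7441 (nat_lit 10740) (nat_lit 2) (nat_lit 7))
    (@En.n l11 (nat_lit 11555) (nat_lit 15) (nat_lit 2))))
  (@Cl.mk (nat_lit 0x200060006000b000b0006000c000a000500050004000a000a0006000e000a) (nat_lit 0x2603400054037) (nat_lit 16) Lb.e (@T16.mk En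
    (@En.n l6993 (nat_lit 11554) (nat_lit 11) (nat_lit 10))
    (@En.n l6994 (nat_lit 11638) (nat_lit 1) (nat_lit 14))
    (@En.n l6995 (nat_lit 7175) (nat_lit 2) (nat_lit 6))
    (@En.n l61 (nat_lit 11062) (nat_lit 6) (nat_lit 10))
    (@En.n l6996 (nat_lit 7997) (nat_lit 4) (nat_lit 10))
    (@En.n l6997 (nat_lit 11536) (nat_lit 5) (nat_lit 4))
    (@En.n l6998 (nat_lit 12758) (nat_lit 6) (nat_lit 5))
    (@En.n l6999 (nat_lit 11537) (nat_lit 7) (nat_lit 5))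
    (@En.n l7000 (nat_lit 11056) (nat_lit 9) (nat_lit 10))
    (@En.i (nat_lit 1169) (nat_lit 10) (nat_lit 12))
    (@En.n l7001 (nat_lit 11406) (nat_lit 11) (nat_lit 6))
    (@En.n l7002 (nat_lit 12762) (nat_lit 5) (nat_lit 11))
    (@En.n l7003 (nat_lit 9565) (nat_lit 13) (nat_lit 11))
    (@En.n l7004 (nat_lit 12760) (nat_lit 14) (nat_lit 6))
    (@En.n l6999 (nat_lit 11839) (nat_lit 13) (nat_lit 6))
    (@En.n l50 (nat_lit 11556) (nat_lit 15) (nat_lit 2))))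
  (@Cl.mk (nat_lit 0x20005000b000b0007000b000b00050005000a00050005000b0009000e0006) (nat_lit 0x38077004008570) (nat_lit 16) Lb.e (@T16.mk En
    (@En.n l7432 (nat_lit 11554) (nat_lit 1) (nat_lit 6))
    (@En.n l16488 (nat_lit 12087) (nat_lit 1) (nat_lit 14))
    (@En.n l7234 (nat_lit 10995) (nat_lit 2) (nat_lit 9))
    (@En.n l21588 (nat_lit 5881) (nat_lit 3) (nat_lit 11))
    (@En.n l21589 (nat_lit 12762) (nat_lit 4) (nat_lit 5))
    (@En.n l7 (nat_lit 12094) (nat_lit 5) (nat_lit 5))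
    (@En.n l117 (nat_lit 8119) (nat_lit 7) (nat_lit 10))
    (@En.n l575 (nat_lit 12090) (nat_lit 7) (nat_lit 5))
    (@En.n l21590 (nat_lit 12811) (nat_lit 8) (nat_lit 5))
    (@En.n l11881 (nat_lit 8112) (nat_lit 10) (nat_lit 11))
    (@En.i (nat_lit 11127) (nat_lit 11) (nat_lit 11))
    (@En.n l21591 (nat_lit 7176) (nat_lit 12) (nat_lit 7))
    (@En.n l21592 (nat_lit 12255) (nat_lit 13) (nat_lit 11))
    (@En.n l21593 (nat_lit 10994) (nat_lit 14) (nat_lit 11))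
    (@En.i (nat_lit 12083) (nat_lit 13) (nat_lit 5))
    (@En.n l3 (nat_lit 11557) (nat_lit 15) (nat_lit 2))))
  (@Cl.mk (nat_lit 0x4000a000a00050005000b000b00060006000c00050005000c0004000b000b) (nat_lit 0x720085004009075) (nat_lit 16) Lb.e (@T16.mk En
    (@En.n l32558 (nat_lit 11064) (nat_lit 5) (nat_lit 11))
    (@En.n l1392 (nat_lit 10930) (nat_lit 1) (nat_lit 11))
    (@En.n l32559 (nat_lit 11554) (nat_lit 15) (nat_lit 4))
    (@En.n l32560 (nat_lit 5174) (nat_lit 0) (nat_lit 12))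
    (@En.n l30127 (nat_lit 12266) (nat_lit 11) (nat_lit 5))
    (@En.n l1392 (nat_lit 10740) (nat_lit 5) (nat_lit 5))
    (@En.n l77 (nat_lit 5888) (nat_lit 0) (nat_lit 12))
    (@En.n l27852 (nat_lit 11066) (nat_lit 10) (nat_lit 6))
    (@En.n l32561 (nat_lit 11178) (nat_lit 2) (nat_lit 6))
    (@En.n l32562 (nat_lit 12087) (nat_lit 5) (nat_lit 11))
    (@En.n l32563 (nat_lit 9459) (nat_lit 11) (nat_lit 11))
    (@En.n l32564 (nat_lit 12084) (nat_lit 11) (nat_lit 5))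
    (@En.n l32565 (nat_lit 11778) (nat_lit 9) (nat_lit 5))
    (@En.n l17062 (nat_lit 12256) (nat_lit 6) (nat_lit 10))
    (@En.n l13901 (nat_lit 10337) (nat_lit 1) (nat_lit 10))
    (@En.n l32566 (nat_lit 10997) (nat_lit 2) (nat_lit 4))))
  (@Cl.mk (nat_lit 0x200070007000d000b00060003000b000b00050009000900050005000e000a) (nat_lit 0x35006705200a3) (nat_lit 16) Lb.e (@T16.mk En
    (@En.n l2900 (nat_lit 11554) (nat_lit 7) (nat_lit 10))
    (@En.n l3786 (nat_lit 11521) (nat_lit 1) (nat_lit 14))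
    (@En.n l6972 (nat_lit 12562) (nat_lit 2) (nat_lit 5))
    (@En.n l6563 (nat_lit 12264) (nat_lit 3) (nat_lit 5))
    (@En.n l152 (nat_lit 12564) (nat_lit 7) (nat_lit 9))
    (@En.n l2900 (nat_lit 12501) (nat_lit 5) (nat_lit 9))
    (@En.n l77 (nat_lit 7187) (nat_lit 6) (nat_lit 5))
    (@En.n l6973 (nat_lit 12617) (nat_lit 8) (nat_lit 11))
    (@En.n l6974 (nat_lit 7719) (nat_lit 9) (nat_lit 11))
    (@En.n l6975 (nat_lit 12266) (nat_lit 9) (nat_lit 3))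
    (@En.n l2900 (nat_lit 11516) (nat_lit 0) (nat_lit 6))
    (@En.n l6976 (nat_lit 12524) (nat_lit 12) (nat_lit 11))
    (@En.n l6977 (nat_lit 6764) (nat_lit 13) (nat_lit 13))
    (@En.n l3779 (nat_lit 12758) (nat_lit 9) (nat_lit 7))
    (@En.n l6978 (nat_lit 12345) (nat_lit 4) (nat_lit 7))
    (@En.n l17 (nat_lit 11559) (nat_lit 15) (nat_lit 2))))
  (@Cl.mk (nat_lit 0x2000a0007000b00080008000d000600050003000b000900080008000e0005) (nat_lit 0x705634000453370) (nat_lit 16) Lb.e (@T16.mk En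
    (@En.n l34650 (nat_lit 11562) (nat_lit 9) (nat_lit 5))
    (@En.n l34651 (nat_lit 12107) (nat_lit 1) (nat_lit 14))
    (@En.n l891 (nat_lit 8069) (nat_lit 2) (nat_lit 8))
    (@En.n l34132 (nat_lit 10264) (nat_lit 3) (nat_lit 8))
    (@En.n l34652 (nat_lit 5591) (nat_lit 4) (nat_lit 9))
    (@En.n l34653 (nat_lit 11579) (nat_lit 6) (nat_lit 11))
    (@En.n l34654 (nat_lit 11545) (nat_lit 6) (nat_lit 3))
    (@En.i (nat_lit 5949) (nat_lit 0) (nat_lit 5))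
    (@En.n l34655 (nat_lit 10737) (nat_lit 8) (nat_lit 6))
    (@En.n l34650 (nat_lit 6245) (nat_lit 10) (nat_lit 13))
    (@En.n l34656 (nat_lit 11542) (nat_lit 11) (nat_lit 8))
    (@En.n l34652 (nat_lit 11181) (nat_lit 12) (nat_lit 8))
    (@En.n l34653 (nat_lit 11064) (nat_lit 13) (nat_lit 11))
    (@En.n l839 (nat_lit 5720) (nat_lit 14) (nat_lit 7))
    (@En.n l3647 (nat_lit 9455) (nat_lit 8) (nat_lit 10))
    (@En.n l17 (nat_lit 11560) (nat_lit 15) (nat_lit 2))))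
  (@Cl.mk (nat_lit 0x2000d000700060003000c000c000b00090004000400090005000a000e0007) (nat_lit 0x400099630060540) (nat_lit 16) Lb.e (@T16.mk En
    (@En.n l40506 (nat_lit 11562) (nat_lit 4) (nat_lit 7))
    (@En.i (nat_lit 4510) (nat_lit 1) (nat_lit 14))
    (@En.n l1353 (nat_lit 12256) (nat_lit 2) (nat_lit 10))
    (@En.i (nat_lit 5604) (nat_lit 3) (nat_lit 5))
    (@En.n l2869 (nat_lit 9450) (nat_lit 4) (nat_lit 9))
    (@En.n l8258 (nat_lit 11564) (nat_lit 12) (nat_lit 4))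
    (@En.n l2131 (nat_lit 11017) (nat_lit 6) (nat_lit 4))
    (@En.n l39603 (nat_lit 5338) (nat_lit 0) (nat_lit 9))
    (@En.n l3522 (nat_lit 12066) (nat_lit 9) (nat_lit 11))
    (@En.n l3471 (nat_lit 8069) (nat_lit 4) (nat_lit 12))
    (@En.i (nat_lit 11574) (nat_lit 11) (nat_lit 12))
    (@En.n l5331 (nat_lit 4178) (nat_lit 11) (nat_lit 3))
    (@En.n l1723 (nat_lit 12392) (nat_lit 0) (nat_lit 6))
    (@En.n l2805 (nat_lit 10745) (nat_lit 14) (nat_lit 7))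
    (@En.n l61 (nat_lit 9748) (nat_lit 2) (nat_lit 13))
    (@En.n l7 (nat_lit 11561) (nat_lit 15) (nat_lit 2))))
  (@Cl.mk (nat_lit 0x3000b000b000a0009000900050005000a0006000b00070007000d00060005) (nat_lit 0x456440020600200) (nat_lit 16) Lb.e (@T16.mk En
    (@En.n l32615 (nat_lit 5953) (nat_lit 0) (nat_lit 5))
    (@En.n l29389 (nat_lit 10739) (nat_lit 0) (nat_lit 6))
    (@En.i (nat_lit 2417) (nat_lit 2) (nat_lit 13))
    (@En.n l14834 (nat_lit 11537) (nat_lit 9) (nat_lit 7))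
    (@En.n l32616 (nat_lit 9862) (nat_lit 4) (nat_lit 7))
    (@En.n l29128 (nat_lit 11558) (nat_lit 9) (nat_lit 11))
    (@En.n l32616 (nat_lit 5607) (nat_lit 6) (nat_lit 6))
    (@En.n l32617 (nat_lit 9454) (nat_lit 8) (nat_lit 10))
    (@En.n l32618 (nat_lit 11563) (nat_lit 11) (nat_lit 5))
    (@En.n l11 (nat_lit 11773) (nat_lit 9) (nat_lit 5))
    (@En.n l32619 (nat_lit 11561) (nat_lit 7) (nat_lit 9))
    (@En.n l32620 (nat_lit 10267) (nat_lit 7) (nat_lit 9))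
    (@En.n l77 (nat_lit 12065) (nat_lit 6) (nat_lit 10))
    (@En.n l32621 (nat_lit 11560) (nat_lit 5) (nat_lit 11))
    (@En.n l29124 (nat_lit 8012) (nat_lit 4) (nat_lit 11))
    (@En.n l32622 (nat_lit 11543) (nat_lit 15) (nat_lit 3))))
  (@Cl.mk (nat_lit 0x2000b000a000a0005000a0005000b00060006000d000600050003000e000b) (nat_lit 0x2320208001000b5) (nat_lit 16) Lb.e (@T16.mk En
    (@En.n l17644 (nat_lit 11562) (nat_lit 14) (nat_lit 11))
    (@En.n l17645 (nat_lit 8007) (nat_lit 1) (nat_lit 14))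
    (@En.n l17646 (nat_lit 11566) (nat_lit 2) (nat_lit 3))
    (@En.n l17647 (nat_lit 12385) (nat_lit 3) (nat_lit 5))
    (@En.n l17648 (nat_lit 11572) (nat_lit 4) (nat_lit 6))
    (@En.n l8638 (nat_lit 2416) (nat_lit 6) (nat_lit 13))
    (@En.n l8639 (nat_lit 12383) (nat_lit 10) (nat_lit 6))
    (@En.n l50 (nat_lit 11194) (nat_lit 7) (nat_lit 6))
    (@En.n l17649 (nat_lit 12084) (nat_lit 9) (nat_lit 11))
    (@En.n l50 (nat_lit 7993) (nat_lit 9) (nat_lit 5))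
    (@En.n l8605 (nat_lit 8732) (nat_lit 11) (nat_lit 10))
    (@En.n l17650 (nat_lit 10579) (nat_lit 12) (nat_lit 5))
    (@En.n l61 (nat_lit 11564) (nat_lit 13) (nat_lit 10))
    (@En.n l217 (nat_lit 10332) (nat_lit 14) (nat_lit 10))
    (@En.n l8643 (nat_lit 10605) (nat_lit 12) (nat_lit 11))
    (@En.n l28 (nat_lit 11563) (nat_lit 15) (nat_lit 2))))
  (@Cl.mk (nat_lit 0x2000c000a000400090004000a000e00060002000d000700060003000e000c) (nat_lit 0x71010680080005a) (nat_lit 16) Lb.e (@T16.mk En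
    (@En.n l649 (nat_lit 11561) (nat_lit 10) (nat_lit 12))
    (@En.i (nat_lit 8005) (nat_lit 1) (nat_lit 14))
    (@En.n l152 (nat_lit 11565) (nat_lit 2) (nat_lit 3))
    (@En.n l5588 (nat_lit 12391) (nat_lit 3) (nat_lit 6))
    (@En.n l97 (nat_lit 11571) (nat_lit 14) (nat_lit 7))
    (@En.n l1867 (nat_lit 9747) (nat_lit 6) (nat_lit 13))
    (@En.n l17 (nat_lit 11564) (nat_lit 6) (nat_lit 2))
    (@En.i (nat_lit 11563) (nat_lit 7) (nat_lit 6))
    (@En.i (nat_lit 4517) (nat_lit 9) (nat_lit 14))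
    (@En.n l1897 (nat_lit 12258) (nat_lit 10) (nat_lit 10))
    (@En.n l50 (nat_lit 7991) (nat_lit 10) (nat_lit 4))
    (@En.i (nat_lit 7456) (nat_lit 4) (nat_lit 9))
    (@En.i (nat_lit 4174) (nat_lit 5) (nat_lit 4))
    (@En.n l217 (nat_lit 5339) (nat_lit 14) (nat_lit 10))
    (@En.n l1897 (nat_lit 12479) (nat_lit 8) (nat_lit 12))
    (@En.n l28 (nat_lit 11564) (nat_lit 15) (nat_lit 2))))
  (@Cl.mk (nat_lit 0x2000c000a000400080004000b000e00060002000d000500080003000e000c) (nat_lit 0x730108700802061) (nat_lit 16) Lb.e (@T16.mk En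
    (@En.i (nat_lit 4178) (nat_lit 10) (nat_lit 12))
    (@En.i (nat_lit 5077) (nat_lit 1) (nat_lit 14))
    (@En.n l117 (nat_lit 11564) (nat_lit 2) (nat_lit 3))
    (@En.n l781 (nat_lit 4909) (nat_lit 3) (nat_lit 8))
    (@En.i (nat_lit 11567) (nat_lit 14) (nat_lit 5))
    (@En.i (nat_lit 9744) (nat_lit 6) (nat_lit 13))
    (@En.n l17 (nat_lit 11565) (nat_lit 6) (nat_lit 2))
    (@En.n l3147 (nat_lit 11566) (nat_lit 7) (nat_lit 6))
    (@En.i (nat_lit 5863) (nat_lit 4) (nat_lit 14))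
    (@En.n l5 (nat_lit 11569) (nat_lit 10) (nat_lit 11))
    (@En.n l50 (nat_lit 7990) (nat_lit 10) (nat_lit 4))
    (@En.i (nat_lit 3533) (nat_lit 4) (nat_lit 8))
    (@En.i (nat_lit 4170) (nat_lit 5) (nat_lit 4))
    (@En.n l217 (nat_lit 5560) (nat_lit 14) (nat_lit 10))
    (@En.i (nat_lit 12481) (nat_lit 8) (nat_lit 12))
    (@En.n l28 (nat_lit 11565) (nat_lit 15) (nat_lit 2))))
  (@Cl.mk (nat_lit 0x2000b000a000a000500090005000c00060006000d000400070003000e000b) (nat_lit 0x7340203009000c5) (nat_lit 16) Lb.e (@T16.mk En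
    (@En.i (nat_lit 11543) (nat_lit 14) (nat_lit 11))
    (@En.n l899 (nat_lit 7572) (nat_lit 1) (nat_lit 14))
    (@En.n l31324 (nat_lit 11563) (nat_lit 2) (nat_lit 3))
    (@En.n l12809 (nat_lit 4775) (nat_lit 11) (nat_lit 7))
    (@En.i (nat_lit 11568) (nat_lit 4) (nat_lit 4))
    (@En.n l899 (nat_lit 4437) (nat_lit 6) (nat_lit 13))
    (@En.n l9272 (nat_lit 12400) (nat_lit 10) (nat_lit 6))
    (@En.n l3851 (nat_lit 11193) (nat_lit 7) (nat_lit 6))
    (@En.n l2196 (nat_lit 11501) (nat_lit 9) (nat_lit 12))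
    (@En.i (nat_lit 7992) (nat_lit 9) (nat_lit 5))
    (@En.i (nat_lit 7426) (nat_lit 11) (nat_lit 9))
    (@En.n l61 (nat_lit 10576) (nat_lit 12) (nat_lit 5))
    (@En.n l9279 (nat_lit 11565) (nat_lit 13) (nat_lit 10))
    (@En.n l3518 (nat_lit 10331) (nat_lit 14) (nat_lit 10))
    (@En.n l18 (nat_lit 10606) (nat_lit 12) (nat_lit 11))
    (@En.n l50 (nat_lit 11566) (nat_lit 15) (nat_lit 2))))
  (@Cl.mk (nat_lit 0x2000500080006000e000c0002000c0009000400080004000b000a000e0007) (nat_lit 0x10470630308780) (nat_lit 16) Lb.e (@T16.mk En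
    (@En.n l3147 (nat_lit 11568) (nat_lit 6) (nat_lit 7))
    (@En.n l3 (nat_lit 11565) (nat_lit 8) (nat_lit 14))
    (@En.n l3 (nat_lit 11564) (nat_lit 9) (nat_lit 10))
    (@En.n l15054 (nat_lit 11570) (nat_lit 3) (nat_lit 11))
    (@En.n l50 (nat_lit 7253) (nat_lit 4) (nat_lit 4))
    (@En.i (nat_lit 7447) (nat_lit 5) (nat_lit 8))
    (@En.n l7112 (nat_lit 4171) (nat_lit 6) (nat_lit 4))
    (@En.n l217 (nat_lit 5558) (nat_lit 14) (nat_lit 9))
    (@En.n l17733 (nat_lit 12480) (nat_lit 9) (nat_lit 12))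
    (@En.n l28 (nat_lit 11567) (nat_lit 9) (nat_lit 2))
    (@En.i (nat_lit 8073) (nat_lit 11) (nat_lit 12))
    (@En.n l3264 (nat_lit 5062) (nat_lit 12) (nat_lit 14))
    (@En.n l10028 (nat_lit 12393) (nat_lit 13) (nat_lit 6))
    (@En.n l3105 (nat_lit 11349) (nat_lit 14) (nat_lit 8))
    (@En.n l3106 (nat_lit 8552) (nat_lit 13) (nat_lit 5))
    (@En.n l17 (nat_lit 11567) (nat_lit 15) (nat_lit 2))))
noncomputable def a723 : T16 Cl := @T16.mk Cl
  (@Cl.mk (nat_lit 0x2000b00090009000500090005000c000b00070007000400070005000e000b) (nat_lit 0x1140305900000b6) (nat_lit 16) Lb.e (@T16.mk En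
    (@En.i (nat_lit 11544) (nat_lit 12) (nat_lit 11))
    (@En.n l13131 (nat_lit 5056) (nat_lit 1) (nat_lit 14))
    (@En.n l22919 (nat_lit 12381) (nat_lit 2) (nat_lit 5))
    (@En.n l22920 (nat_lit 7975) (nat_lit 3) (nat_lit 7))
    (@En.n l22921 (nat_lit 8560) (nat_lit 4) (nat_lit 4))
    (@En.n l9272 (nat_lit 12382) (nat_lit 9) (nat_lit 7))
    (@En.n l3647 (nat_lit 11499) (nat_lit 6) (nat_lit 7))
    (@En.n l22922 (nat_lit 11563) (nat_lit 8) (nat_lit 11))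
    (@En.n l22923 (nat_lit 11500) (nat_lit 9) (nat_lit 12))
    (@En.i (nat_lit 7252) (nat_lit 9) (nat_lit 5))
    (@En.n l13131 (nat_lit 7120) (nat_lit 11) (nat_lit 9))
    (@En.n l6277 (nat_lit 10634) (nat_lit 12) (nat_lit 5))
    (@En.n l9279 (nat_lit 11567) (nat_lit 7) (nat_lit 9))
    (@En.n l3518 (nat_lit 9161) (nat_lit 14) (nat_lit 9))
    (@En.n l18 (nat_lit 56) (nat_lit 2) (nat_lit 11))
    (@En.n l50 (nat_lit 11568) (nat_lit 15) (nat_lit 2))))
  (@Cl.mk (nat_lit 0x20006000b00040008000b000e00050002000c0005000a00080004000e000c) (nat_lit 0x10177008063079) (nat_lit 16) Lb.e (@T16.mk En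
    (@En.n l134 (nat_lit 8071) (nat_lit 9) (nat_lit 12))
    (@En.n l1253 (nat_lit 7577) (nat_lit 1) (nat_lit 14))
    (@En.n l16785 (nat_lit 12258) (nat_lit 2) (nat_lit 4))
    (@En.n l2593 (nat_lit 11565) (nat_lit 3) (nat_lit 8))
    (@En.n l15166 (nat_lit 8022) (nat_lit 4) (nat_lit 10))
    (@En.n l2642 (nat_lit 11570) (nat_lit 14) (nat_lit 5))
    (@En.n l29163 (nat_lit 9752) (nat_lit 7) (nat_lit 12))
    (@En.n l18 (nat_lit 11569) (nat_lit 7) (nat_lit 2))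
    (@En.n l18284 (nat_lit 11501) (nat_lit 8) (nat_lit 5))
    (@En.i (nat_lit 12808) (nat_lit 10) (nat_lit 14))
    (@En.n l1081 (nat_lit 12088) (nat_lit 7) (nat_lit 11))
    (@En.n l387 (nat_lit 3527) (nat_lit 12) (nat_lit 8))
    (@En.i (nat_lit 4175) (nat_lit 4) (nat_lit 4))
    (@En.i (nat_lit 5564) (nat_lit 14) (nat_lit 11))
    (@En.n l766 (nat_lit 11960) (nat_lit 6) (nat_lit 6))
    (@En.n l28 (nat_lit 11569) (nat_lit 15) (nat_lit 2))))
  (@Cl.mk (nat_lit 0x20005000a00080007000e000c00020006000a00040008000b0009000e0006) (nat_lit 0x72068003017780) (nat_lit 16) Lb.e (@T16.mk En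
    (@En.i (nat_lit 11500) (nat_lit 7) (nat_lit 6))
    (@En.n l899 (nat_lit 11569) (nat_lit 9) (nat_lit 14))
    (@En.i (nat_lit 8115) (nat_lit 10) (nat_lit 9))
    (@En.i (nat_lit 12761) (nat_lit 3) (nat_lit 11))
    (@En.n l12585 (nat_lit 3537) (nat_lit 4) (nat_lit 8))
    (@En.i (nat_lit 11931) (nat_lit 5) (nat_lit 4))
    (@En.i (nat_lit 5539) (nat_lit 14) (nat_lit 10))
    (@En.n l649 (nat_lit 12162) (nat_lit 7) (nat_lit 6))
    (@En.n l11 (nat_lit 11570) (nat_lit 8) (nat_lit 2))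
    (@En.n l7088 (nat_lit 8072) (nat_lit 10) (nat_lit 12))
    (@En.n l2038 (nat_lit 5061) (nat_lit 11) (nat_lit 14))
    (@En.n l21886 (nat_lit 12298) (nat_lit 2) (nat_lit 7))
    (@En.n l21887 (nat_lit 11567) (nat_lit 13) (nat_lit 8))
    (@En.n l18316 (nat_lit 8005) (nat_lit 4) (nat_lit 10))
    (@En.n l21888 (nat_lit 8555) (nat_lit 5) (nat_lit 5))
    (@En.n l50 (nat_lit 11570) (nat_lit 15) (nat_lit 2))))
  (@Cl.mk (nat_lit 0x2000700050008000e000c0002000b00090004000900080005000b000e0007) (nat_lit 0x2540810220290) (nat_lit 16) Lb.e (@T16.mk En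
    (@En.n l3147 (nat_lit 11572) (nat_lit 6) (nat_lit 7))
    (@En.i (nat_lit 5716) (nat_lit 4) (nat_lit 14))
    (@En.n l5 (nat_lit 11573) (nat_lit 9) (nat_lit 11))
    (@En.n l4021 (nat_lit 12300) (nat_lit 3) (nat_lit 5))
    (@En.i (nat_lit 11565) (nat_lit 11) (nat_lit 8))
    (@En.n l117 (nat_lit 7794) (nat_lit 5) (nat_lit 9))
    (@En.i (nat_lit 12272) (nat_lit 6) (nat_lit 4))
    (@En.n l217 (nat_lit 5513) (nat_lit 14) (nat_lit 9))
    (@En.i (nat_lit 12181) (nat_lit 9) (nat_lit 11))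
    (@En.n l28 (nat_lit 11571) (nat_lit 9) (nat_lit 2))
    (@En.i (nat_lit 10745) (nat_lit 11) (nat_lit 12))
    (@En.n l1578 (nat_lit 11348) (nat_lit 12) (nat_lit 14))
    (@En.n l20132 (nat_lit 4895) (nat_lit 13) (nat_lit 8))
    (@En.n l3550 (nat_lit 12299) (nat_lit 14) (nat_lit 5))
    (@En.n l20133 (nat_lit 12588) (nat_lit 4) (nat_lit 7))
    (@En.n l17 (nat_lit 11571) (nat_lit 15) (nat_lit 2))))
  (@Cl.mk (nat_lit 0x2000a000900090005000a00090006000c00070007000600040007000e000b) (nat_lit 0x622033020000034) (nat_lit 16) Lb.e (@T16.mk En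
    (@En.i (nat_lit 10739) (nat_lit 13) (nat_lit 11))
    (@En.n l16360 (nat_lit 9346) (nat_lit 1) (nat_lit 14))
    (@En.n l16361 (nat_lit 4908) (nat_lit 11) (nat_lit 7))
    (@En.n l9084 (nat_lit 12294) (nat_lit 3) (nat_lit 4))
    (@En.n l16362 (nat_lit 11979) (nat_lit 4) (nat_lit 6))
    (@En.n l9272 (nat_lit 12304) (nat_lit 9) (nat_lit 7))
    (@En.n l3851 (nat_lit 6462) (nat_lit 6) (nat_lit 7))
    (@En.n l16363 (nat_lit 12302) (nat_lit 8) (nat_lit 12))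
    (@En.n l7490 (nat_lit 12301) (nat_lit 8) (nat_lit 6))
    (@En.i (nat_lit 11566) (nat_lit 10) (nat_lit 9))
    (@En.n l16360 (nat_lit 5882) (nat_lit 11) (nat_lit 10))
    (@En.n l61 (nat_lit 11881) (nat_lit 12) (nat_lit 5))
    (@En.n l9279 (nat_lit 11571) (nat_lit 7) (nat_lit 9))
    (@En.n l3518 (nat_lit 10205) (nat_lit 14) (nat_lit 9))
    (@En.n l18 (nat_lit 12169) (nat_lit 11) (nat_lit 10))
    (@En.n l50 (nat_lit 11572) (nat_lit 15) (nat_lit 2))))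
  (@Cl.mk (nat_lit 0x20005000a0004000a0008000b000e0006000200060005000b0008000e000c) (nat_lit 0x10221800009368) (nat_lit 16) Lb.e (@T16.mk En
    (@En.n l16784 (nat_lit 10744) (nat_lit 10) (nat_lit 12))
    (@En.n l5577 (nat_lit 12300) (nat_lit 11) (nat_lit 14))
    (@En.n l2593 (nat_lit 11571) (nat_lit 12) (nat_lit 8))
    (@En.n l16785 (nat_lit 7172) (nat_lit 3) (nat_lit 11))
    (@En.n l16786 (nat_lit 12296) (nat_lit 4) (nat_lit 5))
    (@En.n l16787 (nat_lit 12590) (nat_lit 5) (nat_lit 6))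
    (@En.n l18 (nat_lit 11573) (nat_lit 6) (nat_lit 2))
    (@En.n l16787 (nat_lit 12302) (nat_lit 7) (nat_lit 6))
    (@En.i (nat_lit 12374) (nat_lit 9) (nat_lit 14))
    (@En.n l16788 (nat_lit 2633) (nat_lit 2) (nat_lit 11))
    (@En.i (nat_lit 11569) (nat_lit 11) (nat_lit 8))
    (@En.n l16789 (nat_lit 7795) (nat_lit 12) (nat_lit 10))
    (@En.n l16790 (nat_lit 12271) (nat_lit 5) (nat_lit 4))
    (@En.i (nat_lit 3924) (nat_lit 14) (nat_lit 10))
    (@En.n l766 (nat_lit 12100) (nat_lit 7) (nat_lit 5))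
    (@En.n l28 (nat_lit 11573) (nat_lit 15) (nat_lit 2))))
  (@Cl.mk (nat_lit 0x2000800070006000c000b000a000800040008000500090006000a000e0008) (nat_lit 0x300845602010652) (nat_lit 16) Lb.e (@T16.mk En
    (@En.n l42533 (nat_lit 8012) (nat_lit 9) (nat_lit 8))
    (@En.i (nat_lit 6546) (nat_lit 1) (nat_lit 14))
    (@En.n l42534 (nat_lit 8058) (nat_lit 2) (nat_lit 10))
    (@En.i (nat_lit 11001) (nat_lit 3) (nat_lit 6))
    (@En.n l34120 (nat_lit 8182) (nat_lit 4) (nat_lit 9))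
    (@En.n l42535 (nat_lit 8006) (nat_lit 5) (nat_lit 5))
    (@En.n l32797 (nat_lit 6576) (nat_lit 6) (nat_lit 8))
    (@En.n l42536 (nat_lit 11039) (nat_lit 7) (nat_lit 4))
    (@En.n l55 (nat_lit 10458) (nat_lit 0) (nat_lit 8))
    (@En.n l3522 (nat_lit 11038) (nat_lit 10) (nat_lit 10))
    (@En.n l16894 (nat_lit 11576) (nat_lit 11) (nat_lit 11))
    (@En.n l31808 (nat_lit 11081) (nat_lit 12) (nat_lit 12))
    (@En.n l1723 (nat_lit 11284) (nat_lit 13) (nat_lit 6))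
    (@En.n l9155 (nat_lit 12795) (nat_lit 14) (nat_lit 7))
    (@En.n l38417 (nat_lit 9812) (nat_lit 6) (nat_lit 8))
    (@En.n l7 (nat_lit 11574) (nat_lit 15) (nat_lit 2))))
  (@Cl.mk (nat_lit 0x2000800070006000c00090007000d00040008000300090007000a000e0009) (nat_lit 0x600740503070742) (nat_lit 16) Lb.e (@T16.mk En
    (@En.n l37978 (nat_lit 11579) (nat_lit 11) (nat_lit 9))
    (@En.n l3486 (nat_lit 6537) (nat_lit 1) (nat_lit 14))
    (@En.n l37979 (nat_lit 11633) (nat_lit 2) (nat_lit 10))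
    (@En.i (nat_lit 11003) (nat_lit 3) (nat_lit 7))
    (@En.n l33756 (nat_lit 9327) (nat_lit 4) (nat_lit 9))
    (@En.n l3291 (nat_lit 11576) (nat_lit 5) (nat_lit 3))
    (@En.n l253 (nat_lit 4212) (nat_lit 0) (nat_lit 8))
    (@En.n l2843 (nat_lit 11574) (nat_lit 7) (nat_lit 4))
    (@En.n l37980 (nat_lit 7953) (nat_lit 9) (nat_lit 13))
    (@En.n l30381 (nat_lit 10456) (nat_lit 1) (nat_lit 7))
    (@En.n l37981 (nat_lit 11577) (nat_lit 11) (nat_lit 9))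
    (@En.n l11028 (nat_lit 11083) (nat_lit 12) (nat_lit 12))
    (@En.n l3549 (nat_lit 8571) (nat_lit 13) (nat_lit 6))
    (@En.n l30381 (nat_lit 12706) (nat_lit 14) (nat_lit 7))
    (@En.n l13756 (nat_lit 9811) (nat_lit 6) (nat_lit 8))
    (@En.n l11 (nat_lit 11575) (nat_lit 15) (nat_lit 2))))
  (@Cl.mk (nat_lit 0x2000900070006000b00090007000d00070005000300090007000a000e0009) (nat_lit 0x600340600020736) (nat_lit 16) Lb.e (@T16.mk En
    (@En.n l30789 (nat_lit 11580) (nat_lit 11) (nat_lit 9))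
    (@En.n l4758 (nat_lit 6536) (nat_lit 1) (nat_lit 14))
    (@En.n l30790 (nat_lit 11632) (nat_lit 2) (nat_lit 10))
    (@En.n l30791 (nat_lit 11002) (nat_lit 3) (nat_lit 7))
    (@En.n l29017 (nat_lit 11280) (nat_lit 4) (nat_lit 9))
    (@En.n l2101 (nat_lit 11575) (nat_lit 5) (nat_lit 3))
    (@En.n l18 (nat_lit 5747) (nat_lit 0) (nat_lit 5))
    (@En.n l30792 (nat_lit 5269) (nat_lit 7) (nat_lit 7))
    (@En.i (nat_lit 7950) (nat_lit 9) (nat_lit 13))
    (@En.n l1075 (nat_lit 10460) (nat_lit 3) (nat_lit 7))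
    (@En.n l24610 (nat_lit 11578) (nat_lit 11) (nat_lit 9))
    (@En.n l1643 (nat_lit 11584) (nat_lit 12) (nat_lit 11))
    (@En.n l97 (nat_lit 8574) (nat_lit 13) (nat_lit 6))
    (@En.n l30793 (nat_lit 12691) (nat_lit 14) (nat_lit 7))
    (@En.n l30794 (nat_lit 9874) (nat_lit 9) (nat_lit 9))
    (@En.n l28 (nat_lit 11576) (nat_lit 15) (nat_lit 2))))
  (@Cl.mk (nat_lit 0x200090008000600090006000d000b00070003000800070005000a000e000a) (nat_lit 0x360305500400852) (nat_lit 16) Lb.e (@T16.mk En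
    (@En.n l2639 (nat_lit 11582) (nat_lit 10) (nat_lit 10))
    (@En.n l33361 (nat_lit 11587) (nat_lit 1) (nat_lit 14))
    (@En.n l33362 (nat_lit 11575) (nat_lit 2) (nat_lit 10))
    (@En.n l33363 (nat_lit 11039) (nat_lit 3) (nat_lit 5))
    (@En.n l21120 (nat_lit 11005) (nat_lit 4) (nat_lit 7))
    (@En.n l7138 (nat_lit 9328) (nat_lit 5) (nat_lit 8))
    (@En.n l33364 (nat_lit 11578) (nat_lit 6) (nat_lit 3))
    (@En.n l5146 (nat_lit 4213) (nat_lit 0) (nat_lit 7))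
    (@En.n l3213 (nat_lit 11036) (nat_lit 9) (nat_lit 11))
    (@En.n l10187 (nat_lit 7954) (nat_lit 10) (nat_lit 13))
    (@En.n l21120 (nat_lit 11820) (nat_lit 3) (nat_lit 6))
    (@En.i (nat_lit 12389) (nat_lit 12) (nat_lit 9))
    (@En.n l644 (nat_lit 8567) (nat_lit 13) (nat_lit 6))
    (@En.i (nat_lit 12701) (nat_lit 14) (nat_lit 8))
    (@En.n l33365 (nat_lit 9709) (nat_lit 8) (nat_lit 9))
    (@En.n l3 (nat_lit 11577) (nat_lit 15) (nat_lit 2))))
  (@Cl.mk (nat_lit 0x2000a0008000600090006000d0006000c0003000800070004000a000e000a) (nat_lit 0x760305010200842) (nat_lit 16) Lb.e (@T16.mk En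
    (@En.n l41652 (nat_lit 11581) (nat_lit 10) (nat_lit 10))
    (@En.n l41653 (nat_lit 11586) (nat_lit 1) (nat_lit 14))
    (@En.n l29311 (nat_lit 11576) (nat_lit 2) (nat_lit 10))
    (@En.n l41654 (nat_lit 11583) (nat_lit 3) (nat_lit 4))
    (@En.n l17611 (nat_lit 11004) (nat_lit 4) (nat_lit 7))
    (@En.n l644 (nat_lit 11281) (nat_lit 5) (nat_lit 8))
    (@En.n l41655 (nat_lit 11577) (nat_lit 6) (nat_lit 3))
    (@En.n l25696 (nat_lit 5586) (nat_lit 8) (nat_lit 12))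
    (@En.n l39486 (nat_lit 5270) (nat_lit 8) (nat_lit 6))
    (@En.i (nat_lit 7951) (nat_lit 10) (nat_lit 13))
    (@En.n l17611 (nat_lit 11819) (nat_lit 3) (nat_lit 6))
    (@En.n l3303 (nat_lit 12385) (nat_lit 12) (nat_lit 9))
    (@En.n l41656 (nat_lit 8568) (nat_lit 13) (nat_lit 6))
    (@En.n l41657 (nat_lit 10535) (nat_lit 14) (nat_lit 8))
    (@En.n l5996 (nat_lit 9876) (nat_lit 8) (nat_lit 10))
    (@En.n l107 (nat_lit 11578) (nat_lit 15) (nat_lit 2))))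
  (@Cl.mk (nat_lit 0x3000a0008000b00090009000700060005000b000800070007000d00050009) (nat_lit 0x638110003400604) (nat_lit 16) Lb.e (@T16.mk En
    (@En.i (nat_lit 4210) (nat_lit 0) (nat_lit 9))
    (@En.n l27786 (nat_lit 8012) (nat_lit 15) (nat_lit 5))
    (@En.n l27781 (nat_lit 11072) (nat_lit 2) (nat_lit 13))
    (@En.n l30494 (nat_lit 11575) (nat_lit 9) (nat_lit 7))
    (@En.n l41723 (nat_lit 11980) (nat_lit 4) (nat_lit 7))
    (@En.n l27093 (nat_lit 11582) (nat_lit 5) (nat_lit 8))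
    (@En.n l41724 (nat_lit 10277) (nat_lit 7) (nat_lit 11))
    (@En.n l18853 (nat_lit 8573) (nat_lit 11) (nat_lit 5))
    (@En.n l41725 (nat_lit 12690) (nat_lit 10) (nat_lit 6))
    (@En.n l217 (nat_lit 11046) (nat_lit 9) (nat_lit 7))
    (@En.n l27783 (nat_lit 9052) (nat_lit 7) (nat_lit 9))
    (@En.n l41726 (nat_lit 10419) (nat_lit 12) (nat_lit 9))
    (@En.i (nat_lit 10126) (nat_lit 7) (nat_lit 11))
    (@En.n l41727 (nat_lit 10004) (nat_lit 14) (nat_lit 8))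
    (@En.n l18925 (nat_lit 9330) (nat_lit 13) (nat_lit 10))
    (@En.n l41728 (nat_lit 11580) (nat_lit 15) (nat_lit 3))))
  (@Cl.mk (nat_lit 0x3000a0008000b00090009000800060005000a000800070007000d00080006) (nat_lit 0x628515003400730) (nat_lit 16) Lb.e (@T16.mk En
    (@En.n l36303 (nat_lit 8014) (nat_lit 0) (nat_lit 6))
    (@En.n l36304 (nat_lit 5849) (nat_lit 0) (nat_lit 8))
    (@En.n l36305 (nat_lit 11073) (nat_lit 2) (nat_lit 13))
    (@En.n l36306 (nat_lit 11576) (nat_lit 9) (nat_lit 7))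
    (@En.n l36307 (nat_lit 11981) (nat_lit 4) (nat_lit 7))
    (@En.n l17 (nat_lit 11581) (nat_lit 5) (nat_lit 8))
    (@En.n l36146 (nat_lit 10279) (nat_lit 7) (nat_lit 10))
    (@En.n l4976 (nat_lit 8575) (nat_lit 11) (nat_lit 5))
    (@En.n l23800 (nat_lit 12689) (nat_lit 8) (nat_lit 6))
    (@En.n l36308 (nat_lit 10140) (nat_lit 8) (nat_lit 8))
    (@En.n l36309 (nat_lit 9051) (nat_lit 7) (nat_lit 9))
    (@En.n l36310 (nat_lit 10418) (nat_lit 12) (nat_lit 9))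
    (@En.n l31249 (nat_lit 10130) (nat_lit 7) (nat_lit 11))
    (@En.i (nat_lit 10001) (nat_lit 14) (nat_lit 8))
    (@En.n l36311 (nat_lit 11277) (nat_lit 12) (nat_lit 10))
    (@En.n l27734 (nat_lit 11579) (nat_lit 15) (nat_lit 3))))
  (@Cl.mk (nat_lit 0x3000900080004000b000a000a000900070005000800060006000d0007000c) (nat_lit 0x630914600300602) (nat_lit 16) Lb.e (@T16.mk En
    (@En.n l26965 (nat_lit 5595) (nat_lit 0) (nat_lit 12))
    (@En.i (nat_lit 7440) (nat_lit 4) (nat_lit 7))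
    (@En.n l601 (nat_lit 11070) (nat_lit 2) (nat_lit 13))
    (@En.n l40799 (nat_lit 11578) (nat_lit 10) (nat_lit 6))
    (@En.n l21634 (nat_lit 11301) (nat_lit 4) (nat_lit 6))
    (@En.n l13320 (nat_lit 5953) (nat_lit 10) (nat_lit 8))
    (@En.n l4976 (nat_lit 8572) (nat_lit 6) (nat_lit 5))
    (@En.n l39318 (nat_lit 12688) (nat_lit 7) (nat_lit 7))
    (@En.n l77 (nat_lit 10144) (nat_lit 7) (nat_lit 9))
    (@En.n l2824 (nat_lit 11585) (nat_lit 6) (nat_lit 10))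
    (@En.n l22465 (nat_lit 10421) (nat_lit 6) (nat_lit 10))
    (@En.i (nat_lit 11580) (nat_lit 12) (nat_lit 11))
    (@En.n l13911 (nat_lit 10280) (nat_lit 13) (nat_lit 4))
    (@En.i (nat_lit 9999) (nat_lit 8) (nat_lit 8))
    (@En.n l12480 (nat_lit 11275) (nat_lit 1) (nat_lit 9))
    (@En.i (nat_lit 11582) (nat_lit 15) (nat_lit 3))))
  (@Cl.mk (nat_lit 0x3000900080005000b000a000a000800070005000800060006000d000b0008) (nat_lit 0x440911400300664) (nat_lit 16) Lb.e (@T16.mk En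
    (@En.n l31107 (nat_lit 4211) (nat_lit 0) (nat_lit 8))
    (@En.n l217 (nat_lit 10417) (nat_lit 5) (nat_lit 11))
    (@En.n l19322 (nat_lit 11071) (nat_lit 2) (nat_lit 13))
    (@En.n l6169 (nat_lit 11577) (nat_lit 10) (nat_lit 6))
    (@En.n l21634 (nat_lit 11298) (nat_lit 4) (nat_lit 6))
    (@En.n l14830 (nat_lit 11516) (nat_lit 10) (nat_lit 8))
    (@En.n l4976 (nat_lit 8570) (nat_lit 6) (nat_lit 5))
    (@En.n l31108 (nat_lit 12675) (nat_lit 7) (nat_lit 7))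
    (@En.n l7227 (nat_lit 11045) (nat_lit 8) (nat_lit 8))
    (@En.n l2824 (nat_lit 9053) (nat_lit 6) (nat_lit 10))
    (@En.n l30314 (nat_lit 10423) (nat_lit 6) (nat_lit 10))
    (@En.n l27734 (nat_lit 11579) (nat_lit 12) (nat_lit 11))
    (@En.n l13911 (nat_lit 10285) (nat_lit 13) (nat_lit 5))
    (@En.i (nat_lit 10000) (nat_lit 8) (nat_lit 8))
    (@En.n l16697 (nat_lit 9329) (nat_lit 1) (nat_lit 9))
    (@En.n l50 (nat_lit 11581) (nat_lit 15) (nat_lit 3))))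
  (@Cl.mk (nat_lit 0x2000a00070006000b0006000c0006000c0005000400090004000a000e000a) (nat_lit 0x600302050030837) (nat_lit 16) Lb.e (@T16.mk En
    (@En.n l29688 (nat_lit 10280) (nat_lit 11) (nat_lit 10))
    (@En.n l29689 (nat_lit 11617) (nat_lit 1) (nat_lit 14))
    (@En.n l29364 (nat_lit 11638) (nat_lit 2) (nat_lit 10))
    (@En.n l29690 (nat_lit 11036) (nat_lit 3) (nat_lit 4))
    (@En.n l29691 (nat_lit 11282) (nat_lit 4) (nat_lit 9))
    (@En.n l29692 (nat_lit 11040) (nat_lit 5) (nat_lit 4))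
    (@En.n l29693 (nat_lit 11576) (nat_lit 6) (nat_lit 5))
    (@En.n l29694 (nat_lit 11929) (nat_lit 8) (nat_lit 12))
    (@En.n l29695 (nat_lit 5271) (nat_lit 8) (nat_lit 6))
    (@En.n l5933 (nat_lit 7949) (nat_lit 10) (nat_lit 12))
    (@En.n l29696 (nat_lit 10705) (nat_lit 11) (nat_lit 6))
    (@En.n l2869 (nat_lit 11157) (nat_lit 12) (nat_lit 11))
    (@En.n l29697 (nat_lit 11889) (nat_lit 13) (nat_lit 6))
    (@En.n l29698 (nat_lit 12682) (nat_lit 14) (nat_lit 7))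
    (@En.n l29694 (nat_lit 9955) (nat_lit 11) (nat_lit 10))
    (@En.n l3 (nat_lit 11583) (nat_lit 15) (nat_lit 2))))
noncomputable def a724 : T16 Cl := @T16.mk Cl
  (@Cl.mk (nat_lit 0x2000a0007000b00080006000c00060005000c0004000900080004000e000a) (nat_lit 0x602304002033024) (nat_lit 16) Lb.e (@T16.mk En
    (@En.n l35805 (nat_lit 10279) (nat_lit 11) (nat_lit 10))
    (@En.n l3348 (nat_lit 6535) (nat_lit 1) (nat_lit 14))
    (@En.n l35806 (nat_lit 11159) (nat_lit 2) (nat_lit 4))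
    (@En.n l35200 (nat_lit 11013) (nat_lit 3) (nat_lit 8))
    (@En.n l19493 (nat_lit 11283) (nat_lit 4) (nat_lit 9))
    (@En.n l3348 (nat_lit 11082) (nat_lit 5) (nat_lit 4))
    (@En.n l35807 (nat_lit 11578) (nat_lit 7) (nat_lit 12))
    (@En.n l35808 (nat_lit 11316) (nat_lit 7) (nat_lit 5))
    (@En.n l35809 (nat_lit 7732) (nat_lit 8) (nat_lit 6))
    (@En.n l2576 (nat_lit 10260) (nat_lit 10) (nat_lit 12))
    (@En.n l35039 (nat_lit 10472) (nat_lit 11) (nat_lit 6))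
    (@En.n l27310 (nat_lit 12381) (nat_lit 12) (nat_lit 8))
    (@En.n l30854 (nat_lit 9107) (nat_lit 13) (nat_lit 11))
    (@En.n l31098 (nat_lit 10530) (nat_lit 14) (nat_lit 7))
    (@En.i (nat_lit 9805) (nat_lit 12) (nat_lit 10))
    (@En.n l11 (nat_lit 11584) (nat_lit 15) (nat_lit 2))))
  (@Cl.mk (nat_lit 0x2000d0008000c0003000a00090004000c000a0008000600040007000e0006) (nat_lit 0x426072093500030) (nat_lit 16) Lb.e (@T16.mk En
    (@En.n l9877 (nat_lit 11581) (nat_lit 4) (nat_lit 6))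
    (@En.n l21425 (nat_lit 7126) (nat_lit 1) (nat_lit 14))
    (@En.n l37005 (nat_lit 5949) (nat_lit 11) (nat_lit 7))
    (@En.n l25864 (nat_lit 9043) (nat_lit 3) (nat_lit 4))
    (@En.n l25808 (nat_lit 12673) (nat_lit 4) (nat_lit 6))
    (@En.i (nat_lit 9159) (nat_lit 5) (nat_lit 8))
    (@En.n l17692 (nat_lit 10139) (nat_lit 11) (nat_lit 10))
    (@En.n l28839 (nat_lit 9051) (nat_lit 8) (nat_lit 12))
    (@En.n l25866 (nat_lit 11910) (nat_lit 8) (nat_lit 4))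
    (@En.n l28627 (nat_lit 9995) (nat_lit 10) (nat_lit 9))
    (@En.n l16996 (nat_lit 11272) (nat_lit 11) (nat_lit 10))
    (@En.i (nat_lit 9053) (nat_lit 11) (nat_lit 3))
    (@En.n l21422 (nat_lit 12807) (nat_lit 0) (nat_lit 12))
    (@En.i (nat_lit 7701) (nat_lit 14) (nat_lit 8))
    (@En.n l10577 (nat_lit 10668) (nat_lit 2) (nat_lit 13))
    (@En.n l67 (nat_lit 11585) (nat_lit 15) (nat_lit 2))))
  (@Cl.mk (nat_lit 0x2000d000a0008000300090007000d0006000c0003000800070004000e0009) (nat_lit 0x776060601020033) (nat_lit 16) Lb.e (@T16.mk En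
    (@En.n l30851 (nat_lit 11420) (nat_lit 4) (nat_lit 9))
    (@En.n l1501 (nat_lit 6534) (nat_lit 1) (nat_lit 14))
    (@En.n l29014 (nat_lit 11617) (nat_lit 2) (nat_lit 4))
    (@En.n l30852 (nat_lit 4711) (nat_lit 3) (nat_lit 7))
    (@En.n l30853 (nat_lit 11248) (nat_lit 4) (nat_lit 8))
    (@En.n l6081 (nat_lit 11587) (nat_lit 5) (nat_lit 3))
    (@En.n l4241 (nat_lit 5584) (nat_lit 0) (nat_lit 12))
    (@En.n l30854 (nat_lit 11658) (nat_lit 7) (nat_lit 6))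
    (@En.n l30855 (nat_lit 10259) (nat_lit 9) (nat_lit 13))
    (@En.n l30856 (nat_lit 10885) (nat_lit 3) (nat_lit 7))
    (@En.n l21656 (nat_lit 11327) (nat_lit 11) (nat_lit 9))
    (@En.n l30857 (nat_lit 11316) (nat_lit 11) (nat_lit 3))
    (@En.n l30858 (nat_lit 12517) (nat_lit 0) (nat_lit 8))
    (@En.n l644 (nat_lit 11584) (nat_lit 14) (nat_lit 10))
    (@En.n l29015 (nat_lit 10839) (nat_lit 2) (nat_lit 13))
    (@En.n l11 (nat_lit 11586) (nat_lit 15) (nat_lit 2))))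
  (@Cl.mk (nat_lit 0x2000d00090008000300090007000d000b00070003000800070005000e0009) (nat_lit 0x966070730040044) (nat_lit 16) Lb.e (@T16.mk En
    (@En.n l16538 (nat_lit 10956) (nat_lit 4) (nat_lit 9))
    (@En.n l16539 (nat_lit 6385) (nat_lit 1) (nat_lit 14))
    (@En.n l7630 (nat_lit 11619) (nat_lit 2) (nat_lit 5))
    (@En.n l4189 (nat_lit 4705) (nat_lit 3) (nat_lit 7))
    (@En.n l16540 (nat_lit 8043) (nat_lit 4) (nat_lit 8))
    (@En.n l3536 (nat_lit 11586) (nat_lit 5) (nat_lit 3))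
    (@En.n l16541 (nat_lit 9863) (nat_lit 0) (nat_lit 7))
    (@En.n l4186 (nat_lit 10912) (nat_lit 8) (nat_lit 11))
    (@En.n l4189 (nat_lit 10222) (nat_lit 9) (nat_lit 13))
    (@En.n l16542 (nat_lit 10886) (nat_lit 3) (nat_lit 7))
    (@En.n l9150 (nat_lit 11329) (nat_lit 11) (nat_lit 9))
    (@En.n l18 (nat_lit 10957) (nat_lit 11) (nat_lit 3))
    (@En.n l9155 (nat_lit 12516) (nat_lit 0) (nat_lit 8))
    (@En.n l12536 (nat_lit 11082) (nat_lit 14) (nat_lit 9))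
    (@En.n l16543 (nat_lit 10841) (nat_lit 2) (nat_lit 13))
    (@En.n l7 (nat_lit 11587) (nat_lit 15) (nat_lit 2))))
  (@Cl.mk (nat_lit 0x20009000d0007000b00030007000c00070005000d000400090003000e0009) (nat_lit 0x7601005003010c5) (nat_lit 16) Lb.e (@T16.mk En
    (@En.n l32278 (nat_lit 11389) (nat_lit 5) (nat_lit 9))
    (@En.n l11219 (nat_lit 11246) (nat_lit 1) (nat_lit 14))
    (@En.n l4114 (nat_lit 11589) (nat_lit 2) (nat_lit 3))
    (@En.n l33408 (nat_lit 7720) (nat_lit 3) (nat_lit 9))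
    (@En.n l33409 (nat_lit 10345) (nat_lit 4) (nat_lit 4))
    (@En.n l1252 (nat_lit 9034) (nat_lit 6) (nat_lit 13))
    (@En.n l33410 (nat_lit 4591) (nat_lit 6) (nat_lit 5))
    (@En.n l33409 (nat_lit 7729) (nat_lit 7) (nat_lit 7))
    (@En.i (nat_lit 8661) (nat_lit 9) (nat_lit 12))
    (@En.n l32116 (nat_lit 10436) (nat_lit 12) (nat_lit 7))
    (@En.n l11308 (nat_lit 11013) (nat_lit 10) (nat_lit 3))
    (@En.n l33411 (nat_lit 4814) (nat_lit 0) (nat_lit 11))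
    (@En.n l33412 (nat_lit 11584) (nat_lit 13) (nat_lit 7))
    (@En.i (nat_lit 11600) (nat_lit 14) (nat_lit 13))
    (@En.n l33413 (nat_lit 6215) (nat_lit 12) (nat_lit 9))
    (@En.n l7 (nat_lit 11588) (nat_lit 15) (nat_lit 2))))
  (@Cl.mk (nat_lit 0x20009000d0008000b00030007000b00070005000d000800050003000e0009) (nat_lit 0x775100500250025) (nat_lit 16) Lb.e (@T16.mk En
    (@En.n l32936 (nat_lit 11391) (nat_lit 5) (nat_lit 9))
    (@En.n l1106 (nat_lit 6795) (nat_lit 1) (nat_lit 14))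
    (@En.n l17679 (nat_lit 11588) (nat_lit 2) (nat_lit 3))
    (@En.n l28537 (nat_lit 3419) (nat_lit 3) (nat_lit 5))
    (@En.n l117 (nat_lit 11590) (nat_lit 4) (nat_lit 8))
    (@En.n l32937 (nat_lit 9038) (nat_lit 6) (nat_lit 13))
    (@En.n l18156 (nat_lit 4592) (nat_lit 6) (nat_lit 5))
    (@En.n l32938 (nat_lit 6530) (nat_lit 7) (nat_lit 7))
    (@En.n l1865 (nat_lit 4342) (nat_lit 9) (nat_lit 11))
    (@En.n l28537 (nat_lit 10484) (nat_lit 12) (nat_lit 7))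
    (@En.n l107 (nat_lit 11591) (nat_lit 10) (nat_lit 3))
    (@En.n l32939 (nat_lit 4813) (nat_lit 7) (nat_lit 11))
    (@En.i (nat_lit 11593) (nat_lit 13) (nat_lit 8))
    (@En.n l10372 (nat_lit 11597) (nat_lit 14) (nat_lit 13))
    (@En.n l1106 (nat_lit 6154) (nat_lit 3) (nat_lit 9))
    (@En.n l50 (nat_lit 11589) (nat_lit 15) (nat_lit 2))))
  (@Cl.mk (nat_lit 0x20008000c00080007000b00040008000c00080005000800040009000e0008) (nat_lit 0x376020212040625) (nat_lit 16) Lb.e (@T16.mk En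
    (@En.n l39777 (nat_lit 11592) (nat_lit 6) (nat_lit 8))
    (@En.n l637 (nat_lit 6796) (nat_lit 1) (nat_lit 14))
    (@En.n l39778 (nat_lit 10117) (nat_lit 2) (nat_lit 9))
    (@En.n l29203 (nat_lit 4544) (nat_lit 3) (nat_lit 4))
    (@En.n l4976 (nat_lit 10785) (nat_lit 10) (nat_lit 8))
    (@En.n l39779 (nat_lit 3408) (nat_lit 5) (nat_lit 5))
    (@En.n l39780 (nat_lit 6529) (nat_lit 6) (nat_lit 8))
    (@En.n l22773 (nat_lit 7281) (nat_lit 8) (nat_lit 12))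
    (@En.n l29203 (nat_lit 10486) (nat_lit 9) (nat_lit 8))
    (@En.n l152 (nat_lit 11426) (nat_lit 9) (nat_lit 4))
    (@En.n l5859 (nat_lit 11589) (nat_lit 11) (nat_lit 11))
    (@En.n l22773 (nat_lit 11588) (nat_lit 12) (nat_lit 7))
    (@En.n l5859 (nat_lit 11594) (nat_lit 13) (nat_lit 8))
    (@En.n l22773 (nat_lit 11598) (nat_lit 14) (nat_lit 12))
    (@En.n l637 (nat_lit 10370) (nat_lit 4) (nat_lit 8))
    (@En.n l50 (nat_lit 11590) (nat_lit 15) (nat_lit 2))))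
  (@Cl.mk (nat_lit 0x20009000d000a000900030007000b00070006000d000700050003000e0009) (nat_lit 0x764300500200015) (nat_lit 16) Lb.e (@T16.mk En
    (@En.i (nat_lit 11390) (nat_lit 5) (nat_lit 9))
    (@En.i (nat_lit 1717) (nat_lit 1) (nat_lit 14))
    (@En.i (nat_lit 11013) (nat_lit 2) (nat_lit 3))
    (@En.n l17017 (nat_lit 3418) (nat_lit 3) (nat_lit 5))
    (@En.i (nat_lit 11426) (nat_lit 4) (nat_lit 7))
    (@En.i (nat_lit 11006) (nat_lit 6) (nat_lit 13))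
    (@En.i (nat_lit 4709) (nat_lit 6) (nat_lit 6))
    (@En.n l17 (nat_lit 7730) (nat_lit 7) (nat_lit 7))
    (@En.n l17017 (nat_lit 4338) (nat_lit 9) (nat_lit 11))
    (@En.i (nat_lit 8703) (nat_lit 10) (nat_lit 7))
    (@En.i (nat_lit 11589) (nat_lit 10) (nat_lit 3))
    (@En.n l619 (nat_lit 12382) (nat_lit 0) (nat_lit 9))
    (@En.n l10040 (nat_lit 11193) (nat_lit 13) (nat_lit 10))
    (@En.n l8766 (nat_lit 11601) (nat_lit 14) (nat_lit 13))
    (@En.i (nat_lit 6150) (nat_lit 3) (nat_lit 9))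
    (@En.n l50 (nat_lit 11591) (nat_lit 15) (nat_lit 2))))
  (@Cl.mk (nat_lit 0x400080008000c0009000600090004000a000800080007000c00070006000a) (nat_lit 0x437305054405004) (nat_lit 16) Lb.e (@T16.mk En
    (@En.n l42786 (nat_lit 11391) (nat_lit 0) (nat_lit 10))
    (@En.n l50 (nat_lit 11389) (nat_lit 1) (nat_lit 6))
    (@En.n l41161 (nat_lit 11054) (nat_lit 0) (nat_lit 7))
    (@En.n l42787 (nat_lit 11605) (nat_lit 8) (nat_lit 12))
    (@En.n l41780 (nat_lit 10715) (nat_lit 9) (nat_lit 7))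
    (@En.n l5294 (nat_lit 11602) (nat_lit 8) (nat_lit 8))
    (@En.n l41780 (nat_lit 10630) (nat_lit 6) (nat_lit 8))
    (@En.n l1722 (nat_lit 8010) (nat_lit 8) (nat_lit 10))
    (@En.n l42788 (nat_lit 4538) (nat_lit 8) (nat_lit 4))
    (@En.n l617 (nat_lit 10778) (nat_lit 9) (nat_lit 9))
    (@En.n l32785 (nat_lit 4524) (nat_lit 1) (nat_lit 6))
    (@En.n l42789 (nat_lit 6532) (nat_lit 12) (nat_lit 9))
    (@En.n l42790 (nat_lit 11954) (nat_lit 7) (nat_lit 12))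
    (@En.n l42791 (nat_lit 11590) (nat_lit 8) (nat_lit 8))
    (@En.n l42792 (nat_lit 10488) (nat_lit 11) (nat_lit 8))
    (@En.n l42793 (nat_lit 11429) (nat_lit 15) (nat_lit 4))))
  (@Cl.mk (nat_lit 0x2000a0008000b00090006000a00060005000c0008000700060004000e000a) (nat_lit 0x245502002400014) (nat_lit 16) Lb.e (@T16.mk En
    (@En.i (nat_lit 11055) (nat_lit 14) (nat_lit 10))
    (@En.i (nat_lit 2889) (nat_lit 1) (nat_lit 14))
    (@En.n l11469 (nat_lit 11584) (nat_lit 2) (nat_lit 4))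
    (@En.n l41404 (nat_lit 11595) (nat_lit 3) (nat_lit 6))
    (@En.i (nat_lit 11591) (nat_lit 4) (nat_lit 7))
    (@En.n l936 (nat_lit 11594) (nat_lit 5) (nat_lit 8))
    (@En.n l30164 (nat_lit 11036) (nat_lit 7) (nat_lit 12))
    (@En.n l7646 (nat_lit 10908) (nat_lit 7) (nat_lit 5))
    (@En.n l17 (nat_lit 6531) (nat_lit 8) (nat_lit 6))
    (@En.n l17017 (nat_lit 4605) (nat_lit 10) (nat_lit 10))
    (@En.n l28537 (nat_lit 10475) (nat_lit 11) (nat_lit 6))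
    (@En.n l30165 (nat_lit 11568) (nat_lit 12) (nat_lit 9))
    (@En.n l10040 (nat_lit 8557) (nat_lit 7) (nat_lit 11))
    (@En.n l24278 (nat_lit 12230) (nat_lit 14) (nat_lit 8))
    (@En.n l11419 (nat_lit 10393) (nat_lit 12) (nat_lit 10))
    (@En.n l50 (nat_lit 11593) (nat_lit 15) (nat_lit 2))))
  (@Cl.mk (nat_lit 0x2000900080006000b000a0007000b00070005000800060005000a000e0009) (nat_lit 0x250660200300714) (nat_lit 16) Lb.e (@T16.mk En
    (@En.n l34150 (nat_lit 11054) (nat_lit 3) (nat_lit 9))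
    (@En.n l34151 (nat_lit 2888) (nat_lit 1) (nat_lit 14))
    (@En.n l19309 (nat_lit 11574) (nat_lit 2) (nat_lit 10))
    (@En.n l34152 (nat_lit 11596) (nat_lit 3) (nat_lit 5))
    (@En.i (nat_lit 11433) (nat_lit 4) (nat_lit 6))
    (@En.n l34153 (nat_lit 10787) (nat_lit 5) (nat_lit 8))
    (@En.n l8776 (nat_lit 10907) (nat_lit 6) (nat_lit 5))
    (@En.n l34154 (nat_lit 5749) (nat_lit 7) (nat_lit 7))
    (@En.n l34151 (nat_lit 4604) (nat_lit 9) (nat_lit 11))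
    (@En.n l30655 (nat_lit 10479) (nat_lit 10) (nat_lit 7))
    (@En.n l31300 (nat_lit 11499) (nat_lit 11) (nat_lit 10))
    (@En.i (nat_lit 11593) (nat_lit 12) (nat_lit 11))
    (@En.n l34155 (nat_lit 11159) (nat_lit 13) (nat_lit 6))
    (@En.n l34156 (nat_lit 11676) (nat_lit 14) (nat_lit 8))
    (@En.n l34157 (nat_lit 10378) (nat_lit 1) (nat_lit 9))
    (@En.n l50 (nat_lit 11594) (nat_lit 15) (nat_lit 2))))
  (@Cl.mk (nat_lit 0x200090007000a000d0006000a000300070006000d000900060003000e000a) (nat_lit 0x301502000860074) (nat_lit 16) Lb.e (@T16.mk En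
    (@En.n l396 (nat_lit 12211) (nat_lit 14) (nat_lit 10))
    (@En.n l5320 (nat_lit 2606) (nat_lit 1) (nat_lit 14))
    (@En.n l18896 (nat_lit 11599) (nat_lit 2) (nat_lit 3))
    (@En.n l16834 (nat_lit 3420) (nat_lit 3) (nat_lit 6))
    (@En.n l1101 (nat_lit 11596) (nat_lit 4) (nat_lit 9))
    (@En.n l11727 (nat_lit 11037) (nat_lit 6) (nat_lit 13))
    (@En.n l20706 (nat_lit 11597) (nat_lit 6) (nat_lit 6))
    (@En.n l6593 (nat_lit 11589) (nat_lit 7) (nat_lit 7))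
    (@En.n l39062 (nat_lit 12220) (nat_lit 8) (nat_lit 3))
    (@En.n l9655 (nat_lit 4612) (nat_lit 0) (nat_lit 10))
    (@En.n l26279 (nat_lit 12054) (nat_lit 11) (nat_lit 6))
    (@En.i (nat_lit 7965) (nat_lit 12) (nat_lit 13))
    (@En.n l3866 (nat_lit 4825) (nat_lit 8) (nat_lit 10))
    (@En.n l3082 (nat_lit 12229) (nat_lit 14) (nat_lit 7))
    (@En.n l4660 (nat_lit 10383) (nat_lit 12) (nat_lit 9))
    (@En.n l50 (nat_lit 11595) (nat_lit 15) (nat_lit 2))))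
  (@Cl.mk (nat_lit 0x2000800070006000a000d0007000b00030008000600090005000a000e0009) (nat_lit 0x300260503050764) (nat_lit 16) Lb.e (@T16.mk En
    (@En.n l5646 (nat_lit 11606) (nat_lit 9) (nat_lit 9))
    (@En.i (nat_lit 2439) (nat_lit 1) (nat_lit 14))
    (@En.n l2757 (nat_lit 8056) (nat_lit 2) (nat_lit 10))
    (@En.n l5595 (nat_lit 4540) (nat_lit 3) (nat_lit 5))
    (@En.n l2757 (nat_lit 10789) (nat_lit 4) (nat_lit 9))
    (@En.n l3329 (nat_lit 11598) (nat_lit 5) (nat_lit 6))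
    (@En.n l36766 (nat_lit 11590) (nat_lit 6) (nat_lit 8))
    (@En.n l36767 (nat_lit 12221) (nat_lit 7) (nat_lit 3))
    (@En.n l36768 (nat_lit 4611) (nat_lit 0) (nat_lit 11))
    (@En.n l29545 (nat_lit 12053) (nat_lit 10) (nat_lit 7))
    (@En.i (nat_lit 7964) (nat_lit 11) (nat_lit 13))
    (@En.n l3327 (nat_lit 11595) (nat_lit 12) (nat_lit 10))
    (@En.n l36768 (nat_lit 11599) (nat_lit 13) (nat_lit 6))
    (@En.i (nat_lit 11679) (nat_lit 14) (nat_lit 7))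
    (@En.n l34573 (nat_lit 10372) (nat_lit 6) (nat_lit 8))
    (@En.n l3 (nat_lit 11596) (nat_lit 15) (nat_lit 2))))
  (@Cl.mk (nat_lit 0x2000d0007000a0003000d0007000b00030006000d000900050003000e0009) (nat_lit 0x602060300520064) (nat_lit 16) Lb.e (@T16.mk En
    (@En.n l8907 (nat_lit 12210) (nat_lit 14) (nat_lit 9))
    (@En.n l1819 (nat_lit 2607) (nat_lit 1) (nat_lit 14))
    (@En.n l11 (nat_lit 11600) (nat_lit 2) (nat_lit 3))
    (@En.n l20302 (nat_lit 3413) (nat_lit 3) (nat_lit 5))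
    (@En.i (nat_lit 11598) (nat_lit 4) (nat_lit 9))
    (@En.n l562 (nat_lit 11018) (nat_lit 6) (nat_lit 13))
    (@En.n l2813 (nat_lit 3405) (nat_lit 12) (nat_lit 6))
    (@En.n l18866 (nat_lit 12219) (nat_lit 7) (nat_lit 3))
    (@En.i (nat_lit 7409) (nat_lit 0) (nat_lit 11))
    (@En.n l34380 (nat_lit 12008) (nat_lit 14) (nat_lit 7))
    (@En.n l9618 (nat_lit 11595) (nat_lit 11) (nat_lit 13))
    (@En.n l137 (nat_lit 11601) (nat_lit 11) (nat_lit 3))
    (@En.n l9310 (nat_lit 4855) (nat_lit 8) (nat_lit 10))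
    (@En.n l8814 (nat_lit 12228) (nat_lit 14) (nat_lit 7))
    (@En.n l8910 (nat_lit 10819) (nat_lit 2) (nat_lit 13))
    (@En.n l7 (nat_lit 11597) (nat_lit 15) (nat_lit 2))))
  (@Cl.mk (nat_lit 0x2000c00070006000a0004000d0008000c0003000600090004000a000e0008) (nat_lit 0x600307360010654) (nat_lit 16) Lb.e (@T16.mk En
    (@En.n l7531 (nat_lit 11605) (nat_lit 10) (nat_lit 8))
    (@En.n l7532 (nat_lit 2441) (nat_lit 1) (nat_lit 14))
    (@En.n l21117 (nat_lit 8057) (nat_lit 2) (nat_lit 10))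
    (@En.n l539 (nat_lit 10902) (nat_lit 3) (nat_lit 4))
    (@En.n l23440 (nat_lit 8107) (nat_lit 9) (nat_lit 9))
    (@En.i (nat_lit 3404) (nat_lit 12) (nat_lit 6))
    (@En.n l17682 (nat_lit 12223) (nat_lit 6) (nat_lit 3))
    (@En.i (nat_lit 7387) (nat_lit 0) (nat_lit 12))
    (@En.n l4061 (nat_lit 11615) (nat_lit 9) (nat_lit 8))
    (@En.n l1036 (nat_lit 11596) (nat_lit 10) (nat_lit 13))
    (@En.n l137 (nat_lit 10914) (nat_lit 10) (nat_lit 4))
    (@En.n l12 (nat_lit 11597) (nat_lit 12) (nat_lit 10))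
    (@En.i (nat_lit 11600) (nat_lit 13) (nat_lit 6))
    (@En.n l23441 (nat_lit 9333) (nat_lit 14) (nat_lit 7))
    (@En.n l17684 (nat_lit 10832) (nat_lit 8) (nat_lit 12))
    (@En.n l7 (nat_lit 11598) (nat_lit 15) (nat_lit 2))))
  (@Cl.mk (nat_lit 0x200090006000a000d0006000b000300070006000d0005000a0003000e000a) (nat_lit 0x601404000202074) (nat_lit 16) Lb.e (@T16.mk En
    (@En.n l8907 (nat_lit 12212) (nat_lit 14) (nat_lit 10))
    (@En.n l3141 (nat_lit 12135) (nat_lit 1) (nat_lit 14))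
    (@En.n l9618 (nat_lit 11595) (nat_lit 2) (nat_lit 3))
    (@En.n l16752 (nat_lit 12519) (nat_lit 3) (nat_lit 10))
    (@En.n l22013 (nat_lit 11621) (nat_lit 4) (nat_lit 5))
    (@En.n l32115 (nat_lit 11040) (nat_lit 6) (nat_lit 13))
    (@En.n l17 (nat_lit 11600) (nat_lit 6) (nat_lit 6))
    (@En.i (nat_lit 11588) (nat_lit 7) (nat_lit 7))
    (@En.n l18866 (nat_lit 12222) (nat_lit 8) (nat_lit 3))
    (@En.i (nat_lit 8663) (nat_lit 0) (nat_lit 11))
    (@En.n l32116 (nat_lit 12056) (nat_lit 11) (nat_lit 6))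
    (@En.n l8810 (nat_lit 7967) (nat_lit 12) (nat_lit 13))
    (@En.n l2582 (nat_lit 2106) (nat_lit 13) (nat_lit 10))
    (@En.n l8810 (nat_lit 12262) (nat_lit 14) (nat_lit 6))
    (@En.n l32117 (nat_lit 6219) (nat_lit 12) (nat_lit 9))
    (@En.n l7 (nat_lit 11599) (nat_lit 15) (nat_lit 2))))
noncomputable def a725 : T16 Cl := @T16.mk Cl
  (@Cl.mk (nat_lit 0x2000d0006000a0003000d0007000c00030006000d0004000a0003000e0009) (nat_lit 0x502050500302064) (nat_lit 16) Lb.e (@T16.mk En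
    (@En.n l8907 (nat_lit 12209) (nat_lit 14) (nat_lit 9))
    (@En.i (nat_lit 12136) (nat_lit 1) (nat_lit 14))
    (@En.i (nat_lit 11597) (nat_lit 2) (nat_lit 3))
    (@En.n l1162 (nat_lit 12520) (nat_lit 3) (nat_lit 10))
    (@En.n l117 (nat_lit 11618) (nat_lit 4) (nat_lit 4))
    (@En.n l1252 (nat_lit 11016) (nat_lit 6) (nat_lit 13))
    (@En.i (nat_lit 3406) (nat_lit 12) (nat_lit 6))
    (@En.n l18866 (nat_lit 11624) (nat_lit 7) (nat_lit 3))
    (@En.i (nat_lit 8662) (nat_lit 0) (nat_lit 12))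
    (@En.i (nat_lit 11626) (nat_lit 14) (nat_lit 7))
    (@En.i (nat_lit 11599) (nat_lit 11) (nat_lit 13))
    (@En.i (nat_lit 11623) (nat_lit 11) (nat_lit 3))
    (@En.n l4739 (nat_lit 4824) (nat_lit 0) (nat_lit 10))
    (@En.n l4739 (nat_lit 12261) (nat_lit 14) (nat_lit 6))
    (@En.n l8910 (nat_lit 10821) (nat_lit 2) (nat_lit 13))
    (@En.n l7 (nat_lit 11600) (nat_lit 15) (nat_lit 2))))
  (@Cl.mk (nat_lit 0x2000d000900080003000d0007000b00030007000d000800050003000e0009) (nat_lit 0x544060400110064) (nat_lit 16) Lb.e (@T16.mk En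
    (@En.i (nat_lit 12208) (nat_lit 14) (nat_lit 9))
    (@En.n l476 (nat_lit 2608) (nat_lit 1) (nat_lit 14))
    (@En.n l7402 (nat_lit 11623) (nat_lit 2) (nat_lit 3))
    (@En.i (nat_lit 3415) (nat_lit 3) (nat_lit 5))
    (@En.i (nat_lit 10914) (nat_lit 4) (nat_lit 8))
    (@En.n l476 (nat_lit 4179) (nat_lit 6) (nat_lit 13))
    (@En.i (nat_lit 4710) (nat_lit 6) (nat_lit 7))
    (@En.n l10307 (nat_lit 12224) (nat_lit 7) (nat_lit 3))
    (@En.i (nat_lit 7408) (nat_lit 0) (nat_lit 11))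
    (@En.n l2440 (nat_lit 11989) (nat_lit 14) (nat_lit 7))
    (@En.n l7687 (nat_lit 7969) (nat_lit 11) (nat_lit 13))
    (@En.n l146 (nat_lit 11597) (nat_lit 11) (nat_lit 3))
    (@En.n l23682 (nat_lit 11748) (nat_lit 0) (nat_lit 8))
    (@En.n l23683 (nat_lit 11595) (nat_lit 14) (nat_lit 9))
    (@En.n l23684 (nat_lit 10825) (nat_lit 2) (nat_lit 13))
    (@En.n l17 (nat_lit 11601) (nat_lit 15) (nat_lit 2))))
  (@Cl.mk (nat_lit 0x2000c000a0007000a0004000b00080006000c0006000500090004000e0008) (nat_lit 0x6206063040040b5) (nat_lit 16) Lb.e (@T16.mk En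
    (@En.n l31845 (nat_lit 11592) (nat_lit 14) (nat_lit 8))
    (@En.n l13633 (nat_lit 9298) (nat_lit 1) (nat_lit 14))
    (@En.n l117 (nat_lit 11658) (nat_lit 2) (nat_lit 4))
    (@En.n l18910 (nat_lit 11387) (nat_lit 3) (nat_lit 9))
    (@En.n l3480 (nat_lit 11386) (nat_lit 4) (nat_lit 5))
    (@En.n l2642 (nat_lit 11052) (nat_lit 5) (nat_lit 6))
    (@En.n l21630 (nat_lit 11604) (nat_lit 7) (nat_lit 12))
    (@En.i (nat_lit 10333) (nat_lit 7) (nat_lit 6))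
    (@En.n l31846 (nat_lit 10631) (nat_lit 9) (nat_lit 8))
    (@En.n l31847 (nat_lit 7997) (nat_lit 10) (nat_lit 11))
    (@En.i (nat_lit 4545) (nat_lit 10) (nat_lit 4))
    (@En.n l17961 (nat_lit 10800) (nat_lit 8) (nat_lit 10))
    (@En.n l13716 (nat_lit 4703) (nat_lit 13) (nat_lit 7))
    (@En.n l3480 (nat_lit 6531) (nat_lit 14) (nat_lit 10))
    (@En.n l7479 (nat_lit 11952) (nat_lit 3) (nat_lit 12))
    (@En.n l28 (nat_lit 11602) (nat_lit 15) (nat_lit 2))))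
  (@Cl.mk (nat_lit 0x2000b0005000a0008000b0005000c00090006000500040008000b000e0007) (nat_lit 0x703280720002770) (nat_lit 16) Lb.e (@T16.mk En
    (@En.n l3928 (nat_lit 11606) (nat_lit 2) (nat_lit 7))
    (@En.n l12355 (nat_lit 9294) (nat_lit 4) (nat_lit 14))
    (@En.i (nat_lit 5154) (nat_lit 2) (nat_lit 11))
    (@En.n l612 (nat_lit 10977) (nat_lit 3) (nat_lit 8))
    (@En.n l16430 (nat_lit 10981) (nat_lit 4) (nat_lit 4))
    (@En.i (nat_lit 10758) (nat_lit 5) (nat_lit 5))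
    (@En.n l31796 (nat_lit 12468) (nat_lit 6) (nat_lit 6))
    (@En.n l12355 (nat_lit 10673) (nat_lit 8) (nat_lit 9))
    (@En.n l11451 (nat_lit 8167) (nat_lit 9) (nat_lit 12))
    (@En.n l810 (nat_lit 4539) (nat_lit 9) (nat_lit 5))
    (@En.n l11451 (nat_lit 10803) (nat_lit 7) (nat_lit 11))
    (@En.n l430 (nat_lit 11604) (nat_lit 12) (nat_lit 8))
    (@En.n l31713 (nat_lit 11602) (nat_lit 13) (nat_lit 10))
    (@En.n l11048 (nat_lit 11607) (nat_lit 14) (nat_lit 5))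
    (@En.n l3928 (nat_lit 11611) (nat_lit 0) (nat_lit 11))
    (@En.n l17 (nat_lit 11603) (nat_lit 15) (nat_lit 2))))
  (@Cl.mk (nat_lit 0x2000c00050008000b0004000c0008000c0005000400080004000b000e0008) (nat_lit 0x801106330030856) (nat_lit 16) Lb.e (@T16.mk En
    (@En.i (nat_lit 11605) (nat_lit 2) (nat_lit 8))
    (@En.i (nat_lit 6350) (nat_lit 4) (nat_lit 14))
    (@En.n l10436 (nat_lit 11603) (nat_lit 2) (nat_lit 11))
    (@En.n l28 (nat_lit 10915) (nat_lit 3) (nat_lit 4))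
    (@En.n l343 (nat_lit 10978) (nat_lit 4) (nat_lit 8))
    (@En.n l28 (nat_lit 10983) (nat_lit 5) (nat_lit 4))
    (@En.n l6771 (nat_lit 11732) (nat_lit 6) (nat_lit 5))
    (@En.i (nat_lit 4408) (nat_lit 8) (nat_lit 12))
    (@En.n l3213 (nat_lit 10672) (nat_lit 9) (nat_lit 8))
    (@En.n l11106 (nat_lit 8168) (nat_lit 10) (nat_lit 12))
    (@En.n l117 (nat_lit 10902) (nat_lit 10) (nat_lit 4))
    (@En.n l1329 (nat_lit 7662) (nat_lit 7) (nat_lit 11))
    (@En.n l253 (nat_lit 3415) (nat_lit 13) (nat_lit 8))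
    (@En.i (nat_lit 11608) (nat_lit 14) (nat_lit 5))
    (@En.i (nat_lit 11612) (nat_lit 0) (nat_lit 12))
    (@En.n l17 (nat_lit 11604) (nat_lit 15) (nat_lit 2))))
  (@Cl.mk (nat_lit 0x40007000a0004000b00080008000c0006000500090004000c00080008000c) (nat_lit 0x30734400208547) (nat_lit 16) Lb.e (@T16.mk En
    (@En.n l11426 (nat_lit 12014) (nat_lit 0) (nat_lit 12))
    (@En.n l18449 (nat_lit 11598) (nat_lit 8) (nat_lit 8))
    (@En.i (nat_lit 11613) (nat_lit 14) (nat_lit 8))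
    (@En.n l38392 (nat_lit 11606) (nat_lit 3) (nat_lit 12))
    (@En.n l37612 (nat_lit 10913) (nat_lit 4) (nat_lit 4))
    (@En.n l343 (nat_lit 12210) (nat_lit 10) (nat_lit 9))
    (@En.n l28 (nat_lit 12209) (nat_lit 11) (nat_lit 5))
    (@En.n l24053 (nat_lit 11801) (nat_lit 7) (nat_lit 6))
    (@En.n l2843 (nat_lit 10815) (nat_lit 7) (nat_lit 12))
    (@En.n l61 (nat_lit 11604) (nat_lit 8) (nat_lit 8))
    (@En.n l38978 (nat_lit 10657) (nat_lit 14) (nat_lit 8))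
    (@En.n l21111 (nat_lit 10992) (nat_lit 12) (nat_lit 11))
    (@En.n l36494 (nat_lit 70) (nat_lit 7) (nat_lit 4))
    (@En.n l2843 (nat_lit 11700) (nat_lit 8) (nat_lit 10))
    (@En.n l253 (nat_lit 3407) (nat_lit 11) (nat_lit 7))
    (@En.n l21971 (nat_lit 11610) (nat_lit 15) (nat_lit 4))))
  (@Cl.mk (nat_lit 0x400090007000a0005000b000900090007000600050009000c00070007000b) (nat_lit 0x406083300037006) (nat_lit 16) Lb.e (@T16.mk En
    (@En.i (nat_lit 12013) (nat_lit 0) (nat_lit 11))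
    (@En.n l11401 (nat_lit 11596) (nat_lit 9) (nat_lit 7))
    (@En.n l42770 (nat_lit 11858) (nat_lit 6) (nat_lit 7))
    (@En.i (nat_lit 5155) (nat_lit 6) (nat_lit 12))
    (@En.n l11434 (nat_lit 12211) (nat_lit 10) (nat_lit 9))
    (@En.n l40183 (nat_lit 12212) (nat_lit 11) (nat_lit 5))
    (@En.i (nat_lit 11799) (nat_lit 10) (nat_lit 6))
    (@En.n l33102 (nat_lit 10711) (nat_lit 9) (nat_lit 7))
    (@En.n l8906 (nat_lit 11603) (nat_lit 7) (nat_lit 9))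
    (@En.n l42770 (nat_lit 10652) (nat_lit 7) (nat_lit 9))
    (@En.n l33102 (nat_lit 10993) (nat_lit 11) (nat_lit 11))
    (@En.n l12646 (nat_lit 4536) (nat_lit 5) (nat_lit 5))
    (@En.n l42770 (nat_lit 11644) (nat_lit 8) (nat_lit 10))
    (@En.n l40185 (nat_lit 11605) (nat_lit 14) (nat_lit 7))
    (@En.n l42771 (nat_lit 11592) (nat_lit 11) (nat_lit 9))
    (@En.n l42772 (nat_lit 11609) (nat_lit 15) (nat_lit 4))))
  (@Cl.mk (nat_lit 0x20005000a0008000b0008000c00080006000500040008000b0008000e0008) (nat_lit 0x36717200037685) (nat_lit 16) Lb.e (@T16.mk En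
    (@En.n l517 (nat_lit 11609) (nat_lit 1) (nat_lit 8))
    (@En.n l7517 (nat_lit 11603) (nat_lit 1) (nat_lit 14))
    (@En.n l7405 (nat_lit 11052) (nat_lit 2) (nat_lit 8))
    (@En.n l30968 (nat_lit 5152) (nat_lit 3) (nat_lit 11))
    (@En.n l11512 (nat_lit 10979) (nat_lit 4) (nat_lit 8))
    (@En.n l30969 (nat_lit 10982) (nat_lit 5) (nat_lit 4))
    (@En.n l1577 (nat_lit 11731) (nat_lit 6) (nat_lit 5))
    (@En.i (nat_lit 12465) (nat_lit 7) (nat_lit 6))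
    (@En.n l30970 (nat_lit 10670) (nat_lit 9) (nat_lit 8))
    (@En.i (nat_lit 8166) (nat_lit 10) (nat_lit 12))
    (@En.n l6370 (nat_lit 7547) (nat_lit 11) (nat_lit 8))
    (@En.i (nat_lit 7660) (nat_lit 12) (nat_lit 11))
    (@En.n l30971 (nat_lit 11608) (nat_lit 13) (nat_lit 8))
    (@En.n l20166 (nat_lit 6525) (nat_lit 14) (nat_lit 10))
    (@En.i (nat_lit 12188) (nat_lit 13) (nat_lit 5))
    (@En.n l3 (nat_lit 11607) (nat_lit 15) (nat_lit 2))))
  (@Cl.mk (nat_lit 0x200050008000b0007000c0007000c0005000400080004000b0009000e0009) (nat_lit 0x56050300308766) (nat_lit 16) Lb.e (@T16.mk En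
    (@En.n l21971 (nat_lit 11610) (nat_lit 1) (nat_lit 9))
    (@En.n l3 (nat_lit 11604) (nat_lit 1) (nat_lit 14))
    (@En.i (nat_lit 10903) (nat_lit 2) (nat_lit 9))
    (@En.n l24047 (nat_lit 11607) (nat_lit 3) (nat_lit 11))
    (@En.n l37132 (nat_lit 12094) (nat_lit 4) (nat_lit 4))
    (@En.n l21346 (nat_lit 10980) (nat_lit 5) (nat_lit 8))
    (@En.n l28 (nat_lit 10984) (nat_lit 6) (nat_lit 4))
    (@En.n l37133 (nat_lit 11733) (nat_lit 7) (nat_lit 5))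
    (@En.i (nat_lit 4425) (nat_lit 9) (nat_lit 12))
    (@En.n l6101 (nat_lit 10671) (nat_lit 10) (nat_lit 7))
    (@En.n l37133 (nat_lit 8169) (nat_lit 11) (nat_lit 12))
    (@En.n l1328 (nat_lit 7545) (nat_lit 12) (nat_lit 7))
    (@En.n l37133 (nat_lit 7657) (nat_lit 13) (nat_lit 11))
    (@En.n l11247 (nat_lit 11033) (nat_lit 14) (nat_lit 8))
    (@En.n l3106 (nat_lit 12186) (nat_lit 13) (nat_lit 5))
    (@En.n l17 (nat_lit 11608) (nat_lit 15) (nat_lit 2))))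
  (@Cl.mk (nat_lit 0x400090007000a0007000b000800080007000600050009000c000900080008) (nat_lit 0x307072300037444) (nat_lit 16) Lb.e (@T16.mk En
    (@En.n l32667 (nat_lit 12221) (nat_lit 8) (nat_lit 8))
    (@En.n l31946 (nat_lit 10366) (nat_lit 1) (nat_lit 8))
    (@En.n l18095 (nat_lit 11054) (nat_lit 13) (nat_lit 9))
    (@En.n l31946 (nat_lit 5153) (nat_lit 6) (nat_lit 12))
    (@En.n l41866 (nat_lit 12218) (nat_lit 10) (nat_lit 9))
    (@En.n l41867 (nat_lit 12217) (nat_lit 11) (nat_lit 5))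
    (@En.n l41868 (nat_lit 11737) (nat_lit 10) (nat_lit 6))
    (@En.i (nat_lit 10708) (nat_lit 9) (nat_lit 7))
    (@En.n l3532 (nat_lit 11607) (nat_lit 8) (nat_lit 8))
    (@En.n l31951 (nat_lit 9364) (nat_lit 8) (nat_lit 8))
    (@En.i (nat_lit 8059) (nat_lit 8) (nat_lit 11))
    (@En.n l32044 (nat_lit 7553) (nat_lit 5) (nat_lit 7))
    (@En.i (nat_lit 11364) (nat_lit 8) (nat_lit 10))
    (@En.n l41869 (nat_lit 11610) (nat_lit 14) (nat_lit 7))
    (@En.n l41870 (nat_lit 6527) (nat_lit 11) (nat_lit 9))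
    (@En.n l39955 (nat_lit 9848) (nat_lit 15) (nat_lit 4))))
  (@Cl.mk (nat_lit 0x40007000a0006000b00070007000c0006000500090004000c000a00090009) (nat_lit 0x50600400308855) (nat_lit 16) Lb.e (@T16.mk En
    (@En.n l36557 (nat_lit 12223) (nat_lit 7) (nat_lit 9))
    (@En.n l649 (nat_lit 10365) (nat_lit 1) (nat_lit 9))
    (@En.n l28928 (nat_lit 10904) (nat_lit 14) (nat_lit 10))
    (@En.n l41565 (nat_lit 11609) (nat_lit 3) (nat_lit 12))
    (@En.n l41566 (nat_lit 12093) (nat_lit 4) (nat_lit 4))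
    (@En.n l41567 (nat_lit 12216) (nat_lit 10) (nat_lit 9))
    (@En.i (nat_lit 12215) (nat_lit 11) (nat_lit 5))
    (@En.n l41568 (nat_lit 11736) (nat_lit 7) (nat_lit 6))
    (@En.n l28928 (nat_lit 10269) (nat_lit 8) (nat_lit 12))
    (@En.n l36551 (nat_lit 11608) (nat_lit 9) (nat_lit 7))
    (@En.n l25750 (nat_lit 9370) (nat_lit 5) (nat_lit 7))
    (@En.n l41569 (nat_lit 10997) (nat_lit 12) (nat_lit 11))
    (@En.n l36554 (nat_lit 7555) (nat_lit 7) (nat_lit 6))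
    (@En.n l41570 (nat_lit 7663) (nat_lit 8) (nat_lit 10))
    (@En.n l41571 (nat_lit 7805) (nat_lit 11) (nat_lit 7))
    (@En.n l36556 (nat_lit 9849) (nat_lit 15) (nat_lit 4))))
  (@Cl.mk (nat_lit 0x400090007000a00050008000c00090007000600040009000c00080007000b) (nat_lit 0x304025300026506) (nat_lit 16) Lb.e (@T16.mk En
    (@En.n l40181 (nat_lit 12012) (nat_lit 0) (nat_lit 11))
    (@En.i (nat_lit 12013) (nat_lit 1) (nat_lit 7))
    (@En.n l40182 (nat_lit 9720) (nat_lit 13) (nat_lit 8))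
    (@En.i (nat_lit 6531) (nat_lit 6) (nat_lit 12))
    (@En.n l16540 (nat_lit 11613) (nat_lit 4) (nat_lit 9))
    (@En.n l40183 (nat_lit 11109) (nat_lit 5) (nat_lit 4))
    (@En.i (nat_lit 11756) (nat_lit 10) (nat_lit 6))
    (@En.n l40184 (nat_lit 10029) (nat_lit 1) (nat_lit 7))
    (@En.n l68 (nat_lit 11446) (nat_lit 13) (nat_lit 9))
    (@En.n l28964 (nat_lit 8884) (nat_lit 7) (nat_lit 12))
    (@En.n l40184 (nat_lit 11607) (nat_lit 10) (nat_lit 8))
    (@En.n l38418 (nat_lit 10565) (nat_lit 5) (nat_lit 5))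
    (@En.n l28964 (nat_lit 12338) (nat_lit 8) (nat_lit 10))
    (@En.n l40185 (nat_lit 11612) (nat_lit 14) (nat_lit 7))
    (@En.n l34009 (nat_lit 11952) (nat_lit 2) (nat_lit 9))
    (@En.n l8501 (nat_lit 12173) (nat_lit 15) (nat_lit 4))))
  (@Cl.mk (nat_lit 0x40007000a00040007000c0008000c0006000400090004000c00090008000c) (nat_lit 0x70066200307757) (nat_lit 16) Lb.e (@T16.mk En
    (@En.n l16317 (nat_lit 12011) (nat_lit 0) (nat_lit 12))
    (@En.n l11426 (nat_lit 12014) (nat_lit 1) (nat_lit 8))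
    (@En.n l517 (nat_lit 11118) (nat_lit 5) (nat_lit 9))
    (@En.n l38392 (nat_lit 11611) (nat_lit 3) (nat_lit 12))
    (@En.n l38393 (nat_lit 12020) (nat_lit 7) (nat_lit 4))
    (@En.n l343 (nat_lit 11614) (nat_lit 0) (nat_lit 9))
    (@En.n l28 (nat_lit 11107) (nat_lit 1) (nat_lit 4))
    (@En.n l24053 (nat_lit 11757) (nat_lit 0) (nat_lit 6))
    (@En.i (nat_lit 4322) (nat_lit 1) (nat_lit 12))
    (@En.n l3213 (nat_lit 11444) (nat_lit 13) (nat_lit 8))
    (@En.n l2125 (nat_lit 9788) (nat_lit 11) (nat_lit 12))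
    (@En.n l152 (nat_lit 11608) (nat_lit 11) (nat_lit 7))
    (@En.n l345 (nat_lit 10564) (nat_lit 15) (nat_lit 4))
    (@En.n l9911 (nat_lit 12039) (nat_lit 8) (nat_lit 10))
    (@En.n l253 (nat_lit 7399) (nat_lit 11) (nat_lit 7))
    (@En.n l22588 (nat_lit 12175) (nat_lit 15) (nat_lit 4))))
  (@Cl.mk (nat_lit 0x400080007000c000a000600090004000a000800060009000c00070006000a) (nat_lit 0x409506031015003) (nat_lit 16) Lb.e (@T16.mk En
    (@En.n l37605 (nat_lit 12010) (nat_lit 0) (nat_lit 10))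
    (@En.n l28 (nat_lit 11629) (nat_lit 1) (nat_lit 6))
    (@En.n l37606 (nat_lit 9722) (nat_lit 0) (nat_lit 7))
    (@En.n l11424 (nat_lit 11602) (nat_lit 6) (nat_lit 12))
    (@En.n l3724 (nat_lit 6348) (nat_lit 9) (nat_lit 9))
    (@En.n l61 (nat_lit 9849) (nat_lit 10) (nat_lit 6))
    (@En.n l21643 (nat_lit 10026) (nat_lit 6) (nat_lit 8))
    (@En.n l37607 (nat_lit 11443) (nat_lit 1) (nat_lit 10))
    (@En.n l29298 (nat_lit 4312) (nat_lit 8) (nat_lit 4))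
    (@En.n l21643 (nat_lit 10979) (nat_lit 9) (nat_lit 9))
    (@En.n l37608 (nat_lit 2832) (nat_lit 1) (nat_lit 6))
    (@En.n l37609 (nat_lit 11611) (nat_lit 12) (nat_lit 10))
    (@En.n l11426 (nat_lit 11901) (nat_lit 13) (nat_lit 12))
    (@En.n l37610 (nat_lit 11614) (nat_lit 9) (nat_lit 7))
    (@En.n l37611 (nat_lit 10491) (nat_lit 11) (nat_lit 8))
    (@En.n l37612 (nat_lit 12169) (nat_lit 15) (nat_lit 4))))
  (@Cl.mk (nat_lit 0x3000c00080007000b00040007000c000a0005000800040009000d00060009) (nat_lit 0x650400980503402) (nat_lit 16) Lb.e (@T16.mk En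
    (@En.n l24577 (nat_lit 6759) (nat_lit 9) (nat_lit 9))
    (@En.n l24578 (nat_lit 9850) (nat_lit 6) (nat_lit 6))
    (@En.i (nat_lit 4302) (nat_lit 6) (nat_lit 13))
    (@En.n l21561 (nat_lit 11441) (nat_lit 3) (nat_lit 9))
    (@En.n l3535 (nat_lit 4311) (nat_lit 4) (nat_lit 4))
    (@En.n l13365 (nat_lit 10980) (nat_lit 10) (nat_lit 8))
    (@En.n l21284 (nat_lit 2827) (nat_lit 1) (nat_lit 5))
    (@En.n l55 (nat_lit 11612) (nat_lit 13) (nat_lit 10))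
    (@En.n l1329 (nat_lit 12036) (nat_lit 9) (nat_lit 12))
    (@En.n l4750 (nat_lit 7392) (nat_lit 11) (nat_lit 7))
    (@En.n l24579 (nat_lit 12174) (nat_lit 10) (nat_lit 4))
    (@En.n l17017 (nat_lit 12009) (nat_lit 0) (nat_lit 11))
    (@En.n l7231 (nat_lit 11628) (nat_lit 1) (nat_lit 7))
    (@En.i (nat_lit 11113) (nat_lit 14) (nat_lit 8))
    (@En.n l23878 (nat_lit 11613) (nat_lit 3) (nat_lit 12))
    (@En.n l16798 (nat_lit 11615) (nat_lit 15) (nat_lit 3))))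
  (@Cl.mk (nat_lit 0x3000c00080007000b00040008000c00090005000800040009000d00080007) (nat_lit 0x660502860503120) (nat_lit 16) Lb.e (@T16.mk En
    (@En.n l16956 (nat_lit 12223) (nat_lit 0) (nat_lit 7))
    (@En.n l38394 (nat_lit 11613) (nat_lit 6) (nat_lit 8))
    (@En.n l16956 (nat_lit 4303) (nat_lit 6) (nat_lit 13))
    (@En.n l38395 (nat_lit 11442) (nat_lit 3) (nat_lit 9))
    (@En.n l5801 (nat_lit 4310) (nat_lit 4) (nat_lit 4))
    (@En.n l38396 (nat_lit 10985) (nat_lit 10) (nat_lit 8))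
    (@En.n l18270 (nat_lit 3409) (nat_lit 1) (nat_lit 5))
    (@En.i (nat_lit 12020) (nat_lit 0) (nat_lit 9))
    (@En.i (nat_lit 10298) (nat_lit 7) (nat_lit 12))
    (@En.n l3593 (nat_lit 10439) (nat_lit 11) (nat_lit 8))
    (@En.n l18251 (nat_lit 12176) (nat_lit 10) (nat_lit 4))
    (@En.n l5801 (nat_lit 12008) (nat_lit 0) (nat_lit 11))
    (@En.n l8239 (nat_lit 11626) (nat_lit 1) (nat_lit 7))
    (@En.n l38397 (nat_lit 11115) (nat_lit 14) (nat_lit 8))
    (@En.n l37403 (nat_lit 11592) (nat_lit 3) (nat_lit 12))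
    (@En.n l38398 (nat_lit 11614) (nat_lit 15) (nat_lit 3))))
noncomputable def a726 : T16 Cl := @T16.mk Cl
  (@Cl.mk (nat_lit 0x2000d0006000b0003000b0007000c0005000c00050004000a0004000e0009) (nat_lit 0x702050505007027) (nat_lit 16) Lb.e (@T16.mk En
    (@En.n l31136 (nat_lit 10702) (nat_lit 4) (nat_lit 9))
    (@En.n l1819 (nat_lit 9512) (nat_lit 1) (nat_lit 14))
    (@En.n l20299 (nat_lit 10908) (nat_lit 2) (nat_lit 4))
    (@En.n l31137 (nat_lit 11313) (nat_lit 3) (nat_lit 10))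
    (@En.n l152 (nat_lit 11600) (nat_lit 4) (nat_lit 4))
    (@En.n l31138 (nat_lit 6538) (nat_lit 5) (nat_lit 5))
    (@En.n l31139 (nat_lit 11017) (nat_lit 7) (nat_lit 12))
    (@En.n l31140 (nat_lit 11620) (nat_lit 7) (nat_lit 5))
    (@En.i (nat_lit 7538) (nat_lit 9) (nat_lit 12))
    (@En.n l15539 (nat_lit 10699) (nat_lit 14) (nat_lit 7))
    (@En.n l31141 (nat_lit 9569) (nat_lit 11) (nat_lit 11))
    (@En.n l20715 (nat_lit 11617) (nat_lit 11) (nat_lit 3))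
    (@En.n l3852 (nat_lit 8288) (nat_lit 0) (nat_lit 11))
    (@En.n l31141 (nat_lit 10859) (nat_lit 14) (nat_lit 6))
    (@En.n l31142 (nat_lit 10835) (nat_lit 2) (nat_lit 13))
    (@En.n l7 (nat_lit 11616) (nat_lit 15) (nat_lit 2))))
  (@Cl.mk (nat_lit 0x2000d000a00070003000b0007000c0006000c0005000400090004000e0009) (nat_lit 0x760060501002027) (nat_lit 16) Lb.e (@T16.mk En
    (@En.n l16194 (nat_lit 10704) (nat_lit 4) (nat_lit 9))
    (@En.n l16195 (nat_lit 9513) (nat_lit 1) (nat_lit 14))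
    (@En.n l858 (nat_lit 10912) (nat_lit 2) (nat_lit 4))
    (@En.n l16196 (nat_lit 11250) (nat_lit 3) (nat_lit 9))
    (@En.n l7000 (nat_lit 11623) (nat_lit 4) (nat_lit 4))
    (@En.n l8341 (nat_lit 6536) (nat_lit 5) (nat_lit 5))
    (@En.n l16197 (nat_lit 4177) (nat_lit 7) (nat_lit 12))
    (@En.n l16198 (nat_lit 8045) (nat_lit 7) (nat_lit 6))
    (@En.n l858 (nat_lit 7539) (nat_lit 9) (nat_lit 12))
    (@En.n l16199 (nat_lit 10700) (nat_lit 14) (nat_lit 7))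
    (@En.n l16200 (nat_lit 11089) (nat_lit 11) (nat_lit 11))
    (@En.n l8880 (nat_lit 11616) (nat_lit 11) (nat_lit 3))
    (@En.n l16201 (nat_lit 12523) (nat_lit 0) (nat_lit 7))
    (@En.n l16202 (nat_lit 11159) (nat_lit 14) (nat_lit 10))
    (@En.n l16203 (nat_lit 10837) (nat_lit 2) (nat_lit 13))
    (@En.n l17 (nat_lit 11617) (nat_lit 15) (nat_lit 2))))
  (@Cl.mk (nat_lit 0x2000d000600090003000c0007000c000b000400070004000a0005000e0009) (nat_lit 0x902060240008043) (nat_lit 16) Lb.e (@T16.mk En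
    (@En.n l12632 (nat_lit 11441) (nat_lit 4) (nat_lit 9))
    (@En.n l1819 (nat_lit 9629) (nat_lit 1) (nat_lit 14))
    (@En.n l20299 (nat_lit 3425) (nat_lit 2) (nat_lit 5))
    (@En.n l31137 (nat_lit 11620) (nat_lit 3) (nat_lit 10))
    (@En.i (nat_lit 11616) (nat_lit 4) (nat_lit 4))
    (@En.i (nat_lit 3400) (nat_lit 11) (nat_lit 7))
    (@En.n l24842 (nat_lit 6539) (nat_lit 6) (nat_lit 4))
    (@En.n l619 (nat_lit 11597) (nat_lit 8) (nat_lit 11))
    (@En.i (nat_lit 10221) (nat_lit 9) (nat_lit 12))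
    (@En.n l20299 (nat_lit 10960) (nat_lit 14) (nat_lit 7))
    (@En.n l35333 (nat_lit 11621) (nat_lit 11) (nat_lit 12))
    (@En.i (nat_lit 11619) (nat_lit 11) (nat_lit 3))
    (@En.n l8146 (nat_lit 5204) (nat_lit 9) (nat_lit 9))
    (@En.i (nat_lit 7545) (nat_lit 14) (nat_lit 6))
    (@En.n l24839 (nat_lit 10577) (nat_lit 2) (nat_lit 13))
    (@En.n l7 (nat_lit 11618) (nat_lit 15) (nat_lit 2))))
  (@Cl.mk (nat_lit 0x2000d000800070003000c0007000c000b00040008000400090005000e0009) (nat_lit 0xa50050450107043) (nat_lit 16) Lb.e (@T16.mk En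
    (@En.n l30673 (nat_lit 11442) (nat_lit 4) (nat_lit 9))
    (@En.n l10889 (nat_lit 9631) (nat_lit 1) (nat_lit 14))
    (@En.n l3503 (nat_lit 4703) (nat_lit 2) (nat_lit 5))
    (@En.n l24316 (nat_lit 11403) (nat_lit 3) (nat_lit 9))
    (@En.n l20715 (nat_lit 11617) (nat_lit 4) (nat_lit 4))
    (@En.n l14384 (nat_lit 4706) (nat_lit 5) (nat_lit 8))
    (@En.n l31018 (nat_lit 6537) (nat_lit 6) (nat_lit 4))
    (@En.n l14921 (nat_lit 11601) (nat_lit 8) (nat_lit 11))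
    (@En.i (nat_lit 10220) (nat_lit 9) (nat_lit 12))
    (@En.n l31074 (nat_lit 12022) (nat_lit 14) (nat_lit 7))
    (@En.n l31075 (nat_lit 7719) (nat_lit 11) (nat_lit 12))
    (@En.n l18 (nat_lit 11618) (nat_lit 11) (nat_lit 3))
    (@En.n l31076 (nat_lit 12518) (nat_lit 0) (nat_lit 7))
    (@En.n l31077 (nat_lit 11621) (nat_lit 14) (nat_lit 8))
    (@En.n l25075 (nat_lit 11784) (nat_lit 2) (nat_lit 13))
    (@En.n l7 (nat_lit 11619) (nat_lit 15) (nat_lit 2))))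
  (@Cl.mk (nat_lit 0x2000c0006000b00090004000c00080005000c00040007000a0004000e0008) (nat_lit 0x903306407007042) (nat_lit 16) Lb.e (@T16.mk En
    (@En.n l37114 (nat_lit 11444) (nat_lit 14) (nat_lit 8))
    (@En.n l601 (nat_lit 9632) (nat_lit 1) (nat_lit 14))
    (@En.n l37115 (nat_lit 4545) (nat_lit 2) (nat_lit 4))
    (@En.i (nat_lit 11319) (nat_lit 8) (nat_lit 10))
    (@En.n l37116 (nat_lit 3401) (nat_lit 11) (nat_lit 7))
    (@En.n l1080 (nat_lit 6540) (nat_lit 5) (nat_lit 4))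
    (@En.n l4151 (nat_lit 11598) (nat_lit 7) (nat_lit 12))
    (@En.n l31088 (nat_lit 11155) (nat_lit 7) (nat_lit 5))
    (@En.n l5076 (nat_lit 10959) (nat_lit 9) (nat_lit 8))
    (@En.n l10038 (nat_lit 11622) (nat_lit 10) (nat_lit 12))
    (@En.n l37117 (nat_lit 11403) (nat_lit 10) (nat_lit 4))
    (@En.n l37118 (nat_lit 11618) (nat_lit 12) (nat_lit 9))
    (@En.n l31088 (nat_lit 7926) (nat_lit 13) (nat_lit 11))
    (@En.n l18024 (nat_lit 7547) (nat_lit 14) (nat_lit 6))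
    (@En.n l6771 (nat_lit 10575) (nat_lit 3) (nat_lit 12))
    (@En.n l50 (nat_lit 11620) (nat_lit 15) (nat_lit 2))))
  (@Cl.mk (nat_lit 0x2000800060009000c0006000b000a0004000800070005000a0006000e000a) (nat_lit 0x402505303006053) (nat_lit 16) Lb.e (@T16.mk En
    (@En.n l30425 (nat_lit 11443) (nat_lit 2) (nat_lit 10))
    (@En.n l4316 (nat_lit 9630) (nat_lit 1) (nat_lit 14))
    (@En.n l6824 (nat_lit 4535) (nat_lit 2) (nat_lit 6))
    (@En.n l3087 (nat_lit 11622) (nat_lit 3) (nat_lit 10))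
    (@En.n l6820 (nat_lit 9569) (nat_lit 4) (nat_lit 5))
    (@En.n l30426 (nat_lit 11618) (nat_lit 5) (nat_lit 7))
    (@En.n l30427 (nat_lit 10345) (nat_lit 6) (nat_lit 8))
    (@En.n l30428 (nat_lit 6541) (nat_lit 7) (nat_lit 4))
    (@En.i (nat_lit 11595) (nat_lit 9) (nat_lit 10))
    (@En.n l30429 (nat_lit 8921) (nat_lit 10) (nat_lit 11))
    (@En.n l28228 (nat_lit 10065) (nat_lit 11) (nat_lit 6))
    (@En.i (nat_lit 7998) (nat_lit 6) (nat_lit 12))
    (@En.n l3866 (nat_lit 5127) (nat_lit 9) (nat_lit 9))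
    (@En.n l3082 (nat_lit 7546) (nat_lit 14) (nat_lit 6))
    (@En.n l4660 (nat_lit 9719) (nat_lit 6) (nat_lit 8))
    (@En.n l50 (nat_lit 11621) (nat_lit 15) (nat_lit 2))))
  (@Cl.mk (nat_lit 0x200070006000c0009000c00070004000b000400090007000a0005000e0009) (nat_lit 0x3350060305062) (nat_lit 16) Lb.e (@T16.mk En
    (@En.i (nat_lit 11446) (nat_lit 14) (nat_lit 9))
    (@En.n l32086 (nat_lit 9633) (nat_lit 1) (nat_lit 14))
    (@En.n l2943 (nat_lit 4542) (nat_lit 2) (nat_lit 5))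
    (@En.n l3581 (nat_lit 12393) (nat_lit 3) (nat_lit 10))
    (@En.n l11065 (nat_lit 11620) (nat_lit 4) (nat_lit 7))
    (@En.n l18212 (nat_lit 10343) (nat_lit 5) (nat_lit 9))
    (@En.n l3581 (nat_lit 6542) (nat_lit 6) (nat_lit 4))
    (@En.n l287 (nat_lit 11596) (nat_lit 8) (nat_lit 11))
    (@En.n l11 (nat_lit 8003) (nat_lit 8) (nat_lit 4))
    (@En.n l32087 (nat_lit 10067) (nat_lit 10) (nat_lit 7))
    (@En.i (nat_lit 7996) (nat_lit 11) (nat_lit 12))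
    (@En.n l15752 (nat_lit 11621) (nat_lit 12) (nat_lit 9))
    (@En.n l3582 (nat_lit 7928) (nat_lit 13) (nat_lit 12))
    (@En.i (nat_lit 7548) (nat_lit 14) (nat_lit 6))
    (@En.n l32088 (nat_lit 9718) (nat_lit 7) (nat_lit 7))
    (@En.n l3 (nat_lit 11622) (nat_lit 15) (nat_lit 2))))
  (@Cl.mk (nat_lit 0x2000d000900070003000d0007000c00030007000d000400090003000e0009) (nat_lit 0x570060500101064) (nat_lit 16) Lb.e (@T16.mk En
    (@En.n l8907 (nat_lit 12207) (nat_lit 14) (nat_lit 9))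
    (@En.n l1547 (nat_lit 12137) (nat_lit 1) (nat_lit 14))
    (@En.n l137 (nat_lit 11601) (nat_lit 2) (nat_lit 3))
    (@En.n l6478 (nat_lit 6465) (nat_lit 3) (nat_lit 9))
    (@En.n l117 (nat_lit 11619) (nat_lit 4) (nat_lit 4))
    (@En.n l4808 (nat_lit 4173) (nat_lit 6) (nat_lit 13))
    (@En.n l24004 (nat_lit 4712) (nat_lit 6) (nat_lit 7))
    (@En.n l3089 (nat_lit 11625) (nat_lit 7) (nat_lit 3))
    (@En.i (nat_lit 7413) (nat_lit 0) (nat_lit 12))
    (@En.n l18946 (nat_lit 11627) (nat_lit 14) (nat_lit 7))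
    (@En.n l4807 (nat_lit 7970) (nat_lit 11) (nat_lit 13))
    (@En.n l18 (nat_lit 11600) (nat_lit 11) (nat_lit 3))
    (@En.n l4855 (nat_lit 12525) (nat_lit 0) (nat_lit 7))
    (@En.n l61 (nat_lit 11599) (nat_lit 14) (nat_lit 9))
    (@En.n l30888 (nat_lit 10824) (nat_lit 2) (nat_lit 13))
    (@En.n l7 (nat_lit 11623) (nat_lit 15) (nat_lit 2))))
  (@Cl.mk (nat_lit 0x2000d0006000a0003000d000b000800030006000d0005000a0003000e0008) (nat_lit 0x502066100407083) (nat_lit 16) Lb.e (@T16.mk En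
    (@En.n l21237 (nat_lit 12215) (nat_lit 14) (nat_lit 8))
    (@En.n l134 (nat_lit 12139) (nat_lit 1) (nat_lit 14))
    (@En.i (nat_lit 12219) (nat_lit 2) (nat_lit 3))
    (@En.n l21052 (nat_lit 12518) (nat_lit 3) (nat_lit 10))
    (@En.n l117 (nat_lit 6544) (nat_lit 4) (nat_lit 5))
    (@En.n l3337 (nat_lit 4174) (nat_lit 6) (nat_lit 13))
    (@En.i (nat_lit 12796) (nat_lit 6) (nat_lit 6))
    (@En.n l7630 (nat_lit 11600) (nat_lit 7) (nat_lit 3))
    (@En.n l21052 (nat_lit 8030) (nat_lit 0) (nat_lit 8))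
    (@En.n l7630 (nat_lit 11616) (nat_lit 10) (nat_lit 11))
    (@En.i (nat_lit 12222) (nat_lit 11) (nat_lit 13))
    (@En.n l2869 (nat_lit 11625) (nat_lit 11) (nat_lit 3))
    (@En.n l4938 (nat_lit 2104) (nat_lit 0) (nat_lit 10))
    (@En.i (nat_lit 12263) (nat_lit 14) (nat_lit 6))
    (@En.i (nat_lit 10718) (nat_lit 2) (nat_lit 13))
    (@En.n l7 (nat_lit 11624) (nat_lit 15) (nat_lit 2))))
  (@Cl.mk (nat_lit 0x2000d000900070003000d000b000800030007000d000500090003000e0008) (nat_lit 0x470057300401085) (nat_lit 16) Lb.e (@T16.mk En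
    (@En.n l32572 (nat_lit 12213) (nat_lit 14) (nat_lit 8))
    (@En.n l7145 (nat_lit 12140) (nat_lit 1) (nat_lit 14))
    (@En.n l50 (nat_lit 12224) (nat_lit 2) (nat_lit 3))
    (@En.i (nat_lit 6466) (nat_lit 3) (nat_lit 9))
    (@En.n l3528 (nat_lit 6546) (nat_lit 4) (nat_lit 5))
    (@En.n l476 (nat_lit 4170) (nat_lit 6) (nat_lit 13))
    (@En.i (nat_lit 9996) (nat_lit 6) (nat_lit 7))
    (@En.n l11662 (nat_lit 11623) (nat_lit 7) (nat_lit 3))
    (@En.i (nat_lit 10933) (nat_lit 0) (nat_lit 8))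
    (@En.i (nat_lit 11617) (nat_lit 10) (nat_lit 11))
    (@En.i (nat_lit 7972) (nat_lit 11) (nat_lit 13))
    (@En.n l1865 (nat_lit 11624) (nat_lit 11) (nat_lit 3))
    (@En.n l2038 (nat_lit 12564) (nat_lit 0) (nat_lit 7))
    (@En.n l1867 (nat_lit 12222) (nat_lit 14) (nat_lit 9))
    (@En.i (nat_lit 10831) (nat_lit 2) (nat_lit 13))
    (@En.n l17 (nat_lit 11625) (nat_lit 15) (nat_lit 2))))
  (@Cl.mk (nat_lit 0x30007000c00080005000d000400090003000d000900080003000d0007000b) (nat_lit 0x51020402440605) (nat_lit 16) Lb.e (@T16.mk En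
    (@En.n l23808 (nat_lit 7403) (nat_lit 0) (nat_lit 11))
    (@En.n l7440 (nat_lit 11995) (nat_lit 14) (nat_lit 7))
    (@En.n l8910 (nat_lit 11389) (nat_lit 2) (nat_lit 13))
    (@En.n l35334 (nat_lit 11628) (nat_lit 3) (nat_lit 3))
    (@En.n l20299 (nat_lit 11624) (nat_lit 0) (nat_lit 8))
    (@En.n l8907 (nat_lit 11629) (nat_lit 5) (nat_lit 9))
    (@En.n l11218 (nat_lit 10562) (nat_lit 2) (nat_lit 13))
    (@En.n l34380 (nat_lit 12008) (nat_lit 7) (nat_lit 3))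
    (@En.n l25147 (nat_lit 11619) (nat_lit 0) (nat_lit 9))
    (@En.n l24618 (nat_lit 10960) (nat_lit 9) (nat_lit 4))
    (@En.n l10419 (nat_lit 10551) (nat_lit 11) (nat_lit 13))
    (@En.n l23808 (nat_lit 4240) (nat_lit 1) (nat_lit 5))
    (@En.n l8908 (nat_lit 10926) (nat_lit 13) (nat_lit 8))
    (@En.n l4061 (nat_lit 9200) (nat_lit 14) (nat_lit 12))
    (@En.n l35335 (nat_lit 10437) (nat_lit 12) (nat_lit 7))
    (@En.n l18946 (nat_lit 11627) (nat_lit 15) (nat_lit 3))))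
  (@Cl.mk (nat_lit 0x30007000c00080006000d000400080003000d000900080003000d000a0008) (nat_lit 0x54020205460630) (nat_lit 16) Lb.e (@T16.mk En
    (@En.n l2571 (nat_lit 12610) (nat_lit 0) (nat_lit 8))
    (@En.n l39653 (nat_lit 12056) (nat_lit 14) (nat_lit 10))
    (@En.n l39654 (nat_lit 11388) (nat_lit 2) (nat_lit 13))
    (@En.n l117 (nat_lit 11991) (nat_lit 3) (nat_lit 3))
    (@En.n l25329 (nat_lit 11625) (nat_lit 0) (nat_lit 8))
    (@En.n l253 (nat_lit 11951) (nat_lit 5) (nat_lit 9))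
    (@En.n l3851 (nat_lit 10563) (nat_lit 2) (nat_lit 13))
    (@En.n l39655 (nat_lit 11989) (nat_lit 7) (nat_lit 3))
    (@En.n l39656 (nat_lit 6537) (nat_lit 0) (nat_lit 8))
    (@En.n l39657 (nat_lit 12022) (nat_lit 9) (nat_lit 4))
    (@En.n l39658 (nat_lit 10546) (nat_lit 0) (nat_lit 13))
    (@En.n l39653 (nat_lit 10446) (nat_lit 1) (nat_lit 6))
    (@En.n l39659 (nat_lit 10928) (nat_lit 13) (nat_lit 8))
    (@En.n l39660 (nat_lit 9199) (nat_lit 14) (nat_lit 12))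
    (@En.n l39661 (nat_lit 10290) (nat_lit 12) (nat_lit 7))
    (@En.n l34718 (nat_lit 11626) (nat_lit 15) (nat_lit 3))))
  (@Cl.mk (nat_lit 0x30006000c00090005000d000400090003000d0007000a0003000d0007000b) (nat_lit 0x57020405010603) (nat_lit 16) Lb.e (@T16.mk En
    (@En.n l619 (nat_lit 4615) (nat_lit 0) (nat_lit 11))
    (@En.n l19535 (nat_lit 11994) (nat_lit 14) (nat_lit 7))
    (@En.n l19536 (nat_lit 11629) (nat_lit 2) (nat_lit 13))
    (@En.n l10832 (nat_lit 11626) (nat_lit 3) (nat_lit 3))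
    (@En.n l8146 (nat_lit 6743) (nat_lit 8) (nat_lit 10))
    (@En.n l19537 (nat_lit 11768) (nat_lit 5) (nat_lit 7))
    (@En.n l396 (nat_lit 10032) (nat_lit 7) (nat_lit 13))
    (@En.n l7 (nat_lit 12009) (nat_lit 7) (nat_lit 3))
    (@En.i (nat_lit 11618) (nat_lit 0) (nat_lit 9))
    (@En.n l28 (nat_lit 10410) (nat_lit 9) (nat_lit 4))
    (@En.n l19538 (nat_lit 10368) (nat_lit 11) (nat_lit 13))
    (@En.n l4879 (nat_lit 4237) (nat_lit 1) (nat_lit 5))
    (@En.i (nat_lit 12014) (nat_lit 13) (nat_lit 9))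
    (@En.n l10832 (nat_lit 9202) (nat_lit 14) (nat_lit 12))
    (@En.i (nat_lit 7396) (nat_lit 12) (nat_lit 6))
    (@En.n l4288 (nat_lit 11991) (nat_lit 15) (nat_lit 3))))
  (@Cl.mk (nat_lit 0x300070006000c00090006000d0004000a000300090007000a000d0006000a) (nat_lit 0x7002040301504) (nat_lit 16) Lb.e (@T16.mk En
    (@En.n l30222 (nat_lit 4610) (nat_lit 0) (nat_lit 10))
    (@En.n l14150 (nat_lit 10083) (nat_lit 11) (nat_lit 6))
    (@En.n l7642 (nat_lit 11386) (nat_lit 5) (nat_lit 13))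
    (@En.i (nat_lit 6749) (nat_lit 8) (nat_lit 10))
    (@En.n l61 (nat_lit 11766) (nat_lit 14) (nat_lit 7))
    (@En.n l21151 (nat_lit 10401) (nat_lit 5) (nat_lit 9))
    (@En.n l6277 (nat_lit 12010) (nat_lit 6) (nat_lit 3))
    (@En.n l21111 (nat_lit 11621) (nat_lit 0) (nat_lit 10))
    (@En.n l117 (nat_lit 10407) (nat_lit 8) (nat_lit 4))
    (@En.n l2843 (nat_lit 10367) (nat_lit 10) (nat_lit 13))
    (@En.n l30223 (nat_lit 4230) (nat_lit 3) (nat_lit 6))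
    (@En.n l7642 (nat_lit 12013) (nat_lit 12) (nat_lit 9))
    (@En.n l7231 (nat_lit 10698) (nat_lit 13) (nat_lit 12))
    (@En.n l30224 (nat_lit 11628) (nat_lit 14) (nat_lit 6))
    (@En.n l30225 (nat_lit 10492) (nat_lit 12) (nat_lit 7))
    (@En.n l22484 (nat_lit 11951) (nat_lit 15) (nat_lit 3))))
  (@Cl.mk (nat_lit 0x20007000a0006000e000a000200080006000d000900060003000a000e0008) (nat_lit 0x20740603500684) (nat_lit 16) Lb.e (@T16.mk En
    (@En.n l17997 (nat_lit 6461) (nat_lit 6) (nat_lit 8))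
    (@En.n l601 (nat_lit 7968) (nat_lit 8) (nat_lit 14))
    (@En.n l287 (nat_lit 11190) (nat_lit 2) (nat_lit 10))
    (@En.n l11 (nat_lit 11631) (nat_lit 3) (nat_lit 3))
    (@En.n l17998 (nat_lit 9309) (nat_lit 0) (nat_lit 6))
    (@En.i (nat_lit 11195) (nat_lit 5) (nat_lit 9))
    (@En.n l2343 (nat_lit 11632) (nat_lit 7) (nat_lit 13))
    (@En.i (nat_lit 7588) (nat_lit 14) (nat_lit 6))
    (@En.n l200 (nat_lit 10490) (nat_lit 9) (nat_lit 8))
    (@En.n l3 (nat_lit 11630) (nat_lit 9) (nat_lit 2))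
    (@En.i (nat_lit 10043) (nat_lit 11) (nat_lit 10))
    (@En.n l9410 (nat_lit 6501) (nat_lit 12) (nat_lit 14))
    (@En.n l1723 (nat_lit 5026) (nat_lit 2) (nat_lit 6))
    (@En.n l711 (nat_lit 764) (nat_lit 8) (nat_lit 10))
    (@En.i (nat_lit 11622) (nat_lit 4) (nat_lit 7))
    (@En.n l50 (nat_lit 11630) (nat_lit 15) (nat_lit 2))))
  (@Cl.mk (nat_lit 0x20006000a0006000e000b000200080006000d0005000a0003000a000e0008) (nat_lit 0x20710604040686) (nat_lit 16) Lb.e (@T16.mk En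
    (@En.n l18216 (nat_lit 6463) (nat_lit 6) (nat_lit 8))
    (@En.n l601 (nat_lit 7967) (nat_lit 8) (nat_lit 14))
    (@En.i (nat_lit 7683) (nat_lit 2) (nat_lit 10))
    (@En.i (nat_lit 11630) (nat_lit 3) (nat_lit 3))
    (@En.i (nat_lit 9306) (nat_lit 4) (nat_lit 10))
    (@En.n l117 (nat_lit 9362) (nat_lit 5) (nat_lit 5))
    (@En.i (nat_lit 11633) (nat_lit 7) (nat_lit 13))
    (@En.i (nat_lit 7592) (nat_lit 7) (nat_lit 6))
    (@En.n l3098 (nat_lit 10492) (nat_lit 9) (nat_lit 8))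
    (@En.n l3 (nat_lit 11631) (nat_lit 9) (nat_lit 2))
    (@En.i (nat_lit 7575) (nat_lit 11) (nat_lit 11))
    (@En.n l6444 (nat_lit 6502) (nat_lit 12) (nat_lit 14))
    (@En.n l1723 (nat_lit 5034) (nat_lit 13) (nat_lit 6))
    (@En.n l6042 (nat_lit 765) (nat_lit 3) (nat_lit 10))
    (@En.i (nat_lit 8003) (nat_lit 4) (nat_lit 6))
    (@En.n l50 (nat_lit 11631) (nat_lit 15) (nat_lit 2))))
noncomputable def a727 : T16 Cl := @T16.mk Cl
  (@Cl.mk (nat_lit 0x2000800060006000e000b00020008000d000800050003000a000a000e0008) (nat_lit 0x500b70622004625) (nat_lit 16) Lb.e (@T16.mk En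
    (@En.n l6429 (nat_lit 10130) (nat_lit 6) (nat_lit 8))
    (@En.n l6430 (nat_lit 12632) (nat_lit 8) (nat_lit 14))
    (@En.n l6431 (nat_lit 11639) (nat_lit 2) (nat_lit 10))
    (@En.n l396 (nat_lit 11195) (nat_lit 3) (nat_lit 10))
    (@En.n l6432 (nat_lit 11633) (nat_lit 4) (nat_lit 3))
    (@En.n l6433 (nat_lit 12254) (nat_lit 0) (nat_lit 5))
    (@En.n l6434 (nat_lit 5736) (nat_lit 6) (nat_lit 8))
    (@En.n l6435 (nat_lit 2992) (nat_lit 8) (nat_lit 13))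
    (@En.n l6436 (nat_lit 11244) (nat_lit 9) (nat_lit 8))
    (@En.n l3 (nat_lit 11632) (nat_lit 9) (nat_lit 2))
    (@En.n l6437 (nat_lit 11638) (nat_lit 11) (nat_lit 11))
    (@En.n l6438 (nat_lit 6908) (nat_lit 12) (nat_lit 14))
    (@En.n l6439 (nat_lit 11637) (nat_lit 2) (nat_lit 6))
    (@En.i (nat_lit 12752) (nat_lit 14) (nat_lit 6))
    (@En.n l6440 (nat_lit 7928) (nat_lit 4) (nat_lit 8))
    (@En.n l18 (nat_lit 11632) (nat_lit 15) (nat_lit 2))))
  (@Cl.mk (nat_lit 0x2000700060006000e000c00020008000d000400090003000a000a000e0008) (nat_lit 0x930630304626) (nat_lit 16) Lb.e (@T16.mk En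
    (@En.n l15781 (nat_lit 10126) (nat_lit 6) (nat_lit 8))
    (@En.n l15782 (nat_lit 12631) (nat_lit 8) (nat_lit 14))
    (@En.n l2345 (nat_lit 11636) (nat_lit 2) (nat_lit 10))
    (@En.i (nat_lit 8963) (nat_lit 3) (nat_lit 10))
    (@En.n l2343 (nat_lit 11632) (nat_lit 4) (nat_lit 3))
    (@En.n l15783 (nat_lit 2984) (nat_lit 5) (nat_lit 9))
    (@En.n l10386 (nat_lit 8058) (nat_lit 6) (nat_lit 4))
    (@En.n l15784 (nat_lit 2993) (nat_lit 8) (nat_lit 13))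
    (@En.n l15785 (nat_lit 11241) (nat_lit 1) (nat_lit 8))
    (@En.n l3 (nat_lit 11633) (nat_lit 9) (nat_lit 2))
    (@En.n l15784 (nat_lit 11634) (nat_lit 11) (nat_lit 12))
    (@En.n l15786 (nat_lit 6907) (nat_lit 12) (nat_lit 14))
    (@En.n l15787 (nat_lit 11635) (nat_lit 2) (nat_lit 6))
    (@En.n l15788 (nat_lit 12751) (nat_lit 14) (nat_lit 6))
    (@En.n l15789 (nat_lit 8559) (nat_lit 4) (nat_lit 7))
    (@En.n l50 (nat_lit 11633) (nat_lit 15) (nat_lit 2))))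
  (@Cl.mk (nat_lit 0x2000700060006000c000c0007000c0004000400090004000a000a000e0009) (nat_lit 0x260600305725) (nat_lit 16) Lb.e (@T16.mk En
    (@En.n l77 (nat_lit 10128) (nat_lit 12) (nat_lit 9))
    (@En.n l15910 (nat_lit 11067) (nat_lit 1) (nat_lit 14))
    (@En.n l15911 (nat_lit 11640) (nat_lit 2) (nat_lit 10))
    (@En.n l30500 (nat_lit 8965) (nat_lit 3) (nat_lit 10))
    (@En.n l30501 (nat_lit 11638) (nat_lit 4) (nat_lit 4))
    (@En.n l30502 (nat_lit 10112) (nat_lit 5) (nat_lit 9))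
    (@En.n l30503 (nat_lit 11633) (nat_lit 6) (nat_lit 4))
    (@En.n l30504 (nat_lit 8056) (nat_lit 7) (nat_lit 4))
    (@En.i (nat_lit 2758) (nat_lit 9) (nat_lit 12))
    (@En.n l30505 (nat_lit 11420) (nat_lit 10) (nat_lit 7))
    (@En.n l30506 (nat_lit 12839) (nat_lit 11) (nat_lit 12))
    (@En.n l30507 (nat_lit 9569) (nat_lit 12) (nat_lit 12))
    (@En.n l30508 (nat_lit 11642) (nat_lit 13) (nat_lit 6))
    (@En.n l15912 (nat_lit 12749) (nat_lit 14) (nat_lit 6))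
    (@En.n l142 (nat_lit 8422) (nat_lit 6) (nat_lit 7))
    (@En.n l7 (nat_lit 11634) (nat_lit 15) (nat_lit 2))))
  (@Cl.mk (nat_lit 0x20007000d000400080003000e000a0002000e0009000200080006000e000c) (nat_lit 0x20307505705096) (nat_lit 16) Lb.e (@T16.mk En
    (@En.n l6455 (nat_lit 11642) (nat_lit 12) (nat_lit 12))
    (@En.i (nat_lit 1627) (nat_lit 13) (nat_lit 14))
    (@En.n l2436 (nat_lit 12755) (nat_lit 2) (nat_lit 6))
    (@En.n l1014 (nat_lit 8553) (nat_lit 12) (nat_lit 8))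
    (@En.n l11 (nat_lit 11635) (nat_lit 4) (nat_lit 2))
    (@En.n l5066 (nat_lit 12286) (nat_lit 5) (nat_lit 9))
    (@En.n l6456 (nat_lit 11752) (nat_lit 1) (nat_lit 14))
    (@En.n l3 (nat_lit 11635) (nat_lit 7) (nat_lit 2))
    (@En.n l6457 (nat_lit 11633) (nat_lit 3) (nat_lit 10))
    (@En.n l2436 (nat_lit 4767) (nat_lit 1) (nat_lit 14))
    (@En.n l2226 (nat_lit 11637) (nat_lit 10) (nat_lit 3))
    (@En.n l6453 (nat_lit 3667) (nat_lit 6) (nat_lit 8))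
    (@En.i (nat_lit 12517) (nat_lit 7) (nat_lit 4))
    (@En.n l1014 (nat_lit 1226) (nat_lit 9) (nat_lit 13))
    (@En.i (nat_lit 11247) (nat_lit 6) (nat_lit 7))
    (@En.n l50 (nat_lit 11635) (nat_lit 15) (nat_lit 2))))
  (@Cl.mk (nat_lit 0x20006000e00060002000e000c00020009000d0004000a0003000a000e0007) (nat_lit 0x20095073030530) (nat_lit 16) Lb.e (@T16.mk En
    (@En.n l7 (nat_lit 10122) (nat_lit 7) (nat_lit 7))
    (@En.n l246 (nat_lit 3455) (nat_lit 9) (nat_lit 14))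
    (@En.n l2494 (nat_lit 7684) (nat_lit 2) (nat_lit 10))
    (@En.i (nat_lit 11639) (nat_lit 3) (nat_lit 3))
    (@En.n l16490 (nat_lit 3026) (nat_lit 4) (nat_lit 10))
    (@En.n l2494 (nat_lit 8051) (nat_lit 5) (nat_lit 4))
    (@En.i (nat_lit 686) (nat_lit 7) (nat_lit 13))
    (@En.n l770 (nat_lit 11239) (nat_lit 12) (nat_lit 9))
    (@En.n l3 (nat_lit 11636) (nat_lit 8) (nat_lit 2))
    (@En.i (nat_lit 11640) (nat_lit 10) (nat_lit 12))
    (@En.n l5559 (nat_lit 11670) (nat_lit 1) (nat_lit 14))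
    (@En.n l17 (nat_lit 11636) (nat_lit 11) (nat_lit 2))
    (@En.n l764 (nat_lit 11633) (nat_lit 13) (nat_lit 6))
    (@En.n l770 (nat_lit 1356) (nat_lit 5) (nat_lit 14))
    (@En.i (nat_lit 8760) (nat_lit 5) (nat_lit 6))
    (@En.n l50 (nat_lit 11636) (nat_lit 15) (nat_lit 2))))
  (@Cl.mk (nat_lit 0x20007000d000700050003000e000a0002000e0009000200090006000e000b) (nat_lit 0x3000750b6070b3) (nat_lit 16) Lb.e (@T16.mk En
    (@En.n l2247 (nat_lit 11643) (nat_lit 12) (nat_lit 11))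
    (@En.n l685 (nat_lit 1630) (nat_lit 1) (nat_lit 14))
    (@En.n l102 (nat_lit 12754) (nat_lit 2) (nat_lit 6))
    (@En.n l2248 (nat_lit 12509) (nat_lit 12) (nat_lit 9))
    (@En.n l3 (nat_lit 11637) (nat_lit 4) (nat_lit 2))
    (@En.n l2249 (nat_lit 12508) (nat_lit 5) (nat_lit 9))
    (@En.n l2250 (nat_lit 11754) (nat_lit 1) (nat_lit 14))
    (@En.n l17 (nat_lit 11637) (nat_lit 7) (nat_lit 2))
    (@En.n l2251 (nat_lit 11632) (nat_lit 3) (nat_lit 10))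
    (@En.n l102 (nat_lit 5039) (nat_lit 1) (nat_lit 14))
    (@En.n l684 (nat_lit 11635) (nat_lit 10) (nat_lit 3))
    (@En.n l685 (nat_lit 12615) (nat_lit 6) (nat_lit 5))
    (@En.n l686 (nat_lit 5734) (nat_lit 13) (nat_lit 7))
    (@En.n l2252 (nat_lit 1227) (nat_lit 9) (nat_lit 13))
    (@En.n l810 (nat_lit 11249) (nat_lit 6) (nat_lit 7))
    (@En.n l28 (nat_lit 11637) (nat_lit 15) (nat_lit 2))))
  (@Cl.mk (nat_lit 0x2000900060006000b000b0007000c0007000500050004000a000a000e0009) (nat_lit 0x400660500005726) (nat_lit 16) Lb.e (@T16.mk En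
    (@En.n l644 (nat_lit 10096) (nat_lit 12) (nat_lit 9))
    (@En.n l15932 (nat_lit 12633) (nat_lit 1) (nat_lit 14))
    (@En.n l15933 (nat_lit 11641) (nat_lit 2) (nat_lit 10))
    (@En.n l15934 (nat_lit 10040) (nat_lit 3) (nat_lit 10))
    (@En.n l15935 (nat_lit 11374) (nat_lit 4) (nat_lit 4))
    (@En.n l15936 (nat_lit 11632) (nat_lit 5) (nat_lit 5))
    (@En.n l6526 (nat_lit 11707) (nat_lit 6) (nat_lit 5))
    (@En.n l15905 (nat_lit 5699) (nat_lit 7) (nat_lit 7))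
    (@En.n l15932 (nat_lit 2759) (nat_lit 9) (nat_lit 12))
    (@En.n l15937 (nat_lit 10704) (nat_lit 10) (nat_lit 7))
    (@En.n l152 (nat_lit 12840) (nat_lit 5) (nat_lit 11))
    (@En.n l117 (nat_lit 11159) (nat_lit 12) (nat_lit 11))
    (@En.n l575 (nat_lit 11643) (nat_lit 13) (nat_lit 6))
    (@En.n l15938 (nat_lit 12607) (nat_lit 14) (nat_lit 6))
    (@En.n l15939 (nat_lit 11224) (nat_lit 0) (nat_lit 9))
    (@En.n l7 (nat_lit 11638) (nat_lit 15) (nat_lit 2))))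
  (@Cl.mk (nat_lit 0x20007000e00060002000e000b00020009000d000900050003000a000e0007) (nat_lit 0x200b8072400510) (nat_lit 16) Lb.e (@T16.mk En
    (@En.n l1214 (nat_lit 10129) (nat_lit 7) (nat_lit 7))
    (@En.n l3039 (nat_lit 2101) (nat_lit 9) (nat_lit 14))
    (@En.n l7477 (nat_lit 11191) (nat_lit 2) (nat_lit 10))
    (@En.n l11 (nat_lit 11636) (nat_lit 3) (nat_lit 3))
    (@En.n l7478 (nat_lit 12249) (nat_lit 0) (nat_lit 5))
    (@En.n l7479 (nat_lit 5738) (nat_lit 5) (nat_lit 9))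
    (@En.i (nat_lit 684) (nat_lit 7) (nat_lit 13))
    (@En.n l615 (nat_lit 11237) (nat_lit 12) (nat_lit 9))
    (@En.n l3 (nat_lit 11639) (nat_lit 8) (nat_lit 2))
    (@En.n l7480 (nat_lit 11641) (nat_lit 10) (nat_lit 11))
    (@En.n l3968 (nat_lit 11665) (nat_lit 1) (nat_lit 14))
    (@En.n l17 (nat_lit 11639) (nat_lit 11) (nat_lit 2))
    (@En.n l7481 (nat_lit 11632) (nat_lit 13) (nat_lit 6))
    (@En.n l7482 (nat_lit 1246) (nat_lit 5) (nat_lit 14))
    (@En.n l6755 (nat_lit 7925) (nat_lit 5) (nat_lit 7))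
    (@En.n l50 (nat_lit 11639) (nat_lit 15) (nat_lit 2))))
  (@Cl.mk (nat_lit 0x20006000e00060002000c000c0008000c00040004000a0004000a000e0008) (nat_lit 0x20047620040696) (nat_lit 16) Lb.e (@T16.mk En
    (@En.n l7 (nat_lit 10127) (nat_lit 4) (nat_lit 8))
    (@En.n l3039 (nat_lit 3454) (nat_lit 6) (nat_lit 14))
    (@En.n l4921 (nat_lit 7690) (nat_lit 2) (nat_lit 10))
    (@En.n l7480 (nat_lit 11641) (nat_lit 3) (nat_lit 4))
    (@En.n l476 (nat_lit 10783) (nat_lit 4) (nat_lit 10))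
    (@En.n l152 (nat_lit 11636) (nat_lit 5) (nat_lit 4))
    (@En.n l4921 (nat_lit 8049) (nat_lit 6) (nat_lit 4))
    (@En.i (nat_lit 689) (nat_lit 8) (nat_lit 12))
    (@En.n l31975 (nat_lit 11421) (nat_lit 13) (nat_lit 8))
    (@En.n l18804 (nat_lit 12837) (nat_lit 10) (nat_lit 12))
    (@En.n l16718 (nat_lit 11494) (nat_lit 11) (nat_lit 12))
    (@En.n l17 (nat_lit 11640) (nat_lit 11) (nat_lit 2))
    (@En.n l6980 (nat_lit 11634) (nat_lit 13) (nat_lit 6))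
    (@En.n l31976 (nat_lit 1354) (nat_lit 1) (nat_lit 14))
    (@En.i (nat_lit 8414) (nat_lit 2) (nat_lit 6))
    (@En.n l50 (nat_lit 11640) (nat_lit 15) (nat_lit 2))))
  (@Cl.mk (nat_lit 0x20008000e00060002000b000b0008000c0008000500050004000a000e0008) (nat_lit 0x330077622000615) (nat_lit 16) Lb.e (@T16.mk En
    (@En.n l18342 (nat_lit 10131) (nat_lit 4) (nat_lit 8))
    (@En.n l18343 (nat_lit 2446) (nat_lit 6) (nat_lit 14))
    (@En.n l18344 (nat_lit 11188) (nat_lit 2) (nat_lit 10))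
    (@En.n l644 (nat_lit 11371) (nat_lit 3) (nat_lit 4))
    (@En.n l18345 (nat_lit 11639) (nat_lit 4) (nat_lit 5))
    (@En.n l18346 (nat_lit 12246) (nat_lit 9) (nat_lit 5))
    (@En.n l18347 (nat_lit 5737) (nat_lit 6) (nat_lit 8))
    (@En.n l18348 (nat_lit 688) (nat_lit 8) (nat_lit 12))
    (@En.n l18346 (nat_lit 11435) (nat_lit 13) (nat_lit 8))
    (@En.n l18349 (nat_lit 12838) (nat_lit 5) (nat_lit 11))
    (@En.n l18350 (nat_lit 11594) (nat_lit 11) (nat_lit 11))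
    (@En.n l11 (nat_lit 11641) (nat_lit 11) (nat_lit 2))
    (@En.n l18351 (nat_lit 11638) (nat_lit 13) (nat_lit 6))
    (@En.n l18352 (nat_lit 1340) (nat_lit 1) (nat_lit 14))
    (@En.n l3106 (nat_lit 7931) (nat_lit 2) (nat_lit 8))
    (@En.n l17 (nat_lit 11641) (nat_lit 15) (nat_lit 2))))
  (@Cl.mk (nat_lit 0x200080006000c000c0006000c0004000400080004000e000a0002000e000a) (nat_lit 0x305302004066036) (nat_lit 16) Lb.e (@T16.mk En
    (@En.n l15975 (nat_lit 12279) (nat_lit 14) (nat_lit 10))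
    (@En.n l15976 (nat_lit 11755) (nat_lit 1) (nat_lit 14))
    (@En.n l17 (nat_lit 11642) (nat_lit 2) (nat_lit 2))
    (@En.n l15977 (nat_lit 11634) (nat_lit 3) (nat_lit 10))
    (@En.n l998 (nat_lit 4766) (nat_lit 1) (nat_lit 14))
    (@En.n l15978 (nat_lit 11643) (nat_lit 5) (nat_lit 4))
    (@En.n l15979 (nat_lit 10107) (nat_lit 6) (nat_lit 8))
    (@En.n l15980 (nat_lit 11635) (nat_lit 12) (nat_lit 4))
    (@En.i (nat_lit 12519) (nat_lit 8) (nat_lit 4))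
    (@En.n l15981 (nat_lit 2762) (nat_lit 10) (nat_lit 12))
    (@En.n l2254 (nat_lit 11586) (nat_lit 7) (nat_lit 6))
    (@En.n l55 (nat_lit 12278) (nat_lit 4) (nat_lit 12))
    (@En.i (nat_lit 8291) (nat_lit 13) (nat_lit 12))
    (@En.n l49 (nat_lit 12756) (nat_lit 14) (nat_lit 6))
    (@En.n l15982 (nat_lit 8198) (nat_lit 12) (nat_lit 8))
    (@En.n l3 (nat_lit 11642) (nat_lit 15) (nat_lit 2))))
  (@Cl.mk (nat_lit 0x2000a0006000b000b0006000c0006000500050004000e000a0002000e000a) (nat_lit 0x302305000066037) (nat_lit 16) Lb.e (@T16.mk En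
    (@En.n l644 (nat_lit 12274) (nat_lit 14) (nat_lit 10))
    (@En.n l6523 (nat_lit 7661) (nat_lit 1) (nat_lit 14))
    (@En.n l11 (nat_lit 11643) (nat_lit 2) (nat_lit 2))
    (@En.i (nat_lit 11638) (nat_lit 3) (nat_lit 10))
    (@En.n l4806 (nat_lit 4963) (nat_lit 1) (nat_lit 14))
    (@En.n l6524 (nat_lit 12568) (nat_lit 5) (nat_lit 4))
    (@En.n l6525 (nat_lit 11637) (nat_lit 11) (nat_lit 5))
    (@En.n l6526 (nat_lit 12571) (nat_lit 7) (nat_lit 5))
    (@En.n l6527 (nat_lit 5733) (nat_lit 8) (nat_lit 6))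
    (@En.n l4806 (nat_lit 2764) (nat_lit 10) (nat_lit 12))
    (@En.n l6528 (nat_lit 11617) (nat_lit 7) (nat_lit 6))
    (@En.n l152 (nat_lit 12276) (nat_lit 5) (nat_lit 11))
    (@En.n l6478 (nat_lit 8285) (nat_lit 13) (nat_lit 11))
    (@En.n l6529 (nat_lit 12608) (nat_lit 14) (nat_lit 6))
    (@En.n l6530 (nat_lit 11223) (nat_lit 12) (nat_lit 10))
    (@En.n l7 (nat_lit 11643) (nat_lit 15) (nat_lit 2))))
  (@Cl.mk (nat_lit 0x2000c00080008000c0004000a000a0004000a0008000800060006000e0006) (nat_lit 0x633302507230020) (nat_lit 16) Lb.e (@T16.mk En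
    (@En.n l20473 (nat_lit 11307) (nat_lit 5) (nat_lit 6))
    (@En.n l14299 (nat_lit 11372) (nat_lit 1) (nat_lit 14))
    (@En.n l5331 (nat_lit 11341) (nat_lit 10) (nat_lit 6))
    (@En.n l33338 (nat_lit 8755) (nat_lit 3) (nat_lit 6))
    (@En.n l33339 (nat_lit 10803) (nat_lit 4) (nat_lit 8))
    (@En.i (nat_lit 9225) (nat_lit 5) (nat_lit 8))
    (@En.n l33338 (nat_lit 9011) (nat_lit 7) (nat_lit 10))
    (@En.n l15027 (nat_lit 10781) (nat_lit 7) (nat_lit 4))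
    (@En.n l61 (nat_lit 11645) (nat_lit 9) (nat_lit 10))
    (@En.n l33340 (nat_lit 10778) (nat_lit 10) (nat_lit 10))
    (@En.n l33341 (nat_lit 11364) (nat_lit 10) (nat_lit 4))
    (@En.n l33342 (nat_lit 12334) (nat_lit 12) (nat_lit 12))
    (@En.n l33343 (nat_lit 10789) (nat_lit 8) (nat_lit 8))
    (@En.i (nat_lit 6521) (nat_lit 14) (nat_lit 8))
    (@En.n l33344 (nat_lit 7571) (nat_lit 3) (nat_lit 12))
    (@En.n l3 (nat_lit 11644) (nat_lit 15) (nat_lit 2))))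
  (@Cl.mk (nat_lit 0x2000c00090009000d0004000a0003000900070007000e00060002000e0007) (nat_lit 0x716704040060030) (nat_lit 16) Lb.e (@T16.mk En
    (@En.i (nat_lit 11305) (nat_lit 14) (nat_lit 7))
    (@En.n l14299 (nat_lit 11700) (nat_lit 1) (nat_lit 14))
    (@En.n l17 (nat_lit 11645) (nat_lit 2) (nat_lit 2))
    (@En.i (nat_lit 11644) (nat_lit 3) (nat_lit 6))
    (@En.n l4549 (nat_lit 9307) (nat_lit 1) (nat_lit 14))
    (@En.n l1577 (nat_lit 11647) (nat_lit 5) (nat_lit 7))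
    (@En.i (nat_lit 6373) (nat_lit 6) (nat_lit 7))
    (@En.n l20474 (nat_lit 9042) (nat_lit 4) (nat_lit 9))
    (@En.i (nat_lit 11646) (nat_lit 8) (nat_lit 3))
    (@En.n l1998 (nat_lit 11342) (nat_lit 10) (nat_lit 10))
    (@En.n l8434 (nat_lit 9932) (nat_lit 10) (nat_lit 4))
    (@En.n l3039 (nat_lit 12335) (nat_lit 12) (nat_lit 13))
    (@En.n l14629 (nat_lit 11359) (nat_lit 13) (nat_lit 9))
    (@En.n l601 (nat_lit 6498) (nat_lit 14) (nat_lit 9))
    (@En.i (nat_lit 7570) (nat_lit 12) (nat_lit 12))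
    (@En.n l3 (nat_lit 11645) (nat_lit 15) (nat_lit 2))))
  (@Cl.mk (nat_lit 0x2000b00090009000d000900050003000900070007000e00070002000e0007) (nat_lit 0x614840040040030) (nat_lit 16) Lb.e (@T16.mk En
    (@En.n l17651 (nat_lit 11306) (nat_lit 14) (nat_lit 7))
    (@En.n l14299 (nat_lit 11701) (nat_lit 1) (nat_lit 14))
    (@En.n l17 (nat_lit 11646) (nat_lit 2) (nat_lit 2))
    (@En.n l17652 (nat_lit 10788) (nat_lit 3) (nat_lit 7))
    (@En.n l16646 (nat_lit 9309) (nat_lit 1) (nat_lit 14))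
    (@En.n l17653 (nat_lit 11648) (nat_lit 5) (nat_lit 7))
    (@En.i (nat_lit 6376) (nat_lit 6) (nat_lit 7))
    (@En.n l17654 (nat_lit 11427) (nat_lit 4) (nat_lit 9))
    (@En.n l50 (nat_lit 11645) (nat_lit 8) (nat_lit 3))
    (@En.n l2492 (nat_lit 12554) (nat_lit 0) (nat_lit 5))
    (@En.n l17654 (nat_lit 11311) (nat_lit 11) (nat_lit 9))
    (@En.n l3039 (nat_lit 12340) (nat_lit 12) (nat_lit 13))
    (@En.n l14629 (nat_lit 11362) (nat_lit 13) (nat_lit 9))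
    (@En.n l601 (nat_lit 6500) (nat_lit 14) (nat_lit 9))
    (@En.n l17651 (nat_lit 9858) (nat_lit 12) (nat_lit 11))
    (@En.n l3 (nat_lit 11646) (nat_lit 15) (nat_lit 2))))
  (@Cl.mk (nat_lit 0x2000b000e00090002000d0005000b0003000a0007000e00050002000e0006) (nat_lit 0x8220906070500a0) (nat_lit 16) Lb.e (@T16.mk En
    (@En.i (nat_lit 11650) (nat_lit 14) (nat_lit 6))
    (@En.n l13261 (nat_lit 7662) (nat_lit 1) (nat_lit 14))
    (@En.n l17 (nat_lit 11647) (nat_lit 2) (nat_lit 2))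
    (@En.n l13262 (nat_lit 10803) (nat_lit 3) (nat_lit 5))
    (@En.n l13263 (nat_lit 12248) (nat_lit 1) (nat_lit 14))
    (@En.i (nat_lit 6371) (nat_lit 5) (nat_lit 7))
    (@En.n l8840 (nat_lit 8080) (nat_lit 11) (nat_lit 10))
    (@En.n l13264 (nat_lit 11648) (nat_lit 7) (nat_lit 3))
    (@En.n l2004 (nat_lit 12551) (nat_lit 9) (nat_lit 11))
    (@En.n l8842 (nat_lit 11649) (nat_lit 14) (nat_lit 5))
    (@En.n l7128 (nat_lit 12339) (nat_lit 11) (nat_lit 13))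
    (@En.n l11 (nat_lit 11647) (nat_lit 11) (nat_lit 2))
    (@En.n l55 (nat_lit 11645) (nat_lit 13) (nat_lit 9))
    (@En.i (nat_lit 1898) (nat_lit 4) (nat_lit 14))
    (@En.n l1016 (nat_lit 5076) (nat_lit 12) (nat_lit 11))
    (@En.n l3 (nat_lit 11647) (nat_lit 15) (nat_lit 2))))
noncomputable def a728 : T16 Cl := @T16.mk Cl
  (@Cl.mk (nat_lit 0x2000a000e00090002000d000a00060003000a0007000e00060002000e0006) (nat_lit 0x6320850040300a0) (nat_lit 16) Lb.e (@T16.mk En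
    (@En.n l3108 (nat_lit 11651) (nat_lit 14) (nat_lit 6))
    (@En.n l7148 (nat_lit 7666) (nat_lit 1) (nat_lit 14))
    (@En.n l28 (nat_lit 11648) (nat_lit 2) (nat_lit 2))
    (@En.n l11 (nat_lit 10801) (nat_lit 3) (nat_lit 6))
    (@En.n l7149 (nat_lit 12249) (nat_lit 1) (nat_lit 14))
    (@En.n l7150 (nat_lit 6375) (nat_lit 5) (nat_lit 7))
    (@En.n l4315 (nat_lit 11505) (nat_lit 11) (nat_lit 10))
    (@En.n l7151 (nat_lit 11647) (nat_lit 7) (nat_lit 3))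
    (@En.i (nat_lit 15) (nat_lit 0) (nat_lit 6))
    (@En.n l4315 (nat_lit 11318) (nat_lit 14) (nat_lit 10))
    (@En.n l7152 (nat_lit 12341) (nat_lit 11) (nat_lit 13))
    (@En.n l3 (nat_lit 11648) (nat_lit 11) (nat_lit 2))
    (@En.n l7153 (nat_lit 11646) (nat_lit 13) (nat_lit 9))
    (@En.n l7150 (nat_lit 1891) (nat_lit 1) (nat_lit 14))
    (@En.n l7154 (nat_lit 9863) (nat_lit 12) (nat_lit 10))
    (@En.n l50 (nat_lit 11648) (nat_lit 15) (nat_lit 2))))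
  (@Cl.mk (nat_lit 0x20005000b0006000a0006000e00050002000e00060002000b000a000e000a) (nat_lit 0x50302003008735) (nat_lit 16) Lb.e (@T16.mk En
    (@En.n l3107 (nat_lit 9932) (nat_lit 12) (nat_lit 10))
    (@En.n l2394 (nat_lit 11647) (nat_lit 13) (nat_lit 14))
    (@En.i (nat_lit 11648) (nat_lit 14) (nat_lit 10))
    (@En.i (nat_lit 5060) (nat_lit 3) (nat_lit 11))
    (@En.n l50 (nat_lit 11649) (nat_lit 4) (nat_lit 2))
    (@En.i (nat_lit 11652) (nat_lit 5) (nat_lit 6))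
    (@En.n l601 (nat_lit 7657) (nat_lit 7) (nat_lit 14))
    (@En.n l28 (nat_lit 11649) (nat_lit 7) (nat_lit 2))
    (@En.n l11 (nat_lit 7660) (nat_lit 8) (nat_lit 5))
    (@En.n l9174 (nat_lit 12250) (nat_lit 10) (nat_lit 14))
    (@En.n l1393 (nat_lit 6369) (nat_lit 5) (nat_lit 6))
    (@En.i (nat_lit 8079) (nat_lit 12) (nat_lit 10))
    (@En.i (nat_lit 12555) (nat_lit 13) (nat_lit 6))
    (@En.n l9175 (nat_lit 12295) (nat_lit 9) (nat_lit 11))
    (@En.n l170 (nat_lit 5622) (nat_lit 13) (nat_lit 5))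
    (@En.n l3 (nat_lit 11649) (nat_lit 15) (nat_lit 2))))
  (@Cl.mk (nat_lit 0x200060006000b000e00080002000d0005000a0003000a000a0008000e0006) (nat_lit 0x5240706028360) (nat_lit 16) Lb.e (@T16.mk En
    (@En.n l8838 (nat_lit 11653) (nat_lit 6) (nat_lit 6))
    (@En.n l8839 (nat_lit 12251) (nat_lit 1) (nat_lit 14))
    (@En.i (nat_lit 12042) (nat_lit 2) (nat_lit 8))
    (@En.n l152 (nat_lit 11647) (nat_lit 6) (nat_lit 10))
    (@En.n l8840 (nat_lit 7047) (nat_lit 11) (nat_lit 10))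
    (@En.n l8841 (nat_lit 11651) (nat_lit 5) (nat_lit 3))
    (@En.n l2004 (nat_lit 12543) (nat_lit 0) (nat_lit 10))
    (@En.n l8842 (nat_lit 11652) (nat_lit 14) (nat_lit 5))
    (@En.n l8843 (nat_lit 12314) (nat_lit 9) (nat_lit 13))
    (@En.n l11 (nat_lit 11650) (nat_lit 9) (nat_lit 2))
    (@En.n l55 (nat_lit 11305) (nat_lit 11) (nat_lit 8))
    (@En.i (nat_lit 2908) (nat_lit 12) (nat_lit 14))
    (@En.n l8839 (nat_lit 7581) (nat_lit 13) (nat_lit 11))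
    (@En.n l3556 (nat_lit 11655) (nat_lit 14) (nat_lit 6))
    (@En.n l8844 (nat_lit 11916) (nat_lit 4) (nat_lit 6))
    (@En.n l17 (nat_lit 11650) (nat_lit 15) (nat_lit 2))))
  (@Cl.mk (nat_lit 0x200060006000a000e00080002000d000900060003000a000a0008000e0007) (nat_lit 0x5b20850025420) (nat_lit 16) Lb.e (@T16.mk En
    (@En.n l8919 (nat_lit 10802) (nat_lit 6) (nat_lit 7))
    (@En.n l8920 (nat_lit 12253) (nat_lit 1) (nat_lit 14))
    (@En.n l932 (nat_lit 12049) (nat_lit 2) (nat_lit 8))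
    (@En.n l8921 (nat_lit 11648) (nat_lit 6) (nat_lit 10))
    (@En.i (nat_lit 11506) (nat_lit 11) (nat_lit 10))
    (@En.n l8922 (nat_lit 11650) (nat_lit 5) (nat_lit 3))
    (@En.n l932 (nat_lit 12555) (nat_lit 6) (nat_lit 6))
    (@En.i (nat_lit 11321) (nat_lit 14) (nat_lit 9))
    (@En.n l8923 (nat_lit 12313) (nat_lit 9) (nat_lit 13))
    (@En.n l67 (nat_lit 11651) (nat_lit 9) (nat_lit 2))
    (@En.n l8924 (nat_lit 11306) (nat_lit 11) (nat_lit 8))
    (@En.n l8925 (nat_lit 1896) (nat_lit 12) (nat_lit 14))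
    (@En.n l932 (nat_lit 9864) (nat_lit 13) (nat_lit 10))
    (@En.n l8926 (nat_lit 11657) (nat_lit 14) (nat_lit 6))
    (@En.n l8927 (nat_lit 11913) (nat_lit 4) (nat_lit 6))
    (@En.n l7 (nat_lit 11651) (nat_lit 15) (nat_lit 2))))
  (@Cl.mk (nat_lit 0x20005000a0006000a000a0007000e0006000200060006000b000a000e0009) (nat_lit 0x60140300005635) (nat_lit 16) Lb.e (@T16.mk En
    (@En.n l3107 (nat_lit 9935) (nat_lit 10) (nat_lit 9))
    (@En.n l2394 (nat_lit 11650) (nat_lit 11) (nat_lit 14))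
    (@En.n l3108 (nat_lit 11651) (nat_lit 12) (nat_lit 10))
    (@En.n l3109 (nat_lit 10093) (nat_lit 3) (nat_lit 11))
    (@En.n l3110 (nat_lit 11656) (nat_lit 4) (nat_lit 6))
    (@En.n l3111 (nat_lit 11937) (nat_lit 5) (nat_lit 6))
    (@En.n l28 (nat_lit 11652) (nat_lit 6) (nat_lit 2))
    (@En.n l394 (nat_lit 11654) (nat_lit 7) (nat_lit 6))
    (@En.n l3109 (nat_lit 12255) (nat_lit 9) (nat_lit 14))
    (@En.n l3112 (nat_lit 12045) (nat_lit 2) (nat_lit 7))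
    (@En.n l644 (nat_lit 11649) (nat_lit 11) (nat_lit 10))
    (@En.i (nat_lit 7048) (nat_lit 12) (nat_lit 10))
    (@En.n l3113 (nat_lit 14) (nat_lit 5) (nat_lit 6))
    (@En.n l3112 (nat_lit 12291) (nat_lit 14) (nat_lit 10))
    (@En.n l170 (nat_lit 12375) (nat_lit 7) (nat_lit 5))
    (@En.n l3 (nat_lit 11652) (nat_lit 15) (nat_lit 2))))
  (@Cl.mk (nat_lit 0x2000c0005000a000a0004000b000b00090006000600050005000b000e0007) (nat_lit 0x404703730000480) (nat_lit 16) Lb.e (@T16.mk En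
    (@En.n l18292 (nat_lit 11307) (nat_lit 2) (nat_lit 7))
    (@En.n l20990 (nat_lit 2907) (nat_lit 4) (nat_lit 14))
    (@En.n l17402 (nat_lit 7579) (nat_lit 2) (nat_lit 11))
    (@En.n l6088 (nat_lit 12545) (nat_lit 11) (nat_lit 5))
    (@En.i (nat_lit 11897) (nat_lit 4) (nat_lit 5))
    (@En.n l20991 (nat_lit 11340) (nat_lit 10) (nat_lit 6))
    (@En.n l97 (nat_lit 8707) (nat_lit 6) (nat_lit 6))
    (@En.n l20992 (nat_lit 11852) (nat_lit 8) (nat_lit 9))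
    (@En.n l20993 (nat_lit 10803) (nat_lit 5) (nat_lit 11))
    (@En.n l20990 (nat_lit 7154) (nat_lit 10) (nat_lit 11))
    (@En.n l20994 (nat_lit 10792) (nat_lit 10) (nat_lit 4))
    (@En.n l20995 (nat_lit 11650) (nat_lit 6) (nat_lit 10))
    (@En.n l97 (nat_lit 5858) (nat_lit 13) (nat_lit 10))
    (@En.n l6086 (nat_lit 11654) (nat_lit 14) (nat_lit 5))
    (@En.n l18292 (nat_lit 11999) (nat_lit 3) (nat_lit 12))
    (@En.n l3 (nat_lit 11653) (nat_lit 15) (nat_lit 2))))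
  (@Cl.mk (nat_lit 0x20005000a000a0007000b000b00080006000600050005000b0009000e0008) (nat_lit 0x37037300004393) (nat_lit 16) Lb.e (@T16.mk En
    (@En.n l9074 (nat_lit 11350) (nat_lit 1) (nat_lit 8))
    (@En.n l9075 (nat_lit 11653) (nat_lit 1) (nat_lit 14))
    (@En.n l9076 (nat_lit 10802) (nat_lit 2) (nat_lit 9))
    (@En.n l836 (nat_lit 7583) (nat_lit 3) (nat_lit 11))
    (@En.n l9077 (nat_lit 12546) (nat_lit 4) (nat_lit 5))
    (@En.n l237 (nat_lit 11900) (nat_lit 5) (nat_lit 5))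
    (@En.n l575 (nat_lit 12550) (nat_lit 6) (nat_lit 6))
    (@En.i (nat_lit 8705) (nat_lit 7) (nat_lit 6))
    (@En.n l2727 (nat_lit 9249) (nat_lit 9) (nat_lit 8))
    (@En.n l4380 (nat_lit 7660) (nat_lit 10) (nat_lit 11))
    (@En.i (nat_lit 7153) (nat_lit 11) (nat_lit 11))
    (@En.n l9076 (nat_lit 7997) (nat_lit 12) (nat_lit 7))
    (@En.n l577 (nat_lit 11652) (nat_lit 13) (nat_lit 10))
    (@En.n l9078 (nat_lit 7654) (nat_lit 14) (nat_lit 10))
    (@En.i (nat_lit 5621) (nat_lit 13) (nat_lit 5))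
    (@En.n l3 (nat_lit 11654) (nat_lit 15) (nat_lit 2))))
  (@Cl.mk (nat_lit 0x20006000b000e00070002000d000500090003000e000a00020009000e0007) (nat_lit 0x4a006050b30430) (nat_lit 16) Lb.e (@T16.mk En
    (@En.n l3029 (nat_lit 12545) (nat_lit 13) (nat_lit 7))
    (@En.n l3030 (nat_lit 11063) (nat_lit 1) (nat_lit 14))
    (@En.n l1081 (nat_lit 7452) (nat_lit 2) (nat_lit 9))
    (@En.n l3 (nat_lit 11655) (nat_lit 3) (nat_lit 2))
    (@En.n l1082 (nat_lit 11650) (nat_lit 4) (nat_lit 10))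
    (@En.i (nat_lit 1914) (nat_lit 1) (nat_lit 14))
    (@En.n l3031 (nat_lit 11657) (nat_lit 6) (nat_lit 3))
    (@En.n l3032 (nat_lit 11360) (nat_lit 3) (nat_lit 9))
    (@En.n l3033 (nat_lit 11656) (nat_lit 14) (nat_lit 5))
    (@En.n l3034 (nat_lit 12310) (nat_lit 10) (nat_lit 13))
    (@En.n l28 (nat_lit 11655) (nat_lit 10) (nat_lit 2))
    (@En.n l3035 (nat_lit 12541) (nat_lit 12) (nat_lit 7))
    (@En.i (nat_lit 2910) (nat_lit 13) (nat_lit 14))
    (@En.n l3036 (nat_lit 12834) (nat_lit 10) (nat_lit 11))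
    (@En.n l3037 (nat_lit 12323) (nat_lit 3) (nat_lit 6))
    (@En.n l725 (nat_lit 11655) (nat_lit 15) (nat_lit 2))))
  (@Cl.mk (nat_lit 0x2000500090006000e000a00020008000e000700020006000b000a000e0008) (nat_lit 0x60b204200045b3) (nat_lit 16) Lb.e (@T16.mk En
    (@En.n l924 (nat_lit 11335) (nat_lit 11) (nat_lit 8))
    (@En.n l925 (nat_lit 11655) (nat_lit 12) (nat_lit 14))
    (@En.n l262 (nat_lit 11657) (nat_lit 13) (nat_lit 10))
    (@En.n l926 (nat_lit 10100) (nat_lit 3) (nat_lit 11))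
    (@En.n l262 (nat_lit 12324) (nat_lit 4) (nat_lit 6))
    (@En.n l7 (nat_lit 11656) (nat_lit 5) (nat_lit 2))
    (@En.n l927 (nat_lit 12546) (nat_lit 6) (nat_lit 7))
    (@En.n l928 (nat_lit 12558) (nat_lit 8) (nat_lit 14))
    (@En.n l929 (nat_lit 10047) (nat_lit 2) (nat_lit 8))
    (@En.n l17 (nat_lit 11656) (nat_lit 9) (nat_lit 2))
    (@En.n l930 (nat_lit 11652) (nat_lit 11) (nat_lit 10))
    (@En.n l931 (nat_lit 1703) (nat_lit 12) (nat_lit 14))
    (@En.n l932 (nat_lit 12527) (nat_lit 13) (nat_lit 6))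
    (@En.i (nat_lit 12309) (nat_lit 3) (nat_lit 9))
    (@En.n l268 (nat_lit 12378) (nat_lit 8) (nat_lit 5))
    (@En.n l67 (nat_lit 11656) (nat_lit 15) (nat_lit 2))))
  (@Cl.mk (nat_lit 0x20006000a000e00070002000d000800060003000e000a00020009000e0008) (nat_lit 0x49007600230551) (nat_lit 16) Lb.e (@T16.mk En
    (@En.n l3049 (nat_lit 7975) (nat_lit 13) (nat_lit 8))
    (@En.n l3050 (nat_lit 11059) (nat_lit 1) (nat_lit 14))
    (@En.n l3051 (nat_lit 12164) (nat_lit 2) (nat_lit 9))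
    (@En.n l7 (nat_lit 11657) (nat_lit 3) (nat_lit 2))
    (@En.n l3052 (nat_lit 11651) (nat_lit 4) (nat_lit 10))
    (@En.n l3053 (nat_lit 2085) (nat_lit 1) (nat_lit 14))
    (@En.n l3054 (nat_lit 11655) (nat_lit 6) (nat_lit 3))
    (@En.n l3055 (nat_lit 12529) (nat_lit 7) (nat_lit 6))
    (@En.n l3056 (nat_lit 11333) (nat_lit 14) (nat_lit 8))
    (@En.n l1767 (nat_lit 12304) (nat_lit 10) (nat_lit 13))
    (@En.n l17 (nat_lit 11657) (nat_lit 10) (nat_lit 2))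
    (@En.n l3057 (nat_lit 12540) (nat_lit 12) (nat_lit 7))
    (@En.n l1769 (nat_lit 2909) (nat_lit 13) (nat_lit 14))
    (@En.n l3050 (nat_lit 4852) (nat_lit 14) (nat_lit 10))
    (@En.i (nat_lit 12325) (nat_lit 3) (nat_lit 6))
    (@En.n l1770 (nat_lit 11657) (nat_lit 15) (nat_lit 2))))
  (@Cl.mk (nat_lit 0x2000c000a000900090004000a00080006000c0007000700060004000e0008) (nat_lit 0x967503403000023) (nat_lit 16) Lb.e (@T16.mk En
    (@En.n l39282 (nat_lit 11429) (nat_lit 14) (nat_lit 8))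
    (@En.n l39283 (nat_lit 6010) (nat_lit 1) (nat_lit 14))
    (@En.n l1003 (nat_lit 8045) (nat_lit 2) (nat_lit 4))
    (@En.n l39284 (nat_lit 11384) (nat_lit 3) (nat_lit 6))
    (@En.n l16211 (nat_lit 8042) (nat_lit 9) (nat_lit 7))
    (@En.n l29773 (nat_lit 11182) (nat_lit 5) (nat_lit 7))
    (@En.n l39285 (nat_lit 10915) (nat_lit 7) (nat_lit 12))
    (@En.i (nat_lit 10334) (nat_lit 7) (nat_lit 6))
    (@En.n l39286 (nat_lit 11924) (nat_lit 9) (nat_lit 8))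
    (@En.n l16214 (nat_lit 5705) (nat_lit 10) (nat_lit 10))
    (@En.n l31245 (nat_lit 11317) (nat_lit 10) (nat_lit 4))
    (@En.n l11401 (nat_lit 11667) (nat_lit 7) (nat_lit 9))
    (@En.n l39287 (nat_lit 11587) (nat_lit 13) (nat_lit 9))
    (@En.n l16217 (nat_lit 7732) (nat_lit 14) (nat_lit 10))
    (@En.n l39288 (nat_lit 11736) (nat_lit 3) (nat_lit 12))
    (@En.n l28 (nat_lit 11658) (nat_lit 15) (nat_lit 2))))
  (@Cl.mk (nat_lit 0x20005000a000900090008000d00080006000300070007000b0008000e0008) (nat_lit 0x23637500007652) (nat_lit 16) Lb.e (@T16.mk En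
    (@En.n l37018 (nat_lit 11429) (nat_lit 10) (nat_lit 8))
    (@En.n l36261 (nat_lit 8044) (nat_lit 1) (nat_lit 14))
    (@En.n l37019 (nat_lit 8103) (nat_lit 2) (nat_lit 8))
    (@En.n l3125 (nat_lit 11730) (nat_lit 3) (nat_lit 11))
    (@En.n l37020 (nat_lit 11431) (nat_lit 4) (nat_lit 7))
    (@En.n l37021 (nat_lit 10778) (nat_lit 5) (nat_lit 7))
    (@En.n l23276 (nat_lit 12121) (nat_lit 6) (nat_lit 3))
    (@En.n l37022 (nat_lit 12373) (nat_lit 7) (nat_lit 6))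
    (@En.n l37023 (nat_lit 10964) (nat_lit 9) (nat_lit 8))
    (@En.n l645 (nat_lit 11698) (nat_lit 10) (nat_lit 13))
    (@En.n l3866 (nat_lit 12033) (nat_lit 11) (nat_lit 8))
    (@En.n l37024 (nat_lit 8042) (nat_lit 12) (nat_lit 9))
    (@En.i (nat_lit 11927) (nat_lit 13) (nat_lit 9))
    (@En.n l37022 (nat_lit 5271) (nat_lit 14) (nat_lit 10))
    (@En.i (nat_lit 11321) (nat_lit 13) (nat_lit 5))
    (@En.n l936 (nat_lit 11659) (nat_lit 15) (nat_lit 2))))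
  (@Cl.mk (nat_lit 0x20008000500090009000d000a000800030008000700070006000b000e0008) (nat_lit 0x402251106000482) (nat_lit 16) Lb.e (@T16.mk En
    (@En.n l68 (nat_lit 11429) (nat_lit 2) (nat_lit 8))
    (@En.n l36769 (nat_lit 1687) (nat_lit 4) (nat_lit 14))
    (@En.n l36770 (nat_lit 11697) (nat_lit 2) (nat_lit 11))
    (@En.n l36771 (nat_lit 11138) (nat_lit 3) (nat_lit 6))
    (@En.n l36772 (nat_lit 11667) (nat_lit 4) (nat_lit 7))
    (@En.n l36773 (nat_lit 11916) (nat_lit 5) (nat_lit 7))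
    (@En.n l36774 (nat_lit 7703) (nat_lit 6) (nat_lit 8))
    (@En.n l11470 (nat_lit 11668) (nat_lit 7) (nat_lit 3))
    (@En.n l6784 (nat_lit 8056) (nat_lit 0) (nat_lit 8))
    (@En.n l36775 (nat_lit 5854) (nat_lit 10) (nat_lit 10))
    (@En.n l16865 (nat_lit 11678) (nat_lit 11) (nat_lit 13))
    (@En.n l644 (nat_lit 11430) (nat_lit 7) (nat_lit 9))
    (@En.n l6784 (nat_lit 7971) (nat_lit 13) (nat_lit 9))
    (@En.n l36776 (nat_lit 11663) (nat_lit 14) (nat_lit 5))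
    (@En.n l36777 (nat_lit 10001) (nat_lit 6) (nat_lit 8))
    (@En.n l67 (nat_lit 11660) (nat_lit 15) (nat_lit 2))))
  (@Cl.mk (nat_lit 0x400080008000c0009000700070004000b000800080007000c000500090009) (nat_lit 0x63a600085101027) (nat_lit 16) Lb.e (@T16.mk En
    (@En.n l619 (nat_lit 12121) (nat_lit 7) (nat_lit 9))
    (@En.i (nat_lit 11390) (nat_lit 1) (nat_lit 9))
    (@En.n l38377 (nat_lit 6438) (nat_lit 9) (nat_lit 5))
    (@En.n l38378 (nat_lit 40) (nat_lit 0) (nat_lit 12))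
    (@En.n l34150 (nat_lit 12021) (nat_lit 9) (nat_lit 7))
    (@En.n l38379 (nat_lit 8045) (nat_lit 8) (nat_lit 8))
    (@En.n l38380 (nat_lit 11934) (nat_lit 6) (nat_lit 8))
    (@En.n l19309 (nat_lit 8009) (nat_lit 8) (nat_lit 11))
    (@En.n l38381 (nat_lit 11444) (nat_lit 8) (nat_lit 4))
    (@En.n l38382 (nat_lit 11663) (nat_lit 9) (nat_lit 7))
    (@En.n l8776 (nat_lit 11442) (nat_lit 1) (nat_lit 7))
    (@En.n l17 (nat_lit 7736) (nat_lit 12) (nat_lit 9))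
    (@En.i (nat_lit 11727) (nat_lit 7) (nat_lit 12))
    (@En.n l644 (nat_lit 11433) (nat_lit 8) (nat_lit 8))
    (@En.n l8776 (nat_lit 12159) (nat_lit 11) (nat_lit 8))
    (@En.n l38383 (nat_lit 11592) (nat_lit 15) (nat_lit 4))))
  (@Cl.mk (nat_lit 0x20005000e00090002000d000b00080003000c00070005000b0004000e0008) (nat_lit 0x97053608003086) (nat_lit 16) Lb.e (@T16.mk En
    (@En.i (nat_lit 8045) (nat_lit 4) (nat_lit 8))
    (@En.i (nat_lit 11667) (nat_lit 1) (nat_lit 14))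
    (@En.n l6478 (nat_lit 6439) (nat_lit 2) (nat_lit 4))
    (@En.n l1162 (nat_lit 12101) (nat_lit 3) (nat_lit 11))
    (@En.i (nat_lit 10339) (nat_lit 4) (nat_lit 5))
    (@En.i (nat_lit 12069) (nat_lit 5) (nat_lit 7))
    (@En.n l564 (nat_lit 11686) (nat_lit 7) (nat_lit 12))
    (@En.n l7 (nat_lit 11669) (nat_lit 7) (nat_lit 3))
    (@En.n l1162 (nat_lit 12520) (nat_lit 0) (nat_lit 8))
    (@En.n l644 (nat_lit 7733) (nat_lit 10) (nat_lit 11))
    (@En.i (nat_lit 12231) (nat_lit 11) (nat_lit 13))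
    (@En.n l11 (nat_lit 11662) (nat_lit 11) (nat_lit 2))
    (@En.i (nat_lit 11663) (nat_lit 13) (nat_lit 9))
    (@En.n l1501 (nat_lit 6455) (nat_lit 1) (nat_lit 14))
    (@En.i (nat_lit 10799) (nat_lit 13) (nat_lit 5))
    (@En.n l3 (nat_lit 11662) (nat_lit 15) (nat_lit 2))))
  (@Cl.mk (nat_lit 0x2000500090009000d000a00070003000b000700070006000b0005000e0009) (nat_lit 0x63470070004093) (nat_lit 16) Lb.e (@T16.mk En
    (@En.n l23442 (nat_lit 11661) (nat_lit 1) (nat_lit 9))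
    (@En.n l23443 (nat_lit 11660) (nat_lit 1) (nat_lit 14))
    (@En.n l15905 (nat_lit 6440) (nat_lit 2) (nat_lit 5))
    (@En.n l5117 (nat_lit 11699) (nat_lit 3) (nat_lit 11))
    (@En.i (nat_lit 11139) (nat_lit 4) (nat_lit 6))
    (@En.n l575 (nat_lit 11662) (nat_lit 5) (nat_lit 7))
    (@En.n l10420 (nat_lit 11937) (nat_lit 6) (nat_lit 7))
    (@En.n l17642 (nat_lit 8017) (nat_lit 8) (nat_lit 11))
    (@En.n l10667 (nat_lit 11664) (nat_lit 8) (nat_lit 3))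
    (@En.n l23444 (nat_lit 8057) (nat_lit 0) (nat_lit 7))
    (@En.n l644 (nat_lit 7175) (nat_lit 11) (nat_lit 10))
    (@En.n l7475 (nat_lit 11685) (nat_lit 12) (nat_lit 13))
    (@En.n l23445 (nat_lit 11665) (nat_lit 13) (nat_lit 9))
    (@En.n l23444 (nat_lit 12161) (nat_lit 14) (nat_lit 9))
    (@En.i (nat_lit 10777) (nat_lit 13) (nat_lit 5))
    (@En.n l3 (nat_lit 11663) (nat_lit 15) (nat_lit 2))))
noncomputable def a729 : T16 Cl := @T16.mk Cl
  (@Cl.mk (nat_lit 0x2000500090009000d0006000b0003000b000700070005000b0005000e000a) (nat_lit 0x62503070004078) (nat_lit 16) Lb.e (@T16.mk En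
    (@En.i (nat_lit 11404) (nat_lit 1) (nat_lit 10))
    (@En.n l19523 (nat_lit 11668) (nat_lit 1) (nat_lit 14))
    (@En.n l31576 (nat_lit 6442) (nat_lit 2) (nat_lit 5))
    (@En.n l7 (nat_lit 11698) (nat_lit 3) (nat_lit 11))
    (@En.n l3224 (nat_lit 8169) (nat_lit 4) (nat_lit 5))
    (@En.n l6771 (nat_lit 11669) (nat_lit 5) (nat_lit 7))
    (@En.n l5 (nat_lit 11941) (nat_lit 6) (nat_lit 7))
    (@En.n l31577 (nat_lit 5296) (nat_lit 8) (nat_lit 11))
    (@En.n l10436 (nat_lit 11663) (nat_lit 8) (nat_lit 3))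
    (@En.n l31578 (nat_lit 3702) (nat_lit 10) (nat_lit 11))
    (@En.n l117 (nat_lit 10868) (nat_lit 11) (nat_lit 6))
    (@En.n l391 (nat_lit 11680) (nat_lit 12) (nat_lit 13))
    (@En.n l3643 (nat_lit 11670) (nat_lit 13) (nat_lit 9))
    (@En.n l7433 (nat_lit 11979) (nat_lit 14) (nat_lit 9))
    (@En.n l391 (nat_lit 10779) (nat_lit 13) (nat_lit 5))
    (@En.n l3 (nat_lit 11664) (nat_lit 15) (nat_lit 2))))
  (@Cl.mk (nat_lit 0x200050009000d000900060003000a000e000700020007000b0006000e000a) (nat_lit 0x234005b00040a6) (nat_lit 16) Lb.e (@T16.mk En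
    (@En.n l10625 (nat_lit 11433) (nat_lit 11) (nat_lit 10))
    (@En.n l3819 (nat_lit 11430) (nat_lit 12) (nat_lit 14))
    (@En.n l152 (nat_lit 6908) (nat_lit 13) (nat_lit 6))
    (@En.n l11516 (nat_lit 11692) (nat_lit 3) (nat_lit 11))
    (@En.n l11517 (nat_lit 11257) (nat_lit 4) (nat_lit 7))
    (@En.n l11 (nat_lit 11665) (nat_lit 5) (nat_lit 2))
    (@En.n l11518 (nat_lit 11663) (nat_lit 6) (nat_lit 7))
    (@En.n l5975 (nat_lit 6626) (nat_lit 8) (nat_lit 14))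
    (@En.n l11519 (nat_lit 12134) (nat_lit 9) (nat_lit 10))
    (@En.n l763 (nat_lit 11670) (nat_lit 9) (nat_lit 3))
    (@En.i (nat_lit 8050) (nat_lit 0) (nat_lit 6))
    (@En.n l11520 (nat_lit 7174) (nat_lit 12) (nat_lit 9))
    (@En.n l10826 (nat_lit 4008) (nat_lit 13) (nat_lit 13))
    (@En.i (nat_lit 12157) (nat_lit 14) (nat_lit 9))
    (@En.n l11521 (nat_lit 10784) (nat_lit 8) (nat_lit 5))
    (@En.n l50 (nat_lit 11665) (nat_lit 15) (nat_lit 2))))
  (@Cl.mk (nat_lit 0x200070005000e00090002000d0008000c0003000900070004000b000e0008) (nat_lit 0x6307630500351) (nat_lit 16) Lb.e (@T16.mk En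
    (@En.n l10585 (nat_lit 8043) (nat_lit 5) (nat_lit 8))
    (@En.n l10586 (nat_lit 1685) (nat_lit 7) (nat_lit 14))
    (@En.n l10587 (nat_lit 12099) (nat_lit 2) (nat_lit 11))
    (@En.i (nat_lit 8029) (nat_lit 3) (nat_lit 4))
    (@En.n l10588 (nat_lit 11923) (nat_lit 4) (nat_lit 7))
    (@En.n l10589 (nat_lit 11665) (nat_lit 11) (nat_lit 9))
    (@En.i (nat_lit 11667) (nat_lit 6) (nat_lit 3))
    (@En.n l10588 (nat_lit 4126) (nat_lit 8) (nat_lit 12))
    (@En.n l10589 (nat_lit 11672) (nat_lit 14) (nat_lit 8))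
    (@En.n l3766 (nat_lit 9333) (nat_lit 10) (nat_lit 13))
    (@En.n l11 (nat_lit 11666) (nat_lit 10) (nat_lit 2))
    (@En.n l10590 (nat_lit 11668) (nat_lit 12) (nat_lit 9))
    (@En.n l10591 (nat_lit 6494) (nat_lit 13) (nat_lit 14))
    (@En.n l17 (nat_lit 11669) (nat_lit 14) (nat_lit 5))
    (@En.i (nat_lit 10003) (nat_lit 3) (nat_lit 7))
    (@En.n l3 (nat_lit 11666) (nat_lit 15) (nat_lit 2))))
  (@Cl.mk (nat_lit 0x200070005000e00090002000d000b00090003000900070005000b000e0007) (nat_lit 0x9306640500370) (nat_lit 16) Lb.e (@T16.mk En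
    (@En.n l5646 (nat_lit 11658) (nat_lit 5) (nat_lit 7))
    (@En.n l6482 (nat_lit 2026) (nat_lit 7) (nat_lit 14))
    (@En.n l24031 (nat_lit 12100) (nat_lit 2) (nat_lit 11))
    (@En.i (nat_lit 10340) (nat_lit 3) (nat_lit 5))
    (@En.n l24032 (nat_lit 11917) (nat_lit 4) (nat_lit 7))
    (@En.n l3858 (nat_lit 7709) (nat_lit 11) (nat_lit 9))
    (@En.n l7 (nat_lit 11666) (nat_lit 6) (nat_lit 3))
    (@En.n l16752 (nat_lit 12519) (nat_lit 0) (nat_lit 9))
    (@En.n l644 (nat_lit 7734) (nat_lit 9) (nat_lit 11))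
    (@En.n l3141 (nat_lit 12227) (nat_lit 10) (nat_lit 13))
    (@En.n l11 (nat_lit 11667) (nat_lit 10) (nat_lit 2))
    (@En.n l23443 (nat_lit 11660) (nat_lit 12) (nat_lit 9))
    (@En.n l16749 (nat_lit 6493) (nat_lit 13) (nat_lit 14))
    (@En.n l17 (nat_lit 11662) (nat_lit 14) (nat_lit 5))
    (@En.i (nat_lit 10002) (nat_lit 3) (nat_lit 7))
    (@En.n l3 (nat_lit 11667) (nat_lit 15) (nat_lit 2))))
  (@Cl.mk (nat_lit 0x20008000500090009000d0007000b00030008000700070005000b000e0009) (nat_lit 0x202360206000467) (nat_lit 16) Lb.e (@T16.mk En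
    (@En.n l396 (nat_lit 11405) (nat_lit 2) (nat_lit 9))
    (@En.n l23255 (nat_lit 1684) (nat_lit 4) (nat_lit 14))
    (@En.n l16743 (nat_lit 11687) (nat_lit 2) (nat_lit 11))
    (@En.n l23256 (nat_lit 8168) (nat_lit 3) (nat_lit 5))
    (@En.n l23257 (nat_lit 11666) (nat_lit 4) (nat_lit 7))
    (@En.n l10033 (nat_lit 11921) (nat_lit 5) (nat_lit 7))
    (@En.n l2947 (nat_lit 11433) (nat_lit 6) (nat_lit 8))
    (@En.n l23258 (nat_lit 11660) (nat_lit 7) (nat_lit 3))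
    (@En.n l11115 (nat_lit 3958) (nat_lit 0) (nat_lit 11))
    (@En.n l23259 (nat_lit 10862) (nat_lit 10) (nat_lit 7))
    (@En.n l3548 (nat_lit 11675) (nat_lit 11) (nat_lit 13))
    (@En.n l575 (nat_lit 11432) (nat_lit 7) (nat_lit 9))
    (@En.i (nat_lit 7969) (nat_lit 13) (nat_lit 9))
    (@En.n l23260 (nat_lit 11664) (nat_lit 14) (nat_lit 5))
    (@En.n l6650 (nat_lit 10004) (nat_lit 6) (nat_lit 8))
    (@En.n l50 (nat_lit 11668) (nat_lit 15) (nat_lit 2))))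
  (@Cl.mk (nat_lit 0x20005000e00090002000d0007000c0003000c00070004000b0004000e0009) (nat_lit 0x97060308006065) (nat_lit 16) Lb.e (@T16.mk En
    (@En.i (nat_lit 11403) (nat_lit 4) (nat_lit 9))
    (@En.i (nat_lit 11666) (nat_lit 1) (nat_lit 14))
    (@En.n l10795 (nat_lit 6443) (nat_lit 2) (nat_lit 4))
    (@En.i (nat_lit 12097) (nat_lit 3) (nat_lit 11))
    (@En.i (nat_lit 8027) (nat_lit 4) (nat_lit 4))
    (@En.n l9133 (nat_lit 12068) (nat_lit 5) (nat_lit 7))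
    (@En.n l20641 (nat_lit 5805) (nat_lit 7) (nat_lit 12))
    (@En.i (nat_lit 11662) (nat_lit 7) (nat_lit 3))
    (@En.n l3872 (nat_lit 3703) (nat_lit 9) (nat_lit 12))
    (@En.n l810 (nat_lit 7551) (nat_lit 14) (nat_lit 7))
    (@En.n l3766 (nat_lit 12260) (nat_lit 11) (nat_lit 13))
    (@En.n l11 (nat_lit 11669) (nat_lit 11) (nat_lit 2))
    (@En.n l6669 (nat_lit 11664) (nat_lit 13) (nat_lit 9))
    (@En.n l6669 (nat_lit 6456) (nat_lit 1) (nat_lit 14))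
    (@En.i (nat_lit 10797) (nat_lit 13) (nat_lit 5))
    (@En.n l3 (nat_lit 11669) (nat_lit 15) (nat_lit 2))))
  (@Cl.mk (nat_lit 0x200050009000d0005000a0003000a000e000700020006000b0006000e000b) (nat_lit 0x14020510004089) (nat_lit 16) Lb.e (@T16.mk En
    (@En.n l11428 (nat_lit 11447) (nat_lit 11) (nat_lit 11))
    (@En.n l1690 (nat_lit 11432) (nat_lit 12) (nat_lit 14))
    (@En.n l152 (nat_lit 6907) (nat_lit 13) (nat_lit 6))
    (@En.n l7457 (nat_lit 11690) (nat_lit 3) (nat_lit 11))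
    (@En.n l1897 (nat_lit 9497) (nat_lit 4) (nat_lit 6))
    (@En.n l11 (nat_lit 11670) (nat_lit 5) (nat_lit 2))
    (@En.n l7088 (nat_lit 11664) (nat_lit 6) (nat_lit 7))
    (@En.n l5011 (nat_lit 5117) (nat_lit 8) (nat_lit 14))
    (@En.n l17556 (nat_lit 6957) (nat_lit 2) (nat_lit 10))
    (@En.n l2364 (nat_lit 11665) (nat_lit 9) (nat_lit 3))
    (@En.i (nat_lit 3028) (nat_lit 11) (nat_lit 10))
    (@En.n l25205 (nat_lit 10867) (nat_lit 5) (nat_lit 5))
    (@En.n l3902 (nat_lit 4009) (nat_lit 13) (nat_lit 13))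
    (@En.i (nat_lit 4289) (nat_lit 14) (nat_lit 9))
    (@En.n l3902 (nat_lit 10783) (nat_lit 8) (nat_lit 5))
    (@En.n l50 (nat_lit 11670) (nat_lit 15) (nat_lit 2))))
  (@Cl.mk (nat_lit 0x2000c0005000900090004000d0008000c0003000700070004000b000e0008) (nat_lit 0x305607630000851) (nat_lit 16) Lb.e (@T16.mk En
    (@En.n l10381 (nat_lit 40) (nat_lit 2) (nat_lit 8))
    (@En.i (nat_lit 2544) (nat_lit 4) (nat_lit 14))
    (@En.n l1123 (nat_lit 8044) (nat_lit 2) (nat_lit 11))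
    (@En.i (nat_lit 11604) (nat_lit 3) (nat_lit 4))
    (@En.n l10382 (nat_lit 11692) (nat_lit 9) (nat_lit 7))
    (@En.n l115 (nat_lit 12204) (nat_lit 5) (nat_lit 7))
    (@En.n l10307 (nat_lit 12105) (nat_lit 6) (nat_lit 3))
    (@En.i (nat_lit 3564) (nat_lit 0) (nat_lit 12))
    (@En.n l309 (nat_lit 12160) (nat_lit 9) (nat_lit 8))
    (@En.n l3678 (nat_lit 11668) (nat_lit 10) (nat_lit 13))
    (@En.n l291 (nat_lit 11598) (nat_lit 10) (nat_lit 4))
    (@En.n l1255 (nat_lit 12101) (nat_lit 7) (nat_lit 9))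
    (@En.n l253 (nat_lit 11601) (nat_lit 13) (nat_lit 9))
    (@En.n l10383 (nat_lit 12288) (nat_lit 14) (nat_lit 5))
    (@En.n l10384 (nat_lit 12019) (nat_lit 8) (nat_lit 12))
    (@En.n l17 (nat_lit 11671) (nat_lit 15) (nat_lit 2))))
  (@Cl.mk (nat_lit 0x20008000c0009000800060004000a000d00080007000300080006000e000a) (nat_lit 0x582500353001023) (nat_lit 16) Lb.e (@T16.mk En
    (@En.n l217 (nat_lit 10862) (nat_lit 12) (nat_lit 10))
    (@En.n l1690 (nat_lit 6485) (nat_lit 1) (nat_lit 14))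
    (@En.n l24033 (nat_lit 7551) (nat_lit 2) (nat_lit 6))
    (@En.n l24034 (nat_lit 5860) (nat_lit 3) (nat_lit 8))
    (@En.n l24035 (nat_lit 7550) (nat_lit 4) (nat_lit 3))
    (@En.n l24036 (nat_lit 11667) (nat_lit 0) (nat_lit 7))
    (@En.n l10266 (nat_lit 11081) (nat_lit 6) (nat_lit 8))
    (@En.n l5975 (nat_lit 3950) (nat_lit 8) (nat_lit 13))
    (@En.n l11519 (nat_lit 11674) (nat_lit 9) (nat_lit 10))
    (@En.n l763 (nat_lit 11211) (nat_lit 9) (nat_lit 4))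
    (@En.n l6562 (nat_lit 10829) (nat_lit 11) (nat_lit 6))
    (@En.i (nat_lit 12157) (nat_lit 12) (nat_lit 8))
    (@En.n l24037 (nat_lit 12521) (nat_lit 13) (nat_lit 9))
    (@En.i (nat_lit 7906) (nat_lit 14) (nat_lit 12))
    (@En.n l24034 (nat_lit 9949) (nat_lit 10) (nat_lit 8))
    (@En.n l50 (nat_lit 11672) (nat_lit 15) (nat_lit 2))))
  (@Cl.mk (nat_lit 0x300080006000c000a000a000800040009000800060006000a000d00080007) (nat_lit 0x204175063003a20) (nat_lit 16) Lb.e (@T16.mk En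
    (@En.n l33004 (nat_lit 11697) (nat_lit 0) (nat_lit 7))
    (@En.n l33005 (nat_lit 11054) (nat_lit 9) (nat_lit 8))
    (@En.i (nat_lit 11311) (nat_lit 5) (nat_lit 13))
    (@En.n l33006 (nat_lit 10369) (nat_lit 3) (nat_lit 10))
    (@En.n l6961 (nat_lit 11674) (nat_lit 10) (nat_lit 6))
    (@En.n l12811 (nat_lit 11873) (nat_lit 5) (nat_lit 6))
    (@En.i (nat_lit 12472) (nat_lit 8) (nat_lit 8))
    (@En.n l33007 (nat_lit 11344) (nat_lit 8) (nat_lit 9))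
    (@En.n l936 (nat_lit 11716) (nat_lit 8) (nat_lit 4))
    (@En.n l55 (nat_lit 9945) (nat_lit 0) (nat_lit 8))
    (@En.n l15417 (nat_lit 11728) (nat_lit 6) (nat_lit 10))
    (@En.n l33008 (nat_lit 8784) (nat_lit 12) (nat_lit 10))
    (@En.n l29320 (nat_lit 10424) (nat_lit 13) (nat_lit 12))
    (@En.n l17329 (nat_lit 11798) (nat_lit 14) (nat_lit 6))
    (@En.n l31663 (nat_lit 11405) (nat_lit 5) (nat_lit 8))
    (@En.n l33009 (nat_lit 11800) (nat_lit 15) (nat_lit 3))))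
  (@Cl.mk (nat_lit 0x200090005000a00090006000a000d00070006000300070006000b000e000a) (nat_lit 0x507402500000412) (nat_lit 16) Lb.e (@T16.mk En
    (@En.n l9463 (nat_lit 11673) (nat_lit 11) (nat_lit 10))
    (@En.i (nat_lit 1541) (nat_lit 4) (nat_lit 14))
    (@En.n l4233 (nat_lit 12793) (nat_lit 2) (nat_lit 11))
    (@En.n l4425 (nat_lit 11675) (nat_lit 3) (nat_lit 6))
    (@En.n l16372 (nat_lit 11668) (nat_lit 4) (nat_lit 7))
    (@En.n l1232 (nat_lit 11676) (nat_lit 5) (nat_lit 3))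
    (@En.n l6608 (nat_lit 12100) (nat_lit 0) (nat_lit 6))
    (@En.n l16371 (nat_lit 11594) (nat_lit 7) (nat_lit 7))
    (@En.n l1329 (nat_lit 11318) (nat_lit 9) (nat_lit 13))
    (@En.n l699 (nat_lit 2424) (nat_lit 10) (nat_lit 10))
    (@En.n l6608 (nat_lit 10687) (nat_lit 11) (nat_lit 6))
    (@En.i (nat_lit 12469) (nat_lit 12) (nat_lit 9))
    (@En.n l2257 (nat_lit 11712) (nat_lit 13) (nat_lit 10))
    (@En.n l29287 (nat_lit 11677) (nat_lit 14) (nat_lit 5))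
    (@En.i (nat_lit 10952) (nat_lit 9) (nat_lit 9))
    (@En.n l18 (nat_lit 11674) (nat_lit 15) (nat_lit 2))))
  (@Cl.mk (nat_lit 0x2000800050009000d0006000a0003000d0008000700030006000b000e000a) (nat_lit 0x507502064000372) (nat_lit 16) Lb.e (@T16.mk En
    (@En.n l21138 (nat_lit 11798) (nat_lit 12) (nat_lit 10))
    (@En.i (nat_lit 1540) (nat_lit 4) (nat_lit 14))
    (@En.n l4787 (nat_lit 12510) (nat_lit 2) (nat_lit 11))
    (@En.n l649 (nat_lit 10988) (nat_lit 3) (nat_lit 6))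
    (@En.n l3072 (nat_lit 11679) (nat_lit 4) (nat_lit 3))
    (@En.n l1900 (nat_lit 12101) (nat_lit 0) (nat_lit 7))
    (@En.n l4790 (nat_lit 11596) (nat_lit 6) (nat_lit 8))
    (@En.n l1767 (nat_lit 11674) (nat_lit 8) (nat_lit 13))
    (@En.n l2364 (nat_lit 11678) (nat_lit 8) (nat_lit 3))
    (@En.i (nat_lit 2426) (nat_lit 10) (nat_lit 10))
    (@En.n l17557 (nat_lit 10680) (nat_lit 5) (nat_lit 6))
    (@En.n l4790 (nat_lit 7271) (nat_lit 12) (nat_lit 13))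
    (@En.i (nat_lit 11711) (nat_lit 13) (nat_lit 9))
    (@En.n l7075 (nat_lit 11680) (nat_lit 14) (nat_lit 5))
    (@En.n l4790 (nat_lit 10950) (nat_lit 5) (nat_lit 8))
    (@En.n l50 (nat_lit 11675) (nat_lit 15) (nat_lit 2))))
  (@Cl.mk (nat_lit 0x200080005000b00090006000a000d00050008000300070006000b000e000a) (nat_lit 0x407501504000815) (nat_lit 16) Lb.e (@T16.mk En
    (@En.n l5646 (nat_lit 11800) (nat_lit 11) (nat_lit 10))
    (@En.i (nat_lit 1484) (nat_lit 4) (nat_lit 14))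
    (@En.n l4064 (nat_lit 12795) (nat_lit 2) (nat_lit 11))
    (@En.n l28 (nat_lit 11679) (nat_lit 3) (nat_lit 6))
    (@En.n l77 (nat_lit 9333) (nat_lit 4) (nat_lit 7))
    (@En.n l4065 (nat_lit 11674) (nat_lit 5) (nat_lit 3))
    (@En.n l24118 (nat_lit 11369) (nat_lit 0) (nat_lit 8))
    (@En.n l28 (nat_lit 9325) (nat_lit 7) (nat_lit 5))
    (@En.n l3039 (nat_lit 11320) (nat_lit 9) (nat_lit 13))
    (@En.n l3330 (nat_lit 2419) (nat_lit 10) (nat_lit 10))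
    (@En.n l14299 (nat_lit 10762) (nat_lit 11) (nat_lit 6))
    (@En.n l16554 (nat_lit 12467) (nat_lit 12) (nat_lit 9))
    (@En.n l617 (nat_lit 12230) (nat_lit 13) (nat_lit 11))
    (@En.n l17 (nat_lit 11681) (nat_lit 14) (nat_lit 5))
    (@En.i (nat_lit 10657) (nat_lit 9) (nat_lit 8))
    (@En.n l3 (nat_lit 11676) (nat_lit 15) (nat_lit 2))))
  (@Cl.mk (nat_lit 0x20005000a00090005000a000d000a0006000300070006000b0006000e000b) (nat_lit 0x44014600008025) (nat_lit 16) Lb.e (@T16.mk En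
    (@En.n l17912 (nat_lit 11716) (nat_lit 10) (nat_lit 11))
    (@En.n l4065 (nat_lit 11674) (nat_lit 1) (nat_lit 14))
    (@En.n l17913 (nat_lit 11746) (nat_lit 2) (nat_lit 6))
    (@En.n l14299 (nat_lit 12792) (nat_lit 3) (nat_lit 11))
    (@En.n l28 (nat_lit 11680) (nat_lit 4) (nat_lit 6))
    (@En.n l777 (nat_lit 11664) (nat_lit 5) (nat_lit 7))
    (@En.n l50 (nat_lit 11681) (nat_lit 6) (nat_lit 3))
    (@En.n l3039 (nat_lit 12102) (nat_lit 7) (nat_lit 6))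
    (@En.n l3038 (nat_lit 12265) (nat_lit 9) (nat_lit 10))
    (@En.n l3039 (nat_lit 11315) (nat_lit 10) (nat_lit 13))
    (@En.n l10749 (nat_lit 2427) (nat_lit 11) (nat_lit 10))
    (@En.n l17914 (nat_lit 10688) (nat_lit 12) (nat_lit 5))
    (@En.n l16513 (nat_lit 12466) (nat_lit 13) (nat_lit 9))
    (@En.n l2039 (nat_lit 12588) (nat_lit 14) (nat_lit 10))
    (@En.i (nat_lit 12167) (nat_lit 13) (nat_lit 5))
    (@En.n l3 (nat_lit 11677) (nat_lit 15) (nat_lit 2))))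
  (@Cl.mk (nat_lit 0x2000800050009000d000900070003000d0008000700030007000b000e0009) (nat_lit 0x203450063000392) (nat_lit 16) Lb.e (@T16.mk En
    (@En.n l217 (nat_lit 11473) (nat_lit 12) (nat_lit 9))
    (@En.n l15029 (nat_lit 1538) (nat_lit 4) (nat_lit 14))
    (@En.n l7156 (nat_lit 12242) (nat_lit 2) (nat_lit 11))
    (@En.n l4322 (nat_lit 12318) (nat_lit 3) (nat_lit 7))
    (@En.n l15030 (nat_lit 11683) (nat_lit 4) (nat_lit 3))
    (@En.n l6170 (nat_lit 12098) (nat_lit 0) (nat_lit 7))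
    (@En.n l9019 (nat_lit 12221) (nat_lit 6) (nat_lit 8))
    (@En.n l15031 (nat_lit 11321) (nat_lit 8) (nat_lit 13))
    (@En.n l763 (nat_lit 11675) (nat_lit 8) (nat_lit 3))
    (@En.i (nat_lit 12322) (nat_lit 0) (nat_lit 7))
    (@En.n l15032 (nat_lit 11674) (nat_lit 11) (nat_lit 9))
    (@En.n l15033 (nat_lit 4011) (nat_lit 12) (nat_lit 13))
    (@En.i (nat_lit 11710) (nat_lit 13) (nat_lit 9))
    (@En.n l2501 (nat_lit 11685) (nat_lit 14) (nat_lit 5))
    (@En.n l15034 (nat_lit 10951) (nat_lit 5) (nat_lit 8))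
    (@En.n l50 (nat_lit 11678) (nat_lit 15) (nat_lit 2))))
  (@Cl.mk (nat_lit 0x200070005000a000d0006000a0003000d0006000900030006000b000e000a) (nat_lit 0x7502060400873) (nat_lit 16) Lb.e (@T16.mk En
    (@En.n l5646 (nat_lit 11799) (nat_lit 12) (nat_lit 10))
    (@En.i (nat_lit 1395) (nat_lit 4) (nat_lit 14))
    (@En.i (nat_lit 12245) (nat_lit 2) (nat_lit 11))
    (@En.i (nat_lit 7789) (nat_lit 3) (nat_lit 6))
    (@En.n l3327 (nat_lit 11675) (nat_lit 4) (nat_lit 3))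
    (@En.i (nat_lit 11368) (nat_lit 0) (nat_lit 9))
    (@En.i (nat_lit 9333) (nat_lit 6) (nat_lit 6))
    (@En.i (nat_lit 11676) (nat_lit 8) (nat_lit 13))
    (@En.i (nat_lit 11683) (nat_lit 8) (nat_lit 3))
    (@En.i (nat_lit 2425) (nat_lit 10) (nat_lit 10))
    (@En.i (nat_lit 10648) (nat_lit 5) (nat_lit 6))
    (@En.i (nat_lit 7270) (nat_lit 12) (nat_lit 13))
    (@En.n l617 (nat_lit 12229) (nat_lit 13) (nat_lit 10))
    (@En.n l17 (nat_lit 11682) (nat_lit 14) (nat_lit 5))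
    (@En.i (nat_lit 10658) (nat_lit 5) (nat_lit 7))
    (@En.n l3 (nat_lit 11679) (nat_lit 15) (nat_lit 2))))
noncomputable def a730 : T16 Cl := @T16.mk Cl
  (@Cl.mk (nat_lit 0x200050009000d0005000a0003000d000b000700030006000b0005000e000b) (nat_lit 0x44020570004084) (nat_lit 16) Lb.e (@T16.mk En
    (@En.n l4172 (nat_lit 11718) (nat_lit 11) (nat_lit 11))
    (@En.n l3327 (nat_lit 11675) (nat_lit 1) (nat_lit 14))
    (@En.n l3348 (nat_lit 11745) (nat_lit 2) (nat_lit 5))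
    (@En.n l7524 (nat_lit 12244) (nat_lit 3) (nat_lit 11))
    (@En.i (nat_lit 10989) (nat_lit 4) (nat_lit 6))
    (@En.n l50 (nat_lit 11682) (nat_lit 5) (nat_lit 3))
    (@En.i (nat_lit 12103) (nat_lit 6) (nat_lit 7))
    (@En.i (nat_lit 12262) (nat_lit 8) (nat_lit 11))
    (@En.i (nat_lit 11677) (nat_lit 9) (nat_lit 13))
    (@En.i (nat_lit 11685) (nat_lit 9) (nat_lit 3))
    (@En.n l7524 (nat_lit 2429) (nat_lit 11) (nat_lit 10))
    (@En.i (nat_lit 10686) (nat_lit 12) (nat_lit 5))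
    (@En.i (nat_lit 4004) (nat_lit 13) (nat_lit 13))
    (@En.n l2039 (nat_lit 12589) (nat_lit 14) (nat_lit 9))
    (@En.i (nat_lit 11964) (nat_lit 13) (nat_lit 5))
    (@En.n l3 (nat_lit 11680) (nat_lit 15) (nat_lit 2))))
  (@Cl.mk (nat_lit 0x20005000b00090005000a000d0005000b000300070006000b0005000e000b) (nat_lit 0x94014010007029) (nat_lit 16) Lb.e (@T16.mk En
    (@En.i (nat_lit 11717) (nat_lit 10) (nat_lit 11))
    (@En.i (nat_lit 11676) (nat_lit 1) (nat_lit 14))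
    (@En.i (nat_lit 12230) (nat_lit 2) (nat_lit 5))
    (@En.n l14299 (nat_lit 12794) (nat_lit 3) (nat_lit 11))
    (@En.n l28 (nat_lit 11682) (nat_lit 4) (nat_lit 6))
    (@En.n l77 (nat_lit 12260) (nat_lit 5) (nat_lit 7))
    (@En.i (nat_lit 11677) (nat_lit 6) (nat_lit 3))
    (@En.i (nat_lit 25) (nat_lit 0) (nat_lit 11))
    (@En.n l28 (nat_lit 9326) (nat_lit 8) (nat_lit 5))
    (@En.n l3039 (nat_lit 11319) (nat_lit 10) (nat_lit 13))
    (@En.i (nat_lit 775) (nat_lit 11) (nat_lit 10))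
    (@En.n l14299 (nat_lit 10649) (nat_lit 12) (nat_lit 5))
    (@En.n l601 (nat_lit 12464) (nat_lit 13) (nat_lit 9))
    (@En.n l617 (nat_lit 9225) (nat_lit 14) (nat_lit 11))
    (@En.i (nat_lit 11963) (nat_lit 13) (nat_lit 5))
    (@En.n l3 (nat_lit 11681) (nat_lit 15) (nat_lit 2))))
  (@Cl.mk (nat_lit 0x20005000a000d0005000a0003000d0006000c00030006000b0004000e000b) (nat_lit 0x74010505007083) (nat_lit 16) Lb.e (@T16.mk En
    (@En.i (nat_lit 11719) (nat_lit 11) (nat_lit 11))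
    (@En.i (nat_lit 11679) (nat_lit 1) (nat_lit 14))
    (@En.i (nat_lit 12229) (nat_lit 2) (nat_lit 4))
    (@En.i (nat_lit 12035) (nat_lit 3) (nat_lit 11))
    (@En.i (nat_lit 7787) (nat_lit 4) (nat_lit 6))
    (@En.i (nat_lit 11680) (nat_lit 5) (nat_lit 3))
    (@En.i (nat_lit 12649) (nat_lit 0) (nat_lit 12))
    (@En.i (nat_lit 12260) (nat_lit 7) (nat_lit 6))
    (@En.i (nat_lit 11681) (nat_lit 9) (nat_lit 13))
    (@En.i (nat_lit 11684) (nat_lit 9) (nat_lit 3))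
    (@En.i (nat_lit 772) (nat_lit 11) (nat_lit 10))
    (@En.i (nat_lit 10646) (nat_lit 5) (nat_lit 5))
    (@En.i (nat_lit 4002) (nat_lit 13) (nat_lit 13))
    (@En.n l617 (nat_lit 9230) (nat_lit 14) (nat_lit 10))
    (@En.i (nat_lit 11959) (nat_lit 13) (nat_lit 5))
    (@En.n l3 (nat_lit 11682) (nat_lit 15) (nat_lit 2))))
  (@Cl.mk (nat_lit 0x200070005000a000d000900070003000d0006000900030007000b000e0009) (nat_lit 0x7460060400392) (nat_lit 16) Lb.e (@T16.mk En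
    (@En.n l7290 (nat_lit 11737) (nat_lit 12) (nat_lit 9))
    (@En.i (nat_lit 1539) (nat_lit 4) (nat_lit 14))
    (@En.n l10274 (nat_lit 12241) (nat_lit 2) (nat_lit 11))
    (@En.i (nat_lit 12142) (nat_lit 3) (nat_lit 7))
    (@En.n l6268 (nat_lit 11678) (nat_lit 4) (nat_lit 3))
    (@En.n l10274 (nat_lit 11366) (nat_lit 0) (nat_lit 9))
    (@En.n l8107 (nat_lit 12227) (nat_lit 6) (nat_lit 6))
    (@En.n l8458 (nat_lit 11325) (nat_lit 8) (nat_lit 13))
    (@En.n l11 (nat_lit 11679) (nat_lit 8) (nat_lit 3))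
    (@En.n l3635 (nat_lit 12321) (nat_lit 0) (nat_lit 7))
    (@En.n l55 (nat_lit 11676) (nat_lit 11) (nat_lit 9))
    (@En.i (nat_lit 4013) (nat_lit 12) (nat_lit 13))
    (@En.n l617 (nat_lit 12225) (nat_lit 13) (nat_lit 10))
    (@En.n l17 (nat_lit 11684) (nat_lit 14) (nat_lit 5))
    (@En.n l1080 (nat_lit 10672) (nat_lit 5) (nat_lit 7))
    (@En.n l3 (nat_lit 11683) (nat_lit 15) (nat_lit 2))))
  (@Cl.mk (nat_lit 0x20005000a000d000900060003000d0006000c00030007000b0004000e000a) (nat_lit 0x735005060030a3) (nat_lit 16) Lb.e (@T16.mk En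
    (@En.i (nat_lit 11741) (nat_lit 11) (nat_lit 10))
    (@En.i (nat_lit 11683) (nat_lit 1) (nat_lit 14))
    (@En.i (nat_lit 12225) (nat_lit 2) (nat_lit 4))
    (@En.n l14300 (nat_lit 12240) (nat_lit 3) (nat_lit 11))
    (@En.i (nat_lit 12143) (nat_lit 4) (nat_lit 7))
    (@En.i (nat_lit 11685) (nat_lit 5) (nat_lit 3))
    (@En.n l287 (nat_lit 12565) (nat_lit 7) (nat_lit 12))
    (@En.n l2491 (nat_lit 12231) (nat_lit 7) (nat_lit 6))
    (@En.i (nat_lit 11327) (nat_lit 9) (nat_lit 13))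
    (@En.n l11 (nat_lit 11682) (nat_lit 9) (nat_lit 3))
    (@En.n l13261 (nat_lit 12663) (nat_lit 0) (nat_lit 6))
    (@En.n l55 (nat_lit 11681) (nat_lit 12) (nat_lit 9))
    (@En.i (nat_lit 4003) (nat_lit 13) (nat_lit 13))
    (@En.n l617 (nat_lit 9240) (nat_lit 14) (nat_lit 10))
    (@En.i (nat_lit 11960) (nat_lit 13) (nat_lit 5))
    (@En.n l3 (nat_lit 11684) (nat_lit 15) (nat_lit 2))))
  (@Cl.mk (nat_lit 0x200050009000d000900060003000d000b000700030007000b0005000e000a) (nat_lit 0x435005700070a4) (nat_lit 16) Lb.e (@T16.mk En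
    (@En.n l7515 (nat_lit 11727) (nat_lit 11) (nat_lit 10))
    (@En.n l6268 (nat_lit 11678) (nat_lit 1) (nat_lit 14))
    (@En.n l7516 (nat_lit 11747) (nat_lit 2) (nat_lit 5))
    (@En.n l850 (nat_lit 12239) (nat_lit 3) (nat_lit 11))
    (@En.i (nat_lit 12317) (nat_lit 4) (nat_lit 7))
    (@En.n l50 (nat_lit 11684) (nat_lit 5) (nat_lit 3))
    (@En.n l1461 (nat_lit 12104) (nat_lit 6) (nat_lit 7))
    (@En.i (nat_lit 12264) (nat_lit 8) (nat_lit 11))
    (@En.n l3039 (nat_lit 11329) (nat_lit 9) (nat_lit 13))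
    (@En.n l11 (nat_lit 11680) (nat_lit 9) (nat_lit 3))
    (@En.n l850 (nat_lit 12666) (nat_lit 0) (nat_lit 6))
    (@En.n l55 (nat_lit 11677) (nat_lit 12) (nat_lit 9))
    (@En.i (nat_lit 4005) (nat_lit 13) (nat_lit 13))
    (@En.n l2039 (nat_lit 12591) (nat_lit 14) (nat_lit 9))
    (@En.i (nat_lit 11965) (nat_lit 13) (nat_lit 5))
    (@En.n l3 (nat_lit 11685) (nat_lit 15) (nat_lit 2))))
  (@Cl.mk (nat_lit 0x20006000e000a00020008000c0008000c00060004000a00040008000e0008) (nat_lit 0x610486700303b1) (nat_lit 16) Lb.e (@T16.mk En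
    (@En.n l5646 (nat_lit 5860) (nat_lit 4) (nat_lit 8))
    (@En.n l3869 (nat_lit 6935) (nat_lit 6) (nat_lit 14))
    (@En.n l2290 (nat_lit 11696) (nat_lit 2) (nat_lit 8))
    (@En.n l21274 (nat_lit 6492) (nat_lit 7) (nat_lit 4))
    (@En.n l2286 (nat_lit 11432) (nat_lit 4) (nat_lit 10))
    (@En.i (nat_lit 11230) (nat_lit 5) (nat_lit 4))
    (@En.n l31777 (nat_lit 11297) (nat_lit 6) (nat_lit 6))
    (@En.n l21274 (nat_lit 6972) (nat_lit 8) (nat_lit 12))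
    (@En.n l2286 (nat_lit 7101) (nat_lit 13) (nat_lit 8))
    (@En.n l617 (nat_lit 8028) (nat_lit 10) (nat_lit 12))
    (@En.i (nat_lit 12082) (nat_lit 11) (nat_lit 8))
    (@En.n l11 (nat_lit 11686) (nat_lit 11) (nat_lit 2))
    (@En.n l30815 (nat_lit 8017) (nat_lit 13) (nat_lit 10))
    (@En.n l17 (nat_lit 6458) (nat_lit 1) (nat_lit 14))
    (@En.i (nat_lit 9881) (nat_lit 2) (nat_lit 6))
    (@En.n l3 (nat_lit 11686) (nat_lit 15) (nat_lit 2))))
  (@Cl.mk (nat_lit 0x200070005000b00090009000d000800050003000900070007000b000e0008) (nat_lit 0x8347600600351) (nat_lit 16) Lb.e (@T16.mk En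
    (@En.n l32219 (nat_lit 73) (nat_lit 2) (nat_lit 8))
    (@En.n l32220 (nat_lit 11646) (nat_lit 4) (nat_lit 14))
    (@En.n l10436 (nat_lit 8031) (nat_lit 2) (nat_lit 11))
    (@En.n l32221 (nat_lit 12099) (nat_lit 3) (nat_lit 7))
    (@En.n l32220 (nat_lit 12167) (nat_lit 4) (nat_lit 7))
    (@En.n l32222 (nat_lit 11001) (nat_lit 5) (nat_lit 9))
    (@En.n l32223 (nat_lit 11697) (nat_lit 6) (nat_lit 3))
    (@En.n l16827 (nat_lit 12259) (nat_lit 7) (nat_lit 5))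
    (@En.n l32222 (nat_lit 11673) (nat_lit 9) (nat_lit 8))
    (@En.n l9384 (nat_lit 12510) (nat_lit 10) (nat_lit 13))
    (@En.n l32224 (nat_lit 11688) (nat_lit 11) (nat_lit 9))
    (@En.i (nat_lit 11970) (nat_lit 12) (nat_lit 9))
    (@En.n l16828 (nat_lit 5860) (nat_lit 13) (nat_lit 11))
    (@En.n l17 (nat_lit 11698) (nat_lit 14) (nat_lit 5))
    (@En.i (nat_lit 11938) (nat_lit 7) (nat_lit 7))
    (@En.n l3 (nat_lit 11687) (nat_lit 15) (nat_lit 2))))
  (@Cl.mk (nat_lit 0x200080005000c0009000d0007000400030008000e00070002000b000e0009) (nat_lit 0x209360002100364) (nat_lit 16) Lb.e (@T16.mk En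
    (@En.n l16819 (nat_lit 10911) (nat_lit 13) (nat_lit 9))
    (@En.n l5570 (nat_lit 11362) (nat_lit 4) (nat_lit 14))
    (@En.i (nat_lit 12318) (nat_lit 2) (nat_lit 11))
    (@En.n l3 (nat_lit 11688) (nat_lit 3) (nat_lit 2))
    (@En.n l16820 (nat_lit 11687) (nat_lit 4) (nat_lit 7))
    (@En.n l16821 (nat_lit 2173) (nat_lit 6) (nat_lit 14))
    (@En.n l14148 (nat_lit 11035) (nat_lit 6) (nat_lit 8))
    (@En.n l10652 (nat_lit 11689) (nat_lit 7) (nat_lit 3))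
    (@En.i (nat_lit 12780) (nat_lit 8) (nat_lit 4))
    (@En.n l16822 (nat_lit 11728) (nat_lit 5) (nat_lit 7))
    (@En.n l3872 (nat_lit 2568) (nat_lit 11) (nat_lit 13))
    (@En.n l16821 (nat_lit 11971) (nat_lit 12) (nat_lit 9))
    (@En.n l1353 (nat_lit 11686) (nat_lit 9) (nat_lit 12))
    (@En.n l61 (nat_lit 11690) (nat_lit 14) (nat_lit 5))
    (@En.n l16823 (nat_lit 11932) (nat_lit 11) (nat_lit 8))
    (@En.n l11 (nat_lit 11688) (nat_lit 15) (nat_lit 2))))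
  (@Cl.mk (nat_lit 0x200080005000d0009000d0003000800030008000e00070002000b000e0008) (nat_lit 0x208250605400585) (nat_lit 16) Lb.e (@T16.mk En
    (@En.n l9041 (nat_lit 10914) (nat_lit 13) (nat_lit 8))
    (@En.i (nat_lit 11359) (nat_lit 4) (nat_lit 14))
    (@En.n l1125 (nat_lit 12063) (nat_lit 2) (nat_lit 11))
    (@En.n l50 (nat_lit 11689) (nat_lit 3) (nat_lit 2))
    (@En.n l7140 (nat_lit 11697) (nat_lit 4) (nat_lit 7))
    (@En.n l9042 (nat_lit 2176) (nat_lit 6) (nat_lit 14))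
    (@En.n l3213 (nat_lit 6473) (nat_lit 6) (nat_lit 8))
    (@En.n l3706 (nat_lit 11688) (nat_lit 7) (nat_lit 3))
    (@En.n l9043 (nat_lit 11371) (nat_lit 0) (nat_lit 8))
    (@En.n l11 (nat_lit 11691) (nat_lit 9) (nat_lit 3))
    (@En.n l9044 (nat_lit 2567) (nat_lit 0) (nat_lit 13))
    (@En.n l5076 (nat_lit 12178) (nat_lit 12) (nat_lit 9))
    (@En.n l781 (nat_lit 6494) (nat_lit 9) (nat_lit 13))
    (@En.n l9045 (nat_lit 11692) (nat_lit 14) (nat_lit 5))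
    (@En.n l9044 (nat_lit 4180) (nat_lit 11) (nat_lit 8))
    (@En.n l17 (nat_lit 11689) (nat_lit 15) (nat_lit 2))))
  (@Cl.mk (nat_lit 0x20005000c0009000d000600040003000b000e00070002000b0005000e000a) (nat_lit 0x92400061003075) (nat_lit 16) Lb.e (@T16.mk En
    (@En.n l6757 (nat_lit 10915) (nat_lit 12) (nat_lit 10))
    (@En.n l617 (nat_lit 11688) (nat_lit 1) (nat_lit 14))
    (@En.n l17 (nat_lit 11695) (nat_lit 14) (nat_lit 5))
    (@En.n l6758 (nat_lit 12317) (nat_lit 3) (nat_lit 11))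
    (@En.n l3 (nat_lit 11690) (nat_lit 4) (nat_lit 2))
    (@En.n l6759 (nat_lit 11698) (nat_lit 5) (nat_lit 7))
    (@En.n l3806 (nat_lit 2487) (nat_lit 7) (nat_lit 14))
    (@En.n l6760 (nat_lit 6949) (nat_lit 8) (nat_lit 11))
    (@En.i (nat_lit 11692) (nat_lit 8) (nat_lit 3))
    (@En.i (nat_lit 12091) (nat_lit 9) (nat_lit 4))
    (@En.n l6760 (nat_lit 11729) (nat_lit 5) (nat_lit 6))
    (@En.n l6761 (nat_lit 2570) (nat_lit 12) (nat_lit 13))
    (@En.n l3806 (nat_lit 11974) (nat_lit 13) (nat_lit 9))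
    (@En.i (nat_lit 8029) (nat_lit 9) (nat_lit 12))
    (@En.n l3806 (nat_lit 12246) (nat_lit 13) (nat_lit 5))
    (@En.n l11 (nat_lit 11690) (nat_lit 15) (nat_lit 2))))
  (@Cl.mk (nat_lit 0x200080005000d000c000a0003000800040008000e00060002000b000e0008) (nat_lit 0x207a302016005b5) (nat_lit 16) Lb.e (@T16.mk En
    (@En.i (nat_lit 12095) (nat_lit 13) (nat_lit 8))
    (@En.i (nat_lit 11361) (nat_lit 4) (nat_lit 14))
    (@En.n l253 (nat_lit 11138) (nat_lit 2) (nat_lit 11))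
    (@En.n l50 (nat_lit 11691) (nat_lit 3) (nat_lit 2))
    (@En.n l9902 (nat_lit 11489) (nat_lit 4) (nat_lit 6))
    (@En.n l2544 (nat_lit 2488) (nat_lit 6) (nat_lit 14))
    (@En.n l3213 (nat_lit 6471) (nat_lit 6) (nat_lit 8))
    (@En.i (nat_lit 12089) (nat_lit 7) (nat_lit 4))
    (@En.n l3340 (nat_lit 12369) (nat_lit 4) (nat_lit 8))
    (@En.i (nat_lit 11689) (nat_lit 9) (nat_lit 3))
    (@En.i (nat_lit 12306) (nat_lit 0) (nat_lit 10))
    (@En.n l11105 (nat_lit 11688) (nat_lit 12) (nat_lit 12))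
    (@En.n l781 (nat_lit 6493) (nat_lit 9) (nat_lit 13))
    (@En.n l6648 (nat_lit 11693) (nat_lit 14) (nat_lit 5))
    (@En.n l2125 (nat_lit 4175) (nat_lit 11) (nat_lit 8))
    (@En.n l17 (nat_lit 11691) (nat_lit 15) (nat_lit 2))))
  (@Cl.mk (nat_lit 0x20005000d0009000d000300070003000b000e00070002000b0005000e0009) (nat_lit 0x83500074003096) (nat_lit 16) Lb.e (@T16.mk En
    (@En.n l3803 (nat_lit 11671) (nat_lit 12) (nat_lit 9))
    (@En.n l3804 (nat_lit 11689) (nat_lit 1) (nat_lit 14))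
    (@En.n l17 (nat_lit 11694) (nat_lit 14) (nat_lit 5))
    (@En.n l3805 (nat_lit 12316) (nat_lit 3) (nat_lit 11))
    (@En.n l3 (nat_lit 11692) (nat_lit 4) (nat_lit 2))
    (@En.n l3805 (nat_lit 11699) (nat_lit 5) (nat_lit 7))
    (@En.n l3806 (nat_lit 2486) (nat_lit 7) (nat_lit 14))
    (@En.n l3807 (nat_lit 12124) (nat_lit 8) (nat_lit 11))
    (@En.n l50 (nat_lit 11690) (nat_lit 8) (nat_lit 3))
    (@En.n l3808 (nat_lit 11373) (nat_lit 4) (nat_lit 7))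
    (@En.n l3809 (nat_lit 11693) (nat_lit 10) (nat_lit 3))
    (@En.n l3810 (nat_lit 2569) (nat_lit 12) (nat_lit 13))
    (@En.n l3806 (nat_lit 12179) (nat_lit 13) (nat_lit 9))
    (@En.n l50 (nat_lit 11666) (nat_lit 9) (nat_lit 13))
    (@En.n l3811 (nat_lit 11373) (nat_lit 13) (nat_lit 5))
    (@En.n l11 (nat_lit 11692) (nat_lit 15) (nat_lit 2))))
  (@Cl.mk (nat_lit 0x20005000d000c000a000300070004000b000e00060002000b0005000e0009) (nat_lit 0x7a3000660030c6) (nat_lit 16) Lb.e (@T16.mk En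
    (@En.n l10675 (nat_lit 12105) (nat_lit 12) (nat_lit 9))
    (@En.n l10676 (nat_lit 11691) (nat_lit 1) (nat_lit 14))
    (@En.n l1732 (nat_lit 11696) (nat_lit 14) (nat_lit 5))
    (@En.n l10677 (nat_lit 11139) (nat_lit 3) (nat_lit 11))
    (@En.n l17 (nat_lit 11693) (nat_lit 4) (nat_lit 2))
    (@En.n l10677 (nat_lit 10354) (nat_lit 5) (nat_lit 6))
    (@En.n l436 (nat_lit 2480) (nat_lit 7) (nat_lit 14))
    (@En.n l5242 (nat_lit 12123) (nat_lit 8) (nat_lit 11))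
    (@En.n l8891 (nat_lit 12085) (nat_lit 8) (nat_lit 4))
    (@En.n l10678 (nat_lit 12367) (nat_lit 4) (nat_lit 7))
    (@En.n l1163 (nat_lit 11692) (nat_lit 10) (nat_lit 3))
    (@En.n l5242 (nat_lit 12305) (nat_lit 12) (nat_lit 10))
    (@En.n l10679 (nat_lit 11690) (nat_lit 13) (nat_lit 12))
    (@En.n l8891 (nat_lit 11667) (nat_lit 9) (nat_lit 13))
    (@En.n l810 (nat_lit 11375) (nat_lit 13) (nat_lit 5))
    (@En.n l28 (nat_lit 11693) (nat_lit 15) (nat_lit 2))))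
  (@Cl.mk (nat_lit 0x20005000e000900020008000d0008000d000300070003000b0008000e0008) (nat_lit 0x95057240007654) (nat_lit 16) Lb.e (@T16.mk En
    (@En.n l10651 (nat_lit 10355) (nat_lit 4) (nat_lit 8))
    (@En.i (nat_lit 11692) (nat_lit 6) (nat_lit 14))
    (@En.n l10652 (nat_lit 11689) (nat_lit 6) (nat_lit 8))
    (@En.n l10653 (nat_lit 11431) (nat_lit 3) (nat_lit 11))
    (@En.n l50 (nat_lit 11695) (nat_lit 4) (nat_lit 3))
    (@En.n l8877 (nat_lit 8107) (nat_lit 5) (nat_lit 7))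
    (@En.n l10654 (nat_lit 11696) (nat_lit 6) (nat_lit 3))
    (@En.n l3872 (nat_lit 2565) (nat_lit 8) (nat_lit 13))
    (@En.n l8878 (nat_lit 12161) (nat_lit 13) (nat_lit 8))
    (@En.n l50 (nat_lit 11669) (nat_lit 10) (nat_lit 13))
    (@En.n l10655 (nat_lit 12269) (nat_lit 11) (nat_lit 8))
    (@En.n l11 (nat_lit 11694) (nat_lit 11) (nat_lit 2))
    (@En.n l8872 (nat_lit 12288) (nat_lit 13) (nat_lit 9))
    (@En.n l10656 (nat_lit 11357) (nat_lit 1) (nat_lit 14))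
    (@En.n l6104 (nat_lit 12309) (nat_lit 2) (nat_lit 5))
    (@En.n l3 (nat_lit 11694) (nat_lit 15) (nat_lit 2))))
  (@Cl.mk (nat_lit 0x20005000e000a00020008000c0008000d000600040003000b0008000e0008) (nat_lit 0x77058250007324) (nat_lit 16) Lb.e (@T16.mk En
    (@En.n l16824 (nat_lit 12092) (nat_lit 4) (nat_lit 8))
    (@En.i (nat_lit 11690) (nat_lit 6) (nat_lit 14))
    (@En.i (nat_lit 11688) (nat_lit 6) (nat_lit 8))
    (@En.i (nat_lit 6948) (nat_lit 3) (nat_lit 11))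
    (@En.i (nat_lit 11694) (nat_lit 4) (nat_lit 3))
    (@En.i (nat_lit 8114) (nat_lit 5) (nat_lit 4))
    (@En.i (nat_lit 11730) (nat_lit 6) (nat_lit 6))
    (@En.n l3872 (nat_lit 2566) (nat_lit 8) (nat_lit 13))
    (@En.n l3213 (nat_lit 11979) (nat_lit 13) (nat_lit 8))
    (@En.i (nat_lit 8027) (nat_lit 10) (nat_lit 12))
    (@En.i (nat_lit 12273) (nat_lit 11) (nat_lit 8))
    (@En.n l11 (nat_lit 11695) (nat_lit 11) (nat_lit 2))
    (@En.i (nat_lit 12094) (nat_lit 13) (nat_lit 10))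
    (@En.n l617 (nat_lit 11358) (nat_lit 1) (nat_lit 14))
    (@En.i (nat_lit 12306) (nat_lit 2) (nat_lit 5))
    (@En.n l3 (nat_lit 11695) (nat_lit 15) (nat_lit 2))))
noncomputable def a731 : T16 Cl := @T16.mk Cl
  (@Cl.mk (nat_lit 0x20005000e000900020008000d000c0009000300070004000b0008000e0007) (nat_lit 0xc6056940006270) (nat_lit 16) Lb.e (@T16.mk En
    (@En.n l117 (nat_lit 10352) (nat_lit 4) (nat_lit 7))
    (@En.n l5569 (nat_lit 11693) (nat_lit 6) (nat_lit 14))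
    (@En.n l6607 (nat_lit 11691) (nat_lit 6) (nat_lit 8))
    (@En.i (nat_lit 12122) (nat_lit 3) (nat_lit 11))
    (@En.n l3806 (nat_lit 12090) (nat_lit 4) (nat_lit 4))
    (@En.n l7507 (nat_lit 12041) (nat_lit 5) (nat_lit 7))
    (@En.n l18275 (nat_lit 11694) (nat_lit 6) (nat_lit 3))
    (@En.i (nat_lit 12304) (nat_lit 0) (nat_lit 9))
    (@En.n l6759 (nat_lit 11695) (nat_lit 9) (nat_lit 12))
    (@En.n l3806 (nat_lit 11662) (nat_lit 10) (nat_lit 13))
    (@En.i (nat_lit 12271) (nat_lit 11) (nat_lit 8))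
    (@En.n l50 (nat_lit 11696) (nat_lit 11) (nat_lit 2))
    (@En.i (nat_lit 12289) (nat_lit 13) (nat_lit 9))
    (@En.n l6606 (nat_lit 11352) (nat_lit 1) (nat_lit 14))
    (@En.n l3806 (nat_lit 12311) (nat_lit 2) (nat_lit 5))
    (@En.n l11 (nat_lit 11696) (nat_lit 15) (nat_lit 2))))
  (@Cl.mk (nat_lit 0x200070005000c00090009000d000400090003000900070007000b000e0007) (nat_lit 0x9336030600370) (nat_lit 16) Lb.e (@T16.mk En
    (@En.n l3098 (nat_lit 10913) (nat_lit 7) (nat_lit 7))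
    (@En.i (nat_lit 11645) (nat_lit 4) (nat_lit 14))
    (@En.n l14299 (nat_lit 10943) (nat_lit 2) (nat_lit 11))
    (@En.n l1577 (nat_lit 12100) (nat_lit 3) (nat_lit 7))
    (@En.i (nat_lit 11963) (nat_lit 4) (nat_lit 7))
    (@En.n l20474 (nat_lit 6477) (nat_lit 5) (nat_lit 9))
    (@En.n l21446 (nat_lit 11687) (nat_lit 6) (nat_lit 3))
    (@En.n l21447 (nat_lit 11374) (nat_lit 0) (nat_lit 9))
    (@En.n l8434 (nat_lit 11489) (nat_lit 8) (nat_lit 4))
    (@En.n l10649 (nat_lit 12242) (nat_lit 10) (nat_lit 13))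
    (@En.n l14629 (nat_lit 11689) (nat_lit 11) (nat_lit 9))
    (@En.n l601 (nat_lit 12181) (nat_lit 12) (nat_lit 9))
    (@En.n l781 (nat_lit 6015) (nat_lit 13) (nat_lit 12))
    (@En.n l10646 (nat_lit 11699) (nat_lit 14) (nat_lit 5))
    (@En.n l21448 (nat_lit 11939) (nat_lit 7) (nat_lit 7))
    (@En.n l17 (nat_lit 11697) (nat_lit 15) (nat_lit 2))))
  (@Cl.mk (nat_lit 0x20005000b00090009000d000700050003000c00070007000b0004000e0009) (nat_lit 0x83360008003065) (nat_lit 16) Lb.e (@T16.mk En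
    (@En.i (nat_lit 10913) (nat_lit 14) (nat_lit 9))
    (@En.i (nat_lit 11687) (nat_lit 1) (nat_lit 14))
    (@En.n l9072 (nat_lit 12092) (nat_lit 2) (nat_lit 4))
    (@En.n l10436 (nat_lit 8030) (nat_lit 3) (nat_lit 11))
    (@En.n l16825 (nat_lit 12097) (nat_lit 4) (nat_lit 7))
    (@En.n l5 (nat_lit 12165) (nat_lit 5) (nat_lit 7))
    (@En.n l16826 (nat_lit 6953) (nat_lit 7) (nat_lit 12))
    (@En.n l10436 (nat_lit 11699) (nat_lit 7) (nat_lit 3))
    (@En.n l16827 (nat_lit 12258) (nat_lit 8) (nat_lit 5))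
    (@En.n l16826 (nat_lit 11798) (nat_lit 10) (nat_lit 7))
    (@En.n l16828 (nat_lit 12244) (nat_lit 11) (nat_lit 13))
    (@En.n l16829 (nat_lit 11690) (nat_lit 12) (nat_lit 9))
    (@En.i (nat_lit 11973) (nat_lit 13) (nat_lit 9))
    (@En.n l16828 (nat_lit 8032) (nat_lit 14) (nat_lit 11))
    (@En.n l10436 (nat_lit 11702) (nat_lit 13) (nat_lit 5))
    (@En.n l3 (nat_lit 11698) (nat_lit 15) (nat_lit 2))))
  (@Cl.mk (nat_lit 0x20005000c00090009000d000400080003000c00070007000b0004000e0008) (nat_lit 0x90450608003081) (nat_lit 16) Lb.e (@T16.mk En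
    (@En.n l10664 (nat_lit 40) (nat_lit 6) (nat_lit 8))
    (@En.n l9756 (nat_lit 11697) (nat_lit 1) (nat_lit 14))
    (@En.n l10665 (nat_lit 10355) (nat_lit 2) (nat_lit 4))
    (@En.i (nat_lit 10939) (nat_lit 3) (nat_lit 11))
    (@En.n l1252 (nat_lit 12101) (nat_lit 4) (nat_lit 7))
    (@En.n l4168 (nat_lit 12166) (nat_lit 5) (nat_lit 7))
    (@En.n l10666 (nat_lit 11428) (nat_lit 7) (nat_lit 12))
    (@En.n l10667 (nat_lit 11698) (nat_lit 7) (nat_lit 3))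
    (@En.n l4739 (nat_lit 11377) (nat_lit 0) (nat_lit 8))
    (@En.n l2678 (nat_lit 10354) (nat_lit 9) (nat_lit 4))
    (@En.n l4077 (nat_lit 12239) (nat_lit 11) (nat_lit 13))
    (@En.n l10668 (nat_lit 11692) (nat_lit 12) (nat_lit 9))
    (@En.n l6669 (nat_lit 12182) (nat_lit 13) (nat_lit 9))
    (@En.n l10669 (nat_lit 8043) (nat_lit 14) (nat_lit 12))
    (@En.i (nat_lit 10760) (nat_lit 13) (nat_lit 5))
    (@En.n l3 (nat_lit 11699) (nat_lit 15) (nat_lit 2))))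
  (@Cl.mk (nat_lit 0x20005000c00090009000d0004000a0003000a00070007000b0006000e0006) (nat_lit 0x73530206005020) (nat_lit 16) Lb.e (@T16.mk En
    (@En.n l50 (nat_lit 11704) (nat_lit 8) (nat_lit 6))
    (@En.n l10571 (nat_lit 10760) (nat_lit 1) (nat_lit 14))
    (@En.i (nat_lit 11372) (nat_lit 2) (nat_lit 6))
    (@En.i (nat_lit 9975) (nat_lit 3) (nat_lit 11))
    (@En.i (nat_lit 7662) (nat_lit 4) (nat_lit 7))
    (@En.n l13333 (nat_lit 11681) (nat_lit 5) (nat_lit 7))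
    (@En.n l11361 (nat_lit 9897) (nat_lit 7) (nat_lit 10))
    (@En.i (nat_lit 11701) (nat_lit 7) (nat_lit 3))
    (@En.n l21426 (nat_lit 11347) (nat_lit 9) (nat_lit 10))
    (@En.n l7981 (nat_lit 7663) (nat_lit 9) (nat_lit 4))
    (@En.n l10577 (nat_lit 12041) (nat_lit 11) (nat_lit 13))
    (@En.n l23227 (nat_lit 8107) (nat_lit 12) (nat_lit 9))
    (@En.n l10574 (nat_lit 10979) (nat_lit 13) (nat_lit 9))
    (@En.n l38862 (nat_lit 11644) (nat_lit 14) (nat_lit 12))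
    (@En.n l13333 (nat_lit 11697) (nat_lit 13) (nat_lit 5))
    (@En.n l18 (nat_lit 11700) (nat_lit 15) (nat_lit 2))))
  (@Cl.mk (nat_lit 0x20005000b00090009000d000900050003000a00070007000b0007000e0006) (nat_lit 0x63535006006020) (nat_lit 16) Lb.e (@T16.mk En
    (@En.n l50 (nat_lit 11703) (nat_lit 8) (nat_lit 6))
    (@En.n l16250 (nat_lit 11702) (nat_lit 1) (nat_lit 14))
    (@En.n l14171 (nat_lit 10131) (nat_lit 2) (nat_lit 7))
    (@En.i (nat_lit 8912) (nat_lit 3) (nat_lit 11))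
    (@En.n l4004 (nat_lit 7666) (nat_lit 4) (nat_lit 7))
    (@En.n l13333 (nat_lit 11677) (nat_lit 5) (nat_lit 7))
    (@En.n l23226 (nat_lit 9627) (nat_lit 7) (nat_lit 10))
    (@En.n l28 (nat_lit 11700) (nat_lit 7) (nat_lit 3))
    (@En.n l16533 (nat_lit 12255) (nat_lit 8) (nat_lit 5))
    (@En.n l23226 (nat_lit 7177) (nat_lit 10) (nat_lit 9))
    (@En.n l16253 (nat_lit 12049) (nat_lit 11) (nat_lit 13))
    (@En.n l23227 (nat_lit 8108) (nat_lit 12) (nat_lit 9))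
    (@En.n l23228 (nat_lit 10982) (nat_lit 13) (nat_lit 9))
    (@En.n l23229 (nat_lit 10781) (nat_lit 14) (nat_lit 11))
    (@En.n l23230 (nat_lit 11687) (nat_lit 13) (nat_lit 5))
    (@En.n l18 (nat_lit 11701) (nat_lit 15) (nat_lit 2))))
  (@Cl.mk (nat_lit 0x2000a0005000b00090009000d000600050003000b00070007000b000e0005) (nat_lit 0x606434000600610) (nat_lit 16) Lb.e (@T16.mk En
    (@En.n l29640 (nat_lit 11706) (nat_lit 9) (nat_lit 5))
    (@En.n l430 (nat_lit 623) (nat_lit 4) (nat_lit 14))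
    (@En.i (nat_lit 8908) (nat_lit 2) (nat_lit 11))
    (@En.n l4888 (nat_lit 7667) (nat_lit 3) (nat_lit 7))
    (@En.n l9133 (nat_lit 11674) (nat_lit 4) (nat_lit 7))
    (@En.n l25675 (nat_lit 9620) (nat_lit 6) (nat_lit 11))
    (@En.i (nat_lit 10760) (nat_lit 6) (nat_lit 3))
    (@En.n l8163 (nat_lit 12251) (nat_lit 0) (nat_lit 5))
    (@En.n l24629 (nat_lit 10991) (nat_lit 8) (nat_lit 6))
    (@En.n l24142 (nat_lit 12368) (nat_lit 10) (nat_lit 13))
    (@En.n l32176 (nat_lit 12246) (nat_lit 11) (nat_lit 9))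
    (@En.n l6669 (nat_lit 10981) (nat_lit 12) (nat_lit 9))
    (@En.n l24142 (nat_lit 10127) (nat_lit 13) (nat_lit 11))
    (@En.n l6730 (nat_lit 11701) (nat_lit 14) (nat_lit 5))
    (@En.n l2125 (nat_lit 10904) (nat_lit 0) (nat_lit 10))
    (@En.n l17 (nat_lit 11702) (nat_lit 15) (nat_lit 2))))
  (@Cl.mk (nat_lit 0x3000a000a00080008000c0008000600060004000b00080008000d00080005) (nat_lit 0x476275000541420) (nat_lit 16) Lb.e (@T16.mk En
    (@En.n l28943 (nat_lit 11553) (nat_lit 0) (nat_lit 5))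
    (@En.i (nat_lit 7735) (nat_lit 0) (nat_lit 8))
    (@En.n l8310 (nat_lit 11850) (nat_lit 2) (nat_lit 13))
    (@En.n l28944 (nat_lit 8111) (nat_lit 8) (nat_lit 8))
    (@En.n l16255 (nat_lit 12217) (nat_lit 4) (nat_lit 8))
    (@En.n l28945 (nat_lit 10791) (nat_lit 6) (nat_lit 11))
    (@En.n l28946 (nat_lit 11938) (nat_lit 6) (nat_lit 4))
    (@En.n l15006 (nat_lit 11709) (nat_lit 10) (nat_lit 6))
    (@En.i (nat_lit 11020) (nat_lit 8) (nat_lit 6))
    (@En.n l28947 (nat_lit 10096) (nat_lit 10) (nat_lit 8))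
    (@En.i (nat_lit 9971) (nat_lit 11) (nat_lit 12))
    (@En.n l11622 (nat_lit 12633) (nat_lit 8) (nat_lit 8))
    (@En.n l28948 (nat_lit 11715) (nat_lit 13) (nat_lit 8))
    (@En.n l396 (nat_lit 11701) (nat_lit 6) (nat_lit 10))
    (@En.n l28949 (nat_lit 9515) (nat_lit 14) (nat_lit 10))
    (@En.n l28 (nat_lit 11704) (nat_lit 15) (nat_lit 3))))
  (@Cl.mk (nat_lit 0x3000a000a00080008000c0007000600060004000c00080008000d00040009) (nat_lit 0x476450000541202) (nat_lit 16) Lb.e (@T16.mk En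
    (@En.n l28745 (nat_lit 10115) (nat_lit 0) (nat_lit 9))
    (@En.i (nat_lit 11742) (nat_lit 15) (nat_lit 4))
    (@En.n l3057 (nat_lit 11851) (nat_lit 0) (nat_lit 13))
    (@En.n l28746 (nat_lit 8109) (nat_lit 8) (nat_lit 8))
    (@En.i (nat_lit 12218) (nat_lit 4) (nat_lit 8))
    (@En.n l21506 (nat_lit 11307) (nat_lit 3) (nat_lit 12))
    (@En.n l2781 (nat_lit 11939) (nat_lit 6) (nat_lit 4))
    (@En.n l2172 (nat_lit 11710) (nat_lit 10) (nat_lit 6))
    (@En.i (nat_lit 11019) (nat_lit 8) (nat_lit 6))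
    (@En.n l28747 (nat_lit 11344) (nat_lit 7) (nat_lit 7))
    (@En.i (nat_lit 9970) (nat_lit 11) (nat_lit 12))
    (@En.i (nat_lit 12630) (nat_lit 8) (nat_lit 8))
    (@En.n l742 (nat_lit 11714) (nat_lit 13) (nat_lit 8))
    (@En.n l396 (nat_lit 11700) (nat_lit 6) (nat_lit 10))
    (@En.n l7 (nat_lit 9313) (nat_lit 13) (nat_lit 10))
    (@En.i (nat_lit 11703) (nat_lit 15) (nat_lit 3))))
  (@Cl.mk (nat_lit 0x3000b000b00080008000c0005000500090004000c00080008000d00040007) (nat_lit 0x674450020a33500) (nat_lit 16) Lb.e (@T16.mk En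
    (@En.n l649 (nat_lit 12536) (nat_lit 11) (nat_lit 7))
    (@En.i (nat_lit 11743) (nat_lit 15) (nat_lit 4))
    (@En.n l28799 (nat_lit 11808) (nat_lit 0) (nat_lit 13))
    (@En.n l36978 (nat_lit 11377) (nat_lit 8) (nat_lit 8))
    (@En.i (nat_lit 12211) (nat_lit 4) (nat_lit 8))
    (@En.i (nat_lit 11344) (nat_lit 3) (nat_lit 12))
    (@En.n l403 (nat_lit 11704) (nat_lit 6) (nat_lit 4))
    (@En.n l4256 (nat_lit 12209) (nat_lit 10) (nat_lit 9))
    (@En.n l18 (nat_lit 11711) (nat_lit 11) (nat_lit 5))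
    (@En.i (nat_lit 11874) (nat_lit 9) (nat_lit 5))
    (@En.i (nat_lit 8811) (nat_lit 11) (nat_lit 12))
    (@En.n l1867 (nat_lit 12626) (nat_lit 8) (nat_lit 8))
    (@En.i (nat_lit 9947) (nat_lit 13) (nat_lit 8))
    (@En.n l18630 (nat_lit 10760) (nat_lit 5) (nat_lit 11))
    (@En.i (nat_lit 9024) (nat_lit 13) (nat_lit 11))
    (@En.i (nat_lit 11706) (nat_lit 15) (nat_lit 3))))
  (@Cl.mk (nat_lit 0x3000b000b00080008000c00050005000a0004000b00080008000d00060005) (nat_lit 0x474560030556500) (nat_lit 16) Lb.e (@T16.mk En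
    (@En.n l11375 (nat_lit 11064) (nat_lit 0) (nat_lit 5))
    (@En.i (nat_lit 10992) (nat_lit 0) (nat_lit 6))
    (@En.n l36852 (nat_lit 11809) (nat_lit 2) (nat_lit 13))
    (@En.n l41551 (nat_lit 11707) (nat_lit 8) (nat_lit 8))
    (@En.n l41552 (nat_lit 12212) (nat_lit 4) (nat_lit 8))
    (@En.n l28693 (nat_lit 10128) (nat_lit 6) (nat_lit 11))
    (@En.n l403 (nat_lit 11703) (nat_lit 6) (nat_lit 4))
    (@En.n l41553 (nat_lit 10702) (nat_lit 0) (nat_lit 10))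
    (@En.n l18 (nat_lit 11708) (nat_lit 11) (nat_lit 5))
    (@En.n l18112 (nat_lit 11877) (nat_lit 9) (nat_lit 5))
    (@En.i (nat_lit 8812) (nat_lit 11) (nat_lit 12))
    (@En.n l8260 (nat_lit 11067) (nat_lit 8) (nat_lit 8))
    (@En.n l41554 (nat_lit 11475) (nat_lit 13) (nat_lit 8))
    (@En.n l28328 (nat_lit 11702) (nat_lit 5) (nat_lit 11))
    (@En.n l28329 (nat_lit 9374) (nat_lit 4) (nat_lit 11))
    (@En.n l28 (nat_lit 11705) (nat_lit 15) (nat_lit 3))))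
  (@Cl.mk (nat_lit 0x2000c00060006000b0004000c0008000d000500040003000a000a000e0008) (nat_lit 0x800307570005645) (nat_lit 16) Lb.e (@T16.mk En
    (@En.n l30522 (nat_lit 11706) (nat_lit 12) (nat_lit 8))
    (@En.n l30523 (nat_lit 11027) (nat_lit 1) (nat_lit 14))
    (@En.n l30524 (nat_lit 12246) (nat_lit 6) (nat_lit 10))
    (@En.n l30525 (nat_lit 9373) (nat_lit 3) (nat_lit 10))
    (@En.n l16010 (nat_lit 11377) (nat_lit 4) (nat_lit 3))
    (@En.i (nat_lit 12252) (nat_lit 0) (nat_lit 4))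
    (@En.n l30525 (nat_lit 8057) (nat_lit 6) (nat_lit 5))
    (@En.n l30523 (nat_lit 2727) (nat_lit 8) (nat_lit 13))
    (@En.n l30526 (nat_lit 12207) (nat_lit 3) (nat_lit 8))
    (@En.n l30527 (nat_lit 11634) (nat_lit 10) (nat_lit 12))
    (@En.n l4001 (nat_lit 8111) (nat_lit 10) (nat_lit 4))
    (@En.n l30528 (nat_lit 11616) (nat_lit 12) (nat_lit 11))
    (@En.n l152 (nat_lit 12571) (nat_lit 13) (nat_lit 6))
    (@En.n l2225 (nat_lit 12273) (nat_lit 14) (nat_lit 6))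
    (@En.n l30529 (nat_lit 8809) (nat_lit 10) (nat_lit 12))
    (@En.n l11 (nat_lit 11707) (nat_lit 15) (nat_lit 2))))
  (@Cl.mk (nat_lit 0x200090009000d0005000a0003000b00070007000d000600050003000e000b) (nat_lit 0x634020400400085) (nat_lit 16) Lb.e (@T16.mk En
    (@En.n l396 (nat_lit 11706) (nat_lit 14) (nat_lit 11))
    (@En.n l1789 (nat_lit 6899) (nat_lit 1) (nat_lit 14))
    (@En.n l28 (nat_lit 11711) (nat_lit 2) (nat_lit 3))
    (@En.n l14503 (nat_lit 12616) (nat_lit 3) (nat_lit 5))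
    (@En.i (nat_lit 12522) (nat_lit 4) (nat_lit 6))
    (@En.n l17553 (nat_lit 12575) (nat_lit 6) (nat_lit 13))
    (@En.n l28987 (nat_lit 12571) (nat_lit 9) (nat_lit 7))
    (@En.n l18896 (nat_lit 11599) (nat_lit 7) (nat_lit 7))
    (@En.n l28725 (nat_lit 12279) (nat_lit 9) (nat_lit 11))
    (@En.n l14807 (nat_lit 11709) (nat_lit 9) (nat_lit 3))
    (@En.i (nat_lit 8276) (nat_lit 0) (nat_lit 10))
    (@En.i (nat_lit 12452) (nat_lit 12) (nat_lit 5))
    (@En.i (nat_lit 8858) (nat_lit 13) (nat_lit 13))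
    (@En.n l10815 (nat_lit 12631) (nat_lit 14) (nat_lit 9))
    (@En.n l5200 (nat_lit 11785) (nat_lit 12) (nat_lit 9))
    (@En.n l50 (nat_lit 11708) (nat_lit 15) (nat_lit 2))))
  (@Cl.mk (nat_lit 0x200090009000d000900060003000b00070007000d000700050003000e000a) (nat_lit 0x6333004007000a5) (nat_lit 16) Lb.e (@T16.mk En
    (@En.n l6067 (nat_lit 11703) (nat_lit 14) (nat_lit 10))
    (@En.n l998 (nat_lit 6902) (nat_lit 1) (nat_lit 14))
    (@En.n l14718 (nat_lit 11710) (nat_lit 2) (nat_lit 3))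
    (@En.n l2563 (nat_lit 12617) (nat_lit 3) (nat_lit 5))
    (@En.i (nat_lit 7186) (nat_lit 4) (nat_lit 7))
    (@En.n l476 (nat_lit 12572) (nat_lit 6) (nat_lit 13))
    (@En.n l152 (nat_lit 12570) (nat_lit 9) (nat_lit 7))
    (@En.n l8874 (nat_lit 12222) (nat_lit 7) (nat_lit 7))
    (@En.n l14719 (nat_lit 7974) (nat_lit 9) (nat_lit 11))
    (@En.n l6071 (nat_lit 11708) (nat_lit 9) (nat_lit 3))
    (@En.n l6072 (nat_lit 12492) (nat_lit 0) (nat_lit 6))
    (@En.n l14720 (nat_lit 12274) (nat_lit 12) (nat_lit 9))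
    (@En.n l6072 (nat_lit 8265) (nat_lit 13) (nat_lit 13))
    (@En.n l14721 (nat_lit 12632) (nat_lit 14) (nat_lit 9))
    (@En.n l14722 (nat_lit 10845) (nat_lit 12) (nat_lit 9))
    (@En.n l17 (nat_lit 11709) (nat_lit 15) (nat_lit 2))))
  (@Cl.mk (nat_lit 0x200090009000d000800060003000c00070007000d000400080003000e000a) (nat_lit 0x223500500306015) (nat_lit 16) Lb.e (@T16.mk En
    (@En.n l217 (nat_lit 11704) (nat_lit 14) (nat_lit 10))
    (@En.i (nat_lit 419) (nat_lit 1) (nat_lit 14))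
    (@En.n l6001 (nat_lit 11709) (nat_lit 2) (nat_lit 3))
    (@En.n l4322 (nat_lit 11358) (nat_lit 3) (nat_lit 8))
    (@En.n l6001 (nat_lit 11747) (nat_lit 4) (nat_lit 4))
    (@En.n l11519 (nat_lit 12573) (nat_lit 6) (nat_lit 13))
    (@En.n l6170 (nat_lit 12569) (nat_lit 9) (nat_lit 7))
    (@En.n l10264 (nat_lit 12220) (nat_lit 7) (nat_lit 7))
    (@En.n l14452 (nat_lit 12542) (nat_lit 9) (nat_lit 12))
    (@En.n l763 (nat_lit 11711) (nat_lit 9) (nat_lit 3))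
    (@En.i (nat_lit 12491) (nat_lit 0) (nat_lit 6))
    (@En.n l14600 (nat_lit 11712) (nat_lit 12) (nat_lit 8))
    (@En.i (nat_lit 8266) (nat_lit 13) (nat_lit 13))
    (@En.n l5746 (nat_lit 12629) (nat_lit 14) (nat_lit 9))
    (@En.n l14601 (nat_lit 10843) (nat_lit 12) (nat_lit 9))
    (@En.n l50 (nat_lit 11710) (nat_lit 15) (nat_lit 2))))
  (@Cl.mk (nat_lit 0x200090009000d000500090003000c00070007000d000400070003000e000b) (nat_lit 0x364010500400017) (nat_lit 16) Lb.e (@T16.mk En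
    (@En.n l396 (nat_lit 11705) (nat_lit 14) (nat_lit 11))
    (@En.i (nat_lit 422) (nat_lit 1) (nat_lit 14))
    (@En.i (nat_lit 11708) (nat_lit 2) (nat_lit 3))
    (@En.n l649 (nat_lit 12538) (nat_lit 3) (nat_lit 7))
    (@En.i (nat_lit 11745) (nat_lit 4) (nat_lit 4))
    (@En.i (nat_lit 12574) (nat_lit 6) (nat_lit 13))
    (@En.n l1900 (nat_lit 11713) (nat_lit 9) (nat_lit 7))
    (@En.i (nat_lit 11595) (nat_lit 7) (nat_lit 7))
    (@En.i (nat_lit 11712) (nat_lit 9) (nat_lit 12))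
    (@En.n l2364 (nat_lit 11710) (nat_lit 9) (nat_lit 3))
    (@En.i (nat_lit 2453) (nat_lit 11) (nat_lit 9))
    (@En.i (nat_lit 12445) (nat_lit 12) (nat_lit 5))
    (@En.i (nat_lit 8850) (nat_lit 13) (nat_lit 13))
    (@En.n l1867 (nat_lit 12628) (nat_lit 14) (nat_lit 9))
    (@En.i (nat_lit 10844) (nat_lit 12) (nat_lit 9))
    (@En.n l50 (nat_lit 11711) (nat_lit 15) (nat_lit 2))))
noncomputable def a732 : T16 Cl := @T16.mk Cl
  (@Cl.mk (nat_lit 0x2000a000a000800050009000c00060006000c0004000800070004000e000b) (nat_lit 0x364014005040017) (nat_lit 16) Lb.e (@T16.mk En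
    (@En.n l396 (nat_lit 11344) (nat_lit 11) (nat_lit 11))
    (@En.i (nat_lit 428) (nat_lit 1) (nat_lit 14))
    (@En.n l28725 (nat_lit 12279) (nat_lit 2) (nat_lit 4))
    (@En.n l16345 (nat_lit 11711) (nat_lit 3) (nat_lit 7))
    (@En.n l6590 (nat_lit 7969) (nat_lit 4) (nat_lit 8))
    (@En.n l14806 (nat_lit 11746) (nat_lit 5) (nat_lit 4))
    (@En.n l17555 (nat_lit 12578) (nat_lit 7) (nat_lit 12))
    (@En.n l1900 (nat_lit 12568) (nat_lit 10) (nat_lit 6))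
    (@En.n l6593 (nat_lit 11593) (nat_lit 8) (nat_lit 6))
    (@En.n l28726 (nat_lit 11343) (nat_lit 6) (nat_lit 12))
    (@En.n l5596 (nat_lit 2457) (nat_lit 11) (nat_lit 9))
    (@En.n l12306 (nat_lit 12444) (nat_lit 12) (nat_lit 5))
    (@En.n l619 (nat_lit 10328) (nat_lit 13) (nat_lit 8))
    (@En.n l1867 (nat_lit 12627) (nat_lit 14) (nat_lit 10))
    (@En.n l6596 (nat_lit 11943) (nat_lit 12) (nat_lit 10))
    (@En.n l50 (nat_lit 11712) (nat_lit 15) (nat_lit 2))))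
  (@Cl.mk (nat_lit 0x2000d0006000a0003000d0007000d000300060003000e000a0002000e0009) (nat_lit 0x502060500075074) (nat_lit 16) Lb.e (@T16.mk En
    (@En.n l1532 (nat_lit 11711) (nat_lit 14) (nat_lit 9))
    (@En.n l11275 (nat_lit 12070) (nat_lit 1) (nat_lit 14))
    (@En.n l50 (nat_lit 11713) (nat_lit 2) (nat_lit 2))
    (@En.i (nat_lit 11377) (nat_lit 3) (nat_lit 10))
    (@En.i (nat_lit 1504) (nat_lit 1) (nat_lit 14))
    (@En.n l2394 (nat_lit 12571) (nat_lit 5) (nat_lit 3))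
    (@En.n l2520 (nat_lit 12539) (nat_lit 12) (nat_lit 6))
    (@En.i (nat_lit 11748) (nat_lit 7) (nat_lit 3))
    (@En.i (nat_lit 2729) (nat_lit 0) (nat_lit 13))
    (@En.n l2652 (nat_lit 11601) (nat_lit 6) (nat_lit 7))
    (@En.i (nat_lit 12568) (nat_lit 11) (nat_lit 13))
    (@En.n l10245 (nat_lit 12569) (nat_lit 11) (nat_lit 3))
    (@En.i (nat_lit 4854) (nat_lit 0) (nat_lit 10))
    (@En.i (nat_lit 12351) (nat_lit 14) (nat_lit 6))
    (@En.n l1531 (nat_lit 8862) (nat_lit 12) (nat_lit 13))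
    (@En.n l3 (nat_lit 11713) (nat_lit 15) (nat_lit 2))))
  (@Cl.mk (nat_lit 0x3000b00080007000c00060005000c0004000b000800040009000d0005000a) (nat_lit 0x450400308301408) (nat_lit 16) Lb.e (@T16.mk En
    (@En.n l649 (nat_lit 11583) (nat_lit 0) (nat_lit 10))
    (@En.i (nat_lit 9959) (nat_lit 9) (nat_lit 5))
    (@En.n l41414 (nat_lit 9199) (nat_lit 6) (nat_lit 13))
    (@En.n l41415 (nat_lit 5592) (nat_lit 3) (nat_lit 9))
    (@En.n l17 (nat_lit 11845) (nat_lit 4) (nat_lit 4))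
    (@En.n l15078 (nat_lit 10707) (nat_lit 0) (nat_lit 8))
    (@En.n l41416 (nat_lit 11298) (nat_lit 1) (nat_lit 11))
    (@En.n l50 (nat_lit 10922) (nat_lit 7) (nat_lit 4))
    (@En.n l10703 (nat_lit 10838) (nat_lit 9) (nat_lit 12))
    (@En.n l50 (nat_lit 10468) (nat_lit 11) (nat_lit 5))
    (@En.i (nat_lit 9948) (nat_lit 5) (nat_lit 6))
    (@En.i (nat_lit 10176) (nat_lit 12) (nat_lit 12))
    (@En.n l15078 (nat_lit 10620) (nat_lit 13) (nat_lit 7))
    (@En.n l41417 (nat_lit 11717) (nat_lit 14) (nat_lit 8))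
    (@En.i (nat_lit 9468) (nat_lit 10) (nat_lit 11))
    (@En.n l1236 (nat_lit 11715) (nat_lit 15) (nat_lit 3))))
  (@Cl.mk (nat_lit 0x3000b00080007000c00070005000c0004000a000800040009000d00090006) (nat_lit 0x450600302301340) (nat_lit 16) Lb.e (@T16.mk En
    (@En.n l41484 (nat_lit 11170) (nat_lit 0) (nat_lit 6))
    (@En.n l9877 (nat_lit 10277) (nat_lit 13) (nat_lit 9))
    (@En.n l41485 (nat_lit 9201) (nat_lit 6) (nat_lit 13))
    (@En.n l41486 (nat_lit 5593) (nat_lit 3) (nat_lit 9))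
    (@En.n l41487 (nat_lit 11846) (nat_lit 4) (nat_lit 4))
    (@En.n l41488 (nat_lit 10706) (nat_lit 0) (nat_lit 8))
    (@En.n l41211 (nat_lit 11984) (nat_lit 1) (nat_lit 10))
    (@En.n l41489 (nat_lit 10920) (nat_lit 7) (nat_lit 4))
    (@En.n l41490 (nat_lit 10839) (nat_lit 9) (nat_lit 12))
    (@En.n l28 (nat_lit 10211) (nat_lit 1) (nat_lit 5))
    (@En.n l41491 (nat_lit 12001) (nat_lit 5) (nat_lit 7))
    (@En.n l9877 (nat_lit 10178) (nat_lit 12) (nat_lit 12))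
    (@En.i (nat_lit 10846) (nat_lit 13) (nat_lit 7))
    (@En.n l41488 (nat_lit 11716) (nat_lit 14) (nat_lit 8))
    (@En.n l3519 (nat_lit 10594) (nat_lit 10) (nat_lit 11))
    (@En.n l9876 (nat_lit 11714) (nat_lit 15) (nat_lit 3))))
  (@Cl.mk (nat_lit 0x300080006000c0006000b000b00040009000800050005000a000d000a0007) (nat_lit 0x409048062002670) (nat_lit 16) Lb.e (@T16.mk En
    (@En.n l33667 (nat_lit 11489) (nat_lit 0) (nat_lit 7))
    (@En.n l29444 (nat_lit 10281) (nat_lit 12) (nat_lit 10))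
    (@En.i (nat_lit 11312) (nat_lit 5) (nat_lit 13))
    (@En.n l11244 (nat_lit 11210) (nat_lit 3) (nat_lit 10))
    (@En.n l33668 (nat_lit 11677) (nat_lit 11) (nat_lit 5))
    (@En.n l12811 (nat_lit 11884) (nat_lit 5) (nat_lit 5))
    (@En.i (nat_lit 12463) (nat_lit 8) (nat_lit 8))
    (@En.n l33669 (nat_lit 12586) (nat_lit 1) (nat_lit 9))
    (@En.n l17070 (nat_lit 10509) (nat_lit 8) (nat_lit 4))
    (@En.n l33670 (nat_lit 11723) (nat_lit 5) (nat_lit 11))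
    (@En.i (nat_lit 10500) (nat_lit 1) (nat_lit 11))
    (@En.n l33671 (nat_lit 11744) (nat_lit 12) (nat_lit 6))
    (@En.n l33672 (nat_lit 11298) (nat_lit 13) (nat_lit 12))
    (@En.n l33673 (nat_lit 11718) (nat_lit 14) (nat_lit 6))
    (@En.n l33674 (nat_lit 11404) (nat_lit 5) (nat_lit 8))
    (@En.n l30382 (nat_lit 11717) (nat_lit 15) (nat_lit 3))))
  (@Cl.mk (nat_lit 0x300080006000c0005000b000b0004000a000800050005000a000d0006000b) (nat_lit 0x409084062002602) (nat_lit 16) Lb.e (@T16.mk En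
    (@En.n l8469 (nat_lit 12682) (nat_lit 0) (nat_lit 11))
    (@En.n l28 (nat_lit 9332) (nat_lit 8) (nat_lit 6))
    (@En.n l3039 (nat_lit 11313) (nat_lit 5) (nat_lit 13))
    (@En.n l899 (nat_lit 11150) (nat_lit 3) (nat_lit 10))
    (@En.n l152 (nat_lit 11681) (nat_lit 11) (nat_lit 5))
    (@En.n l32172 (nat_lit 11883) (nat_lit 5) (nat_lit 5))
    (@En.i (nat_lit 12461) (nat_lit 6) (nat_lit 8))
    (@En.n l617 (nat_lit 12194) (nat_lit 1) (nat_lit 10))
    (@En.n l2125 (nat_lit 11957) (nat_lit 8) (nat_lit 4))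
    (@En.n l3536 (nat_lit 11721) (nat_lit 5) (nat_lit 11))
    (@En.n l24529 (nat_lit 10502) (nat_lit 11) (nat_lit 11))
    (@En.i (nat_lit 11803) (nat_lit 12) (nat_lit 5))
    (@En.n l40933 (nat_lit 11301) (nat_lit 13) (nat_lit 12))
    (@En.n l28 (nat_lit 11719) (nat_lit 14) (nat_lit 6))
    (@En.n l77 (nat_lit 11720) (nat_lit 12) (nat_lit 8))
    (@En.n l17912 (nat_lit 11716) (nat_lit 15) (nat_lit 3))))
  (@Cl.mk (nat_lit 0x30006000c0005000b000b00040008000c00050005000a0004000d000b0008) (nat_lit 0x90330460020782) (nat_lit 16) Lb.e (@T16.mk En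
    (@En.n l33245 (nat_lit 10354) (nat_lit 0) (nat_lit 8))
    (@En.n l601 (nat_lit 11778) (nat_lit 14) (nat_lit 11))
    (@En.n l33246 (nat_lit 11716) (nat_lit 2) (nat_lit 13))
    (@En.n l23411 (nat_lit 11727) (nat_lit 3) (nat_lit 4))
    (@En.n l33247 (nat_lit 11111) (nat_lit 4) (nat_lit 10))
    (@En.n l24527 (nat_lit 11680) (nat_lit 11) (nat_lit 5))
    (@En.n l33248 (nat_lit 11885) (nat_lit 6) (nat_lit 5))
    (@En.i (nat_lit 7267) (nat_lit 7) (nat_lit 12))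
    (@En.n l33249 (nat_lit 12584) (nat_lit 11) (nat_lit 8))
    (@En.n l33250 (nat_lit 11958) (nat_lit 9) (nat_lit 4))
    (@En.n l24532 (nat_lit 11722) (nat_lit 5) (nat_lit 11))
    (@En.n l33251 (nat_lit 10495) (nat_lit 12) (nat_lit 11))
    (@En.n l8050 (nat_lit 11743) (nat_lit 13) (nat_lit 5))
    (@En.n l33252 (nat_lit 12059) (nat_lit 14) (nat_lit 12))
    (@En.n l345 (nat_lit 8054) (nat_lit 12) (nat_lit 6))
    (@En.n l77 (nat_lit 11719) (nat_lit 15) (nat_lit 3))))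
  (@Cl.mk (nat_lit 0x30006000c0004000b000b00040009000c00050005000a0004000d0007000c) (nat_lit 0x90230660020708) (nat_lit 16) Lb.e (@T16.mk En
    (@En.n l725 (nat_lit 12683) (nat_lit 0) (nat_lit 12))
    (@En.i (nat_lit 11720) (nat_lit 14) (nat_lit 7))
    (@En.i (nat_lit 11717) (nat_lit 2) (nat_lit 13))
    (@En.i (nat_lit 11741) (nat_lit 3) (nat_lit 4))
    (@En.n l899 (nat_lit 11149) (nat_lit 4) (nat_lit 10))
    (@En.n l152 (nat_lit 11682) (nat_lit 11) (nat_lit 5))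
    (@En.i (nat_lit 11882) (nat_lit 6) (nat_lit 5))
    (@En.i (nat_lit 7266) (nat_lit 6) (nat_lit 12))
    (@En.n l617 (nat_lit 12195) (nat_lit 1) (nat_lit 9))
    (@En.n l2125 (nat_lit 11955) (nat_lit 9) (nat_lit 4))
    (@En.n l3536 (nat_lit 10761) (nat_lit 5) (nat_lit 11))
    (@En.n l5646 (nat_lit 10493) (nat_lit 12) (nat_lit 11))
    (@En.i (nat_lit 10759) (nat_lit 13) (nat_lit 4))
    (@En.n l14297 (nat_lit 12058) (nat_lit 0) (nat_lit 12))
    (@En.i (nat_lit 7791) (nat_lit 12) (nat_lit 6))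
    (@En.n l4172 (nat_lit 11718) (nat_lit 15) (nat_lit 3))))
  (@Cl.mk (nat_lit 0x40007000c00080005000c0004000a000a000400090008000c00060006000b) (nat_lit 0x33020260757003) (nat_lit 16) Lb.e (@T16.mk En
    (@En.n l899 (nat_lit 11151) (nat_lit 0) (nat_lit 11))
    (@En.n l152 (nat_lit 12260) (nat_lit 10) (nat_lit 6))
    (@En.i (nat_lit 9725) (nat_lit 8) (nat_lit 6))
    (@En.n l7 (nat_lit 11719) (nat_lit 7) (nat_lit 12))
    (@En.n l7 (nat_lit 11718) (nat_lit 8) (nat_lit 8))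
    (@En.n l617 (nat_lit 12196) (nat_lit 11) (nat_lit 9))
    (@En.n l2125 (nat_lit 11956) (nat_lit 6) (nat_lit 4))
    (@En.n l3536 (nat_lit 11724) (nat_lit 6) (nat_lit 10))
    (@En.n l5646 (nat_lit 10494) (nat_lit 1) (nat_lit 10))
    (@En.i (nat_lit 11802) (nat_lit 9) (nat_lit 4))
    (@En.n l14297 (nat_lit 12057) (nat_lit 0) (nat_lit 12))
    (@En.n l3506 (nat_lit 5691) (nat_lit 1) (nat_lit 5))
    (@En.i (nat_lit 10353) (nat_lit 13) (nat_lit 8))
    (@En.n l37176 (nat_lit 11875) (nat_lit 8) (nat_lit 12))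
    (@En.n l8434 (nat_lit 9331) (nat_lit 11) (nat_lit 7))
    (@En.i (nat_lit 11740) (nat_lit 15) (nat_lit 4))))
  (@Cl.mk (nat_lit 0x2000a000d0007000b000300090006000d0005000b000300090007000e0005) (nat_lit 0x360607080305090) (nat_lit 16) Lb.e (@T16.mk En
    (@En.n l3098 (nat_lit 11717) (nat_lit 5) (nat_lit 5))
    (@En.i (nat_lit 6657) (nat_lit 1) (nat_lit 14))
    (@En.n l31923 (nat_lit 7891) (nat_lit 2) (nat_lit 7))
    (@En.n l40073 (nat_lit 12193) (nat_lit 3) (nat_lit 9))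
    (@En.i (nat_lit 7946) (nat_lit 4) (nat_lit 3))
    (@En.n l30442 (nat_lit 11522) (nat_lit 0) (nat_lit 11))
    (@En.i (nat_lit 10755) (nat_lit 6) (nat_lit 5))
    (@En.n l1638 (nat_lit 11299) (nat_lit 8) (nat_lit 13))
    (@En.n l107 (nat_lit 10761) (nat_lit 8) (nat_lit 6))
    (@En.n l575 (nat_lit 11724) (nat_lit 10) (nat_lit 9))
    (@En.n l16544 (nat_lit 11723) (nat_lit 10) (nat_lit 3))
    (@En.n l31923 (nat_lit 12620) (nat_lit 0) (nat_lit 11))
    (@En.n l107 (nat_lit 11512) (nat_lit 13) (nat_lit 7))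
    (@En.n l3839 (nat_lit 7938) (nat_lit 14) (nat_lit 13))
    (@En.n l2125 (nat_lit 11760) (nat_lit 3) (nat_lit 10))
    (@En.n l17 (nat_lit 11721) (nat_lit 15) (nat_lit 2))))
  (@Cl.mk (nat_lit 0x2000a0005000d000b000900030006000d0005000b00030007000b000e0005) (nat_lit 0x406870080200550) (nat_lit 16) Lb.e (@T16.mk En
    (@En.n l24756 (nat_lit 11718) (nat_lit 6) (nat_lit 5))
    (@En.i (nat_lit 6856) (nat_lit 4) (nat_lit 14))
    (@En.i (nat_lit 4808) (nat_lit 2) (nat_lit 11))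
    (@En.n l513 (nat_lit 12046) (nat_lit 3) (nat_lit 7))
    (@En.i (nat_lit 11729) (nat_lit 4) (nat_lit 3))
    (@En.n l5234 (nat_lit 11525) (nat_lit 0) (nat_lit 11))
    (@En.n l2678 (nat_lit 10753) (nat_lit 6) (nat_lit 5))
    (@En.n l3815 (nat_lit 10943) (nat_lit 8) (nat_lit 13))
    (@En.n l810 (nat_lit 8047) (nat_lit 8) (nat_lit 6))
    (@En.n l28 (nat_lit 10761) (nat_lit 9) (nat_lit 3))
    (@En.i (nat_lit 11693) (nat_lit 0) (nat_lit 9))
    (@En.i (nat_lit 12812) (nat_lit 12) (nat_lit 11))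
    (@En.n l16544 (nat_lit 11723) (nat_lit 13) (nat_lit 13))
    (@En.n l5236 (nat_lit 11726) (nat_lit 14) (nat_lit 5))
    (@En.n l2125 (nat_lit 10362) (nat_lit 4) (nat_lit 10))
    (@En.n l17 (nat_lit 11722) (nat_lit 15) (nat_lit 2))))
  (@Cl.mk (nat_lit 0x2000a000d000a0008000300090006000d0006000b000300080007000e0005) (nat_lit 0x354603080702050) (nat_lit 16) Lb.e (@T16.mk En
    (@En.n l6324 (nat_lit 11716) (nat_lit 5) (nat_lit 5))
    (@En.n l31809 (nat_lit 6703) (nat_lit 1) (nat_lit 14))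
    (@En.n l5200 (nat_lit 12125) (nat_lit 2) (nat_lit 7))
    (@En.n l77 (nat_lit 12587) (nat_lit 3) (nat_lit 8))
    (@En.i (nat_lit 11728) (nat_lit 4) (nat_lit 3))
    (@En.n l5200 (nat_lit 11524) (nat_lit 0) (nat_lit 11))
    (@En.n l20657 (nat_lit 10882) (nat_lit 6) (nat_lit 6))
    (@En.i (nat_lit 11296) (nat_lit 8) (nat_lit 13))
    (@En.n l24747 (nat_lit 11722) (nat_lit 8) (nat_lit 6))
    (@En.n l197 (nat_lit 12120) (nat_lit 10) (nat_lit 9))
    (@En.n l31814 (nat_lit 11721) (nat_lit 10) (nat_lit 3))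
    (@En.n l31815 (nat_lit 11691) (nat_lit 0) (nat_lit 8))
    (@En.n l40076 (nat_lit 11049) (nat_lit 13) (nat_lit 10))
    (@En.n l4547 (nat_lit 11314) (nat_lit 5) (nat_lit 13))
    (@En.n l5200 (nat_lit 10361) (nat_lit 3) (nat_lit 10))
    (@En.n l17 (nat_lit 11723) (nat_lit 15) (nat_lit 2))))
  (@Cl.mk (nat_lit 0x2000b00050008000c00090005000d0004000a000300080007000b000e0006) (nat_lit 0x303660705060790) (nat_lit 16) Lb.e (@T16.mk En
    (@En.n l3098 (nat_lit 11720) (nat_lit 2) (nat_lit 6))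
    (@En.i (nat_lit 8215) (nat_lit 4) (nat_lit 14))
    (@En.n l11 (nat_lit 10761) (nat_lit 2) (nat_lit 11))
    (@En.n l55 (nat_lit 11722) (nat_lit 3) (nat_lit 7))
    (@En.n l513 (nat_lit 5677) (nat_lit 4) (nat_lit 8))
    (@En.i (nat_lit 11732) (nat_lit 5) (nat_lit 3))
    (@En.n l4466 (nat_lit 11523) (nat_lit 0) (nat_lit 10))
    (@En.i (nat_lit 10756) (nat_lit 7) (nat_lit 4))
    (@En.n l1638 (nat_lit 12063) (nat_lit 9) (nat_lit 13))
    (@En.n l5732 (nat_lit 5685) (nat_lit 9) (nat_lit 5))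
    (@En.n l10675 (nat_lit 12105) (nat_lit 11) (nat_lit 9))
    (@En.n l2611 (nat_lit 12635) (nat_lit 12) (nat_lit 12))
    (@En.n l25907 (nat_lit 12820) (nat_lit 13) (nat_lit 8))
    (@En.i (nat_lit 11734) (nat_lit 14) (nat_lit 5))
    (@En.n l2125 (nat_lit 11759) (nat_lit 9) (nat_lit 11))
    (@En.n l17 (nat_lit 11724) (nat_lit 15) (nat_lit 2))))
  (@Cl.mk (nat_lit 0x20005000d0008000c00030009000d0004000a00030008000b0007000e0006) (nat_lit 0x73106702066090) (nat_lit 16) Lb.e (@T16.mk En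
    (@En.n l3098 (nat_lit 11741) (nat_lit 5) (nat_lit 6))
    (@En.n l3 (nat_lit 10761) (nat_lit 1) (nat_lit 14))
    (@En.n l527 (nat_lit 11721) (nat_lit 2) (nat_lit 7))
    (@En.i (nat_lit 7367) (nat_lit 3) (nat_lit 11))
    (@En.n l25927 (nat_lit 5676) (nat_lit 4) (nat_lit 8))
    (@En.n l3264 (nat_lit 11731) (nat_lit 5) (nat_lit 3))
    (@En.n l12226 (nat_lit 11526) (nat_lit 0) (nat_lit 10))
    (@En.i (nat_lit 10757) (nat_lit 7) (nat_lit 4))
    (@En.n l6647 (nat_lit 10938) (nat_lit 9) (nat_lit 13))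
    (@En.i (nat_lit 12141) (nat_lit 10) (nat_lit 9))
    (@En.n l5236 (nat_lit 11726) (nat_lit 10) (nat_lit 3))
    (@En.n l25928 (nat_lit 4040) (nat_lit 12) (nat_lit 12))
    (@En.i (nat_lit 11734) (nat_lit 13) (nat_lit 8))
    (@En.n l6650 (nat_lit 7945) (nat_lit 14) (nat_lit 13))
    (@En.n l3106 (nat_lit 11416) (nat_lit 13) (nat_lit 5))
    (@En.n l17 (nat_lit 11725) (nat_lit 15) (nat_lit 2))))
  (@Cl.mk (nat_lit 0x20005000d000b000900030009000d0005000a00030007000b0007000e0006) (nat_lit 0xb8707704006060) (nat_lit 16) Lb.e (@T16.mk En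
    (@En.n l117 (nat_lit 11727) (nat_lit 5) (nat_lit 6))
    (@En.n l13056 (nat_lit 11722) (nat_lit 1) (nat_lit 14))
    (@En.n l21659 (nat_lit 11723) (nat_lit 2) (nat_lit 7))
    (@En.n l9771 (nat_lit 7200) (nat_lit 3) (nat_lit 11))
    (@En.i (nat_lit 12039) (nat_lit 4) (nat_lit 7))
    (@En.n l25929 (nat_lit 11730) (nat_lit 5) (nat_lit 3))
    (@En.i (nat_lit 11528) (nat_lit 0) (nat_lit 10))
    (@En.n l25930 (nat_lit 7663) (nat_lit 7) (nat_lit 5))
    (@En.n l3858 (nat_lit 10939) (nat_lit 9) (nat_lit 13))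
    (@En.n l9771 (nat_lit 12032) (nat_lit 10) (nat_lit 9))
    (@En.n l13385 (nat_lit 11725) (nat_lit 10) (nat_lit 3))
    (@En.n l7 (nat_lit 11696) (nat_lit 12) (nat_lit 9))
    (@En.n l9771 (nat_lit 12811) (nat_lit 13) (nat_lit 11))
    (@En.n l644 (nat_lit 9931) (nat_lit 14) (nat_lit 13))
    (@En.n l16089 (nat_lit 11417) (nat_lit 13) (nat_lit 5))
    (@En.n l11 (nat_lit 11726) (nat_lit 15) (nat_lit 2))))
  (@Cl.mk (nat_lit 0x30008000c0005000a000a00040008000c0008000600060004000d000b0008) (nat_lit 0x620350593000772) (nat_lit 16) Lb.e (@T16.mk En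
    (@En.n l7 (nat_lit 10352) (nat_lit 0) (nat_lit 8))
    (@En.n l18223 (nat_lit 11093) (nat_lit 5) (nat_lit 11))
    (@En.n l644 (nat_lit 9934) (nat_lit 2) (nat_lit 13))
    (@En.n l18224 (nat_lit 10573) (nat_lit 3) (nat_lit 4))
    (@En.n l6689 (nat_lit 11685) (nat_lit 10) (nat_lit 6))
    (@En.n l18225 (nat_lit 10579) (nat_lit 5) (nat_lit 6))
    (@En.n l18226 (nat_lit 11716) (nat_lit 6) (nat_lit 8))
    (@En.n l18227 (nat_lit 7366) (nat_lit 7) (nat_lit 12))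
    (@En.n l18228 (nat_lit 12038) (nat_lit 11) (nat_lit 8))
    (@En.n l18229 (nat_lit 11954) (nat_lit 9) (nat_lit 4))
    (@En.n l619 (nat_lit 11726) (nat_lit 6) (nat_lit 10))
    (@En.i (nat_lit 10489) (nat_lit 1) (nat_lit 10))
    (@En.n l18230 (nat_lit 11742) (nat_lit 13) (nat_lit 5))
    (@En.n l18231 (nat_lit 12007) (nat_lit 7) (nat_lit 12))
    (@En.n l18232 (nat_lit 12020) (nat_lit 4) (nat_lit 8))
    (@En.n l18233 (nat_lit 11741) (nat_lit 15) (nat_lit 3))))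
noncomputable def a733 : T16 Cl := @T16.mk Cl
  (@Cl.mk (nat_lit 0x2000a000d00090008000300090006000d000a0007000300080007000e0006) (nat_lit 0x473603096002030) (nat_lit 16) Lb.e (@T16.mk En
    (@En.n l21800 (nat_lit 11673) (nat_lit 5) (nat_lit 6))
    (@En.n l31809 (nat_lit 6707) (nat_lit 1) (nat_lit 14))
    (@En.n l6569 (nat_lit 12126) (nat_lit 2) (nat_lit 7))
    (@En.n l31810 (nat_lit 11372) (nat_lit 3) (nat_lit 8))
    (@En.n l50 (nat_lit 11723) (nat_lit 4) (nat_lit 3))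
    (@En.n l31811 (nat_lit 12843) (nat_lit 0) (nat_lit 7))
    (@En.n l31812 (nat_lit 8786) (nat_lit 12) (nat_lit 10))
    (@En.i (nat_lit 11297) (nat_lit 8) (nat_lit 13))
    (@En.n l24747 (nat_lit 11729) (nat_lit 8) (nat_lit 6))
    (@En.n l31813 (nat_lit 8044) (nat_lit 10) (nat_lit 9))
    (@En.n l31814 (nat_lit 7946) (nat_lit 10) (nat_lit 3))
    (@En.n l31815 (nat_lit 11689) (nat_lit 0) (nat_lit 8))
    (@En.n l31816 (nat_lit 11052) (nat_lit 13) (nat_lit 9))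
    (@En.n l4547 (nat_lit 7940) (nat_lit 14) (nat_lit 13))
    (@En.n l31817 (nat_lit 10366) (nat_lit 3) (nat_lit 10))
    (@En.n l17 (nat_lit 11728) (nat_lit 15) (nat_lit 2))))
  (@Cl.mk (nat_lit 0x2000a0005000d000a000900030006000d000a000600030007000b000e0006) (nat_lit 0x408470095000630) (nat_lit 16) Lb.e (@T16.mk En
    (@En.n l3928 (nat_lit 11798) (nat_lit 6) (nat_lit 6))
    (@En.n l1490 (nat_lit 6710) (nat_lit 4) (nat_lit 14))
    (@En.i (nat_lit 4807) (nat_lit 2) (nat_lit 11))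
    (@En.n l612 (nat_lit 10760) (nat_lit 3) (nat_lit 7))
    (@En.n l50 (nat_lit 11722) (nat_lit 4) (nat_lit 3))
    (@En.n l5271 (nat_lit 12841) (nat_lit 0) (nat_lit 6))
    (@En.n l1490 (nat_lit 8785) (nat_lit 13) (nat_lit 10))
    (@En.n l16444 (nat_lit 8031) (nat_lit 8) (nat_lit 13))
    (@En.n l810 (nat_lit 8050) (nat_lit 8) (nat_lit 6))
    (@En.n l28 (nat_lit 10758) (nat_lit 9) (nat_lit 3))
    (@En.n l1163 (nat_lit 11692) (nat_lit 0) (nat_lit 9))
    (@En.i (nat_lit 11603) (nat_lit 12) (nat_lit 10))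
    (@En.n l16544 (nat_lit 11728) (nat_lit 13) (nat_lit 13))
    (@En.n l16443 (nat_lit 11730) (nat_lit 14) (nat_lit 5))
    (@En.n l3928 (nat_lit 10365) (nat_lit 4) (nat_lit 10))
    (@En.n l17 (nat_lit 11729) (nat_lit 15) (nat_lit 2))))
  (@Cl.mk (nat_lit 0x20005000d000a000900030009000d0009000600030007000b0007000e0007) (nat_lit 0x84607820006040) (nat_lit 16) Lb.e (@T16.mk En
    (@En.n l31818 (nat_lit 11473) (nat_lit 5) (nat_lit 7))
    (@En.n l6760 (nat_lit 11729) (nat_lit 1) (nat_lit 14))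
    (@En.n l16822 (nat_lit 11728) (nat_lit 2) (nat_lit 7))
    (@En.n l31587 (nat_lit 4810) (nat_lit 3) (nat_lit 11))
    (@En.n l31419 (nat_lit 11700) (nat_lit 4) (nat_lit 7))
    (@En.n l4739 (nat_lit 11726) (nat_lit 5) (nat_lit 3))
    (@En.n l8163 (nat_lit 12842) (nat_lit 6) (nat_lit 6))
    (@En.n l25675 (nat_lit 8787) (nat_lit 8) (nat_lit 9))
    (@En.i (nat_lit 8030) (nat_lit 9) (nat_lit 13))
    (@En.n l28764 (nat_lit 12031) (nat_lit 10) (nat_lit 9))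
    (@En.n l8163 (nat_lit 11731) (nat_lit 10) (nat_lit 3))
    (@En.n l644 (nat_lit 11694) (nat_lit 12) (nat_lit 9))
    (@En.n l5399 (nat_lit 11607) (nat_lit 13) (nat_lit 10))
    (@En.n l31819 (nat_lit 7947) (nat_lit 14) (nat_lit 13))
    (@En.i (nat_lit 11488) (nat_lit 13) (nat_lit 5))
    (@En.n l3 (nat_lit 11730) (nat_lit 15) (nat_lit 2))))
  (@Cl.mk (nat_lit 0x20005000d0008000b00030009000d0009000500030008000b0007000e0007) (nat_lit 0x83402820056090) (nat_lit 16) Lb.e (@T16.mk En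
    (@En.n l8800 (nat_lit 11737) (nat_lit 5) (nat_lit 7))
    (@En.n l3026 (nat_lit 10758) (nat_lit 1) (nat_lit 14))
    (@En.n l30951 (nat_lit 7946) (nat_lit 2) (nat_lit 7))
    (@En.n l33651 (nat_lit 7364) (nat_lit 3) (nat_lit 11))
    (@En.n l33652 (nat_lit 10757) (nat_lit 4) (nat_lit 8))
    (@En.n l33653 (nat_lit 11725) (nat_lit 5) (nat_lit 3))
    (@En.i (nat_lit 5277) (nat_lit 6) (nat_lit 5))
    (@En.n l7240 (nat_lit 9076) (nat_lit 8) (nat_lit 9))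
    (@En.i (nat_lit 10934) (nat_lit 9) (nat_lit 13))
    (@En.n l2228 (nat_lit 12142) (nat_lit 10) (nat_lit 9))
    (@En.n l11987 (nat_lit 11730) (nat_lit 10) (nat_lit 3))
    (@En.i (nat_lit 11367) (nat_lit 12) (nat_lit 11))
    (@En.n l15797 (nat_lit 11733) (nat_lit 13) (nat_lit 8))
    (@En.n l617 (nat_lit 7941) (nat_lit 14) (nat_lit 13))
    (@En.n l13365 (nat_lit 11486) (nat_lit 13) (nat_lit 5))
    (@En.n l3 (nat_lit 11731) (nat_lit 15) (nat_lit 2))))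
  (@Cl.mk (nat_lit 0x2000b00050008000b00090005000d00090005000300080007000b000e0007) (nat_lit 0x303470820060790) (nat_lit 16) Lb.e (@T16.mk En
    (@En.n l3928 (nat_lit 11801) (nat_lit 2) (nat_lit 7))
    (@En.n l430 (nat_lit 8216) (nat_lit 4) (nat_lit 14))
    (@En.n l11 (nat_lit 10758) (nat_lit 2) (nat_lit 11))
    (@En.n l55 (nat_lit 11729) (nat_lit 3) (nat_lit 7))
    (@En.n l612 (nat_lit 10756) (nat_lit 4) (nat_lit 8))
    (@En.n l50 (nat_lit 11724) (nat_lit 5) (nat_lit 3))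
    (@En.n l24027 (nat_lit 5233) (nat_lit 0) (nat_lit 5))
    (@En.n l217 (nat_lit 9075) (nat_lit 8) (nat_lit 9))
    (@En.n l37248 (nat_lit 12318) (nat_lit 9) (nat_lit 13))
    (@En.n l5732 (nat_lit 5686) (nat_lit 9) (nat_lit 5))
    (@En.n l430 (nat_lit 11671) (nat_lit 11) (nat_lit 9))
    (@En.n l37249 (nat_lit 7665) (nat_lit 7) (nat_lit 11))
    (@En.n l24027 (nat_lit 12819) (nat_lit 13) (nat_lit 8))
    (@En.n l12228 (nat_lit 11733) (nat_lit 14) (nat_lit 5))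
    (@En.n l3928 (nat_lit 11757) (nat_lit 9) (nat_lit 11))
    (@En.n l17 (nat_lit 11732) (nat_lit 15) (nat_lit 2))))
  (@Cl.mk (nat_lit 0x200050008000b00090008000d00080005000300080007000b0008000e0008) (nat_lit 0x256572006075a5) (nat_lit 16) Lb.e (@T16.mk En
    (@En.i (nat_lit 11736) (nat_lit 1) (nat_lit 8))
    (@En.n l8826 (nat_lit 11732) (nat_lit 1) (nat_lit 14))
    (@En.n l15110 (nat_lit 11510) (nat_lit 2) (nat_lit 8))
    (@En.n l10937 (nat_lit 11731) (nat_lit 3) (nat_lit 11))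
    (@En.n l6752 (nat_lit 11730) (nat_lit 4) (nat_lit 7))
    (@En.n l6751 (nat_lit 11735) (nat_lit 5) (nat_lit 8))
    (@En.n l25445 (nat_lit 11734) (nat_lit 6) (nat_lit 3))
    (@En.n l11 (nat_lit 5235) (nat_lit 7) (nat_lit 5))
    (@En.n l25446 (nat_lit 9077) (nat_lit 9) (nat_lit 8))
    (@En.i (nat_lit 12317) (nat_lit 10) (nat_lit 13))
    (@En.n l16079 (nat_lit 12144) (nat_lit 11) (nat_lit 8))
    (@En.n l134 (nat_lit 12288) (nat_lit 12) (nat_lit 9))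
    (@En.i (nat_lit 7659) (nat_lit 13) (nat_lit 11))
    (@En.n l16079 (nat_lit 7490) (nat_lit 14) (nat_lit 8))
    (@En.i (nat_lit 11484) (nat_lit 13) (nat_lit 5))
    (@En.n l3 (nat_lit 11733) (nat_lit 15) (nat_lit 2))))
  (@Cl.mk (nat_lit 0x200050008000c00090008000d00040009000300080007000b0008000e0007) (nat_lit 0x2a6560506074a0) (nat_lit 16) Lb.e (@T16.mk En
    (@En.n l3098 (nat_lit 11740) (nat_lit 1) (nat_lit 7))
    (@En.n l3 (nat_lit 11724) (nat_lit 1) (nat_lit 14))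
    (@En.i (nat_lit 11512) (nat_lit 2) (nat_lit 8))
    (@En.n l11 (nat_lit 11725) (nat_lit 3) (nat_lit 11))
    (@En.n l12226 (nat_lit 11726) (nat_lit 4) (nat_lit 7))
    (@En.n l12227 (nat_lit 5674) (nat_lit 5) (nat_lit 8))
    (@En.n l12228 (nat_lit 11733) (nat_lit 6) (nat_lit 3))
    (@En.n l12226 (nat_lit 11527) (nat_lit 0) (nat_lit 9))
    (@En.n l12229 (nat_lit 11735) (nat_lit 8) (nat_lit 4))
    (@En.n l12230 (nat_lit 12316) (nat_lit 10) (nat_lit 13))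
    (@En.n l12231 (nat_lit 12146) (nat_lit 11) (nat_lit 8))
    (@En.n l1732 (nat_lit 12289) (nat_lit 12) (nat_lit 9))
    (@En.n l12228 (nat_lit 12652) (nat_lit 13) (nat_lit 12))
    (@En.n l12232 (nat_lit 7491) (nat_lit 14) (nat_lit 8))
    (@En.n l3106 (nat_lit 11418) (nat_lit 13) (nat_lit 5))
    (@En.n l17 (nat_lit 11734) (nat_lit 15) (nat_lit 2))))
  (@Cl.mk (nat_lit 0x200050008000c000b000a000900040009000500080006000b0007000e0007) (nat_lit 0x286720205060b0) (nat_lit 16) Lb.e (@T16.mk En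
    (@En.i (nat_lit 11738) (nat_lit 1) (nat_lit 7))
    (@En.n l6555 (nat_lit 10756) (nat_lit 1) (nat_lit 14))
    (@En.n l13484 (nat_lit 11509) (nat_lit 2) (nat_lit 7))
    (@En.n l25931 (nat_lit 10757) (nat_lit 3) (nat_lit 11))
    (@En.n l50 (nat_lit 7663) (nat_lit 4) (nat_lit 6))
    (@En.n l11 (nat_lit 5670) (nat_lit 5) (nat_lit 8))
    (@En.i (nat_lit 5236) (nat_lit 6) (nat_lit 5))
    (@En.n l13484 (nat_lit 9078) (nat_lit 8) (nat_lit 9))
    (@En.n l16808 (nat_lit 12814) (nat_lit 8) (nat_lit 4))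
    (@En.n l9762 (nat_lit 12233) (nat_lit 10) (nat_lit 9))
    (@En.n l134 (nat_lit 10985) (nat_lit 11) (nat_lit 10))
    (@En.n l8323 (nat_lit 11733) (nat_lit 12) (nat_lit 11))
    (@En.n l19776 (nat_lit 12073) (nat_lit 13) (nat_lit 12))
    (@En.n l25932 (nat_lit 7489) (nat_lit 14) (nat_lit 8))
    (@En.i (nat_lit 11483) (nat_lit 13) (nat_lit 5))
    (@En.n l3 (nat_lit 11735) (nat_lit 15) (nat_lit 2))))
  (@Cl.mk (nat_lit 0x40007000a00080007000c000800080006000400090008000c000900080008) (nat_lit 0x45031300768546) (nat_lit 16) Lb.e (@T16.mk En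
    (@En.n l3536 (nat_lit 12227) (nat_lit 8) (nat_lit 8))
    (@En.n l37259 (nat_lit 10841) (nat_lit 1) (nat_lit 8))
    (@En.n l15110 (nat_lit 9329) (nat_lit 12) (nat_lit 9))
    (@En.n l36574 (nat_lit 11737) (nat_lit 7) (nat_lit 12))
    (@En.n l37259 (nat_lit 11473) (nat_lit 8) (nat_lit 8))
    (@En.n l6751 (nat_lit 11738) (nat_lit 5) (nat_lit 9))
    (@En.n l37260 (nat_lit 11740) (nat_lit 6) (nat_lit 4))
    (@En.n l3535 (nat_lit 9954) (nat_lit 0) (nat_lit 6))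
    (@En.n l152 (nat_lit 11733) (nat_lit 8) (nat_lit 8))
    (@En.n l37261 (nat_lit 8821) (nat_lit 10) (nat_lit 8))
    (@En.n l16710 (nat_lit 12020) (nat_lit 11) (nat_lit 12))
    (@En.n l16079 (nat_lit 10558) (nat_lit 9) (nat_lit 7))
    (@En.n l134 (nat_lit 10353) (nat_lit 5) (nat_lit 8))
    (@En.i (nat_lit 10882) (nat_lit 8) (nat_lit 10))
    (@En.n l16079 (nat_lit 5270) (nat_lit 11) (nat_lit 7))
    (@En.n l31337 (nat_lit 10842) (nat_lit 15) (nat_lit 4))))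
  (@Cl.mk (nat_lit 0x30008000c00090009000600040009000c0008000700070004000d0007000a) (nat_lit 0x131300776000803) (nat_lit 16) Lb.e (@T16.mk En
    (@En.n l1060 (nat_lit 11365) (nat_lit 0) (nat_lit 10))
    (@En.n l29136 (nat_lit 11736) (nat_lit 14) (nat_lit 7))
    (@En.n l23419 (nat_lit 11323) (nat_lit 2) (nat_lit 13))
    (@En.n l11469 (nat_lit 10617) (nat_lit 3) (nat_lit 4))
    (@En.n l17135 (nat_lit 11683) (nat_lit 9) (nat_lit 7))
    (@En.i (nat_lit 11471) (nat_lit 9) (nat_lit 7))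
    (@En.n l40682 (nat_lit 11800) (nat_lit 6) (nat_lit 8))
    (@En.i (nat_lit 7362) (nat_lit 6) (nat_lit 12))
    (@En.n l11434 (nat_lit 11739) (nat_lit 9) (nat_lit 9))
    (@En.n l7646 (nat_lit 11741) (nat_lit 9) (nat_lit 4))
    (@En.n l1060 (nat_lit 9952) (nat_lit 0) (nat_lit 6))
    (@En.n l21103 (nat_lit 11731) (nat_lit 7) (nat_lit 9))
    (@En.n l17139 (nat_lit 8818) (nat_lit 13) (nat_lit 9))
    (@En.n l11472 (nat_lit 10927) (nat_lit 7) (nat_lit 12))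
    (@En.n l40683 (nat_lit 72) (nat_lit 4) (nat_lit 8))
    (@En.n l11434 (nat_lit 11473) (nat_lit 15) (nat_lit 3))))
  (@Cl.mk (nat_lit 0x40007000c000a00090008000400090009000600090007000c000800070007) (nat_lit 0x65710130607600) (nat_lit 16) Lb.e (@T16.mk En
    (@En.n l31116 (nat_lit 12226) (nat_lit 9) (nat_lit 7))
    (@En.n l31117 (nat_lit 11785) (nat_lit 1) (nat_lit 7))
    (@En.n l13484 (nat_lit 9330) (nat_lit 9) (nat_lit 8))
    (@En.n l31118 (nat_lit 11739) (nat_lit 8) (nat_lit 12))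
    (@En.n l31119 (nat_lit 11742) (nat_lit 9) (nat_lit 7))
    (@En.n l11 (nat_lit 5673) (nat_lit 9) (nat_lit 9))
    (@En.n l31120 (nat_lit 9956) (nat_lit 6) (nat_lit 6))
    (@En.n l152 (nat_lit 11735) (nat_lit 7) (nat_lit 9))
    (@En.n l13484 (nat_lit 8826) (nat_lit 11) (nat_lit 9))
    (@En.n l22524 (nat_lit 11091) (nat_lit 9) (nat_lit 4))
    (@En.n l9762 (nat_lit 54) (nat_lit 0) (nat_lit 8))
    (@En.n l31121 (nat_lit 12214) (nat_lit 1) (nat_lit 9))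
    (@En.n l8323 (nat_lit 11736) (nat_lit 13) (nat_lit 10))
    (@En.n l19776 (nat_lit 12001) (nat_lit 8) (nat_lit 12))
    (@En.n l31122 (nat_lit 5269) (nat_lit 11) (nat_lit 7))
    (@En.n l31123 (nat_lit 11943) (nat_lit 15) (nat_lit 4))))
  (@Cl.mk (nat_lit 0x400090004000a000a00060009000c0007000600060004000c0007000c000a) (nat_lit 0x201306600007074) (nat_lit 16) Lb.e (@T16.mk En
    (@En.n l9885 (nat_lit 11737) (nat_lit 0) (nat_lit 10))
    (@En.n l29529 (nat_lit 11810) (nat_lit 1) (nat_lit 12))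
    (@En.n l29530 (nat_lit 11738) (nat_lit 14) (nat_lit 7))
    (@En.n l11540 (nat_lit 11324) (nat_lit 3) (nat_lit 12))
    (@En.n l7430 (nat_lit 11942) (nat_lit 4) (nat_lit 4))
    (@En.n l14637 (nat_lit 12225) (nat_lit 10) (nat_lit 6))
    (@En.i (nat_lit 11786) (nat_lit 10) (nat_lit 6))
    (@En.n l29531 (nat_lit 11803) (nat_lit 7) (nat_lit 7))
    (@En.i (nat_lit 7368) (nat_lit 6) (nat_lit 12))
    (@En.n l3471 (nat_lit 9238) (nat_lit 9) (nat_lit 9))
    (@En.n l742 (nat_lit 9955) (nat_lit 5) (nat_lit 6))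
    (@En.n l14641 (nat_lit 10757) (nat_lit 6) (nat_lit 10))
    (@En.n l29532 (nat_lit 8823) (nat_lit 13) (nat_lit 10))
    (@En.n l29533 (nat_lit 11093) (nat_lit 15) (nat_lit 4))
    (@En.n l11546 (nat_lit 10558) (nat_lit 0) (nat_lit 9))
    (@En.i (nat_lit 11704) (nat_lit 1) (nat_lit 4))))
  (@Cl.mk (nat_lit 0x40007000c00080007000c000400090009000400090008000c000900070007) (nat_lit 0x91020260768400) (nat_lit 16) Lb.e (@T16.mk En
    (@En.n l8758 (nat_lit 12231) (nat_lit 9) (nat_lit 7))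
    (@En.n l25896 (nat_lit 11784) (nat_lit 1) (nat_lit 7))
    (@En.i (nat_lit 9332) (nat_lit 12) (nat_lit 9))
    (@En.n l7 (nat_lit 11741) (nat_lit 7) (nat_lit 12))
    (@En.n l25897 (nat_lit 11727) (nat_lit 8) (nat_lit 8))
    (@En.n l617 (nat_lit 9241) (nat_lit 11) (nat_lit 9))
    (@En.n l2125 (nat_lit 11952) (nat_lit 6) (nat_lit 4))
    (@En.n l3536 (nat_lit 11734) (nat_lit 7) (nat_lit 9))
    (@En.n l25897 (nat_lit 10488) (nat_lit 1) (nat_lit 9))
    (@En.n l25898 (nat_lit 11738) (nat_lit 9) (nat_lit 4))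
    (@En.n l25899 (nat_lit 12019) (nat_lit 0) (nat_lit 12))
    (@En.n l2491 (nat_lit 10560) (nat_lit 1) (nat_lit 7))
    (@En.n l25900 (nat_lit 45) (nat_lit 5) (nat_lit 8))
    (@En.n l25901 (nat_lit 11125) (nat_lit 8) (nat_lit 12))
    (@En.n l8757 (nat_lit 5271) (nat_lit 11) (nat_lit 7))
    (@En.n l3535 (nat_lit 10575) (nat_lit 15) (nat_lit 4))))
  (@Cl.mk (nat_lit 0x30008000c0004000a000a00040009000c0008000600060004000d0007000c) (nat_lit 0x180230673000507) (nat_lit 16) Lb.e (@T16.mk En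
    (@En.n l34023 (nat_lit 12685) (nat_lit 0) (nat_lit 12))
    (@En.i (nat_lit 11740) (nat_lit 14) (nat_lit 7))
    (@En.n l23411 (nat_lit 11328) (nat_lit 2) (nat_lit 13))
    (@En.n l3535 (nat_lit 10572) (nat_lit 3) (nat_lit 4))
    (@En.n l152 (nat_lit 11684) (nat_lit 10) (nat_lit 6))
    (@En.n l34024 (nat_lit 10578) (nat_lit 5) (nat_lit 6))
    (@En.n l55 (nat_lit 11717) (nat_lit 6) (nat_lit 8))
    (@En.i (nat_lit 7365) (nat_lit 6) (nat_lit 12))
    (@En.n l617 (nat_lit 9243) (nat_lit 11) (nat_lit 9))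
    (@En.n l2125 (nat_lit 11953) (nat_lit 9) (nat_lit 4))
    (@En.n l3536 (nat_lit 11725) (nat_lit 6) (nat_lit 10))
    (@En.n l34025 (nat_lit 10487) (nat_lit 1) (nat_lit 10))
    (@En.n l2938 (nat_lit 11739) (nat_lit 13) (nat_lit 4))
    (@En.n l25899 (nat_lit 12017) (nat_lit 7) (nat_lit 12))
    (@En.i (nat_lit 10559) (nat_lit 1) (nat_lit 8))
    (@En.n l7515 (nat_lit 11727) (nat_lit 15) (nat_lit 3))))
  (@Cl.mk (nat_lit 0x400090005000a000a00070007000c0007000600060004000c000b00090009) (nat_lit 0x302600500009651) (nat_lit 16) Lb.e (@T16.mk En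
    (@En.n l15003 (nat_lit 8110) (nat_lit 7) (nat_lit 9))
    (@En.n l936 (nat_lit 11473) (nat_lit 1) (nat_lit 9))
    (@En.n l55 (nat_lit 11703) (nat_lit 5) (nat_lit 11))
    (@En.n l15004 (nat_lit 11350) (nat_lit 3) (nat_lit 12))
    (@En.n l15005 (nat_lit 11940) (nat_lit 4) (nat_lit 4))
    (@En.n l15006 (nat_lit 11747) (nat_lit 10) (nat_lit 6))
    (@En.i (nat_lit 11025) (nat_lit 10) (nat_lit 6))
    (@En.n l15007 (nat_lit 11744) (nat_lit 7) (nat_lit 7))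
    (@En.i (nat_lit 7370) (nat_lit 8) (nat_lit 12))
    (@En.i (nat_lit 7661) (nat_lit 9) (nat_lit 7))
    (@En.n l742 (nat_lit 9959) (nat_lit 5) (nat_lit 7))
    (@En.n l15008 (nat_lit 7663) (nat_lit 6) (nat_lit 10))
    (@En.n l15009 (nat_lit 9315) (nat_lit 10) (nat_lit 10))
    (@En.n l15010 (nat_lit 11554) (nat_lit 8) (nat_lit 5))
    (@En.n l15011 (nat_lit 10747) (nat_lit 0) (nat_lit 9))
    (@En.n l11 (nat_lit 11739) (nat_lit 15) (nat_lit 4))))
  (@Cl.mk (nat_lit 0x400070005000b000b00070007000c0005000500090004000c000b00090009) (nat_lit 0x6600500309667) (nat_lit 16) Lb.e (@T16.mk En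
    (@En.n l29121 (nat_lit 11751) (nat_lit 7) (nat_lit 9))
    (@En.n l9885 (nat_lit 11798) (nat_lit 1) (nat_lit 9))
    (@En.n l55 (nat_lit 11706) (nat_lit 5) (nat_lit 11))
    (@En.n l29122 (nat_lit 11744) (nat_lit 3) (nat_lit 12))
    (@En.n l403 (nat_lit 11742) (nat_lit 4) (nat_lit 4))
    (@En.n l29123 (nat_lit 12215) (nat_lit 10) (nat_lit 9))
    (@En.n l18 (nat_lit 11745) (nat_lit 11) (nat_lit 5))
    (@En.n l29124 (nat_lit 11124) (nat_lit 7) (nat_lit 5))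
    (@En.i (nat_lit 8813) (nat_lit 0) (nat_lit 12))
    (@En.n l1867 (nat_lit 11755) (nat_lit 9) (nat_lit 7))
    (@En.n l29125 (nat_lit 9941) (nat_lit 2) (nat_lit 7))
    (@En.n l29126 (nat_lit 10753) (nat_lit 5) (nat_lit 11))
    (@En.n l29127 (nat_lit 9491) (nat_lit 13) (nat_lit 11))
    (@En.n l29128 (nat_lit 11558) (nat_lit 11) (nat_lit 5))
    (@En.n l14805 (nat_lit 10995) (nat_lit 11) (nat_lit 7))
    (@En.n l15273 (nat_lit 10759) (nat_lit 15) (nat_lit 4))))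
noncomputable def a734 : T16 Cl := @T16.mk Cl
  (@Cl.mk (nat_lit 0x4000900070006000b000b000800080007000500050009000c000a00080008) (nat_lit 0x300674400028533) (nat_lit 16) Lb.e (@T16.mk En
    (@En.n l2717 (nat_lit 11376) (nat_lit 8) (nat_lit 8))
    (@En.n l19309 (nat_lit 11673) (nat_lit 1) (nat_lit 8))
    (@En.n l29269 (nat_lit 10096) (nat_lit 6) (nat_lit 10))
    (@En.n l19309 (nat_lit 11338) (nat_lit 6) (nat_lit 12))
    (@En.n l29270 (nat_lit 12217) (nat_lit 10) (nat_lit 9))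
    (@En.n l29271 (nat_lit 11746) (nat_lit 11) (nat_lit 5))
    (@En.n l29272 (nat_lit 11125) (nat_lit 0) (nat_lit 5))
    (@En.i (nat_lit 9165) (nat_lit 9) (nat_lit 7))
    (@En.n l3532 (nat_lit 12624) (nat_lit 8) (nat_lit 8))
    (@En.n l7894 (nat_lit 9944) (nat_lit 2) (nat_lit 8))
    (@En.n l7895 (nat_lit 10882) (nat_lit 5) (nat_lit 11))
    (@En.i (nat_lit 9494) (nat_lit 9) (nat_lit 11))
    (@En.n l29272 (nat_lit 10930) (nat_lit 10) (nat_lit 6))
    (@En.n l29273 (nat_lit 11743) (nat_lit 14) (nat_lit 7))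
    (@En.n l29274 (nat_lit 6444) (nat_lit 11) (nat_lit 9))
    (@En.n l29275 (nat_lit 11803) (nat_lit 15) (nat_lit 4))))
  (@Cl.mk (nat_lit 0x200080008000d000500090003000c000b00080008000400070005000e000b) (nat_lit 0x224020555600087) (nat_lit 16) Lb.e (@T16.mk En
    (@En.n l396 (nat_lit 11743) (nat_lit 12) (nat_lit 11))
    (@En.n l1898 (nat_lit 956) (nat_lit 1) (nat_lit 14))
    (@En.n l14804 (nat_lit 12266) (nat_lit 2) (nat_lit 5))
    (@En.n l14805 (nat_lit 10996) (nat_lit 3) (nat_lit 7))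
    (@En.n l5760 (nat_lit 12229) (nat_lit 4) (nat_lit 4))
    (@En.n l1900 (nat_lit 11748) (nat_lit 8) (nat_lit 8))
    (@En.n l936 (nat_lit 11675) (nat_lit 6) (nat_lit 8))
    (@En.n l55 (nat_lit 11708) (nat_lit 8) (nat_lit 11))
    (@En.n l14806 (nat_lit 11746) (nat_lit 9) (nat_lit 12))
    (@En.n l14807 (nat_lit 11747) (nat_lit 9) (nat_lit 3))
    (@En.n l9654 (nat_lit 2447) (nat_lit 11) (nat_lit 9))
    (@En.i (nat_lit 12344) (nat_lit 12) (nat_lit 5))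
    (@En.i (nat_lit 8846) (nat_lit 13) (nat_lit 13))
    (@En.n l1867 (nat_lit 11752) (nat_lit 8) (nat_lit 8))
    (@En.n l14808 (nat_lit 11072) (nat_lit 4) (nat_lit 8))
    (@En.n l50 (nat_lit 11745) (nat_lit 15) (nat_lit 2))))
  (@Cl.mk (nat_lit 0x200090009000800050009000c000a000700070004000800070006000e000b) (nat_lit 0x564014400030017) (nat_lit 16) Lb.e (@T16.mk En
    (@En.n l14878 (nat_lit 11744) (nat_lit 11) (nat_lit 11))
    (@En.n l619 (nat_lit 951) (nat_lit 1) (nat_lit 14))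
    (@En.n l14879 (nat_lit 12513) (nat_lit 2) (nat_lit 6))
    (@En.n l14880 (nat_lit 11745) (nat_lit 3) (nat_lit 7))
    (@En.n l14879 (nat_lit 6442) (nat_lit 4) (nat_lit 8))
    (@En.n l14881 (nat_lit 12230) (nat_lit 5) (nat_lit 4))
    (@En.n l14882 (nat_lit 11750) (nat_lit 9) (nat_lit 7))
    (@En.n l14883 (nat_lit 11674) (nat_lit 7) (nat_lit 7))
    (@En.i (nat_lit 12274) (nat_lit 9) (nat_lit 10))
    (@En.n l10674 (nat_lit 12549) (nat_lit 6) (nat_lit 12))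
    (@En.n l2900 (nat_lit 2431) (nat_lit 11) (nat_lit 9))
    (@En.n l6978 (nat_lit 12345) (nat_lit 12) (nat_lit 5))
    (@En.n l14884 (nat_lit 9160) (nat_lit 13) (nat_lit 8))
    (@En.n l14885 (nat_lit 11753) (nat_lit 7) (nat_lit 9))
    (@En.n l14886 (nat_lit 11074) (nat_lit 2) (nat_lit 9))
    (@En.n l11 (nat_lit 11746) (nat_lit 15) (nat_lit 2))))
  (@Cl.mk (nat_lit 0x200080008000d000800060003000c000b00080008000400080005000e000a) (nat_lit 0x2235004545060a3) (nat_lit 16) Lb.e (@T16.mk En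
    (@En.n l6067 (nat_lit 11742) (nat_lit 12) (nat_lit 10))
    (@En.n l6068 (nat_lit 1416) (nat_lit 1) (nat_lit 14))
    (@En.n l7 (nat_lit 11559) (nat_lit 2) (nat_lit 5))
    (@En.n l2966 (nat_lit 12319) (nat_lit 3) (nat_lit 8))
    (@En.n l6069 (nat_lit 12225) (nat_lit 4) (nat_lit 4))
    (@En.n l152 (nat_lit 11749) (nat_lit 8) (nat_lit 8))
    (@En.n l6070 (nat_lit 11678) (nat_lit 6) (nat_lit 8))
    (@En.n l644 (nat_lit 11709) (nat_lit 8) (nat_lit 11))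
    (@En.n l3766 (nat_lit 7723) (nat_lit 9) (nat_lit 12))
    (@En.n l6071 (nat_lit 11745) (nat_lit 9) (nat_lit 3))
    (@En.n l6072 (nat_lit 12113) (nat_lit 0) (nat_lit 6))
    (@En.n l6073 (nat_lit 11746) (nat_lit 12) (nat_lit 8))
    (@En.n l6072 (nat_lit 8267) (nat_lit 13) (nat_lit 13))
    (@En.n l3065 (nat_lit 11754) (nat_lit 8) (nat_lit 8))
    (@En.n l6074 (nat_lit 11073) (nat_lit 4) (nat_lit 8))
    (@En.n l17 (nat_lit 11747) (nat_lit 15) (nat_lit 2))))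
  (@Cl.mk (nat_lit 0x2000d0006000a0003000d000c0008000300060004000e000a0002000e0008) (nat_lit 0x402055500073083) (nat_lit 16) Lb.e (@T16.mk En
    (@En.n l1532 (nat_lit 11745) (nat_lit 14) (nat_lit 8))
    (@En.n l23874 (nat_lit 11918) (nat_lit 1) (nat_lit 14))
    (@En.n l50 (nat_lit 11748) (nat_lit 2) (nat_lit 2))
    (@En.n l9375 (nat_lit 11751) (nat_lit 3) (nat_lit 10))
    (@En.i (nat_lit 1725) (nat_lit 1) (nat_lit 14))
    (@En.n l2394 (nat_lit 12525) (nat_lit 5) (nat_lit 4))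
    (@En.n l3559 (nat_lit 11059) (nat_lit 6) (nat_lit 6))
    (@En.n l11 (nat_lit 11713) (nat_lit 7) (nat_lit 3))
    (@En.n l3798 (nat_lit 12097) (nat_lit 0) (nat_lit 8))
    (@En.n l23875 (nat_lit 12571) (nat_lit 10) (nat_lit 12))
    (@En.n l3710 (nat_lit 11750) (nat_lit 11) (nat_lit 13))
    (@En.n l10245 (nat_lit 11749) (nat_lit 11) (nat_lit 3))
    (@En.n l3559 (nat_lit 2103) (nat_lit 0) (nat_lit 10))
    (@En.i (nat_lit 12346) (nat_lit 14) (nat_lit 6))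
    (@En.n l1531 (nat_lit 8864) (nat_lit 12) (nat_lit 13))
    (@En.n l3 (nat_lit 11748) (nat_lit 15) (nat_lit 2))))
  (@Cl.mk (nat_lit 0x2000d000900070003000d000c0008000300070004000e00090002000e0008) (nat_lit 0x460055400091083) (nat_lit 16) Lb.e (@T16.mk En
    (@En.i (nat_lit 11747) (nat_lit 14) (nat_lit 8))
    (@En.i (nat_lit 12069) (nat_lit 1) (nat_lit 14))
    (@En.n l17 (nat_lit 11749) (nat_lit 2) (nat_lit 2))
    (@En.n l15028 (nat_lit 8110) (nat_lit 3) (nat_lit 9))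
    (@En.i (nat_lit 1723) (nat_lit 1) (nat_lit 14))
    (@En.n l7 (nat_lit 12564) (nat_lit 5) (nat_lit 4))
    (@En.n l2966 (nat_lit 12340) (nat_lit 6) (nat_lit 7))
    (@En.n l7 (nat_lit 12569) (nat_lit 7) (nat_lit 3))
    (@En.n l1347 (nat_lit 12096) (nat_lit 0) (nat_lit 8))
    (@En.n l644 (nat_lit 12570) (nat_lit 10) (nat_lit 12))
    (@En.i (nat_lit 11356) (nat_lit 11) (nat_lit 13))
    (@En.n l7573 (nat_lit 11748) (nat_lit 11) (nat_lit 3))
    (@En.i (nat_lit 12394) (nat_lit 0) (nat_lit 7))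
    (@En.i (nat_lit 11750) (nat_lit 14) (nat_lit 9))
    (@En.n l14754 (nat_lit 8259) (nat_lit 12) (nat_lit 13))
    (@En.n l3 (nat_lit 11749) (nat_lit 15) (nat_lit 2))))
  (@Cl.mk (nat_lit 0x200090006000a000d000b00070003000700060005000e000a0002000e0009) (nat_lit 0x501440000022096) (nat_lit 16) Lb.e (@T16.mk En
    (@En.n l6073 (nat_lit 11746) (nat_lit 14) (nat_lit 9))
    (@En.n l10420 (nat_lit 11937) (nat_lit 1) (nat_lit 14))
    (@En.n l17 (nat_lit 11750) (nat_lit 2) (nat_lit 2))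
    (@En.n l10421 (nat_lit 11376) (nat_lit 3) (nat_lit 10))
    (@En.n l10422 (nat_lit 1727) (nat_lit 1) (nat_lit 14))
    (@En.n l10423 (nat_lit 12517) (nat_lit 5) (nat_lit 5))
    (@En.n l7551 (nat_lit 11748) (nat_lit 6) (nat_lit 6))
    (@En.n l2966 (nat_lit 6905) (nat_lit 7) (nat_lit 7))
    (@En.n l7553 (nat_lit 12568) (nat_lit 8) (nat_lit 3))
    (@En.n l10424 (nat_lit 12099) (nat_lit 0) (nat_lit 7))
    (@En.n l10424 (nat_lit 11643) (nat_lit 11) (nat_lit 11))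
    (@En.n l7475 (nat_lit 12552) (nat_lit 5) (nat_lit 13))
    (@En.n l10425 (nat_lit 2099) (nat_lit 13) (nat_lit 10))
    (@En.i (nat_lit 12347) (nat_lit 14) (nat_lit 6))
    (@En.n l10426 (nat_lit 7676) (nat_lit 12) (nat_lit 9))
    (@En.n l3 (nat_lit 11750) (nat_lit 15) (nat_lit 2))))
  (@Cl.mk (nat_lit 0x2000c00060006000a0004000d000c0009000300060004000a000a000e0007) (nat_lit 0x600306860002770) (nat_lit 16) Lb.e (@T16.mk En
    (@En.n l16122 (nat_lit 11743) (nat_lit 10) (nat_lit 7))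
    (@En.n l9397 (nat_lit 11912) (nat_lit 1) (nat_lit 14))
    (@En.n l11130 (nat_lit 11375) (nat_lit 6) (nat_lit 10))
    (@En.n l38885 (nat_lit 7468) (nat_lit 3) (nat_lit 10))
    (@En.n l117 (nat_lit 12256) (nat_lit 4) (nat_lit 4))
    (@En.n l20916 (nat_lit 12253) (nat_lit 5) (nat_lit 6))
    (@En.n l25202 (nat_lit 11377) (nat_lit 6) (nat_lit 3))
    (@En.n l38885 (nat_lit 11698) (nat_lit 0) (nat_lit 9))
    (@En.n l30513 (nat_lit 11707) (nat_lit 9) (nat_lit 12))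
    (@En.n l21614 (nat_lit 11376) (nat_lit 10) (nat_lit 13))
    (@En.n l21100 (nat_lit 8110) (nat_lit 10) (nat_lit 4))
    (@En.i (nat_lit 11624) (nat_lit 12) (nat_lit 10))
    (@En.n l20912 (nat_lit 11748) (nat_lit 13) (nat_lit 6))
    (@En.n l9110 (nat_lit 12271) (nat_lit 14) (nat_lit 6))
    (@En.n l38886 (nat_lit 8805) (nat_lit 8) (nat_lit 12))
    (@En.n l7 (nat_lit 11751) (nat_lit 15) (nat_lit 2))))
  (@Cl.mk (nat_lit 0x2000500080006000e000c00020008000d000400080003000b000a000e0008) (nat_lit 0x50150130209546) (nat_lit 16) Lb.e (@T16.mk En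
    (@En.n l2869 (nat_lit 11745) (nat_lit 6) (nat_lit 8))
    (@En.n l476 (nat_lit 12628) (nat_lit 8) (nat_lit 14))
    (@En.n l5994 (nat_lit 12631) (nat_lit 9) (nat_lit 10))
    (@En.n l2089 (nat_lit 11753) (nat_lit 3) (nat_lit 11))
    (@En.i (nat_lit 11754) (nat_lit 4) (nat_lit 3))
    (@En.n l4817 (nat_lit 2450) (nat_lit 5) (nat_lit 8))
    (@En.i (nat_lit 12327) (nat_lit 6) (nat_lit 4))
    (@En.i (nat_lit 3889) (nat_lit 8) (nat_lit 13))
    (@En.n l5276 (nat_lit 10548) (nat_lit 9) (nat_lit 8))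
    (@En.n l11 (nat_lit 11752) (nat_lit 9) (nat_lit 2))
    (@En.n l1578 (nat_lit 11755) (nat_lit 11) (nat_lit 12))
    (@En.n l897 (nat_lit 423) (nat_lit 12) (nat_lit 14))
    (@En.n l2089 (nat_lit 12757) (nat_lit 13) (nat_lit 6))
    (@En.n l476 (nat_lit 12779) (nat_lit 3) (nat_lit 8))
    (@En.n l899 (nat_lit 9231) (nat_lit 4) (nat_lit 5))
    (@En.n l17 (nat_lit 11752) (nat_lit 15) (nat_lit 2))))
  (@Cl.mk (nat_lit 0x20005000900080007000e000c00020009000700040008000b0009000e0007) (nat_lit 0x26036050028490) (nat_lit 16) Lb.e (@T16.mk En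
    (@En.n l6021 (nat_lit 11746) (nat_lit 7) (nat_lit 7))
    (@En.n l6022 (nat_lit 12627) (nat_lit 9) (nat_lit 14))
    (@En.n l4272 (nat_lit 10101) (nat_lit 10) (nat_lit 9))
    (@En.n l4272 (nat_lit 12548) (nat_lit 3) (nat_lit 11))
    (@En.n l4272 (nat_lit 2128) (nat_lit 4) (nat_lit 8))
    (@En.n l6023 (nat_lit 12636) (nat_lit 5) (nat_lit 4))
    (@En.i (nat_lit 7170) (nat_lit 6) (nat_lit 7))
    (@En.n l6024 (nat_lit 11948) (nat_lit 8) (nat_lit 9))
    (@En.n l3 (nat_lit 11753) (nat_lit 8) (nat_lit 2))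
    (@En.n l4037 (nat_lit 12624) (nat_lit 10) (nat_lit 12))
    (@En.n l6025 (nat_lit 948) (nat_lit 11) (nat_lit 14))
    (@En.i (nat_lit 8165) (nat_lit 12) (nat_lit 7))
    (@En.n l6026 (nat_lit 11752) (nat_lit 13) (nat_lit 8))
    (@En.i (nat_lit 7963) (nat_lit 4) (nat_lit 9))
    (@En.n l6027 (nat_lit 9227) (nat_lit 13) (nat_lit 5))
    (@En.n l50 (nat_lit 11753) (nat_lit 15) (nat_lit 2))))
  (@Cl.mk (nat_lit 0x2000500090006000e000b00020008000d000700050003000b000a000e0008) (nat_lit 0x501101200055a5) (nat_lit 16) Lb.e (@T16.mk En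
    (@En.n l2082 (nat_lit 11747) (nat_lit 6) (nat_lit 8))
    (@En.n l476 (nat_lit 12629) (nat_lit 8) (nat_lit 14))
    (@En.n l2083 (nat_lit 12632) (nat_lit 9) (nat_lit 10))
    (@En.n l2084 (nat_lit 12546) (nat_lit 3) (nat_lit 11))
    (@En.n l7 (nat_lit 11752) (nat_lit 4) (nat_lit 3))
    (@En.n l2085 (nat_lit 12118) (nat_lit 5) (nat_lit 5))
    (@En.n l2086 (nat_lit 11753) (nat_lit 6) (nat_lit 7))
    (@En.i (nat_lit 3888) (nat_lit 8) (nat_lit 13))
    (@En.n l1559 (nat_lit 10541) (nat_lit 9) (nat_lit 8))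
    (@En.n l11 (nat_lit 11754) (nat_lit 9) (nat_lit 2))
    (@En.n l2087 (nat_lit 7661) (nat_lit 11) (nat_lit 11))
    (@En.n l2088 (nat_lit 417) (nat_lit 12) (nat_lit 14))
    (@En.n l2089 (nat_lit 12758) (nat_lit 13) (nat_lit 6))
    (@En.n l2090 (nat_lit 12306) (nat_lit 3) (nat_lit 9))
    (@En.n l899 (nat_lit 9237) (nat_lit 4) (nat_lit 5))
    (@En.n l17 (nat_lit 11754) (nat_lit 15) (nat_lit 2))))
  (@Cl.mk (nat_lit 0x2000500080006000c000c0007000c0004000400080004000b000a000e0009) (nat_lit 0x30460400309627) (nat_lit 16) Lb.e (@T16.mk En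
    (@En.n l2869 (nat_lit 11743) (nat_lit 1) (nat_lit 9))
    (@En.n l476 (nat_lit 12626) (nat_lit 1) (nat_lit 14))
    (@En.n l14814 (nat_lit 11067) (nat_lit 2) (nat_lit 10))
    (@En.n l14815 (nat_lit 12624) (nat_lit 3) (nat_lit 11))
    (@En.n l11263 (nat_lit 7661) (nat_lit 4) (nat_lit 4))
    (@En.n l1599 (nat_lit 10984) (nat_lit 5) (nat_lit 8))
    (@En.n l28 (nat_lit 11752) (nat_lit 6) (nat_lit 4))
    (@En.n l9026 (nat_lit 12320) (nat_lit 7) (nat_lit 4))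
    (@En.i (nat_lit 3075) (nat_lit 9) (nat_lit 12))
    (@En.n l14816 (nat_lit 10839) (nat_lit 10) (nat_lit 7))
    (@En.n l14817 (nat_lit 7658) (nat_lit 11) (nat_lit 12))
    (@En.n l14818 (nat_lit 9500) (nat_lit 12) (nat_lit 12))
    (@En.n l11647 (nat_lit 11066) (nat_lit 13) (nat_lit 6))
    (@En.n l476 (nat_lit 12089) (nat_lit 14) (nat_lit 8))
    (@En.n l14819 (nat_lit 9235) (nat_lit 13) (nat_lit 5))
    (@En.n l17 (nat_lit 11755) (nat_lit 15) (nat_lit 2))))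
  (@Cl.mk (nat_lit 0x300060009000d000a000600030009000c00070006000a0004000d0007000a) (nat_lit 0x39100740020804) (nat_lit 16) Lb.e (@T16.mk En
    (@En.n l5376 (nat_lit 12600) (nat_lit 0) (nat_lit 10))
    (@En.i (nat_lit 11757) (nat_lit 7) (nat_lit 7))
    (@En.i (nat_lit 11279) (nat_lit 2) (nat_lit 13))
    (@En.n l8501 (nat_lit 10519) (nat_lit 3) (nat_lit 4))
    (@En.n l16911 (nat_lit 10549) (nat_lit 4) (nat_lit 10))
    (@En.i (nat_lit 11761) (nat_lit 5) (nat_lit 6))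
    (@En.i (nat_lit 10840) (nat_lit 6) (nat_lit 7))
    (@En.i (nat_lit 5624) (nat_lit 6) (nat_lit 12))
    (@En.n l4819 (nat_lit 9849) (nat_lit 9) (nat_lit 9))
    (@En.n l3536 (nat_lit 11758) (nat_lit 9) (nat_lit 3))
    (@En.n l12290 (nat_lit 6560) (nat_lit 0) (nat_lit 6))
    (@En.n l68 (nat_lit 7552) (nat_lit 12) (nat_lit 10))
    (@En.n l3866 (nat_lit 9661) (nat_lit 13) (nat_lit 13))
    (@En.n l11472 (nat_lit 11731) (nat_lit 9) (nat_lit 9))
    (@En.i (nat_lit 7839) (nat_lit 12) (nat_lit 6))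
    (@En.i (nat_lit 10365) (nat_lit 15) (nat_lit 3))))
  (@Cl.mk (nat_lit 0x300090008000c00080007000b00040007000a000800050008000d00090006) (nat_lit 0x765602003406810) (nat_lit 16) Lb.e (@T16.mk En
    (@En.n l29135 (nat_lit 6924) (nat_lit 0) (nat_lit 6))
    (@En.n l68 (nat_lit 7553) (nat_lit 9) (nat_lit 9))
    (@En.n l3866 (nat_lit 9663) (nat_lit 2) (nat_lit 13))
    (@En.n l29136 (nat_lit 11733) (nat_lit 10) (nat_lit 8))
    (@En.n l8364 (nat_lit 7840) (nat_lit 4) (nat_lit 5))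
    (@En.n l29137 (nat_lit 12019) (nat_lit 5) (nat_lit 8))
    (@En.n l8364 (nat_lit 12587) (nat_lit 8) (nat_lit 10))
    (@En.n l14944 (nat_lit 11281) (nat_lit 11) (nat_lit 7))
    (@En.n l29138 (nat_lit 10520) (nat_lit 8) (nat_lit 4))
    (@En.n l29139 (nat_lit 10548) (nat_lit 0) (nat_lit 11))
    (@En.i (nat_lit 11762) (nat_lit 1) (nat_lit 7))
    (@En.n l14928 (nat_lit 11071) (nat_lit 12) (nat_lit 8))
    (@En.n l50 (nat_lit 11756) (nat_lit 7) (nat_lit 12))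
    (@En.n l217 (nat_lit 10365) (nat_lit 8) (nat_lit 8))
    (@En.n l4819 (nat_lit 9850) (nat_lit 5) (nat_lit 9))
    (@En.n l3536 (nat_lit 11759) (nat_lit 15) (nat_lit 3))))
  (@Cl.mk (nat_lit 0x300060009000d0005000b00030009000c00070005000a0004000d0007000b) (nat_lit 0x79010760020806) (nat_lit 16) Lb.e (@T16.mk En
    (@En.n l23552 (nat_lit 12597) (nat_lit 0) (nat_lit 11))
    (@En.i (nat_lit 11759) (nat_lit 7) (nat_lit 7))
    (@En.i (nat_lit 11760) (nat_lit 2) (nat_lit 13))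
    (@En.n l117 (nat_lit 10516) (nat_lit 3) (nat_lit 4))
    (@En.n l617 (nat_lit 10543) (nat_lit 4) (nat_lit 10))
    (@En.n l3480 (nat_lit 11149) (nat_lit 5) (nat_lit 5))
    (@En.i (nat_lit 10838) (nat_lit 6) (nat_lit 7))
    (@En.i (nat_lit 5564) (nat_lit 6) (nat_lit 12))
    (@En.n l9182 (nat_lit 12190) (nat_lit 9) (nat_lit 9))
    (@En.n l6081 (nat_lit 11756) (nat_lit 9) (nat_lit 3))
    (@En.n l15068 (nat_lit 6193) (nat_lit 0) (nat_lit 11))
    (@En.n l13633 (nat_lit 9849) (nat_lit 12) (nat_lit 5))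
    (@En.i (nat_lit 9665) (nat_lit 6) (nat_lit 13))
    (@En.n l1081 (nat_lit 11725) (nat_lit 9) (nat_lit 9))
    (@En.i (nat_lit 7842) (nat_lit 12) (nat_lit 6))
    (@En.i (nat_lit 10362) (nat_lit 15) (nat_lit 3))))
  (@Cl.mk (nat_lit 0x300090008000c00080006000b00040007000b000800050008000d0005000a) (nat_lit 0x717402005506801) (nat_lit 16) Lb.e (@T16.mk En
    (@En.n l15068 (nat_lit 6194) (nat_lit 0) (nat_lit 10))
    (@En.n l13633 (nat_lit 9850) (nat_lit 8) (nat_lit 5))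
    (@En.i (nat_lit 9667) (nat_lit 2) (nat_lit 13))
    (@En.n l1081 (nat_lit 11734) (nat_lit 10) (nat_lit 8))
    (@En.n l2678 (nat_lit 7843) (nat_lit 4) (nat_lit 5))
    (@En.n l10065 (nat_lit 12021) (nat_lit 5) (nat_lit 8))
    (@En.n l15069 (nat_lit 12596) (nat_lit 8) (nat_lit 11))
    (@En.n l6083 (nat_lit 11282) (nat_lit 11) (nat_lit 7))
    (@En.n l117 (nat_lit 10518) (nat_lit 8) (nat_lit 4))
    (@En.n l617 (nat_lit 10541) (nat_lit 0) (nat_lit 11))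
    (@En.n l3480 (nat_lit 11151) (nat_lit 1) (nat_lit 6))
    (@En.n l15069 (nat_lit 11070) (nat_lit 12) (nat_lit 8))
    (@En.n l28 (nat_lit 11758) (nat_lit 7) (nat_lit 12))
    (@En.n l77 (nat_lit 10362) (nat_lit 8) (nat_lit 8))
    (@En.n l9182 (nat_lit 10045) (nat_lit 5) (nat_lit 9))
    (@En.n l6081 (nat_lit 11757) (nat_lit 15) (nat_lit 3))))
noncomputable def a735 : T16 Cl := @T16.mk Cl
  (@Cl.mk (nat_lit 0x3000800060009000d0006000b0003000a000800070005000a000d0006000a) (nat_lit 0x601501074002705) (nat_lit 16) Lb.e (@T16.mk En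
    (@En.n l30648 (nat_lit 12598) (nat_lit 0) (nat_lit 10))
    (@En.n l32234 (nat_lit 11276) (nat_lit 8) (nat_lit 6))
    (@En.n l34200 (nat_lit 7725) (nat_lit 5) (nat_lit 13))
    (@En.n l617 (nat_lit 10544) (nat_lit 3) (nat_lit 10))
    (@En.n l3480 (nat_lit 11150) (nat_lit 4) (nat_lit 5))
    (@En.n l34200 (nat_lit 10619) (nat_lit 13) (nat_lit 7))
    (@En.n l32234 (nat_lit 12149) (nat_lit 6) (nat_lit 8))
    (@En.n l9182 (nat_lit 12191) (nat_lit 8) (nat_lit 10))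
    (@En.n l6081 (nat_lit 11279) (nat_lit 8) (nat_lit 3))
    (@En.n l32234 (nat_lit 6191) (nat_lit 0) (nat_lit 11))
    (@En.n l13633 (nat_lit 9848) (nat_lit 11) (nat_lit 6))
    (@En.i (nat_lit 9668) (nat_lit 6) (nat_lit 13))
    (@En.n l32234 (nat_lit 7945) (nat_lit 9) (nat_lit 9))
    (@En.n l11 (nat_lit 11758) (nat_lit 14) (nat_lit 6))
    (@En.n l55 (nat_lit 11759) (nat_lit 5) (nat_lit 8))
    (@En.n l9311 (nat_lit 10361) (nat_lit 15) (nat_lit 3))))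
  (@Cl.mk (nat_lit 0x30006000d000c000a000300070004000a000d0006000a0003000d00060009) (nat_lit 0x83100083020900) (nat_lit 16) Lb.e (@T16.mk En
    (@En.n l5372 (nat_lit 12602) (nat_lit 0) (nat_lit 9))
    (@En.i (nat_lit 11762) (nat_lit 14) (nat_lit 6))
    (@En.i (nat_lit 11763) (nat_lit 2) (nat_lit 13))
    (@En.i (nat_lit 11765) (nat_lit 8) (nat_lit 3))
    (@En.n l649 (nat_lit 2203) (nat_lit 0) (nat_lit 10))
    (@En.i (nat_lit 11772) (nat_lit 5) (nat_lit 6))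
    (@En.i (nat_lit 5411) (nat_lit 5) (nat_lit 13))
    (@En.n l899 (nat_lit 11766) (nat_lit 13) (nat_lit 10))
    (@En.i (nat_lit 11149) (nat_lit 8) (nat_lit 4))
    (@En.i (nat_lit 6121) (nat_lit 0) (nat_lit 7))
    (@En.n l1106 (nat_lit 10549) (nat_lit 10) (nat_lit 3))
    (@En.n l619 (nat_lit 7548) (nat_lit 0) (nat_lit 10))
    (@En.n l3866 (nat_lit 10543) (nat_lit 13) (nat_lit 12))
    (@En.i (nat_lit 11471) (nat_lit 2) (nat_lit 13))
    (@En.i (nat_lit 7853) (nat_lit 12) (nat_lit 6))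
    (@En.i (nat_lit 11764) (nat_lit 15) (nat_lit 3))))
  (@Cl.mk (nat_lit 0x30006000900070005000d000c0009000300070004000a0009000d0007000b) (nat_lit 0x60073100084402) (nat_lit 16) Lb.e (@T16.mk En
    (@En.n l5598 (nat_lit 2150) (nat_lit 0) (nat_lit 11))
    (@En.i (nat_lit 11076) (nat_lit 10) (nat_lit 7))
    (@En.n l50 (nat_lit 11761) (nat_lit 6) (nat_lit 13))
    (@En.n l217 (nat_lit 11764) (nat_lit 7) (nat_lit 9))
    (@En.n l899 (nat_lit 11768) (nat_lit 4) (nat_lit 10))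
    (@En.i (nat_lit 11151) (nat_lit 5) (nat_lit 4))
    (@En.i (nat_lit 6119) (nat_lit 6) (nat_lit 7))
    (@En.n l8364 (nat_lit 10548) (nat_lit 7) (nat_lit 3))
    (@En.n l619 (nat_lit 7547) (nat_lit 0) (nat_lit 9))
    (@En.n l3866 (nat_lit 10541) (nat_lit 10) (nat_lit 12))
    (@En.n l21398 (nat_lit 10841) (nat_lit 11) (nat_lit 13))
    (@En.n l5598 (nat_lit 7860) (nat_lit 3) (nat_lit 5))
    (@En.n l9155 (nat_lit 12007) (nat_lit 13) (nat_lit 7))
    (@En.n l5598 (nat_lit 12369) (nat_lit 9) (nat_lit 9))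
    (@En.n l14973 (nat_lit 11201) (nat_lit 12) (nat_lit 6))
    (@En.n l21399 (nat_lit 11767) (nat_lit 15) (nat_lit 3))))
  (@Cl.mk (nat_lit 0x300070006000d000c000a000300080004000b00090006000a000d00050008) (nat_lit 0x8510309101802) (nat_lit 16) Lb.e (@T16.mk En
    (@En.n l5372 (nat_lit 10746) (nat_lit 0) (nat_lit 8))
    (@En.n l29225 (nat_lit 11202) (nat_lit 7) (nat_lit 5))
    (@En.n l5838 (nat_lit 7989) (nat_lit 5) (nat_lit 13))
    (@En.n l3528 (nat_lit 2201) (nat_lit 9) (nat_lit 10))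
    (@En.n l6210 (nat_lit 11774) (nat_lit 4) (nat_lit 6))
    (@En.n l396 (nat_lit 8250) (nat_lit 5) (nat_lit 9))
    (@En.n l899 (nat_lit 11947) (nat_lit 13) (nat_lit 11))
    (@En.i (nat_lit 11150) (nat_lit 7) (nat_lit 4))
    (@En.i (nat_lit 6125) (nat_lit 0) (nat_lit 8))
    (@En.n l5376 (nat_lit 10550) (nat_lit 9) (nat_lit 3))
    (@En.n l619 (nat_lit 7550) (nat_lit 0) (nat_lit 10))
    (@En.n l3866 (nat_lit 10544) (nat_lit 12) (nat_lit 12))
    (@En.n l11428 (nat_lit 11791) (nat_lit 13) (nat_lit 13))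
    (@En.n l7 (nat_lit 11761) (nat_lit 14) (nat_lit 6))
    (@En.n l644 (nat_lit 11762) (nat_lit 12) (nat_lit 7))
    (@En.i (nat_lit 10369) (nat_lit 15) (nat_lit 3))))
  (@Cl.mk (nat_lit 0x30006000d000c000a0003000800040009000d0006000a0003000d00080007) (nat_lit 0x85104035020930) (nat_lit 16) Lb.e (@T16.mk En
    (@En.n l9155 (nat_lit 10939) (nat_lit 0) (nat_lit 7))
    (@En.i (nat_lit 12013) (nat_lit 14) (nat_lit 8))
    (@En.i (nat_lit 10369) (nat_lit 2) (nat_lit 13))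
    (@En.i (nat_lit 11770) (nat_lit 3) (nat_lit 3))
    (@En.n l649 (nat_lit 3678) (nat_lit 0) (nat_lit 10))
    (@En.i (nat_lit 11771) (nat_lit 5) (nat_lit 6))
    (@En.i (nat_lit 5409) (nat_lit 6) (nat_lit 13))
    (@En.n l31318 (nat_lit 12209) (nat_lit 13) (nat_lit 9))
    (@En.n l2869 (nat_lit 11111) (nat_lit 8) (nat_lit 4))
    (@En.i (nat_lit 10514) (nat_lit 0) (nat_lit 8))
    (@En.n l12811 (nat_lit 10368) (nat_lit 10) (nat_lit 3))
    (@En.n l3522 (nat_lit 7551) (nat_lit 0) (nat_lit 10))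
    (@En.n l33650 (nat_lit 10364) (nat_lit 13) (nat_lit 12))
    (@En.n l11434 (nat_lit 11467) (nat_lit 2) (nat_lit 13))
    (@En.i (nat_lit 7802) (nat_lit 12) (nat_lit 6))
    (@En.n l18 (nat_lit 11761) (nat_lit 15) (nat_lit 3))))
  (@Cl.mk (nat_lit 0x300070004000a000d000900070003000d0006000900030007000d000c0009) (nat_lit 0x8320090000663) (nat_lit 16) Lb.e (@T16.mk En
    (@En.n l97 (nat_lit 5293) (nat_lit 0) (nat_lit 9))
    (@En.n l1236 (nat_lit 10542) (nat_lit 13) (nat_lit 12))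
    (@En.n l4037 (nat_lit 10618) (nat_lit 2) (nat_lit 13))
    (@En.i (nat_lit 10320) (nat_lit 3) (nat_lit 7))
    (@En.i (nat_lit 11770) (nat_lit 15) (nat_lit 3))
    (@En.n l21182 (nat_lit 12609) (nat_lit 0) (nat_lit 9))
    (@En.n l21399 (nat_lit 11767) (nat_lit 14) (nat_lit 6))
    (@En.n l17272 (nat_lit 10000) (nat_lit 2) (nat_lit 13))
    (@En.n l28 (nat_lit 11761) (nat_lit 3) (nat_lit 3))
    (@En.n l8501 (nat_lit 4178) (nat_lit 0) (nat_lit 7))
    (@En.n l77 (nat_lit 11763) (nat_lit 5) (nat_lit 9))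
    (@En.i (nat_lit 5408) (nat_lit 5) (nat_lit 13))
    (@En.n l899 (nat_lit 11769) (nat_lit 13) (nat_lit 10))
    (@En.n l345 (nat_lit 11152) (nat_lit 8) (nat_lit 4))
    (@En.i (nat_lit 6145) (nat_lit 0) (nat_lit 7))
    (@En.n l1798 (nat_lit 10546) (nat_lit 15) (nat_lit 3))))
  (@Cl.mk (nat_lit 0x30007000a000d000500090003000c0006000b000900040007000d0005000b) (nat_lit 0x76010809100601) (nat_lit 16) Lb.e (@T16.mk En
    (@En.n l24770 (nat_lit 7546) (nat_lit 0) (nat_lit 11))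
    (@En.n l117 (nat_lit 10963) (nat_lit 7) (nat_lit 5))
    (@En.n l1329 (nat_lit 11786) (nat_lit 2) (nat_lit 13))
    (@En.i (nat_lit 7859) (nat_lit 11) (nat_lit 7))
    (@En.n l17 (nat_lit 12209) (nat_lit 4) (nat_lit 4))
    (@En.n l2642 (nat_lit 11761) (nat_lit 0) (nat_lit 9))
    (@En.n l1003 (nat_lit 10697) (nat_lit 1) (nat_lit 11))
    (@En.i (nat_lit 11768) (nat_lit 14) (nat_lit 6))
    (@En.i (nat_lit 11947) (nat_lit 9) (nat_lit 12))
    (@En.i (nat_lit 11769) (nat_lit 9) (nat_lit 3))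
    (@En.n l11861 (nat_lit 2198) (nat_lit 0) (nat_lit 9))
    (@En.i (nat_lit 11776) (nat_lit 6) (nat_lit 5))
    (@En.n l2642 (nat_lit 10329) (nat_lit 5) (nat_lit 13))
    (@En.i (nat_lit 11972) (nat_lit 8) (nat_lit 10))
    (@En.n l1081 (nat_lit 6124) (nat_lit 12) (nat_lit 7))
    (@En.n l1080 (nat_lit 11946) (nat_lit 15) (nat_lit 3))))
  (@Cl.mk (nat_lit 0x30006000900070006000d000c0008000300070004000a0009000d000a0008) (nat_lit 0x60064200085431) (nat_lit 16) Lb.e (@T16.mk En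
    (@En.n l37265 (nat_lit 8073) (nat_lit 0) (nat_lit 8))
    (@En.n l8280 (nat_lit 11202) (nat_lit 10) (nat_lit 10))
    (@En.n l37266 (nat_lit 11765) (nat_lit 11) (nat_lit 13))
    (@En.n l37267 (nat_lit 11770) (nat_lit 7) (nat_lit 9))
    (@En.n l29317 (nat_lit 11950) (nat_lit 4) (nat_lit 10))
    (@En.n l37268 (nat_lit 11153) (nat_lit 5) (nat_lit 4))
    (@En.n l37269 (nat_lit 6148) (nat_lit 6) (nat_lit 7))
    (@En.n l28 (nat_lit 10547) (nat_lit 7) (nat_lit 3))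
    (@En.n l17194 (nat_lit 5291) (nat_lit 0) (nat_lit 8))
    (@En.n l77 (nat_lit 10540) (nat_lit 10) (nat_lit 12))
    (@En.n l8331 (nat_lit 10840) (nat_lit 11) (nat_lit 13))
    (@En.n l16254 (nat_lit 10318) (nat_lit 3) (nat_lit 6))
    (@En.i (nat_lit 12006) (nat_lit 13) (nat_lit 7))
    (@En.n l29155 (nat_lit 12365) (nat_lit 9) (nat_lit 9))
    (@En.n l9877 (nat_lit 7517) (nat_lit 12) (nat_lit 6))
    (@En.n l30499 (nat_lit 11762) (nat_lit 15) (nat_lit 3))))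
  (@Cl.mk (nat_lit 0x30006000b000900080006000d0005000a00030007000a0008000d0006000a) (nat_lit 0x9720b010074702) (nat_lit 16) Lb.e (@T16.mk En
    (@En.n l29227 (nat_lit 2145) (nat_lit 0) (nat_lit 10))
    (@En.i (nat_lit 11078) (nat_lit 11) (nat_lit 6))
    (@En.n l18 (nat_lit 11766) (nat_lit 12) (nat_lit 13))
    (@En.n l25719 (nat_lit 12215) (nat_lit 13) (nat_lit 8))
    (@En.i (nat_lit 11975) (nat_lit 8) (nat_lit 10))
    (@En.n l1081 (nat_lit 6123) (nat_lit 5) (nat_lit 7))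
    (@En.n l1080 (nat_lit 11948) (nat_lit 6) (nat_lit 3))
    (@En.n l29228 (nat_lit 7545) (nat_lit 0) (nat_lit 10))
    (@En.n l29229 (nat_lit 10962) (nat_lit 8) (nat_lit 5))
    (@En.n l9068 (nat_lit 11785) (nat_lit 10) (nat_lit 13))
    (@En.n l2179 (nat_lit 7858) (nat_lit 3) (nat_lit 6))
    (@En.n l7257 (nat_lit 11626) (nat_lit 12) (nat_lit 8))
    (@En.n l2642 (nat_lit 11762) (nat_lit 13) (nat_lit 9))
    (@En.n l1003 (nat_lit 10703) (nat_lit 14) (nat_lit 11))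
    (@En.n l9072 (nat_lit 11207) (nat_lit 12) (nat_lit 6))
    (@En.n l25953 (nat_lit 11950) (nat_lit 15) (nat_lit 3))))
  (@Cl.mk (nat_lit 0x30007000a000d000800060003000c0006000b000900040008000d0005000a) (nat_lit 0x72200809103603) (nat_lit 16) Lb.e (@T16.mk En
    (@En.n l37046 (nat_lit 5292) (nat_lit 0) (nat_lit 10))
    (@En.n l9309 (nat_lit 11498) (nat_lit 7) (nat_lit 5))
    (@En.n l4241 (nat_lit 11788) (nat_lit 9) (nat_lit 13))
    (@En.i (nat_lit 12475) (nat_lit 3) (nat_lit 8))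
    (@En.n l17 (nat_lit 12207) (nat_lit 4) (nat_lit 4))
    (@En.n l2642 (nat_lit 11765) (nat_lit 5) (nat_lit 9))
    (@En.n l24860 (nat_lit 10700) (nat_lit 1) (nat_lit 11))
    (@En.n l25953 (nat_lit 11950) (nat_lit 14) (nat_lit 6))
    (@En.i (nat_lit 10004) (nat_lit 9) (nat_lit 12))
    (@En.n l7 (nat_lit 11766) (nat_lit 9) (nat_lit 3))
    (@En.n l37046 (nat_lit 8071) (nat_lit 0) (nat_lit 6))
    (@En.n l644 (nat_lit 11947) (nat_lit 12) (nat_lit 8))
    (@En.n l2642 (nat_lit 10330) (nat_lit 5) (nat_lit 13))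
    (@En.i (nat_lit 11974) (nat_lit 8) (nat_lit 10))
    (@En.n l1081 (nat_lit 6147) (nat_lit 12) (nat_lit 7))
    (@En.n l9309 (nat_lit 11945) (nat_lit 15) (nat_lit 3))))
  (@Cl.mk (nat_lit 0x30007000d000c00090003000800040009000d000900070003000d00080007) (nat_lit 0x76302045200930) (nat_lit 16) Lb.e (@T16.mk En
    (@En.n l21399 (nat_lit 10937) (nat_lit 0) (nat_lit 7))
    (@En.i (nat_lit 12016) (nat_lit 14) (nat_lit 8))
    (@En.n l31538 (nat_lit 9039) (nat_lit 2) (nat_lit 13))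
    (@En.n l28 (nat_lit 11764) (nat_lit 3) (nat_lit 3))
    (@En.n l9845 (nat_lit 11561) (nat_lit 0) (nat_lit 7))
    (@En.n l77 (nat_lit 10369) (nat_lit 5) (nat_lit 9))
    (@En.i (nat_lit 5405) (nat_lit 6) (nat_lit 13))
    (@En.n l31318 (nat_lit 12207) (nat_lit 13) (nat_lit 9))
    (@En.n l41920 (nat_lit 11110) (nat_lit 8) (nat_lit 4))
    (@En.n l3522 (nat_lit 10055) (nat_lit 0) (nat_lit 8))
    (@En.n l29138 (nat_lit 10551) (nat_lit 10) (nat_lit 3))
    (@En.n l41921 (nat_lit 5294) (nat_lit 0) (nat_lit 9))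
    (@En.n l1236 (nat_lit 10545) (nat_lit 13) (nat_lit 12))
    (@En.n l41922 (nat_lit 11470) (nat_lit 2) (nat_lit 13))
    (@En.i (nat_lit 10458) (nat_lit 3) (nat_lit 7))
    (@En.n l18 (nat_lit 11765) (nat_lit 4) (nat_lit 3))))
  (@Cl.mk (nat_lit 0x30006000c000b000a0009000400090005000a0006000a0007000d00070006) (nat_lit 0x66340403030300) (nat_lit 16) Lb.e (@T16.mk En
    (@En.n l9155 (nat_lit 12358) (nat_lit 0) (nat_lit 6))
    (@En.i (nat_lit 10073) (nat_lit 7) (nat_lit 7))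
    (@En.n l42580 (nat_lit 11773) (nat_lit 2) (nat_lit 13))
    (@En.n l42581 (nat_lit 11562) (nat_lit 3) (nat_lit 7))
    (@En.n l38859 (nat_lit 12436) (nat_lit 4) (nat_lit 10))
    (@En.i (nat_lit 9627) (nat_lit 5) (nat_lit 6))
    (@En.n l31318 (nat_lit 11777) (nat_lit 7) (nat_lit 10))
    (@En.n l2869 (nat_lit 10851) (nat_lit 7) (nat_lit 5))
    (@En.n l18738 (nat_lit 9715) (nat_lit 9) (nat_lit 9))
    (@En.n l40520 (nat_lit 11784) (nat_lit 9) (nat_lit 4))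
    (@En.n l55 (nat_lit 11770) (nat_lit 11) (nat_lit 9))
    (@En.n l3522 (nat_lit 10830) (nat_lit 12) (nat_lit 10))
    (@En.n l33650 (nat_lit 10845) (nat_lit 13) (nat_lit 11))
    (@En.n l11434 (nat_lit 11872) (nat_lit 14) (nat_lit 12))
    (@En.i (nat_lit 11574) (nat_lit 12) (nat_lit 6))
    (@En.n l18 (nat_lit 11772) (nat_lit 15) (nat_lit 3))))
  (@Cl.mk (nat_lit 0x30006000c000b000a0009000400080005000b0006000a0007000d00050008) (nat_lit 0x66340204060303) (nat_lit 16) Lb.e (@T16.mk En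
    (@En.n l5374 (nat_lit 8064) (nat_lit 0) (nat_lit 8))
    (@En.i (nat_lit 11076) (nat_lit 7) (nat_lit 5))
    (@En.n l6210 (nat_lit 11774) (nat_lit 2) (nat_lit 13))
    (@En.n l31397 (nat_lit 11543) (nat_lit 3) (nat_lit 7))
    (@En.n l5374 (nat_lit 10770) (nat_lit 4) (nat_lit 10))
    (@En.i (nat_lit 9623) (nat_lit 5) (nat_lit 6))
    (@En.n l899 (nat_lit 11776) (nat_lit 7) (nat_lit 11))
    (@En.i (nat_lit 10852) (nat_lit 7) (nat_lit 5))
    (@En.i (nat_lit 9704) (nat_lit 11) (nat_lit 8))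
    (@En.n l37247 (nat_lit 10577) (nat_lit 9) (nat_lit 4))
    (@En.n l55 (nat_lit 11765) (nat_lit 0) (nat_lit 9))
    (@En.n l619 (nat_lit 10714) (nat_lit 12) (nat_lit 10))
    (@En.n l3866 (nat_lit 10843) (nat_lit 13) (nat_lit 11))
    (@En.i (nat_lit 11870) (nat_lit 14) (nat_lit 12))
    (@En.i (nat_lit 9610) (nat_lit 12) (nat_lit 6))
    (@En.i (nat_lit 11771) (nat_lit 15) (nat_lit 3))))
  (@Cl.mk (nat_lit 0x3000b0006000c000b000a00050004000a0005000b0006000a000d00060005) (nat_lit 0x609940030303200) (nat_lit 16) Lb.e (@T16.mk En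
    (@En.n l41017 (nat_lit 12359) (nat_lit 0) (nat_lit 5))
    (@En.n l34180 (nat_lit 11779) (nat_lit 0) (nat_lit 6))
    (@En.i (nat_lit 6362) (nat_lit 5) (nat_lit 13))
    (@En.n l3471 (nat_lit 10774) (nat_lit 9) (nat_lit 10))
    (@En.n l41018 (nat_lit 9620) (nat_lit 4) (nat_lit 6))
    (@En.n l9884 (nat_lit 11778) (nat_lit 6) (nat_lit 11))
    (@En.n l41019 (nat_lit 10849) (nat_lit 6) (nat_lit 5))
    (@En.n l41020 (nat_lit 9570) (nat_lit 0) (nat_lit 10))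
    (@En.n l41021 (nat_lit 10578) (nat_lit 12) (nat_lit 4))
    (@En.i (nat_lit 11020) (nat_lit 0) (nat_lit 5))
    (@En.n l41022 (nat_lit 10829) (nat_lit 1) (nat_lit 10))
    (@En.n l77 (nat_lit 11787) (nat_lit 5) (nat_lit 11))
    (@En.n l41023 (nat_lit 11832) (nat_lit 13) (nat_lit 12))
    (@En.n l41024 (nat_lit 11771) (nat_lit 14) (nat_lit 6))
    (@En.n l39255 (nat_lit 8013) (nat_lit 4) (nat_lit 11))
    (@En.n l14175 (nat_lit 11774) (nat_lit 15) (nat_lit 3))))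
  (@Cl.mk (nat_lit 0x3000b0006000c000b000a0005000400090005000c0006000a000d00040007) (nat_lit 0x409930020306200) (nat_lit 16) Lb.e (@T16.mk En
    (@En.n l387 (nat_lit 8063) (nat_lit 11) (nat_lit 7))
    (@En.n l37456 (nat_lit 10644) (nat_lit 15) (nat_lit 4))
    (@En.i (nat_lit 6360) (nat_lit 5) (nat_lit 13))
    (@En.n l6622 (nat_lit 10768) (nat_lit 1) (nat_lit 10))
    (@En.n l15346 (nat_lit 9618) (nat_lit 4) (nat_lit 6))
    (@En.n l11835 (nat_lit 11775) (nat_lit 13) (nat_lit 12))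
    (@En.n l28 (nat_lit 10850) (nat_lit 6) (nat_lit 5))
    (@En.n l10852 (nat_lit 9701) (nat_lit 5) (nat_lit 9))
    (@En.i (nat_lit 10574) (nat_lit 12) (nat_lit 4))
    (@En.n l14740 (nat_lit 11024) (nat_lit 0) (nat_lit 5))
    (@En.n l457 (nat_lit 10716) (nat_lit 1) (nat_lit 10))
    (@En.n l575 (nat_lit 10621) (nat_lit 12) (nat_lit 11))
    (@En.n l107 (nat_lit 9192) (nat_lit 13) (nat_lit 12))
    (@En.n l15349 (nat_lit 11772) (nat_lit 14) (nat_lit 6))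
    (@En.n l15346 (nat_lit 11084) (nat_lit 13) (nat_lit 11))
    (@En.n l16451 (nat_lit 11773) (nat_lit 15) (nat_lit 3))))
  (@Cl.mk (nat_lit 0x40009000c00050009000c0004000a00070004000b0007000c0006000b0005) (nat_lit 0x220430600501030) (nat_lit 16) Lb.e (@T16.mk En
    (@En.n l6669 (nat_lit 11938) (nat_lit 0) (nat_lit 5))
    (@En.n l6758 (nat_lit 10717) (nat_lit 1) (nat_lit 11))
    (@En.n l810 (nat_lit 11401) (nat_lit 1) (nat_lit 6))
    (@En.n l35935 (nat_lit 9193) (nat_lit 2) (nat_lit 12))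
    (@En.n l430 (nat_lit 11776) (nat_lit 14) (nat_lit 7))
    (@En.n l31652 (nat_lit 11085) (nat_lit 12) (nat_lit 11))
    (@En.n l3480 (nat_lit 11778) (nat_lit 15) (nat_lit 4))
    (@En.n l15957 (nat_lit 11774) (nat_lit 0) (nat_lit 7))
    (@En.n l9182 (nat_lit 8000) (nat_lit 1) (nat_lit 10))
    (@En.n l42404 (nat_lit 10643) (nat_lit 9) (nat_lit 4))
    (@En.i (nat_lit 6358) (nat_lit 6) (nat_lit 12))
    (@En.n l1329 (nat_lit 10767) (nat_lit 10) (nat_lit 9))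
    (@En.n l15184 (nat_lit 9841) (nat_lit 5) (nat_lit 5))
    (@En.i (nat_lit 12081) (nat_lit 6) (nat_lit 12))
    (@En.n l15959 (nat_lit 9700) (nat_lit 11) (nat_lit 9))
    (@En.i (nat_lit 10572) (nat_lit 12) (nat_lit 4))))
noncomputable def a736 : T16 Cl := @T16.mk Cl
  (@Cl.mk (nat_lit 0x40007000c0005000b000a00040008000b000500090006000c0005000b0008) (nat_lit 0x70340230504074) (nat_lit 16) Lb.e (@T16.mk En
    (@En.n l2642 (nat_lit 11772) (nat_lit 0) (nat_lit 8))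
    (@En.n l18150 (nat_lit 11154) (nat_lit 1) (nat_lit 11))
    (@En.i (nat_lit 11078) (nat_lit 8) (nat_lit 5))
    (@En.n l10436 (nat_lit 11775) (nat_lit 10) (nat_lit 12))
    (@En.n l41050 (nat_lit 11552) (nat_lit 1) (nat_lit 6))
    (@En.n l41051 (nat_lit 10769) (nat_lit 10) (nat_lit 9))
    (@En.n l2642 (nat_lit 9843) (nat_lit 6) (nat_lit 5))
    (@En.i (nat_lit 12079) (nat_lit 7) (nat_lit 11))
    (@En.n l1081 (nat_lit 9703) (nat_lit 11) (nat_lit 8))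
    (@En.n l6771 (nat_lit 10575) (nat_lit 9) (nat_lit 4))
    (@En.n l77 (nat_lit 11769) (nat_lit 0) (nat_lit 10))
    (@En.n l24770 (nat_lit 10715) (nat_lit 1) (nat_lit 11))
    (@En.n l6193 (nat_lit 11400) (nat_lit 13) (nat_lit 5))
    (@En.n l1329 (nat_lit 11781) (nat_lit 8) (nat_lit 12))
    (@En.i (nat_lit 9612) (nat_lit 11) (nat_lit 7))
    (@En.n l17 (nat_lit 11777) (nat_lit 15) (nat_lit 4))))
  (@Cl.mk (nat_lit 0x40007000c0004000b000a0004000a000a000500090006000c00060006000c) (nat_lit 0x70720420405003) (nat_lit 16) Lb.e (@T16.mk En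
    (@En.n l10089 (nat_lit 10967) (nat_lit 0) (nat_lit 12))
    (@En.n l43284 (nat_lit 12261) (nat_lit 10) (nat_lit 6))
    (@En.n l14150 (nat_lit 10083) (nat_lit 8) (nat_lit 6))
    (@En.n l42859 (nat_lit 11778) (nat_lit 3) (nat_lit 12))
    (@En.n l43285 (nat_lit 11558) (nat_lit 7) (nat_lit 6))
    (@En.n l43286 (nat_lit 12424) (nat_lit 10) (nat_lit 9))
    (@En.n l43287 (nat_lit 10642) (nat_lit 6) (nat_lit 5))
    (@En.n l61 (nat_lit 12813) (nat_lit 6) (nat_lit 10))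
    (@En.n l38782 (nat_lit 9711) (nat_lit 1) (nat_lit 10))
    (@En.n l32498 (nat_lit 11720) (nat_lit 9) (nat_lit 4))
    (@En.n l77 (nat_lit 12207) (nat_lit 0) (nat_lit 10))
    (@En.n l21111 (nat_lit 12061) (nat_lit 1) (nat_lit 11))
    (@En.n l6193 (nat_lit 7555) (nat_lit 15) (nat_lit 4))
    (@En.n l2843 (nat_lit 11876) (nat_lit 0) (nat_lit 12))
    (@En.n l253 (nat_lit 8182) (nat_lit 11) (nat_lit 7))
    (@En.n l5036 (nat_lit 11091) (nat_lit 15) (nat_lit 4))))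
  (@Cl.mk (nat_lit 0x4000b0007000c0005000b00050004000b000b00050009000c00050005000b) (nat_lit 0x707080032044003) (nat_lit 16) Lb.e (@T16.mk En
    (@En.n l899 (nat_lit 8002) (nat_lit 0) (nat_lit 11))
    (@En.n l152 (nat_lit 12262) (nat_lit 11) (nat_lit 5))
    (@En.n l14434 (nat_lit 11780) (nat_lit 0) (nat_lit 5))
    (@En.i (nat_lit 6364) (nat_lit 6) (nat_lit 12))
    (@En.n l617 (nat_lit 12418) (nat_lit 10) (nat_lit 9))
    (@En.n l2125 (nat_lit 10641) (nat_lit 2) (nat_lit 5))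
    (@En.n l3536 (nat_lit 12812) (nat_lit 5) (nat_lit 11))
    (@En.n l28132 (nat_lit 9810) (nat_lit 1) (nat_lit 11))
    (@En.i (nat_lit 11719) (nat_lit 12) (nat_lit 4))
    (@En.n l5748 (nat_lit 11706) (nat_lit 0) (nat_lit 5))
    (@En.n l41068 (nat_lit 12062) (nat_lit 1) (nat_lit 11))
    (@En.n l14224 (nat_lit 7554) (nat_lit 1) (nat_lit 5))
    (@En.n l5821 (nat_lit 12681) (nat_lit 2) (nat_lit 12))
    (@En.n l39173 (nat_lit 11777) (nat_lit 14) (nat_lit 7))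
    (@En.n l39306 (nat_lit 10857) (nat_lit 2) (nat_lit 11))
    (@En.i (nat_lit 11093) (nat_lit 6) (nat_lit 4))))
  (@Cl.mk (nat_lit 0x40007000b0005000c000a000900050004000a00090006000c0007000b0006) (nat_lit 0x30971003303070) (nat_lit 16) Lb.e (@T16.mk En
    (@En.n l35813 (nat_lit 10670) (nat_lit 0) (nat_lit 6))
    (@En.n l40567 (nat_lit 12432) (nat_lit 8) (nat_lit 11))
    (@En.n l40568 (nat_lit 9374) (nat_lit 1) (nat_lit 7))
    (@En.n l18200 (nat_lit 11780) (nat_lit 3) (nat_lit 12))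
    (@En.n l40569 (nat_lit 10273) (nat_lit 4) (nat_lit 6))
    (@En.n l40570 (nat_lit 11774) (nat_lit 7) (nat_lit 9))
    (@En.n l35816 (nat_lit 9713) (nat_lit 7) (nat_lit 10))
    (@En.n l7 (nat_lit 11880) (nat_lit 12) (nat_lit 4))
    (@En.n l40571 (nat_lit 11879) (nat_lit 0) (nat_lit 5))
    (@En.n l21306 (nat_lit 10213) (nat_lit 1) (nat_lit 9))
    (@En.n l644 (nat_lit 9948) (nat_lit 11) (nat_lit 10))
    (@En.n l19337 (nat_lit 9241) (nat_lit 2) (nat_lit 12))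
    (@En.n l40572 (nat_lit 10073) (nat_lit 4) (nat_lit 5))
    (@En.n l40573 (nat_lit 11794) (nat_lit 8) (nat_lit 11))
    (@En.n l21306 (nat_lit 6447) (nat_lit 11) (nat_lit 7))
    (@En.n l40574 (nat_lit 11815) (nat_lit 15) (nat_lit 4))))
  (@Cl.mk (nat_lit 0x4000b0007000b0006000c0005000a00050004000b0009000c0006000a0005) (nat_lit 0x6040a0500332060) (nat_lit 16) Lb.e (@T16.mk En
    (@En.n l152 (nat_lit 10673) (nat_lit 0) (nat_lit 5))
    (@En.n l3491 (nat_lit 12410) (nat_lit 9) (nat_lit 10))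
    (@En.n l55 (nat_lit 10650) (nat_lit 1) (nat_lit 6))
    (@En.i (nat_lit 6862) (nat_lit 6) (nat_lit 12))
    (@En.n l8029 (nat_lit 11775) (nat_lit 14) (nat_lit 9))
    (@En.n l8030 (nat_lit 9426) (nat_lit 2) (nat_lit 11))
    (@En.n l28611 (nat_lit 11882) (nat_lit 12) (nat_lit 4))
    (@En.n l19284 (nat_lit 11877) (nat_lit 0) (nat_lit 5))
    (@En.n l32049 (nat_lit 10470) (nat_lit 1) (nat_lit 10))
    (@En.n l32050 (nat_lit 10833) (nat_lit 1) (nat_lit 5))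
    (@En.i (nat_lit 9243) (nat_lit 2) (nat_lit 12))
    (@En.n l32051 (nat_lit 10083) (nat_lit 4) (nat_lit 6))
    (@En.n l3491 (nat_lit 10153) (nat_lit 8) (nat_lit 11))
    (@En.n l19812 (nat_lit 11779) (nat_lit 14) (nat_lit 7))
    (@En.n l32052 (nat_lit 10278) (nat_lit 4) (nat_lit 11))
    (@En.n l19289 (nat_lit 11814) (nat_lit 12) (nat_lit 4))))
  (@Cl.mk (nat_lit 0x40007000c0005000c00080004000c0004000a00090004000c0008000b0006) (nat_lit 0x40a40602308330) (nat_lit 16) Lb.e (@T16.mk En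
    (@En.i (nat_lit 9066) (nat_lit 0) (nat_lit 6))
    (@En.n l41826 (nat_lit 12697) (nat_lit 7) (nat_lit 11))
    (@En.n l61 (nat_lit 9810) (nat_lit 14) (nat_lit 8))
    (@En.n l1075 (nat_lit 11782) (nat_lit 10) (nat_lit 12))
    (@En.n l28742 (nat_lit 11783) (nat_lit 4) (nat_lit 4))
    (@En.n l3490 (nat_lit 11788) (nat_lit 7) (nat_lit 9))
    (@En.n l14450 (nat_lit 10371) (nat_lit 1) (nat_lit 10))
    (@En.n l34180 (nat_lit 11779) (nat_lit 7) (nat_lit 4))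
    (@En.n l41827 (nat_lit 10511) (nat_lit 0) (nat_lit 12))
    (@En.i (nat_lit 11876) (nat_lit 1) (nat_lit 4))
    (@En.n l9885 (nat_lit 11870) (nat_lit 0) (nat_lit 8))
    (@En.n l41828 (nat_lit 11835) (nat_lit 1) (nat_lit 12))
    (@En.n l41829 (nat_lit 9721) (nat_lit 4) (nat_lit 5))
    (@En.n l41830 (nat_lit 9193) (nat_lit 8) (nat_lit 12))
    (@En.n l14975 (nat_lit 11549) (nat_lit 11) (nat_lit 7))
    (@En.n l28741 (nat_lit 9675) (nat_lit 15) (nat_lit 4))))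
  (@Cl.mk (nat_lit 0x400070004000b0009000c0007000a0005000400090007000c0006000c0009) (nat_lit 0x32703006050a5) (nat_lit 16) Lb.e (@T16.mk En
    (@En.n l899 (nat_lit 11869) (nat_lit 0) (nat_lit 9))
    (@En.n l36713 (nat_lit 11837) (nat_lit 1) (nat_lit 12))
    (@En.n l10345 (nat_lit 9723) (nat_lit 4) (nat_lit 6))
    (@En.n l36714 (nat_lit 11783) (nat_lit 13) (nat_lit 12))
    (@En.n l2938 (nat_lit 11781) (nat_lit 14) (nat_lit 7))
    (@En.n l17133 (nat_lit 11776) (nat_lit 5) (nat_lit 9))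
    (@En.n l32174 (nat_lit 9677) (nat_lit 12) (nat_lit 4))
    (@En.n l3851 (nat_lit 9653) (nat_lit 0) (nat_lit 5))
    (@En.n l17133 (nat_lit 12700) (nat_lit 8) (nat_lit 10))
    (@En.n l14311 (nat_lit 9709) (nat_lit 1) (nat_lit 7))
    (@En.n l3851 (nat_lit 6783) (nat_lit 6) (nat_lit 12))
    (@En.n l3536 (nat_lit 11942) (nat_lit 12) (nat_lit 9))
    (@En.n l37227 (nat_lit 10370) (nat_lit 13) (nat_lit 11))
    (@En.n l36713 (nat_lit 11780) (nat_lit 6) (nat_lit 4))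
    (@En.n l20665 (nat_lit 9513) (nat_lit 11) (nat_lit 7))
    (@En.n l3523 (nat_lit 11874) (nat_lit 1) (nat_lit 4))))
  (@Cl.mk (nat_lit 0x40009000c0005000b00080004000c00070005000b0004000c0008000b0005) (nat_lit 0x540240600808230) (nat_lit 16) Lb.e (@T16.mk En
    (@En.n l27743 (nat_lit 9871) (nat_lit 0) (nat_lit 5))
    (@En.i (nat_lit 12704) (nat_lit 7) (nat_lit 11))
    (@En.n l37887 (nat_lit 9811) (nat_lit 14) (nat_lit 8))
    (@En.n l8604 (nat_lit 6784) (nat_lit 2) (nat_lit 12))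
    (@En.n l30119 (nat_lit 9948) (nat_lit 4) (nat_lit 4))
    (@En.n l645 (nat_lit 6211) (nat_lit 0) (nat_lit 11))
    (@En.i (nat_lit 10153) (nat_lit 1) (nat_lit 5))
    (@En.n l37888 (nat_lit 11782) (nat_lit 14) (nat_lit 7))
    (@En.n l37889 (nat_lit 9718) (nat_lit 3) (nat_lit 12))
    (@En.n l29192 (nat_lit 11875) (nat_lit 9) (nat_lit 4))
    (@En.n l37890 (nat_lit 11868) (nat_lit 0) (nat_lit 8))
    (@En.n l30766 (nat_lit 11839) (nat_lit 1) (nat_lit 11))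
    (@En.n l8638 (nat_lit 9739) (nat_lit 7) (nat_lit 5))
    (@En.n l37891 (nat_lit 9187) (nat_lit 6) (nat_lit 12))
    (@En.n l1068 (nat_lit 11775) (nat_lit 11) (nat_lit 9))
    (@En.n l50 (nat_lit 9676) (nat_lit 12) (nat_lit 4))))
  (@Cl.mk (nat_lit 0x30006000c0007000c000b000400090004000a0005000a0009000d00070006) (nat_lit 0x90660307034900) (nat_lit 16) Lb.e (@T16.mk En
    (@En.n l29426 (nat_lit 12662) (nat_lit 0) (nat_lit 6))
    (@En.n l29427 (nat_lit 9724) (nat_lit 7) (nat_lit 7))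
    (@En.i (nat_lit 10578) (nat_lit 6) (nat_lit 13))
    (@En.n l29428 (nat_lit 10579) (nat_lit 7) (nat_lit 9))
    (@En.n l29429 (nat_lit 12435) (nat_lit 4) (nat_lit 10))
    (@En.n l6319 (nat_lit 9414) (nat_lit 5) (nat_lit 5))
    (@En.n l29430 (nat_lit 11720) (nat_lit 7) (nat_lit 10))
    (@En.n l29431 (nat_lit 10837) (nat_lit 7) (nat_lit 4))
    (@En.n l29428 (nat_lit 10485) (nat_lit 0) (nat_lit 9))
    (@En.n l29432 (nat_lit 11785) (nat_lit 9) (nat_lit 4))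
    (@En.n l29433 (nat_lit 10825) (nat_lit 11) (nat_lit 11))
    (@En.n l29429 (nat_lit 9552) (nat_lit 12) (nat_lit 12))
    (@En.n l29434 (nat_lit 10349) (nat_lit 13) (nat_lit 7))
    (@En.n l1865 (nat_lit 11873) (nat_lit 14) (nat_lit 12))
    (@En.n l29435 (nat_lit 11039) (nat_lit 12) (nat_lit 6))
    (@En.n l29436 (nat_lit 10577) (nat_lit 15) (nat_lit 3))))
  (@Cl.mk (nat_lit 0x30006000c00090008000d000400090003000a0007000a0008000d00070006) (nat_lit 0x952a0204074700) (nat_lit 16) Lb.e (@T16.mk En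
    (@En.n l1927 (nat_lit 12329) (nat_lit 0) (nat_lit 6))
    (@En.n l27791 (nat_lit 9721) (nat_lit 7) (nat_lit 7))
    (@En.n l37158 (nat_lit 11786) (nat_lit 11) (nat_lit 13))
    (@En.n l37159 (nat_lit 11025) (nat_lit 12) (nat_lit 8))
    (@En.i (nat_lit 12592) (nat_lit 8) (nat_lit 10))
    (@En.n l37160 (nat_lit 6219) (nat_lit 5) (nat_lit 7))
    (@En.n l37161 (nat_lit 11802) (nat_lit 7) (nat_lit 10))
    (@En.n l37162 (nat_lit 10845) (nat_lit 7) (nat_lit 3))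
    (@En.n l5854 (nat_lit 9628) (nat_lit 0) (nat_lit 9))
    (@En.n l37163 (nat_lit 11771) (nat_lit 9) (nat_lit 4))
    (@En.i (nat_lit 9550) (nat_lit 11) (nat_lit 13))
    (@En.n l37164 (nat_lit 10551) (nat_lit 12) (nat_lit 8))
    (@En.n l37165 (nat_lit 10841) (nat_lit 13) (nat_lit 9))
    (@En.n l37166 (nat_lit 11475) (nat_lit 14) (nat_lit 12))
    (@En.n l37167 (nat_lit 11575) (nat_lit 12) (nat_lit 6))
    (@En.n l3348 (nat_lit 10844) (nat_lit 15) (nat_lit 3))))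
  (@Cl.mk (nat_lit 0x3000b0007000a000d000600050003000c0006000c00090004000d0004000a) (nat_lit 0x407600040920502) (nat_lit 16) Lb.e (@T16.mk En
    (@En.i (nat_lit 8829) (nat_lit 0) (nat_lit 10))
    (@En.i (nat_lit 11773) (nat_lit 8) (nat_lit 4))
    (@En.n l645 (nat_lit 8842) (nat_lit 10) (nat_lit 13))
    (@En.i (nat_lit 11019) (nat_lit 1) (nat_lit 4))
    (@En.n l9885 (nat_lit 11471) (nat_lit 4) (nat_lit 9))
    (@En.n l41667 (nat_lit 11831) (nat_lit 1) (nat_lit 12))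
    (@En.n l41668 (nat_lit 11785) (nat_lit 14) (nat_lit 6))
    (@En.n l68 (nat_lit 11789) (nat_lit 8) (nat_lit 12))
    (@En.n l3489 (nat_lit 11788) (nat_lit 15) (nat_lit 3))
    (@En.n l18 (nat_lit 12637) (nat_lit 0) (nat_lit 5))
    (@En.i (nat_lit 11781) (nat_lit 0) (nat_lit 6))
    (@En.i (nat_lit 10233) (nat_lit 5) (nat_lit 13))
    (@En.n l3471 (nat_lit 12593) (nat_lit 8) (nat_lit 10))
    (@En.n l61 (nat_lit 6220) (nat_lit 14) (nat_lit 7))
    (@En.n l1075 (nat_lit 10759) (nat_lit 11) (nat_lit 11))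
    (@En.i (nat_lit 11787) (nat_lit 15) (nat_lit 3))))
  (@Cl.mk (nat_lit 0x3000b0007000a000d000700050003000c0006000b00090004000d00090005) (nat_lit 0x206200060850530) (nat_lit 16) Lb.e (@T16.mk En
    (@En.n l34177 (nat_lit 9777) (nat_lit 0) (nat_lit 5))
    (@En.i (nat_lit 11739) (nat_lit 14) (nat_lit 9))
    (@En.n l645 (nat_lit 8843) (nat_lit 10) (nat_lit 13))
    (@En.i (nat_lit 11021) (nat_lit 3) (nat_lit 4))
    (@En.n l34178 (nat_lit 11472) (nat_lit 4) (nat_lit 9))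
    (@En.n l34177 (nat_lit 9201) (nat_lit 1) (nat_lit 11))
    (@En.n l27813 (nat_lit 10845) (nat_lit 14) (nat_lit 6))
    (@En.n l34179 (nat_lit 11790) (nat_lit 8) (nat_lit 12))
    (@En.n l17805 (nat_lit 10621) (nat_lit 15) (nat_lit 3))
    (@En.n l18 (nat_lit 12634) (nat_lit 0) (nat_lit 5))
    (@En.n l34180 (nat_lit 9948) (nat_lit 0) (nat_lit 7))
    (@En.i (nat_lit 10232) (nat_lit 5) (nat_lit 13))
    (@En.n l4003 (nat_lit 12639) (nat_lit 8) (nat_lit 10))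
    (@En.n l34181 (nat_lit 6223) (nat_lit 14) (nat_lit 7))
    (@En.n l4003 (nat_lit 9849) (nat_lit 11) (nat_lit 11))
    (@En.n l7 (nat_lit 11786) (nat_lit 15) (nat_lit 3))))
  (@Cl.mk (nat_lit 0x3000c0006000c00090004000d000400090003000c0007000a000d00040007) (nat_lit 0x609205020506500) (nat_lit 16) Lb.e (@T16.mk En
    (@En.n l4011 (nat_lit 8065) (nat_lit 11) (nat_lit 7))
    (@En.n l33266 (nat_lit 10629) (nat_lit 10) (nat_lit 4))
    (@En.i (nat_lit 10235) (nat_lit 5) (nat_lit 13))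
    (@En.n l745 (nat_lit 12580) (nat_lit 8) (nat_lit 10))
    (@En.n l3112 (nat_lit 10388) (nat_lit 14) (nat_lit 7))
    (@En.n l11835 (nat_lit 11942) (nat_lit 11) (nat_lit 12))
    (@En.n l28 (nat_lit 10621) (nat_lit 6) (nat_lit 3))
    (@En.i (nat_lit 5104) (nat_lit 0) (nat_lit 9))
    (@En.n l11 (nat_lit 11774) (nat_lit 8) (nat_lit 4))
    (@En.n l745 (nat_lit 9549) (nat_lit 0) (nat_lit 13))
    (@En.n l9175 (nat_lit 11022) (nat_lit 1) (nat_lit 4))
    (@En.i (nat_lit 10618) (nat_lit 4) (nat_lit 9))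
    (@En.n l22243 (nat_lit 11796) (nat_lit 1) (nat_lit 12))
    (@En.n l10171 (nat_lit 10844) (nat_lit 14) (nat_lit 6))
    (@En.n l12421 (nat_lit 10950) (nat_lit 8) (nat_lit 12))
    (@En.n l4315 (nat_lit 11786) (nat_lit 8) (nat_lit 3))))
  (@Cl.mk (nat_lit 0x3000b0008000b000800060005000c0005000b000800040008000d0005000a) (nat_lit 0x536200305403a03) (nat_lit 16) Lb.e (@T16.mk En
    (@En.n l9975 (nat_lit 6486) (nat_lit 0) (nat_lit 10))
    (@En.n l41978 (nat_lit 8013) (nat_lit 13) (nat_lit 5))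
    (@En.n l41979 (nat_lit 10629) (nat_lit 2) (nat_lit 13))
    (@En.n l21356 (nat_lit 11785) (nat_lit 11) (nat_lit 8))
    (@En.n l21636 (nat_lit 11821) (nat_lit 4) (nat_lit 4))
    (@En.n l936 (nat_lit 11791) (nat_lit 0) (nat_lit 8))
    (@En.n l2824 (nat_lit 11812) (nat_lit 1) (nat_lit 11))
    (@En.n l41980 (nat_lit 11579) (nat_lit 7) (nat_lit 5))
    (@En.n l22772 (nat_lit 10675) (nat_lit 9) (nat_lit 12))
    (@En.n l18 (nat_lit 10771) (nat_lit 11) (nat_lit 5))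
    (@En.n l41981 (nat_lit 9193) (nat_lit 10) (nat_lit 6))
    (@En.i (nat_lit 10412) (nat_lit 12) (nat_lit 8))
    (@En.n l41982 (nat_lit 12642) (nat_lit 7) (nat_lit 11))
    (@En.n l32147 (nat_lit 7089) (nat_lit 14) (nat_lit 8))
    (@En.n l2753 (nat_lit 11803) (nat_lit 10) (nat_lit 11))
    (@En.n l32148 (nat_lit 11790) (nat_lit 15) (nat_lit 3))))
  (@Cl.mk (nat_lit 0x3000b0008000b000800070005000c0005000a000800040008000d00090006) (nat_lit 0x546200508403a40) (nat_lit 16) Lb.e (@T16.mk En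
    (@En.n l11436 (nat_lit 9780) (nat_lit 0) (nat_lit 6))
    (@En.n l42365 (nat_lit 11324) (nat_lit 13) (nat_lit 9))
    (@En.n l42366 (nat_lit 10631) (nat_lit 2) (nat_lit 13))
    (@En.n l42367 (nat_lit 10845) (nat_lit 11) (nat_lit 8))
    (@En.n l42368 (nat_lit 11896) (nat_lit 4) (nat_lit 4))
    (@En.n l17 (nat_lit 11792) (nat_lit 0) (nat_lit 8))
    (@En.n l8776 (nat_lit 10701) (nat_lit 1) (nat_lit 10))
    (@En.n l1992 (nat_lit 11580) (nat_lit 7) (nat_lit 5))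
    (@En.n l619 (nat_lit 10671) (nat_lit 9) (nat_lit 12))
    (@En.n l42369 (nat_lit 10769) (nat_lit 9) (nat_lit 5))
    (@En.n l42370 (nat_lit 11795) (nat_lit 9) (nat_lit 7))
    (@En.n l42371 (nat_lit 10396) (nat_lit 12) (nat_lit 8))
    (@En.n l42370 (nat_lit 12641) (nat_lit 7) (nat_lit 11))
    (@En.i (nat_lit 7088) (nat_lit 14) (nat_lit 8))
    (@En.n l29789 (nat_lit 9848) (nat_lit 10) (nat_lit 11))
    (@En.n l31778 (nat_lit 11789) (nat_lit 15) (nat_lit 3))))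
  (@Cl.mk (nat_lit 0x30007000d000b00090003000a00080005000b000900070006000d00050008) (nat_lit 0x75302407200a03) (nat_lit 16) Lb.e (@T16.mk En
    (@En.n l32143 (nat_lit 8104) (nat_lit 0) (nat_lit 8))
    (@En.n l32144 (nat_lit 11582) (nat_lit 6) (nat_lit 5))
    (@En.n l32145 (nat_lit 10661) (nat_lit 8) (nat_lit 13))
    (@En.n l18 (nat_lit 10690) (nat_lit 3) (nat_lit 6))
    (@En.n l32146 (nat_lit 9192) (nat_lit 4) (nat_lit 7))
    (@En.i (nat_lit 10134) (nat_lit 5) (nat_lit 9))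
    (@En.i (nat_lit 11789) (nat_lit 12) (nat_lit 11))
    (@En.n l21357 (nat_lit 11793) (nat_lit 7) (nat_lit 5))
    (@En.n l32147 (nat_lit 7087) (nat_lit 14) (nat_lit 8))
    (@En.n l21355 (nat_lit 11800) (nat_lit 10) (nat_lit 10))
    (@En.n l32148 (nat_lit 11792) (nat_lit 10) (nat_lit 3))
    (@En.n l26904 (nat_lit 6487) (nat_lit 0) (nat_lit 9))
    (@En.n l32149 (nat_lit 10416) (nat_lit 13) (nat_lit 11))
    (@En.n l32150 (nat_lit 10626) (nat_lit 2) (nat_lit 13))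
    (@En.i (nat_lit 10841) (nat_lit 12) (nat_lit 7))
    (@En.n l19409 (nat_lit 10423) (nat_lit 15) (nat_lit 3))))
noncomputable def a737 : T16 Cl := @T16.mk Cl
  (@Cl.mk (nat_lit 0x30007000d0008000c0003000a00080004000b000900080006000d00050008) (nat_lit 0x72405407260803) (nat_lit 16) Lb.e (@T16.mk En
    (@En.n l152 (nat_lit 8105) (nat_lit 0) (nat_lit 8))
    (@En.n l1992 (nat_lit 11581) (nat_lit 6) (nat_lit 5))
    (@En.n l619 (nat_lit 10667) (nat_lit 8) (nat_lit 13))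
    (@En.n l10674 (nat_lit 10770) (nat_lit 3) (nat_lit 6))
    (@En.n l77 (nat_lit 11796) (nat_lit 8) (nat_lit 8))
    (@En.n l13947 (nat_lit 10137) (nat_lit 5) (nat_lit 9))
    (@En.i (nat_lit 11790) (nat_lit 12) (nat_lit 11))
    (@En.n l34056 (nat_lit 11794) (nat_lit 7) (nat_lit 4))
    (@En.i (nat_lit 7084) (nat_lit 14) (nat_lit 8))
    (@En.n l29074 (nat_lit 11279) (nat_lit 10) (nat_lit 10))
    (@En.n l31778 (nat_lit 11791) (nat_lit 10) (nat_lit 3))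
    (@En.n l6825 (nat_lit 10247) (nat_lit 0) (nat_lit 12))
    (@En.n l13947 (nat_lit 11323) (nat_lit 13) (nat_lit 8))
    (@En.n l42714 (nat_lit 10627) (nat_lit 2) (nat_lit 13))
    (@En.n l42883 (nat_lit 10839) (nat_lit 12) (nat_lit 7))
    (@En.n l22650 (nat_lit 10421) (nat_lit 15) (nat_lit 3))))
  (@Cl.mk (nat_lit 0x30007000c000b0005000a0004000b0005000b000900060005000d0005000b) (nat_lit 0x75040507400307) (nat_lit 16) Lb.e (@T16.mk En
    (@En.n l1865 (nat_lit 12265) (nat_lit 0) (nat_lit 11))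
    (@En.n l22670 (nat_lit 10285) (nat_lit 7) (nat_lit 5))
    (@En.n l42621 (nat_lit 9822) (nat_lit 2) (nat_lit 13))
    (@En.n l21041 (nat_lit 43) (nat_lit 3) (nat_lit 5))
    (@En.n l42622 (nat_lit 11886) (nat_lit 4) (nat_lit 6))
    (@En.n l22805 (nat_lit 12457) (nat_lit 5) (nat_lit 9))
    (@En.n l42623 (nat_lit 12361) (nat_lit 7) (nat_lit 11))
    (@En.n l28159 (nat_lit 7105) (nat_lit 7) (nat_lit 5))
    (@En.n l30872 (nat_lit 11717) (nat_lit 9) (nat_lit 11))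
    (@En.n l17941 (nat_lit 11794) (nat_lit 9) (nat_lit 4))
    (@En.n l22805 (nat_lit 10464) (nat_lit 11) (nat_lit 10))
    (@En.n l34661 (nat_lit 11789) (nat_lit 1) (nat_lit 5))
    (@En.n l42624 (nat_lit 11819) (nat_lit 13) (nat_lit 11))
    (@En.n l42625 (nat_lit 10632) (nat_lit 14) (nat_lit 12))
    (@En.i (nat_lit 11784) (nat_lit 12) (nat_lit 7))
    (@En.n l42626 (nat_lit 11816) (nat_lit 15) (nat_lit 3))))
  (@Cl.mk (nat_lit 0x30007000c0008000c00060004000b0004000b000900080005000d0005000a) (nat_lit 0x33800207540405) (nat_lit 16) Lb.e (@T16.mk En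
    (@En.n l1865 (nat_lit 10859) (nat_lit 0) (nat_lit 10))
    (@En.n l34090 (nat_lit 10280) (nat_lit 7) (nat_lit 5))
    (@En.n l34091 (nat_lit 10087) (nat_lit 2) (nat_lit 13))
    (@En.n l17 (nat_lit 12687) (nat_lit 3) (nat_lit 5))
    (@En.n l34092 (nat_lit 9199) (nat_lit 8) (nat_lit 8))
    (@En.n l5367 (nat_lit 11795) (nat_lit 5) (nat_lit 9))
    (@En.n l34093 (nat_lit 11996) (nat_lit 7) (nat_lit 11))
    (@En.n l34094 (nat_lit 10416) (nat_lit 7) (nat_lit 4))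
    (@En.n l830 (nat_lit 11760) (nat_lit 9) (nat_lit 11))
    (@En.n l50 (nat_lit 11817) (nat_lit 9) (nat_lit 4))
    (@En.n l34095 (nat_lit 11790) (nat_lit 0) (nat_lit 6))
    (@En.i (nat_lit 12028) (nat_lit 7) (nat_lit 12))
    (@En.n l34096 (nat_lit 11328) (nat_lit 13) (nat_lit 8))
    (@En.n l7705 (nat_lit 10153) (nat_lit 14) (nat_lit 12))
    (@En.n l1992 (nat_lit 10837) (nat_lit 12) (nat_lit 7))
    (@En.n l34097 (nat_lit 10422) (nat_lit 15) (nat_lit 3))))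
  (@Cl.mk (nat_lit 0x300070004000c0009000c00070004000c0004000900070004000d000c0009) (nat_lit 0x6380040400642) (nat_lit 16) Lb.e (@T16.mk En
    (@En.n l40665 (nat_lit 11336) (nat_lit 0) (nat_lit 9))
    (@En.n l28955 (nat_lit 11828) (nat_lit 4) (nat_lit 12))
    (@En.n l72 (nat_lit 9945) (nat_lit 2) (nat_lit 13))
    (@En.n l27578 (nat_lit 11804) (nat_lit 3) (nat_lit 4))
    (@En.n l28656 (nat_lit 11796) (nat_lit 4) (nat_lit 7))
    (@En.n l28957 (nat_lit 10700) (nat_lit 5) (nat_lit 9))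
    (@En.n l40666 (nat_lit 10140) (nat_lit 6) (nat_lit 4))
    (@En.n l40667 (nat_lit 12149) (nat_lit 8) (nat_lit 12))
    (@En.n l28 (nat_lit 12411) (nat_lit 8) (nat_lit 4))
    (@En.n l13902 (nat_lit 10396) (nat_lit 0) (nat_lit 7))
    (@En.i (nat_lit 12235) (nat_lit 6) (nat_lit 12))
    (@En.n l28959 (nat_lit 8153) (nat_lit 12) (nat_lit 9))
    (@En.n l3519 (nat_lit 10617) (nat_lit 13) (nat_lit 12))
    (@En.n l40668 (nat_lit 9193) (nat_lit 14) (nat_lit 4))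
    (@En.i (nat_lit 10847) (nat_lit 0) (nat_lit 7))
    (@En.n l40669 (nat_lit 11797) (nat_lit 15) (nat_lit 3))))
  (@Cl.mk (nat_lit 0x3000c0004000b00090004000c00080005000d000400070003000d000c0008) (nat_lit 0x506309503000581) (nat_lit 16) Lb.e (@T16.mk En
    (@En.n l12432 (nat_lit 7942) (nat_lit 0) (nat_lit 8))
    (@En.n l644 (nat_lit 11827) (nat_lit 4) (nat_lit 12))
    (@En.n l3528 (nat_lit 9943) (nat_lit 2) (nat_lit 13))
    (@En.n l22650 (nat_lit 11831) (nat_lit 3) (nat_lit 3))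
    (@En.n l152 (nat_lit 5741) (nat_lit 11) (nat_lit 7))
    (@En.n l1992 (nat_lit 10144) (nat_lit 5) (nat_lit 4))
    (@En.n l619 (nat_lit 7616) (nat_lit 0) (nat_lit 13))
    (@En.n l2125 (nat_lit 12404) (nat_lit 1) (nat_lit 5))
    (@En.n l15539 (nat_lit 9179) (nat_lit 4) (nat_lit 8))
    (@En.n l31844 (nat_lit 11795) (nat_lit 10) (nat_lit 12))
    (@En.n l8241 (nat_lit 9199) (nat_lit 10) (nat_lit 4))
    (@En.i (nat_lit 8694) (nat_lit 0) (nat_lit 9))
    (@En.n l133 (nat_lit 10618) (nat_lit 1) (nat_lit 11))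
    (@En.n l39666 (nat_lit 9192) (nat_lit 9) (nat_lit 4))
    (@En.n l396 (nat_lit 10706) (nat_lit 11) (nat_lit 12))
    (@En.n l7 (nat_lit 11826) (nat_lit 1) (nat_lit 3))))
  (@Cl.mk (nat_lit 0x300070003000c0009000c00080004000c0004000900070004000d0008000d) (nat_lit 0x6281040400744) (nat_lit 16) Lb.e (@T16.mk En
    (@En.n l5646 (nat_lit 7320) (nat_lit 0) (nat_lit 13))
    (@En.i (nat_lit 11790) (nat_lit 3) (nat_lit 8))
    (@En.n l23098 (nat_lit 9946) (nat_lit 2) (nat_lit 13))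
    (@En.n l28285 (nat_lit 11808) (nat_lit 3) (nat_lit 4))
    (@En.n l17 (nat_lit 11826) (nat_lit 6) (nat_lit 7))
    (@En.n l8776 (nat_lit 10699) (nat_lit 5) (nat_lit 9))
    (@En.n l1992 (nat_lit 10141) (nat_lit 6) (nat_lit 4))
    (@En.n l619 (nat_lit 12148) (nat_lit 10) (nat_lit 12))
    (@En.n l2125 (nat_lit 12406) (nat_lit 8) (nat_lit 4))
    (@En.n l1769 (nat_lit 9207) (nat_lit 0) (nat_lit 8))
    (@En.n l31843 (nat_lit 12239) (nat_lit 6) (nat_lit 12))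
    (@En.i (nat_lit 8150) (nat_lit 12) (nat_lit 9))
    (@En.i (nat_lit 11474) (nat_lit 13) (nat_lit 12))
    (@En.i (nat_lit 11828) (nat_lit 15) (nat_lit 3))
    (@En.n l12585 (nat_lit 11435) (nat_lit 0) (nat_lit 7))
    (@En.n l31844 (nat_lit 11795) (nat_lit 15) (nat_lit 3))))
  (@Cl.mk (nat_lit 0x30006000c000a000a000700040008000c00060006000a0004000d00090008) (nat_lit 0x21600590030b52) (nat_lit 16) Lb.e (@T16.mk En
    (@En.n l9155 (nat_lit 11699) (nat_lit 0) (nat_lit 8))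
    (@En.i (nat_lit 11606) (nat_lit 14) (nat_lit 9))
    (@En.n l28520 (nat_lit 11673) (nat_lit 2) (nat_lit 13))
    (@En.n l31803 (nat_lit 11473) (nat_lit 3) (nat_lit 4))
    (@En.i (nat_lit 11764) (nat_lit 4) (nat_lit 10))
    (@En.n l22685 (nat_lit 11675) (nat_lit 10) (nat_lit 6))
    (@En.n l31804 (nat_lit 11871) (nat_lit 6) (nat_lit 6))
    (@En.i (nat_lit 7269) (nat_lit 7) (nat_lit 12))
    (@En.n l11434 (nat_lit 11705) (nat_lit 11) (nat_lit 8))
    (@En.n l31805 (nat_lit 11718) (nat_lit 9) (nat_lit 4))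
    (@En.i (nat_lit 9943) (nat_lit 0) (nat_lit 7))
    (@En.n l8906 (nat_lit 11729) (nat_lit 6) (nat_lit 10))
    (@En.n l31806 (nat_lit 8782) (nat_lit 13) (nat_lit 10))
    (@En.n l31807 (nat_lit 10924) (nat_lit 14) (nat_lit 12))
    (@En.n l31808 (nat_lit 10991) (nat_lit 12) (nat_lit 6))
    (@En.n l18 (nat_lit 11799) (nat_lit 15) (nat_lit 3))))
  (@Cl.mk (nat_lit 0x30006000c000a000a000600040009000c00060006000a0004000d0007000a) (nat_lit 0x32300760030604) (nat_lit 16) Lb.e (@T16.mk En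
    (@En.n l36928 (nat_lit 11341) (nat_lit 0) (nat_lit 10))
    (@En.i (nat_lit 11801) (nat_lit 14) (nat_lit 7))
    (@En.i (nat_lit 11800) (nat_lit 2) (nat_lit 13))
    (@En.n l25076 (nat_lit 11737) (nat_lit 3) (nat_lit 4))
    (@En.i (nat_lit 11761) (nat_lit 4) (nat_lit 10))
    (@En.n l11401 (nat_lit 11679) (nat_lit 10) (nat_lit 6))
    (@En.i (nat_lit 11869) (nat_lit 6) (nat_lit 6))
    (@En.i (nat_lit 7268) (nat_lit 6) (nat_lit 12))
    (@En.n l16218 (nat_lit 10759) (nat_lit 9) (nat_lit 9))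
    (@En.n l1003 (nat_lit 11719) (nat_lit 9) (nat_lit 4))
    (@En.i (nat_lit 9879) (nat_lit 0) (nat_lit 6))
    (@En.n l8906 (nat_lit 10758) (nat_lit 6) (nat_lit 10))
    (@En.n l11403 (nat_lit 8816) (nat_lit 13) (nat_lit 10))
    (@En.n l36929 (nat_lit 10925) (nat_lit 14) (nat_lit 12))
    (@En.i (nat_lit 7792) (nat_lit 12) (nat_lit 6))
    (@En.i (nat_lit 11798) (nat_lit 15) (nat_lit 3))))
  (@Cl.mk (nat_lit 0x300080006000c000a000a00070004000a000800060006000a000d00060009) (nat_lit 0x204410085002503) (nat_lit 16) Lb.e (@T16.mk En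
    (@En.n l32992 (nat_lit 11345) (nat_lit 0) (nat_lit 9))
    (@En.n l21381 (nat_lit 9329) (nat_lit 8) (nat_lit 6))
    (@En.n l32993 (nat_lit 7942) (nat_lit 5) (nat_lit 13))
    (@En.i (nat_lit 11763) (nat_lit 3) (nat_lit 10))
    (@En.n l11401 (nat_lit 11676) (nat_lit 10) (nat_lit 6))
    (@En.n l32993 (nat_lit 11868) (nat_lit 5) (nat_lit 6))
    (@En.n l396 (nat_lit 12471) (nat_lit 6) (nat_lit 8))
    (@En.n l16218 (nat_lit 11803) (nat_lit 8) (nat_lit 10))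
    (@En.n l1003 (nat_lit 11717) (nat_lit 8) (nat_lit 4))
    (@En.i (nat_lit 9878) (nat_lit 0) (nat_lit 7))
    (@En.n l8906 (nat_lit 7946) (nat_lit 6) (nat_lit 10))
    (@En.n l32994 (nat_lit 8817) (nat_lit 12) (nat_lit 10))
    (@En.n l32995 (nat_lit 11302) (nat_lit 13) (nat_lit 12))
    (@En.n l7 (nat_lit 11799) (nat_lit 14) (nat_lit 6))
    (@En.n l644 (nat_lit 11801) (nat_lit 12) (nat_lit 8))
    (@En.n l28520 (nat_lit 11673) (nat_lit 15) (nat_lit 3))))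
  (@Cl.mk (nat_lit 0x40007000a00080005000c000900090006000400090008000c00070007000b) (nat_lit 0x31022300767003) (nat_lit 16) Lb.e (@T16.mk En
    (@En.i (nat_lit 11762) (nat_lit 0) (nat_lit 11))
    (@En.n l11401 (nat_lit 9333) (nat_lit 9) (nat_lit 7))
    (@En.n l21377 (nat_lit 9722) (nat_lit 12) (nat_lit 7))
    (@En.n l50 (nat_lit 11799) (nat_lit 7) (nat_lit 12))
    (@En.n l217 (nat_lit 11798) (nat_lit 8) (nat_lit 8))
    (@En.n l16218 (nat_lit 11802) (nat_lit 5) (nat_lit 9))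
    (@En.n l1003 (nat_lit 11720) (nat_lit 6) (nat_lit 4))
    (@En.i (nat_lit 9804) (nat_lit 0) (nat_lit 6))
    (@En.n l8906 (nat_lit 11732) (nat_lit 7) (nat_lit 9))
    (@En.n l11403 (nat_lit 8432) (nat_lit 7) (nat_lit 9))
    (@En.n l21378 (nat_lit 12060) (nat_lit 11) (nat_lit 12))
    (@En.n l5598 (nat_lit 5692) (nat_lit 4) (nat_lit 5))
    (@En.n l21379 (nat_lit 40) (nat_lit 5) (nat_lit 8))
    (@En.n l21380 (nat_lit 11372) (nat_lit 8) (nat_lit 10))
    (@En.n l21381 (nat_lit 9328) (nat_lit 11) (nat_lit 7))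
    (@En.n l21382 (nat_lit 11736) (nat_lit 15) (nat_lit 4))))
  (@Cl.mk (nat_lit 0x40007000c000a000900060004000a000a000600090007000c00060006000a) (nat_lit 0x84600130606003) (nat_lit 16) Lb.e (@T16.mk En
    (@En.n l17133 (nat_lit 11768) (nat_lit 0) (nat_lit 10))
    (@En.n l152 (nat_lit 12228) (nat_lit 10) (nat_lit 6))
    (@En.n l10345 (nat_lit 9723) (nat_lit 8) (nat_lit 6))
    (@En.n l7 (nat_lit 10759) (nat_lit 8) (nat_lit 12))
    (@En.n l15205 (nat_lit 11743) (nat_lit 9) (nat_lit 7))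
    (@En.n l17133 (nat_lit 12285) (nat_lit 9) (nat_lit 9))
    (@En.n l35635 (nat_lit 9805) (nat_lit 6) (nat_lit 6))
    (@En.n l3536 (nat_lit 10756) (nat_lit 6) (nat_lit 10))
    (@En.n l35496 (nat_lit 8393) (nat_lit 9) (nat_lit 10))
    (@En.n l37175 (nat_lit 11777) (nat_lit 9) (nat_lit 4))
    (@En.n l21302 (nat_lit 5690) (nat_lit 0) (nat_lit 6))
    (@En.n l3023 (nat_lit 12208) (nat_lit 1) (nat_lit 9))
    (@En.n l899 (nat_lit 11801) (nat_lit 13) (nat_lit 10))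
    (@En.n l37176 (nat_lit 11805) (nat_lit 8) (nat_lit 12))
    (@En.n l37177 (nat_lit 9327) (nat_lit 11) (nat_lit 7))
    (@En.n l25898 (nat_lit 11738) (nat_lit 15) (nat_lit 4))))
  (@Cl.mk (nat_lit 0x4000900070005000b000b0007000a0007000500050009000c0006000b0009) (nat_lit 0x700140700024084) (nat_lit 16) Lb.e (@T16.mk En
    (@En.n l899 (nat_lit 11800) (nat_lit 0) (nat_lit 9))
    (@En.n l41715 (nat_lit 11806) (nat_lit 1) (nat_lit 11))
    (@En.n l41716 (nat_lit 9330) (nat_lit 5) (nat_lit 6))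
    (@En.n l3039 (nat_lit 11336) (nat_lit 6) (nat_lit 12))
    (@En.n l17133 (nat_lit 11947) (nat_lit 10) (nat_lit 9))
    (@En.n l152 (nat_lit 12230) (nat_lit 11) (nat_lit 5))
    (@En.n l36714 (nat_lit 11783) (nat_lit 0) (nat_lit 5))
    (@En.n l8050 (nat_lit 9163) (nat_lit 0) (nat_lit 7))
    (@En.n l17133 (nat_lit 9234) (nat_lit 8) (nat_lit 10))
    (@En.i (nat_lit 9874) (nat_lit 2) (nat_lit 7))
    (@En.n l3536 (nat_lit 10755) (nat_lit 5) (nat_lit 11))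
    (@En.n l41717 (nat_lit 8391) (nat_lit 12) (nat_lit 11))
    (@En.n l41718 (nat_lit 10857) (nat_lit 11) (nat_lit 5))
    (@En.n l28 (nat_lit 10759) (nat_lit 14) (nat_lit 7))
    (@En.n l77 (nat_lit 11802) (nat_lit 11) (nat_lit 9))
    (@En.n l3523 (nat_lit 11344) (nat_lit 15) (nat_lit 4))))
  (@Cl.mk (nat_lit 0x300060004000c000b000b00070004000c00050005000a0004000d000c0009) (nat_lit 0x4460070030674) (nat_lit 16) Lb.e (@T16.mk En
    (@En.n l32996 (nat_lit 11337) (nat_lit 0) (nat_lit 9))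
    (@En.n l32997 (nat_lit 11809) (nat_lit 4) (nat_lit 12))
    (@En.n l32998 (nat_lit 11806) (nat_lit 2) (nat_lit 13))
    (@En.n l32999 (nat_lit 11810) (nat_lit 3) (nat_lit 4))
    (@En.n l33000 (nat_lit 10697) (nat_lit 4) (nat_lit 10))
    (@En.n l27582 (nat_lit 12577) (nat_lit 11) (nat_lit 5))
    (@En.n l33001 (nat_lit 11837) (nat_lit 6) (nat_lit 5))
    (@En.n l27584 (nat_lit 12153) (nat_lit 8) (nat_lit 12))
    (@En.i (nat_lit 12415) (nat_lit 8) (nat_lit 4))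
    (@En.n l14204 (nat_lit 10144) (nat_lit 0) (nat_lit 7))
    (@En.n l14222 (nat_lit 12364) (nat_lit 5) (nat_lit 11))
    (@En.n l28307 (nat_lit 12432) (nat_lit 12) (nat_lit 11))
    (@En.n l33000 (nat_lit 11799) (nat_lit 13) (nat_lit 12))
    (@En.n l33002 (nat_lit 12681) (nat_lit 14) (nat_lit 4))
    (@En.n l3522 (nat_lit 12772) (nat_lit 12) (nat_lit 6))
    (@En.n l27586 (nat_lit 11808) (nat_lit 15) (nat_lit 3))))
  (@Cl.mk (nat_lit 0x40008000c00060006000b0004000c0009000800050004000c000a000a0007) (nat_lit 0x680040733003450) (nat_lit 16) Lb.e (@T16.mk En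
    (@En.i (nat_lit 11812) (nat_lit 0) (nat_lit 7))
    (@En.i (nat_lit 12360) (nat_lit 6) (nat_lit 10))
    (@En.n l61 (nat_lit 11779) (nat_lit 6) (nat_lit 10))
    (@En.n l32956 (nat_lit 11801) (nat_lit 10) (nat_lit 12))
    (@En.n l7 (nat_lit 11876) (nat_lit 12) (nat_lit 4))
    (@En.n l18113 (nat_lit 12455) (nat_lit 0) (nat_lit 5))
    (@En.n l32957 (nat_lit 11023) (nat_lit 8) (nat_lit 8))
    (@En.n l28747 (nat_lit 11344) (nat_lit 14) (nat_lit 9))
    (@En.n l32958 (nat_lit 12722) (nat_lit 2) (nat_lit 12))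
    (@En.n l32959 (nat_lit 12001) (nat_lit 9) (nat_lit 4))
    (@En.n l32956 (nat_lit 10703) (nat_lit 0) (nat_lit 11))
    (@En.n l32960 (nat_lit 12644) (nat_lit 10) (nat_lit 6))
    (@En.n l27806 (nat_lit 11096) (nat_lit 7) (nat_lit 6))
    (@En.n l29405 (nat_lit 11804) (nat_lit 7) (nat_lit 12))
    (@En.n l32961 (nat_lit 11706) (nat_lit 11) (nat_lit 8))
    (@En.n l29405 (nat_lit 12361) (nat_lit 15) (nat_lit 4))))
  (@Cl.mk (nat_lit 0x3000800060005000c000b000b00080004000800050005000a000d000b0008) (nat_lit 0x400554402002573) (nat_lit 16) Lb.e (@T16.mk En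
    (@En.n l6707 (nat_lit 11339) (nat_lit 0) (nat_lit 8))
    (@En.n l17312 (nat_lit 9242) (nat_lit 10) (nat_lit 11))
    (@En.n l6707 (nat_lit 12605) (nat_lit 5) (nat_lit 13))
    (@En.n l17313 (nat_lit 10695) (nat_lit 3) (nat_lit 10))
    (@En.n l17314 (nat_lit 12579) (nat_lit 11) (nat_lit 5))
    (@En.n l2473 (nat_lit 11839) (nat_lit 5) (nat_lit 5))
    (@En.n l17315 (nat_lit 10267) (nat_lit 6) (nat_lit 8))
    (@En.n l17316 (nat_lit 12371) (nat_lit 7) (nat_lit 4))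
    (@En.n l17317 (nat_lit 10140) (nat_lit 0) (nat_lit 8))
    (@En.n l17318 (nat_lit 12365) (nat_lit 5) (nat_lit 11))
    (@En.i (nat_lit 12430) (nat_lit 5) (nat_lit 11))
    (@En.n l17313 (nat_lit 11800) (nat_lit 12) (nat_lit 12))
    (@En.n l17319 (nat_lit 12688) (nat_lit 11) (nat_lit 5))
    (@En.n l17320 (nat_lit 11804) (nat_lit 14) (nat_lit 6))
    (@En.n l17321 (nat_lit 11805) (nat_lit 6) (nat_lit 8))
    (@En.n l17322 (nat_lit 11807) (nat_lit 15) (nat_lit 3))))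
  (@Cl.mk (nat_lit 0x3000800060004000c000b000b00090004000800050005000a000d0007000c) (nat_lit 0x300558304002603) (nat_lit 16) Lb.e (@T16.mk En
    (@En.n l27600 (nat_lit 2717) (nat_lit 0) (nat_lit 12))
    (@En.n l13902 (nat_lit 10417) (nat_lit 4) (nat_lit 7))
    (@En.i (nat_lit 12603) (nat_lit 5) (nat_lit 13))
    (@En.n l27601 (nat_lit 10694) (nat_lit 3) (nat_lit 10))
    (@En.n l6961 (nat_lit 12578) (nat_lit 11) (nat_lit 5))
    (@En.n l27602 (nat_lit 11838) (nat_lit 5) (nat_lit 5))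
    (@En.n l9885 (nat_lit 10268) (nat_lit 6) (nat_lit 8))
    (@En.n l6289 (nat_lit 12585) (nat_lit 7) (nat_lit 4))
    (@En.n l55 (nat_lit 11795) (nat_lit 0) (nat_lit 9))
    (@En.n l6963 (nat_lit 12369) (nat_lit 5) (nat_lit 11))
    (@En.n l27603 (nat_lit 12429) (nat_lit 5) (nat_lit 11))
    (@En.n l72 (nat_lit 11673) (nat_lit 12) (nat_lit 12))
    (@En.n l27600 (nat_lit 11811) (nat_lit 12) (nat_lit 4))
    (@En.n l7444 (nat_lit 11808) (nat_lit 14) (nat_lit 6))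
    (@En.n l27601 (nat_lit 11966) (nat_lit 1) (nat_lit 8))
    (@En.n l23821 (nat_lit 11806) (nat_lit 15) (nat_lit 3))))
noncomputable def a738 : T16 Cl := @T16.mk Cl
  (@Cl.mk (nat_lit 0x300060003000c000b000b00080004000c00050005000a0004000d0008000d) (nat_lit 0x3472080030754) (nat_lit 16) Lb.e (@T16.mk En
    (@En.n l619 (nat_lit 2720) (nat_lit 0) (nat_lit 13))
    (@En.n l33278 (nat_lit 11896) (nat_lit 3) (nat_lit 8))
    (@En.n l31883 (nat_lit 11807) (nat_lit 2) (nat_lit 13))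
    (@En.n l18271 (nat_lit 11851) (nat_lit 3) (nat_lit 4))
    (@En.i (nat_lit 10696) (nat_lit 4) (nat_lit 10))
    (@En.n l8147 (nat_lit 12574) (nat_lit 11) (nat_lit 5))
    (@En.n l33279 (nat_lit 11836) (nat_lit 6) (nat_lit 5))
    (@En.n l20348 (nat_lit 12151) (nat_lit 8) (nat_lit 12))
    (@En.n l7 (nat_lit 12582) (nat_lit 8) (nat_lit 4))
    (@En.i (nat_lit 11796) (nat_lit 0) (nat_lit 8))
    (@En.n l17531 (nat_lit 12367) (nat_lit 5) (nat_lit 11))
    (@En.n l644 (nat_lit 12431) (nat_lit 12) (nat_lit 11))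
    (@En.n l3528 (nat_lit 11798) (nat_lit 13) (nat_lit 12))
    (@En.n l33280 (nat_lit 11809) (nat_lit 15) (nat_lit 3))
    (@En.i (nat_lit 10999) (nat_lit 12) (nat_lit 6))
    (@En.n l18641 (nat_lit 11804) (nat_lit 15) (nat_lit 3))))
  (@Cl.mk (nat_lit 0x3000c000b000b00080004000c00050005000b0004000c0008000d00050004) (nat_lit 0x462207008063400) (nat_lit 16) Lb.e (@T16.mk En
    (@En.i (nat_lit 12665) (nat_lit 0) (nat_lit 4))
    (@En.n l27604 (nat_lit 12441) (nat_lit 0) (nat_lit 5))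
    (@En.n l27605 (nat_lit 2723) (nat_lit 1) (nat_lit 13))
    (@En.n l27606 (nat_lit 11821) (nat_lit 3) (nat_lit 8))
    (@En.n l27607 (nat_lit 11811) (nat_lit 2) (nat_lit 12))
    (@En.n l27608 (nat_lit 11850) (nat_lit 5) (nat_lit 4))
    (@En.n l27609 (nat_lit 10476) (nat_lit 0) (nat_lit 11))
    (@En.n l7946 (nat_lit 12575) (nat_lit 11) (nat_lit 5))
    (@En.n l117 (nat_lit 9247) (nat_lit 8) (nat_lit 5))
    (@En.n l13969 (nat_lit 12152) (nat_lit 10) (nat_lit 12))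
    (@En.n l27610 (nat_lit 12583) (nat_lit 10) (nat_lit 4))
    (@En.n l27611 (nat_lit 11831) (nat_lit 0) (nat_lit 8))
    (@En.n l27612 (nat_lit 12368) (nat_lit 5) (nat_lit 11))
    (@En.n l27613 (nat_lit 12433) (nat_lit 5) (nat_lit 11))
    (@En.n l27614 (nat_lit 11805) (nat_lit 3) (nat_lit 12))
    (@En.n l27609 (nat_lit 11808) (nat_lit 13) (nat_lit 3))))
  (@Cl.mk (nat_lit 0x300080004000c000a000a00070004000c0008000600060004000d000c0009) (nat_lit 0x204460063000665) (nat_lit 16) Lb.e (@T16.mk En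
    (@En.n l20075 (nat_lit 11338) (nat_lit 0) (nat_lit 9))
    (@En.n l27566 (nat_lit 11850) (nat_lit 4) (nat_lit 12))
    (@En.n l27567 (nat_lit 12002) (nat_lit 2) (nat_lit 13))
    (@En.n l27568 (nat_lit 11795) (nat_lit 3) (nat_lit 4))
    (@En.n l27569 (nat_lit 12576) (nat_lit 10) (nat_lit 6))
    (@En.n l27570 (nat_lit 11831) (nat_lit 5) (nat_lit 6))
    (@En.n l27571 (nat_lit 11806) (nat_lit 6) (nat_lit 8))
    (@En.n l27572 (nat_lit 12154) (nat_lit 8) (nat_lit 12))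
    (@En.n l27573 (nat_lit 11853) (nat_lit 8) (nat_lit 4))
    (@En.n l20075 (nat_lit 9204) (nat_lit 0) (nat_lit 7))
    (@En.n l152 (nat_lit 12366) (nat_lit 6) (nat_lit 10))
    (@En.n l27574 (nat_lit 9734) (nat_lit 12) (nat_lit 10))
    (@En.n l27575 (nat_lit 11737) (nat_lit 13) (nat_lit 12))
    (@En.n l27426 (nat_lit 12684) (nat_lit 14) (nat_lit 4))
    (@En.n l27576 (nat_lit 10924) (nat_lit 0) (nat_lit 8))
    (@En.n l27577 (nat_lit 11851) (nat_lit 15) (nat_lit 3))))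
  (@Cl.mk (nat_lit 0x4000400090004000c000b000b00090004000700050005000c000c0007000c) (nat_lit 0x30536500003501) (nat_lit 16) Lb.e (@T16.mk En
    (@En.i (nat_lit 1152) (nat_lit 0) (nat_lit 12))
    (@En.n l18169 (nat_lit 11581) (nat_lit 1) (nat_lit 7))
    (@En.n l27680 (nat_lit 12724) (nat_lit 4) (nat_lit 12))
    (@En.i (nat_lit 10814) (nat_lit 12) (nat_lit 12))
    (@En.n l8053 (nat_lit 9235) (nat_lit 11) (nat_lit 5))
    (@En.n l18 (nat_lit 12427) (nat_lit 5) (nat_lit 5))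
    (@En.n l28 (nat_lit 12771) (nat_lit 11) (nat_lit 7))
    (@En.n l77 (nat_lit 12195) (nat_lit 7) (nat_lit 4))
    (@En.n l7584 (nat_lit 11804) (nat_lit 0) (nat_lit 9))
    (@En.n l5653 (nat_lit 12201) (nat_lit 5) (nat_lit 11))
    (@En.n l601 (nat_lit 12435) (nat_lit 5) (nat_lit 11))
    (@En.i (nat_lit 12722) (nat_lit 12) (nat_lit 12))
    (@En.i (nat_lit 9242) (nat_lit 4) (nat_lit 4))
    (@En.n l3517 (nat_lit 11967) (nat_lit 0) (nat_lit 9))
    (@En.n l152 (nat_lit 12739) (nat_lit 12) (nat_lit 4))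
    (@En.i (nat_lit 12708) (nat_lit 0) (nat_lit 4))))
  (@Cl.mk (nat_lit 0x30007000c0005000b000a0004000b00090005000900060005000d000b0007) (nat_lit 0x60620540100440) (nat_lit 16) Lb.e (@T16.mk En
    (@En.n l40521 (nat_lit 7177) (nat_lit 0) (nat_lit 7))
    (@En.n l33055 (nat_lit 10273) (nat_lit 5) (nat_lit 11))
    (@En.n l32956 (nat_lit 9804) (nat_lit 2) (nat_lit 13))
    (@En.n l7 (nat_lit 10649) (nat_lit 3) (nat_lit 5))
    (@En.n l40522 (nat_lit 12111) (nat_lit 4) (nat_lit 6))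
    (@En.i (nat_lit 9396) (nat_lit 5) (nat_lit 9))
    (@En.n l40523 (nat_lit 10638) (nat_lit 6) (nat_lit 5))
    (@En.n l40521 (nat_lit 10158) (nat_lit 7) (nat_lit 9))
    (@En.n l40524 (nat_lit 11806) (nat_lit 9) (nat_lit 11))
    (@En.n l8083 (nat_lit 10701) (nat_lit 9) (nat_lit 4))
    (@En.n l40525 (nat_lit 10831) (nat_lit 6) (nat_lit 10))
    (@En.n l9876 (nat_lit 11791) (nat_lit 12) (nat_lit 11))
    (@En.n l40526 (nat_lit 11076) (nat_lit 13) (nat_lit 5))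
    (@En.n l33057 (nat_lit 10144) (nat_lit 14) (nat_lit 12))
    (@En.n l9877 (nat_lit 11475) (nat_lit 12) (nat_lit 7))
    (@En.n l33064 (nat_lit 11813) (nat_lit 15) (nat_lit 3))))
  (@Cl.mk (nat_lit 0x30007000c0004000b000a0004000b000a0005000900060005000d0006000c) (nat_lit 0x60520910100502) (nat_lit 16) Lb.e (@T16.mk En
    (@En.n l8551 (nat_lit 7350) (nat_lit 0) (nat_lit 12))
    (@En.n l36146 (nat_lit 10279) (nat_lit 4) (nat_lit 6))
    (@En.n l29207 (nat_lit 9803) (nat_lit 2) (nat_lit 13))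
    (@En.n l20334 (nat_lit 9683) (nat_lit 3) (nat_lit 5))
    (@En.n l17 (nat_lit 12112) (nat_lit 4) (nat_lit 6))
    (@En.n l36147 (nat_lit 9398) (nat_lit 5) (nat_lit 9))
    (@En.n l936 (nat_lit 11814) (nat_lit 6) (nat_lit 5))
    (@En.n l2824 (nat_lit 10157) (nat_lit 6) (nat_lit 10))
    (@En.n l20204 (nat_lit 11807) (nat_lit 9) (nat_lit 11))
    (@En.n l9856 (nat_lit 10698) (nat_lit 9) (nat_lit 4))
    (@En.i (nat_lit 10824) (nat_lit 6) (nat_lit 10))
    (@En.n l22637 (nat_lit 10423) (nat_lit 12) (nat_lit 11))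
    (@En.n l30117 (nat_lit 11075) (nat_lit 13) (nat_lit 4))
    (@En.i (nat_lit 10143) (nat_lit 0) (nat_lit 12))
    (@En.n l6918 (nat_lit 10948) (nat_lit 12) (nat_lit 7))
    (@En.n l29243 (nat_lit 11812) (nat_lit 15) (nat_lit 3))))
  (@Cl.mk (nat_lit 0x30007000b0004000b0007000b0005000c0005000900050004000d0009000c) (nat_lit 0x705030a0400852) (nat_lit 16) Lb.e (@T16.mk En
    (@En.n l9855 (nat_lit 7351) (nat_lit 0) (nat_lit 12))
    (@En.i (nat_lit 10643) (nat_lit 14) (nat_lit 9))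
    (@En.n l9852 (nat_lit 9920) (nat_lit 2) (nat_lit 13))
    (@En.n l10407 (nat_lit 9682) (nat_lit 12) (nat_lit 4))
    (@En.n l17 (nat_lit 12453) (nat_lit 4) (nat_lit 5))
    (@En.n l22634 (nat_lit 10884) (nat_lit 5) (nat_lit 9))
    (@En.n l22635 (nat_lit 10832) (nat_lit 6) (nat_lit 5))
    (@En.n l9855 (nat_lit 12585) (nat_lit 8) (nat_lit 12))
    (@En.n l17404 (nat_lit 11994) (nat_lit 8) (nat_lit 5))
    (@En.i (nat_lit 10156) (nat_lit 10) (nat_lit 11))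
    (@En.n l22636 (nat_lit 11815) (nat_lit 14) (nat_lit 7))
    (@En.n l22637 (nat_lit 11816) (nat_lit 12) (nat_lit 11))
    (@En.n l9855 (nat_lit 9696) (nat_lit 13) (nat_lit 4))
    (@En.i (nat_lit 12402) (nat_lit 8) (nat_lit 11))
    (@En.n l9859 (nat_lit 10665) (nat_lit 12) (nat_lit 7))
    (@En.n l22638 (nat_lit 10638) (nat_lit 15) (nat_lit 3))))
  (@Cl.mk (nat_lit 0x40007000b0004000c000a000800050004000c00090006000c00040008000c) (nat_lit 0x20634007503028) (nat_lit 16) Lb.e (@T16.mk En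
    (@En.n l38206 (nat_lit 11823) (nat_lit 7) (nat_lit 12))
    (@En.n l97 (nat_lit 10666) (nat_lit 1) (nat_lit 8))
    (@En.n l34241 (nat_lit 11805) (nat_lit 15) (nat_lit 4))
    (@En.n l38207 (nat_lit 11814) (nat_lit 0) (nat_lit 12))
    (@En.n l38206 (nat_lit 11813) (nat_lit 1) (nat_lit 6))
    (@En.n l28204 (nat_lit 10644) (nat_lit 5) (nat_lit 9))
    (@En.n l38208 (nat_lit 11956) (nat_lit 10) (nat_lit 12))
    (@En.n l38209 (nat_lit 9680) (nat_lit 12) (nat_lit 4))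
    (@En.n l38210 (nat_lit 12454) (nat_lit 0) (nat_lit 5))
    (@En.n l5879 (nat_lit 10887) (nat_lit 1) (nat_lit 8))
    (@En.n l38211 (nat_lit 12443) (nat_lit 11) (nat_lit 10))
    (@En.n l14514 (nat_lit 12586) (nat_lit 2) (nat_lit 12))
    (@En.n l34064 (nat_lit 11901) (nat_lit 9) (nat_lit 4))
    (@En.n l38212 (nat_lit 11817) (nat_lit 8) (nat_lit 11))
    (@En.n l22659 (nat_lit 11900) (nat_lit 11) (nat_lit 7))
    (@En.n l28663 (nat_lit 9697) (nat_lit 15) (nat_lit 4))))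
  (@Cl.mk (nat_lit 0x30007000c000b0006000a0004000b0005000a000900060005000d000a0006) (nat_lit 0x74080904500310) (nat_lit 16) Lb.e (@T16.mk En
    (@En.n l28324 (nat_lit 11295) (nat_lit 0) (nat_lit 6))
    (@En.n l38213 (nat_lit 67) (nat_lit 6) (nat_lit 10))
    (@En.n l23116 (nat_lit 9823) (nat_lit 2) (nat_lit 13))
    (@En.n l28285 (nat_lit 12439) (nat_lit 11) (nat_lit 5))
    (@En.n l8768 (nat_lit 11887) (nat_lit 4) (nat_lit 6))
    (@En.i (nat_lit 12456) (nat_lit 5) (nat_lit 9))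
    (@En.n l38214 (nat_lit 11815) (nat_lit 10) (nat_lit 10))
    (@En.n l21574 (nat_lit 7104) (nat_lit 7) (nat_lit 5))
    (@En.n l617 (nat_lit 11716) (nat_lit 9) (nat_lit 11))
    (@En.i (nat_lit 10422) (nat_lit 9) (nat_lit 4))
    (@En.i (nat_lit 10462) (nat_lit 9) (nat_lit 10))
    (@En.n l8776 (nat_lit 10419) (nat_lit 1) (nat_lit 6))
    (@En.n l16530 (nat_lit 11820) (nat_lit 13) (nat_lit 11))
    (@En.n l29256 (nat_lit 10634) (nat_lit 14) (nat_lit 12))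
    (@En.n l38215 (nat_lit 11442) (nat_lit 12) (nat_lit 7))
    (@En.n l34629 (nat_lit 11793) (nat_lit 15) (nat_lit 3))))
  (@Cl.mk (nat_lit 0x30007000c00040009000d0004000b0003000b000900070005000d0005000c) (nat_lit 0x30180107500a09) (nat_lit 16) Lb.e (@T16.mk En
    (@En.n l41027 (nat_lit 11217) (nat_lit 0) (nat_lit 12))
    (@En.n l41789 (nat_lit 11821) (nat_lit 9) (nat_lit 5))
    (@En.n l41790 (nat_lit 9820) (nat_lit 2) (nat_lit 13))
    (@En.n l38334 (nat_lit 12694) (nat_lit 3) (nat_lit 5))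
    (@En.n l41791 (nat_lit 9195) (nat_lit 13) (nat_lit 7))
    (@En.n l5367 (nat_lit 12411) (nat_lit 5) (nat_lit 9))
    (@En.n l28534 (nat_lit 12443) (nat_lit 7) (nat_lit 11))
    (@En.n l41792 (nat_lit 11819) (nat_lit 7) (nat_lit 3))
    (@En.n l38334 (nat_lit 6491) (nat_lit 0) (nat_lit 11))
    (@En.n l28537 (nat_lit 11793) (nat_lit 9) (nat_lit 4))
    (@En.i (nat_lit 10901) (nat_lit 6) (nat_lit 13))
    (@En.n l32937 (nat_lit 10461) (nat_lit 12) (nat_lit 9))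
    (@En.n l41028 (nat_lit 10703) (nat_lit 4) (nat_lit 4))
    (@En.n l7705 (nat_lit 10156) (nat_lit 0) (nat_lit 12))
    (@En.n l1992 (nat_lit 10824) (nat_lit 12) (nat_lit 7))
    (@En.n l41793 (nat_lit 11818) (nat_lit 15) (nat_lit 3))))
  (@Cl.mk (nat_lit 0x30007000c00050009000d0004000b0003000a000900070005000d000b0006) (nat_lit 0x60130203600a40) (nat_lit 16) Lb.e (@T16.mk En
    (@En.n l20121 (nat_lit 11382) (nat_lit 0) (nat_lit 6))
    (@En.n l41334 (nat_lit 11986) (nat_lit 10) (nat_lit 11))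
    (@En.n l41335 (nat_lit 9819) (nat_lit 2) (nat_lit 13))
    (@En.n l38102 (nat_lit 12440) (nat_lit 3) (nat_lit 5))
    (@En.n l619 (nat_lit 9197) (nat_lit 13) (nat_lit 7))
    (@En.n l6918 (nat_lit 12406) (nat_lit 5) (nat_lit 9))
    (@En.n l41336 (nat_lit 9816) (nat_lit 7) (nat_lit 10))
    (@En.n l35814 (nat_lit 11820) (nat_lit 7) (nat_lit 3))
    (@En.n l8551 (nat_lit 7009) (nat_lit 0) (nat_lit 11))
    (@En.n l41337 (nat_lit 11816) (nat_lit 9) (nat_lit 4))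
    (@En.n l35118 (nat_lit 10900) (nat_lit 6) (nat_lit 13))
    (@En.n l6590 (nat_lit 10459) (nat_lit 10) (nat_lit 9))
    (@En.n l14252 (nat_lit 10425) (nat_lit 4) (nat_lit 5))
    (@En.n l41338 (nat_lit 10157) (nat_lit 14) (nat_lit 12))
    (@En.n l41339 (nat_lit 12207) (nat_lit 6) (nat_lit 7))
    (@En.n l41340 (nat_lit 11817) (nat_lit 15) (nat_lit 3))))
  (@Cl.mk (nat_lit 0x30007000b00040009000d000a00050003000b000900070006000d0005000c) (nat_lit 0x40497009500908) (nat_lit 16) Lb.e (@T16.mk En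
    (@En.n l3902 (nat_lit 11218) (nat_lit 0) (nat_lit 12))
    (@En.n l33278 (nat_lit 11896) (nat_lit 9) (nat_lit 5))
    (@En.n l31748 (nat_lit 9815) (nat_lit 2) (nat_lit 13))
    (@En.n l2576 (nat_lit 11823) (nat_lit 10) (nat_lit 6))
    (@En.n l1769 (nat_lit 9196) (nat_lit 13) (nat_lit 7))
    (@En.n l10683 (nat_lit 12414) (nat_lit 5) (nat_lit 9))
    (@En.n l649 (nat_lit 10641) (nat_lit 7) (nat_lit 11))
    (@En.n l42713 (nat_lit 11817) (nat_lit 7) (nat_lit 3))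
    (@En.i (nat_lit 7799) (nat_lit 0) (nat_lit 5))
    (@En.n l3866 (nat_lit 11301) (nat_lit 10) (nat_lit 10))
    (@En.n l31753 (nat_lit 10885) (nat_lit 11) (nat_lit 13))
    (@En.n l31884 (nat_lit 10460) (nat_lit 12) (nat_lit 9))
    (@En.i (nat_lit 10705) (nat_lit 4) (nat_lit 4))
    (@En.i (nat_lit 10810) (nat_lit 8) (nat_lit 11))
    (@En.n l29212 (nat_lit 10825) (nat_lit 12) (nat_lit 7))
    (@En.i (nat_lit 11820) (nat_lit 15) (nat_lit 3))))
  (@Cl.mk (nat_lit 0x30007000b00050009000d000a00050003000a000900070006000d000b0006) (nat_lit 0x30128002600a70) (nat_lit 16) Lb.e (@T16.mk En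
    (@En.n l31747 (nat_lit 11381) (nat_lit 0) (nat_lit 6))
    (@En.n l10625 (nat_lit 11987) (nat_lit 10) (nat_lit 11))
    (@En.n l31748 (nat_lit 9817) (nat_lit 2) (nat_lit 13))
    (@En.n l31749 (nat_lit 12432) (nat_lit 10) (nat_lit 6))
    (@En.n l31750 (nat_lit 9198) (nat_lit 13) (nat_lit 7))
    (@En.n l29710 (nat_lit 12413) (nat_lit 5) (nat_lit 9))
    (@En.n l31751 (nat_lit 10650) (nat_lit 7) (nat_lit 10))
    (@En.n l31752 (nat_lit 11818) (nat_lit 7) (nat_lit 3))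
    (@En.n l10584 (nat_lit 7803) (nat_lit 0) (nat_lit 5))
    (@En.n l3866 (nat_lit 11298) (nat_lit 10) (nat_lit 10))
    (@En.n l31753 (nat_lit 10886) (nat_lit 11) (nat_lit 13))
    (@En.n l29710 (nat_lit 10456) (nat_lit 10) (nat_lit 9))
    (@En.n l3819 (nat_lit 10420) (nat_lit 4) (nat_lit 5))
    (@En.i (nat_lit 10812) (nat_lit 8) (nat_lit 11))
    (@En.n l31754 (nat_lit 12208) (nat_lit 6) (nat_lit 7))
    (@En.n l50 (nat_lit 11819) (nat_lit 15) (nat_lit 3))))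
  (@Cl.mk (nat_lit 0x3000b000a000a000800060005000c00060006000c00040008000d0004000a) (nat_lit 0x948300800302302) (nat_lit 16) Lb.e (@T16.mk En
    (@En.n l35997 (nat_lit 6482) (nat_lit 0) (nat_lit 10))
    (@En.i (nat_lit 10285) (nat_lit 15) (nat_lit 4))
    (@En.n l16345 (nat_lit 11920) (nat_lit 0) (nat_lit 13))
    (@En.n l6590 (nat_lit 9037) (nat_lit 11) (nat_lit 8))
    (@En.n l2691 (nat_lit 10419) (nat_lit 4) (nat_lit 4))
    (@En.n l40707 (nat_lit 11813) (nat_lit 0) (nat_lit 12))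
    (@En.n l40538 (nat_lit 11040) (nat_lit 10) (nat_lit 6))
    (@En.n l40708 (nat_lit 11289) (nat_lit 7) (nat_lit 6))
    (@En.n l36539 (nat_lit 11978) (nat_lit 9) (nat_lit 12))
    (@En.n l18 (nat_lit 11893) (nat_lit 9) (nat_lit 5))
    (@En.n l33906 (nat_lit 12681) (nat_lit 10) (nat_lit 6))
    (@En.n l619 (nat_lit 9175) (nat_lit 12) (nat_lit 8))
    (@En.i (nat_lit 11897) (nat_lit 6) (nat_lit 10))
    (@En.n l61 (nat_lit 11818) (nat_lit 6) (nat_lit 10))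
    (@En.i (nat_lit 11344) (nat_lit 10) (nat_lit 11))
    (@En.i (nat_lit 11896) (nat_lit 15) (nat_lit 3))))
  (@Cl.mk (nat_lit 0x30006000b0004000c0009000d000500040003000c000a0007000d0004000c) (nat_lit 0x30822000860208) (nat_lit 16) Lb.e (@T16.mk En
    (@En.n l1867 (nat_lit 12465) (nat_lit 0) (nat_lit 12))
    (@En.n l33423 (nat_lit 11809) (nat_lit 10) (nat_lit 4))
    (@En.n l17634 (nat_lit 12403) (nat_lit 0) (nat_lit 13))
    (@En.n l18291 (nat_lit 11830) (nat_lit 3) (nat_lit 7))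
    (@En.n l14515 (nat_lit 10774) (nat_lit 4) (nat_lit 10))
    (@En.i (nat_lit 11815) (nat_lit 6) (nat_lit 12))
    (@En.n l17517 (nat_lit 11824) (nat_lit 13) (nat_lit 3))
    (@En.n l4296 (nat_lit 12671) (nat_lit 0) (nat_lit 4))
    (@En.n l28665 (nat_lit 12439) (nat_lit 8) (nat_lit 5))
    (@En.i (nat_lit 4260) (nat_lit 1) (nat_lit 13))
    (@En.n l4007 (nat_lit 11817) (nat_lit 11) (nat_lit 9))
    (@En.n l14514 (nat_lit 12584) (nat_lit 12) (nat_lit 12))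
    (@En.i (nat_lit 12036) (nat_lit 5) (nat_lit 4))
    (@En.n l17517 (nat_lit 10471) (nat_lit 14) (nat_lit 11))
    (@En.n l1769 (nat_lit 12071) (nat_lit 12) (nat_lit 6))
    (@En.i (nat_lit 12433) (nat_lit 15) (nat_lit 3))))
  (@Cl.mk (nat_lit 0x300060004000c000a0006000d0004000c00030006000a0004000d000c000a) (nat_lit 0xa103070080b98) (nat_lit 16) Lb.e (@T16.mk En
    (@En.n l2824 (nat_lit 12794) (nat_lit 0) (nat_lit 10))
    (@En.n l39185 (nat_lit 11822) (nat_lit 11) (nat_lit 12))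
    (@En.i (nat_lit 11825) (nat_lit 12) (nat_lit 13))
    (@En.n l1075 (nat_lit 10299) (nat_lit 3) (nat_lit 4))
    (@En.n l5859 (nat_lit 10901) (nat_lit 4) (nat_lit 10))
    (@En.n l19455 (nat_lit 11918) (nat_lit 12) (nat_lit 6))
    (@En.n l6867 (nat_lit 12432) (nat_lit 6) (nat_lit 3))
    (@En.n l3082 (nat_lit 12464) (nat_lit 0) (nat_lit 12))
    (@En.n l18772 (nat_lit 11804) (nat_lit 8) (nat_lit 4))
    (@En.n l1596 (nat_lit 12402) (nat_lit 10) (nat_lit 13))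
    (@En.i (nat_lit 10143) (nat_lit 3) (nat_lit 6))
    (@En.n l7221 (nat_lit 44) (nat_lit 4) (nat_lit 10))
    (@En.n l5579 (nat_lit 11955) (nat_lit 13) (nat_lit 12))
    (@En.n l39186 (nat_lit 12694) (nat_lit 6) (nat_lit 4))
    (@En.i (nat_lit 12664) (nat_lit 12) (nat_lit 6))
    (@En.n l5870 (nat_lit 11824) (nat_lit 15) (nat_lit 3))))
noncomputable def a739 : T16 Cl := @T16.mk Cl
  (@Cl.mk (nat_lit 0x300060003000c000a0007000d0004000c00030006000a0004000d0009000d) (nat_lit 0x8603070030a56) (nat_lit 16) Lb.e (@T16.mk En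
    (@En.n l2038 (nat_lit 4257) (nat_lit 0) (nat_lit 13))
    (@En.i (nat_lit 11819) (nat_lit 11) (nat_lit 9))
    (@En.i (nat_lit 12428) (nat_lit 12) (nat_lit 13))
    (@En.i (nat_lit 10298) (nat_lit 3) (nat_lit 4))
    (@En.i (nat_lit 10889) (nat_lit 4) (nat_lit 10))
    (@En.i (nat_lit 12070) (nat_lit 12) (nat_lit 6))
    (@En.i (nat_lit 12431) (nat_lit 6) (nat_lit 3))
    (@En.i (nat_lit 12466) (nat_lit 0) (nat_lit 12))
    (@En.i (nat_lit 11808) (nat_lit 8) (nat_lit 4))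
    (@En.n l899 (nat_lit 12401) (nat_lit 10) (nat_lit 13))
    (@En.i (nat_lit 11826) (nat_lit 3) (nat_lit 7))
    (@En.i (nat_lit 10768) (nat_lit 12) (nat_lit 10))
    (@En.i (nat_lit 11958) (nat_lit 13) (nat_lit 12))
    (@En.n l16433 (nat_lit 11822) (nat_lit 6) (nat_lit 3))
    (@En.i (nat_lit 8047) (nat_lit 12) (nat_lit 6))
    (@En.n l1992 (nat_lit 11823) (nat_lit 15) (nat_lit 3))))
  (@Cl.mk (nat_lit 0x30006000a000d000b00090003000800060005000c000a0007000d00040008) (nat_lit 0x2a870500a30506) (nat_lit 16) Lb.e (@T16.mk En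
    (@En.n l21310 (nat_lit 10985) (nat_lit 0) (nat_lit 8))
    (@En.n l23799 (nat_lit 11806) (nat_lit 7) (nat_lit 4))
    (@En.n l1596 (nat_lit 12413) (nat_lit 0) (nat_lit 13))
    (@En.i (nat_lit 10141) (nat_lit 1) (nat_lit 7))
    (@En.n l23800 (nat_lit 10765) (nat_lit 4) (nat_lit 10))
    (@En.n l5579 (nat_lit 11957) (nat_lit 12) (nat_lit 12))
    (@En.n l23801 (nat_lit 10770) (nat_lit 6) (nat_lit 5))
    (@En.n l17 (nat_lit 11823) (nat_lit 14) (nat_lit 6))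
    (@En.n l23802 (nat_lit 11815) (nat_lit 9) (nat_lit 8))
    (@En.n l5870 (nat_lit 12428) (nat_lit 9) (nat_lit 3))
    (@En.n l23803 (nat_lit 12795) (nat_lit 0) (nat_lit 9))
    (@En.n l23804 (nat_lit 12038) (nat_lit 12) (nat_lit 11))
    (@En.n l23803 (nat_lit 12034) (nat_lit 5) (nat_lit 13))
    (@En.n l5859 (nat_lit 10899) (nat_lit 3) (nat_lit 10))
    (@En.n l23800 (nat_lit 11937) (nat_lit 12) (nat_lit 6))
    (@En.n l23805 (nat_lit 12430) (nat_lit 15) (nat_lit 3))))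
  (@Cl.mk (nat_lit 0x3000b00090004000c00090005000d000400070003000d0007000d0003000c) (nat_lit 0x630920300060205) (nat_lit 16) Lb.e (@T16.mk En
    (@En.i (nat_lit 9160) (nat_lit 0) (nat_lit 12))
    (@En.i (nat_lit 11796) (nat_lit 15) (nat_lit 3))
    (@En.n l899 (nat_lit 7319) (nat_lit 0) (nat_lit 13))
    (@En.i (nat_lit 11792) (nat_lit 14) (nat_lit 7))
    (@En.n l2605 (nat_lit 9942) (nat_lit 2) (nat_lit 13))
    (@En.n l22650 (nat_lit 11830) (nat_lit 5) (nat_lit 3))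
    (@En.n l152 (nat_lit 8046) (nat_lit 11) (nat_lit 7))
    (@En.n l1992 (nat_lit 10143) (nat_lit 7) (nat_lit 4))
    (@En.n l619 (nat_lit 7618) (nat_lit 0) (nat_lit 13))
    (@En.n l2125 (nat_lit 12401) (nat_lit 1) (nat_lit 5))
    (@En.n l1769 (nat_lit 9196) (nat_lit 4) (nat_lit 9))
    (@En.i (nat_lit 11797) (nat_lit 10) (nat_lit 12))
    (@En.i (nat_lit 9200) (nat_lit 10) (nat_lit 4))
    (@En.i (nat_lit 8154) (nat_lit 14) (nat_lit 9))
    (@En.i (nat_lit 11470) (nat_lit 1) (nat_lit 11))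
    (@En.i (nat_lit 11827) (nat_lit 15) (nat_lit 3))))
  (@Cl.mk (nat_lit 0x3000b00090005000c00090005000d000400070003000c0007000d000b0004) (nat_lit 0x640920900070130) (nat_lit 16) Lb.e (@T16.mk En
    (@En.n l3199 (nat_lit 12106) (nat_lit 0) (nat_lit 4))
    (@En.n l217 (nat_lit 9206) (nat_lit 0) (nat_lit 11))
    (@En.n l8772 (nat_lit 3061) (nat_lit 1) (nat_lit 13))
    (@En.n l31778 (nat_lit 11791) (nat_lit 14) (nat_lit 7))
    (@En.n l2605 (nat_lit 9939) (nat_lit 13) (nat_lit 12))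
    (@En.n l22650 (nat_lit 11829) (nat_lit 5) (nat_lit 3))
    (@En.n l152 (nat_lit 5745) (nat_lit 11) (nat_lit 7))
    (@En.n l1992 (nat_lit 10145) (nat_lit 7) (nat_lit 4))
    (@En.n l619 (nat_lit 7617) (nat_lit 0) (nat_lit 13))
    (@En.n l3928 (nat_lit 12405) (nat_lit 1) (nat_lit 5))
    (@En.n l31750 (nat_lit 9198) (nat_lit 4) (nat_lit 9))
    (@En.i (nat_lit 11828) (nat_lit 12) (nat_lit 12))
    (@En.n l3928 (nat_lit 11840) (nat_lit 6) (nat_lit 5))
    (@En.i (nat_lit 8149) (nat_lit 14) (nat_lit 9))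
    (@En.n l31779 (nat_lit 9947) (nat_lit 9) (nat_lit 11))
    (@En.n l50 (nat_lit 11826) (nat_lit 15) (nat_lit 3))))
  (@Cl.mk (nat_lit 0x3000c0009000c00080004000c0004000a00070004000c0008000d00060004) (nat_lit 0x638104020034500) (nat_lit 16) Lb.e (@T16.mk En
    (@En.n l40818 (nat_lit 12108) (nat_lit 0) (nat_lit 4))
    (@En.i (nat_lit 10422) (nat_lit 0) (nat_lit 6))
    (@En.n l40819 (nat_lit 7321) (nat_lit 1) (nat_lit 13))
    (@En.n l31778 (nat_lit 11789) (nat_lit 3) (nat_lit 8))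
    (@En.n l40820 (nat_lit 9473) (nat_lit 10) (nat_lit 12))
    (@En.n l40821 (nat_lit 11809) (nat_lit 5) (nat_lit 4))
    (@En.n l17 (nat_lit 11827) (nat_lit 6) (nat_lit 7))
    (@En.n l38215 (nat_lit 10478) (nat_lit 1) (nat_lit 10))
    (@En.n l40822 (nat_lit 10142) (nat_lit 8) (nat_lit 4))
    (@En.n l40819 (nat_lit 12150) (nat_lit 10) (nat_lit 12))
    (@En.n l10995 (nat_lit 12412) (nat_lit 1) (nat_lit 4))
    (@En.n l40823 (nat_lit 10414) (nat_lit 0) (nat_lit 8))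
    (@En.n l40820 (nat_lit 12244) (nat_lit 6) (nat_lit 12))
    (@En.i (nat_lit 8148) (nat_lit 14) (nat_lit 9))
    (@En.n l40824 (nat_lit 9948) (nat_lit 3) (nat_lit 12))
    (@En.n l50 (nat_lit 11797) (nat_lit 13) (nat_lit 3))))
  (@Cl.mk (nat_lit 0x3000b000a0005000b00090005000d000600050003000c0007000d000b0004) (nat_lit 0x570320900070180) (nat_lit 16) Lb.e (@T16.mk En
    (@En.n l10171 (nat_lit 12107) (nat_lit 0) (nat_lit 4))
    (@En.n l77 (nat_lit 10413) (nat_lit 0) (nat_lit 11))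
    (@En.n l33186 (nat_lit 3056) (nat_lit 1) (nat_lit 13))
    (@En.n l4427 (nat_lit 10423) (nat_lit 14) (nat_lit 7))
    (@En.n l33187 (nat_lit 11075) (nat_lit 3) (nat_lit 12))
    (@En.n l21124 (nat_lit 11827) (nat_lit 5) (nat_lit 3))
    (@En.n l33188 (nat_lit 12710) (nat_lit 0) (nat_lit 5))
    (@En.n l31875 (nat_lit 11833) (nat_lit 7) (nat_lit 6))
    (@En.n l8770 (nat_lit 7614) (nat_lit 9) (nat_lit 13))
    (@En.n l33189 (nat_lit 12409) (nat_lit 9) (nat_lit 5))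
    (@En.n l4427 (nat_lit 9197) (nat_lit 4) (nat_lit 9))
    (@En.n l17688 (nat_lit 11809) (nat_lit 12) (nat_lit 11))
    (@En.n l10108 (nat_lit 10187) (nat_lit 6) (nat_lit 5))
    (@En.n l21124 (nat_lit 9091) (nat_lit 6) (nat_lit 10))
    (@En.n l8770 (nat_lit 11475) (nat_lit 9) (nat_lit 11))
    (@En.n l28 (nat_lit 11830) (nat_lit 15) (nat_lit 3))))
  (@Cl.mk (nat_lit 0x3000b000a0004000b00090005000d000600050003000d0007000d0003000c) (nat_lit 0x510820300060206) (nat_lit 16) Lb.e (@T16.mk En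
    (@En.n l2642 (nat_lit 9162) (nat_lit 0) (nat_lit 12))
    (@En.i (nat_lit 11831) (nat_lit 15) (nat_lit 3))
    (@En.n l7507 (nat_lit 7318) (nat_lit 0) (nat_lit 13))
    (@En.i (nat_lit 10421) (nat_lit 14) (nat_lit 7))
    (@En.n l18910 (nat_lit 11813) (nat_lit 2) (nat_lit 13))
    (@En.n l21124 (nat_lit 11826) (nat_lit 5) (nat_lit 3))
    (@En.n l21125 (nat_lit 12672) (nat_lit 0) (nat_lit 5))
    (@En.n l31875 (nat_lit 11834) (nat_lit 7) (nat_lit 6))
    (@En.n l8770 (nat_lit 7615) (nat_lit 9) (nat_lit 13))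
    (@En.n l13634 (nat_lit 12403) (nat_lit 7) (nat_lit 5))
    (@En.n l2642 (nat_lit 9195) (nat_lit 4) (nat_lit 9))
    (@En.n l2642 (nat_lit 11808) (nat_lit 10) (nat_lit 11))
    (@En.n l33422 (nat_lit 9202) (nat_lit 10) (nat_lit 4))
    (@En.n l21124 (nat_lit 9088) (nat_lit 6) (nat_lit 10))
    (@En.n l8770 (nat_lit 11467) (nat_lit 1) (nat_lit 11))
    (@En.i (nat_lit 11829) (nat_lit 15) (nat_lit 3))))
  (@Cl.mk (nat_lit 0x3000c0004000b000a0004000b00080005000d000600050003000d000c0008) (nat_lit 0x609107403000581) (nat_lit 16) Lb.e (@T16.mk En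
    (@En.n l31688 (nat_lit 11311) (nat_lit 0) (nat_lit 8))
    (@En.n l55 (nat_lit 11829) (nat_lit 4) (nat_lit 12))
    (@En.n l17395 (nat_lit 11812) (nat_lit 2) (nat_lit 13))
    (@En.n l21124 (nat_lit 11796) (nat_lit 3) (nat_lit 3))
    (@En.n l31825 (nat_lit 12713) (nat_lit 0) (nat_lit 5))
    (@En.n l31875 (nat_lit 11835) (nat_lit 5) (nat_lit 6))
    (@En.n l19494 (nat_lit 7613) (nat_lit 2) (nat_lit 13))
    (@En.n l40670 (nat_lit 12408) (nat_lit 7) (nat_lit 5))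
    (@En.n l31688 (nat_lit 9175) (nat_lit 4) (nat_lit 8))
    (@En.n l40671 (nat_lit 11804) (nat_lit 10) (nat_lit 11))
    (@En.n l40672 (nat_lit 9201) (nat_lit 10) (nat_lit 4))
    (@En.n l22723 (nat_lit 8548) (nat_lit 6) (nat_lit 10))
    (@En.n l1284 (nat_lit 11471) (nat_lit 1) (nat_lit 11))
    (@En.n l31690 (nat_lit 11832) (nat_lit 9) (nat_lit 4))
    (@En.n l1080 (nat_lit 10313) (nat_lit 11) (nat_lit 12))
    (@En.n l11 (nat_lit 11830) (nat_lit 1) (nat_lit 3))))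
  (@Cl.mk (nat_lit 0x3000c000c000a000900040004000b000a0006000b00070005000d00060005) (nat_lit 0x782300430500400) (nat_lit 16) Lb.e (@T16.mk En
    (@En.n l5934 (nat_lit 12197) (nat_lit 0) (nat_lit 5))
    (@En.n l28564 (nat_lit 9241) (nat_lit 6) (nat_lit 6))
    (@En.n l1012 (nat_lit 7602) (nat_lit 2) (nat_lit 13))
    (@En.n l14973 (nat_lit 12203) (nat_lit 3) (nat_lit 5))
    (@En.n l4961 (nat_lit 9108) (nat_lit 4) (nat_lit 7))
    (@En.n l40846 (nat_lit 12681) (nat_lit 11) (nat_lit 11))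
    (@En.n l50 (nat_lit 11887) (nat_lit 6) (nat_lit 6))
    (@En.n l217 (nat_lit 8543) (nat_lit 6) (nat_lit 10))
    (@En.n l476 (nat_lit 11873) (nat_lit 9) (nat_lit 11))
    (@En.n l152 (nat_lit 9191) (nat_lit 12) (nat_lit 4))
    (@En.n l37247 (nat_lit 11829) (nat_lit 0) (nat_lit 4))
    (@En.n l28105 (nat_lit 6097) (nat_lit 0) (nat_lit 9))
    (@En.n l619 (nat_lit 10414) (nat_lit 1) (nat_lit 10))
    (@En.n l24909 (nat_lit 12107) (nat_lit 4) (nat_lit 12))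
    (@En.i (nat_lit 11076) (nat_lit 3) (nat_lit 12))
    (@En.n l9105 (nat_lit 9192) (nat_lit 15) (nat_lit 3))))
  (@Cl.mk (nat_lit 0x3000a000a00090006000c000a0006000600040007000c0006000d000a0004) (nat_lit 0x485025000080130) (nat_lit 16) Lb.e (@T16.mk En
    (@En.n l14452 (nat_lit 9248) (nat_lit 0) (nat_lit 4))
    (@En.n l20820 (nat_lit 10419) (nat_lit 0) (nat_lit 10))
    (@En.n l8550 (nat_lit 337) (nat_lit 1) (nat_lit 13))
    (@En.n l14830 (nat_lit 11286) (nat_lit 3) (nat_lit 6))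
    (@En.n l20821 (nat_lit 11122) (nat_lit 8) (nat_lit 12))
    (@En.n l20822 (nat_lit 6468) (nat_lit 11) (nat_lit 7))
    (@En.n l1144 (nat_lit 12596) (nat_lit 6) (nat_lit 4))
    (@En.n l20823 (nat_lit 11164) (nat_lit 10) (nat_lit 6))
    (@En.n l20824 (nat_lit 10689) (nat_lit 1) (nat_lit 6))
    (@En.n l20825 (nat_lit 11887) (nat_lit 10) (nat_lit 10))
    (@En.n l14969 (nat_lit 9247) (nat_lit 11) (nat_lit 12))
    (@En.n l14969 (nat_lit 22) (nat_lit 4) (nat_lit 6))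
    (@En.n l2691 (nat_lit 11827) (nat_lit 13) (nat_lit 9))
    (@En.i (nat_lit 11907) (nat_lit 6) (nat_lit 10))
    (@En.n l20826 (nat_lit 11092) (nat_lit 14) (nat_lit 10))
    (@En.n l50 (nat_lit 11834) (nat_lit 15) (nat_lit 3))))
  (@Cl.mk (nat_lit 0x3000a000a00090005000c000a0006000600040007000d0006000d0003000b) (nat_lit 0x324025000050208) (nat_lit 16) Lb.e (@T16.mk En
    (@En.n l14806 (nat_lit 11746) (nat_lit 0) (nat_lit 11))
    (@En.i (nat_lit 11835) (nat_lit 15) (nat_lit 3))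
    (@En.n l6591 (nat_lit 345) (nat_lit 0) (nat_lit 13))
    (@En.n l13320 (nat_lit 11288) (nat_lit 3) (nat_lit 6))
    (@En.n l6589 (nat_lit 12112) (nat_lit 2) (nat_lit 13))
    (@En.n l20822 (nat_lit 6469) (nat_lit 11) (nat_lit 7))
    (@En.n l1144 (nat_lit 10771) (nat_lit 6) (nat_lit 4))
    (@En.n l1900 (nat_lit 11162) (nat_lit 10) (nat_lit 6))
    (@En.n l2766 (nat_lit 12437) (nat_lit 1) (nat_lit 6))
    (@En.i (nat_lit 11886) (nat_lit 10) (nat_lit 10))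
    (@En.n l31368 (nat_lit 11836) (nat_lit 9) (nat_lit 12))
    (@En.n l12306 (nat_lit 11838) (nat_lit 9) (nat_lit 5))
    (@En.n l2691 (nat_lit 11826) (nat_lit 13) (nat_lit 9))
    (@En.i (nat_lit 11905) (nat_lit 6) (nat_lit 10))
    (@En.n l21452 (nat_lit 11872) (nat_lit 13) (nat_lit 10))
    (@En.i (nat_lit 11833) (nat_lit 15) (nat_lit 3))))
  (@Cl.mk (nat_lit 0x3000b0004000a000a00090005000c00090006000600040007000d000c0007) (nat_lit 0x303240260000490) (nat_lit 16) Lb.e (@T16.mk En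
    (@En.n l34557 (nat_lit 5157) (nat_lit 0) (nat_lit 7))
    (@En.n l644 (nat_lit 11833) (nat_lit 4) (nat_lit 12))
    (@En.n l6589 (nat_lit 12111) (nat_lit 2) (nat_lit 13))
    (@En.n l20822 (nat_lit 6470) (nat_lit 11) (nat_lit 7))
    (@En.n l1144 (nat_lit 10769) (nat_lit 4) (nat_lit 4))
    (@En.n l20823 (nat_lit 11160) (nat_lit 10) (nat_lit 6))
    (@En.n l2766 (nat_lit 12436) (nat_lit 1) (nat_lit 6))
    (@En.n l18901 (nat_lit 11043) (nat_lit 8) (nat_lit 9))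
    (@En.n l14969 (nat_lit 11837) (nat_lit 9) (nat_lit 12))
    (@En.n l24974 (nat_lit 11839) (nat_lit 9) (nat_lit 5))
    (@En.n l2691 (nat_lit 11796) (nat_lit 11) (nat_lit 9))
    (@En.n l19986 (nat_lit 11903) (nat_lit 6) (nat_lit 10))
    (@En.n l40634 (nat_lit 11870) (nat_lit 13) (nat_lit 10))
    (@En.n l14452 (nat_lit 9241) (nat_lit 14) (nat_lit 4))
    (@En.n l29235 (nat_lit 12217) (nat_lit 0) (nat_lit 11))
    (@En.n l7 (nat_lit 11834) (nat_lit 1) (nat_lit 3))))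
  (@Cl.mk (nat_lit 0x300060003000b000b0009000c0009000500050004000a0007000d0007000d) (nat_lit 0x6231400060603) (nat_lit 16) Lb.e (@T16.mk En
    (@En.n l16659 (nat_lit 1007) (nat_lit 0) (nat_lit 13))
    (@En.n l16660 (nat_lit 11290) (nat_lit 3) (nat_lit 7))
    (@En.n l16661 (nat_lit 11838) (nat_lit 2) (nat_lit 13))
    (@En.n l16662 (nat_lit 11834) (nat_lit 5) (nat_lit 7))
    (@En.n l16663 (nat_lit 10967) (nat_lit 4) (nat_lit 10))
    (@En.n l3480 (nat_lit 10691) (nat_lit 5) (nat_lit 4))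
    (@En.n l16664 (nat_lit 11163) (nat_lit 11) (nat_lit 5))
    (@En.n l16665 (nat_lit 10775) (nat_lit 7) (nat_lit 5))
    (@En.n l13633 (nat_lit 9192) (nat_lit 11) (nat_lit 9))
    (@En.n l16666 (nat_lit 1085) (nat_lit 6) (nat_lit 12))
    (@En.n l16667 (nat_lit 11797) (nat_lit 11) (nat_lit 9))
    (@En.n l16668 (nat_lit 11909) (nat_lit 5) (nat_lit 11))
    (@En.n l16669 (nat_lit 11871) (nat_lit 13) (nat_lit 11))
    (@En.n l16670 (nat_lit 9247) (nat_lit 15) (nat_lit 3))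
    (@En.n l1081 (nat_lit 11641) (nat_lit 12) (nat_lit 6))
    (@En.n l16670 (nat_lit 11837) (nat_lit 15) (nat_lit 3))))
  (@Cl.mk (nat_lit 0x300060004000b000b0009000c0008000500050004000a0007000d000c0008) (nat_lit 0x6241200060591) (nat_lit 16) Lb.e (@T16.mk En
    (@En.n l7981 (nat_lit 5156) (nat_lit 0) (nat_lit 8))
    (@En.n l61 (nat_lit 9247) (nat_lit 4) (nat_lit 12))
    (@En.n l32013 (nat_lit 11839) (nat_lit 2) (nat_lit 13))
    (@En.n l8760 (nat_lit 11835) (nat_lit 3) (nat_lit 7))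
    (@En.n l32014 (nat_lit 11154) (nat_lit 4) (nat_lit 10))
    (@En.n l11 (nat_lit 10767) (nat_lit 5) (nat_lit 4))
    (@En.n l152 (nat_lit 11161) (nat_lit 11) (nat_lit 5))
    (@En.n l7976 (nat_lit 10774) (nat_lit 7) (nat_lit 5))
    (@En.i (nat_lit 11045) (nat_lit 0) (nat_lit 8))
    (@En.i (nat_lit 1087) (nat_lit 6) (nat_lit 12))
    (@En.n l32015 (nat_lit 11795) (nat_lit 11) (nat_lit 9))
    (@En.n l14916 (nat_lit 12733) (nat_lit 5) (nat_lit 11))
    (@En.n l32016 (nat_lit 11869) (nat_lit 13) (nat_lit 11))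
    (@En.i (nat_lit 9243) (nat_lit 14) (nat_lit 4))
    (@En.n l7980 (nat_lit 12633) (nat_lit 12) (nat_lit 6))
    (@En.n l32017 (nat_lit 11836) (nat_lit 15) (nat_lit 3))))
  (@Cl.mk (nat_lit 0x3000b00060004000b000b0005000c000a000500050004000a000d0006000c) (nat_lit 0x600550320005502) (nat_lit 16) Lb.e (@T16.mk En
    (@En.n l28069 (nat_lit 1020) (nat_lit 0) (nat_lit 12))
    (@En.n l28070 (nat_lit 10284) (nat_lit 4) (nat_lit 6))
    (@En.n l18 (nat_lit 12606) (nat_lit 5) (nat_lit 13))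
    (@En.n l28071 (nat_lit 8002) (nat_lit 3) (nat_lit 10))
    (@En.n l28072 (nat_lit 34) (nat_lit 4) (nat_lit 4))
    (@En.n l15252 (nat_lit 11166) (nat_lit 11) (nat_lit 5))
    (@En.n l901 (nat_lit 10772) (nat_lit 6) (nat_lit 5))
    (@En.n l28073 (nat_lit 9193) (nat_lit 0) (nat_lit 10))
    (@En.i (nat_lit 293) (nat_lit 9) (nat_lit 12))
    (@En.n l615 (nat_lit 10703) (nat_lit 9) (nat_lit 5))
    (@En.n l659 (nat_lit 12764) (nat_lit 5) (nat_lit 11))
    (@En.n l2137 (nat_lit 11873) (nat_lit 12) (nat_lit 11))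
    (@En.n l28069 (nat_lit 12427) (nat_lit 12) (nat_lit 4))
    (@En.n l28074 (nat_lit 11836) (nat_lit 14) (nat_lit 6))
    (@En.n l28070 (nat_lit 12345) (nat_lit 1) (nat_lit 11))
    (@En.n l28075 (nat_lit 11839) (nat_lit 15) (nat_lit 3))))
  (@Cl.mk (nat_lit 0x3000b00060005000b000b0005000c0009000500050004000a000d000b0007) (nat_lit 0x600490150005410) (nat_lit 16) Lb.e (@T16.mk En
    (@En.n l17415 (nat_lit 5158) (nat_lit 0) (nat_lit 7))
    (@En.n l17416 (nat_lit 22) (nat_lit 5) (nat_lit 11))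
    (@En.n l17415 (nat_lit 12608) (nat_lit 5) (nat_lit 13))
    (@En.n l17092 (nat_lit 8000) (nat_lit 3) (nat_lit 10))
    (@En.n l2486 (nat_lit 10764) (nat_lit 12) (nat_lit 4))
    (@En.n l17417 (nat_lit 11167) (nat_lit 11) (nat_lit 5))
    (@En.i (nat_lit 10773) (nat_lit 6) (nat_lit 5))
    (@En.n l17418 (nat_lit 11046) (nat_lit 0) (nat_lit 9))
    (@En.n l17419 (nat_lit 300) (nat_lit 9) (nat_lit 12))
    (@En.n l7464 (nat_lit 10705) (nat_lit 9) (nat_lit 5))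
    (@En.n l17420 (nat_lit 12735) (nat_lit 5) (nat_lit 11))
    (@En.n l17421 (nat_lit 11868) (nat_lit 12) (nat_lit 11))
    (@En.n l17422 (nat_lit 11853) (nat_lit 11) (nat_lit 5))
    (@En.n l17423 (nat_lit 11837) (nat_lit 14) (nat_lit 6))
    (@En.n l17424 (nat_lit 11093) (nat_lit 1) (nat_lit 11))
    (@En.n l17425 (nat_lit 11838) (nat_lit 15) (nat_lit 3))))
noncomputable def a740 : T16 Cl := @T16.mk Cl
  (@Cl.mk (nat_lit 0x3000b0007000c000b000600050004000c0005000c00090004000d0004000a) (nat_lit 0x609200040a50308) (nat_lit 16) Lb.e (@T16.mk En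
    (@En.n l40981 (nat_lit 11159) (nat_lit 0) (nat_lit 10))
    (@En.n l40982 (nat_lit 10272) (nat_lit 15) (nat_lit 4))
    (@En.n l8681 (nat_lit 10435) (nat_lit 2) (nat_lit 13))
    (@En.i (nat_lit 11841) (nat_lit 1) (nat_lit 4))
    (@En.n l40982 (nat_lit 10186) (nat_lit 4) (nat_lit 9))
    (@En.n l40983 (nat_lit 12059) (nat_lit 1) (nat_lit 12))
    (@En.i (nat_lit 8749) (nat_lit 6) (nat_lit 5))
    (@En.n l40984 (nat_lit 11714) (nat_lit 8) (nat_lit 12))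
    (@En.n l18752 (nat_lit 9200) (nat_lit 12) (nat_lit 4))
    (@En.n l17 (nat_lit 9194) (nat_lit 11) (nat_lit 5))
    (@En.n l8906 (nat_lit 11828) (nat_lit 1) (nat_lit 6))
    (@En.n l40984 (nat_lit 10294) (nat_lit 12) (nat_lit 11))
    (@En.n l20501 (nat_lit 8318) (nat_lit 13) (nat_lit 12))
    (@En.n l40985 (nat_lit 11793) (nat_lit 14) (nat_lit 7))
    (@En.n l40986 (nat_lit 9469) (nat_lit 11) (nat_lit 11))
    (@En.n l40982 (nat_lit 10187) (nat_lit 15) (nat_lit 3))))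
  (@Cl.mk (nat_lit 0x3000a0003000b0009000c000a000600050004000c00070006000d0004000d) (nat_lit 0x502625000500b01) (nat_lit 16) Lb.e (@T16.mk En
    (@En.i (nat_lit 1601) (nat_lit 0) (nat_lit 13))
    (@En.n l17680 (nat_lit 10181) (nat_lit 3) (nat_lit 4))
    (@En.n l24584 (nat_lit 12058) (nat_lit 2) (nat_lit 13))
    (@En.i (nat_lit 10192) (nat_lit 10) (nat_lit 6))
    (@En.n l936 (nat_lit 11842) (nat_lit 4) (nat_lit 7))
    (@En.n l30164 (nat_lit 11845) (nat_lit 8) (nat_lit 12))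
    (@En.i (nat_lit 10296) (nat_lit 6) (nat_lit 4))
    (@En.n l17 (nat_lit 9087) (nat_lit 11) (nat_lit 5))
    (@En.i (nat_lit 12412) (nat_lit 8) (nat_lit 6))
    (@En.n l30165 (nat_lit 8482) (nat_lit 10) (nat_lit 10))
    (@En.n l10040 (nat_lit 8634) (nat_lit 6) (nat_lit 12))
    (@En.n l8778 (nat_lit 10771) (nat_lit 14) (nat_lit 9))
    (@En.n l11419 (nat_lit 9274) (nat_lit 13) (nat_lit 11))
    (@En.i (nat_lit 11844) (nat_lit 15) (nat_lit 3))
    (@En.i (nat_lit 11593) (nat_lit 0) (nat_lit 10))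
    (@En.i (nat_lit 9733) (nat_lit 15) (nat_lit 3))))
  (@Cl.mk (nat_lit 0x300090003000a00090007000c000b00070006000400070005000d0009000d) (nat_lit 0x502603600000a61) (nat_lit 16) Lb.e (@T16.mk En
    (@En.n l31300 (nat_lit 1599) (nat_lit 0) (nat_lit 13))
    (@En.i (nat_lit 10420) (nat_lit 3) (nat_lit 9))
    (@En.n l31301 (nat_lit 12057) (nat_lit 2) (nat_lit 13))
    (@En.i (nat_lit 8150) (nat_lit 3) (nat_lit 5))
    (@En.n l31302 (nat_lit 8109) (nat_lit 11) (nat_lit 7))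
    (@En.n l8776 (nat_lit 10298) (nat_lit 5) (nat_lit 4))
    (@En.n l17 (nat_lit 9088) (nat_lit 0) (nat_lit 6))
    (@En.n l30655 (nat_lit 12429) (nat_lit 1) (nat_lit 7))
    (@En.n l31300 (nat_lit 8703) (nat_lit 9) (nat_lit 11))
    (@En.i (nat_lit 11841) (nat_lit 10) (nat_lit 12))
    (@En.n l1769 (nat_lit 11840) (nat_lit 13) (nat_lit 7))
    (@En.n l8778 (nat_lit 10690) (nat_lit 7) (nat_lit 9))
    (@En.n l31303 (nat_lit 9273) (nat_lit 13) (nat_lit 10))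
    (@En.n l31300 (nat_lit 11843) (nat_lit 15) (nat_lit 3))
    (@En.i (nat_lit 11594) (nat_lit 0) (nat_lit 9))
    (@En.n l31304 (nat_lit 9734) (nat_lit 15) (nat_lit 3))))
  (@Cl.mk (nat_lit 0x3000a00090007000c000b00080006000400070005000c0009000d00080004) (nat_lit 0x360376000094130) (nat_lit 16) Lb.e (@T16.mk En
    (@En.n l41377 (nat_lit 9284) (nat_lit 0) (nat_lit 4))
    (@En.n l6582 (nat_lit 11286) (nat_lit 0) (nat_lit 8))
    (@En.n l6588 (nat_lit 1602) (nat_lit 1) (nat_lit 13))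
    (@En.n l41378 (nat_lit 10425) (nat_lit 3) (nat_lit 9))
    (@En.n l41379 (nat_lit 12050) (nat_lit 13) (nat_lit 12))
    (@En.n l6585 (nat_lit 8148) (nat_lit 5) (nat_lit 5))
    (@En.n l41380 (nat_lit 8111) (nat_lit 11) (nat_lit 7))
    (@En.n l28655 (nat_lit 12036) (nat_lit 7) (nat_lit 4))
    (@En.n l16319 (nat_lit 9091) (nat_lit 0) (nat_lit 6))
    (@En.n l6584 (nat_lit 9249) (nat_lit 1) (nat_lit 8))
    (@En.i (nat_lit 10292) (nat_lit 11) (nat_lit 11))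
    (@En.n l6585 (nat_lit 11844) (nat_lit 12) (nat_lit 12))
    (@En.n l41377 (nat_lit 10187) (nat_lit 13) (nat_lit 7))
    (@En.n l21490 (nat_lit 12438) (nat_lit 7) (nat_lit 9))
    (@En.n l41379 (nat_lit 10076) (nat_lit 14) (nat_lit 10))
    (@En.n l41381 (nat_lit 11842) (nat_lit 13) (nat_lit 3))))
  (@Cl.mk (nat_lit 0x3000b0009000c000a000700050004000c00070006000c0004000d00090004) (nat_lit 0x362200050080130) (nat_lit 16) Lb.e (@T16.mk En
    (@En.n l9163 (nat_lit 9288) (nat_lit 0) (nat_lit 4))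
    (@En.i (nat_lit 11289) (nat_lit 0) (nat_lit 9))
    (@En.n l11423 (nat_lit 1604) (nat_lit 1) (nat_lit 13))
    (@En.n l17680 (nat_lit 10180) (nat_lit 3) (nat_lit 4))
    (@En.n l38582 (nat_lit 11866) (nat_lit 0) (nat_lit 12))
    (@En.i (nat_lit 10191) (nat_lit 10) (nat_lit 6))
    (@En.n l11420 (nat_lit 11843) (nat_lit 6) (nat_lit 7))
    (@En.n l38583 (nat_lit 11846) (nat_lit 8) (nat_lit 12))
    (@En.i (nat_lit 10297) (nat_lit 12) (nat_lit 4))
    (@En.n l17 (nat_lit 8604) (nat_lit 9) (nat_lit 5))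
    (@En.n l23338 (nat_lit 11852) (nat_lit 1) (nat_lit 7))
    (@En.n l30165 (nat_lit 8331) (nat_lit 12) (nat_lit 10))
    (@En.n l10040 (nat_lit 8635) (nat_lit 6) (nat_lit 12))
    (@En.n l8778 (nat_lit 12596) (nat_lit 14) (nat_lit 9))
    (@En.n l38582 (nat_lit 10077) (nat_lit 11) (nat_lit 11))
    (@En.n l50 (nat_lit 11841) (nat_lit 13) (nat_lit 3))))
  (@Cl.mk (nat_lit 0x3000b000a0007000b00060005000c00060005000c00040009000d0004000a) (nat_lit 0x560200400707206) (nat_lit 16) Lb.e (@T16.mk En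
    (@En.i (nat_lit 11036) (nat_lit 0) (nat_lit 10))
    (@En.i (nat_lit 10274) (nat_lit 15) (nat_lit 4))
    (@En.n l34098 (nat_lit 11847) (nat_lit 0) (nat_lit 13))
    (@En.n l27635 (nat_lit 11842) (nat_lit 1) (nat_lit 9))
    (@En.n l28738 (nat_lit 10923) (nat_lit 4) (nat_lit 4))
    (@En.n l17645 (nat_lit 11301) (nat_lit 0) (nat_lit 12))
    (@En.n l27635 (nat_lit 10892) (nat_lit 11) (nat_lit 5))
    (@En.n l50 (nat_lit 11704) (nat_lit 7) (nat_lit 6))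
    (@En.n l34099 (nat_lit 10835) (nat_lit 9) (nat_lit 12))
    (@En.n l27637 (nat_lit 10471) (nat_lit 9) (nat_lit 5))
    (@En.n l34100 (nat_lit 12443) (nat_lit 5) (nat_lit 6))
    (@En.i (nat_lit 8598) (nat_lit 12) (nat_lit 11))
    (@En.n l61 (nat_lit 10153) (nat_lit 13) (nat_lit 7))
    (@En.n l217 (nat_lit 10649) (nat_lit 6) (nat_lit 10))
    (@En.i (nat_lit 9275) (nat_lit 10) (nat_lit 11))
    (@En.n l8638 (nat_lit 11846) (nat_lit 15) (nat_lit 3))))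
  (@Cl.mk (nat_lit 0x3000b000a0007000b00070005000c00060005000b00040009000d00090005) (nat_lit 0x560200400705250) (nat_lit 16) Lb.e (@T16.mk En
    (@En.n l32524 (nat_lit 11171) (nat_lit 0) (nat_lit 5))
    (@En.n l16865 (nat_lit 10279) (nat_lit 13) (nat_lit 9))
    (@En.n l31017 (nat_lit 11848) (nat_lit 6) (nat_lit 13))
    (@En.n l7 (nat_lit 11843) (nat_lit 3) (nat_lit 9))
    (@En.n l33138 (nat_lit 10921) (nat_lit 4) (nat_lit 4))
    (@En.n l396 (nat_lit 11985) (nat_lit 0) (nat_lit 11))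
    (@En.n l37350 (nat_lit 10895) (nat_lit 11) (nat_lit 5))
    (@En.n l11547 (nat_lit 11703) (nat_lit 7) (nat_lit 6))
    (@En.n l37351 (nat_lit 10837) (nat_lit 9) (nat_lit 12))
    (@En.n l35824 (nat_lit 10473) (nat_lit 9) (nat_lit 5))
    (@En.n l9877 (nat_lit 11996) (nat_lit 5) (nat_lit 7))
    (@En.n l16865 (nat_lit 8329) (nat_lit 12) (nat_lit 11))
    (@En.n l30830 (nat_lit 10154) (nat_lit 13) (nat_lit 7))
    (@En.n l9879 (nat_lit 10688) (nat_lit 6) (nat_lit 10))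
    (@En.n l21491 (nat_lit 10078) (nat_lit 10) (nat_lit 11))
    (@En.n l37352 (nat_lit 11845) (nat_lit 15) (nat_lit 3))))
  (@Cl.mk (nat_lit 0x300090003000d000b000a0003000b00070005000c00060005000d0004000d) (nat_lit 0x604350300200301) (nat_lit 16) Lb.e (@T16.mk En
    (@En.n l13633 (nat_lit 1600) (nat_lit 0) (nat_lit 13))
    (@En.n l117 (nat_lit 10186) (nat_lit 7) (nat_lit 4))
    (@En.n l18284 (nat_lit 12005) (nat_lit 9) (nat_lit 13))
    (@En.n l18285 (nat_lit 4331) (nat_lit 3) (nat_lit 5))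
    (@En.i (nat_lit 11851) (nat_lit 4) (nat_lit 6))
    (@En.n l18286 (nat_lit 10620) (nat_lit 12) (nat_lit 12))
    (@En.i (nat_lit 9170) (nat_lit 6) (nat_lit 5))
    (@En.n l18284 (nat_lit 12411) (nat_lit 14) (nat_lit 7))
    (@En.n l18284 (nat_lit 7637) (nat_lit 11) (nat_lit 11))
    (@En.n l18287 (nat_lit 10296) (nat_lit 9) (nat_lit 3))
    (@En.n l18288 (nat_lit 11162) (nat_lit 0) (nat_lit 10))
    (@En.n l18285 (nat_lit 11841) (nat_lit 12) (nat_lit 11))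
    (@En.n l18289 (nat_lit 10489) (nat_lit 2) (nat_lit 13))
    (@En.n l10108 (nat_lit 11848) (nat_lit 3) (nat_lit 3))
    (@En.n l18290 (nat_lit 10912) (nat_lit 0) (nat_lit 9))
    (@En.i (nat_lit 11849) (nat_lit 15) (nat_lit 3))))
  (@Cl.mk (nat_lit 0x3000b00080005000c00060005000c0004000d000800040003000d000b000a) (nat_lit 0x360400301300446) (nat_lit 16) Lb.e (@T16.mk En
    (@En.n l28097 (nat_lit 11164) (nat_lit 0) (nat_lit 10))
    (@En.n l34083 (nat_lit 11844) (nat_lit 14) (nat_lit 11))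
    (@En.n l16940 (nat_lit 11995) (nat_lit 2) (nat_lit 13))
    (@En.n l9824 (nat_lit 11847) (nat_lit 13) (nat_lit 3))
    (@En.n l34084 (nat_lit 9291) (nat_lit 0) (nat_lit 4))
    (@En.n l97 (nat_lit 11980) (nat_lit 0) (nat_lit 8))
    (@En.n l3866 (nat_lit 1603) (nat_lit 1) (nat_lit 13))
    (@En.n l34085 (nat_lit 10184) (nat_lit 7) (nat_lit 4))
    (@En.n l29991 (nat_lit 11992) (nat_lit 9) (nat_lit 12))
    (@En.n l50 (nat_lit 4334) (nat_lit 11) (nat_lit 5))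
    (@En.i (nat_lit 11850) (nat_lit 6) (nat_lit 6))
    (@En.i (nat_lit 10848) (nat_lit 12) (nat_lit 12))
    (@En.n l29061 (nat_lit 9171) (nat_lit 8) (nat_lit 5))
    (@En.n l33125 (nat_lit 11853) (nat_lit 14) (nat_lit 8))
    (@En.n l29991 (nat_lit 7636) (nat_lit 11) (nat_lit 11))
    (@En.n l30837 (nat_lit 10297) (nat_lit 15) (nat_lit 3))))
  (@Cl.mk (nat_lit 0x300090004000d000b000a0003000b00070005000b00060005000d000c0005) (nat_lit 0x607750300600240) (nat_lit 16) Lb.e (@T16.mk En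
    (@En.n l20559 (nat_lit 9338) (nat_lit 0) (nat_lit 5))
    (@En.n l15675 (nat_lit 11848) (nat_lit 8) (nat_lit 12))
    (@En.n l18284 (nat_lit 12004) (nat_lit 9) (nat_lit 13))
    (@En.n l18285 (nat_lit 4333) (nat_lit 3) (nat_lit 5))
    (@En.n l18401 (nat_lit 11810) (nat_lit 4) (nat_lit 6))
    (@En.n l34086 (nat_lit 10153) (nat_lit 12) (nat_lit 11))
    (@En.i (nat_lit 9169) (nat_lit 6) (nat_lit 5))
    (@En.n l18284 (nat_lit 12414) (nat_lit 14) (nat_lit 7))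
    (@En.n l34087 (nat_lit 7635) (nat_lit 9) (nat_lit 11))
    (@En.n l19509 (nat_lit 10295) (nat_lit 9) (nat_lit 3))
    (@En.n l34088 (nat_lit 11160) (nat_lit 0) (nat_lit 10))
    (@En.n l18285 (nat_lit 9733) (nat_lit 12) (nat_lit 11))
    (@En.n l20559 (nat_lit 10487) (nat_lit 2) (nat_lit 13))
    (@En.n l34089 (nat_lit 10533) (nat_lit 3) (nat_lit 4))
    (@En.n l18290 (nat_lit 12056) (nat_lit 4) (nat_lit 9))
    (@En.n l11 (nat_lit 11847) (nat_lit 15) (nat_lit 3))))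
  (@Cl.mk (nat_lit 0x3000c000a000a00080004000c0009000600060004000c0008000d00070004) (nat_lit 0x547507300054300) (nat_lit 16) Lb.e (@T16.mk En
    (@En.n l33020 (nat_lit 12686) (nat_lit 0) (nat_lit 4))
    (@En.n l97 (nat_lit 10424) (nat_lit 0) (nat_lit 7))
    (@En.n l33021 (nat_lit 3034) (nat_lit 1) (nat_lit 13))
    (@En.n l33022 (nat_lit 10419) (nat_lit 3) (nat_lit 8))
    (@En.n l29991 (nat_lit 12175) (nat_lit 10) (nat_lit 12))
    (@En.n l33023 (nat_lit 11828) (nat_lit 5) (nat_lit 4))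
    (@En.n l33024 (nat_lit 12572) (nat_lit 10) (nat_lit 6))
    (@En.n l29061 (nat_lit 11829) (nat_lit 7) (nat_lit 6))
    (@En.n l33025 (nat_lit 9242) (nat_lit 14) (nat_lit 9))
    (@En.n l33026 (nat_lit 12155) (nat_lit 10) (nat_lit 12))
    (@En.n l33027 (nat_lit 11852) (nat_lit 10) (nat_lit 4))
    (@En.n l20211 (nat_lit 9201) (nat_lit 0) (nat_lit 8))
    (@En.n l28097 (nat_lit 12049) (nat_lit 6) (nat_lit 10))
    (@En.n l33026 (nat_lit 11843) (nat_lit 14) (nat_lit 10))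
    (@En.n l33028 (nat_lit 12001) (nat_lit 3) (nat_lit 12))
    (@En.n l9824 (nat_lit 11851) (nat_lit 13) (nat_lit 3))))
  (@Cl.mk (nat_lit 0x300080003000c000a000a00080004000c0008000600060004000d0008000d) (nat_lit 0x204355065000721) (nat_lit 16) Lb.e (@T16.mk En
    (@En.n l7507 (nat_lit 1598) (nat_lit 0) (nat_lit 13))
    (@En.n l18397 (nat_lit 10418) (nat_lit 3) (nat_lit 8))
    (@En.n l18284 (nat_lit 12003) (nat_lit 2) (nat_lit 13))
    (@En.n l18398 (nat_lit 11797) (nat_lit 3) (nat_lit 4))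
    (@En.n l18399 (nat_lit 12573) (nat_lit 10) (nat_lit 6))
    (@En.i (nat_lit 11830) (nat_lit 7) (nat_lit 6))
    (@En.n l18284 (nat_lit 11807) (nat_lit 6) (nat_lit 8))
    (@En.n l8770 (nat_lit 12131) (nat_lit 10) (nat_lit 12))
    (@En.n l13634 (nat_lit 12037) (nat_lit 8) (nat_lit 4))
    (@En.n l2642 (nat_lit 9199) (nat_lit 0) (nat_lit 8))
    (@En.n l18400 (nat_lit 12041) (nat_lit 6) (nat_lit 10))
    (@En.n l18398 (nat_lit 11842) (nat_lit 12) (nat_lit 10))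
    (@En.n l8770 (nat_lit 11473) (nat_lit 13) (nat_lit 12))
    (@En.n l10108 (nat_lit 11850) (nat_lit 15) (nat_lit 3))
    (@En.n l18290 (nat_lit 10911) (nat_lit 0) (nat_lit 8))
    (@En.n l18401 (nat_lit 11810) (nat_lit 15) (nat_lit 3))))
  (@Cl.mk (nat_lit 0x3000c0006000b000b0004000c0009000500050004000c000a000d00070004) (nat_lit 0x405808200056700) (nat_lit 16) Lb.e (@T16.mk En
    (@En.n l4185 (nat_lit 12728) (nat_lit 0) (nat_lit 4))
    (@En.n l18298 (nat_lit 11298) (nat_lit 0) (nat_lit 7))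
    (@En.i (nat_lit 3048) (nat_lit 5) (nat_lit 13))
    (@En.n l18299 (nat_lit 11838) (nat_lit 3) (nat_lit 10))
    (@En.n l1596 (nat_lit 12190) (nat_lit 10) (nat_lit 12))
    (@En.n l18300 (nat_lit 12412) (nat_lit 12) (nat_lit 4))
    (@En.n l4188 (nat_lit 12639) (nat_lit 11) (nat_lit 5))
    (@En.n l18301 (nat_lit 12409) (nat_lit 7) (nat_lit 5))
    (@En.i (nat_lit 9243) (nat_lit 0) (nat_lit 9))
    (@En.n l4189 (nat_lit 3861) (nat_lit 10) (nat_lit 12))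
    (@En.n l4190 (nat_lit 12036) (nat_lit 10) (nat_lit 4))
    (@En.n l61 (nat_lit 12042) (nat_lit 5) (nat_lit 11))
    (@En.n l18301 (nat_lit 11848) (nat_lit 1) (nat_lit 11))
    (@En.n l18302 (nat_lit 9249) (nat_lit 14) (nat_lit 6))
    (@En.n l18298 (nat_lit 11996) (nat_lit 3) (nat_lit 12))
    (@En.n l4184 (nat_lit 12037) (nat_lit 13) (nat_lit 3))))
  (@Cl.mk (nat_lit 0x300080004000c0005000b000b0004000c0008000500050004000d000c000b) (nat_lit 0x509086064000662) (nat_lit 16) Lb.e (@T16.mk En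
    (@En.n l575 (nat_lit 12650) (nat_lit 0) (nat_lit 11))
    (@En.n l18303 (nat_lit 11852) (nat_lit 4) (nat_lit 12))
    (@En.n l18304 (nat_lit 11997) (nat_lit 2) (nat_lit 13))
    (@En.n l18305 (nat_lit 12411) (nat_lit 3) (nat_lit 4))
    (@En.n l5735 (nat_lit 12640) (nat_lit 11) (nat_lit 5))
    (@En.n l77 (nat_lit 12408) (nat_lit 5) (nat_lit 5))
    (@En.n l18306 (nat_lit 12371) (nat_lit 6) (nat_lit 8))
    (@En.n l14152 (nat_lit 3863) (nat_lit 8) (nat_lit 12))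
    (@En.n l14153 (nat_lit 10299) (nat_lit 8) (nat_lit 4))
    (@En.n l397 (nat_lit 12043) (nat_lit 5) (nat_lit 11))
    (@En.n l18307 (nat_lit 11849) (nat_lit 11) (nat_lit 11))
    (@En.n l18308 (nat_lit 9242) (nat_lit 12) (nat_lit 5))
    (@En.n l18309 (nat_lit 11741) (nat_lit 13) (nat_lit 12))
    (@En.n l117 (nat_lit 12427) (nat_lit 14) (nat_lit 4))
    (@En.n l5741 (nat_lit 12059) (nat_lit 0) (nat_lit 8))
    (@En.n l18310 (nat_lit 12037) (nat_lit 15) (nat_lit 3))))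
  (@Cl.mk (nat_lit 0x4000a0004000b000a0008000b00060005000a00060005000c0008000c0006) (nat_lit 0x405532007007350) (nat_lit 16) Lb.e (@T16.mk En
    (@En.n l61 (nat_lit 11859) (nat_lit 0) (nat_lit 6))
    (@En.n l40773 (nat_lit 11849) (nat_lit 1) (nat_lit 12))
    (@En.n l26277 (nat_lit 11855) (nat_lit 4) (nat_lit 8))
    (@En.n l15890 (nat_lit 10284) (nat_lit 3) (nat_lit 12))
    (@En.n l16484 (nat_lit 11105) (nat_lit 11) (nat_lit 5))
    (@En.n l2938 (nat_lit 11739) (nat_lit 5) (nat_lit 6))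
    (@En.i (nat_lit 11780) (nat_lit 1) (nat_lit 10))
    (@En.n l40774 (nat_lit 10474) (nat_lit 11) (nat_lit 5))
    (@En.n l55 (nat_lit 9872) (nat_lit 0) (nat_lit 6))
    (@En.i (nat_lit 8675) (nat_lit 7) (nat_lit 11))
    (@En.n l2940 (nat_lit 11783) (nat_lit 2) (nat_lit 8))
    (@En.n l17327 (nat_lit 9066) (nat_lit 6) (nat_lit 10))
    (@En.n l1113 (nat_lit 9255) (nat_lit 13) (nat_lit 11))
    (@En.n l18 (nat_lit 11096) (nat_lit 15) (nat_lit 4))
    (@En.i (nat_lit 10727) (nat_lit 0) (nat_lit 10))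
    (@En.n l2944 (nat_lit 11845) (nat_lit 1) (nat_lit 4))))
  (@Cl.mk (nat_lit 0x4000a000900080006000b00070006000b000700050008000c0005000a0009) (nat_lit 0x753030080024054) (nat_lit 16) Lb.e (@T16.mk En
    (@En.n l40250 (nat_lit 10728) (nat_lit 7) (nat_lit 9))
    (@En.n l40251 (nat_lit 10420) (nat_lit 1) (nat_lit 10))
    (@En.n l40252 (nat_lit 11858) (nat_lit 15) (nat_lit 5))
    (@En.n l40253 (nat_lit 11995) (nat_lit 7) (nat_lit 12))
    (@En.n l4361 (nat_lit 6520) (nat_lit 10) (nat_lit 8))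
    (@En.n l40254 (nat_lit 11109) (nat_lit 11) (nat_lit 5))
    (@En.n l3 (nat_lit 11738) (nat_lit 0) (nat_lit 7))
    (@En.n l38403 (nat_lit 11779) (nat_lit 1) (nat_lit 11))
    (@En.n l40255 (nat_lit 10477) (nat_lit 10) (nat_lit 6))
    (@En.n l40256 (nat_lit 9873) (nat_lit 6) (nat_lit 7))
    (@En.n l40257 (nat_lit 11854) (nat_lit 9) (nat_lit 11))
    (@En.n l40258 (nat_lit 10274) (nat_lit 10) (nat_lit 6))
    (@En.n l40259 (nat_lit 11868) (nat_lit 8) (nat_lit 8))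
    (@En.i (nat_lit 9647) (nat_lit 7) (nat_lit 9))
    (@En.n l40260 (nat_lit 9260) (nat_lit 11) (nat_lit 10))
    (@En.n l4361 (nat_lit 11092) (nat_lit 15) (nat_lit 4))))
noncomputable def a741 : T16 Cl := @T16.mk Cl
  (@Cl.mk (nat_lit 0x3000900080004000b000a0008000b00070005000800060005000d0008000c) (nat_lit 0x330844100400935) (nat_lit 16) Lb.e (@T16.mk En
    (@En.n l5760 (nat_lit 10529) (nat_lit 0) (nat_lit 12))
    (@En.i (nat_lit 11857) (nat_lit 4) (nat_lit 8))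
    (@En.i (nat_lit 11288) (nat_lit 2) (nat_lit 13))
    (@En.n l11 (nat_lit 12012) (nat_lit 11) (nat_lit 5))
    (@En.i (nat_lit 11741) (nat_lit 4) (nat_lit 6))
    (@En.i (nat_lit 10738) (nat_lit 10) (nat_lit 8))
    (@En.n l936 (nat_lit 11866) (nat_lit 6) (nat_lit 5))
    (@En.n l55 (nat_lit 11862) (nat_lit 7) (nat_lit 7))
    (@En.i (nat_lit 4607) (nat_lit 7) (nat_lit 11))
    (@En.n l27817 (nat_lit 11781) (nat_lit 2) (nat_lit 8))
    (@En.n l5705 (nat_lit 9076) (nat_lit 6) (nat_lit 10))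
    (@En.i (nat_lit 11859) (nat_lit 12) (nat_lit 11))
    (@En.i (nat_lit 11854) (nat_lit 13) (nat_lit 4))
    (@En.n l2040 (nat_lit 10550) (nat_lit 8) (nat_lit 8))
    (@En.i (nat_lit 10726) (nat_lit 1) (nat_lit 9))
    (@En.i (nat_lit 11860) (nat_lit 15) (nat_lit 3))))
  (@Cl.mk (nat_lit 0x4000a000900080007000b000800060009000700050008000c000900080007) (nat_lit 0x744022040024410) (nat_lit 16) Lb.e (@T16.mk En
    (@En.n l26272 (nat_lit 11279) (nat_lit 9) (nat_lit 7))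
    (@En.n l2491 (nat_lit 10725) (nat_lit 8) (nat_lit 8))
    (@En.n l2496 (nat_lit 11079) (nat_lit 13) (nat_lit 9))
    (@En.n l9936 (nat_lit 11117) (nat_lit 7) (nat_lit 12))
    (@En.n l9146 (nat_lit 6522) (nat_lit 10) (nat_lit 8))
    (@En.n l26273 (nat_lit 11611) (nat_lit 11) (nat_lit 5))
    (@En.i (nat_lit 11740) (nat_lit 0) (nat_lit 7))
    (@En.n l9146 (nat_lit 10737) (nat_lit 9) (nat_lit 9))
    (@En.n l936 (nat_lit 12050) (nat_lit 2) (nat_lit 6))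
    (@En.i (nat_lit 9916) (nat_lit 8) (nat_lit 8))
    (@En.n l7 (nat_lit 11856) (nat_lit 8) (nat_lit 11))
    (@En.n l644 (nat_lit 11860) (nat_lit 9) (nat_lit 7))
    (@En.n l26274 (nat_lit 11870) (nat_lit 8) (nat_lit 8))
    (@En.n l26275 (nat_lit 9077) (nat_lit 7) (nat_lit 9))
    (@En.n l26276 (nat_lit 11858) (nat_lit 11) (nat_lit 10))
    (@En.n l26277 (nat_lit 11855) (nat_lit 15) (nat_lit 4))))
  (@Cl.mk (nat_lit 0x5000a00090007000a000800070006000a00070006000b0009000800060009) (nat_lit 0x410640030085102) (nat_lit 16) Lb.e (@T16.mk En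
    (@En.i (nat_lit 6521) (nat_lit 9) (nat_lit 9))
    (@En.n l40111 (nat_lit 11613) (nat_lit 10) (nat_lit 6))
    (@En.n l40112 (nat_lit 10488) (nat_lit 8) (nat_lit 8))
    (@En.n l40113 (nat_lit 11857) (nat_lit 7) (nat_lit 9))
    (@En.n l40114 (nat_lit 10073) (nat_lit 9) (nat_lit 11))
    (@En.n l40115 (nat_lit 12051) (nat_lit 10) (nat_lit 6))
    (@En.n l40116 (nat_lit 9911) (nat_lit 9) (nat_lit 7))
    (@En.n l32485 (nat_lit 11859) (nat_lit 9) (nat_lit 10))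
    (@En.n l40112 (nat_lit 11861) (nat_lit 10) (nat_lit 6))
    (@En.n l40114 (nat_lit 11869) (nat_lit 9) (nat_lit 7))
    (@En.n l40117 (nat_lit 9126) (nat_lit 8) (nat_lit 8))
    (@En.n l28 (nat_lit 9261) (nat_lit 8) (nat_lit 10))
    (@En.n l40118 (nat_lit 9848) (nat_lit 9) (nat_lit 7))
    (@En.i (nat_lit 10723) (nat_lit 7) (nat_lit 9))
    (@En.n l40119 (nat_lit 11080) (nat_lit 10) (nat_lit 10))
    (@En.n l40120 (nat_lit 10378) (nat_lit 15) (nat_lit 5))))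
  (@Cl.mk (nat_lit 0x3000a0008000b00090007000a00060005000a000800070006000d00090006) (nat_lit 0x327402007500330) (nat_lit 16) Lb.e (@T16.mk En
    (@En.n l35907 (nat_lit 8211) (nat_lit 0) (nat_lit 6))
    (@En.n l26276 (nat_lit 11858) (nat_lit 0) (nat_lit 9))
    (@En.n l23411 (nat_lit 11290) (nat_lit 2) (nat_lit 13))
    (@En.n l35908 (nat_lit 12010) (nat_lit 10) (nat_lit 6))
    (@En.n l34025 (nat_lit 10487) (nat_lit 9) (nat_lit 7))
    (@En.n l17 (nat_lit 11856) (nat_lit 5) (nat_lit 8))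
    (@En.n l35907 (nat_lit 10083) (nat_lit 10) (nat_lit 10))
    (@En.n l7290 (nat_lit 12052) (nat_lit 11) (nat_lit 5))
    (@En.n l55 (nat_lit 10503) (nat_lit 8) (nat_lit 6))
    (@En.i (nat_lit 4608) (nat_lit 8) (nat_lit 10))
    (@En.n l35909 (nat_lit 11782) (nat_lit 9) (nat_lit 7))
    (@En.n l8681 (nat_lit 9125) (nat_lit 12) (nat_lit 9))
    (@En.n l1113 (nat_lit 8479) (nat_lit 7) (nat_lit 11))
    (@En.n l35910 (nat_lit 11944) (nat_lit 14) (nat_lit 8))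
    (@En.i (nat_lit 10722) (nat_lit 3) (nat_lit 10))
    (@En.n l7515 (nat_lit 11861) (nat_lit 15) (nat_lit 3))))
  (@Cl.mk (nat_lit 0x3000900080005000b000a0007000b00070005000800060005000d000b0009) (nat_lit 0x240850200400924) (nat_lit 16) Lb.e (@T16.mk En
    (@En.n l2496 (nat_lit 11081) (nat_lit 0) (nat_lit 9))
    (@En.i (nat_lit 11096) (nat_lit 5) (nat_lit 11))
    (@En.n l3039 (nat_lit 11286) (nat_lit 2) (nat_lit 13))
    (@En.n l28169 (nat_lit 12013) (nat_lit 11) (nat_lit 5))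
    (@En.n l7515 (nat_lit 11727) (nat_lit 4) (nat_lit 6))
    (@En.n l2496 (nat_lit 10741) (nat_lit 10) (nat_lit 8))
    (@En.n l936 (nat_lit 11867) (nat_lit 6) (nat_lit 5))
    (@En.n l55 (nat_lit 11865) (nat_lit 7) (nat_lit 7))
    (@En.i (nat_lit 4603) (nat_lit 8) (nat_lit 11))
    (@En.n l28170 (nat_lit 11779) (nat_lit 2) (nat_lit 7))
    (@En.n l28171 (nat_lit 8787) (nat_lit 6) (nat_lit 10))
    (@En.n l7515 (nat_lit 11861) (nat_lit 12) (nat_lit 11))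
    (@En.n l2944 (nat_lit 10274) (nat_lit 13) (nat_lit 5))
    (@En.n l18420 (nat_lit 11763) (nat_lit 8) (nat_lit 8))
    (@En.i (nat_lit 10406) (nat_lit 1) (nat_lit 9))
    (@En.n l50 (nat_lit 11856) (nat_lit 15) (nat_lit 3))))
  (@Cl.mk (nat_lit 0x3000a0008000b00090006000a00060005000b000800070006000d0005000a) (nat_lit 0x337104007500307) (nat_lit 16) Lb.e (@T16.mk En
    (@En.n l40750 (nat_lit 11082) (nat_lit 0) (nat_lit 10))
    (@En.n l40751 (nat_lit 10070) (nat_lit 15) (nat_lit 5))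
    (@En.n l644 (nat_lit 11289) (nat_lit 2) (nat_lit 13))
    (@En.n l40752 (nat_lit 11629) (nat_lit 10) (nat_lit 6))
    (@En.i (nat_lit 10489) (nat_lit 9) (nat_lit 7))
    (@En.n l40753 (nat_lit 11860) (nat_lit 5) (nat_lit 8))
    (@En.n l40754 (nat_lit 10275) (nat_lit 7) (nat_lit 11))
    (@En.n l18225 (nat_lit 12055) (nat_lit 11) (nat_lit 5))
    (@En.n l40755 (nat_lit 10504) (nat_lit 8) (nat_lit 6))
    (@En.n l17017 (nat_lit 4606) (nat_lit 9) (nat_lit 10))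
    (@En.n l40756 (nat_lit 11780) (nat_lit 2) (nat_lit 6))
    (@En.n l30165 (nat_lit 9127) (nat_lit 12) (nat_lit 9))
    (@En.n l40757 (nat_lit 8442) (nat_lit 7) (nat_lit 11))
    (@En.n l40758 (nat_lit 11947) (nat_lit 14) (nat_lit 8))
    (@En.n l40759 (nat_lit 10405) (nat_lit 3) (nat_lit 10))
    (@En.n l18233 (nat_lit 11859) (nat_lit 15) (nat_lit 3))))
  (@Cl.mk (nat_lit 0x30009000600090005000c000b00090007000400070005000a000d0007000b) (nat_lit 0x103056600003806) (nat_lit 16) Lb.e (@T16.mk En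
    (@En.n l17942 (nat_lit 10535) (nat_lit 0) (nat_lit 11))
    (@En.n l28 (nat_lit 9916) (nat_lit 3) (nat_lit 7))
    (@En.n l3039 (nat_lit 11284) (nat_lit 5) (nat_lit 13))
    (@En.n l899 (nat_lit 11957) (nat_lit 3) (nat_lit 10))
    (@En.i (nat_lit 11717) (nat_lit 4) (nat_lit 5))
    (@En.i (nat_lit 12171) (nat_lit 11) (nat_lit 7))
    (@En.n l26235 (nat_lit 8792) (nat_lit 6) (nat_lit 4))
    (@En.n l601 (nat_lit 10318) (nat_lit 0) (nat_lit 7))
    (@En.n l41049 (nat_lit 9066) (nat_lit 1) (nat_lit 9))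
    (@En.n l3866 (nat_lit 9071) (nat_lit 10) (nat_lit 11))
    (@En.i (nat_lit 10503) (nat_lit 11) (nat_lit 12))
    (@En.i (nat_lit 9872) (nat_lit 4) (nat_lit 5))
    (@En.n l41049 (nat_lit 11585) (nat_lit 9) (nat_lit 9))
    (@En.n l28 (nat_lit 11863) (nat_lit 14) (nat_lit 6))
    (@En.n l77 (nat_lit 9921) (nat_lit 2) (nat_lit 9))
    (@En.i (nat_lit 11865) (nat_lit 15) (nat_lit 3))))
  (@Cl.mk (nat_lit 0x3000600090004000c000b0008000b000400070005000a0005000d0008000c) (nat_lit 0x40856200030943) (nat_lit 16) Lb.e (@T16.mk En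
    (@En.n l17942 (nat_lit 10534) (nat_lit 0) (nat_lit 12))
    (@En.i (nat_lit 9921) (nat_lit 4) (nat_lit 8))
    (@En.i (nat_lit 11862) (nat_lit 2) (nat_lit 13))
    (@En.i (nat_lit 11856) (nat_lit 3) (nat_lit 5))
    (@En.n l899 (nat_lit 11955) (nat_lit 4) (nat_lit 10))
    (@En.i (nat_lit 11719) (nat_lit 5) (nat_lit 5))
    (@En.i (nat_lit 12172) (nat_lit 11) (nat_lit 7))
    (@En.i (nat_lit 9686) (nat_lit 7) (nat_lit 4))
    (@En.i (nat_lit 7265) (nat_lit 7) (nat_lit 11))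
    (@En.i (nat_lit 9065) (nat_lit 1) (nat_lit 8))
    (@En.n l3866 (nat_lit 9072) (nat_lit 11) (nat_lit 11))
    (@En.i (nat_lit 10508) (nat_lit 12) (nat_lit 12))
    (@En.i (nat_lit 9875) (nat_lit 13) (nat_lit 4))
    (@En.n l226 (nat_lit 11271) (nat_lit 9) (nat_lit 9))
    (@En.i (nat_lit 6634) (nat_lit 12) (nat_lit 6))
    (@En.i (nat_lit 11864) (nat_lit 15) (nat_lit 3))))
  (@Cl.mk (nat_lit 0x3000600090005000c000b0007000b000400070005000a0005000d000b0009) (nat_lit 0x40950200050966) (nat_lit 16) Lb.e (@T16.mk En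
    (@En.n l6220 (nat_lit 11481) (nat_lit 0) (nat_lit 9))
    (@En.i (nat_lit 10639) (nat_lit 10) (nat_lit 11))
    (@En.i (nat_lit 11865) (nat_lit 2) (nat_lit 13))
    (@En.i (nat_lit 11860) (nat_lit 3) (nat_lit 5))
    (@En.n l2899 (nat_lit 11958) (nat_lit 4) (nat_lit 10))
    (@En.n l4172 (nat_lit 11718) (nat_lit 5) (nat_lit 5))
    (@En.i (nat_lit 12170) (nat_lit 11) (nat_lit 7))
    (@En.n l5389 (nat_lit 9689) (nat_lit 7) (nat_lit 4))
    (@En.i (nat_lit 7230) (nat_lit 8) (nat_lit 11))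
    (@En.n l7650 (nat_lit 10668) (nat_lit 1) (nat_lit 7))
    (@En.n l5774 (nat_lit 8785) (nat_lit 11) (nat_lit 11))
    (@En.n l29711 (nat_lit 10507) (nat_lit 12) (nat_lit 12))
    (@En.n l4172 (nat_lit 10814) (nat_lit 13) (nat_lit 5))
    (@En.n l5389 (nat_lit 9892) (nat_lit 9) (nat_lit 9))
    (@En.i (nat_lit 10871) (nat_lit 12) (nat_lit 6))
    (@En.n l50 (nat_lit 11863) (nat_lit 15) (nat_lit 3))))
  (@Cl.mk (nat_lit 0x30009000600090006000c000b00080007000400070005000a000d000a0008) (nat_lit 0x306096200003855) (nat_lit 16) Lb.e (@T16.mk En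
    (@En.n l41044 (nat_lit 11483) (nat_lit 0) (nat_lit 8))
    (@En.n l3038 (nat_lit 11076) (nat_lit 11) (nat_lit 10))
    (@En.n l3039 (nat_lit 11283) (nat_lit 5) (nat_lit 13))
    (@En.n l41045 (nat_lit 10509) (nat_lit 3) (nat_lit 10))
    (@En.n l17912 (nat_lit 11716) (nat_lit 4) (nat_lit 5))
    (@En.n l12759 (nat_lit 12168) (nat_lit 11) (nat_lit 7))
    (@En.n l41046 (nat_lit 8772) (nat_lit 6) (nat_lit 4))
    (@En.n l41047 (nat_lit 10321) (nat_lit 0) (nat_lit 7))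
    (@En.n l7650 (nat_lit 10670) (nat_lit 1) (nat_lit 8))
    (@En.n l41048 (nat_lit 8786) (nat_lit 10) (nat_lit 11))
    (@En.n l37357 (nat_lit 10504) (nat_lit 11) (nat_lit 12))
    (@En.n l41047 (nat_lit 10813) (nat_lit 12) (nat_lit 6))
    (@En.n l41049 (nat_lit 9053) (nat_lit 9) (nat_lit 9))
    (@En.n l28 (nat_lit 11864) (nat_lit 14) (nat_lit 6))
    (@En.i (nat_lit 11400) (nat_lit 0) (nat_lit 9))
    (@En.n l50 (nat_lit 11862) (nat_lit 15) (nat_lit 3))))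
  (@Cl.mk (nat_lit 0x3000c00080004000b0004000b0009000c0005000800050004000d0007000c) (nat_lit 0x830306550300a07) (nat_lit 16) Lb.e (@T16.mk En
    (@En.n l5839 (nat_lit 10528) (nat_lit 0) (nat_lit 12))
    (@En.i (nat_lit 12050) (nat_lit 14) (nat_lit 7))
    (@En.n l27135 (nat_lit 11985) (nat_lit 2) (nat_lit 13))
    (@En.n l16484 (nat_lit 12011) (nat_lit 12) (nat_lit 4))
    (@En.n l34579 (nat_lit 10578) (nat_lit 4) (nat_lit 5))
    (@En.n l3531 (nat_lit 12042) (nat_lit 10) (nat_lit 8))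
    (@En.n l29941 (nat_lit 9685) (nat_lit 6) (nat_lit 5))
    (@En.i (nat_lit 7380) (nat_lit 6) (nat_lit 12))
    (@En.n l619 (nat_lit 9675) (nat_lit 1) (nat_lit 9))
    (@En.i (nat_lit 11863) (nat_lit 10) (nat_lit 11))
    (@En.n l38923 (nat_lit 10925) (nat_lit 10) (nat_lit 4))
    (@En.n l5646 (nat_lit 12052) (nat_lit 0) (nat_lit 11))
    (@En.n l16484 (nat_lit 10474) (nat_lit 1) (nat_lit 4))
    (@En.n l3531 (nat_lit 11206) (nat_lit 14) (nat_lit 8))
    (@En.i (nat_lit 4228) (nat_lit 1) (nat_lit 12))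
    (@En.i (nat_lit 11867) (nat_lit 15) (nat_lit 3))))
  (@Cl.mk (nat_lit 0x3000c00080005000b0004000b0008000c0005000800050004000d000b0008) (nat_lit 0x640806350300a23) (nat_lit 16) Lb.e (@T16.mk En
    (@En.n l2894 (nat_lit 11317) (nat_lit 0) (nat_lit 8))
    (@En.n l14479 (nat_lit 10480) (nat_lit 5) (nat_lit 11))
    (@En.n l19410 (nat_lit 11984) (nat_lit 2) (nat_lit 13))
    (@En.n l16484 (nat_lit 12014) (nat_lit 12) (nat_lit 4))
    (@En.n l18754 (nat_lit 10579) (nat_lit 4) (nat_lit 5))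
    (@En.n l15286 (nat_lit 12049) (nat_lit 10) (nat_lit 8))
    (@En.n l27799 (nat_lit 9687) (nat_lit 6) (nat_lit 5))
    (@En.i (nat_lit 7379) (nat_lit 7) (nat_lit 12))
    (@En.n l24148 (nat_lit 11815) (nat_lit 1) (nat_lit 8))
    (@En.i (nat_lit 11864) (nat_lit 10) (nat_lit 11))
    (@En.n l41030 (nat_lit 10924) (nat_lit 10) (nat_lit 4))
    (@En.n l18754 (nat_lit 12055) (nat_lit 0) (nat_lit 11))
    (@En.n l16484 (nat_lit 10476) (nat_lit 1) (nat_lit 5))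
    (@En.n l3531 (nat_lit 11202) (nat_lit 14) (nat_lit 8))
    (@En.n l2698 (nat_lit 10024) (nat_lit 3) (nat_lit 12))
    (@En.n l50 (nat_lit 11866) (nat_lit 15) (nat_lit 3))))
  (@Cl.mk (nat_lit 0x3000c0006000b000a0004000b00080005000b00060005000a000d00050008) (nat_lit 0x503107204007503) (nat_lit 16) Lb.e (@T16.mk En
    (@En.n l13783 (nat_lit 5742) (nat_lit 10) (nat_lit 8))
    (@En.n l33144 (nat_lit 9938) (nat_lit 6) (nat_lit 5))
    (@En.i (nat_lit 9188) (nat_lit 5) (nat_lit 13))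
    (@En.n l97 (nat_lit 11774) (nat_lit 3) (nat_lit 10))
    (@En.n l17410 (nat_lit 9681) (nat_lit 11) (nat_lit 5))
    (@En.n l33145 (nat_lit 8631) (nat_lit 5) (nat_lit 6))
    (@En.n l33146 (nat_lit 11783) (nat_lit 1) (nat_lit 11))
    (@En.n l33147 (nat_lit 11883) (nat_lit 7) (nat_lit 5))
    (@En.n l3480 (nat_lit 9710) (nat_lit 14) (nat_lit 8))
    (@En.n l33148 (nat_lit 6714) (nat_lit 10) (nat_lit 11))
    (@En.n l33149 (nat_lit 9947) (nat_lit 10) (nat_lit 4))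
    (@En.n l77 (nat_lit 6212) (nat_lit 6) (nat_lit 10))
    (@En.n l33147 (nat_lit 10186) (nat_lit 1) (nat_lit 11))
    (@En.n l33150 (nat_lit 11869) (nat_lit 14) (nat_lit 6))
    (@En.n l33151 (nat_lit 9719) (nat_lit 3) (nat_lit 12))
    (@En.n l6131 (nat_lit 11873) (nat_lit 15) (nat_lit 3))))
  (@Cl.mk (nat_lit 0x30006000b000a0008000b00070005000a00060005000a0008000d00060009) (nat_lit 0x51260040075604) (nat_lit 16) Lb.e (@T16.mk En
    (@En.n l42578 (nat_lit 5748) (nat_lit 0) (nat_lit 9))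
    (@En.n l21377 (nat_lit 9722) (nat_lit 8) (nat_lit 6))
    (@En.n l32993 (nat_lit 11868) (nat_lit 2) (nat_lit 13))
    (@En.n l25076 (nat_lit 11870) (nat_lit 3) (nat_lit 8))
    (@En.i (nat_lit 11772) (nat_lit 4) (nat_lit 10))
    (@En.n l42579 (nat_lit 9679) (nat_lit 5) (nat_lit 5))
    (@En.n l18752 (nat_lit 9128) (nat_lit 6) (nat_lit 6))
    (@En.n l16218 (nat_lit 11782) (nat_lit 8) (nat_lit 10))
    (@En.n l1003 (nat_lit 11882) (nat_lit 8) (nat_lit 5))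
    (@En.i (nat_lit 9708) (nat_lit 10) (nat_lit 7))
    (@En.n l42578 (nat_lit 6775) (nat_lit 7) (nat_lit 11))
    (@En.n l8906 (nat_lit 10617) (nat_lit 12) (nat_lit 8))
    (@En.n l42578 (nat_lit 6154) (nat_lit 13) (nat_lit 10))
    (@En.n l36929 (nat_lit 10923) (nat_lit 14) (nat_lit 11))
    (@En.n l26408 (nat_lit 9511) (nat_lit 12) (nat_lit 6))
    (@En.n l31804 (nat_lit 11871) (nat_lit 15) (nat_lit 3))))
  (@Cl.mk (nat_lit 0x3000c000a000900080004000b00080006000b000700050008000d00050008) (nat_lit 0x521207304004503) (nat_lit 16) Lb.e (@T16.mk En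
    (@En.n l2700 (nat_lit 5744) (nat_lit 10) (nat_lit 8))
    (@En.n l36893 (nat_lit 9720) (nat_lit 6) (nat_lit 5))
    (@En.n l40246 (nat_lit 9192) (nat_lit 2) (nat_lit 13))
    (@En.n l31397 (nat_lit 11545) (nat_lit 10) (nat_lit 8))
    (@En.n l40247 (nat_lit 9678) (nat_lit 4) (nat_lit 5))
    (@En.i (nat_lit 9125) (nat_lit 5) (nat_lit 7))
    (@En.n l11434 (nat_lit 11781) (nat_lit 1) (nat_lit 11))
    (@En.n l29413 (nat_lit 11880) (nat_lit 7) (nat_lit 6))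
    (@En.n l40248 (nat_lit 9711) (nat_lit 14) (nat_lit 8))
    (@En.i (nat_lit 11869) (nat_lit 10) (nat_lit 11))
    (@En.n l6210 (nat_lit 11868) (nat_lit 10) (nat_lit 4))
    (@En.n l14271 (nat_lit 10618) (nat_lit 0) (nat_lit 8))
    (@En.n l34473 (nat_lit 6155) (nat_lit 7) (nat_lit 9))
    (@En.n l40249 (nat_lit 10922) (nat_lit 14) (nat_lit 10))
    (@En.n l38717 (nat_lit 10512) (nat_lit 3) (nat_lit 12))
    (@En.n l11434 (nat_lit 11872) (nat_lit 15) (nat_lit 3))))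
  (@Cl.mk (nat_lit 0x30006000b000a0008000b00080005000900060005000a0008000d00080007) (nat_lit 0x51244050045620) (nat_lit 16) Lb.e (@T16.mk En
    (@En.n l31305 (nat_lit 12166) (nat_lit 0) (nat_lit 7))
    (@En.n l15622 (nat_lit 11858) (nat_lit 2) (nat_lit 8))
    (@En.n l9444 (nat_lit 11873) (nat_lit 2) (nat_lit 13))
    (@En.n l31306 (nat_lit 11872) (nat_lit 3) (nat_lit 8))
    (@En.n l31292 (nat_lit 11771) (nat_lit 4) (nat_lit 10))
    (@En.n l14352 (nat_lit 10679) (nat_lit 5) (nat_lit 5))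
    (@En.n l16317 (nat_lit 8632) (nat_lit 6) (nat_lit 6))
    (@En.n l31307 (nat_lit 11874) (nat_lit 10) (nat_lit 9))
    (@En.n l24830 (nat_lit 11885) (nat_lit 8) (nat_lit 5))
    (@En.n l31308 (nat_lit 9717) (nat_lit 10) (nat_lit 8))
    (@En.n l699 (nat_lit 6774) (nat_lit 7) (nat_lit 11))
    (@En.n l31309 (nat_lit 11474) (nat_lit 12) (nat_lit 8))
    (@En.i (nat_lit 6150) (nat_lit 13) (nat_lit 10))
    (@En.n l16317 (nat_lit 10921) (nat_lit 14) (nat_lit 11))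
    (@En.n l6585 (nat_lit 11594) (nat_lit 12) (nat_lit 6))
    (@En.n l31299 (nat_lit 11869) (nat_lit 15) (nat_lit 3))))
noncomputable def a742 : T16 Cl := @T16.mk Cl
  (@Cl.mk (nat_lit 0x3000c000a000900080004000b00090006000a000700050008000d00070006) (nat_lit 0x521205506004500) (nat_lit 16) Lb.e (@T16.mk En
    (@En.n l41831 (nat_lit 12171) (nat_lit 0) (nat_lit 6))
    (@En.n l41832 (nat_lit 11857) (nat_lit 6) (nat_lit 7))
    (@En.n l41833 (nat_lit 11832) (nat_lit 2) (nat_lit 13))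
    (@En.n l33233 (nat_lit 11560) (nat_lit 10) (nat_lit 8))
    (@En.n l41834 (nat_lit 10683) (nat_lit 4) (nat_lit 5))
    (@En.n l38282 (nat_lit 9127) (nat_lit 5) (nat_lit 7))
    (@En.i (nat_lit 11876) (nat_lit 9) (nat_lit 10))
    (@En.n l17634 (nat_lit 11881) (nat_lit 7) (nat_lit 6))
    (@En.n l32167 (nat_lit 9715) (nat_lit 7) (nat_lit 9))
    (@En.n l36981 (nat_lit 11871) (nat_lit 10) (nat_lit 11))
    (@En.n l41835 (nat_lit 11873) (nat_lit 10) (nat_lit 4))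
    (@En.n l41836 (nat_lit 11470) (nat_lit 0) (nat_lit 8))
    (@En.n l41837 (nat_lit 6148) (nat_lit 7) (nat_lit 9))
    (@En.n l41838 (nat_lit 10920) (nat_lit 14) (nat_lit 10))
    (@En.n l33905 (nat_lit 11074) (nat_lit 3) (nat_lit 12))
    (@En.n l16563 (nat_lit 11870) (nat_lit 15) (nat_lit 3))))
  (@Cl.mk (nat_lit 0x3000c0006000b000a0004000b00090005000a00060005000a000d00070006) (nat_lit 0x804103405004500) (nat_lit 16) Lb.e (@T16.mk En
    (@En.n l5934 (nat_lit 11963) (nat_lit 0) (nat_lit 6))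
    (@En.n l32408 (nat_lit 11855) (nat_lit 6) (nat_lit 7))
    (@En.i (nat_lit 9191) (nat_lit 5) (nat_lit 13))
    (@En.n l41013 (nat_lit 11773) (nat_lit 3) (nat_lit 10))
    (@En.n l14973 (nat_lit 10682) (nat_lit 11) (nat_lit 5))
    (@En.n l41014 (nat_lit 8628) (nat_lit 5) (nat_lit 6))
    (@En.n l41015 (nat_lit 11875) (nat_lit 1) (nat_lit 10))
    (@En.n l50 (nat_lit 11884) (nat_lit 7) (nat_lit 5))
    (@En.n l2579 (nat_lit 9716) (nat_lit 7) (nat_lit 9))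
    (@En.n l6152 (nat_lit 6711) (nat_lit 10) (nat_lit 11))
    (@En.n l41013 (nat_lit 11475) (nat_lit 10) (nat_lit 4))
    (@En.n l28105 (nat_lit 6149) (nat_lit 6) (nat_lit 10))
    (@En.n l41016 (nat_lit 10184) (nat_lit 1) (nat_lit 11))
    (@En.n l20022 (nat_lit 11871) (nat_lit 14) (nat_lit 6))
    (@En.n l2125 (nat_lit 11078) (nat_lit 3) (nat_lit 12))
    (@En.n l9105 (nat_lit 11868) (nat_lit 15) (nat_lit 3))))
  (@Cl.mk (nat_lit 0x3000b0009000c000900090005000400090007000c00070007000d00040007) (nat_lit 0x622240050500400) (nat_lit 16) Lb.e (@T16.mk En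
    (@En.n l649 (nat_lit 10787) (nat_lit 11) (nat_lit 7))
    (@En.n l29124 (nat_lit 11124) (nat_lit 15) (nat_lit 4))
    (@En.n l36977 (nat_lit 11836) (nat_lit 0) (nat_lit 13))
    (@En.n l36978 (nat_lit 12269) (nat_lit 9) (nat_lit 7))
    (@En.n l18108 (nat_lit 11859) (nat_lit 4) (nat_lit 7))
    (@En.n l20490 (nat_lit 11875) (nat_lit 13) (nat_lit 12))
    (@En.n l403 (nat_lit 11876) (nat_lit 6) (nat_lit 7))
    (@En.n l4256 (nat_lit 11777) (nat_lit 5) (nat_lit 9))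
    (@En.n l36979 (nat_lit 12447) (nat_lit 12) (nat_lit 4))
    (@En.i (nat_lit 10762) (nat_lit 0) (nat_lit 5))
    (@En.n l1867 (nat_lit 12321) (nat_lit 7) (nat_lit 9))
    (@En.n l36980 (nat_lit 11870) (nat_lit 12) (nat_lit 9))
    (@En.n l32152 (nat_lit 1326) (nat_lit 6) (nat_lit 12))
    (@En.n l2863 (nat_lit 11939) (nat_lit 14) (nat_lit 9))
    (@En.n l36981 (nat_lit 11260) (nat_lit 13) (nat_lit 11))
    (@En.n l18112 (nat_lit 11877) (nat_lit 15) (nat_lit 3))))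
  (@Cl.mk (nat_lit 0x40009000c00060006000c0004000c00070004000b0004000c000a000a0005) (nat_lit 0x540030200702340) (nat_lit 16) Lb.e (@T16.mk En
    (@En.i (nat_lit 10763) (nat_lit 0) (nat_lit 5))
    (@En.n l28742 (nat_lit 12635) (nat_lit 6) (nat_lit 10))
    (@En.n l29400 (nat_lit 11781) (nat_lit 6) (nat_lit 10))
    (@En.n l29401 (nat_lit 1254) (nat_lit 2) (nat_lit 12))
    (@En.i (nat_lit 11805) (nat_lit 4) (nat_lit 4))
    (@En.n l29402 (nat_lit 11261) (nat_lit 0) (nat_lit 11))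
    (@En.n l18113 (nat_lit 12450) (nat_lit 1) (nat_lit 4))
    (@En.n l2781 (nat_lit 11874) (nat_lit 0) (nat_lit 7))
    (@En.n l29403 (nat_lit 12689) (nat_lit 1) (nat_lit 12))
    (@En.n l29387 (nat_lit 11125) (nat_lit 9) (nat_lit 4))
    (@En.n l29401 (nat_lit 11838) (nat_lit 0) (nat_lit 12))
    (@En.n l29404 (nat_lit 12267) (nat_lit 10) (nat_lit 6))
    (@En.n l18108 (nat_lit 11854) (nat_lit 5) (nat_lit 6))
    (@En.n l29405 (nat_lit 12683) (nat_lit 6) (nat_lit 12))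
    (@En.n l29406 (nat_lit 11778) (nat_lit 4) (nat_lit 9))
    (@En.n l29405 (nat_lit 12446) (nat_lit 12) (nat_lit 4))))
  (@Cl.mk (nat_lit 0x3000a00090004000c000a000a000600040007000c00060006000d0004000c) (nat_lit 0x630335000400306) (nat_lit 16) Lb.e (@T16.mk En
    (@En.n l33905 (nat_lit 12738) (nat_lit 0) (nat_lit 12))
    (@En.i (nat_lit 11878) (nat_lit 9) (nat_lit 4))
    (@En.n l18106 (nat_lit 11834) (nat_lit 2) (nat_lit 13))
    (@En.n l18107 (nat_lit 12270) (nat_lit 10) (nat_lit 6))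
    (@En.n l18108 (nat_lit 11856) (nat_lit 4) (nat_lit 6))
    (@En.n l33906 (nat_lit 12681) (nat_lit 8) (nat_lit 12))
    (@En.n l15271 (nat_lit 11064) (nat_lit 11) (nat_lit 7))
    (@En.n l33907 (nat_lit 12448) (nat_lit 7) (nat_lit 4))
    (@En.i (nat_lit 10649) (nat_lit 0) (nat_lit 6))
    (@En.i (nat_lit 12663) (nat_lit 6) (nat_lit 10))
    (@En.n l61 (nat_lit 11880) (nat_lit 11) (nat_lit 10))
    (@En.i (nat_lit 11874) (nat_lit 12) (nat_lit 12))
    (@En.i (nat_lit 11875) (nat_lit 4) (nat_lit 4))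
    (@En.n l2863 (nat_lit 11022) (nat_lit 14) (nat_lit 9))
    (@En.n l21431 (nat_lit 11262) (nat_lit 1) (nat_lit 10))
    (@En.i (nat_lit 11879) (nat_lit 15) (nat_lit 3))))
  (@Cl.mk (nat_lit 0x3000b0009000c0009000900050004000a0007000b00070007000d00060005) (nat_lit 0x432240040400400) (nat_lit 16) Lb.e (@T16.mk En
    (@En.n l1768 (nat_lit 10738) (nat_lit 0) (nat_lit 5))
    (@En.n l9019 (nat_lit 12060) (nat_lit 0) (nat_lit 6))
    (@En.n l1768 (nat_lit 9247) (nat_lit 2) (nat_lit 13))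
    (@En.n l29407 (nat_lit 12273) (nat_lit 9) (nat_lit 7))
    (@En.n l8638 (nat_lit 11861) (nat_lit 4) (nat_lit 7))
    (@En.i (nat_lit 12450) (nat_lit 8) (nat_lit 11))
    (@En.n l29408 (nat_lit 11879) (nat_lit 6) (nat_lit 7))
    (@En.n l14971 (nat_lit 10858) (nat_lit 8) (nat_lit 10))
    (@En.n l50 (nat_lit 12453) (nat_lit 12) (nat_lit 4))
    (@En.n l29409 (nat_lit 10687) (nat_lit 0) (nat_lit 5))
    (@En.n l61 (nat_lit 12322) (nat_lit 7) (nat_lit 9))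
    (@En.n l217 (nat_lit 11872) (nat_lit 12) (nat_lit 9))
    (@En.n l1768 (nat_lit 1327) (nat_lit 6) (nat_lit 12))
    (@En.n l29410 (nat_lit 11938) (nat_lit 14) (nat_lit 9))
    (@En.n l25903 (nat_lit 9364) (nat_lit 4) (nat_lit 11))
    (@En.n l29411 (nat_lit 11874) (nat_lit 15) (nat_lit 3))))
  (@Cl.mk (nat_lit 0x40007000c000b000700070004000c0005000a00090004000c000900090006) (nat_lit 0x34000805103550) (nat_lit 16) Lb.e (@T16.mk En
    (@En.n l7981 (nat_lit 9981) (nat_lit 0) (nat_lit 6))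
    (@En.i (nat_lit 12653) (nat_lit 7) (nat_lit 9))
    (@En.n l61 (nat_lit 9724) (nat_lit 14) (nat_lit 9))
    (@En.n l29124 (nat_lit 11124) (nat_lit 10) (nat_lit 12))
    (@En.n l29387 (nat_lit 11125) (nat_lit 4) (nat_lit 4))
    (@En.n l29388 (nat_lit 4176) (nat_lit 0) (nat_lit 9))
    (@En.n l7979 (nat_lit 11253) (nat_lit 1) (nat_lit 10))
    (@En.n l29389 (nat_lit 10739) (nat_lit 7) (nat_lit 5))
    (@En.n l29390 (nat_lit 11968) (nat_lit 9) (nat_lit 12))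
    (@En.n l11 (nat_lit 11781) (nat_lit 9) (nat_lit 4))
    (@En.n l29391 (nat_lit 12272) (nat_lit 9) (nat_lit 7))
    (@En.n l936 (nat_lit 11872) (nat_lit 1) (nat_lit 7))
    (@En.n l55 (nat_lit 11879) (nat_lit 5) (nat_lit 11))
    (@En.n l29392 (nat_lit 12684) (nat_lit 8) (nat_lit 12))
    (@En.n l15271 (nat_lit 11553) (nat_lit 11) (nat_lit 7))
    (@En.n l29387 (nat_lit 11122) (nat_lit 15) (nat_lit 4))))
  (@Cl.mk (nat_lit 0x3000a00090005000c000a000a000600040007000b00060006000d000b0005) (nat_lit 0x440335000300250) (nat_lit 16) Lb.e (@T16.mk En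
    (@En.n l18105 (nat_lit 10737) (nat_lit 0) (nat_lit 5))
    (@En.n l77 (nat_lit 11805) (nat_lit 10) (nat_lit 11))
    (@En.n l18106 (nat_lit 11833) (nat_lit 2) (nat_lit 13))
    (@En.n l18107 (nat_lit 12598) (nat_lit 10) (nat_lit 6))
    (@En.n l18108 (nat_lit 11860) (nat_lit 4) (nat_lit 6))
    (@En.n l18109 (nat_lit 12687) (nat_lit 8) (nat_lit 11))
    (@En.n l18105 (nat_lit 11057) (nat_lit 11) (nat_lit 7))
    (@En.n l18110 (nat_lit 12454) (nat_lit 7) (nat_lit 4))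
    (@En.n l8312 (nat_lit 10688) (nat_lit 0) (nat_lit 6))
    (@En.n l148 (nat_lit 12666) (nat_lit 6) (nat_lit 10))
    (@En.n l18111 (nat_lit 11881) (nat_lit 11) (nat_lit 10))
    (@En.n l18112 (nat_lit 11877) (nat_lit 12) (nat_lit 12))
    (@En.n l18113 (nat_lit 10283) (nat_lit 4) (nat_lit 5))
    (@En.n l2863 (nat_lit 11024) (nat_lit 14) (nat_lit 9))
    (@En.n l18114 (nat_lit 9370) (nat_lit 1) (nat_lit 10))
    (@En.n l28 (nat_lit 11876) (nat_lit 15) (nat_lit 3))))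
  (@Cl.mk (nat_lit 0x3000b000a0004000a00090005000c0006000b000600040007000d0005000c) (nat_lit 0x230220904000901) (nat_lit 16) Lb.e (@T16.mk En
    (@En.n l17405 (nat_lit 5673) (nat_lit 0) (nat_lit 12))
    (@En.i (nat_lit 9724) (nat_lit 4) (nat_lit 5))
    (@En.n l42615 (nat_lit 11886) (nat_lit 2) (nat_lit 13))
    (@En.n l42616 (nat_lit 6590) (nat_lit 11) (nat_lit 7))
    (@En.n l7899 (nat_lit 9680) (nat_lit 4) (nat_lit 4))
    (@En.n l6918 (nat_lit 9076) (nat_lit 0) (nat_lit 6))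
    (@En.n l38102 (nat_lit 12440) (nat_lit 1) (nat_lit 11))
    (@En.n l42617 (nat_lit 9270) (nat_lit 7) (nat_lit 6))
    (@En.n l41823 (nat_lit 11882) (nat_lit 9) (nat_lit 12))
    (@En.i (nat_lit 11883) (nat_lit 9) (nat_lit 5))
    (@En.n l6918 (nat_lit 10574) (nat_lit 11) (nat_lit 9))
    (@En.n l36171 (nat_lit 9706) (nat_lit 12) (nat_lit 10))
    (@En.n l40571 (nat_lit 11781) (nat_lit 7) (nat_lit 4))
    (@En.n l217 (nat_lit 10214) (nat_lit 0) (nat_lit 10))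
    (@En.n l38102 (nat_lit 10510) (nat_lit 1) (nat_lit 11))
    (@En.n l42618 (nat_lit 11881) (nat_lit 15) (nat_lit 3))))
  (@Cl.mk (nat_lit 0x3000b000a0005000a00090005000c0006000a000600040007000d000b0006) (nat_lit 0x320220806000940) (nat_lit 16) Lb.e (@T16.mk En
    (@En.n l31402 (nat_lit 10038) (nat_lit 0) (nat_lit 6))
    (@En.n l31403 (nat_lit 11779) (nat_lit 13) (nat_lit 11))
    (@En.n l25042 (nat_lit 11887) (nat_lit 2) (nat_lit 13))
    (@En.n l16372 (nat_lit 5720) (nat_lit 11) (nat_lit 7))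
    (@En.n l3797 (nat_lit 10685) (nat_lit 4) (nat_lit 4))
    (@En.n l31404 (nat_lit 8787) (nat_lit 0) (nat_lit 6))
    (@En.n l1003 (nat_lit 12439) (nat_lit 9) (nat_lit 10))
    (@En.n l31405 (nat_lit 9273) (nat_lit 7) (nat_lit 6))
    (@En.n l6738 (nat_lit 11885) (nat_lit 9) (nat_lit 12))
    (@En.n l31406 (nat_lit 11884) (nat_lit 9) (nat_lit 5))
    (@En.i (nat_lit 10576) (nat_lit 11) (nat_lit 9))
    (@En.n l25042 (nat_lit 9704) (nat_lit 12) (nat_lit 10))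
    (@En.n l31407 (nat_lit 11878) (nat_lit 7) (nat_lit 5))
    (@En.n l31404 (nat_lit 10210) (nat_lit 14) (nat_lit 10))
    (@En.i (nat_lit 10952) (nat_lit 10) (nat_lit 11))
    (@En.n l31408 (nat_lit 11880) (nat_lit 15) (nat_lit 3))))
  (@Cl.mk (nat_lit 0x30006000b0004000b0009000c0005000a00050004000a0007000d0006000c) (nat_lit 0x30228080060909) (nat_lit 16) Lb.e (@T16.mk En
    (@En.n l17919 (nat_lit 9238) (nat_lit 0) (nat_lit 12))
    (@En.i (nat_lit 9725) (nat_lit 4) (nat_lit 6))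
    (@En.n l32172 (nat_lit 11883) (nat_lit 2) (nat_lit 13))
    (@En.n l32173 (nat_lit 11880) (nat_lit 3) (nat_lit 7))
    (@En.n l899 (nat_lit 10852) (nat_lit 4) (nat_lit 10))
    (@En.n l32174 (nat_lit 9682) (nat_lit 5) (nat_lit 4))
    (@En.n l3851 (nat_lit 9072) (nat_lit 6) (nat_lit 5))
    (@En.n l617 (nat_lit 12707) (nat_lit 1) (nat_lit 10))
    (@En.n l2125 (nat_lit 8793) (nat_lit 8) (nat_lit 5))
    (@En.n l3851 (nat_lit 6658) (nat_lit 6) (nat_lit 12))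
    (@En.n l3536 (nat_lit 10572) (nat_lit 11) (nat_lit 9))
    (@En.n l32175 (nat_lit 9705) (nat_lit 12) (nat_lit 11))
    (@En.i (nat_lit 11782) (nat_lit 13) (nat_lit 4))
    (@En.n l14297 (nat_lit 10469) (nat_lit 0) (nat_lit 11))
    (@En.i (nat_lit 9512) (nat_lit 12) (nat_lit 6))
    (@En.n l10775 (nat_lit 11885) (nat_lit 15) (nat_lit 3))))
  (@Cl.mk (nat_lit 0x3000b0006000b0005000b0005000c0005000b00050004000a000d0005000b) (nat_lit 0x101020809005808) (nat_lit 16) Lb.e (@T16.mk En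
    (@En.n l41995 (nat_lit 9239) (nat_lit 0) (nat_lit 11))
    (@En.n l5757 (nat_lit 9937) (nat_lit 5) (nat_lit 5))
    (@En.n l41414 (nat_lit 11889) (nat_lit 5) (nat_lit 13))
    (@En.n l41996 (nat_lit 10850) (nat_lit 3) (nat_lit 10))
    (@En.n l13196 (nat_lit 9683) (nat_lit 12) (nat_lit 4))
    (@En.n l41997 (nat_lit 9071) (nat_lit 5) (nat_lit 5))
    (@En.n l29771 (nat_lit 12711) (nat_lit 1) (nat_lit 11))
    (@En.n l41998 (nat_lit 8791) (nat_lit 7) (nat_lit 5))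
    (@En.n l41997 (nat_lit 6655) (nat_lit 9) (nat_lit 12))
    (@En.i (nat_lit 11714) (nat_lit 9) (nat_lit 5))
    (@En.n l39676 (nat_lit 9707) (nat_lit 11) (nat_lit 11))
    (@En.n l40569 (nat_lit 11783) (nat_lit 6) (nat_lit 5))
    (@En.i (nat_lit 9174) (nat_lit 13) (nat_lit 11))
    (@En.n l29502 (nat_lit 11882) (nat_lit 14) (nat_lit 6))
    (@En.n l14196 (nat_lit 9570) (nat_lit 2) (nat_lit 11))
    (@En.n l32434 (nat_lit 11884) (nat_lit 15) (nat_lit 3))))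
  (@Cl.mk (nat_lit 0x3000b0006000b0006000b0005000c0005000a00050004000a000d000a0006) (nat_lit 0x205020805005940) (nat_lit 16) Lb.e (@T16.mk En
    (@En.n l29681 (nat_lit 7579) (nat_lit 0) (nat_lit 6))
    (@En.n l29682 (nat_lit 10273) (nat_lit 13) (nat_lit 10))
    (@En.i (nat_lit 11888) (nat_lit 5) (nat_lit 13))
    (@En.n l1782 (nat_lit 10849) (nat_lit 3) (nat_lit 10))
    (@En.n l19133 (nat_lit 10684) (nat_lit 12) (nat_lit 4))
    (@En.n l29683 (nat_lit 8786) (nat_lit 5) (nat_lit 5))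
    (@En.n l29682 (nat_lit 12596) (nat_lit 1) (nat_lit 10))
    (@En.n l644 (nat_lit 8794) (nat_lit 7) (nat_lit 5))
    (@En.n l6152 (nat_lit 6659) (nat_lit 9) (nat_lit 12))
    (@En.n l29684 (nat_lit 11715) (nat_lit 9) (nat_lit 5))
    (@En.i (nat_lit 9702) (nat_lit 11) (nat_lit 11))
    (@En.n l19133 (nat_lit 11125) (nat_lit 6) (nat_lit 6))
    (@En.n l29685 (nat_lit 10182) (nat_lit 13) (nat_lit 11))
    (@En.n l9120 (nat_lit 11885) (nat_lit 14) (nat_lit 6))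
    (@En.n l29686 (nat_lit 11085) (nat_lit 10) (nat_lit 11))
    (@En.n l29687 (nat_lit 11883) (nat_lit 15) (nat_lit 3))))
  (@Cl.mk (nat_lit 0x30006000b0005000b0009000c0005000900050004000a0007000d000b0007) (nat_lit 0x40227050060a50) (nat_lit 16) Lb.e (@T16.mk En
    (@En.n l4586 (nat_lit 7583) (nat_lit 0) (nat_lit 7))
    (@En.n l2824 (nat_lit 11780) (nat_lit 12) (nat_lit 11))
    (@En.n l16762 (nat_lit 11884) (nat_lit 2) (nat_lit 13))
    (@En.n l16763 (nat_lit 11881) (nat_lit 3) (nat_lit 7))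
    (@En.n l16764 (nat_lit 10851) (nat_lit 4) (nat_lit 10))
    (@En.n l6741 (nat_lit 10681) (nat_lit 12) (nat_lit 4))
    (@En.i (nat_lit 8785) (nat_lit 6) (nat_lit 5))
    (@En.n l16765 (nat_lit 12438) (nat_lit 10) (nat_lit 9))
    (@En.n l16766 (nat_lit 9691) (nat_lit 8) (nat_lit 5))
    (@En.i (nat_lit 6777) (nat_lit 6) (nat_lit 12))
    (@En.n l2823 (nat_lit 10573) (nat_lit 11) (nat_lit 9))
    (@En.n l16767 (nat_lit 9703) (nat_lit 12) (nat_lit 11))
    (@En.n l6741 (nat_lit 11124) (nat_lit 13) (nat_lit 5))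
    (@En.n l16768 (nat_lit 10212) (nat_lit 14) (nat_lit 11))
    (@En.n l2817 (nat_lit 10907) (nat_lit 12) (nat_lit 6))
    (@En.n l16769 (nat_lit 11882) (nat_lit 15) (nat_lit 3))))
  (@Cl.mk (nat_lit 0x3000b000b000a0005000a00050005000c0006000c00060004000d0004000b) (nat_lit 0x532040090400808) (nat_lit 16) Lb.e (@T16.mk En
    (@En.n l14806 (nat_lit 12274) (nat_lit 0) (nat_lit 11))
    (@En.n l18901 (nat_lit 11043) (nat_lit 15) (nat_lit 4))
    (@En.n l40741 (nat_lit 3308) (nat_lit 2) (nat_lit 13))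
    (@En.i (nat_lit 11893) (nat_lit 1) (nat_lit 4))
    (@En.n l40742 (nat_lit 8575) (nat_lit 4) (nat_lit 6))
    (@En.n l40743 (nat_lit 9218) (nat_lit 1) (nat_lit 12))
    (@En.n l40744 (nat_lit 6882) (nat_lit 6) (nat_lit 6))
    (@En.n l40745 (nat_lit 11883) (nat_lit 8) (nat_lit 12))
    (@En.n l40746 (nat_lit 11889) (nat_lit 11) (nat_lit 5))
    (@En.n l6593 (nat_lit 11840) (nat_lit 9) (nat_lit 5))
    (@En.n l40747 (nat_lit 8546) (nat_lit 11) (nat_lit 10))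
    (@En.n l40748 (nat_lit 9193) (nat_lit 1) (nat_lit 5))
    (@En.n l619 (nat_lit 9196) (nat_lit 6) (nat_lit 10))
    (@En.n l97 (nat_lit 11890) (nat_lit 5) (nat_lit 11))
    (@En.n l40749 (nat_lit 9715) (nat_lit 11) (nat_lit 11))
    (@En.n l20825 (nat_lit 11887) (nat_lit 15) (nat_lit 3))))
  (@Cl.mk (nat_lit 0x3000b000b000a0006000a00050005000c0006000b00060004000d000a0005) (nat_lit 0x542040090600840) (nat_lit 16) Lb.e (@T16.mk En
    (@En.n l29681 (nat_lit 9120) (nat_lit 0) (nat_lit 5))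
    (@En.n l29688 (nat_lit 10280) (nat_lit 14) (nat_lit 10))
    (@En.i (nat_lit 3306) (nat_lit 2) (nat_lit 13))
    (@En.n l36835 (nat_lit 11892) (nat_lit 3) (nat_lit 4))
    (@En.n l4966 (nat_lit 9049) (nat_lit 4) (nat_lit 6))
    (@En.n l134 (nat_lit 12454) (nat_lit 1) (nat_lit 11))
    (@En.n l644 (nat_lit 7130) (nat_lit 6) (nat_lit 6))
    (@En.n l476 (nat_lit 11884) (nat_lit 8) (nat_lit 12))
    (@En.n l152 (nat_lit 11888) (nat_lit 11) (nat_lit 5))
    (@En.n l36120 (nat_lit 10187) (nat_lit 9) (nat_lit 5))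
    (@En.i (nat_lit 8542) (nat_lit 9) (nat_lit 10))
    (@En.n l55 (nat_lit 12684) (nat_lit 1) (nat_lit 6))
    (@En.n l17270 (nat_lit 9198) (nat_lit 6) (nat_lit 10))
    (@En.n l24909 (nat_lit 11891) (nat_lit 5) (nat_lit 11))
    (@En.i (nat_lit 11084) (nat_lit 11) (nat_lit 11))
    (@En.n l36836 (nat_lit 11886) (nat_lit 15) (nat_lit 3))))
noncomputable def a743 : T16 Cl := @T16.mk Cl
  (@Cl.mk (nat_lit 0x2000b0007000b0005000c0005000b00050004000d000900050003000e000b) (nat_lit 0x3040a0500840046) (nat_lit 16) Lb.e (@T16.mk En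
    (@En.i (nat_lit 11887) (nat_lit 14) (nat_lit 11))
    (@En.i (nat_lit 10859) (nat_lit 1) (nat_lit 14))
    (@En.n l29364 (nat_lit 11889) (nat_lit 2) (nat_lit 3))
    (@En.n l29681 (nat_lit 6377) (nat_lit 3) (nat_lit 5))
    (@En.i (nat_lit 11583) (nat_lit 4) (nat_lit 9))
    (@En.n l32924 (nat_lit 3348) (nat_lit 6) (nat_lit 13))
    (@En.n l29681 (nat_lit 11895) (nat_lit 6) (nat_lit 4))
    (@En.n l29693 (nat_lit 10104) (nat_lit 7) (nat_lit 5))
    (@En.n l32925 (nat_lit 12597) (nat_lit 9) (nat_lit 11))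
    (@En.n l644 (nat_lit 7914) (nat_lit 9) (nat_lit 5))
    (@En.n l5933 (nat_lit 6702) (nat_lit 11) (nat_lit 12))
    (@En.n l6238 (nat_lit 9201) (nat_lit 12) (nat_lit 5))
    (@En.i (nat_lit 8539) (nat_lit 13) (nat_lit 11))
    (@En.n l55 (nat_lit 12685) (nat_lit 14) (nat_lit 7))
    (@En.i (nat_lit 10303) (nat_lit 12) (nat_lit 11))
    (@En.n l3 (nat_lit 11888) (nat_lit 15) (nat_lit 2))))
  (@Cl.mk (nat_lit 0x2000b0006000b0005000c0005000c00050004000d0004000a0003000e000b) (nat_lit 0x304090a00707046) (nat_lit 16) Lb.e (@T16.mk En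
    (@En.n l31144 (nat_lit 11886) (nat_lit 14) (nat_lit 11))
    (@En.n l25259 (nat_lit 9567) (nat_lit 1) (nat_lit 14))
    (@En.n l15641 (nat_lit 11888) (nat_lit 2) (nat_lit 3))
    (@En.i (nat_lit 11643) (nat_lit 3) (nat_lit 10))
    (@En.n l3851 (nat_lit 11042) (nat_lit 4) (nat_lit 4))
    (@En.n l24252 (nat_lit 3350) (nat_lit 6) (nat_lit 13))
    (@En.n l6524 (nat_lit 11894) (nat_lit 6) (nat_lit 4))
    (@En.n l31145 (nat_lit 8574) (nat_lit 7) (nat_lit 5))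
    (@En.n l25066 (nat_lit 9214) (nat_lit 9) (nat_lit 12))
    (@En.n l24252 (nat_lit 7915) (nat_lit 9) (nat_lit 5))
    (@En.n l24252 (nat_lit 6656) (nat_lit 11) (nat_lit 12))
    (@En.i (nat_lit 9199) (nat_lit 12) (nat_lit 5))
    (@En.n l9869 (nat_lit 8541) (nat_lit 13) (nat_lit 11))
    (@En.n l6524 (nat_lit 9187) (nat_lit 14) (nat_lit 6))
    (@En.n l6530 (nat_lit 10304) (nat_lit 12) (nat_lit 11))
    (@En.n l7 (nat_lit 11889) (nat_lit 15) (nat_lit 2))))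
  (@Cl.mk (nat_lit 0x2000c0007000c00070004000d0004000c0003000b000900040009000e0005) (nat_lit 0xa0a009080210220) (nat_lit 16) Lb.e (@T16.mk En
    (@En.n l107 (nat_lit 11886) (nat_lit 9) (nat_lit 5))
    (@En.n l2824 (nat_lit 7776) (nat_lit 1) (nat_lit 14))
    (@En.n l36985 (nat_lit 8521) (nat_lit 2) (nat_lit 9))
    (@En.n l36986 (nat_lit 12108) (nat_lit 3) (nat_lit 4))
    (@En.i (nat_lit 9154) (nat_lit 4) (nat_lit 9))
    (@En.n l17240 (nat_lit 10514) (nat_lit 1) (nat_lit 11))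
    (@En.n l9255 (nat_lit 11891) (nat_lit 6) (nat_lit 3))
    (@En.n l9715 (nat_lit 10101) (nat_lit 0) (nat_lit 12))
    (@En.n l14190 (nat_lit 11044) (nat_lit 8) (nat_lit 4))
    (@En.n l18775 (nat_lit 3309) (nat_lit 10) (nat_lit 13))
    (@En.i (nat_lit 11904) (nat_lit 10) (nat_lit 4))
    (@En.n l1448 (nat_lit 9045) (nat_lit 12) (nat_lit 7))
    (@En.n l17240 (nat_lit 12767) (nat_lit 13) (nat_lit 12))
    (@En.n l936 (nat_lit 6881) (nat_lit 14) (nat_lit 7))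
    (@En.n l22603 (nat_lit 11880) (nat_lit 8) (nat_lit 12))
    (@En.n l67 (nat_lit 11890) (nat_lit 15) (nat_lit 2))))
  (@Cl.mk (nat_lit 0x2000c0007000b00070004000d000b00050003000b000900050009000e0005) (nat_lit 0x90700a400310270) (nat_lit 16) Lb.e (@T16.mk En
    (@En.n l13489 (nat_lit 11887) (nat_lit 9) (nat_lit 5))
    (@En.n l21093 (nat_lit 7777) (nat_lit 1) (nat_lit 14))
    (@En.i (nat_lit 12718) (nat_lit 2) (nat_lit 9))
    (@En.n l8929 (nat_lit 12686) (nat_lit 3) (nat_lit 5))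
    (@En.n l21094 (nat_lit 9153) (nat_lit 4) (nat_lit 9))
    (@En.n l4790 (nat_lit 10950) (nat_lit 6) (nat_lit 11))
    (@En.n l21095 (nat_lit 11890) (nat_lit 6) (nat_lit 3))
    (@En.n l3531 (nat_lit 9122) (nat_lit 7) (nat_lit 5))
    (@En.n l21096 (nat_lit 11910) (nat_lit 9) (nat_lit 11))
    (@En.n l21097 (nat_lit 3305) (nat_lit 10) (nat_lit 13))
    (@En.n l21098 (nat_lit 11906) (nat_lit 10) (nat_lit 4))
    (@En.n l21094 (nat_lit 9047) (nat_lit 12) (nat_lit 7))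
    (@En.n l3531 (nat_lit 12664) (nat_lit 13) (nat_lit 11))
    (@En.n l21099 (nat_lit 7042) (nat_lit 14) (nat_lit 7))
    (@En.n l1767 (nat_lit 11881) (nat_lit 8) (nat_lit 12))
    (@En.n l17 (nat_lit 11891) (nat_lit 15) (nat_lit 2))))
  (@Cl.mk (nat_lit 0x3000b000b00090006000c00050005000c00040007000c0004000d000a0004) (nat_lit 0x565040020050130) (nat_lit 16) Lb.e (@T16.mk En
    (@En.n l14452 (nat_lit 12199) (nat_lit 0) (nat_lit 4))
    (@En.n l217 (nat_lit 11821) (nat_lit 0) (nat_lit 10))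
    (@En.i (nat_lit 338) (nat_lit 1) (nat_lit 13))
    (@En.n l28988 (nat_lit 8768) (nat_lit 3) (nat_lit 4))
    (@En.n l6171 (nat_lit 12448) (nat_lit 0) (nat_lit 12))
    (@En.n l6590 (nat_lit 9028) (nat_lit 11) (nat_lit 7))
    (@En.i (nat_lit 11833) (nat_lit 6) (nat_lit 4))
    (@En.n l17645 (nat_lit 10684) (nat_lit 0) (nat_lit 12))
    (@En.n l36819 (nat_lit 11895) (nat_lit 11) (nat_lit 5))
    (@En.n l6593 (nat_lit 11844) (nat_lit 9) (nat_lit 5))
    (@En.n l14969 (nat_lit 12203) (nat_lit 11) (nat_lit 12))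
    (@En.n l14969 (nat_lit 12427) (nat_lit 1) (nat_lit 6))
    (@En.n l619 (nat_lit 9177) (nat_lit 13) (nat_lit 9))
    (@En.n l97 (nat_lit 11906) (nat_lit 5) (nat_lit 11))
    (@En.n l8748 (nat_lit 10640) (nat_lit 11) (nat_lit 11))
    (@En.n l50 (nat_lit 11893) (nat_lit 13) (nat_lit 3))))
  (@Cl.mk (nat_lit 0x3000b0003000b000b00090005000c00050005000c00040007000d0004000d) (nat_lit 0x805230200200a02) (nat_lit 16) Lb.e (@T16.mk En
    (@En.i (nat_lit 342) (nat_lit 0) (nat_lit 13))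
    (@En.i (nat_lit 8767) (nat_lit 3) (nat_lit 4))
    (@En.n l6589 (nat_lit 12449) (nat_lit 2) (nat_lit 13))
    (@En.n l6590 (nat_lit 9027) (nat_lit 11) (nat_lit 7))
    (@En.i (nat_lit 11834) (nat_lit 6) (nat_lit 4))
    (@En.n l17555 (nat_lit 9683) (nat_lit 0) (nat_lit 12))
    (@En.n l1900 (nat_lit 11894) (nat_lit 11) (nat_lit 5))
    (@En.n l6593 (nat_lit 11841) (nat_lit 7) (nat_lit 5))
    (@En.n l31340 (nat_lit 12423) (nat_lit 9) (nat_lit 12))
    (@En.n l12306 (nat_lit 12420) (nat_lit 9) (nat_lit 5))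
    (@En.n l619 (nat_lit 9178) (nat_lit 11) (nat_lit 9))
    (@En.n l97 (nat_lit 11904) (nat_lit 5) (nat_lit 11))
    (@En.n l6596 (nat_lit 9704) (nat_lit 13) (nat_lit 11))
    (@En.i (nat_lit 11892) (nat_lit 15) (nat_lit 3))
    (@En.i (nat_lit 11712) (nat_lit 0) (nat_lit 11))
    (@En.i (nat_lit 12424) (nat_lit 15) (nat_lit 3))))
  (@Cl.mk (nat_lit 0x2000a0006000d0005000c00030006000d0004000d0003000a0003000e000b) (nat_lit 0x5030100a0206086) (nat_lit 16) Lb.e (@T16.mk En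
    (@En.n l1532 (nat_lit 11893) (nat_lit 12) (nat_lit 11))
    (@En.n l387 (nat_lit 11528) (nat_lit 1) (nat_lit 14))
    (@En.n l5694 (nat_lit 11895) (nat_lit 2) (nat_lit 3))
    (@En.i (nat_lit 12568) (nat_lit 3) (nat_lit 10))
    (@En.i (nat_lit 12425) (nat_lit 4) (nat_lit 3))
    (@En.n l1722 (nat_lit 1595) (nat_lit 0) (nat_lit 13))
    (@En.i (nat_lit 8763) (nat_lit 6) (nat_lit 4))
    (@En.n l617 (nat_lit 12484) (nat_lit 8) (nat_lit 13))
    (@En.i (nat_lit 9029) (nat_lit 12) (nat_lit 6))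
    (@En.i (nat_lit 11162) (nat_lit 9) (nat_lit 3))
    (@En.i (nat_lit 2539) (nat_lit 0) (nat_lit 12))
    (@En.n l34076 (nat_lit 11847) (nat_lit 6) (nat_lit 5))
    (@En.n l17 (nat_lit 12422) (nat_lit 13) (nat_lit 13))
    (@En.i (nat_lit 12421) (nat_lit 14) (nat_lit 6))
    (@En.i (nat_lit 7625) (nat_lit 4) (nat_lit 10))
    (@En.n l3 (nat_lit 11894) (nat_lit 15) (nat_lit 2))))
  (@Cl.mk (nat_lit 0x2000a0007000d0005000c00030006000c0004000d000900040003000e000b) (nat_lit 0x404010070130086) (nat_lit 16) Lb.e (@T16.mk En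
    (@En.n l8760 (nat_lit 11892) (nat_lit 14) (nat_lit 11))
    (@En.n l23795 (nat_lit 12261) (nat_lit 1) (nat_lit 14))
    (@En.n l14126 (nat_lit 11894) (nat_lit 2) (nat_lit 3))
    (@En.i (nat_lit 6370) (nat_lit 3) (nat_lit 4))
    (@En.n l28267 (nat_lit 11040) (nat_lit 4) (nat_lit 9))
    (@En.n l2567 (nat_lit 343) (nat_lit 6) (nat_lit 13))
    (@En.n l217 (nat_lit 8765) (nat_lit 6) (nat_lit 4))
    (@En.n l32581 (nat_lit 12356) (nat_lit 8) (nat_lit 12))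
    (@En.n l8434 (nat_lit 9031) (nat_lit 12) (nat_lit 6))
    (@En.n l8842 (nat_lit 11164) (nat_lit 9) (nat_lit 3))
    (@En.n l3020 (nat_lit 2535) (nat_lit 0) (nat_lit 12))
    (@En.n l27608 (nat_lit 11848) (nat_lit 12) (nat_lit 5))
    (@En.n l7 (nat_lit 12426) (nat_lit 13) (nat_lit 13))
    (@En.n l7 (nat_lit 12651) (nat_lit 14) (nat_lit 7))
    (@En.n l13772 (nat_lit 8242) (nat_lit 4) (nat_lit 10))
    (@En.n l3 (nat_lit 11895) (nat_lit 15) (nat_lit 2))))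
  (@Cl.mk (nat_lit 0x3000b000a000a000800070005000c00060006000b00040008000d00090005) (nat_lit 0x938300800304250) (nat_lit 16) Lb.e (@T16.mk En
    (@En.n l43132 (nat_lit 7805) (nat_lit 0) (nat_lit 5))
    (@En.n l21506 (nat_lit 11307) (nat_lit 13) (nat_lit 9))
    (@En.n l43133 (nat_lit 11924) (nat_lit 2) (nat_lit 13))
    (@En.n l6590 (nat_lit 9997) (nat_lit 11) (nat_lit 8))
    (@En.n l36570 (nat_lit 10418) (nat_lit 4) (nat_lit 4))
    (@En.n l43132 (nat_lit 10698) (nat_lit 0) (nat_lit 11))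
    (@En.n l43134 (nat_lit 11037) (nat_lit 10) (nat_lit 6))
    (@En.n l40708 (nat_lit 11290) (nat_lit 7) (nat_lit 6))
    (@En.n l43135 (nat_lit 10674) (nat_lit 9) (nat_lit 12))
    (@En.n l18 (nat_lit 12424) (nat_lit 9) (nat_lit 5))
    (@En.n l29405 (nat_lit 11804) (nat_lit 9) (nat_lit 7))
    (@En.n l619 (nat_lit 9179) (nat_lit 12) (nat_lit 8))
    (@En.i (nat_lit 11898) (nat_lit 6) (nat_lit 10))
    (@En.n l43136 (nat_lit 11820) (nat_lit 6) (nat_lit 10))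
    (@En.n l43137 (nat_lit 11606) (nat_lit 10) (nat_lit 11))
    (@En.n l7 (nat_lit 11821) (nat_lit 15) (nat_lit 3))))
  (@Cl.mk (nat_lit 0x2000c00050009000d0004000b0003000c000a000700050004000b000e0006) (nat_lit 0x405803087000460) (nat_lit 16) Lb.e (@T16.mk En
    (@En.n l152 (nat_lit 11821) (nat_lit 7) (nat_lit 6))
    (@En.n l34219 (nat_lit 7767) (nat_lit 4) (nat_lit 14))
    (@En.n l17402 (nat_lit 11961) (nat_lit 2) (nat_lit 11))
    (@En.n l4296 (nat_lit 11904) (nat_lit 3) (nat_lit 4))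
    (@En.n l14450 (nat_lit 12656) (nat_lit 4) (nat_lit 5))
    (@En.n l97 (nat_lit 8711) (nat_lit 5) (nat_lit 7))
    (@En.n l4007 (nat_lit 12412) (nat_lit 14) (nat_lit 10))
    (@En.n l1867 (nat_lit 12625) (nat_lit 8) (nat_lit 12))
    (@En.i (nat_lit 11898) (nat_lit 8) (nat_lit 3))
    (@En.n l14450 (nat_lit 7152) (nat_lit 10) (nat_lit 11))
    (@En.i (nat_lit 9286) (nat_lit 10) (nat_lit 4))
    (@En.n l35696 (nat_lit 11914) (nat_lit 12) (nat_lit 13))
    (@En.n l97 (nat_lit 9993) (nat_lit 13) (nat_lit 9))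
    (@En.n l9974 (nat_lit 11900) (nat_lit 14) (nat_lit 5))
    (@En.i (nat_lit 11815) (nat_lit 3) (nat_lit 12))
    (@En.n l3 (nat_lit 11897) (nat_lit 15) (nat_lit 2))))
  (@Cl.mk (nat_lit 0x2000b00050009000d000a00050003000c000a000700060004000b000e0006) (nat_lit 0x404980087000760) (nat_lit 16) Lb.e (@T16.mk En
    (@En.n l152 (nat_lit 11896) (nat_lit 7) (nat_lit 6))
    (@En.n l34219 (nat_lit 7344) (nat_lit 4) (nat_lit 14))
    (@En.n l34220 (nat_lit 11962) (nat_lit 2) (nat_lit 11))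
    (@En.n l4296 (nat_lit 11902) (nat_lit 3) (nat_lit 4))
    (@En.n l31208 (nat_lit 12364) (nat_lit 4) (nat_lit 6))
    (@En.n l97 (nat_lit 7482) (nat_lit 5) (nat_lit 7))
    (@En.n l34221 (nat_lit 12434) (nat_lit 14) (nat_lit 10))
    (@En.n l34222 (nat_lit 11603) (nat_lit 8) (nat_lit 12))
    (@En.n l7 (nat_lit 11897) (nat_lit 8) (nat_lit 3))
    (@En.n l34223 (nat_lit 12798) (nat_lit 9) (nat_lit 5))
    (@En.i (nat_lit 11653) (nat_lit 11) (nat_lit 10))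
    (@En.n l34224 (nat_lit 11917) (nat_lit 12) (nat_lit 13))
    (@En.n l97 (nat_lit 9994) (nat_lit 13) (nat_lit 9))
    (@En.n l34225 (nat_lit 11899) (nat_lit 14) (nat_lit 5))
    (@En.n l34064 (nat_lit 11901) (nat_lit 0) (nat_lit 11))
    (@En.n l3 (nat_lit 11898) (nat_lit 15) (nat_lit 2))))
  (@Cl.mk (nat_lit 0x200050009000d000a00080003000c0009000700060004000b0008000e0007) (nat_lit 0x38820830007570) (nat_lit 16) Lb.e (@T16.mk En
    (@En.i (nat_lit 10418) (nat_lit 6) (nat_lit 7))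
    (@En.n l25199 (nat_lit 11898) (nat_lit 1) (nat_lit 14))
    (@En.n l15827 (nat_lit 11050) (nat_lit 2) (nat_lit 8))
    (@En.n l9139 (nat_lit 12132) (nat_lit 3) (nat_lit 11))
    (@En.i (nat_lit 11903) (nat_lit 4) (nat_lit 4))
    (@En.n l18318 (nat_lit 12366) (nat_lit 5) (nat_lit 6))
    (@En.i (nat_lit 7483) (nat_lit 6) (nat_lit 7))
    (@En.n l25194 (nat_lit 12430) (nat_lit 8) (nat_lit 9))
    (@En.n l1415 (nat_lit 11607) (nat_lit 9) (nat_lit 12))
    (@En.n l7081 (nat_lit 11900) (nat_lit 9) (nat_lit 3))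
    (@En.i (nat_lit 8036) (nat_lit 11) (nat_lit 8))
    (@En.n l11084 (nat_lit 11654) (nat_lit 12) (nat_lit 10))
    (@En.n l5577 (nat_lit 12069) (nat_lit 13) (nat_lit 13))
    (@En.n l617 (nat_lit 6528) (nat_lit 14) (nat_lit 9))
    (@En.i (nat_lit 12643) (nat_lit 13) (nat_lit 5))
    (@En.n l3 (nat_lit 11899) (nat_lit 15) (nat_lit 2))))
  (@Cl.mk (nat_lit 0x200050009000d0007000b0003000c0009000700050004000b0009000e0007) (nat_lit 0x48030770008470) (nat_lit 16) Lb.e (@T16.mk En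
    (@En.n l965 (nat_lit 10419) (nat_lit 6) (nat_lit 7))
    (@En.n l21257 (nat_lit 11897) (nat_lit 1) (nat_lit 14))
    (@En.n l21258 (nat_lit 11910) (nat_lit 2) (nat_lit 9))
    (@En.n l21259 (nat_lit 10047) (nat_lit 3) (nat_lit 11))
    (@En.n l21260 (nat_lit 11905) (nat_lit 4) (nat_lit 4))
    (@En.n l3423 (nat_lit 12654) (nat_lit 5) (nat_lit 5))
    (@En.i (nat_lit 8709) (nat_lit 6) (nat_lit 7))
    (@En.n l21261 (nat_lit 12429) (nat_lit 8) (nat_lit 9))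
    (@En.n l3424 (nat_lit 12624) (nat_lit 9) (nat_lit 12))
    (@En.n l10307 (nat_lit 11899) (nat_lit 9) (nat_lit 3))
    (@En.i (nat_lit 7151) (nat_lit 11) (nat_lit 11))
    (@En.n l9051 (nat_lit 11378) (nat_lit 12) (nat_lit 7))
    (@En.n l21262 (nat_lit 11918) (nat_lit 13) (nat_lit 13))
    (@En.n l1246 (nat_lit 6578) (nat_lit 14) (nat_lit 9))
    (@En.i (nat_lit 12644) (nat_lit 13) (nat_lit 5))
    (@En.n l3 (nat_lit 11900) (nat_lit 15) (nat_lit 2))))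
  (@Cl.mk (nat_lit 0x40008000c0009000500080004000c000a000800070004000c00080006000b) (nat_lit 0x387030642004403) (nat_lit 16) Lb.e (@T16.mk En
    (@En.n l32499 (nat_lit 11994) (nat_lit 0) (nat_lit 11))
    (@En.i (nat_lit 10698) (nat_lit 1) (nat_lit 6))
    (@En.n l24107 (nat_lit 11076) (nat_lit 14) (nat_lit 8))
    (@En.n l32500 (nat_lit 11952) (nat_lit 10) (nat_lit 12))
    (@En.n l32501 (nat_lit 11120) (nat_lit 4) (nat_lit 4))
    (@En.n l6565 (nat_lit 12015) (nat_lit 9) (nat_lit 7))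
    (@En.n l23460 (nat_lit 10959) (nat_lit 1) (nat_lit 8))
    (@En.n l644 (nat_lit 10813) (nat_lit 14) (nat_lit 10))
    (@En.n l3528 (nat_lit 11611) (nat_lit 9) (nat_lit 12))
    (@En.n l32502 (nat_lit 9816) (nat_lit 9) (nat_lit 4))
    (@En.n l23460 (nat_lit 11899) (nat_lit 10) (nat_lit 8))
    (@En.i (nat_lit 9821) (nat_lit 1) (nat_lit 5))
    (@En.n l3866 (nat_lit 11999) (nat_lit 0) (nat_lit 9))
    (@En.n l32503 (nat_lit 10299) (nat_lit 7) (nat_lit 12))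
    (@En.n l30779 (nat_lit 10086) (nat_lit 11) (nat_lit 8))
    (@En.n l24316 (nat_lit 12001) (nat_lit 15) (nat_lit 4))))
  (@Cl.mk (nat_lit 0x2000b00050008000d000c00050003000c0004000b00080004000b000e0005) (nat_lit 0x304ba00a01203b0) (nat_lit 16) Lb.e (@T16.mk En
    (@En.n l107 (nat_lit 12424) (nat_lit 7) (nat_lit 5))
    (@En.n l3866 (nat_lit 7342) (nat_lit 4) (nat_lit 14))
    (@En.n l9204 (nat_lit 12732) (nat_lit 2) (nat_lit 11))
    (@En.n l27777 (nat_lit 12734) (nat_lit 3) (nat_lit 4))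
    (@En.i (nat_lit 10972) (nat_lit 4) (nat_lit 8))
    (@En.n l22592 (nat_lit 6217) (nat_lit 1) (nat_lit 11))
    (@En.n l8884 (nat_lit 5677) (nat_lit 6) (nat_lit 4))
    (@En.n l5369 (nat_lit 10981) (nat_lit 8) (nat_lit 12))
    (@En.n l7 (nat_lit 11904) (nat_lit 8) (nat_lit 3))
    (@En.n l22592 (nat_lit 8897) (nat_lit 9) (nat_lit 5))
    (@En.n l644 (nat_lit 11906) (nat_lit 11) (nat_lit 12))
    (@En.n l22592 (nat_lit 12768) (nat_lit 12) (nat_lit 13))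
    (@En.i (nat_lit 8978) (nat_lit 13) (nat_lit 8))
    (@En.n l4624 (nat_lit 11903) (nat_lit 14) (nat_lit 5))
    (@En.n l575 (nat_lit 11120) (nat_lit 0) (nat_lit 11))
    (@En.n l67 (nat_lit 11902) (nat_lit 15) (nat_lit 2))))
  (@Cl.mk (nat_lit 0x200050008000d000c00080003000c0004000a00080004000b0008000e0006) (nat_lit 0x25a207013024c0) (nat_lit 16) Lb.e (@T16.mk En
    (@En.n l27804 (nat_lit 11835) (nat_lit 6) (nat_lit 6))
    (@En.n l1459 (nat_lit 11902) (nat_lit 1) (nat_lit 14))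
    (@En.n l16259 (nat_lit 11044) (nat_lit 2) (nat_lit 8))
    (@En.n l37192 (nat_lit 12733) (nat_lit 3) (nat_lit 11))
    (@En.n l37193 (nat_lit 12735) (nat_lit 4) (nat_lit 4))
    (@En.i (nat_lit 10976) (nat_lit 5) (nat_lit 8))
    (@En.n l37194 (nat_lit 6214) (nat_lit 7) (nat_lit 10))
    (@En.n l3506 (nat_lit 5674) (nat_lit 7) (nat_lit 4))
    (@En.n l30907 (nat_lit 10982) (nat_lit 9) (nat_lit 12))
    (@En.n l14498 (nat_lit 11905) (nat_lit 9) (nat_lit 3))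
    (@En.n l4749 (nat_lit 6009) (nat_lit 11) (nat_lit 8))
    (@En.n l10528 (nat_lit 11907) (nat_lit 12) (nat_lit 12))
    (@En.n l4749 (nat_lit 12117) (nat_lit 13) (nat_lit 13))
    (@En.n l1459 (nat_lit 6472) (nat_lit 14) (nat_lit 8))
    (@En.i (nat_lit 12272) (nat_lit 13) (nat_lit 5))
    (@En.n l3 (nat_lit 11903) (nat_lit 15) (nat_lit 2))))
noncomputable def a744 : T16 Cl := @T16.mk Cl
  (@Cl.mk (nat_lit 0x2000c00050008000d0004000d0003000c0003000b00080004000b000e0005) (nat_lit 0x603a020a01303b0) (nat_lit 16) Lb.e (@T16.mk En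
    (@En.n l107 (nat_lit 11893) (nat_lit 7) (nat_lit 5))
    (@En.n l3866 (nat_lit 7778) (nat_lit 4) (nat_lit 14))
    (@En.i (nat_lit 11908) (nat_lit 2) (nat_lit 11))
    (@En.n l16541 (nat_lit 12765) (nat_lit 3) (nat_lit 4))
    (@En.i (nat_lit 8716) (nat_lit 4) (nat_lit 8))
    (@En.n l12290 (nat_lit 6121) (nat_lit 1) (nat_lit 11))
    (@En.i (nat_lit 11906) (nat_lit 6) (nat_lit 3))
    (@En.n l1865 (nat_lit 12627) (nat_lit 0) (nat_lit 12))
    (@En.i (nat_lit 11902) (nat_lit 8) (nat_lit 3))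
    (@En.n l638 (nat_lit 341) (nat_lit 10) (nat_lit 13))
    (@En.n l1236 (nat_lit 9282) (nat_lit 10) (nat_lit 4))
    (@En.n l12290 (nat_lit 12766) (nat_lit 12) (nat_lit 13))
    (@En.i (nat_lit 8983) (nat_lit 13) (nat_lit 8))
    (@En.n l117 (nat_lit 11905) (nat_lit 14) (nat_lit 5))
    (@En.n l8015 (nat_lit 9680) (nat_lit 8) (nat_lit 12))
    (@En.n l67 (nat_lit 11904) (nat_lit 15) (nat_lit 2))))
  (@Cl.mk (nat_lit 0x200050008000d0007000d0003000c0003000a00080004000b0009000e0006) (nat_lit 0x250207013033c0) (nat_lit 16) Lb.e (@T16.mk En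
    (@En.n l152 (nat_lit 11834) (nat_lit 8) (nat_lit 6))
    (@En.n l5859 (nat_lit 11904) (nat_lit 1) (nat_lit 14))
    (@En.n l97 (nat_lit 11890) (nat_lit 2) (nat_lit 9))
    (@En.n l21323 (nat_lit 11909) (nat_lit 3) (nat_lit 11))
    (@En.n l6055 (nat_lit 12764) (nat_lit 4) (nat_lit 4))
    (@En.n l2691 (nat_lit 8157) (nat_lit 5) (nat_lit 8))
    (@En.n l21324 (nat_lit 6119) (nat_lit 7) (nat_lit 10))
    (@En.i (nat_lit 11907) (nat_lit 7) (nat_lit 3))
    (@En.n l17051 (nat_lit 11753) (nat_lit 9) (nat_lit 12))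
    (@En.n l19986 (nat_lit 11903) (nat_lit 9) (nat_lit 3))
    (@En.n l21325 (nat_lit 335) (nat_lit 11) (nat_lit 13))
    (@En.n l17051 (nat_lit 11379) (nat_lit 12) (nat_lit 7))
    (@En.n l21324 (nat_lit 12116) (nat_lit 13) (nat_lit 13))
    (@En.n l5859 (nat_lit 6471) (nat_lit 14) (nat_lit 8))
    (@En.n l6003 (nat_lit 12270) (nat_lit 13) (nat_lit 5))
    (@En.n l3 (nat_lit 11905) (nat_lit 15) (nat_lit 2))))
  (@Cl.mk (nat_lit 0x2000c00050008000c0004000d000b00040003000b00080005000b000e0005) (nat_lit 0x8049014005203a0) (nat_lit 16) Lb.e (@T16.mk En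
    (@En.n l107 (nat_lit 11892) (nat_lit 9) (nat_lit 5))
    (@En.n l3866 (nat_lit 7779) (nat_lit 4) (nat_lit 14))
    (@En.n l9204 (nat_lit 12730) (nat_lit 2) (nat_lit 11))
    (@En.n l9969 (nat_lit 12728) (nat_lit 3) (nat_lit 5))
    (@En.i (nat_lit 8714) (nat_lit 4) (nat_lit 8))
    (@En.n l21041 (nat_lit 10658) (nat_lit 6) (nat_lit 11))
    (@En.n l50 (nat_lit 11904) (nat_lit 6) (nat_lit 3))
    (@En.n l8884 (nat_lit 12202) (nat_lit 7) (nat_lit 4))
    (@En.n l7162 (nat_lit 11897) (nat_lit 9) (nat_lit 11))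
    (@En.n l9969 (nat_lit 336) (nat_lit 10) (nat_lit 13))
    (@En.n l1236 (nat_lit 9280) (nat_lit 10) (nat_lit 4))
    (@En.n l21041 (nat_lit 12661) (nat_lit 12) (nat_lit 12))
    (@En.i (nat_lit 10034) (nat_lit 13) (nat_lit 8))
    (@En.n l117 (nat_lit 11907) (nat_lit 14) (nat_lit 5))
    (@En.n l17699 (nat_lit 10685) (nat_lit 8) (nat_lit 12))
    (@En.n l67 (nat_lit 11906) (nat_lit 15) (nat_lit 2))))
  (@Cl.mk (nat_lit 0x200050008000c0007000d000b00040003000a00080005000b0009000e0006) (nat_lit 0x290240072033b0) (nat_lit 16) Lb.e (@T16.mk En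
    (@En.n l152 (nat_lit 11833) (nat_lit 8) (nat_lit 6))
    (@En.n l5859 (nat_lit 11906) (nat_lit 1) (nat_lit 14))
    (@En.n l9008 (nat_lit 11891) (nat_lit 2) (nat_lit 9))
    (@En.n l9009 (nat_lit 12731) (nat_lit 3) (nat_lit 11))
    (@En.n l6055 (nat_lit 12729) (nat_lit 4) (nat_lit 5))
    (@En.n l2691 (nat_lit 8156) (nat_lit 5) (nat_lit 8))
    (@En.n l9010 (nat_lit 10675) (nat_lit 7) (nat_lit 10))
    (@En.n l50 (nat_lit 11905) (nat_lit 7) (nat_lit 3))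
    (@En.n l9011 (nat_lit 5509) (nat_lit 8) (nat_lit 4))
    (@En.n l5862 (nat_lit 11900) (nat_lit 10) (nat_lit 11))
    (@En.n l6055 (nat_lit 334) (nat_lit 11) (nat_lit 13))
    (@En.n l6855 (nat_lit 11380) (nat_lit 12) (nat_lit 7))
    (@En.n l9009 (nat_lit 12662) (nat_lit 13) (nat_lit 12))
    (@En.n l5859 (nat_lit 6473) (nat_lit 14) (nat_lit 8))
    (@En.n l6003 (nat_lit 12598) (nat_lit 13) (nat_lit 5))
    (@En.n l3 (nat_lit 11907) (nat_lit 15) (nat_lit 2))))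
  (@Cl.mk (nat_lit 0x2000b0005000a0008000d0005000d000300060003000c0008000b000e0004) (nat_lit 0x5074a0300012210) (nat_lit 16) Lb.e (@T16.mk En
    (@En.n l31942 (nat_lit 12423) (nat_lit 8) (nat_lit 4))
    (@En.n l10040 (nat_lit 3059) (nat_lit 4) (nat_lit 14))
    (@En.n l9158 (nat_lit 1084) (nat_lit 2) (nat_lit 11))
    (@En.i (nat_lit 10974) (nat_lit 3) (nat_lit 8))
    (@En.n l6781 (nat_lit 6124) (nat_lit 13) (nat_lit 12))
    (@En.n l9204 (nat_lit 12730) (nat_lit 5) (nat_lit 3))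
    (@En.n l9190 (nat_lit 12837) (nat_lit 12) (nat_lit 6))
    (@En.n l9204 (nat_lit 12732) (nat_lit 7) (nat_lit 3))
    (@En.n l31943 (nat_lit 1005) (nat_lit 0) (nat_lit 13))
    (@En.n l31944 (nat_lit 9281) (nat_lit 9) (nat_lit 5))
    (@En.n l9191 (nat_lit 12765) (nat_lit 11) (nat_lit 13))
    (@En.n l17 (nat_lit 11904) (nat_lit 12) (nat_lit 8))
    (@En.n l9715 (nat_lit 6402) (nat_lit 13) (nat_lit 10))
    (@En.n l31945 (nat_lit 11909) (nat_lit 14) (nat_lit 5))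
    (@En.n l22670 (nat_lit 9678) (nat_lit 9) (nat_lit 11))
    (@En.n l67 (nat_lit 11908) (nat_lit 15) (nat_lit 2))))
  (@Cl.mk (nat_lit 0x20005000a0008000d0008000d000300060003000b0008000b0008000e0005) (nat_lit 0x73733000122220) (nat_lit 16) Lb.e (@T16.mk En
    (@En.n l17587 (nat_lit 11836) (nat_lit 7) (nat_lit 5))
    (@En.n l3790 (nat_lit 11908) (nat_lit 1) (nat_lit 14))
    (@En.i (nat_lit 12106) (nat_lit 2) (nat_lit 8))
    (@En.i (nat_lit 1080) (nat_lit 3) (nat_lit 11))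
    (@En.n l358 (nat_lit 8155) (nat_lit 4) (nat_lit 8))
    (@En.n l17588 (nat_lit 6123) (nat_lit 6) (nat_lit 11))
    (@En.n l17589 (nat_lit 12731) (nat_lit 6) (nat_lit 3))
    (@En.i (nat_lit 12838) (nat_lit 7) (nat_lit 6))
    (@En.n l2678 (nat_lit 12733) (nat_lit 8) (nat_lit 3))
    (@En.n l17590 (nat_lit 1004) (nat_lit 0) (nat_lit 13))
    (@En.n l11 (nat_lit 11381) (nat_lit 11) (nat_lit 8))
    (@En.n l17589 (nat_lit 12764) (nat_lit 12) (nat_lit 13))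
    (@En.n l17591 (nat_lit 11905) (nat_lit 13) (nat_lit 8))
    (@En.n l360 (nat_lit 11168) (nat_lit 14) (nat_lit 10))
    (@En.n l11203 (nat_lit 12269) (nat_lit 13) (nat_lit 5))
    (@En.n l17 (nat_lit 11909) (nat_lit 15) (nat_lit 2))))
  (@Cl.mk (nat_lit 0x2000c0008000c00070004000b0004000c000a0008000500040009000e0006) (nat_lit 0x4460030a3400360) (nat_lit 16) Lb.e (@T16.mk En
    (@En.n l152 (nat_lit 10280) (nat_lit 5) (nat_lit 6))
    (@En.n l28195 (nat_lit 7766) (nat_lit 1) (nat_lit 14))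
    (@En.n l28196 (nat_lit 11172) (nat_lit 2) (nat_lit 9))
    (@En.n l4296 (nat_lit 11890) (nat_lit 3) (nat_lit 4))
    (@En.n l28197 (nat_lit 12680) (nat_lit 4) (nat_lit 5))
    (@En.n l97 (nat_lit 9155) (nat_lit 5) (nat_lit 8))
    (@En.n l28198 (nat_lit 11828) (nat_lit 7) (nat_lit 10))
    (@En.n l28199 (nat_lit 10094) (nat_lit 8) (nat_lit 12))
    (@En.n l28200 (nat_lit 11050) (nat_lit 8) (nat_lit 4))
    (@En.n l28201 (nat_lit 11270) (nat_lit 10) (nat_lit 11))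
    (@En.i (nat_lit 11897) (nat_lit 10) (nat_lit 4))
    (@En.n l28202 (nat_lit 9051) (nat_lit 12) (nat_lit 7))
    (@En.n l28203 (nat_lit 11912) (nat_lit 13) (nat_lit 12))
    (@En.n l5859 (nat_lit 7703) (nat_lit 14) (nat_lit 8))
    (@En.n l28204 (nat_lit 11779) (nat_lit 3) (nat_lit 12))
    (@En.n l3 (nat_lit 11910) (nat_lit 15) (nat_lit 2))))
  (@Cl.mk (nat_lit 0x300090004000c000b000a000a000400070005000b00060006000d000c0005) (nat_lit 0x109938000500a50) (nat_lit 16) Lb.e (@T16.mk En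
    (@En.n l40728 (nat_lit 11546) (nat_lit 0) (nat_lit 5))
    (@En.n l40729 (nat_lit 11924) (nat_lit 4) (nat_lit 12))
    (@En.n l18106 (nat_lit 10145) (nat_lit 2) (nat_lit 13))
    (@En.n l36537 (nat_lit 11929) (nat_lit 10) (nat_lit 6))
    (@En.n l18108 (nat_lit 11202) (nat_lit 4) (nat_lit 6))
    (@En.n l36539 (nat_lit 11177) (nat_lit 13) (nat_lit 11))
    (@En.n l5201 (nat_lit 9218) (nat_lit 6) (nat_lit 5))
    (@En.n l21431 (nat_lit 12680) (nat_lit 11) (nat_lit 7))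
    (@En.n l9877 (nat_lit 10897) (nat_lit 8) (nat_lit 4))
    (@En.n l39193 (nat_lit 11912) (nat_lit 6) (nat_lit 10))
    (@En.n l19001 (nat_lit 12025) (nat_lit 1) (nat_lit 10))
    (@En.i (nat_lit 11020) (nat_lit 12) (nat_lit 11))
    (@En.n l40730 (nat_lit 11926) (nat_lit 13) (nat_lit 12))
    (@En.n l40731 (nat_lit 5594) (nat_lit 14) (nat_lit 4))
    (@En.n l40732 (nat_lit 6279) (nat_lit 0) (nat_lit 9))
    (@En.n l28 (nat_lit 11920) (nat_lit 15) (nat_lit 3))))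
  (@Cl.mk (nat_lit 0x2000d000c00060003000a0004000d000c000a000300060004000a000e0006) (nat_lit 0x350030797000360) (nat_lit 16) Lb.e (@T16.mk En
    (@En.n l30650 (nat_lit 11911) (nat_lit 4) (nat_lit 6))
    (@En.n l1897 (nat_lit 2382) (nat_lit 1) (nat_lit 14))
    (@En.n l8413 (nat_lit 11173) (nat_lit 2) (nat_lit 10))
    (@En.n l3528 (nat_lit 12767) (nat_lit 3) (nat_lit 4))
    (@En.n l5828 (nat_lit 24) (nat_lit 4) (nat_lit 6))
    (@En.n l18075 (nat_lit 11915) (nat_lit 5) (nat_lit 3))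
    (@En.i (nat_lit 12244) (nat_lit 0) (nat_lit 10))
    (@En.n l27979 (nat_lit 11027) (nat_lit 8) (nat_lit 12))
    (@En.n l9657 (nat_lit 11913) (nat_lit 9) (nat_lit 13))
    (@En.n l2593 (nat_lit 12804) (nat_lit 9) (nat_lit 4))
    (@En.n l1897 (nat_lit 12139) (nat_lit 11) (nat_lit 10))
    (@En.n l1106 (nat_lit 11914) (nat_lit 11) (nat_lit 3))
    (@En.n l97 (nat_lit 11539) (nat_lit 0) (nat_lit 6))
    (@En.n l1106 (nat_lit 11917) (nat_lit 14) (nat_lit 12))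
    (@En.n l1738 (nat_lit 12432) (nat_lit 9) (nat_lit 13))
    (@En.n l18 (nat_lit 11912) (nat_lit 15) (nat_lit 2))))
  (@Cl.mk (nat_lit 0x2000d000800060003000a000d000b00090003000800060005000a000e0007) (nat_lit 0x650026850500470) (nat_lit 16) Lb.e (@T16.mk En
    (@En.i (nat_lit 11926) (nat_lit 4) (nat_lit 7))
    (@En.n l1769 (nat_lit 2386) (nat_lit 1) (nat_lit 14))
    (@En.i (nat_lit 11174) (nat_lit 2) (nat_lit 10))
    (@En.n l77 (nat_lit 12328) (nat_lit 3) (nat_lit 5))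
    (@En.n l3398 (nat_lit 11912) (nat_lit 4) (nat_lit 6))
    (@En.n l21096 (nat_lit 11910) (nat_lit 5) (nat_lit 8))
    (@En.n l7156 (nat_lit 11922) (nat_lit 6) (nat_lit 3))
    (@En.n l4787 (nat_lit 12510) (nat_lit 0) (nat_lit 9))
    (@En.n l21139 (nat_lit 12633) (nat_lit 9) (nat_lit 11))
    (@En.n l4787 (nat_lit 12096) (nat_lit 5) (nat_lit 13))
    (@En.n l21140 (nat_lit 12138) (nat_lit 11) (nat_lit 10))
    (@En.n l21141 (nat_lit 11916) (nat_lit 11) (nat_lit 3))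
    (@En.n l1900 (nat_lit 11540) (nat_lit 0) (nat_lit 6))
    (@En.n l21142 (nat_lit 11660) (nat_lit 14) (nat_lit 8))
    (@En.n l1767 (nat_lit 12430) (nat_lit 2) (nat_lit 13))
    (@En.n l17 (nat_lit 11913) (nat_lit 15) (nat_lit 2))))
  (@Cl.mk (nat_lit 0x2000d0005000d0003000a0003000d000c000a000300060004000b000e0006) (nat_lit 0x407020797000460) (nat_lit 16) Lb.e (@T16.mk En
    (@En.n l21314 (nat_lit 11920) (nat_lit 4) (nat_lit 6))
    (@En.n l2031 (nat_lit 2385) (nat_lit 4) (nat_lit 14))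
    (@En.n l998 (nat_lit 11959) (nat_lit 2) (nat_lit 11))
    (@En.n l5334 (nat_lit 12766) (nat_lit 3) (nat_lit 4))
    (@En.i (nat_lit 12657) (nat_lit 4) (nat_lit 6))
    (@En.n l7677 (nat_lit 11919) (nat_lit 5) (nat_lit 3))
    (@En.n l5853 (nat_lit 12035) (nat_lit 0) (nat_lit 10))
    (@En.n l14627 (nat_lit 11026) (nat_lit 8) (nat_lit 12))
    (@En.n l2031 (nat_lit 11916) (nat_lit 9) (nat_lit 13))
    (@En.n l117 (nat_lit 11917) (nat_lit 9) (nat_lit 3))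
    (@En.n l2031 (nat_lit 6622) (nat_lit 11) (nat_lit 10))
    (@En.n l3596 (nat_lit 11912) (nat_lit 11) (nat_lit 3))
    (@En.i (nat_lit 6090) (nat_lit 0) (nat_lit 13))
    (@En.i (nat_lit 11918) (nat_lit 14) (nat_lit 5))
    (@En.n l3348 (nat_lit 11823) (nat_lit 9) (nat_lit 13))
    (@En.n l17 (nat_lit 11914) (nat_lit 15) (nat_lit 2))))
  (@Cl.mk (nat_lit 0x2000d000c00060003000a0004000d0009000d000300060003000a000e0007) (nat_lit 0x350030866000450) (nat_lit 16) Lb.e (@T16.mk En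
    (@En.n l4085 (nat_lit 11024) (nat_lit 4) (nat_lit 7))
    (@En.n l3170 (nat_lit 2387) (nat_lit 1) (nat_lit 14))
    (@En.n l24150 (nat_lit 11176) (nat_lit 2) (nat_lit 10))
    (@En.n l4086 (nat_lit 11027) (nat_lit 3) (nat_lit 3))
    (@En.n l24151 (nat_lit 12249) (nat_lit 12) (nat_lit 6))
    (@En.n l24152 (nat_lit 11912) (nat_lit 5) (nat_lit 3))
    (@En.i (nat_lit 4049) (nat_lit 0) (nat_lit 13))
    (@En.n l4082 (nat_lit 10828) (nat_lit 3) (nat_lit 9))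
    (@En.n l110 (nat_lit 11922) (nat_lit 9) (nat_lit 13))
    (@En.n l117 (nat_lit 12803) (nat_lit 9) (nat_lit 4))
    (@En.n l4083 (nat_lit 12136) (nat_lit 11) (nat_lit 10))
    (@En.n l4084 (nat_lit 11919) (nat_lit 11) (nat_lit 3))
    (@En.n l11490 (nat_lit 11538) (nat_lit 0) (nat_lit 6))
    (@En.n l146 (nat_lit 11923) (nat_lit 14) (nat_lit 12))
    (@En.n l10190 (nat_lit 12431) (nat_lit 9) (nat_lit 13))
    (@En.n l17 (nat_lit 11915) (nat_lit 15) (nat_lit 2))))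
  (@Cl.mk (nat_lit 0x2000d000500090003000a000d000b00090003000700060005000b000e0007) (nat_lit 0x602026760000570) (nat_lit 16) Lb.e (@T16.mk En
    (@En.n l20996 (nat_lit 11925) (nat_lit 4) (nat_lit 7))
    (@En.i (nat_lit 2394) (nat_lit 4) (nat_lit 14))
    (@En.n l2865 (nat_lit 11963) (nat_lit 2) (nat_lit 11))
    (@En.n l11587 (nat_lit 12326) (nat_lit 3) (nat_lit 5))
    (@En.n l20997 (nat_lit 11914) (nat_lit 4) (nat_lit 6))
    (@En.n l19993 (nat_lit 11897) (nat_lit 5) (nat_lit 7))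
    (@En.n l2382 (nat_lit 11921) (nat_lit 6) (nat_lit 3))
    (@En.n l4021 (nat_lit 12245) (nat_lit 0) (nat_lit 9))
    (@En.n l20998 (nat_lit 12630) (nat_lit 9) (nat_lit 11))
    (@En.n l3030 (nat_lit 12098) (nat_lit 5) (nat_lit 13))
    (@En.i (nat_lit 6621) (nat_lit 11) (nat_lit 10))
    (@En.n l17920 (nat_lit 11913) (nat_lit 11) (nat_lit 3))
    (@En.n l5366 (nat_lit 10105) (nat_lit 0) (nat_lit 9))
    (@En.n l8438 (nat_lit 11937) (nat_lit 14) (nat_lit 5))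
    (@En.n l13626 (nat_lit 11825) (nat_lit 2) (nat_lit 13))
    (@En.n l28 (nat_lit 11916) (nat_lit 15) (nat_lit 2))))
  (@Cl.mk (nat_lit 0x2000c0005000d000900040003000d000c000a000300070004000b000e0006) (nat_lit 0x408300784000760) (nat_lit 16) Lb.e (@T16.mk En
    (@En.n l8246 (nat_lit 11924) (nat_lit 6) (nat_lit 6))
    (@En.n l13792 (nat_lit 2384) (nat_lit 4) (nat_lit 14))
    (@En.n l2698 (nat_lit 11960) (nat_lit 2) (nat_lit 11))
    (@En.n l18438 (nat_lit 12768) (nat_lit 3) (nat_lit 4))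
    (@En.i (nat_lit 12368) (nat_lit 4) (nat_lit 7))
    (@En.n l2827 (nat_lit 11923) (nat_lit 5) (nat_lit 3))
    (@En.i (nat_lit 12498) (nat_lit 0) (nat_lit 10))
    (@En.n l18439 (nat_lit 12072) (nat_lit 8) (nat_lit 12))
    (@En.n l5845 (nat_lit 12105) (nat_lit 9) (nat_lit 13))
    (@En.n l152 (nat_lit 11914) (nat_lit 9) (nat_lit 3))
    (@En.n l13792 (nat_lit 12800) (nat_lit 10) (nat_lit 4))
    (@En.n l14304 (nat_lit 11916) (nat_lit 12) (nat_lit 9))
    (@En.i (nat_lit 6091) (nat_lit 13) (nat_lit 13))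
    (@En.n l18440 (nat_lit 12069) (nat_lit 14) (nat_lit 5))
    (@En.i (nat_lit 10299) (nat_lit 9) (nat_lit 12))
    (@En.n l17 (nat_lit 11917) (nat_lit 15) (nat_lit 2))))
  (@Cl.mk (nat_lit 0x20005000d0006000a0003000d000c0009000300060004000b000a000e0007) (nat_lit 0x70206850004470) (nat_lit 16) Lb.e (@T16.mk En
    (@En.n l21314 (nat_lit 11935) (nat_lit 5) (nat_lit 7))
    (@En.n l476 (nat_lit 11914) (nat_lit 1) (nat_lit 14))
    (@En.n l5891 (nat_lit 11912) (nat_lit 2) (nat_lit 10))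
    (@En.n l998 (nat_lit 7452) (nat_lit 3) (nat_lit 11))
    (@En.n l5334 (nat_lit 12116) (nat_lit 4) (nat_lit 4))
    (@En.n l2879 (nat_lit 12655) (nat_lit 5) (nat_lit 6))
    (@En.n l7679 (nat_lit 12070) (nat_lit 6) (nat_lit 3))
    (@En.n l5853 (nat_lit 12029) (nat_lit 0) (nat_lit 9))
    (@En.n l14627 (nat_lit 12071) (nat_lit 9) (nat_lit 12))
    (@En.n l21315 (nat_lit 11937) (nat_lit 10) (nat_lit 13))
    (@En.n l21316 (nat_lit 12069) (nat_lit 10) (nat_lit 3))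
    (@En.n l2879 (nat_lit 6625) (nat_lit 12) (nat_lit 10))
    (@En.n l21317 (nat_lit 11534) (nat_lit 13) (nat_lit 6))
    (@En.n l476 (nat_lit 12481) (nat_lit 14) (nat_lit 13))
    (@En.n l8484 (nat_lit 12577) (nat_lit 13) (nat_lit 5))
    (@En.n l17 (nat_lit 11918) (nat_lit 15) (nat_lit 2))))
  (@Cl.mk (nat_lit 0x2000d0005000d0003000a0003000d0009000d000300060003000b000e0007) (nat_lit 0x402020844000850) (nat_lit 16) Lb.e (@T16.mk En
    (@En.n l152 (nat_lit 11022) (nat_lit 4) (nat_lit 7))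
    (@En.n l17513 (nat_lit 2391) (nat_lit 4) (nat_lit 14))
    (@En.n l17514 (nat_lit 11964) (nat_lit 2) (nat_lit 11))
    (@En.n l72 (nat_lit 11026) (nat_lit 3) (nat_lit 3))
    (@En.n l17515 (nat_lit 12248) (nat_lit 12) (nat_lit 6))
    (@En.n l17516 (nat_lit 11914) (nat_lit 5) (nat_lit 3))
    (@En.i (nat_lit 3843) (nat_lit 0) (nat_lit 13))
    (@En.n l61 (nat_lit 10826) (nat_lit 14) (nat_lit 9))
    (@En.n l3471 (nat_lit 11921) (nat_lit 9) (nat_lit 13))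
    (@En.n l4005 (nat_lit 11923) (nat_lit 9) (nat_lit 3))
    (@En.n l17517 (nat_lit 6630) (nat_lit 11) (nat_lit 10))
    (@En.n l4299 (nat_lit 11915) (nat_lit 11) (nat_lit 3))
    (@En.n l17518 (nat_lit 6088) (nat_lit 0) (nat_lit 13))
    (@En.n l14832 (nat_lit 12070) (nat_lit 14) (nat_lit 5))
    (@En.n l17517 (nat_lit 11824) (nat_lit 9) (nat_lit 13))
    (@En.n l3 (nat_lit 11919) (nat_lit 15) (nat_lit 2))))
noncomputable def a745 : T16 Cl := @T16.mk Cl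
  (@Cl.mk (nat_lit 0x300090003000c000b000a000a000400070005000c00060006000d0004000d) (nat_lit 0x109988000900a02) (nat_lit 16) Lb.e (@T16.mk En
    (@En.n l33905 (nat_lit 5636) (nat_lit 0) (nat_lit 13))
    (@En.i (nat_lit 11935) (nat_lit 3) (nat_lit 4))
    (@En.n l18106 (nat_lit 10143) (nat_lit 2) (nat_lit 13))
    (@En.n l36537 (nat_lit 4181) (nat_lit 10) (nat_lit 6))
    (@En.n l18108 (nat_lit 11206) (nat_lit 4) (nat_lit 6))
    (@En.n l36539 (nat_lit 11976) (nat_lit 8) (nat_lit 12))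
    (@En.n l5201 (nat_lit 12449) (nat_lit 8) (nat_lit 5))
    (@En.n l21431 (nat_lit 12665) (nat_lit 11) (nat_lit 7))
    (@En.n l9877 (nat_lit 10890) (nat_lit 8) (nat_lit 4))
    (@En.n l17516 (nat_lit 11914) (nat_lit 6) (nat_lit 10))
    (@En.n l19001 (nat_lit 10900) (nat_lit 1) (nat_lit 10))
    (@En.i (nat_lit 11019) (nat_lit 12) (nat_lit 11))
    (@En.n l403 (nat_lit 11925) (nat_lit 13) (nat_lit 12))
    (@En.n l43130 (nat_lit 11924) (nat_lit 15) (nat_lit 3))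
    (@En.n l43131 (nat_lit 5962) (nat_lit 0) (nat_lit 9))
    (@En.i (nat_lit 11911) (nat_lit 15) (nat_lit 3))))
  (@Cl.mk (nat_lit 0x2000d000500090003000a000d0008000c0003000700060004000b000e0008) (nat_lit 0x402027310000865) (nat_lit 16) Lb.e (@T16.mk En
    (@En.n l2843 (nat_lit 11939) (nat_lit 4) (nat_lit 8))
    (@En.n l6681 (nat_lit 2393) (nat_lit 4) (nat_lit 14))
    (@En.n l391 (nat_lit 12167) (nat_lit 2) (nat_lit 11))
    (@En.n l158 (nat_lit 12626) (nat_lit 3) (nat_lit 4))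
    (@En.n l4267 (nat_lit 11919) (nat_lit 4) (nat_lit 6))
    (@En.i (nat_lit 12205) (nat_lit 5) (nat_lit 7))
    (@En.n l5381 (nat_lit 11916) (nat_lit 6) (nat_lit 3))
    (@En.i (nat_lit 3589) (nat_lit 0) (nat_lit 12))
    (@En.n l4268 (nat_lit 10919) (nat_lit 13) (nat_lit 8))
    (@En.n l509 (nat_lit 12101) (nat_lit 5) (nat_lit 13))
    (@En.n l1609 (nat_lit 6619) (nat_lit 11) (nat_lit 10))
    (@En.n l4312 (nat_lit 11922) (nat_lit 11) (nat_lit 3))
    (@En.n l158 (nat_lit 10106) (nat_lit 0) (nat_lit 9))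
    (@En.n l15234 (nat_lit 11941) (nat_lit 14) (nat_lit 5))
    (@En.n l16798 (nat_lit 12428) (nat_lit 2) (nat_lit 13))
    (@En.n l17 (nat_lit 11921) (nat_lit 15) (nat_lit 2))))
  (@Cl.mk (nat_lit 0x2000d000800060003000a000d0008000c0003000800060004000a000e0008) (nat_lit 0x330027550500565) (nat_lit 16) Lb.e (@T16.mk En
    (@En.n l28950 (nat_lit 11938) (nat_lit 4) (nat_lit 8))
    (@En.n l10903 (nat_lit 2392) (nat_lit 1) (nat_lit 14))
    (@En.n l11493 (nat_lit 11175) (nat_lit 2) (nat_lit 10))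
    (@En.n l480 (nat_lit 11067) (nat_lit 3) (nat_lit 4))
    (@En.i (nat_lit 11915) (nat_lit 4) (nat_lit 6))
    (@En.n l9782 (nat_lit 11435) (nat_lit 5) (nat_lit 8))
    (@En.n l28951 (nat_lit 11913) (nat_lit 6) (nat_lit 3))
    (@En.i (nat_lit 3885) (nat_lit 0) (nat_lit 12))
    (@En.n l28952 (nat_lit 10918) (nat_lit 13) (nat_lit 8))
    (@En.n l9781 (nat_lit 12097) (nat_lit 5) (nat_lit 13))
    (@En.n l11325 (nat_lit 12135) (nat_lit 11) (nat_lit 10))
    (@En.n l9782 (nat_lit 11921) (nat_lit 11) (nat_lit 3))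
    (@En.n l480 (nat_lit 11541) (nat_lit 0) (nat_lit 6))
    (@En.n l13163 (nat_lit 11668) (nat_lit 14) (nat_lit 8))
    (@En.n l21261 (nat_lit 12429) (nat_lit 2) (nat_lit 13))
    (@En.n l17 (nat_lit 11922) (nat_lit 15) (nat_lit 2))))
  (@Cl.mk (nat_lit 0x2000c0005000d000900040003000d0009000d000300070003000b000e0007) (nat_lit 0x401300826000850) (nat_lit 16) Lb.e (@T16.mk En
    (@En.n l7531 (nat_lit 11023) (nat_lit 13) (nat_lit 7))
    (@En.n l7532 (nat_lit 2390) (nat_lit 4) (nat_lit 14))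
    (@En.n l7533 (nat_lit 11965) (nat_lit 2) (nat_lit 11))
    (@En.n l1348 (nat_lit 12072) (nat_lit 3) (nat_lit 3))
    (@En.n l333 (nat_lit 12246) (nat_lit 4) (nat_lit 7))
    (@En.n l7534 (nat_lit 11917) (nat_lit 5) (nat_lit 3))
    (@En.i (nat_lit 4112) (nat_lit 0) (nat_lit 13))
    (@En.n l1220 (nat_lit 10829) (nat_lit 14) (nat_lit 9))
    (@En.n l332 (nat_lit 11671) (nat_lit 9) (nat_lit 13))
    (@En.n l1344 (nat_lit 11919) (nat_lit 9) (nat_lit 3))
    (@En.i (nat_lit 12801) (nat_lit 10) (nat_lit 4))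
    (@En.n l333 (nat_lit 11921) (nat_lit 12) (nat_lit 9))
    (@En.n l7535 (nat_lit 6087) (nat_lit 13) (nat_lit 13))
    (@En.n l7536 (nat_lit 12068) (nat_lit 14) (nat_lit 5))
    (@En.n l7537 (nat_lit 10298) (nat_lit 9) (nat_lit 12))
    (@En.n l7 (nat_lit 11923) (nat_lit 15) (nat_lit 2))))
  (@Cl.mk (nat_lit 0x3000c000b000a000a000400080005000c00060006000c0004000d00080004) (nat_lit 0x994503090040130) (nat_lit 16) Lb.e (@T16.mk En
    (@En.n l11340 (nat_lit 5616) (nat_lit 0) (nat_lit 4))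
    (@En.n l34241 (nat_lit 11925) (nat_lit 0) (nat_lit 8))
    (@En.n l19669 (nat_lit 5635) (nat_lit 1) (nat_lit 13))
    (@En.n l11340 (nat_lit 11936) (nat_lit 3) (nat_lit 4))
    (@En.n l1770 (nat_lit 9203) (nat_lit 0) (nat_lit 12))
    (@En.n l11333 (nat_lit 11930) (nat_lit 10) (nat_lit 6))
    (@En.n l34242 (nat_lit 11204) (nat_lit 6) (nat_lit 6))
    (@En.n l16001 (nat_lit 10677) (nat_lit 8) (nat_lit 12))
    (@En.n l34243 (nat_lit 12451) (nat_lit 8) (nat_lit 5))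
    (@En.n l33423 (nat_lit 11809) (nat_lit 11) (nat_lit 8))
    (@En.n l19672 (nat_lit 10887) (nat_lit 10) (nat_lit 4))
    (@En.n l19673 (nat_lit 11917) (nat_lit 6) (nat_lit 10))
    (@En.n l55 (nat_lit 10886) (nat_lit 6) (nat_lit 10))
    (@En.n l34241 (nat_lit 11021) (nat_lit 14) (nat_lit 11))
    (@En.n l22772 (nat_lit 10353) (nat_lit 11) (nat_lit 12))
    (@En.n l34244 (nat_lit 11920) (nat_lit 13) (nat_lit 3))))
  (@Cl.mk (nat_lit 0x30009000c000a000900090004000800070006000c00070007000d00040008) (nat_lit 0x188470400900502) (nat_lit 16) Lb.e (@T16.mk En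
    (@En.n l36478 (nat_lit 10111) (nat_lit 0) (nat_lit 8))
    (@En.n l36479 (nat_lit 11934) (nat_lit 15) (nat_lit 4))
    (@En.n l36480 (nat_lit 10141) (nat_lit 0) (nat_lit 13))
    (@En.n l36481 (nat_lit 11927) (nat_lit 9) (nat_lit 7))
    (@En.n l36482 (nat_lit 11278) (nat_lit 4) (nat_lit 7))
    (@En.n l36483 (nat_lit 11977) (nat_lit 12) (nat_lit 12))
    (@En.n l36142 (nat_lit 12445) (nat_lit 10) (nat_lit 6))
    (@En.i (nat_lit 11920) (nat_lit 7) (nat_lit 7))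
    (@En.n l28747 (nat_lit 11821) (nat_lit 11) (nat_lit 8))
    (@En.n l32054 (nat_lit 10893) (nat_lit 9) (nat_lit 4))
    (@En.n l32882 (nat_lit 11916) (nat_lit 7) (nat_lit 9))
    (@En.n l36484 (nat_lit 10898) (nat_lit 1) (nat_lit 9))
    (@En.i (nat_lit 11704) (nat_lit 13) (nat_lit 10))
    (@En.n l36485 (nat_lit 10355) (nat_lit 6) (nat_lit 12))
    (@En.n l36486 (nat_lit 5965) (nat_lit 4) (nat_lit 9))
    (@En.n l36487 (nat_lit 11926) (nat_lit 15) (nat_lit 3))))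
  (@Cl.mk (nat_lit 0x30009000c000a000900090004000900070006000b00070007000d00070005) (nat_lit 0x188660600400500) (nat_lit 16) Lb.e (@T16.mk En
    (@En.n l1900 (nat_lit 11547) (nat_lit 0) (nat_lit 5))
    (@En.n l36525 (nat_lit 11429) (nat_lit 0) (nat_lit 7))
    (@En.n l36526 (nat_lit 10142) (nat_lit 2) (nat_lit 13))
    (@En.n l36527 (nat_lit 11928) (nat_lit 9) (nat_lit 7))
    (@En.n l3057 (nat_lit 11209) (nat_lit 4) (nat_lit 7))
    (@En.n l21290 (nat_lit 11178) (nat_lit 6) (nat_lit 11))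
    (@En.n l36528 (nat_lit 12452) (nat_lit 10) (nat_lit 6))
    (@En.n l36529 (nat_lit 11911) (nat_lit 7) (nat_lit 7))
    (@En.n l36530 (nat_lit 10280) (nat_lit 9) (nat_lit 9))
    (@En.n l36531 (nat_lit 10896) (nat_lit 9) (nat_lit 4))
    (@En.n l61 (nat_lit 11913) (nat_lit 7) (nat_lit 9))
    (@En.n l36526 (nat_lit 12026) (nat_lit 1) (nat_lit 9))
    (@En.n l36529 (nat_lit 11703) (nat_lit 13) (nat_lit 10))
    (@En.n l36532 (nat_lit 12092) (nat_lit 6) (nat_lit 12))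
    (@En.n l36533 (nat_lit 6280) (nat_lit 4) (nat_lit 9))
    (@En.n l36534 (nat_lit 11925) (nat_lit 15) (nat_lit 3))))
  (@Cl.mk (nat_lit 0x20005000900080007000d0007000d0003000700030008000b0009000e0009) (nat_lit 0x22060400018765) (nat_lit 16) Lb.e (@T16.mk En
    (@En.n l20831 (nat_lit 11925) (nat_lit 11) (nat_lit 9))
    (@En.n l36261 (nat_lit 4180) (nat_lit 1) (nat_lit 14))
    (@En.n l20335 (nat_lit 8109) (nat_lit 2) (nat_lit 9))
    (@En.n l3123 (nat_lit 11694) (nat_lit 3) (nat_lit 11))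
    (@En.n l638 (nat_lit 1918) (nat_lit 4) (nat_lit 8))
    (@En.n l3125 (nat_lit 11928) (nat_lit 5) (nat_lit 3))
    (@En.i (nat_lit 10785) (nat_lit 6) (nat_lit 7))
    (@En.n l23277 (nat_lit 11931) (nat_lit 7) (nat_lit 3))
    (@En.n l638 (nat_lit 7346) (nat_lit 9) (nat_lit 13))
    (@En.n l1236 (nat_lit 11949) (nat_lit 10) (nat_lit 7))
    (@En.n l645 (nat_lit 11973) (nat_lit 11) (nat_lit 13))
    (@En.n l3866 (nat_lit 12351) (nat_lit 12) (nat_lit 7))
    (@En.n l17 (nat_lit 4181) (nat_lit 13) (nat_lit 8))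
    (@En.i (nat_lit 11040) (nat_lit 14) (nat_lit 9))
    (@En.i (nat_lit 10974) (nat_lit 13) (nat_lit 5))
    (@En.n l936 (nat_lit 11927) (nat_lit 15) (nat_lit 2))))
  (@Cl.mk (nat_lit 0x20005000a00080007000c0007000d0006000400030008000b0009000e0009) (nat_lit 0x76040400028737) (nat_lit 16) Lb.e (@T16.mk En
    (@En.n l36855 (nat_lit 11926) (nat_lit 11) (nat_lit 9))
    (@En.n l22161 (nat_lit 11932) (nat_lit 1) (nat_lit 14))
    (@En.n l39835 (nat_lit 8111) (nat_lit 2) (nat_lit 9))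
    (@En.i (nat_lit 11695) (nat_lit 3) (nat_lit 11))
    (@En.n l39836 (nat_lit 6275) (nat_lit 4) (nat_lit 8))
    (@En.n l6104 (nat_lit 11927) (nat_lit 5) (nat_lit 3))
    (@En.i (nat_lit 8066) (nat_lit 6) (nat_lit 4))
    (@En.n l7212 (nat_lit 11659) (nat_lit 7) (nat_lit 6))
    (@En.n l18558 (nat_lit 7315) (nat_lit 9) (nat_lit 13))
    (@En.n l8572 (nat_lit 11950) (nat_lit 10) (nat_lit 7))
    (@En.i (nat_lit 12081) (nat_lit 11) (nat_lit 12))
    (@En.n l39837 (nat_lit 12354) (nat_lit 12) (nat_lit 7))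
    (@En.n l34254 (nat_lit 11929) (nat_lit 13) (nat_lit 8))
    (@En.n l36856 (nat_lit 11583) (nat_lit 14) (nat_lit 10))
    (@En.n l7212 (nat_lit 8717) (nat_lit 13) (nat_lit 5))
    (@En.n l3 (nat_lit 11928) (nat_lit 15) (nat_lit 2))))
  (@Cl.mk (nat_lit 0x2000500080006000c0006000d000c0004000300080004000b000a000e000a) (nat_lit 0x50a0b400209844) (nat_lit 16) Lb.e (@T16.mk En
    (@En.n l17241 (nat_lit 11911) (nat_lit 10) (nat_lit 10))
    (@En.n l14952 (nat_lit 4177) (nat_lit 1) (nat_lit 14))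
    (@En.n l22465 (nat_lit 11017) (nat_lit 2) (nat_lit 10))
    (@En.n l3125 (nat_lit 11928) (nat_lit 3) (nat_lit 11))
    (@En.n l4250 (nat_lit 5589) (nat_lit 4) (nat_lit 4))
    (@En.n l1068 (nat_lit 6276) (nat_lit 5) (nat_lit 8))
    (@En.n l50 (nat_lit 4181) (nat_lit 6) (nat_lit 3))
    (@En.n l17803 (nat_lit 8068) (nat_lit 7) (nat_lit 4))
    (@En.n l217 (nat_lit 11930) (nat_lit 9) (nat_lit 12))
    (@En.n l638 (nat_lit 7310) (nat_lit 10) (nat_lit 13))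
    (@En.n l1236 (nat_lit 11767) (nat_lit 11) (nat_lit 6))
    (@En.n l645 (nat_lit 12079) (nat_lit 12) (nat_lit 12))
    (@En.n l3866 (nat_lit 9214) (nat_lit 13) (nat_lit 6))
    (@En.n l2098 (nat_lit 12620) (nat_lit 14) (nat_lit 8))
    (@En.i (nat_lit 8714) (nat_lit 13) (nat_lit 5))
    (@En.n l936 (nat_lit 11929) (nat_lit 15) (nat_lit 2))))
  (@Cl.mk (nat_lit 0x2000500090006000d0006000c0003000d000700040003000b000a000e000a) (nat_lit 0x40503060009875) (nat_lit 16) Lb.e (@T16.mk En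
    (@En.n l4245 (nat_lit 11924) (nat_lit 12) (nat_lit 10))
    (@En.n l8032 (nat_lit 4179) (nat_lit 1) (nat_lit 14))
    (@En.n l8032 (nat_lit 11018) (nat_lit 2) (nat_lit 10))
    (@En.n l9176 (nat_lit 12288) (nat_lit 3) (nat_lit 11))
    (@En.n l18 (nat_lit 4181) (nat_lit 4) (nat_lit 3))
    (@En.n l8034 (nat_lit 5613) (nat_lit 5) (nat_lit 4))
    (@En.n l61 (nat_lit 11927) (nat_lit 6) (nat_lit 7))
    (@En.n l3471 (nat_lit 6003) (nat_lit 8) (nat_lit 13))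
    (@En.n l4248 (nat_lit 11933) (nat_lit 8) (nat_lit 3))
    (@En.n l8034 (nat_lit 8322) (nat_lit 10) (nat_lit 12))
    (@En.n l1236 (nat_lit 10540) (nat_lit 11) (nat_lit 6))
    (@En.n l645 (nat_lit 11974) (nat_lit 12) (nat_lit 13))
    (@En.n l3866 (nat_lit 12485) (nat_lit 13) (nat_lit 6))
    (@En.n l25229 (nat_lit 12575) (nat_lit 14) (nat_lit 9))
    (@En.i (nat_lit 8711) (nat_lit 13) (nat_lit 5))
    (@En.n l936 (nat_lit 11930) (nat_lit 15) (nat_lit 2))))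
  (@Cl.mk (nat_lit 0x20005000900080007000d000c00080003000700040008000b0009000e0008) (nat_lit 0x21055300017685) (nat_lit 16) Lb.e (@T16.mk En
    (@En.n l9902 (nat_lit 11934) (nat_lit 9) (nat_lit 8))
    (@En.n l899 (nat_lit 4175) (nat_lit 1) (nat_lit 14))
    (@En.i (nat_lit 8110) (nat_lit 2) (nat_lit 9))
    (@En.n l7457 (nat_lit 11696) (nat_lit 3) (nat_lit 11))
    (@En.n l3213 (nat_lit 1915) (nat_lit 4) (nat_lit 8))
    (@En.n l5011 (nat_lit 8072) (nat_lit 5) (nat_lit 4))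
    (@En.n l25224 (nat_lit 12163) (nat_lit 6) (nat_lit 7))
    (@En.n l20777 (nat_lit 11927) (nat_lit 7) (nat_lit 3))
    (@En.n l9188 (nat_lit 11453) (nat_lit 0) (nat_lit 8))
    (@En.n l5013 (nat_lit 11928) (nat_lit 10) (nat_lit 12))
    (@En.n l25225 (nat_lit 12182) (nat_lit 11) (nat_lit 13))
    (@En.n l25226 (nat_lit 12346) (nat_lit 12) (nat_lit 7))
    (@En.n l25227 (nat_lit 4171) (nat_lit 13) (nat_lit 8))
    (@En.n l18316 (nat_lit 11041) (nat_lit 14) (nat_lit 9))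
    (@En.n l25228 (nat_lit 10973) (nat_lit 13) (nat_lit 5))
    (@En.n l50 (nat_lit 11931) (nat_lit 15) (nat_lit 2))))
  (@Cl.mk (nat_lit 0x2000c0005000a00080004000c0008000d0006000400030008000b000e0008) (nat_lit 0x70710a440002723) (nat_lit 16) Lb.e (@T16.mk En
    (@En.n l32210 (nat_lit 11938) (nat_lit 12) (nat_lit 8))
    (@En.i (nat_lit 12806) (nat_lit 4) (nat_lit 14))
    (@En.n l9904 (nat_lit 11690) (nat_lit 7) (nat_lit 11))
    (@En.n l16032 (nat_lit 6274) (nat_lit 3) (nat_lit 8))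
    (@En.n l237 (nat_lit 4180) (nat_lit 4) (nat_lit 3))
    (@En.n l9904 (nat_lit 8065) (nat_lit 0) (nat_lit 4))
    (@En.n l55 (nat_lit 8044) (nat_lit 6) (nat_lit 6))
    (@En.i (nat_lit 7316) (nat_lit 8) (nat_lit 13))
    (@En.n l415 (nat_lit 11769) (nat_lit 3) (nat_lit 8))
    (@En.n l9904 (nat_lit 12082) (nat_lit 10) (nat_lit 12))
    (@En.n l32211 (nat_lit 11707) (nat_lit 10) (nat_lit 4))
    (@En.n l1044 (nat_lit 4177) (nat_lit 12) (nat_lit 8))
    (@En.n l32212 (nat_lit 11617) (nat_lit 13) (nat_lit 10))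
    (@En.n l25237 (nat_lit 11928) (nat_lit 14) (nat_lit 5))
    (@En.n l16192 (nat_lit 10201) (nat_lit 10) (nat_lit 12))
    (@En.n l17 (nat_lit 11932) (nat_lit 15) (nat_lit 2))))
  (@Cl.mk (nat_lit 0x2000500090006000d000b00070003000d000700050003000b000a000e0009) (nat_lit 0x70410030009794) (nat_lit 16) Lb.e (@T16.mk En
    (@En.n l11526 (nat_lit 11936) (nat_lit 12) (nat_lit 9))
    (@En.n l3 (nat_lit 4172) (nat_lit 1) (nat_lit 14))
    (@En.n l3 (nat_lit 12066) (nat_lit 2) (nat_lit 10))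
    (@En.n l6724 (nat_lit 12289) (nat_lit 3) (nat_lit 11))
    (@En.n l7112 (nat_lit 4171) (nat_lit 4) (nat_lit 3))
    (@En.n l7081 (nat_lit 5599) (nat_lit 5) (nat_lit 5))
    (@En.n l4589 (nat_lit 11931) (nat_lit 6) (nat_lit 7))
    (@En.n l11527 (nat_lit 12077) (nat_lit 8) (nat_lit 13))
    (@En.n l11528 (nat_lit 11930) (nat_lit 8) (nat_lit 3))
    (@En.i (nat_lit 11455) (nat_lit 0) (nat_lit 7))
    (@En.n l11084 (nat_lit 5589) (nat_lit 11) (nat_lit 11))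
    (@En.n l11529 (nat_lit 12179) (nat_lit 12) (nat_lit 13))
    (@En.n l11530 (nat_lit 5312) (nat_lit 13) (nat_lit 6))
    (@En.n l3105 (nat_lit 12572) (nat_lit 14) (nat_lit 9))
    (@En.n l11531 (nat_lit 7482) (nat_lit 13) (nat_lit 5))
    (@En.n l17 (nat_lit 11933) (nat_lit 15) (nat_lit 2))))
  (@Cl.mk (nat_lit 0x4000800050009000c000a000800080004000800070006000c000b00080008) (nat_lit 0x201874504009544) (nat_lit 16) Lb.e (@T16.mk En
    (@En.n l1415 (nat_lit 11931) (nat_lit 8) (nat_lit 8))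
    (@En.n l20512 (nat_lit 10623) (nat_lit 1) (nat_lit 8))
    (@En.n l20513 (nat_lit 11926) (nat_lit 5) (nat_lit 11))
    (@En.n l20514 (nat_lit 12192) (nat_lit 12) (nat_lit 12))
    (@En.n l20515 (nat_lit 12344) (nat_lit 10) (nat_lit 6))
    (@En.n l20516 (nat_lit 11935) (nat_lit 9) (nat_lit 7))
    (@En.n l20517 (nat_lit 10419) (nat_lit 11) (nat_lit 8))
    (@En.n l20518 (nat_lit 10411) (nat_lit 7) (nat_lit 4))
    (@En.n l20519 (nat_lit 11937) (nat_lit 8) (nat_lit 8))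
    (@En.n l20520 (nat_lit 12024) (nat_lit 1) (nat_lit 8))
    (@En.n l20516 (nat_lit 11742) (nat_lit 11) (nat_lit 10))
    (@En.n l20521 (nat_lit 10352) (nat_lit 6) (nat_lit 12))
    (@En.n l20522 (nat_lit 6807) (nat_lit 10) (nat_lit 9))
    (@En.n l20523 (nat_lit 11548) (nat_lit 5) (nat_lit 5))
    (@En.n l8631 (nat_lit 12176) (nat_lit 11) (nat_lit 8))
    (@En.n l20524 (nat_lit 10630) (nat_lit 15) (nat_lit 4))))
  (@Cl.mk (nat_lit 0x3000c000b00090009000400070005000c000b000700070004000d00050009) (nat_lit 0x9876000a6000402) (nat_lit 16) Lb.e (@T16.mk En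
    (@En.n l36535 (nat_lit 6810) (nat_lit 0) (nat_lit 9))
    (@En.n l32622 (nat_lit 11544) (nat_lit 6) (nat_lit 5))
    (@En.n l29390 (nat_lit 10606) (nat_lit 2) (nat_lit 13))
    (@En.n l36536 (nat_lit 10629) (nat_lit 3) (nat_lit 4))
    (@En.n l36537 (nat_lit 4171) (nat_lit 9) (nat_lit 7))
    (@En.n l36538 (nat_lit 10624) (nat_lit 5) (nat_lit 7))
    (@En.n l55 (nat_lit 11911) (nat_lit 5) (nat_lit 11))
    (@En.n l36539 (nat_lit 12184) (nat_lit 8) (nat_lit 12))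
    (@En.n l5201 (nat_lit 12112) (nat_lit 8) (nat_lit 5))
    (@En.n l7981 (nat_lit 12686) (nat_lit 11) (nat_lit 7))
    (@En.n l9856 (nat_lit 10958) (nat_lit 10) (nat_lit 4))
    (@En.n l17516 (nat_lit 11918) (nat_lit 7) (nat_lit 9))
    (@En.n l36535 (nat_lit 12023) (nat_lit 1) (nat_lit 9))
    (@En.i (nat_lit 11025) (nat_lit 14) (nat_lit 11))
    (@En.n l36540 (nat_lit 11934) (nat_lit 11) (nat_lit 12))
    (@En.n l36541 (nat_lit 11936) (nat_lit 15) (nat_lit 3))))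
noncomputable def a746 : T16 Cl := @T16.mk Cl
  (@Cl.mk (nat_lit 0x3000c000b00090009000400080005000c000a000700070004000d00080006) (nat_lit 0x1835060a4000330) (nat_lit 16) Lb.e (@T16.mk En
    (@En.i (nat_lit 5602) (nat_lit 0) (nat_lit 6))
    (@En.n l24956 (nat_lit 11934) (nat_lit 14) (nat_lit 8))
    (@En.n l24957 (nat_lit 10605) (nat_lit 2) (nat_lit 13))
    (@En.n l24958 (nat_lit 10631) (nat_lit 3) (nat_lit 4))
    (@En.n l24959 (nat_lit 11933) (nat_lit 9) (nat_lit 7))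
    (@En.n l24960 (nat_lit 10628) (nat_lit 5) (nat_lit 7))
    (@En.n l24961 (nat_lit 5594) (nat_lit 6) (nat_lit 10))
    (@En.n l24962 (nat_lit 12160) (nat_lit 8) (nat_lit 12))
    (@En.n l24963 (nat_lit 12111) (nat_lit 8) (nat_lit 5))
    (@En.n l24964 (nat_lit 11850) (nat_lit 11) (nat_lit 8))
    (@En.n l24965 (nat_lit 10959) (nat_lit 10) (nat_lit 4))
    (@En.n l24966 (nat_lit 12069) (nat_lit 7) (nat_lit 9))
    (@En.n l24962 (nat_lit 12022) (nat_lit 1) (nat_lit 9))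
    (@En.n l24967 (nat_lit 12065) (nat_lit 14) (nat_lit 11))
    (@En.i (nat_lit 45) (nat_lit 3) (nat_lit 12))
    (@En.n l24968 (nat_lit 11935) (nat_lit 15) (nat_lit 3))))
  (@Cl.mk (nat_lit 0x2000500090006000a000d000b00080003000700060005000b000a000e0008) (nat_lit 0x30157400005585) (nat_lit 16) Lb.e (@T16.mk En
    (@En.n l9029 (nat_lit 11934) (nat_lit 1) (nat_lit 8))
    (@En.n l9030 (nat_lit 11916) (nat_lit 1) (nat_lit 14))
    (@En.i (nat_lit 11913) (nat_lit 2) (nat_lit 10))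
    (@En.n l9031 (nat_lit 12166) (nat_lit 3) (nat_lit 11))
    (@En.n l9032 (nat_lit 12327) (nat_lit 4) (nat_lit 5))
    (@En.n l9033 (nat_lit 11918) (nat_lit 5) (nat_lit 6))
    (@En.n l9034 (nat_lit 11900) (nat_lit 6) (nat_lit 7))
    (@En.n l939 (nat_lit 11941) (nat_lit 7) (nat_lit 3))
    (@En.n l3072 (nat_lit 12031) (nat_lit 0) (nat_lit 8))
    (@En.n l9035 (nat_lit 7661) (nat_lit 10) (nat_lit 11))
    (@En.n l9036 (nat_lit 12104) (nat_lit 11) (nat_lit 13))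
    (@En.n l9037 (nat_lit 6623) (nat_lit 12) (nat_lit 10))
    (@En.n l3068 (nat_lit 11533) (nat_lit 13) (nat_lit 6))
    (@En.n l9038 (nat_lit 12178) (nat_lit 14) (nat_lit 9))
    (@En.n l9039 (nat_lit 12579) (nat_lit 13) (nat_lit 5))
    (@En.n l17 (nat_lit 11937) (nat_lit 15) (nat_lit 2))))
  (@Cl.mk (nat_lit 0x30009000c00080008000c0004000900070004000b00080008000d00070005) (nat_lit 0x292660600545600) (nat_lit 16) Lb.e (@T16.mk En
    (@En.n l16827 (nat_lit 11549) (nat_lit 0) (nat_lit 5))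
    (@En.n l34903 (nat_lit 11405) (nat_lit 0) (nat_lit 7))
    (@En.n l34904 (nat_lit 11828) (nat_lit 2) (nat_lit 13))
    (@En.n l34905 (nat_lit 11932) (nat_lit 8) (nat_lit 8))
    (@En.i (nat_lit 11947) (nat_lit 4) (nat_lit 8))
    (@En.n l16828 (nat_lit 11087) (nat_lit 6) (nat_lit 11))
    (@En.n l34906 (nat_lit 11706) (nat_lit 6) (nat_lit 4))
    (@En.n l34907 (nat_lit 11024) (nat_lit 7) (nat_lit 7))
    (@En.n l34908 (nat_lit 10704) (nat_lit 1) (nat_lit 9))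
    (@En.n l34909 (nat_lit 11926) (nat_lit 9) (nat_lit 4))
    (@En.n l10436 (nat_lit 10170) (nat_lit 0) (nat_lit 12))
    (@En.n l34910 (nat_lit 11922) (nat_lit 8) (nat_lit 8))
    (@En.n l34911 (nat_lit 10920) (nat_lit 13) (nat_lit 8))
    (@En.i (nat_lit 11698) (nat_lit 6) (nat_lit 12))
    (@En.n l34912 (nat_lit 6271) (nat_lit 4) (nat_lit 9))
    (@En.n l34913 (nat_lit 11939) (nat_lit 15) (nat_lit 3))))
  (@Cl.mk (nat_lit 0x30009000c00080008000c0004000800070004000c00080008000d00040008) (nat_lit 0x196420300a41501) (nat_lit 16) Lb.e (@T16.mk En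
    (@En.n l11654 (nat_lit 10113) (nat_lit 0) (nat_lit 8))
    (@En.n l33641 (nat_lit 11940) (nat_lit 15) (nat_lit 4))
    (@En.n l26427 (nat_lit 11797) (nat_lit 0) (nat_lit 13))
    (@En.n l33642 (nat_lit 4180) (nat_lit 8) (nat_lit 8))
    (@En.n l33643 (nat_lit 11944) (nat_lit 4) (nat_lit 8))
    (@En.n l33234 (nat_lit 11968) (nat_lit 12) (nat_lit 12))
    (@En.n l72 (nat_lit 11705) (nat_lit 6) (nat_lit 4))
    (@En.n l403 (nat_lit 11022) (nat_lit 7) (nat_lit 7))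
    (@En.n l4256 (nat_lit 12207) (nat_lit 11) (nat_lit 8))
    (@En.n l403 (nat_lit 11925) (nat_lit 9) (nat_lit 4))
    (@En.i (nat_lit 10168) (nat_lit 0) (nat_lit 12))
    (@En.n l3471 (nat_lit 11921) (nat_lit 8) (nat_lit 8))
    (@En.n l11132 (nat_lit 10922) (nat_lit 13) (nat_lit 8))
    (@En.n l11556 (nat_lit 11699) (nat_lit 6) (nat_lit 12))
    (@En.n l26427 (nat_lit 5113) (nat_lit 4) (nat_lit 9))
    (@En.n l33644 (nat_lit 11938) (nat_lit 15) (nat_lit 3))))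
  (@Cl.mk (nat_lit 0x4000800050009000c00070007000c0004000800070004000c000b00090009) (nat_lit 0x202800203009621) (nat_lit 16) Lb.e (@T16.mk En
    (@En.n l29490 (nat_lit 4175) (nat_lit 7) (nat_lit 9))
    (@En.n l29491 (nat_lit 11474) (nat_lit 1) (nat_lit 9))
    (@En.n l29492 (nat_lit 11938) (nat_lit 5) (nat_lit 11))
    (@En.n l7 (nat_lit 12169) (nat_lit 12) (nat_lit 12))
    (@En.n l29493 (nat_lit 11743) (nat_lit 4) (nat_lit 4))
    (@En.n l29494 (nat_lit 4176) (nat_lit 9) (nat_lit 7))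
    (@En.n l29495 (nat_lit 12213) (nat_lit 11) (nat_lit 8))
    (@En.n l8655 (nat_lit 11934) (nat_lit 7) (nat_lit 4))
    (@En.n l29496 (nat_lit 10240) (nat_lit 0) (nat_lit 12))
    (@En.n l8649 (nat_lit 11941) (nat_lit 9) (nat_lit 7))
    (@En.n l29497 (nat_lit 10071) (nat_lit 5) (nat_lit 7))
    (@En.n l29496 (nat_lit 10354) (nat_lit 6) (nat_lit 12))
    (@En.n l29491 (nat_lit 5109) (nat_lit 10) (nat_lit 9))
    (@En.n l396 (nat_lit 11552) (nat_lit 5) (nat_lit 5))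
    (@En.n l29498 (nat_lit 11966) (nat_lit 11) (nat_lit 8))
    (@En.n l3257 (nat_lit 11942) (nat_lit 15) (nat_lit 4))))
  (@Cl.mk (nat_lit 0x2000500090006000a000d0007000c0003000700060004000b000a000e0009) (nat_lit 0x30160100009673) (nat_lit 16) Lb.e (@T16.mk En
    (@En.n l1738 (nat_lit 11940) (nat_lit 1) (nat_lit 9))
    (@En.n l14644 (nat_lit 11921) (nat_lit 1) (nat_lit 14))
    (@En.n l15105 (nat_lit 11922) (nat_lit 2) (nat_lit 10))
    (@En.n l7 (nat_lit 12165) (nat_lit 3) (nat_lit 11))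
    (@En.n l15106 (nat_lit 11755) (nat_lit 4) (nat_lit 4))
    (@En.n l7184 (nat_lit 12070) (nat_lit 5) (nat_lit 6))
    (@En.n l7271 (nat_lit 12206) (nat_lit 6) (nat_lit 7))
    (@En.n l319 (nat_lit 11937) (nat_lit 7) (nat_lit 3))
    (@En.n l15107 (nat_lit 3591) (nat_lit 9) (nat_lit 12))
    (@En.n l117 (nat_lit 10836) (nat_lit 10) (nat_lit 7))
    (@En.n l131 (nat_lit 12103) (nat_lit 11) (nat_lit 13))
    (@En.i (nat_lit 5112) (nat_lit 12) (nat_lit 10))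
    (@En.n l15108 (nat_lit 11536) (nat_lit 13) (nat_lit 6))
    (@En.i (nat_lit 11971) (nat_lit 14) (nat_lit 9))
    (@En.i (nat_lit 12578) (nat_lit 13) (nat_lit 5))
    (@En.n l3 (nat_lit 11941) (nat_lit 15) (nat_lit 2))))
  (@Cl.mk (nat_lit 0x4000800040009000c00060009000c0004000800070004000c0007000c000a) (nat_lit 0x301405403007052) (nat_lit 16) Lb.e (@T16.mk En
    (@En.n l644 (nat_lit 10617) (nat_lit 0) (nat_lit 10))
    (@En.n l13544 (nat_lit 11795) (nat_lit 1) (nat_lit 12))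
    (@En.n l33690 (nat_lit 11943) (nat_lit 14) (nat_lit 7))
    (@En.n l22763 (nat_lit 10952) (nat_lit 12) (nat_lit 12))
    (@En.n l3480 (nat_lit 10759) (nat_lit 4) (nat_lit 4))
    (@En.n l15957 (nat_lit 11788) (nat_lit 0) (nat_lit 7))
    (@En.n l388 (nat_lit 11769) (nat_lit 11) (nat_lit 8))
    (@En.n l3098 (nat_lit 10630) (nat_lit 7) (nat_lit 4))
    (@En.i (nat_lit 10238) (nat_lit 6) (nat_lit 12))
    (@En.n l388 (nat_lit 12590) (nat_lit 9) (nat_lit 9))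
    (@En.i (nat_lit 10390) (nat_lit 5) (nat_lit 6))
    (@En.i (nat_lit 11482) (nat_lit 6) (nat_lit 12))
    (@En.n l3328 (nat_lit 5103) (nat_lit 4) (nat_lit 9))
    (@En.n l7 (nat_lit 11775) (nat_lit 15) (nat_lit 4))
    (@En.i (nat_lit 10598) (nat_lit 0) (nat_lit 8))
    (@En.n l2584 (nat_lit 11939) (nat_lit 1) (nat_lit 4))))
  (@Cl.mk (nat_lit 0x40007000c000a0009000700040008000b000600090007000c000500090008) (nat_lit 0x62500240505032) (nat_lit 16) Lb.e (@T16.mk En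
    (@En.n l24909 (nat_lit 10844) (nat_lit 0) (nat_lit 8))
    (@En.n l7633 (nat_lit 11950) (nat_lit 1) (nat_lit 9))
    (@En.n l14887 (nat_lit 11074) (nat_lit 8) (nat_lit 5))
    (@En.n l33712 (nat_lit 11942) (nat_lit 8) (nat_lit 12))
    (@En.n l41405 (nat_lit 11940) (nat_lit 9) (nat_lit 7))
    (@En.n l36118 (nat_lit 12588) (nat_lit 9) (nat_lit 9))
    (@En.i (nat_lit 10393) (nat_lit 6) (nat_lit 6))
    (@En.n l3530 (nat_lit 11481) (nat_lit 7) (nat_lit 11))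
    (@En.i (nat_lit 5106) (nat_lit 11) (nat_lit 8))
    (@En.n l4659 (nat_lit 11776) (nat_lit 9) (nat_lit 4))
    (@En.n l9992 (nat_lit 10600) (nat_lit 0) (nat_lit 7))
    (@En.n l2824 (nat_lit 11945) (nat_lit 1) (nat_lit 9))
    (@En.n l1767 (nat_lit 10842) (nat_lit 13) (nat_lit 10))
    (@En.n l41406 (nat_lit 9948) (nat_lit 8) (nat_lit 12))
    (@En.i (nat_lit 9599) (nat_lit 11) (nat_lit 7))
    (@En.n l41407 (nat_lit 11802) (nat_lit 15) (nat_lit 4))))
  (@Cl.mk (nat_lit 0x30008000b000800060009000c000500090008000400080007000d000a0007) (nat_lit 0x181013031030b20) (nat_lit 16) Lb.e (@T16.mk En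
    (@En.n l33707 (nat_lit 9905) (nat_lit 0) (nat_lit 7))
    (@En.n l1767 (nat_lit 9848) (nat_lit 12) (nat_lit 10))
    (@En.n l33708 (nat_lit 11790) (nat_lit 2) (nat_lit 13))
    (@En.n l7 (nat_lit 11946) (nat_lit 3) (nat_lit 7))
    (@En.n l644 (nat_lit 11948) (nat_lit 11) (nat_lit 8))
    (@En.n l33709 (nat_lit 12211) (nat_lit 5) (nat_lit 4))
    (@En.n l6213 (nat_lit 10550) (nat_lit 0) (nat_lit 8))
    (@En.n l33710 (nat_lit 11951) (nat_lit 1) (nat_lit 9))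
    (@En.n l33711 (nat_lit 11278) (nat_lit 8) (nat_lit 5))
    (@En.n l33712 (nat_lit 10002) (nat_lit 6) (nat_lit 12))
    (@En.n l1897 (nat_lit 2197) (nat_lit 9) (nat_lit 9))
    (@En.n l33712 (nat_lit 11942) (nat_lit 10) (nat_lit 6))
    (@En.n l396 (nat_lit 10310) (nat_lit 13) (nat_lit 8))
    (@En.n l3530 (nat_lit 12182) (nat_lit 7) (nat_lit 11))
    (@En.i (nat_lit 6643) (nat_lit 12) (nat_lit 8))
    (@En.n l4659 (nat_lit 11947) (nat_lit 15) (nat_lit 3))))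
  (@Cl.mk (nat_lit 0x30007000a000d000800070003000c0006000a000900040008000d00090006) (nat_lit 0x72200404106640) (nat_lit 16) Lb.e (@T16.mk En
    (@En.i (nat_lit 9901) (nat_lit 0) (nat_lit 6))
    (@En.n l61 (nat_lit 10522) (nat_lit 13) (nat_lit 9))
    (@En.n l21428 (nat_lit 10621) (nat_lit 9) (nat_lit 13))
    (@En.i (nat_lit 12478) (nat_lit 3) (nat_lit 8))
    (@En.n l11361 (nat_lit 12208) (nat_lit 4) (nat_lit 4))
    (@En.n l11245 (nat_lit 10546) (nat_lit 5) (nat_lit 9))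
    (@En.n l37279 (nat_lit 11627) (nat_lit 1) (nat_lit 10))
    (@En.n l37280 (nat_lit 11949) (nat_lit 14) (nat_lit 6))
    (@En.n l37281 (nat_lit 10001) (nat_lit 9) (nat_lit 12))
    (@En.n l9876 (nat_lit 11946) (nat_lit 9) (nat_lit 3))
    (@En.n l21422 (nat_lit 4175) (nat_lit 0) (nat_lit 7))
    (@En.n l9879 (nat_lit 11944) (nat_lit 12) (nat_lit 8))
    (@En.i (nat_lit 10332) (nat_lit 5) (nat_lit 13))
    (@En.n l22467 (nat_lit 12179) (nat_lit 8) (nat_lit 10))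
    (@En.n l37282 (nat_lit 6637) (nat_lit 12) (nat_lit 7))
    (@En.n l21425 (nat_lit 11769) (nat_lit 15) (nat_lit 3))))
  (@Cl.mk (nat_lit 0x30007000a000d000600090003000c0006000a000900040007000d000a0006) (nat_lit 0x63010404100640) (nat_lit 16) Lb.e (@T16.mk En
    (@En.n l12290 (nat_lit 9903) (nat_lit 0) (nat_lit 6))
    (@En.n l1767 (nat_lit 9849) (nat_lit 13) (nat_lit 10))
    (@En.n l13889 (nat_lit 11787) (nat_lit 2) (nat_lit 13))
    (@En.i (nat_lit 7847) (nat_lit 11) (nat_lit 7))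
    (@En.n l21855 (nat_lit 12210) (nat_lit 4) (nat_lit 4))
    (@En.n l637 (nat_lit 10549) (nat_lit 0) (nat_lit 9))
    (@En.n l9874 (nat_lit 11991) (nat_lit 1) (nat_lit 10))
    (@En.i (nat_lit 11948) (nat_lit 14) (nat_lit 6))
    (@En.i (nat_lit 11944) (nat_lit 9) (nat_lit 12))
    (@En.n l1236 (nat_lit 11945) (nat_lit 9) (nat_lit 3))
    (@En.n l1897 (nat_lit 2196) (nat_lit 9) (nat_lit 9))
    (@En.i (nat_lit 11943) (nat_lit 6) (nat_lit 6))
    (@En.i (nat_lit 10331) (nat_lit 5) (nat_lit 13))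
    (@En.n l3530 (nat_lit 12180) (nat_lit 8) (nat_lit 10))
    (@En.i (nat_lit 6639) (nat_lit 4) (nat_lit 7))
    (@En.n l4659 (nat_lit 11766) (nat_lit 15) (nat_lit 3))))
  (@Cl.mk (nat_lit 0x30008000b000800050009000c0005000a0008000400080007000d0006000b) (nat_lit 0x281017063030b01) (nat_lit 16) Lb.e (@T16.mk En
    (@En.n l24770 (nat_lit 7549) (nat_lit 0) (nat_lit 11))
    (@En.n l117 (nat_lit 9851) (nat_lit 5) (nat_lit 6))
    (@En.n l9463 (nat_lit 11789) (nat_lit 2) (nat_lit 13))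
    (@En.n l50 (nat_lit 11766) (nat_lit 3) (nat_lit 7))
    (@En.n l217 (nat_lit 11768) (nat_lit 11) (nat_lit 8))
    (@En.n l17 (nat_lit 12212) (nat_lit 5) (nat_lit 4))
    (@En.n l2642 (nat_lit 11763) (nat_lit 0) (nat_lit 8))
    (@En.n l1003 (nat_lit 10695) (nat_lit 1) (nat_lit 10))
    (@En.n l41295 (nat_lit 11209) (nat_lit 8) (nat_lit 5))
    (@En.n l10436 (nat_lit 10003) (nat_lit 6) (nat_lit 12))
    (@En.n l41296 (nat_lit 2199) (nat_lit 10) (nat_lit 9))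
    (@En.n l10436 (nat_lit 11775) (nat_lit 12) (nat_lit 5))
    (@En.n l34911 (nat_lit 10312) (nat_lit 13) (nat_lit 8))
    (@En.i (nat_lit 11973) (nat_lit 7) (nat_lit 11))
    (@En.n l1081 (nat_lit 6127) (nat_lit 12) (nat_lit 8))
    (@En.n l1080 (nat_lit 11944) (nat_lit 15) (nat_lit 3))))
  (@Cl.mk (nat_lit 0x30006000a000900080006000d0009000600030007000a0008000d0007000a) (nat_lit 0x3720b400074402) (nat_lit 16) Lb.e (@T16.mk En
    (@En.n l12292 (nat_lit 2195) (nat_lit 0) (nat_lit 10))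
    (@En.n l14887 (nat_lit 11074) (nat_lit 11) (nat_lit 7))
    (@En.n l50 (nat_lit 11946) (nat_lit 12) (nat_lit 13))
    (@En.n l14888 (nat_lit 12216) (nat_lit 13) (nat_lit 8))
    (@En.n l3530 (nat_lit 12183) (nat_lit 8) (nat_lit 10))
    (@En.i (nat_lit 6920) (nat_lit 5) (nat_lit 7))
    (@En.n l4659 (nat_lit 11768) (nat_lit 6) (nat_lit 3))
    (@En.n l14889 (nat_lit 9904) (nat_lit 0) (nat_lit 6))
    (@En.n l1767 (nat_lit 9850) (nat_lit 9) (nat_lit 9))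
    (@En.n l14890 (nat_lit 10845) (nat_lit 10) (nat_lit 13))
    (@En.n l12292 (nat_lit 7848) (nat_lit 3) (nat_lit 6))
    (@En.n l14889 (nat_lit 12008) (nat_lit 12) (nat_lit 8))
    (@En.n l14891 (nat_lit 10548) (nat_lit 13) (nat_lit 9))
    (@En.n l14889 (nat_lit 11982) (nat_lit 9) (nat_lit 10))
    (@En.n l14892 (nat_lit 11208) (nat_lit 12) (nat_lit 6))
    (@En.n l14893 (nat_lit 11949) (nat_lit 15) (nat_lit 3))))
  (@Cl.mk (nat_lit 0x30006000a000900080007000d0008000600030007000a0008000d00090008) (nat_lit 0x5760b300064336) (nat_lit 16) Lb.e (@T16.mk En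
    (@En.n l29312 (nat_lit 11931) (nat_lit 0) (nat_lit 8))
    (@En.n l8280 (nat_lit 11278) (nat_lit 11) (nat_lit 9))
    (@En.n l29313 (nat_lit 11945) (nat_lit 12) (nat_lit 13))
    (@En.n l29314 (nat_lit 12214) (nat_lit 13) (nat_lit 8))
    (@En.n l29315 (nat_lit 12161) (nat_lit 8) (nat_lit 10))
    (@En.n l29316 (nat_lit 6919) (nat_lit 5) (nat_lit 7))
    (@En.n l29317 (nat_lit 11950) (nat_lit 6) (nat_lit 3))
    (@En.n l29318 (nat_lit 9902) (nat_lit 0) (nat_lit 6))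
    (@En.n l29319 (nat_lit 10523) (nat_lit 9) (nat_lit 8))
    (@En.n l22216 (nat_lit 10843) (nat_lit 10) (nat_lit 13))
    (@En.n l12811 (nat_lit 12477) (nat_lit 3) (nat_lit 7))
    (@En.i (nat_lit 11989) (nat_lit 12) (nat_lit 8))
    (@En.n l403 (nat_lit 10547) (nat_lit 13) (nat_lit 9))
    (@En.n l29320 (nat_lit 11980) (nat_lit 9) (nat_lit 10))
    (@En.n l9877 (nat_lit 7518) (nat_lit 12) (nat_lit 6))
    (@En.n l29321 (nat_lit 11948) (nat_lit 15) (nat_lit 3))))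
  (@Cl.mk (nat_lit 0x30006000b000900080007000d0005000900030007000a0008000d00090007) (nat_lit 0x5750b030074320) (nat_lit 16) Lb.e (@T16.mk En
    (@En.n l41697 (nat_lit 8072) (nat_lit 0) (nat_lit 7))
    (@En.n l2954 (nat_lit 11209) (nat_lit 11) (nat_lit 9))
    (@En.n l6650 (nat_lit 11769) (nat_lit 12) (nat_lit 13))
    (@En.n l41698 (nat_lit 12213) (nat_lit 13) (nat_lit 8))
    (@En.n l11247 (nat_lit 11979) (nat_lit 8) (nat_lit 10))
    (@En.n l2947 (nat_lit 6150) (nat_lit 12) (nat_lit 7))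
    (@En.n l39655 (nat_lit 11949) (nat_lit 6) (nat_lit 3))
    (@En.n l3550 (nat_lit 5290) (nat_lit 0) (nat_lit 9))
    (@En.n l2843 (nat_lit 10964) (nat_lit 8) (nat_lit 5))
    (@En.n l3548 (nat_lit 10844) (nat_lit 10) (nat_lit 13))
    (@En.n l8824 (nat_lit 12474) (nat_lit 3) (nat_lit 7))
    (@En.i (nat_lit 11627) (nat_lit 12) (nat_lit 8))
    (@En.n l39659 (nat_lit 11767) (nat_lit 13) (nat_lit 9))
    (@En.n l4592 (nat_lit 10705) (nat_lit 14) (nat_lit 11))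
    (@En.n l17487 (nat_lit 7519) (nat_lit 12) (nat_lit 6))
    (@En.n l16977 (nat_lit 11768) (nat_lit 15) (nat_lit 3))))
  (@Cl.mk (nat_lit 0x300070006000c00090007000d00040009000300090007000a000d00090007) (nat_lit 0x7402020302420) (nat_lit 16) Lb.e (@T16.mk En
    (@En.n l1867 (nat_lit 10744) (nat_lit 0) (nat_lit 7))
    (@En.n l41093 (nat_lit 11861) (nat_lit 11) (nat_lit 9))
    (@En.n l41094 (nat_lit 11384) (nat_lit 5) (nat_lit 13))
    (@En.n l41095 (nat_lit 6748) (nat_lit 8) (nat_lit 10))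
    (@En.n l27276 (nat_lit 11769) (nat_lit 14) (nat_lit 7))
    (@En.n l41096 (nat_lit 10402) (nat_lit 5) (nat_lit 9))
    (@En.n l41097 (nat_lit 11990) (nat_lit 6) (nat_lit 3))
    (@En.n l13798 (nat_lit 6541) (nat_lit 0) (nat_lit 9))
    (@En.n l39439 (nat_lit 12024) (nat_lit 8) (nat_lit 4))
    (@En.n l41098 (nat_lit 10550) (nat_lit 10) (nat_lit 13))
    (@En.n l28715 (nat_lit 10451) (nat_lit 1) (nat_lit 7))
    (@En.n l38138 (nat_lit 12016) (nat_lit 12) (nat_lit 9))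
    (@En.n l34609 (nat_lit 10701) (nat_lit 13) (nat_lit 12))
    (@En.n l21433 (nat_lit 11991) (nat_lit 14) (nat_lit 6))
    (@En.n l41099 (nat_lit 11982) (nat_lit 7) (nat_lit 7))
    (@En.n l24867 (nat_lit 11629) (nat_lit 15) (nat_lit 3))))
noncomputable def a747 : T16 Cl := @T16.mk Cl
  (@Cl.mk (nat_lit 0x40007000b00080007000c00070005000a000400090008000c000900060009) (nat_lit 0x24030020535205) (nat_lit 16) Lb.e (@T16.mk En
    (@En.n l35700 (nat_lit 12132) (nat_lit 9) (nat_lit 9))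
    (@En.n l35701 (nat_lit 9414) (nat_lit 1) (nat_lit 6))
    (@En.i (nat_lit 9917) (nat_lit 12) (nat_lit 9))
    (@En.n l50 (nat_lit 11953) (nat_lit 7) (nat_lit 12))
    (@En.n l35702 (nat_lit 11954) (nat_lit 8) (nat_lit 8))
    (@En.n l11870 (nat_lit 9717) (nat_lit 5) (nat_lit 9))
    (@En.n l35703 (nat_lit 11736) (nat_lit 6) (nat_lit 4))
    (@En.n l35704 (nat_lit 10491) (nat_lit 0) (nat_lit 10))
    (@En.n l35654 (nat_lit 9953) (nat_lit 1) (nat_lit 5))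
    (@En.n l2642 (nat_lit 11857) (nat_lit 0) (nat_lit 7))
    (@En.n l35705 (nat_lit 11612) (nat_lit 8) (nat_lit 12))
    (@En.n l11512 (nat_lit 10027) (nat_lit 9) (nat_lit 7))
    (@En.n l35706 (nat_lit 10344) (nat_lit 5) (nat_lit 8))
    (@En.n l35707 (nat_lit 9980) (nat_lit 8) (nat_lit 11))
    (@En.n l35708 (nat_lit 6525) (nat_lit 11) (nat_lit 7))
    (@En.n l9102 (nat_lit 10566) (nat_lit 15) (nat_lit 4))))
  (@Cl.mk (nat_lit 0x30008000c00080005000b00040009000c0008000500080004000d0007000b) (nat_lit 0x134020545040808) (nat_lit 16) Lb.e (@T16.mk En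
    (@En.n l31333 (nat_lit 9989) (nat_lit 0) (nat_lit 11))
    (@En.i (nat_lit 11952) (nat_lit 14) (nat_lit 7))
    (@En.n l42602 (nat_lit 11245) (nat_lit 2) (nat_lit 13))
    (@En.i (nat_lit 10567) (nat_lit 3) (nat_lit 4))
    (@En.n l31333 (nat_lit 12162) (nat_lit 10) (nat_lit 8))
    (@En.n l6685 (nat_lit 7400) (nat_lit 5) (nat_lit 5))
    (@En.n l77 (nat_lit 11957) (nat_lit 6) (nat_lit 8))
    (@En.i (nat_lit 7287) (nat_lit 6) (nat_lit 12))
    (@En.n l11870 (nat_lit 9716) (nat_lit 2) (nat_lit 9))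
    (@En.n l16336 (nat_lit 11737) (nat_lit 9) (nat_lit 4))
    (@En.n l725 (nat_lit 10490) (nat_lit 0) (nat_lit 11))
    (@En.n l23348 (nat_lit 9951) (nat_lit 1) (nat_lit 5))
    (@En.n l2642 (nat_lit 11856) (nat_lit 13) (nat_lit 8))
    (@En.n l23348 (nat_lit 12011) (nat_lit 7) (nat_lit 12))
    (@En.n l2642 (nat_lit 10024) (nat_lit 4) (nat_lit 8))
    (@En.n l42603 (nat_lit 11954) (nat_lit 15) (nat_lit 3))))
  (@Cl.mk (nat_lit 0x30008000c00080006000b00040008000c0008000500080004000d000a0008) (nat_lit 0x345020261040925) (nat_lit 16) Lb.e (@T16.mk En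
    (@En.n l33997 (nat_lit 10343) (nat_lit 0) (nat_lit 8))
    (@En.n l33998 (nat_lit 11090) (nat_lit 14) (nat_lit 10))
    (@En.n l33999 (nat_lit 11242) (nat_lit 2) (nat_lit 13))
    (@En.n l34000 (nat_lit 8840) (nat_lit 3) (nat_lit 4))
    (@En.n l34001 (nat_lit 12163) (nat_lit 10) (nat_lit 8))
    (@En.n l34002 (nat_lit 9583) (nat_lit 5) (nat_lit 5))
    (@En.n l34003 (nat_lit 10509) (nat_lit 6) (nat_lit 8))
    (@En.n l34004 (nat_lit 7282) (nat_lit 7) (nat_lit 12))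
    (@En.n l34005 (nat_lit 10087) (nat_lit 11) (nat_lit 8))
    (@En.n l28344 (nat_lit 11473) (nat_lit 9) (nat_lit 4))
    (@En.n l34000 (nat_lit 10492) (nat_lit 0) (nat_lit 11))
    (@En.n l34006 (nat_lit 9957) (nat_lit 1) (nat_lit 6))
    (@En.n l34007 (nat_lit 11860) (nat_lit 13) (nat_lit 8))
    (@En.n l34006 (nat_lit 12014) (nat_lit 7) (nat_lit 12))
    (@En.n l34008 (nat_lit 10833) (nat_lit 4) (nat_lit 8))
    (@En.n l34009 (nat_lit 11953) (nat_lit 15) (nat_lit 3))))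
  (@Cl.mk (nat_lit 0x30006000c00090005000c00040009000c00040007000a0004000d0007000b) (nat_lit 0x95050720020406) (nat_lit 16) Lb.e (@T16.mk En
    (@En.n l1203 (nat_lit 10536) (nat_lit 0) (nat_lit 11))
    (@En.i (nat_lit 11956) (nat_lit 14) (nat_lit 7))
    (@En.i (nat_lit 11957) (nat_lit 2) (nat_lit 13))
    (@En.i (nat_lit 11953) (nat_lit 3) (nat_lit 4))
    (@En.i (nat_lit 11214) (nat_lit 8) (nat_lit 10))
    (@En.n l1081 (nat_lit 7452) (nat_lit 11) (nat_lit 7))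
    (@En.i (nat_lit 8793) (nat_lit 6) (nat_lit 4))
    (@En.i (nat_lit 7264) (nat_lit 6) (nat_lit 12))
    (@En.n l3328 (nat_lit 9645) (nat_lit 1) (nat_lit 9))
    (@En.n l117 (nat_lit 11799) (nat_lit 9) (nat_lit 4))
    (@En.n l725 (nat_lit 10506) (nat_lit 11) (nat_lit 12))
    (@En.i (nat_lit 9950) (nat_lit 1) (nat_lit 5))
    (@En.n l2642 (nat_lit 11863) (nat_lit 13) (nat_lit 9))
    (@En.n l1003 (nat_lit 11866) (nat_lit 14) (nat_lit 12))
    (@En.i (nat_lit 7556) (nat_lit 12) (nat_lit 6))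
    (@En.n l2869 (nat_lit 11958) (nat_lit 15) (nat_lit 3))))
  (@Cl.mk (nat_lit 0x40007000b00080005000c00080005000b000400090008000c00050008000b) (nat_lit 0x23064080733052) (nat_lit 16) Lb.e (@T16.mk En
    (@En.i (nat_lit 11217) (nat_lit 7) (nat_lit 11))
    (@En.n l1081 (nat_lit 10047) (nat_lit 10) (nat_lit 8))
    (@En.i (nat_lit 9480) (nat_lit 15) (nat_lit 5))
    (@En.n l50 (nat_lit 11955) (nat_lit 7) (nat_lit 12))
    (@En.n l2579 (nat_lit 11958) (nat_lit 8) (nat_lit 8))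
    (@En.n l3328 (nat_lit 9782) (nat_lit 2) (nat_lit 9))
    (@En.n l117 (nat_lit 11801) (nat_lit 6) (nat_lit 4))
    (@En.n l2366 (nat_lit 9920) (nat_lit 0) (nat_lit 11))
    (@En.i (nat_lit 9803) (nat_lit 1) (nat_lit 5))
    (@En.n l2642 (nat_lit 9921) (nat_lit 0) (nat_lit 8))
    (@En.n l1003 (nat_lit 12050) (nat_lit 11) (nat_lit 12))
    (@En.n l5934 (nat_lit 6556) (nat_lit 4) (nat_lit 5))
    (@En.n l2912 (nat_lit 11479) (nat_lit 13) (nat_lit 8))
    (@En.n l20005 (nat_lit 10763) (nat_lit 8) (nat_lit 11))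
    (@En.n l14973 (nat_lit 9915) (nat_lit 11) (nat_lit 7))
    (@En.i (nat_lit 11952) (nat_lit 15) (nat_lit 4))))
  (@Cl.mk (nat_lit 0x300080006000c00090006000c0004000a000800040007000a000d0006000a) (nat_lit 0x409406074002305) (nat_lit 16) Lb.e (@T16.mk En
    (@En.n l1203 (nat_lit 12691) (nat_lit 0) (nat_lit 10))
    (@En.n l7 (nat_lit 9917) (nat_lit 8) (nat_lit 6))
    (@En.n l37183 (nat_lit 11250) (nat_lit 5) (nat_lit 13))
    (@En.i (nat_lit 11213) (nat_lit 8) (nat_lit 10))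
    (@En.n l1081 (nat_lit 12166) (nat_lit 11) (nat_lit 7))
    (@En.n l37183 (nat_lit 8791) (nat_lit 5) (nat_lit 4))
    (@En.n l396 (nat_lit 12474) (nat_lit 0) (nat_lit 8))
    (@En.n l3328 (nat_lit 9647) (nat_lit 1) (nat_lit 10))
    (@En.n l117 (nat_lit 11800) (nat_lit 8) (nat_lit 4))
    (@En.n l6508 (nat_lit 10501) (nat_lit 10) (nat_lit 12))
    (@En.i (nat_lit 9877) (nat_lit 1) (nat_lit 6))
    (@En.n l2642 (nat_lit 11862) (nat_lit 12) (nat_lit 9))
    (@En.n l37184 (nat_lit 11985) (nat_lit 13) (nat_lit 12))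
    (@En.n l7 (nat_lit 11955) (nat_lit 14) (nat_lit 6))
    (@En.n l644 (nat_lit 11956) (nat_lit 12) (nat_lit 8))
    (@En.n l20955 (nat_lit 10509) (nat_lit 15) (nat_lit 3))))
  (@Cl.mk (nat_lit 0x30006000c00090006000c00040008000c00040007000a0004000d000a0008) (nat_lit 0x75060220040855) (nat_lit 16) Lb.e (@T16.mk En
    (@En.n l4758 (nat_lit 11482) (nat_lit 0) (nat_lit 8))
    (@En.n l649 (nat_lit 10641) (nat_lit 11) (nat_lit 10))
    (@En.n l23098 (nat_lit 10509) (nat_lit 2) (nat_lit 13))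
    (@En.n l18272 (nat_lit 11954) (nat_lit 3) (nat_lit 4))
    (@En.i (nat_lit 11212) (nat_lit 8) (nat_lit 10))
    (@En.n l8226 (nat_lit 12164) (nat_lit 11) (nat_lit 7))
    (@En.i (nat_lit 9691) (nat_lit 6) (nat_lit 4))
    (@En.n l649 (nat_lit 7263) (nat_lit 7) (nat_lit 12))
    (@En.n l2038 (nat_lit 10667) (nat_lit 1) (nat_lit 8))
    (@En.n l3528 (nat_lit 11798) (nat_lit 9) (nat_lit 4))
    (@En.n l899 (nat_lit 10505) (nat_lit 11) (nat_lit 12))
    (@En.n l2605 (nat_lit 9942) (nat_lit 1) (nat_lit 6))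
    (@En.n l8243 (nat_lit 11864) (nat_lit 13) (nat_lit 9))
    (@En.n l20059 (nat_lit 11867) (nat_lit 14) (nat_lit 12))
    (@En.i (nat_lit 10870) (nat_lit 12) (nat_lit 6))
    (@En.n l1865 (nat_lit 11955) (nat_lit 15) (nat_lit 3))))
  (@Cl.mk (nat_lit 0x2000c0005000a000d0004000a0003000d0006000b00030006000b000e0005) (nat_lit 0x607302080700320) (nat_lit 16) Lb.e (@T16.mk En
    (@En.n l3098 (nat_lit 11976) (nat_lit 7) (nat_lit 5))
    (@En.i (nat_lit 6372) (nat_lit 4) (nat_lit 14))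
    (@En.n l253 (nat_lit 12047) (nat_lit 2) (nat_lit 11))
    (@En.i (nat_lit 7508) (nat_lit 12) (nat_lit 6))
    (@En.i (nat_lit 11964) (nat_lit 4) (nat_lit 3))
    (@En.n l1998 (nat_lit 12353) (nat_lit 0) (nat_lit 11))
    (@En.i (nat_lit 11961) (nat_lit 6) (nat_lit 6))
    (@En.i (nat_lit 11963) (nat_lit 8) (nat_lit 13))
    (@En.i (nat_lit 11960) (nat_lit 8) (nat_lit 3))
    (@En.n l253 (nat_lit 2482) (nat_lit 10) (nat_lit 10))
    (@En.i (nat_lit 11173) (nat_lit 10) (nat_lit 4))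
    (@En.i (nat_lit 2774) (nat_lit 5) (nat_lit 13))
    (@En.n l781 (nat_lit 6395) (nat_lit 13) (nat_lit 10))
    (@En.i (nat_lit 7452) (nat_lit 14) (nat_lit 5))
    (@En.n l2125 (nat_lit 11955) (nat_lit 10) (nat_lit 12))
    (@En.n l17 (nat_lit 11959) (nat_lit 15) (nat_lit 2))))
  (@Cl.mk (nat_lit 0x2000b0005000a000d000900050003000d0006000b00030007000b000e0005) (nat_lit 0x307240080600620) (nat_lit 16) Lb.e (@T16.mk En
    (@En.n l3098 (nat_lit 10677) (nat_lit 7) (nat_lit 5))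
    (@En.i (nat_lit 6371) (nat_lit 4) (nat_lit 14))
    (@En.n l253 (nat_lit 12044) (nat_lit 2) (nat_lit 11))
    (@En.i (nat_lit 12156) (nat_lit 3) (nat_lit 7))
    (@En.i (nat_lit 11965) (nat_lit 4) (nat_lit 3))
    (@En.n l25152 (nat_lit 12350) (nat_lit 0) (nat_lit 11))
    (@En.n l2491 (nat_lit 11962) (nat_lit 6) (nat_lit 6))
    (@En.i (nat_lit 12120) (nat_lit 8) (nat_lit 13))
    (@En.n l11 (nat_lit 11959) (nat_lit 8) (nat_lit 3))
    (@En.n l12575 (nat_lit 12251) (nat_lit 9) (nat_lit 5))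
    (@En.n l55 (nat_lit 11963) (nat_lit 11) (nat_lit 9))
    (@En.i (nat_lit 2772) (nat_lit 5) (nat_lit 13))
    (@En.n l3447 (nat_lit 6396) (nat_lit 13) (nat_lit 10))
    (@En.n l3651 (nat_lit 12162) (nat_lit 14) (nat_lit 5))
    (@En.n l2125 (nat_lit 11953) (nat_lit 10) (nat_lit 11))
    (@En.n l17 (nat_lit 11960) (nat_lit 15) (nat_lit 2))))
  (@Cl.mk (nat_lit 0x2000b0005000a0009000d0005000b00030006000b00070005000b000e0005) (nat_lit 0x908640300100320) (nat_lit 16) Lb.e (@T16.mk En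
    (@En.n l3098 (nat_lit 11978) (nat_lit 8) (nat_lit 5))
    (@En.i (nat_lit 6370) (nat_lit 4) (nat_lit 14))
    (@En.n l253 (nat_lit 12048) (nat_lit 2) (nat_lit 11))
    (@En.n l3100 (nat_lit 7503) (nat_lit 3) (nat_lit 5))
    (@En.n l8433 (nat_lit 12291) (nat_lit 4) (nat_lit 7))
    (@En.n l7 (nat_lit 34) (nat_lit 6) (nat_lit 11))
    (@En.n l8434 (nat_lit 7578) (nat_lit 12) (nat_lit 6))
    (@En.n l2491 (nat_lit 11962) (nat_lit 7) (nat_lit 3))
    (@En.n l253 (nat_lit 2464) (nat_lit 9) (nat_lit 11))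
    (@En.i (nat_lit 11171) (nat_lit 9) (nat_lit 5))
    (@En.n l7 (nat_lit 11959) (nat_lit 11) (nat_lit 13))
    (@En.n l644 (nat_lit 11964) (nat_lit 12) (nat_lit 9))
    (@En.n l781 (nat_lit 6394) (nat_lit 13) (nat_lit 10))
    (@En.i (nat_lit 10047) (nat_lit 14) (nat_lit 5))
    (@En.n l2125 (nat_lit 11956) (nat_lit 7) (nat_lit 11))
    (@En.n l17 (nat_lit 11961) (nat_lit 15) (nat_lit 2))))
  (@Cl.mk (nat_lit 0x2000a0005000a0009000d000a000600030006000b00070006000b000e0005) (nat_lit 0x307631000500620) (nat_lit 16) Lb.e (@T16.mk En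
    (@En.n l20000 (nat_lit 10674) (nat_lit 8) (nat_lit 5))
    (@En.i (nat_lit 6369) (nat_lit 4) (nat_lit 14))
    (@En.n l20001 (nat_lit 12046) (nat_lit 2) (nat_lit 11))
    (@En.i (nat_lit 12133) (nat_lit 3) (nat_lit 6))
    (@En.n l13928 (nat_lit 12290) (nat_lit 4) (nat_lit 7))
    (@En.n l15683 (nat_lit 10764) (nat_lit 6) (nat_lit 11))
    (@En.n l7471 (nat_lit 7656) (nat_lit 6) (nat_lit 6))
    (@En.n l3007 (nat_lit 11961) (nat_lit 7) (nat_lit 3))
    (@En.n l10068 (nat_lit 12255) (nat_lit 0) (nat_lit 6))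
    (@En.n l3766 (nat_lit 7579) (nat_lit 10) (nat_lit 10))
    (@En.n l6698 (nat_lit 11960) (nat_lit 11) (nat_lit 13))
    (@En.n l7475 (nat_lit 11965) (nat_lit 12) (nat_lit 9))
    (@En.n l20002 (nat_lit 6249) (nat_lit 13) (nat_lit 10))
    (@En.n l20003 (nat_lit 12132) (nat_lit 14) (nat_lit 5))
    (@En.n l20004 (nat_lit 11952) (nat_lit 7) (nat_lit 10))
    (@En.n l17 (nat_lit 11962) (nat_lit 15) (nat_lit 2))))
  (@Cl.mk (nat_lit 0x2000c0005000b00090004000a000d0005000a000300070006000b000e0006) (nat_lit 0x707302705000460) (nat_lit 16) Lb.e (@T16.mk En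
    (@En.n l3098 (nat_lit 11977) (nat_lit 11) (nat_lit 6))
    (@En.i (nat_lit 6373) (nat_lit 4) (nat_lit 14))
    (@En.n l253 (nat_lit 12359) (nat_lit 2) (nat_lit 11))
    (@En.n l28 (nat_lit 11959) (nat_lit 3) (nat_lit 6))
    (@En.n l77 (nat_lit 11961) (nat_lit 4) (nat_lit 7))
    (@En.i (nat_lit 12167) (nat_lit 5) (nat_lit 3))
    (@En.n l1998 (nat_lit 12267) (nat_lit 0) (nat_lit 10))
    (@En.n l28 (nat_lit 7579) (nat_lit 7) (nat_lit 5))
    (@En.n l3039 (nat_lit 8040) (nat_lit 5) (nat_lit 13))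
    (@En.n l253 (nat_lit 2178) (nat_lit 10) (nat_lit 10))
    (@En.n l4549 (nat_lit 11174) (nat_lit 10) (nat_lit 4))
    (@En.n l601 (nat_lit 12481) (nat_lit 12) (nat_lit 9))
    (@En.n l781 (nat_lit 6386) (nat_lit 13) (nat_lit 11))
    (@En.i (nat_lit 12166) (nat_lit 14) (nat_lit 5))
    (@En.n l2125 (nat_lit 11957) (nat_lit 9) (nat_lit 12))
    (@En.n l17 (nat_lit 11963) (nat_lit 15) (nat_lit 2))))
  (@Cl.mk (nat_lit 0x2000c00050009000d0004000a0003000d000a000700030006000b000e0006) (nat_lit 0x705302096000720) (nat_lit 16) Lb.e (@T16.mk En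
    (@En.n l19359 (nat_lit 11967) (nat_lit 7) (nat_lit 6))
    (@En.i (nat_lit 6374) (nat_lit 4) (nat_lit 14))
    (@En.n l253 (nat_lit 12368) (nat_lit 2) (nat_lit 11))
    (@En.i (nat_lit 8902) (nat_lit 12) (nat_lit 6))
    (@En.n l50 (nat_lit 11959) (nat_lit 4) (nat_lit 3))
    (@En.n l1364 (nat_lit 12295) (nat_lit 0) (nat_lit 7))
    (@En.i (nat_lit 10682) (nat_lit 14) (nat_lit 10))
    (@En.i (nat_lit 12167) (nat_lit 8) (nat_lit 13))
    (@En.i (nat_lit 11965) (nat_lit 8) (nat_lit 3))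
    (@En.n l253 (nat_lit 2179) (nat_lit 10) (nat_lit 10))
    (@En.i (nat_lit 11176) (nat_lit 10) (nat_lit 4))
    (@En.i (nat_lit 2776) (nat_lit 12) (nat_lit 13))
    (@En.n l781 (nat_lit 9995) (nat_lit 13) (nat_lit 9))
    (@En.i (nat_lit 12164) (nat_lit 14) (nat_lit 5))
    (@En.n l10773 (nat_lit 11958) (nat_lit 10) (nat_lit 12))
    (@En.n l17 (nat_lit 11964) (nat_lit 15) (nat_lit 2))))
  (@Cl.mk (nat_lit 0x2000b00050009000d000900050003000d000a000700030007000b000e0006) (nat_lit 0x305340096000720) (nat_lit 16) Lb.e (@T16.mk En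
    (@En.n l18418 (nat_lit 11966) (nat_lit 7) (nat_lit 6))
    (@En.i (nat_lit 6375) (nat_lit 4) (nat_lit 14))
    (@En.n l253 (nat_lit 12367) (nat_lit 2) (nat_lit 11))
    (@En.i (nat_lit 8906) (nat_lit 3) (nat_lit 7))
    (@En.n l50 (nat_lit 11960) (nat_lit 4) (nat_lit 3))
    (@En.n l2495 (nat_lit 12297) (nat_lit 0) (nat_lit 7))
    (@En.i (nat_lit 10687) (nat_lit 14) (nat_lit 10))
    (@En.n l3039 (nat_lit 8044) (nat_lit 8) (nat_lit 13))
    (@En.n l11 (nat_lit 11964) (nat_lit 8) (nat_lit 3))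
    (@En.n l18419 (nat_lit 12253) (nat_lit 9) (nat_lit 5))
    (@En.n l55 (nat_lit 12167) (nat_lit 11) (nat_lit 9))
    (@En.i (nat_lit 1829) (nat_lit 12) (nat_lit 13))
    (@En.n l3447 (nat_lit 9996) (nat_lit 13) (nat_lit 9))
    (@En.n l8914 (nat_lit 12163) (nat_lit 14) (nat_lit 5))
    (@En.n l18420 (nat_lit 11954) (nat_lit 10) (nat_lit 11))
    (@En.n l17 (nat_lit 11965) (nat_lit 15) (nat_lit 2))))
  (@Cl.mk (nat_lit 0x3000c000a000a000800040008000c00060006000b00040008000d00080005) (nat_lit 0x247105900304220) (nat_lit 16) Lb.e (@T16.mk En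
    (@En.n l34201 (nat_lit 10995) (nat_lit 0) (nat_lit 5))
    (@En.n l34202 (nat_lit 11968) (nat_lit 6) (nat_lit 8))
    (@En.n l34203 (nat_lit 2796) (nat_lit 2) (nat_lit 13))
    (@En.n l34204 (nat_lit 9998) (nat_lit 11) (nat_lit 8))
    (@En.n l18251 (nat_lit 12176) (nat_lit 4) (nat_lit 4))
    (@En.i (nat_lit 9957) (nat_lit 0) (nat_lit 11))
    (@En.n l34205 (nat_lit 11971) (nat_lit 10) (nat_lit 6))
    (@En.n l34206 (nat_lit 11073) (nat_lit 7) (nat_lit 6))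
    (@En.i (nat_lit 11808) (nat_lit 7) (nat_lit 12))
    (@En.n l34207 (nat_lit 8809) (nat_lit 11) (nat_lit 8))
    (@En.n l34208 (nat_lit 10677) (nat_lit 10) (nat_lit 4))
    (@En.n l18228 (nat_lit 10700) (nat_lit 0) (nat_lit 8))
    (@En.n l34209 (nat_lit 11965) (nat_lit 6) (nat_lit 10))
    (@En.n l644 (nat_lit 10479) (nat_lit 14) (nat_lit 10))
    (@En.n l34210 (nat_lit 11405) (nat_lit 3) (nat_lit 12))
    (@En.n l34211 (nat_lit 11967) (nat_lit 15) (nat_lit 3))))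
  (@Cl.mk (nat_lit 0x3000c000a000a000800040007000c00060006000c00040008000d00040009) (nat_lit 0x777600800604302) (nat_lit 16) Lb.e (@T16.mk En
    (@En.n l14666 (nat_lit 2838) (nat_lit 0) (nat_lit 9))
    (@En.i (nat_lit 11088) (nat_lit 6) (nat_lit 4))
    (@En.i (nat_lit 2788) (nat_lit 0) (nat_lit 13))
    (@En.n l33962 (nat_lit 9999) (nat_lit 11) (nat_lit 8))
    (@En.n l35600 (nat_lit 12174) (nat_lit 4) (nat_lit 4))
    (@En.n l33965 (nat_lit 9942) (nat_lit 0) (nat_lit 12))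
    (@En.n l8649 (nat_lit 11969) (nat_lit 10) (nat_lit 6))
    (@En.n l3851 (nat_lit 11072) (nat_lit 7) (nat_lit 6))
    (@En.n l35601 (nat_lit 11809) (nat_lit 9) (nat_lit 12))
    (@En.n l33967 (nat_lit 8895) (nat_lit 11) (nat_lit 7))
    (@En.n l217 (nat_lit 11976) (nat_lit 10) (nat_lit 4))
    (@En.n l35602 (nat_lit 10697) (nat_lit 0) (nat_lit 8))
    (@En.n l8652 (nat_lit 11964) (nat_lit 6) (nat_lit 10))
    (@En.n l20548 (nat_lit 10477) (nat_lit 14) (nat_lit 10))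
    (@En.i (nat_lit 11968) (nat_lit 3) (nat_lit 12))
    (@En.n l29498 (nat_lit 11966) (nat_lit 15) (nat_lit 3))))
noncomputable def a748 : T16 Cl := @T16.mk Cl
  (@Cl.mk (nat_lit 0x400080007000c00070007000c00040009000800040009000c000900090007) (nat_lit 0x609007041016660) (nat_lit 16) Lb.e (@T16.mk En
    (@En.n l35602 (nat_lit 10695) (nat_lit 0) (nat_lit 7))
    (@En.n l8652 (nat_lit 12167) (nat_lit 7) (nat_lit 9))
    (@En.n l40723 (nat_lit 11855) (nat_lit 13) (nat_lit 9))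
    (@En.n l36579 (nat_lit 8043) (nat_lit 6) (nat_lit 12))
    (@En.n l40724 (nat_lit 2164) (nat_lit 11) (nat_lit 9))
    (@En.n l33959 (nat_lit 11087) (nat_lit 15) (nat_lit 4))
    (@En.n l40725 (nat_lit 75) (nat_lit 0) (nat_lit 8))
    (@En.n l33962 (nat_lit 10001) (nat_lit 1) (nat_lit 9))
    (@En.n l40726 (nat_lit 12169) (nat_lit 8) (nat_lit 4))
    (@En.n l40725 (nat_lit 9946) (nat_lit 0) (nat_lit 12))
    (@En.n l8649 (nat_lit 11970) (nat_lit 9) (nat_lit 7))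
    (@En.n l3851 (nat_lit 11074) (nat_lit 5) (nat_lit 7))
    (@En.n l40727 (nat_lit 11805) (nat_lit 13) (nat_lit 12))
    (@En.n l15467 (nat_lit 11967) (nat_lit 9) (nat_lit 7))
    (@En.n l40724 (nat_lit 10793) (nat_lit 11) (nat_lit 8))
    (@En.n l217 (nat_lit 11977) (nat_lit 15) (nat_lit 4))))
  (@Cl.mk (nat_lit 0x2000900050008000d0006000c00030007000d000400080003000b000e000a) (nat_lit 0x20350500a010568) (nat_lit 16) Lb.e (@T16.mk En
    (@En.n l1738 (nat_lit 11967) (nat_lit 13) (nat_lit 10))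
    (@En.i (nat_lit 10107) (nat_lit 4) (nat_lit 14))
    (@En.i (nat_lit 11970) (nat_lit 2) (nat_lit 11))
    (@En.i (nat_lit 11971) (nat_lit 3) (nat_lit 3))
    (@En.n l626 (nat_lit 1798) (nat_lit 4) (nat_lit 8))
    (@En.i (nat_lit 12080) (nat_lit 5) (nat_lit 4))
    (@En.i (nat_lit 2792) (nat_lit 7) (nat_lit 13))
    (@En.n l2644 (nat_lit 11004) (nat_lit 7) (nat_lit 7))
    (@En.i (nat_lit 12177) (nat_lit 8) (nat_lit 3))
    (@En.i (nat_lit 8943) (nat_lit 0) (nat_lit 12))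
    (@En.n l2644 (nat_lit 8777) (nat_lit 11) (nat_lit 6))
    (@En.n l15328 (nat_lit 12575) (nat_lit 12) (nat_lit 13))
    (@En.i (nat_lit 8868) (nat_lit 13) (nat_lit 8))
    (@En.n l17 (nat_lit 11972) (nat_lit 14) (nat_lit 5))
    (@En.i (nat_lit 11766) (nat_lit 5) (nat_lit 9))
    (@En.n l3 (nat_lit 11969) (nat_lit 15) (nat_lit 2))))
  (@Cl.mk (nat_lit 0x20008000500090008000d0007000c00030008000700040008000b000e0009) (nat_lit 0x402460304001457) (nat_lit 16) Lb.e (@T16.mk En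
    (@En.n l1738 (nat_lit 11968) (nat_lit 2) (nat_lit 9))
    (@En.n l37294 (nat_lit 6500) (nat_lit 4) (nat_lit 14))
    (@En.n l10436 (nat_lit 11666) (nat_lit 2) (nat_lit 11))
    (@En.n l14667 (nat_lit 1800) (nat_lit 3) (nat_lit 8))
    (@En.n l10436 (nat_lit 12082) (nat_lit 4) (nat_lit 4))
    (@En.n l5 (nat_lit 12483) (nat_lit 5) (nat_lit 7))
    (@En.n l17796 (nat_lit 11002) (nat_lit 6) (nat_lit 8))
    (@En.n l21848 (nat_lit 12181) (nat_lit 7) (nat_lit 3))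
    (@En.n l20174 (nat_lit 8942) (nat_lit 0) (nat_lit 12))
    (@En.n l2644 (nat_lit 8784) (nat_lit 10) (nat_lit 7))
    (@En.n l9384 (nat_lit 12644) (nat_lit 11) (nat_lit 13))
    (@En.n l50 (nat_lit 11969) (nat_lit 12) (nat_lit 8))
    (@En.i (nat_lit 7970) (nat_lit 13) (nat_lit 9))
    (@En.n l17 (nat_lit 11973) (nat_lit 14) (nat_lit 5))
    (@En.i (nat_lit 11947) (nat_lit 6) (nat_lit 8))
    (@En.n l3 (nat_lit 11970) (nat_lit 15) (nat_lit 2))))
  (@Cl.mk (nat_lit 0x2000900050009000d0006000b00030007000d000700050003000b000e000a) (nat_lit 0x20250200a000565) (nat_lit 16) Lb.e (@T16.mk En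
    (@En.n l7437 (nat_lit 11966) (nat_lit 13) (nat_lit 10))
    (@En.n l3138 (nat_lit 10106) (nat_lit 4) (nat_lit 14))
    (@En.n l19523 (nat_lit 11668) (nat_lit 2) (nat_lit 11))
    (@En.n l7 (nat_lit 11969) (nat_lit 3) (nat_lit 3))
    (@En.n l3138 (nat_lit 12089) (nat_lit 4) (nat_lit 5))
    (@En.n l644 (nat_lit 11970) (nat_lit 5) (nat_lit 7))
    (@En.i (nat_lit 2812) (nat_lit 7) (nat_lit 13))
    (@En.n l29739 (nat_lit 11006) (nat_lit 7) (nat_lit 7))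
    (@En.n l10435 (nat_lit 12178) (nat_lit 8) (nat_lit 3))
    (@En.n l3138 (nat_lit 7461) (nat_lit 0) (nat_lit 11))
    (@En.n l2644 (nat_lit 8786) (nat_lit 11) (nat_lit 6))
    (@En.n l5414 (nat_lit 12574) (nat_lit 12) (nat_lit 13))
    (@En.n l9771 (nat_lit 8860) (nat_lit 13) (nat_lit 9))
    (@En.n l17 (nat_lit 11974) (nat_lit 14) (nat_lit 5))
    (@En.i (nat_lit 11769) (nat_lit 5) (nat_lit 9))
    (@En.n l3 (nat_lit 11971) (nat_lit 15) (nat_lit 2))))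
  (@Cl.mk (nat_lit 0x200050008000d0005000c0003000a000d000400080003000b0006000e000b) (nat_lit 0x240a0640108079) (nat_lit 16) Lb.e (@T16.mk En
    (@En.i (nat_lit 11976) (nat_lit 12) (nat_lit 11))
    (@En.i (nat_lit 11969) (nat_lit 1) (nat_lit 14))
    (@En.i (nat_lit 11975) (nat_lit 2) (nat_lit 6))
    (@En.i (nat_lit 11973) (nat_lit 3) (nat_lit 11))
    (@En.i (nat_lit 11974) (nat_lit 4) (nat_lit 3))
    (@En.i (nat_lit 1793) (nat_lit 5) (nat_lit 8))
    (@En.i (nat_lit 12079) (nat_lit 6) (nat_lit 4))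
    (@En.i (nat_lit 3362) (nat_lit 8) (nat_lit 13))
    (@En.i (nat_lit 4447) (nat_lit 9) (nat_lit 10))
    (@En.i (nat_lit 12180) (nat_lit 9) (nat_lit 3))
    (@En.i (nat_lit 8945) (nat_lit 11) (nat_lit 12))
    (@En.n l117 (nat_lit 8781) (nat_lit 12) (nat_lit 5))
    (@En.i (nat_lit 12593) (nat_lit 13) (nat_lit 13))
    (@En.i (nat_lit 7595) (nat_lit 10) (nat_lit 8))
    (@En.i (nat_lit 10983) (nat_lit 13) (nat_lit 5))
    (@En.n l3 (nat_lit 11972) (nat_lit 15) (nat_lit 2))))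
  (@Cl.mk (nat_lit 0x2000500090008000d0006000c0003000b000700040008000b0005000e000a) (nat_lit 0x23505070027068) (nat_lit 16) Lb.e (@T16.mk En
    (@En.i (nat_lit 11977) (nat_lit 1) (nat_lit 10))
    (@En.i (nat_lit 11970) (nat_lit 1) (nat_lit 14))
    (@En.n l50 (nat_lit 6463) (nat_lit 2) (nat_lit 5))
    (@En.n l10436 (nat_lit 11669) (nat_lit 3) (nat_lit 11))
    (@En.i (nat_lit 1797) (nat_lit 4) (nat_lit 8))
    (@En.n l10436 (nat_lit 12081) (nat_lit 5) (nat_lit 4))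
    (@En.n l5 (nat_lit 12482) (nat_lit 6) (nat_lit 7))
    (@En.i (nat_lit 6567) (nat_lit 8) (nat_lit 11))
    (@En.i (nat_lit 12182) (nat_lit 8) (nat_lit 3))
    (@En.i (nat_lit 8944) (nat_lit 10) (nat_lit 12))
    (@En.n l117 (nat_lit 8782) (nat_lit 11) (nat_lit 6))
    (@En.n l17558 (nat_lit 12642) (nat_lit 12) (nat_lit 13))
    (@En.n l50 (nat_lit 11972) (nat_lit 13) (nat_lit 8))
    (@En.n l217 (nat_lit 11975) (nat_lit 14) (nat_lit 9))
    (@En.i (nat_lit 10981) (nat_lit 13) (nat_lit 5))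
    (@En.n l3 (nat_lit 11973) (nat_lit 15) (nat_lit 2))))
  (@Cl.mk (nat_lit 0x200050009000d0005000b0003000a000d000700050003000b0006000e000b) (nat_lit 0x14020690005076) (nat_lit 16) Lb.e (@T16.mk En
    (@En.i (nat_lit 10677) (nat_lit 12) (nat_lit 11))
    (@En.i (nat_lit 11971) (nat_lit 1) (nat_lit 14))
    (@En.n l15564 (nat_lit 11979) (nat_lit 2) (nat_lit 6))
    (@En.i (nat_lit 11664) (nat_lit 3) (nat_lit 11))
    (@En.n l7 (nat_lit 11972) (nat_lit 4) (nat_lit 3))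
    (@En.n l4739 (nat_lit 12085) (nat_lit 5) (nat_lit 5))
    (@En.n l644 (nat_lit 11973) (nat_lit 6) (nat_lit 7))
    (@En.i (nat_lit 3363) (nat_lit 8) (nat_lit 13))
    (@En.n l564 (nat_lit 4446) (nat_lit 9) (nat_lit 10))
    (@En.i (nat_lit 12179) (nat_lit 9) (nat_lit 3))
    (@En.n l1162 (nat_lit 7459) (nat_lit 11) (nat_lit 11))
    (@En.n l117 (nat_lit 8785) (nat_lit 12) (nat_lit 5))
    (@En.n l16585 (nat_lit 12580) (nat_lit 13) (nat_lit 13))
    (@En.i (nat_lit 4290) (nat_lit 14) (nat_lit 9))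
    (@En.i (nat_lit 12205) (nat_lit 13) (nat_lit 5))
    (@En.n l3 (nat_lit 11974) (nat_lit 15) (nat_lit 2))))
  (@Cl.mk (nat_lit 0x200090007000d0005000b0003000a0007000d0005000900030006000e000b) (nat_lit 0x104090605010079) (nat_lit 16) Lb.e (@T16.mk En
    (@En.i (nat_lit 11978) (nat_lit 13) (nat_lit 11))
    (@En.n l18 (nat_lit 7970) (nat_lit 1) (nat_lit 14))
    (@En.n l9072 (nat_lit 11631) (nat_lit 12) (nat_lit 6))
    (@En.n l15564 (nat_lit 11979) (nat_lit 3) (nat_lit 3))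
    (@En.n l1724 (nat_lit 1796) (nat_lit 0) (nat_lit 9))
    (@En.i (nat_lit 12078) (nat_lit 5) (nat_lit 5))
    (@En.n l18 (nat_lit 11972) (nat_lit 7) (nat_lit 13))
    (@En.n l61 (nat_lit 11969) (nat_lit 7) (nat_lit 7))
    (@En.i (nat_lit 4445) (nat_lit 9) (nat_lit 10))
    (@En.i (nat_lit 12183) (nat_lit 9) (nat_lit 3))
    (@En.i (nat_lit 8946) (nat_lit 0) (nat_lit 11))
    (@En.n l117 (nat_lit 8783) (nat_lit 7) (nat_lit 5))
    (@En.n l9068 (nat_lit 12592) (nat_lit 13) (nat_lit 13))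
    (@En.n l2179 (nat_lit 7593) (nat_lit 14) (nat_lit 7))
    (@En.i (nat_lit 11629) (nat_lit 11) (nat_lit 9))
    (@En.n l3 (nat_lit 11975) (nat_lit 15) (nat_lit 2))))
  (@Cl.mk (nat_lit 0x3000c0006000b000b00040007000c00050005000c0004000a000d00040009) (nat_lit 0x808800800507502) (nat_lit 16) Lb.e (@T16.mk En
    (@En.n l766 (nat_lit 2462) (nat_lit 0) (nat_lit 9))
    (@En.i (nat_lit 11177) (nat_lit 6) (nat_lit 4))
    (@En.i (nat_lit 2778) (nat_lit 5) (nat_lit 13))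
    (@En.n l2213 (nat_lit 6298) (nat_lit 1) (nat_lit 10))
    (@En.i (nat_lit 12184) (nat_lit 4) (nat_lit 4))
    (@En.n l9967 (nat_lit 9950) (nat_lit 0) (nat_lit 12))
    (@En.n l152 (nat_lit 11972) (nat_lit 11) (nat_lit 5))
    (@En.n l3851 (nat_lit 10655) (nat_lit 7) (nat_lit 5))
    (@En.n l4130 (nat_lit 12583) (nat_lit 9) (nat_lit 12))
    (@En.n l387 (nat_lit 7600) (nat_lit 11) (nat_lit 7))
    (@En.i (nat_lit 11107) (nat_lit 10) (nat_lit 4))
    (@En.n l3536 (nat_lit 11959) (nat_lit 5) (nat_lit 11))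
    (@En.n l4817 (nat_lit 11101) (nat_lit 1) (nat_lit 11))
    (@En.i (nat_lit 11978) (nat_lit 14) (nat_lit 6))
    (@En.i (nat_lit 11977) (nat_lit 3) (nat_lit 12))
    (@En.i (nat_lit 10677) (nat_lit 15) (nat_lit 3))))
  (@Cl.mk (nat_lit 0x400080007000c00060006000c0004000b000800040009000c0005000a000a) (nat_lit 0x208006082027076) (nat_lit 16) Lb.e (@T16.mk En
    (@En.n l3536 (nat_lit 11963) (nat_lit 6) (nat_lit 10))
    (@En.n l4817 (nat_lit 11103) (nat_lit 1) (nat_lit 10))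
    (@En.n l9072 (nat_lit 7574) (nat_lit 9) (nat_lit 5))
    (@En.n l10436 (nat_lit 11403) (nat_lit 6) (nat_lit 12))
    (@En.n l14666 (nat_lit 2437) (nat_lit 11) (nat_lit 9))
    (@En.n l10436 (nat_lit 11178) (nat_lit 15) (nat_lit 4))
    (@En.i (nat_lit 10606) (nat_lit 0) (nat_lit 8))
    (@En.n l2213 (nat_lit 6299) (nat_lit 1) (nat_lit 11))
    (@En.i (nat_lit 12192) (nat_lit 8) (nat_lit 4))
    (@En.n l9967 (nat_lit 9877) (nat_lit 0) (nat_lit 12))
    (@En.n l152 (nat_lit 11973) (nat_lit 10) (nat_lit 6))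
    (@En.n l3851 (nat_lit 10652) (nat_lit 5) (nat_lit 6))
    (@En.n l36866 (nat_lit 12361) (nat_lit 13) (nat_lit 12))
    (@En.n l50 (nat_lit 11976) (nat_lit 9) (nat_lit 7))
    (@En.n l217 (nat_lit 11978) (nat_lit 11) (nat_lit 8))
    (@En.i (nat_lit 11109) (nat_lit 15) (nat_lit 4))))
  (@Cl.mk (nat_lit 0x30006000b000b00080006000c00050005000b0004000a0008000d0005000a) (nat_lit 0x82107008075603) (nat_lit 16) Lb.e (@T16.mk En
    (@En.n l1724 (nat_lit 2461) (nat_lit 0) (nat_lit 10))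
    (@En.n l9072 (nat_lit 9738) (nat_lit 8) (nat_lit 5))
    (@En.n l18 (nat_lit 11976) (nat_lit 2) (nat_lit 13))
    (@En.n l18 (nat_lit 11967) (nat_lit 3) (nat_lit 8))
    (@En.n l19951 (nat_lit 6292) (nat_lit 4) (nat_lit 10))
    (@En.i (nat_lit 10046) (nat_lit 5) (nat_lit 4))
    (@En.n l9967 (nat_lit 9803) (nat_lit 0) (nat_lit 11))
    (@En.n l152 (nat_lit 11975) (nat_lit 11) (nat_lit 5))
    (@En.n l3851 (nat_lit 10676) (nat_lit 8) (nat_lit 5))
    (@En.n l9068 (nat_lit 12435) (nat_lit 10) (nat_lit 12))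
    (@En.n l9069 (nat_lit 5496) (nat_lit 10) (nat_lit 6))
    (@En.n l7231 (nat_lit 10698) (nat_lit 12) (nat_lit 8))
    (@En.n l3536 (nat_lit 11961) (nat_lit 5) (nat_lit 11))
    (@En.n l19952 (nat_lit 11986) (nat_lit 14) (nat_lit 11))
    (@En.n l9072 (nat_lit 7575) (nat_lit 12) (nat_lit 6))
    (@En.n l9068 (nat_lit 10674) (nat_lit 15) (nat_lit 3))))
  (@Cl.mk (nat_lit 0x200090008000d0005000a0003000a0007000d0008000600030006000e000b) (nat_lit 0x51402060a200075) (nat_lit 16) Lb.e (@T16.mk En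
    (@En.n l17561 (nat_lit 10674) (nat_lit 13) (nat_lit 11))
    (@En.n l1690 (nat_lit 7969) (nat_lit 1) (nat_lit 14))
    (@En.n l6825 (nat_lit 7963) (nat_lit 2) (nat_lit 6))
    (@En.n l28161 (nat_lit 11975) (nat_lit 3) (nat_lit 3))
    (@En.n l16834 (nat_lit 12090) (nat_lit 0) (nat_lit 6))
    (@En.n l28162 (nat_lit 6463) (nat_lit 5) (nat_lit 8))
    (@En.n l7088 (nat_lit 11974) (nat_lit 7) (nat_lit 13))
    (@En.n l28163 (nat_lit 11971) (nat_lit 7) (nat_lit 7))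
    (@En.n l28164 (nat_lit 4444) (nat_lit 9) (nat_lit 10))
    (@En.n l2364 (nat_lit 12161) (nat_lit 9) (nat_lit 3))
    (@En.n l5588 (nat_lit 7460) (nat_lit 0) (nat_lit 10))
    (@En.n l1075 (nat_lit 8787) (nat_lit 7) (nat_lit 5))
    (@En.n l1865 (nat_lit 12589) (nat_lit 13) (nat_lit 13))
    (@En.n l3082 (nat_lit 4291) (nat_lit 14) (nat_lit 8))
    (@En.n l9591 (nat_lit 11951) (nat_lit 11) (nat_lit 9))
    (@En.n l50 (nat_lit 11979) (nat_lit 15) (nat_lit 2))))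
  (@Cl.mk (nat_lit 0x30009000d000a00090003000a000800070006000c00070006000d00040008) (nat_lit 0x463604600500302) (nat_lit 16) Lb.e (@T16.mk En
    (@En.n l41779 (nat_lit 6385) (nat_lit 0) (nat_lit 8))
    (@En.n l33406 (nat_lit 10420) (nat_lit 6) (nat_lit 4))
    (@En.n l36993 (nat_lit 10547) (nat_lit 8) (nat_lit 13))
    (@En.n l50 (nat_lit 10459) (nat_lit 1) (nat_lit 6))
    (@En.i (nat_lit 10424) (nat_lit 4) (nat_lit 7))
    (@En.n l3548 (nat_lit 11714) (nat_lit 11) (nat_lit 12))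
    (@En.n l575 (nat_lit 10288) (nat_lit 10) (nat_lit 6))
    (@En.n l5294 (nat_lit 11847) (nat_lit 7) (nat_lit 7))
    (@En.n l41780 (nat_lit 12371) (nat_lit 14) (nat_lit 8))
    (@En.n l36993 (nat_lit 9620) (nat_lit 10) (nat_lit 10))
    (@En.n l41609 (nat_lit 11982) (nat_lit 10) (nat_lit 3))
    (@En.n l32729 (nat_lit 11041) (nat_lit 0) (nat_lit 9))
    (@En.n l41781 (nat_lit 11289) (nat_lit 13) (nat_lit 10))
    (@En.n l41782 (nat_lit 11627) (nat_lit 6) (nat_lit 13))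
    (@En.n l41783 (nat_lit 10909) (nat_lit 3) (nat_lit 9))
    (@En.n l33404 (nat_lit 11981) (nat_lit 15) (nat_lit 3))))
  (@Cl.mk (nat_lit 0x30009000d000a00090003000a000900070006000b00070006000d00070005) (nat_lit 0x765504500300300) (nat_lit 16) Lb.e (@T16.mk En
    (@En.n l11401 (nat_lit 7086) (nat_lit 0) (nat_lit 5))
    (@En.n l14256 (nat_lit 10005) (nat_lit 6) (nat_lit 7))
    (@En.n l37358 (nat_lit 10540) (nat_lit 8) (nat_lit 13))
    (@En.n l1003 (nat_lit 10461) (nat_lit 3) (nat_lit 6))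
    (@En.n l1131 (nat_lit 11302) (nat_lit 4) (nat_lit 7))
    (@En.n l16865 (nat_lit 11845) (nat_lit 11) (nat_lit 11))
    (@En.n l644 (nat_lit 8698) (nat_lit 10) (nat_lit 6))
    (@En.n l21492 (nat_lit 11849) (nat_lit 7) (nat_lit 7))
    (@En.n l11403 (nat_lit 10765) (nat_lit 7) (nat_lit 9))
    (@En.n l36168 (nat_lit 9618) (nat_lit 10) (nat_lit 10))
    (@En.i (nat_lit 11983) (nat_lit 10) (nat_lit 3))
    (@En.n l32636 (nat_lit 11038) (nat_lit 0) (nat_lit 9))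
    (@En.n l37359 (nat_lit 11290) (nat_lit 13) (nat_lit 10))
    (@En.n l396 (nat_lit 11989) (nat_lit 6) (nat_lit 13))
    (@En.n l37350 (nat_lit 12053) (nat_lit 3) (nat_lit 9))
    (@En.n l11469 (nat_lit 11980) (nat_lit 15) (nat_lit 3))))
  (@Cl.mk (nat_lit 0x30009000d0008000b0003000a000800070005000c00080006000d00040008) (nat_lit 0x464302500750302) (nat_lit 16) Lb.e (@T16.mk En
    (@En.n l29302 (nat_lit 5439) (nat_lit 0) (nat_lit 8))
    (@En.n l345 (nat_lit 10425) (nat_lit 6) (nat_lit 4))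
    (@En.n l29303 (nat_lit 10548) (nat_lit 8) (nat_lit 13))
    (@En.i (nat_lit 10462) (nat_lit 1) (nat_lit 6))
    (@En.n l18752 (nat_lit 11984) (nat_lit 4) (nat_lit 8))
    (@En.n l23945 (nat_lit 11715) (nat_lit 11) (nat_lit 12))
    (@En.n l23187 (nat_lit 8766) (nat_lit 6) (nat_lit 5))
    (@En.i (nat_lit 10296) (nat_lit 7) (nat_lit 7))
    (@En.n l23187 (nat_lit 12585) (nat_lit 14) (nat_lit 8))
    (@En.n l10393 (nat_lit 10504) (nat_lit 10) (nat_lit 10))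
    (@En.n l29304 (nat_lit 11980) (nat_lit 10) (nat_lit 3))
    (@En.n l18153 (nat_lit 6997) (nat_lit 7) (nat_lit 11))
    (@En.n l29305 (nat_lit 11579) (nat_lit 13) (nat_lit 8))
    (@En.n l23180 (nat_lit 11991) (nat_lit 6) (nat_lit 13))
    (@En.n l29306 (nat_lit 10906) (nat_lit 3) (nat_lit 9))
    (@En.n l29307 (nat_lit 11983) (nat_lit 15) (nat_lit 3))))
  (@Cl.mk (nat_lit 0x30009000d0008000b0003000a000900070005000b00080006000d00070005) (nat_lit 0x463302500340200) (nat_lit 16) Lb.e (@T16.mk En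
    (@En.n l11401 (nat_lit 7090) (nat_lit 0) (nat_lit 5))
    (@En.n l21487 (nat_lit 10790) (nat_lit 6) (nat_lit 7))
    (@En.n l21488 (nat_lit 10541) (nat_lit 8) (nat_lit 13))
    (@En.n l21487 (nat_lit 10464) (nat_lit 3) (nat_lit 6))
    (@En.n l1131 (nat_lit 11985) (nat_lit 4) (nat_lit 8))
    (@En.i (nat_lit 11846) (nat_lit 11) (nat_lit 11))
    (@En.i (nat_lit 8762) (nat_lit 6) (nat_lit 5))
    (@En.n l21489 (nat_lit 10295) (nat_lit 7) (nat_lit 7))
    (@En.n l21490 (nat_lit 10767) (nat_lit 7) (nat_lit 9))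
    (@En.n l21491 (nat_lit 10503) (nat_lit 10) (nat_lit 10))
    (@En.n l18 (nat_lit 11981) (nat_lit 10) (nat_lit 3))
    (@En.n l21492 (nat_lit 6998) (nat_lit 7) (nat_lit 11))
    (@En.n l21493 (nat_lit 11580) (nat_lit 13) (nat_lit 8))
    (@En.n l21494 (nat_lit 11988) (nat_lit 6) (nat_lit 13))
    (@En.n l21495 (nat_lit 12051) (nat_lit 3) (nat_lit 9))
    (@En.n l21496 (nat_lit 11982) (nat_lit 15) (nat_lit 3))))
noncomputable def a749 : T16 Cl := @T16.mk Cl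
  (@Cl.mk (nat_lit 0x30008000c00080006000b0004000b00090008000500080005000d000a0007) (nat_lit 0x565040731040910) (nat_lit 16) Lb.e (@T16.mk En
    (@En.n l41760 (nat_lit 5438) (nat_lit 0) (nat_lit 7))
    (@En.n l41761 (nat_lit 8013) (nat_lit 12) (nat_lit 10))
    (@En.n l41762 (nat_lit 11757) (nat_lit 2) (nat_lit 13))
    (@En.n l5801 (nat_lit 11816) (nat_lit 3) (nat_lit 5))
    (@En.n l41763 (nat_lit 12073) (nat_lit 10) (nat_lit 8))
    (@En.n l41764 (nat_lit 8768) (nat_lit 5) (nat_lit 5))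
    (@En.i (nat_lit 10298) (nat_lit 6) (nat_lit 8))
    (@En.n l41765 (nat_lit 12586) (nat_lit 7) (nat_lit 9))
    (@En.n l41766 (nat_lit 11865) (nat_lit 9) (nat_lit 11))
    (@En.n l41767 (nat_lit 10424) (nat_lit 9) (nat_lit 4))
    (@En.n l5801 (nat_lit 11982) (nat_lit 11) (nat_lit 11))
    (@En.n l41762 (nat_lit 10703) (nat_lit 1) (nat_lit 6))
    (@En.n l31443 (nat_lit 11582) (nat_lit 13) (nat_lit 8))
    (@En.n l41761 (nat_lit 12015) (nat_lit 7) (nat_lit 12))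
    (@En.n l41768 (nat_lit 10904) (nat_lit 4) (nat_lit 8))
    (@En.n l41769 (nat_lit 11985) (nat_lit 15) (nat_lit 3))))
  (@Cl.mk (nat_lit 0x30008000c00080005000b0004000b000a0008000500080005000d0006000b) (nat_lit 0x484040761030906) (nat_lit 16) Lb.e (@T16.mk En
    (@En.n l37342 (nat_lit 10530) (nat_lit 0) (nat_lit 11))
    (@En.n l36475 (nat_lit 10791) (nat_lit 7) (nat_lit 6))
    (@En.n l37343 (nat_lit 11759) (nat_lit 2) (nat_lit 13))
    (@En.n l37344 (nat_lit 11793) (nat_lit 3) (nat_lit 5))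
    (@En.n l37345 (nat_lit 12358) (nat_lit 10) (nat_lit 8))
    (@En.n l33139 (nat_lit 8767) (nat_lit 5) (nat_lit 5))
    (@En.n l37346 (nat_lit 10299) (nat_lit 6) (nat_lit 8))
    (@En.n l37347 (nat_lit 10769) (nat_lit 6) (nat_lit 10))
    (@En.n l37348 (nat_lit 11862) (nat_lit 9) (nat_lit 11))
    (@En.n l50 (nat_lit 11302) (nat_lit 9) (nat_lit 4))
    (@En.n l6042 (nat_lit 11983) (nat_lit 11) (nat_lit 11))
    (@En.n l11706 (nat_lit 11986) (nat_lit 1) (nat_lit 5))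
    (@En.n l37349 (nat_lit 11581) (nat_lit 13) (nat_lit 8))
    (@En.i (nat_lit 11992) (nat_lit 7) (nat_lit 12))
    (@En.n l36865 (nat_lit 12050) (nat_lit 12) (nat_lit 8))
    (@En.n l31157 (nat_lit 11984) (nat_lit 15) (nat_lit 3))))
  (@Cl.mk (nat_lit 0x3000b000a00070005000b0005000c0006000b000500040009000d0005000b) (nat_lit 0x750030405002403) (nat_lit 16) Lb.e (@T16.mk En
    (@En.n l35664 (nat_lit 6999) (nat_lit 0) (nat_lit 11))
    (@En.n l35665 (nat_lit 67) (nat_lit 5) (nat_lit 5))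
    (@En.i (nat_lit 11101) (nat_lit 6) (nat_lit 13))
    (@En.n l35666 (nat_lit 10477) (nat_lit 3) (nat_lit 9))
    (@En.n l28554 (nat_lit 11817) (nat_lit 12) (nat_lit 4))
    (@En.n l35667 (nat_lit 11983) (nat_lit 0) (nat_lit 5))
    (@En.i (nat_lit 10155) (nat_lit 1) (nat_lit 11))
    (@En.n l35668 (nat_lit 10793) (nat_lit 7) (nat_lit 6))
    (@En.n l35669 (nat_lit 11151) (nat_lit 9) (nat_lit 12))
    (@En.n l35670 (nat_lit 11789) (nat_lit 9) (nat_lit 5))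
    (@En.n l29242 (nat_lit 10637) (nat_lit 11) (nat_lit 11))
    (@En.n l35664 (nat_lit 12459) (nat_lit 11) (nat_lit 5))
    (@En.n l35670 (nat_lit 9203) (nat_lit 13) (nat_lit 7))
    (@En.n l35671 (nat_lit 10764) (nat_lit 14) (nat_lit 10))
    (@En.n l35672 (nat_lit 9872) (nat_lit 2) (nat_lit 11))
    (@En.n l19517 (nat_lit 11987) (nat_lit 15) (nat_lit 3))))
  (@Cl.mk (nat_lit 0x3000b000a00070006000b0005000c0006000a000500040009000d000a0006) (nat_lit 0x310060408002310) (nat_lit 16) Lb.e (@T16.mk En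
    (@En.n l8776 (nat_lit 10994) (nat_lit 0) (nat_lit 6))
    (@En.n l30781 (nat_lit 10284) (nat_lit 13) (nat_lit 10))
    (@En.n l42714 (nat_lit 11102) (nat_lit 6) (nat_lit 13))
    (@En.n l22329 (nat_lit 10479) (nat_lit 3) (nat_lit 9))
    (@En.n l28285 (nat_lit 11819) (nat_lit 12) (nat_lit 4))
    (@En.n l5646 (nat_lit 11981) (nat_lit 0) (nat_lit 5))
    (@En.n l8776 (nat_lit 10811) (nat_lit 9) (nat_lit 10))
    (@En.n l21574 (nat_lit 10116) (nat_lit 7) (nat_lit 6))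
    (@En.n l617 (nat_lit 11153) (nat_lit 9) (nat_lit 12))
    (@En.i (nat_lit 11790) (nat_lit 9) (nat_lit 5))
    (@En.n l345 (nat_lit 12442) (nat_lit 11) (nat_lit 11))
    (@En.n l77 (nat_lit 12457) (nat_lit 10) (nat_lit 6))
    (@En.n l41709 (nat_lit 9204) (nat_lit 13) (nat_lit 7))
    (@En.n l42715 (nat_lit 41) (nat_lit 6) (nat_lit 10))
    (@En.i (nat_lit 9841) (nat_lit 10) (nat_lit 11))
    (@En.n l29989 (nat_lit 11986) (nat_lit 15) (nat_lit 3))))
  (@Cl.mk (nat_lit 0x30006000b00090006000d000700050003000d0007000a0003000d000a0009) (nat_lit 0x47020005020966) (nat_lit 16) Lb.e (@T16.mk En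
    (@En.n l24554 (nat_lit 12348) (nat_lit 0) (nat_lit 9))
    (@En.n l24555 (nat_lit 12052) (nat_lit 14) (nat_lit 10))
    (@En.n l24556 (nat_lit 11990) (nat_lit 2) (nat_lit 13))
    (@En.n l9601 (nat_lit 11989) (nat_lit 3) (nat_lit 3))
    (@En.n l24557 (nat_lit 6756) (nat_lit 8) (nat_lit 10))
    (@En.n l24558 (nat_lit 11949) (nat_lit 5) (nat_lit 7))
    (@En.n l6080 (nat_lit 4225) (nat_lit 7) (nat_lit 13))
    (@En.n l16979 (nat_lit 11991) (nat_lit 7) (nat_lit 3))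
    (@En.n l18 (nat_lit 10014) (nat_lit 0) (nat_lit 5))
    (@En.n l24559 (nat_lit 12174) (nat_lit 5) (nat_lit 7))
    (@En.i (nat_lit 10543) (nat_lit 11) (nat_lit 13))
    (@En.n l8240 (nat_lit 10448) (nat_lit 7) (nat_lit 6))
    (@En.n l24560 (nat_lit 11992) (nat_lit 13) (nat_lit 9))
    (@En.n l5891 (nat_lit 11848) (nat_lit 14) (nat_lit 11))
    (@En.i (nat_lit 9281) (nat_lit 12) (nat_lit 6))
    (@En.n l8242 (nat_lit 12009) (nat_lit 15) (nat_lit 3))))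
  (@Cl.mk (nat_lit 0x30007000b00080006000d000700050003000d000900080003000d000a0009) (nat_lit 0x45020005250966) (nat_lit 16) Lb.e (@T16.mk En
    (@En.n l619 (nat_lit 12346) (nat_lit 0) (nat_lit 9))
    (@En.n l14173 (nat_lit 12054) (nat_lit 14) (nat_lit 10))
    (@En.n l6042 (nat_lit 11390) (nat_lit 2) (nat_lit 13))
    (@En.n l22216 (nat_lit 11988) (nat_lit 3) (nat_lit 3))
    (@En.n l32292 (nat_lit 12224) (nat_lit 0) (nat_lit 8))
    (@En.i (nat_lit 11990) (nat_lit 5) (nat_lit 9))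
    (@En.n l3524 (nat_lit 4224) (nat_lit 2) (nat_lit 13))
    (@En.n l29317 (nat_lit 11627) (nat_lit 7) (nat_lit 3))
    (@En.n l14173 (nat_lit 10010) (nat_lit 0) (nat_lit 5))
    (@En.i (nat_lit 12176) (nat_lit 5) (nat_lit 7))
    (@En.n l11434 (nat_lit 10542) (nat_lit 11) (nat_lit 13))
    (@En.n l16584 (nat_lit 10447) (nat_lit 7) (nat_lit 6))
    (@En.n l403 (nat_lit 10929) (nat_lit 13) (nat_lit 8))
    (@En.n l16584 (nat_lit 11847) (nat_lit 8) (nat_lit 11))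
    (@En.i (nat_lit 10292) (nat_lit 12) (nat_lit 7))
    (@En.n l36354 (nat_lit 12008) (nat_lit 15) (nat_lit 3))))
  (@Cl.mk (nat_lit 0x300070006000b00090007000d00080005000300090007000a000d00090008) (nat_lit 0x5405400101855) (nat_lit 16) Lb.e (@T16.mk En
    (@En.n l37583 (nat_lit 12271) (nat_lit 0) (nat_lit 8))
    (@En.n l28213 (nat_lit 11859) (nat_lit 11) (nat_lit 9))
    (@En.n l37584 (nat_lit 11385) (nat_lit 5) (nat_lit 13))
    (@En.n l37585 (nat_lit 6752) (nat_lit 8) (nat_lit 10))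
    (@En.n l37584 (nat_lit 11945) (nat_lit 14) (nat_lit 7))
    (@En.n l37586 (nat_lit 10031) (nat_lit 5) (nat_lit 9))
    (@En.n l37587 (nat_lit 11951) (nat_lit 6) (nat_lit 3))
    (@En.n l37588 (nat_lit 10021) (nat_lit 0) (nat_lit 5))
    (@En.n l36521 (nat_lit 12169) (nat_lit 9) (nat_lit 8))
    (@En.n l21494 (nat_lit 10544) (nat_lit 10) (nat_lit 13))
    (@En.n l16584 (nat_lit 10450) (nat_lit 3) (nat_lit 7))
    (@En.n l37589 (nat_lit 11993) (nat_lit 12) (nat_lit 9))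
    (@En.i (nat_lit 11995) (nat_lit 13) (nat_lit 11))
    (@En.n l37590 (nat_lit 11988) (nat_lit 14) (nat_lit 6))
    (@En.i (nat_lit 11983) (nat_lit 7) (nat_lit 7))
    (@En.n l37591 (nat_lit 12010) (nat_lit 15) (nat_lit 3))))
  (@Cl.mk (nat_lit 0x30006000c00090006000d000400080003000d0007000a0003000d000a0008) (nat_lit 0x77020205020535) (nat_lit 16) Lb.e (@T16.mk En
    (@En.n l1897 (nat_lit 12601) (nat_lit 0) (nat_lit 8))
    (@En.n l1101 (nat_lit 12055) (nat_lit 14) (nat_lit 10))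
    (@En.n l9591 (nat_lit 11951) (nat_lit 2) (nat_lit 13))
    (@En.n l152 (nat_lit 11627) (nat_lit 3) (nat_lit 3))
    (@En.n l3082 (nat_lit 6751) (nat_lit 8) (nat_lit 10))
    (@En.n l97 (nat_lit 11950) (nat_lit 5) (nat_lit 7))
    (@En.n l12290 (nat_lit 10028) (nat_lit 7) (nat_lit 13))
    (@En.n l32241 (nat_lit 11988) (nat_lit 7) (nat_lit 3))
    (@En.n l5588 (nat_lit 6539) (nat_lit 0) (nat_lit 8))
    (@En.n l1075 (nat_lit 12023) (nat_lit 9) (nat_lit 4))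
    (@En.n l5376 (nat_lit 10549) (nat_lit 11) (nat_lit 13))
    (@En.n l9874 (nat_lit 10449) (nat_lit 1) (nat_lit 6))
    (@En.n l32242 (nat_lit 12015) (nat_lit 13) (nat_lit 9))
    (@En.n l12876 (nat_lit 9201) (nat_lit 14) (nat_lit 12))
    (@En.n l9874 (nat_lit 9279) (nat_lit 12) (nat_lit 6))
    (@En.n l1792 (nat_lit 11628) (nat_lit 15) (nat_lit 3))))
  (@Cl.mk (nat_lit 0x3000600090005000d0006000c0003000c00070004000a0004000d000b000a) (nat_lit 0x60a02070030578) (nat_lit 16) Lb.e (@T16.mk En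
    (@En.n l619 (nat_lit 12357) (nat_lit 0) (nat_lit 10))
    (@En.n l28193 (nat_lit 11866) (nat_lit 9) (nat_lit 11))
    (@En.n l38495 (nat_lit 11993) (nat_lit 2) (nat_lit 13))
    (@En.n l50 (nat_lit 10929) (nat_lit 3) (nat_lit 4))
    (@En.n l22216 (nat_lit 11988) (nat_lit 4) (nat_lit 10))
    (@En.n l11706 (nat_lit 11101) (nat_lit 5) (nat_lit 4))
    (@En.i (nat_lit 10547) (nat_lit 6) (nat_lit 7))
    (@En.n l3523 (nat_lit 4227) (nat_lit 8) (nat_lit 12))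
    (@En.i (nat_lit 12015) (nat_lit 8) (nat_lit 3))
    (@En.n l11706 (nat_lit 10527) (nat_lit 0) (nat_lit 12))
    (@En.i (nat_lit 12175) (nat_lit 11) (nat_lit 6))
    (@En.n l17134 (nat_lit 11758) (nat_lit 12) (nat_lit 13))
    (@En.n l3518 (nat_lit 10632) (nat_lit 3) (nat_lit 5))
    (@En.n l6293 (nat_lit 12043) (nat_lit 9) (nat_lit 9))
    (@En.i (nat_lit 9282) (nat_lit 12) (nat_lit 6))
    (@En.n l15575 (nat_lit 12011) (nat_lit 15) (nat_lit 3))))
  (@Cl.mk (nat_lit 0x30008000600090006000d0007000c0003000800070004000a000d000a0009) (nat_lit 0x203060203002457) (nat_lit 16) Lb.e (@T16.mk En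
    (@En.n l42730 (nat_lit 12272) (nat_lit 0) (nat_lit 9))
    (@En.n l4245 (nat_lit 11856) (nat_lit 10) (nat_lit 10))
    (@En.n l3851 (nat_lit 7729) (nat_lit 5) (nat_lit 13))
    (@En.n l42731 (nat_lit 11990) (nat_lit 3) (nat_lit 10))
    (@En.n l32598 (nat_lit 11103) (nat_lit 4) (nat_lit 4))
    (@En.n l42732 (nat_lit 10546) (nat_lit 14) (nat_lit 7))
    (@En.n l2403 (nat_lit 10731) (nat_lit 6) (nat_lit 8))
    (@En.n l17104 (nat_lit 12016) (nat_lit 7) (nat_lit 3))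
    (@En.n l2383 (nat_lit 10525) (nat_lit 0) (nat_lit 12))
    (@En.n l42733 (nat_lit 12173) (nat_lit 10) (nat_lit 7))
    (@En.n l38370 (nat_lit 11760) (nat_lit 11) (nat_lit 13))
    (@En.i (nat_lit 10633) (nat_lit 3) (nat_lit 6))
    (@En.n l2383 (nat_lit 12331) (nat_lit 9) (nat_lit 9))
    (@En.n l42734 (nat_lit 11992) (nat_lit 14) (nat_lit 6))
    (@En.n l42735 (nat_lit 11985) (nat_lit 6) (nat_lit 8))
    (@En.n l117 (nat_lit 12012) (nat_lit 15) (nat_lit 3))))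
  (@Cl.mk (nat_lit 0x30007000b00080005000c00080005000c0004000900080004000d0008000b) (nat_lit 0x74094030230642) (nat_lit 16) Lb.e (@T16.mk En
    (@En.n l8772 (nat_lit 8130) (nat_lit 0) (nat_lit 11))
    (@En.n l16978 (nat_lit 11078) (nat_lit 14) (nat_lit 8))
    (@En.n l16979 (nat_lit 10491) (nat_lit 2) (nat_lit 13))
    (@En.n l16980 (nat_lit 11112) (nat_lit 3) (nat_lit 4))
    (@En.n l16981 (nat_lit 11991) (nat_lit 8) (nat_lit 8))
    (@En.n l9876 (nat_lit 10960) (nat_lit 5) (nat_lit 9))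
    (@En.n l1992 (nat_lit 10409) (nat_lit 6) (nat_lit 4))
    (@En.n l8772 (nat_lit 12012) (nat_lit 8) (nat_lit 12))
    (@En.n l6081 (nat_lit 8877) (nat_lit 8) (nat_lit 5))
    (@En.n l16982 (nat_lit 11901) (nat_lit 10) (nat_lit 8))
    (@En.n l18 (nat_lit 10422) (nat_lit 11) (nat_lit 12))
    (@En.n l16983 (nat_lit 10089) (nat_lit 4) (nat_lit 5))
    (@En.i (nat_lit 11998) (nat_lit 13) (nat_lit 8))
    (@En.n l3518 (nat_lit 10295) (nat_lit 8) (nat_lit 11))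
    (@En.n l16984 (nat_lit 10084) (nat_lit 12) (nat_lit 7))
    (@En.n l16985 (nat_lit 11995) (nat_lit 15) (nat_lit 3))))
  (@Cl.mk (nat_lit 0x30007000b00080006000c00070005000c0004000900080004000d000a0009) (nat_lit 0x44090030430325) (nat_lit 16) Lb.e (@T16.mk En
    (@En.n l32523 (nat_lit 12263) (nat_lit 0) (nat_lit 9))
    (@En.n l14173 (nat_lit 10083) (nat_lit 14) (nat_lit 10))
    (@En.n l18 (nat_lit 10488) (nat_lit 2) (nat_lit 13))
    (@En.n l32524 (nat_lit 11116) (nat_lit 3) (nat_lit 4))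
    (@En.n l32525 (nat_lit 11627) (nat_lit 8) (nat_lit 8))
    (@En.n l7 (nat_lit 12022) (nat_lit 5) (nat_lit 9))
    (@En.n l32526 (nat_lit 10713) (nat_lit 6) (nat_lit 4))
    (@En.n l32036 (nat_lit 11993) (nat_lit 8) (nat_lit 12))
    (@En.n l32527 (nat_lit 9794) (nat_lit 8) (nat_lit 5))
    (@En.n l27266 (nat_lit 12001) (nat_lit 10) (nat_lit 7))
    (@En.n l31017 (nat_lit 11794) (nat_lit 11) (nat_lit 12))
    (@En.n l32528 (nat_lit 10636) (nat_lit 4) (nat_lit 6))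
    (@En.n l32529 (nat_lit 11997) (nat_lit 13) (nat_lit 8))
    (@En.n l16584 (nat_lit 11849) (nat_lit 8) (nat_lit 11))
    (@En.i (nat_lit 11846) (nat_lit 12) (nat_lit 7))
    (@En.n l32530 (nat_lit 11994) (nat_lit 15) (nat_lit 3))))
  (@Cl.mk (nat_lit 0x40008000c0009000600060004000c000b000800070004000c0005000a000a) (nat_lit 0x173000964003037) (nat_lit 16) Lb.e (@T16.mk En
    (@En.n l34101 (nat_lit 12358) (nat_lit 6) (nat_lit 10))
    (@En.n l34102 (nat_lit 11995) (nat_lit 1) (nat_lit 10))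
    (@En.n l34103 (nat_lit 10096) (nat_lit 8) (nat_lit 5))
    (@En.n l34104 (nat_lit 11740) (nat_lit 10) (nat_lit 12))
    (@En.n l28 (nat_lit 11122) (nat_lit 4) (nat_lit 4))
    (@En.i (nat_lit 12006) (nat_lit 9) (nat_lit 7))
    (@En.n l14016 (nat_lit 11936) (nat_lit 1) (nat_lit 8))
    (@En.n l77 (nat_lit 12345) (nat_lit 5) (nat_lit 11))
    (@En.n l34105 (nat_lit 12191) (nat_lit 9) (nat_lit 12))
    (@En.n l20837 (nat_lit 12443) (nat_lit 9) (nat_lit 4))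
    (@En.i (nat_lit 12641) (nat_lit 10) (nat_lit 6))
    (@En.n l9176 (nat_lit 10637) (nat_lit 1) (nat_lit 6))
    (@En.n l34106 (nat_lit 12000) (nat_lit 13) (nat_lit 9))
    (@En.n l9178 (nat_lit 11853) (nat_lit 7) (nat_lit 12))
    (@En.n l20859 (nat_lit 9249) (nat_lit 11) (nat_lit 8))
    (@En.n l15575 (nat_lit 11901) (nat_lit 15) (nat_lit 4))))
  (@Cl.mk (nat_lit 0x3000800080005000c0006000b000b00040008000800050005000d000b000a) (nat_lit 0x530505401200554) (nat_lit 16) Lb.e (@T16.mk En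
    (@En.n l22901 (nat_lit 11559) (nat_lit 0) (nat_lit 10))
    (@En.i (nat_lit 10740) (nat_lit 10) (nat_lit 11))
    (@En.n l22902 (nat_lit 9918) (nat_lit 2) (nat_lit 13))
    (@En.n l2828 (nat_lit 12293) (nat_lit 11) (nat_lit 5))
    (@En.n l22903 (nat_lit 10638) (nat_lit 4) (nat_lit 5))
    (@En.n l3519 (nat_lit 12610) (nat_lit 8) (nat_lit 8))
    (@En.i (nat_lit 10253) (nat_lit 11) (nat_lit 8))
    (@En.n l22904 (nat_lit 12021) (nat_lit 7) (nat_lit 4))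
    (@En.n l619 (nat_lit 12331) (nat_lit 5) (nat_lit 11))
    (@En.i (nat_lit 12004) (nat_lit 1) (nat_lit 11))
    (@En.n l22905 (nat_lit 10282) (nat_lit 11) (nat_lit 6))
    (@En.n l18 (nat_lit 11328) (nat_lit 12) (nat_lit 12))
    (@En.n l6319 (nat_lit 11177) (nat_lit 4) (nat_lit 5))
    (@En.n l22906 (nat_lit 12330) (nat_lit 8) (nat_lit 8))
    (@En.n l22907 (nat_lit 11996) (nat_lit 6) (nat_lit 8))
    (@En.n l7 (nat_lit 11998) (nat_lit 15) (nat_lit 3))))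
  (@Cl.mk (nat_lit 0x3000800080004000c0007000b000b00040008000800050005000d0009000c) (nat_lit 0x330605404400542) (nat_lit 16) Lb.e (@T16.mk En
    (@En.n l3523 (nat_lit 2551) (nat_lit 0) (nat_lit 12))
    (@En.i (nat_lit 11548) (nat_lit 4) (nat_lit 9))
    (@En.n l1110 (nat_lit 9914) (nat_lit 2) (nat_lit 13))
    (@En.n l1154 (nat_lit 12292) (nat_lit 11) (nat_lit 5))
    (@En.n l3518 (nat_lit 11814) (nat_lit 4) (nat_lit 5))
    (@En.n l3519 (nat_lit 12601) (nat_lit 8) (nat_lit 8))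
    (@En.i (nat_lit 10250) (nat_lit 11) (nat_lit 8))
    (@En.n l1992 (nat_lit 12019) (nat_lit 7) (nat_lit 4))
    (@En.n l619 (nat_lit 12336) (nat_lit 5) (nat_lit 11))
    (@En.i (nat_lit 12005) (nat_lit 1) (nat_lit 11))
    (@En.n l1769 (nat_lit 11999) (nat_lit 14) (nat_lit 7))
    (@En.n l18 (nat_lit 9934) (nat_lit 12) (nat_lit 12))
    (@En.n l3523 (nat_lit 12190) (nat_lit 4) (nat_lit 4))
    (@En.n l61 (nat_lit 12312) (nat_lit 8) (nat_lit 8))
    (@En.i (nat_lit 12160) (nat_lit 1) (nat_lit 8))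
    (@En.i (nat_lit 11997) (nat_lit 15) (nat_lit 3))))
  (@Cl.mk (nat_lit 0x40007000b000b00090007000700050005000c00090007000c000400090009) (nat_lit 0x43400004403026) (nat_lit 16) Lb.e (@T16.mk En
    (@En.n l61 (nat_lit 12314) (nat_lit 7) (nat_lit 9))
    (@En.n l22889 (nat_lit 12159) (nat_lit 1) (nat_lit 9))
    (@En.n l22890 (nat_lit 10282) (nat_lit 15) (nat_lit 4))
    (@En.n l2941 (nat_lit 11998) (nat_lit 0) (nat_lit 12))
    (@En.i (nat_lit 12003) (nat_lit 1) (nat_lit 7))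
    (@En.n l22891 (nat_lit 11544) (nat_lit 5) (nat_lit 9))
    (@En.n l22892 (nat_lit 9917) (nat_lit 3) (nat_lit 12))
    (@En.n l11 (nat_lit 12294) (nat_lit 11) (nat_lit 5))
    (@En.n l22893 (nat_lit 11815) (nat_lit 8) (nat_lit 5))
    (@En.n l11364 (nat_lit 12599) (nat_lit 9) (nat_lit 7))
    (@En.n l18395 (nat_lit 8715) (nat_lit 1) (nat_lit 7))
    (@En.n l55 (nat_lit 11996) (nat_lit 12) (nat_lit 9))
    (@En.n l22894 (nat_lit 12338) (nat_lit 5) (nat_lit 11))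
    (@En.n l2941 (nat_lit 11301) (nat_lit 8) (nat_lit 11))
    (@En.n l22895 (nat_lit 11654) (nat_lit 11) (nat_lit 7))
    (@En.n l2938 (nat_lit 10045) (nat_lit 15) (nat_lit 4))))
noncomputable def a750 : T16 Cl := @T16.mk Cl
  (@Cl.mk (nat_lit 0x40009000900050005000b000b000a0007000700050005000c0006000b000b) (nat_lit 0x720021600005061) (nat_lit 16) Lb.e (@T16.mk En
    (@En.n l61 (nat_lit 5953) (nat_lit 5) (nat_lit 11))
    (@En.n l15890 (nat_lit 11997) (nat_lit 1) (nat_lit 11))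
    (@En.n l32593 (nat_lit 5303) (nat_lit 5) (nat_lit 6))
    (@En.n l32594 (nat_lit 9332) (nat_lit 3) (nat_lit 12))
    (@En.n l152 (nat_lit 12381) (nat_lit 11) (nat_lit 5))
    (@En.n l32595 (nat_lit 12361) (nat_lit 5) (nat_lit 5))
    (@En.n l7479 (nat_lit 5308) (nat_lit 9) (nat_lit 7))
    (@En.i (nat_lit 5594) (nat_lit 1) (nat_lit 7))
    (@En.n l1866 (nat_lit 12111) (nat_lit 6) (nat_lit 10))
    (@En.n l32591 (nat_lit 5952) (nat_lit 5) (nat_lit 11))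
    (@En.n l15890 (nat_lit 10284) (nat_lit 11) (nat_lit 11))
    (@En.n l30291 (nat_lit 5790) (nat_lit 11) (nat_lit 5))
    (@En.n l32596 (nat_lit 11158) (nat_lit 0) (nat_lit 5))
    (@En.i (nat_lit 12372) (nat_lit 7) (nat_lit 9))
    (@En.n l77 (nat_lit 9241) (nat_lit 1) (nat_lit 9))
    (@En.n l32597 (nat_lit 11999) (nat_lit 2) (nat_lit 4))))
  (@Cl.mk (nat_lit 0x40008000c0009000700070004000c0009000800070004000c000900090007) (nat_lit 0x374000544004260) (nat_lit 16) Lb.e (@T16.mk En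
    (@En.n l16184 (nat_lit 10701) (nat_lit 0) (nat_lit 7))
    (@En.n l152 (nat_lit 12073) (nat_lit 7) (nat_lit 9))
    (@En.n l25675 (nat_lit 10073) (nat_lit 14) (nat_lit 9))
    (@En.n l565 (nat_lit 11736) (nat_lit 10) (nat_lit 12))
    (@En.n l40548 (nat_lit 11878) (nat_lit 4) (nat_lit 4))
    (@En.n l21306 (nat_lit 10928) (nat_lit 9) (nat_lit 7))
    (@En.n l39294 (nat_lit 12064) (nat_lit 1) (nat_lit 8))
    (@En.n l32795 (nat_lit 11744) (nat_lit 14) (nat_lit 9))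
    (@En.n l31420 (nat_lit 12173) (nat_lit 9) (nat_lit 12))
    (@En.n l13931 (nat_lit 9948) (nat_lit 9) (nat_lit 4))
    (@En.n l40549 (nat_lit 12643) (nat_lit 9) (nat_lit 7))
    (@En.n l31818 (nat_lit 11475) (nat_lit 1) (nat_lit 7))
    (@En.n l10795 (nat_lit 10282) (nat_lit 13) (nat_lit 9))
    (@En.n l31215 (nat_lit 11810) (nat_lit 7) (nat_lit 12))
    (@En.n l31818 (nat_lit 11703) (nat_lit 11) (nat_lit 8))
    (@En.n l21306 (nat_lit 11996) (nat_lit 15) (nat_lit 4))))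
  (@Cl.mk (nat_lit 0x3000800080005000c000a000a000800040008000800060006000d000b0008) (nat_lit 0x510525502300552) (nat_lit 16) Lb.e (@T16.mk En
    (@En.n l27263 (nat_lit 4892) (nat_lit 0) (nat_lit 8))
    (@En.i (nat_lit 10747) (nat_lit 10) (nat_lit 11))
    (@En.n l15101 (nat_lit 9640) (nat_lit 2) (nat_lit 13))
    (@En.n l11 (nat_lit 12290) (nat_lit 10) (nat_lit 6))
    (@En.n l17351 (nat_lit 11812) (nat_lit 4) (nat_lit 6))
    (@En.n l7577 (nat_lit 12605) (nat_lit 8) (nat_lit 8))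
    (@En.i (nat_lit 10072) (nat_lit 6) (nat_lit 8))
    (@En.n l936 (nat_lit 11997) (nat_lit 7) (nat_lit 4))
    (@En.i (nat_lit 5311) (nat_lit 0) (nat_lit 8))
    (@En.n l8763 (nat_lit 12337) (nat_lit 6) (nat_lit 10))
    (@En.n l14168 (nat_lit 12061) (nat_lit 11) (nat_lit 10))
    (@En.n l18 (nat_lit 11323) (nat_lit 12) (nat_lit 12))
    (@En.n l27264 (nat_lit 11088) (nat_lit 4) (nat_lit 5))
    (@En.n l27265 (nat_lit 9639) (nat_lit 8) (nat_lit 8))
    (@En.n l27266 (nat_lit 12001) (nat_lit 6) (nat_lit 8))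
    (@En.n l7 (nat_lit 12003) (nat_lit 15) (nat_lit 3))))
  (@Cl.mk (nat_lit 0x3000800080004000c000a000a000900040008000800060006000d0007000c) (nat_lit 0x360645202300602) (nat_lit 16) Lb.e (@T16.mk En
    (@En.i (nat_lit 2685) (nat_lit 0) (nat_lit 12))
    (@En.i (nat_lit 6438) (nat_lit 4) (nat_lit 7))
    (@En.n l134 (nat_lit 9801) (nat_lit 2) (nat_lit 13))
    (@En.n l11 (nat_lit 12291) (nat_lit 10) (nat_lit 6))
    (@En.n l3518 (nat_lit 11813) (nat_lit 4) (nat_lit 6))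
    (@En.i (nat_lit 12603) (nat_lit 8) (nat_lit 8))
    (@En.i (nat_lit 8757) (nat_lit 6) (nat_lit 8))
    (@En.n l936 (nat_lit 11998) (nat_lit 7) (nat_lit 4))
    (@En.n l55 (nat_lit 12006) (nat_lit 0) (nat_lit 9))
    (@En.n l619 (nat_lit 12334) (nat_lit 6) (nat_lit 10))
    (@En.i (nat_lit 12057) (nat_lit 11) (nat_lit 10))
    (@En.n l18 (nat_lit 11322) (nat_lit 12) (nat_lit 12))
    (@En.i (nat_lit 12175) (nat_lit 4) (nat_lit 4))
    (@En.n l61 (nat_lit 12315) (nat_lit 8) (nat_lit 8))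
    (@En.i (nat_lit 12176) (nat_lit 1) (nat_lit 8))
    (@En.i (nat_lit 12002) (nat_lit 15) (nat_lit 3))))
  (@Cl.mk (nat_lit 0x3000700070005000c0006000d000b00040003000900090005000d000b000a) (nat_lit 0x601400560841) (nat_lit 16) Lb.e (@T16.mk En
    (@En.n l619 (nat_lit 5312) (nat_lit 0) (nat_lit 10))
    (@En.i (nat_lit 12062) (nat_lit 11) (nat_lit 11))
    (@En.n l18 (nat_lit 10467) (nat_lit 2) (nat_lit 13))
    (@En.n l7 (nat_lit 11099) (nat_lit 3) (nat_lit 5))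
    (@En.n l61 (nat_lit 10936) (nat_lit 7) (nat_lit 9))
    (@En.i (nat_lit 11995) (nat_lit 5) (nat_lit 9))
    (@En.n l7 (nat_lit 12005) (nat_lit 6) (nat_lit 3))
    (@En.n l17406 (nat_lit 11133) (nat_lit 0) (nat_lit 4))
    (@En.i (nat_lit 10929) (nat_lit 9) (nat_lit 11))
    (@En.n l17407 (nat_lit 6139) (nat_lit 1) (nat_lit 13))
    (@En.i (nat_lit 12002) (nat_lit 3) (nat_lit 6))
    (@En.n l3517 (nat_lit 11407) (nat_lit 12) (nat_lit 12))
    (@En.n l3518 (nat_lit 10155) (nat_lit 5) (nat_lit 5))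
    (@En.i (nat_lit 12238) (nat_lit 9) (nat_lit 7))
    (@En.i (nat_lit 10216) (nat_lit 7) (nat_lit 7))
    (@En.n l117 (nat_lit 12018) (nat_lit 15) (nat_lit 3))))
  (@Cl.mk (nat_lit 0x3000700070005000d0006000d0003000c0003000900090004000d000b000a) (nat_lit 0xa02070360645) (nat_lit 16) Lb.e (@T16.mk En
    (@En.n l619 (nat_lit 12397) (nat_lit 0) (nat_lit 10))
    (@En.i (nat_lit 12058) (nat_lit 11) (nat_lit 11))
    (@En.n l18 (nat_lit 10465) (nat_lit 10) (nat_lit 13))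
    (@En.i (nat_lit 11992) (nat_lit 3) (nat_lit 4))
    (@En.n l61 (nat_lit 10935) (nat_lit 7) (nat_lit 9))
    (@En.i (nat_lit 11989) (nat_lit 5) (nat_lit 9))
    (@En.i (nat_lit 12004) (nat_lit 6) (nat_lit 3))
    (@En.i (nat_lit 3485) (nat_lit 0) (nat_lit 12))
    (@En.i (nat_lit 12006) (nat_lit 8) (nat_lit 3))
    (@En.n l1112 (nat_lit 6173) (nat_lit 0) (nat_lit 13))
    (@En.i (nat_lit 12003) (nat_lit 3) (nat_lit 6))
    (@En.n l3517 (nat_lit 11410) (nat_lit 12) (nat_lit 13))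
    (@En.n l3518 (nat_lit 10156) (nat_lit 5) (nat_lit 5))
    (@En.i (nat_lit 12237) (nat_lit 9) (nat_lit 7))
    (@En.i (nat_lit 10173) (nat_lit 7) (nat_lit 7))
    (@En.n l117 (nat_lit 12017) (nat_lit 15) (nat_lit 3))))
  (@Cl.mk (nat_lit 0x3000700070005000d000c00070003000c0004000900090004000d000b0009) (nat_lit 0xb70070560741) (nat_lit 16) Lb.e (@T16.mk En
    (@En.n l20832 (nat_lit 5308) (nat_lit 0) (nat_lit 9))
    (@En.i (nat_lit 12059) (nat_lit 9) (nat_lit 11))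
    (@En.n l18 (nat_lit 10466) (nat_lit 10) (nat_lit 13))
    (@En.i (nat_lit 12015) (nat_lit 3) (nat_lit 4))
    (@En.n l61 (nat_lit 10937) (nat_lit 7) (nat_lit 9))
    (@En.n l29317 (nat_lit 11627) (nat_lit 5) (nat_lit 9))
    (@En.n l28 (nat_lit 5311) (nat_lit 6) (nat_lit 4))
    (@En.n l8047 (nat_lit 10560) (nat_lit 0) (nat_lit 12))
    (@En.n l28 (nat_lit 12005) (nat_lit 8) (nat_lit 3))
    (@En.n l20835 (nat_lit 6437) (nat_lit 0) (nat_lit 7))
    (@En.n l77 (nat_lit 12004) (nat_lit 11) (nat_lit 12))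
    (@En.n l3517 (nat_lit 11476) (nat_lit 12) (nat_lit 13))
    (@En.n l20837 (nat_lit 10157) (nat_lit 3) (nat_lit 5))
    (@En.i (nat_lit 12235) (nat_lit 9) (nat_lit 7))
    (@En.i (nat_lit 10172) (nat_lit 5) (nat_lit 7))
    (@En.n l17679 (nat_lit 12007) (nat_lit 15) (nat_lit 3))))
  (@Cl.mk (nat_lit 0x3000700070004000d000c00080003000c0004000900090004000d0008000c) (nat_lit 0xb9101056072a) (nat_lit 16) Lb.e (@T16.mk En
    (@En.n l2584 (nat_lit 3559) (nat_lit 0) (nat_lit 12))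
    (@En.n l21306 (nat_lit 11996) (nat_lit 14) (nat_lit 8))
    (@En.n l23815 (nat_lit 11243) (nat_lit 10) (nat_lit 13))
    (@En.n l18236 (nat_lit 12014) (nat_lit 3) (nat_lit 4))
    (@En.n l152 (nat_lit 10939) (nat_lit 7) (nat_lit 9))
    (@En.i (nat_lit 11626) (nat_lit 5) (nat_lit 9))
    (@En.n l2678 (nat_lit 10338) (nat_lit 6) (nat_lit 4))
    (@En.n l11218 (nat_lit 53) (nat_lit 0) (nat_lit 12))
    (@En.n l10173 (nat_lit 12017) (nat_lit 8) (nat_lit 3))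
    (@En.i (nat_lit 8045) (nat_lit 0) (nat_lit 8))
    (@En.n l17299 (nat_lit 12018) (nat_lit 11) (nat_lit 12))
    (@En.n l10419 (nat_lit 11466) (nat_lit 12) (nat_lit 13))
    (@En.n l1361 (nat_lit 10815) (nat_lit 3) (nat_lit 4))
    (@En.n l3261 (nat_lit 12239) (nat_lit 9) (nat_lit 7))
    (@En.n l17380 (nat_lit 10828) (nat_lit 12) (nat_lit 7))
    (@En.n l11308 (nat_lit 12006) (nat_lit 15) (nat_lit 3))))
  (@Cl.mk (nat_lit 0x30007000b00080005000d000800050003000d000900080003000d0008000b) (nat_lit 0x41026005250864) (nat_lit 16) Lb.e (@T16.mk En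
    (@En.n l18153 (nat_lit 7404) (nat_lit 7) (nat_lit 11))
    (@En.n l18152 (nat_lit 11117) (nat_lit 14) (nat_lit 8))
    (@En.n l24580 (nat_lit 11391) (nat_lit 2) (nat_lit 13))
    (@En.n l22806 (nat_lit 12009) (nat_lit 3) (nat_lit 3))
    (@En.n l7646 (nat_lit 12219) (nat_lit 0) (nat_lit 8))
    (@En.n l24581 (nat_lit 12010) (nat_lit 5) (nat_lit 9))
    (@En.n l2711 (nat_lit 4222) (nat_lit 2) (nat_lit 13))
    (@En.n l24582 (nat_lit 11626) (nat_lit 7) (nat_lit 3))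
    (@En.i (nat_lit 8212) (nat_lit 0) (nat_lit 5))
    (@En.n l18752 (nat_lit 11615) (nat_lit 5) (nat_lit 8))
    (@En.n l24583 (nat_lit 10545) (nat_lit 11) (nat_lit 13))
    (@En.n l18153 (nat_lit 4239) (nat_lit 7) (nat_lit 5))
    (@En.n l8656 (nat_lit 10927) (nat_lit 13) (nat_lit 8))
    (@En.i (nat_lit 10296) (nat_lit 8) (nat_lit 11))
    (@En.n l617 (nat_lit 10438) (nat_lit 12) (nat_lit 7))
    (@En.n l24584 (nat_lit 11989) (nat_lit 15) (nat_lit 3))))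
  (@Cl.mk (nat_lit 0x30006000b00090005000d000800050003000d0007000a0003000d0008000b) (nat_lit 0x47026005020663) (nat_lit 16) Lb.e (@T16.mk En
    (@En.n l2038 (nat_lit 7402) (nat_lit 0) (nat_lit 11))
    (@En.i (nat_lit 11114) (nat_lit 14) (nat_lit 8))
    (@En.n l11004 (nat_lit 12010) (nat_lit 2) (nat_lit 13))
    (@En.n l11005 (nat_lit 12008) (nat_lit 3) (nat_lit 3))
    (@En.n l11006 (nat_lit 6758) (nat_lit 8) (nat_lit 10))
    (@En.n l11007 (nat_lit 11948) (nat_lit 5) (nat_lit 7))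
    (@En.n l11008 (nat_lit 4223) (nat_lit 7) (nat_lit 13))
    (@En.i (nat_lit 11628) (nat_lit 7) (nat_lit 3))
    (@En.n l11009 (nat_lit 8213) (nat_lit 0) (nat_lit 5))
    (@En.n l11010 (nat_lit 11614) (nat_lit 5) (nat_lit 8))
    (@En.n l11011 (nat_lit 10364) (nat_lit 11) (nat_lit 13))
    (@En.n l11012 (nat_lit 4238) (nat_lit 7) (nat_lit 5))
    (@En.i (nat_lit 12011) (nat_lit 13) (nat_lit 9))
    (@En.n l11013 (nat_lit 10297) (nat_lit 14) (nat_lit 11))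
    (@En.i (nat_lit 7393) (nat_lit 12) (nat_lit 6))
    (@En.n l8302 (nat_lit 11988) (nat_lit 15) (nat_lit 3))))
  (@Cl.mk (nat_lit 0x300070006000b00090006000d00090005000300090007000a000d0007000a) (nat_lit 0x8505700101502) (nat_lit 16) Lb.e (@T16.mk En
    (@En.n l21853 (nat_lit 4614) (nat_lit 8) (nat_lit 10))
    (@En.n l21854 (nat_lit 9723) (nat_lit 11) (nat_lit 7))
    (@En.i (nat_lit 11387) (nat_lit 5) (nat_lit 13))
    (@En.n l21855 (nat_lit 6349) (nat_lit 8) (nat_lit 10))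
    (@En.i (nat_lit 11946) (nat_lit 14) (nat_lit 7))
    (@En.n l13489 (nat_lit 10025) (nat_lit 5) (nat_lit 9))
    (@En.n l21856 (nat_lit 11629) (nat_lit 6) (nat_lit 3))
    (@En.n l21857 (nat_lit 10020) (nat_lit 0) (nat_lit 5))
    (@En.n l21858 (nat_lit 11613) (nat_lit 9) (nat_lit 9))
    (@En.n l13889 (nat_lit 10363) (nat_lit 10) (nat_lit 13))
    (@En.n l21859 (nat_lit 4232) (nat_lit 3) (nat_lit 6))
    (@En.n l21860 (nat_lit 12012) (nat_lit 12) (nat_lit 9))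
    (@En.n l21861 (nat_lit 11994) (nat_lit 13) (nat_lit 11))
    (@En.n l21862 (nat_lit 12009) (nat_lit 14) (nat_lit 6))
    (@En.n l21863 (nat_lit 10490) (nat_lit 12) (nat_lit 7))
    (@En.n l21864 (nat_lit 11990) (nat_lit 15) (nat_lit 3))))
  (@Cl.mk (nat_lit 0x3000600090004000d0007000c0003000c00070004000a0004000d0009000c) (nat_lit 0x60a02020030866) (nat_lit 16) Lb.e (@T16.mk En
    (@En.n l2038 (nat_lit 7386) (nat_lit 0) (nat_lit 12))
    (@En.n l6565 (nat_lit 11119) (nat_lit 14) (nat_lit 9))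
    (@En.n l10684 (nat_lit 12012) (nat_lit 2) (nat_lit 13))
    (@En.n l19313 (nat_lit 10927) (nat_lit 3) (nat_lit 4))
    (@En.n l181 (nat_lit 12009) (nat_lit 4) (nat_lit 10))
    (@En.i (nat_lit 11104) (nat_lit 5) (nat_lit 4))
    (@En.n l24585 (nat_lit 10548) (nat_lit 6) (nat_lit 7))
    (@En.n l19697 (nat_lit 4236) (nat_lit 8) (nat_lit 12))
    (@En.i (nat_lit 12014) (nat_lit 8) (nat_lit 3))
    (@En.n l8012 (nat_lit 10526) (nat_lit 0) (nat_lit 12))
    (@En.n l24586 (nat_lit 11612) (nat_lit 11) (nat_lit 7))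
    (@En.n l8341 (nat_lit 10362) (nat_lit 12) (nat_lit 13))
    (@En.n l24587 (nat_lit 10569) (nat_lit 3) (nat_lit 4))
    (@En.n l24585 (nat_lit 12040) (nat_lit 9) (nat_lit 9))
    (@En.i (nat_lit 7398) (nat_lit 12) (nat_lit 6))
    (@En.n l6564 (nat_lit 11992) (nat_lit 15) (nat_lit 3))))
  (@Cl.mk (nat_lit 0x30008000600090005000d0008000c0003000800070004000a000d0008000b) (nat_lit 0x604073201002755) (nat_lit 16) Lb.e (@T16.mk En
    (@En.i (nat_lit 4613) (nat_lit 0) (nat_lit 11))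
    (@En.n l15079 (nat_lit 9721) (nat_lit 10) (nat_lit 8))
    (@En.n l638 (nat_lit 6530) (nat_lit 5) (nat_lit 13))
    (@En.n l32372 (nat_lit 12010) (nat_lit 3) (nat_lit 10))
    (@En.n l16760 (nat_lit 11105) (nat_lit 4) (nat_lit 4))
    (@En.n l635 (nat_lit 10549) (nat_lit 9) (nat_lit 7))
    (@En.n l9874 (nat_lit 10030) (nat_lit 6) (nat_lit 8))
    (@En.n l22804 (nat_lit 12013) (nat_lit 7) (nat_lit 3))
    (@En.n l3082 (nat_lit 10524) (nat_lit 0) (nat_lit 12))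
    (@En.n l21649 (nat_lit 11611) (nat_lit 10) (nat_lit 8))
    (@En.n l5200 (nat_lit 10361) (nat_lit 11) (nat_lit 13))
    (@En.i (nat_lit 10568) (nat_lit 3) (nat_lit 5))
    (@En.n l3082 (nat_lit 12336) (nat_lit 9) (nat_lit 9))
    (@En.n l16756 (nat_lit 12011) (nat_lit 14) (nat_lit 6))
    (@En.n l4819 (nat_lit 11953) (nat_lit 6) (nat_lit 8))
    (@En.n l152 (nat_lit 11993) (nat_lit 15) (nat_lit 3))))
  (@Cl.mk (nat_lit 0x30008000600090005000d000b00090003000800070005000a000d0007000b) (nat_lit 0x207075302002905) (nat_lit 16) Lb.e (@T16.mk En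
    (@En.n l38415 (nat_lit 4609) (nat_lit 0) (nat_lit 11))
    (@En.i (nat_lit 10073) (nat_lit 10) (nat_lit 7))
    (@En.i (nat_lit 7730) (nat_lit 5) (nat_lit 13))
    (@En.n l31318 (nat_lit 11629) (nat_lit 3) (nat_lit 10))
    (@En.n l34006 (nat_lit 10694) (nat_lit 4) (nat_lit 5))
    (@En.i (nat_lit 11761) (nat_lit 9) (nat_lit 7))
    (@En.i (nat_lit 10403) (nat_lit 6) (nat_lit 8))
    (@En.n l38418 (nat_lit 12012) (nat_lit 7) (nat_lit 3))
    (@En.n l619 (nat_lit 11622) (nat_lit 0) (nat_lit 9))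
    (@En.n l3866 (nat_lit 11097) (nat_lit 10) (nat_lit 11))
    (@En.n l3593 (nat_lit 10366) (nat_lit 11) (nat_lit 13))
    (@En.i (nat_lit 10570) (nat_lit 3) (nat_lit 5))
    (@En.n l41025 (nat_lit 12334) (nat_lit 9) (nat_lit 9))
    (@En.n l20938 (nat_lit 12014) (nat_lit 14) (nat_lit 6))
    (@En.i (nat_lit 11954) (nat_lit 6) (nat_lit 8))
    (@En.i (nat_lit 12016) (nat_lit 15) (nat_lit 3))))
  (@Cl.mk (nat_lit 0x3000600090004000d000b00080003000c00070005000a0004000d0008000c) (nat_lit 0x60a93030020a46) (nat_lit 16) Lb.e (@T16.mk En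
    (@En.n l619 (nat_lit 7383) (nat_lit 0) (nat_lit 12))
    (@En.i (nat_lit 11901) (nat_lit 14) (nat_lit 8))
    (@En.n l19612 (nat_lit 12013) (nat_lit 2) (nat_lit 13))
    (@En.n l24316 (nat_lit 10926) (nat_lit 3) (nat_lit 4))
    (@En.n l181 (nat_lit 11628) (nat_lit 4) (nat_lit 10))
    (@En.i (nat_lit 10696) (nat_lit 5) (nat_lit 5))
    (@En.n l24107 (nat_lit 11762) (nat_lit 6) (nat_lit 7))
    (@En.n l19697 (nat_lit 10561) (nat_lit 8) (nat_lit 12))
    (@En.n l7 (nat_lit 12011) (nat_lit 8) (nat_lit 3))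
    (@En.n l31137 (nat_lit 11620) (nat_lit 0) (nat_lit 8))
    (@En.n l644 (nat_lit 11098) (nat_lit 11) (nat_lit 11))
    (@En.n l3528 (nat_lit 10365) (nat_lit 12) (nat_lit 13))
    (@En.n l2385 (nat_lit 10571) (nat_lit 3) (nat_lit 4))
    (@En.n l19697 (nat_lit 12041) (nat_lit 9) (nat_lit 9))
    (@En.i (nat_lit 7401) (nat_lit 12) (nat_lit 6))
    (@En.n l6564 (nat_lit 12015) (nat_lit 15) (nat_lit 3))))
  (@Cl.mk (nat_lit 0x3000600090005000d000b00070003000c00070005000a0004000d000b0009) (nat_lit 0x60a90050030a74) (nat_lit 16) Lb.e (@T16.mk En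
    (@En.n l42909 (nat_lit 12599) (nat_lit 0) (nat_lit 9))
    (@En.n l28193 (nat_lit 11867) (nat_lit 9) (nat_lit 11))
    (@En.n l37266 (nat_lit 12016) (nat_lit 2) (nat_lit 13))
    (@En.n l50 (nat_lit 10928) (nat_lit 3) (nat_lit 4))
    (@En.n l42910 (nat_lit 11991) (nat_lit 4) (nat_lit 10))
    (@En.n l8331 (nat_lit 10697) (nat_lit 5) (nat_lit 5))
    (@En.i (nat_lit 11767) (nat_lit 6) (nat_lit 7))
    (@En.n l16532 (nat_lit 10027) (nat_lit 8) (nat_lit 12))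
    (@En.n l28 (nat_lit 11992) (nat_lit 8) (nat_lit 3))
    (@En.n l17194 (nat_lit 6540) (nat_lit 0) (nat_lit 7))
    (@En.i (nat_lit 11099) (nat_lit 11) (nat_lit 11))
    (@En.n l8331 (nat_lit 11756) (nat_lit 12) (nat_lit 13))
    (@En.n l24573 (nat_lit 10634) (nat_lit 3) (nat_lit 5))
    (@En.n l15576 (nat_lit 12366) (nat_lit 9) (nat_lit 9))
    (@En.i (nat_lit 9280) (nat_lit 12) (nat_lit 6))
    (@En.n l15575 (nat_lit 12014) (nat_lit 15) (nat_lit 3))))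
noncomputable def a751 : T16 Cl := @T16.mk Cl
  (@Cl.mk (nat_lit 0x30008000600090006000d000b00080003000800070005000a000d000a0008) (nat_lit 0x203055203003965) (nat_lit 16) Lb.e (@T16.mk En
    (@En.n l8501 (nat_lit 10745) (nat_lit 0) (nat_lit 8))
    (@En.n l32349 (nat_lit 11860) (nat_lit 10) (nat_lit 10))
    (@En.i (nat_lit 7728) (nat_lit 5) (nat_lit 13))
    (@En.n l32350 (nat_lit 11951) (nat_lit 3) (nat_lit 10))
    (@En.n l32351 (nat_lit 10695) (nat_lit 4) (nat_lit 5))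
    (@En.i (nat_lit 11765) (nat_lit 14) (nat_lit 7))
    (@En.n l14227 (nat_lit 10404) (nat_lit 6) (nat_lit 8))
    (@En.n l32352 (nat_lit 11993) (nat_lit 7) (nat_lit 3))
    (@En.n l32353 (nat_lit 6542) (nat_lit 0) (nat_lit 8))
    (@En.n l1236 (nat_lit 11100) (nat_lit 10) (nat_lit 11))
    (@En.n l32351 (nat_lit 11279) (nat_lit 11) (nat_lit 13))
    (@En.n l32354 (nat_lit 10635) (nat_lit 3) (nat_lit 6))
    (@En.n l32353 (nat_lit 12337) (nat_lit 9) (nat_lit 9))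
    (@En.n l21399 (nat_lit 12015) (nat_lit 14) (nat_lit 6))
    (@En.n l32355 (nat_lit 11984) (nat_lit 6) (nat_lit 8))
    (@En.n l28 (nat_lit 12013) (nat_lit 15) (nat_lit 3))))
  (@Cl.mk (nat_lit 0x3000700070004000d0007000d0003000c0003000900090004000d0009000c) (nat_lit 0xa02070360661) (nat_lit 16) Lb.e (@T16.mk En
    (@En.n l6992 (nat_lit 3557) (nat_lit 0) (nat_lit 12))
    (@En.n l97 (nat_lit 11123) (nat_lit 11) (nat_lit 9))
    (@En.n l4296 (nat_lit 11241) (nat_lit 10) (nat_lit 13))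
    (@En.n l4004 (nat_lit 12011) (nat_lit 3) (nat_lit 4))
    (@En.n l17026 (nat_lit 10938) (nat_lit 7) (nat_lit 9))
    (@En.n l17027 (nat_lit 12008) (nat_lit 5) (nat_lit 9))
    (@En.i (nat_lit 12018) (nat_lit 6) (nat_lit 3))
    (@En.n l17028 (nat_lit 3486) (nat_lit 0) (nat_lit 12))
    (@En.n l17029 (nat_lit 12007) (nat_lit 8) (nat_lit 3))
    (@En.n l1867 (nat_lit 6172) (nat_lit 0) (nat_lit 13))
    (@En.i (nat_lit 12019) (nat_lit 3) (nat_lit 7))
    (@En.n l6991 (nat_lit 11411) (nat_lit 12) (nat_lit 13))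
    (@En.n l6992 (nat_lit 10816) (nat_lit 5) (nat_lit 4))
    (@En.i (nat_lit 12240) (nat_lit 9) (nat_lit 7))
    (@En.i (nat_lit 10826) (nat_lit 7) (nat_lit 7))
    (@En.n l152 (nat_lit 12005) (nat_lit 15) (nat_lit 3))))
  (@Cl.mk (nat_lit 0x3000700070004000c0007000d000b00040003000900090005000d0009000c) (nat_lit 0x801400360851) (nat_lit 16) Lb.e (@T16.mk En
    (@En.n l6985 (nat_lit 3558) (nat_lit 0) (nat_lit 12))
    (@En.n l97 (nat_lit 12345) (nat_lit 11) (nat_lit 9))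
    (@En.n l6986 (nat_lit 11244) (nat_lit 2) (nat_lit 13))
    (@En.n l4004 (nat_lit 11098) (nat_lit 3) (nat_lit 5))
    (@En.n l6987 (nat_lit 10940) (nat_lit 7) (nat_lit 9))
    (@En.n l6988 (nat_lit 11994) (nat_lit 5) (nat_lit 9))
    (@En.n l7 (nat_lit 12017) (nat_lit 6) (nat_lit 3))
    (@En.n l4297 (nat_lit 11132) (nat_lit 0) (nat_lit 4))
    (@En.n l6989 (nat_lit 10927) (nat_lit 9) (nat_lit 11))
    (@En.n l1140 (nat_lit 6138) (nat_lit 1) (nat_lit 13))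
    (@En.n l6990 (nat_lit 12021) (nat_lit 3) (nat_lit 7))
    (@En.n l6991 (nat_lit 11406) (nat_lit 12) (nat_lit 12))
    (@En.n l6992 (nat_lit 10717) (nat_lit 5) (nat_lit 4))
    (@En.n l4005 (nat_lit 12243) (nat_lit 9) (nat_lit 7))
    (@En.i (nat_lit 10829) (nat_lit 7) (nat_lit 7))
    (@En.n l152 (nat_lit 12004) (nat_lit 15) (nat_lit 3))))
  (@Cl.mk (nat_lit 0x3000800080004000c00090008000c00040008000800040007000d0008000c) (nat_lit 0x360673204300741) (nat_lit 16) Lb.e (@T16.mk En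
    (@En.n l22770 (nat_lit 2749) (nat_lit 0) (nat_lit 12))
    (@En.n l22771 (nat_lit 11661) (nat_lit 13) (nat_lit 8))
    (@En.n l5579 (nat_lit 11252) (nat_lit 2) (nat_lit 13))
    (@En.n l22772 (nat_lit 12288) (nat_lit 11) (nat_lit 7))
    (@En.n l6992 (nat_lit 10832) (nat_lit 4) (nat_lit 4))
    (@En.n l4188 (nat_lit 12030) (nat_lit 8) (nat_lit 8))
    (@En.i (nat_lit 10825) (nat_lit 1) (nat_lit 8))
    (@En.n l152 (nat_lit 12003) (nat_lit 7) (nat_lit 4))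
    (@En.n l936 (nat_lit 12017) (nat_lit 0) (nat_lit 12))
    (@En.n l22773 (nat_lit 12007) (nat_lit 1) (nat_lit 8))
    (@En.n l5859 (nat_lit 11121) (nat_lit 11) (nat_lit 9))
    (@En.n l18 (nat_lit 11242) (nat_lit 12) (nat_lit 12))
    (@En.n l9975 (nat_lit 11612) (nat_lit 4) (nat_lit 4))
    (@En.n l22774 (nat_lit 12316) (nat_lit 8) (nat_lit 8))
    (@En.n l7450 (nat_lit 11615) (nat_lit 1) (nat_lit 8))
    (@En.n l6990 (nat_lit 12021) (nat_lit 15) (nat_lit 3))))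
  (@Cl.mk (nat_lit 0x40007000b0008000c0007000700050004000c00090008000c000400090009) (nat_lit 0x46200007752025) (nat_lit 16) Lb.e (@T16.mk En
    (@En.n l32047 (nat_lit 12032) (nat_lit 7) (nat_lit 9))
    (@En.n l32061 (nat_lit 10836) (nat_lit 1) (nat_lit 9))
    (@En.n l32062 (nat_lit 10747) (nat_lit 15) (nat_lit 4))
    (@En.n l5255 (nat_lit 10927) (nat_lit 0) (nat_lit 12))
    (@En.n l32063 (nat_lit 10926) (nat_lit 1) (nat_lit 8))
    (@En.n l32064 (nat_lit 11124) (nat_lit 5) (nat_lit 9))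
    (@En.n l32065 (nat_lit 6532) (nat_lit 3) (nat_lit 12))
    (@En.n l32066 (nat_lit 12019) (nat_lit 12) (nat_lit 4))
    (@En.i (nat_lit 11108) (nat_lit 0) (nat_lit 5))
    (@En.n l32067 (nat_lit 12317) (nat_lit 9) (nat_lit 7))
    (@En.n l32068 (nat_lit 11611) (nat_lit 7) (nat_lit 7))
    (@En.n l32044 (nat_lit 3480) (nat_lit 7) (nat_lit 12))
    (@En.n l32069 (nat_lit 11404) (nat_lit 13) (nat_lit 8))
    (@En.i (nat_lit 9495) (nat_lit 8) (nat_lit 11))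
    (@En.n l32070 (nat_lit 12094) (nat_lit 11) (nat_lit 7))
    (@En.n l32071 (nat_lit 10833) (nat_lit 15) (nat_lit 4))))
  (@Cl.mk (nat_lit 0x3000800080005000c00090007000c00040008000800040007000d000b0009) (nat_lit 0x350860202400651) (nat_lit 16) Lb.e (@T16.mk En
    (@En.n l17370 (nat_lit 7187) (nat_lit 0) (nat_lit 9))
    (@En.n l17371 (nat_lit 12020) (nat_lit 13) (nat_lit 11))
    (@En.n l17372 (nat_lit 11253) (nat_lit 2) (nat_lit 13))
    (@En.n l17373 (nat_lit 12289) (nat_lit 11) (nat_lit 7))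
    (@En.n l17374 (nat_lit 10715) (nat_lit 4) (nat_lit 4))
    (@En.n l17375 (nat_lit 12034) (nat_lit 8) (nat_lit 8))
    (@En.n l17376 (nat_lit 10830) (nat_lit 1) (nat_lit 8))
    (@En.n l17304 (nat_lit 12002) (nat_lit 7) (nat_lit 4))
    (@En.n l17377 (nat_lit 12018) (nat_lit 0) (nat_lit 12))
    (@En.i (nat_lit 10338) (nat_lit 1) (nat_lit 7))
    (@En.n l17378 (nat_lit 12344) (nat_lit 11) (nat_lit 9))
    (@En.n l17373 (nat_lit 11245) (nat_lit 12) (nat_lit 12))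
    (@En.n l17379 (nat_lit 11095) (nat_lit 4) (nat_lit 5))
    (@En.n l152 (nat_lit 11139) (nat_lit 8) (nat_lit 8))
    (@En.n l117 (nat_lit 11901) (nat_lit 6) (nat_lit 8))
    (@En.n l17380 (nat_lit 12019) (nat_lit 15) (nat_lit 3))))
  (@Cl.mk (nat_lit 0x30007000c000b00090007000400080005000d000900070003000d00090008) (nat_lit 0x55500204300b25) (nat_lit 16) Lb.e (@T16.mk En
    (@En.n l28648 (nat_lit 12034) (nat_lit 0) (nat_lit 8))
    (@En.n l28649 (nat_lit 10065) (nat_lit 14) (nat_lit 9))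
    (@En.n l6042 (nat_lit 10349) (nat_lit 2) (nat_lit 13))
    (@En.n l28650 (nat_lit 12023) (nat_lit 3) (nat_lit 3))
    (@En.n l28651 (nat_lit 6546) (nat_lit 0) (nat_lit 7))
    (@En.n l28652 (nat_lit 12024) (nat_lit 5) (nat_lit 9))
    (@En.n l28653 (nat_lit 10731) (nat_lit 7) (nat_lit 13))
    (@En.n l28649 (nat_lit 10007) (nat_lit 7) (nat_lit 5))
    (@En.n l28654 (nat_lit 12064) (nat_lit 4) (nat_lit 8))
    (@En.n l28655 (nat_lit 10700) (nat_lit 9) (nat_lit 4))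
    (@En.n l16584 (nat_lit 10452) (nat_lit 0) (nat_lit 7))
    (@En.n l28656 (nat_lit 10253) (nat_lit 1) (nat_lit 9))
    (@En.i (nat_lit 11989) (nat_lit 13) (nat_lit 11))
    (@En.n l28649 (nat_lit 9207) (nat_lit 14) (nat_lit 12))
    (@En.i (nat_lit 11843) (nat_lit 12) (nat_lit 7))
    (@En.n l28657 (nat_lit 10960) (nat_lit 15) (nat_lit 3))))
  (@Cl.mk (nat_lit 0x30006000c000b000a0007000400080005000d0006000a0003000d00090008) (nat_lit 0x75800204020765) (nat_lit 16) Lb.e (@T16.mk En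
    (@En.n l6140 (nat_lit 12030) (nat_lit 0) (nat_lit 8))
    (@En.n l41307 (nat_lit 10064) (nat_lit 14) (nat_lit 9))
    (@En.n l40193 (nat_lit 12024) (nat_lit 2) (nat_lit 13))
    (@En.n l41308 (nat_lit 12022) (nat_lit 3) (nat_lit 3))
    (@En.i (nat_lit 6736) (nat_lit 0) (nat_lit 10))
    (@En.n l11361 (nat_lit 10964) (nat_lit 5) (nat_lit 6))
    (@En.n l37279 (nat_lit 10732) (nat_lit 7) (nat_lit 13))
    (@En.n l7979 (nat_lit 10008) (nat_lit 7) (nat_lit 5))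
    (@En.n l17134 (nat_lit 4176) (nat_lit 4) (nat_lit 8))
    (@En.n l41309 (nat_lit 10697) (nat_lit 9) (nat_lit 4))
    (@En.i (nat_lit 10453) (nat_lit 0) (nat_lit 7))
    (@En.n l41310 (nat_lit 12025) (nat_lit 12) (nat_lit 10))
    (@En.n l41311 (nat_lit 11988) (nat_lit 13) (nat_lit 11))
    (@En.n l17691 (nat_lit 10414) (nat_lit 14) (nat_lit 12))
    (@En.n l3971 (nat_lit 9284) (nat_lit 12) (nat_lit 6))
    (@En.n l27027 (nat_lit 10410) (nat_lit 15) (nat_lit 3))))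
  (@Cl.mk (nat_lit 0x300070006000c000b000a000800040009000500090006000a000d00080007) (nat_lit 0x7661020202630) (nat_lit 16) Lb.e (@T16.mk En
    (@En.n l36155 (nat_lit 12032) (nat_lit 0) (nat_lit 7))
    (@En.n l29752 (nat_lit 10070) (nat_lit 9) (nat_lit 8))
    (@En.i (nat_lit 10350) (nat_lit 5) (nat_lit 13))
    (@En.n l36156 (nat_lit 6734) (nat_lit 3) (nat_lit 10))
    (@En.n l25050 (nat_lit 11498) (nat_lit 4) (nat_lit 6))
    (@En.n l11131 (nat_lit 10948) (nat_lit 5) (nat_lit 9))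
    (@En.n l17892 (nat_lit 10012) (nat_lit 6) (nat_lit 5))
    (@En.n l36157 (nat_lit 11940) (nat_lit 0) (nat_lit 9))
    (@En.n l33844 (nat_lit 10695) (nat_lit 8) (nat_lit 4))
    (@En.n l36158 (nat_lit 10622) (nat_lit 0) (nat_lit 8))
    (@En.n l15961 (nat_lit 12026) (nat_lit 11) (nat_lit 10))
    (@En.n l36159 (nat_lit 11990) (nat_lit 12) (nat_lit 11))
    (@En.n l22184 (nat_lit 10712) (nat_lit 13) (nat_lit 12))
    (@En.n l36160 (nat_lit 12023) (nat_lit 14) (nat_lit 6))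
    (@En.n l36161 (nat_lit 10425) (nat_lit 12) (nat_lit 7))
    (@En.n l36162 (nat_lit 10407) (nat_lit 15) (nat_lit 3))))
  (@Cl.mk (nat_lit 0x30006000d000a000600030007000d000c00060003000a0004000d000a0009) (nat_lit 0x37000a70030b27) (nat_lit 16) Lb.e (@T16.mk En
    (@En.n l4299 (nat_lit 12239) (nat_lit 0) (nat_lit 9))
    (@En.n l61 (nat_lit 10212) (nat_lit 12) (nat_lit 10))
    (@En.n l28527 (nat_lit 12026) (nat_lit 2) (nat_lit 13))
    (@En.n l34237 (nat_lit 10253) (nat_lit 8) (nat_lit 4))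
    (@En.n l11228 (nat_lit 10359) (nat_lit 4) (nat_lit 10))
    (@En.n l28 (nat_lit 10900) (nat_lit 5) (nat_lit 3))
    (@En.n l34238 (nat_lit 11551) (nat_lit 0) (nat_lit 6))
    (@En.n l31460 (nat_lit 10886) (nat_lit 13) (nat_lit 12))
    (@En.n l28450 (nat_lit 10149) (nat_lit 9) (nat_lit 13))
    (@En.i (nat_lit 11024) (nat_lit 3) (nat_lit 7))
    (@En.n l28451 (nat_lit 12028) (nat_lit 10) (nat_lit 3))
    (@En.n l34239 (nat_lit 9892) (nat_lit 0) (nat_lit 6))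
    (@En.n l34240 (nat_lit 11099) (nat_lit 13) (nat_lit 10))
    (@En.n l24153 (nat_lit 9092) (nat_lit 8) (nat_lit 13))
    (@En.n l17523 (nat_lit 12679) (nat_lit 12) (nat_lit 6))
    (@En.n l9877 (nat_lit 10257) (nat_lit 15) (nat_lit 3))))
  (@Cl.mk (nat_lit 0x300080006000d000a000700030008000d000800060003000a000d00090008) (nat_lit 0x506500646002a55) (nat_lit 16) Lb.e (@T16.mk En
    (@En.n l21271 (nat_lit 12242) (nat_lit 0) (nat_lit 8))
    (@En.n l39101 (nat_lit 10921) (nat_lit 13) (nat_lit 9))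
    (@En.i (nat_lit 11464) (nat_lit 5) (nat_lit 13))
    (@En.n l39102 (nat_lit 10358) (nat_lit 3) (nat_lit 10))
    (@En.n l39103 (nat_lit 10898) (nat_lit 4) (nat_lit 3))
    (@En.i (nat_lit 11550) (nat_lit 0) (nat_lit 6))
    (@En.n l39104 (nat_lit 10956) (nat_lit 6) (nat_lit 8))
    (@En.i (nat_lit 10147) (nat_lit 8) (nat_lit 13))
    (@En.n l20170 (nat_lit 11938) (nat_lit 3) (nat_lit 8))
    (@En.n l39105 (nat_lit 12027) (nat_lit 9) (nat_lit 3))
    (@En.n l39106 (nat_lit 9893) (nat_lit 0) (nat_lit 7))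
    (@En.n l217 (nat_lit 11100) (nat_lit 12) (nat_lit 10))
    (@En.n l39107 (nat_lit 10830) (nat_lit 8) (nat_lit 13))
    (@En.n l39108 (nat_lit 12025) (nat_lit 14) (nat_lit 6))
    (@En.n l39109 (nat_lit 10422) (nat_lit 4) (nat_lit 8))
    (@En.n l152 (nat_lit 10894) (nat_lit 15) (nat_lit 3))))
  (@Cl.mk (nat_lit 0x300080006000d0006000b00030008000d000800050003000a000d000a0008) (nat_lit 0x506060522002a76) (nat_lit 16) Lb.e (@T16.mk En
    (@En.n l42619 (nat_lit 12234) (nat_lit 0) (nat_lit 8))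
    (@En.n l38583 (nat_lit 11846) (nat_lit 13) (nat_lit 10))
    (@En.n l37128 (nat_lit 11463) (nat_lit 5) (nat_lit 13))
    (@En.n l830 (nat_lit 9669) (nat_lit 3) (nat_lit 10))
    (@En.n l50 (nat_lit 10899) (nat_lit 4) (nat_lit 3))
    (@En.n l37128 (nat_lit 9775) (nat_lit 0) (nat_lit 5))
    (@En.i (nat_lit 11420) (nat_lit 6) (nat_lit 8))
    (@En.n l7705 (nat_lit 10148) (nat_lit 8) (nat_lit 13))
    (@En.n l1992 (nat_lit 10201) (nat_lit 3) (nat_lit 8))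
    (@En.n l37128 (nat_lit 12026) (nat_lit 9) (nat_lit 3))
    (@En.n l1865 (nat_lit 10854) (nat_lit 0) (nat_lit 11))
    (@En.n l42620 (nat_lit 11926) (nat_lit 6) (nat_lit 6))
    (@En.n l16534 (nat_lit 10831) (nat_lit 8) (nat_lit 13))
    (@En.n l17 (nat_lit 12028) (nat_lit 14) (nat_lit 6))
    (@En.i (nat_lit 11794) (nat_lit 4) (nat_lit 8))
    (@En.n l107 (nat_lit 10895) (nat_lit 15) (nat_lit 3))))
  (@Cl.mk (nat_lit 0x30006000d0005000b00030007000d000c00050003000a0004000d000b0009) (nat_lit 0x40500a70020b87) (nat_lit 16) Lb.e (@T16.mk En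
    (@En.n l5367 (nat_lit 12235) (nat_lit 0) (nat_lit 9))
    (@En.i (nat_lit 10473) (nat_lit 12) (nat_lit 11))
    (@En.i (nat_lit 12027) (nat_lit 2) (nat_lit 13))
    (@En.n l3819 (nat_lit 10252) (nat_lit 8) (nat_lit 4))
    (@En.n l830 (nat_lit 9668) (nat_lit 4) (nat_lit 10))
    (@En.n l50 (nat_lit 10901) (nat_lit 5) (nat_lit 3))
    (@En.i (nat_lit 9774) (nat_lit 0) (nat_lit 5))
    (@En.n l7162 (nat_lit 10885) (nat_lit 13) (nat_lit 12))
    (@En.n l7705 (nat_lit 10150) (nat_lit 9) (nat_lit 13))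
    (@En.n l1992 (nat_lit 9761) (nat_lit 12) (nat_lit 7))
    (@En.n l14488 (nat_lit 12025) (nat_lit 10) (nat_lit 3))
    (@En.n l1865 (nat_lit 10856) (nat_lit 0) (nat_lit 11))
    (@En.n l22670 (nat_lit 11911) (nat_lit 6) (nat_lit 5))
    (@En.n l16534 (nat_lit 8548) (nat_lit 8) (nat_lit 13))
    (@En.i (nat_lit 12667) (nat_lit 12) (nat_lit 6))
    (@En.n l107 (nat_lit 10256) (nat_lit 15) (nat_lit 3))))
  (@Cl.mk (nat_lit 0x20005000b000a0009000d0007000500030006000d0007000b0003000e0009) (nat_lit 0x466600008020b4) (nat_lit 16) Lb.e (@T16.mk En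
    (@En.n l14297 (nat_lit 12057) (nat_lit 14) (nat_lit 9))
    (@En.i (nat_lit 12031) (nat_lit 1) (nat_lit 14))
    (@En.n l28442 (nat_lit 12033) (nat_lit 2) (nat_lit 3))
    (@En.i (nat_lit 1337) (nat_lit 3) (nat_lit 11))
    (@En.n l23792 (nat_lit 11659) (nat_lit 4) (nat_lit 7))
    (@En.n l28443 (nat_lit 11264) (nat_lit 6) (nat_lit 13))
    (@En.n l28444 (nat_lit 11342) (nat_lit 6) (nat_lit 6))
    (@En.n l28445 (nat_lit 12030) (nat_lit 7) (nat_lit 3))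
    (@En.n l1253 (nat_lit 12742) (nat_lit 8) (nat_lit 5))
    (@En.n l14605 (nat_lit 12023) (nat_lit 10) (nat_lit 7))
    (@En.n l7 (nat_lit 12035) (nat_lit 11) (nat_lit 13))
    (@En.n l28446 (nat_lit 12244) (nat_lit 12) (nat_lit 9))
    (@En.n l28447 (nat_lit 12352) (nat_lit 13) (nat_lit 10))
    (@En.n l766 (nat_lit 7914) (nat_lit 14) (nat_lit 11))
    (@En.n l253 (nat_lit 12048) (nat_lit 13) (nat_lit 5))
    (@En.n l3 (nat_lit 12029) (nat_lit 15) (nat_lit 2))))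
  (@Cl.mk (nat_lit 0x20005000c000a0009000d0004000800030006000d0007000b0003000e0008) (nat_lit 0x767502008020b4) (nat_lit 16) Lb.e (@T16.mk En
    (@En.n l1325 (nat_lit 12019) (nat_lit 14) (nat_lit 8))
    (@En.n l6203 (nat_lit 12032) (nat_lit 1) (nat_lit 14))
    (@En.n l3509 (nat_lit 12034) (nat_lit 2) (nat_lit 3))
    (@En.n l3496 (nat_lit 2741) (nat_lit 3) (nat_lit 11))
    (@En.n l11631 (nat_lit 12121) (nat_lit 4) (nat_lit 7))
    (@En.n l1359 (nat_lit 11009) (nat_lit 6) (nat_lit 13))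
    (@En.n l4363 (nat_lit 12103) (nat_lit 12) (nat_lit 6))
    (@En.n l17511 (nat_lit 12029) (nat_lit 7) (nat_lit 3))
    (@En.n l810 (nat_lit 12070) (nat_lit 0) (nat_lit 8))
    (@En.n l11633 (nat_lit 12603) (nat_lit 9) (nat_lit 4))
    (@En.n l1354 (nat_lit 12240) (nat_lit 11) (nat_lit 13))
    (@En.n l501 (nat_lit 12239) (nat_lit 12) (nat_lit 9))
    (@En.i (nat_lit 12348) (nat_lit 13) (nat_lit 10))
    (@En.n l17512 (nat_lit 11248) (nat_lit 14) (nat_lit 12))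
    (@En.n l513 (nat_lit 12046) (nat_lit 13) (nat_lit 5))
    (@En.n l3 (nat_lit 12030) (nat_lit 15) (nat_lit 2))))
  (@Cl.mk (nat_lit 0x200060005000b000a0009000d0008000500030006000a0007000b000e0008) (nat_lit 0x58672000401a3) (nat_lit 16) Lb.e (@T16.mk En
    (@En.n l21383 (nat_lit 12060) (nat_lit 10) (nat_lit 8))
    (@En.n l21384 (nat_lit 12341) (nat_lit 4) (nat_lit 14))
    (@En.n l9021 (nat_lit 1334) (nat_lit 2) (nat_lit 11))
    (@En.n l14372 (nat_lit 8044) (nat_lit 3) (nat_lit 7))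
    (@En.n l9021 (nat_lit 9898) (nat_lit 4) (nat_lit 10))
    (@En.n l21385 (nat_lit 11347) (nat_lit 5) (nat_lit 6))
    (@En.n l8107 (nat_lit 12032) (nat_lit 6) (nat_lit 3))
    (@En.n l1253 (nat_lit 12746) (nat_lit 0) (nat_lit 5))
    (@En.n l20351 (nat_lit 12024) (nat_lit 9) (nat_lit 8))
    (@En.n l7 (nat_lit 12245) (nat_lit 10) (nat_lit 13))
    (@En.n l21386 (nat_lit 12510) (nat_lit 11) (nat_lit 9))
    (@En.n l21387 (nat_lit 12269) (nat_lit 12) (nat_lit 10))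
    (@En.n l766 (nat_lit 7547) (nat_lit 13) (nat_lit 11))
    (@En.n l17 (nat_lit 12029) (nat_lit 14) (nat_lit 5))
    (@En.n l21321 (nat_lit 12429) (nat_lit 7) (nat_lit 6))
    (@En.n l3 (nat_lit 12031) (nat_lit 15) (nat_lit 2))))
noncomputable def a752 : T16 Cl := @T16.mk Cl
  (@Cl.mk (nat_lit 0x200060005000c000a0009000d0004000900030006000a0007000b000e0007) (nat_lit 0x78660400201a0) (nat_lit 16) Lb.e (@T16.mk En
    (@En.n l17859 (nat_lit 12020) (nat_lit 10) (nat_lit 7))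
    (@En.n l17860 (nat_lit 12339) (nat_lit 4) (nat_lit 14))
    (@En.i (nat_lit 1367) (nat_lit 2) (nat_lit 11))
    (@En.n l17861 (nat_lit 12120) (nat_lit 3) (nat_lit 7))
    (@En.i (nat_lit 7462) (nat_lit 4) (nat_lit 10))
    (@En.n l17862 (nat_lit 12102) (nat_lit 12) (nat_lit 6))
    (@En.n l17863 (nat_lit 12031) (nat_lit 6) (nat_lit 3))
    (@En.n l5236 (nat_lit 11941) (nat_lit 0) (nat_lit 9))
    (@En.n l17864 (nat_lit 12604) (nat_lit 8) (nat_lit 4))
    (@En.n l15291 (nat_lit 12241) (nat_lit 10) (nat_lit 13))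
    (@En.n l17865 (nat_lit 12242) (nat_lit 11) (nat_lit 9))
    (@En.n l1732 (nat_lit 12271) (nat_lit 12) (nat_lit 10))
    (@En.n l6105 (nat_lit 7542) (nat_lit 13) (nat_lit 12))
    (@En.n l17866 (nat_lit 12030) (nat_lit 14) (nat_lit 5))
    (@En.n l17859 (nat_lit 12428) (nat_lit 7) (nat_lit 6))
    (@En.n l17 (nat_lit 12032) (nat_lit 15) (nat_lit 2))))
  (@Cl.mk (nat_lit 0x20006000b000a0008000d0007000500030006000d000a00080003000e0009) (nat_lit 0x472600009530b3) (nat_lit 16) Lb.e (@T16.mk En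
    (@En.n l1532 (nat_lit 12061) (nat_lit 14) (nat_lit 9))
    (@En.n l6042 (nat_lit 12313) (nat_lit 1) (nat_lit 14))
    (@En.n l14465 (nat_lit 12029) (nat_lit 2) (nat_lit 3))
    (@En.n l747 (nat_lit 7721) (nat_lit 3) (nat_lit 8))
    (@En.n l14466 (nat_lit 12031) (nat_lit 4) (nat_lit 10))
    (@En.n l14467 (nat_lit 11265) (nat_lit 6) (nat_lit 13))
    (@En.n l7406 (nat_lit 11355) (nat_lit 6) (nat_lit 6))
    (@En.n l747 (nat_lit 12034) (nat_lit 7) (nat_lit 3))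
    (@En.n l14467 (nat_lit 12740) (nat_lit 0) (nat_lit 5))
    (@En.n l117 (nat_lit 12022) (nat_lit 10) (nat_lit 7))
    (@En.n l1223 (nat_lit 12498) (nat_lit 11) (nat_lit 13))
    (@En.n l14468 (nat_lit 12499) (nat_lit 12) (nat_lit 8))
    (@En.i (nat_lit 12351) (nat_lit 13) (nat_lit 10))
    (@En.n l14467 (nat_lit 7915) (nat_lit 14) (nat_lit 11))
    (@En.n l6081 (nat_lit 10689) (nat_lit 6) (nat_lit 6))
    (@En.n l3 (nat_lit 12033) (nat_lit 15) (nat_lit 2))))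
  (@Cl.mk (nat_lit 0x20006000c000a0008000d0004000800030006000d000a00080003000e0008) (nat_lit 0x972503009330b4) (nat_lit 16) Lb.e (@T16.mk En
    (@En.n l7569 (nat_lit 12021) (nat_lit 14) (nat_lit 8))
    (@En.n l4114 (nat_lit 12314) (nat_lit 1) (nat_lit 14))
    (@En.n l4329 (nat_lit 12030) (nat_lit 2) (nat_lit 3))
    (@En.i (nat_lit 7722) (nat_lit 3) (nat_lit 8))
    (@En.n l7570 (nat_lit 12032) (nat_lit 4) (nat_lit 10))
    (@En.n l5 (nat_lit 11008) (nat_lit 6) (nat_lit 13))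
    (@En.n l7536 (nat_lit 12104) (nat_lit 12) (nat_lit 6))
    (@En.n l7571 (nat_lit 12033) (nat_lit 7) (nat_lit 3))
    (@En.n l7536 (nat_lit 12068) (nat_lit 0) (nat_lit 8))
    (@En.n l7572 (nat_lit 12605) (nat_lit 9) (nat_lit 4))
    (@En.n l335 (nat_lit 12243) (nat_lit 11) (nat_lit 13))
    (@En.n l4112 (nat_lit 12501) (nat_lit 12) (nat_lit 8))
    (@En.n l7573 (nat_lit 12346) (nat_lit 13) (nat_lit 10))
    (@En.n l7574 (nat_lit 11250) (nat_lit 14) (nat_lit 12))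
    (@En.n l1575 (nat_lit 12438) (nat_lit 6) (nat_lit 6))
    (@En.n l3 (nat_lit 12034) (nat_lit 15) (nat_lit 2))))
  (@Cl.mk (nat_lit 0x20005000c000a000d000600040003000d0006000d0003000b0003000e000a) (nat_lit 0x465000a09060b6) (nat_lit 16) Lb.e (@T16.mk En
    (@En.n l14297 (nat_lit 12058) (nat_lit 14) (nat_lit 10))
    (@En.i (nat_lit 12245) (nat_lit 1) (nat_lit 14))
    (@En.n l14298 (nat_lit 12498) (nat_lit 2) (nat_lit 3))
    (@En.i (nat_lit 1363) (nat_lit 3) (nat_lit 11))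
    (@En.n l7524 (nat_lit 12244) (nat_lit 4) (nat_lit 3))
    (@En.n l2205 (nat_lit 6069) (nat_lit 6) (nat_lit 13))
    (@En.i (nat_lit 12029) (nat_lit 6) (nat_lit 6))
    (@En.n l14299 (nat_lit 12794) (nat_lit 8) (nat_lit 13))
    (@En.n l14300 (nat_lit 12240) (nat_lit 8) (nat_lit 3))
    (@En.n l1253 (nat_lit 12743) (nat_lit 9) (nat_lit 4))
    (@En.n l14301 (nat_lit 10900) (nat_lit 11) (nat_lit 6))
    (@En.i (nat_lit 3550) (nat_lit 12) (nat_lit 13))
    (@En.n l1722 (nat_lit 12353) (nat_lit 13) (nat_lit 10))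
    (@En.n l766 (nat_lit 7912) (nat_lit 14) (nat_lit 12))
    (@En.n l253 (nat_lit 12047) (nat_lit 13) (nat_lit 5))
    (@En.n l3 (nat_lit 12035) (nat_lit 15) (nat_lit 2))))
  (@Cl.mk (nat_lit 0x3000c00090007000c0004000c0009000400070004000c0009000d00070004) (nat_lit 0x540308400075100) (nat_lit 16) Lb.e (@T16.mk En
    (@En.n l4296 (nat_lit 9283) (nat_lit 0) (nat_lit 4))
    (@En.n l28665 (nat_lit 11984) (nat_lit 0) (nat_lit 7))
    (@En.i (nat_lit 3044) (nat_lit 1) (nat_lit 13))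
    (@En.n l18431 (nat_lit 10703) (nat_lit 3) (nat_lit 9))
    (@En.n l4003 (nat_lit 11612) (nat_lit 10) (nat_lit 12))
    (@En.n l25017 (nat_lit 12458) (nat_lit 5) (nat_lit 4))
    (@En.n l28972 (nat_lit 12067) (nat_lit 11) (nat_lit 7))
    (@En.n l34060 (nat_lit 10290) (nat_lit 7) (nat_lit 4))
    (@En.i (nat_lit 12038) (nat_lit 0) (nat_lit 9))
    (@En.n l1140 (nat_lit 10320) (nat_lit 1) (nat_lit 12))
    (@En.n l34061 (nat_lit 11850) (nat_lit 10) (nat_lit 4))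
    (@En.n l25017 (nat_lit 10297) (nat_lit 0) (nat_lit 12))
    (@En.n l34062 (nat_lit 9202) (nat_lit 1) (nat_lit 7))
    (@En.n l34063 (nat_lit 12708) (nat_lit 14) (nat_lit 9))
    (@En.n l34064 (nat_lit 11901) (nat_lit 3) (nat_lit 12))
    (@En.n l17517 (nat_lit 10298) (nat_lit 13) (nat_lit 3))))
  (@Cl.mk (nat_lit 0x300080003000c0006000b000b0004000c0008000500050004000d000a000d) (nat_lit 0x503048082000667) (nat_lit 16) Lb.e (@T16.mk En
    (@En.i (nat_lit 3049) (nat_lit 0) (nat_lit 13))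
    (@En.i (nat_lit 11839) (nat_lit 3) (nat_lit 10))
    (@En.n l4206 (nat_lit 11998) (nat_lit 2) (nat_lit 13))
    (@En.n l2486 (nat_lit 12406) (nat_lit 3) (nat_lit 4))
    (@En.n l7463 (nat_lit 12581) (nat_lit 11) (nat_lit 5))
    (@En.i (nat_lit 12403) (nat_lit 5) (nat_lit 5))
    (@En.n l1308 (nat_lit 12585) (nat_lit 6) (nat_lit 8))
    (@En.n l7136 (nat_lit 3862) (nat_lit 10) (nat_lit 12))
    (@En.n l7464 (nat_lit 10298) (nat_lit 8) (nat_lit 4))
    (@En.n l1310 (nat_lit 12040) (nat_lit 5) (nat_lit 11))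
    (@En.n l4427 (nat_lit 11847) (nat_lit 11) (nat_lit 11))
    (@En.n l7465 (nat_lit 12038) (nat_lit 14) (nat_lit 6))
    (@En.n l7466 (nat_lit 11727) (nat_lit 13) (nat_lit 12))
    (@En.n l1308 (nat_lit 11852) (nat_lit 15) (nat_lit 3))
    (@En.n l2483 (nat_lit 10915) (nat_lit 0) (nat_lit 8))
    (@En.n l7467 (nat_lit 11853) (nat_lit 15) (nat_lit 3))))
  (@Cl.mk (nat_lit 0x30006000b000b0008000c0007000500050004000c000a0008000d00040009) (nat_lit 0x67450000573803) (nat_lit 16) Lb.e (@T16.mk En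
    (@En.n l11623 (nat_lit 12094) (nat_lit 0) (nat_lit 9))
    (@En.n l11330 (nat_lit 9242) (nat_lit 15) (nat_lit 4))
    (@En.n l17634 (nat_lit 12037) (nat_lit 0) (nat_lit 13))
    (@En.n l18291 (nat_lit 11851) (nat_lit 1) (nat_lit 8))
    (@En.n l13614 (nat_lit 11837) (nat_lit 4) (nat_lit 10))
    (@En.n l18292 (nat_lit 11999) (nat_lit 6) (nat_lit 12))
    (@En.n l18293 (nat_lit 12428) (nat_lit 6) (nat_lit 4))
    (@En.n l6088 (nat_lit 12591) (nat_lit 11) (nat_lit 5))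
    (@En.i (nat_lit 11822) (nat_lit 8) (nat_lit 5))
    (@En.n l18294 (nat_lit 12586) (nat_lit 0) (nat_lit 7))
    (@En.i (nat_lit 3859) (nat_lit 11) (nat_lit 12))
    (@En.n l7422 (nat_lit 11794) (nat_lit 12) (nat_lit 8))
    (@En.n l18295 (nat_lit 12039) (nat_lit 5) (nat_lit 11))
    (@En.n l18296 (nat_lit 11845) (nat_lit 14) (nat_lit 11))
    (@En.n l1769 (nat_lit 7661) (nat_lit 12) (nat_lit 6))
    (@En.n l18297 (nat_lit 9249) (nat_lit 15) (nat_lit 3))))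
  (@Cl.mk (nat_lit 0x20005000c000a0009000d0004000a00030006000b0007000b0006000e0005) (nat_lit 0xa8530600605020) (nat_lit 16) Lb.e (@T16.mk En
    (@En.n l21654 (nat_lit 12038) (nat_lit 8) (nat_lit 5))
    (@En.n l1501 (nat_lit 12046) (nat_lit 1) (nat_lit 14))
    (@En.n l21655 (nat_lit 12587) (nat_lit 2) (nat_lit 6))
    (@En.n l16307 (nat_lit 3850) (nat_lit 3) (nat_lit 11))
    (@En.n l21656 (nat_lit 11327) (nat_lit 4) (nat_lit 7))
    (@En.i (nat_lit 9683) (nat_lit 6) (nat_lit 11))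
    (@En.n l21657 (nat_lit 7657) (nat_lit 12) (nat_lit 6))
    (@En.n l6081 (nat_lit 12045) (nat_lit 7) (nat_lit 3))
    (@En.n l4241 (nat_lit 12102) (nat_lit 0) (nat_lit 10))
    (@En.n l21658 (nat_lit 12725) (nat_lit 9) (nat_lit 4))
    (@En.n l21659 (nat_lit 12040) (nat_lit 11) (nat_lit 13))
    (@En.n l21660 (nat_lit 12041) (nat_lit 12) (nat_lit 9))
    (@En.n l10065 (nat_lit 12733) (nat_lit 13) (nat_lit 10))
    (@En.n l644 (nat_lit 12338) (nat_lit 14) (nat_lit 12))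
    (@En.n l1081 (nat_lit 12032) (nat_lit 13) (nat_lit 5))
    (@En.n l11 (nat_lit 12039) (nat_lit 15) (nat_lit 2))))
  (@Cl.mk (nat_lit 0x20005000d000a000d000300090003000d0006000b0003000b0007000e0005) (nat_lit 0x38205080706050) (nat_lit 16) Lb.e (@T16.mk En
    (@En.n l3637 (nat_lit 12037) (nat_lit 5) (nat_lit 5))
    (@En.n l1445 (nat_lit 12044) (nat_lit 1) (nat_lit 14))
    (@En.i (nat_lit 12370) (nat_lit 2) (nat_lit 7))
    (@En.n l18276 (nat_lit 4267) (nat_lit 3) (nat_lit 11))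
    (@En.n l18276 (nat_lit 12041) (nat_lit 4) (nat_lit 3))
    (@En.n l3082 (nat_lit 11894) (nat_lit 0) (nat_lit 11))
    (@En.n l18277 (nat_lit 12039) (nat_lit 6) (nat_lit 6))
    (@En.n l18278 (nat_lit 11726) (nat_lit 8) (nat_lit 13))
    (@En.i (nat_lit 12042) (nat_lit 8) (nat_lit 3))
    (@En.n l197 (nat_lit 12100) (nat_lit 10) (nat_lit 9))
    (@En.n l18279 (nat_lit 12043) (nat_lit 10) (nat_lit 3))
    (@En.i (nat_lit 1597) (nat_lit 12) (nat_lit 13))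
    (@En.n l18280 (nat_lit 12735) (nat_lit 13) (nat_lit 10))
    (@En.n l5762 (nat_lit 12336) (nat_lit 14) (nat_lit 13))
    (@En.n l3082 (nat_lit 12241) (nat_lit 13) (nat_lit 5))
    (@En.n l17 (nat_lit 12040) (nat_lit 15) (nat_lit 2))))
  (@Cl.mk (nat_lit 0x20005000d0009000d000300090003000d000a00070003000b0007000e0006) (nat_lit 0x34205094006030) (nat_lit 16) Lb.e (@T16.mk En
    (@En.n l34072 (nat_lit 11851) (nat_lit 5) (nat_lit 6))
    (@En.n l22741 (nat_lit 12367) (nat_lit 1) (nat_lit 14))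
    (@En.n l30595 (nat_lit 12369) (nat_lit 2) (nat_lit 7))
    (@En.i (nat_lit 12127) (nat_lit 3) (nat_lit 11))
    (@En.n l34073 (nat_lit 12040) (nat_lit 4) (nat_lit 3))
    (@En.n l430 (nat_lit 11319) (nat_lit 5) (nat_lit 7))
    (@En.n l1316 (nat_lit 12437) (nat_lit 7) (nat_lit 10))
    (@En.n l34074 (nat_lit 11730) (nat_lit 8) (nat_lit 13))
    (@En.n l430 (nat_lit 12049) (nat_lit 8) (nat_lit 3))
    (@En.n l34075 (nat_lit 12099) (nat_lit 10) (nat_lit 9))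
    (@En.n l430 (nat_lit 12366) (nat_lit 10) (nat_lit 3))
    (@En.n l30595 (nat_lit 974) (nat_lit 12) (nat_lit 13))
    (@En.n l10675 (nat_lit 11899) (nat_lit 13) (nat_lit 9))
    (@En.n l20434 (nat_lit 12334) (nat_lit 14) (nat_lit 13))
    (@En.n l12231 (nat_lit 12242) (nat_lit 13) (nat_lit 5))
    (@En.n l3 (nat_lit 12041) (nat_lit 15) (nat_lit 2))))
  (@Cl.mk (nat_lit 0x20005000c000a000d000800040003000d0006000b0003000b0008000e0005) (nat_lit 0x88220080702250) (nat_lit 16) Lb.e (@T16.mk En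
    (@En.i (nat_lit 11852) (nat_lit 7) (nat_lit 5))
    (@En.n l1596 (nat_lit 12047) (nat_lit 1) (nat_lit 14))
    (@En.i (nat_lit 9245) (nat_lit 2) (nat_lit 8))
    (@En.n l1596 (nat_lit 4268) (nat_lit 3) (nat_lit 11))
    (@En.n l2496 (nat_lit 12049) (nat_lit 4) (nat_lit 3))
    (@En.n l2004 (nat_lit 11895) (nat_lit 0) (nat_lit 11))
    (@En.n l9936 (nat_lit 12045) (nat_lit 6) (nat_lit 6))
    (@En.n l20936 (nat_lit 12358) (nat_lit 8) (nat_lit 13))
    (@En.n l11 (nat_lit 12040) (nat_lit 8) (nat_lit 3))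
    (@En.n l5870 (nat_lit 12658) (nat_lit 9) (nat_lit 4))
    (@En.n l55 (nat_lit 11296) (nat_lit 11) (nat_lit 8))
    (@En.i (nat_lit 969) (nat_lit 12) (nat_lit 13))
    (@En.n l20937 (nat_lit 12764) (nat_lit 13) (nat_lit 10))
    (@En.n l1596 (nat_lit 12172) (nat_lit 14) (nat_lit 12))
    (@En.n l5871 (nat_lit 12245) (nat_lit 13) (nat_lit 5))
    (@En.n l17 (nat_lit 12042) (nat_lit 15) (nat_lit 2))))
  (@Cl.mk (nat_lit 0x20005000d000c000b000300090004000d0005000b0003000b0007000e0005) (nat_lit 0x39105080502050) (nat_lit 16) Lb.e (@T16.mk En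
    (@En.n l5784 (nat_lit 11853) (nat_lit 5) (nat_lit 5))
    (@En.n l14438 (nat_lit 12362) (nat_lit 1) (nat_lit 14))
    (@En.n l29846 (nat_lit 12363) (nat_lit 2) (nat_lit 7))
    (@En.n l6097 (nat_lit 4269) (nat_lit 3) (nat_lit 11))
    (@En.n l916 (nat_lit 12366) (nat_lit 4) (nat_lit 3))
    (@En.n l29847 (nat_lit 12425) (nat_lit 0) (nat_lit 11))
    (@En.i (nat_lit 12725) (nat_lit 6) (nat_lit 5))
    (@En.n l29848 (nat_lit 11725) (nat_lit 8) (nat_lit 13))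
    (@En.n l117 (nat_lit 12659) (nat_lit 8) (nat_lit 4))
    (@En.n l23579 (nat_lit 10943) (nat_lit 10) (nat_lit 9))
    (@En.n l29849 (nat_lit 12040) (nat_lit 10) (nat_lit 3))
    (@En.n l575 (nat_lit 4038) (nat_lit 12) (nat_lit 11))
    (@En.n l19853 (nat_lit 12042) (nat_lit 13) (nat_lit 12))
    (@En.n l18603 (nat_lit 12331) (nat_lit 14) (nat_lit 13))
    (@En.n l15597 (nat_lit 12236) (nat_lit 13) (nat_lit 5))
    (@En.n l18 (nat_lit 12043) (nat_lit 15) (nat_lit 2))))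
  (@Cl.mk (nat_lit 0x2000a0005000d000a000d000300060003000d0006000c0003000b000e0004) (nat_lit 0x406820009070540) (nat_lit 16) Lb.e (@T16.mk En
    (@En.n l16484 (nat_lit 12582) (nat_lit 6) (nat_lit 4))
    (@En.n l5839 (nat_lit 1108) (nat_lit 4) (nat_lit 14))
    (@En.n l1483 (nat_lit 4272) (nat_lit 2) (nat_lit 11))
    (@En.i (nat_lit 12367) (nat_lit 3) (nat_lit 3))
    (@En.n l7076 (nat_lit 12422) (nat_lit 0) (nat_lit 12))
    (@En.n l16485 (nat_lit 12046) (nat_lit 5) (nat_lit 6))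
    (@En.n l4690 (nat_lit 11722) (nat_lit 7) (nat_lit 13))
    (@En.n l11 (nat_lit 12047) (nat_lit 7) (nat_lit 3))
    (@En.n l16486 (nat_lit 12248) (nat_lit 8) (nat_lit 6))
    (@En.n l16487 (nat_lit 12362) (nat_lit 9) (nat_lit 3))
    (@En.i (nat_lit 2719) (nat_lit 0) (nat_lit 13))
    (@En.n l1144 (nat_lit 12734) (nat_lit 12) (nat_lit 10))
    (@En.n l11 (nat_lit 12370) (nat_lit 13) (nat_lit 13))
    (@En.n l1483 (nat_lit 12040) (nat_lit 14) (nat_lit 5))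
    (@En.n l16484 (nat_lit 12011) (nat_lit 4) (nat_lit 10))
    (@En.n l17 (nat_lit 12044) (nat_lit 15) (nat_lit 2))))
  (@Cl.mk (nat_lit 0x20005000b000a0009000d0009000500030006000b0007000b0007000e0005) (nat_lit 0x88633000606020) (nat_lit 16) Lb.e (@T16.mk En
    (@En.n l9148 (nat_lit 9249) (nat_lit 8) (nat_lit 5))
    (@En.n l9149 (nat_lit 12048) (nat_lit 1) (nat_lit 14))
    (@En.n l8610 (nat_lit 9248) (nat_lit 2) (nat_lit 7))
    (@En.n l6787 (nat_lit 4266) (nat_lit 3) (nat_lit 11))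
    (@En.n l9150 (nat_lit 11329) (nat_lit 4) (nat_lit 7))
    (@En.i (nat_lit 10684) (nat_lit 6) (nat_lit 11))
    (@En.n l9151 (nat_lit 12840) (nat_lit 6) (nat_lit 6))
    (@En.n l3536 (nat_lit 12039) (nat_lit 7) (nat_lit 3))
    (@En.n l9152 (nat_lit 12) (nat_lit 0) (nat_lit 5))
    (@En.n l9153 (nat_lit 11295) (nat_lit 10) (nat_lit 9))
    (@En.n l3521 (nat_lit 12042) (nat_lit 11) (nat_lit 13))
    (@En.n l9154 (nat_lit 12049) (nat_lit 12) (nat_lit 9))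
    (@En.n l9155 (nat_lit 11909) (nat_lit 13) (nat_lit 10))
    (@En.n l9149 (nat_lit 10041) (nat_lit 14) (nat_lit 11))
    (@En.n l9156 (nat_lit 12031) (nat_lit 13) (nat_lit 5))
    (@En.n l7 (nat_lit 12045) (nat_lit 15) (nat_lit 2))))
  (@Cl.mk (nat_lit 0x200090005000c000a0009000d0004000700030006000c0007000b000e0004) (nat_lit 0x406863000060510) (nat_lit 16) Lb.e (@T16.mk En
    (@En.n l2869 (nat_lit 12584) (nat_lit 9) (nat_lit 4))
    (@En.n l31637 (nat_lit 1111) (nat_lit 4) (nat_lit 14))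
    (@En.n l14619 (nat_lit 4278) (nat_lit 2) (nat_lit 11))
    (@En.n l15164 (nat_lit 11325) (nat_lit 3) (nat_lit 7))
    (@En.n l170 (nat_lit 9681) (nat_lit 5) (nat_lit 12))
    (@En.n l31637 (nat_lit 7658) (nat_lit 12) (nat_lit 6))
    (@En.n l31638 (nat_lit 12048) (nat_lit 6) (nat_lit 3))
    (@En.n l4304 (nat_lit 12250) (nat_lit 0) (nat_lit 7))
    (@En.n l14613 (nat_lit 12724) (nat_lit 8) (nat_lit 4))
    (@En.n l3459 (nat_lit 12044) (nat_lit 10) (nat_lit 13))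
    (@En.n l31639 (nat_lit 12367) (nat_lit 11) (nat_lit 9))
    (@En.i (nat_lit 12732) (nat_lit 12) (nat_lit 10))
    (@En.n l31638 (nat_lit 12587) (nat_lit 13) (nat_lit 12))
    (@En.n l4108 (nat_lit 12039) (nat_lit 14) (nat_lit 5))
    (@En.n l9964 (nat_lit 11612) (nat_lit 5) (nat_lit 9))
    (@En.n l17 (nat_lit 12046) (nat_lit 15) (nat_lit 2))))
  (@Cl.mk (nat_lit 0x2000b0005000c000a000d000500040003000d0006000c0003000b000e0004) (nat_lit 0x408810009070240) (nat_lit 16) Lb.e (@T16.mk En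
    (@En.i (nat_lit 12583) (nat_lit 8) (nat_lit 4))
    (@En.n l5839 (nat_lit 1105) (nat_lit 4) (nat_lit 14))
    (@En.i (nat_lit 4270) (nat_lit 2) (nat_lit 11))
    (@En.i (nat_lit 12368) (nat_lit 3) (nat_lit 3))
    (@En.n l5839 (nat_lit 12426) (nat_lit 0) (nat_lit 12))
    (@En.i (nat_lit 12048) (nat_lit 5) (nat_lit 6))
    (@En.i (nat_lit 12359) (nat_lit 7) (nat_lit 13))
    (@En.i (nat_lit 12044) (nat_lit 7) (nat_lit 3))
    (@En.n l152 (nat_lit 33) (nat_lit 0) (nat_lit 4))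
    (@En.i (nat_lit 12714) (nat_lit 9) (nat_lit 5))
    (@En.i (nat_lit 963) (nat_lit 5) (nat_lit 13))
    (@En.n l14304 (nat_lit 12765) (nat_lit 12) (nat_lit 10))
    (@En.i (nat_lit 12198) (nat_lit 13) (nat_lit 12))
    (@En.n l1769 (nat_lit 12042) (nat_lit 14) (nat_lit 5))
    (@En.i (nat_lit 11866) (nat_lit 11) (nat_lit 11))
    (@En.n l17 (nat_lit 12047) (nat_lit 15) (nat_lit 2))))
noncomputable def a753 : T16 Cl := @T16.mk Cl
  (@Cl.mk (nat_lit 0x2000a0005000b000a0009000d0006000500030006000c0007000b000e0004) (nat_lit 0x307872000060210) (nat_lit 16) Lb.e (@T16.mk En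
    (@En.n l19971 (nat_lit 12435) (nat_lit 9) (nat_lit 4))
    (@En.n l5839 (nat_lit 1106) (nat_lit 4) (nat_lit 14))
    (@En.n l19972 (nat_lit 4273) (nat_lit 2) (nat_lit 11))
    (@En.n l14477 (nat_lit 11321) (nat_lit 3) (nat_lit 7))
    (@En.n l19973 (nat_lit 10682) (nat_lit 5) (nat_lit 12))
    (@En.n l19974 (nat_lit 12839) (nat_lit 12) (nat_lit 6))
    (@En.n l16485 (nat_lit 12046) (nat_lit 6) (nat_lit 3))
    (@En.n l5839 (nat_lit 12658) (nat_lit 0) (nat_lit 5))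
    (@En.n l19975 (nat_lit 9284) (nat_lit 8) (nat_lit 6))
    (@En.n l7 (nat_lit 12047) (nat_lit 10) (nat_lit 13))
    (@En.n l644 (nat_lit 12368) (nat_lit 11) (nat_lit 9))
    (@En.n l14477 (nat_lit 11908) (nat_lit 12) (nat_lit 10))
    (@En.i (nat_lit 12199) (nat_lit 13) (nat_lit 11))
    (@En.n l19976 (nat_lit 12045) (nat_lit 14) (nat_lit 5))
    (@En.i (nat_lit 12050) (nat_lit 8) (nat_lit 10))
    (@En.n l17 (nat_lit 12048) (nat_lit 15) (nat_lit 2))))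
  (@Cl.mk (nat_lit 0x20005000c0009000d000800040003000d000a00070003000b0008000e0006) (nat_lit 0x85220096007330) (nat_lit 16) Lb.e (@T16.mk En
    (@En.n l21126 (nat_lit 11850) (nat_lit 7) (nat_lit 6))
    (@En.n l7857 (nat_lit 12368) (nat_lit 1) (nat_lit 14))
    (@En.n l7394 (nat_lit 9246) (nat_lit 2) (nat_lit 8))
    (@En.n l295 (nat_lit 12130) (nat_lit 3) (nat_lit 11))
    (@En.n l21127 (nat_lit 12042) (nat_lit 4) (nat_lit 3))
    (@En.i (nat_lit 11315) (nat_lit 5) (nat_lit 7))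
    (@En.n l295 (nat_lit 10689) (nat_lit 7) (nat_lit 10))
    (@En.n l15021 (nat_lit 12073) (nat_lit 8) (nat_lit 13))
    (@En.n l10472 (nat_lit 12041) (nat_lit 8) (nat_lit 3))
    (@En.i (nat_lit 12655) (nat_lit 9) (nat_lit 4))
    (@En.n l21128 (nat_lit 11297) (nat_lit 11) (nat_lit 8))
    (@En.n l7394 (nat_lit 970) (nat_lit 12) (nat_lit 13))
    (@En.i (nat_lit 11900) (nat_lit 13) (nat_lit 9))
    (@En.n l7857 (nat_lit 12170) (nat_lit 14) (nat_lit 12))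
    (@En.i (nat_lit 12510) (nat_lit 13) (nat_lit 5))
    (@En.n l3 (nat_lit 12049) (nat_lit 15) (nat_lit 2))))
  (@Cl.mk (nat_lit 0x40007000c0008000c00070004000a0004000a00090008000c000600090006) (nat_lit 0x83500206546040) (nat_lit 16) Lb.e (@T16.mk En
    (@En.n l35688 (nat_lit 11784) (nat_lit 0) (nat_lit 6))
    (@En.n l35689 (nat_lit 12045) (nat_lit 9) (nat_lit 9))
    (@En.n l29941 (nat_lit 9477) (nat_lit 8) (nat_lit 6))
    (@En.n l7 (nat_lit 11866) (nat_lit 7) (nat_lit 12))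
    (@En.n l644 (nat_lit 11867) (nat_lit 8) (nat_lit 8))
    (@En.n l35690 (nat_lit 9678) (nat_lit 7) (nat_lit 9))
    (@En.i (nat_lit 9921) (nat_lit 13) (nat_lit 10))
    (@En.n l35691 (nat_lit 12060) (nat_lit 7) (nat_lit 4))
    (@En.n l27678 (nat_lit 12051) (nat_lit 0) (nat_lit 10))
    (@En.n l35692 (nat_lit 10477) (nat_lit 1) (nat_lit 4))
    (@En.n l3531 (nat_lit 11275) (nat_lit 0) (nat_lit 7))
    (@En.n l22834 (nat_lit 4294) (nat_lit 1) (nat_lit 12))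
    (@En.n l35693 (nat_lit 10954) (nat_lit 13) (nat_lit 8))
    (@En.n l19973 (nat_lit 10532) (nat_lit 8) (nat_lit 12))
    (@En.n l19974 (nat_lit 10114) (nat_lit 11) (nat_lit 7))
    (@En.n l35694 (nat_lit 11612) (nat_lit 12) (nat_lit 4))))
  (@Cl.mk (nat_lit 0x3000900080007000b0006000b000900070005000800050009000d0007000a) (nat_lit 0x540308500403601) (nat_lit 16) Lb.e (@T16.mk En
    (@En.i (nat_lit 9259) (nat_lit 8) (nat_lit 10))
    (@En.n l20708 (nat_lit 11277) (nat_lit 11) (nat_lit 7))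
    (@En.n l36778 (nat_lit 2837) (nat_lit 6) (nat_lit 13))
    (@En.n l36779 (nat_lit 10953) (nat_lit 3) (nat_lit 9))
    (@En.n l36780 (nat_lit 10372) (nat_lit 4) (nat_lit 5))
    (@En.n l20711 (nat_lit 10110) (nat_lit 10) (nat_lit 8))
    (@En.n l36781 (nat_lit 11614) (nat_lit 6) (nat_lit 5))
    (@En.i (nat_lit 10485) (nat_lit 7) (nat_lit 7))
    (@En.n l36782 (nat_lit 12050) (nat_lit 1) (nat_lit 9))
    (@En.n l36783 (nat_lit 11843) (nat_lit 10) (nat_lit 11))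
    (@En.n l36784 (nat_lit 8409) (nat_lit 11) (nat_lit 6))
    (@En.n l36785 (nat_lit 12052) (nat_lit 12) (nat_lit 11))
    (@En.i (nat_lit 12055) (nat_lit 13) (nat_lit 7))
    (@En.n l36779 (nat_lit 9679) (nat_lit 8) (nat_lit 8))
    (@En.n l34577 (nat_lit 9919) (nat_lit 12) (nat_lit 9))
    (@En.n l36786 (nat_lit 12053) (nat_lit 15) (nat_lit 3))))
  (@Cl.mk (nat_lit 0x3000a0008000b0005000a000800060005000d000800060003000d0008000b) (nat_lit 0x542034003500722) (nat_lit 16) Lb.e (@T16.mk En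
    (@En.n l6678 (nat_lit 9256) (nat_lit 7) (nat_lit 11))
    (@En.n l3591 (nat_lit 11278) (nat_lit 14) (nat_lit 8))
    (@En.n l3592 (nat_lit 4226) (nat_lit 2) (nat_lit 13))
    (@En.n l2419 (nat_lit 12055) (nat_lit 3) (nat_lit 3))
    (@En.n l23346 (nat_lit 8208) (nat_lit 0) (nat_lit 6))
    (@En.n l6678 (nat_lit 12051) (nat_lit 5) (nat_lit 8))
    (@En.n l23347 (nat_lit 11983) (nat_lit 2) (nat_lit 13))
    (@En.n l23348 (nat_lit 12009) (nat_lit 11) (nat_lit 5))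
    (@En.n l2700 (nat_lit 10483) (nat_lit 8) (nat_lit 6))
    (@En.n l1003 (nat_lit 11866) (nat_lit 5) (nat_lit 8))
    (@En.n l23346 (nat_lit 11844) (nat_lit 11) (nat_lit 10))
    (@En.n l23349 (nat_lit 9684) (nat_lit 7) (nat_lit 5))
    (@En.i (nat_lit 7385) (nat_lit 7) (nat_lit 11))
    (@En.n l23350 (nat_lit 9677) (nat_lit 14) (nat_lit 8))
    (@En.n l3589 (nat_lit 10508) (nat_lit 11) (nat_lit 10))
    (@En.n l23351 (nat_lit 12054) (nat_lit 15) (nat_lit 3))))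
  (@Cl.mk (nat_lit 0x3000900080007000b0007000b000800070005000800050009000d00090008) (nat_lit 0x560307400406524) (nat_lit 16) Lb.e (@T16.mk En
    (@En.n l43525 (nat_lit 12221) (nat_lit 0) (nat_lit 8))
    (@En.n l43526 (nat_lit 11858) (nat_lit 13) (nat_lit 9))
    (@En.n l31300 (nat_lit 2835) (nat_lit 6) (nat_lit 13))
    (@En.n l41916 (nat_lit 10956) (nat_lit 3) (nat_lit 9))
    (@En.i (nat_lit 10373) (nat_lit 4) (nat_lit 5))
    (@En.n l41916 (nat_lit 10111) (nat_lit 10) (nat_lit 8))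
    (@En.n l8776 (nat_lit 11615) (nat_lit 6) (nat_lit 5))
    (@En.n l17 (nat_lit 10486) (nat_lit 7) (nat_lit 7))
    (@En.n l43527 (nat_lit 12060) (nat_lit 1) (nat_lit 8))
    (@En.i (nat_lit 11842) (nat_lit 8) (nat_lit 11))
    (@En.n l43528 (nat_lit 10059) (nat_lit 11) (nat_lit 7))
    (@En.i (nat_lit 12054) (nat_lit 12) (nat_lit 11))
    (@En.n l43529 (nat_lit 12056) (nat_lit 13) (nat_lit 7))
    (@En.n l43530 (nat_lit 10648) (nat_lit 8) (nat_lit 8))
    (@En.n l31303 (nat_lit 9622) (nat_lit 12) (nat_lit 9))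
    (@En.n l43531 (nat_lit 12051) (nat_lit 15) (nat_lit 3))))
  (@Cl.mk (nat_lit 0x3000a0008000b0006000a000700060005000d000800060003000d000a0009) (nat_lit 0x552060004500645) (nat_lit 16) Lb.e (@T16.mk En
    (@En.n l14223 (nat_lit 12220) (nat_lit 0) (nat_lit 9))
    (@En.n l28180 (nat_lit 11859) (nat_lit 14) (nat_lit 10))
    (@En.i (nat_lit 2836) (nat_lit 2) (nat_lit 13))
    (@En.n l38936 (nat_lit 12056) (nat_lit 3) (nat_lit 3))
    (@En.i (nat_lit 8207) (nat_lit 0) (nat_lit 6))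
    (@En.n l936 (nat_lit 12053) (nat_lit 5) (nat_lit 8))
    (@En.n l38583 (nat_lit 11981) (nat_lit 2) (nat_lit 13))
    (@En.i (nat_lit 12008) (nat_lit 11) (nat_lit 5))
    (@En.n l17 (nat_lit 10484) (nat_lit 10) (nat_lit 6))
    (@En.n l34884 (nat_lit 10925) (nat_lit 5) (nat_lit 7))
    (@En.i (nat_lit 11841) (nat_lit 9) (nat_lit 10))
    (@En.n l22842 (nat_lit 9818) (nat_lit 7) (nat_lit 6))
    (@En.n l10040 (nat_lit 7405) (nat_lit 7) (nat_lit 11))
    (@En.n l38937 (nat_lit 10647) (nat_lit 14) (nat_lit 8))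
    (@En.n l11419 (nat_lit 9623) (nat_lit 11) (nat_lit 10))
    (@En.n l38938 (nat_lit 12052) (nat_lit 15) (nat_lit 3))))
  (@Cl.mk (nat_lit 0x3000a0007000b0005000b000800060005000d000500090003000d0008000b) (nat_lit 0x202034004040637) (nat_lit 16) Lb.e (@T16.mk En
    (@En.i (nat_lit 9258) (nat_lit 7) (nat_lit 11))
    (@En.i (nat_lit 11209) (nat_lit 14) (nat_lit 8))
    (@En.n l13717 (nat_lit 10023) (nat_lit 2) (nat_lit 13))
    (@En.n l1284 (nat_lit 12052) (nat_lit 3) (nat_lit 3))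
    (@En.n l17171 (nat_lit 10957) (nat_lit 0) (nat_lit 9))
    (@En.n l27309 (nat_lit 10064) (nat_lit 5) (nat_lit 5))
    (@En.n l33375 (nat_lit 11982) (nat_lit 2) (nat_lit 13))
    (@En.n l35232 (nat_lit 11628) (nat_lit 11) (nat_lit 5))
    (@En.i (nat_lit 10482) (nat_lit 8) (nat_lit 6))
    (@En.n l35233 (nat_lit 11867) (nat_lit 5) (nat_lit 8))
    (@En.n l2577 (nat_lit 10187) (nat_lit 11) (nat_lit 11))
    (@En.n l8132 (nat_lit 9688) (nat_lit 7) (nat_lit 5))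
    (@En.n l2763 (nat_lit 7382) (nat_lit 8) (nat_lit 11))
    (@En.n l5649 (nat_lit 11814) (nat_lit 14) (nat_lit 7))
    (@En.n l50 (nat_lit 10507) (nat_lit 11) (nat_lit 10))
    (@En.n l35234 (nat_lit 12056) (nat_lit 15) (nat_lit 3))))
  (@Cl.mk (nat_lit 0x3000a0007000b0006000b000700060005000d000500090003000d000a0009) (nat_lit 0x202030004050644) (nat_lit 16) Lb.e (@T16.mk En
    (@En.n l42758 (nat_lit 12222) (nat_lit 0) (nat_lit 9))
    (@En.n l11008 (nat_lit 11861) (nat_lit 14) (nat_lit 10))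
    (@En.n l19313 (nat_lit 10022) (nat_lit 2) (nat_lit 13))
    (@En.n l42759 (nat_lit 12054) (nat_lit 3) (nat_lit 3))
    (@En.n l28073 (nat_lit 11587) (nat_lit 0) (nat_lit 9))
    (@En.n l42759 (nat_lit 10065) (nat_lit 5) (nat_lit 5))
    (@En.n l42385 (nat_lit 11980) (nat_lit 2) (nat_lit 13))
    (@En.n l42760 (nat_lit 11626) (nat_lit 11) (nat_lit 5))
    (@En.i (nat_lit 10436) (nat_lit 10) (nat_lit 6))
    (@En.n l42384 (nat_lit 10924) (nat_lit 5) (nat_lit 7))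
    (@En.n l42759 (nat_lit 11840) (nat_lit 11) (nat_lit 11))
    (@En.n l19416 (nat_lit 9821) (nat_lit 7) (nat_lit 6))
    (@En.i (nat_lit 7406) (nat_lit 8) (nat_lit 11))
    (@En.n l42761 (nat_lit 10638) (nat_lit 14) (nat_lit 7))
    (@En.n l15519 (nat_lit 9627) (nat_lit 11) (nat_lit 10))
    (@En.n l42762 (nat_lit 12055) (nat_lit 15) (nat_lit 3))))
  (@Cl.mk (nat_lit 0x3000900090004000a00090008000c00070007000600040007000d0008000c) (nat_lit 0x360376200000931) (nat_lit 16) Lb.e (@T16.mk En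
    (@En.n l2941 (nat_lit 1335) (nat_lit 0) (nat_lit 12))
    (@En.n l36441 (nat_lit 11429) (nat_lit 13) (nat_lit 8))
    (@En.n l22892 (nat_lit 11261) (nat_lit 2) (nat_lit 13))
    (@En.n l36442 (nat_lit 11354) (nat_lit 11) (nat_lit 7))
    (@En.n l3 (nat_lit 12019) (nat_lit 4) (nat_lit 4))
    (@En.n l3518 (nat_lit 10824) (nat_lit 0) (nat_lit 6))
    (@En.n l7062 (nat_lit 12029) (nat_lit 9) (nat_lit 7))
    (@En.i (nat_lit 10064) (nat_lit 7) (nat_lit 7))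
    (@En.n l936 (nat_lit 12058) (nat_lit 9) (nat_lit 12))
    (@En.n l55 (nat_lit 12059) (nat_lit 8) (nat_lit 8))
    (@En.n l36443 (nat_lit 12447) (nat_lit 11) (nat_lit 9))
    (@En.n l3521 (nat_lit 7130) (nat_lit 12) (nat_lit 10))
    (@En.n l28193 (nat_lit 12050) (nat_lit 7) (nat_lit 4))
    (@En.n l14172 (nat_lit 12063) (nat_lit 7) (nat_lit 9))
    (@En.n l36444 (nat_lit 12053) (nat_lit 1) (nat_lit 9))
    (@En.n l14168 (nat_lit 12061) (nat_lit 15) (nat_lit 3))))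
  (@Cl.mk (nat_lit 0x3000a000a0004000b0009000c0006000600050004000d0007000d0003000c) (nat_lit 0x5603710000a0a08) (nat_lit 16) Lb.e (@T16.mk En
    (@En.n l3521 (nat_lit 3484) (nat_lit 0) (nat_lit 12))
    (@En.i (nat_lit 12059) (nat_lit 15) (nat_lit 3))
    (@En.n l25823 (nat_lit 6171) (nat_lit 0) (nat_lit 13))
    (@En.i (nat_lit 12057) (nat_lit 3) (nat_lit 7))
    (@En.n l14169 (nat_lit 11301) (nat_lit 2) (nat_lit 13))
    (@En.n l3 (nat_lit 12017) (nat_lit 12) (nat_lit 4))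
    (@En.n l28191 (nat_lit 10823) (nat_lit 6) (nat_lit 5))
    (@En.n l7062 (nat_lit 12035) (nat_lit 10) (nat_lit 6))
    (@En.i (nat_lit 10469) (nat_lit 8) (nat_lit 6))
    (@En.n l3521 (nat_lit 3560) (nat_lit 6) (nat_lit 12))
    (@En.n l28192 (nat_lit 12446) (nat_lit 11) (nat_lit 9))
    (@En.n l3521 (nat_lit 7051) (nat_lit 10) (nat_lit 11))
    (@En.n l28193 (nat_lit 11866) (nat_lit 10) (nat_lit 4))
    (@En.n l14172 (nat_lit 10941) (nat_lit 6) (nat_lit 10))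
    (@En.n l14173 (nat_lit 12054) (nat_lit 1) (nat_lit 10))
    (@En.i (nat_lit 12062) (nat_lit 15) (nat_lit 3))))
  (@Cl.mk (nat_lit 0x3000c0004000a000a0004000b0008000c0006000600050004000d000c0008) (nat_lit 0x805603520000b94) (nat_lit 16) Lb.e (@T16.mk En
    (@En.n l28215 (nat_lit 11658) (nat_lit 0) (nat_lit 8))
    (@En.n l77 (nat_lit 12062) (nat_lit 4) (nat_lit 12))
    (@En.n l14169 (nat_lit 11298) (nat_lit 2) (nat_lit 13))
    (@En.n l16386 (nat_lit 12007) (nat_lit 12) (nat_lit 4))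
    (@En.n l32163 (nat_lit 10827) (nat_lit 11) (nat_lit 5))
    (@En.n l24153 (nat_lit 12244) (nat_lit 10) (nat_lit 6))
    (@En.i (nat_lit 10212) (nat_lit 6) (nat_lit 6))
    (@En.n l32163 (nat_lit 3561) (nat_lit 7) (nat_lit 12))
    (@En.n l28192 (nat_lit 12361) (nat_lit 14) (nat_lit 8))
    (@En.n l3521 (nat_lit 7122) (nat_lit 10) (nat_lit 11))
    (@En.n l28193 (nat_lit 11867) (nat_lit 10) (nat_lit 4))
    (@En.n l32164 (nat_lit 10943) (nat_lit 6) (nat_lit 10))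
    (@En.n l28559 (nat_lit 12056) (nat_lit 1) (nat_lit 10))
    (@En.n l34107 (nat_lit 10337) (nat_lit 14) (nat_lit 4))
    (@En.n l34108 (nat_lit 10559) (nat_lit 0) (nat_lit 12))
    (@En.n l28 (nat_lit 12058) (nat_lit 1) (nat_lit 3))))
  (@Cl.mk (nat_lit 0x40007000b0008000c0008000800050004000a00090008000c000800080006) (nat_lit 0x53124002615130) (nat_lit 16) Lb.e (@T16.mk En
    (@En.n l29562 (nat_lit 10837) (nat_lit 0) (nat_lit 6))
    (@En.n l37250 (nat_lit 12031) (nat_lit 8) (nat_lit 8))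
    (@En.n l15120 (nat_lit 10070) (nat_lit 1) (nat_lit 8))
    (@En.n l37251 (nat_lit 10925) (nat_lit 7) (nat_lit 12))
    (@En.n l37252 (nat_lit 10924) (nat_lit 8) (nat_lit 8))
    (@En.n l37253 (nat_lit 11874) (nat_lit 7) (nat_lit 9))
    (@En.n l37254 (nat_lit 7553) (nat_lit 7) (nat_lit 10))
    (@En.n l15120 (nat_lit 12057) (nat_lit 12) (nat_lit 4))
    (@En.n l37255 (nat_lit 10479) (nat_lit 0) (nat_lit 5))
    (@En.n l575 (nat_lit 12318) (nat_lit 8) (nat_lit 8))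
    (@En.n l37256 (nat_lit 11857) (nat_lit 1) (nat_lit 8))
    (@En.n l37257 (nat_lit 1336) (nat_lit 7) (nat_lit 12))
    (@En.n l33679 (nat_lit 11405) (nat_lit 13) (nat_lit 8))
    (@En.n l37255 (nat_lit 9895) (nat_lit 8) (nat_lit 11))
    (@En.i (nat_lit 10115) (nat_lit 11) (nat_lit 7))
    (@En.n l37258 (nat_lit 12020) (nat_lit 15) (nat_lit 4))))
  (@Cl.mk (nat_lit 0x3000900090005000a00090007000c00070007000600040007000d000b0009) (nat_lit 0x250150200000a61) (nat_lit 16) Lb.e (@T16.mk En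
    (@En.n l20876 (nat_lit 7186) (nat_lit 0) (nat_lit 9))
    (@En.n l28224 (nat_lit 12060) (nat_lit 13) (nat_lit 11))
    (@En.n l28225 (nat_lit 11262) (nat_lit 2) (nat_lit 13))
    (@En.n l18989 (nat_lit 11353) (nat_lit 11) (nat_lit 7))
    (@En.n l28226 (nat_lit 12021) (nat_lit 4) (nat_lit 4))
    (@En.n l28227 (nat_lit 10831) (nat_lit 0) (nat_lit 6))
    (@En.n l1900 (nat_lit 12033) (nat_lit 9) (nat_lit 7))
    (@En.n l28228 (nat_lit 10065) (nat_lit 7) (nat_lit 7))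
    (@En.n l28229 (nat_lit 12062) (nat_lit 9) (nat_lit 12))
    (@En.n l12842 (nat_lit 10337) (nat_lit 9) (nat_lit 7))
    (@En.i (nat_lit 12445) (nat_lit 11) (nat_lit 9))
    (@En.n l28225 (nat_lit 6882) (nat_lit 12) (nat_lit 10))
    (@En.i (nat_lit 10481) (nat_lit 7) (nat_lit 5))
    (@En.n l17986 (nat_lit 11138) (nat_lit 7) (nat_lit 9))
    (@En.n l13489 (nat_lit 10073) (nat_lit 1) (nat_lit 9))
    (@En.n l28230 (nat_lit 12057) (nat_lit 15) (nat_lit 3))))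
  (@Cl.mk (nat_lit 0x3000a000a0005000b0009000c0006000600050004000c0007000d000b0004) (nat_lit 0x260361000080a70) (nat_lit 16) Lb.e (@T16.mk En
    (@En.n l14166 (nat_lit 10271) (nat_lit 0) (nat_lit 4))
    (@En.i (nat_lit 10925) (nat_lit 0) (nat_lit 11))
    (@En.n l14167 (nat_lit 6071) (nat_lit 1) (nat_lit 13))
    (@En.n l14168 (nat_lit 12061) (nat_lit 3) (nat_lit 7))
    (@En.n l14169 (nat_lit 9991) (nat_lit 3) (nat_lit 12))
    (@En.n l3 (nat_lit 12018) (nat_lit 12) (nat_lit 4))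
    (@En.n l14167 (nat_lit 10159) (nat_lit 6) (nat_lit 5))
    (@En.n l7579 (nat_lit 12498) (nat_lit 10) (nat_lit 6))
    (@En.i (nat_lit 10470) (nat_lit 8) (nat_lit 6))
    (@En.n l14166 (nat_lit 3562) (nat_lit 6) (nat_lit 12))
    (@En.n l14170 (nat_lit 12444) (nat_lit 11) (nat_lit 9))
    (@En.n l14166 (nat_lit 6880) (nat_lit 12) (nat_lit 11))
    (@En.n l14171 (nat_lit 10480) (nat_lit 13) (nat_lit 5))
    (@En.n l14172 (nat_lit 11135) (nat_lit 6) (nat_lit 10))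
    (@En.n l14173 (nat_lit 10083) (nat_lit 1) (nat_lit 10))
    (@En.n l7 (nat_lit 12058) (nat_lit 15) (nat_lit 3))))
  (@Cl.mk (nat_lit 0x2000700050008000d0009000d000300090003000900080007000b000e0007) (nat_lit 0x5a36050140470) (nat_lit 16) Lb.e (@T16.mk En
    (@En.n l15602 (nat_lit 12057) (nat_lit 7) (nat_lit 7))
    (@En.i (nat_lit 6043) (nat_lit 4) (nat_lit 14))
    (@En.n l936 (nat_lit 10941) (nat_lit 2) (nat_lit 11))
    (@En.n l2824 (nat_lit 10943) (nat_lit 3) (nat_lit 7))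
    (@En.i (nat_lit 12323) (nat_lit 4) (nat_lit 8))
    (@En.n l20701 (nat_lit 7042) (nat_lit 5) (nat_lit 9))
    (@En.n l20702 (nat_lit 12318) (nat_lit 6) (nat_lit 3))
    (@En.n l1101 (nat_lit 11596) (nat_lit 0) (nat_lit 9))
    (@En.n l15605 (nat_lit 11138) (nat_lit 8) (nat_lit 3))
    (@En.n l5320 (nat_lit 3494) (nat_lit 10) (nat_lit 13))
    (@En.n l20703 (nat_lit 11660) (nat_lit 11) (nat_lit 9))
    (@En.n l20704 (nat_lit 11259) (nat_lit 12) (nat_lit 13))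
    (@En.n l20705 (nat_lit 11357) (nat_lit 13) (nat_lit 8))
    (@En.n l20706 (nat_lit 12316) (nat_lit 14) (nat_lit 5))
    (@En.n l20707 (nat_lit 9765) (nat_lit 5) (nat_lit 7))
    (@En.n l17 (nat_lit 12063) (nat_lit 15) (nat_lit 2))))
noncomputable def a754 : T16 Cl := @T16.mk Cl
  (@Cl.mk (nat_lit 0x3000c00080008000d000400080003000c000a000800080004000d00080006) (nat_lit 0x963601085110330) (nat_lit 16) Lb.e (@T16.mk En
    (@En.n l7081 (nat_lit 5601) (nat_lit 0) (nat_lit 6))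
    (@En.n l34245 (nat_lit 11940) (nat_lit 14) (nat_lit 8))
    (@En.n l1415 (nat_lit 10607) (nat_lit 10) (nat_lit 13))
    (@En.n l24384 (nat_lit 10621) (nat_lit 10) (nat_lit 4))
    (@En.n l61 (nat_lit 4172) (nat_lit 8) (nat_lit 8))
    (@En.n l25672 (nat_lit 11469) (nat_lit 5) (nat_lit 8))
    (@En.n l11084 (nat_lit 5592) (nat_lit 14) (nat_lit 10))
    (@En.n l21412 (nat_lit 12176) (nat_lit 8) (nat_lit 12))
    (@En.n l34246 (nat_lit 12065) (nat_lit 8) (nat_lit 3))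
    (@En.n l781 (nat_lit 8111) (nat_lit 0) (nat_lit 8))
    (@En.n l11526 (nat_lit 11936) (nat_lit 10) (nat_lit 4))
    (@En.n l25341 (nat_lit 10227) (nat_lit 0) (nat_lit 13))
    (@En.n l34247 (nat_lit 12068) (nat_lit 8) (nat_lit 8))
    (@En.i (nat_lit 10067) (nat_lit 14) (nat_lit 8))
    (@En.n l23810 (nat_lit 10353) (nat_lit 3) (nat_lit 12))
    (@En.n l17184 (nat_lit 4176) (nat_lit 15) (nat_lit 3))))
  (@Cl.mk (nat_lit 0x3000b00080008000d000700050003000c000a000800080004000d00090006) (nat_lit 0x723b00085550140) (nat_lit 16) Lb.e (@T16.mk En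
    (@En.n l36567 (nat_lit 5600) (nat_lit 0) (nat_lit 6))
    (@En.i (nat_lit 11742) (nat_lit 14) (nat_lit 9))
    (@En.n l11365 (nat_lit 55) (nat_lit 2) (nat_lit 13))
    (@En.n l11 (nat_lit 11787) (nat_lit 3) (nat_lit 4))
    (@En.n l36568 (nat_lit 12066) (nat_lit 8) (nat_lit 8))
    (@En.n l36569 (nat_lit 11468) (nat_lit 5) (nat_lit 8))
    (@En.i (nat_lit 5593) (nat_lit 14) (nat_lit 10))
    (@En.n l36570 (nat_lit 10418) (nat_lit 8) (nat_lit 12))
    (@En.n l36571 (nat_lit 12064) (nat_lit 8) (nat_lit 3))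
    (@En.n l18 (nat_lit 12109) (nat_lit 0) (nat_lit 5))
    (@En.n l32959 (nat_lit 12001) (nat_lit 0) (nat_lit 7))
    (@En.i (nat_lit 10231) (nat_lit 12) (nat_lit 13))
    (@En.n l14833 (nat_lit 12067) (nat_lit 8) (nat_lit 8))
    (@En.n l36569 (nat_lit 10069) (nat_lit 14) (nat_lit 8))
    (@En.n l36572 (nat_lit 11610) (nat_lit 11) (nat_lit 11))
    (@En.n l7 (nat_lit 11025) (nat_lit 15) (nat_lit 3))))
  (@Cl.mk (nat_lit 0x2000d000800060003000d000b00080003000d000800050003000a000e0008) (nat_lit 0x760055403100683) (nat_lit 16) Lb.e (@T16.mk En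
    (@En.n l20203 (nat_lit 12065) (nat_lit 13) (nat_lit 8))
    (@En.i (nat_lit 5334) (nat_lit 1) (nat_lit 14))
    (@En.n l5021 (nat_lit 12223) (nat_lit 2) (nat_lit 10))
    (@En.i (nat_lit 4174) (nat_lit 3) (nat_lit 3))
    (@En.n l7081 (nat_lit 5597) (nat_lit 0) (nat_lit 5))
    (@En.n l10976 (nat_lit 8110) (nat_lit 5) (nat_lit 8))
    (@En.n l1415 (nat_lit 12074) (nat_lit 7) (nat_lit 13))
    (@En.n l7081 (nat_lit 11018) (nat_lit 7) (nat_lit 3))
    (@En.i (nat_lit 11463) (nat_lit 0) (nat_lit 8))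
    (@En.n l11084 (nat_lit 5588) (nat_lit 10) (nat_lit 11))
    (@En.i (nat_lit 11038) (nat_lit 11) (nat_lit 13))
    (@En.n l152 (nat_lit 4172) (nat_lit 11) (nat_lit 3))
    (@En.n l18413 (nat_lit 12396) (nat_lit 0) (nat_lit 6))
    (@En.n l97 (nat_lit 12643) (nat_lit 14) (nat_lit 8))
    (@En.n l25222 (nat_lit 9758) (nat_lit 2) (nat_lit 13))
    (@En.n l17 (nat_lit 12066) (nat_lit 15) (nat_lit 2))))
  (@Cl.mk (nat_lit 0x20005000d000a00070003000c0008000d000600040003000b0009000e0008) (nat_lit 0x86006250008546) (nat_lit 16) Lb.e (@T16.mk En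
    (@En.n l16185 (nat_lit 12065) (nat_lit 5) (nat_lit 8))
    (@En.n l16429 (nat_lit 12072) (nat_lit 1) (nat_lit 14))
    (@En.n l4353 (nat_lit 12802) (nat_lit 2) (nat_lit 9))
    (@En.n l250 (nat_lit 11899) (nat_lit 3) (nat_lit 11))
    (@En.n l18405 (nat_lit 12068) (nat_lit 4) (nat_lit 3))
    (@En.n l9647 (nat_lit 12115) (nat_lit 5) (nat_lit 4))
    (@En.i (nat_lit 12073) (nat_lit 6) (nat_lit 6))
    (@En.n l11446 (nat_lit 3826) (nat_lit 8) (nat_lit 13))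
    (@En.n l810 (nat_lit 10831) (nat_lit 9) (nat_lit 8))
    (@En.n l21273 (nat_lit 11608) (nat_lit 10) (nat_lit 12))
    (@En.n l11452 (nat_lit 12071) (nat_lit 10) (nat_lit 3))
    (@En.n l11453 (nat_lit 5798) (nat_lit 12) (nat_lit 7))
    (@En.n l11446 (nat_lit 7661) (nat_lit 13) (nat_lit 10))
    (@En.n l21274 (nat_lit 12074) (nat_lit 14) (nat_lit 13))
    (@En.i (nat_lit 12572) (nat_lit 13) (nat_lit 5))
    (@En.n l3 (nat_lit 12067) (nat_lit 15) (nat_lit 2))))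
  (@Cl.mk (nat_lit 0x20005000d000900070003000d0008000d000300070003000b0009000e0008) (nat_lit 0x74007240008562) (nat_lit 16) Lb.e (@T16.mk En
    (@En.n l18456 (nat_lit 12064) (nat_lit 5) (nat_lit 8))
    (@En.n l18457 (nat_lit 11923) (nat_lit 1) (nat_lit 14))
    (@En.n l18458 (nat_lit 12803) (nat_lit 2) (nat_lit 9))
    (@En.i (nat_lit 12163) (nat_lit 3) (nat_lit 11))
    (@En.n l4233 (nat_lit 12067) (nat_lit 4) (nat_lit 3))
    (@En.n l7271 (nat_lit 8108) (nat_lit 5) (nat_lit 7))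
    (@En.n l4233 (nat_lit 12069) (nat_lit 6) (nat_lit 3))
    (@En.n l4240 (nat_lit 3840) (nat_lit 8) (nat_lit 13))
    (@En.n l7508 (nat_lit 10830) (nat_lit 9) (nat_lit 8))
    (@En.n l18459 (nat_lit 12288) (nat_lit 10) (nat_lit 13))
    (@En.n l18460 (nat_lit 12070) (nat_lit 10) (nat_lit 3))
    (@En.n l4240 (nat_lit 5797) (nat_lit 12) (nat_lit 7))
    (@En.i (nat_lit 11941) (nat_lit 13) (nat_lit 9))
    (@En.n l644 (nat_lit 12075) (nat_lit 14) (nat_lit 13))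
    (@En.i (nat_lit 12573) (nat_lit 13) (nat_lit 5))
    (@En.n l3 (nat_lit 12068) (nat_lit 15) (nat_lit 2))))
  (@Cl.mk (nat_lit 0x20005000d000900070003000d000c0009000300070004000b0009000e0007) (nat_lit 0x74006740008570) (nat_lit 16) Lb.e (@T16.mk En
    (@En.n l6528 (nat_lit 11936) (nat_lit 5) (nat_lit 7))
    (@En.n l24032 (nat_lit 11917) (nat_lit 1) (nat_lit 14))
    (@En.n l29194 (nat_lit 12804) (nat_lit 2) (nat_lit 9))
    (@En.n l1162 (nat_lit 12162) (nat_lit 3) (nat_lit 11))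
    (@En.n l29002 (nat_lit 12117) (nat_lit 4) (nat_lit 4))
    (@En.n l2966 (nat_lit 12049) (nat_lit 5) (nat_lit 7))
    (@En.n l13927 (nat_lit 12068) (nat_lit 6) (nat_lit 3))
    (@En.n l1162 (nat_lit 12033) (nat_lit 0) (nat_lit 9))
    (@En.n l644 (nat_lit 12067) (nat_lit 9) (nat_lit 12))
    (@En.n l7468 (nat_lit 12289) (nat_lit 10) (nat_lit 13))
    (@En.n l29586 (nat_lit 11918) (nat_lit 10) (nat_lit 3))
    (@En.n l6478 (nat_lit 5795) (nat_lit 12) (nat_lit 7))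
    (@En.n l10420 (nat_lit 11937) (nat_lit 13) (nat_lit 9))
    (@En.n l11959 (nat_lit 12479) (nat_lit 14) (nat_lit 13))
    (@En.i (nat_lit 12576) (nat_lit 13) (nat_lit 5))
    (@En.n l3 (nat_lit 12069) (nat_lit 15) (nat_lit 2))))
  (@Cl.mk (nat_lit 0x20005000d0006000a0003000d0008000d000300060003000b000a000e0008) (nat_lit 0x70207640009561) (nat_lit 16) Lb.e (@T16.mk En
    (@En.n l2125 (nat_lit 4176) (nat_lit 5) (nat_lit 8))
    (@En.n l29210 (nat_lit 11919) (nat_lit 1) (nat_lit 14))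
    (@En.n l10686 (nat_lit 11915) (nat_lit 2) (nat_lit 10))
    (@En.n l8226 (nat_lit 12164) (nat_lit 3) (nat_lit 11))
    (@En.n l29211 (nat_lit 12071) (nat_lit 4) (nat_lit 3))
    (@En.i (nat_lit 12250) (nat_lit 5) (nat_lit 6))
    (@En.n l18614 (nat_lit 11918) (nat_lit 6) (nat_lit 3))
    (@En.n l2038 (nat_lit 3842) (nat_lit 0) (nat_lit 13))
    (@En.n l29212 (nat_lit 10825) (nat_lit 9) (nat_lit 8))
    (@En.n l9645 (nat_lit 11941) (nat_lit 10) (nat_lit 13))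
    (@En.n l8229 (nat_lit 12068) (nat_lit 10) (nat_lit 3))
    (@En.i (nat_lit 6629) (nat_lit 12) (nat_lit 10))
    (@En.n l9646 (nat_lit 11535) (nat_lit 13) (nat_lit 6))
    (@En.n l9641 (nat_lit 12483) (nat_lit 14) (nat_lit 13))
    (@En.n l8147 (nat_lit 12574) (nat_lit 13) (nat_lit 5))
    (@En.n l476 (nat_lit 12070) (nat_lit 15) (nat_lit 2))))
  (@Cl.mk (nat_lit 0x20005000d0006000b0003000c0008000d000500040003000b000a000e0008) (nat_lit 0x80607240009546) (nat_lit 16) Lb.e (@T16.mk En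
    (@En.n l152 (nat_lit 11025) (nat_lit 5) (nat_lit 8))
    (@En.n l936 (nat_lit 11026) (nat_lit 1) (nat_lit 14))
    (@En.n l55 (nat_lit 11027) (nat_lit 2) (nat_lit 10))
    (@En.n l9974 (nat_lit 11900) (nat_lit 3) (nat_lit 11))
    (@En.n l14832 (nat_lit 12070) (nat_lit 4) (nat_lit 3))
    (@En.n l18 (nat_lit 12114) (nat_lit 5) (nat_lit 4))
    (@En.i (nat_lit 12653) (nat_lit 6) (nat_lit 5))
    (@En.i (nat_lit 3841) (nat_lit 8) (nat_lit 13))
    (@En.n l61 (nat_lit 10824) (nat_lit 9) (nat_lit 8))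
    (@En.n l1867 (nat_lit 11755) (nat_lit 10) (nat_lit 12))
    (@En.n l14833 (nat_lit 12067) (nat_lit 10) (nat_lit 3))
    (@En.n l9974 (nat_lit 9519) (nat_lit 12) (nat_lit 11))
    (@En.n l14834 (nat_lit 11537) (nat_lit 13) (nat_lit 6))
    (@En.n l5579 (nat_lit 12076) (nat_lit 14) (nat_lit 13))
    (@En.n l6094 (nat_lit 12575) (nat_lit 13) (nat_lit 5))
    (@En.n l3 (nat_lit 12071) (nat_lit 15) (nat_lit 2))))
  (@Cl.mk (nat_lit 0x2000c0005000d000a00040003000c0009000d000600040003000b000e0007) (nat_lit 0x409300721000830) (nat_lit 16) Lb.e (@T16.mk En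
    (@En.n l152 (nat_lit 11021) (nat_lit 6) (nat_lit 7))
    (@En.n l14597 (nat_lit 2249) (nat_lit 4) (nat_lit 14))
    (@En.i (nat_lit 11898) (nat_lit 2) (nat_lit 11))
    (@En.n l4005 (nat_lit 11923) (nat_lit 3) (nat_lit 3))
    (@En.n l4296 (nat_lit 12770) (nat_lit 0) (nat_lit 4))
    (@En.i (nat_lit 12360) (nat_lit 5) (nat_lit 6))
    (@En.i (nat_lit 3844) (nat_lit 7) (nat_lit 13))
    (@En.n l18431 (nat_lit 10159) (nat_lit 14) (nat_lit 9))
    (@En.n l4003 (nat_lit 11604) (nat_lit 9) (nat_lit 12))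
    (@En.n l7 (nat_lit 11026) (nat_lit 9) (nat_lit 3))
    (@En.n l18432 (nat_lit 12799) (nat_lit 10) (nat_lit 4))
    (@En.i (nat_lit 12630) (nat_lit 12) (nat_lit 10))
    (@En.n l1140 (nat_lit 6092) (nat_lit 13) (nat_lit 13))
    (@En.n l14833 (nat_lit 12067) (nat_lit 14) (nat_lit 5))
    (@En.i (nat_lit 12036) (nat_lit 11) (nat_lit 12))
    (@En.n l3 (nat_lit 12072) (nat_lit 15) (nat_lit 2))))
  (@Cl.mk (nat_lit 0x20005000c000a000900080004000d0009000600030007000b0008000e0007) (nat_lit 0x75530850007440) (nat_lit 16) Lb.e (@T16.mk En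
    (@En.i (nat_lit 12001) (nat_lit 11) (nat_lit 7))
    (@En.n l16429 (nat_lit 12360) (nat_lit 1) (nat_lit 14))
    (@En.n l10795 (nat_lit 11516) (nat_lit 2) (nat_lit 8))
    (@En.n l31215 (nat_lit 12366) (nat_lit 3) (nat_lit 11))
    (@En.n l31419 (nat_lit 11701) (nat_lit 4) (nat_lit 7))
    (@En.i (nat_lit 12358) (nat_lit 5) (nat_lit 3))
    (@En.n l8163 (nat_lit 7172) (nat_lit 6) (nat_lit 6))
    (@En.n l25675 (nat_lit 11771) (nat_lit 8) (nat_lit 9))
    (@En.n l565 (nat_lit 11733) (nat_lit 9) (nat_lit 13))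
    (@En.n l11452 (nat_lit 12653) (nat_lit 9) (nat_lit 4))
    (@En.n l8807 (nat_lit 10933) (nat_lit 11) (nat_lit 8))
    (@En.n l9133 (nat_lit 12068) (nat_lit 12) (nat_lit 9))
    (@En.n l5399 (nat_lit 12624) (nat_lit 13) (nat_lit 10))
    (@En.n l31420 (nat_lit 12168) (nat_lit 14) (nat_lit 12))
    (@En.i (nat_lit 12793) (nat_lit 13) (nat_lit 5))
    (@En.n l3 (nat_lit 12073) (nat_lit 15) (nat_lit 2))))
  (@Cl.mk (nat_lit 0x2000d0009000600030009000c0008000d0007000400030007000a000e0008) (nat_lit 0x720055620000531) (nat_lit 16) Lb.e (@T16.mk En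
    (@En.i (nat_lit 55) (nat_lit 4) (nat_lit 8))
    (@En.i (nat_lit 6092) (nat_lit 1) (nat_lit 14))
    (@En.n l2129 (nat_lit 12799) (nat_lit 2) (nat_lit 10))
    (@En.n l21969 (nat_lit 12479) (nat_lit 3) (nat_lit 7))
    (@En.n l20999 (nat_lit 12075) (nat_lit 4) (nat_lit 3))
    (@En.n l28 (nat_lit 7566) (nat_lit 0) (nat_lit 4))
    (@En.n l6576 (nat_lit 12168) (nat_lit 6) (nat_lit 7))
    (@En.i (nat_lit 4075) (nat_lit 8) (nat_lit 13))
    (@En.n l601 (nat_lit 6119) (nat_lit 3) (nat_lit 8))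
    (@En.i (nat_lit 5612) (nat_lit 6) (nat_lit 12))
    (@En.n l21970 (nat_lit 12077) (nat_lit 11) (nat_lit 9))
    (@En.n l152 (nat_lit 12076) (nat_lit 11) (nat_lit 3))
    (@En.n l1792 (nat_lit 5370) (nat_lit 0) (nat_lit 6))
    (@En.n l97 (nat_lit 12188) (nat_lit 14) (nat_lit 9))
    (@En.n l1236 (nat_lit 12478) (nat_lit 2) (nat_lit 13))
    (@En.n l17 (nat_lit 12074) (nat_lit 15) (nat_lit 2))))
  (@Cl.mk (nat_lit 0x2000d0008000600030009000d0008000d0003000800030007000a000e0008) (nat_lit 0x650057120600584) (nat_lit 16) Lb.e (@T16.mk En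
    (@En.n l34248 (nat_lit 10607) (nat_lit 12) (nat_lit 8))
    (@En.n l12369 (nat_lit 6087) (nat_lit 1) (nat_lit 14))
    (@En.n l20174 (nat_lit 12801) (nat_lit 2) (nat_lit 10))
    (@En.n l14341 (nat_lit 1827) (nat_lit 3) (nat_lit 7))
    (@En.n l8846 (nat_lit 12074) (nat_lit 4) (nat_lit 3))
    (@En.n l12369 (nat_lit 10786) (nat_lit 0) (nat_lit 8))
    (@En.n l10504 (nat_lit 12479) (nat_lit 6) (nat_lit 3))
    (@En.n l20174 (nat_lit 4079) (nat_lit 0) (nat_lit 13))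
    (@En.n l34249 (nat_lit 6148) (nat_lit 3) (nat_lit 8))
    (@En.n l8846 (nat_lit 11018) (nat_lit 10) (nat_lit 13))
    (@En.n l50 (nat_lit 12482) (nat_lit 11) (nat_lit 9))
    (@En.n l217 (nat_lit 12483) (nat_lit 11) (nat_lit 3))
    (@En.n l20174 (nat_lit 5368) (nat_lit 0) (nat_lit 6))
    (@En.i (nat_lit 11970) (nat_lit 14) (nat_lit 8))
    (@En.n l34250 (nat_lit 12476) (nat_lit 2) (nat_lit 13))
    (@En.n l3 (nat_lit 12075) (nat_lit 15) (nat_lit 2))))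
  (@Cl.mk (nat_lit 0x2000d0005000a00030009000c0008000d0006000400030007000b000e0008) (nat_lit 0x707055120000936) (nat_lit 16) Lb.e (@T16.mk En
    (@En.i (nat_lit 10607) (nat_lit 4) (nat_lit 8))
    (@En.i (nat_lit 6089) (nat_lit 4) (nat_lit 14))
    (@En.n l1203 (nat_lit 12072) (nat_lit 2) (nat_lit 11))
    (@En.n l11512 (nat_lit 12481) (nat_lit 3) (nat_lit 7))
    (@En.n l20999 (nat_lit 12483) (nat_lit 4) (nat_lit 3))
    (@En.n l28 (nat_lit 7565) (nat_lit 0) (nat_lit 4))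
    (@En.n l8898 (nat_lit 12167) (nat_lit 6) (nat_lit 6))
    (@En.i (nat_lit 4076) (nat_lit 8) (nat_lit 13))
    (@En.n l601 (nat_lit 6120) (nat_lit 3) (nat_lit 8))
    (@En.i (nat_lit 5611) (nat_lit 6) (nat_lit 12))
    (@En.n l14621 (nat_lit 2067) (nat_lit 11) (nat_lit 9))
    (@En.n l117 (nat_lit 12074) (nat_lit 11) (nat_lit 3))
    (@En.n l170 (nat_lit 10109) (nat_lit 0) (nat_lit 10))
    (@En.n l8478 (nat_lit 12077) (nat_lit 14) (nat_lit 5))
    (@En.n l2125 (nat_lit 12475) (nat_lit 2) (nat_lit 13))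
    (@En.n l17 (nat_lit 12076) (nat_lit 15) (nat_lit 2))))
  (@Cl.mk (nat_lit 0x20005000a00060009000c0007000d0006000400030007000b000a000e0009) (nat_lit 0x70440200009647) (nat_lit 16) Lb.e (@T16.mk En
    (@En.n l6623 (nat_lit 10605) (nat_lit 11) (nat_lit 9))
    (@En.n l8846 (nat_lit 12076) (nat_lit 1) (nat_lit 14))
    (@En.n l8846 (nat_lit 12074) (nat_lit 2) (nat_lit 10))
    (@En.n l4233 (nat_lit 12067) (nat_lit 3) (nat_lit 11))
    (@En.n l343 (nat_lit 12480) (nat_lit 4) (nat_lit 7))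
    (@En.n l28 (nat_lit 12482) (nat_lit 5) (nat_lit 3))
    (@En.n l969 (nat_lit 7567) (nat_lit 6) (nat_lit 4))
    (@En.i (nat_lit 12165) (nat_lit 7) (nat_lit 6))
    (@En.n l6203 (nat_lit 4077) (nat_lit 9) (nat_lit 13))
    (@En.n l9461 (nat_lit 6123) (nat_lit 3) (nat_lit 7))
    (@En.n l6203 (nat_lit 5613) (nat_lit 11) (nat_lit 12))
    (@En.n l699 (nat_lit 3366) (nat_lit 12) (nat_lit 9))
    (@En.n l1738 (nat_lit 5362) (nat_lit 13) (nat_lit 6))
    (@En.i (nat_lit 12186) (nat_lit 14) (nat_lit 10))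
    (@En.n l6622 (nat_lit 12468) (nat_lit 13) (nat_lit 5))
    (@En.n l3 (nat_lit 12077) (nat_lit 15) (nat_lit 2))))
  (@Cl.mk (nat_lit 0x200080007000c0005000b000a0004000b00080005000900060005000e000b) (nat_lit 0x3080830150300b2) (nat_lit 16) Lb.e (@T16.mk En
    (@En.n l9072 (nat_lit 9738) (nat_lit 4) (nat_lit 11))
    (@En.n l13788 (nat_lit 7719) (nat_lit 1) (nat_lit 14))
    (@En.n l9072 (nat_lit 8003) (nat_lit 2) (nat_lit 5))
    (@En.n l14145 (nat_lit 11555) (nat_lit 3) (nat_lit 6))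
    (@En.n l14146 (nat_lit 12398) (nat_lit 4) (nat_lit 9))
    (@En.n l14147 (nat_lit 11157) (nat_lit 5) (nat_lit 5))
    (@En.n l61 (nat_lit 12080) (nat_lit 6) (nat_lit 8))
    (@En.n l6193 (nat_lit 2408) (nat_lit 8) (nat_lit 11))
    (@En.n l6771 (nat_lit 11083) (nat_lit 8) (nat_lit 4))
    (@En.n l14148 (nat_lit 11979) (nat_lit 10) (nat_lit 10))
    (@En.n l14149 (nat_lit 9338) (nat_lit 11) (nat_lit 11))
    (@En.n l6193 (nat_lit 11860) (nat_lit 12) (nat_lit 5))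
    (@En.n l14147 (nat_lit 9732) (nat_lit 13) (nat_lit 12))
    (@En.n l2179 (nat_lit 11213) (nat_lit 14) (nat_lit 7))
    (@En.n l14150 (nat_lit 10083) (nat_lit 5) (nat_lit 8))
    (@En.n l3 (nat_lit 12078) (nat_lit 15) (nat_lit 2))))
  (@Cl.mk (nat_lit 0x200050008000c0005000c000b0004000b000400080005000b0005000e000b) (nat_lit 0x490830204080b8) (nat_lit 16) Lb.e (@T16.mk En
    (@En.i (nat_lit 11177) (nat_lit 1) (nat_lit 11))
    (@En.i (nat_lit 12080) (nat_lit 1) (nat_lit 14))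
    (@En.i (nat_lit 12078) (nat_lit 2) (nat_lit 5))
    (@En.n l10436 (nat_lit 12081) (nat_lit 3) (nat_lit 11))
    (@En.i (nat_lit 12084) (nat_lit 4) (nat_lit 5))
    (@En.n l623 (nat_lit 12357) (nat_lit 5) (nat_lit 8))
    (@En.i (nat_lit 12185) (nat_lit 6) (nat_lit 4))
    (@En.n l6193 (nat_lit 6768) (nat_lit 8) (nat_lit 11))
    (@En.n l6771 (nat_lit 11415) (nat_lit 8) (nat_lit 4))
    (@En.n l77 (nat_lit 11974) (nat_lit 10) (nat_lit 11))
    (@En.i (nat_lit 9976) (nat_lit 11) (nat_lit 12))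
    (@En.n l6193 (nat_lit 11864) (nat_lit 12) (nat_lit 5))
    (@En.n l16779 (nat_lit 12697) (nat_lit 13) (nat_lit 12))
    (@En.i (nat_lit 11266) (nat_lit 10) (nat_lit 8))
    (@En.i (nat_lit 12813) (nat_lit 13) (nat_lit 5))
    (@En.n l3 (nat_lit 12079) (nat_lit 15) (nat_lit 2))))
noncomputable def a755 : T16 Cl := @T16.mk Cl
  (@Cl.mk (nat_lit 0x2000800050008000c0006000c000b00040008000400080005000b000e000a) (nat_lit 0x5029033040408a7) (nat_lit 16) Lb.e (@T16.mk En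
    (@En.n l1738 (nat_lit 11088) (nat_lit 2) (nat_lit 10))
    (@En.n l16616 (nat_lit 7720) (nat_lit 4) (nat_lit 14))
    (@En.n l10436 (nat_lit 12082) (nat_lit 2) (nat_lit 11))
    (@En.n l6742 (nat_lit 12083) (nat_lit 3) (nat_lit 5))
    (@En.n l28117 (nat_lit 12272) (nat_lit 4) (nat_lit 8))
    (@En.i (nat_lit 12186) (nat_lit 5) (nat_lit 4))
    (@En.n l2644 (nat_lit 11005) (nat_lit 6) (nat_lit 8))
    (@En.n l6771 (nat_lit 11418) (nat_lit 7) (nat_lit 4))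
    (@En.n l77 (nat_lit 11971) (nat_lit 9) (nat_lit 11))
    (@En.n l6742 (nat_lit 10776) (nat_lit 10) (nat_lit 12))
    (@En.n l6193 (nat_lit 11865) (nat_lit 11) (nat_lit 6))
    (@En.n l16366 (nat_lit 12703) (nat_lit 12) (nat_lit 12))
    (@En.i (nat_lit 7981) (nat_lit 13) (nat_lit 8))
    (@En.n l17 (nat_lit 12079) (nat_lit 14) (nat_lit 5))
    (@En.i (nat_lit 11776) (nat_lit 0) (nat_lit 8))
    (@En.n l3 (nat_lit 12080) (nat_lit 15) (nat_lit 2))))
  (@Cl.mk (nat_lit 0x20005000b0008000c0006000c00050004000c00040008000b0004000e000a) (nat_lit 0x75309001037077) (nat_lit 16) Lb.e (@T16.mk En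
    (@En.i (nat_lit 11178) (nat_lit 11) (nat_lit 10))
    (@En.i (nat_lit 12082) (nat_lit 1) (nat_lit 14))
    (@En.n l7454 (nat_lit 11409) (nat_lit 2) (nat_lit 4))
    (@En.i (nat_lit 8027) (nat_lit 3) (nat_lit 11))
    (@En.i (nat_lit 12348) (nat_lit 4) (nat_lit 8))
    (@En.n l6669 (nat_lit 12187) (nat_lit 5) (nat_lit 4))
    (@En.n l2682 (nat_lit 6568) (nat_lit 7) (nat_lit 12))
    (@En.i (nat_lit 11412) (nat_lit 7) (nat_lit 4))
    (@En.n l6669 (nat_lit 11698) (nat_lit 8) (nat_lit 5))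
    (@En.n l3872 (nat_lit 9974) (nat_lit 10) (nat_lit 12))
    (@En.n l810 (nat_lit 11958) (nat_lit 11) (nat_lit 6))
    (@En.n l18558 (nat_lit 9219) (nat_lit 12) (nat_lit 12))
    (@En.n l430 (nat_lit 12079) (nat_lit 13) (nat_lit 8))
    (@En.n l31652 (nat_lit 11157) (nat_lit 14) (nat_lit 11))
    (@En.i (nat_lit 12812) (nat_lit 13) (nat_lit 5))
    (@En.n l3 (nat_lit 12081) (nat_lit 15) (nat_lit 2))))
  (@Cl.mk (nat_lit 0x200070005000b0008000c0007000c00050004000900040008000b000e0009) (nat_lit 0x7390400403766) (nat_lit 16) Lb.e (@T16.mk En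
    (@En.n l5646 (nat_lit 11087) (nat_lit 12) (nat_lit 9))
    (@En.n l3513 (nat_lit 9923) (nat_lit 4) (nat_lit 14))
    (@En.i (nat_lit 8029) (nat_lit 2) (nat_lit 11))
    (@En.n l2290 (nat_lit 12271) (nat_lit 3) (nat_lit 8))
    (@En.n l18048 (nat_lit 12188) (nat_lit 4) (nat_lit 4))
    (@En.n l2286 (nat_lit 11003) (nat_lit 5) (nat_lit 9))
    (@En.i (nat_lit 11416) (nat_lit 6) (nat_lit 4))
    (@En.n l6669 (nat_lit 11687) (nat_lit 7) (nat_lit 5))
    (@En.n l3872 (nat_lit 8913) (nat_lit 9) (nat_lit 12))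
    (@En.n l2286 (nat_lit 10509) (nat_lit 10) (nat_lit 7))
    (@En.n l33637 (nat_lit 12750) (nat_lit 11) (nat_lit 12))
    (@En.n l430 (nat_lit 12080) (nat_lit 12) (nat_lit 8))
    (@En.n l31652 (nat_lit 11089) (nat_lit 13) (nat_lit 11))
    (@En.n l17 (nat_lit 12081) (nat_lit 14) (nat_lit 5))
    (@En.i (nat_lit 11775) (nat_lit 7) (nat_lit 7))
    (@En.n l3 (nat_lit 12082) (nat_lit 15) (nat_lit 2))))
  (@Cl.mk (nat_lit 0x200070005000b000b0006000b000b00050005000900050005000b000e000a) (nat_lit 0x3305700400867) (nat_lit 16) Lb.e (@T16.mk En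
    (@En.n l7257 (nat_lit 10998) (nat_lit 2) (nat_lit 10))
    (@En.i (nat_lit 12535) (nat_lit 4) (nat_lit 14))
    (@En.n l17886 (nat_lit 8025) (nat_lit 2) (nat_lit 11))
    (@En.n l17887 (nat_lit 12561) (nat_lit 3) (nat_lit 5))
    (@En.n l7 (nat_lit 12301) (nat_lit 4) (nat_lit 5))
    (@En.n l117 (nat_lit 11007) (nat_lit 5) (nat_lit 9))
    (@En.n l575 (nat_lit 12778) (nat_lit 6) (nat_lit 5))
    (@En.n l7259 (nat_lit 12082) (nat_lit 7) (nat_lit 5))
    (@En.n l11881 (nat_lit 12089) (nat_lit 9) (nat_lit 11))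
    (@En.i (nat_lit 10749) (nat_lit 10) (nat_lit 11))
    (@En.n l4018 (nat_lit 11716) (nat_lit 11) (nat_lit 6))
    (@En.n l17888 (nat_lit 12259) (nat_lit 12) (nat_lit 11))
    (@En.n l17889 (nat_lit 11223) (nat_lit 13) (nat_lit 11))
    (@En.n l15125 (nat_lit 12084) (nat_lit 14) (nat_lit 5))
    (@En.n l7260 (nat_lit 11552) (nat_lit 13) (nat_lit 7))
    (@En.n l17 (nat_lit 12083) (nat_lit 15) (nat_lit 2))))
  (@Cl.mk (nat_lit 0x20005000b000b0005000b000b00050005000c00050005000b0004000e000b) (nat_lit 0x39017007003078) (nat_lit 16) Lb.e (@T16.mk En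
    (@En.n l17536 (nat_lit 11558) (nat_lit 1) (nat_lit 11))
    (@En.n l6742 (nat_lit 12083) (nat_lit 1) (nat_lit 14))
    (@En.n l14145 (nat_lit 11555) (nat_lit 2) (nat_lit 4))
    (@En.n l10436 (nat_lit 8024) (nat_lit 3) (nat_lit 11))
    (@En.n l17537 (nat_lit 12563) (nat_lit 4) (nat_lit 5))
    (@En.n l28 (nat_lit 12302) (nat_lit 5) (nat_lit 5))
    (@En.n l17538 (nat_lit 6767) (nat_lit 7) (nat_lit 12))
    (@En.n l17539 (nat_lit 12086) (nat_lit 7) (nat_lit 5))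
    (@En.n l6771 (nat_lit 12081) (nat_lit 8) (nat_lit 5))
    (@En.n l17540 (nat_lit 12085) (nat_lit 10) (nat_lit 11))
    (@En.n l17541 (nat_lit 7371) (nat_lit 11) (nat_lit 11))
    (@En.n l17538 (nat_lit 11718) (nat_lit 12) (nat_lit 5))
    (@En.n l17542 (nat_lit 12258) (nat_lit 13) (nat_lit 11))
    (@En.n l17543 (nat_lit 10334) (nat_lit 14) (nat_lit 11))
    (@En.n l9902 (nat_lit 12087) (nat_lit 13) (nat_lit 5))
    (@En.n l3 (nat_lit 12084) (nat_lit 15) (nat_lit 2))))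
  (@Cl.mk (nat_lit 0x20005000c000c0005000b00040004000b000e00050002000b0005000e000b) (nat_lit 0x920600620080c4) (nat_lit 16) Lb.e (@T16.mk En
    (@En.n l16488 (nat_lit 12087) (nat_lit 12) (nat_lit 11))
    (@En.n l13056 (nat_lit 12089) (nat_lit 1) (nat_lit 14))
    (@En.n l17 (nat_lit 12090) (nat_lit 14) (nat_lit 5))
    (@En.n l3328 (nat_lit 8169) (nat_lit 3) (nat_lit 11))
    (@En.n l3 (nat_lit 12085) (nat_lit 4) (nat_lit 2))
    (@En.n l3858 (nat_lit 12084) (nat_lit 5) (nat_lit 5))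
    (@En.n l3858 (nat_lit 2866) (nat_lit 7) (nat_lit 14))
    (@En.n l3138 (nat_lit 7461) (nat_lit 8) (nat_lit 11))
    (@En.n l13385 (nat_lit 12088) (nat_lit 8) (nat_lit 4))
    (@En.n l7 (nat_lit 11690) (nat_lit 9) (nat_lit 4))
    (@En.n l9771 (nat_lit 7200) (nat_lit 11) (nat_lit 11))
    (@En.n l3138 (nat_lit 11722) (nat_lit 6) (nat_lit 5))
    (@En.n l644 (nat_lit 12091) (nat_lit 13) (nat_lit 12))
    (@En.i (nat_lit 10340) (nat_lit 9) (nat_lit 12))
    (@En.n l16489 (nat_lit 12247) (nat_lit 9) (nat_lit 5))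
    (@En.n l11 (nat_lit 12085) (nat_lit 15) (nat_lit 2))))
  (@Cl.mk (nat_lit 0x20005000e000b00020006000c000c0005000c00040004000b0004000e000a) (nat_lit 0x440017010030c6) (nat_lit 16) Lb.e (@T16.mk En
    (@En.n l7066 (nat_lit 11066) (nat_lit 4) (nat_lit 10))
    (@En.n l7067 (nat_lit 12778) (nat_lit 1) (nat_lit 14))
    (@En.n l725 (nat_lit 12760) (nat_lit 6) (nat_lit 4))
    (@En.n l1386 (nat_lit 8159) (nat_lit 3) (nat_lit 11))
    (@En.n l7068 (nat_lit 12567) (nat_lit 4) (nat_lit 4))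
    (@En.i (nat_lit 12305) (nat_lit 5) (nat_lit 4))
    (@En.n l7069 (nat_lit 2647) (nat_lit 11) (nat_lit 12))
    (@En.n l1386 (nat_lit 11413) (nat_lit 7) (nat_lit 5))
    (@En.n l2378 (nat_lit 12088) (nat_lit 9) (nat_lit 12))
    (@En.n l7070 (nat_lit 7369) (nat_lit 10) (nat_lit 12))
    (@En.n l6622 (nat_lit 12582) (nat_lit 11) (nat_lit 6))
    (@En.n l3 (nat_lit 12086) (nat_lit 11) (nat_lit 2))
    (@En.n l7071 (nat_lit 12084) (nat_lit 13) (nat_lit 11))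
    (@En.n l2289 (nat_lit 11642) (nat_lit 1) (nat_lit 14))
    (@En.n l7072 (nat_lit 12085) (nat_lit 2) (nat_lit 5))
    (@En.n l50 (nat_lit 12086) (nat_lit 15) (nat_lit 2))))
  (@Cl.mk (nat_lit 0x2000c0005000b000b0004000b000b00050005000b00050005000b000e0005) (nat_lit 0x903808700400360) (nat_lit 16) Lb.e (@T16.mk En
    (@En.n l31621 (nat_lit 11558) (nat_lit 5) (nat_lit 5))
    (@En.n l31622 (nat_lit 2550) (nat_lit 4) (nat_lit 14))
    (@En.n l31623 (nat_lit 5880) (nat_lit 2) (nat_lit 11))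
    (@En.n l55 (nat_lit 12763) (nat_lit 11) (nat_lit 5))
    (@En.n l11084 (nat_lit 10915) (nat_lit 4) (nat_lit 5))
    (@En.n l31624 (nat_lit 8121) (nat_lit 6) (nat_lit 11))
    (@En.n l25057 (nat_lit 12085) (nat_lit 11) (nat_lit 5))
    (@En.n l1602 (nat_lit 12812) (nat_lit 7) (nat_lit 5))
    (@En.n l31625 (nat_lit 12247) (nat_lit 5) (nat_lit 11))
    (@En.n l25056 (nat_lit 11128) (nat_lit 10) (nat_lit 11))
    (@En.n l31624 (nat_lit 8054) (nat_lit 10) (nat_lit 4))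
    (@En.n l3996 (nat_lit 12251) (nat_lit 5) (nat_lit 11))
    (@En.n l253 (nat_lit 10881) (nat_lit 13) (nat_lit 11))
    (@En.n l21890 (nat_lit 11557) (nat_lit 14) (nat_lit 5))
    (@En.n l24089 (nat_lit 10997) (nat_lit 3) (nat_lit 12))
    (@En.n l17 (nat_lit 12087) (nat_lit 15) (nat_lit 2))))
  (@Cl.mk (nat_lit 0x20005000e000c00020006000c0004000b000e00040002000b0005000e000a) (nat_lit 0x7a0060650070c4) (nat_lit 16) Lb.e (@T16.mk En
    (@En.n l6644 (nat_lit 12763) (nat_lit 4) (nat_lit 10))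
    (@En.n l3 (nat_lit 12779) (nat_lit 6) (nat_lit 14))
    (@En.n l3 (nat_lit 12761) (nat_lit 14) (nat_lit 5))
    (@En.n l6645 (nat_lit 8161) (nat_lit 3) (nat_lit 11))
    (@En.n l50 (nat_lit 12088) (nat_lit 4) (nat_lit 2))
    (@En.n l6646 (nat_lit 12086) (nat_lit 5) (nat_lit 4))
    (@En.n l6647 (nat_lit 2499) (nat_lit 7) (nat_lit 14))
    (@En.i (nat_lit 3029) (nat_lit 12) (nat_lit 11))
    (@En.n l6648 (nat_lit 11693) (nat_lit 8) (nat_lit 4))
    (@En.i (nat_lit 7367) (nat_lit 10) (nat_lit 12))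
    (@En.n l6649 (nat_lit 12044) (nat_lit 5) (nat_lit 6))
    (@En.n l11 (nat_lit 12088) (nat_lit 11) (nat_lit 2))
    (@En.n l6650 (nat_lit 12085) (nat_lit 13) (nat_lit 12))
    (@En.n l6647 (nat_lit 12278) (nat_lit 9) (nat_lit 14))
    (@En.n l3106 (nat_lit 12091) (nat_lit 2) (nat_lit 5))
    (@En.n l17 (nat_lit 12088) (nat_lit 15) (nat_lit 2))))
  (@Cl.mk (nat_lit 0x200080005000c000c0006000b000400040008000e00050002000b000e000a) (nat_lit 0x209306003b007b3) (nat_lit 16) Lb.e (@T16.mk En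
    (@En.i (nat_lit 10995) (nat_lit 13) (nat_lit 10))
    (@En.i (nat_lit 12537) (nat_lit 4) (nat_lit 14))
    (@En.n l11106 (nat_lit 8168) (nat_lit 2) (nat_lit 11))
    (@En.n l50 (nat_lit 12089) (nat_lit 3) (nat_lit 2))
    (@En.n l2678 (nat_lit 12083) (nat_lit 4) (nat_lit 5))
    (@En.n l3815 (nat_lit 2496) (nat_lit 6) (nat_lit 14))
    (@En.n l810 (nat_lit 11034) (nat_lit 6) (nat_lit 8))
    (@En.n l28 (nat_lit 12779) (nat_lit 12) (nat_lit 4))
    (@En.n l3706 (nat_lit 11688) (nat_lit 8) (nat_lit 4))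
    (@En.i (nat_lit 4808) (nat_lit 10) (nat_lit 11))
    (@En.n l29158 (nat_lit 11723) (nat_lit 6) (nat_lit 6))
    (@En.n l11105 (nat_lit 12780) (nat_lit 12) (nat_lit 12))
    (@En.n l5234 (nat_lit 11227) (nat_lit 9) (nat_lit 12))
    (@En.n l5236 (nat_lit 12085) (nat_lit 14) (nat_lit 5))
    (@En.n l2125 (nat_lit 8071) (nat_lit 11) (nat_lit 8))
    (@En.n l17 (nat_lit 12089) (nat_lit 15) (nat_lit 2))))
  (@Cl.mk (nat_lit 0x20005000e000b00020008000c000c0005000a00040004000b0008000e0006) (nat_lit 0xc4038206006430) (nat_lit 16) Lb.e (@T16.mk En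
    (@En.i (nat_lit 11555) (nat_lit 4) (nat_lit 6))
    (@En.i (nat_lit 12085) (nat_lit 6) (nat_lit 14))
    (@En.n l7234 (nat_lit 12089) (nat_lit 6) (nat_lit 8))
    (@En.n l1162 (nat_lit 7459) (nat_lit 3) (nat_lit 11))
    (@En.n l3643 (nat_lit 12761) (nat_lit 4) (nat_lit 4))
    (@En.n l7 (nat_lit 11695) (nat_lit 5) (nat_lit 4))
    (@En.i (nat_lit 7197) (nat_lit 11) (nat_lit 10))
    (@En.n l4739 (nat_lit 11726) (nat_lit 7) (nat_lit 5))
    (@En.n l644 (nat_lit 8114) (nat_lit 9) (nat_lit 12))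
    (@En.i (nat_lit 10339) (nat_lit 10) (nat_lit 12))
    (@En.n l564 (nat_lit 10744) (nat_lit 11) (nat_lit 8))
    (@En.n l11 (nat_lit 12090) (nat_lit 11) (nat_lit 2))
    (@En.i (nat_lit 11557) (nat_lit 13) (nat_lit 11))
    (@En.n l617 (nat_lit 12532) (nat_lit 1) (nat_lit 14))
    (@En.i (nat_lit 12778) (nat_lit 13) (nat_lit 5))
    (@En.n l3 (nat_lit 12090) (nat_lit 15) (nat_lit 2))))
  (@Cl.mk (nat_lit 0x20005000c0004000a000e00040002000b000e00060002000b0005000e000c) (nat_lit 0x10460071003074) (nat_lit 16) Lb.e (@T16.mk En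
    (@En.n l16491 (nat_lit 12247) (nat_lit 8) (nat_lit 12))
    (@En.n l617 (nat_lit 12780) (nat_lit 1) (nat_lit 14))
    (@En.n l17 (nat_lit 8114) (nat_lit 14) (nat_lit 5))
    (@En.n l3328 (nat_lit 10989) (nat_lit 3) (nat_lit 11))
    (@En.n l3 (nat_lit 12091) (nat_lit 4) (nat_lit 2))
    (@En.n l7645 (nat_lit 12258) (nat_lit 5) (nat_lit 6))
    (@En.i (nat_lit 2710) (nat_lit 7) (nat_lit 14))
    (@En.i (nat_lit 8943) (nat_lit 8) (nat_lit 11))
    (@En.n l50 (nat_lit 12091) (nat_lit 8) (nat_lit 2))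
    (@En.i (nat_lit 12085) (nat_lit 9) (nat_lit 4))
    (@En.n l3328 (nat_lit 3541) (nat_lit 11) (nat_lit 14))
    (@En.i (nat_lit 7458) (nat_lit 12) (nat_lit 10))
    (@En.n l6606 (nat_lit 11375) (nat_lit 7) (nat_lit 4))
    (@En.i (nat_lit 5546) (nat_lit 9) (nat_lit 12))
    (@En.n l2644 (nat_lit 12248) (nat_lit 5) (nat_lit 5))
    (@En.n l11 (nat_lit 12091) (nat_lit 15) (nat_lit 2))))
  (@Cl.mk (nat_lit 0x20007000b00080008000d000700050003000c0009000800080004000e0009) (nat_lit 0x71360007735067) (nat_lit 16) Lb.e (@T16.mk En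
    (@En.i (nat_lit 12093) (nat_lit 14) (nat_lit 9))
    (@En.n l25139 (nat_lit 11306) (nat_lit 1) (nat_lit 14))
    (@En.n l7513 (nat_lit 11459) (nat_lit 2) (nat_lit 4))
    (@En.n l25140 (nat_lit 12096) (nat_lit 3) (nat_lit 8))
    (@En.n l23971 (nat_lit 11464) (nat_lit 4) (nat_lit 8))
    (@En.n l25141 (nat_lit 11687) (nat_lit 5) (nat_lit 9))
    (@En.n l16059 (nat_lit 6951) (nat_lit 7) (nat_lit 12))
    (@En.n l19399 (nat_lit 10355) (nat_lit 7) (nat_lit 3))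
    (@En.n l25142 (nat_lit 8115) (nat_lit 8) (nat_lit 5))
    (@En.n l25143 (nat_lit 11473) (nat_lit 10) (nat_lit 7))
    (@En.n l23971 (nat_lit 12499) (nat_lit 11) (nat_lit 13))
    (@En.n l25107 (nat_lit 11695) (nat_lit 8) (nat_lit 8))
    (@En.n l18216 (nat_lit 6463) (nat_lit 13) (nat_lit 8))
    (@En.n l25142 (nat_lit 6589) (nat_lit 14) (nat_lit 11))
    (@En.n l25144 (nat_lit 11877) (nat_lit 6) (nat_lit 7))
    (@En.n l3 (nat_lit 12092) (nat_lit 15) (nat_lit 2))))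
  (@Cl.mk (nat_lit 0x4000900090006000a00070007000c0007000700060004000c000a00090009) (nat_lit 0x650800300008114) (nat_lit 16) Lb.e (@T16.mk En
    (@En.n l39741 (nat_lit 12095) (nat_lit 7) (nat_lit 9))
    (@En.n l23971 (nat_lit 10521) (nat_lit 1) (nat_lit 9))
    (@En.n l39742 (nat_lit 73) (nat_lit 6) (nat_lit 10))
    (@En.n l39743 (nat_lit 5160) (nat_lit 3) (nat_lit 12))
    (@En.n l38513 (nat_lit 10353) (nat_lit 12) (nat_lit 4))
    (@En.n l39744 (nat_lit 12213) (nat_lit 10) (nat_lit 6))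
    (@En.n l152 (nat_lit 12092) (nat_lit 9) (nat_lit 7))
    (@En.n l39745 (nat_lit 11609) (nat_lit 7) (nat_lit 7))
    (@En.n l39746 (nat_lit 10337) (nat_lit 8) (nat_lit 12))
    (@En.n l25107 (nat_lit 12094) (nat_lit 9) (nat_lit 7))
    (@En.i (nat_lit 7574) (nat_lit 5) (nat_lit 7))
    (@En.n l39747 (nat_lit 5174) (nat_lit 9) (nat_lit 10))
    (@En.n l39748 (nat_lit 10858) (nat_lit 7) (nat_lit 6))
    (@En.n l3536 (nat_lit 11489) (nat_lit 7) (nat_lit 9))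
    (@En.n l34271 (nat_lit 10417) (nat_lit 11) (nat_lit 9))
    (@En.n l31860 (nat_lit 10522) (nat_lit 15) (nat_lit 4))))
  (@Cl.mk (nat_lit 0x20005000a000a0007000b0007000c0006000600050004000b0009000e0009) (nat_lit 0x65070200008722) (nat_lit 16) Lb.e (@T16.mk En
    (@En.n l16824 (nat_lit 12093) (nat_lit 1) (nat_lit 9))
    (@En.n l6757 (nat_lit 10915) (nat_lit 1) (nat_lit 14))
    (@En.n l16819 (nat_lit 10911) (nat_lit 2) (nat_lit 9))
    (@En.n l11080 (nat_lit 5156) (nat_lit 3) (nat_lit 11))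
    (@En.n l8872 (nat_lit 12288) (nat_lit 4) (nat_lit 4))
    (@En.n l1578 (nat_lit 12206) (nat_lit 5) (nat_lit 5))
    (@En.n l575 (nat_lit 11695) (nat_lit 6) (nat_lit 6))
    (@En.n l5399 (nat_lit 11607) (nat_lit 7) (nat_lit 6))
    (@En.n l3872 (nat_lit 3650) (nat_lit 9) (nat_lit 12))
    (@En.n l25200 (nat_lit 10674) (nat_lit 10) (nat_lit 7))
    (@En.i (nat_lit 8024) (nat_lit 11) (nat_lit 11))
    (@En.n l565 (nat_lit 10859) (nat_lit 12) (nat_lit 7))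
    (@En.n l5402 (nat_lit 12102) (nat_lit 13) (nat_lit 10))
    (@En.n l24721 (nat_lit 11036) (nat_lit 14) (nat_lit 10))
    (@En.i (nat_lit 12301) (nat_lit 13) (nat_lit 5))
    (@En.n l3 (nat_lit 12094) (nat_lit 15) (nat_lit 2))))
  (@Cl.mk (nat_lit 0x2000c0008000800070004000d000b000900030008000800050009000e0007) (nat_lit 0x344006630230570) (nat_lit 16) Lb.e (@T16.mk En
    (@En.n l25169 (nat_lit 12093) (nat_lit 10) (nat_lit 7))
    (@En.n l21112 (nat_lit 2438) (nat_lit 1) (nat_lit 14))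
    (@En.n l8516 (nat_lit 6469) (nat_lit 2) (nat_lit 9))
    (@En.n l18384 (nat_lit 11436) (nat_lit 3) (nat_lit 5))
    (@En.n l61 (nat_lit 11691) (nat_lit 8) (nat_lit 8))
    (@En.n l25170 (nat_lit 11050) (nat_lit 5) (nat_lit 8))
    (@En.n l9041 (nat_lit 10914) (nat_lit 6) (nat_lit 3))
    (@En.n l6102 (nat_lit 12319) (nat_lit 0) (nat_lit 9))
    (@En.n l9041 (nat_lit 10911) (nat_lit 9) (nat_lit 11))
    (@En.n l21109 (nat_lit 6495) (nat_lit 10) (nat_lit 13))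
    (@En.n l6644 (nat_lit 12105) (nat_lit 10) (nat_lit 4))
    (@En.n l16579 (nat_lit 11625) (nat_lit 12) (nat_lit 7))
    (@En.n l25171 (nat_lit 12096) (nat_lit 8) (nat_lit 8))
    (@En.i (nat_lit 12221) (nat_lit 14) (nat_lit 8))
    (@En.n l21111 (nat_lit 12061) (nat_lit 8) (nat_lit 12))
    (@En.n l50 (nat_lit 12095) (nat_lit 15) (nat_lit 2))))
noncomputable def a756 : T16 Cl := @T16.mk Cl
  (@Cl.mk (nat_lit 0x20006000a000e00080002000d000800060003000d000a00080003000e0008) (nat_lit 0x2a207300564033) (nat_lit 16) Lb.e (@T16.mk En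
    (@En.n l11479 (nat_lit 12095) (nat_lit 5) (nat_lit 8))
    (@En.n l295 (nat_lit 11651) (nat_lit 1) (nat_lit 14))
    (@En.n l11480 (nat_lit 12097) (nat_lit 2) (nat_lit 3))
    (@En.i (nat_lit 12340) (nat_lit 3) (nat_lit 8))
    (@En.n l11481 (nat_lit 12099) (nat_lit 4) (nat_lit 10))
    (@En.n l11482 (nat_lit 6501) (nat_lit 6) (nat_lit 13))
    (@En.n l11483 (nat_lit 12098) (nat_lit 6) (nat_lit 3))
    (@En.i (nat_lit 12560) (nat_lit 7) (nat_lit 6))
    (@En.n l11484 (nat_lit 11678) (nat_lit 14) (nat_lit 8))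
    (@En.n l11485 (nat_lit 12033) (nat_lit 10) (nat_lit 13))
    (@En.n l28 (nat_lit 12096) (nat_lit 10) (nat_lit 2))
    (@En.n l11486 (nat_lit 12092) (nat_lit 12) (nat_lit 8))
    (@En.n l11487 (nat_lit 1728) (nat_lit 13) (nat_lit 14))
    (@En.i (nat_lit 8034) (nat_lit 14) (nat_lit 10))
    (@En.n l8940 (nat_lit 12322) (nat_lit 3) (nat_lit 6))
    (@En.n l3 (nat_lit 12096) (nat_lit 15) (nat_lit 2))))
  (@Cl.mk (nat_lit 0x20005000a000e00090002000d000800060003000d0007000b0003000e0008) (nat_lit 0x26407600605054) (nat_lit 16) Lb.e (@T16.mk En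
    (@En.n l11270 (nat_lit 10914) (nat_lit 5) (nat_lit 8))
    (@En.n l10587 (nat_lit 12099) (nat_lit 1) (nat_lit 14))
    (@En.n l25172 (nat_lit 12096) (nat_lit 2) (nat_lit 3))
    (@En.i (nat_lit 3614) (nat_lit 3) (nat_lit 11))
    (@En.n l9133 (nat_lit 12163) (nat_lit 4) (nat_lit 7))
    (@En.n l12070 (nat_lit 6502) (nat_lit 6) (nat_lit 13))
    (@En.n l1162 (nat_lit 12101) (nat_lit 6) (nat_lit 3))
    (@En.n l1253 (nat_lit 12559) (nat_lit 7) (nat_lit 6))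
    (@En.n l7983 (nat_lit 11675) (nat_lit 14) (nat_lit 8))
    (@En.n l3766 (nat_lit 12029) (nat_lit 10) (nat_lit 13))
    (@En.n l11 (nat_lit 12097) (nat_lit 10) (nat_lit 2))
    (@En.n l25173 (nat_lit 11698) (nat_lit 12) (nat_lit 9))
    (@En.n l6669 (nat_lit 1731) (nat_lit 13) (nat_lit 14))
    (@En.n l1253 (nat_lit 8033) (nat_lit 14) (nat_lit 10))
    (@En.n l3760 (nat_lit 7667) (nat_lit 13) (nat_lit 5))
    (@En.n l3 (nat_lit 12097) (nat_lit 15) (nat_lit 2))))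
  (@Cl.mk (nat_lit 0x20006000b000e00080002000d000500090003000d000a00080003000e0007) (nat_lit 0x98206040565070) (nat_lit 16) Lb.e (@T16.mk En
    (@En.n l1599 (nat_lit 12105) (nat_lit 5) (nat_lit 7))
    (@En.n l11473 (nat_lit 11650) (nat_lit 1) (nat_lit 14))
    (@En.n l7573 (nat_lit 12101) (nat_lit 2) (nat_lit 3))
    (@En.n l8807 (nat_lit 11069) (nat_lit 3) (nat_lit 8))
    (@En.n l11474 (nat_lit 12100) (nat_lit 4) (nat_lit 10))
    (@En.n l11475 (nat_lit 11430) (nat_lit 6) (nat_lit 13))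
    (@En.n l11476 (nat_lit 12096) (nat_lit 6) (nat_lit 3))
    (@En.i (nat_lit 12569) (nat_lit 0) (nat_lit 9))
    (@En.n l11477 (nat_lit 12104) (nat_lit 14) (nat_lit 5))
    (@En.n l10641 (nat_lit 12034) (nat_lit 10) (nat_lit 13))
    (@En.n l17 (nat_lit 12098) (nat_lit 10) (nat_lit 2))
    (@En.n l8806 (nat_lit 10355) (nat_lit 12) (nat_lit 8))
    (@En.n l8803 (nat_lit 1841) (nat_lit 13) (nat_lit 14))
    (@En.n l11449 (nat_lit 8040) (nat_lit 14) (nat_lit 11))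
    (@En.n l11478 (nat_lit 12321) (nat_lit 3) (nat_lit 6))
    (@En.n l7 (nat_lit 12098) (nat_lit 15) (nat_lit 2))))
  (@Cl.mk (nat_lit 0x200060005000a000e00090002000d000900060003000a0007000b000e0007) (nat_lit 0x3140860050240) (nat_lit 16) Lb.e (@T16.mk En
    (@En.n l19691 (nat_lit 10911) (nat_lit 6) (nat_lit 7))
    (@En.n l23458 (nat_lit 11648) (nat_lit 4) (nat_lit 14))
    (@En.i (nat_lit 2862) (nat_lit 2) (nat_lit 11))
    (@En.n l3616 (nat_lit 11965) (nat_lit 3) (nat_lit 7))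
    (@En.n l23459 (nat_lit 12134) (nat_lit 11) (nat_lit 10))
    (@En.n l6069 (nat_lit 12100) (nat_lit 5) (nat_lit 3))
    (@En.n l23460 (nat_lit 12557) (nat_lit 6) (nat_lit 6))
    (@En.n l23459 (nat_lit 11674) (nat_lit 14) (nat_lit 9))
    (@En.n l23461 (nat_lit 12031) (nat_lit 9) (nat_lit 13))
    (@En.n l11 (nat_lit 12099) (nat_lit 9) (nat_lit 2))
    (@En.n l23462 (nat_lit 11687) (nat_lit 11) (nat_lit 9))
    (@En.n l3616 (nat_lit 2159) (nat_lit 12) (nat_lit 14))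
    (@En.n l23460 (nat_lit 8036) (nat_lit 13) (nat_lit 10))
    (@En.n l19698 (nat_lit 12097) (nat_lit 14) (nat_lit 5))
    (@En.n l19699 (nat_lit 11922) (nat_lit 4) (nat_lit 6))
    (@En.n l181 (nat_lit 12099) (nat_lit 15) (nat_lit 2))))
  (@Cl.mk (nat_lit 0x200060005000b000e00090002000d0005000a0003000a0007000b000e0006) (nat_lit 0x8140705050260) (nat_lit 16) Lb.e (@T16.mk En
    (@En.n l10757 (nat_lit 10915) (nat_lit 6) (nat_lit 6))
    (@En.i (nat_lit 11647) (nat_lit 4) (nat_lit 14))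
    (@En.n l13261 (nat_lit 2855) (nat_lit 2) (nat_lit 11))
    (@En.i (nat_lit 11960) (nat_lit 3) (nat_lit 7))
    (@En.n l8840 (nat_lit 8076) (nat_lit 11) (nat_lit 10))
    (@En.n l7516 (nat_lit 12099) (nat_lit 5) (nat_lit 3))
    (@En.n l25152 (nat_lit 12568) (nat_lit 0) (nat_lit 10))
    (@En.n l8842 (nat_lit 12102) (nat_lit 14) (nat_lit 5))
    (@En.n l25153 (nat_lit 12032) (nat_lit 9) (nat_lit 13))
    (@En.n l11 (nat_lit 12100) (nat_lit 9) (nat_lit 2))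
    (@En.n l55 (nat_lit 11697) (nat_lit 11) (nat_lit 9))
    (@En.i (nat_lit 2157) (nat_lit 12) (nat_lit 14))
    (@En.n l12575 (nat_lit 6008) (nat_lit 13) (nat_lit 11))
    (@En.n l3651 (nat_lit 12101) (nat_lit 14) (nat_lit 5))
    (@En.n l10757 (nat_lit 11921) (nat_lit 4) (nat_lit 6))
    (@En.n l17 (nat_lit 12100) (nat_lit 15) (nat_lit 2))))
  (@Cl.mk (nat_lit 0x20005000b000e00090002000d000500090003000d0007000b0003000e0007) (nat_lit 0x96106050602070) (nat_lit 16) Lb.e (@T16.mk En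
    (@En.n l1721 (nat_lit 11671) (nat_lit 5) (nat_lit 7))
    (@En.n l2362 (nat_lit 12100) (nat_lit 1) (nat_lit 14))
    (@En.n l10245 (nat_lit 12098) (nat_lit 2) (nat_lit 3))
    (@En.i (nat_lit 3611) (nat_lit 3) (nat_lit 11))
    (@En.i (nat_lit 12162) (nat_lit 4) (nat_lit 7))
    (@En.n l1531 (nat_lit 11432) (nat_lit 6) (nat_lit 13))
    (@En.n l4104 (nat_lit 12097) (nat_lit 6) (nat_lit 3))
    (@En.i (nat_lit 11713) (nat_lit 0) (nat_lit 9))
    (@En.n l13240 (nat_lit 12103) (nat_lit 14) (nat_lit 5))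
    (@En.n l3857 (nat_lit 12030) (nat_lit 10) (nat_lit 13))
    (@En.n l50 (nat_lit 12101) (nat_lit 10) (nat_lit 2))
    (@En.n l3858 (nat_lit 11699) (nat_lit 12) (nat_lit 9))
    (@En.n l723 (nat_lit 2158) (nat_lit 13) (nat_lit 14))
    (@En.n l3860 (nat_lit 8039) (nat_lit 14) (nat_lit 11))
    (@En.n l3806 (nat_lit 7664) (nat_lit 13) (nat_lit 5))
    (@En.n l11 (nat_lit 12101) (nat_lit 15) (nat_lit 2))))
  (@Cl.mk (nat_lit 0x20005000a0006000a0006000b000e0006000200060005000b000a000e000a) (nat_lit 0x40501300009425) (nat_lit 16) Lb.e (@T16.mk En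
    (@En.n l3107 (nat_lit 11489) (nat_lit 10) (nat_lit 10))
    (@En.n l2394 (nat_lit 12100) (nat_lit 11) (nat_lit 14))
    (@En.n l7148 (nat_lit 12099) (nat_lit 12) (nat_lit 10))
    (@En.n l454 (nat_lit 6007) (nat_lit 3) (nat_lit 11))
    (@En.n l11512 (nat_lit 12103) (nat_lit 4) (nat_lit 5))
    (@En.n l5175 (nat_lit 11941) (nat_lit 5) (nat_lit 6))
    (@En.n l28 (nat_lit 12102) (nat_lit 6) (nat_lit 2))
    (@En.n l5246 (nat_lit 12094) (nat_lit 7) (nat_lit 6))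
    (@En.i (nat_lit 11649) (nat_lit 9) (nat_lit 14))
    (@En.n l11513 (nat_lit 2639) (nat_lit 2) (nat_lit 11))
    (@En.n l1393 (nat_lit 11962) (nat_lit 3) (nat_lit 6))
    (@En.i (nat_lit 8075) (nat_lit 12) (nat_lit 10))
    (@En.n l11514 (nat_lit 12561) (nat_lit 5) (nat_lit 6))
    (@En.n l11515 (nat_lit 12578) (nat_lit 14) (nat_lit 10))
    (@En.n l170 (nat_lit 12300) (nat_lit 7) (nat_lit 5))
    (@En.n l3 (nat_lit 12102) (nat_lit 15) (nat_lit 2))))
  (@Cl.mk (nat_lit 0x2000500090006000d0006000b0003000e000700020005000b000a000e000a) (nat_lit 0x40502040009371) (nat_lit 16) Lb.e (@T16.mk En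
    (@En.n l2894 (nat_lit 10354) (nat_lit 11) (nat_lit 10))
    (@En.n l10819 (nat_lit 12101) (nat_lit 12) (nat_lit 14))
    (@En.n l5151 (nat_lit 12097) (nat_lit 13) (nat_lit 10))
    (@En.n l848 (nat_lit 8042) (nat_lit 3) (nat_lit 11))
    (@En.i (nat_lit 7658) (nat_lit 4) (nat_lit 5))
    (@En.n l50 (nat_lit 12103) (nat_lit 5) (nat_lit 2))
    (@En.i (nat_lit 12288) (nat_lit 6) (nat_lit 7))
    (@En.n l3039 (nat_lit 12102) (nat_lit 8) (nat_lit 14))
    (@En.n l1461 (nat_lit 12104) (nat_lit 8) (nat_lit 3))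
    (@En.n l848 (nat_lit 2641) (nat_lit 10) (nat_lit 11))
    (@En.n l1366 (nat_lit 12132) (nat_lit 4) (nat_lit 6))
    (@En.n l5559 (nat_lit 11670) (nat_lit 12) (nat_lit 13))
    (@En.n l848 (nat_lit 12563) (nat_lit 6) (nat_lit 6))
    (@En.n l5559 (nat_lit 12574) (nat_lit 14) (nat_lit 9))
    (@En.n l1364 (nat_lit 12295) (nat_lit 8) (nat_lit 5))
    (@En.n l3 (nat_lit 12103) (nat_lit 15) (nat_lit 2))))
  (@Cl.mk (nat_lit 0x2000500090006000d000a00070003000e000700020006000b000a000e0009) (nat_lit 0x40460040009393) (nat_lit 16) Lb.e (@T16.mk En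
    (@En.n l4232 (nat_lit 10352) (nat_lit 11) (nat_lit 9))
    (@En.n l4233 (nat_lit 12098) (nat_lit 12) (nat_lit 14))
    (@En.n l4234 (nat_lit 12096) (nat_lit 13) (nat_lit 10))
    (@En.n l4235 (nat_lit 8041) (nat_lit 3) (nat_lit 11))
    (@En.n l4236 (nat_lit 12320) (nat_lit 4) (nat_lit 6))
    (@En.n l11 (nat_lit 12104) (nat_lit 5) (nat_lit 2))
    (@En.n l4237 (nat_lit 12289) (nat_lit 6) (nat_lit 7))
    (@En.n l4238 (nat_lit 11652) (nat_lit 8) (nat_lit 14))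
    (@En.n l4239 (nat_lit 12103) (nat_lit 8) (nat_lit 3))
    (@En.n l4240 (nat_lit 12341) (nat_lit 3) (nat_lit 7))
    (@En.n l4241 (nat_lit 12102) (nat_lit 11) (nat_lit 10))
    (@En.n l4242 (nat_lit 11665) (nat_lit 12) (nat_lit 13))
    (@En.n l4243 (nat_lit 12562) (nat_lit 13) (nat_lit 6))
    (@En.i (nat_lit 12573) (nat_lit 14) (nat_lit 9))
    (@En.n l4244 (nat_lit 12297) (nat_lit 8) (nat_lit 5))
    (@En.n l18 (nat_lit 12104) (nat_lit 15) (nat_lit 2))))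
  (@Cl.mk (nat_lit 0x2000c0005000900090004000d000b00090003000700070005000b000e0007) (nat_lit 0x305506930000770) (nat_lit 16) Lb.e (@T16.mk En
    (@En.n l23810 (nat_lit 10353) (nat_lit 2) (nat_lit 7))
    (@En.n l2511 (nat_lit 2545) (nat_lit 4) (nat_lit 14))
    (@En.n l23811 (nat_lit 12120) (nat_lit 2) (nat_lit 11))
    (@En.n l7081 (nat_lit 12813) (nat_lit 3) (nat_lit 5))
    (@En.n l23812 (nat_lit 11693) (nat_lit 9) (nat_lit 7))
    (@En.n l23813 (nat_lit 11898) (nat_lit 5) (nat_lit 7))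
    (@En.n l7081 (nat_lit 11671) (nat_lit 6) (nat_lit 3))
    (@En.i (nat_lit 12303) (nat_lit 0) (nat_lit 9))
    (@En.n l11084 (nat_lit 10915) (nat_lit 9) (nat_lit 11))
    (@En.n l21413 (nat_lit 11660) (nat_lit 10) (nat_lit 13))
    (@En.n l2511 (nat_lit 12223) (nat_lit 10) (nat_lit 4))
    (@En.n l1504 (nat_lit 12098) (nat_lit 7) (nat_lit 9))
    (@En.n l253 (nat_lit 12224) (nat_lit 13) (nat_lit 9))
    (@En.n l6724 (nat_lit 12289) (nat_lit 14) (nat_lit 5))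
    (@En.n l23814 (nat_lit 12021) (nat_lit 8) (nat_lit 12))
    (@En.n l17 (nat_lit 12105) (nat_lit 15) (nat_lit 2))))
  (@Cl.mk (nat_lit 0x2000b00090007000c00080005000d000400070003000c00090008000e0004) (nat_lit 0x8609204000721b0) (nat_lit 16) Lb.e (@T16.mk En
    (@En.n l27187 (nat_lit 9192) (nat_lit 10) (nat_lit 4))
    (@En.n l27188 (nat_lit 7296) (nat_lit 1) (nat_lit 14))
    (@En.i (nat_lit 6107) (nat_lit 2) (nat_lit 8))
    (@En.n l27189 (nat_lit 9834) (nat_lit 3) (nat_lit 9))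
    (@En.n l27190 (nat_lit 10515) (nat_lit 5) (nat_lit 12))
    (@En.n l4766 (nat_lit 12107) (nat_lit 5) (nat_lit 3))
    (@En.n l9127 (nat_lit 5743) (nat_lit 11) (nat_lit 7))
    (@En.n l2678 (nat_lit 11048) (nat_lit 7) (nat_lit 4))
    (@En.n l27188 (nat_lit 7603) (nat_lit 9) (nat_lit 13))
    (@En.n l27189 (nat_lit 11908) (nat_lit 9) (nat_lit 5))
    (@En.n l11 (nat_lit 9118) (nat_lit 11) (nat_lit 8))
    (@En.n l22853 (nat_lit 12108) (nat_lit 12) (nat_lit 12))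
    (@En.n l27191 (nat_lit 11890) (nat_lit 13) (nat_lit 7))
    (@En.n l360 (nat_lit 8515) (nat_lit 14) (nat_lit 9))
    (@En.n l18734 (nat_lit 11870) (nat_lit 9) (nat_lit 11))
    (@En.n l17 (nat_lit 12106) (nat_lit 15) (nat_lit 2))))
  (@Cl.mk (nat_lit 0x2000b000a0007000b00080005000d000600050003000c00090008000e0004) (nat_lit 0x660720400074160) (nat_lit 16) Lb.e (@T16.mk En
    (@En.n l13489 (nat_lit 11832) (nat_lit 10) (nat_lit 4))
    (@En.i (nat_lit 7304) (nat_lit 1) (nat_lit 14))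
    (@En.n l11916 (nat_lit 6099) (nat_lit 2) (nat_lit 8))
    (@En.n l35592 (nat_lit 9832) (nat_lit 3) (nat_lit 9))
    (@En.n l14808 (nat_lit 11072) (nat_lit 5) (nat_lit 12))
    (@En.n l11916 (nat_lit 12106) (nat_lit 5) (nat_lit 3))
    (@En.n l5721 (nat_lit 5956) (nat_lit 6) (nat_lit 5))
    (@En.n l12480 (nat_lit 9248) (nat_lit 7) (nat_lit 6))
    (@En.n l9687 (nat_lit 7601) (nat_lit 9) (nat_lit 13))
    (@En.n l18532 (nat_lit 12730) (nat_lit 9) (nat_lit 5))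
    (@En.n l35593 (nat_lit 9117) (nat_lit 11) (nat_lit 8))
    (@En.n l4486 (nat_lit 12665) (nat_lit 12) (nat_lit 11))
    (@En.n l936 (nat_lit 11891) (nat_lit 13) (nat_lit 7))
    (@En.n l55 (nat_lit 12717) (nat_lit 14) (nat_lit 10))
    (@En.n l21452 (nat_lit 11872) (nat_lit 9) (nat_lit 11))
    (@En.n l17 (nat_lit 12107) (nat_lit 15) (nat_lit 2))))
  (@Cl.mk (nat_lit 0x2000c0009000c00070004000c0004000c00070004000c00040009000e0004) (nat_lit 0x9680090a00a0180) (nat_lit 16) Lb.e (@T16.mk En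
    (@En.i (nat_lit 9193) (nat_lit 15) (nat_lit 4))
    (@En.n l1947 (nat_lit 7340) (nat_lit 1) (nat_lit 14))
    (@En.i (nat_lit 6110) (nat_lit 2) (nat_lit 9))
    (@En.n l14154 (nat_lit 11910) (nat_lit 3) (nat_lit 4))
    (@En.n l615 (nat_lit 10513) (nat_lit 0) (nat_lit 12))
    (@En.n l97 (nat_lit 12665) (nat_lit 5) (nat_lit 4))
    (@En.n l13498 (nat_lit 12106) (nat_lit 6) (nat_lit 7))
    (@En.n l1866 (nat_lit 12109) (nat_lit 8) (nat_lit 12))
    (@En.n l35586 (nat_lit 11047) (nat_lit 8) (nat_lit 4))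
    (@En.n l1947 (nat_lit 5492) (nat_lit 10) (nat_lit 12))
    (@En.n l1016 (nat_lit 12765) (nat_lit 10) (nat_lit 4))
    (@En.n l55 (nat_lit 9061) (nat_lit 12) (nat_lit 7))
    (@En.n l615 (nat_lit 12744) (nat_lit 6) (nat_lit 12))
    (@En.n l35587 (nat_lit 8518) (nat_lit 14) (nat_lit 9))
    (@En.n l27817 (nat_lit 11781) (nat_lit 3) (nat_lit 12))
    (@En.n l17 (nat_lit 12108) (nat_lit 15) (nat_lit 2))))
  (@Cl.mk (nat_lit 0x2000c000a000700070004000d000c00060003000b000400090009000e0005) (nat_lit 0x36000b900803260) (nat_lit 16) Lb.e (@T16.mk En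
    (@En.i (nat_lit 12111) (nat_lit 9) (nat_lit 5))
    (@En.i (nat_lit 4624) (nat_lit 1) (nat_lit 14))
    (@En.i (nat_lit 12115) (nat_lit 7) (nat_lit 9))
    (@En.n l11916 (nat_lit 12106) (nat_lit 3) (nat_lit 9))
    (@En.n l6001 (nat_lit 10094) (nat_lit 4) (nat_lit 4))
    (@En.n l24976 (nat_lit 12215) (nat_lit 0) (nat_lit 11))
    (@En.n l7 (nat_lit 12110) (nat_lit 6) (nat_lit 3))
    (@En.n l9819 (nat_lit 5746) (nat_lit 0) (nat_lit 6))
    (@En.n l644 (nat_lit 12113) (nat_lit 9) (nat_lit 12))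
    (@En.n l11365 (nat_lit 7562) (nat_lit 10) (nat_lit 13))
    (@En.n l11 (nat_lit 12634) (nat_lit 10) (nat_lit 4))
    (@En.n l20823 (nat_lit 12396) (nat_lit 12) (nat_lit 7))
    (@En.n l936 (nat_lit 12328) (nat_lit 13) (nat_lit 7))
    (@En.i (nat_lit 5818) (nat_lit 14) (nat_lit 10))
    (@En.i (nat_lit 11835) (nat_lit 8) (nat_lit 12))
    (@En.n l17 (nat_lit 12109) (nat_lit 15) (nat_lit 2))))
  (@Cl.mk (nat_lit 0x2000c000b000700070004000d0005000d0003000b000300090009000e0005) (nat_lit 0x36000b080805270) (nat_lit 16) Lb.e (@T16.mk En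
    (@En.i (nat_lit 12112) (nat_lit 9) (nat_lit 5))
    (@En.i (nat_lit 4623) (nat_lit 1) (nat_lit 14))
    (@En.i (nat_lit 12114) (nat_lit 7) (nat_lit 9))
    (@En.i (nat_lit 12107) (nat_lit 3) (nat_lit 9))
    (@En.i (nat_lit 12113) (nat_lit 4) (nat_lit 3))
    (@En.i (nat_lit 11745) (nat_lit 0) (nat_lit 11))
    (@En.i (nat_lit 12109) (nat_lit 6) (nat_lit 3))
    (@En.n l1898 (nat_lit 1239) (nat_lit 0) (nat_lit 13))
    (@En.n l13320 (nat_lit 5953) (nat_lit 8) (nat_lit 5))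
    (@En.n l14805 (nat_lit 7559) (nat_lit 10) (nat_lit 13))
    (@En.n l11 (nat_lit 12637) (nat_lit 10) (nat_lit 4))
    (@En.n l1900 (nat_lit 12395) (nat_lit 12) (nat_lit 7))
    (@En.n l936 (nat_lit 12325) (nat_lit 13) (nat_lit 7))
    (@En.n l55 (nat_lit 12490) (nat_lit 14) (nat_lit 11))
    (@En.i (nat_lit 11834) (nat_lit 10) (nat_lit 12))
    (@En.n l17 (nat_lit 12110) (nat_lit 15) (nat_lit 2))))
  (@Cl.mk (nat_lit 0x3000b000b0005000a000a00050005000c000a000600060004000d000b0006) (nat_lit 0x790820025000360) (nat_lit 16) Lb.e (@T16.mk En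
    (@En.n l24969 (nat_lit 5740) (nat_lit 0) (nat_lit 6))
    (@En.n l644 (nat_lit 10283) (nat_lit 5) (nat_lit 11))
    (@En.n l24970 (nat_lit 7561) (nat_lit 2) (nat_lit 13))
    (@En.n l24971 (nat_lit 12444) (nat_lit 3) (nat_lit 4))
    (@En.n l1900 (nat_lit 5312) (nat_lit 10) (nat_lit 6))
    (@En.n l24972 (nat_lit 12452) (nat_lit 5) (nat_lit 6))
    (@En.n l24973 (nat_lit 8952) (nat_lit 6) (nat_lit 10))
    (@En.n l24974 (nat_lit 11839) (nat_lit 8) (nat_lit 12))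
    (@En.n l24975 (nat_lit 12608) (nat_lit 11) (nat_lit 5))
    (@En.n l22492 (nat_lit 10478) (nat_lit 9) (nat_lit 5))
    (@En.n l22261 (nat_lit 12117) (nat_lit 6) (nat_lit 10))
    (@En.n l24970 (nat_lit 9192) (nat_lit 12) (nat_lit 10))
    (@En.n l14964 (nat_lit 11996) (nat_lit 2) (nat_lit 5))
    (@En.n l61 (nat_lit 12109) (nat_lit 5) (nat_lit 11))
    (@En.n l24976 (nat_lit 11091) (nat_lit 11) (nat_lit 11))
    (@En.n l7 (nat_lit 12112) (nat_lit 15) (nat_lit 3))))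
noncomputable def a757 : T16 Cl := @T16.mk Cl
  (@Cl.mk (nat_lit 0x3000b000b0004000a000a00050005000c000b000600060004000d0005000c) (nat_lit 0x790320045000402) (nat_lit 16) Lb.e (@T16.mk En
    (@En.n l1898 (nat_lit 1270) (nat_lit 0) (nat_lit 12))
    (@En.n l13320 (nat_lit 12000) (nat_lit 4) (nat_lit 5))
    (@En.n l29167 (nat_lit 7558) (nat_lit 2) (nat_lit 13))
    (@En.n l29168 (nat_lit 12446) (nat_lit 3) (nat_lit 4))
    (@En.n l1900 (nat_lit 12397) (nat_lit 10) (nat_lit 6))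
    (@En.n l936 (nat_lit 12453) (nat_lit 5) (nat_lit 6))
    (@En.n l55 (nat_lit 9218) (nat_lit 5) (nat_lit 11))
    (@En.n l12306 (nat_lit 11838) (nat_lit 8) (nat_lit 12))
    (@En.n l29169 (nat_lit 12606) (nat_lit 11) (nat_lit 5))
    (@En.n l22492 (nat_lit 10476) (nat_lit 9) (nat_lit 5))
    (@En.n l13491 (nat_lit 12116) (nat_lit 6) (nat_lit 10))
    (@En.n l13489 (nat_lit 11832) (nat_lit 12) (nat_lit 10))
    (@En.n l14964 (nat_lit 11122) (nat_lit 2) (nat_lit 4))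
    (@En.n l61 (nat_lit 12110) (nat_lit 5) (nat_lit 11))
    (@En.i (nat_lit 12344) (nat_lit 1) (nat_lit 11))
    (@En.i (nat_lit 12111) (nat_lit 15) (nat_lit 3))))
  (@Cl.mk (nat_lit 0x2000c000b000700070004000c0005000d000a0004000300090009000e0006) (nat_lit 0x360008094005470) (nat_lit 16) Lb.e (@T16.mk En
    (@En.i (nat_lit 10283) (nat_lit 12) (nat_lit 6))
    (@En.i (nat_lit 4622) (nat_lit 1) (nat_lit 14))
    (@En.i (nat_lit 12118) (nat_lit 7) (nat_lit 9))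
    (@En.n l10703 (nat_lit 11049) (nat_lit 3) (nat_lit 9))
    (@En.n l50 (nat_lit 12110) (nat_lit 4) (nat_lit 3))
    (@En.n l6001 (nat_lit 10102) (nat_lit 0) (nat_lit 4))
    (@En.n l217 (nat_lit 11025) (nat_lit 0) (nat_lit 10))
    (@En.n l1898 (nat_lit 1238) (nat_lit 8) (nat_lit 13))
    (@En.n l14830 (nat_lit 11516) (nat_lit 8) (nat_lit 5))
    (@En.n l14805 (nat_lit 7582) (nat_lit 10) (nat_lit 12))
    (@En.n l11 (nat_lit 12635) (nat_lit 10) (nat_lit 4))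
    (@En.n l6170 (nat_lit 12394) (nat_lit 12) (nat_lit 7))
    (@En.n l936 (nat_lit 12322) (nat_lit 13) (nat_lit 7))
    (@En.n l55 (nat_lit 12492) (nat_lit 14) (nat_lit 11))
    (@En.i (nat_lit 11833) (nat_lit 10) (nat_lit 12))
    (@En.n l17 (nat_lit 12113) (nat_lit 15) (nat_lit 2))))
  (@Cl.mk (nat_lit 0x20005000d0006000d0003000c00030009000e00040002000b000a000e0007) (nat_lit 0x50906014004480) (nat_lit 16) Lb.e (@T16.mk En
    (@En.n l152 (nat_lit 12110) (nat_lit 12) (nat_lit 7))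
    (@En.n l5859 (nat_lit 12497) (nat_lit 13) (nat_lit 14))
    (@En.n l6000 (nat_lit 12496) (nat_lit 14) (nat_lit 10))
    (@En.i (nat_lit 11905) (nat_lit 3) (nat_lit 11))
    (@En.n l17 (nat_lit 12114) (nat_lit 4) (nat_lit 2))
    (@En.n l13491 (nat_lit 12116) (nat_lit 5) (nat_lit 4))
    (@En.i (nat_lit 4070) (nat_lit 7) (nat_lit 14))
    (@En.n l6002 (nat_lit 6116) (nat_lit 2) (nat_lit 9))
    (@En.i (nat_lit 12118) (nat_lit 8) (nat_lit 3))
    (@En.n l1867 (nat_lit 11752) (nat_lit 10) (nat_lit 12))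
    (@En.i (nat_lit 12115) (nat_lit 10) (nat_lit 3))
    (@En.n l6002 (nat_lit 1284) (nat_lit 12) (nat_lit 13))
    (@En.i (nat_lit 5959) (nat_lit 13) (nat_lit 6))
    (@En.n l5579 (nat_lit 7565) (nat_lit 9) (nat_lit 13))
    (@En.n l6003 (nat_lit 4041) (nat_lit 13) (nat_lit 5))
    (@En.n l3 (nat_lit 12114) (nat_lit 15) (nat_lit 2))))
  (@Cl.mk (nat_lit 0x20005000d000c00070003000c00040009000e00040002000b0009000e0007) (nat_lit 0x4a004017003680) (nat_lit 16) Lb.e (@T16.mk En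
    (@En.n l152 (nat_lit 12109) (nat_lit 12) (nat_lit 7))
    (@En.n l5859 (nat_lit 12770) (nat_lit 13) (nat_lit 14))
    (@En.n l5411 (nat_lit 12775) (nat_lit 14) (nat_lit 9))
    (@En.n l19986 (nat_lit 11903) (nat_lit 3) (nat_lit 11))
    (@En.n l17 (nat_lit 12115) (nat_lit 4) (nat_lit 2))
    (@En.n l22261 (nat_lit 12117) (nat_lit 5) (nat_lit 4))
    (@En.i (nat_lit 4071) (nat_lit 7) (nat_lit 14))
    (@En.n l12483 (nat_lit 6104) (nat_lit 2) (nat_lit 9))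
    (@En.n l21162 (nat_lit 10095) (nat_lit 8) (nat_lit 4))
    (@En.n l4003 (nat_lit 10984) (nat_lit 10) (nat_lit 12))
    (@En.n l7 (nat_lit 12114) (nat_lit 10) (nat_lit 3))
    (@En.n l22262 (nat_lit 5806) (nat_lit 12) (nat_lit 7))
    (@En.n l644 (nat_lit 12118) (nat_lit 13) (nat_lit 12))
    (@En.n l10008 (nat_lit 7566) (nat_lit 9) (nat_lit 13))
    (@En.n l6003 (nat_lit 12619) (nat_lit 13) (nat_lit 5))
    (@En.n l3 (nat_lit 12115) (nat_lit 15) (nat_lit 2))))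
  (@Cl.mk (nat_lit 0x20005000d0006000c0003000c000c0004000a00040004000b000a000e0006) (nat_lit 0x40208701003370) (nat_lit 16) Lb.e (@T16.mk En
    (@En.n l14821 (nat_lit 12112) (nat_lit 5) (nat_lit 6))
    (@En.n l50 (nat_lit 12766) (nat_lit 1) (nat_lit 14))
    (@En.n l217 (nat_lit 12767) (nat_lit 2) (nat_lit 10))
    (@En.n l14822 (nat_lit 12764) (nat_lit 3) (nat_lit 11))
    (@En.n l152 (nat_lit 12742) (nat_lit 12) (nat_lit 4))
    (@En.n l14823 (nat_lit 12071) (nat_lit 5) (nat_lit 4))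
    (@En.i (nat_lit 6114) (nat_lit 0) (nat_lit 10))
    (@En.n l14822 (nat_lit 12662) (nat_lit 7) (nat_lit 4))
    (@En.n l14824 (nat_lit 12114) (nat_lit 9) (nat_lit 12))
    (@En.n l5372 (nat_lit 12327) (nat_lit 10) (nat_lit 12))
    (@En.n l14825 (nat_lit 12117) (nat_lit 10) (nat_lit 3))
    (@En.n l5592 (nat_lit 993) (nat_lit 12) (nat_lit 12))
    (@En.n l14826 (nat_lit 12372) (nat_lit 13) (nat_lit 6))
    (@En.n l14827 (nat_lit 7261) (nat_lit 14) (nat_lit 13))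
    (@En.n l14828 (nat_lit 12623) (nat_lit 13) (nat_lit 5))
    (@En.n l28 (nat_lit 12116) (nat_lit 15) (nat_lit 2))))
  (@Cl.mk (nat_lit 0x20005000d000b00070003000c000c0005000a00040004000b0009000e0006) (nat_lit 0x49008501003470) (nat_lit 16) Lb.e (@T16.mk En
    (@En.n l29171 (nat_lit 12111) (nat_lit 5) (nat_lit 6))
    (@En.n l134 (nat_lit 12768) (nat_lit 1) (nat_lit 14))
    (@En.n l217 (nat_lit 12771) (nat_lit 2) (nat_lit 9))
    (@En.n l29172 (nat_lit 12735) (nat_lit 3) (nat_lit 11))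
    (@En.n l29173 (nat_lit 12740) (nat_lit 4) (nat_lit 4))
    (@En.n l1055 (nat_lit 12067) (nat_lit 5) (nat_lit 4))
    (@En.n l29174 (nat_lit 6105) (nat_lit 0) (nat_lit 10))
    (@En.n l13859 (nat_lit 12358) (nat_lit 7) (nat_lit 5))
    (@En.n l29175 (nat_lit 12115) (nat_lit 9) (nat_lit 12))
    (@En.n l29176 (nat_lit 12814) (nat_lit 10) (nat_lit 12))
    (@En.n l29177 (nat_lit 12116) (nat_lit 10) (nat_lit 3))
    (@En.i (nat_lit 5793) (nat_lit 12) (nat_lit 7))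
    (@En.n l29178 (nat_lit 12119) (nat_lit 13) (nat_lit 11))
    (@En.n l29174 (nat_lit 7260) (nat_lit 14) (nat_lit 13))
    (@En.n l29179 (nat_lit 12648) (nat_lit 13) (nat_lit 5))
    (@En.n l7 (nat_lit 12117) (nat_lit 15) (nat_lit 2))))
  (@Cl.mk (nat_lit 0x20005000c0006000d000b000400030009000e00050002000b000a000e0007) (nat_lit 0x90a70036004430) (nat_lit 16) Lb.e (@T16.mk En
    (@En.n l152 (nat_lit 12113) (nat_lit 12) (nat_lit 7))
    (@En.n l5859 (nat_lit 12773) (nat_lit 13) (nat_lit 14))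
    (@En.n l6000 (nat_lit 12774) (nat_lit 14) (nat_lit 10))
    (@En.i (nat_lit 11907) (nat_lit 3) (nat_lit 11))
    (@En.n l17 (nat_lit 12118) (nat_lit 4) (nat_lit 2))
    (@En.i (nat_lit 12119) (nat_lit 5) (nat_lit 5))
    (@En.i (nat_lit 3752) (nat_lit 7) (nat_lit 14))
    (@En.n l831 (nat_lit 11144) (nat_lit 2) (nat_lit 9))
    (@En.n l50 (nat_lit 12114) (nat_lit 8) (nat_lit 3))
    (@En.n l6001 (nat_lit 10100) (nat_lit 9) (nat_lit 4))
    (@En.n l217 (nat_lit 12071) (nat_lit 11) (nat_lit 11))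
    (@En.n l6002 (nat_lit 1240) (nat_lit 12) (nat_lit 13))
    (@En.i (nat_lit 11514) (nat_lit 13) (nat_lit 6))
    (@En.n l5579 (nat_lit 7581) (nat_lit 9) (nat_lit 12))
    (@En.n l6003 (nat_lit 12620) (nat_lit 13) (nat_lit 5))
    (@En.n l3 (nat_lit 12118) (nat_lit 15) (nat_lit 2))))
  (@Cl.mk (nat_lit 0x20005000b0006000c000b000b00050004000a00050005000b000a000e0006) (nat_lit 0x80258002003330) (nat_lit 16) Lb.e (@T16.mk En
    (@En.n l152 (nat_lit 10283) (nat_lit 8) (nat_lit 6))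
    (@En.n l5859 (nat_lit 12769) (nat_lit 1) (nat_lit 14))
    (@En.n l6054 (nat_lit 12772) (nat_lit 2) (nat_lit 10))
    (@En.n l6055 (nat_lit 12729) (nat_lit 3) (nat_lit 11))
    (@En.n l6056 (nat_lit 12746) (nat_lit 4) (nat_lit 5))
    (@En.n l50 (nat_lit 7661) (nat_lit 5) (nat_lit 5))
    (@En.n l6057 (nat_lit 11151) (nat_lit 7) (nat_lit 10))
    (@En.n l6058 (nat_lit 12116) (nat_lit 7) (nat_lit 4))
    (@En.n l6059 (nat_lit 12636) (nat_lit 8) (nat_lit 5))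
    (@En.n l61 (nat_lit 12118) (nat_lit 10) (nat_lit 11))
    (@En.n l217 (nat_lit 12653) (nat_lit 11) (nat_lit 11))
    (@En.n l6055 (nat_lit 990) (nat_lit 12) (nat_lit 12))
    (@En.n l6060 (nat_lit 11517) (nat_lit 13) (nat_lit 6))
    (@En.n l6061 (nat_lit 7579) (nat_lit 14) (nat_lit 11))
    (@En.n l6062 (nat_lit 12682) (nat_lit 13) (nat_lit 5))
    (@En.n l3 (nat_lit 12119) (nat_lit 15) (nat_lit 2))))
  (@Cl.mk (nat_lit 0x2000b0005000b000900090005000d0005000a000300070007000b000e0006) (nat_lit 0x407120706000660) (nat_lit 16) Lb.e (@T16.mk En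
    (@En.n l3098 (nat_lit 11404) (nat_lit 11) (nat_lit 6))
    (@En.i (nat_lit 12385) (nat_lit 4) (nat_lit 14))
    (@En.n l558 (nat_lit 11722) (nat_lit 2) (nat_lit 11))
    (@En.n l2390 (nat_lit 12123) (nat_lit 9) (nat_lit 7))
    (@En.n l5611 (nat_lit 11962) (nat_lit 4) (nat_lit 7))
    (@En.n l3039 (nat_lit 8044) (nat_lit 5) (nat_lit 3))
    (@En.n l19998 (nat_lit 11536) (nat_lit 0) (nat_lit 10))
    (@En.n l8757 (nat_lit 6445) (nat_lit 7) (nat_lit 5))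
    (@En.n l11 (nat_lit 11697) (nat_lit 9) (nat_lit 13))
    (@En.n l33634 (nat_lit 8055) (nat_lit 9) (nat_lit 5))
    (@En.n l7479 (nat_lit 8040) (nat_lit 7) (nat_lit 9))
    (@En.n l17626 (nat_lit 4175) (nat_lit 12) (nat_lit 9))
    (@En.n l3447 (nat_lit 5602) (nat_lit 13) (nat_lit 11))
    (@En.n l10356 (nat_lit 12121) (nat_lit 14) (nat_lit 5))
    (@En.n l19998 (nat_lit 11245) (nat_lit 9) (nat_lit 11))
    (@En.n l17 (nat_lit 12120) (nat_lit 15) (nat_lit 2))))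
  (@Cl.mk (nat_lit 0x20005000b000900090008000d00050009000300070007000b0008000e0007) (nat_lit 0x93136060007570) (nat_lit 16) Lb.e (@T16.mk En
    (@En.n l117 (nat_lit 11661) (nat_lit 10) (nat_lit 7))
    (@En.n l23413 (nat_lit 12120) (nat_lit 1) (nat_lit 14))
    (@En.n l17 (nat_lit 8102) (nat_lit 2) (nat_lit 8))
    (@En.i (nat_lit 11726) (nat_lit 3) (nat_lit 11))
    (@En.n l644 (nat_lit 12122) (nat_lit 4) (nat_lit 7))
    (@En.n l7507 (nat_lit 12132) (nat_lit 5) (nat_lit 7))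
    (@En.n l25181 (nat_lit 11659) (nat_lit 6) (nat_lit 3))
    (@En.i (nat_lit 11535) (nat_lit 0) (nat_lit 9))
    (@En.n l20952 (nat_lit 5315) (nat_lit 8) (nat_lit 5))
    (@En.n l3858 (nat_lit 11699) (nat_lit 10) (nat_lit 13))
    (@En.n l4240 (nat_lit 12034) (nat_lit 11) (nat_lit 8))
    (@En.n l20953 (nat_lit 8041) (nat_lit 12) (nat_lit 9))
    (@En.n l20343 (nat_lit 11931) (nat_lit 13) (nat_lit 9))
    (@En.n l12523 (nat_lit 8016) (nat_lit 14) (nat_lit 11))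
    (@En.n l17797 (nat_lit 11325) (nat_lit 13) (nat_lit 5))
    (@En.n l11 (nat_lit 12121) (nat_lit 15) (nat_lit 2))))
  (@Cl.mk (nat_lit 0x20005000a000e000900020009000d0006000a00030007000b0007000e0006) (nat_lit 0x81404705005060) (nat_lit 16) Lb.e (@T16.mk En
    (@En.n l117 (nat_lit 11433) (nat_lit 5) (nat_lit 6))
    (@En.i (nat_lit 12123) (nat_lit 7) (nat_lit 14))
    (@En.n l17 (nat_lit 7705) (nat_lit 7) (nat_lit 7))
    (@En.i (nat_lit 7458) (nat_lit 3) (nat_lit 11))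
    (@En.n l7507 (nat_lit 12127) (nat_lit 4) (nat_lit 7))
    (@En.n l2576 (nat_lit 11431) (nat_lit 5) (nat_lit 3))
    (@En.i (nat_lit 12400) (nat_lit 0) (nat_lit 10))
    (@En.n l5646 (nat_lit 7011) (nat_lit 7) (nat_lit 6))
    (@En.i (nat_lit 12101) (nat_lit 9) (nat_lit 13))
    (@En.i (nat_lit 11010) (nat_lit 10) (nat_lit 9))
    (@En.n l50 (nat_lit 12122) (nat_lit 10) (nat_lit 2))
    (@En.i (nat_lit 12121) (nat_lit 12) (nat_lit 9))
    (@En.n l3325 (nat_lit 1921) (nat_lit 13) (nat_lit 14))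
    (@En.n l6606 (nat_lit 11035) (nat_lit 2) (nat_lit 10))
    (@En.i (nat_lit 11331) (nat_lit 13) (nat_lit 5))
    (@En.n l11 (nat_lit 12122) (nat_lit 15) (nat_lit 2))))
  (@Cl.mk (nat_lit 0x20006000d0006000b00030007000b000e00050002000a0005000a000e0009) (nat_lit 0x80500550040892) (nat_lit 16) Lb.e (@T16.mk En
    (@En.n l23413 (nat_lit 12120) (nat_lit 11) (nat_lit 9))
    (@En.n l2362 (nat_lit 6646) (nat_lit 12) (nat_lit 14))
    (@En.n l2286 (nat_lit 5599) (nat_lit 2) (nat_lit 10))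
    (@En.n l725 (nat_lit 12122) (nat_lit 14) (nat_lit 5))
    (@En.i (nat_lit 11246) (nat_lit 4) (nat_lit 10))
    (@En.n l11 (nat_lit 12123) (nat_lit 5) (nat_lit 2))
    (@En.n l6680 (nat_lit 11447) (nat_lit 6) (nat_lit 5))
    (@En.n l12270 (nat_lit 12380) (nat_lit 8) (nat_lit 14))
    (@En.n l617 (nat_lit 4806) (nat_lit 9) (nat_lit 11))
    (@En.n l7507 (nat_lit 12128) (nat_lit 3) (nat_lit 7))
    (@En.n l23414 (nat_lit 12124) (nat_lit 10) (nat_lit 3))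
    (@En.i (nat_lit 11502) (nat_lit 0) (nat_lit 11))
    (@En.n l23415 (nat_lit 7010) (nat_lit 13) (nat_lit 6))
    (@En.n l2362 (nat_lit 12100) (nat_lit 8) (nat_lit 13))
    (@En.n l13102 (nat_lit 7463) (nat_lit 8) (nat_lit 6))
    (@En.n l50 (nat_lit 12123) (nat_lit 15) (nat_lit 2))))
  (@Cl.mk (nat_lit 0x20006000d000a000700030007000b000e00060002000a00050009000e0009) (nat_lit 0x93000630040412) (nat_lit 16) Lb.e (@T16.mk En
    (@En.n l2393 (nat_lit 8044) (nat_lit 11) (nat_lit 9))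
    (@En.n l2394 (nat_lit 5025) (nat_lit 12) (nat_lit 14))
    (@En.n l10196 (nat_lit 8041) (nat_lit 2) (nat_lit 9))
    (@En.n l10197 (nat_lit 11431) (nat_lit 14) (nat_lit 5))
    (@En.n l10198 (nat_lit 11240) (nat_lit 4) (nat_lit 10))
    (@En.n l28 (nat_lit 12124) (nat_lit 5) (nat_lit 2))
    (@En.n l10199 (nat_lit 11428) (nat_lit 6) (nat_lit 6))
    (@En.i (nat_lit 12384) (nat_lit 8) (nat_lit 14))
    (@En.n l10200 (nat_lit 4805) (nat_lit 9) (nat_lit 11))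
    (@En.n l10201 (nat_lit 9977) (nat_lit 3) (nat_lit 7))
    (@En.n l10202 (nat_lit 12123) (nat_lit 10) (nat_lit 3))
    (@En.n l10196 (nat_lit 12378) (nat_lit 0) (nat_lit 7))
    (@En.i (nat_lit 11497) (nat_lit 13) (nat_lit 10))
    (@En.n l2396 (nat_lit 12099) (nat_lit 8) (nat_lit 13))
    (@En.n l10203 (nat_lit 9899) (nat_lit 8) (nat_lit 6))
    (@En.n l3 (nat_lit 12124) (nat_lit 15) (nat_lit 2))))
  (@Cl.mk (nat_lit 0x20009000d0009000d0003000900030007000d0007000c00030007000e0004) (nat_lit 0x683603009060040) (nat_lit 16) Lb.e (@T16.mk En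
    (@En.n l6680 (nat_lit 12463) (nat_lit 7) (nat_lit 4))
    (@En.n l3325 (nat_lit 4373) (nat_lit 1) (nat_lit 14))
    (@En.i (nat_lit 3982) (nat_lit 2) (nat_lit 7))
    (@En.n l2576 (nat_lit 12126) (nat_lit 3) (nat_lit 3))
    (@En.i (nat_lit 8611) (nat_lit 0) (nat_lit 12))
    (@En.n l23415 (nat_lit 10880) (nat_lit 5) (nat_lit 7))
    (@En.n l3348 (nat_lit 12040) (nat_lit 7) (nat_lit 13))
    (@En.n l387 (nat_lit 7197) (nat_lit 7) (nat_lit 7))
    (@En.n l3327 (nat_lit 7890) (nat_lit 8) (nat_lit 3))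
    (@En.i (nat_lit 12123) (nat_lit 0) (nat_lit 9))
    (@En.n l16749 (nat_lit 7891) (nat_lit 10) (nat_lit 3))
    (@En.n l1540 (nat_lit 7066) (nat_lit 0) (nat_lit 13))
    (@En.n l13103 (nat_lit 11142) (nat_lit 13) (nat_lit 9))
    (@En.n l617 (nat_lit 8688) (nat_lit 14) (nat_lit 13))
    (@En.i (nat_lit 12148) (nat_lit 5) (nat_lit 9))
    (@En.n l11 (nat_lit 12125) (nat_lit 15) (nat_lit 2))))
  (@Cl.mk (nat_lit 0x20009000d0008000d0003000900030007000d000b000800030007000e0005) (nat_lit 0x55330300a750020) (nat_lit 16) Lb.e (@T16.mk En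
    (@En.n l6680 (nat_lit 12472) (nat_lit 7) (nat_lit 5))
    (@En.n l7291 (nat_lit 4375) (nat_lit 1) (nat_lit 14))
    (@En.i (nat_lit 10262) (nat_lit 2) (nat_lit 7))
    (@En.n l936 (nat_lit 12125) (nat_lit 3) (nat_lit 3))
    (@En.i (nat_lit 9889) (nat_lit 0) (nat_lit 8))
    (@En.n l7021 (nat_lit 10327) (nat_lit 13) (nat_lit 11))
    (@En.n l17779 (nat_lit 12041) (nat_lit 7) (nat_lit 13))
    (@En.n l387 (nat_lit 7194) (nat_lit 7) (nat_lit 7))
    (@En.n l6268 (nat_lit 7888) (nat_lit 8) (nat_lit 3))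
    (@En.n l2370 (nat_lit 12124) (nat_lit 0) (nat_lit 9))
    (@En.n l9307 (nat_lit 7889) (nat_lit 10) (nat_lit 3))
    (@En.n l32657 (nat_lit 7054) (nat_lit 0) (nat_lit 13))
    (@En.n l32583 (nat_lit 11551) (nat_lit 13) (nat_lit 8))
    (@En.n l617 (nat_lit 8684) (nat_lit 14) (nat_lit 13))
    (@En.n l15991 (nat_lit 8249) (nat_lit 5) (nat_lit 9))
    (@En.n l11 (nat_lit 12126) (nat_lit 15) (nat_lit 2))))
  (@Cl.mk (nat_lit 0x200050009000d0009000d0003000a00030007000b0007000b0006000e0005) (nat_lit 0x68570700805090) (nat_lit 16) Lb.e (@T16.mk En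
    (@En.n l9170 (nat_lit 12131) (nat_lit 8) (nat_lit 5))
    (@En.i (nat_lit 12128) (nat_lit 1) (nat_lit 14))
    (@En.n l11417 (nat_lit 10734) (nat_lit 2) (nat_lit 6))
    (@En.n l11 (nat_lit 3857) (nat_lit 3) (nat_lit 11))
    (@En.i (nat_lit 11415) (nat_lit 4) (nat_lit 7))
    (@En.n l1316 (nat_lit 12401) (nat_lit 6) (nat_lit 11))
    (@En.n l21137 (nat_lit 7013) (nat_lit 6) (nat_lit 7))
    (@En.n l4133 (nat_lit 12130) (nat_lit 7) (nat_lit 3))
    (@En.n l1316 (nat_lit 12134) (nat_lit 0) (nat_lit 10))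
    (@En.i (nat_lit 12129) (nat_lit 9) (nat_lit 3))
    (@En.n l1316 (nat_lit 7698) (nat_lit 11) (nat_lit 13))
    (@En.i (nat_lit 12132) (nat_lit 12) (nat_lit 9))
    (@En.n l31651 (nat_lit 8910) (nat_lit 13) (nat_lit 13))
    (@En.n l23849 (nat_lit 12126) (nat_lit 14) (nat_lit 9))
    (@En.n l5732 (nat_lit 12141) (nat_lit 13) (nat_lit 5))
    (@En.n l3 (nat_lit 12127) (nat_lit 15) (nat_lit 2))))
noncomputable def a758 : T16 Cl := @T16.mk Cl
  (@Cl.mk (nat_lit 0x2000900050009000d0009000d0003000700030007000c0007000b000e0004) (nat_lit 0x506872000090580) (nat_lit 16) Lb.e (@T16.mk En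
    (@En.n l9170 (nat_lit 12151) (nat_lit 7) (nat_lit 4))
    (@En.n l8460 (nat_lit 6366) (nat_lit 4) (nat_lit 14))
    (@En.n l11 (nat_lit 3746) (nat_lit 2) (nat_lit 11))
    (@En.i (nat_lit 11418) (nat_lit 3) (nat_lit 7))
    (@En.n l1316 (nat_lit 12406) (nat_lit 12) (nat_lit 12))
    (@En.n l35240 (nat_lit 5511) (nat_lit 5) (nat_lit 7))
    (@En.n l17182 (nat_lit 12156) (nat_lit 6) (nat_lit 3))
    (@En.n l8460 (nat_lit 11233) (nat_lit 0) (nat_lit 7))
    (@En.n l21672 (nat_lit 12133) (nat_lit 8) (nat_lit 3))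
    (@En.n l16555 (nat_lit 7209) (nat_lit 0) (nat_lit 13))
    (@En.n l8460 (nat_lit 11962) (nat_lit 11) (nat_lit 9))
    (@En.n l17182 (nat_lit 8907) (nat_lit 12) (nat_lit 13))
    (@En.n l22209 (nat_lit 4375) (nat_lit 13) (nat_lit 9))
    (@En.n l17 (nat_lit 12127) (nat_lit 14) (nat_lit 5))
    (@En.i (nat_lit 10561) (nat_lit 5) (nat_lit 9))
    (@En.n l3 (nat_lit 12128) (nat_lit 15) (nat_lit 2))))
  (@Cl.mk (nat_lit 0x200050009000d000c000a0003000a00040007000b0006000b0006000e0005) (nat_lit 0x77a70800805080) (nat_lit 16) Lb.e (@T16.mk En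
    (@En.n l21671 (nat_lit 12154) (nat_lit 6) (nat_lit 5))
    (@En.n l21672 (nat_lit 12133) (nat_lit 1) (nat_lit 14))
    (@En.n l20091 (nat_lit 10735) (nat_lit 2) (nat_lit 6))
    (@En.n l11 (nat_lit 3858) (nat_lit 3) (nat_lit 11))
    (@En.n l430 (nat_lit 11481) (nat_lit 4) (nat_lit 6))
    (@En.n l1316 (nat_lit 12404) (nat_lit 6) (nat_lit 11))
    (@En.n l386 (nat_lit 7014) (nat_lit 6) (nat_lit 7))
    (@En.n l21673 (nat_lit 7505) (nat_lit 7) (nat_lit 4))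
    (@En.n l21674 (nat_lit 10867) (nat_lit 9) (nat_lit 10))
    (@En.n l7 (nat_lit 12127) (nat_lit 9) (nat_lit 3))
    (@En.n l386 (nat_lit 10039) (nat_lit 11) (nat_lit 10))
    (@En.n l4861 (nat_lit 12130) (nat_lit 12) (nat_lit 12))
    (@En.n l21675 (nat_lit 8912) (nat_lit 13) (nat_lit 13))
    (@En.n l21676 (nat_lit 7889) (nat_lit 14) (nat_lit 9))
    (@En.n l21677 (nat_lit 12147) (nat_lit 13) (nat_lit 5))
    (@En.n l3 (nat_lit 12129) (nat_lit 15) (nat_lit 2))))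
  (@Cl.mk (nat_lit 0x200050009000c0009000d0009000400030007000b0007000b0007000e0005) (nat_lit 0x79686000806090) (nat_lit 16) Lb.e (@T16.mk En
    (@En.n l1236 (nat_lit 12155) (nat_lit 8) (nat_lit 5))
    (@En.n l11419 (nat_lit 12156) (nat_lit 1) (nat_lit 14))
    (@En.n l11419 (nat_lit 10736) (nat_lit 2) (nat_lit 7))
    (@En.n l6787 (nat_lit 3739) (nat_lit 3) (nat_lit 11))
    (@En.n l932 (nat_lit 11480) (nat_lit 4) (nat_lit 7))
    (@En.i (nat_lit 12405) (nat_lit 6) (nat_lit 11))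
    (@En.n l16507 (nat_lit 12129) (nat_lit 6) (nat_lit 7))
    (@En.n l2711 (nat_lit 12127) (nat_lit 7) (nat_lit 3))
    (@En.n l6781 (nat_lit 7453) (nat_lit 8) (nat_lit 4))
    (@En.n l68 (nat_lit 10864) (nat_lit 10) (nat_lit 9))
    (@En.n l16508 (nat_lit 7445) (nat_lit 11) (nat_lit 13))
    (@En.n l929 (nat_lit 10047) (nat_lit 12) (nat_lit 9))
    (@En.n l16508 (nat_lit 8898) (nat_lit 13) (nat_lit 12))
    (@En.n l16509 (nat_lit 7888) (nat_lit 14) (nat_lit 9))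
    (@En.n l16510 (nat_lit 12142) (nat_lit 13) (nat_lit 5))
    (@En.n l7 (nat_lit 12130) (nat_lit 15) (nat_lit 2))))
  (@Cl.mk (nat_lit 0x30007000b000b0008000c00070005000500040009000d0008000d00030009) (nat_lit 0x89150000575602) (nat_lit 16) Lb.e (@T16.mk En
    (@En.i (nat_lit 8017) (nat_lit 0) (nat_lit 9))
    (@En.n l10969 (nat_lit 12154) (nat_lit 15) (nat_lit 3))
    (@En.n l5801 (nat_lit 7114) (nat_lit 0) (nat_lit 13))
    (@En.i (nat_lit 12159) (nat_lit 3) (nat_lit 8))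
    (@En.n l2038 (nat_lit 9969) (nat_lit 6) (nat_lit 13))
    (@En.n l21506 (nat_lit 12472) (nat_lit 5) (nat_lit 9))
    (@En.n l11407 (nat_lit 12148) (nat_lit 6) (nat_lit 4))
    (@En.n l2172 (nat_lit 12157) (nat_lit 11) (nat_lit 5))
    (@En.i (nat_lit 7615) (nat_lit 8) (nat_lit 5))
    (@En.n l34190 (nat_lit 10208) (nat_lit 7) (nat_lit 7))
    (@En.i (nat_lit 3872) (nat_lit 11) (nat_lit 12))
    (@En.n l742 (nat_lit 10307) (nat_lit 12) (nat_lit 8))
    (@En.n l21509 (nat_lit 12127) (nat_lit 5) (nat_lit 11))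
    (@En.n l5801 (nat_lit 8703) (nat_lit 12) (nat_lit 11))
    (@En.i (nat_lit 7015) (nat_lit 12) (nat_lit 7))
    (@En.n l5801 (nat_lit 12155) (nat_lit 15) (nat_lit 3))))
  (@Cl.mk (nat_lit 0x20005000a0009000d000a000900030006000a00070006000b0007000e0006) (nat_lit 0x84314005006030) (nat_lit 16) Lb.e (@T16.mk En
    (@En.n l9170 (nat_lit 12159) (nat_lit 7) (nat_lit 6))
    (@En.n l8460 (nat_lit 11962) (nat_lit 1) (nat_lit 14))
    (@En.n l5486 (nat_lit 10737) (nat_lit 2) (nat_lit 7))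
    (@En.n l1316 (nat_lit 12039) (nat_lit 3) (nat_lit 11))
    (@En.n l77 (nat_lit 12129) (nat_lit 4) (nat_lit 6))
    (@En.n l430 (nat_lit 12293) (nat_lit 5) (nat_lit 7))
    (@En.n l1316 (nat_lit 10766) (nat_lit 7) (nat_lit 10))
    (@En.n l5501 (nat_lit 7655) (nat_lit 7) (nat_lit 6))
    (@En.n l964 (nat_lit 10047) (nat_lit 8) (nat_lit 3))
    (@En.n l1316 (nat_lit 12104) (nat_lit 0) (nat_lit 9))
    (@En.n l9171 (nat_lit 7583) (nat_lit 11) (nat_lit 10))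
    (@En.n l3244 (nat_lit 12162) (nat_lit 12) (nat_lit 13))
    (@En.n l9172 (nat_lit 12163) (nat_lit 13) (nat_lit 9))
    (@En.n l9173 (nat_lit 11551) (nat_lit 14) (nat_lit 10))
    (@En.n l5732 (nat_lit 12227) (nat_lit 13) (nat_lit 5))
    (@En.n l3 (nat_lit 12132) (nat_lit 15) (nat_lit 2))))
  (@Cl.mk (nat_lit 0x2000900050009000d000c000a0003000700040007000c0006000b000e0004) (nat_lit 0x507728000050470) (nat_lit 16) Lb.e (@T16.mk En
    (@En.n l25053 (nat_lit 12153) (nat_lit 7) (nat_lit 4))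
    (@En.i (nat_lit 6368) (nat_lit 4) (nat_lit 14))
    (@En.n l19564 (nat_lit 3745) (nat_lit 2) (nat_lit 11))
    (@En.n l3506 (nat_lit 11483) (nat_lit 3) (nat_lit 6))
    (@En.n l2572 (nat_lit 12411) (nat_lit 12) (nat_lit 12))
    (@En.n l7471 (nat_lit 7021) (nat_lit 5) (nat_lit 7))
    (@En.n l3506 (nat_lit 7503) (nat_lit 6) (nat_lit 4))
    (@En.i (nat_lit 11145) (nat_lit 7) (nat_lit 7))
    (@En.n l24353 (nat_lit 12128) (nat_lit 8) (nat_lit 3))
    (@En.i (nat_lit 7578) (nat_lit 0) (nat_lit 10))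
    (@En.n l6698 (nat_lit 12156) (nat_lit 11) (nat_lit 12))
    (@En.n l1578 (nat_lit 8908) (nat_lit 12) (nat_lit 13))
    (@En.n l781 (nat_lit 4377) (nat_lit 13) (nat_lit 9))
    (@En.n l16478 (nat_lit 12129) (nat_lit 14) (nat_lit 5))
    (@En.n l2125 (nat_lit 10027) (nat_lit 5) (nat_lit 9))
    (@En.n l17 (nat_lit 12133) (nat_lit 15) (nat_lit 2))))
  (@Cl.mk (nat_lit 0x20006000a0006000a0006000a000e000600020006000a0006000a000e000a) (nat_lit 0x80404600050416) (nat_lit 16) Lb.e (@T16.mk En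
    (@En.n l9463 (nat_lit 11001) (nat_lit 10) (nat_lit 10))
    (@En.i (nat_lit 2021) (nat_lit 11) (nat_lit 14))
    (@En.i (nat_lit 12104) (nat_lit 2) (nat_lit 10))
    (@En.n l9385 (nat_lit 6503) (nat_lit 13) (nat_lit 6))
    (@En.n l3496 (nat_lit 12124) (nat_lit 4) (nat_lit 10))
    (@En.n l1081 (nat_lit 12135) (nat_lit 5) (nat_lit 6))
    (@En.n l11 (nat_lit 12134) (nat_lit 6) (nat_lit 2))
    (@En.n l16304 (nat_lit 8017) (nat_lit 7) (nat_lit 6))
    (@En.n l1329 (nat_lit 11505) (nat_lit 9) (nat_lit 14))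
    (@En.n l699 (nat_lit 6959) (nat_lit 2) (nat_lit 10))
    (@En.n l1738 (nat_lit 7803) (nat_lit 3) (nat_lit 6))
    (@En.n l16307 (nat_lit 8074) (nat_lit 12) (nat_lit 10))
    (@En.n l7507 (nat_lit 11029) (nat_lit 5) (nat_lit 6))
    (@En.i (nat_lit 12469) (nat_lit 14) (nat_lit 10))
    (@En.n l24339 (nat_lit 9901) (nat_lit 7) (nat_lit 6))
    (@En.n l18 (nat_lit 12134) (nat_lit 15) (nat_lit 2))))
  (@Cl.mk (nat_lit 0x2000600090006000a000d0007000b000300070006000a0005000a000e0009) (nat_lit 0x20180600050663) (nat_lit 16) Lb.e (@T16.mk En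
    (@En.n l15234 (nat_lit 6271) (nat_lit 9) (nat_lit 9))
    (@En.n l34600 (nat_lit 2609) (nat_lit 1) (nat_lit 14))
    (@En.n l21395 (nat_lit 12320) (nat_lit 2) (nat_lit 10))
    (@En.n l30468 (nat_lit 9630) (nat_lit 3) (nat_lit 5))
    (@En.n l12231 (nat_lit 12137) (nat_lit 4) (nat_lit 10))
    (@En.n l9240 (nat_lit 12136) (nat_lit 5) (nat_lit 6))
    (@En.n l3106 (nat_lit 11246) (nat_lit 6) (nat_lit 7))
    (@En.n l34601 (nat_lit 12138) (nat_lit 7) (nat_lit 3))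
    (@En.n l9238 (nat_lit 5995) (nat_lit 0) (nat_lit 11))
    (@En.n l30073 (nat_lit 10022) (nat_lit 10) (nat_lit 7))
    (@En.n l34602 (nat_lit 6513) (nat_lit 11) (nat_lit 13))
    (@En.i (nat_lit 5116) (nat_lit 12) (nat_lit 10))
    (@En.n l34602 (nat_lit 11523) (nat_lit 13) (nat_lit 6))
    (@En.i (nat_lit 11432) (nat_lit 9) (nat_lit 9))
    (@En.n l34603 (nat_lit 8456) (nat_lit 6) (nat_lit 6))
    (@En.n l50 (nat_lit 12135) (nat_lit 15) (nat_lit 2))))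
  (@Cl.mk (nat_lit 0x20006000d0006000a0003000d0008000c00030006000a0004000a000e0008) (nat_lit 0x50209270030555) (nat_lit 16) Lb.e (@T16.mk En
    (@En.n l28 (nat_lit 6270) (nat_lit 5) (nat_lit 8))
    (@En.n l1819 (nat_lit 2610) (nat_lit 1) (nat_lit 14))
    (@En.n l29740 (nat_lit 12653) (nat_lit 2) (nat_lit 10))
    (@En.n l1817 (nat_lit 9629) (nat_lit 3) (nat_lit 4))
    (@En.n l30889 (nat_lit 6261) (nat_lit 4) (nat_lit 10))
    (@En.i (nat_lit 11233) (nat_lit 5) (nat_lit 6))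
    (@En.n l24006 (nat_lit 12139) (nat_lit 6) (nat_lit 3))
    (@En.i (nat_lit 5996) (nat_lit 0) (nat_lit 12))
    (@En.n l11218 (nat_lit 10562) (nat_lit 9) (nat_lit 8))
    (@En.n l3141 (nat_lit 12135) (nat_lit 10) (nat_lit 13))
    (@En.n l1547 (nat_lit 12137) (nat_lit 10) (nat_lit 3))
    (@En.n l11219 (nat_lit 6631) (nat_lit 12) (nat_lit 10))
    (@En.n l34598 (nat_lit 11527) (nat_lit 13) (nat_lit 6))
    (@En.n l566 (nat_lit 11921) (nat_lit 14) (nat_lit 13))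
    (@En.n l33334 (nat_lit 8454) (nat_lit 7) (nat_lit 6))
    (@En.n l7 (nat_lit 12136) (nat_lit 15) (nat_lit 2))))
  (@Cl.mk (nat_lit 0x20006000d000900070003000d0008000c00030007000a00040009000e0008) (nat_lit 0x43009670040653) (nat_lit 16) Lb.e (@T16.mk En
    (@En.n l3166 (nat_lit 6269) (nat_lit 5) (nat_lit 8))
    (@En.n l3172 (nat_lit 2440) (nat_lit 1) (nat_lit 14))
    (@En.n l690 (nat_lit 12652) (nat_lit 2) (nat_lit 9))
    (@En.i (nat_lit 9631) (nat_lit 3) (nat_lit 4))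
    (@En.n l17662 (nat_lit 6263) (nat_lit 4) (nat_lit 10))
    (@En.n l18814 (nat_lit 11237) (nat_lit 5) (nat_lit 7))
    (@En.n l9050 (nat_lit 12140) (nat_lit 6) (nat_lit 3))
    (@En.i (nat_lit 5997) (nat_lit 0) (nat_lit 12))
    (@En.n l18815 (nat_lit 10563) (nat_lit 9) (nat_lit 8))
    (@En.n l10679 (nat_lit 6511) (nat_lit 10) (nat_lit 13))
    (@En.n l4083 (nat_lit 12136) (nat_lit 10) (nat_lit 3))
    (@En.n l356 (nat_lit 6724) (nat_lit 12) (nat_lit 7))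
    (@En.n l8111 (nat_lit 12135) (nat_lit 13) (nat_lit 9))
    (@En.n l97 (nat_lit 11922) (nat_lit 14) (nat_lit 13))
    (@En.n l5120 (nat_lit 8455) (nat_lit 7) (nat_lit 6))
    (@En.n l17 (nat_lit 12137) (nat_lit 15) (nat_lit 2))))
  (@Cl.mk (nat_lit 0x2000600090006000a000d000a0008000300070006000a0006000a000e0008) (nat_lit 0x20186200040585) (nat_lit 16) Lb.e (@T16.mk En
    (@En.n l21434 (nat_lit 6280) (nat_lit 9) (nat_lit 8))
    (@En.i (nat_lit 2601) (nat_lit 1) (nat_lit 14))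
    (@En.n l21435 (nat_lit 12324) (nat_lit 2) (nat_lit 10))
    (@En.n l117 (nat_lit 2092) (nat_lit 3) (nat_lit 6))
    (@En.n l9501 (nat_lit 12140) (nat_lit 4) (nat_lit 10))
    (@En.n l17 (nat_lit 12139) (nat_lit 5) (nat_lit 6))
    (@En.i (nat_lit 11270) (nat_lit 6) (nat_lit 7))
    (@En.n l21436 (nat_lit 12135) (nat_lit 7) (nat_lit 3))
    (@En.n l575 (nat_lit 12142) (nat_lit 0) (nat_lit 8))
    (@En.n l21437 (nat_lit 9511) (nat_lit 10) (nat_lit 10))
    (@En.n l9794 (nat_lit 6512) (nat_lit 11) (nat_lit 13))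
    (@En.n l8853 (nat_lit 6624) (nat_lit 12) (nat_lit 10))
    (@En.n l5595 (nat_lit 11530) (nat_lit 13) (nat_lit 6))
    (@En.n l20563 (nat_lit 11430) (nat_lit 9) (nat_lit 9))
    (@En.n l3100 (nat_lit 9669) (nat_lit 6) (nat_lit 6))
    (@En.n l28 (nat_lit 12138) (nat_lit 15) (nat_lit 2))))
  (@Cl.mk (nat_lit 0x20006000d0006000a0003000d000b000900030006000a0005000a000e0007) (nat_lit 0x70209770040470) (nat_lit 16) Lb.e (@T16.mk En
    (@En.n l2491 (nat_lit 6279) (nat_lit 5) (nat_lit 7))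
    (@En.i (nat_lit 2388) (nat_lit 1) (nat_lit 14))
    (@En.n l3337 (nat_lit 12662) (nat_lit 2) (nat_lit 10))
    (@En.n l117 (nat_lit 6634) (nat_lit 3) (nat_lit 5))
    (@En.n l3337 (nat_lit 6264) (nat_lit 4) (nat_lit 10))
    (@En.i (nat_lit 11268) (nat_lit 5) (nat_lit 6))
    (@En.n l7130 (nat_lit 12136) (nat_lit 6) (nat_lit 3))
    (@En.n l575 (nat_lit 12143) (nat_lit 0) (nat_lit 9))
    (@En.i (nat_lit 9512) (nat_lit 9) (nat_lit 11))
    (@En.i (nat_lit 12138) (nat_lit 10) (nat_lit 13))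
    (@En.n l2199 (nat_lit 12140) (nat_lit 10) (nat_lit 3))
    (@En.i (nat_lit 6627) (nat_lit 12) (nat_lit 10))
    (@En.i (nat_lit 11529) (nat_lit 13) (nat_lit 6))
    (@En.i (nat_lit 11916) (nat_lit 14) (nat_lit 13))
    (@En.n l3100 (nat_lit 9668) (nat_lit 7) (nat_lit 6))
    (@En.n l28 (nat_lit 12139) (nat_lit 15) (nat_lit 2))))
  (@Cl.mk (nat_lit 0x20006000d000900070003000d000b000900030007000a00050009000e0007) (nat_lit 0x7300a770030470) (nat_lit 16) Lb.e (@T16.mk En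
    (@En.n l5784 (nat_lit 6278) (nat_lit 5) (nat_lit 7))
    (@En.n l2571 (nat_lit 2389) (nat_lit 1) (nat_lit 14))
    (@En.i (nat_lit 12329) (nat_lit 2) (nat_lit 9))
    (@En.n l9226 (nat_lit 6633) (nat_lit 3) (nat_lit 5))
    (@En.i (nat_lit 6266) (nat_lit 4) (nat_lit 10))
    (@En.n l253 (nat_lit 11269) (nat_lit 5) (nat_lit 7))
    (@En.n l19017 (nat_lit 12137) (nat_lit 6) (nat_lit 3))
    (@En.i (nat_lit 12144) (nat_lit 0) (nat_lit 9))
    (@En.n l134 (nat_lit 9513) (nat_lit 9) (nat_lit 11))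
    (@En.n l1735 (nat_lit 6509) (nat_lit 10) (nat_lit 13))
    (@En.n l11610 (nat_lit 12139) (nat_lit 10) (nat_lit 3))
    (@En.n l1504 (nat_lit 6723) (nat_lit 12) (nat_lit 7))
    (@En.n l5032 (nat_lit 12138) (nat_lit 13) (nat_lit 9))
    (@En.n l4850 (nat_lit 11913) (nat_lit 14) (nat_lit 13))
    (@En.n l34423 (nat_lit 9662) (nat_lit 7) (nat_lit 6))
    (@En.n l18 (nat_lit 12140) (nat_lit 15) (nat_lit 2))))
  (@Cl.mk (nat_lit 0x2000600050009000d0009000d0003000900030007000a0007000b000e0007) (nat_lit 0x4856040030150) (nat_lit 16) Lb.e (@T16.mk En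
    (@En.n l3098 (nat_lit 10559) (nat_lit 7) (nat_lit 7))
    (@En.n l180 (nat_lit 6057) (nat_lit 4) (nat_lit 14))
    (@En.i (nat_lit 2745) (nat_lit 2) (nat_lit 11))
    (@En.n l180 (nat_lit 11724) (nat_lit 3) (nat_lit 7))
    (@En.i (nat_lit 8048) (nat_lit 4) (nat_lit 10))
    (@En.n l9870 (nat_lit 3251) (nat_lit 5) (nat_lit 7))
    (@En.n l17733 (nat_lit 12142) (nat_lit 6) (nat_lit 3))
    (@En.i (nat_lit 12135) (nat_lit 0) (nat_lit 9))
    (@En.n l15234 (nat_lit 12147) (nat_lit 8) (nat_lit 3))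
    (@En.n l19462 (nat_lit 3495) (nat_lit 10) (nat_lit 13))
    (@En.i (nat_lit 12227) (nat_lit 11) (nat_lit 9))
    (@En.n l2604 (nat_lit 10942) (nat_lit 12) (nat_lit 13))
    (@En.n l12231 (nat_lit 12146) (nat_lit 13) (nat_lit 9))
    (@En.n l8480 (nat_lit 12145) (nat_lit 14) (nat_lit 5))
    (@En.n l3106 (nat_lit 12148) (nat_lit 7) (nat_lit 6))
    (@En.n l17 (nat_lit 12141) (nat_lit 15) (nat_lit 2))))
  (@Cl.mk (nat_lit 0x2000600050009000c0009000d0008000400030007000a0007000b000e0008) (nat_lit 0x4617600040191) (nat_lit 16) Lb.e (@T16.mk En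
    (@En.n l31681 (nat_lit 72) (nat_lit 2) (nat_lit 8))
    (@En.n l8826 (nat_lit 6056) (nat_lit 4) (nat_lit 14))
    (@En.n l9213 (nat_lit 1366) (nat_lit 2) (nat_lit 11))
    (@En.n l8826 (nat_lit 11732) (nat_lit 3) (nat_lit 7))
    (@En.n l9213 (nat_lit 8049) (nat_lit 4) (nat_lit 10))
    (@En.n l2491 (nat_lit 12147) (nat_lit 5) (nat_lit 7))
    (@En.n l31682 (nat_lit 12141) (nat_lit 6) (nat_lit 3))
    (@En.n l11 (nat_lit 7789) (nat_lit 7) (nat_lit 4))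
    (@En.n l28771 (nat_lit 10358) (nat_lit 9) (nat_lit 8))
    (@En.i (nat_lit 3504) (nat_lit 10) (nat_lit 13))
    (@En.n l134 (nat_lit 9333) (nat_lit 11) (nat_lit 9))
    (@En.i (nat_lit 10987) (nat_lit 12) (nat_lit 12))
    (@En.n l31683 (nat_lit 12144) (nat_lit 13) (nat_lit 9))
    (@En.n l17 (nat_lit 12143) (nat_lit 14) (nat_lit 5))
    (@En.n l1080 (nat_lit 12150) (nat_lit 7) (nat_lit 6))
    (@En.n l3 (nat_lit 12142) (nat_lit 15) (nat_lit 2))))
  (@Cl.mk (nat_lit 0x200050009000c0009000d0007000400030007000d0007000b0003000e0009) (nat_lit 0x356600006020a6) (nat_lit 16) Lb.e (@T16.mk En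
    (@En.i (nat_lit 10559) (nat_lit 14) (nat_lit 9))
    (@En.i (nat_lit 12142) (nat_lit 1) (nat_lit 14))
    (@En.n l15024 (nat_lit 12144) (nat_lit 2) (nat_lit 3))
    (@En.n l3633 (nat_lit 2744) (nat_lit 3) (nat_lit 11))
    (@En.i (nat_lit 11733) (nat_lit 4) (nat_lit 7))
    (@En.n l287 (nat_lit 12245) (nat_lit 6) (nat_lit 13))
    (@En.n l2491 (nat_lit 12232) (nat_lit 6) (nat_lit 7))
    (@En.n l3604 (nat_lit 12145) (nat_lit 7) (nat_lit 3))
    (@En.n l11 (nat_lit 7787) (nat_lit 8) (nat_lit 4))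
    (@En.n l5611 (nat_lit 10359) (nat_lit 10) (nat_lit 7))
    (@En.i (nat_lit 3505) (nat_lit 11) (nat_lit 13))
    (@En.n l134 (nat_lit 12260) (nat_lit 12) (nat_lit 9))
    (@En.i (nat_lit 10986) (nat_lit 13) (nat_lit 12))
    (@En.n l15973 (nat_lit 3250) (nat_lit 14) (nat_lit 9))
    (@En.i (nat_lit 12156) (nat_lit 13) (nat_lit 5))
    (@En.n l3 (nat_lit 12143) (nat_lit 15) (nat_lit 2))))
noncomputable def a759 : T16 Cl := @T16.mk Cl
  (@Cl.mk (nat_lit 0x200060009000c0008000d0007000400030007000d000a00080003000e0009) (nat_lit 0x354600005550a6) (nat_lit 16) Lb.e (@T16.mk En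
    (@En.i (nat_lit 10558) (nat_lit 14) (nat_lit 9))
    (@En.n l1735 (nat_lit 6052) (nat_lit 1) (nat_lit 14))
    (@En.n l18583 (nat_lit 12143) (nat_lit 2) (nat_lit 3))
    (@En.n l1504 (nat_lit 12819) (nat_lit 3) (nat_lit 8))
    (@En.n l18584 (nat_lit 12142) (nat_lit 4) (nat_lit 10))
    (@En.n l11277 (nat_lit 12510) (nat_lit 6) (nat_lit 13))
    (@En.n l18585 (nat_lit 12233) (nat_lit 6) (nat_lit 7))
    (@En.n l2513 (nat_lit 12146) (nat_lit 7) (nat_lit 3))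
    (@En.i (nat_lit 7788) (nat_lit 8) (nat_lit 4))
    (@En.i (nat_lit 10360) (nat_lit 10) (nat_lit 7))
    (@En.n l6727 (nat_lit 3506) (nat_lit 11) (nat_lit 13))
    (@En.n l8995 (nat_lit 12228) (nat_lit 12) (nat_lit 8))
    (@En.n l253 (nat_lit 10931) (nat_lit 13) (nat_lit 12))
    (@En.i (nat_lit 6073) (nat_lit 9) (nat_lit 9))
    (@En.n l253 (nat_lit 8254) (nat_lit 6) (nat_lit 6))
    (@En.n l28 (nat_lit 12144) (nat_lit 15) (nat_lit 2))))
  (@Cl.mk (nat_lit 0x200050009000d0009000d0003000800030007000d0007000b0003000e0008) (nat_lit 0x36650600605061) (nat_lit 16) Lb.e (@T16.mk En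
    (@En.n l7031 (nat_lit 53) (nat_lit 6) (nat_lit 8))
    (@En.n l1531 (nat_lit 12141) (nat_lit 1) (nat_lit 14))
    (@En.n l19420 (nat_lit 12146) (nat_lit 2) (nat_lit 3))
    (@En.i (nat_lit 2742) (nat_lit 3) (nat_lit 11))
    (@En.n l7250 (nat_lit 11734) (nat_lit 4) (nat_lit 7))
    (@En.i (nat_lit 12241) (nat_lit 6) (nat_lit 13))
    (@En.n l7826 (nat_lit 5504) (nat_lit 6) (nat_lit 7))
    (@En.n l2790 (nat_lit 12143) (nat_lit 7) (nat_lit 3))
    (@En.n l19421 (nat_lit 12136) (nat_lit 0) (nat_lit 8))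
    (@En.n l7264 (nat_lit 12232) (nat_lit 9) (nat_lit 3))
    (@En.n l19422 (nat_lit 3509) (nat_lit 11) (nat_lit 13))
    (@En.n l19421 (nat_lit 12231) (nat_lit 12) (nat_lit 9))
    (@En.n l2790 (nat_lit 10934) (nat_lit 13) (nat_lit 13))
    (@En.n l19423 (nat_lit 5650) (nat_lit 14) (nat_lit 9))
    (@En.n l19424 (nat_lit 12128) (nat_lit 13) (nat_lit 5))
    (@En.n l17 (nat_lit 12145) (nat_lit 15) (nat_lit 2))))
  (@Cl.mk (nat_lit 0x200060009000d0008000d0003000800030007000d000a00080003000e0008) (nat_lit 0x37450400545063) (nat_lit 16) Lb.e (@T16.mk En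
    (@En.n l982 (nat_lit 10560) (nat_lit 6) (nat_lit 8))
    (@En.n l8108 (nat_lit 6053) (nat_lit 1) (nat_lit 14))
    (@En.n l8109 (nat_lit 12145) (nat_lit 2) (nat_lit 3))
    (@En.n l8110 (nat_lit 12820) (nat_lit 3) (nat_lit 8))
    (@En.n l8111 (nat_lit 12141) (nat_lit 4) (nat_lit 10))
    (@En.n l97 (nat_lit 12242) (nat_lit 6) (nat_lit 13))
    (@En.n l8112 (nat_lit 3256) (nat_lit 6) (nat_lit 7))
    (@En.n l3129 (nat_lit 12144) (nat_lit 7) (nat_lit 3))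
    (@En.i (nat_lit 12137) (nat_lit 0) (nat_lit 8))
    (@En.n l1878 (nat_lit 12233) (nat_lit 9) (nat_lit 3))
    (@En.n l986 (nat_lit 3511) (nat_lit 11) (nat_lit 13))
    (@En.n l690 (nat_lit 12226) (nat_lit 12) (nat_lit 8))
    (@En.n l2638 (nat_lit 10932) (nat_lit 13) (nat_lit 13))
    (@En.n l3129 (nat_lit 5651) (nat_lit 9) (nat_lit 9))
    (@En.n l8113 (nat_lit 8255) (nat_lit 4) (nat_lit 6))
    (@En.n l28 (nat_lit 12146) (nat_lit 15) (nat_lit 2))))
  (@Cl.mk (nat_lit 0x2000600050009000d000c000a0003000900040007000a0006000b000e0007) (nat_lit 0x3771040030180) (nat_lit 16) Lb.e (@T16.mk En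
    (@En.n l25930 (nat_lit 10558) (nat_lit 7) (nat_lit 7))
    (@En.n l3858 (nat_lit 6051) (nat_lit 4) (nat_lit 14))
    (@En.n l7563 (nat_lit 2746) (nat_lit 2) (nat_lit 11))
    (@En.n l6556 (nat_lit 10756) (nat_lit 3) (nat_lit 6))
    (@En.n l7563 (nat_lit 8051) (nat_lit 4) (nat_lit 10))
    (@En.n l7471 (nat_lit 5669) (nat_lit 5) (nat_lit 7))
    (@En.n l3506 (nat_lit 7786) (nat_lit 6) (nat_lit 4))
    (@En.i (nat_lit 10357) (nat_lit 0) (nat_lit 9))
    (@En.n l3141 (nat_lit 12141) (nat_lit 8) (nat_lit 3))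
    (@En.i (nat_lit 9323) (nat_lit 10) (nat_lit 10))
    (@En.n l6698 (nat_lit 12142) (nat_lit 11) (nat_lit 12))
    (@En.n l1578 (nat_lit 8031) (nat_lit 12) (nat_lit 13))
    (@En.n l617 (nat_lit 12233) (nat_lit 13) (nat_lit 9))
    (@En.n l17 (nat_lit 12232) (nat_lit 14) (nat_lit 5))
    (@En.n l3260 (nat_lit 12149) (nat_lit 5) (nat_lit 6))
    (@En.n l3 (nat_lit 12147) (nat_lit 15) (nat_lit 2))))
  (@Cl.mk (nat_lit 0x30007000a000d0008000c00030008000600040009000d0008000d00030008) (nat_lit 0x27330300585603) (nat_lit 16) Lb.e (@T16.mk En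
    (@En.i (nat_lit 11246) (nat_lit 0) (nat_lit 8))
    (@En.i (nat_lit 12149) (nat_lit 15) (nat_lit 3))
    (@En.n l1540 (nat_lit 7213) (nat_lit 0) (nat_lit 13))
    (@En.i (nat_lit 10671) (nat_lit 3) (nat_lit 8))
    (@En.n l2605 (nat_lit 10199) (nat_lit 11) (nat_lit 13))
    (@En.i (nat_lit 8255) (nat_lit 3) (nat_lit 9))
    (@En.n l2832 (nat_lit 12151) (nat_lit 4) (nat_lit 4))
    (@En.n l17 (nat_lit 7618) (nat_lit 14) (nat_lit 6))
    (@En.i (nat_lit 10601) (nat_lit 6) (nat_lit 8))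
    (@En.n l2604 (nat_lit 8249) (nat_lit 9) (nat_lit 3))
    (@En.i (nat_lit 4253) (nat_lit 0) (nat_lit 12))
    (@En.n l5646 (nat_lit 10708) (nat_lit 12) (nat_lit 8))
    (@En.i (nat_lit 12145) (nat_lit 5) (nat_lit 13))
    (@En.i (nat_lit 8689) (nat_lit 8) (nat_lit 10))
    (@En.i (nat_lit 3917) (nat_lit 12) (nat_lit 7))
    (@En.n l3327 (nat_lit 12150) (nat_lit 15) (nat_lit 3))))
  (@Cl.mk (nat_lit 0x3000800040007000a000d0007000c00030008000600040009000d000c0009) (nat_lit 0x500260303005891) (nat_lit 16) Lb.e (@T16.mk En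
    (@En.n l7264 (nat_lit 9366) (nat_lit 0) (nat_lit 9))
    (@En.n l1540 (nat_lit 12150) (nat_lit 4) (nat_lit 12))
    (@En.n l2791 (nat_lit 10170) (nat_lit 11) (nat_lit 13))
    (@En.n l19482 (nat_lit 8253) (nat_lit 3) (nat_lit 9))
    (@En.n l43108 (nat_lit 12153) (nat_lit 4) (nat_lit 4))
    (@En.n l17 (nat_lit 7616) (nat_lit 14) (nat_lit 6))
    (@En.i (nat_lit 10598) (nat_lit 6) (nat_lit 8))
    (@En.n l43109 (nat_lit 8247) (nat_lit 7) (nat_lit 3))
    (@En.i (nat_lit 4252) (nat_lit 0) (nat_lit 12))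
    (@En.n l5646 (nat_lit 10308) (nat_lit 4) (nat_lit 7))
    (@En.n l7264 (nat_lit 12232) (nat_lit 5) (nat_lit 13))
    (@En.i (nat_lit 8691) (nat_lit 8) (nat_lit 10))
    (@En.n l7828 (nat_lit 3924) (nat_lit 11) (nat_lit 7))
    (@En.n l19563 (nat_lit 5488) (nat_lit 5) (nat_lit 4))
    (@En.n l7264 (nat_lit 10362) (nat_lit 0) (nat_lit 8))
    (@En.n l7 (nat_lit 12148) (nat_lit 1) (nat_lit 3))))
  (@Cl.mk (nat_lit 0x30007000a000d0008000c00030009000600040009000c0008000d00070004) (nat_lit 0x27130300585600) (nat_lit 16) Lb.e (@T16.mk En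
    (@En.n l4659 (nat_lit 5492) (nat_lit 0) (nat_lit 4))
    (@En.n l4790 (nat_lit 10361) (nat_lit 0) (nat_lit 7))
    (@En.i (nat_lit 7216) (nat_lit 1) (nat_lit 13))
    (@En.n l17555 (nat_lit 10675) (nat_lit 3) (nat_lit 8))
    (@En.n l3530 (nat_lit 9773) (nat_lit 6) (nat_lit 12))
    (@En.n l38294 (nat_lit 8254) (nat_lit 5) (nat_lit 9))
    (@En.n l32608 (nat_lit 12152) (nat_lit 6) (nat_lit 4))
    (@En.n l7075 (nat_lit 7617) (nat_lit 14) (nat_lit 6))
    (@En.n l4790 (nat_lit 10596) (nat_lit 1) (nat_lit 9))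
    (@En.n l17106 (nat_lit 8248) (nat_lit 9) (nat_lit 3))
    (@En.n l4790 (nat_lit 3740) (nat_lit 0) (nat_lit 12))
    (@En.n l21138 (nat_lit 10309) (nat_lit 12) (nat_lit 8))
    (@En.n l3530 (nat_lit 12143) (nat_lit 5) (nat_lit 13))
    (@En.n l4790 (nat_lit 8152) (nat_lit 8) (nat_lit 10))
    (@En.n l23371 (nat_lit 12149) (nat_lit 12) (nat_lit 7))
    (@En.n l3072 (nat_lit 12148) (nat_lit 15) (nat_lit 3))))
  (@Cl.mk (nat_lit 0x3000700030007000c000c0008000c00040004000900040009000d0008000d) (nat_lit 0x4a3700406567) (nat_lit 16) Lb.e (@T16.mk En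
    (@En.n l6679 (nat_lit 7208) (nat_lit 0) (nat_lit 13))
    (@En.n l25258 (nat_lit 10674) (nat_lit 3) (nat_lit 8))
    (@En.n l2038 (nat_lit 8810) (nat_lit 6) (nat_lit 13))
    (@En.n l32472 (nat_lit 4391) (nat_lit 3) (nat_lit 9))
    (@En.n l403 (nat_lit 12131) (nat_lit 6) (nat_lit 4))
    (@En.n l31653 (nat_lit 10602) (nat_lit 5) (nat_lit 9))
    (@En.n l18 (nat_lit 4289) (nat_lit 12) (nat_lit 4))
    (@En.n l10577 (nat_lit 8255) (nat_lit 7) (nat_lit 4))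
    (@En.i (nat_lit 4280) (nat_lit 0) (nat_lit 12))
    (@En.n l31653 (nat_lit 10706) (nat_lit 12) (nat_lit 8))
    (@En.n l21509 (nat_lit 12128) (nat_lit 4) (nat_lit 12))
    (@En.n l3517 (nat_lit 12456) (nat_lit 12) (nat_lit 12))
    (@En.i (nat_lit 7020) (nat_lit 12) (nat_lit 7))
    (@En.n l8329 (nat_lit 12152) (nat_lit 15) (nat_lit 3))
    (@En.n l21664 (nat_lit 11229) (nat_lit 0) (nat_lit 7))
    (@En.n l27665 (nat_lit 12153) (nat_lit 15) (nat_lit 3))))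
  (@Cl.mk (nat_lit 0x30007000c000c0008000c00040004000a00040009000c0008000d00060004) (nat_lit 0xa7160040566500) (nat_lit 16) Lb.e (@T16.mk En
    (@En.i (nat_lit 7600) (nat_lit 0) (nat_lit 4))
    (@En.n l14326 (nat_lit 11210) (nat_lit 0) (nat_lit 6))
    (@En.n l3699 (nat_lit 7207) (nat_lit 1) (nat_lit 13))
    (@En.n l4311 (nat_lit 11978) (nat_lit 3) (nat_lit 8))
    (@En.i (nat_lit 8900) (nat_lit 6) (nat_lit 12))
    (@En.n l26315 (nat_lit 4380) (nat_lit 5) (nat_lit 9))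
    (@En.n l9890 (nat_lit 12155) (nat_lit 6) (nat_lit 4))
    (@En.n l40711 (nat_lit 10595) (nat_lit 0) (nat_lit 10))
    (@En.n l8042 (nat_lit 4290) (nat_lit 12) (nat_lit 4))
    (@En.n l13355 (nat_lit 8254) (nat_lit 9) (nat_lit 4))
    (@En.i (nat_lit 3741) (nat_lit 0) (nat_lit 12))
    (@En.n l40712 (nat_lit 10313) (nat_lit 12) (nat_lit 8))
    (@En.n l7201 (nat_lit 12156) (nat_lit 4) (nat_lit 12))
    (@En.n l10536 (nat_lit 12458) (nat_lit 14) (nat_lit 12))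
    (@En.n l21533 (nat_lit 12153) (nat_lit 12) (nat_lit 7))
    (@En.n l28685 (nat_lit 12151) (nat_lit 13) (nat_lit 3))))
  (@Cl.mk (nat_lit 0x3000700040007000c000c0007000c00040004000900040009000d000c0009) (nat_lit 0xa60600406677) (nat_lit 16) Lb.e (@T16.mk En
    (@En.n l396 (nat_lit 7575) (nat_lit 0) (nat_lit 9))
    (@En.n l39737 (nat_lit 12152) (nat_lit 4) (nat_lit 12))
    (@En.n l16961 (nat_lit 8812) (nat_lit 6) (nat_lit 13))
    (@En.n l39513 (nat_lit 4390) (nat_lit 3) (nat_lit 9))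
    (@En.n l27589 (nat_lit 12154) (nat_lit 4) (nat_lit 4))
    (@En.n l21571 (nat_lit 10599) (nat_lit 5) (nat_lit 9))
    (@En.n l20790 (nat_lit 4291) (nat_lit 12) (nat_lit 4))
    (@En.n l39738 (nat_lit 8253) (nat_lit 7) (nat_lit 4))
    (@En.n l39739 (nat_lit 3747) (nat_lit 0) (nat_lit 12))
    (@En.n l396 (nat_lit 10312) (nat_lit 1) (nat_lit 7))
    (@En.n l27593 (nat_lit 12133) (nat_lit 4) (nat_lit 12))
    (@En.n l39740 (nat_lit 12457) (nat_lit 12) (nat_lit 12))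
    (@En.n l7 (nat_lit 7022) (nat_lit 11) (nat_lit 7))
    (@En.n l5779 (nat_lit 5496) (nat_lit 14) (nat_lit 4))
    (@En.n l24381 (nat_lit 11111) (nat_lit 0) (nat_lit 7))
    (@En.n l16702 (nat_lit 12151) (nat_lit 15) (nat_lit 3))))
  (@Cl.mk (nat_lit 0x3000900040007000b000b0007000c00070005000500040009000d000c0009) (nat_lit 0x500990500005666) (nat_lit 16) Lb.e (@T16.mk En
    (@En.n l37360 (nat_lit 10043) (nat_lit 0) (nat_lit 9))
    (@En.n l37361 (nat_lit 12155) (nat_lit 4) (nat_lit 12))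
    (@En.i (nat_lit 9971) (nat_lit 6) (nat_lit 13))
    (@En.n l19469 (nat_lit 12471) (nat_lit 3) (nat_lit 9))
    (@En.n l22390 (nat_lit 12149) (nat_lit 4) (nat_lit 4))
    (@En.n l37362 (nat_lit 7597) (nat_lit 11) (nat_lit 5))
    (@En.i (nat_lit 7613) (nat_lit 1) (nat_lit 5))
    (@En.n l37363 (nat_lit 10207) (nat_lit 7) (nat_lit 7))
    (@En.i (nat_lit 3873) (nat_lit 9) (nat_lit 12))
    (@En.n l742 (nat_lit 10305) (nat_lit 4) (nat_lit 7))
    (@En.n l37364 (nat_lit 12129) (nat_lit 5) (nat_lit 11))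
    (@En.n l22963 (nat_lit 8698) (nat_lit 12) (nat_lit 11))
    (@En.n l37365 (nat_lit 7017) (nat_lit 11) (nat_lit 7))
    (@En.n l15967 (nat_lit 7513) (nat_lit 14) (nat_lit 4))
    (@En.n l37366 (nat_lit 10868) (nat_lit 0) (nat_lit 9))
    (@En.n l10862 (nat_lit 12131) (nat_lit 1) (nat_lit 3))))
  (@Cl.mk (nat_lit 0x30007000b000b0008000c00080005000500040009000c0008000d00080004) (nat_lit 0x89464000553740) (nat_lit 16) Lb.e (@T16.mk En
    (@En.n l22686 (nat_lit 7599) (nat_lit 0) (nat_lit 4))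
    (@En.n l8776 (nat_lit 10862) (nat_lit 0) (nat_lit 8))
    (@En.n l11434 (nat_lit 7115) (nat_lit 1) (nat_lit 13))
    (@En.n l30654 (nat_lit 10046) (nat_lit 3) (nat_lit 8))
    (@En.n l22686 (nat_lit 8891) (nat_lit 6) (nat_lit 12))
    (@En.n l19309 (nat_lit 12470) (nat_lit 5) (nat_lit 9))
    (@En.n l22685 (nat_lit 12150) (nat_lit 6) (nat_lit 4))
    (@En.n l15665 (nat_lit 12158) (nat_lit 11) (nat_lit 5))
    (@En.n l8776 (nat_lit 7614) (nat_lit 8) (nat_lit 5))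
    (@En.n l403 (nat_lit 10209) (nat_lit 0) (nat_lit 8))
    (@En.n l8776 (nat_lit 3742) (nat_lit 11) (nat_lit 12))
    (@En.n l30655 (nat_lit 10306) (nat_lit 12) (nat_lit 8))
    (@En.n l9879 (nat_lit 12130) (nat_lit 5) (nat_lit 11))
    (@En.i (nat_lit 10292) (nat_lit 14) (nat_lit 11))
    (@En.n l8776 (nat_lit 12154) (nat_lit 12) (nat_lit 7))
    (@En.n l30656 (nat_lit 12131) (nat_lit 15) (nat_lit 3))))
  (@Cl.mk (nat_lit 0x2000a00050009000c0009000d0006000400030007000c0007000b000e0004) (nat_lit 0x507171000060580) (nat_lit 16) Lb.e (@T16.mk En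
    (@En.n l22671 (nat_lit 12152) (nat_lit 9) (nat_lit 4))
    (@En.i (nat_lit 6367) (nat_lit 4) (nat_lit 14))
    (@En.n l3988 (nat_lit 3738) (nat_lit 2) (nat_lit 11))
    (@En.i (nat_lit 11484) (nat_lit 3) (nat_lit 7))
    (@En.n l22673 (nat_lit 12412) (nat_lit 5) (nat_lit 12))
    (@En.n l2491 (nat_lit 12133) (nat_lit 5) (nat_lit 7))
    (@En.n l9937 (nat_lit 12128) (nat_lit 6) (nat_lit 3))
    (@En.n l11 (nat_lit 7508) (nat_lit 0) (nat_lit 4))
    (@En.n l5611 (nat_lit 11147) (nat_lit 8) (nat_lit 6))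
    (@En.i (nat_lit 3532) (nat_lit 10) (nat_lit 13))
    (@En.n l134 (nat_lit 11961) (nat_lit 11) (nat_lit 9))
    (@En.i (nat_lit 8901) (nat_lit 12) (nat_lit 12))
    (@En.n l3447 (nat_lit 4379) (nat_lit 13) (nat_lit 9))
    (@En.n l22673 (nat_lit 12130) (nat_lit 14) (nat_lit 5))
    (@En.i (nat_lit 10024) (nat_lit 0) (nat_lit 10))
    (@En.n l17 (nat_lit 12156) (nat_lit 15) (nat_lit 2))))
  (@Cl.mk (nat_lit 0x20009000d0008000500030009000d0007000d0003000800030007000e000b) (nat_lit 0x1240046020200b9) (nat_lit 16) Lb.e (@T16.mk En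
    (@En.n l217 (nat_lit 12131) (nat_lit 13) (nat_lit 11))
    (@En.n l1690 (nat_lit 8261) (nat_lit 1) (nat_lit 14))
    (@En.i (nat_lit 7018) (nat_lit 2) (nat_lit 7))
    (@En.n l5975 (nat_lit 12158) (nat_lit 3) (nat_lit 3))
    (@En.n l15955 (nat_lit 11686) (nat_lit 0) (nat_lit 8))
    (@En.n l1964 (nat_lit 7597) (nat_lit 5) (nat_lit 3))
    (@En.n l3200 (nat_lit 7193) (nat_lit 7) (nat_lit 13))
    (@En.i (nat_lit 12161) (nat_lit 7) (nat_lit 7))
    (@En.n l2038 (nat_lit 8263) (nat_lit 9) (nat_lit 13))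
    (@En.n l11519 (nat_lit 12469) (nat_lit 10) (nat_lit 9))
    (@En.n l763 (nat_lit 4289) (nat_lit 10) (nat_lit 3))
    (@En.i (nat_lit 8092) (nat_lit 0) (nat_lit 5))
    (@En.n l7529 (nat_lit 10204) (nat_lit 13) (nat_lit 8))
    (@En.i (nat_lit 3870) (nat_lit 14) (nat_lit 13))
    (@En.n l7530 (nat_lit 9538) (nat_lit 11) (nat_lit 9))
    (@En.n l50 (nat_lit 12157) (nat_lit 15) (nat_lit 2))))
  (@Cl.mk (nat_lit 0x20009000d0009000500030009000c0007000d0007000400030007000e000b) (nat_lit 0x1230044010000b9) (nat_lit 16) Lb.e (@T16.mk En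
    (@En.n l9451 (nat_lit 12155) (nat_lit 13) (nat_lit 11))
    (@En.n l16131 (nat_lit 8260) (nat_lit 1) (nat_lit 14))
    (@En.n l6204 (nat_lit 7597) (nat_lit 2) (nat_lit 7))
    (@En.n l9377 (nat_lit 12157) (nat_lit 3) (nat_lit 3))
    (@En.n l7 (nat_lit 7594) (nat_lit 0) (nat_lit 4))
    (@En.n l7027 (nat_lit 11672) (nat_lit 5) (nat_lit 7))
    (@En.i (nat_lit 4755) (nat_lit 7) (nat_lit 13))
    (@En.n l396 (nat_lit 12183) (nat_lit 7) (nat_lit 7))
    (@En.i (nat_lit 8886) (nat_lit 9) (nat_lit 12))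
    (@En.n l16132 (nat_lit 12468) (nat_lit 10) (nat_lit 9))
    (@En.n l11 (nat_lit 4290) (nat_lit 10) (nat_lit 3))
    (@En.n l7027 (nat_lit 8094) (nat_lit 0) (nat_lit 5))
    (@En.i (nat_lit 10206) (nat_lit 13) (nat_lit 9))
    (@En.n l1208 (nat_lit 3868) (nat_lit 14) (nat_lit 13))
    (@En.i (nat_lit 8843) (nat_lit 11) (nat_lit 9))
    (@En.n l3 (nat_lit 12158) (nat_lit 15) (nat_lit 2))))
  (@Cl.mk (nat_lit 0x30006000a000a00080007000c0008000600060004000a0008000d00090008) (nat_lit 0x56506500064212) (nat_lit 16) Lb.e (@T16.mk En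
    (@En.n l21502 (nat_lit 12289) (nat_lit 0) (nat_lit 8))
    (@En.n l21503 (nat_lit 10044) (nat_lit 12) (nat_lit 9))
    (@En.n l21504 (nat_lit 12160) (nat_lit 2) (nat_lit 13))
    (@En.n l21505 (nat_lit 12176) (nat_lit 3) (nat_lit 8))
    (@En.n l21506 (nat_lit 10964) (nat_lit 4) (nat_lit 10))
    (@En.n l11407 (nat_lit 10671) (nat_lit 5) (nat_lit 4))
    (@En.n l2172 (nat_lit 12161) (nat_lit 10) (nat_lit 6))
    (@En.i (nat_lit 10666) (nat_lit 7) (nat_lit 6))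
    (@En.n l21507 (nat_lit 10739) (nat_lit 9) (nat_lit 8))
    (@En.n l117 (nat_lit 12038) (nat_lit 10) (nat_lit 12))
    (@En.n l8015 (nat_lit 12154) (nat_lit 9) (nat_lit 7))
    (@En.n l21508 (nat_lit 11995) (nat_lit 12) (nat_lit 8))
    (@En.n l21509 (nat_lit 12132) (nat_lit 6) (nat_lit 10))
    (@En.n l5801 (nat_lit 11981) (nat_lit 9) (nat_lit 10))
    (@En.n l21510 (nat_lit 7654) (nat_lit 12) (nat_lit 6))
    (@En.n l21511 (nat_lit 10046) (nat_lit 15) (nat_lit 3))))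
noncomputable def a760 : T16 Cl := @T16.mk Cl
  (@Cl.mk (nat_lit 0x3000c0006000a000a00040008000c0009000600060004000a000d00080007) (nat_lit 0x207705930006120) (nat_lit 16) Lb.e (@T16.mk En
    (@En.n l22896 (nat_lit 12105) (nat_lit 0) (nat_lit 7))
    (@En.n l22897 (nat_lit 12192) (nat_lit 6) (nat_lit 8))
    (@En.n l11429 (nat_lit 2552) (nat_lit 5) (nat_lit 13))
    (@En.n l22881 (nat_lit 11498) (nat_lit 3) (nat_lit 10))
    (@En.n l22685 (nat_lit 10672) (nat_lit 4) (nat_lit 4))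
    (@En.n l15665 (nat_lit 12179) (nat_lit 10) (nat_lit 6))
    (@En.n l3524 (nat_lit 10665) (nat_lit 1) (nat_lit 6))
    (@En.n l403 (nat_lit 10740) (nat_lit 13) (nat_lit 9))
    (@En.n l3524 (nat_lit 12037) (nat_lit 7) (nat_lit 12))
    (@En.i (nat_lit 12155) (nat_lit 11) (nat_lit 8))
    (@En.n l22898 (nat_lit 11615) (nat_lit 10) (nat_lit 4))
    (@En.n l619 (nat_lit 12162) (nat_lit 6) (nat_lit 10))
    (@En.i (nat_lit 11989) (nat_lit 1) (nat_lit 10))
    (@En.n l22899 (nat_lit 12159) (nat_lit 14) (nat_lit 6))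
    (@En.n l6042 (nat_lit 11661) (nat_lit 3) (nat_lit 12))
    (@En.n l22900 (nat_lit 12184) (nat_lit 15) (nat_lit 3))))
  (@Cl.mk (nat_lit 0x200090008000d000900060003000a0007000d0008000700030006000e000a) (nat_lit 0x51330050a2000b6) (nat_lit 16) Lb.e (@T16.mk En
    (@En.n l217 (nat_lit 12159) (nat_lit 13) (nat_lit 10))
    (@En.n l1690 (nat_lit 7971) (nat_lit 1) (nat_lit 14))
    (@En.n l15954 (nat_lit 7962) (nat_lit 2) (nat_lit 6))
    (@En.n l21843 (nat_lit 12183) (nat_lit 3) (nat_lit 3))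
    (@En.n l21844 (nat_lit 11696) (nat_lit 0) (nat_lit 7))
    (@En.n l10266 (nat_lit 6461) (nat_lit 5) (nat_lit 8))
    (@En.n l3202 (nat_lit 12179) (nat_lit 7) (nat_lit 13))
    (@En.n l21761 (nat_lit 12178) (nat_lit 7) (nat_lit 7))
    (@En.n l21845 (nat_lit 11499) (nat_lit 9) (nat_lit 10))
    (@En.n l763 (nat_lit 11979) (nat_lit 9) (nat_lit 3))
    (@En.i (nat_lit 9900) (nat_lit 0) (nat_lit 6))
    (@En.n l21846 (nat_lit 11572) (nat_lit 12) (nat_lit 9))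
    (@En.n l2552 (nat_lit 12591) (nat_lit 13) (nat_lit 13))
    (@En.n l6864 (nat_lit 7597) (nat_lit 14) (nat_lit 8))
    (@En.n l21847 (nat_lit 11990) (nat_lit 11) (nat_lit 9))
    (@En.n l50 (nat_lit 12161) (nat_lit 15) (nat_lit 2))))
  (@Cl.mk (nat_lit 0x20005000a000d000900080003000d0006000a00030007000b0008000e0006) (nat_lit 0x72530706007330) (nat_lit 16) Lb.e (@T16.mk En
    (@En.n l117 (nat_lit 12160) (nat_lit 6) (nat_lit 6))
    (@En.n l2362 (nat_lit 11960) (nat_lit 1) (nat_lit 14))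
    (@En.n l2362 (nat_lit 10738) (nat_lit 2) (nat_lit 8))
    (@En.n l9607 (nat_lit 12040) (nat_lit 3) (nat_lit 11))
    (@En.n l6081 (nat_lit 12130) (nat_lit 4) (nat_lit 7))
    (@En.n l20954 (nat_lit 12163) (nat_lit 5) (nat_lit 3))
    (@En.i (nat_lit 12351) (nat_lit 0) (nat_lit 10))
    (@En.n l8822 (nat_lit 12132) (nat_lit 7) (nat_lit 6))
    (@En.n l6042 (nat_lit 12121) (nat_lit 9) (nat_lit 13))
    (@En.n l7638 (nat_lit 7452) (nat_lit 9) (nat_lit 3))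
    (@En.n l747 (nat_lit 12098) (nat_lit 11) (nat_lit 8))
    (@En.n l20955 (nat_lit 12166) (nat_lit 12) (nat_lit 9))
    (@En.n l723 (nat_lit 2771) (nat_lit 13) (nat_lit 13))
    (@En.n l1223 (nat_lit 11550) (nat_lit 14) (nat_lit 10))
    (@En.n l3546 (nat_lit 11683) (nat_lit 13) (nat_lit 5))
    (@En.n l11 (nat_lit 12162) (nat_lit 15) (nat_lit 2))))
  (@Cl.mk (nat_lit 0x200050009000d000900080003000d0009000700030007000b0008000e0007) (nat_lit 0x31530860007430) (nat_lit 16) Lb.e (@T16.mk En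
    (@En.n l21129 (nat_lit 12176) (nat_lit 6) (nat_lit 7))
    (@En.n l14348 (nat_lit 11965) (nat_lit 1) (nat_lit 14))
    (@En.n l21130 (nat_lit 10741) (nat_lit 2) (nat_lit 8))
    (@En.n l21131 (nat_lit 12041) (nat_lit 3) (nat_lit 11))
    (@En.n l21132 (nat_lit 8911) (nat_lit 4) (nat_lit 7))
    (@En.n l21133 (nat_lit 12162) (nat_lit 5) (nat_lit 3))
    (@En.n l21134 (nat_lit 12298) (nat_lit 6) (nat_lit 7))
    (@En.n l21135 (nat_lit 10680) (nat_lit 8) (nat_lit 9))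
    (@En.n l18462 (nat_lit 11659) (nat_lit 9) (nat_lit 13))
    (@En.n l5790 (nat_lit 12164) (nat_lit 9) (nat_lit 3))
    (@En.n l21136 (nat_lit 12096) (nat_lit 11) (nat_lit 8))
    (@En.n l7 (nat_lit 12165) (nat_lit 12) (nat_lit 9))
    (@En.n l14342 (nat_lit 1818) (nat_lit 13) (nat_lit 13))
    (@En.n l21136 (nat_lit 6577) (nat_lit 14) (nat_lit 9))
    (@En.n l4242 (nat_lit 11678) (nat_lit 13) (nat_lit 5))
    (@En.n l3 (nat_lit 12163) (nat_lit 15) (nat_lit 2))))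
  (@Cl.mk (nat_lit 0x200050009000d0007000a0003000d0009000700030006000b0009000e0007) (nat_lit 0x41020760008430) (nat_lit 16) Lb.e (@T16.mk En
    (@En.n l8911 (nat_lit 12174) (nat_lit 6) (nat_lit 7))
    (@En.n l3 (nat_lit 11964) (nat_lit 1) (nat_lit 14))
    (@En.n l3 (nat_lit 12170) (nat_lit 2) (nat_lit 9))
    (@En.n l8912 (nat_lit 12049) (nat_lit 3) (nat_lit 11))
    (@En.i (nat_lit 8896) (nat_lit 4) (nat_lit 6))
    (@En.n l50 (nat_lit 7452) (nat_lit 5) (nat_lit 3))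
    (@En.n l1365 (nat_lit 12296) (nat_lit 6) (nat_lit 7))
    (@En.i (nat_lit 10679) (nat_lit 8) (nat_lit 9))
    (@En.n l8913 (nat_lit 12165) (nat_lit 9) (nat_lit 13))
    (@En.n l8914 (nat_lit 12163) (nat_lit 9) (nat_lit 3))
    (@En.n l8915 (nat_lit 2485) (nat_lit 11) (nat_lit 10))
    (@En.n l8916 (nat_lit 11453) (nat_lit 12) (nat_lit 7))
    (@En.i (nat_lit 1823) (nat_lit 13) (nat_lit 13))
    (@En.n l8917 (nat_lit 6579) (nat_lit 14) (nat_lit 9))
    (@En.n l8918 (nat_lit 11675) (nat_lit 13) (nat_lit 5))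
    (@En.n l17 (nat_lit 12164) (nat_lit 15) (nat_lit 2))))
  (@Cl.mk (nat_lit 0x20005000a00090007000a000d00080006000300070006000b0009000e0008) (nat_lit 0x44016500008553) (nat_lit 16) Lb.e (@T16.mk En
    (@En.n l1738 (nat_lit 12169) (nat_lit 10) (nat_lit 8))
    (@En.n l16364 (nat_lit 12167) (nat_lit 1) (nat_lit 14))
    (@En.n l16365 (nat_lit 12168) (nat_lit 2) (nat_lit 9))
    (@En.n l4233 (nat_lit 12073) (nat_lit 3) (nat_lit 11))
    (@En.n l14343 (nat_lit 12164) (nat_lit 4) (nat_lit 6))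
    (@En.n l28 (nat_lit 10780) (nat_lit 5) (nat_lit 7))
    (@En.n l3799 (nat_lit 12166) (nat_lit 6) (nat_lit 3))
    (@En.n l16366 (nat_lit 11573) (nat_lit 7) (nat_lit 6))
    (@En.n l117 (nat_lit 11871) (nat_lit 9) (nat_lit 8))
    (@En.n l16366 (nat_lit 8042) (nat_lit 10) (nat_lit 13))
    (@En.n l699 (nat_lit 2484) (nat_lit 11) (nat_lit 10))
    (@En.n l16366 (nat_lit 11459) (nat_lit 12) (nat_lit 7))
    (@En.i (nat_lit 12482) (nat_lit 13) (nat_lit 9))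
    (@En.n l16366 (nat_lit 6580) (nat_lit 14) (nat_lit 10))
    (@En.i (nat_lit 11674) (nat_lit 13) (nat_lit 5))
    (@En.n l3 (nat_lit 12165) (nat_lit 15) (nat_lit 2))))
  (@Cl.mk (nat_lit 0x20005000b00090007000a000d00050009000300070006000b0009000e0007) (nat_lit 0x74017040004470) (nat_lit 16) Lb.e (@T16.mk En
    (@En.n l3098 (nat_lit 12192) (nat_lit 10) (nat_lit 7))
    (@En.n l3 (nat_lit 11963) (nat_lit 1) (nat_lit 14))
    (@En.n l3 (nat_lit 12171) (nat_lit 2) (nat_lit 9))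
    (@En.n l10646 (nat_lit 12358) (nat_lit 3) (nat_lit 11))
    (@En.n l28 (nat_lit 7452) (nat_lit 4) (nat_lit 6))
    (@En.n l77 (nat_lit 10047) (nat_lit 5) (nat_lit 7))
    (@En.n l8913 (nat_lit 12165) (nat_lit 6) (nat_lit 3))
    (@En.n l10647 (nat_lit 12269) (nat_lit 0) (nat_lit 9))
    (@En.n l10648 (nat_lit 7583) (nat_lit 8) (nat_lit 5))
    (@En.n l10649 (nat_lit 8041) (nat_lit 10) (nat_lit 13))
    (@En.n l10650 (nat_lit 2481) (nat_lit 11) (nat_lit 10))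
    (@En.n l10649 (nat_lit 11458) (nat_lit 12) (nat_lit 7))
    (@En.n l10648 (nat_lit 12480) (nat_lit 13) (nat_lit 9))
    (@En.n l3105 (nat_lit 10971) (nat_lit 14) (nat_lit 11))
    (@En.n l3106 (nat_lit 11676) (nat_lit 13) (nat_lit 5))
    (@En.n l17 (nat_lit 12166) (nat_lit 15) (nat_lit 2))))
  (@Cl.mk (nat_lit 0x2000c0005000a00090004000a000d00090006000300070006000b000e0007) (nat_lit 0x805301850000740) (nat_lit 16) Lb.e (@T16.mk En
    (@En.n l19359 (nat_lit 11968) (nat_lit 11) (nat_lit 7))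
    (@En.i (nat_lit 6376) (nat_lit 4) (nat_lit 14))
    (@En.n l29449 (nat_lit 12360) (nat_lit 2) (nat_lit 11))
    (@En.n l28 (nat_lit 11964) (nat_lit 3) (nat_lit 6))
    (@En.i (nat_lit 10779) (nat_lit 4) (nat_lit 7))
    (@En.n l50 (nat_lit 11963) (nat_lit 5) (nat_lit 3))
    (@En.n l28470 (nat_lit 12300) (nat_lit 0) (nat_lit 6))
    (@En.n l3038 (nat_lit 11873) (nat_lit 8) (nat_lit 9))
    (@En.n l3039 (nat_lit 8039) (nat_lit 5) (nat_lit 13))
    (@En.n l14630 (nat_lit 2171) (nat_lit 10) (nat_lit 10))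
    (@En.n l29450 (nat_lit 11175) (nat_lit 10) (nat_lit 4))
    (@En.n l29451 (nat_lit 12483) (nat_lit 12) (nat_lit 9))
    (@En.n l28470 (nat_lit 10002) (nat_lit 13) (nat_lit 10))
    (@En.n l8913 (nat_lit 12165) (nat_lit 14) (nat_lit 5))
    (@En.n l29452 (nat_lit 10509) (nat_lit 9) (nat_lit 12))
    (@En.n l17 (nat_lit 12167) (nat_lit 15) (nat_lit 2))))
  (@Cl.mk (nat_lit 0x2000c0009000800070004000a000d000900070003000800060009000e0007) (nat_lit 0x616002860010440) (nat_lit 16) Lb.e (@T16.mk En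
    (@En.i (nat_lit 12173) (nat_lit 11) (nat_lit 7))
    (@En.n l31369 (nat_lit 12720) (nat_lit 1) (nat_lit 14))
    (@En.n l20132 (nat_lit 5954) (nat_lit 2) (nat_lit 9))
    (@En.n l21014 (nat_lit 12170) (nat_lit 3) (nat_lit 6))
    (@En.n l31369 (nat_lit 10781) (nat_lit 4) (nat_lit 8))
    (@En.n l31370 (nat_lit 12171) (nat_lit 5) (nat_lit 3))
    (@En.i (nat_lit 11571) (nat_lit 0) (nat_lit 7))
    (@En.n l31371 (nat_lit 11872) (nat_lit 8) (nat_lit 9))
    (@En.i (nat_lit 8038) (nat_lit 5) (nat_lit 13))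
    (@En.n l30152 (nat_lit 12165) (nat_lit 10) (nat_lit 10))
    (@En.n l31372 (nat_lit 12167) (nat_lit 10) (nat_lit 4))
    (@En.i (nat_lit 11457) (nat_lit 12) (nat_lit 7))
    (@En.n l31373 (nat_lit 12075) (nat_lit 13) (nat_lit 8))
    (@En.n l217 (nat_lit 5169) (nat_lit 14) (nat_lit 9))
    (@En.n l31374 (nat_lit 8784) (nat_lit 9) (nat_lit 12))
    (@En.n l28 (nat_lit 12168) (nat_lit 15) (nat_lit 2))))
  (@Cl.mk (nat_lit 0x400080007000c000a0008000800040009000800060009000c000800080007) (nat_lit 0x208523031014560) (nat_lit 16) Lb.e (@T16.mk En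
    (@En.n l31412 (nat_lit 11951) (nat_lit 0) (nat_lit 7))
    (@En.n l8649 (nat_lit 12165) (nat_lit 8) (nat_lit 8))
    (@En.n l3851 (nat_lit 11858) (nat_lit 10) (nat_lit 8))
    (@En.n l31413 (nat_lit 11658) (nat_lit 6) (nat_lit 12))
    (@En.n l50 (nat_lit 2160) (nat_lit 9) (nat_lit 9))
    (@En.n l31413 (nat_lit 10522) (nat_lit 10) (nat_lit 6))
    (@En.i (nat_lit 10606) (nat_lit 8) (nat_lit 8))
    (@En.n l31414 (nat_lit 5173) (nat_lit 11) (nat_lit 9))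
    (@En.n l5 (nat_lit 10952) (nat_lit 8) (nat_lit 4))
    (@En.n l8652 (nat_lit 12181) (nat_lit 8) (nat_lit 8))
    (@En.n l31415 (nat_lit 10949) (nat_lit 1) (nat_lit 8))
    (@En.n l24847 (nat_lit 12173) (nat_lit 12) (nat_lit 10))
    (@En.n l10436 (nat_lit 12001) (nat_lit 13) (nat_lit 12))
    (@En.n l31416 (nat_lit 12174) (nat_lit 9) (nat_lit 7))
    (@En.n l31417 (nat_lit 10790) (nat_lit 11) (nat_lit 8))
    (@En.n l31418 (nat_lit 12192) (nat_lit 15) (nat_lit 4))))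
  (@Cl.mk (nat_lit 0x2000c0008000c00070004000a0004000d000a0008000300060009000e0006) (nat_lit 0x742003093500360) (nat_lit 16) Lb.e (@T16.mk En
    (@En.n l8605 (nat_lit 12175) (nat_lit 12) (nat_lit 6))
    (@En.i (nat_lit 12201) (nat_lit 1) (nat_lit 14))
    (@En.n l226 (nat_lit 12727) (nat_lit 9) (nat_lit 9))
    (@En.i (nat_lit 8897) (nat_lit 12) (nat_lit 6))
    (@En.n l50 (nat_lit 12172) (nat_lit 4) (nat_lit 3))
    (@En.n l15286 (nat_lit 12299) (nat_lit 0) (nat_lit 8))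
    (@En.i (nat_lit 10683) (nat_lit 7) (nat_lit 10))
    (@En.n l12759 (nat_lit 12168) (nat_lit 8) (nat_lit 13))
    (@En.n l2496 (nat_lit 10741) (nat_lit 8) (nat_lit 4))
    (@En.n l1690 (nat_lit 12164) (nat_lit 10) (nat_lit 10))
    (@En.n l152 (nat_lit 11964) (nat_lit 10) (nat_lit 4))
    (@En.n l18801 (nat_lit 11452) (nat_lit 12) (nat_lit 7))
    (@En.i (nat_lit 2777) (nat_lit 13) (nat_lit 12))
    (@En.n l7865 (nat_lit 6581) (nat_lit 14) (nat_lit 8))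
    (@En.n l14811 (nat_lit 8782) (nat_lit 10) (nat_lit 12))
    (@En.n l17 (nat_lit 12170) (nat_lit 15) (nat_lit 2))))
  (@Cl.mk (nat_lit 0x2000c000a000800070004000a000d0006000a0003000800060009000e0006) (nat_lit 0x874002705010360) (nat_lit 16) Lb.e (@T16.mk En
    (@En.i (nat_lit 12191) (nat_lit 11) (nat_lit 6))
    (@En.i (nat_lit 12197) (nat_lit 1) (nat_lit 14))
    (@En.n l24108 (nat_lit 5949) (nat_lit 2) (nat_lit 9))
    (@En.n l28 (nat_lit 12172) (nat_lit 3) (nat_lit 6))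
    (@En.n l77 (nat_lit 10041) (nat_lit 4) (nat_lit 8))
    (@En.n l12759 (nat_lit 12168) (nat_lit 5) (nat_lit 3))
    (@En.n l24109 (nat_lit 12270) (nat_lit 0) (nat_lit 10))
    (@En.n l28 (nat_lit 10038) (nat_lit 7) (nat_lit 6))
    (@En.n l3039 (nat_lit 8037) (nat_lit 5) (nat_lit 13))
    (@En.n l1690 (nat_lit 12166) (nat_lit 10) (nat_lit 10))
    (@En.n l152 (nat_lit 11963) (nat_lit 10) (nat_lit 4))
    (@En.n l24110 (nat_lit 11456) (nat_lit 12) (nat_lit 7))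
    (@En.n l24109 (nat_lit 12479) (nat_lit 13) (nat_lit 8))
    (@En.i (nat_lit 11180) (nat_lit 14) (nat_lit 10))
    (@En.n l24111 (nat_lit 8817) (nat_lit 9) (nat_lit 12))
    (@En.n l17 (nat_lit 12171) (nat_lit 15) (nat_lit 2))))
  (@Cl.mk (nat_lit 0x2000c0009000c00070004000a0004000d0007000b000300060009000e0005) (nat_lit 0x777003080600260) (nat_lit 16) Lb.e (@T16.mk En
    (@En.i (nat_lit 12190) (nat_lit 12) (nat_lit 5))
    (@En.i (nat_lit 12198) (nat_lit 1) (nat_lit 14))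
    (@En.n l226 (nat_lit 5955) (nat_lit 9) (nat_lit 9))
    (@En.i (nat_lit 7509) (nat_lit 12) (nat_lit 6))
    (@En.i (nat_lit 12170) (nat_lit 4) (nat_lit 3))
    (@En.n l3082 (nat_lit 12356) (nat_lit 0) (nat_lit 11))
    (@En.i (nat_lit 10041) (nat_lit 6) (nat_lit 7))
    (@En.i (nat_lit 12171) (nat_lit 8) (nat_lit 13))
    (@En.i (nat_lit 10738) (nat_lit 8) (nat_lit 4))
    (@En.n l1690 (nat_lit 7452) (nat_lit 10) (nat_lit 10))
    (@En.n l152 (nat_lit 11959) (nat_lit 10) (nat_lit 4))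
    (@En.i (nat_lit 11450) (nat_lit 12) (nat_lit 7))
    (@En.i (nat_lit 2775) (nat_lit 6) (nat_lit 12))
    (@En.i (nat_lit 10969) (nat_lit 14) (nat_lit 9))
    (@En.i (nat_lit 8816) (nat_lit 10) (nat_lit 12))
    (@En.n l17 (nat_lit 12172) (nat_lit 15) (nat_lit 2))))
  (@Cl.mk (nat_lit 0x400090007000a00070007000c00080007000600040009000c000900090008) (nat_lit 0x704004100025576) (nat_lit 16) Lb.e (@T16.mk En
    (@En.n l6981 (nat_lit 12016) (nat_lit 0) (nat_lit 8))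
    (@En.n l55 (nat_lit 12168) (nat_lit 7) (nat_lit 9))
    (@En.n l39390 (nat_lit 11857) (nat_lit 13) (nat_lit 9))
    (@En.i (nat_lit 7732) (nat_lit 6) (nat_lit 12))
    (@En.n l37572 (nat_lit 12169) (nat_lit 4) (nat_lit 9))
    (@En.n l39391 (nat_lit 11968) (nat_lit 5) (nat_lit 4))
    (@En.i (nat_lit 10519) (nat_lit 10) (nat_lit 6))
    (@En.n l39392 (nat_lit 10607) (nat_lit 9) (nat_lit 7))
    (@En.n l39393 (nat_lit 59) (nat_lit 1) (nat_lit 8))
    (@En.n l7477 (nat_lit 9472) (nat_lit 8) (nat_lit 12))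
    (@En.n l39394 (nat_lit 12188) (nat_lit 9) (nat_lit 7))
    (@En.n l39395 (nat_lit 11077) (nat_lit 5) (nat_lit 7))
    (@En.n l39392 (nat_lit 5618) (nat_lit 8) (nat_lit 10))
    (@En.n l36071 (nat_lit 12175) (nat_lit 14) (nat_lit 7))
    (@En.n l39396 (nat_lit 10791) (nat_lit 11) (nat_lit 9))
    (@En.n l31370 (nat_lit 12191) (nat_lit 15) (nat_lit 4))))
  (@Cl.mk (nat_lit 0x3000c00090009000800040007000c000a0007000700040008000d00060009) (nat_lit 0x567600840001202) (nat_lit 16) Lb.e (@T16.mk En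
    (@En.n l3082 (nat_lit 2163) (nat_lit 9) (nat_lit 9))
    (@En.n l8902 (nat_lit 10523) (nat_lit 6) (nat_lit 6))
    (@En.n l21101 (nat_lit 2801) (nat_lit 2) (nat_lit 13))
    (@En.n l8904 (nat_lit 57) (nat_lit 3) (nat_lit 8))
    (@En.n l21102 (nat_lit 10950) (nat_lit 4) (nat_lit 4))
    (@En.n l21103 (nat_lit 12177) (nat_lit 9) (nat_lit 7))
    (@En.n l9874 (nat_lit 10947) (nat_lit 1) (nat_lit 7))
    (@En.n l21104 (nat_lit 12175) (nat_lit 13) (nat_lit 10))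
    (@En.n l1063 (nat_lit 11850) (nat_lit 9) (nat_lit 12))
    (@En.n l21105 (nat_lit 8889) (nat_lit 11) (nat_lit 7))
    (@En.n l3083 (nat_lit 12184) (nat_lit 10) (nat_lit 4))
    (@En.i (nat_lit 11991) (nat_lit 0) (nat_lit 8))
    (@En.n l21106 (nat_lit 12164) (nat_lit 7) (nat_lit 9))
    (@En.n l1101 (nat_lit 12051) (nat_lit 14) (nat_lit 9))
    (@En.n l21107 (nat_lit 12169) (nat_lit 3) (nat_lit 12))
    (@En.n l21108 (nat_lit 12176) (nat_lit 15) (nat_lit 3))))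
  (@Cl.mk (nat_lit 0x40007000a00060006000c0007000c0006000400090004000c000a000a0009) (nat_lit 0x30040100306745) (nat_lit 16) Lb.e (@T16.mk En
    (@En.n l55 (nat_lit 12015) (nat_lit 0) (nat_lit 9))
    (@En.n l2940 (nat_lit 12170) (nat_lit 6) (nat_lit 10))
    (@En.n l28193 (nat_lit 12050) (nat_lit 6) (nat_lit 10))
    (@En.n l36517 (nat_lit 12173) (nat_lit 3) (nat_lit 12))
    (@En.n l50 (nat_lit 10747) (nat_lit 4) (nat_lit 4))
    (@En.n l36518 (nat_lit 12174) (nat_lit 0) (nat_lit 9))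
    (@En.n l27264 (nat_lit 11967) (nat_lit 1) (nat_lit 4))
    (@En.i (nat_lit 10520) (nat_lit 0) (nat_lit 6))
    (@En.n l2944 (nat_lit 2789) (nat_lit 1) (nat_lit 12))
    (@En.n l17194 (nat_lit 5173) (nat_lit 4) (nat_lit 7))
    (@En.n l18332 (nat_lit 9471) (nat_lit 11) (nat_lit 12))
    (@En.n l1154 (nat_lit 12186) (nat_lit 10) (nat_lit 6))
    (@En.n l36519 (nat_lit 11075) (nat_lit 5) (nat_lit 6))
    (@En.n l6293 (nat_lit 12725) (nat_lit 8) (nat_lit 10))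
    (@En.i (nat_lit 8890) (nat_lit 11) (nat_lit 7))
    (@En.n l2938 (nat_lit 12190) (nat_lit 15) (nat_lit 4))))
noncomputable def a761 : T16 Cl := @T16.mk Cl
  (@Cl.mk (nat_lit 0x3000c00090009000800040008000c00090007000700040008000d00080007) (nat_lit 0x567101740003220) (nat_lit 16) Lb.e (@T16.mk En
    (@En.n l36520 (nat_lit 12095) (nat_lit 0) (nat_lit 7))
    (@En.n l36521 (nat_lit 12169) (nat_lit 6) (nat_lit 8))
    (@En.n l2946 (nat_lit 2800) (nat_lit 2) (nat_lit 13))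
    (@En.n l36512 (nat_lit 6449) (nat_lit 11) (nat_lit 8))
    (@En.n l30168 (nat_lit 10951) (nat_lit 4) (nat_lit 4))
    (@En.n l36522 (nat_lit 12178) (nat_lit 9) (nat_lit 7))
    (@En.n l16584 (nat_lit 10948) (nat_lit 1) (nat_lit 7))
    (@En.n l403 (nat_lit 10747) (nat_lit 13) (nat_lit 9))
    (@En.n l16584 (nat_lit 11851) (nat_lit 7) (nat_lit 12))
    (@En.n l14256 (nat_lit 9966) (nat_lit 11) (nat_lit 8))
    (@En.n l936 (nat_lit 12160) (nat_lit 10) (nat_lit 4))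
    (@En.n l36523 (nat_lit 11627) (nat_lit 0) (nat_lit 8))
    (@En.n l36524 (nat_lit 12163) (nat_lit 7) (nat_lit 9))
    (@En.n l36444 (nat_lit 12053) (nat_lit 14) (nat_lit 9))
    (@En.n l6042 (nat_lit 11429) (nat_lit 3) (nat_lit 12))
    (@En.n l36518 (nat_lit 12174) (nat_lit 15) (nat_lit 3))))
  (@Cl.mk (nat_lit 0x2000900050008000d000b000700030007000d000500080003000b000e0009) (nat_lit 0x20346000a010567) (nat_lit 16) Lb.e (@T16.mk En
    (@En.n l8800 (nat_lit 12174) (nat_lit 13) (nat_lit 9))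
    (@En.n l3026 (nat_lit 10108) (nat_lit 4) (nat_lit 14))
    (@En.n l21848 (nat_lit 12181) (nat_lit 2) (nat_lit 11))
    (@En.n l10435 (nat_lit 12178) (nat_lit 3) (nat_lit 3))
    (@En.n l3026 (nat_lit 2155) (nat_lit 10) (nat_lit 8))
    (@En.n l21849 (nat_lit 11483) (nat_lit 5) (nat_lit 5))
    (@En.i (nat_lit 2794) (nat_lit 7) (nat_lit 13))
    (@En.n l10707 (nat_lit 6579) (nat_lit 7) (nat_lit 7))
    (@En.n l11 (nat_lit 11969) (nat_lit 8) (nat_lit 3))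
    (@En.n l3026 (nat_lit 9020) (nat_lit 0) (nat_lit 7))
    (@En.n l55 (nat_lit 12186) (nat_lit 11) (nat_lit 11))
    (@En.n l21002 (nat_lit 12572) (nat_lit 12) (nat_lit 13))
    (@En.i (nat_lit 8887) (nat_lit 13) (nat_lit 8))
    (@En.n l17 (nat_lit 12180) (nat_lit 14) (nat_lit 5))
    (@En.n l1080 (nat_lit 11946) (nat_lit 5) (nat_lit 9))
    (@En.n l3 (nat_lit 12177) (nat_lit 15) (nat_lit 2))))
  (@Cl.mk (nat_lit 0x2000900050009000d000a000700030007000d000700060003000b000e0009) (nat_lit 0x20144000a0005a7) (nat_lit 16) Lb.e (@T16.mk En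
    (@En.n l21412 (nat_lit 12176) (nat_lit 13) (nat_lit 9))
    (@En.i (nat_lit 10105) (nat_lit 4) (nat_lit 14))
    (@En.n l21413 (nat_lit 11660) (nat_lit 2) (nat_lit 11))
    (@En.n l3201 (nat_lit 12177) (nat_lit 3) (nat_lit 3))
    (@En.n l7081 (nat_lit 11691) (nat_lit 4) (nat_lit 6))
    (@En.n l7471 (nat_lit 12181) (nat_lit 5) (nat_lit 7))
    (@En.n l21414 (nat_lit 2806) (nat_lit 7) (nat_lit 13))
    (@En.n l16914 (nat_lit 6578) (nat_lit 7) (nat_lit 7))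
    (@En.n l21415 (nat_lit 11971) (nat_lit 8) (nat_lit 3))
    (@En.n l21416 (nat_lit 9898) (nat_lit 0) (nat_lit 7))
    (@En.n l16916 (nat_lit 12301) (nat_lit 11) (nat_lit 10))
    (@En.n l21417 (nat_lit 12573) (nat_lit 12) (nat_lit 13))
    (@En.n l21416 (nat_lit 8260) (nat_lit 13) (nat_lit 9))
    (@En.n l11529 (nat_lit 12179) (nat_lit 14) (nat_lit 5))
    (@En.n l21418 (nat_lit 11945) (nat_lit 5) (nat_lit 9))
    (@En.n l17 (nat_lit 12178) (nat_lit 15) (nat_lit 2))))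
  (@Cl.mk (nat_lit 0x200050009000d000a00060003000a000d000700060003000b0006000e000a) (nat_lit 0x233006900050b8) (nat_lit 16) Lb.e (@T16.mk En
    (@En.n l9451 (nat_lit 12160) (nat_lit 12) (nat_lit 10))
    (@En.n l10435 (nat_lit 12178) (nat_lit 1) (nat_lit 14))
    (@En.n l9344 (nat_lit 12161) (nat_lit 2) (nat_lit 6))
    (@En.n l10436 (nat_lit 11663) (nat_lit 3) (nat_lit 11))
    (@En.n l7 (nat_lit 12180) (nat_lit 4) (nat_lit 3))
    (@En.n l94 (nat_lit 11693) (nat_lit 5) (nat_lit 6))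
    (@En.n l644 (nat_lit 12182) (nat_lit 6) (nat_lit 7))
    (@En.i (nat_lit 3361) (nat_lit 8) (nat_lit 13))
    (@En.n l287 (nat_lit 11497) (nat_lit 9) (nat_lit 10))
    (@En.n l11 (nat_lit 11974) (nat_lit 9) (nat_lit 3))
    (@En.n l7027 (nat_lit 9899) (nat_lit 0) (nat_lit 6))
    (@En.i (nat_lit 12302) (nat_lit 12) (nat_lit 10))
    (@En.n l5697 (nat_lit 12581) (nat_lit 13) (nat_lit 13))
    (@En.i (nat_lit 12158) (nat_lit 14) (nat_lit 9))
    (@En.i (nat_lit 12204) (nat_lit 13) (nat_lit 5))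
    (@En.n l3 (nat_lit 12179) (nat_lit 15) (nat_lit 2))))
  (@Cl.mk (nat_lit 0x200050008000d000b00060003000a000d000500080003000b0006000e000a) (nat_lit 0x23500510105078) (nat_lit 16) Lb.e (@T16.mk En
    (@En.i (nat_lit 12184) (nat_lit 12) (nat_lit 10))
    (@En.i (nat_lit 12177) (nat_lit 1) (nat_lit 14))
    (@En.i (nat_lit 12183) (nat_lit 2) (nat_lit 6))
    (@En.i (nat_lit 12182) (nat_lit 3) (nat_lit 11))
    (@En.i (nat_lit 12179) (nat_lit 4) (nat_lit 3))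
    (@En.i (nat_lit 1801) (nat_lit 5) (nat_lit 8))
    (@En.i (nat_lit 11481) (nat_lit 6) (nat_lit 5))
    (@En.i (nat_lit 3359) (nat_lit 8) (nat_lit 13))
    (@En.n l287 (nat_lit 11496) (nat_lit 9) (nat_lit 10))
    (@En.n l11 (nat_lit 11972) (nat_lit 9) (nat_lit 3))
    (@En.i (nat_lit 9022) (nat_lit 0) (nat_lit 6))
    (@En.n l55 (nat_lit 12185) (nat_lit 12) (nat_lit 11))
    (@En.n l164 (nat_lit 12639) (nat_lit 13) (nat_lit 13))
    (@En.i (nat_lit 7594) (nat_lit 10) (nat_lit 8))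
    (@En.i (nat_lit 10978) (nat_lit 13) (nat_lit 5))
    (@En.n l3 (nat_lit 12180) (nat_lit 15) (nat_lit 2))))
  (@Cl.mk (nat_lit 0x20008000500090008000d000b000800030008000700050008000b000e0008) (nat_lit 0x202457202001456) (nat_lit 16) Lb.e (@T16.mk En
    (@En.n l19359 (nat_lit 12169) (nat_lit 2) (nat_lit 8))
    (@En.i (nat_lit 6498) (nat_lit 4) (nat_lit 14))
    (@En.n l35895 (nat_lit 11667) (nat_lit 2) (nat_lit 11))
    (@En.n l5592 (nat_lit 2156) (nat_lit 3) (nat_lit 8))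
    (@En.n l35895 (nat_lit 11485) (nat_lit 4) (nat_lit 5))
    (@En.i (nat_lit 12481) (nat_lit 5) (nat_lit 7))
    (@En.n l3897 (nat_lit 6581) (nat_lit 6) (nat_lit 8))
    (@En.n l30154 (nat_lit 11970) (nat_lit 7) (nat_lit 3))
    (@En.i (nat_lit 9907) (nat_lit 0) (nat_lit 8))
    (@En.n l3039 (nat_lit 12188) (nat_lit 10) (nat_lit 11))
    (@En.n l134 (nat_lit 12643) (nat_lit 11) (nat_lit 13))
    (@En.n l21006 (nat_lit 12177) (nat_lit 12) (nat_lit 8))
    (@En.n l20132 (nat_lit 7972) (nat_lit 13) (nat_lit 9))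
    (@En.n l8071 (nat_lit 12182) (nat_lit 14) (nat_lit 5))
    (@En.n l35896 (nat_lit 11944) (nat_lit 6) (nat_lit 8))
    (@En.n l17 (nat_lit 12181) (nat_lit 15) (nat_lit 2))))
  (@Cl.mk (nat_lit 0x2000500090008000d000b00070003000b000700050008000b0005000e0009) (nat_lit 0x73460070014067) (nat_lit 16) Lb.e (@T16.mk En
    (@En.i (nat_lit 12192) (nat_lit 1) (nat_lit 9))
    (@En.n l21848 (nat_lit 12181) (nat_lit 1) (nat_lit 14))
    (@En.n l11065 (nat_lit 6461) (nat_lit 2) (nat_lit 5))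
    (@En.n l10436 (nat_lit 11662) (nat_lit 3) (nat_lit 11))
    (@En.n l3027 (nat_lit 2153) (nat_lit 4) (nat_lit 8))
    (@En.n l10436 (nat_lit 11482) (nat_lit 5) (nat_lit 5))
    (@En.n l5 (nat_lit 12480) (nat_lit 6) (nat_lit 7))
    (@En.n l287 (nat_lit 11495) (nat_lit 8) (nat_lit 11))
    (@En.n l11 (nat_lit 11973) (nat_lit 8) (nat_lit 3))
    (@En.n l7240 (nat_lit 9025) (nat_lit 0) (nat_lit 7))
    (@En.n l55 (nat_lit 12187) (nat_lit 11) (nat_lit 11))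
    (@En.n l23884 (nat_lit 12641) (nat_lit 12) (nat_lit 13))
    (@En.n l50 (nat_lit 12180) (nat_lit 13) (nat_lit 8))
    (@En.n l217 (nat_lit 12183) (nat_lit 14) (nat_lit 9))
    (@En.n l10436 (nat_lit 10977) (nat_lit 13) (nat_lit 5))
    (@En.n l3 (nat_lit 12182) (nat_lit 15) (nat_lit 2))))
  (@Cl.mk (nat_lit 0x200090007000d000a00060003000a0007000d0006000900030006000e000a) (nat_lit 0x603500602030074) (nat_lit 16) Lb.e (@T16.mk En
    (@En.i (nat_lit 10046) (nat_lit 13) (nat_lit 10))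
    (@En.n l3026 (nat_lit 7972) (nat_lit 1) (nat_lit 14))
    (@En.n l9072 (nat_lit 11630) (nat_lit 12) (nat_lit 6))
    (@En.n l9344 (nat_lit 12161) (nat_lit 3) (nat_lit 3))
    (@En.n l1724 (nat_lit 2154) (nat_lit 0) (nat_lit 9))
    (@En.n l9064 (nat_lit 11081) (nat_lit 5) (nat_lit 6))
    (@En.n l18 (nat_lit 12180) (nat_lit 7) (nat_lit 13))
    (@En.n l61 (nat_lit 12177) (nat_lit 7) (nat_lit 7))
    (@En.n l287 (nat_lit 10965) (nat_lit 9) (nat_lit 10))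
    (@En.n l11 (nat_lit 11975) (nat_lit 9) (nat_lit 3))
    (@En.n l9345 (nat_lit 9018) (nat_lit 0) (nat_lit 6))
    (@En.n l55 (nat_lit 12189) (nat_lit 12) (nat_lit 10))
    (@En.n l9068 (nat_lit 12638) (nat_lit 13) (nat_lit 13))
    (@En.n l2179 (nat_lit 7589) (nat_lit 14) (nat_lit 7))
    (@En.n l6277 (nat_lit 12010) (nat_lit 11) (nat_lit 9))
    (@En.n l3 (nat_lit 12183) (nat_lit 15) (nat_lit 2))))
  (@Cl.mk (nat_lit 0x3000c0006000a000a00040007000c000a000600060004000a000d00060009) (nat_lit 0x607600930007102) (nat_lit 16) Lb.e (@T16.mk En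
    (@En.n l709 (nat_lit 2165) (nat_lit 9) (nat_lit 9))
    (@En.n l2150 (nat_lit 11478) (nat_lit 6) (nat_lit 6))
    (@En.i (nat_lit 2780) (nat_lit 5) (nat_lit 13))
    (@En.n l14270 (nat_lit 10963) (nat_lit 3) (nat_lit 10))
    (@En.n l3535 (nat_lit 10658) (nat_lit 4) (nat_lit 4))
    (@En.n l152 (nat_lit 12180) (nat_lit 10) (nat_lit 6))
    (@En.n l936 (nat_lit 10660) (nat_lit 1) (nat_lit 6))
    (@En.n l870 (nat_lit 12190) (nat_lit 13) (nat_lit 10))
    (@En.n l4291 (nat_lit 11852) (nat_lit 9) (nat_lit 12))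
    (@En.n l387 (nat_lit 7599) (nat_lit 11) (nat_lit 7))
    (@En.i (nat_lit 11614) (nat_lit 10) (nat_lit 4))
    (@En.n l3536 (nat_lit 7452) (nat_lit 6) (nat_lit 10))
    (@En.n l18752 (nat_lit 11988) (nat_lit 1) (nat_lit 10))
    (@En.i (nat_lit 10046) (nat_lit 14) (nat_lit 6))
    (@En.i (nat_lit 12192) (nat_lit 3) (nat_lit 12))
    (@En.n l9451 (nat_lit 12160) (nat_lit 15) (nat_lit 3))))
  (@Cl.mk (nat_lit 0x200050008000b0005000c0009000c0005000400080004000b0007000e000b) (nat_lit 0x24035500206089) (nat_lit 16) Lb.e (@T16.mk En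
    (@En.n l345 (nat_lit 12190) (nat_lit 1) (nat_lit 11))
    (@En.i (nat_lit 12186) (nat_lit 1) (nat_lit 14))
    (@En.i (nat_lit 12189) (nat_lit 2) (nat_lit 7))
    (@En.i (nat_lit 12187) (nat_lit 3) (nat_lit 11))
    (@En.n l28 (nat_lit 12302) (nat_lit 4) (nat_lit 4))
    (@En.n l343 (nat_lit 12180) (nat_lit 5) (nat_lit 8))
    (@En.n l28 (nat_lit 11972) (nat_lit 6) (nat_lit 4))
    (@En.i (nat_lit 11480) (nat_lit 7) (nat_lit 5))
    (@En.i (nat_lit 3360) (nat_lit 9) (nat_lit 12))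
    (@En.n l3213 (nat_lit 8561) (nat_lit 10) (nat_lit 9))
    (@En.i (nat_lit 8899) (nat_lit 11) (nat_lit 12))
    (@En.n l117 (nat_lit 9689) (nat_lit 12) (nat_lit 5))
    (@En.n l8573 (nat_lit 5671) (nat_lit 13) (nat_lit 11))
    (@En.i (nat_lit 7596) (nat_lit 14) (nat_lit 8))
    (@En.i (nat_lit 11604) (nat_lit 13) (nat_lit 5))
    (@En.n l3 (nat_lit 12185) (nat_lit 15) (nat_lit 2))))
  (@Cl.mk (nat_lit 0x2000a00050008000b0006000c0006000c0005000400080004000b000e000a) (nat_lit 0x603503050020578) (nat_lit 16) Lb.e (@T16.mk En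
    (@En.n l965 (nat_lit 12175) (nat_lit 2) (nat_lit 10))
    (@En.n l21680 (nat_lit 10109) (nat_lit 4) (nat_lit 14))
    (@En.n l9384 (nat_lit 12188) (nat_lit 2) (nat_lit 11))
    (@En.n l21681 (nat_lit 12301) (nat_lit 3) (nat_lit 4))
    (@En.n l343 (nat_lit 12177) (nat_lit 4) (nat_lit 8))
    (@En.n l28 (nat_lit 11969) (nat_lit 5) (nat_lit 4))
    (@En.n l16617 (nat_lit 11484) (nat_lit 6) (nat_lit 5))
    (@En.i (nat_lit 2793) (nat_lit 8) (nat_lit 12))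
    (@En.n l16366 (nat_lit 6580) (nat_lit 8) (nat_lit 6))
    (@En.n l16617 (nat_lit 8904) (nat_lit 10) (nat_lit 12))
    (@En.n l1246 (nat_lit 8772) (nat_lit 11) (nat_lit 6))
    (@En.n l7072 (nat_lit 5623) (nat_lit 7) (nat_lit 11))
    (@En.i (nat_lit 8888) (nat_lit 13) (nat_lit 8))
    (@En.n l17 (nat_lit 12185) (nat_lit 14) (nat_lit 5))
    (@En.i (nat_lit 9849) (nat_lit 0) (nat_lit 10))
    (@En.n l3 (nat_lit 12186) (nat_lit 15) (nat_lit 2))))
  (@Cl.mk (nat_lit 0x20005000a0008000b0006000c000a0006000500040008000b0006000e000a) (nat_lit 0x73509500025077) (nat_lit 16) Lb.e (@T16.mk En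
    (@En.n l345 (nat_lit 12191) (nat_lit 1) (nat_lit 10))
    (@En.n l9384 (nat_lit 12188) (nat_lit 1) (nat_lit 14))
    (@En.n l16535 (nat_lit 6462) (nat_lit 2) (nat_lit 6))
    (@En.n l10436 (nat_lit 7733) (nat_lit 3) (nat_lit 11))
    (@En.n l343 (nat_lit 12182) (nat_lit 4) (nat_lit 8))
    (@En.n l28 (nat_lit 11973) (nat_lit 5) (nat_lit 4))
    (@En.n l10436 (nat_lit 11419) (nat_lit 6) (nat_lit 5))
    (@En.n l5 (nat_lit 12077) (nat_lit 7) (nat_lit 6))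
    (@En.n l16536 (nat_lit 8562) (nat_lit 9) (nat_lit 10))
    (@En.n l10189 (nat_lit 8909) (nat_lit 10) (nat_lit 12))
    (@En.n l16537 (nat_lit 9691) (nat_lit 11) (nat_lit 6))
    (@En.n l7276 (nat_lit 5619) (nat_lit 12) (nat_lit 11))
    (@En.n l50 (nat_lit 12185) (nat_lit 13) (nat_lit 8))
    (@En.n l217 (nat_lit 12189) (nat_lit 14) (nat_lit 10))
    (@En.n l10436 (nat_lit 11603) (nat_lit 13) (nat_lit 5))
    (@En.n l3 (nat_lit 12187) (nat_lit 15) (nat_lit 2))))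
  (@Cl.mk (nat_lit 0x200090005000a0008000b0007000c00070006000500040008000b000e0009) (nat_lit 0x102460500002466) (nat_lit 16) Lb.e (@T16.mk En
    (@En.n l29764 (nat_lit 12173) (nat_lit 2) (nat_lit 9))
    (@En.i (nat_lit 6499) (nat_lit 4) (nat_lit 14))
    (@En.n l29765 (nat_lit 7734) (nat_lit 2) (nat_lit 11))
    (@En.n l11512 (nat_lit 12181) (nat_lit 3) (nat_lit 8))
    (@En.n l29766 (nat_lit 11970) (nat_lit 4) (nat_lit 4))
    (@En.n l29765 (nat_lit 11486) (nat_lit 5) (nat_lit 5))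
    (@En.i (nat_lit 12076) (nat_lit 6) (nat_lit 6))
    (@En.n l19580 (nat_lit 5169) (nat_lit 7) (nat_lit 7))
    (@En.i (nat_lit 8903) (nat_lit 9) (nat_lit 12))
    (@En.n l6370 (nat_lit 8794) (nat_lit 10) (nat_lit 7))
    (@En.i (nat_lit 5617) (nat_lit 11) (nat_lit 11))
    (@En.n l14621 (nat_lit 12186) (nat_lit 12) (nat_lit 8))
    (@En.n l4943 (nat_lit 7974) (nat_lit 13) (nat_lit 10))
    (@En.n l29767 (nat_lit 12187) (nat_lit 14) (nat_lit 5))
    (@En.n l29768 (nat_lit 9848) (nat_lit 0) (nat_lit 9))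
    (@En.n l17 (nat_lit 12188) (nat_lit 15) (nat_lit 2))))
  (@Cl.mk (nat_lit 0x2000a0007000a0005000b00090006000c00060005000900040007000e000b) (nat_lit 0x604035060040089) (nat_lit 16) Lb.e (@T16.mk En
    (@En.n l345 (nat_lit 10045) (nat_lit 13) (nat_lit 11))
    (@En.n l21850 (nat_lit 7974) (nat_lit 1) (nat_lit 14))
    (@En.n l21851 (nat_lit 11195) (nat_lit 11) (nat_lit 7))
    (@En.n l21852 (nat_lit 11572) (nat_lit 3) (nat_lit 4))
    (@En.n l343 (nat_lit 12183) (nat_lit 4) (nat_lit 9))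
    (@En.n l28 (nat_lit 11975) (nat_lit 5) (nat_lit 5))
    (@En.n l16617 (nat_lit 11082) (nat_lit 6) (nat_lit 6))
    (@En.n l18 (nat_lit 12185) (nat_lit 8) (nat_lit 12))
    (@En.n l61 (nat_lit 12186) (nat_lit 8) (nat_lit 6))
    (@En.n l21643 (nat_lit 8560) (nat_lit 10) (nat_lit 9))
    (@En.n l14147 (nat_lit 8948) (nat_lit 11) (nat_lit 11))
    (@En.n l117 (nat_lit 9687) (nat_lit 12) (nat_lit 5))
    (@En.n l21643 (nat_lit 5670) (nat_lit 8) (nat_lit 10))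
    (@En.n l12666 (nat_lit 7591) (nat_lit 14) (nat_lit 7))
    (@En.i (nat_lit 11613) (nat_lit 11) (nat_lit 10))
    (@En.n l3 (nat_lit 12189) (nat_lit 15) (nat_lit 2))))
  (@Cl.mk (nat_lit 0x40007000a00050005000c0009000c0006000400090004000c0007000b000b) (nat_lit 0x20046200305087) (nat_lit 16) Lb.e (@T16.mk En
    (@En.n l61 (nat_lit 12172) (nat_lit 5) (nat_lit 11))
    (@En.n l1075 (nat_lit 11992) (nat_lit 1) (nat_lit 11))
    (@En.i (nat_lit 10045) (nat_lit 14) (nat_lit 7))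
    (@En.i (nat_lit 12191) (nat_lit 3) (nat_lit 12))
    (@En.n l15273 (nat_lit 10740) (nat_lit 4) (nat_lit 4))
    (@En.n l3529 (nat_lit 12184) (nat_lit 0) (nat_lit 9))
    (@En.n l2710 (nat_lit 11976) (nat_lit 1) (nat_lit 4))
    (@En.n l1075 (nat_lit 11477) (nat_lit 0) (nat_lit 6))
    (@En.i (nat_lit 2779) (nat_lit 6) (nat_lit 12))
    (@En.i (nat_lit 8563) (nat_lit 4) (nat_lit 9))
    (@En.n l3530 (nat_lit 8796) (nat_lit 11) (nat_lit 12))
    (@En.n l1071 (nat_lit 12185) (nat_lit 11) (nat_lit 5))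
    (@En.i (nat_lit 9696) (nat_lit 5) (nat_lit 5))
    (@En.n l226 (nat_lit 5676) (nat_lit 8) (nat_lit 10))
    (@En.n l1073 (nat_lit 7598) (nat_lit 11) (nat_lit 7))
    (@En.n l3532 (nat_lit 11612) (nat_lit 15) (nat_lit 4))))
  (@Cl.mk (nat_lit 0x400090007000a00060006000c000a0007000600040009000c0006000a000a) (nat_lit 0x104008600024066) (nat_lit 16) Lb.e (@T16.mk En
    (@En.n l61 (nat_lit 12171) (nat_lit 6) (nat_lit 10))
    (@En.n l31714 (nat_lit 11993) (nat_lit 1) (nat_lit 10))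
    (@En.n l31715 (nat_lit 10042) (nat_lit 13) (nat_lit 6))
    (@En.n l31716 (nat_lit 7731) (nat_lit 6) (nat_lit 12))
    (@En.n l3529 (nat_lit 12192) (nat_lit 4) (nat_lit 9))
    (@En.n l2710 (nat_lit 11977) (nat_lit 5) (nat_lit 4))
    (@En.n l31716 (nat_lit 11476) (nat_lit 10) (nat_lit 6))
    (@En.n l31717 (nat_lit 10605) (nat_lit 1) (nat_lit 7))
    (@En.n l31718 (nat_lit 9847) (nat_lit 6) (nat_lit 10))
    (@En.n l31719 (nat_lit 8797) (nat_lit 10) (nat_lit 12))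
    (@En.n l1071 (nat_lit 12187) (nat_lit 10) (nat_lit 6))
    (@En.i (nat_lit 10650) (nat_lit 5) (nat_lit 6))
    (@En.n l24108 (nat_lit 5952) (nat_lit 8) (nat_lit 10))
    (@En.n l28 (nat_lit 12190) (nat_lit 14) (nat_lit 7))
    (@En.n l77 (nat_lit 10045) (nat_lit 11) (nat_lit 9))
    (@En.n l31720 (nat_lit 11611) (nat_lit 15) (nat_lit 4))))
noncomputable def a762 : T16 Cl := @T16.mk Cl
  (@Cl.mk (nat_lit 0x400080007000c000a000700070004000b000800060009000c000500090009) (nat_lit 0x608500081015065) (nat_lit 16) Lb.e (@T16.mk En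
    (@En.n l3536 (nat_lit 12166) (nat_lit 7) (nat_lit 9))
    (@En.n l2269 (nat_lit 11990) (nat_lit 1) (nat_lit 9))
    (@En.n l11065 (nat_lit 10044) (nat_lit 9) (nat_lit 5))
    (@En.n l10436 (nat_lit 8045) (nat_lit 6) (nat_lit 12))
    (@En.n l23876 (nat_lit 2162) (nat_lit 9) (nat_lit 9))
    (@En.n l10436 (nat_lit 11479) (nat_lit 2) (nat_lit 6))
    (@En.i (nat_lit 56) (nat_lit 6) (nat_lit 8))
    (@En.n l14270 (nat_lit 9851) (nat_lit 1) (nat_lit 11))
    (@En.n l3535 (nat_lit 10657) (nat_lit 8) (nat_lit 4))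
    (@En.n l152 (nat_lit 12182) (nat_lit 9) (nat_lit 7))
    (@En.n l936 (nat_lit 10659) (nat_lit 1) (nat_lit 7))
    (@En.n l870 (nat_lit 12191) (nat_lit 12) (nat_lit 10))
    (@En.n l23877 (nat_lit 11996) (nat_lit 13) (nat_lit 12))
    (@En.n l50 (nat_lit 12184) (nat_lit 9) (nat_lit 7))
    (@En.n l217 (nat_lit 10046) (nat_lit 11) (nat_lit 8))
    (@En.n l23878 (nat_lit 11613) (nat_lit 15) (nat_lit 4))))
  (@Cl.mk (nat_lit 0x20009000c0007000b000b0004000a000700050005000c00090006000e0004) (nat_lit 0x360920100044090) (nat_lit 16) Lb.e (@T16.mk En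
    (@En.n l24935 (nat_lit 12194) (nat_lit 15) (nat_lit 4))
    (@En.n l6050 (nat_lit 5141) (nat_lit 1) (nat_lit 14))
    (@En.n l5246 (nat_lit 5637) (nat_lit 2) (nat_lit 6))
    (@En.n l26249 (nat_lit 8199) (nat_lit 3) (nat_lit 9))
    (@En.n l20813 (nat_lit 9671) (nat_lit 5) (nat_lit 12))
    (@En.n l19188 (nat_lit 5679) (nat_lit 11) (nat_lit 5))
    (@En.n l3457 (nat_lit 12719) (nat_lit 6) (nat_lit 5))
    (@En.n l159 (nat_lit 5678) (nat_lit 7) (nat_lit 7))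
    (@En.n l11 (nat_lit 5677) (nat_lit 9) (nat_lit 10))
    (@En.n l26250 (nat_lit 12587) (nat_lit 9) (nat_lit 4))
    (@En.n l77 (nat_lit 5956) (nat_lit 11) (nat_lit 11))
    (@En.n l3457 (nat_lit 12363) (nat_lit 12) (nat_lit 11))
    (@En.n l26251 (nat_lit 8961) (nat_lit 13) (nat_lit 7))
    (@En.n l26252 (nat_lit 9215) (nat_lit 6) (nat_lit 12))
    (@En.n l26239 (nat_lit 12191) (nat_lit 4) (nat_lit 9))
    (@En.n l17 (nat_lit 12193) (nat_lit 15) (nat_lit 2))))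
  (@Cl.mk (nat_lit 0x400040009000c0006000b000b00040009000700050005000c000c000a0007) (nat_lit 0x34036070002550) (nat_lit 16) Lb.e (@T16.mk En
    (@En.i (nat_lit 5635) (nat_lit 0) (nat_lit 7))
    (@En.i (nat_lit 9056) (nat_lit 1) (nat_lit 10))
    (@En.n l39309 (nat_lit 12193) (nat_lit 4) (nat_lit 12))
    (@En.i (nat_lit 9872) (nat_lit 3) (nat_lit 12))
    (@En.n l3519 (nat_lit 9234) (nat_lit 11) (nat_lit 5))
    (@En.n l18 (nat_lit 10531) (nat_lit 5) (nat_lit 5))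
    (@En.n l28 (nat_lit 12195) (nat_lit 6) (nat_lit 7))
    (@En.n l77 (nat_lit 12196) (nat_lit 1) (nat_lit 9))
    (@En.i (nat_lit 12586) (nat_lit 8) (nat_lit 4))
    (@En.n l61 (nat_lit 12197) (nat_lit 5) (nat_lit 11))
    (@En.n l33253 (nat_lit 12371) (nat_lit 1) (nat_lit 11))
    (@En.n l28 (nat_lit 8964) (nat_lit 12) (nat_lit 6))
    (@En.n l3039 (nat_lit 5308) (nat_lit 6) (nat_lit 12))
    (@En.n l3517 (nat_lit 11977) (nat_lit 4) (nat_lit 9))
    (@En.n l152 (nat_lit 9225) (nat_lit 12) (nat_lit 4))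
    (@En.n l33359 (nat_lit 12711) (nat_lit 0) (nat_lit 4))))
  (@Cl.mk (nat_lit 0x4000400090004000c0007000c000c0004000700040004000c000c0009000c) (nat_lit 0x30504300008151) (nat_lit 16) Lb.e (@T16.mk En
    (@En.i (nat_lit 1150) (nat_lit 6) (nat_lit 12))
    (@En.i (nat_lit 9058) (nat_lit 1) (nat_lit 9))
    (@En.n l1867 (nat_lit 5678) (nat_lit 4) (nat_lit 12))
    (@En.i (nat_lit 9875) (nat_lit 12) (nat_lit 12))
    (@En.n l3519 (nat_lit 9233) (nat_lit 12) (nat_lit 4))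
    (@En.n l18 (nat_lit 12203) (nat_lit 0) (nat_lit 4))
    (@En.i (nat_lit 5875) (nat_lit 11) (nat_lit 7))
    (@En.i (nat_lit 12584) (nat_lit 1) (nat_lit 4))
    (@En.n l61 (nat_lit 12198) (nat_lit 4) (nat_lit 12))
    (@En.i (nat_lit 12415) (nat_lit 1) (nat_lit 12))
    (@En.i (nat_lit 12196) (nat_lit 4) (nat_lit 7))
    (@En.i (nat_lit 12194) (nat_lit 12) (nat_lit 12))
    (@En.i (nat_lit 9243) (nat_lit 6) (nat_lit 4))
    (@En.n l3517 (nat_lit 11976) (nat_lit 0) (nat_lit 9))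
    (@En.n l152 (nat_lit 9230) (nat_lit 12) (nat_lit 4))
    (@En.i (nat_lit 12707) (nat_lit 0) (nat_lit 4))))
  (@Cl.mk (nat_lit 0x40004000b000b00090007000c00050005000a00040007000c000c00090006) (nat_lit 0x91602004007660) (nat_lit 16) Lb.e (@T16.mk En
    (@En.n l3506 (nat_lit 5873) (nat_lit 0) (nat_lit 6))
    (@En.n l33281 (nat_lit 11896) (nat_lit 1) (nat_lit 9))
    (@En.n l61 (nat_lit 12199) (nat_lit 4) (nat_lit 12))
    (@En.n l7 (nat_lit 12361) (nat_lit 8) (nat_lit 12))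
    (@En.n l8434 (nat_lit 8965) (nat_lit 11) (nat_lit 7))
    (@En.i (nat_lit 9241) (nat_lit 5) (nat_lit 4))
    (@En.n l3517 (nat_lit 11978) (nat_lit 0) (nat_lit 10))
    (@En.n l152 (nat_lit 6379) (nat_lit 11) (nat_lit 5))
    (@En.i (nat_lit 9729) (nat_lit 8) (nat_lit 5))
    (@En.n l7 (nat_lit 12195) (nat_lit 0) (nat_lit 12))
    (@En.n l7 (nat_lit 11811) (nat_lit 1) (nat_lit 7))
    (@En.n l28263 (nat_lit 9059) (nat_lit 12) (nat_lit 9))
    (@En.n l1867 (nat_lit 5677) (nat_lit 5) (nat_lit 11))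
    (@En.i (nat_lit 9809) (nat_lit 14) (nat_lit 11))
    (@En.n l3519 (nat_lit 12285) (nat_lit 12) (nat_lit 4))
    (@En.n l27186 (nat_lit 11892) (nat_lit 0) (nat_lit 4))))
  (@Cl.mk (nat_lit 0x2000c000c000a000800040004000a000d0006000b000300080006000e0005) (nat_lit 0x686100380506050) (nat_lit 16) Lb.e (@T16.mk En
    (@En.i (nat_lit 12194) (nat_lit 5) (nat_lit 5))
    (@En.n l226 (nat_lit 900) (nat_lit 1) (nat_lit 14))
    (@En.n l28 (nat_lit 12198) (nat_lit 2) (nat_lit 6))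
    (@En.n l77 (nat_lit 12199) (nat_lit 3) (nat_lit 8))
    (@En.i (nat_lit 12720) (nat_lit 4) (nat_lit 3))
    (@En.n l20930 (nat_lit 12623) (nat_lit 0) (nat_lit 11))
    (@En.n l28 (nat_lit 9120) (nat_lit 6) (nat_lit 6))
    (@En.n l3039 (nat_lit 12392) (nat_lit 8) (nat_lit 13))
    (@En.n l476 (nat_lit 11963) (nat_lit 9) (nat_lit 10))
    (@En.n l152 (nat_lit 6373) (nat_lit 12) (nat_lit 4))
    (@En.i (nat_lit 12710) (nat_lit 10) (nat_lit 4))
    (@En.n l601 (nat_lit 6091) (nat_lit 12) (nat_lit 8))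
    (@En.i (nat_lit 9061) (nat_lit 13) (nat_lit 10))
    (@En.n l39309 (nat_lit 5956) (nat_lit 4) (nat_lit 12))
    (@En.i (nat_lit 11862) (nat_lit 10) (nat_lit 12))
    (@En.n l17 (nat_lit 12197) (nat_lit 15) (nat_lit 2))))
  (@Cl.mk (nat_lit 0x2000c000c0009000c00040004000a0004000d0007000c00030006000e0004) (nat_lit 0x977100309020050) (nat_lit 16) Lb.e (@T16.mk En
    (@En.i (nat_lit 12195) (nat_lit 5) (nat_lit 4))
    (@En.i (nat_lit 328) (nat_lit 1) (nat_lit 14))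
    (@En.i (nat_lit 5931) (nat_lit 12) (nat_lit 6))
    (@En.i (nat_lit 12201) (nat_lit 3) (nat_lit 3))
    (@En.i (nat_lit 12647) (nat_lit 0) (nat_lit 12))
    (@En.i (nat_lit 12199) (nat_lit 5) (nat_lit 7))
    (@En.i (nat_lit 12197) (nat_lit 7) (nat_lit 13))
    (@En.i (nat_lit 9245) (nat_lit 7) (nat_lit 4))
    (@En.n l476 (nat_lit 11959) (nat_lit 9) (nat_lit 10))
    (@En.n l152 (nat_lit 6372) (nat_lit 12) (nat_lit 4))
    (@En.i (nat_lit 12676) (nat_lit 10) (nat_lit 4))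
    (@En.i (nat_lit 1147) (nat_lit 6) (nat_lit 12))
    (@En.i (nat_lit 9060) (nat_lit 13) (nat_lit 9))
    (@En.n l1867 (nat_lit 12200) (nat_lit 4) (nat_lit 12))
    (@En.i (nat_lit 11863) (nat_lit 11) (nat_lit 12))
    (@En.n l17 (nat_lit 12198) (nat_lit 15) (nat_lit 2))))
  (@Cl.mk (nat_lit 0x2000b000b00090008000c00050005000b00040007000c00080005000e0004) (nat_lit 0x567420040055010) (nat_lit 16) Lb.e (@T16.mk En
    (@En.i (nat_lit 12196) (nat_lit 15) (nat_lit 4))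
    (@En.i (nat_lit 340) (nat_lit 1) (nat_lit 14))
    (@En.n l3506 (nat_lit 5928) (nat_lit 2) (nat_lit 5))
    (@En.i (nat_lit 12542) (nat_lit 3) (nat_lit 8))
    (@En.n l7 (nat_lit 12446) (nat_lit 5) (nat_lit 12))
    (@En.n l8434 (nat_lit 10036) (nat_lit 11) (nat_lit 7))
    (@En.i (nat_lit 9248) (nat_lit 6) (nat_lit 4))
    (@En.n l476 (nat_lit 11961) (nat_lit 8) (nat_lit 11))
    (@En.n l152 (nat_lit 6370) (nat_lit 11) (nat_lit 5))
    (@En.i (nat_lit 9288) (nat_lit 9) (nat_lit 5))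
    (@En.n l7 (nat_lit 12198) (nat_lit 11) (nat_lit 12))
    (@En.n l644 (nat_lit 12201) (nat_lit 12) (nat_lit 8))
    (@En.i (nat_lit 9064) (nat_lit 13) (nat_lit 9))
    (@En.n l1867 (nat_lit 12202) (nat_lit 5) (nat_lit 11))
    (@En.i (nat_lit 9921) (nat_lit 14) (nat_lit 11))
    (@En.n l17 (nat_lit 12199) (nat_lit 15) (nat_lit 2))))
  (@Cl.mk (nat_lit 0x2000a0005000d0008000c00030006000e00040002000c0008000b000e0004) (nat_lit 0x40a410050066150) (nat_lit 16) Lb.e (@T16.mk En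
    (@En.n l2869 (nat_lit 12198) (nat_lit 10) (nat_lit 4))
    (@En.n l1889 (nat_lit 5134) (nat_lit 4) (nat_lit 14))
    (@En.n l2579 (nat_lit 1145) (nat_lit 2) (nat_lit 11))
    (@En.n l998 (nat_lit 8189) (nat_lit 14) (nat_lit 8))
    (@En.n l1997 (nat_lit 8433) (nat_lit 11) (nat_lit 12))
    (@En.n l7 (nat_lit 12200) (nat_lit 5) (nat_lit 2))
    (@En.i (nat_lit 5678) (nat_lit 6) (nat_lit 4))
    (@En.n l1643 (nat_lit 329) (nat_lit 8) (nat_lit 14))
    (@En.i (nat_lit 5923) (nat_lit 12) (nat_lit 6))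
    (@En.i (nat_lit 12726) (nat_lit 9) (nat_lit 3))
    (@En.i (nat_lit 4035) (nat_lit 0) (nat_lit 12))
    (@En.i (nat_lit 12202) (nat_lit 12) (nat_lit 8))
    (@En.n l180 (nat_lit 5956) (nat_lit 13) (nat_lit 13))
    (@En.n l897 (nat_lit 5955) (nat_lit 14) (nat_lit 5))
    (@En.n l3337 (nat_lit 12172) (nat_lit 9) (nat_lit 10))
    (@En.n l17 (nat_lit 12200) (nat_lit 15) (nat_lit 2))))
  (@Cl.mk (nat_lit 0x2000c000c0008000c00040004000a0004000d000b000800030006000e0005) (nat_lit 0xa7320030a560050) (nat_lit 16) Lb.e (@T16.mk En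
    (@En.n l4172 (nat_lit 11811) (nat_lit 5) (nat_lit 5))
    (@En.i (nat_lit 324) (nat_lit 1) (nat_lit 14))
    (@En.i (nat_lit 8955) (nat_lit 12) (nat_lit 6))
    (@En.n l50 (nat_lit 12198) (nat_lit 3) (nat_lit 3))
    (@En.i (nat_lit 11343) (nat_lit 0) (nat_lit 8))
    (@En.i (nat_lit 12203) (nat_lit 6) (nat_lit 11))
    (@En.i (nat_lit 12720) (nat_lit 7) (nat_lit 13))
    (@En.i (nat_lit 9246) (nat_lit 7) (nat_lit 4))
    (@En.n l476 (nat_lit 11964) (nat_lit 9) (nat_lit 10))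
    (@En.n l152 (nat_lit 6374) (nat_lit 12) (nat_lit 4))
    (@En.i (nat_lit 12674) (nat_lit 10) (nat_lit 4))
    (@En.i (nat_lit 691) (nat_lit 12) (nat_lit 12))
    (@En.n l7865 (nat_lit 11585) (nat_lit 13) (nat_lit 8))
    (@En.n l1867 (nat_lit 12726) (nat_lit 4) (nat_lit 12))
    (@En.i (nat_lit 11864) (nat_lit 11) (nat_lit 12))
    (@En.n l17 (nat_lit 12201) (nat_lit 15) (nat_lit 2))))
  (@Cl.mk (nat_lit 0x2000b00050008000c00090005000e00040002000b00080007000b000e0005) (nat_lit 0x503970100560260) (nat_lit 16) Lb.e (@T16.mk En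
    (@En.n l2869 (nat_lit 12199) (nat_lit 9) (nat_lit 5))
    (@En.n l1758 (nat_lit 8971) (nat_lit 4) (nat_lit 14))
    (@En.n l107 (nat_lit 12200) (nat_lit 2) (nat_lit 11))
    (@En.n l575 (nat_lit 12726) (nat_lit 3) (nat_lit 7))
    (@En.n l13499 (nat_lit 8191) (nat_lit 14) (nat_lit 8))
    (@En.n l13500 (nat_lit 8430) (nat_lit 6) (nat_lit 11))
    (@En.n l7 (nat_lit 12202) (nat_lit 6) (nat_lit 2))
    (@En.i (nat_lit 5677) (nat_lit 7) (nat_lit 4))
    (@En.n l1643 (nat_lit 339) (nat_lit 9) (nat_lit 14))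
    (@En.n l1758 (nat_lit 5924) (nat_lit 9) (nat_lit 5))
    (@En.n l13501 (nat_lit 12545) (nat_lit 3) (nat_lit 9))
    (@En.n l1758 (nat_lit 12637) (nat_lit 12) (nat_lit 12))
    (@En.n l13499 (nat_lit 10035) (nat_lit 5) (nat_lit 8))
    (@En.n l897 (nat_lit 5509) (nat_lit 14) (nat_lit 5))
    (@En.n l3337 (nat_lit 10041) (nat_lit 8) (nat_lit 11))
    (@En.n l17 (nat_lit 12202) (nat_lit 15) (nat_lit 2))))
  (@Cl.mk (nat_lit 0x3000c000c0009000c00040004000b0004000b0007000c0005000d00050004) (nat_lit 0x5a5300204010400) (nat_lit 16) Lb.e (@T16.mk En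
    (@En.i (nat_lit 12198) (nat_lit 0) (nat_lit 4))
    (@En.i (nat_lit 12435) (nat_lit 0) (nat_lit 5))
    (@En.n l5856 (nat_lit 330) (nat_lit 1) (nat_lit 13))
    (@En.n l217 (nat_lit 8766) (nat_lit 3) (nat_lit 5))
    (@En.n l5856 (nat_lit 66) (nat_lit 2) (nat_lit 12))
    (@En.n l8760 (nat_lit 11892) (nat_lit 5) (nat_lit 7))
    (@En.i (nat_lit 10531) (nat_lit 12) (nat_lit 11))
    (@En.i (nat_lit 9247) (nat_lit 7) (nat_lit 4))
    (@En.n l476 (nat_lit 10682) (nat_lit 0) (nat_lit 11))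
    (@En.n l152 (nat_lit 12426) (nat_lit 12) (nat_lit 4))
    (@En.n l17700 (nat_lit 12409) (nat_lit 0) (nat_lit 4))
    (@En.i (nat_lit 1116) (nat_lit 6) (nat_lit 12))
    (@En.i (nat_lit 10139) (nat_lit 1) (nat_lit 9))
    (@En.n l1867 (nat_lit 12730) (nat_lit 4) (nat_lit 12))
    (@En.i (nat_lit 10639) (nat_lit 3) (nat_lit 12))
    (@En.i (nat_lit 12423) (nat_lit 13) (nat_lit 3))))
  (@Cl.mk (nat_lit 0x2000b00050009000d000a000500030009000d000700060003000b000e0007) (nat_lit 0x601270026000620) (nat_lit 16) Lb.e (@T16.mk En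
    (@En.n l18000 (nat_lit 12208) (nat_lit 7) (nat_lit 7))
    (@En.n l439 (nat_lit 6753) (nat_lit 4) (nat_lit 14))
    (@En.n l10436 (nat_lit 10777) (nat_lit 2) (nat_lit 11))
    (@En.n l7 (nat_lit 10978) (nat_lit 3) (nat_lit 3))
    (@En.n l323 (nat_lit 11375) (nat_lit 4) (nat_lit 6))
    (@En.n l6771 (nat_lit 10977) (nat_lit 5) (nat_lit 7))
    (@En.i (nat_lit 4413) (nat_lit 7) (nat_lit 13))
    (@En.n l287 (nat_lit 10665) (nat_lit 3) (nat_lit 9))
    (@En.n l11 (nat_lit 12205) (nat_lit 8) (nat_lit 3))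
    (@En.n l128 (nat_lit 3404) (nat_lit 0) (nat_lit 5))
    (@En.i (nat_lit 10915) (nat_lit 11) (nat_lit 10))
    (@En.n l128 (nat_lit 11923) (nat_lit 12) (nat_lit 13))
    (@En.n l129 (nat_lit 4710) (nat_lit 13) (nat_lit 9))
    (@En.n l23809 (nat_lit 10985) (nat_lit 14) (nat_lit 5))
    (@En.n l16798 (nat_lit 11615) (nat_lit 11) (nat_lit 11))
    (@En.n l17 (nat_lit 12204) (nat_lit 15) (nat_lit 2))))
  (@Cl.mk (nat_lit 0x2000c00050009000d0004000b00030009000d000700050003000b000e0007) (nat_lit 0x601304022000820) (nat_lit 16) Lb.e (@T16.mk En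
    (@En.i (nat_lit 12207) (nat_lit 7) (nat_lit 7))
    (@En.i (nat_lit 6747) (nat_lit 4) (nat_lit 14))
    (@En.n l391 (nat_lit 10779) (nat_lit 2) (nat_lit 11))
    (@En.n l7 (nat_lit 10983) (nat_lit 3) (nat_lit 3))
    (@En.n l1174 (nat_lit 12247) (nat_lit 0) (nat_lit 5))
    (@En.n l644 (nat_lit 10981) (nat_lit 5) (nat_lit 7))
    (@En.i (nat_lit 4411) (nat_lit 7) (nat_lit 13))
    (@En.n l2845 (nat_lit 10426) (nat_lit 3) (nat_lit 9))
    (@En.i (nat_lit 12204) (nat_lit 8) (nat_lit 3))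
    (@En.n l4851 (nat_lit 8160) (nat_lit 10) (nat_lit 11))
    (@En.n l2845 (nat_lit 11438) (nat_lit 10) (nat_lit 4))
    (@En.n l1329 (nat_lit 11919) (nat_lit 12) (nat_lit 13))
    (@En.n l2738 (nat_lit 4708) (nat_lit 13) (nat_lit 9))
    (@En.n l7213 (nat_lit 12206) (nat_lit 14) (nat_lit 5))
    (@En.n l16798 (nat_lit 11108) (nat_lit 11) (nat_lit 12))
    (@En.n l17 (nat_lit 12205) (nat_lit 15) (nat_lit 2))))
  (@Cl.mk (nat_lit 0x200050009000d0007000b00030008000d000700050003000b0009000e0008) (nat_lit 0x38020260008635) (nat_lit 16) Lb.e (@T16.mk En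
    (@En.n l965 (nat_lit 12213) (nat_lit 6) (nat_lit 8))
    (@En.n l3513 (nat_lit 12205) (nat_lit 1) (nat_lit 14))
    (@En.n l18492 (nat_lit 11435) (nat_lit 2) (nat_lit 9))
    (@En.n l306 (nat_lit 10780) (nat_lit 3) (nat_lit 11))
    (@En.n l29735 (nat_lit 10984) (nat_lit 4) (nat_lit 3))
    (@En.i (nat_lit 8112) (nat_lit 5) (nat_lit 5))
    (@En.n l29736 (nat_lit 10982) (nat_lit 6) (nat_lit 7))
    (@En.n l18492 (nat_lit 4422) (nat_lit 8) (nat_lit 13))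
    (@En.n l810 (nat_lit 10427) (nat_lit 9) (nat_lit 8))
    (@En.n l10307 (nat_lit 10985) (nat_lit 9) (nat_lit 3))
    (@En.i (nat_lit 8159) (nat_lit 11) (nat_lit 11))
    (@En.n l29737 (nat_lit 5289) (nat_lit 12) (nat_lit 7))
    (@En.n l11118 (nat_lit 12070) (nat_lit 13) (nat_lit 13))
    (@En.n l29738 (nat_lit 11006) (nat_lit 14) (nat_lit 9))
    (@En.n l8891 (nat_lit 11971) (nat_lit 13) (nat_lit 5))
    (@En.n l3 (nat_lit 12206) (nat_lit 15) (nat_lit 2))))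
  (@Cl.mk (nat_lit 0x300090009000d000800060003000c00070007000c00040008000d0004000a) (nat_lit 0x334200800604301) (nat_lit 16) Lb.e (@T16.mk En
    (@En.n l16770 (nat_lit 5298) (nat_lit 0) (nat_lit 10))
    (@En.n l2845 (nat_lit 11442) (nat_lit 7) (nat_lit 4))
    (@En.n l2843 (nat_lit 11022) (nat_lit 0) (nat_lit 13))
    (@En.n l2738 (nat_lit 10455) (nat_lit 3) (nat_lit 8))
    (@En.n l5036 (nat_lit 12213) (nat_lit 4) (nat_lit 4))
    (@En.n l7231 (nat_lit 10699) (nat_lit 0) (nat_lit 12))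
    (@En.n l21110 (nat_lit 11623) (nat_lit 9) (nat_lit 7))
    (@En.n l22484 (nat_lit 11951) (nat_lit 14) (nat_lit 7))
    (@En.n l42298 (nat_lit 10793) (nat_lit 9) (nat_lit 12))
    (@En.n l7 (nat_lit 12209) (nat_lit 9) (nat_lit 3))
    (@En.n l42299 (nat_lit 12256) (nat_lit 0) (nat_lit 6))
    (@En.n l644 (nat_lit 12212) (nat_lit 12) (nat_lit 8))
    (@En.n l2843 (nat_lit 10827) (nat_lit 13) (nat_lit 13))
    (@En.n l61 (nat_lit 12205) (nat_lit 7) (nat_lit 9))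
    (@En.n l7231 (nat_lit 9814) (nat_lit 4) (nat_lit 9))
    (@En.n l18000 (nat_lit 12208) (nat_lit 15) (nat_lit 3))))
noncomputable def a763 : T16 Cl := @T16.mk Cl
  (@Cl.mk (nat_lit 0x300090009000d000800070003000c00070007000b00040008000d00090005) (nat_lit 0x337600700601350) (nat_lit 16) Lb.e (@T16.mk En
    (@En.i (nat_lit 3407) (nat_lit 0) (nat_lit 5))
    (@En.n l20838 (nat_lit 10913) (nat_lit 13) (nat_lit 9))
    (@En.n l476 (nat_lit 11023) (nat_lit 9) (nat_lit 13))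
    (@En.n l39142 (nat_lit 71) (nat_lit 3) (nat_lit 8))
    (@En.n l10307 (nat_lit 12214) (nat_lit 4) (nat_lit 4))
    (@En.n l39143 (nat_lit 11626) (nat_lit 0) (nat_lit 11))
    (@En.n l61 (nat_lit 11601) (nat_lit 9) (nat_lit 7))
    (@En.n l2440 (nat_lit 11990) (nat_lit 14) (nat_lit 7))
    (@En.n l26920 (nat_lit 10116) (nat_lit 9) (nat_lit 12))
    (@En.n l24409 (nat_lit 12210) (nat_lit 9) (nat_lit 3))
    (@En.n l39144 (nat_lit 11751) (nat_lit 0) (nat_lit 7))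
    (@En.n l39145 (nat_lit 12211) (nat_lit 12) (nat_lit 8))
    (@En.n l39146 (nat_lit 10828) (nat_lit 13) (nat_lit 13))
    (@En.n l17294 (nat_lit 12204) (nat_lit 7) (nat_lit 9))
    (@En.n l20838 (nat_lit 10659) (nat_lit 4) (nat_lit 9))
    (@En.n l26917 (nat_lit 12207) (nat_lit 15) (nat_lit 3))))
  (@Cl.mk (nat_lit 0x300090009000d000500090003000c00070007000c00040007000d0004000b) (nat_lit 0x324010800600307) (nat_lit 16) Lb.e (@T16.mk En
    (@En.n l21111 (nat_lit 12522) (nat_lit 0) (nat_lit 11))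
    (@En.n l117 (nat_lit 11441) (nat_lit 7) (nat_lit 4))
    (@En.n l2843 (nat_lit 11019) (nat_lit 0) (nat_lit 13))
    (@En.n l253 (nat_lit 4519) (nat_lit 11) (nat_lit 7))
    (@En.n l5036 (nat_lit 12215) (nat_lit 4) (nat_lit 4))
    (@En.n l7231 (nat_lit 10696) (nat_lit 0) (nat_lit 12))
    (@En.n l21110 (nat_lit 11600) (nat_lit 9) (nat_lit 7))
    (@En.i (nat_lit 11629) (nat_lit 14) (nat_lit 7))
    (@En.i (nat_lit 12212) (nat_lit 9) (nat_lit 12))
    (@En.i (nat_lit 12207) (nat_lit 9) (nat_lit 3))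
    (@En.n l3187 (nat_lit 2454) (nat_lit 0) (nat_lit 9))
    (@En.i (nat_lit 11777) (nat_lit 6) (nat_lit 5))
    (@En.n l2843 (nat_lit 10822) (nat_lit 13) (nat_lit 13))
    (@En.n l61 (nat_lit 10983) (nat_lit 7) (nat_lit 9))
    (@En.n l7231 (nat_lit 9813) (nat_lit 4) (nat_lit 9))
    (@En.i (nat_lit 12210) (nat_lit 15) (nat_lit 3))))
  (@Cl.mk (nat_lit 0x300090009000d000600090003000c00070007000b00040007000d000a0005) (nat_lit 0x336010700400340) (nat_lit 16) Lb.e (@T16.mk En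
    (@En.n l37956 (nat_lit 3410) (nat_lit 0) (nat_lit 5))
    (@En.n l55 (nat_lit 11605) (nat_lit 13) (nat_lit 10))
    (@En.n l2843 (nat_lit 11021) (nat_lit 2) (nat_lit 13))
    (@En.n l4750 (nat_lit 3411) (nat_lit 11) (nat_lit 7))
    (@En.n l5046 (nat_lit 12216) (nat_lit 4) (nat_lit 4))
    (@En.n l7231 (nat_lit 11628) (nat_lit 0) (nat_lit 11))
    (@En.n l21110 (nat_lit 11597) (nat_lit 9) (nat_lit 7))
    (@En.n l6277 (nat_lit 12010) (nat_lit 14) (nat_lit 7))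
    (@En.n l37957 (nat_lit 12211) (nat_lit 9) (nat_lit 12))
    (@En.n l18000 (nat_lit 12208) (nat_lit 9) (nat_lit 3))
    (@En.n l37958 (nat_lit 2455) (nat_lit 9) (nat_lit 9))
    (@En.n l32498 (nat_lit 11802) (nat_lit 6) (nat_lit 6))
    (@En.n l2843 (nat_lit 10817) (nat_lit 13) (nat_lit 13))
    (@En.n l61 (nat_lit 10978) (nat_lit 7) (nat_lit 9))
    (@En.n l287 (nat_lit 10653) (nat_lit 4) (nat_lit 9))
    (@En.n l11 (nat_lit 12209) (nat_lit 15) (nat_lit 3))))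
  (@Cl.mk (nat_lit 0x3000a000a000800060009000c00060006000a000400080007000d000a0006) (nat_lit 0x335026005020370) (nat_lit 16) Lb.e (@T16.mk En
    (@En.n l32239 (nat_lit 4532) (nat_lit 0) (nat_lit 6))
    (@En.n l9885 (nat_lit 11606) (nat_lit 12) (nat_lit 10))
    (@En.n l42571 (nat_lit 11896) (nat_lit 2) (nat_lit 13))
    (@En.n l42572 (nat_lit 12210) (nat_lit 3) (nat_lit 7))
    (@En.n l42573 (nat_lit 11391) (nat_lit 11) (nat_lit 8))
    (@En.n l403 (nat_lit 12218) (nat_lit 5) (nat_lit 4))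
    (@En.n l4256 (nat_lit 11629) (nat_lit 0) (nat_lit 10))
    (@En.n l18 (nat_lit 11595) (nat_lit 10) (nat_lit 6))
    (@En.n l18108 (nat_lit 11859) (nat_lit 8) (nat_lit 6))
    (@En.i (nat_lit 10798) (nat_lit 6) (nat_lit 12))
    (@En.n l27807 (nat_lit 2459) (nat_lit 9) (nat_lit 9))
    (@En.n l1075 (nat_lit 10759) (nat_lit 10) (nat_lit 6))
    (@En.n l42574 (nat_lit 10709) (nat_lit 13) (nat_lit 8))
    (@En.n l18630 (nat_lit 10977) (nat_lit 6) (nat_lit 10))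
    (@En.n l40512 (nat_lit 10651) (nat_lit 2) (nat_lit 10))
    (@En.n l41552 (nat_lit 12212) (nat_lit 15) (nat_lit 3))))
  (@Cl.mk (nat_lit 0x3000a000a000800050009000c00060006000b000400080007000d0005000b) (nat_lit 0x321027005040408) (nat_lit 16) Lb.e (@T16.mk En
    (@En.n l42298 (nat_lit 12521) (nat_lit 0) (nat_lit 11))
    (@En.n l117 (nat_lit 11443) (nat_lit 5) (nat_lit 5))
    (@En.n l2843 (nat_lit 11821) (nat_lit 2) (nat_lit 13))
    (@En.n l50 (nat_lit 12209) (nat_lit 3) (nat_lit 7))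
    (@En.n l42857 (nat_lit 11389) (nat_lit 11) (nat_lit 8))
    (@En.n l24042 (nat_lit 12217) (nat_lit 5) (nat_lit 4))
    (@En.n l7231 (nat_lit 10694) (nat_lit 0) (nat_lit 11))
    (@En.n l21110 (nat_lit 11599) (nat_lit 10) (nat_lit 6))
    (@En.n l42858 (nat_lit 11861) (nat_lit 8) (nat_lit 6))
    (@En.n l42859 (nat_lit 10794) (nat_lit 6) (nat_lit 12))
    (@En.n l42860 (nat_lit 2456) (nat_lit 10) (nat_lit 9))
    (@En.n l42859 (nat_lit 11778) (nat_lit 5) (nat_lit 5))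
    (@En.n l42861 (nat_lit 10710) (nat_lit 13) (nat_lit 8))
    (@En.n l61 (nat_lit 10981) (nat_lit 6) (nat_lit 10))
    (@En.n l7231 (nat_lit 9812) (nat_lit 2) (nat_lit 10))
    (@En.n l37957 (nat_lit 12211) (nat_lit 15) (nat_lit 3))))
  (@Cl.mk (nat_lit 0x300080008000d000800060003000c000a0008000800040008000d0006000a) (nat_lit 0x43a200984406202) (nat_lit 16) Lb.e (@T16.mk En
    (@En.n l10179 (nat_lit 5297) (nat_lit 0) (nat_lit 10))
    (@En.n l41873 (nat_lit 5301) (nat_lit 7) (nat_lit 6))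
    (@En.n l28926 (nat_lit 4176) (nat_lit 2) (nat_lit 13))
    (@En.n l28776 (nat_lit 9998) (nat_lit 3) (nat_lit 8))
    (@En.n l12925 (nat_lit 11769) (nat_lit 4) (nat_lit 4))
    (@En.n l41874 (nat_lit 11625) (nat_lit 8) (nat_lit 8))
    (@En.n l649 (nat_lit 11770) (nat_lit 1) (nat_lit 8))
    (@En.n l41465 (nat_lit 10704) (nat_lit 14) (nat_lit 10))
    (@En.n l41875 (nat_lit 10790) (nat_lit 9) (nat_lit 12))
    (@En.n l18 (nat_lit 12215) (nat_lit 9) (nat_lit 3))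
    (@En.n l37210 (nat_lit 8113) (nat_lit 0) (nat_lit 6))
    (@En.n l41876 (nat_lit 12217) (nat_lit 12) (nat_lit 8))
    (@En.n l649 (nat_lit 10268) (nat_lit 13) (nat_lit 13))
    (@En.n l1154 (nat_lit 12206) (nat_lit 8) (nat_lit 8))
    (@En.n l55 (nat_lit 10054) (nat_lit 4) (nat_lit 8))
    (@En.n l27007 (nat_lit 12214) (nat_lit 15) (nat_lit 3))))
  (@Cl.mk (nat_lit 0x300080008000d000800070003000c00090008000800040008000d00090007) (nat_lit 0x337600774406460) (nat_lit 16) Lb.e (@T16.mk En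
    (@En.n l7081 (nat_lit 8182) (nat_lit 0) (nat_lit 7))
    (@En.n l41578 (nat_lit 12093) (nat_lit 13) (nat_lit 9))
    (@En.n l476 (nat_lit 12064) (nat_lit 2) (nat_lit 13))
    (@En.n l41579 (nat_lit 9997) (nat_lit 3) (nat_lit 8))
    (@En.n l40404 (nat_lit 11945) (nat_lit 4) (nat_lit 4))
    (@En.n l61 (nat_lit 12224) (nat_lit 8) (nat_lit 8))
    (@En.n l8628 (nat_lit 10551) (nat_lit 1) (nat_lit 8))
    (@En.n l7081 (nat_lit 10909) (nat_lit 14) (nat_lit 9))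
    (@En.n l38441 (nat_lit 10005) (nat_lit 9) (nat_lit 12))
    (@En.n l20805 (nat_lit 12216) (nat_lit 9) (nat_lit 3))
    (@En.n l7001 (nat_lit 8110) (nat_lit 0) (nat_lit 7))
    (@En.n l41580 (nat_lit 12218) (nat_lit 12) (nat_lit 8))
    (@En.n l33093 (nat_lit 10267) (nat_lit 13) (nat_lit 13))
    (@En.n l41581 (nat_lit 10985) (nat_lit 8) (nat_lit 8))
    (@En.n l41582 (nat_lit 9372) (nat_lit 4) (nat_lit 8))
    (@En.n l32572 (nat_lit 12213) (nat_lit 15) (nat_lit 3))))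
  (@Cl.mk (nat_lit 0x300080008000d000500090003000c000a0008000800040007000d0006000b) (nat_lit 0x236020984200507) (nat_lit 16) Lb.e (@T16.mk En
    (@En.n l5845 (nat_lit 12515) (nat_lit 0) (nat_lit 11))
    (@En.n l12924 (nat_lit 5172) (nat_lit 7) (nat_lit 6))
    (@En.n l29812 (nat_lit 11025) (nat_lit 2) (nat_lit 13))
    (@En.i (nat_lit 7806) (nat_lit 11) (nat_lit 7))
    (@En.n l12925 (nat_lit 11766) (nat_lit 4) (nat_lit 4))
    (@En.n l12926 (nat_lit 11624) (nat_lit 8) (nat_lit 8))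
    (@En.n l649 (nat_lit 11764) (nat_lit 1) (nat_lit 8))
    (@En.n l41465 (nat_lit 10702) (nat_lit 14) (nat_lit 10))
    (@En.n l38887 (nat_lit 12217) (nat_lit 9) (nat_lit 12))
    (@En.i (nat_lit 12213) (nat_lit 9) (nat_lit 3))
    (@En.n l12928 (nat_lit 2448) (nat_lit 0) (nat_lit 9))
    (@En.i (nat_lit 11091) (nat_lit 6) (nat_lit 5))
    (@En.n l649 (nat_lit 8814) (nat_lit 13) (nat_lit 13))
    (@En.n l2262 (nat_lit 10984) (nat_lit 8) (nat_lit 8))
    (@En.n l55 (nat_lit 10515) (nat_lit 4) (nat_lit 8))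
    (@En.n l12923 (nat_lit 12216) (nat_lit 15) (nat_lit 3))))
  (@Cl.mk (nat_lit 0x300080008000d000600090003000c00090008000800040007000d000a0007) (nat_lit 0x33a020771600260) (nat_lit 16) Lb.e (@T16.mk En
    (@En.i (nat_lit 8181) (nat_lit 0) (nat_lit 7))
    (@En.n l21237 (nat_lit 11610) (nat_lit 13) (nat_lit 10))
    (@En.n l16122 (nat_lit 12065) (nat_lit 2) (nat_lit 13))
    (@En.n l29007 (nat_lit 7804) (nat_lit 11) (nat_lit 7))
    (@En.n l26753 (nat_lit 11946) (nat_lit 4) (nat_lit 4))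
    (@En.n l77 (nat_lit 12219) (nat_lit 8) (nat_lit 8))
    (@En.i (nat_lit 10368) (nat_lit 1) (nat_lit 8))
    (@En.n l29008 (nat_lit 10906) (nat_lit 14) (nat_lit 9))
    (@En.n l28768 (nat_lit 12218) (nat_lit 9) (nat_lit 12))
    (@En.n l2943 (nat_lit 12214) (nat_lit 9) (nat_lit 3))
    (@En.n l4484 (nat_lit 2449) (nat_lit 9) (nat_lit 9))
    (@En.n l16260 (nat_lit 11738) (nat_lit 6) (nat_lit 6))
    (@En.n l15989 (nat_lit 10266) (nat_lit 13) (nat_lit 13))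
    (@En.n l24780 (nat_lit 10980) (nat_lit 8) (nat_lit 8))
    (@En.n l29007 (nat_lit 9369) (nat_lit 4) (nat_lit 8))
    (@En.n l12937 (nat_lit 12215) (nat_lit 15) (nat_lit 3))))
  (@Cl.mk (nat_lit 0x300090009000800050009000c000900070007000400080007000d0007000b) (nat_lit 0x221018700030602) (nat_lit 16) Lb.e (@T16.mk En
    (@En.n l3785 (nat_lit 12514) (nat_lit 0) (nat_lit 11))
    (@En.n l30629 (nat_lit 3159) (nat_lit 5) (nat_lit 7))
    (@En.n l39244 (nat_lit 10419) (nat_lit 2) (nat_lit 13))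
    (@En.n l39245 (nat_lit 12215) (nat_lit 3) (nat_lit 7))
    (@En.n l39246 (nat_lit 5437) (nat_lit 4) (nat_lit 8))
    (@En.n l39247 (nat_lit 11947) (nat_lit 5) (nat_lit 4))
    (@En.n l39248 (nat_lit 12222) (nat_lit 9) (nat_lit 7))
    (@En.n l39249 (nat_lit 10369) (nat_lit 1) (nat_lit 7))
    (@En.i (nat_lit 10276) (nat_lit 9) (nat_lit 9))
    (@En.n l3398 (nat_lit 5857) (nat_lit 6) (nat_lit 12))
    (@En.n l23959 (nat_lit 2107) (nat_lit 10) (nat_lit 9))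
    (@En.n l15953 (nat_lit 11093) (nat_lit 12) (nat_lit 5))
    (@En.n l39244 (nat_lit 10706) (nat_lit 8) (nat_lit 8))
    (@En.n l39250 (nat_lit 10982) (nat_lit 7) (nat_lit 9))
    (@En.n l39251 (nat_lit 10512) (nat_lit 2) (nat_lit 9))
    (@En.n l39252 (nat_lit 12218) (nat_lit 15) (nat_lit 3))))
  (@Cl.mk (nat_lit 0x300090009000800060009000c000800070007000400080007000d000a0008) (nat_lit 0x335026600030581) (nat_lit 16) Lb.e (@T16.mk En
    (@En.n l40860 (nat_lit 5268) (nat_lit 0) (nat_lit 8))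
    (@En.n l22961 (nat_lit 11609) (nat_lit 12) (nat_lit 10))
    (@En.n l40861 (nat_lit 10418) (nat_lit 2) (nat_lit 13))
    (@En.n l40848 (nat_lit 12216) (nat_lit 3) (nat_lit 7))
    (@En.n l27814 (nat_lit 6526) (nat_lit 4) (nat_lit 8))
    (@En.n l40862 (nat_lit 11944) (nat_lit 5) (nat_lit 4))
    (@En.n l40863 (nat_lit 12220) (nat_lit 9) (nat_lit 7))
    (@En.i (nat_lit 10367) (nat_lit 1) (nat_lit 7))
    (@En.n l40864 (nat_lit 11055) (nat_lit 9) (nat_lit 8))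
    (@En.i (nat_lit 5858) (nat_lit 6) (nat_lit 12))
    (@En.n l40865 (nat_lit 2401) (nat_lit 9) (nat_lit 9))
    (@En.i (nat_lit 11739) (nat_lit 10) (nat_lit 6))
    (@En.n l27807 (nat_lit 10707) (nat_lit 8) (nat_lit 8))
    (@En.n l40866 (nat_lit 10979) (nat_lit 7) (nat_lit 9))
    (@En.n l39863 (nat_lit 9368) (nat_lit 2) (nat_lit 9))
    (@En.n l16255 (nat_lit 12217) (nat_lit 15) (nat_lit 3))))
  (@Cl.mk (nat_lit 0x2000d0007000a0003000d000a000800030006000d000900060003000e0008) (nat_lit 0x602057500450084) (nat_lit 16) Lb.e (@T16.mk En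
    (@En.i (nat_lit 12216) (nat_lit 14) (nat_lit 8))
    (@En.n l134 (nat_lit 2603) (nat_lit 1) (nat_lit 14))
    (@En.n l11 (nat_lit 11624) (nat_lit 2) (nat_lit 3))
    (@En.i (nat_lit 12816) (nat_lit 3) (nat_lit 6))
    (@En.n l532 (nat_lit 12223) (nat_lit 4) (nat_lit 9))
    (@En.n l15973 (nat_lit 12066) (nat_lit 6) (nat_lit 13))
    (@En.i (nat_lit 12797) (nat_lit 12) (nat_lit 6))
    (@En.n l7630 (nat_lit 11597) (nat_lit 7) (nat_lit 3))
    (@En.i (nat_lit 10934) (nat_lit 0) (nat_lit 8))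
    (@En.i (nat_lit 10908) (nat_lit 10) (nat_lit 10))
    (@En.i (nat_lit 12220) (nat_lit 11) (nat_lit 13))
    (@En.n l2943 (nat_lit 12224) (nat_lit 11) (nat_lit 3))
    (@En.i (nat_lit 4868) (nat_lit 8) (nat_lit 10))
    (@En.i (nat_lit 12226) (nat_lit 14) (nat_lit 7))
    (@En.i (nat_lit 10714) (nat_lit 2) (nat_lit 13))
    (@En.n l7 (nat_lit 12219) (nat_lit 15) (nat_lit 2))))
  (@Cl.mk (nat_lit 0x200090007000a000d00090007000300070006000d000900070003000e0009) (nat_lit 0x301460000560094) (nat_lit 16) Lb.e (@T16.mk En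
    (@En.n l28768 (nat_lit 12218) (nat_lit 14) (nat_lit 9))
    (@En.n l134 (nat_lit 2604) (nat_lit 1) (nat_lit 14))
    (@En.n l11 (nat_lit 12222) (nat_lit 2) (nat_lit 3))
    (@En.n l28769 (nat_lit 12817) (nat_lit 3) (nat_lit 7))
    (@En.n l11802 (nat_lit 12221) (nat_lit 4) (nat_lit 9))
    (@En.n l15973 (nat_lit 11038) (nat_lit 6) (nat_lit 13))
    (@En.n l17 (nat_lit 12219) (nat_lit 6) (nat_lit 6))
    (@En.n l21874 (nat_lit 6533) (nat_lit 7) (nat_lit 7))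
    (@En.n l28770 (nat_lit 11595) (nat_lit 8) (nat_lit 3))
    (@En.n l3659 (nat_lit 10942) (nat_lit 0) (nat_lit 7))
    (@En.n l7290 (nat_lit 11593) (nat_lit 11) (nat_lit 9))
    (@En.n l3659 (nat_lit 7966) (nat_lit 12) (nat_lit 13))
    (@En.n l11072 (nat_lit 2105) (nat_lit 8) (nat_lit 10))
    (@En.n l11635 (nat_lit 12225) (nat_lit 14) (nat_lit 7))
    (@En.n l28771 (nat_lit 10380) (nat_lit 12) (nat_lit 9))
    (@En.n l7 (nat_lit 12220) (nat_lit 15) (nat_lit 2))))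
  (@Cl.mk (nat_lit 0x2000800070006000a000d000a000800030008000600090006000a000e0008) (nat_lit 0x300257302050683) (nat_lit 16) Lb.e (@T16.mk En
    (@En.n l18007 (nat_lit 11609) (nat_lit 9) (nat_lit 8))
    (@En.n l25503 (nat_lit 2602) (nat_lit 1) (nat_lit 14))
    (@En.n l8516 (nat_lit 8052) (nat_lit 2) (nat_lit 10))
    (@En.n l7490 (nat_lit 10869) (nat_lit 3) (nat_lit 6))
    (@En.i (nat_lit 11351) (nat_lit 4) (nat_lit 9))
    (@En.n l29587 (nat_lit 12223) (nat_lit 5) (nat_lit 6))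
    (@En.n l29588 (nat_lit 7724) (nat_lit 6) (nat_lit 8))
    (@En.n l29589 (nat_lit 11596) (nat_lit 7) (nat_lit 3))
    (@En.i (nat_lit 12318) (nat_lit 0) (nat_lit 8))
    (@En.n l29590 (nat_lit 11594) (nat_lit 10) (nat_lit 10))
    (@En.n l29591 (nat_lit 6504) (nat_lit 11) (nat_lit 13))
    (@En.n l4993 (nat_lit 12220) (nat_lit 12) (nat_lit 10))
    (@En.n l18234 (nat_lit 12222) (nat_lit 13) (nat_lit 6))
    (@En.n l29591 (nat_lit 11683) (nat_lit 14) (nat_lit 7))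
    (@En.n l18007 (nat_lit 10373) (nat_lit 6) (nat_lit 8))
    (@En.n l50 (nat_lit 12221) (nat_lit 15) (nat_lit 2))))
  (@Cl.mk (nat_lit 0x200090006000a000d000a0007000300070006000d0006000a0003000e0009) (nat_lit 0x601550000502093) (nat_lit 16) Lb.e (@T16.mk En
    (@En.n l24019 (nat_lit 12217) (nat_lit 14) (nat_lit 9))
    (@En.n l134 (nat_lit 12138) (nat_lit 1) (nat_lit 14))
    (@En.i (nat_lit 12220) (nat_lit 2) (nat_lit 3))
    (@En.n l24020 (nat_lit 12516) (nat_lit 3) (nat_lit 10))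
    (@En.n l117 (nat_lit 6545) (nat_lit 4) (nat_lit 6))
    (@En.n l3337 (nat_lit 11041) (nat_lit 6) (nat_lit 13))
    (@En.n l17 (nat_lit 11624) (nat_lit 6) (nat_lit 6))
    (@En.n l24021 (nat_lit 7725) (nat_lit 7) (nat_lit 7))
    (@En.n l7630 (nat_lit 11599) (nat_lit 8) (nat_lit 3))
    (@En.n l21052 (nat_lit 8031) (nat_lit 0) (nat_lit 7))
    (@En.n l24022 (nat_lit 11159) (nat_lit 11) (nat_lit 10))
    (@En.n l11635 (nat_lit 7968) (nat_lit 12) (nat_lit 13))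
    (@En.n l24023 (nat_lit 2100) (nat_lit 13) (nat_lit 10))
    (@En.n l11635 (nat_lit 12264) (nat_lit 14) (nat_lit 6))
    (@En.n l24024 (nat_lit 6224) (nat_lit 12) (nat_lit 9))
    (@En.n l7 (nat_lit 12222) (nat_lit 15) (nat_lit 2))))
  (@Cl.mk (nat_lit 0x2000c00070006000a0004000d000b00090003000600090005000a000e0007) (nat_lit 0x600306640040570) (nat_lit 16) Lb.e (@T16.mk En
    (@En.n l33419 (nat_lit 11610) (nat_lit 10) (nat_lit 7))
    (@En.i (nat_lit 2600) (nat_lit 1) (nat_lit 14))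
    (@En.n l38983 (nat_lit 8055) (nat_lit 2) (nat_lit 10))
    (@En.n l117 (nat_lit 10871) (nat_lit 3) (nat_lit 5))
    (@En.n l2039 (nat_lit 8106) (nat_lit 9) (nat_lit 9))
    (@En.i (nat_lit 12798) (nat_lit 5) (nat_lit 6))
    (@En.n l2402 (nat_lit 11598) (nat_lit 6) (nat_lit 3))
    (@En.n l575 (nat_lit 12317) (nat_lit 0) (nat_lit 9))
    (@En.n l6826 (nat_lit 10907) (nat_lit 9) (nat_lit 11))
    (@En.n l24727 (nat_lit 12221) (nat_lit 10) (nat_lit 13))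
    (@En.n l30843 (nat_lit 12095) (nat_lit 10) (nat_lit 4))
    (@En.n l245 (nat_lit 12219) (nat_lit 12) (nat_lit 10))
    (@En.n l5592 (nat_lit 11624) (nat_lit 13) (nat_lit 6))
    (@En.n l21352 (nat_lit 12227) (nat_lit 14) (nat_lit 7))
    (@En.n l217 (nat_lit 10715) (nat_lit 8) (nat_lit 12))
    (@En.n l28 (nat_lit 12223) (nat_lit 15) (nat_lit 2))))
noncomputable def a764 : T16 Cl := @T16.mk Cl
  (@Cl.mk (nat_lit 0x2000d000900080003000d000a000800030007000d000800060003000e0008) (nat_lit 0x544058300440084) (nat_lit 16) Lb.e (@T16.mk En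
    (@En.i (nat_lit 12214) (nat_lit 14) (nat_lit 8))
    (@En.n l5022 (nat_lit 2605) (nat_lit 1) (nat_lit 14))
    (@En.i (nat_lit 11625) (nat_lit 2) (nat_lit 3))
    (@En.n l7081 (nat_lit 12815) (nat_lit 3) (nat_lit 6))
    (@En.n l9882 (nat_lit 12095) (nat_lit 4) (nat_lit 8))
    (@En.n l476 (nat_lit 4172) (nat_lit 6) (nat_lit 13))
    (@En.n l28106 (nat_lit 9994) (nat_lit 6) (nat_lit 7))
    (@En.n l7081 (nat_lit 11601) (nat_lit 7) (nat_lit 3))
    (@En.n l8628 (nat_lit 10932) (nat_lit 0) (nat_lit 8))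
    (@En.n l7081 (nat_lit 10912) (nat_lit 10) (nat_lit 10))
    (@En.n l10991 (nat_lit 7971) (nat_lit 11) (nat_lit 13))
    (@En.n l20805 (nat_lit 12219) (nat_lit 11) (nat_lit 3))
    (@En.n l4758 (nat_lit 11749) (nat_lit 0) (nat_lit 8))
    (@En.n l21885 (nat_lit 12220) (nat_lit 14) (nat_lit 9))
    (@En.i (nat_lit 10830) (nat_lit 2) (nat_lit 13))
    (@En.n l17 (nat_lit 12224) (nat_lit 15) (nat_lit 2))))
  (@Cl.mk (nat_lit 0x20007000a000d000800060003000c0006000c0009000400080004000e000a) (nat_lit 0x634005065060a2) (nat_lit 16) Lb.e (@T16.mk En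
    (@En.n l2938 (nat_lit 11739) (nat_lit 12) (nat_lit 10))
    (@En.n l8727 (nat_lit 1426) (nat_lit 1) (nat_lit 14))
    (@En.n l18 (nat_lit 12264) (nat_lit 2) (nat_lit 4))
    (@En.n l15024 (nat_lit 12144) (nat_lit 3) (nat_lit 8))
    (@En.n l2351 (nat_lit 11710) (nat_lit 4) (nat_lit 4))
    (@En.n l61 (nat_lit 11683) (nat_lit 5) (nat_lit 9))
    (@En.n l15025 (nat_lit 12576) (nat_lit 7) (nat_lit 12))
    (@En.n l15026 (nat_lit 12226) (nat_lit 7) (nat_lit 6))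
    (@En.n l15027 (nat_lit 11326) (nat_lit 9) (nat_lit 12))
    (@En.n l11 (nat_lit 12229) (nat_lit 9) (nat_lit 3))
    (@En.n l2351 (nat_lit 12635) (nat_lit 0) (nat_lit 6))
    (@En.n l55 (nat_lit 12230) (nat_lit 12) (nat_lit 8))
    (@En.i (nat_lit 8844) (nat_lit 13) (nat_lit 13))
    (@En.n l2199 (nat_lit 9232) (nat_lit 8) (nat_lit 10))
    (@En.i (nat_lit 10673) (nat_lit 4) (nat_lit 7))
    (@En.n l3 (nat_lit 12225) (nat_lit 15) (nat_lit 2))))
  (@Cl.mk (nat_lit 0x20007000a0008000d0009000700030006000c0009000800070004000e0009) (nat_lit 0x73450007450092) (nat_lit 16) Lb.e (@T16.mk En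
    (@En.n l16260 (nat_lit 11738) (nat_lit 8) (nat_lit 9))
    (@En.n l134 (nat_lit 1428) (nat_lit 1) (nat_lit 14))
    (@En.n l11 (nat_lit 12263) (nat_lit 2) (nat_lit 4))
    (@En.n l2254 (nat_lit 12233) (nat_lit 3) (nat_lit 7))
    (@En.n l16078 (nat_lit 12224) (nat_lit 4) (nat_lit 8))
    (@En.n l16261 (nat_lit 12227) (nat_lit 5) (nat_lit 9))
    (@En.n l16079 (nat_lit 12643) (nat_lit 7) (nat_lit 12))
    (@En.n l16262 (nat_lit 5848) (nat_lit 7) (nat_lit 6))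
    (@En.n l16263 (nat_lit 12228) (nat_lit 8) (nat_lit 3))
    (@En.i (nat_lit 12652) (nat_lit 0) (nat_lit 7))
    (@En.n l3895 (nat_lit 9324) (nat_lit 11) (nat_lit 9))
    (@En.n l11635 (nat_lit 12225) (nat_lit 12) (nat_lit 13))
    (@En.n l15110 (nat_lit 11747) (nat_lit 13) (nat_lit 8))
    (@En.n l10937 (nat_lit 9236) (nat_lit 8) (nat_lit 10))
    (@En.n l16264 (nat_lit 10670) (nat_lit 5) (nat_lit 7))
    (@En.n l7 (nat_lit 12226) (nat_lit 15) (nat_lit 2))))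
  (@Cl.mk (nat_lit 0x200070005000a0009000d000a000800030006000900070006000b000e0008) (nat_lit 0x8456500300282) (nat_lit 16) Lb.e (@T16.mk En
    (@En.n l3098 (nat_lit 11736) (nat_lit 9) (nat_lit 8))
    (@En.n l21392 (nat_lit 1513) (nat_lit 4) (nat_lit 14))
    (@En.i (nat_lit 12032) (nat_lit 2) (nat_lit 11))
    (@En.n l9238 (nat_lit 12147) (nat_lit 3) (nat_lit 6))
    (@En.n l21393 (nat_lit 12105) (nat_lit 4) (nat_lit 7))
    (@En.i (nat_lit 11370) (nat_lit 5) (nat_lit 9))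
    (@En.n l21394 (nat_lit 5273) (nat_lit 6) (nat_lit 6))
    (@En.n l17863 (nat_lit 9333) (nat_lit 7) (nat_lit 3))
    (@En.n l21395 (nat_lit 12320) (nat_lit 0) (nat_lit 8))
    (@En.n l21396 (nat_lit 9325) (nat_lit 10) (nat_lit 10))
    (@En.n l10648 (nat_lit 11683) (nat_lit 11) (nat_lit 13))
    (@En.n l21395 (nat_lit 11678) (nat_lit 12) (nat_lit 9))
    (@En.n l21397 (nat_lit 12226) (nat_lit 13) (nat_lit 10))
    (@En.n l9240 (nat_lit 12231) (nat_lit 14) (nat_lit 5))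
    (@En.n l3106 (nat_lit 10671) (nat_lit 6) (nat_lit 7))
    (@En.n l17 (nat_lit 12227) (nat_lit 15) (nat_lit 2))))
  (@Cl.mk (nat_lit 0x20007000a0008000d0006000a00030006000c0009000800060004000e000a) (nat_lit 0x73502005520072) (nat_lit 16) Lb.e (@T16.mk En
    (@En.i (nat_lit 11802) (nat_lit 8) (nat_lit 10))
    (@En.n l1530 (nat_lit 1432) (nat_lit 1) (nat_lit 14))
    (@En.n l21301 (nat_lit 12261) (nat_lit 2) (nat_lit 4))
    (@En.n l21302 (nat_lit 7785) (nat_lit 3) (nat_lit 6))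
    (@En.n l3023 (nat_lit 11601) (nat_lit 4) (nat_lit 8))
    (@En.n l61 (nat_lit 9333) (nat_lit 5) (nat_lit 9))
    (@En.n l21303 (nat_lit 12644) (nat_lit 7) (nat_lit 12))
    (@En.n l8434 (nat_lit 9321) (nat_lit 7) (nat_lit 6))
    (@En.n l15026 (nat_lit 12226) (nat_lit 8) (nat_lit 3))
    (@En.n l21304 (nat_lit 2144) (nat_lit 0) (nat_lit 10))
    (@En.n l21305 (nat_lit 11117) (nat_lit 11) (nat_lit 6))
    (@En.n l7 (nat_lit 12229) (nat_lit 12) (nat_lit 13))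
    (@En.n l5911 (nat_lit 11745) (nat_lit 13) (nat_lit 8))
    (@En.n l21302 (nat_lit 9229) (nat_lit 8) (nat_lit 10))
    (@En.i (nat_lit 10676) (nat_lit 5) (nat_lit 7))
    (@En.n l3 (nat_lit 12228) (nat_lit 15) (nat_lit 2))))
  (@Cl.mk (nat_lit 0x20007000a000d000500090003000c0006000c0009000400070004000e000b) (nat_lit 0x64020506500082) (nat_lit 16) Lb.e (@T16.mk En
    (@En.i (nat_lit 10759) (nat_lit 12) (nat_lit 11))
    (@En.i (nat_lit 1430) (nat_lit 1) (nat_lit 14))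
    (@En.n l18 (nat_lit 12262) (nat_lit 2) (nat_lit 4))
    (@En.n l2199 (nat_lit 7788) (nat_lit 3) (nat_lit 7))
    (@En.n l3348 (nat_lit 11711) (nat_lit 4) (nat_lit 4))
    (@En.n l61 (nat_lit 11679) (nat_lit 5) (nat_lit 9))
    (@En.n l1353 (nat_lit 12577) (nat_lit 7) (nat_lit 12))
    (@En.i (nat_lit 12228) (nat_lit 7) (nat_lit 6))
    (@En.i (nat_lit 12230) (nat_lit 9) (nat_lit 12))
    (@En.i (nat_lit 12225) (nat_lit 9) (nat_lit 3))
    (@En.n l9556 (nat_lit 2430) (nat_lit 11) (nat_lit 9))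
    (@En.i (nat_lit 10647) (nat_lit 12) (nat_lit 5))
    (@En.i (nat_lit 8845) (nat_lit 13) (nat_lit 13))
    (@En.n l2199 (nat_lit 9228) (nat_lit 8) (nat_lit 10))
    (@En.i (nat_lit 10655) (nat_lit 4) (nat_lit 7))
    (@En.n l3 (nat_lit 12229) (nat_lit 15) (nat_lit 2))))
  (@Cl.mk (nat_lit 0x20008000b000800050009000c0005000b00080004000800070005000e000b) (nat_lit 0x363024035030012) (nat_lit 16) Lb.e (@T16.mk En
    (@En.i (nat_lit 11803) (nat_lit 11) (nat_lit 11))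
    (@En.i (nat_lit 1434) (nat_lit 1) (nat_lit 14))
    (@En.n l18 (nat_lit 10530) (nat_lit 2) (nat_lit 5))
    (@En.n l28 (nat_lit 12229) (nat_lit 3) (nat_lit 7))
    (@En.n l77 (nat_lit 12228) (nat_lit 4) (nat_lit 8))
    (@En.n l3348 (nat_lit 11712) (nat_lit 5) (nat_lit 4))
    (@En.n l61 (nat_lit 11676) (nat_lit 6) (nat_lit 8))
    (@En.n l29285 (nat_lit 12579) (nat_lit 8) (nat_lit 11))
    (@En.n l29286 (nat_lit 9324) (nat_lit 8) (nat_lit 5))
    (@En.n l3039 (nat_lit 5791) (nat_lit 6) (nat_lit 12))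
    (@En.n l10747 (nat_lit 2422) (nat_lit 11) (nat_lit 9))
    (@En.n l14299 (nat_lit 10763) (nat_lit 12) (nat_lit 5))
    (@En.n l9926 (nat_lit 9161) (nat_lit 13) (nat_lit 8))
    (@En.n l2199 (nat_lit 9226) (nat_lit 7) (nat_lit 11))
    (@En.i (nat_lit 10652) (nat_lit 2) (nat_lit 8))
    (@En.n l3 (nat_lit 12230) (nat_lit 15) (nat_lit 2))))
  (@Cl.mk (nat_lit 0x20005000a0009000d000a000700030006000c00070006000b0004000e0009) (nat_lit 0x85450006003093) (nat_lit 16) Lb.e (@T16.mk En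
    (@En.n l3766 (nat_lit 11740) (nat_lit 8) (nat_lit 9))
    (@En.n l3141 (nat_lit 12227) (nat_lit 1) (nat_lit 14))
    (@En.n l6478 (nat_lit 12226) (nat_lit 2) (nat_lit 4))
    (@En.n l3248 (nat_lit 12030) (nat_lit 3) (nat_lit 11))
    (@En.i (nat_lit 12232) (nat_lit 4) (nat_lit 6))
    (@En.n l7468 (nat_lit 12289) (nat_lit 5) (nat_lit 7))
    (@En.n l2572 (nat_lit 12268) (nat_lit 7) (nat_lit 12))
    (@En.n l7471 (nat_lit 5272) (nat_lit 7) (nat_lit 6))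
    (@En.n l3007 (nat_lit 12260) (nat_lit 8) (nat_lit 3))
    (@En.n l29740 (nat_lit 12653) (nat_lit 0) (nat_lit 7))
    (@En.n l3766 (nat_lit 9326) (nat_lit 11) (nat_lit 10))
    (@En.n l6698 (nat_lit 11684) (nat_lit 12) (nat_lit 13))
    (@En.n l7475 (nat_lit 11685) (nat_lit 13) (nat_lit 9))
    (@En.n l5473 (nat_lit 6378) (nat_lit 14) (nat_lit 10))
    (@En.i (nat_lit 11962) (nat_lit 13) (nat_lit 5))
    (@En.n l3 (nat_lit 12231) (nat_lit 15) (nat_lit 2))))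
  (@Cl.mk (nat_lit 0x200050009000d000c000a0003000800040007000d0006000b0003000e0008) (nat_lit 0x36670400505094) (nat_lit 16) Lb.e (@T16.mk En
    (@En.i (nat_lit 10560) (nat_lit 14) (nat_lit 8))
    (@En.i (nat_lit 12147) (nat_lit 1) (nat_lit 14))
    (@En.i (nat_lit 12233) (nat_lit 2) (nat_lit 3))
    (@En.n l3260 (nat_lit 2743) (nat_lit 3) (nat_lit 11))
    (@En.n l3506 (nat_lit 11735) (nat_lit 4) (nat_lit 6))
    (@En.n l2572 (nat_lit 12236) (nat_lit 6) (nat_lit 13))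
    (@En.n l7471 (nat_lit 5667) (nat_lit 6) (nat_lit 7))
    (@En.n l3506 (nat_lit 7781) (nat_lit 7) (nat_lit 4))
    (@En.i (nat_lit 10356) (nat_lit 9) (nat_lit 8))
    (@En.n l11219 (nat_lit 12145) (nat_lit 9) (nat_lit 3))
    (@En.i (nat_lit 9322) (nat_lit 11) (nat_lit 10))
    (@En.n l6698 (nat_lit 12143) (nat_lit 12) (nat_lit 12))
    (@En.n l1578 (nat_lit 8030) (nat_lit 13) (nat_lit 13))
    (@En.n l617 (nat_lit 3255) (nat_lit 14) (nat_lit 9))
    (@En.i (nat_lit 12133) (nat_lit 13) (nat_lit 5))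
    (@En.n l3 (nat_lit 12232) (nat_lit 15) (nat_lit 2))))
  (@Cl.mk (nat_lit 0x200060009000d000c00090003000800040007000d000a00070003000e0008) (nat_lit 0x27610600440061) (nat_lit 16) Lb.e (@T16.mk En
    (@En.i (nat_lit 54) (nat_lit 6) (nat_lit 8))
    (@En.n l3858 (nat_lit 6049) (nat_lit 1) (nat_lit 14))
    (@En.n l18 (nat_lit 12232) (nat_lit 2) (nat_lit 3))
    (@En.n l19472 (nat_lit 12818) (nat_lit 3) (nat_lit 7))
    (@En.n l61 (nat_lit 12147) (nat_lit 4) (nat_lit 10))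
    (@En.n l19473 (nat_lit 12234) (nat_lit 6) (nat_lit 13))
    (@En.n l7471 (nat_lit 5668) (nat_lit 6) (nat_lit 7))
    (@En.n l19474 (nat_lit 7785) (nat_lit 7) (nat_lit 4))
    (@En.i (nat_lit 9666) (nat_lit 0) (nat_lit 8))
    (@En.n l1547 (nat_lit 12146) (nat_lit 9) (nat_lit 3))
    (@En.i (nat_lit 9321) (nat_lit 11) (nat_lit 9))
    (@En.n l19475 (nat_lit 12144) (nat_lit 12) (nat_lit 12))
    (@En.n l17285 (nat_lit 10933) (nat_lit 13) (nat_lit 13))
    (@En.n l2199 (nat_lit 6072) (nat_lit 9) (nat_lit 9))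
    (@En.i (nat_lit 8253) (nat_lit 4) (nat_lit 6))
    (@En.n l3 (nat_lit 12233) (nat_lit 15) (nat_lit 2))))
  (@Cl.mk (nat_lit 0x200070005000d000c000a000300080004000d000900060003000b000e0008) (nat_lit 0x66202033002b5) (nat_lit 16) Lb.e (@T16.mk En
    (@En.n l33568 (nat_lit 10928) (nat_lit 6) (nat_lit 8))
    (@En.i (nat_lit 12333) (nat_lit 4) (nat_lit 14))
    (@En.n l13365 (nat_lit 12147) (nat_lit 2) (nat_lit 11))
    (@En.n l33569 (nat_lit 12236) (nat_lit 3) (nat_lit 3))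
    (@En.i (nat_lit 5609) (nat_lit 4) (nat_lit 6))
    (@En.n l27722 (nat_lit 8058) (nat_lit 5) (nat_lit 9))
    (@En.n l33570 (nat_lit 11486) (nat_lit 7) (nat_lit 13))
    (@En.n l8429 (nat_lit 12750) (nat_lit 7) (nat_lit 4))
    (@En.n l17188 (nat_lit 10170) (nat_lit 9) (nat_lit 8))
    (@En.n l33571 (nat_lit 12242) (nat_lit 9) (nat_lit 3))
    (@En.n l77 (nat_lit 5788) (nat_lit 0) (nat_lit 10))
    (@En.n l55 (nat_lit 12510) (nat_lit 12) (nat_lit 12))
    (@En.n l3447 (nat_lit 5801) (nat_lit 13) (nat_lit 13))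
    (@En.n l25188 (nat_lit 12235) (nat_lit 14) (nat_lit 5))
    (@En.n l27568 (nat_lit 11795) (nat_lit 4) (nat_lit 7))
    (@En.n l17 (nat_lit 12234) (nat_lit 15) (nat_lit 2))))
  (@Cl.mk (nat_lit 0x20005000d000c000a000300070004000d000c00060003000b0004000e0009) (nat_lit 0x653000b70060c6) (nat_lit 16) Lb.e (@T16.mk En
    (@En.n l61 (nat_lit 12006) (nat_lit 5) (nat_lit 9))
    (@En.n l17870 (nat_lit 12234) (nat_lit 1) (nat_lit 14))
    (@En.n l7575 (nat_lit 12503) (nat_lit 2) (nat_lit 4))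
    (@En.n l11228 (nat_lit 12232) (nat_lit 3) (nat_lit 11))
    (@En.n l28 (nat_lit 12237) (nat_lit 4) (nat_lit 3))
    (@En.n l16516 (nat_lit 6436) (nat_lit 5) (nat_lit 6))
    (@En.n l77 (nat_lit 12238) (nat_lit 7) (nat_lit 12))
    (@En.n l3519 (nat_lit 11419) (nat_lit 8) (nat_lit 13))
    (@En.n l6147 (nat_lit 9219) (nat_lit 8) (nat_lit 4))
    (@En.i (nat_lit 10163) (nat_lit 10) (nat_lit 7))
    (@En.n l11230 (nat_lit 12239) (nat_lit 10) (nat_lit 3))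
    (@En.n l2101 (nat_lit 5789) (nat_lit 12) (nat_lit 10))
    (@En.n l24153 (nat_lit 12244) (nat_lit 13) (nat_lit 12))
    (@En.n l72 (nat_lit 11310) (nat_lit 14) (nat_lit 13))
    (@En.n l6142 (nat_lit 12364) (nat_lit 13) (nat_lit 5))
    (@En.n l17 (nat_lit 12235) (nat_lit 15) (nat_lit 2))))
  (@Cl.mk (nat_lit 0x200060005000d000c000b000300080004000d0005000a0003000b000e0008) (nat_lit 0x66703040306b5) (nat_lit 16) Lb.e (@T16.mk En
    (@En.n l11132 (nat_lit 10929) (nat_lit 6) (nat_lit 8))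
    (@En.n l7666 (nat_lit 11068) (nat_lit 4) (nat_lit 14))
    (@En.n l3519 (nat_lit 1360) (nat_lit 2) (nat_lit 11))
    (@En.n l17870 (nat_lit 12234) (nat_lit 3) (nat_lit 3))
    (@En.n l7661 (nat_lit 9030) (nat_lit 4) (nat_lit 10))
    (@En.i (nat_lit 12604) (nat_lit 5) (nat_lit 5))
    (@En.n l3519 (nat_lit 11416) (nat_lit 7) (nat_lit 13))
    (@En.n l17871 (nat_lit 12749) (nat_lit 7) (nat_lit 4))
    (@En.i (nat_lit 10168) (nat_lit 9) (nat_lit 8))
    (@En.n l7664 (nat_lit 12241) (nat_lit 9) (nat_lit 3))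
    (@En.n l2101 (nat_lit 12752) (nat_lit 11) (nat_lit 11))
    (@En.n l7062 (nat_lit 12245) (nat_lit 12) (nat_lit 12))
    (@En.n l72 (nat_lit 5803) (nat_lit 13) (nat_lit 13))
    (@En.n l403 (nat_lit 12237) (nat_lit 14) (nat_lit 5))
    (@En.i (nat_lit 12411) (nat_lit 4) (nat_lit 6))
    (@En.n l17 (nat_lit 12236) (nat_lit 15) (nat_lit 2))))
  (@Cl.mk (nat_lit 0x20005000d000c000b000300070004000d0005000d0003000b0003000e0009) (nat_lit 0x756000a09050c4) (nat_lit 16) Lb.e (@T16.mk En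
    (@En.n l61 (nat_lit 12005) (nat_lit 5) (nat_lit 9))
    (@En.i (nat_lit 12236) (nat_lit 1) (nat_lit 14))
    (@En.i (nat_lit 12238) (nat_lit 2) (nat_lit 3))
    (@En.n l3519 (nat_lit 1364) (nat_lit 3) (nat_lit 11))
    (@En.i (nat_lit 12235) (nat_lit 4) (nat_lit 3))
    (@En.n l16049 (nat_lit 6070) (nat_lit 6) (nat_lit 13))
    (@En.i (nat_lit 12603) (nat_lit 6) (nat_lit 5))
    (@En.n l3519 (nat_lit 11412) (nat_lit 8) (nat_lit 13))
    (@En.n l6147 (nat_lit 12748) (nat_lit 8) (nat_lit 4))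
    (@En.i (nat_lit 10162) (nat_lit 10) (nat_lit 7))
    (@En.n l117 (nat_lit 12240) (nat_lit 10) (nat_lit 3))
    (@En.n l2101 (nat_lit 12753) (nat_lit 12) (nat_lit 11))
    (@En.n l7062 (nat_lit 12035) (nat_lit 13) (nat_lit 12))
    (@En.n l72 (nat_lit 11309) (nat_lit 14) (nat_lit 13))
    (@En.n l6142 (nat_lit 12362) (nat_lit 13) (nat_lit 5))
    (@En.n l17 (nat_lit 12237) (nat_lit 15) (nat_lit 2))))
  (@Cl.mk (nat_lit 0x20006000d000c000b000300070004000c0005000d000a00040003000e0009) (nat_lit 0x656000609400c6) (nat_lit 16) Lb.e (@T16.mk En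
    (@En.n l61 (nat_lit 12004) (nat_lit 5) (nat_lit 9))
    (@En.n l4127 (nat_lit 12330) (nat_lit 1) (nat_lit 14))
    (@En.n l7 (nat_lit 12237) (nat_lit 2) (nat_lit 3))
    (@En.n l7575 (nat_lit 12504) (nat_lit 3) (nat_lit 4))
    (@En.n l2781 (nat_lit 12236) (nat_lit 4) (nat_lit 10))
    (@En.n l7576 (nat_lit 6064) (nat_lit 6) (nat_lit 13))
    (@En.n l7577 (nat_lit 12605) (nat_lit 6) (nat_lit 5))
    (@En.n l3519 (nat_lit 11408) (nat_lit 8) (nat_lit 12))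
    (@En.n l7576 (nat_lit 12756) (nat_lit 8) (nat_lit 4))
    (@En.n l7578 (nat_lit 10167) (nat_lit 10) (nat_lit 7))
    (@En.n l4121 (nat_lit 12243) (nat_lit 10) (nat_lit 3))
    (@En.n l2101 (nat_lit 12754) (nat_lit 0) (nat_lit 11))
    (@En.n l7579 (nat_lit 12498) (nat_lit 13) (nat_lit 12))
    (@En.n l72 (nat_lit 11308) (nat_lit 14) (nat_lit 13))
    (@En.n l7580 (nat_lit 10774) (nat_lit 3) (nat_lit 6))
    (@En.n l17 (nat_lit 12238) (nat_lit 15) (nat_lit 2))))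
  (@Cl.mk (nat_lit 0x20005000d0009000d000300070003000d000c00070003000b0004000e0009) (nat_lit 0x664000b70060b6) (nat_lit 16) Lb.e (@T16.mk En
    (@En.n l982 (nat_lit 12007) (nat_lit 5) (nat_lit 9))
    (@En.n l110 (nat_lit 12242) (nat_lit 1) (nat_lit 14))
    (@En.n l117 (nat_lit 12501) (nat_lit 2) (nat_lit 4))
    (@En.n l8109 (nat_lit 12145) (nat_lit 3) (nat_lit 11))
    (@En.n l4084 (nat_lit 12240) (nat_lit 4) (nat_lit 3))
    (@En.i (nat_lit 8041) (nat_lit 5) (nat_lit 7))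
    (@En.n l146 (nat_lit 12243) (nat_lit 7) (nat_lit 12))
    (@En.n l79 (nat_lit 11487) (nat_lit 8) (nat_lit 13))
    (@En.n l10680 (nat_lit 12244) (nat_lit 8) (nat_lit 3))
    (@En.i (nat_lit 11915) (nat_lit 0) (nat_lit 7))
    (@En.n l4085 (nat_lit 12235) (nat_lit 10) (nat_lit 3))
    (@En.n l984 (nat_lit 3555) (nat_lit 12) (nat_lit 13))
    (@En.n l10681 (nat_lit 12641) (nat_lit 13) (nat_lit 9))
    (@En.n l1393 (nat_lit 11251) (nat_lit 14) (nat_lit 13))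
    (@En.n l10682 (nat_lit 12367) (nat_lit 13) (nat_lit 5))
    (@En.n l28 (nat_lit 12239) (nat_lit 15) (nat_lit 2))))
noncomputable def a765 : T16 Cl := @T16.mk Cl
  (@Cl.mk (nat_lit 0x20005000d000a000d000300070003000d0006000d0003000b0003000e0009) (nat_lit 0x764000a08020b4) (nat_lit 16) Lb.e (@T16.mk En
    (@En.n l61 (nat_lit 12017) (nat_lit 5) (nat_lit 9))
    (@En.n l7059 (nat_lit 12241) (nat_lit 1) (nat_lit 14))
    (@En.n l4005 (nat_lit 12243) (nat_lit 2) (nat_lit 3))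
    (@En.n l7060 (nat_lit 1365) (nat_lit 3) (nat_lit 11))
    (@En.n l4299 (nat_lit 12239) (nat_lit 4) (nat_lit 3))
    (@En.n l7061 (nat_lit 6068) (nat_lit 6) (nat_lit 13))
    (@En.n l4188 (nat_lit 12030) (nat_lit 6) (nat_lit 6))
    (@En.n l4298 (nat_lit 11413) (nat_lit 8) (nat_lit 13))
    (@En.n l7062 (nat_lit 12035) (nat_lit 8) (nat_lit 3))
    (@En.i (nat_lit 11919) (nat_lit 0) (nat_lit 7))
    (@En.n l152 (nat_lit 12237) (nat_lit 10) (nat_lit 3))
    (@En.n l7063 (nat_lit 3554) (nat_lit 12) (nat_lit 13))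
    (@En.n l97 (nat_lit 12349) (nat_lit 13) (nat_lit 10))
    (@En.n l7064 (nat_lit 11247) (nat_lit 14) (nat_lit 13))
    (@En.n l7065 (nat_lit 12044) (nat_lit 13) (nat_lit 5))
    (@En.n l17 (nat_lit 12240) (nat_lit 15) (nat_lit 2))))
  (@Cl.mk (nat_lit 0x200060005000d000a000d000300080003000d0006000a0003000b000e0008) (nat_lit 0x77506050302a3) (nat_lit 16) Lb.e (@T16.mk En
    (@En.n l3508 (nat_lit 10927) (nat_lit 6) (nat_lit 8))
    (@En.i (nat_lit 12332) (nat_lit 4) (nat_lit 14))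
    (@En.n l7250 (nat_lit 1362) (nat_lit 2) (nat_lit 11))
    (@En.n l7251 (nat_lit 12242) (nat_lit 3) (nat_lit 3))
    (@En.i (nat_lit 9029) (nat_lit 4) (nat_lit 10))
    (@En.n l7252 (nat_lit 12032) (nat_lit 5) (nat_lit 6))
    (@En.n l4106 (nat_lit 11417) (nat_lit 7) (nat_lit 13))
    (@En.n l7253 (nat_lit 12245) (nat_lit 7) (nat_lit 3))
    (@En.n l1720 (nat_lit 11921) (nat_lit 0) (nat_lit 8))
    (@En.n l4107 (nat_lit 12236) (nat_lit 9) (nat_lit 3))
    (@En.n l7034 (nat_lit 3556) (nat_lit 11) (nat_lit 13))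
    (@En.n l7254 (nat_lit 12268) (nat_lit 12) (nat_lit 10))
    (@En.n l2790 (nat_lit 5804) (nat_lit 13) (nat_lit 13))
    (@En.n l7255 (nat_lit 12240) (nat_lit 14) (nat_lit 5))
    (@En.n l7256 (nat_lit 12406) (nat_lit 4) (nat_lit 6))
    (@En.n l17 (nat_lit 12241) (nat_lit 15) (nat_lit 2))))
  (@Cl.mk (nat_lit 0x200070005000d0009000d000300080003000d000900070003000b000e0008) (nat_lit 0xa5506043002a4) (nat_lit 16) Lb.e (@T16.mk En
    (@En.n l982 (nat_lit 10926) (nat_lit 6) (nat_lit 8))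
    (@En.n l11491 (nat_lit 12335) (nat_lit 4) (nat_lit 14))
    (@En.n l11325 (nat_lit 12141) (nat_lit 2) (nat_lit 11))
    (@En.n l17807 (nat_lit 12241) (nat_lit 3) (nat_lit 3))
    (@En.n l11491 (nat_lit 8040) (nat_lit 0) (nat_lit 7))
    (@En.n l13163 (nat_lit 8052) (nat_lit 5) (nat_lit 9))
    (@En.n l8982 (nat_lit 11488) (nat_lit 7) (nat_lit 13))
    (@En.n l11491 (nat_lit 12510) (nat_lit 7) (nat_lit 3))
    (@En.i (nat_lit 11922) (nat_lit 0) (nat_lit 8))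
    (@En.n l11491 (nat_lit 12234) (nat_lit 9) (nat_lit 3))
    (@En.n l4159 (nat_lit 2571) (nat_lit 0) (nat_lit 13))
    (@En.n l11493 (nat_lit 12643) (nat_lit 12) (nat_lit 9))
    (@En.n l1393 (nat_lit 5800) (nat_lit 13) (nat_lit 13))
    (@En.i (nat_lit 12239) (nat_lit 14) (nat_lit 5))
    (@En.n l17808 (nat_lit 11797) (nat_lit 4) (nat_lit 7))
    (@En.n l28 (nat_lit 12242) (nat_lit 15) (nat_lit 2))))
  (@Cl.mk (nat_lit 0x20006000d000a000d000300070003000c0006000d000a00040003000e0009) (nat_lit 0x964000609400b4) (nat_lit 16) Lb.e (@T16.mk En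
    (@En.n l1220 (nat_lit 12018) (nat_lit 5) (nat_lit 9))
    (@En.n l2525 (nat_lit 12312) (nat_lit 1) (nat_lit 14))
    (@En.n l1344 (nat_lit 12240) (nat_lit 2) (nat_lit 3))
    (@En.i (nat_lit 12502) (nat_lit 3) (nat_lit 4))
    (@En.n l2526 (nat_lit 12241) (nat_lit 4) (nat_lit 10))
    (@En.n l2527 (nat_lit 6066) (nat_lit 6) (nat_lit 13))
    (@En.i (nat_lit 12034) (nat_lit 6) (nat_lit 6))
    (@En.n l1345 (nat_lit 11012) (nat_lit 8) (nat_lit 12))
    (@En.n l2528 (nat_lit 12498) (nat_lit 8) (nat_lit 3))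
    (@En.i (nat_lit 11923) (nat_lit 0) (nat_lit 7))
    (@En.n l1346 (nat_lit 12238) (nat_lit 10) (nat_lit 3))
    (@En.n l2529 (nat_lit 3553) (nat_lit 0) (nat_lit 13))
    (@En.n l11 (nat_lit 12347) (nat_lit 13) (nat_lit 10))
    (@En.n l2530 (nat_lit 11249) (nat_lit 14) (nat_lit 13))
    (@En.n l2531 (nat_lit 10775) (nat_lit 3) (nat_lit 6))
    (@En.n l3 (nat_lit 12243) (nat_lit 15) (nat_lit 2))))
  (@Cl.mk (nat_lit 0x20005000c0009000d000600040003000d000c00070003000b0004000e000a) (nat_lit 0x455000b70030b6) (nat_lit 16) Lb.e (@T16.mk En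
    (@En.n l18433 (nat_lit 12059) (nat_lit 12) (nat_lit 10))
    (@En.n l8409 (nat_lit 12510) (nat_lit 1) (nat_lit 14))
    (@En.n l2593 (nat_lit 12499) (nat_lit 2) (nat_lit 4))
    (@En.n l18434 (nat_lit 12143) (nat_lit 3) (nat_lit 11))
    (@En.n l7615 (nat_lit 12035) (nat_lit 4) (nat_lit 3))
    (@En.n l97 (nat_lit 8042) (nat_lit 5) (nat_lit 7))
    (@En.n l1106 (nat_lit 12498) (nat_lit 7) (nat_lit 12))
    (@En.n l18435 (nat_lit 12792) (nat_lit 8) (nat_lit 13))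
    (@En.n l14399 (nat_lit 12239) (nat_lit 8) (nat_lit 3))
    (@En.i (nat_lit 12744) (nat_lit 9) (nat_lit 4))
    (@En.n l18436 (nat_lit 12025) (nat_lit 11) (nat_lit 6))
    (@En.n l5021 (nat_lit 3547) (nat_lit 12) (nat_lit 13))
    (@En.n l18437 (nat_lit 12642) (nat_lit 13) (nat_lit 9))
    (@En.i (nat_lit 7911) (nat_lit 14) (nat_lit 12))
    (@En.n l5825 (nat_lit 12368) (nat_lit 13) (nat_lit 5))
    (@En.n l28 (nat_lit 12244) (nat_lit 15) (nat_lit 2))))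
  (@Cl.mk (nat_lit 0x200060005000c000a000d000700040003000d0006000a0003000b000e0009) (nat_lit 0x57600050407a5) (nat_lit 16) Lb.e (@T16.mk En
    (@En.n l14371 (nat_lit 10925) (nat_lit 13) (nat_lit 9))
    (@En.n l4777 (nat_lit 11069) (nat_lit 4) (nat_lit 14))
    (@En.i (nat_lit 1359) (nat_lit 2) (nat_lit 11))
    (@En.n l14372 (nat_lit 12510) (nat_lit 3) (nat_lit 3))
    (@En.n l7643 (nat_lit 9031) (nat_lit 4) (nat_lit 10))
    (@En.i (nat_lit 12031) (nat_lit 5) (nat_lit 6))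
    (@En.n l4064 (nat_lit 12795) (nat_lit 7) (nat_lit 13))
    (@En.n l10274 (nat_lit 12241) (nat_lit 7) (nat_lit 3))
    (@En.n l1253 (nat_lit 12745) (nat_lit 8) (nat_lit 4))
    (@En.n l14301 (nat_lit 10898) (nat_lit 10) (nat_lit 7))
    (@En.i (nat_lit 3549) (nat_lit 11) (nat_lit 13))
    (@En.n l1722 (nat_lit 12267) (nat_lit 12) (nat_lit 10))
    (@En.n l766 (nat_lit 7548) (nat_lit 13) (nat_lit 12))
    (@En.n l17 (nat_lit 12035) (nat_lit 14) (nat_lit 5))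
    (@En.n l14373 (nat_lit 12412) (nat_lit 13) (nat_lit 6))
    (@En.n l3 (nat_lit 12245) (nat_lit 15) (nat_lit 2))))
  (@Cl.mk (nat_lit 0x2000b0005000c0009000d000500040003000a000e00070002000b000e0006) (nat_lit 0x408230005300720) (nat_lit 16) Lb.e (@T16.mk En
    (@En.n l16770 (nat_lit 11707) (nat_lit 13) (nat_lit 6))
    (@En.i (nat_lit 1332) (nat_lit 4) (nat_lit 14))
    (@En.n l3224 (nat_lit 8906) (nat_lit 2) (nat_lit 11))
    (@En.n l7 (nat_lit 12246) (nat_lit 3) (nat_lit 2))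
    (@En.n l6771 (nat_lit 11702) (nat_lit 4) (nat_lit 7))
    (@En.i (nat_lit 2423) (nat_lit 6) (nat_lit 14))
    (@En.n l1174 (nat_lit 9621) (nat_lit 2) (nat_lit 10))
    (@En.n l323 (nat_lit 11373) (nat_lit 7) (nat_lit 3))
    (@En.n l16771 (nat_lit 12248) (nat_lit 0) (nat_lit 4))
    (@En.n l1174 (nat_lit 8050) (nat_lit 5) (nat_lit 5))
    (@En.n l16772 (nat_lit 973) (nat_lit 7) (nat_lit 13))
    (@En.i (nat_lit 12205) (nat_lit 12) (nat_lit 9))
    (@En.n l16772 (nat_lit 11640) (nat_lit 9) (nat_lit 12))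
    (@En.n l7213 (nat_lit 8108) (nat_lit 14) (nat_lit 5))
    (@En.n l16773 (nat_lit 10907) (nat_lit 11) (nat_lit 11))
    (@En.n l17 (nat_lit 12246) (nat_lit 15) (nat_lit 2))))
  (@Cl.mk (nat_lit 0x2000b000e00060002000c0005000c000c0004000b00040004000a000e0005) (nat_lit 0x7300a0370600360) (nat_lit 16) Lb.e (@T16.mk En
    (@En.n l31641 (nat_lit 12087) (nat_lit 4) (nat_lit 5))
    (@En.n l1186 (nat_lit 2858) (nat_lit 6) (nat_lit 14))
    (@En.i (nat_lit 8098) (nat_lit 2) (nat_lit 10))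
    (@En.n l9860 (nat_lit 12091) (nat_lit 12) (nat_lit 4))
    (@En.n l1186 (nat_lit 12246) (nat_lit 8) (nat_lit 4))
    (@En.n l7457 (nat_lit 5545) (nat_lit 10) (nat_lit 11))
    (@En.i (nat_lit 8047) (nat_lit 6) (nat_lit 4))
    (@En.n l18259 (nat_lit 12248) (nat_lit 4) (nat_lit 12))
    (@En.n l19712 (nat_lit 8051) (nat_lit 9) (nat_lit 12))
    (@En.n l10674 (nat_lit 8112) (nat_lit 14) (nat_lit 5))
    (@En.n l31642 (nat_lit 8054) (nat_lit 11) (nat_lit 12))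
    (@En.n l11 (nat_lit 12247) (nat_lit 11) (nat_lit 2))
    (@En.n l31643 (nat_lit 12256) (nat_lit 13) (nat_lit 6))
    (@En.n l2038 (nat_lit 2707) (nat_lit 4) (nat_lit 14))
    (@En.n l31644 (nat_lit 8904) (nat_lit 2) (nat_lit 11))
    (@En.n l17 (nat_lit 12247) (nat_lit 15) (nat_lit 2))))
  (@Cl.mk (nat_lit 0x2000a000e00060002000b000e00060002000d0005000c0003000a000e0004) (nat_lit 0x310083009060140) (nat_lit 16) Lb.e (@T16.mk En
    (@En.n l17663 (nat_lit 12247) (nat_lit 4) (nat_lit 4))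
    (@En.n l24906 (nat_lit 694) (nat_lit 6) (nat_lit 14))
    (@En.i (nat_lit 5551) (nat_lit 11) (nat_lit 10))
    (@En.i (nat_lit 12249) (nat_lit 3) (nat_lit 3))
    (@En.n l24906 (nat_lit 11636) (nat_lit 9) (nat_lit 12))
    (@En.n l5137 (nat_lit 12250) (nat_lit 14) (nat_lit 5))
    (@En.n l1770 (nat_lit 8047) (nat_lit 7) (nat_lit 13))
    (@En.n l3 (nat_lit 12248) (nat_lit 7) (nat_lit 2))
    (@En.n l1769 (nat_lit 12252) (nat_lit 8) (nat_lit 6))
    (@En.n l17675 (nat_lit 2706) (nat_lit 10) (nat_lit 14))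
    (@En.n l17676 (nat_lit 8902) (nat_lit 11) (nat_lit 11))
    (@En.n l11 (nat_lit 12248) (nat_lit 11) (nat_lit 2))
    (@En.n l24907 (nat_lit 12251) (nat_lit 13) (nat_lit 6))
    (@En.n l3062 (nat_lit 2854) (nat_lit 6) (nat_lit 14))
    (@En.n l17663 (nat_lit 7398) (nat_lit 2) (nat_lit 10))
    (@En.n l17 (nat_lit 12248) (nat_lit 15) (nat_lit 2))))
  (@Cl.mk (nat_lit 0x2000a000e00060002000a000e00060002000d000b00060003000a000e0005) (nat_lit 0x31005300a500220) (nat_lit 16) Lb.e (@T16.mk En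
    (@En.n l17663 (nat_lit 10999) (nat_lit 4) (nat_lit 5))
    (@En.n l17671 (nat_lit 685) (nat_lit 6) (nat_lit 14))
    (@En.n l17672 (nat_lit 11233) (nat_lit 11) (nat_lit 10))
    (@En.n l50 (nat_lit 12248) (nat_lit 3) (nat_lit 3))
    (@En.n l17673 (nat_lit 2114) (nat_lit 4) (nat_lit 6))
    (@En.n l17674 (nat_lit 12246) (nat_lit 14) (nat_lit 11))
    (@En.n l1770 (nat_lit 8050) (nat_lit 7) (nat_lit 13))
    (@En.n l3 (nat_lit 12249) (nat_lit 7) (nat_lit 2))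
    (@En.n l1769 (nat_lit 12254) (nat_lit 8) (nat_lit 6))
    (@En.n l17675 (nat_lit 2697) (nat_lit 10) (nat_lit 14))
    (@En.n l17676 (nat_lit 12798) (nat_lit 11) (nat_lit 10))
    (@En.n l11 (nat_lit 12249) (nat_lit 11) (nat_lit 2))
    (@En.n l17677 (nat_lit 12253) (nat_lit 13) (nat_lit 6))
    (@En.n l3062 (nat_lit 2857) (nat_lit 1) (nat_lit 14))
    (@En.n l17663 (nat_lit 7401) (nat_lit 2) (nat_lit 10))
    (@En.n l17 (nat_lit 12249) (nat_lit 15) (nat_lit 2))))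
  (@Cl.mk (nat_lit 0x20005000c0006000a000e000400020009000e00060002000b000a000e0007) (nat_lit 0xa0110031004640) (nat_lit 16) Lb.e (@T16.mk En
    (@En.n l4505 (nat_lit 8070) (nat_lit 7) (nat_lit 7))
    (@En.n l9591 (nat_lit 12248) (nat_lit 9) (nat_lit 14))
    (@En.n l17738 (nat_lit 12249) (nat_lit 10) (nat_lit 10))
    (@En.n l8226 (nat_lit 8896) (nat_lit 3) (nat_lit 11))
    (@En.n l11 (nat_lit 12250) (nat_lit 4) (nat_lit 2))
    (@En.n l17739 (nat_lit 12255) (nat_lit 5) (nat_lit 6))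
    (@En.n l17740 (nat_lit 2853) (nat_lit 7) (nat_lit 14))
    (@En.n l9644 (nat_lit 7399) (nat_lit 2) (nat_lit 9))
    (@En.n l17 (nat_lit 12250) (nat_lit 8) (nat_lit 2))
    (@En.n l17741 (nat_lit 8112) (nat_lit 9) (nat_lit 4))
    (@En.i (nat_lit 971) (nat_lit 11) (nat_lit 14))
    (@En.n l9642 (nat_lit 5550) (nat_lit 12) (nat_lit 10))
    (@En.n l9646 (nat_lit 4777) (nat_lit 13) (nat_lit 6))
    (@En.n l3902 (nat_lit 10783) (nat_lit 9) (nat_lit 12))
    (@En.n l8932 (nat_lit 12780) (nat_lit 13) (nat_lit 5))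
    (@En.n l476 (nat_lit 12250) (nat_lit 15) (nat_lit 2))))
  (@Cl.mk (nat_lit 0x2000b00060006000b000e00050002000d0005000b0003000a000a000e0005) (nat_lit 0x300220080707250) (nat_lit 16) Lb.e (@T16.mk En
    (@En.n l11074 (nat_lit 12087) (nat_lit 7) (nat_lit 5))
    (@En.n l3193 (nat_lit 12657) (nat_lit 9) (nat_lit 14))
    (@En.n l17714 (nat_lit 12248) (nat_lit 2) (nat_lit 10))
    (@En.n l12877 (nat_lit 11130) (nat_lit 11) (nat_lit 10))
    (@En.n l20916 (nat_lit 12253) (nat_lit 4) (nat_lit 3))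
    (@En.n l3193 (nat_lit 10122) (nat_lit 0) (nat_lit 11))
    (@En.i (nat_lit 12255) (nat_lit 14) (nat_lit 5))
    (@En.n l20917 (nat_lit 8055) (nat_lit 8) (nat_lit 13))
    (@En.n l17 (nat_lit 12251) (nat_lit 8) (nat_lit 2))
    (@En.n l3187 (nat_lit 11064) (nat_lit 9) (nat_lit 5))
    (@En.n l12877 (nat_lit 2705) (nat_lit 4) (nat_lit 14))
    (@En.i (nat_lit 5877) (nat_lit 2) (nat_lit 11))
    (@En.n l1620 (nat_lit 11063) (nat_lit 13) (nat_lit 6))
    (@En.n l12877 (nat_lit 12100) (nat_lit 14) (nat_lit 6))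
    (@En.n l12472 (nat_lit 7400) (nat_lit 10) (nat_lit 11))
    (@En.n l7 (nat_lit 12251) (nat_lit 15) (nat_lit 2))))
  (@Cl.mk (nat_lit 0x2000a000a000e00070002000c00060006000d0004000c00030009000e0004) (nat_lit 0x748003009040240) (nat_lit 16) Lb.e (@T16.mk En
    (@En.n l15793 (nat_lit 12256) (nat_lit 5) (nat_lit 4))
    (@En.n l15796 (nat_lit 2995) (nat_lit 7) (nat_lit 14))
    (@En.i (nat_lit 5652) (nat_lit 2) (nat_lit 9))
    (@En.i (nat_lit 12254) (nat_lit 3) (nat_lit 3))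
    (@En.n l6457 (nat_lit 11633) (nat_lit 10) (nat_lit 12))
    (@En.n l23014 (nat_lit 8070) (nat_lit 5) (nat_lit 4))
    (@En.n l10020 (nat_lit 8046) (nat_lit 7) (nat_lit 13))
    (@En.n l152 (nat_lit 12614) (nat_lit 13) (nat_lit 6))
    (@En.n l2225 (nat_lit 10742) (nat_lit 14) (nat_lit 6))
    (@En.n l15797 (nat_lit 8895) (nat_lit 10) (nat_lit 12))
    (@En.n l11 (nat_lit 12252) (nat_lit 10) (nat_lit 2))
    (@En.n l5066 (nat_lit 11064) (nat_lit 12) (nat_lit 7))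
    (@En.n l15796 (nat_lit 12496) (nat_lit 13) (nat_lit 14))
    (@En.n l5870 (nat_lit 12248) (nat_lit 14) (nat_lit 10))
    (@En.n l8844 (nat_lit 9268) (nat_lit 3) (nat_lit 10))
    (@En.n l17 (nat_lit 12252) (nat_lit 15) (nat_lit 2))))
  (@Cl.mk (nat_lit 0x2000b00060006000a000e00050002000d000a00060003000a000a000e0006) (nat_lit 0x3004c0097005310) (nat_lit 16) Lb.e (@T16.mk En
    (@En.n l7531 (nat_lit 10995) (nat_lit 7) (nat_lit 6))
    (@En.n l21113 (nat_lit 24) (nat_lit 1) (nat_lit 14))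
    (@En.n l21114 (nat_lit 12249) (nat_lit 2) (nat_lit 10))
    (@En.n l9130 (nat_lit 11231) (nat_lit 11) (nat_lit 10))
    (@En.n l21115 (nat_lit 12251) (nat_lit 4) (nat_lit 3))
    (@En.n l11 (nat_lit 4897) (nat_lit 5) (nat_lit 6))
    (@En.n l21116 (nat_lit 11702) (nat_lit 14) (nat_lit 10))
    (@En.n l21117 (nat_lit 8057) (nat_lit 8) (nat_lit 13))
    (@En.n l17 (nat_lit 12253) (nat_lit 8) (nat_lit 2))
    (@En.n l6372 (nat_lit 11057) (nat_lit 9) (nat_lit 5))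
    (@En.n l7533 (nat_lit 2699) (nat_lit 11) (nat_lit 14))
    (@En.n l17683 (nat_lit 12796) (nat_lit 12) (nat_lit 10))
    (@En.i (nat_lit 11059) (nat_lit 13) (nat_lit 6))
    (@En.n l21118 (nat_lit 12099) (nat_lit 14) (nat_lit 6))
    (@En.n l17684 (nat_lit 9583) (nat_lit 10) (nat_lit 11))
    (@En.n l7 (nat_lit 12253) (nat_lit 15) (nat_lit 2))))
  (@Cl.mk (nat_lit 0x2000a000a000e00070002000b00060006000d000b000500030009000e0005) (nat_lit 0x64200500a400220) (nat_lit 16) Lb.e (@T16.mk En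
    (@En.n l15795 (nat_lit 12257) (nat_lit 5) (nat_lit 5))
    (@En.n l15796 (nat_lit 2994) (nat_lit 7) (nat_lit 14))
    (@En.n l2254 (nat_lit 7930) (nat_lit 2) (nat_lit 9))
    (@En.n l50 (nat_lit 12252) (nat_lit 3) (nat_lit 3))
    (@En.n l685 (nat_lit 2119) (nat_lit 4) (nat_lit 5))
    (@En.i (nat_lit 11707) (nat_lit 11) (nat_lit 11))
    (@En.n l10020 (nat_lit 5745) (nat_lit 7) (nat_lit 13))
    (@En.n l152 (nat_lit 12615) (nat_lit 13) (nat_lit 6))
    (@En.n l2225 (nat_lit 10746) (nat_lit 14) (nat_lit 6))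
    (@En.n l15797 (nat_lit 7984) (nat_lit 10) (nat_lit 11))
    (@En.n l11 (nat_lit 12254) (nat_lit 10) (nat_lit 2))
    (@En.n l15798 (nat_lit 11057) (nat_lit 12) (nat_lit 7))
    (@En.n l15796 (nat_lit 12774) (nat_lit 13) (nat_lit 14))
    (@En.n l5870 (nat_lit 12249) (nat_lit 14) (nat_lit 10))
    (@En.n l15772 (nat_lit 9272) (nat_lit 3) (nat_lit 10))
    (@En.n l17 (nat_lit 12254) (nat_lit 15) (nat_lit 2))))
  (@Cl.mk (nat_lit 0x20005000b0006000a000a000e00050002000a00060006000b000a000e0006) (nat_lit 0x70622003009530) (nat_lit 16) Lb.e (@T16.mk En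
    (@En.n l3187 (nat_lit 11553) (nat_lit 8) (nat_lit 6))
    (@En.n l3 (nat_lit 12251) (nat_lit 10) (nat_lit 14))
    (@En.n l9118 (nat_lit 12253) (nat_lit 11) (nat_lit 10))
    (@En.i (nat_lit 5879) (nat_lit 3) (nat_lit 11))
    (@En.n l9118 (nat_lit 12558) (nat_lit 4) (nat_lit 6))
    (@En.n l9119 (nat_lit 12102) (nat_lit 5) (nat_lit 6))
    (@En.n l9120 (nat_lit 9414) (nat_lit 7) (nat_lit 10))
    (@En.n l7 (nat_lit 12255) (nat_lit 7) (nat_lit 2))
    (@En.n l9121 (nat_lit 11557) (nat_lit 8) (nat_lit 5))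
    (@En.n l9119 (nat_lit 12655) (nat_lit 10) (nat_lit 14))
    (@En.n l9122 (nat_lit 12250) (nat_lit 11) (nat_lit 10))
    (@En.n l9123 (nat_lit 11129) (nat_lit 12) (nat_lit 10))
    (@En.n l9124 (nat_lit 4896) (nat_lit 13) (nat_lit 6))
    (@En.n l9125 (nat_lit 10779) (nat_lit 14) (nat_lit 11))
    (@En.n l3106 (nat_lit 12259) (nat_lit 13) (nat_lit 5))
    (@En.n l17 (nat_lit 12255) (nat_lit 15) (nat_lit 2))))
noncomputable def a766 : T16 Cl := @T16.mk Cl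
  (@Cl.mk (nat_lit 0x2000c00060006000c0004000c000c0004000a00040004000a000a000e0006) (nat_lit 0x500206501006470) (nat_lit 16) Lb.e (@T16.mk En
    (@En.n l30511 (nat_lit 11558) (nat_lit 8) (nat_lit 6))
    (@En.n l30512 (nat_lit 12767) (nat_lit 1) (nat_lit 14))
    (@En.n l17713 (nat_lit 12247) (nat_lit 2) (nat_lit 10))
    (@En.n l20917 (nat_lit 9460) (nat_lit 3) (nat_lit 10))
    (@En.n l152 (nat_lit 12258) (nat_lit 12) (nat_lit 4))
    (@En.n l30513 (nat_lit 11707) (nat_lit 5) (nat_lit 4))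
    (@En.n l30512 (nat_lit 5553) (nat_lit 0) (nat_lit 10))
    (@En.n l20917 (nat_lit 8055) (nat_lit 7) (nat_lit 4))
    (@En.n l30514 (nat_lit 12252) (nat_lit 4) (nat_lit 12))
    (@En.n l30515 (nat_lit 8058) (nat_lit 10) (nat_lit 12))
    (@En.n l30516 (nat_lit 8113) (nat_lit 10) (nat_lit 4))
    (@En.i (nat_lit 8019) (nat_lit 12) (nat_lit 12))
    (@En.n l4291 (nat_lit 12525) (nat_lit 13) (nat_lit 6))
    (@En.n l30517 (nat_lit 10744) (nat_lit 14) (nat_lit 6))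
    (@En.n l12469 (nat_lit 8905) (nat_lit 9) (nat_lit 12))
    (@En.n l7 (nat_lit 12256) (nat_lit 15) (nat_lit 2))))
  (@Cl.mk (nat_lit 0x2000a00060006000c000b000b00060004000a00050005000a000a000e0006) (nat_lit 0x600255002004630) (nat_lit 16) Lb.e (@T16.mk En
    (@En.n l15874 (nat_lit 10998) (nat_lit 8) (nat_lit 6))
    (@En.n l15875 (nat_lit 12772) (nat_lit 1) (nat_lit 14))
    (@En.n l15876 (nat_lit 10999) (nat_lit 2) (nat_lit 10))
    (@En.n l15877 (nat_lit 9466) (nat_lit 3) (nat_lit 10))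
    (@En.n l15878 (nat_lit 12259) (nat_lit 11) (nat_lit 5))
    (@En.n l11481 (nat_lit 11638) (nat_lit 5) (nat_lit 5))
    (@En.n l6657 (nat_lit 7933) (nat_lit 7) (nat_lit 10))
    (@En.n l15879 (nat_lit 12256) (nat_lit 7) (nat_lit 4))
    (@En.n l15880 (nat_lit 6470) (nat_lit 8) (nat_lit 6))
    (@En.n l15881 (nat_lit 12254) (nat_lit 5) (nat_lit 11))
    (@En.n l15882 (nat_lit 8057) (nat_lit 11) (nat_lit 11))
    (@En.n l15883 (nat_lit 8018) (nat_lit 12) (nat_lit 12))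
    (@En.n l15884 (nat_lit 12523) (nat_lit 13) (nat_lit 6))
    (@En.n l15885 (nat_lit 12604) (nat_lit 14) (nat_lit 6))
    (@En.n l15886 (nat_lit 7988) (nat_lit 0) (nat_lit 10))
    (@En.n l50 (nat_lit 12257) (nat_lit 15) (nat_lit 2))))
  (@Cl.mk (nat_lit 0x20005000b0004000a000a000e00050002000c00060006000b0004000e000c) (nat_lit 0x80157008002067) (nat_lit 16) Lb.e (@T16.mk En
    (@En.i (nat_lit 12256) (nat_lit 9) (nat_lit 12))
    (@En.i (nat_lit 12259) (nat_lit 1) (nat_lit 14))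
    (@En.n l21100 (nat_lit 8115) (nat_lit 2) (nat_lit 4))
    (@En.i (nat_lit 8021) (nat_lit 3) (nat_lit 11))
    (@En.n l4295 (nat_lit 12559) (nat_lit 4) (nat_lit 6))
    (@En.n l26689 (nat_lit 11573) (nat_lit 5) (nat_lit 6))
    (@En.n l12472 (nat_lit 8936) (nat_lit 7) (nat_lit 12))
    (@En.n l7 (nat_lit 12258) (nat_lit 7) (nat_lit 2))
    (@En.n l26690 (nat_lit 12084) (nat_lit 8) (nat_lit 5))
    (@En.n l9397 (nat_lit 12744) (nat_lit 10) (nat_lit 14))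
    (@En.n l1316 (nat_lit 12091) (nat_lit 11) (nat_lit 10))
    (@En.n l3337 (nat_lit 8924) (nat_lit 12) (nat_lit 10))
    (@En.i (nat_lit 11751) (nat_lit 4) (nat_lit 4))
    (@En.n l9397 (nat_lit 5653) (nat_lit 14) (nat_lit 11))
    (@En.i (nat_lit 12251) (nat_lit 6) (nat_lit 5))
    (@En.n l3 (nat_lit 12258) (nat_lit 15) (nat_lit 2))))
  (@Cl.mk (nat_lit 0x200070005000b0005000a000a000e00050002000900060006000b000e000b) (nat_lit 0x2047700400256) (nat_lit 16) Lb.e (@T16.mk En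
    (@En.n l21607 (nat_lit 12257) (nat_lit 10) (nat_lit 11))
    (@En.n l21608 (nat_lit 12554) (nat_lit 11) (nat_lit 14))
    (@En.i (nat_lit 8023) (nat_lit 2) (nat_lit 11))
    (@En.n l4295 (nat_lit 12557) (nat_lit 3) (nat_lit 6))
    (@En.n l21609 (nat_lit 12300) (nat_lit 14) (nat_lit 6))
    (@En.n l21610 (nat_lit 11031) (nat_lit 5) (nat_lit 9))
    (@En.n l7 (nat_lit 12259) (nat_lit 6) (nat_lit 2))
    (@En.n l21611 (nat_lit 12083) (nat_lit 7) (nat_lit 5))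
    (@En.n l21612 (nat_lit 12747) (nat_lit 9) (nat_lit 14))
    (@En.n l11809 (nat_lit 12780) (nat_lit 10) (nat_lit 10))
    (@En.n l21613 (nat_lit 8923) (nat_lit 11) (nat_lit 10))
    (@En.n l21614 (nat_lit 11376) (nat_lit 4) (nat_lit 5))
    (@En.n l9397 (nat_lit 11219) (nat_lit 13) (nat_lit 11))
    (@En.n l17 (nat_lit 12258) (nat_lit 14) (nat_lit 5))
    (@En.i (nat_lit 11549) (nat_lit 7) (nat_lit 7))
    (@En.n l3 (nat_lit 12259) (nat_lit 15) (nat_lit 2))))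
  (@Cl.mk (nat_lit 0x20005000a0009000d0006000b00030006000c00070005000b0004000e000a) (nat_lit 0x85501004003073) (nat_lit 16) Lb.e (@T16.mk En
    (@En.i (nat_lit 11720) (nat_lit 8) (nat_lit 10))
    (@En.i (nat_lit 9333) (nat_lit 1) (nat_lit 14))
    (@En.i (nat_lit 12228) (nat_lit 2) (nat_lit 4))
    (@En.i (nat_lit 12029) (nat_lit 3) (nat_lit 11))
    (@En.n l3100 (nat_lit 7781) (nat_lit 4) (nat_lit 5))
    (@En.i (nat_lit 12288) (nat_lit 5) (nat_lit 7))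
    (@En.n l7 (nat_lit 12267) (nat_lit 7) (nat_lit 12))
    (@En.n l8434 (nat_lit 9322) (nat_lit 7) (nat_lit 6))
    (@En.n l2491 (nat_lit 12231) (nat_lit 8) (nat_lit 3))
    (@En.n l2867 (nat_lit 770) (nat_lit 0) (nat_lit 11))
    (@En.i (nat_lit 11116) (nat_lit 11) (nat_lit 6))
    (@En.n l7 (nat_lit 11682) (nat_lit 12) (nat_lit 13))
    (@En.n l644 (nat_lit 11680) (nat_lit 13) (nat_lit 9))
    (@En.n l617 (nat_lit 6379) (nat_lit 14) (nat_lit 10))
    (@En.i (nat_lit 11961) (nat_lit 13) (nat_lit 5))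
    (@En.n l3 (nat_lit 12260) (nat_lit 15) (nat_lit 2))))
  (@Cl.mk (nat_lit 0x20006000a0007000d0006000c00030006000c0004000a00090004000e000a) (nat_lit 0x60504006062075) (nat_lit 16) Lb.e (@T16.mk En
    (@En.n l37178 (nat_lit 11777) (nat_lit 8) (nat_lit 10))
    (@En.n l18 (nat_lit 11527) (nat_lit 1) (nat_lit 14))
    (@En.n l37179 (nat_lit 12260) (nat_lit 2) (nat_lit 4))
    (@En.n l12437 (nat_lit 11623) (nat_lit 3) (nat_lit 9))
    (@En.n l7 (nat_lit 12033) (nat_lit 4) (nat_lit 10))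
    (@En.n l24775 (nat_lit 7545) (nat_lit 5) (nat_lit 4))
    (@En.n l22944 (nat_lit 12270) (nat_lit 7) (nat_lit 12))
    (@En.n l37180 (nat_lit 8177) (nat_lit 7) (nat_lit 6))
    (@En.n l9375 (nat_lit 12263) (nat_lit 8) (nat_lit 3))
    (@En.n l3858 (nat_lit 6420) (nat_lit 0) (nat_lit 12))
    (@En.n l117 (nat_lit 11995) (nat_lit 11) (nat_lit 6))
    (@En.n l7017 (nat_lit 12262) (nat_lit 12) (nat_lit 13))
    (@En.n l37181 (nat_lit 12266) (nat_lit 13) (nat_lit 7))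
    (@En.n l1353 (nat_lit 12425) (nat_lit 14) (nat_lit 10))
    (@En.n l6081 (nat_lit 10684) (nat_lit 5) (nat_lit 6))
    (@En.n l3 (nat_lit 12261) (nat_lit 15) (nat_lit 2))))
  (@Cl.mk (nat_lit 0x20006000a000d0005000b0003000b0006000c0005000a00050004000e000b) (nat_lit 0x54030602060084) (nat_lit 16) Lb.e (@T16.mk En
    (@En.i (nat_lit 11778) (nat_lit 7) (nat_lit 11))
    (@En.i (nat_lit 11523) (nat_lit 1) (nat_lit 14))
    (@En.i (nat_lit 11682) (nat_lit 2) (nat_lit 4))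
    (@En.n l5854 (nat_lit 11708) (nat_lit 3) (nat_lit 5))
    (@En.n l28628 (nat_lit 12498) (nat_lit 4) (nat_lit 10))
    (@En.n l217 (nat_lit 7546) (nat_lit 5) (nat_lit 5))
    (@En.n l16248 (nat_lit 12623) (nat_lit 7) (nat_lit 12))
    (@En.n l23795 (nat_lit 12261) (nat_lit 7) (nat_lit 6))
    (@En.i (nat_lit 10530) (nat_lit 9) (nat_lit 11))
    (@En.i (nat_lit 12264) (nat_lit 9) (nat_lit 3))
    (@En.n l19838 (nat_lit 6421) (nat_lit 11) (nat_lit 11))
    (@En.i (nat_lit 10638) (nat_lit 12) (nat_lit 5))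
    (@En.i (nat_lit 7585) (nat_lit 13) (nat_lit 13))
    (@En.n l617 (nat_lit 12419) (nat_lit 14) (nat_lit 10))
    (@En.i (nat_lit 10682) (nat_lit 4) (nat_lit 6))
    (@En.n l3 (nat_lit 12262) (nat_lit 15) (nat_lit 2))))
  (@Cl.mk (nat_lit 0x20006000a0007000d000b000700030006000c0005000a00090004000e0009) (nat_lit 0x60480005042094) (nat_lit 16) Lb.e (@T16.mk En
    (@En.n l21237 (nat_lit 11091) (nat_lit 8) (nat_lit 9))
    (@En.n l134 (nat_lit 11529) (nat_lit 1) (nat_lit 14))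
    (@En.n l2254 (nat_lit 12231) (nat_lit 2) (nat_lit 4))
    (@En.n l2579 (nat_lit 11625) (nat_lit 3) (nat_lit 9))
    (@En.n l25201 (nat_lit 12034) (nat_lit 4) (nat_lit 10))
    (@En.n l117 (nat_lit 7544) (nat_lit 5) (nat_lit 5))
    (@En.n l12896 (nat_lit 12272) (nat_lit 7) (nat_lit 12))
    (@En.n l16262 (nat_lit 8036) (nat_lit 7) (nat_lit 6))
    (@En.n l25202 (nat_lit 12261) (nat_lit 8) (nat_lit 3))
    (@En.n l21052 (nat_lit 12073) (nat_lit 0) (nat_lit 7))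
    (@En.n l25203 (nat_lit 10859) (nat_lit 11) (nat_lit 11))
    (@En.n l11635 (nat_lit 12264) (nat_lit 12) (nat_lit 13))
    (@En.n l7882 (nat_lit 11559) (nat_lit 13) (nat_lit 7))
    (@En.n l245 (nat_lit 11160) (nat_lit 14) (nat_lit 10))
    (@En.n l25204 (nat_lit 10688) (nat_lit 5) (nat_lit 6))
    (@En.n l7 (nat_lit 12263) (nat_lit 15) (nat_lit 2))))
  (@Cl.mk (nat_lit 0x20006000a000d000a00060003000b0006000c0006000a00050004000e000a) (nat_lit 0x535006080500a4) (nat_lit 16) Lb.e (@T16.mk En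
    (@En.i (nat_lit 11093) (nat_lit 14) (nat_lit 10))
    (@En.n l3737 (nat_lit 11530) (nat_lit 1) (nat_lit 14))
    (@En.i (nat_lit 11684) (nat_lit 2) (nat_lit 4))
    (@En.n l13956 (nat_lit 11709) (nat_lit 3) (nat_lit 5))
    (@En.n l16247 (nat_lit 12243) (nat_lit 4) (nat_lit 10))
    (@En.n l6753 (nat_lit 7543) (nat_lit 5) (nat_lit 6))
    (@En.n l16248 (nat_lit 12648) (nat_lit 7) (nat_lit 12))
    (@En.n l15026 (nat_lit 12263) (nat_lit 7) (nat_lit 6))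
    (@En.n l14127 (nat_lit 11089) (nat_lit 9) (nat_lit 11))
    (@En.n l11 (nat_lit 12262) (nat_lit 9) (nat_lit 3))
    (@En.n l16249 (nat_lit 12360) (nat_lit 0) (nat_lit 6))
    (@En.n l14128 (nat_lit 12265) (nat_lit 12) (nat_lit 10))
    (@En.i (nat_lit 7586) (nat_lit 13) (nat_lit 13))
    (@En.n l617 (nat_lit 11161) (nat_lit 14) (nat_lit 10))
    (@En.i (nat_lit 10687) (nat_lit 4) (nat_lit 6))
    (@En.n l3 (nat_lit 12264) (nat_lit 15) (nat_lit 2))))
  (@Cl.mk (nat_lit 0x20006000b000a0005000b000a0005000b00060005000a00060005000e000b) (nat_lit 0x44035050060036) (nat_lit 16) Lb.e (@T16.mk En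
    (@En.i (nat_lit 10281) (nat_lit 4) (nat_lit 11))
    (@En.n l9103 (nat_lit 9508) (nat_lit 1) (nat_lit 14))
    (@En.n l5934 (nat_lit 11681) (nat_lit 2) (nat_lit 5))
    (@En.n l7882 (nat_lit 12274) (nat_lit 3) (nat_lit 6))
    (@En.n l30351 (nat_lit 11292) (nat_lit 4) (nat_lit 10))
    (@En.n l14973 (nat_lit 12262) (nat_lit 5) (nat_lit 5))
    (@En.n l30352 (nat_lit 5296) (nat_lit 6) (nat_lit 6))
    (@En.n l30353 (nat_lit 12682) (nat_lit 8) (nat_lit 11))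
    (@En.n l50 (nat_lit 10859) (nat_lit 8) (nat_lit 5))
    (@En.n l2579 (nat_lit 10855) (nat_lit 10) (nat_lit 10))
    (@En.n l8435 (nat_lit 7530) (nat_lit 11) (nat_lit 11))
    (@En.n l30351 (nat_lit 11812) (nat_lit 12) (nat_lit 5))
    (@En.n l28105 (nat_lit 11218) (nat_lit 13) (nat_lit 10))
    (@En.n l29412 (nat_lit 9190) (nat_lit 14) (nat_lit 11))
    (@En.i (nat_lit 11873) (nat_lit 13) (nat_lit 6))
    (@En.n l3 (nat_lit 12265) (nat_lit 15) (nat_lit 2))))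
  (@Cl.mk (nat_lit 0x200070007000d0005000c0003000b000b00040009000900050005000e000b) (nat_lit 0x4090660620089) (nat_lit 16) Lb.e (@T16.mk En
    (@En.n l13657 (nat_lit 11558) (nat_lit 10) (nat_lit 11))
    (@En.n l17020 (nat_lit 11520) (nat_lit 1) (nat_lit 14))
    (@En.n l152 (nat_lit 12563) (nat_lit 11) (nat_lit 5))
    (@En.n l2511 (nat_lit 12262) (nat_lit 3) (nat_lit 5))
    (@En.n l17021 (nat_lit 12525) (nat_lit 7) (nat_lit 9))
    (@En.n l2593 (nat_lit 12499) (nat_lit 5) (nat_lit 9))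
    (@En.i (nat_lit 12515) (nat_lit 6) (nat_lit 4))
    (@En.n l17022 (nat_lit 12616) (nat_lit 8) (nat_lit 11))
    (@En.n l10941 (nat_lit 12513) (nat_lit 9) (nat_lit 11))
    (@En.n l2514 (nat_lit 11559) (nat_lit 9) (nat_lit 3))
    (@En.n l5347 (nat_lit 3132) (nat_lit 11) (nat_lit 12))
    (@En.n l17023 (nat_lit 11997) (nat_lit 12) (nat_lit 5))
    (@En.n l17024 (nat_lit 6766) (nat_lit 13) (nat_lit 13))
    (@En.n l17025 (nat_lit 12757) (nat_lit 9) (nat_lit 7))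
    (@En.n l14603 (nat_lit 11123) (nat_lit 4) (nat_lit 7))
    (@En.n l28 (nat_lit 12266) (nat_lit 15) (nat_lit 2))))
  (@Cl.mk (nat_lit 0x200060005000a000d0006000c0003000c00060004000a0004000b000e000a) (nat_lit 0x6502030060874) (nat_lit 16) Lb.e (@T16.mk En
    (@En.n l28529 (nat_lit 11875) (nat_lit 2) (nat_lit 10))
    (@En.n l22653 (nat_lit 11541) (nat_lit 4) (nat_lit 14))
    (@En.n l77 (nat_lit 1248) (nat_lit 2) (nat_lit 11))
    (@En.n l28530 (nat_lit 12644) (nat_lit 3) (nat_lit 4))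
    (@En.n l2205 (nat_lit 11264) (nat_lit 4) (nat_lit 10))
    (@En.n l28531 (nat_lit 12749) (nat_lit 5) (nat_lit 4))
    (@En.n l28532 (nat_lit 12269) (nat_lit 6) (nat_lit 6))
    (@En.n l28457 (nat_lit 12691) (nat_lit 8) (nat_lit 12))
    (@En.n l28458 (nat_lit 12268) (nat_lit 8) (nat_lit 3))
    (@En.n l28531 (nat_lit 1027) (nat_lit 10) (nat_lit 12))
    (@En.n l28457 (nat_lit 11103) (nat_lit 11) (nat_lit 6))
    (@En.i (nat_lit 12649) (nat_lit 5) (nat_lit 13))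
    (@En.n l601 (nat_lit 12262) (nat_lit 13) (nat_lit 10))
    (@En.n l725 (nat_lit 12353) (nat_lit 14) (nat_lit 5))
    (@En.n l1998 (nat_lit 34) (nat_lit 5) (nat_lit 6))
    (@En.n l3 (nat_lit 12267) (nat_lit 15) (nat_lit 2))))
  (@Cl.mk (nat_lit 0x200060005000a000d000b00070003000c00060005000a0004000b000e0009) (nat_lit 0x6440050040794) (nat_lit 16) Lb.e (@T16.mk En
    (@En.n l11132 (nat_lit 11125) (nat_lit 2) (nat_lit 9))
    (@En.n l7664 (nat_lit 11540) (nat_lit 4) (nat_lit 14))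
    (@En.n l17872 (nat_lit 1253) (nat_lit 2) (nat_lit 11))
    (@En.n l17873 (nat_lit 12643) (nat_lit 3) (nat_lit 4))
    (@En.n l17874 (nat_lit 11009) (nat_lit 4) (nat_lit 10))
    (@En.i (nat_lit 12236) (nat_lit 5) (nat_lit 5))
    (@En.n l17875 (nat_lit 12271) (nat_lit 6) (nat_lit 6))
    (@En.n l3519 (nat_lit 12082) (nat_lit 8) (nat_lit 12))
    (@En.n l17520 (nat_lit 12267) (nat_lit 8) (nat_lit 3))
    (@En.n l4259 (nat_lit 12167) (nat_lit 0) (nat_lit 7))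
    (@En.n l17876 (nat_lit 12607) (nat_lit 11) (nat_lit 11))
    (@En.n l7062 (nat_lit 12565) (nat_lit 12) (nat_lit 13))
    (@En.n l17522 (nat_lit 12264) (nat_lit 13) (nat_lit 10))
    (@En.n l403 (nat_lit 12349) (nat_lit 14) (nat_lit 5))
    (@En.n l17877 (nat_lit 10764) (nat_lit 13) (nat_lit 6))
    (@En.n l17 (nat_lit 12268) (nat_lit 15) (nat_lit 2))))
  (@Cl.mk (nat_lit 0x200060005000a0008000d0007000d000300060003000a0008000b000e0009) (nat_lit 0x7460200052173) (nat_lit 16) Lb.e (@T16.mk En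
    (@En.n l24112 (nat_lit 11874) (nat_lit 11) (nat_lit 9))
    (@En.n l6042 (nat_lit 11538) (nat_lit 4) (nat_lit 14))
    (@En.n l24113 (nat_lit 1249) (nat_lit 2) (nat_lit 11))
    (@En.n l24114 (nat_lit 4180) (nat_lit 3) (nat_lit 8))
    (@En.n l24115 (nat_lit 11263) (nat_lit 4) (nat_lit 10))
    (@En.n l24116 (nat_lit 12273) (nat_lit 5) (nat_lit 3))
    (@En.n l1353 (nat_lit 11369) (nat_lit 6) (nat_lit 6))
    (@En.n l18485 (nat_lit 12271) (nat_lit 7) (nat_lit 3))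
    (@En.n l3858 (nat_lit 1011) (nat_lit 0) (nat_lit 13))
    (@En.n l117 (nat_lit 11990) (nat_lit 10) (nat_lit 7))
    (@En.n l14377 (nat_lit 12267) (nat_lit 11) (nat_lit 13))
    (@En.n l24117 (nat_lit 12270) (nat_lit 12) (nat_lit 8))
    (@En.i (nat_lit 12261) (nat_lit 13) (nat_lit 10))
    (@En.n l644 (nat_lit 12352) (nat_lit 14) (nat_lit 5))
    (@En.n l6081 (nat_lit 10691) (nat_lit 6) (nat_lit 6))
    (@En.n l3 (nat_lit 12269) (nat_lit 15) (nat_lit 2))))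
  (@Cl.mk (nat_lit 0x2000700050008000d0006000d0003000c0003000900080004000b000e000a) (nat_lit 0x3503050530274) (nat_lit 16) Lb.e (@T16.mk En
    (@En.n l21329 (nat_lit 11876) (nat_lit 10) (nat_lit 10))
    (@En.n l37196 (nat_lit 5721) (nat_lit 4) (nat_lit 14))
    (@En.n l28642 (nat_lit 12269) (nat_lit 2) (nat_lit 11))
    (@En.n l19932 (nat_lit 12267) (nat_lit 3) (nat_lit 4))
    (@En.n l7617 (nat_lit 4173) (nat_lit 4) (nat_lit 8))
    (@En.i (nat_lit 11265) (nat_lit 5) (nat_lit 9))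
    (@En.i (nat_lit 12598) (nat_lit 6) (nat_lit 3))
    (@En.n l5599 (nat_lit 9227) (nat_lit 8) (nat_lit 12))
    (@En.n l15599 (nat_lit 12272) (nat_lit 8) (nat_lit 3))
    (@En.n l1722 (nat_lit 1054) (nat_lit 10) (nat_lit 13))
    (@En.n l3457 (nat_lit 11993) (nat_lit 11) (nat_lit 6))
    (@En.n l617 (nat_lit 12623) (nat_lit 12) (nat_lit 13))
    (@En.n l21333 (nat_lit 12616) (nat_lit 13) (nat_lit 8))
    (@En.n l21334 (nat_lit 12356) (nat_lit 14) (nat_lit 5))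
    (@En.n l12893 (nat_lit 10771) (nat_lit 7) (nat_lit 7))
    (@En.n l107 (nat_lit 12270) (nat_lit 15) (nat_lit 2))))
  (@Cl.mk (nat_lit 0x200060005000a0008000d000c0008000300060004000a0008000b000e0008) (nat_lit 0x7455400032184) (nat_lit 16) Lb.e (@T16.mk En
    (@En.n l32178 (nat_lit 11124) (nat_lit 9) (nat_lit 8))
    (@En.n l16366 (nat_lit 11539) (nat_lit 4) (nat_lit 14))
    (@En.n l699 (nat_lit 1283) (nat_lit 2) (nat_lit 11))
    (@En.n l16366 (nat_lit 4175) (nat_lit 3) (nat_lit 8))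
    (@En.i (nat_lit 11010) (nat_lit 4) (nat_lit 10))
    (@En.n l32179 (nat_lit 10744) (nat_lit 5) (nat_lit 4))
    (@En.n l32180 (nat_lit 12099) (nat_lit 6) (nat_lit 6))
    (@En.n l32181 (nat_lit 12269) (nat_lit 7) (nat_lit 3))
    (@En.i (nat_lit 12165) (nat_lit 0) (nat_lit 8))
    (@En.n l6759 (nat_lit 12273) (nat_lit 10) (nat_lit 12))
    (@En.n l32182 (nat_lit 12268) (nat_lit 11) (nat_lit 13))
    (@En.n l16365 (nat_lit 12272) (nat_lit 12) (nat_lit 8))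
    (@En.n l11499 (nat_lit 12263) (nat_lit 13) (nat_lit 10))
    (@En.n l32183 (nat_lit 12348) (nat_lit 14) (nat_lit 5))
    (@En.n l32184 (nat_lit 10767) (nat_lit 6) (nat_lit 6))
    (@En.n l11 (nat_lit 12271) (nat_lit 15) (nat_lit 2))))
noncomputable def a767 : T16 Cl := @T16.mk Cl
  (@Cl.mk (nat_lit 0x2000700050008000d000c00070003000c0004000900080004000b000e0009) (nat_lit 0x3440040430296) (nat_lit 16) Lb.e (@T16.mk En
    (@En.n l30151 (nat_lit 11878) (nat_lit 2) (nat_lit 9))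
    (@En.i (nat_lit 5718) (nat_lit 4) (nat_lit 14))
    (@En.n l30152 (nat_lit 12271) (nat_lit 2) (nat_lit 11))
    (@En.n l30153 (nat_lit 12268) (nat_lit 3) (nat_lit 4))
    (@En.i (nat_lit 4170) (nat_lit 4) (nat_lit 8))
    (@En.n l771 (nat_lit 11008) (nat_lit 5) (nat_lit 9))
    (@En.n l3506 (nat_lit 10745) (nat_lit 6) (nat_lit 4))
    (@En.n l30154 (nat_lit 11970) (nat_lit 8) (nat_lit 12))
    (@En.n l30155 (nat_lit 12270) (nat_lit 8) (nat_lit 3))
    (@En.i (nat_lit 12168) (nat_lit 0) (nat_lit 7))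
    (@En.n l27049 (nat_lit 12598) (nat_lit 11) (nat_lit 12))
    (@En.n l30156 (nat_lit 12648) (nat_lit 12) (nat_lit 13))
    (@En.n l21716 (nat_lit 12617) (nat_lit 13) (nat_lit 8))
    (@En.n l30157 (nat_lit 12357) (nat_lit 14) (nat_lit 5))
    (@En.n l7113 (nat_lit 10769) (nat_lit 5) (nat_lit 7))
    (@En.n l17 (nat_lit 12272) (nat_lit 15) (nat_lit 2))))
  (@Cl.mk (nat_lit 0x200060005000b0008000c0007000d000500040003000a0008000b000e0009) (nat_lit 0x7440200043153) (nat_lit 16) Lb.e (@T16.mk En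
    (@En.n l32227 (nat_lit 11877) (nat_lit 11) (nat_lit 9))
    (@En.n l32228 (nat_lit 11542) (nat_lit 4) (nat_lit 14))
    (@En.n l3340 (nat_lit 1330) (nat_lit 2) (nat_lit 11))
    (@En.n l16823 (nat_lit 11932) (nat_lit 3) (nat_lit 8))
    (@En.n l4889 (nat_lit 9363) (nat_lit 4) (nat_lit 10))
    (@En.n l10655 (nat_lit 12269) (nat_lit 5) (nat_lit 3))
    (@En.i (nat_lit 10742) (nat_lit 6) (nat_lit 4))
    (@En.n l28764 (nat_lit 12031) (nat_lit 7) (nat_lit 5))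
    (@En.n l32229 (nat_lit 217) (nat_lit 9) (nat_lit 13))
    (@En.n l25316 (nat_lit 11951) (nat_lit 10) (nat_lit 7))
    (@En.n l32229 (nat_lit 12749) (nat_lit 11) (nat_lit 12))
    (@En.n l32230 (nat_lit 12598) (nat_lit 12) (nat_lit 8))
    (@En.n l565 (nat_lit 10859) (nat_lit 13) (nat_lit 11))
    (@En.n l725 (nat_lit 12355) (nat_lit 14) (nat_lit 5))
    (@En.n l3340 (nat_lit 10772) (nat_lit 13) (nat_lit 6))
    (@En.n l3 (nat_lit 12273) (nat_lit 15) (nat_lit 2))))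
  (@Cl.mk (nat_lit 0x2000a000a00090005000a000a00060006000c0007000600060004000e000b) (nat_lit 0x682023006000077) (nat_lit 16) Lb.e (@T16.mk En
    (@En.i (nat_lit 10096) (nat_lit 14) (nat_lit 11))
    (@En.n l12311 (nat_lit 4962) (nat_lit 1) (nat_lit 14))
    (@En.n l16180 (nat_lit 11712) (nat_lit 2) (nat_lit 4))
    (@En.n l16181 (nat_lit 12508) (nat_lit 10) (nat_lit 6))
    (@En.n l16182 (nat_lit 11708) (nat_lit 4) (nat_lit 6))
    (@En.n l6029 (nat_lit 5726) (nat_lit 5) (nat_lit 7))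
    (@En.n l16183 (nat_lit 9239) (nat_lit 7) (nat_lit 12))
    (@En.n l3787 (nat_lit 11643) (nat_lit 10) (nat_lit 6))
    (@En.n l16184 (nat_lit 11159) (nat_lit 8) (nat_lit 6))
    (@En.n l152 (nat_lit 12275) (nat_lit 6) (nat_lit 10))
    (@En.n l6029 (nat_lit 8273) (nat_lit 11) (nat_lit 10))
    (@En.n l16185 (nat_lit 12111) (nat_lit 12) (nat_lit 5))
    (@En.n l2337 (nat_lit 10336) (nat_lit 13) (nat_lit 9))
    (@En.n l601 (nat_lit 10101) (nat_lit 14) (nat_lit 10))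
    (@En.n l28 (nat_lit 11738) (nat_lit 12) (nat_lit 10))
    (@En.n l11 (nat_lit 12274) (nat_lit 15) (nat_lit 2))))
  (@Cl.mk (nat_lit 0x20005000e000b0002000b000b000a0005000a00050005000b0006000e0006) (nat_lit 0x250792020040a0) (nat_lit 16) Lb.e (@T16.mk En
    (@En.i (nat_lit 12274) (nat_lit 4) (nat_lit 6))
    (@En.n l3871 (nat_lit 12277) (nat_lit 1) (nat_lit 14))
    (@En.n l6029 (nat_lit 5727) (nat_lit 2) (nat_lit 6))
    (@En.n l3786 (nat_lit 5623) (nat_lit 3) (nat_lit 11))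
    (@En.n l3787 (nat_lit 12276) (nat_lit 4) (nat_lit 5))
    (@En.i (nat_lit 7733) (nat_lit 5) (nat_lit 5))
    (@En.n l6029 (nat_lit 8510) (nat_lit 11) (nat_lit 10))
    (@En.n l6029 (nat_lit 12117) (nat_lit 7) (nat_lit 5))
    (@En.n l2337 (nat_lit 10341) (nat_lit 9) (nat_lit 10))
    (@En.n l601 (nat_lit 10099) (nat_lit 10) (nat_lit 11))
    (@En.n l28 (nat_lit 11735) (nat_lit 11) (nat_lit 11))
    (@En.n l11 (nat_lit 12275) (nat_lit 11) (nat_lit 2))
    (@En.i (nat_lit 10097) (nat_lit 13) (nat_lit 11))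
    (@En.n l12316 (nat_lit 4958) (nat_lit 1) (nat_lit 14))
    (@En.i (nat_lit 11348) (nat_lit 13) (nat_lit 5))
    (@En.n l3 (nat_lit 12275) (nat_lit 15) (nat_lit 2))))
  (@Cl.mk (nat_lit 0x20005000e000a0002000e000b0002000b0006000b0005000b0005000e0005) (nat_lit 0x280580302040a0) (nat_lit 16) Lb.e (@T16.mk En
    (@En.i (nat_lit 11643) (nat_lit 7) (nat_lit 5))
    (@En.n l6482 (nat_lit 12278) (nat_lit 1) (nat_lit 14))
    (@En.n l6478 (nat_lit 6464) (nat_lit 2) (nat_lit 5))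
    (@En.n l1501 (nat_lit 2761) (nat_lit 3) (nat_lit 11))
    (@En.i (nat_lit 11662) (nat_lit 4) (nat_lit 5))
    (@En.n l6478 (nat_lit 8297) (nat_lit 13) (nat_lit 11))
    (@En.n l11959 (nat_lit 12740) (nat_lit 6) (nat_lit 6))
    (@En.n l3699 (nat_lit 11227) (nat_lit 8) (nat_lit 11))
    (@En.n l7 (nat_lit 12276) (nat_lit 8) (nat_lit 2))
    (@En.n l644 (nat_lit 12275) (nat_lit 10) (nat_lit 11))
    (@En.n l6478 (nat_lit 7657) (nat_lit 1) (nat_lit 14))
    (@En.n l11 (nat_lit 12276) (nat_lit 11) (nat_lit 2))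
    (@En.i (nat_lit 12840) (nat_lit 13) (nat_lit 10))
    (@En.n l1501 (nat_lit 4956) (nat_lit 1) (nat_lit 14))
    (@En.i (nat_lit 12553) (nat_lit 13) (nat_lit 5))
    (@En.n l3 (nat_lit 12276) (nat_lit 15) (nat_lit 2))))
  (@Cl.mk (nat_lit 0x200090005000e000b0002000b000b00070005000b00050005000b000e0005) (nat_lit 0x608606400200490) (nat_lit 16) Lb.e (@T16.mk En
    (@En.n l15975 (nat_lit 12279) (nat_lit 5) (nat_lit 5))
    (@En.i (nat_lit 2035) (nat_lit 7) (nat_lit 14))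
    (@En.n l476 (nat_lit 12281) (nat_lit 2) (nat_lit 11))
    (@En.n l152 (nat_lit 12278) (nat_lit 3) (nat_lit 5))
    (@En.n l11883 (nat_lit 7734) (nat_lit 4) (nat_lit 5))
    (@En.i (nat_lit 8414) (nat_lit 11) (nat_lit 11))
    (@En.i (nat_lit 12768) (nat_lit 6) (nat_lit 5))
    (@En.n l1262 (nat_lit 8195) (nat_lit 7) (nat_lit 7))
    (@En.n l28314 (nat_lit 12280) (nat_lit 9) (nat_lit 11))
    (@En.n l1369 (nat_lit 10756) (nat_lit 10) (nat_lit 11))
    (@En.n l17 (nat_lit 12277) (nat_lit 10) (nat_lit 2))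
    (@En.n l28315 (nat_lit 11137) (nat_lit 12) (nat_lit 11))
    (@En.n l2698 (nat_lit 4768) (nat_lit 1) (nat_lit 14))
    (@En.n l31645 (nat_lit 12275) (nat_lit 14) (nat_lit 5))
    (@En.n l11883 (nat_lit 7974) (nat_lit 3) (nat_lit 9))
    (@En.n l28 (nat_lit 12277) (nat_lit 15) (nat_lit 2))))
  (@Cl.mk (nat_lit 0x200080005000e000a0002000e000b000200080006000c0005000b000e0004) (nat_lit 0x504806703020390) (nat_lit 16) Lb.e (@T16.mk En
    (@En.i (nat_lit 11642) (nat_lit 8) (nat_lit 4))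
    (@En.i (nat_lit 2027) (nat_lit 10) (nat_lit 14))
    (@En.n l16490 (nat_lit 2760) (nat_lit 2) (nat_lit 11))
    (@En.n l10848 (nat_lit 11667) (nat_lit 3) (nat_lit 5))
    (@En.i (nat_lit 8760) (nat_lit 13) (nat_lit 12))
    (@En.n l49 (nat_lit 12741) (nat_lit 14) (nat_lit 6))
    (@En.n l872 (nat_lit 8192) (nat_lit 12) (nat_lit 8))
    (@En.n l3 (nat_lit 12278) (nat_lit 7) (nat_lit 2))
    (@En.i (nat_lit 12277) (nat_lit 9) (nat_lit 11))
    (@En.i (nat_lit 7658) (nat_lit 1) (nat_lit 14))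
    (@En.n l17 (nat_lit 12278) (nat_lit 10) (nat_lit 2))
    (@En.n l764 (nat_lit 12839) (nat_lit 3) (nat_lit 10))
    (@En.n l998 (nat_lit 4957) (nat_lit 5) (nat_lit 14))
    (@En.n l15978 (nat_lit 12276) (nat_lit 14) (nat_lit 5))
    (@En.n l10848 (nat_lit 10109) (nat_lit 6) (nat_lit 8))
    (@En.n l28 (nat_lit 12278) (nat_lit 15) (nat_lit 2))))
  (@Cl.mk (nat_lit 0x2000a000a00070005000b000b00060006000c0005000500090004000e000b) (nat_lit 0x560033003005075) (nat_lit 16) Lb.e (@T16.mk En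
    (@En.n l27781 (nat_lit 10128) (nat_lit 14) (nat_lit 11))
    (@En.n l16053 (nat_lit 4762) (nat_lit 1) (nat_lit 14))
    (@En.n l30844 (nat_lit 12274) (nat_lit 2) (nat_lit 4))
    (@En.n l30845 (nat_lit 7970) (nat_lit 3) (nat_lit 9))
    (@En.n l55 (nat_lit 12286) (nat_lit 11) (nat_lit 5))
    (@En.n l30846 (nat_lit 12521) (nat_lit 5) (nat_lit 5))
    (@En.n l30845 (nat_lit 9235) (nat_lit 7) (nat_lit 12))
    (@En.n l30847 (nat_lit 11642) (nat_lit 10) (nat_lit 6))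
    (@En.n l30848 (nat_lit 11584) (nat_lit 8) (nat_lit 6))
    (@En.n l30849 (nat_lit 12277) (nat_lit 5) (nat_lit 11))
    (@En.n l30846 (nat_lit 8282) (nat_lit 11) (nat_lit 11))
    (@En.n l2492 (nat_lit 12451) (nat_lit 12) (nat_lit 5))
    (@En.n l15983 (nat_lit 9213) (nat_lit 13) (nat_lit 7))
    (@En.n l30850 (nat_lit 12284) (nat_lit 14) (nat_lit 10))
    (@En.n l15984 (nat_lit 11802) (nat_lit 12) (nat_lit 10))
    (@En.n l3 (nat_lit 12279) (nat_lit 15) (nat_lit 2))))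
  (@Cl.mk (nat_lit 0x2000a0005000e000c0002000b00060004000a000e00050002000b000e0006) (nat_lit 0x703803002700580) (nat_lit 16) Lb.e (@T16.mk En
    (@En.n l107 (nat_lit 12284) (nat_lit 5) (nat_lit 6))
    (@En.n l4660 (nat_lit 4144) (nat_lit 7) (nat_lit 14))
    (@En.n l9718 (nat_lit 5672) (nat_lit 2) (nat_lit 11))
    (@En.n l17 (nat_lit 12280) (nat_lit 3) (nat_lit 2))
    (@En.n l20921 (nat_lit 12277) (nat_lit 4) (nat_lit 5))
    (@En.i (nat_lit 4090) (nat_lit 6) (nat_lit 14))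
    (@En.n l20922 (nat_lit 8513) (nat_lit 2) (nat_lit 10))
    (@En.i (nat_lit 12770) (nat_lit 3) (nat_lit 4))
    (@En.n l20923 (nat_lit 4853) (nat_lit 14) (nat_lit 6))
    (@En.n l11076 (nat_lit 10978) (nat_lit 10) (nat_lit 11))
    (@En.n l7 (nat_lit 12280) (nat_lit 10) (nat_lit 2))
    (@En.n l644 (nat_lit 10098) (nat_lit 12) (nat_lit 12))
    (@En.n l9956 (nat_lit 4769) (nat_lit 1) (nat_lit 14))
    (@En.n l20924 (nat_lit 10099) (nat_lit 14) (nat_lit 5))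
    (@En.n l20923 (nat_lit 7973) (nat_lit 3) (nat_lit 10))
    (@En.n l67 (nat_lit 12280) (nat_lit 15) (nat_lit 2))))
  (@Cl.mk (nat_lit 0x200080005000b000e000b0002000b000500080005000c0005000b000e0004) (nat_lit 0x306590702020390) (nat_lit 16) Lb.e (@T16.mk En
    (@En.n l15979 (nat_lit 9235) (nat_lit 6) (nat_lit 4))
    (@En.i (nat_lit 4164) (nat_lit 8) (nat_lit 14))
    (@En.n l3024 (nat_lit 2763) (nat_lit 9) (nat_lit 11))
    (@En.n l23395 (nat_lit 5273) (nat_lit 3) (nat_lit 5))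
    (@En.i (nat_lit 8412) (nat_lit 11) (nat_lit 12))
    (@En.n l49 (nat_lit 12734) (nat_lit 5) (nat_lit 5))
    (@En.n l872 (nat_lit 12777) (nat_lit 6) (nat_lit 8))
    (@En.n l3101 (nat_lit 5675) (nat_lit 14) (nat_lit 5))
    (@En.n l1369 (nat_lit 10754) (nat_lit 9) (nat_lit 11))
    (@En.n l17 (nat_lit 12281) (nat_lit 9) (nat_lit 2))
    (@En.n l37238 (nat_lit 12724) (nat_lit 11) (nat_lit 11))
    (@En.i (nat_lit 12278) (nat_lit 12) (nat_lit 14))
    (@En.n l245 (nat_lit 12282) (nat_lit 13) (nat_lit 11))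
    (@En.n l37239 (nat_lit 5623) (nat_lit 14) (nat_lit 5))
    (@En.n l3024 (nat_lit 12186) (nat_lit 4) (nat_lit 8))
    (@En.n l28 (nat_lit 12281) (nat_lit 15) (nat_lit 2))))
  (@Cl.mk (nat_lit 0x20008000b000e000a0002000a0005000b00080006000c00060005000e0004) (nat_lit 0x3543060530200a0) (nat_lit 16) Lb.e (@T16.mk En
    (@En.n l11 (nat_lit 12283) (nat_lit 5) (nat_lit 4))
    (@En.n l134 (nat_lit 3673) (nat_lit 1) (nat_lit 14))
    (@En.n l11 (nat_lit 6006) (nat_lit 2) (nat_lit 5))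
    (@En.n l16262 (nat_lit 5848) (nat_lit 3) (nat_lit 6))
    (@En.i (nat_lit 8413) (nat_lit 10) (nat_lit 12))
    (@En.n l16078 (nat_lit 6401) (nat_lit 5) (nat_lit 6))
    (@En.n l532 (nat_lit 12281) (nat_lit 6) (nat_lit 8))
    (@En.n l3447 (nat_lit 12277) (nat_lit 8) (nat_lit 11))
    (@En.n l22672 (nat_lit 5679) (nat_lit 14) (nat_lit 5))
    (@En.n l29226 (nat_lit 10755) (nat_lit 10) (nat_lit 10))
    (@En.n l17 (nat_lit 12282) (nat_lit 10) (nat_lit 2))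
    (@En.n l3098 (nat_lit 12723) (nat_lit 12) (nat_lit 10))
    (@En.i (nat_lit 6464) (nat_lit 13) (nat_lit 14))
    (@En.n l10937 (nat_lit 5620) (nat_lit 7) (nat_lit 11))
    (@En.n l10938 (nat_lit 12188) (nat_lit 3) (nat_lit 8))
    (@En.n l7 (nat_lit 12282) (nat_lit 15) (nat_lit 2))))
  (@Cl.mk (nat_lit 0x200090005000a00080006000c000c00070006000400040008000b000e000a) (nat_lit 0x507303300002433) (nat_lit 16) Lb.e (@T16.mk En
    (@En.n l29323 (nat_lit 12722) (nat_lit 11) (nat_lit 10))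
    (@En.i (nat_lit 5733) (nat_lit 4) (nat_lit 14))
    (@En.n l245 (nat_lit 5788) (nat_lit 7) (nat_lit 11))
    (@En.n l29324 (nat_lit 11970) (nat_lit 3) (nat_lit 8))
    (@En.n l29325 (nat_lit 9227) (nat_lit 4) (nat_lit 4))
    (@En.n l1577 (nat_lit 12705) (nat_lit 5) (nat_lit 4))
    (@En.i (nat_lit 5453) (nat_lit 6) (nat_lit 6))
    (@En.n l4946 (nat_lit 11576) (nat_lit 7) (nat_lit 7))
    (@En.n l457 (nat_lit 12282) (nat_lit 4) (nat_lit 12))
    (@En.i (nat_lit 8382) (nat_lit 10) (nat_lit 12))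
    (@En.n l2579 (nat_lit 6405) (nat_lit 11) (nat_lit 6))
    (@En.n l22368 (nat_lit 9235) (nat_lit 12) (nat_lit 8))
    (@En.n l29326 (nat_lit 12279) (nat_lit 13) (nat_lit 10))
    (@En.n l29327 (nat_lit 9234) (nat_lit 14) (nat_lit 5))
    (@En.n l29328 (nat_lit 11803) (nat_lit 0) (nat_lit 9))
    (@En.n l17 (nat_lit 12283) (nat_lit 15) (nat_lit 2))))
  (@Cl.mk (nat_lit 0x2000a00060004000a000a000e00060002000c00060006000a0004000e000c) (nat_lit 0x500138004006087) (nat_lit 16) Lb.e (@T16.mk En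
    (@En.n l644 (nat_lit 10125) (nat_lit 9) (nat_lit 12))
    (@En.n l3528 (nat_lit 4761) (nat_lit 1) (nat_lit 14))
    (@En.n l28722 (nat_lit 10101) (nat_lit 2) (nat_lit 4))
    (@En.n l28723 (nat_lit 7967) (nat_lit 3) (nat_lit 10))
    (@En.n l21172 (nat_lit 12287) (nat_lit 4) (nat_lit 6))
    (@En.n l17897 (nat_lit 8164) (nat_lit 14) (nat_lit 6))
    (@En.n l28724 (nat_lit 12285) (nat_lit 7) (nat_lit 12))
    (@En.n l17 (nat_lit 12284) (nat_lit 7) (nat_lit 2))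
    (@En.n l13929 (nat_lit 12279) (nat_lit 8) (nat_lit 6))
    (@En.i (nat_lit 7688) (nat_lit 10) (nat_lit 14))
    (@En.n l97 (nat_lit 12280) (nat_lit 6) (nat_lit 10))
    (@En.n l18237 (nat_lit 8281) (nat_lit 12) (nat_lit 10))
    (@En.i (nat_lit 12489) (nat_lit 4) (nat_lit 4))
    (@En.n l28723 (nat_lit 4849) (nat_lit 14) (nat_lit 6))
    (@En.n l7202 (nat_lit 12210) (nat_lit 1) (nat_lit 10))
    (@En.n l7 (nat_lit 12284) (nat_lit 15) (nat_lit 2))))
  (@Cl.mk (nat_lit 0x2000a00070004000b000b00090006000c00050005000900040007000e000c) (nat_lit 0x800815030020088) (nat_lit 16) Lb.e (@T16.mk En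
    (@En.n l4130 (nat_lit 12196) (nat_lit 3) (nat_lit 12))
    (@En.n l33701 (nat_lit 12279) (nat_lit 1) (nat_lit 14))
    (@En.n l9072 (nat_lit 8963) (nat_lit 11) (nat_lit 7))
    (@En.n l33702 (nat_lit 5673) (nat_lit 3) (nat_lit 4))
    (@En.i (nat_lit 11975) (nat_lit 4) (nat_lit 9))
    (@En.n l33703 (nat_lit 9229) (nat_lit 5) (nat_lit 5))
    (@En.n l23563 (nat_lit 9731) (nat_lit 6) (nat_lit 5))
    (@En.n l18 (nat_lit 9233) (nat_lit 8) (nat_lit 12))
    (@En.n l61 (nat_lit 9235) (nat_lit 8) (nat_lit 6))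
    (@En.n l33704 (nat_lit 9182) (nat_lit 10) (nat_lit 9))
    (@En.n l33705 (nat_lit 5672) (nat_lit 5) (nat_lit 11))
    (@En.n l14149 (nat_lit 8385) (nat_lit 12) (nat_lit 11))
    (@En.n l33706 (nat_lit 12424) (nat_lit 13) (nat_lit 4))
    (@En.n l9069 (nat_lit 5874) (nat_lit 14) (nat_lit 7))
    (@En.n l2843 (nat_lit 12211) (nat_lit 1) (nat_lit 10))
    (@En.n l3 (nat_lit 12285) (nat_lit 15) (nat_lit 2))))
  (@Cl.mk (nat_lit 0x200070007000d000500090003000e000b00020009000900070005000e000b) (nat_lit 0x4040850640084) (nat_lit 16) Lb.e (@T16.mk En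
    (@En.i (nat_lit 12279) (nat_lit 10) (nat_lit 11))
    (@En.n l1267 (nat_lit 1622) (nat_lit 1) (nat_lit 14))
    (@En.n l10848 (nat_lit 12485) (nat_lit 2) (nat_lit 5))
    (@En.n l15983 (nat_lit 8558) (nat_lit 3) (nat_lit 7))
    (@En.n l644 (nat_lit 12287) (nat_lit 14) (nat_lit 9))
    (@En.n l15984 (nat_lit 12228) (nat_lit 5) (nat_lit 9))
    (@En.n l3 (nat_lit 12286) (nat_lit 6) (nat_lit 2))
    (@En.i (nat_lit 10126) (nat_lit 8) (nat_lit 11))
    (@En.i (nat_lit 4764) (nat_lit 1) (nat_lit 14))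
    (@En.n l763 (nat_lit 12508) (nat_lit 9) (nat_lit 3))
    (@En.i (nat_lit 2033) (nat_lit 3) (nat_lit 9))
    (@En.n l764 (nat_lit 12513) (nat_lit 4) (nat_lit 5))
    (@En.n l10744 (nat_lit 9231) (nat_lit 13) (nat_lit 13))
    (@En.n l15985 (nat_lit 11635) (nat_lit 14) (nat_lit 7))
    (@En.n l15986 (nat_lit 11285) (nat_lit 7) (nat_lit 7))
    (@En.n l28 (nat_lit 12286) (nat_lit 15) (nat_lit 2))))
  (@Cl.mk (nat_lit 0x2000900060004000e000a0002000e00070002000d0006000a0003000e000c) (nat_lit 0x300720900505085) (nat_lit 16) Lb.e (@T16.mk En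
    (@En.n l4322 (nat_lit 10120) (nat_lit 10) (nat_lit 12))
    (@En.i (nat_lit 4763) (nat_lit 1) (nat_lit 14))
    (@En.n l763 (nat_lit 12512) (nat_lit 2) (nat_lit 3))
    (@En.i (nat_lit 2027) (nat_lit 3) (nat_lit 10))
    (@En.n l764 (nat_lit 8165) (nat_lit 14) (nat_lit 6))
    (@En.n l765 (nat_lit 9229) (nat_lit 6) (nat_lit 13))
    (@En.n l50 (nat_lit 12287) (nat_lit 6) (nat_lit 2))
    (@En.i (nat_lit 12286) (nat_lit 14) (nat_lit 7))
    (@En.n l2494 (nat_lit 7684) (nat_lit 1) (nat_lit 14))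
    (@En.n l28 (nat_lit 12287) (nat_lit 9) (nat_lit 2))
    (@En.n l2492 (nat_lit 12284) (nat_lit 11) (nat_lit 10))
    (@En.i (nat_lit 1872) (nat_lit 1) (nat_lit 14))
    (@En.n l10848 (nat_lit 12486) (nat_lit 5) (nat_lit 4))
    (@En.i (nat_lit 4850) (nat_lit 14) (nat_lit 6))
    (@En.n l872 (nat_lit 11597) (nat_lit 4) (nat_lit 9))
    (@En.n l3 (nat_lit 12287) (nat_lit 15) (nat_lit 2))))
noncomputable def a768 : T16 Cl := @T16.mk Cl
  (@Cl.mk (nat_lit 0x20005000900090007000d0007000c0003000700070004000b0009000e0009) (nat_lit 0x45060100008764) (nat_lit 16) Lb.e (@T16.mk En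
    (@En.i (nat_lit 10353) (nat_lit 9) (nat_lit 9))
    (@En.n l1535 (nat_lit 11671) (nat_lit 1) (nat_lit 14))
    (@En.n l3023 (nat_lit 10914) (nat_lit 2) (nat_lit 9))
    (@En.n l23792 (nat_lit 11659) (nat_lit 3) (nat_lit 11))
    (@En.n l21350 (nat_lit 11608) (nat_lit 4) (nat_lit 4))
    (@En.n l3321 (nat_lit 11694) (nat_lit 5) (nat_lit 7))
    (@En.n l8434 (nat_lit 10985) (nat_lit 6) (nat_lit 7))
    (@En.n l23793 (nat_lit 12289) (nat_lit 7) (nat_lit 3))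
    (@En.n l3020 (nat_lit 3609) (nat_lit 9) (nat_lit 12))
    (@En.n l17544 (nat_lit 12159) (nat_lit 10) (nat_lit 7))
    (@En.n l23794 (nat_lit 11664) (nat_lit 11) (nat_lit 13))
    (@En.n l23795 (nat_lit 12261) (nat_lit 12) (nat_lit 7))
    (@En.n l644 (nat_lit 12103) (nat_lit 13) (nat_lit 9))
    (@En.n l617 (nat_lit 11037) (nat_lit 14) (nat_lit 9))
    (@En.n l8433 (nat_lit 12291) (nat_lit 13) (nat_lit 5))
    (@En.n l3 (nat_lit 12288) (nat_lit 15) (nat_lit 2))))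
  (@Cl.mk (nat_lit 0x20005000900090007000d000b00080003000700070005000b0009000e0008) (nat_lit 0x55058600008681) (nat_lit 16) Lb.e (@T16.mk En
    (@En.n l11495 (nat_lit 45) (nat_lit 1) (nat_lit 8))
    (@En.n l2283 (nat_lit 12105) (nat_lit 1) (nat_lit 14))
    (@En.n l6607 (nat_lit 12095) (nat_lit 2) (nat_lit 9))
    (@En.i (nat_lit 12121) (nat_lit 3) (nat_lit 11))
    (@En.n l11496 (nat_lit 12814) (nat_lit 4) (nat_lit 5))
    (@En.n l644 (nat_lit 11696) (nat_lit 5) (nat_lit 7))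
    (@En.n l11497 (nat_lit 11899) (nat_lit 6) (nat_lit 7))
    (@En.n l11498 (nat_lit 12288) (nat_lit 7) (nat_lit 3))
    (@En.i (nat_lit 12313) (nat_lit 0) (nat_lit 8))
    (@En.n l6759 (nat_lit 12094) (nat_lit 10) (nat_lit 11))
    (@En.n l3806 (nat_lit 11663) (nat_lit 11) (nat_lit 13))
    (@En.n l11499 (nat_lit 12263) (nat_lit 12) (nat_lit 7))
    (@En.n l11500 (nat_lit 12104) (nat_lit 13) (nat_lit 9))
    (@En.n l11501 (nat_lit 11038) (nat_lit 14) (nat_lit 9))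
    (@En.n l11502 (nat_lit 12290) (nat_lit 13) (nat_lit 5))
    (@En.n l11 (nat_lit 12289) (nat_lit 15) (nat_lit 2))))
  (@Cl.mk (nat_lit 0x200090005000900090006000d000b00070003000700070005000b000e000a) (nat_lit 0x502305400000423) (nat_lit 16) Lb.e (@T16.mk En
    (@En.n l68 (nat_lit 12002) (nat_lit 10) (nat_lit 10))
    (@En.n l17802 (nat_lit 11356) (nat_lit 4) (nat_lit 14))
    (@En.n l18 (nat_lit 11325) (nat_lit 2) (nat_lit 11))
    (@En.n l3451 (nat_lit 12080) (nat_lit 3) (nat_lit 5))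
    (@En.n l17803 (nat_lit 12311) (nat_lit 9) (nat_lit 7))
    (@En.n l17804 (nat_lit 12643) (nat_lit 5) (nat_lit 7))
    (@En.n l7 (nat_lit 12291) (nat_lit 6) (nat_lit 3))
    (@En.n l17348 (nat_lit 4896) (nat_lit 0) (nat_lit 7))
    (@En.n l3123 (nat_lit 12301) (nat_lit 9) (nat_lit 11))
    (@En.n l3125 (nat_lit 10777) (nat_lit 10) (nat_lit 13))
    (@En.i (nat_lit 10688) (nat_lit 3) (nat_lit 6))
    (@En.n l17805 (nat_lit 12297) (nat_lit 7) (nat_lit 9))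
    (@En.n l17806 (nat_lit 10242) (nat_lit 13) (nat_lit 9))
    (@En.n l2319 (nat_lit 12293) (nat_lit 14) (nat_lit 5))
    (@En.n l3451 (nat_lit 10344) (nat_lit 0) (nat_lit 9))
    (@En.n l67 (nat_lit 12290) (nat_lit 15) (nat_lit 2))))
  (@Cl.mk (nat_lit 0x2000a0005000900090006000d0006000c0003000700070004000b000e000a) (nat_lit 0x503305020000625) (nat_lit 16) Lb.e (@T16.mk En
    (@En.n l68 (nat_lit 12003) (nat_lit 10) (nat_lit 10))
    (@En.n l9176 (nat_lit 12543) (nat_lit 4) (nat_lit 14))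
    (@En.n l18 (nat_lit 11321) (nat_lit 2) (nat_lit 11))
    (@En.n l265 (nat_lit 12186) (nat_lit 3) (nat_lit 4))
    (@En.n l61 (nat_lit 12309) (nat_lit 9) (nat_lit 7))
    (@En.n l9177 (nat_lit 12178) (nat_lit 5) (nat_lit 7))
    (@En.i (nat_lit 12290) (nat_lit 6) (nat_lit 3))
    (@En.n l265 (nat_lit 2629) (nat_lit 8) (nat_lit 12))
    (@En.i (nat_lit 7654) (nat_lit 8) (nat_lit 6))
    (@En.n l9178 (nat_lit 10779) (nat_lit 10) (nat_lit 13))
    (@En.i (nat_lit 10684) (nat_lit 3) (nat_lit 6))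
    (@En.i (nat_lit 12295) (nat_lit 7) (nat_lit 9))
    (@En.i (nat_lit 10241) (nat_lit 13) (nat_lit 9))
    (@En.n l2316 (nat_lit 12292) (nat_lit 14) (nat_lit 5))
    (@En.n l3476 (nat_lit 11479) (nat_lit 8) (nat_lit 10))
    (@En.n l67 (nat_lit 12291) (nat_lit 15) (nat_lit 2))))
  (@Cl.mk (nat_lit 0x20005000900090005000d0009000c0003000700070004000b0007000e000b) (nat_lit 0x52033200006036) (nat_lit 16) Lb.e (@T16.mk En
    (@En.n l965 (nat_lit 11998) (nat_lit 9) (nat_lit 11))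
    (@En.n l1246 (nat_lit 12291) (nat_lit 1) (nat_lit 14))
    (@En.n l3538 (nat_lit 12294) (nat_lit 2) (nat_lit 7))
    (@En.n l1123 (nat_lit 11329) (nat_lit 3) (nat_lit 11))
    (@En.i (nat_lit 12185) (nat_lit 4) (nat_lit 4))
    (@En.n l3701 (nat_lit 12307) (nat_lit 5) (nat_lit 7))
    (@En.n l115 (nat_lit 12179) (nat_lit 6) (nat_lit 7))
    (@En.n l28 (nat_lit 12293) (nat_lit 7) (nat_lit 3))
    (@En.i (nat_lit 2630) (nat_lit 9) (nat_lit 12))
    (@En.n l1115 (nat_lit 11500) (nat_lit 10) (nat_lit 9))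
    (@En.n l306 (nat_lit 10780) (nat_lit 11) (nat_lit 13))
    (@En.n l1246 (nat_lit 10681) (nat_lit 3) (nat_lit 5))
    (@En.n l168 (nat_lit 12296) (nat_lit 13) (nat_lit 9))
    (@En.i (nat_lit 10246) (nat_lit 14) (nat_lit 9))
    (@En.i (nat_lit 11671) (nat_lit 13) (nat_lit 5))
    (@En.n l3 (nat_lit 12292) (nat_lit 15) (nat_lit 2))))
  (@Cl.mk (nat_lit 0x20005000900090005000d000b000a0003000700070005000b0006000e000b) (nat_lit 0x52034300005036) (nat_lit 16) Lb.e (@T16.mk En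
    (@En.n l1240 (nat_lit 11997) (nat_lit 9) (nat_lit 11))
    (@En.n l1241 (nat_lit 12290) (nat_lit 1) (nat_lit 14))
    (@En.n l10437 (nat_lit 12386) (nat_lit 2) (nat_lit 6))
    (@En.n l10438 (nat_lit 11327) (nat_lit 3) (nat_lit 11))
    (@En.i (nat_lit 12079) (nat_lit 4) (nat_lit 5))
    (@En.n l10186 (nat_lit 12308) (nat_lit 5) (nat_lit 7))
    (@En.n l10439 (nat_lit 12641) (nat_lit 6) (nat_lit 7))
    (@En.i (nat_lit 12292) (nat_lit 7) (nat_lit 3))
    (@En.n l10440 (nat_lit 12562) (nat_lit 0) (nat_lit 10))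
    (@En.n l77 (nat_lit 12302) (nat_lit 10) (nat_lit 11))
    (@En.n l10441 (nat_lit 10778) (nat_lit 11) (nat_lit 13))
    (@En.n l1126 (nat_lit 10686) (nat_lit 3) (nat_lit 5))
    (@En.n l2277 (nat_lit 12298) (nat_lit 13) (nat_lit 9))
    (@En.n l10442 (nat_lit 10248) (nat_lit 14) (nat_lit 9))
    (@En.n l5076 (nat_lit 12105) (nat_lit 13) (nat_lit 5))
    (@En.n l3 (nat_lit 12293) (nat_lit 15) (nat_lit 2))))
  (@Cl.mk (nat_lit 0x2000a000800080005000c00090006000c00040008000800040007000e000b) (nat_lit 0x632044030360035) (nat_lit 16) Lb.e (@T16.mk En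
    (@En.n l68 (nat_lit 11999) (nat_lit 13) (nat_lit 11))
    (@En.n l10427 (nat_lit 12542) (nat_lit 1) (nat_lit 14))
    (@En.n l10428 (nat_lit 12546) (nat_lit 11) (nat_lit 7))
    (@En.n l2316 (nat_lit 12189) (nat_lit 3) (nat_lit 4))
    (@En.n l10429 (nat_lit 12310) (nat_lit 8) (nat_lit 8))
    (@En.n l10430 (nat_lit 12161) (nat_lit 5) (nat_lit 8))
    (@En.n l10431 (nat_lit 12386) (nat_lit 6) (nat_lit 4))
    (@En.n l10432 (nat_lit 12292) (nat_lit 8) (nat_lit 12))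
    (@En.i (nat_lit 12291) (nat_lit 8) (nat_lit 6))
    (@En.n l3127 (nat_lit 11568) (nat_lit 10) (nat_lit 9))
    (@En.n l10433 (nat_lit 10781) (nat_lit 11) (nat_lit 12))
    (@En.i (nat_lit 10685) (nat_lit 12) (nat_lit 5))
    (@En.n l3489 (nat_lit 12299) (nat_lit 8) (nat_lit 8))
    (@En.n l9715 (nat_lit 10249) (nat_lit 14) (nat_lit 8))
    (@En.n l10434 (nat_lit 12192) (nat_lit 11) (nat_lit 10))
    (@En.n l67 (nat_lit 12294) (nat_lit 15) (nat_lit 2))))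
  (@Cl.mk (nat_lit 0x20005000b000e000b0002000b000500090005000d0005000b0003000e0007) (nat_lit 0x94604020401090) (nat_lit 16) Lb.e (@T16.mk En
    (@En.n l61 (nat_lit 12291) (nat_lit 5) (nat_lit 7))
    (@En.n l11556 (nat_lit 12300) (nat_lit 1) (nat_lit 14))
    (@En.n l17805 (nat_lit 12297) (nat_lit 2) (nat_lit 3))
    (@En.n l4194 (nat_lit 2632) (nat_lit 9) (nat_lit 11))
    (@En.n l14175 (nat_lit 7655) (nat_lit 4) (nat_lit 5))
    (@En.n l4259 (nat_lit 10783) (nat_lit 6) (nat_lit 13))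
    (@En.i (nat_lit 12349) (nat_lit 6) (nat_lit 5))
    (@En.n l3489 (nat_lit 10235) (nat_lit 13) (nat_lit 9))
    (@En.n l4253 (nat_lit 12296) (nat_lit 14) (nat_lit 5))
    (@En.n l4194 (nat_lit 11482) (nat_lit 10) (nat_lit 11))
    (@En.n l67 (nat_lit 12295) (nat_lit 10) (nat_lit 2))
    (@En.n l68 (nat_lit 12603) (nat_lit 12) (nat_lit 11))
    (@En.n l4259 (nat_lit 12551) (nat_lit 13) (nat_lit 14))
    (@En.n l72 (nat_lit 11318) (nat_lit 2) (nat_lit 11))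
    (@En.n l4259 (nat_lit 12281) (nat_lit 13) (nat_lit 5))
    (@En.n l17 (nat_lit 12295) (nat_lit 15) (nat_lit 2))))
  (@Cl.mk (nat_lit 0x2000500090004000d0008000b0003000e000700020005000b0008000e000c) (nat_lit 0x10221090006457) (nat_lit 16) Lb.e (@T16.mk En
    (@En.n l538 (nat_lit 12601) (nat_lit 11) (nat_lit 12))
    (@En.n l10246 (nat_lit 12295) (nat_lit 12) (nat_lit 14))
    (@En.n l386 (nat_lit 12299) (nat_lit 13) (nat_lit 8))
    (@En.n l132 (nat_lit 11315) (nat_lit 3) (nat_lit 11))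
    (@En.n l133 (nat_lit 5675) (nat_lit 4) (nat_lit 5))
    (@En.n l3 (nat_lit 12296) (nat_lit 5) (nat_lit 2))
    (@En.n l133 (nat_lit 12292) (nat_lit 6) (nat_lit 7))
    (@En.n l7828 (nat_lit 11573) (nat_lit 8) (nat_lit 14))
    (@En.n l10247 (nat_lit 12298) (nat_lit 8) (nat_lit 3))
    (@En.i (nat_lit 2631) (nat_lit 10) (nat_lit 11))
    (@En.n l5415 (nat_lit 11570) (nat_lit 4) (nat_lit 8))
    (@En.n l10248 (nat_lit 10782) (nat_lit 12) (nat_lit 13))
    (@En.n l7 (nat_lit 12348) (nat_lit 6) (nat_lit 4))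
    (@En.n l1501 (nat_lit 3923) (nat_lit 14) (nat_lit 9))
    (@En.n l1252 (nat_lit 12101) (nat_lit 8) (nat_lit 5))
    (@En.n l8 (nat_lit 12296) (nat_lit 15) (nat_lit 2))))
  (@Cl.mk (nat_lit 0x20006000b000e000b0002000a000500090005000d000a00060003000e0007) (nat_lit 0x53603020430090) (nat_lit 16) Lb.e (@T16.mk En
    (@En.n l11522 (nat_lit 12290) (nat_lit 5) (nat_lit 7))
    (@En.n l1776 (nat_lit 12375) (nat_lit 1) (nat_lit 14))
    (@En.n l9175 (nat_lit 12295) (nat_lit 2) (nat_lit 3))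
    (@En.n l11523 (nat_lit 4897) (nat_lit 8) (nat_lit 6))
    (@En.n l1316 (nat_lit 12300) (nat_lit 4) (nat_lit 10))
    (@En.n l11 (nat_lit 10784) (nat_lit 6) (nat_lit 13))
    (@En.n l11523 (nat_lit 12347) (nat_lit 6) (nat_lit 5))
    (@En.i (nat_lit 10234) (nat_lit 13) (nat_lit 9))
    (@En.n l3753 (nat_lit 12298) (nat_lit 14) (nat_lit 5))
    (@En.n l5995 (nat_lit 10343) (nat_lit 10) (nat_lit 10))
    (@En.n l3 (nat_lit 12297) (nat_lit 10) (nat_lit 2))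
    (@En.n l11524 (nat_lit 12605) (nat_lit 12) (nat_lit 11))
    (@En.n l11525 (nat_lit 12552) (nat_lit 13) (nat_lit 14))
    (@En.n l2344 (nat_lit 11320) (nat_lit 2) (nat_lit 11))
    (@En.n l387 (nat_lit 12702) (nat_lit 3) (nat_lit 6))
    (@En.n l50 (nat_lit 12297) (nat_lit 15) (nat_lit 2))))
  (@Cl.mk (nat_lit 0x2000500090004000d000a00090003000e000700020006000b0007000e000c) (nat_lit 0x10232090005047) (nat_lit 16) Lb.e (@T16.mk En
    (@En.n l20568 (nat_lit 12610) (nat_lit 11) (nat_lit 12))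
    (@En.n l2399 (nat_lit 12297) (nat_lit 12) (nat_lit 14))
    (@En.n l20569 (nat_lit 12388) (nat_lit 13) (nat_lit 7))
    (@En.i (nat_lit 11319) (nat_lit 3) (nat_lit 11))
    (@En.n l3241 (nat_lit 12700) (nat_lit 4) (nat_lit 6))
    (@En.n l50 (nat_lit 12298) (nat_lit 5) (nat_lit 2))
    (@En.n l3241 (nat_lit 12293) (nat_lit 6) (nat_lit 7))
    (@En.n l20570 (nat_lit 12373) (nat_lit 8) (nat_lit 14))
    (@En.n l11657 (nat_lit 12296) (nat_lit 8) (nat_lit 3))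
    (@En.n l20571 (nat_lit 12560) (nat_lit 10) (nat_lit 9))
    (@En.n l11459 (nat_lit 11573) (nat_lit 11) (nat_lit 10))
    (@En.n l20572 (nat_lit 10785) (nat_lit 12) (nat_lit 13))
    (@En.n l17458 (nat_lit 12346) (nat_lit 6) (nat_lit 4))
    (@En.n l20571 (nat_lit 3925) (nat_lit 14) (nat_lit 9))
    (@En.n l20573 (nat_lit 12098) (nat_lit 8) (nat_lit 5))
    (@En.n l3 (nat_lit 12298) (nat_lit 15) (nat_lit 2))))
  (@Cl.mk (nat_lit 0x200050008000e000c0002000b00080004000c00080005000b0004000e0008) (nat_lit 0x346071034020a4) (nat_lit 16) Lb.e (@T16.mk En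
    (@En.n l3112 (nat_lit 12294) (nat_lit 5) (nat_lit 8))
    (@En.n l20166 (nat_lit 11571) (nat_lit 1) (nat_lit 14))
    (@En.n l617 (nat_lit 12388) (nat_lit 2) (nat_lit 4))
    (@En.n l11657 (nat_lit 12296) (nat_lit 9) (nat_lit 11))
    (@En.n l9175 (nat_lit 12295) (nat_lit 4) (nat_lit 5))
    (@En.n l8572 (nat_lit 11567) (nat_lit 5) (nat_lit 8))
    (@En.n l7857 (nat_lit 10786) (nat_lit 7) (nat_lit 12))
    (@En.n l17458 (nat_lit 12357) (nat_lit 7) (nat_lit 4))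
    (@En.i (nat_lit 5555) (nat_lit 14) (nat_lit 8))
    (@En.n l10036 (nat_lit 12182) (nat_lit 10) (nat_lit 11))
    (@En.n l3 (nat_lit 12299) (nat_lit 10) (nat_lit 2))
    (@En.n l20167 (nat_lit 12599) (nat_lit 12) (nat_lit 12))
    (@En.n l7857 (nat_lit 11343) (nat_lit 13) (nat_lit 14))
    (@En.n l7408 (nat_lit 12548) (nat_lit 10) (nat_lit 8))
    (@En.n l8573 (nat_lit 5672) (nat_lit 13) (nat_lit 5))
    (@En.n l50 (nat_lit 12299) (nat_lit 15) (nat_lit 2))))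
  (@Cl.mk (nat_lit 0x200060005000b000e000b0002000b0005000a0005000a0005000b000e0006) (nat_lit 0x7570402020180) (nat_lit 16) Lb.e (@T16.mk En
    (@En.n l17894 (nat_lit 12301) (nat_lit 6) (nat_lit 6))
    (@En.i (nat_lit 5622) (nat_lit 8) (nat_lit 14))
    (@En.n l19178 (nat_lit 2634) (nat_lit 9) (nat_lit 11))
    (@En.n l8183 (nat_lit 7656) (nat_lit 3) (nat_lit 5))
    (@En.n l1501 (nat_lit 7796) (nat_lit 4) (nat_lit 10))
    (@En.n l2584 (nat_lit 12268) (nat_lit 5) (nat_lit 5))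
    (@En.i (nat_lit 10238) (nat_lit 13) (nat_lit 10))
    (@En.n l1603 (nat_lit 11573) (nat_lit 14) (nat_lit 5))
    (@En.n l3260 (nat_lit 11485) (nat_lit 9) (nat_lit 11))
    (@En.n l11 (nat_lit 12300) (nat_lit 9) (nat_lit 2))
    (@En.n l25215 (nat_lit 12604) (nat_lit 11) (nat_lit 11))
    (@En.n l1208 (nat_lit 12553) (nat_lit 12) (nat_lit 14))
    (@En.n l15678 (nat_lit 7171) (nat_lit 13) (nat_lit 11))
    (@En.n l9269 (nat_lit 12295) (nat_lit 14) (nat_lit 5))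
    (@En.n l388 (nat_lit 12578) (nat_lit 4) (nat_lit 6))
    (@En.n l18 (nat_lit 12300) (nat_lit 15) (nat_lit 2))))
  (@Cl.mk (nat_lit 0x2000a0005000a000a0006000b0006000c0006000600050004000b000e000a) (nat_lit 0x401303020000534) (nat_lit 16) Lb.e (@T16.mk En
    (@En.n l15120 (nat_lit 10747) (nat_lit 2) (nat_lit 10))
    (@En.i (nat_lit 9347) (nat_lit 4) (nat_lit 14))
    (@En.n l15121 (nat_lit 5854) (nat_lit 2) (nat_lit 11))
    (@En.n l6104 (nat_lit 12291) (nat_lit 3) (nat_lit 4))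
    (@En.n l15122 (nat_lit 11971) (nat_lit 4) (nat_lit 5))
    (@En.n l575 (nat_lit 12306) (nat_lit 10) (nat_lit 6))
    (@En.n l5399 (nat_lit 12188) (nat_lit 6) (nat_lit 6))
    (@En.n l15122 (nat_lit 2497) (nat_lit 8) (nat_lit 12))
    (@En.n l6105 (nat_lit 6448) (nat_lit 8) (nat_lit 6))
    (@En.i (nat_lit 5880) (nat_lit 10) (nat_lit 11))
    (@En.n l565 (nat_lit 11884) (nat_lit 11) (nat_lit 6))
    (@En.n l15123 (nat_lit 12300) (nat_lit 6) (nat_lit 10))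
    (@En.n l15124 (nat_lit 9345) (nat_lit 13) (nat_lit 10))
    (@En.n l15125 (nat_lit 12302) (nat_lit 14) (nat_lit 5))
    (@En.n l15126 (nat_lit 10522) (nat_lit 0) (nat_lit 10))
    (@En.n l17 (nat_lit 12301) (nat_lit 15) (nat_lit 2))))
  (@Cl.mk (nat_lit 0x20005000a000a0005000b0009000c0006000600050004000b0007000e000b) (nat_lit 0x12034100006045) (nat_lit 16) Lb.e (@T16.mk En
    (@En.n l6741 (nat_lit 10740) (nat_lit 1) (nat_lit 11))
    (@En.n l6742 (nat_lit 12301) (nat_lit 1) (nat_lit 14))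
    (@En.n l6743 (nat_lit 11572) (nat_lit 2) (nat_lit 7))
    (@En.n l6744 (nat_lit 7175) (nat_lit 3) (nat_lit 11))
    (@En.n l237 (nat_lit 12292) (nat_lit 4) (nat_lit 4))
    (@En.i (nat_lit 11974) (nat_lit 5) (nat_lit 5))
    (@En.n l6745 (nat_lit 12305) (nat_lit 6) (nat_lit 6))
    (@En.n l4380 (nat_lit 12187) (nat_lit 7) (nat_lit 6))
    (@En.i (nat_lit 2557) (nat_lit 9) (nat_lit 12))
    (@En.n l6743 (nat_lit 11501) (nat_lit 10) (nat_lit 9))
    (@En.n l6746 (nat_lit 5881) (nat_lit 11) (nat_lit 11))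
    (@En.n l117 (nat_lit 11885) (nat_lit 12) (nat_lit 5))
    (@En.n l6747 (nat_lit 11573) (nat_lit 13) (nat_lit 10))
    (@En.i (nat_lit 10206) (nat_lit 14) (nat_lit 10))
    (@En.i (nat_lit 10915) (nat_lit 13) (nat_lit 5))
    (@En.n l3 (nat_lit 12302) (nat_lit 15) (nat_lit 2))))
  (@Cl.mk (nat_lit 0x200060006000c000a000d000700040003000c0006000a000a0004000e0009) (nat_lit 0x56600050460a2) (nat_lit 16) Lb.e (@T16.mk En
    (@En.n l6719 (nat_lit 10740) (nat_lit 14) (nat_lit 9))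
    (@En.n l6720 (nat_lit 8056) (nat_lit 1) (nat_lit 14))
    (@En.n l6721 (nat_lit 12317) (nat_lit 2) (nat_lit 4))
    (@En.n l6722 (nat_lit 11069) (nat_lit 6) (nat_lit 10))
    (@En.n l6723 (nat_lit 10932) (nat_lit 4) (nat_lit 10))
    (@En.n l6724 (nat_lit 12313) (nat_lit 5) (nat_lit 6))
    (@En.n l6725 (nat_lit 7187) (nat_lit 7) (nat_lit 12))
    (@En.n l6719 (nat_lit 12312) (nat_lit 7) (nat_lit 3))
    (@En.i (nat_lit 12763) (nat_lit 8) (nat_lit 4))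
    (@En.n l6723 (nat_lit 11466) (nat_lit 10) (nat_lit 7))
    (@En.n l6721 (nat_lit 2546) (nat_lit 11) (nat_lit 13))
    (@En.n l6726 (nat_lit 11536) (nat_lit 12) (nat_lit 10))
    (@En.n l6727 (nat_lit 9607) (nat_lit 13) (nat_lit 12))
    (@En.n l6728 (nat_lit 12305) (nat_lit 10) (nat_lit 6))
    (@En.n l6729 (nat_lit 12434) (nat_lit 13) (nat_lit 6))
    (@En.n l28 (nat_lit 12303) (nat_lit 15) (nat_lit 2))))
noncomputable def a769 : T16 Cl := @T16.mk Cl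
  (@Cl.mk (nat_lit 0x20006000b000a0007000d0007000500030006000e000a00020009000e0009) (nat_lit 0x46060000340663) (nat_lit 16) Lb.e (@T16.mk En
    (@En.n l17 (nat_lit 11572) (nat_lit 13) (nat_lit 9))
    (@En.i (nat_lit 12520) (nat_lit 1) (nat_lit 14))
    (@En.i (nat_lit 12165) (nat_lit 2) (nat_lit 9))
    (@En.n l50 (nat_lit 12304) (nat_lit 3) (nat_lit 2))
    (@En.i (nat_lit 12313) (nat_lit 4) (nat_lit 10))
    (@En.n l601 (nat_lit 12540) (nat_lit 6) (nat_lit 14))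
    (@En.n l28 (nat_lit 4778) (nat_lit 6) (nat_lit 6))
    (@En.i (nat_lit 12310) (nat_lit 7) (nat_lit 3))
    (@En.n l6606 (nat_lit 12761) (nat_lit 0) (nat_lit 5))
    (@En.n l117 (nat_lit 10351) (nat_lit 5) (nat_lit 7))
    (@En.i (nat_lit 12305) (nat_lit 7) (nat_lit 13))
    (@En.n l6607 (nat_lit 12306) (nat_lit 12) (nat_lit 7))
    (@En.i (nat_lit 12400) (nat_lit 13) (nat_lit 10))
    (@En.n l6606 (nat_lit 7514) (nat_lit 10) (nat_lit 11))
    (@En.i (nat_lit 12437) (nat_lit 6) (nat_lit 6))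
    (@En.n l3 (nat_lit 12304) (nat_lit 15) (nat_lit 2))))
  (@Cl.mk (nat_lit 0x20005000e000a00020006000c000a000d000600040003000b0006000e000a) (nat_lit 0x72004550005045) (nat_lit 16) Lb.e (@T16.mk En
    (@En.n l2283 (nat_lit 12303) (nat_lit 4) (nat_lit 10))
    (@En.n l2284 (nat_lit 12306) (nat_lit 6) (nat_lit 14))
    (@En.n l725 (nat_lit 12304) (nat_lit 6) (nat_lit 6))
    (@En.i (nat_lit 7185) (nat_lit 3) (nat_lit 11))
    (@En.n l2285 (nat_lit 12307) (nat_lit 4) (nat_lit 3))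
    (@En.n l2286 (nat_lit 12088) (nat_lit 5) (nat_lit 4))
    (@En.n l1386 (nat_lit 11487) (nat_lit 6) (nat_lit 6))
    (@En.n l2287 (nat_lit 2500) (nat_lit 8) (nat_lit 13))
    (@En.i (nat_lit 11502) (nat_lit 13) (nat_lit 10))
    (@En.n l2286 (nat_lit 5889) (nat_lit 10) (nat_lit 12))
    (@En.i (nat_lit 10775) (nat_lit 11) (nat_lit 6))
    (@En.n l3 (nat_lit 12305) (nat_lit 11) (nat_lit 2))
    (@En.n l2288 (nat_lit 12302) (nat_lit 13) (nat_lit 10))
    (@En.n l2289 (nat_lit 12519) (nat_lit 1) (nat_lit 14))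
    (@En.n l2290 (nat_lit 11690) (nat_lit 2) (nat_lit 5))
    (@En.n l50 (nat_lit 12305) (nat_lit 15) (nat_lit 2))))
  (@Cl.mk (nat_lit 0x20007000c0007000d000600040003000b000e0009000200090005000e000a) (nat_lit 0x40500043404072) (nat_lit 16) Lb.e (@T16.mk En
    (@En.i (nat_lit 12301) (nat_lit 12) (nat_lit 10))
    (@En.n l781 (nat_lit 6480) (nat_lit 1) (nat_lit 14))
    (@En.n l6101 (nat_lit 12305) (nat_lit 14) (nat_lit 5))
    (@En.n l2125 (nat_lit 11459) (nat_lit 3) (nat_lit 9))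
    (@En.n l17 (nat_lit 12306) (nat_lit 4) (nat_lit 2))
    (@En.n l6102 (nat_lit 12319) (nat_lit 5) (nat_lit 9))
    (@En.i (nat_lit 11363) (nat_lit 7) (nat_lit 14))
    (@En.n l6103 (nat_lit 7184) (nat_lit 2) (nat_lit 11))
    (@En.n l6104 (nat_lit 12309) (nat_lit 8) (nat_lit 3))
    (@En.i (nat_lit 12779) (nat_lit 9) (nat_lit 4))
    (@En.i (nat_lit 11488) (nat_lit 5) (nat_lit 6))
    (@En.n l3872 (nat_lit 2494) (nat_lit 7) (nat_lit 13))
    (@En.n l6105 (nat_lit 7963) (nat_lit 13) (nat_lit 7))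
    (@En.i (nat_lit 7501) (nat_lit 9) (nat_lit 12))
    (@En.n l3340 (nat_lit 10772) (nat_lit 10) (nat_lit 7))
    (@En.n l11 (nat_lit 12306) (nat_lit 15) (nat_lit 2))))
  (@Cl.mk (nat_lit 0x20005000e000900020006000d000a000d000300070003000b0006000e000a) (nat_lit 0xb600b440004034) (nat_lit 16) Lb.e (@T16.mk En
    (@En.n l1144 (nat_lit 12312) (nat_lit 4) (nat_lit 10))
    (@En.n l11 (nat_lit 12309) (nat_lit 6) (nat_lit 14))
    (@En.n l1145 (nat_lit 12310) (nat_lit 6) (nat_lit 6))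
    (@En.n l1146 (nat_lit 11334) (nat_lit 3) (nat_lit 11))
    (@En.n l1147 (nat_lit 12305) (nat_lit 4) (nat_lit 3))
    (@En.n l1148 (nat_lit 11692) (nat_lit 5) (nat_lit 7))
    (@En.n l1149 (nat_lit 12308) (nat_lit 6) (nat_lit 3))
    (@En.n l1150 (nat_lit 2628) (nat_lit 8) (nat_lit 13))
    (@En.n l1151 (nat_lit 11503) (nat_lit 13) (nat_lit 10))
    (@En.n l1152 (nat_lit 10795) (nat_lit 10) (nat_lit 13))
    (@En.n l1153 (nat_lit 16) (nat_lit 3) (nat_lit 6))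
    (@En.n l17 (nat_lit 12307) (nat_lit 11) (nat_lit 2))
    (@En.n l1154 (nat_lit 12292) (nat_lit 13) (nat_lit 9))
    (@En.n l1155 (nat_lit 12516) (nat_lit 1) (nat_lit 14))
    (@En.n l1156 (nat_lit 11692) (nat_lit 2) (nat_lit 5))
    (@En.n l1157 (nat_lit 12307) (nat_lit 15) (nat_lit 2))))
  (@Cl.mk (nat_lit 0x20005000e000900020006000d000c000b000300070004000b0005000e000a) (nat_lit 0xc6005560003034) (nat_lit 16) Lb.e (@T16.mk En
    (@En.n l3812 (nat_lit 12330) (nat_lit 4) (nat_lit 10))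
    (@En.n l3513 (nat_lit 12311) (nat_lit 6) (nat_lit 14))
    (@En.n l1247 (nat_lit 12379) (nat_lit 6) (nat_lit 5))
    (@En.i (nat_lit 11330) (nat_lit 3) (nat_lit 11))
    (@En.n l1544 (nat_lit 12086) (nat_lit 4) (nat_lit 4))
    (@En.n l501 (nat_lit 12239) (nat_lit 5) (nat_lit 7))
    (@En.n l344 (nat_lit 12307) (nat_lit 6) (nat_lit 3))
    (@En.n l3813 (nat_lit 12759) (nat_lit 0) (nat_lit 11))
    (@En.n l3814 (nat_lit 12305) (nat_lit 9) (nat_lit 12))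
    (@En.n l3815 (nat_lit 10800) (nat_lit 10) (nat_lit 13))
    (@En.n l810 (nat_lit 10768) (nat_lit 11) (nat_lit 6))
    (@En.n l28 (nat_lit 12308) (nat_lit 11) (nat_lit 2))
    (@En.n l430 (nat_lit 12293) (nat_lit 13) (nat_lit 9))
    (@En.n l3816 (nat_lit 12517) (nat_lit 1) (nat_lit 14))
    (@En.i (nat_lit 11693) (nat_lit 2) (nat_lit 5))
    (@En.n l3 (nat_lit 12308) (nat_lit 15) (nat_lit 2))))
  (@Cl.mk (nat_lit 0x20007000d0007000d000300070003000b000e0009000200090005000e0009) (nat_lit 0x60400042305094) (nat_lit 16) Lb.e (@T16.mk En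
    (@En.i (nat_lit 12291) (nat_lit 12) (nat_lit 9))
    (@En.i (nat_lit 6479) (nat_lit 1) (nat_lit 14))
    (@En.n l3015 (nat_lit 12307) (nat_lit 14) (nat_lit 5))
    (@En.n l268 (nat_lit 11458) (nat_lit 3) (nat_lit 9))
    (@En.n l67 (nat_lit 12309) (nat_lit 4) (nat_lit 2))
    (@En.n l68 (nat_lit 12315) (nat_lit 5) (nat_lit 9))
    (@En.n l3123 (nat_lit 11360) (nat_lit 7) (nat_lit 14))
    (@En.n l3124 (nat_lit 11333) (nat_lit 2) (nat_lit 11))
    (@En.n l3125 (nat_lit 12306) (nat_lit 8) (nat_lit 3))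
    (@En.n l3126 (nat_lit 11689) (nat_lit 4) (nat_lit 7))
    (@En.n l3125 (nat_lit 12311) (nat_lit 10) (nat_lit 3))
    (@En.i (nat_lit 2501) (nat_lit 7) (nat_lit 13))
    (@En.n l3127 (nat_lit 7962) (nat_lit 13) (nat_lit 7))
    (@En.n l3125 (nat_lit 10797) (nat_lit 9) (nat_lit 13))
    (@En.i (nat_lit 10691) (nat_lit 3) (nat_lit 7))
    (@En.n l17 (nat_lit 12309) (nat_lit 15) (nat_lit 2))))
  (@Cl.mk (nat_lit 0x20006000c000a0007000d0004000800030006000e000a00020009000e0008) (nat_lit 0xa4050500b30584) (nat_lit 16) Lb.e (@T16.mk En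
    (@En.n l3797 (nat_lit 12294) (nat_lit 13) (nat_lit 8))
    (@En.n l3798 (nat_lit 12518) (nat_lit 1) (nat_lit 14))
    (@En.n l3799 (nat_lit 12166) (nat_lit 2) (nat_lit 9))
    (@En.n l50 (nat_lit 12310) (nat_lit 3) (nat_lit 2))
    (@En.n l3800 (nat_lit 12314) (nat_lit 4) (nat_lit 10))
    (@En.n l601 (nat_lit 12541) (nat_lit 6) (nat_lit 14))
    (@En.n l3801 (nat_lit 11656) (nat_lit 12) (nat_lit 6))
    (@En.n l11 (nat_lit 12304) (nat_lit 7) (nat_lit 3))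
    (@En.n l3802 (nat_lit 11694) (nat_lit 0) (nat_lit 8))
    (@En.i (nat_lit 12379) (nat_lit 9) (nat_lit 4))
    (@En.n l2285 (nat_lit 12307) (nat_lit 7) (nat_lit 13))
    (@En.n l3797 (nat_lit 12309) (nat_lit 12) (nat_lit 7))
    (@En.i (nat_lit 12382) (nat_lit 13) (nat_lit 10))
    (@En.n l2396 (nat_lit 10796) (nat_lit 10) (nat_lit 12))
    (@En.n l1080 (nat_lit 10690) (nat_lit 6) (nat_lit 6))
    (@En.n l3 (nat_lit 12310) (nat_lit 15) (nat_lit 2))))
  (@Cl.mk (nat_lit 0x20007000d000c0008000300070004000b000e0009000200080005000e0009) (nat_lit 0x551000323030c3) (nat_lit 16) Lb.e (@T16.mk En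
    (@En.n l7212 (nat_lit 12290) (nat_lit 12) (nat_lit 9))
    (@En.n l781 (nat_lit 6478) (nat_lit 1) (nat_lit 14))
    (@En.n l7213 (nat_lit 12308) (nat_lit 14) (nat_lit 5))
    (@En.n l7214 (nat_lit 10347) (nat_lit 3) (nat_lit 8))
    (@En.n l17 (nat_lit 12311) (nat_lit 4) (nat_lit 2))
    (@En.n l6102 (nat_lit 9639) (nat_lit 5) (nat_lit 9))
    (@En.i (nat_lit 12544) (nat_lit 7) (nat_lit 14))
    (@En.n l1162 (nat_lit 11331) (nat_lit 2) (nat_lit 11))
    (@En.i (nat_lit 12778) (nat_lit 3) (nat_lit 4))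
    (@En.n l7215 (nat_lit 12242) (nat_lit 4) (nat_lit 7))
    (@En.n l7216 (nat_lit 12309) (nat_lit 10) (nat_lit 3))
    (@En.n l7217 (nat_lit 4778) (nat_lit 0) (nat_lit 8))
    (@En.n l644 (nat_lit 12306) (nat_lit 13) (nat_lit 12))
    (@En.i (nat_lit 10799) (nat_lit 9) (nat_lit 13))
    (@En.n l3340 (nat_lit 10767) (nat_lit 3) (nat_lit 7))
    (@En.n l11 (nat_lit 12311) (nat_lit 15) (nat_lit 2))))
  (@Cl.mk (nat_lit 0x200060006000d000a000d000300080003000c0006000a000a0004000e0008) (nat_lit 0x55502040370a5) (nat_lit 16) Lb.e (@T16.mk En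
    (@En.i (nat_lit 11998) (nat_lit 6) (nat_lit 8))
    (@En.n l1105 (nat_lit 8052) (nat_lit 1) (nat_lit 14))
    (@En.n l3694 (nat_lit 12316) (nat_lit 2) (nat_lit 4))
    (@En.n l619 (nat_lit 12332) (nat_lit 6) (nat_lit 10))
    (@En.i (nat_lit 10935) (nat_lit 4) (nat_lit 10))
    (@En.n l1769 (nat_lit 12314) (nat_lit 5) (nat_lit 6))
    (@En.n l3669 (nat_lit 9930) (nat_lit 7) (nat_lit 12))
    (@En.n l3695 (nat_lit 12303) (nat_lit 7) (nat_lit 3))
    (@En.n l1110 (nat_lit 11671) (nat_lit 0) (nat_lit 8))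
    (@En.n l3696 (nat_lit 12330) (nat_lit 9) (nat_lit 3))
    (@En.n l1110 (nat_lit 2547) (nat_lit 11) (nat_lit 13))
    (@En.i (nat_lit 11533) (nat_lit 12) (nat_lit 10))
    (@En.n l1112 (nat_lit 9611) (nat_lit 13) (nat_lit 13))
    (@En.i (nat_lit 12307) (nat_lit 10) (nat_lit 6))
    (@En.n l3518 (nat_lit 12413) (nat_lit 4) (nat_lit 6))
    (@En.n l17 (nat_lit 12312) (nat_lit 15) (nat_lit 2))))
  (@Cl.mk (nat_lit 0x200060006000b000a0008000d0008000500030006000a000a0008000e0008) (nat_lit 0x55272000365a5) (nat_lit 16) Lb.e (@T16.mk En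
    (@En.n l17 (nat_lit 10739) (nat_lit 10) (nat_lit 8))
    (@En.n l16162 (nat_lit 8057) (nat_lit 1) (nat_lit 14))
    (@En.n l4233 (nat_lit 12073) (nat_lit 2) (nat_lit 8))
    (@En.n l16367 (nat_lit 12341) (nat_lit 6) (nat_lit 10))
    (@En.n l16162 (nat_lit 11300) (nat_lit 4) (nat_lit 10))
    (@En.n l16368 (nat_lit 4896) (nat_lit 5) (nat_lit 6))
    (@En.n l3800 (nat_lit 12314) (nat_lit 6) (nat_lit 3))
    (@En.n l11499 (nat_lit 12762) (nat_lit 0) (nat_lit 5))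
    (@En.n l117 (nat_lit 10349) (nat_lit 9) (nat_lit 8))
    (@En.n l2283 (nat_lit 12303) (nat_lit 10) (nat_lit 13))
    (@En.n l16369 (nat_lit 12319) (nat_lit 11) (nat_lit 8))
    (@En.i (nat_lit 11535) (nat_lit 12) (nat_lit 10))
    (@En.n l16370 (nat_lit 9606) (nat_lit 13) (nat_lit 11))
    (@En.n l644 (nat_lit 12304) (nat_lit 14) (nat_lit 6))
    (@En.i (nat_lit 12430) (nat_lit 7) (nat_lit 6))
    (@En.n l3 (nat_lit 12313) (nat_lit 15) (nat_lit 2))))
  (@Cl.mk (nat_lit 0x200060006000c000a0008000d0004000900030006000a000a0008000e0007) (nat_lit 0x65260500274a0) (nat_lit 16) Lb.e (@T16.mk En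
    (@En.i (nat_lit 11999) (nat_lit 10) (nat_lit 7))
    (@En.n l10371 (nat_lit 8055) (nat_lit 1) (nat_lit 14))
    (@En.n l10372 (nat_lit 12358) (nat_lit 2) (nat_lit 8))
    (@En.n l10373 (nat_lit 12339) (nat_lit 6) (nat_lit 10))
    (@En.n l10371 (nat_lit 11299) (nat_lit 4) (nat_lit 10))
    (@En.n l10374 (nat_lit 11652) (nat_lit 12) (nat_lit 6))
    (@En.n l10375 (nat_lit 12313) (nat_lit 6) (nat_lit 3))
    (@En.n l10376 (nat_lit 12288) (nat_lit 0) (nat_lit 9))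
    (@En.n l10377 (nat_lit 11517) (nat_lit 8) (nat_lit 4))
    (@En.n l2941 (nat_lit 12312) (nat_lit 10) (nat_lit 13))
    (@En.i (nat_lit 12315) (nat_lit 11) (nat_lit 8))
    (@En.n l10378 (nat_lit 11534) (nat_lit 12) (nat_lit 10))
    (@En.n l10379 (nat_lit 9612) (nat_lit 13) (nat_lit 12))
    (@En.n l10380 (nat_lit 12310) (nat_lit 14) (nat_lit 6))
    (@En.n l3518 (nat_lit 11825) (nat_lit 7) (nat_lit 6))
    (@En.n l17 (nat_lit 12314) (nat_lit 15) (nat_lit 2))))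
  (@Cl.mk (nat_lit 0x200070007000d0008000d000300080003000c0009000900080004000e0008) (nat_lit 0x91505052430a3) (nat_lit 16) Lb.e (@T16.mk En
    (@En.i (nat_lit 12003) (nat_lit 6) (nat_lit 8))
    (@En.n l1105 (nat_lit 6035) (nat_lit 1) (nat_lit 14))
    (@En.n l936 (nat_lit 12312) (nat_lit 2) (nat_lit 4))
    (@En.n l55 (nat_lit 10937) (nat_lit 3) (nat_lit 8))
    (@En.n l8763 (nat_lit 12335) (nat_lit 7) (nat_lit 9))
    (@En.n l7896 (nat_lit 12063) (nat_lit 5) (nat_lit 9))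
    (@En.n l8764 (nat_lit 9933) (nat_lit 7) (nat_lit 12))
    (@En.n l8765 (nat_lit 12319) (nat_lit 7) (nat_lit 3))
    (@En.n l8766 (nat_lit 10914) (nat_lit 0) (nat_lit 8))
    (@En.n l8765 (nat_lit 9639) (nat_lit 9) (nat_lit 3))
    (@En.n l1113 (nat_lit 2563) (nat_lit 0) (nat_lit 13))
    (@En.n l8767 (nat_lit 6440) (nat_lit 12) (nat_lit 8))
    (@En.n l1112 (nat_lit 9638) (nat_lit 13) (nat_lit 13))
    (@En.n l11 (nat_lit 12309) (nat_lit 14) (nat_lit 7))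
    (@En.n l3518 (nat_lit 10141) (nat_lit 4) (nat_lit 7))
    (@En.n l17 (nat_lit 12315) (nat_lit 15) (nat_lit 2))))
  (@Cl.mk (nat_lit 0x200050008000d0009000d000300080003000c00080007000b0004000e0008) (nat_lit 0x68450507402085) (nat_lit 16) Lb.e (@T16.mk En
    (@En.n l10173 (nat_lit 12019) (nat_lit 6) (nat_lit 8))
    (@En.n l9618 (nat_lit 12063) (nat_lit 1) (nat_lit 14))
    (@En.n l10174 (nat_lit 12315) (nat_lit 2) (nat_lit 4))
    (@En.n l1038 (nat_lit 10938) (nat_lit 3) (nat_lit 11))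
    (@En.i (nat_lit 10939) (nat_lit 4) (nat_lit 7))
    (@En.n l1037 (nat_lit 12324) (nat_lit 5) (nat_lit 8))
    (@En.n l10175 (nat_lit 11240) (nat_lit 7) (nat_lit 12))
    (@En.n l3793 (nat_lit 12317) (nat_lit 7) (nat_lit 3))
    (@En.i (nat_lit 11598) (nat_lit 0) (nat_lit 8))
    (@En.n l2678 (nat_lit 11139) (nat_lit 9) (nat_lit 3))
    (@En.n l135 (nat_lit 3510) (nat_lit 11) (nat_lit 13))
    (@En.n l11 (nat_lit 11663) (nat_lit 12) (nat_lit 9))
    (@En.n l3774 (nat_lit 11256) (nat_lit 13) (nat_lit 13))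
    (@En.n l1245 (nat_lit 11694) (nat_lit 10) (nat_lit 8))
    (@En.n l10176 (nat_lit 9977) (nat_lit 13) (nat_lit 5))
    (@En.n l3 (nat_lit 12316) (nat_lit 15) (nat_lit 2))))
  (@Cl.mk (nat_lit 0x200050008000c0009000d000700040003000c00080007000b0004000e0009) (nat_lit 0x653600046020a3) (nat_lit 16) Lb.e (@T16.mk En
    (@En.n l16710 (nat_lit 12020) (nat_lit 1) (nat_lit 9))
    (@En.n l16711 (nat_lit 12318) (nat_lit 1) (nat_lit 14))
    (@En.n l16712 (nat_lit 12319) (nat_lit 2) (nat_lit 4))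
    (@En.n l10937 (nat_lit 10934) (nat_lit 3) (nat_lit 11))
    (@En.n l6752 (nat_lit 8030) (nat_lit 4) (nat_lit 7))
    (@En.n l1460 (nat_lit 12320) (nat_lit 5) (nat_lit 8))
    (@En.n l6753 (nat_lit 7543) (nat_lit 7) (nat_lit 12))
    (@En.n l6752 (nat_lit 12316) (nat_lit 7) (nat_lit 3))
    (@En.n l11 (nat_lit 10989) (nat_lit 8) (nat_lit 4))
    (@En.n l6753 (nat_lit 10365) (nat_lit 10) (nat_lit 7))
    (@En.i (nat_lit 3507) (nat_lit 11) (nat_lit 13))
    (@En.n l4416 (nat_lit 11664) (nat_lit 12) (nat_lit 9))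
    (@En.i (nat_lit 9501) (nat_lit 13) (nat_lit 12))
    (@En.n l16713 (nat_lit 11695) (nat_lit 10) (nat_lit 8))
    (@En.i (nat_lit 8906) (nat_lit 13) (nat_lit 5))
    (@En.n l3 (nat_lit 12317) (nat_lit 15) (nat_lit 2))))
  (@Cl.mk (nat_lit 0x2000700050008000c0009000d000800040003000900080007000b000e0008) (nat_lit 0x5447300250292) (nat_lit 16) Lb.e (@T16.mk En
    (@En.i (nat_lit 12060) (nat_lit 2) (nat_lit 8))
    (@En.n l29554 (nat_lit 7039) (nat_lit 4) (nat_lit 14))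
    (@En.n l29555 (nat_lit 10942) (nat_lit 2) (nat_lit 11))
    (@En.n l29556 (nat_lit 8031) (nat_lit 3) (nat_lit 7))
    (@En.n l9605 (nat_lit 12321) (nat_lit 4) (nat_lit 8))
    (@En.n l29557 (nat_lit 10869) (nat_lit 5) (nat_lit 9))
    (@En.n l29558 (nat_lit 12063) (nat_lit 6) (nat_lit 3))
    (@En.i (nat_lit 10988) (nat_lit 7) (nat_lit 4))
    (@En.n l29559 (nat_lit 10366) (nat_lit 9) (nat_lit 8))
    (@En.n l29560 (nat_lit 3493) (nat_lit 10) (nat_lit 13))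
    (@En.n l8516 (nat_lit 11668) (nat_lit 11) (nat_lit 9))
    (@En.n l29560 (nat_lit 9894) (nat_lit 12) (nat_lit 12))
    (@En.i (nat_lit 11358) (nat_lit 13) (nat_lit 8))
    (@En.n l29561 (nat_lit 12317) (nat_lit 14) (nat_lit 5))
    (@En.n l29562 (nat_lit 10201) (nat_lit 7) (nat_lit 7))
    (@En.n l11 (nat_lit 12318) (nat_lit 15) (nat_lit 2))))
  (@Cl.mk (nat_lit 0x200070007000c0008000d000700040003000c0009000900080004000e0009) (nat_lit 0x31600053550a2) (nat_lit 16) Lb.e (@T16.mk En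
    (@En.n l15019 (nat_lit 10747) (nat_lit 14) (nat_lit 9))
    (@En.n l4153 (nat_lit 6034) (nat_lit 1) (nat_lit 14))
    (@En.n l15020 (nat_lit 12303) (nat_lit 2) (nat_lit 4))
    (@En.n l473 (nat_lit 10933) (nat_lit 3) (nat_lit 8))
    (@En.n l152 (nat_lit 12340) (nat_lit 7) (nat_lit 9))
    (@En.n l11479 (nat_lit 12318) (nat_lit 5) (nat_lit 9))
    (@En.n l15021 (nat_lit 7186) (nat_lit 7) (nat_lit 12))
    (@En.n l15019 (nat_lit 12315) (nat_lit 7) (nat_lit 3))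
    (@En.n l11479 (nat_lit 10996) (nat_lit 8) (nat_lit 4))
    (@En.n l3213 (nat_lit 10521) (nat_lit 10) (nat_lit 7))
    (@En.n l8346 (nat_lit 1843) (nat_lit 11) (nat_lit 13))
    (@En.n l15022 (nat_lit 6442) (nat_lit 12) (nat_lit 8))
    (@En.n l15023 (nat_lit 9352) (nat_lit 13) (nat_lit 12))
    (@En.n l5069 (nat_lit 12306) (nat_lit 14) (nat_lit 7))
    (@En.n l473 (nat_lit 10142) (nat_lit 6) (nat_lit 7))
    (@En.n l17 (nat_lit 12319) (nat_lit 15) (nat_lit 2))))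
noncomputable def a770 : T16 Cl := @T16.mk Cl
  (@Cl.mk (nat_lit 0x2000500080006000c000a000d00080004000300080006000b000a000e0008) (nat_lit 0x30627300509554) (nat_lit 16) Lb.e (@T16.mk En
    (@En.n l9012 (nat_lit 11124) (nat_lit 1) (nat_lit 8))
    (@En.n l3076 (nat_lit 12321) (nat_lit 1) (nat_lit 14))
    (@En.i (nat_lit 12322) (nat_lit 2) (nat_lit 10))
    (@En.n l9013 (nat_lit 12652) (nat_lit 3) (nat_lit 11))
    (@En.n l9014 (nat_lit 12653) (nat_lit 4) (nat_lit 6))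
    (@En.n l9015 (nat_lit 12814) (nat_lit 5) (nat_lit 8))
    (@En.n l50 (nat_lit 12324) (nat_lit 6) (nat_lit 3))
    (@En.n l9016 (nat_lit 7658) (nat_lit 7) (nat_lit 4))
    (@En.n l217 (nat_lit 10841) (nat_lit 9) (nat_lit 8))
    (@En.n l9017 (nat_lit 1385) (nat_lit 10) (nat_lit 13))
    (@En.n l939 (nat_lit 11941) (nat_lit 11) (nat_lit 10))
    (@En.n l3075 (nat_lit 11257) (nat_lit 12) (nat_lit 12))
    (@En.n l9018 (nat_lit 12303) (nat_lit 13) (nat_lit 6))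
    (@En.n l9019 (nat_lit 11688) (nat_lit 14) (nat_lit 8))
    (@En.n l9020 (nat_lit 12702) (nat_lit 13) (nat_lit 5))
    (@En.n l17 (nat_lit 12320) (nat_lit 15) (nat_lit 2))))
  (@Cl.mk (nat_lit 0x2000d000500080003000c000a000d00090004000300080006000b000e0007) (nat_lit 0x302053830040940) (nat_lit 16) Lb.e (@T16.mk En
    (@En.n l2869 (nat_lit 11874) (nat_lit 4) (nat_lit 7))
    (@En.n l21045 (nat_lit 3435) (nat_lit 4) (nat_lit 14))
    (@En.n l21057 (nat_lit 12635) (nat_lit 2) (nat_lit 11))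
    (@En.n l11263 (nat_lit 12663) (nat_lit 3) (nat_lit 6))
    (@En.n l1599 (nat_lit 12813) (nat_lit 4) (nat_lit 8))
    (@En.n l21058 (nat_lit 12323) (nat_lit 5) (nat_lit 3))
    (@En.n l10807 (nat_lit 7664) (nat_lit 0) (nat_lit 4))
    (@En.n l21059 (nat_lit 11471) (nat_lit 0) (nat_lit 9))
    (@En.n l21060 (nat_lit 1386) (nat_lit 5) (nat_lit 13))
    (@En.n l175 (nat_lit 11921) (nat_lit 10) (nat_lit 10))
    (@En.n l21061 (nat_lit 11258) (nat_lit 11) (nat_lit 12))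
    (@En.n l21057 (nat_lit 12322) (nat_lit 11) (nat_lit 3))
    (@En.i (nat_lit 11362) (nat_lit 0) (nat_lit 8))
    (@En.n l9026 (nat_lit 12320) (nat_lit 14) (nat_lit 5))
    (@En.n l3815 (nat_lit 12438) (nat_lit 2) (nat_lit 13))
    (@En.n l17 (nat_lit 12321) (nat_lit 15) (nat_lit 2))))
  (@Cl.mk (nat_lit 0x2000d000700060003000c000a000d00090004000300090006000a000e0007) (nat_lit 0x200053a30030480) (nat_lit 16) Lb.e (@T16.mk En
    (@En.i (nat_lit 11877) (nat_lit 4) (nat_lit 7))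
    (@En.n l1769 (nat_lit 3430) (nat_lit 1) (nat_lit 14))
    (@En.i (nat_lit 12491) (nat_lit 2) (nat_lit 10))
    (@En.n l7156 (nat_lit 12666) (nat_lit 3) (nat_lit 6))
    (@En.n l10703 (nat_lit 11436) (nat_lit 4) (nat_lit 9))
    (@En.n l50 (nat_lit 12325) (nat_lit 5) (nat_lit 3))
    (@En.n l21169 (nat_lit 7667) (nat_lit 0) (nat_lit 4))
    (@En.n l217 (nat_lit 11467) (nat_lit 0) (nat_lit 9))
    (@En.i (nat_lit 1237) (nat_lit 5) (nat_lit 13))
    (@En.n l7156 (nat_lit 11922) (nat_lit 10) (nat_lit 10))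
    (@En.n l649 (nat_lit 9633) (nat_lit 11) (nat_lit 12))
    (@En.n l9032 (nat_lit 12321) (nat_lit 11) (nat_lit 3))
    (@En.n l15288 (nat_lit 11069) (nat_lit 0) (nat_lit 6))
    (@En.n l9019 (nat_lit 12318) (nat_lit 14) (nat_lit 7))
    (@En.n l15031 (nat_lit 10689) (nat_lit 2) (nat_lit 13))
    (@En.n l17 (nat_lit 12322) (nat_lit 15) (nat_lit 2))))
  (@Cl.mk (nat_lit 0x2000d000500080003000d000a000d0003000a000300080006000b000e0006) (nat_lit 0x205013a04030380) (nat_lit 16) Lb.e (@T16.mk En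
    (@En.n l8886 (nat_lit 12447) (nat_lit 8) (nat_lit 6))
    (@En.i (nat_lit 3433) (nat_lit 4) (nat_lit 14))
    (@En.n l936 (nat_lit 12637) (nat_lit 2) (nat_lit 11))
    (@En.n l3082 (nat_lit 12661) (nat_lit 3) (nat_lit 6))
    (@En.n l8887 (nat_lit 11906) (nat_lit 4) (nat_lit 8))
    (@En.n l8888 (nat_lit 12321) (nat_lit 5) (nat_lit 3))
    (@En.n l1101 (nat_lit 11679) (nat_lit 0) (nat_lit 10))
    (@En.n l8889 (nat_lit 12326) (nat_lit 7) (nat_lit 3))
    (@En.n l5320 (nat_lit 1387) (nat_lit 0) (nat_lit 13))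
    (@En.n l3571 (nat_lit 11916) (nat_lit 10) (nat_lit 10))
    (@En.n l645 (nat_lit 913) (nat_lit 11) (nat_lit 13))
    (@En.n l936 (nat_lit 12325) (nat_lit 11) (nat_lit 3))
    (@En.n l8888 (nat_lit 11359) (nat_lit 0) (nat_lit 8))
    (@En.n l3015 (nat_lit 12324) (nat_lit 14) (nat_lit 5))
    (@En.n l3013 (nat_lit 10690) (nat_lit 2) (nat_lit 13))
    (@En.n l17 (nat_lit 12323) (nat_lit 15) (nat_lit 2))))
  (@Cl.mk (nat_lit 0x2000500080006000d000a000d00030009000300080006000b000a000e0007) (nat_lit 0x30126040303490) (nat_lit 16) Lb.e (@T16.mk En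
    (@En.n l3068 (nat_lit 11121) (nat_lit 7) (nat_lit 7))
    (@En.n l3069 (nat_lit 12323) (nat_lit 1) (nat_lit 14))
    (@En.i (nat_lit 12325) (nat_lit 2) (nat_lit 10))
    (@En.n l3070 (nat_lit 12329) (nat_lit 3) (nat_lit 11))
    (@En.n l3070 (nat_lit 12662) (nat_lit 4) (nat_lit 6))
    (@En.n l3071 (nat_lit 11907) (nat_lit 5) (nat_lit 8))
    (@En.i (nat_lit 12320) (nat_lit 6) (nat_lit 3))
    (@En.n l3072 (nat_lit 9333) (nat_lit 0) (nat_lit 9))
    (@En.n l3073 (nat_lit 12327) (nat_lit 8) (nat_lit 3))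
    (@En.n l3074 (nat_lit 1384) (nat_lit 10) (nat_lit 13))
    (@En.i (nat_lit 11937) (nat_lit 11) (nat_lit 10))
    (@En.n l3075 (nat_lit 914) (nat_lit 12) (nat_lit 13))
    (@En.n l3068 (nat_lit 12312) (nat_lit 13) (nat_lit 6))
    (@En.n l3076 (nat_lit 11689) (nat_lit 14) (nat_lit 8))
    (@En.n l942 (nat_lit 12701) (nat_lit 13) (nat_lit 5))
    (@En.n l17 (nat_lit 12324) (nat_lit 15) (nat_lit 2))))
  (@Cl.mk (nat_lit 0x2000d000700060003000d000a000d0003000a000300090006000a000e0006) (nat_lit 0x600083803020380) (nat_lit 16) Lb.e (@T16.mk En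
    (@En.i (nat_lit 12453) (nat_lit 8) (nat_lit 6))
    (@En.n l1769 (nat_lit 3427) (nat_lit 1) (nat_lit 14))
    (@En.i (nat_lit 12488) (nat_lit 2) (nat_lit 10))
    (@En.n l1769 (nat_lit 12664) (nat_lit 3) (nat_lit 6))
    (@En.i (nat_lit 11891) (nat_lit 4) (nat_lit 9))
    (@En.i (nat_lit 12322) (nat_lit 5) (nat_lit 3))
    (@En.i (nat_lit 11675) (nat_lit 0) (nat_lit 10))
    (@En.i (nat_lit 12328) (nat_lit 7) (nat_lit 3))
    (@En.i (nat_lit 1388) (nat_lit 0) (nat_lit 13))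
    (@En.i (nat_lit 11913) (nat_lit 10) (nat_lit 10))
    (@En.n l649 (nat_lit 6552) (nat_lit 11) (nat_lit 13))
    (@En.n l1483 (nat_lit 12323) (nat_lit 11) (nat_lit 3))
    (@En.n l1900 (nat_lit 12332) (nat_lit 0) (nat_lit 6))
    (@En.n l1769 (nat_lit 12063) (nat_lit 14) (nat_lit 7))
    (@En.n l1767 (nat_lit 12437) (nat_lit 2) (nat_lit 13))
    (@En.n l17 (nat_lit 12325) (nat_lit 15) (nat_lit 2))))
  (@Cl.mk (nat_lit 0x2000d000500080003000d000c000b0003000a000400080005000b000e0006) (nat_lit 0x504016602040490) (nat_lit 16) Lb.e (@T16.mk En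
    (@En.n l2869 (nat_lit 12445) (nat_lit 8) (nat_lit 6))
    (@En.n l9025 (nat_lit 3434) (nat_lit 4) (nat_lit 14))
    (@En.n l14560 (nat_lit 12634) (nat_lit 2) (nat_lit 11))
    (@En.n l2547 (nat_lit 12769) (nat_lit 3) (nat_lit 5))
    (@En.n l3213 (nat_lit 11904) (nat_lit 4) (nat_lit 8))
    (@En.i (nat_lit 12626) (nat_lit 5) (nat_lit 4))
    (@En.n l9025 (nat_lit 11761) (nat_lit 11) (nat_lit 10))
    (@En.n l21045 (nat_lit 12323) (nat_lit 7) (nat_lit 3))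
    (@En.n l77 (nat_lit 12629) (nat_lit 0) (nat_lit 11))
    (@En.n l1578 (nat_lit 12321) (nat_lit 10) (nat_lit 12))
    (@En.n l9025 (nat_lit 919) (nat_lit 11) (nat_lit 13))
    (@En.n l14560 (nat_lit 12328) (nat_lit 11) (nat_lit 3))
    (@En.i (nat_lit 11361) (nat_lit 0) (nat_lit 8))
    (@En.i (nat_lit 12327) (nat_lit 14) (nat_lit 5))
    (@En.i (nat_lit 10770) (nat_lit 2) (nat_lit 13))
    (@En.n l17 (nat_lit 12326) (nat_lit 15) (nat_lit 2))))
  (@Cl.mk (nat_lit 0x2000500080006000d000c000b00030009000400080005000b000a000e0007) (nat_lit 0x301720204044a0) (nat_lit 16) Lb.e (@T16.mk En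
    (@En.n l2869 (nat_lit 12344) (nat_lit 7) (nat_lit 7))
    (@En.n l476 (nat_lit 12326) (nat_lit 1) (nat_lit 14))
    (@En.n l9022 (nat_lit 12328) (nat_lit 2) (nat_lit 10))
    (@En.n l9023 (nat_lit 12636) (nat_lit 3) (nat_lit 11))
    (@En.n l2085 (nat_lit 12119) (nat_lit 4) (nat_lit 5))
    (@En.n l9024 (nat_lit 11905) (nat_lit 5) (nat_lit 8))
    (@En.i (nat_lit 11755) (nat_lit 6) (nat_lit 4))
    (@En.n l9025 (nat_lit 11762) (nat_lit 8) (nat_lit 9))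
    (@En.n l9026 (nat_lit 12324) (nat_lit 8) (nat_lit 3))
    (@En.n l77 (nat_lit 11754) (nat_lit 10) (nat_lit 11))
    (@En.n l9027 (nat_lit 12320) (nat_lit 11) (nat_lit 12))
    (@En.n l9028 (nat_lit 976) (nat_lit 12) (nat_lit 13))
    (@En.n l2089 (nat_lit 12330) (nat_lit 13) (nat_lit 6))
    (@En.n l476 (nat_lit 11691) (nat_lit 14) (nat_lit 8))
    (@En.n l899 (nat_lit 10535) (nat_lit 13) (nat_lit 5))
    (@En.n l17 (nat_lit 12327) (nat_lit 15) (nat_lit 2))))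
  (@Cl.mk (nat_lit 0x2000d000700060003000d000c000b0003000a000400090005000a000e0006) (nat_lit 0x600086602020390) (nat_lit 16) Lb.e (@T16.mk En
    (@En.n l20848 (nat_lit 12452) (nat_lit 8) (nat_lit 6))
    (@En.n l21138 (nat_lit 3432) (nat_lit 1) (nat_lit 14))
    (@En.i (nat_lit 12489) (nat_lit 2) (nat_lit 10))
    (@En.n l10972 (nat_lit 12772) (nat_lit 3) (nat_lit 5))
    (@En.n l21095 (nat_lit 11890) (nat_lit 4) (nat_lit 9))
    (@En.n l21170 (nat_lit 11067) (nat_lit 5) (nat_lit 4))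
    (@En.n l21138 (nat_lit 11764) (nat_lit 11) (nat_lit 10))
    (@En.n l7 (nat_lit 12325) (nat_lit 7) (nat_lit 3))
    (@En.n l21171 (nat_lit 12632) (nat_lit 0) (nat_lit 11))
    (@En.n l644 (nat_lit 12322) (nat_lit 10) (nat_lit 12))
    (@En.n l3528 (nat_lit 6550) (nat_lit 11) (nat_lit 13))
    (@En.n l3073 (nat_lit 12326) (nat_lit 11) (nat_lit 3))
    (@En.n l21172 (nat_lit 11068) (nat_lit 0) (nat_lit 6))
    (@En.n l3073 (nat_lit 11138) (nat_lit 14) (nat_lit 7))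
    (@En.n l1767 (nat_lit 12436) (nat_lit 2) (nat_lit 13))
    (@En.n l17 (nat_lit 12328) (nat_lit 15) (nat_lit 2))))
  (@Cl.mk (nat_lit 0x20005000c00080007000d0004000d0003000a00030008000b0009000e0006) (nat_lit 0xa4010703052360) (nat_lit 16) Lb.e (@T16.mk En
    (@En.n l8992 (nat_lit 11123) (nat_lit 8) (nat_lit 6))
    (@En.n l8993 (nat_lit 12637) (nat_lit 1) (nat_lit 14))
    (@En.n l8994 (nat_lit 12110) (nat_lit 2) (nat_lit 9))
    (@En.i (nat_lit 4037) (nat_lit 3) (nat_lit 11))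
    (@En.n l253 (nat_lit 12731) (nat_lit 4) (nat_lit 8))
    (@En.n l3942 (nat_lit 12652) (nat_lit 5) (nat_lit 3))
    (@En.n l8995 (nat_lit 12228) (nat_lit 0) (nat_lit 10))
    (@En.i (nat_lit 12636) (nat_lit 7) (nat_lit 3))
    (@En.n l8996 (nat_lit 1282) (nat_lit 9) (nat_lit 13))
    (@En.n l8997 (nat_lit 12358) (nat_lit 9) (nat_lit 4))
    (@En.i (nat_lit 912) (nat_lit 11) (nat_lit 13))
    (@En.n l8992 (nat_lit 10935) (nat_lit 12) (nat_lit 7))
    (@En.n l8998 (nat_lit 12324) (nat_lit 13) (nat_lit 8))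
    (@En.n l4850 (nat_lit 11174) (nat_lit 14) (nat_lit 12))
    (@En.n l8999 (nat_lit 12706) (nat_lit 13) (nat_lit 5))
    (@En.n l18 (nat_lit 12329) (nat_lit 15) (nat_lit 2))))
  (@Cl.mk (nat_lit 0x200060006000d000c000b000300080004000c0005000a000a0004000e0008) (nat_lit 0x56402040340b2) (nat_lit 16) Lb.e (@T16.mk En
    (@En.n l10385 (nat_lit 11997) (nat_lit 6) (nat_lit 8))
    (@En.n l10386 (nat_lit 8058) (nat_lit 1) (nat_lit 14))
    (@En.n l10387 (nat_lit 11139) (nat_lit 2) (nat_lit 4))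
    (@En.n l2345 (nat_lit 11068) (nat_lit 6) (nat_lit 10))
    (@En.n l10385 (nat_lit 10936) (nat_lit 4) (nat_lit 10))
    (@En.n l10388 (nat_lit 11517) (nat_lit 5) (nat_lit 5))
    (@En.n l10389 (nat_lit 9929) (nat_lit 7) (nat_lit 12))
    (@En.n l10390 (nat_lit 11066) (nat_lit 7) (nat_lit 4))
    (@En.n l10391 (nat_lit 12007) (nat_lit 9) (nat_lit 8))
    (@En.n l10392 (nat_lit 12312) (nat_lit 9) (nat_lit 3))
    (@En.n l575 (nat_lit 12758) (nat_lit 11) (nat_lit 11))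
    (@En.n l10393 (nat_lit 12303) (nat_lit 12) (nat_lit 12))
    (@En.n l10394 (nat_lit 9613) (nat_lit 13) (nat_lit 13))
    (@En.n l10395 (nat_lit 12308) (nat_lit 10) (nat_lit 6))
    (@En.n l10396 (nat_lit 12414) (nat_lit 4) (nat_lit 6))
    (@En.n l50 (nat_lit 12330) (nat_lit 15) (nat_lit 2))))
  (@Cl.mk (nat_lit 0x2000d000b000a0003000900090005000d0006000b000300070007000e0005) (nat_lit 0x287062090300060) (nat_lit 16) Lb.e (@T16.mk En
    (@En.n l117 (nat_lit 11997) (nat_lit 4) (nat_lit 5))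
    (@En.n l4356 (nat_lit 12363) (nat_lit 1) (nat_lit 14))
    (@En.n l6368 (nat_lit 12611) (nat_lit 9) (nat_lit 7))
    (@En.n l6081 (nat_lit 10877) (nat_lit 3) (nat_lit 7))
    (@En.n l10252 (nat_lit 12337) (nat_lit 4) (nat_lit 3))
    (@En.i (nat_lit 12485) (nat_lit 0) (nat_lit 11))
    (@En.n l34381 (nat_lit 5618) (nat_lit 6) (nat_lit 6))
    (@En.n l18 (nat_lit 7945) (nat_lit 8) (nat_lit 13))
    (@En.n l4356 (nat_lit 11173) (nat_lit 8) (nat_lit 5))
    (@En.n l34382 (nat_lit 11068) (nat_lit 10) (nat_lit 9))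
    (@En.n l3858 (nat_lit 12358) (nat_lit 11) (nat_lit 9))
    (@En.n l7 (nat_lit 12336) (nat_lit 11) (nat_lit 3))
    (@En.n l34383 (nat_lit 12617) (nat_lit 0) (nat_lit 10))
    (@En.n l5911 (nat_lit 10738) (nat_lit 14) (nat_lit 11))
    (@En.n l34384 (nat_lit 1737) (nat_lit 2) (nat_lit 13))
    (@En.n l11 (nat_lit 12331) (nat_lit 15) (nat_lit 2))))
  (@Cl.mk (nat_lit 0x2000d000a000d000300090003000d0006000a0003000e00070002000e0006) (nat_lit 0x667020706090060) (nat_lit 16) Lb.e (@T16.mk En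
    (@En.n l117 (nat_lit 12312) (nat_lit 14) (nat_lit 6))
    (@En.n l3348 (nat_lit 12040) (nat_lit 1) (nat_lit 14))
    (@En.n l17 (nat_lit 12332) (nat_lit 2) (nat_lit 2))
    (@En.i (nat_lit 12336) (nat_lit 3) (nat_lit 7))
    (@En.n l1531 (nat_lit 8048) (nat_lit 1) (nat_lit 14))
    (@En.n l10252 (nat_lit 12335) (nat_lit 5) (nat_lit 3))
    (@En.i (nat_lit 12399) (nat_lit 3) (nat_lit 10))
    (@En.n l1532 (nat_lit 12339) (nat_lit 7) (nat_lit 6))
    (@En.n l3870 (nat_lit 9927) (nat_lit 9) (nat_lit 13))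
    (@En.n l3871 (nat_lit 11069) (nat_lit 9) (nat_lit 3))
    (@En.i (nat_lit 12101) (nat_lit 11) (nat_lit 9))
    (@En.n l6482 (nat_lit 11068) (nat_lit 11) (nat_lit 3))
    (@En.n l3325 (nat_lit 1840) (nat_lit 0) (nat_lit 13))
    (@En.i (nat_lit 11540) (nat_lit 14) (nat_lit 10))
    (@En.i (nat_lit 5415) (nat_lit 12) (nat_lit 13))
    (@En.n l11 (nat_lit 12332) (nat_lit 15) (nat_lit 2))))
  (@Cl.mk (nat_lit 0x2000d000c000a000300090004000d000900060003000e00070002000e0007) (nat_lit 0x2720108300a0040) (nat_lit 16) Lb.e (@T16.mk En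
    (@En.i (nat_lit 9639) (nat_lit 14) (nat_lit 7))
    (@En.i (nat_lit 12366) (nat_lit 1) (nat_lit 14))
    (@En.n l17 (nat_lit 12333) (nat_lit 2) (nat_lit 2))
    (@En.i (nat_lit 12337) (nat_lit 3) (nat_lit 7))
    (@En.i (nat_lit 6033) (nat_lit 1) (nat_lit 14))
    (@En.n l2229 (nat_lit 11068) (nat_lit 5) (nat_lit 3))
    (@En.i (nat_lit 5703) (nat_lit 6) (nat_lit 6))
    (@En.n l11484 (nat_lit 12328) (nat_lit 4) (nat_lit 9))
    (@En.n l601 (nat_lit 9926) (nat_lit 9) (nat_lit 13))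
    (@En.n l11 (nat_lit 11058) (nat_lit 9) (nat_lit 4))
    (@En.n l17188 (nat_lit 8030) (nat_lit 11) (nat_lit 9))
    (@En.n l11 (nat_lit 12335) (nat_lit 11) (nat_lit 3))
    (@En.n l77 (nat_lit 4906) (nat_lit 0) (nat_lit 10))
    (@En.n l55 (nat_lit 12340) (nat_lit 14) (nat_lit 12))
    (@En.n l615 (nat_lit 1745) (nat_lit 12) (nat_lit 13))
    (@En.n l3 (nat_lit 12333) (nat_lit 15) (nat_lit 2))))
  (@Cl.mk (nat_lit 0x2000d0008000c0003000900090004000d000a0008000300070007000e0006) (nat_lit 0x212066094300020) (nat_lit 16) Lb.e (@T16.mk En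
    (@En.n l117 (nat_lit 12003) (nat_lit 4) (nat_lit 6))
    (@En.n l2351 (nat_lit 12369) (nat_lit 1) (nat_lit 14))
    (@En.n l5333 (nat_lit 12602) (nat_lit 9) (nat_lit 7))
    (@En.n l6081 (nat_lit 10223) (nat_lit 3) (nat_lit 7))
    (@En.n l936 (nat_lit 12336) (nat_lit 4) (nat_lit 3))
    (@En.n l3621 (nat_lit 12393) (nat_lit 0) (nat_lit 8))
    (@En.n l36427 (nat_lit 12453) (nat_lit 11) (nat_lit 10))
    (@En.n l18 (nat_lit 7947) (nat_lit 8) (nat_lit 13))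
    (@En.n l2351 (nat_lit 12170) (nat_lit 8) (nat_lit 4))
    (@En.n l11586 (nat_lit 12335) (nat_lit 10) (nat_lit 9))
    (@En.n l18487 (nat_lit 12163) (nat_lit 11) (nat_lit 9))
    (@En.n l3621 (nat_lit 12337) (nat_lit 11) (nat_lit 3))
    (@En.n l2351 (nat_lit 2712) (nat_lit 0) (nat_lit 12))
    (@En.n l9212 (nat_lit 6587) (nat_lit 14) (nat_lit 8))
    (@En.n l14408 (nat_lit 5359) (nat_lit 2) (nat_lit 13))
    (@En.n l11 (nat_lit 12334) (nat_lit 15) (nat_lit 2))))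
  (@Cl.mk (nat_lit 0x2000d0009000d000300090003000d000900070003000e00070002000e0007) (nat_lit 0x926050830090040) (nat_lit 16) Lb.e (@T16.mk En
    (@En.n l17185 (nat_lit 12315) (nat_lit 14) (nat_lit 7))
    (@En.n l6771 (nat_lit 12041) (nat_lit 1) (nat_lit 14))
    (@En.n l17 (nat_lit 12335) (nat_lit 2) (nat_lit 2))
    (@En.n l4155 (nat_lit 12334) (nat_lit 3) (nat_lit 7))
    (@En.n l4153 (nat_lit 6032) (nat_lit 1) (nat_lit 14))
    (@En.n l20676 (nat_lit 12332) (nat_lit 5) (nat_lit 3))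
    (@En.i (nat_lit 12391) (nat_lit 6) (nat_lit 7))
    (@En.n l11484 (nat_lit 12325) (nat_lit 4) (nat_lit 9))
    (@En.n l15021 (nat_lit 9928) (nat_lit 9) (nat_lit 13))
    (@En.i (nat_lit 12340) (nat_lit 9) (nat_lit 3))
    (@En.n l20677 (nat_lit 12097) (nat_lit 11) (nat_lit 9))
    (@En.i (nat_lit 12333) (nat_lit 11) (nat_lit 3))
    (@En.n l20678 (nat_lit 1838) (nat_lit 0) (nat_lit 13))
    (@En.n l5076 (nat_lit 6906) (nat_lit 14) (nat_lit 9))
    (@En.n l20679 (nat_lit 5414) (nat_lit 12) (nat_lit 13))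
    (@En.n l3 (nat_lit 12335) (nat_lit 15) (nat_lit 2))))
noncomputable def a771 : T16 Cl := @T16.mk Cl
  (@Cl.mk (nat_lit 0x2000d0009000c0003000900090004000d0007000b000300070007000e0005) (nat_lit 0x252063080300020) (nat_lit 16) Lb.e (@T16.mk En
    (@En.n l117 (nat_lit 11998) (nat_lit 4) (nat_lit 5))
    (@En.n l3348 (nat_lit 12370) (nat_lit 1) (nat_lit 14))
    (@En.n l5331 (nat_lit 12343) (nat_lit 9) (nat_lit 7))
    (@En.n l6081 (nat_lit 10875) (nat_lit 3) (nat_lit 7))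
    (@En.n l2576 (nat_lit 12334) (nat_lit 4) (nat_lit 3))
    (@En.i (nat_lit 12484) (nat_lit 0) (nat_lit 11))
    (@En.n l10794 (nat_lit 12338) (nat_lit 6) (nat_lit 7))
    (@En.n l18 (nat_lit 9931) (nat_lit 8) (nat_lit 13))
    (@En.n l3348 (nat_lit 12172) (nat_lit 8) (nat_lit 4))
    (@En.n l61 (nat_lit 12332) (nat_lit 10) (nat_lit 9))
    (@En.i (nat_lit 12162) (nat_lit 11) (nat_lit 9))
    (@En.i (nat_lit 12331) (nat_lit 11) (nat_lit 3))
    (@En.n l3348 (nat_lit 2713) (nat_lit 0) (nat_lit 12))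
    (@En.i (nat_lit 11547) (nat_lit 14) (nat_lit 9))
    (@En.i (nat_lit 4926) (nat_lit 2) (nat_lit 13))
    (@En.n l11 (nat_lit 12336) (nat_lit 15) (nat_lit 2))))
  (@Cl.mk (nat_lit 0x2000d000b00090003000900090005000d000a0007000300070007000e0006) (nat_lit 0x263062084000020) (nat_lit 16) Lb.e (@T16.mk En
    (@En.n l17185 (nat_lit 12002) (nat_lit 4) (nat_lit 6))
    (@En.n l3756 (nat_lit 12365) (nat_lit 1) (nat_lit 14))
    (@En.n l25302 (nat_lit 12609) (nat_lit 9) (nat_lit 7))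
    (@En.n l25303 (nat_lit 10222) (nat_lit 3) (nat_lit 7))
    (@En.n l20676 (nat_lit 12331) (nat_lit 4) (nat_lit 3))
    (@En.i (nat_lit 5306) (nat_lit 0) (nat_lit 7))
    (@En.n l25304 (nat_lit 12452) (nat_lit 11) (nat_lit 10))
    (@En.n l601 (nat_lit 7941) (nat_lit 8) (nat_lit 13))
    (@En.n l3756 (nat_lit 11176) (nat_lit 8) (nat_lit 5))
    (@En.n l61 (nat_lit 12333) (nat_lit 10) (nat_lit 9))
    (@En.n l17188 (nat_lit 12073) (nat_lit 11) (nat_lit 9))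
    (@En.n l22067 (nat_lit 12334) (nat_lit 11) (nat_lit 3))
    (@En.n l25305 (nat_lit 4903) (nat_lit 0) (nat_lit 9))
    (@En.n l55 (nat_lit 10741) (nat_lit 14) (nat_lit 11))
    (@En.n l25306 (nat_lit 1743) (nat_lit 2) (nat_lit 13))
    (@En.n l3 (nat_lit 12337) (nat_lit 15) (nat_lit 2))))
  (@Cl.mk (nat_lit 0x2000c00090008000c0004000a000a00040007000b000800060006000e0005) (nat_lit 0x952302300230020) (nat_lit 16) Lb.e (@T16.mk En
    (@En.n l27309 (nat_lit 11999) (nat_lit 8) (nat_lit 5))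
    (@En.n l13714 (nat_lit 12587) (nat_lit 1) (nat_lit 14))
    (@En.n l13632 (nat_lit 12600) (nat_lit 10) (nat_lit 6))
    (@En.n l13633 (nat_lit 10874) (nat_lit 3) (nat_lit 6))
    (@En.n l27310 (nat_lit 12381) (nat_lit 4) (nat_lit 8))
    (@En.i (nat_lit 12712) (nat_lit 8) (nat_lit 11))
    (@En.n l13633 (nat_lit 7660) (nat_lit 11) (nat_lit 7))
    (@En.n l13714 (nat_lit 10041) (nat_lit 7) (nat_lit 4))
    (@En.n l5649 (nat_lit 12339) (nat_lit 9) (nat_lit 10))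
    (@En.n l11844 (nat_lit 12132) (nat_lit 10) (nat_lit 10))
    (@En.n l27311 (nat_lit 5618) (nat_lit 10) (nat_lit 4))
    (@En.n l217 (nat_lit 12336) (nat_lit 12) (nat_lit 12))
    (@En.n l27312 (nat_lit 12334) (nat_lit 13) (nat_lit 8))
    (@En.i (nat_lit 11546) (nat_lit 14) (nat_lit 9))
    (@En.n l13717 (nat_lit 4935) (nat_lit 3) (nat_lit 12))
    (@En.n l11 (nat_lit 12338) (nat_lit 15) (nat_lit 2))))
  (@Cl.mk (nat_lit 0x2000c000a0009000d0004000a00030006000a0007000e00060002000e0006) (nat_lit 0xa63802006090030) (nat_lit 16) Lb.e (@T16.mk En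
    (@En.n l19565 (nat_lit 12314) (nat_lit 14) (nat_lit 6))
    (@En.n l17555 (nat_lit 12039) (nat_lit 1) (nat_lit 14))
    (@En.n l17 (nat_lit 12339) (nat_lit 2) (nat_lit 2))
    (@En.n l3057 (nat_lit 12338) (nat_lit 3) (nat_lit 6))
    (@En.i (nat_lit 8047) (nat_lit 1) (nat_lit 14))
    (@En.n l19566 (nat_lit 12385) (nat_lit 5) (nat_lit 7))
    (@En.i (nat_lit 12672) (nat_lit 3) (nat_lit 10))
    (@En.n l9642 (nat_lit 11649) (nat_lit 12) (nat_lit 6))
    (@En.n l3050 (nat_lit 12341) (nat_lit 8) (nat_lit 3))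
    (@En.n l3902 (nat_lit 12103) (nat_lit 0) (nat_lit 10))
    (@En.n l19567 (nat_lit 12342) (nat_lit 10) (nat_lit 4))
    (@En.n l1899 (nat_lit 12332) (nat_lit 12) (nat_lit 13))
    (@En.n l7156 (nat_lit 12335) (nat_lit 13) (nat_lit 9))
    (@En.n l19568 (nat_lit 11539) (nat_lit 14) (nat_lit 10))
    (@En.n l649 (nat_lit 5281) (nat_lit 12) (nat_lit 12))
    (@En.n l11 (nat_lit 12339) (nat_lit 15) (nat_lit 2))))
  (@Cl.mk (nat_lit 0x2000c0009000d000800040003000d000900070003000e00080002000e0007) (nat_lit 0x627200840093040) (nat_lit 16) Lb.e (@T16.mk En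
    (@En.i (nat_lit 12319) (nat_lit 14) (nat_lit 7))
    (@En.i (nat_lit 12049) (nat_lit 1) (nat_lit 14))
    (@En.n l17 (nat_lit 12340) (nat_lit 2) (nat_lit 2))
    (@En.i (nat_lit 10741) (nat_lit 3) (nat_lit 8))
    (@En.i (nat_lit 6031) (nat_lit 1) (nat_lit 14))
    (@En.n l8936 (nat_lit 11069) (nat_lit 5) (nat_lit 3))
    (@En.i (nat_lit 12387) (nat_lit 6) (nat_lit 7))
    (@En.n l11484 (nat_lit 12322) (nat_lit 4) (nat_lit 9))
    (@En.n l15021 (nat_lit 7721) (nat_lit 9) (nat_lit 13))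
    (@En.n l28 (nat_lit 12335) (nat_lit 9) (nat_lit 3))
    (@En.n l1393 (nat_lit 11059) (nat_lit 10) (nat_lit 4))
    (@En.n l3213 (nat_lit 11464) (nat_lit 12) (nat_lit 8))
    (@En.n l20678 (nat_lit 1835) (nat_lit 13) (nat_lit 13))
    (@En.i (nat_lit 6905) (nat_lit 14) (nat_lit 9))
    (@En.n l25174 (nat_lit 9350) (nat_lit 12) (nat_lit 12))
    (@En.n l3 (nat_lit 12340) (nat_lit 15) (nat_lit 2))))
  (@Cl.mk (nat_lit 0x2000b000a0009000d0009000500030006000a0007000e00070002000e0006) (nat_lit 0x873720005090030) (nat_lit 16) Lb.e (@T16.mk En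
    (@En.n l11503 (nat_lit 12313) (nat_lit 14) (nat_lit 6))
    (@En.n l3231 (nat_lit 12045) (nat_lit 1) (nat_lit 14))
    (@En.n l17 (nat_lit 12341) (nat_lit 2) (nat_lit 2))
    (@En.n l11504 (nat_lit 10737) (nat_lit 3) (nat_lit 7))
    (@En.n l2967 (nat_lit 8050) (nat_lit 1) (nat_lit 14))
    (@En.n l11505 (nat_lit 12389) (nat_lit 5) (nat_lit 7))
    (@En.n l2967 (nat_lit 12669) (nat_lit 3) (nat_lit 10))
    (@En.n l11506 (nat_lit 4897) (nat_lit 12) (nat_lit 6))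
    (@En.n l11507 (nat_lit 12339) (nat_lit 8) (nat_lit 3))
    (@En.n l11508 (nat_lit 12558) (nat_lit 0) (nat_lit 5))
    (@En.n l11509 (nat_lit 10350) (nat_lit 11) (nat_lit 9))
    (@En.n l8003 (nat_lit 11069) (nat_lit 12) (nat_lit 13))
    (@En.n l2966 (nat_lit 12340) (nat_lit 13) (nat_lit 9))
    (@En.n l11510 (nat_lit 11538) (nat_lit 14) (nat_lit 10))
    (@En.n l11511 (nat_lit 8827) (nat_lit 12) (nat_lit 11))
    (@En.n l3 (nat_lit 12341) (nat_lit 15) (nat_lit 2))))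
  (@Cl.mk (nat_lit 0x2000c000b000b000a0004000a00050005000a0006000e00060002000e0006) (nat_lit 0x6913020050300b0) (nat_lit 16) Lb.e (@T16.mk En
    (@En.n l2544 (nat_lit 11517) (nat_lit 14) (nat_lit 6))
    (@En.n l8181 (nat_lit 12725) (nat_lit 1) (nat_lit 14))
    (@En.n l18 (nat_lit 12342) (nat_lit 2) (nat_lit 2))
    (@En.n l3233 (nat_lit 5618) (nat_lit 3) (nat_lit 6))
    (@En.n l8182 (nat_lit 10999) (nat_lit 1) (nat_lit 14))
    (@En.n l8183 (nat_lit 5698) (nat_lit 5) (nat_lit 6))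
    (@En.n l117 (nat_lit 9988) (nat_lit 3) (nat_lit 10))
    (@En.n l575 (nat_lit 5622) (nat_lit 11) (nat_lit 5))
    (@En.n l8184 (nat_lit 11062) (nat_lit 8) (nat_lit 5))
    (@En.i (nat_lit 11127) (nat_lit 10) (nat_lit 10))
    (@En.n l8185 (nat_lit 5958) (nat_lit 10) (nat_lit 4))
    (@En.n l8186 (nat_lit 12333) (nat_lit 12) (nat_lit 10))
    (@En.n l8187 (nat_lit 5957) (nat_lit 5) (nat_lit 11))
    (@En.n l8188 (nat_lit 12341) (nat_lit 14) (nat_lit 11))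
    (@En.i (nat_lit 5241) (nat_lit 12) (nat_lit 12))
    (@En.n l3 (nat_lit 12342) (nat_lit 15) (nat_lit 2))))
  (@Cl.mk (nat_lit 0x20005000d0008000c00030007000e00040002000d0008000b0003000e0009) (nat_lit 0x93300100455047) (nat_lit 16) Lb.e (@T16.mk En
    (@En.n l649 (nat_lit 12336) (nat_lit 10) (nat_lit 9))
    (@En.i (nat_lit 10742) (nat_lit 1) (nat_lit 14))
    (@En.n l9807 (nat_lit 12611) (nat_lit 2) (nat_lit 3))
    (@En.i (nat_lit 2711) (nat_lit 3) (nat_lit 11))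
    (@En.n l1353 (nat_lit 8066) (nat_lit 4) (nat_lit 8))
    (@En.n l2036 (nat_lit 4927) (nat_lit 6) (nat_lit 13))
    (@En.n l50 (nat_lit 12343) (nat_lit 6) (nat_lit 2))
    (@En.n l564 (nat_lit 12601) (nat_lit 7) (nat_lit 4))
    (@En.n l2036 (nat_lit 213) (nat_lit 9) (nat_lit 14))
    (@En.i (nat_lit 3919) (nat_lit 2) (nat_lit 7))
    (@En.i (nat_lit 12602) (nat_lit 10) (nat_lit 3))
    (@En.n l2573 (nat_lit 9221) (nat_lit 12) (nat_lit 12))
    (@En.i (nat_lit 12600) (nat_lit 13) (nat_lit 8))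
    (@En.n l7683 (nat_lit 11314) (nat_lit 14) (nat_lit 13))
    (@En.n l1643 (nat_lit 12200) (nat_lit 13) (nat_lit 5))
    (@En.n l3 (nat_lit 12343) (nat_lit 15) (nat_lit 2))))
  (@Cl.mk (nat_lit 0x300090009000500090006000c000b00070007000400070005000d000b000a) (nat_lit 0x430505400000164) (nat_lit 16) Lb.e (@T16.mk En
    (@En.n l20876 (nat_lit 11747) (nat_lit 0) (nat_lit 10))
    (@En.n l20877 (nat_lit 11124) (nat_lit 12) (nat_lit 11))
    (@En.n l20878 (nat_lit 978) (nat_lit 2) (nat_lit 13))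
    (@En.n l20877 (nat_lit 11997) (nat_lit 3) (nat_lit 5))
    (@En.n l14805 (nat_lit 12095) (nat_lit 11) (nat_lit 7))
    (@En.n l5760 (nat_lit 10647) (nat_lit 5) (nat_lit 4))
    (@En.n l1900 (nat_lit 12346) (nat_lit 9) (nat_lit 7))
    (@En.n l20879 (nat_lit 10680) (nat_lit 1) (nat_lit 7))
    (@En.n l55 (nat_lit 12452) (nat_lit 9) (nat_lit 11))
    (@En.n l20877 (nat_lit 12345) (nat_lit 10) (nat_lit 12))
    (@En.n l2364 (nat_lit 10283) (nat_lit 11) (nat_lit 6))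
    (@En.n l20880 (nat_lit 11834) (nat_lit 12) (nat_lit 9))
    (@En.n l2753 (nat_lit 10814) (nat_lit 6) (nat_lit 5))
    (@En.n l1867 (nat_lit 12327) (nat_lit 7) (nat_lit 9))
    (@En.n l13489 (nat_lit 11076) (nat_lit 1) (nat_lit 9))
    (@En.n l20881 (nat_lit 11121) (nat_lit 15) (nat_lit 3))))
  (@Cl.mk (nat_lit 0x3000a000a00050009000c000a000600060004000b00070006000d000b0005) (nat_lit 0x430443000500150) (nat_lit 16) Lb.e (@T16.mk En
    (@En.n l17348 (nat_lit 10131) (nat_lit 0) (nat_lit 5))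
    (@En.i (nat_lit 11125) (nat_lit 5) (nat_lit 11))
    (@En.n l9178 (nat_lit 982) (nat_lit 2) (nat_lit 13))
    (@En.i (nat_lit 12004) (nat_lit 10) (nat_lit 6))
    (@En.n l17349 (nat_lit 12344) (nat_lit 4) (nat_lit 7))
    (@En.n l17350 (nat_lit 11179) (nat_lit 6) (nat_lit 11))
    (@En.n l17351 (nat_lit 10763) (nat_lit 6) (nat_lit 4))
    (@En.n l7575 (nat_lit 12347) (nat_lit 10) (nat_lit 6))
    (@En.n l9176 (nat_lit 10687) (nat_lit 8) (nat_lit 6))
    (@En.n l8778 (nat_lit 12111) (nat_lit 10) (nat_lit 10))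
    (@En.n l9178 (nat_lit 12650) (nat_lit 6) (nat_lit 12))
    (@En.n l17352 (nat_lit 11836) (nat_lit 10) (nat_lit 9))
    (@En.n l15575 (nat_lit 10813) (nat_lit 5) (nat_lit 5))
    (@En.n l17353 (nat_lit 12636) (nat_lit 6) (nat_lit 10))
    (@En.n l17354 (nat_lit 11078) (nat_lit 1) (nat_lit 10))
    (@En.n l7 (nat_lit 11123) (nat_lit 15) (nat_lit 3))))
  (@Cl.mk (nat_lit 0x20006000a0007000d000c0007000300060004000d000a00090003000e0009) (nat_lit 0x60240000a42095) (nat_lit 16) Lb.e (@T16.mk En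
    (@En.n l1532 (nat_lit 12344) (nat_lit 14) (nat_lit 9))
    (@En.n l6042 (nat_lit 11534) (nat_lit 1) (nat_lit 14))
    (@En.n l18484 (nat_lit 12348) (nat_lit 2) (nat_lit 3))
    (@En.n l747 (nat_lit 11749) (nat_lit 3) (nat_lit 9))
    (@En.n l18485 (nat_lit 12271) (nat_lit 4) (nat_lit 10))
    (@En.i (nat_lit 1094) (nat_lit 6) (nat_lit 13))
    (@En.n l18486 (nat_lit 12610) (nat_lit 6) (nat_lit 4))
    (@En.n l1719 (nat_lit 12096) (nat_lit 7) (nat_lit 6))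
    (@En.n l11 (nat_lit 12351) (nat_lit 8) (nat_lit 3))
    (@En.n l18487 (nat_lit 12163) (nat_lit 0) (nat_lit 7))
    (@En.n l55 (nat_lit 12354) (nat_lit 11) (nat_lit 12))
    (@En.n l3710 (nat_lit 12347) (nat_lit 12) (nat_lit 13))
    (@En.n l403 (nat_lit 12398) (nat_lit 13) (nat_lit 7))
    (@En.n l1353 (nat_lit 11162) (nat_lit 14) (nat_lit 10))
    (@En.n l1080 (nat_lit 12410) (nat_lit 5) (nat_lit 6))
    (@En.n l3 (nat_lit 12346) (nat_lit 15) (nat_lit 2))))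
  (@Cl.mk (nat_lit 0x20006000a000d000b00060003000b00060005000d000a00050003000e000a) (nat_lit 0x51300400b500a5) (nat_lit 16) Lb.e (@T16.mk En
    (@En.n l7545 (nat_lit 12345) (nat_lit 14) (nat_lit 10))
    (@En.n l7546 (nat_lit 11533) (nat_lit 1) (nat_lit 14))
    (@En.n l7547 (nat_lit 12349) (nat_lit 2) (nat_lit 3))
    (@En.i (nat_lit 10129) (nat_lit 3) (nat_lit 5))
    (@En.n l7548 (nat_lit 12268) (nat_lit 4) (nat_lit 10))
    (@En.n l7549 (nat_lit 1092) (nat_lit 6) (nat_lit 13))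
    (@En.n l7550 (nat_lit 12238) (nat_lit 6) (nat_lit 5))
    (@En.n l7551 (nat_lit 12346) (nat_lit 7) (nat_lit 6))
    (@En.n l7552 (nat_lit 11409) (nat_lit 9) (nat_lit 11))
    (@En.n l7553 (nat_lit 12350) (nat_lit 9) (nat_lit 3))
    (@En.n l7549 (nat_lit 11965) (nat_lit 0) (nat_lit 6))
    (@En.n l644 (nat_lit 12608) (nat_lit 12) (nat_lit 11))
    (@En.n l7554 (nat_lit 7) (nat_lit 5) (nat_lit 13))
    (@En.n l7555 (nat_lit 11163) (nat_lit 14) (nat_lit 10))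
    (@En.n l7556 (nat_lit 12434) (nat_lit 4) (nat_lit 6))
    (@En.n l3 (nat_lit 12347) (nat_lit 15) (nat_lit 2))))
  (@Cl.mk (nat_lit 0x20005000a0008000d000c0007000300060004000d0008000b0003000e0009) (nat_lit 0x52640000122095) (nat_lit 16) Lb.e (@T16.mk En
    (@En.n l4130 (nat_lit 11121) (nat_lit 14) (nat_lit 9))
    (@En.n l2290 (nat_lit 12271) (nat_lit 1) (nat_lit 14))
    (@En.n l20680 (nat_lit 12346) (nat_lit 2) (nat_lit 3))
    (@En.i (nat_lit 1382) (nat_lit 3) (nat_lit 11))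
    (@En.n l14060 (nat_lit 11931) (nat_lit 4) (nat_lit 8))
    (@En.n l20681 (nat_lit 1091) (nat_lit 6) (nat_lit 13))
    (@En.i (nat_lit 12601) (nat_lit 6) (nat_lit 4))
    (@En.n l1172 (nat_lit 12097) (nat_lit 7) (nat_lit 6))
    (@En.n l20682 (nat_lit 12352) (nat_lit 8) (nat_lit 3))
    (@En.n l20681 (nat_lit 12164) (nat_lit 0) (nat_lit 7))
    (@En.n l2593 (nat_lit 12355) (nat_lit 11) (nat_lit 12))
    (@En.n l4365 (nat_lit 12349) (nat_lit 12) (nat_lit 13))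
    (@En.n l20683 (nat_lit 12357) (nat_lit 13) (nat_lit 8))
    (@En.n l7850 (nat_lit 11164) (nat_lit 14) (nat_lit 10))
    (@En.n l513 (nat_lit 12732) (nat_lit 13) (nat_lit 5))
    (@En.n l3 (nat_lit 12348) (nat_lit 15) (nat_lit 2))))
  (@Cl.mk (nat_lit 0x20005000a000d000b00060003000c00060005000d0004000b0003000e000a) (nat_lit 0x55300a002060a5) (nat_lit 16) Lb.e (@T16.mk En
    (@En.n l61 (nat_lit 11123) (nat_lit 14) (nat_lit 10))
    (@En.i (nat_lit 12268) (nat_lit 1) (nat_lit 14))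
    (@En.n l7575 (nat_lit 12347) (nat_lit 2) (nat_lit 3))
    (@En.n l17519 (nat_lit 1274) (nat_lit 3) (nat_lit 11))
    (@En.i (nat_lit 12641) (nat_lit 4) (nat_lit 4))
    (@En.n l4259 (nat_lit 1090) (nat_lit 6) (nat_lit 13))
    (@En.i (nat_lit 12237) (nat_lit 6) (nat_lit 5))
    (@En.n l11364 (nat_lit 12348) (nat_lit 7) (nat_lit 6))
    (@En.n l3519 (nat_lit 12081) (nat_lit 9) (nat_lit 12))
    (@En.n l17520 (nat_lit 12353) (nat_lit 9) (nat_lit 3))
    (@En.n l4259 (nat_lit 11964) (nat_lit 0) (nat_lit 6))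
    (@En.n l17521 (nat_lit 12606) (nat_lit 12) (nat_lit 11))
    (@En.n l7062 (nat_lit 12646) (nat_lit 13) (nat_lit 13))
    (@En.n l17522 (nat_lit 11165) (nat_lit 14) (nat_lit 10))
    (@En.n l17523 (nat_lit 12734) (nat_lit 13) (nat_lit 5))
    (@En.n l17 (nat_lit 12349) (nat_lit 15) (nat_lit 2))))
  (@Cl.mk (nat_lit 0x20006000a000d0005000c0003000b00060004000d000a00050003000e000b) (nat_lit 0x55020400170095) (nat_lit 16) Lb.e (@T16.mk En
    (@En.n l12527 (nat_lit 12444) (nat_lit 14) (nat_lit 11))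
    (@En.n l6042 (nat_lit 11536) (nat_lit 1) (nat_lit 14))
    (@En.n l14376 (nat_lit 12353) (nat_lit 2) (nat_lit 3))
    (@En.n l2376 (nat_lit 10122) (nat_lit 3) (nat_lit 5))
    (@En.n l14377 (nat_lit 12267) (nat_lit 4) (nat_lit 10))
    (@En.n l2362 (nat_lit 372) (nat_lit 6) (nat_lit 13))
    (@En.n l1306 (nat_lit 12756) (nat_lit 6) (nat_lit 4))
    (@En.n l725 (nat_lit 12351) (nat_lit 7) (nat_lit 6))
    (@En.i (nat_lit 9989) (nat_lit 9) (nat_lit 11))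
    (@En.n l3710 (nat_lit 12347) (nat_lit 9) (nat_lit 3))
    (@En.n l8820 (nat_lit 1028) (nat_lit 11) (nat_lit 12))
    (@En.n l14378 (nat_lit 11102) (nat_lit 12) (nat_lit 5))
    (@En.n l2368 (nat_lit 12646) (nat_lit 5) (nat_lit 13))
    (@En.n l7244 (nat_lit 12422) (nat_lit 14) (nat_lit 10))
    (@En.n l14379 (nat_lit 12412) (nat_lit 4) (nat_lit 6))
    (@En.n l3 (nat_lit 12350) (nat_lit 15) (nat_lit 2))))
  (@Cl.mk (nat_lit 0x20006000a0007000d0006000d000300060003000d000a00090003000e000a) (nat_lit 0x60601000162085) (nat_lit 16) Lb.e (@T16.mk En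
    (@En.n l1532 (nat_lit 12445) (nat_lit 14) (nat_lit 10))
    (@En.n l6042 (nat_lit 11535) (nat_lit 1) (nat_lit 14))
    (@En.i (nat_lit 12352) (nat_lit 2) (nat_lit 3))
    (@En.n l747 (nat_lit 12569) (nat_lit 3) (nat_lit 9))
    (@En.i (nat_lit 12269) (nat_lit 4) (nat_lit 10))
    (@En.i (nat_lit 1101) (nat_lit 6) (nat_lit 13))
    (@En.i (nat_lit 12354) (nat_lit 6) (nat_lit 3))
    (@En.n l1353 (nat_lit 11366) (nat_lit 7) (nat_lit 6))
    (@En.i (nat_lit 12346) (nat_lit 8) (nat_lit 3))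
    (@En.i (nat_lit 1017) (nat_lit 0) (nat_lit 13))
    (@En.n l117 (nat_lit 11989) (nat_lit 11) (nat_lit 6))
    (@En.i (nat_lit 12350) (nat_lit 12) (nat_lit 13))
    (@En.n l403 (nat_lit 12494) (nat_lit 13) (nat_lit 7))
    (@En.n l1353 (nat_lit 11894) (nat_lit 14) (nat_lit 10))
    (@En.n l6081 (nat_lit 12405) (nat_lit 5) (nat_lit 6))
    (@En.n l3 (nat_lit 12351) (nat_lit 15) (nat_lit 2))))

end Pool.Agent.MP_61a8e3_al.G4.K
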