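import Pool.Agent.MP_61a8e3_al.G4.KL0
import Pool.Agent.MP_61a8e3_al.G4.KL1
import Pool.Agent.MP_61a8e3_al.G4.KL2
import Pool.Agent.MP_61a8e3_al.G4.KL3
import Pool.Agent.MP_61a8e3_al.G4.KL4
import Pool.Agent.MP_61a8e3_al.G4.KL5
import Pool.Agent.MP_61a8e3_al.G4.KL6
import Pool.Agent.MP_61a8e3_al.G4.KL7

/-! Part K: classes, part 7. -/

set_option autoImplicit false
set_option maxRecDepth 100000
set_option linter.all false

namespace Pool.Agent.MP_61a8e3_al.G4.K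

noncomputable def a772 : T16 Cl := @T16.mk Cl
  (@Cl.mk (nat_lit 0x20005000a0008000d0006000d000300060003000d0008000b0003000e000a) (nat_lit 0x52202000a22084) (nat_lit 16) Lb.e (@T16.mk En
    (@En.n l20960 (nat_lit 12447) (nat_lit 14) (nat_lit 10))
    (@En.n l6042 (nat_lit 12269) (nat_lit 1) (nat_lit 14))
    (@En.n l50 (nat_lit 12351) (nat_lit 2) (nat_lit 3))
    (@En.n l20961 (nat_lit 1255) (nat_lit 3) (nat_lit 11))
    (@En.n l6081 (nat_lit 11927) (nat_lit 4) (nat_lit 8))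
    (@En.n l7638 (nat_lit 370) (nat_lit 6) (nat_lit 13))
    (@En.n l20962 (nat_lit 12355) (nat_lit 6) (nat_lit 3))
    (@En.n l20963 (nat_lit 11368) (nat_lit 7) (nat_lit 6))
    (@En.n l18484 (nat_lit 12348) (nat_lit 8) (nat_lit 3))
    (@En.n l8172 (nat_lit 1012) (nat_lit 0) (nat_lit 13))
    (@En.n l20964 (nat_lit 11988) (nat_lit 11) (nat_lit 6))
    (@En.n l14376 (nat_lit 12353) (nat_lit 12) (nat_lit 13))
    (@En.n l403 (nat_lit 12356) (nat_lit 13) (nat_lit 8))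
    (@En.n l20965 (nat_lit 11895) (nat_lit 14) (nat_lit 10))
    (@En.n l6081 (nat_lit 11908) (nat_lit 13) (nat_lit 5))
    (@En.n l3 (nat_lit 12352) (nat_lit 15) (nat_lit 2))))
  (@Cl.mk (nat_lit 0x20005000a000d0005000c0003000c00060004000d0004000b0003000e000b) (nat_lit 0x51020300b07086) (nat_lit 16) Lb.e (@T16.mk En
    (@En.i (nat_lit 12446) (nat_lit 14) (nat_lit 11))
    (@En.i (nat_lit 12267) (nat_lit 1) (nat_lit 14))
    (@En.n l28453 (nat_lit 12350) (nat_lit 2) (nat_lit 3))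
    (@En.n l77 (nat_lit 1250) (nat_lit 3) (nat_lit 11))
    (@En.n l28454 (nat_lit 12642) (nat_lit 4) (nat_lit 4))
    (@En.n l1998 (nat_lit 368) (nat_lit 6) (nat_lit 13))
    (@En.n l28455 (nat_lit 12748) (nat_lit 6) (nat_lit 4))
    (@En.n l28456 (nat_lit 12352) (nat_lit 7) (nat_lit 6))
    (@En.n l28457 (nat_lit 10536) (nat_lit 9) (nat_lit 12))
    (@En.n l28458 (nat_lit 12349) (nat_lit 9) (nat_lit 3))
    (@En.n l28455 (nat_lit 1026) (nat_lit 11) (nat_lit 12))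
    (@En.n l28457 (nat_lit 11101) (nat_lit 12) (nat_lit 5))
    (@En.i (nat_lit 23) (nat_lit 5) (nat_lit 13))
    (@En.n l601 (nat_lit 12426) (nat_lit 14) (nat_lit 10))
    (@En.n l1998 (nat_lit 12765) (nat_lit 13) (nat_lit 5))
    (@En.n l3 (nat_lit 12353) (nat_lit 15) (nat_lit 2))))
  (@Cl.mk (nat_lit 0x20006000b0007000c0006000d000500040003000d000a00090003000e000a) (nat_lit 0x40304000352065) (nat_lit 16) Lb.e (@T16.mk En
    (@En.n l1532 (nat_lit 12452) (nat_lit 14) (nat_lit 10))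
    (@En.n l6042 (nat_lit 11537) (nat_lit 1) (nat_lit 14))
    (@En.n l20962 (nat_lit 12355) (nat_lit 2) (nat_lit 3))
    (@En.n l747 (nat_lit 12570) (nat_lit 3) (nat_lit 9))
    (@En.n l24116 (nat_lit 12273) (nat_lit 4) (nat_lit 10))
    (@En.n l1306 (nat_lit 6553) (nat_lit 6) (nat_lit 13))
    (@En.n l28 (nat_lit 12351) (nat_lit 6) (nat_lit 3))
    (@En.n l2394 (nat_lit 12611) (nat_lit 7) (nat_lit 4))
    (@En.i (nat_lit 12033) (nat_lit 8) (nat_lit 5))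
    (@En.n l8820 (nat_lit 1161) (nat_lit 10) (nat_lit 13))
    (@En.n l24978 (nat_lit 11627) (nat_lit 11) (nat_lit 6))
    (@En.n l1306 (nat_lit 12756) (nat_lit 12) (nat_lit 12))
    (@En.n l403 (nat_lit 12495) (nat_lit 13) (nat_lit 7))
    (@En.n l24979 (nat_lit 11889) (nat_lit 14) (nat_lit 11))
    (@En.n l6081 (nat_lit 12409) (nat_lit 13) (nat_lit 6))
    (@En.n l3 (nat_lit 12354) (nat_lit 15) (nat_lit 2))))
  (@Cl.mk (nat_lit 0x20005000b0008000c0006000d000500040003000d0008000b0003000e000a) (nat_lit 0x42302000332064) (nat_lit 16) Lb.e (@T16.mk En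
    (@En.n l28765 (nat_lit 12453) (nat_lit 14) (nat_lit 10))
    (@En.i (nat_lit 12273) (nat_lit 1) (nat_lit 14))
    (@En.n l28766 (nat_lit 12354) (nat_lit 2) (nat_lit 3))
    (@En.n l2678 (nat_lit 1331) (nat_lit 3) (nat_lit 11))
    (@En.n l1353 (nat_lit 11928) (nat_lit 4) (nat_lit 8))
    (@En.n l5448 (nat_lit 6554) (nat_lit 6) (nat_lit 13))
    (@En.n l8879 (nat_lit 12352) (nat_lit 6) (nat_lit 3))
    (@En.i (nat_lit 12343) (nat_lit 7) (nat_lit 4))
    (@En.n l28764 (nat_lit 12029) (nat_lit 8) (nat_lit 5))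
    (@En.n l8796 (nat_lit 215) (nat_lit 10) (nat_lit 13))
    (@En.n l3213 (nat_lit 11991) (nat_lit 11) (nat_lit 6))
    (@En.n l8796 (nat_lit 12748) (nat_lit 12) (nat_lit 12))
    (@En.n l28767 (nat_lit 12597) (nat_lit 13) (nat_lit 8))
    (@En.n l565 (nat_lit 11888) (nat_lit 14) (nat_lit 11))
    (@En.n l1643 (nat_lit 12730) (nat_lit 13) (nat_lit 5))
    (@En.n l3 (nat_lit 12355) (nat_lit 15) (nat_lit 2))))
  (@Cl.mk (nat_lit 0x200050008000d0005000d0003000c0003000c00080004000b0004000e000b) (nat_lit 0x12030601203085) (nat_lit 16) Lb.e (@T16.mk En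
    (@En.n l671 (nat_lit 12448) (nat_lit 9) (nat_lit 11))
    (@En.n l36904 (nat_lit 12270) (nat_lit 1) (nat_lit 14))
    (@En.n l50 (nat_lit 12494) (nat_lit 2) (nat_lit 4))
    (@En.i (nat_lit 12352) (nat_lit 3) (nat_lit 11))
    (@En.n l17039 (nat_lit 12353) (nat_lit 4) (nat_lit 4))
    (@En.n l6081 (nat_lit 4181) (nat_lit 5) (nat_lit 8))
    (@En.n l3348 (nat_lit 366) (nat_lit 7) (nat_lit 12))
    (@En.i (nat_lit 12597) (nat_lit 7) (nat_lit 3))
    (@En.n l12527 (nat_lit 9226) (nat_lit 9) (nat_lit 12))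
    (@En.i (nat_lit 12357) (nat_lit 9) (nat_lit 3))
    (@En.n l7882 (nat_lit 1058) (nat_lit 11) (nat_lit 13))
    (@En.n l117 (nat_lit 11992) (nat_lit 12) (nat_lit 5))
    (@En.n l3348 (nat_lit 12647) (nat_lit 13) (nat_lit 13))
    (@En.n l671 (nat_lit 4037) (nat_lit 10) (nat_lit 8))
    (@En.n l6081 (nat_lit 11904) (nat_lit 13) (nat_lit 5))
    (@En.n l3 (nat_lit 12356) (nat_lit 15) (nat_lit 2))))
  (@Cl.mk (nat_lit 0x200050008000d000c00060003000c0004000c00080004000b0004000e000a) (nat_lit 0x123006013030a7) (nat_lit 16) Lb.e (@T16.mk En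
    (@En.n l28881 (nat_lit 11122) (nat_lit 1) (nat_lit 10))
    (@En.n l28882 (nat_lit 12272) (nat_lit 1) (nat_lit 14))
    (@En.n l50 (nat_lit 12398) (nat_lit 2) (nat_lit 4))
    (@En.n l18484 (nat_lit 12348) (nat_lit 3) (nat_lit 11))
    (@En.n l11585 (nat_lit 12349) (nat_lit 4) (nat_lit 4))
    (@En.n l6081 (nat_lit 4171) (nat_lit 5) (nat_lit 8))
    (@En.n l2351 (nat_lit 1089) (nat_lit 7) (nat_lit 12))
    (@En.n l28883 (nat_lit 12599) (nat_lit 7) (nat_lit 4))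
    (@En.n l664 (nat_lit 11973) (nat_lit 9) (nat_lit 12))
    (@En.n l11 (nat_lit 12356) (nat_lit 9) (nat_lit 3))
    (@En.n l2351 (nat_lit 12170) (nat_lit 0) (nat_lit 6))
    (@En.n l55 (nat_lit 12597) (nat_lit 12) (nat_lit 12))
    (@En.n l2351 (nat_lit 12645) (nat_lit 13) (nat_lit 13))
    (@En.n l671 (nat_lit 4038) (nat_lit 10) (nat_lit 8))
    (@En.n l6081 (nat_lit 11902) (nat_lit 13) (nat_lit 5))
    (@En.n l3 (nat_lit 12357) (nat_lit 15) (nat_lit 2))))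
  (@Cl.mk (nat_lit 0x20005000c000b000900080004000d0005000a00030007000b0008000e0006) (nat_lit 0x99520706003360) (nat_lit 16) Lb.e (@T16.mk En
    (@En.n l21306 (nat_lit 11996) (nat_lit 11) (nat_lit 6))
    (@En.n l20267 (nat_lit 12359) (nat_lit 1) (nat_lit 14))
    (@En.n l8816 (nat_lit 5953) (nat_lit 2) (nat_lit 8))
    (@En.n l9738 (nat_lit 12043) (nat_lit 3) (nat_lit 11))
    (@En.n l3231 (nat_lit 12045) (nat_lit 4) (nat_lit 7))
    (@En.n l7 (nat_lit 12073) (nat_lit 5) (nat_lit 3))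
    (@En.n l4739 (nat_lit 12261) (nat_lit 0) (nat_lit 10))
    (@En.n l7572 (nat_lit 10097) (nat_lit 7) (nat_lit 5))
    (@En.n l21307 (nat_lit 11734) (nat_lit 9) (nat_lit 13))
    (@En.n l1039 (nat_lit 12662) (nat_lit 9) (nat_lit 4))
    (@En.n l21306 (nat_lit 10937) (nat_lit 11) (nat_lit 8))
    (@En.i (nat_lit 12069) (nat_lit 12) (nat_lit 9))
    (@En.n l16023 (nat_lit 12636) (nat_lit 13) (nat_lit 11))
    (@En.n l20267 (nat_lit 12171) (nat_lit 14) (nat_lit 12))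
    (@En.i (nat_lit 12795) (nat_lit 13) (nat_lit 5))
    (@En.n l3 (nat_lit 12358) (nat_lit 15) (nat_lit 2))))
  (@Cl.mk (nat_lit 0x2000b0005000c000b000900050004000d0005000b00030007000b000e0005) (nat_lit 0x509940080500350) (nat_lit 16) Lb.e (@T16.mk En
    (@En.n l21989 (nat_lit 12361) (nat_lit 12) (nat_lit 5))
    (@En.n l15323 (nat_lit 4618) (nat_lit 4) (nat_lit 14))
    (@En.n l13671 (nat_lit 12362) (nat_lit 2) (nat_lit 11))
    (@En.n l77 (nat_lit 12048) (nat_lit 3) (nat_lit 7))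
    (@En.n l18439 (nat_lit 12360) (nat_lit 4) (nat_lit 3))
    (@En.n l5839 (nat_lit 12262) (nat_lit 0) (nat_lit 11))
    (@En.n l36974 (nat_lit 11137) (nat_lit 6) (nat_lit 5))
    (@En.n l31633 (nat_lit 11724) (nat_lit 8) (nat_lit 13))
    (@En.n l5839 (nat_lit 12661) (nat_lit 8) (nat_lit 4))
    (@En.n l15323 (nat_lit 12490) (nat_lit 9) (nat_lit 5))
    (@En.n l601 (nat_lit 11917) (nat_lit 11) (nat_lit 9))
    (@En.n l36975 (nat_lit 12634) (nat_lit 12) (nat_lit 11))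
    (@En.i (nat_lit 12197) (nat_lit 13) (nat_lit 12))
    (@En.n l36976 (nat_lit 12358) (nat_lit 14) (nat_lit 5))
    (@En.n l27135 (nat_lit 11985) (nat_lit 10) (nat_lit 11))
    (@En.n l17 (nat_lit 12359) (nat_lit 15) (nat_lit 2))))
  (@Cl.mk (nat_lit 0x2000b0005000c000a000900050004000d000a000600030007000b000e0006) (nat_lit 0x509340094000630) (nat_lit 16) Lb.e (@T16.mk En
    (@En.n l152 (nat_lit 11805) (nat_lit 12) (nat_lit 6))
    (@En.n l28742 (nat_lit 4617) (nat_lit 4) (nat_lit 14))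
    (@En.n l31208 (nat_lit 12364) (nat_lit 2) (nat_lit 11))
    (@En.n l31209 (nat_lit 11702) (nat_lit 3) (nat_lit 7))
    (@En.n l31210 (nat_lit 12359) (nat_lit 4) (nat_lit 3))
    (@En.n l4004 (nat_lit 7171) (nat_lit 0) (nat_lit 6))
    (@En.n l31211 (nat_lit 11773) (nat_lit 7) (nat_lit 10))
    (@En.n l31212 (nat_lit 11732) (nat_lit 8) (nat_lit 13))
    (@En.n l7 (nat_lit 12663) (nat_lit 8) (nat_lit 4))
    (@En.n l28742 (nat_lit 12492) (nat_lit 9) (nat_lit 5))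
    (@En.n l31213 (nat_lit 11923) (nat_lit 11) (nat_lit 9))
    (@En.n l14598 (nat_lit 12625) (nat_lit 12) (nat_lit 10))
    (@En.n l17397 (nat_lit 12720) (nat_lit 13) (nat_lit 12))
    (@En.n l14833 (nat_lit 12073) (nat_lit 14) (nat_lit 5))
    (@En.n l28665 (nat_lit 11984) (nat_lit 10) (nat_lit 11))
    (@En.n l3 (nat_lit 12360) (nat_lit 15) (nat_lit 2))))
  (@Cl.mk (nat_lit 0x40008000c00050005000b0004000c000b000800050004000c0005000b000b) (nat_lit 0x470040664003056) (nat_lit 16) Lb.e (@T16.mk En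
    (@En.n l11255 (nat_lit 12359) (nat_lit 5) (nat_lit 11))
    (@En.n l36884 (nat_lit 10638) (nat_lit 1) (nat_lit 11))
    (@En.n l11386 (nat_lit 10128) (nat_lit 8) (nat_lit 5))
    (@En.n l42892 (nat_lit 11720) (nat_lit 10) (nat_lit 12))
    (@En.n l4344 (nat_lit 12448) (nat_lit 12) (nat_lit 4))
    (@En.n l14823 (nat_lit 9218) (nat_lit 0) (nat_lit 5))
    (@En.n l29133 (nat_lit 11924) (nat_lit 1) (nat_lit 8))
    (@En.n l17000 (nat_lit 12444) (nat_lit 5) (nat_lit 11))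
    (@En.n l15354 (nat_lit 12194) (nat_lit 2) (nat_lit 12))
    (@En.n l9939 (nat_lit 11996) (nat_lit 9) (nat_lit 4))
    (@En.n l11792 (nat_lit 11986) (nat_lit 0) (nat_lit 11))
    (@En.n l42893 (nat_lit 12642) (nat_lit 11) (nat_lit 5))
    (@En.n l36825 (nat_lit 10480) (nat_lit 7) (nat_lit 5))
    (@En.i (nat_lit 12415) (nat_lit 7) (nat_lit 12))
    (@En.n l601 (nat_lit 12435) (nat_lit 11) (nat_lit 8))
    (@En.n l42894 (nat_lit 11815) (nat_lit 2) (nat_lit 4))))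
  (@Cl.mk (nat_lit 0x2000a0005000d000c000b000300060004000d0005000c0003000b000e0004) (nat_lit 0x404910009050240) (nat_lit 16) Lb.e (@T16.mk En
    (@En.n l2869 (nat_lit 12415) (nat_lit 6) (nat_lit 4))
    (@En.n l1889 (nat_lit 1113) (nat_lit 4) (nat_lit 14))
    (@En.i (nat_lit 4271) (nat_lit 2) (nat_lit 11))
    (@En.i (nat_lit 12364) (nat_lit 3) (nat_lit 3))
    (@En.n l7748 (nat_lit 12419) (nat_lit 0) (nat_lit 12))
    (@En.i (nat_lit 12724) (nat_lit 5) (nat_lit 5))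
    (@En.n l1599 (nat_lit 10761) (nat_lit 7) (nat_lit 13))
    (@En.n l14609 (nat_lit 12660) (nat_lit 7) (nat_lit 4))
    (@En.n l1638 (nat_lit 12496) (nat_lit 8) (nat_lit 6))
    (@En.n l3459 (nat_lit 12044) (nat_lit 9) (nat_lit 3))
    (@En.n l2680 (nat_lit 4036) (nat_lit 0) (nat_lit 11))
    (@En.n l8351 (nat_lit 12047) (nat_lit 12) (nat_lit 12))
    (@En.n l31640 (nat_lit 12363) (nat_lit 13) (nat_lit 13))
    (@En.n l2088 (nat_lit 12043) (nat_lit 14) (nat_lit 5))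
    (@En.n l3815 (nat_lit 11992) (nat_lit 4) (nat_lit 10))
    (@En.n l17 (nat_lit 12362) (nat_lit 15) (nat_lit 2))))
  (@Cl.mk (nat_lit 0x2000a000d000b000a0003000900060005000d0006000c00030007000e0004) (nat_lit 0x338705009040050) (nat_lit 16) Lb.e (@T16.mk En
    (@En.i (nat_lit 12371) (nat_lit 5) (nat_lit 4))
    (@En.n l17099 (nat_lit 1160) (nat_lit 1) (nat_lit 14))
    (@En.n l2403 (nat_lit 5633) (nat_lit 2) (nat_lit 7))
    (@En.i (nat_lit 12365) (nat_lit 3) (nat_lit 3))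
    (@En.n l2383 (nat_lit 12417) (nat_lit 0) (nat_lit 12))
    (@En.n l20365 (nat_lit 12723) (nat_lit 5) (nat_lit 6))
    (@En.n l17100 (nat_lit 11721) (nat_lit 7) (nat_lit 13))
    (@En.i (nat_lit 12677) (nat_lit 7) (nat_lit 5))
    (@En.n l17101 (nat_lit 12362) (nat_lit 8) (nat_lit 6))
    (@En.n l9914 (nat_lit 12359) (nat_lit 10) (nat_lit 9))
    (@En.n l117 (nat_lit 12370) (nat_lit 10) (nat_lit 3))
    (@En.n l32592 (nat_lit 12619) (nat_lit 0) (nat_lit 10))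
    (@En.n l4245 (nat_lit 9245) (nat_lit 13) (nat_lit 11))
    (@En.n l5387 (nat_lit 12611) (nat_lit 5) (nat_lit 13))
    (@En.i (nat_lit 11993) (nat_lit 3) (nat_lit 10))
    (@En.n l17 (nat_lit 12363) (nat_lit 15) (nat_lit 2))))
  (@Cl.mk (nat_lit 0x2000a0005000d000c000a000300060004000d000b00060003000b000e0005) (nat_lit 0x40496000a500520) (nat_lit 16) Lb.e (@T16.mk En
    (@En.n l14677 (nat_lit 11804) (nat_lit 6) (nat_lit 5))
    (@En.n l1889 (nat_lit 1115) (nat_lit 4) (nat_lit 14))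
    (@En.n l998 (nat_lit 12133) (nat_lit 2) (nat_lit 11))
    (@En.n l50 (nat_lit 12362) (nat_lit 3) (nat_lit 3))
    (@En.n l9401 (nat_lit 7441) (nat_lit 4) (nat_lit 6))
    (@En.n l7090 (nat_lit 10774) (nat_lit 12) (nat_lit 11))
    (@En.n l1599 (nat_lit 10758) (nat_lit 7) (nat_lit 13))
    (@En.n l14609 (nat_lit 12656) (nat_lit 7) (nat_lit 4))
    (@En.n l1638 (nat_lit 12774) (nat_lit 8) (nat_lit 6))
    (@En.n l3459 (nat_lit 12367) (nat_lit 9) (nat_lit 3))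
    (@En.n l2680 (nat_lit 11340) (nat_lit 0) (nat_lit 10))
    (@En.n l8351 (nat_lit 12368) (nat_lit 12) (nat_lit 12))
    (@En.n l31640 (nat_lit 12365) (nat_lit 13) (nat_lit 13))
    (@En.n l32654 (nat_lit 12366) (nat_lit 14) (nat_lit 5))
    (@En.n l3815 (nat_lit 12015) (nat_lit 4) (nat_lit 10))
    (@En.n l17 (nat_lit 12364) (nat_lit 15) (nat_lit 2))))
  (@Cl.mk (nat_lit 0x2000a000d000b00090003000900060005000d000b000700030007000e0005) (nat_lit 0x43840500a300010) (nat_lit 16) Lb.e (@T16.mk En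
    (@En.n l17098 (nat_lit 11806) (nat_lit 5) (nat_lit 5))
    (@En.n l17099 (nat_lit 302) (nat_lit 1) (nat_lit 14))
    (@En.n l2403 (nat_lit 10264) (nat_lit 2) (nat_lit 7))
    (@En.n l50 (nat_lit 12363) (nat_lit 3) (nat_lit 3))
    (@En.n l2493 (nat_lit 5852) (nat_lit 0) (nat_lit 7))
    (@En.n l17098 (nat_lit 10773) (nat_lit 11) (nat_lit 11))
    (@En.n l17100 (nat_lit 7946) (nat_lit 7) (nat_lit 13))
    (@En.i (nat_lit 12673) (nat_lit 7) (nat_lit 5))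
    (@En.n l17101 (nat_lit 12364) (nat_lit 8) (nat_lit 6))
    (@En.n l17102 (nat_lit 12360) (nat_lit 10) (nat_lit 9))
    (@En.n l117 (nat_lit 12369) (nat_lit 10) (nat_lit 3))
    (@En.n l17103 (nat_lit 11346) (nat_lit 0) (nat_lit 9))
    (@En.n l4245 (nat_lit 9246) (nat_lit 13) (nat_lit 11))
    (@En.n l17103 (nat_lit 12609) (nat_lit 5) (nat_lit 13))
    (@En.n l17104 (nat_lit 12016) (nat_lit 3) (nat_lit 10))
    (@En.n l17 (nat_lit 12365) (nat_lit 15) (nat_lit 2))))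
  (@Cl.mk (nat_lit 0x20005000d000c000a000300090004000d000a00060003000b0007000e0006) (nat_lit 0x39505095006030) (nat_lit 16) Lb.e (@T16.mk En
    (@En.i (nat_lit 11810) (nat_lit 5) (nat_lit 6))
    (@En.n l10708 (nat_lit 12364) (nat_lit 1) (nat_lit 14))
    (@En.n l3756 (nat_lit 12365) (nat_lit 2) (nat_lit 7))
    (@En.n l6771 (nat_lit 12129) (nat_lit 3) (nat_lit 11))
    (@En.n l3622 (nat_lit 12043) (nat_lit 4) (nat_lit 3))
    (@En.i (nat_lit 7443) (nat_lit 5) (nat_lit 6))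
    (@En.n l30238 (nat_lit 12436) (nat_lit 7) (nat_lit 10))
    (@En.n l601 (nat_lit 11731) (nat_lit 8) (nat_lit 13))
    (@En.n l1032 (nat_lit 12654) (nat_lit 8) (nat_lit 4))
    (@En.n l17188 (nat_lit 8031) (nat_lit 10) (nat_lit 9))
    (@En.n l30239 (nat_lit 12041) (nat_lit 10) (nat_lit 3))
    (@En.n l77 (nat_lit 12550) (nat_lit 12) (nat_lit 10))
    (@En.n l55 (nat_lit 12049) (nat_lit 13) (nat_lit 12))
    (@En.n l617 (nat_lit 12337) (nat_lit 14) (nat_lit 13))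
    (@En.i (nat_lit 12234) (nat_lit 13) (nat_lit 5))
    (@En.n l3 (nat_lit 12366) (nat_lit 15) (nat_lit 2))))
  (@Cl.mk (nat_lit 0x2000a0005000d0009000d000300060003000d000b00070003000b000e0005) (nat_lit 0x30653000a600620) (nat_lit 16) Lb.e (@T16.mk En
    (@En.n l16484 (nat_lit 11808) (nat_lit 6) (nat_lit 5))
    (@En.n l5742 (nat_lit 1110) (nat_lit 4) (nat_lit 14))
    (@En.n l22836 (nat_lit 12128) (nat_lit 2) (nat_lit 11))
    (@En.n l50 (nat_lit 12044) (nat_lit 3) (nat_lit 3))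
    (@En.n l24146 (nat_lit 11320) (nat_lit 4) (nat_lit 7))
    (@En.n l24147 (nat_lit 10775) (nat_lit 12) (nat_lit 11))
    (@En.n l4690 (nat_lit 11729) (nat_lit 7) (nat_lit 13))
    (@En.n l11 (nat_lit 12368) (nat_lit 7) (nat_lit 3))
    (@En.n l16486 (nat_lit 12249) (nat_lit 8) (nat_lit 6))
    (@En.n l16487 (nat_lit 12364) (nat_lit 9) (nat_lit 3))
    (@En.i (nat_lit 975) (nat_lit 0) (nat_lit 13))
    (@En.n l24148 (nat_lit 11898) (nat_lit 12) (nat_lit 9))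
    (@En.n l11 (nat_lit 12369) (nat_lit 13) (nat_lit 13))
    (@En.n l24149 (nat_lit 12041) (nat_lit 14) (nat_lit 5))
    (@En.n l16484 (nat_lit 12014) (nat_lit 4) (nat_lit 10))
    (@En.n l17 (nat_lit 12367) (nat_lit 15) (nat_lit 2))))
noncomputable def a773 : T16 Cl := @T16.mk Cl
  (@Cl.mk (nat_lit 0x2000b0005000c0009000d000500040003000d000b00070003000b000e0005) (nat_lit 0x90863000a100620) (nat_lit 16) Lb.e (@T16.mk En
    (@En.n l5742 (nat_lit 11809) (nat_lit 8) (nat_lit 5))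
    (@En.n l5742 (nat_lit 1103) (nat_lit 4) (nat_lit 14))
    (@En.n l2698 (nat_lit 12156) (nat_lit 2) (nat_lit 11))
    (@En.n l50 (nat_lit 12047) (nat_lit 3) (nat_lit 3))
    (@En.n l7865 (nat_lit 11318) (nat_lit 4) (nat_lit 7))
    (@En.n l5851 (nat_lit 26) (nat_lit 6) (nat_lit 11))
    (@En.n l18439 (nat_lit 12360) (nat_lit 7) (nat_lit 13))
    (@En.i (nat_lit 12367) (nat_lit 7) (nat_lit 3))
    (@En.n l152 (nat_lit 12657) (nat_lit 8) (nat_lit 4))
    (@En.i (nat_lit 12679) (nat_lit 9) (nat_lit 5))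
    (@En.i (nat_lit 695) (nat_lit 11) (nat_lit 13))
    (@En.n l24148 (nat_lit 11897) (nat_lit 12) (nat_lit 9))
    (@En.i (nat_lit 12201) (nat_lit 13) (nat_lit 12))
    (@En.n l28103 (nat_lit 12049) (nat_lit 14) (nat_lit 5))
    (@En.i (nat_lit 11867) (nat_lit 11) (nat_lit 11))
    (@En.n l17 (nat_lit 12368) (nat_lit 15) (nat_lit 2))))
  (@Cl.mk (nat_lit 0x2000a000d0008000c0003000900060004000d000b000800030007000e0005) (nat_lit 0x35420500a710010) (nat_lit 16) Lb.e (@T16.mk En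
    (@En.n l6862 (nat_lit 11807) (nat_lit 5) (nat_lit 5))
    (@En.n l302 (nat_lit 219) (nat_lit 1) (nat_lit 14))
    (@En.i (nat_lit 10265) (nat_lit 2) (nat_lit 7))
    (@En.n l50 (nat_lit 12370) (nat_lit 3) (nat_lit 3))
    (@En.n l2496 (nat_lit 5791) (nat_lit 0) (nat_lit 8))
    (@En.i (nat_lit 10772) (nat_lit 11) (nat_lit 11))
    (@En.i (nat_lit 11728) (nat_lit 7) (nat_lit 13))
    (@En.i (nat_lit 12201) (nat_lit 7) (nat_lit 4))
    (@En.n l3015 (nat_lit 12367) (nat_lit 8) (nat_lit 6))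
    (@En.n l197 (nat_lit 11965) (nat_lit 10) (nat_lit 9))
    (@En.n l152 (nat_lit 12365) (nat_lit 10) (nat_lit 3))
    (@En.i (nat_lit 2714) (nat_lit 0) (nat_lit 12))
    (@En.n l28081 (nat_lit 11050) (nat_lit 13) (nat_lit 8))
    (@En.n l645 (nat_lit 12602) (nat_lit 5) (nat_lit 13))
    (@En.n l22804 (nat_lit 12013) (nat_lit 3) (nat_lit 10))
    (@En.n l17 (nat_lit 12369) (nat_lit 15) (nat_lit 2))))
  (@Cl.mk (nat_lit 0x2000a000d0009000c0003000900060004000d0007000c00030007000e0004) (nat_lit 0x357305009080010) (nat_lit 16) Lb.e (@T16.mk En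
    (@En.i (nat_lit 12585) (nat_lit 5) (nat_lit 4))
    (@En.n l636 (nat_lit 212) (nat_lit 1) (nat_lit 14))
    (@En.i (nat_lit 3983) (nat_lit 2) (nat_lit 7))
    (@En.i (nat_lit 12369) (nat_lit 3) (nat_lit 3))
    (@En.n l3082 (nat_lit 12421) (nat_lit 0) (nat_lit 12))
    (@En.i (nat_lit 12587) (nat_lit 5) (nat_lit 7))
    (@En.i (nat_lit 11723) (nat_lit 7) (nat_lit 13))
    (@En.i (nat_lit 12198) (nat_lit 7) (nat_lit 4))
    (@En.n l3015 (nat_lit 12044) (nat_lit 8) (nat_lit 6))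
    (@En.n l197 (nat_lit 11960) (nat_lit 10) (nat_lit 9))
    (@En.n l152 (nat_lit 12363) (nat_lit 10) (nat_lit 3))
    (@En.i (nat_lit 2715) (nat_lit 0) (nat_lit 12))
    (@En.n l15079 (nat_lit 11047) (nat_lit 13) (nat_lit 9))
    (@En.n l645 (nat_lit 12343) (nat_lit 5) (nat_lit 13))
    (@En.i (nat_lit 12012) (nat_lit 3) (nat_lit 10))
    (@En.n l17 (nat_lit 12370) (nat_lit 15) (nat_lit 2))))
  (@Cl.mk (nat_lit 0x3000800060005000c0006000c000c0004000800040004000a000d000b000a) (nat_lit 0x500a06503003425) (nat_lit 16) Lb.e (@T16.mk En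
    (@En.n l32592 (nat_lit 12648) (nat_lit 0) (nat_lit 10))
    (@En.n l4245 (nat_lit 9243) (nat_lit 12) (nat_lit 11))
    (@En.n l4256 (nat_lit 12610) (nat_lit 5) (nat_lit 13))
    (@En.n l32598 (nat_lit 11103) (nat_lit 3) (nat_lit 10))
    (@En.n l32599 (nat_lit 12595) (nat_lit 12) (nat_lit 4))
    (@En.n l32600 (nat_lit 10773) (nat_lit 5) (nat_lit 4))
    (@En.n l32601 (nat_lit 5632) (nat_lit 0) (nat_lit 8))
    (@En.n l32602 (nat_lit 11825) (nat_lit 1) (nat_lit 4))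
    (@En.n l61 (nat_lit 12363) (nat_lit 4) (nat_lit 12))
    (@En.n l32603 (nat_lit 12414) (nat_lit 1) (nat_lit 12))
    (@En.n l32604 (nat_lit 12722) (nat_lit 4) (nat_lit 6))
    (@En.n l32605 (nat_lit 11717) (nat_lit 12) (nat_lit 12))
    (@En.i (nat_lit 10537) (nat_lit 11) (nat_lit 5))
    (@En.n l32606 (nat_lit 12415) (nat_lit 14) (nat_lit 6))
    (@En.n l32607 (nat_lit 12361) (nat_lit 6) (nat_lit 8))
    (@En.n l117 (nat_lit 12585) (nat_lit 15) (nat_lit 3))))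
  (@Cl.mk (nat_lit 0x200060006000c0007000c000c0004000900040004000a000a0009000e0007) (nat_lit 0x6071010021580) (nat_lit 16) Lb.e (@T16.mk En
    (@En.n l55 (nat_lit 12000) (nat_lit 7) (nat_lit 7))
    (@En.n l17062 (nat_lit 12256) (nat_lit 1) (nat_lit 14))
    (@En.n l17063 (nat_lit 12117) (nat_lit 2) (nat_lit 9))
    (@En.n l17064 (nat_lit 5958) (nat_lit 6) (nat_lit 10))
    (@En.n l16887 (nat_lit 11304) (nat_lit 4) (nat_lit 10))
    (@En.n l6847 (nat_lit 12373) (nat_lit 12) (nat_lit 4))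
    (@En.n l2392 (nat_lit 11537) (nat_lit 6) (nat_lit 4))
    (@En.n l17065 (nat_lit 3252) (nat_lit 0) (nat_lit 9))
    (@En.n l17066 (nat_lit 12314) (nat_lit 8) (nat_lit 4))
    (@En.n l17067 (nat_lit 5959) (nat_lit 10) (nat_lit 12))
    (@En.n l16879 (nat_lit 12330) (nat_lit 11) (nat_lit 12))
    (@En.n l17068 (nat_lit 5714) (nat_lit 12) (nat_lit 7))
    (@En.n l17062 (nat_lit 11515) (nat_lit 13) (nat_lit 12))
    (@En.n l17069 (nat_lit 12377) (nat_lit 14) (nat_lit 6))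
    (@En.n l716 (nat_lit 12371) (nat_lit 13) (nat_lit 6))
    (@En.n l28 (nat_lit 12372) (nat_lit 15) (nat_lit 2))))
  (@Cl.mk (nat_lit 0x20005000a0004000a000a0009000e0006000200060006000b0007000e000c) (nat_lit 0x20134800006058) (nat_lit 16) Lb.e (@T16.mk En
    (@En.n l9483 (nat_lit 12372) (nat_lit 10) (nat_lit 12))
    (@En.n l5577 (nat_lit 12375) (nat_lit 11) (nat_lit 14))
    (@En.n l2593 (nat_lit 5792) (nat_lit 12) (nat_lit 7))
    (@En.n l5030 (nat_lit 12842) (nat_lit 3) (nat_lit 11))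
    (@En.n l13507 (nat_lit 12376) (nat_lit 4) (nat_lit 6))
    (@En.n l21683 (nat_lit 12595) (nat_lit 5) (nat_lit 6))
    (@En.n l18 (nat_lit 12373) (nat_lit 6) (nat_lit 2))
    (@En.n l2464 (nat_lit 5790) (nat_lit 7) (nat_lit 6))
    (@En.n l5030 (nat_lit 12258) (nat_lit 9) (nat_lit 14))
    (@En.n l3536 (nat_lit 12740) (nat_lit 2) (nat_lit 9))
    (@En.n l152 (nat_lit 12374) (nat_lit 11) (nat_lit 10))
    (@En.n l16789 (nat_lit 6885) (nat_lit 12) (nat_lit 10))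
    (@En.n l21684 (nat_lit 11534) (nat_lit 5) (nat_lit 4))
    (@En.i (nat_lit 5666) (nat_lit 14) (nat_lit 10))
    (@En.n l766 (nat_lit 11650) (nat_lit 7) (nat_lit 5))
    (@En.n l28 (nat_lit 12373) (nat_lit 15) (nat_lit 2))))
  (@Cl.mk (nat_lit 0x20005000b0004000a0008000e00050002000e00060002000b0008000e000c) (nat_lit 0x30237008006431) (nat_lit 16) Lb.e (@T16.mk En
    (@En.n l134 (nat_lit 5958) (nat_lit 12) (nat_lit 12))
    (@En.n l5577 (nat_lit 5622) (nat_lit 1) (nat_lit 14))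
    (@En.n l2593 (nat_lit 5716) (nat_lit 14) (nat_lit 8))
    (@En.n l11610 (nat_lit 5235) (nat_lit 3) (nat_lit 11))
    (@En.n l3 (nat_lit 12374) (nat_lit 4) (nat_lit 2))
    (@En.i (nat_lit 12373) (nat_lit 5) (nat_lit 6))
    (@En.i (nat_lit 5671) (nat_lit 7) (nat_lit 14))
    (@En.n l18 (nat_lit 12374) (nat_lit 7) (nat_lit 2))
    (@En.i (nat_lit 5619) (nat_lit 8) (nat_lit 5))
    (@En.n l4021 (nat_lit 12091) (nat_lit 10) (nat_lit 14))
    (@En.i (nat_lit 12808) (nat_lit 11) (nat_lit 8))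
    (@En.n l16789 (nat_lit 8349) (nat_lit 12) (nat_lit 10))
    (@En.i (nat_lit 11539) (nat_lit 7) (nat_lit 4))
    (@En.i (nat_lit 5667) (nat_lit 9) (nat_lit 11))
    (@En.n l766 (nat_lit 11647) (nat_lit 9) (nat_lit 5))
    (@En.n l28 (nat_lit 12374) (nat_lit 15) (nat_lit 2))))
  (@Cl.mk (nat_lit 0x200060006000b000e000b0002000a0005000a0005000a000a0006000e0006) (nat_lit 0x6470302011080) (nat_lit 16) Lb.e (@T16.mk En
    (@En.n l9179 (nat_lit 5621) (nat_lit 6) (nat_lit 6))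
    (@En.n l3258 (nat_lit 12259) (nat_lit 8) (nat_lit 14))
    (@En.n l9180 (nat_lit 12840) (nat_lit 2) (nat_lit 6))
    (@En.n l152 (nat_lit 5622) (nat_lit 10) (nat_lit 10))
    (@En.n l1501 (nat_lit 6886) (nat_lit 4) (nat_lit 10))
    (@En.n l9181 (nat_lit 11533) (nat_lit 5) (nat_lit 5))
    (@En.i (nat_lit 10335) (nat_lit 13) (nat_lit 10))
    (@En.n l1603 (nat_lit 12373) (nat_lit 14) (nat_lit 5))
    (@En.i (nat_lit 9635) (nat_lit 9) (nat_lit 10))
    (@En.n l11 (nat_lit 12375) (nat_lit 9) (nat_lit 2))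
    (@En.n l2544 (nat_lit 11517) (nat_lit 11) (nat_lit 11))
    (@En.n l1208 (nat_lit 4894) (nat_lit 12) (nat_lit 14))
    (@En.n l3258 (nat_lit 12841) (nat_lit 13) (nat_lit 11))
    (@En.n l3261 (nat_lit 12378) (nat_lit 14) (nat_lit 6))
    (@En.n l9182 (nat_lit 12579) (nat_lit 4) (nat_lit 6))
    (@En.n l18 (nat_lit 12375) (nat_lit 15) (nat_lit 2))))
  (@Cl.mk (nat_lit 0x2000500090004000e000a0002000a000e000700020006000b0006000e000c) (nat_lit 0x30c20580008047) (nat_lit 16) Lb.e (@T16.mk En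
    (@En.n l55 (nat_lit 12377) (nat_lit 11) (nat_lit 12))
    (@En.n l3629 (nat_lit 12378) (nat_lit 12) (nat_lit 14))
    (@En.n l17 (nat_lit 5782) (nat_lit 13) (nat_lit 6))
    (@En.i (nat_lit 12835) (nat_lit 3) (nat_lit 11))
    (@En.n l7644 (nat_lit 12696) (nat_lit 4) (nat_lit 6))
    (@En.n l3 (nat_lit 12376) (nat_lit 5) (nat_lit 2))
    (@En.n l9211 (nat_lit 5784) (nat_lit 6) (nat_lit 7))
    (@En.n l9212 (nat_lit 12559) (nat_lit 8) (nat_lit 14))
    (@En.n l9213 (nat_lit 7255) (nat_lit 2) (nat_lit 10))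
    (@En.n l50 (nat_lit 12376) (nat_lit 9) (nat_lit 2))
    (@En.n l9214 (nat_lit 12373) (nat_lit 11) (nat_lit 10))
    (@En.n l9215 (nat_lit 1561) (nat_lit 12) (nat_lit 14))
    (@En.i (nat_lit 12382) (nat_lit 6) (nat_lit 4))
    (@En.n l9212 (nat_lit 5651) (nat_lit 14) (nat_lit 9))
    (@En.n l9215 (nat_lit 11655) (nat_lit 8) (nat_lit 5))
    (@En.n l11 (nat_lit 12376) (nat_lit 15) (nat_lit 2))))
  (@Cl.mk (nat_lit 0x20006000c0006000c000c0004000800040004000e000a0002000a000e0008) (nat_lit 0x50640100b30692) (nat_lit 16) Lb.e (@T16.mk En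
    (@En.n l7131 (nat_lit 12381) (nat_lit 13) (nat_lit 8))
    (@En.n l7132 (nat_lit 12525) (nat_lit 1) (nat_lit 14))
    (@En.n l6201 (nat_lit 7257) (nat_lit 2) (nat_lit 10))
    (@En.n l50 (nat_lit 12377) (nat_lit 3) (nat_lit 2))
    (@En.n l7133 (nat_lit 12372) (nat_lit 4) (nat_lit 10))
    (@En.n l6606 (nat_lit 11332) (nat_lit 1) (nat_lit 14))
    (@En.n l1577 (nat_lit 12376) (nat_lit 12) (nat_lit 4))
    (@En.i (nat_lit 12383) (nat_lit 7) (nat_lit 4))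
    (@En.n l7134 (nat_lit 5650) (nat_lit 4) (nat_lit 8))
    (@En.n l575 (nat_lit 12310) (nat_lit 9) (nat_lit 4))
    (@En.n l7135 (nat_lit 12380) (nat_lit 11) (nat_lit 12))
    (@En.n l1386 (nat_lit 12308) (nat_lit 8) (nat_lit 12))
    (@En.n l17 (nat_lit 5707) (nat_lit 13) (nat_lit 6))
    (@En.i (nat_lit 10803) (nat_lit 10) (nat_lit 12))
    (@En.n l7136 (nat_lit 12678) (nat_lit 13) (nat_lit 6))
    (@En.n l3 (nat_lit 12377) (nat_lit 15) (nat_lit 2))))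
  (@Cl.mk (nat_lit 0x20006000b000e000b00020009000500090005000e000a00020007000e0007) (nat_lit 0x83603040b20090) (nat_lit 16) Lb.e (@T16.mk En
    (@En.n l3128 (nat_lit 5785) (nat_lit 5) (nat_lit 7))
    (@En.n l3129 (nat_lit 12557) (nat_lit 7) (nat_lit 14))
    (@En.n l3130 (nat_lit 10039) (nat_lit 2) (nat_lit 7))
    (@En.n l28 (nat_lit 12378) (nat_lit 3) (nat_lit 2))
    (@En.n l982 (nat_lit 12375) (nat_lit 4) (nat_lit 10))
    (@En.n l983 (nat_lit 1900) (nat_lit 6) (nat_lit 14))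
    (@En.n l3131 (nat_lit 11503) (nat_lit 6) (nat_lit 5))
    (@En.i (nat_lit 12505) (nat_lit 3) (nat_lit 9))
    (@En.n l491 (nat_lit 12376) (nat_lit 14) (nat_lit 5))
    (@En.n l3132 (nat_lit 11332) (nat_lit 5) (nat_lit 9))
    (@En.n l3 (nat_lit 12378) (nat_lit 10) (nat_lit 2))
    (@En.n l1844 (nat_lit 12379) (nat_lit 12) (nat_lit 11))
    (@En.n l350 (nat_lit 2115) (nat_lit 13) (nat_lit 14))
    (@En.n l1128 (nat_lit 12836) (nat_lit 2) (nat_lit 11))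
    (@En.i (nat_lit 12701) (nat_lit 3) (nat_lit 6))
    (@En.n l18 (nat_lit 12378) (nat_lit 15) (nat_lit 2))))
  (@Cl.mk (nat_lit 0x20006000c000b000b00080004000800050005000e000a00020008000e0008) (nat_lit 0x45320200b30552) (nat_lit 16) Lb.e (@T16.mk En
    (@En.n l2393 (nat_lit 12386) (nat_lit 13) (nat_lit 8))
    (@En.n l2470 (nat_lit 12523) (nat_lit 1) (nat_lit 14))
    (@En.i (nat_lit 7583) (nat_lit 2) (nat_lit 8))
    (@En.n l50 (nat_lit 12379) (nat_lit 3) (nat_lit 2))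
    (@En.n l2471 (nat_lit 11517) (nat_lit 4) (nat_lit 10))
    (@En.n l601 (nat_lit 11335) (nat_lit 6) (nat_lit 14))
    (@En.n l2472 (nat_lit 12378) (nat_lit 6) (nat_lit 5))
    (@En.n l2473 (nat_lit 12760) (nat_lit 7) (nat_lit 5))
    (@En.n l1226 (nat_lit 12501) (nat_lit 4) (nat_lit 8))
    (@En.n l2473 (nat_lit 12377) (nat_lit 9) (nat_lit 4))
    (@En.n l2474 (nat_lit 12311) (nat_lit 11) (nat_lit 8))
    (@En.n l55 (nat_lit 12384) (nat_lit 12) (nat_lit 11))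
    (@En.i (nat_lit 12304) (nat_lit 13) (nat_lit 11))
    (@En.n l2475 (nat_lit 10801) (nat_lit 10) (nat_lit 12))
    (@En.i (nat_lit 12675) (nat_lit 11) (nat_lit 6))
    (@En.n l3 (nat_lit 12379) (nat_lit 15) (nat_lit 2))))
  (@Cl.mk (nat_lit 0x20006000d0006000c00030007000e00040002000e000a0002000a000e0009) (nat_lit 0xa03004003408a6) (nat_lit 16) Lb.e (@T16.mk En
    (@En.n l55 (nat_lit 12385) (nat_lit 13) (nat_lit 9))
    (@En.n l218 (nat_lit 12614) (nat_lit 1) (nat_lit 14))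
    (@En.n l7127 (nat_lit 7567) (nat_lit 2) (nat_lit 10))
    (@En.n l3 (nat_lit 12380) (nat_lit 3) (nat_lit 2))
    (@En.n l2312 (nat_lit 5959) (nat_lit 4) (nat_lit 10))
    (@En.n l3607 (nat_lit 11330) (nat_lit 1) (nat_lit 14))
    (@En.n l17 (nat_lit 12380) (nat_lit 6) (nat_lit 2))
    (@En.n l2392 (nat_lit 12377) (nat_lit 7) (nat_lit 4))
    (@En.n l7128 (nat_lit 4773) (nat_lit 9) (nat_lit 14))
    (@En.n l7129 (nat_lit 6366) (nat_lit 5) (nat_lit 7))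
    (@En.n l715 (nat_lit 12384) (nat_lit 10) (nat_lit 3))
    (@En.n l2390 (nat_lit 12567) (nat_lit 8) (nat_lit 12))
    (@En.n l7118 (nat_lit 5702) (nat_lit 13) (nat_lit 6))
    (@En.n l218 (nat_lit 11647) (nat_lit 10) (nat_lit 13))
    (@En.n l7128 (nat_lit 12670) (nat_lit 7) (nat_lit 6))
    (@En.n l28 (nat_lit 12380) (nat_lit 15) (nat_lit 2))))
  (@Cl.mk (nat_lit 0x2000b000800080005000c0005000b000b00040008000800050005000e000b) (nat_lit 0x7120405401200c3) (nat_lit 16) Lb.e (@T16.mk En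
    (@En.i (nat_lit 12000) (nat_lit 10) (nat_lit 11))
    (@En.n l15027 (nat_lit 11326) (nat_lit 1) (nat_lit 14))
    (@En.n l5331 (nat_lit 5784) (nat_lit 11) (nat_lit 5))
    (@En.n l17627 (nat_lit 11157) (nat_lit 3) (nat_lit 5))
    (@En.n l2392 (nat_lit 12377) (nat_lit 8) (nat_lit 8))
    (@En.n l13262 (nat_lit 6378) (nat_lit 5) (nat_lit 8))
    (@En.n l17628 (nat_lit 12294) (nat_lit 6) (nat_lit 4))
    (@En.n l61 (nat_lit 12385) (nat_lit 8) (nat_lit 11))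
    (@En.n l17629 (nat_lit 12293) (nat_lit 9) (nat_lit 11))
    (@En.n l8757 (nat_lit 5700) (nat_lit 9) (nat_lit 5))
    (@En.n l11 (nat_lit 11644) (nat_lit 11) (nat_lit 12))
    (@En.n l17630 (nat_lit 12454) (nat_lit 12) (nat_lit 5))
    (@En.n l7479 (nat_lit 12393) (nat_lit 8) (nat_lit 8))
    (@En.n l13977 (nat_lit 5595) (nat_lit 14) (nat_lit 8))
    (@En.n l615 (nat_lit 7256) (nat_lit 2) (nat_lit 11))
    (@En.n l3 (nat_lit 12381) (nat_lit 15) (nat_lit 2))))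
  (@Cl.mk (nat_lit 0x20006000a0006000d000c0007000300060004000e000a0002000a000e0009) (nat_lit 0x30490000b40692) (nat_lit 16) Lb.e (@T16.mk En
    (@En.n l17 (nat_lit 11568) (nat_lit 13) (nat_lit 9))
    (@En.i (nat_lit 11748) (nat_lit 1) (nat_lit 14))
    (@En.i (nat_lit 12480) (nat_lit 2) (nat_lit 10))
    (@En.n l50 (nat_lit 12382) (nat_lit 3) (nat_lit 2))
    (@En.i (nat_lit 11534) (nat_lit 4) (nat_lit 10))
    (@En.i (nat_lit 5027) (nat_lit 6) (nat_lit 14))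
    (@En.n l11 (nat_lit 12377) (nat_lit 6) (nat_lit 4))
    (@En.n l1080 (nat_lit 11657) (nat_lit 7) (nat_lit 6))
    (@En.n l11 (nat_lit 12400) (nat_lit 8) (nat_lit 3))
    (@En.i (nat_lit 11431) (nat_lit 0) (nat_lit 7))
    (@En.n l55 (nat_lit 12383) (nat_lit 11) (nat_lit 12))
    (@En.i (nat_lit 11503) (nat_lit 12) (nat_lit 13))
    (@En.n l17 (nat_lit 7996) (nat_lit 13) (nat_lit 6))
    (@En.i (nat_lit 4864) (nat_lit 14) (nat_lit 10))
    (@En.n l1080 (nat_lit 12402) (nat_lit 5) (nat_lit 6))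
    (@En.n l3 (nat_lit 12382) (nat_lit 15) (nat_lit 2))))
  (@Cl.mk (nat_lit 0x20006000b0006000c0006000d000500040003000e000a0002000a000e000a) (nat_lit 0x10801000b50764) (nat_lit 16) Lb.e (@T16.mk En
    (@En.n l3247 (nat_lit 11563) (nat_lit 13) (nat_lit 10))
    (@En.n l2394 (nat_lit 12571) (nat_lit 1) (nat_lit 14))
    (@En.i (nat_lit 12077) (nat_lit 2) (nat_lit 10))
    (@En.n l50 (nat_lit 12383) (nat_lit 3) (nat_lit 2))
    (@En.i (nat_lit 11537) (nat_lit 4) (nat_lit 10))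
    (@En.n l6606 (nat_lit 12526) (nat_lit 1) (nat_lit 14))
    (@En.n l28 (nat_lit 12400) (nat_lit 6) (nat_lit 3))
    (@En.n l7147 (nat_lit 12380) (nat_lit 7) (nat_lit 4))
    (@En.i (nat_lit 12304) (nat_lit 8) (nat_lit 5))
    (@En.n l7136 (nat_lit 1167) (nat_lit 10) (nat_lit 13))
    (@En.n l117 (nat_lit 11013) (nat_lit 6) (nat_lit 6))
    (@En.i (nat_lit 12086) (nat_lit 8) (nat_lit 12))
    (@En.n l17 (nat_lit 7995) (nat_lit 13) (nat_lit 6))
    (@En.i (nat_lit 8710) (nat_lit 14) (nat_lit 11))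
    (@En.i (nat_lit 12403) (nat_lit 11) (nat_lit 6))
    (@En.n l3 (nat_lit 12383) (nat_lit 15) (nat_lit 2))))
noncomputable def a774 : T16 Cl := @T16.mk Cl
  (@Cl.mk (nat_lit 0x20006000d000b000700030007000e00050002000e000a00020009000e0009) (nat_lit 0x92000200340656) (nat_lit 16) Lb.e (@T16.mk En
    (@En.n l2393 (nat_lit 12389) (nat_lit 13) (nat_lit 9))
    (@En.n l2394 (nat_lit 12615) (nat_lit 1) (nat_lit 14))
    (@En.n l969 (nat_lit 10093) (nat_lit 2) (nat_lit 9))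
    (@En.n l50 (nat_lit 12384) (nat_lit 3) (nat_lit 2))
    (@En.n l2395 (nat_lit 11514) (nat_lit 4) (nat_lit 10))
    (@En.n l2396 (nat_lit 11334) (nat_lit 1) (nat_lit 14))
    (@En.n l28 (nat_lit 12384) (nat_lit 6) (nat_lit 2))
    (@En.i (nat_lit 12379) (nat_lit 7) (nat_lit 5))
    (@En.n l745 (nat_lit 4772) (nat_lit 9) (nat_lit 14))
    (@En.n l753 (nat_lit 12502) (nat_lit 5) (nat_lit 7))
    (@En.n l2397 (nat_lit 12380) (nat_lit 10) (nat_lit 3))
    (@En.n l2398 (nat_lit 2115) (nat_lit 0) (nat_lit 7))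
    (@En.i (nat_lit 12383) (nat_lit 13) (nat_lit 11))
    (@En.n l2399 (nat_lit 11648) (nat_lit 10) (nat_lit 13))
    (@En.n l745 (nat_lit 12668) (nat_lit 7) (nat_lit 6))
    (@En.n l3 (nat_lit 12384) (nat_lit 15) (nat_lit 2))))
  (@Cl.mk (nat_lit 0x2000b000900090005000d0005000b000300070007000e00050002000e000b) (nat_lit 0x852080300050034) (nat_lit 16) Lb.e (@T16.mk En
    (@En.i (nat_lit 5953) (nat_lit 14) (nat_lit 11))
    (@En.i (nat_lit 11327) (nat_lit 1) (nat_lit 14))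
    (@En.n l17 (nat_lit 12385) (nat_lit 2) (nat_lit 2))
    (@En.i (nat_lit 12381) (nat_lit 3) (nat_lit 5))
    (@En.n l5491 (nat_lit 2410) (nat_lit 1) (nat_lit 14))
    (@En.i (nat_lit 12380) (nat_lit 9) (nat_lit 7))
    (@En.n l5611 (nat_lit 6369) (nat_lit 6) (nat_lit 7))
    (@En.n l3039 (nat_lit 12389) (nat_lit 7) (nat_lit 3))
    (@En.n l17626 (nat_lit 12563) (nat_lit 9) (nat_lit 11))
    (@En.n l8757 (nat_lit 5698) (nat_lit 9) (nat_lit 5))
    (@En.n l11 (nat_lit 11645) (nat_lit 11) (nat_lit 13))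
    (@En.n l5491 (nat_lit 12664) (nat_lit 8) (nat_lit 5))
    (@En.n l7479 (nat_lit 12391) (nat_lit 13) (nat_lit 9))
    (@En.n l17626 (nat_lit 12807) (nat_lit 14) (nat_lit 9))
    (@En.n l615 (nat_lit 7564) (nat_lit 12) (nat_lit 11))
    (@En.n l3 (nat_lit 12385) (nat_lit 15) (nat_lit 2))))
  (@Cl.mk (nat_lit 0x20009000800080005000c000a000a000700040008000800060006000e000b) (nat_lit 0x512034400430033) (nat_lit 16) Lb.e (@T16.mk En
    (@En.i (nat_lit 10282) (nat_lit 10) (nat_lit 11))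
    (@En.n l7394 (nat_lit 7723) (nat_lit 1) (nat_lit 14))
    (@En.n l7395 (nat_lit 5785) (nat_lit 10) (nat_lit 6))
    (@En.n l7396 (nat_lit 12078) (nat_lit 3) (nat_lit 6))
    (@En.n l7137 (nat_lit 12379) (nat_lit 8) (nat_lit 8))
    (@En.n l7138 (nat_lit 10130) (nat_lit 5) (nat_lit 8))
    (@En.n l7139 (nat_lit 12381) (nat_lit 6) (nat_lit 4))
    (@En.n l7397 (nat_lit 12290) (nat_lit 7) (nat_lit 7))
    (@En.n l61 (nat_lit 12389) (nat_lit 9) (nat_lit 10))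
    (@En.n l7398 (nat_lit 11572) (nat_lit 10) (nat_lit 10))
    (@En.n l7399 (nat_lit 10788) (nat_lit 11) (nat_lit 12))
    (@En.n l137 (nat_lit 11879) (nat_lit 12) (nat_lit 5))
    (@En.n l644 (nat_lit 12388) (nat_lit 8) (nat_lit 8))
    (@En.n l3166 (nat_lit 5590) (nat_lit 14) (nat_lit 8))
    (@En.i (nat_lit 10044) (nat_lit 2) (nat_lit 9))
    (@En.n l3 (nat_lit 12386) (nat_lit 15) (nat_lit 2))))
  (@Cl.mk (nat_lit 0x2000b00090004000d000900050003000e00070002000e00070002000e000c) (nat_lit 0x810820080040059) (nat_lit 16) Lb.e (@T16.mk En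
    (@En.i (nat_lit 12390) (nat_lit 14) (nat_lit 12))
    (@En.i (nat_lit 11315) (nat_lit 1) (nat_lit 14))
    (@En.n l17 (nat_lit 12387) (nat_lit 2) (nat_lit 2))
    (@En.i (nat_lit 12388) (nat_lit 14) (nat_lit 7))
    (@En.i (nat_lit 8566) (nat_lit 1) (nat_lit 14))
    (@En.n l50 (nat_lit 12387) (nat_lit 5) (nat_lit 2))
    (@En.i (nat_lit 12389) (nat_lit 6) (nat_lit 7))
    (@En.n l601 (nat_lit 5794) (nat_lit 1) (nat_lit 14))
    (@En.n l28 (nat_lit 12391) (nat_lit 8) (nat_lit 3))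
    (@En.n l1393 (nat_lit 4900) (nat_lit 9) (nat_lit 5))
    (@En.n l3213 (nat_lit 11564) (nat_lit 11) (nat_lit 9))
    (@En.i (nat_lit 11362) (nat_lit 12) (nat_lit 13))
    (@En.n l1393 (nat_lit 12394) (nat_lit 9) (nat_lit 4))
    (@En.i (nat_lit 5331) (nat_lit 14) (nat_lit 9))
    (@En.i (nat_lit 6455) (nat_lit 12) (nat_lit 11))
    (@En.n l3 (nat_lit 12387) (nat_lit 15) (nat_lit 2))))
  (@Cl.mk (nat_lit 0x200070007000e000c0002000a00080004000c0009000900060004000e0008) (nat_lit 0x4807102330095) (nat_lit 16) Lb.e (@T16.mk En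
    (@En.i (nat_lit 12386) (nat_lit 5) (nat_lit 8))
    (@En.n l8515 (nat_lit 5792) (nat_lit 1) (nat_lit 14))
    (@En.n l28 (nat_lit 12393) (nat_lit 2) (nat_lit 4))
    (@En.n l7406 (nat_lit 12297) (nat_lit 3) (nat_lit 6))
    (@En.n l61 (nat_lit 12387) (nat_lit 10) (nat_lit 9))
    (@En.n l8516 (nat_lit 11571) (nat_lit 5) (nat_lit 9))
    (@En.i (nat_lit 10787) (nat_lit 7) (nat_lit 12))
    (@En.n l8517 (nat_lit 12398) (nat_lit 7) (nat_lit 4))
    (@En.i (nat_lit 2960) (nat_lit 14) (nat_lit 8))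
    (@En.i (nat_lit 6461) (nat_lit 10) (nat_lit 10))
    (@En.n l3 (nat_lit 12388) (nat_lit 10) (nat_lit 2))
    (@En.i (nat_lit 5309) (nat_lit 12) (nat_lit 12))
    (@En.i (nat_lit 12549) (nat_lit 13) (nat_lit 14))
    (@En.n l8518 (nat_lit 5787) (nat_lit 9) (nat_lit 7))
    (@En.n l7409 (nat_lit 9731) (nat_lit 3) (nat_lit 7))
    (@En.n l50 (nat_lit 12388) (nat_lit 15) (nat_lit 2))))
  (@Cl.mk (nat_lit 0x2000a000900090005000d000a0006000300070007000e00060002000e000b) (nat_lit 0x452093000030034) (nat_lit 16) Lb.e (@T16.mk En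
    (@En.i (nat_lit 11516) (nat_lit 14) (nat_lit 11))
    (@En.i (nat_lit 11329) (nat_lit 1) (nat_lit 14))
    (@En.n l17 (nat_lit 12389) (nat_lit 2) (nat_lit 2))
    (@En.i (nat_lit 12386) (nat_lit 3) (nat_lit 6))
    (@En.i (nat_lit 2409) (nat_lit 5) (nat_lit 14))
    (@En.n l7137 (nat_lit 12384) (nat_lit 9) (nat_lit 7))
    (@En.n l7138 (nat_lit 10129) (nat_lit 6) (nat_lit 7))
    (@En.n l7139 (nat_lit 12385) (nat_lit 7) (nat_lit 3))
    (@En.n l1393 (nat_lit 4894) (nat_lit 0) (nat_lit 6))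
    (@En.n l3213 (nat_lit 11563) (nat_lit 10) (nat_lit 10))
    (@En.n l7140 (nat_lit 11646) (nat_lit 11) (nat_lit 13))
    (@En.i (nat_lit 12666) (nat_lit 8) (nat_lit 5))
    (@En.n l644 (nat_lit 12387) (nat_lit 13) (nat_lit 9))
    (@En.i (nat_lit 12805) (nat_lit 14) (nat_lit 9))
    (@En.i (nat_lit 10091) (nat_lit 12) (nat_lit 10))
    (@En.n l3 (nat_lit 12389) (nat_lit 15) (nat_lit 2))))
  (@Cl.mk (nat_lit 0x2000c000c000a000800040004000d000900060003000e00080002000e0007) (nat_lit 0x897100870053040) (nat_lit 16) Lb.e (@T16.mk En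
    (@En.i (nat_lit 5309) (nat_lit 14) (nat_lit 7))
    (@En.i (nat_lit 8348) (nat_lit 1) (nat_lit 14))
    (@En.n l50 (nat_lit 12390) (nat_lit 2) (nat_lit 2))
    (@En.i (nat_lit 11516) (nat_lit 3) (nat_lit 8))
    (@En.n l601 (nat_lit 5793) (nat_lit 1) (nat_lit 14))
    (@En.n l28 (nat_lit 12392) (nat_lit 5) (nat_lit 3))
    (@En.n l2438 (nat_lit 4893) (nat_lit 6) (nat_lit 6))
    (@En.n l4316 (nat_lit 11561) (nat_lit 4) (nat_lit 9))
    (@En.n l4108 (nat_lit 12819) (nat_lit 9) (nat_lit 13))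
    (@En.n l152 (nat_lit 12387) (nat_lit 12) (nat_lit 4))
    (@En.n l2438 (nat_lit 12493) (nat_lit 10) (nat_lit 4))
    (@En.i (nat_lit 5332) (nat_lit 12) (nat_lit 8))
    (@En.n l4684 (nat_lit 10103) (nat_lit 13) (nat_lit 10))
    (@En.n l10815 (nat_lit 12622) (nat_lit 14) (nat_lit 12))
    (@En.i (nat_lit 11283) (nat_lit 12) (nat_lit 12))
    (@En.n l17 (nat_lit 12390) (nat_lit 15) (nat_lit 2))))
  (@Cl.mk (nat_lit 0x2000c00090004000d0004000a0003000e00070002000e00060002000e000c) (nat_lit 0x910703090060058) (nat_lit 16) Lb.e (@T16.mk En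
    (@En.i (nat_lit 12392) (nat_lit 14) (nat_lit 12))
    (@En.i (nat_lit 11319) (nat_lit 1) (nat_lit 14))
    (@En.n l17 (nat_lit 12391) (nat_lit 2) (nat_lit 2))
    (@En.i (nat_lit 12393) (nat_lit 14) (nat_lit 6))
    (@En.i (nat_lit 8347) (nat_lit 1) (nat_lit 14))
    (@En.n l50 (nat_lit 12391) (nat_lit 5) (nat_lit 2))
    (@En.n l8898 (nat_lit 12385) (nat_lit 6) (nat_lit 7))
    (@En.n l601 (nat_lit 9123) (nat_lit 1) (nat_lit 14))
    (@En.i (nat_lit 12387) (nat_lit 8) (nat_lit 3))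
    (@En.n l5076 (nat_lit 12559) (nat_lit 10) (nat_lit 10))
    (@En.i (nat_lit 5703) (nat_lit 10) (nat_lit 4))
    (@En.i (nat_lit 11359) (nat_lit 12) (nat_lit 13))
    (@En.n l4155 (nat_lit 12395) (nat_lit 9) (nat_lit 4))
    (@En.n l5076 (nat_lit 5333) (nat_lit 14) (nat_lit 9))
    (@En.i (nat_lit 5369) (nat_lit 12) (nat_lit 12))
    (@En.n l3 (nat_lit 12391) (nat_lit 15) (nat_lit 2))))
  (@Cl.mk (nat_lit 0x2000c000c000b000800040004000d0005000a0003000e00080002000e0006) (nat_lit 0x718100708051060) (nat_lit 16) Lb.e (@T16.mk En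
    (@En.i (nat_lit 5308) (nat_lit 14) (nat_lit 6))
    (@En.n l19855 (nat_lit 8345) (nat_lit 1) (nat_lit 14))
    (@En.n l50 (nat_lit 12392) (nat_lit 2) (nat_lit 2))
    (@En.n l8898 (nat_lit 5953) (nat_lit 3) (nat_lit 8))
    (@En.n l601 (nat_lit 9119) (nat_lit 1) (nat_lit 14))
    (@En.i (nat_lit 12390) (nat_lit 5) (nat_lit 3))
    (@En.n l13540 (nat_lit 12525) (nat_lit 3) (nat_lit 10))
    (@En.i (nat_lit 5202) (nat_lit 7) (nat_lit 5))
    (@En.i (nat_lit 12820) (nat_lit 9) (nat_lit 13))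
    (@En.n l152 (nat_lit 12391) (nat_lit 12) (nat_lit 4))
    (@En.n l8498 (nat_lit 12487) (nat_lit 10) (nat_lit 4))
    (@En.n l5076 (nat_lit 5334) (nat_lit 12) (nat_lit 8))
    (@En.n l619 (nat_lit 12396) (nat_lit 13) (nat_lit 11))
    (@En.n l15358 (nat_lit 5951) (nat_lit 14) (nat_lit 12))
    (@En.i (nat_lit 11284) (nat_lit 12) (nat_lit 12))
    (@En.n l17 (nat_lit 12392) (nat_lit 15) (nat_lit 2))))
  (@Cl.mk (nat_lit 0x200060006000e000c0002000c00080004000c0004000a000a0004000e0008) (nat_lit 0xc1081020440a2) (nat_lit 16) Lb.e (@T16.mk En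
    (@En.n l8898 (nat_lit 12381) (nat_lit 5) (nat_lit 8))
    (@En.n l601 (nat_lit 9223) (nat_lit 1) (nat_lit 14))
    (@En.n l1353 (nat_lit 12299) (nat_lit 2) (nat_lit 4))
    (@En.n l61 (nat_lit 12391) (nat_lit 9) (nat_lit 10))
    (@En.n l1353 (nat_lit 12298) (nat_lit 10) (nat_lit 10))
    (@En.i (nat_lit 5306) (nat_lit 5) (nat_lit 4))
    (@En.n l8516 (nat_lit 10789) (nat_lit 7) (nat_lit 12))
    (@En.n l4155 (nat_lit 12397) (nat_lit 7) (nat_lit 4))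
    (@En.n l5076 (nat_lit 5342) (nat_lit 14) (nat_lit 8))
    (@En.n l18024 (nat_lit 5366) (nat_lit 10) (nat_lit 12))
    (@En.n l3 (nat_lit 12393) (nat_lit 10) (nat_lit 2))
    (@En.i (nat_lit 5308) (nat_lit 12) (nat_lit 12))
    (@En.i (nat_lit 5791) (nat_lit 13) (nat_lit 14))
    (@En.n l18005 (nat_lit 5786) (nat_lit 10) (nat_lit 6))
    (@En.n l18007 (nat_lit 8538) (nat_lit 3) (nat_lit 6))
    (@En.n l50 (nat_lit 12393) (nat_lit 15) (nat_lit 2))))
  (@Cl.mk (nat_lit 0x2000d000c00070003000c0004000d000900040003000e00090002000e0007) (nat_lit 0x480050810096080) (nat_lit 16) Lb.e (@T16.mk En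
    (@En.n l9812 (nat_lit 12398) (nat_lit 14) (nat_lit 7))
    (@En.n l14754 (nat_lit 8239) (nat_lit 1) (nat_lit 14))
    (@En.n l3 (nat_lit 12394) (nat_lit 2) (nat_lit 2))
    (@En.n l6072 (nat_lit 12113) (nat_lit 3) (nat_lit 9))
    (@En.n l6478 (nat_lit 5795) (nat_lit 1) (nat_lit 14))
    (@En.n l9812 (nat_lit 12395) (nat_lit 5) (nat_lit 3))
    (@En.i (nat_lit 10123) (nat_lit 6) (nat_lit 4))
    (@En.n l29194 (nat_lit 4174) (nat_lit 4) (nat_lit 9))
    (@En.n l217 (nat_lit 1233) (nat_lit 9) (nat_lit 13))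
    (@En.n l4263 (nat_lit 12390) (nat_lit 9) (nat_lit 4))
    (@En.n l15282 (nat_lit 6456) (nat_lit 11) (nat_lit 12))
    (@En.n l15280 (nat_lit 10124) (nat_lit 11) (nat_lit 3))
    (@En.n l1347 (nat_lit 12340) (nat_lit 0) (nat_lit 7))
    (@En.n l644 (nat_lit 12493) (nat_lit 14) (nat_lit 12))
    (@En.n l1347 (nat_lit 11164) (nat_lit 12) (nat_lit 13))
    (@En.n l11 (nat_lit 12394) (nat_lit 15) (nat_lit 2))))
  (@Cl.mk (nat_lit 0x2000d000c00070003000d0004000d0003000a0003000e00090002000e0006) (nat_lit 0x5400b0704096080) (nat_lit 16) Lb.e (@T16.mk En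
    (@En.i (nat_lit 12397) (nat_lit 14) (nat_lit 6))
    (@En.n l1531 (nat_lit 8342) (nat_lit 1) (nat_lit 14))
    (@En.n l3 (nat_lit 12395) (nat_lit 2) (nat_lit 2))
    (@En.n l1532 (nat_lit 12110) (nat_lit 3) (nat_lit 9))
    (@En.n l3157 (nat_lit 9116) (nat_lit 1) (nat_lit 14))
    (@En.n l1029 (nat_lit 12394) (nat_lit 5) (nat_lit 3))
    (@En.i (nat_lit 11748) (nat_lit 3) (nat_lit 10))
    (@En.n l3621 (nat_lit 12396) (nat_lit 7) (nat_lit 3))
    (@En.i (nat_lit 1816) (nat_lit 0) (nat_lit 13))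
    (@En.n l5292 (nat_lit 12392) (nat_lit 9) (nat_lit 4))
    (@En.n l3559 (nat_lit 5368) (nat_lit 11) (nat_lit 13))
    (@En.n l11 (nat_lit 12399) (nat_lit 11) (nat_lit 3))
    (@En.n l3621 (nat_lit 12335) (nat_lit 0) (nat_lit 7))
    (@En.n l55 (nat_lit 12487) (nat_lit 14) (nat_lit 12))
    (@En.i (nat_lit 11162) (nat_lit 12) (nat_lit 13))
    (@En.n l17 (nat_lit 12395) (nat_lit 15) (nat_lit 2))))
  (@Cl.mk (nat_lit 0x2000d000b00070003000d000c00050003000a0004000e00090002000e0006) (nat_lit 0x4700b6008094070) (nat_lit 16) Lb.e (@T16.mk En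
    (@En.n l4155 (nat_lit 5312) (nat_lit 14) (nat_lit 6))
    (@En.n l4153 (nat_lit 8344) (nat_lit 1) (nat_lit 14))
    (@En.n l50 (nat_lit 12396) (nat_lit 2) (nat_lit 2))
    (@En.n l10903 (nat_lit 12109) (nat_lit 3) (nat_lit 9))
    (@En.n l601 (nat_lit 7833) (nat_lit 1) (nat_lit 14))
    (@En.n l1393 (nat_lit 10103) (nat_lit 5) (nat_lit 4))
    (@En.n l287 (nat_lit 11624) (nat_lit 3) (nat_lit 10))
    (@En.n l22067 (nat_lit 12395) (nat_lit 7) (nat_lit 3))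
    (@En.i (nat_lit 5808) (nat_lit 0) (nat_lit 5))
    (@En.n l10050 (nat_lit 12394) (nat_lit 10) (nat_lit 12))
    (@En.n l25300 (nat_lit 5370) (nat_lit 11) (nat_lit 13))
    (@En.n l25301 (nat_lit 12486) (nat_lit 11) (nat_lit 3))
    (@En.i (nat_lit 12333) (nat_lit 0) (nat_lit 7))
    (@En.i (nat_lit 5812) (nat_lit 14) (nat_lit 11))
    (@En.i (nat_lit 11160) (nat_lit 12) (nat_lit 13))
    (@En.n l17 (nat_lit 12396) (nat_lit 15) (nat_lit 2))))
  (@Cl.mk (nat_lit 0x200060006000d000c00060003000d0004000c0003000a000a0004000e000a) (nat_lit 0x5300a020550a4) (nat_lit 16) Lb.e (@T16.mk En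
    (@En.n l1532 (nat_lit 12112) (nat_lit 11) (nat_lit 10))
    (@En.n l18 (nat_lit 9101) (nat_lit 1) (nat_lit 14))
    (@En.i (nat_lit 12357) (nat_lit 2) (nat_lit 4))
    (@En.n l61 (nat_lit 12395) (nat_lit 6) (nat_lit 10))
    (@En.i (nat_lit 12346) (nat_lit 4) (nat_lit 10))
    (@En.i (nat_lit 5312) (nat_lit 5) (nat_lit 3))
    (@En.i (nat_lit 1100) (nat_lit 7) (nat_lit 12))
    (@En.n l5292 (nat_lit 5308) (nat_lit 7) (nat_lit 4))
    (@En.n l664 (nat_lit 5367) (nat_lit 9) (nat_lit 13))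
    (@En.n l11 (nat_lit 12484) (nat_lit 9) (nat_lit 3))
    (@En.i (nat_lit 12334) (nat_lit 0) (nat_lit 6))
    (@En.n l55 (nat_lit 9214) (nat_lit 12) (nat_lit 12))
    (@En.i (nat_lit 11166) (nat_lit 13) (nat_lit 13))
    (@En.n l797 (nat_lit 12753) (nat_lit 10) (nat_lit 6))
    (@En.n l6081 (nat_lit 8549) (nat_lit 8) (nat_lit 6))
    (@En.n l3 (nat_lit 12397) (nat_lit 15) (nat_lit 2))))
  (@Cl.mk (nat_lit 0x200070007000d000c00060003000b0004000c0009000900050004000e000a) (nat_lit 0x27004025200a5) (nat_lit 16) Lb.e (@T16.mk En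
    (@En.n l15505 (nat_lit 10283) (nat_lit 14) (nat_lit 10))
    (@En.n l15506 (nat_lit 5796) (nat_lit 1) (nat_lit 14))
    (@En.i (nat_lit 12397) (nat_lit 2) (nat_lit 4))
    (@En.n l2776 (nat_lit 12347) (nat_lit 3) (nat_lit 5))
    (@En.n l15507 (nat_lit 12394) (nat_lit 7) (nat_lit 9))
    (@En.n l15508 (nat_lit 12272) (nat_lit 5) (nat_lit 9))
    (@En.n l2175 (nat_lit 1097) (nat_lit 7) (nat_lit 12))
    (@En.n l15509 (nat_lit 5309) (nat_lit 7) (nat_lit 4))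
    (@En.n l15510 (nat_lit 6463) (nat_lit 9) (nat_lit 11))
    (@En.n l11 (nat_lit 12494) (nat_lit 9) (nat_lit 3))
    (@En.n l15511 (nat_lit 10741) (nat_lit 0) (nat_lit 6))
    (@En.n l55 (nat_lit 12495) (nat_lit 12) (nat_lit 12))
    (@En.n l7018 (nat_lit 12650) (nat_lit 13) (nat_lit 13))
    (@En.n l14260 (nat_lit 12752) (nat_lit 9) (nat_lit 7))
    (@En.n l10118 (nat_lit 9733) (nat_lit 4) (nat_lit 7))
    (@En.n l3 (nat_lit 12398) (nat_lit 15) (nat_lit 2))))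
  (@Cl.mk (nat_lit 0x2000d0006000d0003000d0003000d0003000a0003000e000a0002000e0006) (nat_lit 0x4020a0706075080) (nat_lit 16) Lb.e (@T16.mk En
    (@En.i (nat_lit 12484) (nat_lit 14) (nat_lit 6))
    (@En.n l1531 (nat_lit 7454) (nat_lit 1) (nat_lit 14))
    (@En.n l3 (nat_lit 12399) (nat_lit 2) (nat_lit 2))
    (@En.n l1532 (nat_lit 12488) (nat_lit 3) (nat_lit 10))
    (@En.i (nat_lit 9113) (nat_lit 1) (nat_lit 14))
    (@En.i (nat_lit 10124) (nat_lit 5) (nat_lit 3))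
    (@En.i (nat_lit 11713) (nat_lit 3) (nat_lit 10))
    (@En.i (nat_lit 12486) (nat_lit 7) (nat_lit 3))
    (@En.i (nat_lit 1231) (nat_lit 0) (nat_lit 13))
    (@En.i (nat_lit 12487) (nat_lit 9) (nat_lit 3))
    (@En.i (nat_lit 5845) (nat_lit 11) (nat_lit 13))
    (@En.i (nat_lit 12395) (nat_lit 11) (nat_lit 3))
    (@En.i (nat_lit 5146) (nat_lit 0) (nat_lit 13))
    (@En.n l117 (nat_lit 10935) (nat_lit 14) (nat_lit 6))
    (@En.i (nat_lit 11894) (nat_lit 12) (nat_lit 13))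
    (@En.n l17 (nat_lit 12399) (nat_lit 15) (nat_lit 2))))
noncomputable def a775 : T16 Cl := @T16.mk Cl
  (@Cl.mk (nat_lit 0x20006000a0006000d0006000d000300060003000e000a0002000a000e000a) (nat_lit 0x50502000450784) (nat_lit 16) Lb.e (@T16.mk En
    (@En.n l17 (nat_lit 11566) (nat_lit 13) (nat_lit 10))
    (@En.i (nat_lit 11713) (nat_lit 1) (nat_lit 14))
    (@En.i (nat_lit 12482) (nat_lit 2) (nat_lit 10))
    (@En.n l50 (nat_lit 12400) (nat_lit 3) (nat_lit 2))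
    (@En.i (nat_lit 11535) (nat_lit 4) (nat_lit 10))
    (@En.i (nat_lit 5032) (nat_lit 1) (nat_lit 14))
    (@En.i (nat_lit 12383) (nat_lit 6) (nat_lit 3))
    (@En.i (nat_lit 4774) (nat_lit 7) (nat_lit 6))
    (@En.i (nat_lit 12382) (nat_lit 8) (nat_lit 3))
    (@En.i (nat_lit 3030) (nat_lit 0) (nat_lit 13))
    (@En.n l117 (nat_lit 11591) (nat_lit 6) (nat_lit 6))
    (@En.i (nat_lit 11502) (nat_lit 12) (nat_lit 13))
    (@En.n l17 (nat_lit 7994) (nat_lit 13) (nat_lit 6))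
    (@En.i (nat_lit 4857) (nat_lit 14) (nat_lit 10))
    (@En.i (nat_lit 12401) (nat_lit 5) (nat_lit 6))
    (@En.n l3 (nat_lit 12400) (nat_lit 15) (nat_lit 2))))
  (@Cl.mk (nat_lit 0x300060003000d000a000d0003000b0003000b0006000a0005000d0005000d) (nat_lit 0x8520607010a07) (nat_lit 16) Lb.e (@T16.mk En
    (@En.n l7507 (nat_lit 4259) (nat_lit 0) (nat_lit 13))
    (@En.n l117 (nat_lit 8703) (nat_lit 7) (nat_lit 5))
    (@En.i (nat_lit 12406) (nat_lit 9) (nat_lit 13))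
    (@En.n l3480 (nat_lit 10296) (nat_lit 3) (nat_lit 5))
    (@En.n l2642 (nat_lit 4325) (nat_lit 4) (nat_lit 10))
    (@En.n l2642 (nat_lit 11824) (nat_lit 5) (nat_lit 6))
    (@En.i (nat_lit 10576) (nat_lit 13) (nat_lit 11))
    (@En.n l6081 (nat_lit 12405) (nat_lit 7) (nat_lit 3))
    (@En.i (nat_lit 12469) (nat_lit 0) (nat_lit 11))
    (@En.i (nat_lit 12404) (nat_lit 9) (nat_lit 3))
    (@En.i (nat_lit 3057) (nat_lit 0) (nat_lit 13))
    (@En.i (nat_lit 10766) (nat_lit 12) (nat_lit 10))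
    (@En.i (nat_lit 10505) (nat_lit 13) (nat_lit 13))
    (@En.i (nat_lit 12403) (nat_lit 3) (nat_lit 3))
    (@En.n l1081 (nat_lit 8048) (nat_lit 12) (nat_lit 6))
    (@En.n l1080 (nat_lit 12402) (nat_lit 15) (nat_lit 3))))
  (@Cl.mk (nat_lit 0x300060004000d000a000d0003000b0003000a0006000a0005000d000c0006) (nat_lit 0x9420604010ba0) (nat_lit 16) Lb.e (@T16.mk En
    (@En.n l10408 (nat_lit 9973) (nat_lit 0) (nat_lit 6))
    (@En.n l1767 (nat_lit 12403) (nat_lit 8) (nat_lit 12))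
    (@En.i (nat_lit 12413) (nat_lit 9) (nat_lit 13))
    (@En.i (nat_lit 10295) (nat_lit 3) (nat_lit 5))
    (@En.i (nat_lit 4330) (nat_lit 4) (nat_lit 10))
    (@En.n l1769 (nat_lit 11823) (nat_lit 5) (nat_lit 6))
    (@En.i (nat_lit 10634) (nat_lit 13) (nat_lit 10))
    (@En.i (nat_lit 12410) (nat_lit 7) (nat_lit 3))
    (@En.i (nat_lit 12467) (nat_lit 0) (nat_lit 11))
    (@En.i (nat_lit 12407) (nat_lit 9) (nat_lit 3))
    (@En.n l3530 (nat_lit 7349) (nat_lit 0) (nat_lit 13))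
    (@En.i (nat_lit 10765) (nat_lit 12) (nat_lit 10))
    (@En.n l1867 (nat_lit 10506) (nat_lit 13) (nat_lit 13))
    (@En.n l23842 (nat_lit 12678) (nat_lit 5) (nat_lit 4))
    (@En.i (nat_lit 12325) (nat_lit 12) (nat_lit 6))
    (@En.n l4659 (nat_lit 12401) (nat_lit 15) (nat_lit 3))))
  (@Cl.mk (nat_lit 0x3000b0003000b0006000b0005000c0005000d000500040003000d000a000d) (nat_lit 0x705020908000961) (nat_lit 16) Lb.e (@T16.mk En
    (@En.i (nat_lit 3052) (nat_lit 0) (nat_lit 13))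
    (@En.i (nat_lit 10773) (nat_lit 3) (nat_lit 10))
    (@En.n l4425 (nat_lit 11814) (nat_lit 2) (nat_lit 13))
    (@En.n l28 (nat_lit 12401) (nat_lit 13) (nat_lit 3))
    (@En.n l745 (nat_lit 12670) (nat_lit 0) (nat_lit 4))
    (@En.i (nat_lit 12437) (nat_lit 0) (nat_lit 5))
    (@En.n l7136 (nat_lit 4262) (nat_lit 1) (nat_lit 13))
    (@En.n l17687 (nat_lit 10289) (nat_lit 7) (nat_lit 5))
    (@En.n l6622 (nat_lit 12582) (nat_lit 9) (nat_lit 12))
    (@En.n l3480 (nat_lit 10297) (nat_lit 9) (nat_lit 5))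
    (@En.n l4427 (nat_lit 9170) (nat_lit 11) (nat_lit 11))
    (@En.n l7465 (nat_lit 11822) (nat_lit 14) (nat_lit 6))
    (@En.n l4427 (nat_lit 10579) (nat_lit 13) (nat_lit 11))
    (@En.n l6081 (nat_lit 12409) (nat_lit 15) (nat_lit 3))
    (@En.n l6622 (nat_lit 12468) (nat_lit 0) (nat_lit 11))
    (@En.n l17688 (nat_lit 12408) (nat_lit 15) (nat_lit 3))))
  (@Cl.mk (nat_lit 0x300060003000d000c000b0003000b0004000b0005000a0005000d0005000d) (nat_lit 0x8480107010b01) (nat_lit 16) Lb.e (@T16.mk En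
    (@En.n l7507 (nat_lit 1016) (nat_lit 0) (nat_lit 13))
    (@En.n l117 (nat_lit 8698) (nat_lit 7) (nat_lit 5))
    (@En.n l16589 (nat_lit 12411) (nat_lit 9) (nat_lit 13))
    (@En.n l403 (nat_lit 11847) (nat_lit 3) (nat_lit 5))
    (@En.n l2642 (nat_lit 4328) (nat_lit 4) (nat_lit 10))
    (@En.n l2642 (nat_lit 11808) (nat_lit 5) (nat_lit 5))
    (@En.n l13633 (nat_lit 10574) (nat_lit 13) (nat_lit 11))
    (@En.n l33242 (nat_lit 12423) (nat_lit 7) (nat_lit 4))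
    (@En.n l28545 (nat_lit 8252) (nat_lit 9) (nat_lit 11))
    (@En.n l50 (nat_lit 12401) (nat_lit 9) (nat_lit 3))
    (@En.n l33243 (nat_lit 11163) (nat_lit 0) (nat_lit 11))
    (@En.n l3480 (nat_lit 12405) (nat_lit 12) (nat_lit 12))
    (@En.i (nat_lit 10495) (nat_lit 13) (nat_lit 13))
    (@En.n l17688 (nat_lit 12408) (nat_lit 3) (nat_lit 3))
    (@En.n l1081 (nat_lit 8051) (nat_lit 12) (nat_lit 6))
    (@En.n l1080 (nat_lit 12407) (nat_lit 15) (nat_lit 3))))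
  (@Cl.mk (nat_lit 0x300060003000c000a000d000a00040003000b0006000a0006000d0005000d) (nat_lit 0x3515007010b01) (nat_lit 16) Lb.e (@T16.mk En
    (@En.n l264 (nat_lit 1015) (nat_lit 0) (nat_lit 13))
    (@En.n l1236 (nat_lit 10292) (nat_lit 9) (nat_lit 5))
    (@En.n l17941 (nat_lit 12412) (nat_lit 2) (nat_lit 13))
    (@En.i (nat_lit 11841) (nat_lit 3) (nat_lit 6))
    (@En.n l9715 (nat_lit 4329) (nat_lit 4) (nat_lit 10))
    (@En.n l9715 (nat_lit 12431) (nat_lit 5) (nat_lit 6))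
    (@En.n l22670 (nat_lit 12442) (nat_lit 9) (nat_lit 11))
    (@En.n l3536 (nat_lit 12401) (nat_lit 7) (nat_lit 3))
    (@En.i (nat_lit 11908) (nat_lit 0) (nat_lit 4))
    (@En.n l68 (nat_lit 10135) (nat_lit 10) (nat_lit 10))
    (@En.n l3866 (nat_lit 3055) (nat_lit 5) (nat_lit 13))
    (@En.i (nat_lit 10691) (nat_lit 12) (nat_lit 10))
    (@En.i (nat_lit 9692) (nat_lit 13) (nat_lit 12))
    (@En.i (nat_lit 12409) (nat_lit 5) (nat_lit 3))
    (@En.n l6784 (nat_lit 8049) (nat_lit 12) (nat_lit 6))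
    (@En.n l16865 (nat_lit 12410) (nat_lit 15) (nat_lit 3))))
  (@Cl.mk (nat_lit 0x300070003000c0006000a000d0004000c0003000900060004000d000a000d) (nat_lit 0x8019020500862) (nat_lit 16) Lb.e (@T16.mk En
    (@En.n l725 (nat_lit 7323) (nat_lit 0) (nat_lit 13))
    (@En.i (nat_lit 10764) (nat_lit 11) (nat_lit 10))
    (@En.n l1722 (nat_lit 10499) (nat_lit 2) (nat_lit 13))
    (@En.n l6622 (nat_lit 12582) (nat_lit 3) (nat_lit 4))
    (@En.n l725 (nat_lit 12401) (nat_lit 14) (nat_lit 6))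
    (@En.i (nat_lit 11106) (nat_lit 5) (nat_lit 9))
    (@En.n l1080 (nat_lit 12413) (nat_lit 6) (nat_lit 3))
    (@En.n l7507 (nat_lit 4255) (nat_lit 0) (nat_lit 12))
    (@En.n l16382 (nat_lit 12456) (nat_lit 8) (nat_lit 4))
    (@En.n l2374 (nat_lit 12240) (nat_lit 5) (nat_lit 13))
    (@En.n l2642 (nat_lit 4331) (nat_lit 11) (nat_lit 10))
    (@En.n l2642 (nat_lit 12428) (nat_lit 14) (nat_lit 6))
    (@En.n l16588 (nat_lit 10573) (nat_lit 13) (nat_lit 12))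
    (@En.n l14379 (nat_lit 12412) (nat_lit 6) (nat_lit 3))
    (@En.n l387 (nat_lit 12205) (nat_lit 0) (nat_lit 7))
    (@En.n l16589 (nat_lit 12411) (nat_lit 15) (nat_lit 3))))
  (@Cl.mk (nat_lit 0x300060004000d000c000b0003000b0004000a0005000a0005000d000c0006) (nat_lit 0x8480205040b80) (nat_lit 16) Lb.e (@T16.mk En
    (@En.n l10661 (nat_lit 9976) (nat_lit 0) (nat_lit 6))
    (@En.n l35928 (nat_lit 12408) (nat_lit 8) (nat_lit 12))
    (@En.n l10411 (nat_lit 12414) (nat_lit 9) (nat_lit 13))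
    (@En.n l19407 (nat_lit 11849) (nat_lit 3) (nat_lit 5))
    (@En.i (nat_lit 9168) (nat_lit 4) (nat_lit 10))
    (@En.n l39201 (nat_lit 11804) (nat_lit 5) (nat_lit 5))
    (@En.n l38414 (nat_lit 10632) (nat_lit 13) (nat_lit 10))
    (@En.n l33578 (nat_lit 12418) (nat_lit 7) (nat_lit 4))
    (@En.n l21138 (nat_lit 8250) (nat_lit 9) (nat_lit 11))
    (@En.n l7 (nat_lit 12402) (nat_lit 9) (nat_lit 3))
    (@En.n l33581 (nat_lit 11161) (nat_lit 0) (nat_lit 11))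
    (@En.n l644 (nat_lit 12410) (nat_lit 12) (nat_lit 12))
    (@En.n l1140 (nat_lit 10493) (nat_lit 13) (nat_lit 13))
    (@En.n l941 (nat_lit 10537) (nat_lit 3) (nat_lit 4))
    (@En.i (nat_lit 12328) (nat_lit 12) (nat_lit 6))
    (@En.n l4659 (nat_lit 12404) (nat_lit 15) (nat_lit 3))))
  (@Cl.mk (nat_lit 0x3000b0004000b0005000b0005000c0005000d000500040003000d000c000b) (nat_lit 0x108020708000849) (nat_lit 16) Lb.e (@T16.mk En
    (@En.n l575 (nat_lit 11165) (nat_lit 0) (nat_lit 11))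
    (@En.n l17700 (nat_lit 12409) (nat_lit 4) (nat_lit 12))
    (@En.i (nat_lit 10638) (nat_lit 2) (nat_lit 13))
    (@En.n l33427 (nat_lit 12404) (nat_lit 13) (nat_lit 3))
    (@En.i (nat_lit 12677) (nat_lit 0) (nat_lit 4))
    (@En.n l15086 (nat_lit 12436) (nat_lit 0) (nat_lit 5))
    (@En.n l5856 (nat_lit 4265) (nat_lit 1) (nat_lit 13))
    (@En.n l27611 (nat_lit 10288) (nat_lit 7) (nat_lit 5))
    (@En.n l5856 (nat_lit 12415) (nat_lit 9) (nat_lit 12))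
    (@En.n l27608 (nat_lit 11848) (nat_lit 9) (nat_lit 5))
    (@En.n l27731 (nat_lit 9169) (nat_lit 11) (nat_lit 11))
    (@En.i (nat_lit 11809) (nat_lit 7) (nat_lit 5))
    (@En.n l33428 (nat_lit 10578) (nat_lit 13) (nat_lit 11))
    (@En.n l117 (nat_lit 12203) (nat_lit 9) (nat_lit 4))
    (@En.n l33429 (nat_lit 8251) (nat_lit 11) (nat_lit 11))
    (@En.n l17098 (nat_lit 12403) (nat_lit 15) (nat_lit 3))))
  (@Cl.mk (nat_lit 0x3000b0006000b0006000c0005000d000500040003000c000a000d000a0004) (nat_lit 0x802090900035120) (nat_lit 16) Lb.e (@T16.mk En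
    (@En.n l9204 (nat_lit 12730) (nat_lit 0) (nat_lit 4))
    (@En.n l68 (nat_lit 10136) (nat_lit 0) (nat_lit 10))
    (@En.n l23334 (nat_lit 3053) (nat_lit 5) (nat_lit 13))
    (@En.n l9163 (nat_lit 10772) (nat_lit 3) (nat_lit 10))
    (@En.n l23334 (nat_lit 9696) (nat_lit 3) (nat_lit 12))
    (@En.n l50 (nat_lit 12405) (nat_lit 13) (nat_lit 3))
    (@En.n l9163 (nat_lit 12676) (nat_lit 0) (nat_lit 4))
    (@En.i (nat_lit 10689) (nat_lit 0) (nat_lit 5))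
    (@En.n l30301 (nat_lit 4264) (nat_lit 1) (nat_lit 13))
    (@En.n l33424 (nat_lit 10290) (nat_lit 9) (nat_lit 5))
    (@En.n l23334 (nat_lit 12583) (nat_lit 11) (nat_lit 12))
    (@En.i (nat_lit 11844) (nat_lit 5) (nat_lit 6))
    (@En.n l29061 (nat_lit 9171) (nat_lit 13) (nat_lit 11))
    (@En.n l33425 (nat_lit 12433) (nat_lit 14) (nat_lit 6))
    (@En.n l33426 (nat_lit 10637) (nat_lit 9) (nat_lit 11))
    (@En.n l3536 (nat_lit 12403) (nat_lit 13) (nat_lit 3))))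
  (@Cl.mk (nat_lit 0x300060004000c000a000d000a00040003000a0006000a0006000d000c0006) (nat_lit 0x3415004040ba0) (nat_lit 16) Lb.e (@T16.mk En
    (@En.n l10408 (nat_lit 8911) (nat_lit 0) (nat_lit 6))
    (@En.n l15031 (nat_lit 12409) (nat_lit 10) (nat_lit 12))
    (@En.i (nat_lit 12434) (nat_lit 2) (nat_lit 13))
    (@En.n l8638 (nat_lit 9733) (nat_lit 3) (nat_lit 6))
    (@En.i (nat_lit 10150) (nat_lit 4) (nat_lit 10))
    (@En.n l32106 (nat_lit 12432) (nat_lit 5) (nat_lit 6))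
    (@En.n l32107 (nat_lit 10814) (nat_lit 7) (nat_lit 10))
    (@En.n l50 (nat_lit 12402) (nat_lit 7) (nat_lit 3))
    (@En.n l32108 (nat_lit 12732) (nat_lit 0) (nat_lit 4))
    (@En.n l217 (nat_lit 10134) (nat_lit 10) (nat_lit 10))
    (@En.n l3530 (nat_lit 3058) (nat_lit 5) (nat_lit 13))
    (@En.n l10659 (nat_lit 10767) (nat_lit 12) (nat_lit 10))
    (@En.n l1867 (nat_lit 9431) (nat_lit 13) (nat_lit 12))
    (@En.n l10659 (nat_lit 12707) (nat_lit 5) (nat_lit 4))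
    (@En.i (nat_lit 12322) (nat_lit 12) (nat_lit 6))
    (@En.n l3203 (nat_lit 12405) (nat_lit 15) (nat_lit 3))))
  (@Cl.mk (nat_lit 0x300070004000c0005000a000d0004000c0003000900060004000d000c000b) (nat_lit 0x401a010400857) (nat_lit 16) Lb.e (@T16.mk En
    (@En.n l10858 (nat_lit 11166) (nat_lit 0) (nat_lit 11))
    (@En.n l14173 (nat_lit 12412) (nat_lit 11) (nat_lit 12))
    (@En.n l72 (nat_lit 10500) (nat_lit 2) (nat_lit 13))
    (@En.n l13793 (nat_lit 12415) (nat_lit 3) (nat_lit 4))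
    (@En.n l31886 (nat_lit 12404) (nat_lit 14) (nat_lit 6))
    (@En.n l31887 (nat_lit 11102) (nat_lit 5) (nat_lit 9))
    (@En.i (nat_lit 12414) (nat_lit 6) (nat_lit 3))
    (@En.n l13793 (nat_lit 1029) (nat_lit 0) (nat_lit 12))
    (@En.n l28959 (nat_lit 12457) (nat_lit 8) (nat_lit 4))
    (@En.i (nat_lit 12237) (nat_lit 5) (nat_lit 13))
    (@En.n l27601 (nat_lit 4333) (nat_lit 11) (nat_lit 10))
    (@En.i (nat_lit 11807) (nat_lit 4) (nat_lit 5))
    (@En.n l3519 (nat_lit 10572) (nat_lit 13) (nat_lit 12))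
    (@En.n l27602 (nat_lit 12420) (nat_lit 6) (nat_lit 4))
    (@En.i (nat_lit 10827) (nat_lit 7) (nat_lit 7))
    (@En.n l17877 (nat_lit 12406) (nat_lit 15) (nat_lit 3))))
  (@Cl.mk (nat_lit 0x3000a00060004000c000a000d000600040003000c0006000a000d0004000c) (nat_lit 0x600411000508a01) (nat_lit 16) Lb.e (@T16.mk En
    (@En.n l11421 (nat_lit 1030) (nat_lit 0) (nat_lit 12))
    (@En.n l16294 (nat_lit 12458) (nat_lit 10) (nat_lit 4))
    (@En.n l28533 (nat_lit 12035) (nat_lit 5) (nat_lit 13))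
    (@En.i (nat_lit 4334) (nat_lit 3) (nat_lit 10))
    (@En.n l8906 (nat_lit 12429) (nat_lit 14) (nat_lit 6))
    (@En.n l28534 (nat_lit 12443) (nat_lit 3) (nat_lit 12))
    (@En.n l18156 (nat_lit 12406) (nat_lit 13) (nat_lit 3))
    (@En.n l6781 (nat_lit 12765) (nat_lit 0) (nat_lit 4))
    (@En.n l107 (nat_lit 11818) (nat_lit 0) (nat_lit 6))
    (@En.n l10040 (nat_lit 3060) (nat_lit 5) (nat_lit 13))
    (@En.n l28535 (nat_lit 34) (nat_lit 3) (nat_lit 10))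
    (@En.n l16508 (nat_lit 8798) (nat_lit 12) (nat_lit 12))
    (@En.n l28536 (nat_lit 12583) (nat_lit 5) (nat_lit 4))
    (@En.i (nat_lit 12405) (nat_lit 14) (nat_lit 6))
    (@En.n l28537 (nat_lit 10475) (nat_lit 1) (nat_lit 10))
    (@En.n l28538 (nat_lit 12434) (nat_lit 15) (nat_lit 3))))
  (@Cl.mk (nat_lit 0x300070003000b0006000a000d000b00050003000900060005000d000a000d) (nat_lit 0x408a900500814) (nat_lit 16) Lb.e (@T16.mk En
    (@En.n l10358 (nat_lit 7348) (nat_lit 0) (nat_lit 13))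
    (@En.i (nat_lit 41) (nat_lit 3) (nat_lit 10))
    (@En.n l10406 (nat_lit 10501) (nat_lit 12) (nat_lit 13))
    (@En.n l10407 (nat_lit 10768) (nat_lit 3) (nat_lit 5))
    (@En.n l17 (nat_lit 12402) (nat_lit 14) (nat_lit 6))
    (@En.i (nat_lit 11814) (nat_lit 5) (nat_lit 9))
    (@En.n l4659 (nat_lit 12406) (nat_lit 6) (nat_lit 3))
    (@En.n l10408 (nat_lit 9977) (nat_lit 0) (nat_lit 5))
    (@En.n l10409 (nat_lit 12037) (nat_lit 9) (nat_lit 11))
    (@En.n l10410 (nat_lit 12243) (nat_lit 5) (nat_lit 13))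
    (@En.i (nat_lit 10151) (nat_lit 11) (nat_lit 10))
    (@En.n l1769 (nat_lit 11825) (nat_lit 14) (nat_lit 6))
    (@En.i (nat_lit 10635) (nat_lit 13) (nat_lit 11))
    (@En.i (nat_lit 12434) (nat_lit 6) (nat_lit 3))
    (@En.n l4661 (nat_lit 12204) (nat_lit 0) (nat_lit 7))
    (@En.n l10411 (nat_lit 12414) (nat_lit 15) (nat_lit 3))))
  (@Cl.mk (nat_lit 0x300070004000b0005000a000d000b00050003000900060005000d000c000b) (nat_lit 0x504a700400856) (nat_lit 16) Lb.e (@T16.mk En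
    (@En.n l10858 (nat_lit 11167) (nat_lit 0) (nat_lit 11))
    (@En.n l23817 (nat_lit 12434) (nat_lit 11) (nat_lit 12))
    (@En.n l72 (nat_lit 10502) (nat_lit 12) (nat_lit 13))
    (@En.n l23818 (nat_lit 44) (nat_lit 3) (nat_lit 5))
    (@En.n l23819 (nat_lit 12407) (nat_lit 14) (nat_lit 6))
    (@En.n l23818 (nat_lit 10638) (nat_lit 5) (nat_lit 9))
    (@En.n l7 (nat_lit 12411) (nat_lit 6) (nat_lit 3))
    (@En.n l7575 (nat_lit 10776) (nat_lit 0) (nat_lit 5))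
    (@En.n l8291 (nat_lit 11853) (nat_lit 9) (nat_lit 11))
    (@En.i (nat_lit 12238) (nat_lit 5) (nat_lit 13))
    (@En.n l23820 (nat_lit 10152) (nat_lit 11) (nat_lit 10))
    (@En.n l23821 (nat_lit 11806) (nat_lit 4) (nat_lit 5))
    (@En.n l10859 (nat_lit 10633) (nat_lit 13) (nat_lit 11))
    (@En.n l23822 (nat_lit 12416) (nat_lit 6) (nat_lit 4))
    (@En.n l7578 (nat_lit 10828) (nat_lit 7) (nat_lit 7))
    (@En.n l23823 (nat_lit 12413) (nat_lit 15) (nat_lit 3))))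
  (@Cl.mk (nat_lit 0x300060004000c0005000c000c0004000c00040004000a0004000d000c000b) (nat_lit 0xa056060030537) (nat_lit 16) Lb.e (@T16.mk En
    (@En.n l6444 (nat_lit 12645) (nat_lit 0) (nat_lit 11))
    (@En.n l32576 (nat_lit 12583) (nat_lit 4) (nat_lit 12))
    (@En.n l33253 (nat_lit 12371) (nat_lit 2) (nat_lit 13))
    (@En.n l3289 (nat_lit 11853) (nat_lit 3) (nat_lit 4))
    (@En.n l11792 (nat_lit 11101) (nat_lit 4) (nat_lit 10))
    (@En.n l6962 (nat_lit 12594) (nat_lit 12) (nat_lit 4))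
    (@En.n l5390 (nat_lit 10774) (nat_lit 6) (nat_lit 4))
    (@En.i (nat_lit 4275) (nat_lit 0) (nat_lit 12))
    (@En.n l18629 (nat_lit 11823) (nat_lit 8) (nat_lit 4))
    (@En.n l1867 (nat_lit 12362) (nat_lit 4) (nat_lit 12))
    (@En.n l11792 (nat_lit 12407) (nat_lit 11) (nat_lit 12))
    (@En.n l11386 (nat_lit 11811) (nat_lit 4) (nat_lit 5))
    (@En.n l1353 (nat_lit 11719) (nat_lit 13) (nat_lit 12))
    (@En.n l6042 (nat_lit 66) (nat_lit 6) (nat_lit 4))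
    (@En.i (nat_lit 12767) (nat_lit 12) (nat_lit 6))
    (@En.n l32577 (nat_lit 12582) (nat_lit 15) (nat_lit 3))))
noncomputable def a776 : T16 Cl := @T16.mk Cl
  (@Cl.mk (nat_lit 0x3000b00060005000c000c0005000c00040004000b0004000a000d000b0005) (nat_lit 0x900220200201930) (nat_lit 16) Lb.e (@T16.mk En
    (@En.n l32575 (nat_lit 8904) (nat_lit 0) (nat_lit 5))
    (@En.n l15353 (nat_lit 12427) (nat_lit 10) (nat_lit 11))
    (@En.n l32576 (nat_lit 12756) (nat_lit 5) (nat_lit 13))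
    (@En.n l27620 (nat_lit 6405) (nat_lit 3) (nat_lit 10))
    (@En.n l32013 (nat_lit 11839) (nat_lit 4) (nat_lit 4))
    (@En.n l32577 (nat_lit 9983) (nat_lit 0) (nat_lit 11))
    (@En.n l32578 (nat_lit 12417) (nat_lit 12) (nat_lit 4))
    (@En.n l16755 (nat_lit 12434) (nat_lit 7) (nat_lit 4))
    (@En.i (nat_lit 1067) (nat_lit 0) (nat_lit 12))
    (@En.n l32577 (nat_lit 11819) (nat_lit 1) (nat_lit 5))
    (@En.n l32579 (nat_lit 12734) (nat_lit 4) (nat_lit 12))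
    (@En.n l32580 (nat_lit 9707) (nat_lit 12) (nat_lit 12))
    (@En.i (nat_lit 12415) (nat_lit 11) (nat_lit 5))
    (@En.n l403 (nat_lit 12418) (nat_lit 14) (nat_lit 6))
    (@En.n l1353 (nat_lit 11778) (nat_lit 10) (nat_lit 11))
    (@En.n l15352 (nat_lit 12420) (nat_lit 15) (nat_lit 3))))
  (@Cl.mk (nat_lit 0x20006000d0004000b0003000a000d000b00050003000a00060005000e000c) (nat_lit 0x40704a20070093) (nat_lit 16) Lb.e (@T16.mk En
    (@En.n l17039 (nat_lit 12416) (nat_lit 11) (nat_lit 12))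
    (@En.n l18 (nat_lit 11522) (nat_lit 1) (nat_lit 14))
    (@En.n l7017 (nat_lit 12594) (nat_lit 2) (nat_lit 5))
    (@En.n l5694 (nat_lit 12419) (nat_lit 3) (nat_lit 6))
    (@En.n l7017 (nat_lit 12262) (nat_lit 4) (nat_lit 10))
    (@En.n l7 (nat_lit 12421) (nat_lit 5) (nat_lit 3))
    (@En.n l4807 (nat_lit 8943) (nat_lit 6) (nat_lit 5))
    (@En.n l7018 (nat_lit 12651) (nat_lit 8) (nat_lit 11))
    (@En.n l5496 (nat_lit 12755) (nat_lit 9) (nat_lit 13))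
    (@En.i (nat_lit 10525) (nat_lit 10) (nat_lit 10))
    (@En.i (nat_lit 11167) (nat_lit 10) (nat_lit 3))
    (@En.n l17040 (nat_lit 8988) (nat_lit 12) (nat_lit 11))
    (@En.n l6680 (nat_lit 12414) (nat_lit 13) (nat_lit 4))
    (@En.n l7019 (nat_lit 1070) (nat_lit 14) (nat_lit 13))
    (@En.n l7020 (nat_lit 10826) (nat_lit 3) (nat_lit 6))
    (@En.n l3 (nat_lit 12417) (nat_lit 15) (nat_lit 2))))
  (@Cl.mk (nat_lit 0x300060004000c000c0009000c00040004000a0004000a0007000d000c0006) (nat_lit 0x3931002010a20) (nat_lit 16) Lb.e (@T16.mk En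
    (@En.n l6140 (nat_lit 8899) (nat_lit 0) (nat_lit 6))
    (@En.n l61 (nat_lit 12203) (nat_lit 4) (nat_lit 12))
    (@En.i (nat_lit 12416) (nat_lit 2) (nat_lit 13))
    (@En.n l8760 (nat_lit 12424) (nat_lit 3) (nat_lit 7))
    (@En.n l16755 (nat_lit 6407) (nat_lit 4) (nat_lit 10))
    (@En.i (nat_lit 11837) (nat_lit 5) (nat_lit 4))
    (@En.n l3517 (nat_lit 9982) (nat_lit 0) (nat_lit 10))
    (@En.n l152 (nat_lit 12419) (nat_lit 12) (nat_lit 4))
    (@En.n l16755 (nat_lit 12410) (nat_lit 8) (nat_lit 4))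
    (@En.i (nat_lit 1073) (nat_lit 6) (nat_lit 12))
    (@En.n l31977 (nat_lit 10137) (nat_lit 11) (nat_lit 9))
    (@En.n l1867 (nat_lit 12732) (nat_lit 4) (nat_lit 12))
    (@En.i (nat_lit 9705) (nat_lit 13) (nat_lit 12))
    (@En.i (nat_lit 12195) (nat_lit 4) (nat_lit 4))
    (@En.n l3971 (nat_lit 11067) (nat_lit 12) (nat_lit 6))
    (@En.n l3473 (nat_lit 12423) (nat_lit 15) (nat_lit 3))))
  (@Cl.mk (nat_lit 0x2000a000d0004000a0003000a0006000d000c0006000300060004000e000c) (nat_lit 0x4307050b3000094) (nat_lit 16) Lb.e (@T16.mk En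
    (@En.i (nat_lit 12418) (nat_lit 12) (nat_lit 12))
    (@En.n l6780 (nat_lit 9438) (nat_lit 1) (nat_lit 14))
    (@En.i (nat_lit 9230) (nat_lit 2) (nat_lit 4))
    (@En.n l3971 (nat_lit 12631) (nat_lit 3) (nat_lit 6))
    (@En.n l12286 (nat_lit 12422) (nat_lit 4) (nat_lit 3))
    (@En.n l947 (nat_lit 8945) (nat_lit 0) (nat_lit 6))
    (@En.n l61 (nat_lit 12426) (nat_lit 7) (nat_lit 12))
    (@En.n l17452 (nat_lit 12417) (nat_lit 8) (nat_lit 13))
    (@En.n l13772 (nat_lit 12425) (nat_lit 8) (nat_lit 6))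
    (@En.n l16757 (nat_lit 10527) (nat_lit 10) (nat_lit 10))
    (@En.i (nat_lit 11161) (nat_lit 10) (nat_lit 3))
    (@En.n l2869 (nat_lit 8989) (nat_lit 0) (nat_lit 10))
    (@En.n l16757 (nat_lit 12407) (nat_lit 7) (nat_lit 4))
    (@En.i (nat_lit 1121) (nat_lit 14) (nat_lit 13))
    (@En.n l13772 (nat_lit 8245) (nat_lit 10) (nat_lit 10))
    (@En.n l3 (nat_lit 12419) (nat_lit 15) (nat_lit 2))))
  (@Cl.mk (nat_lit 0x3000b00060004000c000c0005000c00040004000c0004000a000d0004000c) (nat_lit 0x900650300201902) (nat_lit 16) Lb.e (@T16.mk En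
    (@En.n l2030 (nat_lit 1001) (nat_lit 0) (nat_lit 12))
    (@En.i (nat_lit 12459) (nat_lit 9) (nat_lit 4))
    (@En.n l18 (nat_lit 12748) (nat_lit 5) (nat_lit 13))
    (@En.n l28124 (nat_lit 6404) (nat_lit 3) (nat_lit 10))
    (@En.i (nat_lit 11838) (nat_lit 4) (nat_lit 4))
    (@En.n l29365 (nat_lit 9676) (nat_lit 0) (nat_lit 12))
    (@En.n l15252 (nat_lit 12421) (nat_lit 12) (nat_lit 4))
    (@En.n l29366 (nat_lit 12412) (nat_lit 7) (nat_lit 4))
    (@En.i (nat_lit 1060) (nat_lit 0) (nat_lit 12))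
    (@En.n l29367 (nat_lit 11817) (nat_lit 1) (nat_lit 5))
    (@En.n l2136 (nat_lit 12765) (nat_lit 4) (nat_lit 12))
    (@En.n l2137 (nat_lit 9702) (nat_lit 12) (nat_lit 12))
    (@En.n l2179 (nat_lit 66) (nat_lit 4) (nat_lit 4))
    (@En.n l2139 (nat_lit 12423) (nat_lit 14) (nat_lit 6))
    (@En.i (nat_lit 12444) (nat_lit 1) (nat_lit 11))
    (@En.n l6204 (nat_lit 12416) (nat_lit 15) (nat_lit 3))))
  (@Cl.mk (nat_lit 0x20006000d0004000c0003000a000d0004000c0003000a00060004000e000c) (nat_lit 0x40105902080097) (nat_lit 16) Lb.e (@T16.mk En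
    (@En.n l12527 (nat_lit 12420) (nat_lit 11) (nat_lit 12))
    (@En.n l18 (nat_lit 11524) (nat_lit 1) (nat_lit 14))
    (@En.n l3348 (nat_lit 12647) (nat_lit 2) (nat_lit 4))
    (@En.i (nat_lit 12422) (nat_lit 3) (nat_lit 6))
    (@En.i (nat_lit 12350) (nat_lit 4) (nat_lit 10))
    (@En.i (nat_lit 12417) (nat_lit 5) (nat_lit 3))
    (@En.n l3348 (nat_lit 1018) (nat_lit 7) (nat_lit 12))
    (@En.n l9962 (nat_lit 12460) (nat_lit 7) (nat_lit 4))
    (@En.n l617 (nat_lit 9221) (nat_lit 5) (nat_lit 13))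
    (@En.i (nat_lit 10524) (nat_lit 10) (nat_lit 10))
    (@En.i (nat_lit 11166) (nat_lit 10) (nat_lit 3))
    (@En.n l2199 (nat_lit 2542) (nat_lit 12) (nat_lit 12))
    (@En.n l6680 (nat_lit 12411) (nat_lit 13) (nat_lit 4))
    (@En.n l12527 (nat_lit 1065) (nat_lit 14) (nat_lit 13))
    (@En.n l14379 (nat_lit 10823) (nat_lit 3) (nat_lit 6))
    (@En.n l3 (nat_lit 12421) (nat_lit 15) (nat_lit 2))))
  (@Cl.mk (nat_lit 0x2000a000d0004000b0003000a0006000d0005000d000300060003000e000c) (nat_lit 0x4201050a0200096) (nat_lit 16) Lb.e (@T16.mk En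
    (@En.n l18476 (nat_lit 12423) (nat_lit 12) (nat_lit 12))
    (@En.n l18470 (nat_lit 11525) (nat_lit 1) (nat_lit 14))
    (@En.n l5694 (nat_lit 12426) (nat_lit 2) (nat_lit 3))
    (@En.n l18471 (nat_lit 11636) (nat_lit 12) (nat_lit 6))
    (@En.n l5694 (nat_lit 12419) (nat_lit 4) (nat_lit 3))
    (@En.n l1722 (nat_lit 1008) (nat_lit 0) (nat_lit 13))
    (@En.i (nat_lit 8761) (nat_lit 6) (nat_lit 5))
    (@En.n l2196 (nat_lit 12421) (nat_lit 8) (nat_lit 13))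
    (@En.i (nat_lit 11894) (nat_lit 8) (nat_lit 6))
    (@En.n l18474 (nat_lit 10526) (nat_lit 10) (nat_lit 10))
    (@En.i (nat_lit 11163) (nat_lit 10) (nat_lit 3))
    (@En.i (nat_lit 2538) (nat_lit 0) (nat_lit 11))
    (@En.n l28525 (nat_lit 12404) (nat_lit 7) (nat_lit 4))
    (@En.n l18476 (nat_lit 1119) (nat_lit 14) (nat_lit 13))
    (@En.i (nat_lit 8246) (nat_lit 10) (nat_lit 10))
    (@En.n l3 (nat_lit 12422) (nat_lit 15) (nat_lit 2))))
  (@Cl.mk (nat_lit 0x300060003000c000c0009000c00040004000b0004000a0007000d0005000d) (nat_lit 0x5241002010a03) (nat_lit 16) Lb.e (@T16.mk En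
    (@En.n l16620 (nat_lit 1006) (nat_lit 0) (nat_lit 13))
    (@En.n l16621 (nat_lit 8762) (nat_lit 3) (nat_lit 5))
    (@En.n l816 (nat_lit 12420) (nat_lit 2) (nat_lit 13))
    (@En.n l16622 (nat_lit 11893) (nat_lit 3) (nat_lit 7))
    (@En.n l16623 (nat_lit 6406) (nat_lit 4) (nat_lit 10))
    (@En.n l16624 (nat_lit 11836) (nat_lit 5) (nat_lit 4))
    (@En.n l16625 (nat_lit 9681) (nat_lit 0) (nat_lit 11))
    (@En.n l16626 (nat_lit 12422) (nat_lit 12) (nat_lit 4))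
    (@En.n l1056 (nat_lit 12405) (nat_lit 8) (nat_lit 4))
    (@En.i (nat_lit 1066) (nat_lit 6) (nat_lit 12))
    (@En.n l16627 (nat_lit 10138) (nat_lit 11) (nat_lit 9))
    (@En.n l16628 (nat_lit 11908) (nat_lit 4) (nat_lit 12))
    (@En.n l16629 (nat_lit 9703) (nat_lit 13) (nat_lit 12))
    (@En.n l17 (nat_lit 12203) (nat_lit 15) (nat_lit 3))
    (@En.n l826 (nat_lit 11640) (nat_lit 12) (nat_lit 6))
    (@En.n l17 (nat_lit 12418) (nat_lit 15) (nat_lit 3))))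
  (@Cl.mk (nat_lit 0x3000b0004000b000b00090005000c00050005000b00040007000d000c0005) (nat_lit 0x903230200200b60) (nat_lit 16) Lb.e (@T16.mk En
    (@En.n l24571 (nat_lit 8948) (nat_lit 0) (nat_lit 5))
    (@En.n l644 (nat_lit 11892) (nat_lit 4) (nat_lit 12))
    (@En.n l6589 (nat_lit 12451) (nat_lit 2) (nat_lit 13))
    (@En.n l6590 (nat_lit 8980) (nat_lit 11) (nat_lit 7))
    (@En.i (nat_lit 11835) (nat_lit 4) (nat_lit 4))
    (@En.n l17555 (nat_lit 9984) (nat_lit 0) (nat_lit 11))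
    (@En.n l1900 (nat_lit 12425) (nat_lit 11) (nat_lit 5))
    (@En.n l6593 (nat_lit 9733) (nat_lit 7) (nat_lit 5))
    (@En.n l14969 (nat_lit 12418) (nat_lit 9) (nat_lit 12))
    (@En.n l34284 (nat_lit 12416) (nat_lit 9) (nat_lit 5))
    (@En.n l619 (nat_lit 9176) (nat_lit 11) (nat_lit 9))
    (@En.n l97 (nat_lit 11902) (nat_lit 5) (nat_lit 11))
    (@En.n l24571 (nat_lit 9706) (nat_lit 13) (nat_lit 11))
    (@En.n l14452 (nat_lit 12196) (nat_lit 14) (nat_lit 4))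
    (@En.n l4252 (nat_lit 12212) (nat_lit 0) (nat_lit 11))
    (@En.n l7 (nat_lit 11893) (nat_lit 15) (nat_lit 3))))
  (@Cl.mk (nat_lit 0x2000a0006000d0005000b00030006000d000c00050003000a0004000e000b) (nat_lit 0x5040800b8003084) (nat_lit 16) Lb.e (@T16.mk En
    (@En.n l1532 (nat_lit 12424) (nat_lit 12) (nat_lit 11))
    (@En.n l387 (nat_lit 11526) (nat_lit 1) (nat_lit 14))
    (@En.n l5694 (nat_lit 6379) (nat_lit 2) (nat_lit 4))
    (@En.n l3858 (nat_lit 11599) (nat_lit 3) (nat_lit 10))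
    (@En.n l7 (nat_lit 11894) (nat_lit 4) (nat_lit 3))
    (@En.n l4809 (nat_lit 8946) (nat_lit 5) (nat_lit 5))
    (@En.n l18476 (nat_lit 11895) (nat_lit 7) (nat_lit 12))
    (@En.n l617 (nat_lit 12485) (nat_lit 8) (nat_lit 13))
    (@En.i (nat_lit 9030) (nat_lit 12) (nat_lit 6))
    (@En.n l3621 (nat_lit 11160) (nat_lit 9) (nat_lit 3))
    (@En.n l20934 (nat_lit 8987) (nat_lit 0) (nat_lit 11))
    (@En.n l34076 (nat_lit 11849) (nat_lit 6) (nat_lit 5))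
    (@En.n l5549 (nat_lit 12419) (nat_lit 13) (nat_lit 13))
    (@En.i (nat_lit 12417) (nat_lit 14) (nat_lit 6))
    (@En.i (nat_lit 8243) (nat_lit 4) (nat_lit 10))
    (@En.n l3 (nat_lit 12425) (nat_lit 15) (nat_lit 2))))
  (@Cl.mk (nat_lit 0x2000a000d0004000b0003000b0006000c0005000d000500040003000e000c) (nat_lit 0x430109020100096) (nat_lit 16) Lb.e (@T16.mk En
    (@En.i (nat_lit 12203) (nat_lit 14) (nat_lit 12))
    (@En.i (nat_lit 12262) (nat_lit 1) (nat_lit 14))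
    (@En.n l14126 (nat_lit 12422) (nat_lit 2) (nat_lit 3))
    (@En.i (nat_lit 6372) (nat_lit 3) (nat_lit 4))
    (@En.i (nat_lit 12592) (nat_lit 4) (nat_lit 5))
    (@En.n l5856 (nat_lit 356) (nat_lit 6) (nat_lit 13))
    (@En.n l217 (nat_lit 8764) (nat_lit 6) (nat_lit 5))
    (@En.n l5856 (nat_lit 12647) (nat_lit 8) (nat_lit 12))
    (@En.i (nat_lit 11895) (nat_lit 8) (nat_lit 6))
    (@En.i (nat_lit 10528) (nat_lit 10) (nat_lit 11))
    (@En.i (nat_lit 11165) (nat_lit 10) (nat_lit 3))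
    (@En.i (nat_lit 2534) (nat_lit 0) (nat_lit 11))
    (@En.i (nat_lit 12408) (nat_lit 13) (nat_lit 4))
    (@En.i (nat_lit 1117) (nat_lit 5) (nat_lit 13))
    (@En.i (nat_lit 8244) (nat_lit 12) (nat_lit 10))
    (@En.n l3 (nat_lit 12426) (nat_lit 15) (nat_lit 2))))
  (@Cl.mk (nat_lit 0x40004000c0004000b000b0004000c000a000500050004000c000c0006000c) (nat_lit 0x80520160006703) (nat_lit 16) Lb.e (@T16.mk En
    (@En.i (nat_lit 306) (nat_lit 0) (nat_lit 12))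
    (@En.n l14121 (nat_lit 11301) (nat_lit 1) (nat_lit 6))
    (@En.n l28187 (nat_lit 12728) (nat_lit 4) (nat_lit 12))
    (@En.n l28188 (nat_lit 11177) (nat_lit 10) (nat_lit 12))
    (@En.n l817 (nat_lit 12420) (nat_lit 12) (nat_lit 4))
    (@En.n l601 (nat_lit 12645) (nat_lit 11) (nat_lit 5))
    (@En.n l77 (nat_lit 12203) (nat_lit 1) (nat_lit 5))
    (@En.n l28189 (nat_lit 12681) (nat_lit 0) (nat_lit 10))
    (@En.n l14152 (nat_lit 322) (nat_lit 1) (nat_lit 12))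
    (@En.n l217 (nat_lit 9289) (nat_lit 9) (nat_lit 4))
    (@En.n l397 (nat_lit 12659) (nat_lit 5) (nat_lit 11))
    (@En.n l28190 (nat_lit 10533) (nat_lit 1) (nat_lit 11))
    (@En.n l14123 (nat_lit 22) (nat_lit 7) (nat_lit 4))
    (@En.n l14121 (nat_lit 11123) (nat_lit 0) (nat_lit 12))
    (@En.n l152 (nat_lit 12651) (nat_lit 12) (nat_lit 4))
    (@En.n l18303 (nat_lit 11852) (nat_lit 0) (nat_lit 4))))
  (@Cl.mk (nat_lit 0x30006000a000d0008000c0003000800060004000c000a0008000d00040008) (nat_lit 0x29130500875306) (nat_lit 16) Lb.e (@T16.mk En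
    (@En.n l18442 (nat_lit 12206) (nat_lit 0) (nat_lit 8))
    (@En.n l31883 (nat_lit 11807) (nat_lit 7) (nat_lit 4))
    (@En.n l899 (nat_lit 12406) (nat_lit 0) (nat_lit 13))
    (@En.i (nat_lit 11797) (nat_lit 1) (nat_lit 8))
    (@En.n l10684 (nat_lit 10767) (nat_lit 4) (nat_lit 10))
    (@En.n l23098 (nat_lit 10509) (nat_lit 12) (nat_lit 12))
    (@En.n l10684 (nat_lit 12584) (nat_lit 6) (nat_lit 4))
    (@En.n l17 (nat_lit 11824) (nat_lit 14) (nat_lit 6))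
    (@En.i (nat_lit 11108) (nat_lit 1) (nat_lit 8))
    (@En.n l1992 (nat_lit 11825) (nat_lit 9) (nat_lit 3))
    (@En.n l2038 (nat_lit 4254) (nat_lit 0) (nat_lit 12))
    (@En.n l31884 (nat_lit 10416) (nat_lit 12) (nat_lit 8))
    (@En.n l31885 (nat_lit 12030) (nat_lit 5) (nat_lit 13))
    (@En.i (nat_lit 10892) (nat_lit 3) (nat_lit 10))
    (@En.n l9645 (nat_lit 11941) (nat_lit 12) (nat_lit 6))
    (@En.i (nat_lit 12429) (nat_lit 15) (nat_lit 3))))
  (@Cl.mk (nat_lit 0x30006000a000d0008000c0003000900060004000b000a0008000d00070005) (nat_lit 0x49110600435200) (nat_lit 16) Lb.e (@T16.mk En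
    (@En.n l29705 (nat_lit 12764) (nat_lit 0) (nat_lit 5))
    (@En.n l29706 (nat_lit 10425) (nat_lit 7) (nat_lit 7))
    (@En.n l29707 (nat_lit 12412) (nat_lit 9) (nat_lit 13))
    (@En.i (nat_lit 11828) (nat_lit 3) (nat_lit 8))
    (@En.n l3821 (nat_lit 10691) (nat_lit 4) (nat_lit 10))
    (@En.n l19384 (nat_lit 8794) (nat_lit 12) (nat_lit 11))
    (@En.n l29708 (nat_lit 12435) (nat_lit 6) (nat_lit 4))
    (@En.n l17 (nat_lit 12431) (nat_lit 14) (nat_lit 6))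
    (@En.i (nat_lit 10479) (nat_lit 1) (nat_lit 9))
    (@En.n l29709 (nat_lit 12430) (nat_lit 9) (nat_lit 3))
    (@En.n l29708 (nat_lit 1031) (nat_lit 0) (nat_lit 12))
    (@En.n l29710 (nat_lit 10415) (nat_lit 12) (nat_lit 8))
    (@En.n l29711 (nat_lit 12029) (nat_lit 5) (nat_lit 13))
    (@En.i (nat_lit 10895) (nat_lit 3) (nat_lit 10))
    (@En.n l29712 (nat_lit 11374) (nat_lit 12) (nat_lit 6))
    (@En.n l50 (nat_lit 12428) (nat_lit 15) (nat_lit 3))))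
  (@Cl.mk (nat_lit 0x30006000a000d000b00090003000900060005000b000a0007000d00070005) (nat_lit 0x3a850200430500) (nat_lit 16) Lb.e (@T16.mk En
    (@En.n l16370 (nat_lit 12735) (nat_lit 0) (nat_lit 5))
    (@En.n l16371 (nat_lit 10420) (nat_lit 7) (nat_lit 7))
    (@En.n l6733 (nat_lit 12434) (nat_lit 9) (nat_lit 13))
    (@En.n l31433 (nat_lit 10142) (nat_lit 3) (nat_lit 7))
    (@En.i (nat_lit 10766) (nat_lit 4) (nat_lit 10))
    (@En.n l16370 (nat_lit 8791) (nat_lit 12) (nat_lit 11))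
    (@En.n l644 (nat_lit 12436) (nat_lit 6) (nat_lit 5))
    (@En.n l22505 (nat_lit 12432) (nat_lit 14) (nat_lit 6))
    (@En.n l31403 (nat_lit 11779) (nat_lit 9) (nat_lit 9))
    (@En.n l31434 (nat_lit 12429) (nat_lit 9) (nat_lit 3))
    (@En.n l4233 (nat_lit 12793) (nat_lit 0) (nat_lit 9))
    (@En.n l16670 (nat_lit 9249) (nat_lit 12) (nat_lit 11))
    (@En.n l396 (nat_lit 12033) (nat_lit 5) (nat_lit 13))
    (@En.n l31435 (nat_lit 12027) (nat_lit 3) (nat_lit 10))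
    (@En.n l16372 (nat_lit 11376) (nat_lit 12) (nat_lit 6))
    (@En.n l31436 (nat_lit 11825) (nat_lit 15) (nat_lit 3))))
  (@Cl.mk (nat_lit 0x300060003000b000a0007000d000b000500030006000a0005000d0009000d) (nat_lit 0x3102600080a28) (nat_lit 16) Lb.e (@T16.mk En
    (@En.n l2038 (nat_lit 4261) (nat_lit 0) (nat_lit 13))
    (@En.i (nat_lit 11820) (nat_lit 11) (nat_lit 9))
    (@En.i (nat_lit 12429) (nat_lit 12) (nat_lit 13))
    (@En.n l3819 (nat_lit 11842) (nat_lit 3) (nat_lit 5))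
    (@En.i (nat_lit 10256) (nat_lit 4) (nat_lit 10))
    (@En.n l9646 (nat_lit 11377) (nat_lit 12) (nat_lit 6))
    (@En.n l50 (nat_lit 11824) (nat_lit 6) (nat_lit 3))
    (@En.n l3199 (nat_lit 11909) (nat_lit 0) (nat_lit 5))
    (@En.n l10625 (nat_lit 12456) (nat_lit 9) (nat_lit 11))
    (@En.n l3819 (nat_lit 12405) (nat_lit 10) (nat_lit 13))
    (@En.i (nat_lit 11827) (nat_lit 3) (nat_lit 7))
    (@En.i (nat_lit 16) (nat_lit 4) (nat_lit 10))
    (@En.i (nat_lit 9691) (nat_lit 13) (nat_lit 11))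
    (@En.n l16433 (nat_lit 12433) (nat_lit 6) (nat_lit 3))
    (@En.i (nat_lit 8050) (nat_lit 12) (nat_lit 6))
    (@En.n l16534 (nat_lit 12432) (nat_lit 15) (nat_lit 3))))
noncomputable def a777 : T16 Cl := @T16.mk Cl
  (@Cl.mk (nat_lit 0x300060004000b000a0006000d000b000500030006000a0005000d000c000a) (nat_lit 0x3402600030b96) (nat_lit 16) Lb.e (@T16.mk En
    (@En.n l27765 (nat_lit 12792) (nat_lit 0) (nat_lit 10))
    (@En.n l31782 (nat_lit 12433) (nat_lit 11) (nat_lit 12))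
    (@En.n l31783 (nat_lit 12430) (nat_lit 12) (nat_lit 13))
    (@En.n l776 (nat_lit 9734) (nat_lit 3) (nat_lit 5))
    (@En.n l31784 (nat_lit 12028) (nat_lit 4) (nat_lit 10))
    (@En.n l1897 (nat_lit 11751) (nat_lit 12) (nat_lit 6))
    (@En.n l31785 (nat_lit 11823) (nat_lit 6) (nat_lit 3))
    (@En.n l31786 (nat_lit 12733) (nat_lit 0) (nat_lit 5))
    (@En.n l19609 (nat_lit 12457) (nat_lit 9) (nat_lit 11))
    (@En.n l14036 (nat_lit 12410) (nat_lit 10) (nat_lit 13))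
    (@En.n l30873 (nat_lit 10145) (nat_lit 3) (nat_lit 6))
    (@En.n l31787 (nat_lit 10768) (nat_lit 4) (nat_lit 10))
    (@En.n l16718 (nat_lit 8793) (nat_lit 13) (nat_lit 11))
    (@En.n l31788 (nat_lit 12440) (nat_lit 6) (nat_lit 4))
    (@En.n l31789 (nat_lit 12666) (nat_lit 12) (nat_lit 6))
    (@En.n l16901 (nat_lit 12431) (nat_lit 15) (nat_lit 3))))
  (@Cl.mk (nat_lit 0x30006000b0005000c0009000d000500040003000b000a0007000d000b0005) (nat_lit 0x40828000560270) (nat_lit 16) Lb.e (@T16.mk En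
    (@En.n l5877 (nat_lit 12731) (nat_lit 0) (nat_lit 5))
    (@En.n l15521 (nat_lit 12458) (nat_lit 11) (nat_lit 11))
    (@En.n l22192 (nat_lit 12409) (nat_lit 2) (nat_lit 13))
    (@En.n l18291 (nat_lit 11829) (nat_lit 3) (nat_lit 7))
    (@En.n l28662 (nat_lit 10775) (nat_lit 4) (nat_lit 10))
    (@En.n l28663 (nat_lit 9697) (nat_lit 6) (nat_lit 11))
    (@En.n l17517 (nat_lit 12431) (nat_lit 13) (nat_lit 3))
    (@En.n l28664 (nat_lit 12714) (nat_lit 0) (nat_lit 4))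
    (@En.n l28665 (nat_lit 39) (nat_lit 0) (nat_lit 5))
    (@En.i (nat_lit 4263) (nat_lit 1) (nat_lit 13))
    (@En.n l28666 (nat_lit 11818) (nat_lit 11) (nat_lit 9))
    (@En.n l5875 (nat_lit 12435) (nat_lit 12) (nat_lit 12))
    (@En.n l14384 (nat_lit 11843) (nat_lit 5) (nat_lit 5))
    (@En.n l17517 (nat_lit 10473) (nat_lit 14) (nat_lit 11))
    (@En.n l28667 (nat_lit 11707) (nat_lit 12) (nat_lit 6))
    (@En.n l28 (nat_lit 11822) (nat_lit 15) (nat_lit 3))))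
  (@Cl.mk (nat_lit 0x3000a00060005000c000a000d000600040003000b0006000a000d000b0005) (nat_lit 0x600434000404a90) (nat_lit 16) Lb.e (@T16.mk En
    (@En.n l16727 (nat_lit 8906) (nat_lit 0) (nat_lit 5))
    (@En.n l9855 (nat_lit 11852) (nat_lit 11) (nat_lit 11))
    (@En.n l16728 (nat_lit 12498) (nat_lit 5) (nat_lit 13))
    (@En.i (nat_lit 10148) (nat_lit 3) (nat_lit 10))
    (@En.n l16729 (nat_lit 12430) (nat_lit 14) (nat_lit 6))
    (@En.n l16730 (nat_lit 10813) (nat_lit 6) (nat_lit 11))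
    (@En.n l50 (nat_lit 12413) (nat_lit 13) (nat_lit 3))
    (@En.n l16728 (nat_lit 12734) (nat_lit 0) (nat_lit 4))
    (@En.n l16730 (nat_lit 11820) (nat_lit 0) (nat_lit 6))
    (@En.n l16731 (nat_lit 7337) (nat_lit 5) (nat_lit 13))
    (@En.n l16732 (nat_lit 10764) (nat_lit 3) (nat_lit 10))
    (@En.n l16733 (nat_lit 8790) (nat_lit 12) (nat_lit 12))
    (@En.n l16734 (nat_lit 10774) (nat_lit 11) (nat_lit 5))
    (@En.n l17 (nat_lit 12410) (nat_lit 14) (nat_lit 6))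
    (@En.n l9855 (nat_lit 11780) (nat_lit 8) (nat_lit 10))
    (@En.n l16735 (nat_lit 12412) (nat_lit 15) (nat_lit 3))))
  (@Cl.mk (nat_lit 0x30006000c000c0008000c00040004000a0004000b000a0008000d00060005) (nat_lit 0x77360040224300) (nat_lit 16) Lb.e (@T16.mk En
    (@En.n l1927 (nat_lit 12659) (nat_lit 0) (nat_lit 5))
    (@En.n l217 (nat_lit 9730) (nat_lit 7) (nat_lit 6))
    (@En.n l35658 (nat_lit 12583) (nat_lit 2) (nat_lit 13))
    (@En.n l35659 (nat_lit 11809) (nat_lit 3) (nat_lit 8))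
    (@En.n l61 (nat_lit 12423) (nat_lit 4) (nat_lit 10))
    (@En.n l35660 (nat_lit 12196) (nat_lit 12) (nat_lit 11))
    (@En.i (nat_lit 9249) (nat_lit 6) (nat_lit 4))
    (@En.n l476 (nat_lit 10477) (nat_lit 0) (nat_lit 10))
    (@En.n l152 (nat_lit 12592) (nat_lit 12) (nat_lit 4))
    (@En.n l17700 (nat_lit 10689) (nat_lit 9) (nat_lit 4))
    (@En.i (nat_lit 4277) (nat_lit 0) (nat_lit 12))
    (@En.n l35661 (nat_lit 10421) (nat_lit 12) (nat_lit 8))
    (@En.n l35662 (nat_lit 12048) (nat_lit 4) (nat_lit 12))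
    (@En.n l35663 (nat_lit 10637) (nat_lit 14) (nat_lit 12))
    (@En.n l13301 (nat_lit 11634) (nat_lit 12) (nat_lit 6))
    (@En.i (nat_lit 12584) (nat_lit 15) (nat_lit 3))))
  (@Cl.mk (nat_lit 0x30006000d000c000b0003000a0004000a0005000b000a0006000d00060005) (nat_lit 0x48805040320500) (nat_lit 16) Lb.e (@T16.mk En
    (@En.n l31444 (nat_lit 12043) (nat_lit 0) (nat_lit 5))
    (@En.n l31445 (nat_lit 9734) (nat_lit 6) (nat_lit 6))
    (@En.n l6740 (nat_lit 10774) (nat_lit 8) (nat_lit 13))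
    (@En.n l31446 (nat_lit 10773) (nat_lit 8) (nat_lit 6))
    (@En.i (nat_lit 12404) (nat_lit 4) (nat_lit 10))
    (@En.n l2257 (nat_lit 12424) (nat_lit 11) (nat_lit 11))
    (@En.n l2642 (nat_lit 12441) (nat_lit 6) (nat_lit 5))
    (@En.n l31408 (nat_lit 11880) (nat_lit 13) (nat_lit 10))
    (@En.n l31447 (nat_lit 12435) (nat_lit 8) (nat_lit 4))
    (@En.n l31448 (nat_lit 10369) (nat_lit 10) (nat_lit 10))
    (@En.n l50 (nat_lit 12437) (nat_lit 10) (nat_lit 3))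
    (@En.n l16670 (nat_lit 12638) (nat_lit 0) (nat_lit 11))
    (@En.n l3480 (nat_lit 10689) (nat_lit 13) (nat_lit 12))
    (@En.n l31449 (nat_lit 12452) (nat_lit 2) (nat_lit 13))
    (@En.n l16372 (nat_lit 8058) (nat_lit 12) (nat_lit 6))
    (@En.n l31450 (nat_lit 10770) (nat_lit 15) (nat_lit 3))))
  (@Cl.mk (nat_lit 0x30006000d000a000d0003000a0003000a0006000b000a0006000d00060005) (nat_lit 0x44203030320500) (nat_lit 16) Lb.e (@T16.mk En
    (@En.n l1228 (nat_lit 12040) (nat_lit 0) (nat_lit 5))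
    (@En.n l16371 (nat_lit 11842) (nat_lit 6) (nat_lit 6))
    (@En.i (nat_lit 10775) (nat_lit 8) (nat_lit 13))
    (@En.n l1228 (nat_lit 10772) (nat_lit 8) (nat_lit 6))
    (@En.i (nat_lit 12401) (nat_lit 4) (nat_lit 10))
    (@En.n l2257 (nat_lit 11893) (nat_lit 11) (nat_lit 11))
    (@En.n l2642 (nat_lit 12439) (nat_lit 14) (nat_lit 6))
    (@En.i (nat_lit 11881) (nat_lit 13) (nat_lit 10))
    (@En.n l6081 (nat_lit 10689) (nat_lit 8) (nat_lit 3))
    (@En.i (nat_lit 11674) (nat_lit 0) (nat_lit 10))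
    (@En.i (nat_lit 12436) (nat_lit 10) (nat_lit 3))
    (@En.i (nat_lit 1593) (nat_lit 0) (nat_lit 13))
    (@En.i (nat_lit 12430) (nat_lit 13) (nat_lit 10))
    (@En.n l12233 (nat_lit 12453) (nat_lit 2) (nat_lit 13))
    (@En.n l16372 (nat_lit 8052) (nat_lit 12) (nat_lit 6))
    (@En.n l1080 (nat_lit 10690) (nat_lit 15) (nat_lit 3))))
  (@Cl.mk (nat_lit 0x30006000c000a000d00090004000300090006000c000a0007000d00040007) (nat_lit 0x23240050950200) (nat_lit 16) Lb.e (@T16.mk En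
    (@En.n l6140 (nat_lit 8108) (nat_lit 0) (nat_lit 7))
    (@En.n l4172 (nat_lit 12708) (nat_lit 8) (nat_lit 4))
    (@En.n l16753 (nat_lit 10775) (nat_lit 0) (nat_lit 13))
    (@En.n l16754 (nat_lit 11836) (nat_lit 1) (nat_lit 7))
    (@En.n l16755 (nat_lit 12410) (nat_lit 4) (nat_lit 10))
    (@En.n l16755 (nat_lit 12596) (nat_lit 13) (nat_lit 12))
    (@En.n l16756 (nat_lit 12439) (nat_lit 6) (nat_lit 6))
    (@En.n l3517 (nat_lit 11095) (nat_lit 5) (nat_lit 9))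
    (@En.n l16757 (nat_lit 10690) (nat_lit 8) (nat_lit 3))
    (@En.n l1865 (nat_lit 12046) (nat_lit 0) (nat_lit 4))
    (@En.n l16758 (nat_lit 11791) (nat_lit 11) (nat_lit 9))
    (@En.n l16759 (nat_lit 1112) (nat_lit 5) (nat_lit 13))
    (@En.n l16760 (nat_lit 12428) (nat_lit 13) (nat_lit 10))
    (@En.n l3523 (nat_lit 9678) (nat_lit 14) (nat_lit 12))
    (@En.n l16755 (nat_lit 12320) (nat_lit 12) (nat_lit 6))
    (@En.n l16761 (nat_lit 10689) (nat_lit 15) (nat_lit 3))))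
  (@Cl.mk (nat_lit 0x30006000b000a0005000d000a000500030006000c000a0006000d0004000b) (nat_lit 0x24035000940306) (nat_lit 16) Lb.e (@T16.mk En
    (@En.n l31437 (nat_lit 11677) (nat_lit 0) (nat_lit 11))
    (@En.i (nat_lit 12441) (nat_lit 9) (nat_lit 4))
    (@En.n l899 (nat_lit 12437) (nat_lit 11) (nat_lit 13))
    (@En.n l12743 (nat_lit 11834) (nat_lit 3) (nat_lit 6))
    (@En.n l31438 (nat_lit 12432) (nat_lit 4) (nat_lit 10))
    (@En.n l31439 (nat_lit 12454) (nat_lit 14) (nat_lit 12))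
    (@En.n l11 (nat_lit 8055) (nat_lit 12) (nat_lit 6))
    (@En.n l31440 (nat_lit 43) (nat_lit 7) (nat_lit 3))
    (@En.n l31441 (nat_lit 12039) (nat_lit 0) (nat_lit 5))
    (@En.n l31442 (nat_lit 11793) (nat_lit 10) (nat_lit 10))
    (@En.n l10684 (nat_lit 12438) (nat_lit 11) (nat_lit 13))
    (@En.n l31443 (nat_lit 12596) (nat_lit 3) (nat_lit 5))
    (@En.i (nat_lit 11824) (nat_lit 4) (nat_lit 10))
    (@En.n l10969 (nat_lit 9680) (nat_lit 14) (nat_lit 11))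
    (@En.n l29211 (nat_lit 12653) (nat_lit 12) (nat_lit 6))
    (@En.i (nat_lit 39) (nat_lit 7) (nat_lit 3))))
  (@Cl.mk (nat_lit 0x30006000c0005000c000c0004000b00040004000b000a0005000d000b0005) (nat_lit 0x809a0300240330) (nat_lit 16) Lb.e (@T16.mk En
    (@En.n l32575 (nat_lit 5676) (nat_lit 0) (nat_lit 5))
    (@En.n l18216 (nat_lit 12459) (nat_lit 10) (nat_lit 11))
    (@En.n l32576 (nat_lit 12707) (nat_lit 2) (nat_lit 13))
    (@En.n l26714 (nat_lit 12711) (nat_lit 3) (nat_lit 5))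
    (@En.n l40660 (nat_lit 12582) (nat_lit 4) (nat_lit 10))
    (@En.n l28266 (nat_lit 9674) (nat_lit 6) (nat_lit 11))
    (@En.n l40661 (nat_lit 12697) (nat_lit 12) (nat_lit 4))
    (@En.n l14823 (nat_lit 12433) (nat_lit 7) (nat_lit 4))
    (@En.i (nat_lit 5654) (nat_lit 0) (nat_lit 11))
    (@En.n l40660 (nat_lit 12439) (nat_lit 1) (nat_lit 4))
    (@En.n l32579 (nat_lit 12714) (nat_lit 4) (nat_lit 12))
    (@En.n l35391 (nat_lit 12436) (nat_lit 12) (nat_lit 12))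
    (@En.n l1131 (nat_lit 9730) (nat_lit 4) (nat_lit 5))
    (@En.n l9413 (nat_lit 9218) (nat_lit 14) (nat_lit 12))
    (@En.n l40662 (nat_lit 12256) (nat_lit 12) (nat_lit 6))
    (@En.n l18 (nat_lit 12694) (nat_lit 15) (nat_lit 3))))
  (@Cl.mk (nat_lit 0x30006000c000b000b00070004000b00050005000b000a0005000d00090005) (nat_lit 0xa1600700940860) (nat_lit 16) Lb.e (@T16.mk En
    (@En.n l27522 (nat_lit 12725) (nat_lit 0) (nat_lit 5))
    (@En.n l27523 (nat_lit 10285) (nat_lit 0) (nat_lit 9))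
    (@En.n l27524 (nat_lit 12708) (nat_lit 2) (nat_lit 13))
    (@En.n l27525 (nat_lit 5861) (nat_lit 3) (nat_lit 5))
    (@En.i (nat_lit 11808) (nat_lit 4) (nat_lit 10))
    (@En.i (nat_lit 11120) (nat_lit 6) (nat_lit 11))
    (@En.n l27526 (nat_lit 12703) (nat_lit 11) (nat_lit 5))
    (@En.n l27527 (nat_lit 9249) (nat_lit 7) (nat_lit 5))
    (@En.n l20348 (nat_lit 11210) (nat_lit 9) (nat_lit 11))
    (@En.n l27528 (nat_lit 12440) (nat_lit 9) (nat_lit 4))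
    (@En.n l12743 (nat_lit 11835) (nat_lit 0) (nat_lit 7))
    (@En.n l27529 (nat_lit 12679) (nat_lit 5) (nat_lit 11))
    (@En.n l27530 (nat_lit 39) (nat_lit 5) (nat_lit 11))
    (@En.n l27531 (nat_lit 12455) (nat_lit 14) (nat_lit 12))
    (@En.n l27532 (nat_lit 12257) (nat_lit 12) (nat_lit 6))
    (@En.n l27533 (nat_lit 12687) (nat_lit 15) (nat_lit 3))))
  (@Cl.mk (nat_lit 0x3000c000b0007000b0004000b000500090005000c00050009000d00040007) (nat_lit 0x350506040703200) (nat_lit 16) Lb.e (@T16.mk En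
    (@En.n l1897 (nat_lit 11000) (nat_lit 11) (nat_lit 7))
    (@En.n l2753 (nat_lit 10814) (nat_lit 15) (nat_lit 4))
    (@En.n l3057 (nat_lit 12404) (nat_lit 0) (nat_lit 13))
    (@En.n l38021 (nat_lit 12431) (nat_lit 1) (nat_lit 9))
    (@En.n l1075 (nat_lit 9818) (nat_lit 4) (nat_lit 5))
    (@En.n l28501 (nat_lit 12443) (nat_lit 0) (nat_lit 12))
    (@En.n l2364 (nat_lit 11845) (nat_lit 6) (nat_lit 5))
    (@En.n l9943 (nat_lit 9791) (nat_lit 10) (nat_lit 9))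
    (@En.i (nat_lit 11705) (nat_lit 8) (nat_lit 5))
    (@En.n l42722 (nat_lit 10577) (nat_lit 10) (nat_lit 11))
    (@En.i (nat_lit 9678) (nat_lit 10) (nat_lit 4))
    (@En.i (nat_lit 8851) (nat_lit 0) (nat_lit 11))
    (@En.n l27807 (nat_lit 10627) (nat_lit 1) (nat_lit 7))
    (@En.n l396 (nat_lit 10762) (nat_lit 5) (nat_lit 11))
    (@En.i (nat_lit 9695) (nat_lit 13) (nat_lit 12))
    (@En.n l36852 (nat_lit 10637) (nat_lit 15) (nat_lit 3))))
  (@Cl.mk (nat_lit 0x40008000c0004000a00070004000c000b000800060004000c00050009000c) (nat_lit 0x220200464004036) (nat_lit 16) Lb.e (@T16.mk En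
    (@En.i (nat_lit 12794) (nat_lit 6) (nat_lit 12))
    (@En.n l41038 (nat_lit 9794) (nat_lit 1) (nat_lit 9))
    (@En.n l33007 (nat_lit 11344) (nat_lit 5) (nat_lit 5))
    (@En.n l10577 (nat_lit 10575) (nat_lit 10) (nat_lit 12))
    (@En.n l13562 (nat_lit 9675) (nat_lit 4) (nat_lit 4))
    (@En.i (nat_lit 10157) (nat_lit 0) (nat_lit 6))
    (@En.n l41039 (nat_lit 10631) (nat_lit 1) (nat_lit 8))
    (@En.n l41040 (nat_lit 10763) (nat_lit 5) (nat_lit 11))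
    (@En.n l28304 (nat_lit 8799) (nat_lit 9) (nat_lit 12))
    (@En.n l17074 (nat_lit 12361) (nat_lit 9) (nat_lit 4))
    (@En.n l41041 (nat_lit 12442) (nat_lit 0) (nat_lit 7))
    (@En.n l31667 (nat_lit 11987) (nat_lit 1) (nat_lit 10))
    (@En.n l40449 (nat_lit 10813) (nat_lit 15) (nat_lit 4))
    (@En.n l2863 (nat_lit 12411) (nat_lit 7) (nat_lit 12))
    (@En.n l41042 (nat_lit 12429) (nat_lit 11) (nat_lit 8))
    (@En.n l41043 (nat_lit 9816) (nat_lit 15) (nat_lit 4))))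
  (@Cl.mk (nat_lit 0x3000b000b00050009000c00050005000c0004000b00070004000d000b0005) (nat_lit 0x430540030500180) (nat_lit 16) Lb.e (@T16.mk En
    (@En.n l2180 (nat_lit 10127) (nat_lit 0) (nat_lit 5))
    (@En.n l28120 (nat_lit 11875) (nat_lit 5) (nat_lit 11))
    (@En.n l28121 (nat_lit 373) (nat_lit 2) (nat_lit 13))
    (@En.n l28122 (nat_lit 12451) (nat_lit 3) (nat_lit 4))
    (@En.n l28123 (nat_lit 12445) (nat_lit 4) (nat_lit 7))
    (@En.n l28124 (nat_lit 9985) (nat_lit 1) (nat_lit 11))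
    (@En.n l28070 (nat_lit 12345) (nat_lit 6) (nat_lit 4))
    (@En.n l28125 (nat_lit 10764) (nat_lit 0) (nat_lit 12))
    (@En.n l15252 (nat_lit 12350) (nat_lit 11) (nat_lit 5))
    (@En.n l28126 (nat_lit 10475) (nat_lit 9) (nat_lit 5))
    (@En.n l2180 (nat_lit 12645) (nat_lit 6) (nat_lit 12))
    (@En.n l28127 (nat_lit 12423) (nat_lit 10) (nat_lit 9))
    (@En.n l28128 (nat_lit 12443) (nat_lit 2) (nat_lit 5))
    (@En.n l28129 (nat_lit 12634) (nat_lit 5) (nat_lit 11))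
    (@En.n l28130 (nat_lit 11776) (nat_lit 11) (nat_lit 11))
    (@En.n l9072 (nat_lit 12446) (nat_lit 15) (nat_lit 3))))
  (@Cl.mk (nat_lit 0x3000a000a000500090006000c00060006000d000400070003000d000b000a) (nat_lit 0x430405002000176) (nat_lit 16) Lb.e (@T16.mk En
    (@En.n l6444 (nat_lit 11710) (nat_lit 0) (nat_lit 10))
    (@En.n l396 (nat_lit 11874) (nat_lit 14) (nat_lit 11))
    (@En.i (nat_lit 977) (nat_lit 2) (nat_lit 13))
    (@En.i (nat_lit 12452) (nat_lit 3) (nat_lit 3))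
    (@En.n l649 (nat_lit 11351) (nat_lit 11) (nat_lit 7))
    (@En.i (nat_lit 12344) (nat_lit 5) (nat_lit 4))
    (@En.n l17557 (nat_lit 10766) (nat_lit 0) (nat_lit 13))
    (@En.n l1900 (nat_lit 12351) (nat_lit 10) (nat_lit 6))
    (@En.n l26279 (nat_lit 12054) (nat_lit 8) (nat_lit 6))
    (@En.n l12306 (nat_lit 12444) (nat_lit 10) (nat_lit 12))
    (@En.n l2364 (nat_lit 12450) (nat_lit 6) (nat_lit 6))
    (@En.n l20880 (nat_lit 11893) (nat_lit 10) (nat_lit 9))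
    (@En.i (nat_lit 12442) (nat_lit 8) (nat_lit 5))
    (@En.n l1867 (nat_lit 12326) (nat_lit 6) (nat_lit 10))
    (@En.n l13489 (nat_lit 11772) (nat_lit 11) (nat_lit 10))
    (@En.n l20880 (nat_lit 12447) (nat_lit 15) (nat_lit 3))))
  (@Cl.mk (nat_lit 0x3000b000b00040009000c00050005000c0004000c00070004000d0004000c) (nat_lit 0x54064001040010a) (nat_lit 16) Lb.e (@T16.mk En
    (@En.n l77 (nat_lit 1267) (nat_lit 0) (nat_lit 12))
    (@En.i (nat_lit 12361) (nat_lit 4) (nat_lit 4))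
    (@En.n l1998 (nat_lit 369) (nat_lit 2) (nat_lit 13))
    (@En.n l14823 (nat_lit 12449) (nat_lit 3) (nat_lit 4))
    (@En.n l36823 (nat_lit 12447) (nat_lit 4) (nat_lit 7))
    (@En.n l36824 (nat_lit 12692) (nat_lit 1) (nat_lit 12))
    (@En.n l9939 (nat_lit 11123) (nat_lit 6) (nat_lit 4))
    (@En.n l2876 (nat_lit 34) (nat_lit 0) (nat_lit 12))
    (@En.n l152 (nat_lit 12353) (nat_lit 11) (nat_lit 5))
    (@En.n l36825 (nat_lit 10474) (nat_lit 9) (nat_lit 5))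
    (@En.i (nat_lit 12647) (nat_lit 6) (nat_lit 12))
    (@En.n l601 (nat_lit 12203) (nat_lit 12) (nat_lit 9))
    (@En.n l1643 (nat_lit 9675) (nat_lit 2) (nat_lit 4))
    (@En.n l14824 (nat_lit 12637) (nat_lit 5) (nat_lit 11))
    (@En.n l36826 (nat_lit 10647) (nat_lit 1) (nat_lit 11))
    (@En.n l34480 (nat_lit 12444) (nat_lit 15) (nat_lit 3))))
  (@Cl.mk (nat_lit 0x3000a000a000400090007000c00060006000d000400070003000d0009000c) (nat_lit 0x350605003000122) (nat_lit 16) Lb.e (@T16.mk En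
    (@En.n l20780 (nat_lit 1329) (nat_lit 0) (nat_lit 12))
    (@En.n l20781 (nat_lit 11925) (nat_lit 14) (nat_lit 9))
    (@En.n l20782 (nat_lit 371) (nat_lit 2) (nat_lit 13))
    (@En.n l20783 (nat_lit 12453) (nat_lit 3) (nat_lit 3))
    (@En.n l6590 (nat_lit 10789) (nat_lit 11) (nat_lit 7))
    (@En.n l20784 (nat_lit 11121) (nat_lit 5) (nat_lit 4))
    (@En.n l17645 (nat_lit 10691) (nat_lit 0) (nat_lit 13))
    (@En.n l20785 (nat_lit 12352) (nat_lit 10) (nat_lit 6))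
    (@En.n l20786 (nat_lit 12052) (nat_lit 8) (nat_lit 6))
    (@En.n l20787 (nat_lit 12446) (nat_lit 10) (nat_lit 12))
    (@En.n l6166 (nat_lit 12448) (nat_lit 6) (nat_lit 7))
    (@En.i (nat_lit 11892) (nat_lit 12) (nat_lit 9))
    (@En.n l6589 (nat_lit 9678) (nat_lit 8) (nat_lit 4))
    (@En.n l20788 (nat_lit 12323) (nat_lit 6) (nat_lit 10))
    (@En.n l8748 (nat_lit 10648) (nat_lit 11) (nat_lit 10))
    (@En.n l20789 (nat_lit 12445) (nat_lit 15) (nat_lit 3))))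
noncomputable def a778 : T16 Cl := @T16.mk Cl
  (@Cl.mk (nat_lit 0x3000c00090004000c0004000b000b00040007000c00050005000d0004000c) (nat_lit 0xa20304500100404) (nat_lit 16) Lb.e (@T16.mk En
    (@En.n l36827 (nat_lit 9225) (nat_lit 0) (nat_lit 12))
    (@En.n l8785 (nat_lit 11122) (nat_lit 9) (nat_lit 4))
    (@En.n l5601 (nat_lit 10771) (nat_lit 2) (nat_lit 13))
    (@En.n l36828 (nat_lit 12356) (nat_lit 11) (nat_lit 5))
    (@En.n l14440 (nat_lit 11866) (nat_lit 4) (nat_lit 5))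
    (@En.n l7910 (nat_lit 66) (nat_lit 0) (nat_lit 12))
    (@En.i (nat_lit 12659) (nat_lit 11) (nat_lit 7))
    (@En.n l34302 (nat_lit 9680) (nat_lit 7) (nat_lit 4))
    (@En.n l36829 (nat_lit 12661) (nat_lit 5) (nat_lit 11))
    (@En.n l8413 (nat_lit 10646) (nat_lit 10) (nat_lit 11))
    (@En.n l36830 (nat_lit 12450) (nat_lit 10) (nat_lit 4))
    (@En.n l20792 (nat_lit 12447) (nat_lit 0) (nat_lit 12))
    (@En.n l26191 (nat_lit 12446) (nat_lit 1) (nat_lit 4))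
    (@En.n l34304 (nat_lit 11920) (nat_lit 14) (nat_lit 9))
    (@En.n l20793 (nat_lit 367) (nat_lit 1) (nat_lit 12))
    (@En.n l7910 (nat_lit 12454) (nat_lit 15) (nat_lit 3))))
  (@Cl.mk (nat_lit 0x3000b000b0004000b000b00050005000c00050005000d0004000d0003000c) (nat_lit 0x890120040030902) (nat_lit 16) Lb.e (@T16.mk En
    (@En.i (nat_lit 994) (nat_lit 0) (nat_lit 12))
    (@En.i (nat_lit 9218) (nat_lit 15) (nat_lit 3))
    (@En.n l13488 (nat_lit 5902) (nat_lit 0) (nat_lit 13))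
    (@En.i (nat_lit 12112) (nat_lit 3) (nat_lit 4))
    (@En.n l3057 (nat_lit 12712) (nat_lit 2) (nat_lit 13))
    (@En.n l1900 (nat_lit 12484) (nat_lit 11) (nat_lit 5))
    (@En.n l15602 (nat_lit 12058) (nat_lit 6) (nat_lit 5))
    (@En.n l12306 (nat_lit 12420) (nat_lit 8) (nat_lit 12))
    (@En.n l29169 (nat_lit 12748) (nat_lit 11) (nat_lit 5))
    (@En.n l22492 (nat_lit 10471) (nat_lit 7) (nat_lit 5))
    (@En.n l13491 (nat_lit 12766) (nat_lit 5) (nat_lit 11))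
    (@En.n l13489 (nat_lit 8542) (nat_lit 10) (nat_lit 11))
    (@En.n l36845 (nat_lit 12448) (nat_lit 10) (nat_lit 4))
    (@En.n l61 (nat_lit 12488) (nat_lit 5) (nat_lit 11))
    (@En.i (nat_lit 12445) (nat_lit 1) (nat_lit 11))
    (@En.i (nat_lit 12451) (nat_lit 15) (nat_lit 3))))
  (@Cl.mk (nat_lit 0x3000c000a000a00050004000b000b00060006000c00050005000d0004000b) (nat_lit 0x274004300400805) (nat_lit 16) Lb.e (@T16.mk En
    (@En.n l25903 (nat_lit 9224) (nat_lit 0) (nat_lit 11))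
    (@En.i (nat_lit 10283) (nat_lit 6) (nat_lit 4))
    (@En.n l17693 (nat_lit 12690) (nat_lit 2) (nat_lit 13))
    (@En.n l14968 (nat_lit 12494) (nat_lit 11) (nat_lit 5))
    (@En.n l28738 (nat_lit 10925) (nat_lit 4) (nat_lit 5))
    (@En.n l14969 (nat_lit 12427) (nat_lit 0) (nat_lit 12))
    (@En.n l14970 (nat_lit 12749) (nat_lit 10) (nat_lit 6))
    (@En.i (nat_lit 11845) (nat_lit 7) (nat_lit 6))
    (@En.n l97 (nat_lit 12769) (nat_lit 5) (nat_lit 11))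
    (@En.n l14971 (nat_lit 10852) (nat_lit 10) (nat_lit 11))
    (@En.n l50 (nat_lit 12449) (nat_lit 12) (nat_lit 4))
    (@En.n l28739 (nat_lit 12444) (nat_lit 0) (nat_lit 5))
    (@En.n l61 (nat_lit 12491) (nat_lit 6) (nat_lit 10))
    (@En.n l217 (nat_lit 11876) (nat_lit 14) (nat_lit 10))
    (@En.i (nat_lit 625) (nat_lit 2) (nat_lit 12))
    (@En.i (nat_lit 12455) (nat_lit 15) (nat_lit 3))))
  (@Cl.mk (nat_lit 0x3000b000b0005000b000b00050005000c00050005000c0004000d000b0004) (nat_lit 0x890120030020a60) (nat_lit 16) Lb.e (@T16.mk En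
    (@En.n l24567 (nat_lit 8949) (nat_lit 0) (nat_lit 4))
    (@En.n l644 (nat_lit 12450) (nat_lit 0) (nat_lit 11))
    (@En.n l34282 (nat_lit 5901) (nat_lit 1) (nat_lit 13))
    (@En.i (nat_lit 12111) (nat_lit 3) (nat_lit 4))
    (@En.n l34283 (nat_lit 9986) (nat_lit 0) (nat_lit 12))
    (@En.n l1900 (nat_lit 12485) (nat_lit 11) (nat_lit 5))
    (@En.n l15602 (nat_lit 12062) (nat_lit 6) (nat_lit 5))
    (@En.n l34284 (nat_lit 12416) (nat_lit 8) (nat_lit 12))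
    (@En.n l34285 (nat_lit 12756) (nat_lit 11) (nat_lit 5))
    (@En.n l22492 (nat_lit 10472) (nat_lit 9) (nat_lit 5))
    (@En.n l18432 (nat_lit 12768) (nat_lit 5) (nat_lit 11))
    (@En.n l24567 (nat_lit 8546) (nat_lit 12) (nat_lit 11))
    (@En.n l34284 (nat_lit 12361) (nat_lit 2) (nat_lit 5))
    (@En.n l61 (nat_lit 12489) (nat_lit 5) (nat_lit 11))
    (@En.n l4252 (nat_lit 11777) (nat_lit 11) (nat_lit 11))
    (@En.n l7 (nat_lit 12449) (nat_lit 15) (nat_lit 3))))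
  (@Cl.mk (nat_lit 0x3000a000a0005000a0006000b00060006000d000600050003000d000b000a) (nat_lit 0x430303005000356) (nat_lit 16) Lb.e (@T16.mk En
    (@En.n l20876 (nat_lit 11709) (nat_lit 0) (nat_lit 10))
    (@En.n l36846 (nat_lit 11877) (nat_lit 14) (nat_lit 11))
    (@En.n l36847 (nat_lit 6551) (nat_lit 2) (nat_lit 13))
    (@En.n l28 (nat_lit 12445) (nat_lit 3) (nat_lit 3))
    (@En.n l36848 (nat_lit 12331) (nat_lit 0) (nat_lit 5))
    (@En.i (nat_lit 12061) (nat_lit 5) (nat_lit 6))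
    (@En.n l17557 (nat_lit 10773) (nat_lit 7) (nat_lit 13))
    (@En.n l1900 (nat_lit 12354) (nat_lit 10) (nat_lit 6))
    (@En.n l36849 (nat_lit 12056) (nat_lit 8) (nat_lit 6))
    (@En.n l36850 (nat_lit 12451) (nat_lit 10) (nat_lit 11))
    (@En.n l2364 (nat_lit 12455) (nat_lit 6) (nat_lit 6))
    (@En.n l36851 (nat_lit 11886) (nat_lit 12) (nat_lit 10))
    (@En.n l36852 (nat_lit 10637) (nat_lit 8) (nat_lit 5))
    (@En.n l36853 (nat_lit 12328) (nat_lit 6) (nat_lit 10))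
    (@En.n l13489 (nat_lit 11771) (nat_lit 11) (nat_lit 10))
    (@En.n l18112 (nat_lit 12453) (nat_lit 15) (nat_lit 3))))
  (@Cl.mk (nat_lit 0x3000a000a0004000a0007000b00060006000d000600050003000d0009000c) (nat_lit 0x340303003000322) (nat_lit 16) Lb.e (@T16.mk En
    (@En.n l1768 (nat_lit 1328) (nat_lit 0) (nat_lit 12))
    (@En.i (nat_lit 11926) (nat_lit 14) (nat_lit 9))
    (@En.n l13488 (nat_lit 2095) (nat_lit 2) (nat_lit 13))
    (@En.n l20846 (nat_lit 12447) (nat_lit 3) (nat_lit 3))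
    (@En.n l1900 (nat_lit 12336) (nat_lit 0) (nat_lit 5))
    (@En.n l19565 (nat_lit 12057) (nat_lit 5) (nat_lit 6))
    (@En.n l1768 (nat_lit 10772) (nat_lit 7) (nat_lit 13))
    (@En.n l20847 (nat_lit 12355) (nat_lit 10) (nat_lit 6))
    (@En.n l3057 (nat_lit 12055) (nat_lit 8) (nat_lit 6))
    (@En.i (nat_lit 12449) (nat_lit 10) (nat_lit 11))
    (@En.n l13491 (nat_lit 12454) (nat_lit 6) (nat_lit 7))
    (@En.n l13489 (nat_lit 11887) (nat_lit 12) (nat_lit 10))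
    (@En.n l1768 (nat_lit 10683) (nat_lit 8) (nat_lit 4))
    (@En.n l61 (nat_lit 12325) (nat_lit 6) (nat_lit 10))
    (@En.n l17557 (nat_lit 10680) (nat_lit 11) (nat_lit 10))
    (@En.n l20848 (nat_lit 12452) (nat_lit 15) (nat_lit 3))))
  (@Cl.mk (nat_lit 0x3000c00090005000c0004000b000b00040007000b00050005000d000b0005) (nat_lit 0x820304600200450) (nat_lit 16) Lb.e (@T16.mk En
    (@En.n l26714 (nat_lit 12338) (nat_lit 0) (nat_lit 5))
    (@En.n l396 (nat_lit 12361) (nat_lit 10) (nat_lit 11))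
    (@En.n l33345 (nat_lit 12596) (nat_lit 2) (nat_lit 13))
    (@En.n l33346 (nat_lit 12597) (nat_lit 11) (nat_lit 5))
    (@En.n l33347 (nat_lit 11867) (nat_lit 4) (nat_lit 5))
    (@En.i (nat_lit 12694) (nat_lit 8) (nat_lit 11))
    (@En.n l5838 (nat_lit 12654) (nat_lit 11) (nat_lit 7))
    (@En.n l33348 (nat_lit 10685) (nat_lit 7) (nat_lit 4))
    (@En.n l33349 (nat_lit 12664) (nat_lit 5) (nat_lit 11))
    (@En.n l33350 (nat_lit 10686) (nat_lit 1) (nat_lit 11))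
    (@En.n l33351 (nat_lit 12455) (nat_lit 10) (nat_lit 4))
    (@En.n l9413 (nat_lit 12453) (nat_lit 0) (nat_lit 12))
    (@En.n l33352 (nat_lit 12112) (nat_lit 1) (nat_lit 5))
    (@En.n l33353 (nat_lit 11911) (nat_lit 14) (nat_lit 9))
    (@En.n l1997 (nat_lit 6556) (nat_lit 3) (nat_lit 12))
    (@En.n l33354 (nat_lit 12448) (nat_lit 15) (nat_lit 3))))
  (@Cl.mk (nat_lit 0x3000c000a000a00060004000b000b00060006000b00050005000d000a0005) (nat_lit 0x958004300400960) (nat_lit 16) Lb.e (@T16.mk En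
    (@En.n l28918 (nat_lit 5618) (nat_lit 0) (nat_lit 5))
    (@En.n l28919 (nat_lit 10128) (nat_lit 0) (nat_lit 10))
    (@En.n l28920 (nat_lit 5861) (nat_lit 2) (nat_lit 13))
    (@En.n l14968 (nat_lit 12495) (nat_lit 11) (nat_lit 5))
    (@En.n l28921 (nat_lit 10924) (nat_lit 4) (nat_lit 5))
    (@En.n l28919 (nat_lit 9289) (nat_lit 0) (nat_lit 11))
    (@En.n l28922 (nat_lit 12750) (nat_lit 10) (nat_lit 6))
    (@En.n l8638 (nat_lit 11846) (nat_lit 7) (nat_lit 6))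
    (@En.n l28923 (nat_lit 12772) (nat_lit 5) (nat_lit 11))
    (@En.n l28924 (nat_lit 10851) (nat_lit 10) (nat_lit 11))
    (@En.n l50 (nat_lit 9218) (nat_lit 10) (nat_lit 4))
    (@En.n l18113 (nat_lit 12111) (nat_lit 0) (nat_lit 6))
    (@En.n l61 (nat_lit 12492) (nat_lit 6) (nat_lit 10))
    (@En.n l217 (nat_lit 11879) (nat_lit 14) (nat_lit 10))
    (@En.n l25902 (nat_lit 5692) (nat_lit 3) (nat_lit 12))
    (@En.n l28 (nat_lit 12450) (nat_lit 15) (nat_lit 3))))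
  (@Cl.mk (nat_lit 0x300070003000c000b0007000b0004000c0005000900050004000d0009000d) (nat_lit 0x3505080400734) (nat_lit 16) Lb.e (@T16.mk En
    (@En.n l5646 (nat_lit 7325) (nat_lit 0) (nat_lit 13))
    (@En.i (nat_lit 11987) (nat_lit 3) (nat_lit 9))
    (@En.n l23116 (nat_lit 10497) (nat_lit 2) (nat_lit 13))
    (@En.n l28285 (nat_lit 11824) (nat_lit 3) (nat_lit 4))
    (@En.n l5646 (nat_lit 8703) (nat_lit 4) (nat_lit 5))
    (@En.n l8776 (nat_lit 10883) (nat_lit 5) (nat_lit 9))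
    (@En.n l21574 (nat_lit 8807) (nat_lit 6) (nat_lit 5))
    (@En.n l617 (nat_lit 12463) (nat_lit 10) (nat_lit 12))
    (@En.i (nat_lit 11797) (nat_lit 8) (nat_lit 4))
    (@En.i (nat_lit 8872) (nat_lit 10) (nat_lit 11))
    (@En.n l8776 (nat_lit 9206) (nat_lit 1) (nat_lit 7))
    (@En.n l3518 (nat_lit 12413) (nat_lit 12) (nat_lit 11))
    (@En.i (nat_lit 8840) (nat_lit 13) (nat_lit 12))
    (@En.i (nat_lit 12458) (nat_lit 15) (nat_lit 3))
    (@En.n l8776 (nat_lit 11438) (nat_lit 0) (nat_lit 7))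
    (@En.i (nat_lit 12457) (nat_lit 15) (nat_lit 3))))
  (@Cl.mk (nat_lit 0x300070004000c000b0006000b0004000c0005000900050004000d000c000a) (nat_lit 0x9605090300728) (nat_lit 16) Lb.e (@T16.mk En
    (@En.n l15539 (nat_lit 11292) (nat_lit 0) (nat_lit 10))
    (@En.n l644 (nat_lit 12458) (nat_lit 4) (nat_lit 12))
    (@En.n l42716 (nat_lit 10496) (nat_lit 2) (nat_lit 13))
    (@En.n l42717 (nat_lit 11823) (nat_lit 3) (nat_lit 4))
    (@En.n l5646 (nat_lit 8698) (nat_lit 4) (nat_lit 5))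
    (@En.n l18228 (nat_lit 10885) (nat_lit 10) (nat_lit 9))
    (@En.n l21574 (nat_lit 8805) (nat_lit 6) (nat_lit 5))
    (@En.n l42718 (nat_lit 12461) (nat_lit 8) (nat_lit 12))
    (@En.n l31844 (nat_lit 11795) (nat_lit 8) (nat_lit 4))
    (@En.i (nat_lit 8873) (nat_lit 10) (nat_lit 11))
    (@En.n l18230 (nat_lit 10412) (nat_lit 1) (nat_lit 6))
    (@En.n l42719 (nat_lit 12414) (nat_lit 12) (nat_lit 11))
    (@En.n l9866 (nat_lit 10567) (nat_lit 13) (nat_lit 12))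
    (@En.n l42720 (nat_lit 12459) (nat_lit 14) (nat_lit 4))
    (@En.n l18225 (nat_lit 10579) (nat_lit 0) (nat_lit 7))
    (@En.n l7 (nat_lit 12456) (nat_lit 15) (nat_lit 3))))
  (@Cl.mk (nat_lit 0x3000c000b0007000b0004000c0005000a00050004000c0009000d00060004) (nat_lit 0x95060a080013400) (nat_lit 16) Lb.e (@T16.mk En
    (@En.n l4542 (nat_lit 9285) (nat_lit 0) (nat_lit 4))
    (@En.i (nat_lit 11816) (nat_lit 0) (nat_lit 6))
    (@En.n l8682 (nat_lit 7328) (nat_lit 1) (nat_lit 13))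
    (@En.n l29989 (nat_lit 11986) (nat_lit 3) (nat_lit 9))
    (@En.n l4542 (nat_lit 8883) (nat_lit 10) (nat_lit 12))
    (@En.n l8682 (nat_lit 11822) (nat_lit 12) (nat_lit 4))
    (@En.n l5646 (nat_lit 10292) (nat_lit 6) (nat_lit 5))
    (@En.n l38215 (nat_lit 10472) (nat_lit 1) (nat_lit 10))
    (@En.n l21574 (nat_lit 8809) (nat_lit 8) (nat_lit 5))
    (@En.n l34068 (nat_lit 12462) (nat_lit 10) (nat_lit 12))
    (@En.i (nat_lit 11828) (nat_lit 10) (nat_lit 4))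
    (@En.i (nat_lit 8874) (nat_lit 0) (nat_lit 11))
    (@En.n l41341 (nat_lit 10413) (nat_lit 1) (nat_lit 7))
    (@En.n l3518 (nat_lit 12434) (nat_lit 5) (nat_lit 11))
    (@En.n l5788 (nat_lit 9816) (nat_lit 3) (nat_lit 12))
    (@En.n l50 (nat_lit 12456) (nat_lit 13) (nat_lit 3))))
  (@Cl.mk (nat_lit 0x40004000c000b0005000b0004000c0005000b00050004000c000c0005000b) (nat_lit 0x83020707001203) (nat_lit 16) Lb.e (@T16.mk En
    (@En.i (nat_lit 6159) (nat_lit 0) (nat_lit 11))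
    (@En.n l7681 (nat_lit 11793) (nat_lit 1) (nat_lit 5))
    (@En.n l41236 (nat_lit 9285) (nat_lit 4) (nat_lit 12))
    (@En.n l2129 (nat_lit 9714) (nat_lit 10) (nat_lit 12))
    (@En.n l2179 (nat_lit 12694) (nat_lit 12) (nat_lit 4))
    (@En.n l41237 (nat_lit 8762) (nat_lit 0) (nat_lit 5))
    (@En.n l28122 (nat_lit 12451) (nat_lit 1) (nat_lit 11))
    (@En.n l14292 (nat_lit 8905) (nat_lit 7) (nat_lit 5))
    (@En.n l41238 (nat_lit 7875) (nat_lit 9) (nat_lit 12))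
    (@En.n l41239 (nat_lit 9193) (nat_lit 9) (nat_lit 4))
    (@En.n l41240 (nat_lit 8875) (nat_lit 0) (nat_lit 11))
    (@En.n l41241 (nat_lit 9055) (nat_lit 1) (nat_lit 5))
    (@En.n l14294 (nat_lit 12416) (nat_lit 5) (nat_lit 11))
    (@En.n l29365 (nat_lit 9672) (nat_lit 3) (nat_lit 12))
    (@En.n l41242 (nat_lit 12460) (nat_lit 12) (nat_lit 4))
    (@En.n l41243 (nat_lit 12458) (nat_lit 0) (nat_lit 4))))
  (@Cl.mk (nat_lit 0x20006000c0004000c000b0004000b0004000c0005000a00050004000e000c) (nat_lit 0x10880106080072) (nat_lit 16) Lb.e (@T16.mk En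
    (@En.n l38952 (nat_lit 12459) (nat_lit 3) (nat_lit 12))
    (@En.n l601 (nat_lit 9361) (nat_lit 1) (nat_lit 14))
    (@En.n l2643 (nat_lit 12695) (nat_lit 2) (nat_lit 4))
    (@En.n l14271 (nat_lit 8761) (nat_lit 3) (nat_lit 5))
    (@En.n l29570 (nat_lit 12756) (nat_lit 4) (nat_lit 10))
    (@En.i (nat_lit 8936) (nat_lit 5) (nat_lit 5))
    (@En.n l1003 (nat_lit 7873) (nat_lit 7) (nat_lit 12))
    (@En.n l23368 (nat_lit 9187) (nat_lit 7) (nat_lit 4))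
    (@En.n l1722 (nat_lit 8876) (nat_lit 9) (nat_lit 11))
    (@En.n l3593 (nat_lit 9185) (nat_lit 9) (nat_lit 4))
    (@En.n l6915 (nat_lit 12417) (nat_lit 11) (nat_lit 11))
    (@En.n l4817 (nat_lit 6801) (nat_lit 12) (nat_lit 12))
    (@En.n l38953 (nat_lit 12457) (nat_lit 13) (nat_lit 4))
    (@En.n l5777 (nat_lit 6158) (nat_lit 14) (nat_lit 12))
    (@En.n l28740 (nat_lit 10578) (nat_lit 1) (nat_lit 6))
    (@En.n l50 (nat_lit 12460) (nat_lit 15) (nat_lit 2))))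
  (@Cl.mk (nat_lit 0x3000800040007000c0006000c000c00040008000400040009000d000c000a) (nat_lit 0x300a05801007725) (nat_lit 16) Lb.e (@T16.mk En
    (@En.n l601 (nat_lit 11197) (nat_lit 0) (nat_lit 10))
    (@En.n l39677 (nat_lit 12462) (nat_lit 4) (nat_lit 12))
    (@En.n l24529 (nat_lit 8695) (nat_lit 6) (nat_lit 13))
    (@En.n l899 (nat_lit 12153) (nat_lit 3) (nat_lit 9))
    (@En.n l24527 (nat_lit 12464) (nat_lit 12) (nat_lit 4))
    (@En.n l35308 (nat_lit 10539) (nat_lit 0) (nat_lit 4))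
    (@En.n l33249 (nat_lit 5629) (nat_lit 0) (nat_lit 8))
    (@En.n l24531 (nat_lit 12474) (nat_lit 1) (nat_lit 4))
    (@En.n l27972 (nat_lit 7891) (nat_lit 4) (nat_lit 12))
    (@En.n l24529 (nat_lit 8614) (nat_lit 1) (nat_lit 12))
    (@En.n l8050 (nat_lit 9163) (nat_lit 4) (nat_lit 6))
    (@En.n l39678 (nat_lit 11853) (nat_lit 12) (nat_lit 12))
    (@En.n l28 (nat_lit 7204) (nat_lit 11) (nat_lit 7))
    (@En.i (nat_lit 7875) (nat_lit 14) (nat_lit 4))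
    (@En.i (nat_lit 11718) (nat_lit 0) (nat_lit 8))
    (@En.n l17912 (nat_lit 12463) (nat_lit 1) (nat_lit 3))))
  (@Cl.mk (nat_lit 0x30007000c0007000c000c00040009000400040009000c0009000d00070004) (nat_lit 0x50690100614600) (nat_lit 16) Lb.e (@T16.mk En
    (@En.n l2710 (nat_lit 7878) (nat_lit 0) (nat_lit 4))
    (@En.n l1075 (nat_lit 11716) (nat_lit 0) (nat_lit 7))
    (@En.i (nat_lit 7035) (nat_lit 1) (nat_lit 13))
    (@En.n l16956 (nat_lit 11151) (nat_lit 3) (nat_lit 9))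
    (@En.i (nat_lit 7457) (nat_lit 6) (nat_lit 12))
    (@En.n l32608 (nat_lit 12152) (nat_lit 5) (nat_lit 9))
    (@En.n l1071 (nat_lit 12465) (nat_lit 12) (nat_lit 4))
    (@En.i (nat_lit 10538) (nat_lit 7) (nat_lit 4))
    (@En.n l32609 (nat_lit 5626) (nat_lit 0) (nat_lit 9))
    (@En.n l22467 (nat_lit 12475) (nat_lit 1) (nat_lit 4))
    (@En.n l61 (nat_lit 7890) (nat_lit 4) (nat_lit 12))
    (@En.n l1075 (nat_lit 8612) (nat_lit 12) (nat_lit 12))
    (@En.n l18219 (nat_lit 9164) (nat_lit 13) (nat_lit 7))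
    (@En.n l3531 (nat_lit 11852) (nat_lit 14) (nat_lit 12))
    (@En.n l32610 (nat_lit 12461) (nat_lit 12) (nat_lit 7))
    (@En.n l15273 (nat_lit 12463) (nat_lit 15) (nat_lit 3))))
  (@Cl.mk (nat_lit 0x30007000c0007000c000c00040008000400040009000d0009000d00030008) (nat_lit 0x40570100754706) (nat_lit 16) Lb.e (@T16.mk En
    (@En.i (nat_lit 11447) (nat_lit 0) (nat_lit 8))
    (@En.n l30382 (nat_lit 12461) (nat_lit 15) (nat_lit 3))
    (@En.n l13793 (nat_lit 7060) (nat_lit 0) (nat_lit 13))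
    (@En.i (nat_lit 11153) (nat_lit 3) (nat_lit 9))
    (@En.i (nat_lit 8701) (nat_lit 6) (nat_lit 13))
    (@En.n l11244 (nat_lit 12151) (nat_lit 3) (nat_lit 9))
    (@En.n l16563 (nat_lit 12466) (nat_lit 12) (nat_lit 4))
    (@En.n l34034 (nat_lit 10327) (nat_lit 7) (nat_lit 4))
    (@En.n l24949 (nat_lit 3981) (nat_lit 0) (nat_lit 8))
    (@En.n l17070 (nat_lit 12473) (nat_lit 1) (nat_lit 4))
    (@En.n l10858 (nat_lit 12125) (nat_lit 4) (nat_lit 12))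
    (@En.i (nat_lit 8613) (nat_lit 1) (nat_lit 12))
    (@En.n l33671 (nat_lit 9165) (nat_lit 13) (nat_lit 7))
    (@En.n l3524 (nat_lit 12037) (nat_lit 12) (nat_lit 12))
    (@En.n l6042 (nat_lit 7201) (nat_lit 12) (nat_lit 7))
    (@En.n l3523 (nat_lit 12462) (nat_lit 15) (nat_lit 3))))
noncomputable def a779 : T16 Cl := @T16.mk Cl
  (@Cl.mk (nat_lit 0x20005000900040009000d000c000a0003000700040007000b0006000e000c) (nat_lit 0x301a34000050c6) (nat_lit 16) Lb.e (@T16.mk En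
    (@En.n l4172 (nat_lit 12461) (nat_lit 9) (nat_lit 12))
    (@En.n l3327 (nat_lit 12467) (nat_lit 1) (nat_lit 14))
    (@En.n l3348 (nat_lit 9161) (nat_lit 2) (nat_lit 6))
    (@En.i (nat_lit 12640) (nat_lit 3) (nat_lit 11))
    (@En.n l5592 (nat_lit 4006) (nat_lit 4) (nat_lit 7))
    (@En.n l4172 (nat_lit 5980) (nat_lit 5) (nat_lit 4))
    (@En.i (nat_lit 11680) (nat_lit 6) (nat_lit 7))
    (@En.n l5559 (nat_lit 12466) (nat_lit 7) (nat_lit 3))
    (@En.i (nat_lit 11199) (nat_lit 9) (nat_lit 10))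
    (@En.n l3039 (nat_lit 12465) (nat_lit 10) (nat_lit 12))
    (@En.n l134 (nat_lit 7483) (nat_lit 11) (nat_lit 13))
    (@En.i (nat_lit 778) (nat_lit 12) (nat_lit 9))
    (@En.n l117 (nat_lit 10318) (nat_lit 13) (nat_lit 4))
    (@En.n l2039 (nat_lit 5630) (nat_lit 14) (nat_lit 9))
    (@En.i (nat_lit 12481) (nat_lit 13) (nat_lit 5))
    (@En.n l3 (nat_lit 12464) (nat_lit 15) (nat_lit 2))))
  (@Cl.mk (nat_lit 0x20005000a00040009000c0009000d0006000400030007000b0007000e000c) (nat_lit 0x20723500006067) (nat_lit 16) Lb.e (@T16.mk En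
    (@En.n l345 (nat_lit 12462) (nat_lit 11) (nat_lit 12))
    (@En.n l6606 (nat_lit 12468) (nat_lit 1) (nat_lit 14))
    (@En.n l7405 (nat_lit 9162) (nat_lit 2) (nat_lit 7))
    (@En.i (nat_lit 12639) (nat_lit 3) (nat_lit 11))
    (@En.n l11512 (nat_lit 12464) (nat_lit 4) (nat_lit 7))
    (@En.n l34233 (nat_lit 12466) (nat_lit 5) (nat_lit 3))
    (@En.n l28 (nat_lit 5984) (nat_lit 6) (nat_lit 4))
    (@En.n l8898 (nat_lit 11677) (nat_lit 7) (nat_lit 6))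
    (@En.i (nat_lit 7058) (nat_lit 9) (nat_lit 13))
    (@En.n l601 (nat_lit 11217) (nat_lit 10) (nat_lit 9))
    (@En.i (nat_lit 8706) (nat_lit 11) (nat_lit 12))
    (@En.n l3815 (nat_lit 4420) (nat_lit 12) (nat_lit 9))
    (@En.n l117 (nat_lit 10320) (nat_lit 13) (nat_lit 4))
    (@En.n l20166 (nat_lit 5627) (nat_lit 14) (nat_lit 10))
    (@En.i (nat_lit 12076) (nat_lit 13) (nat_lit 5))
    (@En.n l3 (nat_lit 12465) (nat_lit 15) (nat_lit 2))))
  (@Cl.mk (nat_lit 0x20005000900040009000d0009000d0003000700030007000b0007000e000c) (nat_lit 0x307a34000090c6) (nat_lit 16) Lb.e (@T16.mk En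
    (@En.n l11428 (nat_lit 12463) (nat_lit 11) (nat_lit 12))
    (@En.n l899 (nat_lit 12469) (nat_lit 1) (nat_lit 14))
    (@En.i (nat_lit 9160) (nat_lit 2) (nat_lit 7))
    (@En.n l10687 (nat_lit 12581) (nat_lit 3) (nat_lit 11))
    (@En.n l18441 (nat_lit 4007) (nat_lit 4) (nat_lit 7))
    (@En.n l18442 (nat_lit 12465) (nat_lit 5) (nat_lit 3))
    (@En.i (nat_lit 11670) (nat_lit 6) (nat_lit 7))
    (@En.n l17573 (nat_lit 12464) (nat_lit 7) (nat_lit 3))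
    (@En.n l2038 (nat_lit 7059) (nat_lit 9) (nat_lit 13))
    (@En.n l3902 (nat_lit 11218) (nat_lit 10) (nat_lit 9))
    (@En.n l18442 (nat_lit 8709) (nat_lit 11) (nat_lit 13))
    (@En.n l13116 (nat_lit 4421) (nat_lit 12) (nat_lit 9))
    (@En.n l10687 (nat_lit 10321) (nat_lit 13) (nat_lit 4))
    (@En.i (nat_lit 3985) (nat_lit 14) (nat_lit 9))
    (@En.n l9641 (nat_lit 12483) (nat_lit 13) (nat_lit 5))
    (@En.n l50 (nat_lit 12466) (nat_lit 15) (nat_lit 2))))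
  (@Cl.mk (nat_lit 0x200090005000900050009000d000c00070003000700040007000b000e000b) (nat_lit 0x204034a000005b5) (nat_lit 16) Lb.e (@T16.mk En
    (@En.n l21138 (nat_lit 12471) (nat_lit 10) (nat_lit 11))
    (@En.n l3530 (nat_lit 7832) (nat_lit 4) (nat_lit 14))
    (@En.n l31376 (nat_lit 12576) (nat_lit 2) (nat_lit 11))
    (@En.n l37560 (nat_lit 7388) (nat_lit 11) (nat_lit 7))
    (@En.n l10660 (nat_lit 5979) (nat_lit 4) (nat_lit 4))
    (@En.i (nat_lit 11675) (nat_lit 5) (nat_lit 7))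
    (@En.n l4659 (nat_lit 12469) (nat_lit 6) (nat_lit 3))
    (@En.n l4790 (nat_lit 11190) (nat_lit 0) (nat_lit 7))
    (@En.n l37561 (nat_lit 12468) (nat_lit 9) (nat_lit 12))
    (@En.n l13889 (nat_lit 7482) (nat_lit 10) (nat_lit 13))
    (@En.n l3395 (nat_lit 4416) (nat_lit 11) (nat_lit 9))
    (@En.n l19406 (nat_lit 10315) (nat_lit 4) (nat_lit 5))
    (@En.i (nat_lit 10331) (nat_lit 13) (nat_lit 9))
    (@En.n l7075 (nat_lit 12464) (nat_lit 14) (nat_lit 5))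
    (@En.n l4790 (nat_lit 10026) (nat_lit 0) (nat_lit 9))
    (@En.n l50 (nat_lit 12467) (nat_lit 15) (nat_lit 2))))
  (@Cl.mk (nat_lit 0x2000a0005000a00050009000c0006000d0006000400030007000b000e000b) (nat_lit 0x103039050000556) (nat_lit 16) Lb.e (@T16.mk En
    (@En.n l18149 (nat_lit 12470) (nat_lit 12) (nat_lit 11))
    (@En.n l2038 (nat_lit 7831) (nat_lit 4) (nat_lit 14))
    (@En.n l20642 (nat_lit 12572) (nat_lit 2) (nat_lit 11))
    (@En.n l21973 (nat_lit 12467) (nat_lit 3) (nat_lit 7))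
    (@En.n l21974 (nat_lit 12469) (nat_lit 4) (nat_lit 3))
    (@En.n l9860 (nat_lit 5982) (nat_lit 0) (nat_lit 4))
    (@En.n l14883 (nat_lit 11674) (nat_lit 6) (nat_lit 6))
    (@En.n l7457 (nat_lit 7056) (nat_lit 8) (nat_lit 13))
    (@En.n l8874 (nat_lit 10965) (nat_lit 8) (nat_lit 6))
    (@En.n l7457 (nat_lit 8710) (nat_lit 10) (nat_lit 12))
    (@En.n l7744 (nat_lit 4417) (nat_lit 11) (nat_lit 9))
    (@En.n l21975 (nat_lit 10316) (nat_lit 6) (nat_lit 5))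
    (@En.n l17532 (nat_lit 10333) (nat_lit 13) (nat_lit 10))
    (@En.n l10674 (nat_lit 12465) (nat_lit 14) (nat_lit 5))
    (@En.n l7457 (nat_lit 10029) (nat_lit 10) (nat_lit 10))
    (@En.n l11 (nat_lit 12468) (nat_lit 15) (nat_lit 2))))
  (@Cl.mk (nat_lit 0x2000a0005000900050009000d0006000d0003000700030007000b000e000b) (nat_lit 0x7030350400005b5) (nat_lit 16) Lb.e (@T16.mk En
    (@En.n l9463 (nat_lit 12472) (nat_lit 12) (nat_lit 11))
    (@En.i (nat_lit 7830) (nat_lit 4) (nat_lit 14))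
    (@En.i (nat_lit 12573) (nat_lit 2) (nat_lit 11))
    (@En.n l1203 (nat_lit 4012) (nat_lit 3) (nat_lit 7))
    (@En.n l6622 (nat_lit 12468) (nat_lit 4) (nat_lit 3))
    (@En.n l1081 (nat_lit 11432) (nat_lit 0) (nat_lit 7))
    (@En.n l1080 (nat_lit 12467) (nat_lit 6) (nat_lit 3))
    (@En.n l7507 (nat_lit 7055) (nat_lit 0) (nat_lit 13))
    (@En.n l117 (nat_lit 11499) (nat_lit 8) (nat_lit 6))
    (@En.n l1329 (nat_lit 8711) (nat_lit 10) (nat_lit 13))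
    (@En.n l699 (nat_lit 4414) (nat_lit 11) (nat_lit 9))
    (@En.n l1738 (nat_lit 10317) (nat_lit 6) (nat_lit 5))
    (@En.n l2642 (nat_lit 10329) (nat_lit 13) (nat_lit 9))
    (@En.n l2642 (nat_lit 12466) (nat_lit 14) (nat_lit 5))
    (@En.i (nat_lit 10604) (nat_lit 10) (nat_lit 10))
    (@En.n l18 (nat_lit 12469) (nat_lit 15) (nat_lit 2))))
  (@Cl.mk (nat_lit 0x30007000c000b000b000900040009000500050009000c0007000d00070004) (nat_lit 0x65160200480600) (nat_lit 16) Lb.e (@T16.mk En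
    (@En.n l11706 (nat_lit 7887) (nat_lit 0) (nat_lit 4))
    (@En.i (nat_lit 11673) (nat_lit 0) (nat_lit 7))
    (@En.n l2944 (nat_lit 7052) (nat_lit 1) (nat_lit 13))
    (@En.n l6959 (nat_lit 10962) (nat_lit 3) (nat_lit 7))
    (@En.i (nat_lit 8732) (nat_lit 6) (nat_lit 12))
    (@En.n l17323 (nat_lit 8251) (nat_lit 5) (nat_lit 9))
    (@En.n l8306 (nat_lit 12468) (nat_lit 11) (nat_lit 5))
    (@En.n l17324 (nat_lit 8623) (nat_lit 7) (nat_lit 5))
    (@En.n l17325 (nat_lit 10269) (nat_lit 0) (nat_lit 9))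
    (@En.n l2938 (nat_lit 12462) (nat_lit 9) (nat_lit 4))
    (@En.n l17326 (nat_lit 9557) (nat_lit 0) (nat_lit 9))
    (@En.n l2940 (nat_lit 7888) (nat_lit 5) (nat_lit 11))
    (@En.n l17327 (nat_lit 12478) (nat_lit 5) (nat_lit 11))
    (@En.n l17328 (nat_lit 11850) (nat_lit 14) (nat_lit 12))
    (@En.n l17329 (nat_lit 12471) (nat_lit 12) (nat_lit 7))
    (@En.n l50 (nat_lit 12472) (nat_lit 15) (nat_lit 3))))
  (@Cl.mk (nat_lit 0x3000800040007000c000b000b000800040008000500050009000d000c0008) (nat_lit 0x300541304004693) (nat_lit 16) Lb.e (@T16.mk En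
    (@En.n l33029 (nat_lit 11185) (nat_lit 0) (nat_lit 8))
    (@En.n l28520 (nat_lit 12470) (nat_lit 4) (nat_lit 12))
    (@En.n l11400 (nat_lit 8504) (nat_lit 6) (nat_lit 13))
    (@En.i (nat_lit 8250) (nat_lit 3) (nat_lit 9))
    (@En.n l22685 (nat_lit 12467) (nat_lit 11) (nat_lit 5))
    (@En.n l33030 (nat_lit 7905) (nat_lit 5) (nat_lit 5))
    (@En.n l11434 (nat_lit 10266) (nat_lit 6) (nat_lit 8))
    (@En.n l31805 (nat_lit 12461) (nat_lit 7) (nat_lit 4))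
    (@En.n l11400 (nat_lit 10440) (nat_lit 0) (nat_lit 8))
    (@En.n l12644 (nat_lit 7889) (nat_lit 5) (nat_lit 11))
    (@En.n l12645 (nat_lit 12477) (nat_lit 5) (nat_lit 11))
    (@En.n l13883 (nat_lit 11810) (nat_lit 12) (nat_lit 12))
    (@En.n l1723 (nat_lit 7363) (nat_lit 11) (nat_lit 7))
    (@En.n l621 (nat_lit 5985) (nat_lit 14) (nat_lit 4))
    (@En.i (nat_lit 11798) (nat_lit 0) (nat_lit 8))
    (@En.n l28523 (nat_lit 12472) (nat_lit 1) (nat_lit 3))))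
  (@Cl.mk (nat_lit 0x30007000c000b000b000900040008000500050009000d0007000d00030008) (nat_lit 0x54860200460506) (nat_lit 16) Lb.e (@T16.mk En
    (@En.n l16498 (nat_lit 11428) (nat_lit 0) (nat_lit 8))
    (@En.n l17334 (nat_lit 12471) (nat_lit 15) (nat_lit 3))
    (@En.n l1723 (nat_lit 7053) (nat_lit 0) (nat_lit 13))
    (@En.i (nat_lit 10964) (nat_lit 3) (nat_lit 7))
    (@En.i (nat_lit 8503) (nat_lit 6) (nat_lit 13))
    (@En.n l14270 (nat_lit 8252) (nat_lit 3) (nat_lit 9))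
    (@En.n l6961 (nat_lit 12469) (nat_lit 11) (nat_lit 5))
    (@En.n l17324 (nat_lit 8622) (nat_lit 7) (nat_lit 5))
    (@En.n l9885 (nat_lit 8814) (nat_lit 6) (nat_lit 8))
    (@En.n l936 (nat_lit 12463) (nat_lit 9) (nat_lit 4))
    (@En.n l55 (nat_lit 9555) (nat_lit 0) (nat_lit 9))
    (@En.n l10858 (nat_lit 12126) (nat_lit 5) (nat_lit 11))
    (@En.n l33008 (nat_lit 12476) (nat_lit 5) (nat_lit 11))
    (@En.n l16584 (nat_lit 11851) (nat_lit 12) (nat_lit 12))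
    (@En.n l6042 (nat_lit 7203) (nat_lit 12) (nat_lit 7))
    (@En.i (nat_lit 12470) (nat_lit 15) (nat_lit 3))))
  (@Cl.mk (nat_lit 0x300060009000d0008000d0003000800030007000c000a0008000d00040008) (nat_lit 0x29530600671506) (nat_lit 16) Lb.e (@T16.mk En
    (@En.i (nat_lit 10984) (nat_lit 0) (nat_lit 8))
    (@En.n l2843 (nat_lit 12472) (nat_lit 9) (nat_lit 4))
    (@En.n l3 (nat_lit 8618) (nat_lit 0) (nat_lit 13))
    (@En.i (nat_lit 9556) (nat_lit 1) (nat_lit 8))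
    (@En.n l33386 (nat_lit 10321) (nat_lit 4) (nat_lit 10))
    (@En.n l4592 (nat_lit 10298) (nat_lit 12) (nat_lit 12))
    (@En.n l253 (nat_lit 7284) (nat_lit 12) (nat_lit 7))
    (@En.n l5236 (nat_lit 12475) (nat_lit 7) (nat_lit 3))
    (@En.n l5032 (nat_lit 11493) (nat_lit 0) (nat_lit 8))
    (@En.n l3651 (nat_lit 12474) (nat_lit 9) (nat_lit 3))
    (@En.n l5236 (nat_lit 5524) (nat_lit 0) (nat_lit 13))
    (@En.i (nat_lit 11950) (nat_lit 3) (nat_lit 8))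
    (@En.n l1329 (nat_lit 9762) (nat_lit 13) (nat_lit 13))
    (@En.n l11247 (nat_lit 4289) (nat_lit 9) (nat_lit 9))
    (@En.n l3106 (nat_lit 12482) (nat_lit 12) (nat_lit 6))
    (@En.n l39584 (nat_lit 12476) (nat_lit 15) (nat_lit 3))))
  (@Cl.mk (nat_lit 0x300060009000d000c00090003000800040007000c000a0007000d00040008) (nat_lit 0x29250600560503) (nat_lit 16) Lb.e (@T16.mk En
    (@En.n l3328 (nat_lit 10980) (nat_lit 0) (nat_lit 8))
    (@En.n l117 (nat_lit 12471) (nat_lit 7) (nat_lit 4))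
    (@En.n l2362 (nat_lit 10314) (nat_lit 0) (nat_lit 13))
    (@En.n l6081 (nat_lit 10441) (nat_lit 1) (nat_lit 7))
    (@En.n l2642 (nat_lit 10318) (nat_lit 4) (nat_lit 10))
    (@En.n l1003 (nat_lit 10299) (nat_lit 12) (nat_lit 12))
    (@En.n l1723 (nat_lit 7288) (nat_lit 11) (nat_lit 7))
    (@En.n l6042 (nat_lit 7858) (nat_lit 7) (nat_lit 4))
    (@En.n l2869 (nat_lit 11958) (nat_lit 0) (nat_lit 8))
    (@En.n l7638 (nat_lit 12473) (nat_lit 9) (nat_lit 3))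
    (@En.i (nat_lit 11207) (nat_lit 0) (nat_lit 9))
    (@En.n l5838 (nat_lit 12475) (nat_lit 12) (nat_lit 12))
    (@En.n l26197 (nat_lit 9763) (nat_lit 13) (nat_lit 13))
    (@En.i (nat_lit 4291) (nat_lit 9) (nat_lit 9))
    (@En.n l3546 (nat_lit 12480) (nat_lit 12) (nat_lit 6))
    (@En.n l711 (nat_lit 12477) (nat_lit 15) (nat_lit 3))))
  (@Cl.mk (nat_lit 0x300060009000c0008000d0007000400030007000c000a0008000d00040009) (nat_lit 0x21530000672607) (nat_lit 16) Lb.e (@T16.mk En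
    (@En.n l9771 (nat_lit 11608) (nat_lit 0) (nat_lit 9))
    (@En.n l24858 (nat_lit 12470) (nat_lit 9) (nat_lit 4))
    (@En.n l13056 (nat_lit 8619) (nat_lit 11) (nat_lit 13))
    (@En.n l24859 (nat_lit 10443) (nat_lit 1) (nat_lit 8))
    (@En.n l2642 (nat_lit 10320) (nat_lit 4) (nat_lit 10))
    (@En.n l24860 (nat_lit 12036) (nat_lit 14) (nat_lit 12))
    (@En.n l6204 (nat_lit 12474) (nat_lit 6) (nat_lit 7))
    (@En.n l13385 (nat_lit 12473) (nat_lit 7) (nat_lit 3))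
    (@En.n l7 (nat_lit 7859) (nat_lit 0) (nat_lit 4))
    (@En.n l9771 (nat_lit 10509) (nat_lit 0) (nat_lit 7))
    (@En.i (nat_lit 5523) (nat_lit 1) (nat_lit 13))
    (@En.n l396 (nat_lit 11768) (nat_lit 3) (nat_lit 8))
    (@En.n l2642 (nat_lit 7428) (nat_lit 6) (nat_lit 12))
    (@En.i (nat_lit 4290) (nat_lit 9) (nat_lit 9))
    (@En.n l16089 (nat_lit 12077) (nat_lit 12) (nat_lit 6))
    (@En.n l9309 (nat_lit 12478) (nat_lit 15) (nat_lit 3))))
  (@Cl.mk (nat_lit 0x300060009000d0008000d0003000900030007000b000a0008000d00070005) (nat_lit 0x56560600372500) (nat_lit 16) Lb.e (@T16.mk En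
    (@En.n l17556 (nat_lit 8621) (nat_lit 0) (nat_lit 5))
    (@En.n l38863 (nat_lit 10312) (nat_lit 7) (nat_lit 7))
    (@En.n l37818 (nat_lit 8616) (nat_lit 11) (nat_lit 13))
    (@En.n l32419 (nat_lit 10445) (nat_lit 12) (nat_lit 8))
    (@En.n l17 (nat_lit 10324) (nat_lit 4) (nat_lit 10))
    (@En.n l9858 (nat_lit 10289) (nat_lit 12) (nat_lit 11))
    (@En.n l1769 (nat_lit 7294) (nat_lit 12) (nat_lit 7))
    (@En.n l42912 (nat_lit 12478) (nat_lit 7) (nat_lit 3))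
    (@En.n l1867 (nat_lit 11495) (nat_lit 0) (nat_lit 9))
    (@En.n l24992 (nat_lit 12477) (nat_lit 9) (nat_lit 3))
    (@En.n l18445 (nat_lit 5555) (nat_lit 0) (nat_lit 13))
    (@En.n l3866 (nat_lit 11949) (nat_lit 3) (nat_lit 8))
    (@En.n l37814 (nat_lit 9402) (nat_lit 13) (nat_lit 13))
    (@En.n l37815 (nat_lit 12157) (nat_lit 9) (nat_lit 9))
    (@En.n l27469 (nat_lit 7828) (nat_lit 12) (nat_lit 6))
    (@En.n l17664 (nat_lit 12473) (nat_lit 15) (nat_lit 3))))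
  (@Cl.mk (nat_lit 0x300060009000d000c00090003000900040007000b000a0007000d00070005) (nat_lit 0x59260100360500) (nat_lit 16) Lb.e (@T16.mk En
    (@En.n l35279 (nat_lit 7901) (nat_lit 0) (nat_lit 5))
    (@En.n l35280 (nat_lit 10310) (nat_lit 7) (nat_lit 7))
    (@En.n l27075 (nat_lit 8617) (nat_lit 9) (nat_lit 13))
    (@En.n l170 (nat_lit 10442) (nat_lit 3) (nat_lit 7))
    (@En.n l725 (nat_lit 10325) (nat_lit 4) (nat_lit 10))
    (@En.n l35281 (nat_lit 10288) (nat_lit 12) (nat_lit 11))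
    (@En.n l13128 (nat_lit 7218) (nat_lit 11) (nat_lit 7))
    (@En.n l615 (nat_lit 7848) (nat_lit 7) (nat_lit 4))
    (@En.n l5933 (nat_lit 8782) (nat_lit 0) (nat_lit 9))
    (@En.n l21051 (nat_lit 12476) (nat_lit 9) (nat_lit 3))
    (@En.i (nat_lit 11208) (nat_lit 0) (nat_lit 9))
    (@En.n l35282 (nat_lit 12478) (nat_lit 12) (nat_lit 12))
    (@En.n l35283 (nat_lit 9758) (nat_lit 13) (nat_lit 13))
    (@En.n l2366 (nat_lit 7597) (nat_lit 9) (nat_lit 9))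
    (@En.i (nat_lit 7823) (nat_lit 12) (nat_lit 6))
    (@En.n l2368 (nat_lit 12474) (nat_lit 15) (nat_lit 3))))
  (@Cl.mk (nat_lit 0x300060009000c0008000d0008000400030007000b000a0008000d00080005) (nat_lit 0x51571000475620) (nat_lit 16) Lb.e (@T16.mk En
    (@En.n l33010 (nat_lit 7902) (nat_lit 0) (nat_lit 5))
    (@En.n l61 (nat_lit 10308) (nat_lit 10) (nat_lit 8))
    (@En.n l33011 (nat_lit 8615) (nat_lit 11) (nat_lit 13))
    (@En.n l33012 (nat_lit 10444) (nat_lit 12) (nat_lit 8))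
    (@En.n l33013 (nat_lit 10326) (nat_lit 4) (nat_lit 10))
    (@En.n l33014 (nat_lit 10290) (nat_lit 14) (nat_lit 11))
    (@En.n l33015 (nat_lit 12477) (nat_lit 6) (nat_lit 7))
    (@En.n l33016 (nat_lit 12476) (nat_lit 7) (nat_lit 3))
    (@En.n l9876 (nat_lit 7847) (nat_lit 0) (nat_lit 4))
    (@En.n l33017 (nat_lit 8784) (nat_lit 0) (nat_lit 8))
    (@En.i (nat_lit 3928) (nat_lit 1) (nat_lit 13))
    (@En.n l33018 (nat_lit 11948) (nat_lit 3) (nat_lit 8))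
    (@En.i (nat_lit 8733) (nat_lit 6) (nat_lit 12))
    (@En.n l22467 (nat_lit 12158) (nat_lit 9) (nat_lit 9))
    (@En.n l33019 (nat_lit 7827) (nat_lit 12) (nat_lit 6))
    (@En.n l21425 (nat_lit 12475) (nat_lit 15) (nat_lit 3))))
  (@Cl.mk (nat_lit 0x2000d0008000600030009000d000c00090003000800040007000a000e0007) (nat_lit 0x630056640600480) (nat_lit 16) Lb.e (@T16.mk En
    (@En.n l5246 (nat_lit 10605) (nat_lit 4) (nat_lit 7))
    (@En.n l3337 (nat_lit 6091) (nat_lit 1) (nat_lit 14))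
    (@En.n l781 (nat_lit 12800) (nat_lit 2) (nat_lit 10))
    (@En.n l13128 (nat_lit 2768) (nat_lit 11) (nat_lit 7))
    (@En.i (nat_lit 7260) (nat_lit 4) (nat_lit 4))
    (@En.n l3337 (nat_lit 12170) (nat_lit 5) (nat_lit 8))
    (@En.n l21443 (nat_lit 12075) (nat_lit 6) (nat_lit 3))
    (@En.i (nat_lit 11265) (nat_lit 0) (nat_lit 9))
    (@En.n l22929 (nat_lit 12074) (nat_lit 9) (nat_lit 12))
    (@En.n l9960 (nat_lit 12066) (nat_lit 10) (nat_lit 13))
    (@En.n l23913 (nat_lit 12480) (nat_lit 11) (nat_lit 9))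
    (@En.n l2199 (nat_lit 12481) (nat_lit 11) (nat_lit 3))
    (@En.n l1722 (nat_lit 5369) (nat_lit 0) (nat_lit 6))
    (@En.n l12896 (nat_lit 12181) (nat_lit 14) (nat_lit 8))
    (@En.i (nat_lit 12477) (nat_lit 2) (nat_lit 13))
    (@En.n l7 (nat_lit 12479) (nat_lit 15) (nat_lit 2))))
noncomputable def a780 : T16 Cl := @T16.mk Cl
  (@Cl.mk (nat_lit 0x20005000900060009000d000c00080003000700040007000b000a000e0008) (nat_lit 0x30455600009591) (nat_lit 16) Lb.e (@T16.mk En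
    (@En.n l1738 (nat_lit 56) (nat_lit 1) (nat_lit 8))
    (@En.n l10072 (nat_lit 12481) (nat_lit 1) (nat_lit 14))
    (@En.n l10504 (nat_lit 12479) (nat_lit 2) (nat_lit 10))
    (@En.n l4233 (nat_lit 12069) (nat_lit 3) (nat_lit 11))
    (@En.n l2407 (nat_lit 2770) (nat_lit 4) (nat_lit 7))
    (@En.n l3799 (nat_lit 7257) (nat_lit 5) (nat_lit 4))
    (@En.n l9213 (nat_lit 12164) (nat_lit 6) (nat_lit 7))
    (@En.n l11 (nat_lit 12482) (nat_lit 7) (nat_lit 3))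
    (@En.n l9213 (nat_lit 11263) (nat_lit 0) (nat_lit 8))
    (@En.n l55 (nat_lit 12077) (nat_lit 10) (nat_lit 12))
    (@En.n l21809 (nat_lit 11933) (nat_lit 11) (nat_lit 13))
    (@En.n l699 (nat_lit 3365) (nat_lit 12) (nat_lit 9))
    (@En.n l1738 (nat_lit 5366) (nat_lit 13) (nat_lit 6))
    (@En.i (nat_lit 12177) (nat_lit 14) (nat_lit 9))
    (@En.n l1080 (nat_lit 12467) (nat_lit 13) (nat_lit 5))
    (@En.n l3 (nat_lit 12480) (nat_lit 15) (nat_lit 2))))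
  (@Cl.mk (nat_lit 0x2000d0005000900030009000d000c00090003000700040007000b000e0007) (nat_lit 0x602056660000880) (nat_lit 16) Lb.e (@T16.mk En
    (@En.n l19359 (nat_lit 10606) (nat_lit 4) (nat_lit 7))
    (@En.i (nat_lit 6090) (nat_lit 4) (nat_lit 14))
    (@En.n l253 (nat_lit 11917) (nat_lit 2) (nat_lit 11))
    (@En.n l5592 (nat_lit 2769) (nat_lit 11) (nat_lit 7))
    (@En.n l4172 (nat_lit 7261) (nat_lit 4) (nat_lit 4))
    (@En.i (nat_lit 11964) (nat_lit 5) (nat_lit 7))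
    (@En.n l17578 (nat_lit 12483) (nat_lit 6) (nat_lit 3))
    (@En.i (nat_lit 11264) (nat_lit 0) (nat_lit 9))
    (@En.n l3039 (nat_lit 12076) (nat_lit 9) (nat_lit 12))
    (@En.n l134 (nat_lit 4172) (nat_lit 10) (nat_lit 13))
    (@En.n l21006 (nat_lit 2803) (nat_lit 11) (nat_lit 9))
    (@En.n l11610 (nat_lit 12479) (nat_lit 11) (nat_lit 3))
    (@En.n l781 (nat_lit 10108) (nat_lit 0) (nat_lit 9))
    (@En.n l17733 (nat_lit 12480) (nat_lit 14) (nat_lit 5))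
    (@En.n l2125 (nat_lit 12474) (nat_lit 2) (nat_lit 13))
    (@En.n l17 (nat_lit 12481) (nat_lit 15) (nat_lit 2))))
  (@Cl.mk (nat_lit 0x20005000900060009000d0007000d0003000700030007000b000a000e0009) (nat_lit 0x30460200009695) (nat_lit 16) Lb.e (@T16.mk En
    (@En.n l1738 (nat_lit 10606) (nat_lit 11) (nat_lit 9))
    (@En.i (nat_lit 12483) (nat_lit 1) (nat_lit 14))
    (@En.i (nat_lit 12075) (nat_lit 2) (nat_lit 10))
    (@En.i (nat_lit 12068) (nat_lit 3) (nat_lit 11))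
    (@En.i (nat_lit 1822) (nat_lit 4) (nat_lit 7))
    (@En.i (nat_lit 12077) (nat_lit 5) (nat_lit 3))
    (@En.i (nat_lit 10782) (nat_lit 6) (nat_lit 7))
    (@En.i (nat_lit 12480) (nat_lit 7) (nat_lit 3))
    (@En.i (nat_lit 4078) (nat_lit 9) (nat_lit 13))
    (@En.n l117 (nat_lit 6150) (nat_lit 10) (nat_lit 7))
    (@En.n l1329 (nat_lit 11930) (nat_lit 11) (nat_lit 13))
    (@En.n l699 (nat_lit 3364) (nat_lit 12) (nat_lit 9))
    (@En.n l1738 (nat_lit 5367) (nat_lit 13) (nat_lit 6))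
    (@En.i (nat_lit 11969) (nat_lit 14) (nat_lit 9))
    (@En.i (nat_lit 12469) (nat_lit 13) (nat_lit 5))
    (@En.n l3 (nat_lit 12482) (nat_lit 15) (nat_lit 2))))
  (@Cl.mk (nat_lit 0x2000d0005000900030009000d0008000d0003000700030007000b000e0008) (nat_lit 0x602057620000981) (nat_lit 16) Lb.e (@T16.mk En
    (@En.n l1531 (nat_lit 75) (nat_lit 4) (nat_lit 8))
    (@En.n l12369 (nat_lit 6088) (nat_lit 4) (nat_lit 14))
    (@En.n l18457 (nat_lit 11923) (nat_lit 2) (nat_lit 11))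
    (@En.n l14341 (nat_lit 1824) (nat_lit 3) (nat_lit 7))
    (@En.n l8846 (nat_lit 12076) (nat_lit 4) (nat_lit 3))
    (@En.n l12369 (nat_lit 10783) (nat_lit 0) (nat_lit 7))
    (@En.n l10072 (nat_lit 12481) (nat_lit 6) (nat_lit 3))
    (@En.n l8846 (nat_lit 4080) (nat_lit 0) (nat_lit 13))
    (@En.n l12369 (nat_lit 6149) (nat_lit 3) (nat_lit 8))
    (@En.n l8846 (nat_lit 4179) (nat_lit 10) (nat_lit 13))
    (@En.n l699 (nat_lit 2805) (nat_lit 11) (nat_lit 9))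
    (@En.n l1738 (nat_lit 12075) (nat_lit 11) (nat_lit 3))
    (@En.i (nat_lit 10107) (nat_lit 0) (nat_lit 9))
    (@En.n l18 (nat_lit 12482) (nat_lit 14) (nat_lit 5))
    (@En.n l1531 (nat_lit 12473) (nat_lit 2) (nat_lit 13))
    (@En.n l3 (nat_lit 12483) (nat_lit 15) (nat_lit 2))))
  (@Cl.mk (nat_lit 0x200060006000d0005000d0003000d0003000c0003000a000a0004000e000b) (nat_lit 0x5020902077082) (nat_lit 16) Lb.e (@T16.mk En
    (@En.n l1532 (nat_lit 12449) (nat_lit 11) (nat_lit 11))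
    (@En.n l18 (nat_lit 9100) (nat_lit 1) (nat_lit 14))
    (@En.i (nat_lit 12356) (nat_lit 2) (nat_lit 4))
    (@En.n l61 (nat_lit 12399) (nat_lit 6) (nat_lit 10))
    (@En.i (nat_lit 12351) (nat_lit 4) (nat_lit 10))
    (@En.i (nat_lit 12485) (nat_lit 5) (nat_lit 3))
    (@En.i (nat_lit 1242) (nat_lit 7) (nat_lit 12))
    (@En.i (nat_lit 9214) (nat_lit 7) (nat_lit 3))
    (@En.i (nat_lit 5846) (nat_lit 9) (nat_lit 13))
    (@En.i (nat_lit 12397) (nat_lit 9) (nat_lit 3))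
    (@En.i (nat_lit 5143) (nat_lit 11) (nat_lit 13))
    (@En.n l117 (nat_lit 12005) (nat_lit 12) (nat_lit 5))
    (@En.i (nat_lit 12421) (nat_lit 13) (nat_lit 13))
    (@En.i (nat_lit 9221) (nat_lit 10) (nat_lit 6))
    (@En.n l6081 (nat_lit 9087) (nat_lit 8) (nat_lit 6))
    (@En.n l3 (nat_lit 12484) (nat_lit 15) (nat_lit 2))))
  (@Cl.mk (nat_lit 0x200060006000d0005000c0003000d000b00040003000a000a0005000e000b) (nat_lit 0x5080a50074082) (nat_lit 16) Lb.e (@T16.mk En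
    (@En.n l1532 (nat_lit 12451) (nat_lit 11) (nat_lit 11))
    (@En.n l18 (nat_lit 9104) (nat_lit 1) (nat_lit 14))
    (@En.n l7 (nat_lit 12642) (nat_lit 2) (nat_lit 5))
    (@En.n l61 (nat_lit 12486) (nat_lit 6) (nat_lit 10))
    (@En.i (nat_lit 12261) (nat_lit 4) (nat_lit 10))
    (@En.n l7 (nat_lit 12484) (nat_lit 5) (nat_lit 3))
    (@En.i (nat_lit 8947) (nat_lit 6) (nat_lit 4))
    (@En.i (nat_lit 12494) (nat_lit 8) (nat_lit 11))
    (@En.i (nat_lit 5842) (nat_lit 9) (nat_lit 13))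
    (@En.i (nat_lit 5312) (nat_lit 9) (nat_lit 3))
    (@En.i (nat_lit 8986) (nat_lit 11) (nat_lit 12))
    (@En.n l117 (nat_lit 12004) (nat_lit 12) (nat_lit 5))
    (@En.i (nat_lit 12417) (nat_lit 13) (nat_lit 13))
    (@En.n l5337 (nat_lit 12755) (nat_lit 14) (nat_lit 6))
    (@En.n l6081 (nat_lit 9083) (nat_lit 8) (nat_lit 6))
    (@En.n l3 (nat_lit 12485) (nat_lit 15) (nat_lit 2))))
  (@Cl.mk (nat_lit 0x2000d0006000c0003000d000c00040003000a0004000e000a0002000e0006) (nat_lit 0x5090b6003072070) (nat_lit 16) Lb.e (@T16.mk En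
    (@En.i (nat_lit 12485) (nat_lit 14) (nat_lit 6))
    (@En.n l1531 (nat_lit 8343) (nat_lit 1) (nat_lit 14))
    (@En.n l3 (nat_lit 12486) (nat_lit 2) (nat_lit 2))
    (@En.n l1532 (nat_lit 12489) (nat_lit 3) (nat_lit 10))
    (@En.i (nat_lit 9115) (nat_lit 1) (nat_lit 14))
    (@En.n l1029 (nat_lit 10120) (nat_lit 5) (nat_lit 4))
    (@En.n l3858 (nat_lit 11600) (nat_lit 3) (nat_lit 10))
    (@En.n l7 (nat_lit 12399) (nat_lit 7) (nat_lit 3))
    (@En.n l9616 (nat_lit 5813) (nat_lit 0) (nat_lit 4))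
    (@En.n l644 (nat_lit 10124) (nat_lit 10) (nat_lit 12))
    (@En.n l10309 (nat_lit 5841) (nat_lit 11) (nat_lit 13))
    (@En.n l3621 (nat_lit 12396) (nat_lit 11) (nat_lit 3))
    (@En.n l3858 (nat_lit 8985) (nat_lit 0) (nat_lit 12))
    (@En.n l117 (nat_lit 10936) (nat_lit 14) (nat_lit 6))
    (@En.i (nat_lit 12425) (nat_lit 12) (nat_lit 13))
    (@En.n l17 (nat_lit 12486) (nat_lit 15) (nat_lit 2))))
  (@Cl.mk (nat_lit 0x2000c0006000d000c00040003000d0004000a0003000e000a0002000e0006) (nat_lit 0x301a00707065090) (nat_lit 16) Lb.e (@T16.mk En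
    (@En.i (nat_lit 9214) (nat_lit 14) (nat_lit 6))
    (@En.n l1531 (nat_lit 8341) (nat_lit 1) (nat_lit 14))
    (@En.n l3 (nat_lit 12487) (nat_lit 2) (nat_lit 2))
    (@En.n l1532 (nat_lit 12490) (nat_lit 3) (nat_lit 10))
    (@En.n l8845 (nat_lit 9114) (nat_lit 1) (nat_lit 14))
    (@En.n l1029 (nat_lit 12493) (nat_lit 5) (nat_lit 3))
    (@En.n l2394 (nat_lit 12571) (nat_lit 3) (nat_lit 10))
    (@En.n l3422 (nat_lit 5812) (nat_lit 7) (nat_lit 4))
    (@En.n l3860 (nat_lit 5683) (nat_lit 9) (nat_lit 13))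
    (@En.n l28 (nat_lit 12399) (nat_lit 9) (nat_lit 3))
    (@En.n l2394 (nat_lit 5951) (nat_lit 10) (nat_lit 4))
    (@En.n l77 (nat_lit 12486) (nat_lit 12) (nat_lit 12))
    (@En.n l8845 (nat_lit 5145) (nat_lit 13) (nat_lit 13))
    (@En.n l117 (nat_lit 10937) (nat_lit 14) (nat_lit 6))
    (@En.i (nat_lit 8763) (nat_lit 12) (nat_lit 12))
    (@En.n l17 (nat_lit 12487) (nat_lit 15) (nat_lit 2))))
  (@Cl.mk (nat_lit 0x2000c00060006000d0004000d0003000d0003000b0003000a000a000e0005) (nat_lit 0x30030b080804270) (nat_lit 16) Lb.e (@T16.mk En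
    (@En.i (nat_lit 12449) (nat_lit 9) (nat_lit 5))
    (@En.i (nat_lit 8303) (nat_lit 1) (nat_lit 14))
    (@En.n l97 (nat_lit 12497) (nat_lit 2) (nat_lit 10))
    (@En.i (nat_lit 12718) (nat_lit 3) (nat_lit 10))
    (@En.i (nat_lit 12491) (nat_lit 4) (nat_lit 3))
    (@En.i (nat_lit 11711) (nat_lit 0) (nat_lit 11))
    (@En.i (nat_lit 12489) (nat_lit 6) (nat_lit 3))
    (@En.i (nat_lit 1235) (nat_lit 0) (nat_lit 13))
    (@En.i (nat_lit 12490) (nat_lit 8) (nat_lit 3))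
    (@En.n l649 (nat_lit 5974) (nat_lit 10) (nat_lit 13))
    (@En.i (nat_lit 12110) (nat_lit 10) (nat_lit 4))
    (@En.i (nat_lit 12672) (nat_lit 12) (nat_lit 13))
    (@En.n l1900 (nat_lit 12399) (nat_lit 13) (nat_lit 6))
    (@En.i (nat_lit 10941) (nat_lit 14) (nat_lit 6))
    (@En.i (nat_lit 11893) (nat_lit 8) (nat_lit 12))
    (@En.n l17 (nat_lit 12488) (nat_lit 15) (nat_lit 2))))
  (@Cl.mk (nat_lit 0x2000c00060006000c0004000d000c00040003000b0004000a000a000e0005) (nat_lit 0x30090b700801260) (nat_lit 16) Lb.e (@T16.mk En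
    (@En.i (nat_lit 12451) (nat_lit 9) (nat_lit 5))
    (@En.i (nat_lit 8305) (nat_lit 1) (nat_lit 14))
    (@En.n l97 (nat_lit 12770) (nat_lit 2) (nat_lit 10))
    (@En.i (nat_lit 8521) (nat_lit 3) (nat_lit 10))
    (@En.n l7 (nat_lit 10125) (nat_lit 4) (nat_lit 4))
    (@En.n l4252 (nat_lit 12209) (nat_lit 0) (nat_lit 11))
    (@En.n l7 (nat_lit 12488) (nat_lit 6) (nat_lit 3))
    (@En.i (nat_lit 5819) (nat_lit 7) (nat_lit 4))
    (@En.n l644 (nat_lit 12491) (nat_lit 9) (nat_lit 12))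
    (@En.n l3528 (nat_lit 5847) (nat_lit 10) (nat_lit 13))
    (@En.i (nat_lit 12109) (nat_lit 10) (nat_lit 4))
    (@En.n l17552 (nat_lit 9988) (nat_lit 12) (nat_lit 12))
    (@En.n l1900 (nat_lit 12486) (nat_lit 13) (nat_lit 6))
    (@En.i (nat_lit 11135) (nat_lit 14) (nat_lit 6))
    (@En.i (nat_lit 12424) (nat_lit 8) (nat_lit 12))
    (@En.n l17 (nat_lit 12489) (nat_lit 15) (nat_lit 2))))
  (@Cl.mk (nat_lit 0x2000b00060006000d000c00050003000d0004000b0003000a000a000e0005) (nat_lit 0x5002a0090604250) (nat_lit 16) Lb.e (@T16.mk En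
    (@En.i (nat_lit 9218) (nat_lit 7) (nat_lit 5))
    (@En.i (nat_lit 8340) (nat_lit 1) (nat_lit 14))
    (@En.n l97 (nat_lit 12496) (nat_lit 2) (nat_lit 10))
    (@En.i (nat_lit 12717) (nat_lit 3) (nat_lit 10))
    (@En.i (nat_lit 12492) (nat_lit 4) (nat_lit 3))
    (@En.i (nat_lit 11708) (nat_lit 0) (nat_lit 11))
    (@En.n l28 (nat_lit 5818) (nat_lit 6) (nat_lit 4))
    (@En.n l27228 (nat_lit 5685) (nat_lit 8) (nat_lit 13))
    (@En.n l28 (nat_lit 12488) (nat_lit 8) (nat_lit 3))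
    (@En.n l22373 (nat_lit 5949) (nat_lit 9) (nat_lit 5))
    (@En.n l77 (nat_lit 12489) (nat_lit 11) (nat_lit 12))
    (@En.n l1412 (nat_lit 12710) (nat_lit 12) (nat_lit 13))
    (@En.n l1900 (nat_lit 12487) (nat_lit 13) (nat_lit 6))
    (@En.n l1236 (nat_lit 10943) (nat_lit 14) (nat_lit 6))
    (@En.i (nat_lit 8767) (nat_lit 10) (nat_lit 11))
    (@En.n l17 (nat_lit 12490) (nat_lit 15) (nat_lit 2))))
  (@Cl.mk (nat_lit 0x2000c00060006000d0004000c0003000d000a00040003000a000a000e0006) (nat_lit 0x500a06093003370) (nat_lit 16) Lb.e (@T16.mk En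
    (@En.i (nat_lit 12450) (nat_lit 7) (nat_lit 6))
    (@En.i (nat_lit 4629) (nat_lit 1) (nat_lit 14))
    (@En.n l97 (nat_lit 12773) (nat_lit 2) (nat_lit 10))
    (@En.n l10703 (nat_lit 9778) (nat_lit 3) (nat_lit 10))
    (@En.n l50 (nat_lit 12488) (nat_lit 4) (nat_lit 3))
    (@En.n l6001 (nat_lit 10121) (nat_lit 0) (nat_lit 4))
    (@En.n l217 (nat_lit 11019) (nat_lit 14) (nat_lit 10))
    (@En.i (nat_lit 1229) (nat_lit 8) (nat_lit 13))
    (@En.i (nat_lit 12492) (nat_lit 8) (nat_lit 3))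
    (@En.n l649 (nat_lit 9223) (nat_lit 10) (nat_lit 12))
    (@En.i (nat_lit 12113) (nat_lit 10) (nat_lit 4))
    (@En.i (nat_lit 12669) (nat_lit 12) (nat_lit 13))
    (@En.n l1900 (nat_lit 10124) (nat_lit 13) (nat_lit 6))
    (@En.i (nat_lit 10942) (nat_lit 14) (nat_lit 6))
    (@En.i (nat_lit 11892) (nat_lit 10) (nat_lit 12))
    (@En.n l17 (nat_lit 12491) (nat_lit 15) (nat_lit 2))))
  (@Cl.mk (nat_lit 0x2000b00060006000d000b00050003000d000a00050003000a000a000e0006) (nat_lit 0x500a70087003330) (nat_lit 16) Lb.e (@T16.mk En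
    (@En.i (nat_lit 12455) (nat_lit 7) (nat_lit 6))
    (@En.i (nat_lit 8328) (nat_lit 1) (nat_lit 14))
    (@En.n l97 (nat_lit 12774) (nat_lit 2) (nat_lit 10))
    (@En.n l10703 (nat_lit 9776) (nat_lit 3) (nat_lit 10))
    (@En.n l50 (nat_lit 12490) (nat_lit 4) (nat_lit 3))
    (@En.n l6001 (nat_lit 4848) (nat_lit 5) (nat_lit 5))
    (@En.n l217 (nat_lit 11020) (nat_lit 14) (nat_lit 10))
    (@En.n l27228 (nat_lit 5686) (nat_lit 8) (nat_lit 13))
    (@En.n l28 (nat_lit 12491) (nat_lit 8) (nat_lit 3))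
    (@En.n l6001 (nat_lit 5954) (nat_lit 9) (nat_lit 5))
    (@En.i (nat_lit 10125) (nat_lit 11) (nat_lit 11))
    (@En.n l7155 (nat_lit 12709) (nat_lit 12) (nat_lit 13))
    (@En.n l6170 (nat_lit 12493) (nat_lit 13) (nat_lit 6))
    (@En.n l12857 (nat_lit 8031) (nat_lit 14) (nat_lit 6))
    (@En.n l28988 (nat_lit 8768) (nat_lit 10) (nat_lit 11))
    (@En.n l17 (nat_lit 12492) (nat_lit 15) (nat_lit 2))))
  (@Cl.mk (nat_lit 0x2000c0006000d000b00040003000d000900050003000e000a0002000e0007) (nat_lit 0x70a200840064040) (nat_lit 16) Lb.e (@T16.mk En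
    (@En.n l9812 (nat_lit 12495) (nat_lit 14) (nat_lit 7))
    (@En.n l14754 (nat_lit 8327) (nat_lit 1) (nat_lit 14))
    (@En.n l3 (nat_lit 12493) (nat_lit 2) (nat_lit 2))
    (@En.n l6072 (nat_lit 12492) (nat_lit 3) (nat_lit 10))
    (@En.n l11453 (nat_lit 5798) (nat_lit 1) (nat_lit 14))
    (@En.n l9812 (nat_lit 12487) (nat_lit 5) (nat_lit 3))
    (@En.i (nat_lit 4844) (nat_lit 6) (nat_lit 5))
    (@En.n l3832 (nat_lit 11017) (nat_lit 4) (nat_lit 9))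
    (@En.n l998 (nat_lit 5681) (nat_lit 9) (nat_lit 13))
    (@En.n l14781 (nat_lit 10124) (nat_lit 9) (nat_lit 3))
    (@En.i (nat_lit 12622) (nat_lit 10) (nat_lit 4))
    (@En.n l217 (nat_lit 10120) (nat_lit 12) (nat_lit 11))
    (@En.n l11453 (nat_lit 4150) (nat_lit 13) (nat_lit 13))
    (@En.n l810 (nat_lit 10933) (nat_lit 14) (nat_lit 6))
    (@En.n l29048 (nat_lit 8765) (nat_lit 12) (nat_lit 12))
    (@En.n l11 (nat_lit 12493) (nat_lit 15) (nat_lit 2))))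
  (@Cl.mk (nat_lit 0x200070007000d0005000d0003000b0003000c0009000900050004000e000b) (nat_lit 0x2080402650095) (nat_lit 16) Lb.e (@T16.mk En
    (@En.n l15505 (nat_lit 12450) (nat_lit 9) (nat_lit 11))
    (@En.n l15506 (nat_lit 5799) (nat_lit 1) (nat_lit 14))
    (@En.i (nat_lit 12484) (nat_lit 2) (nat_lit 4))
    (@En.n l5802 (nat_lit 12350) (nat_lit 3) (nat_lit 5))
    (@En.n l742 (nat_lit 10124) (nat_lit 7) (nat_lit 9))
    (@En.n l22944 (nat_lit 12270) (nat_lit 5) (nat_lit 9))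
    (@En.n l5911 (nat_lit 1228) (nat_lit 7) (nat_lit 12))
    (@En.i (nat_lit 12495) (nat_lit 7) (nat_lit 3))
    (@En.i (nat_lit 8966) (nat_lit 9) (nat_lit 11))
    (@En.i (nat_lit 12398) (nat_lit 9) (nat_lit 3))
    (@En.n l18627 (nat_lit 4159) (nat_lit 11) (nat_lit 13))
    (@En.n l117 (nat_lit 10929) (nat_lit 12) (nat_lit 5))
    (@En.n l7018 (nat_lit 12651) (nat_lit 13) (nat_lit 13))
    (@En.n l1778 (nat_lit 12751) (nat_lit 9) (nat_lit 7))
    (@En.n l10118 (nat_lit 11841) (nat_lit 4) (nat_lit 7))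
    (@En.n l3 (nat_lit 12494) (nat_lit 15) (nat_lit 2))))
  (@Cl.mk (nat_lit 0x200070007000c0005000d000a00040003000c0009000900060004000e000b) (nat_lit 0x6095008550075) (nat_lit 16) Lb.e (@T16.mk En
    (@En.n l15505 (nat_lit 12455) (nat_lit 9) (nat_lit 11))
    (@En.n l15506 (nat_lit 5719) (nat_lit 1) (nat_lit 14))
    (@En.i (nat_lit 9214) (nat_lit 2) (nat_lit 4))
    (@En.n l2776 (nat_lit 12608) (nat_lit 3) (nat_lit 6))
    (@En.n l15507 (nat_lit 12493) (nat_lit 7) (nat_lit 9))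
    (@En.n l22944 (nat_lit 12598) (nat_lit 5) (nat_lit 9))
    (@En.n l3540 (nat_lit 7790) (nat_lit 7) (nat_lit 12))
    (@En.n l28 (nat_lit 12494) (nat_lit 7) (nat_lit 3))
    (@En.n l2776 (nat_lit 12612) (nat_lit 8) (nat_lit 4))
    (@En.n l6482 (nat_lit 10126) (nat_lit 10) (nat_lit 10))
    (@En.n l18627 (nat_lit 4155) (nat_lit 11) (nat_lit 13))
    (@En.n l117 (nat_lit 10928) (nat_lit 12) (nat_lit 5))
    (@En.n l3540 (nat_lit 12737) (nat_lit 13) (nat_lit 12))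
    (@En.n l11056 (nat_lit 9220) (nat_lit 9) (nat_lit 7))
    (@En.n l10118 (nat_lit 11844) (nat_lit 6) (nat_lit 7))
    (@En.n l3 (nat_lit 12495) (nat_lit 15) (nat_lit 2))))
noncomputable def a781 : T16 Cl := @T16.mk Cl
  (@Cl.mk (nat_lit 0x2000a000e00060002000d000c00060003000d0004000c0003000a000e0004) (nat_lit 0x37004a009090140) (nat_lit 16) Lb.e (@T16.mk En
    (@En.n l28714 (nat_lit 12767) (nat_lit 4) (nat_lit 4))
    (@En.i (nat_lit 4048) (nat_lit 1) (nat_lit 14))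
    (@En.n l4660 (nat_lit 5660) (nat_lit 2) (nat_lit 10))
    (@En.i (nat_lit 12774) (nat_lit 3) (nat_lit 3))
    (@En.n l2438 (nat_lit 12631) (nat_lit 0) (nat_lit 12))
    (@En.n l14485 (nat_lit 12775) (nat_lit 5) (nat_lit 4))
    (@En.n l1798 (nat_lit 5687) (nat_lit 11) (nat_lit 13))
    (@En.n l28 (nat_lit 12497) (nat_lit 7) (nat_lit 3))
    (@En.n l2438 (nat_lit 5950) (nat_lit 8) (nat_lit 6))
    (@En.n l77 (nat_lit 12770) (nat_lit 10) (nat_lit 12))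
    (@En.n l14731 (nat_lit 12714) (nat_lit 11) (nat_lit 13))
    (@En.n l67 (nat_lit 12496) (nat_lit 11) (nat_lit 2))
    (@En.n l107 (nat_lit 12490) (nat_lit 13) (nat_lit 6))
    (@En.n l4660 (nat_lit 2856) (nat_lit 1) (nat_lit 14))
    (@En.n l1236 (nat_lit 9282) (nat_lit 2) (nat_lit 10))
    (@En.n l17 (nat_lit 12496) (nat_lit 15) (nat_lit 2))))
  (@Cl.mk (nat_lit 0x2000b000e00060002000d0005000d0003000d0003000c0003000a000e0004) (nat_lit 0x470040a09090140) (nat_lit 16) Lb.e (@T16.mk En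
    (@En.n l28714 (nat_lit 12766) (nat_lit 4) (nat_lit 4))
    (@En.i (nat_lit 4052) (nat_lit 6) (nat_lit 14))
    (@En.n l4660 (nat_lit 6117) (nat_lit 2) (nat_lit 10))
    (@En.i (nat_lit 12773) (nat_lit 3) (nat_lit 3))
    (@En.n l1865 (nat_lit 12628) (nat_lit 0) (nat_lit 12))
    (@En.i (nat_lit 12770) (nat_lit 5) (nat_lit 3))
    (@En.n l4660 (nat_lit 1285) (nat_lit 11) (nat_lit 13))
    (@En.i (nat_lit 12496) (nat_lit 7) (nat_lit 3))
    (@En.n l1865 (nat_lit 5899) (nat_lit 9) (nat_lit 13))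
    (@En.n l117 (nat_lit 12114) (nat_lit 14) (nat_lit 5))
    (@En.i (nat_lit 12671) (nat_lit 11) (nat_lit 13))
    (@En.n l67 (nat_lit 12497) (nat_lit 11) (nat_lit 2))
    (@En.n l107 (nat_lit 12488) (nat_lit 13) (nat_lit 6))
    (@En.n l4660 (nat_lit 4030) (nat_lit 4) (nat_lit 14))
    (@En.i (nat_lit 11904) (nat_lit 2) (nat_lit 11))
    (@En.n l17 (nat_lit 12497) (nat_lit 15) (nat_lit 2))))
  (@Cl.mk (nat_lit 0x20006000c000a000d000600040003000c0006000d000a00040003000e000a) (nat_lit 0x465000609500b3) (nat_lit 16) Lb.e (@T16.mk En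
    (@En.n l5844 (nat_lit 12062) (nat_lit 14) (nat_lit 10))
    (@En.n l5845 (nat_lit 12303) (nat_lit 1) (nat_lit 14))
    (@En.n l5846 (nat_lit 12035) (nat_lit 2) (nat_lit 3))
    (@En.n l5847 (nat_lit 12500) (nat_lit 3) (nat_lit 4))
    (@En.n l5848 (nat_lit 12245) (nat_lit 4) (nat_lit 10))
    (@En.i (nat_lit 6067) (nat_lit 6) (nat_lit 13))
    (@En.n l5849 (nat_lit 12033) (nat_lit 6) (nat_lit 6))
    (@En.n l5747 (nat_lit 11291) (nat_lit 8) (nat_lit 12))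
    (@En.n l864 (nat_lit 12243) (nat_lit 8) (nat_lit 3))
    (@En.i (nat_lit 12741) (nat_lit 9) (nat_lit 4))
    (@En.n l1993 (nat_lit 10886) (nat_lit 0) (nat_lit 6))
    (@En.n l5850 (nat_lit 3552) (nat_lit 12) (nat_lit 13))
    (@En.n l5308 (nat_lit 12350) (nat_lit 13) (nat_lit 10))
    (@En.n l649 (nat_lit 7913) (nat_lit 14) (nat_lit 12))
    (@En.n l5851 (nat_lit 26) (nat_lit 5) (nat_lit 6))
    (@En.n l7 (nat_lit 12498) (nat_lit 15) (nat_lit 2))))
  (@Cl.mk (nat_lit 0x20007000c0008000d000600040003000c000c0009000800040004000e000a) (nat_lit 0x515000675100b7) (nat_lit 16) Lb.e (@T16.mk En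
    (@En.n l13950 (nat_lit 10337) (nat_lit 13) (nat_lit 10))
    (@En.n l1262 (nat_lit 12319) (nat_lit 1) (nat_lit 14))
    (@En.n l13951 (nat_lit 12506) (nat_lit 2) (nat_lit 4))
    (@En.n l13952 (nat_lit 12498) (nat_lit 3) (nat_lit 4))
    (@En.i (nat_lit 5639) (nat_lit 4) (nat_lit 8))
    (@En.n l13323 (nat_lit 12510) (nat_lit 5) (nat_lit 9))
    (@En.n l13953 (nat_lit 12500) (nat_lit 7) (nat_lit 12))
    (@En.n l13954 (nat_lit 11293) (nat_lit 8) (nat_lit 12))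
    (@En.n l13049 (nat_lit 12501) (nat_lit 8) (nat_lit 3))
    (@En.i (nat_lit 12511) (nat_lit 9) (nat_lit 4))
    (@En.n l13954 (nat_lit 10253) (nat_lit 0) (nat_lit 6))
    (@En.n l13955 (nat_lit 3521) (nat_lit 12) (nat_lit 13))
    (@En.n l50 (nat_lit 10126) (nat_lit 13) (nat_lit 8))
    (@En.n l859 (nat_lit 7484) (nat_lit 14) (nat_lit 12))
    (@En.n l5592 (nat_lit 9247) (nat_lit 5) (nat_lit 7))
    (@En.n l28 (nat_lit 12499) (nat_lit 15) (nat_lit 2))))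
  (@Cl.mk (nat_lit 0x20008000c0009000d000600040003000c00080007000e00040002000e000a) (nat_lit 0x4415000630900b7) (nat_lit 16) Lb.e (@T16.mk En
    (@En.i (nat_lit 10271) (nat_lit 14) (nat_lit 10))
    (@En.i (nat_lit 12317) (nat_lit 1) (nat_lit 14))
    (@En.n l17 (nat_lit 12500) (nat_lit 2) (nat_lit 2))
    (@En.n l14318 (nat_lit 12499) (nat_lit 3) (nat_lit 4))
    (@En.n l6749 (nat_lit 6063) (nat_lit 5) (nat_lit 14))
    (@En.n l6752 (nat_lit 5641) (nat_lit 5) (nat_lit 7))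
    (@En.i (nat_lit 12519) (nat_lit 6) (nat_lit 8))
    (@En.n l6753 (nat_lit 11285) (nat_lit 8) (nat_lit 12))
    (@En.n l6752 (nat_lit 12502) (nat_lit 8) (nat_lit 3))
    (@En.n l11 (nat_lit 12809) (nat_lit 9) (nat_lit 4))
    (@En.n l6753 (nat_lit 10877) (nat_lit 7) (nat_lit 6))
    (@En.i (nat_lit 3519) (nat_lit 12) (nat_lit 13))
    (@En.n l55 (nat_lit 10122) (nat_lit 13) (nat_lit 9))
    (@En.i (nat_lit 7922) (nat_lit 14) (nat_lit 12))
    (@En.n l615 (nat_lit 12731) (nat_lit 12) (nat_lit 8))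
    (@En.n l3 (nat_lit 12500) (nat_lit 15) (nat_lit 2))))
  (@Cl.mk (nat_lit 0x20007000d0008000d000300070003000c000c0009000800040004000e0009) (nat_lit 0x814000574100b3) (nat_lit 16) Lb.e (@T16.mk En
    (@En.n l982 (nat_lit 10338) (nat_lit 5) (nat_lit 9))
    (@En.n l2440 (nat_lit 12315) (nat_lit 1) (nat_lit 14))
    (@En.n l152 (nat_lit 12505) (nat_lit 2) (nat_lit 4))
    (@En.n l146 (nat_lit 12243) (nat_lit 3) (nat_lit 4))
    (@En.n l681 (nat_lit 5644) (nat_lit 4) (nat_lit 8))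
    (@En.n l97 (nat_lit 12242) (nat_lit 5) (nat_lit 9))
    (@En.n l148 (nat_lit 12502) (nat_lit 7) (nat_lit 12))
    (@En.n l5165 (nat_lit 10351) (nat_lit 8) (nat_lit 12))
    (@En.n l7400 (nat_lit 12499) (nat_lit 8) (nat_lit 3))
    (@En.i (nat_lit 12803) (nat_lit 0) (nat_lit 7))
    (@En.n l7401 (nat_lit 12503) (nat_lit 10) (nat_lit 3))
    (@En.n l549 (nat_lit 3520) (nat_lit 0) (nat_lit 13))
    (@En.n l7402 (nat_lit 10130) (nat_lit 13) (nat_lit 8))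
    (@En.n l2438 (nat_lit 7927) (nat_lit 14) (nat_lit 13))
    (@En.n l7403 (nat_lit 11836) (nat_lit 3) (nat_lit 7))
    (@En.n l28 (nat_lit 12501) (nat_lit 15) (nat_lit 2))))
  (@Cl.mk (nat_lit 0x20008000d0009000d000300070003000c00080007000e00040002000e0009) (nat_lit 0x481400063090094) (nat_lit 16) Lb.e (@T16.mk En
    (@En.i (nat_lit 11132) (nat_lit 14) (nat_lit 9))
    (@En.i (nat_lit 12316) (nat_lit 1) (nat_lit 14))
    (@En.n l17 (nat_lit 12502) (nat_lit 2) (nat_lit 2))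
    (@En.n l137 (nat_lit 12501) (nat_lit 3) (nat_lit 4))
    (@En.n l5400 (nat_lit 6065) (nat_lit 5) (nat_lit 14))
    (@En.i (nat_lit 5643) (nat_lit 5) (nat_lit 7))
    (@En.i (nat_lit 12516) (nat_lit 6) (nat_lit 8))
    (@En.n l7146 (nat_lit 11013) (nat_lit 8) (nat_lit 12))
    (@En.n l3793 (nat_lit 12500) (nat_lit 8) (nat_lit 3))
    (@En.i (nat_lit 12801) (nat_lit 0) (nat_lit 7))
    (@En.n l2678 (nat_lit 12504) (nat_lit 10) (nat_lit 3))
    (@En.n l135 (nat_lit 3518) (nat_lit 0) (nat_lit 13))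
    (@En.n l11 (nat_lit 10129) (nat_lit 13) (nat_lit 9))
    (@En.n l3793 (nat_lit 7923) (nat_lit 14) (nat_lit 13))
    (@En.i (nat_lit 11909) (nat_lit 12) (nat_lit 8))
    (@En.n l3 (nat_lit 12502) (nat_lit 15) (nat_lit 2))))
  (@Cl.mk (nat_lit 0x20007000d000c0009000300070004000c000c0009000700040004000e0009) (nat_lit 0x861000574000a1) (nat_lit 16) Lb.e (@T16.mk En
    (@En.n l18127 (nat_lit 5311) (nat_lit 5) (nat_lit 9))
    (@En.n l8965 (nat_lit 9639) (nat_lit 1) (nat_lit 14))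
    (@En.n l18128 (nat_lit 12507) (nat_lit 2) (nat_lit 4))
    (@En.n l18129 (nat_lit 12238) (nat_lit 3) (nat_lit 4))
    (@En.i (nat_lit 4593) (nat_lit 4) (nat_lit 7))
    (@En.n l18130 (nat_lit 12234) (nat_lit 5) (nat_lit 9))
    (@En.n l61 (nat_lit 12504) (nat_lit 7) (nat_lit 12))
    (@En.n l18131 (nat_lit 10345) (nat_lit 8) (nat_lit 12))
    (@En.n l18132 (nat_lit 8954) (nat_lit 8) (nat_lit 4))
    (@En.n l117 (nat_lit 8738) (nat_lit 10) (nat_lit 7))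
    (@En.n l10850 (nat_lit 12501) (nat_lit 10) (nat_lit 3))
    (@En.n l1578 (nat_lit 5302) (nat_lit 0) (nat_lit 9))
    (@En.n l17285 (nat_lit 12499) (nat_lit 13) (nat_lit 12))
    (@En.n l18133 (nat_lit 7926) (nat_lit 14) (nat_lit 13))
    (@En.n l18134 (nat_lit 11837) (nat_lit 3) (nat_lit 7))
    (@En.n l3 (nat_lit 12503) (nat_lit 15) (nat_lit 2))))
  (@Cl.mk (nat_lit 0x20008000d000c000a000300070004000c00080006000e00040002000e0009) (nat_lit 0x4751000630900c4) (nat_lit 16) Lb.e (@T16.mk En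
    (@En.n l17372 (nat_lit 11133) (nat_lit 14) (nat_lit 9))
    (@En.i (nat_lit 11139) (nat_lit 1) (nat_lit 14))
    (@En.n l17 (nat_lit 12504) (nat_lit 2) (nat_lit 2))
    (@En.i (nat_lit 12503) (nat_lit 3) (nat_lit 4))
    (@En.n l12039 (nat_lit 6062) (nat_lit 5) (nat_lit 14))
    (@En.i (nat_lit 4595) (nat_lit 5) (nat_lit 6))
    (@En.n l10423 (nat_lit 12517) (nat_lit 6) (nat_lit 8))
    (@En.n l17372 (nat_lit 11588) (nat_lit 8) (nat_lit 12))
    (@En.n l17685 (nat_lit 8951) (nat_lit 8) (nat_lit 4))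
    (@En.n l117 (nat_lit 7773) (nat_lit 6) (nat_lit 7))
    (@En.n l575 (nat_lit 12502) (nat_lit 10) (nat_lit 3))
    (@En.n l11881 (nat_lit 4823) (nat_lit 0) (nat_lit 10))
    (@En.n l7475 (nat_lit 12500) (nat_lit 13) (nat_lit 12))
    (@En.n l17372 (nat_lit 7924) (nat_lit 14) (nat_lit 13))
    (@En.i (nat_lit 12733) (nat_lit 12) (nat_lit 8))
    (@En.n l3 (nat_lit 12504) (nat_lit 15) (nat_lit 2))))
  (@Cl.mk (nat_lit 0x20006000d0007000d000300070003000e000c0002000a00090004000e0009) (nat_lit 0xa04000760530b4) (nat_lit 16) Lb.e (@T16.mk En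
    (@En.n l982 (nat_lit 10335) (nat_lit 11) (nat_lit 9))
    (@En.n l1395 (nat_lit 8172) (nat_lit 1) (nat_lit 14))
    (@En.i (nat_lit 12239) (nat_lit 2) (nat_lit 4))
    (@En.n l5233 (nat_lit 5646) (nat_lit 14) (nat_lit 9))
    (@En.i (nat_lit 12146) (nat_lit 4) (nat_lit 10))
    (@En.n l3 (nat_lit 12505) (nat_lit 5) (nat_lit 2))
    (@En.i (nat_lit 12501) (nat_lit 7) (nat_lit 12))
    (@En.i (nat_lit 4557) (nat_lit 1) (nat_lit 14))
    (@En.n l3129 (nat_lit 12506) (nat_lit 8) (nat_lit 3))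
    (@En.i (nat_lit 12805) (nat_lit 3) (nat_lit 7))
    (@En.n l3129 (nat_lit 12507) (nat_lit 10) (nat_lit 3))
    (@En.i (nat_lit 3522) (nat_lit 0) (nat_lit 13))
    (@En.n l7541 (nat_lit 12508) (nat_lit 13) (nat_lit 7))
    (@En.n l3129 (nat_lit 11221) (nat_lit 8) (nat_lit 13))
    (@En.n l7542 (nat_lit 11163) (nat_lit 8) (nat_lit 6))
    (@En.n l28 (nat_lit 12505) (nat_lit 15) (nat_lit 2))))
  (@Cl.mk (nat_lit 0x20006000c0007000d000600040003000e000c0002000a00090004000e000a) (nat_lit 0x805000770630b7) (nat_lit 16) Lb.e (@T16.mk En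
    (@En.n l6539 (nat_lit 10334) (nat_lit 11) (nat_lit 10))
    (@En.n l1253 (nat_lit 8174) (nat_lit 1) (nat_lit 14))
    (@En.n l117 (nat_lit 12244) (nat_lit 2) (nat_lit 4))
    (@En.n l2593 (nat_lit 5645) (nat_lit 14) (nat_lit 9))
    (@En.i (nat_lit 12144) (nat_lit 4) (nat_lit 10))
    (@En.n l3 (nat_lit 12506) (nat_lit 5) (nat_lit 2))
    (@En.n l2593 (nat_lit 12499) (nat_lit 7) (nat_lit 12))
    (@En.i (nat_lit 12509) (nat_lit 1) (nat_lit 14))
    (@En.n l2513 (nat_lit 12505) (nat_lit 8) (nat_lit 3))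
    (@En.i (nat_lit 12808) (nat_lit 9) (nat_lit 4))
    (@En.n l15179 (nat_lit 10248) (nat_lit 4) (nat_lit 6))
    (@En.n l6727 (nat_lit 3523) (nat_lit 12) (nat_lit 13))
    (@En.n l387 (nat_lit 12286) (nat_lit 13) (nat_lit 7))
    (@En.i (nat_lit 7478) (nat_lit 8) (nat_lit 12))
    (@En.n l766 (nat_lit 11165) (nat_lit 8) (nat_lit 6))
    (@En.n l28 (nat_lit 12506) (nat_lit 15) (nat_lit 2))))
  (@Cl.mk (nat_lit 0x20006000d000c0008000300070004000e000c0002000a00080004000e0009) (nat_lit 0xb91000760510a4) (nat_lit 16) Lb.e (@T16.mk En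
    (@En.n l16070 (nat_lit 10336) (nat_lit 11) (nat_lit 9))
    (@En.n l1253 (nat_lit 8173) (nat_lit 1) (nat_lit 14))
    (@En.n l16071 (nat_lit 12235) (nat_lit 2) (nat_lit 4))
    (@En.n l16072 (nat_lit 4594) (nat_lit 14) (nat_lit 8))
    (@En.n l16073 (nat_lit 12233) (nat_lit 4) (nat_lit 10))
    (@En.n l3 (nat_lit 12507) (nat_lit 5) (nat_lit 2))
    (@En.n l16074 (nat_lit 12503) (nat_lit 7) (nat_lit 12))
    (@En.n l16075 (nat_lit 4556) (nat_lit 8) (nat_lit 14))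
    (@En.i (nat_lit 8558) (nat_lit 8) (nat_lit 4))
    (@En.n l16072 (nat_lit 8743) (nat_lit 3) (nat_lit 7))
    (@En.n l16076 (nat_lit 12505) (nat_lit 10) (nat_lit 3))
    (@En.n l16077 (nat_lit 4765) (nat_lit 0) (nat_lit 8))
    (@En.n l217 (nat_lit 12506) (nat_lit 13) (nat_lit 12))
    (@En.i (nat_lit 11222) (nat_lit 8) (nat_lit 13))
    (@En.n l766 (nat_lit 11161) (nat_lit 8) (nat_lit 6))
    (@En.n l28 (nat_lit 12507) (nat_lit 15) (nat_lit 2))))
  (@Cl.mk (nat_lit 0x200070007000d000800060003000e000b00020009000900080005000e000a) (nat_lit 0x35008505720a3) (nat_lit 16) Lb.e (@T16.mk En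
    (@En.n l6541 (nat_lit 12274) (nat_lit 10) (nat_lit 10))
    (@En.n l6542 (nat_lit 1633) (nat_lit 1) (nat_lit 14))
    (@En.n l6543 (nat_lit 5312) (nat_lit 2) (nat_lit 5))
    (@En.n l6544 (nat_lit 12507) (nat_lit 3) (nat_lit 8))
    (@En.n l644 (nat_lit 12512) (nat_lit 14) (nat_lit 9))
    (@En.n l6545 (nat_lit 12226) (nat_lit 5) (nat_lit 9))
    (@En.n l3 (nat_lit 12508) (nat_lit 6) (nat_lit 2))
    (@En.n l649 (nat_lit 10130) (nat_lit 8) (nat_lit 11))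
    (@En.n l6546 (nat_lit 5040) (nat_lit 1) (nat_lit 14))
    (@En.n l2364 (nat_lit 12286) (nat_lit 9) (nat_lit 3))
    (@En.n l6547 (nat_lit 12618) (nat_lit 3) (nat_lit 6))
    (@En.n l698 (nat_lit 5729) (nat_lit 12) (nat_lit 8))
    (@En.n l6548 (nat_lit 9237) (nat_lit 13) (nat_lit 13))
    (@En.n l6549 (nat_lit 11637) (nat_lit 14) (nat_lit 7))
    (@En.n l6550 (nat_lit 11287) (nat_lit 7) (nat_lit 7))
    (@En.n l28 (nat_lit 12508) (nat_lit 15) (nat_lit 2))))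
  (@Cl.mk (nat_lit 0x20006000a00090005000e000a00020006000c0007000a00060004000e000b) (nat_lit 0x66043009050067) (nat_lit 16) Lb.e (@T16.mk En
    (@En.n l6535 (nat_lit 7928) (nat_lit 8) (nat_lit 11))
    (@En.n l6536 (nat_lit 4555) (nat_lit 9) (nat_lit 14))
    (@En.i (nat_lit 8553) (nat_lit 2) (nat_lit 4))
    (@En.n l6537 (nat_lit 10242) (nat_lit 3) (nat_lit 6))
    (@En.n l6538 (nat_lit 12759) (nat_lit 12) (nat_lit 10))
    (@En.n l387 (nat_lit 4764) (nat_lit 5) (nat_lit 7))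
    (@En.i (nat_lit 7479) (nat_lit 7) (nat_lit 12))
    (@En.n l766 (nat_lit 12264) (nat_lit 7) (nat_lit 6))
    (@En.n l28 (nat_lit 12509) (nat_lit 8) (nat_lit 2))
    (@En.n l6539 (nat_lit 11223) (nat_lit 10) (nat_lit 10))
    (@En.n l1253 (nat_lit 8175) (nat_lit 11) (nat_lit 14))
    (@En.n l6540 (nat_lit 12792) (nat_lit 2) (nat_lit 5))
    (@En.n l2593 (nat_lit 11222) (nat_lit 13) (nat_lit 9))
    (@En.n l1738 (nat_lit 12507) (nat_lit 4) (nat_lit 10))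
    (@En.i (nat_lit 11459) (nat_lit 5) (nat_lit 6))
    (@En.n l3 (nat_lit 12509) (nat_lit 15) (nat_lit 2))))
  (@Cl.mk (nat_lit 0x200070005000c0009000d000700040003000d000900070003000b000e0009) (nat_lit 0x55600044002a4) (nat_lit 16) Lb.e (@T16.mk En
    (@En.n l24051 (nat_lit 10924) (nat_lit 13) (nat_lit 9))
    (@En.i (nat_lit 12340) (nat_lit 4) (nat_lit 14))
    (@En.n l27720 (nat_lit 12142) (nat_lit 2) (nat_lit 11))
    (@En.n l27721 (nat_lit 12245) (nat_lit 3) (nat_lit 3))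
    (@En.i (nat_lit 8039) (nat_lit 0) (nat_lit 7))
    (@En.n l27722 (nat_lit 8056) (nat_lit 5) (nat_lit 9))
    (@En.n l15021 (nat_lit 12793) (nat_lit 7) (nat_lit 13))
    (@En.n l27723 (nat_lit 12242) (nat_lit 7) (nat_lit 3))
    (@En.n l8429 (nat_lit 12747) (nat_lit 8) (nat_lit 4))
    (@En.n l3213 (nat_lit 12026) (nat_lit 10) (nat_lit 7))
    (@En.n l27724 (nat_lit 3545) (nat_lit 11) (nat_lit 13))
    (@En.i (nat_lit 12644) (nat_lit 12) (nat_lit 9))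
    (@En.n l1918 (nat_lit 7551) (nat_lit 13) (nat_lit 12))
    (@En.n l5288 (nat_lit 12244) (nat_lit 14) (nat_lit 5))
    (@En.n l27725 (nat_lit 11828) (nat_lit 6) (nat_lit 7))
    (@En.n l17 (nat_lit 12510) (nat_lit 15) (nat_lit 2))))
  (@Cl.mk (nat_lit 0x20007000c00040009000e00040002000c000c0009000700040004000e000c) (nat_lit 0x10250077700088) (nat_lit 16) Lb.e (@T16.mk En
    (@En.n l649 (nat_lit 12771) (nat_lit 8) (nat_lit 12))
    (@En.n l27772 (nat_lit 10996) (nat_lit 1) (nat_lit 14))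
    (@En.n l13951 (nat_lit 12808) (nat_lit 2) (nat_lit 4))
    (@En.n l13952 (nat_lit 12741) (nat_lit 3) (nat_lit 4))
    (@En.i (nat_lit 4517) (nat_lit 4) (nat_lit 7))
    (@En.n l27773 (nat_lit 12747) (nat_lit 5) (nat_lit 9))
    (@En.n l27774 (nat_lit 12809) (nat_lit 7) (nat_lit 12))
    (@En.i (nat_lit 9732) (nat_lit 8) (nat_lit 12))
    (@En.n l17 (nat_lit 12511) (nat_lit 8) (nat_lit 2))
    (@En.n l50 (nat_lit 8954) (nat_lit 9) (nat_lit 4))
    (@En.n l27775 (nat_lit 3544) (nat_lit 11) (nat_lit 14))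
    (@En.n l50 (nat_lit 3245) (nat_lit 12) (nat_lit 9))
    (@En.i (nat_lit 12804) (nat_lit 3) (nat_lit 4))
    (@En.n l859 (nat_lit 4069) (nat_lit 14) (nat_lit 12))
    (@En.n l5592 (nat_lit 9245) (nat_lit 5) (nat_lit 7))
    (@En.n l28 (nat_lit 12511) (nat_lit 15) (nat_lit 2))))
noncomputable def a782 : T16 Cl := @T16.mk Cl
  (@Cl.mk (nat_lit 0x2000900070004000e00090002000e00070002000d000900070003000e000c) (nat_lit 0x600970900460085) (nat_lit 16) Lb.e (@T16.mk En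
    (@En.n l649 (nat_lit 10103) (nat_lit 10) (nat_lit 12))
    (@En.n l6546 (nat_lit 5041) (nat_lit 1) (nat_lit 14))
    (@En.n l2364 (nat_lit 12287) (nat_lit 2) (nat_lit 3))
    (@En.n l15970 (nat_lit 11061) (nat_lit 3) (nat_lit 7))
    (@En.n l698 (nat_lit 5728) (nat_lit 4) (nat_lit 9))
    (@En.n l9807 (nat_lit 9236) (nat_lit 6) (nat_lit 13))
    (@En.n l50 (nat_lit 12512) (nat_lit 6) (nat_lit 2))
    (@En.i (nat_lit 12508) (nat_lit 14) (nat_lit 7))
    (@En.n l9807 (nat_lit 7687) (nat_lit 1) (nat_lit 14))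
    (@En.n l28 (nat_lit 12512) (nat_lit 9) (nat_lit 2))
    (@En.n l15971 (nat_lit 10101) (nat_lit 11) (nat_lit 9))
    (@En.n l15972 (nat_lit 1652) (nat_lit 1) (nat_lit 14))
    (@En.n l9807 (nat_lit 12396) (nat_lit 5) (nat_lit 4))
    (@En.i (nat_lit 4888) (nat_lit 14) (nat_lit 7))
    (@En.n l6545 (nat_lit 12219) (nat_lit 4) (nat_lit 9))
    (@En.n l3 (nat_lit 12512) (nat_lit 15) (nat_lit 2))))
  (@Cl.mk (nat_lit 0x20008000800070005000d000b000a000300080008000500090006000e000b) (nat_lit 0x410085405403063) (nat_lit 16) Lb.e (@T16.mk En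
    (@En.n l10385 (nat_lit 10930) (nat_lit 9) (nat_lit 11))
    (@En.n l6444 (nat_lit 6196) (nat_lit 1) (nat_lit 14))
    (@En.n l9454 (nat_lit 12524) (nat_lit 2) (nat_lit 6))
    (@En.i (nat_lit 5799) (nat_lit 3) (nat_lit 9))
    (@En.n l24100 (nat_lit 10530) (nat_lit 4) (nat_lit 5))
    (@En.n l23974 (nat_lit 12517) (nat_lit 8) (nat_lit 8))
    (@En.n l10385 (nat_lit 11293) (nat_lit 6) (nat_lit 8))
    (@En.n l4032 (nat_lit 12514) (nat_lit 7) (nat_lit 3))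
    (@En.n l725 (nat_lit 12508) (nat_lit 0) (nat_lit 10))
    (@En.n l9403 (nat_lit 12521) (nat_lit 10) (nat_lit 11))
    (@En.n l24067 (nat_lit 3134) (nat_lit 11) (nat_lit 13))
    (@En.n l10385 (nat_lit 12004) (nat_lit 3) (nat_lit 5))
    (@En.n l396 (nat_lit 10247) (nat_lit 13) (nat_lit 7))
    (@En.n l644 (nat_lit 8165) (nat_lit 8) (nat_lit 8))
    (@En.n l24101 (nat_lit 11117) (nat_lit 6) (nat_lit 8))
    (@En.n l3 (nat_lit 12513) (nat_lit 15) (nat_lit 2))))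
  (@Cl.mk (nat_lit 0x20008000800070005000d0009000c000300080008000400090007000e000b) (nat_lit 0x410082504303061) (nat_lit 16) Lb.e (@T16.mk En
    (@En.n l10625 (nat_lit 8059) (nat_lit 9) (nat_lit 11))
    (@En.n l3819 (nat_lit 6481) (nat_lit 1) (nat_lit 14))
    (@En.n l10626 (nat_lit 12515) (nat_lit 2) (nat_lit 7))
    (@En.n l10627 (nat_lit 5719) (nat_lit 3) (nat_lit 9))
    (@En.n l10628 (nat_lit 7549) (nat_lit 4) (nat_lit 4))
    (@En.n l10629 (nat_lit 12516) (nat_lit 8) (nat_lit 8))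
    (@En.i (nat_lit 11672) (nat_lit 6) (nat_lit 8))
    (@En.n l10630 (nat_lit 12513) (nat_lit 7) (nat_lit 3))
    (@En.n l2038 (nat_lit 4143) (nat_lit 0) (nat_lit 12))
    (@En.n l10631 (nat_lit 11746) (nat_lit 10) (nat_lit 9))
    (@En.n l10632 (nat_lit 3136) (nat_lit 11) (nat_lit 13))
    (@En.n l6562 (nat_lit 12018) (nat_lit 3) (nat_lit 5))
    (@En.i (nat_lit 10245) (nat_lit 13) (nat_lit 7))
    (@En.n l10633 (nat_lit 8162) (nat_lit 8) (nat_lit 8))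
    (@En.n l10634 (nat_lit 11114) (nat_lit 6) (nat_lit 8))
    (@En.n l50 (nat_lit 12514) (nat_lit 15) (nat_lit 2))))
  (@Cl.mk (nat_lit 0x200070007000c0005000c00090004000c00040009000900040007000e000b) (nat_lit 0x4083060570066) (nat_lit 16) Lb.e (@T16.mk En
    (@En.n l24089 (nat_lit 10997) (nat_lit 13) (nat_lit 11))
    (@En.n l2125 (nat_lit 9351) (nat_lit 1) (nat_lit 14))
    (@En.n l24090 (nat_lit 12762) (nat_lit 11) (nat_lit 7))
    (@En.n l7615 (nat_lit 7546) (nat_lit 3) (nat_lit 4))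
    (@En.n l1504 (nat_lit 12518) (nat_lit 7) (nat_lit 9))
    (@En.n l253 (nat_lit 7551) (nat_lit 5) (nat_lit 9))
    (@En.n l9659 (nat_lit 12524) (nat_lit 6) (nat_lit 4))
    (@En.n l24091 (nat_lit 12514) (nat_lit 8) (nat_lit 12))
    (@En.n l24092 (nat_lit 5297) (nat_lit 8) (nat_lit 4))
    (@En.n l9659 (nat_lit 11745) (nat_lit 10) (nat_lit 9))
    (@En.n l1504 (nat_lit 3135) (nat_lit 11) (nat_lit 12))
    (@En.n l23814 (nat_lit 12021) (nat_lit 12) (nat_lit 5))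
    (@En.n l9659 (nat_lit 7095) (nat_lit 13) (nat_lit 12))
    (@En.n l17025 (nat_lit 8161) (nat_lit 9) (nat_lit 7))
    (@En.n l14603 (nat_lit 11119) (nat_lit 7) (nat_lit 7))
    (@En.n l28 (nat_lit 12515) (nat_lit 15) (nat_lit 2))))
  (@Cl.mk (nat_lit 0x200080006000d000a000d00030008000300080006000e000a0002000e0008) (nat_lit 0x5012502020210a5) (nat_lit 16) Lb.e (@T16.mk En
    (@En.n l360 (nat_lit 12514) (nat_lit 14) (nat_lit 8))
    (@En.n l1037 (nat_lit 12324) (nat_lit 1) (nat_lit 14))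
    (@En.n l17 (nat_lit 12516) (nat_lit 2) (nat_lit 2))
    (@En.n l3789 (nat_lit 8052) (nat_lit 3) (nat_lit 10))
    (@En.n l3790 (nat_lit 6479) (nat_lit 5) (nat_lit 14))
    (@En.n l3791 (nat_lit 12518) (nat_lit 5) (nat_lit 6))
    (@En.n l3792 (nat_lit 5717) (nat_lit 6) (nat_lit 8))
    (@En.n l3793 (nat_lit 12519) (nat_lit 7) (nat_lit 3))
    (@En.n l3794 (nat_lit 11666) (nat_lit 0) (nat_lit 8))
    (@En.n l686 (nat_lit 12517) (nat_lit 9) (nat_lit 3))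
    (@En.n l3795 (nat_lit 2029) (nat_lit 0) (nat_lit 13))
    (@En.n l11 (nat_lit 11750) (nat_lit 12) (nat_lit 10))
    (@En.n l3796 (nat_lit 3137) (nat_lit 13) (nat_lit 13))
    (@En.i (nat_lit 12243) (nat_lit 14) (nat_lit 6))
    (@En.n l358 (nat_lit 8155) (nat_lit 12) (nat_lit 8))
    (@En.n l3 (nat_lit 12516) (nat_lit 15) (nat_lit 2))))
  (@Cl.mk (nat_lit 0x200080006000d000c000b00030008000400080005000e000a0002000e0008) (nat_lit 0x5016403020240b5) (nat_lit 16) Lb.e (@T16.mk En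
    (@En.n l10642 (nat_lit 12513) (nat_lit 14) (nat_lit 8))
    (@En.n l6456 (nat_lit 12327) (nat_lit 1) (nat_lit 14))
    (@En.n l3 (nat_lit 12517) (nat_lit 2) (nat_lit 2))
    (@En.n l10643 (nat_lit 8058) (nat_lit 3) (nat_lit 10))
    (@En.n l7205 (nat_lit 6478) (nat_lit 5) (nat_lit 14))
    (@En.n l403 (nat_lit 12523) (nat_lit 5) (nat_lit 5))
    (@En.n l10644 (nat_lit 5721) (nat_lit 6) (nat_lit 8))
    (@En.n l10645 (nat_lit 11642) (nat_lit 7) (nat_lit 4))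
    (@En.n l6474 (nat_lit 11251) (nat_lit 5) (nat_lit 8))
    (@En.n l2236 (nat_lit 12516) (nat_lit 9) (nat_lit 3))
    (@En.n l4041 (nat_lit 11637) (nat_lit 0) (nat_lit 11))
    (@En.n l6455 (nat_lit 12519) (nat_lit 12) (nat_lit 12))
    (@En.i (nat_lit 3138) (nat_lit 13) (nat_lit 13))
    (@En.n l4042 (nat_lit 12238) (nat_lit 14) (nat_lit 6))
    (@En.n l1014 (nat_lit 10975) (nat_lit 12) (nat_lit 8))
    (@En.n l11 (nat_lit 12517) (nat_lit 15) (nat_lit 2))))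
  (@Cl.mk (nat_lit 0x2000c0006000c000a0004000d0004000900030006000e000a0002000e0007) (nat_lit 0x702306060066070) (nat_lit 16) Lb.e (@T16.mk En
    (@En.n l1599 (nat_lit 12515) (nat_lit 14) (nat_lit 7))
    (@En.n l10635 (nat_lit 12662) (nat_lit 1) (nat_lit 14))
    (@En.n l11 (nat_lit 12518) (nat_lit 2) (nat_lit 2))
    (@En.n l10636 (nat_lit 8055) (nat_lit 3) (nat_lit 10))
    (@En.n l10637 (nat_lit 11014) (nat_lit 1) (nat_lit 14))
    (@En.n l3760 (nat_lit 12558) (nat_lit 12) (nat_lit 6))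
    (@En.n l10638 (nat_lit 12520) (nat_lit 6) (nat_lit 3))
    (@En.i (nat_lit 11669) (nat_lit 0) (nat_lit 9))
    (@En.n l10639 (nat_lit 12523) (nat_lit 8) (nat_lit 4))
    (@En.n l10588 (nat_lit 12516) (nat_lit 10) (nat_lit 13))
    (@En.n l8806 (nat_lit 6466) (nat_lit 10) (nat_lit 4))
    (@En.n l10640 (nat_lit 11748) (nat_lit 12) (nat_lit 10))
    (@En.n l8807 (nat_lit 3139) (nat_lit 13) (nat_lit 12))
    (@En.n l10641 (nat_lit 12034) (nat_lit 14) (nat_lit 6))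
    (@En.n l8803 (nat_lit 7097) (nat_lit 12) (nat_lit 12))
    (@En.n l7 (nat_lit 12518) (nat_lit 15) (nat_lit 2))))
  (@Cl.mk (nat_lit 0x200080006000c000a000d00070004000300080006000e000a0002000e0009) (nat_lit 0x505260002021063) (nat_lit 16) Lb.e (@T16.mk En
    (@En.i (nat_lit 12521) (nat_lit 14) (nat_lit 9))
    (@En.n l1460 (nat_lit 12320) (nat_lit 1) (nat_lit 14))
    (@En.n l17 (nat_lit 12519) (nat_lit 2) (nat_lit 2))
    (@En.n l6748 (nat_lit 8056) (nat_lit 3) (nat_lit 10))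
    (@En.n l6749 (nat_lit 6480) (nat_lit 5) (nat_lit 14))
    (@En.n l6750 (nat_lit 12520) (nat_lit 5) (nat_lit 6))
    (@En.n l6751 (nat_lit 7720) (nat_lit 6) (nat_lit 8))
    (@En.n l6752 (nat_lit 12516) (nat_lit 7) (nat_lit 3))
    (@En.n l11 (nat_lit 12278) (nat_lit 0) (nat_lit 4))
    (@En.n l6753 (nat_lit 11587) (nat_lit 6) (nat_lit 7))
    (@En.i (nat_lit 2028) (nat_lit 11) (nat_lit 13))
    (@En.n l6754 (nat_lit 12568) (nat_lit 12) (nat_lit 10))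
    (@En.n l6755 (nat_lit 7925) (nat_lit 13) (nat_lit 12))
    (@En.n l6756 (nat_lit 12498) (nat_lit 14) (nat_lit 6))
    (@En.n l58 (nat_lit 8151) (nat_lit 12) (nat_lit 8))
    (@En.n l3 (nat_lit 12519) (nat_lit 15) (nat_lit 2))))
  (@Cl.mk (nat_lit 0x2000c0006000b000a0004000d0008000500030006000e000a0002000e0008) (nat_lit 0x705307200061055) (nat_lit 16) Lb.e (@T16.mk En
    (@En.n l1532 (nat_lit 12522) (nat_lit 14) (nat_lit 8))
    (@En.n l11222 (nat_lit 12653) (nat_lit 1) (nat_lit 14))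
    (@En.n l50 (nat_lit 12520) (nat_lit 2) (nat_lit 2))
    (@En.n l16162 (nat_lit 8057) (nat_lit 3) (nat_lit 10))
    (@En.n l3860 (nat_lit 11015) (nat_lit 1) (nat_lit 14))
    (@En.n l3806 (nat_lit 12554) (nat_lit 12) (nat_lit 6))
    (@En.n l3798 (nat_lit 12518) (nat_lit 6) (nat_lit 3))
    (@En.n l3806 (nat_lit 12276) (nat_lit 0) (nat_lit 5))
    (@En.n l16163 (nat_lit 11619) (nat_lit 5) (nat_lit 8))
    (@En.n l2289 (nat_lit 12519) (nat_lit 10) (nat_lit 13))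
    (@En.n l16164 (nat_lit 6465) (nat_lit 10) (nat_lit 4))
    (@En.i (nat_lit 11713) (nat_lit 12) (nat_lit 10))
    (@En.n l3806 (nat_lit 7924) (nat_lit 13) (nat_lit 11))
    (@En.i (nat_lit 12033) (nat_lit 14) (nat_lit 6))
    (@En.n l1531 (nat_lit 7101) (nat_lit 12) (nat_lit 12))
    (@En.n l3 (nat_lit 12520) (nat_lit 15) (nat_lit 2))))
  (@Cl.mk (nat_lit 0x20009000900070005000b0009000c000700070005000400090007000e000b) (nat_lit 0x2100425000040b7) (nat_lit 16) Lb.e (@T16.mk En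
    (@En.n l8062 (nat_lit 10993) (nat_lit 12) (nat_lit 11))
    (@En.n l6749 (nat_lit 6482) (nat_lit 1) (nat_lit 14))
    (@En.n l16799 (nat_lit 12522) (nat_lit 2) (nat_lit 7))
    (@En.n l8755 (nat_lit 7719) (nat_lit 3) (nat_lit 9))
    (@En.n l16800 (nat_lit 12514) (nat_lit 4) (nat_lit 4))
    (@En.n l16801 (nat_lit 10853) (nat_lit 5) (nat_lit 5))
    (@En.n l152 (nat_lit 12519) (nat_lit 9) (nat_lit 7))
    (@En.n l16802 (nat_lit 11082) (nat_lit 7) (nat_lit 7))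
    (@En.i (nat_lit 2032) (nat_lit 9) (nat_lit 12))
    (@En.n l16803 (nat_lit 11712) (nat_lit 10) (nat_lit 9))
    (@En.n l6755 (nat_lit 7931) (nat_lit 11) (nat_lit 11))
    (@En.n l16804 (nat_lit 12062) (nat_lit 12) (nat_lit 5))
    (@En.n l16805 (nat_lit 10254) (nat_lit 13) (nat_lit 7))
    (@En.n l16806 (nat_lit 8164) (nat_lit 7) (nat_lit 9))
    (@En.n l2848 (nat_lit 9723) (nat_lit 2) (nat_lit 9))
    (@En.n l17 (nat_lit 12521) (nat_lit 15) (nat_lit 2))))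
  (@Cl.mk (nat_lit 0x200080008000c0005000a00090004000c00080008000600040007000e000b) (nat_lit 0x453042064300076) (nat_lit 16) Lb.e (@T16.mk En
    (@En.n l396 (nat_lit 10992) (nat_lit 13) (nat_lit 11))
    (@En.n l4316 (nat_lit 9520) (nat_lit 1) (nat_lit 14))
    (@En.n l18989 (nat_lit 12534) (nat_lit 2) (nat_lit 7))
    (@En.n l14804 (nat_lit 12515) (nat_lit 3) (nat_lit 4))
    (@En.n l28227 (nat_lit 10855) (nat_lit 4) (nat_lit 6))
    (@En.n l1900 (nat_lit 12520) (nat_lit 8) (nat_lit 8))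
    (@En.i (nat_lit 11621) (nat_lit 6) (nat_lit 8))
    (@En.n l22375 (nat_lit 12521) (nat_lit 8) (nat_lit 12))
    (@En.n l31064 (nat_lit 5298) (nat_lit 8) (nat_lit 4))
    (@En.i (nat_lit 11711) (nat_lit 10) (nat_lit 9))
    (@En.n l19511 (nat_lit 7929) (nat_lit 11) (nat_lit 10))
    (@En.i (nat_lit 12061) (nat_lit 12) (nat_lit 5))
    (@En.i (nat_lit 7100) (nat_lit 13) (nat_lit 12))
    (@En.n l17986 (nat_lit 8163) (nat_lit 8) (nat_lit 8))
    (@En.n l28227 (nat_lit 9721) (nat_lit 2) (nat_lit 8))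
    (@En.n l50 (nat_lit 12522) (nat_lit 15) (nat_lit 2))))
  (@Cl.mk (nat_lit 0x2000b0006000c000b000b00050004000900050005000e000a0002000e0007) (nat_lit 0x602640020035040) (nat_lit 16) Lb.e (@T16.mk En
    (@En.n l6509 (nat_lit 12524) (nat_lit 14) (nat_lit 7))
    (@En.n l6510 (nat_lit 12119) (nat_lit 1) (nat_lit 14))
    (@En.n l3 (nat_lit 12523) (nat_lit 2) (nat_lit 2))
    (@En.n l6425 (nat_lit 12257) (nat_lit 3) (nat_lit 10))
    (@En.n l6511 (nat_lit 9514) (nat_lit 1) (nat_lit 14))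
    (@En.n l6512 (nat_lit 12557) (nat_lit 11) (nat_lit 5))
    (@En.n l6513 (nat_lit 11643) (nat_lit 6) (nat_lit 5))
    (@En.n l6514 (nat_lit 7927) (nat_lit 4) (nat_lit 9))
    (@En.i (nat_lit 12525) (nat_lit 8) (nat_lit 4))
    (@En.n l4001 (nat_lit 6467) (nat_lit 9) (nat_lit 5))
    (@En.n l742 (nat_lit 12615) (nat_lit 11) (nat_lit 11))
    (@En.n l6515 (nat_lit 12520) (nat_lit 12) (nat_lit 11))
    (@En.n l7 (nat_lit 2985) (nat_lit 13) (nat_lit 12))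
    (@En.n l4904 (nat_lit 12605) (nat_lit 14) (nat_lit 6))
    (@En.n l6516 (nat_lit 7986) (nat_lit 12) (nat_lit 11))
    (@En.n l11 (nat_lit 12523) (nat_lit 15) (nat_lit 2))))
  (@Cl.mk (nat_lit 0x200070007000b0005000c000a000a000500040009000900060006000e000b) (nat_lit 0x4095400630047) (nat_lit 16) Lb.e (@T16.mk En
    (@En.n l16146 (nat_lit 10998) (nat_lit 10) (nat_lit 11))
    (@En.n l4316 (nat_lit 9505) (nat_lit 1) (nat_lit 14))
    (@En.n l16147 (nat_lit 12561) (nat_lit 10) (nat_lit 6))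
    (@En.n l16148 (nat_lit 12265) (nat_lit 3) (nat_lit 6))
    (@En.n l16149 (nat_lit 12523) (nat_lit 7) (nat_lit 9))
    (@En.n l16150 (nat_lit 7928) (nat_lit 5) (nat_lit 9))
    (@En.n l16151 (nat_lit 12266) (nat_lit 6) (nat_lit 4))
    (@En.n l16152 (nat_lit 5299) (nat_lit 7) (nat_lit 5))
    (@En.n l16153 (nat_lit 12618) (nat_lit 9) (nat_lit 10))
    (@En.i (nat_lit 12522) (nat_lit 10) (nat_lit 10))
    (@En.n l16154 (nat_lit 2982) (nat_lit 11) (nat_lit 12))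
    (@En.n l16155 (nat_lit 12002) (nat_lit 12) (nat_lit 5))
    (@En.i (nat_lit 7985) (nat_lit 13) (nat_lit 11))
    (@En.n l16156 (nat_lit 8171) (nat_lit 9) (nat_lit 7))
    (@En.n l16157 (nat_lit 11125) (nat_lit 7) (nat_lit 7))
    (@En.n l50 (nat_lit 12524) (nat_lit 15) (nat_lit 2))))
  (@Cl.mk (nat_lit 0x2000d0006000c0003000c000c0004000900040004000e000a0002000e0007) (nat_lit 0x502078010077080) (nat_lit 16) Lb.e (@T16.mk En
    (@En.n l9582 (nat_lit 12266) (nat_lit 14) (nat_lit 7))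
    (@En.n l5999 (nat_lit 12116) (nat_lit 1) (nat_lit 14))
    (@En.n l3 (nat_lit 12525) (nat_lit 2) (nat_lit 2))
    (@En.n l15793 (nat_lit 12256) (nat_lit 3) (nat_lit 10))
    (@En.i (nat_lit 6724) (nat_lit 1) (nat_lit 14))
    (@En.n l4927 (nat_lit 12559) (nat_lit 12) (nat_lit 4))
    (@En.n l18 (nat_lit 12571) (nat_lit 6) (nat_lit 4))
    (@En.n l2943 (nat_lit 4670) (nat_lit 4) (nat_lit 9))
    (@En.n l3972 (nat_lit 12518) (nat_lit 8) (nat_lit 4))
    (@En.n l61 (nat_lit 12614) (nat_lit 10) (nat_lit 12))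
    (@En.i (nat_lit 12517) (nat_lit 11) (nat_lit 12))
    (@En.n l4904 (nat_lit 12564) (nat_lit 11) (nat_lit 3))
    (@En.i (nat_lit 3133) (nat_lit 0) (nat_lit 12))
    (@En.n l6458 (nat_lit 12610) (nat_lit 14) (nat_lit 6))
    (@En.n l1014 (nat_lit 8866) (nat_lit 12) (nat_lit 13))
    (@En.n l11 (nat_lit 12525) (nat_lit 15) (nat_lit 2))))
  (@Cl.mk (nat_lit 0x20006000a000e000a00020007000b0006000c0006000a00050004000e0009) (nat_lit 0x7a80030a0400a4) (nat_lit 16) Lb.e (@T16.mk En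
    (@En.i (nat_lit 8015) (nat_lit 5) (nat_lit 9))
    (@En.n l9860 (nat_lit 5030) (nat_lit 1) (nat_lit 14))
    (@En.n l9861 (nat_lit 11330) (nat_lit 2) (nat_lit 4))
    (@En.n l8874 (nat_lit 12540) (nat_lit 8) (nat_lit 5))
    (@En.i (nat_lit 5552) (nat_lit 4) (nat_lit 10))
    (@En.n l9862 (nat_lit 11240) (nat_lit 5) (nat_lit 6))
    (@En.n l8012 (nat_lit 12778) (nat_lit 7) (nat_lit 12))
    (@En.n l9863 (nat_lit 7998) (nat_lit 7) (nat_lit 6))
    (@En.i (nat_lit 7166) (nat_lit 9) (nat_lit 11))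
    (@En.n l9864 (nat_lit 11814) (nat_lit 10) (nat_lit 7))
    (@En.n l11 (nat_lit 12526) (nat_lit 10) (nat_lit 2))
    (@En.n l9865 (nat_lit 8007) (nat_lit 12) (nat_lit 10))
    (@En.n l2038 (nat_lit 6900) (nat_lit 13) (nat_lit 14))
    (@En.n l8689 (nat_lit 12382) (nat_lit 2) (nat_lit 10))
    (@En.n l7457 (nat_lit 11497) (nat_lit 3) (nat_lit 6))
    (@En.n l17 (nat_lit 12526) (nat_lit 15) (nat_lit 2))))
  (@Cl.mk (nat_lit 0x200060006000e000a00020007000e000b00020006000a000a0005000e0009) (nat_lit 0xc1005400850b2) (nat_lit 16) Lb.e (@T16.mk En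
    (@En.n l1115 (nat_lit 12528) (nat_lit 5) (nat_lit 9))
    (@En.n l306 (nat_lit 4778) (nat_lit 11) (nat_lit 14))
    (@En.n l1116 (nat_lit 11334) (nat_lit 2) (nat_lit 5))
    (@En.n l1117 (nat_lit 12529) (nat_lit 13) (nat_lit 10))
    (@En.n l1118 (nat_lit 4887) (nat_lit 4) (nat_lit 10))
    (@En.n l309 (nat_lit 12312) (nat_lit 5) (nat_lit 6))
    (@En.n l3 (nat_lit 12527) (nat_lit 6) (nat_lit 2))
    (@En.n l1119 (nat_lit 12528) (nat_lit 8) (nat_lit 11))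
    (@En.n l1116 (nat_lit 4894) (nat_lit 9) (nat_lit 14))
    (@En.i (nat_lit 12292) (nat_lit 2) (nat_lit 7))
    (@En.n l18 (nat_lit 12527) (nat_lit 10) (nat_lit 2))
    (@En.i (nat_lit 14) (nat_lit 4) (nat_lit 10))
    (@En.i (nat_lit 5039) (nat_lit 13) (nat_lit 14))
    (@En.i (nat_lit 4) (nat_lit 2) (nat_lit 6))
    (@En.n l1120 (nat_lit 11503) (nat_lit 7) (nat_lit 6))
    (@En.n l28 (nat_lit 12527) (nat_lit 15) (nat_lit 2))))
noncomputable def a783 : T16 Cl := @T16.mk Cl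
  (@Cl.mk (nat_lit 0x200070007000e000b00020007000b000b00050009000900050005000e0009) (nat_lit 0xc5003801400b2) (nat_lit 16) Lb.e (@T16.mk En
    (@En.n l3525 (nat_lit 4530) (nat_lit 5) (nat_lit 9))
    (@En.n l3526 (nat_lit 5037) (nat_lit 1) (nat_lit 14))
    (@En.n l3527 (nat_lit 12527) (nat_lit 2) (nat_lit 5))
    (@En.n l7 (nat_lit 12526) (nat_lit 3) (nat_lit 5))
    (@En.n l152 (nat_lit 12531) (nat_lit 10) (nat_lit 9))
    (@En.i (nat_lit 3997) (nat_lit 5) (nat_lit 9))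
    (@En.i (nat_lit 9930) (nat_lit 6) (nat_lit 5))
    (@En.n l644 (nat_lit 12530) (nat_lit 13) (nat_lit 11))
    (@En.i (nat_lit 4884) (nat_lit 9) (nat_lit 11))
    (@En.n l3528 (nat_lit 11998) (nat_lit 10) (nat_lit 7))
    (@En.n l11 (nat_lit 12528) (nat_lit 10) (nat_lit 2))
    (@En.i (nat_lit 4530) (nat_lit 12) (nat_lit 11))
    (@En.n l619 (nat_lit 4963) (nat_lit 13) (nat_lit 14))
    (@En.n l3066 (nat_lit 12527) (nat_lit 9) (nat_lit 7))
    (@En.i (nat_lit 11500) (nat_lit 3) (nat_lit 7))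
    (@En.n l17 (nat_lit 12528) (nat_lit 15) (nat_lit 2))))
  (@Cl.mk (nat_lit 0x20006000a0004000e00080002000e00060002000e000a00020008000e000c) (nat_lit 0x40a50700320559) (nat_lit 16) Lb.e (@T16.mk En
    (@En.n l644 (nat_lit 12531) (nat_lit 13) (nat_lit 12))
    (@En.n l1337 (nat_lit 4900) (nat_lit 1) (nat_lit 14))
    (@En.n l564 (nat_lit 12296) (nat_lit 2) (nat_lit 8))
    (@En.n l11 (nat_lit 12529) (nat_lit 3) (nat_lit 2))
    (@En.n l3641 (nat_lit 12555) (nat_lit 4) (nat_lit 10))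
    (@En.n l3642 (nat_lit 4924) (nat_lit 1) (nat_lit 14))
    (@En.n l3 (nat_lit 12529) (nat_lit 6) (nat_lit 2))
    (@En.n l3527 (nat_lit 12527) (nat_lit 14) (nat_lit 6))
    (@En.n l3643 (nat_lit 12761) (nat_lit 1) (nat_lit 14))
    (@En.n l17 (nat_lit 12529) (nat_lit 9) (nat_lit 2))
    (@En.n l3644 (nat_lit 12530) (nat_lit 11) (nat_lit 8))
    (@En.n l1342 (nat_lit 4774) (nat_lit 12) (nat_lit 14))
    (@En.n l1337 (nat_lit 12544) (nat_lit 8) (nat_lit 4))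
    (@En.n l3642 (nat_lit 4789) (nat_lit 10) (nat_lit 10))
    (@En.n l3645 (nat_lit 12332) (nat_lit 7) (nat_lit 6))
    (@En.n l50 (nat_lit 12529) (nat_lit 15) (nat_lit 2))))
  (@Cl.mk (nat_lit 0x20007000b000400080008000e00050002000e0009000200080008000e000c) (nat_lit 0x7045600b303675) (nat_lit 16) Lb.e (@T16.mk En
    (@En.n l9927 (nat_lit 12532) (nat_lit 12) (nat_lit 12))
    (@En.n l2038 (nat_lit 4956) (nat_lit 13) (nat_lit 14))
    (@En.n l9928 (nat_lit 12529) (nat_lit 2) (nat_lit 8))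
    (@En.i (nat_lit 11570) (nat_lit 12) (nat_lit 8))
    (@En.n l17 (nat_lit 12530) (nat_lit 4) (nat_lit 2))
    (@En.i (nat_lit 12534) (nat_lit 5) (nat_lit 9))
    (@En.i (nat_lit 4881) (nat_lit 1) (nat_lit 14))
    (@En.n l50 (nat_lit 12530) (nat_lit 7) (nat_lit 2))
    (@En.i (nat_lit 12528) (nat_lit 3) (nat_lit 5))
    (@En.n l476 (nat_lit 12779) (nat_lit 10) (nat_lit 14))
    (@En.n l152 (nat_lit 12533) (nat_lit 11) (nat_lit 8))
    (@En.i (nat_lit 3999) (nat_lit 12) (nat_lit 8))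
    (@En.i (nat_lit 11352) (nat_lit 7) (nat_lit 4))
    (@En.i (nat_lit 4793) (nat_lit 9) (nat_lit 11))
    (@En.n l649 (nat_lit 12336) (nat_lit 6) (nat_lit 7))
    (@En.n l11 (nat_lit 12530) (nat_lit 15) (nat_lit 2))))
  (@Cl.mk (nat_lit 0x20008000c000c0005000900040004000e00080002000e00070002000e000b) (nat_lit 0x4890300a20400c6) (nat_lit 16) Lb.e (@T16.mk En
    (@En.i (nat_lit 12535) (nat_lit 14) (nat_lit 11))
    (@En.i (nat_lit 4920) (nat_lit 1) (nat_lit 14))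
    (@En.n l3 (nat_lit 12531) (nat_lit 2) (nat_lit 2))
    (@En.i (nat_lit 12528) (nat_lit 14) (nat_lit 7))
    (@En.i (nat_lit 12090) (nat_lit 1) (nat_lit 14))
    (@En.n l17 (nat_lit 12531) (nat_lit 5) (nat_lit 2))
    (@En.i (nat_lit 12532) (nat_lit 6) (nat_lit 8))
    (@En.i (nat_lit 5038) (nat_lit 1) (nat_lit 14))
    (@En.i (nat_lit 12529) (nat_lit 12) (nat_lit 4))
    (@En.n l7 (nat_lit 11363) (nat_lit 9) (nat_lit 4))
    (@En.i (nat_lit 4791) (nat_lit 11) (nat_lit 9))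
    (@En.i (nat_lit 9927) (nat_lit 8) (nat_lit 5))
    (@En.n l644 (nat_lit 12533) (nat_lit 13) (nat_lit 12))
    (@En.i (nat_lit 4845) (nat_lit 14) (nat_lit 12))
    (@En.n l564 (nat_lit 12601) (nat_lit 12) (nat_lit 8))
    (@En.n l11 (nat_lit 12531) (nat_lit 15) (nat_lit 2))))
  (@Cl.mk (nat_lit 0x200080008000c000c0006000a0004000400080008000e00060002000e000a) (nat_lit 0x154a030012c00b4) (nat_lit 16) Lb.e (@T16.mk En
    (@En.i (nat_lit 4529) (nat_lit 14) (nat_lit 10))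
    (@En.n l3608 (nat_lit 4916) (nat_lit 1) (nat_lit 14))
    (@En.n l3 (nat_lit 12532) (nat_lit 2) (nat_lit 2))
    (@En.n l3525 (nat_lit 4530) (nat_lit 3) (nat_lit 6))
    (@En.n l7234 (nat_lit 12089) (nat_lit 5) (nat_lit 14))
    (@En.n l22667 (nat_lit 12537) (nat_lit 8) (nat_lit 8))
    (@En.n l22484 (nat_lit 3418) (nat_lit 6) (nat_lit 8))
    (@En.n l3644 (nat_lit 12530) (nat_lit 12) (nat_lit 4))
    (@En.n l7 (nat_lit 11358) (nat_lit 8) (nat_lit 4))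
    (@En.n l3608 (nat_lit 4683) (nat_lit 10) (nat_lit 10))
    (@En.n l8268 (nat_lit 9931) (nat_lit 7) (nat_lit 6))
    (@En.n l644 (nat_lit 12538) (nat_lit 12) (nat_lit 12))
    (@En.n l1353 (nat_lit 3451) (nat_lit 13) (nat_lit 12))
    (@En.n l61 (nat_lit 12531) (nat_lit 14) (nat_lit 8))
    (@En.n l1353 (nat_lit 8072) (nat_lit 12) (nat_lit 8))
    (@En.n l11 (nat_lit 12532) (nat_lit 15) (nat_lit 2))))
  (@Cl.mk (nat_lit 0x20008000c00040008000e00040002000e00080002000e00080002000e000c) (nat_lit 0x4804100a3034083) (nat_lit 16) Lb.e (@T16.mk En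
    (@En.n l1578 (nat_lit 12537) (nat_lit 14) (nat_lit 12))
    (@En.i (nat_lit 4954) (nat_lit 1) (nat_lit 14))
    (@En.n l3 (nat_lit 12533) (nat_lit 2) (nat_lit 2))
    (@En.i (nat_lit 12530) (nat_lit 3) (nat_lit 8))
    (@En.i (nat_lit 8114) (nat_lit 1) (nat_lit 14))
    (@En.n l17 (nat_lit 12533) (nat_lit 5) (nat_lit 2))
    (@En.i (nat_lit 12538) (nat_lit 6) (nat_lit 8))
    (@En.i (nat_lit 4925) (nat_lit 1) (nat_lit 14))
    (@En.n l50 (nat_lit 12533) (nat_lit 8) (nat_lit 2))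
    (@En.i (nat_lit 12531) (nat_lit 9) (nat_lit 4))
    (@En.i (nat_lit 2493) (nat_lit 11) (nat_lit 14))
    (@En.i (nat_lit 4797) (nat_lit 12) (nat_lit 8))
    (@En.i (nat_lit 11361) (nat_lit 9) (nat_lit 4))
    (@En.i (nat_lit 4841) (nat_lit 14) (nat_lit 12))
    (@En.i (nat_lit 12343) (nat_lit 12) (nat_lit 8))
    (@En.n l11 (nat_lit 12533) (nat_lit 15) (nat_lit 2))))
  (@Cl.mk (nat_lit 0x200070007000b000500090009000e000500020009000900070007000e000b) (nat_lit 0x5015700260059) (nat_lit 16) Lb.e (@T16.mk En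
    (@En.n l9927 (nat_lit 4529) (nat_lit 10) (nat_lit 11))
    (@En.n l2038 (nat_lit 4959) (nat_lit 11) (nat_lit 14))
    (@En.n l22810 (nat_lit 12555) (nat_lit 2) (nat_lit 7))
    (@En.n l18316 (nat_lit 8005) (nat_lit 3) (nat_lit 7))
    (@En.n l22811 (nat_lit 12554) (nat_lit 14) (nat_lit 9))
    (@En.n l6042 (nat_lit 4535) (nat_lit 5) (nat_lit 9))
    (@En.n l50 (nat_lit 12534) (nat_lit 6) (nat_lit 2))
    (@En.n l3525 (nat_lit 4530) (nat_lit 7) (nat_lit 5))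
    (@En.n l476 (nat_lit 10996) (nat_lit 9) (nat_lit 14))
    (@En.n l152 (nat_lit 12538) (nat_lit 10) (nat_lit 9))
    (@En.i (nat_lit 3989) (nat_lit 3) (nat_lit 9))
    (@En.i (nat_lit 11353) (nat_lit 4) (nat_lit 5))
    (@En.n l1353 (nat_lit 4531) (nat_lit 13) (nat_lit 11))
    (@En.n l61 (nat_lit 12530) (nat_lit 14) (nat_lit 7))
    (@En.n l649 (nat_lit 11547) (nat_lit 7) (nat_lit 7))
    (@En.n l11 (nat_lit 12534) (nat_lit 15) (nat_lit 2))))
  (@Cl.mk (nat_lit 0x2000b000b0007000b000b00050005000900050005000e00090002000e0007) (nat_lit 0x570880040052080) (nat_lit 16) Lb.e (@T16.mk En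
    (@En.i (nat_lit 4530) (nat_lit 14) (nat_lit 7))
    (@En.i (nat_lit 11557) (nat_lit 1) (nat_lit 14))
    (@En.n l17 (nat_lit 12535) (nat_lit 2) (nat_lit 2))
    (@En.i (nat_lit 4529) (nat_lit 3) (nat_lit 9))
    (@En.i (nat_lit 3179) (nat_lit 1) (nat_lit 14))
    (@En.n l3641 (nat_lit 12555) (nat_lit 11) (nat_lit 5))
    (@En.n l7 (nat_lit 9347) (nat_lit 6) (nat_lit 5))
    (@En.n l117 (nat_lit 4701) (nat_lit 4) (nat_lit 9))
    (@En.n l575 (nat_lit 12531) (nat_lit 11) (nat_lit 5))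
    (@En.i (nat_lit 9923) (nat_lit 9) (nat_lit 5))
    (@En.n l11881 (nat_lit 12537) (nat_lit 11) (nat_lit 11))
    (@En.i (nat_lit 4595) (nat_lit 12) (nat_lit 11))
    (@En.n l4018 (nat_lit 11312) (nat_lit 13) (nat_lit 7))
    (@En.n l17372 (nat_lit 12554) (nat_lit 5) (nat_lit 11))
    (@En.i (nat_lit 4534) (nat_lit 12) (nat_lit 11))
    (@En.n l3 (nat_lit 12535) (nat_lit 15) (nat_lit 2))))
  (@Cl.mk (nat_lit 0x200090009000e00070002000b000b00070007000b000500050009000e0005) (nat_lit 0x224001200800680) (nat_lit 16) Lb.e (@T16.mk En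
    (@En.n l2678 (nat_lit 4529) (nat_lit 5) (nat_lit 5))
    (@En.n l8894 (nat_lit 2702) (nat_lit 7) (nat_lit 14))
    (@En.n l810 (nat_lit 4519) (nat_lit 2) (nat_lit 9))
    (@En.n l28 (nat_lit 12538) (nat_lit 11) (nat_lit 5))
    (@En.i (nat_lit 10787) (nat_lit 4) (nat_lit 5))
    (@En.n l17120 (nat_lit 4591) (nat_lit 11) (nat_lit 11))
    (@En.n l61 (nat_lit 12537) (nat_lit 12) (nat_lit 7))
    (@En.n l3213 (nat_lit 5747) (nat_lit 7) (nat_lit 7))
    (@En.n l26924 (nat_lit 12556) (nat_lit 5) (nat_lit 11))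
    (@En.i (nat_lit 4533) (nat_lit 10) (nat_lit 11))
    (@En.n l3 (nat_lit 12536) (nat_lit 10) (nat_lit 2))
    (@En.n l11108 (nat_lit 4529) (nat_lit 12) (nat_lit 7))
    (@En.n l7405 (nat_lit 10999) (nat_lit 13) (nat_lit 14))
    (@En.n l25084 (nat_lit 12556) (nat_lit 14) (nat_lit 9))
    (@En.n l25085 (nat_lit 4532) (nat_lit 3) (nat_lit 9))
    (@En.n l50 (nat_lit 12536) (nat_lit 15) (nat_lit 2))))
  (@Cl.mk (nat_lit 0x2000c000c0007000b000400040008000e00050002000e00090002000e0008) (nat_lit 0x2307001c00a3052) (nat_lit 16) Lb.e (@T16.mk En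
    (@En.n l11108 (nat_lit 12532) (nat_lit 14) (nat_lit 8))
    (@En.i (nat_lit 8112) (nat_lit 1) (nat_lit 14))
    (@En.n l17 (nat_lit 12537) (nat_lit 2) (nat_lit 2))
    (@En.i (nat_lit 12536) (nat_lit 14) (nat_lit 9))
    (@En.i (nat_lit 4922) (nat_lit 1) (nat_lit 14))
    (@En.n l50 (nat_lit 12537) (nat_lit 5) (nat_lit 2))
    (@En.n l2678 (nat_lit 12535) (nat_lit 6) (nat_lit 5))
    (@En.i (nat_lit 2495) (nat_lit 1) (nat_lit 14))
    (@En.n l810 (nat_lit 3416) (nat_lit 5) (nat_lit 8))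
    (@En.n l28 (nat_lit 12533) (nat_lit 12) (nat_lit 4))
    (@En.i (nat_lit 11362) (nat_lit 10) (nat_lit 4))
    (@En.i (nat_lit 4601) (nat_lit 12) (nat_lit 11))
    (@En.n l3213 (nat_lit 11314) (nat_lit 13) (nat_lit 7))
    (@En.n l5987 (nat_lit 12539) (nat_lit 4) (nat_lit 12))
    (@En.i (nat_lit 3452) (nat_lit 12) (nat_lit 12))
    (@En.n l3 (nat_lit 12537) (nat_lit 15) (nat_lit 2))))
  (@Cl.mk (nat_lit 0x200080008000c00050009000e0004000200080008000e00070002000e000b) (nat_lit 0x5590480023c0062) (nat_lit 16) Lb.e (@T16.mk En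
    (@En.n l1578 (nat_lit 12536) (nat_lit 9) (nat_lit 11))
    (@En.n l1353 (nat_lit 4953) (nat_lit 1) (nat_lit 14))
    (@En.n l3 (nat_lit 12538) (nat_lit 2) (nat_lit 2))
    (@En.i (nat_lit 12534) (nat_lit 3) (nat_lit 7))
    (@En.i (nat_lit 12780) (nat_lit 5) (nat_lit 14))
    (@En.n l14508 (nat_lit 12539) (nat_lit 14) (nat_lit 8))
    (@En.n l6042 (nat_lit 3420) (nat_lit 6) (nat_lit 8))
    (@En.n l50 (nat_lit 12538) (nat_lit 7) (nat_lit 2))
    (@En.i (nat_lit 12532) (nat_lit 8) (nat_lit 4))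
    (@En.n l5926 (nat_lit 3538) (nat_lit 10) (nat_lit 14))
    (@En.i (nat_lit 4798) (nat_lit 2) (nat_lit 9))
    (@En.i (nat_lit 11351) (nat_lit 3) (nat_lit 5))
    (@En.n l1353 (nat_lit 3453) (nat_lit 13) (nat_lit 12))
    (@En.n l61 (nat_lit 12533) (nat_lit 14) (nat_lit 8))
    (@En.n l1353 (nat_lit 8066) (nat_lit 12) (nat_lit 8))
    (@En.n l11 (nat_lit 12538) (nat_lit 15) (nat_lit 2))))
  (@Cl.mk (nat_lit 0x20008000e00060002000e000a0002000e00080002000c0006000a000e0004) (nat_lit 0x2c0053056020710) (nat_lit 16) Lb.e (@T16.mk En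
    (@En.n l4019 (nat_lit 12537) (nat_lit 10) (nat_lit 4))
    (@En.n l1529 (nat_lit 1834) (nat_lit 12) (nat_lit 14))
    (@En.n l1347 (nat_lit 4800) (nat_lit 2) (nat_lit 10))
    (@En.n l23040 (nat_lit 11366) (nat_lit 14) (nat_lit 6))
    (@En.n l7557 (nat_lit 3450) (nat_lit 12) (nat_lit 12))
    (@En.n l7 (nat_lit 12539) (nat_lit 5) (nat_lit 2))
    (@En.n l2140 (nat_lit 12538) (nat_lit 14) (nat_lit 8))
    (@En.n l11757 (nat_lit 12250) (nat_lit 1) (nat_lit 14))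
    (@En.n l11 (nat_lit 12539) (nat_lit 8) (nat_lit 2))
    (@En.n l4691 (nat_lit 12556) (nat_lit 10) (nat_lit 10))
    (@En.n l1347 (nat_lit 5023) (nat_lit 1) (nat_lit 14))
    (@En.n l3 (nat_lit 12539) (nat_lit 11) (nat_lit 2))
    (@En.n l181 (nat_lit 12554) (nat_lit 13) (nat_lit 6))
    (@En.n l1847 (nat_lit 2852) (nat_lit 1) (nat_lit 14))
    (@En.n l13399 (nat_lit 3415) (nat_lit 5) (nat_lit 8))
    (@En.n l17 (nat_lit 12539) (nat_lit 15) (nat_lit 2))))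
  (@Cl.mk (nat_lit 0x20007000b00070007000d000700050003000e0009000200090009000e0009) (nat_lit 0x40060002304664) (nat_lit 16) Lb.e (@T16.mk En
    (@En.n l8768 (nat_lit 9346) (nat_lit 12) (nat_lit 9))
    (@En.n l3324 (nat_lit 11015) (nat_lit 13) (nat_lit 14))
    (@En.n l5649 (nat_lit 11657) (nat_lit 2) (nat_lit 9))
    (@En.n l50 (nat_lit 11453) (nat_lit 3) (nat_lit 9))
    (@En.n l7 (nat_lit 12540) (nat_lit 4) (nat_lit 2))
    (@En.i (nat_lit 11306) (nat_lit 5) (nat_lit 9))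
    (@En.i (nat_lit 2084) (nat_lit 1) (nat_lit 14))
    (@En.i (nat_lit 12541) (nat_lit 7) (nat_lit 3))
    (@En.n l7611 (nat_lit 12530) (nat_lit 8) (nat_lit 5))
    (@En.n l117 (nat_lit 9933) (nat_lit 4) (nat_lit 7))
    (@En.n l8769 (nat_lit 12306) (nat_lit 11) (nat_lit 13))
    (@En.n l8744 (nat_lit 11363) (nat_lit 12) (nat_lit 7))
    (@En.i (nat_lit 7964) (nat_lit 13) (nat_lit 7))
    (@En.n l7611 (nat_lit 4846) (nat_lit 9) (nat_lit 11))
    (@En.n l8770 (nat_lit 12453) (nat_lit 10) (nat_lit 7))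
    (@En.n l3 (nat_lit 12540) (nat_lit 15) (nat_lit 2))))
  (@Cl.mk (nat_lit 0x20007000c00070007000d000400080003000e0009000200090009000e0008) (nat_lit 0x4005030a303584) (nat_lit 16) Lb.e (@T16.mk En
    (@En.n l2984 (nat_lit 12542) (nat_lit 12) (nat_lit 8))
    (@En.n l3659 (nat_lit 11014) (nat_lit 13) (nat_lit 14))
    (@En.n l8738 (nat_lit 11655) (nat_lit 2) (nat_lit 9))
    (@En.n l8739 (nat_lit 11451) (nat_lit 3) (nat_lit 9))
    (@En.n l7 (nat_lit 12541) (nat_lit 4) (nat_lit 2))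
    (@En.n l8740 (nat_lit 11305) (nat_lit 5) (nat_lit 9))
    (@En.n l8741 (nat_lit 1688) (nat_lit 1) (nat_lit 14))
    (@En.n l11 (nat_lit 12540) (nat_lit 7) (nat_lit 3))
    (@En.n l8742 (nat_lit 11357) (nat_lit 3) (nat_lit 8))
    (@En.i (nat_lit 11335) (nat_lit 9) (nat_lit 4))
    (@En.n l8743 (nat_lit 12309) (nat_lit 11) (nat_lit 13))
    (@En.n l8744 (nat_lit 11360) (nat_lit 12) (nat_lit 7))
    (@En.i (nat_lit 6504) (nat_lit 13) (nat_lit 7))
    (@En.n l2989 (nat_lit 10121) (nat_lit 9) (nat_lit 12))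
    (@En.n l8745 (nat_lit 12447) (nat_lit 10) (nat_lit 7))
    (@En.n l3 (nat_lit 12541) (nat_lit 15) (nat_lit 2))))
  (@Cl.mk (nat_lit 0x2000a000a000800080006000c00060006000c0004000800080004000e000a) (nat_lit 0x453504003044024) (nat_lit 16) Lb.e (@T16.mk En
    (@En.n l20769 (nat_lit 11307) (nat_lit 11) (nat_lit 10))
    (@En.i (nat_lit 1694) (nat_lit 1) (nat_lit 14))
    (@En.n l11883 (nat_lit 7974) (nat_lit 2) (nat_lit 4))
    (@En.n l8756 (nat_lit 12541) (nat_lit 8) (nat_lit 8))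
    (@En.n l20770 (nat_lit 7971) (nat_lit 4) (nat_lit 8))
    (@En.i (nat_lit 7723) (nat_lit 5) (nat_lit 4))
    (@En.n l20771 (nat_lit 12291) (nat_lit 7) (nat_lit 12))
    (@En.n l152 (nat_lit 12543) (nat_lit 10) (nat_lit 6))
    (@En.n l17544 (nat_lit 5153) (nat_lit 8) (nat_lit 6))
    (@En.n l7 (nat_lit 10127) (nat_lit 10) (nat_lit 12))
    (@En.n l8760 (nat_lit 11892) (nat_lit 11) (nat_lit 6))
    (@En.n l644 (nat_lit 11343) (nat_lit 8) (nat_lit 8))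
    (@En.n l14477 (nat_lit 9836) (nat_lit 13) (nat_lit 8))
    (@En.n l20772 (nat_lit 12545) (nat_lit 14) (nat_lit 10))
    (@En.i (nat_lit 11478) (nat_lit 12) (nat_lit 10))
    (@En.n l17 (nat_lit 12542) (nat_lit 15) (nat_lit 2))))
  (@Cl.mk (nat_lit 0x2000900090007000d0006000c0003000700070004000e00090002000e000a) (nat_lit 0x460502000014075) (nat_lit 16) Lb.e (@T16.mk En
    (@En.i (nat_lit 12542) (nat_lit 14) (nat_lit 10))
    (@En.i (nat_lit 12288) (nat_lit 1) (nat_lit 14))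
    (@En.n l17 (nat_lit 12543) (nat_lit 2) (nat_lit 2))
    (@En.i (nat_lit 11354) (nat_lit 3) (nat_lit 9))
    (@En.n l2567 (nat_lit 1693) (nat_lit 1) (nat_lit 14))
    (@En.n l10848 (nat_lit 10109) (nat_lit 5) (nat_lit 4))
    (@En.n l3321 (nat_lit 11360) (nat_lit 9) (nat_lit 7))
    (@En.n l8434 (nat_lit 10105) (nat_lit 7) (nat_lit 7))
    (@En.n l2491 (nat_lit 11356) (nat_lit 8) (nat_lit 3))
    (@En.i (nat_lit 2684) (nat_lit 0) (nat_lit 12))
    (@En.n l17544 (nat_lit 5858) (nat_lit 7) (nat_lit 6))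
    (@En.n l7 (nat_lit 10122) (nat_lit 12) (nat_lit 13))
    (@En.i (nat_lit 11895) (nat_lit 13) (nat_lit 7))
    (@En.n l644 (nat_lit 12551) (nat_lit 7) (nat_lit 9))
    (@En.i (nat_lit 8133) (nat_lit 12) (nat_lit 9))
    (@En.n l3 (nat_lit 12543) (nat_lit 15) (nat_lit 2))))
noncomputable def a784 : T16 Cl := @T16.mk Cl
  (@Cl.mk (nat_lit 0x20008000d000c0008000300070004000e00080002000e00080002000e0009) (nat_lit 0x3652000130860c5) (nat_lit 16) Lb.e (@T16.mk En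
    (@En.n l2962 (nat_lit 11356) (nat_lit 14) (nat_lit 9))
    (@En.i (nat_lit 1919) (nat_lit 1) (nat_lit 14))
    (@En.n l3 (nat_lit 12544) (nat_lit 2) (nat_lit 2))
    (@En.n l3610 (nat_lit 11335) (nat_lit 3) (nat_lit 8))
    (@En.n l1162 (nat_lit 11696) (nat_lit 1) (nat_lit 14))
    (@En.n l17 (nat_lit 12544) (nat_lit 5) (nat_lit 2))
    (@En.n l3608 (nat_lit 11352) (nat_lit 6) (nat_lit 8))
    (@En.n l1529 (nat_lit 1697) (nat_lit 1) (nat_lit 14))
    (@En.i (nat_lit 12531) (nat_lit 8) (nat_lit 4))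
    (@En.n l2966 (nat_lit 12335) (nat_lit 6) (nat_lit 7))
    (@En.n l8698 (nat_lit 11360) (nat_lit 10) (nat_lit 3))
    (@En.n l2967 (nat_lit 11657) (nat_lit 0) (nat_lit 8))
    (@En.n l644 (nat_lit 11363) (nat_lit 13) (nat_lit 12))
    (@En.i (nat_lit 10123) (nat_lit 14) (nat_lit 13))
    (@En.n l564 (nat_lit 12348) (nat_lit 12) (nat_lit 8))
    (@En.n l11 (nat_lit 12544) (nat_lit 15) (nat_lit 2))))
  (@Cl.mk (nat_lit 0x2000a000700070005000b000e00060002000c0005000900090004000e000b) (nat_lit 0x400038004036024) (nat_lit 16) Lb.e (@T16.mk En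
    (@En.n l2087 (nat_lit 11653) (nat_lit 9) (nat_lit 11))
    (@En.n l8865 (nat_lit 1702) (nat_lit 1) (nat_lit 14))
    (@En.n l8866 (nat_lit 7973) (nat_lit 2) (nat_lit 4))
    (@En.n l8867 (nat_lit 11655) (nat_lit 7) (nat_lit 9))
    (@En.n l2547 (nat_lit 7966) (nat_lit 4) (nat_lit 9))
    (@En.n l2084 (nat_lit 12546) (nat_lit 14) (nat_lit 5))
    (@En.n l7514 (nat_lit 12294) (nat_lit 7) (nat_lit 12))
    (@En.n l17 (nat_lit 12545) (nat_lit 7) (nat_lit 2))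
    (@En.n l8868 (nat_lit 12542) (nat_lit 8) (nat_lit 6))
    (@En.n l8869 (nat_lit 2912) (nat_lit 4) (nat_lit 14))
    (@En.n l7 (nat_lit 11136) (nat_lit 2) (nat_lit 11))
    (@En.n l2547 (nat_lit 11906) (nat_lit 3) (nat_lit 5))
    (@En.n l8870 (nat_lit 12547) (nat_lit 9) (nat_lit 7))
    (@En.n l2547 (nat_lit 8713) (nat_lit 14) (nat_lit 7))
    (@En.n l8871 (nat_lit 12184) (nat_lit 7) (nat_lit 10))
    (@En.n l11 (nat_lit 12545) (nat_lit 15) (nat_lit 2))))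
  (@Cl.mk (nat_lit 0x20005000900090007000e000b00020009000700070005000b0009000e0007) (nat_lit 0x27024040004290) (nat_lit 16) Lb.e (@T16.mk En
    (@En.n l3077 (nat_lit 7723) (nat_lit 7) (nat_lit 7))
    (@En.n l3078 (nat_lit 12545) (nat_lit 9) (nat_lit 14))
    (@En.i (nat_lit 7975) (nat_lit 10) (nat_lit 9))
    (@En.n l3079 (nat_lit 11134) (nat_lit 3) (nat_lit 11))
    (@En.n l3080 (nat_lit 11907) (nat_lit 4) (nat_lit 5))
    (@En.n l3081 (nat_lit 12548) (nat_lit 5) (nat_lit 7))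
    (@En.n l3082 (nat_lit 8708) (nat_lit 6) (nat_lit 7))
    (@En.n l3083 (nat_lit 10046) (nat_lit 8) (nat_lit 9))
    (@En.n l50 (nat_lit 12546) (nat_lit 8) (nat_lit 2))
    (@En.n l3084 (nat_lit 11654) (nat_lit 10) (nat_lit 11))
    (@En.n l3085 (nat_lit 1701) (nat_lit 11) (nat_lit 14))
    (@En.i (nat_lit 7998) (nat_lit 12) (nat_lit 7))
    (@En.n l3086 (nat_lit 11656) (nat_lit 13) (nat_lit 9))
    (@En.n l3087 (nat_lit 7962) (nat_lit 4) (nat_lit 9))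
    (@En.n l3088 (nat_lit 5785) (nat_lit 13) (nat_lit 5))
    (@En.n l67 (nat_lit 12546) (nat_lit 15) (nat_lit 2))))
  (@Cl.mk (nat_lit 0x20005000e000c0002000b00070004000b000e00050002000b0005000e0009) (nat_lit 0x1506006b003064) (nat_lit 16) Lb.e (@T16.mk En
    (@En.n l8799 (nat_lit 12545) (nat_lit 4) (nat_lit 9))
    (@En.n l3026 (nat_lit 11349) (nat_lit 1) (nat_lit 14))
    (@En.n l3026 (nat_lit 12548) (nat_lit 14) (nat_lit 5))
    (@En.n l7240 (nat_lit 12299) (nat_lit 3) (nat_lit 11))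
    (@En.n l7 (nat_lit 12547) (nat_lit 4) (nat_lit 2))
    (@En.n l2150 (nat_lit 11343) (nat_lit 5) (nat_lit 5))
    (@En.i (nat_lit 2906) (nat_lit 7) (nat_lit 14))
    (@En.n l287 (nat_lit 12837) (nat_lit 8) (nat_lit 11))
    (@En.n l11 (nat_lit 4036) (nat_lit 8) (nat_lit 4))
    (@En.n l8800 (nat_lit 4865) (nat_lit 14) (nat_lit 7))
    (@En.i (nat_lit 12180) (nat_lit 11) (nat_lit 11))
    (@En.n l207 (nat_lit 12547) (nat_lit 11) (nat_lit 2))
    (@En.n l198 (nat_lit 11340) (nat_lit 13) (nat_lit 12))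
    (@En.n l713 (nat_lit 1625) (nat_lit 9) (nat_lit 14))
    (@En.n l3988 (nat_lit 12280) (nat_lit 13) (nat_lit 5))
    (@En.n l3 (nat_lit 12547) (nat_lit 15) (nat_lit 2))))
  (@Cl.mk (nat_lit 0x20005000e000900020008000e000c0002000a00070004000b0008000e0006) (nat_lit 0xa30212060072c0) (nat_lit 16) Lb.e (@T16.mk En
    (@En.n l3197 (nat_lit 12549) (nat_lit 4) (nat_lit 6))
    (@En.n l3198 (nat_lit 12547) (nat_lit 6) (nat_lit 14))
    (@En.n l152 (nat_lit 11349) (nat_lit 6) (nat_lit 8))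
    (@En.n l3199 (nat_lit 12838) (nat_lit 3) (nat_lit 11))
    (@En.n l2563 (nat_lit 4038) (nat_lit 4) (nat_lit 4))
    (@En.n l3200 (nat_lit 7193) (nat_lit 5) (nat_lit 7))
    (@En.n l3201 (nat_lit 12183) (nat_lit 11) (nat_lit 10))
    (@En.n l11 (nat_lit 12548) (nat_lit 7) (nat_lit 2))
    (@En.n l3202 (nat_lit 12550) (nat_lit 9) (nat_lit 12))
    (@En.n l2563 (nat_lit 1626) (nat_lit 10) (nat_lit 14))
    (@En.n l3200 (nat_lit 8164) (nat_lit 11) (nat_lit 8))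
    (@En.n l17 (nat_lit 12548) (nat_lit 11) (nat_lit 2))
    (@En.n l3203 (nat_lit 12546) (nat_lit 13) (nat_lit 9))
    (@En.i (nat_lit 4895) (nat_lit 1) (nat_lit 14))
    (@En.n l3204 (nat_lit 5787) (nat_lit 13) (nat_lit 5))
    (@En.n l50 (nat_lit 12548) (nat_lit 15) (nat_lit 2))))
  (@Cl.mk (nat_lit 0x20007000e000b0002000a000a00080005000c0009000600060004000e0008) (nat_lit 0x320374032000a4) (nat_lit 16) Lb.e (@T16.mk En
    (@En.n l7394 (nat_lit 7723) (nat_lit 4) (nat_lit 8))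
    (@En.n l7489 (nat_lit 4889) (nat_lit 1) (nat_lit 14))
    (@En.n l28 (nat_lit 5791) (nat_lit 2) (nat_lit 4))
    (@En.n l3756 (nat_lit 12552) (nat_lit 3) (nat_lit 6))
    (@En.n l3538 (nat_lit 11318) (nat_lit 8) (nat_lit 6))
    (@En.n l7490 (nat_lit 11348) (nat_lit 5) (nat_lit 9))
    (@En.n l7491 (nat_lit 11641) (nat_lit 7) (nat_lit 12))
    (@En.n l2394 (nat_lit 12650) (nat_lit 7) (nat_lit 5))
    (@En.n l3538 (nat_lit 9155) (nat_lit 13) (nat_lit 8))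
    (@En.n l7408 (nat_lit 12548) (nat_lit 6) (nat_lit 10))
    (@En.i (nat_lit 11081) (nat_lit 11) (nat_lit 10))
    (@En.n l3 (nat_lit 12549) (nat_lit 11) (nat_lit 2))
    (@En.n l7492 (nat_lit 11338) (nat_lit 13) (nat_lit 11))
    (@En.n l3860 (nat_lit 1628) (nat_lit 1) (nat_lit 14))
    (@En.n l7394 (nat_lit 12521) (nat_lit 2) (nat_lit 7))
    (@En.n l50 (nat_lit 12549) (nat_lit 15) (nat_lit 2))))
  (@Cl.mk (nat_lit 0x20005000e000a00020008000c000c0009000600040004000b0008000e0007) (nat_lit 0x34011830007380) (nat_lit 16) Lb.e (@T16.mk En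
    (@En.n l9374 (nat_lit 11338) (nat_lit 4) (nat_lit 7))
    (@En.n l9375 (nat_lit 11340) (nat_lit 6) (nat_lit 14))
    (@En.n l8989 (nat_lit 11346) (nat_lit 6) (nat_lit 8))
    (@En.n l9376 (nat_lit 10039) (nat_lit 3) (nat_lit 11))
    (@En.n l9377 (nat_lit 12548) (nat_lit 4) (nat_lit 4))
    (@En.n l6511 (nat_lit 4040) (nat_lit 5) (nat_lit 4))
    (@En.i (nat_lit 4755) (nat_lit 6) (nat_lit 6))
    (@En.n l2727 (nat_lit 12638) (nat_lit 12) (nat_lit 9))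
    (@En.n l644 (nat_lit 11367) (nat_lit 9) (nat_lit 12))
    (@En.i (nat_lit 7156) (nat_lit 10) (nat_lit 12))
    (@En.n l287 (nat_lit 8167) (nat_lit 11) (nat_lit 8))
    (@En.n l11 (nat_lit 12550) (nat_lit 11) (nat_lit 2))
    (@En.i (nat_lit 11654) (nat_lit 13) (nat_lit 10))
    (@En.n l9378 (nat_lit 4903) (nat_lit 1) (nat_lit 14))
    (@En.i (nat_lit 5788) (nat_lit 2) (nat_lit 5))
    (@En.n l3 (nat_lit 12550) (nat_lit 15) (nat_lit 2))))
  (@Cl.mk (nat_lit 0x20005000e000a0002000e000b000200090006000d0005000b0003000e0007) (nat_lit 0x35085050401040) (nat_lit 16) Lb.e (@T16.mk En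
    (@En.i (nat_lit 12543) (nat_lit 7) (nat_lit 7))
    (@En.n l2492 (nat_lit 12553) (nat_lit 1) (nat_lit 14))
    (@En.i (nat_lit 12552) (nat_lit 2) (nat_lit 3))
    (@En.n l210 (nat_lit 2635) (nat_lit 3) (nat_lit 11))
    (@En.n l3897 (nat_lit 10800) (nat_lit 4) (nat_lit 5))
    (@En.i (nat_lit 11636) (nat_lit 6) (nat_lit 13))
    (@En.n l210 (nat_lit 12646) (nat_lit 6) (nat_lit 6))
    (@En.n l7073 (nat_lit 10015) (nat_lit 12) (nat_lit 9))
    (@En.n l3 (nat_lit 12551) (nat_lit 8) (nat_lit 2))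
    (@En.i (nat_lit 11343) (nat_lit 10) (nat_lit 11))
    (@En.i (nat_lit 12103) (nat_lit 1) (nat_lit 14))
    (@En.n l17 (nat_lit 12551) (nat_lit 11) (nat_lit 2))
    (@En.n l764 (nat_lit 11342) (nat_lit 13) (nat_lit 10))
    (@En.n l2567 (nat_lit 1627) (nat_lit 1) (nat_lit 14))
    (@En.i (nat_lit 12278) (nat_lit 13) (nat_lit 5))
    (@En.n l50 (nat_lit 12551) (nat_lit 15) (nat_lit 2))))
  (@Cl.mk (nat_lit 0x20006000e000a0002000e000a000200090006000d000a00060003000e0007) (nat_lit 0x250a40503300a0) (nat_lit 16) Lb.e (@T16.mk En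
    (@En.n l2491 (nat_lit 11356) (nat_lit 7) (nat_lit 7))
    (@En.n l2492 (nat_lit 4894) (nat_lit 1) (nat_lit 14))
    (@En.n l11 (nat_lit 12551) (nat_lit 2) (nat_lit 3))
    (@En.n l2493 (nat_lit 11648) (nat_lit 3) (nat_lit 6))
    (@En.n l2494 (nat_lit 12553) (nat_lit 4) (nat_lit 10))
    (@En.i (nat_lit 11639) (nat_lit 6) (nat_lit 13))
    (@En.n l59 (nat_lit 7) (nat_lit 6) (nat_lit 6))
    (@En.n l2495 (nat_lit 10011) (nat_lit 12) (nat_lit 9))
    (@En.n l3 (nat_lit 12552) (nat_lit 8) (nat_lit 2))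
    (@En.n l2496 (nat_lit 12549) (nat_lit 10) (nat_lit 10))
    (@En.n l1461 (nat_lit 12104) (nat_lit 1) (nat_lit 14))
    (@En.n l17 (nat_lit 12552) (nat_lit 11) (nat_lit 2))
    (@En.n l2497 (nat_lit 11355) (nat_lit 13) (nat_lit 10))
    (@En.n l383 (nat_lit 1630) (nat_lit 5) (nat_lit 14))
    (@En.i (nat_lit 12519) (nat_lit 5) (nat_lit 6))
    (@En.n l50 (nat_lit 12552) (nat_lit 15) (nat_lit 2))))
  (@Cl.mk (nat_lit 0x200060005000e000a0002000e000b0002000a0006000a0005000b000e0006) (nat_lit 0x4603905020130) (nat_lit 16) Lb.e (@T16.mk En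
    (@En.n l7261 (nat_lit 9347) (nat_lit 8) (nat_lit 6))
    (@En.i (nat_lit 4900) (nat_lit 10) (nat_lit 14))
    (@En.i (nat_lit 2636) (nat_lit 2) (nat_lit 11))
    (@En.i (nat_lit 10799) (nat_lit 3) (nat_lit 5))
    (@En.n l1347 (nat_lit 5123) (nat_lit 4) (nat_lit 10))
    (@En.n l7262 (nat_lit 12565) (nat_lit 5) (nat_lit 6))
    (@En.n l3699 (nat_lit 10614) (nat_lit 12) (nat_lit 10))
    (@En.n l7 (nat_lit 12553) (nat_lit 7) (nat_lit 2))
    (@En.n l644 (nat_lit 11348) (nat_lit 9) (nat_lit 11))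
    (@En.n l1347 (nat_lit 12102) (nat_lit 1) (nat_lit 14))
    (@En.n l11 (nat_lit 12553) (nat_lit 10) (nat_lit 2))
    (@En.i (nat_lit 11347) (nat_lit 12) (nat_lit 10))
    (@En.n l6266 (nat_lit 1982) (nat_lit 13) (nat_lit 14))
    (@En.n l7263 (nat_lit 12551) (nat_lit 14) (nat_lit 5))
    (@En.n l6524 (nat_lit 12568) (nat_lit 6) (nat_lit 6))
    (@En.n l17 (nat_lit 12553) (nat_lit 15) (nat_lit 2))))
  (@Cl.mk (nat_lit 0x2000900060006000e000a0002000e00070002000b0006000a000a000e0005) (nat_lit 0x500410400608880) (nat_lit 16) Lb.e (@T16.mk En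
    (@En.n l10064 (nat_lit 12535) (nat_lit 9) (nat_lit 5))
    (@En.i (nat_lit 11059) (nat_lit 11) (nat_lit 14))
    (@En.n l1492 (nat_lit 12539) (nat_lit 2) (nat_lit 10))
    (@En.n l10065 (nat_lit 4804) (nat_lit 3) (nat_lit 10))
    (@En.n l10066 (nat_lit 11355) (nat_lit 14) (nat_lit 6))
    (@En.n l8910 (nat_lit 4548) (nat_lit 12) (nat_lit 11))
    (@En.n l7 (nat_lit 12554) (nat_lit 6) (nat_lit 2))
    (@En.n l10067 (nat_lit 12534) (nat_lit 14) (nat_lit 7))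
    (@En.n l10068 (nat_lit 12255) (nat_lit 1) (nat_lit 14))
    (@En.n l11 (nat_lit 12554) (nat_lit 9) (nat_lit 2))
    (@En.n l575 (nat_lit 38) (nat_lit 3) (nat_lit 10))
    (@En.n l182 (nat_lit 5024) (nat_lit 12) (nat_lit 14))
    (@En.n l10069 (nat_lit 15) (nat_lit 5) (nat_lit 6))
    (@En.i (nat_lit 12553) (nat_lit 14) (nat_lit 6))
    (@En.n l10070 (nat_lit 4703) (nat_lit 4) (nat_lit 9))
    (@En.n l17 (nat_lit 12554) (nat_lit 15) (nat_lit 2))))
  (@Cl.mk (nat_lit 0x200060006000a0005000e00090002000e00060002000a000a0007000e000b) (nat_lit 0x8022090011059) (nat_lit 16) Lb.e (@T16.mk En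
    (@En.n l10249 (nat_lit 12535) (nat_lit 11) (nat_lit 11))
    (@En.n l3755 (nat_lit 4897) (nat_lit 1) (nat_lit 14))
    (@En.i (nat_lit 11315) (nat_lit 2) (nat_lit 7))
    (@En.i (nat_lit 15) (nat_lit 6) (nat_lit 10))
    (@En.n l295 (nat_lit 4555) (nat_lit 4) (nat_lit 10))
    (@En.n l50 (nat_lit 12555) (nat_lit 5) (nat_lit 2))
    (@En.n l3241 (nat_lit 14) (nat_lit 6) (nat_lit 6))
    (@En.n l601 (nat_lit 12762) (nat_lit 1) (nat_lit 14))
    (@En.n l28 (nat_lit 12555) (nat_lit 8) (nat_lit 2))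
    (@En.n l10250 (nat_lit 12534) (nat_lit 10) (nat_lit 9))
    (@En.n l10251 (nat_lit 4777) (nat_lit 11) (nat_lit 14))
    (@En.n l1393 (nat_lit 11356) (nat_lit 5) (nat_lit 5))
    (@En.i (nat_lit 4704) (nat_lit 13) (nat_lit 10))
    (@En.n l4318 (nat_lit 12529) (nat_lit 14) (nat_lit 6))
    (@En.n l9264 (nat_lit 11540) (nat_lit 8) (nat_lit 6))
    (@En.n l3 (nat_lit 12555) (nat_lit 15) (nat_lit 2))))
  (@Cl.mk (nat_lit 0x20009000e00060002000a000a000e00070002000b00060006000a000e0005) (nat_lit 0x1b0021400100820) (nat_lit 16) Lb.e (@T16.mk En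
    (@En.n l34257 (nat_lit 12536) (nat_lit 4) (nat_lit 5))
    (@En.n l3881 (nat_lit 2700) (nat_lit 6) (nat_lit 14))
    (@En.i (nat_lit 3406) (nat_lit 2) (nat_lit 10))
    (@En.n l182 (nat_lit 12539) (nat_lit 3) (nat_lit 6))
    (@En.n l34258 (nat_lit 11369) (nat_lit 14) (nat_lit 6))
    (@En.n l34259 (nat_lit 3408) (nat_lit 10) (nat_lit 11))
    (@En.n l7 (nat_lit 12556) (nat_lit 6) (nat_lit 2))
    (@En.n l24629 (nat_lit 12536) (nat_lit 7) (nat_lit 7))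
    (@En.n l33399 (nat_lit 12249) (nat_lit 9) (nat_lit 14))
    (@En.n l34260 (nat_lit 42) (nat_lit 2) (nat_lit 10))
    (@En.n l7262 (nat_lit 3402) (nat_lit 3) (nat_lit 10))
    (@En.n l107 (nat_lit 12556) (nat_lit 11) (nat_lit 2))
    (@En.n l21066 (nat_lit 38) (nat_lit 5) (nat_lit 6))
    (@En.i (nat_lit 2690) (nat_lit 7) (nat_lit 14))
    (@En.n l23808 (nat_lit 3407) (nat_lit 2) (nat_lit 9))
    (@En.n l17 (nat_lit 12556) (nat_lit 15) (nat_lit 2))))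
  (@Cl.mk (nat_lit 0x200060005000a0005000e000a0002000e00060002000a0006000b000e000b) (nat_lit 0x20c5080050217) (nat_lit 16) Lb.e (@T16.mk En
    (@En.n l9135 (nat_lit 12523) (nat_lit 11) (nat_lit 11))
    (@En.n l9136 (nat_lit 15) (nat_lit 4) (nat_lit 14))
    (@En.n l9137 (nat_lit 2987) (nat_lit 2) (nat_lit 11))
    (@En.n l9138 (nat_lit 12297) (nat_lit 14) (nat_lit 6))
    (@En.n l9139 (nat_lit 11029) (nat_lit 4) (nat_lit 10))
    (@En.n l50 (nat_lit 12557) (nat_lit 5) (nat_lit 2))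
    (@En.n l564 (nat_lit 12561) (nat_lit 6) (nat_lit 6))
    (@En.n l7479 (nat_lit 12746) (nat_lit 1) (nat_lit 14))
    (@En.n l28 (nat_lit 12557) (nat_lit 8) (nat_lit 2))
    (@En.n l9140 (nat_lit 12259) (nat_lit 10) (nat_lit 10))
    (@En.n l9141 (nat_lit 11369) (nat_lit 11) (nat_lit 14))
    (@En.n l9142 (nat_lit 11750) (nat_lit 5) (nat_lit 5))
    (@En.i (nat_lit 11221) (nat_lit 13) (nat_lit 10))
    (@En.n l725 (nat_lit 12559) (nat_lit 14) (nat_lit 5))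
    (@En.n l9137 (nat_lit 11541) (nat_lit 8) (nat_lit 6))
    (@En.n l3 (nat_lit 12557) (nat_lit 15) (nat_lit 2))))
  (@Cl.mk (nat_lit 0x20005000a0006000e000a0002000e00060002000b0006000b000a000e0005) (nat_lit 0x404701003024c0) (nat_lit 16) Lb.e (@T16.mk En
    (@En.n l3089 (nat_lit 11062) (nat_lit 9) (nat_lit 5))
    (@En.n l3090 (nat_lit 11063) (nat_lit 11) (nat_lit 14))
    (@En.i (nat_lit 11059) (nat_lit 12) (nat_lit 10))
    (@En.n l3091 (nat_lit 3750) (nat_lit 3) (nat_lit 11))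
    (@En.n l3092 (nat_lit 12104) (nat_lit 4) (nat_lit 6))
    (@En.n l3093 (nat_lit 9582) (nat_lit 12) (nat_lit 11))
    (@En.n l7 (nat_lit 12558) (nat_lit 6) (nat_lit 2))
    (@En.n l3094 (nat_lit 12762) (nat_lit 7) (nat_lit 6))
    (@En.n l3095 (nat_lit 12) (nat_lit 1) (nat_lit 14))
    (@En.n l11 (nat_lit 12558) (nat_lit 9) (nat_lit 2))
    (@En.n l3096 (nat_lit 12255) (nat_lit 11) (nat_lit 10))
    (@En.n l180 (nat_lit 12838) (nat_lit 12) (nat_lit 14))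
    (@En.n l3 (nat_lit 4894) (nat_lit 13) (nat_lit 6))
    (@En.n l3090 (nat_lit 10797) (nat_lit 14) (nat_lit 10))
    (@En.n l3097 (nat_lit 12557) (nat_lit 13) (nat_lit 5))
    (@En.n l17 (nat_lit 12558) (nat_lit 15) (nat_lit 2))))
  (@Cl.mk (nat_lit 0x20005000a0004000e000a0002000e00060002000d0006000b0003000e000c) (nat_lit 0x70b20700501028) (nat_lit 16) Lb.e (@T16.mk En
    (@En.n l8631 (nat_lit 12525) (nat_lit 10) (nat_lit 12))
    (@En.i (nat_lit 12557) (nat_lit 1) (nat_lit 14))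
    (@En.n l11960 (nat_lit 12560) (nat_lit 2) (nat_lit 3))
    (@En.n l644 (nat_lit 2905) (nat_lit 3) (nat_lit 11))
    (@En.n l12862 (nat_lit 12298) (nat_lit 4) (nat_lit 6))
    (@En.n l12863 (nat_lit 8870) (nat_lit 6) (nat_lit 13))
    (@En.n l50 (nat_lit 12559) (nat_lit 6) (nat_lit 2))
    (@En.n l564 (nat_lit 12563) (nat_lit 7) (nat_lit 6))
    (@En.n l7479 (nat_lit 12742) (nat_lit 9) (nat_lit 14))
    (@En.n l28 (nat_lit 12559) (nat_lit 9) (nat_lit 2))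
    (@En.n l9140 (nat_lit 12258) (nat_lit 11) (nat_lit 10))
    (@En.n l12863 (nat_lit 11368) (nat_lit 12) (nat_lit 14))
    (@En.n l12864 (nat_lit 11748) (nat_lit 5) (nat_lit 4))
    (@En.i (nat_lit 5647) (nat_lit 14) (nat_lit 10))
    (@En.n l1643 (nat_lit 11063) (nat_lit 7) (nat_lit 5))
    (@En.n l3 (nat_lit 12559) (nat_lit 15) (nat_lit 2))))
noncomputable def a785 : T16 Cl := @T16.mk Cl
  (@Cl.mk (nat_lit 0x20006000a0004000e00090002000e00060002000d000a00070003000e000c) (nat_lit 0x60910700460068) (nat_lit 16) Lb.e (@T16.mk En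
    (@En.n l2438 (nat_lit 12564) (nat_lit 10) (nat_lit 12))
    (@En.i (nat_lit 12555) (nat_lit 1) (nat_lit 14))
    (@En.n l5567 (nat_lit 12559) (nat_lit 2) (nat_lit 3))
    (@En.i (nat_lit 12387) (nat_lit 3) (nat_lit 7))
    (@En.n l7538 (nat_lit 12557) (nat_lit 4) (nat_lit 10))
    (@En.n l1872 (nat_lit 8929) (nat_lit 6) (nat_lit 13))
    (@En.n l50 (nat_lit 12560) (nat_lit 6) (nat_lit 2))
    (@En.n l7539 (nat_lit 12562) (nat_lit 14) (nat_lit 6))
    (@En.n l3130 (nat_lit 12740) (nat_lit 1) (nat_lit 14))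
    (@En.n l28 (nat_lit 12560) (nat_lit 9) (nat_lit 2))
    (@En.n l982 (nat_lit 8115) (nat_lit 11) (nat_lit 9))
    (@En.n l1395 (nat_lit 11366) (nat_lit 12) (nat_lit 14))
    (@En.n l1393 (nat_lit 11749) (nat_lit 5) (nat_lit 4))
    (@En.i (nat_lit 5649) (nat_lit 14) (nat_lit 10))
    (@En.n l7540 (nat_lit 11069) (nat_lit 7) (nat_lit 6))
    (@En.n l3 (nat_lit 12560) (nat_lit 15) (nat_lit 2))))
  (@Cl.mk (nat_lit 0x200060005000a000a0006000e000b000200060006000a0005000b000e000a) (nat_lit 0x7303600030136) (nat_lit 16) Lb.e (@T16.mk En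
    (@En.n l7268 (nat_lit 12524) (nat_lit 9) (nat_lit 10))
    (@En.n l7269 (nat_lit 12555) (nat_lit 10) (nat_lit 14))
    (@En.i (nat_lit 2972) (nat_lit 2) (nat_lit 11))
    (@En.n l7270 (nat_lit 12290) (nat_lit 3) (nat_lit 5))
    (@En.n l7271 (nat_lit 11011) (nat_lit 13) (nat_lit 10))
    (@En.n l7082 (nat_lit 12566) (nat_lit 5) (nat_lit 6))
    (@En.n l7083 (nat_lit 12268) (nat_lit 6) (nat_lit 6))
    (@En.n l28 (nat_lit 12561) (nat_lit 7) (nat_lit 2))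
    (@En.n l7272 (nat_lit 12083) (nat_lit 9) (nat_lit 11))
    (@En.n l7186 (nat_lit 11347) (nat_lit 10) (nat_lit 14))
    (@En.n l2511 (nat_lit 11677) (nat_lit 2) (nat_lit 6))
    (@En.n l2593 (nat_lit 12557) (nat_lit 12) (nat_lit 10))
    (@En.i (nat_lit 12509) (nat_lit 13) (nat_lit 10))
    (@En.n l17 (nat_lit 12563) (nat_lit 14) (nat_lit 5))
    (@En.n l7189 (nat_lit 11536) (nat_lit 6) (nat_lit 6))
    (@En.n l3 (nat_lit 12561) (nat_lit 15) (nat_lit 2))))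
  (@Cl.mk (nat_lit 0x200060006000d000a00060003000e000b00020006000a000a0005000e000a) (nat_lit 0x34001700670c2) (nat_lit 16) Lb.e (@T16.mk En
    (@En.n l2509 (nat_lit 11555) (nat_lit 10) (nat_lit 10))
    (@En.n l2510 (nat_lit 11355) (nat_lit 11) (nat_lit 14))
    (@En.n l2511 (nat_lit 11685) (nat_lit 2) (nat_lit 5))
    (@En.n l2512 (nat_lit 12560) (nat_lit 13) (nat_lit 10))
    (@En.n l2513 (nat_lit 12505) (nat_lit 4) (nat_lit 10))
    (@En.n l18 (nat_lit 12303) (nat_lit 5) (nat_lit 6))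
    (@En.n l3 (nat_lit 12562) (nat_lit 6) (nat_lit 2))
    (@En.n l2514 (nat_lit 11559) (nat_lit 8) (nat_lit 11))
    (@En.n l2515 (nat_lit 14) (nat_lit 1) (nat_lit 14))
    (@En.n l18 (nat_lit 12563) (nat_lit 2) (nat_lit 3))
    (@En.n l2513 (nat_lit 12389) (nat_lit 3) (nat_lit 6))
    (@En.n l61 (nat_lit 12561) (nat_lit 4) (nat_lit 10))
    (@En.n l2511 (nat_lit 6760) (nat_lit 13) (nat_lit 13))
    (@En.n l2516 (nat_lit 12759) (nat_lit 14) (nat_lit 6))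
    (@En.n l2517 (nat_lit 12347) (nat_lit 7) (nat_lit 6))
    (@En.n l28 (nat_lit 12562) (nat_lit 15) (nat_lit 2))))
  (@Cl.mk (nat_lit 0x20005000a000a0005000e000b000200060006000d0005000b0003000e000b) (nat_lit 0x78082000402047) (nat_lit 16) Lb.e (@T16.mk En
    (@En.i (nat_lit 12266) (nat_lit 8) (nat_lit 11))
    (@En.i (nat_lit 12561) (nat_lit 1) (nat_lit 14))
    (@En.i (nat_lit 12562) (nat_lit 9) (nat_lit 3))
    (@En.i (nat_lit 3020) (nat_lit 3) (nat_lit 11))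
    (@En.n l7081 (nat_lit 12293) (nat_lit 4) (nat_lit 5))
    (@En.n l2511 (nat_lit 6762) (nat_lit 6) (nat_lit 13))
    (@En.n l7082 (nat_lit 12567) (nat_lit 6) (nat_lit 6))
    (@En.n l7083 (nat_lit 12349) (nat_lit 7) (nat_lit 6))
    (@En.n l28 (nat_lit 12563) (nat_lit 8) (nat_lit 2))
    (@En.n l7084 (nat_lit 12084) (nat_lit 10) (nat_lit 11))
    (@En.n l7085 (nat_lit 11342) (nat_lit 11) (nat_lit 14))
    (@En.n l2511 (nat_lit 11680) (nat_lit 2) (nat_lit 5))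
    (@En.n l2593 (nat_lit 12559) (nat_lit 13) (nat_lit 10))
    (@En.i (nat_lit 12506) (nat_lit 4) (nat_lit 10))
    (@En.i (nat_lit 12763) (nat_lit 5) (nat_lit 5))
    (@En.n l3 (nat_lit 12563) (nat_lit 15) (nat_lit 2))))
  (@Cl.mk (nat_lit 0x2000d000b00070003000c000c0005000900040004000e00090002000e0007) (nat_lit 0x470078010091080) (nat_lit 16) Lb.e (@T16.mk En
    (@En.i (nat_lit 11559) (nat_lit 14) (nat_lit 7))
    (@En.n l6029 (nat_lit 12117) (nat_lit 1) (nat_lit 14))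
    (@En.n l17 (nat_lit 12564) (nat_lit 2) (nat_lit 2))
    (@En.n l2900 (nat_lit 8113) (nat_lit 3) (nat_lit 9))
    (@En.n l3786 (nat_lit 6723) (nat_lit 1) (nat_lit 14))
    (@En.n l5361 (nat_lit 12560) (nat_lit 12) (nat_lit 4))
    (@En.i (nat_lit 12570) (nat_lit 6) (nat_lit 4))
    (@En.n l2900 (nat_lit 3630) (nat_lit 4) (nat_lit 9))
    (@En.n l77 (nat_lit 7722) (nat_lit 8) (nat_lit 5))
    (@En.n l601 (nat_lit 12613) (nat_lit 10) (nat_lit 12))
    (@En.n l28 (nat_lit 7720) (nat_lit 11) (nat_lit 12))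
    (@En.n l688 (nat_lit 12525) (nat_lit 11) (nat_lit 3))
    (@En.n l2900 (nat_lit 12390) (nat_lit 0) (nat_lit 7))
    (@En.n l17347 (nat_lit 12523) (nat_lit 14) (nat_lit 11))
    (@En.i (nat_lit 8269) (nat_lit 12) (nat_lit 13))
    (@En.n l3 (nat_lit 12564) (nat_lit 15) (nat_lit 2))))
  (@Cl.mk (nat_lit 0x200060005000d000a00060003000e000c00020006000a0004000b000e000a) (nat_lit 0x31004500808a3) (nat_lit 16) Lb.e (@T16.mk En
    (@En.n l5794 (nat_lit 12685) (nat_lit 10) (nat_lit 10))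
    (@En.n l5795 (nat_lit 12560) (nat_lit 11) (nat_lit 14))
    (@En.i (nat_lit 1276) (nat_lit 2) (nat_lit 11))
    (@En.n l5647 (nat_lit 12576) (nat_lit 3) (nat_lit 4))
    (@En.n l5796 (nat_lit 6068) (nat_lit 4) (nat_lit 10))
    (@En.i (nat_lit 12245) (nat_lit 5) (nat_lit 6))
    (@En.n l7 (nat_lit 12565) (nat_lit 6) (nat_lit 2))
    (@En.n l5797 (nat_lit 12648) (nat_lit 8) (nat_lit 12))
    (@En.n l134 (nat_lit 12561) (nat_lit 9) (nat_lit 14))
    (@En.n l1253 (nat_lit 12649) (nat_lit 2) (nat_lit 3))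
    (@En.n l248 (nat_lit 6376) (nat_lit 3) (nat_lit 6))
    (@En.n l1722 (nat_lit 25) (nat_lit 4) (nat_lit 10))
    (@En.n l766 (nat_lit 7588) (nat_lit 13) (nat_lit 13))
    (@En.n l17 (nat_lit 12646) (nat_lit 14) (nat_lit 5))
    (@En.n l5798 (nat_lit 12350) (nat_lit 7) (nat_lit 6))
    (@En.n l3 (nat_lit 12565) (nat_lit 15) (nat_lit 2))))
  (@Cl.mk (nat_lit 0x200060005000e000a00020007000e000c00020006000a0004000b000e0009) (nat_lit 0xc8004500301b5) (nat_lit 16) Lb.e (@T16.mk En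
    (@En.i (nat_lit 8171) (nat_lit 5) (nat_lit 9))
    (@En.n l2426 (nat_lit 12529) (nat_lit 11) (nat_lit 14))
    (@En.n l2371 (nat_lit 3021) (nat_lit 2) (nat_lit 11))
    (@En.n l2427 (nat_lit 12311) (nat_lit 8) (nat_lit 4))
    (@En.n l617 (nat_lit 3979) (nat_lit 4) (nat_lit 10))
    (@En.n l2428 (nat_lit 12241) (nat_lit 5) (nat_lit 6))
    (@En.n l3 (nat_lit 12566) (nat_lit 6) (nat_lit 2))
    (@En.n l2429 (nat_lit 12778) (nat_lit 8) (nat_lit 12))
    (@En.n l2427 (nat_lit 12553) (nat_lit 9) (nat_lit 14))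
    (@En.n l387 (nat_lit 12590) (nat_lit 2) (nat_lit 7))
    (@En.n l50 (nat_lit 12566) (nat_lit 10) (nat_lit 2))
    (@En.n l2371 (nat_lit 12561) (nat_lit 12) (nat_lit 10))
    (@En.n l1722 (nat_lit 4767) (nat_lit 13) (nat_lit 14))
    (@En.n l754 (nat_lit 12567) (nat_lit 14) (nat_lit 5))
    (@En.i (nat_lit 11502) (nat_lit 7) (nat_lit 6))
    (@En.n l725 (nat_lit 12566) (nat_lit 15) (nat_lit 2))))
  (@Cl.mk (nat_lit 0x20005000e000a00020006000e000c00020006000d0004000b0003000e000a) (nat_lit 0x680092003070c6) (nat_lit 16) Lb.e (@T16.mk En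
    (@En.n l17 (nat_lit 12757) (nat_lit 4) (nat_lit 10))
    (@En.i (nat_lit 12566) (nat_lit 1) (nat_lit 14))
    (@En.n l2370 (nat_lit 12759) (nat_lit 10) (nat_lit 3))
    (@En.n l2371 (nat_lit 3022) (nat_lit 3) (nat_lit 11))
    (@En.n l2372 (nat_lit 12308) (nat_lit 4) (nat_lit 4))
    (@En.n l2373 (nat_lit 4771) (nat_lit 6) (nat_lit 13))
    (@En.n l2374 (nat_lit 12240) (nat_lit 6) (nat_lit 6))
    (@En.n l3 (nat_lit 12567) (nat_lit 7) (nat_lit 2))
    (@En.n l2375 (nat_lit 12086) (nat_lit 9) (nat_lit 12))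
    (@En.n l2376 (nat_lit 12551) (nat_lit 10) (nat_lit 14))
    (@En.n l2377 (nat_lit 12580) (nat_lit 2) (nat_lit 6))
    (@En.n l50 (nat_lit 12567) (nat_lit 11) (nat_lit 2))
    (@En.n l2371 (nat_lit 12563) (nat_lit 13) (nat_lit 10))
    (@En.n l2362 (nat_lit 11635) (nat_lit 6) (nat_lit 14))
    (@En.n l2378 (nat_lit 12088) (nat_lit 2) (nat_lit 5))
    (@En.n l725 (nat_lit 12567) (nat_lit 15) (nat_lit 2))))
  (@Cl.mk (nat_lit 0x200090006000a000d0006000c0003000700060004000e000a0002000e000a) (nat_lit 0x501503000015084) (nat_lit 16) Lb.e (@T16.mk En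
    (@En.n l1532 (nat_lit 11712) (nat_lit 14) (nat_lit 10))
    (@En.n l387 (nat_lit 11941) (nat_lit 1) (nat_lit 14))
    (@En.n l50 (nat_lit 12568) (nat_lit 2) (nat_lit 2))
    (@En.n l16186 (nat_lit 11374) (nat_lit 3) (nat_lit 10))
    (@En.n l1722 (nat_lit 1495) (nat_lit 1) (nat_lit 14))
    (@En.n l2289 (nat_lit 11642) (nat_lit 5) (nat_lit 4))
    (@En.n l725 (nat_lit 11713) (nat_lit 6) (nat_lit 6))
    (@En.n l2789 (nat_lit 10106) (nat_lit 7) (nat_lit 7))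
    (@En.n l3710 (nat_lit 11750) (nat_lit 8) (nat_lit 3))
    (@En.n l3869 (nat_lit 2765) (nat_lit 0) (nat_lit 12))
    (@En.n l16187 (nat_lit 10912) (nat_lit 7) (nat_lit 6))
    (@En.n l2376 (nat_lit 12551) (nat_lit 5) (nat_lit 13))
    (@En.n l617 (nat_lit 2108) (nat_lit 13) (nat_lit 10))
    (@En.i (nat_lit 12350) (nat_lit 14) (nat_lit 6))
    (@En.i (nat_lit 7673) (nat_lit 12) (nat_lit 9))
    (@En.n l3 (nat_lit 12568) (nat_lit 15) (nat_lit 2))))
  (@Cl.mk (nat_lit 0x2000d000900070003000d0007000d000300070003000e00090002000e0009) (nat_lit 0x460060200091073) (nat_lit 16) Lb.e (@T16.mk En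
    (@En.n l6072 (nat_lit 11710) (nat_lit 14) (nat_lit 9))
    (@En.n l9133 (nat_lit 12068) (nat_lit 1) (nat_lit 14))
    (@En.n l17 (nat_lit 12569) (nat_lit 2) (nat_lit 2))
    (@En.n l3832 (nat_lit 8109) (nat_lit 3) (nat_lit 9))
    (@En.i (nat_lit 1726) (nat_lit 1) (nat_lit 14))
    (@En.i (nat_lit 12570) (nat_lit 5) (nat_lit 3))
    (@En.n l11478 (nat_lit 11362) (nat_lit 6) (nat_lit 7))
    (@En.i (nat_lit 11749) (nat_lit 7) (nat_lit 3))
    (@En.n l18402 (nat_lit 2738) (nat_lit 0) (nat_lit 13))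
    (@En.n l810 (nat_lit 12224) (nat_lit 6) (nat_lit 7))
    (@En.n l3766 (nat_lit 12543) (nat_lit 11) (nat_lit 13))
    (@En.n l7573 (nat_lit 11713) (nat_lit 11) (nat_lit 3))
    (@En.n l3832 (nat_lit 10124) (nat_lit 0) (nat_lit 7))
    (@En.n l18403 (nat_lit 12568) (nat_lit 14) (nat_lit 9))
    (@En.n l14754 (nat_lit 8261) (nat_lit 12) (nat_lit 13))
    (@En.n l3 (nat_lit 12569) (nat_lit 15) (nat_lit 2))))
  (@Cl.mk (nat_lit 0x2000d000a00070003000c0007000d000600040003000e00090002000e0009) (nat_lit 0x440040100091057) (nat_lit 16) Lb.e (@T16.mk En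
    (@En.i (nat_lit 11709) (nat_lit 14) (nat_lit 9))
    (@En.i (nat_lit 12067) (nat_lit 1) (nat_lit 14))
    (@En.n l17 (nat_lit 12570) (nat_lit 2) (nat_lit 2))
    (@En.i (nat_lit 8111) (nat_lit 3) (nat_lit 9))
    (@En.n l998 (nat_lit 6901) (nat_lit 1) (nat_lit 14))
    (@En.n l50 (nat_lit 12569) (nat_lit 5) (nat_lit 3))
    (@En.i (nat_lit 12613) (nat_lit 6) (nat_lit 4))
    (@En.i (nat_lit 7721) (nat_lit 7) (nat_lit 6))
    (@En.i (nat_lit 2737) (nat_lit 9) (nat_lit 13))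
    (@En.n l810 (nat_lit 11625) (nat_lit 6) (nat_lit 7))
    (@En.n l22297 (nat_lit 10109) (nat_lit 11) (nat_lit 12))
    (@En.n l685 (nat_lit 12571) (nat_lit 11) (nat_lit 3))
    (@En.i (nat_lit 12493) (nat_lit 0) (nat_lit 7))
    (@En.n l22298 (nat_lit 11643) (nat_lit 14) (nat_lit 10))
    (@En.n l14754 (nat_lit 8260) (nat_lit 12) (nat_lit 13))
    (@En.n l3 (nat_lit 12570) (nat_lit 15) (nat_lit 2))))
  (@Cl.mk (nat_lit 0x2000d0006000b0003000c0007000d000500040003000e000a0002000e0009) (nat_lit 0x502040300076057) (nat_lit 16) Lb.e (@T16.mk En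
    (@En.n l16008 (nat_lit 11708) (nat_lit 14) (nat_lit 9))
    (@En.n l16009 (nat_lit 12071) (nat_lit 1) (nat_lit 14))
    (@En.n l3 (nat_lit 12571) (nat_lit 2) (nat_lit 2))
    (@En.i (nat_lit 11707) (nat_lit 3) (nat_lit 10))
    (@En.n l10194 (nat_lit 6900) (nat_lit 1) (nat_lit 14))
    (@En.n l16010 (nat_lit 11713) (nat_lit 5) (nat_lit 3))
    (@En.i (nat_lit 12614) (nat_lit 6) (nat_lit 4))
    (@En.n l8840 (nat_lit 12520) (nat_lit 7) (nat_lit 5))
    (@En.n l16009 (nat_lit 2730) (nat_lit 9) (nat_lit 13))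
    (@En.n l2254 (nat_lit 11623) (nat_lit 6) (nat_lit 7))
    (@En.n l16011 (nat_lit 11642) (nat_lit 11) (nat_lit 12))
    (@En.n l4001 (nat_lit 12570) (nat_lit 11) (nat_lit 3))
    (@En.n l10194 (nat_lit 8287) (nat_lit 0) (nat_lit 11))
    (@En.n l8840 (nat_lit 12354) (nat_lit 14) (nat_lit 6))
    (@En.n l16012 (nat_lit 8860) (nat_lit 12) (nat_lit 13))
    (@En.n l11 (nat_lit 12571) (nat_lit 15) (nat_lit 2))))
  (@Cl.mk (nat_lit 0x200090005000d000a00060003000c0007000d000600040003000b000e000a) (nat_lit 0x6035004060004a5) (nat_lit 16) Lb.e (@T16.mk En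
    (@En.n l18404 (nat_lit 11850) (nat_lit 13) (nat_lit 10))
    (@En.i (nat_lit 12570) (nat_lit 4) (nat_lit 14))
    (@En.n l250 (nat_lit 12643) (nat_lit 2) (nat_lit 11))
    (@En.n l18405 (nat_lit 12573) (nat_lit 3) (nat_lit 3))
    (@En.n l9400 (nat_lit 12619) (nat_lit 4) (nat_lit 4))
    (@En.i (nat_lit 12793) (nat_lit 5) (nat_lit 6))
    (@En.n l18406 (nat_lit 2736) (nat_lit 7) (nat_lit 13))
    (@En.n l810 (nat_lit 11041) (nat_lit 7) (nat_lit 7))
    (@En.n l11451 (nat_lit 12186) (nat_lit 9) (nat_lit 12))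
    (@En.n l1034 (nat_lit 12575) (nat_lit 9) (nat_lit 3))
    (@En.i (nat_lit 12709) (nat_lit 0) (nat_lit 6))
    (@En.n l9400 (nat_lit 9239) (nat_lit 12) (nat_lit 10))
    (@En.n l11455 (nat_lit 12158) (nat_lit 13) (nat_lit 13))
    (@En.n l11048 (nat_lit 12639) (nat_lit 14) (nat_lit 5))
    (@En.n l18406 (nat_lit 11787) (nat_lit 4) (nat_lit 9))
    (@En.n l17 (nat_lit 12572) (nat_lit 15) (nat_lit 2))))
  (@Cl.mk (nat_lit 0x200090005000d000900060003000d0007000d000300070003000b000e000a) (nat_lit 0x3035006020004a4) (nat_lit 16) Lb.e (@T16.mk En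
    (@En.n l7505 (nat_lit 11851) (nat_lit 11) (nat_lit 10))
    (@En.n l4233 (nat_lit 12569) (nat_lit 4) (nat_lit 14))
    (@En.n l4242 (nat_lit 11678) (nat_lit 2) (nat_lit 11))
    (@En.n l4233 (nat_lit 12572) (nat_lit 3) (nat_lit 3))
    (@En.n l7506 (nat_lit 11688) (nat_lit 4) (nat_lit 7))
    (@En.n l4233 (nat_lit 12576) (nat_lit 5) (nat_lit 3))
    (@En.n l7507 (nat_lit 2739) (nat_lit 7) (nat_lit 13))
    (@En.n l7508 (nat_lit 11038) (nat_lit 7) (nat_lit 7))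
    (@En.n l1329 (nat_lit 12291) (nat_lit 9) (nat_lit 13))
    (@En.n l7509 (nat_lit 12574) (nat_lit 9) (nat_lit 3))
    (@En.n l4242 (nat_lit 12669) (nat_lit 0) (nat_lit 6))
    (@En.i (nat_lit 12578) (nat_lit 12) (nat_lit 9))
    (@En.n l4242 (nat_lit 12157) (nat_lit 13) (nat_lit 13))
    (@En.n l4242 (nat_lit 12581) (nat_lit 14) (nat_lit 5))
    (@En.n l4244 (nat_lit 10621) (nat_lit 11) (nat_lit 9))
    (@En.n l18 (nat_lit 12573) (nat_lit 15) (nat_lit 2))))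
  (@Cl.mk (nat_lit 0x200090005000d0005000a0003000d0007000d000300060003000b000e000b) (nat_lit 0x304020603000485) (nat_lit 16) Lb.e (@T16.mk En
    (@En.n l17552 (nat_lit 11808) (nat_lit 11) (nat_lit 11))
    (@En.n l1899 (nat_lit 11713) (nat_lit 4) (nat_lit 14))
    (@En.i (nat_lit 11675) (nat_lit 2) (nat_lit 11))
    (@En.n l17553 (nat_lit 12575) (nat_lit 3) (nat_lit 3))
    (@En.n l649 (nat_lit 12780) (nat_lit 4) (nat_lit 6))
    (@En.n l3072 (nat_lit 12577) (nat_lit 5) (nat_lit 3))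
    (@En.n l17554 (nat_lit 2732) (nat_lit 0) (nat_lit 13))
    (@En.n l11727 (nat_lit 11037) (nat_lit 7) (nat_lit 7))
    (@En.n l17555 (nat_lit 12578) (nat_lit 9) (nat_lit 13))
    (@En.n l17556 (nat_lit 12573) (nat_lit 9) (nat_lit 3))
    (@En.i (nat_lit 3464) (nat_lit 11) (nat_lit 10))
    (@En.n l17557 (nat_lit 10766) (nat_lit 5) (nat_lit 5))
    (@En.i (nat_lit 4289) (nat_lit 13) (nat_lit 13))
    (@En.i (nat_lit 12580) (nat_lit 14) (nat_lit 5))
    (@En.n l9642 (nat_lit 11788) (nat_lit 11) (nat_lit 9))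
    (@En.n l50 (nat_lit 12574) (nat_lit 15) (nat_lit 2))))
  (@Cl.mk (nat_lit 0x200090005000d0005000b0003000c0007000d000500040003000b000e000b) (nat_lit 0x304020403000487) (nat_lit 16) Lb.e (@T16.mk En
    (@En.n l5706 (nat_lit 11809) (nat_lit 13) (nat_lit 11))
    (@En.n l619 (nat_lit 12571) (nat_lit 4) (nat_lit 14))
    (@En.n l21331 (nat_lit 12644) (nat_lit 2) (nat_lit 11))
    (@En.n l29213 (nat_lit 12574) (nat_lit 3) (nat_lit 3))
    (@En.i (nat_lit 4041) (nat_lit 4) (nat_lit 4))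
    (@En.n l29214 (nat_lit 12703) (nat_lit 5) (nat_lit 5))
    (@En.n l15133 (nat_lit 2731) (nat_lit 7) (nat_lit 13))
    (@En.n l29208 (nat_lit 11040) (nat_lit 7) (nat_lit 7))
    (@En.n l29215 (nat_lit 9235) (nat_lit 9) (nat_lit 12))
    (@En.n l14133 (nat_lit 12572) (nat_lit 9) (nat_lit 3))
    (@En.n l217 (nat_lit 9251) (nat_lit 11) (nat_lit 11))
    (@En.n l15137 (nat_lit 10773) (nat_lit 12) (nat_lit 5))
    (@En.n l29216 (nat_lit 4290) (nat_lit 13) (nat_lit 13))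
    (@En.n l15139 (nat_lit 12593) (nat_lit 14) (nat_lit 5))
    (@En.n l15133 (nat_lit 11786) (nat_lit 4) (nat_lit 9))
    (@En.n l107 (nat_lit 12575) (nat_lit 15) (nat_lit 2))))
noncomputable def a786 : T16 Cl := @T16.mk Cl
  (@Cl.mk (nat_lit 0x200080005000d000900060003000d000c0008000300070004000b000e000a) (nat_lit 0x3035006540004a5) (nat_lit 16) Lb.e (@T16.mk En
    (@En.n l13925 (nat_lit 11810) (nat_lit 11) (nat_lit 10))
    (@En.i (nat_lit 11749) (nat_lit 4) (nat_lit 14))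
    (@En.n l13926 (nat_lit 11683) (nat_lit 2) (nat_lit 11))
    (@En.n l9400 (nat_lit 12648) (nat_lit 3) (nat_lit 4))
    (@En.n l2966 (nat_lit 12510) (nat_lit 4) (nat_lit 7))
    (@En.n l13927 (nat_lit 12573) (nat_lit 5) (nat_lit 3))
    (@En.n l10066 (nat_lit 11355) (nat_lit 0) (nat_lit 8))
    (@En.n l644 (nat_lit 12572) (nat_lit 8) (nat_lit 12))
    (@En.n l13928 (nat_lit 12290) (nat_lit 9) (nat_lit 13))
    (@En.n l6264 (nat_lit 12577) (nat_lit 9) (nat_lit 3))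
    (@En.n l13929 (nat_lit 12693) (nat_lit 0) (nat_lit 6))
    (@En.n l13930 (nat_lit 12579) (nat_lit 12) (nat_lit 9))
    (@En.n l6266 (nat_lit 7597) (nat_lit 13) (nat_lit 13))
    (@En.n l10921 (nat_lit 12640) (nat_lit 14) (nat_lit 5))
    (@En.n l13931 (nat_lit 10631) (nat_lit 4) (nat_lit 8))
    (@En.n l17 (nat_lit 12576) (nat_lit 15) (nat_lit 2))))
  (@Cl.mk (nat_lit 0x200080005000d0005000a0003000d000c0008000300060004000b000e000b) (nat_lit 0x304020655000985) (nat_lit 16) Lb.e (@T16.mk En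
    (@En.n l13932 (nat_lit 11804) (nat_lit 11) (nat_lit 11))
    (@En.n l15211 (nat_lit 11748) (nat_lit 4) (nat_lit 14))
    (@En.i (nat_lit 11679) (nat_lit 2) (nat_lit 11))
    (@En.n l27726 (nat_lit 12623) (nat_lit 3) (nat_lit 4))
    (@En.n l26368 (nat_lit 12747) (nat_lit 4) (nat_lit 6))
    (@En.n l3327 (nat_lit 12574) (nat_lit 5) (nat_lit 3))
    (@En.n l617 (nat_lit 11342) (nat_lit 0) (nat_lit 8))
    (@En.n l27727 (nat_lit 12575) (nat_lit 8) (nat_lit 12))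
    (@En.n l27728 (nat_lit 12579) (nat_lit 9) (nat_lit 13))
    (@En.n l15212 (nat_lit 12576) (nat_lit 9) (nat_lit 3))
    (@En.n l3332 (nat_lit 6788) (nat_lit 11) (nat_lit 10))
    (@En.n l24155 (nat_lit 10765) (nat_lit 5) (nat_lit 5))
    (@En.n l617 (nat_lit 4291) (nat_lit 13) (nat_lit 13))
    (@En.n l17 (nat_lit 12594) (nat_lit 14) (nat_lit 5))
    (@En.i (nat_lit 10629) (nat_lit 4) (nat_lit 8))
    (@En.n l3 (nat_lit 12577) (nat_lit 15) (nat_lit 2))))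
  (@Cl.mk (nat_lit 0x2000a000500090005000a000d0006000c0003000700060004000b000e000b) (nat_lit 0x304025040000526) (nat_lit 16) Lb.e (@T16.mk En
    (@En.n l9463 (nat_lit 11807) (nat_lit 10) (nat_lit 11))
    (@En.n l564 (nat_lit 12568) (nat_lit 4) (nat_lit 14))
    (@En.n l7 (nat_lit 11674) (nat_lit 2) (nat_lit 11))
    (@En.n l11219 (nat_lit 9235) (nat_lit 3) (nat_lit 4))
    (@En.n l17904 (nat_lit 12574) (nat_lit 4) (nat_lit 6))
    (@En.n l3260 (nat_lit 11971) (nat_lit 5) (nat_lit 7))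
    (@En.n l9309 (nat_lit 12579) (nat_lit 6) (nat_lit 3))
    (@En.n l3260 (nat_lit 2638) (nat_lit 8) (nat_lit 12))
    (@En.n l9309 (nat_lit 11036) (nat_lit 8) (nat_lit 6))
    (@En.n l1329 (nat_lit 12295) (nat_lit 5) (nat_lit 13))
    (@En.i (nat_lit 3457) (nat_lit 11) (nat_lit 10))
    (@En.n l15108 (nat_lit 10764) (nat_lit 4) (nat_lit 5))
    (@En.n l2642 (nat_lit 10330) (nat_lit 13) (nat_lit 9))
    (@En.n l17905 (nat_lit 12590) (nat_lit 14) (nat_lit 5))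
    (@En.n l388 (nat_lit 11942) (nat_lit 0) (nat_lit 10))
    (@En.n l18 (nat_lit 12578) (nat_lit 15) (nat_lit 2))))
  (@Cl.mk (nat_lit 0x20009000500090005000a000d000b00070003000700060005000b000e000b) (nat_lit 0x404015200000936) (nat_lit 16) Lb.e (@T16.mk En
    (@En.n l21419 (nat_lit 11806) (nat_lit 10) (nat_lit 11))
    (@En.n l21420 (nat_lit 11750) (nat_lit 4) (nat_lit 14))
    (@En.n l21421 (nat_lit 11676) (nat_lit 2) (nat_lit 11))
    (@En.n l21422 (nat_lit 10535) (nat_lit 3) (nat_lit 5))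
    (@En.n l21423 (nat_lit 12577) (nat_lit 4) (nat_lit 6))
    (@En.n l21424 (nat_lit 12644) (nat_lit 5) (nat_lit 7))
    (@En.n l21425 (nat_lit 12578) (nat_lit 6) (nat_lit 3))
    (@En.n l21426 (nat_lit 11347) (nat_lit 0) (nat_lit 7))
    (@En.n l21427 (nat_lit 9239) (nat_lit 9) (nat_lit 11))
    (@En.n l21428 (nat_lit 12297) (nat_lit 5) (nat_lit 13))
    (@En.n l21429 (nat_lit 3466) (nat_lit 11) (nat_lit 10))
    (@En.n l21430 (nat_lit 41) (nat_lit 4) (nat_lit 5))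
    (@En.i (nat_lit 10332) (nat_lit 13) (nat_lit 9))
    (@En.n l21431 (nat_lit 12595) (nat_lit 14) (nat_lit 5))
    (@En.n l21432 (nat_lit 10630) (nat_lit 0) (nat_lit 9))
    (@En.n l28 (nat_lit 12579) (nat_lit 15) (nat_lit 2))))
  (@Cl.mk (nat_lit 0x20005000d0004000a0003000d000a000d000300060003000b0006000e000c) (nat_lit 0x30204530005096) (nat_lit 16) Lb.e (@T16.mk En
    (@En.n l7074 (nat_lit 12582) (nat_lit 10) (nat_lit 12))
    (@En.n l1770 (nat_lit 12574) (nat_lit 1) (nat_lit 14))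
    (@En.n l649 (nat_lit 12589) (nat_lit 2) (nat_lit 6))
    (@En.n l7075 (nat_lit 11680) (nat_lit 3) (nat_lit 11))
    (@En.n l5977 (nat_lit 12593) (nat_lit 4) (nat_lit 3))
    (@En.n l1867 (nat_lit 12091) (nat_lit 5) (nat_lit 6))
    (@En.n l7076 (nat_lit 12594) (nat_lit 6) (nat_lit 3))
    (@En.n l7077 (nat_lit 3051) (nat_lit 0) (nat_lit 13))
    (@En.n l7078 (nat_lit 12417) (nat_lit 9) (nat_lit 10))
    (@En.n l7077 (nat_lit 12590) (nat_lit 10) (nat_lit 13))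
    (@En.n l2364 (nat_lit 12581) (nat_lit 10) (nat_lit 3))
    (@En.i (nat_lit 3462) (nat_lit 12) (nat_lit 10))
    (@En.n l7079 (nat_lit 10768) (nat_lit 5) (nat_lit 4))
    (@En.i (nat_lit 4285) (nat_lit 14) (nat_lit 13))
    (@En.n l7080 (nat_lit 11919) (nat_lit 13) (nat_lit 5))
    (@En.n l50 (nat_lit 12580) (nat_lit 15) (nat_lit 2))))
  (@Cl.mk (nat_lit 0x20005000d000900050003000d000a000d000300070003000b0006000e000b) (nat_lit 0x240045600080b5) (nat_lit 16) Lb.e (@T16.mk En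
    (@En.n l2498 (nat_lit 12037) (nat_lit 10) (nat_lit 11))
    (@En.n l2499 (nat_lit 12573) (nat_lit 1) (nat_lit 14))
    (@En.n l2500 (nat_lit 12591) (nat_lit 2) (nat_lit 6))
    (@En.n l2501 (nat_lit 11685) (nat_lit 3) (nat_lit 11))
    (@En.n l2502 (nat_lit 12639) (nat_lit 4) (nat_lit 3))
    (@En.n l2503 (nat_lit 11690) (nat_lit 5) (nat_lit 7))
    (@En.n l2504 (nat_lit 12640) (nat_lit 6) (nat_lit 3))
    (@En.n l2505 (nat_lit 3050) (nat_lit 8) (nat_lit 13))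
    (@En.n l2506 (nat_lit 11167) (nat_lit 9) (nat_lit 10))
    (@En.n l2502 (nat_lit 12292) (nat_lit 10) (nat_lit 13))
    (@En.n l763 (nat_lit 12580) (nat_lit 10) (nat_lit 3))
    (@En.i (nat_lit 12668) (nat_lit 0) (nat_lit 5))
    (@En.n l2507 (nat_lit 12590) (nat_lit 13) (nat_lit 9))
    (@En.i (nat_lit 3866) (nat_lit 14) (nat_lit 13))
    (@En.n l2508 (nat_lit 11923) (nat_lit 13) (nat_lit 5))
    (@En.n l50 (nat_lit 12581) (nat_lit 15) (nat_lit 2))))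
  (@Cl.mk (nat_lit 0x300060003000c0006000c000c0004000c00040004000a0004000d000a000d) (nat_lit 0xa058070030524) (nat_lit 16) Lb.e (@T16.mk En
    (@En.n l2038 (nat_lit 2721) (nat_lit 0) (nat_lit 13))
    (@En.n l17528 (nat_lit 12416) (nat_lit 3) (nat_lit 10))
    (@En.n l10684 (nat_lit 12585) (nat_lit 2) (nat_lit 13))
    (@En.n l17529 (nat_lit 12037) (nat_lit 3) (nat_lit 4))
    (@En.i (nat_lit 11104) (nat_lit 4) (nat_lit 10))
    (@En.n l17530 (nat_lit 12580) (nat_lit 12) (nat_lit 4))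
    (@En.n l14883 (nat_lit 10775) (nat_lit 6) (nat_lit 4))
    (@En.n l17528 (nat_lit 4276) (nat_lit 0) (nat_lit 12))
    (@En.i (nat_lit 11824) (nat_lit 8) (nat_lit 4))
    (@En.n l17531 (nat_lit 12044) (nat_lit 4) (nat_lit 12))
    (@En.n l17532 (nat_lit 12404) (nat_lit 11) (nat_lit 12))
    (@En.n l17533 (nat_lit 12584) (nat_lit 14) (nat_lit 6))
    (@En.n l17534 (nat_lit 11718) (nat_lit 13) (nat_lit 12))
    (@En.n l10684 (nat_lit 12583) (nat_lit 15) (nat_lit 3))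
    (@En.i (nat_lit 12247) (nat_lit 12) (nat_lit 6))
    (@En.n l17535 (nat_lit 12415) (nat_lit 15) (nat_lit 3))))
  (@Cl.mk (nat_lit 0x3000c0006000c000c0004000c00040004000b0004000c000a000d00050004) (nat_lit 0x405807002022200) (nat_lit 16) Lb.e (@T16.mk En
    (@En.n l8258 (nat_lit 12660) (nat_lit 0) (nat_lit 4))
    (@En.n l31630 (nat_lit 12440) (nat_lit 0) (nat_lit 5))
    (@En.i (nat_lit 2722) (nat_lit 5) (nat_lit 13))
    (@En.n l26321 (nat_lit 12420) (nat_lit 3) (nat_lit 10))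
    (@En.i (nat_lit 12195) (nat_lit 2) (nat_lit 12))
    (@En.n l1769 (nat_lit 11852) (nat_lit 5) (nat_lit 4))
    (@En.n l16484 (nat_lit 10474) (nat_lit 0) (nat_lit 11))
    (@En.n l3519 (nat_lit 12593) (nat_lit 12) (nat_lit 4))
    (@En.n l32177 (nat_lit 26) (nat_lit 0) (nat_lit 4))
    (@En.n l3522 (nat_lit 4274) (nat_lit 0) (nat_lit 12))
    (@En.n l8246 (nat_lit 11822) (nat_lit 1) (nat_lit 4))
    (@En.n l61 (nat_lit 12047) (nat_lit 4) (nat_lit 12))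
    (@En.n l5839 (nat_lit 12408) (nat_lit 1) (nat_lit 12))
    (@En.n l19971 (nat_lit 12435) (nat_lit 14) (nat_lit 6))
    (@En.n l21989 (nat_lit 12361) (nat_lit 3) (nat_lit 12))
    (@En.n l16484 (nat_lit 12582) (nat_lit 13) (nat_lit 3))))
  (@Cl.mk (nat_lit 0x30006000c000c0008000c0004000400090004000c000a0008000d00040007) (nat_lit 0x47360030526500) (nat_lit 16) Lb.e (@T16.mk En
    (@En.n l6140 (nat_lit 8112) (nat_lit 0) (nat_lit 7))
    (@En.n l4172 (nat_lit 11811) (nat_lit 7) (nat_lit 4))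
    (@En.n l32577 (nat_lit 12582) (nat_lit 0) (nat_lit 13))
    (@En.n l7694 (nat_lit 11808) (nat_lit 1) (nat_lit 8))
    (@En.i (nat_lit 12418) (nat_lit 4) (nat_lit 10))
    (@En.i (nat_lit 12586) (nat_lit 12) (nat_lit 12))
    (@En.n l4190 (nat_lit 12038) (nat_lit 6) (nat_lit 4))
    (@En.n l3517 (nat_lit 11107) (nat_lit 0) (nat_lit 9))
    (@En.n l6950 (nat_lit 12589) (nat_lit 12) (nat_lit 4))
    (@En.i (nat_lit 12438) (nat_lit 9) (nat_lit 4))
    (@En.i (nat_lit 4279) (nat_lit 0) (nat_lit 12))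
    (@En.n l33244 (nat_lit 11792) (nat_lit 12) (nat_lit 8))
    (@En.n l1867 (nat_lit 12046) (nat_lit 4) (nat_lit 12))
    (@En.n l3523 (nat_lit 12442) (nat_lit 14) (nat_lit 12))
    (@En.n l6142 (nat_lit 11755) (nat_lit 12) (nat_lit 6))
    (@En.n l18 (nat_lit 12435) (nat_lit 15) (nat_lit 3))))
  (@Cl.mk (nat_lit 0x3000800060004000c0007000c000c0004000800040004000a000d0009000c) (nat_lit 0x400a06901003453) (nat_lit 16) Lb.e (@T16.mk En
    (@En.i (nat_lit 2718) (nat_lit 0) (nat_lit 12))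
    (@En.n l17884 (nat_lit 11046) (nat_lit 12) (nat_lit 9))
    (@En.n l3471 (nat_lit 12601) (nat_lit 5) (nat_lit 13))
    (@En.n l16760 (nat_lit 11105) (nat_lit 3) (nat_lit 10))
    (@En.n l4194 (nat_lit 12590) (nat_lit 12) (nat_lit 4))
    (@En.n l18 (nat_lit 10772) (nat_lit 5) (nat_lit 4))
    (@En.i (nat_lit 3984) (nat_lit 0) (nat_lit 8))
    (@En.n l16760 (nat_lit 12428) (nat_lit 1) (nat_lit 4))
    (@En.n l61 (nat_lit 12370) (nat_lit 4) (nat_lit 12))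
    (@En.n l17060 (nat_lit 12411) (nat_lit 1) (nat_lit 12))
    (@En.n l17885 (nat_lit 12586) (nat_lit 4) (nat_lit 7))
    (@En.n l6324 (nat_lit 11716) (nat_lit 12) (nat_lit 12))
    (@En.i (nat_lit 12195) (nat_lit 12) (nat_lit 4))
    (@En.n l16756 (nat_lit 12582) (nat_lit 14) (nat_lit 6))
    (@En.n l3476 (nat_lit 10677) (nat_lit 1) (nat_lit 8))
    (@En.n l152 (nat_lit 12371) (nat_lit 15) (nat_lit 3))))
  (@Cl.mk (nat_lit 0x400040009000c00090007000c00040009000700040007000c000c00090007) (nat_lit 0x34504020005550) (nat_lit 16) Lb.e (@T16.mk En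
    (@En.n l33660 (nat_lit 5429) (nat_lit 0) (nat_lit 7))
    (@En.n l33244 (nat_lit 11790) (nat_lit 1) (nat_lit 9))
    (@En.n l33661 (nat_lit 12587) (nat_lit 4) (nat_lit 12))
    (@En.n l33662 (nat_lit 12443) (nat_lit 8) (nat_lit 12))
    (@En.n l33660 (nat_lit 12624) (nat_lit 11) (nat_lit 7))
    (@En.n l33663 (nat_lit 12196) (nat_lit 5) (nat_lit 4))
    (@En.n l28 (nat_lit 12584) (nat_lit 0) (nat_lit 7))
    (@En.i (nat_lit 10674) (nat_lit 1) (nat_lit 9))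
    (@En.n l4172 (nat_lit 12722) (nat_lit 8) (nat_lit 4))
    (@En.n l33664 (nat_lit 12585) (nat_lit 0) (nat_lit 12))
    (@En.n l33665 (nat_lit 11807) (nat_lit 1) (nat_lit 7))
    (@En.n l28 (nat_lit 11045) (nat_lit 12) (nat_lit 9))
    (@En.n l33666 (nat_lit 12599) (nat_lit 6) (nat_lit 12))
    (@En.n l3517 (nat_lit 11109) (nat_lit 4) (nat_lit 9))
    (@En.n l6950 (nat_lit 12588) (nat_lit 12) (nat_lit 4))
    (@En.n l16755 (nat_lit 12596) (nat_lit 0) (nat_lit 4))))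
  (@Cl.mk (nat_lit 0x20009000c00090008000c0004000a000700040007000c00080006000e0004) (nat_lit 0x357540200041010) (nat_lit 16) Lb.e (@T16.mk En
    (@En.n l17885 (nat_lit 12586) (nat_lit 15) (nat_lit 4))
    (@En.n l20655 (nat_lit 1057) (nat_lit 1) (nat_lit 14))
    (@En.n l22493 (nat_lit 5431) (nat_lit 2) (nat_lit 6))
    (@En.i (nat_lit 11326) (nat_lit 3) (nat_lit 8))
    (@En.n l27037 (nat_lit 9676) (nat_lit 5) (nat_lit 12))
    (@En.n l20657 (nat_lit 7659) (nat_lit 11) (nat_lit 7))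
    (@En.i (nat_lit 12199) (nat_lit 6) (nat_lit 4))
    (@En.n l27038 (nat_lit 12046) (nat_lit 7) (nat_lit 7))
    (@En.n l27039 (nat_lit 11962) (nat_lit 9) (nat_lit 10))
    (@En.n l9415 (nat_lit 12723) (nat_lit 9) (nat_lit 4))
    (@En.n l7 (nat_lit 12370) (nat_lit 11) (nat_lit 12))
    (@En.n l644 (nat_lit 12369) (nat_lit 12) (nat_lit 8))
    (@En.n l27040 (nat_lit 11048) (nat_lit 13) (nat_lit 9))
    (@En.n l645 (nat_lit 12600) (nat_lit 6) (nat_lit 12))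
    (@En.n l21649 (nat_lit 11611) (nat_lit 4) (nat_lit 9))
    (@En.n l17 (nat_lit 12587) (nat_lit 15) (nat_lit 2))))
  (@Cl.mk (nat_lit 0x2000a000800040009000c00090006000c00040008000700040007000e000c) (nat_lit 0x330244020300026) (nat_lit 16) Lb.e (@T16.mk En
    (@En.n l2544 (nat_lit 12586) (nat_lit 3) (nat_lit 12))
    (@En.n l3337 (nat_lit 11712) (nat_lit 1) (nat_lit 14))
    (@En.n l17906 (nat_lit 11753) (nat_lit 11) (nat_lit 7))
    (@En.n l17907 (nat_lit 12285) (nat_lit 3) (nat_lit 4))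
    (@En.n l50 (nat_lit 12589) (nat_lit 4) (nat_lit 7))
    (@En.n l2579 (nat_lit 11979) (nat_lit 5) (nat_lit 8))
    (@En.n l7512 (nat_lit 12738) (nat_lit 6) (nat_lit 4))
    (@En.n l3859 (nat_lit 12590) (nat_lit 8) (nat_lit 12))
    (@En.n l17908 (nat_lit 12578) (nat_lit 8) (nat_lit 6))
    (@En.n l17909 (nat_lit 9190) (nat_lit 10) (nat_lit 9))
    (@En.n l17910 (nat_lit 12299) (nat_lit 6) (nat_lit 12))
    (@En.n l4172 (nat_lit 3461) (nat_lit 12) (nat_lit 9))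
    (@En.n l17911 (nat_lit 10769) (nat_lit 13) (nat_lit 4))
    (@En.n l7882 (nat_lit 5430) (nat_lit 14) (nat_lit 8))
    (@En.n l2911 (nat_lit 11944) (nat_lit 1) (nat_lit 10))
    (@En.n l11 (nat_lit 12588) (nat_lit 15) (nat_lit 2))))
  (@Cl.mk (nat_lit 0x20009000d000400090003000c000a0007000d0004000700030006000e000c) (nat_lit 0x330205604000025) (nat_lit 16) Lb.e (@T16.mk En
    (@En.n l2544 (nat_lit 12584) (nat_lit 13) (nat_lit 12))
    (@En.n l3337 (nat_lit 11711) (nat_lit 1) (nat_lit 14))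
    (@En.n l253 (nat_lit 11752) (nat_lit 12) (nat_lit 6))
    (@En.n l7511 (nat_lit 12592) (nat_lit 3) (nat_lit 3))
    (@En.i (nat_lit 8114) (nat_lit 0) (nat_lit 7))
    (@En.n l7512 (nat_lit 12739) (nat_lit 5) (nat_lit 4))
    (@En.n l14619 (nat_lit 12580) (nat_lit 7) (nat_lit 13))
    (@En.n l2869 (nat_lit 12574) (nat_lit 7) (nat_lit 7))
    (@En.n l2544 (nat_lit 12419) (nat_lit 9) (nat_lit 10))
    (@En.i (nat_lit 12588) (nat_lit 10) (nat_lit 12))
    (@En.i (nat_lit 12591) (nat_lit 10) (nat_lit 3))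
    (@En.i (nat_lit 3463) (nat_lit 12) (nat_lit 9))
    (@En.i (nat_lit 10770) (nat_lit 8) (nat_lit 4))
    (@En.i (nat_lit 4284) (nat_lit 14) (nat_lit 13))
    (@En.i (nat_lit 10550) (nat_lit 11) (nat_lit 9))
    (@En.n l11 (nat_lit 12589) (nat_lit 15) (nat_lit 2))))
  (@Cl.mk (nat_lit 0x2000500090004000a000d0009000c0003000700060004000b0007000e000c) (nat_lit 0x30234100009037) (nat_lit 16) Lb.e (@T16.mk En
    (@En.n l1335 (nat_lit 12585) (nat_lit 9) (nat_lit 12))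
    (@En.n l7264 (nat_lit 12578) (nat_lit 1) (nat_lit 14))
    (@En.n l7265 (nat_lit 12588) (nat_lit 2) (nat_lit 7))
    (@En.n l391 (nat_lit 11677) (nat_lit 3) (nat_lit 11))
    (@En.n l7 (nat_lit 9233) (nat_lit 4) (nat_lit 4))
    (@En.n l7266 (nat_lit 12580) (nat_lit 5) (nat_lit 6))
    (@En.i (nat_lit 11974) (nat_lit 6) (nat_lit 7))
    (@En.n l5381 (nat_lit 12595) (nat_lit 7) (nat_lit 3))
    (@En.i (nat_lit 2640) (nat_lit 9) (nat_lit 12))
    (@En.n l7267 (nat_lit 9189) (nat_lit 10) (nat_lit 9))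
    (@En.n l511 (nat_lit 12296) (nat_lit 11) (nat_lit 13))
    (@En.n l5572 (nat_lit 3460) (nat_lit 12) (nat_lit 10))
    (@En.n l1336 (nat_lit 10767) (nat_lit 13) (nat_lit 4))
    (@En.n l1208 (nat_lit 5428) (nat_lit 14) (nat_lit 9))
    (@En.i (nat_lit 11921) (nat_lit 13) (nat_lit 5))
    (@En.n l3 (nat_lit 12590) (nat_lit 15) (nat_lit 2))))
  (@Cl.mk (nat_lit 0x20009000d000800050003000c000a0007000d0004000800030006000e000b) (nat_lit 0x324005607050027) (nat_lit 16) Lb.e (@T16.mk En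
    (@En.n l2087 (nat_lit 12038) (nat_lit 13) (nat_lit 11))
    (@En.n l7510 (nat_lit 11710) (nat_lit 1) (nat_lit 14))
    (@En.n l253 (nat_lit 11754) (nat_lit 12) (nat_lit 6))
    (@En.n l7511 (nat_lit 12638) (nat_lit 3) (nat_lit 3))
    (@En.n l7 (nat_lit 11695) (nat_lit 0) (nat_lit 8))
    (@En.n l7512 (nat_lit 9244) (nat_lit 5) (nat_lit 4))
    (@En.n l2085 (nat_lit 12581) (nat_lit 7) (nat_lit 13))
    (@En.n l7513 (nat_lit 12573) (nat_lit 7) (nat_lit 7))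
    (@En.n l2544 (nat_lit 11161) (nat_lit 9) (nat_lit 10))
    (@En.n l7514 (nat_lit 12294) (nat_lit 10) (nat_lit 12))
    (@En.n l7 (nat_lit 12589) (nat_lit 10) (nat_lit 3))
    (@En.n l2547 (nat_lit 12667) (nat_lit 0) (nat_lit 5))
    (@En.n l644 (nat_lit 12588) (nat_lit 13) (nat_lit 8))
    (@En.i (nat_lit 3869) (nat_lit 14) (nat_lit 13))
    (@En.n l1559 (nat_lit 10544) (nat_lit 11) (nat_lit 9))
    (@En.n l11 (nat_lit 12591) (nat_lit 15) (nat_lit 2))))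
noncomputable def a787 : T16 Cl := @T16.mk Cl
  (@Cl.mk (nat_lit 0x20009000d0004000a0003000b000a0007000d0006000500030006000e000c) (nat_lit 0x330802604000098) (nat_lit 16) Lb.e (@T16.mk En
    (@En.i (nat_lit 12435) (nat_lit 13) (nat_lit 12))
    (@En.n l5854 (nat_lit 11708) (nat_lit 1) (nat_lit 14))
    (@En.n l27790 (nat_lit 11633) (nat_lit 12) (nat_lit 6))
    (@En.n l947 (nat_lit 12589) (nat_lit 3) (nat_lit 3))
    (@En.n l1927 (nat_lit 4037) (nat_lit 0) (nat_lit 5))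
    (@En.n l27791 (nat_lit 9732) (nat_lit 5) (nat_lit 6))
    (@En.n l1850 (nat_lit 12593) (nat_lit 7) (nat_lit 13))
    (@En.n l27792 (nat_lit 12575) (nat_lit 7) (nat_lit 7))
    (@En.n l13772 (nat_lit 12422) (nat_lit 9) (nat_lit 10))
    (@En.n l27793 (nat_lit 12285) (nat_lit 10) (nat_lit 11))
    (@En.i (nat_lit 12638) (nat_lit 10) (nat_lit 3))
    (@En.n l2893 (nat_lit 8280) (nat_lit 0) (nat_lit 10))
    (@En.n l15086 (nat_lit 12436) (nat_lit 8) (nat_lit 4))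
    (@En.i (nat_lit 4286) (nat_lit 14) (nat_lit 13))
    (@En.n l13963 (nat_lit 10367) (nat_lit 11) (nat_lit 9))
    (@En.n l3 (nat_lit 12592) (nat_lit 15) (nat_lit 2))))
  (@Cl.mk (nat_lit 0x20005000d0004000b0003000c000a000d000500040003000b0006000e000c) (nat_lit 0x30902630005096) (nat_lit 16) Lb.e (@T16.mk En
    (@En.n l4130 (nat_lit 12583) (nat_lit 12) (nat_lit 12))
    (@En.n l15328 (nat_lit 12575) (nat_lit 1) (nat_lit 14))
    (@En.n l9068 (nat_lit 12592) (nat_lit 2) (nat_lit 6))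
    (@En.n l17558 (nat_lit 12642) (nat_lit 3) (nat_lit 11))
    (@En.n l16585 (nat_lit 12580) (nat_lit 4) (nat_lit 3))
    (@En.n l2044 (nat_lit 4035) (nat_lit 5) (nat_lit 4))
    (@En.n l16779 (nat_lit 12697) (nat_lit 6) (nat_lit 5))
    (@En.i (nat_lit 2735) (nat_lit 8) (nat_lit 13))
    (@En.n l3178 (nat_lit 12421) (nat_lit 9) (nat_lit 10))
    (@En.i (nat_lit 9233) (nat_lit 10) (nat_lit 12))
    (@En.n l164 (nat_lit 12639) (nat_lit 10) (nat_lit 3))
    (@En.n l5381 (nat_lit 9250) (nat_lit 12) (nat_lit 11))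
    (@En.i (nat_lit 10774) (nat_lit 13) (nat_lit 4))
    (@En.n l387 (nat_lit 4287) (nat_lit 14) (nat_lit 13))
    (@En.n l1329 (nat_lit 11026) (nat_lit 13) (nat_lit 5))
    (@En.n l3 (nat_lit 12593) (nat_lit 15) (nat_lit 2))))
  (@Cl.mk (nat_lit 0x20005000d0004000a0003000d000c000b000300060004000b0005000e000c) (nat_lit 0x30204350008096) (nat_lit 16) Lb.e (@T16.mk En
    (@En.n l617 (nat_lit 12415) (nat_lit 10) (nat_lit 12))
    (@En.i (nat_lit 12577) (nat_lit 1) (nat_lit 14))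
    (@En.n l5693 (nat_lit 12739) (nat_lit 2) (nat_lit 5))
    (@En.i (nat_lit 11682) (nat_lit 3) (nat_lit 11))
    (@En.n l17559 (nat_lit 12647) (nat_lit 4) (nat_lit 4))
    (@En.n l3337 (nat_lit 12744) (nat_lit 5) (nat_lit 6))
    (@En.n l2586 (nat_lit 12580) (nat_lit 6) (nat_lit 3))
    (@En.n l2594 (nat_lit 12646) (nat_lit 0) (nat_lit 11))
    (@En.n l17560 (nat_lit 12593) (nat_lit 9) (nat_lit 12))
    (@En.n l779 (nat_lit 12595) (nat_lit 10) (nat_lit 13))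
    (@En.n l780 (nat_lit 12640) (nat_lit 10) (nat_lit 3))
    (@En.n l779 (nat_lit 6787) (nat_lit 12) (nat_lit 10))
    (@En.n l2595 (nat_lit 44) (nat_lit 5) (nat_lit 4))
    (@En.n l617 (nat_lit 4288) (nat_lit 14) (nat_lit 13))
    (@En.n l781 (nat_lit 11914) (nat_lit 13) (nat_lit 5))
    (@En.n l3 (nat_lit 12594) (nat_lit 15) (nat_lit 2))))
  (@Cl.mk (nat_lit 0x2000500090004000a000d000b000a0003000700060005000b0006000e000c) (nat_lit 0x30132400008047) (nat_lit 16) Lb.e (@T16.mk En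
    (@En.n l17915 (nat_lit 12371) (nat_lit 9) (nat_lit 12))
    (@En.n l14299 (nat_lit 12579) (nat_lit 1) (nat_lit 14))
    (@En.n l17916 (nat_lit 12738) (nat_lit 2) (nat_lit 6))
    (@En.n l2865 (nat_lit 11681) (nat_lit 3) (nat_lit 11))
    (@En.n l17917 (nat_lit 10534) (nat_lit 4) (nat_lit 5))
    (@En.n l17918 (nat_lit 12594) (nat_lit 5) (nat_lit 6))
    (@En.n l7288 (nat_lit 12642) (nat_lit 6) (nat_lit 7))
    (@En.n l2382 (nat_lit 12590) (nat_lit 7) (nat_lit 3))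
    (@En.n l4021 (nat_lit 12565) (nat_lit 0) (nat_lit 10))
    (@En.n l17919 (nat_lit 9238) (nat_lit 10) (nat_lit 11))
    (@En.n l8658 (nat_lit 12298) (nat_lit 11) (nat_lit 13))
    (@En.i (nat_lit 3465) (nat_lit 12) (nat_lit 10))
    (@En.n l17920 (nat_lit 10765) (nat_lit 13) (nat_lit 4))
    (@En.n l2205 (nat_lit 5634) (nat_lit 14) (nat_lit 9))
    (@En.i (nat_lit 11916) (nat_lit 13) (nat_lit 5))
    (@En.n l50 (nat_lit 12595) (nat_lit 15) (nat_lit 2))))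
  (@Cl.mk (nat_lit 0x30009000c00090006000c0004000b000700040007000c0005000d000a0004) (nat_lit 0x584020400050340) (nat_lit 16) Lb.e (@T16.mk En
    (@En.n l29649 (nat_lit 12587) (nat_lit 0) (nat_lit 4))
    (@En.n l217 (nat_lit 11789) (nat_lit 0) (nat_lit 10))
    (@En.n l29650 (nat_lit 1055) (nat_lit 1) (nat_lit 13))
    (@En.n l29651 (nat_lit 11984) (nat_lit 3) (nat_lit 5))
    (@En.n l29652 (nat_lit 9675) (nat_lit 8) (nat_lit 12))
    (@En.n l9013 (nat_lit 12652) (nat_lit 11) (nat_lit 7))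
    (@En.n l21636 (nat_lit 11892) (nat_lit 6) (nat_lit 4))
    (@En.n l7227 (nat_lit 12438) (nat_lit 0) (nat_lit 7))
    (@En.n l27634 (nat_lit 10688) (nat_lit 1) (nat_lit 11))
    (@En.n l29653 (nat_lit 5861) (nat_lit 9) (nat_lit 4))
    (@En.n l29654 (nat_lit 10772) (nat_lit 0) (nat_lit 12))
    (@En.n l29650 (nat_lit 11838) (nat_lit 1) (nat_lit 6))
    (@En.i (nat_lit 10145) (nat_lit 13) (nat_lit 9))
    (@En.n l21639 (nat_lit 12597) (nat_lit 6) (nat_lit 12))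
    (@En.n l29655 (nat_lit 11094) (nat_lit 14) (nat_lit 9))
    (@En.n l50 (nat_lit 10771) (nat_lit 15) (nat_lit 3))))
  (@Cl.mk (nat_lit 0x200050008000c0005000d000b00040003000c00080005000b0004000e000b) (nat_lit 0x12034007303055) (nat_lit 16) Lb.e (@T16.mk En
    (@En.n l20053 (nat_lit 12454) (nat_lit 9) (nat_lit 11))
    (@En.n l36904 (nat_lit 12598) (nat_lit 1) (nat_lit 14))
    (@En.n l50 (nat_lit 12495) (nat_lit 2) (nat_lit 4))
    (@En.n l20962 (nat_lit 12355) (nat_lit 3) (nat_lit 11))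
    (@En.n l4353 (nat_lit 12606) (nat_lit 4) (nat_lit 5))
    (@En.n l6081 (nat_lit 11929) (nat_lit 5) (nat_lit 8))
    (@En.n l12570 (nat_lit 7557) (nat_lit 7) (nat_lit 12))
    (@En.n l28 (nat_lit 12356) (nat_lit 7) (nat_lit 3))
    (@En.n l22450 (nat_lit 12600) (nat_lit 8) (nat_lit 4))
    (@En.i (nat_lit 12642) (nat_lit 10) (nat_lit 11))
    (@En.n l4353 (nat_lit 1053) (nat_lit 11) (nat_lit 13))
    (@En.n l117 (nat_lit 12015) (nat_lit 12) (nat_lit 5))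
    (@En.n l12570 (nat_lit 12695) (nat_lit 13) (nat_lit 12))
    (@En.n l671 (nat_lit 4040) (nat_lit 10) (nat_lit 8))
    (@En.n l6081 (nat_lit 11906) (nat_lit 13) (nat_lit 5))
    (@En.n l3 (nat_lit 12597) (nat_lit 15) (nat_lit 2))))
  (@Cl.mk (nat_lit 0x2000700050008000c0006000d000b00040003000900080005000b000e000a) (nat_lit 0x3303400440244) (nat_lit 16) Lb.e (@T16.mk En
    (@En.n l21329 (nat_lit 11879) (nat_lit 10) (nat_lit 10))
    (@En.n l21330 (nat_lit 5717) (nat_lit 4) (nat_lit 14))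
    (@En.n l19948 (nat_lit 12273) (nat_lit 2) (nat_lit 11))
    (@En.n l3348 (nat_lit 12607) (nat_lit 3) (nat_lit 5))
    (@En.n l1722 (nat_lit 4177) (nat_lit 4) (nat_lit 8))
    (@En.n l2039 (nat_lit 9366) (nat_lit 5) (nat_lit 9))
    (@En.n l50 (nat_lit 12270) (nat_lit 6) (nat_lit 3))
    (@En.n l5546 (nat_lit 10743) (nat_lit 7) (nat_lit 4))
    (@En.n l21331 (nat_lit 12644) (nat_lit 9) (nat_lit 11))
    (@En.n l1722 (nat_lit 1051) (nat_lit 10) (nat_lit 13))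
    (@En.n l16903 (nat_lit 12016) (nat_lit 11) (nat_lit 6))
    (@En.n l21332 (nat_lit 12698) (nat_lit 12) (nat_lit 12))
    (@En.n l21333 (nat_lit 12618) (nat_lit 13) (nat_lit 8))
    (@En.n l21334 (nat_lit 12597) (nat_lit 14) (nat_lit 5))
    (@En.n l12893 (nat_lit 12596) (nat_lit 7) (nat_lit 7))
    (@En.n l107 (nat_lit 12598) (nat_lit 15) (nat_lit 2))))
  (@Cl.mk (nat_lit 0x200050008000c000c000a000700040004000c00080006000b0004000e0009) (nat_lit 0x258500033030a3) (nat_lit 16) Lb.e (@T16.mk En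
    (@En.n l4291 (nat_lit 11999) (nat_lit 1) (nat_lit 9))
    (@En.n l25820 (nat_lit 10745) (nat_lit 1) (nat_lit 14))
    (@En.n l11417 (nat_lit 5309) (nat_lit 2) (nat_lit 4))
    (@En.n l11 (nat_lit 12601) (nat_lit 3) (nat_lit 11))
    (@En.n l3189 (nat_lit 12603) (nat_lit 4) (nat_lit 6))
    (@En.n l35968 (nat_lit 8073) (nat_lit 5) (nat_lit 8))
    (@En.n l4466 (nat_lit 9915) (nat_lit 7) (nat_lit 12))
    (@En.n l386 (nat_lit 12299) (nat_lit 7) (nat_lit 4))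
    (@En.n l35969 (nat_lit 12597) (nat_lit 8) (nat_lit 4))
    (@En.n l21137 (nat_lit 3928) (nat_lit 0) (nat_lit 7))
    (@En.n l1321 (nat_lit 12641) (nat_lit 11) (nat_lit 10))
    (@En.n l2593 (nat_lit 12600) (nat_lit 12) (nat_lit 12))
    (@En.n l21137 (nat_lit 12794) (nat_lit 13) (nat_lit 12))
    (@En.n l35970 (nat_lit 12550) (nat_lit 10) (nat_lit 8))
    (@En.n l513 (nat_lit 5677) (nat_lit 13) (nat_lit 5))
    (@En.n l3 (nat_lit 12599) (nat_lit 15) (nat_lit 2))))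
  (@Cl.mk (nat_lit 0x200050008000c00090006000e00040002000c00080007000b0004000e000a) (nat_lit 0x27501004606053) (nat_lit 16) Lb.e (@T16.mk En
    (@En.n l9921 (nat_lit 12338) (nat_lit 9) (nat_lit 10))
    (@En.i (nat_lit 10743) (nat_lit 1) (nat_lit 14))
    (@En.n l22668 (nat_lit 12612) (nat_lit 2) (nat_lit 4))
    (@En.n l11 (nat_lit 12343) (nat_lit 3) (nat_lit 11))
    (@En.n l55 (nat_lit 12602) (nat_lit 4) (nat_lit 7))
    (@En.n l1353 (nat_lit 8068) (nat_lit 5) (nat_lit 8))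
    (@En.n l12637 (nat_lit 4933) (nat_lit 7) (nat_lit 12))
    (@En.n l50 (nat_lit 12600) (nat_lit 7) (nat_lit 2))
    (@En.n l564 (nat_lit 12599) (nat_lit 8) (nat_lit 4))
    (@En.n l22669 (nat_lit 1056) (nat_lit 10) (nat_lit 14))
    (@En.n l2037 (nat_lit 5554) (nat_lit 2) (nat_lit 6))
    (@En.n l4157 (nat_lit 5784) (nat_lit 12) (nat_lit 9))
    (@En.n l2037 (nat_lit 12699) (nat_lit 13) (nat_lit 12))
    (@En.n l9924 (nat_lit 11367) (nat_lit 10) (nat_lit 8))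
    (@En.n l1643 (nat_lit 12202) (nat_lit 13) (nat_lit 5))
    (@En.n l3 (nat_lit 12600) (nat_lit 15) (nat_lit 2))))
  (@Cl.mk (nat_lit 0x20005000c0008000c000c0004000800040004000d0008000b0003000e0008) (nat_lit 0x83640300332094) (nat_lit 16) Lb.e (@T16.mk En
    (@En.n l4130 (nat_lit 11998) (nat_lit 14) (nat_lit 8))
    (@En.i (nat_lit 10744) (nat_lit 1) (nat_lit 14))
    (@En.i (nat_lit 12610) (nat_lit 2) (nat_lit 3))
    (@En.i (nat_lit 2740) (nat_lit 3) (nat_lit 11))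
    (@En.n l612 (nat_lit 8072) (nat_lit 4) (nat_lit 8))
    (@En.i (nat_lit 9912) (nat_lit 6) (nat_lit 13))
    (@En.i (nat_lit 12296) (nat_lit 12) (nat_lit 4))
    (@En.n l1722 (nat_lit 12355) (nat_lit 7) (nat_lit 4))
    (@En.i (nat_lit 3920) (nat_lit 0) (nat_lit 8))
    (@En.i (nat_lit 12030) (nat_lit 9) (nat_lit 4))
    (@En.n l2593 (nat_lit 12343) (nat_lit 11) (nat_lit 12))
    (@En.n l4365 (nat_lit 12237) (nat_lit 12) (nat_lit 12))
    (@En.i (nat_lit 12599) (nat_lit 13) (nat_lit 8))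
    (@En.n l2832 (nat_lit 11312) (nat_lit 14) (nat_lit 12))
    (@En.n l513 (nat_lit 5678) (nat_lit 13) (nat_lit 5))
    (@En.n l3 (nat_lit 12601) (nat_lit 15) (nat_lit 2))))
  (@Cl.mk (nat_lit 0x20005000d000b000900030007000e00050002000d0007000b0003000e0009) (nat_lit 0xa5200100405047) (nat_lit 16) Lb.e (@T16.mk En
    (@En.n l13540 (nat_lit 12334) (nat_lit 10) (nat_lit 9))
    (@En.i (nat_lit 10746) (nat_lit 1) (nat_lit 14))
    (@En.n l25310 (nat_lit 12609) (nat_lit 2) (nat_lit 3))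
    (@En.n l5050 (nat_lit 2692) (nat_lit 3) (nat_lit 11))
    (@En.n l1353 (nat_lit 8064) (nat_lit 4) (nat_lit 7))
    (@En.n l9025 (nat_lit 4932) (nat_lit 6) (nat_lit 13))
    (@En.n l50 (nat_lit 12602) (nat_lit 6) (nat_lit 2))
    (@En.n l13542 (nat_lit 12603) (nat_lit 7) (nat_lit 5))
    (@En.n l8897 (nat_lit 218) (nat_lit 9) (nat_lit 14))
    (@En.n l3213 (nat_lit 8927) (nat_lit 2) (nat_lit 7))
    (@En.n l28 (nat_lit 12343) (nat_lit 10) (nat_lit 3))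
    (@En.n l25311 (nat_lit 5786) (nat_lit 12) (nat_lit 9))
    (@En.i (nat_lit 12355) (nat_lit 13) (nat_lit 11))
    (@En.n l7683 (nat_lit 7940) (nat_lit 7) (nat_lit 13))
    (@En.n l1643 (nat_lit 12726) (nat_lit 13) (nat_lit 5))
    (@En.n l3 (nat_lit 12602) (nat_lit 15) (nat_lit 2))))
  (@Cl.mk (nat_lit 0x20005000c000b000b000a0004000800050005000d0006000b0003000e0008) (nat_lit 0x75640200502054) (nat_lit 16) Lb.e (@T16.mk En
    (@En.n l61 (nat_lit 12003) (nat_lit 14) (nat_lit 8))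
    (@En.i (nat_lit 12604) (nat_lit 1) (nat_lit 14))
    (@En.n l7577 (nat_lit 12605) (nat_lit 2) (nat_lit 3))
    (@En.n l2936 (nat_lit 2696) (nat_lit 3) (nat_lit 11))
    (@En.i (nat_lit 5315) (nat_lit 4) (nat_lit 6))
    (@En.n l797 (nat_lit 9800) (nat_lit 6) (nat_lit 13))
    (@En.n l11 (nat_lit 12295) (nat_lit 6) (nat_lit 5))
    (@En.n l6147 (nat_lit 12606) (nat_lit 7) (nat_lit 5))
    (@En.i (nat_lit 10228) (nat_lit 9) (nat_lit 8))
    (@En.n l11364 (nat_lit 12601) (nat_lit 9) (nat_lit 4))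
    (@En.n l55 (nat_lit 12235) (nat_lit 11) (nat_lit 10))
    (@En.n l13545 (nat_lit 12602) (nat_lit 12) (nat_lit 11))
    (@En.n l7062 (nat_lit 12029) (nat_lit 13) (nat_lit 11))
    (@En.n l72 (nat_lit 11311) (nat_lit 14) (nat_lit 12))
    (@En.n l6142 (nat_lit 12724) (nat_lit 13) (nat_lit 5))
    (@En.n l17 (nat_lit 12603) (nat_lit 15) (nat_lit 2))))
  (@Cl.mk (nat_lit 0x200060005000c000b000b000a0004000900050005000a0006000b000e0007) (nat_lit 0x7693020050140) (nat_lit 16) Lb.e (@T16.mk En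
    (@En.n l11132 (nat_lit 10747) (nat_lit 7) (nat_lit 7))
    (@En.n l7662 (nat_lit 12342) (nat_lit 4) (nat_lit 14))
    (@En.n l27247 (nat_lit 2688) (nat_lit 2) (nat_lit 11))
    (@En.n l27248 (nat_lit 6445) (nat_lit 3) (nat_lit 6))
    (@En.n l27247 (nat_lit 9470) (nat_lit 4) (nat_lit 10))
    (@En.n l15244 (nat_lit 12300) (nat_lit 5) (nat_lit 5))
    (@En.n l17871 (nat_lit 12607) (nat_lit 6) (nat_lit 5))
    (@En.n l7662 (nat_lit 10240) (nat_lit 8) (nat_lit 9))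
    (@En.n l11364 (nat_lit 10744) (nat_lit 8) (nat_lit 4))
    (@En.n l27249 (nat_lit 12234) (nat_lit 10) (nat_lit 10))
    (@En.n l13545 (nat_lit 10746) (nat_lit 11) (nat_lit 11))
    (@En.n l7062 (nat_lit 12031) (nat_lit 12) (nat_lit 11))
    (@En.n l72 (nat_lit 7177) (nat_lit 13) (nat_lit 12))
    (@En.n l403 (nat_lit 12603) (nat_lit 14) (nat_lit 5))
    (@En.i (nat_lit 11807) (nat_lit 13) (nat_lit 6))
    (@En.n l17 (nat_lit 12604) (nat_lit 15) (nat_lit 2))))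
  (@Cl.mk (nat_lit 0x20006000c000b000b00090004000800050005000d000a00070003000e0008) (nat_lit 0x55620200460056) (nat_lit 16) Lb.e (@T16.mk En
    (@En.n l13565 (nat_lit 12002) (nat_lit 14) (nat_lit 8))
    (@En.n l6029 (nat_lit 11517) (nat_lit 1) (nat_lit 14))
    (@En.n l13566 (nat_lit 12603) (nat_lit 2) (nat_lit 3))
    (@En.i (nat_lit 4898) (nat_lit 3) (nat_lit 7))
    (@En.n l13567 (nat_lit 12604) (nat_lit 4) (nat_lit 10))
    (@En.n l3786 (nat_lit 9799) (nat_lit 6) (nat_lit 13))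
    (@En.n l13568 (nat_lit 12297) (nat_lit 6) (nat_lit 5))
    (@En.i (nat_lit 12608) (nat_lit 7) (nat_lit 5))
    (@En.n l2900 (nat_lit 10227) (nat_lit 9) (nat_lit 8))
    (@En.n l13569 (nat_lit 12610) (nat_lit 9) (nat_lit 4))
    (@En.n l2337 (nat_lit 12503) (nat_lit 11) (nat_lit 9))
    (@En.n l601 (nat_lit 12609) (nat_lit 12) (nat_lit 11))
    (@En.n l13570 (nat_lit 12033) (nat_lit 13) (nat_lit 11))
    (@En.n l11347 (nat_lit 7942) (nat_lit 14) (nat_lit 12))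
    (@En.n l13571 (nat_lit 12708) (nat_lit 13) (nat_lit 6))
    (@En.n l3 (nat_lit 12605) (nat_lit 15) (nat_lit 2))))
  (@Cl.mk (nat_lit 0x20005000b000b0005000c000b000500050004000d0005000b0003000e000b) (nat_lit 0x42032000407048) (nat_lit 16) Lb.e (@T16.mk En
    (@En.n l15253 (nat_lit 12112) (nat_lit 14) (nat_lit 11))
    (@En.n l5 (nat_lit 12607) (nat_lit 1) (nat_lit 14))
    (@En.n l21185 (nat_lit 12608) (nat_lit 2) (nat_lit 3))
    (@En.n l227 (nat_lit 1271) (nat_lit 3) (nat_lit 11))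
    (@En.i (nat_lit 5790) (nat_lit 4) (nat_lit 5))
    (@En.n l287 (nat_lit 7560) (nat_lit 6) (nat_lit 13))
    (@En.n l24977 (nat_lit 12353) (nat_lit 6) (nat_lit 4))
    (@En.n l5761 (nat_lit 12753) (nat_lit 7) (nat_lit 5))
    (@En.n l8851 (nat_lit 12355) (nat_lit 8) (nat_lit 5))
    (@En.n l55 (nat_lit 9219) (nat_lit 10) (nat_lit 11))
    (@En.i (nat_lit 292) (nat_lit 11) (nat_lit 12))
    (@En.n l615 (nat_lit 10697) (nat_lit 12) (nat_lit 5))
    (@En.n l886 (nat_lit 12742) (nat_lit 13) (nat_lit 11))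
    (@En.n l5373 (nat_lit 9191) (nat_lit 14) (nat_lit 11))
    (@En.i (nat_lit 12728) (nat_lit 13) (nat_lit 5))
    (@En.n l17 (nat_lit 12606) (nat_lit 15) (nat_lit 2))))
  (@Cl.mk (nat_lit 0x200060005000b000b0006000c000b000500050004000a0005000b000e000a) (nat_lit 0x5303200050837) (nat_lit 16) Lb.e (@T16.mk En
    (@En.n l19962 (nat_lit 10283) (nat_lit 2) (nat_lit 10))
    (@En.n l1063 (nat_lit 11062) (nat_lit 4) (nat_lit 14))
    (@En.n l19963 (nat_lit 1247) (nat_lit 2) (nat_lit 11))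
    (@En.n l6494 (nat_lit 5621) (nat_lit 3) (nat_lit 5))
    (@En.n l287 (nat_lit 7575) (nat_lit 4) (nat_lit 10))
    (@En.n l19964 (nat_lit 12267) (nat_lit 5) (nat_lit 4))
    (@En.n l19965 (nat_lit 12752) (nat_lit 6) (nat_lit 5))
    (@En.n l19966 (nat_lit 12273) (nat_lit 7) (nat_lit 5))
    (@En.n l19967 (nat_lit 12750) (nat_lit 9) (nat_lit 11))
    (@En.i (nat_lit 291) (nat_lit 10) (nat_lit 12))
    (@En.n l19968 (nat_lit 10695) (nat_lit 11) (nat_lit 6))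
    (@En.n l1058 (nat_lit 12746) (nat_lit 5) (nat_lit 11))
    (@En.n l19969 (nat_lit 12265) (nat_lit 13) (nat_lit 11))
    (@En.n l699 (nat_lit 12606) (nat_lit 14) (nat_lit 5))
    (@En.n l17 (nat_lit 11838) (nat_lit 13) (nat_lit 6))
    (@En.n l18 (nat_lit 12607) (nat_lit 15) (nat_lit 2))))
noncomputable def a788 : T16 Cl := @T16.mk Cl
  (@Cl.mk (nat_lit 0x20006000b000b0005000c000a000500050004000d000a00060003000e000b) (nat_lit 0x42012000360048) (nat_lit 16) Lb.e (@T16.mk En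
    (@En.n l11343 (nat_lit 12111) (nat_lit 14) (nat_lit 11))
    (@En.n l11344 (nat_lit 11556) (nat_lit 1) (nat_lit 14))
    (@En.n l11345 (nat_lit 12606) (nat_lit 2) (nat_lit 3))
    (@En.i (nat_lit 5739) (nat_lit 3) (nat_lit 6))
    (@En.n l11346 (nat_lit 12607) (nat_lit 4) (nat_lit 10))
    (@En.n l11347 (nat_lit 7563) (nat_lit 6) (nat_lit 13))
    (@En.n l11348 (nat_lit 12350) (nat_lit 6) (nat_lit 4))
    (@En.n l11349 (nat_lit 12754) (nat_lit 11) (nat_lit 5))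
    (@En.n l7551 (nat_lit 12354) (nat_lit 8) (nat_lit 5))
    (@En.n l11350 (nat_lit 8954) (nat_lit 10) (nat_lit 10))
    (@En.n l11351 (nat_lit 294) (nat_lit 11) (nat_lit 12))
    (@En.n l11352 (nat_lit 10700) (nat_lit 12) (nat_lit 5))
    (@En.n l11353 (nat_lit 12740) (nat_lit 5) (nat_lit 11))
    (@En.n l11347 (nat_lit 9188) (nat_lit 14) (nat_lit 11))
    (@En.n l11354 (nat_lit 11852) (nat_lit 13) (nat_lit 6))
    (@En.n l3 (nat_lit 12608) (nat_lit 15) (nat_lit 2))))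
  (@Cl.mk (nat_lit 0x20006000d000b000800030007000e00050002000d000a00080003000e0009) (nat_lit 0xa5300100253047) (nat_lit 16) Lb.e (@T16.mk En
    (@En.n l11592 (nat_lit 12337) (nat_lit 10) (nat_lit 9))
    (@En.n l8966 (nat_lit 11514) (nat_lit 1) (nat_lit 14))
    (@En.n l11593 (nat_lit 12602) (nat_lit 2) (nat_lit 3))
    (@En.i (nat_lit 4907) (nat_lit 3) (nat_lit 8))
    (@En.n l11594 (nat_lit 10746) (nat_lit 4) (nat_lit 10))
    (@En.n l3401 (nat_lit 5360) (nat_lit 6) (nat_lit 13))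
    (@En.n l50 (nat_lit 12609) (nat_lit 6) (nat_lit 2))
    (@En.n l7 (nat_lit 12605) (nat_lit 7) (nat_lit 5))
    (@En.n l11595 (nat_lit 301) (nat_lit 9) (nat_lit 14))
    (@En.n l11596 (nat_lit 10224) (nat_lit 2) (nat_lit 7))
    (@En.n l11597 (nat_lit 12611) (nat_lit 10) (nat_lit 3))
    (@En.n l1578 (nat_lit 5781) (nat_lit 0) (nat_lit 8))
    (@En.n l11598 (nat_lit 12354) (nat_lit 13) (nat_lit 11))
    (@En.n l11599 (nat_lit 7937) (nat_lit 7) (nat_lit 13))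
    (@En.n l11600 (nat_lit 12674) (nat_lit 7) (nat_lit 6))
    (@En.n l3 (nat_lit 12609) (nat_lit 15) (nat_lit 2))))
  (@Cl.mk (nat_lit 0x20006000c0007000c000c0004000800040004000d000a00090003000e0008) (nat_lit 0x60640100382096) (nat_lit 16) Lb.e (@T16.mk En
    (@En.n l4130 (nat_lit 11997) (nat_lit 14) (nat_lit 8))
    (@En.n l7822 (nat_lit 12372) (nat_lit 1) (nat_lit 14))
    (@En.n l18 (nat_lit 12601) (nat_lit 2) (nat_lit 3))
    (@En.n l5391 (nat_lit 12564) (nat_lit 3) (nat_lit 9))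
    (@En.n l61 (nat_lit 10744) (nat_lit 4) (nat_lit 10))
    (@En.n l4033 (nat_lit 9913) (nat_lit 6) (nat_lit 13))
    (@En.n l10247 (nat_lit 12298) (nat_lit 12) (nat_lit 4))
    (@En.n l27251 (nat_lit 12354) (nat_lit 7) (nat_lit 4))
    (@En.n l11416 (nat_lit 3922) (nat_lit 0) (nat_lit 8))
    (@En.n l3509 (nat_lit 12034) (nat_lit 9) (nat_lit 4))
    (@En.n l13555 (nat_lit 12611) (nat_lit 11) (nat_lit 12))
    (@En.n l4365 (nat_lit 12238) (nat_lit 12) (nat_lit 12))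
    (@En.n l11417 (nat_lit 5309) (nat_lit 13) (nat_lit 7))
    (@En.n l27252 (nat_lit 11313) (nat_lit 14) (nat_lit 12))
    (@En.n l2843 (nat_lit 12707) (nat_lit 13) (nat_lit 6))
    (@En.n l3 (nat_lit 12610) (nat_lit 15) (nat_lit 2))))
  (@Cl.mk (nat_lit 0x20006000d0007000c00030007000e00040002000d000a00090003000e0009) (nat_lit 0x903005002520a7) (nat_lit 16) Lb.e (@T16.mk En
    (@En.n l2224 (nat_lit 12331) (nat_lit 10) (nat_lit 9))
    (@En.n l2055 (nat_lit 5959) (nat_lit 1) (nat_lit 14))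
    (@En.n l13304 (nat_lit 12343) (nat_lit 2) (nat_lit 3))
    (@En.n l2054 (nat_lit 12613) (nat_lit 3) (nat_lit 9))
    (@En.n l2225 (nat_lit 10742) (nat_lit 4) (nat_lit 10))
    (@En.n l2436 (nat_lit 4931) (nat_lit 6) (nat_lit 13))
    (@En.n l17 (nat_lit 12611) (nat_lit 6) (nat_lit 2))
    (@En.n l6458 (nat_lit 12610) (nat_lit 7) (nat_lit 4))
    (@En.n l1018 (nat_lit 1159) (nat_lit 9) (nat_lit 14))
    (@En.i (nat_lit 3921) (nat_lit 2) (nat_lit 7))
    (@En.n l6460 (nat_lit 12609) (nat_lit 10) (nat_lit 3))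
    (@En.n l2436 (nat_lit 12755) (nat_lit 0) (nat_lit 12))
    (@En.n l4001 (nat_lit 12612) (nat_lit 13) (nat_lit 7))
    (@En.n l7619 (nat_lit 7938) (nat_lit 7) (nat_lit 13))
    (@En.n l13306 (nat_lit 12676) (nat_lit 7) (nat_lit 6))
    (@En.n l11 (nat_lit 12611) (nat_lit 15) (nat_lit 2))))
  (@Cl.mk (nat_lit 0x200070007000c00080006000e00040002000c0009000900080004000e000a) (nat_lit 0x730a0057240b1) (nat_lit 16) Lb.e (@T16.mk En
    (@En.n l9810 (nat_lit 5618) (nat_lit 9) (nat_lit 10))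
    (@En.n l9811 (nat_lit 5715) (nat_lit 1) (nat_lit 14))
    (@En.n l9812 (nat_lit 9215) (nat_lit 2) (nat_lit 4))
    (@En.i (nat_lit 12609) (nat_lit 3) (nat_lit 8))
    (@En.n l575 (nat_lit 12622) (nat_lit 7) (nat_lit 9))
    (@En.n l9813 (nat_lit 10743) (nat_lit 5) (nat_lit 9))
    (@En.n l998 (nat_lit 5242) (nat_lit 7) (nat_lit 12))
    (@En.n l50 (nat_lit 12612) (nat_lit 7) (nat_lit 2))
    (@En.n l4263 (nat_lit 5309) (nat_lit 8) (nat_lit 4))
    (@En.n l9814 (nat_lit 4158) (nat_lit 10) (nat_lit 14))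
    (@En.n l9815 (nat_lit 2963) (nat_lit 2) (nat_lit 6))
    (@En.i (nat_lit 5779) (nat_lit 12) (nat_lit 8))
    (@En.n l9816 (nat_lit 9990) (nat_lit 13) (nat_lit 12))
    (@En.n l9817 (nat_lit 5620) (nat_lit 14) (nat_lit 7))
    (@En.n l9818 (nat_lit 9288) (nat_lit 6) (nat_lit 7))
    (@En.n l3 (nat_lit 12612) (nat_lit 15) (nat_lit 2))))
  (@Cl.mk (nat_lit 0x2000d000c00070003000c00040008000e00040002000e00090002000e0008) (nat_lit 0x480070170091096) (nat_lit 16) Lb.e (@T16.mk En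
    (@En.n l2563 (nat_lit 12617) (nat_lit 14) (nat_lit 8))
    (@En.n l9647 (nat_lit 12115) (nat_lit 1) (nat_lit 14))
    (@En.n l17 (nat_lit 12613) (nat_lit 2) (nat_lit 2))
    (@En.n l4798 (nat_lit 8070) (nat_lit 14) (nat_lit 9))
    (@En.n l998 (nat_lit 6720) (nat_lit 1) (nat_lit 14))
    (@En.n l50 (nat_lit 12613) (nat_lit 5) (nat_lit 2))
    (@En.n l7 (nat_lit 12564) (nat_lit 6) (nat_lit 4))
    (@En.n l9647 (nat_lit 4168) (nat_lit 1) (nat_lit 14))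
    (@En.i (nat_lit 5648) (nat_lit 5) (nat_lit 8))
    (@En.n l2678 (nat_lit 4907) (nat_lit 9) (nat_lit 4))
    (@En.n l5271 (nat_lit 10107) (nat_lit 11) (nat_lit 12))
    (@En.n l685 (nat_lit 12614) (nat_lit 11) (nat_lit 3))
    (@En.i (nat_lit 12622) (nat_lit 0) (nat_lit 7))
    (@En.n l9648 (nat_lit 12615) (nat_lit 14) (nat_lit 12))
    (@En.n l9401 (nat_lit 8887) (nat_lit 12) (nat_lit 13))
    (@En.n l3 (nat_lit 12613) (nat_lit 15) (nat_lit 2))))
  (@Cl.mk (nat_lit 0x2000d0006000d0003000c00030008000e00040002000e000a0002000e0008) (nat_lit 0x509070140078096) (nat_lit 16) Lb.e (@T16.mk En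
    (@En.n l6459 (nat_lit 12616) (nat_lit 14) (nat_lit 8))
    (@En.n l2055 (nat_lit 12114) (nat_lit 1) (nat_lit 14))
    (@En.n l3 (nat_lit 12614) (nat_lit 2) (nat_lit 2))
    (@En.i (nat_lit 12252) (nat_lit 14) (nat_lit 10))
    (@En.i (nat_lit 6719) (nat_lit 1) (nat_lit 14))
    (@En.n l17 (nat_lit 12614) (nat_lit 5) (nat_lit 2))
    (@En.i (nat_lit 12525) (nat_lit 6) (nat_lit 4))
    (@En.n l2055 (nat_lit 2733) (nat_lit 1) (nat_lit 14))
    (@En.i (nat_lit 5642) (nat_lit 5) (nat_lit 8))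
    (@En.i (nat_lit 12615) (nat_lit 9) (nat_lit 3))
    (@En.i (nat_lit 11635) (nat_lit 0) (nat_lit 12))
    (@En.n l4001 (nat_lit 12613) (nat_lit 11) (nat_lit 3))
    (@En.i (nat_lit 1898) (nat_lit 0) (nat_lit 13))
    (@En.i (nat_lit 12611) (nat_lit 14) (nat_lit 6))
    (@En.n l1014 (nat_lit 8868) (nat_lit 12) (nat_lit 13))
    (@En.n l11 (nat_lit 12614) (nat_lit 15) (nat_lit 2))))
  (@Cl.mk (nat_lit 0x2000c0006000d000b000400030008000e00050002000e000a0002000e0008) (nat_lit 0x70a300220047046) (nat_lit 16) Lb.e (@T16.mk En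
    (@En.n l6459 (nat_lit 12618) (nat_lit 14) (nat_lit 8))
    (@En.n l2055 (nat_lit 12118) (nat_lit 1) (nat_lit 14))
    (@En.n l3 (nat_lit 12615) (nat_lit 2) (nat_lit 2))
    (@En.i (nat_lit 12254) (nat_lit 14) (nat_lit 10))
    (@En.i (nat_lit 5005) (nat_lit 1) (nat_lit 14))
    (@En.n l17 (nat_lit 12615) (nat_lit 5) (nat_lit 2))
    (@En.n l50 (nat_lit 12523) (nat_lit 6) (nat_lit 5))
    (@En.n l2055 (nat_lit 2998) (nat_lit 1) (nat_lit 14))
    (@En.i (nat_lit 7923) (nat_lit 5) (nat_lit 8))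
    (@En.n l50 (nat_lit 12614) (nat_lit 9) (nat_lit 3))
    (@En.i (nat_lit 2116) (nat_lit 0) (nat_lit 4))
    (@En.i (nat_lit 12571) (nat_lit 12) (nat_lit 11))
    (@En.i (nat_lit 1891) (nat_lit 13) (nat_lit 13))
    (@En.n l6460 (nat_lit 12609) (nat_lit 14) (nat_lit 6))
    (@En.n l1014 (nat_lit 7981) (nat_lit 12) (nat_lit 12))
    (@En.n l11 (nat_lit 12615) (nat_lit 15) (nat_lit 2))))
  (@Cl.mk (nat_lit 0x200080008000d0005000d0003000b000300080008000e00050002000e000b) (nat_lit 0x524080504250089) (nat_lit 16) Lb.e (@T16.mk En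
    (@En.n l387 (nat_lit 11064) (nat_lit 14) (nat_lit 11))
    (@En.i (nat_lit 6596) (nat_lit 1) (nat_lit 14))
    (@En.n l18 (nat_lit 12616) (nat_lit 2) (nat_lit 2))
    (@En.n l18602 (nat_lit 12266) (nat_lit 3) (nat_lit 5))
    (@En.n l8199 (nat_lit 4041) (nat_lit 5) (nat_lit 14))
    (@En.n l15969 (nat_lit 12614) (nat_lit 8) (nat_lit 8))
    (@En.n l766 (nat_lit 12500) (nat_lit 6) (nat_lit 8))
    (@En.i (nat_lit 12618) (nat_lit 7) (nat_lit 3))
    (@En.n l387 (nat_lit 12286) (nat_lit 0) (nat_lit 11))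
    (@En.i (nat_lit 12617) (nat_lit 9) (nat_lit 3))
    (@En.n l15997 (nat_lit 1899) (nat_lit 11) (nat_lit 13))
    (@En.n l18603 (nat_lit 12331) (nat_lit 8) (nat_lit 5))
    (@En.i (nat_lit 7978) (nat_lit 13) (nat_lit 13))
    (@En.n l2593 (nat_lit 11065) (nat_lit 14) (nat_lit 8))
    (@En.i (nat_lit 12329) (nat_lit 12) (nat_lit 8))
    (@En.n l3 (nat_lit 12616) (nat_lit 15) (nat_lit 2))))
  (@Cl.mk (nat_lit 0x200080008000d000c00060003000b000400080008000e00050002000e000a) (nat_lit 0x5237006042800a6) (nat_lit 16) Lb.e (@T16.mk En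
    (@En.n l387 (nat_lit 11553) (nat_lit 14) (nat_lit 10))
    (@En.n l8197 (nat_lit 6721) (nat_lit 1) (nat_lit 14))
    (@En.n l18 (nat_lit 12617) (nat_lit 2) (nat_lit 2))
    (@En.n l8198 (nat_lit 11559) (nat_lit 3) (nat_lit 5))
    (@En.n l8199 (nat_lit 12619) (nat_lit 5) (nat_lit 14))
    (@En.n l8200 (nat_lit 12613) (nat_lit 8) (nat_lit 8))
    (@En.n l8201 (nat_lit 12502) (nat_lit 6) (nat_lit 8))
    (@En.n l1161 (nat_lit 4903) (nat_lit 7) (nat_lit 4))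
    (@En.n l972 (nat_lit 7970) (nat_lit 9) (nat_lit 11))
    (@En.n l11 (nat_lit 12616) (nat_lit 9) (nat_lit 3))
    (@En.n l2728 (nat_lit 5954) (nat_lit 0) (nat_lit 6))
    (@En.n l55 (nat_lit 12618) (nat_lit 12) (nat_lit 12))
    (@En.i (nat_lit 7977) (nat_lit 13) (nat_lit 13))
    (@En.n l2593 (nat_lit 12621) (nat_lit 14) (nat_lit 8))
    (@En.i (nat_lit 12636) (nat_lit 12) (nat_lit 8))
    (@En.n l3 (nat_lit 12617) (nat_lit 15) (nat_lit 2))))
  (@Cl.mk (nat_lit 0x200080008000c0005000d000a0004000300080008000e00060002000e000b) (nat_lit 0x526093005330059) (nat_lit 16) Lb.e (@T16.mk En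
    (@En.n l15993 (nat_lit 11057) (nat_lit 14) (nat_lit 11))
    (@En.n l15994 (nat_lit 5003) (nat_lit 1) (nat_lit 14))
    (@En.n l18 (nat_lit 12618) (nat_lit 2) (nat_lit 2))
    (@En.n l8261 (nat_lit 12524) (nat_lit 3) (nat_lit 6))
    (@En.n l8199 (nat_lit 12620) (nat_lit 5) (nat_lit 14))
    (@En.n l15969 (nat_lit 12615) (nat_lit 8) (nat_lit 8))
    (@En.n l15995 (nat_lit 7925) (nat_lit 6) (nat_lit 8))
    (@En.n l28 (nat_lit 12616) (nat_lit 7) (nat_lit 3))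
    (@En.n l15996 (nat_lit 4905) (nat_lit 8) (nat_lit 4))
    (@En.n l8261 (nat_lit 11708) (nat_lit 10) (nat_lit 10))
    (@En.n l15997 (nat_lit 1893) (nat_lit 11) (nat_lit 13))
    (@En.n l15996 (nat_lit 12337) (nat_lit 8) (nat_lit 5))
    (@En.i (nat_lit 7979) (nat_lit 13) (nat_lit 12))
    (@En.n l2593 (nat_lit 11061) (nat_lit 14) (nat_lit 8))
    (@En.n l3942 (nat_lit 12652) (nat_lit 12) (nat_lit 8))
    (@En.n l3 (nat_lit 12618) (nat_lit 15) (nat_lit 2))))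
  (@Cl.mk (nat_lit 0x200080005000d000c00060003000c00040008000e00040002000b000e000a) (nat_lit 0x6048006067003a6) (nat_lit 16) Lb.e (@T16.mk En
    (@En.n l15598 (nat_lit 12686) (nat_lit 13) (nat_lit 10))
    (@En.n l14133 (nat_lit 12613) (nat_lit 4) (nat_lit 14))
    (@En.n l15599 (nat_lit 12272) (nat_lit 2) (nat_lit 11))
    (@En.n l17 (nat_lit 12619) (nat_lit 3) (nat_lit 2))
    (@En.i (nat_lit 12648) (nat_lit 4) (nat_lit 4))
    (@En.n l6050 (nat_lit 2900) (nat_lit 6) (nat_lit 14))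
    (@En.i (nat_lit 6065) (nat_lit 6) (nat_lit 8))
    (@En.n l15600 (nat_lit 11346) (nat_lit 7) (nat_lit 4))
    (@En.n l14134 (nat_lit 11969) (nat_lit 9) (nat_lit 12))
    (@En.n l7 (nat_lit 4041) (nat_lit 9) (nat_lit 3))
    (@En.n l14133 (nat_lit 12721) (nat_lit 6) (nat_lit 6))
    (@En.n l644 (nat_lit 12620) (nat_lit 12) (nat_lit 12))
    (@En.n l5599 (nat_lit 7594) (nat_lit 9) (nat_lit 13))
    (@En.n l15601 (nat_lit 4036) (nat_lit 14) (nat_lit 5))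
    (@En.n l6050 (nat_lit 12634) (nat_lit 11) (nat_lit 8))
    (@En.n l107 (nat_lit 12619) (nat_lit 15) (nat_lit 2))))
  (@Cl.mk (nat_lit 0x200080005000c0005000d000b000400030008000e00050002000b000e000b) (nat_lit 0x4070a3006200355) (nat_lit 16) Lb.e (@T16.mk En
    (@En.n l5706 (nat_lit 12680) (nat_lit 13) (nat_lit 11))
    (@En.n l619 (nat_lit 12615) (nat_lit 4) (nat_lit 14))
    (@En.i (nat_lit 12598) (nat_lit 2) (nat_lit 11))
    (@En.n l17 (nat_lit 12620) (nat_lit 3) (nat_lit 2))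
    (@En.n l50 (nat_lit 12682) (nat_lit 4) (nat_lit 5))
    (@En.n l6050 (nat_lit 2895) (nat_lit 6) (nat_lit 14))
    (@En.i (nat_lit 11196) (nat_lit 6) (nat_lit 8))
    (@En.n l50 (nat_lit 4041) (nat_lit 7) (nat_lit 3))
    (@En.n l3299 (nat_lit 12836) (nat_lit 8) (nat_lit 4))
    (@En.i (nat_lit 12575) (nat_lit 10) (nat_lit 11))
    (@En.i (nat_lit 1260) (nat_lit 11) (nat_lit 13))
    (@En.n l3457 (nat_lit 12365) (nat_lit 7) (nat_lit 5))
    (@En.n l5599 (nat_lit 11266) (nat_lit 9) (nat_lit 12))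
    (@En.n l159 (nat_lit 4039) (nat_lit 14) (nat_lit 5))
    (@En.n l6050 (nat_lit 12635) (nat_lit 11) (nat_lit 8))
    (@En.n l107 (nat_lit 12620) (nat_lit 15) (nat_lit 2))))
  (@Cl.mk (nat_lit 0x20008000d000c00050003000a0004000e00080002000e00060002000e000b) (nat_lit 0x1260020250900b7) (nat_lit 16) Lb.e (@T16.mk En
    (@En.i (nat_lit 11062) (nat_lit 14) (nat_lit 11))
    (@En.i (nat_lit 6968) (nat_lit 1) (nat_lit 14))
    (@En.n l17 (nat_lit 12621) (nat_lit 2) (nat_lit 2))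
    (@En.n l764 (nat_lit 12758) (nat_lit 14) (nat_lit 6))
    (@En.n l5 (nat_lit 4038) (nat_lit 1) (nat_lit 14))
    (@En.n l50 (nat_lit 12621) (nat_lit 5) (nat_lit 2))
    (@En.n l564 (nat_lit 12617) (nat_lit 6) (nat_lit 8))
    (@En.i (nat_lit 11639) (nat_lit 1) (nat_lit 14))
    (@En.n l685 (nat_lit 4906) (nat_lit 8) (nat_lit 4))
    (@En.n l845 (nat_lit 7967) (nat_lit 10) (nat_lit 10))
    (@En.n l11 (nat_lit 11065) (nat_lit 10) (nat_lit 3))
    (@En.i (nat_lit 5957) (nat_lit 0) (nat_lit 5))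
    (@En.n l55 (nat_lit 11061) (nat_lit 13) (nat_lit 12))
    (@En.i (nat_lit 678) (nat_lit 14) (nat_lit 13))
    (@En.n l615 (nat_lit 10940) (nat_lit 12) (nat_lit 8))
    (@En.n l3 (nat_lit 12621) (nat_lit 15) (nat_lit 2))))
  (@Cl.mk (nat_lit 0x2000c00090007000e00040002000d000900070003000e00090002000e0007) (nat_lit 0x860b007100a1040) (nat_lit 16) Lb.e (@T16.mk En
    (@En.i (nat_lit 12612) (nat_lit 14) (nat_lit 7))
    (@En.i (nat_lit 8370) (nat_lit 1) (nat_lit 14))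
    (@En.n l3 (nat_lit 12622) (nat_lit 2) (nat_lit 2))
    (@En.i (nat_lit 5954) (nat_lit 3) (nat_lit 9))
    (@En.n l6029 (nat_lit 5806) (nat_lit 1) (nat_lit 14))
    (@En.n l13462 (nat_lit 5951) (nat_lit 5) (nat_lit 3))
    (@En.i (nat_lit 4909) (nat_lit 6) (nat_lit 7))
    (@En.n l4802 (nat_lit 8069) (nat_lit 14) (nat_lit 9))
    (@En.n l998 (nat_lit 5216) (nat_lit 9) (nat_lit 13))
    (@En.n l50 (nat_lit 12622) (nat_lit 9) (nat_lit 2))
    (@En.n l4263 (nat_lit 12390) (nat_lit 10) (nat_lit 4))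
    (@En.i (nat_lit 4162) (nat_lit 1) (nat_lit 14))
    (@En.n l2667 (nat_lit 5336) (nat_lit 13) (nat_lit 7))
    (@En.i (nat_lit 5780) (nat_lit 14) (nat_lit 9))
    (@En.n l13463 (nat_lit 7821) (nat_lit 12) (nat_lit 12))
    (@En.n l11 (nat_lit 12622) (nat_lit 15) (nat_lit 2))))
  (@Cl.mk (nat_lit 0x200070005000d0005000c0003000c000c0004000900040004000b000e000b) (nat_lit 0x4020310500984) (nat_lit 16) Lb.e (@T16.mk En
    (@En.n l5706 (nat_lit 12681) (nat_lit 12) (nat_lit 11))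
    (@En.n l619 (nat_lit 12525) (nat_lit 4) (nat_lit 14))
    (@En.n l19932 (nat_lit 12267) (nat_lit 2) (nat_lit 11))
    (@En.n l2886 (nat_lit 12649) (nat_lit 12) (nat_lit 4))
    (@En.n l18 (nat_lit 12575) (nat_lit 4) (nat_lit 4))
    (@En.n l2869 (nat_lit 6067) (nat_lit 5) (nat_lit 9))
    (@En.n l9534 (nat_lit 12698) (nat_lit 6) (nat_lit 4))
    (@En.n l61 (nat_lit 4041) (nat_lit 8) (nat_lit 12))
    (@En.n l5599 (nat_lit 10535) (nat_lit 9) (nat_lit 12))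
    (@En.i (nat_lit 12648) (nat_lit 9) (nat_lit 3))
    (@En.i (nat_lit 1259) (nat_lit 11) (nat_lit 12))
    (@En.n l3457 (nat_lit 12371) (nat_lit 12) (nat_lit 5))
    (@En.n l9534 (nat_lit 7593) (nat_lit 13) (nat_lit 13))
    (@En.n l5311 (nat_lit 12647) (nat_lit 14) (nat_lit 5))
    (@En.n l24935 (nat_lit 12446) (nat_lit 4) (nat_lit 7))
    (@En.n l107 (nat_lit 12623) (nat_lit 15) (nat_lit 2))))
noncomputable def a789 : T16 Cl := @T16.mk Cl
  (@Cl.mk (nat_lit 0x20005000a00080007000c000c00080006000400040008000b0009000e0008) (nat_lit 0x44056300028594) (nat_lit 16) Lb.e (@T16.mk En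
    (@En.n l517 (nat_lit 11744) (nat_lit 1) (nat_lit 8))
    (@En.n l14894 (nat_lit 12625) (nat_lit 1) (nat_lit 14))
    (@En.n l2912 (nat_lit 10094) (nat_lit 2) (nat_lit 9))
    (@En.n l245 (nat_lit 12550) (nat_lit 3) (nat_lit 11))
    (@En.n l14895 (nat_lit 10982) (nat_lit 4) (nat_lit 8))
    (@En.n l9965 (nat_lit 11753) (nat_lit 5) (nat_lit 4))
    (@En.n l1577 (nat_lit 12652) (nat_lit 6) (nat_lit 4))
    (@En.i (nat_lit 7168) (nat_lit 7) (nat_lit 6))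
    (@En.i (nat_lit 10845) (nat_lit 9) (nat_lit 8))
    (@En.n l457 (nat_lit 7659) (nat_lit 10) (nat_lit 12))
    (@En.i (nat_lit 9524) (nat_lit 11) (nat_lit 12))
    (@En.n l2579 (nat_lit 8170) (nat_lit 12) (nat_lit 7))
    (@En.n l14896 (nat_lit 11755) (nat_lit 13) (nat_lit 8))
    (@En.n l9964 (nat_lit 6448) (nat_lit 14) (nat_lit 10))
    (@En.i (nat_lit 12283) (nat_lit 13) (nat_lit 5))
    (@En.n l3 (nat_lit 12624) (nat_lit 15) (nat_lit 2))))
  (@Cl.mk (nat_lit 0x2000c0005000a00080004000c000c00090006000400040008000b000e0007) (nat_lit 0x502408740002880) (nat_lit 16) Lb.e (@T16.mk En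
    (@En.n l2869 (nat_lit 11344) (nat_lit 2) (nat_lit 7))
    (@En.n l21057 (nat_lit 4625) (nat_lit 4) (nat_lit 14))
    (@En.n l28719 (nat_lit 11340) (nat_lit 7) (nat_lit 11))
    (@En.n l1599 (nat_lit 10981) (nat_lit 3) (nat_lit 8))
    (@En.n l28 (nat_lit 12627) (nat_lit 12) (nat_lit 4))
    (@En.n l21057 (nat_lit 12635) (nat_lit 5) (nat_lit 4))
    (@En.n l2579 (nat_lit 7165) (nat_lit 6) (nat_lit 6))
    (@En.n l28720 (nat_lit 11787) (nat_lit 1) (nat_lit 9))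
    (@En.n l28721 (nat_lit 7665) (nat_lit 4) (nat_lit 12))
    (@En.n l8865 (nat_lit 9523) (nat_lit 10) (nat_lit 12))
    (@En.n l21057 (nat_lit 10125) (nat_lit 10) (nat_lit 4))
    (@En.n l50 (nat_lit 12626) (nat_lit 12) (nat_lit 8))
    (@En.n l2579 (nat_lit 10798) (nat_lit 13) (nat_lit 10))
    (@En.n l14815 (nat_lit 12624) (nat_lit 14) (nat_lit 5))
    (@En.n l3815 (nat_lit 12586) (nat_lit 9) (nat_lit 12))
    (@En.n l17 (nat_lit 12625) (nat_lit 15) (nat_lit 2))))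
  (@Cl.mk (nat_lit 0x2000d000500080003000c000c0008000c0004000400080004000b000e0008) (nat_lit 0x603077340030914) (nat_lit 16) Lb.e (@T16.mk En
    (@En.n l2869 (nat_lit 11705) (nat_lit 4) (nat_lit 8))
    (@En.n l1599 (nat_lit 2399) (nat_lit 4) (nat_lit 14))
    (@En.i (nat_lit 12625) (nat_lit 2) (nat_lit 11))
    (@En.n l11263 (nat_lit 12630) (nat_lit 3) (nat_lit 4))
    (@En.n l1599 (nat_lit 10983) (nat_lit 4) (nat_lit 8))
    (@En.n l28 (nat_lit 12628) (nat_lit 12) (nat_lit 4))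
    (@En.i (nat_lit 12321) (nat_lit 6) (nat_lit 4))
    (@En.i (nat_lit 3072) (nat_lit 8) (nat_lit 12))
    (@En.n l3213 (nat_lit 11472) (nat_lit 1) (nat_lit 8))
    (@En.n l10808 (nat_lit 7664) (nat_lit 4) (nat_lit 12))
    (@En.i (nat_lit 9522) (nat_lit 11) (nat_lit 12))
    (@En.n l11647 (nat_lit 11067) (nat_lit 11) (nat_lit 3))
    (@En.i (nat_lit 12537) (nat_lit 0) (nat_lit 8))
    (@En.i (nat_lit 11755) (nat_lit 14) (nat_lit 5))
    (@En.n l3815 (nat_lit 12584) (nat_lit 2) (nat_lit 13))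
    (@En.n l17 (nat_lit 12626) (nat_lit 15) (nat_lit 2))))
  (@Cl.mk (nat_lit 0x2000a000700040008000b000e00060002000c0005000900080004000e000c) (nat_lit 0x500278003036019) (nat_lit 16) Lb.e (@T16.mk En
    (@En.n l1578 (nat_lit 12625) (nat_lit 9) (nat_lit 12))
    (@En.n l14559 (nat_lit 425) (nat_lit 1) (nat_lit 14))
    (@En.n l14560 (nat_lit 12284) (nat_lit 2) (nat_lit 4))
    (@En.n l50 (nat_lit 12628) (nat_lit 3) (nat_lit 8))
    (@En.n l2579 (nat_lit 7965) (nat_lit 4) (nat_lit 9))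
    (@En.n l2089 (nat_lit 11753) (nat_lit 14) (nat_lit 5))
    (@En.i (nat_lit 12588) (nat_lit 7) (nat_lit 12))
    (@En.n l17 (nat_lit 12627) (nat_lit 7) (nat_lit 2))
    (@En.n l2869 (nat_lit 11712) (nat_lit 8) (nat_lit 6))
    (@En.n l1012 (nat_lit 8956) (nat_lit 4) (nat_lit 14))
    (@En.n l8871 (nat_lit 12547) (nat_lit 7) (nat_lit 11))
    (@En.n l4172 (nat_lit 2135) (nat_lit 3) (nat_lit 8))
    (@En.n l14560 (nat_lit 12634) (nat_lit 4) (nat_lit 4))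
    (@En.n l2579 (nat_lit 7169) (nat_lit 14) (nat_lit 7))
    (@En.n l2911 (nat_lit 11946) (nat_lit 1) (nat_lit 10))
    (@En.n l11 (nat_lit 12627) (nat_lit 15) (nat_lit 2))))
  (@Cl.mk (nat_lit 0x20009000d000400080003000b000e00070002000d000500080003000e000c) (nat_lit 0x530208300505018) (nat_lit 16) Lb.e (@T16.mk En
    (@En.n l1578 (nat_lit 12626) (nat_lit 10) (nat_lit 12))
    (@En.n l2034 (nat_lit 420) (nat_lit 1) (nat_lit 14))
    (@En.n l6078 (nat_lit 12631) (nat_lit 2) (nat_lit 3))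
    (@En.i (nat_lit 12533) (nat_lit 3) (nat_lit 8))
    (@En.i (nat_lit 11752) (nat_lit 14) (nat_lit 5))
    (@En.i (nat_lit 12589) (nat_lit 6) (nat_lit 13))
    (@En.n l17 (nat_lit 12628) (nat_lit 6) (nat_lit 2))
    (@En.n l2869 (nat_lit 11711) (nat_lit 7) (nat_lit 7))
    (@En.n l2034 (nat_lit 5120) (nat_lit 4) (nat_lit 14))
    (@En.i (nat_lit 12627) (nat_lit 10) (nat_lit 11))
    (@En.i (nat_lit 12629) (nat_lit 10) (nat_lit 3))
    (@En.i (nat_lit 2458) (nat_lit 12) (nat_lit 8))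
    (@En.i (nat_lit 12326) (nat_lit 5) (nat_lit 4))
    (@En.i (nat_lit 3890) (nat_lit 14) (nat_lit 13))
    (@En.n l2036 (nat_lit 10549) (nat_lit 12) (nat_lit 9))
    (@En.n l11 (nat_lit 12628) (nat_lit 15) (nat_lit 2))))
  (@Cl.mk (nat_lit 0x20009000d000700050003000b000e00070002000d000500090003000e000b) (nat_lit 0x120004900806015) (nat_lit 16) Lb.e (@T16.mk En
    (@En.n l2087 (nat_lit 12630) (nat_lit 10) (nat_lit 11))
    (@En.n l5916 (nat_lit 418) (nat_lit 1) (nat_lit 14))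
    (@En.n l5917 (nat_lit 12632) (nat_lit 2) (nat_lit 3))
    (@En.n l7 (nat_lit 11363) (nat_lit 3) (nat_lit 9))
    (@En.i (nat_lit 11754) (nat_lit 14) (nat_lit 5))
    (@En.i (nat_lit 12591) (nat_lit 6) (nat_lit 13))
    (@En.n l17 (nat_lit 12629) (nat_lit 6) (nat_lit 2))
    (@En.n l3011 (nat_lit 11710) (nat_lit 7) (nat_lit 7))
    (@En.n l1559 (nat_lit 4869) (nat_lit 4) (nat_lit 14))
    (@En.i (nat_lit 12545) (nat_lit 10) (nat_lit 11))
    (@En.n l7 (nat_lit 12628) (nat_lit 10) (nat_lit 3))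
    (@En.n l2547 (nat_lit 12773) (nat_lit 0) (nat_lit 5))
    (@En.n l644 (nat_lit 12627) (nat_lit 13) (nat_lit 7))
    (@En.i (nat_lit 3891) (nat_lit 7) (nat_lit 13))
    (@En.n l1559 (nat_lit 10543) (nat_lit 12) (nat_lit 9))
    (@En.n l11 (nat_lit 12629) (nat_lit 15) (nat_lit 2))))
  (@Cl.mk (nat_lit 0x2000d0005000a0003000b000b0008000c0006000500050004000b000e0008) (nat_lit 0x902046340000515) (nat_lit 16) Lb.e (@T16.mk En
    (@En.n l152 (nat_lit 11704) (nat_lit 4) (nat_lit 8))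
    (@En.n l14597 (nat_lit 2398) (nat_lit 4) (nat_lit 14))
    (@En.i (nat_lit 11653) (nat_lit 2) (nat_lit 11))
    (@En.n l11542 (nat_lit 11921) (nat_lit 3) (nat_lit 4))
    (@En.n l6088 (nat_lit 12629) (nat_lit 11) (nat_lit 5))
    (@En.i (nat_lit 11026) (nat_lit 5) (nat_lit 5))
    (@En.n l14598 (nat_lit 12625) (nat_lit 6) (nat_lit 6))
    (@En.i (nat_lit 3760) (nat_lit 8) (nat_lit 12))
    (@En.n l7422 (nat_lit 10848) (nat_lit 13) (nat_lit 8))
    (@En.n l396 (nat_lit 7662) (nat_lit 5) (nat_lit 11))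
    (@En.n l7 (nat_lit 9517) (nat_lit 11) (nat_lit 11))
    (@En.n l11622 (nat_lit 12633) (nat_lit 11) (nat_lit 3))
    (@En.n l11623 (nat_lit 9347) (nat_lit 0) (nat_lit 10))
    (@En.i (nat_lit 7661) (nat_lit 14) (nat_lit 5))
    (@En.i (nat_lit 12038) (nat_lit 2) (nat_lit 13))
    (@En.n l3 (nat_lit 12630) (nat_lit 15) (nat_lit 2))))
  (@Cl.mk (nat_lit 0x20009000d000400090003000a000e00070002000d000700060003000e000c) (nat_lit 0x220604100500098) (nat_lit 16) Lb.e (@T16.mk En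
    (@En.i (nat_lit 11067) (nat_lit 10) (nat_lit 12))
    (@En.n l4361 (nat_lit 6903) (nat_lit 1) (nat_lit 14))
    (@En.n l14727 (nat_lit 12628) (nat_lit 2) (nat_lit 3))
    (@En.i (nat_lit 11065) (nat_lit 3) (nat_lit 6))
    (@En.n l14727 (nat_lit 8163) (nat_lit 14) (nat_lit 7))
    (@En.n l14728 (nat_lit 12592) (nat_lit 6) (nat_lit 13))
    (@En.n l50 (nat_lit 12631) (nat_lit 6) (nat_lit 2))
    (@En.n l4263 (nat_lit 11708) (nat_lit 7) (nat_lit 7))
    (@En.n l14729 (nat_lit 2109) (nat_lit 9) (nat_lit 14))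
    (@En.n l14730 (nat_lit 12284) (nat_lit 10) (nat_lit 10))
    (@En.n l5344 (nat_lit 12632) (nat_lit 10) (nat_lit 3))
    (@En.n l14727 (nat_lit 8274) (nat_lit 0) (nat_lit 9))
    (@En.n l14730 (nat_lit 12328) (nat_lit 5) (nat_lit 4))
    (@En.i (nat_lit 3876) (nat_lit 14) (nat_lit 13))
    (@En.n l278 (nat_lit 10368) (nat_lit 12) (nat_lit 9))
    (@En.n l3 (nat_lit 12631) (nat_lit 15) (nat_lit 2))))
  (@Cl.mk (nat_lit 0x20009000d000800050003000a000e00070002000d000800060003000e000b) (nat_lit 0x2320041008500b5) (nat_lit 16) Lb.e (@T16.mk En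
    (@En.n l5957 (nat_lit 12633) (nat_lit 10) (nat_lit 11))
    (@En.n l5958 (nat_lit 6904) (nat_lit 1) (nat_lit 14))
    (@En.n l2912 (nat_lit 12629) (nat_lit 2) (nat_lit 3))
    (@En.n l5959 (nat_lit 12621) (nat_lit 3) (nat_lit 6))
    (@En.n l61 (nat_lit 7184) (nat_lit 14) (nat_lit 8))
    (@En.n l5960 (nat_lit 12638) (nat_lit 6) (nat_lit 13))
    (@En.n l7 (nat_lit 12632) (nat_lit 6) (nat_lit 2))
    (@En.n l5961 (nat_lit 11709) (nat_lit 7) (nat_lit 7))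
    (@En.n l5962 (nat_lit 2102) (nat_lit 9) (nat_lit 14))
    (@En.n l4572 (nat_lit 7973) (nat_lit 10) (nat_lit 10))
    (@En.n l5963 (nat_lit 12631) (nat_lit 10) (nat_lit 3))
    (@En.n l5964 (nat_lit 12774) (nat_lit 0) (nat_lit 5))
    (@En.n l5965 (nat_lit 10101) (nat_lit 13) (nat_lit 8))
    (@En.n l5959 (nat_lit 3879) (nat_lit 14) (nat_lit 13))
    (@En.n l5966 (nat_lit 10364) (nat_lit 12) (nat_lit 9))
    (@En.n l3 (nat_lit 12632) (nat_lit 15) (nat_lit 2))))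
  (@Cl.mk (nat_lit 0x2000d000900060003000b000b0008000c0007000500050004000a000e0008) (nat_lit 0x920047160000315) (nat_lit 16) Lb.e (@T16.mk En
    (@En.n l2853 (nat_lit 11703) (nat_lit 4) (nat_lit 8))
    (@En.n l5171 (nat_lit 2400) (nat_lit 1) (nat_lit 14))
    (@En.n l14705 (nat_lit 10792) (nat_lit 2) (nat_lit 10))
    (@En.n l237 (nat_lit 11922) (nat_lit 3) (nat_lit 4))
    (@En.n l14706 (nat_lit 12632) (nat_lit 11) (nat_lit 5))
    (@En.n l2855 (nat_lit 11027) (nat_lit 5) (nat_lit 5))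
    (@En.n l2224 (nat_lit 10094) (nat_lit 6) (nat_lit 7))
    (@En.i (nat_lit 3759) (nat_lit 8) (nat_lit 12))
    (@En.n l14707 (nat_lit 10847) (nat_lit 13) (nat_lit 8))
    (@En.n l10412 (nat_lit 7666) (nat_lit 5) (nat_lit 11))
    (@En.n l14708 (nat_lit 9511) (nat_lit 11) (nat_lit 11))
    (@En.n l14709 (nat_lit 12630) (nat_lit 11) (nat_lit 3))
    (@En.n l2054 (nat_lit 11062) (nat_lit 0) (nat_lit 6))
    (@En.n l2855 (nat_lit 5854) (nat_lit 14) (nat_lit 9))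
    (@En.n l2727 (nat_lit 9249) (nat_lit 2) (nat_lit 13))
    (@En.n l17 (nat_lit 12633) (nat_lit 15) (nat_lit 2))))
  (@Cl.mk (nat_lit 0x2000c0005000b00080004000d000c00050003000b00040008000b000e0005) (nat_lit 0x308501700203380) (nat_lit 16) Lb.e (@T16.mk En
    (@En.n l28716 (nat_lit 12444) (nat_lit 9) (nat_lit 5))
    (@En.i (nat_lit 4621) (nat_lit 4) (nat_lit 14))
    (@En.n l4003 (nat_lit 4036) (nat_lit 7) (nat_lit 11))
    (@En.n l28717 (nat_lit 11908) (nat_lit 3) (nat_lit 8))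
    (@En.n l28718 (nat_lit 12625) (nat_lit 4) (nat_lit 4))
    (@En.n l4003 (nat_lit 11766) (nat_lit 0) (nat_lit 11))
    (@En.n l7 (nat_lit 12637) (nat_lit 6) (nat_lit 3))
    (@En.n l28718 (nat_lit 11136) (nat_lit 7) (nat_lit 5))
    (@En.n l644 (nat_lit 12635) (nat_lit 9) (nat_lit 12))
    (@En.n l645 (nat_lit 915) (nat_lit 10) (nat_lit 13))
    (@En.i (nat_lit 12489) (nat_lit 10) (nat_lit 4))
    (@En.n l8889 (nat_lit 12326) (nat_lit 12) (nat_lit 8))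
    (@En.n l15606 (nat_lit 9987) (nat_lit 13) (nat_lit 11))
    (@En.n l21054 (nat_lit 12636) (nat_lit 14) (nat_lit 5))
    (@En.n l68 (nat_lit 10769) (nat_lit 8) (nat_lit 12))
    (@En.n l17 (nat_lit 12634) (nat_lit 15) (nat_lit 2))))
  (@Cl.mk (nat_lit 0x2000c0005000c00080004000c0004000d000a000400030008000b000e0006) (nat_lit 0x305306093004830) (nat_lit 16) Lb.e (@T16.mk En
    (@En.n l29191 (nat_lit 11875) (nat_lit 12) (nat_lit 6))
    (@En.i (nat_lit 4619) (nat_lit 4) (nat_lit 14))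
    (@En.n l1904 (nat_lit 4039) (nat_lit 7) (nat_lit 11))
    (@En.n l1068 (nat_lit 12812) (nat_lit 3) (nat_lit 8))
    (@En.n l50 (nat_lit 12637) (nat_lit 4) (nat_lit 3))
    (@En.n l6001 (nat_lit 7665) (nat_lit 0) (nat_lit 4))
    (@En.n l217 (nat_lit 11786) (nat_lit 0) (nat_lit 10))
    (@En.n l5320 (nat_lit 1263) (nat_lit 8) (nat_lit 13))
    (@En.n l29192 (nat_lit 12360) (nat_lit 8) (nat_lit 4))
    (@En.n l645 (nat_lit 11259) (nat_lit 10) (nat_lit 12))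
    (@En.i (nat_lit 12491) (nat_lit 10) (nat_lit 4))
    (@En.n l8888 (nat_lit 12321) (nat_lit 12) (nat_lit 8))
    (@En.n l7384 (nat_lit 12693) (nat_lit 13) (nat_lit 12))
    (@En.n l29193 (nat_lit 12652) (nat_lit 14) (nat_lit 5))
    (@En.n l68 (nat_lit 12596) (nat_lit 10) (nat_lit 12))
    (@En.n l17 (nat_lit 12635) (nat_lit 15) (nat_lit 2))))
  (@Cl.mk (nat_lit 0x20005000b00080007000d000c00050003000a00040008000b0009000e0006) (nat_lit 0x84018002033390) (nat_lit 16) Lb.e (@T16.mk En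
    (@En.n l8992 (nat_lit 12345) (nat_lit 8) (nat_lit 6))
    (@En.n l8993 (nat_lit 12634) (nat_lit 1) (nat_lit 14))
    (@En.n l8994 (nat_lit 12109) (nat_lit 2) (nat_lit 9))
    (@En.i (nat_lit 4038) (nat_lit 3) (nat_lit 11))
    (@En.n l8201 (nat_lit 11909) (nat_lit 4) (nat_lit 8))
    (@En.n l12778 (nat_lit 12624) (nat_lit 5) (nat_lit 4))
    (@En.n l6295 (nat_lit 11768) (nat_lit 7) (nat_lit 10))
    (@En.n l11 (nat_lit 12329) (nat_lit 7) (nat_lit 3))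
    (@En.n l14855 (nat_lit 11134) (nat_lit 8) (nat_lit 5))
    (@En.n l14856 (nat_lit 12652) (nat_lit 10) (nat_lit 12))
    (@En.i (nat_lit 916) (nat_lit 11) (nat_lit 13))
    (@En.n l8992 (nat_lit 10936) (nat_lit 12) (nat_lit 7))
    (@En.n l14857 (nat_lit 12327) (nat_lit 13) (nat_lit 8))
    (@En.n l14858 (nat_lit 11170) (nat_lit 14) (nat_lit 11))
    (@En.n l8999 (nat_lit 12691) (nat_lit 13) (nat_lit 5))
    (@En.n l18 (nat_lit 12636) (nat_lit 15) (nat_lit 2))))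
  (@Cl.mk (nat_lit 0x2000c0005000c00080004000d0004000d0003000b00030008000b000e0005) (nat_lit 0x308601080303250) (nat_lit 16) Lb.e (@T16.mk En
    (@En.n l13491 (nat_lit 12446) (nat_lit 9) (nat_lit 5))
    (@En.i (nat_lit 4620) (nat_lit 4) (nat_lit 14))
    (@En.n l1904 (nat_lit 4035) (nat_lit 7) (nat_lit 11))
    (@En.n l2098 (nat_lit 12730) (nat_lit 3) (nat_lit 8))
    (@En.i (nat_lit 12635) (nat_lit 4) (nat_lit 3))
    (@En.n l3082 (nat_lit 12229) (nat_lit 0) (nat_lit 11))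
    (@En.i (nat_lit 12634) (nat_lit 6) (nat_lit 3))
    (@En.n l5320 (nat_lit 1265) (nat_lit 0) (nat_lit 13))
    (@En.n l1412 (nat_lit 12359) (nat_lit 8) (nat_lit 4))
    (@En.n l645 (nat_lit 911) (nat_lit 10) (nat_lit 13))
    (@En.i (nat_lit 12488) (nat_lit 10) (nat_lit 4))
    (@En.i (nat_lit 12323) (nat_lit 12) (nat_lit 8))
    (@En.n l7384 (nat_lit 12713) (nat_lit 13) (nat_lit 12))
    (@En.n l21054 (nat_lit 12329) (nat_lit 14) (nat_lit 5))
    (@En.n l68 (nat_lit 10771) (nat_lit 10) (nat_lit 12))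
    (@En.n l17 (nat_lit 12637) (nat_lit 15) (nat_lit 2))))
  (@Cl.mk (nat_lit 0x20009000d000900050003000b000a0007000d0007000500030006000e000b) (nat_lit 0x4220046070000b7) (nat_lit 16) Lb.e (@T16.mk En
    (@En.i (nat_lit 9249) (nat_lit 13) (nat_lit 11))
    (@En.n l13956 (nat_lit 11709) (nat_lit 1) (nat_lit 14))
    (@En.n l13957 (nat_lit 11632) (nat_lit 12) (nat_lit 6))
    (@En.n l947 (nat_lit 12591) (nat_lit 3) (nat_lit 3))
    (@En.n l1927 (nat_lit 4038) (nat_lit 0) (nat_lit 5))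
    (@En.n l13958 (nat_lit 11293) (nat_lit 5) (nat_lit 7))
    (@En.n l13959 (nat_lit 12639) (nat_lit 7) (nat_lit 13))
    (@En.n l13960 (nat_lit 12572) (nat_lit 7) (nat_lit 7))
    (@En.n l13772 (nat_lit 11163) (nat_lit 9) (nat_lit 10))
    (@En.n l13961 (nat_lit 12189) (nat_lit 10) (nat_lit 11))
    (@En.n l11 (nat_lit 12592) (nat_lit 10) (nat_lit 3))
    (@En.n l7596 (nat_lit 12679) (nat_lit 0) (nat_lit 5))
    (@En.n l13962 (nat_lit 5673) (nat_lit 13) (nat_lit 9))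
    (@En.i (nat_lit 3867) (nat_lit 14) (nat_lit 13))
    (@En.n l13963 (nat_lit 10363) (nat_lit 11) (nat_lit 9))
    (@En.n l3 (nat_lit 12638) (nat_lit 15) (nat_lit 2))))
  (@Cl.mk (nat_lit 0x20005000d000a00050003000c000a000d000600040003000b0006000e000b) (nat_lit 0x220045600050b6) (nat_lit 16) Lb.e (@T16.mk En
    (@En.n l1325 (nat_lit 11852) (nat_lit 12) (nat_lit 11))
    (@En.n l7517 (nat_lit 12572) (nat_lit 1) (nat_lit 14))
    (@En.n l7518 (nat_lit 12638) (nat_lit 2) (nat_lit 6))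
    (@En.n l7519 (nat_lit 12641) (nat_lit 3) (nat_lit 11))
    (@En.n l7520 (nat_lit 12581) (nat_lit 4) (nat_lit 3))
    (@En.n l28 (nat_lit 4036) (nat_lit 5) (nat_lit 4))
    (@En.n l7521 (nat_lit 12792) (nat_lit 6) (nat_lit 6))
    (@En.i (nat_lit 2901) (nat_lit 8) (nat_lit 13))
    (@En.n l623 (nat_lit 11166) (nat_lit 9) (nat_lit 10))
    (@En.i (nat_lit 12185) (nat_lit 10) (nat_lit 12))
    (@En.n l536 (nat_lit 12593) (nat_lit 10) (nat_lit 3))
    (@En.n l6193 (nat_lit 12674) (nat_lit 0) (nat_lit 5))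
    (@En.n l343 (nat_lit 9238) (nat_lit 13) (nat_lit 10))
    (@En.n l766 (nat_lit 3864) (nat_lit 14) (nat_lit 13))
    (@En.n l1203 (nat_lit 12072) (nat_lit 13) (nat_lit 5))
    (@En.n l3 (nat_lit 12639) (nat_lit 15) (nat_lit 2))))
noncomputable def a790 : T16 Cl := @T16.mk Cl
  (@Cl.mk (nat_lit 0x20005000d000900050003000d000c000b000300070004000b0005000e000b) (nat_lit 0x240045100040b9) (nat_lit 16) Lb.e (@T16.mk En
    (@En.n l5780 (nat_lit 11853) (nat_lit 10) (nat_lit 11))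
    (@En.n l5647 (nat_lit 12576) (nat_lit 1) (nat_lit 14))
    (@En.n l7522 (nat_lit 9244) (nat_lit 2) (nat_lit 5))
    (@En.n l245 (nat_lit 11684) (nat_lit 3) (nat_lit 11))
    (@En.n l7523 (nat_lit 12645) (nat_lit 4) (nat_lit 4))
    (@En.n l7524 (nat_lit 12244) (nat_lit 5) (nat_lit 7))
    (@En.n l876 (nat_lit 12581) (nat_lit 6) (nat_lit 3))
    (@En.n l217 (nat_lit 7) (nat_lit 0) (nat_lit 11))
    (@En.n l3039 (nat_lit 12639) (nat_lit 9) (nat_lit 12))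
    (@En.n l828 (nat_lit 12293) (nat_lit 10) (nat_lit 13))
    (@En.n l250 (nat_lit 12594) (nat_lit 10) (nat_lit 3))
    (@En.n l248 (nat_lit 12673) (nat_lit 0) (nat_lit 5))
    (@En.n l610 (nat_lit 12595) (nat_lit 13) (nat_lit 9))
    (@En.n l766 (nat_lit 3865) (nat_lit 14) (nat_lit 13))
    (@En.n l253 (nat_lit 11917) (nat_lit 13) (nat_lit 5))
    (@En.n l3 (nat_lit 12640) (nat_lit 15) (nat_lit 2))))
  (@Cl.mk (nat_lit 0x200050009000d000a00060003000c000b000700060004000b0005000e000a) (nat_lit 0x53400a500040a4) (nat_lit 16) Lb.e (@T16.mk En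
    (@En.n l61 (nat_lit 11996) (nat_lit 1) (nat_lit 10))
    (@En.n l17873 (nat_lit 12643) (nat_lit 1) (nat_lit 14))
    (@En.n l7575 (nat_lit 10130) (nat_lit 2) (nat_lit 5))
    (@En.n l11228 (nat_lit 12231) (nat_lit 3) (nat_lit 11))
    (@En.n l18421 (nat_lit 12357) (nat_lit 4) (nat_lit 4))
    (@En.i (nat_lit 12235) (nat_lit 5) (nat_lit 6))
    (@En.n l18422 (nat_lit 11933) (nat_lit 6) (nat_lit 7))
    (@En.n l18423 (nat_lit 12347) (nat_lit 8) (nat_lit 11))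
    (@En.n l18424 (nat_lit 12187) (nat_lit 9) (nat_lit 12))
    (@En.n l18425 (nat_lit 12642) (nat_lit 9) (nat_lit 3))
    (@En.n l4259 (nat_lit 11176) (nat_lit 0) (nat_lit 6))
    (@En.n l17521 (nat_lit 5790) (nat_lit 12) (nat_lit 10))
    (@En.n l7062 (nat_lit 12640) (nat_lit 13) (nat_lit 13))
    (@En.n l17522 (nat_lit 12638) (nat_lit 14) (nat_lit 9))
    (@En.n l18426 (nat_lit 11898) (nat_lit 13) (nat_lit 5))
    (@En.n l17 (nat_lit 12641) (nat_lit 15) (nat_lit 2))))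
  (@Cl.mk (nat_lit 0x200050009000d0005000b0003000c000b000700050004000b0005000e000b) (nat_lit 0x44030250004086) (nat_lit 16) Lb.e (@T16.mk En
    (@En.n l33288 (nat_lit 12361) (nat_lit 1) (nat_lit 11))
    (@En.n l33289 (nat_lit 12644) (nat_lit 1) (nat_lit 14))
    (@En.n l3871 (nat_lit 10126) (nat_lit 2) (nat_lit 5))
    (@En.n l14465 (nat_lit 12260) (nat_lit 3) (nat_lit 11))
    (@En.i (nat_lit 12356) (nat_lit 4) (nat_lit 4))
    (@En.n l10795 (nat_lit 9219) (nat_lit 5) (nat_lit 5))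
    (@En.n l23747 (nat_lit 11930) (nat_lit 6) (nat_lit 7))
    (@En.n l22063 (nat_lit 12350) (nat_lit 8) (nat_lit 11))
    (@En.n l33290 (nat_lit 9234) (nat_lit 9) (nat_lit 12))
    (@En.n l10481 (nat_lit 12641) (nat_lit 9) (nat_lit 3))
    (@En.n l10795 (nat_lit 6889) (nat_lit 11) (nat_lit 11))
    (@En.n l117 (nat_lit 11099) (nat_lit 12) (nat_lit 5))
    (@En.n l33291 (nat_lit 12594) (nat_lit 13) (nat_lit 13))
    (@En.n l33292 (nat_lit 12592) (nat_lit 14) (nat_lit 9))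
    (@En.n l33293 (nat_lit 11897) (nat_lit 13) (nat_lit 5))
    (@En.n l3 (nat_lit 12642) (nat_lit 15) (nat_lit 2))))
  (@Cl.mk (nat_lit 0x2000800050009000d000a00070003000c0008000700060004000b000e0009) (nat_lit 0x504440063000393) (nat_lit 16) Lb.e (@T16.mk En
    (@En.n l30715 (nat_lit 12001) (nat_lit 2) (nat_lit 9))
    (@En.i (nat_lit 6906) (nat_lit 4) (nat_lit 14))
    (@En.n l30716 (nat_lit 12227) (nat_lit 2) (nat_lit 11))
    (@En.i (nat_lit 12272) (nat_lit 3) (nat_lit 4))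
    (@En.n l18318 (nat_lit 12234) (nat_lit 4) (nat_lit 6))
    (@En.i (nat_lit 4172) (nat_lit 5) (nat_lit 7))
    (@En.n l30717 (nat_lit 11376) (nat_lit 6) (nat_lit 8))
    (@En.n l1415 (nat_lit 12188) (nat_lit 8) (nat_lit 12))
    (@En.n l7081 (nat_lit 12644) (nat_lit 8) (nat_lit 3))
    (@En.i (nat_lit 11175) (nat_lit 0) (nat_lit 7))
    (@En.n l11084 (nat_lit 5621) (nat_lit 11) (nat_lit 10))
    (@En.n l5577 (nat_lit 12576) (nat_lit 12) (nat_lit 13))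
    (@En.n l20132 (nat_lit 11709) (nat_lit 13) (nat_lit 9))
    (@En.n l30718 (nat_lit 12641) (nat_lit 14) (nat_lit 5))
    (@En.n l30719 (nat_lit 11790) (nat_lit 5) (nat_lit 8))
    (@En.n l17 (nat_lit 12643) (nat_lit 15) (nat_lit 2))))
  (@Cl.mk (nat_lit 0x2000800050009000d0006000b0003000c0008000700050004000b000e000a) (nat_lit 0x504503044000375) (nat_lit 16) Lb.e (@T16.mk En
    (@En.n l18455 (nat_lit 11805) (nat_lit 2) (nat_lit 10))
    (@En.i (nat_lit 6905) (nat_lit 4) (nat_lit 14))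
    (@En.n l10905 (nat_lit 9333) (nat_lit 2) (nat_lit 11))
    (@En.n l37129 (nat_lit 12270) (nat_lit 3) (nat_lit 4))
    (@En.n l19580 (nat_lit 12750) (nat_lit 4) (nat_lit 5))
    (@En.i (nat_lit 4179) (nat_lit 5) (nat_lit 7))
    (@En.n l37130 (nat_lit 11374) (nat_lit 6) (nat_lit 8))
    (@En.n l3424 (nat_lit 12283) (nat_lit 8) (nat_lit 12))
    (@En.n l10307 (nat_lit 12643) (nat_lit 8) (nat_lit 3))
    (@En.i (nat_lit 6890) (nat_lit 10) (nat_lit 11))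
    (@En.n l9051 (nat_lit 11100) (nat_lit 11) (nat_lit 6))
    (@En.n l37131 (nat_lit 12577) (nat_lit 12) (nat_lit 13))
    (@En.n l8984 (nat_lit 11708) (nat_lit 13) (nat_lit 9))
    (@En.n l16455 (nat_lit 12642) (nat_lit 14) (nat_lit 5))
    (@En.n l10384 (nat_lit 11789) (nat_lit 5) (nat_lit 8))
    (@En.n l17 (nat_lit 12644) (nat_lit 15) (nat_lit 2))))
  (@Cl.mk (nat_lit 0x20005000d000b00050003000c000c0005000c00040004000b0004000e000b) (nat_lit 0x190091030070b6) (nat_lit 16) Lb.e (@T16.mk En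
    (@En.n l7 (nat_lit 12427) (nat_lit 11) (nat_lit 11))
    (@En.n l14215 (nat_lit 12648) (nat_lit 1) (nat_lit 14))
    (@En.n l380 (nat_lit 12650) (nat_lit 2) (nat_lit 4))
    (@En.n l14216 (nat_lit 12349) (nat_lit 3) (nat_lit 11))
    (@En.n l14217 (nat_lit 12646) (nat_lit 4) (nat_lit 4))
    (@En.n l4925 (nat_lit 12639) (nat_lit 5) (nat_lit 4))
    (@En.i (nat_lit 377) (nat_lit 7) (nat_lit 12))
    (@En.n l7865 (nat_lit 12794) (nat_lit 7) (nat_lit 5))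
    (@En.n l14218 (nat_lit 4036) (nat_lit 9) (nat_lit 12))
    (@En.n l4925 (nat_lit 12079) (nat_lit 10) (nat_lit 12))
    (@En.n l763 (nat_lit 12647) (nat_lit 10) (nat_lit 3))
    (@En.i (nat_lit 12201) (nat_lit 0) (nat_lit 5))
    (@En.n l1545 (nat_lit 12683) (nat_lit 13) (nat_lit 11))
    (@En.n l2567 (nat_lit 320) (nat_lit 14) (nat_lit 13))
    (@En.i (nat_lit 12768) (nat_lit 13) (nat_lit 5))
    (@En.n l50 (nat_lit 12645) (nat_lit 15) (nat_lit 2))))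
  (@Cl.mk (nat_lit 0x20005000d000a00050003000e000c00020006000d0004000b0003000e000b) (nat_lit 0x48009a004070b4) (nat_lit 16) Lb.e (@T16.mk En
    (@En.n l5780 (nat_lit 12651) (nat_lit 9) (nat_lit 11))
    (@En.i (nat_lit 12565) (nat_lit 1) (nat_lit 14))
    (@En.n l191 (nat_lit 7) (nat_lit 2) (nat_lit 3))
    (@En.i (nat_lit 1275) (nat_lit 3) (nat_lit 11))
    (@En.i (nat_lit 12640) (nat_lit 4) (nat_lit 4))
    (@En.n l248 (nat_lit 376) (nat_lit 6) (nat_lit 13))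
    (@En.i (nat_lit 12035) (nat_lit 6) (nat_lit 6))
    (@En.n l7 (nat_lit 12646) (nat_lit 7) (nat_lit 2))
    (@En.n l248 (nat_lit 12645) (nat_lit 9) (nat_lit 12))
    (@En.n l134 (nat_lit 12563) (nat_lit 10) (nat_lit 14))
    (@En.n l1253 (nat_lit 23) (nat_lit 2) (nat_lit 3))
    (@En.n l248 (nat_lit 6374) (nat_lit 3) (nat_lit 5))
    (@En.n l610 (nat_lit 12649) (nat_lit 13) (nat_lit 10))
    (@En.n l766 (nat_lit 375) (nat_lit 6) (nat_lit 13))
    (@En.n l253 (nat_lit 12741) (nat_lit 6) (nat_lit 5))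
    (@En.n l3 (nat_lit 12646) (nat_lit 15) (nat_lit 2))))
  (@Cl.mk (nat_lit 0x20005000d0004000c0003000c000c0004000c00040004000b0004000e000c) (nat_lit 0x1020a103008091) (nat_lit 16) Lb.e (@T16.mk En
    (@En.n l1998 (nat_lit 66) (nat_lit 3) (nat_lit 12))
    (@En.n l20930 (nat_lit 12623) (nat_lit 1) (nat_lit 14))
    (@En.n l3289 (nat_lit 12651) (nat_lit 2) (nat_lit 4))
    (@En.n l2876 (nat_lit 12353) (nat_lit 3) (nat_lit 11))
    (@En.n l152 (nat_lit 23) (nat_lit 4) (nat_lit 4))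
    (@En.n l5390 (nat_lit 12593) (nat_lit 5) (nat_lit 4))
    (@En.i (nat_lit 365) (nat_lit 7) (nat_lit 12))
    (@En.n l1643 (nat_lit 12695) (nat_lit 7) (nat_lit 4))
    (@En.n l1867 (nat_lit 4035) (nat_lit 9) (nat_lit 12))
    (@En.n l17942 (nat_lit 10534) (nat_lit 10) (nat_lit 12))
    (@En.n l2364 (nat_lit 12645) (nat_lit 10) (nat_lit 3))
    (@En.i (nat_lit 1266) (nat_lit 12) (nat_lit 12))
    (@En.i (nat_lit 12415) (nat_lit 13) (nat_lit 4))
    (@En.n l1998 (nat_lit 317) (nat_lit 14) (nat_lit 13))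
    (@En.i (nat_lit 12766) (nat_lit 13) (nat_lit 5))
    (@En.n l50 (nat_lit 12647) (nat_lit 15) (nat_lit 2))))
  (@Cl.mk (nat_lit 0x200070005000d000b00060003000c000c0005000900040004000b000e000a) (nat_lit 0x39004704008a4) (nat_lit 16) Lb.e (@T16.mk En
    (@En.n l14129 (nat_lit 12684) (nat_lit 12) (nat_lit 10))
    (@En.n l14130 (nat_lit 12564) (nat_lit 4) (nat_lit 14))
    (@En.n l14131 (nat_lit 12268) (nat_lit 2) (nat_lit 11))
    (@En.n l14132 (nat_lit 12565) (nat_lit 3) (nat_lit 4))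
    (@En.n l14130 (nat_lit 12572) (nat_lit 4) (nat_lit 4))
    (@En.n l2869 (nat_lit 6066) (nat_lit 5) (nat_lit 9))
    (@En.n l14133 (nat_lit 12795) (nat_lit 6) (nat_lit 5))
    (@En.n l61 (nat_lit 12619) (nat_lit 8) (nat_lit 12))
    (@En.n l14134 (nat_lit 12080) (nat_lit 9) (nat_lit 12))
    (@En.n l7 (nat_lit 12623) (nat_lit 9) (nat_lit 3))
    (@En.n l14135 (nat_lit 12720) (nat_lit 0) (nat_lit 6))
    (@En.i (nat_lit 12682) (nat_lit 12) (nat_lit 11))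
    (@En.n l9534 (nat_lit 7589) (nat_lit 13) (nat_lit 13))
    (@En.n l14136 (nat_lit 12645) (nat_lit 14) (nat_lit 5))
    (@En.n l14137 (nat_lit 12444) (nat_lit 4) (nat_lit 7))
    (@En.n l107 (nat_lit 12648) (nat_lit 15) (nat_lit 2))))
  (@Cl.mk (nat_lit 0x20005000a0004000b000e000b000200060005000d0005000b0003000e000c) (nat_lit 0x709c3000402014) (nat_lit 16) Lb.e (@T16.mk En
    (@En.n l14302 (nat_lit 12623) (nat_lit 8) (nat_lit 12))
    (@En.i (nat_lit 25) (nat_lit 1) (nat_lit 14))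
    (@En.n l287 (nat_lit 12565) (nat_lit 9) (nat_lit 3))
    (@En.n l2205 (nat_lit 1272) (nat_lit 3) (nat_lit 11))
    (@En.i (nat_lit 12595) (nat_lit 4) (nat_lit 5))
    (@En.i (nat_lit 7592) (nat_lit 6) (nat_lit 13))
    (@En.n l725 (nat_lit 23) (nat_lit 6) (nat_lit 5))
    (@En.n l1998 (nat_lit 12353) (nat_lit 7) (nat_lit 6))
    (@En.n l3 (nat_lit 12649) (nat_lit 8) (nat_lit 2))
    (@En.n l725 (nat_lit 12683) (nat_lit 10) (nat_lit 11))
    (@En.n l7643 (nat_lit 12559) (nat_lit 11) (nat_lit 14))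
    (@En.i (nat_lit 1252) (nat_lit 2) (nat_lit 11))
    (@En.n l1353 (nat_lit 12577) (nat_lit 3) (nat_lit 4))
    (@En.n l2205 (nat_lit 6069) (nat_lit 4) (nat_lit 10))
    (@En.i (nat_lit 12745) (nat_lit 5) (nat_lit 5))
    (@En.n l50 (nat_lit 12649) (nat_lit 15) (nat_lit 2))))
  (@Cl.mk (nat_lit 0x20007000d000b00050003000b000b0005000c0009000500050004000e000b) (nat_lit 0x180091035000b1) (nat_lit 16) Lb.e (@T16.mk En
    (@En.i (nat_lit 22) (nat_lit 6) (nat_lit 11))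
    (@En.n l5733 (nat_lit 11559) (nat_lit 1) (nat_lit 14))
    (@En.n l5734 (nat_lit 11166) (nat_lit 2) (nat_lit 4))
    (@En.n l5735 (nat_lit 7) (nat_lit 3) (nat_lit 5))
    (@En.n l77 (nat_lit 11165) (nat_lit 4) (nat_lit 5))
    (@En.n l5736 (nat_lit 12648) (nat_lit 5) (nat_lit 9))
    (@En.n l5737 (nat_lit 354) (nat_lit 7) (nat_lit 12))
    (@En.n l5738 (nat_lit 11291) (nat_lit 7) (nat_lit 5))
    (@En.n l397 (nat_lit 4038) (nat_lit 5) (nat_lit 11))
    (@En.n l5739 (nat_lit 12078) (nat_lit 10) (nat_lit 11))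
    (@En.n l11 (nat_lit 12651) (nat_lit 10) (nat_lit 3))
    (@En.n l5737 (nat_lit 9246) (nat_lit 0) (nat_lit 5))
    (@En.n l5740 (nat_lit 12685) (nat_lit 13) (nat_lit 11))
    (@En.i (nat_lit 304) (nat_lit 14) (nat_lit 13))
    (@En.n l5741 (nat_lit 12062) (nat_lit 3) (nat_lit 7))
    (@En.n l3 (nat_lit 12650) (nat_lit 15) (nat_lit 2))))
  (@Cl.mk (nat_lit 0x20007000d0004000c0003000b000b0004000c0009000500050004000e000c) (nat_lit 0x10903103600097) (nat_lit 16) Lb.e (@T16.mk En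
    (@En.i (nat_lit 12427) (nat_lit 3) (nat_lit 12))
    (@En.n l14151 (nat_lit 12266) (nat_lit 1) (nat_lit 14))
    (@En.n l5734 (nat_lit 12421) (nat_lit 2) (nat_lit 4))
    (@En.n l5735 (nat_lit 12646) (nat_lit 11) (nat_lit 5))
    (@En.n l77 (nat_lit 12426) (nat_lit 4) (nat_lit 5))
    (@En.n l5736 (nat_lit 12623) (nat_lit 5) (nat_lit 9))
    (@En.n l14152 (nat_lit 360) (nat_lit 7) (nat_lit 12))
    (@En.n l14153 (nat_lit 12737) (nat_lit 7) (nat_lit 4))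
    (@En.n l397 (nat_lit 4037) (nat_lit 5) (nat_lit 11))
    (@En.n l5734 (nat_lit 10529) (nat_lit 10) (nat_lit 11))
    (@En.i (nat_lit 12650) (nat_lit 10) (nat_lit 3))
    (@En.n l5736 (nat_lit 1277) (nat_lit 12) (nat_lit 12))
    (@En.i (nat_lit 11853) (nat_lit 13) (nat_lit 4))
    (@En.i (nat_lit 305) (nat_lit 14) (nat_lit 13))
    (@En.n l5741 (nat_lit 12058) (nat_lit 3) (nat_lit 7))
    (@En.n l3 (nat_lit 12651) (nat_lit 15) (nat_lit 2))))
  (@Cl.mk (nat_lit 0x20005000c00080007000c0004000d0009000400030008000b0009000e0007) (nat_lit 0x94070830048540) (nat_lit 16) Lb.e (@T16.mk En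
    (@En.n l17228 (nat_lit 11125) (nat_lit 11) (nat_lit 7))
    (@En.n l3659 (nat_lit 12635) (nat_lit 1) (nat_lit 14))
    (@En.n l21295 (nat_lit 12113) (nat_lit 2) (nat_lit 9))
    (@En.n l3623 (nat_lit 4040) (nat_lit 3) (nat_lit 11))
    (@En.n l21296 (nat_lit 12811) (nat_lit 4) (nat_lit 8))
    (@En.n l21297 (nat_lit 12329) (nat_lit 5) (nat_lit 3))
    (@En.i (nat_lit 7659) (nat_lit 6) (nat_lit 4))
    (@En.n l21298 (nat_lit 11785) (nat_lit 8) (nat_lit 9))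
    (@En.n l9825 (nat_lit 1352) (nat_lit 9) (nat_lit 13))
    (@En.n l11987 (nat_lit 12073) (nat_lit 9) (nat_lit 4))
    (@En.n l3623 (nat_lit 11256) (nat_lit 11) (nat_lit 12))
    (@En.n l21299 (nat_lit 10932) (nat_lit 12) (nat_lit 7))
    (@En.n l21300 (nat_lit 12320) (nat_lit 13) (nat_lit 8))
    (@En.n l16079 (nat_lit 11175) (nat_lit 14) (nat_lit 12))
    (@En.i (nat_lit 12705) (nat_lit 13) (nat_lit 5))
    (@En.n l3 (nat_lit 12652) (nat_lit 15) (nat_lit 2))))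
  (@Cl.mk (nat_lit 0x20005000c0006000b000a0004000d0009000500030006000b000a000e0007) (nat_lit 0x90430840009440) (nat_lit 16) Lb.e (@T16.mk En
    (@En.n l152 (nat_lit 11878) (nat_lit 11) (nat_lit 7))
    (@En.n l936 (nat_lit 12663) (nat_lit 1) (nat_lit 14))
    (@En.n l14974 (nat_lit 12666) (nat_lit 2) (nat_lit 10))
    (@En.n l6055 (nat_lit 12654) (nat_lit 3) (nat_lit 11))
    (@En.n l14975 (nat_lit 12255) (nat_lit 4) (nat_lit 6))
    (@En.n l14976 (nat_lit 12662) (nat_lit 5) (nat_lit 3))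
    (@En.n l14977 (nat_lit 7657) (nat_lit 6) (nat_lit 5))
    (@En.n l14978 (nat_lit 11784) (nat_lit 8) (nat_lit 9))
    (@En.n l14979 (nat_lit 12320) (nat_lit 9) (nat_lit 13))
    (@En.n l14977 (nat_lit 12652) (nat_lit 9) (nat_lit 4))
    (@En.n l14980 (nat_lit 12070) (nat_lit 11) (nat_lit 10))
    (@En.n l6055 (nat_lit 11255) (nat_lit 12) (nat_lit 11))
    (@En.n l14834 (nat_lit 12313) (nat_lit 13) (nat_lit 6))
    (@En.n l14981 (nat_lit 12167) (nat_lit 14) (nat_lit 12))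
    (@En.n l14982 (nat_lit 12703) (nat_lit 13) (nat_lit 5))
    (@En.n l3 (nat_lit 12653) (nat_lit 15) (nat_lit 2))))
  (@Cl.mk (nat_lit 0x20005000c000c0007000b00040004000d000a00050003000b0009000e0006) (nat_lit 0xa9050095008530) (nat_lit 16) Lb.e (@T16.mk En
    (@En.n l7910 (nat_lit 12684) (nat_lit 6) (nat_lit 6))
    (@En.n l396 (nat_lit 12656) (nat_lit 1) (nat_lit 14))
    (@En.n l19837 (nat_lit 12680) (nat_lit 2) (nat_lit 9))
    (@En.n l15578 (nat_lit 7505) (nat_lit 3) (nat_lit 11))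
    (@En.n l28 (nat_lit 12659) (nat_lit 4) (nat_lit 3))
    (@En.n l1652 (nat_lit 7660) (nat_lit 5) (nat_lit 5))
    (@En.n l7912 (nat_lit 12435) (nat_lit 7) (nat_lit 10))
    (@En.n l19953 (nat_lit 12652) (nat_lit 8) (nat_lit 13))
    (@En.n l152 (nat_lit 4040) (nat_lit 8) (nat_lit 4))
    (@En.n l1652 (nat_lit 12049) (nat_lit 9) (nat_lit 4))
    (@En.i (nat_lit 6132) (nat_lit 11) (nat_lit 11))
    (@En.n l6296 (nat_lit 11300) (nat_lit 12) (nat_lit 7))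
    (@En.n l3419 (nat_lit 12655) (nat_lit 13) (nat_lit 12))
    (@En.n l8413 (nat_lit 11176) (nat_lit 14) (nat_lit 12))
    (@En.n l19954 (nat_lit 12750) (nat_lit 13) (nat_lit 5))
    (@En.n l18 (nat_lit 12654) (nat_lit 15) (nat_lit 2))))
  (@Cl.mk (nat_lit 0x20005000c0006000a000e00040002000d000a00060003000b000a000e0006) (nat_lit 0x80810094009130) (nat_lit 16) Lb.e (@T16.mk En
    (@En.n l3107 (nat_lit 12686) (nat_lit 7) (nat_lit 6))
    (@En.n l5134 (nat_lit 12657) (nat_lit 1) (nat_lit 14))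
    (@En.n l7150 (nat_lit 24) (nat_lit 2) (nat_lit 10))
    (@En.n l8424 (nat_lit 7453) (nat_lit 3) (nat_lit 11))
    (@En.n l8425 (nat_lit 12658) (nat_lit 4) (nat_lit 3))
    (@En.i (nat_lit 11649) (nat_lit 5) (nat_lit 6))
    (@En.n l8426 (nat_lit 12048) (nat_lit 14) (nat_lit 10))
    (@En.n l8427 (nat_lit 12653) (nat_lit 8) (nat_lit 13))
    (@En.n l28 (nat_lit 12655) (nat_lit 8) (nat_lit 2))
    (@En.n l1032 (nat_lit 12654) (nat_lit 9) (nat_lit 4))
    (@En.n l8428 (nat_lit 968) (nat_lit 11) (nat_lit 14))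
    (@En.i (nat_lit 6131) (nat_lit 12) (nat_lit 10))
    (@En.n l295 (nat_lit 11651) (nat_lit 13) (nat_lit 6))
    (@En.n l5134 (nat_lit 11964) (nat_lit 14) (nat_lit 12))
    (@En.n l8429 (nat_lit 12747) (nat_lit 13) (nat_lit 5))
    (@En.n l3 (nat_lit 12655) (nat_lit 15) (nat_lit 2))))
noncomputable def a791 : T16 Cl := @T16.mk Cl
  (@Cl.mk (nat_lit 0x2000c0005000c000c0004000b00040004000d000b00050003000b000e0005) (nat_lit 0x40a20600a300220) (nat_lit 16) Lb.e (@T16.mk En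
    (@En.n l13540 (nat_lit 12681) (nat_lit 7) (nat_lit 5))
    (@En.i (nat_lit 2898) (nat_lit 4) (nat_lit 14))
    (@En.n l5050 (nat_lit 7503) (nat_lit 2) (nat_lit 11))
    (@En.n l28 (nat_lit 12660) (nat_lit 3) (nat_lit 3))
    (@En.n l8498 (nat_lit 10803) (nat_lit 0) (nat_lit 5))
    (@En.n l18989 (nat_lit 12583) (nat_lit 6) (nat_lit 11))
    (@En.n l5276 (nat_lit 12635) (nat_lit 7) (nat_lit 13))
    (@En.n l19873 (nat_lit 4039) (nat_lit 12) (nat_lit 4))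
    (@En.n l11863 (nat_lit 12368) (nat_lit 8) (nat_lit 4))
    (@En.i (nat_lit 6129) (nat_lit 10) (nat_lit 11))
    (@En.n l7681 (nat_lit 12667) (nat_lit 10) (nat_lit 4))
    (@En.n l4662 (nat_lit 12657) (nat_lit 12) (nat_lit 12))
    (@En.n l19836 (nat_lit 12673) (nat_lit 13) (nat_lit 12))
    (@En.n l699 (nat_lit 12654) (nat_lit 14) (nat_lit 5))
    (@En.n l2179 (nat_lit 12454) (nat_lit 11) (nat_lit 12))
    (@En.n l50 (nat_lit 12656) (nat_lit 15) (nat_lit 2))))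
  (@Cl.mk (nat_lit 0x2000d0005000c0003000a000e00040002000d000b00060003000b000e0005) (nat_lit 0xa0101400a500920) (nat_lit 16) Lb.e (@T16.mk En
    (@En.n l2567 (nat_lit 12665) (nat_lit 8) (nat_lit 5))
    (@En.n l2567 (nat_lit 965) (nat_lit 4) (nat_lit 14))
    (@En.n l998 (nat_lit 7508) (nat_lit 11) (nat_lit 11))
    (@En.n l5856 (nat_lit 33) (nat_lit 3) (nat_lit 3))
    (@En.n l2567 (nat_lit 11647) (nat_lit 0) (nat_lit 6))
    (@En.n l5856 (nat_lit 12047) (nat_lit 14) (nat_lit 11))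
    (@En.n l14627 (nat_lit 12663) (nat_lit 7) (nat_lit 13))
    (@En.n l11 (nat_lit 12657) (nat_lit 7) (nat_lit 2))
    (@En.n l12278 (nat_lit 12656) (nat_lit 8) (nat_lit 4))
    (@En.i (nat_lit 962) (nat_lit 10) (nat_lit 14))
    (@En.n l2567 (nat_lit 6130) (nat_lit 11) (nat_lit 10))
    (@En.n l2576 (nat_lit 24) (nat_lit 3) (nat_lit 3))
    (@En.i (nat_lit 6374) (nat_lit 0) (nat_lit 12))
    (@En.n l2879 (nat_lit 12655) (nat_lit 14) (nat_lit 5))
    (@En.n l3348 (nat_lit 12664) (nat_lit 7) (nat_lit 13))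
    (@En.n l17 (nat_lit 12657) (nat_lit 15) (nat_lit 2))))
  (@Cl.mk (nat_lit 0x20005000c0006000b000e00040002000d0005000b0003000b000a000e0005) (nat_lit 0x701c0080701210) (nat_lit 16) Lb.e (@T16.mk En
    (@En.n l2869 (nat_lit 12728) (nat_lit 7) (nat_lit 5))
    (@En.n l2876 (nat_lit 33) (nat_lit 1) (nat_lit 14))
    (@En.n l5839 (nat_lit 12657) (nat_lit 10) (nat_lit 10))
    (@En.i (nat_lit 907) (nat_lit 3) (nat_lit 11))
    (@En.n l2879 (nat_lit 12655) (nat_lit 4) (nat_lit 3))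
    (@En.n l1998 (nat_lit 6370) (nat_lit 0) (nat_lit 11))
    (@En.i (nat_lit 12) (nat_lit 6) (nat_lit 5))
    (@En.n l3134 (nat_lit 12662) (nat_lit 8) (nat_lit 13))
    (@En.n l11 (nat_lit 12658) (nat_lit 8) (nat_lit 2))
    (@En.n l8369 (nat_lit 12659) (nat_lit 9) (nat_lit 4))
    (@En.i (nat_lit 966) (nat_lit 11) (nat_lit 14))
    (@En.n l8370 (nat_lit 313) (nat_lit 12) (nat_lit 11))
    (@En.n l2576 (nat_lit 11650) (nat_lit 13) (nat_lit 6))
    (@En.n l476 (nat_lit 11959) (nat_lit 14) (nat_lit 12))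
    (@En.n l899 (nat_lit 12745) (nat_lit 13) (nat_lit 5))
    (@En.n l17 (nat_lit 12658) (nat_lit 15) (nat_lit 2))))
  (@Cl.mk (nat_lit 0x20005000c000c0007000c00040004000d0004000b0003000b0009000e0005) (nat_lit 0xa8010080101550) (nat_lit 16) Lb.e (@T16.mk En
    (@En.n l5784 (nat_lit 12427) (nat_lit 6) (nat_lit 5))
    (@En.n l396 (nat_lit 12660) (nat_lit 1) (nat_lit 14))
    (@En.n l19837 (nat_lit 12665) (nat_lit 2) (nat_lit 9))
    (@En.i (nat_lit 361) (nat_lit 3) (nat_lit 11))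
    (@En.i (nat_lit 12654) (nat_lit 4) (nat_lit 3))
    (@En.n l5022 (nat_lit 6379) (nat_lit 0) (nat_lit 11))
    (@En.i (nat_lit 12729) (nat_lit 6) (nat_lit 4))
    (@En.n l476 (nat_lit 12329) (nat_lit 8) (nat_lit 13))
    (@En.n l152 (nat_lit 4037) (nat_lit 8) (nat_lit 4))
    (@En.n l19853 (nat_lit 12042) (nat_lit 9) (nat_lit 4))
    (@En.i (nat_lit 310) (nat_lit 11) (nat_lit 12))
    (@En.n l6296 (nat_lit 11299) (nat_lit 12) (nat_lit 7))
    (@En.n l14442 (nat_lit 12658) (nat_lit 13) (nat_lit 12))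
    (@En.n l8413 (nat_lit 11173) (nat_lit 14) (nat_lit 12))
    (@En.n l640 (nat_lit 12749) (nat_lit 13) (nat_lit 5))
    (@En.n l18 (nat_lit 12659) (nat_lit 15) (nat_lit 2))))
  (@Cl.mk (nat_lit 0x2000c0005000c000c0004000c00040004000d0004000c0003000b000e0004) (nat_lit 0x40a1010090a0140) (nat_lit 16) Lb.e (@T16.mk En
    (@En.n l7910 (nat_lit 66) (nat_lit 7) (nat_lit 4))
    (@En.i (nat_lit 967) (nat_lit 4) (nat_lit 14))
    (@En.n l2866 (nat_lit 364) (nat_lit 2) (nat_lit 11))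
    (@En.i (nat_lit 12656) (nat_lit 3) (nat_lit 3))
    (@En.n l649 (nat_lit 9230) (nat_lit 0) (nat_lit 12))
    (@En.i (nat_lit 12728) (nat_lit 5) (nat_lit 4))
    (@En.n l5276 (nat_lit 12637) (nat_lit 7) (nat_lit 13))
    (@En.n l19873 (nat_lit 4035) (nat_lit 12) (nat_lit 4))
    (@En.n l11863 (nat_lit 12047) (nat_lit 8) (nat_lit 4))
    (@En.i (nat_lit 316) (nat_lit 10) (nat_lit 12))
    (@En.n l7681 (nat_lit 12671) (nat_lit 10) (nat_lit 4))
    (@En.n l4662 (nat_lit 33) (nat_lit 4) (nat_lit 12))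
    (@En.n l19836 (nat_lit 12677) (nat_lit 13) (nat_lit 12))
    (@En.n l699 (nat_lit 12659) (nat_lit 14) (nat_lit 5))
    (@En.n l6042 (nat_lit 12448) (nat_lit 11) (nat_lit 12))
    (@En.n l50 (nat_lit 12660) (nat_lit 15) (nat_lit 2))))
  (@Cl.mk (nat_lit 0x2000d0005000c0003000c000a0004000d0004000b00030006000b000e0005) (nat_lit 0x1080a30b0400250) (nat_lit 16) Lb.e (@T16.mk En
    (@En.n l19960 (nat_lit 12448) (nat_lit 4) (nat_lit 5))
    (@En.i (nat_lit 3439) (nat_lit 4) (nat_lit 14))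
    (@En.n l3337 (nat_lit 12660) (nat_lit 2) (nat_lit 11))
    (@En.n l253 (nat_lit 12658) (nat_lit 12) (nat_lit 6))
    (@En.n l21055 (nat_lit 12663) (nat_lit 4) (nat_lit 3))
    (@En.i (nat_lit 11682) (nat_lit 0) (nat_lit 11))
    (@En.n l21056 (nat_lit 12769) (nat_lit 6) (nat_lit 4))
    (@En.n l3325 (nat_lit 12323) (nat_lit 8) (nat_lit 13))
    (@En.n l3348 (nat_lit 12637) (nat_lit 8) (nat_lit 4))
    (@En.n l2205 (nat_lit 11914) (nat_lit 10) (nat_lit 10))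
    (@En.n l3337 (nat_lit 909) (nat_lit 11) (nat_lit 12))
    (@En.n l3348 (nat_lit 12664) (nat_lit 11) (nat_lit 3))
    (@En.n l1998 (nat_lit 6373) (nat_lit 0) (nat_lit 12))
    (@En.n l2867 (nat_lit 12662) (nat_lit 14) (nat_lit 5))
    (@En.i (nat_lit 43) (nat_lit 2) (nat_lit 13))
    (@En.n l11 (nat_lit 12661) (nat_lit 15) (nat_lit 2))))
  (@Cl.mk (nat_lit 0x20005000c0006000c000a0004000d0004000a00030006000b000a000e0006) (nat_lit 0x80a30704002360) (nat_lit 16) Lb.e (@T16.mk En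
    (@En.n l9000 (nat_lit 11122) (nat_lit 11) (nat_lit 6))
    (@En.n l3430 (nat_lit 12661) (nat_lit 1) (nat_lit 14))
    (@En.n l9001 (nat_lit 12664) (nat_lit 2) (nat_lit 10))
    (@En.i (nat_lit 12659) (nat_lit 3) (nat_lit 11))
    (@En.n l9002 (nat_lit 12) (nat_lit 4) (nat_lit 6))
    (@En.n l9003 (nat_lit 12653) (nat_lit 5) (nat_lit 3))
    (@En.n l9004 (nat_lit 12260) (nat_lit 0) (nat_lit 10))
    (@En.n l9003 (nat_lit 12119) (nat_lit 7) (nat_lit 4))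
    (@En.n l5601 (nat_lit 12324) (nat_lit 9) (nat_lit 13))
    (@En.n l152 (nat_lit 12329) (nat_lit 9) (nat_lit 4))
    (@En.n l9005 (nat_lit 11918) (nat_lit 11) (nat_lit 10))
    (@En.i (nat_lit 910) (nat_lit 12) (nat_lit 12))
    (@En.n l9000 (nat_lit 12314) (nat_lit 13) (nat_lit 6))
    (@En.n l9006 (nat_lit 11963) (nat_lit 14) (nat_lit 12))
    (@En.n l9007 (nat_lit 12698) (nat_lit 13) (nat_lit 5))
    (@En.n l18 (nat_lit 12662) (nat_lit 15) (nat_lit 2))))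
  (@Cl.mk (nat_lit 0x2000d0005000c0003000b000a0004000d000a000500030006000b000e0006) (nat_lit 0x401063094000330) (nat_lit 16) Lb.e (@T16.mk En
    (@En.n l152 (nat_lit 11876) (nat_lit 4) (nat_lit 6))
    (@En.n l23406 (nat_lit 4616) (nat_lit 4) (nat_lit 14))
    (@En.n l14450 (nat_lit 12656) (nat_lit 2) (nat_lit 11))
    (@En.n l14975 (nat_lit 12251) (nat_lit 12) (nat_lit 6))
    (@En.n l28741 (nat_lit 12661) (nat_lit 4) (nat_lit 3))
    (@En.i (nat_lit 7662) (nat_lit 0) (nat_lit 5))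
    (@En.n l22577 (nat_lit 10578) (nat_lit 11) (nat_lit 10))
    (@En.n l1867 (nat_lit 12321) (nat_lit 8) (nat_lit 13))
    (@En.n l28742 (nat_lit 12635) (nat_lit 8) (nat_lit 4))
    (@En.n l2863 (nat_lit 11919) (nat_lit 10) (nat_lit 10))
    (@En.n l14450 (nat_lit 9525) (nat_lit 11) (nat_lit 11))
    (@En.n l148 (nat_lit 12666) (nat_lit 11) (nat_lit 3))
    (@En.n l17516 (nat_lit 6376) (nat_lit 0) (nat_lit 12))
    (@En.i (nat_lit 12653) (nat_lit 14) (nat_lit 5))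
    (@En.n l28665 (nat_lit 12439) (nat_lit 2) (nat_lit 13))
    (@En.n l3 (nat_lit 12663) (nat_lit 15) (nat_lit 2))))
  (@Cl.mk (nat_lit 0x2000d000b00060003000c000a0005000d0004000b00030006000a000e0005) (nat_lit 0x460094090500280) (nat_lit 16) Lb.e (@T16.mk En
    (@En.n l21166 (nat_lit 12454) (nat_lit 4) (nat_lit 5))
    (@En.i (nat_lit 3436) (nat_lit 1) (nat_lit 14))
    (@En.n l5859 (nat_lit 12671) (nat_lit 2) (nat_lit 10))
    (@En.n l21167 (nat_lit 12655) (nat_lit 12) (nat_lit 6))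
    (@En.n l9819 (nat_lit 12666) (nat_lit 4) (nat_lit 3))
    (@En.n l3082 (nat_lit 11680) (nat_lit 0) (nat_lit 11))
    (@En.n l21168 (nat_lit 12772) (nat_lit 6) (nat_lit 4))
    (@En.n l1596 (nat_lit 12325) (nat_lit 8) (nat_lit 13))
    (@En.i (nat_lit 12110) (nat_lit 8) (nat_lit 5))
    (@En.n l14804 (nat_lit 11912) (nat_lit 10) (nat_lit 10))
    (@En.n l5579 (nat_lit 7556) (nat_lit 11) (nat_lit 12))
    (@En.n l5760 (nat_lit 12661) (nat_lit 11) (nat_lit 3))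
    (@En.n l5870 (nat_lit 12339) (nat_lit 0) (nat_lit 6))
    (@En.n l17696 (nat_lit 12359) (nat_lit 14) (nat_lit 11))
    (@En.n l2691 (nat_lit 12439) (nat_lit 10) (nat_lit 13))
    (@En.n l17 (nat_lit 12664) (nat_lit 15) (nat_lit 2))))
  (@Cl.mk (nat_lit 0x2000c000b000b00070004000c00050005000d0004000c00030009000e0004) (nat_lit 0x496002009050440) (nat_lit 16) Lb.e (@T16.mk En
    (@En.i (nat_lit 12681) (nat_lit 15) (nat_lit 4))
    (@En.n l13967 (nat_lit 2996) (nat_lit 1) (nat_lit 14))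
    (@En.n l5617 (nat_lit 6128) (nat_lit 2) (nat_lit 9))
    (@En.i (nat_lit 12680) (nat_lit 3) (nat_lit 3))
    (@En.n l17916 (nat_lit 12739) (nat_lit 0) (nat_lit 12))
    (@En.n l3100 (nat_lit 12686) (nat_lit 5) (nat_lit 4))
    (@En.n l5491 (nat_lit 12110) (nat_lit 7) (nat_lit 13))
    (@En.n l7946 (nat_lit 4041) (nat_lit 11) (nat_lit 5))
    (@En.n l117 (nat_lit 9245) (nat_lit 8) (nat_lit 5))
    (@En.n l13969 (nat_lit 7600) (nat_lit 10) (nat_lit 12))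
    (@En.n l13970 (nat_lit 12660) (nat_lit 10) (nat_lit 4))
    (@En.n l55 (nat_lit 12713) (nat_lit 12) (nat_lit 7))
    (@En.n l27832 (nat_lit 12657) (nat_lit 5) (nat_lit 11))
    (@En.n l936 (nat_lit 12714) (nat_lit 14) (nat_lit 11))
    (@En.n l7944 (nat_lit 11876) (nat_lit 11) (nat_lit 12))
    (@En.n l17 (nat_lit 12665) (nat_lit 15) (nat_lit 2))))
  (@Cl.mk (nat_lit 0x2000d000b00060003000b000a0005000d000a000500030006000a000e0006) (nat_lit 0x1600540b4000380) (nat_lit 16) Lb.e (@T16.mk En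
    (@En.n l137 (nat_lit 11879) (nat_lit 4) (nat_lit 6))
    (@En.n l10903 (nat_lit 3437) (nat_lit 1) (nat_lit 14))
    (@En.n l17655 (nat_lit 12667) (nat_lit 2) (nat_lit 10))
    (@En.n l17656 (nat_lit 12253) (nat_lit 12) (nat_lit 6))
    (@En.n l17640 (nat_lit 12664) (nat_lit 4) (nat_lit 3))
    (@En.n l1393 (nat_lit 7666) (nat_lit 0) (nat_lit 5))
    (@En.n l17657 (nat_lit 10579) (nat_lit 11) (nat_lit 10))
    (@En.n l17658 (nat_lit 12322) (nat_lit 8) (nat_lit 13))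
    (@En.n l10903 (nat_lit 12113) (nat_lit 8) (nat_lit 5))
    (@En.i (nat_lit 11915) (nat_lit 10) (nat_lit 10))
    (@En.n l17585 (nat_lit 9632) (nat_lit 11) (nat_lit 11))
    (@En.n l17659 (nat_lit 12663) (nat_lit 11) (nat_lit 3))
    (@En.n l17660 (nat_lit 12341) (nat_lit 0) (nat_lit 6))
    (@En.n l17081 (nat_lit 12360) (nat_lit 14) (nat_lit 11))
    (@En.n l17661 (nat_lit 39) (nat_lit 2) (nat_lit 13))
    (@En.n l17 (nat_lit 12666) (nat_lit 15) (nat_lit 2))))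
  (@Cl.mk (nat_lit 0x2000c000a0006000d0004000b00030006000d000b00050003000a000e0005) (nat_lit 0x45090600a400270) (nat_lit 16) Lb.e (@T16.mk En
    (@En.i (nat_lit 12687) (nat_lit 7) (nat_lit 5))
    (@En.i (nat_lit 3338) (nat_lit 1) (nat_lit 14))
    (@En.n l830 (nat_lit 11146) (nat_lit 2) (nat_lit 10))
    (@En.n l50 (nat_lit 12671) (nat_lit 3) (nat_lit 3))
    (@En.n l8882 (nat_lit 10796) (nat_lit 0) (nat_lit 5))
    (@En.n l7162 (nat_lit 11822) (nat_lit 13) (nat_lit 11))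
    (@En.n l7705 (nat_lit 12491) (nat_lit 7) (nat_lit 13))
    (@En.n l1992 (nat_lit 12118) (nat_lit 12) (nat_lit 6))
    (@En.n l14731 (nat_lit 12679) (nat_lit 8) (nat_lit 3))
    (@En.n l1865 (nat_lit 12842) (nat_lit 0) (nat_lit 11))
    (@En.n l17697 (nat_lit 12680) (nat_lit 10) (nat_lit 4))
    (@En.n l117 (nat_lit 12668) (nat_lit 12) (nat_lit 13))
    (@En.n l107 (nat_lit 12669) (nat_lit 13) (nat_lit 6))
    (@En.n l17698 (nat_lit 12364) (nat_lit 14) (nat_lit 10))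
    (@En.n l17699 (nat_lit 10685) (nat_lit 11) (nat_lit 12))
    (@En.n l17 (nat_lit 12667) (nat_lit 15) (nat_lit 2))))
  (@Cl.mk (nat_lit 0x2000d000a000d0003000a0003000a0006000d000b000600030006000e0005) (nat_lit 0x45805050a300080) (nat_lit 16) Lb.e (@T16.mk En
    (@En.n l2498 (nat_lit 12675) (nat_lit 4) (nat_lit 5))
    (@En.i (nat_lit 3337) (nat_lit 1) (nat_lit 14))
    (@En.n l2508 (nat_lit 12801) (nat_lit 12) (nat_lit 6))
    (@En.n l50 (nat_lit 12670) (nat_lit 3) (nat_lit 3))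
    (@En.n l7155 (nat_lit 10795) (nat_lit 0) (nat_lit 6))
    (@En.n l2498 (nat_lit 12403) (nat_lit 10) (nat_lit 11))
    (@En.n l1770 (nat_lit 12669) (nat_lit 7) (nat_lit 13))
    (@En.n l527 (nat_lit 12667) (nat_lit 7) (nat_lit 6))
    (@En.n l7156 (nat_lit 12666) (nat_lit 9) (nat_lit 10))
    (@En.n l7157 (nat_lit 12674) (nat_lit 9) (nat_lit 3))
    (@En.n l1867 (nat_lit 12841) (nat_lit 11) (nat_lit 10))
    (@En.n l7158 (nat_lit 12673) (nat_lit 11) (nat_lit 3))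
    (@En.n l2508 (nat_lit 4145) (nat_lit 0) (nat_lit 13))
    (@En.n l7159 (nat_lit 12365) (nat_lit 14) (nat_lit 10))
    (@En.n l7160 (nat_lit 10681) (nat_lit 2) (nat_lit 13))
    (@En.n l17 (nat_lit 12668) (nat_lit 15) (nat_lit 2))))
  (@Cl.mk (nat_lit 0x2000d0006000d0003000b0003000a000d000a00050003000a0006000e0006) (nat_lit 0x409050492004080) (nat_lit 16) Lb.e (@T16.mk En
    (@En.n l17693 (nat_lit 12690) (nat_lit 6) (nat_lit 6))
    (@En.i (nat_lit 8092) (nat_lit 1) (nat_lit 14))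
    (@En.i (nat_lit 12668) (nat_lit 2) (nat_lit 6))
    (@En.n l17694 (nat_lit 9779) (nat_lit 3) (nat_lit 10))
    (@En.n l50 (nat_lit 12672) (nat_lit 4) (nat_lit 3))
    (@En.n l7155 (nat_lit 10797) (nat_lit 0) (nat_lit 5))
    (@En.n l17695 (nat_lit 11830) (nat_lit 13) (nat_lit 10))
    (@En.n l1899 (nat_lit 10124) (nat_lit 8) (nat_lit 13))
    (@En.i (nat_lit 12322) (nat_lit 9) (nat_lit 10))
    (@En.n l7155 (nat_lit 12709) (nat_lit 9) (nat_lit 3))
    (@En.n l649 (nat_lit 12843) (nat_lit 11) (nat_lit 11))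
    (@En.n l17696 (nat_lit 12693) (nat_lit 11) (nat_lit 3))
    (@En.n l3050 (nat_lit 4146) (nat_lit 0) (nat_lit 13))
    (@En.i (nat_lit 11300) (nat_lit 14) (nat_lit 6))
    (@En.n l17645 (nat_lit 10684) (nat_lit 2) (nat_lit 13))
    (@En.n l17 (nat_lit 12669) (nat_lit 15) (nat_lit 2))))
  (@Cl.mk (nat_lit 0x2000d000a000d0003000b0003000a0006000d0005000c00030006000e0004) (nat_lit 0x442090509070040) (nat_lit 16) Lb.e (@T16.mk En
    (@En.i (nat_lit 12678) (nat_lit 6) (nat_lit 4))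
    (@En.i (nat_lit 4337) (nat_lit 1) (nat_lit 14))
    (@En.n l4451 (nat_lit 6262) (nat_lit 12) (nat_lit 6))
    (@En.i (nat_lit 12668) (nat_lit 3) (nat_lit 3))
    (@En.i (nat_lit 12580) (nat_lit 0) (nat_lit 12))
    (@En.n l10972 (nat_lit 9287) (nat_lit 5) (nat_lit 5))
    (@En.n l1770 (nat_lit 12672) (nat_lit 7) (nat_lit 13))
    (@En.n l527 (nat_lit 12671) (nat_lit 7) (nat_lit 6))
    (@En.n l1769 (nat_lit 12664) (nat_lit 9) (nat_lit 10))
    (@En.n l7157 (nat_lit 12676) (nat_lit 9) (nat_lit 3))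
    (@En.n l1867 (nat_lit 5982) (nat_lit 11) (nat_lit 11))
    (@En.n l7158 (nat_lit 12677) (nat_lit 11) (nat_lit 3))
    (@En.n l4451 (nat_lit 5136) (nat_lit 0) (nat_lit 13))
    (@En.n l7159 (nat_lit 12363) (nat_lit 14) (nat_lit 10))
    (@En.n l2038 (nat_lit 9682) (nat_lit 11) (nat_lit 13))
    (@En.n l17 (nat_lit 12670) (nat_lit 15) (nat_lit 2))))
  (@Cl.mk (nat_lit 0x2000c000a0006000d0004000c00030006000d0004000c0003000a000e0004) (nat_lit 0x45030a009060140) (nat_lit 16) Lb.e (@T16.mk En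
    (@En.n l28714 (nat_lit 12694) (nat_lit 7) (nat_lit 4))
    (@En.i (nat_lit 3004) (nat_lit 1) (nat_lit 14))
    (@En.n l4660 (nat_lit 6118) (nat_lit 2) (nat_lit 10))
    (@En.i (nat_lit 12667) (nat_lit 3) (nat_lit 3))
    (@En.n l1865 (nat_lit 12589) (nat_lit 0) (nat_lit 12))
    (@En.i (nat_lit 9283) (nat_lit 5) (nat_lit 4))
    (@En.n l7705 (nat_lit 12488) (nat_lit 7) (nat_lit 13))
    (@En.n l1992 (nat_lit 12114) (nat_lit 12) (nat_lit 6))
    (@En.n l14731 (nat_lit 12714) (nat_lit 8) (nat_lit 3))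
    (@En.n l1865 (nat_lit 5984) (nat_lit 0) (nat_lit 12))
    (@En.n l17697 (nat_lit 12665) (nat_lit 10) (nat_lit 4))
    (@En.n l117 (nat_lit 12670) (nat_lit 12) (nat_lit 13))
    (@En.n l107 (nat_lit 12672) (nat_lit 13) (nat_lit 6))
    (@En.n l17698 (nat_lit 12362) (nat_lit 14) (nat_lit 10))
    (@En.n l8015 (nat_lit 9680) (nat_lit 11) (nat_lit 12))
    (@En.n l17 (nat_lit 12671) (nat_lit 15) (nat_lit 2))))
noncomputable def a792 : T16 Cl := @T16.mk Cl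
  (@Cl.mk (nat_lit 0x2000d0006000d0003000c0003000a000d0004000b0003000a0006000e0005) (nat_lit 0x4020a0480605050) (nat_lit 16) Lb.e (@T16.mk En
    (@En.n l3057 (nat_lit 12712) (nat_lit 6) (nat_lit 5))
    (@En.i (nat_lit 8089) (nat_lit 1) (nat_lit 14))
    (@En.i (nat_lit 12670) (nat_lit 2) (nat_lit 6))
    (@En.n l9642 (nat_lit 12716) (nat_lit 3) (nat_lit 10))
    (@En.i (nat_lit 12669) (nat_lit 4) (nat_lit 3))
    (@En.i (nat_lit 12574) (nat_lit 0) (nat_lit 11))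
    (@En.n l17552 (nat_lit 9988) (nat_lit 6) (nat_lit 4))
    (@En.n l1899 (nat_lit 12399) (nat_lit 8) (nat_lit 13))
    (@En.i (nat_lit 12325) (nat_lit 9) (nat_lit 10))
    (@En.n l1412 (nat_lit 12710) (nat_lit 9) (nat_lit 3))
    (@En.n l649 (nat_lit 5978) (nat_lit 11) (nat_lit 12))
    (@En.n l17696 (nat_lit 12713) (nat_lit 11) (nat_lit 3))
    (@En.n l3050 (nat_lit 4153) (nat_lit 0) (nat_lit 13))
    (@En.i (nat_lit 11299) (nat_lit 14) (nat_lit 6))
    (@En.n l17555 (nat_lit 9683) (nat_lit 2) (nat_lit 13))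
    (@En.n l17 (nat_lit 12672) (nat_lit 15) (nat_lit 2))))
  (@Cl.mk (nat_lit 0x2000d000c000b0003000a0004000a0005000d000b000600030006000e0005) (nat_lit 0x39105040a300020) (nat_lit 16) Lb.e (@T16.mk En
    (@En.n l4172 (nat_lit 12688) (nat_lit 4) (nat_lit 5))
    (@En.n l13967 (nat_lit 3336) (nat_lit 1) (nat_lit 14))
    (@En.i (nat_lit 12800) (nat_lit 12) (nat_lit 6))
    (@En.n l50 (nat_lit 12677) (nat_lit 3) (nat_lit 3))
    (@En.n l3897 (nat_lit 10800) (nat_lit 0) (nat_lit 6))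
    (@En.i (nat_lit 12408) (nat_lit 10) (nat_lit 11))
    (@En.i (nat_lit 12693) (nat_lit 7) (nat_lit 13))
    (@En.i (nat_lit 12680) (nat_lit 7) (nat_lit 5))
    (@En.n l17702 (nat_lit 12663) (nat_lit 9) (nat_lit 10))
    (@En.n l117 (nat_lit 12201) (nat_lit 9) (nat_lit 4))
    (@En.n l12278 (nat_lit 9892) (nat_lit 11) (nat_lit 10))
    (@En.n l755 (nat_lit 12668) (nat_lit 11) (nat_lit 3))
    (@En.n l575 (nat_lit 6375) (nat_lit 0) (nat_lit 11))
    (@En.i (nat_lit 12674) (nat_lit 14) (nat_lit 12))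
    (@En.i (nat_lit 10686) (nat_lit 2) (nat_lit 13))
    (@En.n l17 (nat_lit 12673) (nat_lit 15) (nat_lit 2))))
  (@Cl.mk (nat_lit 0x2000c000a000d000900040003000a0006000d000b000700030006000e0005) (nat_lit 0x84860050a300020) (nat_lit 16) Lb.e (@T16.mk En
    (@En.n l4172 (nat_lit 12708) (nat_lit 6) (nat_lit 5))
    (@En.n l14436 (nat_lit 3334) (nat_lit 1) (nat_lit 14))
    (@En.i (nat_lit 12799) (nat_lit 12) (nat_lit 6))
    (@En.n l50 (nat_lit 12676) (nat_lit 3) (nat_lit 3))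
    (@En.n l4921 (nat_lit 5152) (nat_lit 0) (nat_lit 7))
    (@En.n l17700 (nat_lit 12409) (nat_lit 12) (nat_lit 11))
    (@En.n l17546 (nat_lit 12709) (nat_lit 7) (nat_lit 13))
    (@En.n l936 (nat_lit 12679) (nat_lit 7) (nat_lit 6))
    (@En.n l476 (nat_lit 11176) (nat_lit 9) (nat_lit 10))
    (@En.n l17701 (nat_lit 12668) (nat_lit 9) (nat_lit 3))
    (@En.n l1865 (nat_lit 12726) (nat_lit 0) (nat_lit 4))
    (@En.n l7865 (nat_lit 9053) (nat_lit 12) (nat_lit 9))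
    (@En.n l2402 (nat_lit 4148) (nat_lit 5) (nat_lit 13))
    (@En.i (nat_lit 12369) (nat_lit 14) (nat_lit 10))
    (@En.n l5389 (nat_lit 9689) (nat_lit 11) (nat_lit 12))
    (@En.n l17 (nat_lit 12674) (nat_lit 15) (nat_lit 2))))
  (@Cl.mk (nat_lit 0x30009000300090006000c000b000b00070004000700050005000d000a000d) (nat_lit 0x605044400000237) (nat_lit 16) Lb.e (@T16.mk En
    (@En.n l1226 (nat_lit 4161) (nat_lit 0) (nat_lit 13))
    (@En.i (nat_lit 11806) (nat_lit 3) (nat_lit 10))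
    (@En.n l7410 (nat_lit 11121) (nat_lit 2) (nat_lit 13))
    (@En.n l2472 (nat_lit 12701) (nat_lit 11) (nat_lit 5))
    (@En.n l2473 (nat_lit 12037) (nat_lit 4) (nat_lit 5))
    (@En.n l1226 (nat_lit 12803) (nat_lit 11) (nat_lit 7))
    (@En.n l7411 (nat_lit 12678) (nat_lit 8) (nat_lit 4))
    (@En.n l7412 (nat_lit 10767) (nat_lit 0) (nat_lit 7))
    (@En.n l7413 (nat_lit 12668) (nat_lit 5) (nat_lit 11))
    (@En.i (nat_lit 12437) (nat_lit 5) (nat_lit 11))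
    (@En.n l7414 (nat_lit 12690) (nat_lit 13) (nat_lit 12))
    (@En.n l7415 (nat_lit 12687) (nat_lit 14) (nat_lit 6))
    (@En.n l7416 (nat_lit 11879) (nat_lit 13) (nat_lit 9))
    (@En.n l7417 (nat_lit 12708) (nat_lit 15) (nat_lit 3))
    (@En.n l2360 (nat_lit 9325) (nat_lit 0) (nat_lit 9))
    (@En.n l7418 (nat_lit 12688) (nat_lit 15) (nat_lit 3))))
  (@Cl.mk (nat_lit 0x2000c000a000d000a00040003000a0006000d0006000c00030006000e0004) (nat_lit 0x842500509070040) (nat_lit 16) Lb.e (@T16.mk En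
    (@En.i (nat_lit 12707) (nat_lit 6) (nat_lit 4))
    (@En.n l14436 (nat_lit 3341) (nat_lit 1) (nat_lit 14))
    (@En.i (nat_lit 6257) (nat_lit 12) (nat_lit 6))
    (@En.i (nat_lit 12674) (nat_lit 3) (nat_lit 3))
    (@En.n l5390 (nat_lit 12593) (nat_lit 0) (nat_lit 12))
    (@En.i (nat_lit 9288) (nat_lit 5) (nat_lit 6))
    (@En.i (nat_lit 12710) (nat_lit 7) (nat_lit 13))
    (@En.n l936 (nat_lit 12714) (nat_lit 7) (nat_lit 6))
    (@En.n l476 (nat_lit 11173) (nat_lit 9) (nat_lit 10))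
    (@En.n l17701 (nat_lit 12670) (nat_lit 9) (nat_lit 3))
    (@En.n l1865 (nat_lit 12200) (nat_lit 0) (nat_lit 4))
    (@En.n l24351 (nat_lit 9063) (nat_lit 12) (nat_lit 10))
    (@En.n l5390 (nat_lit 5135) (nat_lit 5) (nat_lit 13))
    (@En.i (nat_lit 12370) (nat_lit 14) (nat_lit 10))
    (@En.i (nat_lit 9686) (nat_lit 11) (nat_lit 12))
    (@En.n l17 (nat_lit 12676) (nat_lit 15) (nat_lit 2))))
  (@Cl.mk (nat_lit 0x2000d000c000b0003000b0004000a0005000d0005000c00030006000e0004) (nat_lit 0x491010409070040) (nat_lit 16) Lb.e (@T16.mk En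
    (@En.i (nat_lit 10537) (nat_lit 4) (nat_lit 4))
    (@En.n l13967 (nat_lit 4336) (nat_lit 1) (nat_lit 14))
    (@En.i (nat_lit 6265) (nat_lit 12) (nat_lit 6))
    (@En.i (nat_lit 12673) (nat_lit 3) (nat_lit 3))
    (@En.n l2865 (nat_lit 12594) (nat_lit 0) (nat_lit 12))
    (@En.i (nat_lit 9291) (nat_lit 5) (nat_lit 5))
    (@En.i (nat_lit 12713) (nat_lit 7) (nat_lit 13))
    (@En.i (nat_lit 12665) (nat_lit 7) (nat_lit 5))
    (@En.n l2865 (nat_lit 12661) (nat_lit 9) (nat_lit 10))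
    (@En.n l117 (nat_lit 12198) (nat_lit 9) (nat_lit 4))
    (@En.n l12278 (nat_lit 5481) (nat_lit 11) (nat_lit 11))
    (@En.n l755 (nat_lit 12670) (nat_lit 11) (nat_lit 3))
    (@En.n l575 (nat_lit 6371) (nat_lit 0) (nat_lit 11))
    (@En.i (nat_lit 12676) (nat_lit 14) (nat_lit 12))
    (@En.i (nat_lit 10646) (nat_lit 11) (nat_lit 13))
    (@En.n l17 (nat_lit 12677) (nat_lit 15) (nat_lit 2))))
  (@Cl.mk (nat_lit 0x300090006000c0005000c000c0004000700040004000d000a000d0003000b) (nat_lit 0x304058000024208) (nat_lit 16) Lb.e (@T16.mk En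
    (@En.n l17516 (nat_lit 5979) (nat_lit 0) (nat_lit 11))
    (@En.n l7158 (nat_lit 10537) (nat_lit 15) (nat_lit 3))
    (@En.n l17634 (nat_lit 5138) (nat_lit 0) (nat_lit 13))
    (@En.n l7159 (nat_lit 12371) (nat_lit 3) (nat_lit 10))
    (@En.n l2038 (nat_lit 9677) (nat_lit 2) (nat_lit 13))
    (@En.n l17635 (nat_lit 12696) (nat_lit 12) (nat_lit 4))
    (@En.n l17634 (nat_lit 12403) (nat_lit 4) (nat_lit 4))
    (@En.n l17636 (nat_lit 6261) (nat_lit 11) (nat_lit 7))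
    (@En.n l17637 (nat_lit 10690) (nat_lit 1) (nat_lit 4))
    (@En.n l61 (nat_lit 12670) (nat_lit 4) (nat_lit 12))
    (@En.n l7079 (nat_lit 10768) (nat_lit 9) (nat_lit 12))
    (@En.n l17638 (nat_lit 9290) (nat_lit 9) (nat_lit 5))
    (@En.n l14331 (nat_lit 12712) (nat_lit 13) (nat_lit 12))
    (@En.n l13489 (nat_lit 12694) (nat_lit 14) (nat_lit 6))
    (@En.n l13491 (nat_lit 12454) (nat_lit 13) (nat_lit 9))
    (@En.n l7157 (nat_lit 12707) (nat_lit 15) (nat_lit 3))))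
  (@Cl.mk (nat_lit 0x2000b000a0006000d000a000500030006000d000b00060003000a000e0005) (nat_lit 0x340970009500220) (nat_lit 16) Lb.e (@T16.mk En
    (@En.n l16760 (nat_lit 12441) (nat_lit 7) (nat_lit 5))
    (@En.n l27794 (nat_lit 3335) (nat_lit 1) (nat_lit 14))
    (@En.n l27795 (nat_lit 11147) (nat_lit 2) (nat_lit 10))
    (@En.n l50 (nat_lit 12714) (nat_lit 3) (nat_lit 3))
    (@En.n l27796 (nat_lit 5151) (nat_lit 4) (nat_lit 6))
    (@En.n l14476 (nat_lit 12433) (nat_lit 13) (nat_lit 11))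
    (@En.n l15323 (nat_lit 12492) (nat_lit 7) (nat_lit 13))
    (@En.n l25551 (nat_lit 12254) (nat_lit 7) (nat_lit 6))
    (@En.n l27797 (nat_lit 12667) (nat_lit 8) (nat_lit 3))
    (@En.n l13792 (nat_lit 12727) (nat_lit 0) (nat_lit 5))
    (@En.n l24148 (nat_lit 9286) (nat_lit 11) (nat_lit 10))
    (@En.i (nat_lit 12674) (nat_lit 12) (nat_lit 13))
    (@En.n l27798 (nat_lit 12709) (nat_lit 13) (nat_lit 6))
    (@En.n l575 (nat_lit 12367) (nat_lit 14) (nat_lit 10))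
    (@En.n l27799 (nat_lit 9687) (nat_lit 11) (nat_lit 11))
    (@En.n l17 (nat_lit 12679) (nat_lit 15) (nat_lit 2))))
  (@Cl.mk (nat_lit 0x2000c000b000b00070004000b00050005000d000b000500030009000e0005) (nat_lit 0x44100600a900420) (nat_lit 16) Lb.e (@T16.mk En
    (@En.n l13966 (nat_lit 20) (nat_lit 5) (nat_lit 5))
    (@En.n l13967 (nat_lit 2997) (nat_lit 1) (nat_lit 14))
    (@En.n l5617 (nat_lit 11148) (nat_lit 2) (nat_lit 9))
    (@En.n l50 (nat_lit 12665) (nat_lit 3) (nat_lit 3))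
    (@En.n l13968 (nat_lit 10801) (nat_lit 0) (nat_lit 5))
    (@En.i (nat_lit 11809) (nat_lit 6) (nat_lit 11))
    (@En.n l5491 (nat_lit 12113) (nat_lit 7) (nat_lit 13))
    (@En.n l7946 (nat_lit 12620) (nat_lit 11) (nat_lit 5))
    (@En.n l117 (nat_lit 9246) (nat_lit 8) (nat_lit 5))
    (@En.n l13969 (nat_lit 11267) (nat_lit 10) (nat_lit 11))
    (@En.n l13970 (nat_lit 12656) (nat_lit 10) (nat_lit 4))
    (@En.n l55 (nat_lit 12693) (nat_lit 12) (nat_lit 7))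
    (@En.n l575 (nat_lit 24) (nat_lit 5) (nat_lit 11))
    (@En.n l936 (nat_lit 12679) (nat_lit 14) (nat_lit 11))
    (@En.n l7944 (nat_lit 11879) (nat_lit 11) (nat_lit 12))
    (@En.n l17 (nat_lit 12680) (nat_lit 15) (nat_lit 2))))
  (@Cl.mk (nat_lit 0x40004000c000b000b00060004000c00050005000c0004000c000c0004000a) (nat_lit 0x33400300306605) (nat_lit 16) Lb.e (@T16.mk En
    (@En.n l27545 (nat_lit 6071) (nat_lit 0) (nat_lit 10))
    (@En.n l24244 (nat_lit 12687) (nat_lit 1) (nat_lit 4))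
    (@En.n l61 (nat_lit 12665) (nat_lit 4) (nat_lit 12))
    (@En.n l17916 (nat_lit 12688) (nat_lit 1) (nat_lit 12))
    (@En.n l27546 (nat_lit 12684) (nat_lit 4) (nat_lit 4))
    (@En.n l5491 (nat_lit 12112) (nat_lit 0) (nat_lit 12))
    (@En.n l7946 (nat_lit 12623) (nat_lit 11) (nat_lit 5))
    (@En.n l117 (nat_lit 9243) (nat_lit 7) (nat_lit 5))
    (@En.n l2683 (nat_lit 5496) (nat_lit 9) (nat_lit 12))
    (@En.n l27547 (nat_lit 66) (nat_lit 1) (nat_lit 4))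
    (@En.n l27548 (nat_lit 12692) (nat_lit 0) (nat_lit 6))
    (@En.n l27549 (nat_lit 12656) (nat_lit 5) (nat_lit 11))
    (@En.n l27550 (nat_lit 12440) (nat_lit 5) (nat_lit 11))
    (@En.n l7944 (nat_lit 11875) (nat_lit 3) (nat_lit 12))
    (@En.n l27551 (nat_lit 12683) (nat_lit 12) (nat_lit 4))
    (@En.n l18 (nat_lit 11809) (nat_lit 0) (nat_lit 4))))
  (@Cl.mk (nat_lit 0x200070005000b0005000c000b000b00050004000900050005000b000e000b) (nat_lit 0x8029400500941) (nat_lit 16) Lb.e (@T16.mk En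
    (@En.n l14992 (nat_lit 20) (nat_lit 2) (nat_lit 11))
    (@En.n l619 (nat_lit 12523) (nat_lit 4) (nat_lit 14))
    (@En.n l5911 (nat_lit 12607) (nat_lit 2) (nat_lit 11))
    (@En.n l6066 (nat_lit 25) (nat_lit 3) (nat_lit 5))
    (@En.n l18 (nat_lit 9239) (nat_lit 4) (nat_lit 5))
    (@En.n l14993 (nat_lit 11197) (nat_lit 5) (nat_lit 9))
    (@En.i (nat_lit 12623) (nat_lit 6) (nat_lit 4))
    (@En.n l14994 (nat_lit 12691) (nat_lit 7) (nat_lit 5))
    (@En.n l742 (nat_lit 12620) (nat_lit 9) (nat_lit 11))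
    (@En.n l14995 (nat_lit 12703) (nat_lit 10) (nat_lit 11))
    (@En.n l7 (nat_lit 1257) (nat_lit 11) (nat_lit 12))
    (@En.n l6970 (nat_lit 11806) (nat_lit 12) (nat_lit 5))
    (@En.n l14996 (nat_lit 11200) (nat_lit 13) (nat_lit 11))
    (@En.n l5311 (nat_lit 12683) (nat_lit 14) (nat_lit 5))
    (@En.n l14997 (nat_lit 11875) (nat_lit 7) (nat_lit 7))
    (@En.n l107 (nat_lit 12682) (nat_lit 15) (nat_lit 2))))
  (@Cl.mk (nat_lit 0x20005000b0004000c000b000b00050004000c00050005000b0004000e000c) (nat_lit 0x80221003008057) (nat_lit 16) Lb.e (@T16.mk En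
    (@En.n l28306 (nat_lit 12681) (nat_lit 3) (nat_lit 12))
    (@En.n l20930 (nat_lit 12682) (nat_lit 1) (nat_lit 14))
    (@En.n l5765 (nat_lit 12685) (nat_lit 2) (nat_lit 4))
    (@En.n l14206 (nat_lit 12606) (nat_lit 3) (nat_lit 11))
    (@En.n l14202 (nat_lit 12649) (nat_lit 4) (nat_lit 5))
    (@En.n l5390 (nat_lit 9238) (nat_lit 5) (nat_lit 5))
    (@En.n l698 (nat_lit 5497) (nat_lit 7) (nat_lit 12))
    (@En.i (nat_lit 12647) (nat_lit 7) (nat_lit 4))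
    (@En.n l14204 (nat_lit 10536) (nat_lit 8) (nat_lit 5))
    (@En.n l14222 (nat_lit 4039) (nat_lit 10) (nat_lit 11))
    (@En.n l28307 (nat_lit 12697) (nat_lit 11) (nat_lit 11))
    (@En.n l14206 (nat_lit 1258) (nat_lit 12) (nat_lit 12))
    (@En.i (nat_lit 11804) (nat_lit 13) (nat_lit 4))
    (@En.n l28308 (nat_lit 6171) (nat_lit 14) (nat_lit 11))
    (@En.n l28309 (nat_lit 12769) (nat_lit 13) (nat_lit 5))
    (@En.n l50 (nat_lit 12683) (nat_lit 15) (nat_lit 2))))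
  (@Cl.mk (nat_lit 0x40004000c000a000a00060004000c000a000600060004000c000c0006000a) (nat_lit 0x93600210005808) (nat_lit 16) Lb.e (@T16.mk En
    (@En.i (nat_lit 6138) (nat_lit 0) (nat_lit 10))
    (@En.n l28038 (nat_lit 11302) (nat_lit 1) (nat_lit 6))
    (@En.n l28039 (nat_lit 12686) (nat_lit 4) (nat_lit 12))
    (@En.n l28040 (nat_lit 11088) (nat_lit 10) (nat_lit 12))
    (@En.n l28041 (nat_lit 9193) (nat_lit 4) (nat_lit 4))
    (@En.n l28042 (nat_lit 12648) (nat_lit 10) (nat_lit 6))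
    (@En.n l14157 (nat_lit 11832) (nat_lit 1) (nat_lit 6))
    (@En.n l28043 (nat_lit 20) (nat_lit 6) (nat_lit 10))
    (@En.n l28044 (nat_lit 7513) (nat_lit 9) (nat_lit 12))
    (@En.n l14160 (nat_lit 12427) (nat_lit 9) (nat_lit 4))
    (@En.n l28045 (nat_lit 9985) (nat_lit 0) (nat_lit 6))
    (@En.n l3961 (nat_lit 12654) (nat_lit 6) (nat_lit 10))
    (@En.n l17274 (nat_lit 9730) (nat_lit 13) (nat_lit 10))
    (@En.n l28038 (nat_lit 11125) (nat_lit 3) (nat_lit 12))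
    (@En.n l152 (nat_lit 12685) (nat_lit 12) (nat_lit 4))
    (@En.n l28046 (nat_lit 11850) (nat_lit 0) (nat_lit 4))))
  (@Cl.mk (nat_lit 0x20007000b0004000c000a000a00050004000c0009000600060004000e000c) (nat_lit 0x70121002600056) (nat_lit 16) Lb.e (@T16.mk En
    (@En.i (nat_lit 12684) (nat_lit 3) (nat_lit 12))
    (@En.n l4270 (nat_lit 12524) (nat_lit 1) (nat_lit 14))
    (@En.n l14155 (nat_lit 9187) (nat_lit 2) (nat_lit 4))
    (@En.n l14156 (nat_lit 12565) (nat_lit 10) (nat_lit 6))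
    (@En.n l14157 (nat_lit 9191) (nat_lit 4) (nat_lit 6))
    (@En.n l14158 (nat_lit 12682) (nat_lit 5) (nat_lit 9))
    (@En.n l14159 (nat_lit 7512) (nat_lit 7) (nat_lit 12))
    (@En.n l14160 (nat_lit 12651) (nat_lit 7) (nat_lit 4))
    (@En.n l14161 (nat_lit 9989) (nat_lit 8) (nat_lit 5))
    (@En.n l3961 (nat_lit 4040) (nat_lit 6) (nat_lit 10))
    (@En.n l14162 (nat_lit 9732) (nat_lit 11) (nat_lit 10))
    (@En.n l14163 (nat_lit 1280) (nat_lit 12) (nat_lit 12))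
    (@En.n l6238 (nat_lit 11810) (nat_lit 13) (nat_lit 4))
    (@En.i (nat_lit 6172) (nat_lit 14) (nat_lit 11))
    (@En.n l14164 (nat_lit 10925) (nat_lit 1) (nat_lit 7))
    (@En.n l3 (nat_lit 12685) (nat_lit 15) (nat_lit 2))))
  (@Cl.mk (nat_lit 0x2000c000a000a00070004000c000b000600060004000c00050009000e0004) (nat_lit 0x455009700070380) (nat_lit 16) Lb.e (@T16.mk En
    (@En.n l19891 (nat_lit 12684) (nat_lit 15) (nat_lit 4))
    (@En.n l19892 (nat_lit 3035) (nat_lit 1) (nat_lit 14))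
    (@En.n l55 (nat_lit 6140) (nat_lit 2) (nat_lit 9))
    (@En.n l16914 (nat_lit 10802) (nat_lit 3) (nat_lit 5))
    (@En.n l19893 (nat_lit 11967) (nat_lit 5) (nat_lit 12))
    (@En.n l19894 (nat_lit 12108) (nat_lit 5) (nat_lit 4))
    (@En.n l19895 (nat_lit 12619) (nat_lit 10) (nat_lit 6))
    (@En.n l19896 (nat_lit 12107) (nat_lit 7) (nat_lit 6))
    (@En.n l19897 (nat_lit 12680) (nat_lit 9) (nat_lit 11))
    (@En.n l19898 (nat_lit 7599) (nat_lit 10) (nat_lit 12))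
    (@En.n l19899 (nat_lit 12728) (nat_lit 10) (nat_lit 4))
    (@En.i (nat_lit 9987) (nat_lit 12) (nat_lit 7))
    (@En.n l8627 (nat_lit 12655) (nat_lit 6) (nat_lit 10))
    (@En.n l8628 (nat_lit 9284) (nat_lit 14) (nat_lit 10))
    (@En.n l19900 (nat_lit 11878) (nat_lit 3) (nat_lit 12))
    (@En.n l17 (nat_lit 12686) (nat_lit 15) (nat_lit 2))))
  (@Cl.mk (nat_lit 0x30006000c000b000b00060004000b00050005000c000a0005000d0004000a) (nat_lit 0x33500200a40807) (nat_lit 16) Lb.e (@T16.mk En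
    (@En.n l9875 (nat_lit 9326) (nat_lit 0) (nat_lit 10))
    (@En.n l18162 (nat_lit 20) (nat_lit 7) (nat_lit 4))
    (@En.n l18163 (nat_lit 12675) (nat_lit 0) (nat_lit 13))
    (@En.n l18164 (nat_lit 12690) (nat_lit 3) (nat_lit 5))
    (@En.n l18165 (nat_lit 11804) (nat_lit 4) (nat_lit 10))
    (@En.n l17699 (nat_lit 11122) (nat_lit 6) (nat_lit 12))
    (@En.n l14588 (nat_lit 12698) (nat_lit 11) (nat_lit 5))
    (@En.n l7161 (nat_lit 12038) (nat_lit 7) (nat_lit 5))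
    (@En.n l14589 (nat_lit 11150) (nat_lit 9) (nat_lit 11))
    (@En.n l14587 (nat_lit 12694) (nat_lit 9) (nat_lit 4))
    (@En.n l18166 (nat_lit 10769) (nat_lit 0) (nat_lit 6))
    (@En.n l61 (nat_lit 12667) (nat_lit 5) (nat_lit 11))
    (@En.n l18167 (nat_lit 12439) (nat_lit 13) (nat_lit 11))
    (@En.n l7705 (nat_lit 12450) (nat_lit 14) (nat_lit 12))
    (@En.n l1992 (nat_lit 12119) (nat_lit 12) (nat_lit 6))
    (@En.n l17454 (nat_lit 12441) (nat_lit 15) (nat_lit 3))))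
noncomputable def a793 : T16 Cl := @T16.mk Cl
  (@Cl.mk (nat_lit 0x30009000400090005000c000b000b00070004000700050005000d000c000b) (nat_lit 0x604044400000257) (nat_lit 16) Lb.e (@T16.mk En
    (@En.n l575 (nat_lit 9244) (nat_lit 0) (nat_lit 11))
    (@En.i (nat_lit 12708) (nat_lit 4) (nat_lit 12))
    (@En.n l9926 (nat_lit 12344) (nat_lit 2) (nat_lit 13))
    (@En.n l3180 (nat_lit 10535) (nat_lit 11) (nat_lit 5))
    (@En.n l18 (nat_lit 11853) (nat_lit 4) (nat_lit 5))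
    (@En.n l13964 (nat_lit 12804) (nat_lit 11) (nat_lit 7))
    (@En.n l77 (nat_lit 10537) (nat_lit 6) (nat_lit 4))
    (@En.n l13849 (nat_lit 10765) (nat_lit 0) (nat_lit 7))
    (@En.n l5653 (nat_lit 12673) (nat_lit 5) (nat_lit 11))
    (@En.n l18178 (nat_lit 12436) (nat_lit 5) (nat_lit 11))
    (@En.n l13975 (nat_lit 12689) (nat_lit 11) (nat_lit 12))
    (@En.i (nat_lit 20) (nat_lit 4) (nat_lit 5))
    (@En.n l18179 (nat_lit 11876) (nat_lit 13) (nat_lit 9))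
    (@En.n l117 (nat_lit 11811) (nat_lit 14) (nat_lit 4))
    (@En.n l13965 (nat_lit 11202) (nat_lit 0) (nat_lit 9))
    (@En.n l18180 (nat_lit 12675) (nat_lit 15) (nat_lit 3))))
  (@Cl.mk (nat_lit 0x3000a00040009000c000a000a00060004000a000700060006000d000c0006) (nat_lit 0x603333007000210) (nat_lit 16) Lb.e (@T16.mk En
    (@En.n l27486 (nat_lit 10788) (nat_lit 0) (nat_lit 6))
    (@En.n l27487 (nat_lit 5861) (nat_lit 4) (nat_lit 12))
    (@En.n l27488 (nat_lit 12345) (nat_lit 2) (nat_lit 13))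
    (@En.n l27489 (nat_lit 12691) (nat_lit 10) (nat_lit 6))
    (@En.n l19405 (nat_lit 11849) (nat_lit 4) (nat_lit 6))
    (@En.n l27490 (nat_lit 12688) (nat_lit 5) (nat_lit 7))
    (@En.n l27491 (nat_lit 10857) (nat_lit 7) (nat_lit 10))
    (@En.n l19405 (nat_lit 12692) (nat_lit 7) (nat_lit 4))
    (@En.n l61 (nat_lit 41) (nat_lit 0) (nat_lit 6))
    (@En.n l27492 (nat_lit 12693) (nat_lit 6) (nat_lit 10))
    (@En.n l27493 (nat_lit 11835) (nat_lit 11) (nat_lit 10))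
    (@En.n l27494 (nat_lit 12398) (nat_lit 6) (nat_lit 12))
    (@En.n l27495 (nat_lit 11874) (nat_lit 13) (nat_lit 9))
    (@En.n l27496 (nat_lit 12722) (nat_lit 14) (nat_lit 4))
    (@En.n l3057 (nat_lit 11209) (nat_lit 0) (nat_lit 10))
    (@En.n l19409 (nat_lit 12690) (nat_lit 1) (nat_lit 3))))
  (@Cl.mk (nat_lit 0x30009000c000a000a00060004000b000700060006000d0005000d0003000a) (nat_lit 0x433300500020706) (nat_lit 16) Lb.e (@T16.mk En
    (@En.n l18150 (nat_lit 9324) (nat_lit 0) (nat_lit 10))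
    (@En.n l11547 (nat_lit 12689) (nat_lit 15) (nat_lit 3))
    (@En.n l2711 (nat_lit 4154) (nat_lit 0) (nat_lit 13))
    (@En.n l18151 (nat_lit 11302) (nat_lit 3) (nat_lit 5))
    (@En.n l18152 (nat_lit 11123) (nat_lit 2) (nat_lit 13))
    (@En.n l3518 (nat_lit 12706) (nat_lit 10) (nat_lit 6))
    (@En.n l18153 (nat_lit 11847) (nat_lit 4) (nat_lit 6))
    (@En.n l18154 (nat_lit 12675) (nat_lit 5) (nat_lit 7))
    (@En.n l18155 (nat_lit 10850) (nat_lit 9) (nat_lit 11))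
    (@En.n l18153 (nat_lit 12712) (nat_lit 9) (nat_lit 4))
    (@En.n l18156 (nat_lit 10764) (nat_lit 8) (nat_lit 6))
    (@En.n l18157 (nat_lit 12669) (nat_lit 6) (nat_lit 10))
    (@En.n l18158 (nat_lit 11834) (nat_lit 13) (nat_lit 10))
    (@En.n l18159 (nat_lit 12494) (nat_lit 6) (nat_lit 12))
    (@En.n l18160 (nat_lit 11877) (nat_lit 13) (nat_lit 9))
    (@En.n l18161 (nat_lit 5861) (nat_lit 15) (nat_lit 3))))
  (@Cl.mk (nat_lit 0x200070005000b00080006000d000c00050003000900040008000b000e000a) (nat_lit 0x7601200503244) (nat_lit 16) Lb.e (@T16.mk En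
    (@En.n l29235 (nat_lit 12689) (nat_lit 10) (nat_lit 10))
    (@En.n l29236 (nat_lit 6467) (nat_lit 4) (nat_lit 14))
    (@En.n l4003 (nat_lit 12752) (nat_lit 2) (nat_lit 11))
    (@En.n l29237 (nat_lit 12269) (nat_lit 3) (nat_lit 8))
    (@En.n l29238 (nat_lit 12283) (nat_lit 4) (nat_lit 4))
    (@En.n l29239 (nat_lit 11207) (nat_lit 5) (nat_lit 9))
    (@En.n l7 (nat_lit 12706) (nat_lit 6) (nat_lit 3))
    (@En.n l29240 (nat_lit 11345) (nat_lit 7) (nat_lit 5))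
    (@En.n l29241 (nat_lit 12705) (nat_lit 9) (nat_lit 12))
    (@En.n l21312 (nat_lit 1032) (nat_lit 10) (nat_lit 13))
    (@En.i (nat_lit 10152) (nat_lit 3) (nat_lit 6))
    (@En.n l21454 (nat_lit 10535) (nat_lit 12) (nat_lit 8))
    (@En.n l29242 (nat_lit 10530) (nat_lit 13) (nat_lit 11))
    (@En.n l17 (nat_lit 10536) (nat_lit 14) (nat_lit 5))
    (@En.n l29243 (nat_lit 10763) (nat_lit 7) (nat_lit 7))
    (@En.n l67 (nat_lit 12691) (nat_lit 15) (nat_lit 2))))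
  (@Cl.mk (nat_lit 0x3000c00040009000c0004000b000b0004000a000700050005000d000c0006) (nat_lit 0x903304707000230) (nat_lit 16) Lb.e (@T16.mk En
    (@En.n l20162 (nat_lit 11644) (nat_lit 0) (nat_lit 6))
    (@En.n l55 (nat_lit 12711) (nat_lit 4) (nat_lit 12))
    (@En.n l17395 (nat_lit 10763) (nat_lit 2) (nat_lit 13))
    (@En.n l33355 (nat_lit 10536) (nat_lit 11) (nat_lit 5))
    (@En.i (nat_lit 9169) (nat_lit 4) (nat_lit 5))
    (@En.n l17392 (nat_lit 10537) (nat_lit 5) (nat_lit 7))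
    (@En.n l20447 (nat_lit 10531) (nat_lit 1) (nat_lit 10))
    (@En.n l33356 (nat_lit 10769) (nat_lit 7) (nat_lit 4))
    (@En.n l40632 (nat_lit 12713) (nat_lit 5) (nat_lit 11))
    (@En.n l6269 (nat_lit 10765) (nat_lit 10) (nat_lit 11))
    (@En.n l25923 (nat_lit 9985) (nat_lit 10) (nat_lit 4))
    (@En.n l217 (nat_lit 12397) (nat_lit 6) (nat_lit 12))
    (@En.n l8745 (nat_lit 12447) (nat_lit 1) (nat_lit 9))
    (@En.n l22432 (nat_lit 12194) (nat_lit 14) (nat_lit 4))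
    (@En.n l40633 (nat_lit 5472) (nat_lit 0) (nat_lit 12))
    (@En.n l11 (nat_lit 12712) (nat_lit 1) (nat_lit 3))))
  (@Cl.mk (nat_lit 0x2000d000c00070003000b0004000a000d000a0005000300090006000e0006) (nat_lit 0x440050492006080) (nat_lit 16) Lb.e (@T16.mk En
    (@En.n l27729 (nat_lit 12689) (nat_lit 4) (nat_lit 6))
    (@En.n l4549 (nat_lit 8093) (nat_lit 1) (nat_lit 14))
    (@En.n l28 (nat_lit 12673) (nat_lit 2) (nat_lit 6))
    (@En.n l27730 (nat_lit 9781) (nat_lit 3) (nat_lit 9))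
    (@En.n l50 (nat_lit 12713) (nat_lit 4) (nat_lit 3))
    (@En.n l2492 (nat_lit 10799) (nat_lit 0) (nat_lit 5))
    (@En.n l27731 (nat_lit 11831) (nat_lit 11) (nat_lit 10))
    (@En.n l2492 (nat_lit 12394) (nat_lit 8) (nat_lit 13))
    (@En.n l14629 (nat_lit 12321) (nat_lit 9) (nat_lit 10))
    (@En.n l117 (nat_lit 12720) (nat_lit 9) (nat_lit 4))
    (@En.n l27732 (nat_lit 9893) (nat_lit 11) (nat_lit 11))
    (@En.n l11979 (nat_lit 12669) (nat_lit 11) (nat_lit 3))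
    (@En.i (nat_lit 11646) (nat_lit 0) (nat_lit 7))
    (@En.n l17546 (nat_lit 12709) (nat_lit 14) (nat_lit 12))
    (@En.n l17914 (nat_lit 10688) (nat_lit 2) (nat_lit 13))
    (@En.n l17 (nat_lit 12693) (nat_lit 15) (nat_lit 2))))
  (@Cl.mk (nat_lit 0x30006000c0004000c000c0004000b00040004000c000a0005000d0004000c) (nat_lit 0x30470100a40309) (nat_lit 16) Lb.e (@T16.mk En
    (@En.n l1997 (nat_lit 5980) (nat_lit 0) (nat_lit 12))
    (@En.n l33358 (nat_lit 12681) (nat_lit 9) (nat_lit 4))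
    (@En.n l14823 (nat_lit 12678) (nat_lit 2) (nat_lit 13))
    (@En.n l26714 (nat_lit 12712) (nat_lit 3) (nat_lit 5))
    (@En.n l396 (nat_lit 12415) (nat_lit 4) (nat_lit 10))
    (@En.n l6211 (nat_lit 9675) (nat_lit 6) (nat_lit 12))
    (@En.n l6212 (nat_lit 12695) (nat_lit 12) (nat_lit 4))
    (@En.n l14823 (nat_lit 11822) (nat_lit 7) (nat_lit 4))
    (@En.i (nat_lit 5664) (nat_lit 0) (nat_lit 11))
    (@En.n l1997 (nat_lit 43) (nat_lit 1) (nat_lit 4))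
    (@En.n l28715 (nat_lit 12671) (nat_lit 4) (nat_lit 12))
    (@En.n l5372 (nat_lit 10770) (nat_lit 12) (nat_lit 12))
    (@En.n l28437 (nat_lit 9289) (nat_lit 4) (nat_lit 4))
    (@En.n l9413 (nat_lit 12449) (nat_lit 0) (nat_lit 12))
    (@En.n l644 (nat_lit 12116) (nat_lit 12) (nat_lit 6))
    (@En.i (nat_lit 12440) (nat_lit 15) (nat_lit 3))))
  (@Cl.mk (nat_lit 0x20005000c0004000c000a0004000d0004000c00030006000b0004000e000c) (nat_lit 0x10a30408008085) (nat_lit 16) Lb.e (@T16.mk En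
    (@En.n l2031 (nat_lit 12694) (nat_lit 11) (nat_lit 12))
    (@En.n l2031 (nat_lit 12698) (nat_lit 1) (nat_lit 14))
    (@En.n l117 (nat_lit 12737) (nat_lit 2) (nat_lit 4))
    (@En.n l3337 (nat_lit 12748) (nat_lit 3) (nat_lit 11))
    (@En.n l14615 (nat_lit 12742) (nat_lit 4) (nat_lit 6))
    (@En.n l2604 (nat_lit 12697) (nat_lit 5) (nat_lit 3))
    (@En.i (nat_lit 5983) (nat_lit 0) (nat_lit 12))
    (@En.n l5646 (nat_lit 12683) (nat_lit 7) (nat_lit 4))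
    (@En.n l3325 (nat_lit 12696) (nat_lit 9) (nat_lit 13))
    (@En.n l3348 (nat_lit 12699) (nat_lit 9) (nat_lit 4))
    (@En.n l610 (nat_lit 12594) (nat_lit 11) (nat_lit 10))
    (@En.n l3337 (nat_lit 1038) (nat_lit 12) (nat_lit 12))
    (@En.n l3348 (nat_lit 11823) (nat_lit 13) (nat_lit 4))
    (@En.n l2031 (nat_lit 6170) (nat_lit 14) (nat_lit 12))
    (@En.i (nat_lit 12661) (nat_lit 13) (nat_lit 5))
    (@En.n l7 (nat_lit 12695) (nat_lit 15) (nat_lit 2))))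
  (@Cl.mk (nat_lit 0x2000500080004000d000a000d0003000b000300080006000b0005000e000c) (nat_lit 0x10223070403046) (nat_lit 16) Lb.e (@T16.mk En
    (@En.n l21452 (nat_lit 12678) (nat_lit 10) (nat_lit 12))
    (@En.n l21313 (nat_lit 12701) (nat_lit 1) (nat_lit 14))
    (@En.n l21453 (nat_lit 12736) (nat_lit 2) (nat_lit 5))
    (@En.n l936 (nat_lit 12699) (nat_lit 3) (nat_lit 11))
    (@En.n l3082 (nat_lit 12695) (nat_lit 4) (nat_lit 6))
    (@En.n l10023 (nat_lit 12597) (nat_lit 5) (nat_lit 8))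
    (@En.n l6573 (nat_lit 12700) (nat_lit 6) (nat_lit 3))
    (@En.n l1101 (nat_lit 5981) (nat_lit 8) (nat_lit 11))
    (@En.n l21454 (nat_lit 10534) (nat_lit 8) (nat_lit 3))
    (@En.n l1096 (nat_lit 5380) (nat_lit 10) (nat_lit 13))
    (@En.n l3571 (nat_lit 12595) (nat_lit 11) (nat_lit 10))
    (@En.n l645 (nat_lit 1040) (nat_lit 12) (nat_lit 13))
    (@En.n l936 (nat_lit 12402) (nat_lit 13) (nat_lit 4))
    (@En.n l21455 (nat_lit 6263) (nat_lit 10) (nat_lit 8))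
    (@En.i (nat_lit 12323) (nat_lit 13) (nat_lit 5))
    (@En.n l67 (nat_lit 12696) (nat_lit 15) (nat_lit 2))))
  (@Cl.mk (nat_lit 0x20005000c0004000b000a0004000d000b000500030006000b0005000e000c) (nat_lit 0x8013042000908a) (nat_lit 16) Lb.e (@T16.mk En
    (@En.n l27775 (nat_lit 12440) (nat_lit 11) (nat_lit 12))
    (@En.n l30871 (nat_lit 12703) (nat_lit 1) (nat_lit 14))
    (@En.n l776 (nat_lit 9732) (nat_lit 2) (nat_lit 5))
    (@En.n l5389 (nat_lit 9219) (nat_lit 3) (nat_lit 11))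
    (@En.n l1897 (nat_lit 12258) (nat_lit 4) (nat_lit 6))
    (@En.n l830 (nat_lit 12695) (nat_lit 5) (nat_lit 3))
    (@En.n l21943 (nat_lit 5671) (nat_lit 6) (nat_lit 5))
    (@En.n l30872 (nat_lit 12460) (nat_lit 8) (nat_lit 11))
    (@En.n l28100 (nat_lit 12700) (nat_lit 9) (nat_lit 13))
    (@En.n l30873 (nat_lit 12704) (nat_lit 9) (nat_lit 4))
    (@En.n l30874 (nat_lit 12580) (nat_lit 11) (nat_lit 10))
    (@En.n l5389 (nat_lit 6208) (nat_lit 12) (nat_lit 11))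
    (@En.i (nat_lit 12432) (nat_lit 13) (nat_lit 4))
    (@En.n l5 (nat_lit 5657) (nat_lit 14) (nat_lit 12))
    (@En.n l30875 (nat_lit 12663) (nat_lit 13) (nat_lit 5))
    (@En.n l28 (nat_lit 12697) (nat_lit 15) (nat_lit 2))))
  (@Cl.mk (nat_lit 0x200070005000c0005000c000a0004000d0004000900030006000b000e000b) (nat_lit 0x20a3060600474) (nat_lit 16) Lb.e (@T16.mk En
    (@En.n l19865 (nat_lit 12687) (nat_lit 12) (nat_lit 11))
    (@En.n l3030 (nat_lit 12518) (nat_lit 4) (nat_lit 14))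
    (@En.n l3338 (nat_lit 12749) (nat_lit 2) (nat_lit 11))
    (@En.n l644 (nat_lit 12746) (nat_lit 12) (nat_lit 6))
    (@En.n l19866 (nat_lit 12703) (nat_lit 4) (nat_lit 3))
    (@En.n l5366 (nat_lit 9322) (nat_lit 0) (nat_lit 9))
    (@En.n l21318 (nat_lit 12682) (nat_lit 6) (nat_lit 4))
    (@En.n l9224 (nat_lit 12701) (nat_lit 8) (nat_lit 13))
    (@En.n l13626 (nat_lit 12706) (nat_lit 8) (nat_lit 4))
    (@En.n l564 (nat_lit 12577) (nat_lit 10) (nat_lit 10))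
    (@En.n l3338 (nat_lit 1048) (nat_lit 11) (nat_lit 12))
    (@En.n l13626 (nat_lit 11825) (nat_lit 6) (nat_lit 5))
    (@En.i (nat_lit 11213) (nat_lit 13) (nat_lit 12))
    (@En.n l20997 (nat_lit 12695) (nat_lit 14) (nat_lit 5))
    (@En.n l1997 (nat_lit 9675) (nat_lit 10) (nat_lit 7))
    (@En.n l3 (nat_lit 12698) (nat_lit 15) (nat_lit 2))))
  (@Cl.mk (nat_lit 0x20005000c00080005000d0004000d0003000c00030008000b0004000e000b) (nat_lit 0x62010608042035) (nat_lit 16) Lb.e (@T16.mk En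
    (@En.n l22465 (nat_lit 12712) (nat_lit 11) (nat_lit 11))
    (@En.i (nat_lit 12706) (nat_lit 1) (nat_lit 14))
    (@En.i (nat_lit 9990) (nat_lit 2) (nat_lit 4))
    (@En.n l11605 (nat_lit 9221) (nat_lit 3) (nat_lit 11))
    (@En.n l638 (nat_lit 12355) (nat_lit 4) (nat_lit 8))
    (@En.i (nat_lit 12704) (nat_lit 5) (nat_lit 3))
    (@En.n l3082 (nat_lit 5977) (nat_lit 7) (nat_lit 12))
    (@En.i (nat_lit 10536) (nat_lit 7) (nat_lit 3))
    (@En.n l2005 (nat_lit 5379) (nat_lit 9) (nat_lit 13))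
    (@En.n l1236 (nat_lit 12794) (nat_lit 9) (nat_lit 4))
    (@En.n l645 (nat_lit 1035) (nat_lit 11) (nat_lit 13))
    (@En.i (nat_lit 4330) (nat_lit 12) (nat_lit 5))
    (@En.i (nat_lit 12696) (nat_lit 13) (nat_lit 8))
    (@En.n l3530 (nat_lit 8537) (nat_lit 14) (nat_lit 12))
    (@En.i (nat_lit 12637) (nat_lit 13) (nat_lit 5))
    (@En.n l67 (nat_lit 12699) (nat_lit 15) (nat_lit 2))))
  (@Cl.mk (nat_lit 0x2000500080004000c000a000d000a0004000300080006000b0006000e000c) (nat_lit 0x30833200509043) (nat_lit 16) Lb.e (@T16.mk En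
    (@En.n l4130 (nat_lit 12707) (nat_lit 10) (nat_lit 12))
    (@En.n l13274 (nat_lit 12702) (nat_lit 1) (nat_lit 14))
    (@En.n l23563 (nat_lit 9731) (nat_lit 2) (nat_lit 6))
    (@En.n l31220 (nat_lit 12704) (nat_lit 3) (nat_lit 11))
    (@En.n l33713 (nat_lit 12697) (nat_lit 4) (nat_lit 6))
    (@En.i (nat_lit 12079) (nat_lit 5) (nat_lit 8))
    (@En.n l33714 (nat_lit 12696) (nat_lit 6) (nat_lit 3))
    (@En.i (nat_lit 5675) (nat_lit 7) (nat_lit 4))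
    (@En.n l33715 (nat_lit 9186) (nat_lit 9) (nat_lit 10))
    (@En.n l23563 (nat_lit 5376) (nat_lit 10) (nat_lit 13))
    (@En.n l77 (nat_lit 12590) (nat_lit 11) (nat_lit 10))
    (@En.n l33716 (nat_lit 6209) (nat_lit 12) (nat_lit 12))
    (@En.n l31220 (nat_lit 12410) (nat_lit 13) (nat_lit 4))
    (@En.n l387 (nat_lit 6260) (nat_lit 10) (nat_lit 8))
    (@En.n l513 (nat_lit 12321) (nat_lit 13) (nat_lit 5))
    (@En.n l3 (nat_lit 12700) (nat_lit 15) (nat_lit 2))))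
  (@Cl.mk (nat_lit 0x20008000500080005000d000a000d00030008000300080006000b000e000b) (nat_lit 0x502022505050335) (nat_lit 16) Lb.e (@T16.mk En
    (@En.n l1844 (nat_lit 12675) (nat_lit 9) (nat_lit 11))
    (@En.n l9046 (nat_lit 12516) (nat_lit 4) (nat_lit 14))
    (@En.n l9047 (nat_lit 12706) (nat_lit 2) (nat_lit 11))
    (@En.n l3166 (nat_lit 12698) (nat_lit 3) (nat_lit 6))
    (@En.n l9048 (nat_lit 12598) (nat_lit 4) (nat_lit 8))
    (@En.n l28 (nat_lit 12702) (nat_lit 5) (nat_lit 3))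
    (@En.n l9049 (nat_lit 9323) (nat_lit 0) (nat_lit 8))
    (@En.n l9050 (nat_lit 10535) (nat_lit 7) (nat_lit 3))
    (@En.i (nat_lit 4165) (nat_lit 0) (nat_lit 13))
    (@En.n l9051 (nat_lit 12579) (nat_lit 10) (nat_lit 10))
    (@En.n l9052 (nat_lit 1046) (nat_lit 11) (nat_lit 13))
    (@En.n l9047 (nat_lit 12413) (nat_lit 3) (nat_lit 5))
    (@En.i (nat_lit 12805) (nat_lit 13) (nat_lit 8))
    (@En.n l9053 (nat_lit 12696) (nat_lit 14) (nat_lit 5))
    (@En.n l9054 (nat_lit 9677) (nat_lit 6) (nat_lit 8))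
    (@En.n l3 (nat_lit 12701) (nat_lit 15) (nat_lit 2))))
  (@Cl.mk (nat_lit 0x20009000500080005000c000a000d00070004000300080006000b000e000b) (nat_lit 0x602013600050939) (nat_lit 16) Lb.e (@T16.mk En
    (@En.n l21372 (nat_lit 12708) (nat_lit 11) (nat_lit 11))
    (@En.n l242 (nat_lit 12519) (nat_lit 4) (nat_lit 14))
    (@En.n l21373 (nat_lit 12705) (nat_lit 2) (nat_lit 11))
    (@En.n l21374 (nat_lit 12703) (nat_lit 3) (nat_lit 6))
    (@En.n l18621 (nat_lit 12080) (nat_lit 4) (nat_lit 8))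
    (@En.n l237 (nat_lit 12701) (nat_lit 5) (nat_lit 3))
    (@En.n l238 (nat_lit 12281) (nat_lit 0) (nat_lit 4))
    (@En.n l55 (nat_lit 11577) (nat_lit 7) (nat_lit 7))
    (@En.i (nat_lit 3674) (nat_lit 9) (nat_lit 13))
    (@En.n l415 (nat_lit 12578) (nat_lit 10) (nat_lit 10))
    (@En.n l8513 (nat_lit 6210) (nat_lit 11) (nat_lit 12))
    (@En.n l21375 (nat_lit 12434) (nat_lit 12) (nat_lit 5))
    (@En.i (nat_lit 12806) (nat_lit 13) (nat_lit 8))
    (@En.n l20143 (nat_lit 12700) (nat_lit 14) (nat_lit 5))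
    (@En.n l21376 (nat_lit 11782) (nat_lit 0) (nat_lit 9))
    (@En.n l3 (nat_lit 12702) (nat_lit 15) (nat_lit 2))))
  (@Cl.mk (nat_lit 0x200080005000c0005000b000a0004000d0008000500030006000b000e000b) (nat_lit 0x508083075000972) (nat_lit 16) Lb.e (@T16.mk En
    (@En.n l21896 (nat_lit 12441) (nat_lit 12) (nat_lit 11))
    (@En.n l8174 (nat_lit 12520) (nat_lit 4) (nat_lit 14))
    (@En.n l617 (nat_lit 12750) (nat_lit 2) (nat_lit 11))
    (@En.n l29453 (nat_lit 12259) (nat_lit 3) (nat_lit 6))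
    (@En.n l19978 (nat_lit 12698) (nat_lit 4) (nat_lit 3))
    (@En.n l19979 (nat_lit 5623) (nat_lit 0) (nat_lit 5))
    (@En.n l25183 (nat_lit 11039) (nat_lit 6) (nat_lit 8))
    (@En.n l11045 (nat_lit 12702) (nat_lit 8) (nat_lit 13))
    (@En.n l23694 (nat_lit 12705) (nat_lit 8) (nat_lit 4))
    (@En.n l8175 (nat_lit 12574) (nat_lit 10) (nat_lit 10))
    (@En.n l117 (nat_lit 6206) (nat_lit 11) (nat_lit 11))
    (@En.n l25194 (nat_lit 12430) (nat_lit 6) (nat_lit 5))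
    (@En.n l8175 (nat_lit 11211) (nat_lit 13) (nat_lit 12))
    (@En.n l29454 (nat_lit 12697) (nat_lit 14) (nat_lit 5))
    (@En.n l14605 (nat_lit 11781) (nat_lit 10) (nat_lit 8))
    (@En.n l28 (nat_lit 12703) (nat_lit 15) (nat_lit 2))))
noncomputable def a794 : T16 Cl := @T16.mk Cl
  (@Cl.mk (nat_lit 0x20005000c00080005000c0004000d000b000400030008000b0005000e000b) (nat_lit 0x540106200480c9) (nat_lit 16) Lb.e (@T16.mk En
    (@En.n l22465 (nat_lit 12711) (nat_lit 11) (nat_lit 11))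
    (@En.n l10269 (nat_lit 12705) (nat_lit 1) (nat_lit 14))
    (@En.n l8638 (nat_lit 9736) (nat_lit 2) (nat_lit 5))
    (@En.n l831 (nat_lit 9217) (nat_lit 3) (nat_lit 11))
    (@En.n l1068 (nat_lit 12081) (nat_lit 4) (nat_lit 8))
    (@En.n l50 (nat_lit 12699) (nat_lit 5) (nat_lit 3))
    (@En.n l6574 (nat_lit 5679) (nat_lit 6) (nat_lit 4))
    (@En.n l217 (nat_lit 9185) (nat_lit 8) (nat_lit 11))
    (@En.n l8604 (nat_lit 3675) (nat_lit 9) (nat_lit 13))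
    (@En.n l1236 (nat_lit 12792) (nat_lit 9) (nat_lit 4))
    (@En.n l645 (nat_lit 6207) (nat_lit 11) (nat_lit 12))
    (@En.i (nat_lit 10150) (nat_lit 12) (nat_lit 5))
    (@En.n l6573 (nat_lit 12700) (nat_lit 13) (nat_lit 8))
    (@En.n l37889 (nat_lit 8538) (nat_lit 14) (nat_lit 12))
    (@En.i (nat_lit 12635) (nat_lit 13) (nat_lit 5))
    (@En.n l67 (nat_lit 12704) (nat_lit 15) (nat_lit 2))))
  (@Cl.mk (nat_lit 0x200080005000c00080006000c0004000d0008000400030008000b000e000a) (nat_lit 0x5083010740048b1) (nat_lit 16) Lb.e (@T16.mk En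
    (@En.n l37168 (nat_lit 5861) (nat_lit 12) (nat_lit 10))
    (@En.i (nat_lit 6465) (nat_lit 4) (nat_lit 14))
    (@En.n l18543 (nat_lit 9220) (nat_lit 2) (nat_lit 11))
    (@En.n l25936 (nat_lit 12082) (nat_lit 3) (nat_lit 8))
    (@En.n l37169 (nat_lit 12706) (nat_lit 4) (nat_lit 3))
    (@En.i (nat_lit 12282) (nat_lit 0) (nat_lit 4))
    (@En.n l2436 (nat_lit 11575) (nat_lit 6) (nat_lit 8))
    (@En.n l37170 (nat_lit 3671) (nat_lit 8) (nat_lit 13))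
    (@En.n l11987 (nat_lit 12793) (nat_lit 8) (nat_lit 4))
    (@En.n l23491 (nat_lit 6205) (nat_lit 10) (nat_lit 12))
    (@En.n l37171 (nat_lit 10148) (nat_lit 11) (nat_lit 6))
    (@En.n l37172 (nat_lit 12702) (nat_lit 12) (nat_lit 8))
    (@En.n l37173 (nat_lit 10853) (nat_lit 13) (nat_lit 12))
    (@En.n l37174 (nat_lit 12704) (nat_lit 14) (nat_lit 5))
    (@En.n l37171 (nat_lit 11783) (nat_lit 10) (nat_lit 8))
    (@En.n l17 (nat_lit 12705) (nat_lit 15) (nat_lit 2))))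
  (@Cl.mk (nat_lit 0x200070005000c00080006000d0004000d0003000900030008000b000e000a) (nat_lit 0x6301070504224) (nat_lit 16) Lb.e (@T16.mk En
    (@En.n l21308 (nat_lit 12690) (nat_lit 12) (nat_lit 10))
    (@En.n l21309 (nat_lit 6466) (nat_lit 4) (nat_lit 14))
    (@En.n l637 (nat_lit 12751) (nat_lit 2) (nat_lit 11))
    (@En.n l638 (nat_lit 12273) (nat_lit 3) (nat_lit 8))
    (@En.n l10269 (nat_lit 12705) (nat_lit 4) (nat_lit 3))
    (@En.n l21310 (nat_lit 9321) (nat_lit 0) (nat_lit 9))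
    (@En.i (nat_lit 12691) (nat_lit 6) (nat_lit 3))
    (@En.n l2005 (nat_lit 3669) (nat_lit 0) (nat_lit 13))
    (@En.n l21311 (nat_lit 12795) (nat_lit 8) (nat_lit 4))
    (@En.n l21312 (nat_lit 1047) (nat_lit 10) (nat_lit 13))
    (@En.i (nat_lit 10151) (nat_lit 3) (nat_lit 6))
    (@En.n l21313 (nat_lit 12701) (nat_lit 12) (nat_lit 8))
    (@En.n l12305 (nat_lit 10854) (nat_lit 13) (nat_lit 12))
    (@En.n l17 (nat_lit 12699) (nat_lit 14) (nat_lit 5))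
    (@En.i (nat_lit 9676) (nat_lit 7) (nat_lit 7))
    (@En.n l67 (nat_lit 12706) (nat_lit 15) (nat_lit 2))))
  (@Cl.mk (nat_lit 0x300090006000c0006000c000c0004000700040004000c000a000d000a0004) (nat_lit 0x508028000094270) (nat_lit 16) Lb.e (@T16.mk En
    (@En.n l1865 (nat_lit 5678) (nat_lit 0) (nat_lit 4))
    (@En.i (nat_lit 9057) (nat_lit 0) (nat_lit 10))
    (@En.n l5390 (nat_lit 5137) (nat_lit 5) (nat_lit 13))
    (@En.i (nat_lit 12585) (nat_lit 3) (nat_lit 10))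
    (@En.i (nat_lit 9673) (nat_lit 12) (nat_lit 12))
    (@En.n l3519 (nat_lit 12700) (nat_lit 12) (nat_lit 4))
    (@En.n l16761 (nat_lit 12409) (nat_lit 6) (nat_lit 4))
    (@En.i (nat_lit 6258) (nat_lit 11) (nat_lit 7))
    (@En.i (nat_lit 12438) (nat_lit 1) (nat_lit 4))
    (@En.n l61 (nat_lit 12676) (nat_lit 4) (nat_lit 12))
    (@En.n l5390 (nat_lit 10774) (nat_lit 1) (nat_lit 12))
    (@En.i (nat_lit 9729) (nat_lit 4) (nat_lit 6))
    (@En.n l33359 (nat_lit 12711) (nat_lit 13) (nat_lit 12))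
    (@En.n l27550 (nat_lit 12440) (nat_lit 14) (nat_lit 6))
    (@En.n l3517 (nat_lit 11177) (nat_lit 5) (nat_lit 9))
    (@En.n l17701 (nat_lit 12678) (nat_lit 15) (nat_lit 3))))
  (@Cl.mk (nat_lit 0x300090006000c000b000b00080004000700050005000c000a000d00080004) (nat_lit 0x30a842000043750) (nat_lit 16) Lb.e (@T16.mk En
    (@En.n l18168 (nat_lit 12724) (nat_lit 0) (nat_lit 4))
    (@En.n l18169 (nat_lit 11582) (nat_lit 0) (nat_lit 8))
    (@En.n l18170 (nat_lit 4157) (nat_lit 5) (nat_lit 13))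
    (@En.n l18171 (nat_lit 11807) (nat_lit 3) (nat_lit 10))
    (@En.n l18172 (nat_lit 11118) (nat_lit 12) (nat_lit 12))
    (@En.n l18173 (nat_lit 12702) (nat_lit 11) (nat_lit 5))
    (@En.n l18174 (nat_lit 11852) (nat_lit 6) (nat_lit 5))
    (@En.n l18170 (nat_lit 12802) (nat_lit 11) (nat_lit 7))
    (@En.n l77 (nat_lit 12707) (nat_lit 8) (nat_lit 4))
    (@En.n l18174 (nat_lit 11837) (nat_lit 0) (nat_lit 8))
    (@En.n l5653 (nat_lit 12674) (nat_lit 5) (nat_lit 11))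
    (@En.n l18175 (nat_lit 10689) (nat_lit 5) (nat_lit 11))
    (@En.n l18176 (nat_lit 5861) (nat_lit 13) (nat_lit 12))
    (@En.n l18177 (nat_lit 12441) (nat_lit 14) (nat_lit 6))
    (@En.n l3517 (nat_lit 11088) (nat_lit 5) (nat_lit 9))
    (@En.n l18178 (nat_lit 12675) (nat_lit 13) (nat_lit 3))))
  (@Cl.mk (nat_lit 0x2000c0006000d000a00040003000a000d000a00060003000a0006000e0006) (nat_lit 0x309600498003030) (nat_lit 16) Lb.e (@T16.mk En
    (@En.n l33438 (nat_lit 5861) (nat_lit 6) (nat_lit 6))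
    (@En.n l3761 (nat_lit 8094) (nat_lit 1) (nat_lit 14))
    (@En.n l17896 (nat_lit 12674) (nat_lit 2) (nat_lit 6))
    (@En.n l33439 (nat_lit 9777) (nat_lit 3) (nat_lit 10))
    (@En.n l33440 (nat_lit 12710) (nat_lit 4) (nat_lit 3))
    (@En.i (nat_lit 5154) (nat_lit 0) (nat_lit 6))
    (@En.n l33441 (nat_lit 11829) (nat_lit 13) (nat_lit 10))
    (@En.i (nat_lit 12493) (nat_lit 8) (nat_lit 13))
    (@En.n l250 (nat_lit 11175) (nat_lit 9) (nat_lit 10))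
    (@En.n l33442 (nat_lit 12669) (nat_lit 9) (nat_lit 3))
    (@En.i (nat_lit 12721) (nat_lit 0) (nat_lit 4))
    (@En.n l217 (nat_lit 9052) (nat_lit 12) (nat_lit 10))
    (@En.n l11453 (nat_lit 4147) (nat_lit 13) (nat_lit 13))
    (@En.n l33443 (nat_lit 11297) (nat_lit 14) (nat_lit 6))
    (@En.n l13928 (nat_lit 8772) (nat_lit 10) (nat_lit 12))
    (@En.n l11 (nat_lit 12709) (nat_lit 15) (nat_lit 2))))
  (@Cl.mk (nat_lit 0x2000c0006000d000b00040003000a000d0005000b0003000a0006000e0005) (nat_lit 0x601200480802050) (nat_lit 16) Lb.e (@T16.mk En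
    (@En.n l33359 (nat_lit 12711) (nat_lit 6) (nat_lit 5))
    (@En.n l15323 (nat_lit 8091) (nat_lit 1) (nat_lit 14))
    (@En.n l28 (nat_lit 12676) (nat_lit 2) (nat_lit 6))
    (@En.n l17700 (nat_lit 12715) (nat_lit 3) (nat_lit 10))
    (@En.n l17546 (nat_lit 12709) (nat_lit 4) (nat_lit 3))
    (@En.n l36126 (nat_lit 12575) (nat_lit 0) (nat_lit 11))
    (@En.n l17700 (nat_lit 8589) (nat_lit 6) (nat_lit 5))
    (@En.n l26234 (nat_lit 12487) (nat_lit 8) (nat_lit 13))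
    (@En.n l15323 (nat_lit 11174) (nat_lit 9) (nat_lit 10))
    (@En.n l3135 (nat_lit 12672) (nat_lit 9) (nat_lit 3))
    (@En.n l36126 (nat_lit 5956) (nat_lit 0) (nat_lit 4))
    (@En.n l15323 (nat_lit 9062) (nat_lit 12) (nat_lit 11))
    (@En.n l14823 (nat_lit 4152) (nat_lit 13) (nat_lit 13))
    (@En.i (nat_lit 11296) (nat_lit 14) (nat_lit 6))
    (@En.n l26235 (nat_lit 8792) (nat_lit 10) (nat_lit 12))
    (@En.n l17 (nat_lit 12710) (nat_lit 15) (nat_lit 2))))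
  (@Cl.mk (nat_lit 0x30009000c0005000b000b0004000b000700050005000c0005000d000b0004) (nat_lit 0x470890400020180) (nat_lit 16) Lb.e (@T16.mk En
    (@En.n l13472 (nat_lit 12193) (nat_lit 0) (nat_lit 4))
    (@En.n l77 (nat_lit 9055) (nat_lit 0) (nat_lit 11))
    (@En.n l13638 (nat_lit 5139) (nat_lit 1) (nat_lit 13))
    (@En.n l7162 (nat_lit 11298) (nat_lit 3) (nat_lit 5))
    (@En.n l18910 (nat_lit 9672) (nat_lit 5) (nat_lit 12))
    (@En.n l33355 (nat_lit 12704) (nat_lit 11) (nat_lit 5))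
    (@En.i (nat_lit 9171) (nat_lit 6) (nat_lit 5))
    (@En.n l26244 (nat_lit 12707) (nat_lit 7) (nat_lit 7))
    (@En.n l10108 (nat_lit 8544) (nat_lit 9) (nat_lit 11))
    (@En.n l33356 (nat_lit 12596) (nat_lit 9) (nat_lit 4))
    (@En.n l26247 (nat_lit 12710) (nat_lit 5) (nat_lit 11))
    (@En.n l50 (nat_lit 10773) (nat_lit 1) (nat_lit 11))
    (@En.n l10108 (nat_lit 9735) (nat_lit 13) (nat_lit 5))
    (@En.n l217 (nat_lit 9214) (nat_lit 6) (nat_lit 12))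
    (@En.n l20856 (nat_lit 11178) (nat_lit 14) (nat_lit 9))
    (@En.n l28 (nat_lit 12712) (nat_lit 15) (nat_lit 3))))
  (@Cl.mk (nat_lit 0x30009000c0004000b000b0004000b000700050005000d0005000d0003000c) (nat_lit 0x330470100020209) (nat_lit 16) Lb.e (@T16.mk En
    (@En.i (nat_lit 5976) (nat_lit 0) (nat_lit 12))
    (@En.i (nat_lit 12692) (nat_lit 15) (nat_lit 3))
    (@En.i (nat_lit 5140) (nat_lit 0) (nat_lit 13))
    (@En.n l7162 (nat_lit 11301) (nat_lit 3) (nat_lit 5))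
    (@En.n l18910 (nat_lit 9676) (nat_lit 2) (nat_lit 13))
    (@En.n l33355 (nat_lit 12699) (nat_lit 11) (nat_lit 5))
    (@En.i (nat_lit 9170) (nat_lit 4) (nat_lit 5))
    (@En.n l8770 (nat_lit 12678) (nat_lit 7) (nat_lit 7))
    (@En.n l13633 (nat_lit 8545) (nat_lit 9) (nat_lit 11))
    (@En.n l33356 (nat_lit 10771) (nat_lit 9) (nat_lit 4))
    (@En.n l5649 (nat_lit 12672) (nat_lit 5) (nat_lit 11))
    (@En.n l50 (nat_lit 10766) (nat_lit 10) (nat_lit 11))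
    (@En.n l33357 (nat_lit 9986) (nat_lit 10) (nat_lit 4))
    (@En.n l217 (nat_lit 12484) (nat_lit 6) (nat_lit 12))
    (@En.n l8770 (nat_lit 12453) (nat_lit 1) (nat_lit 9))
    (@En.i (nat_lit 12711) (nat_lit 15) (nat_lit 3))))
  (@Cl.mk (nat_lit 0x2000d000c00070003000c0004000a000d0004000b000300090006000e0005) (nat_lit 0x470010480606050) (nat_lit 16) Lb.e (@T16.mk En
    (@En.n l24098 (nat_lit 12692) (nat_lit 4) (nat_lit 5))
    (@En.n l4549 (nat_lit 8090) (nat_lit 1) (nat_lit 14))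
    (@En.n l28 (nat_lit 12677) (nat_lit 2) (nat_lit 6))
    (@En.i (nat_lit 12719) (nat_lit 3) (nat_lit 9))
    (@En.i (nat_lit 12693) (nat_lit 4) (nat_lit 3))
    (@En.n l2865 (nat_lit 12577) (nat_lit 0) (nat_lit 11))
    (@En.n l8434 (nat_lit 9987) (nat_lit 6) (nat_lit 4))
    (@En.n l33342 (nat_lit 12395) (nat_lit 8) (nat_lit 13))
    (@En.n l36973 (nat_lit 12323) (nat_lit 9) (nat_lit 10))
    (@En.n l117 (nat_lit 12197) (nat_lit 9) (nat_lit 4))
    (@En.n l27732 (nat_lit 5478) (nat_lit 11) (nat_lit 12))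
    (@En.n l11979 (nat_lit 12672) (nat_lit 11) (nat_lit 3))
    (@En.i (nat_lit 11645) (nat_lit 0) (nat_lit 7))
    (@En.i (nat_lit 12710) (nat_lit 14) (nat_lit 12))
    (@En.n l14299 (nat_lit 10649) (nat_lit 2) (nat_lit 13))
    (@En.n l17 (nat_lit 12713) (nat_lit 15) (nat_lit 2))))
  (@Cl.mk (nat_lit 0x2000b000a0006000d000b000500030006000d0005000c0003000a000e0004) (nat_lit 0x85032000a090140) (nat_lit 16) Lb.e (@T16.mk En
    (@En.n l31630 (nat_lit 12440) (nat_lit 7) (nat_lit 4))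
    (@En.n l27794 (nat_lit 3340) (nat_lit 1) (nat_lit 14))
    (@En.n l1769 (nat_lit 5661) (nat_lit 2) (nat_lit 10))
    (@En.i (nat_lit 12679) (nat_lit 3) (nat_lit 3))
    (@En.n l5839 (nat_lit 12592) (nat_lit 0) (nat_lit 12))
    (@En.n l19975 (nat_lit 9284) (nat_lit 5) (nat_lit 5))
    (@En.n l15323 (nat_lit 12490) (nat_lit 7) (nat_lit 13))
    (@En.n l25551 (nat_lit 12252) (nat_lit 7) (nat_lit 6))
    (@En.n l27797 (nat_lit 12671) (nat_lit 8) (nat_lit 3))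
    (@En.n l13792 (nat_lit 5955) (nat_lit 0) (nat_lit 5))
    (@En.n l8369 (nat_lit 9285) (nat_lit 11) (nat_lit 11))
    (@En.i (nat_lit 12676) (nat_lit 12) (nat_lit 13))
    (@En.n l5386 (nat_lit 12710) (nat_lit 13) (nat_lit 6))
    (@En.n l575 (nat_lit 12044) (nat_lit 14) (nat_lit 10))
    (@En.n l29941 (nat_lit 9685) (nat_lit 11) (nat_lit 11))
    (@En.n l17 (nat_lit 12714) (nat_lit 15) (nat_lit 2))))
  (@Cl.mk (nat_lit 0x2000b0006000a000d000b00050003000b00060005000c000a0005000e0004) (nat_lit 0x405a200600a10c0) (nat_lit 16) Lb.e (@T16.mk En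
    (@En.n l7 (nat_lit 8544) (nat_lit 7) (nat_lit 4))
    (@En.n l30302 (nat_lit 6995) (nat_lit 1) (nat_lit 14))
    (@En.n l22147 (nat_lit 6255) (nat_lit 2) (nat_lit 5))
    (@En.i (nat_lit 8650) (nat_lit 3) (nat_lit 10))
    (@En.n l37893 (nat_lit 11786) (nat_lit 5) (nat_lit 12))
    (@En.i (nat_lit 8583) (nat_lit 5) (nat_lit 5))
    (@En.n l1420 (nat_lit 12717) (nat_lit 6) (nat_lit 6))
    (@En.n l33426 (nat_lit 11172) (nat_lit 8) (nat_lit 11))
    (@En.n l3536 (nat_lit 12716) (nat_lit 8) (nat_lit 3))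
    (@En.n l8884 (nat_lit 12202) (nat_lit 0) (nat_lit 5))
    (@En.n l68 (nat_lit 8585) (nat_lit 11) (nat_lit 11))
    (@En.n l3866 (nat_lit 8081) (nat_lit 5) (nat_lit 13))
    (@En.n l9163 (nat_lit 12676) (nat_lit 13) (nat_lit 10))
    (@En.n l18589 (nat_lit 7046) (nat_lit 14) (nat_lit 6))
    (@En.n l830 (nat_lit 9571) (nat_lit 14) (nat_lit 11))
    (@En.n l50 (nat_lit 12715) (nat_lit 15) (nat_lit 2))))
  (@Cl.mk (nat_lit 0x2000c0006000a000d0004000c0003000b00060004000c000a0005000e0004) (nat_lit 0x5059020500a40c0) (nat_lit 16) Lb.e (@T16.mk En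
    (@En.n l11 (nat_lit 8545) (nat_lit 7) (nat_lit 4))
    (@En.n l745 (nat_lit 6989) (nat_lit 1) (nat_lit 14))
    (@En.n l1393 (nat_lit 6267) (nat_lit 2) (nat_lit 5))
    (@En.i (nat_lit 8649) (nat_lit 3) (nat_lit 10))
    (@En.i (nat_lit 11788) (nat_lit 12) (nat_lit 12))
    (@En.n l3480 (nat_lit 8578) (nat_lit 5) (nat_lit 4))
    (@En.n l10171 (nat_lit 12718) (nat_lit 6) (nat_lit 6))
    (@En.n l9174 (nat_lit 11891) (nat_lit 8) (nat_lit 11))
    (@En.n l6081 (nat_lit 12715) (nat_lit 8) (nat_lit 3))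
    (@En.n l4011 (nat_lit 2657) (nat_lit 10) (nat_lit 12))
    (@En.n l17688 (nat_lit 12719) (nat_lit 10) (nat_lit 4))
    (@En.i (nat_lit 8079) (nat_lit 5) (nat_lit 13))
    (@En.n l745 (nat_lit 12670) (nat_lit 13) (nat_lit 10))
    (@En.i (nat_lit 7043) (nat_lit 14) (nat_lit 6))
    (@En.n l601 (nat_lit 9701) (nat_lit 3) (nat_lit 12))
    (@En.n l28 (nat_lit 12716) (nat_lit 15) (nat_lit 2))))
  (@Cl.mk (nat_lit 0x2000a0006000a0007000d000c0006000300060004000c000a0009000e0004) (nat_lit 0x5060b30000a31c0) (nat_lit 16) Lb.e (@T16.mk En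
    (@En.n l13489 (nat_lit 8543) (nat_lit 8) (nat_lit 4))
    (@En.i (nat_lit 6994) (nat_lit 1) (nat_lit 14))
    (@En.n l516 (nat_lit 5662) (nat_lit 2) (nat_lit 9))
    (@En.n l27227 (nat_lit 8652) (nat_lit 3) (nat_lit 10))
    (@En.n l5200 (nat_lit 11785) (nat_lit 13) (nat_lit 12))
    (@En.n l20977 (nat_lit 8515) (nat_lit 5) (nat_lit 4))
    (@En.n l27228 (nat_lit 8069) (nat_lit 6) (nat_lit 6))
    (@En.n l28 (nat_lit 12718) (nat_lit 7) (nat_lit 3))
    (@En.n l478 (nat_lit 5509) (nat_lit 0) (nat_lit 6))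
    (@En.n l77 (nat_lit 8521) (nat_lit 10) (nat_lit 12))
    (@En.n l20977 (nat_lit 12715) (nat_lit 11) (nat_lit 13))
    (@En.n l20480 (nat_lit 9112) (nat_lit 12) (nat_lit 7))
    (@En.n l1412 (nat_lit 12714) (nat_lit 13) (nat_lit 10))
    (@En.n l1792 (nat_lit 7045) (nat_lit 14) (nat_lit 6))
    (@En.n l27210 (nat_lit 9712) (nat_lit 7) (nat_lit 10))
    (@En.n l17 (nat_lit 12717) (nat_lit 15) (nat_lit 2))))
  (@Cl.mk (nat_lit 0x2000b0006000a0007000d0005000d000300060003000c000a0009000e0004) (nat_lit 0x5060a02000631c0) (nat_lit 16) Lb.e (@T16.mk En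
    (@En.n l13489 (nat_lit 8542) (nat_lit 8) (nat_lit 4))
    (@En.i (nat_lit 6988) (nat_lit 1) (nat_lit 14))
    (@En.n l4452 (nat_lit 6144) (nat_lit 2) (nat_lit 9))
    (@En.n l25981 (nat_lit 8651) (nat_lit 3) (nat_lit 10))
    (@En.i (nat_lit 10844) (nat_lit 13) (nat_lit 12))
    (@En.i (nat_lit 8521) (nat_lit 5) (nat_lit 3))
    (@En.n l20701 (nat_lit 9121) (nat_lit 12) (nat_lit 6))
    (@En.i (nat_lit 12717) (nat_lit 7) (nat_lit 3))
    (@En.n l1897 (nat_lit 2658) (nat_lit 0) (nat_lit 13))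
    (@En.i (nat_lit 12107) (nat_lit 9) (nat_lit 5))
    (@En.n l9642 (nat_lit 12716) (nat_lit 11) (nat_lit 13))
    (@En.n l34773 (nat_lit 9111) (nat_lit 12) (nat_lit 7))
    (@En.n l5375 (nat_lit 12671) (nat_lit 13) (nat_lit 10))
    (@En.n l20701 (nat_lit 7044) (nat_lit 14) (nat_lit 6))
    (@En.n l6596 (nat_lit 9704) (nat_lit 9) (nat_lit 11))
    (@En.n l17 (nat_lit 12718) (nat_lit 15) (nat_lit 2))))
  (@Cl.mk (nat_lit 0x2000c000b0007000b0004000c0005000b00050004000c00090005000e0004) (nat_lit 0x3502020500650a0) (nat_lit 16) Lb.e (@T16.mk En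
    (@En.n l39455 (nat_lit 10531) (nat_lit 15) (nat_lit 4))
    (@En.n l13967 (nat_lit 7278) (nat_lit 1) (nat_lit 14))
    (@En.n l36243 (nat_lit 5938) (nat_lit 2) (nat_lit 5))
    (@En.n l33428 (nat_lit 9833) (nat_lit 3) (nat_lit 9))
    (@En.n l2865 (nat_lit 10629) (nat_lit 5) (nat_lit 12))
    (@En.n l17700 (nat_lit 6402) (nat_lit 5) (nat_lit 4))
    (@En.n l5491 (nat_lit 12107) (nat_lit 6) (nat_lit 5))
    (@En.n l33428 (nat_lit 11906) (nat_lit 8) (nat_lit 11))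
    (@En.n l35645 (nat_lit 12199) (nat_lit 8) (nat_lit 5))
    (@En.n l14525 (nat_lit 7606) (nat_lit 10) (nat_lit 12))
    (@En.n l39456 (nat_lit 9278) (nat_lit 10) (nat_lit 4))
    (@En.i (nat_lit 12677) (nat_lit 12) (nat_lit 11))
    (@En.n l20474 (nat_lit 9042) (nat_lit 13) (nat_lit 7))
    (@En.n l17700 (nat_lit 12715) (nat_lit 14) (nat_lit 11))
    (@En.i (nat_lit 10645) (nat_lit 3) (nat_lit 12))
    (@En.n l17 (nat_lit 12719) (nat_lit 15) (nat_lit 2))))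
noncomputable def a795 : T16 Cl := @T16.mk Cl
  (@Cl.mk (nat_lit 0x2000c000c0009000800040004000a000d000a0007000300080006000e0006) (nat_lit 0xa83100294002030) (nat_lit 16) Lb.e (@T16.mk En
    (@En.n l4172 (nat_lit 12722) (nat_lit 5) (nat_lit 6))
    (@En.n l3039 (nat_lit 897) (nat_lit 1) (nat_lit 14))
    (@En.n l28 (nat_lit 12201) (nat_lit 2) (nat_lit 6))
    (@En.i (nat_lit 10127) (nat_lit 3) (nat_lit 8))
    (@En.n l50 (nat_lit 12197) (nat_lit 4) (nat_lit 3))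
    (@En.n l17546 (nat_lit 11348) (nat_lit 0) (nat_lit 7))
    (@En.n l3038 (nat_lit 11832) (nat_lit 7) (nat_lit 10))
    (@En.n l3039 (nat_lit 12390) (nat_lit 8) (nat_lit 13))
    (@En.n l476 (nat_lit 12167) (nat_lit 9) (nat_lit 10))
    (@En.n l152 (nat_lit 6376) (nat_lit 12) (nat_lit 4))
    (@En.n l17546 (nat_lit 12709) (nat_lit 10) (nat_lit 4))
    (@En.n l601 (nat_lit 6087) (nat_lit 12) (nat_lit 8))
    (@En.n l28118 (nat_lit 9051) (nat_lit 13) (nat_lit 9))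
    (@En.n l28119 (nat_lit 12721) (nat_lit 4) (nat_lit 12))
    (@En.i (nat_lit 11865) (nat_lit 10) (nat_lit 12))
    (@En.n l17 (nat_lit 12720) (nat_lit 15) (nat_lit 2))))
  (@Cl.mk (nat_lit 0x2000a000d000a0008000300090006000e00060002000c00080007000e0004) (nat_lit 0x3874010300740a0) (nat_lit 16) Lb.e (@T16.mk En
    (@En.n l26481 (nat_lit 12720) (nat_lit 10) (nat_lit 4))
    (@En.n l9399 (nat_lit 4151) (nat_lit 1) (nat_lit 14))
    (@En.n l26482 (nat_lit 6095) (nat_lit 2) (nat_lit 7))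
    (@En.i (nat_lit 5851) (nat_lit 14) (nat_lit 8))
    (@En.n l26483 (nat_lit 8777) (nat_lit 10) (nat_lit 12))
    (@En.n l11 (nat_lit 12721) (nat_lit 5) (nat_lit 2))
    (@En.n l26484 (nat_lit 12723) (nat_lit 6) (nat_lit 6))
    (@En.n l24160 (nat_lit 898) (nat_lit 8) (nat_lit 14))
    (@En.n l22311 (nat_lit 12726) (nat_lit 8) (nat_lit 6))
    (@En.n l9402 (nat_lit 11136) (nat_lit 10) (nat_lit 9))
    (@En.n l26485 (nat_lit 5956) (nat_lit 10) (nat_lit 3))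
    (@En.i (nat_lit 11349) (nat_lit 0) (nat_lit 8))
    (@En.n l26486 (nat_lit 12107) (nat_lit 13) (nat_lit 10))
    (@En.i (nat_lit 12622) (nat_lit 8) (nat_lit 13))
    (@En.n l250 (nat_lit 12168) (nat_lit 9) (nat_lit 10))
    (@En.n l50 (nat_lit 12721) (nat_lit 15) (nat_lit 2))))
  (@Cl.mk (nat_lit 0x400040009000c000a000a000800040009000700060006000c000c00080007) (nat_lit 0x24254060004640) (nat_lit 16) Lb.e (@T16.mk En
    (@En.n l19006 (nat_lit 6014) (nat_lit 0) (nat_lit 7))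
    (@En.n l18169 (nat_lit 11580) (nat_lit 1) (nat_lit 8))
    (@En.n l27615 (nat_lit 12723) (nat_lit 4) (nat_lit 12))
    (@En.n l27616 (nat_lit 10813) (nat_lit 11) (nat_lit 12))
    (@En.n l27617 (nat_lit 12283) (nat_lit 10) (nat_lit 6))
    (@En.n l27618 (nat_lit 10533) (nat_lit 10) (nat_lit 6))
    (@En.n l142 (nat_lit 11811) (nat_lit 6) (nat_lit 7))
    (@En.i (nat_lit 10128) (nat_lit 11) (nat_lit 9))
    (@En.n l77 (nat_lit 12194) (nat_lit 8) (nat_lit 4))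
    (@En.n l27619 (nat_lit 11806) (nat_lit 0) (nat_lit 8))
    (@En.n l5653 (nat_lit 12720) (nat_lit 6) (nat_lit 10))
    (@En.n l27620 (nat_lit 9241) (nat_lit 12) (nat_lit 10))
    (@En.n l5654 (nat_lit 5309) (nat_lit 6) (nat_lit 12))
    (@En.n l3517 (nat_lit 11968) (nat_lit 4) (nat_lit 9))
    (@En.n l152 (nat_lit 12738) (nat_lit 12) (nat_lit 4))
    (@En.n l18176 (nat_lit 5861) (nat_lit 0) (nat_lit 4))))
  (@Cl.mk (nat_lit 0x20009000c000a000a00090004000a000700060006000c00070006000e0004) (nat_lit 0x362850600050090) (nat_lit 16) Lb.e (@T16.mk En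
    (@En.n l24457 (nat_lit 12722) (nat_lit 15) (nat_lit 4))
    (@En.n l3955 (nat_lit 4156) (nat_lit 1) (nat_lit 14))
    (@En.n l24458 (nat_lit 6013) (nat_lit 2) (nat_lit 6))
    (@En.n l10539 (nat_lit 5783) (nat_lit 3) (nat_lit 7))
    (@En.n l2738 (nat_lit 9983) (nat_lit 5) (nat_lit 12))
    (@En.n l3536 (nat_lit 12282) (nat_lit 5) (nat_lit 6))
    (@En.n l21839 (nat_lit 9291) (nat_lit 6) (nat_lit 6))
    (@En.n l24459 (nat_lit 12724) (nat_lit 7) (nat_lit 7))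
    (@En.n l12191 (nat_lit 11137) (nat_lit 9) (nat_lit 10))
    (@En.n l5526 (nat_lit 12193) (nat_lit 9) (nat_lit 4))
    (@En.n l24460 (nat_lit 12365) (nat_lit 11) (nat_lit 9))
    (@En.n l23829 (nat_lit 12721) (nat_lit 12) (nat_lit 10))
    (@En.n l24461 (nat_lit 9248) (nat_lit 13) (nat_lit 10))
    (@En.n l12696 (nat_lit 12612) (nat_lit 6) (nat_lit 12))
    (@En.n l24462 (nat_lit 12173) (nat_lit 4) (nat_lit 9))
    (@En.n l18 (nat_lit 12723) (nat_lit 15) (nat_lit 2))))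
  (@Cl.mk (nat_lit 0x200090005000c000b000b000a0004000700050005000c0006000b000e0004) (nat_lit 0x407887000040190) (nat_lit 16) Lb.e (@T16.mk En
    (@En.n l28867 (nat_lit 11811) (nat_lit 15) (nat_lit 4))
    (@En.n l1889 (nat_lit 4160) (nat_lit 4) (nat_lit 14))
    (@En.n l22663 (nat_lit 1151) (nat_lit 2) (nat_lit 11))
    (@En.n l28868 (nat_lit 5850) (nat_lit 3) (nat_lit 6))
    (@En.n l14607 (nat_lit 9982) (nat_lit 5) (nat_lit 12))
    (@En.n l28869 (nat_lit 12281) (nat_lit 5) (nat_lit 5))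
    (@En.n l14609 (nat_lit 12728) (nat_lit 6) (nat_lit 5))
    (@En.n l28868 (nat_lit 12775) (nat_lit 7) (nat_lit 7))
    (@En.n l110 (nat_lit 5678) (nat_lit 8) (nat_lit 4))
    (@En.n l644 (nat_lit 12364) (nat_lit 10) (nat_lit 10))
    (@En.n l8163 (nat_lit 12726) (nat_lit 11) (nat_lit 11))
    (@En.n l8351 (nat_lit 12048) (nat_lit 12) (nat_lit 11))
    (@En.n l28870 (nat_lit 12723) (nat_lit 13) (nat_lit 12))
    (@En.n l2088 (nat_lit 12725) (nat_lit 14) (nat_lit 5))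
    (@En.n l3815 (nat_lit 12175) (nat_lit 5) (nat_lit 9))
    (@En.n l17 (nat_lit 12724) (nat_lit 15) (nat_lit 2))))
  (@Cl.mk (nat_lit 0x20005000c000b000b000a0004000a00050005000b0006000b0006000e0005) (nat_lit 0x798602005010a0) (nat_lit 16) Lb.e (@T16.mk En
    (@En.n l15588 (nat_lit 9242) (nat_lit 6) (nat_lit 5))
    (@En.n l14438 (nat_lit 12724) (nat_lit 1) (nat_lit 14))
    (@En.n l13791 (nat_lit 12723) (nat_lit 2) (nat_lit 6))
    (@En.n l6097 (nat_lit 1155) (nat_lit 3) (nat_lit 11))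
    (@En.n l15589 (nat_lit 5705) (nat_lit 4) (nat_lit 6))
    (@En.n l15590 (nat_lit 9984) (nat_lit 6) (nat_lit 11))
    (@En.n l15591 (nat_lit 5623) (nat_lit 6) (nat_lit 5))
    (@En.n l117 (nat_lit 12729) (nat_lit 7) (nat_lit 5))
    (@En.n l15592 (nat_lit 11128) (nat_lit 9) (nat_lit 10))
    (@En.n l5620 (nat_lit 5676) (nat_lit 9) (nat_lit 4))
    (@En.n l15593 (nat_lit 12366) (nat_lit 11) (nat_lit 10))
    (@En.n l15594 (nat_lit 12727) (nat_lit 12) (nat_lit 11))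
    (@En.n l15595 (nat_lit 12045) (nat_lit 13) (nat_lit 11))
    (@En.n l15596 (nat_lit 5618) (nat_lit 14) (nat_lit 12))
    (@En.n l15597 (nat_lit 12604) (nat_lit 13) (nat_lit 5))
    (@En.n l18 (nat_lit 12725) (nat_lit 15) (nat_lit 2))))
  (@Cl.mk (nat_lit 0x2000a0005000d000b000900030006000e00050002000c0007000b000e0004) (nat_lit 0x409750050060190) (nat_lit 16) Lb.e (@T16.mk En
    (@En.n l2869 (nat_lit 12201) (nat_lit 10) (nat_lit 4))
    (@En.n l5933 (nat_lit 4163) (nat_lit 12) (nat_lit 14))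
    (@En.n l2579 (nat_lit 1146) (nat_lit 2) (nat_lit 11))
    (@En.n l998 (nat_lit 7708) (nat_lit 14) (nat_lit 7))
    (@En.n l5933 (nat_lit 8781) (nat_lit 11) (nat_lit 12))
    (@En.n l7 (nat_lit 12726) (nat_lit 5) (nat_lit 2))
    (@En.n l14613 (nat_lit 12724) (nat_lit 6) (nat_lit 5))
    (@En.n l27192 (nat_lit 323) (nat_lit 8) (nat_lit 14))
    (@En.n l5931 (nat_lit 12810) (nat_lit 8) (nat_lit 6))
    (@En.n l11 (nat_lit 12200) (nat_lit 9) (nat_lit 3))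
    (@En.n l5932 (nat_lit 12547) (nat_lit 0) (nat_lit 9))
    (@En.i (nat_lit 12730) (nat_lit 12) (nat_lit 11))
    (@En.n l27193 (nat_lit 12721) (nat_lit 13) (nat_lit 13))
    (@En.n l897 (nat_lit 12727) (nat_lit 14) (nat_lit 5))
    (@En.n l3337 (nat_lit 12170) (nat_lit 9) (nat_lit 10))
    (@En.n l17 (nat_lit 12726) (nat_lit 15) (nat_lit 2))))
  (@Cl.mk (nat_lit 0x20005000d000b000900030009000e00050002000b0007000b0007000e0005) (nat_lit 0xa74025006020a0) (nat_lit 16) Lb.e (@T16.mk En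
    (@En.n l215 (nat_lit 9246) (nat_lit 9) (nat_lit 5))
    (@En.n l998 (nat_lit 12726) (nat_lit 1) (nat_lit 14))
    (@En.n l13521 (nat_lit 12721) (nat_lit 2) (nat_lit 7))
    (@En.n l12555 (nat_lit 1154) (nat_lit 3) (nat_lit 11))
    (@En.n l771 (nat_lit 7709) (nat_lit 4) (nat_lit 7))
    (@En.n l13522 (nat_lit 8783) (nat_lit 6) (nat_lit 11))
    (@En.n l28 (nat_lit 12727) (nat_lit 6) (nat_lit 2))
    (@En.n l2381 (nat_lit 12725) (nat_lit 7) (nat_lit 5))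
    (@En.i (nat_lit 326) (nat_lit 9) (nat_lit 14))
    (@En.n l13523 (nat_lit 11130) (nat_lit 10) (nat_lit 9))
    (@En.n l107 (nat_lit 5955) (nat_lit 10) (nat_lit 3))
    (@En.n l13524 (nat_lit 12548) (nat_lit 12) (nat_lit 9))
    (@En.n l10780 (nat_lit 12731) (nat_lit 13) (nat_lit 11))
    (@En.n l13524 (nat_lit 5954) (nat_lit 7) (nat_lit 13))
    (@En.n l2039 (nat_lit 10746) (nat_lit 13) (nat_lit 5))
    (@En.n l17 (nat_lit 12727) (nat_lit 15) (nat_lit 2))))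
  (@Cl.mk (nat_lit 0x2000c0005000b000b0004000c000b000500050004000c0005000b000e0004) (nat_lit 0x809801700060180) (nat_lit 16) Lb.e (@T16.mk En
    (@En.n l8788 (nat_lit 12427) (nat_lit 15) (nat_lit 4))
    (@En.i (nat_lit 2904) (nat_lit 4) (nat_lit 14))
    (@En.n l19859 (nat_lit 312) (nat_lit 2) (nat_lit 11))
    (@En.n l19860 (nat_lit 11653) (nat_lit 3) (nat_lit 5))
    (@En.n l287 (nat_lit 11976) (nat_lit 5) (nat_lit 12))
    (@En.n l9938 (nat_lit 12765) (nat_lit 5) (nat_lit 4))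
    (@En.n l5761 (nat_lit 4036) (nat_lit 11) (nat_lit 5))
    (@En.n l19861 (nat_lit 12730) (nat_lit 7) (nat_lit 5))
    (@En.n l55 (nat_lit 12656) (nat_lit 9) (nat_lit 11))
    (@En.i (nat_lit 321) (nat_lit 10) (nat_lit 12))
    (@En.n l7681 (nat_lit 9283) (nat_lit 10) (nat_lit 4))
    (@En.n l1867 (nat_lit 12658) (nat_lit 5) (nat_lit 11))
    (@En.n l19836 (nat_lit 9291) (nat_lit 13) (nat_lit 11))
    (@En.n l699 (nat_lit 12729) (nat_lit 14) (nat_lit 5))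
    (@En.n l19862 (nat_lit 11122) (nat_lit 3) (nat_lit 12))
    (@En.n l50 (nat_lit 12728) (nat_lit 15) (nat_lit 2))))
  (@Cl.mk (nat_lit 0x20005000b000b0007000c000b000500050004000b0005000b0009000e0005) (nat_lit 0x91016000902490) (nat_lit 16) Lb.e (@T16.mk En
    (@En.n l8411 (nat_lit 22) (nat_lit 1) (nat_lit 5))
    (@En.n l396 (nat_lit 12728) (nat_lit 1) (nat_lit 14))
    (@En.n l8379 (nat_lit 12686) (nat_lit 2) (nat_lit 9))
    (@En.n l8412 (nat_lit 1079) (nat_lit 3) (nat_lit 11))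
    (@En.n l916 (nat_lit 11654) (nat_lit 4) (nat_lit 5))
    (@En.n l6295 (nat_lit 11978) (nat_lit 6) (nat_lit 11))
    (@En.n l11 (nat_lit 12764) (nat_lit 6) (nat_lit 4))
    (@En.n l152 (nat_lit 4038) (nat_lit 7) (nat_lit 5))
    (@En.n l936 (nat_lit 12731) (nat_lit 8) (nat_lit 5))
    (@En.n l55 (nat_lit 12654) (nat_lit 10) (nat_lit 11))
    (@En.i (nat_lit 325) (nat_lit 11) (nat_lit 12))
    (@En.n l8379 (nat_lit 11303) (nat_lit 12) (nat_lit 7))
    (@En.n l2873 (nat_lit 12) (nat_lit 5) (nat_lit 11))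
    (@En.n l8413 (nat_lit 11171) (nat_lit 14) (nat_lit 11))
    (@En.n l640 (nat_lit 12607) (nat_lit 13) (nat_lit 5))
    (@En.n l18 (nat_lit 12729) (nat_lit 15) (nat_lit 2))))
  (@Cl.mk (nat_lit 0x2000b0005000b0008000c0005000d000500040003000c0008000b000e0004) (nat_lit 0x506520400092210) (nat_lit 16) Lb.e (@T16.mk En
    (@En.n l2869 (nat_lit 12203) (nat_lit 10) (nat_lit 4))
    (@En.n l29113 (nat_lit 3054) (nat_lit 4) (nat_lit 14))
    (@En.n l2579 (nat_lit 1144) (nat_lit 2) (nat_lit 11))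
    (@En.n l15164 (nat_lit 8717) (nat_lit 3) (nat_lit 8))
    (@En.n l5996 (nat_lit 10655) (nat_lit 5) (nat_lit 12))
    (@En.n l15163 (nat_lit 11908) (nat_lit 5) (nat_lit 3))
    (@En.i (nat_lit 12200) (nat_lit 6) (nat_lit 4))
    (@En.n l35563 (nat_lit 12048) (nat_lit 7) (nat_lit 5))
    (@En.n l29113 (nat_lit 327) (nat_lit 9) (nat_lit 13))
    (@En.n l6050 (nat_lit 9279) (nat_lit 9) (nat_lit 5))
    (@En.n l29113 (nat_lit 12660) (nat_lit 11) (nat_lit 12))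
    (@En.n l13499 (nat_lit 11906) (nat_lit 12) (nat_lit 8))
    (@En.n l5634 (nat_lit 12719) (nat_lit 13) (nat_lit 11))
    (@En.n l35564 (nat_lit 12731) (nat_lit 14) (nat_lit 5))
    (@En.n l3337 (nat_lit 10683) (nat_lit 9) (nat_lit 11))
    (@En.n l17 (nat_lit 12730) (nat_lit 15) (nat_lit 2))))
  (@Cl.mk (nat_lit 0x20005000b0008000c0008000d000500040003000b0008000b0008000e0005) (nat_lit 0x63933000542220) (nat_lit 16) Lb.e (@T16.mk En
    (@En.n l14319 (nat_lit 9247) (nat_lit 9) (nat_lit 5))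
    (@En.n l19933 (nat_lit 12730) (nat_lit 1) (nat_lit 14))
    (@En.n l5601 (nat_lit 12107) (nat_lit 2) (nat_lit 8))
    (@En.n l19934 (nat_lit 1082) (nat_lit 3) (nat_lit 11))
    (@En.n l5785 (nat_lit 8151) (nat_lit 4) (nat_lit 8))
    (@En.n l5022 (nat_lit 10676) (nat_lit 6) (nat_lit 11))
    (@En.n l19887 (nat_lit 11909) (nat_lit 6) (nat_lit 3))
    (@En.n l731 (nat_lit 5955) (nat_lit 7) (nat_lit 4))
    (@En.n l19935 (nat_lit 12045) (nat_lit 8) (nat_lit 5))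
    (@En.i (nat_lit 332) (nat_lit 10) (nat_lit 13))
    (@En.n l19936 (nat_lit 11382) (nat_lit 11) (nat_lit 8))
    (@En.i (nat_lit 12659) (nat_lit 12) (nat_lit 12))
    (@En.n l19937 (nat_lit 11907) (nat_lit 13) (nat_lit 8))
    (@En.n l8413 (nat_lit 11172) (nat_lit 14) (nat_lit 11))
    (@En.n l19938 (nat_lit 12273) (nat_lit 13) (nat_lit 5))
    (@En.n l18 (nat_lit 12731) (nat_lit 15) (nat_lit 2))))
  (@Cl.mk (nat_lit 0x2000a0005000a0008000d000c0006000300060004000c0008000b000e0004) (nat_lit 0x3075b3000082240) (nat_lit 16) Lb.e (@T16.mk En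
    (@En.n l2869 (nat_lit 12418) (nat_lit 8) (nat_lit 4))
    (@En.n l36734 (nat_lit 7338) (nat_lit 4) (nat_lit 14))
    (@En.n l14619 (nat_lit 1086) (nat_lit 2) (nat_lit 11))
    (@En.n l15164 (nat_lit 10973) (nat_lit 3) (nat_lit 8))
    (@En.n l36735 (nat_lit 6218) (nat_lit 13) (nat_lit 12))
    (@En.i (nat_lit 5678) (nat_lit 5) (nat_lit 4))
    (@En.n l17785 (nat_lit 7667) (nat_lit 6) (nat_lit 6))
    (@En.n l17786 (nat_lit 11908) (nat_lit 7) (nat_lit 3))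
    (@En.n l36736 (nat_lit 8896) (nat_lit 0) (nat_lit 6))
    (@En.n l77 (nat_lit 12730) (nat_lit 10) (nat_lit 12))
    (@En.n l8351 (nat_lit 12734) (nat_lit 11) (nat_lit 13))
    (@En.n l13499 (nat_lit 11902) (nat_lit 12) (nat_lit 8))
    (@En.n l36737 (nat_lit 6403) (nat_lit 13) (nat_lit 10))
    (@En.n l17783 (nat_lit 12733) (nat_lit 14) (nat_lit 5))
    (@En.n l36738 (nat_lit 11118) (nat_lit 7) (nat_lit 10))
    (@En.n l17 (nat_lit 12732) (nat_lit 15) (nat_lit 2))))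
  (@Cl.mk (nat_lit 0x20005000a0008000d000c0009000300060004000b0008000b0007000e0005) (nat_lit 0x736a1000121050) (nat_lit 16) Lb.e (@T16.mk En
    (@En.n l18134 (nat_lit 11837) (nat_lit 7) (nat_lit 5))
    (@En.n l12039 (nat_lit 12732) (nat_lit 1) (nat_lit 14))
    (@En.i (nat_lit 11048) (nat_lit 2) (nat_lit 7))
    (@En.n l33321 (nat_lit 1081) (nat_lit 3) (nat_lit 11))
    (@En.n l33322 (nat_lit 10975) (nat_lit 4) (nat_lit 8))
    (@En.n l33323 (nat_lit 6215) (nat_lit 6) (nat_lit 11))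
    (@En.n l17685 (nat_lit 5676) (nat_lit 6) (nat_lit 4))
    (@En.n l117 (nat_lit 7666) (nat_lit 7) (nat_lit 6))
    (@En.n l575 (nat_lit 11909) (nat_lit 8) (nat_lit 3))
    (@En.n l11881 (nat_lit 6007) (nat_lit 0) (nat_lit 9))
    (@En.n l33303 (nat_lit 12731) (nat_lit 11) (nat_lit 12))
    (@En.n l33324 (nat_lit 12735) (nat_lit 12) (nat_lit 13))
    (@En.n l33325 (nat_lit 11903) (nat_lit 13) (nat_lit 8))
    (@En.n l33326 (nat_lit 9774) (nat_lit 14) (nat_lit 10))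
    (@En.n l17373 (nat_lit 12271) (nat_lit 13) (nat_lit 5))
    (@En.n l17 (nat_lit 12733) (nat_lit 15) (nat_lit 2))))
  (@Cl.mk (nat_lit 0x2000b0005000a000d000b00050003000c00060005000c0004000b000e0004) (nat_lit 0x307a90080010240) (nat_lit 16) Lb.e (@T16.mk En
    (@En.n l31630 (nat_lit 12416) (nat_lit 7) (nat_lit 4))
    (@En.n l13792 (nat_lit 7336) (nat_lit 4) (nat_lit 14))
    (@En.n l55 (nat_lit 1072) (nat_lit 2) (nat_lit 11))
    (@En.n l31631 (nat_lit 11898) (nat_lit 3) (nat_lit 4))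
    (@En.n l8714 (nat_lit 6216) (nat_lit 0) (nat_lit 12))
    (@En.n l16487 (nat_lit 12362) (nat_lit 5) (nat_lit 5))
    (@En.n l31632 (nat_lit 12732) (nat_lit 6) (nat_lit 6))
    (@En.n l31633 (nat_lit 12812) (nat_lit 8) (nat_lit 12))
    (@En.n l14303 (nat_lit 12765) (nat_lit 8) (nat_lit 3))
    (@En.n l13792 (nat_lit 8902) (nat_lit 9) (nat_lit 5))
    (@En.n l31634 (nat_lit 12728) (nat_lit 11) (nat_lit 11))
    (@En.i (nat_lit 12741) (nat_lit 5) (nat_lit 13))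
    (@En.n l134 (nat_lit 6401) (nat_lit 13) (nat_lit 10))
    (@En.n l1867 (nat_lit 12735) (nat_lit 14) (nat_lit 5))
    (@En.n l29941 (nat_lit 11119) (nat_lit 0) (nat_lit 11))
    (@En.n l17 (nat_lit 12734) (nat_lit 15) (nat_lit 2))))
  (@Cl.mk (nat_lit 0x20005000a000d000b00080003000c00060005000b0004000b0008000e0005) (nat_lit 0x75240700802250) (nat_lit 16) Lb.e (@T16.mk En
    (@En.n l21579 (nat_lit 11839) (nat_lit 6) (nat_lit 5))
    (@En.n l3337 (nat_lit 12734) (nat_lit 1) (nat_lit 14))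
    (@En.n l18462 (nat_lit 11047) (nat_lit 2) (nat_lit 8))
    (@En.n l21580 (nat_lit 1078) (nat_lit 3) (nat_lit 11))
    (@En.n l21581 (nat_lit 11899) (nat_lit 4) (nat_lit 4))
    (@En.i (nat_lit 6213) (nat_lit 6) (nat_lit 11))
    (@En.n l21582 (nat_lit 12043) (nat_lit 6) (nat_lit 5))
    (@En.n l21583 (nat_lit 12733) (nat_lit 7) (nat_lit 6))
    (@En.n l21584 (nat_lit 12811) (nat_lit 9) (nat_lit 12))
    (@En.n l21585 (nat_lit 12764) (nat_lit 9) (nat_lit 3))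
    (@En.n l18464 (nat_lit 6008) (nat_lit 11) (nat_lit 8))
    (@En.n l21586 (nat_lit 12729) (nat_lit 12) (nat_lit 11))
    (@En.i (nat_lit 12740) (nat_lit 13) (nat_lit 13))
    (@En.n l9960 (nat_lit 9775) (nat_lit 14) (nat_lit 10))
    (@En.n l21587 (nat_lit 12268) (nat_lit 13) (nat_lit 5))
    (@En.n l7 (nat_lit 12735) (nat_lit 15) (nat_lit 2))))
noncomputable def a796 : T16 Cl := @T16.mk Cl
  (@Cl.mk (nat_lit 0x2000800070004000d0009000c0003000b00080004000900070005000e000c) (nat_lit 0x600824076060074) (nat_lit 16) Lb.e (@T16.mk En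
    (@En.n l1708 (nat_lit 9290) (nat_lit 8) (nat_lit 12))
    (@En.n l10131 (nat_lit 12514) (nat_lit 1) (nat_lit 14))
    (@En.i (nat_lit 8876) (nat_lit 2) (nat_lit 5))
    (@En.n l10132 (nat_lit 12737) (nat_lit 3) (nat_lit 7))
    (@En.n l495 (nat_lit 12495) (nat_lit 4) (nat_lit 9))
    (@En.n l10133 (nat_lit 8770) (nat_lit 5) (nat_lit 4))
    (@En.n l1668 (nat_lit 12701) (nat_lit 6) (nat_lit 8))
    (@En.n l10134 (nat_lit 7862) (nat_lit 8) (nat_lit 11))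
    (@En.n l1686 (nat_lit 10529) (nat_lit 8) (nat_lit 3))
    (@En.n l1668 (nat_lit 8647) (nat_lit 6) (nat_lit 12))
    (@En.n l10135 (nat_lit 12738) (nat_lit 11) (nat_lit 9))
    (@En.n l10136 (nat_lit 5045) (nat_lit 12) (nat_lit 13))
    (@En.n l10137 (nat_lit 10295) (nat_lit 13) (nat_lit 4))
    (@En.i (nat_lit 6327) (nat_lit 14) (nat_lit 7))
    (@En.n l890 (nat_lit 12052) (nat_lit 5) (nat_lit 8))
    (@En.n l18 (nat_lit 12736) (nat_lit 15) (nat_lit 2))))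
  (@Cl.mk (nat_lit 0x20007000c0004000c00090004000c0004000c0009000400070004000e000c) (nat_lit 0x50930508700078) (nat_lit 16) Lb.e (@T16.mk En
    (@En.n l23359 (nat_lit 9289) (nat_lit 3) (nat_lit 12))
    (@En.n l5845 (nat_lit 12515) (nat_lit 1) (nat_lit 14))
    (@En.n l899 (nat_lit 12460) (nat_lit 2) (nat_lit 4))
    (@En.n l1897 (nat_lit 12740) (nat_lit 11) (nat_lit 7))
    (@En.n l4815 (nat_lit 8764) (nat_lit 4) (nat_lit 4))
    (@En.n l14304 (nat_lit 12698) (nat_lit 5) (nat_lit 9))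
    (@En.i (nat_lit 7863) (nat_lit 7) (nat_lit 12))
    (@En.n l23360 (nat_lit 12685) (nat_lit 7) (nat_lit 4))
    (@En.n l23116 (nat_lit 12736) (nat_lit 9) (nat_lit 12))
    (@En.n l3523 (nat_lit 9990) (nat_lit 9) (nat_lit 4))
    (@En.n l23359 (nat_lit 12739) (nat_lit 11) (nat_lit 9))
    (@En.n l9960 (nat_lit 5048) (nat_lit 12) (nat_lit 12))
    (@En.i (nat_lit 10299) (nat_lit 13) (nat_lit 4))
    (@En.n l649 (nat_lit 6167) (nat_lit 14) (nat_lit 12))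
    (@En.i (nat_lit 11866) (nat_lit 1) (nat_lit 7))
    (@En.n l7 (nat_lit 12737) (nat_lit 15) (nat_lit 2))))
  (@Cl.mk (nat_lit 0x20009000800040009000c000a000a000700040008000700060006000e000c) (nat_lit 0x510132100400025) (nat_lit 16) Lb.e (@T16.mk En
    (@En.i (nat_lit 12722) (nat_lit 3) (nat_lit 12))
    (@En.n l13971 (nat_lit 11746) (nat_lit 1) (nat_lit 14))
    (@En.n l3180 (nat_lit 9227) (nat_lit 10) (nat_lit 6))
    (@En.n l12282 (nat_lit 10529) (nat_lit 3) (nat_lit 6))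
    (@En.n l142 (nat_lit 12739) (nat_lit 4) (nat_lit 7))
    (@En.n l13972 (nat_lit 10126) (nat_lit 5) (nat_lit 8))
    (@En.n l77 (nat_lit 9225) (nat_lit 6) (nat_lit 4))
    (@En.n l13973 (nat_lit 12579) (nat_lit 7) (nat_lit 7))
    (@En.n l5653 (nat_lit 6376) (nat_lit 9) (nat_lit 10))
    (@En.n l13974 (nat_lit 5673) (nat_lit 10) (nat_lit 10))
    (@En.n l5654 (nat_lit 12388) (nat_lit 6) (nat_lit 12))
    (@En.n l13972 (nat_lit 2167) (nat_lit 12) (nat_lit 9))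
    (@En.n l13975 (nat_lit 12689) (nat_lit 13) (nat_lit 4))
    (@En.i (nat_lit 6086) (nat_lit 14) (nat_lit 8))
    (@En.n l13965 (nat_lit 11278) (nat_lit 1) (nat_lit 9))
    (@En.n l3 (nat_lit 12738) (nat_lit 15) (nat_lit 2))))
  (@Cl.mk (nat_lit 0x20008000d000400090003000c000b000b00080004000700050005000e000c) (nat_lit 0x530204316000094) (nat_lit 16) Lb.e (@T16.mk En
    (@En.i (nat_lit 11811) (nat_lit 3) (nat_lit 12))
    (@En.n l9926 (nat_lit 11745) (nat_lit 1) (nat_lit 14))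
    (@En.n l3180 (nat_lit 9231) (nat_lit 2) (nat_lit 5))
    (@En.n l18 (nat_lit 12651) (nat_lit 3) (nat_lit 5))
    (@En.n l13964 (nat_lit 12511) (nat_lit 4) (nat_lit 7))
    (@En.n l77 (nat_lit 9230) (nat_lit 5) (nat_lit 4))
    (@En.n l12929 (nat_lit 12577) (nat_lit 6) (nat_lit 8))
    (@En.n l5653 (nat_lit 6374) (nat_lit 8) (nat_lit 11))
    (@En.n l601 (nat_lit 12592) (nat_lit 9) (nat_lit 11))
    (@En.i (nat_lit 12738) (nat_lit 10) (nat_lit 12))
    (@En.i (nat_lit 9244) (nat_lit 10) (nat_lit 3))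
    (@En.n l3133 (nat_lit 2533) (nat_lit 12) (nat_lit 9))
    (@En.i (nat_lit 12688) (nat_lit 13) (nat_lit 4))
    (@En.i (nat_lit 1218) (nat_lit 14) (nat_lit 13))
    (@En.n l13965 (nat_lit 11206) (nat_lit 1) (nat_lit 8))
    (@En.n l3 (nat_lit 12739) (nat_lit 15) (nat_lit 2))))
  (@Cl.mk (nat_lit 0x20005000d000a00070003000e000c00020006000b0004000b0009000e0005) (nat_lit 0x48006900102360) (nat_lit 16) Lb.e (@T16.mk En
    (@En.n l18461 (nat_lit 12608) (nat_lit 8) (nat_lit 5))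
    (@En.n l3337 (nat_lit 12741) (nat_lit 10) (nat_lit 14))
    (@En.n l18462 (nat_lit 12511) (nat_lit 11) (nat_lit 9))
    (@En.n l3337 (nat_lit 1077) (nat_lit 3) (nat_lit 11))
    (@En.n l18463 (nat_lit 12069) (nat_lit 4) (nat_lit 4))
    (@En.i (nat_lit 6113) (nat_lit 14) (nat_lit 11))
    (@En.n l2117 (nat_lit 12042) (nat_lit 6) (nat_lit 6))
    (@En.n l107 (nat_lit 12740) (nat_lit 7) (nat_lit 2))
    (@En.n l18464 (nat_lit 12117) (nat_lit 9) (nat_lit 12))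
    (@En.n l18464 (nat_lit 12762) (nat_lit 10) (nat_lit 14))
    (@En.n l6131 (nat_lit 12742) (nat_lit 2) (nat_lit 3))
    (@En.n l18464 (nat_lit 5794) (nat_lit 12) (nat_lit 7))
    (@En.n l18465 (nat_lit 12746) (nat_lit 13) (nat_lit 10))
    (@En.i (nat_lit 7259) (nat_lit 6) (nat_lit 13))
    (@En.n l2373 (nat_lit 12565) (nat_lit 13) (nat_lit 5))
    (@En.n l7 (nat_lit 12740) (nat_lit 15) (nat_lit 2))))
  (@Cl.mk (nat_lit 0x20006000c0004000b000e00040002000c0005000d000a00040003000e000c) (nat_lit 0x10250060980088) (nat_lit 16) Lb.e (@T16.mk En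
    (@En.n l13792 (nat_lit 12768) (nat_lit 8) (nat_lit 12))
    (@En.n l5845 (nat_lit 12763) (nat_lit 1) (nat_lit 14))
    (@En.n l14303 (nat_lit 12743) (nat_lit 2) (nat_lit 3))
    (@En.n l13792 (nat_lit 12809) (nat_lit 3) (nat_lit 4))
    (@En.n l14304 (nat_lit 12745) (nat_lit 4) (nat_lit 10))
    (@En.i (nat_lit 5894) (nat_lit 6) (nat_lit 13))
    (@En.n l1867 (nat_lit 12740) (nat_lit 14) (nat_lit 5))
    (@En.i (nat_lit 12737) (nat_lit 8) (nat_lit 12))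
    (@En.n l17 (nat_lit 12741) (nat_lit 8) (nat_lit 2))
    (@En.i (nat_lit 12756) (nat_lit 9) (nat_lit 4))
    (@En.n l13792 (nat_lit 3551) (nat_lit 11) (nat_lit 14))
    (@En.i (nat_lit 1071) (nat_lit 12) (nat_lit 11))
    (@En.i (nat_lit 11917) (nat_lit 3) (nat_lit 4))
    (@En.n l649 (nat_lit 6157) (nat_lit 14) (nat_lit 12))
    (@En.i (nat_lit 12047) (nat_lit 5) (nat_lit 6))
    (@En.n l7 (nat_lit 12741) (nat_lit 15) (nat_lit 2))))
  (@Cl.mk (nat_lit 0x20005000b0004000b000a000e000500020005000d0006000b0003000e000c) (nat_lit 0x10826000502069) (nat_lit 16) Lb.e (@T16.mk En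
    (@En.i (nat_lit 12116) (nat_lit 9) (nat_lit 12))
    (@En.i (nat_lit 12746) (nat_lit 10) (nat_lit 14))
    (@En.n l9105 (nat_lit 12740) (nat_lit 10) (nat_lit 3))
    (@En.n l20006 (nat_lit 999) (nat_lit 3) (nat_lit 11))
    (@En.n l2805 (nat_lit 12373) (nat_lit 4) (nat_lit 6))
    (@En.n l14827 (nat_lit 7258) (nat_lit 6) (nat_lit 13))
    (@En.n l8442 (nat_lit 12649) (nat_lit 6) (nat_lit 5))
    (@En.n l28 (nat_lit 12742) (nat_lit 7) (nat_lit 2))
    (@En.n l5933 (nat_lit 12606) (nat_lit 8) (nat_lit 5))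
    (@En.n l50 (nat_lit 12743) (nat_lit 10) (nat_lit 14))
    (@En.n l2579 (nat_lit 12744) (nat_lit 11) (nat_lit 10))
    (@En.n l14827 (nat_lit 1075) (nat_lit 3) (nat_lit 11))
    (@En.n l1997 (nat_lit 11918) (nat_lit 4) (nat_lit 4))
    (@En.i (nat_lit 6115) (nat_lit 14) (nat_lit 11))
    (@En.n l1997 (nat_lit 12658) (nat_lit 6) (nat_lit 5))
    (@En.n l3 (nat_lit 12742) (nat_lit 15) (nat_lit 2))))
  (@Cl.mk (nat_lit 0x20005000c0004000b000e00040002000d0005000d0003000b0003000e000c) (nat_lit 0x10250050808088) (nat_lit 16) Lb.e (@T16.mk En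
    (@En.i (nat_lit 12766) (nat_lit 8) (nat_lit 12))
    (@En.i (nat_lit 12745) (nat_lit 1) (nat_lit 14))
    (@En.n l28448 (nat_lit 12741) (nat_lit 2) (nat_lit 3))
    (@En.i (nat_lit 995) (nat_lit 3) (nat_lit 11))
    (@En.n l2869 (nat_lit 12744) (nat_lit 4) (nat_lit 3))
    (@En.n l1997 (nat_lit 5896) (nat_lit 6) (nat_lit 13))
    (@En.i (nat_lit 12742) (nat_lit 6) (nat_lit 5))
    (@En.n l1997 (nat_lit 12695) (nat_lit 8) (nat_lit 13))
    (@En.n l28 (nat_lit 12743) (nat_lit 8) (nat_lit 2))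
    (@En.n l5933 (nat_lit 12748) (nat_lit 9) (nat_lit 4))
    (@En.i (nat_lit 3548) (nat_lit 11) (nat_lit 14))
    (@En.n l1997 (nat_lit 1061) (nat_lit 12) (nat_lit 11))
    (@En.n l1997 (nat_lit 11914) (nat_lit 3) (nat_lit 4))
    (@En.i (nat_lit 5665) (nat_lit 14) (nat_lit 12))
    (@En.n l1643 (nat_lit 33) (nat_lit 5) (nat_lit 5))
    (@En.n l3 (nat_lit 12743) (nat_lit 15) (nat_lit 2))))
  (@Cl.mk (nat_lit 0x20005000c0004000a000e00040002000d000c00060003000b0004000e000c) (nat_lit 0x10160057009088) (nat_lit 16) Lb.e (@T16.mk En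
    (@En.n l649 (nat_lit 12767) (nat_lit 8) (nat_lit 12))
    (@En.n l8492 (nat_lit 12747) (nat_lit 1) (nat_lit 14))
    (@En.n l2593 (nat_lit 12511) (nat_lit 2) (nat_lit 4))
    (@En.n l1897 (nat_lit 7787) (nat_lit 3) (nat_lit 11))
    (@En.n l1865 (nat_lit 12743) (nat_lit 4) (nat_lit 3))
    (@En.n l97 (nat_lit 12374) (nat_lit 5) (nat_lit 6))
    (@En.n l1106 (nat_lit 12741) (nat_lit 7) (nat_lit 12))
    (@En.n l1738 (nat_lit 12697) (nat_lit 8) (nat_lit 13))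
    (@En.n l18 (nat_lit 12744) (nat_lit 8) (nat_lit 2))
    (@En.n l5389 (nat_lit 9219) (nat_lit 9) (nat_lit 4))
    (@En.n l1897 (nat_lit 3543) (nat_lit 11) (nat_lit 14))
    (@En.i (nat_lit 6203) (nat_lit 12) (nat_lit 10))
    (@En.i (nat_lit 11912) (nat_lit 3) (nat_lit 4))
    (@En.i (nat_lit 5656) (nat_lit 14) (nat_lit 12))
    (@En.n l226 (nat_lit 12657) (nat_lit 13) (nat_lit 5))
    (@En.n l28 (nat_lit 12744) (nat_lit 15) (nat_lit 2))))
  (@Cl.mk (nat_lit 0x200060005000c0005000b000e00040002000d0005000a0003000b000e000b) (nat_lit 0x2016007070978) (nat_lit 16) Lb.e (@T16.mk En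
    (@En.n l19865 (nat_lit 12769) (nat_lit 9) (nat_lit 11))
    (@En.n l3030 (nat_lit 11063) (nat_lit 4) (nat_lit 14))
    (@En.i (nat_lit 997) (nat_lit 2) (nat_lit 11))
    (@En.n l19866 (nat_lit 12747) (nat_lit 3) (nat_lit 3))
    (@En.n l5366 (nat_lit 10118) (nat_lit 4) (nat_lit 10))
    (@En.i (nat_lit 12746) (nat_lit 14) (nat_lit 5))
    (@En.i (nat_lit 12698) (nat_lit 7) (nat_lit 13))
    (@En.n l28 (nat_lit 12745) (nat_lit 7) (nat_lit 2))
    (@En.n l8435 (nat_lit 12749) (nat_lit 8) (nat_lit 4))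
    (@En.i (nat_lit 3546) (nat_lit 10) (nat_lit 14))
    (@En.n l5366 (nat_lit 314) (nat_lit 11) (nat_lit 11))
    (@En.i (nat_lit 11916) (nat_lit 3) (nat_lit 5))
    (@En.i (nat_lit 11214) (nat_lit 13) (nat_lit 12))
    (@En.n l725 (nat_lit 12743) (nat_lit 14) (nat_lit 5))
    (@En.i (nat_lit 12765) (nat_lit 6) (nat_lit 6))
    (@En.n l3 (nat_lit 12745) (nat_lit 15) (nat_lit 2))))
  (@Cl.mk (nat_lit 0x20005000a0006000b000e000b000200060005000b0005000b000a000e0005) (nat_lit 0x70156000202270) (nat_lit 16) Lb.e (@T16.mk En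
    (@En.n l8435 (nat_lit 12607) (nat_lit 7) (nat_lit 5))
    (@En.n l50 (nat_lit 12745) (nat_lit 9) (nat_lit 14))
    (@En.n l8436 (nat_lit 12747) (nat_lit 10) (nat_lit 10))
    (@En.n l8437 (nat_lit 1074) (nat_lit 3) (nat_lit 11))
    (@En.n l8438 (nat_lit 11937) (nat_lit 4) (nat_lit 5))
    (@En.i (nat_lit 11217) (nat_lit 13) (nat_lit 11))
    (@En.n l725 (nat_lit 12742) (nat_lit 14) (nat_lit 5))
    (@En.n l2909 (nat_lit 12764) (nat_lit 7) (nat_lit 6))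
    (@En.n l3 (nat_lit 12746) (nat_lit 8) (nat_lit 2))
    (@En.n l8439 (nat_lit 12119) (nat_lit 10) (nat_lit 11))
    (@En.n l8440 (nat_lit 12558) (nat_lit 11) (nat_lit 14))
    (@En.n l2909 (nat_lit 609) (nat_lit 2) (nat_lit 11))
    (@En.n l2912 (nat_lit 12375) (nat_lit 13) (nat_lit 6))
    (@En.n l8441 (nat_lit 7578) (nat_lit 4) (nat_lit 10))
    (@En.n l8442 (nat_lit 25) (nat_lit 5) (nat_lit 5))
    (@En.n l28 (nat_lit 12746) (nat_lit 15) (nat_lit 2))))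
  (@Cl.mk (nat_lit 0x200070005000c0005000a000e00040002000d000900060003000b000e000b) (nat_lit 0x7016008600977) (nat_lit 16) Lb.e (@T16.mk En
    (@En.n l11085 (nat_lit 12772) (nat_lit 9) (nat_lit 11))
    (@En.n l5577 (nat_lit 11059) (nat_lit 4) (nat_lit 14))
    (@En.n l13768 (nat_lit 7789) (nat_lit 2) (nat_lit 11))
    (@En.n l19978 (nat_lit 12745) (nat_lit 3) (nat_lit 3))
    (@En.n l19979 (nat_lit 5622) (nat_lit 4) (nat_lit 6))
    (@En.n l12120 (nat_lit 12839) (nat_lit 5) (nat_lit 9))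
    (@En.i (nat_lit 12703) (nat_lit 7) (nat_lit 13))
    (@En.n l17 (nat_lit 12747) (nat_lit 7) (nat_lit 2))
    (@En.i (nat_lit 12750) (nat_lit 8) (nat_lit 4))
    (@En.n l13768 (nat_lit 3542) (nat_lit 10) (nat_lit 14))
    (@En.n l117 (nat_lit 6204) (nat_lit 11) (nat_lit 10))
    (@En.n l18319 (nat_lit 11913) (nat_lit 3) (nat_lit 5))
    (@En.n l19980 (nat_lit 11212) (nat_lit 13) (nat_lit 12))
    (@En.n l9600 (nat_lit 12744) (nat_lit 14) (nat_lit 5))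
    (@En.n l19981 (nat_lit 12108) (nat_lit 6) (nat_lit 7))
    (@En.n l28 (nat_lit 12747) (nat_lit 15) (nat_lit 2))))
  (@Cl.mk (nat_lit 0x20005000c000c0005000c00040004000d0004000d0003000b0003000e000b) (nat_lit 0x120300708070c9) (nat_lit 16) Lb.e (@T16.mk En
    (@En.n l15253 (nat_lit 12449) (nat_lit 14) (nat_lit 11))
    (@En.n l5 (nat_lit 12749) (nat_lit 1) (nat_lit 14))
    (@En.n l3528 (nat_lit 12756) (nat_lit 2) (nat_lit 3))
    (@En.n l2034 (nat_lit 998) (nat_lit 3) (nat_lit 11))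
    (@En.i (nat_lit 9219) (nat_lit 4) (nat_lit 3))
    (@En.n l649 (nat_lit 5975) (nat_lit 6) (nat_lit 13))
    (@En.i (nat_lit 12606) (nat_lit 6) (nat_lit 4))
    (@En.n l5276 (nat_lit 12699) (nat_lit 8) (nat_lit 13))
    (@En.n l33237 (nat_lit 9221) (nat_lit 8) (nat_lit 4))
    (@En.n l33238 (nat_lit 12035) (nat_lit 9) (nat_lit 4))
    (@En.i (nat_lit 1063) (nat_lit 11) (nat_lit 12))
    (@En.n l7681 (nat_lit 10901) (nat_lit 12) (nat_lit 5))
    (@En.n l886 (nat_lit 12743) (nat_lit 13) (nat_lit 12))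
    (@En.n l5373 (nat_lit 8539) (nat_lit 14) (nat_lit 12))
    (@En.i (nat_lit 12660) (nat_lit 13) (nat_lit 5))
    (@En.n l17 (nat_lit 12748) (nat_lit 15) (nat_lit 2))))
  (@Cl.mk (nat_lit 0x200060005000c000c0006000c00040004000d0004000a0003000b000e000a) (nat_lit 0x53030080603b8) (nat_lit 16) Lb.e (@T16.mk En
    (@En.n l19962 (nat_lit 12450) (nat_lit 13) (nat_lit 10))
    (@En.n l1063 (nat_lit 11060) (nat_lit 4) (nat_lit 14))
    (@En.n l14413 (nat_lit 996) (nat_lit 2) (nat_lit 11))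
    (@En.n l33645 (nat_lit 12750) (nat_lit 3) (nat_lit 3))
    (@En.n l649 (nat_lit 9035) (nat_lit 4) (nat_lit 10))
    (@En.i (nat_lit 12607) (nat_lit 5) (nat_lit 4))
    (@En.n l33646 (nat_lit 12706) (nat_lit 7) (nat_lit 13))
    (@En.n l33647 (nat_lit 12751) (nat_lit 7) (nat_lit 4))
    (@En.n l33648 (nat_lit 12245) (nat_lit 8) (nat_lit 4))
    (@En.i (nat_lit 308) (nat_lit 10) (nat_lit 12))
    (@En.n l27315 (nat_lit 10899) (nat_lit 11) (nat_lit 6))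
    (@En.n l1058 (nat_lit 12745) (nat_lit 12) (nat_lit 12))
    (@En.n l19969 (nat_lit 10856) (nat_lit 13) (nat_lit 12))
    (@En.n l699 (nat_lit 12748) (nat_lit 14) (nat_lit 5))
    (@En.n l17 (nat_lit 12420) (nat_lit 13) (nat_lit 6))
    (@En.n l18 (nat_lit 12749) (nat_lit 15) (nat_lit 2))))
  (@Cl.mk (nat_lit 0x200070005000c000c0006000b00040004000d000900050003000b000e000a) (nat_lit 0x5801008400826) (nat_lit 16) Lb.e (@T16.mk En
    (@En.n l22943 (nat_lit 12455) (nat_lit 13) (nat_lit 10))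
    (@En.n l23137 (nat_lit 11058) (nat_lit 4) (nat_lit 14))
    (@En.n l34198 (nat_lit 7786) (nat_lit 2) (nat_lit 11))
    (@En.n l35684 (nat_lit 12749) (nat_lit 3) (nat_lit 3))
    (@En.n l23137 (nat_lit 5617) (nat_lit 4) (nat_lit 5))
    (@En.n l30590 (nat_lit 11634) (nat_lit 5) (nat_lit 9))
    (@En.n l23694 (nat_lit 12705) (nat_lit 7) (nat_lit 13))
    (@En.n l13043 (nat_lit 9220) (nat_lit 7) (nat_lit 4))
    (@En.n l23137 (nat_lit 12510) (nat_lit 8) (nat_lit 4))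
    (@En.n l23137 (nat_lit 6202) (nat_lit 10) (nat_lit 11))
    (@En.n l34196 (nat_lit 12027) (nat_lit 11) (nat_lit 6))
    (@En.n l61 (nat_lit 12747) (nat_lit 12) (nat_lit 12))
    (@En.n l19980 (nat_lit 10855) (nat_lit 13) (nat_lit 12))
    (@En.n l2477 (nat_lit 9219) (nat_lit 14) (nat_lit 5))
    (@En.n l19981 (nat_lit 9193) (nat_lit 5) (nat_lit 7))
    (@En.n l28 (nat_lit 12750) (nat_lit 15) (nat_lit 2))))
  (@Cl.mk (nat_lit 0x200060005000e000c00020007000d0004000d0003000a0003000b000e0009) (nat_lit 0x9600407050157) (nat_lit 16) Lb.e (@T16.mk En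
    (@En.n l2213 (nat_lit 12494) (nat_lit 5) (nat_lit 9))
    (@En.n l862 (nat_lit 11065) (nat_lit 7) (nat_lit 14))
    (@En.i (nat_lit 1243) (nat_lit 2) (nat_lit 11))
    (@En.n l1353 (nat_lit 9220) (nat_lit 3) (nat_lit 3))
    (@En.n l15197 (nat_lit 9320) (nat_lit 4) (nat_lit 10))
    (@En.n l2220 (nat_lit 12752) (nat_lit 5) (nat_lit 3))
    (@En.i (nat_lit 3670) (nat_lit 7) (nat_lit 13))
    (@En.n l2572 (nat_lit 12236) (nat_lit 7) (nat_lit 4))
    (@En.n l15197 (nat_lit 307) (nat_lit 9) (nat_lit 13))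
    (@En.n l5891 (nat_lit 10197) (nat_lit 10) (nat_lit 7))
    (@En.n l28 (nat_lit 12751) (nat_lit 10) (nat_lit 2))
    (@En.n l15197 (nat_lit 12749) (nat_lit 12) (nat_lit 12))
    (@En.n l2221 (nat_lit 6970) (nat_lit 13) (nat_lit 14))
    (@En.n l5335 (nat_lit 9221) (nat_lit 14) (nat_lit 5))
    (@En.n l2571 (nat_lit 12421) (nat_lit 3) (nat_lit 6))
    (@En.n l3 (nat_lit 12751) (nat_lit 15) (nat_lit 2))))
noncomputable def a797 : T16 Cl := @T16.mk Cl
  (@Cl.mk (nat_lit 0x200060005000e000b00020007000d000c00050003000a0004000b000e0009) (nat_lit 0xb600420050136) (nat_lit 16) Lb.e (@T16.mk En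
    (@En.n l11588 (nat_lit 12398) (nat_lit 5) (nat_lit 9))
    (@En.n l5779 (nat_lit 12621) (nat_lit 7) (nat_lit 14))
    (@En.n l8375 (nat_lit 1245) (nat_lit 2) (nat_lit 11))
    (@En.n l11589 (nat_lit 5788) (nat_lit 8) (nat_lit 4))
    (@En.n l396 (nat_lit 11631) (nat_lit 4) (nat_lit 10))
    (@En.n l5366 (nat_lit 12751) (nat_lit 5) (nat_lit 3))
    (@En.n l11587 (nat_lit 10746) (nat_lit 6) (nat_lit 5))
    (@En.n l1783 (nat_lit 9220) (nat_lit 8) (nat_lit 12))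
    (@En.n l11590 (nat_lit 296) (nat_lit 9) (nat_lit 13))
    (@En.n l253 (nat_lit 10200) (nat_lit 10) (nat_lit 7))
    (@En.n l3 (nat_lit 12752) (nat_lit 10) (nat_lit 2))
    (@En.n l11590 (nat_lit 12607) (nat_lit 12) (nat_lit 11))
    (@En.n l992 (nat_lit 5805) (nat_lit 13) (nat_lit 14))
    (@En.n l7 (nat_lit 12753) (nat_lit 14) (nat_lit 5))
    (@En.n l5812 (nat_lit 11166) (nat_lit 3) (nat_lit 6))
    (@En.n l18 (nat_lit 12752) (nat_lit 15) (nat_lit 2))))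
  (@Cl.mk (nat_lit 0x20005000e000b00020006000d000c00050003000d0004000b0003000e000a) (nat_lit 0xb5004200901046) (nat_lit 16) Lb.e (@T16.mk En
    (@En.n l622 (nat_lit 12397) (nat_lit 4) (nat_lit 10))
    (@En.i (nat_lit 12752) (nat_lit 1) (nat_lit 14))
    (@En.i (nat_lit 12754) (nat_lit 6) (nat_lit 3))
    (@En.n l8375 (nat_lit 1244) (nat_lit 3) (nat_lit 11))
    (@En.i (nat_lit 5789) (nat_lit 4) (nat_lit 4))
    (@En.i (nat_lit 5364) (nat_lit 10) (nat_lit 13))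
    (@En.n l1598 (nat_lit 9221) (nat_lit 6) (nat_lit 3))
    (@En.n l11587 (nat_lit 12602) (nat_lit 7) (nat_lit 5))
    (@En.n l1783 (nat_lit 9217) (nat_lit 9) (nat_lit 12))
    (@En.n l766 (nat_lit 295) (nat_lit 10) (nat_lit 13))
    (@En.n l253 (nat_lit 9753) (nat_lit 11) (nat_lit 6))
    (@En.n l3 (nat_lit 12753) (nat_lit 11) (nat_lit 2))
    (@En.n l766 (nat_lit 12606) (nat_lit 13) (nat_lit 11))
    (@En.n l992 (nat_lit 9103) (nat_lit 1) (nat_lit 14))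
    (@En.i (nat_lit 4036) (nat_lit 2) (nat_lit 5))
    (@En.n l18 (nat_lit 12753) (nat_lit 15) (nat_lit 2))))
  (@Cl.mk (nat_lit 0x20006000d000b00050003000d000a00050003000e000a00020006000e000b) (nat_lit 0x150096004600b5) (nat_lit 16) Lb.e (@T16.mk En
    (@En.n l4285 (nat_lit 12608) (nat_lit 13) (nat_lit 11))
    (@En.n l992 (nat_lit 7835) (nat_lit 1) (nat_lit 14))
    (@En.i (nat_lit 12639) (nat_lit 2) (nat_lit 6))
    (@En.n l18 (nat_lit 12754) (nat_lit 3) (nat_lit 2))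
    (@En.n l622 (nat_lit 5312) (nat_lit 4) (nat_lit 10))
    (@En.n l4286 (nat_lit 12758) (nat_lit 1) (nat_lit 14))
    (@En.n l28 (nat_lit 12753) (nat_lit 2) (nat_lit 3))
    (@En.n l454 (nat_lit 4823) (nat_lit 7) (nat_lit 5))
    (@En.n l77 (nat_lit 12752) (nat_lit 4) (nat_lit 10))
    (@En.i (nat_lit 5365) (nat_lit 10) (nat_lit 13))
    (@En.n l536 (nat_lit 12755) (nat_lit 10) (nat_lit 3))
    (@En.n l4287 (nat_lit 12609) (nat_lit 7) (nat_lit 5))
    (@En.n l343 (nat_lit 8953) (nat_lit 13) (nat_lit 11))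
    (@En.n l766 (nat_lit 298) (nat_lit 10) (nat_lit 13))
    (@En.n l1203 (nat_lit 9767) (nat_lit 11) (nat_lit 6))
    (@En.n l3 (nat_lit 12754) (nat_lit 15) (nat_lit 2))))
  (@Cl.mk (nat_lit 0x20006000d0004000c0003000d000a00040003000e000a00020006000e000c) (nat_lit 0x40609600480092) (nat_lit 16) Lb.e (@T16.mk En
    (@En.n l4130 (nat_lit 12756) (nat_lit 13) (nat_lit 12))
    (@En.n l2369 (nat_lit 8290) (nat_lit 1) (nat_lit 14))
    (@En.i (nat_lit 12593) (nat_lit 2) (nat_lit 6))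
    (@En.n l18 (nat_lit 12755) (nat_lit 3) (nat_lit 2))
    (@En.n l5529 (nat_lit 12485) (nat_lit 4) (nat_lit 10))
    (@En.n l396 (nat_lit 12757) (nat_lit 1) (nat_lit 14))
    (@En.n l11591 (nat_lit 9221) (nat_lit 2) (nat_lit 3))
    (@En.n l313 (nat_lit 8950) (nat_lit 7) (nat_lit 4))
    (@En.n l1783 (nat_lit 12751) (nat_lit 4) (nat_lit 10))
    (@En.i (nat_lit 6048) (nat_lit 10) (nat_lit 13))
    (@En.n l164 (nat_lit 12754) (nat_lit 10) (nat_lit 3))
    (@En.n l3495 (nat_lit 8990) (nat_lit 12) (nat_lit 12))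
    (@En.n l1432 (nat_lit 12238) (nat_lit 8) (nat_lit 4))
    (@En.n l387 (nat_lit 1069) (nat_lit 10) (nat_lit 13))
    (@En.n l1329 (nat_lit 10198) (nat_lit 11) (nat_lit 6))
    (@En.n l3 (nat_lit 12755) (nat_lit 15) (nat_lit 2))))
  (@Cl.mk (nat_lit 0x20006000c000c0005000c00040004000c0004000d000a00040003000e000b) (nat_lit 0x12030060870049) (nat_lit 16) Lb.e (@T16.mk En
    (@En.n l18500 (nat_lit 12451) (nat_lit 14) (nat_lit 11))
    (@En.n l18501 (nat_lit 11066) (nat_lit 1) (nat_lit 14))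
    (@En.n l8258 (nat_lit 12748) (nat_lit 2) (nat_lit 3))
    (@En.n l13792 (nat_lit 8951) (nat_lit 3) (nat_lit 4))
    (@En.n l18502 (nat_lit 12749) (nat_lit 4) (nat_lit 10))
    (@En.i (nat_lit 5903) (nat_lit 6) (nat_lit 13))
    (@En.n l18503 (nat_lit 12608) (nat_lit 6) (nat_lit 4))
    (@En.n l3523 (nat_lit 9990) (nat_lit 8) (nat_lit 12))
    (@En.n l3519 (nat_lit 12755) (nat_lit 12) (nat_lit 4))
    (@En.n l18 (nat_lit 12498) (nat_lit 9) (nat_lit 4))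
    (@En.n l3522 (nat_lit 1068) (nat_lit 11) (nat_lit 12))
    (@En.n l8246 (nat_lit 10885) (nat_lit 1) (nat_lit 5))
    (@En.n l61 (nat_lit 12741) (nat_lit 13) (nat_lit 12))
    (@En.n l649 (nat_lit 8541) (nat_lit 14) (nat_lit 12))
    (@En.i (nat_lit 12583) (nat_lit 13) (nat_lit 6))
    (@En.n l7 (nat_lit 12756) (nat_lit 15) (nat_lit 2))))
  (@Cl.mk (nat_lit 0x200060006000e000c00020007000d0004000c0003000a000a0004000e0009) (nat_lit 0x9a00307054037) (nat_lit 16) Lb.e (@T16.mk En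
    (@En.n l6839 (nat_lit 12266) (nat_lit 5) (nat_lit 9))
    (@En.i (nat_lit 11633) (nat_lit 1) (nat_lit 14))
    (@En.i (nat_lit 8161) (nat_lit 2) (nat_lit 4))
    (@En.n l2345 (nat_lit 11065) (nat_lit 9) (nat_lit 10))
    (@En.i (nat_lit 8165) (nat_lit 4) (nat_lit 10))
    (@En.i (nat_lit 12758) (nat_lit 5) (nat_lit 3))
    (@En.n l6839 (nat_lit 3024) (nat_lit 7) (nat_lit 12))
    (@En.i (nat_lit 12330) (nat_lit 7) (nat_lit 4))
    (@En.n l2348 (nat_lit 2643) (nat_lit 9) (nat_lit 13))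
    (@En.n l2349 (nat_lit 12017) (nat_lit 10) (nat_lit 7))
    (@En.n l3 (nat_lit 12757) (nat_lit 10) (nat_lit 2))
    (@En.n l2348 (nat_lit 11066) (nat_lit 12) (nat_lit 12))
    (@En.n l6444 (nat_lit 11519) (nat_lit 13) (nat_lit 14))
    (@En.n l1353 (nat_lit 12567) (nat_lit 10) (nat_lit 6))
    (@En.n l1784 (nat_lit 12417) (nat_lit 3) (nat_lit 6))
    (@En.n l50 (nat_lit 12757) (nat_lit 15) (nat_lit 2))))
  (@Cl.mk (nat_lit 0x200060006000e000b00020007000d000b00050003000a000a0005000e0009) (nat_lit 0xb300240043036) (nat_lit 16) Lb.e (@T16.mk En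
    (@En.n l2342 (nat_lit 11559) (nat_lit 5) (nat_lit 9))
    (@En.n l2343 (nat_lit 11632) (nat_lit 1) (nat_lit 14))
    (@En.n l2344 (nat_lit 7185) (nat_lit 2) (nat_lit 5))
    (@En.n l2345 (nat_lit 12621) (nat_lit 9) (nat_lit 10))
    (@En.n l2346 (nat_lit 7998) (nat_lit 4) (nat_lit 10))
    (@En.n l11 (nat_lit 12757) (nat_lit 5) (nat_lit 3))
    (@En.n l2347 (nat_lit 11514) (nat_lit 6) (nat_lit 5))
    (@En.n l2344 (nat_lit 8171) (nat_lit 8) (nat_lit 11))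
    (@En.n l2348 (nat_lit 2642) (nat_lit 9) (nat_lit 13))
    (@En.n l2349 (nat_lit 12018) (nat_lit 10) (nat_lit 7))
    (@En.n l3 (nat_lit 12758) (nat_lit 10) (nat_lit 2))
    (@En.n l2348 (nat_lit 11556) (nat_lit 12) (nat_lit 11))
    (@En.n l718 (nat_lit 11518) (nat_lit 13) (nat_lit 14))
    (@En.n l2350 (nat_lit 12759) (nat_lit 2) (nat_lit 6))
    (@En.n l1784 (nat_lit 11167) (nat_lit 3) (nat_lit 6))
    (@En.n l50 (nat_lit 12758) (nat_lit 15) (nat_lit 2))))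
  (@Cl.mk (nat_lit 0x20006000d000a00050003000e000a00020006000e000a00020006000e000b) (nat_lit 0x2400c500c700b5) (nat_lit 16) Lb.e (@T16.mk En
    (@En.i (nat_lit 12760) (nat_lit 13) (nat_lit 11))
    (@En.n l744 (nat_lit 12552) (nat_lit 10) (nat_lit 14))
    (@En.n l745 (nat_lit 12581) (nat_lit 2) (nat_lit 6))
    (@En.n l3 (nat_lit 12759) (nat_lit 3) (nat_lit 2))
    (@En.n l746 (nat_lit 12562) (nat_lit 4) (nat_lit 10))
    (@En.n l747 (nat_lit 11637) (nat_lit 6) (nat_lit 14))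
    (@En.n l748 (nat_lit 12305) (nat_lit 2) (nat_lit 6))
    (@En.n l50 (nat_lit 12759) (nat_lit 7) (nat_lit 2))
    (@En.n l749 (nat_lit 12758) (nat_lit 4) (nat_lit 10))
    (@En.n l750 (nat_lit 12527) (nat_lit 1) (nat_lit 14))
    (@En.n l751 (nat_lit 12567) (nat_lit 2) (nat_lit 3))
    (@En.i (nat_lit 12384) (nat_lit 7) (nat_lit 5))
    (@En.n l748 (nat_lit 12566) (nat_lit 4) (nat_lit 10))
    (@En.n l752 (nat_lit 4770) (nat_lit 10) (nat_lit 13))
    (@En.n l753 (nat_lit 12243) (nat_lit 6) (nat_lit 6))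
    (@En.n l754 (nat_lit 12759) (nat_lit 15) (nat_lit 2))))
  (@Cl.mk (nat_lit 0x20006000b000b0005000c0009000500050004000e000a00020007000e000b) (nat_lit 0x48033000c60048) (nat_lit 16) Lb.e (@T16.mk En
    (@En.n l2481 (nat_lit 11555) (nat_lit 13) (nat_lit 11))
    (@En.n l2482 (nat_lit 11643) (nat_lit 1) (nat_lit 14))
    (@En.n l2483 (nat_lit 12302) (nat_lit 2) (nat_lit 7))
    (@En.n l50 (nat_lit 12760) (nat_lit 3) (nat_lit 2))
    (@En.n l2484 (nat_lit 11556) (nat_lit 4) (nat_lit 10))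
    (@En.n l2485 (nat_lit 12528) (nat_lit 1) (nat_lit 14))
    (@En.n l2486 (nat_lit 11502) (nat_lit 6) (nat_lit 4))
    (@En.n l2487 (nat_lit 12759) (nat_lit 11) (nat_lit 5))
    (@En.i (nat_lit 12383) (nat_lit 8) (nat_lit 5))
    (@En.n l2488 (nat_lit 12778) (nat_lit 5) (nat_lit 9))
    (@En.n l2489 (nat_lit 3031) (nat_lit 11) (nat_lit 12))
    (@En.n l693 (nat_lit 11012) (nat_lit 7) (nat_lit 5))
    (@En.n l2490 (nat_lit 12761) (nat_lit 5) (nat_lit 11))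
    (@En.n l17 (nat_lit 10748) (nat_lit 10) (nat_lit 11))
    (@En.i (nat_lit 12037) (nat_lit 11) (nat_lit 6))
    (@En.n l3 (nat_lit 12760) (nat_lit 15) (nat_lit 2))))
  (@Cl.mk (nat_lit 0x20005000e000a00020008000e000c00020006000b0004000b0008000e0005) (nat_lit 0xc3046900706260) (nat_lit 16) Lb.e (@T16.mk En
    (@En.n l7456 (nat_lit 12760) (nat_lit 8) (nat_lit 5))
    (@En.n l1690 (nat_lit 12088) (nat_lit 6) (nat_lit 14))
    (@En.n l152 (nat_lit 12779) (nat_lit 11) (nat_lit 8))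
    (@En.i (nat_lit 3028) (nat_lit 3) (nat_lit 11))
    (@En.n l7457 (nat_lit 11696) (nat_lit 4) (nat_lit 4))
    (@En.i (nat_lit 7199) (nat_lit 10) (nat_lit 11))
    (@En.n l7458 (nat_lit 12040) (nat_lit 6) (nat_lit 6))
    (@En.n l11 (nat_lit 12761) (nat_lit 7) (nat_lit 2))
    (@En.n l7088 (nat_lit 12090) (nat_lit 9) (nat_lit 12))
    (@En.n l5011 (nat_lit 12276) (nat_lit 10) (nat_lit 14))
    (@En.n l4659 (nat_lit 11573) (nat_lit 2) (nat_lit 8))
    (@En.n l17 (nat_lit 12761) (nat_lit 11) (nat_lit 2))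
    (@En.n l7459 (nat_lit 12762) (nat_lit 13) (nat_lit 10))
    (@En.i (nat_lit 12530) (nat_lit 6) (nat_lit 14))
    (@En.n l3258 (nat_lit 12566) (nat_lit 13) (nat_lit 5))
    (@En.n l50 (nat_lit 12761) (nat_lit 15) (nat_lit 2))))
  (@Cl.mk (nat_lit 0x20005000a000a0007000e000b000200060006000b0005000b0009000e0005) (nat_lit 0x25058000502480) (nat_lit 16) Lb.e (@T16.mk En
    (@En.n l9106 (nat_lit 11556) (nat_lit 7) (nat_lit 5))
    (@En.n l9107 (nat_lit 12763) (nat_lit 9) (nat_lit 14))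
    (@En.n l9108 (nat_lit 10996) (nat_lit 10) (nat_lit 9))
    (@En.n l9109 (nat_lit 1170) (nat_lit 3) (nat_lit 11))
    (@En.n l9110 (nat_lit 12289) (nat_lit 4) (nat_lit 5))
    (@En.n l9111 (nat_lit 8126) (nat_lit 13) (nat_lit 11))
    (@En.n l9112 (nat_lit 12761) (nat_lit 6) (nat_lit 6))
    (@En.n l9111 (nat_lit 12735) (nat_lit 7) (nat_lit 6))
    (@En.n l3 (nat_lit 12762) (nat_lit 8) (nat_lit 2))
    (@En.n l9113 (nat_lit 11557) (nat_lit 10) (nat_lit 11))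
    (@En.n l9114 (nat_lit 12840) (nat_lit 11) (nat_lit 14))
    (@En.i (nat_lit 7172) (nat_lit 2) (nat_lit 7))
    (@En.n l9115 (nat_lit 12558) (nat_lit 13) (nat_lit 10))
    (@En.n l9116 (nat_lit 7999) (nat_lit 4) (nat_lit 10))
    (@En.n l9117 (nat_lit 12561) (nat_lit 13) (nat_lit 5))
    (@En.n l7 (nat_lit 12762) (nat_lit 15) (nat_lit 2))))
  (@Cl.mk (nat_lit 0x200060006000c0005000b000e00040002000c0005000a000a0004000e000b) (nat_lit 0x5017007036079) (nat_lit 16) Lb.e (@T16.mk En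
    (@En.i (nat_lit 12087) (nat_lit 9) (nat_lit 11))
    (@En.n l7085 (nat_lit 12839) (nat_lit 1) (nat_lit 14))
    (@En.n l2511 (nat_lit 10989) (nat_lit 2) (nat_lit 4))
    (@En.n l1504 (nat_lit 11063) (nat_lit 6) (nat_lit 10))
    (@En.n l253 (nat_lit 10931) (nat_lit 4) (nat_lit 10))
    (@En.n l9364 (nat_lit 12762) (nat_lit 14) (nat_lit 5))
    (@En.i (nat_lit 12515) (nat_lit 7) (nat_lit 12))
    (@En.n l17 (nat_lit 12763) (nat_lit 7) (nat_lit 2))
    (@En.n l16481 (nat_lit 11066) (nat_lit 8) (nat_lit 4))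
    (@En.n l2511 (nat_lit 2548) (nat_lit 10) (nat_lit 14))
    (@En.i (nat_lit 2646) (nat_lit 11) (nat_lit 11))
    (@En.i (nat_lit 12105) (nat_lit 3) (nat_lit 5))
    (@En.n l6727 (nat_lit 8127) (nat_lit 13) (nat_lit 12))
    (@En.n l16482 (nat_lit 12088) (nat_lit 10) (nat_lit 6))
    (@En.n l4960 (nat_lit 12734) (nat_lit 6) (nat_lit 6))
    (@En.n l28 (nat_lit 12763) (nat_lit 15) (nat_lit 2))))
  (@Cl.mk (nat_lit 0x20005000a000d0007000c0003000c00060004000b0004000b0009000e0005) (nat_lit 0x76020900402250) (nat_lit 16) Lb.e (@T16.mk En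
    (@En.n l641 (nat_lit 11838) (nat_lit 6) (nat_lit 5))
    (@En.n l17603 (nat_lit 12765) (nat_lit 1) (nat_lit 14))
    (@En.n l19853 (nat_lit 12108) (nat_lit 2) (nat_lit 9))
    (@En.n l9006 (nat_lit 1076) (nat_lit 3) (nat_lit 11))
    (@En.n l1652 (nat_lit 11900) (nat_lit 4) (nat_lit 4))
    (@En.n l8402 (nat_lit 6120) (nat_lit 6) (nat_lit 11))
    (@En.i (nat_lit 12659) (nat_lit 6) (nat_lit 4))
    (@En.n l19924 (nat_lit 11909) (nat_lit 7) (nat_lit 6))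
    (@En.n l197 (nat_lit 12636) (nat_lit 9) (nat_lit 12))
    (@En.n l19925 (nat_lit 12735) (nat_lit 9) (nat_lit 3))
    (@En.i (nat_lit 1002) (nat_lit 11) (nat_lit 12))
    (@En.n l19926 (nat_lit 11304) (nat_lit 12) (nat_lit 7))
    (@En.n l8402 (nat_lit 12742) (nat_lit 5) (nat_lit 13))
    (@En.n l19927 (nat_lit 11169) (nat_lit 14) (nat_lit 10))
    (@En.n l19928 (nat_lit 12267) (nat_lit 13) (nat_lit 5))
    (@En.n l18 (nat_lit 12764) (nat_lit 15) (nat_lit 2))))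
  (@Cl.mk (nat_lit 0x2000c0005000a000d0004000c0003000c00060004000c0004000b000e0004) (nat_lit 0x507902080040240) (nat_lit 16) Lb.e (@T16.mk En
    (@En.n l6152 (nat_lit 12420) (nat_lit 7) (nat_lit 4))
    (@En.i (nat_lit 7339) (nat_lit 4) (nat_lit 14))
    (@En.n l6150 (nat_lit 1062) (nat_lit 2) (nat_lit 11))
    (@En.n l19993 (nat_lit 11897) (nat_lit 3) (nat_lit 4))
    (@En.i (nat_lit 6122) (nat_lit 0) (nat_lit 12))
    (@En.n l3340 (nat_lit 12660) (nat_lit 5) (nat_lit 4))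
    (@En.n l15766 (nat_lit 11908) (nat_lit 6) (nat_lit 6))
    (@En.n l4991 (nat_lit 12634) (nat_lit 8) (nat_lit 12))
    (@En.n l28448 (nat_lit 12734) (nat_lit 8) (nat_lit 3))
    (@En.n l3340 (nat_lit 1000) (nat_lit 10) (nat_lit 12))
    (@En.n l3187 (nat_lit 9285) (nat_lit 10) (nat_lit 4))
    (@En.i (nat_lit 12743) (nat_lit 5) (nat_lit 13))
    (@En.n l5366 (nat_lit 6399) (nat_lit 13) (nat_lit 10))
    (@En.n l2909 (nat_lit 12764) (nat_lit 14) (nat_lit 5))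
    (@En.n l1997 (nat_lit 9675) (nat_lit 3) (nat_lit 12))
    (@En.n l28 (nat_lit 12765) (nat_lit 15) (nat_lit 2))))
  (@Cl.mk (nat_lit 0x2000d0005000d0003000c0003000c000c0004000b00040004000b000e0005) (nat_lit 0x4090207a0100360) (nat_lit 16) Lb.e (@T16.mk En
    (@En.n l14821 (nat_lit 12449) (nat_lit 6) (nat_lit 5))
    (@En.i (nat_lit 4033) (nat_lit 4) (nat_lit 14))
    (@En.n l476 (nat_lit 12765) (nat_lit 2) (nat_lit 11))
    (@En.n l152 (nat_lit 12743) (nat_lit 12) (nat_lit 4))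
    (@En.n l14823 (nat_lit 11026) (nat_lit 4) (nat_lit 4))
    (@En.i (nat_lit 5663) (nat_lit 0) (nat_lit 11))
    (@En.n l1643 (nat_lit 12661) (nat_lit 6) (nat_lit 4))
    (@En.n l28715 (nat_lit 12497) (nat_lit 4) (nat_lit 12))
    (@En.n l5372 (nat_lit 12326) (nat_lit 9) (nat_lit 12))
    (@En.n l2364 (nat_lit 12768) (nat_lit 9) (nat_lit 3))
    (@En.i (nat_lit 992) (nat_lit 11) (nat_lit 12))
    (@En.i (nat_lit 12767) (nat_lit 11) (nat_lit 3))
    (@En.n l1997 (nat_lit 5897) (nat_lit 0) (nat_lit 13))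
    (@En.i (nat_lit 12116) (nat_lit 14) (nat_lit 5))
    (@En.i (nat_lit 12694) (nat_lit 2) (nat_lit 13))
    (@En.n l28 (nat_lit 12766) (nat_lit 15) (nat_lit 2))))
  (@Cl.mk (nat_lit 0x2000d000c00060003000c0004000c000c0004000b00040004000a000e0005) (nat_lit 0x4900807a0100260) (nat_lit 16) Lb.e (@T16.mk En
    (@En.n l14821 (nat_lit 9218) (nat_lit 4) (nat_lit 5))
    (@En.i (nat_lit 2869) (nat_lit 1) (nat_lit 14))
    (@En.n l3522 (nat_lit 9285) (nat_lit 2) (nat_lit 10))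
    (@En.n l8258 (nat_lit 12744) (nat_lit 12) (nat_lit 4))
    (@En.n l14823 (nat_lit 11027) (nat_lit 4) (nat_lit 4))
    (@En.i (nat_lit 5655) (nat_lit 0) (nat_lit 11))
    (@En.n l18629 (nat_lit 12664) (nat_lit 6) (nat_lit 4))
    (@En.n l28715 (nat_lit 12496) (nat_lit 4) (nat_lit 12))
    (@En.n l11792 (nat_lit 12328) (nat_lit 9) (nat_lit 12))
    (@En.n l14825 (nat_lit 12771) (nat_lit 9) (nat_lit 4))
    (@En.n l1353 (nat_lit 7791) (nat_lit 11) (nat_lit 12))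
    (@En.n l18 (nat_lit 12766) (nat_lit 11) (nat_lit 3))
    (@En.n l11383 (nat_lit 5958) (nat_lit 0) (nat_lit 6))
    (@En.n l6444 (nat_lit 12768) (nat_lit 14) (nat_lit 12))
    (@En.i (nat_lit 12440) (nat_lit 2) (nat_lit 13))
    (@En.n l28 (nat_lit 12767) (nat_lit 15) (nat_lit 2))))
noncomputable def a798 : T16 Cl := @T16.mk Cl
  (@Cl.mk (nat_lit 0x2000c0005000d000b00040003000c000c0005000b00040004000b000e0005) (nat_lit 0x80a2007a0100360) (nat_lit 16) Lb.e (@T16.mk En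
    (@En.n l28310 (nat_lit 12451) (nat_lit 6) (nat_lit 5))
    (@En.i (nat_lit 4034) (nat_lit 4) (nat_lit 14))
    (@En.n l28311 (nat_lit 12734) (nat_lit 2) (nat_lit 11))
    (@En.n l28312 (nat_lit 12741) (nat_lit 12) (nat_lit 4))
    (@En.n l28313 (nat_lit 12072) (nat_lit 4) (nat_lit 4))
    (@En.i (nat_lit 6103) (nat_lit 0) (nat_lit 11))
    (@En.n l49 (nat_lit 12359) (nat_lit 6) (nat_lit 5))
    (@En.n l28314 (nat_lit 12770) (nat_lit 4) (nat_lit 12))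
    (@En.n l4925 (nat_lit 12813) (nat_lit 9) (nat_lit 12))
    (@En.n l763 (nat_lit 12766) (nat_lit 9) (nat_lit 3))
    (@En.i (nat_lit 8955) (nat_lit 10) (nat_lit 4))
    (@En.n l28315 (nat_lit 12769) (nat_lit 12) (nat_lit 11))
    (@En.n l49 (nat_lit 5892) (nat_lit 13) (nat_lit 13))
    (@En.n l5592 (nat_lit 12117) (nat_lit 14) (nat_lit 5))
    (@En.n l28254 (nat_lit 9289) (nat_lit 10) (nat_lit 12))
    (@En.n l28 (nat_lit 12768) (nat_lit 15) (nat_lit 2))))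
  (@Cl.mk (nat_lit 0x2000d0005000b0003000c000b000b00050004000b00050005000b000e0005) (nat_lit 0x901027900200220) (nat_lit 16) Lb.e (@T16.mk En
    (@En.n l107 (nat_lit 12450) (nat_lit 4) (nat_lit 5))
    (@En.n l14587 (nat_lit 3656) (nat_lit 4) (nat_lit 14))
    (@En.n l9969 (nat_lit 12728) (nat_lit 2) (nat_lit 11))
    (@En.n l14588 (nat_lit 12745) (nat_lit 11) (nat_lit 5))
    (@En.n l7161 (nat_lit 12630) (nat_lit 4) (nat_lit 5))
    (@En.n l14589 (nat_lit 11149) (nat_lit 10) (nat_lit 11))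
    (@En.n l14587 (nat_lit 12766) (nat_lit 6) (nat_lit 4))
    (@En.n l14590 (nat_lit 12634) (nat_lit 7) (nat_lit 5))
    (@En.n l61 (nat_lit 12773) (nat_lit 5) (nat_lit 11))
    (@En.n l7162 (nat_lit 12663) (nat_lit 10) (nat_lit 11))
    (@En.n l9969 (nat_lit 991) (nat_lit 11) (nat_lit 12))
    (@En.n l10792 (nat_lit 12772) (nat_lit 11) (nat_lit 3))
    (@En.n l9875 (nat_lit 6377) (nat_lit 0) (nat_lit 11))
    (@En.n l117 (nat_lit 12119) (nat_lit 14) (nat_lit 5))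
    (@En.i (nat_lit 12687) (nat_lit 2) (nat_lit 13))
    (@En.n l67 (nat_lit 12769) (nat_lit 15) (nat_lit 2))))
  (@Cl.mk (nat_lit 0x2000b000e00060002000c0005000d000c00040003000c0004000a000e0004) (nat_lit 0x470090ba0090170) (nat_lit 16) Lb.e (@T16.mk En
    (@En.n l20921 (nat_lit 12768) (nat_lit 4) (nat_lit 4))
    (@En.i (nat_lit 4055) (nat_lit 6) (nat_lit 14))
    (@En.n l1455 (nat_lit 6102) (nat_lit 2) (nat_lit 10))
    (@En.n l7 (nat_lit 10098) (nat_lit 7) (nat_lit 4))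
    (@En.n l5369 (nat_lit 10983) (nat_lit 9) (nat_lit 12))
    (@En.n l7 (nat_lit 12497) (nat_lit 5) (nat_lit 3))
    (@En.n l1362 (nat_lit 12810) (nat_lit 6) (nat_lit 4))
    (@En.n l644 (nat_lit 12773) (nat_lit 8) (nat_lit 12))
    (@En.n l9956 (nat_lit 5898) (nat_lit 9) (nat_lit 13))
    (@En.n l117 (nat_lit 12115) (nat_lit 14) (nat_lit 5))
    (@En.i (nat_lit 9283) (nat_lit 11) (nat_lit 12))
    (@En.n l67 (nat_lit 12770) (nat_lit 11) (nat_lit 2))
    (@En.n l107 (nat_lit 12489) (nat_lit 13) (nat_lit 6))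
    (@En.n l4660 (nat_lit 4031) (nat_lit 4) (nat_lit 14))
    (@En.i (nat_lit 11902) (nat_lit 2) (nat_lit 11))
    (@En.n l17 (nat_lit 12770) (nat_lit 15) (nat_lit 2))))
  (@Cl.mk (nat_lit 0x2000c000c000a000700040004000c000c0006000b000400040009000e0005) (nat_lit 0x357000740100360) (nat_lit 16) Lb.e (@T16.mk En
    (@En.n l19274 (nat_lit 8952) (nat_lit 5) (nat_lit 5))
    (@En.n l134 (nat_lit 2870) (nat_lit 1) (nat_lit 14))
    (@En.n l2869 (nat_lit 8895) (nat_lit 2) (nat_lit 9))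
    (@En.n l8258 (nat_lit 12511) (nat_lit 12) (nat_lit 4))
    (@En.n l4189 (nat_lit 12802) (nat_lit 4) (nat_lit 4))
    (@En.n l55 (nat_lit 4067) (nat_lit 0) (nat_lit 11))
    (@En.n l5311 (nat_lit 5953) (nat_lit 6) (nat_lit 6))
    (@En.n l9976 (nat_lit 12775) (nat_lit 4) (nat_lit 12))
    (@En.n l33381 (nat_lit 11436) (nat_lit 9) (nat_lit 12))
    (@En.n l10753 (nat_lit 12776) (nat_lit 12) (nat_lit 4))
    (@En.n l34951 (nat_lit 12768) (nat_lit 10) (nat_lit 4))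
    (@En.i (nat_lit 4510) (nat_lit 12) (nat_lit 7))
    (@En.n l34952 (nat_lit 12772) (nat_lit 13) (nat_lit 10))
    (@En.n l34953 (nat_lit 8955) (nat_lit 14) (nat_lit 12))
    (@En.n l4780 (nat_lit 9730) (nat_lit 10) (nat_lit 12))
    (@En.n l7 (nat_lit 12771) (nat_lit 15) (nat_lit 2))))
  (@Cl.mk (nat_lit 0x2000d000a00060003000c000b000b00060004000b00050005000a000e0005) (nat_lit 0x9600a6900200220) (nat_lit 16) Lb.e (@T16.mk En
    (@En.n l14691 (nat_lit 12455) (nat_lit 4) (nat_lit 5))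
    (@En.n l3528 (nat_lit 3655) (nat_lit 1) (nat_lit 14))
    (@En.n l14692 (nat_lit 9283) (nat_lit 2) (nat_lit 10))
    (@En.n l14693 (nat_lit 12747) (nat_lit 11) (nat_lit 5))
    (@En.n l10541 (nat_lit 12633) (nat_lit 4) (nat_lit 5))
    (@En.n l4960 (nat_lit 11111) (nat_lit 10) (nat_lit 11))
    (@En.n l3528 (nat_lit 12767) (nat_lit 6) (nat_lit 4))
    (@En.n l14694 (nat_lit 12109) (nat_lit 7) (nat_lit 6))
    (@En.n l10898 (nat_lit 12774) (nat_lit 5) (nat_lit 11))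
    (@En.n l14695 (nat_lit 12666) (nat_lit 10) (nat_lit 11))
    (@En.n l10976 (nat_lit 7792) (nat_lit 11) (nat_lit 12))
    (@En.n l12190 (nat_lit 12769) (nat_lit 11) (nat_lit 3))
    (@En.n l12146 (nat_lit 12342) (nat_lit 0) (nat_lit 6))
    (@En.n l12191 (nat_lit 11137) (nat_lit 14) (nat_lit 10))
    (@En.n l9337 (nat_lit 12441) (nat_lit 2) (nat_lit 13))
    (@En.n l18 (nat_lit 12772) (nat_lit 15) (nat_lit 2))))
  (@Cl.mk (nat_lit 0x2000b000e00060002000d0005000c0003000d000b00040003000a000e0005) (nat_lit 0x4200a090a800260) (nat_lit 16) Lb.e (@T16.mk En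
    (@En.i (nat_lit 12769) (nat_lit 4) (nat_lit 5))
    (@En.i (nat_lit 3753) (nat_lit 6) (nat_lit 14))
    (@En.n l830 (nat_lit 11143) (nat_lit 2) (nat_lit 10))
    (@En.n l50 (nat_lit 12497) (nat_lit 3) (nat_lit 3))
    (@En.i (nat_lit 12834) (nat_lit 0) (nat_lit 4))
    (@En.n l7162 (nat_lit 11026) (nat_lit 10) (nat_lit 11))
    (@En.n l4660 (nat_lit 1236) (nat_lit 11) (nat_lit 13))
    (@En.i (nat_lit 12774) (nat_lit 7) (nat_lit 3))
    (@En.n l1865 (nat_lit 9123) (nat_lit 9) (nat_lit 12))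
    (@En.n l117 (nat_lit 12118) (nat_lit 14) (nat_lit 5))
    (@En.i (nat_lit 12667) (nat_lit 11) (nat_lit 13))
    (@En.n l67 (nat_lit 12773) (nat_lit 11) (nat_lit 2))
    (@En.n l107 (nat_lit 12491) (nat_lit 13) (nat_lit 6))
    (@En.n l4660 (nat_lit 4032) (nat_lit 4) (nat_lit 14))
    (@En.i (nat_lit 11906) (nat_lit 2) (nat_lit 11))
    (@En.n l17 (nat_lit 12773) (nat_lit 15) (nat_lit 2))))
  (@Cl.mk (nat_lit 0x2000a000e00060002000d000b00060003000d000b00050003000a000e0005) (nat_lit 0x3100a500a800220) (nat_lit 16) Lb.e (@T16.mk En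
    (@En.n l10792 (nat_lit 12772) (nat_lit 4) (nat_lit 5))
    (@En.i (nat_lit 3754) (nat_lit 1) (nat_lit 14))
    (@En.n l830 (nat_lit 11145) (nat_lit 2) (nat_lit 10))
    (@En.n l50 (nat_lit 12496) (nat_lit 3) (nat_lit 3))
    (@En.n l1422 (nat_lit 5750) (nat_lit 4) (nat_lit 5))
    (@En.n l7162 (nat_lit 11027) (nat_lit 10) (nat_lit 11))
    (@En.n l1798 (nat_lit 5688) (nat_lit 11) (nat_lit 13))
    (@En.n l28 (nat_lit 12773) (nat_lit 7) (nat_lit 3))
    (@En.n l12617 (nat_lit 5957) (nat_lit 8) (nat_lit 6))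
    (@En.i (nat_lit 10098) (nat_lit 14) (nat_lit 11))
    (@En.n l14731 (nat_lit 12679) (nat_lit 11) (nat_lit 13))
    (@En.n l67 (nat_lit 12774) (nat_lit 11) (nat_lit 2))
    (@En.n l107 (nat_lit 12492) (nat_lit 13) (nat_lit 6))
    (@En.n l4660 (nat_lit 2861) (nat_lit 1) (nat_lit 14))
    (@En.n l1236 (nat_lit 9280) (nat_lit 2) (nat_lit 10))
    (@En.n l17 (nat_lit 12774) (nat_lit 15) (nat_lit 2))))
  (@Cl.mk (nat_lit 0x20009000e00060002000c000c000b000700040004000c0005000a000e0004) (nat_lit 0x570035600030880) (nat_lit 16) Lb.e (@T16.mk En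
    (@En.n l22266 (nat_lit 12771) (nat_lit 4) (nat_lit 4))
    (@En.i (nat_lit 4097) (nat_lit 6) (nat_lit 14))
    (@En.n l5132 (nat_lit 6100) (nat_lit 2) (nat_lit 10))
    (@En.i (nat_lit 5722) (nat_lit 3) (nat_lit 5))
    (@En.n l4147 (nat_lit 11434) (nat_lit 9) (nat_lit 12))
    (@En.n l152 (nat_lit 12777) (nat_lit 5) (nat_lit 4))
    (@En.n l17576 (nat_lit 12770) (nat_lit 6) (nat_lit 4))
    (@En.n l9903 (nat_lit 4507) (nat_lit 7) (nat_lit 7))
    (@En.n l13443 (nat_lit 12774) (nat_lit 9) (nat_lit 11))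
    (@En.n l34315 (nat_lit 12810) (nat_lit 10) (nat_lit 12))
    (@En.n l32213 (nat_lit 9284) (nat_lit 11) (nat_lit 12))
    (@En.n l17 (nat_lit 12775) (nat_lit 11) (nat_lit 2))
    (@En.n l3503 (nat_lit 5818) (nat_lit 13) (nat_lit 6))
    (@En.n l34316 (nat_lit 2865) (nat_lit 1) (nat_lit 14))
    (@En.n l34317 (nat_lit 8890) (nat_lit 2) (nat_lit 9))
    (@En.n l7 (nat_lit 12775) (nat_lit 15) (nat_lit 2))))
  (@Cl.mk (nat_lit 0x2000b00080004000c000c0005000b000400040008000e00050002000e000c) (nat_lit 0x910990100360084) (nat_lit 16) Lb.e (@T16.mk En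
    (@En.n l3850 (nat_lit 12771) (nat_lit 14) (nat_lit 12))
    (@En.i (nat_lit 8198) (nat_lit 1) (nat_lit 14))
    (@En.n l18 (nat_lit 12776) (nat_lit 2) (nat_lit 2))
    (@En.n l3506 (nat_lit 9213) (nat_lit 3) (nat_lit 5))
    (@En.n l2572 (nat_lit 2867) (nat_lit 5) (nat_lit 14))
    (@En.n l564 (nat_lit 8868) (nat_lit 5) (nat_lit 8))
    (@En.n l7 (nat_lit 12808) (nat_lit 12) (nat_lit 4))
    (@En.n l7690 (nat_lit 12806) (nat_lit 7) (nat_lit 4))
    (@En.i (nat_lit 5993) (nat_lit 9) (nat_lit 11))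
    (@En.n l11082 (nat_lit 12385) (nat_lit 9) (nat_lit 5))
    (@En.n l19680 (nat_lit 12777) (nat_lit 4) (nat_lit 12))
    (@En.i (nat_lit 9925) (nat_lit 12) (nat_lit 12))
    (@En.n l4018 (nat_lit 12767) (nat_lit 9) (nat_lit 4))
    (@En.n l18840 (nat_lit 4512) (nat_lit 14) (nat_lit 8))
    (@En.i (nat_lit 7793) (nat_lit 12) (nat_lit 11))
    (@En.n l3 (nat_lit 12776) (nat_lit 15) (nat_lit 2))))
  (@Cl.mk (nat_lit 0x20008000e00060002000e000c0002000c00080004000c0004000a000e0004) (nat_lit 0x4100540a1080150) (nat_lit 16) Lb.e (@T16.mk En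
    (@En.n l17662 (nat_lit 12776) (nat_lit 7) (nat_lit 4))
    (@En.i (nat_lit 4100) (nat_lit 9) (nat_lit 14))
    (@En.n l563 (nat_lit 5996) (nat_lit 10) (nat_lit 10))
    (@En.n l11 (nat_lit 5704) (nat_lit 3) (nat_lit 4))
    (@En.n l9904 (nat_lit 9924) (nat_lit 12) (nat_lit 12))
    (@En.n l4112 (nat_lit 12496) (nat_lit 5) (nat_lit 4))
    (@En.n l18620 (nat_lit 4509) (nat_lit 14) (nat_lit 8))
    (@En.n l561 (nat_lit 5689) (nat_lit 12) (nat_lit 12))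
    (@En.n l3 (nat_lit 12777) (nat_lit 8) (nat_lit 2))
    (@En.i (nat_lit 12775) (nat_lit 10) (nat_lit 12))
    (@En.i (nat_lit 8192) (nat_lit 1) (nat_lit 14))
    (@En.n l17 (nat_lit 12777) (nat_lit 11) (nat_lit 2))
    (@En.n l137 (nat_lit 8195) (nat_lit 13) (nat_lit 6))
    (@En.n l561 (nat_lit 2859) (nat_lit 1) (nat_lit 14))
    (@En.n l18621 (nat_lit 8888) (nat_lit 5) (nat_lit 8))
    (@En.n l7 (nat_lit 12777) (nat_lit 15) (nat_lit 2))))
  (@Cl.mk (nat_lit 0x200070005000e000b00020007000c000c0005000900040004000b000e0009) (nat_lit 0xc4004902006b5) (nat_lit 16) Lb.e (@T16.mk En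
    (@En.n l7257 (nat_lit 11056) (nat_lit 5) (nat_lit 9))
    (@En.i (nat_lit 12531) (nat_lit 7) (nat_lit 14))
    (@En.n l4851 (nat_lit 8160) (nat_lit 2) (nat_lit 11))
    (@En.n l7258 (nat_lit 12566) (nat_lit 3) (nat_lit 4))
    (@En.n l7 (nat_lit 12306) (nat_lit 9) (nat_lit 4))
    (@En.i (nat_lit 3974) (nat_lit 5) (nat_lit 9))
    (@En.n l7259 (nat_lit 11417) (nat_lit 6) (nat_lit 5))
    (@En.n l644 (nat_lit 12779) (nat_lit 13) (nat_lit 12))
    (@En.i (nat_lit 10750) (nat_lit 9) (nat_lit 12))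
    (@En.n l3340 (nat_lit 12585) (nat_lit 10) (nat_lit 7))
    (@En.n l11 (nat_lit 12778) (nat_lit 10) (nat_lit 2))
    (@En.i (nat_lit 12083) (nat_lit 12) (nat_lit 11))
    (@En.n l781 (nat_lit 4766) (nat_lit 13) (nat_lit 14))
    (@En.n l6646 (nat_lit 12086) (nat_lit 14) (nat_lit 5))
    (@En.n l7260 (nat_lit 11501) (nat_lit 3) (nat_lit 7))
    (@En.n l17 (nat_lit 12778) (nat_lit 15) (nat_lit 2))))
  (@Cl.mk (nat_lit 0x20007000c00040008000e00040002000b000e0009000200080005000e000c) (nat_lit 0x8015007b30408a) (nat_lit 16) Lb.e (@T16.mk En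
    (@En.n l1578 (nat_lit 12089) (nat_lit 12) (nat_lit 12))
    (@En.n l781 (nat_lit 4957) (nat_lit 1) (nat_lit 14))
    (@En.i (nat_lit 12088) (nat_lit 14) (nat_lit 5))
    (@En.n l2125 (nat_lit 11569) (nat_lit 3) (nat_lit 8))
    (@En.n l17 (nat_lit 12779) (nat_lit 4) (nat_lit 2))
    (@En.i (nat_lit 10996) (nat_lit 5) (nat_lit 9))
    (@En.i (nat_lit 12533) (nat_lit 7) (nat_lit 14))
    (@En.n l253 (nat_lit 8163) (nat_lit 2) (nat_lit 11))
    (@En.n l50 (nat_lit 12779) (nat_lit 8) (nat_lit 2))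
    (@En.i (nat_lit 12778) (nat_lit 4) (nat_lit 4))
    (@En.n l2544 (nat_lit 2492) (nat_lit 6) (nat_lit 14))
    (@En.i (nat_lit 3975) (nat_lit 6) (nat_lit 8))
    (@En.i (nat_lit 11691) (nat_lit 7) (nat_lit 4))
    (@En.i (nat_lit 7500) (nat_lit 9) (nat_lit 12))
    (@En.n l3340 (nat_lit 12370) (nat_lit 5) (nat_lit 7))
    (@En.n l11 (nat_lit 12779) (nat_lit 15) (nat_lit 2))))
  (@Cl.mk (nat_lit 0x200080005000c0005000a000e000400020008000e00060002000b000e000b) (nat_lit 0x302066004b00363) (nat_lit 16) Lb.e (@T16.mk En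
    (@En.n l26973 (nat_lit 10999) (nat_lit 9) (nat_lit 11))
    (@En.n l7233 (nat_lit 12539) (nat_lit 10) (nat_lit 14))
    (@En.i (nat_lit 10988) (nat_lit 2) (nat_lit 11))
    (@En.n l3 (nat_lit 12780) (nat_lit 3) (nat_lit 2))
    (@En.n l18234 (nat_lit 12259) (nat_lit 4) (nat_lit 6))
    (@En.i (nat_lit 2637) (nat_lit 6) (nat_lit 14))
    (@En.n l14148 (nat_lit 11033) (nat_lit 6) (nat_lit 8))
    (@En.n l50 (nat_lit 12780) (nat_lit 7) (nat_lit 2))
    (@En.n l7234 (nat_lit 12089) (nat_lit 8) (nat_lit 4))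
    (@En.n l2544 (nat_lit 3540) (nat_lit 10) (nat_lit 14))
    (@En.i (nat_lit 4806) (nat_lit 2) (nat_lit 10))
    (@En.n l7490 (nat_lit 11370) (nat_lit 3) (nat_lit 5))
    (@En.n l1353 (nat_lit 11230) (nat_lit 9) (nat_lit 12))
    (@En.n l61 (nat_lit 12091) (nat_lit 14) (nat_lit 5))
    (@En.n l1353 (nat_lit 8065) (nat_lit 6) (nat_lit 8))
    (@En.n l11 (nat_lit 12780) (nat_lit 15) (nat_lit 2))))
  (@Cl.mk (nat_lit 0x2000200090008000d0008000e000300020007000e000800020008000e000e) (nat_lit 0x23456000400345) (nat_lit 16) Lb.e (@T16.mk En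
    (@En.n l97 (nat_lit 12781) (nat_lit 1) (nat_lit 14))
    (@En.i (nat_lit 5448) (nat_lit 10) (nat_lit 14))
    (@En.n l12896 (nat_lit 13838) (nat_lit 2) (nat_lit 8))
    (@En.n l17 (nat_lit 12781) (nat_lit 3) (nat_lit 2))
    (@En.n l2805 (nat_lit 12786) (nat_lit 4) (nat_lit 8))
    (@En.n l998 (nat_lit 13049) (nat_lit 6) (nat_lit 14))
    (@En.n l4172 (nat_lit 13601) (nat_lit 6) (nat_lit 7))
    (@En.n l7 (nat_lit 12781) (nat_lit 7) (nat_lit 2))
    (@En.i (nat_lit 12782) (nat_lit 8) (nat_lit 3))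
    (@En.n l5592 (nat_lit 13820) (nat_lit 10) (nat_lit 14))
    (@En.i (nat_lit 12960) (nat_lit 11) (nat_lit 8))
    (@En.i (nat_lit 13131) (nat_lit 12) (nat_lit 13))
    (@En.n l2579 (nat_lit 13271) (nat_lit 13) (nat_lit 8))
    (@En.n l998 (nat_lit 1962) (nat_lit 5) (nat_lit 9))
    (@En.n l107 (nat_lit 12781) (nat_lit 14) (nat_lit 2))
    (@En.n l3 (nat_lit 12781) (nat_lit 15) (nat_lit 2))))
  (@Cl.mk (nat_lit 0x2000200090008000d000d0009000300030007000e000800020007000e000e) (nat_lit 0x33455000a00045) (nat_lit 16) Lb.e (@T16.mk En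
    (@En.n l97 (nat_lit 12782) (nat_lit 1) (nat_lit 14))
    (@En.i (nat_lit 5445) (nat_lit 1) (nat_lit 14))
    (@En.n l1490 (nat_lit 13332) (nat_lit 2) (nat_lit 7))
    (@En.n l17 (nat_lit 12782) (nat_lit 3) (nat_lit 2))
    (@En.n l1430 (nat_lit 12784) (nat_lit 4) (nat_lit 8))
    (@En.n l998 (nat_lit 13050) (nat_lit 6) (nat_lit 14))
    (@En.n l13081 (nat_lit 13598) (nat_lit 6) (nat_lit 7))
    (@En.n l11251 (nat_lit 12783) (nat_lit 7) (nat_lit 3))
    (@En.n l28 (nat_lit 12781) (nat_lit 8) (nat_lit 3))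
    (@En.n l436 (nat_lit 13705) (nat_lit 10) (nat_lit 9))
    (@En.n l77 (nat_lit 12781) (nat_lit 11) (nat_lit 13))
    (@En.i (nat_lit 13129) (nat_lit 12) (nat_lit 13))
    (@En.n l2579 (nat_lit 13270) (nat_lit 13) (nat_lit 8))
    (@En.n l998 (nat_lit 1963) (nat_lit 10) (nat_lit 9))
    (@En.n l107 (nat_lit 12782) (nat_lit 14) (nat_lit 2))
    (@En.n l3 (nat_lit 12782) (nat_lit 15) (nat_lit 2))))
  (@Cl.mk (nat_lit 0x2000200090008000e000d0002000a00030007000e000800020006000e000e) (nat_lit 0x234506009000bc) (nat_lit 16) Lb.e (@T16.mk En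
    (@En.n l5 (nat_lit 12783) (nat_lit 1) (nat_lit 14))
    (@En.n l427 (nat_lit 5451) (nat_lit 8) (nat_lit 14))
    (@En.n l564 (nat_lit 13294) (nat_lit 2) (nat_lit 6))
    (@En.n l7 (nat_lit 12783) (nat_lit 3) (nat_lit 2))
    (@En.n l28 (nat_lit 12785) (nat_lit 4) (nat_lit 8))
    (@En.n l95 (nat_lit 13052) (nat_lit 6) (nat_lit 14))
    (@En.n l4698 (nat_lit 13648) (nat_lit 6) (nat_lit 7))
    (@En.n l427 (nat_lit 12782) (nat_lit 7) (nat_lit 3))
    (@En.i (nat_lit 13392) (nat_lit 9) (nat_lit 10))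
    (@En.n l3 (nat_lit 12783) (nat_lit 9) (nat_lit 2))
    (@En.n l1684 (nat_lit 12782) (nat_lit 11) (nat_lit 13))
    (@En.n l95 (nat_lit 13128) (nat_lit 12) (nat_lit 14))
    (@En.i (nat_lit 13275) (nat_lit 13) (nat_lit 8))
    (@En.n l11757 (nat_lit 2071) (nat_lit 10) (nat_lit 9))
    (@En.n l17 (nat_lit 12783) (nat_lit 14) (nat_lit 2))
    (@En.n l18 (nat_lit 12783) (nat_lit 15) (nat_lit 2))))
noncomputable def a799 : T16 Cl := @T16.mk Cl
  (@Cl.mk (nat_lit 0x20002000800080008000d000d000a000300030008000800080006000e000e) (nat_lit 0x22444700060078) (nat_lit 16) Lb.e (@T16.mk En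
    (@En.n l5 (nat_lit 12784) (nat_lit 1) (nat_lit 14))
    (@En.n l649 (nat_lit 2959) (nat_lit 1) (nat_lit 14))
    (@En.n l5016 (nat_lit 13007) (nat_lit 2) (nat_lit 6))
    (@En.n l5017 (nat_lit 12788) (nat_lit 3) (nat_lit 8))
    (@En.n l5018 (nat_lit 12789) (nat_lit 4) (nat_lit 8))
    (@En.n l5019 (nat_lit 12869) (nat_lit 5) (nat_lit 8))
    (@En.n l152 (nat_lit 12785) (nat_lit 6) (nat_lit 3))
    (@En.n l1865 (nat_lit 12786) (nat_lit 7) (nat_lit 3))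
    (@En.n l5020 (nat_lit 13703) (nat_lit 9) (nat_lit 10))
    (@En.n l1867 (nat_lit 12786) (nat_lit 10) (nat_lit 13))
    (@En.n l5021 (nat_lit 13786) (nat_lit 11) (nat_lit 13))
    (@En.n l2823 (nat_lit 12782) (nat_lit 12) (nat_lit 8))
    (@En.n l55 (nat_lit 12787) (nat_lit 13) (nat_lit 8))
    (@En.n l5022 (nat_lit 2068) (nat_lit 14) (nat_lit 8))
    (@En.n l17 (nat_lit 12784) (nat_lit 14) (nat_lit 2))
    (@En.n l18 (nat_lit 12784) (nat_lit 15) (nat_lit 2))))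
  (@Cl.mk (nat_lit 0x20002000800080008000e000d0002000b00030008000800080005000e000e) (nat_lit 0x224b5080060012) (nat_lit 16) Lb.e (@T16.mk En
    (@En.n l5 (nat_lit 12785) (nat_lit 1) (nat_lit 14))
    (@En.n l6295 (nat_lit 50) (nat_lit 1) (nat_lit 14))
    (@En.n l6357 (nat_lit 13744) (nat_lit 2) (nat_lit 5))
    (@En.n l6096 (nat_lit 12863) (nat_lit 3) (nat_lit 8))
    (@En.n l13062 (nat_lit 12848) (nat_lit 4) (nat_lit 8))
    (@En.n l12595 (nat_lit 13660) (nat_lit 5) (nat_lit 8))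
    (@En.n l117 (nat_lit 12784) (nat_lit 6) (nat_lit 3))
    (@En.n l12595 (nat_lit 13387) (nat_lit 8) (nat_lit 11))
    (@En.n l3 (nat_lit 12785) (nat_lit 8) (nat_lit 2))
    (@En.i (nat_lit 12784) (nat_lit 10) (nat_lit 13))
    (@En.n l7613 (nat_lit 13901) (nat_lit 11) (nat_lit 14))
    (@En.n l134 (nat_lit 12783) (nat_lit 12) (nat_lit 8))
    (@En.n l55 (nat_lit 12791) (nat_lit 13) (nat_lit 8))
    (@En.n l12595 (nat_lit 2070) (nat_lit 14) (nat_lit 8))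
    (@En.n l17 (nat_lit 12785) (nat_lit 14) (nat_lit 2))
    (@En.n l18 (nat_lit 12785) (nat_lit 15) (nat_lit 2))))
  (@Cl.mk (nat_lit 0x20002000800080008000d0009000e000300020008000800080007000e000e) (nat_lit 0x22436700060045) (nat_lit 16) Lb.e (@T16.mk En
    (@En.n l134 (nat_lit 12786) (nat_lit 1) (nat_lit 14))
    (@En.i (nat_lit 5442) (nat_lit 11) (nat_lit 14))
    (@En.n l3339 (nat_lit 13006) (nat_lit 2) (nat_lit 7))
    (@En.n l5573 (nat_lit 12862) (nat_lit 3) (nat_lit 8))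
    (@En.n l5574 (nat_lit 13044) (nat_lit 4) (nat_lit 8))
    (@En.n l5575 (nat_lit 12867) (nat_lit 5) (nat_lit 8))
    (@En.n l17 (nat_lit 12786) (nat_lit 6) (nat_lit 2))
    (@En.n l2869 (nat_lit 12784) (nat_lit 7) (nat_lit 3))
    (@En.i (nat_lit 13821) (nat_lit 9) (nat_lit 14))
    (@En.n l5576 (nat_lit 12910) (nat_lit 10) (nat_lit 9))
    (@En.n l4021 (nat_lit 13784) (nat_lit 11) (nat_lit 13))
    (@En.n l1865 (nat_lit 12781) (nat_lit 12) (nat_lit 8))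
    (@En.n l152 (nat_lit 12790) (nat_lit 13) (nat_lit 8))
    (@En.n l5577 (nat_lit 1969) (nat_lit 14) (nat_lit 8))
    (@En.n l7 (nat_lit 12786) (nat_lit 14) (nat_lit 2))
    (@En.n l28 (nat_lit 12786) (nat_lit 15) (nat_lit 2))))
  (@Cl.mk (nat_lit 0x2000200080007000d000d000900030003000e0008000200090007000e000e) (nat_lit 0x10446009102034) (nat_lit 16) Lb.e (@T16.mk En
    (@En.n l5 (nat_lit 12787) (nat_lit 1) (nat_lit 14))
    (@En.n l649 (nat_lit 5129) (nat_lit 13) (nat_lit 14))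
    (@En.n l5022 (nat_lit 13012) (nat_lit 2) (nat_lit 7))
    (@En.n l7 (nat_lit 940) (nat_lit 3) (nat_lit 9))
    (@En.n l28 (nat_lit 12787) (nat_lit 4) (nat_lit 2))
    (@En.i (nat_lit 12784) (nat_lit 5) (nat_lit 8))
    (@En.n l476 (nat_lit 13780) (nat_lit 7) (nat_lit 14))
    (@En.n l152 (nat_lit 12791) (nat_lit 7) (nat_lit 3))
    (@En.n l1865 (nat_lit 12790) (nat_lit 8) (nat_lit 3))
    (@En.n l97 (nat_lit 13704) (nat_lit 10) (nat_lit 9))
    (@En.n l1867 (nat_lit 12790) (nat_lit 11) (nat_lit 13))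
    (@En.n l5021 (nat_lit 13776) (nat_lit 12) (nat_lit 13))
    (@En.i (nat_lit 13274) (nat_lit 13) (nat_lit 7))
    (@En.n l5022 (nat_lit 2298) (nat_lit 14) (nat_lit 8))
    (@En.n l17 (nat_lit 12787) (nat_lit 14) (nat_lit 2))
    (@En.n l18 (nat_lit 12787) (nat_lit 15) (nat_lit 2))))
  (@Cl.mk (nat_lit 0x200020007000e00080002000d000d000b00030003000900080005000e000e) (nat_lit 0x3306680066023) (nat_lit 16) Lb.e (@T16.mk En
    (@En.n l5 (nat_lit 12788) (nat_lit 1) (nat_lit 14))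
    (@En.n l4562 (nat_lit 5446) (nat_lit 1) (nat_lit 14))
    (@En.i (nat_lit 13718) (nat_lit 2) (nat_lit 5))
    (@En.n l4563 (nat_lit 13442) (nat_lit 3) (nat_lit 8))
    (@En.n l1599 (nat_lit 12865) (nat_lit 4) (nat_lit 9))
    (@En.n l1577 (nat_lit 12863) (nat_lit 5) (nat_lit 3))
    (@En.i (nat_lit 12862) (nat_lit 6) (nat_lit 3))
    (@En.n l457 (nat_lit 13702) (nat_lit 8) (nat_lit 11))
    (@En.n l1578 (nat_lit 12862) (nat_lit 9) (nat_lit 13))
    (@En.n l107 (nat_lit 12870) (nat_lit 10) (nat_lit 13))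
    (@En.n l3 (nat_lit 12788) (nat_lit 10) (nat_lit 2))
    (@En.n l1613 (nat_lit 12784) (nat_lit 12) (nat_lit 8))
    (@En.i (nat_lit 936) (nat_lit 13) (nat_lit 14))
    (@En.i (nat_lit 816) (nat_lit 14) (nat_lit 7))
    (@En.n l17 (nat_lit 12788) (nat_lit 14) (nat_lit 2))
    (@En.n l18 (nat_lit 12788) (nat_lit 15) (nat_lit 2))))
  (@Cl.mk (nat_lit 0x20002000e000800020009000d000d000b00030003000800070005000e000e) (nat_lit 0x2304659005009a) (nat_lit 16) Lb.e (@T16.mk En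
    (@En.n l5 (nat_lit 12789) (nat_lit 1) (nat_lit 14))
    (@En.n l1598 (nat_lit 5130) (nat_lit 1) (nat_lit 14))
    (@En.n l1378 (nat_lit 12851) (nat_lit 2) (nat_lit 5))
    (@En.n l536 (nat_lit 13446) (nat_lit 3) (nat_lit 7))
    (@En.n l1599 (nat_lit 14010) (nat_lit 4) (nat_lit 8))
    (@En.n l28 (nat_lit 12848) (nat_lit 5) (nat_lit 3))
    (@En.n l395 (nat_lit 13044) (nat_lit 6) (nat_lit 3))
    (@En.i (nat_lit 12849) (nat_lit 8) (nat_lit 11))
    (@En.n l1600 (nat_lit 13044) (nat_lit 9) (nat_lit 13))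
    (@En.i (nat_lit 12824) (nat_lit 10) (nat_lit 13))
    (@En.n l253 (nat_lit 13046) (nat_lit 11) (nat_lit 9))
    (@En.n l3 (nat_lit 12789) (nat_lit 11) (nat_lit 2))
    (@En.n l1601 (nat_lit 12784) (nat_lit 13) (nat_lit 8))
    (@En.i (nat_lit 3233) (nat_lit 1) (nat_lit 14))
    (@En.n l17 (nat_lit 12789) (nat_lit 14) (nat_lit 2))
    (@En.n l18 (nat_lit 12789) (nat_lit 15) (nat_lit 2))))
  (@Cl.mk (nat_lit 0x2000200080007000d0008000e00030002000e0008000200090008000e000e) (nat_lit 0x1035600a101534) (nat_lit 16) Lb.e (@T16.mk En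
    (@En.n l134 (nat_lit 12790) (nat_lit 1) (nat_lit 14))
    (@En.i (nat_lit 5694) (nat_lit 13) (nat_lit 14))
    (@En.n l3339 (nat_lit 13011) (nat_lit 2) (nat_lit 8))
    (@En.n l107 (nat_lit 937) (nat_lit 3) (nat_lit 9))
    (@En.n l3 (nat_lit 12790) (nat_lit 4) (nat_lit 2))
    (@En.i (nat_lit 12786) (nat_lit 5) (nat_lit 8))
    (@En.i (nat_lit 13778) (nat_lit 7) (nat_lit 14))
    (@En.n l17 (nat_lit 12790) (nat_lit 7) (nat_lit 2))
    (@En.n l2869 (nat_lit 12787) (nat_lit 8) (nat_lit 3))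
    (@En.i (nat_lit 13826) (nat_lit 10) (nat_lit 14))
    (@En.n l5592 (nat_lit 12905) (nat_lit 11) (nat_lit 8))
    (@En.n l4021 (nat_lit 13775) (nat_lit 12) (nat_lit 13))
    (@En.i (nat_lit 13273) (nat_lit 13) (nat_lit 7))
    (@En.n l5577 (nat_lit 2296) (nat_lit 14) (nat_lit 8))
    (@En.n l7 (nat_lit 12790) (nat_lit 14) (nat_lit 2))
    (@En.n l28 (nat_lit 12790) (nat_lit 15) (nat_lit 2))))
  (@Cl.mk (nat_lit 0x2000200080007000e000d0002000a0003000e0008000200090006000e000e) (nat_lit 0x1045070a101034) (nat_lit 16) Lb.e (@T16.mk En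
    (@En.n l5 (nat_lit 12791) (nat_lit 1) (nat_lit 14))
    (@En.n l2573 (nat_lit 5128) (nat_lit 8) (nat_lit 14))
    (@En.n l564 (nat_lit 13015) (nat_lit 2) (nat_lit 6))
    (@En.n l7 (nat_lit 938) (nat_lit 3) (nat_lit 9))
    (@En.n l28 (nat_lit 12791) (nat_lit 4) (nat_lit 2))
    (@En.i (nat_lit 12785) (nat_lit 5) (nat_lit 8))
    (@En.i (nat_lit 12933) (nat_lit 7) (nat_lit 14))
    (@En.n l117 (nat_lit 12787) (nat_lit 7) (nat_lit 3))
    (@En.i (nat_lit 13386) (nat_lit 9) (nat_lit 10))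
    (@En.n l3 (nat_lit 12791) (nat_lit 9) (nat_lit 2))
    (@En.i (nat_lit 12787) (nat_lit 11) (nat_lit 13))
    (@En.i (nat_lit 13900) (nat_lit 12) (nat_lit 14))
    (@En.i (nat_lit 13276) (nat_lit 13) (nat_lit 7))
    (@En.i (nat_lit 2349) (nat_lit 14) (nat_lit 8))
    (@En.n l17 (nat_lit 12791) (nat_lit 14) (nat_lit 2))
    (@En.n l18 (nat_lit 12791) (nat_lit 15) (nat_lit 2))))
  (@Cl.mk (nat_lit 0x20005000c000a000900060004000d000b000600030007000b0005000e000a) (nat_lit 0x41500a600070b5) (nat_lit 16) Lb.e (@T16.mk En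
    (@En.n l14139 (nat_lit 11298) (nat_lit 11) (nat_lit 10))
    (@En.n l16250 (nat_lit 12793) (nat_lit 1) (nat_lit 14))
    (@En.n l8312 (nat_lit 11293) (nat_lit 2) (nat_lit 5))
    (@En.n l2863 (nat_lit 12235) (nat_lit 3) (nat_lit 11))
    (@En.n l16251 (nat_lit 11698) (nat_lit 4) (nat_lit 7))
    (@En.n l28 (nat_lit 12794) (nat_lit 5) (nat_lit 3))
    (@En.n l16252 (nat_lit 6007) (nat_lit 6) (nat_lit 6))
    (@En.n l77 (nat_lit 11292) (nat_lit 8) (nat_lit 11))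
    (@En.n l16253 (nat_lit 11480) (nat_lit 9) (nat_lit 13))
    (@En.n l16254 (nat_lit 12697) (nat_lit 9) (nat_lit 4))
    (@En.i (nat_lit 10149) (nat_lit 11) (nat_lit 6))
    (@En.n l16255 (nat_lit 12581) (nat_lit 12) (nat_lit 9))
    (@En.n l16251 (nat_lit 9234) (nat_lit 13) (nat_lit 10))
    (@En.n l16256 (nat_lit 7162) (nat_lit 14) (nat_lit 12))
    (@En.n l16257 (nat_lit 12360) (nat_lit 13) (nat_lit 5))
    (@En.n l18 (nat_lit 12792) (nat_lit 15) (nat_lit 2))))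
  (@Cl.mk (nat_lit 0x200080005000c000a000900070004000d0008000600030007000b000e0009) (nat_lit 0x3098600330003a4) (nat_lit 16) Lb.e (@T16.mk En
    (@En.n l31214 (nat_lit 10424) (nat_lit 12) (nat_lit 9))
    (@En.i (nat_lit 7721) (nat_lit 4) (nat_lit 14))
    (@En.n l31215 (nat_lit 12234) (nat_lit 2) (nat_lit 11))
    (@En.n l31216 (nat_lit 11687) (nat_lit 3) (nat_lit 7))
    (@En.i (nat_lit 12795) (nat_lit 4) (nat_lit 3))
    (@En.n l8163 (nat_lit 6008) (nat_lit 0) (nat_lit 6))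
    (@En.n l25675 (nat_lit 11574) (nat_lit 6) (nat_lit 8))
    (@En.n l565 (nat_lit 11484) (nat_lit 8) (nat_lit 13))
    (@En.n l31217 (nat_lit 12703) (nat_lit 8) (nat_lit 4))
    (@En.n l8807 (nat_lit 10147) (nat_lit 10) (nat_lit 7))
    (@En.n l9133 (nat_lit 12573) (nat_lit 11) (nat_lit 9))
    (@En.n l5399 (nat_lit 12283) (nat_lit 12) (nat_lit 10))
    (@En.n l3761 (nat_lit 11672) (nat_lit 13) (nat_lit 12))
    (@En.n l6730 (nat_lit 12792) (nat_lit 14) (nat_lit 5))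
    (@En.n l13931 (nat_lit 9948) (nat_lit 10) (nat_lit 8))
    (@En.n l17 (nat_lit 12793) (nat_lit 15) (nat_lit 2))))
  (@Cl.mk (nat_lit 0x20005000c000b000900060004000d0005000c00030007000b0004000e000a) (nat_lit 0x485009050060b7) (nat_lit 16) Lb.e (@T16.mk En
    (@En.n l14139 (nat_lit 11301) (nat_lit 11) (nat_lit 10))
    (@En.n l10571 (nat_lit 12795) (nat_lit 1) (nat_lit 14))
    (@En.i (nat_lit 11291) (nat_lit 2) (nat_lit 4))
    (@En.n l2863 (nat_lit 12237) (nat_lit 3) (nat_lit 11))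
    (@En.n l28303 (nat_lit 12029) (nat_lit 4) (nat_lit 7))
    (@En.i (nat_lit 12792) (nat_lit 5) (nat_lit 3))
    (@En.n l13562 (nat_lit 11199) (nat_lit 0) (nat_lit 12))
    (@En.i (nat_lit 11337) (nat_lit 7) (nat_lit 5))
    (@En.n l10577 (nat_lit 11415) (nat_lit 9) (nat_lit 13))
    (@En.n l13562 (nat_lit 12695) (nat_lit 9) (nat_lit 4))
    (@En.i (nat_lit 4326) (nat_lit 11) (nat_lit 6))
    (@En.n l10574 (nat_lit 12640) (nat_lit 12) (nat_lit 9))
    (@En.n l9879 (nat_lit 10536) (nat_lit 13) (nat_lit 11))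
    (@En.n l28304 (nat_lit 7160) (nat_lit 14) (nat_lit 12))
    (@En.n l28305 (nat_lit 12359) (nat_lit 13) (nat_lit 5))
    (@En.n l18 (nat_lit 12794) (nat_lit 15) (nat_lit 2))))
  (@Cl.mk (nat_lit 0x200070005000c000b000900070004000d0005000900030007000b000e0009) (nat_lit 0x28600404007a6) (nat_lit 16) Lb.e (@T16.mk En
    (@En.n l28113 (nat_lit 11302) (nat_lit 12) (nat_lit 9))
    (@En.i (nat_lit 7722) (nat_lit 4) (nat_lit 14))
    (@En.n l7692 (nat_lit 12236) (nat_lit 2) (nat_lit 11))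
    (@En.n l9286 (nat_lit 12031) (nat_lit 3) (nat_lit 7))
    (@En.n l7 (nat_lit 12793) (nat_lit 4) (nat_lit 3))
    (@En.n l28114 (nat_lit 8177) (nat_lit 0) (nat_lit 9))
    (@En.n l7572 (nat_lit 11339) (nat_lit 6) (nat_lit 5))
    (@En.n l24353 (nat_lit 11418) (nat_lit 8) (nat_lit 13))
    (@En.n l22422 (nat_lit 12698) (nat_lit 8) (nat_lit 4))
    (@En.n l1361 (nat_lit 8856) (nat_lit 10) (nat_lit 7))
    (@En.i (nat_lit 12576) (nat_lit 11) (nat_lit 9))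
    (@En.n l28115 (nat_lit 12691) (nat_lit 12) (nat_lit 11))
    (@En.n l28116 (nat_lit 7550) (nat_lit 13) (nat_lit 12))
    (@En.n l3763 (nat_lit 12794) (nat_lit 14) (nat_lit 5))
    (@En.n l1361 (nat_lit 12443) (nat_lit 10) (nat_lit 7))
    (@En.n l17 (nat_lit 12795) (nat_lit 15) (nat_lit 2))))
  (@Cl.mk (nat_lit 0x2000c0006000a000e00040002000c00090006000d0004000a0003000e0007) (nat_lit 0x503400740708070) (nat_lit 16) Lb.e (@T16.mk En
    (@En.n l21237 (nat_lit 7806) (nat_lit 6) (nat_lit 7))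
    (@En.n l134 (nat_lit 11268) (nat_lit 1) (nat_lit 14))
    (@En.i (nat_lit 12797) (nat_lit 8) (nat_lit 3))
    (@En.n l21238 (nat_lit 12558) (nat_lit 10) (nat_lit 10))
    (@En.n l117 (nat_lit 5878) (nat_lit 4) (nat_lit 4))
    (@En.n l20916 (nat_lit 12801) (nat_lit 6) (nat_lit 13))
    (@En.n l4938 (nat_lit 4562) (nat_lit 6) (nat_lit 6))
    (@En.n l21052 (nat_lit 8908) (nat_lit 14) (nat_lit 9))
    (@En.n l2125 (nat_lit 11620) (nat_lit 9) (nat_lit 12))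
    (@En.n l17 (nat_lit 12796) (nat_lit 9) (nat_lit 2))
    (@En.n l2116 (nat_lit 7982) (nat_lit 10) (nat_lit 4))
    (@En.i (nat_lit 5343) (nat_lit 12) (nat_lit 14))
    (@En.n l4938 (nat_lit 3935) (nat_lit 2) (nat_lit 10))
    (@En.n l16262 (nat_lit 8036) (nat_lit 14) (nat_lit 6))
    (@En.n l21239 (nat_lit 9820) (nat_lit 12) (nat_lit 12))
    (@En.n l7 (nat_lit 12796) (nat_lit 15) (nat_lit 2))))
  (@Cl.mk (nat_lit 0x2000b00090006000d000900050003000e00070002000c0007000a000e0004) (nat_lit 0x240830070030350) (nat_lit 16) Lb.e (@T16.mk En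
    (@En.n l22671 (nat_lit 7983) (nat_lit 10) (nat_lit 4))
    (@En.i (nat_lit 5335) (nat_lit 12) (nat_lit 14))
    (@En.n l3988 (nat_lit 3938) (nat_lit 8) (nat_lit 10))
    (@En.n l16262 (nat_lit 5848) (nat_lit 14) (nat_lit 7))
    (@En.i (nat_lit 9819) (nat_lit 12) (nat_lit 12))
    (@En.n l7 (nat_lit 12797) (nat_lit 5) (nat_lit 2))
    (@En.n l29007 (nat_lit 7804) (nat_lit 6) (nat_lit 7))
    (@En.n l134 (nat_lit 7936) (nat_lit 1) (nat_lit 14))
    (@En.n l11 (nat_lit 12796) (nat_lit 2) (nat_lit 3))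
    (@En.i (nat_lit 8974) (nat_lit 9) (nat_lit 5))
    (@En.n l532 (nat_lit 12798) (nat_lit 4) (nat_lit 9))
    (@En.n l3447 (nat_lit 12799) (nat_lit 6) (nat_lit 13))
    (@En.n l4938 (nat_lit 4561) (nat_lit 6) (nat_lit 6))
    (@En.i (nat_lit 8907) (nat_lit 14) (nat_lit 9))
    (@En.n l4934 (nat_lit 4545) (nat_lit 9) (nat_lit 11))
    (@En.n l17 (nat_lit 12797) (nat_lit 15) (nat_lit 2))))
  (@Cl.mk (nat_lit 0x2000b00070006000a000e00050002000c000a000600090004000a000e0006) (nat_lit 0x300460014020360) (nat_lit 16) Lb.e (@T16.mk En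
    (@En.n l31978 (nat_lit 7805) (nat_lit 7) (nat_lit 6))
    (@En.i (nat_lit 7935) (nat_lit 9) (nat_lit 14))
    (@En.n l6172 (nat_lit 12255) (nat_lit 10) (nat_lit 10))
    (@En.n l117 (nat_lit 8897) (nat_lit 3) (nat_lit 4))
    (@En.n l3922 (nat_lit 5957) (nat_lit 4) (nat_lit 9))
    (@En.n l31979 (nat_lit 2120) (nat_lit 5) (nat_lit 6))
    (@En.n l575 (nat_lit 8906) (nat_lit 14) (nat_lit 10))
    (@En.n l10773 (nat_lit 4539) (nat_lit 8) (nat_lit 12))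
    (@En.n l17 (nat_lit 12798) (nat_lit 8) (nat_lit 2))
    (@En.n l17722 (nat_lit 7984) (nat_lit 9) (nat_lit 5))
    (@En.i (nat_lit 12800) (nat_lit 11) (nat_lit 14))
    (@En.n l245 (nat_lit 12797) (nat_lit 2) (nat_lit 10))
    (@En.n l5592 (nat_lit 12796) (nat_lit 13) (nat_lit 6))
    (@En.n l23395 (nat_lit 5273) (nat_lit 14) (nat_lit 7))
    (@En.n l31978 (nat_lit 9821) (nat_lit 6) (nat_lit 11))
    (@En.n l28 (nat_lit 12798) (nat_lit 15) (nat_lit 2))))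
  (@Cl.mk (nat_lit 0x2000c00080006000e00040002000c0009000d000800040003000a000e0007) (nat_lit 0x350500277500430) (nat_lit 16) Lb.e (@T16.mk En
    (@En.n l33415 (nat_lit 5615) (nat_lit 6) (nat_lit 7))
    (@En.i (nat_lit 2246) (nat_lit 8) (nat_lit 14))
    (@En.n l476 (nat_lit 12798) (nat_lit 2) (nat_lit 10))
    (@En.n l33416 (nat_lit 12801) (nat_lit 3) (nat_lit 3))
    (@En.n l830 (nat_lit 12810) (nat_lit 0) (nat_lit 4))
    (@En.n l13524 (nat_lit 5954) (nat_lit 5) (nat_lit 8))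
    (@En.n l2402 (nat_lit 4094) (nat_lit 7) (nat_lit 13))
    (@En.i (nat_lit 10265) (nat_lit 14) (nat_lit 9))
    (@En.n l5389 (nat_lit 10902) (nat_lit 9) (nat_lit 12))
    (@En.n l17 (nat_lit 12799) (nat_lit 9) (nat_lit 2))
    (@En.n l33417 (nat_lit 12802) (nat_lit 10) (nat_lit 4))
    (@En.n l2698 (nat_lit 6094) (nat_lit 1) (nat_lit 14))
    (@En.n l2402 (nat_lit 4514) (nat_lit 2) (nat_lit 6))
    (@En.n l11883 (nat_lit 7734) (nat_lit 14) (nat_lit 8))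
    (@En.n l33418 (nat_lit 10290) (nat_lit 11) (nat_lit 12))
    (@En.n l28 (nat_lit 12799) (nat_lit 15) (nat_lit 2))))
noncomputable def a800 : T16 Cl := @T16.mk Cl
  (@Cl.mk (nat_lit 0x2000c00070006000e00040002000d000c000a000300090004000a000e0006) (nat_lit 0x600500738050360) (nat_lit 16) Lb.e (@T16.mk En
    (@En.n l33419 (nat_lit 5616) (nat_lit 6) (nat_lit 6))
    (@En.i (nat_lit 2376) (nat_lit 1) (nat_lit 14))
    (@En.n l998 (nat_lit 12251) (nat_lit 2) (nat_lit 10))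
    (@En.n l117 (nat_lit 8955) (nat_lit 3) (nat_lit 4))
    (@En.i (nat_lit 12727) (nat_lit 11) (nat_lit 9))
    (@En.n l2402 (nat_lit 12801) (nat_lit 5) (nat_lit 3))
    (@En.n l575 (nat_lit 12500) (nat_lit 0) (nat_lit 10))
    (@En.i (nat_lit 12799) (nat_lit 8) (nat_lit 12))
    (@En.i (nat_lit 12223) (nat_lit 9) (nat_lit 13))
    (@En.n l17 (nat_lit 12800) (nat_lit 9) (nat_lit 2))
    (@En.n l27791 (nat_lit 12804) (nat_lit 10) (nat_lit 4))
    (@En.n l998 (nat_lit 6093) (nat_lit 1) (nat_lit 14))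
    (@En.n l5592 (nat_lit 5343) (nat_lit 13) (nat_lit 6))
    (@En.n l10848 (nat_lit 11667) (nat_lit 14) (nat_lit 7))
    (@En.n l27611 (nat_lit 10288) (nat_lit 9) (nat_lit 12))
    (@En.n l28 (nat_lit 12800) (nat_lit 15) (nat_lit 2))))
  (@Cl.mk (nat_lit 0x2000c00070006000e00040002000d0009000d000300090003000a000e0007) (nat_lit 0x300b00876050440) (nat_lit 16) Lb.e (@T16.mk En
    (@En.n l7531 (nat_lit 5614) (nat_lit 6) (nat_lit 7))
    (@En.n l7532 (nat_lit 2247) (nat_lit 8) (nat_lit 14))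
    (@En.i (nat_lit 12253) (nat_lit 2) (nat_lit 10))
    (@En.n l17681 (nat_lit 12799) (nat_lit 3) (nat_lit 3))
    (@En.i (nat_lit 12838) (nat_lit 11) (nat_lit 9))
    (@En.n l17682 (nat_lit 12800) (nat_lit 5) (nat_lit 3))
    (@En.i (nat_lit 4107) (nat_lit 0) (nat_lit 13))
    (@En.n l17087 (nat_lit 10264) (nat_lit 14) (nat_lit 9))
    (@En.i (nat_lit 11598) (nat_lit 9) (nat_lit 13))
    (@En.n l17 (nat_lit 12801) (nat_lit 9) (nat_lit 2))
    (@En.n l137 (nat_lit 12803) (nat_lit 10) (nat_lit 4))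
    (@En.n l17683 (nat_lit 6095) (nat_lit 1) (nat_lit 14))
    (@En.i (nat_lit 5400) (nat_lit 13) (nat_lit 6))
    (@En.n l3794 (nat_lit 11666) (nat_lit 14) (nat_lit 7))
    (@En.n l17684 (nat_lit 10289) (nat_lit 9) (nat_lit 12))
    (@En.n l7 (nat_lit 12801) (nat_lit 15) (nat_lit 2))))
  (@Cl.mk (nat_lit 0x2000c000c0009000700040004000c0009000d0007000400030009000e0007) (nat_lit 0x443000876000430) (nat_lit 16) Lb.e (@T16.mk En
    (@En.n l13034 (nat_lit 5593) (nat_lit 13) (nat_lit 7))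
    (@En.n l20140 (nat_lit 2240) (nat_lit 1) (nat_lit 14))
    (@En.n l19055 (nat_lit 7984) (nat_lit 2) (nat_lit 9))
    (@En.n l237 (nat_lit 12803) (nat_lit 3) (nat_lit 3))
    (@En.i (nat_lit 12775) (nat_lit 0) (nat_lit 4))
    (@En.n l55 (nat_lit 11516) (nat_lit 5) (nat_lit 7))
    (@En.i (nat_lit 4099) (nat_lit 7) (nat_lit 13))
    (@En.n l33916 (nat_lit 10268) (nat_lit 3) (nat_lit 9))
    (@En.n l1593 (nat_lit 10903) (nat_lit 9) (nat_lit 12))
    (@En.n l152 (nat_lit 12806) (nat_lit 12) (nat_lit 4))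
    (@En.n l13035 (nat_lit 12072) (nat_lit 10) (nat_lit 4))
    (@En.n l3208 (nat_lit 4513) (nat_lit 12) (nat_lit 7))
    (@En.n l97 (nat_lit 12633) (nat_lit 13) (nat_lit 9))
    (@En.n l33917 (nat_lit 12799) (nat_lit 14) (nat_lit 12))
    (@En.n l14512 (nat_lit 11843) (nat_lit 11) (nat_lit 12))
    (@En.n l17 (nat_lit 12802) (nat_lit 15) (nat_lit 2))))
  (@Cl.mk (nat_lit 0x2000c000c0008000700040004000d0009000d0003000800030009000e0007) (nat_lit 0x444000875060450) (nat_lit 16) Lb.e (@T16.mk En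
    (@En.n l17291 (nat_lit 5592) (nat_lit 13) (nat_lit 7))
    (@En.n l3165 (nat_lit 2241) (nat_lit 1) (nat_lit 14))
    (@En.n l18123 (nat_lit 11057) (nat_lit 2) (nat_lit 9))
    (@En.n l28 (nat_lit 12802) (nat_lit 3) (nat_lit 3))
    (@En.n l18124 (nat_lit 11641) (nat_lit 0) (nat_lit 8))
    (@En.n l18125 (nat_lit 12804) (nat_lit 5) (nat_lit 3))
    (@En.i (nat_lit 4106) (nat_lit 0) (nat_lit 13))
    (@En.n l18126 (nat_lit 10267) (nat_lit 3) (nat_lit 9))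
    (@En.i (nat_lit 10914) (nat_lit 9) (nat_lit 13))
    (@En.n l152 (nat_lit 12805) (nat_lit 12) (nat_lit 4))
    (@En.n l146 (nat_lit 11923) (nat_lit 10) (nat_lit 4))
    (@En.n l681 (nat_lit 2957) (nat_lit 12) (nat_lit 7))
    (@En.n l97 (nat_lit 11922) (nat_lit 13) (nat_lit 8))
    (@En.n l148 (nat_lit 12801) (nat_lit 14) (nat_lit 12))
    (@En.n l10185 (nat_lit 11842) (nat_lit 9) (nat_lit 12))
    (@En.n l17 (nat_lit 12803) (nat_lit 15) (nat_lit 2))))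
  (@Cl.mk (nat_lit 0x2000c000c0008000700040004000d000c000a0003000800040009000e0006) (nat_lit 0x476000798060460) (nat_lit 16) Lb.e (@T16.mk En
    (@En.n l33918 (nat_lit 5594) (nat_lit 5) (nat_lit 6))
    (@En.n l27775 (nat_lit 2378) (nat_lit 1) (nat_lit 14))
    (@En.n l50 (nat_lit 11064) (nat_lit 2) (nat_lit 9))
    (@En.n l3528 (nat_lit 12771) (nat_lit 3) (nat_lit 4))
    (@En.n l5592 (nat_lit 9246) (nat_lit 4) (nat_lit 8))
    (@En.n l858 (nat_lit 12803) (nat_lit 5) (nat_lit 3))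
    (@En.i (nat_lit 12499) (nat_lit 0) (nat_lit 10))
    (@En.n l10534 (nat_lit 12802) (nat_lit 8) (nat_lit 12))
    (@En.n l27772 (nat_lit 12095) (nat_lit 9) (nat_lit 13))
    (@En.n l13951 (nat_lit 12807) (nat_lit 12) (nat_lit 4))
    (@En.n l13952 (nat_lit 11917) (nat_lit 10) (nat_lit 4))
    (@En.i (nat_lit 4516) (nat_lit 12) (nat_lit 7))
    (@En.n l33919 (nat_lit 11913) (nat_lit 13) (nat_lit 8))
    (@En.n l27774 (nat_lit 12800) (nat_lit 14) (nat_lit 12))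
    (@En.i (nat_lit 9734) (nat_lit 9) (nat_lit 12))
    (@En.n l17 (nat_lit 12804) (nat_lit 15) (nat_lit 2))))
  (@Cl.mk (nat_lit 0x2000900080004000d0009000d0003000700030008000e00070002000e000c) (nat_lit 0x410772000440065) (nat_lit 16) Lb.e (@T16.mk En
    (@En.i (nat_lit 12803) (nat_lit 14) (nat_lit 12))
    (@En.n l3701 (nat_lit 8155) (nat_lit 1) (nat_lit 14))
    (@En.n l17 (nat_lit 12805) (nat_lit 2) (nat_lit 2))
    (@En.n l3166 (nat_lit 5590) (nat_lit 3) (nat_lit 7))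
    (@En.i (nat_lit 2404) (nat_lit 5) (nat_lit 14))
    (@En.n l17662 (nat_lit 12618) (nat_lit 5) (nat_lit 8))
    (@En.n l28 (nat_lit 12806) (nat_lit 6) (nat_lit 3))
    (@En.n l5536 (nat_lit 11639) (nat_lit 0) (nat_lit 7))
    (@En.n l9050 (nat_lit 12807) (nat_lit 8) (nat_lit 3))
    (@En.i (nat_lit 4109) (nat_lit 0) (nat_lit 13))
    (@En.n l9051 (nat_lit 10332) (nat_lit 11) (nat_lit 9))
    (@En.n l1876 (nat_lit 6500) (nat_lit 12) (nat_lit 13))
    (@En.i (nat_lit 11915) (nat_lit 9) (nat_lit 4))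
    (@En.n l11613 (nat_lit 5401) (nat_lit 14) (nat_lit 8))
    (@En.i (nat_lit 12137) (nat_lit 12) (nat_lit 9))
    (@En.n l3 (nat_lit 12805) (nat_lit 15) (nat_lit 2))))
  (@Cl.mk (nat_lit 0x2000a00080004000c0009000d0006000400030008000e00070002000e000c) (nat_lit 0x410671000410045) (nat_lit 16) Lb.e (@T16.mk En
    (@En.i (nat_lit 12802) (nat_lit 14) (nat_lit 12))
    (@En.i (nat_lit 8151) (nat_lit 1) (nat_lit 14))
    (@En.n l17 (nat_lit 12806) (nat_lit 2) (nat_lit 2))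
    (@En.n l22570 (nat_lit 5591) (nat_lit 3) (nat_lit 7))
    (@En.n l415 (nat_lit 2406) (nat_lit 5) (nat_lit 14))
    (@En.n l18621 (nat_lit 7981) (nat_lit 5) (nat_lit 8))
    (@En.n l237 (nat_lit 12805) (nat_lit 6) (nat_lit 3))
    (@En.i (nat_lit 12777) (nat_lit 0) (nat_lit 4))
    (@En.n l55 (nat_lit 12389) (nat_lit 8) (nat_lit 6))
    (@En.i (nat_lit 3284) (nat_lit 10) (nat_lit 13))
    (@En.n l22570 (nat_lit 10330) (nat_lit 11) (nat_lit 9))
    (@En.n l11 (nat_lit 9923) (nat_lit 12) (nat_lit 12))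
    (@En.n l2855 (nat_lit 11027) (nat_lit 9) (nat_lit 4))
    (@En.n l19055 (nat_lit 4515) (nat_lit 14) (nat_lit 8))
    (@En.n l563 (nat_lit 9513) (nat_lit 12) (nat_lit 10))
    (@En.n l3 (nat_lit 12806) (nat_lit 15) (nat_lit 2))))
  (@Cl.mk (nat_lit 0x2000900080004000d000c000a0003000700040008000e00060002000e000c) (nat_lit 0x440778000360095) (nat_lit 16) Lb.e (@T16.mk En
    (@En.n l2593 (nat_lit 12804) (nat_lit 14) (nat_lit 12))
    (@En.i (nat_lit 10975) (nat_lit 1) (nat_lit 14))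
    (@En.n l18 (nat_lit 12807) (nat_lit 2) (nat_lit 2))
    (@En.n l5784 (nat_lit 5595) (nat_lit 3) (nat_lit 6))
    (@En.n l2571 (nat_lit 2380) (nat_lit 5) (nat_lit 14))
    (@En.i (nat_lit 12616) (nat_lit 5) (nat_lit 8))
    (@En.i (nat_lit 12776) (nat_lit 6) (nat_lit 4))
    (@En.n l766 (nat_lit 6375) (nat_lit 7) (nat_lit 7))
    (@En.n l19017 (nat_lit 12805) (nat_lit 8) (nat_lit 3))
    (@En.i (nat_lit 12506) (nat_lit 0) (nat_lit 10))
    (@En.n l19680 (nat_lit 12806) (nat_lit 11) (nat_lit 12))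
    (@En.n l1253 (nat_lit 6498) (nat_lit 12) (nat_lit 13))
    (@En.n l117 (nat_lit 11912) (nat_lit 9) (nat_lit 4))
    (@En.n l2593 (nat_lit 5862) (nat_lit 14) (nat_lit 8))
    (@En.i (nat_lit 12140) (nat_lit 12) (nat_lit 9))
    (@En.n l3 (nat_lit 12807) (nat_lit 15) (nat_lit 2))))
  (@Cl.mk (nat_lit 0x20006000c00040008000e00040002000e000c0002000a00080004000e000c) (nat_lit 0x3026008808307a) (nat_lit 16) Lb.e (@T16.mk En
    (@En.n l134 (nat_lit 12776) (nat_lit 11) (nat_lit 12))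
    (@En.n l1253 (nat_lit 6017) (nat_lit 1) (nat_lit 14))
    (@En.n l117 (nat_lit 12744) (nat_lit 2) (nat_lit 4))
    (@En.n l2593 (nat_lit 5863) (nat_lit 14) (nat_lit 8))
    (@En.i (nat_lit 7788) (nat_lit 4) (nat_lit 10))
    (@En.n l3 (nat_lit 12808) (nat_lit 5) (nat_lit 2))
    (@En.n l2593 (nat_lit 12511) (nat_lit 7) (nat_lit 12))
    (@En.i (nat_lit 8553) (nat_lit 1) (nat_lit 14))
    (@En.n l18 (nat_lit 12808) (nat_lit 8) (nat_lit 2))
    (@En.i (nat_lit 8558) (nat_lit 9) (nat_lit 4))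
    (@En.n l2571 (nat_lit 3580) (nat_lit 11) (nat_lit 14))
    (@En.n l387 (nat_lit 3525) (nat_lit 12) (nat_lit 8))
    (@En.i (nat_lit 12807) (nat_lit 6) (nat_lit 4))
    (@En.i (nat_lit 5992) (nat_lit 8) (nat_lit 12))
    (@En.n l766 (nat_lit 6371) (nat_lit 8) (nat_lit 6))
    (@En.n l28 (nat_lit 12808) (nat_lit 15) (nat_lit 2))))
  (@Cl.mk (nat_lit 0x20008000c0004000a000e00040002000c00080006000e00040002000e000c) (nat_lit 0x41025006606007a) (nat_lit 16) Lb.e (@T16.mk En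
    (@En.i (nat_lit 8955) (nat_lit 8) (nat_lit 12))
    (@En.i (nat_lit 10989) (nat_lit 1) (nat_lit 14))
    (@En.n l17 (nat_lit 12809) (nat_lit 2) (nat_lit 2))
    (@En.n l27791 (nat_lit 12511) (nat_lit 3) (nat_lit 4))
    (@En.n l998 (nat_lit 5893) (nat_lit 5) (nat_lit 14))
    (@En.n l5592 (nat_lit 5876) (nat_lit 5) (nat_lit 6))
    (@En.i (nat_lit 12278) (nat_lit 14) (nat_lit 8))
    (@En.n l217 (nat_lit 8764) (nat_lit 8) (nat_lit 12))
    (@En.n l28 (nat_lit 12809) (nat_lit 8) (nat_lit 2))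
    (@En.i (nat_lit 8951) (nat_lit 9) (nat_lit 4))
    (@En.i (nat_lit 3566) (nat_lit 11) (nat_lit 14))
    (@En.n l998 (nat_lit 3239) (nat_lit 12) (nat_lit 10))
    (@En.i (nat_lit 12800) (nat_lit 3) (nat_lit 4))
    (@En.i (nat_lit 4058) (nat_lit 14) (nat_lit 12))
    (@En.i (nat_lit 5955) (nat_lit 12) (nat_lit 8))
    (@En.n l3 (nat_lit 12809) (nat_lit 15) (nat_lit 2))))
  (@Cl.mk (nat_lit 0x2000a000e00060002000c000a0006000e00040002000c0006000a000e0004) (nat_lit 0x5700480a0090180) (nat_lit 16) Lb.e (@T16.mk En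
    (@En.n l2604 (nat_lit 8955) (nat_lit 4) (nat_lit 4))
    (@En.n l1809 (nat_lit 4093) (nat_lit 6) (nat_lit 14))
    (@En.i (nat_lit 4066) (nat_lit 2) (nat_lit 10))
    (@En.n l4369 (nat_lit 5712) (nat_lit 14) (nat_lit 6))
    (@En.n l3337 (nat_lit 11437) (nat_lit 9) (nat_lit 12))
    (@En.n l17 (nat_lit 12810) (nat_lit 5) (nat_lit 2))
    (@En.n l13006 (nat_lit 12775) (nat_lit 6) (nat_lit 4))
    (@En.i (nat_lit 5900) (nat_lit 8) (nat_lit 14))
    (@En.n l4369 (nat_lit 4508) (nat_lit 8) (nat_lit 6))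
    (@En.n l1809 (nat_lit 12280) (nat_lit 14) (nat_lit 10))
    (@En.n l1388 (nat_lit 9279) (nat_lit 11) (nat_lit 12))
    (@En.n l7 (nat_lit 12810) (nat_lit 11) (nat_lit 2))
    (@En.n l1490 (nat_lit 5819) (nat_lit 13) (nat_lit 6))
    (@En.n l5378 (nat_lit 3637) (nat_lit 8) (nat_lit 14))
    (@En.n l2611 (nat_lit 8897) (nat_lit 2) (nat_lit 10))
    (@En.n l107 (nat_lit 12810) (nat_lit 15) (nat_lit 2))))
  (@Cl.mk (nat_lit 0x20005000b0008000c0008000c00050004000a00040008000b0008000e0006) (nat_lit 0x74a26001033530) (nat_lit 16) Lb.e (@T16.mk En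
    (@En.n l3098 (nat_lit 11093) (nat_lit 8) (nat_lit 6))
    (@En.n l3 (nat_lit 12812) (nat_lit 1) (nat_lit 14))
    (@En.n l32135 (nat_lit 11049) (nat_lit 2) (nat_lit 8))
    (@En.i (nat_lit 5889) (nat_lit 3) (nat_lit 11))
    (@En.n l32136 (nat_lit 12733) (nat_lit 4) (nat_lit 8))
    (@En.n l11048 (nat_lit 11607) (nat_lit 5) (nat_lit 4))
    (@En.n l32137 (nat_lit 6219) (nat_lit 7) (nat_lit 10))
    (@En.i (nat_lit 11725) (nat_lit 7) (nat_lit 4))
    (@En.n l6730 (nat_lit 11701) (nat_lit 8) (nat_lit 5))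
    (@En.n l32138 (nat_lit 10940) (nat_lit 10) (nat_lit 12))
    (@En.n l6105 (nat_lit 7542) (nat_lit 11) (nat_lit 8))
    (@En.n l32138 (nat_lit 12654) (nat_lit 12) (nat_lit 12))
    (@En.n l430 (nat_lit 12814) (nat_lit 13) (nat_lit 8))
    (@En.n l32139 (nat_lit 9780) (nat_lit 14) (nat_lit 11))
    (@En.n l3106 (nat_lit 12082) (nat_lit 13) (nat_lit 5))
    (@En.n l17 (nat_lit 12811) (nat_lit 15) (nat_lit 2))))
  (@Cl.mk (nat_lit 0x2000b0005000b0008000c0005000c00050004000b00040008000b000e0005) (nat_lit 0x707430700103320) (nat_lit 16) Lb.e (@T16.mk En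
    (@En.n l3098 (nat_lit 11778) (nat_lit 2) (nat_lit 5))
    (@En.i (nat_lit 6860) (nat_lit 4) (nat_lit 14))
    (@En.i (nat_lit 7501) (nat_lit 2) (nat_lit 11))
    (@En.n l513 (nat_lit 12732) (nat_lit 3) (nat_lit 8))
    (@En.i (nat_lit 11603) (nat_lit 4) (nat_lit 4))
    (@En.n l2682 (nat_lit 6220) (nat_lit 0) (nat_lit 11))
    (@En.i (nat_lit 10761) (nat_lit 6) (nat_lit 4))
    (@En.i (nat_lit 11702) (nat_lit 7) (nat_lit 5))
    (@En.n l18556 (nat_lit 11135) (nat_lit 9) (nat_lit 12))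
    (@En.n l810 (nat_lit 10870) (nat_lit 9) (nat_lit 5))
    (@En.n l18558 (nat_lit 12656) (nat_lit 11) (nat_lit 12))
    (@En.n l430 (nat_lit 12813) (nat_lit 12) (nat_lit 8))
    (@En.n l13597 (nat_lit 9781) (nat_lit 13) (nat_lit 11))
    (@En.i (nat_lit 12811) (nat_lit 14) (nat_lit 5))
    (@En.n l2125 (nat_lit 11094) (nat_lit 10) (nat_lit 11))
    (@En.n l17 (nat_lit 12812) (nat_lit 15) (nat_lit 2))))
  (@Cl.mk (nat_lit 0x2000c00050008000c0004000c000b0004000a000400080005000b000e0006) (nat_lit 0x803206501030430) (nat_lit 16) Lb.e (@T16.mk En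
    (@En.i (nat_lit 11777) (nat_lit 2) (nat_lit 6))
    (@En.i (nat_lit 8214) (nat_lit 4) (nat_lit 14))
    (@En.n l10436 (nat_lit 12812) (nat_lit 2) (nat_lit 11))
    (@En.n l9902 (nat_lit 12087) (nat_lit 3) (nat_lit 5))
    (@En.n l30003 (nat_lit 11902) (nat_lit 4) (nat_lit 8))
    (@En.i (nat_lit 11604) (nat_lit 5) (nat_lit 4))
    (@En.n l6193 (nat_lit 6222) (nat_lit 0) (nat_lit 10))
    (@En.n l6771 (nat_lit 11724) (nat_lit 7) (nat_lit 4))
    (@En.n l77 (nat_lit 12205) (nat_lit 9) (nat_lit 11))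
    (@En.n l253 (nat_lit 11138) (nat_lit 10) (nat_lit 12))
    (@En.n l6193 (nat_lit 10871) (nat_lit 10) (nat_lit 4))
    (@En.n l1329 (nat_lit 12663) (nat_lit 12) (nat_lit 12))
    (@En.n l253 (nat_lit 12815) (nat_lit 13) (nat_lit 8))
    (@En.i (nat_lit 12814) (nat_lit 14) (nat_lit 5))
    (@En.i (nat_lit 11095) (nat_lit 0) (nat_lit 12))
    (@En.n l17 (nat_lit 12813) (nat_lit 15) (nat_lit 2))))
  (@Cl.mk (nat_lit 0x200050008000c0007000c000b00040009000400080005000b0009000e0007) (nat_lit 0x3a073010404540) (nat_lit 16) Lb.e (@T16.mk En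
    (@En.n l5036 (nat_lit 11091) (nat_lit 1) (nat_lit 7))
    (@En.n l3 (nat_lit 12813) (nat_lit 1) (nat_lit 14))
    (@En.n l21345 (nat_lit 11436) (nat_lit 2) (nat_lit 9))
    (@En.n l10436 (nat_lit 12811) (nat_lit 3) (nat_lit 11))
    (@En.n l16797 (nat_lit 11557) (nat_lit 4) (nat_lit 5))
    (@En.n l21346 (nat_lit 11903) (nat_lit 5) (nat_lit 8))
    (@En.i (nat_lit 11608) (nat_lit 6) (nat_lit 4))
    (@En.n l21347 (nat_lit 6221) (nat_lit 8) (nat_lit 9))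
    (@En.n l6771 (nat_lit 11734) (nat_lit 8) (nat_lit 4))
    (@En.n l15177 (nat_lit 12206) (nat_lit 10) (nat_lit 11))
    (@En.n l16797 (nat_lit 11139) (nat_lit 11) (nat_lit 12))
    (@En.n l21348 (nat_lit 7544) (nat_lit 12) (nat_lit 7))
    (@En.n l1329 (nat_lit 12653) (nat_lit 13) (nat_lit 12))
    (@En.n l11247 (nat_lit 11035) (nat_lit 14) (nat_lit 8))
    (@En.n l3106 (nat_lit 12080) (nat_lit 13) (nat_lit 5))
    (@En.n l17 (nat_lit 12814) (nat_lit 15) (nat_lit 2))))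
  (@Cl.mk (nat_lit 0x2000d0008000c0003000c000a0004000900040008000e00060002000e0007) (nat_lit 0x72a071070330070) (nat_lit 16) Lb.e (@T16.mk En
    (@En.i (nat_lit 8182) (nat_lit 14) (nat_lit 7))
    (@En.n l476 (nat_lit 6207) (nat_lit 1) (nat_lit 14))
    (@En.n l50 (nat_lit 12815) (nat_lit 2) (nat_lit 2))
    (@En.n l22266 (nat_lit 11427) (nat_lit 3) (nat_lit 6))
    (@En.n l476 (nat_lit 5598) (nat_lit 1) (nat_lit 14))
    (@En.n l6362 (nat_lit 8978) (nat_lit 5) (nat_lit 8))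
    (@En.i (nat_lit 3415) (nat_lit 6) (nat_lit 4))
    (@En.n l13540 (nat_lit 8684) (nat_lit 4) (nat_lit 9))
    (@En.i (nat_lit 12820) (nat_lit 8) (nat_lit 4))
    (@En.i (nat_lit 4708) (nat_lit 10) (nat_lit 10))
    (@En.i (nat_lit 11352) (nat_lit 11) (nat_lit 12))
    (@En.n l10847 (nat_lit 12816) (nat_lit 11) (nat_lit 3))
    (@En.n l2038 (nat_lit 12387) (nat_lit 0) (nat_lit 12))
    (@En.i (nat_lit 12817) (nat_lit 14) (nat_lit 8))
    (@En.i (nat_lit 9626) (nat_lit 12) (nat_lit 13))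
    (@En.n l17 (nat_lit 12815) (nat_lit 15) (nat_lit 2))))
noncomputable def a801 : T16 Cl := @T16.mk Cl
  (@Cl.mk (nat_lit 0x2000d000b00090003000c000a0005000900040007000e00060002000e0007) (nat_lit 0x762071070030080) (nat_lit 16) Lb.e (@T16.mk En
    (@En.i (nat_lit 8181) (nat_lit 14) (nat_lit 7))
    (@En.n l23329 (nat_lit 6208) (nat_lit 1) (nat_lit 14))
    (@En.n l11 (nat_lit 12816) (nat_lit 2) (nat_lit 2))
    (@En.n l117 (nat_lit 10873) (nat_lit 3) (nat_lit 6))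
    (@En.n l23329 (nat_lit 5597) (nat_lit 1) (nat_lit 14))
    (@En.i (nat_lit 8974) (nat_lit 11) (nat_lit 7))
    (@En.n l936 (nat_lit 3413) (nat_lit 6) (nat_lit 4))
    (@En.i (nat_lit 8683) (nat_lit 4) (nat_lit 9))
    (@En.i (nat_lit 5680) (nat_lit 8) (nat_lit 5))
    (@En.n l3647 (nat_lit 4709) (nat_lit 10) (nat_lit 10))
    (@En.n l28769 (nat_lit 12817) (nat_lit 11) (nat_lit 12))
    (@En.n l4185 (nat_lit 12815) (nat_lit 11) (nat_lit 3))
    (@En.n l2238 (nat_lit 2090) (nat_lit 0) (nat_lit 9))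
    (@En.n l30882 (nat_lit 12818) (nat_lit 14) (nat_lit 11))
    (@En.i (nat_lit 9625) (nat_lit 12) (nat_lit 13))
    (@En.n l7 (nat_lit 12816) (nat_lit 15) (nat_lit 2))))
  (@Cl.mk (nat_lit 0x20008000c0009000c000900040008000400080007000e00070002000e0008) (nat_lit 0x162640602040091) (nat_lit 16) Lb.e (@T16.mk En
    (@En.i (nat_lit 5268) (nat_lit 14) (nat_lit 8))
    (@En.n l476 (nat_lit 6209) (nat_lit 1) (nat_lit 14))
    (@En.n l50 (nat_lit 12817) (nat_lit 2) (nat_lit 2))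
    (@En.n l20300 (nat_lit 10872) (nat_lit 3) (nat_lit 7))
    (@En.n l1770 (nat_lit 11035) (nat_lit 5) (nat_lit 14))
    (@En.n l13540 (nat_lit 12816) (nat_lit 5) (nat_lit 7))
    (@En.n l11010 (nat_lit 7038) (nat_lit 6) (nat_lit 8))
    (@En.n l5014 (nat_lit 3420) (nat_lit 7) (nat_lit 4))
    (@En.n l15358 (nat_lit 8685) (nat_lit 5) (nat_lit 8))
    (@En.n l19446 (nat_lit 5217) (nat_lit 9) (nat_lit 4))
    (@En.n l11008 (nat_lit 11591) (nat_lit 11) (nat_lit 9))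
    (@En.n l5014 (nat_lit 12544) (nat_lit 12) (nat_lit 12))
    (@En.n l15520 (nat_lit 2088) (nat_lit 13) (nat_lit 9))
    (@En.n l5014 (nat_lit 12819) (nat_lit 14) (nat_lit 12))
    (@En.n l31165 (nat_lit 6275) (nat_lit 12) (nat_lit 8))
    (@En.n l17 (nat_lit 12817) (nat_lit 15) (nat_lit 2))))
  (@Cl.mk (nat_lit 0x2000b0008000c000b000900050004000900050008000e00070002000e0007) (nat_lit 0x52a8100505400b0) (nat_lit 16) Lb.e (@T16.mk En
    (@En.i (nat_lit 9327) (nat_lit 14) (nat_lit 7))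
    (@En.n l1836 (nat_lit 8383) (nat_lit 1) (nat_lit 14))
    (@En.n l50 (nat_lit 12818) (nat_lit 2) (nat_lit 2))
    (@En.n l31268 (nat_lit 11509) (nat_lit 3) (nat_lit 7))
    (@En.n l1836 (nat_lit 5609) (nat_lit 5) (nat_lit 14))
    (@En.n l31269 (nat_lit 8960) (nat_lit 10) (nat_lit 8))
    (@En.n l2438 (nat_lit 5230) (nat_lit 6) (nat_lit 5))
    (@En.n l11010 (nat_lit 9596) (nat_lit 4) (nat_lit 9))
    (@En.n l10862 (nat_lit 12815) (nat_lit 8) (nat_lit 4))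
    (@En.n l31270 (nat_lit 5682) (nat_lit 9) (nat_lit 5))
    (@En.i (nat_lit 4710) (nat_lit 11) (nat_lit 9))
    (@En.n l4684 (nat_lit 12819) (nat_lit 12) (nat_lit 11))
    (@En.i (nat_lit 12390) (nat_lit 13) (nat_lit 12))
    (@En.n l11010 (nat_lit 5263) (nat_lit 14) (nat_lit 8))
    (@En.i (nat_lit 11280) (nat_lit 12) (nat_lit 11))
    (@En.n l17 (nat_lit 12818) (nat_lit 15) (nat_lit 2))))
  (@Cl.mk (nat_lit 0x2000c0008000b00080004000d0008000500030008000e00080002000e0008) (nat_lit 0x527507200654056) (nat_lit 16) Lb.e (@T16.mk En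
    (@En.i (nat_lit 9328) (nat_lit 14) (nat_lit 8))
    (@En.n l1501 (nat_lit 8227) (nat_lit 1) (nat_lit 14))
    (@En.n l3 (nat_lit 12819) (nat_lit 2) (nat_lit 2))
    (@En.i (nat_lit 11510) (nat_lit 3) (nat_lit 8))
    (@En.n l1501 (nat_lit 8039) (nat_lit 1) (nat_lit 14))
    (@En.n l13399 (nat_lit 12818) (nat_lit 5) (nat_lit 8))
    (@En.n l8097 (nat_lit 12820) (nat_lit 6) (nat_lit 3))
    (@En.i (nat_lit 5232) (nat_lit 0) (nat_lit 5))
    (@En.i (nat_lit 9597) (nat_lit 5) (nat_lit 8))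
    (@En.n l396 (nat_lit 11358) (nat_lit 10) (nat_lit 13))
    (@En.n l10348 (nat_lit 5681) (nat_lit 10) (nat_lit 4))
    (@En.n l13399 (nat_lit 11601) (nat_lit 12) (nat_lit 8))
    (@En.i (nat_lit 10123) (nat_lit 13) (nat_lit 11))
    (@En.n l4869 (nat_lit 5215) (nat_lit 14) (nat_lit 8))
    (@En.n l29776 (nat_lit 11281) (nat_lit 12) (nat_lit 12))
    (@En.n l11 (nat_lit 12819) (nat_lit 15) (nat_lit 2))))
  (@Cl.mk (nat_lit 0x2000c0008000c00080004000d0004000900030008000e00080002000e0007) (nat_lit 0x429506010634070) (nat_lit 16) Lb.e (@T16.mk En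
    (@En.n l19443 (nat_lit 9331) (nat_lit 14) (nat_lit 7))
    (@En.n l476 (nat_lit 8351) (nat_lit 1) (nat_lit 14))
    (@En.n l50 (nat_lit 12820) (nat_lit 2) (nat_lit 2))
    (@En.n l19444 (nat_lit 11512) (nat_lit 3) (nat_lit 8))
    (@En.n l476 (nat_lit 8040) (nat_lit 1) (nat_lit 14))
    (@En.n l9863 (nat_lit 8959) (nat_lit 5) (nat_lit 8))
    (@En.n l4108 (nat_lit 12819) (nat_lit 6) (nat_lit 3))
    (@En.n l13540 (nat_lit 6724) (nat_lit 0) (nat_lit 9))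
    (@En.n l10969 (nat_lit 12818) (nat_lit 8) (nat_lit 4))
    (@En.i (nat_lit 11357) (nat_lit 10) (nat_lit 13))
    (@En.n l19445 (nat_lit 5683) (nat_lit 10) (nat_lit 4))
    (@En.n l5076 (nat_lit 12224) (nat_lit 12) (nat_lit 8))
    (@En.n l4108 (nat_lit 12394) (nat_lit 13) (nat_lit 12))
    (@En.n l19446 (nat_lit 5217) (nat_lit 14) (nat_lit 8))
    (@En.n l19447 (nat_lit 11282) (nat_lit 12) (nat_lit 12))
    (@En.n l17 (nat_lit 12820) (nat_lit 15) (nat_lit 2))))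
  (@Cl.mk (nat_lit 0x20002000e00080002000d0009000d0003000d0003000800030007000e000e) (nat_lit 0x9303780900009a) (nat_lit 16) Lb.e (@T16.mk En
    (@En.n l97 (nat_lit 12821) (nat_lit 1) (nat_lit 14))
    (@En.i (nat_lit 5649) (nat_lit 1) (nat_lit 14))
    (@En.n l2399 (nat_lit 12853) (nat_lit 2) (nat_lit 7))
    (@En.n l5567 (nat_lit 12823) (nat_lit 3) (nat_lit 3))
    (@En.i (nat_lit 13937) (nat_lit 4) (nat_lit 8))
    (@En.i (nat_lit 12822) (nat_lit 5) (nat_lit 3))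
    (@En.i (nat_lit 13233) (nat_lit 7) (nat_lit 13))
    (@En.n l1481 (nat_lit 12824) (nat_lit 7) (nat_lit 3))
    (@En.i (nat_lit 12861) (nat_lit 9) (nat_lit 13))
    (@En.n l1374 (nat_lit 12826) (nat_lit 10) (nat_lit 9))
    (@En.n l3130 (nat_lit 13137) (nat_lit 11) (nat_lit 13))
    (@En.n l28 (nat_lit 12821) (nat_lit 11) (nat_lit 2))
    (@En.n l982 (nat_lit 13784) (nat_lit 13) (nat_lit 8))
    (@En.n l1395 (nat_lit 2742) (nat_lit 1) (nat_lit 14))
    (@En.n l107 (nat_lit 12821) (nat_lit 14) (nat_lit 2))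
    (@En.n l3 (nat_lit 12821) (nat_lit 15) (nat_lit 2))))
  (@Cl.mk (nat_lit 0x20002000e00080002000c0009000d000c00040003000800040007000e000e) (nat_lit 0x8203769000009a) (nat_lit 16) Lb.e (@T16.mk En
    (@En.n l97 (nat_lit 12822) (nat_lit 1) (nat_lit 14))
    (@En.i (nat_lit 4668) (nat_lit 1) (nat_lit 14))
    (@En.n l11998 (nat_lit 12852) (nat_lit 2) (nat_lit 7))
    (@En.n l5567 (nat_lit 12830) (nat_lit 3) (nat_lit 4))
    (@En.n l7406 (nat_lit 13895) (nat_lit 4) (nat_lit 8))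
    (@En.n l18 (nat_lit 12821) (nat_lit 5) (nat_lit 3))
    (@En.n l5567 (nat_lit 13758) (nat_lit 6) (nat_lit 4))
    (@En.n l10557 (nat_lit 12823) (nat_lit 8) (nat_lit 12))
    (@En.n l1392 (nat_lit 12857) (nat_lit 9) (nat_lit 13))
    (@En.n l1579 (nat_lit 12828) (nat_lit 10) (nat_lit 9))
    (@En.n l10556 (nat_lit 13141) (nat_lit 11) (nat_lit 12))
    (@En.n l28 (nat_lit 12822) (nat_lit 11) (nat_lit 2))
    (@En.n l982 (nat_lit 13783) (nat_lit 13) (nat_lit 8))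
    (@En.n l1395 (nat_lit 2743) (nat_lit 1) (nat_lit 14))
    (@En.n l107 (nat_lit 12822) (nat_lit 14) (nat_lit 2))
    (@En.n l3 (nat_lit 12822) (nat_lit 15) (nat_lit 2))))
  (@Cl.mk (nat_lit 0x20002000e00090002000d0009000c0003000d0007000400030007000e000e) (nat_lit 0x92037809000045) (nat_lit 16) Lb.e (@T16.mk En
    (@En.n l97 (nat_lit 12823) (nat_lit 1) (nat_lit 14))
    (@En.i (nat_lit 5647) (nat_lit 1) (nat_lit 14))
    (@En.n l9136 (nat_lit 12822) (nat_lit 2) (nat_lit 7))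
    (@En.n l11960 (nat_lit 12821) (nat_lit 3) (nat_lit 3))
    (@En.i (nat_lit 12831) (nat_lit 4) (nat_lit 4))
    (@En.n l9138 (nat_lit 13892) (nat_lit 5) (nat_lit 7))
    (@En.n l11961 (nat_lit 13231) (nat_lit 7) (nat_lit 13))
    (@En.i (nat_lit 12825) (nat_lit 7) (nat_lit 3))
    (@En.n l11961 (nat_lit 13102) (nat_lit 9) (nat_lit 12))
    (@En.n l11962 (nat_lit 12827) (nat_lit 10) (nat_lit 9))
    (@En.n l7479 (nat_lit 13632) (nat_lit 11) (nat_lit 13))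
    (@En.n l28 (nat_lit 12823) (nat_lit 11) (nat_lit 2))
    (@En.n l7477 (nat_lit 13781) (nat_lit 13) (nat_lit 9))
    (@En.n l3405 (nat_lit 2744) (nat_lit 1) (nat_lit 14))
    (@En.n l107 (nat_lit 12823) (nat_lit 14) (nat_lit 2))
    (@En.n l3 (nat_lit 12823) (nat_lit 15) (nat_lit 2))))
  (@Cl.mk (nat_lit 0x20002000e00080002000d000c000a0003000d0004000800030006000e000e) (nat_lit 0x2205460900009a) (nat_lit 16) Lb.e (@T16.mk En
    (@En.n l5 (nat_lit 12824) (nat_lit 1) (nat_lit 14))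
    (@En.n l5006 (nat_lit 5646) (nat_lit 1) (nat_lit 14))
    (@En.n l5007 (nat_lit 12854) (nat_lit 2) (nat_lit 6))
    (@En.n l5008 (nat_lit 12825) (nat_lit 3) (nat_lit 3))
    (@En.n l1599 (nat_lit 13934) (nat_lit 4) (nat_lit 8))
    (@En.n l3385 (nat_lit 12829) (nat_lit 5) (nat_lit 4))
    (@En.i (nat_lit 12826) (nat_lit 7) (nat_lit 13))
    (@En.n l313 (nat_lit 12821) (nat_lit 7) (nat_lit 3))
    (@En.i (nat_lit 14053) (nat_lit 9) (nat_lit 10))
    (@En.n l185 (nat_lit 12822) (nat_lit 10) (nat_lit 12))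
    (@En.n l5009 (nat_lit 13138) (nat_lit 11) (nat_lit 13))
    (@En.n l3 (nat_lit 12824) (nat_lit 11) (nat_lit 2))
    (@En.n l5010 (nat_lit 13786) (nat_lit 13) (nat_lit 8))
    (@En.n l3496 (nat_lit 2741) (nat_lit 1) (nat_lit 14))
    (@En.n l17 (nat_lit 12824) (nat_lit 14) (nat_lit 2))
    (@En.n l18 (nat_lit 12824) (nat_lit 15) (nat_lit 2))))
  (@Cl.mk (nat_lit 0x20002000e00090002000d000b000a0003000d0007000500030006000e000e) (nat_lit 0x2206760900009a) (nat_lit 16) Lb.e (@T16.mk En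
    (@En.n l97 (nat_lit 12825) (nat_lit 1) (nat_lit 14))
    (@En.i (nat_lit 5645) (nat_lit 1) (nat_lit 14))
    (@En.n l617 (nat_lit 13758) (nat_lit 2) (nat_lit 6))
    (@En.n l13063 (nat_lit 12824) (nat_lit 3) (nat_lit 3))
    (@En.i (nat_lit 14047) (nat_lit 4) (nat_lit 5))
    (@En.n l764 (nat_lit 13891) (nat_lit 5) (nat_lit 7))
    (@En.n l13064 (nat_lit 12827) (nat_lit 7) (nat_lit 13))
    (@En.n l50 (nat_lit 12823) (nat_lit 7) (nat_lit 3))
    (@En.n l7634 (nat_lit 14054) (nat_lit 9) (nat_lit 10))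
    (@En.n l217 (nat_lit 12830) (nat_lit 10) (nat_lit 11))
    (@En.n l13065 (nat_lit 13633) (nat_lit 11) (nat_lit 13))
    (@En.n l28 (nat_lit 12825) (nat_lit 11) (nat_lit 2))
    (@En.n l13066 (nat_lit 13782) (nat_lit 13) (nat_lit 9))
    (@En.n l13067 (nat_lit 1337) (nat_lit 1) (nat_lit 14))
    (@En.n l107 (nat_lit 12825) (nat_lit 14) (nat_lit 2))
    (@En.n l3 (nat_lit 12825) (nat_lit 15) (nat_lit 2))))
  (@Cl.mk (nat_lit 0x20002000e000900020009000d000a000d00030007000300070006000e000e) (nat_lit 0x3306468000009a) (nat_lit 16) Lb.e (@T16.mk En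
    (@En.n l5 (nat_lit 12826) (nat_lit 1) (nat_lit 14))
    (@En.n l5023 (nat_lit 5651) (nat_lit 1) (nat_lit 14))
    (@En.n l12 (nat_lit 12824) (nat_lit 2) (nat_lit 6))
    (@En.i (nat_lit 12789) (nat_lit 3) (nat_lit 7))
    (@En.n l5024 (nat_lit 12827) (nat_lit 4) (nat_lit 3))
    (@En.n l1599 (nat_lit 13933) (nat_lit 5) (nat_lit 7))
    (@En.n l28 (nat_lit 12828) (nat_lit 6) (nat_lit 3))
    (@En.n l1750 (nat_lit 13240) (nat_lit 8) (nat_lit 13))
    (@En.n l4889 (nat_lit 13000) (nat_lit 9) (nat_lit 10))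
    (@En.n l5023 (nat_lit 12823) (nat_lit 10) (nat_lit 13))
    (@En.n l5025 (nat_lit 13737) (nat_lit 11) (nat_lit 9))
    (@En.n l3 (nat_lit 12826) (nat_lit 11) (nat_lit 2))
    (@En.n l5026 (nat_lit 13785) (nat_lit 13) (nat_lit 9))
    (@En.n l2660 (nat_lit 1365) (nat_lit 1) (nat_lit 14))
    (@En.n l17 (nat_lit 12826) (nat_lit 14) (nat_lit 2))
    (@En.n l18 (nat_lit 12826) (nat_lit 15) (nat_lit 2))))
  (@Cl.mk (nat_lit 0x20002000e000a00020009000c000a000d00060004000300070006000e000e) (nat_lit 0x3306668000009a) (nat_lit 16) Lb.e (@T16.mk En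
    (@En.n l5 (nat_lit 12827) (nat_lit 1) (nat_lit 14))
    (@En.n l5366 (nat_lit 6073) (nat_lit 1) (nat_lit 14))
    (@En.n l13100 (nat_lit 12825) (nat_lit 2) (nat_lit 6))
    (@En.n l9473 (nat_lit 12828) (nat_lit 3) (nat_lit 7))
    (@En.n l558 (nat_lit 12826) (nat_lit 4) (nat_lit 3))
    (@En.n l5366 (nat_lit 14046) (nat_lit 5) (nat_lit 4))
    (@En.n l4549 (nat_lit 13992) (nat_lit 6) (nat_lit 6))
    (@En.i (nat_lit 13235) (nat_lit 8) (nat_lit 13))
    (@En.n l1823 (nat_lit 14050) (nat_lit 9) (nat_lit 10))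
    (@En.n l5366 (nat_lit 12831) (nat_lit 10) (nat_lit 12))
    (@En.n l253 (nat_lit 13740) (nat_lit 11) (nat_lit 9))
    (@En.n l3 (nat_lit 12827) (nat_lit 11) (nat_lit 2))
    (@En.i (nat_lit 13788) (nat_lit 13) (nat_lit 10))
    (@En.i (nat_lit 1363) (nat_lit 1) (nat_lit 14))
    (@En.n l17 (nat_lit 12827) (nat_lit 14) (nat_lit 2))
    (@En.n l18 (nat_lit 12827) (nat_lit 15) (nat_lit 2))))
  (@Cl.mk (nat_lit 0x20002000e000900020009000d000c000b00030007000400070005000e000e) (nat_lit 0x3306778000009a) (nat_lit 16) Lb.e (@T16.mk En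
    (@En.n l5 (nat_lit 12828) (nat_lit 1) (nat_lit 14))
    (@En.n l3495 (nat_lit 6072) (nat_lit 1) (nat_lit 14))
    (@En.n l1825 (nat_lit 12829) (nat_lit 2) (nat_lit 5))
    (@En.i (nat_lit 12848) (nat_lit 3) (nat_lit 7))
    (@En.n l5450 (nat_lit 12833) (nat_lit 4) (nat_lit 4))
    (@En.n l1823 (nat_lit 13990) (nat_lit 5) (nat_lit 7))
    (@En.i (nat_lit 12826) (nat_lit 6) (nat_lit 3))
    (@En.n l1823 (nat_lit 13771) (nat_lit 8) (nat_lit 11))
    (@En.n l5451 (nat_lit 12827) (nat_lit 9) (nat_lit 12))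
    (@En.n l5450 (nat_lit 12825) (nat_lit 10) (nat_lit 13))
    (@En.n l513 (nat_lit 13738) (nat_lit 11) (nat_lit 9))
    (@En.n l3 (nat_lit 12828) (nat_lit 11) (nat_lit 2))
    (@En.n l5005 (nat_lit 13787) (nat_lit 13) (nat_lit 9))
    (@En.i (nat_lit 1364) (nat_lit 1) (nat_lit 14))
    (@En.n l17 (nat_lit 12828) (nat_lit 14) (nat_lit 2))
    (@En.n l18 (nat_lit 12828) (nat_lit 15) (nat_lit 2))))
  (@Cl.mk (nat_lit 0x20002000e00080002000c000c000b000b00040004000800050005000e000e) (nat_lit 0x240678900000bc) (nat_lit 16) Lb.e (@T16.mk En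
    (@En.n l97 (nat_lit 12829) (nat_lit 1) (nat_lit 14))
    (@En.i (nat_lit 4594) (nat_lit 1) (nat_lit 14))
    (@En.n l1694 (nat_lit 13750) (nat_lit 2) (nat_lit 5))
    (@En.n l775 (nat_lit 14049) (nat_lit 3) (nat_lit 5))
    (@En.i (nat_lit 14003) (nat_lit 4) (nat_lit 8))
    (@En.n l4575 (nat_lit 14052) (nat_lit 5) (nat_lit 4))
    (@En.n l5349 (nat_lit 12822) (nat_lit 6) (nat_lit 4))
    (@En.n l61 (nat_lit 13759) (nat_lit 8) (nat_lit 11))
    (@En.n l2348 (nat_lit 12825) (nat_lit 9) (nat_lit 11))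
    (@En.n l5396 (nat_lit 13758) (nat_lit 10) (nat_lit 12))
    (@En.n l5397 (nat_lit 13221) (nat_lit 11) (nat_lit 12))
    (@En.n l28 (nat_lit 12829) (nat_lit 11) (nat_lit 2))
    (@En.n l780 (nat_lit 13751) (nat_lit 13) (nat_lit 8))
    (@En.n l4366 (nat_lit 2696) (nat_lit 1) (nat_lit 14))
    (@En.n l107 (nat_lit 12829) (nat_lit 14) (nat_lit 2))
    (@En.n l3 (nat_lit 12829) (nat_lit 15) (nat_lit 2))))
  (@Cl.mk (nat_lit 0x20002000e000a0002000b0009000c000c00060005000400040007000e000e) (nat_lit 0x230678800000bc) (nat_lit 16) Lb.e (@T16.mk En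
    (@En.n l97 (nat_lit 12830) (nat_lit 1) (nat_lit 14))
    (@En.i (nat_lit 4665) (nat_lit 1) (nat_lit 14))
    (@En.n l12441 (nat_lit 12832) (nat_lit 2) (nat_lit 7))
    (@En.n l5452 (nat_lit 12832) (nat_lit 3) (nat_lit 4))
    (@En.n l18 (nat_lit 12823) (nat_lit 4) (nat_lit 4))
    (@En.i (nat_lit 13471) (nat_lit 5) (nat_lit 5))
    (@En.n l12912 (nat_lit 13890) (nat_lit 6) (nat_lit 6))
    (@En.n l61 (nat_lit 12831) (nat_lit 8) (nat_lit 12))
    (@En.n l8122 (nat_lit 12846) (nat_lit 9) (nat_lit 12))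
    (@En.n l564 (nat_lit 12833) (nat_lit 10) (nat_lit 9))
    (@En.n l12890 (nat_lit 13556) (nat_lit 11) (nat_lit 11))
    (@En.n l28 (nat_lit 12830) (nat_lit 11) (nat_lit 2))
    (@En.i (nat_lit 13385) (nat_lit 13) (nat_lit 10))
    (@En.n l12913 (nat_lit 3202) (nat_lit 1) (nat_lit 14))
    (@En.n l107 (nat_lit 12830) (nat_lit 14) (nat_lit 2))
    (@En.n l3 (nat_lit 12830) (nat_lit 15) (nat_lit 2))))
  (@Cl.mk (nat_lit 0x20002000e000b0002000c0009000c00050004000e000400020007000e000e) (nat_lit 0x52055700a00067) (nat_lit 16) Lb.e (@T16.mk En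
    (@En.n l97 (nat_lit 12831) (nat_lit 1) (nat_lit 14))
    (@En.i (nat_lit 5890) (nat_lit 1) (nat_lit 14))
    (@En.n l617 (nat_lit 12830) (nat_lit 2) (nat_lit 7))
    (@En.n l17 (nat_lit 12831) (nat_lit 3) (nat_lit 2))
    (@En.i (nat_lit 12830) (nat_lit 4) (nat_lit 4))
    (@En.n l8122 (nat_lit 13232) (nat_lit 6) (nat_lit 14))
    (@En.i (nat_lit 13473) (nat_lit 6) (nat_lit 4))
    (@En.i (nat_lit 13938) (nat_lit 7) (nat_lit 5))
    (@En.n l8122 (nat_lit 13071) (nat_lit 9) (nat_lit 12))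
    (@En.n l564 (nat_lit 14046) (nat_lit 10) (nat_lit 9))
    (@En.n l12890 (nat_lit 13555) (nat_lit 11) (nat_lit 12))
    (@En.n l28 (nat_lit 12831) (nat_lit 11) (nat_lit 2))
    (@En.i (nat_lit 13384) (nat_lit 13) (nat_lit 11))
    (@En.n l8122 (nat_lit 3201) (nat_lit 1) (nat_lit 14))
    (@En.n l107 (nat_lit 12831) (nat_lit 14) (nat_lit 2))
    (@En.n l3 (nat_lit 12831) (nat_lit 15) (nat_lit 2))))
noncomputable def a802 : T16 Cl := @T16.mk Cl
  (@Cl.mk (nat_lit 0x20002000e00090002000a0009000e000c00020007000600040007000e000e) (nat_lit 0x23057690000045) (nat_lit 16) Lb.e (@T16.mk En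
    (@En.n l5 (nat_lit 12832) (nat_lit 1) (nat_lit 14))
    (@En.n l4889 (nat_lit 4662) (nat_lit 11) (nat_lit 14))
    (@En.n l5366 (nat_lit 14061) (nat_lit 11) (nat_lit 7))
    (@En.n l417 (nat_lit 12822) (nat_lit 3) (nat_lit 4))
    (@En.n l4889 (nat_lit 13472) (nat_lit 4) (nat_lit 6))
    (@En.n l1823 (nat_lit 13896) (nat_lit 5) (nat_lit 7))
    (@En.n l28 (nat_lit 12832) (nat_lit 6) (nat_lit 2))
    (@En.n l5231 (nat_lit 12830) (nat_lit 8) (nat_lit 12))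
    (@En.n l1578 (nat_lit 12849) (nat_lit 9) (nat_lit 14))
    (@En.n l1783 (nat_lit 14048) (nat_lit 10) (nat_lit 9))
    (@En.n l253 (nat_lit 13558) (nat_lit 11) (nat_lit 10))
    (@En.n l3 (nat_lit 12832) (nat_lit 11) (nat_lit 2))
    (@En.i (nat_lit 13387) (nat_lit 13) (nat_lit 9))
    (@En.i (nat_lit 3204) (nat_lit 1) (nat_lit 14))
    (@En.n l17 (nat_lit 12832) (nat_lit 14) (nat_lit 2))
    (@En.n l18 (nat_lit 12832) (nat_lit 15) (nat_lit 2))))
  (@Cl.mk (nat_lit 0x20002000e000b00020009000c000c0005000c0004000400070004000e000e) (nat_lit 0x220667010000ab) (nat_lit 16) Lb.e (@T16.mk En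
    (@En.n l97 (nat_lit 12833) (nat_lit 1) (nat_lit 14))
    (@En.i (nat_lit 5866) (nat_lit 1) (nat_lit 14))
    (@En.n l387 (nat_lit 14049) (nat_lit 2) (nat_lit 4))
    (@En.n l2114 (nat_lit 14048) (nat_lit 3) (nat_lit 7))
    (@En.n l1959 (nat_lit 14048) (nat_lit 4) (nat_lit 4))
    (@En.n l2220 (nat_lit 12827) (nat_lit 5) (nat_lit 4))
    (@En.n l613 (nat_lit 250) (nat_lit 7) (nat_lit 12))
    (@En.n l13646 (nat_lit 13987) (nat_lit 7) (nat_lit 5))
    (@En.n l217 (nat_lit 14046) (nat_lit 9) (nat_lit 12))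
    (@En.i (nat_lit 14047) (nat_lit 10) (nat_lit 12))
    (@En.n l13647 (nat_lit 13924) (nat_lit 11) (nat_lit 9))
    (@En.n l28 (nat_lit 12833) (nat_lit 11) (nat_lit 2))
    (@En.n l13648 (nat_lit 14044) (nat_lit 13) (nat_lit 11))
    (@En.n l13649 (nat_lit 998) (nat_lit 1) (nat_lit 14))
    (@En.n l107 (nat_lit 12833) (nat_lit 14) (nat_lit 2))
    (@En.n l3 (nat_lit 12833) (nat_lit 15) (nat_lit 2))))
  (@Cl.mk (nat_lit 0x2000a000e00070002000b000e00060002000c0005000c00090004000e0004) (nat_lit 0x42003a0070670a0) (nat_lit 16) Lb.e (@T16.mk En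
    (@En.n l7 (nat_lit 10098) (nat_lit 8) (nat_lit 4))
    (@En.n l4660 (nat_lit 1889) (nat_lit 1) (nat_lit 14))
    (@En.n l8880 (nat_lit 4852) (nat_lit 6) (nat_lit 4))
    (@En.n l2552 (nat_lit 12629) (nat_lit 3) (nat_lit 9))
    (@En.n l1865 (nat_lit 9116) (nat_lit 9) (nat_lit 12))
    (@En.n l8881 (nat_lit 10100) (nat_lit 14) (nat_lit 5))
    (@En.n l8882 (nat_lit 10796) (nat_lit 7) (nat_lit 12))
    (@En.n l67 (nat_lit 12834) (nat_lit 7) (nat_lit 2))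
    (@En.n l8883 (nat_lit 10121) (nat_lit 8) (nat_lit 6))
    (@En.n l4660 (nat_lit 4169) (nat_lit 10) (nat_lit 14))
    (@En.n l8884 (nat_lit 12202) (nat_lit 2) (nat_lit 11))
    (@En.n l17 (nat_lit 12834) (nat_lit 11) (nat_lit 2))
    (@En.n l8885 (nat_lit 11136) (nat_lit 4) (nat_lit 7))
    (@En.i (nat_lit 3749) (nat_lit 6) (nat_lit 14))
    (@En.n l830 (nat_lit 10970) (nat_lit 2) (nat_lit 10))
    (@En.n l50 (nat_lit 12834) (nat_lit 15) (nat_lit 2))))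
  (@Cl.mk (nat_lit 0x20005000c00090005000e00040002000b000e00070002000b0005000e000b) (nat_lit 0x740b0063007044) (nat_lit 16) Lb.e (@T16.mk En
    (@En.n l55 (nat_lit 10803) (nat_lit 8) (nat_lit 11))
    (@En.n l617 (nat_lit 12836) (nat_lit 1) (nat_lit 14))
    (@En.n l17 (nat_lit 11367) (nat_lit 14) (nat_lit 5))
    (@En.n l3630 (nat_lit 12600) (nat_lit 3) (nat_lit 11))
    (@En.n l3 (nat_lit 12835) (nat_lit 4) (nat_lit 2))
    (@En.n l17945 (nat_lit 11341) (nat_lit 5) (nat_lit 7))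
    (@En.n l17946 (nat_lit 2905) (nat_lit 7) (nat_lit 14))
    (@En.n l3026 (nat_lit 5077) (nat_lit 8) (nat_lit 11))
    (@En.n l50 (nat_lit 12835) (nat_lit 8) (nat_lit 2))
    (@En.n l9375 (nat_lit 11340) (nat_lit 9) (nat_lit 4))
    (@En.n l10192 (nat_lit 1886) (nat_lit 11) (nat_lit 14))
    (@En.i (nat_lit 4864) (nat_lit 6) (nat_lit 5))
    (@En.n l17946 (nat_lit 9232) (nat_lit 13) (nat_lit 9))
    (@En.i (nat_lit 9002) (nat_lit 9) (nat_lit 12))
    (@En.n l8987 (nat_lit 12834) (nat_lit 5) (nat_lit 5))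
    (@En.n l11 (nat_lit 12835) (nat_lit 15) (nat_lit 2))))
  (@Cl.mk (nat_lit 0x200080005000c00090006000e000400020008000e00070002000b000e000a) (nat_lit 0x20850b003200733) (nat_lit 16) Lb.e (@T16.mk En
    (@En.n l55 (nat_lit 10801) (nat_lit 9) (nat_lit 10))
    (@En.n l8985 (nat_lit 2116) (nat_lit 10) (nat_lit 14))
    (@En.n l8986 (nat_lit 10743) (nat_lit 2) (nat_lit 11))
    (@En.n l3 (nat_lit 12836) (nat_lit 3) (nat_lit 2))
    (@En.n l5580 (nat_lit 11345) (nat_lit 4) (nat_lit 7))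
    (@En.n l8987 (nat_lit 2987) (nat_lit 6) (nat_lit 14))
    (@En.n l8988 (nat_lit 11183) (nat_lit 6) (nat_lit 8))
    (@En.n l50 (nat_lit 12836) (nat_lit 7) (nat_lit 2))
    (@En.n l8989 (nat_lit 11346) (nat_lit 8) (nat_lit 4))
    (@En.n l8988 (nat_lit 1887) (nat_lit 10) (nat_lit 14))
    (@En.i (nat_lit 4867) (nat_lit 2) (nat_lit 6))
    (@En.n l8990 (nat_lit 9237) (nat_lit 3) (nat_lit 9))
    (@En.n l1353 (nat_lit 9889) (nat_lit 9) (nat_lit 12))
    (@En.n l61 (nat_lit 12835) (nat_lit 14) (nat_lit 5))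
    (@En.n l8991 (nat_lit 7665) (nat_lit 6) (nat_lit 8))
    (@En.n l11 (nat_lit 12836) (nat_lit 15) (nat_lit 2))))
  (@Cl.mk (nat_lit 0x20006000e00060002000c0007000b000e00040002000a0005000a000e0009) (nat_lit 0x20060580050655) (nat_lit 16) Lb.e (@T16.mk En
    (@En.n l20918 (nat_lit 11136) (nat_lit 11) (nat_lit 9))
    (@En.n l12369 (nat_lit 2134) (nat_lit 12) (nat_lit 14))
    (@En.n l8853 (nat_lit 8232) (nat_lit 2) (nat_lit 10))
    (@En.n l20919 (nat_lit 12838) (nat_lit 14) (nat_lit 5))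
    (@En.n l20920 (nat_lit 10786) (nat_lit 4) (nat_lit 10))
    (@En.n l28 (nat_lit 12837) (nat_lit 5) (nat_lit 2))
    (@En.n l9103 (nat_lit 11640) (nat_lit 6) (nat_lit 4))
    (@En.i (nat_lit 3426) (nat_lit 8) (nat_lit 14))
    (@En.n l3036 (nat_lit 2755) (nat_lit 9) (nat_lit 11))
    (@En.n l20563 (nat_lit 11430) (nat_lit 14) (nat_lit 7))
    (@En.i (nat_lit 11496) (nat_lit 11) (nat_lit 12))
    (@En.n l725 (nat_lit 12837) (nat_lit 11) (nat_lit 2))
    (@En.n l17 (nat_lit 12839) (nat_lit 13) (nat_lit 6))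
    (@En.i (nat_lit 1355) (nat_lit 8) (nat_lit 14))
    (@En.n l2642 (nat_lit 8513) (nat_lit 8) (nat_lit 6))
    (@En.n l3 (nat_lit 12837) (nat_lit 15) (nat_lit 2))))
  (@Cl.mk (nat_lit 0x20005000a000e000900020009000e00060002000b0007000b0007000e0005) (nat_lit 0x63403300606090) (nat_lit 16) Lb.e (@T16.mk En
    (@En.n l9126 (nat_lit 11641) (nat_lit 5) (nat_lit 5))
    (@En.n l4381 (nat_lit 12837) (nat_lit 7) (nat_lit 14))
    (@En.n l9127 (nat_lit 5743) (nat_lit 7) (nat_lit 7))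
    (@En.i (nat_lit 2754) (nat_lit 3) (nat_lit 11))
    (@En.n l360 (nat_lit 11665) (nat_lit 4) (nat_lit 7))
    (@En.n l9128 (nat_lit 10965) (nat_lit 11) (nat_lit 11))
    (@En.n l7 (nat_lit 12838) (nat_lit 6) (nat_lit 2))
    (@En.n l9129 (nat_lit 12840) (nat_lit 7) (nat_lit 6))
    (@En.n l540 (nat_lit 611) (nat_lit 9) (nat_lit 14))
    (@En.n l9130 (nat_lit 11231) (nat_lit 10) (nat_lit 9))
    (@En.n l107 (nat_lit 12838) (nat_lit 10) (nat_lit 2))
    (@En.n l9131 (nat_lit 11134) (nat_lit 12) (nat_lit 9))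
    (@En.i (nat_lit 2125) (nat_lit 13) (nat_lit 14))
    (@En.n l360 (nat_lit 11186) (nat_lit 2) (nat_lit 10))
    (@En.n l9132 (nat_lit 11369) (nat_lit 13) (nat_lit 5))
    (@En.n l17 (nat_lit 12838) (nat_lit 15) (nat_lit 2))))
  (@Cl.mk (nat_lit 0x2000700060006000c0006000b000e0004000200090005000a000a000e000a) (nat_lit 0x505700507765) (nat_lit 16) Lb.e (@T16.mk En
    (@En.n l19865 (nat_lit 11137) (nat_lit 10) (nat_lit 10))
    (@En.n l31626 (nat_lit 7667) (nat_lit 11) (nat_lit 14))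
    (@En.n l1353 (nat_lit 12837) (nat_lit 2) (nat_lit 10))
    (@En.n l4994 (nat_lit 10036) (nat_lit 3) (nat_lit 10))
    (@En.n l31627 (nat_lit 12840) (nat_lit 14) (nat_lit 5))
    (@En.i (nat_lit 10114) (nat_lit 5) (nat_lit 9))
    (@En.n l28 (nat_lit 12839) (nat_lit 6) (nat_lit 2))
    (@En.n l31628 (nat_lit 11634) (nat_lit 7) (nat_lit 4))
    (@En.i (nat_lit 2034) (nat_lit 9) (nat_lit 14))
    (@En.n l9556 (nat_lit 2756) (nat_lit 2) (nat_lit 11))
    (@En.n l31629 (nat_lit 11660) (nat_lit 3) (nat_lit 6))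
    (@En.i (nat_lit 8003) (nat_lit 12) (nat_lit 12))
    (@En.n l2345 (nat_lit 12278) (nat_lit 5) (nat_lit 6))
    (@En.i (nat_lit 12745) (nat_lit 14) (nat_lit 6))
    (@En.n l17549 (nat_lit 8518) (nat_lit 7) (nat_lit 7))
    (@En.n l3 (nat_lit 12839) (nat_lit 15) (nat_lit 2))))
  (@Cl.mk (nat_lit 0x20005000a000a000e000a0002000a00060006000b0006000b0006000e0005) (nat_lit 0x77470300505080) (nat_lit 16) Lb.e (@T16.mk En
    (@En.i (nat_lit 11638) (nat_lit 6) (nat_lit 5))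
    (@En.n l21594 (nat_lit 12839) (nat_lit 8) (nat_lit 14))
    (@En.n l15905 (nat_lit 5697) (nat_lit 2) (nat_lit 6))
    (@En.n l21595 (nat_lit 2757) (nat_lit 3) (nat_lit 11))
    (@En.i (nat_lit 11663) (nat_lit 4) (nat_lit 6))
    (@En.n l117 (nat_lit 11155) (nat_lit 12) (nat_lit 11))
    (@En.n l575 (nat_lit 12276) (nat_lit 6) (nat_lit 6))
    (@En.n l21596 (nat_lit 12746) (nat_lit 7) (nat_lit 6))
    (@En.n l21597 (nat_lit 11225) (nat_lit 9) (nat_lit 10))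
    (@En.n l7 (nat_lit 12840) (nat_lit 9) (nat_lit 2))
    (@En.n l644 (nat_lit 10097) (nat_lit 11) (nat_lit 10))
    (@En.n l9390 (nat_lit 7666) (nat_lit 12) (nat_lit 14))
    (@En.n l10546 (nat_lit 12838) (nat_lit 13) (nat_lit 10))
    (@En.n l1501 (nat_lit 10037) (nat_lit 3) (nat_lit 10))
    (@En.i (nat_lit 11347) (nat_lit 13) (nat_lit 5))
    (@En.n l3 (nat_lit 12840) (nat_lit 15) (nat_lit 2))))
  (@Cl.mk (nat_lit 0x20006000b000e000a000200090005000c000a0006000a00040007000e0006) (nat_lit 0x544050a40100b0) (nat_lit 16) Lb.e (@T16.mk En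
    (@En.n l11512 (nat_lit 9325) (nat_lit 5) (nat_lit 6))
    (@En.i (nat_lit 8023) (nat_lit 7) (nat_lit 14))
    (@En.n l5269 (nat_lit 12838) (nat_lit 2) (nat_lit 7))
    (@En.i (nat_lit 5276) (nat_lit 3) (nat_lit 4))
    (@En.n l7611 (nat_lit 2280) (nat_lit 4) (nat_lit 10))
    (@En.n l17597 (nat_lit 8630) (nat_lit 5) (nat_lit 6))
    (@En.n l17598 (nat_lit 12468) (nat_lit 12) (nat_lit 10))
    (@En.n l617 (nat_lit 12843) (nat_lit 8) (nat_lit 12))
    (@En.n l17 (nat_lit 12842) (nat_lit 14) (nat_lit 5))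
    (@En.i (nat_lit 9632) (nat_lit 10) (nat_lit 9))
    (@En.n l3 (nat_lit 12841) (nat_lit 10) (nat_lit 2))
    (@En.n l4817 (nat_lit 11513) (nat_lit 12) (nat_lit 10))
    (@En.n l5269 (nat_lit 1810) (nat_lit 13) (nat_lit 14))
    (@En.n l17599 (nat_lit 11346) (nat_lit 2) (nat_lit 11))
    (@En.n l5934 (nat_lit 11676) (nat_lit 3) (nat_lit 6))
    (@En.n l7 (nat_lit 12841) (nat_lit 15) (nat_lit 2))))
  (@Cl.mk (nat_lit 0x20005000c000a0005000a0004000a000e000600020006000b0006000e000b) (nat_lit 0xa3010390005055) (nat_lit 16) Lb.e (@T16.mk En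
    (@En.i (nat_lit 11515) (nat_lit 11) (nat_lit 11))
    (@En.i (nat_lit 12841) (nat_lit 12) (nat_lit 14))
    (@En.i (nat_lit 12843) (nat_lit 13) (nat_lit 6))
    (@En.i (nat_lit 11340) (nat_lit 3) (nat_lit 11))
    (@En.n l5934 (nat_lit 11681) (nat_lit 4) (nat_lit 6))
    (@En.n l7 (nat_lit 12842) (nat_lit 5) (nat_lit 2))
    (@En.n l11512 (nat_lit 9326) (nat_lit 6) (nat_lit 6))
    (@En.i (nat_lit 8021) (nat_lit 8) (nat_lit 14))
    (@En.n l532 (nat_lit 12746) (nat_lit 2) (nat_lit 10))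
    (@En.i (nat_lit 5277) (nat_lit 9) (nat_lit 4))
    (@En.i (nat_lit 2279) (nat_lit 11) (nat_lit 10))
    (@En.n l17597 (nat_lit 11532) (nat_lit 5) (nat_lit 5))
    (@En.n l55 (nat_lit 12465) (nat_lit 13) (nat_lit 10))
    (@En.n l617 (nat_lit 9223) (nat_lit 8) (nat_lit 12))
    (@En.i (nat_lit 7581) (nat_lit 8) (nat_lit 5))
    (@En.n l3 (nat_lit 12842) (nat_lit 15) (nat_lit 2))))
  (@Cl.mk (nat_lit 0x200070006000e000b00020009000c0009000500090004000a0007000e0007) (nat_lit 0x44059301020a0) (nat_lit 16) Lb.e (@T16.mk En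
    (@En.n l24507 (nat_lit 9324) (nat_lit 5) (nat_lit 7))
    (@En.n l2869 (nat_lit 8005) (nat_lit 7) (nat_lit 14))
    (@En.n l61 (nat_lit 12841) (nat_lit 2) (nat_lit 7))
    (@En.n l7245 (nat_lit 12375) (nat_lit 3) (nat_lit 10))
    (@En.i (nat_lit 4641) (nat_lit 4) (nat_lit 4))
    (@En.n l7882 (nat_lit 2283) (nat_lit 5) (nat_lit 9))
    (@En.n l2154 (nat_lit 8627) (nat_lit 6) (nat_lit 5))
    (@En.n l7245 (nat_lit 9162) (nat_lit 13) (nat_lit 9))
    (@En.n l12149 (nat_lit 9222) (nat_lit 9) (nat_lit 12))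
    (@En.i (nat_lit 9633) (nat_lit 10) (nat_lit 9))
    (@En.n l3 (nat_lit 12843) (nat_lit 10) (nat_lit 2))
    (@En.n l24508 (nat_lit 9891) (nat_lit 12) (nat_lit 11))
    (@En.n l12147 (nat_lit 1808) (nat_lit 13) (nat_lit 14))
    (@En.n l2154 (nat_lit 9889) (nat_lit 14) (nat_lit 6))
    (@En.n l5934 (nat_lit 12230) (nat_lit 3) (nat_lit 7))
    (@En.n l7 (nat_lit 12843) (nat_lit 15) (nat_lit 2))))
  (@Cl.mk (nat_lit 0x20002000e000c0002000c000a0004000e00040002000e00060002000e000e) (nat_lit 0x130660800a0078) (nat_lit 16) Lb.e (@T16.mk En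
    (@En.n l97 (nat_lit 12844) (nat_lit 1) (nat_lit 14))
    (@En.i (nat_lit 2682) (nat_lit 1) (nat_lit 14))
    (@En.n l17 (nat_lit 12844) (nat_lit 2) (nat_lit 2))
    (@En.n l8244 (nat_lit 12990) (nat_lit 3) (nat_lit 6))
    (@En.i (nat_lit 14047) (nat_lit 5) (nat_lit 14))
    (@En.n l776 (nat_lit 12844) (nat_lit 5) (nat_lit 2))
    (@En.n l12350 (nat_lit 12846) (nat_lit 6) (nat_lit 4))
    (@En.i (nat_lit 13760) (nat_lit 8) (nat_lit 14))
    (@En.n l4799 (nat_lit 13211) (nat_lit 8) (nat_lit 4))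
    (@En.n l217 (nat_lit 13461) (nat_lit 10) (nat_lit 10))
    (@En.n l5378 (nat_lit 13181) (nat_lit 11) (nat_lit 12))
    (@En.n l28 (nat_lit 12844) (nat_lit 11) (nat_lit 2))
    (@En.n l12351 (nat_lit 12845) (nat_lit 13) (nat_lit 12))
    (@En.n l9542 (nat_lit 2905) (nat_lit 1) (nat_lit 14))
    (@En.n l107 (nat_lit 12844) (nat_lit 14) (nat_lit 2))
    (@En.n l3 (nat_lit 12844) (nat_lit 15) (nat_lit 2))))
  (@Cl.mk (nat_lit 0x20002000c000c000b000900040004000e00050002000e00070002000e000e) (nat_lit 0x234500900a0078) (nat_lit 16) Lb.e (@T16.mk En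
    (@En.n l5 (nat_lit 12845) (nat_lit 1) (nat_lit 14))
    (@En.n l4372 (nat_lit 3708) (nat_lit 1) (nat_lit 14))
    (@En.n l7 (nat_lit 12845) (nat_lit 2) (nat_lit 2))
    (@En.n l12126 (nat_lit 12989) (nat_lit 3) (nat_lit 7))
    (@En.n l12352 (nat_lit 13475) (nat_lit 5) (nat_lit 14))
    (@En.n l11 (nat_lit 12845) (nat_lit 5) (nat_lit 2))
    (@En.n l117 (nat_lit 12847) (nat_lit 6) (nat_lit 5))
    (@En.n l407 (nat_lit 13404) (nat_lit 8) (nat_lit 14))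
    (@En.n l12353 (nat_lit 12844) (nat_lit 8) (nat_lit 4))
    (@En.n l12354 (nat_lit 13210) (nat_lit 9) (nat_lit 4))
    (@En.n l5544 (nat_lit 13448) (nat_lit 11) (nat_lit 9))
    (@En.n l936 (nat_lit 13207) (nat_lit 12) (nat_lit 11))
    (@En.n l31 (nat_lit 13478) (nat_lit 13) (nat_lit 12))
    (@En.n l11733 (nat_lit 2097) (nat_lit 14) (nat_lit 12))
    (@En.n l17 (nat_lit 12845) (nat_lit 14) (nat_lit 2))
    (@En.n l18 (nat_lit 12845) (nat_lit 15) (nat_lit 2))))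
  (@Cl.mk (nat_lit 0x20002000e000b0002000c000c000b000500040004000e00050002000e000e) (nat_lit 0x130677000b0067) (nat_lit 16) Lb.e (@T16.mk En
    (@En.n l5 (nat_lit 12846) (nat_lit 1) (nat_lit 14))
    (@En.n l4936 (nat_lit 4084) (nat_lit 1) (nat_lit 14))
    (@En.n l7 (nat_lit 12846) (nat_lit 2) (nat_lit 2))
    (@En.n l4937 (nat_lit 12988) (nat_lit 3) (nat_lit 5))
    (@En.n l4936 (nat_lit 12831) (nat_lit 5) (nat_lit 14))
    (@En.i (nat_lit 13102) (nat_lit 5) (nat_lit 4))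
    (@En.n l4936 (nat_lit 13070) (nat_lit 6) (nat_lit 4))
    (@En.n l4938 (nat_lit 13207) (nat_lit 7) (nat_lit 5))
    (@En.n l55 (nat_lit 13069) (nat_lit 9) (nat_lit 11))
    (@En.n l1783 (nat_lit 12844) (nat_lit 10) (nat_lit 12))
    (@En.n l253 (nat_lit 12968) (nat_lit 11) (nat_lit 12))
    (@En.n l3 (nat_lit 12846) (nat_lit 11) (nat_lit 2))
    (@En.n l4939 (nat_lit 12847) (nat_lit 13) (nat_lit 11))
    (@En.i (nat_lit 2902) (nat_lit 1) (nat_lit 14))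
    (@En.n l17 (nat_lit 12846) (nat_lit 14) (nat_lit 2))
    (@En.n l18 (nat_lit 12846) (nat_lit 15) (nat_lit 2))))
  (@Cl.mk (nat_lit 0x20002000b000b000b000b000a0005000500050005000e00060002000e000e) (nat_lit 0x24557000040089) (nat_lit 16) Lb.e (@T16.mk En
    (@En.n l5 (nat_lit 12847) (nat_lit 1) (nat_lit 14))
    (@En.n l12447 (nat_lit 3706) (nat_lit 1) (nat_lit 14))
    (@En.n l7 (nat_lit 12847) (nat_lit 2) (nat_lit 2))
    (@En.i (nat_lit 12911) (nat_lit 3) (nat_lit 6))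
    (@En.n l12448 (nat_lit 13384) (nat_lit 5) (nat_lit 14))
    (@En.n l12449 (nat_lit 13103) (nat_lit 5) (nat_lit 5))
    (@En.n l4976 (nat_lit 13422) (nat_lit 6) (nat_lit 5))
    (@En.n l4147 (nat_lit 12846) (nat_lit 7) (nat_lit 5))
    (@En.i (nat_lit 13201) (nat_lit 8) (nat_lit 5))
    (@En.i (nat_lit 13035) (nat_lit 10) (nat_lit 10))
    (@En.n l619 (nat_lit 12845) (nat_lit 11) (nat_lit 11))
    (@En.n l11904 (nat_lit 13198) (nat_lit 12) (nat_lit 11))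
    (@En.n l493 (nat_lit 13381) (nat_lit 13) (nat_lit 11))
    (@En.i (nat_lit 1908) (nat_lit 14) (nat_lit 11))
    (@En.n l17 (nat_lit 12847) (nat_lit 14) (nat_lit 2))
    (@En.n l18 (nat_lit 12847) (nat_lit 15) (nat_lit 2))))
noncomputable def a803 : T16 Cl := @T16.mk Cl
  (@Cl.mk (nat_lit 0x20002000e000800020009000e000d0002000c0003000800070004000e000e) (nat_lit 0x1305670a05009a) (nat_lit 16) Lb.e (@T16.mk En
    (@En.n l5 (nat_lit 12848) (nat_lit 1) (nat_lit 14))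
    (@En.n l1598 (nat_lit 5128) (nat_lit 1) (nat_lit 14))
    (@En.i (nat_lit 12850) (nat_lit 2) (nat_lit 4))
    (@En.n l624 (nat_lit 13449) (nat_lit 3) (nat_lit 7))
    (@En.i (nat_lit 13486) (nat_lit 4) (nat_lit 8))
    (@En.i (nat_lit 12789) (nat_lit 5) (nat_lit 3))
    (@En.i (nat_lit 12832) (nat_lit 7) (nat_lit 12))
    (@En.n l11 (nat_lit 12848) (nat_lit 7) (nat_lit 2))
    (@En.n l1578 (nat_lit 12789) (nat_lit 9) (nat_lit 13))
    (@En.i (nat_lit 14052) (nat_lit 10) (nat_lit 14))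
    (@En.n l253 (nat_lit 13051) (nat_lit 11) (nat_lit 9))
    (@En.n l3 (nat_lit 12848) (nat_lit 11) (nat_lit 2))
    (@En.n l5005 (nat_lit 12785) (nat_lit 13) (nat_lit 8))
    (@En.i (nat_lit 3231) (nat_lit 1) (nat_lit 14))
    (@En.n l17 (nat_lit 12848) (nat_lit 14) (nat_lit 2))
    (@En.n l18 (nat_lit 12848) (nat_lit 15) (nat_lit 2))))
  (@Cl.mk (nat_lit 0x20002000e00090002000a000e000b0002000c0007000600050004000e000e) (nat_lit 0x230458090000ab) (nat_lit 16) Lb.e (@T16.mk En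
    (@En.n l5 (nat_lit 12849) (nat_lit 1) (nat_lit 14))
    (@En.n l4955 (nat_lit 4660) (nat_lit 1) (nat_lit 14))
    (@En.i (nat_lit 12848) (nat_lit 2) (nat_lit 4))
    (@En.n l4955 (nat_lit 12857) (nat_lit 3) (nat_lit 5))
    (@En.n l4889 (nat_lit 13461) (nat_lit 4) (nat_lit 6))
    (@En.n l1599 (nat_lit 13146) (nat_lit 5) (nat_lit 7))
    (@En.n l4889 (nat_lit 12830) (nat_lit 7) (nat_lit 12))
    (@En.n l11 (nat_lit 12849) (nat_lit 7) (nat_lit 2))
    (@En.n l4956 (nat_lit 12988) (nat_lit 9) (nat_lit 11))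
    (@En.i (nat_lit 14053) (nat_lit 10) (nat_lit 14))
    (@En.n l253 (nat_lit 12967) (nat_lit 11) (nat_lit 10))
    (@En.n l3 (nat_lit 12849) (nat_lit 11) (nat_lit 2))
    (@En.n l4957 (nat_lit 13703) (nat_lit 13) (nat_lit 9))
    (@En.i (nat_lit 3230) (nat_lit 1) (nat_lit 14))
    (@En.n l17 (nat_lit 12849) (nat_lit 14) (nat_lit 2))
    (@En.n l18 (nat_lit 12849) (nat_lit 15) (nat_lit 2))))
  (@Cl.mk (nat_lit 0x20002000e00070002000b000e000c0002000c0005000400090004000e000e) (nat_lit 0x3004670a00009a) (nat_lit 16) Lb.e (@T16.mk En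
    (@En.n l5 (nat_lit 12850) (nat_lit 1) (nat_lit 14))
    (@En.n l420 (nat_lit 4699) (nat_lit 1) (nat_lit 14))
    (@En.n l7 (nat_lit 12849) (nat_lit 2) (nat_lit 4))
    (@En.i (nat_lit 13480) (nat_lit 3) (nat_lit 9))
    (@En.n l1361 (nat_lit 12855) (nat_lit 4) (nat_lit 4))
    (@En.n l1603 (nat_lit 12852) (nat_lit 5) (nat_lit 5))
    (@En.n l417 (nat_lit 12822) (nat_lit 7) (nat_lit 12))
    (@En.n l11 (nat_lit 12850) (nat_lit 7) (nat_lit 2))
    (@En.n l4495 (nat_lit 12851) (nat_lit 9) (nat_lit 12))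
    (@En.n l125 (nat_lit 13753) (nat_lit 10) (nat_lit 14))
    (@En.i (nat_lit 13325) (nat_lit 11) (nat_lit 11))
    (@En.n l3 (nat_lit 12850) (nat_lit 11) (nat_lit 2))
    (@En.n l3258 (nat_lit 13744) (nat_lit 13) (nat_lit 7))
    (@En.i (nat_lit 3612) (nat_lit 1) (nat_lit 14))
    (@En.n l17 (nat_lit 12850) (nat_lit 14) (nat_lit 2))
    (@En.n l18 (nat_lit 12850) (nat_lit 15) (nat_lit 2))))
  (@Cl.mk (nat_lit 0x20002000e00070002000c000c000c000b00040004000400090005000e000e) (nat_lit 0x20056780000023) (nat_lit 16) Lb.e (@T16.mk En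
    (@En.n l97 (nat_lit 12851) (nat_lit 1) (nat_lit 14))
    (@En.n l1396 (nat_lit 4786) (nat_lit 1) (nat_lit 14))
    (@En.i (nat_lit 12988) (nat_lit 2) (nat_lit 5))
    (@En.n l1397 (nat_lit 13885) (nat_lit 3) (nat_lit 9))
    (@En.n l1398 (nat_lit 12850) (nat_lit 4) (nat_lit 4))
    (@En.n l1399 (nat_lit 12860) (nat_lit 5) (nat_lit 4))
    (@En.i (nat_lit 12853) (nat_lit 6) (nat_lit 4))
    (@En.n l1400 (nat_lit 12857) (nat_lit 8) (nat_lit 11))
    (@En.n l742 (nat_lit 13002) (nat_lit 9) (nat_lit 12))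
    (@En.n l396 (nat_lit 12854) (nat_lit 10) (nat_lit 12))
    (@En.n l1401 (nat_lit 13328) (nat_lit 11) (nat_lit 12))
    (@En.n l28 (nat_lit 12851) (nat_lit 11) (nat_lit 2))
    (@En.n l357 (nat_lit 13007) (nat_lit 13) (nat_lit 7))
    (@En.n l1401 (nat_lit 3610) (nat_lit 1) (nat_lit 14))
    (@En.n l107 (nat_lit 12851) (nat_lit 14) (nat_lit 2))
    (@En.n l3 (nat_lit 12851) (nat_lit 15) (nat_lit 2))))
  (@Cl.mk (nat_lit 0x20002000e00070002000b0009000e000d00020005000300090007000e000e) (nat_lit 0x30046780000023) (nat_lit 16) Lb.e (@T16.mk En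
    (@En.n l5 (nat_lit 12852) (nat_lit 1) (nat_lit 14))
    (@En.n l4021 (nat_lit 4788) (nat_lit 11) (nat_lit 14))
    (@En.i (nat_lit 12982) (nat_lit 2) (nat_lit 7))
    (@En.n l1170 (nat_lit 13482) (nat_lit 3) (nat_lit 9))
    (@En.n l417 (nat_lit 12853) (nat_lit 4) (nat_lit 3))
    (@En.i (nat_lit 13752) (nat_lit 5) (nat_lit 5))
    (@En.n l28 (nat_lit 12852) (nat_lit 6) (nat_lit 2))
    (@En.n l5029 (nat_lit 12853) (nat_lit 8) (nat_lit 13))
    (@En.n l5577 (nat_lit 12850) (nat_lit 9) (nat_lit 14))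
    (@En.n l1170 (nat_lit 12848) (nat_lit 10) (nat_lit 9))
    (@En.n l5030 (nat_lit 13324) (nat_lit 11) (nat_lit 11))
    (@En.n l3 (nat_lit 12852) (nat_lit 11) (nat_lit 2))
    (@En.n l5030 (nat_lit 13008) (nat_lit 13) (nat_lit 7))
    (@En.i (nat_lit 3597) (nat_lit 7) (nat_lit 14))
    (@En.n l17 (nat_lit 12852) (nat_lit 14) (nat_lit 2))
    (@En.n l18 (nat_lit 12852) (nat_lit 15) (nat_lit 2))))
  (@Cl.mk (nat_lit 0x20002000e00070002000c0009000d000d00040003000300090007000e000e) (nat_lit 0x30055780000023) (nat_lit 16) Lb.e (@T16.mk En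
    (@En.n l97 (nat_lit 12853) (nat_lit 1) (nat_lit 14))
    (@En.i (nat_lit 4787) (nat_lit 1) (nat_lit 14))
    (@En.i (nat_lit 12980) (nat_lit 2) (nat_lit 7))
    (@En.n l1397 (nat_lit 13887) (nat_lit 3) (nat_lit 9))
    (@En.n l4391 (nat_lit 12852) (nat_lit 4) (nat_lit 3))
    (@En.n l18 (nat_lit 13003) (nat_lit 5) (nat_lit 3))
    (@En.i (nat_lit 12854) (nat_lit 6) (nat_lit 4))
    (@En.n l61 (nat_lit 13003) (nat_lit 8) (nat_lit 13))
    (@En.n l4392 (nat_lit 12855) (nat_lit 9) (nat_lit 13))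
    (@En.n l1375 (nat_lit 12789) (nat_lit 10) (nat_lit 9))
    (@En.n l4393 (nat_lit 13140) (nat_lit 11) (nat_lit 12))
    (@En.n l28 (nat_lit 12853) (nat_lit 11) (nat_lit 2))
    (@En.n l1373 (nat_lit 13005) (nat_lit 13) (nat_lit 7))
    (@En.n l4394 (nat_lit 3599) (nat_lit 1) (nat_lit 14))
    (@En.n l107 (nat_lit 12853) (nat_lit 14) (nat_lit 2))
    (@En.n l3 (nat_lit 12853) (nat_lit 15) (nat_lit 2))))
  (@Cl.mk (nat_lit 0x20002000e00070002000c000b000a000e00040002000500090006000e000e) (nat_lit 0x2005568000009a) (nat_lit 16) Lb.e (@T16.mk En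
    (@En.n l97 (nat_lit 12854) (nat_lit 1) (nat_lit 14))
    (@En.n l4496 (nat_lit 4785) (nat_lit 12) (nat_lit 14))
    (@En.n l435 (nat_lit 12990) (nat_lit 2) (nat_lit 6))
    (@En.n l4497 (nat_lit 13360) (nat_lit 3) (nat_lit 9))
    (@En.n l4498 (nat_lit 13750) (nat_lit 4) (nat_lit 5))
    (@En.n l18 (nat_lit 12854) (nat_lit 5) (nat_lit 2))
    (@En.n l50 (nat_lit 12851) (nat_lit 6) (nat_lit 4))
    (@En.n l4499 (nat_lit 12856) (nat_lit 8) (nat_lit 14))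
    (@En.n l4500 (nat_lit 12858) (nat_lit 9) (nat_lit 10))
    (@En.n l435 (nat_lit 12852) (nat_lit 10) (nat_lit 11))
    (@En.n l4501 (nat_lit 13857) (nat_lit 11) (nat_lit 12))
    (@En.n l28 (nat_lit 12854) (nat_lit 11) (nat_lit 2))
    (@En.n l4497 (nat_lit 13745) (nat_lit 13) (nat_lit 7))
    (@En.n l435 (nat_lit 2641) (nat_lit 8) (nat_lit 14))
    (@En.n l107 (nat_lit 12854) (nat_lit 14) (nat_lit 2))
    (@En.n l3 (nat_lit 12854) (nat_lit 15) (nat_lit 2))))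
  (@Cl.mk (nat_lit 0x20002000e00070002000d000d000c00030003000d000400090003000e000e) (nat_lit 0x30056700a00023) (nat_lit 16) Lb.e (@T16.mk En
    (@En.n l396 (nat_lit 12855) (nat_lit 1) (nat_lit 14))
    (@En.n l397 (nat_lit 4752) (nat_lit 1) (nat_lit 14))
    (@En.n l4344 (nat_lit 12857) (nat_lit 2) (nat_lit 3))
    (@En.n l4345 (nat_lit 13205) (nat_lit 3) (nat_lit 9))
    (@En.n l401 (nat_lit 12851) (nat_lit 4) (nat_lit 4))
    (@En.n l4346 (nat_lit 12821) (nat_lit 6) (nat_lit 13))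
    (@En.n l152 (nat_lit 12859) (nat_lit 6) (nat_lit 3))
    (@En.n l4347 (nat_lit 12856) (nat_lit 7) (nat_lit 3))
    (@En.n l619 (nat_lit 12860) (nat_lit 9) (nat_lit 12))
    (@En.n l4348 (nat_lit 12856) (nat_lit 10) (nat_lit 13))
    (@En.n l4349 (nat_lit 13866) (nat_lit 11) (nat_lit 13))
    (@En.n l403 (nat_lit 12855) (nat_lit 11) (nat_lit 2))
    (@En.i (nat_lit 13698) (nat_lit 13) (nat_lit 7))
    (@En.n l4350 (nat_lit 3565) (nat_lit 1) (nat_lit 14))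
    (@En.n l18 (nat_lit 12855) (nat_lit 14) (nat_lit 2))
    (@En.n l50 (nat_lit 12855) (nat_lit 15) (nat_lit 2))))
  (@Cl.mk (nat_lit 0x20002000e00070002000d000b000e00030002000d000500090003000e000e) (nat_lit 0x30055700a0009a) (nat_lit 16) Lb.e (@T16.mk En
    (@En.n l1482 (nat_lit 12856) (nat_lit 1) (nat_lit 14))
    (@En.i (nat_lit 4784) (nat_lit 1) (nat_lit 14))
    (@En.n l4687 (nat_lit 12858) (nat_lit 2) (nat_lit 3))
    (@En.i (nat_lit 13209) (nat_lit 3) (nat_lit 9))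
    (@En.n l4688 (nat_lit 12854) (nat_lit 4) (nat_lit 5))
    (@En.n l1484 (nat_lit 12824) (nat_lit 6) (nat_lit 13))
    (@En.n l17 (nat_lit 12856) (nat_lit 6) (nat_lit 2))
    (@En.n l4689 (nat_lit 12855) (nat_lit 7) (nat_lit 3))
    (@En.n l4690 (nat_lit 14056) (nat_lit 9) (nat_lit 14))
    (@En.n l1487 (nat_lit 12850) (nat_lit 10) (nat_lit 11))
    (@En.n l1488 (nat_lit 13859) (nat_lit 11) (nat_lit 13))
    (@En.n l7 (nat_lit 12856) (nat_lit 11) (nat_lit 2))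
    (@En.n l1488 (nat_lit 13700) (nat_lit 13) (nat_lit 7))
    (@En.n l1489 (nat_lit 3611) (nat_lit 1) (nat_lit 14))
    (@En.n l11 (nat_lit 12856) (nat_lit 14) (nat_lit 2))
    (@En.n l1157 (nat_lit 12856) (nat_lit 15) (nat_lit 2))))
  (@Cl.mk (nat_lit 0x20002000e00080002000d000d000b00030003000d000800050003000e000e) (nat_lit 0x33065700a0009a) (nat_lit 16) Lb.e (@T16.mk En
    (@En.n l3230 (nat_lit 12857) (nat_lit 1) (nat_lit 14))
    (@En.i (nat_lit 3936) (nat_lit 1) (nat_lit 14))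
    (@En.n l4474 (nat_lit 12855) (nat_lit 2) (nat_lit 3))
    (@En.n l4475 (nat_lit 12846) (nat_lit 3) (nat_lit 5))
    (@En.n l4476 (nat_lit 13144) (nat_lit 4) (nat_lit 8))
    (@En.n l4477 (nat_lit 12823) (nat_lit 6) (nat_lit 13))
    (@En.n l4478 (nat_lit 12861) (nat_lit 6) (nat_lit 3))
    (@En.n l4479 (nat_lit 12858) (nat_lit 7) (nat_lit 3))
    (@En.n l4480 (nat_lit 13101) (nat_lit 9) (nat_lit 11))
    (@En.n l4481 (nat_lit 12858) (nat_lit 10) (nat_lit 13))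
    (@En.n l4163 (nat_lit 13304) (nat_lit 11) (nat_lit 13))
    (@En.n l17 (nat_lit 12857) (nat_lit 11) (nat_lit 2))
    (@En.n l4482 (nat_lit 13691) (nat_lit 13) (nat_lit 8))
    (@En.n l4483 (nat_lit 3613) (nat_lit 1) (nat_lit 14))
    (@En.n l1337 (nat_lit 12857) (nat_lit 14) (nat_lit 2))
    (@En.n l7 (nat_lit 12857) (nat_lit 15) (nat_lit 2))))
  (@Cl.mk (nat_lit 0x20002000e00080002000d000a000e00030002000d000800060003000e000e) (nat_lit 0x34045800a0009a) (nat_lit 16) Lb.e (@T16.mk En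
    (@En.n l5 (nat_lit 12858) (nat_lit 1) (nat_lit 14))
    (@En.n l11963 (nat_lit 3938) (nat_lit 1) (nat_lit 14))
    (@En.n l11964 (nat_lit 12856) (nat_lit 2) (nat_lit 3))
    (@En.n l10295 (nat_lit 12844) (nat_lit 3) (nat_lit 6))
    (@En.n l11965 (nat_lit 13145) (nat_lit 4) (nat_lit 8))
    (@En.n l10295 (nat_lit 12825) (nat_lit 6) (nat_lit 13))
    (@En.n l11 (nat_lit 12858) (nat_lit 6) (nat_lit 2))
    (@En.n l11966 (nat_lit 12857) (nat_lit 7) (nat_lit 3))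
    (@En.n l182 (nat_lit 13953) (nat_lit 0) (nat_lit 14))
    (@En.n l3090 (nat_lit 12849) (nat_lit 10) (nat_lit 10))
    (@En.n l11967 (nat_lit 13302) (nat_lit 11) (nat_lit 13))
    (@En.n l181 (nat_lit 12858) (nat_lit 11) (nat_lit 2))
    (@En.n l4386 (nat_lit 13690) (nat_lit 13) (nat_lit 8))
    (@En.n l3090 (nat_lit 3614) (nat_lit 1) (nat_lit 14))
    (@En.n l17 (nat_lit 12858) (nat_lit 14) (nat_lit 2))
    (@En.n l18 (nat_lit 12858) (nat_lit 15) (nat_lit 2))))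
  (@Cl.mk (nat_lit 0x20002000e00070002000e000d0002000d0003000d000300090003000e000e) (nat_lit 0x100a6020a00023) (nat_lit 16) Lb.e (@T16.mk En
    (@En.n l396 (nat_lit 12859) (nat_lit 1) (nat_lit 14))
    (@En.n l397 (nat_lit 4750) (nat_lit 1) (nat_lit 14))
    (@En.n l1352 (nat_lit 12861) (nat_lit 2) (nat_lit 3))
    (@En.n l1353 (nat_lit 13206) (nat_lit 3) (nat_lit 9))
    (@En.i (nat_lit 12860) (nat_lit 4) (nat_lit 3))
    (@En.n l1352 (nat_lit 13234) (nat_lit 6) (nat_lit 13))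
    (@En.n l117 (nat_lit 12855) (nat_lit 6) (nat_lit 3))
    (@En.i (nat_lit 942) (nat_lit 8) (nat_lit 13))
    (@En.n l3 (nat_lit 12859) (nat_lit 8) (nat_lit 2))
    (@En.i (nat_lit 12855) (nat_lit 10) (nat_lit 13))
    (@En.i (nat_lit 13871) (nat_lit 11) (nat_lit 14))
    (@En.n l403 (nat_lit 12859) (nat_lit 11) (nat_lit 2))
    (@En.i (nat_lit 13701) (nat_lit 13) (nat_lit 7))
    (@En.n l405 (nat_lit 3618) (nat_lit 1) (nat_lit 14))
    (@En.n l18 (nat_lit 12859) (nat_lit 14) (nat_lit 2))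
    (@En.n l50 (nat_lit 12859) (nat_lit 15) (nat_lit 2))))
  (@Cl.mk (nat_lit 0x20002000e00070002000e000c0002000d000c0004000300090004000e000e) (nat_lit 0x100c6019000023) (nat_lit 16) Lb.e (@T16.mk En
    (@En.n l396 (nat_lit 12860) (nat_lit 1) (nat_lit 14))
    (@En.n l397 (nat_lit 4751) (nat_lit 1) (nat_lit 14))
    (@En.n l398 (nat_lit 13101) (nat_lit 2) (nat_lit 4))
    (@En.n l399 (nat_lit 13848) (nat_lit 3) (nat_lit 9))
    (@En.n l11 (nat_lit 12859) (nat_lit 4) (nat_lit 3))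
    (@En.n l400 (nat_lit 13002) (nat_lit 5) (nat_lit 4))
    (@En.n l399 (nat_lit 12861) (nat_lit 7) (nat_lit 12))
    (@En.n l398 (nat_lit 936) (nat_lit 8) (nat_lit 13))
    (@En.n l3 (nat_lit 12860) (nat_lit 8) (nat_lit 2))
    (@En.n l401 (nat_lit 12851) (nat_lit 10) (nat_lit 12))
    (@En.n l402 (nat_lit 13872) (nat_lit 11) (nat_lit 14))
    (@En.n l403 (nat_lit 12860) (nat_lit 11) (nat_lit 2))
    (@En.n l404 (nat_lit 13898) (nat_lit 13) (nat_lit 7))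
    (@En.n l405 (nat_lit 3619) (nat_lit 1) (nat_lit 14))
    (@En.n l18 (nat_lit 12860) (nat_lit 14) (nat_lit 2))
    (@En.n l50 (nat_lit 12860) (nat_lit 15) (nat_lit 2))))
  (@Cl.mk (nat_lit 0x20002000e00080002000e000d0002000c0003000d000800040003000e000e) (nat_lit 0x130570809000ab) (nat_lit 16) Lb.e (@T16.mk En
    (@En.n l97 (nat_lit 12861) (nat_lit 1) (nat_lit 14))
    (@En.i (nat_lit 3939) (nat_lit 1) (nat_lit 14))
    (@En.n l1390 (nat_lit 12859) (nat_lit 2) (nat_lit 3))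
    (@En.n l1391 (nat_lit 13102) (nat_lit 3) (nat_lit 4))
    (@En.i (nat_lit 13143) (nat_lit 4) (nat_lit 8))
    (@En.n l584 (nat_lit 13229) (nat_lit 6) (nat_lit 13))
    (@En.n l1392 (nat_lit 12857) (nat_lit 6) (nat_lit 3))
    (@En.n l1391 (nat_lit 13104) (nat_lit 8) (nat_lit 12))
    (@En.n l50 (nat_lit 12861) (nat_lit 8) (nat_lit 2))
    (@En.n l1393 (nat_lit 12857) (nat_lit 10) (nat_lit 13))
    (@En.n l1394 (nat_lit 13194) (nat_lit 11) (nat_lit 14))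
    (@En.n l28 (nat_lit 12861) (nat_lit 11) (nat_lit 2))
    (@En.i (nat_lit 13692) (nat_lit 13) (nat_lit 8))
    (@En.n l1395 (nat_lit 3617) (nat_lit 1) (nat_lit 14))
    (@En.n l107 (nat_lit 12861) (nat_lit 14) (nat_lit 2))
    (@En.n l3 (nat_lit 12861) (nat_lit 15) (nat_lit 2))))
  (@Cl.mk (nat_lit 0x200020007000e00080002000d000a000e00030002000900080006000e000e) (nat_lit 0x4305770076023) (nat_lit 16) Lb.e (@T16.mk En
    (@En.n l5 (nat_lit 12862) (nat_lit 1) (nat_lit 14))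
    (@En.n l1393 (nat_lit 5449) (nat_lit 1) (nat_lit 14))
    (@En.i (nat_lit 13730) (nat_lit 2) (nat_lit 6))
    (@En.n l108 (nat_lit 13445) (nat_lit 3) (nat_lit 8))
    (@En.n l1599 (nat_lit 12864) (nat_lit 4) (nat_lit 9))
    (@En.n l28 (nat_lit 12862) (nat_lit 5) (nat_lit 2))
    (@En.n l11 (nat_lit 12788) (nat_lit 6) (nat_lit 3))
    (@En.n l1393 (nat_lit 13823) (nat_lit 8) (nat_lit 14))
    (@En.i (nat_lit 13463) (nat_lit 9) (nat_lit 10))
    (@En.n l1918 (nat_lit 12873) (nat_lit 10) (nat_lit 13))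
    (@En.n l3 (nat_lit 12862) (nat_lit 10) (nat_lit 2))
    (@En.n l5270 (nat_lit 12786) (nat_lit 12) (nat_lit 8))
    (@En.n l313 (nat_lit 941) (nat_lit 13) (nat_lit 14))
    (@En.n l1393 (nat_lit 817) (nat_lit 14) (nat_lit 7))
    (@En.n l17 (nat_lit 12862) (nat_lit 14) (nat_lit 2))
    (@En.n l18 (nat_lit 12862) (nat_lit 15) (nat_lit 2))))
  (@Cl.mk (nat_lit 0x200020007000e00080002000e000d0002000c0003000900080004000e000e) (nat_lit 0x4306709076023) (nat_lit 16) Lb.e (@T16.mk En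
    (@En.n l5 (nat_lit 12863) (nat_lit 1) (nat_lit 14))
    (@En.n l1427 (nat_lit 5451) (nat_lit 1) (nat_lit 14))
    (@En.i (nat_lit 13724) (nat_lit 2) (nat_lit 4))
    (@En.n l11733 (nat_lit 13444) (nat_lit 3) (nat_lit 8))
    (@En.n l77 (nat_lit 13662) (nat_lit 4) (nat_lit 9))
    (@En.n l11 (nat_lit 12788) (nat_lit 5) (nat_lit 3))
    (@En.n l2228 (nat_lit 13390) (nat_lit 7) (nat_lit 12))
    (@En.n l11 (nat_lit 12863) (nat_lit 7) (nat_lit 2))
    (@En.n l55 (nat_lit 12788) (nat_lit 9) (nat_lit 13))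
    (@En.n l11734 (nat_lit 13902) (nat_lit 10) (nat_lit 14))
    (@En.n l3 (nat_lit 12863) (nat_lit 10) (nat_lit 2))
    (@En.n l11735 (nat_lit 12785) (nat_lit 12) (nat_lit 8))
    (@En.n l11736 (nat_lit 942) (nat_lit 13) (nat_lit 14))
    (@En.n l2054 (nat_lit 818) (nat_lit 14) (nat_lit 7))
    (@En.n l17 (nat_lit 12863) (nat_lit 14) (nat_lit 2))
    (@En.n l18 (nat_lit 12863) (nat_lit 15) (nat_lit 2))))
noncomputable def a804 : T16 Cl := @T16.mk Cl
  (@Cl.mk (nat_lit 0x200020007000a000e00090002000d000b00060003000900070005000e000e) (nat_lit 0x4460680060023) (nat_lit 16) Lb.e (@T16.mk En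
    (@En.n l5 (nat_lit 12864) (nat_lit 1) (nat_lit 14))
    (@En.n l4306 (nat_lit 5454) (nat_lit 1) (nat_lit 14))
    (@En.i (nat_lit 13729) (nat_lit 2) (nat_lit 5))
    (@En.n l111 (nat_lit 13991) (nat_lit 3) (nat_lit 7))
    (@En.n l1599 (nat_lit 12866) (nat_lit 4) (nat_lit 9))
    (@En.n l28 (nat_lit 12865) (nat_lit 5) (nat_lit 3))
    (@En.n l4306 (nat_lit 13557) (nat_lit 6) (nat_lit 6))
    (@En.n l77 (nat_lit 13537) (nat_lit 8) (nat_lit 11))
    (@En.n l10491 (nat_lit 12872) (nat_lit 9) (nat_lit 13))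
    (@En.n l107 (nat_lit 12864) (nat_lit 9) (nat_lit 2))
    (@En.i (nat_lit 12867) (nat_lit 11) (nat_lit 9))
    (@En.n l97 (nat_lit 12788) (nat_lit 12) (nat_lit 14))
    (@En.n l12127 (nat_lit 13959) (nat_lit 13) (nat_lit 10))
    (@En.i (nat_lit 8229) (nat_lit 14) (nat_lit 7))
    (@En.n l17 (nat_lit 12864) (nat_lit 14) (nat_lit 2))
    (@En.n l18 (nat_lit 12864) (nat_lit 15) (nat_lit 2))))
  (@Cl.mk (nat_lit 0x200020007000b000e00090002000d0005000c0003000900070004000e000e) (nat_lit 0x6560605050012) (nat_lit 16) Lb.e (@T16.mk En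
    (@En.n l5 (nat_lit 12865) (nat_lit 1) (nat_lit 14))
    (@En.n l11302 (nat_lit 5455) (nat_lit 1) (nat_lit 14))
    (@En.i (nat_lit 13727) (nat_lit 2) (nat_lit 4))
    (@En.n l111 (nat_lit 13989) (nat_lit 3) (nat_lit 7))
    (@En.n l11920 (nat_lit 13661) (nat_lit 4) (nat_lit 9))
    (@En.i (nat_lit 12864) (nat_lit 5) (nat_lit 3))
    (@En.n l11921 (nat_lit 13496) (nat_lit 7) (nat_lit 12))
    (@En.n l159 (nat_lit 12866) (nat_lit 7) (nat_lit 5))
    (@En.n l11303 (nat_lit 12871) (nat_lit 9) (nat_lit 13))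
    (@En.n l107 (nat_lit 12865) (nat_lit 9) (nat_lit 2))
    (@En.n l1678 (nat_lit 12869) (nat_lit 11) (nat_lit 9))
    (@En.n l619 (nat_lit 12863) (nat_lit 12) (nat_lit 14))
    (@En.n l8798 (nat_lit 13961) (nat_lit 13) (nat_lit 11))
    (@En.i (nat_lit 8228) (nat_lit 14) (nat_lit 7))
    (@En.n l17 (nat_lit 12865) (nat_lit 14) (nat_lit 2))
    (@En.n l18 (nat_lit 12865) (nat_lit 15) (nat_lit 2))))
  (@Cl.mk (nat_lit 0x200020007000b000a000e000a00020005000c0006000900060004000e000e) (nat_lit 0x2567009050023) (nat_lit 16) Lb.e (@T16.mk En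
    (@En.n l5 (nat_lit 12866) (nat_lit 1) (nat_lit 14))
    (@En.n l2680 (nat_lit 6002) (nat_lit 9) (nat_lit 14))
    (@En.i (nat_lit 13941) (nat_lit 2) (nat_lit 4))
    (@En.n l4569 (nat_lit 13986) (nat_lit 3) (nat_lit 6))
    (@En.n l2680 (nat_lit 13666) (nat_lit 4) (nat_lit 9))
    (@En.n l810 (nat_lit 13558) (nat_lit 5) (nat_lit 6))
    (@En.n l1504 (nat_lit 13351) (nat_lit 7) (nat_lit 12))
    (@En.n l5448 (nat_lit 13903) (nat_lit 7) (nat_lit 5))
    (@En.n l11 (nat_lit 12866) (nat_lit 8) (nat_lit 2))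
    (@En.n l3220 (nat_lit 12868) (nat_lit 10) (nat_lit 10))
    (@En.n l180 (nat_lit 12865) (nat_lit 11) (nat_lit 14))
    (@En.n l2038 (nat_lit 12864) (nat_lit 12) (nat_lit 10))
    (@En.n l4892 (nat_lit 13964) (nat_lit 13) (nat_lit 11))
    (@En.n l2568 (nat_lit 8230) (nat_lit 4) (nat_lit 7))
    (@En.n l17 (nat_lit 12866) (nat_lit 14) (nat_lit 2))
    (@En.n l18 (nat_lit 12866) (nat_lit 15) (nat_lit 2))))
  (@Cl.mk (nat_lit 0x200020008000b00090009000d000a000500030008000700070006000e000e) (nat_lit 0x24555600600078) (nat_lit 16) Lb.e (@T16.mk En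
    (@En.n l5 (nat_lit 12867) (nat_lit 1) (nat_lit 14))
    (@En.n l13282 (nat_lit 6096) (nat_lit 1) (nat_lit 14))
    (@En.i (nat_lit 12870) (nat_lit 2) (nat_lit 6))
    (@En.n l527 (nat_lit 12864) (nat_lit 3) (nat_lit 7))
    (@En.n l111 (nat_lit 13992) (nat_lit 4) (nat_lit 7))
    (@En.n l5187 (nat_lit 12868) (nat_lit 5) (nat_lit 8))
    (@En.n l13283 (nat_lit 12869) (nat_lit 6) (nat_lit 3))
    (@En.n l13284 (nat_lit 13553) (nat_lit 7) (nat_lit 5))
    (@En.n l4568 (nat_lit 13538) (nat_lit 9) (nat_lit 10))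
    (@En.n l5188 (nat_lit 13828) (nat_lit 10) (nat_lit 13))
    (@En.n l13285 (nat_lit 13601) (nat_lit 11) (nat_lit 9))
    (@En.n l13286 (nat_lit 13785) (nat_lit 12) (nat_lit 9))
    (@En.n l13282 (nat_lit 13958) (nat_lit 13) (nat_lit 11))
    (@En.i (nat_lit 7829) (nat_lit 14) (nat_lit 8))
    (@En.n l17 (nat_lit 12867) (nat_lit 14) (nat_lit 2))
    (@En.n l18 (nat_lit 12867) (nat_lit 15) (nat_lit 2))))
  (@Cl.mk (nat_lit 0x200020008000c000b000a000a0004000b00050008000600060005000e000e) (nat_lit 0x36566070500067) (nat_lit 16) Lb.e (@T16.mk En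
    (@En.n l97 (nat_lit 12868) (nat_lit 1) (nat_lit 14))
    (@En.i (nat_lit 5636) (nat_lit 1) (nat_lit 14))
    (@En.n l26218 (nat_lit 12871) (nat_lit 2) (nat_lit 5))
    (@En.n l9430 (nat_lit 12866) (nat_lit 3) (nat_lit 6))
    (@En.n l26219 (nat_lit 13983) (nat_lit 4) (nat_lit 6))
    (@En.n l28 (nat_lit 13654) (nat_lit 5) (nat_lit 8))
    (@En.n l2031 (nat_lit 13556) (nat_lit 6) (nat_lit 5))
    (@En.n l13965 (nat_lit 13344) (nat_lit 8) (nat_lit 11))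
    (@En.n l12492 (nat_lit 13906) (nat_lit 8) (nat_lit 4))
    (@En.n l26220 (nat_lit 13600) (nat_lit 10) (nat_lit 10))
    (@En.n l26221 (nat_lit 13797) (nat_lit 11) (nat_lit 10))
    (@En.n l26222 (nat_lit 12867) (nat_lit 12) (nat_lit 11))
    (@En.n l14375 (nat_lit 12875) (nat_lit 13) (nat_lit 12))
    (@En.n l26223 (nat_lit 7822) (nat_lit 14) (nat_lit 8))
    (@En.n l107 (nat_lit 12868) (nat_lit 14) (nat_lit 2))
    (@En.n l3 (nat_lit 12868) (nat_lit 15) (nat_lit 2))))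
  (@Cl.mk (nat_lit 0x200020008000c00090009000d0004000b00030008000700070005000e000e) (nat_lit 0x26555040600034) (nat_lit 16) Lb.e (@T16.mk En
    (@En.n l5 (nat_lit 12869) (nat_lit 1) (nat_lit 14))
    (@En.n l10135 (nat_lit 6086) (nat_lit 1) (nat_lit 14))
    (@En.n l4462 (nat_lit 13904) (nat_lit 2) (nat_lit 5))
    (@En.n l516 (nat_lit 12865) (nat_lit 3) (nat_lit 7))
    (@En.n l3 (nat_lit 13987) (nat_lit 4) (nat_lit 7))
    (@En.n l3549 (nat_lit 13651) (nat_lit 5) (nat_lit 8))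
    (@En.n l1670 (nat_lit 12867) (nat_lit 6) (nat_lit 3))
    (@En.n l2571 (nat_lit 13591) (nat_lit 8) (nat_lit 11))
    (@En.n l12481 (nat_lit 12868) (nat_lit 8) (nat_lit 4))
    (@En.n l12608 (nat_lit 13796) (nat_lit 10) (nat_lit 13))
    (@En.n l152 (nat_lit 13598) (nat_lit 11) (nat_lit 9))
    (@En.n l12676 (nat_lit 13787) (nat_lit 12) (nat_lit 9))
    (@En.n l513 (nat_lit 13962) (nat_lit 13) (nat_lit 12))
    (@En.i (nat_lit 5188) (nat_lit 14) (nat_lit 8))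
    (@En.n l17 (nat_lit 12869) (nat_lit 14) (nat_lit 2))
    (@En.n l18 (nat_lit 12869) (nat_lit 15) (nat_lit 2))))
  (@Cl.mk (nat_lit 0x200020007000a0008000d000c000a000300060004000900080006000e000e) (nat_lit 0x25578000000bc) (nat_lit 16) Lb.e (@T16.mk En
    (@En.n l5 (nat_lit 12870) (nat_lit 1) (nat_lit 14))
    (@En.n l11775 (nat_lit 5533) (nat_lit 1) (nat_lit 14))
    (@En.i (nat_lit 13728) (nat_lit 2) (nat_lit 6))
    (@En.n l11776 (nat_lit 13891) (nat_lit 3) (nat_lit 8))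
    (@En.n l11777 (nat_lit 12871) (nat_lit 4) (nat_lit 9))
    (@En.n l11778 (nat_lit 13904) (nat_lit 5) (nat_lit 4))
    (@En.n l3 (nat_lit 12864) (nat_lit 6) (nat_lit 6))
    (@En.n l11779 (nat_lit 12873) (nat_lit 7) (nat_lit 3))
    (@En.n l11780 (nat_lit 13543) (nat_lit 9) (nat_lit 10))
    (@En.n l11781 (nat_lit 12874) (nat_lit 10) (nat_lit 12))
    (@En.n l11782 (nat_lit 13790) (nat_lit 11) (nat_lit 13))
    (@En.n l11775 (nat_lit 13786) (nat_lit 12) (nat_lit 8))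
    (@En.n l11783 (nat_lit 13954) (nat_lit 13) (nat_lit 10))
    (@En.n l11775 (nat_lit 7605) (nat_lit 14) (nat_lit 7))
    (@En.n l17 (nat_lit 12870) (nat_lit 14) (nat_lit 2))
    (@En.n l18 (nat_lit 12870) (nat_lit 15) (nat_lit 2))))
  (@Cl.mk (nat_lit 0x200020007000c000a0009000d0004000b00030006000900070005000e000e) (nat_lit 0x2365090070067) (nat_lit 16) Lb.e (@T16.mk En
    (@En.n l5 (nat_lit 12871) (nat_lit 1) (nat_lit 14))
    (@En.n l5534 (nat_lit 5568) (nat_lit 1) (nat_lit 14))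
    (@En.n l5154 (nat_lit 13924) (nat_lit 2) (nat_lit 5))
    (@En.n l15684 (nat_lit 13996) (nat_lit 3) (nat_lit 7))
    (@En.n l5534 (nat_lit 13875) (nat_lit 4) (nat_lit 9))
    (@En.n l6083 (nat_lit 12866) (nat_lit 5) (nat_lit 6))
    (@En.n l117 (nat_lit 12872) (nat_lit 6) (nat_lit 3))
    (@En.n l2903 (nat_lit 13349) (nat_lit 8) (nat_lit 11))
    (@En.n l25447 (nat_lit 13905) (nat_lit 8) (nat_lit 4))
    (@En.n l28 (nat_lit 13792) (nat_lit 10) (nat_lit 13))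
    (@En.n l77 (nat_lit 13796) (nat_lit 11) (nat_lit 9))
    (@En.n l11833 (nat_lit 12870) (nat_lit 12) (nat_lit 10))
    (@En.n l25448 (nat_lit 13967) (nat_lit 13) (nat_lit 12))
    (@En.n l2568 (nat_lit 7607) (nat_lit 14) (nat_lit 7))
    (@En.n l17 (nat_lit 12871) (nat_lit 14) (nat_lit 2))
    (@En.n l18 (nat_lit 12871) (nat_lit 15) (nat_lit 2))))
  (@Cl.mk (nat_lit 0x200020007000b000a0009000d000a000500030006000900070006000e000e) (nat_lit 0x2355700000078) (nat_lit 16) Lb.e (@T16.mk En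
    (@En.n l5 (nat_lit 12872) (nat_lit 1) (nat_lit 14))
    (@En.n l649 (nat_lit 5558) (nat_lit 1) (nat_lit 14))
    (@En.n l13671 (nat_lit 13738) (nat_lit 2) (nat_lit 6))
    (@En.n l12882 (nat_lit 12875) (nat_lit 3) (nat_lit 7))
    (@En.n l13672 (nat_lit 13876) (nat_lit 4) (nat_lit 9))
    (@En.n l13673 (nat_lit 12967) (nat_lit 5) (nat_lit 6))
    (@En.n l152 (nat_lit 12871) (nat_lit 6) (nat_lit 3))
    (@En.n l1865 (nat_lit 13834) (nat_lit 7) (nat_lit 5))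
    (@En.n l13674 (nat_lit 12868) (nat_lit 9) (nat_lit 10))
    (@En.n l28 (nat_lit 13794) (nat_lit 10) (nat_lit 13))
    (@En.n l11989 (nat_lit 13828) (nat_lit 11) (nat_lit 9))
    (@En.n l13675 (nat_lit 12873) (nat_lit 12) (nat_lit 10))
    (@En.n l13676 (nat_lit 13971) (nat_lit 13) (nat_lit 11))
    (@En.i (nat_lit 7604) (nat_lit 14) (nat_lit 7))
    (@En.n l17 (nat_lit 12872) (nat_lit 14) (nat_lit 2))
    (@En.n l18 (nat_lit 12872) (nat_lit 15) (nat_lit 2))))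
  (@Cl.mk (nat_lit 0x200020007000a0008000d0009000d000300060003000900080007000e000e) (nat_lit 0x2446800010023) (nat_lit 16) Lb.e (@T16.mk En
    (@En.n l1578 (nat_lit 12873) (nat_lit 1) (nat_lit 14))
    (@En.i (nat_lit 5539) (nat_lit 1) (nat_lit 14))
    (@En.n l8409 (nat_lit 13733) (nat_lit 2) (nat_lit 7))
    (@En.n l13126 (nat_lit 13892) (nat_lit 3) (nat_lit 8))
    (@En.n l13127 (nat_lit 12872) (nat_lit 4) (nat_lit 9))
    (@En.n l11792 (nat_lit 12874) (nat_lit 5) (nat_lit 3))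
    (@En.n l8409 (nat_lit 12973) (nat_lit 6) (nat_lit 6))
    (@En.n l4403 (nat_lit 12870) (nat_lit 7) (nat_lit 3))
    (@En.n l4991 (nat_lit 13673) (nat_lit 9) (nat_lit 13))
    (@En.n l5605 (nat_lit 12867) (nat_lit 10) (nat_lit 9))
    (@En.n l899 (nat_lit 13791) (nat_lit 11) (nat_lit 13))
    (@En.i (nat_lit 13784) (nat_lit 12) (nat_lit 8))
    (@En.n l11549 (nat_lit 13956) (nat_lit 13) (nat_lit 10))
    (@En.i (nat_lit 7603) (nat_lit 14) (nat_lit 7))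
    (@En.n l28 (nat_lit 12873) (nat_lit 14) (nat_lit 2))
    (@En.n l11 (nat_lit 12873) (nat_lit 15) (nat_lit 2))))
  (@Cl.mk (nat_lit 0x200020007000b0008000c0009000d000500040003000900080007000e000e) (nat_lit 0x44667000000bc) (nat_lit 16) Lb.e (@T16.mk En
    (@En.n l5 (nat_lit 12874) (nat_lit 1) (nat_lit 14))
    (@En.n l564 (nat_lit 7075) (nat_lit 1) (nat_lit 14))
    (@En.n l16485 (nat_lit 13736) (nat_lit 2) (nat_lit 7))
    (@En.n l25469 (nat_lit 13890) (nat_lit 3) (nat_lit 8))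
    (@En.n l5022 (nat_lit 13490) (nat_lit 4) (nat_lit 9))
    (@En.n l16564 (nat_lit 12873) (nat_lit 5) (nat_lit 3))
    (@En.n l25470 (nat_lit 13908) (nat_lit 6) (nat_lit 4))
    (@En.n l25471 (nat_lit 12872) (nat_lit 7) (nat_lit 5))
    (@En.i (nat_lit 13688) (nat_lit 9) (nat_lit 13))
    (@En.n l25458 (nat_lit 12869) (nat_lit 10) (nat_lit 9))
    (@En.i (nat_lit 13830) (nat_lit 11) (nat_lit 12))
    (@En.n l21138 (nat_lit 13783) (nat_lit 12) (nat_lit 8))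
    (@En.n l4530 (nat_lit 13865) (nat_lit 13) (nat_lit 11))
    (@En.i (nat_lit 7601) (nat_lit 14) (nat_lit 7))
    (@En.n l17 (nat_lit 12874) (nat_lit 14) (nat_lit 2))
    (@En.n l18 (nat_lit 12874) (nat_lit 15) (nat_lit 2))))
  (@Cl.mk (nat_lit 0x20002000c000a000900090004000d000b00060003000700070005000e000e) (nat_lit 0x53440680000012) (nat_lit 16) Lb.e (@T16.mk En
    (@En.n l97 (nat_lit 12875) (nat_lit 1) (nat_lit 14))
    (@En.i (nat_lit 5342) (nat_lit 1) (nat_lit 14))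
    (@En.n l211 (nat_lit 13967) (nat_lit 2) (nat_lit 5))
    (@En.n l13165 (nat_lit 13964) (nat_lit 3) (nat_lit 7))
    (@En.n l13166 (nat_lit 13643) (nat_lit 4) (nat_lit 7))
    (@En.n l13167 (nat_lit 13996) (nat_lit 5) (nat_lit 3))
    (@En.n l7081 (nat_lit 13388) (nat_lit 6) (nat_lit 6))
    (@En.n l12912 (nat_lit 13983) (nat_lit 8) (nat_lit 11))
    (@En.n l13168 (nat_lit 12867) (nat_lit 9) (nat_lit 13))
    (@En.n l13169 (nat_lit 13880) (nat_lit 9) (nat_lit 4))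
    (@En.n l61 (nat_lit 13938) (nat_lit 11) (nat_lit 9))
    (@En.n l9138 (nat_lit 13892) (nat_lit 12) (nat_lit 9))
    (@En.n l13170 (nat_lit 13335) (nat_lit 13) (nat_lit 10))
    (@En.n l13171 (nat_lit 6809) (nat_lit 14) (nat_lit 12))
    (@En.n l107 (nat_lit 12875) (nat_lit 14) (nat_lit 2))
    (@En.n l3 (nat_lit 12875) (nat_lit 15) (nat_lit 2))))
  (@Cl.mk (nat_lit 0x20002000a0009000e00080002000b0006000e0007000200050008000e000e) (nat_lit 0x21560108000412) (nat_lit 16) Lb.e (@T16.mk En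
    (@En.n l97 (nat_lit 12876) (nat_lit 1) (nat_lit 14))
    (@En.n l778 (nat_lit 1284) (nat_lit 13) (nat_lit 14))
    (@En.i (nat_lit 12781) (nat_lit 2) (nat_lit 8))
    (@En.n l5590 (nat_lit 723) (nat_lit 3) (nat_lit 5))
    (@En.n l17 (nat_lit 12876) (nat_lit 4) (nat_lit 2))
    (@En.n l2589 (nat_lit 12888) (nat_lit 5) (nat_lit 7))
    (@En.n l5591 (nat_lit 12877) (nat_lit 7) (nat_lit 14))
    (@En.n l5592 (nat_lit 13551) (nat_lit 7) (nat_lit 6))
    (@En.n l5593 (nat_lit 721) (nat_lit 9) (nat_lit 11))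
    (@En.n l28 (nat_lit 12876) (nat_lit 9) (nat_lit 2))
    (@En.n l5594 (nat_lit 721) (nat_lit 11) (nat_lit 8))
    (@En.i (nat_lit 13261) (nat_lit 12) (nat_lit 14))
    (@En.n l2579 (nat_lit 712) (nat_lit 13) (nat_lit 9))
    (@En.n l5595 (nat_lit 1804) (nat_lit 9) (nat_lit 10))
    (@En.n l107 (nat_lit 12876) (nat_lit 14) (nat_lit 2))
    (@En.n l3 (nat_lit 12876) (nat_lit 15) (nat_lit 2))))
  (@Cl.mk (nat_lit 0x200020007000a000e00080002000b000e00060002000900050008000e000e) (nat_lit 0x1360070000012) (nat_lit 16) Lb.e (@T16.mk En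
    (@En.n l601 (nat_lit 12877) (nat_lit 1) (nat_lit 14))
    (@En.i (nat_lit 1285) (nat_lit 12) (nat_lit 14))
    (@En.n l2036 (nat_lit 13049) (nat_lit 2) (nat_lit 8))
    (@En.n l5589 (nat_lit 12876) (nat_lit 3) (nat_lit 5))
    (@En.n l1758 (nat_lit 12878) (nat_lit 4) (nat_lit 9))
    (@En.n l3 (nat_lit 12877) (nat_lit 5) (nat_lit 2))
    (@En.n l4871 (nat_lit 12878) (nat_lit 6) (nat_lit 6))
    (@En.i (nat_lit 13755) (nat_lit 8) (nat_lit 14))
    (@En.n l5552 (nat_lit 12879) (nat_lit 9) (nat_lit 11))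
    (@En.n l17 (nat_lit 12877) (nat_lit 9) (nat_lit 2))
    (@En.n l5553 (nat_lit 12879) (nat_lit 11) (nat_lit 8))
    (@En.n l2036 (nat_lit 13263) (nat_lit 12) (nat_lit 14))
    (@En.n l2031 (nat_lit 718) (nat_lit 13) (nat_lit 10))
    (@En.i (nat_lit 6029) (nat_lit 14) (nat_lit 7))
    (@En.n l50 (nat_lit 12877) (nat_lit 14) (nat_lit 2))
    (@En.n l7 (nat_lit 12877) (nat_lit 15) (nat_lit 2))))
  (@Cl.mk (nat_lit 0x200020007000a000a000e00090002000c00060006000900040007000e000e) (nat_lit 0x3257000070012) (nat_lit 16) Lb.e (@T16.mk En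
    (@En.n l601 (nat_lit 12878) (nat_lit 1) (nat_lit 14))
    (@En.i (nat_lit 1235) (nat_lit 1) (nat_lit 14))
    (@En.n l1897 (nat_lit 13047) (nat_lit 2) (nat_lit 7))
    (@En.n l1898 (nat_lit 12888) (nat_lit 3) (nat_lit 4))
    (@En.n l1899 (nat_lit 12881) (nat_lit 4) (nat_lit 9))
    (@En.n l1900 (nat_lit 12881) (nat_lit 5) (nat_lit 6))
    (@En.n l1901 (nat_lit 14022) (nat_lit 6) (nat_lit 6))
    (@En.n l1902 (nat_lit 12880) (nat_lit 8) (nat_lit 12))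
    (@En.n l17 (nat_lit 12878) (nat_lit 8) (nat_lit 2))
    (@En.n l1903 (nat_lit 12880) (nat_lit 10) (nat_lit 9))
    (@En.i (nat_lit 13264) (nat_lit 11) (nat_lit 14))
    (@En.n l1904 (nat_lit 12877) (nat_lit 12) (nat_lit 10))
    (@En.n l226 (nat_lit 12876) (nat_lit 13) (nat_lit 10))
    (@En.i (nat_lit 5776) (nat_lit 14) (nat_lit 7))
    (@En.n l50 (nat_lit 12878) (nat_lit 14) (nat_lit 2))
    (@En.n l7 (nat_lit 12878) (nat_lit 15) (nat_lit 2))))
  (@Cl.mk (nat_lit 0x200020008000b00080008000b000e000500020008000500080008000e000e) (nat_lit 0x31569c00000112) (nat_lit 16) Lb.e (@T16.mk En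
    (@En.n l5 (nat_lit 12879) (nat_lit 1) (nat_lit 14))
    (@En.n l420 (nat_lit 341) (nat_lit 11) (nat_lit 14))
    (@En.n l2110 (nat_lit 12877) (nat_lit 2) (nat_lit 8))
    (@En.n l12236 (nat_lit 12961) (nat_lit 3) (nat_lit 8))
    (@En.n l12237 (nat_lit 721) (nat_lit 4) (nat_lit 5))
    (@En.n l1561 (nat_lit 12880) (nat_lit 5) (nat_lit 8))
    (@En.n l3 (nat_lit 12879) (nat_lit 6) (nat_lit 2))
    (@En.n l4699 (nat_lit 12880) (nat_lit 7) (nat_lit 5))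
    (@En.i (nat_lit 13772) (nat_lit 9) (nat_lit 14))
    (@En.n l8 (nat_lit 12884) (nat_lit 10) (nat_lit 11))
    (@En.n l77 (nat_lit 12884) (nat_lit 11) (nat_lit 8))
    (@En.n l1558 (nat_lit 13846) (nat_lit 12) (nat_lit 8))
    (@En.n l12238 (nat_lit 713) (nat_lit 13) (nat_lit 11))
    (@En.n l4674 (nat_lit 6027) (nat_lit 6) (nat_lit 8))
    (@En.n l17 (nat_lit 12879) (nat_lit 14) (nat_lit 2))
    (@En.n l18 (nat_lit 12879) (nat_lit 15) (nat_lit 2))))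
noncomputable def a805 : T16 Cl := @T16.mk Cl
  (@Cl.mk (nat_lit 0x200020008000b000b00090009000c000500050008000400070007000e000e) (nat_lit 0x31267a00600012) (nat_lit 16) Lb.e (@T16.mk En
    (@En.n l5 (nat_lit 12880) (nat_lit 1) (nat_lit 14))
    (@En.n l4641 (nat_lit 342) (nat_lit 1) (nat_lit 14))
    (@En.n l4642 (nat_lit 12878) (nat_lit 2) (nat_lit 7))
    (@En.n l4643 (nat_lit 12962) (nat_lit 3) (nat_lit 7))
    (@En.n l485 (nat_lit 12887) (nat_lit 4) (nat_lit 4))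
    (@En.n l420 (nat_lit 12882) (nat_lit 5) (nat_lit 8))
    (@En.n l4644 (nat_lit 12882) (nat_lit 6) (nat_lit 5))
    (@En.n l4643 (nat_lit 14020) (nat_lit 7) (nat_lit 5))
    (@En.n l8 (nat_lit 12883) (nat_lit 9) (nat_lit 12))
    (@En.n l77 (nat_lit 12883) (nat_lit 10) (nat_lit 9))
    (@En.n l420 (nat_lit 13856) (nat_lit 11) (nat_lit 9))
    (@En.n l1493 (nat_lit 12879) (nat_lit 12) (nat_lit 11))
    (@En.n l4645 (nat_lit 721) (nat_lit 13) (nat_lit 11))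
    (@En.n l4646 (nat_lit 5775) (nat_lit 14) (nat_lit 8))
    (@En.n l17 (nat_lit 12880) (nat_lit 14) (nat_lit 2))
    (@En.n l18 (nat_lit 12880) (nat_lit 15) (nat_lit 2))))
  (@Cl.mk (nat_lit 0x200020007000e000a0002000e000a0002000d0006000900030006000e000e) (nat_lit 0x7407700060012) (nat_lit 16) Lb.e (@T16.mk En
    (@En.n l601 (nat_lit 12881) (nat_lit 1) (nat_lit 14))
    (@En.i (nat_lit 1231) (nat_lit 1) (nat_lit 14))
    (@En.n l1718 (nat_lit 13045) (nat_lit 2) (nat_lit 6))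
    (@En.n l1719 (nat_lit 13029) (nat_lit 3) (nat_lit 3))
    (@En.n l1720 (nat_lit 14103) (nat_lit 4) (nat_lit 9))
    (@En.n l1721 (nat_lit 14021) (nat_lit 5) (nat_lit 6))
    (@En.n l1722 (nat_lit 12882) (nat_lit 7) (nat_lit 13))
    (@En.n l17 (nat_lit 12881) (nat_lit 7) (nat_lit 2))
    (@En.n l1723 (nat_lit 12882) (nat_lit 9) (nat_lit 10))
    (@En.n l1531 (nat_lit 13267) (nat_lit 10) (nat_lit 14))
    (@En.n l3 (nat_lit 12881) (nat_lit 10) (nat_lit 2))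
    (@En.n l1532 (nat_lit 12878) (nat_lit 12) (nat_lit 10))
    (@En.n l1724 (nat_lit 13017) (nat_lit 13) (nat_lit 14))
    (@En.i (nat_lit 5774) (nat_lit 14) (nat_lit 7))
    (@En.n l50 (nat_lit 12881) (nat_lit 14) (nat_lit 2))
    (@En.n l7 (nat_lit 12881) (nat_lit 15) (nat_lit 2))))
  (@Cl.mk (nat_lit 0x200020008000e000b0002000a000a000d00050008000300060006000e000e) (nat_lit 0x382068b0500023) (nat_lit 16) Lb.e (@T16.mk En
    (@En.n l396 (nat_lit 12882) (nat_lit 1) (nat_lit 14))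
    (@En.i (nat_lit 1595) (nat_lit 1) (nat_lit 14))
    (@En.n l890 (nat_lit 12881) (nat_lit 2) (nat_lit 6))
    (@En.n l4582 (nat_lit 12963) (nat_lit 3) (nat_lit 6))
    (@En.n l4583 (nat_lit 13028) (nat_lit 4) (nat_lit 3))
    (@En.n l4583 (nat_lit 14104) (nat_lit 5) (nat_lit 8))
    (@En.n l4582 (nat_lit 14019) (nat_lit 6) (nat_lit 5))
    (@En.n l387 (nat_lit 12885) (nat_lit 8) (nat_lit 13))
    (@En.n l4584 (nat_lit 12885) (nat_lit 9) (nat_lit 10))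
    (@En.i (nat_lit 13857) (nat_lit 10) (nat_lit 10))
    (@En.n l3 (nat_lit 12882) (nat_lit 10) (nat_lit 2))
    (@En.n l4585 (nat_lit 12880) (nat_lit 12) (nat_lit 11))
    (@En.n l699 (nat_lit 13016) (nat_lit 13) (nat_lit 14))
    (@En.n l4316 (nat_lit 5777) (nat_lit 14) (nat_lit 8))
    (@En.n l18 (nat_lit 12882) (nat_lit 14) (nat_lit 2))
    (@En.n l50 (nat_lit 12882) (nat_lit 15) (nat_lit 2))))
  (@Cl.mk (nat_lit 0x200020009000c000c0009000c0004000400070004000e00070002000e000e) (nat_lit 0x342690000b0034) (nat_lit 16) Lb.e (@T16.mk En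
    (@En.n l5 (nat_lit 12883) (nat_lit 1) (nat_lit 14))
    (@En.n l1424 (nat_lit 1006) (nat_lit 1) (nat_lit 14))
    (@En.n l7 (nat_lit 12883) (nat_lit 2) (nat_lit 2))
    (@En.i (nat_lit 12880) (nat_lit 3) (nat_lit 7))
    (@En.n l1491 (nat_lit 12969) (nat_lit 5) (nat_lit 14))
    (@En.n l485 (nat_lit 12889) (nat_lit 5) (nat_lit 4))
    (@En.i (nat_lit 12885) (nat_lit 6) (nat_lit 7))
    (@En.n l1492 (nat_lit 12885) (nat_lit 7) (nat_lit 4))
    (@En.n l1424 (nat_lit 13401) (nat_lit 8) (nat_lit 4))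
    (@En.n l35 (nat_lit 14093) (nat_lit 10) (nat_lit 12))
    (@En.i (nat_lit 13855) (nat_lit 11) (nat_lit 9))
    (@En.n l1493 (nat_lit 12884) (nat_lit 12) (nat_lit 12))
    (@En.n l1494 (nat_lit 12886) (nat_lit 13) (nat_lit 12))
    (@En.i (nat_lit 6028) (nat_lit 14) (nat_lit 9))
    (@En.n l17 (nat_lit 12883) (nat_lit 14) (nat_lit 2))
    (@En.n l18 (nat_lit 12883) (nat_lit 15) (nat_lit 2))))
  (@Cl.mk (nat_lit 0x200020009000c0008000b000e0004000200070005000e00080002000e000e) (nat_lit 0x31586000021034) (nat_lit 16) Lb.e (@T16.mk En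
    (@En.n l5 (nat_lit 12884) (nat_lit 1) (nat_lit 14))
    (@En.n l4697 (nat_lit 1005) (nat_lit 1) (nat_lit 14))
    (@En.n l7 (nat_lit 12884) (nat_lit 2) (nat_lit 2))
    (@En.i (nat_lit 12879) (nat_lit 3) (nat_lit 8))
    (@En.n l4698 (nat_lit 12972) (nat_lit 5) (nat_lit 14))
    (@En.n l1557 (nat_lit 12886) (nat_lit 5) (nat_lit 5))
    (@En.n l1561 (nat_lit 12883) (nat_lit 6) (nat_lit 7))
    (@En.n l3 (nat_lit 12884) (nat_lit 7) (nat_lit 2))
    (@En.n l4699 (nat_lit 12883) (nat_lit 8) (nat_lit 4))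
    (@En.i (nat_lit 13767) (nat_lit 10) (nat_lit 14))
    (@En.n l178 (nat_lit 14092) (nat_lit 11) (nat_lit 11))
    (@En.i (nat_lit 13845) (nat_lit 12) (nat_lit 8))
    (@En.n l4697 (nat_lit 719) (nat_lit 13) (nat_lit 12))
    (@En.n l1529 (nat_lit 6026) (nat_lit 5) (nat_lit 9))
    (@En.n l17 (nat_lit 12884) (nat_lit 14) (nat_lit 2))
    (@En.n l18 (nat_lit 12884) (nat_lit 15) (nat_lit 2))))
  (@Cl.mk (nat_lit 0x200020009000e000c0002000a000d000400070003000e00060002000e000e) (nat_lit 0x29507a000a0034) (nat_lit 16) Lb.e (@T16.mk En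
    (@En.n l5 (nat_lit 12885) (nat_lit 1) (nat_lit 14))
    (@En.n l420 (nat_lit 1008) (nat_lit 1) (nat_lit 14))
    (@En.n l7 (nat_lit 12885) (nat_lit 2) (nat_lit 2))
    (@En.n l420 (nat_lit 12882) (nat_lit 3) (nat_lit 6))
    (@En.n l95 (nat_lit 13128) (nat_lit 5) (nat_lit 14))
    (@En.n l1847 (nat_lit 13030) (nat_lit 5) (nat_lit 3))
    (@En.n l1847 (nat_lit 14105) (nat_lit 6) (nat_lit 7))
    (@En.n l4691 (nat_lit 13402) (nat_lit 7) (nat_lit 4))
    (@En.n l1847 (nat_lit 14108) (nat_lit 9) (nat_lit 13))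
    (@En.i (nat_lit 13859) (nat_lit 10) (nat_lit 10))
    (@En.n l3 (nat_lit 12885) (nat_lit 10) (nat_lit 2))
    (@En.n l181 (nat_lit 12883) (nat_lit 12) (nat_lit 12))
    (@En.i (nat_lit 13018) (nat_lit 13) (nat_lit 14))
    (@En.n l1529 (nat_lit 6046) (nat_lit 2) (nat_lit 9))
    (@En.n l17 (nat_lit 12885) (nat_lit 14) (nat_lit 2))
    (@En.n l18 (nat_lit 12885) (nat_lit 15) (nat_lit 2))))
  (@Cl.mk (nat_lit 0x20002000c000b0008000b0004000e000500020005000e00080002000e000e) (nat_lit 0x316907000b1034) (nat_lit 16) Lb.e (@T16.mk En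
    (@En.n l97 (nat_lit 12886) (nat_lit 1) (nat_lit 14))
    (@En.n l1807 (nat_lit 1004) (nat_lit 1) (nat_lit 14))
    (@En.n l17 (nat_lit 12886) (nat_lit 2) (nat_lit 2))
    (@En.n l429 (nat_lit 721) (nat_lit 3) (nat_lit 8))
    (@En.i (nat_lit 12974) (nat_lit 5) (nat_lit 14))
    (@En.n l1808 (nat_lit 12890) (nat_lit 5) (nat_lit 5))
    (@En.n l50 (nat_lit 12886) (nat_lit 6) (nat_lit 2))
    (@En.n l1809 (nat_lit 12889) (nat_lit 7) (nat_lit 5))
    (@En.n l1810 (nat_lit 12884) (nat_lit 9) (nat_lit 14))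
    (@En.i (nat_lit 13404) (nat_lit 9) (nat_lit 4))
    (@En.n l1811 (nat_lit 14114) (nat_lit 11) (nat_lit 11))
    (@En.n l1812 (nat_lit 13847) (nat_lit 12) (nat_lit 8))
    (@En.n l1813 (nat_lit 715) (nat_lit 13) (nat_lit 11))
    (@En.n l1811 (nat_lit 1810) (nat_lit 7) (nat_lit 12))
    (@En.n l107 (nat_lit 12886) (nat_lit 14) (nat_lit 2))
    (@En.n l3 (nat_lit 12886) (nat_lit 15) (nat_lit 2))))
  (@Cl.mk (nat_lit 0x20002000a000a000a00090009000c000600060006000400070007000e000e) (nat_lit 0x11256000000012) (nat_lit 16) Lb.e (@T16.mk En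
    (@En.n l5 (nat_lit 12887) (nat_lit 1) (nat_lit 14))
    (@En.n l1379 (nat_lit 345) (nat_lit 1) (nat_lit 14))
    (@En.n l4647 (nat_lit 12888) (nat_lit 2) (nat_lit 7))
    (@En.n l4648 (nat_lit 12910) (nat_lit 3) (nat_lit 7))
    (@En.n l426 (nat_lit 12894) (nat_lit 4) (nat_lit 4))
    (@En.n l4649 (nat_lit 13028) (nat_lit 5) (nat_lit 6))
    (@En.n l152 (nat_lit 13016) (nat_lit 6) (nat_lit 6))
    (@En.n l426 (nat_lit 13546) (nat_lit 7) (nat_lit 6))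
    (@En.n l8 (nat_lit 12889) (nat_lit 9) (nat_lit 12))
    (@En.n l77 (nat_lit 12889) (nat_lit 10) (nat_lit 9))
    (@En.i (nat_lit 13314) (nat_lit 11) (nat_lit 9))
    (@En.n l4645 (nat_lit 721) (nat_lit 12) (nat_lit 10))
    (@En.n l516 (nat_lit 722) (nat_lit 13) (nat_lit 10))
    (@En.n l4650 (nat_lit 1489) (nat_lit 14) (nat_lit 10))
    (@En.n l17 (nat_lit 12887) (nat_lit 14) (nat_lit 2))
    (@En.n l18 (nat_lit 12887) (nat_lit 15) (nat_lit 2))))
  (@Cl.mk (nat_lit 0x20002000900090009000e00090002000c00070007000700040007000e000e) (nat_lit 0x11266010000089) (nat_lit 16) Lb.e (@T16.mk En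
    (@En.n l601 (nat_lit 12888) (nat_lit 1) (nat_lit 14))
    (@En.i (nat_lit 1239) (nat_lit 1) (nat_lit 14))
    (@En.n l1643 (nat_lit 12786) (nat_lit 2) (nat_lit 7))
    (@En.n l159 (nat_lit 12897) (nat_lit 3) (nat_lit 4))
    (@En.n l1905 (nat_lit 13029) (nat_lit 4) (nat_lit 7))
    (@En.n l1906 (nat_lit 13017) (nat_lit 5) (nat_lit 7))
    (@En.n l1907 (nat_lit 13549) (nat_lit 6) (nat_lit 7))
    (@En.n l1908 (nat_lit 12887) (nat_lit 8) (nat_lit 12))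
    (@En.n l17 (nat_lit 12888) (nat_lit 8) (nat_lit 2))
    (@En.n l1909 (nat_lit 12887) (nat_lit 10) (nat_lit 9))
    (@En.n l1910 (nat_lit 13237) (nat_lit 11) (nat_lit 14))
    (@En.n l1911 (nat_lit 12876) (nat_lit 12) (nat_lit 9))
    (@En.n l527 (nat_lit 723) (nat_lit 13) (nat_lit 9))
    (@En.n l1912 (nat_lit 1491) (nat_lit 14) (nat_lit 9))
    (@En.n l50 (nat_lit 12888) (nat_lit 14) (nat_lit 2))
    (@En.n l7 (nat_lit 12888) (nat_lit 15) (nat_lit 2))))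
  (@Cl.mk (nat_lit 0x20002000b000b000b0009000c0005000500050004000e00070002000e000e) (nat_lit 0x1425a0000b0012) (nat_lit 16) Lb.e (@T16.mk En
    (@En.n l5 (nat_lit 12889) (nat_lit 1) (nat_lit 14))
    (@En.n l427 (nat_lit 1007) (nat_lit 1) (nat_lit 14))
    (@En.n l7 (nat_lit 12889) (nat_lit 2) (nat_lit 2))
    (@En.i (nat_lit 12887) (nat_lit 3) (nat_lit 7))
    (@En.n l427 (nat_lit 12975) (nat_lit 5) (nat_lit 14))
    (@En.n l94 (nat_lit 12892) (nat_lit 5) (nat_lit 4))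
    (@En.n l1495 (nat_lit 13030) (nat_lit 6) (nat_lit 5))
    (@En.n l152 (nat_lit 13018) (nat_lit 7) (nat_lit 5))
    (@En.n l427 (nat_lit 13403) (nat_lit 8) (nat_lit 5))
    (@En.n l36 (nat_lit 14110) (nat_lit 10) (nat_lit 12))
    (@En.i (nat_lit 13313) (nat_lit 11) (nat_lit 9))
    (@En.n l1494 (nat_lit 12886) (nat_lit 12) (nat_lit 11))
    (@En.n l516 (nat_lit 12890) (nat_lit 13) (nat_lit 11))
    (@En.i (nat_lit 1775) (nat_lit 14) (nat_lit 11))
    (@En.n l17 (nat_lit 12889) (nat_lit 14) (nat_lit 2))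
    (@En.n l18 (nat_lit 12889) (nat_lit 15) (nat_lit 2))))
  (@Cl.mk (nat_lit 0x20002000b000a0008000b000e0005000200060005000e00080002000e000e) (nat_lit 0x316960000b1078) (nat_lit 16) Lb.e (@T16.mk En
    (@En.n l5 (nat_lit 12890) (nat_lit 1) (nat_lit 14))
    (@En.n l561 (nat_lit 1011) (nat_lit 1) (nat_lit 14))
    (@En.n l7 (nat_lit 12890) (nat_lit 2) (nat_lit 2))
    (@En.i (nat_lit 722) (nat_lit 3) (nat_lit 8))
    (@En.n l561 (nat_lit 12947) (nat_lit 5) (nat_lit 14))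
    (@En.n l159 (nat_lit 12891) (nat_lit 5) (nat_lit 5))
    (@En.n l1677 (nat_lit 12892) (nat_lit 6) (nat_lit 6))
    (@En.n l107 (nat_lit 12890) (nat_lit 7) (nat_lit 2))
    (@En.n l1678 (nat_lit 12889) (nat_lit 8) (nat_lit 5))
    (@En.n l619 (nat_lit 13478) (nat_lit 10) (nat_lit 14))
    (@En.i (nat_lit 14115) (nat_lit 11) (nat_lit 11))
    (@En.n l1442 (nat_lit 13320) (nat_lit 12) (nat_lit 8))
    (@En.i (nat_lit 720) (nat_lit 13) (nat_lit 10))
    (@En.n l1679 (nat_lit 1484) (nat_lit 14) (nat_lit 11))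
    (@En.n l17 (nat_lit 12890) (nat_lit 14) (nat_lit 2))
    (@En.n l18 (nat_lit 12890) (nat_lit 15) (nat_lit 2))))
  (@Cl.mk (nat_lit 0x20002000a000d0008000b0003000e000600020005000e00080002000e000e) (nat_lit 0x12500700050067) (nat_lit 16) Lb.e (@T16.mk En
    (@En.n l5 (nat_lit 12891) (nat_lit 1) (nat_lit 14))
    (@En.n l1527 (nat_lit 1012) (nat_lit 1) (nat_lit 14))
    (@En.n l7 (nat_lit 12891) (nat_lit 2) (nat_lit 2))
    (@En.i (nat_lit 12893) (nat_lit 3) (nat_lit 8))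
    (@En.n l1504 (nat_lit 12946) (nat_lit 5) (nat_lit 14))
    (@En.i (nat_lit 12884) (nat_lit 5) (nat_lit 5))
    (@En.n l11 (nat_lit 12891) (nat_lit 6) (nat_lit 2))
    (@En.n l1528 (nat_lit 12892) (nat_lit 7) (nat_lit 6))
    (@En.n l180 (nat_lit 12890) (nat_lit 9) (nat_lit 14))
    (@En.n l619 (nat_lit 12901) (nat_lit 9) (nat_lit 3))
    (@En.i (nat_lit 14117) (nat_lit 11) (nat_lit 11))
    (@En.i (nat_lit 13436) (nat_lit 12) (nat_lit 8))
    (@En.n l1527 (nat_lit 13822) (nat_lit 5) (nat_lit 13))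
    (@En.n l1529 (nat_lit 1395) (nat_lit 14) (nat_lit 10))
    (@En.n l17 (nat_lit 12891) (nat_lit 14) (nat_lit 2))
    (@En.n l18 (nat_lit 12891) (nat_lit 15) (nat_lit 2))))
  (@Cl.mk (nat_lit 0x20002000a000a000d0009000c0003000600060004000e00070002000e000e) (nat_lit 0x32360000040012) (nat_lit 16) Lb.e (@T16.mk En
    (@En.n l97 (nat_lit 12892) (nat_lit 1) (nat_lit 14))
    (@En.i (nat_lit 1010) (nat_lit 1) (nat_lit 14))
    (@En.n l17 (nat_lit 12892) (nat_lit 2) (nat_lit 2))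
    (@En.n l440 (nat_lit 12894) (nat_lit 3) (nat_lit 7))
    (@En.n l441 (nat_lit 12929) (nat_lit 5) (nat_lit 14))
    (@En.n l437 (nat_lit 12883) (nat_lit 5) (nat_lit 4))
    (@En.n l442 (nat_lit 12895) (nat_lit 6) (nat_lit 6))
    (@En.n l443 (nat_lit 13030) (nat_lit 7) (nat_lit 6))
    (@En.n l50 (nat_lit 12900) (nat_lit 8) (nat_lit 3))
    (@En.n l430 (nat_lit 14112) (nat_lit 10) (nat_lit 12))
    (@En.n l217 (nat_lit 13315) (nat_lit 11) (nat_lit 9))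
    (@En.n l444 (nat_lit 12891) (nat_lit 12) (nat_lit 13))
    (@En.n l445 (nat_lit 12891) (nat_lit 13) (nat_lit 10))
    (@En.n l446 (nat_lit 1774) (nat_lit 14) (nat_lit 10))
    (@En.n l107 (nat_lit 12892) (nat_lit 14) (nat_lit 2))
    (@En.n l3 (nat_lit 12892) (nat_lit 15) (nat_lit 2))))
  (@Cl.mk (nat_lit 0x200020009000c00080008000b0004000e00070002000500080008000e000e) (nat_lit 0x32561070006256) (nat_lit 16) Lb.e (@T16.mk En
    (@En.n l5 (nat_lit 12893) (nat_lit 1) (nat_lit 14))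
    (@En.n l420 (nat_lit 1058) (nat_lit 12) (nat_lit 14))
    (@En.n l2110 (nat_lit 12899) (nat_lit 2) (nat_lit 8))
    (@En.n l4670 (nat_lit 12904) (nat_lit 3) (nat_lit 8))
    (@En.i (nat_lit 12879) (nat_lit 4) (nat_lit 5))
    (@En.n l11 (nat_lit 12893) (nat_lit 5) (nat_lit 2))
    (@En.n l4671 (nat_lit 12894) (nat_lit 6) (nat_lit 7))
    (@En.n l180 (nat_lit 722) (nat_lit 8) (nat_lit 14))
    (@En.n l4672 (nat_lit 12902) (nat_lit 8) (nat_lit 4))
    (@En.n l8 (nat_lit 12891) (nat_lit 10) (nat_lit 11))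
    (@En.n l77 (nat_lit 12891) (nat_lit 11) (nat_lit 8))
    (@En.n l4673 (nat_lit 13323) (nat_lit 12) (nat_lit 8))
    (@En.n l1527 (nat_lit 13818) (nat_lit 6) (nat_lit 12))
    (@En.n l4674 (nat_lit 1485) (nat_lit 14) (nat_lit 9))
    (@En.n l17 (nat_lit 12893) (nat_lit 14) (nat_lit 2))
    (@En.n l18 (nat_lit 12893) (nat_lit 15) (nat_lit 2))))
  (@Cl.mk (nat_lit 0x2000200090009000c00090009000c000400070007000400070007000e000e) (nat_lit 0x34367100000012) (nat_lit 16) Lb.e (@T16.mk En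
    (@En.n l5 (nat_lit 12894) (nat_lit 1) (nat_lit 14))
    (@En.n l1470 (nat_lit 1059) (nat_lit 1) (nat_lit 14))
    (@En.n l1471 (nat_lit 12897) (nat_lit 2) (nat_lit 7))
    (@En.n l1472 (nat_lit 946) (nat_lit 3) (nat_lit 7))
    (@En.n l1473 (nat_lit 12880) (nat_lit 4) (nat_lit 4))
    (@En.n l1474 (nat_lit 12896) (nat_lit 5) (nat_lit 7))
    (@En.n l3 (nat_lit 13028) (nat_lit 6) (nat_lit 7))
    (@En.n l527 (nat_lit 12903) (nat_lit 7) (nat_lit 4))
    (@En.n l1475 (nat_lit 12892) (nat_lit 9) (nat_lit 12))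
    (@En.n l1476 (nat_lit 12892) (nat_lit 10) (nat_lit 9))
    (@En.n l1477 (nat_lit 13317) (nat_lit 11) (nat_lit 9))
    (@En.n l1478 (nat_lit 12893) (nat_lit 12) (nat_lit 12))
    (@En.n l1479 (nat_lit 12893) (nat_lit 13) (nat_lit 9))
    (@En.n l1480 (nat_lit 1488) (nat_lit 14) (nat_lit 9))
    (@En.n l17 (nat_lit 12894) (nat_lit 14) (nat_lit 2))
    (@En.n l18 (nat_lit 12894) (nat_lit 15) (nat_lit 2))))
  (@Cl.mk (nat_lit 0x20002000e000a0002000d000a000d000300060003000e00060002000e000e) (nat_lit 0xa4046000030012) (nat_lit 16) Lb.e (@T16.mk En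
    (@En.n l5 (nat_lit 12895) (nat_lit 1) (nat_lit 14))
    (@En.n l94 (nat_lit 1013) (nat_lit 1) (nat_lit 14))
    (@En.n l7 (nat_lit 12895) (nat_lit 2) (nat_lit 2))
    (@En.i (nat_lit 12896) (nat_lit 3) (nat_lit 6))
    (@En.n l95 (nat_lit 12930) (nat_lit 5) (nat_lit 14))
    (@En.n l11 (nat_lit 13018) (nat_lit 5) (nat_lit 3))
    (@En.n l39 (nat_lit 13027) (nat_lit 6) (nat_lit 6))
    (@En.n l40 (nat_lit 12931) (nat_lit 7) (nat_lit 3))
    (@En.i (nat_lit 14113) (nat_lit 9) (nat_lit 13))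
    (@En.i (nat_lit 13108) (nat_lit 10) (nat_lit 10))
    (@En.n l96 (nat_lit 12892) (nat_lit 11) (nat_lit 13))
    (@En.n l3 (nat_lit 12895) (nat_lit 11) (nat_lit 2))
    (@En.n l94 (nat_lit 12892) (nat_lit 13) (nat_lit 10))
    (@En.i (nat_lit 2486) (nat_lit 1) (nat_lit 14))
    (@En.n l17 (nat_lit 12895) (nat_lit 14) (nat_lit 2))
    (@En.n l18 (nat_lit 12895) (nat_lit 15) (nat_lit 2))))
noncomputable def a806 : T16 Cl := @T16.mk Cl
  (@Cl.mk (nat_lit 0x20002000e00090002000c000a000a000d00040007000300060006000e000e) (nat_lit 0x940477100000ab) (nat_lit 16) Lb.e (@T16.mk En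
    (@En.n l5 (nat_lit 12896) (nat_lit 1) (nat_lit 14))
    (@En.n l420 (nat_lit 1592) (nat_lit 1) (nat_lit 14))
    (@En.n l421 (nat_lit 12898) (nat_lit 2) (nat_lit 6))
    (@En.n l422 (nat_lit 12918) (nat_lit 3) (nat_lit 6))
    (@En.n l11 (nat_lit 13016) (nat_lit 4) (nat_lit 3))
    (@En.n l423 (nat_lit 13025) (nat_lit 5) (nat_lit 7))
    (@En.n l424 (nat_lit 12919) (nat_lit 6) (nat_lit 4))
    (@En.n l8 (nat_lit 12895) (nat_lit 8) (nat_lit 13))
    (@En.n l77 (nat_lit 12895) (nat_lit 9) (nat_lit 10))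
    (@En.i (nat_lit 13110) (nat_lit 10) (nat_lit 10))
    (@En.n l425 (nat_lit 12894) (nat_lit 11) (nat_lit 12))
    (@En.n l3 (nat_lit 12896) (nat_lit 11) (nat_lit 2))
    (@En.n l426 (nat_lit 12894) (nat_lit 13) (nat_lit 9))
    (@En.i (nat_lit 2481) (nat_lit 1) (nat_lit 14))
    (@En.n l17 (nat_lit 12896) (nat_lit 14) (nat_lit 2))
    (@En.n l18 (nat_lit 12896) (nat_lit 15) (nat_lit 2))))
  (@Cl.mk (nat_lit 0x2000200080008000b000e00090002000c00050008000800040007000e000e) (nat_lit 0x34367020560012) (nat_lit 16) Lb.e (@T16.mk En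
    (@En.n l601 (nat_lit 12897) (nat_lit 1) (nat_lit 14))
    (@En.i (nat_lit 1265) (nat_lit 1) (nat_lit 14))
    (@En.n l1643 (nat_lit 937) (nat_lit 2) (nat_lit 7))
    (@En.n l1758 (nat_lit 12878) (nat_lit 3) (nat_lit 4))
    (@En.n l1884 (nat_lit 12898) (nat_lit 4) (nat_lit 8))
    (@En.n l1885 (nat_lit 13029) (nat_lit 5) (nat_lit 8))
    (@En.n l1886 (nat_lit 946) (nat_lit 6) (nat_lit 5))
    (@En.n l1887 (nat_lit 12894) (nat_lit 8) (nat_lit 12))
    (@En.n l17 (nat_lit 12897) (nat_lit 8) (nat_lit 2))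
    (@En.n l1888 (nat_lit 12894) (nat_lit 10) (nat_lit 9))
    (@En.n l1889 (nat_lit 13254) (nat_lit 11) (nat_lit 14))
    (@En.n l107 (nat_lit 12899) (nat_lit 12) (nat_lit 11))
    (@En.n l575 (nat_lit 12899) (nat_lit 13) (nat_lit 8))
    (@En.n l1890 (nat_lit 1478) (nat_lit 14) (nat_lit 8))
    (@En.n l50 (nat_lit 12897) (nat_lit 14) (nat_lit 2))
    (@En.n l7 (nat_lit 12897) (nat_lit 15) (nat_lit 2))))
  (@Cl.mk (nat_lit 0x20002000e00080002000b000e000a0002000d0005000800030006000e000e) (nat_lit 0x840458020500ab) (nat_lit 16) Lb.e (@T16.mk En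
    (@En.n l97 (nat_lit 12898) (nat_lit 1) (nat_lit 14))
    (@En.n l583 (nat_lit 1387) (nat_lit 1) (nat_lit 14))
    (@En.i (nat_lit 941) (nat_lit 2) (nat_lit 6))
    (@En.n l584 (nat_lit 13017) (nat_lit 3) (nat_lit 3))
    (@En.n l387 (nat_lit 13026) (nat_lit 4) (nat_lit 8))
    (@En.n l585 (nat_lit 12918) (nat_lit 5) (nat_lit 5))
    (@En.n l586 (nat_lit 12896) (nat_lit 7) (nat_lit 13))
    (@En.n l50 (nat_lit 12898) (nat_lit 7) (nat_lit 2))
    (@En.n l587 (nat_lit 12896) (nat_lit 9) (nat_lit 10))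
    (@En.i (nat_lit 13234) (nat_lit 10) (nat_lit 14))
    (@En.n l588 (nat_lit 12897) (nat_lit 11) (nat_lit 11))
    (@En.n l28 (nat_lit 12898) (nat_lit 11) (nat_lit 2))
    (@En.n l589 (nat_lit 12897) (nat_lit 13) (nat_lit 8))
    (@En.n l590 (nat_lit 2483) (nat_lit 1) (nat_lit 14))
    (@En.n l107 (nat_lit 12898) (nat_lit 14) (nat_lit 2))
    (@En.n l3 (nat_lit 12898) (nat_lit 15) (nat_lit 2))))
  (@Cl.mk (nat_lit 0x200020008000b000e00080002000b0005000e0008000200050008000e000e) (nat_lit 0x3236020a600145) (nat_lit 16) Lb.e (@T16.mk En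
    (@En.n l601 (nat_lit 12899) (nat_lit 1) (nat_lit 14))
    (@En.i (nat_lit 1262) (nat_lit 13) (nat_lit 14))
    (@En.n l1643 (nat_lit 943) (nat_lit 2) (nat_lit 8))
    (@En.i (nat_lit 12877) (nat_lit 3) (nat_lit 5))
    (@En.n l11 (nat_lit 12899) (nat_lit 4) (nat_lit 2))
    (@En.i (nat_lit 12897) (nat_lit 5) (nat_lit 8))
    (@En.n l180 (nat_lit 723) (nat_lit 7) (nat_lit 14))
    (@En.n l619 (nat_lit 12904) (nat_lit 7) (nat_lit 5))
    (@En.n l5552 (nat_lit 12893) (nat_lit 9) (nat_lit 11))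
    (@En.n l17 (nat_lit 12899) (nat_lit 9) (nat_lit 2))
    (@En.n l5553 (nat_lit 12893) (nat_lit 11) (nat_lit 8))
    (@En.n l1889 (nat_lit 13253) (nat_lit 12) (nat_lit 14))
    (@En.n l1998 (nat_lit 13819) (nat_lit 7) (nat_lit 11))
    (@En.n l2034 (nat_lit 1479) (nat_lit 14) (nat_lit 8))
    (@En.n l50 (nat_lit 12899) (nat_lit 14) (nat_lit 2))
    (@En.n l7 (nat_lit 12899) (nat_lit 15) (nat_lit 2))))
  (@Cl.mk (nat_lit 0x20002000a000a000d000b000a0003000600060005000e00060002000e000e) (nat_lit 0x34036000060012) (nat_lit 16) Lb.e (@T16.mk En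
    (@En.n l97 (nat_lit 12900) (nat_lit 1) (nat_lit 14))
    (@En.i (nat_lit 1014) (nat_lit 1) (nat_lit 14))
    (@En.n l17 (nat_lit 12900) (nat_lit 2) (nat_lit 2))
    (@En.n l1431 (nat_lit 12903) (nat_lit 3) (nat_lit 6))
    (@En.n l780 (nat_lit 12925) (nat_lit 5) (nat_lit 14))
    (@En.n l437 (nat_lit 13402) (nat_lit 5) (nat_lit 5))
    (@En.n l55 (nat_lit 12931) (nat_lit 6) (nat_lit 6))
    (@En.n l437 (nat_lit 13422) (nat_lit 7) (nat_lit 6))
    (@En.i (nat_lit 12892) (nat_lit 8) (nat_lit 3))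
    (@En.n l1514 (nat_lit 13370) (nat_lit 10) (nat_lit 10))
    (@En.n l438 (nat_lit 12889) (nat_lit 11) (nat_lit 11))
    (@En.n l1515 (nat_lit 12901) (nat_lit 12) (nat_lit 13))
    (@En.n l1516 (nat_lit 12901) (nat_lit 13) (nat_lit 10))
    (@En.n l1517 (nat_lit 1513) (nat_lit 14) (nat_lit 10))
    (@En.n l107 (nat_lit 12900) (nat_lit 14) (nat_lit 2))
    (@En.n l3 (nat_lit 12900) (nat_lit 15) (nat_lit 2))))
  (@Cl.mk (nat_lit 0x20002000a000d000a00090003000e000600020006000e00070002000e000e) (nat_lit 0x3b260700070012) (nat_lit 16) Lb.e (@T16.mk En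
    (@En.n l5 (nat_lit 12901) (nat_lit 1) (nat_lit 14))
    (@En.n l4381 (nat_lit 1017) (nat_lit 1) (nat_lit 14))
    (@En.n l7 (nat_lit 12901) (nat_lit 2) (nat_lit 2))
    (@En.n l4433 (nat_lit 12902) (nat_lit 3) (nat_lit 7))
    (@En.n l4745 (nat_lit 12928) (nat_lit 5) (nat_lit 14))
    (@En.n l1677 (nat_lit 13401) (nat_lit 5) (nat_lit 6))
    (@En.n l107 (nat_lit 12901) (nat_lit 6) (nat_lit 2))
    (@En.n l4746 (nat_lit 12900) (nat_lit 7) (nat_lit 6))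
    (@En.n l97 (nat_lit 13381) (nat_lit 9) (nat_lit 14))
    (@En.n l1847 (nat_lit 12891) (nat_lit 9) (nat_lit 3))
    (@En.i (nat_lit 13372) (nat_lit 11) (nat_lit 9))
    (@En.i (nat_lit 12890) (nat_lit 12) (nat_lit 10))
    (@En.n l1847 (nat_lit 13823) (nat_lit 5) (nat_lit 13))
    (@En.n l2981 (nat_lit 1539) (nat_lit 14) (nat_lit 10))
    (@En.n l17 (nat_lit 12901) (nat_lit 14) (nat_lit 2))
    (@En.n l18 (nat_lit 12901) (nat_lit 15) (nat_lit 2))))
  (@Cl.mk (nat_lit 0x200020009000c0009000900090004000e00070002000700070007000e000e) (nat_lit 0x13267080000023) (nat_lit 16) Lb.e (@T16.mk En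
    (@En.n l5 (nat_lit 12902) (nat_lit 1) (nat_lit 14))
    (@En.n l5514 (nat_lit 4159) (nat_lit 12) (nat_lit 14))
    (@En.n l5515 (nat_lit 12904) (nat_lit 2) (nat_lit 7))
    (@En.n l152 (nat_lit 12932) (nat_lit 3) (nat_lit 7))
    (@En.n l5516 (nat_lit 14020) (nat_lit 4) (nat_lit 7))
    (@En.n l7 (nat_lit 12902) (nat_lit 5) (nat_lit 2))
    (@En.n l5517 (nat_lit 12903) (nat_lit 6) (nat_lit 7))
    (@En.n l134 (nat_lit 12909) (nat_lit 8) (nat_lit 14))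
    (@En.n l5518 (nat_lit 12926) (nat_lit 8) (nat_lit 4))
    (@En.n l5519 (nat_lit 12901) (nat_lit 10) (nat_lit 9))
    (@En.n l5520 (nat_lit 12946) (nat_lit 11) (nat_lit 9))
    (@En.n l5521 (nat_lit 722) (nat_lit 12) (nat_lit 9))
    (@En.i (nat_lit 13821) (nat_lit 6) (nat_lit 12))
    (@En.n l2568 (nat_lit 1394) (nat_lit 14) (nat_lit 9))
    (@En.n l17 (nat_lit 12902) (nat_lit 14) (nat_lit 2))
    (@En.n l18 (nat_lit 12902) (nat_lit 15) (nat_lit 2))))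
  (@Cl.mk (nat_lit 0x2000200090009000c000a000a000a000400070007000600060006000e000e) (nat_lit 0x32438700000045) (nat_lit 16) Lb.e (@T16.mk En
    (@En.n l5 (nat_lit 12903) (nat_lit 1) (nat_lit 14))
    (@En.n l1451 (nat_lit 4154) (nat_lit 1) (nat_lit 14))
    (@En.n l237 (nat_lit 946) (nat_lit 2) (nat_lit 6))
    (@En.n l575 (nat_lit 945) (nat_lit 3) (nat_lit 6))
    (@En.i (nat_lit 14019) (nat_lit 4) (nat_lit 6))
    (@En.n l2 (nat_lit 12919) (nat_lit 5) (nat_lit 7))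
    (@En.i (nat_lit 13462) (nat_lit 6) (nat_lit 7))
    (@En.n l1868 (nat_lit 12922) (nat_lit 7) (nat_lit 4))
    (@En.n l1425 (nat_lit 12900) (nat_lit 9) (nat_lit 10))
    (@En.n l577 (nat_lit 12929) (nat_lit 10) (nat_lit 10))
    (@En.n l1869 (nat_lit 12887) (nat_lit 11) (nat_lit 10))
    (@En.n l1870 (nat_lit 12902) (nat_lit 12) (nat_lit 12))
    (@En.n l1871 (nat_lit 12902) (nat_lit 13) (nat_lit 9))
    (@En.i (nat_lit 1509) (nat_lit 14) (nat_lit 9))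
    (@En.n l17 (nat_lit 12903) (nat_lit 14) (nat_lit 2))
    (@En.n l18 (nat_lit 12903) (nat_lit 15) (nat_lit 2))))
  (@Cl.mk (nat_lit 0x200020008000b0008000e000900020005000e0008000200080007000e000e) (nat_lit 0x63247009105012) (nat_lit 16) Lb.e (@T16.mk En
    (@En.n l601 (nat_lit 12904) (nat_lit 1) (nat_lit 14))
    (@En.i (nat_lit 1268) (nat_lit 9) (nat_lit 14))
    (@En.n l1913 (nat_lit 939) (nat_lit 2) (nat_lit 7))
    (@En.n l1914 (nat_lit 14022) (nat_lit 3) (nat_lit 8))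
    (@En.n l107 (nat_lit 12904) (nat_lit 4) (nat_lit 2))
    (@En.n l1775 (nat_lit 946) (nat_lit 5) (nat_lit 8))
    (@En.n l97 (nat_lit 12905) (nat_lit 7) (nat_lit 14))
    (@En.n l1915 (nat_lit 12932) (nat_lit 7) (nat_lit 5))
    (@En.n l17 (nat_lit 12904) (nat_lit 8) (nat_lit 2))
    (@En.n l1916 (nat_lit 12902) (nat_lit 10) (nat_lit 9))
    (@En.n l524 (nat_lit 12899) (nat_lit 11) (nat_lit 14))
    (@En.i (nat_lit 723) (nat_lit 12) (nat_lit 8))
    (@En.i (nat_lit 13820) (nat_lit 7) (nat_lit 11))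
    (@En.n l532 (nat_lit 1522) (nat_lit 4) (nat_lit 8))
    (@En.n l50 (nat_lit 12904) (nat_lit 14) (nat_lit 2))
    (@En.n l7 (nat_lit 12904) (nat_lit 15) (nat_lit 2))))
  (@Cl.mk (nat_lit 0x20002000900080008000e00090002000e00070002000800080007000e000e) (nat_lit 0x13456080016045) (nat_lit 16) Lb.e (@T16.mk En
    (@En.n l601 (nat_lit 12905) (nat_lit 1) (nat_lit 14))
    (@En.i (nat_lit 1899) (nat_lit 12) (nat_lit 14))
    (@En.n l1913 (nat_lit 12787) (nat_lit 2) (nat_lit 7))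
    (@En.n l3554 (nat_lit 12906) (nat_lit 3) (nat_lit 8))
    (@En.n l3555 (nat_lit 946) (nat_lit 4) (nat_lit 8))
    (@En.n l3 (nat_lit 12905) (nat_lit 5) (nat_lit 2))
    (@En.n l5065 (nat_lit 12910) (nat_lit 6) (nat_lit 7))
    (@En.i (nat_lit 12997) (nat_lit 8) (nat_lit 14))
    (@En.n l17 (nat_lit 12905) (nat_lit 8) (nat_lit 2))
    (@En.n l1916 (nat_lit 12909) (nat_lit 10) (nat_lit 9))
    (@En.n l524 (nat_lit 723) (nat_lit 11) (nat_lit 14))
    (@En.n l575 (nat_lit 12994) (nat_lit 12) (nat_lit 8))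
    (@En.i (nat_lit 12959) (nat_lit 13) (nat_lit 8))
    (@En.n l5066 (nat_lit 1528) (nat_lit 14) (nat_lit 9))
    (@En.n l50 (nat_lit 12905) (nat_lit 14) (nat_lit 2))
    (@En.n l7 (nat_lit 12905) (nat_lit 15) (nat_lit 2))))
  (@Cl.mk (nat_lit 0x200020008000e00080002000e000a0002000e0008000200080006000e000e) (nat_lit 0x42405708005067) (nat_lit 16) Lb.e (@T16.mk En
    (@En.n l1578 (nat_lit 12906) (nat_lit 1) (nat_lit 14))
    (@En.i (nat_lit 3665) (nat_lit 13) (nat_lit 14))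
    (@En.n l210 (nat_lit 13899) (nat_lit 2) (nat_lit 6))
    (@En.n l1262 (nat_lit 14023) (nat_lit 3) (nat_lit 8))
    (@En.n l3 (nat_lit 12906) (nat_lit 4) (nat_lit 2))
    (@En.n l1262 (nat_lit 12907) (nat_lit 5) (nat_lit 8))
    (@En.i (nat_lit 13707) (nat_lit 7) (nat_lit 14))
    (@En.n l17 (nat_lit 12906) (nat_lit 7) (nat_lit 2))
    (@En.n l764 (nat_lit 12908) (nat_lit 9) (nat_lit 10))
    (@En.n l1266 (nat_lit 12904) (nat_lit 10) (nat_lit 14))
    (@En.n l50 (nat_lit 12906) (nat_lit 10) (nat_lit 2))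
    (@En.n l1267 (nat_lit 12905) (nat_lit 12) (nat_lit 8))
    (@En.n l210 (nat_lit 13752) (nat_lit 13) (nat_lit 14))
    (@En.i (nat_lit 1530) (nat_lit 14) (nat_lit 8))
    (@En.n l28 (nat_lit 12906) (nat_lit 14) (nat_lit 2))
    (@En.n l11 (nat_lit 12906) (nat_lit 15) (nat_lit 2))))
  (@Cl.mk (nat_lit 0x2000200080008000e00090002000e000b00020008000800070005000e000e) (nat_lit 0x35c40890600056) (nat_lit 16) Lb.e (@T16.mk En
    (@En.n l5 (nat_lit 12907) (nat_lit 1) (nat_lit 14))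
    (@En.n l473 (nat_lit 2036) (nat_lit 1) (nat_lit 14))
    (@En.i (nat_lit 13898) (nat_lit 2) (nat_lit 5))
    (@En.i (nat_lit 14027) (nat_lit 3) (nat_lit 7))
    (@En.n l474 (nat_lit 13100) (nat_lit 4) (nat_lit 8))
    (@En.n l475 (nat_lit 13543) (nat_lit 5) (nat_lit 8))
    (@En.n l28 (nat_lit 12907) (nat_lit 6) (nat_lit 2))
    (@En.n l77 (nat_lit 12912) (nat_lit 8) (nat_lit 11))
    (@En.n l476 (nat_lit 946) (nat_lit 9) (nat_lit 14))
    (@En.n l67 (nat_lit 12907) (nat_lit 9) (nat_lit 2))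
    (@En.n l477 (nat_lit 12910) (nat_lit 11) (nat_lit 9))
    (@En.n l471 (nat_lit 12914) (nat_lit 12) (nat_lit 14))
    (@En.n l478 (nat_lit 12906) (nat_lit 13) (nat_lit 8))
    (@En.i (nat_lit 1942) (nat_lit 14) (nat_lit 8))
    (@En.n l17 (nat_lit 12907) (nat_lit 14) (nat_lit 2))
    (@En.n l18 (nat_lit 12907) (nat_lit 15) (nat_lit 2))))
  (@Cl.mk (nat_lit 0x200020009000e00090002000a000a000e00070002000700060006000e000e) (nat_lit 0x32406770000045) (nat_lit 16) Lb.e (@T16.mk En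
    (@En.n l1578 (nat_lit 12908) (nat_lit 1) (nat_lit 14))
    (@En.i (nat_lit 3093) (nat_lit 12) (nat_lit 14))
    (@En.n l2345 (nat_lit 12906) (nat_lit 2) (nat_lit 6))
    (@En.i (nat_lit 13695) (nat_lit 3) (nat_lit 6))
    (@En.n l4990 (nat_lit 14005) (nat_lit 4) (nat_lit 7))
    (@En.n l3 (nat_lit 12908) (nat_lit 5) (nat_lit 2))
    (@En.n l4991 (nat_lit 12912) (nat_lit 6) (nat_lit 7))
    (@En.n l4992 (nat_lit 13711) (nat_lit 8) (nat_lit 14))
    (@En.n l4993 (nat_lit 14080) (nat_lit 9) (nat_lit 10))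
    (@En.n l4994 (nat_lit 12934) (nat_lit 10) (nat_lit 10))
    (@En.n l50 (nat_lit 12908) (nat_lit 10) (nat_lit 2))
    (@En.n l4995 (nat_lit 12909) (nat_lit 12) (nat_lit 9))
    (@En.n l2544 (nat_lit 13758) (nat_lit 13) (nat_lit 14))
    (@En.i (nat_lit 1844) (nat_lit 2) (nat_lit 9))
    (@En.n l28 (nat_lit 12908) (nat_lit 14) (nat_lit 2))
    (@En.n l11 (nat_lit 12908) (nat_lit 15) (nat_lit 2))))
  (@Cl.mk (nat_lit 0x20002000a0009000900090009000e000600020007000700070007000e000e) (nat_lit 0x13455700000067) (nat_lit 16) Lb.e (@T16.mk En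
    (@En.n l5 (nat_lit 12909) (nat_lit 1) (nat_lit 14))
    (@En.n l5514 (nat_lit 3096) (nat_lit 11) (nat_lit 14))
    (@En.n l5515 (nat_lit 12905) (nat_lit 2) (nat_lit 7))
    (@En.n l152 (nat_lit 13704) (nat_lit 3) (nat_lit 7))
    (@En.n l12120 (nat_lit 12908) (nat_lit 4) (nat_lit 7))
    (@En.n l12121 (nat_lit 12903) (nat_lit 5) (nat_lit 7))
    (@En.n l28 (nat_lit 12909) (nat_lit 6) (nat_lit 2))
    (@En.n l12122 (nat_lit 12911) (nat_lit 7) (nat_lit 6))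
    (@En.n l5577 (nat_lit 13713) (nat_lit 9) (nat_lit 14))
    (@En.n l5519 (nat_lit 13381) (nat_lit 10) (nat_lit 9))
    (@En.n l12123 (nat_lit 12947) (nat_lit 11) (nat_lit 9))
    (@En.n l12124 (nat_lit 12995) (nat_lit 12) (nat_lit 9))
    (@En.i (nat_lit 12950) (nat_lit 13) (nat_lit 9))
    (@En.n l8118 (nat_lit 1519) (nat_lit 14) (nat_lit 10))
    (@En.n l17 (nat_lit 12909) (nat_lit 14) (nat_lit 2))
    (@En.n l18 (nat_lit 12909) (nat_lit 15) (nat_lit 2))))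
  (@Cl.mk (nat_lit 0x200020009000900090009000e000a000200070007000700070006000e000e) (nat_lit 0x12357700000067) (nat_lit 16) Lb.e (@T16.mk En
    (@En.n l5 (nat_lit 12910) (nat_lit 1) (nat_lit 14))
    (@En.n l1612 (nat_lit 2919) (nat_lit 10) (nat_lit 14))
    (@En.n l1613 (nat_lit 12784) (nat_lit 2) (nat_lit 6))
    (@En.i (nat_lit 12907) (nat_lit 3) (nat_lit 7))
    (@En.n l152 (nat_lit 13463) (nat_lit 4) (nat_lit 7))
    (@En.n l1614 (nat_lit 12993) (nat_lit 5) (nat_lit 7))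
    (@En.n l481 (nat_lit 13538) (nat_lit 6) (nat_lit 7))
    (@En.n l28 (nat_lit 12910) (nat_lit 7) (nat_lit 2))
    (@En.n l1615 (nat_lit 12911) (nat_lit 9) (nat_lit 10))
    (@En.n l1616 (nat_lit 12888) (nat_lit 10) (nat_lit 14))
    (@En.n l1617 (nat_lit 12992) (nat_lit 11) (nat_lit 9))
    (@En.n l1618 (nat_lit 12960) (nat_lit 12) (nat_lit 9))
    (@En.n l1619 (nat_lit 12905) (nat_lit 13) (nat_lit 9))
    (@En.i (nat_lit 1656) (nat_lit 5) (nat_lit 9))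
    (@En.n l17 (nat_lit 12910) (nat_lit 14) (nat_lit 2))
    (@En.n l18 (nat_lit 12910) (nat_lit 15) (nat_lit 2))))
  (@Cl.mk (nat_lit 0x20002000a000a000a000a000a000a000600060006000600060006000e000e) (nat_lit 0x32456800000056) (nat_lit 16) Lb.e (@T16.mk En
    (@En.n l5 (nat_lit 12911) (nat_lit 1) (nat_lit 14))
    (@En.n l108 (nat_lit 3090) (nat_lit 1) (nat_lit 14))
    (@En.n l4968 (nat_lit 12910) (nat_lit 2) (nat_lit 6))
    (@En.n l218 (nat_lit 13703) (nat_lit 3) (nat_lit 6))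
    (@En.n l394 (nat_lit 12912) (nat_lit 4) (nat_lit 6))
    (@En.n l4969 (nat_lit 13462) (nat_lit 5) (nat_lit 6))
    (@En.n l4510 (nat_lit 12988) (nat_lit 6) (nat_lit 6))
    (@En.n l108 (nat_lit 13502) (nat_lit 7) (nat_lit 6))
    (@En.n l77 (nat_lit 12847) (nat_lit 9) (nat_lit 10))
    (@En.n l1591 (nat_lit 12975) (nat_lit 10) (nat_lit 10))
    (@En.n l4970 (nat_lit 12989) (nat_lit 11) (nat_lit 10))
    (@En.n l4971 (nat_lit 12970) (nat_lit 12) (nat_lit 10))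
    (@En.n l4972 (nat_lit 12909) (nat_lit 13) (nat_lit 10))
    (@En.i (nat_lit 1659) (nat_lit 14) (nat_lit 10))
    (@En.n l17 (nat_lit 12911) (nat_lit 14) (nat_lit 2))
    (@En.n l18 (nat_lit 12911) (nat_lit 15) (nat_lit 2))))
noncomputable def a807 : T16 Cl := @T16.mk Cl
  (@Cl.mk (nat_lit 0x2000200090009000e000a0002000b000b00070007000600050005000e000e) (nat_lit 0x34450890000056) (nat_lit 16) Lb.e (@T16.mk En
    (@En.n l5 (nat_lit 12912) (nat_lit 1) (nat_lit 14))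
    (@En.n l1591 (nat_lit 3097) (nat_lit 1) (nat_lit 14))
    (@En.n l237 (nat_lit 12907) (nat_lit 2) (nat_lit 5))
    (@En.n l1592 (nat_lit 13692) (nat_lit 3) (nat_lit 5))
    (@En.i (nat_lit 13426) (nat_lit 4) (nat_lit 6))
    (@En.n l1593 (nat_lit 13101) (nat_lit 5) (nat_lit 7))
    (@En.n l1591 (nat_lit 13576) (nat_lit 6) (nat_lit 7))
    (@En.n l1454 (nat_lit 13103) (nat_lit 8) (nat_lit 11))
    (@En.n l1594 (nat_lit 12936) (nat_lit 9) (nat_lit 11))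
    (@En.n l67 (nat_lit 12912) (nat_lit 9) (nat_lit 2))
    (@En.n l1595 (nat_lit 12911) (nat_lit 11) (nat_lit 10))
    (@En.n l1596 (nat_lit 12916) (nat_lit 12) (nat_lit 14))
    (@En.n l1597 (nat_lit 12908) (nat_lit 13) (nat_lit 9))
    (@En.i (nat_lit 1909) (nat_lit 14) (nat_lit 9))
    (@En.n l17 (nat_lit 12912) (nat_lit 14) (nat_lit 2))
    (@En.n l18 (nat_lit 12912) (nat_lit 15) (nat_lit 2))))
  (@Cl.mk (nat_lit 0x20002000900080008000b000e000a000200070005000800080006000e000e) (nat_lit 0x33406600015078) (nat_lit 16) Lb.e (@T16.mk En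
    (@En.n l601 (nat_lit 12913) (nat_lit 1) (nat_lit 14))
    (@En.i (nat_lit 2156) (nat_lit 10) (nat_lit 14))
    (@En.n l1913 (nat_lit 13883) (nat_lit 2) (nat_lit 6))
    (@En.n l5100 (nat_lit 12914) (nat_lit 3) (nat_lit 8))
    (@En.n l5101 (nat_lit 12907) (nat_lit 4) (nat_lit 8))
    (@En.n l5102 (nat_lit 13098) (nat_lit 5) (nat_lit 5))
    (@En.n l5103 (nat_lit 13542) (nat_lit 6) (nat_lit 7))
    (@En.n l17 (nat_lit 12913) (nat_lit 7) (nat_lit 2))
    (@En.n l5104 (nat_lit 12915) (nat_lit 9) (nat_lit 10))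
    (@En.i (nat_lit 12905) (nat_lit 10) (nat_lit 14))
    (@En.n l207 (nat_lit 12917) (nat_lit 11) (nat_lit 11))
    (@En.n l575 (nat_lit 12917) (nat_lit 12) (nat_lit 8))
    (@En.i (nat_lit 13220) (nat_lit 13) (nat_lit 8))
    (@En.n l5066 (nat_lit 1937) (nat_lit 5) (nat_lit 9))
    (@En.n l50 (nat_lit 12913) (nat_lit 14) (nat_lit 2))
    (@En.n l7 (nat_lit 12913) (nat_lit 15) (nat_lit 2))))
  (@Cl.mk (nat_lit 0x200020008000e00080002000b000e000b00020008000500080005000e000e) (nat_lit 0x3b401690004067) (nat_lit 16) Lb.e (@T16.mk En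
    (@En.n l5 (nat_lit 12914) (nat_lit 1) (nat_lit 14))
    (@En.n l1637 (nat_lit 2155) (nat_lit 1) (nat_lit 14))
    (@En.n l1638 (nat_lit 13876) (nat_lit 2) (nat_lit 5))
    (@En.n l433 (nat_lit 14028) (nat_lit 3) (nat_lit 8))
    (@En.n l12 (nat_lit 13099) (nat_lit 4) (nat_lit 5))
    (@En.i (nat_lit 13544) (nat_lit 5) (nat_lit 8))
    (@En.n l8 (nat_lit 12914) (nat_lit 6) (nat_lit 2))
    (@En.n l1633 (nat_lit 12916) (nat_lit 8) (nat_lit 11))
    (@En.n l1637 (nat_lit 12906) (nat_lit 9) (nat_lit 14))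
    (@En.n l1639 (nat_lit 12913) (nat_lit 10) (nat_lit 11))
    (@En.n l3 (nat_lit 12914) (nat_lit 10) (nat_lit 2))
    (@En.n l1640 (nat_lit 12913) (nat_lit 12) (nat_lit 8))
    (@En.i (nat_lit 13750) (nat_lit 13) (nat_lit 14))
    (@En.n l1501 (nat_lit 1940) (nat_lit 6) (nat_lit 8))
    (@En.n l17 (nat_lit 12914) (nat_lit 14) (nat_lit 2))
    (@En.n l18 (nat_lit 12914) (nat_lit 15) (nat_lit 2))))
  (@Cl.mk (nat_lit 0x20002000a00090009000c000a000a000600040007000700060006000e000e) (nat_lit 0x22305800000067) (nat_lit 16) Lb.e (@T16.mk En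
    (@En.n l5 (nat_lit 12915) (nat_lit 1) (nat_lit 14))
    (@En.n l12984 (nat_lit 2345) (nat_lit 1) (nat_lit 14))
    (@En.n l12985 (nat_lit 12913) (nat_lit 2) (nat_lit 6))
    (@En.n l12986 (nat_lit 14014) (nat_lit 3) (nat_lit 6))
    (@En.n l3 (nat_lit 12916) (nat_lit 4) (nat_lit 7))
    (@En.n l3549 (nat_lit 12912) (nat_lit 5) (nat_lit 7))
    (@En.n l1428 (nat_lit 13190) (nat_lit 6) (nat_lit 4))
    (@En.n l12984 (nat_lit 13533) (nat_lit 7) (nat_lit 6))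
    (@En.n l12987 (nat_lit 13186) (nat_lit 9) (nat_lit 10))
    (@En.n l9700 (nat_lit 12943) (nat_lit 10) (nat_lit 10))
    (@En.n l12988 (nat_lit 13196) (nat_lit 11) (nat_lit 12))
    (@En.n l12989 (nat_lit 13196) (nat_lit 12) (nat_lit 9))
    (@En.n l12990 (nat_lit 13223) (nat_lit 13) (nat_lit 9))
    (@En.n l253 (nat_lit 3175) (nat_lit 14) (nat_lit 10))
    (@En.n l17 (nat_lit 12915) (nat_lit 14) (nat_lit 2))
    (@En.n l18 (nat_lit 12915) (nat_lit 15) (nat_lit 2))))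
  (@Cl.mk (nat_lit 0x200020009000e00090002000c000b000b00070004000700050005000e000e) (nat_lit 0x23301870000067) (nat_lit 16) Lb.e (@T16.mk En
    (@En.n l5 (nat_lit 12916) (nat_lit 1) (nat_lit 14))
    (@En.n l4980 (nat_lit 2346) (nat_lit 1) (nat_lit 14))
    (@En.n l4660 (nat_lit 12914) (nat_lit 2) (nat_lit 5))
    (@En.n l4980 (nat_lit 13654) (nat_lit 3) (nat_lit 5))
    (@En.n l4981 (nat_lit 13428) (nat_lit 4) (nat_lit 7))
    (@En.n l4982 (nat_lit 13189) (nat_lit 5) (nat_lit 4))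
    (@En.n l4980 (nat_lit 13532) (nat_lit 6) (nat_lit 7))
    (@En.n l4983 (nat_lit 13187) (nat_lit 8) (nat_lit 11))
    (@En.n l4984 (nat_lit 13646) (nat_lit 9) (nat_lit 11))
    (@En.n l1690 (nat_lit 12915) (nat_lit 10) (nat_lit 12))
    (@En.n l67 (nat_lit 12916) (nat_lit 10) (nat_lit 2))
    (@En.n l97 (nat_lit 12915) (nat_lit 12) (nat_lit 9))
    (@En.n l4981 (nat_lit 12829) (nat_lit 13) (nat_lit 14))
    (@En.n l4985 (nat_lit 3174) (nat_lit 14) (nat_lit 9))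
    (@En.n l17 (nat_lit 12916) (nat_lit 14) (nat_lit 2))
    (@En.n l18 (nat_lit 12916) (nat_lit 15) (nat_lit 2))))
  (@Cl.mk (nat_lit 0x20002000a0008000b000e0009000200060005000e000800020007000e000e) (nat_lit 0x23965000a20089) (nat_lit 16) Lb.e (@T16.mk En
    (@En.n l601 (nat_lit 12917) (nat_lit 1) (nat_lit 14))
    (@En.i (nat_lit 2157) (nat_lit 9) (nat_lit 14))
    (@En.n l287 (nat_lit 13894) (nat_lit 2) (nat_lit 7))
    (@En.n l11 (nat_lit 12917) (nat_lit 3) (nat_lit 2))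
    (@En.i (nat_lit 12913) (nat_lit 4) (nat_lit 8))
    (@En.n l12575 (nat_lit 12960) (nat_lit 6) (nat_lit 14))
    (@En.n l12576 (nat_lit 13226) (nat_lit 6) (nat_lit 5))
    (@En.n l10757 (nat_lit 13545) (nat_lit 7) (nat_lit 6))
    (@En.n l17 (nat_lit 12917) (nat_lit 8) (nat_lit 2))
    (@En.n l10757 (nat_lit 13196) (nat_lit 10) (nat_lit 9))
    (@En.i (nat_lit 12994) (nat_lit 11) (nat_lit 14))
    (@En.n l9359 (nat_lit 14104) (nat_lit 7) (nat_lit 11))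
    (@En.i (nat_lit 13266) (nat_lit 13) (nat_lit 8))
    (@En.n l12577 (nat_lit 4644) (nat_lit 4) (nat_lit 10))
    (@En.n l50 (nat_lit 12917) (nat_lit 14) (nat_lit 2))
    (@En.n l7 (nat_lit 12917) (nat_lit 15) (nat_lit 2))))
  (@Cl.mk (nat_lit 0x20002000e00080002000b000a000e000b00020005000800060005000e000e) (nat_lit 0x210546700600ab) (nat_lit 16) Lb.e (@T16.mk En
    (@En.n l5 (nat_lit 12918) (nat_lit 1) (nat_lit 14))
    (@En.n l184 (nat_lit 1384) (nat_lit 11) (nat_lit 14))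
    (@En.i (nat_lit 936) (nat_lit 2) (nat_lit 5))
    (@En.i (nat_lit 13378) (nat_lit 3) (nat_lit 6))
    (@En.n l31 (nat_lit 13451) (nat_lit 4) (nat_lit 8))
    (@En.n l115 (nat_lit 947) (nat_lit 5) (nat_lit 5))
    (@En.n l28 (nat_lit 12918) (nat_lit 6) (nat_lit 2))
    (@En.n l77 (nat_lit 12919) (nat_lit 8) (nat_lit 11))
    (@En.n l185 (nat_lit 12898) (nat_lit 9) (nat_lit 14))
    (@En.n l186 (nat_lit 13017) (nat_lit 10) (nat_lit 10))
    (@En.i (nat_lit 946) (nat_lit 11) (nat_lit 11))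
    (@En.n l3 (nat_lit 12918) (nat_lit 11) (nat_lit 2))
    (@En.n l31 (nat_lit 946) (nat_lit 13) (nat_lit 8))
    (@En.i (nat_lit 2478) (nat_lit 7) (nat_lit 14))
    (@En.n l17 (nat_lit 12918) (nat_lit 14) (nat_lit 2))
    (@En.n l18 (nat_lit 12918) (nat_lit 15) (nat_lit 2))))
  (@Cl.mk (nat_lit 0x20002000e00090002000c000b000b000b00040007000500050005000e000e) (nat_lit 0x240546800000ab) (nat_lit 16) Lb.e (@T16.mk En
    (@En.n l5 (nat_lit 12919) (nat_lit 1) (nat_lit 14))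
    (@En.n l37 (nat_lit 4161) (nat_lit 1) (nat_lit 14))
    (@En.n l237 (nat_lit 12918) (nat_lit 2) (nat_lit 5))
    (@En.n l575 (nat_lit 947) (nat_lit 3) (nat_lit 5))
    (@En.i (nat_lit 13376) (nat_lit 4) (nat_lit 5))
    (@En.n l37 (nat_lit 13453) (nat_lit 5) (nat_lit 7))
    (@En.n l55 (nat_lit 12920) (nat_lit 6) (nat_lit 4))
    (@En.n l576 (nat_lit 12931) (nat_lit 8) (nat_lit 11))
    (@En.n l577 (nat_lit 12930) (nat_lit 9) (nat_lit 11))
    (@En.n l578 (nat_lit 13016) (nat_lit 10) (nat_lit 11))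
    (@En.i (nat_lit 12903) (nat_lit 11) (nat_lit 12))
    (@En.n l3 (nat_lit 12919) (nat_lit 11) (nat_lit 2))
    (@En.n l31 (nat_lit 12903) (nat_lit 13) (nat_lit 9))
    (@En.i (nat_lit 2476) (nat_lit 1) (nat_lit 14))
    (@En.n l17 (nat_lit 12919) (nat_lit 14) (nat_lit 2))
    (@En.n l18 (nat_lit 12919) (nat_lit 15) (nat_lit 2))))
  (@Cl.mk (nat_lit 0x20002000e00090002000c0009000c000c00040007000400040007000e000e) (nat_lit 0x640665a00000ab) (nat_lit 16) Lb.e (@T16.mk En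
    (@En.n l5 (nat_lit 12920) (nat_lit 1) (nat_lit 14))
    (@En.n l420 (nat_lit 5138) (nat_lit 1) (nat_lit 14))
    (@En.n l1859 (nat_lit 12921) (nat_lit 2) (nat_lit 7))
    (@En.n l1860 (nat_lit 12921) (nat_lit 3) (nat_lit 4))
    (@En.i (nat_lit 13113) (nat_lit 4) (nat_lit 4))
    (@En.n l1861 (nat_lit 13468) (nat_lit 5) (nat_lit 7))
    (@En.n l575 (nat_lit 12896) (nat_lit 6) (nat_lit 4))
    (@En.n l1600 (nat_lit 12923) (nat_lit 8) (nat_lit 12))
    (@En.n l1379 (nat_lit 12931) (nat_lit 9) (nat_lit 12))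
    (@En.i (nat_lit 13105) (nat_lit 10) (nat_lit 9))
    (@En.n l1862 (nat_lit 12922) (nat_lit 11) (nat_lit 12))
    (@En.n l3 (nat_lit 12920) (nat_lit 11) (nat_lit 2))
    (@En.n l1379 (nat_lit 12922) (nat_lit 13) (nat_lit 9))
    (@En.i (nat_lit 2061) (nat_lit 1) (nat_lit 14))
    (@En.n l17 (nat_lit 12920) (nat_lit 14) (nat_lit 2))
    (@En.n l18 (nat_lit 12920) (nat_lit 15) (nat_lit 2))))
  (@Cl.mk (nat_lit 0x20002000e00080002000b0009000e000c00020005000800040007000e000e) (nat_lit 0x140671600000ab) (nat_lit 16) Lb.e (@T16.mk En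
    (@En.n l97 (nat_lit 12921) (nat_lit 1) (nat_lit 14))
    (@En.n l1872 (nat_lit 5380) (nat_lit 11) (nat_lit 14))
    (@En.i (nat_lit 14058) (nat_lit 11) (nat_lit 7))
    (@En.n l584 (nat_lit 13110) (nat_lit 3) (nat_lit 4))
    (@En.n l803 (nat_lit 13467) (nat_lit 4) (nat_lit 8))
    (@En.i (nat_lit 12898) (nat_lit 5) (nat_lit 5))
    (@En.n l17 (nat_lit 12921) (nat_lit 6) (nat_lit 2))
    (@En.n l1630 (nat_lit 12920) (nat_lit 8) (nat_lit 12))
    (@En.n l1873 (nat_lit 947) (nat_lit 9) (nat_lit 14))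
    (@En.n l584 (nat_lit 13104) (nat_lit 10) (nat_lit 9))
    (@En.n l1874 (nat_lit 12924) (nat_lit 11) (nat_lit 11))
    (@En.n l28 (nat_lit 12921) (nat_lit 11) (nat_lit 2))
    (@En.n l1875 (nat_lit 12924) (nat_lit 13) (nat_lit 8))
    (@En.n l584 (nat_lit 758) (nat_lit 7) (nat_lit 14))
    (@En.n l107 (nat_lit 12921) (nat_lit 14) (nat_lit 2))
    (@En.n l3 (nat_lit 12921) (nat_lit 15) (nat_lit 2))))
  (@Cl.mk (nat_lit 0x2000200090009000c0008000b000b000400070007000500050008000e000e) (nat_lit 0x34564900000056) (nat_lit 16) Lb.e (@T16.mk En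
    (@En.n l97 (nat_lit 12922) (nat_lit 1) (nat_lit 14))
    (@En.n l5498 (nat_lit 5140) (nat_lit 1) (nat_lit 14))
    (@En.n l5499 (nat_lit 12924) (nat_lit 2) (nat_lit 8))
    (@En.n l5500 (nat_lit 12924) (nat_lit 3) (nat_lit 5))
    (@En.n l5501 (nat_lit 13981) (nat_lit 4) (nat_lit 5))
    (@En.n l5502 (nat_lit 12920) (nat_lit 5) (nat_lit 7))
    (@En.n l5501 (nat_lit 13389) (nat_lit 6) (nat_lit 7))
    (@En.n l5503 (nat_lit 12894) (nat_lit 7) (nat_lit 4))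
    (@En.n l5504 (nat_lit 12925) (nat_lit 9) (nat_lit 11))
    (@En.i (nat_lit 12900) (nat_lit 10) (nat_lit 11))
    (@En.n l1374 (nat_lit 12936) (nat_lit 11) (nat_lit 8))
    (@En.n l3244 (nat_lit 12926) (nat_lit 12) (nat_lit 12))
    (@En.n l3245 (nat_lit 12926) (nat_lit 13) (nat_lit 9))
    (@En.n l5498 (nat_lit 1512) (nat_lit 14) (nat_lit 9))
    (@En.n l107 (nat_lit 12922) (nat_lit 14) (nat_lit 2))
    (@En.n l3 (nat_lit 12922) (nat_lit 15) (nat_lit 2))))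
  (@Cl.mk (nat_lit 0x20002000e000a0002000d0009000c00030006000e000400020007000e000e) (nat_lit 0x74067900400056) (nat_lit 16) Lb.e (@T16.mk En
    (@En.n l97 (nat_lit 12923) (nat_lit 1) (nat_lit 14))
    (@En.n l167 (nat_lit 5136) (nat_lit 1) (nat_lit 14))
    (@En.n l1374 (nat_lit 12920) (nat_lit 2) (nat_lit 7))
    (@En.n l17 (nat_lit 12923) (nat_lit 3) (nat_lit 2))
    (@En.n l1375 (nat_lit 12920) (nat_lit 4) (nat_lit 4))
    (@En.i (nat_lit 13003) (nat_lit 6) (nat_lit 14))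
    (@En.n l167 (nat_lit 13465) (nat_lit 6) (nat_lit 6))
    (@En.n l1376 (nat_lit 12930) (nat_lit 7) (nat_lit 3))
    (@En.n l170 (nat_lit 13369) (nat_lit 9) (nat_lit 12))
    (@En.n l1377 (nat_lit 13114) (nat_lit 10) (nat_lit 9))
    (@En.n l601 (nat_lit 12925) (nat_lit 11) (nat_lit 13))
    (@En.n l28 (nat_lit 12923) (nat_lit 11) (nat_lit 2))
    (@En.n l780 (nat_lit 12925) (nat_lit 13) (nat_lit 10))
    (@En.n l1377 (nat_lit 2058) (nat_lit 1) (nat_lit 14))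
    (@En.n l107 (nat_lit 12923) (nat_lit 14) (nat_lit 2))
    (@En.n l3 (nat_lit 12923) (nat_lit 15) (nat_lit 2))))
  (@Cl.mk (nat_lit 0x2000200080008000b0008000e000b000200050008000800050008000e000e) (nat_lit 0x34561500010645) (nat_lit 16) Lb.e (@T16.mk En
    (@En.n l5 (nat_lit 12924) (nat_lit 1) (nat_lit 14))
    (@En.n l1643 (nat_lit 5379) (nat_lit 10) (nat_lit 14))
    (@En.n l2031 (nat_lit 14059) (nat_lit 10) (nat_lit 8))
    (@En.n l2903 (nat_lit 14035) (nat_lit 3) (nat_lit 5))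
    (@En.n l5530 (nat_lit 12921) (nat_lit 4) (nat_lit 8))
    (@En.n l5531 (nat_lit 13390) (nat_lit 5) (nat_lit 8))
    (@En.n l1889 (nat_lit 12897) (nat_lit 6) (nat_lit 5))
    (@En.n l107 (nat_lit 12924) (nat_lit 7) (nat_lit 2))
    (@En.n l5532 (nat_lit 12922) (nat_lit 9) (nat_lit 11))
    (@En.n l1866 (nat_lit 945) (nat_lit 10) (nat_lit 14))
    (@En.n l5533 (nat_lit 12935) (nat_lit 11) (nat_lit 8))
    (@En.n l28 (nat_lit 12927) (nat_lit 12) (nat_lit 11))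
    (@En.n l77 (nat_lit 12927) (nat_lit 13) (nat_lit 8))
    (@En.n l5534 (nat_lit 1450) (nat_lit 5) (nat_lit 8))
    (@En.n l17 (nat_lit 12924) (nat_lit 14) (nat_lit 2))
    (@En.n l18 (nat_lit 12924) (nat_lit 15) (nat_lit 2))))
  (@Cl.mk (nat_lit 0x20002000a000a000d0008000b000300060006000e000500020008000e000e) (nat_lit 0x32558000500156) (nat_lit 16) Lb.e (@T16.mk En
    (@En.n l97 (nat_lit 12925) (nat_lit 1) (nat_lit 14))
    (@En.n l4416 (nat_lit 4153) (nat_lit 1) (nat_lit 14))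
    (@En.n l245 (nat_lit 12922) (nat_lit 2) (nat_lit 8))
    (@En.n l17 (nat_lit 12925) (nat_lit 3) (nat_lit 2))
    (@En.n l4417 (nat_lit 12922) (nat_lit 4) (nat_lit 5))
    (@En.i (nat_lit 13956) (nat_lit 6) (nat_lit 14))
    (@En.n l252 (nat_lit 12923) (nat_lit 6) (nat_lit 6))
    (@En.n l4418 (nat_lit 13391) (nat_lit 7) (nat_lit 6))
    (@En.n l4419 (nat_lit 12929) (nat_lit 8) (nat_lit 3))
    (@En.n l4420 (nat_lit 13368) (nat_lit 10) (nat_lit 11))
    (@En.n l4421 (nat_lit 12938) (nat_lit 11) (nat_lit 8))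
    (@En.n l4422 (nat_lit 12928) (nat_lit 12) (nat_lit 13))
    (@En.n l4423 (nat_lit 12928) (nat_lit 13) (nat_lit 10))
    (@En.n l4420 (nat_lit 1515) (nat_lit 10) (nat_lit 10))
    (@En.n l107 (nat_lit 12925) (nat_lit 14) (nat_lit 2))
    (@En.n l3 (nat_lit 12925) (nat_lit 15) (nat_lit 2))))
  (@Cl.mk (nat_lit 0x200020009000c0007000a000a0004000e00070002000600060009000e000e) (nat_lit 0x34036080000045) (nat_lit 16) Lb.e (@T16.mk En
    (@En.n l1578 (nat_lit 12926) (nat_lit 1) (nat_lit 14))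
    (@En.i (nat_lit 5143) (nat_lit 12) (nat_lit 14))
    (@En.n l5684 (nat_lit 12927) (nat_lit 2) (nat_lit 9))
    (@En.n l5685 (nat_lit 12927) (nat_lit 3) (nat_lit 6))
    (@En.n l6081 (nat_lit 13980) (nat_lit 4) (nat_lit 6))
    (@En.n l3 (nat_lit 12926) (nat_lit 5) (nat_lit 2))
    (@En.n l8822 (nat_lit 12922) (nat_lit 6) (nat_lit 7))
    (@En.n l18 (nat_lit 13383) (nat_lit 8) (nat_lit 14))
    (@En.n l13709 (nat_lit 12893) (nat_lit 8) (nat_lit 4))
    (@En.n l61 (nat_lit 12928) (nat_lit 10) (nat_lit 10))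
    (@En.n l11858 (nat_lit 12901) (nat_lit 11) (nat_lit 10))
    (@En.n l892 (nat_lit 12934) (nat_lit 12) (nat_lit 7))
    (@En.n l2544 (nat_lit 13825) (nat_lit 6) (nat_lit 12))
    (@En.i (nat_lit 1447) (nat_lit 14) (nat_lit 9))
    (@En.n l28 (nat_lit 12926) (nat_lit 14) (nat_lit 2))
    (@En.n l11 (nat_lit 12926) (nat_lit 15) (nat_lit 2))))
  (@Cl.mk (nat_lit 0x200020008000b0007000e000a00020005000e0008000200060009000e000e) (nat_lit 0x34044009100734) (nat_lit 16) Lb.e (@T16.mk En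
    (@En.n l5 (nat_lit 12927) (nat_lit 1) (nat_lit 14))
    (@En.n l1643 (nat_lit 5381) (nat_lit 9) (nat_lit 14))
    (@En.n l2031 (nat_lit 14060) (nat_lit 9) (nat_lit 9))
    (@En.i (nat_lit 14037) (nat_lit 3) (nat_lit 6))
    (@En.n l7 (nat_lit 12927) (nat_lit 4) (nat_lit 2))
    (@En.i (nat_lit 12924) (nat_lit 5) (nat_lit 8))
    (@En.n l134 (nat_lit 13386) (nat_lit 7) (nat_lit 14))
    (@En.n l1889 (nat_lit 12899) (nat_lit 7) (nat_lit 5))
    (@En.n l107 (nat_lit 12927) (nat_lit 8) (nat_lit 2))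
    (@En.n l6148 (nat_lit 12926) (nat_lit 10) (nat_lit 10))
    (@En.n l97 (nat_lit 12932) (nat_lit 11) (nat_lit 14))
    (@En.n l1504 (nat_lit 12933) (nat_lit 12) (nat_lit 7))
    (@En.n l2034 (nat_lit 13827) (nat_lit 7) (nat_lit 11))
    (@En.n l2031 (nat_lit 1445) (nat_lit 4) (nat_lit 8))
    (@En.n l17 (nat_lit 12927) (nat_lit 14) (nat_lit 2))
    (@En.n l18 (nat_lit 12927) (nat_lit 15) (nat_lit 2))))
noncomputable def a808 : T16 Cl := @T16.mk Cl
  (@Cl.mk (nat_lit 0x20002000a000d0007000a0003000e00060002000e000600020009000e000e) (nat_lit 0x14050700600167) (nat_lit 16) Lb.e (@T16.mk En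
    (@En.n l1578 (nat_lit 12928) (nat_lit 1) (nat_lit 14))
    (@En.i (nat_lit 5146) (nat_lit 1) (nat_lit 14))
    (@En.n l617 (nat_lit 12926) (nat_lit 2) (nat_lit 9))
    (@En.n l17 (nat_lit 12928) (nat_lit 3) (nat_lit 2))
    (@En.i (nat_lit 12926) (nat_lit 4) (nat_lit 6))
    (@En.n l1531 (nat_lit 13955) (nat_lit 6) (nat_lit 14))
    (@En.n l3 (nat_lit 12928) (nat_lit 6) (nat_lit 2))
    (@En.n l11856 (nat_lit 12925) (nat_lit 7) (nat_lit 6))
    (@En.n l3870 (nat_lit 13382) (nat_lit 9) (nat_lit 14))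
    (@En.n l11857 (nat_lit 12946) (nat_lit 9) (nat_lit 3))
    (@En.n l11858 (nat_lit 13371) (nat_lit 11) (nat_lit 10))
    (@En.n l3858 (nat_lit 12937) (nat_lit 12) (nat_lit 7))
    (@En.n l2544 (nat_lit 14057) (nat_lit 13) (nat_lit 13))
    (@En.i (nat_lit 1392) (nat_lit 14) (nat_lit 10))
    (@En.n l28 (nat_lit 12928) (nat_lit 14) (nat_lit 2))
    (@En.n l11 (nat_lit 12928) (nat_lit 15) (nat_lit 2))))
  (@Cl.mk (nat_lit 0x20002000a000a000d000a0009000300060006000e000600020007000e000e) (nat_lit 0x12076000300056) (nat_lit 16) Lb.e (@T16.mk En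
    (@En.n l5 (nat_lit 12929) (nat_lit 1) (nat_lit 14))
    (@En.n l1381 (nat_lit 4146) (nat_lit 1) (nat_lit 14))
    (@En.n l1382 (nat_lit 12894) (nat_lit 2) (nat_lit 7))
    (@En.n l28 (nat_lit 12929) (nat_lit 3) (nat_lit 2))
    (@En.n l394 (nat_lit 12903) (nat_lit 4) (nat_lit 6))
    (@En.n l1383 (nat_lit 13954) (nat_lit 6) (nat_lit 14))
    (@En.n l2 (nat_lit 12930) (nat_lit 6) (nat_lit 6))
    (@En.i (nat_lit 13031) (nat_lit 7) (nat_lit 6))
    (@En.n l1384 (nat_lit 12925) (nat_lit 8) (nat_lit 3))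
    (@En.i (nat_lit 13373) (nat_lit 10) (nat_lit 9))
    (@En.n l1385 (nat_lit 13316) (nat_lit 11) (nat_lit 10))
    (@En.n l122 (nat_lit 12946) (nat_lit 12) (nat_lit 13))
    (@En.n l123 (nat_lit 12946) (nat_lit 13) (nat_lit 10))
    (@En.i (nat_lit 1391) (nat_lit 10) (nat_lit 10))
    (@En.n l17 (nat_lit 12929) (nat_lit 14) (nat_lit 2))
    (@En.n l18 (nat_lit 12929) (nat_lit 15) (nat_lit 2))))
  (@Cl.mk (nat_lit 0x20002000e000a0002000d000b000a00030006000e000500020006000e000e) (nat_lit 0x22015700200056) (nat_lit 16) Lb.e (@T16.mk En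
    (@En.n l5 (nat_lit 12930) (nat_lit 1) (nat_lit 14))
    (@En.n l392 (nat_lit 4145) (nat_lit 1) (nat_lit 14))
    (@En.n l393 (nat_lit 12896) (nat_lit 2) (nat_lit 6))
    (@En.n l28 (nat_lit 12930) (nat_lit 3) (nat_lit 2))
    (@En.n l394 (nat_lit 12919) (nat_lit 4) (nat_lit 5))
    (@En.n l30 (nat_lit 13002) (nat_lit 6) (nat_lit 14))
    (@En.n l392 (nat_lit 13458) (nat_lit 6) (nat_lit 6))
    (@En.n l395 (nat_lit 12923) (nat_lit 7) (nat_lit 3))
    (@En.i (nat_lit 13375) (nat_lit 9) (nat_lit 10))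
    (@En.n l13 (nat_lit 13113) (nat_lit 10) (nat_lit 11))
    (@En.i (nat_lit 12929) (nat_lit 11) (nat_lit 13))
    (@En.n l3 (nat_lit 12930) (nat_lit 11) (nat_lit 2))
    (@En.n l31 (nat_lit 12929) (nat_lit 13) (nat_lit 10))
    (@En.i (nat_lit 2064) (nat_lit 1) (nat_lit 14))
    (@En.n l17 (nat_lit 12930) (nat_lit 14) (nat_lit 2))
    (@En.n l18 (nat_lit 12930) (nat_lit 15) (nat_lit 2))))
  (@Cl.mk (nat_lit 0x20002000e000a0002000d000c000b000300060004000e00050002000e000e) (nat_lit 0x14014700050023) (nat_lit 16) Lb.e (@T16.mk En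
    (@En.n l97 (nat_lit 12931) (nat_lit 1) (nat_lit 14))
    (@En.i (nat_lit 1368) (nat_lit 1) (nat_lit 14))
    (@En.n l17 (nat_lit 12931) (nat_lit 2) (nat_lit 2))
    (@En.n l435 (nat_lit 12919) (nat_lit 3) (nat_lit 5))
    (@En.i (nat_lit 12923) (nat_lit 5) (nat_lit 14))
    (@En.n l436 (nat_lit 13366) (nat_lit 5) (nat_lit 4))
    (@En.n l437 (nat_lit 13464) (nat_lit 6) (nat_lit 6))
    (@En.n l169 (nat_lit 12895) (nat_lit 7) (nat_lit 3))
    (@En.n l170 (nat_lit 13367) (nat_lit 9) (nat_lit 11))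
    (@En.n l438 (nat_lit 13018) (nat_lit 10) (nat_lit 12))
    (@En.n l343 (nat_lit 12900) (nat_lit 11) (nat_lit 13))
    (@En.n l28 (nat_lit 12931) (nat_lit 11) (nat_lit 2))
    (@En.i (nat_lit 12900) (nat_lit 13) (nat_lit 10))
    (@En.n l436 (nat_lit 2480) (nat_lit 1) (nat_lit 14))
    (@En.n l107 (nat_lit 12931) (nat_lit 14) (nat_lit 2))
    (@En.n l3 (nat_lit 12931) (nat_lit 15) (nat_lit 2))))
  (@Cl.mk (nat_lit 0x200020008000b000e00090002000a0005000e0008000200070006000e000e) (nat_lit 0x63330709100045) (nat_lit 16) Lb.e (@T16.mk En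
    (@En.n l5 (nat_lit 12932) (nat_lit 1) (nat_lit 14))
    (@En.n l4021 (nat_lit 3670) (nat_lit 8) (nat_lit 14))
    (@En.i (nat_lit 944) (nat_lit 2) (nat_lit 6))
    (@En.n l117 (nat_lit 14031) (nat_lit 3) (nat_lit 7))
    (@En.n l7 (nat_lit 12932) (nat_lit 4) (nat_lit 2))
    (@En.n l5517 (nat_lit 945) (nat_lit 5) (nat_lit 8))
    (@En.n l134 (nat_lit 13704) (nat_lit 7) (nat_lit 14))
    (@En.n l2032 (nat_lit 12927) (nat_lit 7) (nat_lit 5))
    (@En.n l5545 (nat_lit 12926) (nat_lit 9) (nat_lit 10))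
    (@En.n l3 (nat_lit 12932) (nat_lit 9) (nat_lit 2))
    (@En.i (nat_lit 12902) (nat_lit 11) (nat_lit 9))
    (@En.n l248 (nat_lit 12906) (nat_lit 12) (nat_lit 14))
    (@En.i (nat_lit 13826) (nat_lit 7) (nat_lit 11))
    (@En.n l2568 (nat_lit 1446) (nat_lit 14) (nat_lit 8))
    (@En.n l17 (nat_lit 12932) (nat_lit 14) (nat_lit 2))
    (@En.n l18 (nat_lit 12932) (nat_lit 15) (nat_lit 2))))
  (@Cl.mk (nat_lit 0x2000200090007000e000a0002000a000e00070002000600090006000e000e) (nat_lit 0x10350790000056) (nat_lit 16) Lb.e (@T16.mk En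
    (@En.n l5 (nat_lit 12933) (nat_lit 1) (nat_lit 14))
    (@En.n l8122 (nat_lit 3111) (nat_lit 12) (nat_lit 14))
    (@En.n l7471 (nat_lit 12932) (nat_lit 2) (nat_lit 6))
    (@En.n l2036 (nat_lit 13826) (nat_lit 3) (nat_lit 9))
    (@En.i (nat_lit 13882) (nat_lit 4) (nat_lit 6))
    (@En.n l28 (nat_lit 12933) (nat_lit 5) (nat_lit 2))
    (@En.n l25689 (nat_lit 12935) (nat_lit 6) (nat_lit 7))
    (@En.n l1578 (nat_lit 14043) (nat_lit 8) (nat_lit 14))
    (@En.n l8122 (nat_lit 13323) (nat_lit 9) (nat_lit 10))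
    (@En.n l3 (nat_lit 12933) (nat_lit 9) (nat_lit 2))
    (@En.i (nat_lit 12934) (nat_lit 11) (nat_lit 10))
    (@En.n l7085 (nat_lit 12908) (nat_lit 12) (nat_lit 14))
    (@En.i (nat_lit 13561) (nat_lit 13) (nat_lit 7))
    (@En.n l8122 (nat_lit 1583) (nat_lit 14) (nat_lit 9))
    (@En.n l17 (nat_lit 12933) (nat_lit 14) (nat_lit 2))
    (@En.n l18 (nat_lit 12933) (nat_lit 15) (nat_lit 2))))
  (@Cl.mk (nat_lit 0x20002000a0007000a000a0009000e000600020006000600090007000e000e) (nat_lit 0x20456700001067) (nat_lit 16) Lb.e (@T16.mk En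
    (@En.n l5 (nat_lit 12934) (nat_lit 1) (nat_lit 14))
    (@En.n l12904 (nat_lit 3110) (nat_lit 11) (nat_lit 14))
    (@En.n l7471 (nat_lit 12902) (nat_lit 2) (nat_lit 7))
    (@En.n l476 (nat_lit 12933) (nat_lit 3) (nat_lit 9))
    (@En.n l152 (nat_lit 12933) (nat_lit 4) (nat_lit 6))
    (@En.n l12905 (nat_lit 13893) (nat_lit 5) (nat_lit 6))
    (@En.n l28 (nat_lit 12934) (nat_lit 6) (nat_lit 2))
    (@En.n l12906 (nat_lit 12936) (nat_lit 7) (nat_lit 6))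
    (@En.n l1578 (nat_lit 14041) (nat_lit 9) (nat_lit 14))
    (@En.n l4758 (nat_lit 13436) (nat_lit 10) (nat_lit 9))
    (@En.n l5140 (nat_lit 12937) (nat_lit 11) (nat_lit 10))
    (@En.n l12904 (nat_lit 12947) (nat_lit 12) (nat_lit 10))
    (@En.i (nat_lit 13558) (nat_lit 13) (nat_lit 7))
    (@En.n l5022 (nat_lit 1581) (nat_lit 14) (nat_lit 10))
    (@En.n l17 (nat_lit 12934) (nat_lit 14) (nat_lit 2))
    (@En.n l18 (nat_lit 12934) (nat_lit 15) (nat_lit 2))))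
  (@Cl.mk (nat_lit 0x20002000900090008000e000b0002000b00070007000500080005000e000e) (nat_lit 0x22557070000067) (nat_lit 16) Lb.e (@T16.mk En
    (@En.n l97 (nat_lit 12935) (nat_lit 1) (nat_lit 14))
    (@En.i (nat_lit 3118) (nat_lit 1) (nat_lit 14))
    (@En.n l11980 (nat_lit 945) (nat_lit 2) (nat_lit 5))
    (@En.n l5562 (nat_lit 13821) (nat_lit 3) (nat_lit 8))
    (@En.n l11980 (nat_lit 13308) (nat_lit 4) (nat_lit 5))
    (@En.n l11981 (nat_lit 13104) (nat_lit 5) (nat_lit 7))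
    (@En.i (nat_lit 13577) (nat_lit 6) (nat_lit 7))
    (@En.n l584 (nat_lit 13317) (nat_lit 8) (nat_lit 11))
    (@En.n l18 (nat_lit 12935) (nat_lit 8) (nat_lit 2))
    (@En.n l11982 (nat_lit 12936) (nat_lit 10) (nat_lit 11))
    (@En.n l4493 (nat_lit 12912) (nat_lit 11) (nat_lit 14))
    (@En.n l11983 (nat_lit 12940) (nat_lit 12) (nat_lit 8))
    (@En.n l11984 (nat_lit 12933) (nat_lit 13) (nat_lit 9))
    (@En.n l11985 (nat_lit 1991) (nat_lit 14) (nat_lit 9))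
    (@En.n l107 (nat_lit 12935) (nat_lit 14) (nat_lit 2))
    (@En.n l3 (nat_lit 12935) (nat_lit 15) (nat_lit 2))))
  (@Cl.mk (nat_lit 0x20002000a000a0008000b000b000a000600060005000500080006000e000e) (nat_lit 0x33567600001078) (nat_lit 16) Lb.e (@T16.mk En
    (@En.n l5 (nat_lit 12936) (nat_lit 1) (nat_lit 14))
    (@En.n l572 (nat_lit 3115) (nat_lit 1) (nat_lit 14))
    (@En.n l4950 (nat_lit 12903) (nat_lit 2) (nat_lit 6))
    (@En.n l4951 (nat_lit 12935) (nat_lit 3) (nat_lit 8))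
    (@En.n l456 (nat_lit 12935) (nat_lit 4) (nat_lit 5))
    (@En.n l31 (nat_lit 14017) (nat_lit 5) (nat_lit 5))
    (@En.n l152 (nat_lit 13105) (nat_lit 6) (nat_lit 6))
    (@En.n l572 (nat_lit 13578) (nat_lit 7) (nat_lit 6))
    (@En.n l4952 (nat_lit 13315) (nat_lit 9) (nat_lit 10))
    (@En.n l4953 (nat_lit 12938) (nat_lit 10) (nat_lit 11))
    (@En.n l572 (nat_lit 12975) (nat_lit 11) (nat_lit 11))
    (@En.n l4949 (nat_lit 12939) (nat_lit 12) (nat_lit 8))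
    (@En.n l4954 (nat_lit 12934) (nat_lit 13) (nat_lit 10))
    (@En.n l460 (nat_lit 1987) (nat_lit 14) (nat_lit 10))
    (@En.n l17 (nat_lit 12936) (nat_lit 14) (nat_lit 2))
    (@En.n l18 (nat_lit 12936) (nat_lit 15) (nat_lit 2))))
  (@Cl.mk (nat_lit 0x20002000b0007000a0008000e00050002000e0006000200090008000e000e) (nat_lit 0x10457009002478) (nat_lit 16) Lb.e (@T16.mk En
    (@En.n l97 (nat_lit 12937) (nat_lit 1) (nat_lit 14))
    (@En.i (nat_lit 3112) (nat_lit 13) (nat_lit 14))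
    (@En.n l1660 (nat_lit 12946) (nat_lit 2) (nat_lit 8))
    (@En.n l12125 (nat_lit 12934) (nat_lit 3) (nat_lit 9))
    (@En.n l18 (nat_lit 12937) (nat_lit 4) (nat_lit 2))
    (@En.n l10315 (nat_lit 12934) (nat_lit 5) (nat_lit 6))
    (@En.n l564 (nat_lit 13840) (nat_lit 7) (nat_lit 14))
    (@En.n l7 (nat_lit 12937) (nat_lit 7) (nat_lit 2))
    (@En.n l28 (nat_lit 12938) (nat_lit 8) (nat_lit 5))
    (@En.i (nat_lit 14042) (nat_lit 10) (nat_lit 14))
    (@En.n l183 (nat_lit 13450) (nat_lit 11) (nat_lit 8))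
    (@En.i (nat_lit 13492) (nat_lit 12) (nat_lit 10))
    (@En.n l1529 (nat_lit 13557) (nat_lit 13) (nat_lit 7))
    (@En.i (nat_lit 1579) (nat_lit 9) (nat_lit 11))
    (@En.n l107 (nat_lit 12937) (nat_lit 14) (nat_lit 2))
    (@En.n l3 (nat_lit 12937) (nat_lit 15) (nat_lit 2))))
  (@Cl.mk (nat_lit 0x20002000b000b0008000b000900050005000e0005000200080007000e000e) (nat_lit 0x12465009002089) (nat_lit 16) Lb.e (@T16.mk En
    (@En.n l97 (nat_lit 12938) (nat_lit 1) (nat_lit 14))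
    (@En.i (nat_lit 3116) (nat_lit 13) (nat_lit 14))
    (@En.n l1660 (nat_lit 12929) (nat_lit 2) (nat_lit 7))
    (@En.n l5243 (nat_lit 12936) (nat_lit 3) (nat_lit 8))
    (@En.n l18 (nat_lit 12938) (nat_lit 4) (nat_lit 2))
    (@En.n l5244 (nat_lit 12936) (nat_lit 5) (nat_lit 5))
    (@En.n l2724 (nat_lit 13958) (nat_lit 7) (nat_lit 14))
    (@En.n l911 (nat_lit 13114) (nat_lit 7) (nat_lit 5))
    (@En.i (nat_lit 13581) (nat_lit 8) (nat_lit 5))
    (@En.n l5241 (nat_lit 13377) (nat_lit 10) (nat_lit 9))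
    (@En.i (nat_lit 12977) (nat_lit 11) (nat_lit 11))
    (@En.n l414 (nat_lit 12941) (nat_lit 12) (nat_lit 8))
    (@En.n l134 (nat_lit 12937) (nat_lit 13) (nat_lit 11))
    (@En.n l11 (nat_lit 1674) (nat_lit 9) (nat_lit 11))
    (@En.n l107 (nat_lit 12938) (nat_lit 14) (nat_lit 2))
    (@En.n l3 (nat_lit 12938) (nat_lit 15) (nat_lit 2))))
  (@Cl.mk (nat_lit 0x20002000b0008000b000b00090005000c00050005000800040007000e000e) (nat_lit 0x144670500000bc) (nat_lit 16) Lb.e (@T16.mk En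
    (@En.n l5 (nat_lit 12939) (nat_lit 1) (nat_lit 14))
    (@En.n l11680 (nat_lit 1143) (nat_lit 1) (nat_lit 14))
    (@En.n l8434 (nat_lit 12934) (nat_lit 2) (nat_lit 7))
    (@En.n l2871 (nat_lit 12943) (nat_lit 3) (nat_lit 4))
    (@En.n l476 (nat_lit 12940) (nat_lit 4) (nat_lit 8))
    (@En.n l152 (nat_lit 12940) (nat_lit 5) (nat_lit 5))
    (@En.n l12479 (nat_lit 14013) (nat_lit 6) (nat_lit 5))
    (@En.n l7 (nat_lit 12944) (nat_lit 8) (nat_lit 12))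
    (@En.n l11680 (nat_lit 13580) (nat_lit 8) (nat_lit 5))
    (@En.n l4753 (nat_lit 14008) (nat_lit 10) (nat_lit 9))
    (@En.n l12902 (nat_lit 12941) (nat_lit 11) (nat_lit 11))
    (@En.n l12903 (nat_lit 12942) (nat_lit 12) (nat_lit 11))
    (@En.n l3506 (nat_lit 13556) (nat_lit 13) (nat_lit 8))
    (@En.i (nat_lit 1669) (nat_lit 14) (nat_lit 11))
    (@En.n l17 (nat_lit 12939) (nat_lit 14) (nat_lit 2))
    (@En.n l18 (nat_lit 12939) (nat_lit 15) (nat_lit 2))))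
  (@Cl.mk (nat_lit 0x20002000a0008000e000b0002000a0006000d0005000800030006000e000e) (nat_lit 0x244508060600bc) (nat_lit 16) Lb.e (@T16.mk En
    (@En.n l5 (nat_lit 12940) (nat_lit 1) (nat_lit 14))
    (@En.n l11680 (nat_lit 1314) (nat_lit 8) (nat_lit 14))
    (@En.n l8434 (nat_lit 12933) (nat_lit 2) (nat_lit 6))
    (@En.n l2491 (nat_lit 13647) (nat_lit 3) (nat_lit 3))
    (@En.n l11680 (nat_lit 13820) (nat_lit 4) (nat_lit 8))
    (@En.n l11680 (nat_lit 14014) (nat_lit 5) (nat_lit 5))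
    (@En.n l7 (nat_lit 13659) (nat_lit 7) (nat_lit 13))
    (@En.n l11680 (nat_lit 13579) (nat_lit 7) (nat_lit 6))
    (@En.n l12277 (nat_lit 14038) (nat_lit 9) (nat_lit 10))
    (@En.n l3 (nat_lit 12940) (nat_lit 9) (nat_lit 2))
    (@En.i (nat_lit 12939) (nat_lit 11) (nat_lit 11))
    (@En.n l12109 (nat_lit 13646) (nat_lit 12) (nat_lit 14))
    (@En.n l12277 (nat_lit 13559) (nat_lit 13) (nat_lit 8))
    (@En.i (nat_lit 2012) (nat_lit 3) (nat_lit 10))
    (@En.n l17 (nat_lit 12940) (nat_lit 14) (nat_lit 2))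
    (@En.n l18 (nat_lit 12940) (nat_lit 15) (nat_lit 2))))
  (@Cl.mk (nat_lit 0x20002000c0008000b00080004000b000e00050002000800050008000e000e) (nat_lit 0x135604800105bc) (nat_lit 16) Lb.e (@T16.mk En
    (@En.n l97 (nat_lit 12941) (nat_lit 1) (nat_lit 14))
    (@En.i (nat_lit 1142) (nat_lit 12) (nat_lit 14))
    (@En.n l387 (nat_lit 12937) (nat_lit 2) (nat_lit 8))
    (@En.n l699 (nat_lit 12942) (nat_lit 3) (nat_lit 5))
    (@En.n l13276 (nat_lit 12939) (nat_lit 4) (nat_lit 8))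
    (@En.n l50 (nat_lit 12941) (nat_lit 5) (nat_lit 2))
    (@En.n l13277 (nat_lit 12939) (nat_lit 6) (nat_lit 5))
    (@En.i (nat_lit 13968) (nat_lit 8) (nat_lit 14))
    (@En.n l13278 (nat_lit 13116) (nat_lit 9) (nat_lit 11))
    (@En.n l28 (nat_lit 13127) (nat_lit 9) (nat_lit 4))
    (@En.n l4651 (nat_lit 14024) (nat_lit 11) (nat_lit 8))
    (@En.i (nat_lit 13120) (nat_lit 12) (nat_lit 11))
    (@En.n l4316 (nat_lit 13553) (nat_lit 13) (nat_lit 8))
    (@En.n l2568 (nat_lit 1667) (nat_lit 8) (nat_lit 12))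
    (@En.n l107 (nat_lit 12941) (nat_lit 14) (nat_lit 2))
    (@En.n l3 (nat_lit 12941) (nat_lit 15) (nat_lit 2))))
  (@Cl.mk (nat_lit 0x20002000c000b000a00080004000b0005000e0006000200050008000e000e) (nat_lit 0x133304090002bc) (nat_lit 16) Lb.e (@T16.mk En
    (@En.n l97 (nat_lit 12942) (nat_lit 1) (nat_lit 14))
    (@En.i (nat_lit 1137) (nat_lit 13) (nat_lit 14))
    (@En.n l387 (nat_lit 12947) (nat_lit 2) (nat_lit 8))
    (@En.n l640 (nat_lit 13618) (nat_lit 3) (nat_lit 5))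
    (@En.n l18 (nat_lit 12942) (nat_lit 4) (nat_lit 2))
    (@En.n l5197 (nat_lit 12943) (nat_lit 5) (nat_lit 6))
    (@En.n l396 (nat_lit 12941) (nat_lit 7) (nat_lit 14))
    (@En.n l28 (nat_lit 12938) (nat_lit 7) (nat_lit 5))
    (@En.n l4829 (nat_lit 13117) (nat_lit 9) (nat_lit 11))
    (@En.n l28 (nat_lit 13583) (nat_lit 9) (nat_lit 4))
    (@En.n l5197 (nat_lit 14007) (nat_lit 11) (nat_lit 8))
    (@En.n l644 (nat_lit 13121) (nat_lit 12) (nat_lit 10))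
    (@En.n l77 (nat_lit 13930) (nat_lit 13) (nat_lit 11))
    (@En.n l5197 (nat_lit 1668) (nat_lit 9) (nat_lit 12))
    (@En.n l107 (nat_lit 12942) (nat_lit 14) (nat_lit 2))
    (@En.n l3 (nat_lit 12942) (nat_lit 15) (nat_lit 2))))
  (@Cl.mk (nat_lit 0x20002000b000a000a000a00090005000c00060006000600040007000e000e) (nat_lit 0x234470200000bc) (nat_lit 16) Lb.e (@T16.mk En
    (@En.n l5 (nat_lit 12943) (nat_lit 1) (nat_lit 14))
    (@En.n l13316 (nat_lit 1129) (nat_lit 1) (nat_lit 14))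
    (@En.n l4972 (nat_lit 12909) (nat_lit 2) (nat_lit 7))
    (@En.n l13317 (nat_lit 13615) (nat_lit 3) (nat_lit 4))
    (@En.n l13318 (nat_lit 13647) (nat_lit 4) (nat_lit 6))
    (@En.n l13319 (nat_lit 13646) (nat_lit 5) (nat_lit 6))
    (@En.n l11 (nat_lit 12936) (nat_lit 6) (nat_lit 6))
    (@En.n l13320 (nat_lit 13610) (nat_lit 8) (nat_lit 12))
    (@En.n l13316 (nat_lit 13582) (nat_lit 8) (nat_lit 5))
    (@En.n l12394 (nat_lit 13487) (nat_lit 10) (nat_lit 9))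
    (@En.n l13321 (nat_lit 12942) (nat_lit 11) (nat_lit 10))
    (@En.n l13322 (nat_lit 13618) (nat_lit 12) (nat_lit 10))
    (@En.n l11917 (nat_lit 13638) (nat_lit 13) (nat_lit 10))
    (@En.i (nat_lit 1673) (nat_lit 14) (nat_lit 11))
    (@En.n l17 (nat_lit 12943) (nat_lit 14) (nat_lit 2))
    (@En.n l18 (nat_lit 12943) (nat_lit 15) (nat_lit 2))))
noncomputable def a809 : T16 Cl := @T16.mk Cl
  (@Cl.mk (nat_lit 0x2000200060009000c000c0009000c0004000400070004000a0007000e000e) (nat_lit 0x3357400005023) (nat_lit 16) Lb.e (@T16.mk En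
    (@En.n l5 (nat_lit 12944) (nat_lit 1) (nat_lit 14))
    (@En.n l1998 (nat_lit 384) (nat_lit 1) (nat_lit 14))
    (@En.i (nat_lit 12939) (nat_lit 2) (nat_lit 7))
    (@En.n l1863 (nat_lit 12945) (nat_lit 3) (nat_lit 10))
    (@En.i (nat_lit 13610) (nat_lit 4) (nat_lit 4))
    (@En.n l476 (nat_lit 13659) (nat_lit 5) (nat_lit 7))
    (@En.n l152 (nat_lit 13659) (nat_lit 6) (nat_lit 4))
    (@En.n l12479 (nat_lit 13055) (nat_lit 7) (nat_lit 4))
    (@En.i (nat_lit 251) (nat_lit 9) (nat_lit 12))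
    (@En.i (nat_lit 14031) (nat_lit 10) (nat_lit 9))
    (@En.n l1867 (nat_lit 13116) (nat_lit 11) (nat_lit 12))
    (@En.n l226 (nat_lit 13117) (nat_lit 12) (nat_lit 12))
    (@En.i (nat_lit 13555) (nat_lit 13) (nat_lit 9))
    (@En.i (nat_lit 388) (nat_lit 14) (nat_lit 6))
    (@En.n l17 (nat_lit 12944) (nat_lit 14) (nat_lit 2))
    (@En.n l18 (nat_lit 12944) (nat_lit 15) (nat_lit 2))))
  (@Cl.mk (nat_lit 0x200020006000b0009000c000c000a0005000400040007000a0006000e000e) (nat_lit 0x2426500004012) (nat_lit 16) Lb.e (@T16.mk En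
    (@En.n l5 (nat_lit 12945) (nat_lit 1) (nat_lit 14))
    (@En.n l4943 (nat_lit 396) (nat_lit 1) (nat_lit 14))
    (@En.n l485 (nat_lit 12936) (nat_lit 2) (nat_lit 6))
    (@En.i (nat_lit 13718) (nat_lit 3) (nat_lit 10))
    (@En.n l4944 (nat_lit 13716) (nat_lit 4) (nat_lit 7))
    (@En.n l4945 (nat_lit 13716) (nat_lit 5) (nat_lit 4))
    (@En.i (nat_lit 13054) (nat_lit 6) (nat_lit 4))
    (@En.n l4946 (nat_lit 13119) (nat_lit 7) (nat_lit 5))
    (@En.n l457 (nat_lit 14030) (nat_lit 9) (nat_lit 10))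
    (@En.n l1578 (nat_lit 13115) (nat_lit 10) (nat_lit 12))
    (@En.n l4947 (nat_lit 13719) (nat_lit 11) (nat_lit 12))
    (@En.n l4948 (nat_lit 12944) (nat_lit 12) (nat_lit 9))
    (@En.n l4949 (nat_lit 12939) (nat_lit 13) (nat_lit 11))
    (@En.i (nat_lit 394) (nat_lit 14) (nat_lit 6))
    (@En.n l17 (nat_lit 12945) (nat_lit 14) (nat_lit 2))
    (@En.n l18 (nat_lit 12945) (nat_lit 15) (nat_lit 2))))
  (@Cl.mk (nat_lit 0x20002000a000d000900080003000e00060002000e000700020008000e000e) (nat_lit 0x1b560800400367) (nat_lit 16) Lb.e (@T16.mk En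
    (@En.n l5 (nat_lit 12946) (nat_lit 1) (nat_lit 14))
    (@En.n l420 (nat_lit 4149) (nat_lit 1) (nat_lit 14))
    (@En.n l1599 (nat_lit 12893) (nat_lit 2) (nat_lit 8))
    (@En.n l28 (nat_lit 12946) (nat_lit 3) (nat_lit 2))
    (@En.n l4433 (nat_lit 12902) (nat_lit 4) (nat_lit 7))
    (@En.n l4434 (nat_lit 13841) (nat_lit 6) (nat_lit 14))
    (@En.n l107 (nat_lit 12946) (nat_lit 6) (nat_lit 2))
    (@En.n l520 (nat_lit 12929) (nat_lit 7) (nat_lit 6))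
    (@En.n l4435 (nat_lit 12947) (nat_lit 9) (nat_lit 14))
    (@En.n l4436 (nat_lit 12928) (nat_lit 9) (nat_lit 3))
    (@En.i (nat_lit 13374) (nat_lit 11) (nat_lit 8))
    (@En.n l1385 (nat_lit 13321) (nat_lit 12) (nat_lit 9))
    (@En.n l12 (nat_lit 13824) (nat_lit 13) (nat_lit 13))
    (@En.n l4437 (nat_lit 1389) (nat_lit 10) (nat_lit 10))
    (@En.n l17 (nat_lit 12946) (nat_lit 14) (nat_lit 2))
    (@En.n l18 (nat_lit 12946) (nat_lit 15) (nat_lit 2))))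
  (@Cl.mk (nat_lit 0x20002000b000a00090008000e000500020006000e000700020008000e000e) (nat_lit 0x33447000a00167) (nat_lit 16) Lb.e (@T16.mk En
    (@En.n l97 (nat_lit 12947) (nat_lit 1) (nat_lit 14))
    (@En.i (nat_lit 4506) (nat_lit 10) (nat_lit 14))
    (@En.n l1660 (nat_lit 722) (nat_lit 2) (nat_lit 8))
    (@En.n l17 (nat_lit 12947) (nat_lit 3) (nat_lit 2))
    (@En.n l4564 (nat_lit 12909) (nat_lit 4) (nat_lit 7))
    (@En.n l5 (nat_lit 12937) (nat_lit 6) (nat_lit 14))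
    (@En.n l4565 (nat_lit 12929) (nat_lit 6) (nat_lit 6))
    (@En.n l7 (nat_lit 12947) (nat_lit 7) (nat_lit 2))
    (@En.n l4110 (nat_lit 12975) (nat_lit 8) (nat_lit 5))
    (@En.n l4414 (nat_lit 13476) (nat_lit 10) (nat_lit 14))
    (@En.n l357 (nat_lit 13058) (nat_lit 11) (nat_lit 8))
    (@En.n l217 (nat_lit 13493) (nat_lit 12) (nat_lit 9))
    (@En.n l357 (nat_lit 12948) (nat_lit 13) (nat_lit 10))
    (@En.i (nat_lit 1578) (nat_lit 10) (nat_lit 11))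
    (@En.n l107 (nat_lit 12947) (nat_lit 14) (nat_lit 2))
    (@En.n l3 (nat_lit 12947) (nat_lit 15) (nat_lit 2))))
  (@Cl.mk (nat_lit 0x20002000a00080007000e000d000200060003000e000800020009000e000e) (nat_lit 0x22057000b001ab) (nat_lit 16) Lb.e (@T16.mk En
    (@En.n l5 (nat_lit 12948) (nat_lit 1) (nat_lit 14))
    (@En.n l420 (nat_lit 3939) (nat_lit 9) (nat_lit 14))
    (@En.n l1599 (nat_lit 714) (nat_lit 2) (nat_lit 9))
    (@En.n l28 (nat_lit 12948) (nat_lit 3) (nat_lit 2))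
    (@En.n l4433 (nat_lit 12950) (nat_lit 4) (nat_lit 8))
    (@En.n l4869 (nat_lit 13392) (nat_lit 6) (nat_lit 14))
    (@En.n l12126 (nat_lit 12949) (nat_lit 6) (nat_lit 3))
    (@En.i (nat_lit 12946) (nat_lit 7) (nat_lit 6))
    (@En.n l3 (nat_lit 12948) (nat_lit 8) (nat_lit 2))
    (@En.n l4413 (nat_lit 12949) (nat_lit 10) (nat_lit 13))
    (@En.n l420 (nat_lit 14018) (nat_lit 11) (nat_lit 14))
    (@En.i (nat_lit 13038) (nat_lit 12) (nat_lit 7))
    (@En.i (nat_lit 13500) (nat_lit 13) (nat_lit 8))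
    (@En.i (nat_lit 5383) (nat_lit 4) (nat_lit 10))
    (@En.n l17 (nat_lit 12948) (nat_lit 14) (nat_lit 2))
    (@En.n l18 (nat_lit 12948) (nat_lit 15) (nat_lit 2))))
  (@Cl.mk (nat_lit 0x20002000b00080007000d000d000500030003000e000800020009000e000e) (nat_lit 0x32067000a402ab) (nat_lit 16) Lb.e (@T16.mk En
    (@En.n l97 (nat_lit 12949) (nat_lit 1) (nat_lit 14))
    (@En.i (nat_lit 3932) (nat_lit 1) (nat_lit 14))
    (@En.n l4839 (nat_lit 716) (nat_lit 2) (nat_lit 9))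
    (@En.n l17 (nat_lit 12949) (nat_lit 3) (nat_lit 2))
    (@En.n l105 (nat_lit 12951) (nat_lit 4) (nat_lit 8))
    (@En.n l3786 (nat_lit 13930) (nat_lit 6) (nat_lit 14))
    (@En.n l4686 (nat_lit 12948) (nat_lit 6) (nat_lit 3))
    (@En.i (nat_lit 12952) (nat_lit 7) (nat_lit 3))
    (@En.n l77 (nat_lit 12947) (nat_lit 8) (nat_lit 5))
    (@En.n l601 (nat_lit 12952) (nat_lit 10) (nat_lit 13))
    (@En.n l13584 (nat_lit 13932) (nat_lit 11) (nat_lit 13))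
    (@En.n l105 (nat_lit 13039) (nat_lit 12) (nat_lit 7))
    (@En.n l105 (nat_lit 13503) (nat_lit 13) (nat_lit 8))
    (@En.i (nat_lit 7138) (nat_lit 10) (nat_lit 11))
    (@En.n l107 (nat_lit 12949) (nat_lit 14) (nat_lit 2))
    (@En.n l3 (nat_lit 12949) (nat_lit 15) (nat_lit 2))))
  (@Cl.mk (nat_lit 0x200020009000800080008000e000d000200070003000800080008000e000e) (nat_lit 0x23356800060089) (nat_lit 16) Lb.e (@T16.mk En
    (@En.n l5 (nat_lit 12950) (nat_lit 1) (nat_lit 14))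
    (@En.n l5514 (nat_lit 3986) (nat_lit 10) (nat_lit 14))
    (@En.n l5515 (nat_lit 12959) (nat_lit 2) (nat_lit 8))
    (@En.n l152 (nat_lit 12958) (nat_lit 3) (nat_lit 8))
    (@En.n l117 (nat_lit 13756) (nat_lit 4) (nat_lit 8))
    (@En.n l24735 (nat_lit 12951) (nat_lit 5) (nat_lit 3))
    (@En.i (nat_lit 12902) (nat_lit 6) (nat_lit 7))
    (@En.n l28 (nat_lit 12950) (nat_lit 7) (nat_lit 2))
    (@En.n l5521 (nat_lit 12951) (nat_lit 9) (nat_lit 13))
    (@En.n l5577 (nat_lit 13336) (nat_lit 10) (nat_lit 14))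
    (@En.n l5519 (nat_lit 13408) (nat_lit 11) (nat_lit 8))
    (@En.n l5520 (nat_lit 12948) (nat_lit 12) (nat_lit 8))
    (@En.n l5521 (nat_lit 13286) (nat_lit 13) (nat_lit 8))
    (@En.i (nat_lit 5259) (nat_lit 5) (nat_lit 9))
    (@En.n l17 (nat_lit 12950) (nat_lit 14) (nat_lit 2))
    (@En.n l18 (nat_lit 12950) (nat_lit 15) (nat_lit 2))))
  (@Cl.mk (nat_lit 0x20002000a000800080008000d000d000600030003000800080008000e000e) (nat_lit 0x22357800030089) (nat_lit 16) Lb.e (@T16.mk En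
    (@En.n l5 (nat_lit 12951) (nat_lit 1) (nat_lit 14))
    (@En.n l420 (nat_lit 3915) (nat_lit 1) (nat_lit 14))
    (@En.n l2110 (nat_lit 12956) (nat_lit 2) (nat_lit 8))
    (@En.n l26308 (nat_lit 12955) (nat_lit 3) (nat_lit 8))
    (@En.n l26309 (nat_lit 13223) (nat_lit 4) (nat_lit 8))
    (@En.n l26310 (nat_lit 12950) (nat_lit 5) (nat_lit 3))
    (@En.n l25158 (nat_lit 12953) (nat_lit 6) (nat_lit 3))
    (@En.n l26311 (nat_lit 12909) (nat_lit 7) (nat_lit 6))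
    (@En.n l25160 (nat_lit 12953) (nat_lit 9) (nat_lit 13))
    (@En.n l26312 (nat_lit 13869) (nat_lit 10) (nat_lit 13))
    (@En.n l26313 (nat_lit 12954) (nat_lit 11) (nat_lit 8))
    (@En.n l1591 (nat_lit 12949) (nat_lit 12) (nat_lit 8))
    (@En.i (nat_lit 13284) (nat_lit 13) (nat_lit 8))
    (@En.n l26314 (nat_lit 5019) (nat_lit 14) (nat_lit 10))
    (@En.n l17 (nat_lit 12951) (nat_lit 14) (nat_lit 2))
    (@En.n l18 (nat_lit 12951) (nat_lit 15) (nat_lit 2))))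
  (@Cl.mk (nat_lit 0x20002000c00080007000d0004000e00030002000e000800020009000e000e) (nat_lit 0x23060700b001ab) (nat_lit 16) Lb.e (@T16.mk En
    (@En.n l97 (nat_lit 12952) (nat_lit 1) (nat_lit 14))
    (@En.i (nat_lit 3933) (nat_lit 1) (nat_lit 14))
    (@En.n l5694 (nat_lit 713) (nat_lit 2) (nat_lit 9))
    (@En.n l17 (nat_lit 12952) (nat_lit 3) (nat_lit 2))
    (@En.n l4798 (nat_lit 12953) (nat_lit 4) (nat_lit 8))
    (@En.n l5 (nat_lit 13928) (nat_lit 6) (nat_lit 14))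
    (@En.n l50 (nat_lit 12952) (nat_lit 6) (nat_lit 2))
    (@En.n l7 (nat_lit 12949) (nat_lit 7) (nat_lit 3))
    (@En.n l4799 (nat_lit 14062) (nat_lit 0) (nat_lit 14))
    (@En.n l28 (nat_lit 12974) (nat_lit 9) (nat_lit 4))
    (@En.n l12331 (nat_lit 13934) (nat_lit 11) (nat_lit 13))
    (@En.n l5383 (nat_lit 13077) (nat_lit 12) (nat_lit 7))
    (@En.i (nat_lit 13523) (nat_lit 13) (nat_lit 8))
    (@En.n l3322 (nat_lit 7140) (nat_lit 10) (nat_lit 12))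
    (@En.n l107 (nat_lit 12952) (nat_lit 14) (nat_lit 2))
    (@En.n l3 (nat_lit 12952) (nat_lit 15) (nat_lit 2))))
  (@Cl.mk (nat_lit 0x20002000b000800080008000d0005000e00030002000800080008000e000e) (nat_lit 0x234570100600bc) (nat_lit 16) Lb.e (@T16.mk En
    (@En.n l97 (nat_lit 12953) (nat_lit 1) (nat_lit 14))
    (@En.i (nat_lit 3930) (nat_lit 12) (nat_lit 14))
    (@En.n l9576 (nat_lit 13268) (nat_lit 2) (nat_lit 8))
    (@En.n l7235 (nat_lit 12957) (nat_lit 3) (nat_lit 8))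
    (@En.n l9572 (nat_lit 13217) (nat_lit 4) (nat_lit 8))
    (@En.n l50 (nat_lit 12953) (nat_lit 5) (nat_lit 2))
    (@En.n l11905 (nat_lit 12951) (nat_lit 6) (nat_lit 3))
    (@En.n l1724 (nat_lit 46) (nat_lit 0) (nat_lit 14))
    (@En.n l4446 (nat_lit 12970) (nat_lit 8) (nat_lit 5))
    (@En.n l9572 (nat_lit 13966) (nat_lit 10) (nat_lit 13))
    (@En.n l61 (nat_lit 13199) (nat_lit 11) (nat_lit 8))
    (@En.n l12569 (nat_lit 12952) (nat_lit 12) (nat_lit 8))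
    (@En.n l9411 (nat_lit 13283) (nat_lit 13) (nat_lit 8))
    (@En.i (nat_lit 5018) (nat_lit 8) (nat_lit 11))
    (@En.n l107 (nat_lit 12953) (nat_lit 14) (nat_lit 2))
    (@En.n l3 (nat_lit 12953) (nat_lit 15) (nat_lit 2))))
  (@Cl.mk (nat_lit 0x20002000b00090008000d000d0005000300030007000e00080002000e000e) (nat_lit 0x324670000c1034) (nat_lit 16) Lb.e (@T16.mk En
    (@En.n l97 (nat_lit 12954) (nat_lit 1) (nat_lit 14))
    (@En.i (nat_lit 3906) (nat_lit 1) (nat_lit 14))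
    (@En.n l17 (nat_lit 12954) (nat_lit 2) (nat_lit 2))
    (@En.n l11905 (nat_lit 12951) (nat_lit 3) (nat_lit 8))
    (@En.i (nat_lit 13412) (nat_lit 5) (nat_lit 14))
    (@En.n l1497 (nat_lit 13180) (nat_lit 5) (nat_lit 7))
    (@En.n l23566 (nat_lit 13408) (nat_lit 6) (nat_lit 3))
    (@En.n l7 (nat_lit 13199) (nat_lit 7) (nat_lit 3))
    (@En.n l25582 (nat_lit 13381) (nat_lit 8) (nat_lit 5))
    (@En.n l644 (nat_lit 13199) (nat_lit 10) (nat_lit 13))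
    (@En.i (nat_lit 13395) (nat_lit 11) (nat_lit 13))
    (@En.n l7025 (nat_lit 13040) (nat_lit 12) (nat_lit 8))
    (@En.n l11905 (nat_lit 13203) (nat_lit 13) (nat_lit 9))
    (@En.i (nat_lit 5013) (nat_lit 14) (nat_lit 11))
    (@En.n l107 (nat_lit 12954) (nat_lit 14) (nat_lit 2))
    (@En.n l3 (nat_lit 12954) (nat_lit 15) (nat_lit 2))))
  (@Cl.mk (nat_lit 0x200020009000e000800020009000d000d00070003000300080007000e000e) (nat_lit 0x24307890006089) (nat_lit 16) Lb.e (@T16.mk En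
    (@En.n l5 (nat_lit 12955) (nat_lit 1) (nat_lit 14))
    (@En.n l4021 (nat_lit 3978) (nat_lit 7) (nat_lit 14))
    (@En.i (nat_lit 13275) (nat_lit 2) (nat_lit 7))
    (@En.n l24733 (nat_lit 13798) (nat_lit 3) (nat_lit 8))
    (@En.n l7 (nat_lit 12958) (nat_lit 4) (nat_lit 3))
    (@En.n l427 (nat_lit 12957) (nat_lit 5) (nat_lit 3))
    (@En.i (nat_lit 13704) (nat_lit 6) (nat_lit 7))
    (@En.n l576 (nat_lit 12957) (nat_lit 8) (nat_lit 13))
    (@En.n l5577 (nat_lit 13645) (nat_lit 9) (nat_lit 13))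
    (@En.n l24734 (nat_lit 13410) (nat_lit 10) (nat_lit 9))
    (@En.n l3 (nat_lit 12955) (nat_lit 10) (nat_lit 2))
    (@En.n l24735 (nat_lit 12951) (nat_lit 12) (nat_lit 8))
    (@En.n l417 (nat_lit 12853) (nat_lit 13) (nat_lit 14))
    (@En.i (nat_lit 5905) (nat_lit 2) (nat_lit 9))
    (@En.n l17 (nat_lit 12955) (nat_lit 14) (nat_lit 2))
    (@En.n l18 (nat_lit 12955) (nat_lit 15) (nat_lit 2))))
  (@Cl.mk (nat_lit 0x2000200090007000e00080002000d000d00070003000300090008000e000e) (nat_lit 0x10440770006689) (nat_lit 16) Lb.e (@T16.mk En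
    (@En.n l601 (nat_lit 12956) (nat_lit 1) (nat_lit 14))
    (@En.i (nat_lit 1203) (nat_lit 1) (nat_lit 14))
    (@En.n l4780 (nat_lit 13270) (nat_lit 2) (nat_lit 8))
    (@En.n l476 (nat_lit 13220) (nat_lit 3) (nat_lit 9))
    (@En.n l152 (nat_lit 12959) (nat_lit 4) (nat_lit 3))
    (@En.n l4804 (nat_lit 13268) (nat_lit 5) (nat_lit 3))
    (@En.n l97 (nat_lit 12905) (nat_lit 6) (nat_lit 7))
    (@En.n l13137 (nat_lit 13268) (nat_lit 8) (nat_lit 13))
    (@En.i (nat_lit 13858) (nat_lit 9) (nat_lit 13))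
    (@En.n l17 (nat_lit 12956) (nat_lit 9) (nat_lit 2))
    (@En.n l5553 (nat_lit 12951) (nat_lit 11) (nat_lit 8))
    (@En.n l13138 (nat_lit 712) (nat_lit 12) (nat_lit 14))
    (@En.i (nat_lit 13262) (nat_lit 13) (nat_lit 7))
    (@En.n l532 (nat_lit 5068) (nat_lit 14) (nat_lit 9))
    (@En.n l50 (nat_lit 12956) (nat_lit 14) (nat_lit 2))
    (@En.n l7 (nat_lit 12956) (nat_lit 15) (nat_lit 2))))
  (@Cl.mk (nat_lit 0x20002000a000e000800020009000d0006000e0003000200080007000e000e) (nat_lit 0x12406809006089) (nat_lit 16) Lb.e (@T16.mk En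
    (@En.n l97 (nat_lit 12957) (nat_lit 1) (nat_lit 14))
    (@En.n l14161 (nat_lit 3979) (nat_lit 7) (nat_lit 14))
    (@En.n l436 (nat_lit 13277) (nat_lit 2) (nat_lit 7))
    (@En.n l1891 (nat_lit 13909) (nat_lit 3) (nat_lit 8))
    (@En.n l17 (nat_lit 12957) (nat_lit 4) (nat_lit 2))
    (@En.n l435 (nat_lit 12955) (nat_lit 5) (nat_lit 3))
    (@En.n l1327 (nat_lit 14062) (nat_lit 7) (nat_lit 14))
    (@En.n l436 (nat_lit 13705) (nat_lit 7) (nat_lit 6))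
    (@En.n l11250 (nat_lit 13963) (nat_lit 9) (nat_lit 13))
    (@En.n l14161 (nat_lit 13415) (nat_lit 10) (nat_lit 9))
    (@En.n l28 (nat_lit 12957) (nat_lit 10) (nat_lit 2))
    (@En.n l12444 (nat_lit 12953) (nat_lit 12) (nat_lit 8))
    (@En.i (nat_lit 13003) (nat_lit 13) (nat_lit 14))
    (@En.n l5976 (nat_lit 5946) (nat_lit 2) (nat_lit 10))
    (@En.n l107 (nat_lit 12957) (nat_lit 14) (nat_lit 2))
    (@En.n l3 (nat_lit 12957) (nat_lit 15) (nat_lit 2))))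
  (@Cl.mk (nat_lit 0x200020008000e000800020009000e000d00020008000300080007000e000e) (nat_lit 0x24406590206089) (nat_lit 16) Lb.e (@T16.mk En
    (@En.n l5 (nat_lit 12958) (nat_lit 1) (nat_lit 14))
    (@En.n l4021 (nat_lit 3980) (nat_lit 7) (nat_lit 14))
    (@En.i (nat_lit 13276) (nat_lit 2) (nat_lit 7))
    (@En.n l117 (nat_lit 13908) (nat_lit 3) (nat_lit 8))
    (@En.i (nat_lit 12955) (nat_lit 4) (nat_lit 3))
    (@En.i (nat_lit 12932) (nat_lit 5) (nat_lit 8))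
    (@En.n l28 (nat_lit 12958) (nat_lit 6) (nat_lit 2))
    (@En.n l134 (nat_lit 12955) (nat_lit 8) (nat_lit 13))
    (@En.n l5577 (nat_lit 14066) (nat_lit 9) (nat_lit 14))
    (@En.n l107 (nat_lit 13411) (nat_lit 10) (nat_lit 9))
    (@En.n l3 (nat_lit 12958) (nat_lit 10) (nat_lit 2))
    (@En.i (nat_lit 12950) (nat_lit 12) (nat_lit 8))
    (@En.i (nat_lit 12852) (nat_lit 13) (nat_lit 14))
    (@En.i (nat_lit 5904) (nat_lit 6) (nat_lit 8))
    (@En.n l17 (nat_lit 12958) (nat_lit 14) (nat_lit 2))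
    (@En.n l18 (nat_lit 12958) (nat_lit 15) (nat_lit 2))))
  (@Cl.mk (nat_lit 0x2000200080007000e00080002000e000d00020008000300090008000e000e) (nat_lit 0x20540780207689) (nat_lit 16) Lb.e (@T16.mk En
    (@En.n l601 (nat_lit 12959) (nat_lit 1) (nat_lit 14))
    (@En.i (nat_lit 1209) (nat_lit 11) (nat_lit 14))
    (@En.n l1913 (nat_lit 13274) (nat_lit 2) (nat_lit 8))
    (@En.n l11 (nat_lit 13747) (nat_lit 3) (nat_lit 9))
    (@En.n l117 (nat_lit 12956) (nat_lit 4) (nat_lit 3))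
    (@En.i (nat_lit 12904) (nat_lit 5) (nat_lit 8))
    (@En.n l3 (nat_lit 12959) (nat_lit 6) (nat_lit 2))
    (@En.i (nat_lit 12956) (nat_lit 8) (nat_lit 13))
    (@En.i (nat_lit 13324) (nat_lit 9) (nat_lit 14))
    (@En.n l17 (nat_lit 12959) (nat_lit 9) (nat_lit 2))
    (@En.n l1916 (nat_lit 12950) (nat_lit 11) (nat_lit 8))
    (@En.n l524 (nat_lit 717) (nat_lit 12) (nat_lit 14))
    (@En.i (nat_lit 13288) (nat_lit 13) (nat_lit 7))
    (@En.n l532 (nat_lit 5073) (nat_lit 14) (nat_lit 8))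
    (@En.n l50 (nat_lit 12959) (nat_lit 14) (nat_lit 2))
    (@En.n l7 (nat_lit 12959) (nat_lit 15) (nat_lit 2))))
noncomputable def a810 : T16 Cl := @T16.mk Cl
  (@Cl.mk (nat_lit 0x20002000a00090008000e000900020006000e0007000200080007000e000e) (nat_lit 0x12466009006078) (nat_lit 16) Lb.e (@T16.mk En
    (@En.n l97 (nat_lit 12960) (nat_lit 1) (nat_lit 14))
    (@En.n l5052 (nat_lit 2922) (nat_lit 9) (nat_lit 14))
    (@En.n l55 (nat_lit 12782) (nat_lit 2) (nat_lit 7))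
    (@En.n l5053 (nat_lit 12913) (nat_lit 3) (nat_lit 8))
    (@En.n l17 (nat_lit 12960) (nat_lit 4) (nat_lit 2))
    (@En.n l5054 (nat_lit 12910) (nat_lit 5) (nat_lit 7))
    (@En.n l998 (nat_lit 12961) (nat_lit 7) (nat_lit 14))
    (@En.n l5055 (nat_lit 13541) (nat_lit 7) (nat_lit 6))
    (@En.n l7 (nat_lit 12960) (nat_lit 8) (nat_lit 2))
    (@En.n l5056 (nat_lit 12970) (nat_lit 10) (nat_lit 9))
    (@En.n l134 (nat_lit 12876) (nat_lit 11) (nat_lit 14))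
    (@En.n l5052 (nat_lit 13256) (nat_lit 12) (nat_lit 8))
    (@En.n l5052 (nat_lit 12956) (nat_lit 13) (nat_lit 9))
    (@En.n l998 (nat_lit 1661) (nat_lit 4) (nat_lit 10))
    (@En.n l107 (nat_lit 12960) (nat_lit 14) (nat_lit 2))
    (@En.n l3 (nat_lit 12960) (nat_lit 15) (nat_lit 2))))
  (@Cl.mk (nat_lit 0x200020007000a0008000e00090002000e00060002000900080007000e000e) (nat_lit 0x3346080006078) (nat_lit 16) Lb.e (@T16.mk En
    (@En.n l180 (nat_lit 12961) (nat_lit 1) (nat_lit 14))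
    (@En.n l3213 (nat_lit 2931) (nat_lit 12) (nat_lit 14))
    (@En.n l77 (nat_lit 13050) (nat_lit 2) (nat_lit 7))
    (@En.n l2038 (nat_lit 13215) (nat_lit 3) (nat_lit 8))
    (@En.n l5048 (nat_lit 12962) (nat_lit 4) (nat_lit 9))
    (@En.n l17 (nat_lit 12961) (nat_lit 5) (nat_lit 2))
    (@En.n l5049 (nat_lit 12962) (nat_lit 6) (nat_lit 6))
    (@En.n l5050 (nat_lit 13484) (nat_lit 8) (nat_lit 14))
    (@En.n l50 (nat_lit 12961) (nat_lit 8) (nat_lit 2))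
    (@En.n l5051 (nat_lit 12965) (nat_lit 10) (nat_lit 9))
    (@En.n l5050 (nat_lit 12877) (nat_lit 11) (nat_lit 14))
    (@En.n l810 (nat_lit 13254) (nat_lit 12) (nat_lit 8))
    (@En.n l1643 (nat_lit 13268) (nat_lit 13) (nat_lit 10))
    (@En.i (nat_lit 5807) (nat_lit 14) (nat_lit 7))
    (@En.n l11 (nat_lit 12961) (nat_lit 14) (nat_lit 2))
    (@En.n l107 (nat_lit 12961) (nat_lit 15) (nat_lit 2))))
  (@Cl.mk (nat_lit 0x200020007000a000a0009000e000a000200060006000900070006000e000e) (nat_lit 0x2456800070067) (nat_lit 16) Lb.e (@T16.mk En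
    (@En.n l5 (nat_lit 12962) (nat_lit 1) (nat_lit 14))
    (@En.n l1605 (nat_lit 2932) (nat_lit 10) (nat_lit 14))
    (@En.n l158 (nat_lit 13046) (nat_lit 2) (nat_lit 6))
    (@En.n l1606 (nat_lit 13094) (nat_lit 3) (nat_lit 7))
    (@En.n l3 (nat_lit 12963) (nat_lit 4) (nat_lit 9))
    (@En.n l527 (nat_lit 12963) (nat_lit 5) (nat_lit 6))
    (@En.i (nat_lit 14033) (nat_lit 6) (nat_lit 6))
    (@En.n l8 (nat_lit 12962) (nat_lit 7) (nat_lit 2))
    (@En.n l1607 (nat_lit 12964) (nat_lit 9) (nat_lit 10))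
    (@En.n l1608 (nat_lit 12878) (nat_lit 10) (nat_lit 14))
    (@En.n l1609 (nat_lit 13222) (nat_lit 11) (nat_lit 9))
    (@En.n l1610 (nat_lit 12961) (nat_lit 12) (nat_lit 10))
    (@En.n l1611 (nat_lit 12960) (nat_lit 13) (nat_lit 10))
    (@En.n l1208 (nat_lit 5763) (nat_lit 5) (nat_lit 7))
    (@En.n l17 (nat_lit 12962) (nat_lit 14) (nat_lit 2))
    (@En.n l18 (nat_lit 12962) (nat_lit 15) (nat_lit 2))))
  (@Cl.mk (nat_lit 0x200020007000e000a0002000a000e000b00020006000900060005000e000e) (nat_lit 0x3305880060056) (nat_lit 16) Lb.e (@T16.mk En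
    (@En.n l5 (nat_lit 12963) (nat_lit 1) (nat_lit 14))
    (@En.n l420 (nat_lit 2937) (nat_lit 11) (nat_lit 14))
    (@En.n l158 (nat_lit 13048) (nat_lit 2) (nat_lit 5))
    (@En.n l12 (nat_lit 13088) (nat_lit 3) (nat_lit 6))
    (@En.i (nat_lit 14073) (nat_lit 4) (nat_lit 9))
    (@En.i (nat_lit 14032) (nat_lit 5) (nat_lit 6))
    (@En.n l8 (nat_lit 12963) (nat_lit 6) (nat_lit 2))
    (@En.n l1831 (nat_lit 12966) (nat_lit 8) (nat_lit 11))
    (@En.n l509 (nat_lit 12881) (nat_lit 9) (nat_lit 14))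
    (@En.i (nat_lit 13219) (nat_lit 10) (nat_lit 10))
    (@En.n l107 (nat_lit 12963) (nat_lit 10) (nat_lit 2))
    (@En.i (nat_lit 12962) (nat_lit 12) (nat_lit 10))
    (@En.n l97 (nat_lit 12993) (nat_lit 13) (nat_lit 14))
    (@En.n l1208 (nat_lit 5761) (nat_lit 6) (nat_lit 7))
    (@En.n l17 (nat_lit 12963) (nat_lit 14) (nat_lit 2))
    (@En.n l18 (nat_lit 12963) (nat_lit 15) (nat_lit 2))))
  (@Cl.mk (nat_lit 0x200020008000b000b000a000a000a000500050008000600060006000e000e) (nat_lit 0x23467700500067) (nat_lit 16) Lb.e (@T16.mk En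
    (@En.n l5 (nat_lit 12964) (nat_lit 1) (nat_lit 14))
    (@En.n l4961 (nat_lit 2069) (nat_lit 1) (nat_lit 14))
    (@En.n l4962 (nat_lit 12962) (nat_lit 2) (nat_lit 6))
    (@En.n l4963 (nat_lit 12967) (nat_lit 3) (nat_lit 6))
    (@En.i (nat_lit 13095) (nat_lit 4) (nat_lit 6))
    (@En.n l4964 (nat_lit 12966) (nat_lit 5) (nat_lit 8))
    (@En.n l4965 (nat_lit 12966) (nat_lit 6) (nat_lit 5))
    (@En.n l4966 (nat_lit 13134) (nat_lit 7) (nat_lit 5))
    (@En.n l77 (nat_lit 12968) (nat_lit 9) (nat_lit 10))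
    (@En.n l55 (nat_lit 12969) (nat_lit 10) (nat_lit 10))
    (@En.n l619 (nat_lit 13224) (nat_lit 11) (nat_lit 10))
    (@En.n l4967 (nat_lit 12965) (nat_lit 12) (nat_lit 11))
    (@En.n l1787 (nat_lit 12970) (nat_lit 13) (nat_lit 11))
    (@En.i (nat_lit 5752) (nat_lit 14) (nat_lit 8))
    (@En.n l17 (nat_lit 12964) (nat_lit 14) (nat_lit 2))
    (@En.n l18 (nat_lit 12964) (nat_lit 15) (nat_lit 2))))
  (@Cl.mk (nat_lit 0x200020008000b000900090009000e000500020008000700070007000e000e) (nat_lit 0x13556800600078) (nat_lit 16) Lb.e (@T16.mk En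
    (@En.n l5 (nat_lit 12965) (nat_lit 1) (nat_lit 14))
    (@En.n l12940 (nat_lit 2070) (nat_lit 11) (nat_lit 14))
    (@En.n l12941 (nat_lit 12961) (nat_lit 2) (nat_lit 7))
    (@En.n l12942 (nat_lit 12973) (nat_lit 3) (nat_lit 7))
    (@En.n l5384 (nat_lit 13214) (nat_lit 4) (nat_lit 7))
    (@En.n l12943 (nat_lit 12964) (nat_lit 5) (nat_lit 8))
    (@En.n l11 (nat_lit 12965) (nat_lit 6) (nat_lit 2))
    (@En.n l12944 (nat_lit 12964) (nat_lit 7) (nat_lit 5))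
    (@En.i (nat_lit 13660) (nat_lit 9) (nat_lit 14))
    (@En.n l12607 (nat_lit 12971) (nat_lit 10) (nat_lit 9))
    (@En.i (nat_lit 12972) (nat_lit 11) (nat_lit 9))
    (@En.n l12940 (nat_lit 13251) (nat_lit 12) (nat_lit 9))
    (@En.n l4559 (nat_lit 12953) (nat_lit 13) (nat_lit 11))
    (@En.n l12945 (nat_lit 47) (nat_lit 6) (nat_lit 8))
    (@En.n l17 (nat_lit 12965) (nat_lit 14) (nat_lit 2))
    (@En.n l18 (nat_lit 12965) (nat_lit 15) (nat_lit 2))))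
  (@Cl.mk (nat_lit 0x200020008000e000b0002000b000b000b00050008000500050005000e000e) (nat_lit 0x39407780400034) (nat_lit 16) Lb.e (@T16.mk En
    (@En.n l5 (nat_lit 12966) (nat_lit 1) (nat_lit 14))
    (@En.n l2669 (nat_lit 2358) (nat_lit 1) (nat_lit 14))
    (@En.n l5398 (nat_lit 12963) (nat_lit 2) (nat_lit 5))
    (@En.n l575 (nat_lit 14067) (nat_lit 3) (nat_lit 5))
    (@En.n l5399 (nat_lit 13092) (nat_lit 4) (nat_lit 5))
    (@En.n l5400 (nat_lit 14071) (nat_lit 5) (nat_lit 8))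
    (@En.n l5401 (nat_lit 13132) (nat_lit 6) (nat_lit 5))
    (@En.n l565 (nat_lit 13174) (nat_lit 8) (nat_lit 11))
    (@En.n l5402 (nat_lit 13128) (nat_lit 9) (nat_lit 11))
    (@En.i (nat_lit 13221) (nat_lit 10) (nat_lit 11))
    (@En.n l3 (nat_lit 12966) (nat_lit 10) (nat_lit 2))
    (@En.n l5403 (nat_lit 12964) (nat_lit 12) (nat_lit 11))
    (@En.n l4956 (nat_lit 12988) (nat_lit 13) (nat_lit 14))
    (@En.n l2568 (nat_lit 5756) (nat_lit 14) (nat_lit 8))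
    (@En.n l17 (nat_lit 12966) (nat_lit 14) (nat_lit 2))
    (@En.n l18 (nat_lit 12966) (nat_lit 15) (nat_lit 2))))
  (@Cl.mk (nat_lit 0x200020007000a000a000e000a0002000b00060006000900060005000e000e) (nat_lit 0x3357090000056) (nat_lit 16) Lb.e (@T16.mk En
    (@En.n l5 (nat_lit 12967) (nat_lit 1) (nat_lit 14))
    (@En.n l8874 (nat_lit 1964) (nat_lit 1) (nat_lit 14))
    (@En.i (nat_lit 13051) (nat_lit 2) (nat_lit 5))
    (@En.i (nat_lit 13643) (nat_lit 3) (nat_lit 6))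
    (@En.n l476 (nat_lit 14067) (nat_lit 4) (nat_lit 9))
    (@En.n l152 (nat_lit 14067) (nat_lit 5) (nat_lit 6))
    (@En.n l8874 (nat_lit 13596) (nat_lit 6) (nat_lit 6))
    (@En.n l565 (nat_lit 13556) (nat_lit 8) (nat_lit 11))
    (@En.n l11 (nat_lit 12967) (nat_lit 8) (nat_lit 2))
    (@En.n l5403 (nat_lit 12964) (nat_lit 10) (nat_lit 10))
    (@En.n l2038 (nat_lit 12864) (nat_lit 11) (nat_lit 14))
    (@En.n l3062 (nat_lit 12973) (nat_lit 12) (nat_lit 10))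
    (@En.n l8929 (nat_lit 13705) (nat_lit 13) (nat_lit 10))
    (@En.n l2568 (nat_lit 5754) (nat_lit 14) (nat_lit 7))
    (@En.n l17 (nat_lit 12967) (nat_lit 14) (nat_lit 2))
    (@En.n l18 (nat_lit 12967) (nat_lit 15) (nat_lit 2))))
  (@Cl.mk (nat_lit 0x200020009000c000c000b000a0004000400070005000e00060002000e000e) (nat_lit 0x23556000030023) (nat_lit 16) Lb.e (@T16.mk En
    (@En.n l5 (nat_lit 12968) (nat_lit 1) (nat_lit 14))
    (@En.i (nat_lit 2659) (nat_lit 1) (nat_lit 14))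
    (@En.n l7 (nat_lit 12968) (nat_lit 2) (nat_lit 2))
    (@En.i (nat_lit 12964) (nat_lit 3) (nat_lit 6))
    (@En.n l134 (nat_lit 13555) (nat_lit 5) (nat_lit 14))
    (@En.i (nat_lit 13175) (nat_lit 5) (nat_lit 5))
    (@En.n l476 (nat_lit 13174) (nat_lit 6) (nat_lit 7))
    (@En.n l152 (nat_lit 13174) (nat_lit 7) (nat_lit 4))
    (@En.n l7630 (nat_lit 13300) (nat_lit 8) (nat_lit 4))
    (@En.n l55 (nat_lit 13082) (nat_lit 10) (nat_lit 10))
    (@En.n l619 (nat_lit 13177) (nat_lit 11) (nat_lit 11))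
    (@En.n l12891 (nat_lit 12971) (nat_lit 12) (nat_lit 12))
    (@En.n l5374 (nat_lit 13198) (nat_lit 13) (nat_lit 12))
    (@En.i (nat_lit 5762) (nat_lit 14) (nat_lit 9))
    (@En.n l17 (nat_lit 12968) (nat_lit 14) (nat_lit 2))
    (@En.n l18 (nat_lit 12968) (nat_lit 15) (nat_lit 2))))
  (@Cl.mk (nat_lit 0x200020009000c000c000a0009000400040007000e000600020007000e000e) (nat_lit 0x33467000a00012) (nat_lit 16) Lb.e (@T16.mk En
    (@En.n l5 (nat_lit 12969) (nat_lit 1) (nat_lit 14))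
    (@En.n l1787 (nat_lit 815) (nat_lit 1) (nat_lit 14))
    (@En.n l1841 (nat_lit 12880) (nat_lit 2) (nat_lit 7))
    (@En.n l28 (nat_lit 12969) (nat_lit 3) (nat_lit 2))
    (@En.i (nat_lit 12964) (nat_lit 4) (nat_lit 6))
    (@En.i (nat_lit 13719) (nat_lit 6) (nat_lit 14))
    (@En.n l476 (nat_lit 13128) (nat_lit 6) (nat_lit 7))
    (@En.n l152 (nat_lit 13128) (nat_lit 7) (nat_lit 4))
    (@En.n l1787 (nat_lit 13130) (nat_lit 8) (nat_lit 4))
    (@En.i (nat_lit 13084) (nat_lit 10) (nat_lit 9))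
    (@En.n l4684 (nat_lit 13136) (nat_lit 11) (nat_lit 10))
    (@En.n l4685 (nat_lit 12972) (nat_lit 12) (nat_lit 12))
    (@En.n l1787 (nat_lit 12974) (nat_lit 13) (nat_lit 12))
    (@En.i (nat_lit 5753) (nat_lit 10) (nat_lit 9))
    (@En.n l17 (nat_lit 12969) (nat_lit 14) (nat_lit 2))
    (@En.n l18 (nat_lit 12969) (nat_lit 15) (nat_lit 2))))
  (@Cl.mk (nat_lit 0x20002000b000a0009000900090005000e00060002000700070007000e000e) (nat_lit 0x23357090000078) (nat_lit 16) Lb.e (@T16.mk En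
    (@En.n l97 (nat_lit 12970) (nat_lit 1) (nat_lit 14))
    (@En.i (nat_lit 2072) (nat_lit 12) (nat_lit 14))
    (@En.n l5418 (nat_lit 12960) (nat_lit 2) (nat_lit 7))
    (@En.n l12946 (nat_lit 13705) (nat_lit 3) (nat_lit 7))
    (@En.n l12947 (nat_lit 12915) (nat_lit 4) (nat_lit 7))
    (@En.n l50 (nat_lit 12970) (nat_lit 5) (nat_lit 2))
    (@En.n l4796 (nat_lit 12911) (nat_lit 6) (nat_lit 6))
    (@En.n l12948 (nat_lit 12965) (nat_lit 8) (nat_lit 14))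
    (@En.i (nat_lit 13590) (nat_lit 8) (nat_lit 5))
    (@En.n l4800 (nat_lit 13198) (nat_lit 10) (nat_lit 9))
    (@En.n l61 (nat_lit 12974) (nat_lit 11) (nat_lit 9))
    (@En.n l12949 (nat_lit 13149) (nat_lit 12) (nat_lit 9))
    (@En.n l11839 (nat_lit 12951) (nat_lit 13) (nat_lit 10))
    (@En.n l12950 (nat_lit 1871) (nat_lit 8) (nat_lit 11))
    (@En.n l107 (nat_lit 12970) (nat_lit 14) (nat_lit 2))
    (@En.n l3 (nat_lit 12970) (nat_lit 15) (nat_lit 2))))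
  (@Cl.mk (nat_lit 0x200020009000c000a0009000e0004000200070006000e00070002000e000e) (nat_lit 0x344560000c0089) (nat_lit 16) Lb.e (@T16.mk En
    (@En.n l97 (nat_lit 12971) (nat_lit 1) (nat_lit 14))
    (@En.i (nat_lit 2658) (nat_lit 1) (nat_lit 14))
    (@En.n l17 (nat_lit 12971) (nat_lit 2) (nat_lit 2))
    (@En.n l9572 (nat_lit 12965) (nat_lit 3) (nat_lit 7))
    (@En.i (nat_lit 13554) (nat_lit 5) (nat_lit 14))
    (@En.n l1388 (nat_lit 13212) (nat_lit 5) (nat_lit 6))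
    (@En.n l20939 (nat_lit 12968) (nat_lit 6) (nat_lit 7))
    (@En.n l7 (nat_lit 12971) (nat_lit 7) (nat_lit 2))
    (@En.n l13574 (nat_lit 12968) (nat_lit 8) (nat_lit 4))
    (@En.i (nat_lit 13427) (nat_lit 10) (nat_lit 14))
    (@En.n l4370 (nat_lit 13079) (nat_lit 11) (nat_lit 9))
    (@En.n l26708 (nat_lit 13250) (nat_lit 12) (nat_lit 10))
    (@En.i (nat_lit 13199) (nat_lit 13) (nat_lit 12))
    (@En.n l3345 (nat_lit 5807) (nat_lit 5) (nat_lit 9))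
    (@En.n l107 (nat_lit 12971) (nat_lit 14) (nat_lit 2))
    (@En.n l3 (nat_lit 12971) (nat_lit 15) (nat_lit 2))))
  (@Cl.mk (nat_lit 0x200020009000c00090008000e000400020007000e000700020008000e000e) (nat_lit 0x13467000100212) (nat_lit 16) Lb.e (@T16.mk En
    (@En.n l5 (nat_lit 12972) (nat_lit 1) (nat_lit 14))
    (@En.n l12334 (nat_lit 818) (nat_lit 10) (nat_lit 14))
    (@En.n l12170 (nat_lit 12879) (nat_lit 2) (nat_lit 8))
    (@En.n l476 (nat_lit 12972) (nat_lit 3) (nat_lit 2))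
    (@En.n l253 (nat_lit 12965) (nat_lit 4) (nat_lit 7))
    (@En.n l12335 (nat_lit 676) (nat_lit 6) (nat_lit 14))
    (@En.n l12336 (nat_lit 12969) (nat_lit 6) (nat_lit 7))
    (@En.n l11 (nat_lit 12972) (nat_lit 7) (nat_lit 2))
    (@En.n l12337 (nat_lit 12969) (nat_lit 8) (nat_lit 4))
    (@En.i (nat_lit 13648) (nat_lit 10) (nat_lit 14))
    (@En.n l1504 (nat_lit 13083) (nat_lit 11) (nat_lit 8))
    (@En.n l12338 (nat_lit 13843) (nat_lit 12) (nat_lit 9))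
    (@En.n l12334 (nat_lit 12952) (nat_lit 13) (nat_lit 12))
    (@En.n l12335 (nat_lit 5751) (nat_lit 5) (nat_lit 9))
    (@En.n l17 (nat_lit 12972) (nat_lit 14) (nat_lit 2))
    (@En.n l18 (nat_lit 12972) (nat_lit 15) (nat_lit 2))))
  (@Cl.mk (nat_lit 0x200020007000a000e00090002000a000e00060002000900070006000e000e) (nat_lit 0x2560770010067) (nat_lit 16) Lb.e (@T16.mk En
    (@En.n l5 (nat_lit 12973) (nat_lit 1) (nat_lit 14))
    (@En.n l1918 (nat_lit 2071) (nat_lit 8) (nat_lit 14))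
    (@En.i (nat_lit 13052) (nat_lit 2) (nat_lit 6))
    (@En.n l21147 (nat_lit 13931) (nat_lit 3) (nat_lit 7))
    (@En.n l4304 (nat_lit 12967) (nat_lit 4) (nat_lit 9))
    (@En.n l28 (nat_lit 12973) (nat_lit 5) (nat_lit 2))
    (@En.n l1373 (nat_lit 12967) (nat_lit 6) (nat_lit 6))
    (@En.n l21148 (nat_lit 13662) (nat_lit 8) (nat_lit 14))
    (@En.n l21149 (nat_lit 13553) (nat_lit 9) (nat_lit 10))
    (@En.n l3 (nat_lit 12973) (nat_lit 9) (nat_lit 2))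
    (@En.n l21150 (nat_lit 12965) (nat_lit 11) (nat_lit 9))
    (@En.i (nat_lit 12862) (nat_lit 12) (nat_lit 14))
    (@En.n l313 (nat_lit 12957) (nat_lit 13) (nat_lit 10))
    (@En.n l1729 (nat_lit 5751) (nat_lit 14) (nat_lit 7))
    (@En.n l17 (nat_lit 12973) (nat_lit 14) (nat_lit 2))
    (@En.n l18 (nat_lit 12973) (nat_lit 15) (nat_lit 2))))
  (@Cl.mk (nat_lit 0x20002000c000b000900080004000e00050002000e000700020008000e000e) (nat_lit 0x24460800a00678) (nat_lit 16) Lb.e (@T16.mk En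
    (@En.n l97 (nat_lit 12974) (nat_lit 1) (nat_lit 14))
    (@En.i (nat_lit 3941) (nat_lit 1) (nat_lit 14))
    (@En.i (nat_lit 721) (nat_lit 2) (nat_lit 8))
    (@En.n l17 (nat_lit 12974) (nat_lit 3) (nat_lit 2))
    (@En.i (nat_lit 12970) (nat_lit 4) (nat_lit 7))
    (@En.n l5342 (nat_lit 12942) (nat_lit 6) (nat_lit 14))
    (@En.n l50 (nat_lit 12974) (nat_lit 6) (nat_lit 2))
    (@En.n l7 (nat_lit 12975) (nat_lit 7) (nat_lit 5))
    (@En.n l5382 (nat_lit 12972) (nat_lit 9) (nat_lit 14))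
    (@En.i (nat_lit 677) (nat_lit 9) (nat_lit 4))
    (@En.n l5383 (nat_lit 13078) (nat_lit 11) (nat_lit 8))
    (@En.n l55 (nat_lit 13142) (nat_lit 12) (nat_lit 9))
    (@En.n l55 (nat_lit 12949) (nat_lit 13) (nat_lit 11))
    (@En.n l11 (nat_lit 1868) (nat_lit 10) (nat_lit 12))
    (@En.n l107 (nat_lit 12974) (nat_lit 14) (nat_lit 2))
    (@En.n l3 (nat_lit 12974) (nat_lit 15) (nat_lit 2))))
  (@Cl.mk (nat_lit 0x20002000b000b000b000a0009000500050005000e000600020007000e000e) (nat_lit 0x34555000a00078) (nat_lit 16) Lb.e (@T16.mk En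
    (@En.n l97 (nat_lit 12975) (nat_lit 1) (nat_lit 14))
    (@En.i (nat_lit 1952) (nat_lit 1) (nat_lit 14))
    (@En.n l1374 (nat_lit 12887) (nat_lit 2) (nat_lit 7))
    (@En.n l17 (nat_lit 12975) (nat_lit 3) (nat_lit 2))
    (@En.n l105 (nat_lit 12911) (nat_lit 4) (nat_lit 6))
    (@En.n l3786 (nat_lit 12938) (nat_lit 6) (nat_lit 14))
    (@En.n l4686 (nat_lit 13031) (nat_lit 6) (nat_lit 5))
    (@En.n l55 (nat_lit 12976) (nat_lit 7) (nat_lit 5))
    (@En.i (nat_lit 13501) (nat_lit 8) (nat_lit 5))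
    (@En.n l105 (nat_lit 13034) (nat_lit 10) (nat_lit 9))
    (@En.n l2337 (nat_lit 12978) (nat_lit 11) (nat_lit 10))
    (@En.n l601 (nat_lit 12974) (nat_lit 12) (nat_lit 11))
    (@En.n l2281 (nat_lit 12947) (nat_lit 13) (nat_lit 11))
    (@En.n l105 (nat_lit 1865) (nat_lit 10) (nat_lit 11))
    (@En.n l107 (nat_lit 12975) (nat_lit 14) (nat_lit 2))
    (@En.n l3 (nat_lit 12975) (nat_lit 15) (nat_lit 2))))
noncomputable def a811 : T16 Cl := @T16.mk Cl
  (@Cl.mk (nat_lit 0x20002000e000b0002000c000b000a00050004000e000500020006000e000e) (nat_lit 0x24055600a00078) (nat_lit 16) Lb.e (@T16.mk En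
    (@En.n l97 (nat_lit 12976) (nat_lit 1) (nat_lit 14))
    (@En.i (nat_lit 1949) (nat_lit 1) (nat_lit 14))
    (@En.n l1374 (nat_lit 13016) (nat_lit 2) (nat_lit 6))
    (@En.n l17 (nat_lit 12976) (nat_lit 3) (nat_lit 2))
    (@En.n l50 (nat_lit 12988) (nat_lit 4) (nat_lit 5))
    (@En.n l102 (nat_lit 13114) (nat_lit 6) (nat_lit 14))
    (@En.n l1481 (nat_lit 13459) (nat_lit 6) (nat_lit 4))
    (@En.i (nat_lit 12985) (nat_lit 7) (nat_lit 5))
    (@En.n l100 (nat_lit 13086) (nat_lit 9) (nat_lit 10))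
    (@En.n l217 (nat_lit 12980) (nat_lit 10) (nat_lit 11))
    (@En.n l104 (nat_lit 12969) (nat_lit 11) (nat_lit 12))
    (@En.n l28 (nat_lit 12976) (nat_lit 11) (nat_lit 2))
    (@En.i (nat_lit 12975) (nat_lit 13) (nat_lit 11))
    (@En.n l436 (nat_lit 2966) (nat_lit 1) (nat_lit 14))
    (@En.n l107 (nat_lit 12976) (nat_lit 14) (nat_lit 2))
    (@En.n l3 (nat_lit 12976) (nat_lit 15) (nat_lit 2))))
  (@Cl.mk (nat_lit 0x20002000c000c000b000800040004000d0005000e000300020008000e000e) (nat_lit 0x23550080a0009a) (nat_lit 16) Lb.e (@T16.mk En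
    (@En.n l97 (nat_lit 12977) (nat_lit 1) (nat_lit 14))
    (@En.i (nat_lit 4101) (nat_lit 1) (nat_lit 14))
    (@En.i (nat_lit 13316) (nat_lit 2) (nat_lit 8))
    (@En.n l17 (nat_lit 12977) (nat_lit 3) (nat_lit 2))
    (@En.i (nat_lit 12978) (nat_lit 4) (nat_lit 3))
    (@En.i (nat_lit 13950) (nat_lit 0) (nat_lit 14))
    (@En.n l7 (nat_lit 12975) (nat_lit 6) (nat_lit 5))
    (@En.n l564 (nat_lit 13969) (nat_lit 8) (nat_lit 13))
    (@En.n l237 (nat_lit 12979) (nat_lit 8) (nat_lit 4))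
    (@En.i (nat_lit 13159) (nat_lit 9) (nat_lit 4))
    (@En.i (nat_lit 13445) (nat_lit 11) (nat_lit 8))
    (@En.n l4380 (nat_lit 12985) (nat_lit 12) (nat_lit 11))
    (@En.n l134 (nat_lit 13492) (nat_lit 13) (nat_lit 12))
    (@En.n l11 (nat_lit 2366) (nat_lit 10) (nat_lit 12))
    (@En.n l107 (nat_lit 12977) (nat_lit 14) (nat_lit 2))
    (@En.n l3 (nat_lit 12977) (nat_lit 15) (nat_lit 2))))
  (@Cl.mk (nat_lit 0x20002000c000c000a000800040004000d000d0006000300030008000e000e) (nat_lit 0x124500890000ab) (nat_lit 16) Lb.e (@T16.mk En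
    (@En.n l97 (nat_lit 12978) (nat_lit 1) (nat_lit 14))
    (@En.i (nat_lit 3278) (nat_lit 1) (nat_lit 14))
    (@En.n l4431 (nat_lit 13314) (nat_lit 2) (nat_lit 8))
    (@En.n l4862 (nat_lit 12981) (nat_lit 3) (nat_lit 3))
    (@En.n l18 (nat_lit 12977) (nat_lit 4) (nat_lit 3))
    (@En.n l7 (nat_lit 12989) (nat_lit 5) (nat_lit 6))
    (@En.n l61 (nat_lit 12977) (nat_lit 7) (nat_lit 13))
    (@En.n l564 (nat_lit 13972) (nat_lit 8) (nat_lit 13))
    (@En.n l237 (nat_lit 12980) (nat_lit 8) (nat_lit 4))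
    (@En.i (nat_lit 13160) (nat_lit 9) (nat_lit 4))
    (@En.n l4431 (nat_lit 13442) (nat_lit 11) (nat_lit 8))
    (@En.n l55 (nat_lit 12986) (nat_lit 12) (nat_lit 10))
    (@En.n l134 (nat_lit 13493) (nat_lit 13) (nat_lit 12))
    (@En.n l5170 (nat_lit 2344) (nat_lit 14) (nat_lit 12))
    (@En.n l107 (nat_lit 12978) (nat_lit 14) (nat_lit 2))
    (@En.n l3 (nat_lit 12978) (nat_lit 15) (nat_lit 2))))
  (@Cl.mk (nat_lit 0x20002000e000c0002000c00090004000d0004000e000300020007000e000e) (nat_lit 0x83036090b00089) (nat_lit 16) Lb.e (@T16.mk En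
    (@En.n l97 (nat_lit 12979) (nat_lit 1) (nat_lit 14))
    (@En.i (nat_lit 4102) (nat_lit 1) (nat_lit 14))
    (@En.n l1374 (nat_lit 13113) (nat_lit 2) (nat_lit 7))
    (@En.n l17 (nat_lit 12979) (nat_lit 3) (nat_lit 2))
    (@En.i (nat_lit 12980) (nat_lit 4) (nat_lit 3))
    (@En.i (nat_lit 13952) (nat_lit 0) (nat_lit 14))
    (@En.i (nat_lit 12976) (nat_lit 6) (nat_lit 4))
    (@En.i (nat_lit 12821) (nat_lit 8) (nat_lit 13))
    (@En.i (nat_lit 12984) (nat_lit 8) (nat_lit 4))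
    (@En.n l1374 (nat_lit 13460) (nat_lit 10) (nat_lit 9))
    (@En.n l3424 (nat_lit 13129) (nat_lit 11) (nat_lit 12))
    (@En.n l28 (nat_lit 12979) (nat_lit 11) (nat_lit 2))
    (@En.n l77 (nat_lit 12977) (nat_lit 13) (nat_lit 12))
    (@En.i (nat_lit 2823) (nat_lit 1) (nat_lit 14))
    (@En.n l107 (nat_lit 12979) (nat_lit 14) (nat_lit 2))
    (@En.n l3 (nat_lit 12979) (nat_lit 15) (nat_lit 2))))
  (@Cl.mk (nat_lit 0x20002000e000c0002000b00090004000d000d0005000300030007000e000e) (nat_lit 0x3204707a000089) (nat_lit 16) Lb.e (@T16.mk En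
    (@En.n l97 (nat_lit 12980) (nat_lit 1) (nat_lit 14))
    (@En.i (nat_lit 3281) (nat_lit 1) (nat_lit 14))
    (@En.n l1579 (nat_lit 13111) (nat_lit 2) (nat_lit 7))
    (@En.n l4391 (nat_lit 12982) (nat_lit 3) (nat_lit 3))
    (@En.n l18 (nat_lit 12979) (nat_lit 4) (nat_lit 3))
    (@En.n l435 (nat_lit 12990) (nat_lit 5) (nat_lit 5))
    (@En.n l61 (nat_lit 12979) (nat_lit 7) (nat_lit 13))
    (@En.i (nat_lit 12822) (nat_lit 8) (nat_lit 13))
    (@En.i (nat_lit 12983) (nat_lit 8) (nat_lit 4))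
    (@En.n l1579 (nat_lit 13446) (nat_lit 10) (nat_lit 9))
    (@En.n l435 (nat_lit 13132) (nat_lit 11) (nat_lit 11))
    (@En.n l28 (nat_lit 12980) (nat_lit 11) (nat_lit 2))
    (@En.n l77 (nat_lit 12978) (nat_lit 13) (nat_lit 12))
    (@En.n l435 (nat_lit 2821) (nat_lit 1) (nat_lit 14))
    (@En.n l107 (nat_lit 12980) (nat_lit 14) (nat_lit 2))
    (@En.n l3 (nat_lit 12980) (nat_lit 15) (nat_lit 2))))
  (@Cl.mk (nat_lit 0x20002000c000c0009000800040004000e000d0002000700030008000e000e) (nat_lit 0x2255008900009a) (nat_lit 16) Lb.e (@T16.mk En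
    (@En.n l5 (nat_lit 12981) (nat_lit 1) (nat_lit 14))
    (@En.n l1897 (nat_lit 3279) (nat_lit 12) (nat_lit 14))
    (@En.i (nat_lit 13239) (nat_lit 2) (nat_lit 8))
    (@En.n l1455 (nat_lit 12978) (nat_lit 3) (nat_lit 3))
    (@En.n l12111 (nat_lit 12998) (nat_lit 4) (nat_lit 7))
    (@En.n l28 (nat_lit 12981) (nat_lit 5) (nat_lit 2))
    (@En.n l13315 (nat_lit 12978) (nat_lit 7) (nat_lit 13))
    (@En.n l12607 (nat_lit 13852) (nat_lit 8) (nat_lit 14))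
    (@En.n l152 (nat_lit 12982) (nat_lit 8) (nat_lit 4))
    (@En.n l1686 (nat_lit 13169) (nat_lit 9) (nat_lit 4))
    (@En.n l5347 (nat_lit 13444) (nat_lit 11) (nat_lit 8))
    (@En.i (nat_lit 13146) (nat_lit 12) (nat_lit 9))
    (@En.n l4450 (nat_lit 13494) (nat_lit 13) (nat_lit 12))
    (@En.n l5347 (nat_lit 2346) (nat_lit 8) (nat_lit 12))
    (@En.n l17 (nat_lit 12981) (nat_lit 14) (nat_lit 2))
    (@En.n l18 (nat_lit 12981) (nat_lit 15) (nat_lit 2))))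
  (@Cl.mk (nat_lit 0x20002000e000c0002000a00090004000e000d0002000600030007000e000e) (nat_lit 0x33056078000089) (nat_lit 16) Lb.e (@T16.mk En
    (@En.n l5 (nat_lit 12982) (nat_lit 1) (nat_lit 14))
    (@En.n l2571 (nat_lit 3283) (nat_lit 12) (nat_lit 14))
    (@En.i (nat_lit 13232) (nat_lit 2) (nat_lit 7))
    (@En.n l417 (nat_lit 12980) (nat_lit 3) (nat_lit 3))
    (@En.i (nat_lit 13001) (nat_lit 4) (nat_lit 6))
    (@En.n l28 (nat_lit 12982) (nat_lit 5) (nat_lit 2))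
    (@En.n l5029 (nat_lit 12980) (nat_lit 7) (nat_lit 13))
    (@En.i (nat_lit 12832) (nat_lit 8) (nat_lit 14))
    (@En.n l117 (nat_lit 12987) (nat_lit 8) (nat_lit 4))
    (@En.n l1504 (nat_lit 13449) (nat_lit 10) (nat_lit 9))
    (@En.i (nat_lit 13800) (nat_lit 11) (nat_lit 10))
    (@En.n l3 (nat_lit 12982) (nat_lit 11) (nat_lit 2))
    (@En.i (nat_lit 12981) (nat_lit 13) (nat_lit 12))
    (@En.i (nat_lit 2822) (nat_lit 1) (nat_lit 14))
    (@En.n l17 (nat_lit 12982) (nat_lit 14) (nat_lit 2))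
    (@En.n l18 (nat_lit 12982) (nat_lit 15) (nat_lit 2))))
  (@Cl.mk (nat_lit 0x20002000d000c00070003000c0004000d000d0004000300030009000e000e) (nat_lit 0x1400608a0000ab) (nat_lit 16) Lb.e (@T16.mk En
    (@En.n l97 (nat_lit 12983) (nat_lit 1) (nat_lit 14))
    (@En.i (nat_lit 4043) (nat_lit 1) (nat_lit 14))
    (@En.i (nat_lit 13977) (nat_lit 2) (nat_lit 9))
    (@En.n l4830 (nat_lit 12987) (nat_lit 3) (nat_lit 3))
    (@En.n l18 (nat_lit 12984) (nat_lit 4) (nat_lit 3))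
    (@En.i (nat_lit 13147) (nat_lit 5) (nat_lit 4))
    (@En.n l61 (nat_lit 12984) (nat_lit 7) (nat_lit 13))
    (@En.i (nat_lit 13144) (nat_lit 8) (nat_lit 13))
    (@En.n l28 (nat_lit 12978) (nat_lit 8) (nat_lit 4))
    (@En.n l4909 (nat_lit 13133) (nat_lit 10) (nat_lit 12))
    (@En.n l28 (nat_lit 13158) (nat_lit 10) (nat_lit 3))
    (@En.i (nat_lit 12853) (nat_lit 12) (nat_lit 7))
    (@En.n l77 (nat_lit 13160) (nat_lit 13) (nat_lit 12))
    (@En.i (nat_lit 2272) (nat_lit 14) (nat_lit 13))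
    (@En.n l107 (nat_lit 12983) (nat_lit 14) (nat_lit 2))
    (@En.n l3 (nat_lit 12983) (nat_lit 15) (nat_lit 2))))
  (@Cl.mk (nat_lit 0x20002000d000c00070003000d0004000d0003000e000300020009000e000e) (nat_lit 0x33006090a000ab) (nat_lit 16) Lb.e (@T16.mk En
    (@En.n l97 (nat_lit 12984) (nat_lit 1) (nat_lit 14))
    (@En.i (nat_lit 4047) (nat_lit 1) (nat_lit 14))
    (@En.i (nat_lit 13976) (nat_lit 2) (nat_lit 9))
    (@En.n l17 (nat_lit 12984) (nat_lit 3) (nat_lit 2))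
    (@En.i (nat_lit 12983) (nat_lit 4) (nat_lit 3))
    (@En.i (nat_lit 13943) (nat_lit 0) (nat_lit 14))
    (@En.i (nat_lit 12985) (nat_lit 6) (nat_lit 3))
    (@En.i (nat_lit 13143) (nat_lit 8) (nat_lit 13))
    (@En.n l28 (nat_lit 12977) (nat_lit 8) (nat_lit 4))
    (@En.n l601 (nat_lit 13131) (nat_lit 10) (nat_lit 13))
    (@En.n l28 (nat_lit 13157) (nat_lit 10) (nat_lit 3))
    (@En.i (nat_lit 13003) (nat_lit 12) (nat_lit 7))
    (@En.n l77 (nat_lit 13159) (nat_lit 13) (nat_lit 12))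
    (@En.i (nat_lit 2370) (nat_lit 10) (nat_lit 13))
    (@En.n l107 (nat_lit 12984) (nat_lit 14) (nat_lit 2))
    (@En.n l3 (nat_lit 12984) (nat_lit 15) (nat_lit 2))))
  (@Cl.mk (nat_lit 0x20002000d000b00070003000d000c00050003000e000400020009000e000e) (nat_lit 0x24006700a000ab) (nat_lit 16) Lb.e (@T16.mk En
    (@En.n l97 (nat_lit 12985) (nat_lit 1) (nat_lit 14))
    (@En.i (nat_lit 4057) (nat_lit 1) (nat_lit 14))
    (@En.i (nat_lit 13978) (nat_lit 2) (nat_lit 9))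
    (@En.n l17 (nat_lit 12985) (nat_lit 3) (nat_lit 2))
    (@En.n l50 (nat_lit 12986) (nat_lit 4) (nat_lit 4))
    (@En.n l5 (nat_lit 13120) (nat_lit 6) (nat_lit 14))
    (@En.n l50 (nat_lit 12984) (nat_lit 6) (nat_lit 3))
    (@En.n l28 (nat_lit 12974) (nat_lit 7) (nat_lit 5))
    (@En.n l217 (nat_lit 12983) (nat_lit 9) (nat_lit 12))
    (@En.n l601 (nat_lit 13130) (nat_lit 10) (nat_lit 13))
    (@En.n l28 (nat_lit 13156) (nat_lit 10) (nat_lit 3))
    (@En.i (nat_lit 13002) (nat_lit 12) (nat_lit 7))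
    (@En.i (nat_lit 13501) (nat_lit 13) (nat_lit 11))
    (@En.i (nat_lit 2244) (nat_lit 10) (nat_lit 13))
    (@En.n l107 (nat_lit 12985) (nat_lit 14) (nat_lit 2))
    (@En.n l3 (nat_lit 12985) (nat_lit 15) (nat_lit 2))))
  (@Cl.mk (nat_lit 0x20002000d000a00070003000c000c000c00060004000400040009000e000e) (nat_lit 0x130078800000ab) (nat_lit 16) Lb.e (@T16.mk En
    (@En.n l97 (nat_lit 12986) (nat_lit 1) (nat_lit 14))
    (@En.i (nat_lit 3887) (nat_lit 1) (nat_lit 14))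
    (@En.n l3540 (nat_lit 13357) (nat_lit 2) (nat_lit 9))
    (@En.n l4830 (nat_lit 13146) (nat_lit 3) (nat_lit 4))
    (@En.n l2172 (nat_lit 13142) (nat_lit 4) (nat_lit 4))
    (@En.i (nat_lit 12983) (nat_lit 5) (nat_lit 4))
    (@En.n l4831 (nat_lit 13148) (nat_lit 6) (nat_lit 6))
    (@En.n l742 (nat_lit 12985) (nat_lit 8) (nat_lit 12))
    (@En.n l396 (nat_lit 13147) (nat_lit 9) (nat_lit 12))
    (@En.n l3540 (nat_lit 13134) (nat_lit 10) (nat_lit 12))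
    (@En.n l28 (nat_lit 287) (nat_lit 10) (nat_lit 3))
    (@En.i (nat_lit 12851) (nat_lit 12) (nat_lit 7))
    (@En.i (nat_lit 13502) (nat_lit 13) (nat_lit 10))
    (@En.i (nat_lit 2238) (nat_lit 14) (nat_lit 13))
    (@En.n l107 (nat_lit 12986) (nat_lit 14) (nat_lit 2))
    (@En.n l3 (nat_lit 12986) (nat_lit 15) (nat_lit 2))))
  (@Cl.mk (nat_lit 0x20002000d000c00070003000b0004000e000d0002000500030009000e000e) (nat_lit 0x12006089000089) (nat_lit 16) Lb.e (@T16.mk En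
    (@En.n l5 (nat_lit 12987) (nat_lit 1) (nat_lit 14))
    (@En.n l1897 (nat_lit 4022) (nat_lit 12) (nat_lit 14))
    (@En.i (nat_lit 13620) (nat_lit 2) (nat_lit 9))
    (@En.n l1554 (nat_lit 12983) (nat_lit 3) (nat_lit 3))
    (@En.n l226 (nat_lit 13571) (nat_lit 4) (nat_lit 5))
    (@En.n l28 (nat_lit 12987) (nat_lit 5) (nat_lit 2))
    (@En.n l12394 (nat_lit 12983) (nat_lit 7) (nat_lit 13))
    (@En.n l476 (nat_lit 13146) (nat_lit 8) (nat_lit 14))
    (@En.i (nat_lit 12981) (nat_lit 8) (nat_lit 4))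
    (@En.n l1897 (nat_lit 13801) (nat_lit 10) (nat_lit 11))
    (@En.n l1686 (nat_lit 13803) (nat_lit 10) (nat_lit 3))
    (@En.n l97 (nat_lit 12852) (nat_lit 12) (nat_lit 7))
    (@En.n l5208 (nat_lit 13169) (nat_lit 13) (nat_lit 12))
    (@En.i (nat_lit 2270) (nat_lit 8) (nat_lit 13))
    (@En.n l17 (nat_lit 12987) (nat_lit 14) (nat_lit 2))
    (@En.n l18 (nat_lit 12987) (nat_lit 15) (nat_lit 2))))
  (@Cl.mk (nat_lit 0x20002000e000a0002000b000b000b000b00060005000500050005000e000e) (nat_lit 0x84057680000045) (nat_lit 16) Lb.e (@T16.mk En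
    (@En.n l97 (nat_lit 12988) (nat_lit 1) (nat_lit 14))
    (@En.i (nat_lit 1951) (nat_lit 1) (nat_lit 14))
    (@En.n l1579 (nat_lit 12993) (nat_lit 2) (nat_lit 5))
    (@En.n l1580 (nat_lit 12849) (nat_lit 3) (nat_lit 5))
    (@En.n l1581 (nat_lit 13101) (nat_lit 4) (nat_lit 5))
    (@En.n l1582 (nat_lit 13455) (nat_lit 5) (nat_lit 5))
    (@En.i (nat_lit 12986) (nat_lit 6) (nat_lit 6))
    (@En.n l1583 (nat_lit 12846) (nat_lit 8) (nat_lit 11))
    (@En.n l742 (nat_lit 12976) (nat_lit 9) (nat_lit 11))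
    (@En.n l432 (nat_lit 12990) (nat_lit 10) (nat_lit 11))
    (@En.n l1584 (nat_lit 12964) (nat_lit 11) (nat_lit 11))
    (@En.n l28 (nat_lit 12988) (nat_lit 11) (nat_lit 2))
    (@En.n l357 (nat_lit 12911) (nat_lit 13) (nat_lit 10))
    (@En.n l1585 (nat_lit 2969) (nat_lit 1) (nat_lit 14))
    (@En.n l107 (nat_lit 12988) (nat_lit 14) (nat_lit 2))
    (@En.n l3 (nat_lit 12988) (nat_lit 15) (nat_lit 2))))
  (@Cl.mk (nat_lit 0x20002000b000b000a0009000900050005000e0006000200070007000e000e) (nat_lit 0x14466009000078) (nat_lit 16) Lb.e (@T16.mk En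
    (@En.n l97 (nat_lit 12989) (nat_lit 1) (nat_lit 14))
    (@En.i (nat_lit 3274) (nat_lit 13) (nat_lit 14))
    (@En.n l1579 (nat_lit 12992) (nat_lit 2) (nat_lit 7))
    (@En.n l12929 (nat_lit 12999) (nat_lit 3) (nat_lit 7))
    (@En.n l18 (nat_lit 12989) (nat_lit 4) (nat_lit 2))
    (@En.n l105 (nat_lit 12911) (nat_lit 5) (nat_lit 6))
    (@En.n l12930 (nat_lit 13552) (nat_lit 7) (nat_lit 14))
    (@En.n l12931 (nat_lit 12990) (nat_lit 7) (nat_lit 5))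
    (@En.i (nat_lit 13562) (nat_lit 8) (nat_lit 5))
    (@En.n l12932 (nat_lit 12845) (nat_lit 10) (nat_lit 9))
    (@En.n l435 (nat_lit 12981) (nat_lit 11) (nat_lit 9))
    (@En.n l12933 (nat_lit 13148) (nat_lit 12) (nat_lit 10))
    (@En.n l2281 (nat_lit 12995) (nat_lit 13) (nat_lit 11))
    (@En.n l12934 (nat_lit 1655) (nat_lit 9) (nat_lit 11))
    (@En.n l107 (nat_lit 12989) (nat_lit 14) (nat_lit 2))
    (@En.n l3 (nat_lit 12989) (nat_lit 15) (nat_lit 2))))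
  (@Cl.mk (nat_lit 0x20002000e000b0002000b000a000a0005000e0005000200060006000e000e) (nat_lit 0x2206670a0000ab) (nat_lit 16) Lb.e (@T16.mk En
    (@En.n l5 (nat_lit 12990) (nat_lit 1) (nat_lit 14))
    (@En.n l417 (nat_lit 4183) (nat_lit 13) (nat_lit 14))
    (@En.n l538 (nat_lit 12991) (nat_lit 2) (nat_lit 6))
    (@En.n l4958 (nat_lit 13000) (nat_lit 3) (nat_lit 6))
    (@En.n l28 (nat_lit 12990) (nat_lit 4) (nat_lit 2))
    (@En.n l3992 (nat_lit 12988) (nat_lit 5) (nat_lit 5))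
    (@En.n l1824 (nat_lit 13758) (nat_lit 7) (nat_lit 14))
    (@En.n l417 (nat_lit 13147) (nat_lit 7) (nat_lit 5))
    (@En.n l4959 (nat_lit 12844) (nat_lit 9) (nat_lit 10))
    (@En.i (nat_lit 12982) (nat_lit 10) (nat_lit 10))
    (@En.n l4960 (nat_lit 13225) (nat_lit 11) (nat_lit 11))
    (@En.n l3 (nat_lit 12990) (nat_lit 11) (nat_lit 2))
    (@En.n l417 (nat_lit 12989) (nat_lit 13) (nat_lit 11))
    (@En.i (nat_lit 3020) (nat_lit 1) (nat_lit 14))
    (@En.n l17 (nat_lit 12990) (nat_lit 14) (nat_lit 2))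
    (@En.n l18 (nat_lit 12990) (nat_lit 15) (nat_lit 2))))
  (@Cl.mk (nat_lit 0x20002000e000a0002000a000e000a00020006000e000600020006000e000e) (nat_lit 0x22047700a00067) (nat_lit 16) Lb.e (@T16.mk En
    (@En.n l5 (nat_lit 12991) (nat_lit 1) (nat_lit 14))
    (@En.n l420 (nat_lit 2910) (nat_lit 10) (nat_lit 14))
    (@En.n l1602 (nat_lit 12826) (nat_lit 2) (nat_lit 6))
    (@En.n l28 (nat_lit 12991) (nat_lit 3) (nat_lit 2))
    (@En.n l594 (nat_lit 12993) (nat_lit 4) (nat_lit 6))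
    (@En.n l1603 (nat_lit 13752) (nat_lit 6) (nat_lit 14))
    (@En.n l117 (nat_lit 13358) (nat_lit 6) (nat_lit 6))
    (@En.n l8 (nat_lit 12991) (nat_lit 7) (nat_lit 2))
    (@En.i (nat_lit 12990) (nat_lit 9) (nat_lit 10))
    (@En.i (nat_lit 13230) (nat_lit 10) (nat_lit 14))
    (@En.n l1604 (nat_lit 13267) (nat_lit 11) (nat_lit 10))
    (@En.n l3 (nat_lit 12991) (nat_lit 11) (nat_lit 2))
    (@En.i (nat_lit 12992) (nat_lit 13) (nat_lit 10))
    (@En.i (nat_lit 3022) (nat_lit 1) (nat_lit 14))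
    (@En.n l17 (nat_lit 12991) (nat_lit 14) (nat_lit 2))
    (@En.n l18 (nat_lit 12991) (nat_lit 15) (nat_lit 2))))
noncomputable def a812 : T16 Cl := @T16.mk Cl
  (@Cl.mk (nat_lit 0x20002000a000a0009000e0009000200060006000e000700020007000e000e) (nat_lit 0x14467000a00078) (nat_lit 16) Lb.e (@T16.mk En
    (@En.n l5 (nat_lit 12992) (nat_lit 1) (nat_lit 14))
    (@En.n l5037 (nat_lit 2908) (nat_lit 9) (nat_lit 14))
    (@En.n l5038 (nat_lit 13785) (nat_lit 2) (nat_lit 7))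
    (@En.n l28 (nat_lit 12992) (nat_lit 3) (nat_lit 2))
    (@En.n l5039 (nat_lit 12910) (nat_lit 4) (nat_lit 7))
    (@En.n l4931 (nat_lit 13551) (nat_lit 6) (nat_lit 14))
    (@En.n l152 (nat_lit 12991) (nat_lit 6) (nat_lit 6))
    (@En.n l5040 (nat_lit 13540) (nat_lit 7) (nat_lit 6))
    (@En.n l8 (nat_lit 12992) (nat_lit 8) (nat_lit 2))
    (@En.n l417 (nat_lit 12989) (nat_lit 10) (nat_lit 9))
    (@En.n l4931 (nat_lit 13238) (nat_lit 11) (nat_lit 14))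
    (@En.n l5037 (nat_lit 13259) (nat_lit 12) (nat_lit 9))
    (@En.n l5041 (nat_lit 12994) (nat_lit 13) (nat_lit 10))
    (@En.n l5040 (nat_lit 1653) (nat_lit 4) (nat_lit 10))
    (@En.n l17 (nat_lit 12992) (nat_lit 14) (nat_lit 2))
    (@En.n l18 (nat_lit 12992) (nat_lit 15) (nat_lit 2))))
  (@Cl.mk (nat_lit 0x20002000e00090002000a000a000e000b00020007000600060005000e000e) (nat_lit 0x22055870000067) (nat_lit 16) Lb.e (@T16.mk En
    (@En.n l5 (nat_lit 12993) (nat_lit 1) (nat_lit 14))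
    (@En.n l461 (nat_lit 2911) (nat_lit 11) (nat_lit 14))
    (@En.n l462 (nat_lit 12789) (nat_lit 2) (nat_lit 5))
    (@En.n l463 (nat_lit 13100) (nat_lit 3) (nat_lit 6))
    (@En.i (nat_lit 13456) (nat_lit 4) (nat_lit 6))
    (@En.n l117 (nat_lit 13365) (nat_lit 5) (nat_lit 7))
    (@En.n l8 (nat_lit 12993) (nat_lit 6) (nat_lit 2))
    (@En.n l417 (nat_lit 12988) (nat_lit 8) (nat_lit 11))
    (@En.n l464 (nat_lit 13017) (nat_lit 9) (nat_lit 14))
    (@En.n l465 (nat_lit 12991) (nat_lit 10) (nat_lit 10))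
    (@En.n l107 (nat_lit 12962) (nat_lit 11) (nat_lit 10))
    (@En.n l3 (nat_lit 12993) (nat_lit 11) (nat_lit 2))
    (@En.n l466 (nat_lit 12910) (nat_lit 13) (nat_lit 9))
    (@En.i (nat_lit 3023) (nat_lit 1) (nat_lit 14))
    (@En.n l17 (nat_lit 12993) (nat_lit 14) (nat_lit 2))
    (@En.n l18 (nat_lit 12993) (nat_lit 15) (nat_lit 2))))
  (@Cl.mk (nat_lit 0x20002000a0008000e00080002000e00060002000e000800020008000e000e) (nat_lit 0x33550800920056) (nat_lit 16) Lb.e (@T16.mk En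
    (@En.n l601 (nat_lit 12994) (nat_lit 1) (nat_lit 14))
    (@En.i (nat_lit 1898) (nat_lit 1) (nat_lit 14))
    (@En.n l287 (nat_lit 13778) (nat_lit 2) (nat_lit 8))
    (@En.n l11 (nat_lit 12994) (nat_lit 3) (nat_lit 2))
    (@En.i (nat_lit 12905) (nat_lit 4) (nat_lit 8))
    (@En.n l1016 (nat_lit 12876) (nat_lit 6) (nat_lit 14))
    (@En.n l3 (nat_lit 12994) (nat_lit 6) (nat_lit 2))
    (@En.n l12578 (nat_lit 12992) (nat_lit 7) (nat_lit 6))
    (@En.i (nat_lit 12996) (nat_lit 9) (nat_lit 14))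
    (@En.n l17 (nat_lit 12994) (nat_lit 9) (nat_lit 2))
    (@En.n l12579 (nat_lit 12995) (nat_lit 11) (nat_lit 8))
    (@En.n l1014 (nat_lit 13338) (nat_lit 12) (nat_lit 14))
    (@En.i (nat_lit 13289) (nat_lit 13) (nat_lit 8))
    (@En.n l6453 (nat_lit 1650) (nat_lit 10) (nat_lit 10))
    (@En.n l50 (nat_lit 12994) (nat_lit 14) (nat_lit 2))
    (@En.n l7 (nat_lit 12994) (nat_lit 15) (nat_lit 2))))
  (@Cl.mk (nat_lit 0x20002000b000900080008000e00050002000e0007000200080008000e000e) (nat_lit 0x33455001000167) (nat_lit 16) Lb.e (@T16.mk En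
    (@En.n l97 (nat_lit 12995) (nat_lit 1) (nat_lit 14))
    (@En.i (nat_lit 3287) (nat_lit 13) (nat_lit 14))
    (@En.n l4808 (nat_lit 12994) (nat_lit 2) (nat_lit 8))
    (@En.n l12415 (nat_lit 12997) (nat_lit 3) (nat_lit 8))
    (@En.n l18 (nat_lit 12995) (nat_lit 4) (nat_lit 2))
    (@En.n l4564 (nat_lit 12909) (nat_lit 5) (nat_lit 7))
    (@En.n l3229 (nat_lit 721) (nat_lit 7) (nat_lit 14))
    (@En.n l7 (nat_lit 12995) (nat_lit 7) (nat_lit 2))
    (@En.n l4110 (nat_lit 12989) (nat_lit 8) (nat_lit 5))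
    (@En.n l1347 (nat_lit 13477) (nat_lit 10) (nat_lit 14))
    (@En.n l12416 (nat_lit 13478) (nat_lit 11) (nat_lit 8))
    (@En.n l12417 (nat_lit 13494) (nat_lit 12) (nat_lit 8))
    (@En.n l357 (nat_lit 13287) (nat_lit 13) (nat_lit 9))
    (@En.n l12418 (nat_lit 1648) (nat_lit 9) (nat_lit 11))
    (@En.n l107 (nat_lit 12995) (nat_lit 14) (nat_lit 2))
    (@En.n l3 (nat_lit 12995) (nat_lit 15) (nat_lit 2))))
  (@Cl.mk (nat_lit 0x20002000b0008000b0008000e000500020005000e000800020008000e000e) (nat_lit 0x53047000230067) (nat_lit 16) Lb.e (@T16.mk En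
    (@En.n l601 (nat_lit 12996) (nat_lit 1) (nat_lit 14))
    (@En.i (nat_lit 2129) (nat_lit 10) (nat_lit 14))
    (@En.n l287 (nat_lit 13779) (nat_lit 2) (nat_lit 8))
    (@En.n l11 (nat_lit 12996) (nat_lit 3) (nat_lit 2))
    (@En.i (nat_lit 12997) (nat_lit 4) (nat_lit 8))
    (@En.n l10474 (nat_lit 12995) (nat_lit 6) (nat_lit 14))
    (@En.i (nat_lit 12917) (nat_lit 6) (nat_lit 5))
    (@En.n l3 (nat_lit 12996) (nat_lit 7) (nat_lit 2))
    (@En.n l5580 (nat_lit 12998) (nat_lit 8) (nat_lit 5))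
    (@En.n l1803 (nat_lit 14094) (nat_lit 10) (nat_lit 14))
    (@En.n l1723 (nat_lit 13477) (nat_lit 11) (nat_lit 8))
    (@En.n l1803 (nat_lit 14074) (nat_lit 7) (nat_lit 11))
    (@En.i (nat_lit 13293) (nat_lit 13) (nat_lit 8))
    (@En.n l13763 (nat_lit 1407) (nat_lit 10) (nat_lit 11))
    (@En.n l50 (nat_lit 12996) (nat_lit 14) (nat_lit 2))
    (@En.n l7 (nat_lit 12996) (nat_lit 15) (nat_lit 2))))
  (@Cl.mk (nat_lit 0x20002000a00080008000b0009000e000600020005000800080007000e000e) (nat_lit 0x52415700026056) (nat_lit 16) Lb.e (@T16.mk En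
    (@En.n l601 (nat_lit 12997) (nat_lit 1) (nat_lit 14))
    (@En.i (nat_lit 2130) (nat_lit 11) (nat_lit 14))
    (@En.n l1915 (nat_lit 13780) (nat_lit 2) (nat_lit 7))
    (@En.n l3554 (nat_lit 13707) (nat_lit 3) (nat_lit 8))
    (@En.n l1915 (nat_lit 13704) (nat_lit 4) (nat_lit 8))
    (@En.i (nat_lit 12913) (nat_lit 5) (nat_lit 5))
    (@En.n l3 (nat_lit 12997) (nat_lit 6) (nat_lit 2))
    (@En.n l11790 (nat_lit 12999) (nat_lit 7) (nat_lit 6))
    (@En.n l12687 (nat_lit 13709) (nat_lit 9) (nat_lit 14))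
    (@En.n l7245 (nat_lit 13713) (nat_lit 10) (nat_lit 9))
    (@En.n l207 (nat_lit 12996) (nat_lit 11) (nat_lit 11))
    (@En.n l575 (nat_lit 12996) (nat_lit 12) (nat_lit 8))
    (@En.i (nat_lit 13324) (nat_lit 13) (nat_lit 8))
    (@En.n l5066 (nat_lit 1514) (nat_lit 14) (nat_lit 10))
    (@En.n l50 (nat_lit 12997) (nat_lit 14) (nat_lit 2))
    (@En.n l7 (nat_lit 12997) (nat_lit 15) (nat_lit 2))))
  (@Cl.mk (nat_lit 0x20002000b000b0009000c0009000500050004000e000700020007000e000e) (nat_lit 0x26506000a000ab) (nat_lit 16) Lb.e (@T16.mk En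
    (@En.n l5 (nat_lit 12998) (nat_lit 1) (nat_lit 14))
    (@En.n l25349 (nat_lit 2398) (nat_lit 1) (nat_lit 14))
    (@En.n l25787 (nat_lit 13788) (nat_lit 2) (nat_lit 7))
    (@En.n l28 (nat_lit 12998) (nat_lit 3) (nat_lit 2))
    (@En.n l4984 (nat_lit 12999) (nat_lit 4) (nat_lit 7))
    (@En.n l25788 (nat_lit 12989) (nat_lit 6) (nat_lit 14))
    (@En.n l25789 (nat_lit 13545) (nat_lit 6) (nat_lit 4))
    (@En.n l25790 (nat_lit 13001) (nat_lit 7) (nat_lit 5))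
    (@En.n l4980 (nat_lit 13341) (nat_lit 8) (nat_lit 5))
    (@En.n l25605 (nat_lit 13474) (nat_lit 10) (nat_lit 9))
    (@En.n l25791 (nat_lit 14071) (nat_lit 6) (nat_lit 12))
    (@En.n l4980 (nat_lit 13970) (nat_lit 12) (nat_lit 9))
    (@En.n l12876 (nat_lit 12996) (nat_lit 13) (nat_lit 11))
    (@En.i (nat_lit 1989) (nat_lit 10) (nat_lit 11))
    (@En.n l17 (nat_lit 12998) (nat_lit 14) (nat_lit 2))
    (@En.n l18 (nat_lit 12998) (nat_lit 15) (nat_lit 2))))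
  (@Cl.mk (nat_lit 0x20002000a000a00090009000c000a000600060004000700070006000e000e) (nat_lit 0x164617000000ab) (nat_lit 16) Lb.e (@T16.mk En
    (@En.n l97 (nat_lit 12999) (nat_lit 1) (nat_lit 14))
    (@En.n l12708 (nat_lit 2401) (nat_lit 1) (nat_lit 14))
    (@En.n l12709 (nat_lit 13787) (nat_lit 2) (nat_lit 6))
    (@En.n l12710 (nat_lit 13706) (nat_lit 3) (nat_lit 7))
    (@En.n l12711 (nat_lit 13703) (nat_lit 4) (nat_lit 7))
    (@En.n l12712 (nat_lit 13542) (nat_lit 5) (nat_lit 4))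
    (@En.n l12713 (nat_lit 13000) (nat_lit 6) (nat_lit 6))
    (@En.i (nat_lit 13342) (nat_lit 7) (nat_lit 6))
    (@En.n l12714 (nat_lit 13715) (nat_lit 9) (nat_lit 10))
    (@En.n l12715 (nat_lit 12998) (nat_lit 10) (nat_lit 12))
    (@En.n l12716 (nat_lit 12998) (nat_lit 11) (nat_lit 9))
    (@En.i (nat_lit 13971) (nat_lit 12) (nat_lit 9))
    (@En.n l12717 (nat_lit 12997) (nat_lit 13) (nat_lit 10))
    (@En.n l12718 (nat_lit 1984) (nat_lit 14) (nat_lit 10))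
    (@En.n l107 (nat_lit 12999) (nat_lit 14) (nat_lit 2))
    (@En.n l3 (nat_lit 12999) (nat_lit 15) (nat_lit 2))))
  (@Cl.mk (nat_lit 0x20002000e000a0002000a000a000d000b00060003000600060005000e000e) (nat_lit 0xa20450700000bc) (nat_lit 16) Lb.e (@T16.mk En
    (@En.n l97 (nat_lit 13000) (nat_lit 1) (nat_lit 14))
    (@En.i (nat_lit 2105) (nat_lit 1) (nat_lit 14))
    (@En.n l5452 (nat_lit 12828) (nat_lit 2) (nat_lit 5))
    (@En.n l5453 (nat_lit 14053) (nat_lit 3) (nat_lit 6))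
    (@En.n l5452 (nat_lit 12849) (nat_lit 4) (nat_lit 6))
    (@En.n l5454 (nat_lit 14050) (nat_lit 5) (nat_lit 3))
    (@En.n l5455 (nat_lit 13570) (nat_lit 6) (nat_lit 6))
    (@En.i (nat_lit 14049) (nat_lit 8) (nat_lit 11))
    (@En.n l5456 (nat_lit 13001) (nat_lit 9) (nat_lit 13))
    (@En.n l5457 (nat_lit 13001) (nat_lit 10) (nat_lit 10))
    (@En.n l5458 (nat_lit 12872) (nat_lit 11) (nat_lit 10))
    (@En.n l28 (nat_lit 13000) (nat_lit 11) (nat_lit 2))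
    (@En.n l5459 (nat_lit 12999) (nat_lit 13) (nat_lit 10))
    (@En.n l5460 (nat_lit 1274) (nat_lit 1) (nat_lit 14))
    (@En.n l107 (nat_lit 13000) (nat_lit 14) (nat_lit 2))
    (@En.n l3 (nat_lit 13000) (nat_lit 15) (nat_lit 2))))
  (@Cl.mk (nat_lit 0x20002000e000b0002000a000d000a00050003000e000600020006000e000e) (nat_lit 0xb304b800b000bc) (nat_lit 16) Lb.e (@T16.mk En
    (@En.n l5 (nat_lit 13001) (nat_lit 1) (nat_lit 14))
    (@En.n l2571 (nat_lit 4869) (nat_lit 1) (nat_lit 14))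
    (@En.i (nat_lit 12827) (nat_lit 2) (nat_lit 6))
    (@En.n l7 (nat_lit 13001) (nat_lit 3) (nat_lit 2))
    (@En.n l9475 (nat_lit 13000) (nat_lit 4) (nat_lit 6))
    (@En.n l134 (nat_lit 12990) (nat_lit 6) (nat_lit 14))
    (@En.n l624 (nat_lit 14096) (nat_lit 6) (nat_lit 3))
    (@En.n l248 (nat_lit 13571) (nat_lit 7) (nat_lit 5))
    (@En.n l1823 (nat_lit 14097) (nat_lit 9) (nat_lit 10))
    (@En.i (nat_lit 14068) (nat_lit 5) (nat_lit 13))
    (@En.n l253 (nat_lit 13794) (nat_lit 11) (nat_lit 10))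
    (@En.n l3 (nat_lit 13001) (nat_lit 11) (nat_lit 2))
    (@En.n l12111 (nat_lit 12998) (nat_lit 13) (nat_lit 11))
    (@En.i (nat_lit 1275) (nat_lit 1) (nat_lit 14))
    (@En.n l17 (nat_lit 13001) (nat_lit 14) (nat_lit 2))
    (@En.n l18 (nat_lit 13001) (nat_lit 15) (nat_lit 2))))
  (@Cl.mk (nat_lit 0x20002000e00070002000d000c000a0003000e0004000200090006000e000e) (nat_lit 0x200b6701000023) (nat_lit 16) Lb.e (@T16.mk En
    (@En.n l97 (nat_lit 13002) (nat_lit 1) (nat_lit 14))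
    (@En.i (nat_lit 4790) (nat_lit 1) (nat_lit 14))
    (@En.i (nat_lit 12976) (nat_lit 2) (nat_lit 6))
    (@En.n l1372 (nat_lit 13888) (nat_lit 3) (nat_lit 9))
    (@En.n l17 (nat_lit 13002) (nat_lit 4) (nat_lit 2))
    (@En.n l50 (nat_lit 12851) (nat_lit 5) (nat_lit 4))
    (@En.n l5 (nat_lit 941) (nat_lit 7) (nat_lit 14))
    (@En.n l50 (nat_lit 13003) (nat_lit 7) (nat_lit 3))
    (@En.i (nat_lit 13100) (nat_lit 9) (nat_lit 10))
    (@En.n l217 (nat_lit 12853) (nat_lit 10) (nat_lit 12))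
    (@En.n l601 (nat_lit 13954) (nat_lit 11) (nat_lit 13))
    (@En.n l28 (nat_lit 13002) (nat_lit 11) (nat_lit 2))
    (@En.n l1373 (nat_lit 13006) (nat_lit 13) (nat_lit 7))
    (@En.n l590 (nat_lit 3638) (nat_lit 1) (nat_lit 14))
    (@En.n l107 (nat_lit 13002) (nat_lit 14) (nat_lit 2))
    (@En.n l3 (nat_lit 13002) (nat_lit 15) (nat_lit 2))))
  (@Cl.mk (nat_lit 0x20002000e00070002000d0009000d0003000e0003000200090007000e000e) (nat_lit 0x100a5703000023) (nat_lit 16) Lb.e (@T16.mk En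
    (@En.n l97 (nat_lit 13003) (nat_lit 1) (nat_lit 14))
    (@En.i (nat_lit 4789) (nat_lit 13) (nat_lit 14))
    (@En.i (nat_lit 12979) (nat_lit 2) (nat_lit 7))
    (@En.i (nat_lit 13889) (nat_lit 3) (nat_lit 9))
    (@En.n l17 (nat_lit 13003) (nat_lit 4) (nat_lit 2))
    (@En.i (nat_lit 12853) (nat_lit 5) (nat_lit 3))
    (@En.i (nat_lit 14058) (nat_lit 0) (nat_lit 14))
    (@En.i (nat_lit 13002) (nat_lit 7) (nat_lit 3))
    (@En.n l1856 (nat_lit 12859) (nat_lit 9) (nat_lit 13))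
    (@En.i (nat_lit 13044) (nat_lit 10) (nat_lit 9))
    (@En.n l601 (nat_lit 13956) (nat_lit 11) (nat_lit 13))
    (@En.n l28 (nat_lit 13003) (nat_lit 11) (nat_lit 2))
    (@En.n l1373 (nat_lit 13004) (nat_lit 13) (nat_lit 7))
    (@En.n l590 (nat_lit 3602) (nat_lit 1) (nat_lit 14))
    (@En.n l107 (nat_lit 13003) (nat_lit 14) (nat_lit 2))
    (@En.n l3 (nat_lit 13003) (nat_lit 15) (nat_lit 2))))
  (@Cl.mk (nat_lit 0x2000200070007000d0008000d0003000e00030002000900090008000e000e) (nat_lit 0xb570300212bc) (nat_lit 16) Lb.e (@T16.mk En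
    (@En.n l1578 (nat_lit 13004) (nat_lit 1) (nat_lit 14))
    (@En.i (nat_lit 4793) (nat_lit 12) (nat_lit 14))
    (@En.n l4758 (nat_lit 13731) (nat_lit 2) (nat_lit 8))
    (@En.n l3062 (nat_lit 13003) (nat_lit 3) (nat_lit 9))
    (@En.i (nat_lit 12873) (nat_lit 4) (nat_lit 9))
    (@En.n l17 (nat_lit 13004) (nat_lit 5) (nat_lit 2))
    (@En.i (nat_lit 13005) (nat_lit 6) (nat_lit 3))
    (@En.i (nat_lit 14059) (nat_lit 0) (nat_lit 14))
    (@En.i (nat_lit 13006) (nat_lit 8) (nat_lit 3))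
    (@En.n l11727 (nat_lit 13701) (nat_lit 10) (nat_lit 13))
    (@En.n l7471 (nat_lit 12786) (nat_lit 11) (nat_lit 8))
    (@En.n l476 (nat_lit 13957) (nat_lit 12) (nat_lit 13))
    (@En.n l152 (nat_lit 13010) (nat_lit 13) (nat_lit 7))
    (@En.i (nat_lit 828) (nat_lit 14) (nat_lit 7))
    (@En.n l28 (nat_lit 13004) (nat_lit 14) (nat_lit 2))
    (@En.n l11 (nat_lit 13004) (nat_lit 15) (nat_lit 2))))
  (@Cl.mk (nat_lit 0x2000200070007000c0008000d000d000400030003000900090008000e000e) (nat_lit 0x5578000112bc) (nat_lit 16) Lb.e (@T16.mk En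
    (@En.n l1578 (nat_lit 13005) (nat_lit 1) (nat_lit 14))
    (@En.i (nat_lit 4682) (nat_lit 1) (nat_lit 14))
    (@En.n l4758 (nat_lit 13732) (nat_lit 2) (nat_lit 8))
    (@En.n l3062 (nat_lit 12853) (nat_lit 3) (nat_lit 9))
    (@En.n l11792 (nat_lit 12874) (nat_lit 4) (nat_lit 9))
    (@En.n l3519 (nat_lit 13008) (nat_lit 5) (nat_lit 3))
    (@En.n l18 (nat_lit 13004) (nat_lit 6) (nat_lit 3))
    (@En.n l11793 (nat_lit 13745) (nat_lit 7) (nat_lit 4))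
    (@En.n l61 (nat_lit 13004) (nat_lit 9) (nat_lit 13))
    (@En.n l11794 (nat_lit 13698) (nat_lit 10) (nat_lit 13))
    (@En.n l892 (nat_lit 12784) (nat_lit 11) (nat_lit 8))
    (@En.n l3517 (nat_lit 13334) (nat_lit 12) (nat_lit 12))
    (@En.n l152 (nat_lit 13009) (nat_lit 13) (nat_lit 7))
    (@En.i (nat_lit 830) (nat_lit 14) (nat_lit 7))
    (@En.n l28 (nat_lit 13005) (nat_lit 14) (nat_lit 2))
    (@En.n l11 (nat_lit 13005) (nat_lit 15) (nat_lit 2))))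
  (@Cl.mk (nat_lit 0x2000200070007000d000c00090003000e00040002000900090007000e000e) (nat_lit 0xa650100110bc) (nat_lit 16) Lb.e (@T16.mk En
    (@En.n l1578 (nat_lit 13006) (nat_lit 1) (nat_lit 14))
    (@En.i (nat_lit 4794) (nat_lit 12) (nat_lit 14))
    (@En.n l1262 (nat_lit 13719) (nat_lit 2) (nat_lit 7))
    (@En.n l3062 (nat_lit 13002) (nat_lit 3) (nat_lit 9))
    (@En.n l4403 (nat_lit 12870) (nat_lit 4) (nat_lit 9))
    (@En.n l17 (nat_lit 13006) (nat_lit 5) (nat_lit 2))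
    (@En.n l1262 (nat_lit 13007) (nat_lit 6) (nat_lit 4))
    (@En.n l998 (nat_lit 937) (nat_lit 8) (nat_lit 14))
    (@En.n l50 (nat_lit 13004) (nat_lit 8) (nat_lit 3))
    (@En.n l1262 (nat_lit 12907) (nat_lit 10) (nat_lit 9))
    (@En.n l217 (nat_lit 13005) (nat_lit 11) (nat_lit 12))
    (@En.n l476 (nat_lit 13839) (nat_lit 12) (nat_lit 13))
    (@En.n l152 (nat_lit 13011) (nat_lit 13) (nat_lit 7))
    (@En.i (nat_lit 826) (nat_lit 14) (nat_lit 7))
    (@En.n l28 (nat_lit 13006) (nat_lit 14) (nat_lit 2))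
    (@En.n l11 (nat_lit 13006) (nat_lit 15) (nat_lit 2))))
  (@Cl.mk (nat_lit 0x2000200070007000c000c000c000a000400040004000900090006000e000e) (nat_lit 0x467700001023) (nat_lit 16) Lb.e (@T16.mk En
    (@En.n l5 (nat_lit 13007) (nat_lit 1) (nat_lit 14))
    (@En.n l4509 (nat_lit 4735) (nat_lit 1) (nat_lit 14))
    (@En.i (nat_lit 13720) (nat_lit 2) (nat_lit 6))
    (@En.n l4510 (nat_lit 12851) (nat_lit 3) (nat_lit 9))
    (@En.n l4511 (nat_lit 13904) (nat_lit 4) (nat_lit 9))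
    (@En.n l2309 (nat_lit 13744) (nat_lit 5) (nat_lit 4))
    (@En.n l11 (nat_lit 13898) (nat_lit 6) (nat_lit 4))
    (@En.n l4509 (nat_lit 13005) (nat_lit 7) (nat_lit 4))
    (@En.n l77 (nat_lit 13691) (nat_lit 9) (nat_lit 10))
    (@En.n l4512 (nat_lit 13006) (nat_lit 10) (nat_lit 12))
    (@En.n l4513 (nat_lit 13745) (nat_lit 11) (nat_lit 12))
    (@En.n l4514 (nat_lit 13330) (nat_lit 12) (nat_lit 12))
    (@En.n l4515 (nat_lit 13012) (nat_lit 13) (nat_lit 7))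
    (@En.i (nat_lit 2221) (nat_lit 14) (nat_lit 7))
    (@En.n l17 (nat_lit 13007) (nat_lit 14) (nat_lit 2))
    (@En.n l18 (nat_lit 13007) (nat_lit 15) (nat_lit 2))))
noncomputable def a813 : T16 Cl := @T16.mk Cl
  (@Cl.mk (nat_lit 0x2000200070007000b0008000e000d000200050003000900090008000e000e) (nat_lit 0x556800001223) (nat_lit 16) Lb.e (@T16.mk En
    (@En.n l601 (nat_lit 13008) (nat_lit 1) (nat_lit 14))
    (@En.i (nat_lit 4736) (nat_lit 10) (nat_lit 14))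
    (@En.n l6393 (nat_lit 13810) (nat_lit 2) (nat_lit 8))
    (@En.n l11906 (nat_lit 12852) (nat_lit 3) (nat_lit 9))
    (@En.i (nat_lit 13484) (nat_lit 4) (nat_lit 9))
    (@En.n l2832 (nat_lit 13005) (nat_lit 5) (nat_lit 3))
    (@En.n l10280 (nat_lit 13747) (nat_lit 6) (nat_lit 5))
    (@En.n l3 (nat_lit 13008) (nat_lit 7) (nat_lit 2))
    (@En.n l4130 (nat_lit 13005) (nat_lit 9) (nat_lit 13))
    (@En.i (nat_lit 13744) (nat_lit 10) (nat_lit 14))
    (@En.n l1724 (nat_lit 12785) (nat_lit 11) (nat_lit 8))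
    (@En.i (nat_lit 13292) (nat_lit 12) (nat_lit 11))
    (@En.n l5552 (nat_lit 13013) (nat_lit 13) (nat_lit 7))
    (@En.i (nat_lit 2658) (nat_lit 5) (nat_lit 7))
    (@En.n l50 (nat_lit 13008) (nat_lit 14) (nat_lit 2))
    (@En.n l7 (nat_lit 13008) (nat_lit 15) (nat_lit 2))))
  (@Cl.mk (nat_lit 0x200020007000c0007000d000d000400030003000e000900020009000e000e) (nat_lit 0x4066000a20034) (nat_lit 16) Lb.e (@T16.mk En
    (@En.n l1578 (nat_lit 13009) (nat_lit 1) (nat_lit 14))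
    (@En.i (nat_lit 4600) (nat_lit 1) (nat_lit 14))
    (@En.i (nat_lit 13119) (nat_lit 2) (nat_lit 9))
    (@En.n l3 (nat_lit 13009) (nat_lit 3) (nat_lit 2))
    (@En.i (nat_lit 13005) (nat_lit 4) (nat_lit 9))
    (@En.i (nat_lit 13773) (nat_lit 6) (nat_lit 14))
    (@En.n l5808 (nat_lit 13013) (nat_lit 6) (nat_lit 3))
    (@En.n l18 (nat_lit 13010) (nat_lit 7) (nat_lit 3))
    (@En.n l947 (nat_lit 13014) (nat_lit 8) (nat_lit 4))
    (@En.n l61 (nat_lit 13010) (nat_lit 10) (nat_lit 13))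
    (@En.n l1353 (nat_lit 13696) (nat_lit 11) (nat_lit 13))
    (@En.n l892 (nat_lit 12787) (nat_lit 12) (nat_lit 7))
    (@En.n l892 (nat_lit 13565) (nat_lit 13) (nat_lit 12))
    (@En.i (nat_lit 2253) (nat_lit 14) (nat_lit 7))
    (@En.n l28 (nat_lit 13009) (nat_lit 14) (nat_lit 2))
    (@En.n l11 (nat_lit 13009) (nat_lit 15) (nat_lit 2))))
  (@Cl.mk (nat_lit 0x200020007000d0007000d0003000e00030002000e000900020009000e000e) (nat_lit 0xa050300a30034) (nat_lit 16) Lb.e (@T16.mk En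
    (@En.n l1578 (nat_lit 13010) (nat_lit 1) (nat_lit 14))
    (@En.i (nat_lit 4841) (nat_lit 1) (nat_lit 14))
    (@En.i (nat_lit 13118) (nat_lit 2) (nat_lit 9))
    (@En.n l3 (nat_lit 13010) (nat_lit 3) (nat_lit 2))
    (@En.i (nat_lit 13004) (nat_lit 4) (nat_lit 9))
    (@En.i (nat_lit 13775) (nat_lit 6) (nat_lit 14))
    (@En.n l17 (nat_lit 13010) (nat_lit 6) (nat_lit 2))
    (@En.i (nat_lit 13009) (nat_lit 7) (nat_lit 3))
    (@En.i (nat_lit 14060) (nat_lit 0) (nat_lit 14))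
    (@En.i (nat_lit 13011) (nat_lit 9) (nat_lit 3))
    (@En.i (nat_lit 13697) (nat_lit 11) (nat_lit 13))
    (@En.n l7471 (nat_lit 12790) (nat_lit 12) (nat_lit 7))
    (@En.i (nat_lit 13566) (nat_lit 13) (nat_lit 13))
    (@En.i (nat_lit 2254) (nat_lit 14) (nat_lit 7))
    (@En.n l28 (nat_lit 13010) (nat_lit 14) (nat_lit 2))
    (@En.n l11 (nat_lit 13010) (nat_lit 15) (nat_lit 2))))
  (@Cl.mk (nat_lit 0x200020007000d000c00080003000e00040002000e000900020008000e000e) (nat_lit 0xb550100b20423) (nat_lit 16) Lb.e (@T16.mk En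
    (@En.n l1578 (nat_lit 13011) (nat_lit 1) (nat_lit 14))
    (@En.i (nat_lit 4840) (nat_lit 1) (nat_lit 14))
    (@En.i (nat_lit 13117) (nat_lit 2) (nat_lit 8))
    (@En.n l3 (nat_lit 13011) (nat_lit 3) (nat_lit 2))
    (@En.i (nat_lit 13006) (nat_lit 4) (nat_lit 9))
    (@En.i (nat_lit 13776) (nat_lit 6) (nat_lit 14))
    (@En.n l17 (nat_lit 13011) (nat_lit 6) (nat_lit 2))
    (@En.n l50 (nat_lit 13012) (nat_lit 7) (nat_lit 4))
    (@En.n l998 (nat_lit 943) (nat_lit 9) (nat_lit 14))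
    (@En.n l50 (nat_lit 13010) (nat_lit 9) (nat_lit 3))
    (@En.i (nat_lit 12906) (nat_lit 11) (nat_lit 8))
    (@En.n l217 (nat_lit 13009) (nat_lit 12) (nat_lit 12))
    (@En.i (nat_lit 13571) (nat_lit 13) (nat_lit 13))
    (@En.i (nat_lit 2252) (nat_lit 14) (nat_lit 7))
    (@En.n l28 (nat_lit 13011) (nat_lit 14) (nat_lit 2))
    (@En.n l11 (nat_lit 13011) (nat_lit 15) (nat_lit 2))))
  (@Cl.mk (nat_lit 0x200020007000c000c000c0009000400040004000e000900020007000e000e) (nat_lit 0x3566000a10023) (nat_lit 16) Lb.e (@T16.mk En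
    (@En.n l1578 (nat_lit 13012) (nat_lit 1) (nat_lit 14))
    (@En.i (nat_lit 4731) (nat_lit 1) (nat_lit 14))
    (@En.n l798 (nat_lit 13610) (nat_lit 2) (nat_lit 7))
    (@En.n l3 (nat_lit 13012) (nat_lit 3) (nat_lit 2))
    (@En.n l5643 (nat_lit 13007) (nat_lit 4) (nat_lit 9))
    (@En.i (nat_lit 13757) (nat_lit 6) (nat_lit 14))
    (@En.n l1778 (nat_lit 13015) (nat_lit 6) (nat_lit 4))
    (@En.n l12035 (nat_lit 13899) (nat_lit 7) (nat_lit 4))
    (@En.i (nat_lit 13009) (nat_lit 8) (nat_lit 4))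
    (@En.n l2588 (nat_lit 13693) (nat_lit 10) (nat_lit 9))
    (@En.n l742 (nat_lit 13011) (nat_lit 11) (nat_lit 12))
    (@En.n l5913 (nat_lit 13014) (nat_lit 12) (nat_lit 12))
    (@En.n l892 (nat_lit 13364) (nat_lit 13) (nat_lit 12))
    (@En.i (nat_lit 2251) (nat_lit 14) (nat_lit 7))
    (@En.n l28 (nat_lit 13012) (nat_lit 14) (nat_lit 2))
    (@En.n l11 (nat_lit 13012) (nat_lit 15) (nat_lit 2))))
  (@Cl.mk (nat_lit 0x200020007000b0007000e000d000200050003000e000900020009000e000e) (nat_lit 0x4057000a10023) (nat_lit 16) Lb.e (@T16.mk En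
    (@En.n l5 (nat_lit 13013) (nat_lit 1) (nat_lit 14))
    (@En.n l420 (nat_lit 4730) (nat_lit 9) (nat_lit 14))
    (@En.n l25975 (nat_lit 13122) (nat_lit 2) (nat_lit 9))
    (@En.n l28 (nat_lit 13013) (nat_lit 3) (nat_lit 2))
    (@En.n l6295 (nat_lit 13008) (nat_lit 4) (nat_lit 9))
    (@En.n l4869 (nat_lit 12927) (nat_lit 6) (nat_lit 14))
    (@En.n l8118 (nat_lit 13009) (nat_lit 6) (nat_lit 3))
    (@En.n l4670 (nat_lit 13755) (nat_lit 7) (nat_lit 5))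
    (@En.n l3 (nat_lit 13013) (nat_lit 8) (nat_lit 2))
    (@En.n l5022 (nat_lit 13009) (nat_lit 10) (nat_lit 13))
    (@En.n l420 (nat_lit 13015) (nat_lit 11) (nat_lit 14))
    (@En.i (nat_lit 12791) (nat_lit 12) (nat_lit 7))
    (@En.i (nat_lit 14102) (nat_lit 13) (nat_lit 11))
    (@En.n l420 (nat_lit 2257) (nat_lit 4) (nat_lit 7))
    (@En.n l17 (nat_lit 13013) (nat_lit 14) (nat_lit 2))
    (@En.n l18 (nat_lit 13013) (nat_lit 15) (nat_lit 2))))
  (@Cl.mk (nat_lit 0x200020007000c000b0008000e000400020005000e000900020008000e000e) (nat_lit 0x4555000900434) (nat_lit 16) Lb.e (@T16.mk En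
    (@En.n l601 (nat_lit 13014) (nat_lit 1) (nat_lit 14))
    (@En.i (nat_lit 4728) (nat_lit 10) (nat_lit 14))
    (@En.i (nat_lit 13609) (nat_lit 2) (nat_lit 8))
    (@En.n l11 (nat_lit 13014) (nat_lit 3) (nat_lit 2))
    (@En.n l13114 (nat_lit 13745) (nat_lit 4) (nat_lit 9))
    (@En.n l5552 (nat_lit 13772) (nat_lit 6) (nat_lit 14))
    (@En.n l253 (nat_lit 13749) (nat_lit 6) (nat_lit 5))
    (@En.n l3 (nat_lit 13014) (nat_lit 7) (nat_lit 2))
    (@En.n l3323 (nat_lit 13012) (nat_lit 8) (nat_lit 4))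
    (@En.i (nat_lit 13699) (nat_lit 10) (nat_lit 14))
    (@En.n l1723 (nat_lit 13694) (nat_lit 11) (nat_lit 8))
    (@En.n l12586 (nat_lit 13013) (nat_lit 12) (nat_lit 11))
    (@En.i (nat_lit 13355) (nat_lit 13) (nat_lit 12))
    (@En.i (nat_lit 2278) (nat_lit 5) (nat_lit 7))
    (@En.n l50 (nat_lit 13014) (nat_lit 14) (nat_lit 2))
    (@En.n l7 (nat_lit 13014) (nat_lit 15) (nat_lit 2))))
  (@Cl.mk (nat_lit 0x200020007000b000e000c0002000a00050004000e000900020006000e000e) (nat_lit 0x2460800a00034) (nat_lit 16) Lb.e (@T16.mk En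
    (@En.n l396 (nat_lit 13015) (nat_lit 1) (nat_lit 14))
    (@En.i (nat_lit 4729) (nat_lit 8) (nat_lit 14))
    (@En.n l766 (nat_lit 13614) (nat_lit 2) (nat_lit 6))
    (@En.n l28 (nat_lit 13015) (nat_lit 3) (nat_lit 2))
    (@En.n l287 (nat_lit 13744) (nat_lit 4) (nat_lit 9))
    (@En.n l1253 (nat_lit 12932) (nat_lit 6) (nat_lit 14))
    (@En.n l11610 (nat_lit 13696) (nat_lit 6) (nat_lit 4))
    (@En.n l387 (nat_lit 13013) (nat_lit 7) (nat_lit 5))
    (@En.n l2571 (nat_lit 13773) (nat_lit 9) (nat_lit 10))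
    (@En.n l3 (nat_lit 13015) (nat_lit 9) (nat_lit 2))
    (@En.n l2213 (nat_lit 13012) (nat_lit 11) (nat_lit 12))
    (@En.i (nat_lit 13754) (nat_lit 12) (nat_lit 14))
    (@En.n l387 (nat_lit 14100) (nat_lit 13) (nat_lit 11))
    (@En.i (nat_lit 2320) (nat_lit 14) (nat_lit 7))
    (@En.n l18 (nat_lit 13015) (nat_lit 14) (nat_lit 2))
    (@En.n l50 (nat_lit 13015) (nat_lit 15) (nat_lit 2))))
  (@Cl.mk (nat_lit 0x20002000e000a0002000b000a000a000d00060005000300060006000e000e) (nat_lit 0x72035780000023) (nat_lit 16) Lb.e (@T16.mk En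
    (@En.n l5 (nat_lit 13016) (nat_lit 1) (nat_lit 14))
    (@En.n l420 (nat_lit 1593) (nat_lit 1) (nat_lit 14))
    (@En.n l343 (nat_lit 13017) (nat_lit 2) (nat_lit 6))
    (@En.n l1462 (nat_lit 12993) (nat_lit 3) (nat_lit 6))
    (@En.i (nat_lit 12896) (nat_lit 4) (nat_lit 3))
    (@En.n l1463 (nat_lit 13019) (nat_lit 5) (nat_lit 5))
    (@En.n l117 (nat_lit 14006) (nat_lit 6) (nat_lit 6))
    (@En.n l8 (nat_lit 13018) (nat_lit 8) (nat_lit 13))
    (@En.n l77 (nat_lit 13018) (nat_lit 9) (nat_lit 10))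
    (@En.i (nat_lit 13111) (nat_lit 10) (nat_lit 10))
    (@En.i (nat_lit 12880) (nat_lit 11) (nat_lit 11))
    (@En.n l3 (nat_lit 13016) (nat_lit 11) (nat_lit 2))
    (@En.i (nat_lit 12887) (nat_lit 13) (nat_lit 10))
    (@En.i (nat_lit 2484) (nat_lit 1) (nat_lit 14))
    (@En.n l17 (nat_lit 13016) (nat_lit 14) (nat_lit 2))
    (@En.n l18 (nat_lit 13016) (nat_lit 15) (nat_lit 2))))
  (@Cl.mk (nat_lit 0x20002000e00090002000a000e000a0002000d0007000600030006000e000e) (nat_lit 0x62037609000012) (nat_lit 16) Lb.e (@T16.mk En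
    (@En.n l5 (nat_lit 13017) (nat_lit 1) (nat_lit 14))
    (@En.n l591 (nat_lit 1388) (nat_lit 1) (nat_lit 14))
    (@En.n l592 (nat_lit 13044) (nat_lit 2) (nat_lit 6))
    (@En.n l593 (nat_lit 12898) (nat_lit 3) (nat_lit 3))
    (@En.n l594 (nat_lit 13023) (nat_lit 4) (nat_lit 6))
    (@En.n l595 (nat_lit 14024) (nat_lit 5) (nat_lit 7))
    (@En.n l55 (nat_lit 13016) (nat_lit 7) (nat_lit 13))
    (@En.n l8 (nat_lit 13017) (nat_lit 7) (nat_lit 2))
    (@En.n l127 (nat_lit 13016) (nat_lit 9) (nat_lit 10))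
    (@En.i (nat_lit 13229) (nat_lit 10) (nat_lit 14))
    (@En.n l591 (nat_lit 12878) (nat_lit 11) (nat_lit 10))
    (@En.n l3 (nat_lit 13017) (nat_lit 11) (nat_lit 2))
    (@En.n l596 (nat_lit 12888) (nat_lit 13) (nat_lit 9))
    (@En.i (nat_lit 2485) (nat_lit 1) (nat_lit 14))
    (@En.n l17 (nat_lit 13017) (nat_lit 14) (nat_lit 2))
    (@En.n l18 (nat_lit 13017) (nat_lit 15) (nat_lit 2))))
  (@Cl.mk (nat_lit 0x20002000e000b0002000c000a000d000500040003000e00060002000e000e) (nat_lit 0x820367000b0012) (nat_lit 16) Lb.e (@T16.mk En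
    (@En.n l5 (nat_lit 13018) (nat_lit 1) (nat_lit 14))
    (@En.n l420 (nat_lit 1009) (nat_lit 1) (nat_lit 14))
    (@En.n l7 (nat_lit 13018) (nat_lit 2) (nat_lit 2))
    (@En.i (nat_lit 13016) (nat_lit 3) (nat_lit 6))
    (@En.n l427 (nat_lit 12976) (nat_lit 5) (nat_lit 14))
    (@En.i (nat_lit 12895) (nat_lit 5) (nat_lit 3))
    (@En.n l428 (nat_lit 13021) (nat_lit 6) (nat_lit 4))
    (@En.n l427 (nat_lit 13399) (nat_lit 7) (nat_lit 5))
    (@En.i (nat_lit 14111) (nat_lit 9) (nat_lit 13))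
    (@En.i (nat_lit 13112) (nat_lit 10) (nat_lit 10))
    (@En.i (nat_lit 12883) (nat_lit 11) (nat_lit 12))
    (@En.n l3 (nat_lit 13018) (nat_lit 11) (nat_lit 2))
    (@En.i (nat_lit 12889) (nat_lit 13) (nat_lit 11))
    (@En.i (nat_lit 2487) (nat_lit 1) (nat_lit 14))
    (@En.n l17 (nat_lit 13018) (nat_lit 14) (nat_lit 2))
    (@En.n l18 (nat_lit 13018) (nat_lit 15) (nat_lit 2))))
  (@Cl.mk (nat_lit 0x20002000e000d0002000b0003000b000b000e0005000200050005000e000e) (nat_lit 0x79030670000012) (nat_lit 16) Lb.e (@T16.mk En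
    (@En.n l68 (nat_lit 13019) (nat_lit 1) (nat_lit 14))
    (@En.i (nat_lit 1597) (nat_lit 13) (nat_lit 14))
    (@En.n l1443 (nat_lit 13023) (nat_lit 2) (nat_lit 5))
    (@En.n l1444 (nat_lit 13456) (nat_lit 3) (nat_lit 5))
    (@En.n l17 (nat_lit 13019) (nat_lit 4) (nat_lit 2))
    (@En.n l1444 (nat_lit 13376) (nat_lit 5) (nat_lit 5))
    (@En.n l1445 (nat_lit 13021) (nat_lit 7) (nat_lit 14))
    (@En.n l575 (nat_lit 13021) (nat_lit 8) (nat_lit 11))
    (@En.n l1446 (nat_lit 12854) (nat_lit 9) (nat_lit 11))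
    (@En.n l1447 (nat_lit 13020) (nat_lit 9) (nat_lit 3))
    (@En.n l1448 (nat_lit 12882) (nat_lit 11) (nat_lit 11))
    (@En.n l7 (nat_lit 13019) (nat_lit 11) (nat_lit 2))
    (@En.n l1449 (nat_lit 13020) (nat_lit 13) (nat_lit 13))
    (@En.n l1450 (nat_lit 2633) (nat_lit 9) (nat_lit 14))
    (@En.n l11 (nat_lit 13019) (nat_lit 14) (nat_lit 2))
    (@En.n l67 (nat_lit 13019) (nat_lit 15) (nat_lit 2))))
  (@Cl.mk (nat_lit 0x20002000d000d000a00030003000b000b000e0006000200050005000e000e) (nat_lit 0x88300870000012) (nat_lit 16) Lb.e (@T16.mk En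
    (@En.n l5 (nat_lit 13020) (nat_lit 1) (nat_lit 14))
    (@En.n l1463 (nat_lit 974) (nat_lit 13) (nat_lit 14))
    (@En.n l4577 (nat_lit 13024) (nat_lit 2) (nat_lit 5))
    (@En.n l4578 (nat_lit 13452) (nat_lit 3) (nat_lit 5))
    (@En.n l11 (nat_lit 13020) (nat_lit 4) (nat_lit 2))
    (@En.n l4578 (nat_lit 13318) (nat_lit 5) (nat_lit 6))
    (@En.n l8 (nat_lit 13022) (nat_lit 7) (nat_lit 14))
    (@En.n l77 (nat_lit 13022) (nat_lit 8) (nat_lit 11))
    (@En.i (nat_lit 13482) (nat_lit 9) (nat_lit 11))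
    (@En.n l4579 (nat_lit 13019) (nat_lit 9) (nat_lit 3))
    (@En.n l4580 (nat_lit 13025) (nat_lit 10) (nat_lit 3))
    (@En.i (nat_lit 13016) (nat_lit 12) (nat_lit 10))
    (@En.n l4581 (nat_lit 13025) (nat_lit 13) (nat_lit 13))
    (@En.i (nat_lit 1283) (nat_lit 9) (nat_lit 13))
    (@En.n l17 (nat_lit 13020) (nat_lit 14) (nat_lit 2))
    (@En.n l18 (nat_lit 13020) (nat_lit 15) (nat_lit 2))))
  (@Cl.mk (nat_lit 0x20002000e000d0002000c0003000b000e00040002000e00050002000e000e) (nat_lit 0x290606c00c0034) (nat_lit 16) Lb.e (@T16.mk En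
    (@En.n l1482 (nat_lit 13021) (nat_lit 1) (nat_lit 14))
    (@En.i (nat_lit 2719) (nat_lit 1) (nat_lit 14))
    (@En.n l936 (nat_lit 13021) (nat_lit 2) (nat_lit 2))
    (@En.n l1483 (nat_lit 13019) (nat_lit 3) (nat_lit 5))
    (@En.n l1484 (nat_lit 13459) (nat_lit 5) (nat_lit 14))
    (@En.n l17 (nat_lit 13021) (nat_lit 5) (nat_lit 2))
    (@En.n l1485 (nat_lit 13366) (nat_lit 6) (nat_lit 4))
    (@En.n l1486 (nat_lit 14106) (nat_lit 8) (nat_lit 14))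
    (@En.i (nat_lit 12856) (nat_lit 9) (nat_lit 11))
    (@En.n l1487 (nat_lit 13022) (nat_lit 9) (nat_lit 3))
    (@En.n l1488 (nat_lit 12885) (nat_lit 11) (nat_lit 12))
    (@En.n l7 (nat_lit 13021) (nat_lit 11) (nat_lit 2))
    (@En.n l1488 (nat_lit 13022) (nat_lit 13) (nat_lit 13))
    (@En.n l1489 (nat_lit 2710) (nat_lit 1) (nat_lit 14))
    (@En.n l11 (nat_lit 13021) (nat_lit 14) (nat_lit 2))
    (@En.n l1157 (nat_lit 13021) (nat_lit 15) (nat_lit 2))))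
  (@Cl.mk (nat_lit 0x20002000d000d000b00030003000b000e00050002000e00050002000e000e) (nat_lit 0x8a3006c00a0012) (nat_lit 16) Lb.e (@T16.mk En
    (@En.n l5 (nat_lit 13022) (nat_lit 1) (nat_lit 14))
    (@En.n l428 (nat_lit 975) (nat_lit 1) (nat_lit 14))
    (@En.n l7 (nat_lit 13022) (nat_lit 2) (nat_lit 2))
    (@En.i (nat_lit 13020) (nat_lit 3) (nat_lit 5))
    (@En.n l1500 (nat_lit 13457) (nat_lit 5) (nat_lit 14))
    (@En.n l11 (nat_lit 13022) (nat_lit 5) (nat_lit 2))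
    (@En.n l1500 (nat_lit 13319) (nat_lit 6) (nat_lit 5))
    (@En.n l1501 (nat_lit 14107) (nat_lit 8) (nat_lit 14))
    (@En.i (nat_lit 13480) (nat_lit 9) (nat_lit 11))
    (@En.n l1502 (nat_lit 13021) (nat_lit 9) (nat_lit 3))
    (@En.n l1500 (nat_lit 13027) (nat_lit 10) (nat_lit 3))
    (@En.i (nat_lit 13018) (nat_lit 12) (nat_lit 11))
    (@En.n l1503 (nat_lit 13027) (nat_lit 13) (nat_lit 13))
    (@En.n l1501 (nat_lit 1347) (nat_lit 14) (nat_lit 13))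
    (@En.n l17 (nat_lit 13022) (nat_lit 14) (nat_lit 2))
    (@En.n l18 (nat_lit 13022) (nat_lit 15) (nat_lit 2))))
  (@Cl.mk (nat_lit 0x20002000e000d0002000a0003000e000b0002000e000600020005000e000e) (nat_lit 0x17050870100067) (nat_lit 16) Lb.e (@T16.mk En
    (@En.n l5 (nat_lit 13023) (nat_lit 1) (nat_lit 14))
    (@En.n l504 (nat_lit 1840) (nat_lit 1) (nat_lit 14))
    (@En.n l126 (nat_lit 13460) (nat_lit 2) (nat_lit 5))
    (@En.n l12 (nat_lit 13023) (nat_lit 3) (nat_lit 2))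
    (@En.n l126 (nat_lit 13378) (nat_lit 4) (nat_lit 6))
    (@En.n l505 (nat_lit 13019) (nat_lit 6) (nat_lit 14))
    (@En.n l8 (nat_lit 13023) (nat_lit 6) (nat_lit 2))
    (@En.n l506 (nat_lit 13019) (nat_lit 8) (nat_lit 11))
    (@En.n l507 (nat_lit 12991) (nat_lit 9) (nat_lit 14))
    (@En.n l508 (nat_lit 13024) (nat_lit 9) (nat_lit 3))
    (@En.n l509 (nat_lit 12881) (nat_lit 11) (nat_lit 10))
    (@En.n l3 (nat_lit 13023) (nat_lit 11) (nat_lit 2))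
    (@En.n l510 (nat_lit 13024) (nat_lit 13) (nat_lit 13))
    (@En.n l511 (nat_lit 2631) (nat_lit 1) (nat_lit 14))
    (@En.n l17 (nat_lit 13023) (nat_lit 14) (nat_lit 2))
    (@En.n l18 (nat_lit 13023) (nat_lit 15) (nat_lit 2))))
noncomputable def a814 : T16 Cl := @T16.mk Cl
  (@Cl.mk (nat_lit 0x20002000d000d000900030003000e000b0002000e000700020005000e000e) (nat_lit 0x68300890100089) (nat_lit 16) Lb.e (@T16.mk En
    (@En.n l97 (nat_lit 13024) (nat_lit 1) (nat_lit 14))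
    (@En.n l913 (nat_lit 1838) (nat_lit 1) (nat_lit 14))
    (@En.i (nat_lit 13445) (nat_lit 2) (nat_lit 5))
    (@En.n l12 (nat_lit 13024) (nat_lit 3) (nat_lit 2))
    (@En.n l1711 (nat_lit 13377) (nat_lit 4) (nat_lit 7))
    (@En.n l1712 (nat_lit 13020) (nat_lit 6) (nat_lit 14))
    (@En.n l18 (nat_lit 13024) (nat_lit 6) (nat_lit 2))
    (@En.n l1713 (nat_lit 13020) (nat_lit 8) (nat_lit 11))
    (@En.n l1714 (nat_lit 13227) (nat_lit 9) (nat_lit 14))
    (@En.n l1715 (nat_lit 13023) (nat_lit 9) (nat_lit 3))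
    (@En.i (nat_lit 13026) (nat_lit 10) (nat_lit 3))
    (@En.n l1716 (nat_lit 13017) (nat_lit 12) (nat_lit 9))
    (@En.n l134 (nat_lit 13026) (nat_lit 13) (nat_lit 13))
    (@En.n l1717 (nat_lit 1382) (nat_lit 10) (nat_lit 13))
    (@En.n l107 (nat_lit 13024) (nat_lit 14) (nat_lit 2))
    (@En.n l3 (nat_lit 13024) (nat_lit 15) (nat_lit 2))))
  (@Cl.mk (nat_lit 0x20002000d0009000e00030002000b000b000e0007000200050005000e000e) (nat_lit 0x7330087000009a) (nat_lit 16) Lb.e (@T16.mk En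
    (@En.n l97 (nat_lit 13025) (nat_lit 1) (nat_lit 14))
    (@En.i (nat_lit 1596) (nat_lit 13) (nat_lit 14))
    (@En.n l1464 (nat_lit 13026) (nat_lit 2) (nat_lit 5))
    (@En.n l1465 (nat_lit 13451) (nat_lit 3) (nat_lit 5))
    (@En.n l12 (nat_lit 13025) (nat_lit 4) (nat_lit 2))
    (@En.n l1466 (nat_lit 13379) (nat_lit 5) (nat_lit 7))
    (@En.i (nat_lit 13027) (nat_lit 7) (nat_lit 14))
    (@En.n l362 (nat_lit 13027) (nat_lit 8) (nat_lit 11))
    (@En.n l1467 (nat_lit 13481) (nat_lit 9) (nat_lit 11))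
    (@En.n l7 (nat_lit 13025) (nat_lit 9) (nat_lit 2))
    (@En.n l1468 (nat_lit 13020) (nat_lit 10) (nat_lit 3))
    (@En.n l136 (nat_lit 14115) (nat_lit 0) (nat_lit 14))
    (@En.n l1466 (nat_lit 13028) (nat_lit 13) (nat_lit 9))
    (@En.n l1469 (nat_lit 1249) (nat_lit 9) (nat_lit 13))
    (@En.n l107 (nat_lit 13025) (nat_lit 14) (nat_lit 2))
    (@En.n l3 (nat_lit 13025) (nat_lit 15) (nat_lit 2))))
  (@Cl.mk (nat_lit 0x20002000d0008000e00030002000e000b0002000e000800020005000e000e) (nat_lit 0x7350089014009a) (nat_lit 16) Lb.e (@T16.mk En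
    (@En.n l97 (nat_lit 13026) (nat_lit 1) (nat_lit 14))
    (@En.n l1659 (nat_lit 1839) (nat_lit 1) (nat_lit 14))
    (@En.i (nat_lit 13443) (nat_lit 2) (nat_lit 5))
    (@En.n l12 (nat_lit 13026) (nat_lit 3) (nat_lit 2))
    (@En.n l1660 (nat_lit 13450) (nat_lit 4) (nat_lit 8))
    (@En.n l1661 (nat_lit 13025) (nat_lit 6) (nat_lit 14))
    (@En.n l18 (nat_lit 13026) (nat_lit 6) (nat_lit 2))
    (@En.n l1662 (nat_lit 13025) (nat_lit 8) (nat_lit 11))
    (@En.n l564 (nat_lit 13226) (nat_lit 9) (nat_lit 14))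
    (@En.n l7 (nat_lit 13026) (nat_lit 9) (nat_lit 2))
    (@En.n l28 (nat_lit 13024) (nat_lit 10) (nat_lit 3))
    (@En.n l1663 (nat_lit 14117) (nat_lit 0) (nat_lit 14))
    (@En.n l357 (nat_lit 13029) (nat_lit 13) (nat_lit 8))
    (@En.n l1664 (nat_lit 1255) (nat_lit 10) (nat_lit 13))
    (@En.n l107 (nat_lit 13026) (nat_lit 14) (nat_lit 2))
    (@En.n l3 (nat_lit 13026) (nat_lit 15) (nat_lit 2))))
  (@Cl.mk (nat_lit 0x20002000d000a000e00030002000b000e00060002000e00050002000e000e) (nat_lit 0x934006c00b009a) (nat_lit 16) Lb.e (@T16.mk En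
    (@En.n l97 (nat_lit 13027) (nat_lit 1) (nat_lit 14))
    (@En.i (nat_lit 2726) (nat_lit 1) (nat_lit 14))
    (@En.n l17 (nat_lit 13027) (nat_lit 2) (nat_lit 2))
    (@En.n l429 (nat_lit 13025) (nat_lit 3) (nat_lit 5))
    (@En.i (nat_lit 13458) (nat_lit 5) (nat_lit 14))
    (@En.n l12 (nat_lit 13027) (nat_lit 5) (nat_lit 2))
    (@En.i (nat_lit 13394) (nat_lit 6) (nat_lit 6))
    (@En.n l430 (nat_lit 14116) (nat_lit 8) (nat_lit 14))
    (@En.n l431 (nat_lit 13479) (nat_lit 9) (nat_lit 11))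
    (@En.n l7 (nat_lit 13027) (nat_lit 9) (nat_lit 2))
    (@En.n l432 (nat_lit 13022) (nat_lit 10) (nat_lit 3))
    (@En.n l431 (nat_lit 14116) (nat_lit 0) (nat_lit 14))
    (@En.n l433 (nat_lit 13030) (nat_lit 13) (nat_lit 10))
    (@En.n l434 (nat_lit 1333) (nat_lit 14) (nat_lit 13))
    (@En.n l107 (nat_lit 13027) (nat_lit 14) (nat_lit 2))
    (@En.n l3 (nat_lit 13027) (nat_lit 15) (nat_lit 2))))
  (@Cl.mk (nat_lit 0x200020009000e000a0002000a000a000d00070006000300060006000e000e) (nat_lit 0x2a206780000023) (nat_lit 16) Lb.e (@T16.mk En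
    (@En.n l5 (nat_lit 13028) (nat_lit 1) (nat_lit 14))
    (@En.n l4586 (nat_lit 1594) (nat_lit 1) (nat_lit 14))
    (@En.n l4587 (nat_lit 13029) (nat_lit 2) (nat_lit 6))
    (@En.n l158 (nat_lit 13463) (nat_lit 3) (nat_lit 6))
    (@En.n l4588 (nat_lit 12882) (nat_lit 4) (nat_lit 3))
    (@En.n l1474 (nat_lit 13020) (nat_lit 5) (nat_lit 6))
    (@En.i (nat_lit 13548) (nat_lit 6) (nat_lit 7))
    (@En.n l4334 (nat_lit 13030) (nat_lit 8) (nat_lit 13))
    (@En.n l134 (nat_lit 13030) (nat_lit 9) (nat_lit 10))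
    (@En.n l1477 (nat_lit 13861) (nat_lit 10) (nat_lit 10))
    (@En.n l107 (nat_lit 13028) (nat_lit 10) (nat_lit 2))
    (@En.n l1477 (nat_lit 12887) (nat_lit 12) (nat_lit 10))
    (@En.n l1456 (nat_lit 12896) (nat_lit 13) (nat_lit 14))
    (@En.i (nat_lit 1784) (nat_lit 2) (nat_lit 9))
    (@En.n l17 (nat_lit 13028) (nat_lit 14) (nat_lit 2))
    (@En.n l18 (nat_lit 13028) (nat_lit 15) (nat_lit 2))))
  (@Cl.mk (nat_lit 0x200020008000e00090002000e000a0002000d0008000700030006000e000e) (nat_lit 0x29207709400034) (nat_lit 16) Lb.e (@T16.mk En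
    (@En.n l5 (nat_lit 13029) (nat_lit 1) (nat_lit 14))
    (@En.n l1725 (nat_lit 1816) (nat_lit 1) (nat_lit 14))
    (@En.i (nat_lit 12862) (nat_lit 2) (nat_lit 6))
    (@En.n l590 (nat_lit 12881) (nat_lit 3) (nat_lit 3))
    (@En.n l108 (nat_lit 13024) (nat_lit 4) (nat_lit 7))
    (@En.n l1599 (nat_lit 13550) (nat_lit 5) (nat_lit 8))
    (@En.n l1726 (nat_lit 13028) (nat_lit 7) (nat_lit 13))
    (@En.n l11 (nat_lit 13029) (nat_lit 7) (nat_lit 2))
    (@En.n l175 (nat_lit 13028) (nat_lit 9) (nat_lit 10))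
    (@En.n l1727 (nat_lit 13222) (nat_lit 10) (nat_lit 14))
    (@En.n l3 (nat_lit 13029) (nat_lit 10) (nat_lit 2))
    (@En.n l1728 (nat_lit 12888) (nat_lit 12) (nat_lit 9))
    (@En.n l313 (nat_lit 12898) (nat_lit 13) (nat_lit 14))
    (@En.n l1729 (nat_lit 1809) (nat_lit 14) (nat_lit 8))
    (@En.n l17 (nat_lit 13029) (nat_lit 14) (nat_lit 2))
    (@En.n l18 (nat_lit 13029) (nat_lit 15) (nat_lit 2))))
  (@Cl.mk (nat_lit 0x20002000a000e000b0002000a000d000600050003000e00060002000e000e) (nat_lit 0x2b5067000a0012) (nat_lit 16) Lb.e (@T16.mk En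
    (@En.n l5 (nat_lit 13030) (nat_lit 1) (nat_lit 14))
    (@En.n l542 (nat_lit 355) (nat_lit 1) (nat_lit 14))
    (@En.n l7 (nat_lit 13030) (nat_lit 2) (nat_lit 2))
    (@En.n l28 (nat_lit 13028) (nat_lit 3) (nat_lit 6))
    (@En.n l1504 (nat_lit 13031) (nat_lit 5) (nat_lit 14))
    (@En.n l1505 (nat_lit 12885) (nat_lit 5) (nat_lit 3))
    (@En.n l1506 (nat_lit 13022) (nat_lit 6) (nat_lit 5))
    (@En.i (nat_lit 13405) (nat_lit 7) (nat_lit 6))
    (@En.n l158 (nat_lit 14109) (nat_lit 9) (nat_lit 13))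
    (@En.n l182 (nat_lit 13863) (nat_lit 10) (nat_lit 10))
    (@En.n l107 (nat_lit 13030) (nat_lit 10) (nat_lit 2))
    (@En.n l1507 (nat_lit 12889) (nat_lit 12) (nat_lit 11))
    (@En.n l182 (nat_lit 12895) (nat_lit 13) (nat_lit 14))
    (@En.i (nat_lit 1783) (nat_lit 2) (nat_lit 10))
    (@En.n l17 (nat_lit 13030) (nat_lit 14) (nat_lit 2))
    (@En.n l18 (nat_lit 13030) (nat_lit 15) (nat_lit 2))))
  (@Cl.mk (nat_lit 0x20002000a000e000b0002000b000a00060005000e000500020006000e000e) (nat_lit 0x23506600900078) (nat_lit 16) Lb.e (@T16.mk En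
    (@En.n l5 (nat_lit 13031) (nat_lit 1) (nat_lit 14))
    (@En.n l108 (nat_lit 4476) (nat_lit 1) (nat_lit 14))
    (@En.n l4411 (nat_lit 13028) (nat_lit 2) (nat_lit 6))
    (@En.n l28 (nat_lit 13031) (nat_lit 3) (nat_lit 2))
    (@En.n l394 (nat_lit 13462) (nat_lit 4) (nat_lit 5))
    (@En.n l4412 (nat_lit 13959) (nat_lit 6) (nat_lit 14))
    (@En.n l108 (nat_lit 13457) (nat_lit 6) (nat_lit 5))
    (@En.n l108 (nat_lit 13497) (nat_lit 7) (nat_lit 6))
    (@En.i (nat_lit 13032) (nat_lit 9) (nat_lit 10))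
    (@En.n l1385 (nat_lit 13973) (nat_lit 10) (nat_lit 11))
    (@En.n l3 (nat_lit 13031) (nat_lit 10) (nat_lit 2))
    (@En.n l4413 (nat_lit 12975) (nat_lit 12) (nat_lit 11))
    (@En.i (nat_lit 12930) (nat_lit 13) (nat_lit 14))
    (@En.i (nat_lit 1864) (nat_lit 10) (nat_lit 10))
    (@En.n l17 (nat_lit 13031) (nat_lit 14) (nat_lit 2))
    (@En.n l18 (nat_lit 13031) (nat_lit 15) (nat_lit 2))))
  (@Cl.mk (nat_lit 0x20002000b000e000c0002000a00050004000e000d000200060003000e000e) (nat_lit 0x2350500a900034) (nat_lit 16) Lb.e (@T16.mk En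
    (@En.n l5 (nat_lit 13032) (nat_lit 1) (nat_lit 14))
    (@En.i (nat_lit 3522) (nat_lit 1) (nat_lit 14))
    (@En.n l28 (nat_lit 13033) (nat_lit 2) (nat_lit 3))
    (@En.n l175 (nat_lit 13030) (nat_lit 3) (nat_lit 6))
    (@En.n l28 (nat_lit 13032) (nat_lit 4) (nat_lit 2))
    (@En.n l77 (nat_lit 13033) (nat_lit 6) (nat_lit 13))
    (@En.n l174 (nat_lit 13088) (nat_lit 7) (nat_lit 14))
    (@En.n l114 (nat_lit 13060) (nat_lit 7) (nat_lit 4))
    (@En.i (nat_lit 13038) (nat_lit 8) (nat_lit 5))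
    (@En.n l13 (nat_lit 14025) (nat_lit 10) (nat_lit 10))
    (@En.n l3 (nat_lit 13032) (nat_lit 10) (nat_lit 2))
    (@En.i (nat_lit 13034) (nat_lit 12) (nat_lit 12))
    (@En.i (nat_lit 13375) (nat_lit 13) (nat_lit 14))
    (@En.i (nat_lit 4165) (nat_lit 9) (nat_lit 11))
    (@En.n l17 (nat_lit 13032) (nat_lit 14) (nat_lit 2))
    (@En.n l18 (nat_lit 13032) (nat_lit 15) (nat_lit 2))))
  (@Cl.mk (nat_lit 0x20002000b000e000c0002000b00050004000d000d000500030003000e000e) (nat_lit 0x34505008a00045) (nat_lit 16) Lb.e (@T16.mk En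
    (@En.n l5 (nat_lit 13033) (nat_lit 1) (nat_lit 14))
    (@En.n l414 (nat_lit 3835) (nat_lit 1) (nat_lit 14))
    (@En.n l237 (nat_lit 13032) (nat_lit 2) (nat_lit 3))
    (@En.i (nat_lit 13036) (nat_lit 3) (nat_lit 3))
    (@En.n l55 (nat_lit 13031) (nat_lit 4) (nat_lit 5))
    (@En.n l134 (nat_lit 13036) (nat_lit 6) (nat_lit 13))
    (@En.n l11 (nat_lit 13961) (nat_lit 7) (nat_lit 13))
    (@En.n l1441 (nat_lit 13062) (nat_lit 7) (nat_lit 4))
    (@En.i (nat_lit 13037) (nat_lit 8) (nat_lit 5))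
    (@En.n l1442 (nat_lit 13406) (nat_lit 10) (nat_lit 11))
    (@En.n l3 (nat_lit 13033) (nat_lit 10) (nat_lit 2))
    (@En.i (nat_lit 13035) (nat_lit 12) (nat_lit 12))
    (@En.n l415 (nat_lit 13367) (nat_lit 13) (nat_lit 14))
    (@En.i (nat_lit 3674) (nat_lit 2) (nat_lit 11))
    (@En.n l17 (nat_lit 13033) (nat_lit 14) (nat_lit 2))
    (@En.n l18 (nat_lit 13033) (nat_lit 15) (nat_lit 2))))
  (@Cl.mk (nat_lit 0x20002000c000c000c0009000400040004000e000d000200070003000e000e) (nat_lit 0x2434000a800034) (nat_lit 16) Lb.e (@T16.mk En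
    (@En.n l5 (nat_lit 13034) (nat_lit 1) (nat_lit 14))
    (@En.n l549 (nat_lit 3520) (nat_lit 1) (nat_lit 14))
    (@En.n l28 (nat_lit 13035) (nat_lit 2) (nat_lit 3))
    (@En.n l550 (nat_lit 12889) (nat_lit 3) (nat_lit 7))
    (@En.n l28 (nat_lit 13034) (nat_lit 4) (nat_lit 2))
    (@En.n l77 (nat_lit 13035) (nat_lit 6) (nat_lit 13))
    (@En.n l551 (nat_lit 13377) (nat_lit 7) (nat_lit 14))
    (@En.n l152 (nat_lit 13032) (nat_lit 7) (nat_lit 4))
    (@En.n l552 (nat_lit 13086) (nat_lit 8) (nat_lit 4))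
    (@En.i (nat_lit 13039) (nat_lit 9) (nat_lit 4))
    (@En.n l550 (nat_lit 13452) (nat_lit 11) (nat_lit 9))
    (@En.n l148 (nat_lit 13078) (nat_lit 12) (nat_lit 12))
    (@En.n l493 (nat_lit 13058) (nat_lit 13) (nat_lit 12))
    (@En.i (nat_lit 4161) (nat_lit 9) (nat_lit 12))
    (@En.n l17 (nat_lit 13034) (nat_lit 14) (nat_lit 2))
    (@En.n l18 (nat_lit 13034) (nat_lit 15) (nat_lit 2))))
  (@Cl.mk (nat_lit 0x20002000c000c000c000a000400040004000d000d000600030003000e000e) (nat_lit 0x24360007900045) (nat_lit 16) Lb.e (@T16.mk En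
    (@En.n l5 (nat_lit 13035) (nat_lit 1) (nat_lit 14))
    (@En.n l1591 (nat_lit 3823) (nat_lit 1) (nat_lit 14))
    (@En.n l237 (nat_lit 13034) (nat_lit 2) (nat_lit 3))
    (@En.n l551 (nat_lit 13072) (nat_lit 3) (nat_lit 3))
    (@En.n l1591 (nat_lit 12975) (nat_lit 4) (nat_lit 6))
    (@En.n l1799 (nat_lit 13072) (nat_lit 6) (nat_lit 13))
    (@En.n l1594 (nat_lit 13312) (nat_lit 7) (nat_lit 13))
    (@En.n l152 (nat_lit 13033) (nat_lit 7) (nat_lit 4))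
    (@En.n l1593 (nat_lit 13069) (nat_lit 8) (nat_lit 4))
    (@En.n l1800 (nat_lit 13040) (nat_lit 9) (nat_lit 4))
    (@En.n l1801 (nat_lit 13454) (nat_lit 11) (nat_lit 10))
    (@En.n l1802 (nat_lit 13073) (nat_lit 12) (nat_lit 12))
    (@En.n l493 (nat_lit 13043) (nat_lit 13) (nat_lit 12))
    (@En.i (nat_lit 4157) (nat_lit 14) (nat_lit 12))
    (@En.n l17 (nat_lit 13035) (nat_lit 14) (nat_lit 2))
    (@En.n l18 (nat_lit 13035) (nat_lit 15) (nat_lit 2))))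
  (@Cl.mk (nat_lit 0x20002000b000e000c0002000c00050004000d0004000e00030002000e000e) (nat_lit 0x335060090c0045) (nat_lit 16) Lb.e (@T16.mk En
    (@En.n l5 (nat_lit 13036) (nat_lit 1) (nat_lit 14))
    (@En.n l4372 (nat_lit 3584) (nat_lit 1) (nat_lit 14))
    (@En.n l7 (nat_lit 13036) (nat_lit 2) (nat_lit 2))
    (@En.n l28 (nat_lit 13033) (nat_lit 3) (nat_lit 3))
    (@En.n l561 (nat_lit 14073) (nat_lit 0) (nat_lit 14))
    (@En.n l11 (nat_lit 13422) (nat_lit 5) (nat_lit 4))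
    (@En.n l4373 (nat_lit 13963) (nat_lit 7) (nat_lit 13))
    (@En.n l407 (nat_lit 13063) (nat_lit 7) (nat_lit 4))
    (@En.i (nat_lit 13041) (nat_lit 8) (nat_lit 5))
    (@En.n l561 (nat_lit 13395) (nat_lit 10) (nat_lit 12))
    (@En.n l3 (nat_lit 13036) (nat_lit 10) (nat_lit 2))
    (@En.n l551 (nat_lit 13072) (nat_lit 12) (nat_lit 12))
    (@En.n l1360 (nat_lit 13369) (nat_lit 13) (nat_lit 14))
    (@En.n l238 (nat_lit 4164) (nat_lit 2) (nat_lit 11))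
    (@En.n l17 (nat_lit 13036) (nat_lit 14) (nat_lit 2))
    (@En.n l18 (nat_lit 13036) (nat_lit 15) (nat_lit 2))))
  (@Cl.mk (nat_lit 0x20002000b0008000e000d000200050003000d000d000800030003000e000e) (nat_lit 0x23560008910045) (nat_lit 16) Lb.e (@T16.mk En
    (@En.n l5 (nat_lit 13037) (nat_lit 1) (nat_lit 14))
    (@En.n l414 (nat_lit 3838) (nat_lit 8) (nat_lit 14))
    (@En.n l237 (nat_lit 13038) (nat_lit 2) (nat_lit 3))
    (@En.i (nat_lit 13041) (nat_lit 3) (nat_lit 3))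
    (@En.n l55 (nat_lit 12948) (nat_lit 4) (nat_lit 8))
    (@En.n l134 (nat_lit 13041) (nat_lit 6) (nat_lit 13))
    (@En.n l11 (nat_lit 13964) (nat_lit 7) (nat_lit 13))
    (@En.n l1451 (nat_lit 13040) (nat_lit 7) (nat_lit 3))
    (@En.i (nat_lit 13372) (nat_lit 8) (nat_lit 5))
    (@En.n l3 (nat_lit 13037) (nat_lit 9) (nat_lit 2))
    (@En.n l1800 (nat_lit 13040) (nat_lit 11) (nat_lit 13))
    (@En.n l12 (nat_lit 13033) (nat_lit 12) (nat_lit 14))
    (@En.i (nat_lit 13425) (nat_lit 13) (nat_lit 8))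
    (@En.i (nat_lit 5376) (nat_lit 3) (nat_lit 11))
    (@En.n l17 (nat_lit 13037) (nat_lit 14) (nat_lit 2))
    (@En.n l18 (nat_lit 13037) (nat_lit 15) (nat_lit 2))))
  (@Cl.mk (nat_lit 0x20002000b0007000e000d000200050003000e000d000200090003000e000e) (nat_lit 0x2045000a902034) (nat_lit 16) Lb.e (@T16.mk En
    (@En.n l5 (nat_lit 13038) (nat_lit 1) (nat_lit 14))
    (@En.n l985 (nat_lit 3513) (nat_lit 8) (nat_lit 14))
    (@En.n l28 (nat_lit 13037) (nat_lit 2) (nat_lit 3))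
    (@En.n l175 (nat_lit 720) (nat_lit 3) (nat_lit 9))
    (@En.n l28 (nat_lit 13038) (nat_lit 4) (nat_lit 2))
    (@En.n l77 (nat_lit 13037) (nat_lit 6) (nat_lit 13))
    (@En.n l519 (nat_lit 13089) (nat_lit 7) (nat_lit 14))
    (@En.n l117 (nat_lit 13039) (nat_lit 7) (nat_lit 3))
    (@En.i (nat_lit 13374) (nat_lit 8) (nat_lit 5))
    (@En.n l3 (nat_lit 13038) (nat_lit 9) (nat_lit 2))
    (@En.i (nat_lit 13039) (nat_lit 11) (nat_lit 13))
    (@En.n l12 (nat_lit 13032) (nat_lit 12) (nat_lit 14))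
    (@En.i (nat_lit 14029) (nat_lit 13) (nat_lit 7))
    (@En.n l491 (nat_lit 5380) (nat_lit 3) (nat_lit 11))
    (@En.n l17 (nat_lit 13038) (nat_lit 14) (nat_lit 2))
    (@En.n l18 (nat_lit 13038) (nat_lit 15) (nat_lit 2))))
  (@Cl.mk (nat_lit 0x20002000c0007000d000d000400030003000e000d000200090003000e000e) (nat_lit 0x10450009901034) (nat_lit 16) Lb.e (@T16.mk En
    (@En.n l5 (nat_lit 13039) (nat_lit 1) (nat_lit 14))
    (@En.n l549 (nat_lit 3512) (nat_lit 1) (nat_lit 14))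
    (@En.n l1821 (nat_lit 13040) (nat_lit 2) (nat_lit 3))
    (@En.n l475 (nat_lit 715) (nat_lit 3) (nat_lit 9))
    (@En.n l28 (nat_lit 13039) (nat_lit 4) (nat_lit 2))
    (@En.n l1689 (nat_lit 13040) (nat_lit 6) (nat_lit 13))
    (@En.n l476 (nat_lit 14025) (nat_lit 7) (nat_lit 14))
    (@En.n l152 (nat_lit 13038) (nat_lit 7) (nat_lit 3))
    (@En.n l146 (nat_lit 13077) (nat_lit 8) (nat_lit 3))
    (@En.n l97 (nat_lit 13058) (nat_lit 9) (nat_lit 4))
    (@En.n l148 (nat_lit 13077) (nat_lit 11) (nat_lit 13))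
    (@En.n l567 (nat_lit 13060) (nat_lit 12) (nat_lit 13))
    (@En.i (nat_lit 14027) (nat_lit 13) (nat_lit 7))
    (@En.n l1822 (nat_lit 5138) (nat_lit 9) (nat_lit 12))
    (@En.n l17 (nat_lit 13039) (nat_lit 14) (nat_lit 2))
    (@En.n l18 (nat_lit 13039) (nat_lit 15) (nat_lit 2))))
noncomputable def a815 : T16 Cl := @T16.mk Cl
  (@Cl.mk (nat_lit 0x20002000c0008000d000d000400030003000d000d000800030003000e000e) (nat_lit 0x13540008950045) (nat_lit 16) Lb.e (@T16.mk En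
    (@En.n l97 (nat_lit 13040) (nat_lit 1) (nat_lit 14))
    (@En.i (nat_lit 3789) (nat_lit 1) (nat_lit 14))
    (@En.n l1693 (nat_lit 13039) (nat_lit 2) (nat_lit 3))
    (@En.n l18 (nat_lit 13042) (nat_lit 3) (nat_lit 3))
    (@En.n l5391 (nat_lit 12949) (nat_lit 4) (nat_lit 8))
    (@En.n l61 (nat_lit 13042) (nat_lit 6) (nat_lit 13))
    (@En.n l1388 (nat_lit 13991) (nat_lit 7) (nat_lit 13))
    (@En.n l4573 (nat_lit 13037) (nat_lit 7) (nat_lit 3))
    (@En.n l5392 (nat_lit 13076) (nat_lit 8) (nat_lit 3))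
    (@En.n l1431 (nat_lit 13043) (nat_lit 9) (nat_lit 4))
    (@En.n l5393 (nat_lit 13076) (nat_lit 11) (nat_lit 13))
    (@En.n l4366 (nat_lit 13062) (nat_lit 12) (nat_lit 13))
    (@En.n l4571 (nat_lit 13426) (nat_lit 13) (nat_lit 8))
    (@En.n l4366 (nat_lit 5137) (nat_lit 14) (nat_lit 12))
    (@En.n l107 (nat_lit 13040) (nat_lit 14) (nat_lit 2))
    (@En.n l3 (nat_lit 13040) (nat_lit 15) (nat_lit 2))))
  (@Cl.mk (nat_lit 0x20002000b0009000e000d000200050003000d0007000e00030002000e000e) (nat_lit 0x234500080c0045) (nat_lit 16) Lb.e (@T16.mk En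
    (@En.n l5 (nat_lit 13041) (nat_lit 1) (nat_lit 14))
    (@En.n l542 (nat_lit 3837) (nat_lit 1) (nat_lit 14))
    (@En.n l7 (nat_lit 13041) (nat_lit 2) (nat_lit 2))
    (@En.n l28 (nat_lit 13037) (nat_lit 3) (nat_lit 3))
    (@En.n l542 (nat_lit 14078) (nat_lit 0) (nat_lit 14))
    (@En.i (nat_lit 13408) (nat_lit 5) (nat_lit 7))
    (@En.n l4375 (nat_lit 13965) (nat_lit 7) (nat_lit 13))
    (@En.n l1424 (nat_lit 13042) (nat_lit 7) (nat_lit 3))
    (@En.i (nat_lit 13371) (nat_lit 8) (nat_lit 5))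
    (@En.n l3 (nat_lit 13041) (nat_lit 9) (nat_lit 2))
    (@En.n l1821 (nat_lit 13042) (nat_lit 11) (nat_lit 13))
    (@En.n l12 (nat_lit 13036) (nat_lit 12) (nat_lit 14))
    (@En.i (nat_lit 13423) (nat_lit 13) (nat_lit 9))
    (@En.i (nat_lit 5377) (nat_lit 3) (nat_lit 11))
    (@En.n l17 (nat_lit 13041) (nat_lit 14) (nat_lit 2))
    (@En.n l18 (nat_lit 13041) (nat_lit 15) (nat_lit 2))))
  (@Cl.mk (nat_lit 0x20002000c0009000d000d000400030003000d0007000e00030002000e000e) (nat_lit 0x144400080c0045) (nat_lit 16) Lb.e (@T16.mk En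
    (@En.n l97 (nat_lit 13042) (nat_lit 1) (nat_lit 14))
    (@En.i (nat_lit 3839) (nat_lit 1) (nat_lit 14))
    (@En.n l17 (nat_lit 13042) (nat_lit 2) (nat_lit 2))
    (@En.i (nat_lit 13040) (nat_lit 3) (nat_lit 3))
    (@En.i (nat_lit 14075) (nat_lit 0) (nat_lit 14))
    (@En.n l612 (nat_lit 12954) (nat_lit 5) (nat_lit 7))
    (@En.n l1388 (nat_lit 13989) (nat_lit 7) (nat_lit 13))
    (@En.n l1497 (nat_lit 13041) (nat_lit 7) (nat_lit 3))
    (@En.n l1722 (nat_lit 13075) (nat_lit 8) (nat_lit 3))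
    (@En.i (nat_lit 13380) (nat_lit 9) (nat_lit 4))
    (@En.n l2593 (nat_lit 13075) (nat_lit 11) (nat_lit 13))
    (@En.i (nat_lit 13063) (nat_lit 12) (nat_lit 13))
    (@En.n l11740 (nat_lit 13424) (nat_lit 13) (nat_lit 9))
    (@En.i (nat_lit 4166) (nat_lit 14) (nat_lit 12))
    (@En.n l107 (nat_lit 13042) (nat_lit 14) (nat_lit 2))
    (@En.n l3 (nat_lit 13042) (nat_lit 15) (nat_lit 2))))
  (@Cl.mk (nat_lit 0x20002000c000b0009000e000400020005000d000d000700030003000e000e) (nat_lit 0x33340008a000bc) (nat_lit 16) Lb.e (@T16.mk En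
    (@En.n l5 (nat_lit 13043) (nat_lit 1) (nat_lit 14))
    (@En.n l406 (nat_lit 3840) (nat_lit 9) (nat_lit 14))
    (@En.n l237 (nat_lit 13058) (nat_lit 2) (nat_lit 3))
    (@En.n l1424 (nat_lit 13380) (nat_lit 3) (nat_lit 3))
    (@En.n l406 (nat_lit 12947) (nat_lit 4) (nat_lit 7))
    (@En.n l1425 (nat_lit 13380) (nat_lit 6) (nat_lit 13))
    (@En.n l1426 (nat_lit 13438) (nat_lit 7) (nat_lit 13))
    (@En.n l489 (nat_lit 13370) (nat_lit 7) (nat_lit 5))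
    (@En.n l3 (nat_lit 13043) (nat_lit 8) (nat_lit 2))
    (@En.n l490 (nat_lit 13035) (nat_lit 9) (nat_lit 4))
    (@En.n l12 (nat_lit 13059) (nat_lit 11) (nat_lit 14))
    (@En.n l1427 (nat_lit 13453) (nat_lit 12) (nat_lit 9))
    (@En.i (nat_lit 13037) (nat_lit 13) (nat_lit 11))
    (@En.n l1428 (nat_lit 1112) (nat_lit 14) (nat_lit 12))
    (@En.n l17 (nat_lit 13043) (nat_lit 14) (nat_lit 2))
    (@En.n l18 (nat_lit 13043) (nat_lit 15) (nat_lit 2))))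
  (@Cl.mk (nat_lit 0x20002000e000800020009000d000a000e00030002000800070006000e000e) (nat_lit 0x1304468005009a) (nat_lit 16) Lb.e (@T16.mk En
    (@En.n l97 (nat_lit 13044) (nat_lit 1) (nat_lit 14))
    (@En.n l803 (nat_lit 5498) (nat_lit 12) (nat_lit 14))
    (@En.n l644 (nat_lit 13002) (nat_lit 2) (nat_lit 6))
    (@En.n l1374 (nat_lit 13460) (nat_lit 3) (nat_lit 7))
    (@En.n l1891 (nat_lit 14011) (nat_lit 4) (nat_lit 8))
    (@En.n l17 (nat_lit 13044) (nat_lit 5) (nat_lit 2))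
    (@En.n l1375 (nat_lit 12789) (nat_lit 6) (nat_lit 3))
    (@En.i (nat_lit 13824) (nat_lit 0) (nat_lit 14))
    (@En.n l103 (nat_lit 12993) (nat_lit 9) (nat_lit 10))
    (@En.n l803 (nat_lit 12821) (nat_lit 10) (nat_lit 13))
    (@En.n l1892 (nat_lit 13047) (nat_lit 11) (nat_lit 9))
    (@En.n l28 (nat_lit 13044) (nat_lit 11) (nat_lit 2))
    (@En.n l1893 (nat_lit 12786) (nat_lit 13) (nat_lit 8))
    (@En.n l1894 (nat_lit 3235) (nat_lit 1) (nat_lit 14))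
    (@En.n l107 (nat_lit 13044) (nat_lit 14) (nat_lit 2))
    (@En.n l3 (nat_lit 13044) (nat_lit 15) (nat_lit 2))))
  (@Cl.mk (nat_lit 0x200020006000e00090002000d000a000e000300020007000a0006000e000e) (nat_lit 0x2405670004012) (nat_lit 16) Lb.e (@T16.mk En
    (@En.n l5 (nat_lit 13045) (nat_lit 1) (nat_lit 14))
    (@En.n l1393 (nat_lit 920) (nat_lit 12) (nat_lit 14))
    (@En.n l4412 (nat_lit 13959) (nat_lit 2) (nat_lit 6))
    (@En.n l1599 (nat_lit 14072) (nat_lit 3) (nat_lit 10))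
    (@En.n l1599 (nat_lit 13054) (nat_lit 4) (nat_lit 7))
    (@En.n l28 (nat_lit 13045) (nat_lit 5) (nat_lit 2))
    (@En.n l11 (nat_lit 13048) (nat_lit 6) (nat_lit 3))
    (@En.n l5267 (nat_lit 13822) (nat_lit 8) (nat_lit 14))
    (@En.n l175 (nat_lit 12963) (nat_lit 9) (nat_lit 10))
    (@En.n l5242 (nat_lit 13737) (nat_lit 10) (nat_lit 13))
    (@En.n l3 (nat_lit 13045) (nat_lit 10) (nat_lit 2))
    (@En.n l5012 (nat_lit 13047) (nat_lit 12) (nat_lit 9))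
    (@En.n l395 (nat_lit 13044) (nat_lit 13) (nat_lit 14))
    (@En.n l2568 (nat_lit 922) (nat_lit 14) (nat_lit 6))
    (@En.n l17 (nat_lit 13045) (nat_lit 14) (nat_lit 2))
    (@En.n l18 (nat_lit 13045) (nat_lit 15) (nat_lit 2))))
  (@Cl.mk (nat_lit 0x20002000600090009000d000d000a0003000300070007000a0006000e000e) (nat_lit 0x4346800005012) (nat_lit 16) Lb.e (@T16.mk En
    (@En.n l5 (nat_lit 13046) (nat_lit 1) (nat_lit 14))
    (@En.n l5011 (nat_lit 709) (nat_lit 1) (nat_lit 14))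
    (@En.n l2678 (nat_lit 13335) (nat_lit 2) (nat_lit 6))
    (@En.n l476 (nat_lit 13048) (nat_lit 3) (nat_lit 10))
    (@En.n l152 (nat_lit 13048) (nat_lit 4) (nat_lit 7))
    (@En.n l1599 (nat_lit 13056) (nat_lit 5) (nat_lit 7))
    (@En.n l28 (nat_lit 13051) (nat_lit 6) (nat_lit 3))
    (@En.n l5012 (nat_lit 13047) (nat_lit 7) (nat_lit 3))
    (@En.i (nat_lit 12967) (nat_lit 9) (nat_lit 10))
    (@En.n l5013 (nat_lit 13047) (nat_lit 10) (nat_lit 13))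
    (@En.n l2038 (nat_lit 13733) (nat_lit 11) (nat_lit 13))
    (@En.n l5014 (nat_lit 13050) (nat_lit 12) (nat_lit 9))
    (@En.n l5015 (nat_lit 12782) (nat_lit 13) (nat_lit 9))
    (@En.n l2568 (nat_lit 708) (nat_lit 14) (nat_lit 6))
    (@En.n l17 (nat_lit 13046) (nat_lit 14) (nat_lit 2))
    (@En.n l18 (nat_lit 13046) (nat_lit 15) (nat_lit 2))))
  (@Cl.mk (nat_lit 0x20002000600090009000d0009000e0003000200070007000a0007000e000e) (nat_lit 0x3356700005012) (nat_lit 16) Lb.e (@T16.mk En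
    (@En.n l180 (nat_lit 13047) (nat_lit 1) (nat_lit 14))
    (@En.i (nat_lit 700) (nat_lit 11) (nat_lit 14))
    (@En.n l5568 (nat_lit 13958) (nat_lit 2) (nat_lit 7))
    (@En.n l5569 (nat_lit 13045) (nat_lit 3) (nat_lit 10))
    (@En.n l5570 (nat_lit 13045) (nat_lit 4) (nat_lit 7))
    (@En.n l5571 (nat_lit 13055) (nat_lit 5) (nat_lit 7))
    (@En.n l50 (nat_lit 13047) (nat_lit 6) (nat_lit 2))
    (@En.n l5572 (nat_lit 13046) (nat_lit 7) (nat_lit 3))
    (@En.n l3348 (nat_lit 13818) (nat_lit 9) (nat_lit 14))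
    (@En.n l5048 (nat_lit 12962) (nat_lit 10) (nat_lit 9))
    (@En.i (nat_lit 13734) (nat_lit 11) (nat_lit 13))
    (@En.n l725 (nat_lit 13049) (nat_lit 12) (nat_lit 9))
    (@En.n l781 (nat_lit 12781) (nat_lit 13) (nat_lit 9))
    (@En.n l617 (nat_lit 699) (nat_lit 14) (nat_lit 6))
    (@En.n l11 (nat_lit 13047) (nat_lit 14) (nat_lit 2))
    (@En.n l107 (nat_lit 13047) (nat_lit 15) (nat_lit 2))))
  (@Cl.mk (nat_lit 0x200020006000e00090002000d000d000b000300030007000a0005000e000e) (nat_lit 0x3506690004012) (nat_lit 16) Lb.e (@T16.mk En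
    (@En.n l5 (nat_lit 13048) (nat_lit 1) (nat_lit 14))
    (@En.i (nat_lit 928) (nat_lit 1) (nat_lit 14))
    (@En.n l2678 (nat_lit 13960) (nat_lit 2) (nat_lit 5))
    (@En.n l1599 (nat_lit 14070) (nat_lit 3) (nat_lit 10))
    (@En.n l1599 (nat_lit 13057) (nat_lit 4) (nat_lit 7))
    (@En.n l28 (nat_lit 13053) (nat_lit 5) (nat_lit 3))
    (@En.i (nat_lit 13045) (nat_lit 6) (nat_lit 3))
    (@En.i (nat_lit 14067) (nat_lit 8) (nat_lit 11))
    (@En.n l1578 (nat_lit 13045) (nat_lit 9) (nat_lit 13))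
    (@En.i (nat_lit 13738) (nat_lit 10) (nat_lit 13))
    (@En.n l3 (nat_lit 13048) (nat_lit 10) (nat_lit 2))
    (@En.i (nat_lit 13046) (nat_lit 12) (nat_lit 9))
    (@En.i (nat_lit 12789) (nat_lit 13) (nat_lit 14))
    (@En.n l2568 (nat_lit 927) (nat_lit 14) (nat_lit 6))
    (@En.n l17 (nat_lit 13048) (nat_lit 14) (nat_lit 2))
    (@En.n l18 (nat_lit 13048) (nat_lit 15) (nat_lit 2))))
  (@Cl.mk (nat_lit 0x2000200060009000d0008000e00030002000e00070002000a0008000e000e) (nat_lit 0x234a003006612) (nat_lit 16) Lb.e (@T16.mk En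
    (@En.n l180 (nat_lit 13049) (nat_lit 1) (nat_lit 14))
    (@En.i (nat_lit 710) (nat_lit 13) (nat_lit 14))
    (@En.n l2038 (nat_lit 13968) (nat_lit 2) (nat_lit 8))
    (@En.i (nat_lit 13047) (nat_lit 3) (nat_lit 10))
    (@En.n l17 (nat_lit 13049) (nat_lit 4) (nat_lit 2))
    (@En.n l1353 (nat_lit 13047) (nat_lit 5) (nat_lit 7))
    (@En.i (nat_lit 13607) (nat_lit 7) (nat_lit 14))
    (@En.n l50 (nat_lit 13049) (nat_lit 7) (nat_lit 2))
    (@En.i (nat_lit 13050) (nat_lit 8) (nat_lit 3))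
    (@En.n l1998 (nat_lit 13819) (nat_lit 10) (nat_lit 14))
    (@En.i (nat_lit 12961) (nat_lit 11) (nat_lit 8))
    (@En.i (nat_lit 13742) (nat_lit 12) (nat_lit 13))
    (@En.n l1643 (nat_lit 13269) (nat_lit 13) (nat_lit 9))
    (@En.i (nat_lit 711) (nat_lit 14) (nat_lit 6))
    (@En.n l11 (nat_lit 13049) (nat_lit 14) (nat_lit 2))
    (@En.n l107 (nat_lit 13049) (nat_lit 15) (nat_lit 2))))
  (@Cl.mk (nat_lit 0x2000200060009000d000d000900030003000e00070002000a0007000e000e) (nat_lit 0x2447009006012) (nat_lit 16) Lb.e (@T16.mk En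
    (@En.n l180 (nat_lit 13050) (nat_lit 1) (nat_lit 14))
    (@En.i (nat_lit 705) (nat_lit 1) (nat_lit 14))
    (@En.n l619 (nat_lit 13939) (nat_lit 2) (nat_lit 7))
    (@En.n l5572 (nat_lit 13046) (nat_lit 3) (nat_lit 10))
    (@En.n l17 (nat_lit 13050) (nat_lit 4) (nat_lit 2))
    (@En.n l3608 (nat_lit 13046) (nat_lit 5) (nat_lit 7))
    (@En.i (nat_lit 13605) (nat_lit 7) (nat_lit 14))
    (@En.n l3642 (nat_lit 13052) (nat_lit 7) (nat_lit 3))
    (@En.n l7 (nat_lit 13049) (nat_lit 8) (nat_lit 3))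
    (@En.n l1347 (nat_lit 12973) (nat_lit 10) (nat_lit 9))
    (@En.n l644 (nat_lit 13049) (nat_lit 11) (nat_lit 13))
    (@En.i (nat_lit 13731) (nat_lit 12) (nat_lit 13))
    (@En.n l1643 (nat_lit 13272) (nat_lit 13) (nat_lit 9))
    (@En.i (nat_lit 704) (nat_lit 14) (nat_lit 6))
    (@En.n l11 (nat_lit 13050) (nat_lit 14) (nat_lit 2))
    (@En.n l107 (nat_lit 13050) (nat_lit 15) (nat_lit 2))))
  (@Cl.mk (nat_lit 0x20002000600090009000e000d0002000b000300070007000a0005000e000e) (nat_lit 0x34a5080004012) (nat_lit 16) Lb.e (@T16.mk En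
    (@En.n l5 (nat_lit 13051) (nat_lit 1) (nat_lit 14))
    (@En.i (nat_lit 930) (nat_lit 1) (nat_lit 14))
    (@En.i (nat_lit 13336) (nat_lit 2) (nat_lit 5))
    (@En.n l476 (nat_lit 13053) (nat_lit 3) (nat_lit 10))
    (@En.n l152 (nat_lit 13053) (nat_lit 4) (nat_lit 7))
    (@En.n l476 (nat_lit 13686) (nat_lit 5) (nat_lit 7))
    (@En.i (nat_lit 13046) (nat_lit 6) (nat_lit 3))
    (@En.i (nat_lit 13558) (nat_lit 8) (nat_lit 11))
    (@En.n l11 (nat_lit 13051) (nat_lit 8) (nat_lit 2))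
    (@En.n l1578 (nat_lit 13046) (nat_lit 10) (nat_lit 13))
    (@En.n l2038 (nat_lit 13729) (nat_lit 11) (nat_lit 14))
    (@En.n l3062 (nat_lit 13052) (nat_lit 12) (nat_lit 9))
    (@En.n l8929 (nat_lit 12783) (nat_lit 13) (nat_lit 9))
    (@En.n l2568 (nat_lit 929) (nat_lit 14) (nat_lit 6))
    (@En.n l17 (nat_lit 13051) (nat_lit 14) (nat_lit 2))
    (@En.n l18 (nat_lit 13051) (nat_lit 15) (nat_lit 2))))
  (@Cl.mk (nat_lit 0x2000200060009000e000d0002000a0003000e00070002000a0006000e000e) (nat_lit 0x3550708005012) (nat_lit 16) Lb.e (@T16.mk En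
    (@En.n l5 (nat_lit 13052) (nat_lit 1) (nat_lit 14))
    (@En.n l170 (nat_lit 934) (nat_lit 8) (nat_lit 14))
    (@En.n l803 (nat_lit 14018) (nat_lit 2) (nat_lit 6))
    (@En.n l4304 (nat_lit 13051) (nat_lit 3) (nat_lit 10))
    (@En.n l28 (nat_lit 13052) (nat_lit 4) (nat_lit 2))
    (@En.n l1373 (nat_lit 13051) (nat_lit 5) (nat_lit 7))
    (@En.n l5432 (nat_lit 13597) (nat_lit 7) (nat_lit 14))
    (@En.n l1393 (nat_lit 13050) (nat_lit 7) (nat_lit 3))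
    (@En.n l4306 (nat_lit 13557) (nat_lit 9) (nat_lit 10))
    (@En.n l3 (nat_lit 13052) (nat_lit 9) (nat_lit 2))
    (@En.n l4228 (nat_lit 13050) (nat_lit 11) (nat_lit 13))
    (@En.i (nat_lit 13730) (nat_lit 12) (nat_lit 14))
    (@En.n l167 (nat_lit 13277) (nat_lit 13) (nat_lit 9))
    (@En.i (nat_lit 935) (nat_lit 14) (nat_lit 6))
    (@En.n l17 (nat_lit 13052) (nat_lit 14) (nat_lit 2))
    (@En.n l18 (nat_lit 13052) (nat_lit 15) (nat_lit 2))))
  (@Cl.mk (nat_lit 0x200020006000e00090002000e000d0002000c00030007000a0004000e000e) (nat_lit 0x2407709003012) (nat_lit 16) Lb.e (@T16.mk En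
    (@En.n l5 (nat_lit 13053) (nat_lit 1) (nat_lit 14))
    (@En.i (nat_lit 924) (nat_lit 1) (nat_lit 14))
    (@En.i (nat_lit 14066) (nat_lit 2) (nat_lit 4))
    (@En.i (nat_lit 14069) (nat_lit 3) (nat_lit 10))
    (@En.i (nat_lit 13685) (nat_lit 4) (nat_lit 7))
    (@En.i (nat_lit 13048) (nat_lit 5) (nat_lit 3))
    (@En.i (nat_lit 13561) (nat_lit 7) (nat_lit 12))
    (@En.n l11 (nat_lit 13053) (nat_lit 7) (nat_lit 2))
    (@En.n l1578 (nat_lit 13048) (nat_lit 9) (nat_lit 13))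
    (@En.i (nat_lit 13941) (nat_lit 10) (nat_lit 14))
    (@En.n l3 (nat_lit 13053) (nat_lit 10) (nat_lit 2))
    (@En.i (nat_lit 13051) (nat_lit 12) (nat_lit 9))
    (@En.i (nat_lit 12848) (nat_lit 13) (nat_lit 14))
    (@En.n l2568 (nat_lit 923) (nat_lit 14) (nat_lit 6))
    (@En.n l17 (nat_lit 13053) (nat_lit 14) (nat_lit 2))
    (@En.n l18 (nat_lit 13053) (nat_lit 15) (nat_lit 2))))
  (@Cl.mk (nat_lit 0x200020006000d0009000c0003000d000b000400030007000a0005000e000e) (nat_lit 0x2340790004012) (nat_lit 16) Lb.e (@T16.mk En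
    (@En.n l5 (nat_lit 13054) (nat_lit 1) (nat_lit 14))
    (@En.i (nat_lit 466) (nat_lit 1) (nat_lit 14))
    (@En.i (nat_lit 14017) (nat_lit 2) (nat_lit 5))
    (@En.i (nat_lit 13682) (nat_lit 3) (nat_lit 10))
    (@En.n l343 (nat_lit 13674) (nat_lit 4) (nat_lit 7))
    (@En.n l28 (nat_lit 13057) (nat_lit 5) (nat_lit 3))
    (@En.i (nat_lit 13115) (nat_lit 6) (nat_lit 4))
    (@En.n l77 (nat_lit 14032) (nat_lit 8) (nat_lit 11))
    (@En.n l253 (nat_lit 13046) (nat_lit 9) (nat_lit 13))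
    (@En.n l117 (nat_lit 13675) (nat_lit 9) (nat_lit 3))
    (@En.n l513 (nat_lit 13730) (nat_lit 11) (nat_lit 12))
    (@En.i (nat_lit 13055) (nat_lit 12) (nat_lit 9))
    (@En.i (nat_lit 14011) (nat_lit 13) (nat_lit 13))
    (@En.i (nat_lit 465) (nat_lit 14) (nat_lit 6))
    (@En.n l17 (nat_lit 13054) (nat_lit 14) (nat_lit 2))
    (@En.n l18 (nat_lit 13054) (nat_lit 15) (nat_lit 2))))
  (@Cl.mk (nat_lit 0x2000200060009000c000a000d000a0004000300070006000a0006000e000e) (nat_lit 0x2355800005012) (nat_lit 16) Lb.e (@T16.mk En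
    (@En.n l5 (nat_lit 13055) (nat_lit 1) (nat_lit 14))
    (@En.n l5236 (nat_lit 479) (nat_lit 1) (nat_lit 14))
    (@En.i (nat_lit 14013) (nat_lit 2) (nat_lit 6))
    (@En.n l3 (nat_lit 13054) (nat_lit 3) (nat_lit 10))
    (@En.n l3 (nat_lit 13675) (nat_lit 4) (nat_lit 6))
    (@En.n l5250 (nat_lit 13658) (nat_lit 5) (nat_lit 7))
    (@En.n l28 (nat_lit 13056) (nat_lit 6) (nat_lit 3))
    (@En.n l1919 (nat_lit 13116) (nat_lit 7) (nat_lit 4))
    (@En.n l77 (nat_lit 14033) (nat_lit 9) (nat_lit 10))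
    (@En.n l5236 (nat_lit 13050) (nat_lit 10) (nat_lit 13))
    (@En.n l4948 (nat_lit 13608) (nat_lit 11) (nat_lit 10))
    (@En.n l5251 (nat_lit 13115) (nat_lit 12) (nat_lit 12))
    (@En.n l5252 (nat_lit 13601) (nat_lit 13) (nat_lit 9))
    (@En.i (nat_lit 478) (nat_lit 14) (nat_lit 6))
    (@En.n l17 (nat_lit 13055) (nat_lit 14) (nat_lit 2))
    (@En.n l18 (nat_lit 13055) (nat_lit 15) (nat_lit 2))))
noncomputable def a816 : T16 Cl := @T16.mk Cl
  (@Cl.mk (nat_lit 0x2000200060009000d000a000d0003000b000300070006000a0005000e000e) (nat_lit 0x2356090004012) (nat_lit 16) Lb.e (@T16.mk En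
    (@En.n l5 (nat_lit 13056) (nat_lit 1) (nat_lit 14))
    (@En.i (nat_lit 483) (nat_lit 1) (nat_lit 14))
    (@En.i (nat_lit 14015) (nat_lit 2) (nat_lit 5))
    (@En.n l3 (nat_lit 13057) (nat_lit 3) (nat_lit 10))
    (@En.n l3 (nat_lit 13676) (nat_lit 4) (nat_lit 6))
    (@En.n l3549 (nat_lit 13656) (nat_lit 5) (nat_lit 7))
    (@En.i (nat_lit 13055) (nat_lit 6) (nat_lit 3))
    (@En.n l5032 (nat_lit 13596) (nat_lit 8) (nat_lit 11))
    (@En.n l4751 (nat_lit 13658) (nat_lit 8) (nat_lit 3))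
    (@En.n l12671 (nat_lit 13052) (nat_lit 10) (nat_lit 13))
    (@En.i (nat_lit 13606) (nat_lit 11) (nat_lit 10))
    (@En.n l5251 (nat_lit 13054) (nat_lit 12) (nat_lit 13))
    (@En.i (nat_lit 13598) (nat_lit 13) (nat_lit 9))
    (@En.i (nat_lit 471) (nat_lit 14) (nat_lit 6))
    (@En.n l17 (nat_lit 13056) (nat_lit 14) (nat_lit 2))
    (@En.n l18 (nat_lit 13056) (nat_lit 15) (nat_lit 2))))
  (@Cl.mk (nat_lit 0x200020006000d0009000d0003000d0003000c00030007000a0004000e000e) (nat_lit 0x33b060a003012) (nat_lit 16) Lb.e (@T16.mk En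
    (@En.n l5 (nat_lit 13057) (nat_lit 1) (nat_lit 14))
    (@En.i (nat_lit 468) (nat_lit 1) (nat_lit 14))
    (@En.i (nat_lit 13307) (nat_lit 2) (nat_lit 4))
    (@En.i (nat_lit 13681) (nat_lit 3) (nat_lit 10))
    (@En.n l253 (nat_lit 13680) (nat_lit 4) (nat_lit 7))
    (@En.i (nat_lit 13054) (nat_lit 5) (nat_lit 3))
    (@En.i (nat_lit 13800) (nat_lit 7) (nat_lit 12))
    (@En.i (nat_lit 13674) (nat_lit 7) (nat_lit 3))
    (@En.n l253 (nat_lit 13051) (nat_lit 9) (nat_lit 13))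
    (@En.n l117 (nat_lit 13676) (nat_lit 9) (nat_lit 3))
    (@En.n l513 (nat_lit 13682) (nat_lit 11) (nat_lit 13))
    (@En.i (nat_lit 13056) (nat_lit 12) (nat_lit 9))
    (@En.i (nat_lit 14010) (nat_lit 13) (nat_lit 13))
    (@En.i (nat_lit 467) (nat_lit 14) (nat_lit 6))
    (@En.n l17 (nat_lit 13057) (nat_lit 14) (nat_lit 2))
    (@En.n l18 (nat_lit 13057) (nat_lit 15) (nat_lit 2))))
  (@Cl.mk (nat_lit 0x20002000c000b0008000e000400020005000e000d000200080003000e000e) (nat_lit 0x33340009902034) (nat_lit 16) Lb.e (@T16.mk En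
    (@En.n l5 (nat_lit 13058) (nat_lit 1) (nat_lit 14))
    (@En.n l487 (nat_lit 2565) (nat_lit 9) (nat_lit 14))
    (@En.n l28 (nat_lit 13043) (nat_lit 2) (nat_lit 3))
    (@En.n l175 (nat_lit 12890) (nat_lit 3) (nat_lit 8))
    (@En.n l28 (nat_lit 13058) (nat_lit 4) (nat_lit 2))
    (@En.n l77 (nat_lit 13043) (nat_lit 6) (nat_lit 13))
    (@En.n l488 (nat_lit 13450) (nat_lit 7) (nat_lit 14))
    (@En.n l489 (nat_lit 13373) (nat_lit 7) (nat_lit 5))
    (@En.n l3 (nat_lit 13058) (nat_lit 8) (nat_lit 2))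
    (@En.n l490 (nat_lit 13034) (nat_lit 9) (nat_lit 4))
    (@En.n l12 (nat_lit 13061) (nat_lit 11) (nat_lit 14))
    (@En.i (nat_lit 13451) (nat_lit 12) (nat_lit 8))
    (@En.i (nat_lit 13038) (nat_lit 13) (nat_lit 11))
    (@En.n l491 (nat_lit 1592) (nat_lit 9) (nat_lit 12))
    (@En.n l17 (nat_lit 13058) (nat_lit 14) (nat_lit 2))
    (@En.n l18 (nat_lit 13058) (nat_lit 15) (nat_lit 2))))
  (@Cl.mk (nat_lit 0x20002000d000b000e00030002000c0005000d000d000400030003000e000e) (nat_lit 0x34300707b00089) (nat_lit 16) Lb.e (@T16.mk En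
    (@En.n l5 (nat_lit 13059) (nat_lit 1) (nat_lit 14))
    (@En.n l406 (nat_lit 4112) (nat_lit 1) (nat_lit 14))
    (@En.n l237 (nat_lit 13061) (nat_lit 2) (nat_lit 3))
    (@En.n l407 (nat_lit 13065) (nat_lit 3) (nat_lit 3))
    (@En.n l406 (nat_lit 13458) (nat_lit 4) (nat_lit 4))
    (@En.n l408 (nat_lit 13065) (nat_lit 6) (nat_lit 13))
    (@En.n l409 (nat_lit 13440) (nat_lit 7) (nat_lit 13))
    (@En.i (nat_lit 13043) (nat_lit 7) (nat_lit 5))
    (@En.n l410 (nat_lit 14004) (nat_lit 9) (nat_lit 12))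
    (@En.n l3 (nat_lit 13059) (nat_lit 9) (nat_lit 2))
    (@En.n l411 (nat_lit 13062) (nat_lit 10) (nat_lit 3))
    (@En.n l412 (nat_lit 14111) (nat_lit 0) (nat_lit 14))
    (@En.i (nat_lit 13033) (nat_lit 13) (nat_lit 11))
    (@En.n l413 (nat_lit 1109) (nat_lit 14) (nat_lit 13))
    (@En.n l17 (nat_lit 13059) (nat_lit 14) (nat_lit 2))
    (@En.n l18 (nat_lit 13059) (nat_lit 15) (nat_lit 2))))
  (@Cl.mk (nat_lit 0x20002000d000d000c00030003000b0004000e000d000200050003000e000e) (nat_lit 0x2340070a800089) (nat_lit 16) Lb.e (@T16.mk En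
    (@En.n l164 (nat_lit 13060) (nat_lit 1) (nat_lit 14))
    (@En.n l165 (nat_lit 3555) (nat_lit 13) (nat_lit 14))
    (@En.n l497 (nat_lit 13062) (nat_lit 2) (nat_lit 3))
    (@En.n l170 (nat_lit 13022) (nat_lit 3) (nat_lit 5))
    (@En.n l3 (nat_lit 13060) (nat_lit 4) (nat_lit 2))
    (@En.n l498 (nat_lit 13062) (nat_lit 6) (nat_lit 13))
    (@En.n l499 (nat_lit 13452) (nat_lit 7) (nat_lit 14))
    (@En.n l166 (nat_lit 13034) (nat_lit 7) (nat_lit 4))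
    (@En.n l500 (nat_lit 14026) (nat_lit 9) (nat_lit 11))
    (@En.n l168 (nat_lit 13066) (nat_lit 9) (nat_lit 3))
    (@En.n l501 (nat_lit 13061) (nat_lit 10) (nat_lit 3))
    (@En.n l502 (nat_lit 13086) (nat_lit 12) (nat_lit 12))
    (@En.n l503 (nat_lit 13061) (nat_lit 13) (nat_lit 13))
    (@En.i (nat_lit 1368) (nat_lit 9) (nat_lit 13))
    (@En.n l172 (nat_lit 13060) (nat_lit 14) (nat_lit 2))
    (@En.n l28 (nat_lit 13060) (nat_lit 15) (nat_lit 2))))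
  (@Cl.mk (nat_lit 0x20002000d000b000e00030002000b0005000e000d000200050003000e000e) (nat_lit 0x2330080a80009a) (nat_lit 16) Lb.e (@T16.mk En
    (@En.n l5 (nat_lit 13061) (nat_lit 1) (nat_lit 14))
    (@En.n l108 (nat_lit 2569) (nat_lit 13) (nat_lit 14))
    (@En.n l28 (nat_lit 13059) (nat_lit 2) (nat_lit 3))
    (@En.n l109 (nat_lit 13027) (nat_lit 3) (nat_lit 5))
    (@En.n l28 (nat_lit 13061) (nat_lit 4) (nat_lit 2))
    (@En.n l77 (nat_lit 13059) (nat_lit 6) (nat_lit 13))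
    (@En.n l110 (nat_lit 13451) (nat_lit 7) (nat_lit 14))
    (@En.i (nat_lit 13058) (nat_lit 7) (nat_lit 5))
    (@En.n l111 (nat_lit 14007) (nat_lit 9) (nat_lit 11))
    (@En.n l3 (nat_lit 13061) (nat_lit 9) (nat_lit 2))
    (@En.n l112 (nat_lit 13060) (nat_lit 10) (nat_lit 3))
    (@En.n l113 (nat_lit 14113) (nat_lit 0) (nat_lit 14))
    (@En.i (nat_lit 13032) (nat_lit 13) (nat_lit 11))
    (@En.n l114 (nat_lit 1013) (nat_lit 9) (nat_lit 13))
    (@En.n l17 (nat_lit 13061) (nat_lit 14) (nat_lit 2))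
    (@En.n l18 (nat_lit 13061) (nat_lit 15) (nat_lit 2))))
  (@Cl.mk (nat_lit 0x20002000d000d000c00030003000c0004000d000d000400030003000e000e) (nat_lit 0x14400707b00089) (nat_lit 16) Lb.e (@T16.mk En
    (@En.n l5 (nat_lit 13062) (nat_lit 1) (nat_lit 14))
    (@En.n l1432 (nat_lit 4024) (nat_lit 1) (nat_lit 14))
    (@En.n l132 (nat_lit 13060) (nat_lit 2) (nat_lit 3))
    (@En.n l1433 (nat_lit 13063) (nat_lit 3) (nat_lit 3))
    (@En.n l1434 (nat_lit 13457) (nat_lit 4) (nat_lit 4))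
    (@En.n l1435 (nat_lit 13063) (nat_lit 6) (nat_lit 13))
    (@En.n l117 (nat_lit 13442) (nat_lit 7) (nat_lit 13))
    (@En.n l1436 (nat_lit 13035) (nat_lit 7) (nat_lit 4))
    (@En.n l1437 (nat_lit 14003) (nat_lit 9) (nat_lit 12))
    (@En.n l107 (nat_lit 13064) (nat_lit 9) (nat_lit 3))
    (@En.n l1438 (nat_lit 13059) (nat_lit 10) (nat_lit 3))
    (@En.n l1439 (nat_lit 13069) (nat_lit 12) (nat_lit 12))
    (@En.n l1440 (nat_lit 13059) (nat_lit 13) (nat_lit 13))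
    (@En.i (nat_lit 1114) (nat_lit 14) (nat_lit 13))
    (@En.n l17 (nat_lit 13062) (nat_lit 14) (nat_lit 2))
    (@En.n l18 (nat_lit 13062) (nat_lit 15) (nat_lit 2))))
  (@Cl.mk (nat_lit 0x20002000d000d000c00030003000d0004000d0003000e00030002000e000e) (nat_lit 0x1340070a0c0089) (nat_lit 16) Lb.e (@T16.mk En
    (@En.n l97 (nat_lit 13063) (nat_lit 1) (nat_lit 14))
    (@En.n l4365 (nat_lit 4020) (nat_lit 1) (nat_lit 14))
    (@En.n l17 (nat_lit 13063) (nat_lit 2) (nat_lit 2))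
    (@En.n l4366 (nat_lit 13062) (nat_lit 3) (nat_lit 3))
    (@En.i (nat_lit 14070) (nat_lit 0) (nat_lit 14))
    (@En.i (nat_lit 13068) (nat_lit 5) (nat_lit 3))
    (@En.n l4367 (nat_lit 13444) (nat_lit 7) (nat_lit 13))
    (@En.n l4368 (nat_lit 13072) (nat_lit 7) (nat_lit 4))
    (@En.i (nat_lit 13397) (nat_lit 9) (nat_lit 13))
    (@En.n l4369 (nat_lit 13067) (nat_lit 9) (nat_lit 3))
    (@En.i (nat_lit 13065) (nat_lit 10) (nat_lit 3))
    (@En.n l4370 (nat_lit 13071) (nat_lit 12) (nat_lit 12))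
    (@En.n l164 (nat_lit 13065) (nat_lit 13) (nat_lit 13))
    (@En.n l4371 (nat_lit 1113) (nat_lit 14) (nat_lit 13))
    (@En.n l107 (nat_lit 13063) (nat_lit 14) (nat_lit 2))
    (@En.n l3 (nat_lit 13063) (nat_lit 15) (nat_lit 2))))
  (@Cl.mk (nat_lit 0x20002000e000d0002000d0003000c0003000d000d000400030003000e000e) (nat_lit 0x32050807b00089) (nat_lit 16) Lb.e (@T16.mk En
    (@En.n l5 (nat_lit 13064) (nat_lit 1) (nat_lit 14))
    (@En.n l1784 (nat_lit 4023) (nat_lit 1) (nat_lit 14))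
    (@En.i (nat_lit 13066) (nat_lit 2) (nat_lit 3))
    (@En.n l1785 (nat_lit 13067) (nat_lit 3) (nat_lit 3))
    (@En.i (nat_lit 13459) (nat_lit 4) (nat_lit 4))
    (@En.n l1786 (nat_lit 13067) (nat_lit 6) (nat_lit 13))
    (@En.i (nat_lit 13446) (nat_lit 7) (nat_lit 13))
    (@En.n l164 (nat_lit 13069) (nat_lit 7) (nat_lit 3))
    (@En.i (nat_lit 14052) (nat_lit 9) (nat_lit 12))
    (@En.i (nat_lit 13062) (nat_lit 9) (nat_lit 3))
    (@En.n l513 (nat_lit 13085) (nat_lit 11) (nat_lit 13))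
    (@En.n l3 (nat_lit 13064) (nat_lit 11) (nat_lit 2))
    (@En.n l97 (nat_lit 13062) (nat_lit 13) (nat_lit 13))
    (@En.i (nat_lit 2735) (nat_lit 1) (nat_lit 14))
    (@En.n l17 (nat_lit 13064) (nat_lit 14) (nat_lit 2))
    (@En.n l18 (nat_lit 13064) (nat_lit 15) (nat_lit 2))))
  (@Cl.mk (nat_lit 0x20002000d000b000e00030002000d0005000d0003000e00030002000e000e) (nat_lit 0x2430070a0c0089) (nat_lit 16) Lb.e (@T16.mk En
    (@En.n l97 (nat_lit 13065) (nat_lit 1) (nat_lit 14))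
    (@En.n l1354 (nat_lit 3843) (nat_lit 1) (nat_lit 14))
    (@En.n l17 (nat_lit 13065) (nat_lit 2) (nat_lit 2))
    (@En.n l1355 (nat_lit 13059) (nat_lit 3) (nat_lit 3))
    (@En.i (nat_lit 14072) (nat_lit 0) (nat_lit 14))
    (@En.n l1356 (nat_lit 13464) (nat_lit 5) (nat_lit 3))
    (@En.n l1357 (nat_lit 13441) (nat_lit 7) (nat_lit 13))
    (@En.n l12 (nat_lit 13380) (nat_lit 7) (nat_lit 5))
    (@En.i (nat_lit 13398) (nat_lit 9) (nat_lit 13))
    (@En.n l172 (nat_lit 13065) (nat_lit 9) (nat_lit 2))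
    (@En.n l28 (nat_lit 13063) (nat_lit 10) (nat_lit 3))
    (@En.n l499 (nat_lit 14106) (nat_lit 0) (nat_lit 14))
    (@En.n l1358 (nat_lit 13036) (nat_lit 13) (nat_lit 11))
    (@En.n l1359 (nat_lit 1108) (nat_lit 14) (nat_lit 13))
    (@En.n l107 (nat_lit 13065) (nat_lit 14) (nat_lit 2))
    (@En.n l3 (nat_lit 13065) (nat_lit 15) (nat_lit 2))))
  (@Cl.mk (nat_lit 0x20002000e000d0002000d0003000b0003000e000d000200050003000e000e) (nat_lit 0x3304080a800045) (nat_lit 16) Lb.e (@T16.mk En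
    (@En.n l5 (nat_lit 13066) (nat_lit 1) (nat_lit 14))
    (@En.n l125 (nat_lit 3554) (nat_lit 13) (nat_lit 14))
    (@En.n l7 (nat_lit 13064) (nat_lit 2) (nat_lit 3))
    (@En.n l537 (nat_lit 13021) (nat_lit 3) (nat_lit 5))
    (@En.n l8 (nat_lit 13066) (nat_lit 4) (nat_lit 2))
    (@En.n l538 (nat_lit 13064) (nat_lit 6) (nat_lit 13))
    (@En.i (nat_lit 13456) (nat_lit 7) (nat_lit 14))
    (@En.i (nat_lit 13086) (nat_lit 7) (nat_lit 3))
    (@En.n l125 (nat_lit 13753) (nat_lit 9) (nat_lit 11))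
    (@En.n l132 (nat_lit 13060) (nat_lit 9) (nat_lit 3))
    (@En.i (nat_lit 13087) (nat_lit 11) (nat_lit 13))
    (@En.n l3 (nat_lit 13066) (nat_lit 11) (nat_lit 2))
    (@En.n l133 (nat_lit 13060) (nat_lit 13) (nat_lit 13))
    (@En.i (nat_lit 3051) (nat_lit 9) (nat_lit 14))
    (@En.n l17 (nat_lit 13066) (nat_lit 14) (nat_lit 2))
    (@En.n l18 (nat_lit 13066) (nat_lit 15) (nat_lit 2))))
  (@Cl.mk (nat_lit 0x20002000e000d0002000d0003000d0003000d0003000e00030002000e000e) (nat_lit 0x3205070a0a009a) (nat_lit 16) Lb.e (@T16.mk En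
    (@En.n l97 (nat_lit 13067) (nat_lit 1) (nat_lit 14))
    (@En.n l5367 (nat_lit 4018) (nat_lit 1) (nat_lit 14))
    (@En.n l17 (nat_lit 13067) (nat_lit 2) (nat_lit 2))
    (@En.n l5368 (nat_lit 13064) (nat_lit 3) (nat_lit 3))
    (@En.n l4660 (nat_lit 14069) (nat_lit 0) (nat_lit 14))
    (@En.n l830 (nat_lit 13070) (nat_lit 5) (nat_lit 3))
    (@En.n l1865 (nat_lit 13449) (nat_lit 7) (nat_lit 13))
    (@En.n l5369 (nat_lit 13071) (nat_lit 7) (nat_lit 3))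
    (@En.n l1106 (nat_lit 13764) (nat_lit 9) (nat_lit 13))
    (@En.n l1798 (nat_lit 13063) (nat_lit 9) (nat_lit 3))
    (@En.n l1865 (nat_lit 13170) (nat_lit 11) (nat_lit 13))
    (@En.n l936 (nat_lit 13067) (nat_lit 11) (nat_lit 2))
    (@En.n l5370 (nat_lit 13063) (nat_lit 13) (nat_lit 13))
    (@En.n l5371 (nat_lit 2897) (nat_lit 1) (nat_lit 14))
    (@En.n l67 (nat_lit 13067) (nat_lit 14) (nat_lit 2))
    (@En.n l107 (nat_lit 13067) (nat_lit 15) (nat_lit 2))))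
  (@Cl.mk (nat_lit 0x20002000d000d000b00030003000d000c00050003000e00040002000e000e) (nat_lit 0x344007800c0089) (nat_lit 16) Lb.e (@T16.mk En
    (@En.n l97 (nat_lit 13068) (nat_lit 1) (nat_lit 14))
    (@En.n l4365 (nat_lit 4042) (nat_lit 1) (nat_lit 14))
    (@En.n l17 (nat_lit 13068) (nat_lit 2) (nat_lit 2))
    (@En.n l4741 (nat_lit 13454) (nat_lit 3) (nat_lit 4))
    (@En.n l612 (nat_lit 13469) (nat_lit 5) (nat_lit 14))
    (@En.n l50 (nat_lit 13063) (nat_lit 5) (nat_lit 3))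
    (@En.n l1358 (nat_lit 12845) (nat_lit 6) (nat_lit 5))
    (@En.n l4742 (nat_lit 13062) (nat_lit 8) (nat_lit 12))
    (@En.i (nat_lit 13396) (nat_lit 9) (nat_lit 13))
    (@En.n l252 (nat_lit 13070) (nat_lit 9) (nat_lit 3))
    (@En.n l1356 (nat_lit 13464) (nat_lit 10) (nat_lit 3))
    (@En.n l4370 (nat_lit 12846) (nat_lit 12) (nat_lit 11))
    (@En.n l4743 (nat_lit 13464) (nat_lit 13) (nat_lit 13))
    (@En.n l4371 (nat_lit 1115) (nat_lit 14) (nat_lit 13))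
    (@En.n l107 (nat_lit 13068) (nat_lit 14) (nat_lit 2))
    (@En.n l3 (nat_lit 13068) (nat_lit 15) (nat_lit 2))))
  (@Cl.mk (nat_lit 0x20002000e000c0002000d000b00040003000d000d000500030003000e000e) (nat_lit 0x23056007a0009a) (nat_lit 16) Lb.e (@T16.mk En
    (@En.n l5 (nat_lit 13069) (nat_lit 1) (nat_lit 14))
    (@En.n l535 (nat_lit 4025) (nat_lit 1) (nat_lit 14))
    (@En.n l343 (nat_lit 13086) (nat_lit 2) (nat_lit 3))
    (@En.n l28 (nat_lit 13071) (nat_lit 3) (nat_lit 3))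
    (@En.n l454 (nat_lit 12976) (nat_lit 4) (nat_lit 5))
    (@En.n l77 (nat_lit 13071) (nat_lit 6) (nat_lit 13))
    (@En.i (nat_lit 13107) (nat_lit 7) (nat_lit 13))
    (@En.n l536 (nat_lit 13064) (nat_lit 7) (nat_lit 3))
    (@En.n l117 (nat_lit 13073) (nat_lit 8) (nat_lit 4))
    (@En.n l343 (nat_lit 13455) (nat_lit 10) (nat_lit 11))
    (@En.n l253 (nat_lit 13082) (nat_lit 11) (nat_lit 13))
    (@En.n l3 (nat_lit 13069) (nat_lit 11) (nat_lit 2))
    (@En.n l460 (nat_lit 13035) (nat_lit 13) (nat_lit 12))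
    (@En.i (nat_lit 2901) (nat_lit 1) (nat_lit 14))
    (@En.n l17 (nat_lit 13069) (nat_lit 14) (nat_lit 2))
    (@En.n l18 (nat_lit 13069) (nat_lit 15) (nat_lit 2))))
  (@Cl.mk (nat_lit 0x20002000e000d0002000c0003000d000c00040003000e00040002000e000e) (nat_lit 0x240507900a0056) (nat_lit 16) Lb.e (@T16.mk En
    (@En.n l97 (nat_lit 13070) (nat_lit 1) (nat_lit 14))
    (@En.i (nat_lit 4022) (nat_lit 1) (nat_lit 14))
    (@En.n l17 (nat_lit 13070) (nat_lit 2) (nat_lit 2))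
    (@En.n l4575 (nat_lit 13455) (nat_lit 3) (nat_lit 4))
    (@En.i (nat_lit 13473) (nat_lit 5) (nat_lit 14))
    (@En.n l5377 (nat_lit 13067) (nat_lit 5) (nat_lit 3))
    (@En.i (nat_lit 12844) (nat_lit 6) (nat_lit 4))
    (@En.n l4370 (nat_lit 13064) (nat_lit 8) (nat_lit 12))
    (@En.i (nat_lit 13759) (nat_lit 9) (nat_lit 13))
    (@En.n l1363 (nat_lit 13068) (nat_lit 9) (nat_lit 3))
    (@En.n l5378 (nat_lit 13174) (nat_lit 11) (nat_lit 12))
    (@En.n l28 (nat_lit 13070) (nat_lit 11) (nat_lit 2))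
    (@En.n l780 (nat_lit 13068) (nat_lit 13) (nat_lit 13))
    (@En.n l3345 (nat_lit 2896) (nat_lit 1) (nat_lit 14))
    (@En.n l107 (nat_lit 13070) (nat_lit 14) (nat_lit 2))
    (@En.n l3 (nat_lit 13070) (nat_lit 15) (nat_lit 2))))
  (@Cl.mk (nat_lit 0x20002000e000c0002000d000c00040003000d0004000e00030002000e000e) (nat_lit 0x130560090a0078) (nat_lit 16) Lb.e (@T16.mk En
    (@En.n l5 (nat_lit 13071) (nat_lit 1) (nat_lit 14))
    (@En.n l535 (nat_lit 4019) (nat_lit 1) (nat_lit 14))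
    (@En.n l7 (nat_lit 13071) (nat_lit 2) (nat_lit 2))
    (@En.i (nat_lit 13069) (nat_lit 3) (nat_lit 3))
    (@En.i (nat_lit 14068) (nat_lit 0) (nat_lit 14))
    (@En.i (nat_lit 12846) (nat_lit 5) (nat_lit 4))
    (@En.i (nat_lit 13109) (nat_lit 7) (nat_lit 13))
    (@En.n l1782 (nat_lit 13067) (nat_lit 7) (nat_lit 3))
    (@En.n l117 (nat_lit 13074) (nat_lit 8) (nat_lit 4))
    (@En.n l1783 (nat_lit 13070) (nat_lit 10) (nat_lit 12))
    (@En.n l253 (nat_lit 13080) (nat_lit 11) (nat_lit 13))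
    (@En.n l3 (nat_lit 13071) (nat_lit 11) (nat_lit 2))
    (@En.i (nat_lit 13072) (nat_lit 13) (nat_lit 12))
    (@En.i (nat_lit 2899) (nat_lit 1) (nat_lit 14))
    (@En.n l17 (nat_lit 13071) (nat_lit 14) (nat_lit 2))
    (@En.n l18 (nat_lit 13071) (nat_lit 15) (nat_lit 2))))
noncomputable def a817 : T16 Cl := @T16.mk Cl
  (@Cl.mk (nat_lit 0x20002000c000c000c000b000400040004000d0005000e00030002000e000e) (nat_lit 0x243500080b0045) (nat_lit 16) Lb.e (@T16.mk En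
    (@En.n l5 (nat_lit 13072) (nat_lit 1) (nat_lit 14))
    (@En.n l535 (nat_lit 3593) (nat_lit 1) (nat_lit 14))
    (@En.n l7 (nat_lit 13072) (nat_lit 2) (nat_lit 2))
    (@En.n l460 (nat_lit 13035) (nat_lit 3) (nat_lit 3))
    (@En.n l5365 (nat_lit 14071) (nat_lit 0) (nat_lit 14))
    (@En.n l4939 (nat_lit 12847) (nat_lit 5) (nat_lit 5))
    (@En.i (nat_lit 13311) (nat_lit 7) (nat_lit 13))
    (@En.n l5379 (nat_lit 13036) (nat_lit 7) (nat_lit 4))
    (@En.n l152 (nat_lit 13071) (nat_lit 8) (nat_lit 4))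
    (@En.n l5365 (nat_lit 13042) (nat_lit 9) (nat_lit 4))
    (@En.n l5380 (nat_lit 13068) (nat_lit 11) (nat_lit 11))
    (@En.n l253 (nat_lit 13074) (nat_lit 12) (nat_lit 12))
    (@En.n l1791 (nat_lit 13380) (nat_lit 13) (nat_lit 12))
    (@En.n l2009 (nat_lit 4160) (nat_lit 14) (nat_lit 12))
    (@En.n l17 (nat_lit 13072) (nat_lit 14) (nat_lit 2))
    (@En.n l18 (nat_lit 13072) (nat_lit 15) (nat_lit 2))))
  (@Cl.mk (nat_lit 0x20002000d000c00090003000e00040002000d000d000700030003000e000e) (nat_lit 0x22507009a00045) (nat_lit 16) Lb.e (@T16.mk En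
    (@En.n l5 (nat_lit 13073) (nat_lit 1) (nat_lit 14))
    (@En.n l1787 (nat_lit 3643) (nat_lit 1) (nat_lit 14))
    (@En.n l1788 (nat_lit 13078) (nat_lit 2) (nat_lit 3))
    (@En.n l28 (nat_lit 13074) (nat_lit 3) (nat_lit 3))
    (@En.n l1787 (nat_lit 12974) (nat_lit 4) (nat_lit 7))
    (@En.n l77 (nat_lit 13074) (nat_lit 6) (nat_lit 13))
    (@En.i (nat_lit 13995) (nat_lit 7) (nat_lit 13))
    (@En.n l476 (nat_lit 13073) (nat_lit 7) (nat_lit 2))
    (@En.n l460 (nat_lit 13035) (nat_lit 8) (nat_lit 4))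
    (@En.n l1789 (nat_lit 13079) (nat_lit 10) (nat_lit 14))
    (@En.n l1790 (nat_lit 13076) (nat_lit 10) (nat_lit 3))
    (@En.n l97 (nat_lit 13101) (nat_lit 12) (nat_lit 9))
    (@En.n l1791 (nat_lit 13040) (nat_lit 13) (nat_lit 12))
    (@En.n l1792 (nat_lit 4148) (nat_lit 14) (nat_lit 13))
    (@En.n l17 (nat_lit 13073) (nat_lit 14) (nat_lit 2))
    (@En.n l18 (nat_lit 13073) (nat_lit 15) (nat_lit 2))))
  (@Cl.mk (nat_lit 0x20002000d000c000a0003000e00040002000d0006000e00030002000e000e) (nat_lit 0x224070090b0034) (nat_lit 16) Lb.e (@T16.mk En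
    (@En.n l5 (nat_lit 13074) (nat_lit 1) (nat_lit 14))
    (@En.n l5372 (nat_lit 3642) (nat_lit 1) (nat_lit 14))
    (@En.n l7 (nat_lit 13074) (nat_lit 2) (nat_lit 2))
    (@En.i (nat_lit 13073) (nat_lit 3) (nat_lit 3))
    (@En.n l5373 (nat_lit 14076) (nat_lit 0) (nat_lit 14))
    (@En.n l5374 (nat_lit 13198) (nat_lit 5) (nat_lit 6))
    (@En.i (nat_lit 13994) (nat_lit 7) (nat_lit 13))
    (@En.n l476 (nat_lit 13074) (nat_lit 7) (nat_lit 2))
    (@En.i (nat_lit 13072) (nat_lit 8) (nat_lit 4))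
    (@En.n l5375 (nat_lit 13081) (nat_lit 10) (nat_lit 14))
    (@En.n l5376 (nat_lit 13075) (nat_lit 10) (nat_lit 3))
    (@En.n l619 (nat_lit 13102) (nat_lit 12) (nat_lit 10))
    (@En.n l1791 (nat_lit 13042) (nat_lit 13) (nat_lit 12))
    (@En.i (nat_lit 4163) (nat_lit 6) (nat_lit 13))
    (@En.n l17 (nat_lit 13074) (nat_lit 14) (nat_lit 2))
    (@En.n l18 (nat_lit 13074) (nat_lit 15) (nat_lit 2))))
  (@Cl.mk (nat_lit 0x20002000d0009000d0003000e00030002000d0007000e00030002000e000e) (nat_lit 0x2330500a0a0034) (nat_lit 16) Lb.e (@T16.mk En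
    (@En.n l97 (nat_lit 13075) (nat_lit 1) (nat_lit 14))
    (@En.i (nat_lit 3788) (nat_lit 1) (nat_lit 14))
    (@En.n l725 (nat_lit 13075) (nat_lit 2) (nat_lit 2))
    (@En.n l9806 (nat_lit 13076) (nat_lit 3) (nat_lit 3))
    (@En.n l1643 (nat_lit 14077) (nat_lit 0) (nat_lit 14))
    (@En.n l1353 (nat_lit 13199) (nat_lit 5) (nat_lit 7))
    (@En.n l12637 (nat_lit 13988) (nat_lit 7) (nat_lit 13))
    (@En.n l50 (nat_lit 13075) (nat_lit 7) (nat_lit 2))
    (@En.n l564 (nat_lit 13042) (nat_lit 8) (nat_lit 3))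
    (@En.n l2031 (nat_lit 14084) (nat_lit 0) (nat_lit 14))
    (@En.n l9025 (nat_lit 13074) (nat_lit 10) (nat_lit 3))
    (@En.n l5891 (nat_lit 13067) (nat_lit 12) (nat_lit 13))
    (@En.n l287 (nat_lit 13427) (nat_lit 13) (nat_lit 9))
    (@En.n l2036 (nat_lit 5134) (nat_lit 14) (nat_lit 13))
    (@En.n l107 (nat_lit 13075) (nat_lit 14) (nat_lit 2))
    (@En.n l3 (nat_lit 13075) (nat_lit 15) (nat_lit 2))))
  (@Cl.mk (nat_lit 0x20002000d0008000d0003000e00030002000d000d000800030003000e000e) (nat_lit 0x23306009b10045) (nat_lit 16) Lb.e (@T16.mk En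
    (@En.n l5386 (nat_lit 13076) (nat_lit 1) (nat_lit 14))
    (@En.n l5387 (nat_lit 3787) (nat_lit 1) (nat_lit 14))
    (@En.n l5388 (nat_lit 13077) (nat_lit 2) (nat_lit 3))
    (@En.n l5371 (nat_lit 13075) (nat_lit 3) (nat_lit 3))
    (@En.n l3907 (nat_lit 12952) (nat_lit 4) (nat_lit 8))
    (@En.n l645 (nat_lit 13075) (nat_lit 6) (nat_lit 13))
    (@En.n l3866 (nat_lit 13990) (nat_lit 7) (nat_lit 13))
    (@En.n l17 (nat_lit 13076) (nat_lit 7) (nat_lit 2))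
    (@En.n l4256 (nat_lit 13040) (nat_lit 8) (nat_lit 3))
    (@En.n l5372 (nat_lit 14079) (nat_lit 0) (nat_lit 14))
    (@En.n l5389 (nat_lit 13073) (nat_lit 10) (nat_lit 3))
    (@En.n l5390 (nat_lit 13064) (nat_lit 12) (nat_lit 13))
    (@En.n l4252 (nat_lit 13428) (nat_lit 13) (nat_lit 8))
    (@En.n l5390 (nat_lit 5135) (nat_lit 14) (nat_lit 13))
    (@En.n l28 (nat_lit 13076) (nat_lit 14) (nat_lit 2))
    (@En.n l936 (nat_lit 13076) (nat_lit 15) (nat_lit 2))))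
  (@Cl.mk (nat_lit 0x20002000d0007000d0003000e00030002000e000d000200090003000e000e) (nat_lit 0x2040700aa02034) (nat_lit 16) Lb.e (@T16.mk En
    (@En.n l134 (nat_lit 13077) (nat_lit 1) (nat_lit 14))
    (@En.n l565 (nat_lit 3516) (nat_lit 1) (nat_lit 14))
    (@En.n l1817 (nat_lit 13076) (nat_lit 2) (nat_lit 3))
    (@En.n l1818 (nat_lit 719) (nat_lit 3) (nat_lit 9))
    (@En.n l3 (nat_lit 13077) (nat_lit 4) (nat_lit 2))
    (@En.n l1819 (nat_lit 13076) (nat_lit 6) (nat_lit 13))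
    (@En.n l1820 (nat_lit 14026) (nat_lit 7) (nat_lit 14))
    (@En.n l17 (nat_lit 13077) (nat_lit 7) (nat_lit 2))
    (@En.n l137 (nat_lit 13039) (nat_lit 8) (nat_lit 3))
    (@En.i (nat_lit 14085) (nat_lit 0) (nat_lit 14))
    (@En.n l335 (nat_lit 13078) (nat_lit 10) (nat_lit 3))
    (@En.n l566 (nat_lit 13066) (nat_lit 12) (nat_lit 13))
    (@En.i (nat_lit 14028) (nat_lit 13) (nat_lit 7))
    (@En.i (nat_lit 5136) (nat_lit 9) (nat_lit 13))
    (@En.n l7 (nat_lit 13077) (nat_lit 14) (nat_lit 2))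
    (@En.n l28 (nat_lit 13077) (nat_lit 15) (nat_lit 2))))
  (@Cl.mk (nat_lit 0x20002000d000c00080003000e00040002000e000d000200080003000e000e) (nat_lit 0x1250700aa02034) (nat_lit 16) Lb.e (@T16.mk En
    (@En.n l134 (nat_lit 13078) (nat_lit 1) (nat_lit 14))
    (@En.n l135 (nat_lit 3518) (nat_lit 1) (nat_lit 14))
    (@En.n l539 (nat_lit 13073) (nat_lit 2) (nat_lit 3))
    (@En.n l540 (nat_lit 12886) (nat_lit 3) (nat_lit 8))
    (@En.n l3 (nat_lit 13078) (nat_lit 4) (nat_lit 2))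
    (@En.n l541 (nat_lit 13073) (nat_lit 6) (nat_lit 13))
    (@En.n l539 (nat_lit 14007) (nat_lit 7) (nat_lit 14))
    (@En.n l17 (nat_lit 13078) (nat_lit 7) (nat_lit 2))
    (@En.n l137 (nat_lit 13034) (nat_lit 8) (nat_lit 4))
    (@En.n l542 (nat_lit 13083) (nat_lit 10) (nat_lit 14))
    (@En.i (nat_lit 13077) (nat_lit 10) (nat_lit 3))
    (@En.n l543 (nat_lit 13100) (nat_lit 12) (nat_lit 8))
    (@En.n l139 (nat_lit 13039) (nat_lit 13) (nat_lit 12))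
    (@En.i (nat_lit 4145) (nat_lit 9) (nat_lit 13))
    (@En.n l7 (nat_lit 13078) (nat_lit 14) (nat_lit 2))
    (@En.n l28 (nat_lit 13078) (nat_lit 15) (nat_lit 2))))
  (@Cl.mk (nat_lit 0x20002000a000d0009000e000300020006000d000d000700030003000e000e) (nat_lit 0x63460008a00045) (nat_lit 16) Lb.e (@T16.mk En
    (@En.n l5 (nat_lit 13079) (nat_lit 1) (nat_lit 14))
    (@En.n l3486 (nat_lit 843) (nat_lit 1) (nat_lit 14))
    (@En.i (nat_lit 13083) (nat_lit 2) (nat_lit 3))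
    (@En.n l4369 (nat_lit 13081) (nat_lit 3) (nat_lit 3))
    (@En.n l1599 (nat_lit 12972) (nat_lit 4) (nat_lit 7))
    (@En.n l5377 (nat_lit 13081) (nat_lit 6) (nat_lit 13))
    (@En.n l5384 (nat_lit 13677) (nat_lit 7) (nat_lit 13))
    (@En.n l4979 (nat_lit 13082) (nat_lit 7) (nat_lit 6))
    (@En.n l107 (nat_lit 13079) (nat_lit 8) (nat_lit 2))
    (@En.n l5385 (nat_lit 13082) (nat_lit 9) (nat_lit 3))
    (@En.i (nat_lit 14075) (nat_lit 11) (nat_lit 14))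
    (@En.n l5384 (nat_lit 13097) (nat_lit 12) (nat_lit 9))
    (@En.n l5381 (nat_lit 13076) (nat_lit 13) (nat_lit 13))
    (@En.n l387 (nat_lit 704) (nat_lit 4) (nat_lit 10))
    (@En.n l17 (nat_lit 13079) (nat_lit 14) (nat_lit 2))
    (@En.n l18 (nat_lit 13079) (nat_lit 15) (nat_lit 2))))
  (@Cl.mk (nat_lit 0x20002000a000d000d000b000300030006000d0005000e00030002000e000e) (nat_lit 0x834600080b0045) (nat_lit 16) Lb.e (@T16.mk En
    (@En.n l5 (nat_lit 13080) (nat_lit 1) (nat_lit 14))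
    (@En.i (nat_lit 847) (nat_lit 1) (nat_lit 14))
    (@En.n l7 (nat_lit 13080) (nat_lit 2) (nat_lit 2))
    (@En.i (nat_lit 13082) (nat_lit 3) (nat_lit 3))
    (@En.i (nat_lit 13278) (nat_lit 0) (nat_lit 14))
    (@En.i (nat_lit 12968) (nat_lit 5) (nat_lit 5))
    (@En.i (nat_lit 13435) (nat_lit 7) (nat_lit 13))
    (@En.n l476 (nat_lit 13170) (nat_lit 7) (nat_lit 6))
    (@En.n l152 (nat_lit 13170) (nat_lit 8) (nat_lit 3))
    (@En.i (nat_lit 13081) (nat_lit 9) (nat_lit 3))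
    (@En.n l619 (nat_lit 13171) (nat_lit 11) (nat_lit 11))
    (@En.n l97 (nat_lit 13081) (nat_lit 12) (nat_lit 13))
    (@En.i (nat_lit 13074) (nat_lit 13) (nat_lit 13))
    (@En.i (nat_lit 702) (nat_lit 14) (nat_lit 10))
    (@En.n l17 (nat_lit 13080) (nat_lit 14) (nat_lit 2))
    (@En.n l18 (nat_lit 13080) (nat_lit 15) (nat_lit 2))))
  (@Cl.mk (nat_lit 0x20002000a000d000a000e000300020006000d0006000e00030002000e000e) (nat_lit 0x734600090c0045) (nat_lit 16) Lb.e (@T16.mk En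
    (@En.n l5 (nat_lit 13081) (nat_lit 1) (nat_lit 14))
    (@En.n l5376 (nat_lit 848) (nat_lit 1) (nat_lit 14))
    (@En.n l7 (nat_lit 13081) (nat_lit 2) (nat_lit 2))
    (@En.n l1798 (nat_lit 13079) (nat_lit 3) (nat_lit 3))
    (@En.n l1865 (nat_lit 13279) (nat_lit 0) (nat_lit 14))
    (@En.n l7632 (nat_lit 12971) (nat_lit 5) (nat_lit 6))
    (@En.i (nat_lit 13678) (nat_lit 7) (nat_lit 13))
    (@En.n l7705 (nat_lit 13080) (nat_lit 7) (nat_lit 6))
    (@En.n l67 (nat_lit 13081) (nat_lit 8) (nat_lit 2))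
    (@En.n l107 (nat_lit 13080) (nat_lit 9) (nat_lit 3))
    (@En.n l4660 (nat_lit 14077) (nat_lit 11) (nat_lit 14))
    (@En.i (nat_lit 13184) (nat_lit 12) (nat_lit 10))
    (@En.n l5376 (nat_lit 13075) (nat_lit 13) (nat_lit 13))
    (@En.n l1106 (nat_lit 711) (nat_lit 4) (nat_lit 10))
    (@En.n l17 (nat_lit 13081) (nat_lit 14) (nat_lit 2))
    (@En.n l18 (nat_lit 13081) (nat_lit 15) (nat_lit 2))))
  (@Cl.mk (nat_lit 0x20002000a000d000d000a000300030006000d000d000600030003000e000e) (nat_lit 0x63450009900034) (nat_lit 16) Lb.e (@T16.mk En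
    (@En.n l5 (nat_lit 13082) (nat_lit 1) (nat_lit 14))
    (@En.i (nat_lit 838) (nat_lit 1) (nat_lit 14))
    (@En.n l142 (nat_lit 13084) (nat_lit 2) (nat_lit 3))
    (@En.n l28 (nat_lit 13080) (nat_lit 3) (nat_lit 3))
    (@En.i (nat_lit 12969) (nat_lit 4) (nat_lit 6))
    (@En.n l77 (nat_lit 13080) (nat_lit 6) (nat_lit 13))
    (@En.i (nat_lit 13434) (nat_lit 7) (nat_lit 13))
    (@En.n l476 (nat_lit 13085) (nat_lit 7) (nat_lit 6))
    (@En.n l152 (nat_lit 13085) (nat_lit 8) (nat_lit 3))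
    (@En.n l1798 (nat_lit 13079) (nat_lit 9) (nat_lit 3))
    (@En.n l97 (nat_lit 13092) (nat_lit 11) (nat_lit 10))
    (@En.n l1589 (nat_lit 13079) (nat_lit 12) (nat_lit 13))
    (@En.i (nat_lit 13073) (nat_lit 13) (nat_lit 13))
    (@En.i (nat_lit 707) (nat_lit 14) (nat_lit 10))
    (@En.n l17 (nat_lit 13082) (nat_lit 14) (nat_lit 2))
    (@En.n l18 (nat_lit 13082) (nat_lit 15) (nat_lit 2))))
  (@Cl.mk (nat_lit 0x20002000a000d0008000e000300020006000e000d000200080003000e000e) (nat_lit 0x63560008902045) (nat_lit 16) Lb.e (@T16.mk En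
    (@En.n l5 (nat_lit 13083) (nat_lit 1) (nat_lit 14))
    (@En.n l1814 (nat_lit 631) (nat_lit 1) (nat_lit 14))
    (@En.n l7 (nat_lit 13079) (nat_lit 2) (nat_lit 3))
    (@En.n l182 (nat_lit 12884) (nat_lit 3) (nat_lit 8))
    (@En.n l8 (nat_lit 13083) (nat_lit 4) (nat_lit 2))
    (@En.n l538 (nat_lit 13079) (nat_lit 6) (nat_lit 13))
    (@En.n l433 (nat_lit 14028) (nat_lit 7) (nat_lit 14))
    (@En.n l1634 (nat_lit 13084) (nat_lit 7) (nat_lit 6))
    (@En.n l107 (nat_lit 13083) (nat_lit 8) (nat_lit 2))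
    (@En.n l1815 (nat_lit 13084) (nat_lit 9) (nat_lit 3))
    (@En.i (nat_lit 14078) (nat_lit 11) (nat_lit 14))
    (@En.n l1816 (nat_lit 13096) (nat_lit 12) (nat_lit 8))
    (@En.n l1251 (nat_lit 13077) (nat_lit 13) (nat_lit 13))
    (@En.n l1501 (nat_lit 935) (nat_lit 4) (nat_lit 10))
    (@En.n l17 (nat_lit 13083) (nat_lit 14) (nat_lit 2))
    (@En.n l18 (nat_lit 13083) (nat_lit 15) (nat_lit 2))))
  (@Cl.mk (nat_lit 0x20002000a000d000d0009000300030006000e000d000200070003000e000e) (nat_lit 0x62460009a00045) (nat_lit 16) Lb.e (@T16.mk En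
    (@En.n l5 (nat_lit 13084) (nat_lit 1) (nat_lit 14))
    (@En.n l545 (nat_lit 634) (nat_lit 1) (nat_lit 14))
    (@En.i (nat_lit 13082) (nat_lit 2) (nat_lit 3))
    (@En.n l546 (nat_lit 12883) (nat_lit 3) (nat_lit 7))
    (@En.n l28 (nat_lit 13084) (nat_lit 4) (nat_lit 2))
    (@En.n l143 (nat_lit 13082) (nat_lit 6) (nat_lit 13))
    (@En.i (nat_lit 14027) (nat_lit 7) (nat_lit 14))
    (@En.n l144 (nat_lit 13087) (nat_lit 7) (nat_lit 6))
    (@En.n l145 (nat_lit 13087) (nat_lit 8) (nat_lit 3))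
    (@En.n l547 (nat_lit 13083) (nat_lit 9) (nat_lit 3))
    (@En.n l475 (nat_lit 13088) (nat_lit 11) (nat_lit 9))
    (@En.n l471 (nat_lit 13083) (nat_lit 12) (nat_lit 13))
    (@En.n l149 (nat_lit 13078) (nat_lit 13) (nat_lit 13))
    (@En.n l548 (nat_lit 706) (nat_lit 9) (nat_lit 10))
    (@En.n l17 (nat_lit 13084) (nat_lit 14) (nat_lit 2))
    (@En.n l18 (nat_lit 13084) (nat_lit 15) (nat_lit 2))))
  (@Cl.mk (nat_lit 0x20002000a000e000d0002000b00030006000d000d000500030003000e000e) (nat_lit 0x73406008a00045) (nat_lit 16) Lb.e (@T16.mk En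
    (@En.n l5 (nat_lit 13085) (nat_lit 1) (nat_lit 14))
    (@En.n l2100 (nat_lit 844) (nat_lit 1) (nat_lit 14))
    (@En.n l1599 (nat_lit 13087) (nat_lit 2) (nat_lit 3))
    (@En.n l28 (nat_lit 13170) (nat_lit 3) (nat_lit 3))
    (@En.i (nat_lit 13128) (nat_lit 4) (nat_lit 5))
    (@En.n l77 (nat_lit 13170) (nat_lit 6) (nat_lit 13))
    (@En.i (nat_lit 13682) (nat_lit 7) (nat_lit 13))
    (@En.n l1599 (nat_lit 14075) (nat_lit 7) (nat_lit 6))
    (@En.n l117 (nat_lit 13082) (nat_lit 8) (nat_lit 3))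
    (@En.i (nat_lit 13091) (nat_lit 10) (nat_lit 11))
    (@En.n l3 (nat_lit 13085) (nat_lit 10) (nat_lit 2))
    (@En.i (nat_lit 13082) (nat_lit 12) (nat_lit 13))
    (@En.i (nat_lit 13069) (nat_lit 13) (nat_lit 14))
    (@En.n l2568 (nat_lit 705) (nat_lit 2) (nat_lit 10))
    (@En.n l17 (nat_lit 13085) (nat_lit 14) (nat_lit 2))
    (@En.n l18 (nat_lit 13085) (nat_lit 15) (nat_lit 2))))
  (@Cl.mk (nat_lit 0x20002000e000c0002000d000a00040003000e000d000200060003000e000e) (nat_lit 0x3305500a800045) (nat_lit 16) Lb.e (@T16.mk En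
    (@En.n l5 (nat_lit 13086) (nat_lit 1) (nat_lit 14))
    (@En.n l125 (nat_lit 3553) (nat_lit 1) (nat_lit 14))
    (@En.n l126 (nat_lit 13069) (nat_lit 2) (nat_lit 3))
    (@En.n l13 (nat_lit 13018) (nat_lit 3) (nat_lit 6))
    (@En.n l8 (nat_lit 13086) (nat_lit 4) (nat_lit 2))
    (@En.n l127 (nat_lit 13069) (nat_lit 6) (nat_lit 13))
    (@En.n l126 (nat_lit 13378) (nat_lit 7) (nat_lit 14))
    (@En.n l11 (nat_lit 13066) (nat_lit 7) (nat_lit 3))
    (@En.n l128 (nat_lit 13078) (nat_lit 8) (nat_lit 4))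
    (@En.n l13 (nat_lit 13456) (nat_lit 10) (nat_lit 10))
    (@En.n l129 (nat_lit 13084) (nat_lit 11) (nat_lit 13))
    (@En.n l3 (nat_lit 13086) (nat_lit 11) (nat_lit 2))
    (@En.n l130 (nat_lit 13034) (nat_lit 13) (nat_lit 12))
    (@En.i (nat_lit 3050) (nat_lit 1) (nat_lit 14))
    (@En.n l17 (nat_lit 13086) (nat_lit 14) (nat_lit 2))
    (@En.n l18 (nat_lit 13086) (nat_lit 15) (nat_lit 2))))
  (@Cl.mk (nat_lit 0x20002000a000e000d0002000a00030006000e000d000200060003000e000e) (nat_lit 0x6430600a900045) (nat_lit 16) Lb.e (@T16.mk En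
    (@En.n l5 (nat_lit 13087) (nat_lit 1) (nat_lit 14))
    (@En.n l564 (nat_lit 632) (nat_lit 1) (nat_lit 14))
    (@En.n l158 (nat_lit 13085) (nat_lit 2) (nat_lit 3))
    (@En.n l182 (nat_lit 12885) (nat_lit 3) (nat_lit 6))
    (@En.n l8 (nat_lit 13087) (nat_lit 4) (nat_lit 2))
    (@En.n l1504 (nat_lit 13085) (nat_lit 6) (nat_lit 13))
    (@En.n l158 (nat_lit 14029) (nat_lit 7) (nat_lit 14))
    (@En.i (nat_lit 14078) (nat_lit 7) (nat_lit 6))
    (@En.n l129 (nat_lit 13084) (nat_lit 8) (nat_lit 3))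
    (@En.i (nat_lit 13089) (nat_lit 10) (nat_lit 10))
    (@En.n l107 (nat_lit 13087) (nat_lit 10) (nat_lit 2))
    (@En.n l158 (nat_lit 13084) (nat_lit 12) (nat_lit 13))
    (@En.n l619 (nat_lit 13086) (nat_lit 13) (nat_lit 14))
    (@En.i (nat_lit 934) (nat_lit 9) (nat_lit 10))
    (@En.n l17 (nat_lit 13087) (nat_lit 14) (nat_lit 2))
    (@En.n l18 (nat_lit 13087) (nat_lit 15) (nat_lit 2))))
noncomputable def a818 : T16 Cl := @T16.mk Cl
  (@Cl.mk (nat_lit 0x20002000b000e00090002000a0005000e000c0002000700060004000e000e) (nat_lit 0x73506099000012) (nat_lit 16) Lb.e (@T16.mk En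
    (@En.n l5 (nat_lit 13088) (nat_lit 1) (nat_lit 14))
    (@En.n l564 (nat_lit 764) (nat_lit 1) (nat_lit 14))
    (@En.n l1620 (nat_lit 13961) (nat_lit 2) (nat_lit 4))
    (@En.i (nat_lit 13087) (nat_lit 3) (nat_lit 6))
    (@En.n l13 (nat_lit 13855) (nat_lit 4) (nat_lit 7))
    (@En.n l8 (nat_lit 13088) (nat_lit 5) (nat_lit 2))
    (@En.n l1504 (nat_lit 13092) (nat_lit 7) (nat_lit 12))
    (@En.n l158 (nat_lit 13463) (nat_lit 8) (nat_lit 14))
    (@En.n l159 (nat_lit 13089) (nat_lit 8) (nat_lit 5))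
    (@En.n l1621 (nat_lit 13090) (nat_lit 10) (nat_lit 10))
    (@En.n l107 (nat_lit 13088) (nat_lit 10) (nat_lit 2))
    (@En.n l1622 (nat_lit 13094) (nat_lit 12) (nat_lit 9))
    (@En.n l1623 (nat_lit 13100) (nat_lit 13) (nat_lit 14))
    (@En.i (nat_lit 4914) (nat_lit 8) (nat_lit 11))
    (@En.n l17 (nat_lit 13088) (nat_lit 14) (nat_lit 2))
    (@En.n l18 (nat_lit 13088) (nat_lit 15) (nat_lit 2))))
  (@Cl.mk (nat_lit 0x20002000b0007000e000a00020005000e000c0002000600090004000e000e) (nat_lit 0x70450098000012) (nat_lit 16) Lb.e (@T16.mk En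
    (@En.n l5 (nat_lit 13089) (nat_lit 1) (nat_lit 14))
    (@En.n l125 (nat_lit 757) (nat_lit 8) (nat_lit 14))
    (@En.n l5074 (nat_lit 13964) (nat_lit 2) (nat_lit 4))
    (@En.n l1251 (nat_lit 14085) (nat_lit 9) (nat_lit 9))
    (@En.n l182 (nat_lit 13859) (nat_lit 4) (nat_lit 6))
    (@En.n l8 (nat_lit 13089) (nat_lit 5) (nat_lit 2))
    (@En.n l1504 (nat_lit 13091) (nat_lit 7) (nat_lit 12))
    (@En.n l158 (nat_lit 13550) (nat_lit 8) (nat_lit 14))
    (@En.i (nat_lit 13099) (nat_lit 8) (nat_lit 5))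
    (@En.n l11 (nat_lit 13089) (nat_lit 9) (nat_lit 2))
    (@En.n l5075 (nat_lit 13090) (nat_lit 11) (nat_lit 10))
    (@En.n l180 (nat_lit 13088) (nat_lit 12) (nat_lit 14))
    (@En.n l182 (nat_lit 12963) (nat_lit 13) (nat_lit 7))
    (@En.n l1501 (nat_lit 4924) (nat_lit 3) (nat_lit 11))
    (@En.n l17 (nat_lit 13089) (nat_lit 14) (nat_lit 2))
    (@En.n l18 (nat_lit 13089) (nat_lit 15) (nat_lit 2))))
  (@Cl.mk (nat_lit 0x20002000c0007000a000a0004000e000b00020006000600090005000e000e) (nat_lit 0x80450770001012) (nat_lit 16) Lb.e (@T16.mk En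
    (@En.n l97 (nat_lit 13090) (nat_lit 1) (nat_lit 14))
    (@En.n l1631 (nat_lit 763) (nat_lit 11) (nat_lit 14))
    (@En.n l5076 (nat_lit 12875) (nat_lit 2) (nat_lit 5))
    (@En.n l5077 (nat_lit 13089) (nat_lit 3) (nat_lit 9))
    (@En.n l5078 (nat_lit 13089) (nat_lit 4) (nat_lit 6))
    (@En.n l5079 (nat_lit 13860) (nat_lit 5) (nat_lit 6))
    (@En.n l50 (nat_lit 13090) (nat_lit 6) (nat_lit 2))
    (@En.n l5080 (nat_lit 13093) (nat_lit 8) (nat_lit 11))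
    (@En.n l5081 (nat_lit 13549) (nat_lit 9) (nat_lit 14))
    (@En.n l1353 (nat_lit 13098) (nat_lit 9) (nat_lit 4))
    (@En.n l61 (nat_lit 13216) (nat_lit 11) (nat_lit 10))
    (@En.n l5082 (nat_lit 13227) (nat_lit 12) (nat_lit 10))
    (@En.n l5083 (nat_lit 12962) (nat_lit 13) (nat_lit 7))
    (@En.n l5082 (nat_lit 4880) (nat_lit 7) (nat_lit 12))
    (@En.n l107 (nat_lit 13090) (nat_lit 14) (nat_lit 2))
    (@En.n l3 (nat_lit 13090) (nat_lit 15) (nat_lit 2))))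
  (@Cl.mk (nat_lit 0x20002000b0008000e000b00020005000c000c0005000800040004000e000e) (nat_lit 0x64450072030023) (nat_lit 16) Lb.e (@T16.mk En
    (@En.n l5 (nat_lit 13091) (nat_lit 1) (nat_lit 14))
    (@En.n l1997 (nat_lit 2352) (nat_lit 8) (nat_lit 14))
    (@En.n l1599 (nat_lit 13089) (nat_lit 2) (nat_lit 4))
    (@En.n l28 (nat_lit 13985) (nat_lit 3) (nat_lit 4))
    (@En.i (nat_lit 14079) (nat_lit 10) (nat_lit 8))
    (@En.n l1327 (nat_lit 13138) (nat_lit 5) (nat_lit 5))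
    (@En.n l77 (nat_lit 13172) (nat_lit 7) (nat_lit 12))
    (@En.i (nat_lit 13729) (nat_lit 8) (nat_lit 12))
    (@En.n l1599 (nat_lit 13189) (nat_lit 8) (nat_lit 5))
    (@En.n l107 (nat_lit 13091) (nat_lit 9) (nat_lit 2))
    (@En.i (nat_lit 13093) (nat_lit 11) (nat_lit 11))
    (@En.n l97 (nat_lit 13092) (nat_lit 12) (nat_lit 14))
    (@En.n l12961 (nat_lit 12966) (nat_lit 13) (nat_lit 8))
    (@En.n l2568 (nat_lit 4920) (nat_lit 3) (nat_lit 11))
    (@En.n l17 (nat_lit 13091) (nat_lit 14) (nat_lit 2))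
    (@En.n l18 (nat_lit 13091) (nat_lit 15) (nat_lit 2))))
  (@Cl.mk (nat_lit 0x20002000b000e000a0002000b0005000c000c0006000500040004000e000e) (nat_lit 0x63406088000023) (nat_lit 16) Lb.e (@T16.mk En
    (@En.n l5 (nat_lit 13092) (nat_lit 1) (nat_lit 14))
    (@En.n l2100 (nat_lit 2353) (nat_lit 1) (nat_lit 14))
    (@En.n l1599 (nat_lit 13088) (nat_lit 2) (nat_lit 4))
    (@En.n l1577 (nat_lit 13644) (nat_lit 3) (nat_lit 4))
    (@En.i (nat_lit 13085) (nat_lit 4) (nat_lit 5))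
    (@En.n l4973 (nat_lit 13136) (nat_lit 5) (nat_lit 6))
    (@En.n l457 (nat_lit 13171) (nat_lit 7) (nat_lit 12))
    (@En.i (nat_lit 13718) (nat_lit 8) (nat_lit 12))
    (@En.n l2032 (nat_lit 13091) (nat_lit 8) (nat_lit 5))
    (@En.n l107 (nat_lit 13093) (nat_lit 10) (nat_lit 11))
    (@En.n l3 (nat_lit 13092) (nat_lit 10) (nat_lit 2))
    (@En.n l575 (nat_lit 13095) (nat_lit 12) (nat_lit 10))
    (@En.i (nat_lit 13101) (nat_lit 13) (nat_lit 14))
    (@En.n l2568 (nat_lit 4915) (nat_lit 2) (nat_lit 11))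
    (@En.n l17 (nat_lit 13092) (nat_lit 14) (nat_lit 2))
    (@En.n l18 (nat_lit 13092) (nat_lit 15) (nat_lit 2))))
  (@Cl.mk (nat_lit 0x20002000c0008000b000b0004000b000b00050005000800050005000e000e) (nat_lit 0x63450620040023) (nat_lit 16) Lb.e (@T16.mk En
    (@En.n l5 (nat_lit 13093) (nat_lit 1) (nat_lit 14))
    (@En.n l12962 (nat_lit 2350) (nat_lit 1) (nat_lit 14))
    (@En.n l12963 (nat_lit 13090) (nat_lit 2) (nat_lit 5))
    (@En.n l12964 (nat_lit 13983) (nat_lit 3) (nat_lit 5))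
    (@En.n l3 (nat_lit 13091) (nat_lit 4) (nat_lit 8))
    (@En.n l527 (nat_lit 13091) (nat_lit 5) (nat_lit 5))
    (@En.n l12965 (nat_lit 13139) (nat_lit 6) (nat_lit 5))
    (@En.n l11780 (nat_lit 13173) (nat_lit 8) (nat_lit 11))
    (@En.i (nat_lit 13728) (nat_lit 9) (nat_lit 11))
    (@En.n l12966 (nat_lit 13190) (nat_lit 9) (nat_lit 4))
    (@En.n l11782 (nat_lit 13213) (nat_lit 11) (nat_lit 11))
    (@En.n l12967 (nat_lit 13228) (nat_lit 12) (nat_lit 11))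
    (@En.n l625 (nat_lit 12964) (nat_lit 13) (nat_lit 8))
    (@En.n l12967 (nat_lit 4921) (nat_lit 14) (nat_lit 12))
    (@En.n l17 (nat_lit 13093) (nat_lit 14) (nat_lit 2))
    (@En.n l18 (nat_lit 13093) (nat_lit 15) (nat_lit 2))))
  (@Cl.mk (nat_lit 0x20002000c0009000900090004000e000b00020007000700070005000e000e) (nat_lit 0x54460870000067) (nat_lit 16) Lb.e (@T16.mk En
    (@En.n l97 (nat_lit 13094) (nat_lit 1) (nat_lit 14))
    (@En.n l1624 (nat_lit 2152) (nat_lit 11) (nat_lit 14))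
    (@En.n l1625 (nat_lit 13962) (nat_lit 2) (nat_lit 5))
    (@En.n l1626 (nat_lit 13096) (nat_lit 3) (nat_lit 7))
    (@En.n l1627 (nat_lit 13088) (nat_lit 4) (nat_lit 7))
    (@En.n l1628 (nat_lit 13854) (nat_lit 5) (nat_lit 7))
    (@En.n l50 (nat_lit 13094) (nat_lit 6) (nat_lit 2))
    (@En.n l1629 (nat_lit 13095) (nat_lit 8) (nat_lit 11))
    (@En.n l1626 (nat_lit 12910) (nat_lit 9) (nat_lit 14))
    (@En.n l28 (nat_lit 13090) (nat_lit 9) (nat_lit 4))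
    (@En.n l1630 (nat_lit 13227) (nat_lit 11) (nat_lit 9))
    (@En.n l61 (nat_lit 13215) (nat_lit 12) (nat_lit 9))
    (@En.n l1631 (nat_lit 12913) (nat_lit 13) (nat_lit 9))
    (@En.n l1632 (nat_lit 4991) (nat_lit 7) (nat_lit 12))
    (@En.n l107 (nat_lit 13094) (nat_lit 14) (nat_lit 2))
    (@En.n l3 (nat_lit 13094) (nat_lit 15) (nat_lit 2))))
  (@Cl.mk (nat_lit 0x20002000c000a000a000a0004000b000b00060006000600050005000e000e) (nat_lit 0x73450680000067) (nat_lit 16) Lb.e (@T16.mk En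
    (@En.n l5 (nat_lit 13095) (nat_lit 1) (nat_lit 14))
    (@En.n l1393 (nat_lit 2342) (nat_lit 1) (nat_lit 14))
    (@En.n l4974 (nat_lit 13094) (nat_lit 2) (nat_lit 5))
    (@En.n l4975 (nat_lit 13982) (nat_lit 3) (nat_lit 5))
    (@En.n l11 (nat_lit 13097) (nat_lit 4) (nat_lit 6))
    (@En.n l4976 (nat_lit 13092) (nat_lit 5) (nat_lit 6))
    (@En.n l4511 (nat_lit 13626) (nat_lit 6) (nat_lit 6))
    (@En.n l77 (nat_lit 13175) (nat_lit 8) (nat_lit 11))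
    (@En.i (nat_lit 13720) (nat_lit 9) (nat_lit 11))
    (@En.n l524 (nat_lit 13093) (nat_lit 9) (nat_lit 4))
    (@En.n l4977 (nat_lit 13228) (nat_lit 11) (nat_lit 10))
    (@En.n l1596 (nat_lit 13214) (nat_lit 12) (nat_lit 10))
    (@En.n l4978 (nat_lit 12915) (nat_lit 13) (nat_lit 10))
    (@En.i (nat_lit 4978) (nat_lit 14) (nat_lit 12))
    (@En.n l17 (nat_lit 13095) (nat_lit 14) (nat_lit 2))
    (@En.n l18 (nat_lit 13095) (nat_lit 15) (nat_lit 2))))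
  (@Cl.mk (nat_lit 0x20002000b0008000e000900020005000e000c0002000800070004000e000e) (nat_lit 0x54b50099000034) (nat_lit 16) Lb.e (@T16.mk En
    (@En.n l5 (nat_lit 13096) (nat_lit 1) (nat_lit 14))
    (@En.n l467 (nat_lit 2154) (nat_lit 8) (nat_lit 14))
    (@En.n l468 (nat_lit 13872) (nat_lit 2) (nat_lit 4))
    (@En.i (nat_lit 13084) (nat_lit 3) (nat_lit 7))
    (@En.n l469 (nat_lit 13845) (nat_lit 4) (nat_lit 8))
    (@En.n l28 (nat_lit 13096) (nat_lit 5) (nat_lit 2))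
    (@En.n l143 (nat_lit 13097) (nat_lit 7) (nat_lit 12))
    (@En.i (nat_lit 12907) (nat_lit 8) (nat_lit 14))
    (@En.n l144 (nat_lit 13088) (nat_lit 8) (nat_lit 5))
    (@En.n l67 (nat_lit 13096) (nat_lit 9) (nat_lit 2))
    (@En.n l470 (nat_lit 13094) (nat_lit 11) (nat_lit 9))
    (@En.n l471 (nat_lit 13099) (nat_lit 12) (nat_lit 14))
    (@En.n l469 (nat_lit 12914) (nat_lit 13) (nat_lit 8))
    (@En.n l472 (nat_lit 4990) (nat_lit 3) (nat_lit 11))
    (@En.n l17 (nat_lit 13096) (nat_lit 14) (nat_lit 2))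
    (@En.n l18 (nat_lit 13096) (nat_lit 15) (nat_lit 2))))
  (@Cl.mk (nat_lit 0x20002000b0009000e000a00020005000c000c0007000600040004000e000e) (nat_lit 0x83550088000056) (nat_lit 16) Lb.e (@T16.mk En
    (@En.n l5 (nat_lit 13097) (nat_lit 1) (nat_lit 14))
    (@En.n l1586 (nat_lit 2340) (nat_lit 8) (nat_lit 14))
    (@En.n l142 (nat_lit 13096) (nat_lit 2) (nat_lit 4))
    (@En.n l1587 (nat_lit 13194) (nat_lit 3) (nat_lit 4))
    (@En.i (nat_lit 13082) (nat_lit 4) (nat_lit 6))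
    (@En.n l1588 (nat_lit 13843) (nat_lit 5) (nat_lit 7))
    (@En.n l77 (nat_lit 13184) (nat_lit 7) (nat_lit 12))
    (@En.i (nat_lit 13717) (nat_lit 8) (nat_lit 12))
    (@En.n l476 (nat_lit 13092) (nat_lit 8) (nat_lit 5))
    (@En.n l67 (nat_lit 13097) (nat_lit 9) (nat_lit 2))
    (@En.n l68 (nat_lit 13095) (nat_lit 11) (nat_lit 10))
    (@En.n l1589 (nat_lit 13189) (nat_lit 12) (nat_lit 14))
    (@En.n l1590 (nat_lit 12916) (nat_lit 13) (nat_lit 9))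
    (@En.i (nat_lit 4996) (nat_lit 3) (nat_lit 11))
    (@En.n l17 (nat_lit 13097) (nat_lit 14) (nat_lit 2))
    (@En.n l18 (nat_lit 13097) (nat_lit 15) (nat_lit 2))))
  (@Cl.mk (nat_lit 0x20002000c00080008000b0004000e000b00020005000800080005000e000e) (nat_lit 0x53460770014067) (nat_lit 16) Lb.e (@T16.mk En
    (@En.n l97 (nat_lit 13098) (nat_lit 1) (nat_lit 14))
    (@En.n l5119 (nat_lit 2153) (nat_lit 11) (nat_lit 14))
    (@En.n l5120 (nat_lit 13880) (nat_lit 2) (nat_lit 5))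
    (@En.n l5121 (nat_lit 13099) (nat_lit 3) (nat_lit 8))
    (@En.n l1626 (nat_lit 13096) (nat_lit 4) (nat_lit 8))
    (@En.n l5122 (nat_lit 13709) (nat_lit 5) (nat_lit 5))
    (@En.n l50 (nat_lit 13098) (nat_lit 6) (nat_lit 2))
    (@En.n l5123 (nat_lit 13190) (nat_lit 8) (nat_lit 11))
    (@En.n l5124 (nat_lit 12913) (nat_lit 9) (nat_lit 14))
    (@En.n l617 (nat_lit 13094) (nat_lit 9) (nat_lit 4))
    (@En.n l2399 (nat_lit 13226) (nat_lit 11) (nat_lit 11))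
    (@En.i (nat_lit 13226) (nat_lit 12) (nat_lit 8))
    (@En.n l5122 (nat_lit 13219) (nat_lit 13) (nat_lit 8))
    (@En.n l4317 (nat_lit 4989) (nat_lit 7) (nat_lit 12))
    (@En.n l107 (nat_lit 13098) (nat_lit 14) (nat_lit 2))
    (@En.n l3 (nat_lit 13098) (nat_lit 15) (nat_lit 2))))
  (@Cl.mk (nat_lit 0x20002000b000e00080002000b0005000e000c0002000500080004000e000e) (nat_lit 0x5a407079003034) (nat_lit 16) Lb.e (@T16.mk En
    (@En.n l5 (nat_lit 13099) (nat_lit 1) (nat_lit 14))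
    (@En.n l125 (nat_lit 1801) (nat_lit 12) (nat_lit 14))
    (@En.n l1633 (nat_lit 13874) (nat_lit 2) (nat_lit 4))
    (@En.i (nat_lit 13083) (nat_lit 3) (nat_lit 8))
    (@En.n l1172 (nat_lit 13708) (nat_lit 4) (nat_lit 5))
    (@En.n l8 (nat_lit 13099) (nat_lit 5) (nat_lit 2))
    (@En.n l538 (nat_lit 13189) (nat_lit 7) (nat_lit 12))
    (@En.i (nat_lit 12914) (nat_lit 8) (nat_lit 14))
    (@En.n l1634 (nat_lit 13096) (nat_lit 8) (nat_lit 5))
    (@En.n l1635 (nat_lit 13098) (nat_lit 10) (nat_lit 11))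
    (@En.n l3 (nat_lit 13099) (nat_lit 10) (nat_lit 2))
    (@En.n l1636 (nat_lit 13098) (nat_lit 12) (nat_lit 8))
    (@En.n l125 (nat_lit 13753) (nat_lit 13) (nat_lit 14))
    (@En.n l387 (nat_lit 4988) (nat_lit 8) (nat_lit 11))
    (@En.n l17 (nat_lit 13099) (nat_lit 14) (nat_lit 2))
    (@En.n l18 (nat_lit 13099) (nat_lit 15) (nat_lit 2))))
  (@Cl.mk (nat_lit 0x20002000e00080002000e000a0002000e000c0002000800060004000e000e) (nat_lit 0x240c6077060034) (nat_lit 16) Lb.e (@T16.mk En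
    (@En.n l97 (nat_lit 13100) (nat_lit 1) (nat_lit 14))
    (@En.n l98 (nat_lit 2029) (nat_lit 1) (nat_lit 14))
    (@En.n l99 (nat_lit 12860) (nat_lit 2) (nat_lit 4))
    (@En.n l100 (nat_lit 13086) (nat_lit 3) (nat_lit 6))
    (@En.n l98 (nat_lit 13847) (nat_lit 4) (nat_lit 8))
    (@En.n l17 (nat_lit 13100) (nat_lit 5) (nat_lit 2))
    (@En.n l101 (nat_lit 13101) (nat_lit 7) (nat_lit 12))
    (@En.n l102 (nat_lit 12918) (nat_lit 8) (nat_lit 14))
    (@En.n l50 (nat_lit 13100) (nat_lit 8) (nat_lit 2))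
    (@En.n l103 (nat_lit 12993) (nat_lit 10) (nat_lit 10))
    (@En.n l104 (nat_lit 13096) (nat_lit 11) (nat_lit 14))
    (@En.n l28 (nat_lit 13100) (nat_lit 11) (nat_lit 2))
    (@En.n l105 (nat_lit 12907) (nat_lit 13) (nat_lit 8))
    (@En.n l106 (nat_lit 4142) (nat_lit 1) (nat_lit 14))
    (@En.n l107 (nat_lit 13100) (nat_lit 14) (nat_lit 2))
    (@En.n l3 (nat_lit 13100) (nat_lit 15) (nat_lit 2))))
  (@Cl.mk (nat_lit 0x20002000e00090002000e000b0002000c000c0007000500040004000e000e) (nat_lit 0x24066069000056) (nat_lit 16) Lb.e (@T16.mk En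
    (@En.n l5 (nat_lit 13101) (nat_lit 1) (nat_lit 14))
    (@En.n l454 (nat_lit 3945) (nat_lit 1) (nat_lit 14))
    (@En.n l455 (nat_lit 13100) (nat_lit 2) (nat_lit 4))
    (@En.n l456 (nat_lit 12861) (nat_lit 3) (nat_lit 4))
    (@En.i (nat_lit 13069) (nat_lit 4) (nat_lit 5))
    (@En.n l454 (nat_lit 13142) (nat_lit 5) (nat_lit 7))
    (@En.n l457 (nat_lit 13102) (nat_lit 7) (nat_lit 12))
    (@En.i (nat_lit 13105) (nat_lit 8) (nat_lit 12))
    (@En.n l458 (nat_lit 13101) (nat_lit 8) (nat_lit 2))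
    (@En.n l459 (nat_lit 12988) (nat_lit 10) (nat_lit 11))
    (@En.n l253 (nat_lit 13097) (nat_lit 11) (nat_lit 14))
    (@En.n l3 (nat_lit 13101) (nat_lit 11) (nat_lit 2))
    (@En.n l460 (nat_lit 12912) (nat_lit 13) (nat_lit 9))
    (@En.i (nat_lit 4140) (nat_lit 1) (nat_lit 14))
    (@En.n l17 (nat_lit 13101) (nat_lit 14) (nat_lit 2))
    (@En.n l18 (nat_lit 13101) (nat_lit 15) (nat_lit 2))))
  (@Cl.mk (nat_lit 0x20002000e000a0002000e000c0002000c00060004000e00040002000e000e) (nat_lit 0x130670800b0056) (nat_lit 16) Lb.e (@T16.mk En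
    (@En.n l5 (nat_lit 13102) (nat_lit 1) (nat_lit 14))
    (@En.n l991 (nat_lit 3701) (nat_lit 1) (nat_lit 14))
    (@En.n l7 (nat_lit 13102) (nat_lit 2) (nat_lit 2))
    (@En.n l11 (nat_lit 13101) (nat_lit 3) (nat_lit 4))
    (@En.n l127 (nat_lit 13230) (nat_lit 5) (nat_lit 14))
    (@En.n l11 (nat_lit 13071) (nat_lit 5) (nat_lit 4))
    (@En.i (nat_lit 13208) (nat_lit 6) (nat_lit 6))
    (@En.i (nat_lit 13106) (nat_lit 8) (nat_lit 12))
    (@En.n l207 (nat_lit 13102) (nat_lit 8) (nat_lit 2))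
    (@En.n l198 (nat_lit 12846) (nat_lit 10) (nat_lit 12))
    (@En.n l281 (nat_lit 13184) (nat_lit 11) (nat_lit 14))
    (@En.n l3 (nat_lit 13102) (nat_lit 11) (nat_lit 2))
    (@En.n l1576 (nat_lit 13103) (nat_lit 13) (nat_lit 10))
    (@En.i (nat_lit 2906) (nat_lit 1) (nat_lit 14))
    (@En.n l17 (nat_lit 13102) (nat_lit 14) (nat_lit 2))
    (@En.n l18 (nat_lit 13102) (nat_lit 15) (nat_lit 2))))
  (@Cl.mk (nat_lit 0x20002000a000a000e000b0002000b000600060005000e00050002000e000e) (nat_lit 0x233608000b0056) (nat_lit 16) Lb.e (@T16.mk En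
    (@En.n l97 (nat_lit 13103) (nat_lit 1) (nat_lit 14))
    (@En.i (nat_lit 3696) (nat_lit 1) (nat_lit 14))
    (@En.n l17 (nat_lit 13103) (nat_lit 2) (nat_lit 2))
    (@En.n l4377 (nat_lit 12912) (nat_lit 3) (nat_lit 5))
    (@En.i (nat_lit 13238) (nat_lit 5) (nat_lit 14))
    (@En.n l1809 (nat_lit 13424) (nat_lit 5) (nat_lit 5))
    (@En.n l4941 (nat_lit 13102) (nat_lit 6) (nat_lit 6))
    (@En.n l1809 (nat_lit 13204) (nat_lit 7) (nat_lit 6))
    (@En.n l4942 (nat_lit 13310) (nat_lit 9) (nat_lit 11))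
    (@En.n l7 (nat_lit 13103) (nat_lit 9) (nat_lit 2))
    (@En.n l169 (nat_lit 12847) (nat_lit 11) (nat_lit 11))
    (@En.n l134 (nat_lit 13187) (nat_lit 12) (nat_lit 14))
    (@En.i (nat_lit 14080) (nat_lit 13) (nat_lit 10))
    (@En.n l1809 (nat_lit 1905) (nat_lit 3) (nat_lit 10))
    (@En.n l107 (nat_lit 13103) (nat_lit 14) (nat_lit 2))
    (@En.n l3 (nat_lit 13103) (nat_lit 15) (nat_lit 2))))
noncomputable def a819 : T16 Cl := @T16.mk Cl
  (@Cl.mk (nat_lit 0x20002000e000900020009000e000c0002000c0007000400070004000e000e) (nat_lit 0x3306770a0000ab) (nat_lit 16) Lb.e (@T16.mk En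
    (@En.n l5 (nat_lit 13104) (nat_lit 1) (nat_lit 14))
    (@En.n l4484 (nat_lit 873) (nat_lit 1) (nat_lit 14))
    (@En.i (nat_lit 947) (nat_lit 2) (nat_lit 4))
    (@En.n l581 (nat_lit 13824) (nat_lit 11) (nat_lit 7))
    (@En.i (nat_lit 13106) (nat_lit 4) (nat_lit 4))
    (@En.n l4484 (nat_lit 13123) (nat_lit 5) (nat_lit 7))
    (@En.n l4485 (nat_lit 13110) (nat_lit 7) (nat_lit 12))
    (@En.n l11 (nat_lit 13104) (nat_lit 7) (nat_lit 2))
    (@En.n l55 (nat_lit 13105) (nat_lit 9) (nat_lit 12))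
    (@En.n l164 (nat_lit 13101) (nat_lit 10) (nat_lit 14))
    (@En.n l4486 (nat_lit 13716) (nat_lit 11) (nat_lit 9))
    (@En.n l3 (nat_lit 13104) (nat_lit 11) (nat_lit 2))
    (@En.n l4484 (nat_lit 12935) (nat_lit 13) (nat_lit 9))
    (@En.i (nat_lit 3358) (nat_lit 1) (nat_lit 14))
    (@En.n l17 (nat_lit 13104) (nat_lit 14) (nat_lit 2))
    (@En.n l18 (nat_lit 13104) (nat_lit 15) (nat_lit 2))))
  (@Cl.mk (nat_lit 0x20002000e000a00020009000c000c000b00060004000400070005000e000e) (nat_lit 0x740565600000ab) (nat_lit 16) Lb.e (@T16.mk En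
    (@En.n l5 (nat_lit 13105) (nat_lit 1) (nat_lit 14))
    (@En.n l572 (nat_lit 867) (nat_lit 1) (nat_lit 14))
    (@En.n l28 (nat_lit 12919) (nat_lit 2) (nat_lit 5))
    (@En.n l343 (nat_lit 13104) (nat_lit 3) (nat_lit 7))
    (@En.n l1577 (nat_lit 13104) (nat_lit 4) (nat_lit 4))
    (@En.i (nat_lit 13107) (nat_lit 5) (nat_lit 4))
    (@En.n l572 (nat_lit 13121) (nat_lit 6) (nat_lit 6))
    (@En.n l457 (nat_lit 13108) (nat_lit 8) (nat_lit 11))
    (@En.n l1578 (nat_lit 13114) (nat_lit 9) (nat_lit 12))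
    (@En.n l572 (nat_lit 12976) (nat_lit 10) (nat_lit 12))
    (@En.i (nat_lit 12945) (nat_lit 11) (nat_lit 9))
    (@En.n l3 (nat_lit 13105) (nat_lit 11) (nat_lit 2))
    (@En.i (nat_lit 12936) (nat_lit 13) (nat_lit 10))
    (@En.i (nat_lit 3357) (nat_lit 1) (nat_lit 14))
    (@En.n l17 (nat_lit 13105) (nat_lit 14) (nat_lit 2))
    (@En.n l18 (nat_lit 13105) (nat_lit 15) (nat_lit 2))))
  (@Cl.mk (nat_lit 0x20002000e000b00020009000d000c00050003000d000400070003000e000e) (nat_lit 0xb3056700a0009a) (nat_lit 16) Lb.e (@T16.mk En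
    (@En.n l5 (nat_lit 13106) (nat_lit 1) (nat_lit 14))
    (@En.i (nat_lit 6320) (nat_lit 1) (nat_lit 14))
    (@En.i (nat_lit 13108) (nat_lit 2) (nat_lit 3))
    (@En.i (nat_lit 13240) (nat_lit 3) (nat_lit 7))
    (@En.n l11 (nat_lit 13105) (nat_lit 4) (nat_lit 4))
    (@En.n l127 (nat_lit 13111) (nat_lit 6) (nat_lit 13))
    (@En.n l11 (nat_lit 13109) (nat_lit 6) (nat_lit 3))
    (@En.i (nat_lit 13485) (nat_lit 7) (nat_lit 5))
    (@En.n l55 (nat_lit 13107) (nat_lit 9) (nat_lit 12))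
    (@En.n l164 (nat_lit 13069) (nat_lit 10) (nat_lit 13))
    (@En.i (nat_lit 13674) (nat_lit 11) (nat_lit 9))
    (@En.n l3 (nat_lit 13106) (nat_lit 11) (nat_lit 2))
    (@En.i (nat_lit 13310) (nat_lit 13) (nat_lit 11))
    (@En.i (nat_lit 3359) (nat_lit 1) (nat_lit 14))
    (@En.n l17 (nat_lit 13106) (nat_lit 14) (nat_lit 2))
    (@En.n l18 (nat_lit 13106) (nat_lit 15) (nat_lit 2))))
  (@Cl.mk (nat_lit 0x20002000e000c00020009000c0004000d000c0004000300070004000e000e) (nat_lit 0x3404606900009a) (nat_lit 16) Lb.e (@T16.mk En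
    (@En.n l5 (nat_lit 13107) (nat_lit 1) (nat_lit 14))
    (@En.i (nat_lit 6321) (nat_lit 1) (nat_lit 14))
    (@En.n l28 (nat_lit 13376) (nat_lit 2) (nat_lit 4))
    (@En.n l343 (nat_lit 13106) (nat_lit 3) (nat_lit 7))
    (@En.n l28 (nat_lit 13109) (nat_lit 4) (nat_lit 3))
    (@En.i (nat_lit 13114) (nat_lit 5) (nat_lit 4))
    (@En.n l77 (nat_lit 13112) (nat_lit 7) (nat_lit 12))
    (@En.i (nat_lit 12789) (nat_lit 8) (nat_lit 13))
    (@En.n l117 (nat_lit 13995) (nat_lit 8) (nat_lit 4))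
    (@En.i (nat_lit 13459) (nat_lit 10) (nat_lit 12))
    (@En.i (nat_lit 13054) (nat_lit 11) (nat_lit 9))
    (@En.n l3 (nat_lit 13107) (nat_lit 11) (nat_lit 2))
    (@En.i (nat_lit 13312) (nat_lit 13) (nat_lit 12))
    (@En.i (nat_lit 3360) (nat_lit 1) (nat_lit 14))
    (@En.n l17 (nat_lit 13107) (nat_lit 14) (nat_lit 2))
    (@En.n l18 (nat_lit 13107) (nat_lit 15) (nat_lit 2))))
  (@Cl.mk (nat_lit 0x20002000e000b0002000a000d000b00050003000d000600050003000e000e) (nat_lit 0xb3056500a000ab) (nat_lit 16) Lb.e (@T16.mk En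
    (@En.n l5 (nat_lit 13108) (nat_lit 1) (nat_lit 14))
    (@En.n l420 (nat_lit 7348) (nat_lit 1) (nat_lit 14))
    (@En.n l7 (nat_lit 13106) (nat_lit 2) (nat_lit 3))
    (@En.n l94 (nat_lit 12931) (nat_lit 3) (nat_lit 5))
    (@En.i (nat_lit 13110) (nat_lit 4) (nat_lit 6))
    (@En.n l127 (nat_lit 13113) (nat_lit 6) (nat_lit 13))
    (@En.n l11 (nat_lit 13112) (nat_lit 6) (nat_lit 3))
    (@En.i (nat_lit 13479) (nat_lit 7) (nat_lit 5))
    (@En.i (nat_lit 13376) (nat_lit 9) (nat_lit 11))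
    (@En.i (nat_lit 13086) (nat_lit 10) (nat_lit 13))
    (@En.i (nat_lit 14030) (nat_lit 11) (nat_lit 10))
    (@En.n l3 (nat_lit 13108) (nat_lit 11) (nat_lit 2))
    (@En.n l439 (nat_lit 13315) (nat_lit 13) (nat_lit 11))
    (@En.i (nat_lit 3361) (nat_lit 1) (nat_lit 14))
    (@En.n l17 (nat_lit 13108) (nat_lit 14) (nat_lit 2))
    (@En.n l18 (nat_lit 13108) (nat_lit 15) (nat_lit 2))))
  (@Cl.mk (nat_lit 0x20002000e000c00020009000d0004000d0003000d000300070003000e000e) (nat_lit 0x9404608090009a) (nat_lit 16) Lb.e (@T16.mk En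
    (@En.n l5 (nat_lit 13109) (nat_lit 1) (nat_lit 14))
    (@En.i (nat_lit 6319) (nat_lit 1) (nat_lit 14))
    (@En.i (nat_lit 13112) (nat_lit 2) (nat_lit 3))
    (@En.i (nat_lit 13235) (nat_lit 3) (nat_lit 7))
    (@En.i (nat_lit 13107) (nat_lit 4) (nat_lit 3))
    (@En.i (nat_lit 12982) (nat_lit 6) (nat_lit 13))
    (@En.i (nat_lit 13106) (nat_lit 6) (nat_lit 3))
    (@En.i (nat_lit 12848) (nat_lit 8) (nat_lit 13))
    (@En.n l117 (nat_lit 13994) (nat_lit 8) (nat_lit 4))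
    (@En.i (nat_lit 13064) (nat_lit 10) (nat_lit 13))
    (@En.i (nat_lit 13057) (nat_lit 11) (nat_lit 9))
    (@En.n l3 (nat_lit 13109) (nat_lit 11) (nat_lit 2))
    (@En.i (nat_lit 13311) (nat_lit 13) (nat_lit 12))
    (@En.i (nat_lit 3362) (nat_lit 1) (nat_lit 14))
    (@En.n l17 (nat_lit 13109) (nat_lit 14) (nat_lit 2))
    (@En.n l18 (nat_lit 13109) (nat_lit 15) (nat_lit 2))))
  (@Cl.mk (nat_lit 0x20002000e000a0002000a0009000d000c00060003000600040007000e000e) (nat_lit 0x240667900000ab) (nat_lit 16) Lb.e (@T16.mk En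
    (@En.n l5 (nat_lit 13110) (nat_lit 1) (nat_lit 14))
    (@En.n l420 (nat_lit 7349) (nat_lit 1) (nat_lit 14))
    (@En.n l581 (nat_lit 13233) (nat_lit 2) (nat_lit 7))
    (@En.n l11 (nat_lit 12920) (nat_lit 3) (nat_lit 4))
    (@En.i (nat_lit 13017) (nat_lit 4) (nat_lit 6))
    (@En.n l11 (nat_lit 13111) (nat_lit 5) (nat_lit 3))
    (@En.n l581 (nat_lit 13481) (nat_lit 6) (nat_lit 6))
    (@En.n l55 (nat_lit 13113) (nat_lit 8) (nat_lit 12))
    (@En.n l8 (nat_lit 13108) (nat_lit 9) (nat_lit 13))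
    (@En.i (nat_lit 13106) (nat_lit 10) (nat_lit 9))
    (@En.n l591 (nat_lit 14035) (nat_lit 11) (nat_lit 10))
    (@En.n l3 (nat_lit 13110) (nat_lit 11) (nat_lit 2))
    (@En.i (nat_lit 13317) (nat_lit 13) (nat_lit 10))
    (@En.i (nat_lit 3365) (nat_lit 1) (nat_lit 14))
    (@En.n l17 (nat_lit 13110) (nat_lit 14) (nat_lit 2))
    (@En.n l18 (nat_lit 13110) (nat_lit 15) (nat_lit 2))))
  (@Cl.mk (nat_lit 0x20002000e000b0002000a0009000d0005000d0003000600030007000e000e) (nat_lit 0x23045609000067) (nat_lit 16) Lb.e (@T16.mk En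
    (@En.n l5 (nat_lit 13111) (nat_lit 1) (nat_lit 14))
    (@En.n l420 (nat_lit 3057) (nat_lit 1) (nat_lit 14))
    (@En.n l4424 (nat_lit 13231) (nat_lit 2) (nat_lit 7))
    (@En.i (nat_lit 13113) (nat_lit 3) (nat_lit 3))
    (@En.i (nat_lit 12991) (nat_lit 4) (nat_lit 6))
    (@En.i (nat_lit 13110) (nat_lit 5) (nat_lit 3))
    (@En.n l1603 (nat_lit 12852) (nat_lit 7) (nat_lit 13))
    (@En.n l117 (nat_lit 13897) (nat_lit 7) (nat_lit 5))
    (@En.n l8 (nat_lit 13112) (nat_lit 9) (nat_lit 13))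
    (@En.i (nat_lit 13109) (nat_lit 10) (nat_lit 9))
    (@En.n l420 (nat_lit 14034) (nat_lit 11) (nat_lit 10))
    (@En.n l3 (nat_lit 13111) (nat_lit 11) (nat_lit 2))
    (@En.i (nat_lit 13314) (nat_lit 13) (nat_lit 11))
    (@En.i (nat_lit 3364) (nat_lit 1) (nat_lit 14))
    (@En.n l17 (nat_lit 13111) (nat_lit 14) (nat_lit 2))
    (@En.n l18 (nat_lit 13111) (nat_lit 15) (nat_lit 2))))
  (@Cl.mk (nat_lit 0x20002000e000c0002000a000d0004000c0003000d000600040003000e000e) (nat_lit 0x23055080b0009a) (nat_lit 16) Lb.e (@T16.mk En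
    (@En.n l5 (nat_lit 13112) (nat_lit 1) (nat_lit 14))
    (@En.n l420 (nat_lit 7323) (nat_lit 1) (nat_lit 14))
    (@En.n l7 (nat_lit 13109) (nat_lit 2) (nat_lit 3))
    (@En.i (nat_lit 13366) (nat_lit 3) (nat_lit 4))
    (@En.i (nat_lit 13111) (nat_lit 4) (nat_lit 6))
    (@En.n l417 (nat_lit 12980) (nat_lit 6) (nat_lit 13))
    (@En.i (nat_lit 13108) (nat_lit 6) (nat_lit 3))
    (@En.i (nat_lit 12850) (nat_lit 8) (nat_lit 12))
    (@En.n l117 (nat_lit 14002) (nat_lit 8) (nat_lit 4))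
    (@En.i (nat_lit 13066) (nat_lit 10) (nat_lit 13))
    (@En.i (nat_lit 14032) (nat_lit 11) (nat_lit 10))
    (@En.n l3 (nat_lit 13112) (nat_lit 11) (nat_lit 2))
    (@En.i (nat_lit 13313) (nat_lit 13) (nat_lit 12))
    (@En.i (nat_lit 3363) (nat_lit 1) (nat_lit 14))
    (@En.n l17 (nat_lit 13112) (nat_lit 14) (nat_lit 2))
    (@En.n l18 (nat_lit 13112) (nat_lit 15) (nat_lit 2))))
  (@Cl.mk (nat_lit 0x20002000e000b0002000b0009000c0005000d0005000400030007000e000e) (nat_lit 0x2404580900009a) (nat_lit 16) Lb.e (@T16.mk En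
    (@En.n l5 (nat_lit 13113) (nat_lit 1) (nat_lit 14))
    (@En.n l420 (nat_lit 3052) (nat_lit 1) (nat_lit 14))
    (@En.n l343 (nat_lit 13110) (nat_lit 2) (nat_lit 7))
    (@En.n l28 (nat_lit 13111) (nat_lit 3) (nat_lit 3))
    (@En.n l395 (nat_lit 12923) (nat_lit 4) (nat_lit 4))
    (@En.i (nat_lit 13016) (nat_lit 5) (nat_lit 5))
    (@En.n l1378 (nat_lit 12853) (nat_lit 7) (nat_lit 13))
    (@En.n l1379 (nat_lit 13489) (nat_lit 7) (nat_lit 5))
    (@En.n l8 (nat_lit 13366) (nat_lit 9) (nat_lit 12))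
    (@En.i (nat_lit 13107) (nat_lit 10) (nat_lit 9))
    (@En.n l420 (nat_lit 13981) (nat_lit 11) (nat_lit 11))
    (@En.n l3 (nat_lit 13113) (nat_lit 11) (nat_lit 2))
    (@En.n l1380 (nat_lit 13316) (nat_lit 13) (nat_lit 11))
    (@En.i (nat_lit 3366) (nat_lit 1) (nat_lit 14))
    (@En.n l17 (nat_lit 13113) (nat_lit 14) (nat_lit 2))
    (@En.n l18 (nat_lit 13113) (nat_lit 15) (nat_lit 2))))
  (@Cl.mk (nat_lit 0x20002000e000b00020009000c000a0005000e0004000200070006000e000e) (nat_lit 0x32064709000012) (nat_lit 16) Lb.e (@T16.mk En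
    (@En.n l5 (nat_lit 13114) (nat_lit 1) (nat_lit 14))
    (@En.n l313 (nat_lit 868) (nat_lit 13) (nat_lit 14))
    (@En.i (nat_lit 12930) (nat_lit 2) (nat_lit 6))
    (@En.n l536 (nat_lit 13105) (nat_lit 3) (nat_lit 7))
    (@En.n l28 (nat_lit 13114) (nat_lit 4) (nat_lit 2))
    (@En.n l11 (nat_lit 13105) (nat_lit 5) (nat_lit 4))
    (@En.n l395 (nat_lit 13044) (nat_lit 7) (nat_lit 14))
    (@En.n l313 (nat_lit 13120) (nat_lit 7) (nat_lit 5))
    (@En.i (nat_lit 13378) (nat_lit 9) (nat_lit 10))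
    (@En.n l313 (nat_lit 12979) (nat_lit 10) (nat_lit 12))
    (@En.i (nat_lit 13115) (nat_lit 11) (nat_lit 9))
    (@En.n l3 (nat_lit 13114) (nat_lit 11) (nat_lit 2))
    (@En.n l310 (nat_lit 12938) (nat_lit 13) (nat_lit 11))
    (@En.i (nat_lit 3356) (nat_lit 1) (nat_lit 14))
    (@En.n l17 (nat_lit 13114) (nat_lit 14) (nat_lit 2))
    (@En.n l18 (nat_lit 13114) (nat_lit 15) (nat_lit 2))))
  (@Cl.mk (nat_lit 0x200020006000c0009000c00090004000e000400020007000a0007000e000e) (nat_lit 0x2554080005012) (nat_lit 16) Lb.e (@T16.mk En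
    (@En.n l5 (nat_lit 13115) (nat_lit 1) (nat_lit 14))
    (@En.n l170 (nat_lit 395) (nat_lit 12) (nat_lit 14))
    (@En.n l1385 (nat_lit 12938) (nat_lit 2) (nat_lit 7))
    (@En.i (nat_lit 13730) (nat_lit 3) (nat_lit 10))
    (@En.n l536 (nat_lit 12945) (nat_lit 4) (nat_lit 7))
    (@En.n l28 (nat_lit 13115) (nat_lit 5) (nat_lit 2))
    (@En.n l11 (nat_lit 12945) (nat_lit 6) (nat_lit 4))
    (@En.n l5242 (nat_lit 13047) (nat_lit 8) (nat_lit 14))
    (@En.n l1925 (nat_lit 13118) (nat_lit 8) (nat_lit 4))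
    (@En.i (nat_lit 14021) (nat_lit 10) (nat_lit 9))
    (@En.n l170 (nat_lit 13731) (nat_lit 11) (nat_lit 12))
    (@En.n l1919 (nat_lit 13116) (nat_lit 12) (nat_lit 9))
    (@En.n l1668 (nat_lit 12941) (nat_lit 13) (nat_lit 12))
    (@En.n l170 (nat_lit 391) (nat_lit 14) (nat_lit 6))
    (@En.n l17 (nat_lit 13115) (nat_lit 14) (nat_lit 2))
    (@En.n l18 (nat_lit 13115) (nat_lit 15) (nat_lit 2))))
  (@Cl.mk (nat_lit 0x2000200060009000c0008000b000e0004000200070005000a0008000e000e) (nat_lit 0x4463b00006623) (nat_lit 16) Lb.e (@T16.mk En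
    (@En.n l134 (nat_lit 13116) (nat_lit 1) (nat_lit 14))
    (@En.n l1889 (nat_lit 397) (nat_lit 11) (nat_lit 14))
    (@En.n l3663 (nat_lit 12941) (nat_lit 2) (nat_lit 8))
    (@En.n l5330 (nat_lit 13115) (nat_lit 3) (nat_lit 10))
    (@En.n l897 (nat_lit 13117) (nat_lit 4) (nat_lit 5))
    (@En.n l3337 (nat_lit 12944) (nat_lit 5) (nat_lit 7))
    (@En.n l17 (nat_lit 13116) (nat_lit 6) (nat_lit 2))
    (@En.n l2869 (nat_lit 12944) (nat_lit 7) (nat_lit 4))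
    (@En.n l1889 (nat_lit 13049) (nat_lit 9) (nat_lit 14))
    (@En.n l2579 (nat_lit 267) (nat_lit 10) (nat_lit 11))
    (@En.n l5612 (nat_lit 14022) (nat_lit 11) (nat_lit 8))
    (@En.n l1643 (nat_lit 13118) (nat_lit 12) (nat_lit 12))
    (@En.n l2036 (nat_lit 13554) (nat_lit 13) (nat_lit 9))
    (@En.n l1643 (nat_lit 390) (nat_lit 14) (nat_lit 6))
    (@En.n l7 (nat_lit 13116) (nat_lit 14) (nat_lit 2))
    (@En.n l28 (nat_lit 13116) (nat_lit 15) (nat_lit 2))))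
  (@Cl.mk (nat_lit 0x200020006000c000b0008000b0004000e000500020005000a0008000e000e) (nat_lit 0x23230c0006323) (nat_lit 16) Lb.e (@T16.mk En
    (@En.n l1578 (nat_lit 13117) (nat_lit 1) (nat_lit 14))
    (@En.n l1643 (nat_lit 400) (nat_lit 12) (nat_lit 14))
    (@En.n l5144 (nat_lit 12942) (nat_lit 2) (nat_lit 8))
    (@En.n l1262 (nat_lit 13719) (nat_lit 3) (nat_lit 10))
    (@En.n l2039 (nat_lit 13609) (nat_lit 4) (nat_lit 5))
    (@En.n l17 (nat_lit 13117) (nat_lit 5) (nat_lit 2))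
    (@En.n l215 (nat_lit 13610) (nat_lit 6) (nat_lit 5))
    (@En.n l998 (nat_lit 13116) (nat_lit 8) (nat_lit 14))
    (@En.n l13323 (nat_lit 13115) (nat_lit 8) (nat_lit 4))
    (@En.n l613 (nat_lit 268) (nat_lit 10) (nat_lit 11))
    (@En.n l1262 (nat_lit 14023) (nat_lit 11) (nat_lit 8))
    (@En.n l217 (nat_lit 13119) (nat_lit 12) (nat_lit 11))
    (@En.n l1889 (nat_lit 13929) (nat_lit 13) (nat_lit 12))
    (@En.i (nat_lit 399) (nat_lit 7) (nat_lit 6))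
    (@En.n l28 (nat_lit 13117) (nat_lit 14) (nat_lit 2))
    (@En.n l11 (nat_lit 13117) (nat_lit 15) (nat_lit 2))))
  (@Cl.mk (nat_lit 0x200020006000c0007000a000d0004000e000300020006000a0009000e000e) (nat_lit 0x3017090008723) (nat_lit 16) Lb.e (@T16.mk En
    (@En.n l1578 (nat_lit 13118) (nat_lit 1) (nat_lit 14))
    (@En.n l1643 (nat_lit 527) (nat_lit 12) (nat_lit 14))
    (@En.n l5144 (nat_lit 13120) (nat_lit 2) (nat_lit 9))
    (@En.n l4758 (nat_lit 13731) (nat_lit 3) (nat_lit 10))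
    (@En.n l617 (nat_lit 13119) (nat_lit 4) (nat_lit 6))
    (@En.n l17 (nat_lit 13118) (nat_lit 5) (nat_lit 2))
    (@En.i (nat_lit 13119) (nat_lit 6) (nat_lit 3))
    (@En.n l1997 (nat_lit 13948) (nat_lit 8) (nat_lit 14))
    (@En.i (nat_lit 13117) (nat_lit 8) (nat_lit 4))
    (@En.n l1643 (nat_lit 13742) (nat_lit 10) (nat_lit 13))
    (@En.i (nat_lit 265) (nat_lit 11) (nat_lit 10))
    (@En.n l11235 (nat_lit 937) (nat_lit 12) (nat_lit 7))
    (@En.n l1889 (nat_lit 13127) (nat_lit 13) (nat_lit 12))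
    (@En.i (nat_lit 530) (nat_lit 7) (nat_lit 6))
    (@En.n l28 (nat_lit 13118) (nat_lit 14) (nat_lit 2))
    (@En.n l11 (nat_lit 13118) (nat_lit 15) (nat_lit 2))))
  (@Cl.mk (nat_lit 0x200020006000b0007000a000d000d0005000300030006000a0009000e000e) (nat_lit 0x2027800008723) (nat_lit 16) Lb.e (@T16.mk En
    (@En.n l1578 (nat_lit 13119) (nat_lit 1) (nat_lit 14))
    (@En.n l1643 (nat_lit 523) (nat_lit 1) (nat_lit 14))
    (@En.n l5144 (nat_lit 13121) (nat_lit 2) (nat_lit 9))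
    (@En.n l4758 (nat_lit 13732) (nat_lit 3) (nat_lit 10))
    (@En.n l1295 (nat_lit 13122) (nat_lit 4) (nat_lit 6))
    (@En.n l2101 (nat_lit 13122) (nat_lit 5) (nat_lit 3))
    (@En.n l18 (nat_lit 13118) (nat_lit 6) (nat_lit 3))
    (@En.n l947 (nat_lit 13609) (nat_lit 7) (nat_lit 5))
    (@En.n l61 (nat_lit 13118) (nat_lit 9) (nat_lit 13))
    (@En.n l1643 (nat_lit 13743) (nat_lit 10) (nat_lit 13))
    (@En.n l798 (nat_lit 263) (nat_lit 11) (nat_lit 10))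
    (@En.n l7915 (nat_lit 940) (nat_lit 12) (nat_lit 7))
    (@En.n l12639 (nat_lit 13580) (nat_lit 13) (nat_lit 11))
    (@En.i (nat_lit 529) (nat_lit 14) (nat_lit 6))
    (@En.n l28 (nat_lit 13119) (nat_lit 14) (nat_lit 2))
    (@En.n l11 (nat_lit 13119) (nat_lit 15) (nat_lit 2))))
noncomputable def a820 : T16 Cl := @T16.mk Cl
  (@Cl.mk (nat_lit 0x20002000d000b00070003000a000d0005000e0003000200060009000e000e) (nat_lit 0x2400270900069a) (nat_lit 16) Lb.e (@T16.mk En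
    (@En.n l97 (nat_lit 13120) (nat_lit 1) (nat_lit 14))
    (@En.i (nat_lit 522) (nat_lit 13) (nat_lit 14))
    (@En.n l387 (nat_lit 13492) (nat_lit 2) (nat_lit 9))
    (@En.n l1738 (nat_lit 13121) (nat_lit 3) (nat_lit 6))
    (@En.n l18 (nat_lit 13120) (nat_lit 4) (nat_lit 2))
    (@En.i (nat_lit 13121) (nat_lit 5) (nat_lit 3))
    (@En.n l699 (nat_lit 13949) (nat_lit 0) (nat_lit 14))
    (@En.i (nat_lit 12942) (nat_lit 7) (nat_lit 5))
    (@En.i (nat_lit 12984) (nat_lit 9) (nat_lit 13))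
    (@En.n l4829 (nat_lit 13118) (nat_lit 10) (nat_lit 10))
    (@En.n l28 (nat_lit 13125) (nat_lit 10) (nat_lit 3))
    (@En.i (nat_lit 941) (nat_lit 12) (nat_lit 7))
    (@En.n l77 (nat_lit 13581) (nat_lit 13) (nat_lit 11))
    (@En.n l2568 (nat_lit 579) (nat_lit 9) (nat_lit 13))
    (@En.n l107 (nat_lit 13120) (nat_lit 14) (nat_lit 2))
    (@En.n l3 (nat_lit 13120) (nat_lit 15) (nat_lit 2))))
  (@Cl.mk (nat_lit 0x20002000d000a00070003000a000d000d00060003000300060009000e000e) (nat_lit 0x1200378000069a) (nat_lit 16) Lb.e (@T16.mk En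
    (@En.n l97 (nat_lit 13121) (nat_lit 1) (nat_lit 14))
    (@En.i (nat_lit 508) (nat_lit 1) (nat_lit 14))
    (@En.n l387 (nat_lit 13493) (nat_lit 2) (nat_lit 9))
    (@En.n l2114 (nat_lit 13123) (nat_lit 3) (nat_lit 6))
    (@En.n l1959 (nat_lit 13123) (nat_lit 4) (nat_lit 3))
    (@En.n l50 (nat_lit 13120) (nat_lit 5) (nat_lit 3))
    (@En.n l829 (nat_lit 13618) (nat_lit 6) (nat_lit 6))
    (@En.n l217 (nat_lit 13120) (nat_lit 8) (nat_lit 13))
    (@En.i (nat_lit 12985) (nat_lit 9) (nat_lit 13))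
    (@En.n l4829 (nat_lit 13119) (nat_lit 10) (nat_lit 10))
    (@En.n l28 (nat_lit 13124) (nat_lit 10) (nat_lit 3))
    (@En.n l1481 (nat_lit 936) (nat_lit 12) (nat_lit 7))
    (@En.i (nat_lit 13578) (nat_lit 13) (nat_lit 10))
    (@En.n l1481 (nat_lit 572) (nat_lit 14) (nat_lit 13))
    (@En.n l107 (nat_lit 13121) (nat_lit 14) (nat_lit 2))
    (@En.n l3 (nat_lit 13121) (nat_lit 15) (nat_lit 2))))
  (@Cl.mk (nat_lit 0x200020006000a0007000a000e000d0002000600030006000a0009000e000e) (nat_lit 0x2017800008723) (nat_lit 16) Lb.e (@T16.mk En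
    (@En.n l180 (nat_lit 13122) (nat_lit 1) (nat_lit 14))
    (@En.i (nat_lit 525) (nat_lit 10) (nat_lit 14))
    (@En.n l2038 (nat_lit 13123) (nat_lit 2) (nat_lit 9))
    (@En.n l3486 (nat_lit 13810) (nat_lit 3) (nat_lit 10))
    (@En.n l1998 (nat_lit 13948) (nat_lit 4) (nat_lit 6))
    (@En.n l3291 (nat_lit 13119) (nat_lit 5) (nat_lit 3))
    (@En.i (nat_lit 13607) (nat_lit 6) (nat_lit 6))
    (@En.n l18 (nat_lit 13122) (nat_lit 7) (nat_lit 2))
    (@En.n l1012 (nat_lit 13119) (nat_lit 9) (nat_lit 13))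
    (@En.n l1063 (nat_lit 13811) (nat_lit 10) (nat_lit 14))
    (@En.n l1998 (nat_lit 264) (nat_lit 11) (nat_lit 10))
    (@En.n l20928 (nat_lit 938) (nat_lit 12) (nat_lit 7))
    (@En.n l1643 (nat_lit 13579) (nat_lit 13) (nat_lit 10))
    (@En.i (nat_lit 531) (nat_lit 5) (nat_lit 6))
    (@En.n l11 (nat_lit 13122) (nat_lit 14) (nat_lit 2))
    (@En.n l107 (nat_lit 13122) (nat_lit 15) (nat_lit 2))))
  (@Cl.mk (nat_lit 0x20002000d000900070003000a000e000d00020007000300060009000e000e) (nat_lit 0x2200278000069a) (nat_lit 16) Lb.e (@T16.mk En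
    (@En.n l97 (nat_lit 13123) (nat_lit 1) (nat_lit 14))
    (@En.i (nat_lit 517) (nat_lit 11) (nat_lit 14))
    (@En.n l313 (nat_lit 13494) (nat_lit 2) (nat_lit 9))
    (@En.n l699 (nat_lit 13949) (nat_lit 12) (nat_lit 6))
    (@En.n l1063 (nat_lit 13121) (nat_lit 4) (nat_lit 3))
    (@En.i (nat_lit 13616) (nat_lit 5) (nat_lit 7))
    (@En.n l18 (nat_lit 13123) (nat_lit 6) (nat_lit 2))
    (@En.n l1708 (nat_lit 13121) (nat_lit 8) (nat_lit 13))
    (@En.n l1063 (nat_lit 13142) (nat_lit 9) (nat_lit 14))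
    (@En.n l1599 (nat_lit 13122) (nat_lit 10) (nat_lit 10))
    (@En.n l28 (nat_lit 13126) (nat_lit 10) (nat_lit 3))
    (@En.n l1856 (nat_lit 942) (nat_lit 12) (nat_lit 7))
    (@En.i (nat_lit 13577) (nat_lit 13) (nat_lit 9))
    (@En.n l1391 (nat_lit 578) (nat_lit 7) (nat_lit 13))
    (@En.n l107 (nat_lit 13123) (nat_lit 14) (nat_lit 2))
    (@En.n l3 (nat_lit 13123) (nat_lit 15) (nat_lit 2))))
  (@Cl.mk (nat_lit 0x20002000d0006000b0003000a000d000d0005000300030006000a000e000e) (nat_lit 0x20301ab0000712) (nat_lit 16) Lb.e (@T16.mk En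
    (@En.n l97 (nat_lit 13124) (nat_lit 1) (nat_lit 14))
    (@En.i (nat_lit 515) (nat_lit 1) (nat_lit 14))
    (@En.n l387 (nat_lit 13160) (nat_lit 2) (nat_lit 10))
    (@En.n l2114 (nat_lit 13126) (nat_lit 3) (nat_lit 6))
    (@En.n l1959 (nat_lit 13126) (nat_lit 4) (nat_lit 3))
    (@En.n l50 (nat_lit 13125) (nat_lit 5) (nat_lit 3))
    (@En.n l829 (nat_lit 13588) (nat_lit 6) (nat_lit 5))
    (@En.n l217 (nat_lit 13125) (nat_lit 8) (nat_lit 13))
    (@En.i (nat_lit 13156) (nat_lit 9) (nat_lit 13))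
    (@En.n l2568 (nat_lit 245) (nat_lit 10) (nat_lit 10))
    (@En.i (nat_lit 13121) (nat_lit 10) (nat_lit 3))
    (@En.i (nat_lit 12833) (nat_lit 12) (nat_lit 11))
    (@En.n l6052 (nat_lit 13119) (nat_lit 13) (nat_lit 6))
    (@En.n l2568 (nat_lit 580) (nat_lit 14) (nat_lit 13))
    (@En.n l107 (nat_lit 13124) (nat_lit 14) (nat_lit 2))
    (@En.n l3 (nat_lit 13124) (nat_lit 15) (nat_lit 2))))
  (@Cl.mk (nat_lit 0x20002000d0006000c0003000a000d0004000e000300020006000a000e000e) (nat_lit 0x10301a03000712) (nat_lit 16) Lb.e (@T16.mk En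
    (@En.n l97 (nat_lit 13125) (nat_lit 1) (nat_lit 14))
    (@En.i (nat_lit 520) (nat_lit 13) (nat_lit 14))
    (@En.n l387 (nat_lit 13159) (nat_lit 2) (nat_lit 10))
    (@En.n l1738 (nat_lit 13124) (nat_lit 3) (nat_lit 6))
    (@En.n l18 (nat_lit 13125) (nat_lit 4) (nat_lit 2))
    (@En.i (nat_lit 13124) (nat_lit 5) (nat_lit 3))
    (@En.n l699 (nat_lit 13946) (nat_lit 0) (nat_lit 14))
    (@En.i (nat_lit 13583) (nat_lit 7) (nat_lit 4))
    (@En.i (nat_lit 13157) (nat_lit 9) (nat_lit 13))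
    (@En.n l2568 (nat_lit 246) (nat_lit 10) (nat_lit 10))
    (@En.i (nat_lit 13120) (nat_lit 10) (nat_lit 3))
    (@En.i (nat_lit 14046) (nat_lit 12) (nat_lit 12))
    (@En.n l6052 (nat_lit 13118) (nat_lit 13) (nat_lit 6))
    (@En.n l2568 (nat_lit 581) (nat_lit 9) (nat_lit 13))
    (@En.n l107 (nat_lit 13125) (nat_lit 14) (nat_lit 2))
    (@En.n l3 (nat_lit 13125) (nat_lit 15) (nat_lit 2))))
  (@Cl.mk (nat_lit 0x20002000d0006000a0003000a000e000d0002000600030006000a000e000e) (nat_lit 0x104021b0000712) (nat_lit 16) Lb.e (@T16.mk En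
    (@En.n l97 (nat_lit 13126) (nat_lit 1) (nat_lit 14))
    (@En.i (nat_lit 516) (nat_lit 11) (nat_lit 14))
    (@En.n l1784 (nat_lit 13169) (nat_lit 2) (nat_lit 10))
    (@En.n l699 (nat_lit 13946) (nat_lit 12) (nat_lit 6))
    (@En.n l1063 (nat_lit 13124) (nat_lit 4) (nat_lit 3))
    (@En.i (nat_lit 13589) (nat_lit 5) (nat_lit 6))
    (@En.n l18 (nat_lit 13126) (nat_lit 6) (nat_lit 2))
    (@En.n l1708 (nat_lit 13124) (nat_lit 8) (nat_lit 13))
    (@En.n l1063 (nat_lit 286) (nat_lit 9) (nat_lit 14))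
    (@En.i (nat_lit 262) (nat_lit 10) (nat_lit 10))
    (@En.i (nat_lit 13123) (nat_lit 10) (nat_lit 3))
    (@En.i (nat_lit 14048) (nat_lit 12) (nat_lit 10))
    (@En.n l159 (nat_lit 13122) (nat_lit 13) (nat_lit 6))
    (@En.i (nat_lit 582) (nat_lit 7) (nat_lit 13))
    (@En.n l107 (nat_lit 13126) (nat_lit 14) (nat_lit 2))
    (@En.n l3 (nat_lit 13126) (nat_lit 15) (nat_lit 2))))
  (@Cl.mk (nat_lit 0x20002000c00060009000c0004000b000e0004000200070005000a000e000e) (nat_lit 0x205403b0000612) (nat_lit 16) Lb.e (@T16.mk En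
    (@En.n l97 (nat_lit 13127) (nat_lit 1) (nat_lit 14))
    (@En.i (nat_lit 318) (nat_lit 12) (nat_lit 14))
    (@En.n l387 (nat_lit 13581) (nat_lit 2) (nat_lit 10))
    (@En.n l699 (nat_lit 13583) (nat_lit 3) (nat_lit 5))
    (@En.n l2179 (nat_lit 13580) (nat_lit 4) (nat_lit 7))
    (@En.n l50 (nat_lit 13127) (nat_lit 5) (nat_lit 2))
    (@En.n l7910 (nat_lit 13580) (nat_lit 6) (nat_lit 4))
    (@En.i (nat_lit 13417) (nat_lit 8) (nat_lit 14))
    (@En.n l2031 (nat_lit 248) (nat_lit 9) (nat_lit 11))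
    (@En.i (nat_lit 13929) (nat_lit 9) (nat_lit 4))
    (@En.i (nat_lit 13125) (nat_lit 11) (nat_lit 12))
    (@En.n l2031 (nat_lit 13179) (nat_lit 12) (nat_lit 9))
    (@En.n l26988 (nat_lit 13116) (nat_lit 13) (nat_lit 6))
    (@En.n l2866 (nat_lit 1664) (nat_lit 8) (nat_lit 12))
    (@En.n l107 (nat_lit 13127) (nat_lit 14) (nat_lit 2))
    (@En.n l3 (nat_lit 13127) (nat_lit 15) (nat_lit 2))))
  (@Cl.mk (nat_lit 0x200020009000e000c0002000b000a00040007000e000500020006000e000e) (nat_lit 0x33406700900012) (nat_lit 16) Lb.e (@T16.mk En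
    (@En.n l5 (nat_lit 13128) (nat_lit 1) (nat_lit 14))
    (@En.n l454 (nat_lit 814) (nat_lit 1) (nat_lit 14))
    (@En.n l5245 (nat_lit 12882) (nat_lit 2) (nat_lit 6))
    (@En.n l28 (nat_lit 13128) (nat_lit 3) (nat_lit 2))
    (@En.n l5246 (nat_lit 12966) (nat_lit 4) (nat_lit 5))
    (@En.i (nat_lit 13730) (nat_lit 6) (nat_lit 14))
    (@En.n l1599 (nat_lit 14074) (nat_lit 6) (nat_lit 7))
    (@En.n l454 (nat_lit 13129) (nat_lit 7) (nat_lit 4))
    (@En.n l175 (nat_lit 13087) (nat_lit 9) (nat_lit 10))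
    (@En.n l1327 (nat_lit 13138) (nat_lit 10) (nat_lit 11))
    (@En.n l3 (nat_lit 13128) (nat_lit 10) (nat_lit 2))
    (@En.i (nat_lit 12969) (nat_lit 12) (nat_lit 12))
    (@En.n l454 (nat_lit 12976) (nat_lit 13) (nat_lit 14))
    (@En.n l2568 (nat_lit 5755) (nat_lit 10) (nat_lit 9))
    (@En.n l17 (nat_lit 13128) (nat_lit 14) (nat_lit 2))
    (@En.n l18 (nat_lit 13128) (nat_lit 15) (nat_lit 2))))
  (@Cl.mk (nat_lit 0x200020009000d000c00080003000c00040007000e000400020008000e000e) (nat_lit 0x33240700b00012) (nat_lit 16) Lb.e (@T16.mk En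
    (@En.n l97 (nat_lit 13129) (nat_lit 1) (nat_lit 14))
    (@En.i (nat_lit 4060) (nat_lit 1) (nat_lit 14))
    (@En.n l9724 (nat_lit 13981) (nat_lit 2) (nat_lit 8))
    (@En.n l17 (nat_lit 13129) (nat_lit 3) (nat_lit 2))
    (@En.n l11742 (nat_lit 13132) (nat_lit 4) (nat_lit 4))
    (@En.n l998 (nat_lit 13731) (nat_lit 6) (nat_lit 14))
    (@En.n l11743 (nat_lit 13277) (nat_lit 6) (nat_lit 7))
    (@En.n l11744 (nat_lit 12969) (nat_lit 7) (nat_lit 4))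
    (@En.n l9726 (nat_lit 13137) (nat_lit 9) (nat_lit 12))
    (@En.n l28 (nat_lit 13131) (nat_lit 9) (nat_lit 3))
    (@En.n l11745 (nat_lit 13959) (nat_lit 11) (nat_lit 8))
    (@En.n l77 (nat_lit 13130) (nat_lit 12) (nat_lit 12))
    (@En.i (nat_lit 12985) (nat_lit 13) (nat_lit 13))
    (@En.n l998 (nat_lit 5689) (nat_lit 14) (nat_lit 9))
    (@En.n l107 (nat_lit 13129) (nat_lit 14) (nat_lit 2))
    (@En.n l3 (nat_lit 13129) (nat_lit 15) (nat_lit 2))))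
  (@Cl.mk (nat_lit 0x200020009000c0007000d000b000400030007000e000500020009000e000e) (nat_lit 0x31056000b00012) (nat_lit 16) Lb.e (@T16.mk En
    (@En.n l97 (nat_lit 13130) (nat_lit 1) (nat_lit 14))
    (@En.i (nat_lit 4059) (nat_lit 1) (nat_lit 14))
    (@En.n l5560 (nat_lit 13980) (nat_lit 2) (nat_lit 9))
    (@En.n l17 (nat_lit 13130) (nat_lit 3) (nat_lit 2))
    (@En.n l5560 (nat_lit 13134) (nat_lit 4) (nat_lit 5))
    (@En.n l998 (nat_lit 13743) (nat_lit 6) (nat_lit 14))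
    (@En.n l4172 (nat_lit 13129) (nat_lit 6) (nat_lit 7))
    (@En.n l7 (nat_lit 13131) (nat_lit 7) (nat_lit 3))
    (@En.n l12331 (nat_lit 12972) (nat_lit 8) (nat_lit 4))
    (@En.n l2026 (nat_lit 13135) (nat_lit 10) (nat_lit 11))
    (@En.n l5592 (nat_lit 13602) (nat_lit 11) (nat_lit 13))
    (@En.i (nat_lit 13954) (nat_lit 12) (nat_lit 7))
    (@En.i (nat_lit 677) (nat_lit 13) (nat_lit 12))
    (@En.n l998 (nat_lit 5688) (nat_lit 14) (nat_lit 9))
    (@En.n l107 (nat_lit 13130) (nat_lit 14) (nat_lit 2))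
    (@En.n l3 (nat_lit 13130) (nat_lit 15) (nat_lit 2))))
  (@Cl.mk (nat_lit 0x200020009000d0007000d0003000c00030007000e000400020009000e000e) (nat_lit 0x33050800b00012) (nat_lit 16) Lb.e (@T16.mk En
    (@En.n l97 (nat_lit 13131) (nat_lit 1) (nat_lit 14))
    (@En.i (nat_lit 4058) (nat_lit 1) (nat_lit 14))
    (@En.n l2039 (nat_lit 13979) (nat_lit 2) (nat_lit 9))
    (@En.n l17 (nat_lit 13131) (nat_lit 3) (nat_lit 2))
    (@En.n l13375 (nat_lit 13133) (nat_lit 4) (nat_lit 4))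
    (@En.n l998 (nat_lit 13742) (nat_lit 6) (nat_lit 14))
    (@En.n l4172 (nat_lit 13272) (nat_lit 6) (nat_lit 7))
    (@En.i (nat_lit 13130) (nat_lit 7) (nat_lit 3))
    (@En.n l217 (nat_lit 13842) (nat_lit 9) (nat_lit 12))
    (@En.i (nat_lit 13129) (nat_lit 9) (nat_lit 3))
    (@En.n l5592 (nat_lit 13649) (nat_lit 11) (nat_lit 13))
    (@En.i (nat_lit 13956) (nat_lit 12) (nat_lit 7))
    (@En.i (nat_lit 13156) (nat_lit 13) (nat_lit 13))
    (@En.n l998 (nat_lit 5687) (nat_lit 14) (nat_lit 9))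
    (@En.n l107 (nat_lit 13131) (nat_lit 14) (nat_lit 2))
    (@En.n l3 (nat_lit 13131) (nat_lit 15) (nat_lit 2))))
  (@Cl.mk (nat_lit 0x200020008000d000b00080003000c000c00050008000400040008000e000e) (nat_lit 0x22350880300234) (nat_lit 16) Lb.e (@T16.mk En
    (@En.n l5 (nat_lit 13132) (nat_lit 1) (nat_lit 14))
    (@En.n l9226 (nat_lit 5999) (nat_lit 1) (nat_lit 14))
    (@En.n l564 (nat_lit 14034) (nat_lit 2) (nat_lit 8))
    (@En.n l7 (nat_lit 13800) (nat_lit 3) (nat_lit 4))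
    (@En.n l4696 (nat_lit 13136) (nat_lit 4) (nat_lit 4))
    (@En.i (nat_lit 13275) (nat_lit 5) (nat_lit 8))
    (@En.n l4960 (nat_lit 13225) (nat_lit 6) (nat_lit 5))
    (@En.n l4761 (nat_lit 13129) (nat_lit 8) (nat_lit 12))
    (@En.n l3258 (nat_lit 13141) (nat_lit 9) (nat_lit 12))
    (@En.n l12145 (nat_lit 13133) (nat_lit 9) (nat_lit 3))
    (@En.n l12146 (nat_lit 13960) (nat_lit 11) (nat_lit 8))
    (@En.n l4589 (nat_lit 13134) (nat_lit 12) (nat_lit 11))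
    (@En.n l1554 (nat_lit 12986) (nat_lit 13) (nat_lit 13))
    (@En.i (nat_lit 7793) (nat_lit 14) (nat_lit 8))
    (@En.n l17 (nat_lit 13132) (nat_lit 14) (nat_lit 2))
    (@En.n l18 (nat_lit 13132) (nat_lit 15) (nat_lit 2))))
  (@Cl.mk (nat_lit 0x200020008000d0007000c0003000c000c00040008000400040009000e000e) (nat_lit 0x21050890300312) (nat_lit 16) Lb.e (@T16.mk En
    (@En.n l134 (nat_lit 13133) (nat_lit 1) (nat_lit 14))
    (@En.i (nat_lit 4069) (nat_lit 1) (nat_lit 14))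
    (@En.n l899 (nat_lit 13334) (nat_lit 2) (nat_lit 9))
    (@En.n l152 (nat_lit 13801) (nat_lit 3) (nat_lit 4))
    (@En.n l3851 (nat_lit 13135) (nat_lit 4) (nat_lit 4))
    (@En.n l617 (nat_lit 13270) (nat_lit 5) (nat_lit 8))
    (@En.n l2125 (nat_lit 13631) (nat_lit 6) (nat_lit 4))
    (@En.n l13561 (nat_lit 13131) (nat_lit 8) (nat_lit 12))
    (@En.n l25799 (nat_lit 13629) (nat_lit 9) (nat_lit 12))
    (@En.n l20665 (nat_lit 13132) (nat_lit 9) (nat_lit 3))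
    (@En.n l5347 (nat_lit 13654) (nat_lit 11) (nat_lit 12))
    (@En.n l5592 (nat_lit 13140) (nat_lit 12) (nat_lit 7))
    (@En.n l2213 (nat_lit 287) (nat_lit 13) (nat_lit 13))
    (@En.i (nat_lit 7791) (nat_lit 14) (nat_lit 8))
    (@En.n l7 (nat_lit 13133) (nat_lit 14) (nat_lit 2))
    (@En.n l28 (nat_lit 13133) (nat_lit 15) (nat_lit 2))))
  (@Cl.mk (nat_lit 0x200020008000b0007000c000b000b000500040008000500050009000e000e) (nat_lit 0x22067700400056) (nat_lit 16) Lb.e (@T16.mk En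
    (@En.n l601 (nat_lit 13134) (nat_lit 1) (nat_lit 14))
    (@En.n l1003 (nat_lit 6000) (nat_lit 1) (nat_lit 14))
    (@En.i (nat_lit 14036) (nat_lit 2) (nat_lit 9))
    (@En.n l11401 (nat_lit 13596) (nat_lit 3) (nat_lit 5))
    (@En.n l5582 (nat_lit 13626) (nat_lit 4) (nat_lit 5))
    (@En.n l4817 (nat_lit 13132) (nat_lit 5) (nat_lit 8))
    (@En.n l1003 (nat_lit 13133) (nat_lit 6) (nat_lit 4))
    (@En.n l17 (nat_lit 13296) (nat_lit 7) (nat_lit 5))
    (@En.n l12644 (nat_lit 13130) (nat_lit 9) (nat_lit 11))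
    (@En.n l12645 (nat_lit 13624) (nat_lit 10) (nat_lit 11))
    (@En.n l5582 (nat_lit 13651) (nat_lit 11) (nat_lit 12))
    (@En.n l12646 (nat_lit 13328) (nat_lit 12) (nat_lit 7))
    (@En.n l2299 (nat_lit 13590) (nat_lit 13) (nat_lit 11))
    (@En.i (nat_lit 7792) (nat_lit 14) (nat_lit 8))
    (@En.n l50 (nat_lit 13134) (nat_lit 14) (nat_lit 2))
    (@En.n l7 (nat_lit 13134) (nat_lit 15) (nat_lit 2))))
  (@Cl.mk (nat_lit 0x20002000a000d0007000b0003000c0006000d0005000400030009000e000e) (nat_lit 0x11050809000212) (nat_lit 16) Lb.e (@T16.mk En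
    (@En.n l180 (nat_lit 13135) (nat_lit 1) (nat_lit 14))
    (@En.i (nat_lit 6157) (nat_lit 1) (nat_lit 14))
    (@En.n l6080 (nat_lit 13333) (nat_lit 2) (nat_lit 9))
    (@En.n l2101 (nat_lit 13625) (nat_lit 3) (nat_lit 3))
    (@En.n l2921 (nat_lit 13131) (nat_lit 4) (nat_lit 4))
    (@En.n l15089 (nat_lit 13624) (nat_lit 5) (nat_lit 5))
    (@En.i (nat_lit 13741) (nat_lit 7) (nat_lit 13))
    (@En.n l61 (nat_lit 13137) (nat_lit 7) (nat_lit 6))
    (@En.n l3749 (nat_lit 13621) (nat_lit 9) (nat_lit 12))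
    (@En.i (nat_lit 13136) (nat_lit 9) (nat_lit 3))
    (@En.n l3348 (nat_lit 13188) (nat_lit 11) (nat_lit 11))
    (@En.n l15092 (nat_lit 13865) (nat_lit 12) (nat_lit 7))
    (@En.n l2921 (nat_lit 286) (nat_lit 13) (nat_lit 13))
    (@En.i (nat_lit 5426) (nat_lit 14) (nat_lit 10))
    (@En.n l11 (nat_lit 13135) (nat_lit 14) (nat_lit 2))
    (@En.n l107 (nat_lit 13135) (nat_lit 15) (nat_lit 2))))
noncomputable def a821 : T16 Cl := @T16.mk Cl
  (@Cl.mk (nat_lit 0x20002000a000d000a00080003000c0006000d0006000400030008000e000e) (nat_lit 0x1354080800009a) (nat_lit 16) Lb.e (@T16.mk En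
    (@En.n l180 (nat_lit 13136) (nat_lit 1) (nat_lit 14))
    (@En.i (nat_lit 6156) (nat_lit 1) (nat_lit 14))
    (@En.n l12332 (nat_lit 13856) (nat_lit 2) (nat_lit 8))
    (@En.n l2101 (nat_lit 13634) (nat_lit 3) (nat_lit 3))
    (@En.n l2921 (nat_lit 13129) (nat_lit 4) (nat_lit 4))
    (@En.n l1347 (nat_lit 13224) (nat_lit 5) (nat_lit 6))
    (@En.i (nat_lit 13732) (nat_lit 7) (nat_lit 13))
    (@En.n l12333 (nat_lit 13138) (nat_lit 7) (nat_lit 6))
    (@En.n l6840 (nat_lit 13139) (nat_lit 9) (nat_lit 12))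
    (@En.n l7 (nat_lit 13135) (nat_lit 9) (nat_lit 3))
    (@En.n l10064 (nat_lit 13961) (nat_lit 11) (nat_lit 8))
    (@En.n l5911 (nat_lit 13626) (nat_lit 12) (nat_lit 10))
    (@En.n l2921 (nat_lit 13142) (nat_lit 13) (nat_lit 13))
    (@En.i (nat_lit 5424) (nat_lit 14) (nat_lit 10))
    (@En.n l11 (nat_lit 13136) (nat_lit 14) (nat_lit 2))
    (@En.n l107 (nat_lit 13136) (nat_lit 15) (nat_lit 2))))
  (@Cl.mk (nat_lit 0x20002000a0008000d0008000c00030006000d0004000800030008000e000e) (nat_lit 0x132460030104bc) (nat_lit 16) Lb.e (@T16.mk En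
    (@En.n l180 (nat_lit 13137) (nat_lit 1) (nat_lit 14))
    (@En.i (nat_lit 6113) (nat_lit 1) (nat_lit 14))
    (@En.n l13782 (nat_lit 13140) (nat_lit 2) (nat_lit 8))
    (@En.n l6131 (nat_lit 13632) (nat_lit 3) (nat_lit 3))
    (@En.n l13783 (nat_lit 12782) (nat_lit 4) (nat_lit 8))
    (@En.n l13784 (nat_lit 13141) (nat_lit 5) (nat_lit 4))
    (@En.i (nat_lit 13734) (nat_lit 7) (nat_lit 13))
    (@En.n l13785 (nat_lit 13640) (nat_lit 7) (nat_lit 6))
    (@En.n l13786 (nat_lit 13138) (nat_lit 8) (nat_lit 3))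
    (@En.n l1540 (nat_lit 13194) (nat_lit 10) (nat_lit 12))
    (@En.n l13785 (nat_lit 13971) (nat_lit 11) (nat_lit 8))
    (@En.n l617 (nat_lit 13135) (nat_lit 12) (nat_lit 13))
    (@En.n l3480 (nat_lit 13133) (nat_lit 13) (nat_lit 8))
    (@En.i (nat_lit 5422) (nat_lit 14) (nat_lit 10))
    (@En.n l11 (nat_lit 13137) (nat_lit 14) (nat_lit 2))
    (@En.n l107 (nat_lit 13137) (nat_lit 15) (nat_lit 2))))
  (@Cl.mk (nat_lit 0x20002000a0008000d000b000900030006000d0005000800030007000e000e) (nat_lit 0x13456008010089) (nat_lit 16) Lb.e (@T16.mk En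
    (@En.n l5 (nat_lit 13138) (nat_lit 1) (nat_lit 14))
    (@En.n l13068 (nat_lit 6112) (nat_lit 1) (nat_lit 14))
    (@En.n l564 (nat_lit 13857) (nat_lit 2) (nat_lit 7))
    (@En.n l7 (nat_lit 13633) (nat_lit 3) (nat_lit 3))
    (@En.i (nat_lit 12783) (nat_lit 4) (nat_lit 8))
    (@En.n l13069 (nat_lit 13221) (nat_lit 5) (nat_lit 5))
    (@En.n l95 (nat_lit 13733) (nat_lit 7) (nat_lit 13))
    (@En.n l13070 (nat_lit 13617) (nat_lit 7) (nat_lit 6))
    (@En.n l4016 (nat_lit 13137) (nat_lit 8) (nat_lit 3))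
    (@En.n l12146 (nat_lit 13964) (nat_lit 10) (nat_lit 9))
    (@En.n l13071 (nat_lit 13139) (nat_lit 11) (nat_lit 11))
    (@En.n l13072 (nat_lit 13136) (nat_lit 12) (nat_lit 13))
    (@En.i (nat_lit 13132) (nat_lit 13) (nat_lit 8))
    (@En.n l13073 (nat_lit 5418) (nat_lit 14) (nat_lit 10))
    (@En.n l17 (nat_lit 13138) (nat_lit 14) (nat_lit 2))
    (@En.n l18 (nat_lit 13138) (nat_lit 15) (nat_lit 2))))
  (@Cl.mk (nat_lit 0x20002000b0008000b0008000c0005000c00050004000800040008000e000e) (nat_lit 0x1344707002009a) (nat_lit 16) Lb.e (@T16.mk En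
    (@En.n l5 (nat_lit 13139) (nat_lit 1) (nat_lit 14))
    (@En.n l5372 (nat_lit 6198) (nat_lit 1) (nat_lit 14))
    (@En.n l25764 (nat_lit 13858) (nat_lit 2) (nat_lit 8))
    (@En.n l3531 (nat_lit 13636) (nat_lit 3) (nat_lit 4))
    (@En.n l26039 (nat_lit 13138) (nat_lit 4) (nat_lit 8))
    (@En.n l3072 (nat_lit 13137) (nat_lit 5) (nat_lit 4))
    (@En.i (nat_lit 13217) (nat_lit 6) (nat_lit 5))
    (@En.n l4790 (nat_lit 13735) (nat_lit 8) (nat_lit 12))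
    (@En.n l11989 (nat_lit 13615) (nat_lit 8) (nat_lit 5))
    (@En.i (nat_lit 13870) (nat_lit 10) (nat_lit 12))
    (@En.n l26040 (nat_lit 13967) (nat_lit 11) (nat_lit 8))
    (@En.i (nat_lit 13620) (nat_lit 12) (nat_lit 11))
    (@En.n l25764 (nat_lit 13134) (nat_lit 13) (nat_lit 8))
    (@En.i (nat_lit 5419) (nat_lit 14) (nat_lit 11))
    (@En.n l17 (nat_lit 13139) (nat_lit 14) (nat_lit 2))
    (@En.n l18 (nat_lit 13139) (nat_lit 15) (nat_lit 2))))
  (@Cl.mk (nat_lit 0x2000200090007000c0008000c000c000400070004000400090008000e000e) (nat_lit 0x20457600003345) (nat_lit 16) Lb.e (@T16.mk En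
    (@En.n l601 (nat_lit 13140) (nat_lit 1) (nat_lit 14))
    (@En.i (nat_lit 7204) (nat_lit 1) (nat_lit 14))
    (@En.n l11789 (nat_lit 13132) (nat_lit 2) (nat_lit 8))
    (@En.n l4817 (nat_lit 13332) (nat_lit 3) (nat_lit 9))
    (@En.n l152 (nat_lit 13324) (nat_lit 4) (nat_lit 4))
    (@En.n l11790 (nat_lit 13865) (nat_lit 5) (nat_lit 4))
    (@En.n l11789 (nat_lit 12955) (nat_lit 6) (nat_lit 7))
    (@En.n l2125 (nat_lit 13857) (nat_lit 7) (nat_lit 4))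
    (@En.n l11791 (nat_lit 13956) (nat_lit 9) (nat_lit 12))
    (@En.n l11790 (nat_lit 13866) (nat_lit 10) (nat_lit 12))
    (@En.n l7245 (nat_lit 13335) (nat_lit 11) (nat_lit 8))
    (@En.n l207 (nat_lit 13333) (nat_lit 12) (nat_lit 12))
    (@En.i (nat_lit 13334) (nat_lit 13) (nat_lit 7))
    (@En.n l532 (nat_lit 5244) (nat_lit 14) (nat_lit 9))
    (@En.n l50 (nat_lit 13140) (nat_lit 14) (nat_lit 2))
    (@En.n l7 (nat_lit 13140) (nat_lit 15) (nat_lit 2))))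
  (@Cl.mk (nat_lit 0x2000200090008000c0008000c000b000400070004000800050008000e000e) (nat_lit 0x332478000203bc) (nat_lit 16) Lb.e (@T16.mk En
    (@En.n l601 (nat_lit 13141) (nat_lit 1) (nat_lit 14))
    (@En.n l710 (nat_lit 6175) (nat_lit 1) (nat_lit 14))
    (@En.i (nat_lit 13324) (nat_lit 2) (nat_lit 8))
    (@En.n l25712 (nat_lit 13556) (nat_lit 3) (nat_lit 5))
    (@En.n l21576 (nat_lit 13786) (nat_lit 4) (nat_lit 8))
    (@En.n l25713 (nat_lit 13139) (nat_lit 5) (nat_lit 4))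
    (@En.n l12687 (nat_lit 13641) (nat_lit 6) (nat_lit 7))
    (@En.n l25714 (nat_lit 13223) (nat_lit 7) (nat_lit 4))
    (@En.n l710 (nat_lit 13632) (nat_lit 9) (nat_lit 11))
    (@En.n l25713 (nat_lit 13304) (nat_lit 10) (nat_lit 12))
    (@En.n l25715 (nat_lit 13547) (nat_lit 11) (nat_lit 8))
    (@En.n l22462 (nat_lit 13624) (nat_lit 12) (nat_lit 12))
    (@En.i (nat_lit 13631) (nat_lit 13) (nat_lit 8))
    (@En.n l532 (nat_lit 6924) (nat_lit 14) (nat_lit 9))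
    (@En.n l50 (nat_lit 13141) (nat_lit 14) (nat_lit 2))
    (@En.n l7 (nat_lit 13141) (nat_lit 15) (nat_lit 2))))
  (@Cl.mk (nat_lit 0x20002000d000900070003000e000c0002000d0007000400030009000e000e) (nat_lit 0x230068090004ab) (nat_lit 16) Lb.e (@T16.mk En
    (@En.n l97 (nat_lit 13142) (nat_lit 1) (nat_lit 14))
    (@En.i (nat_lit 3733) (nat_lit 1) (nat_lit 14))
    (@En.n l1030 (nat_lit 13849) (nat_lit 2) (nat_lit 9))
    (@En.n l763 (nat_lit 13143) (nat_lit 3) (nat_lit 3))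
    (@En.i (nat_lit 12985) (nat_lit 4) (nat_lit 4))
    (@En.n l1545 (nat_lit 13149) (nat_lit 5) (nat_lit 7))
    (@En.n l765 (nat_lit 13121) (nat_lit 7) (nat_lit 13))
    (@En.n l50 (nat_lit 13142) (nat_lit 7) (nat_lit 2))
    (@En.n l217 (nat_lit 12986) (nat_lit 9) (nat_lit 12))
    (@En.n l1546 (nat_lit 13843) (nat_lit 10) (nat_lit 14))
    (@En.n l28 (nat_lit 286) (nat_lit 10) (nat_lit 3))
    (@En.n l99 (nat_lit 12860) (nat_lit 12) (nat_lit 7))
    (@En.i (nat_lit 13576) (nat_lit 13) (nat_lit 9))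
    (@En.i (nat_lit 3680) (nat_lit 6) (nat_lit 13))
    (@En.n l107 (nat_lit 13142) (nat_lit 14) (nat_lit 2))
    (@En.n l3 (nat_lit 13142) (nat_lit 15) (nat_lit 2))))
  (@Cl.mk (nat_lit 0x20002000d000800070003000e000d0002000d0003000800030009000e000e) (nat_lit 0x320068090604ab) (nat_lit 16) Lb.e (@T16.mk En
    (@En.n l97 (nat_lit 13143) (nat_lit 1) (nat_lit 14))
    (@En.i (nat_lit 3732) (nat_lit 1) (nat_lit 14))
    (@En.i (nat_lit 13153) (nat_lit 2) (nat_lit 9))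
    (@En.n l2364 (nat_lit 13142) (nat_lit 3) (nat_lit 3))
    (@En.i (nat_lit 13968) (nat_lit 4) (nat_lit 8))
    (@En.i (nat_lit 13144) (nat_lit 5) (nat_lit 3))
    (@En.i (nat_lit 13123) (nat_lit 7) (nat_lit 13))
    (@En.n l50 (nat_lit 13143) (nat_lit 7) (nat_lit 2))
    (@En.n l396 (nat_lit 13144) (nat_lit 9) (nat_lit 13))
    (@En.n l4316 (nat_lit 13842) (nat_lit 10) (nat_lit 14))
    (@En.n l28 (nat_lit 285) (nat_lit 10) (nat_lit 3))
    (@En.n l1856 (nat_lit 12859) (nat_lit 12) (nat_lit 7))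
    (@En.i (nat_lit 13516) (nat_lit 13) (nat_lit 8))
    (@En.i (nat_lit 3679) (nat_lit 6) (nat_lit 13))
    (@En.n l107 (nat_lit 13143) (nat_lit 14) (nat_lit 2))
    (@En.n l3 (nat_lit 13143) (nat_lit 15) (nat_lit 2))))
  (@Cl.mk (nat_lit 0x20002000d000800070003000d000d000c00030003000800040009000e000e) (nat_lit 0x320077900605ab) (nat_lit 16) Lb.e (@T16.mk En
    (@En.n l97 (nat_lit 13144) (nat_lit 1) (nat_lit 14))
    (@En.i (nat_lit 3880) (nat_lit 1) (nat_lit 14))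
    (@En.n l4315 (nat_lit 13151) (nat_lit 2) (nat_lit 9))
    (@En.n l403 (nat_lit 12986) (nat_lit 3) (nat_lit 4))
    (@En.n l7406 (nat_lit 13969) (nat_lit 4) (nat_lit 8))
    (@En.n l18 (nat_lit 13143) (nat_lit 5) (nat_lit 3))
    (@En.n l2809 (nat_lit 13145) (nat_lit 6) (nat_lit 3))
    (@En.n l6444 (nat_lit 13142) (nat_lit 8) (nat_lit 12))
    (@En.n l3108 (nat_lit 13145) (nat_lit 9) (nat_lit 13))
    (@En.n l1407 (nat_lit 13629) (nat_lit 10) (nat_lit 13))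
    (@En.n l28 (nat_lit 283) (nat_lit 10) (nat_lit 3))
    (@En.n l4392 (nat_lit 12855) (nat_lit 12) (nat_lit 7))
    (@En.i (nat_lit 13513) (nat_lit 13) (nat_lit 8))
    (@En.i (nat_lit 3678) (nat_lit 14) (nat_lit 13))
    (@En.n l107 (nat_lit 13144) (nat_lit 14) (nat_lit 2))
    (@En.n l3 (nat_lit 13144) (nat_lit 15) (nat_lit 2))))
  (@Cl.mk (nat_lit 0x20002000d000800070003000d000b000e00030002000800050009000e000e) (nat_lit 0x320067800600ab) (nat_lit 16) Lb.e (@T16.mk En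
    (@En.n l68 (nat_lit 13145) (nat_lit 1) (nat_lit 14))
    (@En.n l8210 (nat_lit 3883) (nat_lit 12) (nat_lit 14))
    (@En.i (nat_lit 13152) (nat_lit 2) (nat_lit 9))
    (@En.n l22204 (nat_lit 13147) (nat_lit 3) (nat_lit 5))
    (@En.n l17254 (nat_lit 13972) (nat_lit 4) (nat_lit 8))
    (@En.n l17 (nat_lit 13145) (nat_lit 5) (nat_lit 2))
    (@En.n l3490 (nat_lit 13144) (nat_lit 6) (nat_lit 3))
    (@En.n l22205 (nat_lit 13824) (nat_lit 8) (nat_lit 14))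
    (@En.n l22206 (nat_lit 13146) (nat_lit 9) (nat_lit 11))
    (@En.n l1449 (nat_lit 13628) (nat_lit 10) (nat_lit 13))
    (@En.n l19562 (nat_lit 284) (nat_lit 10) (nat_lit 3))
    (@En.n l575 (nat_lit 12856) (nat_lit 12) (nat_lit 7))
    (@En.n l1449 (nat_lit 13512) (nat_lit 13) (nat_lit 8))
    (@En.n l3638 (nat_lit 2426) (nat_lit 8) (nat_lit 13))
    (@En.n l11 (nat_lit 13145) (nat_lit 14) (nat_lit 2))
    (@En.n l67 (nat_lit 13145) (nat_lit 15) (nat_lit 2))))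
  (@Cl.mk (nat_lit 0x20002000d000900070003000b000e000c00020007000500040009000e000e) (nat_lit 0x24006790000089) (nat_lit 16) Lb.e (@T16.mk En
    (@En.n l5 (nat_lit 13146) (nat_lit 1) (nat_lit 14))
    (@En.n l12641 (nat_lit 3886) (nat_lit 11) (nat_lit 14))
    (@En.n l513 (nat_lit 13619) (nat_lit 2) (nat_lit 9))
    (@En.n l4458 (nat_lit 13144) (nat_lit 3) (nat_lit 4))
    (@En.i (nat_lit 12987) (nat_lit 4) (nat_lit 5))
    (@En.n l12642 (nat_lit 13970) (nat_lit 5) (nat_lit 7))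
    (@En.n l28 (nat_lit 13146) (nat_lit 6) (nat_lit 2))
    (@En.n l12394 (nat_lit 12986) (nat_lit 8) (nat_lit 12))
    (@En.n l11819 (nat_lit 13572) (nat_lit 9) (nat_lit 14))
    (@En.n l12641 (nat_lit 13596) (nat_lit 10) (nat_lit 11))
    (@En.n l11610 (nat_lit 13802) (nat_lit 10) (nat_lit 3))
    (@En.n l1504 (nat_lit 12850) (nat_lit 12) (nat_lit 7))
    (@En.n l2571 (nat_lit 13591) (nat_lit 13) (nat_lit 9))
    (@En.n l253 (nat_lit 2407) (nat_lit 7) (nat_lit 13))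
    (@En.n l17 (nat_lit 13146) (nat_lit 14) (nat_lit 2))
    (@En.n l18 (nat_lit 13146) (nat_lit 15) (nat_lit 2))))
  (@Cl.mk (nat_lit 0x20002000d000b00070003000c000b0005000e0004000200050009000e000e) (nat_lit 0x23007709000089) (nat_lit 16) Lb.e (@T16.mk En
    (@En.n l97 (nat_lit 13147) (nat_lit 1) (nat_lit 14))
    (@En.i (nat_lit 3854) (nat_lit 13) (nat_lit 14))
    (@En.n l12570 (nat_lit 13355) (nat_lit 2) (nat_lit 9))
    (@En.i (nat_lit 13570) (nat_lit 3) (nat_lit 5))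
    (@En.n l18 (nat_lit 13147) (nat_lit 4) (nat_lit 2))
    (@En.n l50 (nat_lit 12986) (nat_lit 5) (nat_lit 4))
    (@En.n l2809 (nat_lit 13145) (nat_lit 7) (nat_lit 14))
    (@En.n l12643 (nat_lit 13150) (nat_lit 7) (nat_lit 5))
    (@En.n l1430 (nat_lit 12987) (nat_lit 9) (nat_lit 11))
    (@En.n l12570 (nat_lit 13631) (nat_lit 10) (nat_lit 12))
    (@En.n l28 (nat_lit 13564) (nat_lit 10) (nat_lit 3))
    (@En.i (nat_lit 12854) (nat_lit 12) (nat_lit 7))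
    (@En.i (nat_lit 13562) (nat_lit 13) (nat_lit 11))
    (@En.n l1430 (nat_lit 2429) (nat_lit 9) (nat_lit 13))
    (@En.n l107 (nat_lit 13147) (nat_lit 14) (nat_lit 2))
    (@En.n l3 (nat_lit 13147) (nat_lit 15) (nat_lit 2))))
  (@Cl.mk (nat_lit 0x20002000c000a000800080004000d000d00060003000300080008000e000e) (nat_lit 0x23350780000678) (nat_lit 16) Lb.e (@T16.mk En
    (@En.n l5 (nat_lit 13148) (nat_lit 1) (nat_lit 14))
    (@En.n l12626 (nat_lit 3265) (nat_lit 1) (nat_lit 14))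
    (@En.n l12627 (nat_lit 13259) (nat_lit 2) (nat_lit 8))
    (@En.n l12628 (nat_lit 13971) (nat_lit 3) (nat_lit 8))
    (@En.n l12629 (nat_lit 13149) (nat_lit 4) (nat_lit 3))
    (@En.n l1834 (nat_lit 13150) (nat_lit 5) (nat_lit 3))
    (@En.n l12630 (nat_lit 12970) (nat_lit 6) (nat_lit 6))
    (@En.n l12631 (nat_lit 13150) (nat_lit 8) (nat_lit 13))
    (@En.n l12632 (nat_lit 13296) (nat_lit 9) (nat_lit 13))
    (@En.n l4526 (nat_lit 288) (nat_lit 9) (nat_lit 4))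
    (@En.n l77 (nat_lit 13207) (nat_lit 11) (nat_lit 8))
    (@En.n l12626 (nat_lit 13144) (nat_lit 12) (nat_lit 8))
    (@En.n l11968 (nat_lit 13155) (nat_lit 13) (nat_lit 10))
    (@En.i (nat_lit 2448) (nat_lit 14) (nat_lit 12))
    (@En.n l17 (nat_lit 13148) (nat_lit 14) (nat_lit 2))
    (@En.n l18 (nat_lit 13148) (nat_lit 15) (nat_lit 2))))
  (@Cl.mk (nat_lit 0x20002000c0009000800080004000e000d00020007000300080008000e000e) (nat_lit 0x32350780000378) (nat_lit 16) Lb.e (@T16.mk En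
    (@En.n l97 (nat_lit 13149) (nat_lit 1) (nat_lit 14))
    (@En.i (nat_lit 3268) (nat_lit 11) (nat_lit 14))
    (@En.n l1310 (nat_lit 13256) (nat_lit 2) (nat_lit 8))
    (@En.n l17 (nat_lit 13958) (nat_lit 3) (nat_lit 8))
    (@En.n l4826 (nat_lit 13148) (nat_lit 4) (nat_lit 3))
    (@En.n l2483 (nat_lit 13196) (nat_lit 5) (nat_lit 7))
    (@En.n l50 (nat_lit 13149) (nat_lit 6) (nat_lit 2))
    (@En.n l4827 (nat_lit 13148) (nat_lit 8) (nat_lit 13))
    (@En.n l4278 (nat_lit 13251) (nat_lit 9) (nat_lit 14))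
    (@En.n l2486 (nat_lit 289) (nat_lit 9) (nat_lit 4))
    (@En.n l4828 (nat_lit 13208) (nat_lit 11) (nat_lit 8))
    (@En.i (nat_lit 13143) (nat_lit 12) (nat_lit 8))
    (@En.n l4492 (nat_lit 13285) (nat_lit 13) (nat_lit 9))
    (@En.i (nat_lit 2449) (nat_lit 7) (nat_lit 12))
    (@En.n l107 (nat_lit 13149) (nat_lit 14) (nat_lit 2))
    (@En.n l3 (nat_lit 13149) (nat_lit 15) (nat_lit 2))))
  (@Cl.mk (nat_lit 0x20002000c000b000800080004000d0005000e0003000200080008000e000e) (nat_lit 0x23360709000678) (nat_lit 16) Lb.e (@T16.mk En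
    (@En.n l5 (nat_lit 13150) (nat_lit 1) (nat_lit 14))
    (@En.n l12161 (nat_lit 3264) (nat_lit 13) (nat_lit 14))
    (@En.i (nat_lit 13354) (nat_lit 2) (nat_lit 8))
    (@En.n l253 (nat_lit 13974) (nat_lit 3) (nat_lit 8))
    (@En.n l28 (nat_lit 13150) (nat_lit 4) (nat_lit 2))
    (@En.n l4750 (nat_lit 13148) (nat_lit 5) (nat_lit 3))
    (@En.n l13450 (nat_lit 13821) (nat_lit 0) (nat_lit 14))
    (@En.n l25836 (nat_lit 12989) (nat_lit 7) (nat_lit 5))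
    (@En.i (nat_lit 13297) (nat_lit 9) (nat_lit 13))
    (@En.n l25837 (nat_lit 659) (nat_lit 9) (nat_lit 4))
    (@En.n l1504 (nat_lit 13211) (nat_lit 11) (nat_lit 8))
    (@En.n l18522 (nat_lit 13145) (nat_lit 12) (nat_lit 8))
    (@En.n l25838 (nat_lit 13154) (nat_lit 13) (nat_lit 11))
    (@En.n l513 (nat_lit 2447) (nat_lit 9) (nat_lit 12))
    (@En.n l17 (nat_lit 13150) (nat_lit 14) (nat_lit 2))
    (@En.n l18 (nat_lit 13150) (nat_lit 15) (nat_lit 2))))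
  (@Cl.mk (nat_lit 0x20002000c00070007000c0004000d000d00040003000300090009000e000e) (nat_lit 0x30050880006478) (nat_lit 16) Lb.e (@T16.mk En
    (@En.n l68 (nat_lit 13151) (nat_lit 1) (nat_lit 14))
    (@En.i (nat_lit 3767) (nat_lit 1) (nat_lit 14))
    (@En.n l14514 (nat_lit 13258) (nat_lit 2) (nat_lit 9))
    (@En.n l17253 (nat_lit 13865) (nat_lit 3) (nat_lit 9))
    (@En.n l3489 (nat_lit 13153) (nat_lit 4) (nat_lit 3))
    (@En.n l18 (nat_lit 13152) (nat_lit 5) (nat_lit 3))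
    (@En.n l25406 (nat_lit 13282) (nat_lit 6) (nat_lit 4))
    (@En.n l61 (nat_lit 13152) (nat_lit 8) (nat_lit 13))
    (@En.n l11685 (nat_lit 13284) (nat_lit 9) (nat_lit 13))
    (@En.n l11686 (nat_lit 13148) (nat_lit 9) (nat_lit 4))
    (@En.n l25407 (nat_lit 13885) (nat_lit 11) (nat_lit 12))
    (@En.n l1769 (nat_lit 13205) (nat_lit 12) (nat_lit 7))
    (@En.n l11685 (nat_lit 13511) (nat_lit 13) (nat_lit 7))
    (@En.n l3638 (nat_lit 2454) (nat_lit 14) (nat_lit 12))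
    (@En.n l11 (nat_lit 13151) (nat_lit 14) (nat_lit 2))
    (@En.n l67 (nat_lit 13151) (nat_lit 15) (nat_lit 2))))
noncomputable def a822 : T16 Cl := @T16.mk Cl
  (@Cl.mk (nat_lit 0x20002000c00070007000d0004000d0003000e0003000200090009000e000e) (nat_lit 0x100b0703006723) (nat_lit 16) Lb.e (@T16.mk En
    (@En.n l68 (nat_lit 13152) (nat_lit 1) (nat_lit 14))
    (@En.i (nat_lit 3765) (nat_lit 13) (nat_lit 14))
    (@En.n l17508 (nat_lit 13353) (nat_lit 2) (nat_lit 9))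
    (@En.n l17251 (nat_lit 13862) (nat_lit 3) (nat_lit 9))
    (@En.n l17 (nat_lit 13152) (nat_lit 4) (nat_lit 2))
    (@En.i (nat_lit 13151) (nat_lit 5) (nat_lit 3))
    (@En.i (nat_lit 13818) (nat_lit 0) (nat_lit 14))
    (@En.i (nat_lit 13154) (nat_lit 7) (nat_lit 3))
    (@En.n l1449 (nat_lit 13286) (nat_lit 9) (nat_lit 13))
    (@En.n l26052 (nat_lit 13150) (nat_lit 9) (nat_lit 4))
    (@En.n l26053 (nat_lit 13360) (nat_lit 11) (nat_lit 13))
    (@En.n l575 (nat_lit 13209) (nat_lit 12) (nat_lit 7))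
    (@En.n l1449 (nat_lit 13510) (nat_lit 13) (nat_lit 7))
    (@En.n l3638 (nat_lit 2453) (nat_lit 9) (nat_lit 12))
    (@En.n l11 (nat_lit 13152) (nat_lit 14) (nat_lit 2))
    (@En.n l67 (nat_lit 13152) (nat_lit 15) (nat_lit 2))))
  (@Cl.mk (nat_lit 0x20002000c00070007000b0004000e000d00020005000300090009000e000e) (nat_lit 0x30060690006378) (nat_lit 16) Lb.e (@T16.mk En
    (@En.n l97 (nat_lit 13153) (nat_lit 1) (nat_lit 14))
    (@En.n l725 (nat_lit 3773) (nat_lit 11) (nat_lit 14))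
    (@En.n l7043 (nat_lit 13257) (nat_lit 2) (nat_lit 9))
    (@En.i (nat_lit 13840) (nat_lit 3) (nat_lit 9))
    (@En.n l4315 (nat_lit 13151) (nat_lit 4) (nat_lit 3))
    (@En.n l387 (nat_lit 13248) (nat_lit 5) (nat_lit 5))
    (@En.n l50 (nat_lit 13153) (nat_lit 6) (nat_lit 2))
    (@En.n l3112 (nat_lit 13151) (nat_lit 8) (nat_lit 13))
    (@En.n l1407 (nat_lit 13285) (nat_lit 9) (nat_lit 14))
    (@En.n l725 (nat_lit 13149) (nat_lit 9) (nat_lit 4))
    (@En.i (nat_lit 13848) (nat_lit 11) (nat_lit 11))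
    (@En.n l11681 (nat_lit 13206) (nat_lit 12) (nat_lit 7))
    (@En.i (nat_lit 13515) (nat_lit 13) (nat_lit 7))
    (@En.i (nat_lit 2455) (nat_lit 7) (nat_lit 12))
    (@En.n l107 (nat_lit 13153) (nat_lit 14) (nat_lit 2))
    (@En.n l3 (nat_lit 13153) (nat_lit 15) (nat_lit 2))))
  (@Cl.mk (nat_lit 0x20002000b00070007000d000c00050003000e0004000200090009000e000e) (nat_lit 0x200a6001005667) (nat_lit 16) Lb.e (@T16.mk En
    (@En.n l68 (nat_lit 13154) (nat_lit 1) (nat_lit 14))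
    (@En.i (nat_lit 3770) (nat_lit 13) (nat_lit 14))
    (@En.n l26148 (nat_lit 13352) (nat_lit 2) (nat_lit 9))
    (@En.n l13031 (nat_lit 13858) (nat_lit 3) (nat_lit 9))
    (@En.n l17 (nat_lit 13154) (nat_lit 4) (nat_lit 2))
    (@En.n l26149 (nat_lit 13155) (nat_lit 5) (nat_lit 4))
    (@En.n l26150 (nat_lit 713) (nat_lit 7) (nat_lit 14))
    (@En.n l50 (nat_lit 13152) (nat_lit 7) (nat_lit 3))
    (@En.n l25406 (nat_lit 12995) (nat_lit 8) (nat_lit 5))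
    (@En.n l217 (nat_lit 13151) (nat_lit 10) (nat_lit 12))
    (@En.n l1447 (nat_lit 13361) (nat_lit 11) (nat_lit 13))
    (@En.n l575 (nat_lit 13210) (nat_lit 12) (nat_lit 7))
    (@En.n l26151 (nat_lit 13509) (nat_lit 13) (nat_lit 7))
    (@En.n l3638 (nat_lit 1642) (nat_lit 9) (nat_lit 11))
    (@En.n l11 (nat_lit 13154) (nat_lit 14) (nat_lit 2))
    (@En.n l67 (nat_lit 13154) (nat_lit 15) (nat_lit 2))))
  (@Cl.mk (nat_lit 0x20002000a00070007000c000c000c000600040004000400090009000e000e) (nat_lit 0x20055700004523) (nat_lit 16) Lb.e (@T16.mk En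
    (@En.n l5 (nat_lit 13155) (nat_lit 1) (nat_lit 14))
    (@En.n l420 (nat_lit 3774) (nat_lit 1) (nat_lit 14))
    (@En.n l2110 (nat_lit 13260) (nat_lit 2) (nat_lit 9))
    (@En.n l6295 (nat_lit 13140) (nat_lit 3) (nat_lit 9))
    (@En.n l11 (nat_lit 13285) (nat_lit 4) (nat_lit 4))
    (@En.n l152 (nat_lit 13287) (nat_lit 5) (nat_lit 4))
    (@En.n l11903 (nat_lit 13151) (nat_lit 6) (nat_lit 4))
    (@En.i (nat_lit 12951) (nat_lit 7) (nat_lit 6))
    (@En.n l12563 (nat_lit 13154) (nat_lit 9) (nat_lit 12))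
    (@En.n l4971 (nat_lit 13282) (nat_lit 10) (nat_lit 12))
    (@En.n l12564 (nat_lit 13884) (nat_lit 11) (nat_lit 12))
    (@En.n l77 (nat_lit 13201) (nat_lit 12) (nat_lit 7))
    (@En.i (nat_lit 13514) (nat_lit 13) (nat_lit 7))
    (@En.n l2140 (nat_lit 1647) (nat_lit 14) (nat_lit 10))
    (@En.n l17 (nat_lit 13155) (nat_lit 14) (nat_lit 2))
    (@En.n l18 (nat_lit 13155) (nat_lit 15) (nat_lit 2))))
  (@Cl.mk (nat_lit 0x20002000d0006000c0003000d000c00040003000e00040002000a000e000e) (nat_lit 0x20409a004007bc) (nat_lit 16) Lb.e (@T16.mk En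
    (@En.n l97 (nat_lit 13156) (nat_lit 1) (nat_lit 14))
    (@En.i (nat_lit 4056) (nat_lit 1) (nat_lit 14))
    (@En.i (nat_lit 13163) (nat_lit 2) (nat_lit 10))
    (@En.n l17 (nat_lit 13156) (nat_lit 3) (nat_lit 2))
    (@En.n l50 (nat_lit 287) (nat_lit 4) (nat_lit 4))
    (@En.n l5 (nat_lit 13125) (nat_lit 6) (nat_lit 14))
    (@En.n l50 (nat_lit 13157) (nat_lit 6) (nat_lit 3))
    (@En.i (nat_lit 677) (nat_lit 7) (nat_lit 4))
    (@En.n l217 (nat_lit 13158) (nat_lit 9) (nat_lit 12))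
    (@En.i (nat_lit 13599) (nat_lit 10) (nat_lit 13))
    (@En.i (nat_lit 12985) (nat_lit 10) (nat_lit 3))
    (@En.i (nat_lit 14047) (nat_lit 12) (nat_lit 12))
    (@En.n l159 (nat_lit 13743) (nat_lit 13) (nat_lit 6))
    (@En.i (nat_lit 2245) (nat_lit 10) (nat_lit 13))
    (@En.n l107 (nat_lit 13156) (nat_lit 14) (nat_lit 2))
    (@En.n l3 (nat_lit 13156) (nat_lit 15) (nat_lit 2))))
  (@Cl.mk (nat_lit 0x20002000d0006000d0003000d0003000d0003000e00030002000a000e000e) (nat_lit 0x204090204007bc) (nat_lit 16) Lb.e (@T16.mk En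
    (@En.n l97 (nat_lit 13157) (nat_lit 1) (nat_lit 14))
    (@En.i (nat_lit 4051) (nat_lit 1) (nat_lit 14))
    (@En.i (nat_lit 13161) (nat_lit 2) (nat_lit 10))
    (@En.n l17 (nat_lit 13157) (nat_lit 3) (nat_lit 2))
    (@En.i (nat_lit 13158) (nat_lit 4) (nat_lit 3))
    (@En.i (nat_lit 13942) (nat_lit 0) (nat_lit 14))
    (@En.i (nat_lit 13156) (nat_lit 6) (nat_lit 3))
    (@En.i (nat_lit 285) (nat_lit 8) (nat_lit 13))
    (@En.i (nat_lit 13159) (nat_lit 8) (nat_lit 3))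
    (@En.i (nat_lit 13814) (nat_lit 10) (nat_lit 13))
    (@En.i (nat_lit 12984) (nat_lit 10) (nat_lit 3))
    (@En.i (nat_lit 13473) (nat_lit 12) (nat_lit 13))
    (@En.n l159 (nat_lit 13742) (nat_lit 13) (nat_lit 6))
    (@En.i (nat_lit 2373) (nat_lit 10) (nat_lit 13))
    (@En.n l107 (nat_lit 13157) (nat_lit 14) (nat_lit 2))
    (@En.n l3 (nat_lit 13157) (nat_lit 15) (nat_lit 2))))
  (@Cl.mk (nat_lit 0x20002000d0006000d0003000c0003000d000d000400030003000a000e000e) (nat_lit 0x106090130007bc) (nat_lit 16) Lb.e (@T16.mk En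
    (@En.n l97 (nat_lit 13158) (nat_lit 1) (nat_lit 14))
    (@En.i (nat_lit 4021) (nat_lit 1) (nat_lit 14))
    (@En.i (nat_lit 13164) (nat_lit 2) (nat_lit 10))
    (@En.i (nat_lit 13803) (nat_lit 3) (nat_lit 3))
    (@En.n l18 (nat_lit 13157) (nat_lit 4) (nat_lit 3))
    (@En.i (nat_lit 13564) (nat_lit 5) (nat_lit 4))
    (@En.n l61 (nat_lit 13157) (nat_lit 7) (nat_lit 13))
    (@En.i (nat_lit 283) (nat_lit 8) (nat_lit 13))
    (@En.i (nat_lit 13160) (nat_lit 8) (nat_lit 3))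
    (@En.i (nat_lit 13529) (nat_lit 10) (nat_lit 12))
    (@En.i (nat_lit 12983) (nat_lit 10) (nat_lit 3))
    (@En.i (nat_lit 13471) (nat_lit 12) (nat_lit 13))
    (@En.n l159 (nat_lit 13741) (nat_lit 13) (nat_lit 6))
    (@En.i (nat_lit 2268) (nat_lit 14) (nat_lit 13))
    (@En.n l107 (nat_lit 13158) (nat_lit 14) (nat_lit 2))
    (@En.n l3 (nat_lit 13158) (nat_lit 15) (nat_lit 2))))
  (@Cl.mk (nat_lit 0x20002000c0006000d000c00040003000d0004000e00030002000a000e000e) (nat_lit 0x206500703006bc) (nat_lit 16) Lb.e (@T16.mk En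
    (@En.n l97 (nat_lit 13159) (nat_lit 1) (nat_lit 14))
    (@En.i (nat_lit 4054) (nat_lit 1) (nat_lit 14))
    (@En.i (nat_lit 13162) (nat_lit 2) (nat_lit 10))
    (@En.n l17 (nat_lit 13159) (nat_lit 3) (nat_lit 2))
    (@En.i (nat_lit 13160) (nat_lit 4) (nat_lit 3))
    (@En.i (nat_lit 13945) (nat_lit 0) (nat_lit 14))
    (@En.n l7 (nat_lit 13501) (nat_lit 6) (nat_lit 4))
    (@En.n l564 (nat_lit 13161) (nat_lit 8) (nat_lit 13))
    (@En.n l7 (nat_lit 13157) (nat_lit 8) (nat_lit 3))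
    (@En.i (nat_lit 13492) (nat_lit 9) (nat_lit 4))
    (@En.n l644 (nat_lit 13156) (nat_lit 11) (nat_lit 12))
    (@En.i (nat_lit 13469) (nat_lit 12) (nat_lit 13))
    (@En.n l159 (nat_lit 13731) (nat_lit 13) (nat_lit 6))
    (@En.i (nat_lit 2335) (nat_lit 10) (nat_lit 12))
    (@En.n l107 (nat_lit 13159) (nat_lit 14) (nat_lit 2))
    (@En.n l3 (nat_lit 13159) (nat_lit 15) (nat_lit 2))))
  (@Cl.mk (nat_lit 0x20002000c0006000d000b00040003000d000d000500030003000a000e000e) (nat_lit 0x306100980006bc) (nat_lit 16) Lb.e (@T16.mk En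
    (@En.n l97 (nat_lit 13160) (nat_lit 1) (nat_lit 14))
    (@En.i (nat_lit 4026) (nat_lit 1) (nat_lit 14))
    (@En.i (nat_lit 13166) (nat_lit 2) (nat_lit 10))
    (@En.i (nat_lit 13169) (nat_lit 3) (nat_lit 3))
    (@En.n l18 (nat_lit 13159) (nat_lit 4) (nat_lit 3))
    (@En.n l7 (nat_lit 13562) (nat_lit 5) (nat_lit 5))
    (@En.n l61 (nat_lit 13159) (nat_lit 7) (nat_lit 13))
    (@En.n l564 (nat_lit 13163) (nat_lit 8) (nat_lit 13))
    (@En.n l7 (nat_lit 13158) (nat_lit 8) (nat_lit 3))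
    (@En.i (nat_lit 13493) (nat_lit 9) (nat_lit 4))
    (@En.i (nat_lit 287) (nat_lit 11) (nat_lit 11))
    (@En.i (nat_lit 13466) (nat_lit 12) (nat_lit 13))
    (@En.n l159 (nat_lit 13732) (nat_lit 13) (nat_lit 6))
    (@En.i (nat_lit 2336) (nat_lit 14) (nat_lit 12))
    (@En.n l107 (nat_lit 13160) (nat_lit 14) (nat_lit 2))
    (@En.n l3 (nat_lit 13160) (nat_lit 15) (nat_lit 2))))
  (@Cl.mk (nat_lit 0x20002000c00060009000d0004000d0003000d000300070003000a000e000e) (nat_lit 0x304706020006bc) (nat_lit 16) Lb.e (@T16.mk En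
    (@En.n l97 (nat_lit 13161) (nat_lit 1) (nat_lit 14))
    (@En.i (nat_lit 4404) (nat_lit 1) (nat_lit 14))
    (@En.i (nat_lit 13165) (nat_lit 2) (nat_lit 10))
    (@En.i (nat_lit 13164) (nat_lit 3) (nat_lit 3))
    (@En.n l387 (nat_lit 13412) (nat_lit 4) (nat_lit 7))
    (@En.i (nat_lit 13163) (nat_lit 5) (nat_lit 3))
    (@En.i (nat_lit 289) (nat_lit 7) (nat_lit 13))
    (@En.i (nat_lit 13162) (nat_lit 7) (nat_lit 3))
    (@En.n l1722 (nat_lit 13516) (nat_lit 9) (nat_lit 13))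
    (@En.i (nat_lit 13976) (nat_lit 9) (nat_lit 4))
    (@En.n l617 (nat_lit 13158) (nat_lit 11) (nat_lit 13))
    (@En.i (nat_lit 13397) (nat_lit 12) (nat_lit 9))
    (@En.n l159 (nat_lit 13734) (nat_lit 13) (nat_lit 6))
    (@En.i (nat_lit 2615) (nat_lit 14) (nat_lit 12))
    (@En.n l107 (nat_lit 13161) (nat_lit 14) (nat_lit 2))
    (@En.n l3 (nat_lit 13161) (nat_lit 15) (nat_lit 2))))
  (@Cl.mk (nat_lit 0x20002000b00060009000d000c00050003000d000400070003000a000e000e) (nat_lit 0x304760080005bc) (nat_lit 16) Lb.e (@T16.mk En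
    (@En.n l97 (nat_lit 13162) (nat_lit 1) (nat_lit 14))
    (@En.i (nat_lit 4405) (nat_lit 1) (nat_lit 14))
    (@En.i (nat_lit 13167) (nat_lit 2) (nat_lit 10))
    (@En.i (nat_lit 13166) (nat_lit 3) (nat_lit 3))
    (@En.n l387 (nat_lit 13409) (nat_lit 4) (nat_lit 7))
    (@En.n l7 (nat_lit 13499) (nat_lit 5) (nat_lit 4))
    (@En.n l564 (nat_lit 13165) (nat_lit 7) (nat_lit 13))
    (@En.n l7 (nat_lit 13161) (nat_lit 7) (nat_lit 3))
    (@En.i (nat_lit 13321) (nat_lit 8) (nat_lit 5))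
    (@En.n l644 (nat_lit 13163) (nat_lit 10) (nat_lit 12))
    (@En.n l617 (nat_lit 13160) (nat_lit 11) (nat_lit 13))
    (@En.i (nat_lit 13395) (nat_lit 12) (nat_lit 9))
    (@En.n l1660 (nat_lit 13733) (nat_lit 13) (nat_lit 6))
    (@En.i (nat_lit 2619) (nat_lit 14) (nat_lit 11))
    (@En.n l107 (nat_lit 13162) (nat_lit 14) (nat_lit 2))
    (@En.n l3 (nat_lit 13162) (nat_lit 15) (nat_lit 2))))
  (@Cl.mk (nat_lit 0x20002000c00060009000c0004000d000c0004000300070004000a000e000e) (nat_lit 0x304508700006bc) (nat_lit 16) Lb.e (@T16.mk En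
    (@En.n l97 (nat_lit 13163) (nat_lit 1) (nat_lit 14))
    (@En.i (nat_lit 4406) (nat_lit 1) (nat_lit 14))
    (@En.i (nat_lit 13168) (nat_lit 2) (nat_lit 10))
    (@En.n l50 (nat_lit 13568) (nat_lit 3) (nat_lit 4))
    (@En.n l612 (nat_lit 13162) (nat_lit 4) (nat_lit 7))
    (@En.n l50 (nat_lit 13161) (nat_lit 5) (nat_lit 3))
    (@En.i (nat_lit 13563) (nat_lit 6) (nat_lit 4))
    (@En.n l217 (nat_lit 13164) (nat_lit 8) (nat_lit 12))
    (@En.n l1722 (nat_lit 13513) (nat_lit 9) (nat_lit 13))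
    (@En.i (nat_lit 13978) (nat_lit 9) (nat_lit 4))
    (@En.n l617 (nat_lit 13564) (nat_lit 11) (nat_lit 12))
    (@En.i (nat_lit 13396) (nat_lit 12) (nat_lit 9))
    (@En.n l159 (nat_lit 13735) (nat_lit 13) (nat_lit 6))
    (@En.i (nat_lit 2618) (nat_lit 14) (nat_lit 12))
    (@En.n l107 (nat_lit 13163) (nat_lit 14) (nat_lit 2))
    (@En.n l3 (nat_lit 13163) (nat_lit 15) (nat_lit 2))))
  (@Cl.mk (nat_lit 0x20002000c0006000a000d0004000c0003000d000600040003000a000e000e) (nat_lit 0x304706010006bc) (nat_lit 16) Lb.e (@T16.mk En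
    (@En.n l97 (nat_lit 13164) (nat_lit 1) (nat_lit 14))
    (@En.i (nat_lit 4418) (nat_lit 1) (nat_lit 14))
    (@En.i (nat_lit 13586) (nat_lit 2) (nat_lit 10))
    (@En.n l18 (nat_lit 13161) (nat_lit 3) (nat_lit 3))
    (@En.n l4497 (nat_lit 13565) (nat_lit 4) (nat_lit 4))
    (@En.n l61 (nat_lit 13165) (nat_lit 5) (nat_lit 6))
    (@En.i (nat_lit 288) (nat_lit 7) (nat_lit 13))
    (@En.i (nat_lit 13166) (nat_lit 7) (nat_lit 3))
    (@En.n l4497 (nat_lit 13517) (nat_lit 9) (nat_lit 12))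
    (@En.i (nat_lit 13977) (nat_lit 9) (nat_lit 4))
    (@En.n l617 (nat_lit 13803) (nat_lit 11) (nat_lit 13))
    (@En.i (nat_lit 13993) (nat_lit 12) (nat_lit 10))
    (@En.n l4497 (nat_lit 13739) (nat_lit 13) (nat_lit 6))
    (@En.i (nat_lit 2616) (nat_lit 14) (nat_lit 12))
    (@En.n l107 (nat_lit 13164) (nat_lit 14) (nat_lit 2))
    (@En.n l3 (nat_lit 13164) (nat_lit 15) (nat_lit 2))))
  (@Cl.mk (nat_lit 0x20002000b0006000a0009000d0005000d0003000600030007000a000e000e) (nat_lit 0x204580700005bc) (nat_lit 16) Lb.e (@T16.mk En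
    (@En.n l97 (nat_lit 13165) (nat_lit 1) (nat_lit 14))
    (@En.n l17 (nat_lit 4387) (nat_lit 1) (nat_lit 14))
    (@En.n l7018 (nat_lit 13587) (nat_lit 2) (nat_lit 10))
    (@En.n l28497 (nat_lit 13410) (nat_lit 3) (nat_lit 7))
    (@En.i (nat_lit 13168) (nat_lit 4) (nat_lit 3))
    (@En.i (nat_lit 13592) (nat_lit 5) (nat_lit 6))
    (@En.i (nat_lit 13167) (nat_lit 6) (nat_lit 3))
    (@En.n l1722 (nat_lit 13515) (nat_lit 8) (nat_lit 13))
    (@En.i (nat_lit 14039) (nat_lit 8) (nat_lit 5))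
    (@En.n l617 (nat_lit 13164) (nat_lit 10) (nat_lit 13))
    (@En.n l17 (nat_lit 13161) (nat_lit 11) (nat_lit 9))
    (@En.i (nat_lit 13999) (nat_lit 12) (nat_lit 10))
    (@En.n l159 (nat_lit 13737) (nat_lit 13) (nat_lit 6))
    (@En.i (nat_lit 2617) (nat_lit 14) (nat_lit 11))
    (@En.n l107 (nat_lit 13165) (nat_lit 14) (nat_lit 2))
    (@En.n l3 (nat_lit 13165) (nat_lit 15) (nat_lit 2))))
  (@Cl.mk (nat_lit 0x20002000b0006000a000d000b00050003000d000600050003000a000e000e) (nat_lit 0x3047600a0005bc) (nat_lit 16) Lb.e (@T16.mk En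
    (@En.n l97 (nat_lit 13166) (nat_lit 1) (nat_lit 14))
    (@En.i (nat_lit 4419) (nat_lit 1) (nat_lit 14))
    (@En.n l7019 (nat_lit 13533) (nat_lit 2) (nat_lit 10))
    (@En.n l18 (nat_lit 13162) (nat_lit 3) (nat_lit 3))
    (@En.n l26334 (nat_lit 13343) (nat_lit 4) (nat_lit 5))
    (@En.n l61 (nat_lit 13167) (nat_lit 5) (nat_lit 6))
    (@En.n l564 (nat_lit 13168) (nat_lit 7) (nat_lit 13))
    (@En.n l7 (nat_lit 13164) (nat_lit 7) (nat_lit 3))
    (@En.i (nat_lit 13322) (nat_lit 8) (nat_lit 5))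
    (@En.i (nat_lit 13568) (nat_lit 10) (nat_lit 11))
    (@En.n l617 (nat_lit 13169) (nat_lit 11) (nat_lit 13))
    (@En.i (nat_lit 14000) (nat_lit 12) (nat_lit 10))
    (@En.n l1466 (nat_lit 13736) (nat_lit 13) (nat_lit 6))
    (@En.i (nat_lit 2622) (nat_lit 14) (nat_lit 11))
    (@En.n l107 (nat_lit 13166) (nat_lit 14) (nat_lit 2))
    (@En.n l3 (nat_lit 13166) (nat_lit 15) (nat_lit 2))))
  (@Cl.mk (nat_lit 0x20002000a0006000a0009000d000c00060003000600040007000a000e000e) (nat_lit 0x304587000004bc) (nat_lit 16) Lb.e (@T16.mk En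
    (@En.n l97 (nat_lit 13167) (nat_lit 1) (nat_lit 14))
    (@En.n l17 (nat_lit 4384) (nat_lit 1) (nat_lit 14))
    (@En.n l5549 (nat_lit 13532) (nat_lit 2) (nat_lit 10))
    (@En.n l39941 (nat_lit 13411) (nat_lit 3) (nat_lit 7))
    (@En.n l5549 (nat_lit 13346) (nat_lit 4) (nat_lit 4))
    (@En.n l22084 (nat_lit 13350) (nat_lit 5) (nat_lit 6))
    (@En.n l7 (nat_lit 13165) (nat_lit 6) (nat_lit 3))
    (@En.n l11834 (nat_lit 13323) (nat_lit 7) (nat_lit 6))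
    (@En.n l644 (nat_lit 13168) (nat_lit 9) (nat_lit 12))
    (@En.n l617 (nat_lit 13166) (nat_lit 10) (nat_lit 13))
    (@En.n l17 (nat_lit 13162) (nat_lit 11) (nat_lit 9))
    (@En.i (nat_lit 13998) (nat_lit 12) (nat_lit 10))
    (@En.n l17838 (nat_lit 13738) (nat_lit 13) (nat_lit 6))
    (@En.n l22084 (nat_lit 2621) (nat_lit 14) (nat_lit 10))
    (@En.n l107 (nat_lit 13167) (nat_lit 14) (nat_lit 2))
    (@En.n l3 (nat_lit 13167) (nat_lit 15) (nat_lit 2))))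
noncomputable def a823 : T16 Cl := @T16.mk Cl
  (@Cl.mk (nat_lit 0x20002000b0006000b0009000c0005000d0005000400030007000a000e000e) (nat_lit 0x305560900005bc) (nat_lit 16) Lb.e (@T16.mk En
    (@En.n l97 (nat_lit 13168) (nat_lit 1) (nat_lit 14))
    (@En.n l3327 (nat_lit 4383) (nat_lit 1) (nat_lit 14))
    (@En.n l5549 (nat_lit 13585) (nat_lit 2) (nat_lit 10))
    (@En.n l612 (nat_lit 13167) (nat_lit 3) (nat_lit 7))
    (@En.n l50 (nat_lit 13165) (nat_lit 4) (nat_lit 3))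
    (@En.n l5549 (nat_lit 13347) (nat_lit 5) (nat_lit 4))
    (@En.i (nat_lit 13342) (nat_lit 6) (nat_lit 5))
    (@En.n l12715 (nat_lit 13511) (nat_lit 8) (nat_lit 13))
    (@En.n l4803 (nat_lit 14038) (nat_lit 8) (nat_lit 5))
    (@En.n l12715 (nat_lit 13565) (nat_lit 10) (nat_lit 12))
    (@En.n l17 (nat_lit 13163) (nat_lit 11) (nat_lit 9))
    (@En.i (nat_lit 13997) (nat_lit 12) (nat_lit 11))
    (@En.n l12715 (nat_lit 13740) (nat_lit 13) (nat_lit 6))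
    (@En.n l3327 (nat_lit 2620) (nat_lit 14) (nat_lit 11))
    (@En.n l107 (nat_lit 13168) (nat_lit 14) (nat_lit 2))
    (@En.n l3 (nat_lit 13168) (nat_lit 15) (nat_lit 2))))
  (@Cl.mk (nat_lit 0x20002000c0006000d000a00040003000e000d000200060003000a000e000e) (nat_lit 0x1065009a0006bc) (nat_lit 16) Lb.e (@T16.mk En
    (@En.n l97 (nat_lit 13169) (nat_lit 1) (nat_lit 14))
    (@En.i (nat_lit 4023) (nat_lit 12) (nat_lit 14))
    (@En.n l6147 (nat_lit 13604) (nat_lit 2) (nat_lit 10))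
    (@En.n l72 (nat_lit 13160) (nat_lit 3) (nat_lit 3))
    (@En.n l1935 (nat_lit 13341) (nat_lit 4) (nat_lit 6))
    (@En.n l17 (nat_lit 13169) (nat_lit 5) (nat_lit 2))
    (@En.n l61 (nat_lit 13160) (nat_lit 7) (nat_lit 13))
    (@En.n l5336 (nat_lit 13575) (nat_lit 8) (nat_lit 14))
    (@En.n l7 (nat_lit 13803) (nat_lit 8) (nat_lit 3))
    (@En.n l1777 (nat_lit 13494) (nat_lit 9) (nat_lit 4))
    (@En.n l1778 (nat_lit 13802) (nat_lit 11) (nat_lit 10))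
    (@En.n l5337 (nat_lit 13470) (nat_lit 12) (nat_lit 13))
    (@En.n l12667 (nat_lit 13810) (nat_lit 13) (nat_lit 6))
    (@En.n l5331 (nat_lit 2337) (nat_lit 8) (nat_lit 12))
    (@En.n l107 (nat_lit 13169) (nat_lit 14) (nat_lit 2))
    (@En.n l3 (nat_lit 13169) (nat_lit 15) (nat_lit 2))))
  (@Cl.mk (nat_lit 0x20002000a000e000d0002000c00030006000d0004000e00030002000e000e) (nat_lit 0x724070090c0045) (nat_lit 16) Lb.e (@T16.mk En
    (@En.n l5 (nat_lit 13170) (nat_lit 1) (nat_lit 14))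
    (@En.n l2100 (nat_lit 849) (nat_lit 1) (nat_lit 14))
    (@En.n l7 (nat_lit 13170) (nat_lit 2) (nat_lit 2))
    (@En.i (nat_lit 13085) (nat_lit 3) (nat_lit 3))
    (@En.i (nat_lit 13280) (nat_lit 0) (nat_lit 14))
    (@En.i (nat_lit 13174) (nat_lit 5) (nat_lit 4))
    (@En.i (nat_lit 13681) (nat_lit 7) (nat_lit 13))
    (@En.i (nat_lit 14077) (nat_lit 7) (nat_lit 6))
    (@En.n l117 (nat_lit 13080) (nat_lit 8) (nat_lit 3))
    (@En.i (nat_lit 13172) (nat_lit 10) (nat_lit 12))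
    (@En.n l3 (nat_lit 13170) (nat_lit 10) (nat_lit 2))
    (@En.i (nat_lit 13080) (nat_lit 12) (nat_lit 13))
    (@En.i (nat_lit 13071) (nat_lit 13) (nat_lit 14))
    (@En.n l2568 (nat_lit 710) (nat_lit 14) (nat_lit 10))
    (@En.n l17 (nat_lit 13170) (nat_lit 14) (nat_lit 2))
    (@En.n l18 (nat_lit 13170) (nat_lit 15) (nat_lit 2))))
  (@Cl.mk (nat_lit 0x20002000b000e000b0002000c0005000c00050004000e00040002000e000e) (nat_lit 0x72506070090023) (nat_lit 16) Lb.e (@T16.mk En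
    (@En.n l5 (nat_lit 13171) (nat_lit 1) (nat_lit 14))
    (@En.n l903 (nat_lit 2264) (nat_lit 1) (nat_lit 14))
    (@En.n l7 (nat_lit 13171) (nat_lit 2) (nat_lit 2))
    (@En.n l11 (nat_lit 13092) (nat_lit 3) (nat_lit 4))
    (@En.n l134 (nat_lit 14100) (nat_lit 5) (nat_lit 14))
    (@En.n l11 (nat_lit 13170) (nat_lit 5) (nat_lit 4))
    (@En.i (nat_lit 13177) (nat_lit 6) (nat_lit 5))
    (@En.i (nat_lit 13683) (nat_lit 8) (nat_lit 12))
    (@En.n l524 (nat_lit 13172) (nat_lit 8) (nat_lit 5))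
    (@En.i (nat_lit 13173) (nat_lit 10) (nat_lit 12))
    (@En.n l3 (nat_lit 13171) (nat_lit 10) (nat_lit 2))
    (@En.i (nat_lit 13175) (nat_lit 12) (nat_lit 11))
    (@En.i (nat_lit 13102) (nat_lit 13) (nat_lit 14))
    (@En.i (nat_lit 4955) (nat_lit 2) (nat_lit 11))
    (@En.n l17 (nat_lit 13171) (nat_lit 14) (nat_lit 2))
    (@En.n l18 (nat_lit 13171) (nat_lit 15) (nat_lit 2))))
  (@Cl.mk (nat_lit 0x20002000b0009000e000c00020005000c00040007000e00040002000e000e) (nat_lit 0x823600100a0034) (nat_lit 16) Lb.e (@T16.mk En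
    (@En.n l5 (nat_lit 13172) (nat_lit 1) (nat_lit 14))
    (@En.n l1997 (nat_lit 2261) (nat_lit 1) (nat_lit 14))
    (@En.n l7 (nat_lit 13172) (nat_lit 2) (nat_lit 2))
    (@En.i (nat_lit 13091) (nat_lit 3) (nat_lit 4))
    (@En.n l1504 (nat_lit 14102) (nat_lit 5) (nat_lit 14))
    (@En.i (nat_lit 14084) (nat_lit 11) (nat_lit 7))
    (@En.i (nat_lit 13176) (nat_lit 6) (nat_lit 4))
    (@En.i (nat_lit 271) (nat_lit 8) (nat_lit 12))
    (@En.i (nat_lit 13185) (nat_lit 8) (nat_lit 5))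
    (@En.n l107 (nat_lit 13172) (nat_lit 9) (nat_lit 2))
    (@En.n l180 (nat_lit 13173) (nat_lit 11) (nat_lit 12))
    (@En.n l619 (nat_lit 13171) (nat_lit 12) (nat_lit 14))
    (@En.n l625 (nat_lit 13174) (nat_lit 13) (nat_lit 9))
    (@En.n l2568 (nat_lit 4954) (nat_lit 3) (nat_lit 11))
    (@En.n l17 (nat_lit 13172) (nat_lit 14) (nat_lit 2))
    (@En.n l18 (nat_lit 13172) (nat_lit 15) (nat_lit 2))))
  (@Cl.mk (nat_lit 0x20002000c0009000c000c0004000b000400040007000e00050002000e000e) (nat_lit 0x73550100020023) (nat_lit 16) Lb.e (@T16.mk En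
    (@En.n l5 (nat_lit 13173) (nat_lit 1) (nat_lit 14))
    (@En.n l26709 (nat_lit 2258) (nat_lit 1) (nat_lit 14))
    (@En.n l7 (nat_lit 13173) (nat_lit 2) (nat_lit 2))
    (@En.n l5732 (nat_lit 13093) (nat_lit 3) (nat_lit 5))
    (@En.n l4893 (nat_lit 13565) (nat_lit 5) (nat_lit 14))
    (@En.n l159 (nat_lit 13172) (nat_lit 5) (nat_lit 7))
    (@En.n l11 (nat_lit 13172) (nat_lit 6) (nat_lit 4))
    (@En.n l18536 (nat_lit 13178) (nat_lit 7) (nat_lit 4))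
    (@En.i (nat_lit 272) (nat_lit 9) (nat_lit 11))
    (@En.n l7618 (nat_lit 13182) (nat_lit 9) (nat_lit 4))
    (@En.n l1572 (nat_lit 13179) (nat_lit 11) (nat_lit 12))
    (@En.n l619 (nat_lit 13183) (nat_lit 12) (nat_lit 12))
    (@En.n l3478 (nat_lit 12968) (nat_lit 13) (nat_lit 9))
    (@En.i (nat_lit 4952) (nat_lit 14) (nat_lit 12))
    (@En.n l17 (nat_lit 13173) (nat_lit 14) (nat_lit 2))
    (@En.n l18 (nat_lit 13173) (nat_lit 15) (nat_lit 2))))
  (@Cl.mk (nat_lit 0x200020009000e000c0002000c000b000400070004000e00050002000e000e) (nat_lit 0x124067000c0023) (nat_lit 16) Lb.e (@T16.mk En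
    (@En.n l5 (nat_lit 13174) (nat_lit 1) (nat_lit 14))
    (@En.n l5931 (nat_lit 2661) (nat_lit 1) (nat_lit 14))
    (@En.n l7 (nat_lit 13174) (nat_lit 2) (nat_lit 2))
    (@En.n l5246 (nat_lit 12966) (nat_lit 3) (nat_lit 5))
    (@En.n l134 (nat_lit 13560) (nat_lit 5) (nat_lit 14))
    (@En.i (nat_lit 13171) (nat_lit 5) (nat_lit 4))
    (@En.i (nat_lit 14076) (nat_lit 6) (nat_lit 7))
    (@En.i (nat_lit 13181) (nat_lit 7) (nat_lit 4))
    (@En.n l55 (nat_lit 13085) (nat_lit 9) (nat_lit 11))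
    (@En.i (nat_lit 13176) (nat_lit 10) (nat_lit 12))
    (@En.n l3 (nat_lit 13174) (nat_lit 10) (nat_lit 2))
    (@En.i (nat_lit 12968) (nat_lit 12) (nat_lit 12))
    (@En.i (nat_lit 12846) (nat_lit 13) (nat_lit 14))
    (@En.n l2568 (nat_lit 5760) (nat_lit 14) (nat_lit 9))
    (@En.n l17 (nat_lit 13174) (nat_lit 14) (nat_lit 2))
    (@En.n l18 (nat_lit 13174) (nat_lit 15) (nat_lit 2))))
  (@Cl.mk (nat_lit 0x20002000c000b000b000b0004000b000500050005000e00050002000e000e) (nat_lit 0x745407000b0023) (nat_lit 16) Lb.e (@T16.mk En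
    (@En.n l5 (nat_lit 13175) (nat_lit 1) (nat_lit 14))
    (@En.i (nat_lit 2229) (nat_lit 1) (nat_lit 14))
    (@En.n l7 (nat_lit 13175) (nat_lit 2) (nat_lit 2))
    (@En.i (nat_lit 13095) (nat_lit 3) (nat_lit 5))
    (@En.n l134 (nat_lit 13364) (nat_lit 5) (nat_lit 14))
    (@En.n l11 (nat_lit 13184) (nat_lit 5) (nat_lit 5))
    (@En.n l152 (nat_lit 13171) (nat_lit 6) (nat_lit 5))
    (@En.n l5939 (nat_lit 13241) (nat_lit 7) (nat_lit 5))
    (@En.i (nat_lit 13679) (nat_lit 9) (nat_lit 11))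
    (@En.n l7966 (nat_lit 13173) (nat_lit 9) (nat_lit 4))
    (@En.n l619 (nat_lit 13183) (nat_lit 11) (nat_lit 11))
    (@En.n l1596 (nat_lit 13212) (nat_lit 12) (nat_lit 11))
    (@En.i (nat_lit 13186) (nat_lit 13) (nat_lit 11))
    (@En.i (nat_lit 4945) (nat_lit 14) (nat_lit 12))
    (@En.n l17 (nat_lit 13175) (nat_lit 14) (nat_lit 2))
    (@En.n l18 (nat_lit 13175) (nat_lit 15) (nat_lit 2))))
  (@Cl.mk (nat_lit 0x20002000a0009000d000c000a0003000600040007000e00060002000e000e) (nat_lit 0x344560000b0023) (nat_lit 16) Lb.e (@T16.mk En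
    (@En.n l5 (nat_lit 13176) (nat_lit 1) (nat_lit 14))
    (@En.n l5931 (nat_lit 2324) (nat_lit 1) (nat_lit 14))
    (@En.n l7 (nat_lit 13176) (nat_lit 2) (nat_lit 2))
    (@En.n l5246 (nat_lit 13221) (nat_lit 3) (nat_lit 6))
    (@En.n l1504 (nat_lit 13343) (nat_lit 5) (nat_lit 14))
    (@En.n l5931 (nat_lit 13763) (nat_lit 5) (nat_lit 7))
    (@En.i (nat_lit 13173) (nat_lit 6) (nat_lit 4))
    (@En.n l5931 (nat_lit 13187) (nat_lit 7) (nat_lit 6))
    (@En.n l20916 (nat_lit 13180) (nat_lit 8) (nat_lit 3))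
    (@En.i (nat_lit 13985) (nat_lit 10) (nat_lit 10))
    (@En.n l27273 (nat_lit 13178) (nat_lit 11) (nat_lit 12))
    (@En.n l619 (nat_lit 13177) (nat_lit 12) (nat_lit 13))
    (@En.n l625 (nat_lit 13181) (nat_lit 13) (nat_lit 9))
    (@En.n l2568 (nat_lit 6451) (nat_lit 14) (nat_lit 10))
    (@En.n l17 (nat_lit 13176) (nat_lit 14) (nat_lit 2))
    (@En.n l18 (nat_lit 13176) (nat_lit 15) (nat_lit 2))))
  (@Cl.mk (nat_lit 0x20002000a000d000b00090003000d000600050003000e00070002000e000e) (nat_lit 0x33450600070023) (nat_lit 16) Lb.e (@T16.mk En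
    (@En.n l5 (nat_lit 13177) (nat_lit 1) (nat_lit 14))
    (@En.n l18535 (nat_lit 2329) (nat_lit 1) (nat_lit 14))
    (@En.n l7 (nat_lit 13177) (nat_lit 2) (nat_lit 2))
    (@En.i (nat_lit 13224) (nat_lit 3) (nat_lit 7))
    (@En.n l134 (nat_lit 13540) (nat_lit 5) (nat_lit 14))
    (@En.n l11 (nat_lit 13181) (nat_lit 5) (nat_lit 3))
    (@En.i (nat_lit 13183) (nat_lit 6) (nat_lit 5))
    (@En.n l524 (nat_lit 13176) (nat_lit 7) (nat_lit 6))
    (@En.n l18536 (nat_lit 13178) (nat_lit 9) (nat_lit 13))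
    (@En.n l7630 (nat_lit 13301) (nat_lit 9) (nat_lit 3))
    (@En.i (nat_lit 13644) (nat_lit 11) (nat_lit 9))
    (@En.n l5939 (nat_lit 13241) (nat_lit 12) (nat_lit 11))
    (@En.i (nat_lit 13208) (nat_lit 13) (nat_lit 13))
    (@En.i (nat_lit 6450) (nat_lit 14) (nat_lit 10))
    (@En.n l17 (nat_lit 13177) (nat_lit 14) (nat_lit 2))
    (@En.n l18 (nat_lit 13177) (nat_lit 15) (nat_lit 2))))
  (@Cl.mk (nat_lit 0x20002000b0009000c0009000d0005000400030007000e00070002000e000e) (nat_lit 0x334550000b0023) (nat_lit 16) Lb.e (@T16.mk En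
    (@En.n l97 (nat_lit 13178) (nat_lit 1) (nat_lit 14))
    (@En.i (nat_lit 2323) (nat_lit 1) (nat_lit 14))
    (@En.n l17 (nat_lit 13178) (nat_lit 2) (nat_lit 2))
    (@En.n l9572 (nat_lit 13217) (nat_lit 3) (nat_lit 7))
    (@En.n l3178 (nat_lit 13341) (nat_lit 5) (nat_lit 14))
    (@En.n l25588 (nat_lit 13176) (nat_lit 5) (nat_lit 7))
    (@En.n l1497 (nat_lit 13180) (nat_lit 6) (nat_lit 3))
    (@En.n l25589 (nat_lit 13179) (nat_lit 7) (nat_lit 4))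
    (@En.n l13574 (nat_lit 13186) (nat_lit 8) (nat_lit 5))
    (@En.i (nat_lit 13042) (nat_lit 10) (nat_lit 13))
    (@En.n l3178 (nat_lit 13984) (nat_lit 11) (nat_lit 9))
    (@En.n l4370 (nat_lit 13243) (nat_lit 12) (nat_lit 12))
    (@En.n l11740 (nat_lit 13300) (nat_lit 13) (nat_lit 9))
    (@En.n l16837 (nat_lit 6453) (nat_lit 14) (nat_lit 11))
    (@En.n l107 (nat_lit 13178) (nat_lit 14) (nat_lit 2))
    (@En.n l3 (nat_lit 13178) (nat_lit 15) (nat_lit 2))))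
  (@Cl.mk (nat_lit 0x20002000d0009000c0003000a000e000400020007000e00060002000e000e) (nat_lit 0x74401600030078) (nat_lit 16) Lb.e (@T16.mk En
    (@En.n l5 (nat_lit 13179) (nat_lit 1) (nat_lit 14))
    (@En.n l1997 (nat_lit 2257) (nat_lit 1) (nat_lit 14))
    (@En.n l7 (nat_lit 13179) (nat_lit 2) (nat_lit 2))
    (@En.n l1599 (nat_lit 13213) (nat_lit 3) (nat_lit 6))
    (@En.n l2031 (nat_lit 13566) (nat_lit 5) (nat_lit 14))
    (@En.n l4870 (nat_lit 13173) (nat_lit 5) (nat_lit 7))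
    (@En.n l107 (nat_lit 13179) (nat_lit 6) (nat_lit 2))
    (@En.n l7706 (nat_lit 13173) (nat_lit 7) (nat_lit 4))
    (@En.n l1997 (nat_lit 13075) (nat_lit 9) (nat_lit 14))
    (@En.i (nat_lit 273) (nat_lit 10) (nat_lit 10))
    (@En.n l4871 (nat_lit 13212) (nat_lit 10) (nat_lit 3))
    (@En.i (nat_lit 13242) (nat_lit 12) (nat_lit 12))
    (@En.n l1783 (nat_lit 12971) (nat_lit 13) (nat_lit 9))
    (@En.n l2568 (nat_lit 4948) (nat_lit 7) (nat_lit 13))
    (@En.n l17 (nat_lit 13179) (nat_lit 14) (nat_lit 2))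
    (@En.n l18 (nat_lit 13179) (nat_lit 15) (nat_lit 2))))
  (@Cl.mk (nat_lit 0x20002000a0009000d0009000d0003000600030007000e00070002000e000e) (nat_lit 0x344560000b0089) (nat_lit 16) Lb.e (@T16.mk En
    (@En.n l5 (nat_lit 13180) (nat_lit 1) (nat_lit 14))
    (@En.n l39907 (nat_lit 2325) (nat_lit 1) (nat_lit 14))
    (@En.n l7 (nat_lit 13180) (nat_lit 2) (nat_lit 2))
    (@En.n l39908 (nat_lit 13223) (nat_lit 3) (nat_lit 7))
    (@En.n l39909 (nat_lit 13340) (nat_lit 5) (nat_lit 14))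
    (@En.n l1557 (nat_lit 13762) (nat_lit 5) (nat_lit 7))
    (@En.n l1424 (nat_lit 13178) (nat_lit 6) (nat_lit 3))
    (@En.n l1677 (nat_lit 14080) (nat_lit 7) (nat_lit 6))
    (@En.n l21115 (nat_lit 13176) (nat_lit 8) (nat_lit 3))
    (@En.i (nat_lit 13041) (nat_lit 10) (nat_lit 13))
    (@En.n l39910 (nat_lit 13986) (nat_lit 11) (nat_lit 9))
    (@En.n l12 (nat_lit 13301) (nat_lit 12) (nat_lit 13))
    (@En.i (nat_lit 13299) (nat_lit 13) (nat_lit 9))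
    (@En.n l39911 (nat_lit 6452) (nat_lit 14) (nat_lit 10))
    (@En.n l17 (nat_lit 13180) (nat_lit 14) (nat_lit 2))
    (@En.n l18 (nat_lit 13180) (nat_lit 15) (nat_lit 2))))
  (@Cl.mk (nat_lit 0x200020009000d000c00090003000d000400070003000e00070002000e000e) (nat_lit 0x33560700070012) (nat_lit 16) Lb.e (@T16.mk En
    (@En.n l5 (nat_lit 13181) (nat_lit 1) (nat_lit 14))
    (@En.n l26068 (nat_lit 2328) (nat_lit 1) (nat_lit 14))
    (@En.n l7 (nat_lit 13181) (nat_lit 2) (nat_lit 2))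
    (@En.n l21237 (nat_lit 13225) (nat_lit 3) (nat_lit 7))
    (@En.n l134 (nat_lit 13600) (nat_lit 5) (nat_lit 14))
    (@En.i (nat_lit 13177) (nat_lit 5) (nat_lit 3))
    (@En.n l26069 (nat_lit 13766) (nat_lit 6) (nat_lit 7))
    (@En.n l117 (nat_lit 12968) (nat_lit 7) (nat_lit 4))
    (@En.n l20916 (nat_lit 13180) (nat_lit 9) (nat_lit 13))
    (@En.n l7630 (nat_lit 13299) (nat_lit 9) (nat_lit 3))
    (@En.n l21052 (nat_lit 13642) (nat_lit 11) (nat_lit 9))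
    (@En.n l7630 (nat_lit 13300) (nat_lit 12) (nat_lit 12))
    (@En.n l4938 (nat_lit 13207) (nat_lit 13) (nat_lit 13))
    (@En.n l2568 (nat_lit 5369) (nat_lit 14) (nat_lit 9))
    (@En.n l17 (nat_lit 13181) (nat_lit 14) (nat_lit 2))
    (@En.n l18 (nat_lit 13181) (nat_lit 15) (nat_lit 2))))
  (@Cl.mk (nat_lit 0x20002000c000a000a000d0004000b000300060006000e00050002000e000e) (nat_lit 0xa4550600050023) (nat_lit 16) Lb.e (@T16.mk En
    (@En.n l5 (nat_lit 13182) (nat_lit 1) (nat_lit 14))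
    (@En.n l12647 (nat_lit 2267) (nat_lit 1) (nat_lit 14))
    (@En.n l7 (nat_lit 13182) (nat_lit 2) (nat_lit 2))
    (@En.n l12983 (nat_lit 13190) (nat_lit 3) (nat_lit 5))
    (@En.n l2040 (nat_lit 13355) (nat_lit 5) (nat_lit 14))
    (@En.n l18532 (nat_lit 13185) (nat_lit 5) (nat_lit 6))
    (@En.n l282 (nat_lit 13184) (nat_lit 6) (nat_lit 6))
    (@En.i (nat_lit 13186) (nat_lit 7) (nat_lit 3))
    (@En.n l282 (nat_lit 13664) (nat_lit 9) (nat_lit 11))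
    (@En.n l1097 (nat_lit 13175) (nat_lit 9) (nat_lit 4))
    (@En.i (nat_lit 13191) (nat_lit 11) (nat_lit 13))
    (@En.n l3478 (nat_lit 13191) (nat_lit 12) (nat_lit 10))
    (@En.n l5721 (nat_lit 13176) (nat_lit 13) (nat_lit 10))
    (@En.n l5781 (nat_lit 1879) (nat_lit 14) (nat_lit 12))
    (@En.n l17 (nat_lit 13182) (nat_lit 14) (nat_lit 2))
    (@En.n l18 (nat_lit 13182) (nat_lit 15) (nat_lit 2))))
  (@Cl.mk (nat_lit 0x20002000d000c000b0003000a0004000e00050002000e00060002000e000e) (nat_lit 0x743070700a0078) (nat_lit 16) Lb.e (@T16.mk En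
    (@En.n l5 (nat_lit 13183) (nat_lit 1) (nat_lit 14))
    (@En.n l3290 (nat_lit 2379) (nat_lit 1) (nat_lit 14))
    (@En.n l7 (nat_lit 13183) (nat_lit 2) (nat_lit 2))
    (@En.n l7619 (nat_lit 13228) (nat_lit 3) (nat_lit 6))
    (@En.n l18533 (nat_lit 13362) (nat_lit 5) (nat_lit 14))
    (@En.n l11 (nat_lit 13183) (nat_lit 5) (nat_lit 2))
    (@En.n l117 (nat_lit 13175) (nat_lit 6) (nat_lit 5))
    (@En.n l2691 (nat_lit 13179) (nat_lit 8) (nat_lit 14))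
    (@En.n l839 (nat_lit 13243) (nat_lit 8) (nat_lit 4))
    (@En.i (nat_lit 13684) (nat_lit 10) (nat_lit 10))
    (@En.n l2557 (nat_lit 13191) (nat_lit 10) (nat_lit 3))
    (@En.n l839 (nat_lit 13235) (nat_lit 12) (nat_lit 11))
    (@En.i (nat_lit 13193) (nat_lit 13) (nat_lit 12))
    (@En.n l2238 (nat_lit 4942) (nat_lit 14) (nat_lit 13))
    (@En.n l17 (nat_lit 13183) (nat_lit 14) (nat_lit 2))
    (@En.n l18 (nat_lit 13183) (nat_lit 15) (nat_lit 2))))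
noncomputable def a824 : T16 Cl := @T16.mk Cl
  (@Cl.mk (nat_lit 0x20002000b000a000e000b00020005000c00060005000e00040002000e000e) (nat_lit 0x935600700b0023) (nat_lit 16) Lb.e (@T16.mk En
    (@En.n l5 (nat_lit 13184) (nat_lit 1) (nat_lit 14))
    (@En.n l2916 (nat_lit 2265) (nat_lit 1) (nat_lit 14))
    (@En.n l7 (nat_lit 13184) (nat_lit 2) (nat_lit 2))
    (@En.i (nat_lit 13097) (nat_lit 3) (nat_lit 4))
    (@En.n l4940 (nat_lit 13354) (nat_lit 5) (nat_lit 14))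
    (@En.i (nat_lit 13080) (nat_lit 5) (nat_lit 5))
    (@En.i (nat_lit 13250) (nat_lit 6) (nat_lit 6))
    (@En.i (nat_lit 13670) (nat_lit 8) (nat_lit 12))
    (@En.n l197 (nat_lit 13171) (nat_lit 8) (nat_lit 5))
    (@En.n l67 (nat_lit 13184) (nat_lit 9) (nat_lit 2))
    (@En.n l68 (nat_lit 13175) (nat_lit 11) (nat_lit 11))
    (@En.n l1904 (nat_lit 13185) (nat_lit 12) (nat_lit 14))
    (@En.n l1791 (nat_lit 13187) (nat_lit 13) (nat_lit 10))
    (@En.i (nat_lit 4998) (nat_lit 3) (nat_lit 11))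
    (@En.n l17 (nat_lit 13184) (nat_lit 14) (nat_lit 2))
    (@En.n l18 (nat_lit 13184) (nat_lit 15) (nat_lit 2))))
  (@Cl.mk (nat_lit 0x20002000b000e000a0002000d0005000c00030006000e00040002000e000e) (nat_lit 0x94506070040023) (nat_lit 16) Lb.e (@T16.mk En
    (@En.n l5 (nat_lit 13185) (nat_lit 1) (nat_lit 14))
    (@En.n l1997 (nat_lit 2266) (nat_lit 1) (nat_lit 14))
    (@En.n l7 (nat_lit 13185) (nat_lit 2) (nat_lit 2))
    (@En.n l1599 (nat_lit 13189) (nat_lit 3) (nat_lit 4))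
    (@En.n l1889 (nat_lit 13353) (nat_lit 5) (nat_lit 14))
    (@En.n l1638 (nat_lit 13081) (nat_lit 5) (nat_lit 6))
    (@En.n l5931 (nat_lit 13187) (nat_lit 6) (nat_lit 3))
    (@En.n l1889 (nat_lit 13665) (nat_lit 8) (nat_lit 12))
    (@En.n l1758 (nat_lit 13184) (nat_lit 8) (nat_lit 5))
    (@En.n l12892 (nat_lit 13182) (nat_lit 10) (nat_lit 13))
    (@En.n l476 (nat_lit 13185) (nat_lit 10) (nat_lit 2))
    (@En.n l12893 (nat_lit 13182) (nat_lit 12) (nat_lit 10))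
    (@En.n l1997 (nat_lit 13764) (nat_lit 13) (nat_lit 14))
    (@En.n l2568 (nat_lit 5000) (nat_lit 14) (nat_lit 11))
    (@En.n l17 (nat_lit 13185) (nat_lit 14) (nat_lit 2))
    (@En.n l18 (nat_lit 13185) (nat_lit 15) (nat_lit 2))))
  (@Cl.mk (nat_lit 0x20002000b000a000a000d000a0005000300060006000e00060002000e000e) (nat_lit 0x34507000030078) (nat_lit 16) Lb.e (@T16.mk En
    (@En.n l5 (nat_lit 13186) (nat_lit 1) (nat_lit 14))
    (@En.n l9941 (nat_lit 2271) (nat_lit 1) (nat_lit 14))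
    (@En.n l7 (nat_lit 13186) (nat_lit 2) (nat_lit 2))
    (@En.n l4978 (nat_lit 12915) (nat_lit 3) (nat_lit 6))
    (@En.n l134 (nat_lit 13356) (nat_lit 5) (nat_lit 14))
    (@En.n l26706 (nat_lit 13187) (nat_lit 5) (nat_lit 6))
    (@En.n l1576 (nat_lit 13103) (nat_lit 6) (nat_lit 6))
    (@En.n l1098 (nat_lit 13182) (nat_lit 7) (nat_lit 3))
    (@En.n l5939 (nat_lit 13245) (nat_lit 8) (nat_lit 5))
    (@En.i (nat_lit 13192) (nat_lit 10) (nat_lit 10))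
    (@En.n l7622 (nat_lit 13193) (nat_lit 11) (nat_lit 13))
    (@En.n l619 (nat_lit 13193) (nat_lit 12) (nat_lit 10))
    (@En.n l26707 (nat_lit 13180) (nat_lit 13) (nat_lit 10))
    (@En.i (nat_lit 2087) (nat_lit 14) (nat_lit 11))
    (@En.n l17 (nat_lit 13186) (nat_lit 14) (nat_lit 2))
    (@En.n l18 (nat_lit 13186) (nat_lit 15) (nat_lit 2))))
  (@Cl.mk (nat_lit 0x20002000a000e000a0002000d000b000600030006000e00050002000e000e) (nat_lit 0x22501600020067) (nat_lit 16) Lb.e (@T16.mk En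
    (@En.n l97 (nat_lit 13187) (nat_lit 1) (nat_lit 14))
    (@En.n l3337 (nat_lit 2270) (nat_lit 1) (nat_lit 14))
    (@En.n l17 (nat_lit 13187) (nat_lit 2) (nat_lit 2))
    (@En.n l12894 (nat_lit 12916) (nat_lit 3) (nat_lit 5))
    (@En.n l778 (nat_lit 13352) (nat_lit 5) (nat_lit 14))
    (@En.i (nat_lit 13427) (nat_lit 5) (nat_lit 6))
    (@En.n l12895 (nat_lit 13185) (nat_lit 6) (nat_lit 3))
    (@En.n l12896 (nat_lit 13246) (nat_lit 7) (nat_lit 6))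
    (@En.n l1388 (nat_lit 13188) (nat_lit 9) (nat_lit 11))
    (@En.n l12897 (nat_lit 13186) (nat_lit 10) (nat_lit 13))
    (@En.n l28 (nat_lit 13187) (nat_lit 10) (nat_lit 2))
    (@En.n l4942 (nat_lit 13186) (nat_lit 12) (nat_lit 10))
    (@En.i (nat_lit 13759) (nat_lit 13) (nat_lit 14))
    (@En.n l3345 (nat_lit 2089) (nat_lit 14) (nat_lit 10))
    (@En.n l107 (nat_lit 13187) (nat_lit 14) (nat_lit 2))
    (@En.n l3 (nat_lit 13187) (nat_lit 15) (nat_lit 2))))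
  (@Cl.mk (nat_lit 0x20002000b000e000b0002000b0005000c0005000d000500040003000e000e) (nat_lit 0x23405070b000bc) (nat_lit 16) Lb.e (@T16.mk En
    (@En.n l5 (nat_lit 13188) (nat_lit 1) (nat_lit 14))
    (@En.n l3082 (nat_lit 6413) (nat_lit 1) (nat_lit 14))
    (@En.i (nat_lit 13873) (nat_lit 2) (nat_lit 3))
    (@En.n l2098 (nat_lit 13185) (nat_lit 3) (nat_lit 4))
    (@En.n l4548 (nat_lit 13646) (nat_lit 4) (nat_lit 5))
    (@En.n l255 (nat_lit 13258) (nat_lit 6) (nat_lit 13))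
    (@En.i (nat_lit 13306) (nat_lit 6) (nat_lit 5))
    (@En.i (nat_lit 13653) (nat_lit 8) (nat_lit 12))
    (@En.n l3015 (nat_lit 13194) (nat_lit 8) (nat_lit 5))
    (@En.n l197 (nat_lit 13197) (nat_lit 10) (nat_lit 11))
    (@En.n l67 (nat_lit 13188) (nat_lit 10) (nat_lit 2))
    (@En.n l68 (nat_lit 13192) (nat_lit 12) (nat_lit 11))
    (@En.n l11990 (nat_lit 14051) (nat_lit 13) (nat_lit 14))
    (@En.i (nat_lit 5007) (nat_lit 2) (nat_lit 11))
    (@En.n l17 (nat_lit 13188) (nat_lit 14) (nat_lit 2))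
    (@En.n l18 (nat_lit 13188) (nat_lit 15) (nat_lit 2))))
  (@Cl.mk (nat_lit 0x20002000b000e00090002000c0005000c000c0004000700040004000e000e) (nat_lit 0x84307088000056) (nat_lit 16) Lb.e (@T16.mk En
    (@En.n l5 (nat_lit 13189) (nat_lit 1) (nat_lit 14))
    (@En.n l3495 (nat_lit 2337) (nat_lit 1) (nat_lit 14))
    (@En.i (nat_lit 13099) (nat_lit 2) (nat_lit 4))
    (@En.n l1638 (nat_lit 13188) (nat_lit 3) (nat_lit 4))
    (@En.i (nat_lit 13079) (nat_lit 4) (nat_lit 7))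
    (@En.i (nat_lit 13617) (nat_lit 5) (nat_lit 4))
    (@En.n l1504 (nat_lit 13185) (nat_lit 7) (nat_lit 12))
    (@En.n l1638 (nat_lit 13612) (nat_lit 8) (nat_lit 12))
    (@En.n l4979 (nat_lit 13097) (nat_lit 8) (nat_lit 5))
    (@En.n l1758 (nat_lit 13190) (nat_lit 10) (nat_lit 12))
    (@En.n l3 (nat_lit 13189) (nat_lit 10) (nat_lit 2))
    (@En.n l4871 (nat_lit 13190) (nat_lit 12) (nat_lit 9))
    (@En.i (nat_lit 14052) (nat_lit 13) (nat_lit 14))
    (@En.n l387 (nat_lit 4995) (nat_lit 2) (nat_lit 11))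
    (@En.n l17 (nat_lit 13189) (nat_lit 14) (nat_lit 2))
    (@En.n l18 (nat_lit 13189) (nat_lit 15) (nat_lit 2))))
  (@Cl.mk (nat_lit 0x20002000c00090009000c0004000b000b00040007000700050005000e000e) (nat_lit 0x92360670000067) (nat_lit 16) Lb.e (@T16.mk En
    (@En.n l5 (nat_lit 13190) (nat_lit 1) (nat_lit 14))
    (@En.n l12998 (nat_lit 2339) (nat_lit 1) (nat_lit 14))
    (@En.n l12728 (nat_lit 13098) (nat_lit 2) (nat_lit 5))
    (@En.n l619 (nat_lit 13197) (nat_lit 3) (nat_lit 5))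
    (@En.n l1904 (nat_lit 13189) (nat_lit 4) (nat_lit 7))
    (@En.n l7724 (nat_lit 13097) (nat_lit 5) (nat_lit 7))
    (@En.n l12999 (nat_lit 13615) (nat_lit 6) (nat_lit 4))
    (@En.n l13000 (nat_lit 13182) (nat_lit 8) (nat_lit 11))
    (@En.n l6590 (nat_lit 13606) (nat_lit 9) (nat_lit 11))
    (@En.n l13001 (nat_lit 13095) (nat_lit 9) (nat_lit 4))
    (@En.n l2038 (nat_lit 13195) (nat_lit 11) (nat_lit 12))
    (@En.n l13002 (nat_lit 13195) (nat_lit 12) (nat_lit 9))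
    (@En.n l13003 (nat_lit 13221) (nat_lit 13) (nat_lit 9))
    (@En.n l7387 (nat_lit 4993) (nat_lit 14) (nat_lit 12))
    (@En.n l17 (nat_lit 13190) (nat_lit 14) (nat_lit 2))
    (@En.n l18 (nat_lit 13190) (nat_lit 15) (nat_lit 2))))
  (@Cl.mk (nat_lit 0x20002000d000a000d0003000a0003000e00060002000e00060002000e000e) (nat_lit 0xb4406090060078) (nat_lit 16) Lb.e (@T16.mk En
    (@En.n l5 (nat_lit 13191) (nat_lit 1) (nat_lit 14))
    (@En.n l7620 (nat_lit 2274) (nat_lit 1) (nat_lit 14))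
    (@En.n l7 (nat_lit 13191) (nat_lit 2) (nat_lit 2))
    (@En.n l7621 (nat_lit 13195) (nat_lit 3) (nat_lit 6))
    (@En.n l134 (nat_lit 13358) (nat_lit 5) (nat_lit 14))
    (@En.n l476 (nat_lit 13191) (nat_lit 5) (nat_lit 2))
    (@En.n l207 (nat_lit 13182) (nat_lit 6) (nat_lit 6))
    (@En.i (nat_lit 13212) (nat_lit 8) (nat_lit 14))
    (@En.n l7622 (nat_lit 13193) (nat_lit 8) (nat_lit 3))
    (@En.n l5321 (nat_lit 13663) (nat_lit 10) (nat_lit 10))
    (@En.n l7623 (nat_lit 13183) (nat_lit 10) (nat_lit 3))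
    (@En.n l7624 (nat_lit 14056) (nat_lit 5) (nat_lit 13))
    (@En.n l5321 (nat_lit 13177) (nat_lit 13) (nat_lit 10))
    (@En.n l7625 (nat_lit 5008) (nat_lit 14) (nat_lit 13))
    (@En.n l17 (nat_lit 13191) (nat_lit 14) (nat_lit 2))
    (@En.n l18 (nat_lit 13191) (nat_lit 15) (nat_lit 2))))
  (@Cl.mk (nat_lit 0x20002000c000b000b000a0004000b00050005000d000600050003000e000e) (nat_lit 0x33360700a00034) (nat_lit 16) Lb.e (@T16.mk En
    (@En.n l5 (nat_lit 13192) (nat_lit 1) (nat_lit 14))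
    (@En.i (nat_lit 6335) (nat_lit 1) (nat_lit 14))
    (@En.n l2823 (nat_lit 13487) (nat_lit 2) (nat_lit 3))
    (@En.i (nat_lit 13182) (nat_lit 3) (nat_lit 5))
    (@En.i (nat_lit 12943) (nat_lit 4) (nat_lit 6))
    (@En.n l12394 (nat_lit 13977) (nat_lit 6) (nat_lit 13))
    (@En.n l11 (nat_lit 13188) (nat_lit 6) (nat_lit 5))
    (@En.i (nat_lit 13310) (nat_lit 7) (nat_lit 5))
    (@En.i (nat_lit 13655) (nat_lit 9) (nat_lit 11))
    (@En.n l936 (nat_lit 13870) (nat_lit 9) (nat_lit 4))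
    (@En.n l55 (nat_lit 13995) (nat_lit 11) (nat_lit 10))
    (@En.n l619 (nat_lit 13485) (nat_lit 12) (nat_lit 11))
    (@En.i (nat_lit 13986) (nat_lit 13) (nat_lit 11))
    (@En.i (nat_lit 6690) (nat_lit 14) (nat_lit 12))
    (@En.n l17 (nat_lit 13192) (nat_lit 14) (nat_lit 2))
    (@En.n l18 (nat_lit 13192) (nat_lit 15) (nat_lit 2))))
  (@Cl.mk (nat_lit 0x20002000c000a000d000900040003000e00060002000e00070002000e000e) (nat_lit 0x34b50080040089) (nat_lit 16) Lb.e (@T16.mk En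
    (@En.n l5 (nat_lit 13193) (nat_lit 1) (nat_lit 14))
    (@En.n l3290 (nat_lit 2276) (nat_lit 1) (nat_lit 14))
    (@En.n l7 (nat_lit 13193) (nat_lit 2) (nat_lit 2))
    (@En.n l12886 (nat_lit 13196) (nat_lit 3) (nat_lit 7))
    (@En.n l3886 (nat_lit 13359) (nat_lit 5) (nat_lit 14))
    (@En.n l11 (nat_lit 13193) (nat_lit 5) (nat_lit 2))
    (@En.n l117 (nat_lit 13186) (nat_lit 6) (nat_lit 6))
    (@En.n l12887 (nat_lit 13198) (nat_lit 8) (nat_lit 14))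
    (@En.n l12888 (nat_lit 13191) (nat_lit 8) (nat_lit 3))
    (@En.n l839 (nat_lit 13244) (nat_lit 9) (nat_lit 4))
    (@En.i (nat_lit 13485) (nat_lit 11) (nat_lit 9))
    (@En.n l12886 (nat_lit 13953) (nat_lit 12) (nat_lit 13))
    (@En.n l12889 (nat_lit 13301) (nat_lit 13) (nat_lit 10))
    (@En.n l2238 (nat_lit 2090) (nat_lit 14) (nat_lit 12))
    (@En.n l17 (nat_lit 13193) (nat_lit 14) (nat_lit 2))
    (@En.n l18 (nat_lit 13193) (nat_lit 15) (nat_lit 2))))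
  (@Cl.mk (nat_lit 0x20002000b0008000e000c00020005000c0004000d000800040003000e000e) (nat_lit 0x22450050b20067) (nat_lit 16) Lb.e (@T16.mk En
    (@En.n l5 (nat_lit 13194) (nat_lit 1) (nat_lit 14))
    (@En.n l4487 (nat_lit 6414) (nat_lit 8) (nat_lit 14))
    (@En.n l4488 (nat_lit 13871) (nat_lit 2) (nat_lit 3))
    (@En.n l4489 (nat_lit 13184) (nat_lit 3) (nat_lit 4))
    (@En.n l4490 (nat_lit 13842) (nat_lit 4) (nat_lit 8))
    (@En.n l4491 (nat_lit 13259) (nat_lit 6) (nat_lit 13))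
    (@En.n l11 (nat_lit 13304) (nat_lit 6) (nat_lit 4))
    (@En.n l4489 (nat_lit 13657) (nat_lit 8) (nat_lit 12))
    (@En.n l2263 (nat_lit 13644) (nat_lit 8) (nat_lit 5))
    (@En.n l1157 (nat_lit 13194) (nat_lit 9) (nat_lit 2))
    (@En.n l1144 (nat_lit 13870) (nat_lit 11) (nat_lit 12))
    (@En.n l11 (nat_lit 13188) (nat_lit 12) (nat_lit 14))
    (@En.n l4490 (nat_lit 13654) (nat_lit 13) (nat_lit 8))
    (@En.i (nat_lit 5004) (nat_lit 3) (nat_lit 11))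
    (@En.n l17 (nat_lit 13194) (nat_lit 14) (nat_lit 2))
    (@En.n l18 (nat_lit 13194) (nat_lit 15) (nat_lit 2))))
  (@Cl.mk (nat_lit 0x20002000d0009000c0003000a000a0004000e0007000200060006000e000e) (nat_lit 0x9250570a000067) (nat_lit 16) Lb.e (@T16.mk En
    (@En.n l5 (nat_lit 13195) (nat_lit 1) (nat_lit 14))
    (@En.n l1668 (nat_lit 2343) (nat_lit 13) (nat_lit 14))
    (@En.n l12256 (nat_lit 13226) (nat_lit 2) (nat_lit 6))
    (@En.i (nat_lit 14011) (nat_lit 3) (nat_lit 6))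
    (@En.n l476 (nat_lit 13195) (nat_lit 4) (nat_lit 2))
    (@En.n l1599 (nat_lit 13190) (nat_lit 5) (nat_lit 7))
    (@En.n l12257 (nat_lit 13214) (nat_lit 7) (nat_lit 14))
    (@En.n l1668 (nat_lit 13616) (nat_lit 7) (nat_lit 4))
    (@En.n l12258 (nat_lit 13191) (nat_lit 9) (nat_lit 10))
    (@En.n l5234 (nat_lit 13605) (nat_lit 10) (nat_lit 10))
    (@En.n l12259 (nat_lit 13228) (nat_lit 10) (nat_lit 3))
    (@En.n l1668 (nat_lit 13952) (nat_lit 6) (nat_lit 12))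
    (@En.n l12260 (nat_lit 13224) (nat_lit 13) (nat_lit 9))
    (@En.n l12261 (nat_lit 4994) (nat_lit 9) (nat_lit 13))
    (@En.n l17 (nat_lit 13195) (nat_lit 14) (nat_lit 2))
    (@En.n l18 (nat_lit 13195) (nat_lit 15) (nat_lit 2))))
  (@Cl.mk (nat_lit 0x20002000b0009000c0009000900050004000e0007000200070007000e000e) (nat_lit 0x22a4600a000078) (nat_lit 16) Lb.e (@T16.mk En
    (@En.n l97 (nat_lit 13196) (nat_lit 1) (nat_lit 14))
    (@En.i (nat_lit 2365) (nat_lit 13) (nat_lit 14))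
    (@En.n l3177 (nat_lit 12917) (nat_lit 2) (nat_lit 7))
    (@En.n l12633 (nat_lit 14013) (nat_lit 3) (nat_lit 7))
    (@En.n l17 (nat_lit 13196) (nat_lit 4) (nat_lit 2))
    (@En.n l12634 (nat_lit 12915) (nat_lit 5) (nat_lit 7))
    (@En.n l1708 (nat_lit 12970) (nat_lit 7) (nat_lit 14))
    (@En.n l12635 (nat_lit 13195) (nat_lit 7) (nat_lit 4))
    (@En.i (nat_lit 13604) (nat_lit 8) (nat_lit 5))
    (@En.n l12636 (nat_lit 13193) (nat_lit 10) (nat_lit 9))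
    (@En.n l414 (nat_lit 13618) (nat_lit 11) (nat_lit 9))
    (@En.i (nat_lit 13950) (nat_lit 6) (nat_lit 12))
    (@En.n l12637 (nat_lit 13298) (nat_lit 13) (nat_lit 9))
    (@En.n l12637 (nat_lit 3176) (nat_lit 9) (nat_lit 11))
    (@En.n l107 (nat_lit 13196) (nat_lit 14) (nat_lit 2))
    (@En.n l3 (nat_lit 13196) (nat_lit 15) (nat_lit 2))))
  (@Cl.mk (nat_lit 0x20002000c0008000c000b0004000b0004000c0005000800050004000e000e) (nat_lit 0x24540708030078) (nat_lit 16) Lb.e (@T16.mk En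
    (@En.n l5 (nat_lit 13197) (nat_lit 1) (nat_lit 14))
    (@En.n l12468 (nat_lit 6330) (nat_lit 1) (nat_lit 14))
    (@En.n l4459 (nat_lit 13881) (nat_lit 2) (nat_lit 4))
    (@En.i (nat_lit 13192) (nat_lit 3) (nat_lit 5))
    (@En.n l253 (nat_lit 13194) (nat_lit 4) (nat_lit 8))
    (@En.n l12480 (nat_lit 12939) (nat_lit 5) (nat_lit 5))
    (@En.n l2747 (nat_lit 13357) (nat_lit 7) (nat_lit 12))
    (@En.n l11 (nat_lit 14012) (nat_lit 7) (nat_lit 4))
    (@En.n l4486 (nat_lit 13658) (nat_lit 9) (nat_lit 11))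
    (@En.n l936 (nat_lit 13982) (nat_lit 9) (nat_lit 4))
    (@En.n l55 (nat_lit 14011) (nat_lit 11) (nat_lit 11))
    (@En.n l4750 (nat_lit 13995) (nat_lit 12) (nat_lit 12))
    (@En.n l12481 (nat_lit 12868) (nat_lit 13) (nat_lit 8))
    (@En.n l4750 (nat_lit 5389) (nat_lit 14) (nat_lit 12))
    (@En.n l17 (nat_lit 13197) (nat_lit 14) (nat_lit 2))
    (@En.n l18 (nat_lit 13197) (nat_lit 15) (nat_lit 2))))
  (@Cl.mk (nat_lit 0x20002000c000b000a00090004000e000500020006000e00070002000e000e) (nat_lit 0x243607000b0089) (nat_lit 16) Lb.e (@T16.mk En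
    (@En.n l97 (nat_lit 13198) (nat_lit 1) (nat_lit 14))
    (@En.i (nat_lit 2662) (nat_lit 1) (nat_lit 14))
    (@En.n l17 (nat_lit 13198) (nat_lit 2) (nat_lit 2))
    (@En.n l4446 (nat_lit 12970) (nat_lit 3) (nat_lit 7))
    (@En.i (nat_lit 13393) (nat_lit 5) (nat_lit 14))
    (@En.n l13574 (nat_lit 13186) (nat_lit 5) (nat_lit 6))
    (@En.n l50 (nat_lit 13198) (nat_lit 6) (nat_lit 2))
    (@En.n l4447 (nat_lit 12847) (nat_lit 7) (nat_lit 5))
    (@En.n l601 (nat_lit 12971) (nat_lit 9) (nat_lit 14))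
    (@En.i (nat_lit 13200) (nat_lit 9) (nat_lit 4))
    (@En.n l13575 (nat_lit 13073) (nat_lit 11) (nat_lit 9))
    (@En.n l13576 (nat_lit 13208) (nat_lit 12) (nat_lit 10))
    (@En.n l77 (nat_lit 12954) (nat_lit 13) (nat_lit 11))
    (@En.n l13574 (nat_lit 1912) (nat_lit 7) (nat_lit 12))
    (@En.n l107 (nat_lit 13198) (nat_lit 14) (nat_lit 2))
    (@En.n l3 (nat_lit 13198) (nat_lit 15) (nat_lit 2))))
  (@Cl.mk (nat_lit 0x20002000c00090008000d0004000e000300020007000e00080002000e000e) (nat_lit 0x32460600041012) (nat_lit 16) Lb.e (@T16.mk En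
    (@En.n l97 (nat_lit 13199) (nat_lit 1) (nat_lit 14))
    (@En.i (nat_lit 2663) (nat_lit 1) (nat_lit 14))
    (@En.n l17 (nat_lit 13199) (nat_lit 2) (nat_lit 2))
    (@En.i (nat_lit 12953) (nat_lit 3) (nat_lit 8))
    (@En.i (nat_lit 13417) (nat_lit 5) (nat_lit 14))
    (@En.i (nat_lit 13178) (nat_lit 5) (nat_lit 7))
    (@En.n l50 (nat_lit 13199) (nat_lit 6) (nat_lit 2))
    (@En.i (nat_lit 12954) (nat_lit 7) (nat_lit 3))
    (@En.n l5378 (nat_lit 14083) (nat_lit 0) (nat_lit 14))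
    (@En.i (nat_lit 13198) (nat_lit 9) (nat_lit 4))
    (@En.i (nat_lit 13397) (nat_lit 11) (nat_lit 13))
    (@En.n l3340 (nat_lit 13076) (nat_lit 12) (nat_lit 8))
    (@En.i (nat_lit 13202) (nat_lit 13) (nat_lit 9))
    (@En.i (nat_lit 5014) (nat_lit 7) (nat_lit 12))
    (@En.n l107 (nat_lit 13199) (nat_lit 14) (nat_lit 2))
    (@En.n l3 (nat_lit 13199) (nat_lit 15) (nat_lit 2))))
noncomputable def a825 : T16 Cl := @T16.mk Cl
  (@Cl.mk (nat_lit 0x20002000c0007000c000b0004000e000400020005000e00090002000e000e) (nat_lit 0x303506000c6034) (nat_lit 16) Lb.e (@T16.mk En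
    (@En.n l97 (nat_lit 13200) (nat_lit 1) (nat_lit 14))
    (@En.i (nat_lit 3793) (nat_lit 1) (nat_lit 14))
    (@En.n l17 (nat_lit 13200) (nat_lit 2) (nat_lit 2))
    (@En.n l4446 (nat_lit 13282) (nat_lit 3) (nat_lit 9))
    (@En.i (nat_lit 13968) (nat_lit 5) (nat_lit 14))
    (@En.n l1388 (nat_lit 13245) (nat_lit 5) (nat_lit 5))
    (@En.n l50 (nat_lit 13200) (nat_lit 6) (nat_lit 2))
    (@En.n l4447 (nat_lit 13201) (nat_lit 7) (nat_lit 4))
    (@En.n l343 (nat_lit 13202) (nat_lit 9) (nat_lit 14))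
    (@En.n l28 (nat_lit 13199) (nat_lit 9) (nat_lit 4))
    (@En.n l1517 (nat_lit 13206) (nat_lit 11) (nat_lit 11))
    (@En.i (nat_lit 13398) (nat_lit 12) (nat_lit 12))
    (@En.n l2650 (nat_lit 13669) (nat_lit 13) (nat_lit 7))
    (@En.n l1359 (nat_lit 5204) (nat_lit 7) (nat_lit 12))
    (@En.n l107 (nat_lit 13200) (nat_lit 14) (nat_lit 2))
    (@En.n l3 (nat_lit 13200) (nat_lit 15) (nat_lit 2))))
  (@Cl.mk (nat_lit 0x20002000b0007000c000c000c0005000400040004000e00090002000e000e) (nat_lit 0x205470000c5067) (nat_lit 16) Lb.e (@T16.mk En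
    (@En.n l5 (nat_lit 13201) (nat_lit 1) (nat_lit 14))
    (@En.n l11903 (nat_lit 3714) (nat_lit 1) (nat_lit 14))
    (@En.n l7 (nat_lit 13201) (nat_lit 2) (nat_lit 2))
    (@En.i (nat_lit 13155) (nat_lit 3) (nat_lit 9))
    (@En.n l10256 (nat_lit 13939) (nat_lit 5) (nat_lit 14))
    (@En.n l11 (nat_lit 13204) (nat_lit 5) (nat_lit 4))
    (@En.n l152 (nat_lit 13291) (nat_lit 6) (nat_lit 4))
    (@En.n l11903 (nat_lit 13205) (nat_lit 7) (nat_lit 4))
    (@En.n l10256 (nat_lit 12954) (nat_lit 8) (nat_lit 5))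
    (@En.n l5425 (nat_lit 13210) (nat_lit 10) (nat_lit 12))
    (@En.n l11904 (nat_lit 13200) (nat_lit 11) (nat_lit 12))
    (@En.n l10256 (nat_lit 13319) (nat_lit 12) (nat_lit 12))
    (@En.i (nat_lit 13433) (nat_lit 13) (nat_lit 7))
    (@En.i (nat_lit 1644) (nat_lit 14) (nat_lit 11))
    (@En.n l17 (nat_lit 13201) (nat_lit 14) (nat_lit 2))
    (@En.n l18 (nat_lit 13201) (nat_lit 15) (nat_lit 2))))
  (@Cl.mk (nat_lit 0x2000200090007000d000b000e0003000200070005000e00090002000e000e) (nat_lit 0x10455000053034) (nat_lit 16) Lb.e (@T16.mk En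
    (@En.n l97 (nat_lit 13202) (nat_lit 1) (nat_lit 14))
    (@En.i (nat_lit 3067) (nat_lit 1) (nat_lit 14))
    (@En.n l17 (nat_lit 13202) (nat_lit 2) (nat_lit 2))
    (@En.n l9411 (nat_lit 13283) (nat_lit 3) (nat_lit 9))
    (@En.n l780 (nat_lit 12781) (nat_lit 5) (nat_lit 14))
    (@En.n l55 (nat_lit 13200) (nat_lit 5) (nat_lit 5))
    (@En.n l11740 (nat_lit 13300) (nat_lit 6) (nat_lit 7))
    (@En.n l50 (nat_lit 13202) (nat_lit 7) (nat_lit 2))
    (@En.n l11905 (nat_lit 13203) (nat_lit 8) (nat_lit 3))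
    (@En.n l11906 (nat_lit 14081) (nat_lit 10) (nat_lit 14))
    (@En.n l1408 (nat_lit 13204) (nat_lit 11) (nat_lit 11))
    (@En.i (nat_lit 13400) (nat_lit 12) (nat_lit 13))
    (@En.n l1408 (nat_lit 13431) (nat_lit 13) (nat_lit 7))
    (@En.n l2611 (nat_lit 5843) (nat_lit 5) (nat_lit 9))
    (@En.n l107 (nat_lit 13202) (nat_lit 14) (nat_lit 2))
    (@En.n l3 (nat_lit 13202) (nat_lit 15) (nat_lit 2))))
  (@Cl.mk (nat_lit 0x2000200090007000d000d000c0003000300070004000e00090002000e000e) (nat_lit 0x105570000b3034) (nat_lit 16) Lb.e (@T16.mk En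
    (@En.n l5 (nat_lit 13203) (nat_lit 1) (nat_lit 14))
    (@En.n l420 (nat_lit 3798) (nat_lit 1) (nat_lit 14))
    (@En.n l7 (nat_lit 13203) (nat_lit 2) (nat_lit 2))
    (@En.i (nat_lit 13284) (nat_lit 3) (nat_lit 9))
    (@En.n l1684 (nat_lit 12782) (nat_lit 5) (nat_lit 14))
    (@En.i (nat_lit 13201) (nat_lit 5) (nat_lit 4))
    (@En.n l181 (nat_lit 13299) (nat_lit 6) (nat_lit 7))
    (@En.n l152 (nat_lit 13290) (nat_lit 7) (nat_lit 3))
    (@En.n l25158 (nat_lit 13202) (nat_lit 8) (nat_lit 3))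
    (@En.n l619 (nat_lit 13291) (nat_lit 10) (nat_lit 12))
    (@En.n l25160 (nat_lit 13202) (nat_lit 11) (nat_lit 13))
    (@En.n l181 (nat_lit 13402) (nat_lit 12) (nat_lit 13))
    (@En.i (nat_lit 13429) (nat_lit 13) (nat_lit 7))
    (@En.i (nat_lit 5841) (nat_lit 14) (nat_lit 9))
    (@En.n l17 (nat_lit 13203) (nat_lit 14) (nat_lit 2))
    (@En.n l18 (nat_lit 13203) (nat_lit 15) (nat_lit 2))))
  (@Cl.mk (nat_lit 0x20002000a0007000b000e000c0002000600050004000e00090002000e000e) (nat_lit 0x104550000b4034) (nat_lit 16) Lb.e (@T16.mk En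
    (@En.n l5 (nat_lit 13204) (nat_lit 1) (nat_lit 14))
    (@En.n l420 (nat_lit 3586) (nat_lit 1) (nat_lit 14))
    (@En.n l7 (nat_lit 13204) (nat_lit 2) (nat_lit 2))
    (@En.i (nat_lit 13285) (nat_lit 3) (nat_lit 9))
    (@En.n l645 (nat_lit 12917) (nat_lit 5) (nat_lit 14))
    (@En.i (nat_lit 13203) (nat_lit 5) (nat_lit 4))
    (@En.n l4624 (nat_lit 13206) (nat_lit 6) (nat_lit 5))
    (@En.n l11693 (nat_lit 13301) (nat_lit 7) (nat_lit 6))
    (@En.n l67 (nat_lit 13204) (nat_lit 8) (nat_lit 2))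
    (@En.n l68 (nat_lit 13201) (nat_lit 10) (nat_lit 12))
    (@En.n l4003 (nat_lit 13246) (nat_lit 11) (nat_lit 14))
    (@En.n l11694 (nat_lit 13368) (nat_lit 12) (nat_lit 11))
    (@En.i (nat_lit 13671) (nat_lit 13) (nat_lit 7))
    (@En.n l11694 (nat_lit 4763) (nat_lit 4) (nat_lit 10))
    (@En.n l17 (nat_lit 13204) (nat_lit 14) (nat_lit 2))
    (@En.n l18 (nat_lit 13204) (nat_lit 15) (nat_lit 2))))
  (@Cl.mk (nat_lit 0x20002000d0007000c0003000d000d000400030003000e00090002000e000e) (nat_lit 0x205068000c7089) (nat_lit 16) Lb.e (@T16.mk En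
    (@En.n l68 (nat_lit 13205) (nat_lit 1) (nat_lit 14))
    (@En.i (nat_lit 3717) (nat_lit 1) (nat_lit 14))
    (@En.n l936 (nat_lit 13205) (nat_lit 2) (nat_lit 2))
    (@En.i (nat_lit 13151) (nat_lit 3) (nat_lit 9))
    (@En.n l2316 (nat_lit 13937) (nat_lit 5) (nat_lit 14))
    (@En.n l11682 (nat_lit 13206) (nat_lit 5) (nat_lit 3))
    (@En.n l11683 (nat_lit 13209) (nat_lit 6) (nat_lit 3))
    (@En.n l2316 (nat_lit 13200) (nat_lit 7) (nat_lit 4))
    (@En.n l11684 (nat_lit 13209) (nat_lit 9) (nat_lit 13))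
    (@En.n l11685 (nat_lit 13203) (nat_lit 10) (nat_lit 13))
    (@En.n l11686 (nat_lit 13207) (nat_lit 10) (nat_lit 3))
    (@En.n l11687 (nat_lit 13366) (nat_lit 12) (nat_lit 12))
    (@En.n l11685 (nat_lit 13688) (nat_lit 13) (nat_lit 7))
    (@En.n l3018 (nat_lit 4824) (nat_lit 14) (nat_lit 13))
    (@En.n l11 (nat_lit 13205) (nat_lit 14) (nat_lit 2))
    (@En.n l67 (nat_lit 13205) (nat_lit 15) (nat_lit 2))))
  (@Cl.mk (nat_lit 0x20002000d0007000b0003000e000d000200050003000e00090002000e000e) (nat_lit 0x204067000c70ab) (nat_lit 16) Lb.e (@T16.mk En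
    (@En.n l1363 (nat_lit 13206) (nat_lit 1) (nat_lit 14))
    (@En.n l777 (nat_lit 3837) (nat_lit 10) (nat_lit 14))
    (@En.n l28 (nat_lit 13206) (nat_lit 2) (nat_lit 2))
    (@En.n l4337 (nat_lit 13153) (nat_lit 3) (nat_lit 9))
    (@En.n l4338 (nat_lit 13226) (nat_lit 5) (nat_lit 14))
    (@En.n l4339 (nat_lit 13205) (nat_lit 5) (nat_lit 3))
    (@En.n l4340 (nat_lit 13244) (nat_lit 6) (nat_lit 5))
    (@En.n l3 (nat_lit 13206) (nat_lit 7) (nat_lit 2))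
    (@En.n l4341 (nat_lit 13205) (nat_lit 9) (nat_lit 13))
    (@En.n l1459 (nat_lit 13204) (nat_lit 10) (nat_lit 14))
    (@En.n l4342 (nat_lit 13208) (nat_lit 10) (nat_lit 3))
    (@En.n l777 (nat_lit 13369) (nat_lit 12) (nat_lit 11))
    (@En.n l4343 (nat_lit 13673) (nat_lit 13) (nat_lit 7))
    (@En.n l847 (nat_lit 4855) (nat_lit 6) (nat_lit 13))
    (@En.n l776 (nat_lit 13206) (nat_lit 14) (nat_lit 2))
    (@En.n l50 (nat_lit 13206) (nat_lit 15) (nat_lit 2))))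
  (@Cl.mk (nat_lit 0x20002000d000b00080003000d000d000500030003000e00080002000e000e) (nat_lit 0x234067000b1089) (nat_lit 16) Lb.e (@T16.mk En
    (@En.n l5 (nat_lit 13207) (nat_lit 1) (nat_lit 14))
    (@En.n l12881 (nat_lit 3836) (nat_lit 1) (nat_lit 14))
    (@En.n l7 (nat_lit 13207) (nat_lit 2) (nat_lit 2))
    (@En.i (nat_lit 13148) (nat_lit 3) (nat_lit 8))
    (@En.n l12882 (nat_lit 13938) (nat_lit 5) (nat_lit 14))
    (@En.n l10596 (nat_lit 13208) (nat_lit 5) (nat_lit 3))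
    (@En.n l152 (nat_lit 13211) (nat_lit 6) (nat_lit 3))
    (@En.n l12883 (nat_lit 13198) (nat_lit 7) (nat_lit 5))
    (@En.n l619 (nat_lit 13211) (nat_lit 9) (nat_lit 13))
    (@En.i (nat_lit 13300) (nat_lit 10) (nat_lit 13))
    (@En.n l12884 (nat_lit 13205) (nat_lit 10) (nat_lit 3))
    (@En.n l12885 (nat_lit 12857) (nat_lit 12) (nat_lit 8))
    (@En.n l11968 (nat_lit 13201) (nat_lit 13) (nat_lit 11))
    (@En.i (nat_lit 2104) (nat_lit 14) (nat_lit 13))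
    (@En.n l17 (nat_lit 13207) (nat_lit 14) (nat_lit 2))
    (@En.n l18 (nat_lit 13207) (nat_lit 15) (nat_lit 2))))
  (@Cl.mk (nat_lit 0x20002000d000a00080003000e000d000200060003000e00080002000e000e) (nat_lit 0x224057000c1034) (nat_lit 16) Lb.e (@T16.mk En
    (@En.n l5 (nat_lit 13208) (nat_lit 1) (nat_lit 14))
    (@En.n l4484 (nat_lit 3838) (nat_lit 1) (nat_lit 14))
    (@En.n l7 (nat_lit 13208) (nat_lit 2) (nat_lit 2))
    (@En.n l4484 (nat_lit 13149) (nat_lit 3) (nat_lit 8))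
    (@En.n l127 (nat_lit 13227) (nat_lit 5) (nat_lit 14))
    (@En.n l4932 (nat_lit 13207) (nat_lit 5) (nat_lit 3))
    (@En.i (nat_lit 13193) (nat_lit 6) (nat_lit 6))
    (@En.n l207 (nat_lit 13208) (nat_lit 7) (nat_lit 2))
    (@En.n l4933 (nat_lit 13207) (nat_lit 9) (nat_lit 13))
    (@En.n l281 (nat_lit 13250) (nat_lit 10) (nat_lit 14))
    (@En.n l4934 (nat_lit 13206) (nat_lit 10) (nat_lit 3))
    (@En.n l4484 (nat_lit 12861) (nat_lit 12) (nat_lit 8))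
    (@En.n l4935 (nat_lit 13204) (nat_lit 13) (nat_lit 10))
    (@En.i (nat_lit 4868) (nat_lit 6) (nat_lit 13))
    (@En.n l17 (nat_lit 13208) (nat_lit 14) (nat_lit 2))
    (@En.n l18 (nat_lit 13208) (nat_lit 15) (nat_lit 2))))
  (@Cl.mk (nat_lit 0x20002000d0007000d0003000d0003000e00030002000e00090002000e000e) (nat_lit 0x20a070300c70ab) (nat_lit 16) Lb.e (@T16.mk En
    (@En.n l1482 (nat_lit 13209) (nat_lit 1) (nat_lit 14))
    (@En.i (nat_lit 3715) (nat_lit 1) (nat_lit 14))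
    (@En.n l936 (nat_lit 13209) (nat_lit 2) (nat_lit 2))
    (@En.n l1483 (nat_lit 13152) (nat_lit 3) (nat_lit 9))
    (@En.n l12341 (nat_lit 13934) (nat_lit 5) (nat_lit 14))
    (@En.n l17 (nat_lit 13209) (nat_lit 5) (nat_lit 2))
    (@En.n l1483 (nat_lit 13205) (nat_lit 6) (nat_lit 3))
    (@En.n l1483 (nat_lit 13822) (nat_lit 0) (nat_lit 14))
    (@En.i (nat_lit 13210) (nat_lit 8) (nat_lit 3))
    (@En.n l1488 (nat_lit 13290) (nat_lit 10) (nat_lit 13))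
    (@En.n l12342 (nat_lit 13211) (nat_lit 10) (nat_lit 3))
    (@En.i (nat_lit 13021) (nat_lit 12) (nat_lit 13))
    (@En.n l1488 (nat_lit 13687) (nat_lit 13) (nat_lit 7))
    (@En.n l1489 (nat_lit 4854) (nat_lit 14) (nat_lit 13))
    (@En.n l11 (nat_lit 13209) (nat_lit 14) (nat_lit 2))
    (@En.n l1157 (nat_lit 13209) (nat_lit 15) (nat_lit 2))))
  (@Cl.mk (nat_lit 0x20002000c0007000d000c00040003000e00040002000e00090002000e000e) (nat_lit 0x20b600100b6078) (nat_lit 16) Lb.e (@T16.mk En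
    (@En.n l1482 (nat_lit 13210) (nat_lit 1) (nat_lit 14))
    (@En.i (nat_lit 3711) (nat_lit 1) (nat_lit 14))
    (@En.n l936 (nat_lit 13210) (nat_lit 2) (nat_lit 2))
    (@En.n l1483 (nat_lit 13154) (nat_lit 3) (nat_lit 9))
    (@En.n l12341 (nat_lit 13932) (nat_lit 5) (nat_lit 14))
    (@En.n l17 (nat_lit 13210) (nat_lit 5) (nat_lit 2))
    (@En.n l12424 (nat_lit 13201) (nat_lit 6) (nat_lit 4))
    (@En.n l5 (nat_lit 719) (nat_lit 8) (nat_lit 14))
    (@En.n l50 (nat_lit 13209) (nat_lit 8) (nat_lit 3))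
    (@En.n l12425 (nat_lit 13478) (nat_lit 9) (nat_lit 4))
    (@En.n l12426 (nat_lit 13205) (nat_lit 11) (nat_lit 12))
    (@En.n l1487 (nat_lit 13022) (nat_lit 12) (nat_lit 13))
    (@En.n l12425 (nat_lit 13689) (nat_lit 13) (nat_lit 7))
    (@En.n l1489 (nat_lit 1637) (nat_lit 14) (nat_lit 12))
    (@En.n l11 (nat_lit 13210) (nat_lit 14) (nat_lit 2))
    (@En.n l1157 (nat_lit 13210) (nat_lit 15) (nat_lit 2))))
  (@Cl.mk (nat_lit 0x20002000d000c00080003000d0004000e00030002000e00080002000e000e) (nat_lit 0x235060700a1089) (nat_lit 16) Lb.e (@T16.mk En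
    (@En.n l5 (nat_lit 13211) (nat_lit 1) (nat_lit 14))
    (@En.n l4579 (nat_lit 3716) (nat_lit 1) (nat_lit 14))
    (@En.n l7 (nat_lit 13211) (nat_lit 2) (nat_lit 2))
    (@En.n l1599 (nat_lit 13150) (nat_lit 3) (nat_lit 8))
    (@En.n l10295 (nat_lit 13936) (nat_lit 5) (nat_lit 14))
    (@En.n l11 (nat_lit 13211) (nat_lit 5) (nat_lit 2))
    (@En.n l117 (nat_lit 13207) (nat_lit 6) (nat_lit 3))
    (@En.i (nat_lit 13823) (nat_lit 0) (nat_lit 14))
    (@En.n l2576 (nat_lit 12845) (nat_lit 8) (nat_lit 4))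
    (@En.i (nat_lit 13299) (nat_lit 10) (nat_lit 13))
    (@En.n l4697 (nat_lit 13209) (nat_lit 10) (nat_lit 3))
    (@En.i (nat_lit 12858) (nat_lit 12) (nat_lit 8))
    (@En.n l428 (nat_lit 13210) (nat_lit 13) (nat_lit 12))
    (@En.i (nat_lit 2103) (nat_lit 14) (nat_lit 13))
    (@En.n l17 (nat_lit 13211) (nat_lit 14) (nat_lit 2))
    (@En.n l18 (nat_lit 13211) (nat_lit 15) (nat_lit 2))))
  (@Cl.mk (nat_lit 0x20002000d000b000a0003000a000e000500020006000e00060002000e000e) (nat_lit 0x745078000b0078) (nat_lit 16) Lb.e (@T16.mk En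
    (@En.n l5 (nat_lit 13212) (nat_lit 1) (nat_lit 14))
    (@En.n l5372 (nat_lit 2287) (nat_lit 1) (nat_lit 14))
    (@En.n l7 (nat_lit 13212) (nat_lit 2) (nat_lit 2))
    (@En.i (nat_lit 13214) (nat_lit 3) (nat_lit 6))
    (@En.n l226 (nat_lit 13571) (nat_lit 5) (nat_lit 14))
    (@En.i (nat_lit 13182) (nat_lit 5) (nat_lit 6))
    (@En.n l476 (nat_lit 13212) (nat_lit 6) (nat_lit 2))
    (@En.n l187 (nat_lit 13175) (nat_lit 7) (nat_lit 5))
    (@En.i (nat_lit 13074) (nat_lit 9) (nat_lit 14))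
    (@En.n l3531 (nat_lit 13668) (nat_lit 10) (nat_lit 10))
    (@En.n l4660 (nat_lit 13179) (nat_lit 10) (nat_lit 3))
    (@En.n l619 (nat_lit 13240) (nat_lit 12) (nat_lit 10))
    (@En.n l1791 (nat_lit 13178) (nat_lit 13) (nat_lit 11))
    (@En.i (nat_lit 4979) (nat_lit 7) (nat_lit 13))
    (@En.n l17 (nat_lit 13212) (nat_lit 14) (nat_lit 2))
    (@En.n l18 (nat_lit 13212) (nat_lit 15) (nat_lit 2))))
  (@Cl.mk (nat_lit 0x20002000d0008000b0003000a000a000e00050002000800060006000e000e) (nat_lit 0x72405280050067) (nat_lit 16) Lb.e (@T16.mk En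
    (@En.n l5 (nat_lit 13213) (nat_lit 1) (nat_lit 14))
    (@En.n l5366 (nat_lit 2349) (nat_lit 12) (nat_lit 14))
    (@En.n l12486 (nat_lit 13216) (nat_lit 2) (nat_lit 6))
    (@En.n l5366 (nat_lit 13935) (nat_lit 3) (nat_lit 6))
    (@En.n l13757 (nat_lit 13093) (nat_lit 4) (nat_lit 8))
    (@En.n l11 (nat_lit 13213) (nat_lit 5) (nat_lit 2))
    (@En.n l13758 (nat_lit 13093) (nat_lit 6) (nat_lit 5))
    (@En.i (nat_lit 13486) (nat_lit 8) (nat_lit 14))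
    (@En.n l1504 (nat_lit 13179) (nat_lit 9) (nat_lit 10))
    (@En.i (nat_lit 13925) (nat_lit 10) (nat_lit 10))
    (@En.n l5385 (nat_lit 13214) (nat_lit 10) (nat_lit 3))
    (@En.i (nat_lit 13232) (nat_lit 12) (nat_lit 11))
    (@En.i (nat_lit 12965) (nat_lit 13) (nat_lit 8))
    (@En.i (nat_lit 4976) (nat_lit 8) (nat_lit 13))
    (@En.n l17 (nat_lit 13213) (nat_lit 14) (nat_lit 2))
    (@En.n l18 (nat_lit 13213) (nat_lit 15) (nat_lit 2))))
  (@Cl.mk (nat_lit 0x20002000d000a00090003000a000a000e00060002000700060006000e000e) (nat_lit 0x73402890000067) (nat_lit 16) Lb.e (@T16.mk En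
    (@En.n l5 (nat_lit 13214) (nat_lit 1) (nat_lit 14))
    (@En.n l12980 (nat_lit 2348) (nat_lit 12) (nat_lit 14))
    (@En.n l12981 (nat_lit 13215) (nat_lit 2) (nat_lit 6))
    (@En.n l12982 (nat_lit 13933) (nat_lit 3) (nat_lit 6))
    (@En.n l12983 (nat_lit 13190) (nat_lit 4) (nat_lit 7))
    (@En.n l476 (nat_lit 13214) (nat_lit 5) (nat_lit 2))
    (@En.n l187 (nat_lit 13095) (nat_lit 6) (nat_lit 6))
    (@En.n l1685 (nat_lit 13485) (nat_lit 8) (nat_lit 14))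
    (@En.n l77 (nat_lit 13212) (nat_lit 9) (nat_lit 10))
    (@En.n l3531 (nat_lit 13722) (nat_lit 10) (nat_lit 10))
    (@En.n l1798 (nat_lit 13213) (nat_lit 10) (nat_lit 3))
    (@En.n l12980 (nat_lit 13233) (nat_lit 12) (nat_lit 9))
    (@En.n l1798 (nat_lit 13217) (nat_lit 13) (nat_lit 10))
    (@En.i (nat_lit 4974) (nat_lit 8) (nat_lit 13))
    (@En.n l17 (nat_lit 13214) (nat_lit 14) (nat_lit 2))
    (@En.n l18 (nat_lit 13214) (nat_lit 15) (nat_lit 2))))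
  (@Cl.mk (nat_lit 0x20002000d000900080003000e000a0002000e0007000200080006000e000e) (nat_lit 0x8350730a005078) (nat_lit 16) Lb.e (@T16.mk En
    (@En.n l97 (nat_lit 13215) (nat_lit 1) (nat_lit 14))
    (@En.i (nat_lit 2049) (nat_lit 13) (nat_lit 14))
    (@En.i (nat_lit 13937) (nat_lit 2) (nat_lit 6))
    (@En.i (nat_lit 13098) (nat_lit 3) (nat_lit 8))
    (@En.n l17 (nat_lit 13215) (nat_lit 4) (nat_lit 2))
    (@En.i (nat_lit 13094) (nat_lit 5) (nat_lit 7))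
    (@En.i (nat_lit 13481) (nat_lit 7) (nat_lit 14))
    (@En.n l50 (nat_lit 13215) (nat_lit 7) (nat_lit 2))
    (@En.n l5099 (nat_lit 13214) (nat_lit 9) (nat_lit 10))
    (@En.n l601 (nat_lit 12960) (nat_lit 10) (nat_lit 14))
    (@En.n l28 (nat_lit 13216) (nat_lit 10) (nat_lit 3))
    (@En.i (nat_lit 13234) (nat_lit 12) (nat_lit 8))
    (@En.n l2650 (nat_lit 13218) (nat_lit 13) (nat_lit 9))
    (@En.n l590 (nat_lit 4975) (nat_lit 9) (nat_lit 13))
    (@En.n l107 (nat_lit 13215) (nat_lit 14) (nat_lit 2))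
    (@En.n l3 (nat_lit 13215) (nat_lit 15) (nat_lit 2))))
noncomputable def a826 : T16 Cl := @T16.mk Cl
  (@Cl.mk (nat_lit 0x20002000d0007000a0003000e000a0002000e0006000200090006000e000e) (nat_lit 0x7040760a002078) (nat_lit 16) Lb.e (@T16.mk En
    (@En.n l97 (nat_lit 13216) (nat_lit 1) (nat_lit 14))
    (@En.i (nat_lit 2054) (nat_lit 1) (nat_lit 14))
    (@En.n l5076 (nat_lit 13938) (nat_lit 2) (nat_lit 6))
    (@En.n l617 (nat_lit 13090) (nat_lit 3) (nat_lit 9))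
    (@En.n l17 (nat_lit 13216) (nat_lit 4) (nat_lit 2))
    (@En.i (nat_lit 13090) (nat_lit 5) (nat_lit 6))
    (@En.n l5082 (nat_lit 13482) (nat_lit 7) (nat_lit 14))
    (@En.n l50 (nat_lit 13216) (nat_lit 7) (nat_lit 2))
    (@En.n l5082 (nat_lit 13213) (nat_lit 9) (nat_lit 10))
    (@En.n l601 (nat_lit 13551) (nat_lit 10) (nat_lit 14))
    (@En.i (nat_lit 13215) (nat_lit 10) (nat_lit 3))
    (@En.n l5082 (nat_lit 13230) (nat_lit 12) (nat_lit 10))
    (@En.n l159 (nat_lit 12961) (nat_lit 13) (nat_lit 7))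
    (@En.n l5082 (nat_lit 4977) (nat_lit 9) (nat_lit 13))
    (@En.n l107 (nat_lit 13216) (nat_lit 14) (nat_lit 2))
    (@En.n l3 (nat_lit 13216) (nat_lit 15) (nat_lit 2))))
  (@Cl.mk (nat_lit 0x20002000a0008000b00090009000d000600050003000800070007000e000e) (nat_lit 0x23546600050012) (nat_lit 16) Lb.e (@T16.mk En
    (@En.n l5 (nat_lit 13217) (nat_lit 1) (nat_lit 14))
    (@En.n l26324 (nat_lit 2360) (nat_lit 1) (nat_lit 14))
    (@En.n l26325 (nat_lit 13218) (nat_lit 2) (nat_lit 7))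
    (@En.n l22171 (nat_lit 13797) (nat_lit 3) (nat_lit 7))
    (@En.n l26326 (nat_lit 13221) (nat_lit 4) (nat_lit 8))
    (@En.n l26327 (nat_lit 13223) (nat_lit 5) (nat_lit 3))
    (@En.n l152 (nat_lit 13213) (nat_lit 6) (nat_lit 5))
    (@En.n l26328 (nat_lit 12915) (nat_lit 7) (nat_lit 6))
    (@En.i (nat_lit 13305) (nat_lit 9) (nat_lit 13))
    (@En.n l12607 (nat_lit 13178) (nat_lit 10) (nat_lit 9))
    (@En.n l26040 (nat_lit 13637) (nat_lit 11) (nat_lit 9))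
    (@En.i (nat_lit 13239) (nat_lit 12) (nat_lit 11))
    (@En.n l12015 (nat_lit 13296) (nat_lit 13) (nat_lit 8))
    (@En.i (nat_lit 3185) (nat_lit 14) (nat_lit 10))
    (@En.n l17 (nat_lit 13217) (nat_lit 14) (nat_lit 2))
    (@En.n l18 (nat_lit 13217) (nat_lit 15) (nat_lit 2))))
  (@Cl.mk (nat_lit 0x2000200090007000a000e00090002000d00070006000300090007000e000e) (nat_lit 0x20355080006078) (nat_lit 16) Lb.e (@T16.mk En
    (@En.n l97 (nat_lit 13218) (nat_lit 1) (nat_lit 14))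
    (@En.n l13128 (nat_lit 2768) (nat_lit 1) (nat_lit 14))
    (@En.i (nat_lit 13828) (nat_lit 2) (nat_lit 7))
    (@En.n l13129 (nat_lit 13219) (nat_lit 3) (nat_lit 9))
    (@En.n l13130 (nat_lit 13220) (nat_lit 4) (nat_lit 3))
    (@En.n l1722 (nat_lit 13216) (nat_lit 5) (nat_lit 6))
    (@En.n l5053 (nat_lit 12913) (nat_lit 6) (nat_lit 7))
    (@En.n l12880 (nat_lit 13861) (nat_lit 8) (nat_lit 13))
    (@En.n l7 (nat_lit 13218) (nat_lit 8) (nat_lit 2))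
    (@En.n l12880 (nat_lit 13217) (nat_lit 10) (nat_lit 9))
    (@En.n l13128 (nat_lit 12956) (nat_lit 11) (nat_lit 14))
    (@En.i (nat_lit 13238) (nat_lit 12) (nat_lit 10))
    (@En.n l13128 (nat_lit 13264) (nat_lit 13) (nat_lit 7))
    (@En.n l3337 (nat_lit 5065) (nat_lit 14) (nat_lit 9))
    (@En.n l107 (nat_lit 13218) (nat_lit 14) (nat_lit 2))
    (@En.n l3 (nat_lit 13218) (nat_lit 15) (nat_lit 2))))
  (@Cl.mk (nat_lit 0x2000200080007000b000a000e000a000200050008000600090006000e000e) (nat_lit 0x20547700105067) (nat_lit 16) Lb.e (@T16.mk En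
    (@En.n l5 (nat_lit 13219) (nat_lit 1) (nat_lit 14))
    (@En.n l5461 (nat_lit 2770) (nat_lit 10) (nat_lit 14))
    (@En.n l5462 (nat_lit 12872) (nat_lit 2) (nat_lit 6))
    (@En.n l1501 (nat_lit 13748) (nat_lit 3) (nat_lit 9))
    (@En.n l5463 (nat_lit 13090) (nat_lit 4) (nat_lit 6))
    (@En.i (nat_lit 12914) (nat_lit 5) (nat_lit 8))
    (@En.i (nat_lit 13325) (nat_lit 6) (nat_lit 5))
    (@En.n l8 (nat_lit 13219) (nat_lit 7) (nat_lit 2))
    (@En.n l1831 (nat_lit 13221) (nat_lit 9) (nat_lit 10))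
    (@En.n l5464 (nat_lit 13220) (nat_lit 10) (nat_lit 14))
    (@En.n l5465 (nat_lit 13218) (nat_lit 11) (nat_lit 10))
    (@En.n l1609 (nat_lit 13222) (nat_lit 12) (nat_lit 11))
    (@En.n l5461 (nat_lit 13267) (nat_lit 13) (nat_lit 7))
    (@En.n l1501 (nat_lit 5060) (nat_lit 5) (nat_lit 8))
    (@En.n l17 (nat_lit 13219) (nat_lit 14) (nat_lit 2))
    (@En.n l18 (nat_lit 13219) (nat_lit 15) (nat_lit 2))))
  (@Cl.mk (nat_lit 0x2000200080007000b000e00090002000d00050008000300090007000e000e) (nat_lit 0x20465080105089) (nat_lit 16) Lb.e (@T16.mk En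
    (@En.n l601 (nat_lit 13220) (nat_lit 1) (nat_lit 14))
    (@En.i (nat_lit 2769) (nat_lit 1) (nat_lit 14))
    (@En.n l1913 (nat_lit 13794) (nat_lit 2) (nat_lit 7))
    (@En.n l281 (nat_lit 13746) (nat_lit 3) (nat_lit 9))
    (@En.n l13110 (nat_lit 13218) (nat_lit 4) (nat_lit 3))
    (@En.n l13111 (nat_lit 12906) (nat_lit 5) (nat_lit 8))
    (@En.n l5044 (nat_lit 13219) (nat_lit 6) (nat_lit 5))
    (@En.n l2125 (nat_lit 13857) (nat_lit 8) (nat_lit 13))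
    (@En.n l17 (nat_lit 13220) (nat_lit 8) (nat_lit 2))
    (@En.n l13112 (nat_lit 13223) (nat_lit 10) (nat_lit 9))
    (@En.i (nat_lit 12959) (nat_lit 11) (nat_lit 14))
    (@En.n l207 (nat_lit 13266) (nat_lit 12) (nat_lit 11))
    (@En.i (nat_lit 13265) (nat_lit 13) (nat_lit 7))
    (@En.n l532 (nat_lit 5076) (nat_lit 14) (nat_lit 8))
    (@En.n l50 (nat_lit 13220) (nat_lit 14) (nat_lit 2))
    (@En.n l7 (nat_lit 13220) (nat_lit 15) (nat_lit 2))))
  (@Cl.mk (nat_lit 0x2000200090008000c000b000a000a000400070005000800060006000e000e) (nat_lit 0x14566700040012) (nat_lit 16) Lb.e (@T16.mk En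
    (@En.n l5 (nat_lit 13221) (nat_lit 1) (nat_lit 14))
    (@En.n l13590 (nat_lit 2359) (nat_lit 1) (nat_lit 14))
    (@En.n l5398 (nat_lit 13219) (nat_lit 2) (nat_lit 6))
    (@En.n l3220 (nat_lit 12868) (nat_lit 3) (nat_lit 6))
    (@En.n l13590 (nat_lit 13901) (nat_lit 4) (nat_lit 8))
    (@En.n l13591 (nat_lit 13093) (nat_lit 5) (nat_lit 5))
    (@En.n l13592 (nat_lit 12916) (nat_lit 6) (nat_lit 7))
    (@En.n l13593 (nat_lit 13141) (nat_lit 7) (nat_lit 4))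
    (@En.n l565 (nat_lit 13176) (nat_lit 9) (nat_lit 10))
    (@En.n l13594 (nat_lit 13633) (nat_lit 10) (nat_lit 10))
    (@En.n l13595 (nat_lit 13217) (nat_lit 11) (nat_lit 11))
    (@En.n l13596 (nat_lit 13224) (nat_lit 12) (nat_lit 12))
    (@En.n l13597 (nat_lit 13225) (nat_lit 13) (nat_lit 8))
    (@En.n l2568 (nat_lit 5053) (nat_lit 14) (nat_lit 9))
    (@En.n l17 (nat_lit 13221) (nat_lit 14) (nat_lit 2))
    (@En.n l18 (nat_lit 13221) (nat_lit 15) (nat_lit 2))))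
  (@Cl.mk (nat_lit 0x200020008000b0009000e000900020005000d0008000700030007000e000e) (nat_lit 0x24465009200089) (nat_lit 16) Lb.e (@T16.mk En
    (@En.n l601 (nat_lit 13222) (nat_lit 1) (nat_lit 14))
    (@En.i (nat_lit 2771) (nat_lit 9) (nat_lit 14))
    (@En.n l5042 (nat_lit 12873) (nat_lit 2) (nat_lit 7))
    (@En.n l11 (nat_lit 13267) (nat_lit 3) (nat_lit 3))
    (@En.n l5043 (nat_lit 13227) (nat_lit 4) (nat_lit 7))
    (@En.n l5044 (nat_lit 13219) (nat_lit 5) (nat_lit 8))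
    (@En.n l5045 (nat_lit 13218) (nat_lit 7) (nat_lit 13))
    (@En.n l3106 (nat_lit 13326) (nat_lit 7) (nat_lit 5))
    (@En.n l17 (nat_lit 13222) (nat_lit 8) (nat_lit 2))
    (@En.n l5046 (nat_lit 13224) (nat_lit 10) (nat_lit 9))
    (@En.n l3 (nat_lit 13266) (nat_lit 11) (nat_lit 14))
    (@En.n l3 (nat_lit 13237) (nat_lit 12) (nat_lit 9))
    (@En.n l919 (nat_lit 13256) (nat_lit 13) (nat_lit 11))
    (@En.n l5047 (nat_lit 5059) (nat_lit 4) (nat_lit 8))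
    (@En.n l50 (nat_lit 13222) (nat_lit 14) (nat_lit 2))
    (@En.n l7 (nat_lit 13222) (nat_lit 15) (nat_lit 2))))
  (@Cl.mk (nat_lit 0x2000200090008000c00090009000d000400070003000800070007000e000e) (nat_lit 0x13546800020023) (nat_lit 16) Lb.e (@T16.mk En
    (@En.n l5 (nat_lit 13223) (nat_lit 1) (nat_lit 14))
    (@En.n l3596 (nat_lit 4195) (nat_lit 1) (nat_lit 14))
    (@En.n l26745 (nat_lit 13220) (nat_lit 2) (nat_lit 7))
    (@En.i (nat_lit 13793) (nat_lit 3) (nat_lit 7))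
    (@En.n l26746 (nat_lit 13751) (nat_lit 4) (nat_lit 8))
    (@En.n l26435 (nat_lit 13217) (nat_lit 5) (nat_lit 3))
    (@En.n l2031 (nat_lit 12908) (nat_lit 6) (nat_lit 7))
    (@En.n l6083 (nat_lit 13221) (nat_lit 7) (nat_lit 4))
    (@En.n l26747 (nat_lit 13302) (nat_lit 9) (nat_lit 13))
    (@En.n l26748 (nat_lit 13180) (nat_lit 10) (nat_lit 9))
    (@En.n l26749 (nat_lit 13638) (nat_lit 11) (nat_lit 9))
    (@En.n l26435 (nat_lit 13298) (nat_lit 12) (nat_lit 12))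
    (@En.n l26747 (nat_lit 13297) (nat_lit 13) (nat_lit 8))
    (@En.n l2568 (nat_lit 7570) (nat_lit 14) (nat_lit 9))
    (@En.n l17 (nat_lit 13223) (nat_lit 14) (nat_lit 2))
    (@En.n l18 (nat_lit 13223) (nat_lit 15) (nat_lit 2))))
  (@Cl.mk (nat_lit 0x200020009000c000a000900090004000d00070006000300070007000e000e) (nat_lit 0x14546070000023) (nat_lit 16) Lb.e (@T16.mk En
    (@En.n l5 (nat_lit 13224) (nat_lit 1) (nat_lit 14))
    (@En.n l4484 (nat_lit 4188) (nat_lit 1) (nat_lit 14))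
    (@En.n l12935 (nat_lit 13222) (nat_lit 2) (nat_lit 7))
    (@En.n l12936 (nat_lit 12867) (nat_lit 3) (nat_lit 7))
    (@En.n l12937 (nat_lit 13225) (nat_lit 4) (nat_lit 3))
    (@En.n l7619 (nat_lit 13228) (nat_lit 5) (nat_lit 6))
    (@En.n l12938 (nat_lit 13221) (nat_lit 6) (nat_lit 7))
    (@En.n l4513 (nat_lit 13217) (nat_lit 8) (nat_lit 13))
    (@En.n l12939 (nat_lit 13624) (nat_lit 8) (nat_lit 4))
    (@En.n l77 (nat_lit 13177) (nat_lit 10) (nat_lit 9))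
    (@En.n l4484 (nat_lit 13634) (nat_lit 11) (nat_lit 9))
    (@En.n l4511 (nat_lit 13236) (nat_lit 12) (nat_lit 10))
    (@En.n l4484 (nat_lit 13149) (nat_lit 13) (nat_lit 12))
    (@En.i (nat_lit 5051) (nat_lit 14) (nat_lit 9))
    (@En.n l17 (nat_lit 13224) (nat_lit 14) (nat_lit 2))
    (@En.n l18 (nat_lit 13224) (nat_lit 15) (nat_lit 2))))
  (@Cl.mk (nat_lit 0x200020008000c000b000900090004000d00050008000300070007000e000e) (nat_lit 0x33567090000023) (nat_lit 16) Lb.e (@T16.mk En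
    (@En.n l5 (nat_lit 13225) (nat_lit 1) (nat_lit 14))
    (@En.n l649 (nat_lit 4185) (nat_lit 1) (nat_lit 14))
    (@En.n l2262 (nat_lit 13267) (nat_lit 2) (nat_lit 7))
    (@En.n l55 (nat_lit 12872) (nat_lit 3) (nat_lit 7))
    (@En.n l12923 (nat_lit 13224) (nat_lit 4) (nat_lit 3))
    (@En.n l5845 (nat_lit 13900) (nat_lit 5) (nat_lit 8))
    (@En.n l12924 (nat_lit 12964) (nat_lit 6) (nat_lit 5))
    (@En.n l152 (nat_lit 13223) (nat_lit 8) (nat_lit 13))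
    (@En.n l12925 (nat_lit 13631) (nat_lit 8) (nat_lit 4))
    (@En.n l12926 (nat_lit 13181) (nat_lit 10) (nat_lit 9))
    (@En.n l5845 (nat_lit 13635) (nat_lit 11) (nat_lit 9))
    (@En.n l12927 (nat_lit 13296) (nat_lit 12) (nat_lit 11))
    (@En.n l12928 (nat_lit 13148) (nat_lit 13) (nat_lit 12))
    (@En.i (nat_lit 7564) (nat_lit 14) (nat_lit 8))
    (@En.n l17 (nat_lit 13225) (nat_lit 14) (nat_lit 2))
    (@En.n l18 (nat_lit 13225) (nat_lit 15) (nat_lit 2))))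
  (@Cl.mk (nat_lit 0x20002000d0008000b0003000e000a00020005000e000800020006000e000e) (nat_lit 0x53507600b20078) (nat_lit 16) Lb.e (@T16.mk En
    (@En.n l97 (nat_lit 13226) (nat_lit 1) (nat_lit 14))
    (@En.n l5172 (nat_lit 2158) (nat_lit 10) (nat_lit 14))
    (@En.i (nat_lit 13889) (nat_lit 2) (nat_lit 6))
    (@En.n l754 (nat_lit 13226) (nat_lit 3) (nat_lit 2))
    (@En.n l2487 (nat_lit 13098) (nat_lit 4) (nat_lit 8))
    (@En.n l2344 (nat_lit 13215) (nat_lit 6) (nat_lit 14))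
    (@En.n l803 (nat_lit 14094) (nat_lit 6) (nat_lit 5))
    (@En.n l50 (nat_lit 13226) (nat_lit 7) (nat_lit 2))
    (@En.n l1891 (nat_lit 13195) (nat_lit 9) (nat_lit 10))
    (@En.n l5173 (nat_lit 12917) (nat_lit 10) (nat_lit 14))
    (@En.n l5174 (nat_lit 13227) (nat_lit 10) (nat_lit 3))
    (@En.n l5175 (nat_lit 14103) (nat_lit 7) (nat_lit 11))
    (@En.n l5172 (nat_lit 13222) (nat_lit 13) (nat_lit 8))
    (@En.n l590 (nat_lit 4992) (nat_lit 6) (nat_lit 13))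
    (@En.n l107 (nat_lit 13226) (nat_lit 14) (nat_lit 2))
    (@En.n l3 (nat_lit 13226) (nat_lit 15) (nat_lit 2))))
  (@Cl.mk (nat_lit 0x20002000d000a00090003000e000a00020006000e000700020006000e000e) (nat_lit 0x73507600b00067) (nat_lit 16) Lb.e (@T16.mk En
    (@En.n l5 (nat_lit 13227) (nat_lit 1) (nat_lit 14))
    (@En.n l420 (nat_lit 1841) (nat_lit 10) (nat_lit 14))
    (@En.n l5095 (nat_lit 13892) (nat_lit 2) (nat_lit 6))
    (@En.n l28 (nat_lit 13227) (nat_lit 3) (nat_lit 2))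
    (@En.n l581 (nat_lit 13094) (nat_lit 4) (nat_lit 7))
    (@En.n l5096 (nat_lit 13216) (nat_lit 6) (nat_lit 14))
    (@En.n l117 (nat_lit 13359) (nat_lit 6) (nat_lit 6))
    (@En.n l8 (nat_lit 13227) (nat_lit 7) (nat_lit 2))
    (@En.i (nat_lit 13228) (nat_lit 9) (nat_lit 10))
    (@En.n l5097 (nat_lit 12992) (nat_lit 10) (nat_lit 14))
    (@En.n l5095 (nat_lit 13226) (nat_lit 10) (nat_lit 3))
    (@En.n l575 (nat_lit 13229) (nat_lit 12) (nat_lit 9))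
    (@En.n l5098 (nat_lit 12917) (nat_lit 13) (nat_lit 10))
    (@En.i (nat_lit 4872) (nat_lit 10) (nat_lit 13))
    (@En.n l17 (nat_lit 13227) (nat_lit 14) (nat_lit 2))
    (@En.n l18 (nat_lit 13227) (nat_lit 15) (nat_lit 2))))
  (@Cl.mk (nat_lit 0x20002000d000b000a0003000a000a0005000e0006000200060006000e000e) (nat_lit 0x93405809000067) (nat_lit 16) Lb.e (@T16.mk En
    (@En.n l5 (nat_lit 13228) (nat_lit 1) (nat_lit 14))
    (@En.n l11587 (nat_lit 2351) (nat_lit 13) (nat_lit 14))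
    (@En.n l538 (nat_lit 13227) (nat_lit 2) (nat_lit 6))
    (@En.n l4549 (nat_lit 13992) (nat_lit 3) (nat_lit 6))
    (@En.n l28 (nat_lit 13228) (nat_lit 4) (nat_lit 2))
    (@En.n l12976 (nat_lit 13095) (nat_lit 5) (nat_lit 6))
    (@En.n l1578 (nat_lit 13213) (nat_lit 7) (nat_lit 14))
    (@En.n l117 (nat_lit 13620) (nat_lit 7) (nat_lit 5))
    (@En.n l12977 (nat_lit 13183) (nat_lit 9) (nat_lit 10))
    (@En.n l12978 (nat_lit 13723) (nat_lit 10) (nat_lit 10))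
    (@En.n l12979 (nat_lit 13195) (nat_lit 10) (nat_lit 3))
    (@En.n l575 (nat_lit 13231) (nat_lit 12) (nat_lit 10))
    (@En.n l5376 (nat_lit 13196) (nat_lit 13) (nat_lit 11))
    (@En.i (nat_lit 4940) (nat_lit 9) (nat_lit 13))
    (@En.n l17 (nat_lit 13228) (nat_lit 14) (nat_lit 2))
    (@En.n l18 (nat_lit 13228) (nat_lit 15) (nat_lit 2))))
  (@Cl.mk (nat_lit 0x20002000e00090002000e00090002000d000d0007000300030007000e000e) (nat_lit 0x94062088000089) (nat_lit 16) Lb.e (@T16.mk En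
    (@En.n l5 (nat_lit 13229) (nat_lit 1) (nat_lit 14))
    (@En.n l1895 (nat_lit 1837) (nat_lit 1) (nat_lit 14))
    (@En.n l581 (nat_lit 12821) (nat_lit 2) (nat_lit 7))
    (@En.n l593 (nat_lit 13234) (nat_lit 3) (nat_lit 3))
    (@En.n l11 (nat_lit 13230) (nat_lit 4) (nat_lit 3))
    (@En.n l581 (nat_lit 13215) (nat_lit 5) (nat_lit 7))
    (@En.n l55 (nat_lit 13230) (nat_lit 7) (nat_lit 13))
    (@En.i (nat_lit 13110) (nat_lit 8) (nat_lit 13))
    (@En.n l8 (nat_lit 13229) (nat_lit 8) (nat_lit 2))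
    (@En.i (nat_lit 13231) (nat_lit 10) (nat_lit 9))
    (@En.n l1896 (nat_lit 13259) (nat_lit 11) (nat_lit 14))
    (@En.n l3 (nat_lit 13229) (nat_lit 11) (nat_lit 2))
    (@En.n l1896 (nat_lit 13237) (nat_lit 13) (nat_lit 9))
    (@En.n l1023 (nat_lit 3379) (nat_lit 1) (nat_lit 14))
    (@En.n l17 (nat_lit 13229) (nat_lit 14) (nat_lit 2))
    (@En.n l18 (nat_lit 13229) (nat_lit 15) (nat_lit 2))))
  (@Cl.mk (nat_lit 0x20002000e000a0002000e00090002000d0006000e000300020007000e000e) (nat_lit 0x83062070a00045) (nat_lit 16) Lb.e (@T16.mk En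
    (@En.n l5 (nat_lit 13230) (nat_lit 1) (nat_lit 14))
    (@En.n l420 (nat_lit 1836) (nat_lit 1) (nat_lit 14))
    (@En.n l4930 (nat_lit 12823) (nat_lit 2) (nat_lit 7))
    (@En.n l28 (nat_lit 13230) (nat_lit 3) (nat_lit 2))
    (@En.i (nat_lit 13229) (nat_lit 4) (nat_lit 3))
    (@En.n l1603 (nat_lit 14081) (nat_lit 0) (nat_lit 14))
    (@En.i (nat_lit 13227) (nat_lit 6) (nat_lit 6))
    (@En.i (nat_lit 13111) (nat_lit 8) (nat_lit 13))
    (@En.n l8 (nat_lit 13230) (nat_lit 8) (nat_lit 2))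
    (@En.i (nat_lit 13232) (nat_lit 10) (nat_lit 9))
    (@En.n l8 (nat_lit 13354) (nat_lit 11) (nat_lit 14))
    (@En.n l3 (nat_lit 13230) (nat_lit 11) (nat_lit 2))
    (@En.n l4931 (nat_lit 13238) (nat_lit 13) (nat_lit 10))
    (@En.i (nat_lit 3388) (nat_lit 1) (nat_lit 14))
    (@En.n l17 (nat_lit 13230) (nat_lit 14) (nat_lit 2))
    (@En.n l18 (nat_lit 13230) (nat_lit 15) (nat_lit 2))))
  (@Cl.mk (nat_lit 0x20002000e000a000200090009000d000d00060003000300070007000e000e) (nat_lit 0x83015780000045) (nat_lit 16) Lb.e (@T16.mk En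
    (@En.n l5 (nat_lit 13231) (nat_lit 1) (nat_lit 14))
    (@En.n l5366 (nat_lit 3223) (nat_lit 6) (nat_lit 14))
    (@En.n l538 (nat_lit 13229) (nat_lit 2) (nat_lit 7))
    (@En.n l558 (nat_lit 12826) (nat_lit 3) (nat_lit 7))
    (@En.n l5578 (nat_lit 13233) (nat_lit 4) (nat_lit 3))
    (@En.n l11 (nat_lit 13232) (nat_lit 5) (nat_lit 3))
    (@En.n l4719 (nat_lit 13214) (nat_lit 6) (nat_lit 6))
    (@En.n l55 (nat_lit 13232) (nat_lit 8) (nat_lit 13))
    (@En.i (nat_lit 13106) (nat_lit 9) (nat_lit 13))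
    (@En.n l127 (nat_lit 13235) (nat_lit 10) (nat_lit 9))
    (@En.n l4750 (nat_lit 661) (nat_lit 11) (nat_lit 9))
    (@En.n l3 (nat_lit 13231) (nat_lit 11) (nat_lit 2))
    (@En.i (nat_lit 13236) (nat_lit 13) (nat_lit 10))
    (@En.n l164 (nat_lit 3367) (nat_lit 1) (nat_lit 14))
    (@En.n l17 (nat_lit 13231) (nat_lit 14) (nat_lit 2))
    (@En.n l18 (nat_lit 13231) (nat_lit 15) (nat_lit 2))))
noncomputable def a827 : T16 Cl := @T16.mk Cl
  (@Cl.mk (nat_lit 0x20002000e000b000200090009000d0005000e0003000200070007000e000e) (nat_lit 0xb3016709000078) (nat_lit 16) Lb.e (@T16.mk En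
    (@En.n l5 (nat_lit 13232) (nat_lit 1) (nat_lit 14))
    (@En.n l5366 (nat_lit 3227) (nat_lit 13) (nat_lit 14))
    (@En.n l538 (nat_lit 13230) (nat_lit 2) (nat_lit 7))
    (@En.i (nat_lit 12827) (nat_lit 3) (nat_lit 7))
    (@En.n l28 (nat_lit 13232) (nat_lit 4) (nat_lit 2))
    (@En.i (nat_lit 13231) (nat_lit 5) (nat_lit 3))
    (@En.n l5366 (nat_lit 14061) (nat_lit 0) (nat_lit 14))
    (@En.i (nat_lit 13228) (nat_lit 7) (nat_lit 5))
    (@En.i (nat_lit 13109) (nat_lit 9) (nat_lit 13))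
    (@En.n l1504 (nat_lit 13242) (nat_lit 10) (nat_lit 9))
    (@En.i (nat_lit 660) (nat_lit 11) (nat_lit 9))
    (@En.n l3 (nat_lit 13232) (nat_lit 11) (nat_lit 2))
    (@En.i (nat_lit 13239) (nat_lit 13) (nat_lit 11))
    (@En.i (nat_lit 3372) (nat_lit 1) (nat_lit 14))
    (@En.n l17 (nat_lit 13232) (nat_lit 14) (nat_lit 2))
    (@En.n l18 (nat_lit 13232) (nat_lit 15) (nat_lit 2))))
  (@Cl.mk (nat_lit 0x20002000e0009000200090009000e000d00020007000300070007000e000e) (nat_lit 0x63065880000089) (nat_lit 16) Lb.e (@T16.mk En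
    (@En.n l97 (nat_lit 13233) (nat_lit 1) (nat_lit 14))
    (@En.i (nat_lit 3225) (nat_lit 11) (nat_lit 14))
    (@En.n l4656 (nat_lit 13234) (nat_lit 2) (nat_lit 7))
    (@En.n l968 (nat_lit 13044) (nat_lit 3) (nat_lit 7))
    (@En.n l1391 (nat_lit 13231) (nat_lit 4) (nat_lit 3))
    (@En.n l4651 (nat_lit 13195) (nat_lit 5) (nat_lit 7))
    (@En.n l18 (nat_lit 13233) (nat_lit 6) (nat_lit 2))
    (@En.n l4657 (nat_lit 13231) (nat_lit 8) (nat_lit 13))
    (@En.n l1391 (nat_lit 13104) (nat_lit 9) (nat_lit 14))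
    (@En.n l584 (nat_lit 13240) (nat_lit 10) (nat_lit 9))
    (@En.n l3130 (nat_lit 13813) (nat_lit 11) (nat_lit 9))
    (@En.n l28 (nat_lit 13233) (nat_lit 11) (nat_lit 2))
    (@En.n l982 (nat_lit 13251) (nat_lit 13) (nat_lit 9))
    (@En.n l1395 (nat_lit 3368) (nat_lit 1) (nat_lit 14))
    (@En.n l107 (nat_lit 13233) (nat_lit 14) (nat_lit 2))
    (@En.n l3 (nat_lit 13233) (nat_lit 15) (nat_lit 2))))
  (@Cl.mk (nat_lit 0x20002000e00080002000e00090002000e000d0002000800030007000e000e) (nat_lit 0x84047029030078) (nat_lit 16) Lb.e (@T16.mk En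
    (@En.n l97 (nat_lit 13234) (nat_lit 1) (nat_lit 14))
    (@En.n l1882 (nat_lit 1840) (nat_lit 12) (nat_lit 14))
    (@En.i (nat_lit 13003) (nat_lit 2) (nat_lit 7))
    (@En.n l584 (nat_lit 13229) (nat_lit 3) (nat_lit 3))
    (@En.i (nat_lit 13226) (nat_lit 4) (nat_lit 8))
    (@En.n l17 (nat_lit 13234) (nat_lit 5) (nat_lit 2))
    (@En.n l586 (nat_lit 13229) (nat_lit 7) (nat_lit 13))
    (@En.i (nat_lit 12921) (nat_lit 8) (nat_lit 14))
    (@En.n l50 (nat_lit 13234) (nat_lit 8) (nat_lit 2))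
    (@En.n l803 (nat_lit 13233) (nat_lit 10) (nat_lit 9))
    (@En.n l1883 (nat_lit 13256) (nat_lit 11) (nat_lit 14))
    (@En.n l28 (nat_lit 13234) (nat_lit 11) (nat_lit 2))
    (@En.n l1373 (nat_lit 13254) (nat_lit 13) (nat_lit 8))
    (@En.n l590 (nat_lit 3445) (nat_lit 1) (nat_lit 14))
    (@En.n l107 (nat_lit 13234) (nat_lit 14) (nat_lit 2))
    (@En.n l3 (nat_lit 13234) (nat_lit 15) (nat_lit 2))))
  (@Cl.mk (nat_lit 0x20002000e000b00020009000d000d000500030003000e00070002000e000e) (nat_lit 0x720467000c0034) (nat_lit 16) Lb.e (@T16.mk En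
    (@En.n l5 (nat_lit 13235) (nat_lit 1) (nat_lit 14))
    (@En.n l535 (nat_lit 3514) (nat_lit 1) (nat_lit 14))
    (@En.n l7 (nat_lit 13235) (nat_lit 2) (nat_lit 2))
    (@En.n l343 (nat_lit 13231) (nat_lit 3) (nat_lit 7))
    (@En.i (nat_lit 13001) (nat_lit 5) (nat_lit 14))
    (@En.i (nat_lit 13240) (nat_lit 5) (nat_lit 3))
    (@En.n l624 (nat_lit 13242) (nat_lit 6) (nat_lit 3))
    (@En.n l117 (nat_lit 13212) (nat_lit 7) (nat_lit 5))
    (@En.n l625 (nat_lit 13242) (nat_lit 9) (nat_lit 13))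
    (@En.i (nat_lit 13071) (nat_lit 10) (nat_lit 13))
    (@En.n l253 (nat_lit 13680) (nat_lit 11) (nat_lit 9))
    (@En.n l3 (nat_lit 13235) (nat_lit 11) (nat_lit 2))
    (@En.i (nat_lit 13241) (nat_lit 13) (nat_lit 11))
    (@En.i (nat_lit 3442) (nat_lit 1) (nat_lit 14))
    (@En.n l17 (nat_lit 13235) (nat_lit 14) (nat_lit 2))
    (@En.n l18 (nat_lit 13235) (nat_lit 15) (nat_lit 2))))
  (@Cl.mk (nat_lit 0x20002000a000a00080008000c000c000600060004000400080008000e000e) (nat_lit 0x24445700002523) (nat_lit 16) Lb.e (@T16.mk En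
    (@En.n l5 (nat_lit 13236) (nat_lit 1) (nat_lit 14))
    (@En.n l9941 (nat_lit 3243) (nat_lit 1) (nat_lit 14))
    (@En.n l4770 (nat_lit 13237) (nat_lit 2) (nat_lit 8))
    (@En.n l13789 (nat_lit 13785) (nat_lit 3) (nat_lit 8))
    (@En.n l13790 (nat_lit 13251) (nat_lit 4) (nat_lit 4))
    (@En.n l11 (nat_lit 13298) (nat_lit 5) (nat_lit 4))
    (@En.n l152 (nat_lit 13231) (nat_lit 6) (nat_lit 6))
    (@En.n l936 (nat_lit 13217) (nat_lit 7) (nat_lit 6))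
    (@En.n l55 (nat_lit 13239) (nat_lit 9) (nat_lit 12))
    (@En.i (nat_lit 13310) (nat_lit 10) (nat_lit 12))
    (@En.n l127 (nat_lit 13241) (nat_lit 11) (nat_lit 8))
    (@En.n l4750 (nat_lit 13621) (nat_lit 12) (nat_lit 8))
    (@En.n l11915 (nat_lit 13247) (nat_lit 13) (nat_lit 10))
    (@En.i (nat_lit 3186) (nat_lit 14) (nat_lit 10))
    (@En.n l17 (nat_lit 13236) (nat_lit 14) (nat_lit 2))
    (@En.n l18 (nat_lit 13236) (nat_lit 15) (nat_lit 2))))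
  (@Cl.mk (nat_lit 0x2000200090009000e00080002000c000c00070007000400040008000e000e) (nat_lit 0x33550680000489) (nat_lit 16) Lb.e (@T16.mk En
    (@En.n l601 (nat_lit 13237) (nat_lit 1) (nat_lit 14))
    (@En.i (nat_lit 2556) (nat_lit 1) (nat_lit 14))
    (@En.n l2747 (nat_lit 13784) (nat_lit 2) (nat_lit 8))
    (@En.n l5584 (nat_lit 13254) (nat_lit 3) (nat_lit 4))
    (@En.n l152 (nat_lit 13266) (nat_lit 4) (nat_lit 4))
    (@En.n l5585 (nat_lit 13229) (nat_lit 5) (nat_lit 7))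
    (@En.n l5586 (nat_lit 13218) (nat_lit 6) (nat_lit 7))
    (@En.n l5587 (nat_lit 13238) (nat_lit 8) (nat_lit 12))
    (@En.n l4658 (nat_lit 13317) (nat_lit 9) (nat_lit 12))
    (@En.n l17 (nat_lit 13237) (nat_lit 9) (nat_lit 2))
    (@En.n l4658 (nat_lit 13236) (nat_lit 11) (nat_lit 8))
    (@En.i (nat_lit 13260) (nat_lit 12) (nat_lit 14))
    (@En.n l2040 (nat_lit 13252) (nat_lit 13) (nat_lit 9))
    (@En.i (nat_lit 4965) (nat_lit 14) (nat_lit 9))
    (@En.n l50 (nat_lit 13237) (nat_lit 14) (nat_lit 2))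
    (@En.n l7 (nat_lit 13237) (nat_lit 15) (nat_lit 2))))
  (@Cl.mk (nat_lit 0x20002000a000a000e00080002000c00060006000e000400020008000e000e) (nat_lit 0x22540700a00589) (nat_lit 16) Lb.e (@T16.mk En
    (@En.n l97 (nat_lit 13238) (nat_lit 1) (nat_lit 14))
    (@En.n l12877 (nat_lit 2705) (nat_lit 1) (nat_lit 14))
    (@En.n l9397 (nat_lit 13781) (nat_lit 2) (nat_lit 8))
    (@En.n l17 (nat_lit 13238) (nat_lit 3) (nat_lit 2))
    (@En.n l12878 (nat_lit 13237) (nat_lit 4) (nat_lit 4))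
    (@En.i (nat_lit 13268) (nat_lit 6) (nat_lit 14))
    (@En.n l12879 (nat_lit 13230) (nat_lit 6) (nat_lit 6))
    (@En.n l12877 (nat_lit 12917) (nat_lit 7) (nat_lit 6))
    (@En.n l12880 (nat_lit 13314) (nat_lit 9) (nat_lit 12))
    (@En.n l7 (nat_lit 13238) (nat_lit 9) (nat_lit 2))
    (@En.n l12880 (nat_lit 13239) (nat_lit 11) (nat_lit 8))
    (@En.n l12877 (nat_lit 13352) (nat_lit 12) (nat_lit 14))
    (@En.n l1316 (nat_lit 13338) (nat_lit 13) (nat_lit 10))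
    (@En.n l12877 (nat_lit 5064) (nat_lit 10) (nat_lit 10))
    (@En.n l107 (nat_lit 13238) (nat_lit 14) (nat_lit 2))
    (@En.n l3 (nat_lit 13238) (nat_lit 15) (nat_lit 2))))
  (@Cl.mk (nat_lit 0x20002000b000b00080008000c00050005000e0004000200080008000e000e) (nat_lit 0x243460020036ab) (nat_lit 16) Lb.e (@T16.mk En
    (@En.n l5 (nat_lit 13239) (nat_lit 1) (nat_lit 14))
    (@En.n l5372 (nat_lit 3244) (nat_lit 13) (nat_lit 14))
    (@En.n l26325 (nat_lit 13238) (nat_lit 2) (nat_lit 8))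
    (@En.i (nat_lit 13788) (nat_lit 3) (nat_lit 8))
    (@En.n l28 (nat_lit 13239) (nat_lit 4) (nat_lit 2))
    (@En.i (nat_lit 13236) (nat_lit 5) (nat_lit 4))
    (@En.n l4559 (nat_lit 12953) (nat_lit 7) (nat_lit 14))
    (@En.n l152 (nat_lit 13232) (nat_lit 7) (nat_lit 5))
    (@En.n l5376 (nat_lit 13196) (nat_lit 8) (nat_lit 5))
    (@En.i (nat_lit 13311) (nat_lit 10) (nat_lit 12))
    (@En.n l1504 (nat_lit 13243) (nat_lit 11) (nat_lit 8))
    (@En.n l513 (nat_lit 13619) (nat_lit 12) (nat_lit 8))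
    (@En.n l6213 (nat_lit 13248) (nat_lit 13) (nat_lit 11))
    (@En.i (nat_lit 3178) (nat_lit 9) (nat_lit 11))
    (@En.n l17 (nat_lit 13239) (nat_lit 14) (nat_lit 2))
    (@En.n l18 (nat_lit 13239) (nat_lit 15) (nat_lit 2))))
  (@Cl.mk (nat_lit 0x20002000e000a00020009000e000d000200060003000e00070002000e000e) (nat_lit 0x840477000b0045) (nat_lit 16) Lb.e (@T16.mk En
    (@En.n l5 (nat_lit 13240) (nat_lit 1) (nat_lit 14))
    (@En.n l991 (nat_lit 3513) (nat_lit 1) (nat_lit 14))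
    (@En.n l7 (nat_lit 13240) (nat_lit 2) (nat_lit 2))
    (@En.n l2559 (nat_lit 13233) (nat_lit 3) (nat_lit 7))
    (@En.n l127 (nat_lit 12991) (nat_lit 5) (nat_lit 14))
    (@En.n l11 (nat_lit 13235) (nat_lit 5) (nat_lit 3))
    (@En.n l2560 (nat_lit 13191) (nat_lit 6) (nat_lit 6))
    (@En.n l207 (nat_lit 13240) (nat_lit 7) (nat_lit 2))
    (@En.n l198 (nat_lit 13235) (nat_lit 9) (nat_lit 13))
    (@En.i (nat_lit 13102) (nat_lit 10) (nat_lit 14))
    (@En.n l919 (nat_lit 13672) (nat_lit 11) (nat_lit 9))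
    (@En.n l3 (nat_lit 13240) (nat_lit 11) (nat_lit 2))
    (@En.n l282 (nat_lit 13250) (nat_lit 13) (nat_lit 10))
    (@En.i (nat_lit 3444) (nat_lit 1) (nat_lit 14))
    (@En.n l17 (nat_lit 13240) (nat_lit 14) (nat_lit 2))
    (@En.n l18 (nat_lit 13240) (nat_lit 15) (nat_lit 2))))
  (@Cl.mk (nat_lit 0x20002000b000b0008000c000c0005000500040004000e00080002000e000e) (nat_lit 0x133460000b3034) (nat_lit 16) Lb.e (@T16.mk En
    (@En.n l5 (nat_lit 13241) (nat_lit 1) (nat_lit 14))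
    (@En.n l535 (nat_lit 3594) (nat_lit 1) (nat_lit 14))
    (@En.n l7 (nat_lit 13241) (nat_lit 2) (nat_lit 2))
    (@En.n l343 (nat_lit 13236) (nat_lit 3) (nat_lit 8))
    (@En.n l12111 (nat_lit 12998) (nat_lit 5) (nat_lit 14))
    (@En.n l282 (nat_lit 13250) (nat_lit 5) (nat_lit 4))
    (@En.n l5379 (nat_lit 13301) (nat_lit 6) (nat_lit 4))
    (@En.n l152 (nat_lit 13235) (nat_lit 7) (nat_lit 5))
    (@En.n l5365 (nat_lit 13178) (nat_lit 8) (nat_lit 5))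
    (@En.n l625 (nat_lit 13243) (nat_lit 10) (nat_lit 12))
    (@En.i (nat_lit 13072) (nat_lit 11) (nat_lit 12))
    (@En.n l253 (nat_lit 13870) (nat_lit 12) (nat_lit 8))
    (@En.i (nat_lit 13245) (nat_lit 13) (nat_lit 11))
    (@En.n l766 (nat_lit 3187) (nat_lit 14) (nat_lit 11))
    (@En.n l17 (nat_lit 13241) (nat_lit 14) (nat_lit 2))
    (@En.n l18 (nat_lit 13241) (nat_lit 15) (nat_lit 2))))
  (@Cl.mk (nat_lit 0x20002000e000c00020009000d0004000e00030002000e00070002000e000e) (nat_lit 0x730560700b0034) (nat_lit 16) Lb.e (@T16.mk En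
    (@En.n l5 (nat_lit 13242) (nat_lit 1) (nat_lit 14))
    (@En.n l2100 (nat_lit 3568) (nat_lit 1) (nat_lit 14))
    (@En.n l7 (nat_lit 13242) (nat_lit 2) (nat_lit 2))
    (@En.n l1599 (nat_lit 13232) (nat_lit 3) (nat_lit 7))
    (@En.i (nat_lit 14096) (nat_lit 5) (nat_lit 14))
    (@En.n l11 (nat_lit 13242) (nat_lit 5) (nat_lit 2))
    (@En.n l2032 (nat_lit 13235) (nat_lit 6) (nat_lit 3))
    (@En.i (nat_lit 14082) (nat_lit 0) (nat_lit 14))
    (@En.n l2576 (nat_lit 13183) (nat_lit 8) (nat_lit 4))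
    (@En.n l2579 (nat_lit 13067) (nat_lit 10) (nat_lit 13))
    (@En.i (nat_lit 13685) (nat_lit 11) (nat_lit 9))
    (@En.n l476 (nat_lit 13242) (nat_lit 11) (nat_lit 2))
    (@En.i (nat_lit 13243) (nat_lit 13) (nat_lit 12))
    (@En.n l2568 (nat_lit 3397) (nat_lit 1) (nat_lit 14))
    (@En.n l17 (nat_lit 13242) (nat_lit 14) (nat_lit 2))
    (@En.n l18 (nat_lit 13242) (nat_lit 15) (nat_lit 2))))
  (@Cl.mk (nat_lit 0x20002000c000c0008000c00040004000e00040002000e00080002000e000e) (nat_lit 0x233500700c4034) (nat_lit 16) Lb.e (@T16.mk En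
    (@En.n l5 (nat_lit 13243) (nat_lit 1) (nat_lit 14))
    (@En.n l2100 (nat_lit 2871) (nat_lit 1) (nat_lit 14))
    (@En.n l7 (nat_lit 13243) (nat_lit 2) (nat_lit 2))
    (@En.n l1599 (nat_lit 13239) (nat_lit 3) (nat_lit 8))
    (@En.n l1783 (nat_lit 14095) (nat_lit 5) (nat_lit 14))
    (@En.n l11 (nat_lit 13243) (nat_lit 5) (nat_lit 2))
    (@En.n l2032 (nat_lit 13241) (nat_lit 6) (nat_lit 4))
    (@En.n l1783 (nat_lit 13199) (nat_lit 8) (nat_lit 14))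
    (@En.n l253 (nat_lit 13242) (nat_lit 8) (nat_lit 4))
    (@En.n l2576 (nat_lit 13193) (nat_lit 9) (nat_lit 4))
    (@En.n l1783 (nat_lit 13063) (nat_lit 11) (nat_lit 12))
    (@En.i (nat_lit 13486) (nat_lit 12) (nat_lit 8))
    (@En.i (nat_lit 13244) (nat_lit 13) (nat_lit 12))
    (@En.n l2568 (nat_lit 5043) (nat_lit 14) (nat_lit 12))
    (@En.n l17 (nat_lit 13243) (nat_lit 14) (nat_lit 2))
    (@En.n l18 (nat_lit 13243) (nat_lit 15) (nat_lit 2))))
  (@Cl.mk (nat_lit 0x20002000c0007000b000e00040002000e00050002000e00090002000e000e) (nat_lit 0x205500700b5034) (nat_lit 16) Lb.e (@T16.mk En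
    (@En.n l5 (nat_lit 13244) (nat_lit 1) (nat_lit 14))
    (@En.n l11688 (nat_lit 3596) (nat_lit 1) (nat_lit 14))
    (@En.n l7 (nat_lit 13244) (nat_lit 2) (nat_lit 2))
    (@En.n l11689 (nat_lit 13248) (nat_lit 3) (nat_lit 9))
    (@En.n l11690 (nat_lit 14094) (nat_lit 5) (nat_lit 14))
    (@En.n l11 (nat_lit 13244) (nat_lit 5) (nat_lit 2))
    (@En.n l2032 (nat_lit 13245) (nat_lit 6) (nat_lit 5))
    (@En.n l11690 (nat_lit 13200) (nat_lit 8) (nat_lit 14))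
    (@En.n l476 (nat_lit 13244) (nat_lit 8) (nat_lit 2))
    (@En.n l253 (nat_lit 13243) (nat_lit 9) (nat_lit 4))
    (@En.n l11689 (nat_lit 14055) (nat_lit 11) (nat_lit 14))
    (@En.n l11690 (nat_lit 13065) (nat_lit 12) (nat_lit 11))
    (@En.n l11691 (nat_lit 13662) (nat_lit 13) (nat_lit 7))
    (@En.n l11692 (nat_lit 4879) (nat_lit 14) (nat_lit 12))
    (@En.n l17 (nat_lit 13244) (nat_lit 14) (nat_lit 2))
    (@En.n l18 (nat_lit 13244) (nat_lit 15) (nat_lit 2))))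
  (@Cl.mk (nat_lit 0x20002000b0007000b000b000e0005000200050005000e00090002000e000e) (nat_lit 0x20466000035034) (nat_lit 16) Lb.e (@T16.mk En
    (@En.n l5 (nat_lit 13245) (nat_lit 1) (nat_lit 14))
    (@En.n l11896 (nat_lit 3598) (nat_lit 1) (nat_lit 14))
    (@En.n l7 (nat_lit 13245) (nat_lit 2) (nat_lit 2))
    (@En.n l11897 (nat_lit 13247) (nat_lit 3) (nat_lit 9))
    (@En.n l11898 (nat_lit 12996) (nat_lit 5) (nat_lit 14))
    (@En.n l11899 (nat_lit 13246) (nat_lit 5) (nat_lit 5))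
    (@En.n l11900 (nat_lit 13204) (nat_lit 6) (nat_lit 5))
    (@En.n l3 (nat_lit 13245) (nat_lit 7) (nat_lit 2))
    (@En.n l152 (nat_lit 13241) (nat_lit 8) (nat_lit 5))
    (@En.n l11901 (nat_lit 13244) (nat_lit 10) (nat_lit 14))
    (@En.n l625 (nat_lit 13244) (nat_lit 11) (nat_lit 11))
    (@En.n l1791 (nat_lit 13380) (nat_lit 12) (nat_lit 11))
    (@En.n l11900 (nat_lit 13661) (nat_lit 13) (nat_lit 7))
    (@En.n l11902 (nat_lit 4877) (nat_lit 14) (nat_lit 11))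
    (@En.n l17 (nat_lit 13245) (nat_lit 14) (nat_lit 2))
    (@En.n l18 (nat_lit 13245) (nat_lit 15) (nat_lit 2))))
  (@Cl.mk (nat_lit 0x20002000a0007000e000b0002000e000600020005000e00090002000e000e) (nat_lit 0x204507000a3078) (nat_lit 16) Lb.e (@T16.mk En
    (@En.n l134 (nat_lit 13246) (nat_lit 1) (nat_lit 14))
    (@En.i (nat_lit 3597) (nat_lit 1) (nat_lit 14))
    (@En.n l458 (nat_lit 13246) (nat_lit 2) (nat_lit 2))
    (@En.n l1170 (nat_lit 13249) (nat_lit 3) (nat_lit 9))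
    (@En.n l766 (nat_lit 12994) (nat_lit 5) (nat_lit 14))
    (@En.n l8176 (nat_lit 13202) (nat_lit 5) (nat_lit 5))
    (@En.n l3 (nat_lit 13246) (nat_lit 6) (nat_lit 2))
    (@En.n l13107 (nat_lit 13250) (nat_lit 7) (nat_lit 6))
    (@En.n l18538 (nat_lit 13245) (nat_lit 9) (nat_lit 14))
    (@En.n l18 (nat_lit 13246) (nat_lit 9) (nat_lit 2))
    (@En.n l18539 (nat_lit 13245) (nat_lit 11) (nat_lit 11))
    (@En.n l8176 (nat_lit 14080) (nat_lit 12) (nat_lit 14))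
    (@En.i (nat_lit 13666) (nat_lit 13) (nat_lit 7))
    (@En.n l1170 (nat_lit 4977) (nat_lit 14) (nat_lit 10))
    (@En.n l7 (nat_lit 13246) (nat_lit 14) (nat_lit 2))
    (@En.n l28 (nat_lit 13246) (nat_lit 15) (nat_lit 2))))
  (@Cl.mk (nat_lit 0x20002000a00070007000b000b000e000600020005000500090009000e000e) (nat_lit 0x30057800004323) (nat_lit 16) Lb.e (@T16.mk En
    (@En.n l1578 (nat_lit 13247) (nat_lit 1) (nat_lit 14))
    (@En.i (nat_lit 3234) (nat_lit 11) (nat_lit 14))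
    (@En.n l2593 (nat_lit 13252) (nat_lit 2) (nat_lit 9))
    (@En.n l1253 (nat_lit 13778) (nat_lit 3) (nat_lit 9))
    (@En.n l17 (nat_lit 13249) (nat_lit 4) (nat_lit 5))
    (@En.n l12558 (nat_lit 13285) (nat_lit 5) (nat_lit 5))
    (@En.n l3 (nat_lit 13247) (nat_lit 6) (nat_lit 2))
    (@En.n l12559 (nat_lit 13236) (nat_lit 7) (nat_lit 6))
    (@En.n l3870 (nat_lit 13248) (nat_lit 9) (nat_lit 14))
    (@En.n l12560 (nat_lit 13248) (nat_lit 10) (nat_lit 11))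
    (@En.n l12561 (nat_lit 13437) (nat_lit 11) (nat_lit 11))
    (@En.n l12562 (nat_lit 13245) (nat_lit 12) (nat_lit 7))
    (@En.n l1253 (nat_lit 13530) (nat_lit 13) (nat_lit 7))
    (@En.i (nat_lit 4972) (nat_lit 14) (nat_lit 10))
    (@En.n l28 (nat_lit 13247) (nat_lit 14) (nat_lit 2))
    (@En.n l11 (nat_lit 13247) (nat_lit 15) (nat_lit 2))))
noncomputable def a828 : T16 Cl := @T16.mk Cl
  (@Cl.mk (nat_lit 0x20002000b00070007000b000e00050002000e0005000200090009000e000e) (nat_lit 0x30067009004423) (nat_lit 16) Lb.e (@T16.mk En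
    (@En.n l97 (nat_lit 13248) (nat_lit 1) (nat_lit 14))
    (@En.i (nat_lit 3238) (nat_lit 13) (nat_lit 14))
    (@En.n l1252 (nat_lit 13338) (nat_lit 2) (nat_lit 9))
    (@En.n l1529 (nat_lit 13779) (nat_lit 3) (nat_lit 9))
    (@En.n l17 (nat_lit 13248) (nat_lit 4) (nat_lit 2))
    (@En.n l8268 (nat_lit 13247) (nat_lit 5) (nat_lit 5))
    (@En.n l1708 (nat_lit 13282) (nat_lit 7) (nat_lit 14))
    (@En.n l7 (nat_lit 13248) (nat_lit 7) (nat_lit 2))
    (@En.n l9025 (nat_lit 13239) (nat_lit 8) (nat_lit 5))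
    (@En.i (nat_lit 13951) (nat_lit 4) (nat_lit 14))
    (@En.n l13760 (nat_lit 13439) (nat_lit 11) (nat_lit 11))
    (@En.n l13761 (nat_lit 13244) (nat_lit 12) (nat_lit 7))
    (@En.n l1529 (nat_lit 13593) (nat_lit 13) (nat_lit 7))
    (@En.n l13762 (nat_lit 4969) (nat_lit 9) (nat_lit 11))
    (@En.n l107 (nat_lit 13248) (nat_lit 14) (nat_lit 2))
    (@En.n l3 (nat_lit 13248) (nat_lit 15) (nat_lit 2))))
  (@Cl.mk (nat_lit 0x20002000900070007000e000b0002000e00070002000500090009000e000e) (nat_lit 0x30046090002223) (nat_lit 16) Lb.e (@T16.mk En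
    (@En.n l1578 (nat_lit 13249) (nat_lit 1) (nat_lit 14))
    (@En.i (nat_lit 3231) (nat_lit 12) (nat_lit 14))
    (@En.n l2593 (nat_lit 13253) (nat_lit 2) (nat_lit 9))
    (@En.n l1253 (nat_lit 12790) (nat_lit 3) (nat_lit 9))
    (@En.n l253 (nat_lit 13283) (nat_lit 4) (nat_lit 5))
    (@En.n l3 (nat_lit 13249) (nat_lit 5) (nat_lit 2))
    (@En.i (nat_lit 13251) (nat_lit 6) (nat_lit 7))
    (@En.i (nat_lit 13247) (nat_lit 8) (nat_lit 14))
    (@En.n l18 (nat_lit 13249) (nat_lit 8) (nat_lit 2))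
    (@En.n l5 (nat_lit 13247) (nat_lit 10) (nat_lit 11))
    (@En.n l5366 (nat_lit 12933) (nat_lit 11) (nat_lit 14))
    (@En.n l7471 (nat_lit 13246) (nat_lit 12) (nat_lit 7))
    (@En.n l1253 (nat_lit 13531) (nat_lit 13) (nat_lit 7))
    (@En.i (nat_lit 4976) (nat_lit 14) (nat_lit 9))
    (@En.n l28 (nat_lit 13249) (nat_lit 14) (nat_lit 2))
    (@En.n l11 (nat_lit 13249) (nat_lit 15) (nat_lit 2))))
  (@Cl.mk (nat_lit 0x20002000a000a0008000e000c0002000600060004000e00080002000e000e) (nat_lit 0x333450000b2034) (nat_lit 16) Lb.e (@T16.mk En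
    (@En.n l5 (nat_lit 13250) (nat_lit 1) (nat_lit 14))
    (@En.n l7627 (nat_lit 3601) (nat_lit 1) (nat_lit 14))
    (@En.n l7 (nat_lit 13250) (nat_lit 2) (nat_lit 2))
    (@En.n l7628 (nat_lit 13251) (nat_lit 3) (nat_lit 8))
    (@En.n l7629 (nat_lit 12992) (nat_lit 5) (nat_lit 14))
    (@En.n l7630 (nat_lit 13300) (nat_lit 5) (nat_lit 4))
    (@En.n l891 (nat_lit 13240) (nat_lit 6) (nat_lit 6))
    (@En.n l197 (nat_lit 13177) (nat_lit 7) (nat_lit 6))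
    (@En.n l67 (nat_lit 13250) (nat_lit 8) (nat_lit 2))
    (@En.n l7631 (nat_lit 13241) (nat_lit 10) (nat_lit 12))
    (@En.n l7632 (nat_lit 13103) (nat_lit 11) (nat_lit 14))
    (@En.n l1445 (nat_lit 13194) (nat_lit 12) (nat_lit 8))
    (@En.n l7633 (nat_lit 13246) (nat_lit 13) (nat_lit 10))
    (@En.i (nat_lit 5041) (nat_lit 4) (nat_lit 10))
    (@En.n l17 (nat_lit 13250) (nat_lit 14) (nat_lit 2))
    (@En.n l18 (nat_lit 13250) (nat_lit 15) (nat_lit 2))))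
  (@Cl.mk (nat_lit 0x200020009000900080008000e000c000200070007000400080008000e000e) (nat_lit 0x24346600001423) (nat_lit 16) Lb.e (@T16.mk En
    (@En.n l1578 (nat_lit 13251) (nat_lit 1) (nat_lit 14))
    (@En.i (nat_lit 3622) (nat_lit 10) (nat_lit 14))
    (@En.n l2593 (nat_lit 13254) (nat_lit 2) (nat_lit 8))
    (@En.n l1253 (nat_lit 12786) (nat_lit 3) (nat_lit 8))
    (@En.n l3494 (nat_lit 13296) (nat_lit 4) (nat_lit 4))
    (@En.n l3261 (nat_lit 13233) (nat_lit 5) (nat_lit 7))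
    (@En.n l12272 (nat_lit 13224) (nat_lit 6) (nat_lit 7))
    (@En.n l18 (nat_lit 13251) (nat_lit 7) (nat_lit 2))
    (@En.n l12273 (nat_lit 13236) (nat_lit 9) (nat_lit 12))
    (@En.n l7432 (nat_lit 12935) (nat_lit 10) (nat_lit 14))
    (@En.n l12274 (nat_lit 13250) (nat_lit 11) (nat_lit 8))
    (@En.n l9932 (nat_lit 13842) (nat_lit 12) (nat_lit 8))
    (@En.n l152 (nat_lit 13249) (nat_lit 13) (nat_lit 9))
    (@En.i (nat_lit 5050) (nat_lit 5) (nat_lit 9))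
    (@En.n l28 (nat_lit 13251) (nat_lit 14) (nat_lit 2))
    (@En.n l11 (nat_lit 13251) (nat_lit 15) (nat_lit 2))))
  (@Cl.mk (nat_lit 0x200020009000e00070002000b000b000e00070002000500050009000e000e) (nat_lit 0x230067a000029a) (nat_lit 16) Lb.e (@T16.mk En
    (@En.n l1578 (nat_lit 13252) (nat_lit 1) (nat_lit 14))
    (@En.n l3340 (nat_lit 2709) (nat_lit 12) (nat_lit 14))
    (@En.i (nat_lit 13775) (nat_lit 2) (nat_lit 9))
    (@En.n l725 (nat_lit 13253) (nat_lit 3) (nat_lit 5))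
    (@En.n l3340 (nat_lit 13255) (nat_lit 4) (nat_lit 5))
    (@En.n l3 (nat_lit 13252) (nat_lit 5) (nat_lit 2))
    (@En.n l3333 (nat_lit 13237) (nat_lit 6) (nat_lit 7))
    (@En.i (nat_lit 13338) (nat_lit 8) (nat_lit 14))
    (@En.n l1353 (nat_lit 13338) (nat_lit 9) (nat_lit 11))
    (@En.i (nat_lit 13323) (nat_lit 10) (nat_lit 11))
    (@En.n l50 (nat_lit 13252) (nat_lit 10) (nat_lit 2))
    (@En.n l564 (nat_lit 13247) (nat_lit 12) (nat_lit 7))
    (@En.n l2544 (nat_lit 277) (nat_lit 13) (nat_lit 14))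
    (@En.i (nat_lit 4950) (nat_lit 14) (nat_lit 9))
    (@En.n l28 (nat_lit 13252) (nat_lit 14) (nat_lit 2))
    (@En.n l11 (nat_lit 13252) (nat_lit 15) (nat_lit 2))))
  (@Cl.mk (nat_lit 0x200020008000e00070002000e000b0002000e0008000200050009000e000e) (nat_lit 0x1200570b4001ab) (nat_lit 16) Lb.e (@T16.mk En
    (@En.n l1578 (nat_lit 13253) (nat_lit 1) (nat_lit 14))
    (@En.i (nat_lit 2711) (nat_lit 13) (nat_lit 14))
    (@En.i (nat_lit 13010) (nat_lit 2) (nat_lit 9))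
    (@En.n l1643 (nat_lit 13263) (nat_lit 3) (nat_lit 5))
    (@En.n l3 (nat_lit 13253) (nat_lit 4) (nat_lit 2))
    (@En.i (nat_lit 13254) (nat_lit 5) (nat_lit 8))
    (@En.i (nat_lit 13252) (nat_lit 7) (nat_lit 14))
    (@En.n l17 (nat_lit 13253) (nat_lit 7) (nat_lit 2))
    (@En.n l1353 (nat_lit 13252) (nat_lit 9) (nat_lit 11))
    (@En.n l1997 (nat_lit 12927) (nat_lit 10) (nat_lit 14))
    (@En.n l50 (nat_lit 13253) (nat_lit 10) (nat_lit 2))
    (@En.n l564 (nat_lit 13249) (nat_lit 12) (nat_lit 7))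
    (@En.n l2036 (nat_lit 276) (nat_lit 13) (nat_lit 14))
    (@En.i (nat_lit 4948) (nat_lit 14) (nat_lit 8))
    (@En.n l28 (nat_lit 13253) (nat_lit 14) (nat_lit 2))
    (@En.n l11 (nat_lit 13253) (nat_lit 15) (nat_lit 2))))
  (@Cl.mk (nat_lit 0x2000200080008000e00080002000e000c00020008000800040008000e000e) (nat_lit 0x3254027034039a) (nat_lit 16) Lb.e (@T16.mk En
    (@En.n l1578 (nat_lit 13254) (nat_lit 1) (nat_lit 14))
    (@En.n l5276 (nat_lit 2713) (nat_lit 11) (nat_lit 14))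
    (@En.i (nat_lit 13004) (nat_lit 2) (nat_lit 8))
    (@En.n l5276 (nat_lit 13264) (nat_lit 3) (nat_lit 4))
    (@En.n l3062 (nat_lit 13234) (nat_lit 4) (nat_lit 8))
    (@En.n l5550 (nat_lit 13222) (nat_lit 5) (nat_lit 8))
    (@En.n l17 (nat_lit 13254) (nat_lit 6) (nat_lit 2))
    (@En.n l5551 (nat_lit 13237) (nat_lit 8) (nat_lit 12))
    (@En.n l1997 (nat_lit 12924) (nat_lit 9) (nat_lit 14))
    (@En.n l50 (nat_lit 13254) (nat_lit 9) (nat_lit 2))
    (@En.n l564 (nat_lit 13251) (nat_lit 11) (nat_lit 8))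
    (@En.n l5276 (nat_lit 13255) (nat_lit 12) (nat_lit 14))
    (@En.n l152 (nat_lit 13253) (nat_lit 13) (nat_lit 8))
    (@En.i (nat_lit 4961) (nat_lit 14) (nat_lit 8))
    (@En.n l28 (nat_lit 13254) (nat_lit 14) (nat_lit 2))
    (@En.n l11 (nat_lit 13254) (nat_lit 15) (nat_lit 2))))
  (@Cl.mk (nat_lit 0x200020008000e00070002000b000e000c00020008000500040009000e000e) (nat_lit 0x240076903003ab) (nat_lit 16) Lb.e (@T16.mk En
    (@En.n l601 (nat_lit 13255) (nat_lit 1) (nat_lit 14))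
    (@En.i (nat_lit 2715) (nat_lit 11) (nat_lit 14))
    (@En.n l645 (nat_lit 13957) (nat_lit 2) (nat_lit 9))
    (@En.i (nat_lit 13262) (nat_lit 3) (nat_lit 4))
    (@En.n l3015 (nat_lit 13257) (nat_lit 4) (nat_lit 5))
    (@En.n l197 (nat_lit 13266) (nat_lit 5) (nat_lit 8))
    (@En.n l67 (nat_lit 13255) (nat_lit 6) (nat_lit 2))
    (@En.n l68 (nat_lit 13260) (nat_lit 8) (nat_lit 12))
    (@En.n l645 (nat_lit 13253) (nat_lit 9) (nat_lit 14))
    (@En.i (nat_lit 13846) (nat_lit 10) (nat_lit 11))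
    (@En.n l17 (nat_lit 13255) (nat_lit 10) (nat_lit 2))
    (@En.n l5553 (nat_lit 13285) (nat_lit 12) (nat_lit 7))
    (@En.n l4550 (nat_lit 261) (nat_lit 13) (nat_lit 14))
    (@En.i (nat_lit 4769) (nat_lit 6) (nat_lit 8))
    (@En.n l50 (nat_lit 13255) (nat_lit 14) (nat_lit 2))
    (@En.n l7 (nat_lit 13255) (nat_lit 15) (nat_lit 2))))
  (@Cl.mk (nat_lit 0x20002000b0008000e000800020005000e000d0002000800030008000e000e) (nat_lit 0x3334003a030289) (nat_lit 16) Lb.e (@T16.mk En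
    (@En.n l601 (nat_lit 13256) (nat_lit 1) (nat_lit 14))
    (@En.i (nat_lit 1597) (nat_lit 8) (nat_lit 14))
    (@En.n l4804 (nat_lit 13956) (nat_lit 2) (nat_lit 8))
    (@En.i (nat_lit 13259) (nat_lit 3) (nat_lit 3))
    (@En.n l197 (nat_lit 12917) (nat_lit 4) (nat_lit 8))
    (@En.n l67 (nat_lit 13256) (nat_lit 5) (nat_lit 2))
    (@En.n l68 (nat_lit 13259) (nat_lit 7) (nat_lit 13))
    (@En.n l3638 (nat_lit 13254) (nat_lit 8) (nat_lit 14))
    (@En.n l2322 (nat_lit 14098) (nat_lit 8) (nat_lit 5))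
    (@En.n l17 (nat_lit 13256) (nat_lit 9) (nat_lit 2))
    (@En.n l3637 (nat_lit 13149) (nat_lit 11) (nat_lit 8))
    (@En.n l1445 (nat_lit 13257) (nat_lit 12) (nat_lit 14))
    (@En.i (nat_lit 13255) (nat_lit 13) (nat_lit 8))
    (@En.n l4805 (nat_lit 2451) (nat_lit 3) (nat_lit 11))
    (@En.n l50 (nat_lit 13256) (nat_lit 14) (nat_lit 2))
    (@En.n l7 (nat_lit 13256) (nat_lit 15) (nat_lit 2))))
  (@Cl.mk (nat_lit 0x20002000b000e00070002000b0005000e000d0002000500030009000e000e) (nat_lit 0x2200707a00029a) (nat_lit 16) Lb.e (@T16.mk En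
    (@En.n l601 (nat_lit 13257) (nat_lit 1) (nat_lit 14))
    (@En.i (nat_lit 2719) (nat_lit 12) (nat_lit 14))
    (@En.n l2262 (nat_lit 13955) (nat_lit 2) (nat_lit 9))
    (@En.n l11 (nat_lit 13258) (nat_lit 3) (nat_lit 3))
    (@En.n l1489 (nat_lit 13338) (nat_lit 4) (nat_lit 5))
    (@En.n l1157 (nat_lit 13257) (nat_lit 5) (nat_lit 2))
    (@En.n l1144 (nat_lit 13258) (nat_lit 7) (nat_lit 13))
    (@En.n l11 (nat_lit 13255) (nat_lit 8) (nat_lit 14))
    (@En.n l1483 (nat_lit 13256) (nat_lit 8) (nat_lit 5))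
    (@En.n l1154 (nat_lit 13849) (nat_lit 10) (nat_lit 11))
    (@En.n l17 (nat_lit 13257) (nat_lit 10) (nat_lit 2))
    (@En.n l8862 (nat_lit 13153) (nat_lit 12) (nat_lit 7))
    (@En.n l2260 (nat_lit 280) (nat_lit 13) (nat_lit 14))
    (@En.i (nat_lit 5190) (nat_lit 8) (nat_lit 11))
    (@En.n l50 (nat_lit 13257) (nat_lit 14) (nat_lit 2))
    (@En.n l7 (nat_lit 13257) (nat_lit 15) (nat_lit 2))))
  (@Cl.mk (nat_lit 0x20002000b000e00070002000c0005000d000d0004000300030009000e000e) (nat_lit 0x2400709a0003ab) (nat_lit 16) Lb.e (@T16.mk En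
    (@En.n l601 (nat_lit 13258) (nat_lit 1) (nat_lit 14))
    (@En.i (nat_lit 963) (nat_lit 1) (nat_lit 14))
    (@En.n l649 (nat_lit 13135) (nat_lit 2) (nat_lit 9))
    (@En.i (nat_lit 13257) (nat_lit 3) (nat_lit 3))
    (@En.n l152 (nat_lit 13353) (nat_lit 4) (nat_lit 3))
    (@En.n l13792 (nat_lit 13261) (nat_lit 5) (nat_lit 4))
    (@En.n l619 (nat_lit 13353) (nat_lit 7) (nat_lit 13))
    (@En.i (nat_lit 13262) (nat_lit 8) (nat_lit 13))
    (@En.n l1769 (nat_lit 13259) (nat_lit 8) (nat_lit 5))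
    (@En.i (nat_lit 13357) (nat_lit 10) (nat_lit 12))
    (@En.n l17 (nat_lit 13258) (nat_lit 10) (nat_lit 2))
    (@En.n l13793 (nat_lit 13151) (nat_lit 12) (nat_lit 7))
    (@En.n l13792 (nat_lit 281) (nat_lit 13) (nat_lit 14))
    (@En.i (nat_lit 2452) (nat_lit 2) (nat_lit 11))
    (@En.n l50 (nat_lit 13258) (nat_lit 14) (nat_lit 2))
    (@En.n l7 (nat_lit 13258) (nat_lit 15) (nat_lit 2))))
  (@Cl.mk (nat_lit 0x20002000b0009000e000800020005000d000d0007000300030008000e000e) (nat_lit 0x2354009a000589) (nat_lit 16) Lb.e (@T16.mk En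
    (@En.n l601 (nat_lit 13259) (nat_lit 1) (nat_lit 14))
    (@En.i (nat_lit 969) (nat_lit 8) (nat_lit 14))
    (@En.n l5579 (nat_lit 13137) (nat_lit 2) (nat_lit 8))
    (@En.n l11 (nat_lit 13256) (nat_lit 3) (nat_lit 3))
    (@En.n l5580 (nat_lit 13354) (nat_lit 4) (nat_lit 3))
    (@En.n l4804 (nat_lit 12960) (nat_lit 5) (nat_lit 7))
    (@En.n l5581 (nat_lit 13354) (nat_lit 7) (nat_lit 13))
    (@En.n l1596 (nat_lit 13264) (nat_lit 8) (nat_lit 13))
    (@En.n l5582 (nat_lit 14099) (nat_lit 8) (nat_lit 5))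
    (@En.n l17 (nat_lit 13259) (nat_lit 9) (nat_lit 2))
    (@En.n l5583 (nat_lit 13148) (nat_lit 11) (nat_lit 8))
    (@En.n l1596 (nat_lit 13258) (nat_lit 12) (nat_lit 14))
    (@En.i (nat_lit 13260) (nat_lit 13) (nat_lit 9))
    (@En.n l936 (nat_lit 2131) (nat_lit 3) (nat_lit 11))
    (@En.n l50 (nat_lit 13259) (nat_lit 14) (nat_lit 2))
    (@En.n l7 (nat_lit 13259) (nat_lit 15) (nat_lit 2))))
  (@Cl.mk (nat_lit 0x200020009000e00070002000c000c000c00070004000400040009000e000e) (nat_lit 0x240078900004ab) (nat_lit 16) Lb.e (@T16.mk En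
    (@En.n l601 (nat_lit 13260) (nat_lit 1) (nat_lit 14))
    (@En.i (nat_lit 1156) (nat_lit 1) (nat_lit 14))
    (@En.n l287 (nat_lit 13133) (nat_lit 2) (nat_lit 9))
    (@En.n l11 (nat_lit 13255) (nat_lit 3) (nat_lit 4))
    (@En.n l152 (nat_lit 13289) (nat_lit 4) (nat_lit 4))
    (@En.n l936 (nat_lit 13258) (nat_lit 5) (nat_lit 4))
    (@En.i (nat_lit 12956) (nat_lit 6) (nat_lit 7))
    (@En.n l619 (nat_lit 13352) (nat_lit 8) (nat_lit 12))
    (@En.n l230 (nat_lit 13261) (nat_lit 9) (nat_lit 12))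
    (@En.i (nat_lit 13853) (nat_lit 10) (nat_lit 12))
    (@En.n l17 (nat_lit 13260) (nat_lit 10) (nat_lit 2))
    (@En.n l5553 (nat_lit 13155) (nat_lit 12) (nat_lit 7))
    (@En.n l227 (nat_lit 260) (nat_lit 13) (nat_lit 14))
    (@En.i (nat_lit 5197) (nat_lit 14) (nat_lit 9))
    (@En.n l50 (nat_lit 13260) (nat_lit 14) (nat_lit 2))
    (@En.n l7 (nat_lit 13260) (nat_lit 15) (nat_lit 2))))
  (@Cl.mk (nat_lit 0x20002000a000e00070002000c000b0006000e0004000200050009000e000e) (nat_lit 0x1400780900019a) (nat_lit 16) Lb.e (@T16.mk En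
    (@En.n l97 (nat_lit 13261) (nat_lit 1) (nat_lit 14))
    (@En.n l12555 (nat_lit 1149) (nat_lit 13) (nat_lit 14))
    (@En.i (nat_lit 13131) (nat_lit 2) (nat_lit 9))
    (@En.n l2039 (nat_lit 13252) (nat_lit 3) (nat_lit 5))
    (@En.n l17 (nat_lit 13261) (nat_lit 4) (nat_lit 2))
    (@En.n l215 (nat_lit 13260) (nat_lit 5) (nat_lit 4))
    (@En.n l998 (nat_lit 13263) (nat_lit 7) (nat_lit 14))
    (@En.n l5592 (nat_lit 13268) (nat_lit 7) (nat_lit 6))
    (@En.n l12556 (nat_lit 13257) (nat_lit 9) (nat_lit 11))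
    (@En.n l217 (nat_lit 14038) (nat_lit 10) (nat_lit 12))
    (@En.n l28 (nat_lit 13261) (nat_lit 10) (nat_lit 2))
    (@En.n l12557 (nat_lit 13282) (nat_lit 12) (nat_lit 7))
    (@En.i (nat_lit 259) (nat_lit 13) (nat_lit 14))
    (@En.n l998 (nat_lit 5191) (nat_lit 9) (nat_lit 10))
    (@En.n l107 (nat_lit 13261) (nat_lit 14) (nat_lit 2))
    (@En.n l3 (nat_lit 13261) (nat_lit 15) (nat_lit 2))))
  (@Cl.mk (nat_lit 0x200020007000e00070002000d000d000c00030003000900040009000e000e) (nat_lit 0x300789006029a) (nat_lit 16) Lb.e (@T16.mk En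
    (@En.n l601 (nat_lit 13262) (nat_lit 1) (nat_lit 14))
    (@En.i (nat_lit 1147) (nat_lit 1) (nat_lit 14))
    (@En.n l649 (nat_lit 13741) (nat_lit 2) (nat_lit 9))
    (@En.i (nat_lit 13260) (nat_lit 3) (nat_lit 4))
    (@En.n l476 (nat_lit 13265) (nat_lit 4) (nat_lit 9))
    (@En.n l152 (nat_lit 13288) (nat_lit 5) (nat_lit 3))
    (@En.n l1865 (nat_lit 13263) (nat_lit 6) (nat_lit 3))
    (@En.n l619 (nat_lit 13289) (nat_lit 8) (nat_lit 12))
    (@En.n l1867 (nat_lit 13263) (nat_lit 9) (nat_lit 13))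
    (@En.i (nat_lit 14036) (nat_lit 10) (nat_lit 13))
    (@En.n l17 (nat_lit 13262) (nat_lit 10) (nat_lit 2))
    (@En.n l5553 (nat_lit 13284) (nat_lit 12) (nat_lit 7))
    (@En.i (nat_lit 250) (nat_lit 13) (nat_lit 14))
    (@En.i (nat_lit 5898) (nat_lit 14) (nat_lit 7))
    (@En.n l50 (nat_lit 13262) (nat_lit 14) (nat_lit 2))
    (@En.n l7 (nat_lit 13262) (nat_lit 15) (nat_lit 2))))
  (@Cl.mk (nat_lit 0x200020007000e00070002000d000b000e00030002000900050009000e000e) (nat_lit 0x200788000029a) (nat_lit 16) Lb.e (@T16.mk En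
    (@En.n l180 (nat_lit 13263) (nat_lit 1) (nat_lit 14))
    (@En.n l2579 (nat_lit 1145) (nat_lit 12) (nat_lit 14))
    (@En.i (nat_lit 13742) (nat_lit 2) (nat_lit 9))
    (@En.n l897 (nat_lit 13261) (nat_lit 3) (nat_lit 5))
    (@En.n l3337 (nat_lit 13264) (nat_lit 4) (nat_lit 9))
    (@En.n l17 (nat_lit 13263) (nat_lit 5) (nat_lit 2))
    (@En.n l2869 (nat_lit 13262) (nat_lit 6) (nat_lit 3))
    (@En.i (nat_lit 14082) (nat_lit 8) (nat_lit 14))
    (@En.n l2579 (nat_lit 13255) (nat_lit 9) (nat_lit 11))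
    (@En.n l1998 (nat_lit 14037) (nat_lit 10) (nat_lit 13))
    (@En.n l7 (nat_lit 13263) (nat_lit 10) (nat_lit 2))
    (@En.n l810 (nat_lit 13283) (nat_lit 12) (nat_lit 7))
    (@En.n l1643 (nat_lit 252) (nat_lit 13) (nat_lit 14))
    (@En.i (nat_lit 5900) (nat_lit 14) (nat_lit 7))
    (@En.n l11 (nat_lit 13263) (nat_lit 14) (nat_lit 2))
    (@En.n l107 (nat_lit 13263) (nat_lit 15) (nat_lit 2))))
noncomputable def a829 : T16 Cl := @T16.mk Cl
  (@Cl.mk (nat_lit 0x200020007000a000e00080002000d000c00060003000900040008000e000e) (nat_lit 0x246089007049a) (nat_lit 16) Lb.e (@T16.mk En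
    (@En.n l601 (nat_lit 13264) (nat_lit 1) (nat_lit 14))
    (@En.i (nat_lit 2775) (nat_lit 1) (nat_lit 14))
    (@En.n l1897 (nat_lit 13734) (nat_lit 2) (nat_lit 8))
    (@En.i (nat_lit 13237) (nat_lit 3) (nat_lit 4))
    (@En.n l1690 (nat_lit 13267) (nat_lit 4) (nat_lit 9))
    (@En.n l152 (nat_lit 13265) (nat_lit 5) (nat_lit 3))
    (@En.n l5588 (nat_lit 12961) (nat_lit 6) (nat_lit 6))
    (@En.n l619 (nat_lit 13266) (nat_lit 8) (nat_lit 12))
    (@En.i (nat_lit 14035) (nat_lit 9) (nat_lit 13))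
    (@En.n l17 (nat_lit 13264) (nat_lit 9) (nat_lit 2))
    (@En.i (nat_lit 13296) (nat_lit 11) (nat_lit 8))
    (@En.i (nat_lit 13262) (nat_lit 12) (nat_lit 14))
    (@En.n l226 (nat_lit 13261) (nat_lit 13) (nat_lit 10))
    (@En.i (nat_lit 7566) (nat_lit 14) (nat_lit 7))
    (@En.n l50 (nat_lit 13264) (nat_lit 14) (nat_lit 2))
    (@En.n l7 (nat_lit 13264) (nat_lit 15) (nat_lit 2))))
  (@Cl.mk (nat_lit 0x200020007000b000e00080002000d0005000d0003000900030008000e000e) (nat_lit 0x356080905039a) (nat_lit 16) Lb.e (@T16.mk En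
    (@En.n l601 (nat_lit 13265) (nat_lit 1) (nat_lit 14))
    (@En.i (nat_lit 2774) (nat_lit 1) (nat_lit 14))
    (@En.n l3340 (nat_lit 13739) (nat_lit 2) (nat_lit 8))
    (@En.i (nat_lit 13266) (nat_lit 3) (nat_lit 3))
    (@En.n l253 (nat_lit 13749) (nat_lit 4) (nat_lit 9))
    (@En.n l117 (nat_lit 13264) (nat_lit 5) (nat_lit 3))
    (@En.n l625 (nat_lit 12959) (nat_lit 7) (nat_lit 13))
    (@En.i (nat_lit 13267) (nat_lit 7) (nat_lit 5))
    (@En.n l2125 (nat_lit 14034) (nat_lit 9) (nat_lit 13))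
    (@En.n l17 (nat_lit 13265) (nat_lit 9) (nat_lit 2))
    (@En.n l13116 (nat_lit 13297) (nat_lit 11) (nat_lit 8))
    (@En.i (nat_lit 13288) (nat_lit 12) (nat_lit 14))
    (@En.n l253 (nat_lit 13258) (nat_lit 13) (nat_lit 11))
    (@En.i (nat_lit 7565) (nat_lit 14) (nat_lit 7))
    (@En.n l50 (nat_lit 13265) (nat_lit 14) (nat_lit 2))
    (@En.n l7 (nat_lit 13265) (nat_lit 15) (nat_lit 2))))
  (@Cl.mk (nat_lit 0x200020008000b000e00080002000c0005000d0008000400030008000e000e) (nat_lit 0x2356080820009a) (nat_lit 16) Lb.e (@T16.mk En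
    (@En.n l601 (nat_lit 13266) (nat_lit 1) (nat_lit 14))
    (@En.i (nat_lit 2772) (nat_lit 1) (nat_lit 14))
    (@En.n l287 (nat_lit 13791) (nat_lit 2) (nat_lit 8))
    (@En.n l11 (nat_lit 13265) (nat_lit 3) (nat_lit 3))
    (@En.n l12575 (nat_lit 13238) (nat_lit 4) (nat_lit 4))
    (@En.i (nat_lit 13220) (nat_lit 5) (nat_lit 8))
    (@En.n l3478 (nat_lit 12956) (nat_lit 7) (nat_lit 13))
    (@En.i (nat_lit 13222) (nat_lit 7) (nat_lit 5))
    (@En.n l2125 (nat_lit 13856) (nat_lit 9) (nat_lit 12))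
    (@En.n l17 (nat_lit 13266) (nat_lit 9) (nat_lit 2))
    (@En.n l13131 (nat_lit 13298) (nat_lit 11) (nat_lit 8))
    (@En.i (nat_lit 13289) (nat_lit 12) (nat_lit 14))
    (@En.n l253 (nat_lit 13257) (nat_lit 13) (nat_lit 11))
    (@En.i (nat_lit 7580) (nat_lit 14) (nat_lit 8))
    (@En.n l50 (nat_lit 13266) (nat_lit 14) (nat_lit 2))
    (@En.n l7 (nat_lit 13266) (nat_lit 15) (nat_lit 2))))
  (@Cl.mk (nat_lit 0x200020007000b000a000e000900020005000d0006000900030007000e000e) (nat_lit 0x3367009060089) (nat_lit 16) Lb.e (@T16.mk En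
    (@En.n l601 (nat_lit 13267) (nat_lit 1) (nat_lit 14))
    (@En.i (nat_lit 2773) (nat_lit 9) (nat_lit 14))
    (@En.n l5032 (nat_lit 13737) (nat_lit 2) (nat_lit 7))
    (@En.i (nat_lit 13222) (nat_lit 3) (nat_lit 3))
    (@En.n l5033 (nat_lit 13754) (nat_lit 4) (nat_lit 9))
    (@En.n l5034 (nat_lit 12962) (nat_lit 5) (nat_lit 6))
    (@En.n l5035 (nat_lit 13220) (nat_lit 7) (nat_lit 13))
    (@En.n l3106 (nat_lit 13327) (nat_lit 7) (nat_lit 5))
    (@En.n l17 (nat_lit 13267) (nat_lit 8) (nat_lit 2))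
    (@En.n l5036 (nat_lit 13225) (nat_lit 10) (nat_lit 9))
    (@En.n l3 (nat_lit 13265) (nat_lit 11) (nat_lit 14))
    (@En.n l3 (nat_lit 13264) (nat_lit 12) (nat_lit 10))
    (@En.n l3549 (nat_lit 13259) (nat_lit 13) (nat_lit 11))
    (@En.i (nat_lit 7567) (nat_lit 4) (nat_lit 7))
    (@En.n l50 (nat_lit 13267) (nat_lit 14) (nat_lit 2))
    (@En.n l7 (nat_lit 13267) (nat_lit 15) (nat_lit 2))))
  (@Cl.mk (nat_lit 0x20002000a0007000e00080002000d0006000e0003000200090008000e000e) (nat_lit 0x20550609007689) (nat_lit 16) Lb.e (@T16.mk En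
    (@En.n l97 (nat_lit 13268) (nat_lit 1) (nat_lit 14))
    (@En.i (nat_lit 1204) (nat_lit 13) (nat_lit 14))
    (@En.n l55 (nat_lit 13272) (nat_lit 2) (nat_lit 8))
    (@En.i (nat_lit 13218) (nat_lit 3) (nat_lit 9))
    (@En.n l17 (nat_lit 13268) (nat_lit 4) (nat_lit 2))
    (@En.n l5311 (nat_lit 12956) (nat_lit 5) (nat_lit 3))
    (@En.i (nat_lit 14083) (nat_lit 7) (nat_lit 14))
    (@En.i (nat_lit 12960) (nat_lit 7) (nat_lit 6))
    (@En.i (nat_lit 13862) (nat_lit 9) (nat_lit 13))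
    (@En.n l7 (nat_lit 13268) (nat_lit 9) (nat_lit 2))
    (@En.n l12444 (nat_lit 12953) (nat_lit 11) (nat_lit 8))
    (@En.n l134 (nat_lit 718) (nat_lit 12) (nat_lit 14))
    (@En.n l159 (nat_lit 13263) (nat_lit 13) (nat_lit 7))
    (@En.i (nat_lit 5067) (nat_lit 14) (nat_lit 10))
    (@En.n l107 (nat_lit 13268) (nat_lit 14) (nat_lit 2))
    (@En.n l3 (nat_lit 13268) (nat_lit 15) (nat_lit 2))))
  (@Cl.mk (nat_lit 0x200020009000d0007000e00030002000d0007000e000300020009000e000e) (nat_lit 0x13060090900667) (nat_lit 16) Lb.e (@T16.mk En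
    (@En.n l97 (nat_lit 13269) (nat_lit 1) (nat_lit 14))
    (@En.i (nat_lit 4123) (nat_lit 1) (nat_lit 14))
    (@En.i (nat_lit 13832) (nat_lit 2) (nat_lit 9))
    (@En.n l17 (nat_lit 13269) (nat_lit 3) (nat_lit 2))
    (@En.n l2869 (nat_lit 13271) (nat_lit 4) (nat_lit 3))
    (@En.i (nat_lit 14084) (nat_lit 6) (nat_lit 14))
    (@En.i (nat_lit 12781) (nat_lit 6) (nat_lit 7))
    (@En.i (nat_lit 13625) (nat_lit 8) (nat_lit 13))
    (@En.n l7 (nat_lit 13269) (nat_lit 8) (nat_lit 2))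
    (@En.i (nat_lit 13272) (nat_lit 9) (nat_lit 3))
    (@En.i (nat_lit 13279) (nat_lit 11) (nat_lit 14))
    (@En.i (nat_lit 13268) (nat_lit 12) (nat_lit 7))
    (@En.i (nat_lit 13157) (nat_lit 13) (nat_lit 13))
    (@En.i (nat_lit 5923) (nat_lit 14) (nat_lit 9))
    (@En.n l107 (nat_lit 13269) (nat_lit 14) (nat_lit 2))
    (@En.n l3 (nat_lit 13269) (nat_lit 15) (nat_lit 2))))
  (@Cl.mk (nat_lit 0x200020008000d000d000800030003000d000d0008000300030008000e000e) (nat_lit 0x22340089200512) (nat_lit 16) Lb.e (@T16.mk En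
    (@En.n l134 (nat_lit 13270) (nat_lit 1) (nat_lit 14))
    (@En.i (nat_lit 3576) (nat_lit 1) (nat_lit 14))
    (@En.n l3522 (nat_lit 13830) (nat_lit 2) (nat_lit 8))
    (@En.n l8258 (nat_lit 13274) (nat_lit 3) (nat_lit 3))
    (@En.n l1865 (nat_lit 13272) (nat_lit 4) (nat_lit 3))
    (@En.n l3522 (nat_lit 12787) (nat_lit 5) (nat_lit 8))
    (@En.n l1867 (nat_lit 13272) (nat_lit 7) (nat_lit 13))
    (@En.n l20665 (nat_lit 13635) (nat_lit 8) (nat_lit 13))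
    (@En.n l11382 (nat_lit 13275) (nat_lit 8) (nat_lit 3))
    (@En.n l18 (nat_lit 13271) (nat_lit 9) (nat_lit 3))
    (@En.n l11383 (nat_lit 12955) (nat_lit 11) (nat_lit 8))
    (@En.n l61 (nat_lit 13271) (nat_lit 12) (nat_lit 13))
    (@En.n l649 (nat_lit 12983) (nat_lit 13) (nat_lit 13))
    (@En.i (nat_lit 5875) (nat_lit 14) (nat_lit 8))
    (@En.n l7 (nat_lit 13270) (nat_lit 14) (nat_lit 2))
    (@En.n l28 (nat_lit 13270) (nat_lit 15) (nat_lit 2))))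
  (@Cl.mk (nat_lit 0x200020008000d0007000e00030002000d000d0008000300030009000e000e) (nat_lit 0x2205009a200712) (nat_lit 16) Lb.e (@T16.mk En
    (@En.n l134 (nat_lit 13271) (nat_lit 1) (nat_lit 14))
    (@En.i (nat_lit 3570) (nat_lit 1) (nat_lit 14))
    (@En.n l476 (nat_lit 13833) (nat_lit 2) (nat_lit 9))
    (@En.n l152 (nat_lit 13273) (nat_lit 3) (nat_lit 3))
    (@En.n l1865 (nat_lit 13269) (nat_lit 4) (nat_lit 3))
    (@En.n l97 (nat_lit 12790) (nat_lit 5) (nat_lit 8))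
    (@En.n l1867 (nat_lit 13269) (nat_lit 7) (nat_lit 13))
    (@En.i (nat_lit 13630) (nat_lit 8) (nat_lit 13))
    (@En.n l17 (nat_lit 13271) (nat_lit 8) (nat_lit 2))
    (@En.i (nat_lit 13270) (nat_lit 9) (nat_lit 3))
    (@En.i (nat_lit 13278) (nat_lit 11) (nat_lit 14))
    (@En.n l5592 (nat_lit 12956) (nat_lit 12) (nat_lit 7))
    (@En.n l649 (nat_lit 13158) (nat_lit 13) (nat_lit 13))
    (@En.i (nat_lit 5931) (nat_lit 14) (nat_lit 8))
    (@En.n l7 (nat_lit 13271) (nat_lit 14) (nat_lit 2))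
    (@En.n l28 (nat_lit 13271) (nat_lit 15) (nat_lit 2))))
  (@Cl.mk (nat_lit 0x200020009000d000d000800030003000d0007000e000300020008000e000e) (nat_lit 0x14450080a00512) (nat_lit 16) Lb.e (@T16.mk En
    (@En.n l97 (nat_lit 13272) (nat_lit 1) (nat_lit 14))
    (@En.i (nat_lit 3575) (nat_lit 1) (nat_lit 14))
    (@En.i (nat_lit 13829) (nat_lit 2) (nat_lit 8))
    (@En.n l17 (nat_lit 13272) (nat_lit 3) (nat_lit 2))
    (@En.n l2869 (nat_lit 13270) (nat_lit 4) (nat_lit 3))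
    (@En.i (nat_lit 14079) (nat_lit 6) (nat_lit 14))
    (@En.i (nat_lit 12782) (nat_lit 6) (nat_lit 7))
    (@En.i (nat_lit 13634) (nat_lit 8) (nat_lit 13))
    (@En.n l11251 (nat_lit 13277) (nat_lit 8) (nat_lit 3))
    (@En.n l28 (nat_lit 13269) (nat_lit 9) (nat_lit 3))
    (@En.i (nat_lit 12957) (nat_lit 11) (nat_lit 8))
    (@En.n l77 (nat_lit 13269) (nat_lit 12) (nat_lit 13))
    (@En.i (nat_lit 12984) (nat_lit 13) (nat_lit 13))
    (@En.i (nat_lit 5920) (nat_lit 14) (nat_lit 9))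
    (@En.n l107 (nat_lit 13272) (nat_lit 14) (nat_lit 2))
    (@En.n l3 (nat_lit 13272) (nat_lit 15) (nat_lit 2))))
  (@Cl.mk (nat_lit 0x200020007000d0007000e00030002000e000d0002000900030009000e000e) (nat_lit 0x206009a020612) (nat_lit 16) Lb.e (@T16.mk En
    (@En.n l134 (nat_lit 13273) (nat_lit 1) (nat_lit 14))
    (@En.i (nat_lit 3578) (nat_lit 12) (nat_lit 14))
    (@En.i (nat_lit 13917) (nat_lit 2) (nat_lit 9))
    (@En.n l117 (nat_lit 13271) (nat_lit 3) (nat_lit 3))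
    (@En.i (nat_lit 943) (nat_lit 4) (nat_lit 9))
    (@En.n l3 (nat_lit 13273) (nat_lit 5) (nat_lit 2))
    (@En.i (nat_lit 13271) (nat_lit 7) (nat_lit 13))
    (@En.i (nat_lit 13801) (nat_lit 8) (nat_lit 14))
    (@En.n l17 (nat_lit 13273) (nat_lit 8) (nat_lit 2))
    (@En.n l2869 (nat_lit 13274) (nat_lit 9) (nat_lit 3))
    (@En.i (nat_lit 13280) (nat_lit 11) (nat_lit 14))
    (@En.n l5592 (nat_lit 12959) (nat_lit 12) (nat_lit 7))
    (@En.n l2573 (nat_lit 13803) (nat_lit 13) (nat_lit 13))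
    (@En.i (nat_lit 5872) (nat_lit 14) (nat_lit 7))
    (@En.n l7 (nat_lit 13273) (nat_lit 14) (nat_lit 2))
    (@En.n l28 (nat_lit 13273) (nat_lit 15) (nat_lit 2))))
  (@Cl.mk (nat_lit 0x200020007000d000d000800030003000e000d0002000900030008000e000e) (nat_lit 0x2350089010512) (nat_lit 16) Lb.e (@T16.mk En
    (@En.n l5 (nat_lit 13274) (nat_lit 1) (nat_lit 14))
    (@En.n l649 (nat_lit 3569) (nat_lit 12) (nat_lit 14))
    (@En.i (nat_lit 13916) (nat_lit 2) (nat_lit 8))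
    (@En.n l3528 (nat_lit 13270) (nat_lit 3) (nat_lit 3))
    (@En.i (nat_lit 939) (nat_lit 4) (nat_lit 9))
    (@En.n l28 (nat_lit 13274) (nat_lit 5) (nat_lit 2))
    (@En.n l649 (nat_lit 13270) (nat_lit 7) (nat_lit 13))
    (@En.n l476 (nat_lit 13800) (nat_lit 8) (nat_lit 14))
    (@En.n l152 (nat_lit 13276) (nat_lit 8) (nat_lit 3))
    (@En.n l1865 (nat_lit 13273) (nat_lit 9) (nat_lit 3))
    (@En.n l97 (nat_lit 12958) (nat_lit 11) (nat_lit 8))
    (@En.n l1867 (nat_lit 13273) (nat_lit 12) (nat_lit 13))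
    (@En.i (nat_lit 12987) (nat_lit 13) (nat_lit 13))
    (@En.i (nat_lit 5867) (nat_lit 14) (nat_lit 7))
    (@En.n l17 (nat_lit 13274) (nat_lit 14) (nat_lit 2))
    (@En.n l18 (nat_lit 13274) (nat_lit 15) (nat_lit 2))))
  (@Cl.mk (nat_lit 0x200020008000e000d000200090003000d000d0008000300030007000e000e) (nat_lit 0x2430509a2000bc) (nat_lit 16) Lb.e (@T16.mk En
    (@En.n l5 (nat_lit 13275) (nat_lit 1) (nat_lit 14))
    (@En.n l2572 (nat_lit 3573) (nat_lit 7) (nat_lit 14))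
    (@En.n l564 (nat_lit 13837) (nat_lit 2) (nat_lit 7))
    (@En.n l7 (nat_lit 13276) (nat_lit 3) (nat_lit 3))
    (@En.i (nat_lit 13277) (nat_lit 4) (nat_lit 3))
    (@En.i (nat_lit 12791) (nat_lit 5) (nat_lit 8))
    (@En.n l134 (nat_lit 13277) (nat_lit 7) (nat_lit 13))
    (@En.i (nat_lit 13641) (nat_lit 8) (nat_lit 13))
    (@En.n l4018 (nat_lit 13270) (nat_lit 8) (nat_lit 3))
    (@En.i (nat_lit 13414) (nat_lit 10) (nat_lit 9))
    (@En.n l3 (nat_lit 13275) (nat_lit 10) (nat_lit 2))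
    (@En.n l3528 (nat_lit 13270) (nat_lit 12) (nat_lit 13))
    (@En.n l417 (nat_lit 12980) (nat_lit 13) (nat_lit 14))
    (@En.i (nat_lit 5918) (nat_lit 2) (nat_lit 8))
    (@En.n l17 (nat_lit 13275) (nat_lit 14) (nat_lit 2))
    (@En.n l18 (nat_lit 13275) (nat_lit 15) (nat_lit 2))))
  (@Cl.mk (nat_lit 0x200020007000e000d000200090003000e000d0002000900030007000e000e) (nat_lit 0x430509a0200bc) (nat_lit 16) Lb.e (@T16.mk En
    (@En.n l5 (nat_lit 13276) (nat_lit 1) (nat_lit 14))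
    (@En.n l2573 (nat_lit 5124) (nat_lit 7) (nat_lit 14))
    (@En.i (nat_lit 13919) (nat_lit 2) (nat_lit 7))
    (@En.i (nat_lit 13275) (nat_lit 3) (nat_lit 3))
    (@En.i (nat_lit 944) (nat_lit 4) (nat_lit 9))
    (@En.n l28 (nat_lit 13276) (nat_lit 5) (nat_lit 2))
    (@En.n l134 (nat_lit 13275) (nat_lit 7) (nat_lit 13))
    (@En.i (nat_lit 13561) (nat_lit 8) (nat_lit 14))
    (@En.n l117 (nat_lit 13274) (nat_lit 8) (nat_lit 3))
    (@En.i (nat_lit 13413) (nat_lit 10) (nat_lit 9))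
    (@En.n l3 (nat_lit 13276) (nat_lit 10) (nat_lit 2))
    (@En.i (nat_lit 13274) (nat_lit 12) (nat_lit 13))
    (@En.i (nat_lit 12982) (nat_lit 13) (nat_lit 14))
    (@En.i (nat_lit 5864) (nat_lit 14) (nat_lit 7))
    (@En.n l17 (nat_lit 13276) (nat_lit 14) (nat_lit 2))
    (@En.n l18 (nat_lit 13276) (nat_lit 15) (nat_lit 2))))
  (@Cl.mk (nat_lit 0x200020009000e000d000200090003000d0007000e000300020007000e000e) (nat_lit 0x29505090900067) (nat_lit 16) Lb.e (@T16.mk En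
    (@En.n l5 (nat_lit 13277) (nat_lit 1) (nat_lit 14))
    (@En.n l427 (nat_lit 4114) (nat_lit 7) (nat_lit 14))
    (@En.n l564 (nat_lit 13835) (nat_lit 2) (nat_lit 7))
    (@En.n l7 (nat_lit 13277) (nat_lit 3) (nat_lit 2))
    (@En.n l28 (nat_lit 13275) (nat_lit 4) (nat_lit 3))
    (@En.i (nat_lit 14085) (nat_lit 6) (nat_lit 14))
    (@En.i (nat_lit 12783) (nat_lit 6) (nat_lit 7))
    (@En.n l12650 (nat_lit 13640) (nat_lit 8) (nat_lit 13))
    (@En.n l427 (nat_lit 13272) (nat_lit 8) (nat_lit 3))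
    (@En.n l561 (nat_lit 13416) (nat_lit 10) (nat_lit 9))
    (@En.n l3 (nat_lit 13277) (nat_lit 10) (nat_lit 2))
    (@En.n l1684 (nat_lit 13272) (nat_lit 12) (nat_lit 13))
    (@En.n l427 (nat_lit 12979) (nat_lit 13) (nat_lit 14))
    (@En.i (nat_lit 5921) (nat_lit 2) (nat_lit 9))
    (@En.n l17 (nat_lit 13277) (nat_lit 14) (nat_lit 2))
    (@En.n l18 (nat_lit 13277) (nat_lit 15) (nat_lit 2))))
  (@Cl.mk (nat_lit 0x200020008000e000e00020002000a000d000d0008000300030006000e000e) (nat_lit 0x340013900009a) (nat_lit 16) Lb.e (@T16.mk En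
    (@En.n l134 (nat_lit 13278) (nat_lit 1) (nat_lit 14))
    (@En.i (nat_lit 13274) (nat_lit 7) (nat_lit 14))
    (@En.n l476 (nat_lit 13280) (nat_lit 2) (nat_lit 6))
    (@En.n l152 (nat_lit 13280) (nat_lit 3) (nat_lit 3))
    (@En.n l1865 (nat_lit 13279) (nat_lit 4) (nat_lit 3))
    (@En.n l97 (nat_lit 13826) (nat_lit 5) (nat_lit 8))
    (@En.n l1867 (nat_lit 13279) (nat_lit 7) (nat_lit 13))
    (@En.n l5373 (nat_lit 14076) (nat_lit 8) (nat_lit 13))
    (@En.i (nat_lit 712) (nat_lit 9) (nat_lit 10))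
    (@En.n l17 (nat_lit 13278) (nat_lit 9) (nat_lit 2))
    (@En.n l18 (nat_lit 13278) (nat_lit 10) (nat_lit 2))
    (@En.n l5 (nat_lit 13278) (nat_lit 12) (nat_lit 14))
    (@En.n l649 (nat_lit 13471) (nat_lit 13) (nat_lit 14))
    (@En.i (nat_lit 13555) (nat_lit 2) (nat_lit 8))
    (@En.n l7 (nat_lit 13278) (nat_lit 14) (nat_lit 2))
    (@En.n l28 (nat_lit 13278) (nat_lit 15) (nat_lit 2))))
  (@Cl.mk (nat_lit 0x200020009000e000e00020002000a000d0007000e000300020006000e000e) (nat_lit 0x45002800000ab) (nat_lit 16) Lb.e (@T16.mk En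
    (@En.n l97 (nat_lit 13279) (nat_lit 1) (nat_lit 14))
    (@En.i (nat_lit 13273) (nat_lit 7) (nat_lit 14))
    (@En.n l3337 (nat_lit 13278) (nat_lit 2) (nat_lit 6))
    (@En.n l17 (nat_lit 13279) (nat_lit 3) (nat_lit 2))
    (@En.n l2869 (nat_lit 13278) (nat_lit 4) (nat_lit 3))
    (@En.i (nat_lit 13281) (nat_lit 6) (nat_lit 14))
    (@En.n l5592 (nat_lit 13820) (nat_lit 6) (nat_lit 7))
    (@En.n l2031 (nat_lit 14077) (nat_lit 8) (nat_lit 13))
    (@En.i (nat_lit 718) (nat_lit 9) (nat_lit 10))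
    (@En.n l7 (nat_lit 13279) (nat_lit 9) (nat_lit 2))
    (@En.n l28 (nat_lit 13279) (nat_lit 10) (nat_lit 2))
    (@En.n l134 (nat_lit 13279) (nat_lit 12) (nat_lit 14))
    (@En.i (nat_lit 13473) (nat_lit 13) (nat_lit 14))
    (@En.n l2036 (nat_lit 13554) (nat_lit 2) (nat_lit 9))
    (@En.n l107 (nat_lit 13279) (nat_lit 14) (nat_lit 2))
    (@En.n l3 (nat_lit 13279) (nat_lit 15) (nat_lit 2))))
noncomputable def a830 : T16 Cl := @T16.mk Cl
  (@Cl.mk (nat_lit 0x200020007000e000e00020002000a000e000d0002000900030006000e000e) (nat_lit 0x45002040000ab) (nat_lit 16) Lb.e (@T16.mk En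
    (@En.n l134 (nat_lit 13280) (nat_lit 1) (nat_lit 14))
    (@En.i (nat_lit 13276) (nat_lit 7) (nat_lit 14))
    (@En.n l2036 (nat_lit 13281) (nat_lit 2) (nat_lit 6))
    (@En.n l117 (nat_lit 13278) (nat_lit 3) (nat_lit 3))
    (@En.n l2034 (nat_lit 13827) (nat_lit 4) (nat_lit 9))
    (@En.n l3 (nat_lit 13280) (nat_lit 5) (nat_lit 2))
    (@En.i (nat_lit 13278) (nat_lit 7) (nat_lit 13))
    (@En.i (nat_lit 14068) (nat_lit 8) (nat_lit 14))
    (@En.n l2568 (nat_lit 717) (nat_lit 9) (nat_lit 10))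
    (@En.n l17 (nat_lit 13280) (nat_lit 9) (nat_lit 2))
    (@En.n l18 (nat_lit 13280) (nat_lit 10) (nat_lit 2))
    (@En.n l5 (nat_lit 13280) (nat_lit 12) (nat_lit 14))
    (@En.n l2573 (nat_lit 13472) (nat_lit 13) (nat_lit 14))
    (@En.i (nat_lit 13560) (nat_lit 2) (nat_lit 7))
    (@En.n l7 (nat_lit 13280) (nat_lit 14) (nat_lit 2))
    (@En.n l28 (nat_lit 13280) (nat_lit 15) (nat_lit 2))))
  (@Cl.mk (nat_lit 0x200020006000e000e00020002000a000e000e00020002000a0006000e000e) (nat_lit 0xc0000bc000012) (nat_lit 16) Lb.e (@T16.mk En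
    (@En.n l97 (nat_lit 13281) (nat_lit 1) (nat_lit 14))
    (@En.i (nat_lit 13280) (nat_lit 7) (nat_lit 14))
    (@En.n l1783 (nat_lit 13281) (nat_lit 13) (nat_lit 6))
    (@En.n l2031 (nat_lit 13819) (nat_lit 3) (nat_lit 10))
    (@En.n l17 (nat_lit 13281) (nat_lit 4) (nat_lit 2))
    (@En.n l18 (nat_lit 13281) (nat_lit 5) (nat_lit 2))
    (@En.n l5 (nat_lit 13281) (nat_lit 7) (nat_lit 14))
    (@En.n l2031 (nat_lit 14069) (nat_lit 8) (nat_lit 14))
    (@En.n l1997 (nat_lit 13815) (nat_lit 9) (nat_lit 10))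
    (@En.n l7 (nat_lit 13281) (nat_lit 9) (nat_lit 2))
    (@En.n l28 (nat_lit 13281) (nat_lit 10) (nat_lit 2))
    (@En.n l134 (nat_lit 13281) (nat_lit 12) (nat_lit 14))
    (@En.i (nat_lit 14065) (nat_lit 7) (nat_lit 14))
    (@En.n l2036 (nat_lit 13279) (nat_lit 2) (nat_lit 6))
    (@En.n l107 (nat_lit 13281) (nat_lit 14) (nat_lit 2))
    (@En.n l3 (nat_lit 13281) (nat_lit 15) (nat_lit 2))))
  (@Cl.mk (nat_lit 0x20002000b00070007000c000b0005000e00040002000500090009000e000e) (nat_lit 0x30047080005223) (nat_lit 16) Lb.e (@T16.mk En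
    (@En.n l97 (nat_lit 13282) (nat_lit 1) (nat_lit 14))
    (@En.i (nat_lit 3967) (nat_lit 12) (nat_lit 14))
    (@En.n l4793 (nat_lit 13261) (nat_lit 2) (nat_lit 9))
    (@En.n l4794 (nat_lit 13956) (nat_lit 3) (nat_lit 9))
    (@En.n l4795 (nat_lit 13247) (nat_lit 4) (nat_lit 5))
    (@En.n l50 (nat_lit 13282) (nat_lit 5) (nat_lit 2))
    (@En.n l4796 (nat_lit 13155) (nat_lit 6) (nat_lit 4))
    (@En.n l4797 (nat_lit 13283) (nat_lit 8) (nat_lit 14))
    (@En.n l4798 (nat_lit 12953) (nat_lit 8) (nat_lit 5))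
    (@En.n l764 (nat_lit 13153) (nat_lit 10) (nat_lit 11))
    (@En.n l4799 (nat_lit 13881) (nat_lit 11) (nat_lit 12))
    (@En.n l4800 (nat_lit 13200) (nat_lit 12) (nat_lit 7))
    (@En.n l4801 (nat_lit 13518) (nat_lit 13) (nat_lit 7))
    (@En.n l4802 (nat_lit 5193) (nat_lit 8) (nat_lit 11))
    (@En.n l107 (nat_lit 13282) (nat_lit 14) (nat_lit 2))
    (@En.n l3 (nat_lit 13282) (nat_lit 15) (nat_lit 2))))
  (@Cl.mk (nat_lit 0x20002000800070007000d000b000e000300020008000500090009000e000e) (nat_lit 0x20066700202323) (nat_lit 16) Lb.e (@T16.mk En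
    (@En.n l1578 (nat_lit 13283) (nat_lit 1) (nat_lit 14))
    (@En.i (nat_lit 3964) (nat_lit 11) (nat_lit 14))
    (@En.n l4758 (nat_lit 13263) (nat_lit 2) (nat_lit 9))
    (@En.i (nat_lit 13004) (nat_lit 3) (nat_lit 9))
    (@En.n l5994 (nat_lit 13282) (nat_lit 4) (nat_lit 5))
    (@En.n l12565 (nat_lit 13296) (nat_lit 5) (nat_lit 8))
    (@En.n l17 (nat_lit 13283) (nat_lit 6) (nat_lit 2))
    (@En.n l12566 (nat_lit 13284) (nat_lit 7) (nat_lit 3))
    (@En.n l6212 (nat_lit 14061) (nat_lit 9) (nat_lit 14))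
    (@En.n l12567 (nat_lit 13285) (nat_lit 10) (nat_lit 11))
    (@En.n l6212 (nat_lit 13882) (nat_lit 11) (nat_lit 13))
    (@En.n l12568 (nat_lit 13202) (nat_lit 12) (nat_lit 7))
    (@En.n l152 (nat_lit 13521) (nat_lit 13) (nat_lit 7))
    (@En.i (nat_lit 6061) (nat_lit 14) (nat_lit 8))
    (@En.n l28 (nat_lit 13283) (nat_lit 14) (nat_lit 2))
    (@En.n l11 (nat_lit 13283) (nat_lit 15) (nat_lit 2))))
  (@Cl.mk (nat_lit 0x20002000800070007000d000d000c000300030008000400090009000e000e) (nat_lit 0x100577000023ab) (nat_lit 16) Lb.e (@T16.mk En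
    (@En.n l5 (nat_lit 13284) (nat_lit 1) (nat_lit 14))
    (@En.n l420 (nat_lit 3965) (nat_lit 1) (nat_lit 14))
    (@En.n l2110 (nat_lit 13262) (nat_lit 2) (nat_lit 9))
    (@En.n l26315 (nat_lit 13005) (nat_lit 3) (nat_lit 9))
    (@En.i (nat_lit 13155) (nat_lit 4) (nat_lit 4))
    (@En.n l24814 (nat_lit 13297) (nat_lit 5) (nat_lit 8))
    (@En.n l152 (nat_lit 13286) (nat_lit 6) (nat_lit 3))
    (@En.n l26316 (nat_lit 13283) (nat_lit 7) (nat_lit 3))
    (@En.n l619 (nat_lit 13287) (nat_lit 9) (nat_lit 12))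
    (@En.n l26317 (nat_lit 13283) (nat_lit 10) (nat_lit 13))
    (@En.n l24814 (nat_lit 13337) (nat_lit 11) (nat_lit 13))
    (@En.n l77 (nat_lit 13203) (nat_lit 12) (nat_lit 7))
    (@En.i (nat_lit 13519) (nat_lit 13) (nat_lit 7))
    (@En.n l2140 (nat_lit 5847) (nat_lit 14) (nat_lit 8))
    (@En.n l17 (nat_lit 13284) (nat_lit 14) (nat_lit 2))
    (@En.n l18 (nat_lit 13284) (nat_lit 15) (nat_lit 2))))
  (@Cl.mk (nat_lit 0x20002000900070007000b000e000c000200070005000400090009000e000e) (nat_lit 0x10055600003423) (nat_lit 16) Lb.e (@T16.mk En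
    (@En.n l5 (nat_lit 13285) (nat_lit 1) (nat_lit 14))
    (@En.n l420 (nat_lit 3966) (nat_lit 10) (nat_lit 14))
    (@En.n l2110 (nat_lit 13255) (nat_lit 2) (nat_lit 9))
    (@En.n l8402 (nat_lit 13838) (nat_lit 3) (nat_lit 9))
    (@En.i (nat_lit 13284) (nat_lit 4) (nat_lit 4))
    (@En.n l4535 (nat_lit 13153) (nat_lit 5) (nat_lit 5))
    (@En.n l12638 (nat_lit 13298) (nat_lit 6) (nat_lit 7))
    (@En.n l67 (nat_lit 13285) (nat_lit 7) (nat_lit 2))
    (@En.n l68 (nat_lit 13155) (nat_lit 9) (nat_lit 12))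
    (@En.n l7200 (nat_lit 13249) (nat_lit 10) (nat_lit 14))
    (@En.n l12564 (nat_lit 13844) (nat_lit 11) (nat_lit 11))
    (@En.n l77 (nat_lit 13204) (nat_lit 12) (nat_lit 7))
    (@En.i (nat_lit 13517) (nat_lit 13) (nat_lit 7))
    (@En.n l2140 (nat_lit 4761) (nat_lit 5) (nat_lit 9))
    (@En.n l17 (nat_lit 13285) (nat_lit 14) (nat_lit 2))
    (@En.n l18 (nat_lit 13285) (nat_lit 15) (nat_lit 2))))
  (@Cl.mk (nat_lit 0x20002000800070007000e000d0002000d00030008000300090009000e000e) (nat_lit 0x200a60100023ab) (nat_lit 16) Lb.e (@T16.mk En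
    (@En.n l5 (nat_lit 13286) (nat_lit 1) (nat_lit 14))
    (@En.n l420 (nat_lit 4001) (nat_lit 1) (nat_lit 14))
    (@En.n l2110 (nat_lit 13288) (nat_lit 2) (nat_lit 9))
    (@En.n l7557 (nat_lit 13008) (nat_lit 3) (nat_lit 9))
    (@En.i (nat_lit 13287) (nat_lit 4) (nat_lit 3))
    (@En.i (nat_lit 13772) (nat_lit 5) (nat_lit 8))
    (@En.n l117 (nat_lit 13284) (nat_lit 6) (nat_lit 3))
    (@En.i (nat_lit 714) (nat_lit 8) (nat_lit 13))
    (@En.n l3 (nat_lit 13286) (nat_lit 8) (nat_lit 2))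
    (@En.i (nat_lit 13284) (nat_lit 10) (nat_lit 13))
    (@En.n l420 (nat_lit 13294) (nat_lit 11) (nat_lit 14))
    (@En.n l77 (nat_lit 13290) (nat_lit 12) (nat_lit 7))
    (@En.i (nat_lit 13520) (nat_lit 13) (nat_lit 7))
    (@En.n l2140 (nat_lit 5974) (nat_lit 14) (nat_lit 8))
    (@En.n l17 (nat_lit 13286) (nat_lit 14) (nat_lit 2))
    (@En.n l18 (nat_lit 13286) (nat_lit 15) (nat_lit 2))))
  (@Cl.mk (nat_lit 0x20002000900070007000e000c0002000d00070004000300090009000e000e) (nat_lit 0x200c60200034ab) (nat_lit 16) Lb.e (@T16.mk En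
    (@En.n l5 (nat_lit 13287) (nat_lit 1) (nat_lit 14))
    (@En.n l420 (nat_lit 4000) (nat_lit 1) (nat_lit 14))
    (@En.n l2110 (nat_lit 13289) (nat_lit 2) (nat_lit 9))
    (@En.n l6295 (nat_lit 13324) (nat_lit 3) (nat_lit 9))
    (@En.n l11 (nat_lit 13286) (nat_lit 4) (nat_lit 3))
    (@En.n l14460 (nat_lit 13154) (nat_lit 5) (nat_lit 4))
    (@En.n l4433 (nat_lit 12950) (nat_lit 6) (nat_lit 7))
    (@En.n l1571 (nat_lit 716) (nat_lit 8) (nat_lit 13))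
    (@En.n l3 (nat_lit 13287) (nat_lit 8) (nat_lit 2))
    (@En.i (nat_lit 13155) (nat_lit 10) (nat_lit 12))
    (@En.n l420 (nat_lit 13295) (nat_lit 11) (nat_lit 14))
    (@En.n l77 (nat_lit 13291) (nat_lit 12) (nat_lit 7))
    (@En.i (nat_lit 13504) (nat_lit 13) (nat_lit 7))
    (@En.n l2140 (nat_lit 4638) (nat_lit 14) (nat_lit 9))
    (@En.n l17 (nat_lit 13287) (nat_lit 14) (nat_lit 2))
    (@En.n l18 (nat_lit 13287) (nat_lit 15) (nat_lit 2))))
  (@Cl.mk (nat_lit 0x200020007000e00070002000e000d0002000d0003000900030009000e000e) (nat_lit 0x400a80206029a) (nat_lit 16) Lb.e (@T16.mk En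
    (@En.n l601 (nat_lit 13288) (nat_lit 1) (nat_lit 14))
    (@En.i (nat_lit 1215) (nat_lit 1) (nat_lit 14))
    (@En.i (nat_lit 13804) (nat_lit 2) (nat_lit 9))
    (@En.i (nat_lit 13289) (nat_lit 3) (nat_lit 3))
    (@En.i (nat_lit 13755) (nat_lit 4) (nat_lit 9))
    (@En.n l117 (nat_lit 13262) (nat_lit 5) (nat_lit 3))
    (@En.i (nat_lit 717) (nat_lit 7) (nat_lit 13))
    (@En.n l3 (nat_lit 13288) (nat_lit 7) (nat_lit 2))
    (@En.i (nat_lit 13262) (nat_lit 9) (nat_lit 13))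
    (@En.i (nat_lit 13292) (nat_lit 10) (nat_lit 14))
    (@En.n l17 (nat_lit 13288) (nat_lit 10) (nat_lit 2))
    (@En.n l5553 (nat_lit 13286) (nat_lit 12) (nat_lit 7))
    (@En.i (nat_lit 253) (nat_lit 13) (nat_lit 14))
    (@En.i (nat_lit 5899) (nat_lit 14) (nat_lit 7))
    (@En.n l50 (nat_lit 13288) (nat_lit 14) (nat_lit 2))
    (@En.n l7 (nat_lit 13288) (nat_lit 15) (nat_lit 2))))
  (@Cl.mk (nat_lit 0x200020008000e00070002000e000c0002000d0008000400030009000e000e) (nat_lit 0x2400c80130039a) (nat_lit 16) Lb.e (@T16.mk En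
    (@En.n l601 (nat_lit 13289) (nat_lit 1) (nat_lit 14))
    (@En.i (nat_lit 1214) (nat_lit 1) (nat_lit 14))
    (@En.n l287 (nat_lit 13801) (nat_lit 2) (nat_lit 9))
    (@En.n l11 (nat_lit 13288) (nat_lit 3) (nat_lit 3))
    (@En.i (nat_lit 13352) (nat_lit 4) (nat_lit 4))
    (@En.i (nat_lit 12959) (nat_lit 5) (nat_lit 8))
    (@En.n l615 (nat_lit 712) (nat_lit 7) (nat_lit 13))
    (@En.n l3 (nat_lit 13289) (nat_lit 7) (nat_lit 2))
    (@En.i (nat_lit 13260) (nat_lit 9) (nat_lit 12))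
    (@En.i (nat_lit 13293) (nat_lit 10) (nat_lit 14))
    (@En.n l17 (nat_lit 13289) (nat_lit 10) (nat_lit 2))
    (@En.n l5553 (nat_lit 13287) (nat_lit 12) (nat_lit 7))
    (@En.n l678 (nat_lit 258) (nat_lit 13) (nat_lit 14))
    (@En.i (nat_lit 6016) (nat_lit 14) (nat_lit 8))
    (@En.n l50 (nat_lit 13289) (nat_lit 14) (nat_lit 2))
    (@En.n l7 (nat_lit 13289) (nat_lit 15) (nat_lit 2))))
  (@Cl.mk (nat_lit 0x2000200090007000e000d0002000d000300070003000e00090002000e000e) (nat_lit 0x10a602000a3034) (nat_lit 16) Lb.e (@T16.mk En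
    (@En.n l5 (nat_lit 13290) (nat_lit 1) (nat_lit 14))
    (@En.n l420 (nat_lit 3894) (nat_lit 1) (nat_lit 14))
    (@En.n l7 (nat_lit 13290) (nat_lit 2) (nat_lit 2))
    (@En.i (nat_lit 13286) (nat_lit 3) (nat_lit 9))
    (@En.i (nat_lit 12783) (nat_lit 5) (nat_lit 14))
    (@En.i (nat_lit 13291) (nat_lit 5) (nat_lit 3))
    (@En.i (nat_lit 13767) (nat_lit 6) (nat_lit 7))
    (@En.n l117 (nat_lit 13203) (nat_lit 7) (nat_lit 3))
    (@En.i (nat_lit 720) (nat_lit 9) (nat_lit 13))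
    (@En.n l3 (nat_lit 13290) (nat_lit 9) (nat_lit 2))
    (@En.i (nat_lit 13203) (nat_lit 11) (nat_lit 13))
    (@En.i (nat_lit 12885) (nat_lit 12) (nat_lit 14))
    (@En.i (nat_lit 13430) (nat_lit 13) (nat_lit 7))
    (@En.n l1529 (nat_lit 5845) (nat_lit 14) (nat_lit 9))
    (@En.n l17 (nat_lit 13290) (nat_lit 14) (nat_lit 2))
    (@En.n l18 (nat_lit 13290) (nat_lit 15) (nat_lit 2))))
  (@Cl.mk (nat_lit 0x20002000a0007000e000c0002000d000600040003000e00090002000e000e) (nat_lit 0x20c601000a4034) (nat_lit 16) Lb.e (@T16.mk En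
    (@En.n l5 (nat_lit 13291) (nat_lit 1) (nat_lit 14))
    (@En.n l420 (nat_lit 3803) (nat_lit 1) (nat_lit 14))
    (@En.n l7 (nat_lit 13291) (nat_lit 2) (nat_lit 2))
    (@En.i (nat_lit 13287) (nat_lit 3) (nat_lit 9))
    (@En.n l287 (nat_lit 14018) (nat_lit 5) (nat_lit 14))
    (@En.n l11 (nat_lit 13290) (nat_lit 5) (nat_lit 3))
    (@En.n l12354 (nat_lit 13210) (nat_lit 6) (nat_lit 4))
    (@En.i (nat_lit 13408) (nat_lit 7) (nat_lit 6))
    (@En.i (nat_lit 715) (nat_lit 9) (nat_lit 13))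
    (@En.n l3 (nat_lit 13291) (nat_lit 9) (nat_lit 2))
    (@En.i (nat_lit 13201) (nat_lit 11) (nat_lit 12))
    (@En.n l1847 (nat_lit 13030) (nat_lit 12) (nat_lit 14))
    (@En.i (nat_lit 13432) (nat_lit 13) (nat_lit 7))
    (@En.n l10261 (nat_lit 4635) (nat_lit 14) (nat_lit 10))
    (@En.n l17 (nat_lit 13291) (nat_lit 14) (nat_lit 2))
    (@En.n l18 (nat_lit 13291) (nat_lit 15) (nat_lit 2))))
  (@Cl.mk (nat_lit 0x200020007000b0007000e000c00020005000d0004000900030009000e000e) (nat_lit 0x4095002010212) (nat_lit 16) Lb.e (@T16.mk En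
    (@En.n l601 (nat_lit 13292) (nat_lit 1) (nat_lit 14))
    (@En.i (nat_lit 4002) (nat_lit 9) (nat_lit 14))
    (@En.i (nat_lit 13805) (nat_lit 2) (nat_lit 9))
    (@En.i (nat_lit 13293) (nat_lit 3) (nat_lit 3))
    (@En.i (nat_lit 13014) (nat_lit 4) (nat_lit 9))
    (@En.n l117 (nat_lit 14036) (nat_lit 5) (nat_lit 4))
    (@En.n l5552 (nat_lit 13286) (nat_lit 7) (nat_lit 13))
    (@En.i (nat_lit 13265) (nat_lit 7) (nat_lit 5))
    (@En.n l3 (nat_lit 13292) (nat_lit 8) (nat_lit 2))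
    (@En.i (nat_lit 13334) (nat_lit 10) (nat_lit 12))
    (@En.i (nat_lit 13327) (nat_lit 11) (nat_lit 14))
    (@En.n l1723 (nat_lit 13294) (nat_lit 12) (nat_lit 7))
    (@En.i (nat_lit 14101) (nat_lit 13) (nat_lit 11))
    (@En.i (nat_lit 5984) (nat_lit 4) (nat_lit 7))
    (@En.n l50 (nat_lit 13292) (nat_lit 14) (nat_lit 2))
    (@En.n l7 (nat_lit 13292) (nat_lit 15) (nat_lit 2))))
  (@Cl.mk (nat_lit 0x200020008000b0007000e000b00020005000d0008000500030009000e000e) (nat_lit 0x220b7003400312) (nat_lit 16) Lb.e (@T16.mk En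
    (@En.n l601 (nat_lit 13293) (nat_lit 1) (nat_lit 14))
    (@En.i (nat_lit 4003) (nat_lit 9) (nat_lit 14))
    (@En.n l287 (nat_lit 13596) (nat_lit 2) (nat_lit 9))
    (@En.n l11 (nat_lit 13292) (nat_lit 3) (nat_lit 3))
    (@En.n l12686 (nat_lit 13356) (nat_lit 4) (nat_lit 5))
    (@En.i (nat_lit 13324) (nat_lit 5) (nat_lit 8))
    (@En.n l5552 (nat_lit 13287) (nat_lit 7) (nat_lit 13))
    (@En.i (nat_lit 13266) (nat_lit 7) (nat_lit 5))
    (@En.n l3 (nat_lit 13293) (nat_lit 8) (nat_lit 2))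
    (@En.i (nat_lit 13333) (nat_lit 10) (nat_lit 11))
    (@En.i (nat_lit 13326) (nat_lit 11) (nat_lit 14))
    (@En.n l1723 (nat_lit 13295) (nat_lit 12) (nat_lit 7))
    (@En.n l711 (nat_lit 13595) (nat_lit 13) (nat_lit 11))
    (@En.i (nat_lit 5277) (nat_lit 4) (nat_lit 8))
    (@En.n l50 (nat_lit 13293) (nat_lit 14) (nat_lit 2))
    (@En.n l7 (nat_lit 13293) (nat_lit 15) (nat_lit 2))))
  (@Cl.mk (nat_lit 0x2000200080007000e000c0002000a000d00040008000300090006000e000e) (nat_lit 0x209508300020bc) (nat_lit 16) Lb.e (@T16.mk En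
    (@En.n l396 (nat_lit 13294) (nat_lit 1) (nat_lit 14))
    (@En.i (nat_lit 7023) (nat_lit 8) (nat_lit 14))
    (@En.n l890 (nat_lit 13327) (nat_lit 2) (nat_lit 6))
    (@En.n l2650 (nat_lit 13744) (nat_lit 3) (nat_lit 9))
    (@En.i (nat_lit 13295) (nat_lit 4) (nat_lit 3))
    (@En.i (nat_lit 13694) (nat_lit 5) (nat_lit 8))
    (@En.n l24857 (nat_lit 13337) (nat_lit 6) (nat_lit 4))
    (@En.n l387 (nat_lit 13290) (nat_lit 8) (nat_lit 13))
    (@En.n l699 (nat_lit 13628) (nat_lit 9) (nat_lit 10))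
    (@En.n l3 (nat_lit 13294) (nat_lit 9) (nat_lit 2))
    (@En.n l387 (nat_lit 13332) (nat_lit 11) (nat_lit 12))
    (@En.i (nat_lit 12882) (nat_lit 12) (nat_lit 14))
    (@En.i (nat_lit 13837) (nat_lit 13) (nat_lit 7))
    (@En.n l4316 (nat_lit 5978) (nat_lit 14) (nat_lit 8))
    (@En.n l18 (nat_lit 13294) (nat_lit 14) (nat_lit 2))
    (@En.n l50 (nat_lit 13294) (nat_lit 15) (nat_lit 2))))
  (@Cl.mk (nat_lit 0x2000200090007000e000b0002000a000d00070005000300090006000e000e) (nat_lit 0x20b60820003045) (nat_lit 16) Lb.e (@T16.mk En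
    (@En.n l396 (nat_lit 13295) (nat_lit 1) (nat_lit 14))
    (@En.i (nat_lit 7019) (nat_lit 8) (nat_lit 14))
    (@En.n l890 (nat_lit 13326) (nat_lit 2) (nat_lit 6))
    (@En.n l9830 (nat_lit 13325) (nat_lit 3) (nat_lit 9))
    (@En.n l11 (nat_lit 13294) (nat_lit 4) (nat_lit 3))
    (@En.n l23788 (nat_lit 13361) (nat_lit 5) (nat_lit 5))
    (@En.n l1115 (nat_lit 13336) (nat_lit 6) (nat_lit 7))
    (@En.n l387 (nat_lit 13291) (nat_lit 8) (nat_lit 13))
    (@En.n l699 (nat_lit 13622) (nat_lit 9) (nat_lit 10))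
    (@En.n l3 (nat_lit 13295) (nat_lit 9) (nat_lit 2))
    (@En.n l23789 (nat_lit 13331) (nat_lit 11) (nat_lit 11))
    (@En.n l4583 (nat_lit 13028) (nat_lit 12) (nat_lit 14))
    (@En.i (nat_lit 13836) (nat_lit 13) (nat_lit 7))
    (@En.n l4316 (nat_lit 4641) (nat_lit 14) (nat_lit 9))
    (@En.n l18 (nat_lit 13295) (nat_lit 14) (nat_lit 2))
    (@En.n l50 (nat_lit 13295) (nat_lit 15) (nat_lit 2))))
noncomputable def a831 : T16 Cl := @T16.mk Cl
  (@Cl.mk (nat_lit 0x200020008000b00080008000d000c000500030008000400080008000e000e) (nat_lit 0x24566800101523) (nat_lit 16) Lb.e (@T16.mk En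
    (@En.n l601 (nat_lit 13296) (nat_lit 1) (nat_lit 14))
    (@En.n l9943 (nat_lit 3969) (nat_lit 1) (nat_lit 14))
    (@En.n l61 (nat_lit 13264) (nat_lit 2) (nat_lit 8))
    (@En.n l13804 (nat_lit 12873) (nat_lit 3) (nat_lit 8))
    (@En.n l4658 (nat_lit 13236) (nat_lit 4) (nat_lit 4))
    (@En.n l5551 (nat_lit 13225) (nat_lit 5) (nat_lit 8))
    (@En.n l13805 (nat_lit 13297) (nat_lit 6) (nat_lit 3))
    (@En.n l13806 (nat_lit 12965) (nat_lit 7) (nat_lit 5))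
    (@En.n l13807 (nat_lit 13298) (nat_lit 9) (nat_lit 12))
    (@En.n l3395 (nat_lit 13308) (nat_lit 10) (nat_lit 13))
    (@En.n l13808 (nat_lit 13300) (nat_lit 11) (nat_lit 8))
    (@En.n l5553 (nat_lit 13629) (nat_lit 12) (nat_lit 8))
    (@En.n l13809 (nat_lit 13282) (nat_lit 13) (nat_lit 11))
    (@En.i (nat_lit 7562) (nat_lit 14) (nat_lit 8))
    (@En.n l50 (nat_lit 13296) (nat_lit 14) (nat_lit 2))
    (@En.n l7 (nat_lit 13296) (nat_lit 15) (nat_lit 2))))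
  (@Cl.mk (nat_lit 0x200020008000c00080008000d0004000d00030008000300080008000e000e) (nat_lit 0x24556090601423) (nat_lit 16) Lb.e (@T16.mk En
    (@En.n l5 (nat_lit 13297) (nat_lit 1) (nat_lit 14))
    (@En.n l11929 (nat_lit 4350) (nat_lit 1) (nat_lit 14))
    (@En.n l4589 (nat_lit 13265) (nat_lit 2) (nat_lit 8))
    (@En.n l253 (nat_lit 12874) (nat_lit 3) (nat_lit 8))
    (@En.n l485 (nat_lit 13298) (nat_lit 4) (nat_lit 3))
    (@En.n l8995 (nat_lit 13757) (nat_lit 5) (nat_lit 8))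
    (@En.n l591 (nat_lit 13296) (nat_lit 6) (nat_lit 3))
    (@En.n l13450 (nat_lit 12950) (nat_lit 8) (nat_lit 13))
    (@En.n l26875 (nat_lit 13225) (nat_lit 8) (nat_lit 4))
    (@En.i (nat_lit 13307) (nat_lit 10) (nat_lit 13))
    (@En.n l1504 (nat_lit 13299) (nat_lit 11) (nat_lit 8))
    (@En.n l26451 (nat_lit 13628) (nat_lit 12) (nat_lit 8))
    (@En.n l4455 (nat_lit 13151) (nat_lit 13) (nat_lit 12))
    (@En.n l4592 (nat_lit 7559) (nat_lit 14) (nat_lit 8))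
    (@En.n l17 (nat_lit 13297) (nat_lit 14) (nat_lit 2))
    (@En.n l18 (nat_lit 13297) (nat_lit 15) (nat_lit 2))))
  (@Cl.mk (nat_lit 0x200020009000c00080008000c0004000d00070004000300080008000e000e) (nat_lit 0x14567090002123) (nat_lit 16) Lb.e (@T16.mk En
    (@En.n l5 (nat_lit 13298) (nat_lit 1) (nat_lit 14))
    (@En.n l12672 (nat_lit 4351) (nat_lit 1) (nat_lit 14))
    (@En.n l12876 (nat_lit 13266) (nat_lit 2) (nat_lit 8))
    (@En.n l26396 (nat_lit 13789) (nat_lit 3) (nat_lit 8))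
    (@En.n l4950 (nat_lit 13297) (nat_lit 4) (nat_lit 3))
    (@En.i (nat_lit 13239) (nat_lit 5) (nat_lit 4))
    (@En.n l26397 (nat_lit 13223) (nat_lit 6) (nat_lit 7))
    (@En.n l26398 (nat_lit 12951) (nat_lit 8) (nat_lit 13))
    (@En.n l26399 (nat_lit 13224) (nat_lit 8) (nat_lit 4))
    (@En.i (nat_lit 13303) (nat_lit 10) (nat_lit 12))
    (@En.n l26400 (nat_lit 13301) (nat_lit 11) (nat_lit 8))
    (@En.n l26401 (nat_lit 13622) (nat_lit 12) (nat_lit 8))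
    (@En.n l1791 (nat_lit 13153) (nat_lit 13) (nat_lit 12))
    (@En.n l5098 (nat_lit 7568) (nat_lit 14) (nat_lit 9))
    (@En.n l17 (nat_lit 13298) (nat_lit 14) (nat_lit 2))
    (@En.n l18 (nat_lit 13298) (nat_lit 15) (nat_lit 2))))
  (@Cl.mk (nat_lit 0x200020009000d0008000d0003000d000300070003000e00080002000e000e) (nat_lit 0x33450800052012) (nat_lit 16) Lb.e (@T16.mk En
    (@En.n l5 (nat_lit 13299) (nat_lit 1) (nat_lit 14))
    (@En.n l8910 (nat_lit 2331) (nat_lit 1) (nat_lit 14))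
    (@En.n l7 (nat_lit 13299) (nat_lit 2) (nat_lit 2))
    (@En.n l1599 (nat_lit 13297) (nat_lit 3) (nat_lit 8))
    (@En.n l27307 (nat_lit 13598) (nat_lit 5) (nat_lit 14))
    (@En.i (nat_lit 13301) (nat_lit 5) (nat_lit 3))
    (@En.i (nat_lit 13765) (nat_lit 6) (nat_lit 7))
    (@En.n l117 (nat_lit 13300) (nat_lit 7) (nat_lit 3))
    (@En.n l182 (nat_lit 13408) (nat_lit 9) (nat_lit 13))
    (@En.n l18866 (nat_lit 13181) (nat_lit 9) (nat_lit 3))
    (@En.i (nat_lit 13423) (nat_lit 11) (nat_lit 13))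
    (@En.n l11967 (nat_lit 13302) (nat_lit 12) (nat_lit 8))
    (@En.n l27308 (nat_lit 13205) (nat_lit 13) (nat_lit 13))
    (@En.i (nat_lit 5368) (nat_lit 14) (nat_lit 9))
    (@En.n l17 (nat_lit 13299) (nat_lit 14) (nat_lit 2))
    (@En.n l18 (nat_lit 13299) (nat_lit 15) (nat_lit 2))))
  (@Cl.mk (nat_lit 0x200020009000c0008000d000c0004000300070004000e00080002000e000e) (nat_lit 0x245570000c2012) (nat_lit 16) Lb.e (@T16.mk En
    (@En.n l5 (nat_lit 13300) (nat_lit 1) (nat_lit 14))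
    (@En.n l420 (nat_lit 2660) (nat_lit 1) (nat_lit 14))
    (@En.n l7 (nat_lit 13300) (nat_lit 2) (nat_lit 2))
    (@En.n l12632 (nat_lit 13296) (nat_lit 3) (nat_lit 8))
    (@En.n l1684 (nat_lit 13601) (nat_lit 5) (nat_lit 14))
    (@En.n l551 (nat_lit 13241) (nat_lit 5) (nat_lit 4))
    (@En.n l10596 (nat_lit 13181) (nat_lit 6) (nat_lit 7))
    (@En.n l152 (nat_lit 13299) (nat_lit 7) (nat_lit 3))
    (@En.n l1362 (nat_lit 12971) (nat_lit 8) (nat_lit 4))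
    (@En.n l619 (nat_lit 13301) (nat_lit 10) (nat_lit 12))
    (@En.i (nat_lit 13424) (nat_lit 11) (nat_lit 13))
    (@En.n l18537 (nat_lit 13304) (nat_lit 12) (nat_lit 8))
    (@En.n l1684 (nat_lit 13200) (nat_lit 13) (nat_lit 12))
    (@En.i (nat_lit 5370) (nat_lit 14) (nat_lit 9))
    (@En.n l17 (nat_lit 13300) (nat_lit 14) (nat_lit 2))
    (@En.n l18 (nat_lit 13300) (nat_lit 15) (nat_lit 2))))
  (@Cl.mk (nat_lit 0x20002000a000d0008000c0003000d000600040003000e00080002000e000e) (nat_lit 0x335608000b3012) (nat_lit 16) Lb.e (@T16.mk En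
    (@En.n l5 (nat_lit 13301) (nat_lit 1) (nat_lit 14))
    (@En.n l4372 (nat_lit 2327) (nat_lit 1) (nat_lit 14))
    (@En.n l7 (nat_lit 13301) (nat_lit 2) (nat_lit 2))
    (@En.n l25411 (nat_lit 13298) (nat_lit 3) (nat_lit 8))
    (@En.n l561 (nat_lit 13545) (nat_lit 5) (nat_lit 14))
    (@En.n l11 (nat_lit 13299) (nat_lit 5) (nat_lit 3))
    (@En.n l4147 (nat_lit 13243) (nat_lit 6) (nat_lit 4))
    (@En.i (nat_lit 13180) (nat_lit 7) (nat_lit 6))
    (@En.n l561 (nat_lit 12954) (nat_lit 9) (nat_lit 13))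
    (@En.n l18866 (nat_lit 13177) (nat_lit 9) (nat_lit 3))
    (@En.i (nat_lit 13036) (nat_lit 11) (nat_lit 12))
    (@En.n l551 (nat_lit 13305) (nat_lit 12) (nat_lit 8))
    (@En.n l2813 (nat_lit 13206) (nat_lit 13) (nat_lit 13))
    (@En.n l238 (nat_lit 6454) (nat_lit 14) (nat_lit 10))
    (@En.n l17 (nat_lit 13301) (nat_lit 14) (nat_lit 2))
    (@En.n l18 (nat_lit 13301) (nat_lit 15) (nat_lit 2))))
  (@Cl.mk (nat_lit 0x20002000a0008000d0009000d000300060003000d000800070003000e000e) (nat_lit 0x33357000b30034) (nat_lit 16) Lb.e (@T16.mk En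
    (@En.n l5 (nat_lit 13302) (nat_lit 1) (nat_lit 14))
    (@En.n l13398 (nat_lit 4499) (nat_lit 1) (nat_lit 14))
    (@En.i (nat_lit 13859) (nat_lit 2) (nat_lit 3))
    (@En.n l25622 (nat_lit 13181) (nat_lit 3) (nat_lit 7))
    (@En.i (nat_lit 13628) (nat_lit 4) (nat_lit 8))
    (@En.i (nat_lit 13633) (nat_lit 6) (nat_lit 13))
    (@En.n l4734 (nat_lit 13305) (nat_lit 6) (nat_lit 3))
    (@En.n l12343 (nat_lit 13711) (nat_lit 7) (nat_lit 6))
    (@En.n l25623 (nat_lit 13304) (nat_lit 8) (nat_lit 3))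
    (@En.n l625 (nat_lit 13037) (nat_lit 10) (nat_lit 13))
    (@En.n l3116 (nat_lit 13643) (nat_lit 11) (nat_lit 9))
    (@En.n l4734 (nat_lit 13303) (nat_lit 12) (nat_lit 13))
    (@En.i (nat_lit 13307) (nat_lit 13) (nat_lit 8))
    (@En.i (nat_lit 5414) (nat_lit 14) (nat_lit 10))
    (@En.n l17 (nat_lit 13302) (nat_lit 14) (nat_lit 2))
    (@En.n l18 (nat_lit 13302) (nat_lit 15) (nat_lit 2))))
  (@Cl.mk (nat_lit 0x20002000a000d0008000c0003000c00060004000d000400080003000e000e) (nat_lit 0x22460600a030bc) (nat_lit 16) Lb.e (@T16.mk En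
    (@En.n l5 (nat_lit 13303) (nat_lit 1) (nat_lit 14))
    (@En.n l11943 (nat_lit 4492) (nat_lit 1) (nat_lit 14))
    (@En.n l31 (nat_lit 13855) (nat_lit 2) (nat_lit 3))
    (@En.n l4939 (nat_lit 13300) (nat_lit 3) (nat_lit 8))
    (@En.n l31 (nat_lit 14017) (nat_lit 4) (nat_lit 4))
    (@En.n l1791 (nat_lit 13634) (nat_lit 6) (nat_lit 13))
    (@En.i (nat_lit 13311) (nat_lit 6) (nat_lit 4))
    (@En.n l31 (nat_lit 13302) (nat_lit 7) (nat_lit 6))
    (@En.n l4939 (nat_lit 13869) (nat_lit 9) (nat_lit 12))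
    (@En.n l67 (nat_lit 13306) (nat_lit 9) (nat_lit 3))
    (@En.n l1440 (nat_lit 13033) (nat_lit 11) (nat_lit 12))
    (@En.i (nat_lit 14012) (nat_lit 12) (nat_lit 8))
    (@En.n l1791 (nat_lit 13848) (nat_lit 13) (nat_lit 13))
    (@En.n l4939 (nat_lit 5361) (nat_lit 14) (nat_lit 10))
    (@En.n l17 (nat_lit 13303) (nat_lit 14) (nat_lit 2))
    (@En.n l18 (nat_lit 13303) (nat_lit 15) (nat_lit 2))))
  (@Cl.mk (nat_lit 0x20002000a0008000d000c000a000300060004000d000800060003000e000e) (nat_lit 0x24566000430034) (nat_lit 16) Lb.e (@T16.mk En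
    (@En.n l5 (nat_lit 13304) (nat_lit 1) (nat_lit 14))
    (@En.n l8362 (nat_lit 4498) (nat_lit 1) (nat_lit 14))
    (@En.n l4530 (nat_lit 13866) (nat_lit 2) (nat_lit 3))
    (@En.n l3531 (nat_lit 12968) (nat_lit 3) (nat_lit 6))
    (@En.n l11968 (nat_lit 13629) (nat_lit 4) (nat_lit 8))
    (@En.n l11969 (nat_lit 13632) (nat_lit 6) (nat_lit 13))
    (@En.i (nat_lit 13870) (nat_lit 6) (nat_lit 4))
    (@En.n l11970 (nat_lit 13642) (nat_lit 7) (nat_lit 6))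
    (@En.n l11971 (nat_lit 13302) (nat_lit 8) (nat_lit 3))
    (@En.n l11972 (nat_lit 13097) (nat_lit 10) (nat_lit 10))
    (@En.n l68 (nat_lit 13305) (nat_lit 11) (nat_lit 12))
    (@En.i (nat_lit 13306) (nat_lit 12) (nat_lit 13))
    (@En.n l11968 (nat_lit 13309) (nat_lit 13) (nat_lit 8))
    (@En.n l3531 (nat_lit 1745) (nat_lit 14) (nat_lit 10))
    (@En.n l17 (nat_lit 13304) (nat_lit 14) (nat_lit 2))
    (@En.n l18 (nat_lit 13304) (nat_lit 15) (nat_lit 2))))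
  (@Cl.mk (nat_lit 0x20002000b0008000c0009000d000500040003000d000800070003000e000e) (nat_lit 0x14555000a40034) (nat_lit 16) Lb.e (@T16.mk En
    (@En.n l5 (nat_lit 13305) (nat_lit 1) (nat_lit 14))
    (@En.n l4559 (nat_lit 6241) (nat_lit 1) (nat_lit 14))
    (@En.n l11971 (nat_lit 13863) (nat_lit 2) (nat_lit 3))
    (@En.n l187 (nat_lit 13177) (nat_lit 3) (nat_lit 7))
    (@En.n l11971 (nat_lit 13622) (nat_lit 4) (nat_lit 8))
    (@En.n l5377 (nat_lit 13975) (nat_lit 6) (nat_lit 13))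
    (@En.n l12414 (nat_lit 13302) (nat_lit 6) (nat_lit 3))
    (@En.n l152 (nat_lit 13486) (nat_lit 7) (nat_lit 4))
    (@En.n l1992 (nat_lit 13986) (nat_lit 8) (nat_lit 5))
    (@En.n l4559 (nat_lit 13040) (nat_lit 10) (nat_lit 13))
    (@En.i (nat_lit 13982) (nat_lit 11) (nat_lit 9))
    (@En.i (nat_lit 13311) (nat_lit 12) (nat_lit 12))
    (@En.n l11971 (nat_lit 13308) (nat_lit 13) (nat_lit 8))
    (@En.i (nat_lit 5096) (nat_lit 14) (nat_lit 11))
    (@En.n l17 (nat_lit 13305) (nat_lit 14) (nat_lit 2))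
    (@En.n l18 (nat_lit 13305) (nat_lit 15) (nat_lit 2))))
  (@Cl.mk (nat_lit 0x20002000a000d000b00090003000c00060005000d000400070003000e000e) (nat_lit 0x24540700900056) (nat_lit 16) Lb.e (@T16.mk En
    (@En.n l5 (nat_lit 13306) (nat_lit 1) (nat_lit 14))
    (@En.n l1791 (nat_lit 4493) (nat_lit 1) (nat_lit 14))
    (@En.n l1455 (nat_lit 13879) (nat_lit 2) (nat_lit 3))
    (@En.n l1791 (nat_lit 12971) (nat_lit 3) (nat_lit 7))
    (@En.i (nat_lit 14016) (nat_lit 4) (nat_lit 4))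
    (@En.n l1791 (nat_lit 13625) (nat_lit 6) (nat_lit 13))
    (@En.i (nat_lit 13994) (nat_lit 6) (nat_lit 5))
    (@En.n l936 (nat_lit 13304) (nat_lit 7) (nat_lit 6))
    (@En.n l476 (nat_lit 14012) (nat_lit 9) (nat_lit 12))
    (@En.i (nat_lit 13303) (nat_lit 9) (nat_lit 3))
    (@En.n l4660 (nat_lit 13189) (nat_lit 11) (nat_lit 9))
    (@En.n l68 (nat_lit 13310) (nat_lit 12) (nat_lit 11))
    (@En.n l1791 (nat_lit 13851) (nat_lit 13) (nat_lit 13))
    (@En.i (nat_lit 1740) (nat_lit 14) (nat_lit 10))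
    (@En.n l17 (nat_lit 13306) (nat_lit 14) (nat_lit 2))
    (@En.n l18 (nat_lit 13306) (nat_lit 15) (nat_lit 2))))
  (@Cl.mk (nat_lit 0x200020008000d0008000d0003000c0003000c0008000400080004000e000e) (nat_lit 0x2345060a003012) (nat_lit 16) Lb.e (@T16.mk En
    (@En.n l5 (nat_lit 13307) (nat_lit 1) (nat_lit 14))
    (@En.n l13398 (nat_lit 3015) (nat_lit 1) (nat_lit 14))
    (@En.i (nat_lit 14032) (nat_lit 2) (nat_lit 4))
    (@En.n l253 (nat_lit 13688) (nat_lit 3) (nat_lit 8))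
    (@En.n l485 (nat_lit 13303) (nat_lit 4) (nat_lit 4))
    (@En.i (nat_lit 13419) (nat_lit 5) (nat_lit 8))
    (@En.i (nat_lit 13635) (nat_lit 7) (nat_lit 12))
    (@En.i (nat_lit 13308) (nat_lit 7) (nat_lit 3))
    (@En.n l253 (nat_lit 13336) (nat_lit 9) (nat_lit 12))
    (@En.n l117 (nat_lit 13309) (nat_lit 9) (nat_lit 3))
    (@En.n l625 (nat_lit 13425) (nat_lit 11) (nat_lit 13))
    (@En.i (nat_lit 14015) (nat_lit 12) (nat_lit 8))
    (@En.i (nat_lit 13885) (nat_lit 13) (nat_lit 13))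
    (@En.n l253 (nat_lit 3128) (nat_lit 14) (nat_lit 8))
    (@En.n l17 (nat_lit 13307) (nat_lit 14) (nat_lit 2))
    (@En.n l18 (nat_lit 13307) (nat_lit 15) (nat_lit 2))))
  (@Cl.mk (nat_lit 0x200020008000c0008000d000b00040003000c0008000500080004000e000e) (nat_lit 0x34357009003012) (nat_lit 16) Lb.e (@T16.mk En
    (@En.n l5 (nat_lit 13308) (nat_lit 1) (nat_lit 14))
    (@En.n l12275 (nat_lit 3016) (nat_lit 1) (nat_lit 14))
    (@En.i (nat_lit 14030) (nat_lit 2) (nat_lit 4))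
    (@En.n l919 (nat_lit 13673) (nat_lit 3) (nat_lit 8))
    (@En.n l485 (nat_lit 13310) (nat_lit 4) (nat_lit 5))
    (@En.i (nat_lit 13525) (nat_lit 5) (nat_lit 8))
    (@En.n l287 (nat_lit 13856) (nat_lit 7) (nat_lit 12))
    (@En.n l11 (nat_lit 13307) (nat_lit 7) (nat_lit 3))
    (@En.n l4728 (nat_lit 13660) (nat_lit 8) (nat_lit 4))
    (@En.n l55 (nat_lit 14017) (nat_lit 10) (nat_lit 11))
    (@En.n l3478 (nat_lit 13426) (nat_lit 11) (nat_lit 13))
    (@En.n l12276 (nat_lit 14014) (nat_lit 12) (nat_lit 8))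
    (@En.n l4459 (nat_lit 13881) (nat_lit 13) (nat_lit 12))
    (@En.n l253 (nat_lit 3129) (nat_lit 14) (nat_lit 8))
    (@En.n l17 (nat_lit 13308) (nat_lit 14) (nat_lit 2))
    (@En.n l18 (nat_lit 13308) (nat_lit 15) (nat_lit 2))))
  (@Cl.mk (nat_lit 0x200020008000d000c00090003000c0004000c0008000400070004000e000e) (nat_lit 0x3354070a000012) (nat_lit 16) Lb.e (@T16.mk En
    (@En.n l5 (nat_lit 13309) (nat_lit 1) (nat_lit 14))
    (@En.n l9004 (nat_lit 3011) (nat_lit 1) (nat_lit 14))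
    (@En.i (nat_lit 13878) (nat_lit 2) (nat_lit 4))
    (@En.n l4983 (nat_lit 13669) (nat_lit 3) (nat_lit 7))
    (@En.n l1688 (nat_lit 13306) (nat_lit 4) (nat_lit 4))
    (@En.i (nat_lit 13522) (nat_lit 5) (nat_lit 8))
    (@En.n l12128 (nat_lit 13630) (nat_lit 7) (nat_lit 12))
    (@En.n l1688 (nat_lit 13651) (nat_lit 7) (nat_lit 4))
    (@En.n l1690 (nat_lit 14015) (nat_lit 9) (nat_lit 12))
    (@En.n l152 (nat_lit 13307) (nat_lit 9) (nat_lit 3))
    (@En.i (nat_lit 12916) (nat_lit 11) (nat_lit 9))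
    (@En.n l619 (nat_lit 13308) (nat_lit 12) (nat_lit 12))
    (@En.n l12673 (nat_lit 13886) (nat_lit 13) (nat_lit 13))
    (@En.i (nat_lit 3127) (nat_lit 14) (nat_lit 8))
    (@En.n l17 (nat_lit 13309) (nat_lit 14) (nat_lit 2))
    (@En.n l18 (nat_lit 13309) (nat_lit 15) (nat_lit 2))))
  (@Cl.mk (nat_lit 0x20002000b000b0008000c000b000500050004000d000500080003000e000e) (nat_lit 0x24547000b030ab) (nat_lit 16) Lb.e (@T16.mk En
    (@En.n l5 (nat_lit 13310) (nat_lit 1) (nat_lit 14))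
    (@En.n l1576 (nat_lit 6339) (nat_lit 1) (nat_lit 14))
    (@En.n l439 (nat_lit 13315) (nat_lit 2) (nat_lit 3))
    (@En.n l282 (nat_lit 13250) (nat_lit 3) (nat_lit 8))
    (@En.n l11 (nat_lit 12936) (nat_lit 4) (nat_lit 5))
    (@En.n l127 (nat_lit 13314) (nat_lit 6) (nat_lit 13))
    (@En.n l11 (nat_lit 13303) (nat_lit 6) (nat_lit 4))
    (@En.n l152 (nat_lit 13106) (nat_lit 7) (nat_lit 5))
    (@En.n l936 (nat_lit 13305) (nat_lit 8) (nat_lit 5))
    (@En.n l55 (nat_lit 13312) (nat_lit 10) (nat_lit 11))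
    (@En.n l4752 (nat_lit 13035) (nat_lit 11) (nat_lit 12))
    (@En.i (nat_lit 13197) (nat_lit 12) (nat_lit 8))
    (@En.i (nat_lit 13437) (nat_lit 13) (nat_lit 11))
    (@En.i (nat_lit 5092) (nat_lit 14) (nat_lit 11))
    (@En.n l17 (nat_lit 13310) (nat_lit 14) (nat_lit 2))
    (@En.n l18 (nat_lit 13310) (nat_lit 15) (nat_lit 2))))
  (@Cl.mk (nat_lit 0x20002000c000c0008000c00040004000d0004000d000300080003000e000e) (nat_lit 0x34450070a040ab) (nat_lit 16) Lb.e (@T16.mk En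
    (@En.n l5 (nat_lit 13311) (nat_lit 1) (nat_lit 14))
    (@En.i (nat_lit 6323) (nat_lit 1) (nat_lit 14))
    (@En.i (nat_lit 13313) (nat_lit 2) (nat_lit 3))
    (@En.i (nat_lit 13241) (nat_lit 3) (nat_lit 8))
    (@En.i (nat_lit 13312) (nat_lit 4) (nat_lit 3))
    (@En.i (nat_lit 12981) (nat_lit 6) (nat_lit 13))
    (@En.i (nat_lit 13310) (nat_lit 6) (nat_lit 4))
    (@En.i (nat_lit 13966) (nat_lit 8) (nat_lit 13))
    (@En.n l152 (nat_lit 13109) (nat_lit 8) (nat_lit 4))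
    (@En.n l117 (nat_lit 13989) (nat_lit 9) (nat_lit 4))
    (@En.n l97 (nat_lit 13062) (nat_lit 11) (nat_lit 12))
    (@En.i (nat_lit 14010) (nat_lit 12) (nat_lit 8))
    (@En.i (nat_lit 13439) (nat_lit 13) (nat_lit 12))
    (@En.i (nat_lit 5094) (nat_lit 14) (nat_lit 12))
    (@En.n l17 (nat_lit 13311) (nat_lit 14) (nat_lit 2))
    (@En.n l18 (nat_lit 13311) (nat_lit 15) (nat_lit 2))))
noncomputable def a832 : T16 Cl := @T16.mk Cl
  (@Cl.mk (nat_lit 0x20002000c000c0008000b00040004000d000c0005000300080004000e000e) (nat_lit 0x3446006a0040ab) (nat_lit 16) Lb.e (@T16.mk En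
    (@En.n l5 (nat_lit 13312) (nat_lit 1) (nat_lit 14))
    (@En.n l310 (nat_lit 6338) (nat_lit 1) (nat_lit 14))
    (@En.n l28 (nat_lit 13318) (nat_lit 2) (nat_lit 4))
    (@En.n l343 (nat_lit 13310) (nat_lit 3) (nat_lit 8))
    (@En.n l28 (nat_lit 13311) (nat_lit 4) (nat_lit 3))
    (@En.n l310 (nat_lit 12938) (nat_lit 5) (nat_lit 5))
    (@En.n l77 (nat_lit 13313) (nat_lit 7) (nat_lit 12))
    (@En.i (nat_lit 13962) (nat_lit 8) (nat_lit 13))
    (@En.n l152 (nat_lit 13107) (nat_lit 8) (nat_lit 4))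
    (@En.n l117 (nat_lit 13991) (nat_lit 9) (nat_lit 4))
    (@En.n l310 (nat_lit 13457) (nat_lit 11) (nat_lit 11))
    (@En.i (nat_lit 14011) (nat_lit 12) (nat_lit 8))
    (@En.n l516 (nat_lit 13438) (nat_lit 13) (nat_lit 12))
    (@En.n l517 (nat_lit 5093) (nat_lit 14) (nat_lit 12))
    (@En.n l17 (nat_lit 13312) (nat_lit 14) (nat_lit 2))
    (@En.n l18 (nat_lit 13312) (nat_lit 15) (nat_lit 2))))
  (@Cl.mk (nat_lit 0x20002000c000c0009000c00040004000c0004000d000700040003000e000e) (nat_lit 0x24450090a000ab) (nat_lit 16) Lb.e (@T16.mk En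
    (@En.n l5 (nat_lit 13313) (nat_lit 1) (nat_lit 14))
    (@En.n l420 (nat_lit 7320) (nat_lit 1) (nat_lit 14))
    (@En.n l7 (nat_lit 13311) (nat_lit 2) (nat_lit 3))
    (@En.n l1362 (nat_lit 13319) (nat_lit 3) (nat_lit 4))
    (@En.i (nat_lit 13314) (nat_lit 4) (nat_lit 7))
    (@En.n l1455 (nat_lit 12978) (nat_lit 6) (nat_lit 13))
    (@En.n l439 (nat_lit 13315) (nat_lit 6) (nat_lit 4))
    (@En.i (nat_lit 13864) (nat_lit 8) (nat_lit 12))
    (@En.n l152 (nat_lit 13112) (nat_lit 8) (nat_lit 4))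
    (@En.n l1455 (nat_lit 14000) (nat_lit 9) (nat_lit 4))
    (@En.n l133 (nat_lit 13060) (nat_lit 11) (nat_lit 12))
    (@En.i (nat_lit 13365) (nat_lit 12) (nat_lit 9))
    (@En.n l4449 (nat_lit 13320) (nat_lit 13) (nat_lit 12))
    (@En.i (nat_lit 5095) (nat_lit 14) (nat_lit 12))
    (@En.n l17 (nat_lit 13313) (nat_lit 14) (nat_lit 2))
    (@En.n l18 (nat_lit 13313) (nat_lit 15) (nat_lit 2))))
  (@Cl.mk (nat_lit 0x20002000b000b00090008000c00050005000d0004000700030008000e000e) (nat_lit 0x2445600a0006ab) (nat_lit 16) Lb.e (@T16.mk En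
    (@En.n l5 (nat_lit 13314) (nat_lit 1) (nat_lit 14))
    (@En.n l420 (nat_lit 7319) (nat_lit 1) (nat_lit 14))
    (@En.n l4424 (nat_lit 13236) (nat_lit 2) (nat_lit 8))
    (@En.n l1380 (nat_lit 13316) (nat_lit 3) (nat_lit 3))
    (@En.i (nat_lit 12992) (nat_lit 4) (nat_lit 7))
    (@En.i (nat_lit 13317) (nat_lit 5) (nat_lit 4))
    (@En.n l4931 (nat_lit 13862) (nat_lit 7) (nat_lit 13))
    (@En.n l152 (nat_lit 13111) (nat_lit 7) (nat_lit 5))
    (@En.n l117 (nat_lit 13975) (nat_lit 8) (nat_lit 5))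
    (@En.n l8 (nat_lit 13313) (nat_lit 10) (nat_lit 12))
    (@En.i (nat_lit 13311) (nat_lit 11) (nat_lit 8))
    (@En.n l1553 (nat_lit 13357) (nat_lit 12) (nat_lit 9))
    (@En.n l11862 (nat_lit 13322) (nat_lit 13) (nat_lit 11))
    (@En.i (nat_lit 5088) (nat_lit 14) (nat_lit 11))
    (@En.n l17 (nat_lit 13314) (nat_lit 14) (nat_lit 2))
    (@En.n l18 (nat_lit 13314) (nat_lit 15) (nat_lit 2))))
  (@Cl.mk (nat_lit 0x20002000b000b0009000c000a000500050004000d000700060003000e000e) (nat_lit 0x24545000b000ab) (nat_lit 16) Lb.e (@T16.mk En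
    (@En.n l97 (nat_lit 13315) (nat_lit 1) (nat_lit 14))
    (@En.i (nat_lit 7324) (nat_lit 1) (nat_lit 14))
    (@En.n l1520 (nat_lit 13310) (nat_lit 2) (nat_lit 3))
    (@En.n l18 (nat_lit 12900) (nat_lit 3) (nat_lit 6))
    (@En.n l1521 (nat_lit 13317) (nat_lit 4) (nat_lit 7))
    (@En.n l1522 (nat_lit 13316) (nat_lit 6) (nat_lit 13))
    (@En.n l1431 (nat_lit 13855) (nat_lit 6) (nat_lit 4))
    (@En.n l1523 (nat_lit 13108) (nat_lit 7) (nat_lit 5))
    (@En.n l1524 (nat_lit 13863) (nat_lit 8) (nat_lit 5))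
    (@En.n l1521 (nat_lit 13318) (nat_lit 10) (nat_lit 10))
    (@En.n l1525 (nat_lit 13034) (nat_lit 11) (nat_lit 12))
    (@En.n l1521 (nat_lit 14008) (nat_lit 12) (nat_lit 9))
    (@En.n l1526 (nat_lit 13436) (nat_lit 13) (nat_lit 11))
    (@En.n l1521 (nat_lit 5089) (nat_lit 14) (nat_lit 11))
    (@En.n l107 (nat_lit 13315) (nat_lit 14) (nat_lit 2))
    (@En.n l3 (nat_lit 13315) (nat_lit 15) (nat_lit 2))))
  (@Cl.mk (nat_lit 0x20002000b000b000a0008000b00050005000d0006000500030008000e000e) (nat_lit 0x3465500a0006ab) (nat_lit 16) Lb.e (@T16.mk En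
    (@En.n l97 (nat_lit 13316) (nat_lit 1) (nat_lit 14))
    (@En.i (nat_lit 7318) (nat_lit 1) (nat_lit 14))
    (@En.n l4430 (nat_lit 13317) (nat_lit 2) (nat_lit 8))
    (@En.n l4431 (nat_lit 13314) (nat_lit 3) (nat_lit 3))
    (@En.n l4336 (nat_lit 12925) (nat_lit 4) (nat_lit 5))
    (@En.n l1711 (nat_lit 12887) (nat_lit 5) (nat_lit 6))
    (@En.n l564 (nat_lit 13865) (nat_lit 7) (nat_lit 13))
    (@En.n l4432 (nat_lit 13113) (nat_lit 7) (nat_lit 5))
    (@En.i (nat_lit 13973) (nat_lit 8) (nat_lit 5))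
    (@En.i (nat_lit 13319) (nat_lit 10) (nat_lit 11))
    (@En.n l1711 (nat_lit 13312) (nat_lit 11) (nat_lit 8))
    (@En.n l4380 (nat_lit 13978) (nat_lit 12) (nat_lit 10))
    (@En.n l134 (nat_lit 13321) (nat_lit 13) (nat_lit 11))
    (@En.n l11 (nat_lit 5087) (nat_lit 14) (nat_lit 11))
    (@En.n l107 (nat_lit 13316) (nat_lit 14) (nat_lit 2))
    (@En.n l3 (nat_lit 13316) (nat_lit 15) (nat_lit 2))))
  (@Cl.mk (nat_lit 0x20002000a000a00090008000c000b000600060004000700050008000e000e) (nat_lit 0x345656000005ab) (nat_lit 16) Lb.e (@T16.mk En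
    (@En.n l5 (nat_lit 13317) (nat_lit 1) (nat_lit 14))
    (@En.n l1896 (nat_lit 7347) (nat_lit 1) (nat_lit 14))
    (@En.n l4664 (nat_lit 13251) (nat_lit 2) (nat_lit 8))
    (@En.n l4665 (nat_lit 12922) (nat_lit 3) (nat_lit 5))
    (@En.n l596 (nat_lit 12888) (nat_lit 4) (nat_lit 7))
    (@En.n l4666 (nat_lit 13856) (nat_lit 5) (nat_lit 4))
    (@En.n l152 (nat_lit 13110) (nat_lit 6) (nat_lit 6))
    (@En.n l936 (nat_lit 13861) (nat_lit 7) (nat_lit 6))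
    (@En.n l1453 (nat_lit 13316) (nat_lit 9) (nat_lit 11))
    (@En.n l4667 (nat_lit 13315) (nat_lit 10) (nat_lit 12))
    (@En.i (nat_lit 13310) (nat_lit 11) (nat_lit 8))
    (@En.n l4668 (nat_lit 14038) (nat_lit 12) (nat_lit 9))
    (@En.n l4669 (nat_lit 13323) (nat_lit 13) (nat_lit 10))
    (@En.i (nat_lit 5086) (nat_lit 14) (nat_lit 10))
    (@En.n l17 (nat_lit 13317) (nat_lit 14) (nat_lit 2))
    (@En.n l18 (nat_lit 13317) (nat_lit 15) (nat_lit 2))))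
  (@Cl.mk (nat_lit 0x20002000c000c000a000a00040004000c000c0006000600040004000e000e) (nat_lit 0x23440099000078) (nat_lit 16) Lb.e (@T16.mk En
    (@En.n l5 (nat_lit 13318) (nat_lit 1) (nat_lit 14))
    (@En.n l1453 (nat_lit 1598) (nat_lit 1) (nat_lit 14))
    (@En.n l237 (nat_lit 13377) (nat_lit 2) (nat_lit 4))
    (@En.i (nat_lit 13313) (nat_lit 3) (nat_lit 4))
    (@En.n l31 (nat_lit 13370) (nat_lit 4) (nat_lit 6))
    (@En.n l1453 (nat_lit 13316) (nat_lit 5) (nat_lit 6))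
    (@En.n l1454 (nat_lit 13319) (nat_lit 7) (nat_lit 12))
    (@En.n l1452 (nat_lit 13868) (nat_lit 8) (nat_lit 12))
    (@En.n l152 (nat_lit 13376) (nat_lit 8) (nat_lit 4))
    (@En.n l1455 (nat_lit 13406) (nat_lit 9) (nat_lit 4))
    (@En.n l1456 (nat_lit 13020) (nat_lit 11) (nat_lit 10))
    (@En.n l1452 (nat_lit 14006) (nat_lit 12) (nat_lit 10))
    (@En.n l516 (nat_lit 13379) (nat_lit 13) (nat_lit 12))
    (@En.i (nat_lit 1383) (nat_lit 14) (nat_lit 12))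
    (@En.n l17 (nat_lit 13318) (nat_lit 14) (nat_lit 2))
    (@En.n l18 (nat_lit 13318) (nat_lit 15) (nat_lit 2))))
  (@Cl.mk (nat_lit 0x20002000c000c000b000b00040004000c00050005000e00040002000e000e) (nat_lit 0x346400800b0078) (nat_lit 16) Lb.e (@T16.mk En
    (@En.n l97 (nat_lit 13319) (nat_lit 1) (nat_lit 14))
    (@En.i (nat_lit 2720) (nat_lit 1) (nat_lit 14))
    (@En.n l17 (nat_lit 13319) (nat_lit 2) (nat_lit 2))
    (@En.n l4377 (nat_lit 13318) (nat_lit 3) (nat_lit 4))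
    (@En.i (nat_lit 12977) (nat_lit 5) (nat_lit 14))
    (@En.n l4335 (nat_lit 13368) (nat_lit 5) (nat_lit 5))
    (@En.n l1809 (nat_lit 12889) (nat_lit 6) (nat_lit 5))
    (@En.n l564 (nat_lit 13867) (nat_lit 8) (nat_lit 12))
    (@En.n l4378 (nat_lit 13366) (nat_lit 8) (nat_lit 4))
    (@En.i (nat_lit 13395) (nat_lit 9) (nat_lit 4))
    (@En.n l4379 (nat_lit 13022) (nat_lit 11) (nat_lit 11))
    (@En.n l4380 (nat_lit 13399) (nat_lit 12) (nat_lit 11))
    (@En.n l134 (nat_lit 13394) (nat_lit 13) (nat_lit 12))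
    (@En.n l1637 (nat_lit 1348) (nat_lit 14) (nat_lit 12))
    (@En.n l107 (nat_lit 13319) (nat_lit 14) (nat_lit 2))
    (@En.n l3 (nat_lit 13319) (nat_lit 15) (nat_lit 2))))
  (@Cl.mk (nat_lit 0x20002000c0008000b000e00040002000c0005000d000800040003000e000e) (nat_lit 0x35450090a40089) (nat_lit 16) Lb.e (@T16.mk En
    (@En.n l97 (nat_lit 13320) (nat_lit 1) (nat_lit 14))
    (@En.n l1547 (nat_lit 7322) (nat_lit 1) (nat_lit 14))
    (@En.n l1548 (nat_lit 13439) (nat_lit 2) (nat_lit 3))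
    (@En.n l18 (nat_lit 13394) (nat_lit 3) (nat_lit 4))
    (@En.n l429 (nat_lit 13322) (nat_lit 4) (nat_lit 8))
    (@En.i (nat_lit 13493) (nat_lit 6) (nat_lit 13))
    (@En.n l1549 (nat_lit 13436) (nat_lit 6) (nat_lit 5))
    (@En.n l1550 (nat_lit 14008) (nat_lit 8) (nat_lit 12))
    (@En.n l7 (nat_lit 13320) (nat_lit 8) (nat_lit 2))
    (@En.n l1430 (nat_lit 13313) (nat_lit 9) (nat_lit 4))
    (@En.n l1547 (nat_lit 13447) (nat_lit 11) (nat_lit 14))
    (@En.n l1525 (nat_lit 13061) (nat_lit 12) (nat_lit 11))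
    (@En.n l1496 (nat_lit 13537) (nat_lit 13) (nat_lit 8))
    (@En.n l1551 (nat_lit 1183) (nat_lit 14) (nat_lit 12))
    (@En.n l107 (nat_lit 13320) (nat_lit 14) (nat_lit 2))
    (@En.n l3 (nat_lit 13320) (nat_lit 15) (nat_lit 2))))
  (@Cl.mk (nat_lit 0x20002000b00090007000a000e00050002000d0007000600030009000e000e) (nat_lit 0x34056009000478) (nat_lit 16) Lb.e (@T16.mk En
    (@En.n l97 (nat_lit 13321) (nat_lit 1) (nat_lit 14))
    (@En.i (nat_lit 7312) (nat_lit 1) (nat_lit 14))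
    (@En.n l11834 (nat_lit 13323) (nat_lit 2) (nat_lit 9))
    (@En.i (nat_lit 13322) (nat_lit 3) (nat_lit 3))
    (@En.n l1252 (nat_lit 12928) (nat_lit 4) (nat_lit 6))
    (@En.n l1660 (nat_lit 722) (nat_lit 5) (nat_lit 7))
    (@En.n l564 (nat_lit 14039) (nat_lit 7) (nat_lit 13))
    (@En.n l7 (nat_lit 13321) (nat_lit 7) (nat_lit 2))
    (@En.n l28 (nat_lit 13316) (nat_lit 8) (nat_lit 5))
    (@En.n l617 (nat_lit 13493) (nat_lit 10) (nat_lit 14))
    (@En.i (nat_lit 13394) (nat_lit 11) (nat_lit 10))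
    (@En.n l1660 (nat_lit 13438) (nat_lit 12) (nat_lit 7))
    (@En.n l1660 (nat_lit 13498) (nat_lit 13) (nat_lit 9))
    (@En.i (nat_lit 1178) (nat_lit 14) (nat_lit 11))
    (@En.n l107 (nat_lit 13321) (nat_lit 14) (nat_lit 2))
    (@En.n l3 (nat_lit 13321) (nat_lit 15) (nat_lit 2))))
  (@Cl.mk (nat_lit 0x20002000b00080007000b000e00050002000d0005000800030009000e000e) (nat_lit 0x3605600a030478) (nat_lit 16) Lb.e (@T16.mk En
    (@En.n l97 (nat_lit 13322) (nat_lit 1) (nat_lit 14))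
    (@En.n l4806 (nat_lit 7311) (nat_lit 1) (nat_lit 14))
    (@En.n l4807 (nat_lit 13247) (nat_lit 2) (nat_lit 9))
    (@En.n l18 (nat_lit 13321) (nat_lit 3) (nat_lit 3))
    (@En.n l4808 (nat_lit 12994) (nat_lit 4) (nat_lit 8))
    (@En.n l4809 (nat_lit 13323) (nat_lit 5) (nat_lit 5))
    (@En.n l4810 (nat_lit 14038) (nat_lit 7) (nat_lit 13))
    (@En.n l7 (nat_lit 13322) (nat_lit 7) (nat_lit 2))
    (@En.n l1397 (nat_lit 13314) (nat_lit 8) (nat_lit 5))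
    (@En.n l2356 (nat_lit 13494) (nat_lit 10) (nat_lit 14))
    (@En.i (nat_lit 13320) (nat_lit 11) (nat_lit 11))
    (@En.n l4811 (nat_lit 13439) (nat_lit 12) (nat_lit 7))
    (@En.n l1466 (nat_lit 13351) (nat_lit 13) (nat_lit 8))
    (@En.n l4812 (nat_lit 1180) (nat_lit 14) (nat_lit 11))
    (@En.n l107 (nat_lit 13322) (nat_lit 14) (nat_lit 2))
    (@En.n l3 (nat_lit 13322) (nat_lit 15) (nat_lit 2))))
  (@Cl.mk (nat_lit 0x20002000a00080007000b000a000e000600020005000800060009000e000e) (nat_lit 0x34056700010367) (nat_lit 16) Lb.e (@T16.mk En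
    (@En.n l1578 (nat_lit 13323) (nat_lit 1) (nat_lit 14))
    (@En.n l2042 (nat_lit 7313) (nat_lit 11) (nat_lit 14))
    (@En.i (nat_lit 13249) (nat_lit 2) (nat_lit 9))
    (@En.n l3178 (nat_lit 12926) (nat_lit 3) (nat_lit 6))
    (@En.n l3336 (nat_lit 723) (nat_lit 4) (nat_lit 8))
    (@En.n l3340 (nat_lit 13846) (nat_lit 5) (nat_lit 5))
    (@En.n l3 (nat_lit 13323) (nat_lit 6) (nat_lit 2))
    (@En.n l12293 (nat_lit 13317) (nat_lit 7) (nat_lit 6))
    (@En.n l12294 (nat_lit 13322) (nat_lit 9) (nat_lit 14))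
    (@En.n l12295 (nat_lit 13321) (nat_lit 10) (nat_lit 10))
    (@En.n l12296 (nat_lit 13436) (nat_lit 11) (nat_lit 11))
    (@En.n l12297 (nat_lit 13437) (nat_lit 12) (nat_lit 7))
    (@En.n l5366 (nat_lit 13534) (nat_lit 13) (nat_lit 8))
    (@En.i (nat_lit 1179) (nat_lit 14) (nat_lit 10))
    (@En.n l28 (nat_lit 13323) (nat_lit 14) (nat_lit 2))
    (@En.n l11 (nat_lit 13323) (nat_lit 15) (nat_lit 2))))
  (@Cl.mk (nat_lit 0x2000200080007000b0008000e000c000200050008000400090008000e000e) (nat_lit 0x10366800302212) (nat_lit 16) Lb.e (@T16.mk En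
    (@En.n l601 (nat_lit 13324) (nat_lit 1) (nat_lit 14))
    (@En.i (nat_lit 4006) (nat_lit 10) (nat_lit 14))
    (@En.n l1915 (nat_lit 13800) (nat_lit 2) (nat_lit 8))
    (@En.n l25492 (nat_lit 13745) (nat_lit 3) (nat_lit 9))
    (@En.n l117 (nat_lit 13858) (nat_lit 4) (nat_lit 4))
    (@En.n l1915 (nat_lit 12958) (nat_lit 5) (nat_lit 8))
    (@En.i (nat_lit 13220) (nat_lit 6) (nat_lit 5))
    (@En.n l3 (nat_lit 13324) (nat_lit 7) (nat_lit 2))
    (@En.i (nat_lit 13140) (nat_lit 9) (nat_lit 12))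
    (@En.n l12687 (nat_lit 13325) (nat_lit 10) (nat_lit 14))
    (@En.n l7245 (nat_lit 13336) (nat_lit 11) (nat_lit 8))
    (@En.n l207 (nat_lit 13293) (nat_lit 12) (nat_lit 11))
    (@En.i (nat_lit 13292) (nat_lit 13) (nat_lit 7))
    (@En.n l532 (nat_lit 5235) (nat_lit 5) (nat_lit 8))
    (@En.n l50 (nat_lit 13324) (nat_lit 14) (nat_lit 2))
    (@En.n l7 (nat_lit 13324) (nat_lit 15) (nat_lit 2))))
  (@Cl.mk (nat_lit 0x2000200080007000b000e000b0002000b00050008000500090005000e000e) (nat_lit 0x10357090402034) (nat_lit 16) Lb.e (@T16.mk En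
    (@En.n l5 (nat_lit 13325) (nat_lit 1) (nat_lit 14))
    (@En.n l3258 (nat_lit 7388) (nat_lit 1) (nat_lit 14))
    (@En.n l2738 (nat_lit 12967) (nat_lit 2) (nat_lit 5))
    (@En.i (nat_lit 13700) (nat_lit 3) (nat_lit 9))
    (@En.i (nat_lit 13860) (nat_lit 4) (nat_lit 5))
    (@En.i (nat_lit 14066) (nat_lit 5) (nat_lit 8))
    (@En.n l4505 (nat_lit 13324) (nat_lit 6) (nat_lit 5))
    (@En.n l3258 (nat_lit 13141) (nat_lit 8) (nat_lit 11))
    (@En.n l11 (nat_lit 13325) (nat_lit 8) (nat_lit 2))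
    (@En.i (nat_lit 13328) (nat_lit 10) (nat_lit 11))
    (@En.n l158 (nat_lit 13550) (nat_lit 11) (nat_lit 14))
    (@En.n l4851 (nat_lit 13326) (nat_lit 12) (nat_lit 11))
    (@En.n l3258 (nat_lit 13327) (nat_lit 13) (nat_lit 7))
    (@En.i (nat_lit 5233) (nat_lit 14) (nat_lit 8))
    (@En.n l17 (nat_lit 13325) (nat_lit 14) (nat_lit 2))
    (@En.n l18 (nat_lit 13325) (nat_lit 15) (nat_lit 2))))
  (@Cl.mk (nat_lit 0x200020008000b000e000a0002000a0005000d0008000600030006000e000e) (nat_lit 0x22a60803500012) (nat_lit 16) Lb.e (@T16.mk En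
    (@En.n l601 (nat_lit 13326) (nat_lit 1) (nat_lit 14))
    (@En.i (nat_lit 4013) (nat_lit 8) (nat_lit 14))
    (@En.n l1719 (nat_lit 12973) (nat_lit 2) (nat_lit 6))
    (@En.n l11 (nat_lit 13327) (nat_lit 3) (nat_lit 3))
    (@En.n l12686 (nat_lit 13359) (nat_lit 4) (nat_lit 6))
    (@En.n l12687 (nat_lit 13325) (nat_lit 5) (nat_lit 8))
    (@En.n l1722 (nat_lit 13295) (nat_lit 7) (nat_lit 13))
    (@En.n l17 (nat_lit 13293) (nat_lit 7) (nat_lit 5))
    (@En.n l711 (nat_lit 13624) (nat_lit 9) (nat_lit 10))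
    (@En.n l3 (nat_lit 13326) (nat_lit 9) (nat_lit 2))
    (@En.n l12686 (nat_lit 13329) (nat_lit 11) (nat_lit 10))
    (@En.n l1719 (nat_lit 13029) (nat_lit 12) (nat_lit 14))
    (@En.n l711 (nat_lit 14098) (nat_lit 13) (nat_lit 11))
    (@En.i (nat_lit 5276) (nat_lit 14) (nat_lit 8))
    (@En.n l50 (nat_lit 13326) (nat_lit 14) (nat_lit 2))
    (@En.n l7 (nat_lit 13326) (nat_lit 15) (nat_lit 2))))
  (@Cl.mk (nat_lit 0x200020007000b000e000b0002000a0005000d0005000900030006000e000e) (nat_lit 0x28508040000bc) (nat_lit 16) Lb.e (@T16.mk En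
    (@En.n l601 (nat_lit 13327) (nat_lit 1) (nat_lit 14))
    (@En.i (nat_lit 7270) (nat_lit 8) (nat_lit 14))
    (@En.n l7597 (nat_lit 13597) (nat_lit 2) (nat_lit 6))
    (@En.i (nat_lit 13326) (nat_lit 3) (nat_lit 3))
    (@En.i (nat_lit 13699) (nat_lit 4) (nat_lit 9))
    (@En.n l12681 (nat_lit 14033) (nat_lit 5) (nat_lit 5))
    (@En.n l1722 (nat_lit 13294) (nat_lit 7) (nat_lit 13))
    (@En.n l17 (nat_lit 13292) (nat_lit 7) (nat_lit 5))
    (@En.i (nat_lit 13631) (nat_lit 9) (nat_lit 10))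
    (@En.n l3 (nat_lit 13327) (nat_lit 9) (nat_lit 2))
    (@En.n l4817 (nat_lit 13330) (nat_lit 11) (nat_lit 11))
    (@En.i (nat_lit 12881) (nat_lit 12) (nat_lit 14))
    (@En.n l626 (nat_lit 14099) (nat_lit 13) (nat_lit 11))
    (@En.i (nat_lit 5982) (nat_lit 14) (nat_lit 7))
    (@En.n l50 (nat_lit 13327) (nat_lit 14) (nat_lit 2))
    (@En.n l7 (nat_lit 13327) (nat_lit 15) (nat_lit 2))))
noncomputable def a833 : T16 Cl := @T16.mk Cl
  (@Cl.mk (nat_lit 0x2000200090007000c000b000b000a000400070005000500090006000e000e) (nat_lit 0x20467700003078) (nat_lit 16) Lb.e (@T16.mk En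
    (@En.n l5 (nat_lit 13328) (nat_lit 1) (nat_lit 14))
    (@En.n l4502 (nat_lit 7363) (nat_lit 1) (nat_lit 14))
    (@En.n l4503 (nat_lit 12964) (nat_lit 2) (nat_lit 6))
    (@En.n l2032 (nat_lit 13337) (nat_lit 3) (nat_lit 9))
    (@En.n l575 (nat_lit 13325) (nat_lit 4) (nat_lit 5))
    (@En.n l4504 (nat_lit 13868) (nat_lit 5) (nat_lit 5))
    (@En.i (nat_lit 13960) (nat_lit 6) (nat_lit 7))
    (@En.n l4505 (nat_lit 13140) (nat_lit 7) (nat_lit 4))
    (@En.n l4504 (nat_lit 13304) (nat_lit 9) (nat_lit 10))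
    (@En.n l4506 (nat_lit 13954) (nat_lit 10) (nat_lit 11))
    (@En.n l4507 (nat_lit 13861) (nat_lit 11) (nat_lit 11))
    (@En.n l4504 (nat_lit 13329) (nat_lit 12) (nat_lit 12))
    (@En.n l4508 (nat_lit 13330) (nat_lit 13) (nat_lit 7))
    (@En.i (nat_lit 5241) (nat_lit 14) (nat_lit 9))
    (@En.n l17 (nat_lit 13328) (nat_lit 14) (nat_lit 2))
    (@En.n l18 (nat_lit 13328) (nat_lit 15) (nat_lit 2))))
  (@Cl.mk (nat_lit 0x200020009000c000a000a00090004000c00070006000600040007000e000e) (nat_lit 0x23565090000089) (nat_lit 16) Lb.e (@T16.mk En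
    (@En.n l5 (nat_lit 13329) (nat_lit 1) (nat_lit 14))
    (@En.n l420 (nat_lit 7362) (nat_lit 1) (nat_lit 14))
    (@En.n l7840 (nat_lit 12965) (nat_lit 2) (nat_lit 7))
    (@En.n l12023 (nat_lit 13491) (nat_lit 3) (nat_lit 4))
    (@En.n l12024 (nat_lit 13326) (nat_lit 4) (nat_lit 6))
    (@En.i (nat_lit 13897) (nat_lit 5) (nat_lit 6))
    (@En.n l12025 (nat_lit 13328) (nat_lit 6) (nat_lit 7))
    (@En.n l476 (nat_lit 13331) (nat_lit 8) (nat_lit 12))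
    (@En.n l5098 (nat_lit 13333) (nat_lit 8) (nat_lit 4))
    (@En.i (nat_lit 13306) (nat_lit 10) (nat_lit 9))
    (@En.n l7840 (nat_lit 13841) (nat_lit 11) (nat_lit 10))
    (@En.n l68 (nat_lit 13317) (nat_lit 12) (nat_lit 10))
    (@En.n l1791 (nat_lit 13852) (nat_lit 13) (nat_lit 12))
    (@En.i (nat_lit 5275) (nat_lit 14) (nat_lit 9))
    (@En.n l17 (nat_lit 13329) (nat_lit 14) (nat_lit 2))
    (@En.n l18 (nat_lit 13329) (nat_lit 15) (nat_lit 2))))
  (@Cl.mk (nat_lit 0x200020007000c000b000b00090004000c00050005000900040007000e000e) (nat_lit 0x3465090000078) (nat_lit 16) Lb.e (@T16.mk En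
    (@En.n l5 (nat_lit 13330) (nat_lit 1) (nat_lit 14))
    (@En.n l420 (nat_lit 7268) (nat_lit 1) (nat_lit 14))
    (@En.n l4525 (nat_lit 13722) (nat_lit 2) (nat_lit 7))
    (@En.n l1688 (nat_lit 13329) (nat_lit 3) (nat_lit 4))
    (@En.i (nat_lit 13795) (nat_lit 4) (nat_lit 9))
    (@En.n l4847 (nat_lit 13327) (nat_lit 5) (nat_lit 5))
    (@En.n l12026 (nat_lit 13490) (nat_lit 6) (nat_lit 5))
    (@En.n l12027 (nat_lit 13332) (nat_lit 8) (nat_lit 12))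
    (@En.n l1553 (nat_lit 13334) (nat_lit 8) (nat_lit 4))
    (@En.i (nat_lit 13309) (nat_lit 10) (nat_lit 9))
    (@En.n l4536 (nat_lit 13839) (nat_lit 11) (nat_lit 11))
    (@En.n l12028 (nat_lit 14035) (nat_lit 12) (nat_lit 11))
    (@En.n l12029 (nat_lit 13574) (nat_lit 13) (nat_lit 12))
    (@En.i (nat_lit 7887) (nat_lit 14) (nat_lit 7))
    (@En.n l17 (nat_lit 13330) (nat_lit 14) (nat_lit 2))
    (@En.n l18 (nat_lit 13330) (nat_lit 15) (nat_lit 2))))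
  (@Cl.mk (nat_lit 0x20002000a0007000b000b0009000c000600050005000400090007000e000e) (nat_lit 0x20565800004089) (nat_lit 16) Lb.e (@T16.mk En
    (@En.n l5 (nat_lit 13331) (nat_lit 1) (nat_lit 14))
    (@En.n l25472 (nat_lit 7017) (nat_lit 1) (nat_lit 14))
    (@En.i (nat_lit 13329) (nat_lit 2) (nat_lit 7))
    (@En.n l25473 (nat_lit 13328) (nat_lit 3) (nat_lit 9))
    (@En.n l25474 (nat_lit 13894) (nat_lit 4) (nat_lit 4))
    (@En.n l25475 (nat_lit 13295) (nat_lit 5) (nat_lit 5))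
    (@En.i (nat_lit 13887) (nat_lit 6) (nat_lit 5))
    (@En.n l25476 (nat_lit 13335) (nat_lit 7) (nat_lit 6))
    (@En.n l25477 (nat_lit 13201) (nat_lit 9) (nat_lit 12))
    (@En.i (nat_lit 14012) (nat_lit 10) (nat_lit 9))
    (@En.n l25478 (nat_lit 13840) (nat_lit 11) (nat_lit 11))
    (@En.n l25479 (nat_lit 13316) (nat_lit 12) (nat_lit 11))
    (@En.n l25477 (nat_lit 13831) (nat_lit 13) (nat_lit 7))
    (@En.n l5098 (nat_lit 5274) (nat_lit 14) (nat_lit 10))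
    (@En.n l17 (nat_lit 13331) (nat_lit 14) (nat_lit 2))
    (@En.n l18 (nat_lit 13331) (nat_lit 15) (nat_lit 2))))
  (@Cl.mk (nat_lit 0x2000200080007000c000c0009000c000400040008000400090007000e000e) (nat_lit 0x20465800002078) (nat_lit 16) Lb.e (@T16.mk En
    (@En.n l5 (nat_lit 13332) (nat_lit 1) (nat_lit 14))
    (@En.n l564 (nat_lit 7022) (nat_lit 1) (nat_lit 14))
    (@En.n l25458 (nat_lit 13330) (nat_lit 2) (nat_lit 7))
    (@En.n l25459 (nat_lit 13007) (nat_lit 3) (nat_lit 9))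
    (@En.n l25460 (nat_lit 13331) (nat_lit 4) (nat_lit 4))
    (@En.n l25458 (nat_lit 13798) (nat_lit 5) (nat_lit 8))
    (@En.n l3498 (nat_lit 13294) (nat_lit 6) (nat_lit 4))
    (@En.n l13355 (nat_lit 13883) (nat_lit 7) (nat_lit 4))
    (@En.i (nat_lit 13203) (nat_lit 9) (nat_lit 12))
    (@En.n l25461 (nat_lit 14015) (nat_lit 10) (nat_lit 9))
    (@En.n l4003 (nat_lit 13838) (nat_lit 11) (nat_lit 12))
    (@En.n l25462 (nat_lit 13981) (nat_lit 12) (nat_lit 12))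
    (@En.i (nat_lit 13830) (nat_lit 13) (nat_lit 7))
    (@En.n l4311 (nat_lit 5987) (nat_lit 14) (nat_lit 8))
    (@En.n l17 (nat_lit 13332) (nat_lit 14) (nat_lit 2))
    (@En.n l18 (nat_lit 13332) (nat_lit 15) (nat_lit 2))))
  (@Cl.mk (nat_lit 0x200020009000c0007000b000b0004000c00070005000500040009000e000e) (nat_lit 0x33065080000145) (nat_lit 16) Lb.e (@T16.mk En
    (@En.n l601 (nat_lit 13333) (nat_lit 1) (nat_lit 14))
    (@En.i (nat_lit 7365) (nat_lit 1) (nat_lit 14))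
    (@En.n l14270 (nat_lit 13134) (nat_lit 2) (nat_lit 9))
    (@En.n l3535 (nat_lit 13979) (nat_lit 3) (nat_lit 4))
    (@En.n l152 (nat_lit 13293) (nat_lit 4) (nat_lit 5))
    (@En.n l21499 (nat_lit 13977) (nat_lit 5) (nat_lit 5))
    (@En.i (nat_lit 13140) (nat_lit 6) (nat_lit 7))
    (@En.n l5552 (nat_lit 13155) (nat_lit 8) (nat_lit 12))
    (@En.n l2125 (nat_lit 13856) (nat_lit 8) (nat_lit 4))
    (@En.n l3536 (nat_lit 13955) (nat_lit 10) (nat_lit 11))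
    (@En.n l2711 (nat_lit 13879) (nat_lit 11) (nat_lit 11))
    (@En.n l13131 (nat_lit 13331) (nat_lit 12) (nat_lit 7))
    (@En.n l709 (nat_lit 13575) (nat_lit 13) (nat_lit 12))
    (@En.i (nat_lit 5278) (nat_lit 14) (nat_lit 9))
    (@En.n l50 (nat_lit 13333) (nat_lit 14) (nat_lit 2))
    (@En.n l7 (nat_lit 13333) (nat_lit 15) (nat_lit 2))))
  (@Cl.mk (nat_lit 0x200020007000c0007000c000c0004000c00040004000900040009000e000e) (nat_lit 0x404508003029a) (nat_lit 16) Lb.e (@T16.mk En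
    (@En.n l601 (nat_lit 13334) (nat_lit 1) (nat_lit 14))
    (@En.i (nat_lit 7266) (nat_lit 1) (nat_lit 14))
    (@En.n l2213 (nat_lit 13807) (nat_lit 2) (nat_lit 9))
    (@En.i (nat_lit 13333) (nat_lit 3) (nat_lit 4))
    (@En.n l4817 (nat_lit 13830) (nat_lit 4) (nat_lit 9))
    (@En.n l152 (nat_lit 13292) (nat_lit 5) (nat_lit 4))
    (@En.n l3851 (nat_lit 14040) (nat_lit 6) (nat_lit 4))
    (@En.n l5552 (nat_lit 13284) (nat_lit 8) (nat_lit 12))
    (@En.n l2125 (nat_lit 14034) (nat_lit 8) (nat_lit 4))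
    (@En.n l3536 (nat_lit 13957) (nat_lit 10) (nat_lit 12))
    (@En.n l4817 (nat_lit 13878) (nat_lit 11) (nat_lit 12))
    (@En.n l7233 (nat_lit 13332) (nat_lit 12) (nat_lit 7))
    (@En.n l5777 (nat_lit 13568) (nat_lit 13) (nat_lit 12))
    (@En.i (nat_lit 7878) (nat_lit 14) (nat_lit 7))
    (@En.n l50 (nat_lit 13334) (nat_lit 14) (nat_lit 2))
    (@En.n l7 (nat_lit 13334) (nat_lit 15) (nat_lit 2))))
  (@Cl.mk (nat_lit 0x20002000a00080008000c000c000a000600040004000800080006000e000e) (nat_lit 0x23447700035067) (nat_lit 16) Lb.e (@T16.mk En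
    (@En.n l5 (nat_lit 13335) (nat_lit 1) (nat_lit 14))
    (@En.n l9952 (nat_lit 4485) (nat_lit 1) (nat_lit 14))
    (@En.n l476 (nat_lit 13328) (nat_lit 2) (nat_lit 6))
    (@En.n l152 (nat_lit 13960) (nat_lit 3) (nat_lit 8))
    (@En.n l2032 (nat_lit 14015) (nat_lit 4) (nat_lit 8))
    (@En.n l575 (nat_lit 13336) (nat_lit 5) (nat_lit 4))
    (@En.n l4522 (nat_lit 13962) (nat_lit 6) (nat_lit 4))
    (@En.n l9952 (nat_lit 13410) (nat_lit 7) (nat_lit 6))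
    (@En.n l1578 (nat_lit 13643) (nat_lit 9) (nat_lit 10))
    (@En.n l11799 (nat_lit 13958) (nat_lit 10) (nat_lit 12))
    (@En.n l13077 (nat_lit 13973) (nat_lit 11) (nat_lit 12))
    (@En.n l13078 (nat_lit 13939) (nat_lit 12) (nat_lit 8))
    (@En.n l8929 (nat_lit 13332) (nat_lit 13) (nat_lit 8))
    (@En.i (nat_lit 4837) (nat_lit 14) (nat_lit 10))
    (@En.n l17 (nat_lit 13335) (nat_lit 14) (nat_lit 2))
    (@En.n l18 (nat_lit 13335) (nat_lit 15) (nat_lit 2))))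
  (@Cl.mk (nat_lit 0x20002000900080008000e000c0002000b00070004000800080005000e000e) (nat_lit 0x23555070024056) (nat_lit 16) Lb.e (@T16.mk En
    (@En.n l5 (nat_lit 13336) (nat_lit 1) (nat_lit 14))
    (@En.n l3526 (nat_lit 5321) (nat_lit 1) (nat_lit 14))
    (@En.n l476 (nat_lit 13325) (nat_lit 2) (nat_lit 5))
    (@En.n l152 (nat_lit 14066) (nat_lit 3) (nat_lit 8))
    (@En.i (nat_lit 13690) (nat_lit 4) (nat_lit 8))
    (@En.i (nat_lit 13869) (nat_lit 5) (nat_lit 4))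
    (@En.n l4869 (nat_lit 13411) (nat_lit 6) (nat_lit 7))
    (@En.i (nat_lit 13638) (nat_lit 8) (nat_lit 11))
    (@En.n l11 (nat_lit 13336) (nat_lit 8) (nat_lit 2))
    (@En.i (nat_lit 13335) (nat_lit 10) (nat_lit 12))
    (@En.n l619 (nat_lit 13548) (nat_lit 11) (nat_lit 14))
    (@En.n l3066 (nat_lit 14018) (nat_lit 12) (nat_lit 8))
    (@En.n l3526 (nat_lit 13294) (nat_lit 13) (nat_lit 8))
    (@En.i (nat_lit 5229) (nat_lit 14) (nat_lit 9))
    (@En.n l17 (nat_lit 13336) (nat_lit 14) (nat_lit 2))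
    (@En.n l18 (nat_lit 13336) (nat_lit 15) (nat_lit 2))))
  (@Cl.mk (nat_lit 0x2000200080007000d000c000b0003000b00040008000500090005000e000e) (nat_lit 0x204470701020bc) (nat_lit 16) Lb.e (@T16.mk En
    (@En.n l5 (nat_lit 13337) (nat_lit 1) (nat_lit 14))
    (@En.n l11929 (nat_lit 5517) (nat_lit 1) (nat_lit 14))
    (@En.n l152 (nat_lit 14033) (nat_lit 2) (nat_lit 5))
    (@En.n l11930 (nat_lit 13698) (nat_lit 3) (nat_lit 9))
    (@En.n l11931 (nat_lit 13884) (nat_lit 4) (nat_lit 5))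
    (@En.i (nat_lit 13307) (nat_lit 5) (nat_lit 8))
    (@En.n l11765 (nat_lit 13332) (nat_lit 6) (nat_lit 4))
    (@En.n l11932 (nat_lit 13629) (nat_lit 8) (nat_lit 11))
    (@En.n l11933 (nat_lit 13882) (nat_lit 8) (nat_lit 3))
    (@En.n l11934 (nat_lit 13295) (nat_lit 10) (nat_lit 11))
    (@En.n l11933 (nat_lit 13883) (nat_lit 11) (nat_lit 12))
    (@En.n l625 (nat_lit 14019) (nat_lit 12) (nat_lit 13))
    (@En.n l11932 (nat_lit 13795) (nat_lit 13) (nat_lit 7))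
    (@En.n l253 (nat_lit 7810) (nat_lit 14) (nat_lit 8))
    (@En.n l17 (nat_lit 13337) (nat_lit 14) (nat_lit 2))
    (@En.n l18 (nat_lit 13337) (nat_lit 15) (nat_lit 2))))
  (@Cl.mk (nat_lit 0x20002000a000e00070002000b000e00060002000e000500020009000e000e) (nat_lit 0x14006900a0039a) (nat_lit 16) Lb.e (@T16.mk En
    (@En.n l1578 (nat_lit 13338) (nat_lit 1) (nat_lit 14))
    (@En.n l3334 (nat_lit 2706) (nat_lit 7) (nat_lit 14))
    (@En.i (nat_lit 13774) (nat_lit 2) (nat_lit 9))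
    (@En.n l725 (nat_lit 13338) (nat_lit 3) (nat_lit 2))
    (@En.n l17 (nat_lit 13252) (nat_lit 4) (nat_lit 5))
    (@En.n l3328 (nat_lit 13261) (nat_lit 6) (nat_lit 14))
    (@En.n l3 (nat_lit 13338) (nat_lit 6) (nat_lit 2))
    (@En.n l7645 (nat_lit 13238) (nat_lit 7) (nat_lit 6))
    (@En.n l3859 (nat_lit 14105) (nat_lit 4) (nat_lit 14))
    (@En.n l12294 (nat_lit 13322) (nat_lit 10) (nat_lit 11))
    (@En.n l50 (nat_lit 13338) (nat_lit 10) (nat_lit 2))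
    (@En.n l3858 (nat_lit 13248) (nat_lit 12) (nat_lit 7))
    (@En.n l3328 (nat_lit 278) (nat_lit 13) (nat_lit 14))
    (@En.i (nat_lit 4949) (nat_lit 2) (nat_lit 10))
    (@En.n l28 (nat_lit 13338) (nat_lit 14) (nat_lit 2))
    (@En.n l11 (nat_lit 13338) (nat_lit 15) (nat_lit 2))))
  (@Cl.mk (nat_lit 0x2000200090006000c000a000a000d00040007000300060006000a000e000e) (nat_lit 0x30756000000345) (nat_lit 16) Lb.e (@T16.mk En
    (@En.n l5 (nat_lit 13339) (nat_lit 1) (nat_lit 14))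
    (@En.n l26362 (nat_lit 2202) (nat_lit 1) (nat_lit 14))
    (@En.i (nat_lit 13522) (nat_lit 2) (nat_lit 10))
    (@En.n l25334 (nat_lit 13348) (nat_lit 3) (nat_lit 6))
    (@En.n l26363 (nat_lit 13349) (nat_lit 4) (nat_lit 6))
    (@En.n l13679 (nat_lit 13342) (nat_lit 5) (nat_lit 3))
    (@En.n l9004 (nat_lit 13252) (nat_lit 6) (nat_lit 7))
    (@En.n l26364 (nat_lit 13344) (nat_lit 7) (nat_lit 4))
    (@En.n l26365 (nat_lit 13340) (nat_lit 9) (nat_lit 13))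
    (@En.n l26366 (nat_lit 13340) (nat_lit 10) (nat_lit 10))
    (@En.n l26367 (nat_lit 13167) (nat_lit 11) (nat_lit 10))
    (@En.n l11928 (nat_lit 13542) (nat_lit 12) (nat_lit 12))
    (@En.i (nat_lit 13910) (nat_lit 13) (nat_lit 6))
    (@En.n l420 (nat_lit 1500) (nat_lit 14) (nat_lit 9))
    (@En.n l17 (nat_lit 13339) (nat_lit 14) (nat_lit 2))
    (@En.n l18 (nat_lit 13339) (nat_lit 15) (nat_lit 2))))
  (@Cl.mk (nat_lit 0x20002000a0006000d000a000d000300060003000e00060002000a000e000e) (nat_lit 0x2075b000a004bc) (nat_lit 16) Lb.e (@T16.mk En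
    (@En.n l97 (nat_lit 13340) (nat_lit 1) (nat_lit 14))
    (@En.n l4356 (nat_lit 2391) (nat_lit 1) (nat_lit 14))
    (@En.n l7348 (nat_lit 13420) (nat_lit 2) (nat_lit 10))
    (@En.n l18 (nat_lit 13340) (nat_lit 3) (nat_lit 2))
    (@En.n l17485 (nat_lit 13339) (nat_lit 4) (nat_lit 6))
    (@En.n l7017 (nat_lit 13345) (nat_lit 6) (nat_lit 14))
    (@En.n l7 (nat_lit 13341) (nat_lit 6) (nat_lit 3))
    (@En.n l4807 (nat_lit 13338) (nat_lit 7) (nat_lit 6))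
    (@En.n l4497 (nat_lit 13343) (nat_lit 8) (nat_lit 3))
    (@En.n l7055 (nat_lit 14078) (nat_lit 5) (nat_lit 13))
    (@En.i (nat_lit 13166) (nat_lit 11) (nat_lit 10))
    (@En.n l7055 (nat_lit 13545) (nat_lit 12) (nat_lit 13))
    (@En.n l7348 (nat_lit 13914) (nat_lit 13) (nat_lit 6))
    (@En.n l4356 (nat_lit 1501) (nat_lit 14) (nat_lit 10))
    (@En.n l107 (nat_lit 13340) (nat_lit 14) (nat_lit 2))
    (@En.n l3 (nat_lit 13340) (nat_lit 15) (nat_lit 2))))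
  (@Cl.mk (nat_lit 0x20002000b0006000c000a000d000500040003000e00060002000a000e000e) (nat_lit 0x10350000a006bc) (nat_lit 16) Lb.e (@T16.mk En
    (@En.n l97 (nat_lit 13341) (nat_lit 1) (nat_lit 14))
    (@En.n l33218 (nat_lit 2395) (nat_lit 1) (nat_lit 14))
    (@En.n l671 (nat_lit 13421) (nat_lit 2) (nat_lit 10))
    (@En.n l18 (nat_lit 13341) (nat_lit 3) (nat_lit 2))
    (@En.n l61 (nat_lit 13342) (nat_lit 4) (nat_lit 6))
    (@En.n l17496 (nat_lit 13562) (nat_lit 6) (nat_lit 14))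
    (@En.i (nat_lit 13340) (nat_lit 6) (nat_lit 3))
    (@En.n l33218 (nat_lit 13566) (nat_lit 7) (nat_lit 4))
    (@En.n l1430 (nat_lit 13356) (nat_lit 8) (nat_lit 5))
    (@En.n l7055 (nat_lit 14075) (nat_lit 5) (nat_lit 13))
    (@En.i (nat_lit 13164) (nat_lit 11) (nat_lit 10))
    (@En.n l7055 (nat_lit 14095) (nat_lit 12) (nat_lit 12))
    (@En.n l4497 (nat_lit 13913) (nat_lit 13) (nat_lit 6))
    (@En.n l3348 (nat_lit 1675) (nat_lit 14) (nat_lit 11))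
    (@En.n l107 (nat_lit 13341) (nat_lit 14) (nat_lit 2))
    (@En.n l3 (nat_lit 13341) (nat_lit 15) (nat_lit 2))))
  (@Cl.mk (nat_lit 0x20002000a0006000b000a000a000d00060005000300060006000a000e000e) (nat_lit 0x103561000004bc) (nat_lit 16) Lb.e (@T16.mk En
    (@En.n l97 (nat_lit 13342) (nat_lit 1) (nat_lit 14))
    (@En.n l17 (nat_lit 2397) (nat_lit 1) (nat_lit 14))
    (@En.n l5549 (nat_lit 13524) (nat_lit 2) (nat_lit 10))
    (@En.n l26357 (nat_lit 13350) (nat_lit 3) (nat_lit 6))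
    (@En.n l26358 (nat_lit 13591) (nat_lit 4) (nat_lit 6))
    (@En.n l12712 (nat_lit 13339) (nat_lit 5) (nat_lit 3))
    (@En.n l26359 (nat_lit 13567) (nat_lit 6) (nat_lit 5))
    (@En.n l26360 (nat_lit 13853) (nat_lit 7) (nat_lit 6))
    (@En.n l617 (nat_lit 13341) (nat_lit 9) (nat_lit 13))
    (@En.n l2687 (nat_lit 13341) (nat_lit 10) (nat_lit 10))
    (@En.i (nat_lit 13165) (nat_lit 11) (nat_lit 10))
    (@En.n l217 (nat_lit 13714) (nat_lit 12) (nat_lit 11))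
    (@En.n l26361 (nat_lit 13912) (nat_lit 13) (nat_lit 6))
    (@En.i (nat_lit 1670) (nat_lit 14) (nat_lit 10))
    (@En.n l107 (nat_lit 13342) (nat_lit 14) (nat_lit 2))
    (@En.n l3 (nat_lit 13342) (nat_lit 15) (nat_lit 2))))
  (@Cl.mk (nat_lit 0x20002000a0006000d000c000b000300060004000e00050002000a000e000e) (nat_lit 0x20945000a004bc) (nat_lit 16) Lb.e (@T16.mk En
    (@En.n l5 (nat_lit 13343) (nat_lit 1) (nat_lit 14))
    (@En.n l420 (nat_lit 2385) (nat_lit 1) (nat_lit 14))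
    (@En.n l11680 (nat_lit 13527) (nat_lit 2) (nat_lit 10))
    (@En.n l28 (nat_lit 13343) (nat_lit 3) (nat_lit 2))
    (@En.n l26352 (nat_lit 13344) (nat_lit 4) (nat_lit 5))
    (@En.n l26353 (nat_lit 13347) (nat_lit 6) (nat_lit 14))
    (@En.n l117 (nat_lit 13565) (nat_lit 6) (nat_lit 4))
    (@En.n l26354 (nat_lit 13352) (nat_lit 7) (nat_lit 6))
    (@En.n l25837 (nat_lit 13340) (nat_lit 8) (nat_lit 3))
    (@En.n l26355 (nat_lit 14101) (nat_lit 10) (nat_lit 11))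
    (@En.n l4980 (nat_lit 13341) (nat_lit 11) (nat_lit 12))
    (@En.n l8 (nat_lit 13540) (nat_lit 12) (nat_lit 13))
    (@En.i (nat_lit 13915) (nat_lit 13) (nat_lit 6))
    (@En.n l420 (nat_lit 1789) (nat_lit 14) (nat_lit 10))
    (@En.n l17 (nat_lit 13343) (nat_lit 14) (nat_lit 2))
    (@En.n l18 (nat_lit 13343) (nat_lit 15) (nat_lit 2))))
noncomputable def a834 : T16 Cl := @T16.mk Cl
  (@Cl.mk (nat_lit 0x2000200090006000c000b000b000b00040007000500050005000a000e000e) (nat_lit 0x207476000003bc) (nat_lit 16) Lb.e (@T16.mk En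
    (@En.n l601 (nat_lit 13344) (nat_lit 1) (nat_lit 14))
    (@En.i (nat_lit 2222) (nat_lit 1) (nat_lit 14))
    (@En.n l5702 (nat_lit 13526) (nat_lit 2) (nat_lit 10))
    (@En.n l11 (nat_lit 13349) (nat_lit 3) (nat_lit 5))
    (@En.n l12591 (nat_lit 13351) (nat_lit 4) (nat_lit 5))
    (@En.n l5708 (nat_lit 13568) (nat_lit 5) (nat_lit 5))
    (@En.i (nat_lit 13260) (nat_lit 6) (nat_lit 7))
    (@En.n l227 (nat_lit 13346) (nat_lit 7) (nat_lit 4))
    (@En.n l12592 (nat_lit 13343) (nat_lit 9) (nat_lit 11))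
    (@En.n l230 (nat_lit 13345) (nat_lit 10) (nat_lit 11))
    (@En.n l12593 (nat_lit 13342) (nat_lit 11) (nat_lit 11))
    (@En.n l5708 (nat_lit 13538) (nat_lit 12) (nat_lit 12))
    (@En.n l2159 (nat_lit 13725) (nat_lit 13) (nat_lit 6))
    (@En.i (nat_lit 961) (nat_lit 14) (nat_lit 9))
    (@En.n l50 (nat_lit 13344) (nat_lit 14) (nat_lit 2))
    (@En.n l7 (nat_lit 13344) (nat_lit 15) (nat_lit 2))))
  (@Cl.mk (nat_lit 0x20002000a0006000d000b000a00030006000e000500020006000a000e000e) (nat_lit 0x10a670090004bc) (nat_lit 16) Lb.e (@T16.mk En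
    (@En.n l97 (nat_lit 13345) (nat_lit 1) (nat_lit 14))
    (@En.n l613 (nat_lit 2307) (nat_lit 13) (nat_lit 14))
    (@En.i (nat_lit 13599) (nat_lit 2) (nat_lit 10))
    (@En.n l12715 (nat_lit 13339) (nat_lit 3) (nat_lit 6))
    (@En.n l17 (nat_lit 13345) (nat_lit 4) (nat_lit 2))
    (@En.n l215 (nat_lit 13344) (nat_lit 5) (nat_lit 5))
    (@En.n l12655 (nat_lit 13509) (nat_lit 7) (nat_lit 14))
    (@En.i (nat_lit 13261) (nat_lit 7) (nat_lit 6))
    (@En.n l50 (nat_lit 13347) (nat_lit 8) (nat_lit 3))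
    (@En.n l767 (nat_lit 13595) (nat_lit 10) (nat_lit 10))
    (@En.n l13775 (nat_lit 13168) (nat_lit 11) (nat_lit 11))
    (@En.n l26356 (nat_lit 13541) (nat_lit 12) (nat_lit 13))
    (@En.n l12655 (nat_lit 13922) (nat_lit 13) (nat_lit 6))
    (@En.n l613 (nat_lit 1524) (nat_lit 9) (nat_lit 10))
    (@En.n l107 (nat_lit 13345) (nat_lit 14) (nat_lit 2))
    (@En.n l3 (nat_lit 13345) (nat_lit 15) (nat_lit 2))))
  (@Cl.mk (nat_lit 0x2000200090006000c0009000c000c00040007000400040007000a000e000e) (nat_lit 0x30a657000003bc) (nat_lit 16) Lb.e (@T16.mk En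
    (@En.n l97 (nat_lit 13346) (nat_lit 1) (nat_lit 14))
    (@En.i (nat_lit 1855) (nat_lit 1) (nat_lit 14))
    (@En.i (nat_lit 13529) (nat_lit 2) (nat_lit 10))
    (@En.n l14040 (nat_lit 13534) (nat_lit 3) (nat_lit 7))
    (@En.n l5205 (nat_lit 13534) (nat_lit 4) (nat_lit 4))
    (@En.n l12491 (nat_lit 13168) (nat_lit 5) (nat_lit 4))
    (@En.n l2869 (nat_lit 712) (nat_lit 6) (nat_lit 7))
    (@En.n l4497 (nat_lit 13339) (nat_lit 7) (nat_lit 4))
    (@En.n l61 (nat_lit 13347) (nat_lit 9) (nat_lit 12))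
    (@En.n l12534 (nat_lit 13343) (nat_lit 10) (nat_lit 12))
    (@En.n l12286 (nat_lit 13499) (nat_lit 11) (nat_lit 9))
    (@En.i (nat_lit 13535) (nat_lit 12) (nat_lit 12))
    (@En.n l25976 (nat_lit 13924) (nat_lit 13) (nat_lit 6))
    (@En.n l2869 (nat_lit 1470) (nat_lit 14) (nat_lit 9))
    (@En.n l107 (nat_lit 13346) (nat_lit 14) (nat_lit 2))
    (@En.n l3 (nat_lit 13346) (nat_lit 15) (nat_lit 2))))
  (@Cl.mk (nat_lit 0x20002000a0006000d0009000c00030006000e000400020007000a000e000e) (nat_lit 0x309660090004bc) (nat_lit 16) Lb.e (@T16.mk En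
    (@En.n l97 (nat_lit 13347) (nat_lit 1) (nat_lit 14))
    (@En.n l1998 (nat_lit 1854) (nat_lit 13) (nat_lit 14))
    (@En.i (nat_lit 13814) (nat_lit 2) (nat_lit 10))
    (@En.n l617 (nat_lit 13346) (nat_lit 3) (nat_lit 7))
    (@En.n l17 (nat_lit 13347) (nat_lit 4) (nat_lit 2))
    (@En.i (nat_lit 13346) (nat_lit 5) (nat_lit 4))
    (@En.n l12534 (nat_lit 13510) (nat_lit 7) (nat_lit 14))
    (@En.i (nat_lit 718) (nat_lit 7) (nat_lit 6))
    (@En.i (nat_lit 13345) (nat_lit 8) (nat_lit 3))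
    (@En.n l12534 (nat_lit 14102) (nat_lit 10) (nat_lit 12))
    (@En.n l13772 (nat_lit 13563) (nat_lit 11) (nat_lit 9))
    (@En.n l12494 (nat_lit 13539) (nat_lit 12) (nat_lit 13))
    (@En.n l12534 (nat_lit 13923) (nat_lit 13) (nat_lit 6))
    (@En.i (nat_lit 1479) (nat_lit 9) (nat_lit 10))
    (@En.n l107 (nat_lit 13347) (nat_lit 14) (nat_lit 2))
    (@En.n l3 (nat_lit 13347) (nat_lit 15) (nat_lit 2))))
  (@Cl.mk (nat_lit 0x2000200080006000b000e000a0002000d0005000800030006000a000e000e) (nat_lit 0x30766010500234) (nat_lit 16) Lb.e (@T16.mk En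
    (@En.n l5 (nat_lit 13348) (nat_lit 1) (nat_lit 14))
    (@En.n l1643 (nat_lit 2200) (nat_lit 1) (nat_lit 14))
    (@En.n l2031 (nat_lit 13521) (nat_lit 2) (nat_lit 10))
    (@En.n l1504 (nat_lit 13507) (nat_lit 3) (nat_lit 6))
    (@En.i (nat_lit 13350) (nat_lit 4) (nat_lit 3))
    (@En.n l2031 (nat_lit 13253) (nat_lit 5) (nat_lit 8))
    (@En.n l2903 (nat_lit 13349) (nat_lit 6) (nat_lit 5))
    (@En.n l12596 (nat_lit 13339) (nat_lit 8) (nat_lit 13))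
    (@En.n l107 (nat_lit 13348) (nat_lit 8) (nat_lit 2))
    (@En.n l12597 (nat_lit 13339) (nat_lit 10) (nat_lit 10))
    (@En.i (nat_lit 13413) (nat_lit 11) (nat_lit 14))
    (@En.n l4758 (nat_lit 13544) (nat_lit 12) (nat_lit 11))
    (@En.n l1504 (nat_lit 13940) (nat_lit 13) (nat_lit 6))
    (@En.n l2568 (nat_lit 1664) (nat_lit 14) (nat_lit 8))
    (@En.n l17 (nat_lit 13348) (nat_lit 14) (nat_lit 2))
    (@En.n l18 (nat_lit 13348) (nat_lit 15) (nat_lit 2))))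
  (@Cl.mk (nat_lit 0x2000200080006000b000a000e000b00020005000800060005000a000e000e) (nat_lit 0x30747800400234) (nat_lit 16) Lb.e (@T16.mk En
    (@En.n l601 (nat_lit 13349) (nat_lit 1) (nat_lit 14))
    (@En.i (nat_lit 2204) (nat_lit 10) (nat_lit 14))
    (@En.n l255 (nat_lit 13518) (nat_lit 2) (nat_lit 10))
    (@En.i (nat_lit 13506) (nat_lit 3) (nat_lit 5))
    (@En.n l728 (nat_lit 13575) (nat_lit 4) (nat_lit 6))
    (@En.i (nat_lit 13255) (nat_lit 5) (nat_lit 8))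
    (@En.n l4824 (nat_lit 13351) (nat_lit 6) (nat_lit 5))
    (@En.n l67 (nat_lit 13349) (nat_lit 7) (nat_lit 2))
    (@En.n l68 (nat_lit 13344) (nat_lit 9) (nat_lit 11))
    (@En.n l4662 (nat_lit 13348) (nat_lit 10) (nat_lit 14))
    (@En.n l4820 (nat_lit 13350) (nat_lit 11) (nat_lit 10))
    (@En.n l4825 (nat_lit 13543) (nat_lit 12) (nat_lit 11))
    (@En.n l2138 (nat_lit 13726) (nat_lit 13) (nat_lit 6))
    (@En.i (nat_lit 1663) (nat_lit 5) (nat_lit 8))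
    (@En.n l50 (nat_lit 13349) (nat_lit 14) (nat_lit 2))
    (@En.n l7 (nat_lit 13349) (nat_lit 15) (nat_lit 2))))
  (@Cl.mk (nat_lit 0x2000200090006000a000e000a0002000d0007000600030006000a000e000e) (nat_lit 0x103660200003bc) (nat_lit 16) Lb.e (@T16.mk En
    (@En.n l5 (nat_lit 13350) (nat_lit 1) (nat_lit 14))
    (@En.n l1643 (nat_lit 3679) (nat_lit 1) (nat_lit 14))
    (@En.n l10295 (nat_lit 13523) (nat_lit 2) (nat_lit 10))
    (@En.n l538 (nat_lit 13512) (nat_lit 3) (nat_lit 6))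
    (@En.n l7 (nat_lit 13348) (nat_lit 4) (nat_lit 3))
    (@En.n l10295 (nat_lit 13569) (nat_lit 5) (nat_lit 6))
    (@En.n l12614 (nat_lit 13846) (nat_lit 6) (nat_lit 7))
    (@En.n l12615 (nat_lit 13342) (nat_lit 8) (nat_lit 13))
    (@En.n l107 (nat_lit 13350) (nat_lit 8) (nat_lit 2))
    (@En.n l12616 (nat_lit 13342) (nat_lit 10) (nat_lit 10))
    (@En.i (nat_lit 13414) (nat_lit 11) (nat_lit 14))
    (@En.n l4758 (nat_lit 13710) (nat_lit 12) (nat_lit 10))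
    (@En.n l1504 (nat_lit 13911) (nat_lit 13) (nat_lit 6))
    (@En.i (nat_lit 1667) (nat_lit 14) (nat_lit 9))
    (@En.n l17 (nat_lit 13350) (nat_lit 14) (nat_lit 2))
    (@En.n l18 (nat_lit 13350) (nat_lit 15) (nat_lit 2))))
  (@Cl.mk (nat_lit 0x2000200080006000b000e000b0002000c0005000800050004000a000e000e) (nat_lit 0x509450804002bc) (nat_lit 16) Lb.e (@T16.mk En
    (@En.n l5 (nat_lit 13351) (nat_lit 1) (nat_lit 14))
    (@En.n l420 (nat_lit 2187) (nat_lit 9) (nat_lit 14))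
    (@En.n l12580 (nat_lit 13530) (nat_lit 2) (nat_lit 10))
    (@En.i (nat_lit 13505) (nat_lit 3) (nat_lit 4))
    (@En.n l4602 (nat_lit 13166) (nat_lit 4) (nat_lit 5))
    (@En.n l9779 (nat_lit 13289) (nat_lit 5) (nat_lit 8))
    (@En.n l12581 (nat_lit 13534) (nat_lit 6) (nat_lit 5))
    (@En.n l12582 (nat_lit 13346) (nat_lit 8) (nat_lit 12))
    (@En.n l107 (nat_lit 13351) (nat_lit 8) (nat_lit 2))
    (@En.n l9779 (nat_lit 13344) (nat_lit 10) (nat_lit 11))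
    (@En.n l619 (nat_lit 13496) (nat_lit 11) (nat_lit 14))
    (@En.n l8 (nat_lit 13537) (nat_lit 12) (nat_lit 11))
    (@En.i (nat_lit 13727) (nat_lit 13) (nat_lit 6))
    (@En.n l9779 (nat_lit 960) (nat_lit 14) (nat_lit 8))
    (@En.n l17 (nat_lit 13351) (nat_lit 14) (nat_lit 2))
    (@En.n l18 (nat_lit 13351) (nat_lit 15) (nat_lit 2))))
  (@Cl.mk (nat_lit 0x20002000a000e00070002000d000c00060003000e000400020009000e000e) (nat_lit 0x2400b8001005ab) (nat_lit 16) Lb.e (@T16.mk En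
    (@En.n l601 (nat_lit 13352) (nat_lit 1) (nat_lit 14))
    (@En.i (nat_lit 965) (nat_lit 1) (nat_lit 14))
    (@En.n l614 (nat_lit 13630) (nat_lit 2) (nat_lit 9))
    (@En.n l11 (nat_lit 13352) (nat_lit 3) (nat_lit 2))
    (@En.n l117 (nat_lit 13260) (nat_lit 4) (nat_lit 4))
    (@En.n l1016 (nat_lit 718) (nat_lit 6) (nat_lit 14))
    (@En.n l936 (nat_lit 13353) (nat_lit 6) (nat_lit 3))
    (@En.i (nat_lit 12994) (nat_lit 7) (nat_lit 6))
    (@En.n l936 (nat_lit 13258) (nat_lit 9) (nat_lit 12))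
    (@En.n l12686 (nat_lit 13356) (nat_lit 10) (nat_lit 13))
    (@En.n l17 (nat_lit 13352) (nat_lit 10) (nat_lit 2))
    (@En.n l26700 (nat_lit 13154) (nat_lit 12) (nat_lit 7))
    (@En.n l1016 (nat_lit 279) (nat_lit 13) (nat_lit 14))
    (@En.i (nat_lit 5203) (nat_lit 14) (nat_lit 10))
    (@En.n l50 (nat_lit 13352) (nat_lit 14) (nat_lit 2))
    (@En.n l7 (nat_lit 13352) (nat_lit 15) (nat_lit 2))))
  (@Cl.mk (nat_lit 0x20002000b000e00070002000d0005000d0003000e000300020009000e000e) (nat_lit 0x3400a0903006ab) (nat_lit 16) Lb.e (@T16.mk En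
    (@En.n l601 (nat_lit 13353) (nat_lit 1) (nat_lit 14))
    (@En.i (nat_lit 964) (nat_lit 1) (nat_lit 14))
    (@En.n l2031 (nat_lit 13625) (nat_lit 2) (nat_lit 9))
    (@En.n l11 (nat_lit 13353) (nat_lit 3) (nat_lit 2))
    (@En.n l117 (nat_lit 13258) (nat_lit 4) (nat_lit 3))
    (@En.n l1998 (nat_lit 13819) (nat_lit 0) (nat_lit 14))
    (@En.n l2576 (nat_lit 13352) (nat_lit 6) (nat_lit 3))
    (@En.i (nat_lit 13288) (nat_lit 8) (nat_lit 13))
    (@En.n l4817 (nat_lit 13354) (nat_lit 8) (nat_lit 5))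
    (@En.i (nat_lit 13355) (nat_lit 10) (nat_lit 13))
    (@En.n l17 (nat_lit 13353) (nat_lit 10) (nat_lit 2))
    (@En.n l9607 (nat_lit 13152) (nat_lit 12) (nat_lit 7))
    (@En.n l2031 (nat_lit 282) (nat_lit 13) (nat_lit 14))
    (@En.i (nat_lit 2458) (nat_lit 10) (nat_lit 11))
    (@En.n l50 (nat_lit 13353) (nat_lit 14) (nat_lit 2))
    (@En.n l7 (nat_lit 13353) (nat_lit 15) (nat_lit 2))))
  (@Cl.mk (nat_lit 0x20002000b000a000e000800020005000d0006000e000300020008000e000e) (nat_lit 0x33540090a00589) (nat_lit 16) Lb.e (@T16.mk En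
    (@En.n l5 (nat_lit 13354) (nat_lit 1) (nat_lit 14))
    (@En.n l10976 (nat_lit 966) (nat_lit 8) (nat_lit 14))
    (@En.n l12874 (nat_lit 13632) (nat_lit 2) (nat_lit 8))
    (@En.n l28 (nat_lit 13354) (nat_lit 3) (nat_lit 2))
    (@En.n l4770 (nat_lit 13259) (nat_lit 4) (nat_lit 3))
    (@En.n l3258 (nat_lit 13820) (nat_lit 0) (nat_lit 14))
    (@En.n l12875 (nat_lit 12992) (nat_lit 6) (nat_lit 6))
    (@En.n l4589 (nat_lit 13265) (nat_lit 8) (nat_lit 13))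
    (@En.i (nat_lit 14100) (nat_lit 8) (nat_lit 5))
    (@En.n l8 (nat_lit 13354) (nat_lit 9) (nat_lit 2))
    (@En.n l538 (nat_lit 13150) (nat_lit 11) (nat_lit 8))
    (@En.n l4589 (nat_lit 13353) (nat_lit 12) (nat_lit 14))
    (@En.n l12876 (nat_lit 13352) (nat_lit 13) (nat_lit 10))
    (@En.i (nat_lit 2450) (nat_lit 3) (nat_lit 11))
    (@En.n l17 (nat_lit 13354) (nat_lit 14) (nat_lit 2))
    (@En.n l18 (nat_lit 13354) (nat_lit 15) (nat_lit 2))))
  (@Cl.mk (nat_lit 0x20002000c000a0007000d0004000c00030006000e000400020009000e000e) (nat_lit 0x330906004007ab) (nat_lit 16) Lb.e (@T16.mk En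
    (@En.n l601 (nat_lit 13355) (nat_lit 1) (nat_lit 14))
    (@En.i (nat_lit 3439) (nat_lit 1) (nat_lit 14))
    (@En.n l2031 (nat_lit 13623) (nat_lit 2) (nat_lit 9))
    (@En.n l11 (nat_lit 13355) (nat_lit 3) (nat_lit 2))
    (@En.n l117 (nat_lit 13357) (nat_lit 4) (nat_lit 4))
    (@En.n l3348 (nat_lit 13152) (nat_lit 6) (nat_lit 14))
    (@En.n l12585 (nat_lit 13354) (nat_lit 6) (nat_lit 6))
    (@En.n l7610 (nat_lit 13356) (nat_lit 7) (nat_lit 3))
    (@En.i (nat_lit 13292) (nat_lit 9) (nat_lit 12))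
    (@En.n l4817 (nat_lit 13364) (nat_lit 9) (nat_lit 4))
    (@En.n l7610 (nat_lit 13358) (nat_lit 11) (nat_lit 13))
    (@En.n l2099 (nat_lit 13360) (nat_lit 12) (nat_lit 7))
    (@En.n l12586 (nat_lit 13343) (nat_lit 13) (nat_lit 10))
    (@En.i (nat_lit 3463) (nat_lit 10) (nat_lit 12))
    (@En.n l50 (nat_lit 13355) (nat_lit 14) (nat_lit 2))
    (@En.n l7 (nat_lit 13355) (nat_lit 15) (nat_lit 2))))
  (@Cl.mk (nat_lit 0x20002000b000a0007000d000b000500030006000e000500020009000e000e) (nat_lit 0x230a60002006ab) (nat_lit 16) Lb.e (@T16.mk En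
    (@En.n l5 (nat_lit 13356) (nat_lit 1) (nat_lit 14))
    (@En.n l12876 (nat_lit 4616) (nat_lit 1) (nat_lit 14))
    (@En.n l26350 (nat_lit 13627) (nat_lit 2) (nat_lit 9))
    (@En.n l28 (nat_lit 13356) (nat_lit 3) (nat_lit 2))
    (@En.n l4770 (nat_lit 13853) (nat_lit 4) (nat_lit 5))
    (@En.n l26351 (nat_lit 13154) (nat_lit 6) (nat_lit 14))
    (@En.n l26325 (nat_lit 13238) (nat_lit 6) (nat_lit 6))
    (@En.n l10976 (nat_lit 13355) (nat_lit 7) (nat_lit 3))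
    (@En.n l12876 (nat_lit 12996) (nat_lit 8) (nat_lit 5))
    (@En.n l1554 (nat_lit 13977) (nat_lit 10) (nat_lit 11))
    (@En.i (nat_lit 13359) (nat_lit 11) (nat_lit 13))
    (@En.n l1504 (nat_lit 13361) (nat_lit 12) (nat_lit 7))
    (@En.n l4449 (nat_lit 13340) (nat_lit 13) (nat_lit 10))
    (@En.i (nat_lit 6947) (nat_lit 10) (nat_lit 11))
    (@En.n l17 (nat_lit 13356) (nat_lit 14) (nat_lit 2))
    (@En.n l18 (nat_lit 13356) (nat_lit 15) (nat_lit 2))))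
  (@Cl.mk (nat_lit 0x20002000c00090007000c0004000c000c00040007000400040009000e000e) (nat_lit 0x3306077000079a) (nat_lit 16) Lb.e (@T16.mk En
    (@En.n l601 (nat_lit 13357) (nat_lit 1) (nat_lit 14))
    (@En.i (nat_lit 7380) (nat_lit 1) (nat_lit 14))
    (@En.n l4813 (nat_lit 13621) (nat_lit 2) (nat_lit 9))
    (@En.n l1154 (nat_lit 13849) (nat_lit 3) (nat_lit 4))
    (@En.n l4814 (nat_lit 13977) (nat_lit 4) (nat_lit 4))
    (@En.n l3531 (nat_lit 13259) (nat_lit 5) (nat_lit 7))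
    (@En.n l4815 (nat_lit 14038) (nat_lit 6) (nat_lit 4))
    (@En.n l619 (nat_lit 13355) (nat_lit 8) (nat_lit 12))
    (@En.i (nat_lit 14036) (nat_lit 9) (nat_lit 12))
    (@En.n l4816 (nat_lit 13574) (nat_lit 9) (nat_lit 4))
    (@En.n l4817 (nat_lit 13365) (nat_lit 11) (nat_lit 12))
    (@En.n l4818 (nat_lit 13885) (nat_lit 12) (nat_lit 7))
    (@En.n l3531 (nat_lit 13344) (nat_lit 13) (nat_lit 9))
    (@En.i (nat_lit 6346) (nat_lit 14) (nat_lit 12))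
    (@En.n l50 (nat_lit 13357) (nat_lit 14) (nat_lit 2))
    (@En.n l7 (nat_lit 13357) (nat_lit 15) (nat_lit 2))))
  (@Cl.mk (nat_lit 0x20002000d000a000d0003000b0003000b0006000e000500020005000e000e) (nat_lit 0x33806080500067) (nat_lit 16) Lb.e (@T16.mk En
    (@En.n l5 (nat_lit 13358) (nat_lit 1) (nat_lit 14))
    (@En.n l4842 (nat_lit 3433) (nat_lit 1) (nat_lit 14))
    (@En.n l4843 (nat_lit 13933) (nat_lit 2) (nat_lit 5))
    (@En.n l28 (nat_lit 13358) (nat_lit 3) (nat_lit 2))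
    (@En.n l4844 (nat_lit 13365) (nat_lit 4) (nat_lit 5))
    (@En.n l4845 (nat_lit 13360) (nat_lit 6) (nat_lit 14))
    (@En.n l4846 (nat_lit 13355) (nat_lit 6) (nat_lit 6))
    (@En.n l1554 (nat_lit 13147) (nat_lit 8) (nat_lit 11))
    (@En.i (nat_lit 13359) (nat_lit 8) (nat_lit 3))
    (@En.n l4847 (nat_lit 13327) (nat_lit 10) (nat_lit 11))
    (@En.n l1455 (nat_lit 13362) (nat_lit 10) (nat_lit 3))
    (@En.n l4848 (nat_lit 13023) (nat_lit 12) (nat_lit 13))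
    (@En.n l4849 (nat_lit 13540) (nat_lit 13) (nat_lit 10))
    (@En.n l4850 (nat_lit 3462) (nat_lit 10) (nat_lit 13))
    (@En.n l17 (nat_lit 13358) (nat_lit 14) (nat_lit 2))
    (@En.n l18 (nat_lit 13358) (nat_lit 15) (nat_lit 2))))
  (@Cl.mk (nat_lit 0x20002000c000a000d000a00040003000b0006000e000600020005000e000e) (nat_lit 0x24960070300067) (nat_lit 16) Lb.e (@T16.mk En
    (@En.n l5 (nat_lit 13359) (nat_lit 1) (nat_lit 14))
    (@En.n l4842 (nat_lit 3435) (nat_lit 1) (nat_lit 14))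
    (@En.n l4843 (nat_lit 13931) (nat_lit 2) (nat_lit 5))
    (@En.n l28 (nat_lit 13359) (nat_lit 3) (nat_lit 2))
    (@En.n l12589 (nat_lit 13854) (nat_lit 4) (nat_lit 6))
    (@En.n l2038 (nat_lit 13361) (nat_lit 6) (nat_lit 14))
    (@En.n l8 (nat_lit 13356) (nat_lit 6) (nat_lit 6))
    (@En.i (nat_lit 13620) (nat_lit 8) (nat_lit 11))
    (@En.n l3431 (nat_lit 13358) (nat_lit 8) (nat_lit 3))
    (@En.n l5372 (nat_lit 14094) (nat_lit 9) (nat_lit 4))
    (@En.i (nat_lit 13897) (nat_lit 11) (nat_lit 10))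
    (@En.n l12680 (nat_lit 13024) (nat_lit 12) (nat_lit 13))
    (@En.n l6213 (nat_lit 13545) (nat_lit 13) (nat_lit 10))
    (@En.i (nat_lit 6946) (nat_lit 10) (nat_lit 12))
    (@En.n l17 (nat_lit 13359) (nat_lit 14) (nat_lit 2))
    (@En.n l18 (nat_lit 13359) (nat_lit 15) (nat_lit 2))))
noncomputable def a835 : T16 Cl := @T16.mk Cl
  (@Cl.mk (nat_lit 0x20002000d0007000d0003000c0003000b000e0004000200090005000e000e) (nat_lit 0x30a06084007067) (nat_lit 16) Lb.e (@T16.mk En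
    (@En.n l5 (nat_lit 13360) (nat_lit 1) (nat_lit 14))
    (@En.n l11922 (nat_lit 7066) (nat_lit 1) (nat_lit 14))
    (@En.n l11923 (nat_lit 13358) (nat_lit 2) (nat_lit 5))
    (@En.n l11924 (nat_lit 13864) (nat_lit 3) (nat_lit 9))
    (@En.n l28 (nat_lit 13360) (nat_lit 4) (nat_lit 2))
    (@En.n l11925 (nat_lit 13885) (nat_lit 5) (nat_lit 4))
    (@En.n l11922 (nat_lit 13209) (nat_lit 7) (nat_lit 14))
    (@En.n l11926 (nat_lit 13145) (nat_lit 8) (nat_lit 11))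
    (@En.n l11927 (nat_lit 13361) (nat_lit 8) (nat_lit 3))
    (@En.n l1643 (nat_lit 13294) (nat_lit 10) (nat_lit 12))
    (@En.n l11928 (nat_lit 13363) (nat_lit 10) (nat_lit 3))
    (@En.n l11926 (nat_lit 13019) (nat_lit 12) (nat_lit 13))
    (@En.i (nat_lit 13908) (nat_lit 13) (nat_lit 7))
    (@En.n l6296 (nat_lit 3464) (nat_lit 9) (nat_lit 13))
    (@En.n l17 (nat_lit 13360) (nat_lit 14) (nat_lit 2))
    (@En.n l18 (nat_lit 13360) (nat_lit 15) (nat_lit 2))))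
  (@Cl.mk (nat_lit 0x20002000c0007000d000b00040003000b000e0005000200090005000e000e) (nat_lit 0x90960082006023) (nat_lit 16) Lb.e (@T16.mk En
    (@En.n l5 (nat_lit 13361) (nat_lit 1) (nat_lit 14))
    (@En.n l25598 (nat_lit 7054) (nat_lit 1) (nat_lit 14))
    (@En.n l1599 (nat_lit 13359) (nat_lit 2) (nat_lit 5))
    (@En.n l25599 (nat_lit 13860) (nat_lit 3) (nat_lit 9))
    (@En.n l11 (nat_lit 13361) (nat_lit 4) (nat_lit 2))
    (@En.n l25600 (nat_lit 13884) (nat_lit 5) (nat_lit 5))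
    (@En.n l25598 (nat_lit 13210) (nat_lit 7) (nat_lit 14))
    (@En.i (nat_lit 13619) (nat_lit 8) (nat_lit 11))
    (@En.n l7740 (nat_lit 13360) (nat_lit 8) (nat_lit 3))
    (@En.n l25601 (nat_lit 13477) (nat_lit 9) (nat_lit 4))
    (@En.n l1599 (nat_lit 13887) (nat_lit 11) (nat_lit 11))
    (@En.i (nat_lit 13020) (nat_lit 12) (nat_lit 13))
    (@En.n l25602 (nat_lit 13907) (nat_lit 13) (nat_lit 7))
    (@En.i (nat_lit 6945) (nat_lit 9) (nat_lit 12))
    (@En.n l17 (nat_lit 13361) (nat_lit 14) (nat_lit 2))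
    (@En.n l18 (nat_lit 13361) (nat_lit 15) (nat_lit 2))))
  (@Cl.mk (nat_lit 0x20002000d000c000b0003000b0004000b0005000e000500020005000e000e) (nat_lit 0x23406070900067) (nat_lit 16) Lb.e (@T16.mk En
    (@En.n l97 (nat_lit 13362) (nat_lit 1) (nat_lit 14))
    (@En.n l3348 (nat_lit 3434) (nat_lit 1) (nat_lit 14))
    (@En.n l671 (nat_lit 13935) (nat_lit 2) (nat_lit 5))
    (@En.n l18 (nat_lit 13362) (nat_lit 3) (nat_lit 2))
    (@En.n l50 (nat_lit 14001) (nat_lit 4) (nat_lit 5))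
    (@En.n l12682 (nat_lit 13363) (nat_lit 6) (nat_lit 14))
    (@En.n l12683 (nat_lit 13364) (nat_lit 6) (nat_lit 5))
    (@En.i (nat_lit 13564) (nat_lit 8) (nat_lit 11))
    (@En.n l7055 (nat_lit 14095) (nat_lit 8) (nat_lit 4))
    (@En.n l4497 (nat_lit 13795) (nat_lit 10) (nat_lit 11))
    (@En.n l1430 (nat_lit 13358) (nat_lit 10) (nat_lit 3))
    (@En.n l4884 (nat_lit 13001) (nat_lit 12) (nat_lit 11))
    (@En.n l4497 (nat_lit 13359) (nat_lit 13) (nat_lit 12))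
    (@En.n l12684 (nat_lit 6787) (nat_lit 10) (nat_lit 13))
    (@En.n l107 (nat_lit 13362) (nat_lit 14) (nat_lit 2))
    (@En.n l3 (nat_lit 13362) (nat_lit 15) (nat_lit 2))))
  (@Cl.mk (nat_lit 0x20002000d000c00080003000c0004000b000e0004000200080005000e000e) (nat_lit 0x2a506018004089) (nat_lit 16) Lb.e (@T16.mk En
    (@En.n l5 (nat_lit 13363) (nat_lit 1) (nat_lit 14))
    (@En.n l1643 (nat_lit 7067) (nat_lit 1) (nat_lit 14))
    (@En.n l25603 (nat_lit 13362) (nat_lit 2) (nat_lit 5))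
    (@En.n l22111 (nat_lit 13997) (nat_lit 3) (nat_lit 8))
    (@En.n l28 (nat_lit 13363) (nat_lit 4) (nat_lit 2))
    (@En.n l8380 (nat_lit 13886) (nat_lit 5) (nat_lit 4))
    (@En.n l4758 (nat_lit 13211) (nat_lit 7) (nat_lit 14))
    (@En.n l25604 (nat_lit 284) (nat_lit 8) (nat_lit 11))
    (@En.n l25605 (nat_lit 13474) (nat_lit 8) (nat_lit 4))
    (@En.n l538 (nat_lit 13798) (nat_lit 10) (nat_lit 12))
    (@En.i (nat_lit 13360) (nat_lit 10) (nat_lit 3))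
    (@En.n l13819 (nat_lit 13758) (nat_lit 12) (nat_lit 8))
    (@En.n l1504 (nat_lit 13361) (nat_lit 13) (nat_lit 12))
    (@En.i (nat_lit 6788) (nat_lit 9) (nat_lit 13))
    (@En.n l17 (nat_lit 13363) (nat_lit 14) (nat_lit 2))
    (@En.n l18 (nat_lit 13363) (nat_lit 15) (nat_lit 2))))
  (@Cl.mk (nat_lit 0x20002000c000b000b00080004000c00050005000e000400020008000e000e) (nat_lit 0x23360600a00378) (nat_lit 16) Lb.e (@T16.mk En
    (@En.n l5 (nat_lit 13364) (nat_lit 1) (nat_lit 14))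
    (@En.n l420 (nat_lit 3656) (nat_lit 1) (nat_lit 14))
    (@En.n l3506 (nat_lit 13636) (nat_lit 2) (nat_lit 8))
    (@En.n l28 (nat_lit 13364) (nat_lit 3) (nat_lit 2))
    (@En.i (nat_lit 13574) (nat_lit 4) (nat_lit 4))
    (@En.n l476 (nat_lit 13150) (nat_lit 6) (nat_lit 14))
    (@En.n l152 (nat_lit 14100) (nat_lit 6) (nat_lit 5))
    (@En.i (nat_lit 12998) (nat_lit 7) (nat_lit 5))
    (@En.i (nat_lit 13830) (nat_lit 9) (nat_lit 12))
    (@En.i (nat_lit 13565) (nat_lit 9) (nat_lit 4))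
    (@En.i (nat_lit 13363) (nat_lit 11) (nat_lit 8))
    (@En.n l8381 (nat_lit 13571) (nat_lit 12) (nat_lit 11))
    (@En.i (nat_lit 13356) (nat_lit 13) (nat_lit 11))
    (@En.i (nat_lit 2533) (nat_lit 10) (nat_lit 12))
    (@En.n l17 (nat_lit 13364) (nat_lit 14) (nat_lit 2))
    (@En.n l18 (nat_lit 13364) (nat_lit 15) (nat_lit 2))))
  (@Cl.mk (nat_lit 0x20002000d0009000c0003000b000b0004000c0007000500050004000e000e) (nat_lit 0x3350770900009a) (nat_lit 16) Lb.e (@T16.mk En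
    (@En.n l5 (nat_lit 13365) (nat_lit 1) (nat_lit 14))
    (@En.n l420 (nat_lit 7385) (nat_lit 1) (nat_lit 14))
    (@En.n l7 (nat_lit 14010) (nat_lit 2) (nat_lit 4))
    (@En.n l1552 (nat_lit 13847) (nat_lit 3) (nat_lit 5))
    (@En.i (nat_lit 14002) (nat_lit 4) (nat_lit 5))
    (@En.n l1553 (nat_lit 13357) (nat_lit 5) (nat_lit 7))
    (@En.n l1554 (nat_lit 12986) (nat_lit 7) (nat_lit 12))
    (@En.i (nat_lit 14008) (nat_lit 7) (nat_lit 4))
    (@En.n l1452 (nat_lit 13358) (nat_lit 9) (nat_lit 11))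
    (@En.n l152 (nat_lit 14033) (nat_lit 10) (nat_lit 11))
    (@En.n l1455 (nat_lit 14001) (nat_lit 10) (nat_lit 3))
    (@En.n l158 (nat_lit 13378) (nat_lit 12) (nat_lit 12))
    (@En.n l1554 (nat_lit 13538) (nat_lit 13) (nat_lit 9))
    (@En.i (nat_lit 6347) (nat_lit 14) (nat_lit 13))
    (@En.n l17 (nat_lit 13365) (nat_lit 14) (nat_lit 2))
    (@En.n l18 (nat_lit 13365) (nat_lit 15) (nat_lit 2))))
  (@Cl.mk (nat_lit 0x20002000e000c0002000c000c0004000c00040004000e00040002000e000e) (nat_lit 0x340770800c009a) (nat_lit 16) Lb.e (@T16.mk En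
    (@En.n l5 (nat_lit 13366) (nat_lit 1) (nat_lit 14))
    (@En.n l427 (nat_lit 2721) (nat_lit 1) (nat_lit 14))
    (@En.n l7 (nat_lit 13366) (nat_lit 2) (nat_lit 2))
    (@En.n l28 (nat_lit 13376) (nat_lit 3) (nat_lit 4))
    (@En.n l427 (nat_lit 12979) (nat_lit 5) (nat_lit 14))
    (@En.n l1360 (nat_lit 13369) (nat_lit 5) (nat_lit 4))
    (@En.i (nat_lit 13018) (nat_lit 6) (nat_lit 4))
    (@En.n l1361 (nat_lit 12855) (nat_lit 8) (nat_lit 12))
    (@En.n l427 (nat_lit 13398) (nat_lit 8) (nat_lit 4))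
    (@En.n l537 (nat_lit 13021) (nat_lit 10) (nat_lit 12))
    (@En.i (nat_lit 13402) (nat_lit 11) (nat_lit 12))
    (@En.n l3 (nat_lit 13366) (nat_lit 11) (nat_lit 2))
    (@En.n l1362 (nat_lit 13319) (nat_lit 13) (nat_lit 12))
    (@En.i (nat_lit 2866) (nat_lit 1) (nat_lit 14))
    (@En.n l17 (nat_lit 13366) (nat_lit 14) (nat_lit 2))
    (@En.n l18 (nat_lit 13366) (nat_lit 15) (nat_lit 2))))
  (@Cl.mk (nat_lit 0x20002000e000b0002000e000b00020005000d000d000500030003000e000e) (nat_lit 0x34056002400078) (nat_lit 16) Lb.e (@T16.mk En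
    (@En.n l9 (nat_lit 13367) (nat_lit 1) (nat_lit 14))
    (@En.n l12 (nat_lit 3050) (nat_lit 9) (nat_lit 14))
    (@En.n l16 (nat_lit 13375) (nat_lit 2) (nat_lit 3))
    (@En.n l33 (nat_lit 13369) (nat_lit 3) (nat_lit 3))
    (@En.n l89 (nat_lit 12930) (nat_lit 4) (nat_lit 5))
    (@En.i (nat_lit 13369) (nat_lit 6) (nat_lit 13))
    (@En.n l90 (nat_lit 12860) (nat_lit 7) (nat_lit 13))
    (@En.n l91 (nat_lit 13059) (nat_lit 7) (nat_lit 5))
    (@En.n l3 (nat_lit 13367) (nat_lit 8) (nat_lit 2))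
    (@En.n l92 (nat_lit 13376) (nat_lit 10) (nat_lit 11))
    (@En.n l93 (nat_lit 13370) (nat_lit 11) (nat_lit 14))
    (@En.n l18 (nat_lit 13367) (nat_lit 11) (nat_lit 2))
    (@En.n l91 (nat_lit 13370) (nat_lit 13) (nat_lit 11))
    (@En.n l93 (nat_lit 2500) (nat_lit 1) (nat_lit 14))
    (@En.n l7 (nat_lit 13367) (nat_lit 14) (nat_lit 2))
    (@En.n l8 (nat_lit 13367) (nat_lit 15) (nat_lit 2))))
  (@Cl.mk (nat_lit 0x20002000b000b000e000b000200050005000d0005000e00030002000e000e) (nat_lit 0x23470003060067) (nat_lit 16) Lb.e (@T16.mk En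
    (@En.n l1363 (nat_lit 13368) (nat_lit 1) (nat_lit 14))
    (@En.n l1364 (nat_lit 2732) (nat_lit 1) (nat_lit 14))
    (@En.n l28 (nat_lit 13368) (nat_lit 2) (nat_lit 2))
    (@En.n l58 (nat_lit 13370) (nat_lit 3) (nat_lit 3))
    (@En.n l1365 (nat_lit 14104) (nat_lit 0) (nat_lit 14))
    (@En.n l1366 (nat_lit 12900) (nat_lit 5) (nat_lit 5))
    (@En.n l1367 (nat_lit 13871) (nat_lit 7) (nat_lit 13))
    (@En.n l1368 (nat_lit 13369) (nat_lit 7) (nat_lit 5))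
    (@En.n l872 (nat_lit 13036) (nat_lit 8) (nat_lit 5))
    (@En.n l3 (nat_lit 13368) (nat_lit 9) (nat_lit 2))
    (@En.n l1369 (nat_lit 13319) (nat_lit 11) (nat_lit 11))
    (@En.n l1370 (nat_lit 13371) (nat_lit 12) (nat_lit 14))
    (@En.n l1371 (nat_lit 13371) (nat_lit 13) (nat_lit 11))
    (@En.i (nat_lit 1351) (nat_lit 3) (nat_lit 11))
    (@En.n l776 (nat_lit 13368) (nat_lit 14) (nat_lit 2))
    (@En.n l50 (nat_lit 13368) (nat_lit 15) (nat_lit 2))))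
  (@Cl.mk (nat_lit 0x20002000e000b0002000e000c00020005000d0004000e00030002000e000e) (nat_lit 0x23058003050078) (nat_lit 16) Lb.e (@T16.mk En
    (@En.n l9 (nat_lit 13369) (nat_lit 1) (nat_lit 14))
    (@En.i (nat_lit 3051) (nat_lit 1) (nat_lit 14))
    (@En.n l12 (nat_lit 13369) (nat_lit 2) (nat_lit 2))
    (@En.n l13 (nat_lit 13367) (nat_lit 3) (nat_lit 3))
    (@En.n l388 (nat_lit 14103) (nat_lit 0) (nat_lit 14))
    (@En.n l132 (nat_lit 12931) (nat_lit 5) (nat_lit 4))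
    (@En.n l389 (nat_lit 12859) (nat_lit 7) (nat_lit 13))
    (@En.n l133 (nat_lit 13065) (nat_lit 7) (nat_lit 5))
    (@En.n l3 (nat_lit 13369) (nat_lit 8) (nat_lit 2))
    (@En.n l390 (nat_lit 13366) (nat_lit 10) (nat_lit 12))
    (@En.n l131 (nat_lit 13368) (nat_lit 11) (nat_lit 14))
    (@En.n l18 (nat_lit 13369) (nat_lit 11) (nat_lit 2))
    (@En.n l391 (nat_lit 13368) (nat_lit 13) (nat_lit 11))
    (@En.n l131 (nat_lit 2499) (nat_lit 1) (nat_lit 14))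
    (@En.n l7 (nat_lit 13369) (nat_lit 14) (nat_lit 2))
    (@En.n l8 (nat_lit 13369) (nat_lit 15) (nat_lit 2))))
  (@Cl.mk (nat_lit 0x20002000b000b000e000a000200050005000d000d000600030003000e000e) (nat_lit 0x33450004400067) (nat_lit 16) Lb.e (@T16.mk En
    (@En.n l5 (nat_lit 13370) (nat_lit 1) (nat_lit 14))
    (@En.n l96 (nat_lit 2739) (nat_lit 8) (nat_lit 14))
    (@En.n l237 (nat_lit 13373) (nat_lit 2) (nat_lit 3))
    (@En.n l238 (nat_lit 13368) (nat_lit 3) (nat_lit 3))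
    (@En.n l55 (nat_lit 12929) (nat_lit 4) (nat_lit 6))
    (@En.n l239 (nat_lit 13368) (nat_lit 6) (nat_lit 13))
    (@En.n l96 (nat_lit 13872) (nat_lit 7) (nat_lit 13))
    (@En.n l419 (nat_lit 13367) (nat_lit 7) (nat_lit 5))
    (@En.i (nat_lit 13033) (nat_lit 8) (nat_lit 5))
    (@En.n l12 (nat_lit 13370) (nat_lit 9) (nat_lit 2))
    (@En.n l121 (nat_lit 13318) (nat_lit 11) (nat_lit 10))
    (@En.n l122 (nat_lit 13372) (nat_lit 12) (nat_lit 14))
    (@En.n l123 (nat_lit 13372) (nat_lit 13) (nat_lit 11))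
    (@En.n l242 (nat_lit 1385) (nat_lit 3) (nat_lit 11))
    (@En.n l17 (nat_lit 13370) (nat_lit 14) (nat_lit 2))
    (@En.n l18 (nat_lit 13370) (nat_lit 15) (nat_lit 2))))
  (@Cl.mk (nat_lit 0x20002000b000e000a0002000e00050002000d0006000e00030002000e000e) (nat_lit 0x234050050a00bc) (nat_lit 16) Lb.e (@T16.mk En
    (@En.n l5 (nat_lit 13371) (nat_lit 1) (nat_lit 14))
    (@En.n l4381 (nat_lit 2729) (nat_lit 1) (nat_lit 14))
    (@En.n l7 (nat_lit 13371) (nat_lit 2) (nat_lit 2))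
    (@En.n l28 (nat_lit 13372) (nat_lit 3) (nat_lit 3))
    (@En.n l542 (nat_lit 14105) (nat_lit 0) (nat_lit 14))
    (@En.i (nat_lit 12901) (nat_lit 5) (nat_lit 6))
    (@En.n l4382 (nat_lit 13873) (nat_lit 7) (nat_lit 13))
    (@En.n l107 (nat_lit 13371) (nat_lit 7) (nat_lit 2))
    (@En.n l4383 (nat_lit 13368) (nat_lit 8) (nat_lit 5))
    (@En.n l1821 (nat_lit 13380) (nat_lit 10) (nat_lit 14))
    (@En.n l12 (nat_lit 13371) (nat_lit 10) (nat_lit 2))
    (@En.n l561 (nat_lit 13394) (nat_lit 12) (nat_lit 10))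
    (@En.i (nat_lit 14055) (nat_lit 4) (nat_lit 14))
    (@En.n l4384 (nat_lit 1830) (nat_lit 14) (nat_lit 11))
    (@En.n l17 (nat_lit 13371) (nat_lit 14) (nat_lit 2))
    (@En.n l18 (nat_lit 13371) (nat_lit 15) (nat_lit 2))))
  (@Cl.mk (nat_lit 0x20002000b000e00090002000e00050002000d000d000700030003000e000e) (nat_lit 0x23505004600078) (nat_lit 16) Lb.e (@T16.mk En
    (@En.n l5 (nat_lit 13372) (nat_lit 1) (nat_lit 14))
    (@En.n l414 (nat_lit 2738) (nat_lit 1) (nat_lit 14))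
    (@En.n l237 (nat_lit 13374) (nat_lit 2) (nat_lit 3))
    (@En.i (nat_lit 13371) (nat_lit 3) (nat_lit 3))
    (@En.n l55 (nat_lit 12946) (nat_lit 4) (nat_lit 7))
    (@En.n l134 (nat_lit 13371) (nat_lit 6) (nat_lit 13))
    (@En.n l1457 (nat_lit 13874) (nat_lit 7) (nat_lit 13))
    (@En.n l107 (nat_lit 13372) (nat_lit 7) (nat_lit 2))
    (@En.n l520 (nat_lit 13370) (nat_lit 8) (nat_lit 5))
    (@En.n l97 (nat_lit 13043) (nat_lit 10) (nat_lit 14))
    (@En.n l12 (nat_lit 13372) (nat_lit 10) (nat_lit 2))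
    (@En.i (nat_lit 13379) (nat_lit 12) (nat_lit 9))
    (@En.i (nat_lit 13953) (nat_lit 4) (nat_lit 14))
    (@En.n l1457 (nat_lit 1386) (nat_lit 14) (nat_lit 11))
    (@En.n l17 (nat_lit 13372) (nat_lit 14) (nat_lit 2))
    (@En.n l18 (nat_lit 13372) (nat_lit 15) (nat_lit 2))))
  (@Cl.mk (nat_lit 0x20002000b000b000e0009000200050005000e000d000200070003000e000e) (nat_lit 0x3445000a500067) (nat_lit 16) Lb.e (@T16.mk En
    (@En.n l5 (nat_lit 13373) (nat_lit 1) (nat_lit 14))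
    (@En.n l118 (nat_lit 2501) (nat_lit 8) (nat_lit 14))
    (@En.n l28 (nat_lit 13370) (nat_lit 2) (nat_lit 3))
    (@En.n l119 (nat_lit 12892) (nat_lit 3) (nat_lit 7))
    (@En.n l28 (nat_lit 13373) (nat_lit 4) (nat_lit 2))
    (@En.n l77 (nat_lit 13370) (nat_lit 6) (nat_lit 13))
    (@En.n l120 (nat_lit 13096) (nat_lit 7) (nat_lit 14))
    (@En.n l2 (nat_lit 13375) (nat_lit 7) (nat_lit 5))
    (@En.i (nat_lit 13032) (nat_lit 8) (nat_lit 5))
    (@En.n l12 (nat_lit 13373) (nat_lit 9) (nat_lit 2))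
    (@En.n l121 (nat_lit 13377) (nat_lit 11) (nat_lit 9))
    (@En.n l122 (nat_lit 13374) (nat_lit 12) (nat_lit 14))
    (@En.n l123 (nat_lit 13374) (nat_lit 13) (nat_lit 11))
    (@En.n l124 (nat_lit 1384) (nat_lit 3) (nat_lit 11))
    (@En.n l17 (nat_lit 13373) (nat_lit 14) (nat_lit 2))
    (@En.n l18 (nat_lit 13373) (nat_lit 15) (nat_lit 2))))
  (@Cl.mk (nat_lit 0x20002000b000e00080002000e00050002000e000d000200080003000e000e) (nat_lit 0x33505008501078) (nat_lit 16) Lb.e (@T16.mk En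
    (@En.n l5 (nat_lit 13374) (nat_lit 1) (nat_lit 14))
    (@En.n l518 (nat_lit 2562) (nat_lit 1) (nat_lit 14))
    (@En.n l28 (nat_lit 13372) (nat_lit 2) (nat_lit 3))
    (@En.n l175 (nat_lit 12891) (nat_lit 3) (nat_lit 8))
    (@En.n l28 (nat_lit 13374) (nat_lit 4) (nat_lit 2))
    (@En.n l77 (nat_lit 13372) (nat_lit 6) (nat_lit 13))
    (@En.n l519 (nat_lit 13099) (nat_lit 7) (nat_lit 14))
    (@En.n l107 (nat_lit 13374) (nat_lit 7) (nat_lit 2))
    (@En.n l520 (nat_lit 13373) (nat_lit 8) (nat_lit 5))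
    (@En.n l97 (nat_lit 13058) (nat_lit 10) (nat_lit 14))
    (@En.n l12 (nat_lit 13374) (nat_lit 10) (nat_lit 2))
    (@En.i (nat_lit 13450) (nat_lit 12) (nat_lit 8))
    (@En.n l521 (nat_lit 14056) (nat_lit 13) (nat_lit 14))
    (@En.n l522 (nat_lit 1387) (nat_lit 9) (nat_lit 11))
    (@En.n l17 (nat_lit 13374) (nat_lit 14) (nat_lit 2))
    (@En.n l18 (nat_lit 13374) (nat_lit 15) (nat_lit 2))))
  (@Cl.mk (nat_lit 0x20002000e000b0002000e000a00020005000e000d000200060003000e000e) (nat_lit 0x24056008300078) (nat_lit 16) Lb.e (@T16.mk En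
    (@En.n l5 (nat_lit 13375) (nat_lit 1) (nat_lit 14))
    (@En.n l25 (nat_lit 2628) (nat_lit 9) (nat_lit 14))
    (@En.n l26 (nat_lit 13367) (nat_lit 2) (nat_lit 3))
    (@En.n l27 (nat_lit 12895) (nat_lit 3) (nat_lit 6))
    (@En.n l28 (nat_lit 13375) (nat_lit 4) (nat_lit 2))
    (@En.n l29 (nat_lit 13367) (nat_lit 6) (nat_lit 13))
    (@En.n l30 (nat_lit 13100) (nat_lit 7) (nat_lit 14))
    (@En.n l31 (nat_lit 13061) (nat_lit 7) (nat_lit 5))
    (@En.n l12 (nat_lit 13375) (nat_lit 8) (nat_lit 2))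
    (@En.n l13 (nat_lit 13378) (nat_lit 10) (nat_lit 10))
    (@En.i (nat_lit 13373) (nat_lit 11) (nat_lit 14))
    (@En.n l3 (nat_lit 13375) (nat_lit 11) (nat_lit 2))
    (@En.n l31 (nat_lit 13373) (nat_lit 13) (nat_lit 11))
    (@En.i (nat_lit 2628) (nat_lit 1) (nat_lit 14))
    (@En.n l17 (nat_lit 13375) (nat_lit 14) (nat_lit 2))
    (@En.n l18 (nat_lit 13375) (nat_lit 15) (nat_lit 2))))
noncomputable def a836 : T16 Cl := @T16.mk Cl
  (@Cl.mk (nat_lit 0x20002000e000c0002000b000b0004000c000c0005000500040004000e000e) (nat_lit 0x23054089000056) (nat_lit 16) Lb.e (@T16.mk En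
    (@En.n l5 (nat_lit 13376) (nat_lit 1) (nat_lit 14))
    (@En.n l414 (nat_lit 3049) (nat_lit 1) (nat_lit 14))
    (@En.n l237 (nat_lit 13378) (nat_lit 2) (nat_lit 4))
    (@En.i (nat_lit 13112) (nat_lit 3) (nat_lit 4))
    (@En.n l415 (nat_lit 13367) (nat_lit 4) (nat_lit 5))
    (@En.n l55 (nat_lit 13113) (nat_lit 5) (nat_lit 5))
    (@En.n l134 (nat_lit 13366) (nat_lit 7) (nat_lit 12))
    (@En.n l416 (nat_lit 12851) (nat_lit 8) (nat_lit 12))
    (@En.n l417 (nat_lit 14004) (nat_lit 8) (nat_lit 4))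
    (@En.n l418 (nat_lit 13019) (nat_lit 10) (nat_lit 11))
    (@En.i (nat_lit 14019) (nat_lit 11) (nat_lit 11))
    (@En.n l3 (nat_lit 13376) (nat_lit 11) (nat_lit 2))
    (@En.i (nat_lit 13318) (nat_lit 13) (nat_lit 12))
    (@En.i (nat_lit 2557) (nat_lit 1) (nat_lit 14))
    (@En.n l17 (nat_lit 13376) (nat_lit 14) (nat_lit 2))
    (@En.n l18 (nat_lit 13376) (nat_lit 15) (nat_lit 2))))
  (@Cl.mk (nat_lit 0x20002000c000c0009000900040004000e000c0002000700070004000e000e) (nat_lit 0x3444009a000078) (nat_lit 16) Lb.e (@T16.mk En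
    (@En.n l5 (nat_lit 13377) (nat_lit 1) (nat_lit 14))
    (@En.n l310 (nat_lit 2563) (nat_lit 1) (nat_lit 14))
    (@En.i (nat_lit 13312) (nat_lit 2) (nat_lit 4))
    (@En.n l31 (nat_lit 13373) (nat_lit 3) (nat_lit 7))
    (@En.n l514 (nat_lit 13315) (nat_lit 4) (nat_lit 7))
    (@En.n l28 (nat_lit 13377) (nat_lit 5) (nat_lit 2))
    (@En.n l77 (nat_lit 13318) (nat_lit 7) (nat_lit 12))
    (@En.n l515 (nat_lit 13094) (nat_lit 8) (nat_lit 14))
    (@En.n l152 (nat_lit 13378) (nat_lit 8) (nat_lit 4))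
    (@En.n l31 (nat_lit 14025) (nat_lit 9) (nat_lit 4))
    (@En.n l310 (nat_lit 13024) (nat_lit 11) (nat_lit 9))
    (@En.i (nat_lit 14024) (nat_lit 12) (nat_lit 9))
    (@En.n l516 (nat_lit 13450) (nat_lit 13) (nat_lit 12))
    (@En.n l517 (nat_lit 1281) (nat_lit 8) (nat_lit 12))
    (@En.n l17 (nat_lit 13377) (nat_lit 14) (nat_lit 2))
    (@En.n l18 (nat_lit 13377) (nat_lit 15) (nat_lit 2))))
  (@Cl.mk (nat_lit 0x20002000e000c0002000a000a0004000e000c0002000600060004000e000e) (nat_lit 0x24056099000056) (nat_lit 16) Lb.e (@T16.mk En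
    (@En.n l5 (nat_lit 13378) (nat_lit 1) (nat_lit 14))
    (@En.i (nat_lit 2547) (nat_lit 12) (nat_lit 14))
    (@En.i (nat_lit 13107) (nat_lit 2) (nat_lit 4))
    (@En.i (nat_lit 13375) (nat_lit 3) (nat_lit 6))
    (@En.n l115 (nat_lit 13108) (nat_lit 4) (nat_lit 6))
    (@En.n l28 (nat_lit 13378) (nat_lit 5) (nat_lit 2))
    (@En.n l77 (nat_lit 13376) (nat_lit 7) (nat_lit 12))
    (@En.n l116 (nat_lit 12993) (nat_lit 8) (nat_lit 14))
    (@En.n l117 (nat_lit 14007) (nat_lit 8) (nat_lit 4))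
    (@En.n l27 (nat_lit 13023) (nat_lit 10) (nat_lit 10))
    (@En.i (nat_lit 14021) (nat_lit 11) (nat_lit 10))
    (@En.n l3 (nat_lit 13378) (nat_lit 11) (nat_lit 2))
    (@En.i (nat_lit 13377) (nat_lit 13) (nat_lit 12))
    (@En.i (nat_lit 2630) (nat_lit 1) (nat_lit 14))
    (@En.n l17 (nat_lit 13378) (nat_lit 14) (nat_lit 2))
    (@En.n l18 (nat_lit 13378) (nat_lit 15) (nat_lit 2))))
  (@Cl.mk (nat_lit 0x20002000c00090009000e00040002000c000c0007000700040004000e000e) (nat_lit 0x24450099000089) (nat_lit 16) Lb.e (@T16.mk En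
    (@En.n l5 (nat_lit 13379) (nat_lit 1) (nat_lit 14))
    (@En.n l4601 (nat_lit 3038) (nat_lit 1) (nat_lit 14))
    (@En.n l237 (nat_lit 13450) (nat_lit 2) (nat_lit 4))
    (@En.n l1442 (nat_lit 13320) (nat_lit 3) (nat_lit 4))
    (@En.n l13 (nat_lit 13372) (nat_lit 4) (nat_lit 7))
    (@En.n l4602 (nat_lit 13321) (nat_lit 5) (nat_lit 7))
    (@En.n l4603 (nat_lit 13394) (nat_lit 7) (nat_lit 12))
    (@En.n l4604 (nat_lit 13488) (nat_lit 8) (nat_lit 12))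
    (@En.n l107 (nat_lit 13379) (nat_lit 8) (nat_lit 2))
    (@En.n l1678 (nat_lit 13318) (nat_lit 9) (nat_lit 4))
    (@En.n l4601 (nat_lit 13453) (nat_lit 11) (nat_lit 14))
    (@En.n l4605 (nat_lit 13025) (nat_lit 12) (nat_lit 9))
    (@En.i (nat_lit 13548) (nat_lit 13) (nat_lit 9))
    (@En.n l4606 (nat_lit 1326) (nat_lit 14) (nat_lit 12))
    (@En.n l17 (nat_lit 13379) (nat_lit 14) (nat_lit 2))
    (@En.n l18 (nat_lit 13379) (nat_lit 15) (nat_lit 2))))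
  (@Cl.mk (nat_lit 0x20002000c000b000a000e000400020005000d0006000e00030002000e000e) (nat_lit 0x333400090b00bc) (nat_lit 16) Lb.e (@T16.mk En
    (@En.n l97 (nat_lit 13380) (nat_lit 1) (nat_lit 14))
    (@En.i (nat_lit 3842) (nat_lit 1) (nat_lit 14))
    (@En.n l17 (nat_lit 13380) (nat_lit 2) (nat_lit 2))
    (@En.n l1431 (nat_lit 13043) (nat_lit 3) (nat_lit 3))
    (@En.i (nat_lit 14074) (nat_lit 0) (nat_lit 14))
    (@En.n l437 (nat_lit 13381) (nat_lit 5) (nat_lit 6))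
    (@En.n l1388 (nat_lit 13439) (nat_lit 7) (nat_lit 13))
    (@En.n l4363 (nat_lit 13368) (nat_lit 7) (nat_lit 5))
    (@En.n l172 (nat_lit 13380) (nat_lit 8) (nat_lit 2))
    (@En.n l4364 (nat_lit 13072) (nat_lit 9) (nat_lit 4))
    (@En.i (nat_lit 13065) (nat_lit 11) (nat_lit 14))
    (@En.n l437 (nat_lit 13464) (nat_lit 12) (nat_lit 10))
    (@En.n l437 (nat_lit 13041) (nat_lit 13) (nat_lit 11))
    (@En.n l4363 (nat_lit 1111) (nat_lit 14) (nat_lit 12))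
    (@En.n l107 (nat_lit 13380) (nat_lit 14) (nat_lit 2))
    (@En.n l3 (nat_lit 13380) (nat_lit 15) (nat_lit 2))))
  (@Cl.mk (nat_lit 0x20002000b000a000a0009000e0005000200060006000e00070002000e000e) (nat_lit 0x344460000b0012) (nat_lit 16) Lb.e (@T16.mk En
    (@En.n l5 (nat_lit 13381) (nat_lit 1) (nat_lit 14))
    (@En.n l11737 (nat_lit 1165) (nat_lit 1) (nat_lit 14))
    (@En.n l7 (nat_lit 13381) (nat_lit 2) (nat_lit 2))
    (@En.n l4433 (nat_lit 12909) (nat_lit 3) (nat_lit 7))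
    (@En.n l4722 (nat_lit 13382) (nat_lit 5) (nat_lit 14))
    (@En.n l11738 (nat_lit 14080) (nat_lit 5) (nat_lit 6))
    (@En.n l11739 (nat_lit 12900) (nat_lit 6) (nat_lit 6))
    (@En.n l3 (nat_lit 13381) (nat_lit 7) (nat_lit 2))
    (@En.n l490 (nat_lit 12847) (nat_lit 8) (nat_lit 5))
    (@En.n l4722 (nat_lit 13394) (nat_lit 10) (nat_lit 14))
    (@En.i (nat_lit 13043) (nat_lit 11) (nat_lit 9))
    (@En.n l575 (nat_lit 13478) (nat_lit 12) (nat_lit 10))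
    (@En.i (nat_lit 13408) (nat_lit 13) (nat_lit 10))
    (@En.n l1428 (nat_lit 1696) (nat_lit 14) (nat_lit 11))
    (@En.n l17 (nat_lit 13381) (nat_lit 14) (nat_lit 2))
    (@En.n l18 (nat_lit 13381) (nat_lit 15) (nat_lit 2))))
  (@Cl.mk (nat_lit 0x20002000b000a0007000a000e000500020006000e000600020009000e000e) (nat_lit 0x32046000a00067) (nat_lit 16) Lb.e (@T16.mk En
    (@En.n l97 (nat_lit 13382) (nat_lit 1) (nat_lit 14))
    (@En.i (nat_lit 5823) (nat_lit 10) (nat_lit 14))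
    (@En.n l1252 (nat_lit 13383) (nat_lit 2) (nat_lit 9))
    (@En.n l17 (nat_lit 13382) (nat_lit 3) (nat_lit 2))
    (@En.n l8268 (nat_lit 13383) (nat_lit 4) (nat_lit 6))
    (@En.i (nat_lit 13248) (nat_lit 6) (nat_lit 14))
    (@En.n l3224 (nat_lit 12925) (nat_lit 6) (nat_lit 6))
    (@En.n l7 (nat_lit 13382) (nat_lit 7) (nat_lit 2))
    (@En.n l9902 (nat_lit 13384) (nat_lit 8) (nat_lit 5))
    (@En.i (nat_lit 13492) (nat_lit 10) (nat_lit 14))
    (@En.n l564 (nat_lit 13380) (nat_lit 11) (nat_lit 10))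
    (@En.n l563 (nat_lit 14042) (nat_lit 12) (nat_lit 7))
    (@En.n l11241 (nat_lit 13409) (nat_lit 13) (nat_lit 10))
    (@En.i (nat_lit 2001) (nat_lit 10) (nat_lit 11))
    (@En.n l107 (nat_lit 13382) (nat_lit 14) (nat_lit 2))
    (@En.n l3 (nat_lit 13382) (nat_lit 15) (nat_lit 2))))
  (@Cl.mk (nat_lit 0x20002000a00090007000a000a000e000600020007000600060009000e000e) (nat_lit 0x34055700000756) (nat_lit 16) Lb.e (@T16.mk En
    (@En.n l1578 (nat_lit 13383) (nat_lit 1) (nat_lit 14))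
    (@En.i (nat_lit 5822) (nat_lit 11) (nat_lit 14))
    (@En.n l3332 (nat_lit 13386) (nat_lit 2) (nat_lit 9))
    (@En.n l26368 (nat_lit 13386) (nat_lit 3) (nat_lit 6))
    (@En.i (nat_lit 13774) (nat_lit 4) (nat_lit 6))
    (@En.n l11844 (nat_lit 12922) (nat_lit 5) (nat_lit 7))
    (@En.n l3 (nat_lit 13383) (nat_lit 6) (nat_lit 2))
    (@En.n l22012 (nat_lit 13385) (nat_lit 7) (nat_lit 6))
    (@En.n l3859 (nat_lit 13321) (nat_lit 9) (nat_lit 14))
    (@En.n l12560 (nat_lit 13382) (nat_lit 10) (nat_lit 10))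
    (@En.n l26369 (nat_lit 13381) (nat_lit 11) (nat_lit 10))
    (@En.n l20599 (nat_lit 14041) (nat_lit 12) (nat_lit 7))
    (@En.n l3326 (nat_lit 13411) (nat_lit 13) (nat_lit 9))
    (@En.i (nat_lit 2000) (nat_lit 14) (nat_lit 10))
    (@En.n l28 (nat_lit 13383) (nat_lit 14) (nat_lit 2))
    (@En.n l11 (nat_lit 13383) (nat_lit 15) (nat_lit 2))))
  (@Cl.mk (nat_lit 0x20002000b000b000b0008000b000500050005000e000500020008000e000e) (nat_lit 0x1444600030039a) (nat_lit 16) Lb.e (@T16.mk En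
    (@En.n l97 (nat_lit 13384) (nat_lit 1) (nat_lit 14))
    (@En.i (nat_lit 5827) (nat_lit 1) (nat_lit 14))
    (@En.n l617 (nat_lit 13385) (nat_lit 2) (nat_lit 8))
    (@En.n l17 (nat_lit 13384) (nat_lit 3) (nat_lit 2))
    (@En.i (nat_lit 13385) (nat_lit 4) (nat_lit 5))
    (@En.n l8122 (nat_lit 13239) (nat_lit 6) (nat_lit 14))
    (@En.n l134 (nat_lit 13391) (nat_lit 6) (nat_lit 5))
    (@En.n l55 (nat_lit 12831) (nat_lit 7) (nat_lit 5))
    (@En.n l11084 (nat_lit 13939) (nat_lit 8) (nat_lit 5))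
    (@En.n l8122 (nat_lit 13072) (nat_lit 10) (nat_lit 11))
    (@En.n l8632 (nat_lit 14045) (nat_lit 11) (nat_lit 8))
    (@En.n l1415 (nat_lit 13393) (nat_lit 12) (nat_lit 11))
    (@En.n l11087 (nat_lit 13382) (nat_lit 13) (nat_lit 11))
    (@En.i (nat_lit 3174) (nat_lit 10) (nat_lit 11))
    (@En.n l107 (nat_lit 13384) (nat_lit 14) (nat_lit 2))
    (@En.n l3 (nat_lit 13384) (nat_lit 15) (nat_lit 2))))
  (@Cl.mk (nat_lit 0x20002000a000a000a0008000b000b000600060006000500050008000e000e) (nat_lit 0x244567000002bc) (nat_lit 16) Lb.e (@T16.mk En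
    (@En.n l97 (nat_lit 13385) (nat_lit 1) (nat_lit 14))
    (@En.i (nat_lit 4137) (nat_lit 1) (nat_lit 14))
    (@En.n l12441 (nat_lit 13387) (nat_lit 2) (nat_lit 8))
    (@En.n l5452 (nat_lit 13387) (nat_lit 3) (nat_lit 5))
    (@En.n l8116 (nat_lit 13781) (nat_lit 4) (nat_lit 5))
    (@En.n l17109 (nat_lit 13389) (nat_lit 5) (nat_lit 6))
    (@En.n l55 (nat_lit 12830) (nat_lit 6) (nat_lit 6))
    (@En.n l26381 (nat_lit 13331) (nat_lit 7) (nat_lit 6))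
    (@En.n l61 (nat_lit 13384) (nat_lit 9) (nat_lit 11))
    (@En.n l13007 (nat_lit 12847) (nat_lit 10) (nat_lit 11))
    (@En.n l26381 (nat_lit 14044) (nat_lit 11) (nat_lit 8))
    (@En.n l1415 (nat_lit 13388) (nat_lit 12) (nat_lit 10))
    (@En.n l17111 (nat_lit 13383) (nat_lit 13) (nat_lit 10))
    (@En.n l13007 (nat_lit 1941) (nat_lit 14) (nat_lit 10))
    (@En.n l107 (nat_lit 13385) (nat_lit 14) (nat_lit 2))
    (@En.n l3 (nat_lit 13385) (nat_lit 15) (nat_lit 2))))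
  (@Cl.mk (nat_lit 0x20002000900080007000e000a0002000e00070002000800060009000e000e) (nat_lit 0x32056080020645) (nat_lit 16) Lb.e (@T16.mk En
    (@En.n l5 (nat_lit 13386) (nat_lit 1) (nat_lit 14))
    (@En.n l1643 (nat_lit 5816) (nat_lit 12) (nat_lit 14))
    (@En.i (nat_lit 14061) (nat_lit 2) (nat_lit 9))
    (@En.n l8119 (nat_lit 13773) (nat_lit 3) (nat_lit 6))
    (@En.n l7 (nat_lit 12924) (nat_lit 4) (nat_lit 8))
    (@En.n l28 (nat_lit 13386) (nat_lit 5) (nat_lit 2))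
    (@En.n l12595 (nat_lit 13387) (nat_lit 6) (nat_lit 7))
    (@En.n l8122 (nat_lit 13323) (nat_lit 8) (nat_lit 14))
    (@En.n l107 (nat_lit 13386) (nat_lit 8) (nat_lit 2))
    (@En.n l9555 (nat_lit 13383) (nat_lit 10) (nat_lit 10))
    (@En.n l97 (nat_lit 13704) (nat_lit 11) (nat_lit 14))
    (@En.n l1504 (nat_lit 14043) (nat_lit 12) (nat_lit 7))
    (@En.i (nat_lit 13413) (nat_lit 13) (nat_lit 8))
    (@En.n l6296 (nat_lit 2002) (nat_lit 14) (nat_lit 9))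
    (@En.n l17 (nat_lit 13386) (nat_lit 14) (nat_lit 2))
    (@En.n l18 (nat_lit 13386) (nat_lit 15) (nat_lit 2))))
  (@Cl.mk (nat_lit 0x200020009000900090008000e000b000200070007000700050008000e000e) (nat_lit 0x24466700000123) (nat_lit 16) Lb.e (@T16.mk En
    (@En.n l5 (nat_lit 13387) (nat_lit 1) (nat_lit 14))
    (@En.n l12603 (nat_lit 4136) (nat_lit 10) (nat_lit 14))
    (@En.n l5005 (nat_lit 46) (nat_lit 2) (nat_lit 8))
    (@En.n l12604 (nat_lit 13783) (nat_lit 3) (nat_lit 5))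
    (@En.n l12605 (nat_lit 13390) (nat_lit 4) (nat_lit 7))
    (@En.n l152 (nat_lit 12832) (nat_lit 5) (nat_lit 7))
    (@En.n l5377 (nat_lit 13329) (nat_lit 6) (nat_lit 7))
    (@En.n l28 (nat_lit 13387) (nat_lit 7) (nat_lit 2))
    (@En.n l5231 (nat_lit 13385) (nat_lit 9) (nat_lit 11))
    (@En.n l12606 (nat_lit 13703) (nat_lit 10) (nat_lit 14))
    (@En.n l12607 (nat_lit 13770) (nat_lit 11) (nat_lit 8))
    (@En.n l12608 (nat_lit 13392) (nat_lit 12) (nat_lit 9))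
    (@En.n l8929 (nat_lit 13386) (nat_lit 13) (nat_lit 9))
    (@En.n l4089 (nat_lit 2082) (nat_lit 5) (nat_lit 9))
    (@En.n l17 (nat_lit 13387) (nat_lit 14) (nat_lit 2))
    (@En.n l18 (nat_lit 13387) (nat_lit 15) (nat_lit 2))))
  (@Cl.mk (nat_lit 0x20002000b000a0007000a000a0005000e00060002000600060009000e000e) (nat_lit 0x13046080000034) (nat_lit 16) Lb.e (@T16.mk En
    (@En.n l97 (nat_lit 13388) (nat_lit 1) (nat_lit 14))
    (@En.i (nat_lit 5837) (nat_lit 12) (nat_lit 14))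
    (@En.n l13787 (nat_lit 13392) (nat_lit 2) (nat_lit 9))
    (@En.n l10094 (nat_lit 13392) (nat_lit 3) (nat_lit 6))
    (@En.n l18007 (nat_lit 13627) (nat_lit 4) (nat_lit 6))
    (@En.n l50 (nat_lit 13388) (nat_lit 5) (nat_lit 2))
    (@En.n l9902 (nat_lit 13385) (nat_lit 6) (nat_lit 6))
    (@En.n l601 (nat_lit 13553) (nat_lit 8) (nat_lit 14))
    (@En.n l1353 (nat_lit 13840) (nat_lit 8) (nat_lit 5))
    (@En.n l61 (nat_lit 13393) (nat_lit 10) (nat_lit 10))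
    (@En.n l1353 (nat_lit 13198) (nat_lit 11) (nat_lit 10))
    (@En.i (nat_lit 13090) (nat_lit 12) (nat_lit 7))
    (@En.n l77 (nat_lit 13410) (nat_lit 13) (nat_lit 10))
    (@En.n l1353 (nat_lit 2083) (nat_lit 8) (nat_lit 11))
    (@En.n l107 (nat_lit 13388) (nat_lit 14) (nat_lit 2))
    (@En.n l3 (nat_lit 13388) (nat_lit 15) (nat_lit 2))))
  (@Cl.mk (nat_lit 0x200020009000e000a00020009000c000c00070006000400040007000e000e) (nat_lit 0x175067800000bc) (nat_lit 16) Lb.e (@T16.mk En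
    (@En.n l396 (nat_lit 13389) (nat_lit 1) (nat_lit 14))
    (@En.i (nat_lit 4131) (nat_lit 7) (nat_lit 14))
    (@En.n l343 (nat_lit 13390) (nat_lit 2) (nat_lit 7))
    (@En.n l1577 (nat_lit 13390) (nat_lit 3) (nat_lit 4))
    (@En.i (nat_lit 13835) (nat_lit 4) (nat_lit 4))
    (@En.n l4973 (nat_lit 13466) (nat_lit 5) (nat_lit 6))
    (@En.n l575 (nat_lit 13295) (nat_lit 6) (nat_lit 7))
    (@En.n l5987 (nat_lit 13391) (nat_lit 8) (nat_lit 12))
    (@En.n l387 (nat_lit 13422) (nat_lit 9) (nat_lit 12))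
    (@En.n l4943 (nat_lit 13578) (nat_lit 10) (nat_lit 9))
    (@En.n l3 (nat_lit 13389) (nat_lit 10) (nat_lit 2))
    (@En.n l7292 (nat_lit 13385) (nat_lit 12) (nat_lit 10))
    (@En.n l699 (nat_lit 12920) (nat_lit 13) (nat_lit 14))
    (@En.i (nat_lit 1935) (nat_lit 2) (nat_lit 9))
    (@En.n l18 (nat_lit 13389) (nat_lit 14) (nat_lit 2))
    (@En.n l50 (nat_lit 13389) (nat_lit 15) (nat_lit 2))))
  (@Cl.mk (nat_lit 0x200020008000e000900020009000e000c00020008000700040007000e000e) (nat_lit 0x125058806000bc) (nat_lit 16) Lb.e (@T16.mk En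
    (@En.n l396 (nat_lit 13390) (nat_lit 1) (nat_lit 14))
    (@En.i (nat_lit 4132) (nat_lit 7) (nat_lit 14))
    (@En.n l1018 (nat_lit 14062) (nat_lit 2) (nat_lit 7))
    (@En.i (nat_lit 13836) (nat_lit 3) (nat_lit 4))
    (@En.n l2436 (nat_lit 13470) (nat_lit 4) (nat_lit 7))
    (@En.n l2228 (nat_lit 13326) (nat_lit 5) (nat_lit 8))
    (@En.n l11 (nat_lit 13390) (nat_lit 6) (nat_lit 2))
    (@En.n l55 (nat_lit 13389) (nat_lit 8) (nat_lit 12))
    (@En.n l387 (nat_lit 13702) (nat_lit 9) (nat_lit 14))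
    (@En.n l2436 (nat_lit 13577) (nat_lit 10) (nat_lit 9))
    (@En.n l3 (nat_lit 13390) (nat_lit 10) (nat_lit 2))
    (@En.n l13753 (nat_lit 13387) (nat_lit 12) (nat_lit 9))
    (@En.n l3635 (nat_lit 12921) (nat_lit 13) (nat_lit 14))
    (@En.i (nat_lit 1933) (nat_lit 6) (nat_lit 8))
    (@En.n l18 (nat_lit 13390) (nat_lit 14) (nat_lit 2))
    (@En.n l50 (nat_lit 13390) (nat_lit 15) (nat_lit 2))))
  (@Cl.mk (nat_lit 0x20002000a000e000b00020009000c00060005000e000400020007000e000e) (nat_lit 0x28507700a000bc) (nat_lit 16) Lb.e (@T16.mk En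
    (@En.n l97 (nat_lit 13391) (nat_lit 1) (nat_lit 14))
    (@En.i (nat_lit 5833) (nat_lit 7) (nat_lit 14))
    (@En.n l5473 (nat_lit 13389) (nat_lit 2) (nat_lit 7))
    (@En.n l17 (nat_lit 13391) (nat_lit 3) (nat_lit 2))
    (@En.n l4019 (nat_lit 13389) (nat_lit 4) (nat_lit 4))
    (@En.n l95 (nat_lit 12957) (nat_lit 6) (nat_lit 14))
    (@En.i (nat_lit 13469) (nat_lit 6) (nat_lit 5))
    (@En.n l1347 (nat_lit 14018) (nat_lit 7) (nat_lit 6))
    (@En.n l11855 (nat_lit 13036) (nat_lit 9) (nat_lit 12))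
    (@En.n l3699 (nat_lit 13581) (nat_lit 10) (nat_lit 9))
    (@En.n l7 (nat_lit 13391) (nat_lit 10) (nat_lit 2))
    (@En.n l28 (nat_lit 13384) (nat_lit 12) (nat_lit 11))
    (@En.n l95 (nat_lit 12923) (nat_lit 13) (nat_lit 14))
    (@En.n l1347 (nat_lit 1940) (nat_lit 2) (nat_lit 10))
    (@En.n l107 (nat_lit 13391) (nat_lit 14) (nat_lit 2))
    (@En.n l3 (nat_lit 13391) (nat_lit 15) (nat_lit 2))))
noncomputable def a837 : T16 Cl := @T16.mk Cl
  (@Cl.mk (nat_lit 0x20002000a00090007000e000a00020006000e0007000200060009000e000e) (nat_lit 0x3305500a000723) (nat_lit 16) Lb.e (@T16.mk En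
    (@En.n l5 (nat_lit 13392) (nat_lit 1) (nat_lit 14))
    (@En.n l1643 (nat_lit 5839) (nat_lit 9) (nat_lit 14))
    (@En.i (nat_lit 14062) (nat_lit 9) (nat_lit 9))
    (@En.n l538 (nat_lit 13628) (nat_lit 3) (nat_lit 6))
    (@En.n l7 (nat_lit 13392) (nat_lit 4) (nat_lit 2))
    (@En.n l11757 (nat_lit 13387) (nat_lit 5) (nat_lit 7))
    (@En.n l5472 (nat_lit 13557) (nat_lit 7) (nat_lit 14))
    (@En.n l4698 (nat_lit 13841) (nat_lit 7) (nat_lit 6))
    (@En.n l107 (nat_lit 13392) (nat_lit 8) (nat_lit 2))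
    (@En.n l13083 (nat_lit 13388) (nat_lit 10) (nat_lit 10))
    (@En.n l97 (nat_lit 13705) (nat_lit 11) (nat_lit 14))
    (@En.n l17827 (nat_lit 13089) (nat_lit 12) (nat_lit 7))
    (@En.i (nat_lit 13414) (nat_lit 13) (nat_lit 9))
    (@En.n l11757 (nat_lit 2085) (nat_lit 4) (nat_lit 10))
    (@En.n l17 (nat_lit 13392) (nat_lit 14) (nat_lit 2))
    (@En.n l18 (nat_lit 13392) (nat_lit 15) (nat_lit 2))))
  (@Cl.mk (nat_lit 0x20002000c000b0007000a0004000e00050002000e000600020009000e000e) (nat_lit 0x23050800a00145) (nat_lit 16) Lb.e (@T16.mk En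
    (@En.n l97 (nat_lit 13393) (nat_lit 1) (nat_lit 14))
    (@En.i (nat_lit 5831) (nat_lit 1) (nat_lit 14))
    (@En.n l617 (nat_lit 13388) (nat_lit 2) (nat_lit 9))
    (@En.n l17 (nat_lit 13393) (nat_lit 3) (nat_lit 2))
    (@En.i (nat_lit 13388) (nat_lit 4) (nat_lit 6))
    (@En.n l9025 (nat_lit 13620) (nat_lit 6) (nat_lit 14))
    (@En.n l50 (nat_lit 13393) (nat_lit 6) (nat_lit 2))
    (@En.n l9902 (nat_lit 13384) (nat_lit 7) (nat_lit 5))
    (@En.n l601 (nat_lit 13554) (nat_lit 9) (nat_lit 14))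
    (@En.i (nat_lit 13968) (nat_lit 9) (nat_lit 4))
    (@En.n l9025 (nat_lit 13074) (nat_lit 11) (nat_lit 10))
    (@En.i (nat_lit 13216) (nat_lit 12) (nat_lit 7))
    (@En.n l77 (nat_lit 13412) (nat_lit 13) (nat_lit 11))
    (@En.i (nat_lit 2089) (nat_lit 10) (nat_lit 12))
    (@En.n l107 (nat_lit 13393) (nat_lit 14) (nat_lit 2))
    (@En.n l3 (nat_lit 13393) (nat_lit 15) (nat_lit 2))))
  (@Cl.mk (nat_lit 0x20002000c000a000a000e00040002000c00060006000e00040002000e000e) (nat_lit 0x334500800a0089) (nat_lit 16) Lb.e (@T16.mk En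
    (@En.n l97 (nat_lit 13394) (nat_lit 1) (nat_lit 14))
    (@En.i (nat_lit 2728) (nat_lit 1) (nat_lit 14))
    (@En.n l17 (nat_lit 13394) (nat_lit 2) (nat_lit 2))
    (@En.n l1496 (nat_lit 13379) (nat_lit 3) (nat_lit 4))
    (@En.i (nat_lit 13492) (nat_lit 5) (nat_lit 14))
    (@En.n l1497 (nat_lit 13371) (nat_lit 5) (nat_lit 6))
    (@En.n l433 (nat_lit 12890) (nat_lit 6) (nat_lit 6))
    (@En.n l564 (nat_lit 13487) (nat_lit 8) (nat_lit 12))
    (@En.n l7 (nat_lit 13394) (nat_lit 8) (nat_lit 2))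
    (@En.n l28 (nat_lit 13319) (nat_lit 9) (nat_lit 4))
    (@En.n l1498 (nat_lit 13464) (nat_lit 11) (nat_lit 14))
    (@En.n l13 (nat_lit 13027) (nat_lit 12) (nat_lit 10))
    (@En.n l433 (nat_lit 13405) (nat_lit 13) (nat_lit 10))
    (@En.i (nat_lit 624) (nat_lit 14) (nat_lit 12))
    (@En.n l107 (nat_lit 13394) (nat_lit 14) (nat_lit 2))
    (@En.n l3 (nat_lit 13394) (nat_lit 15) (nat_lit 2))))
  (@Cl.mk (nat_lit 0x20002000c0009000d000c00040003000c00040007000e00040002000e000e) (nat_lit 0x13550070040034) (nat_lit 16) Lb.e (@T16.mk En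
    (@En.n l97 (nat_lit 13395) (nat_lit 1) (nat_lit 14))
    (@En.i (nat_lit 4258) (nat_lit 1) (nat_lit 14))
    (@En.n l17 (nat_lit 13395) (nat_lit 2) (nat_lit 2))
    (@En.i (nat_lit 13406) (nat_lit 3) (nat_lit 4))
    (@En.i (nat_lit 13159) (nat_lit 5) (nat_lit 14))
    (@En.n l1497 (nat_lit 13041) (nat_lit 5) (nat_lit 7))
    (@En.n l7 (nat_lit 13403) (nat_lit 6) (nat_lit 4))
    (@En.n l564 (nat_lit 13999) (nat_lit 8) (nat_lit 12))
    (@En.n l7 (nat_lit 13397) (nat_lit 8) (nat_lit 3))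
    (@En.i (nat_lit 13394) (nat_lit 9) (nat_lit 4))
    (@En.n l644 (nat_lit 13396) (nat_lit 11) (nat_lit 12))
    (@En.n l1363 (nat_lit 13068) (nat_lit 12) (nat_lit 13))
    (@En.n l1497 (nat_lit 13402) (nat_lit 13) (nat_lit 9))
    (@En.i (nat_lit 6858) (nat_lit 14) (nat_lit 12))
    (@En.n l107 (nat_lit 13395) (nat_lit 14) (nat_lit 2))
    (@En.n l3 (nat_lit 13395) (nat_lit 15) (nat_lit 2))))
  (@Cl.mk (nat_lit 0x20002000d0009000c0003000d000b000400030007000e00050002000e000e) (nat_lit 0x23406600050067) (nat_lit 16) Lb.e (@T16.mk En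
    (@En.n l97 (nat_lit 13396) (nat_lit 1) (nat_lit 14))
    (@En.i (nat_lit 3743) (nat_lit 1) (nat_lit 14))
    (@En.n l17 (nat_lit 13396) (nat_lit 2) (nat_lit 2))
    (@En.i (nat_lit 13407) (nat_lit 3) (nat_lit 5))
    (@En.i (nat_lit 13156) (nat_lit 5) (nat_lit 14))
    (@En.n l612 (nat_lit 13395) (nat_lit 5) (nat_lit 7))
    (@En.n l50 (nat_lit 13397) (nat_lit 6) (nat_lit 3))
    (@En.i (nat_lit 13404) (nat_lit 7) (nat_lit 4))
    (@En.n l217 (nat_lit 13993) (nat_lit 9) (nat_lit 11))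
    (@En.i (nat_lit 13762) (nat_lit 10) (nat_lit 13))
    (@En.i (nat_lit 13399) (nat_lit 10) (nat_lit 3))
    (@En.i (nat_lit 12844) (nat_lit 12) (nat_lit 12))
    (@En.i (nat_lit 13401) (nat_lit 13) (nat_lit 9))
    (@En.i (nat_lit 6715) (nat_lit 14) (nat_lit 13))
    (@En.n l107 (nat_lit 13396) (nat_lit 14) (nat_lit 2))
    (@En.n l3 (nat_lit 13396) (nat_lit 15) (nat_lit 2))))
  (@Cl.mk (nat_lit 0x20002000d0009000d0003000d0003000c00030007000e00040002000e000e) (nat_lit 0x23506080050034) (nat_lit 16) Lb.e (@T16.mk En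
    (@En.n l97 (nat_lit 13397) (nat_lit 1) (nat_lit 14))
    (@En.i (nat_lit 4256) (nat_lit 1) (nat_lit 14))
    (@En.n l17 (nat_lit 13397) (nat_lit 2) (nat_lit 2))
    (@En.i (nat_lit 14003) (nat_lit 3) (nat_lit 4))
    (@En.i (nat_lit 13157) (nat_lit 5) (nat_lit 14))
    (@En.i (nat_lit 13042) (nat_lit 5) (nat_lit 7))
    (@En.i (nat_lit 13396) (nat_lit 6) (nat_lit 3))
    (@En.i (nat_lit 13851) (nat_lit 8) (nat_lit 12))
    (@En.i (nat_lit 13395) (nat_lit 8) (nat_lit 3))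
    (@En.i (nat_lit 13763) (nat_lit 10) (nat_lit 13))
    (@En.i (nat_lit 13398) (nat_lit 10) (nat_lit 3))
    (@En.i (nat_lit 13070) (nat_lit 12) (nat_lit 13))
    (@En.i (nat_lit 13400) (nat_lit 13) (nat_lit 9))
    (@En.i (nat_lit 6857) (nat_lit 14) (nat_lit 13))
    (@En.n l107 (nat_lit 13397) (nat_lit 14) (nat_lit 2))
    (@En.n l3 (nat_lit 13397) (nat_lit 15) (nat_lit 2))))
  (@Cl.mk (nat_lit 0x20002000d000c000a0003000d0004000c00030006000e00040002000e000e) (nat_lit 0x225060700b0034) (nat_lit 16) Lb.e (@T16.mk En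
    (@En.n l97 (nat_lit 13398) (nat_lit 1) (nat_lit 14))
    (@En.i (nat_lit 4257) (nat_lit 1) (nat_lit 14))
    (@En.n l17 (nat_lit 13398) (nat_lit 2) (nat_lit 2))
    (@En.i (nat_lit 14004) (nat_lit 3) (nat_lit 4))
    (@En.i (nat_lit 12984) (nat_lit 5) (nat_lit 14))
    (@En.i (nat_lit 13380) (nat_lit 5) (nat_lit 6))
    (@En.i (nat_lit 13399) (nat_lit 6) (nat_lit 3))
    (@En.i (nat_lit 13848) (nat_lit 8) (nat_lit 12))
    (@En.n l28 (nat_lit 13319) (nat_lit 8) (nat_lit 4))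
    (@En.n l343 (nat_lit 13400) (nat_lit 10) (nat_lit 13))
    (@En.n l28 (nat_lit 13397) (nat_lit 10) (nat_lit 3))
    (@En.i (nat_lit 12931) (nat_lit 12) (nat_lit 10))
    (@En.n l77 (nat_lit 13395) (nat_lit 13) (nat_lit 12))
    (@En.i (nat_lit 6856) (nat_lit 14) (nat_lit 13))
    (@En.n l107 (nat_lit 13398) (nat_lit 14) (nat_lit 2))
    (@En.n l3 (nat_lit 13398) (nat_lit 15) (nat_lit 2))))
  (@Cl.mk (nat_lit 0x20002000d000b000a0003000d000b000500030006000e00050002000e000e) (nat_lit 0x355066000b0023) (nat_lit 16) Lb.e (@T16.mk En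
    (@En.n l97 (nat_lit 13399) (nat_lit 1) (nat_lit 14))
    (@En.i (nat_lit 4261) (nat_lit 1) (nat_lit 14))
    (@En.n l17 (nat_lit 13399) (nat_lit 2) (nat_lit 2))
    (@En.n l1490 (nat_lit 14006) (nat_lit 3) (nat_lit 5))
    (@En.i (nat_lit 12985) (nat_lit 5) (nat_lit 14))
    (@En.n l612 (nat_lit 13394) (nat_lit 5) (nat_lit 6))
    (@En.n l50 (nat_lit 13398) (nat_lit 6) (nat_lit 3))
    (@En.n l28 (nat_lit 12886) (nat_lit 7) (nat_lit 5))
    (@En.n l1490 (nat_lit 14002) (nat_lit 9) (nat_lit 11))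
    (@En.n l343 (nat_lit 13401) (nat_lit 10) (nat_lit 13))
    (@En.n l28 (nat_lit 13396) (nat_lit 10) (nat_lit 3))
    (@En.n l169 (nat_lit 12895) (nat_lit 12) (nat_lit 10))
    (@En.i (nat_lit 13403) (nat_lit 13) (nat_lit 11))
    (@En.n l1490 (nat_lit 6710) (nat_lit 14) (nat_lit 13))
    (@En.n l107 (nat_lit 13399) (nat_lit 14) (nat_lit 2))
    (@En.n l3 (nat_lit 13399) (nat_lit 15) (nat_lit 2))))
  (@Cl.mk (nat_lit 0x200020009000d000a000d0003000b000300070006000e00050002000e000e) (nat_lit 0x235506000c0034) (nat_lit 16) Lb.e (@T16.mk En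
    (@En.n l97 (nat_lit 13400) (nat_lit 1) (nat_lit 14))
    (@En.i (nat_lit 4259) (nat_lit 1) (nat_lit 14))
    (@En.n l17 (nat_lit 13400) (nat_lit 2) (nat_lit 2))
    (@En.i (nat_lit 14005) (nat_lit 3) (nat_lit 5))
    (@En.n l780 (nat_lit 13131) (nat_lit 5) (nat_lit 14))
    (@En.n l55 (nat_lit 13398) (nat_lit 5) (nat_lit 6))
    (@En.n l11740 (nat_lit 13424) (nat_lit 6) (nat_lit 7))
    (@En.i (nat_lit 13401) (nat_lit 7) (nat_lit 3))
    (@En.i (nat_lit 13844) (nat_lit 9) (nat_lit 11))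
    (@En.n l1497 (nat_lit 13402) (nat_lit 9) (nat_lit 3))
    (@En.n l198 (nat_lit 13766) (nat_lit 11) (nat_lit 13))
    (@En.i (nat_lit 12900) (nat_lit 12) (nat_lit 10))
    (@En.n l780 (nat_lit 13396) (nat_lit 13) (nat_lit 13))
    (@En.i (nat_lit 6057) (nat_lit 14) (nat_lit 9))
    (@En.n l107 (nat_lit 13400) (nat_lit 14) (nat_lit 2))
    (@En.n l3 (nat_lit 13400) (nat_lit 15) (nat_lit 2))))
  (@Cl.mk (nat_lit 0x200020009000c000a000d000a0004000300070006000e00060002000e000e) (nat_lit 0x253550000c0012) (nat_lit 16) Lb.e (@T16.mk En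
    (@En.n l97 (nat_lit 13401) (nat_lit 1) (nat_lit 14))
    (@En.i (nat_lit 1015) (nat_lit 1) (nat_lit 14))
    (@En.n l17 (nat_lit 13401) (nat_lit 2) (nat_lit 2))
    (@En.n l440 (nat_lit 14020) (nat_lit 3) (nat_lit 6))
    (@En.n l780 (nat_lit 13130) (nat_lit 5) (nat_lit 14))
    (@En.n l55 (nat_lit 13399) (nat_lit 5) (nat_lit 6))
    (@En.n l443 (nat_lit 13402) (nat_lit 6) (nat_lit 7))
    (@En.n l50 (nat_lit 13400) (nat_lit 7) (nat_lit 3))
    (@En.n l1567 (nat_lit 12884) (nat_lit 8) (nat_lit 4))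
    (@En.n l217 (nat_lit 13879) (nat_lit 10) (nat_lit 10))
    (@En.n l1567 (nat_lit 13765) (nat_lit 11) (nat_lit 13))
    (@En.i (nat_lit 12892) (nat_lit 12) (nat_lit 10))
    (@En.n l780 (nat_lit 13404) (nat_lit 13) (nat_lit 12))
    (@En.i (nat_lit 6056) (nat_lit 14) (nat_lit 9))
    (@En.n l107 (nat_lit 13401) (nat_lit 14) (nat_lit 2))
    (@En.n l3 (nat_lit 13401) (nat_lit 15) (nat_lit 2))))
  (@Cl.mk (nat_lit 0x200020009000d000c000b0003000b000400070005000e00050002000e000e) (nat_lit 0x246606000c0012) (nat_lit 16) Lb.e (@T16.mk En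
    (@En.n l5 (nat_lit 13402) (nat_lit 1) (nat_lit 14))
    (@En.n l542 (nat_lit 1016) (nat_lit 1) (nat_lit 14))
    (@En.n l7 (nat_lit 13402) (nat_lit 2) (nat_lit 2))
    (@En.n l28 (nat_lit 14019) (nat_lit 3) (nat_lit 5))
    (@En.n l4374 (nat_lit 13129) (nat_lit 5) (nat_lit 14))
    (@En.n l542 (nat_lit 13319) (nat_lit 5) (nat_lit 5))
    (@En.i (nat_lit 13423) (nat_lit 6) (nat_lit 7))
    (@En.i (nat_lit 12883) (nat_lit 7) (nat_lit 4))
    (@En.n l4375 (nat_lit 13866) (nat_lit 9) (nat_lit 11))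
    (@En.n l1424 (nat_lit 13400) (nat_lit 9) (nat_lit 3))
    (@En.i (nat_lit 13030) (nat_lit 11) (nat_lit 11))
    (@En.n l4376 (nat_lit 13401) (nat_lit 12) (nat_lit 12))
    (@En.n l4374 (nat_lit 13399) (nat_lit 13) (nat_lit 13))
    (@En.i (nat_lit 6051) (nat_lit 14) (nat_lit 9))
    (@En.n l17 (nat_lit 13402) (nat_lit 14) (nat_lit 2))
    (@En.n l18 (nat_lit 13402) (nat_lit 15) (nat_lit 2))))
  (@Cl.mk (nat_lit 0x20002000b0009000c000c000a0005000400040007000e00060002000e000e) (nat_lit 0x444550000b00bc) (nat_lit 16) Lb.e (@T16.mk En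
    (@En.n l97 (nat_lit 13403) (nat_lit 1) (nat_lit 14))
    (@En.i (nat_lit 3215) (nat_lit 1) (nat_lit 14))
    (@En.n l17 (nat_lit 13403) (nat_lit 2) (nat_lit 2))
    (@En.n l4692 (nat_lit 13546) (nat_lit 3) (nat_lit 6))
    (@En.i (nat_lit 13501) (nat_lit 5) (nat_lit 14))
    (@En.n l4693 (nat_lit 13405) (nat_lit 5) (nat_lit 7))
    (@En.n l1356 (nat_lit 13405) (nat_lit 6) (nat_lit 4))
    (@En.i (nat_lit 13396) (nat_lit 7) (nat_lit 4))
    (@En.n l1358 (nat_lit 715) (nat_lit 8) (nat_lit 5))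
    (@En.n l2337 (nat_lit 14000) (nat_lit 10) (nat_lit 10))
    (@En.n l601 (nat_lit 13404) (nat_lit 11) (nat_lit 12))
    (@En.n l4694 (nat_lit 12845) (nat_lit 12) (nat_lit 12))
    (@En.n l437 (nat_lit 12883) (nat_lit 13) (nat_lit 9))
    (@En.i (nat_lit 1785) (nat_lit 14) (nat_lit 11))
    (@En.n l107 (nat_lit 13403) (nat_lit 14) (nat_lit 2))
    (@En.n l3 (nat_lit 13403) (nat_lit 15) (nat_lit 2))))
  (@Cl.mk (nat_lit 0x20002000c0009000c00090004000e000400020007000e00070002000e000e) (nat_lit 0x444408000100bc) (nat_lit 16) Lb.e (@T16.mk En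
    (@En.n l97 (nat_lit 13404) (nat_lit 1) (nat_lit 14))
    (@En.i (nat_lit 3734) (nat_lit 1) (nat_lit 14))
    (@En.n l17 (nat_lit 13404) (nat_lit 2) (nat_lit 2))
    (@En.n l5424 (nat_lit 13552) (nat_lit 3) (nat_lit 7))
    (@En.i (nat_lit 677) (nat_lit 5) (nat_lit 14))
    (@En.n l252 (nat_lit 13403) (nat_lit 5) (nat_lit 7))
    (@En.n l50 (nat_lit 13404) (nat_lit 6) (nat_lit 2))
    (@En.n l7 (nat_lit 13403) (nat_lit 7) (nat_lit 4))
    (@En.n l4799 (nat_lit 13761) (nat_lit 9) (nat_lit 14))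
    (@En.n l2266 (nat_lit 719) (nat_lit 9) (nat_lit 4))
    (@En.i (nat_lit 13850) (nat_lit 11) (nat_lit 9))
    (@En.n l4799 (nat_lit 13211) (nat_lit 12) (nat_lit 12))
    (@En.n l1567 (nat_lit 12884) (nat_lit 13) (nat_lit 9))
    (@En.i (nat_lit 1809) (nat_lit 7) (nat_lit 12))
    (@En.n l107 (nat_lit 13404) (nat_lit 14) (nat_lit 2))
    (@En.n l3 (nat_lit 13404) (nat_lit 15) (nat_lit 2))))
  (@Cl.mk (nat_lit 0x20002000a0009000e000c0002000b000600040007000e00050002000e000e) (nat_lit 0x233507000b00bc) (nat_lit 16) Lb.e (@T16.mk En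
    (@En.n l5 (nat_lit 13405) (nat_lit 1) (nat_lit 14))
    (@En.n l561 (nat_lit 3214) (nat_lit 1) (nat_lit 14))
    (@En.n l7 (nat_lit 13405) (nat_lit 2) (nat_lit 2))
    (@En.n l28 (nat_lit 13548) (nat_lit 3) (nat_lit 5))
    (@En.n l561 (nat_lit 13497) (nat_lit 5) (nat_lit 14))
    (@En.i (nat_lit 13951) (nat_lit 5) (nat_lit 7))
    (@En.n l561 (nat_lit 13395) (nat_lit 6) (nat_lit 4))
    (@En.i (nat_lit 720) (nat_lit 7) (nat_lit 6))
    (@En.n l4519 (nat_lit 13998) (nat_lit 9) (nat_lit 11))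
    (@En.n l107 (nat_lit 13405) (nat_lit 9) (nat_lit 2))
    (@En.n l4718 (nat_lit 13403) (nat_lit 11) (nat_lit 12))
    (@En.n l97 (nat_lit 13422) (nat_lit 12) (nat_lit 14))
    (@En.n l182 (nat_lit 12885) (nat_lit 13) (nat_lit 9))
    (@En.i (nat_lit 1786) (nat_lit 3) (nat_lit 10))
    (@En.n l17 (nat_lit 13405) (nat_lit 14) (nat_lit 2))
    (@En.n l18 (nat_lit 13405) (nat_lit 15) (nat_lit 2))))
  (@Cl.mk (nat_lit 0x20002000c0008000d000b00040003000c000c0005000800040004000e000e) (nat_lit 0x13540098020023) (nat_lit 16) Lb.e (@T16.mk En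
    (@En.n l97 (nat_lit 13406) (nat_lit 1) (nat_lit 14))
    (@En.i (nat_lit 3041) (nat_lit 1) (nat_lit 14))
    (@En.n l1696 (nat_lit 14025) (nat_lit 2) (nat_lit 4))
    (@En.i (nat_lit 14000) (nat_lit 3) (nat_lit 4))
    (@En.n l4573 (nat_lit 13037) (nat_lit 4) (nat_lit 8))
    (@En.n l429 (nat_lit 13973) (nat_lit 5) (nat_lit 5))
    (@En.n l61 (nat_lit 13395) (nat_lit 7) (nat_lit 12))
    (@En.n l564 (nat_lit 13967) (nat_lit 8) (nat_lit 12))
    (@En.n l7 (nat_lit 14003) (nat_lit 8) (nat_lit 3))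
    (@En.n l1496 (nat_lit 13379) (nat_lit 9) (nat_lit 4))
    (@En.n l644 (nat_lit 13407) (nat_lit 11) (nat_lit 11))
    (@En.n l4576 (nat_lit 13454) (nat_lit 12) (nat_lit 13))
    (@En.n l4573 (nat_lit 14019) (nat_lit 13) (nat_lit 8))
    (@En.i (nat_lit 6783) (nat_lit 14) (nat_lit 12))
    (@En.n l107 (nat_lit 13406) (nat_lit 14) (nat_lit 2))
    (@En.n l3 (nat_lit 13406) (nat_lit 15) (nat_lit 2))))
  (@Cl.mk (nat_lit 0x20002000d0008000b0003000c000b000b00050004000800050005000e000e) (nat_lit 0x33307770030023) (nat_lit 16) Lb.e (@T16.mk En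
    (@En.n l97 (nat_lit 13407) (nat_lit 1) (nat_lit 14))
    (@En.i (nat_lit 4196) (nat_lit 1) (nat_lit 14))
    (@En.n l1694 (nat_lit 14009) (nat_lit 2) (nat_lit 5))
    (@En.n l50 (nat_lit 14001) (nat_lit 3) (nat_lit 5))
    (@En.n l612 (nat_lit 13406) (nat_lit 4) (nat_lit 8))
    (@En.n l50 (nat_lit 14003) (nat_lit 5) (nat_lit 4))
    (@En.n l429 (nat_lit 13972) (nat_lit 6) (nat_lit 5))
    (@En.n l61 (nat_lit 13396) (nat_lit 8) (nat_lit 11))
    (@En.n l217 (nat_lit 13896) (nat_lit 9) (nat_lit 11))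
    (@En.i (nat_lit 13751) (nat_lit 10) (nat_lit 12))
    (@En.n l1490 (nat_lit 14006) (nat_lit 10) (nat_lit 3))
    (@En.n l8244 (nat_lit 12990) (nat_lit 12) (nat_lit 11))
    (@En.n l440 (nat_lit 14020) (nat_lit 13) (nat_lit 8))
    (@En.n l8244 (nat_lit 6775) (nat_lit 14) (nat_lit 13))
    (@En.n l107 (nat_lit 13407) (nat_lit 14) (nat_lit 2))
    (@En.n l3 (nat_lit 13407) (nat_lit 15) (nat_lit 2))))
noncomputable def a838 : T16 Cl := @T16.mk Cl
  (@Cl.mk (nat_lit 0x20002000a00090008000e000d0002000600030007000e00080002000e000e) (nat_lit 0x324470000c1034) (nat_lit 16) Lb.e (@T16.mk En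
    (@En.n l5 (nat_lit 13408) (nat_lit 1) (nat_lit 14))
    (@En.n l10259 (nat_lit 3900) (nat_lit 1) (nat_lit 14))
    (@En.n l7 (nat_lit 13408) (nat_lit 2) (nat_lit 2))
    (@En.n l4433 (nat_lit 12950) (nat_lit 3) (nat_lit 8))
    (@En.n l10260 (nat_lit 13409) (nat_lit 5) (nat_lit 14))
    (@En.n l1847 (nat_lit 13761) (nat_lit 5) (nat_lit 7))
    (@En.n l4722 (nat_lit 12954) (nat_lit 6) (nat_lit 3))
    (@En.i (nat_lit 12901) (nat_lit 7) (nat_lit 6))
    (@En.n l3 (nat_lit 13408) (nat_lit 8) (nat_lit 2))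
    (@En.n l10256 (nat_lit 12954) (nat_lit 10) (nat_lit 13))
    (@En.n l1847 (nat_lit 13405) (nat_lit 11) (nat_lit 14))
    (@En.i (nat_lit 13037) (nat_lit 12) (nat_lit 8))
    (@En.i (nat_lit 13290) (nat_lit 13) (nat_lit 9))
    (@En.i (nat_lit 5374) (nat_lit 4) (nat_lit 10))
    (@En.n l17 (nat_lit 13408) (nat_lit 14) (nat_lit 2))
    (@En.n l18 (nat_lit 13408) (nat_lit 15) (nat_lit 2))))
  (@Cl.mk (nat_lit 0x20002000a00060009000e000d000200060003000e00070002000a000e000e) (nat_lit 0x104a8000b005bc) (nat_lit 16) Lb.e (@T16.mk En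
    (@En.n l97 (nat_lit 13409) (nat_lit 1) (nat_lit 14))
    (@En.i (nat_lit 4750) (nat_lit 9) (nat_lit 14))
    (@En.n l5129 (nat_lit 13411) (nat_lit 2) (nat_lit 10))
    (@En.n l17 (nat_lit 13409) (nat_lit 3) (nat_lit 2))
    (@En.n l5130 (nat_lit 13411) (nat_lit 4) (nat_lit 7))
    (@En.n l13620 (nat_lit 13592) (nat_lit 6) (nat_lit 14))
    (@En.n l1337 (nat_lit 13412) (nat_lit 6) (nat_lit 3))
    (@En.n l3645 (nat_lit 12928) (nat_lit 7) (nat_lit 6))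
    (@En.n l50 (nat_lit 13409) (nat_lit 8) (nat_lit 2))
    (@En.n l644 (nat_lit 13412) (nat_lit 10) (nat_lit 13))
    (@En.n l1337 (nat_lit 13497) (nat_lit 11) (nat_lit 14))
    (@En.n l5125 (nat_lit 13041) (nat_lit 12) (nat_lit 9))
    (@En.n l13621 (nat_lit 13052) (nat_lit 13) (nat_lit 6))
    (@En.i (nat_lit 4988) (nat_lit 4) (nat_lit 10))
    (@En.n l107 (nat_lit 13409) (nat_lit 14) (nat_lit 2))
    (@En.n l3 (nat_lit 13409) (nat_lit 15) (nat_lit 2))))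
  (@Cl.mk (nat_lit 0x20002000a000600090009000d000d00060003000300070007000a000e000e) (nat_lit 0x203689000004bc) (nat_lit 16) Lb.e (@T16.mk En
    (@En.n l97 (nat_lit 13410) (nat_lit 1) (nat_lit 14))
    (@En.i (nat_lit 4742) (nat_lit 1) (nat_lit 14))
    (@En.n l26840 (nat_lit 13414) (nat_lit 2) (nat_lit 10))
    (@En.n l26841 (nat_lit 13414) (nat_lit 3) (nat_lit 7))
    (@En.n l12634 (nat_lit 13420) (nat_lit 4) (nat_lit 7))
    (@En.n l5130 (nat_lit 13411) (nat_lit 5) (nat_lit 3))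
    (@En.n l7 (nat_lit 13415) (nat_lit 6) (nat_lit 3))
    (@En.n l8268 (nat_lit 13383) (nat_lit 7) (nat_lit 6))
    (@En.n l644 (nat_lit 13415) (nat_lit 9) (nat_lit 13))
    (@En.n l1353 (nat_lit 13162) (nat_lit 10) (nat_lit 13))
    (@En.n l61 (nat_lit 13412) (nat_lit 11) (nat_lit 9))
    (@En.n l1353 (nat_lit 12954) (nat_lit 12) (nat_lit 9))
    (@En.n l26842 (nat_lit 13046) (nat_lit 13) (nat_lit 6))
    (@En.n l13004 (nat_lit 1882) (nat_lit 14) (nat_lit 10))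
    (@En.n l107 (nat_lit 13410) (nat_lit 14) (nat_lit 2))
    (@En.n l3 (nat_lit 13410) (nat_lit 15) (nat_lit 2))))
  (@Cl.mk (nat_lit 0x200020009000600090009000e000d00020007000300070007000a000e000e) (nat_lit 0x3035a9000004bc) (nat_lit 16) Lb.e (@T16.mk En
    (@En.n l5 (nat_lit 13411) (nat_lit 1) (nat_lit 14))
    (@En.n l1643 (nat_lit 4740) (nat_lit 10) (nat_lit 14))
    (@En.n l3 (nat_lit 13413) (nat_lit 2) (nat_lit 10))
    (@En.n l527 (nat_lit 13413) (nat_lit 3) (nat_lit 7))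
    (@En.n l11034 (nat_lit 13512) (nat_lit 4) (nat_lit 7))
    (@En.n l13082 (nat_lit 13410) (nat_lit 5) (nat_lit 3))
    (@En.n l6148 (nat_lit 12926) (nat_lit 6) (nat_lit 7))
    (@En.n l28 (nat_lit 13411) (nat_lit 7) (nat_lit 2))
    (@En.n l27304 (nat_lit 13410) (nat_lit 9) (nat_lit 13))
    (@En.n l25987 (nat_lit 13498) (nat_lit 10) (nat_lit 14))
    (@En.n l13243 (nat_lit 13409) (nat_lit 11) (nat_lit 9))
    (@En.n l13244 (nat_lit 13408) (nat_lit 12) (nat_lit 9))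
    (@En.n l1504 (nat_lit 13051) (nat_lit 13) (nat_lit 6))
    (@En.i (nat_lit 4985) (nat_lit 5) (nat_lit 9))
    (@En.n l17 (nat_lit 13411) (nat_lit 14) (nat_lit 2))
    (@En.n l18 (nat_lit 13411) (nat_lit 15) (nat_lit 2))))
  (@Cl.mk (nat_lit 0x20002000b00060009000d000d000500030003000e00070002000a000e000e) (nat_lit 0x20576000b005bc) (nat_lit 16) Lb.e (@T16.mk En
    (@En.n l97 (nat_lit 13412) (nat_lit 1) (nat_lit 14))
    (@En.i (nat_lit 4747) (nat_lit 1) (nat_lit 14))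
    (@En.n l617 (nat_lit 13410) (nat_lit 2) (nat_lit 10))
    (@En.n l17 (nat_lit 13412) (nat_lit 3) (nat_lit 2))
    (@En.i (nat_lit 13410) (nat_lit 4) (nat_lit 7))
    (@En.i (nat_lit 13604) (nat_lit 6) (nat_lit 14))
    (@En.i (nat_lit 13409) (nat_lit 6) (nat_lit 3))
    (@En.n l7 (nat_lit 13417) (nat_lit 7) (nat_lit 3))
    (@En.i (nat_lit 13382) (nat_lit 8) (nat_lit 5))
    (@En.n l644 (nat_lit 13417) (nat_lit 10) (nat_lit 13))
    (@En.i (nat_lit 13159) (nat_lit 11) (nat_lit 13))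
    (@En.n l564 (nat_lit 13042) (nat_lit 12) (nat_lit 9))
    (@En.n l159 (nat_lit 13050) (nat_lit 13) (nat_lit 6))
    (@En.i (nat_lit 4995) (nat_lit 14) (nat_lit 11))
    (@En.n l107 (nat_lit 13412) (nat_lit 14) (nat_lit 2))
    (@En.n l3 (nat_lit 13412) (nat_lit 15) (nat_lit 2))))
  (@Cl.mk (nat_lit 0x2000200080006000e00090002000e000d0002000800030007000a000e000e) (nat_lit 0x105406a02003bc) (nat_lit 16) Lb.e (@T16.mk En
    (@En.n l5 (nat_lit 13413) (nat_lit 1) (nat_lit 14))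
    (@En.n l1643 (nat_lit 4722) (nat_lit 11) (nat_lit 14))
    (@En.i (nat_lit 14065) (nat_lit 2) (nat_lit 10))
    (@En.n l1504 (nat_lit 13510) (nat_lit 3) (nat_lit 7))
    (@En.i (nat_lit 13414) (nat_lit 4) (nat_lit 3))
    (@En.i (nat_lit 12927) (nat_lit 5) (nat_lit 8))
    (@En.n l28 (nat_lit 13413) (nat_lit 6) (nat_lit 2))
    (@En.n l134 (nat_lit 13414) (nat_lit 8) (nat_lit 13))
    (@En.i (nat_lit 13534) (nat_lit 9) (nat_lit 14))
    (@En.n l107 (nat_lit 13413) (nat_lit 9) (nat_lit 2))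
    (@En.i (nat_lit 13411) (nat_lit 11) (nat_lit 9))
    (@En.n l97 (nat_lit 12958) (nat_lit 12) (nat_lit 14))
    (@En.n l1504 (nat_lit 13053) (nat_lit 13) (nat_lit 6))
    (@En.i (nat_lit 4983) (nat_lit 14) (nat_lit 8))
    (@En.n l17 (nat_lit 13413) (nat_lit 14) (nat_lit 2))
    (@En.n l18 (nat_lit 13413) (nat_lit 15) (nat_lit 2))))
  (@Cl.mk (nat_lit 0x2000200090006000e00090002000d000d0007000300030007000a000e000e) (nat_lit 0x205409a00003bc) (nat_lit 16) Lb.e (@T16.mk En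
    (@En.n l5 (nat_lit 13414) (nat_lit 1) (nat_lit 14))
    (@En.n l1643 (nat_lit 4720) (nat_lit 1) (nat_lit 14))
    (@En.i (nat_lit 14064) (nat_lit 2) (nat_lit 10))
    (@En.n l538 (nat_lit 13419) (nat_lit 3) (nat_lit 7))
    (@En.n l7 (nat_lit 13413) (nat_lit 4) (nat_lit 3))
    (@En.n l561 (nat_lit 13416) (nat_lit 5) (nat_lit 3))
    (@En.i (nat_lit 13386) (nat_lit 6) (nat_lit 7))
    (@En.n l4603 (nat_lit 13416) (nat_lit 8) (nat_lit 13))
    (@En.n l22547 (nat_lit 13167) (nat_lit 9) (nat_lit 13))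
    (@En.n l107 (nat_lit 13414) (nat_lit 9) (nat_lit 2))
    (@En.n l13082 (nat_lit 13410) (nat_lit 11) (nat_lit 9))
    (@En.n l97 (nat_lit 12955) (nat_lit 12) (nat_lit 14))
    (@En.n l1504 (nat_lit 13048) (nat_lit 13) (nat_lit 6))
    (@En.i (nat_lit 1883) (nat_lit 14) (nat_lit 9))
    (@En.n l17 (nat_lit 13414) (nat_lit 14) (nat_lit 2))
    (@En.n l18 (nat_lit 13414) (nat_lit 15) (nat_lit 2))))
  (@Cl.mk (nat_lit 0x20002000b000600090009000d0005000e0003000200070007000a000e000e) (nat_lit 0x303580800005bc) (nat_lit 16) Lb.e (@T16.mk En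
    (@En.n l97 (nat_lit 13415) (nat_lit 1) (nat_lit 14))
    (@En.i (nat_lit 4744) (nat_lit 12) (nat_lit 14))
    (@En.n l7233 (nat_lit 13416) (nat_lit 2) (nat_lit 10))
    (@En.n l14508 (nat_lit 13416) (nat_lit 3) (nat_lit 7))
    (@En.n l6042 (nat_lit 13421) (nat_lit 4) (nat_lit 7))
    (@En.n l50 (nat_lit 13415) (nat_lit 5) (nat_lit 2))
    (@En.i (nat_lit 13410) (nat_lit 6) (nat_lit 3))
    (@En.n l5553 (nat_lit 13816) (nat_lit 8) (nat_lit 14))
    (@En.i (nat_lit 13388) (nat_lit 8) (nat_lit 5))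
    (@En.n l1353 (nat_lit 13161) (nat_lit 10) (nat_lit 13))
    (@En.n l61 (nat_lit 13417) (nat_lit 11) (nat_lit 9))
    (@En.n l1353 (nat_lit 13199) (nat_lit 12) (nat_lit 9))
    (@En.n l26395 (nat_lit 13047) (nat_lit 13) (nat_lit 6))
    (@En.n l1353 (nat_lit 1878) (nat_lit 8) (nat_lit 11))
    (@En.n l107 (nat_lit 13415) (nat_lit 14) (nat_lit 2))
    (@En.n l3 (nat_lit 13415) (nat_lit 15) (nat_lit 2))))
  (@Cl.mk (nat_lit 0x20002000a0006000e00090002000d0006000e000300020007000a000e000e) (nat_lit 0x203409090004bc) (nat_lit 16) Lb.e (@T16.mk En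
    (@En.n l97 (nat_lit 13416) (nat_lit 1) (nat_lit 14))
    (@En.i (nat_lit 4719) (nat_lit 13) (nat_lit 14))
    (@En.n l433 (nat_lit 14063) (nat_lit 2) (nat_lit 10))
    (@En.n l1660 (nat_lit 13418) (nat_lit 3) (nat_lit 7))
    (@En.n l17 (nat_lit 13416) (nat_lit 4) (nat_lit 2))
    (@En.n l1496 (nat_lit 13414) (nat_lit 5) (nat_lit 3))
    (@En.i (nat_lit 13817) (nat_lit 7) (nat_lit 14))
    (@En.n l433 (nat_lit 13392) (nat_lit 7) (nat_lit 6))
    (@En.n l13429 (nat_lit 13165) (nat_lit 9) (nat_lit 13))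
    (@En.n l7 (nat_lit 13416) (nat_lit 9) (nat_lit 2))
    (@En.n l2140 (nat_lit 13415) (nat_lit 11) (nat_lit 9))
    (@En.n l95 (nat_lit 12957) (nat_lit 12) (nat_lit 14))
    (@En.n l357 (nat_lit 13045) (nat_lit 13) (nat_lit 6))
    (@En.n l433 (nat_lit 1877) (nat_lit 9) (nat_lit 10))
    (@En.n l107 (nat_lit 13416) (nat_lit 14) (nat_lit 2))
    (@En.n l3 (nat_lit 13416) (nat_lit 15) (nat_lit 2))))
  (@Cl.mk (nat_lit 0x20002000c00060009000d0004000e00030002000e00070002000a000e000e) (nat_lit 0x20450a003006bc) (nat_lit 16) Lb.e (@T16.mk En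
    (@En.n l97 (nat_lit 13417) (nat_lit 1) (nat_lit 14))
    (@En.i (nat_lit 4746) (nat_lit 1) (nat_lit 14))
    (@En.n l617 (nat_lit 13415) (nat_lit 2) (nat_lit 10))
    (@En.n l17 (nat_lit 13417) (nat_lit 3) (nat_lit 2))
    (@En.i (nat_lit 13415) (nat_lit 4) (nat_lit 7))
    (@En.i (nat_lit 13589) (nat_lit 6) (nat_lit 14))
    (@En.n l50 (nat_lit 13417) (nat_lit 6) (nat_lit 2))
    (@En.i (nat_lit 13412) (nat_lit 7) (nat_lit 3))
    (@En.i (nat_lit 13815) (nat_lit 0) (nat_lit 14))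
    (@En.i (nat_lit 13393) (nat_lit 9) (nat_lit 4))
    (@En.i (nat_lit 13157) (nat_lit 11) (nat_lit 13))
    (@En.i (nat_lit 13075) (nat_lit 12) (nat_lit 9))
    (@En.n l159 (nat_lit 13049) (nat_lit 13) (nat_lit 6))
    (@En.i (nat_lit 5000) (nat_lit 10) (nat_lit 12))
    (@En.n l107 (nat_lit 13417) (nat_lit 14) (nat_lit 2))
    (@En.n l3 (nat_lit 13417) (nat_lit 15) (nat_lit 2))))
  (@Cl.mk (nat_lit 0x2000200090006000d0009000c0003000d0007000400030007000a000e000e) (nat_lit 0x109550a00004bc) (nat_lit 16) Lb.e (@T16.mk En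
    (@En.n l5 (nat_lit 13418) (nat_lit 1) (nat_lit 14))
    (@En.n l1385 (nat_lit 4283) (nat_lit 1) (nat_lit 14))
    (@En.i (nat_lit 13500) (nat_lit 2) (nat_lit 10))
    (@En.n l343 (nat_lit 13525) (nat_lit 3) (nat_lit 7))
    (@En.n l28 (nat_lit 13419) (nat_lit 4) (nat_lit 3))
    (@En.n l1385 (nat_lit 13581) (nat_lit 5) (nat_lit 4))
    (@En.i (nat_lit 13628) (nat_lit 6) (nat_lit 7))
    (@En.n l13386 (nat_lit 13410) (nat_lit 8) (nat_lit 13))
    (@En.n l13387 (nat_lit 13524) (nat_lit 8) (nat_lit 3))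
    (@En.n l1385 (nat_lit 13497) (nat_lit 10) (nat_lit 12))
    (@En.n l13388 (nat_lit 13421) (nat_lit 11) (nat_lit 9))
    (@En.i (nat_lit 13909) (nat_lit 12) (nat_lit 13))
    (@En.i (nat_lit 13054) (nat_lit 13) (nat_lit 6))
    (@En.n l420 (nat_lit 917) (nat_lit 14) (nat_lit 9))
    (@En.n l17 (nat_lit 13418) (nat_lit 14) (nat_lit 2))
    (@En.n l18 (nat_lit 13418) (nat_lit 15) (nat_lit 2))))
  (@Cl.mk (nat_lit 0x2000200080006000d0009000d0003000d0003000800030007000a000e000e) (nat_lit 0x3056a0a0600234) (nat_lit 16) Lb.e (@T16.mk En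
    (@En.n l5 (nat_lit 13419) (nat_lit 1) (nat_lit 14))
    (@En.n l13398 (nat_lit 4281) (nat_lit 1) (nat_lit 14))
    (@En.i (nat_lit 13520) (nat_lit 2) (nat_lit 10))
    (@En.n l253 (nat_lit 13511) (nat_lit 3) (nat_lit 7))
    (@En.i (nat_lit 13418) (nat_lit 4) (nat_lit 3))
    (@En.n l8995 (nat_lit 13773) (nat_lit 5) (nat_lit 8))
    (@En.i (nat_lit 13525) (nat_lit 6) (nat_lit 3))
    (@En.n l26388 (nat_lit 13411) (nat_lit 8) (nat_lit 13))
    (@En.n l117 (nat_lit 13522) (nat_lit 8) (nat_lit 3))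
    (@En.n l513 (nat_lit 13500) (nat_lit 10) (nat_lit 13))
    (@En.i (nat_lit 13420) (nat_lit 11) (nat_lit 9))
    (@En.i (nat_lit 13798) (nat_lit 12) (nat_lit 13))
    (@En.i (nat_lit 13057) (nat_lit 13) (nat_lit 6))
    (@En.n l420 (nat_lit 911) (nat_lit 14) (nat_lit 8))
    (@En.n l17 (nat_lit 13419) (nat_lit 14) (nat_lit 2))
    (@En.n l18 (nat_lit 13419) (nat_lit 15) (nat_lit 2))))
  (@Cl.mk (nat_lit 0x20002000900060009000d000a000d00030007000300070006000a000e000e) (nat_lit 0x305a6900000345) (nat_lit 16) Lb.e (@T16.mk En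
    (@En.n l5 (nat_lit 13420) (nat_lit 1) (nat_lit 14))
    (@En.n l13398 (nat_lit 4285) (nat_lit 1) (nat_lit 14))
    (@En.n l3 (nat_lit 13419) (nat_lit 2) (nat_lit 10))
    (@En.n l3 (nat_lit 13522) (nat_lit 3) (nat_lit 6))
    (@En.n l13401 (nat_lit 13513) (nat_lit 4) (nat_lit 7))
    (@En.n l13388 (nat_lit 13421) (nat_lit 5) (nat_lit 3))
    (@En.n l33216 (nat_lit 13774) (nat_lit 6) (nat_lit 7))
    (@En.n l12276 (nat_lit 13527) (nat_lit 7) (nat_lit 3))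
    (@En.n l33217 (nat_lit 13409) (nat_lit 9) (nat_lit 13))
    (@En.n l12984 (nat_lit 13533) (nat_lit 10) (nat_lit 10))
    (@En.n l5251 (nat_lit 13418) (nat_lit 11) (nat_lit 13))
    (@En.n l17624 (nat_lit 13180) (nat_lit 12) (nat_lit 9))
    (@En.i (nat_lit 13056) (nat_lit 13) (nat_lit 6))
    (@En.n l420 (nat_lit 913) (nat_lit 14) (nat_lit 9))
    (@En.n l17 (nat_lit 13420) (nat_lit 14) (nat_lit 2))
    (@En.n l18 (nat_lit 13420) (nat_lit 15) (nat_lit 2))))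
  (@Cl.mk (nat_lit 0x20002000a00060009000c000a000d00060004000300070006000a000e000e) (nat_lit 0x204467000005bc) (nat_lit 16) Lb.e (@T16.mk En
    (@En.n l97 (nat_lit 13421) (nat_lit 1) (nat_lit 14))
    (@En.i (nat_lit 4287) (nat_lit 1) (nat_lit 14))
    (@En.n l17838 (nat_lit 13418) (nat_lit 2) (nat_lit 10))
    (@En.n l13384 (nat_lit 13524) (nat_lit 3) (nat_lit 6))
    (@En.n l6204 (nat_lit 13527) (nat_lit 4) (nat_lit 7))
    (@En.n l27084 (nat_lit 13420) (nat_lit 5) (nat_lit 3))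
    (@En.n l7 (nat_lit 13127) (nat_lit 6) (nat_lit 4))
    (@En.n l8523 (nat_lit 13627) (nat_lit 7) (nat_lit 6))
    (@En.i (nat_lit 13412) (nat_lit 9) (nat_lit 13))
    (@En.n l6126 (nat_lit 13586) (nat_lit 10) (nat_lit 10))
    (@En.i (nat_lit 13581) (nat_lit 11) (nat_lit 12))
    (@En.n l564 (nat_lit 13178) (nat_lit 12) (nat_lit 9))
    (@En.n l12633 (nat_lit 13055) (nat_lit 13) (nat_lit 6))
    (@En.i (nat_lit 1302) (nat_lit 14) (nat_lit 10))
    (@En.n l107 (nat_lit 13421) (nat_lit 14) (nat_lit 2))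
    (@En.n l3 (nat_lit 13421) (nat_lit 15) (nat_lit 2))))
  (@Cl.mk (nat_lit 0x20002000a000e000b0002000c000b000600050004000e00050002000e000e) (nat_lit 0x125066000b0012) (nat_lit 16) Lb.e (@T16.mk En
    (@En.n l5 (nat_lit 13422) (nat_lit 1) (nat_lit 14))
    (@En.n l4744 (nat_lit 1369) (nat_lit 1) (nat_lit 14))
    (@En.n l7 (nat_lit 13422) (nat_lit 2) (nat_lit 2))
    (@En.n l28 (nat_lit 13462) (nat_lit 3) (nat_lit 5))
    (@En.n l1510 (nat_lit 13391) (nat_lit 5) (nat_lit 14))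
    (@En.i (nat_lit 13423) (nat_lit 5) (nat_lit 4))
    (@En.n l1511 (nat_lit 13068) (nat_lit 6) (nat_lit 5))
    (@En.n l575 (nat_lit 13291) (nat_lit 7) (nat_lit 6))
    (@En.n l575 (nat_lit 13033) (nat_lit 9) (nat_lit 11))
    (@En.n l1511 (nat_lit 13403) (nat_lit 10) (nat_lit 12))
    (@En.n l3 (nat_lit 13422) (nat_lit 10) (nat_lit 2))
    (@En.n l575 (nat_lit 12847) (nat_lit 12) (nat_lit 11))
    (@En.n l427 (nat_lit 12931) (nat_lit 13) (nat_lit 14))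
    (@En.i (nat_lit 4630) (nat_lit 14) (nat_lit 10))
    (@En.n l17 (nat_lit 13422) (nat_lit 14) (nat_lit 2))
    (@En.n l18 (nat_lit 13422) (nat_lit 15) (nat_lit 2))))
  (@Cl.mk (nat_lit 0x200020009000e000d0002000c0003000c00070004000e00040002000e000e) (nat_lit 0x244060800a0056) (nat_lit 16) Lb.e (@T16.mk En
    (@En.n l5 (nat_lit 13423) (nat_lit 1) (nat_lit 14))
    (@En.n l420 (nat_lit 3773) (nat_lit 1) (nat_lit 14))
    (@En.n l7 (nat_lit 13423) (nat_lit 2) (nat_lit 2))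
    (@En.n l28 (nat_lit 13425) (nat_lit 3) (nat_lit 4))
    (@En.i (nat_lit 13277) (nat_lit 5) (nat_lit 14))
    (@En.i (nat_lit 13036) (nat_lit 5) (nat_lit 4))
    (@En.i (nat_lit 13290) (nat_lit 6) (nat_lit 7))
    (@En.i (nat_lit 13645) (nat_lit 8) (nat_lit 12))
    (@En.n l117 (nat_lit 13424) (nat_lit 8) (nat_lit 3))
    (@En.i (nat_lit 13405) (nat_lit 10) (nat_lit 12))
    (@En.n l3 (nat_lit 13423) (nat_lit 10) (nat_lit 2))
    (@En.i (nat_lit 13424) (nat_lit 12) (nat_lit 13))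
    (@En.i (nat_lit 13366) (nat_lit 13) (nat_lit 14))
    (@En.i (nat_lit 3112) (nat_lit 14) (nat_lit 9))
    (@En.n l17 (nat_lit 13423) (nat_lit 14) (nat_lit 2))
    (@En.n l18 (nat_lit 13423) (nat_lit 15) (nat_lit 2))))
noncomputable def a839 : T16 Cl := @T16.mk Cl
  (@Cl.mk (nat_lit 0x200020009000d000d000b00030003000c00070005000e00040002000e000e) (nat_lit 0x334600700b0056) (nat_lit 16) Lb.e (@T16.mk En
    (@En.n l5 (nat_lit 13424) (nat_lit 1) (nat_lit 14))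
    (@En.n l420 (nat_lit 3769) (nat_lit 1) (nat_lit 14))
    (@En.n l7 (nat_lit 13424) (nat_lit 2) (nat_lit 2))
    (@En.n l28 (nat_lit 13426) (nat_lit 3) (nat_lit 4))
    (@En.n l1684 (nat_lit 13272) (nat_lit 5) (nat_lit 14))
    (@En.n l551 (nat_lit 13072) (nat_lit 5) (nat_lit 5))
    (@En.i (nat_lit 13203) (nat_lit 6) (nat_lit 7))
    (@En.n l551 (nat_lit 13303) (nat_lit 8) (nat_lit 12))
    (@En.n l152 (nat_lit 13423) (nat_lit 8) (nat_lit 3))
    (@En.n l1362 (nat_lit 13427) (nat_lit 9) (nat_lit 3))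
    (@En.n l97 (nat_lit 13422) (nat_lit 11) (nat_lit 11))
    (@En.n l5207 (nat_lit 13427) (nat_lit 12) (nat_lit 13))
    (@En.n l1684 (nat_lit 13398) (nat_lit 13) (nat_lit 13))
    (@En.i (nat_lit 3109) (nat_lit 14) (nat_lit 9))
    (@En.n l17 (nat_lit 13424) (nat_lit 14) (nat_lit 2))
    (@En.n l18 (nat_lit 13424) (nat_lit 15) (nat_lit 2))))
  (@Cl.mk (nat_lit 0x200020008000e000d0002000b0003000c000c0008000500040004000e000e) (nat_lit 0x23407079200056) (nat_lit 16) Lb.e (@T16.mk En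
    (@En.n l5 (nat_lit 13425) (nat_lit 1) (nat_lit 14))
    (@En.n l414 (nat_lit 3268) (nat_lit 1) (nat_lit 14))
    (@En.n l237 (nat_lit 14029) (nat_lit 2) (nat_lit 4))
    (@En.i (nat_lit 13430) (nat_lit 3) (nat_lit 4))
    (@En.i (nat_lit 13033) (nat_lit 4) (nat_lit 5))
    (@En.n l55 (nat_lit 13500) (nat_lit 5) (nat_lit 8))
    (@En.n l134 (nat_lit 13423) (nat_lit 7) (nat_lit 12))
    (@En.n l11 (nat_lit 13960) (nat_lit 8) (nat_lit 12))
    (@En.n l117 (nat_lit 13426) (nat_lit 8) (nat_lit 3))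
    (@En.i (nat_lit 13548) (nat_lit 10) (nat_lit 11))
    (@En.n l3 (nat_lit 13425) (nat_lit 10) (nat_lit 2))
    (@En.i (nat_lit 13426) (nat_lit 12) (nat_lit 13))
    (@En.i (nat_lit 13376) (nat_lit 13) (nat_lit 14))
    (@En.i (nat_lit 3116) (nat_lit 14) (nat_lit 8))
    (@En.n l17 (nat_lit 13425) (nat_lit 14) (nat_lit 2))
    (@En.n l18 (nat_lit 13425) (nat_lit 15) (nat_lit 2))))
  (@Cl.mk (nat_lit 0x200020008000d000d000a00030003000c000c0008000600040004000e000e) (nat_lit 0x23440098200034) (nat_lit 16) Lb.e (@T16.mk En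
    (@En.n l5 (nat_lit 13426) (nat_lit 1) (nat_lit 14))
    (@En.n l414 (nat_lit 3266) (nat_lit 1) (nat_lit 14))
    (@En.n l237 (nat_lit 14027) (nat_lit 2) (nat_lit 4))
    (@En.i (nat_lit 13429) (nat_lit 3) (nat_lit 4))
    (@En.i (nat_lit 13035) (nat_lit 4) (nat_lit 6))
    (@En.n l55 (nat_lit 13503) (nat_lit 5) (nat_lit 8))
    (@En.n l134 (nat_lit 13424) (nat_lit 7) (nat_lit 12))
    (@En.n l4989 (nat_lit 14017) (nat_lit 8) (nat_lit 12))
    (@En.n l152 (nat_lit 13425) (nat_lit 8) (nat_lit 3))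
    (@En.n l1455 (nat_lit 13428) (nat_lit 9) (nat_lit 3))
    (@En.n l97 (nat_lit 13462) (nat_lit 11) (nat_lit 10))
    (@En.n l4449 (nat_lit 13428) (nat_lit 12) (nat_lit 13))
    (@En.n l1554 (nat_lit 14004) (nat_lit 13) (nat_lit 13))
    (@En.i (nat_lit 3114) (nat_lit 14) (nat_lit 8))
    (@En.n l17 (nat_lit 13426) (nat_lit 14) (nat_lit 2))
    (@En.n l18 (nat_lit 13426) (nat_lit 15) (nat_lit 2))))
  (@Cl.mk (nat_lit 0x200020009000d000a000e00030002000c00070006000e00040002000e000e) (nat_lit 0x234500800a0056) (nat_lit 16) Lb.e (@T16.mk En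
    (@En.n l97 (nat_lit 13427) (nat_lit 1) (nat_lit 14))
    (@En.i (nat_lit 3772) (nat_lit 1) (nat_lit 14))
    (@En.n l17 (nat_lit 13427) (nat_lit 2) (nat_lit 2))
    (@En.i (nat_lit 13428) (nat_lit 3) (nat_lit 4))
    (@En.i (nat_lit 13269) (nat_lit 5) (nat_lit 14))
    (@En.n l1388 (nat_lit 13074) (nat_lit 5) (nat_lit 6))
    (@En.n l245 (nat_lit 13202) (nat_lit 6) (nat_lit 7))
    (@En.n l1388 (nat_lit 13306) (nat_lit 8) (nat_lit 12))
    (@En.n l7 (nat_lit 13427) (nat_lit 8) (nat_lit 2))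
    (@En.n l1490 (nat_lit 13424) (nat_lit 9) (nat_lit 3))
    (@En.n l5378 (nat_lit 14076) (nat_lit 11) (nat_lit 14))
    (@En.i (nat_lit 13103) (nat_lit 12) (nat_lit 10))
    (@En.i (nat_lit 13397) (nat_lit 13) (nat_lit 13))
    (@En.n l1638 (nat_lit 3113) (nat_lit 14) (nat_lit 9))
    (@En.n l107 (nat_lit 13427) (nat_lit 14) (nat_lit 2))
    (@En.n l3 (nat_lit 13427) (nat_lit 15) (nat_lit 2))))
  (@Cl.mk (nat_lit 0x200020008000d0009000e00030002000c000c0008000700040004000e000e) (nat_lit 0x23560089400056) (nat_lit 16) Lb.e (@T16.mk En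
    (@En.n l97 (nat_lit 13428) (nat_lit 1) (nat_lit 14))
    (@En.i (nat_lit 3267) (nat_lit 1) (nat_lit 14))
    (@En.n l13005 (nat_lit 14028) (nat_lit 2) (nat_lit 4))
    (@En.n l4377 (nat_lit 13431) (nat_lit 3) (nat_lit 4))
    (@En.n l1388 (nat_lit 13073) (nat_lit 4) (nat_lit 7))
    (@En.n l5959 (nat_lit 13523) (nat_lit 5) (nat_lit 8))
    (@En.n l61 (nat_lit 13427) (nat_lit 7) (nat_lit 12))
    (@En.n l1388 (nat_lit 14016) (nat_lit 8) (nat_lit 12))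
    (@En.n l7 (nat_lit 13428) (nat_lit 8) (nat_lit 2))
    (@En.n l1430 (nat_lit 13426) (nat_lit 9) (nat_lit 3))
    (@En.n l4575 (nat_lit 14071) (nat_lit 11) (nat_lit 14))
    (@En.n l4377 (nat_lit 12912) (nat_lit 12) (nat_lit 9))
    (@En.i (nat_lit 14003) (nat_lit 13) (nat_lit 13))
    (@En.n l13006 (nat_lit 3117) (nat_lit 14) (nat_lit 8))
    (@En.n l107 (nat_lit 13428) (nat_lit 14) (nat_lit 2))
    (@En.n l3 (nat_lit 13428) (nat_lit 15) (nat_lit 2))))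
  (@Cl.mk (nat_lit 0x200020007000d000d000c00030003000c0004000d000900040003000e000e) (nat_lit 0x3540070a40023) (nat_lit 16) Lb.e (@T16.mk En
    (@En.n l5 (nat_lit 13429) (nat_lit 1) (nat_lit 14))
    (@En.n l420 (nat_lit 3087) (nat_lit 1) (nat_lit 14))
    (@En.n l7 (nat_lit 13435) (nat_lit 2) (nat_lit 3))
    (@En.i (nat_lit 13424) (nat_lit 3) (nat_lit 4))
    (@En.i (nat_lit 13519) (nat_lit 4) (nat_lit 9))
    (@En.n l3528 (nat_lit 13270) (nat_lit 6) (nat_lit 13))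
    (@En.i (nat_lit 13433) (nat_lit 6) (nat_lit 4))
    (@En.n l476 (nat_lit 13307) (nat_lit 8) (nat_lit 12))
    (@En.n l152 (nat_lit 13430) (nat_lit 8) (nat_lit 3))
    (@En.i (nat_lit 13431) (nat_lit 9) (nat_lit 3))
    (@En.n l619 (nat_lit 13432) (nat_lit 11) (nat_lit 12))
    (@En.n l97 (nat_lit 13431) (nat_lit 12) (nat_lit 13))
    (@En.i (nat_lit 14002) (nat_lit 13) (nat_lit 13))
    (@En.i (nat_lit 859) (nat_lit 14) (nat_lit 7))
    (@En.n l17 (nat_lit 13429) (nat_lit 14) (nat_lit 2))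
    (@En.n l18 (nat_lit 13429) (nat_lit 15) (nat_lit 2))))
  (@Cl.mk (nat_lit 0x200020007000e000d0002000d0003000c0003000d000900040003000e000e) (nat_lit 0x3402070b30023) (nat_lit 16) Lb.e (@T16.mk En
    (@En.n l5 (nat_lit 13430) (nat_lit 1) (nat_lit 14))
    (@En.n l420 (nat_lit 3911) (nat_lit 1) (nat_lit 14))
    (@En.n l7 (nat_lit 13681) (nat_lit 2) (nat_lit 3))
    (@En.i (nat_lit 13423) (nat_lit 3) (nat_lit 4))
    (@En.i (nat_lit 13520) (nat_lit 4) (nat_lit 9))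
    (@En.i (nat_lit 13275) (nat_lit 6) (nat_lit 13))
    (@En.i (nat_lit 13432) (nat_lit 6) (nat_lit 3))
    (@En.i (nat_lit 14066) (nat_lit 8) (nat_lit 12))
    (@En.n l117 (nat_lit 13429) (nat_lit 8) (nat_lit 3))
    (@En.i (nat_lit 275) (nat_lit 10) (nat_lit 13))
    (@En.n l3 (nat_lit 13430) (nat_lit 10) (nat_lit 2))
    (@En.i (nat_lit 13429) (nat_lit 12) (nat_lit 13))
    (@En.i (nat_lit 13112) (nat_lit 13) (nat_lit 14))
    (@En.i (nat_lit 858) (nat_lit 14) (nat_lit 7))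
    (@En.n l17 (nat_lit 13430) (nat_lit 14) (nat_lit 2))
    (@En.n l18 (nat_lit 13430) (nat_lit 15) (nat_lit 2))))
  (@Cl.mk (nat_lit 0x200020007000d000b000e00030002000c0005000d000900040003000e000e) (nat_lit 0x4340080b50045) (nat_lit 16) Lb.e (@T16.mk En
    (@En.n l5 (nat_lit 13431) (nat_lit 1) (nat_lit 14))
    (@En.n l5369 (nat_lit 3895) (nat_lit 1) (nat_lit 14))
    (@En.n l7 (nat_lit 13678) (nat_lit 2) (nat_lit 3))
    (@En.n l1362 (nat_lit 13427) (nat_lit 3) (nat_lit 4))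
    (@En.n l25349 (nat_lit 13521) (nat_lit 4) (nat_lit 9))
    (@En.n l9956 (nat_lit 13271) (nat_lit 6) (nat_lit 13))
    (@En.n l1454 (nat_lit 13669) (nat_lit 6) (nat_lit 5))
    (@En.n l7705 (nat_lit 13309) (nat_lit 8) (nat_lit 12))
    (@En.n l67 (nat_lit 13431) (nat_lit 8) (nat_lit 2))
    (@En.n l107 (nat_lit 13429) (nat_lit 9) (nat_lit 3))
    (@En.n l5369 (nat_lit 14068) (nat_lit 11) (nat_lit 14))
    (@En.i (nat_lit 13671) (nat_lit 12) (nat_lit 11))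
    (@En.n l1455 (nat_lit 13993) (nat_lit 13) (nat_lit 13))
    (@En.i (nat_lit 3737) (nat_lit 14) (nat_lit 7))
    (@En.n l17 (nat_lit 13431) (nat_lit 14) (nat_lit 2))
    (@En.n l18 (nat_lit 13431) (nat_lit 15) (nat_lit 2))))
  (@Cl.mk (nat_lit 0x200020007000e000c0002000d000b00040003000d000900050003000e000e) (nat_lit 0xc301800b30023) (nat_lit 16) Lb.e (@T16.mk En
    (@En.n l5 (nat_lit 13432) (nat_lit 1) (nat_lit 14))
    (@En.n l420 (nat_lit 3910) (nat_lit 1) (nat_lit 14))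
    (@En.n l7 (nat_lit 13683) (nat_lit 2) (nat_lit 3))
    (@En.n l11 (nat_lit 13422) (nat_lit 3) (nat_lit 5))
    (@En.i (nat_lit 13504) (nat_lit 4) (nat_lit 9))
    (@En.n l287 (nat_lit 13835) (nat_lit 6) (nat_lit 13))
    (@En.n l11 (nat_lit 13430) (nat_lit 6) (nat_lit 3))
    (@En.i (nat_lit 13689) (nat_lit 7) (nat_lit 4))
    (@En.i (nat_lit 13425) (nat_lit 9) (nat_lit 11))
    (@En.i (nat_lit 274) (nat_lit 10) (nat_lit 13))
    (@En.n l3 (nat_lit 13432) (nat_lit 10) (nat_lit 2))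
    (@En.i (nat_lit 13433) (nat_lit 12) (nat_lit 12))
    (@En.i (nat_lit 13108) (nat_lit 13) (nat_lit 14))
    (@En.i (nat_lit 860) (nat_lit 14) (nat_lit 7))
    (@En.n l17 (nat_lit 13432) (nat_lit 14) (nat_lit 2))
    (@En.n l18 (nat_lit 13432) (nat_lit 15) (nat_lit 2))))
  (@Cl.mk (nat_lit 0x200020007000c000c000c000a000400040004000d000900060003000e000e) (nat_lit 0x2465000b50023) (nat_lit 16) Lb.e (@T16.mk En
    (@En.n l5 (nat_lit 13433) (nat_lit 1) (nat_lit 14))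
    (@En.n l420 (nat_lit 3898) (nat_lit 1) (nat_lit 14))
    (@En.n l7 (nat_lit 13679) (nat_lit 2) (nat_lit 3))
    (@En.i (nat_lit 12847) (nat_lit 3) (nat_lit 6))
    (@En.i (nat_lit 13514) (nat_lit 4) (nat_lit 9))
    (@En.n l2823 (nat_lit 13829) (nat_lit 6) (nat_lit 13))
    (@En.n l11 (nat_lit 13671) (nat_lit 6) (nat_lit 4))
    (@En.n l152 (nat_lit 13432) (nat_lit 7) (nat_lit 4))
    (@En.n l936 (nat_lit 13688) (nat_lit 8) (nat_lit 4))
    (@En.i (nat_lit 13426) (nat_lit 10) (nat_lit 10))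
    (@En.n l619 (nat_lit 13689) (nat_lit 11) (nat_lit 12))
    (@En.n l12483 (nat_lit 13669) (nat_lit 12) (nat_lit 12))
    (@En.n l2823 (nat_lit 13487) (nat_lit 13) (nat_lit 12))
    (@En.i (nat_lit 3333) (nat_lit 14) (nat_lit 7))
    (@En.n l17 (nat_lit 13433) (nat_lit 14) (nat_lit 2))
    (@En.n l18 (nat_lit 13433) (nat_lit 15) (nat_lit 2))))
  (@Cl.mk (nat_lit 0x200020006000d000d000b00030003000d000c00050003000a0004000e000e) (nat_lit 0x9a50088003012) (nat_lit 16) Lb.e (@T16.mk En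
    (@En.n l5 (nat_lit 13434) (nat_lit 1) (nat_lit 14))
    (@En.i (nat_lit 507) (nat_lit 1) (nat_lit 14))
    (@En.n l28 (nat_lit 13426) (nat_lit 2) (nat_lit 4))
    (@En.n l1836 (nat_lit 272) (nat_lit 3) (nat_lit 10))
    (@En.n l28 (nat_lit 13435) (nat_lit 4) (nat_lit 3))
    (@En.i (nat_lit 13719) (nat_lit 5) (nat_lit 5))
    (@En.n l77 (nat_lit 13429) (nat_lit 7) (nat_lit 12))
    (@En.n l476 (nat_lit 13054) (nat_lit 8) (nat_lit 13))
    (@En.n l152 (nat_lit 13682) (nat_lit 8) (nat_lit 3))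
    (@En.i (nat_lit 13677) (nat_lit 9) (nat_lit 3))
    (@En.n l97 (nat_lit 13718) (nat_lit 11) (nat_lit 11))
    (@En.n l97 (nat_lit 13677) (nat_lit 12) (nat_lit 13))
    (@En.i (nat_lit 13995) (nat_lit 13) (nat_lit 13))
    (@En.i (nat_lit 506) (nat_lit 14) (nat_lit 6))
    (@En.n l17 (nat_lit 13434) (nat_lit 14) (nat_lit 2))
    (@En.n l18 (nat_lit 13434) (nat_lit 15) (nat_lit 2))))
  (@Cl.mk (nat_lit 0x200020006000d000d000c00030003000d0004000d0003000a0003000e000e) (nat_lit 0x4360070a02034) (nat_lit 16) Lb.e (@T16.mk En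
    (@En.n l5 (nat_lit 13435) (nat_lit 1) (nat_lit 14))
    (@En.i (nat_lit 514) (nat_lit 1) (nat_lit 14))
    (@En.i (nat_lit 13429) (nat_lit 2) (nat_lit 3))
    (@En.i (nat_lit 251) (nat_lit 3) (nat_lit 10))
    (@En.i (nat_lit 13434) (nat_lit 4) (nat_lit 3))
    (@En.i (nat_lit 13274) (nat_lit 6) (nat_lit 13))
    (@En.i (nat_lit 13679) (nat_lit 6) (nat_lit 4))
    (@En.n l476 (nat_lit 13057) (nat_lit 8) (nat_lit 13))
    (@En.n l152 (nat_lit 13681) (nat_lit 8) (nat_lit 3))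
    (@En.i (nat_lit 13678) (nat_lit 9) (nat_lit 3))
    (@En.n l619 (nat_lit 13683) (nat_lit 11) (nat_lit 12))
    (@En.n l97 (nat_lit 13678) (nat_lit 12) (nat_lit 13))
    (@En.i (nat_lit 13994) (nat_lit 13) (nat_lit 13))
    (@En.i (nat_lit 513) (nat_lit 14) (nat_lit 6))
    (@En.n l17 (nat_lit 13435) (nat_lit 14) (nat_lit 2))
    (@En.n l18 (nat_lit 13435) (nat_lit 15) (nat_lit 2))))
  (@Cl.mk (nat_lit 0x20002000b0008000b0009000e000500020005000d000800070003000e000e) (nat_lit 0x34456000a20078) (nat_lit 16) Lb.e (@T16.mk En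
    (@En.n l5 (nat_lit 13436) (nat_lit 1) (nat_lit 14))
    (@En.n l564 (nat_lit 7346) (nat_lit 10) (nat_lit 14))
    (@En.n l4766 (nat_lit 13437) (nat_lit 2) (nat_lit 3))
    (@En.n l182 (nat_lit 12901) (nat_lit 3) (nat_lit 7))
    (@En.n l4673 (nat_lit 13323) (nat_lit 4) (nat_lit 8))
    (@En.n l4519 (nat_lit 13321) (nat_lit 6) (nat_lit 13))
    (@En.i (nat_lit 13845) (nat_lit 6) (nat_lit 5))
    (@En.n l11 (nat_lit 13436) (nat_lit 7) (nat_lit 2))
    (@En.n l4767 (nat_lit 13315) (nat_lit 8) (nat_lit 5))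
    (@En.n l4768 (nat_lit 13320) (nat_lit 10) (nat_lit 14))
    (@En.n l619 (nat_lit 13379) (nat_lit 11) (nat_lit 9))
    (@En.n l4769 (nat_lit 13058) (nat_lit 12) (nat_lit 11))
    (@En.i (nat_lit 13536) (nat_lit 13) (nat_lit 8))
    (@En.n l1529 (nat_lit 1181) (nat_lit 14) (nat_lit 11))
    (@En.n l17 (nat_lit 13436) (nat_lit 14) (nat_lit 2))
    (@En.n l18 (nat_lit 13436) (nat_lit 15) (nat_lit 2))))
  (@Cl.mk (nat_lit 0x20002000b0007000b000a000e000500020005000d000600090003000e000e) (nat_lit 0x30457000b04067) (nat_lit 16) Lb.e (@T16.mk En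
    (@En.n l5 (nat_lit 13437) (nat_lit 1) (nat_lit 14))
    (@En.n l11915 (nat_lit 4078) (nat_lit 10) (nat_lit 14))
    (@En.n l11916 (nat_lit 13436) (nat_lit 2) (nat_lit 3))
    (@En.n l11899 (nat_lit 13246) (nat_lit 3) (nat_lit 9))
    (@En.n l11917 (nat_lit 12934) (nat_lit 4) (nat_lit 6))
    (@En.n l11918 (nat_lit 13322) (nat_lit 6) (nat_lit 13))
    (@En.n l1576 (nat_lit 13844) (nat_lit 6) (nat_lit 5))
    (@En.n l3 (nat_lit 13437) (nat_lit 7) (nat_lit 2))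
    (@En.n l152 (nat_lit 13310) (nat_lit 8) (nat_lit 5))
    (@En.n l936 (nat_lit 13439) (nat_lit 10) (nat_lit 14))
    (@En.n l11919 (nat_lit 13438) (nat_lit 11) (nat_lit 10))
    (@En.n l4453 (nat_lit 13043) (nat_lit 12) (nat_lit 11))
    (@En.n l11916 (nat_lit 12866) (nat_lit 13) (nat_lit 7))
    (@En.n l4454 (nat_lit 1182) (nat_lit 14) (nat_lit 11))
    (@En.n l17 (nat_lit 13437) (nat_lit 14) (nat_lit 2))
    (@En.n l18 (nat_lit 13437) (nat_lit 15) (nat_lit 2))))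
  (@Cl.mk (nat_lit 0x20002000c0007000a000e00040002000d000c0006000300090004000e000e) (nat_lit 0x3045007a005078) (nat_lit 16) Lb.e (@T16.mk En
    (@En.n l5 (nat_lit 13438) (nat_lit 1) (nat_lit 14))
    (@En.n l1680 (nat_lit 4079) (nat_lit 1) (nat_lit 14))
    (@En.n l28 (nat_lit 13379) (nat_lit 2) (nat_lit 4))
    (@En.n l4566 (nat_lit 13437) (nat_lit 3) (nat_lit 9))
    (@En.n l4567 (nat_lit 13439) (nat_lit 4) (nat_lit 3))
    (@En.n l1680 (nat_lit 12937) (nat_lit 5) (nat_lit 6))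
    (@En.n l4568 (nat_lit 13320) (nat_lit 7) (nat_lit 12))
    (@En.n l4569 (nat_lit 13880) (nat_lit 8) (nat_lit 13))
    (@En.n l107 (nat_lit 13438) (nat_lit 8) (nat_lit 2))
    (@En.n l1678 (nat_lit 13312) (nat_lit 9) (nat_lit 4))
    (@En.n l4570 (nat_lit 13440) (nat_lit 11) (nat_lit 14))
    (@En.n l1680 (nat_lit 13458) (nat_lit 12) (nat_lit 10))
    (@En.i (nat_lit 12864) (nat_lit 13) (nat_lit 7))
    (@En.n l1682 (nat_lit 1184) (nat_lit 14) (nat_lit 12))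
    (@En.n l17 (nat_lit 13438) (nat_lit 14) (nat_lit 2))
    (@En.n l18 (nat_lit 13438) (nat_lit 15) (nat_lit 2))))
  (@Cl.mk (nat_lit 0x20002000c0007000b000e00040002000d0005000d000300090003000e000e) (nat_lit 0x30560080b06078) (nat_lit 16) Lb.e (@T16.mk En
    (@En.n l5 (nat_lit 13439) (nat_lit 1) (nat_lit 14))
    (@En.n l4448 (nat_lit 4080) (nat_lit 1) (nat_lit 14))
    (@En.n l4449 (nat_lit 13320) (nat_lit 2) (nat_lit 3))
    (@En.i (nat_lit 13245) (nat_lit 3) (nat_lit 9))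
    (@En.n l516 (nat_lit 13438) (nat_lit 4) (nat_lit 3))
    (@En.n l4450 (nat_lit 13494) (nat_lit 6) (nat_lit 13))
    (@En.i (nat_lit 13437) (nat_lit 6) (nat_lit 5))
    (@En.n l4451 (nat_lit 13881) (nat_lit 8) (nat_lit 13))
    (@En.n l3 (nat_lit 13439) (nat_lit 8) (nat_lit 2))
    (@En.n l152 (nat_lit 13311) (nat_lit 9) (nat_lit 4))
    (@En.n l4452 (nat_lit 13441) (nat_lit 11) (nat_lit 14))
    (@En.n l4453 (nat_lit 13059) (nat_lit 12) (nat_lit 11))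
    (@En.n l516 (nat_lit 12865) (nat_lit 13) (nat_lit 7))
    (@En.n l4454 (nat_lit 1185) (nat_lit 14) (nat_lit 12))
    (@En.n l17 (nat_lit 13439) (nat_lit 14) (nat_lit 2))
    (@En.n l18 (nat_lit 13439) (nat_lit 15) (nat_lit 2))))
noncomputable def a840 : T16 Cl := @T16.mk Cl
  (@Cl.mk (nat_lit 0x20002000d0007000e00030002000d000d000c0003000300090004000e000e) (nat_lit 0x2040086800709a) (nat_lit 16) Lb.e (@T16.mk En
    (@En.n l601 (nat_lit 13440) (nat_lit 1) (nat_lit 14))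
    (@En.n l1415 (nat_lit 4117) (nat_lit 1) (nat_lit 14))
    (@En.n l828 (nat_lit 13453) (nat_lit 2) (nat_lit 4))
    (@En.n l1416 (nat_lit 13439) (nat_lit 3) (nat_lit 9))
    (@En.n l152 (nat_lit 13441) (nat_lit 4) (nat_lit 3))
    (@En.n l1417 (nat_lit 13443) (nat_lit 5) (nat_lit 3))
    (@En.n l1418 (nat_lit 13447) (nat_lit 7) (nat_lit 12))
    (@En.n l1419 (nat_lit 13443) (nat_lit 8) (nat_lit 13))
    (@En.n l1420 (nat_lit 13888) (nat_lit 9) (nat_lit 13))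
    (@En.n l17 (nat_lit 13440) (nat_lit 9) (nat_lit 2))
    (@En.n l1421 (nat_lit 13442) (nat_lit 10) (nat_lit 3))
    (@En.n l828 (nat_lit 14093) (nat_lit 0) (nat_lit 14))
    (@En.n l1422 (nat_lit 12788) (nat_lit 13) (nat_lit 7))
    (@En.n l1423 (nat_lit 1066) (nat_lit 14) (nat_lit 13))
    (@En.n l50 (nat_lit 13440) (nat_lit 14) (nat_lit 2))
    (@En.n l7 (nat_lit 13440) (nat_lit 15) (nat_lit 2))))
  (@Cl.mk (nat_lit 0x20002000d0007000e00030002000e000d0002000d000300090003000e000e) (nat_lit 0x30500890a0609a) (nat_lit 16) Lb.e (@T16.mk En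
    (@En.n l601 (nat_lit 13441) (nat_lit 1) (nat_lit 14))
    (@En.n l828 (nat_lit 4114) (nat_lit 1) (nat_lit 14))
    (@En.n l828 (nat_lit 13447) (nat_lit 2) (nat_lit 3))
    (@En.n l4360 (nat_lit 13244) (nat_lit 3) (nat_lit 9))
    (@En.n l117 (nat_lit 13440) (nat_lit 4) (nat_lit 3))
    (@En.n l4361 (nat_lit 13467) (nat_lit 6) (nat_lit 13))
    (@En.n l3 (nat_lit 13441) (nat_lit 6) (nat_lit 2))
    (@En.i (nat_lit 13440) (nat_lit 8) (nat_lit 13))
    (@En.n l4361 (nat_lit 13848) (nat_lit 9) (nat_lit 14))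
    (@En.n l17 (nat_lit 13441) (nat_lit 9) (nat_lit 2))
    (@En.n l4362 (nat_lit 13444) (nat_lit 10) (nat_lit 3))
    (@En.n l2565 (nat_lit 14108) (nat_lit 0) (nat_lit 14))
    (@En.n l685 (nat_lit 12863) (nat_lit 13) (nat_lit 7))
    (@En.n l1423 (nat_lit 1119) (nat_lit 7) (nat_lit 13))
    (@En.n l50 (nat_lit 13441) (nat_lit 14) (nat_lit 2))
    (@En.n l7 (nat_lit 13441) (nat_lit 15) (nat_lit 2))))
  (@Cl.mk (nat_lit 0x20002000d000d000800030003000d000d000c0003000300080004000e000e) (nat_lit 0x2340086a005089) (nat_lit 16) Lb.e (@T16.mk En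
    (@En.n l5 (nat_lit 13442) (nat_lit 1) (nat_lit 14))
    (@En.n l1784 (nat_lit 4113) (nat_lit 1) (nat_lit 14))
    (@En.n l1453 (nat_lit 13454) (nat_lit 2) (nat_lit 4))
    (@En.i (nat_lit 13311) (nat_lit 3) (nat_lit 8))
    (@En.n l4556 (nat_lit 13444) (nat_lit 4) (nat_lit 3))
    (@En.n l1380 (nat_lit 13445) (nat_lit 5) (nat_lit 3))
    (@En.n l4557 (nat_lit 13448) (nat_lit 7) (nat_lit 12))
    (@En.n l4558 (nat_lit 13445) (nat_lit 8) (nat_lit 13))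
    (@En.n l4559 (nat_lit 13891) (nat_lit 9) (nat_lit 13))
    (@En.n l152 (nat_lit 13446) (nat_lit 9) (nat_lit 3))
    (@En.n l4560 (nat_lit 13440) (nat_lit 10) (nat_lit 3))
    (@En.n l513 (nat_lit 12789) (nat_lit 12) (nat_lit 8))
    (@En.n l4561 (nat_lit 13440) (nat_lit 13) (nat_lit 13))
    (@En.n l4130 (nat_lit 1073) (nat_lit 14) (nat_lit 13))
    (@En.n l17 (nat_lit 13442) (nat_lit 14) (nat_lit 2))
    (@En.n l18 (nat_lit 13442) (nat_lit 15) (nat_lit 2))))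
  (@Cl.mk (nat_lit 0x20002000d0007000e00030002000d000b000e0003000200090005000e000e) (nat_lit 0x3050059900609a) (nat_lit 16) Lb.e (@T16.mk En
    (@En.n l97 (nat_lit 13443) (nat_lit 1) (nat_lit 14))
    (@En.i (nat_lit 4116) (nat_lit 1) (nat_lit 14))
    (@En.i (nat_lit 13458) (nat_lit 2) (nat_lit 5))
    (@En.n l1660 (nat_lit 13438) (nat_lit 3) (nat_lit 9))
    (@En.n l17 (nat_lit 13443) (nat_lit 4) (nat_lit 2))
    (@En.n l4404 (nat_lit 13440) (nat_lit 5) (nat_lit 3))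
    (@En.n l13 (nat_lit 14055) (nat_lit 7) (nat_lit 14))
    (@En.n l357 (nat_lit 13451) (nat_lit 8) (nat_lit 11))
    (@En.n l564 (nat_lit 13889) (nat_lit 9) (nat_lit 13))
    (@En.n l7 (nat_lit 13443) (nat_lit 9) (nat_lit 2))
    (@En.n l28 (nat_lit 13445) (nat_lit 10) (nat_lit 3))
    (@En.i (nat_lit 14092) (nat_lit 0) (nat_lit 14))
    (@En.n l357 (nat_lit 12862) (nat_lit 13) (nat_lit 7))
    (@En.n l4405 (nat_lit 1084) (nat_lit 9) (nat_lit 13))
    (@En.n l107 (nat_lit 13443) (nat_lit 14) (nat_lit 2))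
    (@En.n l3 (nat_lit 13443) (nat_lit 15) (nat_lit 2))))
  (@Cl.mk (nat_lit 0x20002000d000d000800030003000e000d0002000d000300080003000e000e) (nat_lit 0x34400890a05089) (nat_lit 16) Lb.e (@T16.mk En
    (@En.n l7584 (nat_lit 13444) (nat_lit 1) (nat_lit 14))
    (@En.n l11730 (nat_lit 3573) (nat_lit 1) (nat_lit 14))
    (@En.n l3974 (nat_lit 13448) (nat_lit 2) (nat_lit 3))
    (@En.n l947 (nat_lit 13243) (nat_lit 3) (nat_lit 8))
    (@En.n l11731 (nat_lit 13442) (nat_lit 4) (nat_lit 3))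
    (@En.n l6780 (nat_lit 13470) (nat_lit 6) (nat_lit 13))
    (@En.n l3 (nat_lit 13444) (nat_lit 6) (nat_lit 2))
    (@En.n l3517 (nat_lit 13442) (nat_lit 8) (nat_lit 13))
    (@En.n l6780 (nat_lit 13851) (nat_lit 9) (nat_lit 14))
    (@En.n l666 (nat_lit 13449) (nat_lit 9) (nat_lit 3))
    (@En.n l3971 (nat_lit 13441) (nat_lit 10) (nat_lit 3))
    (@En.n l947 (nat_lit 12848) (nat_lit 12) (nat_lit 8))
    (@En.n l11732 (nat_lit 13441) (nat_lit 13) (nat_lit 13))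
    (@En.i (nat_lit 1121) (nat_lit 7) (nat_lit 13))
    (@En.n l403 (nat_lit 13444) (nat_lit 14) (nat_lit 2))
    (@En.n l7 (nat_lit 13444) (nat_lit 15) (nat_lit 2))))
  (@Cl.mk (nat_lit 0x20002000d000d000800030003000d000b000e0003000200080005000e000e) (nat_lit 0x34400588005089) (nat_lit 16) Lb.e (@T16.mk En
    (@En.n l97 (nat_lit 13445) (nat_lit 1) (nat_lit 14))
    (@En.i (nat_lit 4110) (nat_lit 1) (nat_lit 14))
    (@En.i (nat_lit 13457) (nat_lit 2) (nat_lit 5))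
    (@En.n l1711 (nat_lit 13312) (nat_lit 3) (nat_lit 8))
    (@En.n l17 (nat_lit 13445) (nat_lit 4) (nat_lit 2))
    (@En.n l4431 (nat_lit 13442) (nat_lit 5) (nat_lit 3))
    (@En.n l13 (nat_lit 13953) (nat_lit 7) (nat_lit 14))
    (@En.n l5265 (nat_lit 13452) (nat_lit 8) (nat_lit 11))
    (@En.n l564 (nat_lit 13892) (nat_lit 9) (nat_lit 13))
    (@En.n l4432 (nat_lit 13460) (nat_lit 9) (nat_lit 3))
    (@En.i (nat_lit 13443) (nat_lit 10) (nat_lit 3))
    (@En.n l55 (nat_lit 13044) (nat_lit 12) (nat_lit 8))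
    (@En.n l134 (nat_lit 13443) (nat_lit 13) (nat_lit 13))
    (@En.n l5266 (nat_lit 1086) (nat_lit 9) (nat_lit 13))
    (@En.n l107 (nat_lit 13445) (nat_lit 14) (nat_lit 2))
    (@En.n l3 (nat_lit 13445) (nat_lit 15) (nat_lit 2))))
  (@Cl.mk (nat_lit 0x20002000e000d000200090003000d000d000c0003000300070004000e000e) (nat_lit 0x2306086a000056) (nat_lit 16) Lb.e (@T16.mk En
    (@En.n l5 (nat_lit 13446) (nat_lit 1) (nat_lit 14))
    (@En.n l1784 (nat_lit 3574) (nat_lit 1) (nat_lit 14))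
    (@En.n l12 (nat_lit 13455) (nat_lit 2) (nat_lit 4))
    (@En.i (nat_lit 13109) (nat_lit 3) (nat_lit 7))
    (@En.n l625 (nat_lit 13449) (nat_lit 4) (nat_lit 3))
    (@En.i (nat_lit 13460) (nat_lit 5) (nat_lit 3))
    (@En.n l1823 (nat_lit 13461) (nat_lit 7) (nat_lit 12))
    (@En.n l164 (nat_lit 13460) (nat_lit 8) (nat_lit 13))
    (@En.i (nat_lit 12828) (nat_lit 9) (nat_lit 13))
    (@En.n l117 (nat_lit 13442) (nat_lit 9) (nat_lit 3))
    (@En.n l513 (nat_lit 13048) (nat_lit 11) (nat_lit 9))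
    (@En.n l3 (nat_lit 13446) (nat_lit 11) (nat_lit 2))
    (@En.i (nat_lit 13442) (nat_lit 13) (nat_lit 13))
    (@En.i (nat_lit 1225) (nat_lit 1) (nat_lit 14))
    (@En.n l17 (nat_lit 13446) (nat_lit 14) (nat_lit 2))
    (@En.n l18 (nat_lit 13446) (nat_lit 15) (nat_lit 2))))
  (@Cl.mk (nat_lit 0x20002000d0008000e00030002000e000c0002000d000800040003000e000e) (nat_lit 0x33400870a50089) (nat_lit 16) Lb.e (@T16.mk En
    (@En.n l143 (nat_lit 13447) (nat_lit 1) (nat_lit 14))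
    (@En.i (nat_lit 4109) (nat_lit 1) (nat_lit 14))
    (@En.n l1876 (nat_lit 13441) (nat_lit 2) (nat_lit 3))
    (@En.n l1877 (nat_lit 13464) (nat_lit 3) (nat_lit 4))
    (@En.i (nat_lit 13494) (nat_lit 4) (nat_lit 8))
    (@En.n l448 (nat_lit 13468) (nat_lit 6) (nat_lit 13))
    (@En.n l3 (nat_lit 13447) (nat_lit 6) (nat_lit 2))
    (@En.i (nat_lit 13453) (nat_lit 8) (nat_lit 12))
    (@En.i (nat_lit 13847) (nat_lit 9) (nat_lit 14))
    (@En.n l17 (nat_lit 13447) (nat_lit 9) (nat_lit 2))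
    (@En.n l1878 (nat_lit 13448) (nat_lit 10) (nat_lit 3))
    (@En.i (nat_lit 14109) (nat_lit 0) (nat_lit 14))
    (@En.n l452 (nat_lit 13702) (nat_lit 13) (nat_lit 8))
    (@En.n l453 (nat_lit 1120) (nat_lit 14) (nat_lit 13))
    (@En.n l142 (nat_lit 13447) (nat_lit 14) (nat_lit 2))
    (@En.n l28 (nat_lit 13447) (nat_lit 15) (nat_lit 2))))
  (@Cl.mk (nat_lit 0x20002000d000d000900030003000e000c0002000d000700040003000e000e) (nat_lit 0x34400890a00089) (nat_lit 16) Lb.e (@T16.mk En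
    (@En.n l97 (nat_lit 13448) (nat_lit 1) (nat_lit 14))
    (@En.n l5537 (nat_lit 3282) (nat_lit 1) (nat_lit 14))
    (@En.n l5538 (nat_lit 13444) (nat_lit 2) (nat_lit 3))
    (@En.n l5539 (nat_lit 13068) (nat_lit 3) (nat_lit 4))
    (@En.n l5540 (nat_lit 12981) (nat_lit 4) (nat_lit 7))
    (@En.i (nat_lit 13466) (nat_lit 6) (nat_lit 13))
    (@En.n l2196 (nat_lit 13448) (nat_lit 6) (nat_lit 2))
    (@En.n l5541 (nat_lit 13454) (nat_lit 8) (nat_lit 12))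
    (@En.n l5539 (nat_lit 13850) (nat_lit 9) (nat_lit 14))
    (@En.n l7 (nat_lit 13461) (nat_lit 9) (nat_lit 3))
    (@En.n l1547 (nat_lit 13447) (nat_lit 10) (nat_lit 3))
    (@En.n l5452 (nat_lit 12849) (nat_lit 12) (nat_lit 9))
    (@En.n l5542 (nat_lit 13447) (nat_lit 13) (nat_lit 13))
    (@En.n l5543 (nat_lit 1122) (nat_lit 7) (nat_lit 13))
    (@En.n l107 (nat_lit 13448) (nat_lit 14) (nat_lit 2))
    (@En.n l3 (nat_lit 13448) (nat_lit 15) (nat_lit 2))))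
  (@Cl.mk (nat_lit 0x20002000e000d000200090003000e000d0002000d000300070003000e000e) (nat_lit 0x14050690a0009a) (nat_lit 16) Lb.e (@T16.mk En
    (@En.n l5 (nat_lit 13449) (nat_lit 1) (nat_lit 14))
    (@En.n l2100 (nat_lit 5124) (nat_lit 1) (nat_lit 14))
    (@En.n l1559 (nat_lit 13461) (nat_lit 2) (nat_lit 3))
    (@En.i (nat_lit 13242) (nat_lit 3) (nat_lit 7))
    (@En.n l1599 (nat_lit 13446) (nat_lit 4) (nat_lit 3))
    (@En.n l5448 (nat_lit 13472) (nat_lit 6) (nat_lit 13))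
    (@En.n l11 (nat_lit 13449) (nat_lit 6) (nat_lit 2))
    (@En.n l2032 (nat_lit 13446) (nat_lit 8) (nat_lit 13))
    (@En.n l1997 (nat_lit 14048) (nat_lit 9) (nat_lit 14))
    (@En.n l5449 (nat_lit 13444) (nat_lit 9) (nat_lit 3))
    (@En.i (nat_lit 13053) (nat_lit 11) (nat_lit 9))
    (@En.n l476 (nat_lit 13449) (nat_lit 11) (nat_lit 2))
    (@En.n l2544 (nat_lit 13444) (nat_lit 13) (nat_lit 13))
    (@En.n l2568 (nat_lit 1220) (nat_lit 1) (nat_lit 14))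
    (@En.n l17 (nat_lit 13449) (nat_lit 14) (nat_lit 2))
    (@En.n l18 (nat_lit 13449) (nat_lit 15) (nat_lit 2))))
  (@Cl.mk (nat_lit 0x20002000c00080008000e00040002000e000c0002000800080004000e000e) (nat_lit 0x3445008a032089) (nat_lit 16) Lb.e (@T16.mk En
    (@En.n l5 (nat_lit 13450) (nat_lit 1) (nat_lit 14))
    (@En.n l1680 (nat_lit 2560) (nat_lit 1) (nat_lit 14))
    (@En.i (nat_lit 13438) (nat_lit 2) (nat_lit 4))
    (@En.n l13 (nat_lit 13374) (nat_lit 3) (nat_lit 8))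
    (@En.n l175 (nat_lit 13436) (nat_lit 4) (nat_lit 8))
    (@En.n l28 (nat_lit 13450) (nat_lit 5) (nat_lit 2))
    (@En.n l77 (nat_lit 13379) (nat_lit 7) (nat_lit 12))
    (@En.n l1681 (nat_lit 13098) (nat_lit 8) (nat_lit 14))
    (@En.n l107 (nat_lit 13450) (nat_lit 8) (nat_lit 2))
    (@En.n l1678 (nat_lit 13377) (nat_lit 9) (nat_lit 4))
    (@En.n l97 (nat_lit 13451) (nat_lit 11) (nat_lit 14))
    (@En.n l1680 (nat_lit 13026) (nat_lit 12) (nat_lit 8))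
    (@En.i (nat_lit 13550) (nat_lit 13) (nat_lit 8))
    (@En.n l1682 (nat_lit 1329) (nat_lit 8) (nat_lit 12))
    (@En.n l17 (nat_lit 13450) (nat_lit 14) (nat_lit 2))
    (@En.n l18 (nat_lit 13450) (nat_lit 15) (nat_lit 2))))
  (@Cl.mk (nat_lit 0x20002000d0008000e00030002000b000e000c0002000800050004000e000e) (nat_lit 0x22400897050089) (nat_lit 16) Lb.e (@T16.mk En
    (@En.n l5 (nat_lit 13451) (nat_lit 1) (nat_lit 14))
    (@En.n l479 (nat_lit 2567) (nat_lit 1) (nat_lit 14))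
    (@En.n l480 (nat_lit 13440) (nat_lit 2) (nat_lit 4))
    (@En.i (nat_lit 13061) (nat_lit 3) (nat_lit 5))
    (@En.n l481 (nat_lit 13320) (nat_lit 4) (nat_lit 8))
    (@En.n l28 (nat_lit 13451) (nat_lit 5) (nat_lit 2))
    (@En.n l482 (nat_lit 13453) (nat_lit 7) (nat_lit 12))
    (@En.n l483 (nat_lit 13026) (nat_lit 8) (nat_lit 14))
    (@En.n l111 (nat_lit 14024) (nat_lit 9) (nat_lit 11))
    (@En.n l3 (nat_lit 13451) (nat_lit 9) (nat_lit 2))
    (@En.n l484 (nat_lit 13452) (nat_lit 10) (nat_lit 3))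
    (@En.n l485 (nat_lit 14112) (nat_lit 0) (nat_lit 14))
    (@En.i (nat_lit 13463) (nat_lit 13) (nat_lit 8))
    (@En.n l486 (nat_lit 1023) (nat_lit 8) (nat_lit 13))
    (@En.n l17 (nat_lit 13451) (nat_lit 14) (nat_lit 2))
    (@En.n l18 (nat_lit 13451) (nat_lit 15) (nat_lit 2))))
  (@Cl.mk (nat_lit 0x20002000d000d000900030003000b000e000c0002000700050004000e000e) (nat_lit 0x13300797000089) (nat_lit 16) Lb.e (@T16.mk En
    (@En.n l5 (nat_lit 13452) (nat_lit 1) (nat_lit 14))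
    (@En.n l420 (nat_lit 2571) (nat_lit 1) (nat_lit 14))
    (@En.n l7 (nat_lit 13442) (nat_lit 2) (nat_lit 4))
    (@En.n l1672 (nat_lit 13060) (nat_lit 3) (nat_lit 5))
    (@En.i (nat_lit 13313) (nat_lit 4) (nat_lit 7))
    (@En.n l8 (nat_lit 13452) (nat_lit 5) (nat_lit 2))
    (@En.n l1455 (nat_lit 13454) (nat_lit 7) (nat_lit 12))
    (@En.n l510 (nat_lit 13024) (nat_lit 8) (nat_lit 14))
    (@En.n l1673 (nat_lit 14009) (nat_lit 9) (nat_lit 11))
    (@En.n l152 (nat_lit 13456) (nat_lit 9) (nat_lit 3))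
    (@En.n l1674 (nat_lit 13451) (nat_lit 10) (nat_lit 3))
    (@En.n l97 (nat_lit 12993) (nat_lit 12) (nat_lit 9))
    (@En.n l1675 (nat_lit 13451) (nat_lit 13) (nat_lit 13))
    (@En.n l1335 (nat_lit 1024) (nat_lit 8) (nat_lit 13))
    (@En.n l17 (nat_lit 13452) (nat_lit 14) (nat_lit 2))
    (@En.n l18 (nat_lit 13452) (nat_lit 15) (nat_lit 2))))
  (@Cl.mk (nat_lit 0x20002000d0009000e00030002000c000c000c0007000400040004000e000e) (nat_lit 0x3240066900009a) (nat_lit 16) Lb.e (@T16.mk En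
    (@En.n l143 (nat_lit 13453) (nat_lit 1) (nat_lit 14))
    (@En.i (nat_lit 4106) (nat_lit 1) (nat_lit 14))
    (@En.n l1655 (nat_lit 13451) (nat_lit 2) (nat_lit 4))
    (@En.n l152 (nat_lit 13447) (nat_lit 3) (nat_lit 4))
    (@En.n l452 (nat_lit 13059) (nat_lit 4) (nat_lit 4))
    (@En.n l681 (nat_lit 13493) (nat_lit 5) (nat_lit 7))
    (@En.n l1656 (nat_lit 13464) (nat_lit 7) (nat_lit 12))
    (@En.n l148 (nat_lit 13458) (nat_lit 8) (nat_lit 12))
    (@En.n l1657 (nat_lit 14006) (nat_lit 9) (nat_lit 12))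
    (@En.n l17 (nat_lit 13453) (nat_lit 9) (nat_lit 2))
    (@En.n l1658 (nat_lit 13454) (nat_lit 10) (nat_lit 3))
    (@En.i (nat_lit 14110) (nat_lit 0) (nat_lit 14))
    (@En.n l452 (nat_lit 13462) (nat_lit 13) (nat_lit 9))
    (@En.n l453 (nat_lit 1085) (nat_lit 14) (nat_lit 13))
    (@En.n l142 (nat_lit 13453) (nat_lit 14) (nat_lit 2))
    (@En.n l28 (nat_lit 13453) (nat_lit 15) (nat_lit 2))))
  (@Cl.mk (nat_lit 0x20002000d000d000a00030003000c000c000c0006000400040004000e000e) (nat_lit 0x34500869000089) (nat_lit 16) Lb.e (@T16.mk En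
    (@En.n l97 (nat_lit 13454) (nat_lit 1) (nat_lit 14))
    (@En.i (nat_lit 3277) (nat_lit 1) (nat_lit 14))
    (@En.n l4431 (nat_lit 13452) (nat_lit 2) (nat_lit 4))
    (@En.n l5166 (nat_lit 13448) (nat_lit 3) (nat_lit 4))
    (@En.n l5167 (nat_lit 13062) (nat_lit 4) (nat_lit 4))
    (@En.i (nat_lit 12978) (nat_lit 5) (nat_lit 6))
    (@En.n l5168 (nat_lit 13068) (nat_lit 7) (nat_lit 12))
    (@En.n l61 (nat_lit 13457) (nat_lit 8) (nat_lit 12))
    (@En.n l1345 (nat_lit 13407) (nat_lit 9) (nat_lit 12))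
    (@En.n l5169 (nat_lit 13455) (nat_lit 9) (nat_lit 3))
    (@En.n l137 (nat_lit 13453) (nat_lit 10) (nat_lit 3))
    (@En.n l55 (nat_lit 12988) (nat_lit 12) (nat_lit 10))
    (@En.n l2207 (nat_lit 13453) (nat_lit 13) (nat_lit 13))
    (@En.n l5170 (nat_lit 1087) (nat_lit 14) (nat_lit 13))
    (@En.n l107 (nat_lit 13454) (nat_lit 14) (nat_lit 2))
    (@En.n l3 (nat_lit 13454) (nat_lit 15) (nat_lit 2))))
  (@Cl.mk (nat_lit 0x20002000e000d0002000b0003000c000c000c0005000400040004000e000e) (nat_lit 0x3405086a000056) (nat_lit 16) Lb.e (@T16.mk En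
    (@En.n l5 (nat_lit 13455) (nat_lit 1) (nat_lit 14))
    (@En.n l1793 (nat_lit 3279) (nat_lit 1) (nat_lit 14))
    (@En.n l13 (nat_lit 13456) (nat_lit 2) (nat_lit 4))
    (@En.n l1793 (nat_lit 13461) (nat_lit 3) (nat_lit 4))
    (@En.i (nat_lit 13064) (nat_lit 4) (nat_lit 4))
    (@En.n l1794 (nat_lit 12980) (nat_lit 5) (nat_lit 5))
    (@En.n l1795 (nat_lit 13070) (nat_lit 7) (nat_lit 12))
    (@En.n l164 (nat_lit 13459) (nat_lit 8) (nat_lit 12))
    (@En.n l1793 (nat_lit 12829) (nat_lit 9) (nat_lit 12))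
    (@En.n l1796 (nat_lit 13454) (nat_lit 9) (nat_lit 3))
    (@En.n l1620 (nat_lit 12966) (nat_lit 11) (nat_lit 11))
    (@En.n l3 (nat_lit 13455) (nat_lit 11) (nat_lit 2))
    (@En.n l1797 (nat_lit 13454) (nat_lit 13) (nat_lit 13))
    (@En.i (nat_lit 2894) (nat_lit 1) (nat_lit 14))
    (@En.n l17 (nat_lit 13455) (nat_lit 14) (nat_lit 2))
    (@En.n l18 (nat_lit 13455) (nat_lit 15) (nat_lit 2))))
noncomputable def a841 : T16 Cl := @T16.mk Cl
  (@Cl.mk (nat_lit 0x20002000e000d0002000a0003000b000e000c0002000600050004000e000e) (nat_lit 0x22040797000045) (nat_lit 16) Lb.e (@T16.mk En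
    (@En.n l5 (nat_lit 13456) (nat_lit 1) (nat_lit 14))
    (@En.n l420 (nat_lit 3556) (nat_lit 12) (nat_lit 14))
    (@En.n l7 (nat_lit 13446) (nat_lit 2) (nat_lit 4))
    (@En.n l12 (nat_lit 13066) (nat_lit 3) (nat_lit 5))
    (@En.i (nat_lit 13112) (nat_lit 4) (nat_lit 6))
    (@En.n l8 (nat_lit 13456) (nat_lit 5) (nat_lit 2))
    (@En.n l544 (nat_lit 13455) (nat_lit 7) (nat_lit 12))
    (@En.i (nat_lit 13023) (nat_lit 8) (nat_lit 14))
    (@En.i (nat_lit 13750) (nat_lit 9) (nat_lit 11))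
    (@En.n l117 (nat_lit 13452) (nat_lit 9) (nat_lit 3))
    (@En.i (nat_lit 12963) (nat_lit 11) (nat_lit 10))
    (@En.n l3 (nat_lit 13456) (nat_lit 11) (nat_lit 2))
    (@En.i (nat_lit 13452) (nat_lit 13) (nat_lit 13))
    (@En.i (nat_lit 2640) (nat_lit 1) (nat_lit 14))
    (@En.n l17 (nat_lit 13456) (nat_lit 14) (nat_lit 2))
    (@En.n l18 (nat_lit 13456) (nat_lit 15) (nat_lit 2))))
  (@Cl.mk (nat_lit 0x20002000d000d000b00030003000c000b0005000e000400020005000e000e) (nat_lit 0x34500580900089) (nat_lit 16) Lb.e (@T16.mk En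
    (@En.n l97 (nat_lit 13457) (nat_lit 1) (nat_lit 14))
    (@En.i (nat_lit 4104) (nat_lit 1) (nat_lit 14))
    (@En.n l4409 (nat_lit 13020) (nat_lit 2) (nat_lit 5))
    (@En.n l17 (nat_lit 13457) (nat_lit 3) (nat_lit 2))
    (@En.i (nat_lit 13454) (nat_lit 4) (nat_lit 4))
    (@En.n l12 (nat_lit 13445) (nat_lit 6) (nat_lit 14))
    (@En.i (nat_lit 12977) (nat_lit 6) (nat_lit 5))
    (@En.n l2654 (nat_lit 13060) (nat_lit 8) (nat_lit 11))
    (@En.n l564 (nat_lit 13895) (nat_lit 9) (nat_lit 12))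
    (@En.n l911 (nat_lit 13459) (nat_lit 9) (nat_lit 3))
    (@En.i (nat_lit 13458) (nat_lit 10) (nat_lit 3))
    (@En.n l4380 (nat_lit 12976) (nat_lit 12) (nat_lit 11))
    (@En.n l134 (nat_lit 13458) (nat_lit 13) (nat_lit 13))
    (@En.n l4410 (nat_lit 1081) (nat_lit 10) (nat_lit 13))
    (@En.n l107 (nat_lit 13457) (nat_lit 14) (nat_lit 2))
    (@En.n l3 (nat_lit 13457) (nat_lit 15) (nat_lit 2))))
  (@Cl.mk (nat_lit 0x20002000d000a000e00030002000c000b0006000e000400020005000e000e) (nat_lit 0x33500590a0009a) (nat_lit 16) Lb.e (@T16.mk En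
    (@En.n l97 (nat_lit 13458) (nat_lit 1) (nat_lit 14))
    (@En.i (nat_lit 4107) (nat_lit 1) (nat_lit 14))
    (@En.i (nat_lit 13025) (nat_lit 2) (nat_lit 5))
    (@En.n l17 (nat_lit 13458) (nat_lit 3) (nat_lit 2))
    (@En.n l137 (nat_lit 13453) (nat_lit 4) (nat_lit 4))
    (@En.n l12 (nat_lit 13443) (nat_lit 6) (nat_lit 14))
    (@En.i (nat_lit 13492) (nat_lit 6) (nat_lit 6))
    (@En.n l357 (nat_lit 13061) (nat_lit 8) (nat_lit 11))
    (@En.n l564 (nat_lit 13489) (nat_lit 9) (nat_lit 12))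
    (@En.n l7 (nat_lit 13458) (nat_lit 9) (nat_lit 2))
    (@En.n l28 (nat_lit 13457) (nat_lit 10) (nat_lit 3))
    (@En.i (nat_lit 14114) (nat_lit 0) (nat_lit 14))
    (@En.n l357 (nat_lit 13031) (nat_lit 13) (nat_lit 10))
    (@En.i (nat_lit 1080) (nat_lit 10) (nat_lit 13))
    (@En.n l107 (nat_lit 13458) (nat_lit 14) (nat_lit 2))
    (@En.n l3 (nat_lit 13458) (nat_lit 15) (nat_lit 2))))
  (@Cl.mk (nat_lit 0x20002000e000d0002000c0003000c000b0004000e000400020005000e000e) (nat_lit 0x34050590b00067) (nat_lit 16) Lb.e (@T16.mk En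
    (@En.n l5 (nat_lit 13459) (nat_lit 1) (nat_lit 14))
    (@En.n l313 (nat_lit 4108) (nat_lit 1) (nat_lit 14))
    (@En.n l1709 (nat_lit 13019) (nat_lit 2) (nat_lit 5))
    (@En.n l172 (nat_lit 13459) (nat_lit 3) (nat_lit 2))
    (@En.n l28 (nat_lit 13455) (nat_lit 4) (nat_lit 4))
    (@En.i (nat_lit 13460) (nat_lit 6) (nat_lit 14))
    (@En.n l313 (nat_lit 12979) (nat_lit 6) (nat_lit 4))
    (@En.n l77 (nat_lit 13066) (nat_lit 8) (nat_lit 11))
    (@En.i (nat_lit 12824) (nat_lit 9) (nat_lit 12))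
    (@En.n l1434 (nat_lit 13457) (nat_lit 9) (nat_lit 3))
    (@En.n l513 (nat_lit 13128) (nat_lit 11) (nat_lit 12))
    (@En.n l3 (nat_lit 13459) (nat_lit 11) (nat_lit 2))
    (@En.n l310 (nat_lit 13457) (nat_lit 13) (nat_lit 13))
    (@En.i (nat_lit 3062) (nat_lit 1) (nat_lit 14))
    (@En.n l17 (nat_lit 13459) (nat_lit 14) (nat_lit 2))
    (@En.n l18 (nat_lit 13459) (nat_lit 15) (nat_lit 2))))
  (@Cl.mk (nat_lit 0x20002000e000d000200090003000d000b000e0003000200070005000e000e) (nat_lit 0x9405058a00009a) (nat_lit 16) Lb.e (@T16.mk En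
    (@En.n l5 (nat_lit 13460) (nat_lit 1) (nat_lit 14))
    (@En.n l1379 (nat_lit 4124) (nat_lit 13) (nat_lit 14))
    (@En.n l12 (nat_lit 13459) (nat_lit 2) (nat_lit 5))
    (@En.i (nat_lit 13107) (nat_lit 3) (nat_lit 7))
    (@En.n l172 (nat_lit 13460) (nat_lit 4) (nat_lit 2))
    (@En.n l28 (nat_lit 13446) (nat_lit 5) (nat_lit 3))
    (@En.i (nat_lit 14056) (nat_lit 0) (nat_lit 14))
    (@En.n l77 (nat_lit 13456) (nat_lit 8) (nat_lit 11))
    (@En.i (nat_lit 12826) (nat_lit 9) (nat_lit 13))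
    (@En.n l1710 (nat_lit 13445) (nat_lit 9) (nat_lit 3))
    (@En.n l513 (nat_lit 13045) (nat_lit 11) (nat_lit 9))
    (@En.n l3 (nat_lit 13460) (nat_lit 11) (nat_lit 2))
    (@En.n l1380 (nat_lit 13445) (nat_lit 13) (nat_lit 13))
    (@En.i (nat_lit 3063) (nat_lit 1) (nat_lit 14))
    (@En.n l17 (nat_lit 13460) (nat_lit 14) (nat_lit 2))
    (@En.n l18 (nat_lit 13460) (nat_lit 15) (nat_lit 2))))
  (@Cl.mk (nat_lit 0x20002000e000d0002000a0003000e000c0002000d000600040003000e000e) (nat_lit 0x14050690a0009a) (nat_lit 16) Lb.e (@T16.mk En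
    (@En.n l97 (nat_lit 13461) (nat_lit 1) (nat_lit 14))
    (@En.i (nat_lit 3283) (nat_lit 1) (nat_lit 14))
    (@En.n l5205 (nat_lit 13449) (nat_lit 2) (nat_lit 3))
    (@En.n l18 (nat_lit 13070) (nat_lit 3) (nat_lit 4))
    (@En.n l4884 (nat_lit 12982) (nat_lit 4) (nat_lit 6))
    (@En.i (nat_lit 13471) (nat_lit 6) (nat_lit 13))
    (@En.n l2196 (nat_lit 13461) (nat_lit 6) (nat_lit 2))
    (@En.n l5394 (nat_lit 13455) (nat_lit 8) (nat_lit 12))
    (@En.i (nat_lit 13771) (nat_lit 9) (nat_lit 14))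
    (@En.i (nat_lit 13448) (nat_lit 9) (nat_lit 3))
    (@En.n l5205 (nat_lit 14067) (nat_lit 11) (nat_lit 10))
    (@En.n l28 (nat_lit 13461) (nat_lit 11) (nat_lit 2))
    (@En.n l134 (nat_lit 13448) (nat_lit 13) (nat_lit 13))
    (@En.n l5395 (nat_lit 1221) (nat_lit 1) (nat_lit 14))
    (@En.n l107 (nat_lit 13461) (nat_lit 14) (nat_lit 2))
    (@En.n l3 (nat_lit 13461) (nat_lit 15) (nat_lit 2))))
  (@Cl.mk (nat_lit 0x200020009000e000a0002000b000b000b00070006000500050005000e000e) (nat_lit 0x13306770000056) (nat_lit 16) Lb.e (@T16.mk En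
    (@En.n l5 (nat_lit 13462) (nat_lit 1) (nat_lit 14))
    (@En.n l5171 (nat_lit 3724) (nat_lit 1) (nat_lit 14))
    (@En.n l237 (nat_lit 13463) (nat_lit 2) (nat_lit 5))
    (@En.n l575 (nat_lit 13702) (nat_lit 3) (nat_lit 5))
    (@En.i (nat_lit 13425) (nat_lit 4) (nat_lit 5))
    (@En.n l5171 (nat_lit 13454) (nat_lit 5) (nat_lit 6))
    (@En.n l5171 (nat_lit 13495) (nat_lit 6) (nat_lit 7))
    (@En.n l134 (nat_lit 13422) (nat_lit 8) (nat_lit 11))
    (@En.n l577 (nat_lit 13031) (nat_lit 9) (nat_lit 11))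
    (@En.n l107 (nat_lit 13546) (nat_lit 10) (nat_lit 11))
    (@En.n l3 (nat_lit 13462) (nat_lit 10) (nat_lit 2))
    (@En.n l3279 (nat_lit 12911) (nat_lit 12) (nat_lit 10))
    (@En.i (nat_lit 12919) (nat_lit 13) (nat_lit 14))
    (@En.i (nat_lit 1813) (nat_lit 14) (nat_lit 9))
    (@En.n l17 (nat_lit 13462) (nat_lit 14) (nat_lit 2))
    (@En.n l18 (nat_lit 13462) (nat_lit 15) (nat_lit 2))))
  (@Cl.mk (nat_lit 0x200020008000e00090002000a000e000b00020008000700060005000e000e) (nat_lit 0x13306880600056) (nat_lit 16) Lb.e (@T16.mk En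
    (@En.n l5 (nat_lit 13463) (nat_lit 1) (nat_lit 14))
    (@En.i (nat_lit 3217) (nat_lit 1) (nat_lit 14))
    (@En.i (nat_lit 12788) (nat_lit 2) (nat_lit 5))
    (@En.i (nat_lit 14029) (nat_lit 3) (nat_lit 6))
    (@En.n l1676 (nat_lit 13452) (nat_lit 4) (nat_lit 7))
    (@En.n l175 (nat_lit 13537) (nat_lit 5) (nat_lit 8))
    (@En.n l28 (nat_lit 13463) (nat_lit 6) (nat_lit 2))
    (@En.n l77 (nat_lit 13462) (nat_lit 8) (nat_lit 11))
    (@En.n l1578 (nat_lit 13029) (nat_lit 9) (nat_lit 14))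
    (@En.n l107 (nat_lit 13549) (nat_lit 10) (nat_lit 10))
    (@En.n l3 (nat_lit 13463) (nat_lit 10) (nat_lit 2))
    (@En.i (nat_lit 12910) (nat_lit 12) (nat_lit 9))
    (@En.i (nat_lit 12918) (nat_lit 13) (nat_lit 14))
    (@En.i (nat_lit 1811) (nat_lit 6) (nat_lit 8))
    (@En.n l17 (nat_lit 13463) (nat_lit 14) (nat_lit 2))
    (@En.n l18 (nat_lit 13463) (nat_lit 15) (nat_lit 2))))
  (@Cl.mk (nat_lit 0x20002000d000a000e00030002000d000c00060003000e00040002000e000e) (nat_lit 0x324007800c0089) (nat_lit 16) Lb.e (@T16.mk En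
    (@En.n l5 (nat_lit 13464) (nat_lit 1) (nat_lit 14))
    (@En.n l1508 (nat_lit 4049) (nat_lit 1) (nat_lit 14))
    (@En.n l7 (nat_lit 13464) (nat_lit 2) (nat_lit 2))
    (@En.n l1509 (nat_lit 13453) (nat_lit 3) (nat_lit 4))
    (@En.n l1510 (nat_lit 13465) (nat_lit 5) (nat_lit 14))
    (@En.n l407 (nat_lit 13065) (nat_lit 5) (nat_lit 3))
    (@En.n l575 (nat_lit 13478) (nat_lit 6) (nat_lit 6))
    (@En.n l575 (nat_lit 13059) (nat_lit 8) (nat_lit 12))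
    (@En.n l1511 (nat_lit 13399) (nat_lit 9) (nat_lit 13))
    (@En.n l3 (nat_lit 13464) (nat_lit 9) (nat_lit 2))
    (@En.n l1512 (nat_lit 13068) (nat_lit 10) (nat_lit 3))
    (@En.n l1424 (nat_lit 14107) (nat_lit 0) (nat_lit 14))
    (@En.i (nat_lit 13422) (nat_lit 13) (nat_lit 10))
    (@En.n l1513 (nat_lit 1110) (nat_lit 14) (nat_lit 13))
    (@En.n l17 (nat_lit 13464) (nat_lit 14) (nat_lit 2))
    (@En.n l18 (nat_lit 13464) (nat_lit 15) (nat_lit 2))))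
  (@Cl.mk (nat_lit 0x20002000d000a000e00030002000a000d0006000e000300020006000e000e) (nat_lit 0x43400380b00089) (nat_lit 16) Lb.e (@T16.mk En
    (@En.n l97 (nat_lit 13465) (nat_lit 1) (nat_lit 14))
    (@En.i (nat_lit 4125) (nat_lit 8) (nat_lit 14))
    (@En.n l617 (nat_lit 13468) (nat_lit 2) (nat_lit 6))
    (@En.n l17 (nat_lit 13465) (nat_lit 3) (nat_lit 2))
    (@En.i (nat_lit 13468) (nat_lit 4) (nat_lit 3))
    (@En.i (nat_lit 14063) (nat_lit 0) (nat_lit 14))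
    (@En.n l4414 (nat_lit 13476) (nat_lit 6) (nat_lit 6))
    (@En.n l564 (nat_lit 13065) (nat_lit 8) (nat_lit 13))
    (@En.n l564 (nat_lit 13120) (nat_lit 9) (nat_lit 10))
    (@En.n l7 (nat_lit 13465) (nat_lit 9) (nat_lit 2))
    (@En.n l28 (nat_lit 13469) (nat_lit 10) (nat_lit 3))
    (@En.i (nat_lit 14089) (nat_lit 0) (nat_lit 14))
    (@En.i (nat_lit 13391) (nat_lit 13) (nat_lit 10))
    (@En.n l4415 (nat_lit 408) (nat_lit 10) (nat_lit 13))
    (@En.n l107 (nat_lit 13465) (nat_lit 14) (nat_lit 2))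
    (@En.n l3 (nat_lit 13465) (nat_lit 15) (nat_lit 2))))
  (@Cl.mk (nat_lit 0x20002000d000d000a00030003000a000d000d0006000300030006000e000e) (nat_lit 0x4540028900009a) (nat_lit 16) Lb.e (@T16.mk En
    (@En.n l97 (nat_lit 13466) (nat_lit 1) (nat_lit 14))
    (@En.i (nat_lit 3577) (nat_lit 1) (nat_lit 14))
    (@En.n l5496 (nat_lit 13470) (nat_lit 2) (nat_lit 6))
    (@En.n l5337 (nat_lit 13470) (nat_lit 3) (nat_lit 3))
    (@En.n l18 (nat_lit 13469) (nat_lit 4) (nat_lit 3))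
    (@En.n l3506 (nat_lit 13474) (nat_lit 5) (nat_lit 6))
    (@En.n l61 (nat_lit 13469) (nat_lit 7) (nat_lit 13))
    (@En.n l564 (nat_lit 13068) (nat_lit 8) (nat_lit 13))
    (@En.n l564 (nat_lit 13124) (nat_lit 9) (nat_lit 10))
    (@En.n l7 (nat_lit 13471) (nat_lit 9) (nat_lit 3))
    (@En.i (nat_lit 13468) (nat_lit 10) (nat_lit 3))
    (@En.i (nat_lit 12830) (nat_lit 12) (nat_lit 10))
    (@En.n l134 (nat_lit 13468) (nat_lit 13) (nat_lit 13))
    (@En.n l4415 (nat_lit 489) (nat_lit 14) (nat_lit 13))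
    (@En.n l107 (nat_lit 13466) (nat_lit 14) (nat_lit 2))
    (@En.n l3 (nat_lit 13466) (nat_lit 15) (nat_lit 2))))
  (@Cl.mk (nat_lit 0x20002000d0008000e00030002000a000e000d0002000800030006000e000e) (nat_lit 0x42400399060089) (nat_lit 16) Lb.e (@T16.mk En
    (@En.n l97 (nat_lit 13467) (nat_lit 1) (nat_lit 14))
    (@En.n l1379 (nat_lit 4124) (nat_lit 8) (nat_lit 14))
    (@En.n l387 (nat_lit 14063) (nat_lit 12) (nat_lit 6))
    (@En.n l2369 (nat_lit 13468) (nat_lit 3) (nat_lit 3))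
    (@En.i (nat_lit 14094) (nat_lit 4) (nat_lit 8))
    (@En.n l18 (nat_lit 13467) (nat_lit 5) (nat_lit 2))
    (@En.n l5529 (nat_lit 13468) (nat_lit 7) (nat_lit 13))
    (@En.n l1379 (nat_lit 13447) (nat_lit 8) (nat_lit 14))
    (@En.i (nat_lit 13123) (nat_lit 9) (nat_lit 10))
    (@En.n l172 (nat_lit 13467) (nat_lit 9) (nat_lit 2))
    (@En.n l28 (nat_lit 13470) (nat_lit 10) (nat_lit 3))
    (@En.n l170 (nat_lit 14090) (nat_lit 0) (nat_lit 14))
    (@En.n l3486 (nat_lit 13390) (nat_lit 13) (nat_lit 8))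
    (@En.n l1359 (nat_lit 407) (nat_lit 8) (nat_lit 13))
    (@En.n l107 (nat_lit 13467) (nat_lit 14) (nat_lit 2))
    (@En.n l3 (nat_lit 13467) (nat_lit 15) (nat_lit 2))))
  (@Cl.mk (nat_lit 0x20002000d0009000e00030002000a000d000d0007000300030006000e000e) (nat_lit 0x4240048900009a) (nat_lit 16) Lb.e (@T16.mk En
    (@En.n l97 (nat_lit 13468) (nat_lit 1) (nat_lit 14))
    (@En.i (nat_lit 4111) (nat_lit 8) (nat_lit 14))
    (@En.n l5496 (nat_lit 13467) (nat_lit 2) (nat_lit 6))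
    (@En.n l5337 (nat_lit 13467) (nat_lit 3) (nat_lit 3))
    (@En.n l18 (nat_lit 13465) (nat_lit 4) (nat_lit 3))
    (@En.n l1347 (nat_lit 13477) (nat_lit 5) (nat_lit 7))
    (@En.n l61 (nat_lit 13465) (nat_lit 7) (nat_lit 13))
    (@En.n l5497 (nat_lit 13464) (nat_lit 8) (nat_lit 13))
    (@En.n l564 (nat_lit 13121) (nat_lit 9) (nat_lit 10))
    (@En.n l7 (nat_lit 13468) (nat_lit 9) (nat_lit 2))
    (@En.n l28 (nat_lit 13466) (nat_lit 10) (nat_lit 3))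
    (@En.n l137 (nat_lit 14091) (nat_lit 0) (nat_lit 14))
    (@En.n l4019 (nat_lit 13389) (nat_lit 13) (nat_lit 9))
    (@En.n l1551 (nat_lit 409) (nat_lit 14) (nat_lit 13))
    (@En.n l107 (nat_lit 13468) (nat_lit 14) (nat_lit 2))
    (@En.n l3 (nat_lit 13468) (nat_lit 15) (nat_lit 2))))
  (@Cl.mk (nat_lit 0x20002000d000d000b00030003000a000d0005000e000300020006000e000e) (nat_lit 0x25300280b00089) (nat_lit 16) Lb.e (@T16.mk En
    (@En.n l97 (nat_lit 13469) (nat_lit 1) (nat_lit 14))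
    (@En.i (nat_lit 3571) (nat_lit 1) (nat_lit 14))
    (@En.n l617 (nat_lit 13466) (nat_lit 2) (nat_lit 6))
    (@En.n l17 (nat_lit 13469) (nat_lit 3) (nat_lit 2))
    (@En.i (nat_lit 13466) (nat_lit 4) (nat_lit 3))
    (@En.i (nat_lit 14064) (nat_lit 0) (nat_lit 14))
    (@En.n l3506 (nat_lit 13475) (nat_lit 6) (nat_lit 5))
    (@En.n l564 (nat_lit 13063) (nat_lit 8) (nat_lit 13))
    (@En.n l564 (nat_lit 13125) (nat_lit 9) (nat_lit 10))
    (@En.n l7 (nat_lit 13473) (nat_lit 9) (nat_lit 3))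
    (@En.i (nat_lit 13465) (nat_lit 10) (nat_lit 3))
    (@En.i (nat_lit 12831) (nat_lit 12) (nat_lit 11))
    (@En.n l134 (nat_lit 13465) (nat_lit 13) (nat_lit 13))
    (@En.n l4415 (nat_lit 493) (nat_lit 10) (nat_lit 13))
    (@En.n l107 (nat_lit 13469) (nat_lit 14) (nat_lit 2))
    (@En.n l3 (nat_lit 13469) (nat_lit 15) (nat_lit 2))))
  (@Cl.mk (nat_lit 0x20002000d000d000900030003000a000e000d0002000700030006000e000e) (nat_lit 0x45400399000089) (nat_lit 16) Lb.e (@T16.mk En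
    (@En.n l97 (nat_lit 13470) (nat_lit 1) (nat_lit 14))
    (@En.n l1784 (nat_lit 3574) (nat_lit 12) (nat_lit 14))
    (@En.n l387 (nat_lit 14064) (nat_lit 12) (nat_lit 6))
    (@En.n l2369 (nat_lit 13466) (nat_lit 3) (nat_lit 3))
    (@En.i (nat_lit 14095) (nat_lit 4) (nat_lit 7))
    (@En.n l18 (nat_lit 13470) (nat_lit 5) (nat_lit 2))
    (@En.n l5529 (nat_lit 13466) (nat_lit 7) (nat_lit 13))
    (@En.n l13752 (nat_lit 13448) (nat_lit 8) (nat_lit 14))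
    (@En.i (nat_lit 13126) (nat_lit 9) (nat_lit 10))
    (@En.n l11591 (nat_lit 13472) (nat_lit 9) (nat_lit 3))
    (@En.i (nat_lit 13467) (nat_lit 10) (nat_lit 3))
    (@En.n l4370 (nat_lit 12832) (nat_lit 12) (nat_lit 9))
    (@En.n l164 (nat_lit 13467) (nat_lit 13) (nat_lit 13))
    (@En.n l4367 (nat_lit 492) (nat_lit 8) (nat_lit 13))
    (@En.n l107 (nat_lit 13470) (nat_lit 14) (nat_lit 2))
    (@En.n l3 (nat_lit 13470) (nat_lit 15) (nat_lit 2))))
  (@Cl.mk (nat_lit 0x20002000e000d0002000b0003000a000d000d0005000300030006000e000e) (nat_lit 0x250402890000bc) (nat_lit 16) Lb.e (@T16.mk En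
    (@En.n l97 (nat_lit 13471) (nat_lit 1) (nat_lit 14))
    (@En.i (nat_lit 3569) (nat_lit 1) (nat_lit 14))
    (@En.n l617 (nat_lit 13472) (nat_lit 2) (nat_lit 6))
    (@En.i (nat_lit 13472) (nat_lit 3) (nat_lit 3))
    (@En.n l18 (nat_lit 13473) (nat_lit 4) (nat_lit 3))
    (@En.i (nat_lit 14097) (nat_lit 5) (nat_lit 5))
    (@En.n l61 (nat_lit 13473) (nat_lit 7) (nat_lit 13))
    (@En.n l1353 (nat_lit 13070) (nat_lit 8) (nat_lit 13))
    (@En.i (nat_lit 257) (nat_lit 9) (nat_lit 10))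
    (@En.i (nat_lit 13466) (nat_lit 9) (nat_lit 3))
    (@En.i (nat_lit 13559) (nat_lit 11) (nat_lit 11))
    (@En.n l28 (nat_lit 13471) (nat_lit 11) (nat_lit 2))
    (@En.n l134 (nat_lit 13466) (nat_lit 13) (nat_lit 13))
    (@En.i (nat_lit 606) (nat_lit 1) (nat_lit 14))
    (@En.n l107 (nat_lit 13471) (nat_lit 14) (nat_lit 2))
    (@En.n l3 (nat_lit 13471) (nat_lit 15) (nat_lit 2))))
noncomputable def a842 : T16 Cl := @T16.mk Cl
  (@Cl.mk (nat_lit 0x20002000e000d0002000a0003000a000e000d0002000600030006000e000e) (nat_lit 0x350602790000bc) (nat_lit 16) Lb.e (@T16.mk En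
    (@En.n l97 (nat_lit 13472) (nat_lit 1) (nat_lit 14))
    (@En.i (nat_lit 5124) (nat_lit 12) (nat_lit 14))
    (@En.n l6147 (nat_lit 14065) (nat_lit 12) (nat_lit 6))
    (@En.n l72 (nat_lit 13471) (nat_lit 3) (nat_lit 3))
    (@En.n l5205 (nat_lit 14096) (nat_lit 4) (nat_lit 6))
    (@En.n l17 (nat_lit 13472) (nat_lit 5) (nat_lit 2))
    (@En.n l61 (nat_lit 13471) (nat_lit 7) (nat_lit 13))
    (@En.n l1353 (nat_lit 13461) (nat_lit 8) (nat_lit 14))
    (@En.i (nat_lit 255) (nat_lit 9) (nat_lit 10))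
    (@En.n l5337 (nat_lit 13470) (nat_lit 9) (nat_lit 3))
    (@En.n l5205 (nat_lit 13561) (nat_lit 11) (nat_lit 10))
    (@En.n l28 (nat_lit 13472) (nat_lit 11) (nat_lit 2))
    (@En.n l797 (nat_lit 13470) (nat_lit 13) (nat_lit 13))
    (@En.n l11949 (nat_lit 607) (nat_lit 1) (nat_lit 14))
    (@En.n l107 (nat_lit 13472) (nat_lit 14) (nat_lit 2))
    (@En.n l3 (nat_lit 13472) (nat_lit 15) (nat_lit 2))))
  (@Cl.mk (nat_lit 0x20002000e000d0002000c0003000a000d0004000e000300020006000e000e) (nat_lit 0x330502809000bc) (nat_lit 16) Lb.e (@T16.mk En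
    (@En.n l97 (nat_lit 13473) (nat_lit 1) (nat_lit 14))
    (@En.i (nat_lit 3578) (nat_lit 1) (nat_lit 14))
    (@En.n l617 (nat_lit 13471) (nat_lit 2) (nat_lit 6))
    (@En.n l17 (nat_lit 13473) (nat_lit 3) (nat_lit 2))
    (@En.i (nat_lit 13471) (nat_lit 4) (nat_lit 3))
    (@En.i (nat_lit 14065) (nat_lit 0) (nat_lit 14))
    (@En.i (nat_lit 14047) (nat_lit 6) (nat_lit 4))
    (@En.n l5891 (nat_lit 13067) (nat_lit 8) (nat_lit 13))
    (@En.i (nat_lit 256) (nat_lit 9) (nat_lit 10))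
    (@En.i (nat_lit 13469) (nat_lit 9) (nat_lit 3))
    (@En.n l2031 (nat_lit 13560) (nat_lit 11) (nat_lit 12))
    (@En.n l28 (nat_lit 13473) (nat_lit 11) (nat_lit 2))
    (@En.n l134 (nat_lit 13469) (nat_lit 13) (nat_lit 13))
    (@En.i (nat_lit 608) (nat_lit 1) (nat_lit 14))
    (@En.n l107 (nat_lit 13473) (nat_lit 14) (nat_lit 2))
    (@En.n l3 (nat_lit 13473) (nat_lit 15) (nat_lit 2))))
  (@Cl.mk (nat_lit 0x20002000c000c000a000900040004000b000e0006000200070005000e000e) (nat_lit 0x2245002a000078) (nat_lit 16) Lb.e (@T16.mk En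
    (@En.n l97 (nat_lit 13474) (nat_lit 1) (nat_lit 14))
    (@En.i (nat_lit 3298) (nat_lit 13) (nat_lit 14))
    (@En.n l796 (nat_lit 14095) (nat_lit 2) (nat_lit 5))
    (@En.n l13667 (nat_lit 13714) (nat_lit 3) (nat_lit 7))
    (@En.n l18 (nat_lit 13474) (nat_lit 4) (nat_lit 2))
    (@En.n l50 (nat_lit 13715) (nat_lit 5) (nat_lit 6))
    (@En.n l25956 (nat_lit 12845) (nat_lit 7) (nat_lit 14))
    (@En.n l665 (nat_lit 13588) (nat_lit 8) (nat_lit 11))
    (@En.n l55 (nat_lit 14097) (nat_lit 8) (nat_lit 4))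
    (@En.n l12933 (nat_lit 13361) (nat_lit 9) (nat_lit 4))
    (@En.n l665 (nat_lit 13470) (nat_lit 11) (nat_lit 9))
    (@En.n l4497 (nat_lit 13890) (nat_lit 12) (nat_lit 10))
    (@En.n l9195 (nat_lit 13477) (nat_lit 13) (nat_lit 12))
    (@En.n l13822 (nat_lit 496) (nat_lit 9) (nat_lit 12))
    (@En.n l107 (nat_lit 13474) (nat_lit 14) (nat_lit 2))
    (@En.n l3 (nat_lit 13474) (nat_lit 15) (nat_lit 2))))
  (@Cl.mk (nat_lit 0x20002000c000c000b000a00040004000b0005000e000600020005000e000e) (nat_lit 0x22450040900078) (nat_lit 16) Lb.e (@T16.mk En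
    (@En.n l97 (nat_lit 13475) (nat_lit 1) (nat_lit 14))
    (@En.i (nat_lit 4512) (nat_lit 1) (nat_lit 14))
    (@En.n l617 (nat_lit 13474) (nat_lit 2) (nat_lit 5))
    (@En.n l17 (nat_lit 13475) (nat_lit 3) (nat_lit 2))
    (@En.n l50 (nat_lit 13715) (nat_lit 4) (nat_lit 6))
    (@En.n l9760 (nat_lit 14045) (nat_lit 6) (nat_lit 14))
    (@En.n l50 (nat_lit 13384) (nat_lit 6) (nat_lit 5))
    (@En.n l287 (nat_lit 13583) (nat_lit 8) (nat_lit 11))
    (@En.n l55 (nat_lit 14047) (nat_lit 8) (nat_lit 4))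
    (@En.n l4401 (nat_lit 13932) (nat_lit 9) (nat_lit 4))
    (@En.n l9762 (nat_lit 13466) (nat_lit 11) (nat_lit 10))
    (@En.n l134 (nat_lit 13938) (nat_lit 12) (nat_lit 11))
    (@En.i (nat_lit 13476) (nat_lit 13) (nat_lit 12))
    (@En.n l2037 (nat_lit 497) (nat_lit 10) (nat_lit 12))
    (@En.n l107 (nat_lit 13475) (nat_lit 14) (nat_lit 2))
    (@En.n l3 (nat_lit 13475) (nat_lit 15) (nat_lit 2))))
  (@Cl.mk (nat_lit 0x20002000c000a0009000e00040002000b0006000e000700020005000e000e) (nat_lit 0x13360050900089) (nat_lit 16) Lb.e (@T16.mk En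
    (@En.n l97 (nat_lit 13476) (nat_lit 1) (nat_lit 14))
    (@En.i (nat_lit 4509) (nat_lit 1) (nat_lit 14))
    (@En.n l11837 (nat_lit 13477) (nat_lit 2) (nat_lit 5))
    (@En.n l17 (nat_lit 13476) (nat_lit 3) (nat_lit 2))
    (@En.n l11838 (nat_lit 13713) (nat_lit 4) (nat_lit 7))
    (@En.n l8321 (nat_lit 14042) (nat_lit 6) (nat_lit 14))
    (@En.n l8322 (nat_lit 13382) (nat_lit 6) (nat_lit 6))
    (@En.n l9193 (nat_lit 12942) (nat_lit 8) (nat_lit 11))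
    (@En.n l28 (nat_lit 13476) (nat_lit 8) (nat_lit 2))
    (@En.n l55 (nat_lit 13475) (nat_lit 9) (nat_lit 4))
    (@En.n l8322 (nat_lit 13458) (nat_lit 11) (nat_lit 14))
    (@En.n l11310 (nat_lit 13468) (nat_lit 12) (nat_lit 9))
    (@En.n l9195 (nat_lit 14018) (nat_lit 13) (nat_lit 10))
    (@En.n l11839 (nat_lit 1291) (nat_lit 10) (nat_lit 12))
    (@En.n l107 (nat_lit 13476) (nat_lit 14) (nat_lit 2))
    (@En.n l3 (nat_lit 13476) (nat_lit 15) (nat_lit 2))))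
  (@Cl.mk (nat_lit 0x20002000c00090008000e00040002000b000e0007000200080005000e000e) (nat_lit 0x13340039000089) (nat_lit 16) Lb.e (@T16.mk En
    (@En.n l396 (nat_lit 13477) (nat_lit 1) (nat_lit 14))
    (@En.i (nat_lit 3289) (nat_lit 1) (nat_lit 14))
    (@En.n l12262 (nat_lit 14094) (nat_lit 2) (nat_lit 5))
    (@En.n l9830 (nat_lit 13709) (nat_lit 3) (nat_lit 8))
    (@En.n l11 (nat_lit 13477) (nat_lit 4) (nat_lit 2))
    (@En.n l1115 (nat_lit 13713) (nat_lit 5) (nat_lit 7))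
    (@En.n l387 (nat_lit 13478) (nat_lit 7) (nat_lit 14))
    (@En.n l2436 (nat_lit 13618) (nat_lit 8) (nat_lit 11))
    (@En.n l3 (nat_lit 13477) (nat_lit 8) (nat_lit 2))
    (@En.n l12263 (nat_lit 13474) (nat_lit 9) (nat_lit 4))
    (@En.n l4273 (nat_lit 13025) (nat_lit 11) (nat_lit 14))
    (@En.n l2436 (nat_lit 13467) (nat_lit 12) (nat_lit 8))
    (@En.i (nat_lit 13295) (nat_lit 13) (nat_lit 9))
    (@En.n l12264 (nat_lit 1399) (nat_lit 9) (nat_lit 12))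
    (@En.n l18 (nat_lit 13477) (nat_lit 14) (nat_lit 2))
    (@En.n l50 (nat_lit 13477) (nat_lit 15) (nat_lit 2))))
  (@Cl.mk (nat_lit 0x20002000c000a0008000e00040002000e00060002000e00080002000e000e) (nat_lit 0x234500800a109a) (nat_lit 16) Lb.e (@T16.mk En
    (@En.n l5 (nat_lit 13478) (nat_lit 1) (nat_lit 14))
    (@En.n l1427 (nat_lit 3709) (nat_lit 1) (nat_lit 14))
    (@En.n l7 (nat_lit 13478) (nat_lit 2) (nat_lit 2))
    (@En.n l108 (nat_lit 12995) (nat_lit 3) (nat_lit 8))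
    (@En.n l4720 (nat_lit 13476) (nat_lit 5) (nat_lit 14))
    (@En.n l11 (nat_lit 13478) (nat_lit 5) (nat_lit 2))
    (@En.i (nat_lit 13381) (nat_lit 6) (nat_lit 6))
    (@En.n l4721 (nat_lit 12886) (nat_lit 8) (nat_lit 14))
    (@En.n l3 (nat_lit 13478) (nat_lit 8) (nat_lit 2))
    (@En.n l1688 (nat_lit 12845) (nat_lit 9) (nat_lit 4))
    (@En.n l4722 (nat_lit 13027) (nat_lit 11) (nat_lit 14))
    (@En.n l1427 (nat_lit 13447) (nat_lit 12) (nat_lit 8))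
    (@En.i (nat_lit 13291) (nat_lit 13) (nat_lit 10))
    (@En.n l4723 (nat_lit 1635) (nat_lit 14) (nat_lit 12))
    (@En.n l17 (nat_lit 13478) (nat_lit 14) (nat_lit 2))
    (@En.n l18 (nat_lit 13478) (nat_lit 15) (nat_lit 2))))
  (@Cl.mk (nat_lit 0x20002000d000b00080003000b000e00050002000d000500080003000e000e) (nat_lit 0xa2205800a02012) (nat_lit 16) Lb.e (@T16.mk En
    (@En.n l5 (nat_lit 13479) (nat_lit 1) (nat_lit 14))
    (@En.n l1499 (nat_lit 3534) (nat_lit 1) (nat_lit 14))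
    (@En.n l7 (nat_lit 13485) (nat_lit 2) (nat_lit 3))
    (@En.n l31 (nat_lit 13478) (nat_lit 3) (nat_lit 8))
    (@En.n l581 (nat_lit 13481) (nat_lit 4) (nat_lit 5))
    (@En.n l576 (nat_lit 13489) (nat_lit 6) (nat_lit 13))
    (@En.n l11 (nat_lit 13479) (nat_lit 6) (nat_lit 2))
    (@En.n l576 (nat_lit 13487) (nat_lit 7) (nat_lit 5))
    (@En.n l128 (nat_lit 13078) (nat_lit 9) (nat_lit 14))
    (@En.i (nat_lit 13483) (nat_lit 10) (nat_lit 11))
    (@En.n l936 (nat_lit 13480) (nat_lit 10) (nat_lit 3))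
    (@En.i (nat_lit 947) (nat_lit 12) (nat_lit 8))
    (@En.n l31 (nat_lit 13863) (nat_lit 13) (nat_lit 11))
    (@En.i (nat_lit 6695) (nat_lit 7) (nat_lit 13))
    (@En.n l17 (nat_lit 13479) (nat_lit 14) (nat_lit 2))
    (@En.n l18 (nat_lit 13479) (nat_lit 15) (nat_lit 2))))
  (@Cl.mk (nat_lit 0x20002000d0007000c0003000b000e00040002000d000500090003000e000e) (nat_lit 0x90405800a07089) (nat_lit 16) Lb.e (@T16.mk En
    (@En.n l5 (nat_lit 13480) (nat_lit 1) (nat_lit 14))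
    (@En.n l420 (nat_lit 7209) (nat_lit 1) (nat_lit 14))
    (@En.n l7 (nat_lit 13486) (nat_lit 2) (nat_lit 3))
    (@En.n l428 (nat_lit 13210) (nat_lit 3) (nat_lit 9))
    (@En.i (nat_lit 13482) (nat_lit 4) (nat_lit 5))
    (@En.n l4730 (nat_lit 13895) (nat_lit 6) (nat_lit 13))
    (@En.n l11 (nat_lit 13480) (nat_lit 6) (nat_lit 2))
    (@En.n l4730 (nat_lit 13867) (nat_lit 7) (nat_lit 4))
    (@En.n l1251 (nat_lit 13077) (nat_lit 9) (nat_lit 14))
    (@En.i (nat_lit 13700) (nat_lit 10) (nat_lit 11))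
    (@En.n l2576 (nat_lit 13479) (nat_lit 10) (nat_lit 3))
    (@En.i (nat_lit 13112) (nat_lit 12) (nat_lit 12))
    (@En.n l4731 (nat_lit 13483) (nat_lit 13) (nat_lit 7))
    (@En.i (nat_lit 6956) (nat_lit 7) (nat_lit 13))
    (@En.n l17 (nat_lit 13480) (nat_lit 14) (nat_lit 2))
    (@En.n l18 (nat_lit 13480) (nat_lit 15) (nat_lit 2))))
  (@Cl.mk (nat_lit 0x20002000d000a00080003000b000a000e00060002000500080006000e000e) (nat_lit 0x34507790001078) (nat_lit 16) Lb.e (@T16.mk En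
    (@En.n l97 (nat_lit 13481) (nat_lit 1) (nat_lit 14))
    (@En.n l1872 (nat_lit 7697) (nat_lit 12) (nat_lit 14))
    (@En.n l4651 (nat_lit 13195) (nat_lit 2) (nat_lit 6))
    (@En.n l4652 (nat_lit 13477) (nat_lit 3) (nat_lit 8))
    (@En.n l4651 (nat_lit 14024) (nat_lit 4) (nat_lit 5))
    (@En.n l17 (nat_lit 13481) (nat_lit 5) (nat_lit 2))
    (@En.n l4653 (nat_lit 13488) (nat_lit 6) (nat_lit 6))
    (@En.n l1873 (nat_lit 13479) (nat_lit 8) (nat_lit 14))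
    (@En.n l584 (nat_lit 13485) (nat_lit 9) (nat_lit 10))
    (@En.n l4654 (nat_lit 13484) (nat_lit 10) (nat_lit 11))
    (@En.n l4655 (nat_lit 13482) (nat_lit 10) (nat_lit 3))
    (@En.i (nat_lit 12921) (nat_lit 12) (nat_lit 8))
    (@En.n l4655 (nat_lit 13861) (nat_lit 13) (nat_lit 10))
    (@En.n l584 (nat_lit 6612) (nat_lit 8) (nat_lit 13))
    (@En.n l107 (nat_lit 13481) (nat_lit 14) (nat_lit 2))
    (@En.n l3 (nat_lit 13481) (nat_lit 15) (nat_lit 2))))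
  (@Cl.mk (nat_lit 0x20002000d0007000b0003000b000a000e00050002000500090006000e000e) (nat_lit 0x20407690007078) (nat_lit 16) Lb.e (@T16.mk En
    (@En.n l5 (nat_lit 13482) (nat_lit 1) (nat_lit 14))
    (@En.n l420 (nat_lit 7698) (nat_lit 12) (nat_lit 14))
    (@En.n l1603 (nat_lit 13228) (nat_lit 2) (nat_lit 6))
    (@En.i (nat_lit 13361) (nat_lit 3) (nat_lit 9))
    (@En.i (nat_lit 14009) (nat_lit 4) (nat_lit 5))
    (@En.n l11 (nat_lit 13482) (nat_lit 5) (nat_lit 2))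
    (@En.n l117 (nat_lit 13868) (nat_lit 6) (nat_lit 5))
    (@En.n l8 (nat_lit 13480) (nat_lit 8) (nat_lit 14))
    (@En.i (nat_lit 13486) (nat_lit 9) (nat_lit 10))
    (@En.n l4869 (nat_lit 13745) (nat_lit 10) (nat_lit 11))
    (@En.n l5180 (nat_lit 13481) (nat_lit 10) (nat_lit 3))
    (@En.i (nat_lit 13111) (nat_lit 12) (nat_lit 11))
    (@En.n l4505 (nat_lit 13484) (nat_lit 13) (nat_lit 7))
    (@En.i (nat_lit 6955) (nat_lit 8) (nat_lit 13))
    (@En.n l17 (nat_lit 13482) (nat_lit 14) (nat_lit 2))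
    (@En.n l18 (nat_lit 13482) (nat_lit 15) (nat_lit 2))))
  (@Cl.mk (nat_lit 0x200020007000c0008000b000e00040002000c0005000900080004000e000e) (nat_lit 0x3146008063012) (nat_lit 16) Lb.e (@T16.mk En
    (@En.n l5 (nat_lit 13483) (nat_lit 1) (nat_lit 14))
    (@En.n l4724 (nat_lit 3528) (nat_lit 1) (nat_lit 14))
    (@En.n l7 (nat_lit 13667) (nat_lit 2) (nat_lit 4))
    (@En.n l2 (nat_lit 13479) (nat_lit 3) (nat_lit 8))
    (@En.i (nat_lit 13689) (nat_lit 4) (nat_lit 9))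
    (@En.n l4725 (nat_lit 13484) (nat_lit 5) (nat_lit 5))
    (@En.n l4726 (nat_lit 13491) (nat_lit 7) (nat_lit 12))
    (@En.n l11 (nat_lit 13483) (nat_lit 7) (nat_lit 2))
    (@En.n l117 (nat_lit 13877) (nat_lit 8) (nat_lit 4))
    (@En.n l4727 (nat_lit 14028) (nat_lit 10) (nat_lit 14))
    (@En.n l4724 (nat_lit 13699) (nat_lit 11) (nat_lit 11))
    (@En.i (nat_lit 945) (nat_lit 12) (nat_lit 8))
    (@En.n l4728 (nat_lit 13864) (nat_lit 13) (nat_lit 12))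
    (@En.n l4729 (nat_lit 7900) (nat_lit 14) (nat_lit 7))
    (@En.n l17 (nat_lit 13483) (nat_lit 14) (nat_lit 2))
    (@En.n l18 (nat_lit 13483) (nat_lit 15) (nat_lit 2))))
  (@Cl.mk (nat_lit 0x200020007000b0008000b0009000e000500020005000900080007000e000e) (nat_lit 0x4565700072089) (nat_lit 16) Lb.e (@T16.mk En
    (@En.n l601 (nat_lit 13484) (nat_lit 1) (nat_lit 14))
    (@En.i (nat_lit 7696) (nat_lit 11) (nat_lit 14))
    (@En.n l9512 (nat_lit 13605) (nat_lit 2) (nat_lit 7))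
    (@En.n l12265 (nat_lit 13481) (nat_lit 3) (nat_lit 8))
    (@En.n l12266 (nat_lit 13907) (nat_lit 4) (nat_lit 9))
    (@En.n l12267 (nat_lit 14022) (nat_lit 5) (nat_lit 5))
    (@En.n l3 (nat_lit 13484) (nat_lit 6) (nat_lit 2))
    (@En.n l3323 (nat_lit 13490) (nat_lit 7) (nat_lit 5))
    (@En.n l12000 (nat_lit 13483) (nat_lit 9) (nat_lit 14))
    (@En.n l12268 (nat_lit 13660) (nat_lit 10) (nat_lit 9))
    (@En.i (nat_lit 13014) (nat_lit 11) (nat_lit 11))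
    (@En.n l6191 (nat_lit 12924) (nat_lit 12) (nat_lit 8))
    (@En.n l5378 (nat_lit 13862) (nat_lit 13) (nat_lit 11))
    (@En.n l3337 (nat_lit 7897) (nat_lit 6) (nat_lit 7))
    (@En.n l50 (nat_lit 13484) (nat_lit 14) (nat_lit 2))
    (@En.n l7 (nat_lit 13484) (nat_lit 15) (nat_lit 2))))
  (@Cl.mk (nat_lit 0x20002000d000b00090003000a000e00050002000d000700060003000e000e) (nat_lit 0x92406800b00034) (nat_lit 16) Lb.e (@T16.mk En
    (@En.n l5 (nat_lit 13485) (nat_lit 1) (nat_lit 14))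
    (@En.n l4484 (nat_lit 6429) (nat_lit 1) (nat_lit 14))
    (@En.i (nat_lit 13479) (nat_lit 2) (nat_lit 3))
    (@En.n l2560 (nat_lit 13191) (nat_lit 3) (nat_lit 6))
    (@En.n l4484 (nat_lit 13618) (nat_lit 4) (nat_lit 7))
    (@En.n l3886 (nat_lit 13897) (nat_lit 6) (nat_lit 13))
    (@En.n l11 (nat_lit 13485) (nat_lit 6) (nat_lit 2))
    (@En.n l117 (nat_lit 13192) (nat_lit 7) (nat_lit 5))
    (@En.n l4719 (nat_lit 13073) (nat_lit 9) (nat_lit 14))
    (@En.i (nat_lit 13667) (nat_lit 10) (nat_lit 10))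
    (@En.n l936 (nat_lit 13486) (nat_lit 10) (nat_lit 3))
    (@En.i (nat_lit 13104) (nat_lit 12) (nat_lit 9))
    (@En.n l936 (nat_lit 13305) (nat_lit 13) (nat_lit 11))
    (@En.i (nat_lit 6694) (nat_lit 7) (nat_lit 13))
    (@En.n l17 (nat_lit 13485) (nat_lit 14) (nat_lit 2))
    (@En.n l18 (nat_lit 13485) (nat_lit 15) (nat_lit 2))))
  (@Cl.mk (nat_lit 0x20002000d0008000c0003000a000e00040002000d000800060003000e000e) (nat_lit 0x92505700a40034) (nat_lit 16) Lb.e (@T16.mk En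
    (@En.n l5 (nat_lit 13486) (nat_lit 1) (nat_lit 14))
    (@En.i (nat_lit 6428) (nat_lit 1) (nat_lit 14))
    (@En.i (nat_lit 13480) (nat_lit 2) (nat_lit 3))
    (@En.n l3549 (nat_lit 13183) (nat_lit 3) (nat_lit 6))
    (@En.i (nat_lit 13619) (nat_lit 4) (nat_lit 8))
    (@En.n l1823 (nat_lit 13896) (nat_lit 6) (nat_lit 13))
    (@En.n l11 (nat_lit 13486) (nat_lit 6) (nat_lit 2))
    (@En.n l117 (nat_lit 13870) (nat_lit 7) (nat_lit 4))
    (@En.n l5381 (nat_lit 13076) (nat_lit 9) (nat_lit 14))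
    (@En.i (nat_lit 13686) (nat_lit 10) (nat_lit 10))
    (@En.n l2576 (nat_lit 13485) (nat_lit 10) (nat_lit 3))
    (@En.i (nat_lit 13109) (nat_lit 12) (nat_lit 12))
    (@En.i (nat_lit 13660) (nat_lit 13) (nat_lit 8))
    (@En.i (nat_lit 6603) (nat_lit 14) (nat_lit 13))
    (@En.n l17 (nat_lit 13486) (nat_lit 14) (nat_lit 2))
    (@En.n l18 (nat_lit 13486) (nat_lit 15) (nat_lit 2))))
  (@Cl.mk (nat_lit 0x20002000c000b000b00090004000c00050005000d000400070003000e000e) (nat_lit 0x12360700b00089) (nat_lit 16) Lb.e (@T16.mk En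
    (@En.n l97 (nat_lit 13487) (nat_lit 1) (nat_lit 14))
    (@En.n l4711 (nat_lit 7210) (nat_lit 1) (nat_lit 14))
    (@En.n l4712 (nat_lit 13192) (nat_lit 2) (nat_lit 3))
    (@En.n l4713 (nat_lit 13381) (nat_lit 3) (nat_lit 7))
    (@En.n l4714 (nat_lit 13488) (nat_lit 4) (nat_lit 4))
    (@En.i (nat_lit 13976) (nat_lit 6) (nat_lit 13))
    (@En.n l4715 (nat_lit 13873) (nat_lit 6) (nat_lit 5))
    (@En.n l4716 (nat_lit 13315) (nat_lit 7) (nat_lit 5))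
    (@En.n l4714 (nat_lit 13877) (nat_lit 9) (nat_lit 12))
    (@En.n l28 (nat_lit 13867) (nat_lit 9) (nat_lit 4))
    (@En.n l17 (nat_lit 14004) (nat_lit 11) (nat_lit 9))
    (@En.n l4717 (nat_lit 13479) (nat_lit 12) (nat_lit 11))
    (@En.n l77 (nat_lit 13998) (nat_lit 13) (nat_lit 11))
    (@En.n l4714 (nat_lit 6691) (nat_lit 14) (nat_lit 12))
    (@En.n l107 (nat_lit 13487) (nat_lit 14) (nat_lit 2))
    (@En.n l3 (nat_lit 13487) (nat_lit 15) (nat_lit 2))))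
noncomputable def a843 : T16 Cl := @T16.mk Cl
  (@Cl.mk (nat_lit 0x20002000c000a000a00090004000c000b00060006000400070005000e000e) (nat_lit 0x32560880000067) (nat_lit 16) Lb.e (@T16.mk En
    (@En.n l5 (nat_lit 13488) (nat_lit 1) (nat_lit 14))
    (@En.n l420 (nat_lit 7116) (nat_lit 1) (nat_lit 14))
    (@En.n l12079 (nat_lit 13190) (nat_lit 2) (nat_lit 5))
    (@En.n l11917 (nat_lit 13713) (nat_lit 3) (nat_lit 7))
    (@En.n l4844 (nat_lit 14008) (nat_lit 4) (nat_lit 4))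
    (@En.n l11 (nat_lit 13874) (nat_lit 5) (nat_lit 6))
    (@En.n l12080 (nat_lit 14039) (nat_lit 6) (nat_lit 6))
    (@En.i (nat_lit 13192) (nat_lit 8) (nat_lit 11))
    (@En.n l12026 (nat_lit 13490) (nat_lit 9) (nat_lit 12))
    (@En.n l936 (nat_lit 13868) (nat_lit 9) (nat_lit 4))
    (@En.n l11836 (nat_lit 13489) (nat_lit 11) (nat_lit 9))
    (@En.n l12081 (nat_lit 13481) (nat_lit 12) (nat_lit 10))
    (@En.n l12082 (nat_lit 13547) (nat_lit 13) (nat_lit 10))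
    (@En.i (nat_lit 6696) (nat_lit 14) (nat_lit 12))
    (@En.n l17 (nat_lit 13488) (nat_lit 14) (nat_lit 2))
    (@En.n l18 (nat_lit 13488) (nat_lit 15) (nat_lit 2))))
  (@Cl.mk (nat_lit 0x20002000d000b00090003000c000a0005000d0004000700030006000e000e) (nat_lit 0x62504809000012) (nat_lit 16) Lb.e (@T16.mk En
    (@En.n l97 (nat_lit 13489) (nat_lit 1) (nat_lit 14))
    (@En.i (nat_lit 4202) (nat_lit 1) (nat_lit 14))
    (@En.n l4406 (nat_lit 13481) (nat_lit 2) (nat_lit 6))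
    (@En.n l1397 (nat_lit 13897) (nat_lit 3) (nat_lit 3))
    (@En.n l4407 (nat_lit 13476) (nat_lit 4) (nat_lit 7))
    (@En.n l1891 (nat_lit 14006) (nat_lit 5) (nat_lit 4))
    (@En.n l754 (nat_lit 13889) (nat_lit 7) (nat_lit 13))
    (@En.i (nat_lit 13976) (nat_lit 7) (nat_lit 5))
    (@En.n l1891 (nat_lit 13995) (nat_lit 9) (nat_lit 10))
    (@En.n l4408 (nat_lit 13491) (nat_lit 10) (nat_lit 12))
    (@En.n l28 (nat_lit 13895) (nat_lit 10) (nat_lit 3))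
    (@En.n l1374 (nat_lit 12920) (nat_lit 12) (nat_lit 9))
    (@En.n l77 (nat_lit 13973) (nat_lit 13) (nat_lit 11))
    (@En.n l1891 (nat_lit 6772) (nat_lit 14) (nat_lit 13))
    (@En.n l107 (nat_lit 13489) (nat_lit 14) (nat_lit 2))
    (@En.n l3 (nat_lit 13489) (nat_lit 15) (nat_lit 2))))
  (@Cl.mk (nat_lit 0x200020007000b000b0009000c000a000500050004000900070006000e000e) (nat_lit 0x2567700070078) (nat_lit 16) Lb.e (@T16.mk En
    (@En.n l1578 (nat_lit 13490) (nat_lit 1) (nat_lit 14))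
    (@En.i (nat_lit 7118) (nat_lit 1) (nat_lit 14))
    (@En.n l12061 (nat_lit 13606) (nat_lit 2) (nat_lit 6))
    (@En.n l12062 (nat_lit 13488) (nat_lit 3) (nat_lit 7))
    (@En.n l12063 (nat_lit 13905) (nat_lit 4) (nat_lit 9))
    (@En.n l12064 (nat_lit 14031) (nat_lit 5) (nat_lit 4))
    (@En.n l12065 (nat_lit 13876) (nat_lit 6) (nat_lit 5))
    (@En.i (nat_lit 14040) (nat_lit 7) (nat_lit 5))
    (@En.n l12062 (nat_lit 13651) (nat_lit 9) (nat_lit 10))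
    (@En.i (nat_lit 13012) (nat_lit 10) (nat_lit 12))
    (@En.n l742 (nat_lit 13491) (nat_lit 11) (nat_lit 9))
    (@En.n l5913 (nat_lit 13484) (nat_lit 12) (nat_lit 11))
    (@En.n l892 (nat_lit 13974) (nat_lit 13) (nat_lit 11))
    (@En.i (nat_lit 7892) (nat_lit 14) (nat_lit 7))
    (@En.n l28 (nat_lit 13490) (nat_lit 14) (nat_lit 2))
    (@En.n l11 (nat_lit 13490) (nat_lit 15) (nat_lit 2))))
  (@Cl.mk (nat_lit 0x200020008000c0009000c00090004000c00040008000700040007000e000e) (nat_lit 0x12537070300012) (nat_lit 16) Lb.e (@T16.mk En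
    (@En.n l1578 (nat_lit 13491) (nat_lit 1) (nat_lit 14))
    (@En.i (nat_lit 4204) (nat_lit 1) (nat_lit 14))
    (@En.n l2039 (nat_lit 13484) (nat_lit 2) (nat_lit 7))
    (@En.n l7647 (nat_lit 13330) (nat_lit 3) (nat_lit 4))
    (@En.n l11840 (nat_lit 13489) (nat_lit 4) (nat_lit 7))
    (@En.n l11841 (nat_lit 13799) (nat_lit 5) (nat_lit 8))
    (@En.n l11842 (nat_lit 14020) (nat_lit 6) (nat_lit 4))
    (@En.n l250 (nat_lit 13894) (nat_lit 8) (nat_lit 12))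
    (@En.n l50 (nat_lit 13979) (nat_lit 8) (nat_lit 4))
    (@En.n l11843 (nat_lit 14016) (nat_lit 10) (nat_lit 9))
    (@En.i (nat_lit 13776) (nat_lit 11) (nat_lit 12))
    (@En.n l11844 (nat_lit 12922) (nat_lit 12) (nat_lit 9))
    (@En.n l11845 (nat_lit 13972) (nat_lit 13) (nat_lit 12))
    (@En.i (nat_lit 4649) (nat_lit 14) (nat_lit 8))
    (@En.n l28 (nat_lit 13491) (nat_lit 14) (nat_lit 2))
    (@En.n l11 (nat_lit 13491) (nat_lit 15) (nat_lit 2))))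
  (@Cl.mk (nat_lit 0x20002000c000a0007000e00040002000d0006000e000300020009000e000e) (nat_lit 0x230500809005ab) (nat_lit 16) Lb.e (@T16.mk En
    (@En.n l97 (nat_lit 13492) (nat_lit 1) (nat_lit 14))
    (@En.i (nat_lit 4105) (nat_lit 1) (nat_lit 14))
    (@En.i (nat_lit 13321) (nat_lit 2) (nat_lit 9))
    (@En.n l17 (nat_lit 13492) (nat_lit 3) (nat_lit 2))
    (@En.i (nat_lit 13493) (nat_lit 4) (nat_lit 3))
    (@En.i (nat_lit 13951) (nat_lit 0) (nat_lit 14))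
    (@En.i (nat_lit 12947) (nat_lit 6) (nat_lit 6))
    (@En.n l564 (nat_lit 13976) (nat_lit 8) (nat_lit 13))
    (@En.n l7 (nat_lit 13492) (nat_lit 8) (nat_lit 2))
    (@En.n l28 (nat_lit 12977) (nat_lit 9) (nat_lit 4))
    (@En.i (nat_lit 13465) (nat_lit 11) (nat_lit 14))
    (@En.i (nat_lit 13443) (nat_lit 12) (nat_lit 7))
    (@En.i (nat_lit 13497) (nat_lit 13) (nat_lit 10))
    (@En.i (nat_lit 1200) (nat_lit 10) (nat_lit 12))
    (@En.n l107 (nat_lit 13492) (nat_lit 14) (nat_lit 2))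
    (@En.n l3 (nat_lit 13492) (nat_lit 15) (nat_lit 2))))
  (@Cl.mk (nat_lit 0x20002000c00090007000e00040002000d000d0007000300030009000e000e) (nat_lit 0x130500990005ab) (nat_lit 16) Lb.e (@T16.mk En
    (@En.n l97 (nat_lit 13493) (nat_lit 1) (nat_lit 14))
    (@En.i (nat_lit 4103) (nat_lit 1) (nat_lit 14))
    (@En.i (nat_lit 13322) (nat_lit 2) (nat_lit 9))
    (@En.n l1777 (nat_lit 13494) (nat_lit 3) (nat_lit 3))
    (@En.n l18 (nat_lit 13492) (nat_lit 4) (nat_lit 3))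
    (@En.i (nat_lit 12995) (nat_lit 5) (nat_lit 7))
    (@En.n l61 (nat_lit 13492) (nat_lit 7) (nat_lit 13))
    (@En.n l564 (nat_lit 13978) (nat_lit 8) (nat_lit 13))
    (@En.n l7 (nat_lit 13493) (nat_lit 8) (nat_lit 2))
    (@En.n l28 (nat_lit 12978) (nat_lit 9) (nat_lit 4))
    (@En.i (nat_lit 13468) (nat_lit 11) (nat_lit 14))
    (@En.n l4404 (nat_lit 13440) (nat_lit 12) (nat_lit 7))
    (@En.i (nat_lit 13495) (nat_lit 13) (nat_lit 9))
    (@En.n l2653 (nat_lit 1126) (nat_lit 14) (nat_lit 12))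
    (@En.n l107 (nat_lit 13493) (nat_lit 14) (nat_lit 2))
    (@En.n l3 (nat_lit 13493) (nat_lit 15) (nat_lit 2))))
  (@Cl.mk (nat_lit 0x20002000c00080007000e00040002000e000d0002000800030009000e000e) (nat_lit 0x1305008a0405ab) (nat_lit 16) Lb.e (@T16.mk En
    (@En.n l143 (nat_lit 13494) (nat_lit 1) (nat_lit 14))
    (@En.i (nat_lit 4108) (nat_lit 12) (nat_lit 14))
    (@En.n l3986 (nat_lit 13248) (nat_lit 2) (nat_lit 9))
    (@En.n l1574 (nat_lit 13493) (nat_lit 3) (nat_lit 3))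
    (@En.n l356 (nat_lit 12996) (nat_lit 4) (nat_lit 8))
    (@En.n l3 (nat_lit 13494) (nat_lit 5) (nat_lit 2))
    (@En.n l681 (nat_lit 13493) (nat_lit 7) (nat_lit 13))
    (@En.i (nat_lit 13849) (nat_lit 8) (nat_lit 14))
    (@En.n l17 (nat_lit 13494) (nat_lit 8) (nat_lit 2))
    (@En.n l5535 (nat_lit 12981) (nat_lit 9) (nat_lit 4))
    (@En.n l521 (nat_lit 13467) (nat_lit 11) (nat_lit 14))
    (@En.n l5536 (nat_lit 13441) (nat_lit 12) (nat_lit 7))
    (@En.n l452 (nat_lit 13496) (nat_lit 13) (nat_lit 8))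
    (@En.n l453 (nat_lit 1124) (nat_lit 8) (nat_lit 12))
    (@En.n l142 (nat_lit 13494) (nat_lit 14) (nat_lit 2))
    (@En.n l28 (nat_lit 13494) (nat_lit 15) (nat_lit 2))))
  (@Cl.mk (nat_lit 0x2000200090006000e000b0002000c000c0007000500040004000a000e000e) (nat_lit 0x208403800003bc) (nat_lit 16) Lb.e (@T16.mk En
    (@En.n l97 (nat_lit 13495) (nat_lit 1) (nat_lit 14))
    (@En.i (nat_lit 3728) (nat_lit 8) (nat_lit 14))
    (@En.n l1466 (nat_lit 13351) (nat_lit 2) (nat_lit 10))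
    (@En.n l12667 (nat_lit 13496) (nat_lit 3) (nat_lit 4))
    (@En.n l12668 (nat_lit 13500) (nat_lit 4) (nat_lit 4))
    (@En.i (nat_lit 13160) (nat_lit 5) (nat_lit 5))
    (@En.n l357 (nat_lit 13287) (nat_lit 6) (nat_lit 7))
    (@En.n l61 (nat_lit 13497) (nat_lit 8) (nat_lit 12))
    (@En.n l564 (nat_lit 13499) (nat_lit 9) (nat_lit 12))
    (@En.n l7 (nat_lit 13495) (nat_lit 9) (nat_lit 2))
    (@En.i (nat_lit 13502) (nat_lit 11) (nat_lit 11))
    (@En.n l4019 (nat_lit 13389) (nat_lit 12) (nat_lit 14))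
    (@En.n l12668 (nat_lit 13718) (nat_lit 13) (nat_lit 6))
    (@En.n l4019 (nat_lit 1623) (nat_lit 14) (nat_lit 9))
    (@En.n l107 (nat_lit 13495) (nat_lit 14) (nat_lit 2))
    (@En.n l3 (nat_lit 13495) (nat_lit 15) (nat_lit 2))))
  (@Cl.mk (nat_lit 0x2000200080006000e000a0002000e000c0002000800060004000a000e000e) (nat_lit 0x203608405002bc) (nat_lit 16) Lb.e (@T16.mk En
    (@En.n l5 (nat_lit 13496) (nat_lit 1) (nat_lit 14))
    (@En.n l420 (nat_lit 3725) (nat_lit 11) (nat_lit 14))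
    (@En.n l13764 (nat_lit 13593) (nat_lit 2) (nat_lit 10))
    (@En.i (nat_lit 13504) (nat_lit 3) (nat_lit 4))
    (@En.n l13765 (nat_lit 13169) (nat_lit 4) (nat_lit 6))
    (@En.n l13766 (nat_lit 13293) (nat_lit 5) (nat_lit 8))
    (@En.n l11 (nat_lit 13496) (nat_lit 6) (nat_lit 2))
    (@En.n l5171 (nat_lit 13495) (nat_lit 8) (nat_lit 12))
    (@En.n l1571 (nat_lit 13349) (nat_lit 9) (nat_lit 14))
    (@En.n l3 (nat_lit 13496) (nat_lit 9) (nat_lit 2))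
    (@En.n l12916 (nat_lit 13591) (nat_lit 11) (nat_lit 10))
    (@En.n l420 (nat_lit 13390) (nat_lit 12) (nat_lit 14))
    (@En.i (nat_lit 13724) (nat_lit 13) (nat_lit 6))
    (@En.n l420 (nat_lit 1625) (nat_lit 14) (nat_lit 8))
    (@En.n l17 (nat_lit 13496) (nat_lit 14) (nat_lit 2))
    (@En.n l18 (nat_lit 13496) (nat_lit 15) (nat_lit 2))))
  (@Cl.mk (nat_lit 0x20002000a0006000e000c0002000c00060004000e00040002000a000e000e) (nat_lit 0x20940700a004bc) (nat_lit 16) Lb.e (@T16.mk En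
    (@En.n l97 (nat_lit 13497) (nat_lit 1) (nat_lit 14))
    (@En.i (nat_lit 3730) (nat_lit 8) (nat_lit 14))
    (@En.n l1660 (nat_lit 13498) (nat_lit 2) (nat_lit 10))
    (@En.n l17 (nat_lit 13497) (nat_lit 3) (nat_lit 2))
    (@En.i (nat_lit 13495) (nat_lit 4) (nat_lit 4))
    (@En.i (nat_lit 13416) (nat_lit 6) (nat_lit 14))
    (@En.i (nat_lit 13159) (nat_lit 6) (nat_lit 4))
    (@En.n l357 (nat_lit 12948) (nat_lit 7) (nat_lit 6))
    (@En.n l3699 (nat_lit 13162) (nat_lit 9) (nat_lit 12))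
    (@En.n l7 (nat_lit 13497) (nat_lit 9) (nat_lit 2))
    (@En.n l644 (nat_lit 13501) (nat_lit 11) (nat_lit 12))
    (@En.i (nat_lit 13391) (nat_lit 12) (nat_lit 14))
    (@En.n l357 (nat_lit 13730) (nat_lit 13) (nat_lit 6))
    (@En.i (nat_lit 1611) (nat_lit 14) (nat_lit 10))
    (@En.n l107 (nat_lit 13497) (nat_lit 14) (nat_lit 2))
    (@En.n l3 (nat_lit 13497) (nat_lit 15) (nat_lit 2))))
  (@Cl.mk (nat_lit 0x20002000900060009000e000c0002000c0007000400070004000a000e000e) (nat_lit 0x304950800003bc) (nat_lit 16) Lb.e (@T16.mk En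
    (@En.n l5 (nat_lit 13498) (nat_lit 1) (nat_lit 14))
    (@En.n l420 (nat_lit 2211) (nat_lit 9) (nat_lit 14))
    (@En.n l25517 (nat_lit 13534) (nat_lit 2) (nat_lit 10))
    (@En.n l28 (nat_lit 13351) (nat_lit 3) (nat_lit 4))
    (@En.i (nat_lit 13949) (nat_lit 4) (nat_lit 7))
    (@En.n l1385 (nat_lit 13162) (nat_lit 5) (nat_lit 4))
    (@En.i (nat_lit 714) (nat_lit 6) (nat_lit 7))
    (@En.n l25518 (nat_lit 13167) (nat_lit 8) (nat_lit 12))
    (@En.n l107 (nat_lit 13498) (nat_lit 8) (nat_lit 2))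
    (@En.n l25519 (nat_lit 13499) (nat_lit 10) (nat_lit 12))
    (@En.n l5192 (nat_lit 13495) (nat_lit 11) (nat_lit 14))
    (@En.n l8 (nat_lit 13405) (nat_lit 12) (nat_lit 9))
    (@En.i (nat_lit 13729) (nat_lit 13) (nat_lit 6))
    (@En.n l420 (nat_lit 1473) (nat_lit 14) (nat_lit 9))
    (@En.n l17 (nat_lit 13498) (nat_lit 14) (nat_lit 2))
    (@En.n l18 (nat_lit 13498) (nat_lit 15) (nat_lit 2))))
  (@Cl.mk (nat_lit 0x20002000a00060009000c000c000b00060004000400070005000a000e000e) (nat_lit 0x405427000004bc) (nat_lit 16) Lb.e (@T16.mk En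
    (@En.n l97 (nat_lit 13499) (nat_lit 1) (nat_lit 14))
    (@En.n l4839 (nat_lit 2213) (nat_lit 1) (nat_lit 14))
    (@En.n l4803 (nat_lit 13346) (nat_lit 2) (nat_lit 10))
    (@En.n l4839 (nat_lit 13344) (nat_lit 3) (nat_lit 5))
    (@En.n l12572 (nat_lit 13498) (nat_lit 4) (nat_lit 7))
    (@En.n l12573 (nat_lit 13498) (nat_lit 5) (nat_lit 4))
    (@En.i (nat_lit 13163) (nat_lit 6) (nat_lit 4))
    (@En.n l4839 (nat_lit 716) (nat_lit 7) (nat_lit 6))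
    (@En.n l2337 (nat_lit 13166) (nat_lit 9) (nat_lit 11))
    (@En.n l601 (nat_lit 13563) (nat_lit 10) (nat_lit 12))
    (@En.n l617 (nat_lit 13562) (nat_lit 11) (nat_lit 12))
    (@En.i (nat_lit 13403) (nat_lit 12) (nat_lit 9))
    (@En.n l12574 (nat_lit 13728) (nat_lit 13) (nat_lit 6))
    (@En.i (nat_lit 1474) (nat_lit 14) (nat_lit 10))
    (@En.n l107 (nat_lit 13499) (nat_lit 14) (nat_lit 2))
    (@En.n l3 (nat_lit 13499) (nat_lit 15) (nat_lit 2))))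
  (@Cl.mk (nat_lit 0x2000200080006000e000d0002000c0003000d000800040003000a000e000e) (nat_lit 0x1049060b1003bc) (nat_lit 16) Lb.e (@T16.mk En
    (@En.n l5 (nat_lit 13500) (nat_lit 1) (nat_lit 14))
    (@En.n l420 (nat_lit 3732) (nat_lit 8) (nat_lit 14))
    (@En.n l1599 (nat_lit 13505) (nat_lit 2) (nat_lit 10))
    (@En.n l28 (nat_lit 13520) (nat_lit 3) (nat_lit 3))
    (@En.n l108 (nat_lit 13497) (nat_lit 4) (nat_lit 4))
    (@En.i (nat_lit 13286) (nat_lit 5) (nat_lit 8))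
    (@En.n l4869 (nat_lit 13414) (nat_lit 7) (nat_lit 13))
    (@En.n l117 (nat_lit 13503) (nat_lit 7) (nat_lit 3))
    (@En.i (nat_lit 13498) (nat_lit 9) (nat_lit 12))
    (@En.n l3 (nat_lit 13500) (nat_lit 9) (nat_lit 2))
    (@En.i (nat_lit 13503) (nat_lit 11) (nat_lit 13))
    (@En.n l420 (nat_lit 13835) (nat_lit 12) (nat_lit 14))
    (@En.i (nat_lit 13682) (nat_lit 13) (nat_lit 6))
    (@En.n l420 (nat_lit 1142) (nat_lit 14) (nat_lit 8))
    (@En.n l17 (nat_lit 13500) (nat_lit 14) (nat_lit 2))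
    (@En.n l18 (nat_lit 13500) (nat_lit 15) (nat_lit 2))))
  (@Cl.mk (nat_lit 0x20002000b0006000c000c000b000500040004000e00050002000a000e000e) (nat_lit 0x30312000a005bc) (nat_lit 16) Lb.e (@T16.mk En
    (@En.n l97 (nat_lit 13501) (nat_lit 1) (nat_lit 14))
    (@En.i (nat_lit 2648) (nat_lit 1) (nat_lit 14))
    (@En.i (nat_lit 13499) (nat_lit 2) (nat_lit 10))
    (@En.n l17 (nat_lit 13501) (nat_lit 3) (nat_lit 2))
    (@En.n l50 (nat_lit 13502) (nat_lit 4) (nat_lit 5))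
    (@En.n l3786 (nat_lit 13581) (nat_lit 6) (nat_lit 14))
    (@En.n l3787 (nat_lit 13497) (nat_lit 6) (nat_lit 4))
    (@En.i (nat_lit 13156) (nat_lit 7) (nat_lit 4))
    (@En.i (nat_lit 12949) (nat_lit 8) (nat_lit 5))
    (@En.n l2337 (nat_lit 13160) (nat_lit 10) (nat_lit 11))
    (@En.n l601 (nat_lit 677) (nat_lit 11) (nat_lit 12))
    (@En.n l28 (nat_lit 13475) (nat_lit 12) (nat_lit 12))
    (@En.n l105 (nat_lit 13719) (nat_lit 13) (nat_lit 6))
    (@En.i (nat_lit 1676) (nat_lit 14) (nat_lit 11))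
    (@En.n l107 (nat_lit 13501) (nat_lit 14) (nat_lit 2))
    (@En.n l3 (nat_lit 13501) (nat_lit 15) (nat_lit 2))))
  (@Cl.mk (nat_lit 0x20002000a0006000b000b000b000b00060005000500050005000a000e000e) (nat_lit 0x203523000004bc) (nat_lit 16) Lb.e (@T16.mk En
    (@En.n l97 (nat_lit 13502) (nat_lit 1) (nat_lit 14))
    (@En.i (nat_lit 2651) (nat_lit 1) (nat_lit 14))
    (@En.n l4808 (nat_lit 13344) (nat_lit 2) (nat_lit 10))
    (@En.n l1778 (nat_lit 13591) (nat_lit 3) (nat_lit 5))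
    (@En.n l2172 (nat_lit 13576) (nat_lit 4) (nat_lit 5))
    (@En.n l77 (nat_lit 13495) (nat_lit 5) (nat_lit 5))
    (@En.i (nat_lit 287) (nat_lit 6) (nat_lit 5))
    (@En.n l357 (nat_lit 13155) (nat_lit 7) (nat_lit 6))
    (@En.n l742 (nat_lit 13501) (nat_lit 9) (nat_lit 11))
    (@En.n l396 (nat_lit 13562) (nat_lit 10) (nat_lit 11))
    (@En.n l6367 (nat_lit 13590) (nat_lit 11) (nat_lit 11))
    (@En.n l28 (nat_lit 13715) (nat_lit 12) (nat_lit 11))
    (@En.n l357 (nat_lit 13720) (nat_lit 13) (nat_lit 6))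
    (@En.n l1347 (nat_lit 1576) (nat_lit 14) (nat_lit 10))
    (@En.n l107 (nat_lit 13502) (nat_lit 14) (nat_lit 2))
    (@En.n l3 (nat_lit 13502) (nat_lit 15) (nat_lit 2))))
  (@Cl.mk (nat_lit 0x2000200080006000d000d000b00030003000d000800050003000a000e000e) (nat_lit 0x108a500b1002bc) (nat_lit 16) Lb.e (@T16.mk En
    (@En.n l5 (nat_lit 13503) (nat_lit 1) (nat_lit 14))
    (@En.n l420 (nat_lit 3877) (nat_lit 1) (nat_lit 14))
    (@En.n l2110 (nat_lit 13506) (nat_lit 2) (nat_lit 10))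
    (@En.n l28 (nat_lit 13519) (nat_lit 3) (nat_lit 3))
    (@En.n l4413 (nat_lit 13501) (nat_lit 4) (nat_lit 5))
    (@En.i (nat_lit 13284) (nat_lit 5) (nat_lit 8))
    (@En.n l476 (nat_lit 13418) (nat_lit 7) (nat_lit 13))
    (@En.n l152 (nat_lit 13500) (nat_lit 7) (nat_lit 3))
    (@En.n l4413 (nat_lit 13523) (nat_lit 8) (nat_lit 3))
    (@En.n l5192 (nat_lit 13495) (nat_lit 10) (nat_lit 11))
    (@En.n l4971 (nat_lit 13523) (nat_lit 11) (nat_lit 13))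
    (@En.i (nat_lit 13799) (nat_lit 12) (nat_lit 13))
    (@En.i (nat_lit 13434) (nat_lit 13) (nat_lit 6))
    (@En.n l420 (nat_lit 1138) (nat_lit 14) (nat_lit 8))
    (@En.n l17 (nat_lit 13503) (nat_lit 14) (nat_lit 2))
    (@En.n l18 (nat_lit 13503) (nat_lit 15) (nat_lit 2))))
noncomputable def a844 : T16 Cl := @T16.mk Cl
  (@Cl.mk (nat_lit 0x2000200070006000e000c0002000d000c0004000300090004000a000e000e) (nat_lit 0x460770020123) (nat_lit 16) Lb.e (@T16.mk En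
    (@En.n l5 (nat_lit 13504) (nat_lit 1) (nat_lit 14))
    (@En.n l420 (nat_lit 3808) (nat_lit 1) (nat_lit 14))
    (@En.n l7 (nat_lit 243) (nat_lit 2) (nat_lit 10))
    (@En.n l108 (nat_lit 13495) (nat_lit 3) (nat_lit 4))
    (@En.n l6295 (nat_lit 13292) (nat_lit 4) (nat_lit 9))
    (@En.n l11 (nat_lit 13520) (nat_lit 5) (nat_lit 3))
    (@En.i (nat_lit 13509) (nat_lit 6) (nat_lit 4))
    (@En.n l55 (nat_lit 13500) (nat_lit 8) (nat_lit 12))
    (@En.n l1571 (nat_lit 13506) (nat_lit 9) (nat_lit 13))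
    (@En.n l3 (nat_lit 13504) (nat_lit 9) (nat_lit 2))
    (@En.i (nat_lit 13514) (nat_lit 11) (nat_lit 12))
    (@En.n l420 (nat_lit 13836) (nat_lit 12) (nat_lit 14))
    (@En.i (nat_lit 13683) (nat_lit 13) (nat_lit 6))
    (@En.n l420 (nat_lit 319) (nat_lit 14) (nat_lit 7))
    (@En.n l17 (nat_lit 13504) (nat_lit 14) (nat_lit 2))
    (@En.n l18 (nat_lit 13504) (nat_lit 15) (nat_lit 2))))
  (@Cl.mk (nat_lit 0x2000200070006000a000e000d0002000c0003000600090004000a000e000e) (nat_lit 0x857070070223) (nat_lit 16) Lb.e (@T16.mk En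
    (@En.n l5 (nat_lit 13505) (nat_lit 1) (nat_lit 14))
    (@En.n l420 (nat_lit 566) (nat_lit 9) (nat_lit 14))
    (@En.n l11680 (nat_lit 262) (nat_lit 2) (nat_lit 10))
    (@En.i (nat_lit 13498) (nat_lit 3) (nat_lit 4))
    (@En.n l4670 (nat_lit 13288) (nat_lit 4) (nat_lit 9))
    (@En.i (nat_lit 13946) (nat_lit 5) (nat_lit 6))
    (@En.n l1571 (nat_lit 13506) (nat_lit 6) (nat_lit 3))
    (@En.n l4869 (nat_lit 13534) (nat_lit 8) (nat_lit 12))
    (@En.n l107 (nat_lit 13505) (nat_lit 8) (nat_lit 2))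
    (@En.n l4670 (nat_lit 13506) (nat_lit 10) (nat_lit 13))
    (@En.n l619 (nat_lit 13504) (nat_lit 11) (nat_lit 14))
    (@En.n l8 (nat_lit 275) (nat_lit 12) (nat_lit 10))
    (@En.i (nat_lit 271) (nat_lit 13) (nat_lit 6))
    (@En.n l420 (nat_lit 397) (nat_lit 14) (nat_lit 7))
    (@En.n l17 (nat_lit 13505) (nat_lit 14) (nat_lit 2))
    (@En.n l18 (nat_lit 13505) (nat_lit 15) (nat_lit 2))))
  (@Cl.mk (nat_lit 0x2000200070006000a000d000d000b00030003000600090005000a000e000e) (nat_lit 0x866600070123) (nat_lit 16) Lb.e (@T16.mk En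
    (@En.n l601 (nat_lit 13506) (nat_lit 1) (nat_lit 14))
    (@En.i (nat_lit 564) (nat_lit 1) (nat_lit 14))
    (@En.n l649 (nat_lit 245) (nat_lit 2) (nat_lit 10))
    (@En.n l728 (nat_lit 13499) (nat_lit 3) (nat_lit 5))
    (@En.i (nat_lit 13262) (nat_lit 4) (nat_lit 9))
    (@En.n l4824 (nat_lit 13505) (nat_lit 5) (nat_lit 6))
    (@En.n l12610 (nat_lit 13505) (nat_lit 6) (nat_lit 3))
    (@En.n l12611 (nat_lit 13507) (nat_lit 7) (nat_lit 3))
    (@En.n l2138 (nat_lit 13351) (nat_lit 9) (nat_lit 11))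
    (@En.n l12612 (nat_lit 13507) (nat_lit 10) (nat_lit 13))
    (@En.n l12613 (nat_lit 13509) (nat_lit 11) (nat_lit 13))
    (@En.n l4825 (nat_lit 274) (nat_lit 12) (nat_lit 10))
    (@En.n l2138 (nat_lit 272) (nat_lit 13) (nat_lit 6))
    (@En.i (nat_lit 389) (nat_lit 14) (nat_lit 7))
    (@En.n l50 (nat_lit 13506) (nat_lit 14) (nat_lit 2))
    (@En.n l7 (nat_lit 13506) (nat_lit 15) (nat_lit 2))))
  (@Cl.mk (nat_lit 0x2000200070006000a000d000a000e00030002000600090006000a000e000e) (nat_lit 0x855700010123) (nat_lit 16) Lb.e (@T16.mk En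
    (@En.n l5 (nat_lit 13507) (nat_lit 1) (nat_lit 14))
    (@En.n l420 (nat_lit 565) (nat_lit 11) (nat_lit 14))
    (@En.n l25975 (nat_lit 246) (nat_lit 2) (nat_lit 10))
    (@En.n l26372 (nat_lit 13563) (nat_lit 3) (nat_lit 6))
    (@En.n l25975 (nat_lit 13263) (nat_lit 4) (nat_lit 9))
    (@En.n l26373 (nat_lit 13506) (nat_lit 5) (nat_lit 6))
    (@En.n l107 (nat_lit 13507) (nat_lit 6) (nat_lit 2))
    (@En.n l26374 (nat_lit 13506) (nat_lit 7) (nat_lit 3))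
    (@En.i (nat_lit 13946) (nat_lit 9) (nat_lit 14))
    (@En.n l26375 (nat_lit 13349) (nat_lit 10) (nat_lit 10))
    (@En.i (nat_lit 13510) (nat_lit 11) (nat_lit 13))
    (@En.n l8 (nat_lit 13508) (nat_lit 12) (nat_lit 10))
    (@En.i (nat_lit 273) (nat_lit 13) (nat_lit 6))
    (@En.n l4869 (nat_lit 390) (nat_lit 6) (nat_lit 7))
    (@En.n l17 (nat_lit 13507) (nat_lit 14) (nat_lit 2))
    (@En.n l18 (nat_lit 13507) (nat_lit 15) (nat_lit 2))))
  (@Cl.mk (nat_lit 0x200020007000a000d0009000e000300020006000d000900070003000e000e) (nat_lit 0x7b66000a20023) (nat_lit 16) Lb.e (@T16.mk En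
    (@En.n l5 (nat_lit 13508) (nat_lit 1) (nat_lit 14))
    (@En.n l564 (nat_lit 641) (nat_lit 1) (nat_lit 14))
    (@En.n l7 (nat_lit 273) (nat_lit 2) (nat_lit 3))
    (@En.n l10295 (nat_lit 13404) (nat_lit 3) (nat_lit 7))
    (@En.i (nat_lit 13507) (nat_lit 4) (nat_lit 9))
    (@En.n l10295 (nat_lit 13523) (nat_lit 6) (nat_lit 13))
    (@En.n l4870 (nat_lit 274) (nat_lit 6) (nat_lit 6))
    (@En.n l107 (nat_lit 13508) (nat_lit 7) (nat_lit 2))
    (@En.n l7706 (nat_lit 274) (nat_lit 8) (nat_lit 3))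
    (@En.i (nat_lit 13945) (nat_lit 10) (nat_lit 14))
    (@En.n l12743 (nat_lit 13543) (nat_lit 11) (nat_lit 9))
    (@En.i (nat_lit 13687) (nat_lit 12) (nat_lit 13))
    (@En.i (nat_lit 13083) (nat_lit 13) (nat_lit 10))
    (@En.i (nat_lit 391) (nat_lit 5) (nat_lit 7))
    (@En.n l17 (nat_lit 13508) (nat_lit 14) (nat_lit 2))
    (@En.n l18 (nat_lit 13508) (nat_lit 15) (nat_lit 2))))
  (@Cl.mk (nat_lit 0x2000200070006000d000c000a0003000e0004000200090006000a000e000e) (nat_lit 0x557080040123) (nat_lit 16) Lb.e (@T16.mk En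
    (@En.n l5 (nat_lit 13509) (nat_lit 1) (nat_lit 14))
    (@En.n l420 (nat_lit 3805) (nat_lit 12) (nat_lit 14))
    (@En.n l26144 (nat_lit 238) (nat_lit 2) (nat_lit 10))
    (@En.n l12126 (nat_lit 13562) (nat_lit 3) (nat_lit 6))
    (@En.n l13818 (nat_lit 14036) (nat_lit 4) (nat_lit 9))
    (@En.n l11 (nat_lit 13509) (nat_lit 5) (nat_lit 2))
    (@En.n l117 (nat_lit 13514) (nat_lit 6) (nat_lit 4))
    (@En.n l2691 (nat_lit 13507) (nat_lit 8) (nat_lit 14))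
    (@En.n l936 (nat_lit 13510) (nat_lit 8) (nat_lit 3))
    (@En.i (nat_lit 13496) (nat_lit 10) (nat_lit 10))
    (@En.n l936 (nat_lit 13511) (nat_lit 11) (nat_lit 12))
    (@En.n l26144 (nat_lit 13907) (nat_lit 12) (nat_lit 13))
    (@En.i (nat_lit 13684) (nat_lit 13) (nat_lit 6))
    (@En.n l420 (nat_lit 323) (nat_lit 14) (nat_lit 7))
    (@En.n l17 (nat_lit 13509) (nat_lit 14) (nat_lit 2))
    (@En.n l18 (nat_lit 13509) (nat_lit 15) (nat_lit 2))))
  (@Cl.mk (nat_lit 0x2000200070006000d0009000d0003000e0003000200090007000a000e000e) (nat_lit 0x457080040123) (nat_lit 16) Lb.e (@T16.mk En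
    (@En.n l5 (nat_lit 13510) (nat_lit 1) (nat_lit 14))
    (@En.n l420 (nat_lit 3800) (nat_lit 12) (nat_lit 14))
    (@En.n l4869 (nat_lit 237) (nat_lit 2) (nat_lit 10))
    (@En.n l40100 (nat_lit 659) (nat_lit 3) (nat_lit 7))
    (@En.n l4869 (nat_lit 14037) (nat_lit 4) (nat_lit 9))
    (@En.n l11 (nat_lit 13510) (nat_lit 5) (nat_lit 2))
    (@En.n l117 (nat_lit 13511) (nat_lit 6) (nat_lit 3))
    (@En.n l11680 (nat_lit 13948) (nat_lit 0) (nat_lit 14))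
    (@En.n l2576 (nat_lit 13509) (nat_lit 8) (nat_lit 3))
    (@En.i (nat_lit 13520) (nat_lit 10) (nat_lit 13))
    (@En.n l476 (nat_lit 13512) (nat_lit 11) (nat_lit 9))
    (@En.n l4869 (nat_lit 13908) (nat_lit 12) (nat_lit 13))
    (@En.i (nat_lit 13685) (nat_lit 13) (nat_lit 6))
    (@En.n l4869 (nat_lit 329) (nat_lit 14) (nat_lit 7))
    (@En.n l17 (nat_lit 13510) (nat_lit 14) (nat_lit 2))
    (@En.n l18 (nat_lit 13510) (nat_lit 15) (nat_lit 2))))
  (@Cl.mk (nat_lit 0x2000200070006000c0009000d000d00040003000300090007000a000e000e) (nat_lit 0x455800030123) (nat_lit 16) Lb.e (@T16.mk En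
    (@En.n l5 (nat_lit 13511) (nat_lit 1) (nat_lit 14))
    (@En.n l420 (nat_lit 3799) (nat_lit 1) (nat_lit 14))
    (@En.n l2090 (nat_lit 239) (nat_lit 2) (nat_lit 10))
    (@En.n l4526 (nat_lit 288) (nat_lit 3) (nat_lit 7))
    (@En.n l5022 (nat_lit 14040) (nat_lit 4) (nat_lit 9))
    (@En.n l4528 (nat_lit 13515) (nat_lit 5) (nat_lit 3))
    (@En.n l152 (nat_lit 13510) (nat_lit 6) (nat_lit 3))
    (@En.n l28462 (nat_lit 13518) (nat_lit 7) (nat_lit 4))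
    (@En.n l619 (nat_lit 13510) (nat_lit 9) (nat_lit 13))
    (@En.i (nat_lit 13519) (nat_lit 10) (nat_lit 13))
    (@En.n l14681 (nat_lit 13513) (nat_lit 11) (nat_lit 9))
    (@En.n l28463 (nat_lit 13904) (nat_lit 12) (nat_lit 12))
    (@En.i (nat_lit 13680) (nat_lit 13) (nat_lit 6))
    (@En.n l420 (nat_lit 327) (nat_lit 14) (nat_lit 7))
    (@En.n l17 (nat_lit 13511) (nat_lit 14) (nat_lit 2))
    (@En.n l18 (nat_lit 13511) (nat_lit 15) (nat_lit 2))))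
  (@Cl.mk (nat_lit 0x20002000800060009000d000a000e00030002000800070006000a000e000e) (nat_lit 0x10466700400234) (nat_lit 16) Lb.e (@T16.mk En
    (@En.n l5 (nat_lit 13512) (nat_lit 1) (nat_lit 14))
    (@En.n l13398 (nat_lit 3684) (nat_lit 11) (nat_lit 14))
    (@En.i (nat_lit 13510) (nat_lit 2) (nat_lit 10))
    (@En.n l3549 (nat_lit 13509) (nat_lit 3) (nat_lit 6))
    (@En.n l26384 (nat_lit 284) (nat_lit 4) (nat_lit 7))
    (@En.n l26385 (nat_lit 13980) (nat_lit 5) (nat_lit 8))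
    (@En.n l11 (nat_lit 13512) (nat_lit 6) (nat_lit 2))
    (@En.n l25600 (nat_lit 13513) (nat_lit 7) (nat_lit 3))
    (@En.n l513 (nat_lit 13949) (nat_lit 9) (nat_lit 14))
    (@En.n l26386 (nat_lit 13591) (nat_lit 10) (nat_lit 10))
    (@En.i (nat_lit 13419) (nat_lit 11) (nat_lit 13))
    (@En.n l26387 (nat_lit 13761) (nat_lit 12) (nat_lit 9))
    (@En.i (nat_lit 13686) (nat_lit 13) (nat_lit 6))
    (@En.n l26388 (nat_lit 339) (nat_lit 14) (nat_lit 8))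
    (@En.n l17 (nat_lit 13512) (nat_lit 14) (nat_lit 2))
    (@En.n l18 (nat_lit 13512) (nat_lit 15) (nat_lit 2))))
  (@Cl.mk (nat_lit 0x20002000800060009000d000d000b00030003000800070005000a000e000e) (nat_lit 0x10447700300234) (nat_lit 16) Lb.e (@T16.mk En
    (@En.n l97 (nat_lit 13513) (nat_lit 1) (nat_lit 14))
    (@En.i (nat_lit 3686) (nat_lit 1) (nat_lit 14))
    (@En.n l1407 (nat_lit 13511) (nat_lit 2) (nat_lit 10))
    (@En.n l4492 (nat_lit 13514) (nat_lit 3) (nat_lit 5))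
    (@En.i (nat_lit 283) (nat_lit 4) (nat_lit 7))
    (@En.n l6446 (nat_lit 13979) (nat_lit 5) (nat_lit 8))
    (@En.n l18 (nat_lit 13516) (nat_lit 6) (nat_lit 3))
    (@En.n l12930 (nat_lit 13512) (nat_lit 7) (nat_lit 3))
    (@En.n l6444 (nat_lit 13576) (nat_lit 9) (nat_lit 11))
    (@En.n l11945 (nat_lit 13512) (nat_lit 10) (nat_lit 13))
    (@En.n l1407 (nat_lit 13522) (nat_lit 11) (nat_lit 13))
    (@En.n l2650 (nat_lit 13762) (nat_lit 12) (nat_lit 9))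
    (@En.n l4492 (nat_lit 13656) (nat_lit 13) (nat_lit 6))
    (@En.n l3219 (nat_lit 336) (nat_lit 14) (nat_lit 8))
    (@En.n l107 (nat_lit 13513) (nat_lit 14) (nat_lit 2))
    (@En.n l3 (nat_lit 13513) (nat_lit 15) (nat_lit 2))))
  (@Cl.mk (nat_lit 0x2000200070006000c000c000c000b00040004000400090005000a000e000e) (nat_lit 0x546600040123) (nat_lit 16) Lb.e (@T16.mk En
    (@En.n l5 (nat_lit 13514) (nat_lit 1) (nat_lit 14))
    (@En.n l420 (nat_lit 3806) (nat_lit 1) (nat_lit 14))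
    (@En.n l7 (nat_lit 240) (nat_lit 2) (nat_lit 10))
    (@En.n l108 (nat_lit 13502) (nat_lit 3) (nat_lit 5))
    (@En.n l6295 (nat_lit 13334) (nat_lit 4) (nat_lit 9))
    (@En.n l11 (nat_lit 13517) (nat_lit 5) (nat_lit 4))
    (@En.n l152 (nat_lit 13504) (nat_lit 6) (nat_lit 4))
    (@En.n l936 (nat_lit 13511) (nat_lit 7) (nat_lit 4))
    (@En.n l55 (nat_lit 13503) (nat_lit 9) (nat_lit 11))
    (@En.n l619 (nat_lit 13509) (nat_lit 10) (nat_lit 12))
    (@En.n l2873 (nat_lit 13518) (nat_lit 11) (nat_lit 12))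
    (@En.n l25607 (nat_lit 13905) (nat_lit 12) (nat_lit 12))
    (@En.i (nat_lit 13679) (nat_lit 13) (nat_lit 6))
    (@En.n l420 (nat_lit 321) (nat_lit 14) (nat_lit 7))
    (@En.n l17 (nat_lit 13514) (nat_lit 14) (nat_lit 2))
    (@En.n l18 (nat_lit 13514) (nat_lit 15) (nat_lit 2))))
  (@Cl.mk (nat_lit 0x2000200070006000b0009000e000d00020005000300090007000a000e000e) (nat_lit 0x5666000001bc) (nat_lit 16) Lb.e (@T16.mk En
    (@En.n l97 (nat_lit 13515) (nat_lit 1) (nat_lit 14))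
    (@En.n l725 (nat_lit 3894) (nat_lit 10) (nat_lit 14))
    (@En.n l17619 (nat_lit 242) (nat_lit 2) (nat_lit 10))
    (@En.i (nat_lit 289) (nat_lit 3) (nat_lit 7))
    (@En.n l8572 (nat_lit 13834) (nat_lit 4) (nat_lit 9))
    (@En.n l1407 (nat_lit 13511) (nat_lit 5) (nat_lit 3))
    (@En.n l8573 (nat_lit 13593) (nat_lit 6) (nat_lit 5))
    (@En.n l50 (nat_lit 13515) (nat_lit 7) (nat_lit 2))
    (@En.n l1406 (nat_lit 13511) (nat_lit 9) (nat_lit 13))
    (@En.n l1407 (nat_lit 13517) (nat_lit 10) (nat_lit 14))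
    (@En.n l725 (nat_lit 13516) (nat_lit 11) (nat_lit 9))
    (@En.i (nat_lit 13902) (nat_lit 12) (nat_lit 11))
    (@En.n l17620 (nat_lit 13672) (nat_lit 13) (nat_lit 6))
    (@En.n l8566 (nat_lit 1005) (nat_lit 5) (nat_lit 7))
    (@En.n l107 (nat_lit 13515) (nat_lit 14) (nat_lit 2))
    (@En.n l3 (nat_lit 13515) (nat_lit 15) (nat_lit 2))))
  (@Cl.mk (nat_lit 0x20002000800060009000e000d0002000c0003000800070004000a000e000e) (nat_lit 0x105550400002bc) (nat_lit 16) Lb.e (@T16.mk En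
    (@En.n l97 (nat_lit 13516) (nat_lit 1) (nat_lit 14))
    (@En.i (nat_lit 4001) (nat_lit 9) (nat_lit 14))
    (@En.i (nat_lit 13515) (nat_lit 2) (nat_lit 10))
    (@En.n l4492 (nat_lit 13517) (nat_lit 3) (nat_lit 4))
    (@En.i (nat_lit 285) (nat_lit 4) (nat_lit 7))
    (@En.n l2650 (nat_lit 13832) (nat_lit 5) (nat_lit 8))
    (@En.i (nat_lit 13513) (nat_lit 6) (nat_lit 3))
    (@En.i (nat_lit 13577) (nat_lit 8) (nat_lit 12))
    (@En.n l50 (nat_lit 13516) (nat_lit 8) (nat_lit 2))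
    (@En.n l396 (nat_lit 13513) (nat_lit 10) (nat_lit 13))
    (@En.n l4316 (nat_lit 13529) (nat_lit 11) (nat_lit 14))
    (@En.n l2650 (nat_lit 13763) (nat_lit 12) (nat_lit 9))
    (@En.n l4492 (nat_lit 13657) (nat_lit 13) (nat_lit 6))
    (@En.i (nat_lit 341) (nat_lit 14) (nat_lit 8))
    (@En.n l107 (nat_lit 13516) (nat_lit 14) (nat_lit 2))
    (@En.n l3 (nat_lit 13516) (nat_lit 15) (nat_lit 2))))
  (@Cl.mk (nat_lit 0x2000200070006000b000e000c0002000c0005000400090004000a000e000e) (nat_lit 0x4550700401bc) (nat_lit 16) Lb.e (@T16.mk En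
    (@En.n l5 (nat_lit 13517) (nat_lit 1) (nat_lit 14))
    (@En.n l420 (nat_lit 3892) (nat_lit 9) (nat_lit 14))
    (@En.n l7 (nat_lit 229) (nat_lit 2) (nat_lit 10))
    (@En.n l4413 (nat_lit 13576) (nat_lit 3) (nat_lit 4))
    (@En.n l8402 (nat_lit 13833) (nat_lit 4) (nat_lit 9))
    (@En.i (nat_lit 13519) (nat_lit 5) (nat_lit 4))
    (@En.n l4535 (nat_lit 13515) (nat_lit 6) (nat_lit 5))
    (@En.n l197 (nat_lit 13525) (nat_lit 8) (nat_lit 12))
    (@En.n l67 (nat_lit 13517) (nat_lit 8) (nat_lit 2))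
    (@En.n l68 (nat_lit 13514) (nat_lit 10) (nat_lit 12))
    (@En.n l8402 (nat_lit 13531) (nat_lit 11) (nat_lit 14))
    (@En.n l4980 (nat_lit 13903) (nat_lit 12) (nat_lit 11))
    (@En.i (nat_lit 13670) (nat_lit 13) (nat_lit 6))
    (@En.n l420 (nat_lit 1000) (nat_lit 14) (nat_lit 7))
    (@En.n l17 (nat_lit 13517) (nat_lit 14) (nat_lit 2))
    (@En.n l18 (nat_lit 13517) (nat_lit 15) (nat_lit 2))))
  (@Cl.mk (nat_lit 0x2000200070006000c000b000a000e00040002000500090006000a000e000e) (nat_lit 0x367800000123) (nat_lit 16) Lb.e (@T16.mk En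
    (@En.n l1578 (nat_lit 13518) (nat_lit 1) (nat_lit 14))
    (@En.i (nat_lit 3889) (nat_lit 11) (nat_lit 14))
    (@En.n l897 (nat_lit 244) (nat_lit 2) (nat_lit 10))
    (@En.n l6078 (nat_lit 13590) (nat_lit 3) (nat_lit 6))
    (@En.n l476 (nat_lit 13957) (nat_lit 4) (nat_lit 9))
    (@En.n l899 (nat_lit 13530) (nat_lit 5) (nat_lit 5))
    (@En.n l17 (nat_lit 13518) (nat_lit 6) (nat_lit 2))
    (@En.n l892 (nat_lit 13514) (nat_lit 7) (nat_lit 4))
    (@En.n l476 (nat_lit 13521) (nat_lit 9) (nat_lit 14))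
    (@En.n l5994 (nat_lit 13523) (nat_lit 10) (nat_lit 10))
    (@En.n l2089 (nat_lit 13515) (nat_lit 11) (nat_lit 11))
    (@En.n l1997 (nat_lit 12871) (nat_lit 12) (nat_lit 12))
    (@En.n l2878 (nat_lit 13668) (nat_lit 13) (nat_lit 6))
    (@En.i (nat_lit 907) (nat_lit 6) (nat_lit 7))
    (@En.n l28 (nat_lit 13518) (nat_lit 14) (nat_lit 2))
    (@En.n l11 (nat_lit 13518) (nat_lit 15) (nat_lit 2))))
  (@Cl.mk (nat_lit 0x2000200070006000d000d000c00030003000d000400090003000a000e000e) (nat_lit 0x54700b030123) (nat_lit 16) Lb.e (@T16.mk En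
    (@En.n l5 (nat_lit 13519) (nat_lit 1) (nat_lit 14))
    (@En.n l420 (nat_lit 3812) (nat_lit 1) (nat_lit 14))
    (@En.n l7 (nat_lit 247) (nat_lit 2) (nat_lit 10))
    (@En.i (nat_lit 13503) (nat_lit 3) (nat_lit 3))
    (@En.n l5022 (nat_lit 13009) (nat_lit 4) (nat_lit 9))
    (@En.i (nat_lit 13514) (nat_lit 5) (nat_lit 4))
    (@En.n l476 (nat_lit 13419) (nat_lit 7) (nat_lit 13))
    (@En.n l152 (nat_lit 13520) (nat_lit 7) (nat_lit 3))
    (@En.n l25349 (nat_lit 13521) (nat_lit 8) (nat_lit 3))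
    (@En.n l619 (nat_lit 13504) (nat_lit 10) (nat_lit 12))
    (@En.n l2873 (nat_lit 13521) (nat_lit 11) (nat_lit 13))
    (@En.i (nat_lit 13795) (nat_lit 12) (nat_lit 13))
    (@En.i (nat_lit 13435) (nat_lit 13) (nat_lit 6))
    (@En.n l420 (nat_lit 316) (nat_lit 14) (nat_lit 7))
    (@En.n l17 (nat_lit 13519) (nat_lit 14) (nat_lit 2))
    (@En.n l18 (nat_lit 13519) (nat_lit 15) (nat_lit 2))))
noncomputable def a845 : T16 Cl := @T16.mk Cl
  (@Cl.mk (nat_lit 0x2000200070006000e000d0002000d0003000d000300090003000a000e000e) (nat_lit 0x46080b020123) (nat_lit 16) Lb.e (@T16.mk En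
    (@En.n l5 (nat_lit 13520) (nat_lit 1) (nat_lit 14))
    (@En.n l420 (nat_lit 3811) (nat_lit 1) (nat_lit 14))
    (@En.n l7 (nat_lit 249) (nat_lit 2) (nat_lit 10))
    (@En.i (nat_lit 13500) (nat_lit 3) (nat_lit 3))
    (@En.i (nat_lit 13013) (nat_lit 4) (nat_lit 9))
    (@En.i (nat_lit 13504) (nat_lit 5) (nat_lit 3))
    (@En.n l4869 (nat_lit 13413) (nat_lit 7) (nat_lit 13))
    (@En.n l117 (nat_lit 13519) (nat_lit 7) (nat_lit 3))
    (@En.i (nat_lit 13505) (nat_lit 9) (nat_lit 13))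
    (@En.n l3 (nat_lit 13520) (nat_lit 9) (nat_lit 2))
    (@En.i (nat_lit 13519) (nat_lit 11) (nat_lit 13))
    (@En.n l420 (nat_lit 13837) (nat_lit 12) (nat_lit 14))
    (@En.i (nat_lit 13681) (nat_lit 13) (nat_lit 6))
    (@En.n l420 (nat_lit 318) (nat_lit 14) (nat_lit 7))
    (@En.n l17 (nat_lit 13520) (nat_lit 14) (nat_lit 2))
    (@En.n l18 (nat_lit 13520) (nat_lit 15) (nat_lit 2))))
  (@Cl.mk (nat_lit 0x2000200070006000d000b000e00030002000d000500090003000a000e000e) (nat_lit 0x35700b040123) (nat_lit 16) Lb.e (@T16.mk En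
    (@En.n l1578 (nat_lit 13521) (nat_lit 1) (nat_lit 14))
    (@En.i (nat_lit 3890) (nat_lit 1) (nat_lit 14))
    (@En.n l1997 (nat_lit 248) (nat_lit 2) (nat_lit 10))
    (@En.n l6078 (nat_lit 13523) (nat_lit 3) (nat_lit 3))
    (@En.i (nat_lit 13010) (nat_lit 4) (nat_lit 9))
    (@En.i (nat_lit 13518) (nat_lit 5) (nat_lit 5))
    (@En.n l2867 (nat_lit 13522) (nat_lit 7) (nat_lit 13))
    (@En.n l17 (nat_lit 13521) (nat_lit 7) (nat_lit 2))
    (@En.n l892 (nat_lit 13519) (nat_lit 8) (nat_lit 3))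
    (@En.n l1997 (nat_lit 14065) (nat_lit 10) (nat_lit 14))
    (@En.n l26319 (nat_lit 13517) (nat_lit 11) (nat_lit 11))
    (@En.n l1997 (nat_lit 13792) (nat_lit 12) (nat_lit 13))
    (@En.n l26319 (nat_lit 13678) (nat_lit 13) (nat_lit 6))
    (@En.i (nat_lit 908) (nat_lit 14) (nat_lit 7))
    (@En.n l28 (nat_lit 13521) (nat_lit 14) (nat_lit 2))
    (@En.n l11 (nat_lit 13521) (nat_lit 15) (nat_lit 2))))
  (@Cl.mk (nat_lit 0x2000200080006000d000c000a0003000d0004000800030006000a000e000e) (nat_lit 0x303970a0600234) (nat_lit 16) Lb.e (@T16.mk En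
    (@En.n l5 (nat_lit 13522) (nat_lit 1) (nat_lit 14))
    (@En.n l9004 (nat_lit 4284) (nat_lit 1) (nat_lit 14))
    (@En.i (nat_lit 13519) (nat_lit 2) (nat_lit 10))
    (@En.n l3432 (nat_lit 13518) (nat_lit 3) (nat_lit 6))
    (@En.n l24815 (nat_lit 13524) (nat_lit 4) (nat_lit 3))
    (@En.n l9004 (nat_lit 13775) (nat_lit 5) (nat_lit 8))
    (@En.n l27134 (nat_lit 13526) (nat_lit 6) (nat_lit 4))
    (@En.n l1690 (nat_lit 13420) (nat_lit 8) (nat_lit 13))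
    (@En.n l152 (nat_lit 13419) (nat_lit 8) (nat_lit 3))
    (@En.n l4980 (nat_lit 13532) (nat_lit 10) (nat_lit 10))
    (@En.n l619 (nat_lit 13525) (nat_lit 11) (nat_lit 12))
    (@En.n l25468 (nat_lit 13793) (nat_lit 12) (nat_lit 13))
    (@En.i (nat_lit 13676) (nat_lit 13) (nat_lit 6))
    (@En.n l420 (nat_lit 909) (nat_lit 14) (nat_lit 8))
    (@En.n l17 (nat_lit 13522) (nat_lit 14) (nat_lit 2))
    (@En.n l18 (nat_lit 13522) (nat_lit 15) (nat_lit 2))))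
  (@Cl.mk (nat_lit 0x2000200080006000d000a000e00030002000d000800060003000a000e000e) (nat_lit 0x209670093002bc) (nat_lit 16) Lb.e (@T16.mk En
    (@En.n l97 (nat_lit 13523) (nat_lit 1) (nat_lit 14))
    (@En.i (nat_lit 3876) (nat_lit 1) (nat_lit 14))
    (@En.n l26333 (nat_lit 13507) (nat_lit 2) (nat_lit 10))
    (@En.n l14727 (nat_lit 13521) (nat_lit 3) (nat_lit 3))
    (@En.i (nat_lit 677) (nat_lit 4) (nat_lit 6))
    (@En.n l14727 (nat_lit 13283) (nat_lit 5) (nat_lit 8))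
    (@En.n l14728 (nat_lit 13524) (nat_lit 7) (nat_lit 13))
    (@En.n l50 (nat_lit 13523) (nat_lit 7) (nat_lit 2))
    (@En.n l4796 (nat_lit 13503) (nat_lit 8) (nat_lit 3))
    (@En.n l4799 (nat_lit 14064) (nat_lit 10) (nat_lit 14))
    (@En.i (nat_lit 13576) (nat_lit 11) (nat_lit 10))
    (@En.n l4799 (nat_lit 13796) (nat_lit 12) (nat_lit 13))
    (@En.n l105 (nat_lit 13677) (nat_lit 13) (nat_lit 6))
    (@En.n l14727 (nat_lit 1141) (nat_lit 14) (nat_lit 8))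
    (@En.n l107 (nat_lit 13523) (nat_lit 14) (nat_lit 2))
    (@En.n l3 (nat_lit 13523) (nat_lit 15) (nat_lit 2))))
  (@Cl.mk (nat_lit 0x2000200090006000d000b000a0003000d0007000500030006000a000e000e) (nat_lit 0x10a460800003bc) (nat_lit 16) Lb.e (@T16.mk En
    (@En.n l97 (nat_lit 13524) (nat_lit 1) (nat_lit 14))
    (@En.i (nat_lit 4286) (nat_lit 1) (nat_lit 14))
    (@En.n l27013 (nat_lit 13503) (nat_lit 2) (nat_lit 10))
    (@En.n l13301 (nat_lit 13528) (nat_lit 3) (nat_lit 6))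
    (@En.n l4497 (nat_lit 13522) (nat_lit 4) (nat_lit 3))
    (@En.n l1927 (nat_lit 13583) (nat_lit 5) (nat_lit 5))
    (@En.n l27013 (nat_lit 13629) (nat_lit 6) (nat_lit 7))
    (@En.n l397 (nat_lit 13421) (nat_lit 8) (nat_lit 13))
    (@En.n l27014 (nat_lit 13418) (nat_lit 8) (nat_lit 3))
    (@En.n l61 (nat_lit 13587) (nat_lit 10) (nat_lit 10))
    (@En.n l6064 (nat_lit 13578) (nat_lit 11) (nat_lit 11))
    (@En.n l27015 (nat_lit 13797) (nat_lit 12) (nat_lit 13))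
    (@En.n l27013 (nat_lit 13675) (nat_lit 13) (nat_lit 6))
    (@En.n l5854 (nat_lit 1298) (nat_lit 14) (nat_lit 9))
    (@En.n l107 (nat_lit 13524) (nat_lit 14) (nat_lit 2))
    (@En.n l3 (nat_lit 13524) (nat_lit 15) (nat_lit 2))))
  (@Cl.mk (nat_lit 0x2000200080006000c0009000d000c00040003000800040007000a000e000e) (nat_lit 0x3086b600600234) (nat_lit 16) Lb.e (@T16.mk En
    (@En.n l5 (nat_lit 13525) (nat_lit 1) (nat_lit 14))
    (@En.n l12275 (nat_lit 4282) (nat_lit 1) (nat_lit 14))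
    (@En.i (nat_lit 13504) (nat_lit 2) (nat_lit 10))
    (@En.n l12075 (nat_lit 13515) (nat_lit 3) (nat_lit 7))
    (@En.n l23703 (nat_lit 13578) (nat_lit 4) (nat_lit 4))
    (@En.n l6295 (nat_lit 13631) (nat_lit 5) (nat_lit 8))
    (@En.n l11 (nat_lit 13419) (nat_lit 6) (nat_lit 3))
    (@En.n l25965 (nat_lit 13528) (nat_lit 7) (nat_lit 4))
    (@En.n l55 (nat_lit 13418) (nat_lit 9) (nat_lit 12))
    (@En.n l4750 (nat_lit 13503) (nat_lit 10) (nat_lit 13))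
    (@En.n l12276 (nat_lit 13527) (nat_lit 11) (nat_lit 9))
    (@En.n l25607 (nat_lit 13906) (nat_lit 12) (nat_lit 12))
    (@En.i (nat_lit 13674) (nat_lit 13) (nat_lit 6))
    (@En.n l420 (nat_lit 915) (nat_lit 14) (nat_lit 8))
    (@En.n l17 (nat_lit 13525) (nat_lit 14) (nat_lit 2))
    (@En.n l18 (nat_lit 13525) (nat_lit 15) (nat_lit 2))))
  (@Cl.mk (nat_lit 0x2000200080006000c000c000b000b00040004000800050005000a000e000e) (nat_lit 0x207857004002bc) (nat_lit 16) Lb.e (@T16.mk En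
    (@En.n l97 (nat_lit 13526) (nat_lit 1) (nat_lit 14))
    (@En.i (nat_lit 1218) (nat_lit 1) (nat_lit 14))
    (@En.n l21019 (nat_lit 13514) (nat_lit 2) (nat_lit 10))
    (@En.n l3180 (nat_lit 13530) (nat_lit 3) (nat_lit 5))
    (@En.n l18 (nat_lit 13582) (nat_lit 4) (nat_lit 5))
    (@En.n l4909 (nat_lit 13133) (nat_lit 5) (nat_lit 8))
    (@En.n l77 (nat_lit 13529) (nat_lit 6) (nat_lit 4))
    (@En.n l25892 (nat_lit 13525) (nat_lit 7) (nat_lit 4))
    (@En.n l5653 (nat_lit 13599) (nat_lit 9) (nat_lit 11))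
    (@En.n l601 (nat_lit 13524) (nat_lit 10) (nat_lit 11))
    (@En.i (nat_lit 13528) (nat_lit 11) (nat_lit 12))
    (@En.i (nat_lit 12868) (nat_lit 12) (nat_lit 12))
    (@En.n l21019 (nat_lit 13655) (nat_lit 13) (nat_lit 6))
    (@En.n l9926 (nat_lit 991) (nat_lit 14) (nat_lit 8))
    (@En.n l107 (nat_lit 13526) (nat_lit 14) (nat_lit 2))
    (@En.n l3 (nat_lit 13526) (nat_lit 15) (nat_lit 2))))
  (@Cl.mk (nat_lit 0x20002000900060009000d000c000b00030007000400070005000a000e000e) (nat_lit 0x105b57000003bc) (nat_lit 16) Lb.e (@T16.mk En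
    (@En.n l97 (nat_lit 13527) (nat_lit 1) (nat_lit 14))
    (@En.i (nat_lit 4288) (nat_lit 1) (nat_lit 14))
    (@En.n l7042 (nat_lit 13525) (nat_lit 2) (nat_lit 10))
    (@En.n l11386 (nat_lit 13526) (nat_lit 3) (nat_lit 5))
    (@En.n l1723 (nat_lit 13516) (nat_lit 4) (nat_lit 7))
    (@En.n l6042 (nat_lit 13580) (nat_lit 5) (nat_lit 4))
    (@En.n l2869 (nat_lit 13630) (nat_lit 6) (nat_lit 7))
    (@En.n l18540 (nat_lit 13420) (nat_lit 7) (nat_lit 3))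
    (@En.n l6444 (nat_lit 13584) (nat_lit 9) (nat_lit 11))
    (@En.n l5838 (nat_lit 13421) (nat_lit 10) (nat_lit 12))
    (@En.n l601 (nat_lit 13524) (nat_lit 11) (nat_lit 13))
    (@En.n l2031 (nat_lit 13176) (nat_lit 12) (nat_lit 9))
    (@En.n l12534 (nat_lit 13658) (nat_lit 13) (nat_lit 6))
    (@En.n l2869 (nat_lit 919) (nat_lit 14) (nat_lit 9))
    (@En.n l107 (nat_lit 13527) (nat_lit 14) (nat_lit 2))
    (@En.n l3 (nat_lit 13527) (nat_lit 15) (nat_lit 2))))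
  (@Cl.mk (nat_lit 0x2000200080006000c000a000a000e00040002000800060006000a000e000e) (nat_lit 0x107468005002bc) (nat_lit 16) Lb.e (@T16.mk En
    (@En.n l97 (nat_lit 13528) (nat_lit 1) (nat_lit 14))
    (@En.i (nat_lit 2993) (nat_lit 11) (nat_lit 14))
    (@En.n l40096 (nat_lit 13509) (nat_lit 2) (nat_lit 10))
    (@En.n l15919 (nat_lit 13593) (nat_lit 3) (nat_lit 6))
    (@En.n l15912 (nat_lit 13588) (nat_lit 4) (nat_lit 6))
    (@En.n l26125 (nat_lit 13134) (nat_lit 5) (nat_lit 8))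
    (@En.n l7 (nat_lit 13528) (nat_lit 6) (nat_lit 2))
    (@En.n l77 (nat_lit 13526) (nat_lit 7) (nat_lit 4))
    (@En.n l15910 (nat_lit 13523) (nat_lit 9) (nat_lit 14))
    (@En.n l15911 (nat_lit 13594) (nat_lit 10) (nat_lit 10))
    (@En.n l15912 (nat_lit 13577) (nat_lit 11) (nat_lit 10))
    (@En.n l26450 (nat_lit 12869) (nat_lit 12) (nat_lit 12))
    (@En.n l40096 (nat_lit 13667) (nat_lit 13) (nat_lit 6))
    (@En.n l26124 (nat_lit 616) (nat_lit 14) (nat_lit 8))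
    (@En.n l107 (nat_lit 13528) (nat_lit 14) (nat_lit 2))
    (@En.n l3 (nat_lit 13528) (nat_lit 15) (nat_lit 2))))
  (@Cl.mk (nat_lit 0x2000200080006000e000c0002000c000c0004000800040004000a000e000e) (nat_lit 0x104806803002bc) (nat_lit 16) Lb.e (@T16.mk En
    (@En.n l97 (nat_lit 13529) (nat_lit 1) (nat_lit 14))
    (@En.i (nat_lit 1216) (nat_lit 8) (nat_lit 14))
    (@En.n l4497 (nat_lit 13517) (nat_lit 2) (nat_lit 10))
    (@En.n l5331 (nat_lit 13531) (nat_lit 3) (nat_lit 4))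
    (@En.n l18 (nat_lit 13585) (nat_lit 4) (nat_lit 4))
    (@En.n l2869 (nat_lit 13271) (nat_lit 5) (nat_lit 8))
    (@En.n l4497 (nat_lit 13522) (nat_lit 6) (nat_lit 4))
    (@En.n l61 (nat_lit 13814) (nat_lit 8) (nat_lit 12))
    (@En.i (nat_lit 13527) (nat_lit 9) (nat_lit 12))
    (@En.n l7 (nat_lit 13529) (nat_lit 9) (nat_lit 2))
    (@En.i (nat_lit 13526) (nat_lit 11) (nat_lit 12))
    (@En.i (nat_lit 13559) (nat_lit 12) (nat_lit 14))
    (@En.n l4497 (nat_lit 13653) (nat_lit 13) (nat_lit 6))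
    (@En.n l2869 (nat_lit 992) (nat_lit 14) (nat_lit 8))
    (@En.n l107 (nat_lit 13529) (nat_lit 14) (nat_lit 2))
    (@En.n l3 (nat_lit 13529) (nat_lit 15) (nat_lit 2))))
  (@Cl.mk (nat_lit 0x2000200070006000b000b000e000b00020005000500090005000a000e000e) (nat_lit 0x3896000301bc) (nat_lit 16) Lb.e (@T16.mk En
    (@En.n l134 (nat_lit 13530) (nat_lit 1) (nat_lit 14))
    (@En.i (nat_lit 1222) (nat_lit 10) (nat_lit 14))
    (@En.n l3337 (nat_lit 228) (nat_lit 2) (nat_lit 10))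
    (@En.i (nat_lit 13533) (nat_lit 3) (nat_lit 5))
    (@En.i (nat_lit 13801) (nat_lit 4) (nat_lit 9))
    (@En.n l725 (nat_lit 13531) (nat_lit 5) (nat_lit 5))
    (@En.n l2909 (nat_lit 13517) (nat_lit 6) (nat_lit 5))
    (@En.n l3 (nat_lit 13530) (nat_lit 7) (nat_lit 2))
    (@En.n l6108 (nat_lit 13526) (nat_lit 9) (nat_lit 11))
    (@En.i (nat_lit 13593) (nat_lit 10) (nat_lit 14))
    (@En.n l1353 (nat_lit 13593) (nat_lit 11) (nat_lit 11))
    (@En.n l2042 (nat_lit 12866) (nat_lit 12) (nat_lit 11))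
    (@En.n l2909 (nat_lit 13664) (nat_lit 13) (nat_lit 6))
    (@En.i (nat_lit 997) (nat_lit 5) (nat_lit 7))
    (@En.n l7 (nat_lit 13530) (nat_lit 14) (nat_lit 2))
    (@En.n l28 (nat_lit 13530) (nat_lit 15) (nat_lit 2))))
  (@Cl.mk (nat_lit 0x2000200070006000e000b0002000e000c0002000500090004000a000e000e) (nat_lit 0x440a700301bc) (nat_lit 16) Lb.e (@T16.mk En
    (@En.n l134 (nat_lit 13531) (nat_lit 1) (nat_lit 14))
    (@En.i (nat_lit 1220) (nat_lit 11) (nat_lit 14))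
    (@En.n l2036 (nat_lit 227) (nat_lit 2) (nat_lit 10))
    (@En.n l2221 (nat_lit 13532) (nat_lit 3) (nat_lit 4))
    (@En.i (nat_lit 13273) (nat_lit 4) (nat_lit 9))
    (@En.n l1643 (nat_lit 13521) (nat_lit 5) (nat_lit 5))
    (@En.n l3 (nat_lit 13531) (nat_lit 6) (nat_lit 2))
    (@En.n l649 (nat_lit 13529) (nat_lit 8) (nat_lit 12))
    (@En.i (nat_lit 13530) (nat_lit 9) (nat_lit 14))
    (@En.n l17 (nat_lit 13531) (nat_lit 9) (nat_lit 2))
    (@En.n l1353 (nat_lit 13530) (nat_lit 11) (nat_lit 11))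
    (@En.n l2034 (nat_lit 13561) (nat_lit 12) (nat_lit 14))
    (@En.n l5592 (nat_lit 13665) (nat_lit 13) (nat_lit 6))
    (@En.i (nat_lit 995) (nat_lit 6) (nat_lit 7))
    (@En.n l7 (nat_lit 13531) (nat_lit 14) (nat_lit 2))
    (@En.n l28 (nat_lit 13531) (nat_lit 15) (nat_lit 2))))
  (@Cl.mk (nat_lit 0x2000200090006000e000a0002000d000c0007000300060004000a000e000e) (nat_lit 0x20a600700003bc) (nat_lit 16) Lb.e (@T16.mk En
    (@En.n l97 (nat_lit 13532) (nat_lit 1) (nat_lit 14))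
    (@En.i (nat_lit 1121) (nat_lit 1) (nat_lit 14))
    (@En.n l12652 (nat_lit 13348) (nat_lit 2) (nat_lit 10))
    (@En.i (nat_lit 13529) (nat_lit 3) (nat_lit 4))
    (@En.n l3971 (nat_lit 13523) (nat_lit 4) (nat_lit 6))
    (@En.n l3473 (nat_lit 13587) (nat_lit 5) (nat_lit 3))
    (@En.n l947 (nat_lit 13249) (nat_lit 6) (nat_lit 7))
    (@En.n l61 (nat_lit 13585) (nat_lit 8) (nat_lit 12))
    (@En.n l2805 (nat_lit 13533) (nat_lit 9) (nat_lit 13))
    (@En.n l7 (nat_lit 13532) (nat_lit 9) (nat_lit 2))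
    (@En.n l8170 (nat_lit 13533) (nat_lit 11) (nat_lit 10))
    (@En.n l4837 (nat_lit 13641) (nat_lit 12) (nat_lit 14))
    (@En.n l4497 (nat_lit 13612) (nat_lit 13) (nat_lit 6))
    (@En.n l2869 (nat_lit 1709) (nat_lit 14) (nat_lit 9))
    (@En.n l107 (nat_lit 13532) (nat_lit 14) (nat_lit 2))
    (@En.n l3 (nat_lit 13532) (nat_lit 15) (nat_lit 2))))
  (@Cl.mk (nat_lit 0x20002000a0006000a000a000d000b00060003000600060005000a000e000e) (nat_lit 0x3055b6000004ab) (nat_lit 16) Lb.e (@T16.mk En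
    (@En.n l134 (nat_lit 13533) (nat_lit 1) (nat_lit 14))
    (@En.i (nat_lit 1070) (nat_lit 1) (nat_lit 14))
    (@En.n l26410 (nat_lit 13339) (nat_lit 2) (nat_lit 10))
    (@En.n l2221 (nat_lit 13527) (nat_lit 3) (nat_lit 5))
    (@En.n l17364 (nat_lit 13532) (nat_lit 4) (nat_lit 6))
    (@En.n l17365 (nat_lit 13576) (nat_lit 5) (nat_lit 6))
    (@En.n l26411 (nat_lit 13586) (nat_lit 6) (nat_lit 3))
    (@En.n l4021 (nat_lit 13247) (nat_lit 7) (nat_lit 6))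
    (@En.n l10853 (nat_lit 13582) (nat_lit 9) (nat_lit 11))
    (@En.n l2520 (nat_lit 13604) (nat_lit 10) (nat_lit 13))
    (@En.n l17368 (nat_lit 13604) (nat_lit 11) (nat_lit 10))
    (@En.n l26412 (nat_lit 13986) (nat_lit 12) (nat_lit 10))
    (@En.n l22042 (nat_lit 13606) (nat_lit 13) (nat_lit 6))
    (@En.n l21721 (nat_lit 1710) (nat_lit 14) (nat_lit 10))
    (@En.n l7 (nat_lit 13533) (nat_lit 14) (nat_lit 2))
    (@En.n l28 (nat_lit 13533) (nat_lit 15) (nat_lit 2))))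
  (@Cl.mk (nat_lit 0x2000200080006000b0009000e000c00020005000800040007000a000e000e) (nat_lit 0x309556001002bc) (nat_lit 16) Lb.e (@T16.mk En
    (@En.n l5 (nat_lit 13534) (nat_lit 1) (nat_lit 14))
    (@En.n l1643 (nat_lit 2182) (nat_lit 10) (nat_lit 14))
    (@En.n l2036 (nat_lit 13531) (nat_lit 2) (nat_lit 10))
    (@En.n l1997 (nat_lit 13948) (nat_lit 11) (nat_lit 7))
    (@En.n l22547 (nat_lit 13167) (nat_lit 4) (nat_lit 4))
    (@En.n l1889 (nat_lit 717) (nat_lit 5) (nat_lit 8))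
    (@En.i (nat_lit 13348) (nat_lit 6) (nat_lit 5))
    (@En.n l28 (nat_lit 13534) (nat_lit 7) (nat_lit 2))
    (@En.n l9922 (nat_lit 13346) (nat_lit 9) (nat_lit 12))
    (@En.n l25986 (nat_lit 13351) (nat_lit 10) (nat_lit 14))
    (@En.n l25987 (nat_lit 13498) (nat_lit 11) (nat_lit 9))
    (@En.n l4758 (nat_lit 13536) (nat_lit 12) (nat_lit 11))
    (@En.n l1504 (nat_lit 13941) (nat_lit 13) (nat_lit 6))
    (@En.n l2568 (nat_lit 1469) (nat_lit 5) (nat_lit 8))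
    (@En.n l17 (nat_lit 13534) (nat_lit 14) (nat_lit 2))
    (@En.n l18 (nat_lit 13534) (nat_lit 15) (nat_lit 2))))
  (@Cl.mk (nat_lit 0x200020009000c0008000b000b0004000b00070005000500080005000e000e) (nat_lit 0x39586080000045) (nat_lit 16) Lb.e (@T16.mk En
    (@En.n l97 (nat_lit 13535) (nat_lit 1) (nat_lit 14))
    (@En.n l1998 (nat_lit 1848) (nat_lit 1) (nat_lit 14))
    (@En.i (nat_lit 12868) (nat_lit 2) (nat_lit 5))
    (@En.n l12489 (nat_lit 13536) (nat_lit 3) (nat_lit 8))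
    (@En.n l12490 (nat_lit 13536) (nat_lit 4) (nat_lit 5))
    (@En.n l12491 (nat_lit 13997) (nat_lit 5) (nat_lit 5))
    (@En.n l28 (nat_lit 13346) (nat_lit 6) (nat_lit 7))
    (@En.n l12491 (nat_lit 13499) (nat_lit 8) (nat_lit 11))
    (@En.n l12492 (nat_lit 13542) (nat_lit 8) (nat_lit 4))
    (@En.n l12493 (nat_lit 13539) (nat_lit 10) (nat_lit 11))
    (@En.n l12494 (nat_lit 13540) (nat_lit 11) (nat_lit 11))
    (@En.n l12495 (nat_lit 13546) (nat_lit 12) (nat_lit 8))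
    (@En.n l3039 (nat_lit 13090) (nat_lit 13) (nat_lit 12))
    (@En.n l12496 (nat_lit 1472) (nat_lit 14) (nat_lit 9))
    (@En.n l107 (nat_lit 13535) (nat_lit 14) (nat_lit 2))
    (@En.n l3 (nat_lit 13535) (nat_lit 15) (nat_lit 2))))
noncomputable def a846 : T16 Cl := @T16.mk Cl
  (@Cl.mk (nat_lit 0x200020008000b0008000e000b00020005000c0008000500080004000e000e) (nat_lit 0x38539009206034) (nat_lit 16) Lb.e (@T16.mk En
    (@En.n l5 (nat_lit 13536) (nat_lit 1) (nat_lit 14))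
    (@En.n l564 (nat_lit 2188) (nat_lit 9) (nat_lit 14))
    (@En.n l7 (nat_lit 12866) (nat_lit 2) (nat_lit 4))
    (@En.i (nat_lit 13947) (nat_lit 10) (nat_lit 8))
    (@En.n l4519 (nat_lit 13998) (nat_lit 4) (nat_lit 5))
    (@En.n l4869 (nat_lit 13534) (nat_lit 5) (nat_lit 8))
    (@En.n l1504 (nat_lit 13498) (nat_lit 7) (nat_lit 12))
    (@En.i (nat_lit 13544) (nat_lit 7) (nat_lit 5))
    (@En.n l11 (nat_lit 13536) (nat_lit 8) (nat_lit 2))
    (@En.n l12512 (nat_lit 13535) (nat_lit 10) (nat_lit 11))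
    (@En.n l180 (nat_lit 13537) (nat_lit 11) (nat_lit 14))
    (@En.n l619 (nat_lit 13548) (nat_lit 12) (nat_lit 8))
    (@En.i (nat_lit 13089) (nat_lit 13) (nat_lit 11))
    (@En.i (nat_lit 1471) (nat_lit 4) (nat_lit 8))
    (@En.n l17 (nat_lit 13536) (nat_lit 14) (nat_lit 2))
    (@En.n l18 (nat_lit 13536) (nat_lit 15) (nat_lit 2))))
  (@Cl.mk (nat_lit 0x200020008000b000e000a0002000b0005000c0008000600050004000e000e) (nat_lit 0x48280709500056) (nat_lit 16) Lb.e (@T16.mk En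
    (@En.n l5 (nat_lit 13537) (nat_lit 1) (nat_lit 14))
    (@En.n l564 (nat_lit 2194) (nat_lit 1) (nat_lit 14))
    (@En.n l7 (nat_lit 12865) (nat_lit 2) (nat_lit 4))
    (@En.i (nat_lit 275) (nat_lit 3) (nat_lit 5))
    (@En.n l1442 (nat_lit 14000) (nat_lit 4) (nat_lit 6))
    (@En.i (nat_lit 13351) (nat_lit 5) (nat_lit 8))
    (@En.n l1442 (nat_lit 13495) (nat_lit 7) (nat_lit 12))
    (@En.n l159 (nat_lit 13536) (nat_lit 7) (nat_lit 5))
    (@En.n l4841 (nat_lit 13535) (nat_lit 9) (nat_lit 11))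
    (@En.n l107 (nat_lit 13537) (nat_lit 9) (nat_lit 2))
    (@En.n l1442 (nat_lit 13538) (nat_lit 11) (nat_lit 10))
    (@En.n l619 (nat_lit 13702) (nat_lit 12) (nat_lit 14))
    (@En.i (nat_lit 13088) (nat_lit 13) (nat_lit 11))
    (@En.i (nat_lit 959) (nat_lit 14) (nat_lit 8))
    (@En.n l17 (nat_lit 13537) (nat_lit 14) (nat_lit 2))
    (@En.n l18 (nat_lit 13537) (nat_lit 15) (nat_lit 2))))
  (@Cl.mk (nat_lit 0x200020009000c000a000a000a0004000b00070006000600060005000e000e) (nat_lit 0x26765040000045) (nat_lit 16) Lb.e (@T16.mk En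
    (@En.n l97 (nat_lit 13538) (nat_lit 1) (nat_lit 14))
    (@En.n l4808 (nat_lit 2151) (nat_lit 1) (nat_lit 14))
    (@En.n l4830 (nat_lit 12869) (nat_lit 2) (nat_lit 5))
    (@En.n l4854 (nat_lit 13543) (nat_lit 3) (nat_lit 6))
    (@En.n l1355 (nat_lit 13537) (nat_lit 4) (nat_lit 6))
    (@En.i (nat_lit 14001) (nat_lit 5) (nat_lit 6))
    (@En.n l4855 (nat_lit 13344) (nat_lit 6) (nat_lit 7))
    (@En.i (nat_lit 13502) (nat_lit 8) (nat_lit 11))
    (@En.n l4856 (nat_lit 13535) (nat_lit 8) (nat_lit 4))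
    (@En.n l4857 (nat_lit 13540) (nat_lit 10) (nat_lit 10))
    (@En.n l4858 (nat_lit 13541) (nat_lit 11) (nat_lit 10))
    (@En.n l4859 (nat_lit 12999) (nat_lit 12) (nat_lit 10))
    (@En.n l4860 (nat_lit 13094) (nat_lit 13) (nat_lit 12))
    (@En.n l1496 (nat_lit 954) (nat_lit 14) (nat_lit 9))
    (@En.n l107 (nat_lit 13538) (nat_lit 14) (nat_lit 2))
    (@En.n l3 (nat_lit 13538) (nat_lit 15) (nat_lit 2))))
  (@Cl.mk (nat_lit 0x20002000a000d0008000b0003000a0006000e0005000200080006000e000e) (nat_lit 0x28550605001056) (nat_lit 16) Lb.e (@T16.mk En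
    (@En.n l5 (nat_lit 13539) (nat_lit 1) (nat_lit 14))
    (@En.n l564 (nat_lit 1845) (nat_lit 13) (nat_lit 14))
    (@En.n l7471 (nat_lit 13600) (nat_lit 2) (nat_lit 6))
    (@En.n l12484 (nat_lit 13535) (nat_lit 3) (nat_lit 8))
    (@En.n l11 (nat_lit 13539) (nat_lit 4) (nat_lit 2))
    (@En.n l5880 (nat_lit 13535) (nat_lit 5) (nat_lit 5))
    (@En.n l5928 (nat_lit 13908) (nat_lit 7) (nat_lit 14))
    (@En.n l11680 (nat_lit 13347) (nat_lit 7) (nat_lit 6))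
    (@En.n l5603 (nat_lit 13563) (nat_lit 9) (nat_lit 10))
    (@En.n l12485 (nat_lit 13541) (nat_lit 9) (nat_lit 3))
    (@En.i (nat_lit 14100) (nat_lit 11) (nat_lit 11))
    (@En.n l476 (nat_lit 13552) (nat_lit 12) (nat_lit 8))
    (@En.n l12486 (nat_lit 13216) (nat_lit 13) (nat_lit 13))
    (@En.i (nat_lit 1483) (nat_lit 9) (nat_lit 10))
    (@En.n l17 (nat_lit 13539) (nat_lit 14) (nat_lit 2))
    (@En.n l18 (nat_lit 13539) (nat_lit 15) (nat_lit 2))))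
  (@Cl.mk (nat_lit 0x20002000a000d000b000a0003000a00060005000e000600020006000e000e) (nat_lit 0x28740700600067) (nat_lit 16) Lb.e (@T16.mk En
    (@En.n l5 (nat_lit 13540) (nat_lit 1) (nat_lit 14))
    (@En.n l564 (nat_lit 2394) (nat_lit 1) (nat_lit 14))
    (@En.n l3100 (nat_lit 13797) (nat_lit 2) (nat_lit 6))
    (@En.n l28 (nat_lit 13540) (nat_lit 3) (nat_lit 2))
    (@En.n l12685 (nat_lit 13538) (nat_lit 4) (nat_lit 6))
    (@En.n l1578 (nat_lit 13539) (nat_lit 6) (nat_lit 14))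
    (@En.n l9554 (nat_lit 13362) (nat_lit 6) (nat_lit 5))
    (@En.i (nat_lit 13343) (nat_lit 7) (nat_lit 6))
    (@En.n l9554 (nat_lit 13562) (nat_lit 9) (nat_lit 10))
    (@En.n l9316 (nat_lit 13545) (nat_lit 9) (nat_lit 3))
    (@En.n l575 (nat_lit 14099) (nat_lit 11) (nat_lit 10))
    (@En.i (nat_lit 12998) (nat_lit 12) (nat_lit 11))
    (@En.n l538 (nat_lit 13227) (nat_lit 13) (nat_lit 13))
    (@En.i (nat_lit 1790) (nat_lit 10) (nat_lit 10))
    (@En.n l17 (nat_lit 13540) (nat_lit 14) (nat_lit 2))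
    (@En.n l18 (nat_lit 13540) (nat_lit 15) (nat_lit 2))))
  (@Cl.mk (nat_lit 0x20002000a000d000a00090003000a0006000e0006000200070006000e000e) (nat_lit 0x29540309000056) (nat_lit 16) Lb.e (@T16.mk En
    (@En.n l5 (nat_lit 13541) (nat_lit 1) (nat_lit 14))
    (@En.n l4589 (nat_lit 2308) (nat_lit 13) (nat_lit 14))
    (@En.n l7 (nat_lit 13598) (nat_lit 2) (nat_lit 6))
    (@En.n l12688 (nat_lit 13542) (nat_lit 3) (nat_lit 7))
    (@En.n l3 (nat_lit 13541) (nat_lit 4) (nat_lit 2))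
    (@En.n l1554 (nat_lit 13538) (nat_lit 5) (nat_lit 6))
    (@En.n l12689 (nat_lit 13907) (nat_lit 7) (nat_lit 14))
    (@En.n l12690 (nat_lit 13345) (nat_lit 7) (nat_lit 6))
    (@En.n l12691 (nat_lit 13590) (nat_lit 9) (nat_lit 10))
    (@En.n l12692 (nat_lit 13539) (nat_lit 9) (nat_lit 3))
    (@En.n l12693 (nat_lit 14098) (nat_lit 11) (nat_lit 9))
    (@En.n l12692 (nat_lit 13974) (nat_lit 12) (nat_lit 10))
    (@En.n l12694 (nat_lit 13215) (nat_lit 13) (nat_lit 13))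
    (@En.n l12695 (nat_lit 1526) (nat_lit 9) (nat_lit 10))
    (@En.n l17 (nat_lit 13541) (nat_lit 14) (nat_lit 2))
    (@En.n l18 (nat_lit 13541) (nat_lit 15) (nat_lit 2))))
  (@Cl.mk (nat_lit 0x200020009000c00090009000c0004000b00070004000700070005000e000e) (nat_lit 0x36560070000045) (nat_lit 16) Lb.e (@T16.mk En
    (@En.n l5 (nat_lit 13542) (nat_lit 1) (nat_lit 14))
    (@En.n l12723 (nat_lit 2197) (nat_lit 1) (nat_lit 14))
    (@En.i (nat_lit 13906) (nat_lit 2) (nat_lit 5))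
    (@En.n l1904 (nat_lit 13544) (nat_lit 3) (nat_lit 7))
    (@En.n l5321 (nat_lit 13543) (nat_lit 4) (nat_lit 7))
    (@En.n l12724 (nat_lit 13714) (nat_lit 5) (nat_lit 4))
    (@En.i (nat_lit 13339) (nat_lit 6) (nat_lit 7))
    (@En.n l1897 (nat_lit 13533) (nat_lit 8) (nat_lit 11))
    (@En.n l12725 (nat_lit 13538) (nat_lit 8) (nat_lit 4))
    (@En.n l12726 (nat_lit 13545) (nat_lit 10) (nat_lit 12))
    (@En.n l12727 (nat_lit 13545) (nat_lit 11) (nat_lit 9))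
    (@En.n l5320 (nat_lit 13547) (nat_lit 12) (nat_lit 9))
    (@En.n l12728 (nat_lit 13098) (nat_lit 13) (nat_lit 12))
    (@En.n l5320 (nat_lit 1499) (nat_lit 14) (nat_lit 9))
    (@En.n l17 (nat_lit 13542) (nat_lit 14) (nat_lit 2))
    (@En.n l18 (nat_lit 13542) (nat_lit 15) (nat_lit 2))))
  (@Cl.mk (nat_lit 0x200020008000b0009000e000a00020005000c0008000700060004000e000e) (nat_lit 0x46567009500056) (nat_lit 16) Lb.e (@T16.mk En
    (@En.n l5 (nat_lit 13543) (nat_lit 1) (nat_lit 14))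
    (@En.n l1569 (nat_lit 2195) (nat_lit 9) (nat_lit 14))
    (@En.n l1570 (nat_lit 13902) (nat_lit 2) (nat_lit 4))
    (@En.i (nat_lit 274) (nat_lit 3) (nat_lit 6))
    (@En.n l407 (nat_lit 13850) (nat_lit 4) (nat_lit 7))
    (@En.n l1571 (nat_lit 13349) (nat_lit 5) (nat_lit 8))
    (@En.n l407 (nat_lit 13576) (nat_lit 7) (nat_lit 12))
    (@En.n l159 (nat_lit 13537) (nat_lit 7) (nat_lit 5))
    (@En.n l11 (nat_lit 13543) (nat_lit 8) (nat_lit 2))
    (@En.n l410 (nat_lit 13538) (nat_lit 10) (nat_lit 10))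
    (@En.n l1572 (nat_lit 13544) (nat_lit 11) (nat_lit 14))
    (@En.n l1572 (nat_lit 13706) (nat_lit 12) (nat_lit 9))
    (@En.n l129 (nat_lit 13096) (nat_lit 13) (nat_lit 11))
    (@En.i (nat_lit 1666) (nat_lit 4) (nat_lit 8))
    (@En.n l17 (nat_lit 13543) (nat_lit 14) (nat_lit 2))
    (@En.n l18 (nat_lit 13543) (nat_lit 15) (nat_lit 2))))
  (@Cl.mk (nat_lit 0x200020008000b000e00090002000c0005000c0008000400070004000e000e) (nat_lit 0x36560108600034) (nat_lit 16) Lb.e (@T16.mk En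
    (@En.n l5 (nat_lit 13544) (nat_lit 1) (nat_lit 14))
    (@En.n l564 (nat_lit 2196) (nat_lit 1) (nat_lit 14))
    (@En.n l1559 (nat_lit 13903) (nat_lit 2) (nat_lit 4))
    (@En.i (nat_lit 13508) (nat_lit 3) (nat_lit 7))
    (@En.i (nat_lit 13710) (nat_lit 4) (nat_lit 4))
    (@En.n l4869 (nat_lit 13348) (nat_lit 5) (nat_lit 8))
    (@En.n l1559 (nat_lit 13532) (nat_lit 7) (nat_lit 12))
    (@En.n l4870 (nat_lit 13543) (nat_lit 7) (nat_lit 5))
    (@En.n l1758 (nat_lit 13542) (nat_lit 9) (nat_lit 12))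
    (@En.n l3 (nat_lit 13544) (nat_lit 9) (nat_lit 2))
    (@En.n l4871 (nat_lit 13542) (nat_lit 11) (nat_lit 9))
    (@En.i (nat_lit 14066) (nat_lit 12) (nat_lit 14))
    (@En.i (nat_lit 13099) (nat_lit 13) (nat_lit 11))
    (@En.i (nat_lit 1503) (nat_lit 14) (nat_lit 8))
    (@En.n l17 (nat_lit 13544) (nat_lit 14) (nat_lit 2))
    (@En.n l18 (nat_lit 13544) (nat_lit 15) (nat_lit 2))))
  (@Cl.mk (nat_lit 0x20002000a000d0009000c0003000a00060004000e000700020006000e000e) (nat_lit 0x365a0700a00056) (nat_lit 16) Lb.e (@T16.mk En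
    (@En.n l97 (nat_lit 13545) (nat_lit 1) (nat_lit 14))
    (@En.n l6681 (nat_lit 2393) (nat_lit 1) (nat_lit 14))
    (@En.n l17838 (nat_lit 13909) (nat_lit 2) (nat_lit 6))
    (@En.n l17 (nat_lit 13545) (nat_lit 3) (nat_lit 2))
    (@En.n l7236 (nat_lit 13542) (nat_lit 4) (nat_lit 7))
    (@En.n l17839 (nat_lit 13541) (nat_lit 6) (nat_lit 14))
    (@En.n l7 (nat_lit 14095) (nat_lit 6) (nat_lit 4))
    (@En.n l7237 (nat_lit 13340) (nat_lit 7) (nat_lit 6))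
    (@En.i (nat_lit 13604) (nat_lit 9) (nat_lit 10))
    (@En.n l17840 (nat_lit 13540) (nat_lit 9) (nat_lit 3))
    (@En.i (nat_lit 14073) (nat_lit 6) (nat_lit 12))
    (@En.n l13760 (nat_lit 13975) (nat_lit 12) (nat_lit 9))
    (@En.n l1349 (nat_lit 13226) (nat_lit 13) (nat_lit 13))
    (@En.n l17841 (nat_lit 1496) (nat_lit 10) (nat_lit 10))
    (@En.n l107 (nat_lit 13545) (nat_lit 14) (nat_lit 2))
    (@En.n l3 (nat_lit 13545) (nat_lit 15) (nat_lit 2))))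
  (@Cl.mk (nat_lit 0x20002000a0008000b000b000a000a000600050005000800060006000e000e) (nat_lit 0x24555600000056) (nat_lit 16) Lb.e (@T16.mk En
    (@En.n l5 (nat_lit 13546) (nat_lit 1) (nat_lit 14))
    (@En.n l9779 (nat_lit 3320) (nat_lit 1) (nat_lit 14))
    (@En.n l237 (nat_lit 13549) (nat_lit 2) (nat_lit 6))
    (@En.n l1442 (nat_lit 13538) (nat_lit 3) (nat_lit 6))
    (@En.n l3 (nat_lit 13548) (nat_lit 4) (nat_lit 8))
    (@En.n l527 (nat_lit 13548) (nat_lit 5) (nat_lit 5))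
    (@En.n l12174 (nat_lit 13407) (nat_lit 6) (nat_lit 5))
    (@En.n l12175 (nat_lit 13499) (nat_lit 7) (nat_lit 6))
    (@En.n l12176 (nat_lit 13403) (nat_lit 9) (nat_lit 10))
    (@En.n l12177 (nat_lit 13975) (nat_lit 10) (nat_lit 10))
    (@En.n l12178 (nat_lit 13552) (nat_lit 11) (nat_lit 11))
    (@En.n l12179 (nat_lit 12989) (nat_lit 12) (nat_lit 11))
    (@En.n l12180 (nat_lit 12880) (nat_lit 13) (nat_lit 8))
    (@En.i (nat_lit 1802) (nat_lit 14) (nat_lit 10))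
    (@En.n l17 (nat_lit 13546) (nat_lit 14) (nat_lit 2))
    (@En.n l18 (nat_lit 13546) (nat_lit 15) (nat_lit 2))))
  (@Cl.mk (nat_lit 0x20002000a00090008000c000b000a000600040007000500080006000e000e) (nat_lit 0x14345700005056) (nat_lit 16) Lb.e (@T16.mk En
    (@En.n l5 (nat_lit 13547) (nat_lit 1) (nat_lit 14))
    (@En.n l22908 (nat_lit 4582) (nat_lit 1) (nat_lit 14))
    (@En.n l7 (nat_lit 13221) (nat_lit 2) (nat_lit 6))
    (@En.n l117 (nat_lit 13336) (nat_lit 3) (nat_lit 8))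
    (@En.n l12512 (nat_lit 13535) (nat_lit 4) (nat_lit 5))
    (@En.i (nat_lit 13706) (nat_lit 5) (nat_lit 7))
    (@En.n l4521 (nat_lit 13967) (nat_lit 6) (nat_lit 4))
    (@En.n l25726 (nat_lit 13167) (nat_lit 7) (nat_lit 6))
    (@En.n l25727 (nat_lit 13986) (nat_lit 9) (nat_lit 10))
    (@En.n l10727 (nat_lit 13974) (nat_lit 10) (nat_lit 11))
    (@En.n l25728 (nat_lit 13975) (nat_lit 11) (nat_lit 12))
    (@En.n l13077 (nat_lit 13973) (nat_lit 12) (nat_lit 8))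
    (@En.n l22908 (nat_lit 13857) (nat_lit 13) (nat_lit 9))
    (@En.i (nat_lit 2841) (nat_lit 14) (nat_lit 10))
    (@En.n l17 (nat_lit 13547) (nat_lit 14) (nat_lit 2))
    (@En.n l18 (nat_lit 13547) (nat_lit 15) (nat_lit 2))))
  (@Cl.mk (nat_lit 0x2000200090008000e000b0002000b000b00070005000800050005000e000e) (nat_lit 0x34460680060045) (nat_lit 16) Lb.e (@T16.mk En
    (@En.n l5 (nat_lit 13548) (nat_lit 1) (nat_lit 14))
    (@En.n l414 (nat_lit 3322) (nat_lit 1) (nat_lit 14))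
    (@En.n l237 (nat_lit 13550) (nat_lit 2) (nat_lit 5))
    (@En.i (nat_lit 13537) (nat_lit 3) (nat_lit 5))
    (@En.i (nat_lit 13950) (nat_lit 4) (nat_lit 8))
    (@En.n l1442 (nat_lit 13406) (nat_lit 5) (nat_lit 5))
    (@En.n l55 (nat_lit 13498) (nat_lit 6) (nat_lit 7))
    (@En.n l134 (nat_lit 13405) (nat_lit 8) (nat_lit 11))
    (@En.n l11 (nat_lit 13547) (nat_lit 9) (nat_lit 11))
    (@En.n l107 (nat_lit 13548) (nat_lit 9) (nat_lit 2))
    (@En.i (nat_lit 13546) (nat_lit 11) (nat_lit 11))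
    (@En.n l97 (nat_lit 13462) (nat_lit 12) (nat_lit 14))
    (@En.n l4586 (nat_lit 12882) (nat_lit 13) (nat_lit 8))
    (@En.i (nat_lit 1807) (nat_lit 14) (nat_lit 9))
    (@En.n l17 (nat_lit 13548) (nat_lit 14) (nat_lit 2))
    (@En.n l18 (nat_lit 13548) (nat_lit 15) (nat_lit 2))))
  (@Cl.mk (nat_lit 0x2000200090007000a000a000e000a000200070006000600090006000e000e) (nat_lit 0x20556600000078) (nat_lit 16) Lb.e (@T16.mk En
    (@En.n l5 (nat_lit 13549) (nat_lit 1) (nat_lit 14))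
    (@En.n l5185 (nat_lit 2009) (nat_lit 10) (nat_lit 14))
    (@En.i (nat_lit 12867) (nat_lit 2) (nat_lit 6))
    (@En.n l3 (nat_lit 13550) (nat_lit 3) (nat_lit 9))
    (@En.n l527 (nat_lit 13550) (nat_lit 4) (nat_lit 6))
    (@En.n l5186 (nat_lit 14009) (nat_lit 5) (nat_lit 6))
    (@En.n l5187 (nat_lit 13535) (nat_lit 6) (nat_lit 7))
    (@En.n l28 (nat_lit 13549) (nat_lit 7) (nat_lit 2))
    (@En.n l77 (nat_lit 13546) (nat_lit 9) (nat_lit 10))
    (@En.n l5188 (nat_lit 13218) (nat_lit 10) (nat_lit 14))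
    (@En.n l5189 (nat_lit 13551) (nat_lit 11) (nat_lit 10))
    (@En.n l5190 (nat_lit 12992) (nat_lit 12) (nat_lit 10))
    (@En.n l5185 (nat_lit 12878) (nat_lit 13) (nat_lit 7))
    (@En.i (nat_lit 1803) (nat_lit 5) (nat_lit 9))
    (@En.n l17 (nat_lit 13549) (nat_lit 14) (nat_lit 2))
    (@En.n l18 (nat_lit 13549) (nat_lit 15) (nat_lit 2))))
  (@Cl.mk (nat_lit 0x2000200080007000e000a0002000e000b00020008000600090005000e000e) (nat_lit 0x30460870307067) (nat_lit 16) Lb.e (@T16.mk En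
    (@En.n l5 (nat_lit 13550) (nat_lit 1) (nat_lit 14))
    (@En.n l1255 (nat_lit 3216) (nat_lit 1) (nat_lit 14))
    (@En.i (nat_lit 12864) (nat_lit 2) (nat_lit 5))
    (@En.i (nat_lit 13952) (nat_lit 3) (nat_lit 9))
    (@En.n l13 (nat_lit 14025) (nat_lit 4) (nat_lit 6))
    (@En.n l175 (nat_lit 13536) (nat_lit 5) (nat_lit 8))
    (@En.n l28 (nat_lit 13550) (nat_lit 6) (nat_lit 2))
    (@En.n l77 (nat_lit 13548) (nat_lit 8) (nat_lit 11))
    (@En.n l175 (nat_lit 13219) (nat_lit 9) (nat_lit 14))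
    (@En.n l107 (nat_lit 13550) (nat_lit 9) (nat_lit 2))
    (@En.i (nat_lit 13549) (nat_lit 11) (nat_lit 10))
    (@En.n l97 (nat_lit 13463) (nat_lit 12) (nat_lit 14))
    (@En.n l1255 (nat_lit 12881) (nat_lit 13) (nat_lit 7))
    (@En.i (nat_lit 1805) (nat_lit 14) (nat_lit 8))
    (@En.n l17 (nat_lit 13550) (nat_lit 14) (nat_lit 2))
    (@En.n l18 (nat_lit 13550) (nat_lit 15) (nat_lit 2))))
  (@Cl.mk (nat_lit 0x20002000a0007000a000e000900020006000e0006000200090007000e000e) (nat_lit 0x20465009001089) (nat_lit 16) Lb.e (@T16.mk En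
    (@En.n l97 (nat_lit 13551) (nat_lit 1) (nat_lit 14))
    (@En.n l2155 (nat_lit 2008) (nat_lit 9) (nat_lit 14))
    (@En.n l55 (nat_lit 13601) (nat_lit 2) (nat_lit 7))
    (@En.n l5278 (nat_lit 13549) (nat_lit 3) (nat_lit 9))
    (@En.n l17 (nat_lit 13551) (nat_lit 4) (nat_lit 2))
    (@En.n l5279 (nat_lit 13549) (nat_lit 5) (nat_lit 6))
    (@En.n l2155 (nat_lit 13747) (nat_lit 7) (nat_lit 14))
    (@En.n l5280 (nat_lit 13539) (nat_lit 7) (nat_lit 6))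
    (@En.n l7 (nat_lit 13551) (nat_lit 8) (nat_lit 2))
    (@En.n l5281 (nat_lit 13552) (nat_lit 10) (nat_lit 9))
    (@En.i (nat_lit 13268) (nat_lit 11) (nat_lit 14))
    (@En.n l5280 (nat_lit 13354) (nat_lit 12) (nat_lit 10))
    (@En.n l5282 (nat_lit 12877) (nat_lit 13) (nat_lit 7))
    (@En.n l5280 (nat_lit 1804) (nat_lit 4) (nat_lit 10))
    (@En.n l107 (nat_lit 13551) (nat_lit 14) (nat_lit 2))
    (@En.n l3 (nat_lit 13551) (nat_lit 15) (nat_lit 2))))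
noncomputable def a847 : T16 Cl := @T16.mk Cl
  (@Cl.mk (nat_lit 0x20002000b0008000b000900090005000e00050002000800070007000e000e) (nat_lit 0x24445080010089) (nat_lit 16) Lb.e (@T16.mk En
    (@En.n l5 (nat_lit 13552) (nat_lit 1) (nat_lit 14))
    (@En.n l12161 (nat_lit 3321) (nat_lit 12) (nat_lit 14))
    (@En.n l12162 (nat_lit 13551) (nat_lit 2) (nat_lit 7))
    (@En.n l12163 (nat_lit 13541) (nat_lit 3) (nat_lit 7))
    (@En.n l12164 (nat_lit 13546) (nat_lit 4) (nat_lit 8))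
    (@En.n l11 (nat_lit 13552) (nat_lit 5) (nat_lit 2))
    (@En.n l12165 (nat_lit 13546) (nat_lit 6) (nat_lit 5))
    (@En.n l12166 (nat_lit 13756) (nat_lit 8) (nat_lit 14))
    (@En.n l12167 (nat_lit 13563) (nat_lit 8) (nat_lit 5))
    (@En.n l12168 (nat_lit 13404) (nat_lit 10) (nat_lit 9))
    (@En.n l12169 (nat_lit 13852) (nat_lit 11) (nat_lit 9))
    (@En.i (nat_lit 13150) (nat_lit 12) (nat_lit 11))
    (@En.n l12170 (nat_lit 12879) (nat_lit 13) (nat_lit 8))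
    (@En.n l253 (nat_lit 1491) (nat_lit 8) (nat_lit 11))
    (@En.n l17 (nat_lit 13552) (nat_lit 14) (nat_lit 2))
    (@En.n l18 (nat_lit 13552) (nat_lit 15) (nat_lit 2))))
  (@Cl.mk (nat_lit 0x200020008000b0007000a000a000e000500020008000600060009000e000e) (nat_lit 0x2405670030069a) (nat_lit 16) Lb.e (@T16.mk En
    (@En.n l97 (nat_lit 13553) (nat_lit 1) (nat_lit 14))
    (@En.i (nat_lit 5974) (nat_lit 11) (nat_lit 14))
    (@En.n l12149 (nat_lit 13557) (nat_lit 2) (nat_lit 9))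
    (@En.n l12150 (nat_lit 13557) (nat_lit 3) (nat_lit 6))
    (@En.n l1723 (nat_lit 13929) (nat_lit 4) (nat_lit 6))
    (@En.n l2911 (nat_lit 13556) (nat_lit 5) (nat_lit 8))
    (@En.n l7 (nat_lit 13553) (nat_lit 6) (nat_lit 2))
    (@En.n l9025 (nat_lit 13556) (nat_lit 7) (nat_lit 5))
    (@En.n l1353 (nat_lit 13832) (nat_lit 9) (nat_lit 14))
    (@En.n l61 (nat_lit 13554) (nat_lit 10) (nat_lit 10))
    (@En.n l1353 (nat_lit 12971) (nat_lit 11) (nat_lit 10))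
    (@En.n l5279 (nat_lit 13549) (nat_lit 12) (nat_lit 7))
    (@En.i (nat_lit 13415) (nat_lit 13) (nat_lit 11))
    (@En.n l2869 (nat_lit 6027) (nat_lit 14) (nat_lit 8))
    (@En.n l107 (nat_lit 13553) (nat_lit 14) (nat_lit 2))
    (@En.n l3 (nat_lit 13553) (nat_lit 15) (nat_lit 2))))
  (@Cl.mk (nat_lit 0x200020009000c0007000a000e000400020007000e000600020009000e000e) (nat_lit 0x33057000b00789) (nat_lit 16) Lb.e (@T16.mk En
    (@En.n l97 (nat_lit 13554) (nat_lit 1) (nat_lit 14))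
    (@En.i (nat_lit 5899) (nat_lit 10) (nat_lit 14))
    (@En.n l617 (nat_lit 13553) (nat_lit 2) (nat_lit 9))
    (@En.n l17 (nat_lit 13554) (nat_lit 3) (nat_lit 2))
    (@En.i (nat_lit 13553) (nat_lit 4) (nat_lit 6))
    (@En.n l2034 (nat_lit 13917) (nat_lit 6) (nat_lit 14))
    (@En.n l2911 (nat_lit 13555) (nat_lit 6) (nat_lit 7))
    (@En.n l7 (nat_lit 13554) (nat_lit 7) (nat_lit 2))
    (@En.n l9025 (nat_lit 13555) (nat_lit 8) (nat_lit 4))
    (@En.i (nat_lit 13269) (nat_lit 10) (nat_lit 14))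
    (@En.n l12637 (nat_lit 13081) (nat_lit 11) (nat_lit 10))
    (@En.i (nat_lit 13551) (nat_lit 12) (nat_lit 7))
    (@En.i (nat_lit 13417) (nat_lit 13) (nat_lit 12))
    (@En.i (nat_lit 6029) (nat_lit 5) (nat_lit 9))
    (@En.n l107 (nat_lit 13554) (nat_lit 14) (nat_lit 2))
    (@En.n l3 (nat_lit 13554) (nat_lit 15) (nat_lit 2))))
  (@Cl.mk (nat_lit 0x200020009000c000c0008000b000400040007000e000500020008000e000e) (nat_lit 0x23467000200678) (nat_lit 16) Lb.e (@T16.mk En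
    (@En.n l5 (nat_lit 13555) (nat_lit 1) (nat_lit 14))
    (@En.n l1997 (nat_lit 5897) (nat_lit 1) (nat_lit 14))
    (@En.n l3506 (nat_lit 13556) (nat_lit 2) (nat_lit 8))
    (@En.n l28 (nat_lit 13555) (nat_lit 3) (nat_lit 2))
    (@En.i (nat_lit 13556) (nat_lit 4) (nat_lit 5))
    (@En.i (nat_lit 13916) (nat_lit 6) (nat_lit 14))
    (@En.n l476 (nat_lit 13560) (nat_lit 6) (nat_lit 7))
    (@En.n l152 (nat_lit 13560) (nat_lit 7) (nat_lit 4))
    (@En.n l5372 (nat_lit 13601) (nat_lit 8) (nat_lit 4))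
    (@En.i (nat_lit 13080) (nat_lit 10) (nat_lit 11))
    (@En.n l4758 (nat_lit 13539) (nat_lit 11) (nat_lit 8))
    (@En.n l6213 (nat_lit 13554) (nat_lit 12) (nat_lit 12))
    (@En.n l5372 (nat_lit 13393) (nat_lit 13) (nat_lit 12))
    (@En.i (nat_lit 6019) (nat_lit 14) (nat_lit 9))
    (@En.n l17 (nat_lit 13555) (nat_lit 14) (nat_lit 2))
    (@En.n l18 (nat_lit 13555) (nat_lit 15) (nat_lit 2))))
  (@Cl.mk (nat_lit 0x200020008000b000b0008000b000b000500050008000500050008000e000e) (nat_lit 0x32566800200589) (nat_lit 16) Lb.e (@T16.mk En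
    (@En.n l5 (nat_lit 13556) (nat_lit 1) (nat_lit 14))
    (@En.n l1997 (nat_lit 5902) (nat_lit 1) (nat_lit 14))
    (@En.n l2491 (nat_lit 13558) (nat_lit 2) (nat_lit 8))
    (@En.n l7129 (nat_lit 13558) (nat_lit 3) (nat_lit 5))
    (@En.i (nat_lit 13636) (nat_lit 4) (nat_lit 5))
    (@En.n l6211 (nat_lit 13559) (nat_lit 5) (nat_lit 8))
    (@En.n l6212 (nat_lit 13559) (nat_lit 6) (nat_lit 5))
    (@En.n l26714 (nat_lit 13789) (nat_lit 7) (nat_lit 5))
    (@En.n l55 (nat_lit 13555) (nat_lit 9) (nat_lit 11))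
    (@En.i (nat_lit 12968) (nat_lit 10) (nat_lit 11))
    (@En.n l1997 (nat_lit 13535) (nat_lit 11) (nat_lit 8))
    (@En.n l6213 (nat_lit 13553) (nat_lit 12) (nat_lit 11))
    (@En.n l5372 (nat_lit 13388) (nat_lit 13) (nat_lit 11))
    (@En.i (nat_lit 6020) (nat_lit 14) (nat_lit 8))
    (@En.n l17 (nat_lit 13556) (nat_lit 14) (nat_lit 2))
    (@En.n l18 (nat_lit 13556) (nat_lit 15) (nat_lit 2))))
  (@Cl.mk (nat_lit 0x200020007000a0007000e000a0002000e00060002000900060009000e000e) (nat_lit 0x306609003059a) (nat_lit 16) Lb.e (@T16.mk En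
    (@En.n l134 (nat_lit 13557) (nat_lit 1) (nat_lit 14))
    (@En.i (nat_lit 5845) (nat_lit 12) (nat_lit 14))
    (@En.n l3324 (nat_lit 14058) (nat_lit 2) (nat_lit 9))
    (@En.n l2520 (nat_lit 13930) (nat_lit 3) (nat_lit 6))
    (@En.n l3337 (nat_lit 13558) (nat_lit 4) (nat_lit 9))
    (@En.n l17 (nat_lit 13557) (nat_lit 5) (nat_lit 2))
    (@En.n l2869 (nat_lit 13558) (nat_lit 6) (nat_lit 6))
    (@En.n l1531 (nat_lit 13834) (nat_lit 8) (nat_lit 14))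
    (@En.n l3 (nat_lit 13557) (nat_lit 8) (nat_lit 2))
    (@En.n l2524 (nat_lit 13553) (nat_lit 10) (nat_lit 10))
    (@En.n l11636 (nat_lit 12973) (nat_lit 11) (nat_lit 14))
    (@En.n l3324 (nat_lit 13550) (nat_lit 12) (nat_lit 7))
    (@En.n l2520 (nat_lit 13416) (nat_lit 13) (nat_lit 10))
    (@En.i (nat_lit 6026) (nat_lit 14) (nat_lit 7))
    (@En.n l7 (nat_lit 13557) (nat_lit 14) (nat_lit 2))
    (@En.n l28 (nat_lit 13557) (nat_lit 15) (nat_lit 2))))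
  (@Cl.mk (nat_lit 0x200020007000a000a0008000e000b000200060006000900050008000e000e) (nat_lit 0x4466700020489) (nat_lit 16) Lb.e (@T16.mk En
    (@En.n l5 (nat_lit 13558) (nat_lit 1) (nat_lit 14))
    (@En.n l649 (nat_lit 5846) (nat_lit 10) (nat_lit 14))
    (@En.i (nat_lit 14059) (nat_lit 2) (nat_lit 8))
    (@En.i (nat_lit 13638) (nat_lit 3) (nat_lit 5))
    (@En.n l476 (nat_lit 13561) (nat_lit 4) (nat_lit 9))
    (@En.n l152 (nat_lit 13561) (nat_lit 5) (nat_lit 6))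
    (@En.n l476 (nat_lit 13790) (nat_lit 6) (nat_lit 6))
    (@En.n l28 (nat_lit 13558) (nat_lit 7) (nat_lit 2))
    (@En.n l6698 (nat_lit 13556) (nat_lit 9) (nat_lit 11))
    (@En.n l1578 (nat_lit 12967) (nat_lit 10) (nat_lit 14))
    (@En.n l4758 (nat_lit 13536) (nat_lit 11) (nat_lit 8))
    (@En.n l1867 (nat_lit 13557) (nat_lit 12) (nat_lit 10))
    (@En.n l8929 (nat_lit 13392) (nat_lit 13) (nat_lit 10))
    (@En.n l2568 (nat_lit 6023) (nat_lit 5) (nat_lit 7))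
    (@En.n l17 (nat_lit 13558) (nat_lit 14) (nat_lit 2))
    (@En.n l18 (nat_lit 13558) (nat_lit 15) (nat_lit 2))))
  (@Cl.mk (nat_lit 0x200020008000e000b00020009000c000c00050008000400040007000e000e) (nat_lit 0x33307790100078) (nat_lit 16) Lb.e (@T16.mk En
    (@En.n l97 (nat_lit 13559) (nat_lit 1) (nat_lit 14))
    (@En.i (nat_lit 5975) (nat_lit 7) (nat_lit 14))
    (@En.n l14040 (nat_lit 13561) (nat_lit 2) (nat_lit 7))
    (@En.n l5205 (nat_lit 13561) (nat_lit 3) (nat_lit 4))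
    (@En.n l2031 (nat_lit 13639) (nat_lit 4) (nat_lit 4))
    (@En.n l2869 (nat_lit 13278) (nat_lit 5) (nat_lit 8))
    (@En.n l5910 (nat_lit 13793) (nat_lit 6) (nat_lit 5))
    (@En.n l12284 (nat_lit 13560) (nat_lit 8) (nat_lit 12))
    (@En.n l2031 (nat_lit 13174) (nat_lit 9) (nat_lit 12))
    (@En.i (nat_lit 13346) (nat_lit 10) (nat_lit 9))
    (@En.n l7 (nat_lit 13559) (nat_lit 10) (nat_lit 2))
    (@En.n l2031 (nat_lit 13556) (nat_lit 12) (nat_lit 11))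
    (@En.n l134 (nat_lit 12830) (nat_lit 13) (nat_lit 14))
    (@En.n l5929 (nat_lit 6018) (nat_lit 2) (nat_lit 8))
    (@En.n l107 (nat_lit 13559) (nat_lit 14) (nat_lit 2))
    (@En.n l3 (nat_lit 13559) (nat_lit 15) (nat_lit 2))))
  (@Cl.mk (nat_lit 0x200020009000e000c00020009000c00040007000e000400020007000e000e) (nat_lit 0x36407800b00067) (nat_lit 16) Lb.e (@T16.mk En
    (@En.n l5 (nat_lit 13560) (nat_lit 1) (nat_lit 14))
    (@En.n l1997 (nat_lit 5896) (nat_lit 7) (nat_lit 14))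
    (@En.n l12277 (nat_lit 13559) (nat_lit 2) (nat_lit 7))
    (@En.n l28 (nat_lit 13560) (nat_lit 3) (nat_lit 2))
    (@En.n l1997 (nat_lit 13559) (nat_lit 4) (nat_lit 4))
    (@En.i (nat_lit 13919) (nat_lit 6) (nat_lit 14))
    (@En.n l1997 (nat_lit 13279) (nat_lit 6) (nat_lit 7))
    (@En.i (nat_lit 13600) (nat_lit 7) (nat_lit 4))
    (@En.i (nat_lit 13170) (nat_lit 9) (nat_lit 12))
    (@En.n l1997 (nat_lit 13347) (nat_lit 10) (nat_lit 9))
    (@En.n l3 (nat_lit 13560) (nat_lit 10) (nat_lit 2))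
    (@En.i (nat_lit 13555) (nat_lit 12) (nat_lit 12))
    (@En.n l5366 (nat_lit 12831) (nat_lit 13) (nat_lit 14))
    (@En.n l2568 (nat_lit 6021) (nat_lit 2) (nat_lit 9))
    (@En.n l17 (nat_lit 13560) (nat_lit 14) (nat_lit 2))
    (@En.n l18 (nat_lit 13560) (nat_lit 15) (nat_lit 2))))
  (@Cl.mk (nat_lit 0x200020007000e000a00020009000e000c00020006000900040007000e000e) (nat_lit 0x3506880010078) (nat_lit 16) Lb.e (@T16.mk En
    (@En.n l5 (nat_lit 13561) (nat_lit 1) (nat_lit 14))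
    (@En.n l2036 (nat_lit 6047) (nat_lit 11) (nat_lit 14))
    (@En.i (nat_lit 14060) (nat_lit 2) (nat_lit 7))
    (@En.i (nat_lit 13641) (nat_lit 3) (nat_lit 4))
    (@En.n l2036 (nat_lit 13280) (nat_lit 4) (nat_lit 9))
    (@En.i (nat_lit 13792) (nat_lit 5) (nat_lit 6))
    (@En.n l28 (nat_lit 13561) (nat_lit 6) (nat_lit 2))
    (@En.n l9922 (nat_lit 13559) (nat_lit 8) (nat_lit 12))
    (@En.n l1578 (nat_lit 14067) (nat_lit 9) (nat_lit 14))
    (@En.i (nat_lit 13534) (nat_lit 10) (nat_lit 9))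
    (@En.n l3 (nat_lit 13561) (nat_lit 10) (nat_lit 2))
    (@En.i (nat_lit 13558) (nat_lit 12) (nat_lit 10))
    (@En.i (nat_lit 12832) (nat_lit 13) (nat_lit 14))
    (@En.n l2568 (nat_lit 6022) (nat_lit 6) (nat_lit 7))
    (@En.n l17 (nat_lit 13561) (nat_lit 14) (nat_lit 2))
    (@En.n l18 (nat_lit 13561) (nat_lit 15) (nat_lit 2))))
  (@Cl.mk (nat_lit 0x20002000b0006000c000b000a00050004000e000500020006000a000e000e) (nat_lit 0x203160090005bc) (nat_lit 16) Lb.e (@T16.mk En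
    (@En.n l97 (nat_lit 13562) (nat_lit 1) (nat_lit 14))
    (@En.i (nat_lit 3079) (nat_lit 13) (nat_lit 14))
    (@En.n l26335 (nat_lit 13343) (nat_lit 2) (nat_lit 10))
    (@En.n l12929 (nat_lit 13342) (nat_lit 3) (nat_lit 6))
    (@En.n l18 (nat_lit 13562) (nat_lit 4) (nat_lit 2))
    (@En.n l50 (nat_lit 13502) (nat_lit 5) (nat_lit 5))
    (@En.n l2650 (nat_lit 13563) (nat_lit 7) (nat_lit 14))
    (@En.i (nat_lit 13564) (nat_lit 7) (nat_lit 4))
    (@En.n l7582 (nat_lit 13154) (nat_lit 8) (nat_lit 5))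
    (@En.n l7583 (nat_lit 13169) (nat_lit 10) (nat_lit 10))
    (@En.n l22063 (nat_lit 288) (nat_lit 11) (nat_lit 11))
    (@En.n l28 (nat_lit 13474) (nat_lit 12) (nat_lit 12))
    (@En.n l26336 (nat_lit 13723) (nat_lit 13) (nat_lit 6))
    (@En.i (nat_lit 1764) (nat_lit 9) (nat_lit 11))
    (@En.n l107 (nat_lit 13562) (nat_lit 14) (nat_lit 2))
    (@En.n l3 (nat_lit 13562) (nat_lit 15) (nat_lit 2))))
  (@Cl.mk (nat_lit 0x20002000b00060009000c000a0005000e0004000200070006000a000e000e) (nat_lit 0x105150800005bc) (nat_lit 16) Lb.e (@T16.mk En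
    (@En.n l97 (nat_lit 13563) (nat_lit 1) (nat_lit 14))
    (@En.i (nat_lit 2215) (nat_lit 12) (nat_lit 14))
    (@En.n l5549 (nat_lit 13347) (nat_lit 2) (nat_lit 10))
    (@En.n l4793 (nat_lit 13345) (nat_lit 3) (nat_lit 6))
    (@En.n l252 (nat_lit 13499) (nat_lit 4) (nat_lit 7))
    (@En.n l50 (nat_lit 13563) (nat_lit 5) (nat_lit 2))
    (@En.n l7 (nat_lit 13499) (nat_lit 6) (nat_lit 4))
    (@En.n l5421 (nat_lit 13512) (nat_lit 8) (nat_lit 14))
    (@En.n l5694 (nat_lit 713) (nat_lit 8) (nat_lit 5))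
    (@En.i (nat_lit 13575) (nat_lit 10) (nat_lit 10))
    (@En.n l617 (nat_lit 659) (nat_lit 11) (nat_lit 12))
    (@En.i (nat_lit 13404) (nat_lit 12) (nat_lit 9))
    (@En.n l5421 (nat_lit 13925) (nat_lit 13) (nat_lit 6))
    (@En.i (nat_lit 1478) (nat_lit 8) (nat_lit 11))
    (@En.n l107 (nat_lit 13563) (nat_lit 14) (nat_lit 2))
    (@En.n l3 (nat_lit 13563) (nat_lit 15) (nat_lit 2))))
  (@Cl.mk (nat_lit 0x20002000d0006000c0003000c000b0004000e000400020005000a000e000e) (nat_lit 0x1040a6010007bc) (nat_lit 16) Lb.e (@T16.mk En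
    (@En.n l97 (nat_lit 13564) (nat_lit 1) (nat_lit 14))
    (@En.i (nat_lit 3855) (nat_lit 13) (nat_lit 14))
    (@En.n l4497 (nat_lit 13565) (nat_lit 2) (nat_lit 10))
    (@En.i (nat_lit 13567) (nat_lit 3) (nat_lit 5))
    (@En.n l18 (nat_lit 13564) (nat_lit 4) (nat_lit 2))
    (@En.n l50 (nat_lit 287) (nat_lit 5) (nat_lit 4))
    (@En.i (nat_lit 284) (nat_lit 7) (nat_lit 14))
    (@En.i (nat_lit 659) (nat_lit 7) (nat_lit 4))
    (@En.n l2863 (nat_lit 13803) (nat_lit 9) (nat_lit 11))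
    (@En.n l4497 (nat_lit 13522) (nat_lit 10) (nat_lit 12))
    (@En.i (nat_lit 13147) (nat_lit 10) (nat_lit 3))
    (@En.i (nat_lit 14097) (nat_lit 12) (nat_lit 12))
    (@En.n l4497 (nat_lit 13806) (nat_lit 13) (nat_lit 6))
    (@En.n l947 (nat_lit 772) (nat_lit 9) (nat_lit 13))
    (@En.n l107 (nat_lit 13564) (nat_lit 14) (nat_lit 2))
    (@En.n l3 (nat_lit 13564) (nat_lit 15) (nat_lit 2))))
  (@Cl.mk (nat_lit 0x20002000c0006000c000c0004000c00040004000e00040002000a000e000e) (nat_lit 0x304508001006bc) (nat_lit 16) Lb.e (@T16.mk En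
    (@En.n l5 (nat_lit 13565) (nat_lit 1) (nat_lit 14))
    (@En.n l420 (nat_lit 4033) (nat_lit 1) (nat_lit 14))
    (@En.n l11680 (nat_lit 13580) (nat_lit 2) (nat_lit 10))
    (@En.n l28 (nat_lit 13565) (nat_lit 3) (nat_lit 2))
    (@En.n l12589 (nat_lit 13568) (nat_lit 4) (nat_lit 4))
    (@En.n l39931 (nat_lit 659) (nat_lit 6) (nat_lit 14))
    (@En.n l152 (nat_lit 14102) (nat_lit 6) (nat_lit 4))
    (@En.n l4980 (nat_lit 13341) (nat_lit 7) (nat_lit 4))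
    (@En.i (nat_lit 13519) (nat_lit 9) (nat_lit 12))
    (@En.n l4670 (nat_lit 13355) (nat_lit 9) (nat_lit 4))
    (@En.n l2873 (nat_lit 13566) (nat_lit 11) (nat_lit 12))
    (@En.n l4980 (nat_lit 13362) (nat_lit 12) (nat_lit 12))
    (@En.i (nat_lit 13916) (nat_lit 13) (nat_lit 6))
    (@En.n l420 (nat_lit 2532) (nat_lit 10) (nat_lit 12))
    (@En.n l17 (nat_lit 13565) (nat_lit 14) (nat_lit 2))
    (@En.n l18 (nat_lit 13565) (nat_lit 15) (nat_lit 2))))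
  (@Cl.mk (nat_lit 0x20002000d0006000c0003000b000e00040002000e00050002000a000e000e) (nat_lit 0x904064002007bc) (nat_lit 16) Lb.e (@T16.mk En
    (@En.n l1578 (nat_lit 13566) (nat_lit 1) (nat_lit 14))
    (@En.i (nat_lit 4030) (nat_lit 1) (nat_lit 14))
    (@En.n l1889 (nat_lit 13127) (nat_lit 2) (nat_lit 10))
    (@En.n l3 (nat_lit 13566) (nat_lit 3) (nat_lit 2))
    (@En.n l3010 (nat_lit 13567) (nat_lit 4) (nat_lit 5))
    (@En.n l2544 (nat_lit 13564) (nat_lit 6) (nat_lit 14))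
    (@En.n l17 (nat_lit 13566) (nat_lit 6) (nat_lit 2))
    (@En.n l892 (nat_lit 13565) (nat_lit 7) (nat_lit 4))
    (@En.n l2036 (nat_lit 14077) (nat_lit 4) (nat_lit 14))
    (@En.i (nat_lit 13521) (nat_lit 10) (nat_lit 11))
    (@En.i (nat_lit 13571) (nat_lit 10) (nat_lit 3))
    (@En.n l1997 (nat_lit 14096) (nat_lit 12) (nat_lit 12))
    (@En.n l7471 (nat_lit 13917) (nat_lit 13) (nat_lit 6))
    (@En.i (nat_lit 2531) (nat_lit 10) (nat_lit 13))
    (@En.n l28 (nat_lit 13566) (nat_lit 14) (nat_lit 2))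
    (@En.n l11 (nat_lit 13566) (nat_lit 15) (nat_lit 2))))
  (@Cl.mk (nat_lit 0x20002000d0006000b0003000b000b000e0005000200050005000a000e000e) (nat_lit 0x904077500007bc) (nat_lit 16) Lb.e (@T16.mk En
    (@En.n l97 (nat_lit 13567) (nat_lit 1) (nat_lit 14))
    (@En.i (nat_lit 4029) (nat_lit 12) (nat_lit 14))
    (@En.n l671 (nat_lit 13583) (nat_lit 2) (nat_lit 10))
    (@En.n l2102 (nat_lit 13569) (nat_lit 3) (nat_lit 5))
    (@En.n l2178 (nat_lit 13802) (nat_lit 4) (nat_lit 5))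
    (@En.n l403 (nat_lit 13567) (nat_lit 5) (nat_lit 2))
    (@En.n l663 (nat_lit 13568) (nat_lit 6) (nat_lit 5))
    (@En.n l947 (nat_lit 13566) (nat_lit 8) (nat_lit 14))
    (@En.n l948 (nat_lit 13566) (nat_lit 9) (nat_lit 11))
    (@En.n l666 (nat_lit 13518) (nat_lit 10) (nat_lit 11))
    (@En.i (nat_lit 13570) (nat_lit 10) (nat_lit 3))
    (@En.i (nat_lit 14050) (nat_lit 12) (nat_lit 11))
    (@En.n l2889 (nat_lit 13573) (nat_lit 13) (nat_lit 6))
    (@En.n l666 (nat_lit 2482) (nat_lit 8) (nat_lit 13))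
    (@En.n l107 (nat_lit 13567) (nat_lit 14) (nat_lit 2))
    (@En.n l3 (nat_lit 13567) (nat_lit 15) (nat_lit 2))))
noncomputable def a848 : T16 Cl := @T16.mk Cl
  (@Cl.mk (nat_lit 0x20002000c0006000b000b0004000c000c0005000500040004000a000e000e) (nat_lit 0x303507900006bc) (nat_lit 16) Lb.e (@T16.mk En
    (@En.n l97 (nat_lit 13568) (nat_lit 1) (nat_lit 14))
    (@En.n l5911 (nat_lit 3560) (nat_lit 1) (nat_lit 14))
    (@En.n l7018 (nat_lit 13582) (nat_lit 2) (nat_lit 10))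
    (@En.n l2172 (nat_lit 13575) (nat_lit 3) (nat_lit 4))
    (@En.i (nat_lit 13164) (nat_lit 4) (nat_lit 4))
    (@En.n l2783 (nat_lit 14101) (nat_lit 5) (nat_lit 5))
    (@En.n l742 (nat_lit 13168) (nat_lit 6) (nat_lit 5))
    (@En.n l4867 (nat_lit 13565) (nat_lit 8) (nat_lit 12))
    (@En.n l4865 (nat_lit 13514) (nat_lit 9) (nat_lit 12))
    (@En.n l3540 (nat_lit 13357) (nat_lit 9) (nat_lit 4))
    (@En.n l2176 (nat_lit 13567) (nat_lit 11) (nat_lit 11))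
    (@En.i (nat_lit 14001) (nat_lit 12) (nat_lit 11))
    (@En.n l4865 (nat_lit 13918) (nat_lit 13) (nat_lit 6))
    (@En.n l5911 (nat_lit 2462) (nat_lit 14) (nat_lit 12))
    (@En.n l107 (nat_lit 13568) (nat_lit 14) (nat_lit 2))
    (@En.n l3 (nat_lit 13568) (nat_lit 15) (nat_lit 2))))
  (@Cl.mk (nat_lit 0x20002000d0006000a0003000e000b0002000e000600020005000a000e000e) (nat_lit 0x703058060007bc) (nat_lit 16) Lb.e (@T16.mk En
    (@En.n l97 (nat_lit 13569) (nat_lit 1) (nat_lit 14))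
    (@En.n l770 (nat_lit 3618) (nat_lit 13) (nat_lit 14))
    (@En.i (nat_lit 677) (nat_lit 2) (nat_lit 10))
    (@En.n l1367 (nat_lit 284) (nat_lit 3) (nat_lit 5))
    (@En.n l17 (nat_lit 13569) (nat_lit 4) (nat_lit 2))
    (@En.n l211 (nat_lit 13575) (nat_lit 5) (nat_lit 6))
    (@En.n l768 (nat_lit 13567) (nat_lit 7) (nat_lit 14))
    (@En.n l50 (nat_lit 13569) (nat_lit 7) (nat_lit 2))
    (@En.n l769 (nat_lit 13567) (nat_lit 9) (nat_lit 11))
    (@En.n l767 (nat_lit 13592) (nat_lit 10) (nat_lit 14))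
    (@En.n l278 (nat_lit 13572) (nat_lit 10) (nat_lit 3))
    (@En.n l7634 (nat_lit 14054) (nat_lit 12) (nat_lit 10))
    (@En.n l7635 (nat_lit 13927) (nat_lit 13) (nat_lit 6))
    (@En.n l770 (nat_lit 2483) (nat_lit 9) (nat_lit 13))
    (@En.n l107 (nat_lit 13569) (nat_lit 14) (nat_lit 2))
    (@En.n l3 (nat_lit 13569) (nat_lit 15) (nat_lit 2))))
  (@Cl.mk (nat_lit 0x20002000d000a00070003000b000b000e00060002000500050009000e000e) (nat_lit 0x82006630000489) (nat_lit 16) Lb.e (@T16.mk En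
    (@En.n l97 (nat_lit 13570) (nat_lit 1) (nat_lit 14))
    (@En.i (nat_lit 3621) (nat_lit 12) (nat_lit 14))
    (@En.n l671 (nat_lit 13928) (nat_lit 2) (nat_lit 9))
    (@En.n l13668 (nat_lit 13572) (nat_lit 3) (nat_lit 5))
    (@En.n l13669 (nat_lit 13146) (nat_lit 4) (nat_lit 5))
    (@En.n l403 (nat_lit 13570) (nat_lit 5) (nat_lit 2))
    (@En.n l13670 (nat_lit 13574) (nat_lit 6) (nat_lit 6))
    (@En.n l947 (nat_lit 13571) (nat_lit 8) (nat_lit 14))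
    (@En.n l948 (nat_lit 13571) (nat_lit 9) (nat_lit 11))
    (@En.n l3180 (nat_lit 13834) (nat_lit 10) (nat_lit 11))
    (@En.n l28 (nat_lit 13567) (nat_lit 10) (nat_lit 3))
    (@En.n l4498 (nat_lit 13750) (nat_lit 12) (nat_lit 7))
    (@En.n l12929 (nat_lit 13342) (nat_lit 13) (nat_lit 10))
    (@En.n l666 (nat_lit 2179) (nat_lit 8) (nat_lit 13))
    (@En.n l107 (nat_lit 13570) (nat_lit 14) (nat_lit 2))
    (@En.n l3 (nat_lit 13570) (nat_lit 15) (nat_lit 2))))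
  (@Cl.mk (nat_lit 0x20002000d000b00070003000b000e00050002000e000500020009000e000e) (nat_lit 0xa2005200a00489) (nat_lit 16) Lb.e (@T16.mk En
    (@En.n l1578 (nat_lit 13571) (nat_lit 1) (nat_lit 14))
    (@En.i (nat_lit 4032) (nat_lit 1) (nat_lit 14))
    (@En.n l1889 (nat_lit 13929) (nat_lit 2) (nat_lit 9))
    (@En.n l3 (nat_lit 13571) (nat_lit 3) (nat_lit 2))
    (@En.n l3010 (nat_lit 13570) (nat_lit 4) (nat_lit 5))
    (@En.n l2544 (nat_lit 13147) (nat_lit 6) (nat_lit 14))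
    (@En.n l17 (nat_lit 13571) (nat_lit 6) (nat_lit 2))
    (@En.n l2893 (nat_lit 13364) (nat_lit 7) (nat_lit 5))
    (@En.n l2036 (nat_lit 14076) (nat_lit 4) (nat_lit 14))
    (@En.n l998 (nat_lit 13833) (nat_lit 10) (nat_lit 11))
    (@En.n l50 (nat_lit 13566) (nat_lit 10) (nat_lit 3))
    (@En.n l210 (nat_lit 13752) (nat_lit 12) (nat_lit 7))
    (@En.n l2543 (nat_lit 13341) (nat_lit 13) (nat_lit 11))
    (@En.i (nat_lit 2174) (nat_lit 10) (nat_lit 13))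
    (@En.n l28 (nat_lit 13571) (nat_lit 14) (nat_lit 2))
    (@En.n l11 (nat_lit 13571) (nat_lit 15) (nat_lit 2))))
  (@Cl.mk (nat_lit 0x20002000d000900070003000e000b0002000e0007000200050009000e000e) (nat_lit 0x82006704000289) (nat_lit 16) Lb.e (@T16.mk En
    (@En.n l556 (nat_lit 13572) (nat_lit 1) (nat_lit 14))
    (@En.n l3633 (nat_lit 3617) (nat_lit 13) (nat_lit 14))
    (@En.n l86 (nat_lit 12952) (nat_lit 2) (nat_lit 9))
    (@En.n l281 (nat_lit 13145) (nat_lit 3) (nat_lit 5))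
    (@En.n l3 (nat_lit 13572) (nat_lit 4) (nat_lit 2))
    (@En.n l6891 (nat_lit 13852) (nat_lit 5) (nat_lit 7))
    (@En.n l9593 (nat_lit 13570) (nat_lit 7) (nat_lit 14))
    (@En.n l18 (nat_lit 13572) (nat_lit 7) (nat_lit 2))
    (@En.n l9594 (nat_lit 13570) (nat_lit 9) (nat_lit 11))
    (@En.n l1018 (nat_lit 13392) (nat_lit 10) (nat_lit 14))
    (@En.n l996 (nat_lit 13569) (nat_lit 10) (nat_lit 3))
    (@En.i (nat_lit 13753) (nat_lit 12) (nat_lit 7))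
    (@En.n l1018 (nat_lit 13350) (nat_lit 13) (nat_lit 9))
    (@En.n l4485 (nat_lit 2485) (nat_lit 9) (nat_lit 13))
    (@En.n l11 (nat_lit 13572) (nat_lit 14) (nat_lit 2))
    (@En.n l207 (nat_lit 13572) (nat_lit 15) (nat_lit 2))))
  (@Cl.mk (nat_lit 0x200020006000b0007000b000b000e0005000200050005000a0009000e000e) (nat_lit 0x2056300007512) (nat_lit 16) Lb.e (@T16.mk En
    (@En.n l134 (nat_lit 13573) (nat_lit 1) (nat_lit 14))
    (@En.n l3010 (nat_lit 746) (nat_lit 11) (nat_lit 14))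
    (@En.n l15190 (nat_lit 13570) (nat_lit 2) (nat_lit 9))
    (@En.n l897 (nat_lit 13117) (nat_lit 3) (nat_lit 10))
    (@En.n l2870 (nat_lit 13927) (nat_lit 4) (nat_lit 5))
    (@En.n l899 (nat_lit 13805) (nat_lit 5) (nat_lit 5))
    (@En.n l17 (nat_lit 13573) (nat_lit 6) (nat_lit 2))
    (@En.n l2869 (nat_lit 13918) (nat_lit 7) (nat_lit 5))
    (@En.n l476 (nat_lit 13917) (nat_lit 9) (nat_lit 14))
    (@En.n l152 (nat_lit 13917) (nat_lit 10) (nat_lit 11))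
    (@En.n l14619 (nat_lit 13668) (nat_lit 11) (nat_lit 11))
    (@En.n l15191 (nat_lit 13746) (nat_lit 12) (nat_lit 7))
    (@En.n l649 (nat_lit 13586) (nat_lit 13) (nat_lit 11))
    (@En.n l476 (nat_lit 745) (nat_lit 6) (nat_lit 6))
    (@En.n l7 (nat_lit 13573) (nat_lit 14) (nat_lit 2))
    (@En.n l28 (nat_lit 13573) (nat_lit 15) (nat_lit 2))))
  (@Cl.mk (nat_lit 0x20002000c000a000a00080004000c000c00060006000400040008000e000e) (nat_lit 0x22360870000278) (nat_lit 16) Lb.e (@T16.mk En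
    (@En.n l5 (nat_lit 13574) (nat_lit 1) (nat_lit 14))
    (@En.n l420 (nat_lit 3657) (nat_lit 1) (nat_lit 14))
    (@En.n l12588 (nat_lit 13637) (nat_lit 2) (nat_lit 8))
    (@En.n l7117 (nat_lit 13852) (nat_lit 3) (nat_lit 4))
    (@En.n l12589 (nat_lit 13970) (nat_lit 4) (nat_lit 4))
    (@En.n l152 (nat_lit 14099) (nat_lit 5) (nat_lit 6))
    (@En.n l936 (nat_lit 13974) (nat_lit 6) (nat_lit 6))
    (@En.n l55 (nat_lit 13364) (nat_lit 8) (nat_lit 12))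
    (@En.i (nat_lit 13831) (nat_lit 9) (nat_lit 12))
    (@En.n l12589 (nat_lit 13568) (nat_lit 9) (nat_lit 4))
    (@En.n l8380 (nat_lit 13886) (nat_lit 11) (nat_lit 8))
    (@En.n l12590 (nat_lit 13570) (nat_lit 12) (nat_lit 10))
    (@En.n l4770 (nat_lit 13853) (nat_lit 13) (nat_lit 10))
    (@En.i (nat_lit 2838) (nat_lit 14) (nat_lit 12))
    (@En.n l17 (nat_lit 13574) (nat_lit 14) (nat_lit 2))
    (@En.n l18 (nat_lit 13574) (nat_lit 15) (nat_lit 2))))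
  (@Cl.mk (nat_lit 0x20002000c0006000a000a0004000e000c0002000600060004000a000e000e) (nat_lit 0x205408800006bc) (nat_lit 16) Lb.e (@T16.mk En
    (@En.n l97 (nat_lit 13575) (nat_lit 1) (nat_lit 14))
    (@En.i (nat_lit 3557) (nat_lit 11) (nat_lit 14))
    (@En.n l3297 (nat_lit 13590) (nat_lit 2) (nat_lit 10))
    (@En.i (nat_lit 13163) (nat_lit 3) (nat_lit 4))
    (@En.n l764 (nat_lit 13595) (nat_lit 4) (nat_lit 6))
    (@En.n l847 (nat_lit 13166) (nat_lit 5) (nat_lit 6))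
    (@En.n l50 (nat_lit 13575) (nat_lit 6) (nat_lit 2))
    (@En.n l217 (nat_lit 13568) (nat_lit 8) (nat_lit 12))
    (@En.n l2302 (nat_lit 13591) (nat_lit 9) (nat_lit 14))
    (@En.n l1030 (nat_lit 13849) (nat_lit 9) (nat_lit 4))
    (@En.n l2570 (nat_lit 13569) (nat_lit 11) (nat_lit 10))
    (@En.i (nat_lit 13850) (nat_lit 12) (nat_lit 10))
    (@En.n l12609 (nat_lit 13926) (nat_lit 13) (nat_lit 6))
    (@En.i (nat_lit 2165) (nat_lit 7) (nat_lit 12))
    (@En.n l107 (nat_lit 13575) (nat_lit 14) (nat_lit 2))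
    (@En.n l3 (nat_lit 13575) (nat_lit 15) (nat_lit 2))))
  (@Cl.mk (nat_lit 0x2000200090006000a000e000b0002000c0007000600050004000a000e000e) (nat_lit 0x205b60800003bc) (nat_lit 16) Lb.e (@T16.mk En
    (@En.n l97 (nat_lit 13576) (nat_lit 1) (nat_lit 14))
    (@En.i (nat_lit 1378) (nat_lit 9) (nat_lit 14))
    (@En.n l4839 (nat_lit 13349) (nat_lit 2) (nat_lit 10))
    (@En.n l763 (nat_lit 13516) (nat_lit 3) (nat_lit 4))
    (@En.n l105 (nat_lit 13503) (nat_lit 4) (nat_lit 5))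
    (@En.i (nat_lit 286) (nat_lit 5) (nat_lit 6))
    (@En.n l105 (nat_lit 13285) (nat_lit 6) (nat_lit 7))
    (@En.n l765 (nat_lit 13578) (nat_lit 8) (nat_lit 12))
    (@En.n l50 (nat_lit 13576) (nat_lit 8) (nat_lit 2))
    (@En.n l217 (nat_lit 13502) (nat_lit 10) (nat_lit 11))
    (@En.n l1546 (nat_lit 13532) (nat_lit 11) (nat_lit 14))
    (@En.n l4840 (nat_lit 13768) (nat_lit 12) (nat_lit 10))
    (@En.n l105 (nat_lit 13717) (nat_lit 13) (nat_lit 6))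
    (@En.n l2900 (nat_lit 1570) (nat_lit 14) (nat_lit 9))
    (@En.n l107 (nat_lit 13576) (nat_lit 14) (nat_lit 2))
    (@En.n l3 (nat_lit 13576) (nat_lit 15) (nat_lit 2))))
  (@Cl.mk (nat_lit 0x2000200090006000a0009000e000c00020007000600040007000a000e000e) (nat_lit 0x1034c3000003bc) (nat_lit 16) Lb.e (@T16.mk En
    (@En.n l97 (nat_lit 13577) (nat_lit 1) (nat_lit 14))
    (@En.i (nat_lit 854) (nat_lit 10) (nat_lit 14))
    (@En.n l11980 (nat_lit 13496) (nat_lit 2) (nat_lit 10))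
    (@En.n l699 (nat_lit 13816) (nat_lit 3) (nat_lit 7))
    (@En.n l11980 (nat_lit 13525) (nat_lit 4) (nat_lit 4))
    (@En.i (nat_lit 13126) (nat_lit 5) (nat_lit 6))
    (@En.n l2650 (nat_lit 13624) (nat_lit 6) (nat_lit 7))
    (@En.n l18 (nat_lit 13577) (nat_lit 7) (nat_lit 2))
    (@En.n l1708 (nat_lit 13578) (nat_lit 9) (nat_lit 12))
    (@En.n l1063 (nat_lit 13576) (nat_lit 10) (nat_lit 14))
    (@En.n l890 (nat_lit 13579) (nat_lit 11) (nat_lit 9))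
    (@En.n l2650 (nat_lit 13770) (nat_lit 12) (nat_lit 10))
    (@En.n l1875 (nat_lit 13716) (nat_lit 13) (nat_lit 6))
    (@En.i (nat_lit 425) (nat_lit 5) (nat_lit 9))
    (@En.n l107 (nat_lit 13577) (nat_lit 14) (nat_lit 2))
    (@En.n l3 (nat_lit 13577) (nat_lit 15) (nat_lit 2))))
  (@Cl.mk (nat_lit 0x20002000a0006000b0009000c000c00060005000400040007000a000e000e) (nat_lit 0x103527000004bc) (nat_lit 16) Lb.e (@T16.mk En
    (@En.n l97 (nat_lit 13578) (nat_lit 1) (nat_lit 14))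
    (@En.i (nat_lit 855) (nat_lit 1) (nat_lit 14))
    (@En.n l387 (nat_lit 13495) (nat_lit 2) (nat_lit 10))
    (@En.n l2114 (nat_lit 13577) (nat_lit 3) (nat_lit 7))
    (@En.n l1959 (nat_lit 13577) (nat_lit 4) (nat_lit 4))
    (@En.n l12573 (nat_lit 13418) (nat_lit 5) (nat_lit 4))
    (@En.i (nat_lit 13124) (nat_lit 6) (nat_lit 5))
    (@En.n l12640 (nat_lit 13622) (nat_lit 7) (nat_lit 6))
    (@En.n l2337 (nat_lit 13581) (nat_lit 9) (nat_lit 12))
    (@En.i (nat_lit 13501) (nat_lit 10) (nat_lit 12))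
    (@En.n l2019 (nat_lit 13580) (nat_lit 11) (nat_lit 9))
    (@En.n l12331 (nat_lit 14044) (nat_lit 12) (nat_lit 11))
    (@En.n l12573 (nat_lit 12945) (nat_lit 13) (nat_lit 6))
    (@En.i (nat_lit 429) (nat_lit 14) (nat_lit 10))
    (@En.n l107 (nat_lit 13578) (nat_lit 14) (nat_lit 2))
    (@En.n l3 (nat_lit 13578) (nat_lit 15) (nat_lit 2))))
  (@Cl.mk (nat_lit 0x20002000a00060009000e000c00020006000d000400070003000a000e000e) (nat_lit 0x103c60040004ab) (nat_lit 16) Lb.e (@T16.mk En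
    (@En.n l97 (nat_lit 13579) (nat_lit 1) (nat_lit 14))
    (@En.i (nat_lit 374) (nat_lit 9) (nat_lit 14))
    (@En.n l1722 (nat_lit 13577) (nat_lit 2) (nat_lit 10))
    (@En.n l2364 (nat_lit 13584) (nat_lit 3) (nat_lit 3))
    (@En.i (nat_lit 13815) (nat_lit 11) (nat_lit 7))
    (@En.i (nat_lit 13527) (nat_lit 5) (nat_lit 4))
    (@En.n l5609 (nat_lit 249) (nat_lit 7) (nat_lit 13))
    (@En.i (nat_lit 13625) (nat_lit 7) (nat_lit 6))
    (@En.n l50 (nat_lit 13579) (nat_lit 8) (nat_lit 2))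
    (@En.i (nat_lit 13580) (nat_lit 10) (nat_lit 12))
    (@En.n l601 (nat_lit 13585) (nat_lit 11) (nat_lit 14))
    (@En.n l2031 (nat_lit 13172) (nat_lit 12) (nat_lit 9))
    (@En.n l12534 (nat_lit 13659) (nat_lit 13) (nat_lit 6))
    (@En.i (nat_lit 420) (nat_lit 4) (nat_lit 10))
    (@En.n l107 (nat_lit 13579) (nat_lit 14) (nat_lit 2))
    (@En.n l3 (nat_lit 13579) (nat_lit 15) (nat_lit 2))))
  (@Cl.mk (nat_lit 0x20002000b00060009000c000c0005000c0004000400070004000a000e000e) (nat_lit 0x10455040000512) (nat_lit 16) Lb.e (@T16.mk En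
    (@En.n l97 (nat_lit 13580) (nat_lit 1) (nat_lit 14))
    (@En.i (nat_lit 317) (nat_lit 1) (nat_lit 14))
    (@En.n l6508 (nat_lit 13578) (nat_lit 2) (nat_lit 10))
    (@En.n l5834 (nat_lit 13582) (nat_lit 3) (nat_lit 4))
    (@En.n l7 (nat_lit 13579) (nat_lit 4) (nat_lit 7))
    (@En.n l644 (nat_lit 13579) (nat_lit 5) (nat_lit 4))
    (@En.n l5838 (nat_lit 13421) (nat_lit 6) (nat_lit 4))
    (@En.n l5609 (nat_lit 247) (nat_lit 8) (nat_lit 12))
    (@En.i (nat_lit 13623) (nat_lit 8) (nat_lit 5))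
    (@En.n l5837 (nat_lit 13127) (nat_lit 10) (nat_lit 12))
    (@En.n l5838 (nat_lit 13583) (nat_lit 11) (nat_lit 12))
    (@En.n l26405 (nat_lit 13173) (nat_lit 12) (nat_lit 9))
    (@En.n l12534 (nat_lit 12944) (nat_lit 13) (nat_lit 6))
    (@En.n l1998 (nat_lit 424) (nat_lit 14) (nat_lit 11))
    (@En.n l107 (nat_lit 13580) (nat_lit 14) (nat_lit 2))
    (@En.n l3 (nat_lit 13580) (nat_lit 15) (nat_lit 2))))
  (@Cl.mk (nat_lit 0x20002000b0006000c0009000c00050004000e000400020007000a000e000e) (nat_lit 0x303660090005bc) (nat_lit 16) Lb.e (@T16.mk En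
    (@En.n l97 (nat_lit 13581) (nat_lit 1) (nat_lit 14))
    (@En.i (nat_lit 858) (nat_lit 13) (nat_lit 14))
    (@En.n l1208 (nat_lit 13497) (nat_lit 2) (nat_lit 10))
    (@En.n l4600 (nat_lit 13578) (nat_lit 3) (nat_lit 7))
    (@En.n l18 (nat_lit 13581) (nat_lit 4) (nat_lit 2))
    (@En.n l7 (nat_lit 13578) (nat_lit 5) (nat_lit 4))
    (@En.n l396 (nat_lit 13415) (nat_lit 7) (nat_lit 14))
    (@En.n l7 (nat_lit 13125) (nat_lit 7) (nat_lit 4))
    (@En.i (nat_lit 13930) (nat_lit 8) (nat_lit 5))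
    (@En.i (nat_lit 13159) (nat_lit 10) (nat_lit 12))
    (@En.n l420 (nat_lit 13127) (nat_lit 11) (nat_lit 9))
    (@En.i (nat_lit 14045) (nat_lit 12) (nat_lit 12))
    (@En.n l1660 (nat_lit 13115) (nat_lit 13) (nat_lit 6))
    (@En.i (nat_lit 1503) (nat_lit 9) (nat_lit 11))
    (@En.n l107 (nat_lit 13581) (nat_lit 14) (nat_lit 2))
    (@En.n l3 (nat_lit 13581) (nat_lit 15) (nat_lit 2))))
  (@Cl.mk (nat_lit 0x20002000b0006000b000b000b0005000c0005000500050004000a000e000e) (nat_lit 0x10455020000512) (nat_lit 16) Lb.e (@T16.mk En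
    (@En.n l97 (nat_lit 13582) (nat_lit 1) (nat_lit 14))
    (@En.i (nat_lit 305) (nat_lit 1) (nat_lit 14))
    (@En.n l6522 (nat_lit 13502) (nat_lit 2) (nat_lit 10))
    (@En.n l5734 (nat_lit 13586) (nat_lit 3) (nat_lit 4))
    (@En.n l601 (nat_lit 13584) (nat_lit 4) (nat_lit 5))
    (@En.n l77 (nat_lit 13585) (nat_lit 5) (nat_lit 5))
    (@En.n l6064 (nat_lit 13578) (nat_lit 6) (nat_lit 5))
    (@En.n l26431 (nat_lit 240) (nat_lit 8) (nat_lit 12))
    (@En.n l26432 (nat_lit 13621) (nat_lit 8) (nat_lit 5))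
    (@En.n l397 (nat_lit 13583) (nat_lit 10) (nat_lit 11))
    (@En.n l5670 (nat_lit 13588) (nat_lit 11) (nat_lit 11))
    (@En.n l26433 (nat_lit 13983) (nat_lit 12) (nat_lit 11))
    (@En.n l26434 (nat_lit 13610) (nat_lit 13) (nat_lit 6))
    (@En.n l5852 (nat_lit 421) (nat_lit 14) (nat_lit 11))
    (@En.n l107 (nat_lit 13582) (nat_lit 14) (nat_lit 2))
    (@En.n l3 (nat_lit 13582) (nat_lit 15) (nat_lit 2))))
  (@Cl.mk (nat_lit 0x20002000c0006000c000b0004000b0004000e000500020005000a000e000e) (nat_lit 0x2044030c000612) (nat_lit 16) Lb.e (@T16.mk En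
    (@En.n l97 (nat_lit 13583) (nat_lit 1) (nat_lit 14))
    (@En.i (nat_lit 309) (nat_lit 13) (nat_lit 14))
    (@En.n l1722 (nat_lit 13501) (nat_lit 2) (nat_lit 10))
    (@En.n l640 (nat_lit 13588) (nat_lit 3) (nat_lit 5))
    (@En.n l18 (nat_lit 13583) (nat_lit 4) (nat_lit 2))
    (@En.n l5784 (nat_lit 13582) (nat_lit 5) (nat_lit 5))
    (@En.n l396 (nat_lit 13127) (nat_lit 7) (nat_lit 14))
    (@En.i (nat_lit 13581) (nat_lit 7) (nat_lit 4))
    (@En.n l2568 (nat_lit 244) (nat_lit 9) (nat_lit 11))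
    (@En.i (nat_lit 13928) (nat_lit 9) (nat_lit 4))
    (@En.n l644 (nat_lit 13124) (nat_lit 11) (nat_lit 11))
    (@En.i (nat_lit 13935) (nat_lit 12) (nat_lit 12))
    (@En.n l6052 (nat_lit 13117) (nat_lit 13) (nat_lit 6))
    (@En.n l2568 (nat_lit 1665) (nat_lit 9) (nat_lit 12))
    (@En.n l107 (nat_lit 13583) (nat_lit 14) (nat_lit 2))
    (@En.n l3 (nat_lit 13583) (nat_lit 15) (nat_lit 2))))
noncomputable def a849 : T16 Cl := @T16.mk Cl
  (@Cl.mk (nat_lit 0x20002000a0006000a000e000b00020006000d000600050003000a000e000e) (nat_lit 0x104c60040004ab) (nat_lit 16) Lb.e (@T16.mk En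
    (@En.n l97 (nat_lit 13584) (nat_lit 1) (nat_lit 14))
    (@En.i (nat_lit 376) (nat_lit 9) (nat_lit 14))
    (@En.n l2302 (nat_lit 13591) (nat_lit 2) (nat_lit 10))
    (@En.n l763 (nat_lit 13579) (nat_lit 3) (nat_lit 3))
    (@En.i (nat_lit 13599) (nat_lit 4) (nat_lit 5))
    (@En.n l300 (nat_lit 13577) (nat_lit 5) (nat_lit 6))
    (@En.n l1000 (nat_lit 243) (nat_lit 7) (nat_lit 13))
    (@En.n l2026 (nat_lit 13135) (nat_lit 7) (nat_lit 6))
    (@En.n l50 (nat_lit 13584) (nat_lit 8) (nat_lit 2))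
    (@En.n l7 (nat_lit 13582) (nat_lit 10) (nat_lit 11))
    (@En.n l5841 (nat_lit 13587) (nat_lit 11) (nat_lit 14))
    (@En.n l12654 (nat_lit 13985) (nat_lit 12) (nat_lit 10))
    (@En.n l12655 (nat_lit 13614) (nat_lit 13) (nat_lit 6))
    (@En.n l210 (nat_lit 418) (nat_lit 4) (nat_lit 10))
    (@En.n l107 (nat_lit 13584) (nat_lit 14) (nat_lit 2))
    (@En.n l3 (nat_lit 13584) (nat_lit 15) (nat_lit 2))))
  (@Cl.mk (nat_lit 0x20002000a0006000e000b0002000c0006000d000500040003000a000e000e) (nat_lit 0x70b506020004bc) (nat_lit 16) Lb.e (@T16.mk En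
    (@En.n l97 (nat_lit 13585) (nat_lit 1) (nat_lit 14))
    (@En.i (nat_lit 1117) (nat_lit 8) (nat_lit 14))
    (@En.n l2255 (nat_lit 13576) (nat_lit 2) (nat_lit 10))
    (@En.i (nat_lit 13587) (nat_lit 3) (nat_lit 3))
    (@En.i (nat_lit 13814) (nat_lit 4) (nat_lit 4))
    (@En.i (nat_lit 13524) (nat_lit 5) (nat_lit 5))
    (@En.n l12105 (nat_lit 239) (nat_lit 7) (nat_lit 13))
    (@En.n l217 (nat_lit 13842) (nat_lit 7) (nat_lit 6))
    (@En.n l50 (nat_lit 13580) (nat_lit 9) (nat_lit 12))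
    (@En.n l7 (nat_lit 13585) (nat_lit 9) (nat_lit 2))
    (@En.i (nat_lit 13582) (nat_lit 11) (nat_lit 11))
    (@En.n l14502 (nat_lit 13639) (nat_lit 12) (nat_lit 14))
    (@En.n l25783 (nat_lit 13613) (nat_lit 13) (nat_lit 6))
    (@En.i (nat_lit 1286) (nat_lit 14) (nat_lit 10))
    (@En.n l107 (nat_lit 13585) (nat_lit 14) (nat_lit 2))
    (@En.n l3 (nat_lit 13585) (nat_lit 15) (nat_lit 2))))
  (@Cl.mk (nat_lit 0x20002000b0006000a000a000d0005000c0003000600060004000a000e000e) (nat_lit 0x104550100005ab) (nat_lit 16) Lb.e (@T16.mk En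
    (@En.n l97 (nat_lit 13586) (nat_lit 1) (nat_lit 14))
    (@En.n l12527 (nat_lit 1065) (nat_lit 1) (nat_lit 14))
    (@En.n l18 (nat_lit 13342) (nat_lit 2) (nat_lit 10))
    (@En.n l20053 (nat_lit 13580) (nat_lit 3) (nat_lit 4))
    (@En.n l18476 (nat_lit 13587) (nat_lit 4) (nat_lit 6))
    (@En.n l2376 (nat_lit 13584) (nat_lit 5) (nat_lit 6))
    (@En.n l7019 (nat_lit 13533) (nat_lit 6) (nat_lit 3))
    (@En.n l26132 (nat_lit 229) (nat_lit 8) (nat_lit 12))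
    (@En.n l4712 (nat_lit 13626) (nat_lit 8) (nat_lit 5))
    (@En.n l12529 (nat_lit 13589) (nat_lit 10) (nat_lit 13))
    (@En.n l6147 (nat_lit 13589) (nat_lit 11) (nat_lit 10))
    (@En.i (nat_lit 13984) (nat_lit 12) (nat_lit 10))
    (@En.n l4497 (nat_lit 13608) (nat_lit 13) (nat_lit 6))
    (@En.i (nat_lit 1292) (nat_lit 14) (nat_lit 11))
    (@En.n l107 (nat_lit 13586) (nat_lit 14) (nat_lit 2))
    (@En.n l3 (nat_lit 13586) (nat_lit 15) (nat_lit 2))))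
  (@Cl.mk (nat_lit 0x20002000a0006000e000a0002000d0006000d000300060003000a000e000e) (nat_lit 0x10b506020004bc) (nat_lit 16) Lb.e (@T16.mk En
    (@En.n l97 (nat_lit 13587) (nat_lit 1) (nat_lit 14))
    (@En.i (nat_lit 1119) (nat_lit 1) (nat_lit 14))
    (@En.n l18524 (nat_lit 13350) (nat_lit 2) (nat_lit 10))
    (@En.n l17 (nat_lit 13585) (nat_lit 3) (nat_lit 3))
    (@En.n l826 (nat_lit 13594) (nat_lit 4) (nat_lit 6))
    (@En.n l17 (nat_lit 13532) (nat_lit 5) (nat_lit 3))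
    (@En.n l12105 (nat_lit 242) (nat_lit 7) (nat_lit 13))
    (@En.n l2687 (nat_lit 13843) (nat_lit 7) (nat_lit 6))
    (@En.n l9508 (nat_lit 13586) (nat_lit 9) (nat_lit 13))
    (@En.n l7 (nat_lit 13587) (nat_lit 9) (nat_lit 2))
    (@En.n l5734 (nat_lit 13586) (nat_lit 11) (nat_lit 10))
    (@En.n l5734 (nat_lit 13640) (nat_lit 12) (nat_lit 14))
    (@En.n l12716 (nat_lit 13611) (nat_lit 13) (nat_lit 6))
    (@En.i (nat_lit 1289) (nat_lit 14) (nat_lit 10))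
    (@En.n l107 (nat_lit 13587) (nat_lit 14) (nat_lit 2))
    (@En.n l3 (nat_lit 13587) (nat_lit 15) (nat_lit 2))))
  (@Cl.mk (nat_lit 0x20002000c0006000b000a0004000b000e0005000200060005000a000e000e) (nat_lit 0x204501100006ab) (nat_lit 16) Lb.e (@T16.mk En
    (@En.n l97 (nat_lit 13588) (nat_lit 1) (nat_lit 14))
    (@En.i (nat_lit 307) (nat_lit 12) (nat_lit 14))
    (@En.n l14948 (nat_lit 13562) (nat_lit 2) (nat_lit 10))
    (@En.n l699 (nat_lit 13589) (nat_lit 3) (nat_lit 5))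
    (@En.n l11611 (nat_lit 13586) (nat_lit 4) (nat_lit 6))
    (@En.n l18 (nat_lit 13588) (nat_lit 5) (nat_lit 2))
    (@En.n l8357 (nat_lit 13582) (nat_lit 6) (nat_lit 5))
    (@En.n l1063 (nat_lit 677) (nat_lit 8) (nat_lit 14))
    (@En.n l26140 (nat_lit 228) (nat_lit 9) (nat_lit 11))
    (@En.n l26141 (nat_lit 13619) (nat_lit 9) (nat_lit 4))
    (@En.i (nat_lit 13126) (nat_lit 11) (nat_lit 10))
    (@En.n l26140 (nat_lit 13987) (nat_lit 12) (nat_lit 11))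
    (@En.n l14947 (nat_lit 13609) (nat_lit 13) (nat_lit 6))
    (@En.n l26141 (nat_lit 1455) (nat_lit 8) (nat_lit 12))
    (@En.n l107 (nat_lit 13588) (nat_lit 14) (nat_lit 2))
    (@En.n l3 (nat_lit 13588) (nat_lit 15) (nat_lit 2))))
  (@Cl.mk (nat_lit 0x20002000c0006000a000d0004000b0003000e000600020005000a000e000e) (nat_lit 0x104401020007ab) (nat_lit 16) Lb.e (@T16.mk En
    (@En.n l97 (nat_lit 13589) (nat_lit 1) (nat_lit 14))
    (@En.i (nat_lit 1064) (nat_lit 13) (nat_lit 14))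
    (@En.n l3178 (nat_lit 13341) (nat_lit 2) (nat_lit 10))
    (@En.i (nat_lit 13127) (nat_lit 3) (nat_lit 5))
    (@En.n l17 (nat_lit 13589) (nat_lit 4) (nat_lit 2))
    (@En.n l10916 (nat_lit 13586) (nat_lit 5) (nat_lit 6))
    (@En.n l5 (nat_lit 13588) (nat_lit 7) (nat_lit 14))
    (@En.i (nat_lit 13604) (nat_lit 7) (nat_lit 3))
    (@En.i (nat_lit 227) (nat_lit 9) (nat_lit 11))
    (@En.n l9025 (nat_lit 13620) (nat_lit 9) (nat_lit 4))
    (@En.i (nat_lit 13942) (nat_lit 5) (nat_lit 13))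
    (@En.n l12637 (nat_lit 13988) (nat_lit 12) (nat_lit 10))
    (@En.n l159 (nat_lit 13607) (nat_lit 13) (nat_lit 6))
    (@En.i (nat_lit 1454) (nat_lit 9) (nat_lit 12))
    (@En.n l107 (nat_lit 13589) (nat_lit 14) (nat_lit 2))
    (@En.n l3 (nat_lit 13589) (nat_lit 15) (nat_lit 2))))
  (@Cl.mk (nat_lit 0x20002000b0006000b000a000a0005000e0005000200060006000a000e000e) (nat_lit 0x104120900005bc) (nat_lit 16) Lb.e (@T16.mk En
    (@En.n l97 (nat_lit 13590) (nat_lit 1) (nat_lit 14))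
    (@En.i (nat_lit 2643) (nat_lit 12) (nat_lit 14))
    (@En.n l4793 (nat_lit 13345) (nat_lit 2) (nat_lit 10))
    (@En.n l7696 (nat_lit 13592) (nat_lit 3) (nat_lit 6))
    (@En.n l6984 (nat_lit 13533) (nat_lit 4) (nat_lit 6))
    (@En.n l50 (nat_lit 13590) (nat_lit 5) (nat_lit 2))
    (@En.n l6979 (nat_lit 13502) (nat_lit 6) (nat_lit 5))
    (@En.n l6980 (nat_lit 13528) (nat_lit 8) (nat_lit 14))
    (@En.i (nat_lit 13282) (nat_lit 8) (nat_lit 5))
    (@En.n l61 (nat_lit 677) (nat_lit 10) (nat_lit 10))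
    (@En.n l764 (nat_lit 289) (nat_lit 11) (nat_lit 10))
    (@En.n l13167 (nat_lit 13996) (nat_lit 12) (nat_lit 11))
    (@En.n l12950 (nat_lit 13722) (nat_lit 13) (nat_lit 6))
    (@En.i (nat_lit 1680) (nat_lit 8) (nat_lit 11))
    (@En.n l107 (nat_lit 13590) (nat_lit 14) (nat_lit 2))
    (@En.n l3 (nat_lit 13590) (nat_lit 15) (nat_lit 2))))
  (@Cl.mk (nat_lit 0x2000200090006000a000a000e000b00020007000600060005000a000e000e) (nat_lit 0x305573000003bc) (nat_lit 16) Lb.e (@T16.mk En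
    (@En.n l134 (nat_lit 13591) (nat_lit 1) (nat_lit 14))
    (@En.i (nat_lit 3681) (nat_lit 10) (nat_lit 14))
    (@En.n l15778 (nat_lit 13528) (nat_lit 2) (nat_lit 10))
    (@En.n l2221 (nat_lit 13513) (nat_lit 3) (nat_lit 5))
    (@En.n l26382 (nat_lit 13496) (nat_lit 4) (nat_lit 6))
    (@En.i (nat_lit 13802) (nat_lit 5) (nat_lit 6))
    (@En.n l6396 (nat_lit 13333) (nat_lit 6) (nat_lit 7))
    (@En.n l3 (nat_lit 13591) (nat_lit 7) (nat_lit 2))
    (@En.n l2213 (nat_lit 13502) (nat_lit 9) (nat_lit 11))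
    (@En.n l5268 (nat_lit 13350) (nat_lit 10) (nat_lit 14))
    (@En.n l15780 (nat_lit 13592) (nat_lit 11) (nat_lit 10))
    (@En.n l6392 (nat_lit 13769) (nat_lit 12) (nat_lit 10))
    (@En.n l26383 (nat_lit 13721) (nat_lit 13) (nat_lit 6))
    (@En.n l6393 (nat_lit 1702) (nat_lit 5) (nat_lit 9))
    (@En.n l7 (nat_lit 13591) (nat_lit 14) (nat_lit 2))
    (@En.n l28 (nat_lit 13591) (nat_lit 15) (nat_lit 2))))
  (@Cl.mk (nat_lit 0x20002000a0006000a000e000a00020006000e000600020006000a000e000e) (nat_lit 0x2044200a0004bc) (nat_lit 16) Lb.e (@T16.mk En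
    (@En.n l97 (nat_lit 13592) (nat_lit 1) (nat_lit 14))
    (@En.n l2373 (nat_lit 4771) (nat_lit 9) (nat_lit 14))
    (@En.n l2376 (nat_lit 13594) (nat_lit 2) (nat_lit 10))
    (@En.n l17484 (nat_lit 13420) (nat_lit 3) (nat_lit 6))
    (@En.n l50 (nat_lit 13592) (nat_lit 4) (nat_lit 2))
    (@En.n l7045 (nat_lit 13591) (nat_lit 5) (nat_lit 6))
    (@En.n l2373 (nat_lit 13593) (nat_lit 7) (nat_lit 14))
    (@En.n l2378 (nat_lit 13955) (nat_lit 7) (nat_lit 6))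
    (@En.n l725 (nat_lit 13592) (nat_lit 8) (nat_lit 2))
    (@En.n l7046 (nat_lit 13590) (nat_lit 10) (nat_lit 10))
    (@En.n l7047 (nat_lit 13416) (nat_lit 11) (nat_lit 14))
    (@En.i (nat_lit 13965) (nat_lit 12) (nat_lit 10))
    (@En.n l17484 (nat_lit 13597) (nat_lit 13) (nat_lit 6))
    (@En.n l2373 (nat_lit 1914) (nat_lit 4) (nat_lit 10))
    (@En.n l107 (nat_lit 13592) (nat_lit 14) (nat_lit 2))
    (@En.n l3 (nat_lit 13592) (nat_lit 15) (nat_lit 2))))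
  (@Cl.mk (nat_lit 0x2000200070006000b000e000a0002000e0005000200090006000a000e000e) (nat_lit 0x7850900501bc) (nat_lit 16) Lb.e (@T16.mk En
    (@En.n l134 (nat_lit 13593) (nat_lit 1) (nat_lit 14))
    (@En.i (nat_lit 1226) (nat_lit 12) (nat_lit 14))
    (@En.n l27410 (nat_lit 241) (nat_lit 2) (nat_lit 10))
    (@En.n l2520 (nat_lit 13604) (nat_lit 3) (nat_lit 6))
    (@En.i (nat_lit 13596) (nat_lit 4) (nat_lit 9))
    (@En.n l725 (nat_lit 13593) (nat_lit 5) (nat_lit 2))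
    (@En.n l17 (nat_lit 13530) (nat_lit 6) (nat_lit 5))
    (@En.n l1003 (nat_lit 13518) (nat_lit 8) (nat_lit 14))
    (@En.n l3 (nat_lit 13593) (nat_lit 8) (nat_lit 2))
    (@En.n l6551 (nat_lit 13528) (nat_lit 10) (nat_lit 10))
    (@En.n l2520 (nat_lit 13817) (nat_lit 11) (nat_lit 14))
    (@En.n l16615 (nat_lit 12865) (nat_lit 12) (nat_lit 11))
    (@En.n l27411 (nat_lit 13663) (nat_lit 13) (nat_lit 6))
    (@En.i (nat_lit 1355) (nat_lit 14) (nat_lit 7))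
    (@En.n l7 (nat_lit 13593) (nat_lit 14) (nat_lit 2))
    (@En.n l28 (nat_lit 13593) (nat_lit 15) (nat_lit 2))))
  (@Cl.mk (nat_lit 0x2000200090006000d000a000e000300020007000e00060002000a000e000e) (nat_lit 0x6075c0006003bc) (nat_lit 16) Lb.e (@T16.mk En
    (@En.n l97 (nat_lit 13594) (nat_lit 1) (nat_lit 14))
    (@En.i (nat_lit 686) (nat_lit 10) (nat_lit 14))
    (@En.n l5421 (nat_lit 13512) (nat_lit 2) (nat_lit 10))
    (@En.n l17 (nat_lit 13594) (nat_lit 3) (nat_lit 2))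
    (@En.n l6980 (nat_lit 13528) (nat_lit 4) (nat_lit 6))
    (@En.n l1000 (nat_lit 241) (nat_lit 6) (nat_lit 14))
    (@En.i (nat_lit 13130) (nat_lit 6) (nat_lit 7))
    (@En.n l50 (nat_lit 13594) (nat_lit 7) (nat_lit 2))
    (@En.n l7 (nat_lit 13599) (nat_lit 8) (nat_lit 3))
    (@En.n l4799 (nat_lit 14063) (nat_lit 10) (nat_lit 14))
    (@En.i (nat_lit 13584) (nat_lit 11) (nat_lit 10))
    (@En.n l20065 (nat_lit 13598) (nat_lit 12) (nat_lit 13))
    (@En.n l5421 (nat_lit 13603) (nat_lit 13) (nat_lit 6))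
    (@En.i (nat_lit 1889) (nat_lit 5) (nat_lit 9))
    (@En.n l107 (nat_lit 13594) (nat_lit 14) (nat_lit 2))
    (@En.n l3 (nat_lit 13594) (nat_lit 15) (nat_lit 2))))
  (@Cl.mk (nat_lit 0x20002000b0006000e000a00020005000e000d000200060003000a000e000e) (nat_lit 0x10a600990005bc) (nat_lit 16) Lb.e (@T16.mk En
    (@En.n l97 (nat_lit 13595) (nat_lit 1) (nat_lit 14))
    (@En.n l2366 (nat_lit 3554) (nat_lit 8) (nat_lit 14))
    (@En.i (nat_lit 13592) (nat_lit 2) (nat_lit 10))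
    (@En.n l2368 (nat_lit 14101) (nat_lit 3) (nat_lit 3))
    (@En.n l2369 (nat_lit 13340) (nat_lit 4) (nat_lit 6))
    (@En.n l50 (nat_lit 13595) (nat_lit 5) (nat_lit 2))
    (@En.n l2361 (nat_lit 14101) (nat_lit 7) (nat_lit 13))
    (@En.n l7042 (nat_lit 13496) (nat_lit 8) (nat_lit 14))
    (@En.n l7043 (nat_lit 13257) (nat_lit 8) (nat_lit 5))
    (@En.n l725 (nat_lit 13595) (nat_lit 9) (nat_lit 2))
    (@En.n l2364 (nat_lit 13575) (nat_lit 11) (nat_lit 10))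
    (@En.i (nat_lit 14098) (nat_lit 12) (nat_lit 14))
    (@En.n l7044 (nat_lit 13921) (nat_lit 13) (nat_lit 6))
    (@En.n l2366 (nat_lit 1801) (nat_lit 3) (nat_lit 11))
    (@En.n l107 (nat_lit 13595) (nat_lit 14) (nat_lit 2))
    (@En.n l3 (nat_lit 13595) (nat_lit 15) (nat_lit 2))))
  (@Cl.mk (nat_lit 0x200020007000a0007000b000e000b000200060005000900050009000e000e) (nat_lit 0x30578000402ab) (nat_lit 16) Lb.e (@T16.mk En
    (@En.n l134 (nat_lit 13596) (nat_lit 1) (nat_lit 14))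
    (@En.i (nat_lit 5991) (nat_lit 10) (nat_lit 14))
    (@En.n l9502 (nat_lit 13808) (nat_lit 2) (nat_lit 9))
    (@En.n l117 (nat_lit 13627) (nat_lit 3) (nat_lit 5))
    (@En.n l9501 (nat_lit 13800) (nat_lit 4) (nat_lit 9))
    (@En.n l17 (nat_lit 13801) (nat_lit 5) (nat_lit 5))
    (@En.i (nat_lit 13791) (nat_lit 6) (nat_lit 6))
    (@En.n l3 (nat_lit 13596) (nat_lit 7) (nat_lit 2))
    (@En.n l5646 (nat_lit 13134) (nat_lit 9) (nat_lit 11))
    (@En.i (nat_lit 13557) (nat_lit 10) (nat_lit 14))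
    (@En.n l1203 (nat_lit 13661) (nat_lit 11) (nat_lit 11))
    (@En.n l5595 (nat_lit 13325) (nat_lit 12) (nat_lit 7))
    (@En.n l7058 (nat_lit 13592) (nat_lit 13) (nat_lit 10))
    (@En.i (nat_lit 7789) (nat_lit 5) (nat_lit 7))
    (@En.n l7 (nat_lit 13596) (nat_lit 14) (nat_lit 2))
    (@En.n l28 (nat_lit 13596) (nat_lit 15) (nat_lit 2))))
  (@Cl.mk (nat_lit 0x200020006000a000e000a0002000a000e000600020006000a0006000e000e) (nat_lit 0x2350770004012) (nat_lit 16) Lb.e (@T16.mk En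
    (@En.n l5 (nat_lit 13597) (nat_lit 1) (nat_lit 14))
    (@En.n l7124 (nat_lit 696) (nat_lit 12) (nat_lit 14))
    (@En.n l17621 (nat_lit 13705) (nat_lit 2) (nat_lit 6))
    (@En.n l3 (nat_lit 13603) (nat_lit 3) (nat_lit 10))
    (@En.i (nat_lit 13056) (nat_lit 4) (nat_lit 6))
    (@En.n l2461 (nat_lit 13597) (nat_lit 5) (nat_lit 2))
    (@En.n l3549 (nat_lit 13721) (nat_lit 6) (nat_lit 6))
    (@En.n l7119 (nat_lit 13663) (nat_lit 8) (nat_lit 14))
    (@En.n l7120 (nat_lit 13834) (nat_lit 9) (nat_lit 10))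
    (@En.n l11 (nat_lit 13597) (nat_lit 9) (nat_lit 2))
    (@En.n l7121 (nat_lit 13722) (nat_lit 11) (nat_lit 10))
    (@En.n l12671 (nat_lit 13045) (nat_lit 12) (nat_lit 14))
    (@En.n l17622 (nat_lit 13640) (nat_lit 13) (nat_lit 10))
    (@En.i (nat_lit 697) (nat_lit 7) (nat_lit 6))
    (@En.n l17 (nat_lit 13597) (nat_lit 14) (nat_lit 2))
    (@En.n l18 (nat_lit 13597) (nat_lit 15) (nat_lit 2))))
  (@Cl.mk (nat_lit 0x200020009000d0009000d0003000a00030007000e000700020006000e000e) (nat_lit 0x16460300400012) (nat_lit 16) Lb.e (@T16.mk En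
    (@En.n l5 (nat_lit 13598) (nat_lit 1) (nat_lit 14))
    (@En.n l17489 (nat_lit 6088) (nat_lit 1) (nat_lit 14))
    (@En.n l26451 (nat_lit 13798) (nat_lit 2) (nat_lit 6))
    (@En.n l3 (nat_lit 13598) (nat_lit 3) (nat_lit 2))
    (@En.i (nat_lit 12869) (nat_lit 4) (nat_lit 7))
    (@En.i (nat_lit 13914) (nat_lit 6) (nat_lit 14))
    (@En.n l26452 (nat_lit 13602) (nat_lit 6) (nat_lit 7))
    (@En.n l5252 (nat_lit 13601) (nat_lit 7) (nat_lit 3))
    (@En.n l17622 (nat_lit 13592) (nat_lit 9) (nat_lit 10))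
    (@En.n l4751 (nat_lit 13600) (nat_lit 9) (nat_lit 3))
    (@En.n l17624 (nat_lit 13277) (nat_lit 11) (nat_lit 13))
    (@En.n l25760 (nat_lit 13633) (nat_lit 12) (nat_lit 9))
    (@En.n l5252 (nat_lit 13937) (nat_lit 13) (nat_lit 13))
    (@En.n l253 (nat_lit 7826) (nat_lit 10) (nat_lit 9))
    (@En.n l17 (nat_lit 13598) (nat_lit 14) (nat_lit 2))
    (@En.n l18 (nat_lit 13598) (nat_lit 15) (nat_lit 2))))
  (@Cl.mk (nat_lit 0x2000200090006000d000d000b000300030007000e00050002000a000e000e) (nat_lit 0x6078600030039a) (nat_lit 16) Lb.e (@T16.mk En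
    (@En.n l97 (nat_lit 13599) (nat_lit 1) (nat_lit 14))
    (@En.i (nat_lit 690) (nat_lit 1) (nat_lit 14))
    (@En.n l1722 (nat_lit 13513) (nat_lit 2) (nat_lit 10))
    (@En.n l17 (nat_lit 13599) (nat_lit 3) (nat_lit 2))
    (@En.n l4172 (nat_lit 13526) (nat_lit 4) (nat_lit 5))
    (@En.n l2031 (nat_lit 238) (nat_lit 6) (nat_lit 14))
    (@En.i (nat_lit 13131) (nat_lit 6) (nat_lit 7))
    (@En.n l50 (nat_lit 13814) (nat_lit 7) (nat_lit 3))
    (@En.i (nat_lit 13594) (nat_lit 8) (nat_lit 3))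
    (@En.i (nat_lit 13585) (nat_lit 10) (nat_lit 11))
    (@En.n l601 (nat_lit 13594) (nat_lit 11) (nat_lit 13))
    (@En.n l2031 (nat_lit 13600) (nat_lit 12) (nat_lit 13))
    (@En.n l159 (nat_lit 13650) (nat_lit 13) (nat_lit 6))
    (@En.i (nat_lit 1236) (nat_lit 14) (nat_lit 9))
    (@En.n l107 (nat_lit 13599) (nat_lit 14) (nat_lit 2))
    (@En.n l3 (nat_lit 13599) (nat_lit 15) (nat_lit 2))))
noncomputable def a850 : T16 Cl := @T16.mk Cl
  (@Cl.mk (nat_lit 0x200020009000d000c000a0003000a00040007000e000600020006000e000e) (nat_lit 0x26450800600012) (nat_lit 16) Lb.e (@T16.mk En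
    (@En.n l5 (nat_lit 13600) (nat_lit 1) (nat_lit 14))
    (@En.n l1997 (nat_lit 6090) (nat_lit 1) (nat_lit 14))
    (@En.n l3100 (nat_lit 13793) (nat_lit 2) (nat_lit 6))
    (@En.n l28 (nat_lit 13600) (nat_lit 3) (nat_lit 2))
    (@En.n l26215 (nat_lit 12868) (nat_lit 4) (nat_lit 6))
    (@En.i (nat_lit 13915) (nat_lit 6) (nat_lit 14))
    (@En.n l26216 (nat_lit 13649) (nat_lit 6) (nat_lit 7))
    (@En.n l117 (nat_lit 13555) (nat_lit 7) (nat_lit 4))
    (@En.n l1997 (nat_lit 13345) (nat_lit 9) (nat_lit 10))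
    (@En.n l2469 (nat_lit 13598) (nat_lit 9) (nat_lit 3))
    (@En.n l575 (nat_lit 13639) (nat_lit 11) (nat_lit 10))
    (@En.n l5372 (nat_lit 13601) (nat_lit 12) (nat_lit 12))
    (@En.n l5366 (nat_lit 13938) (nat_lit 13) (nat_lit 13))
    (@En.n l2568 (nat_lit 7824) (nat_lit 10) (nat_lit 9))
    (@En.n l17 (nat_lit 13600) (nat_lit 14) (nat_lit 2))
    (@En.n l18 (nat_lit 13600) (nat_lit 15) (nat_lit 2))))
  (@Cl.mk (nat_lit 0x200020009000c0009000d0009000400030007000e000700020007000e000e) (nat_lit 0x13455000b00089) (nat_lit 16) Lb.e (@T16.mk En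
    (@En.n l97 (nat_lit 13601) (nat_lit 1) (nat_lit 14))
    (@En.i (nat_lit 6089) (nat_lit 1) (nat_lit 14))
    (@En.n l13408 (nat_lit 13789) (nat_lit 2) (nat_lit 7))
    (@En.n l17 (nat_lit 13601) (nat_lit 3) (nat_lit 2))
    (@En.n l13409 (nat_lit 12867) (nat_lit 4) (nat_lit 7))
    (@En.n l9025 (nat_lit 13913) (nat_lit 6) (nat_lit 14))
    (@En.n l13410 (nat_lit 13600) (nat_lit 6) (nat_lit 7))
    (@En.n l13411 (nat_lit 13598) (nat_lit 7) (nat_lit 3))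
    (@En.n l28 (nat_lit 13554) (nat_lit 8) (nat_lit 4))
    (@En.n l13412 (nat_lit 13541) (nat_lit 10) (nat_lit 9))
    (@En.i (nat_lit 13272) (nat_lit 11) (nat_lit 13))
    (@En.n l601 (nat_lit 13632) (nat_lit 12) (nat_lit 9))
    (@En.i (nat_lit 13968) (nat_lit 13) (nat_lit 12))
    (@En.n l9025 (nat_lit 7825) (nat_lit 10) (nat_lit 9))
    (@En.n l107 (nat_lit 13601) (nat_lit 14) (nat_lit 2))
    (@En.n l3 (nat_lit 13601) (nat_lit 15) (nat_lit 2))))
  (@Cl.mk (nat_lit 0x200020009000d000d000a00030003000b0007000e000600020005000e000e) (nat_lit 0x134500902000bc) (nat_lit 16) Lb.e (@T16.mk En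
    (@En.n l97 (nat_lit 13602) (nat_lit 1) (nat_lit 14))
    (@En.i (nat_lit 1208) (nat_lit 1) (nat_lit 14))
    (@En.n l12225 (nat_lit 13693) (nat_lit 2) (nat_lit 5))
    (@En.n l17 (nat_lit 13602) (nat_lit 3) (nat_lit 2))
    (@En.n l11991 (nat_lit 13651) (nat_lit 4) (nat_lit 6))
    (@En.n l524 (nat_lit 13650) (nat_lit 6) (nat_lit 14))
    (@En.i (nat_lit 13599) (nat_lit 6) (nat_lit 7))
    (@En.n l4402 (nat_lit 13955) (nat_lit 8) (nat_lit 11))
    (@En.n l50 (nat_lit 13649) (nat_lit 8) (nat_lit 3))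
    (@En.n l5382 (nat_lit 13648) (nat_lit 9) (nat_lit 3))
    (@En.i (nat_lit 13646) (nat_lit 11) (nat_lit 10))
    (@En.n l25926 (nat_lit 13648) (nat_lit 12) (nat_lit 13))
    (@En.n l532 (nat_lit 13936) (nat_lit 13) (nat_lit 13))
    (@En.n l11991 (nat_lit 2005) (nat_lit 10) (nat_lit 9))
    (@En.n l107 (nat_lit 13602) (nat_lit 14) (nat_lit 2))
    (@En.n l3 (nat_lit 13602) (nat_lit 15) (nat_lit 2))))
  (@Cl.mk (nat_lit 0x200020006000d000a000e00030002000b000e00060002000a0005000e000e) (nat_lit 0x44c0081003012) (nat_lit 16) Lb.e (@T16.mk En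
    (@En.n l5 (nat_lit 13603) (nat_lit 1) (nat_lit 14))
    (@En.n l12335 (nat_lit 682) (nat_lit 1) (nat_lit 14))
    (@En.n l181 (nat_lit 13648) (nat_lit 2) (nat_lit 5))
    (@En.i (nat_lit 13686) (nat_lit 3) (nat_lit 10))
    (@En.n l476 (nat_lit 13603) (nat_lit 4) (nat_lit 2))
    (@En.n l3549 (nat_lit 13667) (nat_lit 5) (nat_lit 6))
    (@En.n l12260 (nat_lit 231) (nat_lit 7) (nat_lit 14))
    (@En.n l11814 (nat_lit 13839) (nat_lit 8) (nat_lit 11))
    (@En.n l11 (nat_lit 13603) (nat_lit 8) (nat_lit 2))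
    (@En.n l18528 (nat_lit 13650) (nat_lit 9) (nat_lit 3))
    (@En.n l513 (nat_lit 14072) (nat_lit 11) (nat_lit 14))
    (@En.n l12260 (nat_lit 13614) (nat_lit 12) (nat_lit 10))
    (@En.i (nat_lit 13933) (nat_lit 13) (nat_lit 13))
    (@En.n l1735 (nat_lit 683) (nat_lit 14) (nat_lit 6))
    (@En.n l17 (nat_lit 13603) (nat_lit 14) (nat_lit 2))
    (@En.n l18 (nat_lit 13603) (nat_lit 15) (nat_lit 2))))
  (@Cl.mk (nat_lit 0x20002000b0006000a000d000a00050003000e000600020006000a000e000e) (nat_lit 0x204a600a0005ab) (nat_lit 16) Lb.e (@T16.mk En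
    (@En.n l97 (nat_lit 13604) (nat_lit 1) (nat_lit 14))
    (@En.i (nat_lit 1069) (nat_lit 13) (nat_lit 14))
    (@En.n l3178 (nat_lit 13340) (nat_lit 2) (nat_lit 10))
    (@En.i (nat_lit 13421) (nat_lit 3) (nat_lit 6))
    (@En.n l17 (nat_lit 13604) (nat_lit 4) (nat_lit 2))
    (@En.n l8466 (nat_lit 13533) (nat_lit 5) (nat_lit 6))
    (@En.n l1708 (nat_lit 13590) (nat_lit 7) (nat_lit 14))
    (@En.n l7 (nat_lit 13589) (nat_lit 7) (nat_lit 3))
    (@En.i (nat_lit 13248) (nat_lit 8) (nat_lit 5))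
    (@En.n l420 (nat_lit 13588) (nat_lit 10) (nat_lit 10))
    (@En.i (nat_lit 13945) (nat_lit 5) (nat_lit 13))
    (@En.n l13760 (nat_lit 13989) (nat_lit 12) (nat_lit 10))
    (@En.n l159 (nat_lit 13605) (nat_lit 13) (nat_lit 6))
    (@En.n l1559 (nat_lit 1712) (nat_lit 9) (nat_lit 11))
    (@En.n l107 (nat_lit 13604) (nat_lit 14) (nat_lit 2))
    (@En.n l3 (nat_lit 13604) (nat_lit 15) (nat_lit 2))))
  (@Cl.mk (nat_lit 0x200020006000a000d000a00090003000e000600020006000a0007000e000e) (nat_lit 0x3545080006023) (nat_lit 16) Lb.e (@T16.mk En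
    (@En.n l180 (nat_lit 13605) (nat_lit 1) (nat_lit 14))
    (@En.i (nat_lit 491) (nat_lit 12) (nat_lit 14))
    (@En.n l619 (nat_lit 13196) (nat_lit 2) (nat_lit 7))
    (@En.n l13057 (nat_lit 13914) (nat_lit 3) (nat_lit 10))
    (@En.n l9771 (nat_lit 13055) (nat_lit 4) (nat_lit 6))
    (@En.n l17 (nat_lit 13605) (nat_lit 5) (nat_lit 2))
    (@En.n l25953 (nat_lit 13606) (nat_lit 6) (nat_lit 6))
    (@En.n l22485 (nat_lit 13722) (nat_lit 8) (nat_lit 14))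
    (@En.n l7 (nat_lit 13607) (nat_lit 8) (nat_lit 3))
    (@En.n l25954 (nat_lit 13662) (nat_lit 10) (nat_lit 9))
    (@En.n l25955 (nat_lit 13609) (nat_lit 11) (nat_lit 10))
    (@En.i (nat_lit 13947) (nat_lit 12) (nat_lit 13))
    (@En.n l1643 (nat_lit 13634) (nat_lit 13) (nat_lit 10))
    (@En.i (nat_lit 490) (nat_lit 7) (nat_lit 6))
    (@En.n l11 (nat_lit 13605) (nat_lit 14) (nat_lit 2))
    (@En.n l107 (nat_lit 13605) (nat_lit 15) (nat_lit 2))))
  (@Cl.mk (nat_lit 0x200020006000a000a000d000b000a0003000600060005000a0006000e000e) (nat_lit 0x4465700005023) (nat_lit 16) Lb.e (@T16.mk En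
    (@En.n l5 (nat_lit 13606) (nat_lit 1) (nat_lit 14))
    (@En.n l17488 (nat_lit 487) (nat_lit 1) (nat_lit 14))
    (@En.i (nat_lit 12915) (nat_lit 2) (nat_lit 6))
    (@En.n l3548 (nat_lit 13910) (nat_lit 3) (nat_lit 10))
    (@En.n l17474 (nat_lit 13658) (nat_lit 4) (nat_lit 5))
    (@En.n l3 (nat_lit 13612) (nat_lit 5) (nat_lit 6))
    (@En.n l9697 (nat_lit 13717) (nat_lit 6) (nat_lit 6))
    (@En.n l4948 (nat_lit 13608) (nat_lit 7) (nat_lit 3))
    (@En.n l25758 (nat_lit 13661) (nat_lit 9) (nat_lit 10))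
    (@En.n l21405 (nat_lit 13610) (nat_lit 10) (nat_lit 11))
    (@En.n l6650 (nat_lit 13605) (nat_lit 11) (nat_lit 13))
    (@En.n l25759 (nat_lit 13605) (nat_lit 12) (nat_lit 10))
    (@En.n l25760 (nat_lit 13633) (nat_lit 13) (nat_lit 10))
    (@En.i (nat_lit 488) (nat_lit 14) (nat_lit 6))
    (@En.n l17 (nat_lit 13606) (nat_lit 14) (nat_lit 2))
    (@En.n l18 (nat_lit 13606) (nat_lit 15) (nat_lit 2))))
  (@Cl.mk (nat_lit 0x200020006000a000d0008000b0003000e000600020005000a0008000e000e) (nat_lit 0x34620200072bc) (nat_lit 16) Lb.e (@T16.mk En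
    (@En.n l180 (nat_lit 13607) (nat_lit 1) (nat_lit 14))
    (@En.i (nat_lit 414) (nat_lit 12) (nat_lit 14))
    (@En.n l2038 (nat_lit 13616) (nat_lit 2) (nat_lit 8))
    (@En.n l5381 (nat_lit 13913) (nat_lit 3) (nat_lit 10))
    (@En.n l2866 (nat_lit 13116) (nat_lit 4) (nat_lit 5))
    (@En.n l17 (nat_lit 13607) (nat_lit 5) (nat_lit 2))
    (@En.n l2030 (nat_lit 13608) (nat_lit 6) (nat_lit 6))
    (@En.n l2034 (nat_lit 13609) (nat_lit 8) (nat_lit 14))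
    (@En.i (nat_lit 13605) (nat_lit 8) (nat_lit 3))
    (@En.n l1998 (nat_lit 225) (nat_lit 10) (nat_lit 11))
    (@En.n l5050 (nat_lit 13484) (nat_lit 11) (nat_lit 8))
    (@En.i (nat_lit 13944) (nat_lit 5) (nat_lit 13))
    (@En.n l1643 (nat_lit 13625) (nat_lit 13) (nat_lit 10))
    (@En.i (nat_lit 415) (nat_lit 7) (nat_lit 6))
    (@En.n l11 (nat_lit 13607) (nat_lit 14) (nat_lit 2))
    (@En.n l107 (nat_lit 13607) (nat_lit 15) (nat_lit 2))))
  (@Cl.mk (nat_lit 0x200020006000a000a000d0009000c0003000600060004000a0007000e000e) (nat_lit 0x44571000060bc) (nat_lit 16) Lb.e (@T16.mk En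
    (@En.n l5 (nat_lit 13608) (nat_lit 1) (nat_lit 14))
    (@En.n l3082 (nat_lit 410) (nat_lit 1) (nat_lit 14))
    (@En.n l4980 (nat_lit 13615) (nat_lit 2) (nat_lit 7))
    (@En.n l13406 (nat_lit 13912) (nat_lit 3) (nat_lit 10))
    (@En.i (nat_lit 12944) (nat_lit 4) (nat_lit 4))
    (@En.n l1863 (nat_lit 13611) (nat_lit 5) (nat_lit 6))
    (@En.n l197 (nat_lit 13614) (nat_lit 6) (nat_lit 6))
    (@En.n l9300 (nat_lit 13606) (nat_lit 7) (nat_lit 3))
    (@En.i (nat_lit 226) (nat_lit 9) (nat_lit 12))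
    (@En.n l13407 (nat_lit 13490) (nat_lit 10) (nat_lit 9))
    (@En.n l634 (nat_lit 13607) (nat_lit 11) (nat_lit 13))
    (@En.n l635 (nat_lit 13607) (nat_lit 12) (nat_lit 10))
    (@En.n l2916 (nat_lit 13632) (nat_lit 13) (nat_lit 10))
    (@En.i (nat_lit 411) (nat_lit 14) (nat_lit 6))
    (@En.n l17 (nat_lit 13608) (nat_lit 14) (nat_lit 2))
    (@En.n l18 (nat_lit 13608) (nat_lit 15) (nat_lit 2))))
  (@Cl.mk (nat_lit 0x200020006000b000a0008000b000e0005000200060005000a0008000e000e) (nat_lit 0x33211000063bc) (nat_lit 16) Lb.e (@T16.mk En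
    (@En.n l601 (nat_lit 13609) (nat_lit 1) (nat_lit 14))
    (@En.n l15197 (nat_lit 430) (nat_lit 11) (nat_lit 14))
    (@En.n l26137 (nat_lit 13618) (nat_lit 2) (nat_lit 8))
    (@En.n l26138 (nat_lit 13723) (nat_lit 3) (nat_lit 10))
    (@En.n l9512 (nat_lit 13607) (nat_lit 4) (nat_lit 5))
    (@En.n l3340 (nat_lit 13608) (nat_lit 5) (nat_lit 6))
    (@En.n l3 (nat_lit 13609) (nat_lit 6) (nat_lit 2))
    (@En.n l3333 (nat_lit 13610) (nat_lit 7) (nat_lit 5))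
    (@En.n l862 (nat_lit 676) (nat_lit 9) (nat_lit 14))
    (@En.n l3336 (nat_lit 224) (nat_lit 10) (nat_lit 11))
    (@En.n l26139 (nat_lit 13483) (nat_lit 11) (nat_lit 8))
    (@En.n l15197 (nat_lit 13122) (nat_lit 12) (nat_lit 10))
    (@En.n l2031 (nat_lit 13623) (nat_lit 13) (nat_lit 11))
    (@En.i (nat_lit 431) (nat_lit 6) (nat_lit 6))
    (@En.n l50 (nat_lit 13609) (nat_lit 14) (nat_lit 2))
    (@En.n l7 (nat_lit 13609) (nat_lit 15) (nat_lit 2))))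
  (@Cl.mk (nat_lit 0x200020006000b000b000b0009000c0005000500050004000a0007000e000e) (nat_lit 0x3445100005023) (nat_lit 16) Lb.e (@T16.mk En
    (@En.n l5 (nat_lit 13610) (nat_lit 1) (nat_lit 14))
    (@En.n l3289 (nat_lit 402) (nat_lit 1) (nat_lit 14))
    (@En.n l2871 (nat_lit 12943) (nat_lit 2) (nat_lit 7))
    (@En.n l2312 (nat_lit 13720) (nat_lit 3) (nat_lit 10))
    (@En.n l11 (nat_lit 13608) (nat_lit 4) (nat_lit 4))
    (@En.n l152 (nat_lit 13614) (nat_lit 5) (nat_lit 5))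
    (@En.n l839 (nat_lit 13613) (nat_lit 6) (nat_lit 5))
    (@En.n l12479 (nat_lit 12945) (nat_lit 7) (nat_lit 5))
    (@En.i (nat_lit 230) (nat_lit 9) (nat_lit 12))
    (@En.n l1866 (nat_lit 13877) (nat_lit 10) (nat_lit 9))
    (@En.n l230 (nat_lit 13117) (nat_lit 11) (nat_lit 11))
    (@En.n l2040 (nat_lit 13609) (nat_lit 12) (nat_lit 11))
    (@En.i (nat_lit 13636) (nat_lit 13) (nat_lit 11))
    (@En.n l2312 (nat_lit 403) (nat_lit 14) (nat_lit 6))
    (@En.n l17 (nat_lit 13610) (nat_lit 14) (nat_lit 2))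
    (@En.n l18 (nat_lit 13610) (nat_lit 15) (nat_lit 2))))
  (@Cl.mk (nat_lit 0x200020006000e000a0002000d000a000d000300060003000a0006000e000e) (nat_lit 0x4506610005012) (nat_lit 16) Lb.e (@T16.mk En
    (@En.n l5 (nat_lit 13611) (nat_lit 1) (nat_lit 14))
    (@En.n l7603 (nat_lit 407) (nat_lit 1) (nat_lit 14))
    (@En.n l4982 (nat_lit 13617) (nat_lit 2) (nat_lit 6))
    (@En.n l4660 (nat_lit 13911) (nat_lit 3) (nat_lit 10))
    (@En.n l7604 (nat_lit 13613) (nat_lit 4) (nat_lit 3))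
    (@En.n l1798 (nat_lit 13603) (nat_lit 5) (nat_lit 6))
    (@En.n l28 (nat_lit 13612) (nat_lit 6) (nat_lit 3))
    (@En.n l7605 (nat_lit 232) (nat_lit 8) (nat_lit 13))
    (@En.n l77 (nat_lit 13876) (nat_lit 9) (nat_lit 10))
    (@En.n l1412 (nat_lit 13608) (nat_lit 10) (nat_lit 13))
    (@En.n l67 (nat_lit 13611) (nat_lit 10) (nat_lit 2))
    (@En.n l7606 (nat_lit 13608) (nat_lit 12) (nat_lit 10))
    (@En.n l4660 (nat_lit 12826) (nat_lit 13) (nat_lit 14))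
    (@En.i (nat_lit 408) (nat_lit 14) (nat_lit 6))
    (@En.n l17 (nat_lit 13611) (nat_lit 14) (nat_lit 2))
    (@En.n l18 (nat_lit 13611) (nat_lit 15) (nat_lit 2))))
  (@Cl.mk (nat_lit 0x200020006000e000a0002000d000c000b000300060004000a0005000e000e) (nat_lit 0x4507770004012) (nat_lit 16) Lb.e (@T16.mk En
    (@En.n l5 (nat_lit 13612) (nat_lit 1) (nat_lit 14))
    (@En.n l3082 (nat_lit 492) (nat_lit 1) (nat_lit 14))
    (@En.i (nat_lit 12916) (nat_lit 2) (nat_lit 5))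
    (@En.n l4660 (nat_lit 13940) (nat_lit 3) (nat_lit 10))
    (@En.i (nat_lit 13653) (nat_lit 4) (nat_lit 4))
    (@En.n l12088 (nat_lit 13677) (nat_lit 5) (nat_lit 6))
    (@En.i (nat_lit 13611) (nat_lit 6) (nat_lit 3))
    (@En.n l1897 (nat_lit 13666) (nat_lit 8) (nat_lit 11))
    (@En.n l12089 (nat_lit 13613) (nat_lit 9) (nat_lit 12))
    (@En.n l1690 (nat_lit 13606) (nat_lit 10) (nat_lit 13))
    (@En.n l67 (nat_lit 13612) (nat_lit 10) (nat_lit 2))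
    (@En.n l97 (nat_lit 13606) (nat_lit 12) (nat_lit 10))
    (@En.n l4660 (nat_lit 12828) (nat_lit 13) (nat_lit 14))
    (@En.i (nat_lit 493) (nat_lit 14) (nat_lit 6))
    (@En.n l17 (nat_lit 13612) (nat_lit 14) (nat_lit 2))
    (@En.n l18 (nat_lit 13612) (nat_lit 15) (nat_lit 2))))
  (@Cl.mk (nat_lit 0x200020006000e000b0002000c000a000d000500040003000a0006000e000e) (nat_lit 0x4406610005012) (nat_lit 16) Lb.e (@T16.mk En
    (@En.n l5 (nat_lit 13613) (nat_lit 1) (nat_lit 14))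
    (@En.n l2205 (nat_lit 445) (nat_lit 1) (nat_lit 14))
    (@En.n l12109 (nat_lit 13646) (nat_lit 2) (nat_lit 6))
    (@En.n l4549 (nat_lit 13717) (nat_lit 3) (nat_lit 10))
    (@En.n l12110 (nat_lit 13611) (nat_lit 4) (nat_lit 3))
    (@En.n l2205 (nat_lit 13652) (nat_lit 5) (nat_lit 4))
    (@En.n l4549 (nat_lit 13675) (nat_lit 6) (nat_lit 5))
    (@En.i (nat_lit 235) (nat_lit 8) (nat_lit 13))
    (@En.n l610 (nat_lit 13875) (nat_lit 9) (nat_lit 10))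
    (@En.n l253 (nat_lit 12944) (nat_lit 10) (nat_lit 12))
    (@En.n l3 (nat_lit 13613) (nat_lit 10) (nat_lit 2))
    (@En.n l187 (nat_lit 13610) (nat_lit 12) (nat_lit 11))
    (@En.i (nat_lit 12827) (nat_lit 13) (nat_lit 14))
    (@En.n l2205 (nat_lit 444) (nat_lit 14) (nat_lit 6))
    (@En.n l17 (nat_lit 13613) (nat_lit 14) (nat_lit 2))
    (@En.n l18 (nat_lit 13613) (nat_lit 15) (nat_lit 2))))
  (@Cl.mk (nat_lit 0x200020006000a000e000b0002000a000d000600050003000a0006000e000e) (nat_lit 0x35508100040bc) (nat_lit 16) Lb.e (@T16.mk En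
    (@En.n l5 (nat_lit 13614) (nat_lit 1) (nat_lit 14))
    (@En.n l2004 (nat_lit 380) (nat_lit 8) (nat_lit 14))
    (@En.n l2491 (nat_lit 13647) (nat_lit 2) (nat_lit 6))
    (@En.n l5491 (nat_lit 13721) (nat_lit 3) (nat_lit 10))
    (@En.n l11 (nat_lit 13659) (nat_lit 4) (nat_lit 3))
    (@En.n l2004 (nat_lit 13650) (nat_lit 5) (nat_lit 5))
    (@En.n l55 (nat_lit 13716) (nat_lit 6) (nat_lit 6))
    (@En.i (nat_lit 233) (nat_lit 8) (nat_lit 13))
    (@En.n l678 (nat_lit 14040) (nat_lit 9) (nat_lit 10))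
    (@En.n l3 (nat_lit 13614) (nat_lit 9) (nat_lit 2))
    (@En.i (nat_lit 13610) (nat_lit 11) (nat_lit 11))
    (@En.n l12110 (nat_lit 13611) (nat_lit 12) (nat_lit 14))
    (@En.i (nat_lit 13639) (nat_lit 13) (nat_lit 10))
    (@En.i (nat_lit 416) (nat_lit 14) (nat_lit 6))
    (@En.n l17 (nat_lit 13614) (nat_lit 14) (nat_lit 2))
    (@En.n l18 (nat_lit 13614) (nat_lit 15) (nat_lit 2))))
  (@Cl.mk (nat_lit 0x20002000b00090009000c00090005000c00040007000700040007000e000e) (nat_lit 0x644570200000bc) (nat_lit 16) Lb.e (@T16.mk En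
    (@En.n l97 (nat_lit 13615) (nat_lit 1) (nat_lit 14))
    (@En.n l26130 (nat_lit 1127) (nat_lit 1) (nat_lit 14))
    (@En.n l26131 (nat_lit 12997) (nat_lit 2) (nat_lit 7))
    (@En.n l4497 (nat_lit 12939) (nat_lit 3) (nat_lit 4))
    (@En.n l5278 (nat_lit 13617) (nat_lit 4) (nat_lit 7))
    (@En.n l25496 (nat_lit 13647) (nat_lit 5) (nat_lit 7))
    (@En.n l7348 (nat_lit 12915) (nat_lit 6) (nat_lit 4))
    (@En.n l26132 (nat_lit 13608) (nat_lit 8) (nat_lit 12))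
    (@En.i (nat_lit 13586) (nat_lit 8) (nat_lit 5))
    (@En.n l26133 (nat_lit 13488) (nat_lit 10) (nat_lit 9))
    (@En.n l26134 (nat_lit 13616) (nat_lit 11) (nat_lit 12))
    (@En.n l26135 (nat_lit 13616) (nat_lit 12) (nat_lit 9))
    (@En.n l26131 (nat_lit 13141) (nat_lit 13) (nat_lit 9))
    (@En.n l26136 (nat_lit 1460) (nat_lit 14) (nat_lit 11))
    (@En.n l107 (nat_lit 13615) (nat_lit 14) (nat_lit 2))
    (@En.n l3 (nat_lit 13615) (nat_lit 15) (nat_lit 2))))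
noncomputable def a851 : T16 Cl := @T16.mk Cl
  (@Cl.mk (nat_lit 0x20002000c0009000c00080004000b0004000e0007000200050008000e000e) (nat_lit 0x6346030a0001bc) (nat_lit 16) Lb.e (@T16.mk En
    (@En.n l97 (nat_lit 13616) (nat_lit 1) (nat_lit 14))
    (@En.i (nat_lit 1186) (nat_lit 13) (nat_lit 14))
    (@En.n l3724 (nat_lit 12996) (nat_lit 2) (nat_lit 8))
    (@En.i (nat_lit 12941) (nat_lit 3) (nat_lit 5))
    (@En.n l17 (nat_lit 13616) (nat_lit 4) (nat_lit 2))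
    (@En.n l25581 (nat_lit 13615) (nat_lit 5) (nat_lit 7))
    (@En.n l5 (nat_lit 13618) (nat_lit 7) (nat_lit 14))
    (@En.n l28 (nat_lit 13196) (nat_lit 7) (nat_lit 4))
    (@En.n l1599 (nat_lit 13607) (nat_lit 9) (nat_lit 11))
    (@En.n l28 (nat_lit 13589) (nat_lit 9) (nat_lit 4))
    (@En.i (nat_lit 13481) (nat_lit 11) (nat_lit 8))
    (@En.i (nat_lit 13943) (nat_lit 6) (nat_lit 12))
    (@En.n l2650 (nat_lit 13624) (nat_lit 13) (nat_lit 9))
    (@En.n l9025 (nat_lit 1457) (nat_lit 9) (nat_lit 12))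
    (@En.n l107 (nat_lit 13616) (nat_lit 14) (nat_lit 2))
    (@En.n l3 (nat_lit 13616) (nat_lit 15) (nat_lit 2))))
  (@Cl.mk (nat_lit 0x20002000a000e00090002000c000a0006000d0004000700030006000e000e) (nat_lit 0x635068020000bc) (nat_lit 16) Lb.e (@T16.mk En
    (@En.n l5 (nat_lit 13617) (nat_lit 1) (nat_lit 14))
    (@En.n l12992 (nat_lit 1124) (nat_lit 1) (nat_lit 14))
    (@En.n l4363 (nat_lit 13707) (nat_lit 2) (nat_lit 6))
    (@En.n l12993 (nat_lit 13646) (nat_lit 3) (nat_lit 3))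
    (@En.n l1599 (nat_lit 13648) (nat_lit 4) (nat_lit 7))
    (@En.n l12994 (nat_lit 12916) (nat_lit 5) (nat_lit 4))
    (@En.n l1638 (nat_lit 13611) (nat_lit 7) (nat_lit 13))
    (@En.n l12992 (nat_lit 13587) (nat_lit 7) (nat_lit 6))
    (@En.n l12995 (nat_lit 13874) (nat_lit 9) (nat_lit 10))
    (@En.n l12996 (nat_lit 13615) (nat_lit 10) (nat_lit 12))
    (@En.n l3 (nat_lit 13617) (nat_lit 10) (nat_lit 2))
    (@En.n l12997 (nat_lit 13615) (nat_lit 12) (nat_lit 9))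
    (@En.i (nat_lit 12824) (nat_lit 13) (nat_lit 14))
    (@En.n l387 (nat_lit 2001) (nat_lit 14) (nat_lit 10))
    (@En.n l17 (nat_lit 13617) (nat_lit 14) (nat_lit 2))
    (@En.n l18 (nat_lit 13617) (nat_lit 15) (nat_lit 2))))
  (@Cl.mk (nat_lit 0x20002000c000a000900080004000b000e00060002000700050008000e000e) (nat_lit 0x133302900002bc) (nat_lit 16) Lb.e (@T16.mk En
    (@En.n l97 (nat_lit 13618) (nat_lit 1) (nat_lit 14))
    (@En.i (nat_lit 1136) (nat_lit 12) (nat_lit 14))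
    (@En.n l2369 (nat_lit 12995) (nat_lit 2) (nat_lit 8))
    (@En.n l699 (nat_lit 13616) (nat_lit 3) (nat_lit 5))
    (@En.n l12410 (nat_lit 13615) (nat_lit 4) (nat_lit 7))
    (@En.n l18 (nat_lit 13618) (nat_lit 5) (nat_lit 2))
    (@En.n l12403 (nat_lit 12943) (nat_lit 6) (nat_lit 6))
    (@En.n l12404 (nat_lit 12974) (nat_lit 8) (nat_lit 14))
    (@En.n l12411 (nat_lit 13609) (nat_lit 9) (nat_lit 11))
    (@En.n l28 (nat_lit 13588) (nat_lit 9) (nat_lit 4))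
    (@En.n l4828 (nat_lit 13479) (nat_lit 11) (nat_lit 8))
    (@En.i (nat_lit 13123) (nat_lit 12) (nat_lit 9))
    (@En.n l11980 (nat_lit 13622) (nat_lit 13) (nat_lit 10))
    (@En.n l1391 (nat_lit 1458) (nat_lit 8) (nat_lit 12))
    (@En.n l107 (nat_lit 13618) (nat_lit 14) (nat_lit 2))
    (@En.n l3 (nat_lit 13618) (nat_lit 15) (nat_lit 2))))
  (@Cl.mk (nat_lit 0x20002000c00080007000c0004000b000e00040002000800050009000e000e) (nat_lit 0xa20607800307bc) (nat_lit 16) Lb.e (@T16.mk En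
    (@En.n l5 (nat_lit 13619) (nat_lit 1) (nat_lit 14))
    (@En.n l14572 (nat_lit 6201) (nat_lit 12) (nat_lit 14))
    (@En.n l1463 (nat_lit 13154) (nat_lit 2) (nat_lit 9))
    (@En.n l1599 (nat_lit 13620) (nat_lit 3) (nat_lit 5))
    (@En.n l810 (nat_lit 13139) (nat_lit 4) (nat_lit 8))
    (@En.n l11 (nat_lit 13619) (nat_lit 5) (nat_lit 2))
    (@En.n l117 (nat_lit 13621) (nat_lit 6) (nat_lit 4))
    (@En.n l3392 (nat_lit 12952) (nat_lit 8) (nat_lit 14))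
    (@En.n l11828 (nat_lit 13808) (nat_lit 9) (nat_lit 11))
    (@En.n l14572 (nat_lit 13618) (nat_lit 9) (nat_lit 4))
    (@En.n l1599 (nat_lit 14010) (nat_lit 11) (nat_lit 12))
    (@En.n l77 (nat_lit 13480) (nat_lit 12) (nat_lit 7))
    (@En.n l25959 (nat_lit 13528) (nat_lit 13) (nat_lit 8))
    (@En.i (nat_lit 6838) (nat_lit 8) (nat_lit 12))
    (@En.n l17 (nat_lit 13619) (nat_lit 14) (nat_lit 2))
    (@En.n l18 (nat_lit 13619) (nat_lit 15) (nat_lit 2))))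
  (@Cl.mk (nat_lit 0x20002000c000b0007000b0004000b0005000e0005000200050009000e000e) (nat_lit 0x13050609000712) (nat_lit 16) Lb.e (@T16.mk En
    (@En.n l5 (nat_lit 13620) (nat_lit 1) (nat_lit 14))
    (@En.n l5372 (nat_lit 6199) (nat_lit 13) (nat_lit 14))
    (@En.i (nat_lit 13356) (nat_lit 2) (nat_lit 9))
    (@En.n l5372 (nat_lit 13929) (nat_lit 3) (nat_lit 5))
    (@En.n l28 (nat_lit 13620) (nat_lit 4) (nat_lit 2))
    (@En.i (nat_lit 13626) (nat_lit 5) (nat_lit 5))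
    (@En.n l2038 (nat_lit 13619) (nat_lit 7) (nat_lit 14))
    (@En.i (nat_lit 13239) (nat_lit 7) (nat_lit 5))
    (@En.i (nat_lit 13806) (nat_lit 9) (nat_lit 11))
    (@En.n l5372 (nat_lit 13616) (nat_lit 9) (nat_lit 4))
    (@En.i (nat_lit 13994) (nat_lit 11) (nat_lit 11))
    (@En.n l1504 (nat_lit 13482) (nat_lit 12) (nat_lit 7))
    (@En.n l6213 (nat_lit 13604) (nat_lit 13) (nat_lit 11))
    (@En.i (nat_lit 6832) (nat_lit 9) (nat_lit 12))
    (@En.n l17 (nat_lit 13620) (nat_lit 14) (nat_lit 2))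
    (@En.n l18 (nat_lit 13620) (nat_lit 15) (nat_lit 2))))
  (@Cl.mk (nat_lit 0x20002000b00080007000c000c0005000c00040004000800040009000e000e) (nat_lit 0x93067080020612) (nat_lit 16) Lb.e (@T16.mk En
    (@En.n l5 (nat_lit 13621) (nat_lit 1) (nat_lit 14))
    (@En.n l6825 (nat_lit 6167) (nat_lit 1) (nat_lit 14))
    (@En.n l11968 (nat_lit 13155) (nat_lit 2) (nat_lit 9))
    (@En.n l1836 (nat_lit 13626) (nat_lit 3) (nat_lit 4))
    (@En.n l12583 (nat_lit 13137) (nat_lit 4) (nat_lit 8))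
    (@En.n l4490 (nat_lit 13842) (nat_lit 5) (nat_lit 4))
    (@En.n l11971 (nat_lit 13622) (nat_lit 6) (nat_lit 4))
    (@En.n l6825 (nat_lit 13809) (nat_lit 8) (nat_lit 12))
    (@En.n l11989 (nat_lit 13637) (nat_lit 8) (nat_lit 5))
    (@En.n l619 (nat_lit 13619) (nat_lit 10) (nat_lit 12))
    (@En.n l1836 (nat_lit 13197) (nat_lit 11) (nat_lit 12))
    (@En.n l11989 (nat_lit 13867) (nat_lit 12) (nat_lit 7))
    (@En.n l12584 (nat_lit 13526) (nat_lit 13) (nat_lit 8))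
    (@En.i (nat_lit 6841) (nat_lit 14) (nat_lit 11))
    (@En.n l17 (nat_lit 13621) (nat_lit 14) (nat_lit 2))
    (@En.n l18 (nat_lit 13621) (nat_lit 15) (nat_lit 2))))
  (@Cl.mk (nat_lit 0x20002000a00080007000c000a000d000600040003000800060009000e000e) (nat_lit 0x24067800030567) (nat_lit 16) Lb.e (@T16.mk En
    (@En.n l5 (nat_lit 13622) (nat_lit 1) (nat_lit 14))
    (@En.n l23703 (nat_lit 6174) (nat_lit 1) (nat_lit 14))
    (@En.i (nat_lit 13287) (nat_lit 2) (nat_lit 9))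
    (@En.n l12075 (nat_lit 13624) (nat_lit 3) (nat_lit 6))
    (@En.n l6295 (nat_lit 13141) (nat_lit 4) (nat_lit 8))
    (@En.n l11 (nat_lit 13628) (nat_lit 5) (nat_lit 3))
    (@En.n l4728 (nat_lit 13619) (nat_lit 6) (nat_lit 4))
    (@En.n l23704 (nat_lit 13638) (nat_lit 7) (nat_lit 6))
    (@En.n l23703 (nat_lit 12949) (nat_lit 9) (nat_lit 13))
    (@En.n l23705 (nat_lit 13623) (nat_lit 10) (nat_lit 10))
    (@En.n l23706 (nat_lit 14012) (nat_lit 11) (nat_lit 12))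
    (@En.n l77 (nat_lit 13863) (nat_lit 12) (nat_lit 7))
    (@En.i (nat_lit 13525) (nat_lit 13) (nat_lit 8))
    (@En.n l2140 (nat_lit 6557) (nat_lit 14) (nat_lit 10))
    (@En.n l17 (nat_lit 13622) (nat_lit 14) (nat_lit 2))
    (@En.n l18 (nat_lit 13622) (nat_lit 15) (nat_lit 2))))
  (@Cl.mk (nat_lit 0x20002000b00090007000a000d0005000c00030007000600040009000e000e) (nat_lit 0x220670800006bc) (nat_lit 16) Lb.e (@T16.mk En
    (@En.n l97 (nat_lit 13623) (nat_lit 1) (nat_lit 14))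
    (@En.i (nat_lit 6170) (nat_lit 1) (nat_lit 14))
    (@En.n l26347 (nat_lit 13622) (nat_lit 2) (nat_lit 9))
    (@En.n l26348 (nat_lit 13621) (nat_lit 3) (nat_lit 4))
    (@En.n l7 (nat_lit 13625) (nat_lit 4) (nat_lit 6))
    (@En.n l644 (nat_lit 13632) (nat_lit 5) (nat_lit 7))
    (@En.n l2869 (nat_lit 13627) (nat_lit 6) (nat_lit 3))
    (@En.n l1997 (nat_lit 13805) (nat_lit 8) (nat_lit 12))
    (@En.n l9223 (nat_lit 13636) (nat_lit 8) (nat_lit 5))
    (@En.n l5838 (nat_lit 13928) (nat_lit 10) (nat_lit 13))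
    (@En.n l26349 (nat_lit 13182) (nat_lit 11) (nat_lit 10))
    (@En.n l25502 (nat_lit 13864) (nat_lit 12) (nat_lit 7))
    (@En.n l396 (nat_lit 13527) (nat_lit 13) (nat_lit 9))
    (@En.n l1997 (nat_lit 6645) (nat_lit 14) (nat_lit 11))
    (@En.n l107 (nat_lit 13623) (nat_lit 14) (nat_lit 2))
    (@En.n l3 (nat_lit 13623) (nat_lit 15) (nat_lit 2))))
  (@Cl.mk (nat_lit 0x200020009000c0007000b000a0004000d00070005000300060009000e000e) (nat_lit 0x210670900004bc) (nat_lit 16) Lb.e (@T16.mk En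
    (@En.n l97 (nat_lit 13624) (nat_lit 1) (nat_lit 14))
    (@En.n l725 (nat_lit 6176) (nat_lit 1) (nat_lit 14))
    (@En.n l2366 (nat_lit 13293) (nat_lit 2) (nat_lit 9))
    (@En.n l617 (nat_lit 13553) (nat_lit 3) (nat_lit 6))
    (@En.n l2368 (nat_lit 13631) (nat_lit 4) (nat_lit 3))
    (@En.n l1388 (nat_lit 13620) (nat_lit 5) (nat_lit 5))
    (@En.n l2366 (nat_lit 13141) (nat_lit 6) (nat_lit 7))
    (@En.n l26347 (nat_lit 13622) (nat_lit 8) (nat_lit 13))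
    (@En.n l1388 (nat_lit 13298) (nat_lit 8) (nat_lit 4))
    (@En.n l725 (nat_lit 13625) (nat_lit 10) (nat_lit 10))
    (@En.n l1388 (nat_lit 13306) (nat_lit 11) (nat_lit 11))
    (@En.n l12880 (nat_lit 13861) (nat_lit 12) (nat_lit 7))
    (@En.i (nat_lit 289) (nat_lit 13) (nat_lit 12))
    (@En.n l3337 (nat_lit 6560) (nat_lit 14) (nat_lit 9))
    (@En.n l107 (nat_lit 13624) (nat_lit 14) (nat_lit 2))
    (@En.n l3 (nat_lit 13624) (nat_lit 15) (nat_lit 2))))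
  (@Cl.mk (nat_lit 0x20002000a000d0007000a0003000d0006000d0003000600030009000e000e) (nat_lit 0x210608080005bc) (nat_lit 16) Lb.e (@T16.mk En
    (@En.n l97 (nat_lit 13625) (nat_lit 1) (nat_lit 14))
    (@En.i (nat_lit 5665) (nat_lit 1) (nat_lit 14))
    (@En.i (nat_lit 13624) (nat_lit 2) (nat_lit 9))
    (@En.n l3291 (nat_lit 13135) (nat_lit 3) (nat_lit 3))
    (@En.i (nat_lit 13554) (nat_lit 4) (nat_lit 6))
    (@En.n l2869 (nat_lit 13630) (nat_lit 5) (nat_lit 3))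
    (@En.n l1997 (nat_lit 13804) (nat_lit 7) (nat_lit 13))
    (@En.i (nat_lit 13632) (nat_lit 7) (nat_lit 6))
    (@En.i (nat_lit 13623) (nat_lit 9) (nat_lit 13))
    (@En.i (nat_lit 13634) (nat_lit 9) (nat_lit 3))
    (@En.n l2031 (nat_lit 13185) (nat_lit 11) (nat_lit 10))
    (@En.i (nat_lit 13862) (nat_lit 12) (nat_lit 7))
    (@En.i (nat_lit 285) (nat_lit 13) (nat_lit 13))
    (@En.i (nat_lit 6641) (nat_lit 14) (nat_lit 10))
    (@En.n l107 (nat_lit 13625) (nat_lit 14) (nat_lit 2))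
    (@En.n l3 (nat_lit 13625) (nat_lit 15) (nat_lit 2))))
  (@Cl.mk (nat_lit 0x20002000b000a0007000b000b0005000c00060005000500040009000e000e) (nat_lit 0x24046070000612) (nat_lit 16) Lb.e (@T16.mk En
    (@En.n l5 (nat_lit 13626) (nat_lit 1) (nat_lit 14))
    (@En.n l5760 (nat_lit 6158) (nat_lit 1) (nat_lit 14))
    (@En.n l4770 (nat_lit 13853) (nat_lit 2) (nat_lit 9))
    (@En.n l12647 (nat_lit 13623) (nat_lit 3) (nat_lit 4))
    (@En.n l12648 (nat_lit 13843) (nat_lit 4) (nat_lit 5))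
    (@En.n l5760 (nat_lit 13135) (nat_lit 5) (nat_lit 5))
    (@En.i (nat_lit 13236) (nat_lit 6) (nat_lit 6))
    (@En.n l5760 (nat_lit 13807) (nat_lit 8) (nat_lit 12))
    (@En.n l936 (nat_lit 13139) (nat_lit 8) (nat_lit 5))
    (@En.n l55 (nat_lit 13620) (nat_lit 10) (nat_lit 11))
    (@En.i (nat_lit 13192) (nat_lit 11) (nat_lit 11))
    (@En.n l4893 (nat_lit 13868) (nat_lit 12) (nat_lit 7))
    (@En.n l11899 (nat_lit 13533) (nat_lit 13) (nat_lit 10))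
    (@En.i (nat_lit 6837) (nat_lit 14) (nat_lit 11))
    (@En.n l17 (nat_lit 13626) (nat_lit 14) (nat_lit 2))
    (@En.n l18 (nat_lit 13626) (nat_lit 15) (nat_lit 2))))
  (@Cl.mk (nat_lit 0x20002000a00090007000a000d000b000600030007000600050009000e000e) (nat_lit 0x24067700000556) (nat_lit 16) Lb.e (@T16.mk En
    (@En.n l134 (nat_lit 13627) (nat_lit 1) (nat_lit 14))
    (@En.i (nat_lit 5657) (nat_lit 1) (nat_lit 14))
    (@En.n l25799 (nat_lit 13628) (nat_lit 2) (nat_lit 9))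
    (@En.n l25799 (nat_lit 13629) (nat_lit 3) (nat_lit 5))
    (@En.n l17 (nat_lit 13630) (nat_lit 4) (nat_lit 6))
    (@En.i (nat_lit 13781) (nat_lit 5) (nat_lit 7))
    (@En.n l1865 (nat_lit 13623) (nat_lit 6) (nat_lit 3))
    (@En.n l97 (nat_lit 13779) (nat_lit 7) (nat_lit 6))
    (@En.n l11419 (nat_lit 13626) (nat_lit 9) (nat_lit 11))
    (@En.n l1112 (nat_lit 13930) (nat_lit 10) (nat_lit 13))
    (@En.n l11419 (nat_lit 13186) (nat_lit 11) (nat_lit 10))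
    (@En.n l38728 (nat_lit 13860) (nat_lit 12) (nat_lit 7))
    (@En.n l38729 (nat_lit 13420) (nat_lit 13) (nat_lit 9))
    (@En.i (nat_lit 2092) (nat_lit 14) (nat_lit 10))
    (@En.n l7 (nat_lit 13627) (nat_lit 14) (nat_lit 2))
    (@En.n l28 (nat_lit 13627) (nat_lit 15) (nat_lit 2))))
  (@Cl.mk (nat_lit 0x20002000900080007000d000a000d000300070003000800060009000e000e) (nat_lit 0x24057800020412) (nat_lit 16) Lb.e (@T16.mk En
    (@En.n l5 (nat_lit 13628) (nat_lit 1) (nat_lit 14))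
    (@En.n l13398 (nat_lit 4292) (nat_lit 1) (nat_lit 14))
    (@En.i (nat_lit 13286) (nat_lit 2) (nat_lit 9))
    (@En.n l2110 (nat_lit 13631) (nat_lit 3) (nat_lit 6))
    (@En.n l27070 (nat_lit 13783) (nat_lit 4) (nat_lit 8))
    (@En.i (nat_lit 13622) (nat_lit 5) (nat_lit 3))
    (@En.n l27071 (nat_lit 13777) (nat_lit 6) (nat_lit 7))
    (@En.n l117 (nat_lit 13629) (nat_lit 7) (nat_lit 3))
    (@En.n l513 (nat_lit 12948) (nat_lit 9) (nat_lit 13))
    (@En.n l27072 (nat_lit 13627) (nat_lit 10) (nat_lit 10))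
    (@En.n l27073 (nat_lit 14015) (nat_lit 11) (nat_lit 13))
    (@En.n l77 (nat_lit 13859) (nat_lit 12) (nat_lit 7))
    (@En.i (nat_lit 13419) (nat_lit 13) (nat_lit 8))
    (@En.n l2140 (nat_lit 6552) (nat_lit 14) (nat_lit 9))
    (@En.n l17 (nat_lit 13628) (nat_lit 14) (nat_lit 2))
    (@En.n l18 (nat_lit 13628) (nat_lit 15) (nat_lit 2))))
  (@Cl.mk (nat_lit 0x20002000900080007000d000c000b000300070004000800050009000e000e) (nat_lit 0x14067600020412) (nat_lit 16) Lb.e (@T16.mk En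
    (@En.n l5 (nat_lit 13629) (nat_lit 1) (nat_lit 14))
    (@En.n l25590 (nat_lit 4293) (nat_lit 1) (nat_lit 14))
    (@En.i (nat_lit 13284) (nat_lit 2) (nat_lit 9))
    (@En.n l2110 (nat_lit 13134) (nat_lit 3) (nat_lit 5))
    (@En.n l25591 (nat_lit 13784) (nat_lit 4) (nat_lit 8))
    (@En.n l25592 (nat_lit 13621) (nat_lit 5) (nat_lit 4))
    (@En.n l24814 (nat_lit 13635) (nat_lit 6) (nat_lit 7))
    (@En.n l152 (nat_lit 13628) (nat_lit 7) (nat_lit 3))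
    (@En.n l4980 (nat_lit 13843) (nat_lit 9) (nat_lit 11))
    (@En.n l619 (nat_lit 13622) (nat_lit 10) (nat_lit 12))
    (@En.n l25593 (nat_lit 14014) (nat_lit 11) (nat_lit 13))
    (@En.n l25594 (nat_lit 13866) (nat_lit 12) (nat_lit 7))
    (@En.i (nat_lit 13522) (nat_lit 13) (nat_lit 8))
    (@En.n l2140 (nat_lit 6550) (nat_lit 14) (nat_lit 9))
    (@En.n l17 (nat_lit 13629) (nat_lit 14) (nat_lit 2))
    (@En.n l18 (nat_lit 13629) (nat_lit 15) (nat_lit 2))))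
  (@Cl.mk (nat_lit 0x200020009000d0007000a0003000d000c00070003000600040009000e000e) (nat_lit 0x210608900004bc) (nat_lit 16) Lb.e (@T16.mk En
    (@En.n l134 (nat_lit 13630) (nat_lit 1) (nat_lit 14))
    (@En.i (nat_lit 5656) (nat_lit 1) (nat_lit 14))
    (@En.n l899 (nat_lit 13631) (nat_lit 2) (nat_lit 9))
    (@En.i (nat_lit 13133) (nat_lit 3) (nat_lit 4))
    (@En.n l1897 (nat_lit 13832) (nat_lit 4) (nat_lit 6))
    (@En.n l1865 (nat_lit 13625) (nat_lit 5) (nat_lit 3))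
    (@En.n l97 (nat_lit 13778) (nat_lit 6) (nat_lit 7))
    (@En.n l3866 (nat_lit 13135) (nat_lit 8) (nat_lit 12))
    (@En.i (nat_lit 13627) (nat_lit 9) (nat_lit 13))
    (@En.n l20665 (nat_lit 13635) (nat_lit 9) (nat_lit 3))
    (@En.n l1897 (nat_lit 13187) (nat_lit 11) (nat_lit 10))
    (@En.n l5592 (nat_lit 13858) (nat_lit 12) (nat_lit 7))
    (@En.n l649 (nat_lit 283) (nat_lit 13) (nat_lit 13))
    (@En.i (nat_lit 6634) (nat_lit 14) (nat_lit 9))
    (@En.n l7 (nat_lit 13630) (nat_lit 14) (nat_lit 2))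
    (@En.n l28 (nat_lit 13630) (nat_lit 15) (nat_lit 2))))
  (@Cl.mk (nat_lit 0x200020008000c0007000c000a0004000d00040008000300060009000e000e) (nat_lit 0x210670905003bc) (nat_lit 16) Lb.e (@T16.mk En
    (@En.n l601 (nat_lit 13631) (nat_lit 1) (nat_lit 14))
    (@En.n l2642 (nat_lit 6180) (nat_lit 1) (nat_lit 14))
    (@En.i (nat_lit 13292) (nat_lit 2) (nat_lit 9))
    (@En.n l1081 (nat_lit 13834) (nat_lit 3) (nat_lit 6))
    (@En.n l711 (nat_lit 13624) (nat_lit 4) (nat_lit 3))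
    (@En.n l3328 (nat_lit 13776) (nat_lit 5) (nat_lit 8))
    (@En.n l117 (nat_lit 13134) (nat_lit 6) (nat_lit 4))
    (@En.n l5552 (nat_lit 13628) (nat_lit 8) (nat_lit 13))
    (@En.n l12585 (nat_lit 13297) (nat_lit 8) (nat_lit 4))
    (@En.n l2642 (nat_lit 13630) (nat_lit 10) (nat_lit 10))
    (@En.n l4817 (nat_lit 13309) (nat_lit 11) (nat_lit 12))
    (@En.n l1723 (nat_lit 13857) (nat_lit 12) (nat_lit 7))
    (@En.n l5798 (nat_lit 288) (nat_lit 13) (nat_lit 12))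
    (@En.i (nat_lit 7556) (nat_lit 14) (nat_lit 8))
    (@En.n l50 (nat_lit 13631) (nat_lit 14) (nat_lit 2))
    (@En.n l7 (nat_lit 13631) (nat_lit 15) (nat_lit 2))))
noncomputable def a852 : T16 Cl := @T16.mk Cl
  (@Cl.mk (nat_lit 0x20002000a0009000d0008000b00030006000d0007000500030008000e000e) (nat_lit 0x332470030004bc) (nat_lit 16) Lb.e (@T16.mk En
    (@En.n l97 (nat_lit 13632) (nat_lit 1) (nat_lit 14))
    (@En.i (nat_lit 6115) (nat_lit 1) (nat_lit 14))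
    (@En.n l2366 (nat_lit 13141) (nat_lit 2) (nat_lit 8))
    (@En.n l9105 (nat_lit 13137) (nat_lit 3) (nat_lit 3))
    (@En.n l2911 (nat_lit 13555) (nat_lit 4) (nat_lit 5))
    (@En.n l2805 (nat_lit 13785) (nat_lit 5) (nat_lit 7))
    (@En.n l2911 (nat_lit 13739) (nat_lit 7) (nat_lit 13))
    (@En.n l9223 (nat_lit 13639) (nat_lit 7) (nat_lit 6))
    (@En.n l1387 (nat_lit 13633) (nat_lit 8) (nat_lit 3))
    (@En.n l2911 (nat_lit 13184) (nat_lit 10) (nat_lit 11))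
    (@En.n l25501 (nat_lit 13974) (nat_lit 11) (nat_lit 8))
    (@En.n l50 (nat_lit 13625) (nat_lit 12) (nat_lit 13))
    (@En.n l2579 (nat_lit 13630) (nat_lit 13) (nat_lit 9))
    (@En.n l2911 (nat_lit 6923) (nat_lit 14) (nat_lit 10))
    (@En.n l107 (nat_lit 13632) (nat_lit 14) (nat_lit 2))
    (@En.n l3 (nat_lit 13632) (nat_lit 15) (nat_lit 2))))
  (@Cl.mk (nat_lit 0x20002000a0009000d000a000900030006000d0007000600030007000e000e) (nat_lit 0x3355600a000089) (nat_lit 16) Lb.e (@T16.mk En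
    (@En.n l5 (nat_lit 13633) (nat_lit 1) (nat_lit 14))
    (@En.n l26847 (nat_lit 6098) (nat_lit 1) (nat_lit 14))
    (@En.n l26848 (nat_lit 13223) (nat_lit 2) (nat_lit 7))
    (@En.i (nat_lit 13138) (nat_lit 3) (nat_lit 3))
    (@En.n l26849 (nat_lit 13600) (nat_lit 4) (nat_lit 6))
    (@En.n l28 (nat_lit 13787) (nat_lit 5) (nat_lit 7))
    (@En.n l95 (nat_lit 13736) (nat_lit 7) (nat_lit 13))
    (@En.n l26850 (nat_lit 13646) (nat_lit 7) (nat_lit 6))
    (@En.n l4390 (nat_lit 13632) (nat_lit 8) (nat_lit 3))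
    (@En.n l26851 (nat_lit 13965) (nat_lit 10) (nat_lit 9))
    (@En.n l12987 (nat_lit 13636) (nat_lit 11) (nat_lit 10))
    (@En.n l26852 (nat_lit 13634) (nat_lit 12) (nat_lit 13))
    (@En.i (nat_lit 13635) (nat_lit 13) (nat_lit 9))
    (@En.n l13073 (nat_lit 6925) (nat_lit 14) (nat_lit 10))
    (@En.n l17 (nat_lit 13633) (nat_lit 14) (nat_lit 2))
    (@En.n l18 (nat_lit 13633) (nat_lit 15) (nat_lit 2))))
  (@Cl.mk (nat_lit 0x20002000a000d000900080003000d0006000d0003000700030008000e000e) (nat_lit 0x243507090002bc) (nat_lit 16) Lb.e (@T16.mk En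
    (@En.n l97 (nat_lit 13634) (nat_lit 1) (nat_lit 14))
    (@En.i (nat_lit 6143) (nat_lit 1) (nat_lit 14))
    (@En.n l1388 (nat_lit 13298) (nat_lit 2) (nat_lit 8))
    (@En.n l3291 (nat_lit 13136) (nat_lit 3) (nat_lit 3))
    (@En.i (nat_lit 13601) (nat_lit 4) (nat_lit 7))
    (@En.n l11938 (nat_lit 13635) (nat_lit 5) (nat_lit 3))
    (@En.n l1391 (nat_lit 13810) (nat_lit 7) (nat_lit 13))
    (@En.n l1387 (nat_lit 13633) (nat_lit 7) (nat_lit 6))
    (@En.n l11250 (nat_lit 13637) (nat_lit 9) (nat_lit 13))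
    (@En.n l28 (nat_lit 13625) (nat_lit 9) (nat_lit 3))
    (@En.n l11250 (nat_lit 13963) (nat_lit 11) (nat_lit 8))
    (@En.n l77 (nat_lit 13623) (nat_lit 12) (nat_lit 9))
    (@En.i (nat_lit 13143) (nat_lit 13) (nat_lit 13))
    (@En.n l5976 (nat_lit 6638) (nat_lit 14) (nat_lit 10))
    (@En.n l107 (nat_lit 13634) (nat_lit 14) (nat_lit 2))
    (@En.n l3 (nat_lit 13634) (nat_lit 15) (nat_lit 2))))
  (@Cl.mk (nat_lit 0x200020009000d000900080003000d000c00070003000700040008000e000e) (nat_lit 0x245507900005bc) (nat_lit 16) Lb.e (@T16.mk En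
    (@En.n l5 (nat_lit 13635) (nat_lit 1) (nat_lit 14))
    (@En.n l9226 (nat_lit 5658) (nat_lit 1) (nat_lit 14))
    (@En.i (nat_lit 13297) (nat_lit 2) (nat_lit 8))
    (@En.i (nat_lit 13132) (nat_lit 3) (nat_lit 4))
    (@En.n l4456 (nat_lit 13828) (nat_lit 4) (nat_lit 7))
    (@En.n l4457 (nat_lit 13634) (nat_lit 5) (nat_lit 3))
    (@En.i (nat_lit 13780) (nat_lit 6) (nat_lit 7))
    (@En.n l26750 (nat_lit 13136) (nat_lit 8) (nat_lit 12))
    (@En.n l253 (nat_lit 13638) (nat_lit 9) (nat_lit 13))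
    (@En.n l12145 (nat_lit 13630) (nat_lit 9) (nat_lit 3))
    (@En.n l1504 (nat_lit 13645) (nat_lit 11) (nat_lit 8))
    (@En.n l23281 (nat_lit 13627) (nat_lit 12) (nat_lit 9))
    (@En.n l4458 (nat_lit 13144) (nat_lit 13) (nat_lit 13))
    (@En.n l9226 (nat_lit 6633) (nat_lit 14) (nat_lit 9))
    (@En.n l17 (nat_lit 13635) (nat_lit 14) (nat_lit 2))
    (@En.n l18 (nat_lit 13635) (nat_lit 15) (nat_lit 2))))
  (@Cl.mk (nat_lit 0x20002000b000a000a0008000b0005000c00060006000500040008000e000e) (nat_lit 0x23455090000267) (nat_lit 16) Lb.e (@T16.mk En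
    (@En.n l5 (nat_lit 13636) (nat_lit 1) (nat_lit 14))
    (@En.n l6240 (nat_lit 6171) (nat_lit 1) (nat_lit 14))
    (@En.n l2491 (nat_lit 13638) (nat_lit 2) (nat_lit 8))
    (@En.n l38008 (nat_lit 13637) (nat_lit 3) (nat_lit 4))
    (@En.n l6240 (nat_lit 13632) (nat_lit 4) (nat_lit 5))
    (@En.n l152 (nat_lit 13639) (nat_lit 5) (nat_lit 6))
    (@En.n l5939 (nat_lit 13788) (nat_lit 6) (nat_lit 6))
    (@En.i (nat_lit 13918) (nat_lit 8) (nat_lit 12))
    (@En.n l134 (nat_lit 12939) (nat_lit 8) (nat_lit 5))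
    (@En.i (nat_lit 13175) (nat_lit 10) (nat_lit 11))
    (@En.n l35550 (nat_lit 13997) (nat_lit 11) (nat_lit 8))
    (@En.n l6244 (nat_lit 13929) (nat_lit 12) (nat_lit 10))
    (@En.n l9941 (nat_lit 13627) (nat_lit 13) (nat_lit 10))
    (@En.i (nat_lit 2024) (nat_lit 14) (nat_lit 11))
    (@En.n l17 (nat_lit 13636) (nat_lit 14) (nat_lit 2))
    (@En.n l18 (nat_lit 13636) (nat_lit 15) (nat_lit 2))))
  (@Cl.mk (nat_lit 0x20002000b000900090008000d0005000c00030007000700040008000e000e) (nat_lit 0x223560800001bc) (nat_lit 16) Lb.e (@T16.mk En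
    (@En.n l97 (nat_lit 13637) (nat_lit 1) (nat_lit 14))
    (@En.n l7241 (nat_lit 6172) (nat_lit 1) (nat_lit 14))
    (@En.n l26343 (nat_lit 12951) (nat_lit 2) (nat_lit 8))
    (@En.n l26344 (nat_lit 13139) (nat_lit 3) (nat_lit 4))
    (@En.n l61 (nat_lit 13640) (nat_lit 4) (nat_lit 7))
    (@En.n l26345 (nat_lit 13633) (nat_lit 5) (nat_lit 7))
    (@En.n l22084 (nat_lit 13638) (nat_lit 6) (nat_lit 3))
    (@En.n l26346 (nat_lit 13926) (nat_lit 8) (nat_lit 12))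
    (@En.n l4712 (nat_lit 12943) (nat_lit 8) (nat_lit 5))
    (@En.n l26344 (nat_lit 13982) (nat_lit 10) (nat_lit 13))
    (@En.i (nat_lit 13999) (nat_lit 11) (nat_lit 8))
    (@En.n l5203 (nat_lit 13928) (nat_lit 12) (nat_lit 9))
    (@En.n l26343 (nat_lit 13629) (nat_lit 13) (nat_lit 9))
    (@En.n l5929 (nat_lit 6937) (nat_lit 14) (nat_lit 11))
    (@En.n l107 (nat_lit 13637) (nat_lit 14) (nat_lit 2))
    (@En.n l3 (nat_lit 13637) (nat_lit 15) (nat_lit 2))))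
  (@Cl.mk (nat_lit 0x20002000a000900090008000d000b000600030007000700050008000e000e) (nat_lit 0x233566000001bc) (nat_lit 16) Lb.e (@T16.mk En
    (@En.n l5 (nat_lit 13638) (nat_lit 1) (nat_lit 14))
    (@En.n l12904 (nat_lit 6173) (nat_lit 1) (nat_lit 14))
    (@En.n l7471 (nat_lit 12950) (nat_lit 2) (nat_lit 8))
    (@En.n l22546 (nat_lit 13141) (nat_lit 3) (nat_lit 5))
    (@En.n l152 (nat_lit 13641) (nat_lit 4) (nat_lit 7))
    (@En.i (nat_lit 13782) (nat_lit 5) (nat_lit 7))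
    (@En.n l12650 (nat_lit 13637) (nat_lit 6) (nat_lit 3))
    (@En.i (nat_lit 12934) (nat_lit 7) (nat_lit 6))
    (@En.n l6698 (nat_lit 13636) (nat_lit 9) (nat_lit 11))
    (@En.n l1578 (nat_lit 13643) (nat_lit 10) (nat_lit 13))
    (@En.n l22547 (nat_lit 13998) (nat_lit 11) (nat_lit 8))
    (@En.n l5140 (nat_lit 13930) (nat_lit 12) (nat_lit 9))
    (@En.n l22548 (nat_lit 13628) (nat_lit 13) (nat_lit 9))
    (@En.i (nat_lit 6926) (nat_lit 14) (nat_lit 10))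
    (@En.n l17 (nat_lit 13638) (nat_lit 14) (nat_lit 2))
    (@En.n l18 (nat_lit 13638) (nat_lit 15) (nat_lit 2))))
  (@Cl.mk (nat_lit 0x20002000a000e000a00020009000c0006000d0006000400030007000e000e) (nat_lit 0x2a406704000056) (nat_lit 16) Lb.e (@T16.mk En
    (@En.n l5 (nat_lit 13639) (nat_lit 1) (nat_lit 14))
    (@En.n l29870 (nat_lit 6069) (nat_lit 7) (nat_lit 14))
    (@En.n l2491 (nat_lit 13641) (nat_lit 2) (nat_lit 7))
    (@En.n l38008 (nat_lit 13640) (nat_lit 3) (nat_lit 3))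
    (@En.n l11 (nat_lit 13560) (nat_lit 4) (nat_lit 4))
    (@En.n l5611 (nat_lit 13797) (nat_lit 5) (nat_lit 6))
    (@En.i (nat_lit 13920) (nat_lit 7) (nat_lit 13))
    (@En.n l134 (nat_lit 12940) (nat_lit 7) (nat_lit 6))
    (@En.i (nat_lit 13171) (nat_lit 9) (nat_lit 12))
    (@En.n l35550 (nat_lit 13168) (nat_lit 10) (nat_lit 9))
    (@En.n l3 (nat_lit 13639) (nat_lit 10) (nat_lit 2))
    (@En.i (nat_lit 13636) (nat_lit 12) (nat_lit 10))
    (@En.n l39985 (nat_lit 12823) (nat_lit 13) (nat_lit 14))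
    (@En.i (nat_lit 2014) (nat_lit 2) (nat_lit 10))
    (@En.n l17 (nat_lit 13639) (nat_lit 14) (nat_lit 2))
    (@En.n l18 (nat_lit 13639) (nat_lit 15) (nat_lit 2))))
  (@Cl.mk (nat_lit 0x20002000a000e000900020009000d0006000d0003000700030007000e000e) (nat_lit 0x1a306804000056) (nat_lit 16) Lb.e (@T16.mk En
    (@En.n l97 (nat_lit 13640) (nat_lit 1) (nat_lit 14))
    (@En.n l7018 (nat_lit 6068) (nat_lit 7) (nat_lit 14))
    (@En.n l26357 (nat_lit 12955) (nat_lit 2) (nat_lit 7))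
    (@En.n l12699 (nat_lit 13639) (nat_lit 3) (nat_lit 3))
    (@En.n l27439 (nat_lit 13598) (nat_lit 4) (nat_lit 7))
    (@En.n l22084 (nat_lit 13641) (nat_lit 5) (nat_lit 3))
    (@En.n l26346 (nat_lit 13921) (nat_lit 7) (nat_lit 13))
    (@En.n l14563 (nat_lit 13647) (nat_lit 7) (nat_lit 6))
    (@En.n l12699 (nat_lit 13644) (nat_lit 9) (nat_lit 13))
    (@En.i (nat_lit 13165) (nat_lit 10) (nat_lit 9))
    (@En.n l17 (nat_lit 13640) (nat_lit 10) (nat_lit 2))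
    (@En.i (nat_lit 13637) (nat_lit 12) (nat_lit 9))
    (@En.n l27440 (nat_lit 12821) (nat_lit 13) (nat_lit 14))
    (@En.n l14563 (nat_lit 2015) (nat_lit 2) (nat_lit 10))
    (@En.n l107 (nat_lit 13640) (nat_lit 14) (nat_lit 2))
    (@En.n l3 (nat_lit 13640) (nat_lit 15) (nat_lit 2))))
  (@Cl.mk (nat_lit 0x200020009000e000900020009000d000c00070003000700040007000e000e) (nat_lit 0x19406880000045) (nat_lit 16) Lb.e (@T16.mk En
    (@En.n l5 (nat_lit 13641) (nat_lit 1) (nat_lit 14))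
    (@En.n l1559 (nat_lit 6070) (nat_lit 7) (nat_lit 14))
    (@En.n l7471 (nat_lit 12958) (nat_lit 2) (nat_lit 7))
    (@En.n l1559 (nat_lit 13559) (nat_lit 3) (nat_lit 4))
    (@En.i (nat_lit 13796) (nat_lit 4) (nat_lit 7))
    (@En.n l12650 (nat_lit 13640) (nat_lit 5) (nat_lit 3))
    (@En.i (nat_lit 12933) (nat_lit 6) (nat_lit 7))
    (@En.n l6698 (nat_lit 13639) (nat_lit 8) (nat_lit 12))
    (@En.n l1578 (nat_lit 13642) (nat_lit 9) (nat_lit 13))
    (@En.n l22547 (nat_lit 13167) (nat_lit 10) (nat_lit 9))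
    (@En.n l3 (nat_lit 13641) (nat_lit 10) (nat_lit 2))
    (@En.i (nat_lit 13638) (nat_lit 12) (nat_lit 9))
    (@En.n l417 (nat_lit 12822) (nat_lit 13) (nat_lit 14))
    (@En.i (nat_lit 2017) (nat_lit 2) (nat_lit 9))
    (@En.n l17 (nat_lit 13641) (nat_lit 14) (nat_lit 2))
    (@En.n l18 (nat_lit 13641) (nat_lit 15) (nat_lit 2))))
  (@Cl.mk (nat_lit 0x20002000a000e00090002000d000b00060003000d000700050003000e000e) (nat_lit 0x24507700500034) (nat_lit 16) Lb.e (@T16.mk En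
    (@En.n l5 (nat_lit 13642) (nat_lit 1) (nat_lit 14))
    (@En.n l25675 (nat_lit 5945) (nat_lit 1) (nat_lit 14))
    (@En.i (nat_lit 13645) (nat_lit 2) (nat_lit 3))
    (@En.n l8163 (nat_lit 13174) (nat_lit 3) (nat_lit 5))
    (@En.n l1599 (nat_lit 13635) (nat_lit 4) (nat_lit 7))
    (@En.n l565 (nat_lit 13639) (nat_lit 6) (nat_lit 13))
    (@En.n l8163 (nat_lit 13644) (nat_lit 6) (nat_lit 3))
    (@En.i (nat_lit 14043) (nat_lit 7) (nat_lit 6))
    (@En.n l5399 (nat_lit 13092) (nat_lit 9) (nat_lit 11))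
    (@En.n l4569 (nat_lit 13986) (nat_lit 10) (nat_lit 13))
    (@En.n l3 (nat_lit 13642) (nat_lit 10) (nat_lit 2))
    (@En.i (nat_lit 13643) (nat_lit 12) (nat_lit 9))
    (@En.n l4955 (nat_lit 12857) (nat_lit 13) (nat_lit 14))
    (@En.i (nat_lit 5350) (nat_lit 14) (nat_lit 10))
    (@En.n l17 (nat_lit 13642) (nat_lit 14) (nat_lit 2))
    (@En.n l18 (nat_lit 13642) (nat_lit 15) (nat_lit 2))))
  (@Cl.mk (nat_lit 0x20002000b00090009000d000a00050003000c0007000700060004000e000e) (nat_lit 0x2445600a000045) (nat_lit 16) Lb.e (@T16.mk En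
    (@En.n l5 (nat_lit 13643) (nat_lit 1) (nat_lit 14))
    (@En.n l9862 (nat_lit 6259) (nat_lit 1) (nat_lit 14))
    (@En.i (nat_lit 13869) (nat_lit 2) (nat_lit 4))
    (@En.n l26070 (nat_lit 13304) (nat_lit 3) (nat_lit 6))
    (@En.n l152 (nat_lit 13642) (nat_lit 4) (nat_lit 7))
    (@En.n l9862 (nat_lit 13627) (nat_lit 5) (nat_lit 7))
    (@En.n l565 (nat_lit 13636) (nat_lit 7) (nat_lit 12))
    (@En.n l26070 (nat_lit 13982) (nat_lit 7) (nat_lit 3))
    (@En.i (nat_lit 14041) (nat_lit 8) (nat_lit 5))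
    (@En.n l5403 (nat_lit 13095) (nat_lit 10) (nat_lit 10))
    (@En.n l26071 (nat_lit 13991) (nat_lit 11) (nat_lit 13))
    (@En.n l26072 (nat_lit 13931) (nat_lit 12) (nat_lit 9))
    (@En.n l26073 (nat_lit 14015) (nat_lit 13) (nat_lit 9))
    (@En.i (nat_lit 5356) (nat_lit 14) (nat_lit 11))
    (@En.n l17 (nat_lit 13643) (nat_lit 14) (nat_lit 2))
    (@En.n l18 (nat_lit 13643) (nat_lit 15) (nat_lit 2))))
  (@Cl.mk (nat_lit 0x20002000b000e00090002000d0005000c0003000d000700040003000e000e) (nat_lit 0x22407050600067) (nat_lit 16) Lb.e (@T16.mk En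
    (@En.n l5 (nat_lit 13644) (nat_lit 1) (nat_lit 14))
    (@En.n l4484 (nat_lit 5941) (nat_lit 1) (nat_lit 14))
    (@En.n l11986 (nat_lit 13963) (nat_lit 2) (nat_lit 3))
    (@En.i (nat_lit 13171) (nat_lit 3) (nat_lit 4))
    (@En.n l4484 (nat_lit 13634) (nat_lit 4) (nat_lit 7))
    (@En.n l9825 (nat_lit 14099) (nat_lit 6) (nat_lit 13))
    (@En.n l11987 (nat_lit 13642) (nat_lit 6) (nat_lit 3))
    (@En.i (nat_lit 13724) (nat_lit 8) (nat_lit 12))
    (@En.n l524 (nat_lit 13985) (nat_lit 8) (nat_lit 5))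
    (@En.n l11988 (nat_lit 13984) (nat_lit 10) (nat_lit 13))
    (@En.n l3 (nat_lit 13644) (nat_lit 10) (nat_lit 2))
    (@En.n l1596 (nat_lit 13982) (nat_lit 12) (nat_lit 9))
    (@En.n l4484 (nat_lit 12861) (nat_lit 13) (nat_lit 14))
    (@En.i (nat_lit 5960) (nat_lit 14) (nat_lit 11))
    (@En.n l17 (nat_lit 13644) (nat_lit 14) (nat_lit 2))
    (@En.n l18 (nat_lit 13644) (nat_lit 15) (nat_lit 2))))
  (@Cl.mk (nat_lit 0x20002000a000e00080002000d000c00060003000d000400080003000e000e) (nat_lit 0x24407700503056) (nat_lit 16) Lb.e (@T16.mk En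
    (@En.n l5 (nat_lit 13645) (nat_lit 1) (nat_lit 14))
    (@En.n l420 (nat_lit 5583) (nat_lit 1) (nat_lit 14))
    (@En.n l7 (nat_lit 13642) (nat_lit 2) (nat_lit 3))
    (@En.i (nat_lit 13299) (nat_lit 3) (nat_lit 8))
    (@En.n l2678 (nat_lit 13960) (nat_lit 4) (nat_lit 4))
    (@En.n l12650 (nat_lit 13640) (nat_lit 6) (nat_lit 13))
    (@En.n l4373 (nat_lit 13963) (nat_lit 6) (nat_lit 3))
    (@En.i (nat_lit 13712) (nat_lit 7) (nat_lit 6))
    (@En.i (nat_lit 13961) (nat_lit 9) (nat_lit 12))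
    (@En.n l4519 (nat_lit 13998) (nat_lit 10) (nat_lit 13))
    (@En.n l3 (nat_lit 13645) (nat_lit 10) (nat_lit 2))
    (@En.i (nat_lit 13869) (nat_lit 12) (nat_lit 8))
    (@En.n l1361 (nat_lit 12855) (nat_lit 13) (nat_lit 14))
    (@En.i (nat_lit 5348) (nat_lit 14) (nat_lit 10))
    (@En.n l17 (nat_lit 13645) (nat_lit 14) (nat_lit 2))
    (@En.n l18 (nat_lit 13645) (nat_lit 15) (nat_lit 2))))
  (@Cl.mk (nat_lit 0x20002000a000e000a0002000b000a0006000d0006000500030006000e000e) (nat_lit 0x334076020000bc) (nat_lit 16) Lb.e (@T16.mk En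
    (@En.n l97 (nat_lit 13646) (nat_lit 1) (nat_lit 14))
    (@En.i (nat_lit 1123) (nat_lit 1) (nat_lit 14))
    (@En.n l1776 (nat_lit 12908) (nat_lit 2) (nat_lit 6))
    (@En.n l12103 (nat_lit 13617) (nat_lit 3) (nat_lit 3))
    (@En.i (nat_lit 13649) (nat_lit 4) (nat_lit 5))
    (@En.n l12104 (nat_lit 14016) (nat_lit 5) (nat_lit 6))
    (@En.n l12105 (nat_lit 13613) (nat_lit 7) (nat_lit 13))
    (@En.i (nat_lit 13585) (nat_lit 7) (nat_lit 6))
    (@En.n l12106 (nat_lit 13873) (nat_lit 9) (nat_lit 10))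
    (@En.n l12107 (nat_lit 12939) (nat_lit 10) (nat_lit 11))
    (@En.n l7 (nat_lit 13646) (nat_lit 10) (nat_lit 2))
    (@En.n l12108 (nat_lit 12943) (nat_lit 12) (nat_lit 10))
    (@En.n l532 (nat_lit 12825) (nat_lit 13) (nat_lit 14))
    (@En.n l12104 (nat_lit 1999) (nat_lit 2) (nat_lit 10))
    (@En.n l107 (nat_lit 13646) (nat_lit 14) (nat_lit 2))
    (@En.n l3 (nat_lit 13646) (nat_lit 15) (nat_lit 2))))
  (@Cl.mk (nat_lit 0x20002000a0009000e000a0002000a0006000d0007000600030006000e000e) (nat_lit 0x324508020000bc) (nat_lit 16) Lb.e (@T16.mk En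
    (@En.n l5 (nat_lit 13647) (nat_lit 1) (nat_lit 14))
    (@En.n l12344 (nat_lit 379) (nat_lit 8) (nat_lit 14))
    (@En.n l7471 (nat_lit 13704) (nat_lit 2) (nat_lit 6))
    (@En.n l3007 (nat_lit 12940) (nat_lit 3) (nat_lit 3))
    (@En.n l12344 (nat_lit 13602) (nat_lit 4) (nat_lit 6))
    (@En.n l12649 (nat_lit 12935) (nat_lit 5) (nat_lit 7))
    (@En.n l6698 (nat_lit 13614) (nat_lit 7) (nat_lit 13))
    (@En.n l12344 (nat_lit 13584) (nat_lit 7) (nat_lit 6))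
    (@En.n l12650 (nat_lit 14039) (nat_lit 9) (nat_lit 10))
    (@En.n l3 (nat_lit 13647) (nat_lit 9) (nat_lit 2))
    (@En.n l12651 (nat_lit 12943) (nat_lit 11) (nat_lit 10))
    (@En.n l3248 (nat_lit 13617) (nat_lit 12) (nat_lit 14))
    (@En.i (nat_lit 13641) (nat_lit 13) (nat_lit 9))
    (@En.n l11754 (nat_lit 2003) (nat_lit 3) (nat_lit 10))
    (@En.n l17 (nat_lit 13647) (nat_lit 14) (nat_lit 2))
    (@En.n l18 (nat_lit 13647) (nat_lit 15) (nat_lit 2))))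
noncomputable def a853 : T16 Cl := @T16.mk Cl
  (@Cl.mk (nat_lit 0x200020009000d0009000e00030002000b0007000e000700020005000e000e) (nat_lit 0x233600802000bc) (nat_lit 16) Lb.e (@T16.mk En
    (@En.n l5 (nat_lit 13648) (nat_lit 1) (nat_lit 14))
    (@En.n l11815 (nat_lit 1210) (nat_lit 1) (nat_lit 14))
    (@En.n l11934 (nat_lit 13694) (nat_lit 2) (nat_lit 5))
    (@En.n l476 (nat_lit 13648) (nat_lit 3) (nat_lit 2))
    (@En.n l253 (nat_lit 13660) (nat_lit 4) (nat_lit 7))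
    (@En.i (nat_lit 13603) (nat_lit 6) (nat_lit 14))
    (@En.n l11815 (nat_lit 13594) (nat_lit 6) (nat_lit 7))
    (@En.i (nat_lit 13841) (nat_lit 8) (nat_lit 11))
    (@En.n l11 (nat_lit 13648) (nat_lit 8) (nat_lit 2))
    (@En.n l26044 (nat_lit 13602) (nat_lit 9) (nat_lit 3))
    (@En.n l513 (nat_lit 14074) (nat_lit 11) (nat_lit 14))
    (@En.n l12608 (nat_lit 13647) (nat_lit 12) (nat_lit 9))
    (@En.i (nat_lit 13934) (nat_lit 13) (nat_lit 13))
    (@En.n l253 (nat_lit 2006) (nat_lit 10) (nat_lit 9))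
    (@En.n l17 (nat_lit 13648) (nat_lit 14) (nat_lit 2))
    (@En.n l18 (nat_lit 13648) (nat_lit 15) (nat_lit 2))))
  (@Cl.mk (nat_lit 0x200020009000e000d0002000b0003000b0007000e000500020005000e000e) (nat_lit 0x1340609030009a) (nat_lit 16) Lb.e (@T16.mk En
    (@En.n l97 (nat_lit 13649) (nat_lit 1) (nat_lit 14))
    (@En.i (nat_lit 1209) (nat_lit 1) (nat_lit 14))
    (@En.n l1776 (nat_lit 13695) (nat_lit 2) (nat_lit 5))
    (@En.n l17 (nat_lit 13649) (nat_lit 3) (nat_lit 2))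
    (@En.i (nat_lit 13654) (nat_lit 4) (nat_lit 5))
    (@En.n l524 (nat_lit 13652) (nat_lit 6) (nat_lit 14))
    (@En.i (nat_lit 13814) (nat_lit 6) (nat_lit 7))
    (@En.n l532 (nat_lit 13261) (nat_lit 8) (nat_lit 11))
    (@En.i (nat_lit 13602) (nat_lit 8) (nat_lit 3))
    (@En.n l12534 (nat_lit 12940) (nat_lit 10) (nat_lit 11))
    (@En.n l7 (nat_lit 13649) (nat_lit 10) (nat_lit 2))
    (@En.n l601 (nat_lit 13602) (nat_lit 12) (nat_lit 13))
    (@En.n l532 (nat_lit 14047) (nat_lit 13) (nat_lit 14))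
    (@En.n l11 (nat_lit 2008) (nat_lit 10) (nat_lit 9))
    (@En.n l107 (nat_lit 13649) (nat_lit 14) (nat_lit 2))
    (@En.n l3 (nat_lit 13649) (nat_lit 15) (nat_lit 2))))
  (@Cl.mk (nat_lit 0x200020006000d000d000b00030003000b000e00050002000a0005000e000e) (nat_lit 0x4550081003012) (nat_lit 16) Lb.e (@T16.mk En
    (@En.n l180 (nat_lit 13650) (nat_lit 1) (nat_lit 14))
    (@En.i (nat_lit 452) (nat_lit 1) (nat_lit 14))
    (@En.n l619 (nat_lit 13602) (nat_lit 2) (nat_lit 5))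
    (@En.n l3348 (nat_lit 13656) (nat_lit 3) (nat_lit 10))
    (@En.n l17 (nat_lit 13650) (nat_lit 4) (nat_lit 2))
    (@En.n l3348 (nat_lit 13655) (nat_lit 5) (nat_lit 5))
    (@En.n l2567 (nat_lit 234) (nat_lit 7) (nat_lit 14))
    (@En.n l998 (nat_lit 13957) (nat_lit 8) (nat_lit 11))
    (@En.n l50 (nat_lit 13652) (nat_lit 8) (nat_lit 3))
    (@En.n l7678 (nat_lit 13603) (nat_lit 9) (nat_lit 3))
    (@En.n l5853 (nat_lit 13613) (nat_lit 11) (nat_lit 11))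
    (@En.n l20263 (nat_lit 13603) (nat_lit 12) (nat_lit 13))
    (@En.n l1643 (nat_lit 13935) (nat_lit 13) (nat_lit 13))
    (@En.i (nat_lit 451) (nat_lit 14) (nat_lit 6))
    (@En.n l11 (nat_lit 13650) (nat_lit 14) (nat_lit 2))
    (@En.n l107 (nat_lit 13650) (nat_lit 15) (nat_lit 2))))
  (@Cl.mk (nat_lit 0x200020008000c000c000a000a00040004000c0008000600060004000e000e) (nat_lit 0x13556009500056) (nat_lit 16) Lb.e (@T16.mk En
    (@En.n l5 (nat_lit 13651) (nat_lit 1) (nat_lit 14))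
    (@En.n l25697 (nat_lit 3006) (nat_lit 1) (nat_lit 14))
    (@En.n l2818 (nat_lit 13877) (nat_lit 2) (nat_lit 4))
    (@En.n l25698 (nat_lit 13661) (nat_lit 3) (nat_lit 6))
    (@En.i (nat_lit 13192) (nat_lit 4) (nat_lit 6))
    (@En.n l25697 (nat_lit 13526) (nat_lit 5) (nat_lit 8))
    (@En.n l25699 (nat_lit 13333) (nat_lit 7) (nat_lit 12))
    (@En.n l25700 (nat_lit 13654) (nat_lit 7) (nat_lit 4))
    (@En.n l31 (nat_lit 13308) (nat_lit 8) (nat_lit 4))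
    (@En.n l25701 (nat_lit 13602) (nat_lit 10) (nat_lit 10))
    (@En.n l55 (nat_lit 14016) (nat_lit 11) (nat_lit 10))
    (@En.n l2691 (nat_lit 13660) (nat_lit 12) (nat_lit 12))
    (@En.n l936 (nat_lit 13996) (nat_lit 13) (nat_lit 12))
    (@En.i (nat_lit 3192) (nat_lit 14) (nat_lit 8))
    (@En.n l17 (nat_lit 13651) (nat_lit 14) (nat_lit 2))
    (@En.n l18 (nat_lit 13651) (nat_lit 15) (nat_lit 2))))
  (@Cl.mk (nat_lit 0x200020006000e000d0002000c0003000b000e00040002000a0005000e000e) (nat_lit 0x75050920030ab) (nat_lit 16) Lb.e (@T16.mk En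
    (@En.n l180 (nat_lit 13652) (nat_lit 1) (nat_lit 14))
    (@En.i (nat_lit 448) (nat_lit 1) (nat_lit 14))
    (@En.n l619 (nat_lit 13649) (nat_lit 2) (nat_lit 5))
    (@En.n l3348 (nat_lit 13657) (nat_lit 3) (nat_lit 10))
    (@En.n l17 (nat_lit 13652) (nat_lit 4) (nat_lit 2))
    (@En.n l3348 (nat_lit 13653) (nat_lit 5) (nat_lit 4))
    (@En.n l1998 (nat_lit 236) (nat_lit 7) (nat_lit 14))
    (@En.i (nat_lit 13263) (nat_lit 8) (nat_lit 11))
    (@En.i (nat_lit 13650) (nat_lit 8) (nat_lit 3))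
    (@En.n l1998 (nat_lit 13659) (nat_lit 10) (nat_lit 12))
    (@En.n l7 (nat_lit 13652) (nat_lit 10) (nat_lit 2))
    (@En.n l601 (nat_lit 13650) (nat_lit 12) (nat_lit 13))
    (@En.n l1643 (nat_lit 14046) (nat_lit 13) (nat_lit 14))
    (@En.i (nat_lit 449) (nat_lit 14) (nat_lit 6))
    (@En.n l11 (nat_lit 13652) (nat_lit 14) (nat_lit 2))
    (@En.n l107 (nat_lit 13652) (nat_lit 15) (nat_lit 2))))
  (@Cl.mk (nat_lit 0x200020006000e000c0002000c000c0004000c00040004000a0004000e000e) (nat_lit 0x330560a002012) (nat_lit 16) Lb.e (@T16.mk En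
    (@En.n l5 (nat_lit 13653) (nat_lit 1) (nat_lit 14))
    (@En.n l3082 (nat_lit 455) (nat_lit 1) (nat_lit 14))
    (@En.n l4980 (nat_lit 13654) (nat_lit 2) (nat_lit 4))
    (@En.i (nat_lit 13670) (nat_lit 3) (nat_lit 10))
    (@En.n l3515 (nat_lit 13665) (nat_lit 4) (nat_lit 4))
    (@En.n l7604 (nat_lit 13613) (nat_lit 5) (nat_lit 4))
    (@En.n l255 (nat_lit 13262) (nat_lit 7) (nat_lit 12))
    (@En.i (nat_lit 13676) (nat_lit 7) (nat_lit 4))
    (@En.n l1101 (nat_lit 13652) (nat_lit 9) (nat_lit 12))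
    (@En.n l7384 (nat_lit 13658) (nat_lit 10) (nat_lit 12))
    (@En.n l67 (nat_lit 13653) (nat_lit 10) (nat_lit 2))
    (@En.n l68 (nat_lit 13655) (nat_lit 12) (nat_lit 12))
    (@En.n l12675 (nat_lit 12833) (nat_lit 13) (nat_lit 14))
    (@En.n l255 (nat_lit 456) (nat_lit 14) (nat_lit 6))
    (@En.n l17 (nat_lit 13653) (nat_lit 14) (nat_lit 2))
    (@En.n l18 (nat_lit 13653) (nat_lit 15) (nat_lit 2))))
  (@Cl.mk (nat_lit 0x200020008000e000c0002000b000b0004000c0008000500050004000e000e) (nat_lit 0x1340570a400056) (nat_lit 16) Lb.e (@T16.mk En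
    (@En.n l97 (nat_lit 13654) (nat_lit 1) (nat_lit 14))
    (@En.i (nat_lit 3008) (nat_lit 1) (nat_lit 14))
    (@En.n l1776 (nat_lit 13875) (nat_lit 2) (nat_lit 4))
    (@En.n l1780 (nat_lit 13666) (nat_lit 3) (nat_lit 5))
    (@En.n l11991 (nat_lit 13188) (nat_lit 4) (nat_lit 5))
    (@En.i (nat_lit 13529) (nat_lit 5) (nat_lit 8))
    (@En.n l5311 (nat_lit 13260) (nat_lit 7) (nat_lit 12))
    (@En.n l4497 (nat_lit 13309) (nat_lit 7) (nat_lit 4))
    (@En.n l61 (nat_lit 13649) (nat_lit 9) (nat_lit 11))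
    (@En.i (nat_lit 14014) (nat_lit 10) (nat_lit 11))
    (@En.n l7 (nat_lit 13654) (nat_lit 10) (nat_lit 2))
    (@En.n l11992 (nat_lit 13651) (nat_lit 12) (nat_lit 12))
    (@En.n l134 (nat_lit 14049) (nat_lit 13) (nat_lit 14))
    (@En.n l5311 (nat_lit 3196) (nat_lit 14) (nat_lit 8))
    (@En.n l107 (nat_lit 13654) (nat_lit 14) (nat_lit 2))
    (@En.n l3 (nat_lit 13654) (nat_lit 15) (nat_lit 2))))
  (@Cl.mk (nat_lit 0x200020006000c000c000b000b00040004000c00050005000a0004000e000e) (nat_lit 0x2446009002012) (nat_lit 16) Lb.e (@T16.mk En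
    (@En.n l5 (nat_lit 13655) (nat_lit 1) (nat_lit 14))
    (@En.n l14808 (nat_lit 484) (nat_lit 1) (nat_lit 14))
    (@En.n l1688 (nat_lit 13651) (nat_lit 2) (nat_lit 4))
    (@En.i (nat_lit 13679) (nat_lit 3) (nat_lit 10))
    (@En.n l282 (nat_lit 13664) (nat_lit 4) (nat_lit 5))
    (@En.n l13320 (nat_lit 13610) (nat_lit 5) (nat_lit 5))
    (@En.n l2747 (nat_lit 13334) (nat_lit 7) (nat_lit 12))
    (@En.n l11 (nat_lit 13653) (nat_lit 7) (nat_lit 4))
    (@En.n l152 (nat_lit 13674) (nat_lit 8) (nat_lit 4))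
    (@En.n l1101 (nat_lit 13650) (nat_lit 10) (nat_lit 11))
    (@En.n l55 (nat_lit 13675) (nat_lit 11) (nat_lit 11))
    (@En.n l619 (nat_lit 13667) (nat_lit 12) (nat_lit 12))
    (@En.i (nat_lit 13983) (nat_lit 13) (nat_lit 12))
    (@En.i (nat_lit 457) (nat_lit 14) (nat_lit 6))
    (@En.n l17 (nat_lit 13655) (nat_lit 14) (nat_lit 2))
    (@En.n l18 (nat_lit 13655) (nat_lit 15) (nat_lit 2))))
  (@Cl.mk (nat_lit 0x2000200060009000d000d000b00030003000c00070005000a0004000e000e) (nat_lit 0x235600a002045) (nat_lit 16) Lb.e (@T16.mk En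
    (@En.n l5 (nat_lit 13656) (nat_lit 1) (nat_lit 14))
    (@En.n l1448 (nat_lit 557) (nat_lit 1) (nat_lit 14))
    (@En.i (nat_lit 13691) (nat_lit 2) (nat_lit 4))
    (@En.n l1596 (nat_lit 13680) (nat_lit 3) (nat_lit 10))
    (@En.i (nat_lit 13679) (nat_lit 4) (nat_lit 5))
    (@En.n l1448 (nat_lit 13809) (nat_lit 5) (nat_lit 7))
    (@En.n l5579 (nat_lit 13791) (nat_lit 7) (nat_lit 12))
    (@En.n l11 (nat_lit 13657) (nat_lit 7) (nat_lit 3))
    (@En.n l10020 (nat_lit 13686) (nat_lit 8) (nat_lit 3))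
    (@En.n l55 (nat_lit 13717) (nat_lit 10) (nat_lit 11))
    (@En.n l14684 (nat_lit 13686) (nat_lit 11) (nat_lit 13))
    (@En.n l1596 (nat_lit 13676) (nat_lit 12) (nat_lit 13))
    (@En.n l11726 (nat_lit 13602) (nat_lit 13) (nat_lit 9))
    (@En.i (nat_lit 556) (nat_lit 14) (nat_lit 6))
    (@En.n l17 (nat_lit 13656) (nat_lit 14) (nat_lit 2))
    (@En.n l18 (nat_lit 13656) (nat_lit 15) (nat_lit 2))))
  (@Cl.mk (nat_lit 0x2000200060009000e000d0002000c0003000c00070004000a0004000e000e) (nat_lit 0x244040a002012) (nat_lit 16) Lb.e (@T16.mk En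
    (@En.n l5 (nat_lit 13657) (nat_lit 1) (nat_lit 14))
    (@En.n l1448 (nat_lit 553) (nat_lit 1) (nat_lit 14))
    (@En.n l1592 (nat_lit 13692) (nat_lit 2) (nat_lit 4))
    (@En.n l1098 (nat_lit 13672) (nat_lit 3) (nat_lit 10))
    (@En.i (nat_lit 13670) (nat_lit 4) (nat_lit 4))
    (@En.n l1448 (nat_lit 13812) (nat_lit 5) (nat_lit 7))
    (@En.n l3638 (nat_lit 13264) (nat_lit 7) (nat_lit 12))
    (@En.i (nat_lit 13656) (nat_lit 7) (nat_lit 3))
    (@En.n l7384 (nat_lit 13716) (nat_lit 9) (nat_lit 12))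
    (@En.n l67 (nat_lit 13657) (nat_lit 9) (nat_lit 2))
    (@En.n l68 (nat_lit 13656) (nat_lit 11) (nat_lit 13))
    (@En.n l1596 (nat_lit 13653) (nat_lit 12) (nat_lit 14))
    (@En.n l11726 (nat_lit 13649) (nat_lit 13) (nat_lit 9))
    (@En.i (nat_lit 554) (nat_lit 14) (nat_lit 6))
    (@En.n l17 (nat_lit 13657) (nat_lit 14) (nat_lit 2))
    (@En.n l18 (nat_lit 13657) (nat_lit 15) (nat_lit 2))))
  (@Cl.mk (nat_lit 0x2000200060009000d000c000b0003000b000400070005000a0005000e000e) (nat_lit 0x3446090003012) (nat_lit 16) Lb.e (@T16.mk En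
    (@En.n l5 (nat_lit 13658) (nat_lit 1) (nat_lit 14))
    (@En.n l1998 (nat_lit 482) (nat_lit 1) (nat_lit 14))
    (@En.n l11680 (nat_lit 14014) (nat_lit 2) (nat_lit 5))
    (@En.n l5491 (nat_lit 13674) (nat_lit 3) (nat_lit 10))
    (@En.n l5491 (nat_lit 13655) (nat_lit 4) (nat_lit 5))
    (@En.n l12478 (nat_lit 13657) (nat_lit 5) (nat_lit 7))
    (@En.n l117 (nat_lit 12944) (nat_lit 6) (nat_lit 4))
    (@En.n l12278 (nat_lit 14036) (nat_lit 8) (nat_lit 11))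
    (@En.n l2469 (nat_lit 13056) (nat_lit 8) (nat_lit 3))
    (@En.n l575 (nat_lit 13614) (nat_lit 10) (nat_lit 11))
    (@En.n l12479 (nat_lit 13055) (nat_lit 11) (nat_lit 12))
    (@En.n l4549 (nat_lit 13675) (nat_lit 12) (nat_lit 13))
    (@En.i (nat_lit 13600) (nat_lit 13) (nat_lit 9))
    (@En.n l9300 (nat_lit 481) (nat_lit 14) (nat_lit 6))
    (@En.n l17 (nat_lit 13658) (nat_lit 14) (nat_lit 2))
    (@En.n l18 (nat_lit 13658) (nat_lit 15) (nat_lit 2))))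
  (@Cl.mk (nat_lit 0x2000200060009000e000c0002000a000d000400070003000a0006000e000e) (nat_lit 0x45406500040bc) (nat_lit 16) Lb.e (@T16.mk En
    (@En.n l5 (nat_lit 13659) (nat_lit 1) (nat_lit 14))
    (@En.n l1998 (nat_lit 382) (nat_lit 8) (nat_lit 14))
    (@En.i (nat_lit 12940) (nat_lit 2) (nat_lit 6))
    (@En.i (nat_lit 13716) (nat_lit 3) (nat_lit 10))
    (@En.i (nat_lit 13614) (nat_lit 4) (nat_lit 3))
    (@En.i (nat_lit 13819) (nat_lit 5) (nat_lit 7))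
    (@En.i (nat_lit 13658) (nat_lit 6) (nat_lit 4))
    (@En.i (nat_lit 266) (nat_lit 8) (nat_lit 13))
    (@En.i (nat_lit 14037) (nat_lit 9) (nat_lit 10))
    (@En.n l3 (nat_lit 13659) (nat_lit 9) (nat_lit 2))
    (@En.i (nat_lit 12944) (nat_lit 11) (nat_lit 12))
    (@En.i (nat_lit 13613) (nat_lit 12) (nat_lit 14))
    (@En.i (nat_lit 13560) (nat_lit 13) (nat_lit 9))
    (@En.n l2568 (nat_lit 386) (nat_lit 14) (nat_lit 6))
    (@En.n l17 (nat_lit 13659) (nat_lit 14) (nat_lit 2))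
    (@En.n l18 (nat_lit 13659) (nat_lit 15) (nat_lit 2))))
  (@Cl.mk (nat_lit 0x200020008000c00090009000e00040002000c0008000700070004000e000e) (nat_lit 0x1434700a600056) (nat_lit 16) Lb.e (@T16.mk En
    (@En.n l5 (nat_lit 13660) (nat_lit 1) (nat_lit 14))
    (@En.n l4559 (nat_lit 2951) (nat_lit 1) (nat_lit 14))
    (@En.n l4731 (nat_lit 13483) (nat_lit 2) (nat_lit 4))
    (@En.n l11691 (nat_lit 13662) (nat_lit 3) (nat_lit 7))
    (@En.n l1769 (nat_lit 13485) (nat_lit 4) (nat_lit 7))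
    (@En.n l25959 (nat_lit 13528) (nat_lit 5) (nat_lit 8))
    (@En.n l5377 (nat_lit 13329) (nat_lit 7) (nat_lit 12))
    (@En.n l11 (nat_lit 13660) (nat_lit 7) (nat_lit 2))
    (@En.n l1992 (nat_lit 13651) (nat_lit 8) (nat_lit 4))
    (@En.n l4559 (nat_lit 13428) (nat_lit 10) (nat_lit 14))
    (@En.i (nat_lit 13648) (nat_lit 11) (nat_lit 9))
    (@En.n l14572 (nat_lit 12935) (nat_lit 12) (nat_lit 9))
    (@En.i (nat_lit 13966) (nat_lit 13) (nat_lit 12))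
    (@En.i (nat_lit 3193) (nat_lit 14) (nat_lit 8))
    (@En.n l17 (nat_lit 13660) (nat_lit 14) (nat_lit 2))
    (@En.n l18 (nat_lit 13660) (nat_lit 15) (nat_lit 2))))
  (@Cl.mk (nat_lit 0x200020007000b000b000e000a000200050005000d000900060003000e000e) (nat_lit 0x34a6000440045) (nat_lit 16) Lb.e (@T16.mk En
    (@En.n l5 (nat_lit 13661) (nat_lit 1) (nat_lit 14))
    (@En.n l4003 (nat_lit 2820) (nat_lit 9) (nat_lit 14))
    (@En.n l7 (nat_lit 13664) (nat_lit 2) (nat_lit 3))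
    (@En.n l12901 (nat_lit 13186) (nat_lit 3) (nat_lit 6))
    (@En.n l8402 (nat_lit 13530) (nat_lit 4) (nat_lit 9))
    (@En.n l645 (nat_lit 13293) (nat_lit 6) (nat_lit 13))
    (@En.n l4252 (nat_lit 13666) (nat_lit 6) (nat_lit 5))
    (@En.i (nat_lit 13671) (nat_lit 7) (nat_lit 5))
    (@En.n l936 (nat_lit 13661) (nat_lit 8) (nat_lit 2))
    (@En.n l12901 (nat_lit 13651) (nat_lit 10) (nat_lit 10))
    (@En.n l16492 (nat_lit 13662) (nat_lit 11) (nat_lit 14))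
    (@En.n l16493 (nat_lit 13662) (nat_lit 12) (nat_lit 11))
    (@En.n l25242 (nat_lit 13965) (nat_lit 13) (nat_lit 11))
    (@En.i (nat_lit 3200) (nat_lit 4) (nat_lit 7))
    (@En.n l17 (nat_lit 13661) (nat_lit 14) (nat_lit 2))
    (@En.n l18 (nat_lit 13661) (nat_lit 15) (nat_lit 2))))
  (@Cl.mk (nat_lit 0x200020007000b000e00090002000e00050002000d000900070003000e000e) (nat_lit 0x3940600460045) (nat_lit 16) Lb.e (@T16.mk En
    (@En.n l5 (nat_lit 13662) (nat_lit 1) (nat_lit 14))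
    (@En.n l25408 (nat_lit 2819) (nat_lit 1) (nat_lit 14))
    (@En.n l7 (nat_lit 13663) (nat_lit 2) (nat_lit 3))
    (@En.n l25409 (nat_lit 13193) (nat_lit 3) (nat_lit 7))
    (@En.n l13764 (nat_lit 13593) (nat_lit 4) (nat_lit 9))
    (@En.n l1014 (nat_lit 13326) (nat_lit 6) (nat_lit 13))
    (@En.n l11 (nat_lit 13662) (nat_lit 6) (nat_lit 2))
    (@En.n l6651 (nat_lit 13661) (nat_lit 7) (nat_lit 5))
    (@En.n l11986 (nat_lit 13669) (nat_lit 9) (nat_lit 14))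
    (@En.n l3 (nat_lit 13662) (nat_lit 9) (nat_lit 2))
    (@En.n l21524 (nat_lit 13660) (nat_lit 11) (nat_lit 9))
    (@En.n l25410 (nat_lit 13823) (nat_lit 12) (nat_lit 14))
    (@En.n l11986 (nat_lit 13963) (nat_lit 13) (nat_lit 11))
    (@En.n l996 (nat_lit 3468) (nat_lit 14) (nat_lit 7))
    (@En.n l17 (nat_lit 13662) (nat_lit 14) (nat_lit 2))
    (@En.n l18 (nat_lit 13662) (nat_lit 15) (nat_lit 2))))
  (@Cl.mk (nat_lit 0x200020006000b000e000a0002000e00050002000d0006000a0003000e000e) (nat_lit 0x3750600501012) (nat_lit 16) Lb.e (@T16.mk En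
    (@En.n l5 (nat_lit 13663) (nat_lit 1) (nat_lit 14))
    (@En.n l1014 (nat_lit 602) (nat_lit 1) (nat_lit 14))
    (@En.i (nat_lit 13662) (nat_lit 2) (nat_lit 3))
    (@En.i (nat_lit 231) (nat_lit 3) (nat_lit 10))
    (@En.n l1018 (nat_lit 13605) (nat_lit 4) (nat_lit 6))
    (@En.n l1014 (nat_lit 13327) (nat_lit 6) (nat_lit 13))
    (@En.n l11 (nat_lit 13663) (nat_lit 6) (nat_lit 2))
    (@En.n l6651 (nat_lit 13664) (nat_lit 7) (nat_lit 5))
    (@En.n l2055 (nat_lit 13668) (nat_lit 9) (nat_lit 14))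
    (@En.n l3 (nat_lit 13663) (nat_lit 9) (nat_lit 2))
    (@En.n l1098 (nat_lit 13667) (nat_lit 11) (nat_lit 10))
    (@En.n l18534 (nat_lit 13822) (nat_lit 12) (nat_lit 14))
    (@En.i (nat_lit 13644) (nat_lit 13) (nat_lit 11))
    (@En.i (nat_lit 601) (nat_lit 14) (nat_lit 6))
    (@En.n l17 (nat_lit 13663) (nat_lit 14) (nat_lit 2))
    (@En.n l18 (nat_lit 13663) (nat_lit 15) (nat_lit 2))))
noncomputable def a854 : T16 Cl := @T16.mk Cl
  (@Cl.mk (nat_lit 0x200020006000b000b000e000b000200050005000d0005000a0003000e000e) (nat_lit 0x2485000301012) (nat_lit 16) Lb.e (@T16.mk En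
    (@En.n l5 (nat_lit 13664) (nat_lit 1) (nat_lit 14))
    (@En.n l645 (nat_lit 605) (nat_lit 9) (nat_lit 14))
    (@En.i (nat_lit 13661) (nat_lit 2) (nat_lit 3))
    (@En.n l2098 (nat_lit 224) (nat_lit 3) (nat_lit 10))
    (@En.n l14957 (nat_lit 13606) (nat_lit 4) (nat_lit 5))
    (@En.n l645 (nat_lit 13292) (nat_lit 6) (nat_lit 13))
    (@En.n l7041 (nat_lit 13665) (nat_lit 6) (nat_lit 5))
    (@En.i (nat_lit 13670) (nat_lit 7) (nat_lit 5))
    (@En.n l936 (nat_lit 13664) (nat_lit 8) (nat_lit 2))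
    (@En.n l3824 (nat_lit 13655) (nat_lit 10) (nat_lit 11))
    (@En.n l16492 (nat_lit 13663) (nat_lit 11) (nat_lit 14))
    (@En.n l16493 (nat_lit 13663) (nat_lit 12) (nat_lit 11))
    (@En.n l2098 (nat_lit 13985) (nat_lit 13) (nat_lit 11))
    (@En.i (nat_lit 604) (nat_lit 4) (nat_lit 6))
    (@En.n l17 (nat_lit 13664) (nat_lit 14) (nat_lit 2))
    (@En.n l18 (nat_lit 13664) (nat_lit 15) (nat_lit 2))))
  (@Cl.mk (nat_lit 0x200020006000e000b0002000e000c00020005000d0004000a0003000e000e) (nat_lit 0x2309600301012) (nat_lit 16) Lb.e (@T16.mk En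
    (@En.n l601 (nat_lit 13665) (nat_lit 1) (nat_lit 14))
    (@En.i (nat_lit 607) (nat_lit 10) (nat_lit 14))
    (@En.n l287 (nat_lit 13666) (nat_lit 2) (nat_lit 3))
    (@En.n l2866 (nat_lit 225) (nat_lit 3) (nat_lit 10))
    (@En.n l7683 (nat_lit 13612) (nat_lit 4) (nat_lit 4))
    (@En.i (nat_lit 13288) (nat_lit 6) (nat_lit 13))
    (@En.n l7681 (nat_lit 13678) (nat_lit 6) (nat_lit 5))
    (@En.n l3 (nat_lit 13665) (nat_lit 7) (nat_lit 2))
    (@En.n l5276 (nat_lit 13653) (nat_lit 9) (nat_lit 12))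
    (@En.n l3340 (nat_lit 13664) (nat_lit 10) (nat_lit 14))
    (@En.n l17 (nat_lit 13665) (nat_lit 10) (nat_lit 2))
    (@En.n l7681 (nat_lit 13664) (nat_lit 12) (nat_lit 11))
    (@En.n l2031 (nat_lit 14048) (nat_lit 13) (nat_lit 14))
    (@En.n l2034 (nat_lit 608) (nat_lit 5) (nat_lit 6))
    (@En.n l50 (nat_lit 13665) (nat_lit 14) (nat_lit 2))
    (@En.n l7 (nat_lit 13665) (nat_lit 15) (nat_lit 2))))
  (@Cl.mk (nat_lit 0x200020007000e000b0002000e000b00020005000d000900050003000e000e) (nat_lit 0x240b600240045) (nat_lit 16) Lb.e (@T16.mk En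
    (@En.n l134 (nat_lit 13666) (nat_lit 1) (nat_lit 14))
    (@En.i (nat_lit 2822) (nat_lit 10) (nat_lit 14))
    (@En.n l1253 (nat_lit 13665) (nat_lit 2) (nat_lit 3))
    (@En.n l11610 (nat_lit 13187) (nat_lit 3) (nat_lit 5))
    (@En.n l2593 (nat_lit 13531) (nat_lit 4) (nat_lit 9))
    (@En.n l766 (nat_lit 13289) (nat_lit 6) (nat_lit 13))
    (@En.n l1326 (nat_lit 13431) (nat_lit 6) (nat_lit 5))
    (@En.n l3 (nat_lit 13666) (nat_lit 7) (nat_lit 2))
    (@En.n l5347 (nat_lit 13654) (nat_lit 9) (nat_lit 11))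
    (@En.n l1203 (nat_lit 13661) (nat_lit 10) (nat_lit 14))
    (@En.n l18 (nat_lit 13666) (nat_lit 10) (nat_lit 2))
    (@En.n l1326 (nat_lit 13661) (nat_lit 12) (nat_lit 11))
    (@En.n l2571 (nat_lit 13771) (nat_lit 13) (nat_lit 14))
    (@En.i (nat_lit 3201) (nat_lit 5) (nat_lit 7))
    (@En.n l7 (nat_lit 13666) (nat_lit 14) (nat_lit 2))
    (@En.n l28 (nat_lit 13666) (nat_lit 15) (nat_lit 2))))
  (@Cl.mk (nat_lit 0x200020006000c000a000a000e00040002000c00060006000a0004000e000e) (nat_lit 0x345600a002012) (nat_lit 16) Lb.e (@T16.mk En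
    (@En.n l5 (nat_lit 13667) (nat_lit 1) (nat_lit 14))
    (@En.n l12412 (nat_lit 612) (nat_lit 1) (nat_lit 14))
    (@En.n l4728 (nat_lit 13660) (nat_lit 2) (nat_lit 4))
    (@En.i (nat_lit 13684) (nat_lit 3) (nat_lit 10))
    (@En.n l288 (nat_lit 13663) (nat_lit 4) (nat_lit 6))
    (@En.n l12413 (nat_lit 13609) (nat_lit 5) (nat_lit 6))
    (@En.n l3886 (nat_lit 13330) (nat_lit 7) (nat_lit 12))
    (@En.n l11 (nat_lit 13667) (nat_lit 7) (nat_lit 2))
    (@En.n l117 (nat_lit 13655) (nat_lit 8) (nat_lit 4))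
    (@En.n l4750 (nat_lit 13677) (nat_lit 10) (nat_lit 14))
    (@En.n l936 (nat_lit 13603) (nat_lit 11) (nat_lit 10))
    (@En.n l4486 (nat_lit 13716) (nat_lit 12) (nat_lit 10))
    (@En.n l936 (nat_lit 13982) (nat_lit 13) (nat_lit 12))
    (@En.i (nat_lit 613) (nat_lit 14) (nat_lit 6))
    (@En.n l17 (nat_lit 13667) (nat_lit 14) (nat_lit 2))
    (@En.n l18 (nat_lit 13667) (nat_lit 15) (nat_lit 2))))
  (@Cl.mk (nat_lit 0x200020006000c000b000a000e000400020005000d0006000a0003000e000e) (nat_lit 0x2465000b02012) (nat_lit 16) Lb.e (@T16.mk En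
    (@En.n l5 (nat_lit 13668) (nat_lit 1) (nat_lit 14))
    (@En.n l1867 (nat_lit 598) (nat_lit 10) (nat_lit 14))
    (@En.n l12483 (nat_lit 13669) (nat_lit 2) (nat_lit 3))
    (@En.n l1596 (nat_lit 268) (nat_lit 3) (nat_lit 10))
    (@En.i (nat_lit 13722) (nat_lit 4) (nat_lit 6))
    (@En.n l5579 (nat_lit 13833) (nat_lit 6) (nat_lit 13))
    (@En.n l4976 (nat_lit 13664) (nat_lit 6) (nat_lit 5))
    (@En.n l3 (nat_lit 13668) (nat_lit 7) (nat_lit 2))
    (@En.n l152 (nat_lit 13679) (nat_lit 8) (nat_lit 4))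
    (@En.n l5859 (nat_lit 13678) (nat_lit 10) (nat_lit 14))
    (@En.n l6000 (nat_lit 13677) (nat_lit 11) (nat_lit 10))
    (@En.n l97 (nat_lit 13672) (nat_lit 12) (nat_lit 11))
    (@En.n l11918 (nat_lit 13984) (nat_lit 13) (nat_lit 12))
    (@En.i (nat_lit 599) (nat_lit 5) (nat_lit 6))
    (@En.n l17 (nat_lit 13668) (nat_lit 14) (nat_lit 2))
    (@En.n l18 (nat_lit 13668) (nat_lit 15) (nat_lit 2))))
  (@Cl.mk (nat_lit 0x200020007000c000b0009000e000400020005000d000900070003000e000e) (nat_lit 0x3465000b10045) (nat_lit 16) Lb.e (@T16.mk En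
    (@En.n l97 (nat_lit 13669) (nat_lit 1) (nat_lit 14))
    (@En.n l9502 (nat_lit 3896) (nat_lit 10) (nat_lit 14))
    (@En.n l11907 (nat_lit 13668) (nat_lit 2) (nat_lit 3))
    (@En.n l1722 (nat_lit 13198) (nat_lit 3) (nat_lit 7))
    (@En.n l11908 (nat_lit 13518) (nat_lit 4) (nat_lit 9))
    (@En.i (nat_lit 13832) (nat_lit 6) (nat_lit 13))
    (@En.n l4715 (nat_lit 13661) (nat_lit 6) (nat_lit 5))
    (@En.n l7 (nat_lit 13669) (nat_lit 7) (nat_lit 2))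
    (@En.n l4714 (nat_lit 13433) (nat_lit 8) (nat_lit 4))
    (@En.n l9580 (nat_lit 13431) (nat_lit 10) (nat_lit 14))
    (@En.n l17 (nat_lit 13428) (nat_lit 11) (nat_lit 9))
    (@En.n l11909 (nat_lit 13673) (nat_lit 12) (nat_lit 11))
    (@En.i (nat_lit 13999) (nat_lit 13) (nat_lit 12))
    (@En.n l11910 (nat_lit 3736) (nat_lit 5) (nat_lit 7))
    (@En.n l107 (nat_lit 13669) (nat_lit 14) (nat_lit 2))
    (@En.n l3 (nat_lit 13669) (nat_lit 15) (nat_lit 2))))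
  (@Cl.mk (nat_lit 0x200020006000b000e000c0002000c00050004000d0004000a0003000e000e) (nat_lit 0x3340600a01012) (nat_lit 16) Lb.e (@T16.mk En
    (@En.n l5 (nat_lit 13670) (nat_lit 1) (nat_lit 14))
    (@En.i (nat_lit 547) (nat_lit 1) (nat_lit 14))
    (@En.i (nat_lit 13671) (nat_lit 2) (nat_lit 3))
    (@En.i (nat_lit 226) (nat_lit 3) (nat_lit 10))
    (@En.i (nat_lit 13717) (nat_lit 4) (nat_lit 4))
    (@En.n l645 (nat_lit 13265) (nat_lit 6) (nat_lit 13))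
    (@En.i (nat_lit 13435) (nat_lit 6) (nat_lit 4))
    (@En.i (nat_lit 13672) (nat_lit 7) (nat_lit 5))
    (@En.n l197 (nat_lit 13674) (nat_lit 9) (nat_lit 12))
    (@En.n l67 (nat_lit 13670) (nat_lit 9) (nat_lit 2))
    (@En.n l68 (nat_lit 13679) (nat_lit 11) (nat_lit 12))
    (@En.n l645 (nat_lit 13665) (nat_lit 12) (nat_lit 14))
    (@En.i (nat_lit 13188) (nat_lit 13) (nat_lit 11))
    (@En.i (nat_lit 548) (nat_lit 14) (nat_lit 6))
    (@En.n l17 (nat_lit 13670) (nat_lit 14) (nat_lit 2))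
    (@En.n l18 (nat_lit 13670) (nat_lit 15) (nat_lit 2))))
  (@Cl.mk (nat_lit 0x200020007000b000e000c0002000b00050004000d000900050003000e000e) (nat_lit 0x2350800950045) (nat_lit 16) Lb.e (@T16.mk En
    (@En.n l5 (nat_lit 13671) (nat_lit 1) (nat_lit 14))
    (@En.n l420 (nat_lit 3899) (nat_lit 1) (nat_lit 14))
    (@En.n l7 (nat_lit 13670) (nat_lit 2) (nat_lit 3))
    (@En.n l1362 (nat_lit 13103) (nat_lit 3) (nat_lit 5))
    (@En.i (nat_lit 13517) (nat_lit 4) (nat_lit 9))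
    (@En.n l645 (nat_lit 13266) (nat_lit 6) (nat_lit 13))
    (@En.i (nat_lit 13429) (nat_lit 6) (nat_lit 4))
    (@En.i (nat_lit 13673) (nat_lit 7) (nat_lit 5))
    (@En.n l197 (nat_lit 13308) (nat_lit 9) (nat_lit 11))
    (@En.n l67 (nat_lit 13671) (nat_lit 9) (nat_lit 2))
    (@En.n l68 (nat_lit 13433) (nat_lit 11) (nat_lit 12))
    (@En.n l4003 (nat_lit 13666) (nat_lit 12) (nat_lit 14))
    (@En.i (nat_lit 13873) (nat_lit 13) (nat_lit 11))
    (@En.i (nat_lit 3735) (nat_lit 14) (nat_lit 7))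
    (@En.n l17 (nat_lit 13671) (nat_lit 14) (nat_lit 2))
    (@En.n l18 (nat_lit 13671) (nat_lit 15) (nat_lit 2))))
  (@Cl.mk (nat_lit 0x200020006000b0009000e000d000200050003000d0007000a0003000e000e) (nat_lit 0x3345000a01034) (nat_lit 16) Lb.e (@T16.mk En
    (@En.n l5 (nat_lit 13672) (nat_lit 1) (nat_lit 14))
    (@En.n l3017 (nat_lit 550) (nat_lit 9) (nat_lit 14))
    (@En.i (nat_lit 13673) (nat_lit 2) (nat_lit 3))
    (@En.n l891 (nat_lit 232) (nat_lit 3) (nat_lit 10))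
    (@En.n l3017 (nat_lit 13813) (nat_lit 4) (nat_lit 7))
    (@En.n l645 (nat_lit 13267) (nat_lit 6) (nat_lit 13))
    (@En.n l936 (nat_lit 13680) (nat_lit 6) (nat_lit 3))
    (@En.n l7626 (nat_lit 13663) (nat_lit 7) (nat_lit 5))
    (@En.n l67 (nat_lit 13672) (nat_lit 8) (nat_lit 2))
    (@En.n l3013 (nat_lit 13680) (nat_lit 10) (nat_lit 13))
    (@En.n l936 (nat_lit 13670) (nat_lit 11) (nat_lit 14))
    (@En.i (nat_lit 13657) (nat_lit 12) (nat_lit 9))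
    (@En.n l3015 (nat_lit 13194) (nat_lit 13) (nat_lit 11))
    (@En.n l3015 (nat_lit 551) (nat_lit 4) (nat_lit 6))
    (@En.n l17 (nat_lit 13672) (nat_lit 14) (nat_lit 2))
    (@En.n l18 (nat_lit 13672) (nat_lit 15) (nat_lit 2))))
  (@Cl.mk (nat_lit 0x200020007000b0008000e000d000200050003000d000900080003000e000e) (nat_lit 0x3347000a12045) (nat_lit 16) Lb.e (@T16.mk En
    (@En.n l5 (nat_lit 13673) (nat_lit 1) (nat_lit 14))
    (@En.n l4538 (nat_lit 3900) (nat_lit 9) (nat_lit 14))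
    (@En.n l7 (nat_lit 13672) (nat_lit 2) (nat_lit 3))
    (@En.n l11695 (nat_lit 13208) (nat_lit 3) (nat_lit 8))
    (@En.n l4535 (nat_lit 13515) (nat_lit 4) (nat_lit 9))
    (@En.n l645 (nat_lit 13222) (nat_lit 6) (nat_lit 13))
    (@En.n l936 (nat_lit 13688) (nat_lit 6) (nat_lit 3))
    (@En.n l7626 (nat_lit 13662) (nat_lit 7) (nat_lit 5))
    (@En.n l67 (nat_lit 13673) (nat_lit 8) (nat_lit 2))
    (@En.n l3013 (nat_lit 13688) (nat_lit 10) (nat_lit 13))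
    (@En.n l936 (nat_lit 13671) (nat_lit 11) (nat_lit 14))
    (@En.n l1592 (nat_lit 13692) (nat_lit 12) (nat_lit 8))
    (@En.n l11696 (nat_lit 13871) (nat_lit 13) (nat_lit 11))
    (@En.n l4624 (nat_lit 3734) (nat_lit 4) (nat_lit 7))
    (@En.n l17 (nat_lit 13673) (nat_lit 14) (nat_lit 2))
    (@En.n l18 (nat_lit 13673) (nat_lit 15) (nat_lit 2))))
  (@Cl.mk (nat_lit 0x200020006000c0009000d000c00040003000c00040007000a0004000e000e) (nat_lit 0x34b500a002012) (nat_lit 16) Lb.e (@T16.mk En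
    (@En.n l5 (nat_lit 13674) (nat_lit 1) (nat_lit 14))
    (@En.i (nat_lit 462) (nat_lit 1) (nat_lit 14))
    (@En.i (nat_lit 13308) (nat_lit 2) (nat_lit 4))
    (@En.i (nat_lit 13683) (nat_lit 3) (nat_lit 10))
    (@En.n l919 (nat_lit 13672) (nat_lit 4) (nat_lit 7))
    (@En.n l11 (nat_lit 12945) (nat_lit 5) (nat_lit 4))
    (@En.n l287 (nat_lit 14034) (nat_lit 7) (nat_lit 12))
    (@En.n l11 (nat_lit 13057) (nat_lit 7) (nat_lit 3))
    (@En.i (nat_lit 13667) (nat_lit 8) (nat_lit 4))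
    (@En.n l55 (nat_lit 13054) (nat_lit 10) (nat_lit 12))
    (@En.n l4750 (nat_lit 13434) (nat_lit 11) (nat_lit 13))
    (@En.n l4751 (nat_lit 13658) (nat_lit 12) (nat_lit 9))
    (@En.i (nat_lit 13197) (nat_lit 13) (nat_lit 12))
    (@En.i (nat_lit 461) (nat_lit 14) (nat_lit 6))
    (@En.n l17 (nat_lit 13674) (nat_lit 14) (nat_lit 2))
    (@En.n l18 (nat_lit 13674) (nat_lit 15) (nat_lit 2))))
  (@Cl.mk (nat_lit 0x200020006000d000b000a0003000d000b000500030006000a0005000e000e) (nat_lit 0x3360690004012) (nat_lit 16) Lb.e (@T16.mk En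
    (@En.n l5 (nat_lit 13675) (nat_lit 1) (nat_lit 14))
    (@En.n l5200 (nat_lit 476) (nat_lit 1) (nat_lit 14))
    (@En.n l1688 (nat_lit 14016) (nat_lit 2) (nat_lit 5))
    (@En.i (nat_lit 13434) (nat_lit 3) (nat_lit 10))
    (@En.n l1685 (nat_lit 13667) (nat_lit 4) (nat_lit 6))
    (@En.n l28 (nat_lit 13676) (nat_lit 5) (nat_lit 3))
    (@En.n l473 (nat_lit 13117) (nat_lit 6) (nat_lit 5))
    (@En.n l77 (nat_lit 13878) (nat_lit 8) (nat_lit 11))
    (@En.n l1690 (nat_lit 13055) (nat_lit 9) (nat_lit 13))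
    (@En.n l152 (nat_lit 13054) (nat_lit 9) (nat_lit 3))
    (@En.i (nat_lit 13611) (nat_lit 11) (nat_lit 10))
    (@En.n l97 (nat_lit 12945) (nat_lit 12) (nat_lit 11))
    (@En.i (nat_lit 13992) (nat_lit 13) (nat_lit 13))
    (@En.i (nat_lit 475) (nat_lit 14) (nat_lit 6))
    (@En.n l17 (nat_lit 13675) (nat_lit 14) (nat_lit 2))
    (@En.n l18 (nat_lit 13675) (nat_lit 15) (nat_lit 2))))
  (@Cl.mk (nat_lit 0x200020006000d000c000a0003000d0004000c00030006000a0004000e000e) (nat_lit 0x246070a003012) (nat_lit 16) Lb.e (@T16.mk En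
    (@En.n l5 (nat_lit 13676) (nat_lit 1) (nat_lit 14))
    (@En.i (nat_lit 473) (nat_lit 1) (nat_lit 14))
    (@En.i (nat_lit 13309) (nat_lit 2) (nat_lit 4))
    (@En.i (nat_lit 13435) (nat_lit 3) (nat_lit 10))
    (@En.n l3531 (nat_lit 13668) (nat_lit 4) (nat_lit 6))
    (@En.i (nat_lit 13675) (nat_lit 5) (nat_lit 3))
    (@En.n l1897 (nat_lit 13801) (nat_lit 7) (nat_lit 12))
    (@En.i (nat_lit 13655) (nat_lit 7) (nat_lit 4))
    (@En.n l1690 (nat_lit 13056) (nat_lit 9) (nat_lit 13))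
    (@En.n l152 (nat_lit 13057) (nat_lit 9) (nat_lit 3))
    (@En.i (nat_lit 13612) (nat_lit 11) (nat_lit 10))
    (@En.n l619 (nat_lit 13674) (nat_lit 12) (nat_lit 12))
    (@En.i (nat_lit 13987) (nat_lit 13) (nat_lit 13))
    (@En.i (nat_lit 472) (nat_lit 14) (nat_lit 6))
    (@En.n l17 (nat_lit 13676) (nat_lit 14) (nat_lit 2))
    (@En.n l18 (nat_lit 13676) (nat_lit 15) (nat_lit 2))))
  (@Cl.mk (nat_lit 0x200020006000d000a000e00030002000d000c00060003000a0004000e000e) (nat_lit 0x9550079003012) (nat_lit 16) Lb.e (@T16.mk En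
    (@En.n l5 (nat_lit 13677) (nat_lit 1) (nat_lit 14))
    (@En.n l2438 (nat_lit 503) (nat_lit 1) (nat_lit 14))
    (@En.n l1362 (nat_lit 13428) (nat_lit 2) (nat_lit 4))
    (@En.n l1798 (nat_lit 273) (nat_lit 3) (nat_lit 10))
    (@En.n l28 (nat_lit 13678) (nat_lit 4) (nat_lit 3))
    (@En.n l2438 (nat_lit 676) (nat_lit 5) (nat_lit 6))
    (@En.n l77 (nat_lit 13431) (nat_lit 7) (nat_lit 12))
    (@En.n l7705 (nat_lit 13675) (nat_lit 8) (nat_lit 13))
    (@En.n l67 (nat_lit 13677) (nat_lit 8) (nat_lit 2))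
    (@En.n l107 (nat_lit 13434) (nat_lit 9) (nat_lit 3))
    (@En.n l1798 (nat_lit 14070) (nat_lit 11) (nat_lit 14))
    (@En.i (nat_lit 13717) (nat_lit 12) (nat_lit 10))
    (@En.n l1686 (nat_lit 13990) (nat_lit 13) (nat_lit 13))
    (@En.i (nat_lit 504) (nat_lit 14) (nat_lit 6))
    (@En.n l17 (nat_lit 13677) (nat_lit 14) (nat_lit 2))
    (@En.n l18 (nat_lit 13677) (nat_lit 15) (nat_lit 2))))
  (@Cl.mk (nat_lit 0x200020006000d000b000e00030002000d0005000d0003000a0003000e000e) (nat_lit 0x2440080b02012) (nat_lit 16) Lb.e (@T16.mk En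
    (@En.n l5 (nat_lit 13678) (nat_lit 1) (nat_lit 14))
    (@En.n l1865 (nat_lit 512) (nat_lit 1) (nat_lit 14))
    (@En.i (nat_lit 13431) (nat_lit 2) (nat_lit 3))
    (@En.i (nat_lit 267) (nat_lit 3) (nat_lit 10))
    (@En.i (nat_lit 13677) (nat_lit 4) (nat_lit 3))
    (@En.n l1865 (nat_lit 13273) (nat_lit 6) (nat_lit 13))
    (@En.n l117 (nat_lit 13668) (nat_lit 6) (nat_lit 5))
    (@En.n l7705 (nat_lit 13676) (nat_lit 8) (nat_lit 13))
    (@En.n l67 (nat_lit 13678) (nat_lit 8) (nat_lit 2))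
    (@En.n l107 (nat_lit 13435) (nat_lit 9) (nat_lit 3))
    (@En.n l4660 (nat_lit 14069) (nat_lit 11) (nat_lit 14))
    (@En.i (nat_lit 13670) (nat_lit 12) (nat_lit 11))
    (@En.i (nat_lit 13988) (nat_lit 13) (nat_lit 13))
    (@En.i (nat_lit 511) (nat_lit 14) (nat_lit 6))
    (@En.n l17 (nat_lit 13678) (nat_lit 14) (nat_lit 2))
    (@En.n l18 (nat_lit 13678) (nat_lit 15) (nat_lit 2))))
  (@Cl.mk (nat_lit 0x200020006000c000c000c000b000400040004000d0005000a0003000e000e) (nat_lit 0x4356000b01034) (nat_lit 16) Lb.e (@T16.mk En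
    (@En.n l5 (nat_lit 13679) (nat_lit 1) (nat_lit 14))
    (@En.i (nat_lit 543) (nat_lit 1) (nat_lit 14))
    (@En.i (nat_lit 13433) (nat_lit 2) (nat_lit 3))
    (@En.i (nat_lit 230) (nat_lit 3) (nat_lit 10))
    (@En.i (nat_lit 13720) (nat_lit 4) (nat_lit 5))
    (@En.n l134 (nat_lit 13830) (nat_lit 6) (nat_lit 13))
    (@En.n l11 (nat_lit 13670) (nat_lit 6) (nat_lit 4))
    (@En.n l152 (nat_lit 13683) (nat_lit 7) (nat_lit 4))
    (@En.n l936 (nat_lit 13680) (nat_lit 8) (nat_lit 4))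
    (@En.n l55 (nat_lit 13434) (nat_lit 10) (nat_lit 11))
    (@En.n l619 (nat_lit 13684) (nat_lit 11) (nat_lit 12))
    (@En.i (nat_lit 13668) (nat_lit 12) (nat_lit 12))
    (@En.i (nat_lit 13192) (nat_lit 13) (nat_lit 12))
    (@En.i (nat_lit 544) (nat_lit 14) (nat_lit 6))
    (@En.n l17 (nat_lit 13679) (nat_lit 14) (nat_lit 2))
    (@En.n l18 (nat_lit 13679) (nat_lit 15) (nat_lit 2))))
noncomputable def a855 : T16 Cl := @T16.mk Cl
  (@Cl.mk (nat_lit 0x200020006000c0009000d000d000400030003000d0007000a0003000e000e) (nat_lit 0x3347000b01034) (nat_lit 16) Lb.e (@T16.mk En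
    (@En.n l5 (nat_lit 13680) (nat_lit 1) (nat_lit 14))
    (@En.i (nat_lit 541) (nat_lit 1) (nat_lit 14))
    (@En.i (nat_lit 13688) (nat_lit 2) (nat_lit 3))
    (@En.n l476 (nat_lit 235) (nat_lit 3) (nat_lit 10))
    (@En.i (nat_lit 661) (nat_lit 4) (nat_lit 7))
    (@En.i (nat_lit 13794) (nat_lit 6) (nat_lit 13))
    (@En.n l1483 (nat_lit 13672) (nat_lit 6) (nat_lit 3))
    (@En.n l152 (nat_lit 13685) (nat_lit 7) (nat_lit 3))
    (@En.n l1992 (nat_lit 13668) (nat_lit 8) (nat_lit 4))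
    (@En.n l619 (nat_lit 13685) (nat_lit 10) (nat_lit 13))
    (@En.i (nat_lit 13435) (nat_lit 11) (nat_lit 13))
    (@En.n l1769 (nat_lit 13656) (nat_lit 12) (nat_lit 9))
    (@En.i (nat_lit 13870) (nat_lit 13) (nat_lit 12))
    (@En.i (nat_lit 540) (nat_lit 14) (nat_lit 6))
    (@En.n l17 (nat_lit 13680) (nat_lit 14) (nat_lit 2))
    (@En.n l18 (nat_lit 13680) (nat_lit 15) (nat_lit 2))))
  (@Cl.mk (nat_lit 0x200020006000e000d0002000d0003000d0003000d0003000a0003000e000e) (nat_lit 0xa501080b02034) (nat_lit 16) Lb.e (@T16.mk En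
    (@En.n l5 (nat_lit 13681) (nat_lit 1) (nat_lit 14))
    (@En.i (nat_lit 516) (nat_lit 1) (nat_lit 14))
    (@En.i (nat_lit 13430) (nat_lit 2) (nat_lit 3))
    (@En.i (nat_lit 266) (nat_lit 3) (nat_lit 10))
    (@En.i (nat_lit 13682) (nat_lit 4) (nat_lit 3))
    (@En.i (nat_lit 13276) (nat_lit 6) (nat_lit 13))
    (@En.i (nat_lit 13683) (nat_lit 6) (nat_lit 3))
    (@En.i (nat_lit 13053) (nat_lit 8) (nat_lit 13))
    (@En.n l117 (nat_lit 13435) (nat_lit 8) (nat_lit 3))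
    (@En.i (nat_lit 271) (nat_lit 10) (nat_lit 13))
    (@En.n l3 (nat_lit 13681) (nat_lit 10) (nat_lit 2))
    (@En.i (nat_lit 13435) (nat_lit 12) (nat_lit 13))
    (@En.i (nat_lit 13109) (nat_lit 13) (nat_lit 14))
    (@En.i (nat_lit 520) (nat_lit 14) (nat_lit 6))
    (@En.n l17 (nat_lit 13681) (nat_lit 14) (nat_lit 2))
    (@En.n l18 (nat_lit 13681) (nat_lit 15) (nat_lit 2))))
  (@Cl.mk (nat_lit 0x200020006000e000d0002000c0003000d000c00040003000a0004000e000e) (nat_lit 0x4a05078003045) (nat_lit 16) Lb.e (@T16.mk En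
    (@En.n l5 (nat_lit 13682) (nat_lit 1) (nat_lit 14))
    (@En.i (nat_lit 517) (nat_lit 1) (nat_lit 14))
    (@En.n l28 (nat_lit 13425) (nat_lit 2) (nat_lit 4))
    (@En.n l1599 (nat_lit 271) (nat_lit 3) (nat_lit 10))
    (@En.n l28 (nat_lit 13681) (nat_lit 4) (nat_lit 3))
    (@En.i (nat_lit 13730) (nat_lit 5) (nat_lit 4))
    (@En.n l77 (nat_lit 13430) (nat_lit 7) (nat_lit 12))
    (@En.i (nat_lit 13048) (nat_lit 8) (nat_lit 13))
    (@En.n l117 (nat_lit 13434) (nat_lit 8) (nat_lit 3))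
    (@En.i (nat_lit 13729) (nat_lit 10) (nat_lit 12))
    (@En.n l3 (nat_lit 13682) (nat_lit 10) (nat_lit 2))
    (@En.i (nat_lit 13434) (nat_lit 12) (nat_lit 13))
    (@En.i (nat_lit 13107) (nat_lit 13) (nat_lit 14))
    (@En.i (nat_lit 522) (nat_lit 14) (nat_lit 6))
    (@En.n l17 (nat_lit 13682) (nat_lit 14) (nat_lit 2))
    (@En.n l18 (nat_lit 13682) (nat_lit 15) (nat_lit 2))))
  (@Cl.mk (nat_lit 0x200020006000e000c0002000d000c00040003000d0004000a0003000e000e) (nat_lit 0xc501600b01034) (nat_lit 16) Lb.e (@T16.mk En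
    (@En.n l5 (nat_lit 13683) (nat_lit 1) (nat_lit 14))
    (@En.i (nat_lit 518) (nat_lit 1) (nat_lit 14))
    (@En.i (nat_lit 13432) (nat_lit 2) (nat_lit 3))
    (@En.i (nat_lit 233) (nat_lit 3) (nat_lit 10))
    (@En.n l11 (nat_lit 13718) (nat_lit 4) (nat_lit 4))
    (@En.n l287 (nat_lit 13837) (nat_lit 6) (nat_lit 13))
    (@En.n l11 (nat_lit 13681) (nat_lit 6) (nat_lit 3))
    (@En.i (nat_lit 13684) (nat_lit 7) (nat_lit 4))
    (@En.n l55 (nat_lit 13682) (nat_lit 9) (nat_lit 12))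
    (@En.i (nat_lit 272) (nat_lit 10) (nat_lit 13))
    (@En.n l3 (nat_lit 13683) (nat_lit 10) (nat_lit 2))
    (@En.i (nat_lit 13679) (nat_lit 12) (nat_lit 12))
    (@En.i (nat_lit 13106) (nat_lit 13) (nat_lit 14))
    (@En.i (nat_lit 521) (nat_lit 14) (nat_lit 6))
    (@En.n l17 (nat_lit 13683) (nat_lit 14) (nat_lit 2))
    (@En.n l18 (nat_lit 13683) (nat_lit 15) (nat_lit 2))))
  (@Cl.mk (nat_lit 0x200020006000d000c000a0003000e00040002000d0006000a0003000e000e) (nat_lit 0xa460100b01034) (nat_lit 16) Lb.e (@T16.mk En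
    (@En.n l5 (nat_lit 13684) (nat_lit 1) (nat_lit 14))
    (@En.i (nat_lit 534) (nat_lit 1) (nat_lit 14))
    (@En.i (nat_lit 13689) (nat_lit 2) (nat_lit 3))
    (@En.i (nat_lit 234) (nat_lit 3) (nat_lit 10))
    (@En.i (nat_lit 13723) (nat_lit 4) (nat_lit 6))
    (@En.n l3886 (nat_lit 13795) (nat_lit 6) (nat_lit 13))
    (@En.n l11 (nat_lit 13684) (nat_lit 6) (nat_lit 2))
    (@En.n l117 (nat_lit 13679) (nat_lit 7) (nat_lit 4))
    (@En.n l2691 (nat_lit 273) (nat_lit 9) (nat_lit 14))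
    (@En.n l936 (nat_lit 13685) (nat_lit 9) (nat_lit 3))
    (@En.i (nat_lit 13724) (nat_lit 11) (nat_lit 10))
    (@En.n l936 (nat_lit 13680) (nat_lit 12) (nat_lit 12))
    (@En.i (nat_lit 13485) (nat_lit 13) (nat_lit 13))
    (@En.i (nat_lit 533) (nat_lit 14) (nat_lit 6))
    (@En.n l17 (nat_lit 13684) (nat_lit 14) (nat_lit 2))
    (@En.n l18 (nat_lit 13684) (nat_lit 15) (nat_lit 2))))
  (@Cl.mk (nat_lit 0x200020006000d0009000d0003000e00030002000d0007000a0003000e000e) (nat_lit 0xa460300a01034) (nat_lit 16) Lb.e (@T16.mk En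
    (@En.n l5 (nat_lit 13685) (nat_lit 1) (nat_lit 14))
    (@En.i (nat_lit 537) (nat_lit 1) (nat_lit 14))
    (@En.i (nat_lit 13687) (nat_lit 2) (nat_lit 3))
    (@En.i (nat_lit 236) (nat_lit 3) (nat_lit 10))
    (@En.n l1599 (nat_lit 660) (nat_lit 4) (nat_lit 7))
    (@En.i (nat_lit 13792) (nat_lit 6) (nat_lit 13))
    (@En.n l11 (nat_lit 13685) (nat_lit 6) (nat_lit 2))
    (@En.n l117 (nat_lit 13680) (nat_lit 7) (nat_lit 3))
    (@En.i (nat_lit 13944) (nat_lit 9) (nat_lit 14))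
    (@En.n l2576 (nat_lit 13684) (nat_lit 9) (nat_lit 3))
    (@En.i (nat_lit 13681) (nat_lit 11) (nat_lit 13))
    (@En.n l476 (nat_lit 13686) (nat_lit 12) (nat_lit 9))
    (@En.i (nat_lit 13486) (nat_lit 13) (nat_lit 13))
    (@En.n l2568 (nat_lit 536) (nat_lit 14) (nat_lit 6))
    (@En.n l17 (nat_lit 13685) (nat_lit 14) (nat_lit 2))
    (@En.n l18 (nat_lit 13685) (nat_lit 15) (nat_lit 2))))
  (@Cl.mk (nat_lit 0x2000200060009000d000a000e00030002000c00070006000a0004000e000e) (nat_lit 0x344700a002045) (nat_lit 16) Lb.e (@T16.mk En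
    (@En.n l5 (nat_lit 13686) (nat_lit 1) (nat_lit 14))
    (@En.i (nat_lit 571) (nat_lit 1) (nat_lit 14))
    (@En.n l253 (nat_lit 13690) (nat_lit 2) (nat_lit 4))
    (@En.i (nat_lit 13685) (nat_lit 3) (nat_lit 10))
    (@En.n l3549 (nat_lit 13684) (nat_lit 4) (nat_lit 6))
    (@En.n l11828 (nat_lit 13808) (nat_lit 5) (nat_lit 7))
    (@En.i (nat_lit 13790) (nat_lit 7) (nat_lit 12))
    (@En.n l11 (nat_lit 13686) (nat_lit 7) (nat_lit 2))
    (@En.n l26054 (nat_lit 13656) (nat_lit 8) (nat_lit 3))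
    (@En.n l513 (nat_lit 13943) (nat_lit 10) (nat_lit 14))
    (@En.n l23035 (nat_lit 13721) (nat_lit 11) (nat_lit 10))
    (@En.i (nat_lit 13057) (nat_lit 12) (nat_lit 13))
    (@En.i (nat_lit 13648) (nat_lit 13) (nat_lit 9))
    (@En.n l1735 (nat_lit 570) (nat_lit 14) (nat_lit 6))
    (@En.n l17 (nat_lit 13686) (nat_lit 14) (nat_lit 2))
    (@En.n l18 (nat_lit 13686) (nat_lit 15) (nat_lit 2))))
  (@Cl.mk (nat_lit 0x200020007000d0008000d0003000e00030002000d000900080003000e000e) (nat_lit 0xa650300952045) (nat_lit 16) Lb.e (@T16.mk En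
    (@En.n l5 (nat_lit 13687) (nat_lit 1) (nat_lit 14))
    (@En.n l420 (nat_lit 3909) (nat_lit 1) (nat_lit 14))
    (@En.n l7 (nat_lit 13685) (nat_lit 2) (nat_lit 3))
    (@En.i (nat_lit 13211) (nat_lit 3) (nat_lit 8))
    (@En.i (nat_lit 13510) (nat_lit 4) (nat_lit 9))
    (@En.i (nat_lit 13796) (nat_lit 6) (nat_lit 13))
    (@En.n l11 (nat_lit 13687) (nat_lit 6) (nat_lit 2))
    (@En.n l117 (nat_lit 13688) (nat_lit 7) (nat_lit 3))
    (@En.i (nat_lit 13947) (nat_lit 0) (nat_lit 14))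
    (@En.n l2576 (nat_lit 13689) (nat_lit 9) (nat_lit 3))
    (@En.i (nat_lit 13430) (nat_lit 11) (nat_lit 13))
    (@En.i (nat_lit 13690) (nat_lit 12) (nat_lit 8))
    (@En.i (nat_lit 13480) (nat_lit 13) (nat_lit 13))
    (@En.i (nat_lit 3332) (nat_lit 14) (nat_lit 7))
    (@En.n l17 (nat_lit 13687) (nat_lit 14) (nat_lit 2))
    (@En.n l18 (nat_lit 13687) (nat_lit 15) (nat_lit 2))))
  (@Cl.mk (nat_lit 0x200020007000c0008000d000d000400030003000d000900080003000e000e) (nat_lit 0x4666000942045) (nat_lit 16) Lb.e (@T16.mk En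
    (@En.n l5 (nat_lit 13688) (nat_lit 1) (nat_lit 14))
    (@En.n l420 (nat_lit 3907) (nat_lit 1) (nat_lit 14))
    (@En.n l7 (nat_lit 13680) (nat_lit 2) (nat_lit 3))
    (@En.i (nat_lit 13207) (nat_lit 3) (nat_lit 8))
    (@En.i (nat_lit 13511) (nat_lit 4) (nat_lit 9))
    (@En.n l4530 (nat_lit 13828) (nat_lit 6) (nat_lit 13))
    (@En.n l1483 (nat_lit 13673) (nat_lit 6) (nat_lit 3))
    (@En.n l152 (nat_lit 13687) (nat_lit 7) (nat_lit 3))
    (@En.n l4530 (nat_lit 13669) (nat_lit 8) (nat_lit 4))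
    (@En.n l619 (nat_lit 13687) (nat_lit 10) (nat_lit 13))
    (@En.i (nat_lit 13429) (nat_lit 11) (nat_lit 13))
    (@En.n l1769 (nat_lit 13691) (nat_lit 12) (nat_lit 8))
    (@En.n l4530 (nat_lit 13867) (nat_lit 13) (nat_lit 12))
    (@En.i (nat_lit 3326) (nat_lit 14) (nat_lit 7))
    (@En.n l17 (nat_lit 13688) (nat_lit 14) (nat_lit 2))
    (@En.n l18 (nat_lit 13688) (nat_lit 15) (nat_lit 2))))
  (@Cl.mk (nat_lit 0x200020007000d000c00090003000e00040002000d000900070003000e000e) (nat_lit 0xb540700b50045) (nat_lit 16) Lb.e (@T16.mk En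
    (@En.n l5 (nat_lit 13689) (nat_lit 1) (nat_lit 14))
    (@En.n l420 (nat_lit 3908) (nat_lit 1) (nat_lit 14))
    (@En.n l7 (nat_lit 13684) (nat_lit 2) (nat_lit 3))
    (@En.i (nat_lit 12845) (nat_lit 3) (nat_lit 7))
    (@En.i (nat_lit 13509) (nat_lit 4) (nat_lit 9))
    (@En.n l3886 (nat_lit 13799) (nat_lit 6) (nat_lit 13))
    (@En.n l11 (nat_lit 13689) (nat_lit 6) (nat_lit 2))
    (@En.n l117 (nat_lit 13433) (nat_lit 7) (nat_lit 4))
    (@En.n l2691 (nat_lit 13508) (nat_lit 9) (nat_lit 14))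
    (@En.n l936 (nat_lit 13687) (nat_lit 9) (nat_lit 3))
    (@En.i (nat_lit 13702) (nat_lit 11) (nat_lit 9))
    (@En.n l936 (nat_lit 13688) (nat_lit 12) (nat_lit 12))
    (@En.i (nat_lit 13479) (nat_lit 13) (nat_lit 13))
    (@En.i (nat_lit 3330) (nat_lit 14) (nat_lit 7))
    (@En.n l17 (nat_lit 13689) (nat_lit 14) (nat_lit 2))
    (@En.n l18 (nat_lit 13689) (nat_lit 15) (nat_lit 2))))
  (@Cl.mk (nat_lit 0x2000200080008000d0009000e00030002000c0008000800070004000e000e) (nat_lit 0x354560095100bc) (nat_lit 16) Lb.e (@T16.mk En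
    (@En.n l5 (nat_lit 13690) (nat_lit 1) (nat_lit 14))
    (@En.n l420 (nat_lit 3914) (nat_lit 1) (nat_lit 14))
    (@En.n l476 (nat_lit 13700) (nat_lit 2) (nat_lit 4))
    (@En.n l1769 (nat_lit 13689) (nat_lit 3) (nat_lit 7))
    (@En.i (nat_lit 12858) (nat_lit 4) (nat_lit 8))
    (@En.n l476 (nat_lit 13512) (nat_lit 5) (nat_lit 8))
    (@En.i (nat_lit 13782) (nat_lit 7) (nat_lit 12))
    (@En.n l11 (nat_lit 13690) (nat_lit 7) (nat_lit 2))
    (@En.n l1992 (nat_lit 13691) (nat_lit 8) (nat_lit 3))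
    (@En.n l619 (nat_lit 13950) (nat_lit 10) (nat_lit 14))
    (@En.n l2576 (nat_lit 13703) (nat_lit 11) (nat_lit 9))
    (@En.n l476 (nat_lit 13307) (nat_lit 12) (nat_lit 13))
    (@En.n l3526 (nat_lit 13694) (nat_lit 13) (nat_lit 8))
    (@En.i (nat_lit 3316) (nat_lit 14) (nat_lit 8))
    (@En.n l17 (nat_lit 13690) (nat_lit 14) (nat_lit 2))
    (@En.n l18 (nat_lit 13690) (nat_lit 15) (nat_lit 2))))
  (@Cl.mk (nat_lit 0x2000200080008000d000d000a00030003000c0008000800060004000e000e) (nat_lit 0x254560094100bc) (nat_lit 16) Lb.e (@T16.mk En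
    (@En.n l5 (nat_lit 13691) (nat_lit 1) (nat_lit 14))
    (@En.n l1592 (nat_lit 3912) (nat_lit 1) (nat_lit 14))
    (@En.n l11973 (nat_lit 13698) (nat_lit 2) (nat_lit 4))
    (@En.i (nat_lit 13433) (nat_lit 3) (nat_lit 6))
    (@En.n l11974 (nat_lit 12857) (nat_lit 4) (nat_lit 8))
    (@En.n l1592 (nat_lit 13513) (nat_lit 5) (nat_lit 8))
    (@En.n l10008 (nat_lit 13781) (nat_lit 7) (nat_lit 12))
    (@En.n l11975 (nat_lit 13692) (nat_lit 7) (nat_lit 3))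
    (@En.n l5870 (nat_lit 13690) (nat_lit 8) (nat_lit 3))
    (@En.i (nat_lit 12912) (nat_lit 10) (nat_lit 10))
    (@En.n l2691 (nat_lit 13690) (nat_lit 11) (nat_lit 13))
    (@En.n l1596 (nat_lit 13309) (nat_lit 12) (nat_lit 13))
    (@En.n l11976 (nat_lit 13693) (nat_lit 13) (nat_lit 8))
    (@En.i (nat_lit 3319) (nat_lit 14) (nat_lit 8))
    (@En.n l17 (nat_lit 13691) (nat_lit 14) (nat_lit 2))
    (@En.n l18 (nat_lit 13691) (nat_lit 15) (nat_lit 2))))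
  (@Cl.mk (nat_lit 0x2000200080008000e000d0002000b0003000c0008000800050004000e000e) (nat_lit 0x224508091100bc) (nat_lit 16) Lb.e (@T16.mk En
    (@En.n l97 (nat_lit 13692) (nat_lit 1) (nat_lit 14))
    (@En.i (nat_lit 3986) (nat_lit 1) (nat_lit 14))
    (@En.n l1390 (nat_lit 13701) (nat_lit 2) (nat_lit 4))
    (@En.n l4492 (nat_lit 13671) (nat_lit 3) (nat_lit 5))
    (@En.n l55 (nat_lit 12861) (nat_lit 4) (nat_lit 8))
    (@En.i (nat_lit 13516) (nat_lit 5) (nat_lit 8))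
    (@En.n l1883 (nat_lit 13237) (nat_lit 7) (nat_lit 12))
    (@En.n l4492 (nat_lit 13691) (nat_lit 7) (nat_lit 3))
    (@En.i (nat_lit 12935) (nat_lit 9) (nat_lit 11))
    (@En.n l50 (nat_lit 13692) (nat_lit 9) (nat_lit 2))
    (@En.n l4493 (nat_lit 13691) (nat_lit 11) (nat_lit 13))
    (@En.n l4316 (nat_lit 13654) (nat_lit 12) (nat_lit 14))
    (@En.n l4494 (nat_lit 13695) (nat_lit 13) (nat_lit 8))
    (@En.n l4492 (nat_lit 3321) (nat_lit 14) (nat_lit 8))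
    (@En.n l107 (nat_lit 13692) (nat_lit 14) (nat_lit 2))
    (@En.n l3 (nat_lit 13692) (nat_lit 15) (nat_lit 2))))
  (@Cl.mk (nat_lit 0x200020008000d000d000900030003000b000e0008000200070005000e000e) (nat_lit 0x43550099500034) (nat_lit 16) Lb.e (@T16.mk En
    (@En.n l1578 (nat_lit 13693) (nat_lit 1) (nat_lit 14))
    (@En.n l617 (nat_lit 3103) (nat_lit 13) (nat_lit 14))
    (@En.n l17 (nat_lit 13696) (nat_lit 2) (nat_lit 5))
    (@En.n l25682 (nat_lit 13877) (nat_lit 3) (nat_lit 7))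
    (@En.n l3 (nat_lit 13693) (nat_lit 4) (nat_lit 2))
    (@En.n l25682 (nat_lit 13691) (nat_lit 5) (nat_lit 8))
    (@En.n l15213 (nat_lit 13765) (nat_lit 7) (nat_lit 14))
    (@En.i (nat_lit 13774) (nat_lit 8) (nat_lit 11))
    (@En.n l2593 (nat_lit 13695) (nat_lit 8) (nat_lit 3))
    (@En.n l8769 (nat_lit 13694) (nat_lit 9) (nat_lit 3))
    (@En.n l617 (nat_lit 12908) (nat_lit 11) (nat_lit 9))
    (@En.n l25683 (nat_lit 13694) (nat_lit 12) (nat_lit 13))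
    (@En.n l3332 (nat_lit 13363) (nat_lit 13) (nat_lit 13))
    (@En.n l13103 (nat_lit 1847) (nat_lit 14) (nat_lit 8))
    (@En.n l28 (nat_lit 13693) (nat_lit 14) (nat_lit 2))
    (@En.n l11 (nat_lit 13693) (nat_lit 15) (nat_lit 2))))
  (@Cl.mk (nat_lit 0x200020008000d0008000e00030002000b000e0008000200080005000e000e) (nat_lit 0x444a0099604034) (nat_lit 16) Lb.e (@T16.mk En
    (@En.n l396 (nat_lit 13694) (nat_lit 1) (nat_lit 14))
    (@En.i (nat_lit 3977) (nat_lit 1) (nat_lit 14))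
    (@En.n l890 (nat_lit 13699) (nat_lit 2) (nat_lit 5))
    (@En.n l13258 (nat_lit 13483) (nat_lit 3) (nat_lit 8))
    (@En.n l11 (nat_lit 13694) (nat_lit 4) (nat_lit 2))
    (@En.n l13259 (nat_lit 13690) (nat_lit 5) (nat_lit 8))
    (@En.n l387 (nat_lit 13767) (nat_lit 7) (nat_lit 14))
    (@En.n l6103 (nat_lit 13777) (nat_lit 8) (nat_lit 11))
    (@En.n l3 (nat_lit 13694) (nat_lit 8) (nat_lit 2))
    (@En.n l13260 (nat_lit 13693) (nat_lit 9) (nat_lit 3))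
    (@En.n l4583 (nat_lit 14104) (nat_lit 11) (nat_lit 14))
    (@En.n l1253 (nat_lit 13704) (nat_lit 12) (nat_lit 8))
    (@En.n l2568 (nat_lit 13360) (nat_lit 13) (nat_lit 13))
    (@En.n l7490 (nat_lit 1849) (nat_lit 14) (nat_lit 8))
    (@En.n l18 (nat_lit 13694) (nat_lit 14) (nat_lit 2))
    (@En.n l50 (nat_lit 13694) (nat_lit 15) (nat_lit 2))))
  (@Cl.mk (nat_lit 0x200020008000e000d0002000a0003000b000e0008000200060005000e000e) (nat_lit 0x13406088200034) (nat_lit 16) Lb.e (@T16.mk En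
    (@En.n l1578 (nat_lit 13695) (nat_lit 1) (nat_lit 14))
    (@En.i (nat_lit 3980) (nat_lit 13) (nat_lit 14))
    (@En.n l725 (nat_lit 13697) (nat_lit 2) (nat_lit 5))
    (@En.i (nat_lit 13875) (nat_lit 3) (nat_lit 6))
    (@En.n l3 (nat_lit 13695) (nat_lit 4) (nat_lit 2))
    (@En.n l7432 (nat_lit 13692) (nat_lit 5) (nat_lit 8))
    (@En.n l7645 (nat_lit 13766) (nat_lit 7) (nat_lit 14))
    (@En.i (nat_lit 13252) (nat_lit 8) (nat_lit 11))
    (@En.n l1353 (nat_lit 13693) (nat_lit 8) (nat_lit 3))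
    (@En.n l5366 (nat_lit 12933) (nat_lit 10) (nat_lit 10))
    (@En.n l50 (nat_lit 13695) (nat_lit 10) (nat_lit 2))
    (@En.n l564 (nat_lit 13693) (nat_lit 12) (nat_lit 13))
    (@En.n l2544 (nat_lit 14097) (nat_lit 13) (nat_lit 14))
    (@En.i (nat_lit 1845) (nat_lit 14) (nat_lit 8))
    (@En.n l28 (nat_lit 13695) (nat_lit 14) (nat_lit 2))
    (@En.n l11 (nat_lit 13695) (nat_lit 15) (nat_lit 2))))
noncomputable def a856 : T16 Cl := @T16.mk Cl
  (@Cl.mk (nat_lit 0x200020007000d000d000c00030003000b0004000e000900020005000e000e) (nat_lit 0x3550080a60034) (nat_lit 16) Lb.e (@T16.mk En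
    (@En.n l1578 (nat_lit 13696) (nat_lit 1) (nat_lit 14))
    (@En.n l617 (nat_lit 4721) (nat_lit 1) (nat_lit 14))
    (@En.n l781 (nat_lit 13650) (nat_lit 2) (nat_lit 5))
    (@En.n l3 (nat_lit 13696) (nat_lit 3) (nat_lit 2))
    (@En.n l18529 (nat_lit 13698) (nat_lit 4) (nat_lit 9))
    (@En.i (nat_lit 13693) (nat_lit 6) (nat_lit 14))
    (@En.n l775 (nat_lit 13012) (nat_lit 6) (nat_lit 4))
    (@En.i (nat_lit 13775) (nat_lit 8) (nat_lit 11))
    (@En.n l2593 (nat_lit 13697) (nat_lit 8) (nat_lit 3))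
    (@En.n l2039 (nat_lit 13699) (nat_lit 9) (nat_lit 3))
    (@En.n l2594 (nat_lit 13899) (nat_lit 11) (nat_lit 12))
    (@En.n l18530 (nat_lit 13699) (nat_lit 12) (nat_lit 13))
    (@En.n l2544 (nat_lit 13362) (nat_lit 13) (nat_lit 13))
    (@En.i (nat_lit 1853) (nat_lit 14) (nat_lit 7))
    (@En.n l28 (nat_lit 13696) (nat_lit 14) (nat_lit 2))
    (@En.n l11 (nat_lit 13696) (nat_lit 15) (nat_lit 2))))
  (@Cl.mk (nat_lit 0x200020007000e000d0002000d0003000b0003000e000900020005000e000e) (nat_lit 0xa402080930023) (nat_lit 16) Lb.e (@T16.mk En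
    (@En.n l1578 (nat_lit 13697) (nat_lit 1) (nat_lit 14))
    (@En.i (nat_lit 4722) (nat_lit 1) (nat_lit 14))
    (@En.n l1643 (nat_lit 13652) (nat_lit 2) (nat_lit 5))
    (@En.n l3 (nat_lit 13697) (nat_lit 3) (nat_lit 2))
    (@En.n l11727 (nat_lit 13701) (nat_lit 4) (nat_lit 9))
    (@En.i (nat_lit 13695) (nat_lit 6) (nat_lit 14))
    (@En.n l1996 (nat_lit 13899) (nat_lit 6) (nat_lit 3))
    (@En.i (nat_lit 13253) (nat_lit 8) (nat_lit 11))
    (@En.n l1353 (nat_lit 13696) (nat_lit 8) (nat_lit 3))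
    (@En.n l1997 (nat_lit 944) (nat_lit 10) (nat_lit 13))
    (@En.n l50 (nat_lit 13697) (nat_lit 10) (nat_lit 2))
    (@En.n l564 (nat_lit 13696) (nat_lit 12) (nat_lit 13))
    (@En.n l1997 (nat_lit 14096) (nat_lit 13) (nat_lit 14))
    (@En.i (nat_lit 1854) (nat_lit 14) (nat_lit 7))
    (@En.n l28 (nat_lit 13697) (nat_lit 14) (nat_lit 2))
    (@En.n l11 (nat_lit 13697) (nat_lit 15) (nat_lit 2))))
  (@Cl.mk (nat_lit 0x2000200070007000d000d000c00030003000c0004000900090004000e000e) (nat_lit 0x566008051023) (nat_lit 16) Lb.e (@T16.mk En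
    (@En.n l396 (nat_lit 13698) (nat_lit 1) (nat_lit 14))
    (@En.n l11705 (nat_lit 4738) (nat_lit 1) (nat_lit 14))
    (@En.n l6958 (nat_lit 13656) (nat_lit 2) (nat_lit 4))
    (@En.n l2781 (nat_lit 12855) (nat_lit 3) (nat_lit 9))
    (@En.n l11706 (nat_lit 13688) (nat_lit 4) (nat_lit 9))
    (@En.n l6958 (nat_lit 13007) (nat_lit 5) (nat_lit 4))
    (@En.n l11707 (nat_lit 13784) (nat_lit 7) (nat_lit 12))
    (@En.n l152 (nat_lit 13701) (nat_lit 7) (nat_lit 3))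
    (@En.n l11708 (nat_lit 13700) (nat_lit 8) (nat_lit 3))
    (@En.n l9533 (nat_lit 13898) (nat_lit 10) (nat_lit 12))
    (@En.n l11709 (nat_lit 13700) (nat_lit 11) (nat_lit 13))
    (@En.n l11706 (nat_lit 13878) (nat_lit 12) (nat_lit 13))
    (@En.n l11710 (nat_lit 13696) (nat_lit 13) (nat_lit 7))
    (@En.i (nat_lit 2216) (nat_lit 14) (nat_lit 7))
    (@En.n l18 (nat_lit 13698) (nat_lit 14) (nat_lit 2))
    (@En.n l50 (nat_lit 13698) (nat_lit 15) (nat_lit 2))))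
  (@Cl.mk (nat_lit 0x200020007000d000b000e00030002000b0005000e000900020005000e000e) (nat_lit 0x4340080a70034) (nat_lit 16) Lb.e (@T16.mk En
    (@En.n l601 (nat_lit 13699) (nat_lit 1) (nat_lit 14))
    (@En.i (nat_lit 4726) (nat_lit 1) (nat_lit 14))
    (@En.n l7607 (nat_lit 13603) (nat_lit 2) (nat_lit 5))
    (@En.n l11 (nat_lit 13699) (nat_lit 3) (nat_lit 2))
    (@En.n l7608 (nat_lit 13700) (nat_lit 4) (nat_lit 9))
    (@En.n l1722 (nat_lit 13694) (nat_lit 6) (nat_lit 14))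
    (@En.n l17 (nat_lit 13014) (nat_lit 6) (nat_lit 5))
    (@En.n l3328 (nat_lit 13776) (nat_lit 8) (nat_lit 11))
    (@En.n l3 (nat_lit 13699) (nat_lit 8) (nat_lit 2))
    (@En.n l7609 (nat_lit 13696) (nat_lit 9) (nat_lit 3))
    (@En.n l1720 (nat_lit 14103) (nat_lit 11) (nat_lit 14))
    (@En.n l1253 (nat_lit 13015) (nat_lit 12) (nat_lit 11))
    (@En.n l7610 (nat_lit 13358) (nat_lit 13) (nat_lit 13))
    (@En.n l7611 (nat_lit 1857) (nat_lit 14) (nat_lit 7))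
    (@En.n l50 (nat_lit 13699) (nat_lit 14) (nat_lit 2))
    (@En.n l7 (nat_lit 13699) (nat_lit 15) (nat_lit 2))))
  (@Cl.mk (nat_lit 0x2000200070007000d000b000e00030002000c0005000900090004000e000e) (nat_lit 0x546008061023) (nat_lit 16) Lb.e (@T16.mk En
    (@En.n l5 (nat_lit 13700) (nat_lit 1) (nat_lit 14))
    (@En.n l420 (nat_lit 4737) (nat_lit 1) (nat_lit 14))
    (@En.n l7 (nat_lit 13686) (nat_lit 2) (nat_lit 4))
    (@En.n l1502 (nat_lit 12856) (nat_lit 3) (nat_lit 9))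
    (@En.i (nat_lit 13687) (nat_lit 4) (nat_lit 9))
    (@En.n l4869 (nat_lit 13745) (nat_lit 5) (nat_lit 5))
    (@En.n l11237 (nat_lit 13786) (nat_lit 7) (nat_lit 12))
    (@En.n l11 (nat_lit 13700) (nat_lit 7) (nat_lit 2))
    (@En.n l11238 (nat_lit 13698) (nat_lit 8) (nat_lit 3))
    (@En.n l158 (nat_lit 13952) (nat_lit 10) (nat_lit 14))
    (@En.n l11239 (nat_lit 13744) (nat_lit 11) (nat_lit 11))
    (@En.i (nat_lit 14032) (nat_lit 12) (nat_lit 13))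
    (@En.n l3258 (nat_lit 13699) (nat_lit 13) (nat_lit 7))
    (@En.i (nat_lit 2220) (nat_lit 14) (nat_lit 7))
    (@En.n l17 (nat_lit 13700) (nat_lit 14) (nat_lit 2))
    (@En.n l18 (nat_lit 13700) (nat_lit 15) (nat_lit 2))))
  (@Cl.mk (nat_lit 0x2000200070007000e000d0002000d0003000c0003000900090004000e000e) (nat_lit 0xa60108021023) (nat_lit 16) Lb.e (@T16.mk En
    (@En.n l396 (nat_lit 13701) (nat_lit 1) (nat_lit 14))
    (@En.n l4357 (nat_lit 4740) (nat_lit 1) (nat_lit 14))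
    (@En.n l404 (nat_lit 13657) (nat_lit 2) (nat_lit 4))
    (@En.n l2781 (nat_lit 12859) (nat_lit 3) (nat_lit 9))
    (@En.n l4358 (nat_lit 13673) (nat_lit 4) (nat_lit 9))
    (@En.n l404 (nat_lit 13898) (nat_lit 5) (nat_lit 3))
    (@En.n l4357 (nat_lit 13254) (nat_lit 7) (nat_lit 12))
    (@En.n l117 (nat_lit 13698) (nat_lit 7) (nat_lit 3))
    (@En.n l1854 (nat_lit 938) (nat_lit 9) (nat_lit 13))
    (@En.n l3 (nat_lit 13701) (nat_lit 9) (nat_lit 2))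
    (@En.i (nat_lit 13698) (nat_lit 11) (nat_lit 13))
    (@En.n l4356 (nat_lit 13875) (nat_lit 12) (nat_lit 14))
    (@En.n l4359 (nat_lit 13697) (nat_lit 13) (nat_lit 7))
    (@En.n l1353 (nat_lit 2215) (nat_lit 14) (nat_lit 7))
    (@En.n l18 (nat_lit 13701) (nat_lit 14) (nat_lit 2))
    (@En.n l50 (nat_lit 13701) (nat_lit 15) (nat_lit 2))))
  (@Cl.mk (nat_lit 0x200020008000e00090002000e000b0002000c0008000700050004000e000e) (nat_lit 0x21307709600045) (nat_lit 16) Lb.e (@T16.mk En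
    (@En.n l5 (nat_lit 13702) (nat_lit 1) (nat_lit 14))
    (@En.n l420 (nat_lit 3722) (nat_lit 1) (nat_lit 14))
    (@En.n l7 (nat_lit 12863) (nat_lit 2) (nat_lit 4))
    (@En.i (nat_lit 13432) (nat_lit 3) (nat_lit 5))
    (@En.n l5544 (nat_lit 13448) (nat_lit 4) (nat_lit 7))
    (@En.i (nat_lit 13496) (nat_lit 5) (nat_lit 8))
    (@En.n l287 (nat_lit 13389) (nat_lit 7) (nat_lit 12))
    (@En.n l11 (nat_lit 13702) (nat_lit 7) (nat_lit 2))
    (@En.i (nat_lit 13462) (nat_lit 9) (nat_lit 11))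
    (@En.i (nat_lit 13543) (nat_lit 10) (nat_lit 14))
    (@En.n l3 (nat_lit 13702) (nat_lit 10) (nat_lit 2))
    (@En.i (nat_lit 13703) (nat_lit 12) (nat_lit 9))
    (@En.i (nat_lit 947) (nat_lit 13) (nat_lit 14))
    (@En.i (nat_lit 1972) (nat_lit 14) (nat_lit 8))
    (@En.n l17 (nat_lit 13702) (nat_lit 14) (nat_lit 2))
    (@En.n l18 (nat_lit 13702) (nat_lit 15) (nat_lit 2))))
  (@Cl.mk (nat_lit 0x20002000900090009000e000a0002000b00070007000700060005000e000e) (nat_lit 0x22456080000056) (nat_lit 16) Lb.e (@T16.mk En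
    (@En.n l5 (nat_lit 13703) (nat_lit 1) (nat_lit 14))
    (@En.n l6487 (nat_lit 3723) (nat_lit 1) (nat_lit 14))
    (@En.n l12914 (nat_lit 12785) (nat_lit 2) (nat_lit 5))
    (@En.i (nat_lit 13691) (nat_lit 3) (nat_lit 6))
    (@En.n l152 (nat_lit 13702) (nat_lit 4) (nat_lit 7))
    (@En.n l12915 (nat_lit 12849) (nat_lit 5) (nat_lit 7))
    (@En.n l12916 (nat_lit 13591) (nat_lit 6) (nat_lit 7))
    (@En.n l12917 (nat_lit 13385) (nat_lit 8) (nat_lit 11))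
    (@En.n l11 (nat_lit 13703) (nat_lit 8) (nat_lit 2))
    (@En.n l3279 (nat_lit 12911) (nat_lit 10) (nat_lit 10))
    (@En.n l1572 (nat_lit 13706) (nat_lit 11) (nat_lit 14))
    (@En.n l12918 (nat_lit 13705) (nat_lit 12) (nat_lit 9))
    (@En.n l12919 (nat_lit 13704) (nat_lit 13) (nat_lit 9))
    (@En.i (nat_lit 1975) (nat_lit 14) (nat_lit 9))
    (@En.n l17 (nat_lit 13703) (nat_lit 14) (nat_lit 2))
    (@En.n l18 (nat_lit 13703) (nat_lit 15) (nat_lit 2))))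
  (@Cl.mk (nat_lit 0x2000200090008000e00090002000a000e00070002000800070006000e000e) (nat_lit 0x13450680010045) (nat_lit 16) Lb.e (@T16.mk En
    (@En.n l5 (nat_lit 13704) (nat_lit 1) (nat_lit 14))
    (@En.n l4021 (nat_lit 3101) (nat_lit 8) (nat_lit 14))
    (@En.i (nat_lit 12791) (nat_lit 2) (nat_lit 6))
    (@En.n l13768 (nat_lit 13693) (nat_lit 3) (nat_lit 7))
    (@En.n l12121 (nat_lit 945) (nat_lit 4) (nat_lit 8))
    (@En.n l28 (nat_lit 13704) (nat_lit 5) (nat_lit 2))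
    (@En.n l13769 (nat_lit 13703) (nat_lit 6) (nat_lit 7))
    (@En.n l5577 (nat_lit 13712) (nat_lit 8) (nat_lit 14))
    (@En.n l13768 (nat_lit 13383) (nat_lit 9) (nat_lit 10))
    (@En.n l3 (nat_lit 13704) (nat_lit 9) (nat_lit 2))
    (@En.i (nat_lit 12909) (nat_lit 11) (nat_lit 9))
    (@En.n l2511 (nat_lit 13707) (nat_lit 12) (nat_lit 14))
    (@En.i (nat_lit 12958) (nat_lit 13) (nat_lit 8))
    (@En.n l8118 (nat_lit 1517) (nat_lit 14) (nat_lit 9))
    (@En.n l17 (nat_lit 13704) (nat_lit 14) (nat_lit 2))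
    (@En.n l18 (nat_lit 13704) (nat_lit 15) (nat_lit 2))))
  (@Cl.mk (nat_lit 0x20002000a0009000e00090002000a0006000e0007000200070006000e000e) (nat_lit 0x23440708000078) (nat_lit 16) Lb.e (@T16.mk En
    (@En.n l5 (nat_lit 13705) (nat_lit 1) (nat_lit 14))
    (@En.n l23284 (nat_lit 2074) (nat_lit 8) (nat_lit 14))
    (@En.i (nat_lit 12783) (nat_lit 2) (nat_lit 6))
    (@En.n l23285 (nat_lit 14015) (nat_lit 3) (nat_lit 7))
    (@En.n l7 (nat_lit 13705) (nat_lit 4) (nat_lit 2))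
    (@En.n l23252 (nat_lit 13703) (nat_lit 5) (nat_lit 7))
    (@En.n l95 (nat_lit 12973) (nat_lit 7) (nat_lit 14))
    (@En.n l13237 (nat_lit 13592) (nat_lit 7) (nat_lit 6))
    (@En.n l9597 (nat_lit 13388) (nat_lit 9) (nat_lit 10))
    (@En.n l3 (nat_lit 13705) (nat_lit 9) (nat_lit 2))
    (@En.n l23286 (nat_lit 12970) (nat_lit 11) (nat_lit 9))
    (@En.n l9387 (nat_lit 13959) (nat_lit 12) (nat_lit 14))
    (@En.i (nat_lit 12955) (nat_lit 13) (nat_lit 9))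
    (@En.n l11757 (nat_lit 1978) (nat_lit 9) (nat_lit 10))
    (@En.n l17 (nat_lit 13705) (nat_lit 14) (nat_lit 2))
    (@En.n l18 (nat_lit 13705) (nat_lit 15) (nat_lit 2))))
  (@Cl.mk (nat_lit 0x2000200090009000e00090002000c000b00070007000400070005000e000e) (nat_lit 0x144502700000ab) (nat_lit 16) Lb.e (@T16.mk En
    (@En.n l5 (nat_lit 13706) (nat_lit 1) (nat_lit 14))
    (@En.n l4516 (nat_lit 2449) (nat_lit 1) (nat_lit 14))
    (@En.n l4894 (nat_lit 13901) (nat_lit 2) (nat_lit 5))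
    (@En.n l117 (nat_lit 13690) (nat_lit 3) (nat_lit 7))
    (@En.n l575 (nat_lit 13544) (nat_lit 4) (nat_lit 4))
    (@En.n l4895 (nat_lit 14053) (nat_lit 5) (nat_lit 7))
    (@En.n l4896 (nat_lit 13350) (nat_lit 6) (nat_lit 7))
    (@En.n l4897 (nat_lit 13768) (nat_lit 8) (nat_lit 11))
    (@En.n l4898 (nat_lit 12999) (nat_lit 9) (nat_lit 12))
    (@En.n l3 (nat_lit 13706) (nat_lit 9) (nat_lit 2))
    (@En.n l4899 (nat_lit 12999) (nat_lit 11) (nat_lit 9))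
    (@En.i (nat_lit 13960) (nat_lit 12) (nat_lit 14))
    (@En.n l4900 (nat_lit 13707) (nat_lit 13) (nat_lit 9))
    (@En.i (nat_lit 1674) (nat_lit 14) (nat_lit 9))
    (@En.n l17 (nat_lit 13706) (nat_lit 14) (nat_lit 2))
    (@En.n l18 (nat_lit 13706) (nat_lit 15) (nat_lit 2))))
  (@Cl.mk (nat_lit 0x200020009000e00080002000b000a000e00070002000500080006000e000e) (nat_lit 0x333027700050bc) (nat_lit 16) Lb.e (@T16.mk En
    (@En.n l1578 (nat_lit 13707) (nat_lit 1) (nat_lit 14))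
    (@En.i (nat_lit 2451) (nat_lit 12) (nat_lit 14))
    (@En.n l848 (nat_lit 13900) (nat_lit 2) (nat_lit 6))
    (@En.n l5149 (nat_lit 13694) (nat_lit 3) (nat_lit 8))
    (@En.n l1369 (nat_lit 12914) (nat_lit 4) (nat_lit 5))
    (@En.n l3 (nat_lit 13707) (nat_lit 5) (nat_lit 2))
    (@En.n l2894 (nat_lit 13706) (nat_lit 6) (nat_lit 7))
    (@En.n l5150 (nat_lit 13708) (nat_lit 8) (nat_lit 14))
    (@En.n l5151 (nat_lit 13711) (nat_lit 9) (nat_lit 10))
    (@En.n l3267 (nat_lit 12997) (nat_lit 10) (nat_lit 11))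
    (@En.n l50 (nat_lit 13707) (nat_lit 10) (nat_lit 2))
    (@En.n l1267 (nat_lit 12997) (nat_lit 12) (nat_lit 8))
    (@En.n l2544 (nat_lit 12854) (nat_lit 13) (nat_lit 14))
    (@En.i (nat_lit 1515) (nat_lit 14) (nat_lit 9))
    (@En.n l28 (nat_lit 13707) (nat_lit 14) (nat_lit 2))
    (@En.n l11 (nat_lit 13707) (nat_lit 15) (nat_lit 2))))
  (@Cl.mk (nat_lit 0x20002000a000e00080002000b000e00060002000d000500080003000e000e) (nat_lit 0x14306600305056) (nat_lit 16) Lb.e (@T16.mk En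
    (@En.n l5 (nat_lit 13708) (nat_lit 1) (nat_lit 14))
    (@En.n l428 (nat_lit 5190) (nat_lit 1) (nat_lit 14))
    (@En.n l7 (nat_lit 13711) (nat_lit 2) (nat_lit 3))
    (@En.n l1492 (nat_lit 13767) (nat_lit 3) (nat_lit 8))
    (@En.n l5116 (nat_lit 13707) (nat_lit 4) (nat_lit 5))
    (@En.n l3248 (nat_lit 13617) (nat_lit 6) (nat_lit 13))
    (@En.n l11 (nat_lit 13708) (nat_lit 6) (nat_lit 2))
    (@En.n l5117 (nat_lit 13710) (nat_lit 7) (nat_lit 6))
    (@En.n l5118 (nat_lit 13374) (nat_lit 9) (nat_lit 14))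
    (@En.i (nat_lit 13709) (nat_lit 10) (nat_lit 11))
    (@En.n l3 (nat_lit 13708) (nat_lit 10) (nat_lit 2))
    (@En.n l1492 (nat_lit 13709) (nat_lit 12) (nat_lit 8))
    (@En.n l428 (nat_lit 12856) (nat_lit 13) (nat_lit 14))
    (@En.n l1162 (nat_lit 1392) (nat_lit 2) (nat_lit 10))
    (@En.n l17 (nat_lit 13708) (nat_lit 14) (nat_lit 2))
    (@En.n l18 (nat_lit 13708) (nat_lit 15) (nat_lit 2))))
  (@Cl.mk (nat_lit 0x20002000b00080008000b000e00050002000c0005000800080004000e000e) (nat_lit 0x124560030460bc) (nat_lit 16) Lb.e (@T16.mk En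
    (@En.n l5 (nat_lit 13709) (nat_lit 1) (nat_lit 14))
    (@En.n l3258 (nat_lit 2136) (nat_lit 1) (nat_lit 14))
    (@En.n l2738 (nat_lit 14041) (nat_lit 2) (nat_lit 4))
    (@En.n l13236 (nat_lit 13708) (nat_lit 3) (nat_lit 8))
    (@En.i (nat_lit 13712) (nat_lit 4) (nat_lit 8))
    (@En.n l4505 (nat_lit 12997) (nat_lit 5) (nat_lit 5))
    (@En.n l13237 (nat_lit 13615) (nat_lit 7) (nat_lit 12))
    (@En.n l11 (nat_lit 13709) (nat_lit 7) (nat_lit 2))
    (@En.n l13237 (nat_lit 13714) (nat_lit 8) (nat_lit 5))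
    (@En.n l158 (nat_lit 13450) (nat_lit 10) (nat_lit 14))
    (@En.n l13238 (nat_lit 14094) (nat_lit 11) (nat_lit 11))
    (@En.n l13239 (nat_lit 14094) (nat_lit 12) (nat_lit 8))
    (@En.i (nat_lit 13325) (nat_lit 13) (nat_lit 8))
    (@En.n l1529 (nat_lit 1405) (nat_lit 14) (nat_lit 11))
    (@En.n l17 (nat_lit 13709) (nat_lit 14) (nat_lit 2))
    (@En.n l18 (nat_lit 13709) (nat_lit 15) (nat_lit 2))))
  (@Cl.mk (nat_lit 0x20002000a000a000e00090002000c00060006000d000400070003000e000e) (nat_lit 0x125507003000ab) (nat_lit 16) Lb.e (@T16.mk En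
    (@En.n l5 (nat_lit 13710) (nat_lit 1) (nat_lit 14))
    (@En.n l564 (nat_lit 2455) (nat_lit 1) (nat_lit 14))
    (@En.n l12744 (nat_lit 13768) (nat_lit 2) (nat_lit 3))
    (@En.i (nat_lit 13761) (nat_lit 3) (nat_lit 7))
    (@En.n l2678 (nat_lit 13706) (nat_lit 4) (nat_lit 4))
    (@En.n l11854 (nat_lit 13587) (nat_lit 6) (nat_lit 13))
    (@En.n l12745 (nat_lit 14054) (nat_lit 6) (nat_lit 6))
    (@En.i (nat_lit 13845) (nat_lit 7) (nat_lit 6))
    (@En.n l12746 (nat_lit 13714) (nat_lit 9) (nat_lit 12))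
    (@En.n l3 (nat_lit 13710) (nat_lit 9) (nat_lit 2))
    (@En.n l12650 (nat_lit 13714) (nat_lit 11) (nat_lit 9))
    (@En.i (nat_lit 13645) (nat_lit 12) (nat_lit 14))
    (@En.n l1172 (nat_lit 13708) (nat_lit 13) (nat_lit 10))
    (@En.i (nat_lit 1579) (nat_lit 14) (nat_lit 10))
    (@En.n l17 (nat_lit 13710) (nat_lit 14) (nat_lit 2))
    (@En.n l18 (nat_lit 13710) (nat_lit 15) (nat_lit 2))))
  (@Cl.mk (nat_lit 0x20002000a000e00090002000a000e00060002000d000700060003000e000e) (nat_lit 0x34406600300056) (nat_lit 16) Lb.e (@T16.mk En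
    (@En.n l5 (nat_lit 13711) (nat_lit 1) (nat_lit 14))
    (@En.n l12070 (nat_lit 4853) (nat_lit 1) (nat_lit 14))
    (@En.i (nat_lit 13708) (nat_lit 2) (nat_lit 3))
    (@En.n l12071 (nat_lit 13766) (nat_lit 3) (nat_lit 6))
    (@En.n l12070 (nat_lit 13777) (nat_lit 4) (nat_lit 7))
    (@En.n l12071 (nat_lit 13646) (nat_lit 6) (nat_lit 13))
    (@En.n l11 (nat_lit 13711) (nat_lit 6) (nat_lit 2))
    (@En.n l12071 (nat_lit 13768) (nat_lit 7) (nat_lit 6))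
    (@En.n l12072 (nat_lit 13372) (nat_lit 9) (nat_lit 14))
    (@En.n l253 (nat_lit 14041) (nat_lit 10) (nat_lit 10))
    (@En.n l3 (nat_lit 13711) (nat_lit 10) (nat_lit 2))
    (@En.n l12073 (nat_lit 13713) (nat_lit 12) (nat_lit 9))
    (@En.n l3760 (nat_lit 12858) (nat_lit 13) (nat_lit 14))
    (@En.n l11274 (nat_lit 1537) (nat_lit 2) (nat_lit 10))
    (@En.n l17 (nat_lit 13711) (nat_lit 14) (nat_lit 2))
    (@En.n l18 (nat_lit 13711) (nat_lit 15) (nat_lit 2))))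
noncomputable def a857 : T16 Cl := @T16.mk Cl
  (@Cl.mk (nat_lit 0x20002000a0008000e00090002000e00060002000d000800070003000e000e) (nat_lit 0x33550700330056) (nat_lit 16) Lb.e (@T16.mk En
    (@En.n l5 (nat_lit 13712) (nat_lit 1) (nat_lit 14))
    (@En.n l420 (nat_lit 5811) (nat_lit 1) (nat_lit 14))
    (@En.n l7 (nat_lit 14043) (nat_lit 2) (nat_lit 3))
    (@En.i (nat_lit 13765) (nat_lit 3) (nat_lit 7))
    (@En.n l4869 (nat_lit 13386) (nat_lit 4) (nat_lit 8))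
    (@En.i (nat_lit 13647) (nat_lit 6) (nat_lit 13))
    (@En.n l11 (nat_lit 13712) (nat_lit 6) (nat_lit 2))
    (@En.n l4767 (nat_lit 13769) (nat_lit 7) (nat_lit 6))
    (@En.i (nat_lit 13436) (nat_lit 9) (nat_lit 14))
    (@En.n l3 (nat_lit 13712) (nat_lit 9) (nat_lit 2))
    (@En.i (nat_lit 13713) (nat_lit 11) (nat_lit 9))
    (@En.i (nat_lit 13708) (nat_lit 12) (nat_lit 14))
    (@En.i (nat_lit 14066) (nat_lit 13) (nat_lit 8))
    (@En.n l1529 (nat_lit 1720) (nat_lit 14) (nat_lit 10))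
    (@En.n l17 (nat_lit 13712) (nat_lit 14) (nat_lit 2))
    (@En.n l18 (nat_lit 13712) (nat_lit 15) (nat_lit 2))))
  (@Cl.mk (nat_lit 0x20002000b000900090009000e00050002000c0007000700070004000e000e) (nat_lit 0x134460030000bc) (nat_lit 16) Lb.e (@T16.mk En
    (@En.n l5 (nat_lit 13713) (nat_lit 1) (nat_lit 14))
    (@En.n l6068 (nat_lit 3297) (nat_lit 1) (nat_lit 14))
    (@En.n l476 (nat_lit 13709) (nat_lit 2) (nat_lit 4))
    (@En.n l152 (nat_lit 13712) (nat_lit 3) (nat_lit 7))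
    (@En.n l3090 (nat_lit 13711) (nat_lit 4) (nat_lit 7))
    (@En.n l6068 (nat_lit 13383) (nat_lit 5) (nat_lit 7))
    (@En.n l12651 (nat_lit 12943) (nat_lit 7) (nat_lit 12))
    (@En.n l11 (nat_lit 13713) (nat_lit 7) (nat_lit 2))
    (@En.n l12736 (nat_lit 13715) (nat_lit 8) (nat_lit 5))
    (@En.n l619 (nat_lit 13379) (nat_lit 10) (nat_lit 14))
    (@En.n l12737 (nat_lit 13476) (nat_lit 11) (nat_lit 9))
    (@En.n l12738 (nat_lit 13477) (nat_lit 12) (nat_lit 9))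
    (@En.i (nat_lit 13336) (nat_lit 13) (nat_lit 9))
    (@En.n l12651 (nat_lit 1295) (nat_lit 14) (nat_lit 11))
    (@En.n l17 (nat_lit 13713) (nat_lit 14) (nat_lit 2))
    (@En.n l18 (nat_lit 13713) (nat_lit 15) (nat_lit 2))))
  (@Cl.mk (nat_lit 0x20002000b000b00090009000c00050005000c0004000700070004000e000e) (nat_lit 0x224560020000ab) (nat_lit 16) Lb.e (@T16.mk En
    (@En.n l97 (nat_lit 13714) (nat_lit 1) (nat_lit 14))
    (@En.n l5201 (nat_lit 2459) (nat_lit 1) (nat_lit 14))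
    (@En.n l26487 (nat_lit 14044) (nat_lit 2) (nat_lit 4))
    (@En.n l13135 (nat_lit 13710) (nat_lit 3) (nat_lit 7))
    (@En.n l26488 (nat_lit 13769) (nat_lit 4) (nat_lit 7))
    (@En.n l26489 (nat_lit 12999) (nat_lit 5) (nat_lit 4))
    (@En.i (nat_lit 13586) (nat_lit 7) (nat_lit 12))
    (@En.n l26490 (nat_lit 14050) (nat_lit 7) (nat_lit 5))
    (@En.n l26488 (nat_lit 13854) (nat_lit 8) (nat_lit 5))
    (@En.n l12529 (nat_lit 14095) (nat_lit 10) (nat_lit 12))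
    (@En.n l6147 (nat_lit 14095) (nat_lit 11) (nat_lit 9))
    (@En.n l18 (nat_lit 13967) (nat_lit 12) (nat_lit 9))
    (@En.n l26491 (nat_lit 13709) (nat_lit 13) (nat_lit 11))
    (@En.n l26492 (nat_lit 1582) (nat_lit 14) (nat_lit 11))
    (@En.n l107 (nat_lit 13714) (nat_lit 14) (nat_lit 2))
    (@En.n l3 (nat_lit 13714) (nat_lit 15) (nat_lit 2))))
  (@Cl.mk (nat_lit 0x20002000b000b000a000a000a00050005000c0006000600060004000e000e) (nat_lit 0x824560030000ab) (nat_lit 16) Lb.e (@T16.mk En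
    (@En.n l97 (nat_lit 13715) (nat_lit 1) (nat_lit 14))
    (@En.i (nat_lit 3299) (nat_lit 1) (nat_lit 14))
    (@En.n l12754 (nat_lit 13714) (nat_lit 2) (nat_lit 4))
    (@En.n l1935 (nat_lit 13769) (nat_lit 3) (nat_lit 6))
    (@En.n l12755 (nat_lit 13768) (nat_lit 4) (nat_lit 6))
    (@En.i (nat_lit 13385) (nat_lit 5) (nat_lit 6))
    (@En.n l5663 (nat_lit 13582) (nat_lit 7) (nat_lit 12))
    (@En.n l55 (nat_lit 14049) (nat_lit 7) (nat_lit 5))
    (@En.n l5802 (nat_lit 13884) (nat_lit 8) (nat_lit 5))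
    (@En.n l742 (nat_lit 13475) (nat_lit 10) (nat_lit 10))
    (@En.n l396 (nat_lit 13474) (nat_lit 11) (nat_lit 10))
    (@En.n l12756 (nat_lit 12875) (nat_lit 12) (nat_lit 10))
    (@En.n l12757 (nat_lit 13713) (nat_lit 13) (nat_lit 11))
    (@En.n l12758 (nat_lit 1590) (nat_lit 14) (nat_lit 11))
    (@En.n l107 (nat_lit 13715) (nat_lit 14) (nat_lit 2))
    (@En.n l3 (nat_lit 13715) (nat_lit 15) (nat_lit 2))))
  (@Cl.mk (nat_lit 0x200020006000a0009000e000c0002000b000600040007000a0005000e000e) (nat_lit 0x3563090003012) (nat_lit 16) Lb.e (@T16.mk En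
    (@En.n l5 (nat_lit 13716) (nat_lit 1) (nat_lit 14))
    (@En.n l11977 (nat_lit 459) (nat_lit 1) (nat_lit 14))
    (@En.n l11978 (nat_lit 12935) (nat_lit 2) (nat_lit 5))
    (@En.n l5491 (nat_lit 13724) (nat_lit 3) (nat_lit 10))
    (@En.n l11979 (nat_lit 13818) (nat_lit 4) (nat_lit 7))
    (@En.n l5491 (nat_lit 13674) (nat_lit 5) (nat_lit 4))
    (@En.n l11977 (nat_lit 13122) (nat_lit 6) (nat_lit 6))
    (@En.n l2903 (nat_lit 14035) (nat_lit 8) (nat_lit 11))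
    (@En.n l3 (nat_lit 13716) (nat_lit 8) (nat_lit 2))
    (@En.n l1863 (nat_lit 12945) (nat_lit 10) (nat_lit 12))
    (@En.n l4549 (nat_lit 13717) (nat_lit 11) (nat_lit 14))
    (@En.n l28 (nat_lit 13659) (nat_lit 12) (nat_lit 9))
    (@En.n l77 (nat_lit 12940) (nat_lit 13) (nat_lit 10))
    (@En.n l5491 (nat_lit 458) (nat_lit 14) (nat_lit 6))
    (@En.n l17 (nat_lit 13716) (nat_lit 14) (nat_lit 2))
    (@En.n l18 (nat_lit 13716) (nat_lit 15) (nat_lit 2))))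
  (@Cl.mk (nat_lit 0x200020006000a000e000b0002000c000b000600050004000a0005000e000e) (nat_lit 0x4550790004012) (nat_lit 16) Lb.e (@T16.mk En
    (@En.n l5 (nat_lit 13717) (nat_lit 1) (nat_lit 14))
    (@En.n l2438 (nat_lit 500) (nat_lit 1) (nat_lit 14))
    (@En.n l28 (nat_lit 12912) (nat_lit 2) (nat_lit 5))
    (@En.n l1836 (nat_lit 13726) (nat_lit 3) (nat_lit 10))
    (@En.n l28 (nat_lit 13657) (nat_lit 4) (nat_lit 4))
    (@En.i (nat_lit 13434) (nat_lit 5) (nat_lit 5))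
    (@En.n l2438 (nat_lit 13811) (nat_lit 6) (nat_lit 6))
    (@En.n l77 (nat_lit 13671) (nat_lit 8) (nat_lit 11))
    (@En.n l476 (nat_lit 12945) (nat_lit 9) (nat_lit 12))
    (@En.n l67 (nat_lit 13717) (nat_lit 9) (nat_lit 2))
    (@En.n l68 (nat_lit 13720) (nat_lit 11) (nat_lit 11))
    (@En.n l4547 (nat_lit 13612) (nat_lit 12) (nat_lit 14))
    (@En.n l4548 (nat_lit 13646) (nat_lit 13) (nat_lit 10))
    (@En.i (nat_lit 501) (nat_lit 14) (nat_lit 6))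
    (@En.n l17 (nat_lit 13717) (nat_lit 14) (nat_lit 2))
    (@En.n l18 (nat_lit 13717) (nat_lit 15) (nat_lit 2))))
  (@Cl.mk (nat_lit 0x200020006000e000b0002000c000c000b000500040004000a0005000e000e) (nat_lit 0x8403790003012) (nat_lit 16) Lb.e (@T16.mk En
    (@En.n l5 (nat_lit 13718) (nat_lit 1) (nat_lit 14))
    (@En.n l4973 (nat_lit 850) (nat_lit 1) (nat_lit 14))
    (@En.n l28 (nat_lit 13462) (nat_lit 2) (nat_lit 5))
    (@En.n l1599 (nat_lit 13727) (nat_lit 3) (nat_lit 10))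
    (@En.n l1577 (nat_lit 13724) (nat_lit 4) (nat_lit 4))
    (@En.i (nat_lit 13682) (nat_lit 5) (nat_lit 4))
    (@En.n l4973 (nat_lit 13732) (nat_lit 6) (nat_lit 5))
    (@En.n l457 (nat_lit 13432) (nat_lit 8) (nat_lit 11))
    (@En.n l1578 (nat_lit 13730) (nat_lit 9) (nat_lit 12))
    (@En.n l107 (nat_lit 13728) (nat_lit 10) (nat_lit 12))
    (@En.n l3 (nat_lit 13718) (nat_lit 10) (nat_lit 2))
    (@En.n l575 (nat_lit 13720) (nat_lit 12) (nat_lit 11))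
    (@En.i (nat_lit 13105) (nat_lit 13) (nat_lit 14))
    (@En.i (nat_lit 851) (nat_lit 14) (nat_lit 6))
    (@En.n l17 (nat_lit 13718) (nat_lit 14) (nat_lit 2))
    (@En.n l18 (nat_lit 13718) (nat_lit 15) (nat_lit 2))))
  (@Cl.mk (nat_lit 0x200020006000c000c000b000900040004000e00050002000a0007000e000e) (nat_lit 0x2145009005012) (nat_lit 16) Lb.e (@T16.mk En
    (@En.n l5 (nat_lit 13719) (nat_lit 1) (nat_lit 14))
    (@En.n l2438 (nat_lit 674) (nat_lit 1) (nat_lit 14))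
    (@En.n l4413 (nat_lit 12975) (nat_lit 2) (nat_lit 7))
    (@En.n l1599 (nat_lit 13728) (nat_lit 3) (nat_lit 10))
    (@En.n l28 (nat_lit 13719) (nat_lit 4) (nat_lit 2))
    (@En.i (nat_lit 13720) (nat_lit 5) (nat_lit 5))
    (@En.n l476 (nat_lit 13115) (nat_lit 7) (nat_lit 14))
    (@En.n l152 (nat_lit 13730) (nat_lit 7) (nat_lit 4))
    (@En.n l2438 (nat_lit 13743) (nat_lit 8) (nat_lit 4))
    (@En.i (nat_lit 14027) (nat_lit 10) (nat_lit 9))
    (@En.n l4684 (nat_lit 13732) (nat_lit 11) (nat_lit 11))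
    (@En.n l10815 (nat_lit 676) (nat_lit 12) (nat_lit 12))
    (@En.n l1683 (nat_lit 12942) (nat_lit 13) (nat_lit 12))
    (@En.i (nat_lit 673) (nat_lit 14) (nat_lit 6))
    (@En.n l17 (nat_lit 13719) (nat_lit 14) (nat_lit 2))
    (@En.n l18 (nat_lit 13719) (nat_lit 15) (nat_lit 2))))
  (@Cl.mk (nat_lit 0x200020006000b000b000b000b000a0005000500050005000a0006000e000e) (nat_lit 0x3425600004012) (nat_lit 16) Lb.e (@T16.mk En
    (@En.n l5 (nat_lit 13720) (nat_lit 1) (nat_lit 14))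
    (@En.n l1393 (nat_lit 437) (nat_lit 1) (nat_lit 14))
    (@En.i (nat_lit 12911) (nat_lit 2) (nat_lit 6))
    (@En.n l4411 (nat_lit 13725) (nat_lit 3) (nat_lit 10))
    (@En.n l218 (nat_lit 13721) (nat_lit 4) (nat_lit 5))
    (@En.n l11 (nat_lit 13717) (nat_lit 5) (nat_lit 5))
    (@En.n l4976 (nat_lit 13718) (nat_lit 6) (nat_lit 5))
    (@En.n l1393 (nat_lit 13807) (nat_lit 7) (nat_lit 5))
    (@En.n l77 (nat_lit 13433) (nat_lit 9) (nat_lit 10))
    (@En.n l55 (nat_lit 13719) (nat_lit 10) (nat_lit 11))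
    (@En.n l619 (nat_lit 13723) (nat_lit 11) (nat_lit 11))
    (@En.i (nat_lit 13722) (nat_lit 12) (nat_lit 11))
    (@En.i (nat_lit 12943) (nat_lit 13) (nat_lit 11))
    (@En.i (nat_lit 436) (nat_lit 14) (nat_lit 6))
    (@En.n l17 (nat_lit 13720) (nat_lit 14) (nat_lit 2))
    (@En.n l18 (nat_lit 13720) (nat_lit 15) (nat_lit 2))))
  (@Cl.mk (nat_lit 0x200020006000a000a000e000b0002000b000600060005000a0005000e000e) (nat_lit 0x4353090003012) (nat_lit 16) Lb.e (@T16.mk En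
    (@En.n l5 (nat_lit 13721) (nat_lit 1) (nat_lit 14))
    (@En.n l2225 (nat_lit 626) (nat_lit 1) (nat_lit 14))
    (@En.i (nat_lit 13703) (nat_lit 2) (nat_lit 5))
    (@En.n l1098 (nat_lit 13667) (nat_lit 3) (nat_lit 10))
    (@En.i (nat_lit 13656) (nat_lit 4) (nat_lit 5))
    (@En.n l152 (nat_lit 13724) (nat_lit 5) (nat_lit 6))
    (@En.n l2225 (nat_lit 13805) (nat_lit 6) (nat_lit 6))
    (@En.n l9825 (nat_lit 13831) (nat_lit 8) (nat_lit 11))
    (@En.n l11 (nat_lit 13721) (nat_lit 8) (nat_lit 2))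
    (@En.n l3279 (nat_lit 13720) (nat_lit 10) (nat_lit 11))
    (@En.n l2051 (nat_lit 13911) (nat_lit 11) (nat_lit 14))
    (@En.n l10020 (nat_lit 13597) (nat_lit 12) (nat_lit 10))
    (@En.n l15141 (nat_lit 13647) (nat_lit 13) (nat_lit 10))
    (@En.i (nat_lit 627) (nat_lit 14) (nat_lit 6))
    (@En.n l17 (nat_lit 13721) (nat_lit 14) (nat_lit 2))
    (@En.n l18 (nat_lit 13721) (nat_lit 15) (nat_lit 2))))
  (@Cl.mk (nat_lit 0x200020006000b000a000a0009000e0005000200060006000a0007000e000e) (nat_lit 0x3417700005012) (nat_lit 16) Lb.e (@T16.mk En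
    (@En.n l5 (nat_lit 13722) (nat_lit 1) (nat_lit 14))
    (@En.n l10815 (nat_lit 669) (nat_lit 11) (nat_lit 14))
    (@En.n l4971 (nat_lit 12970) (nat_lit 2) (nat_lit 7))
    (@En.n l17049 (nat_lit 13922) (nat_lit 3) (nat_lit 10))
    (@En.n l17053 (nat_lit 13597) (nat_lit 4) (nat_lit 6))
    (@En.n l17054 (nat_lit 13606) (nat_lit 5) (nat_lit 6))
    (@En.n l3 (nat_lit 13722) (nat_lit 6) (nat_lit 2))
    (@En.n l152 (nat_lit 13720) (nat_lit 7) (nat_lit 5))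
    (@En.n l17049 (nat_lit 13667) (nat_lit 9) (nat_lit 14))
    (@En.n l11918 (nat_lit 13669) (nat_lit 10) (nat_lit 9))
    (@En.n l17050 (nat_lit 676) (nat_lit 11) (nat_lit 10))
    (@En.n l17051 (nat_lit 13813) (nat_lit 12) (nat_lit 10))
    (@En.n l11918 (nat_lit 13637) (nat_lit 13) (nat_lit 11))
    (@En.i (nat_lit 668) (nat_lit 6) (nat_lit 6))
    (@En.n l17 (nat_lit 13722) (nat_lit 14) (nat_lit 2))
    (@En.n l18 (nat_lit 13722) (nat_lit 15) (nat_lit 2))))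
  (@Cl.mk (nat_lit 0x200020006000c000b000a00090004000e000500020006000a0007000e000e) (nat_lit 0x2145090005012) (nat_lit 16) Lb.e (@T16.mk En
    (@En.n l5 (nat_lit 13723) (nat_lit 1) (nat_lit 14))
    (@En.n l4473 (nat_lit 434) (nat_lit 12) (nat_lit 14))
    (@En.n l12126 (nat_lit 12989) (nat_lit 2) (nat_lit 7))
    (@En.n l7619 (nat_lit 13915) (nat_lit 3) (nat_lit 10))
    (@En.n l5616 (nat_lit 13912) (nat_lit 4) (nat_lit 6))
    (@En.n l11 (nat_lit 13723) (nat_lit 5) (nat_lit 2))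
    (@En.n l117 (nat_lit 13720) (nat_lit 6) (nat_lit 5))
    (@En.n l25724 (nat_lit 13925) (nat_lit 8) (nat_lit 14))
    (@En.n l25725 (nat_lit 13806) (nat_lit 8) (nat_lit 4))
    (@En.n l77 (nat_lit 13689) (nat_lit 10) (nat_lit 9))
    (@En.i (nat_lit 13810) (nat_lit 11) (nat_lit 10))
    (@En.n l936 (nat_lit 661) (nat_lit 12) (nat_lit 11))
    (@En.n l4484 (nat_lit 13618) (nat_lit 13) (nat_lit 12))
    (@En.i (nat_lit 433) (nat_lit 7) (nat_lit 6))
    (@En.n l17 (nat_lit 13723) (nat_lit 14) (nat_lit 2))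
    (@En.n l18 (nat_lit 13723) (nat_lit 15) (nat_lit 2))))
  (@Cl.mk (nat_lit 0x200020006000e000a0002000e000c0002000c00060004000a0004000e000e) (nat_lit 0x4505409002012) (nat_lit 16) Lb.e (@T16.mk En
    (@En.n l5 (nat_lit 13724) (nat_lit 1) (nat_lit 14))
    (@En.i (nat_lit 836) (nat_lit 1) (nat_lit 14))
    (@En.i (nat_lit 13702) (nat_lit 2) (nat_lit 4))
    (@En.i (nat_lit 13663) (nat_lit 3) (nat_lit 10))
    (@En.i (nat_lit 13683) (nat_lit 4) (nat_lit 4))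
    (@En.i (nat_lit 13810) (nat_lit 5) (nat_lit 6))
    (@En.n l2228 (nat_lit 13836) (nat_lit 7) (nat_lit 12))
    (@En.n l11 (nat_lit 13724) (nat_lit 7) (nat_lit 2))
    (@En.n l55 (nat_lit 13718) (nat_lit 9) (nat_lit 12))
    (@En.i (nat_lit 13726) (nat_lit 10) (nat_lit 14))
    (@En.n l3 (nat_lit 13724) (nat_lit 10) (nat_lit 2))
    (@En.i (nat_lit 13721) (nat_lit 12) (nat_lit 10))
    (@En.i (nat_lit 13104) (nat_lit 13) (nat_lit 14))
    (@En.i (nat_lit 837) (nat_lit 14) (nat_lit 6))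
    (@En.n l17 (nat_lit 13724) (nat_lit 14) (nat_lit 2))
    (@En.n l18 (nat_lit 13724) (nat_lit 15) (nat_lit 2))))
  (@Cl.mk (nat_lit 0x200020006000c000b000b000b0004000b000500050005000a0005000e000e) (nat_lit 0x8846070003012) (nat_lit 16) Lb.e (@T16.mk En
    (@En.n l5 (nat_lit 13725) (nat_lit 1) (nat_lit 14))
    (@En.n l3303 (nat_lit 796) (nat_lit 1) (nat_lit 14))
    (@En.n l1442 (nat_lit 13538) (nat_lit 2) (nat_lit 5))
    (@En.n l1910 (nat_lit 13655) (nat_lit 3) (nat_lit 10))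
    (@En.n l180 (nat_lit 13726) (nat_lit 4) (nat_lit 5))
    (@En.n l527 (nat_lit 13727) (nat_lit 5) (nat_lit 5))
    (@En.n l3462 (nat_lit 13918) (nat_lit 6) (nat_lit 5))
    (@En.n l11921 (nat_lit 13514) (nat_lit 8) (nat_lit 11))
    (@En.n l159 (nat_lit 13924) (nat_lit 8) (nat_lit 4))
    (@En.n l5634 (nat_lit 13915) (nat_lit 10) (nat_lit 11))
    (@En.n l5635 (nat_lit 13922) (nat_lit 11) (nat_lit 11))
    (@En.n l14086 (nat_lit 13912) (nat_lit 12) (nat_lit 11))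
    (@En.n l5086 (nat_lit 13095) (nat_lit 13) (nat_lit 12))
    (@En.i (nat_lit 795) (nat_lit 14) (nat_lit 6))
    (@En.n l17 (nat_lit 13725) (nat_lit 14) (nat_lit 2))
    (@En.n l18 (nat_lit 13725) (nat_lit 15) (nat_lit 2))))
  (@Cl.mk (nat_lit 0x200020006000b000a000e000b00020005000c00060005000a0004000e000e) (nat_lit 0x9845008003045) (nat_lit 16) Lb.e (@T16.mk En
    (@En.n l5 (nat_lit 13726) (nat_lit 1) (nat_lit 14))
    (@En.n l615 (nat_lit 802) (nat_lit 9) (nat_lit 14))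
    (@En.i (nat_lit 13543) (nat_lit 2) (nat_lit 4))
    (@En.n l2055 (nat_lit 13668) (nat_lit 3) (nat_lit 10))
    (@En.i (nat_lit 272) (nat_lit 4) (nat_lit 5))
    (@En.n l2056 (nat_lit 13926) (nat_lit 5) (nat_lit 6))
    (@En.n l4893 (nat_lit 13517) (nat_lit 7) (nat_lit 12))
    (@En.n l159 (nat_lit 13727) (nat_lit 7) (nat_lit 5))
    (@En.n l11 (nat_lit 13726) (nat_lit 8) (nat_lit 2))
    (@En.n l107 (nat_lit 13725) (nat_lit 10) (nat_lit 11))
    (@En.n l1572 (nat_lit 13940) (nat_lit 11) (nat_lit 14))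
    (@En.n l2051 (nat_lit 13911) (nat_lit 12) (nat_lit 10))
    (@En.n l4750 (nat_lit 13097) (nat_lit 13) (nat_lit 11))
    (@En.n l2237 (nat_lit 801) (nat_lit 4) (nat_lit 6))
    (@En.n l17 (nat_lit 13726) (nat_lit 14) (nat_lit 2))
    (@En.n l18 (nat_lit 13726) (nat_lit 15) (nat_lit 2))))
  (@Cl.mk (nat_lit 0x200020006000b000e000b0002000c0005000c00050004000a0004000e000e) (nat_lit 0x7590608002012) (nat_lit 16) Lb.e (@T16.mk En
    (@En.n l5 (nat_lit 13727) (nat_lit 1) (nat_lit 14))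
    (@En.i (nat_lit 800) (nat_lit 1) (nat_lit 14))
    (@En.i (nat_lit 13537) (nat_lit 2) (nat_lit 4))
    (@En.n l6050 (nat_lit 13664) (nat_lit 3) (nat_lit 10))
    (@En.i (nat_lit 271) (nat_lit 4) (nat_lit 4))
    (@En.i (nat_lit 13736) (nat_lit 5) (nat_lit 5))
    (@En.n l11921 (nat_lit 13504) (nat_lit 7) (nat_lit 12))
    (@En.n l159 (nat_lit 13941) (nat_lit 7) (nat_lit 5))
    (@En.n l11 (nat_lit 13924) (nat_lit 9) (nat_lit 12))
    (@En.n l107 (nat_lit 13727) (nat_lit 9) (nat_lit 2))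
    (@En.i (nat_lit 13725) (nat_lit 11) (nat_lit 11))
    (@En.n l619 (nat_lit 13724) (nat_lit 12) (nat_lit 14))
    (@En.n l513 (nat_lit 13092) (nat_lit 13) (nat_lit 11))
    (@En.i (nat_lit 799) (nat_lit 14) (nat_lit 6))
    (@En.n l17 (nat_lit 13727) (nat_lit 14) (nat_lit 2))
    (@En.n l18 (nat_lit 13727) (nat_lit 15) (nat_lit 2))))
noncomputable def a858 : T16 Cl := @T16.mk Cl
  (@Cl.mk (nat_lit 0x2000200060009000c000c000b000a0004000400070005000a0006000e000e) (nat_lit 0x4325100004012) (nat_lit 16) Lb.e (@T16.mk En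
    (@En.n l5 (nat_lit 13728) (nat_lit 1) (nat_lit 14))
    (@En.n l13079 (nat_lit 807) (nat_lit 1) (nat_lit 14))
    (@En.n l28 (nat_lit 13546) (nat_lit 2) (nat_lit 6))
    (@En.n l1599 (nat_lit 13924) (nat_lit 3) (nat_lit 10))
    (@En.n l28 (nat_lit 13725) (nat_lit 4) (nat_lit 5))
    (@En.n l3 (nat_lit 13729) (nat_lit 5) (nat_lit 7))
    (@En.n l527 (nat_lit 13729) (nat_lit 6) (nat_lit 4))
    (@En.n l13079 (nat_lit 13735) (nat_lit 7) (nat_lit 4))
    (@En.n l11780 (nat_lit 274) (nat_lit 9) (nat_lit 10))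
    (@En.n l180 (nat_lit 13736) (nat_lit 10) (nat_lit 11))
    (@En.n l11782 (nat_lit 13925) (nat_lit 11) (nat_lit 12))
    (@En.n l1142 (nat_lit 13723) (nat_lit 12) (nat_lit 12))
    (@En.n l513 (nat_lit 12969) (nat_lit 13) (nat_lit 9))
    (@En.i (nat_lit 822) (nat_lit 14) (nat_lit 6))
    (@En.n l17 (nat_lit 13728) (nat_lit 14) (nat_lit 2))
    (@En.n l18 (nat_lit 13728) (nat_lit 15) (nat_lit 2))))
  (@Cl.mk (nat_lit 0x2000200060009000e000c0002000c000b000400070004000a0005000e000e) (nat_lit 0x4940610003012) (nat_lit 16) Lb.e (@T16.mk En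
    (@En.n l5 (nat_lit 13729) (nat_lit 1) (nat_lit 14))
    (@En.i (nat_lit 808) (nat_lit 1) (nat_lit 14))
    (@En.n l28 (nat_lit 13548) (nat_lit 2) (nat_lit 5))
    (@En.n l1599 (nat_lit 13941) (nat_lit 3) (nat_lit 10))
    (@En.n l28 (nat_lit 13727) (nat_lit 4) (nat_lit 4))
    (@En.i (nat_lit 13943) (nat_lit 5) (nat_lit 7))
    (@En.i (nat_lit 13733) (nat_lit 6) (nat_lit 4))
    (@En.n l77 (nat_lit 275) (nat_lit 8) (nat_lit 11))
    (@En.i (nat_lit 13738) (nat_lit 9) (nat_lit 12))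
    (@En.n l107 (nat_lit 13729) (nat_lit 9) (nat_lit 2))
    (@En.i (nat_lit 13728) (nat_lit 11) (nat_lit 12))
    (@En.n l97 (nat_lit 13718) (nat_lit 12) (nat_lit 14))
    (@En.n l513 (nat_lit 13128) (nat_lit 13) (nat_lit 9))
    (@En.i (nat_lit 809) (nat_lit 14) (nat_lit 6))
    (@En.n l17 (nat_lit 13729) (nat_lit 14) (nat_lit 2))
    (@En.n l18 (nat_lit 13729) (nat_lit 15) (nat_lit 2))))
  (@Cl.mk (nat_lit 0x200020006000e000c0002000c000a0004000e00040002000a0006000e000e) (nat_lit 0x4306808004012) (nat_lit 16) Lb.e (@T16.mk En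
    (@En.n l5 (nat_lit 13730) (nat_lit 1) (nat_lit 14))
    (@En.n l1393 (nat_lit 864) (nat_lit 1) (nat_lit 14))
    (@En.i (nat_lit 13031) (nat_lit 2) (nat_lit 6))
    (@En.n l1599 (nat_lit 13729) (nat_lit 3) (nat_lit 10))
    (@En.n l28 (nat_lit 13730) (nat_lit 4) (nat_lit 2))
    (@En.n l11 (nat_lit 13718) (nat_lit 5) (nat_lit 4))
    (@En.i (nat_lit 13045) (nat_lit 7) (nat_lit 14))
    (@En.n l1393 (nat_lit 13731) (nat_lit 7) (nat_lit 4))
    (@En.i (nat_lit 14029) (nat_lit 9) (nat_lit 10))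
    (@En.i (nat_lit 13733) (nat_lit 10) (nat_lit 12))
    (@En.n l3 (nat_lit 13730) (nat_lit 10) (nat_lit 2))
    (@En.i (nat_lit 13719) (nat_lit 12) (nat_lit 12))
    (@En.i (nat_lit 13114) (nat_lit 13) (nat_lit 14))
    (@En.i (nat_lit 865) (nat_lit 14) (nat_lit 6))
    (@En.n l17 (nat_lit 13730) (nat_lit 14) (nat_lit 2))
    (@En.n l18 (nat_lit 13730) (nat_lit 15) (nat_lit 2))))
  (@Cl.mk (nat_lit 0x200020006000d000c00080003000d0004000e00030002000a0008000e000e) (nat_lit 0x344060a007112) (nat_lit 16) Lb.e (@T16.mk En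
    (@En.n l180 (nat_lit 13731) (nat_lit 1) (nat_lit 14))
    (@En.i (nat_lit 846) (nat_lit 13) (nat_lit 14))
    (@En.n l619 (nat_lit 12977) (nat_lit 2) (nat_lit 8))
    (@En.n l1501 (nat_lit 13733) (nat_lit 3) (nat_lit 10))
    (@En.n l17 (nat_lit 13731) (nat_lit 4) (nat_lit 2))
    (@En.i (nat_lit 13732) (nat_lit 5) (nat_lit 3))
    (@En.i (nat_lit 13947) (nat_lit 7) (nat_lit 14))
    (@En.n l4263 (nat_lit 13719) (nat_lit 7) (nat_lit 4))
    (@En.n l564 (nat_lit 13734) (nat_lit 9) (nat_lit 13))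
    (@En.n l7 (nat_lit 13742) (nat_lit 9) (nat_lit 3))
    (@En.n l1347 (nat_lit 12862) (nat_lit 11) (nat_lit 8))
    (@En.n l644 (nat_lit 13743) (nat_lit 12) (nat_lit 12))
    (@En.n l1643 (nat_lit 13120) (nat_lit 13) (nat_lit 13))
    (@En.i (nat_lit 845) (nat_lit 14) (nat_lit 6))
    (@En.n l11 (nat_lit 13731) (nat_lit 14) (nat_lit 2))
    (@En.n l107 (nat_lit 13731) (nat_lit 15) (nat_lit 2))))
  (@Cl.mk (nat_lit 0x200020006000d000b00080003000d000d000500030003000a0008000e000e) (nat_lit 0x2340770007112) (nat_lit 16) Lb.e (@T16.mk En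
    (@En.n l180 (nat_lit 13732) (nat_lit 1) (nat_lit 14))
    (@En.i (nat_lit 840) (nat_lit 1) (nat_lit 14))
    (@En.n l619 (nat_lit 12978) (nat_lit 2) (nat_lit 8))
    (@En.n l4806 (nat_lit 13736) (nat_lit 3) (nat_lit 10))
    (@En.n l6368 (nat_lit 13810) (nat_lit 4) (nat_lit 3))
    (@En.n l18 (nat_lit 13731) (nat_lit 5) (nat_lit 3))
    (@En.n l1347 (nat_lit 13723) (nat_lit 6) (nat_lit 5))
    (@En.n l61 (nat_lit 13731) (nat_lit 8) (nat_lit 13))
    (@En.n l564 (nat_lit 13735) (nat_lit 9) (nat_lit 13))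
    (@En.n l7 (nat_lit 13741) (nat_lit 9) (nat_lit 3))
    (@En.n l4019 (nat_lit 12788) (nat_lit 11) (nat_lit 8))
    (@En.i (nat_lit 13807) (nat_lit 12) (nat_lit 11))
    (@En.n l1643 (nat_lit 13121) (nat_lit 13) (nat_lit 13))
    (@En.i (nat_lit 839) (nat_lit 14) (nat_lit 6))
    (@En.n l11 (nat_lit 13732) (nat_lit 14) (nat_lit 2))
    (@En.n l107 (nat_lit 13732) (nat_lit 15) (nat_lit 2))))
  (@Cl.mk (nat_lit 0x2000200060009000d000c00090003000d000400070003000a0007000e000e) (nat_lit 0x4357070006012) (nat_lit 16) Lb.e (@T16.mk En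
    (@En.n l5 (nat_lit 13733) (nat_lit 1) (nat_lit 14))
    (@En.n l170 (nat_lit 735) (nat_lit 1) (nat_lit 14))
    (@En.n l1385 (nat_lit 13973) (nat_lit 2) (nat_lit 7))
    (@En.n l1599 (nat_lit 13738) (nat_lit 3) (nat_lit 10))
    (@En.n l28 (nat_lit 13736) (nat_lit 4) (nat_lit 3))
    (@En.i (nat_lit 13052) (nat_lit 5) (nat_lit 7))
    (@En.n l5732 (nat_lit 13728) (nat_lit 6) (nat_lit 4))
    (@En.n l5242 (nat_lit 13737) (nat_lit 8) (nat_lit 13))
    (@En.n l4073 (nat_lit 13734) (nat_lit 8) (nat_lit 3))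
    (@En.i (nat_lit 12864) (nat_lit 10) (nat_lit 9))
    (@En.n l13079 (nat_lit 13735) (nat_lit 11) (nat_lit 12))
    (@En.n l4684 (nat_lit 13732) (nat_lit 12) (nat_lit 13))
    (@En.n l13080 (nat_lit 13129) (nat_lit 13) (nat_lit 9))
    (@En.n l170 (nat_lit 653) (nat_lit 14) (nat_lit 6))
    (@En.n l17 (nat_lit 13733) (nat_lit 14) (nat_lit 2))
    (@En.n l18 (nat_lit 13733) (nat_lit 15) (nat_lit 2))))
  (@Cl.mk (nat_lit 0x2000200060009000d0008000d0003000d000300070003000a0008000e000e) (nat_lit 0x4455020007312) (nat_lit 16) Lb.e (@T16.mk En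
    (@En.n l180 (nat_lit 13734) (nat_lit 1) (nat_lit 14))
    (@En.i (nat_lit 644) (nat_lit 1) (nat_lit 14))
    (@En.n l619 (nat_lit 13969) (nat_lit 2) (nat_lit 8))
    (@En.i (nat_lit 13737) (nat_lit 3) (nat_lit 10))
    (@En.n l3348 (nat_lit 13739) (nat_lit 4) (nat_lit 3))
    (@En.n l387 (nat_lit 13050) (nat_lit 5) (nat_lit 7))
    (@En.i (nat_lit 13735) (nat_lit 6) (nat_lit 3))
    (@En.i (nat_lit 13813) (nat_lit 8) (nat_lit 13))
    (@En.n l1501 (nat_lit 13733) (nat_lit 8) (nat_lit 3))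
    (@En.n l3348 (nat_lit 13657) (nat_lit 10) (nat_lit 13))
    (@En.n l810 (nat_lit 12873) (nat_lit 11) (nat_lit 8))
    (@En.n l617 (nat_lit 13741) (nat_lit 12) (nat_lit 13))
    (@En.n l781 (nat_lit 13131) (nat_lit 13) (nat_lit 9))
    (@En.i (nat_lit 643) (nat_lit 14) (nat_lit 6))
    (@En.n l11 (nat_lit 13734) (nat_lit 14) (nat_lit 2))
    (@En.n l107 (nat_lit 13734) (nat_lit 15) (nat_lit 2))))
  (@Cl.mk (nat_lit 0x2000200060009000c0008000d000c0004000300070004000a0008000e000e) (nat_lit 0x4466600007512) (nat_lit 16) Lb.e (@T16.mk En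
    (@En.n l180 (nat_lit 13735) (nat_lit 1) (nat_lit 14))
    (@En.i (nat_lit 725) (nat_lit 1) (nat_lit 14))
    (@En.n l619 (nat_lit 13972) (nat_lit 2) (nat_lit 8))
    (@En.n l3327 (nat_lit 13740) (nat_lit 3) (nat_lit 10))
    (@En.n l3348 (nat_lit 13918) (nat_lit 4) (nat_lit 4))
    (@En.n l13773 (nat_lit 13733) (nat_lit 5) (nat_lit 7))
    (@En.n l50 (nat_lit 13734) (nat_lit 6) (nat_lit 3))
    (@En.n l7678 (nat_lit 13925) (nat_lit 7) (nat_lit 4))
    (@En.n l5854 (nat_lit 13739) (nat_lit 9) (nat_lit 12))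
    (@En.n l3348 (nat_lit 13656) (nat_lit 10) (nat_lit 13))
    (@En.n l12316 (nat_lit 12870) (nat_lit 11) (nat_lit 8))
    (@En.n l3327 (nat_lit 13806) (nat_lit 12) (nat_lit 12))
    (@En.n l781 (nat_lit 13130) (nat_lit 13) (nat_lit 9))
    (@En.i (nat_lit 724) (nat_lit 14) (nat_lit 6))
    (@En.n l11 (nat_lit 13735) (nat_lit 14) (nat_lit 2))
    (@En.n l107 (nat_lit 13735) (nat_lit 15) (nat_lit 2))))
  (@Cl.mk (nat_lit 0x200020006000a000d000b00090003000d000600050003000a0007000e000e) (nat_lit 0x2447090006012) (nat_lit 16) Lb.e (@T16.mk En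
    (@En.n l5 (nat_lit 13736) (nat_lit 1) (nat_lit 14))
    (@En.n l5995 (nat_lit 734) (nat_lit 1) (nat_lit 14))
    (@En.n l111 (nat_lit 13975) (nat_lit 2) (nat_lit 7))
    (@En.n l3455 (nat_lit 13606) (nat_lit 3) (nat_lit 10))
    (@En.i (nat_lit 13733) (nat_lit 4) (nat_lit 3))
    (@En.n l3457 (nat_lit 13915) (nat_lit 5) (nat_lit 5))
    (@En.n l159 (nat_lit 13738) (nat_lit 6) (nat_lit 6))
    (@En.n l3459 (nat_lit 13740) (nat_lit 8) (nat_lit 13))
    (@En.n l6868 (nat_lit 13739) (nat_lit 8) (nat_lit 3))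
    (@En.i (nat_lit 12865) (nat_lit 10) (nat_lit 9))
    (@En.n l3462 (nat_lit 13918) (nat_lit 11) (nat_lit 11))
    (@En.n l619 (nat_lit 13810) (nat_lit 12) (nat_lit 13))
    (@En.n l5995 (nat_lit 13136) (nat_lit 13) (nat_lit 10))
    (@En.i (nat_lit 733) (nat_lit 14) (nat_lit 6))
    (@En.n l17 (nat_lit 13736) (nat_lit 14) (nat_lit 2))
    (@En.n l18 (nat_lit 13736) (nat_lit 15) (nat_lit 2))))
  (@Cl.mk (nat_lit 0x200020006000a0009000d0009000d0003000600030007000a0007000e000e) (nat_lit 0x2546600006012) (nat_lit 16) Lb.e (@T16.mk En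
    (@En.n l180 (nat_lit 13737) (nat_lit 1) (nat_lit 14))
    (@En.i (nat_lit 650) (nat_lit 1) (nat_lit 14))
    (@En.n l619 (nat_lit 13971) (nat_lit 2) (nat_lit 7))
    (@En.n l13101 (nat_lit 13611) (nat_lit 3) (nat_lit 10))
    (@En.n l13102 (nat_lit 13046) (nat_lit 4) (nat_lit 7))
    (@En.n l3327 (nat_lit 13740) (nat_lit 5) (nat_lit 3))
    (@En.n l7051 (nat_lit 13597) (nat_lit 6) (nat_lit 6))
    (@En.n l13056 (nat_lit 13738) (nat_lit 7) (nat_lit 3))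
    (@En.n l3325 (nat_lit 13672) (nat_lit 9) (nat_lit 13))
    (@En.n l13103 (nat_lit 12872) (nat_lit 10) (nat_lit 9))
    (@En.n l3327 (nat_lit 13739) (nat_lit 11) (nat_lit 13))
    (@En.n l17 (nat_lit 13734) (nat_lit 12) (nat_lit 9))
    (@En.i (nat_lit 13137) (nat_lit 13) (nat_lit 10))
    (@En.i (nat_lit 649) (nat_lit 14) (nat_lit 6))
    (@En.n l11 (nat_lit 13737) (nat_lit 14) (nat_lit 2))
    (@En.n l107 (nat_lit 13737) (nat_lit 15) (nat_lit 2))))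
  (@Cl.mk (nat_lit 0x200020006000a0009000d000c000a0003000600040007000a0006000e000e) (nat_lit 0x2555800005012) (nat_lit 16) Lb.e (@T16.mk En
    (@En.n l5 (nat_lit 13738) (nat_lit 1) (nat_lit 14))
    (@En.n l5234 (nat_lit 731) (nat_lit 1) (nat_lit 14))
    (@En.n l2678 (nat_lit 13547) (nat_lit 2) (nat_lit 6))
    (@En.n l7747 (nat_lit 13612) (nat_lit 3) (nat_lit 10))
    (@En.n l810 (nat_lit 13051) (nat_lit 4) (nat_lit 7))
    (@En.n l2678 (nat_lit 13924) (nat_lit 5) (nat_lit 4))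
    (@En.i (nat_lit 13911) (nat_lit 6) (nat_lit 6))
    (@En.n l5242 (nat_lit 13737) (nat_lit 7) (nat_lit 3))
    (@En.i (nat_lit 12866) (nat_lit 9) (nat_lit 10))
    (@En.n l8351 (nat_lit 13740) (nat_lit 10) (nat_lit 12))
    (@En.n l180 (nat_lit 13736) (nat_lit 11) (nat_lit 13))
    (@En.n l2038 (nat_lit 13733) (nat_lit 12) (nat_lit 9))
    (@En.n l5009 (nat_lit 13138) (nat_lit 13) (nat_lit 10))
    (@En.n l2568 (nat_lit 730) (nat_lit 14) (nat_lit 6))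
    (@En.n l17 (nat_lit 13738) (nat_lit 14) (nat_lit 2))
    (@En.n l18 (nat_lit 13738) (nat_lit 15) (nat_lit 2))))
  (@Cl.mk (nat_lit 0x200020006000a000d0008000c0003000d000600040003000a0008000e000e) (nat_lit 0x2355020007212) (nat_lit 16) Lb.e (@T16.mk En
    (@En.n l5 (nat_lit 13739) (nat_lit 1) (nat_lit 14))
    (@En.n l3082 (nat_lit 652) (nat_lit 1) (nat_lit 14))
    (@En.n l4980 (nat_lit 13970) (nat_lit 2) (nat_lit 8))
    (@En.i (nat_lit 13608) (nat_lit 3) (nat_lit 10))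
    (@En.n l5200 (nat_lit 13734) (nat_lit 4) (nat_lit 3))
    (@En.i (nat_lit 13916) (nat_lit 5) (nat_lit 4))
    (@En.n l1101 (nat_lit 13737) (nat_lit 6) (nat_lit 6))
    (@En.n l8015 (nat_lit 661) (nat_lit 8) (nat_lit 13))
    (@En.n l8400 (nat_lit 13736) (nat_lit 8) (nat_lit 3))
    (@En.i (nat_lit 13670) (nat_lit 10) (nat_lit 12))
    (@En.n l17884 (nat_lit 12874) (nat_lit 11) (nat_lit 8))
    (@En.n l645 (nat_lit 13804) (nat_lit 12) (nat_lit 13))
    (@En.n l3082 (nat_lit 13135) (nat_lit 13) (nat_lit 10))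
    (@En.i (nat_lit 651) (nat_lit 14) (nat_lit 6))
    (@En.n l17 (nat_lit 13739) (nat_lit 14) (nat_lit 2))
    (@En.n l18 (nat_lit 13739) (nat_lit 15) (nat_lit 2))))
  (@Cl.mk (nat_lit 0x200020006000b0009000c0009000d0005000400030007000a0007000e000e) (nat_lit 0x2547800006012) (nat_lit 16) Lb.e (@T16.mk En
    (@En.n l5 (nat_lit 13740) (nat_lit 1) (nat_lit 14))
    (@En.n l4790 (nat_lit 728) (nat_lit 1) (nat_lit 14))
    (@En.i (nat_lit 13974) (nat_lit 2) (nat_lit 7))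
    (@En.n l476 (nat_lit 13613) (nat_lit 3) (nat_lit 10))
    (@En.n l13671 (nat_lit 13738) (nat_lit 4) (nat_lit 7))
    (@En.n l3072 (nat_lit 13737) (nat_lit 5) (nat_lit 3))
    (@En.n l152 (nat_lit 13923) (nat_lit 6) (nat_lit 4))
    (@En.n l15323 (nat_lit 13912) (nat_lit 7) (nat_lit 5))
    (@En.i (nat_lit 13680) (nat_lit 9) (nat_lit 13))
    (@En.n l2038 (nat_lit 12871) (nat_lit 10) (nat_lit 9))
    (@En.i (nat_lit 13916) (nat_lit 11) (nat_lit 12))
    (@En.n l7075 (nat_lit 13735) (nat_lit 12) (nat_lit 9))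
    (@En.i (nat_lit 13139) (nat_lit 13) (nat_lit 11))
    (@En.i (nat_lit 727) (nat_lit 14) (nat_lit 6))
    (@En.n l17 (nat_lit 13740) (nat_lit 14) (nat_lit 2))
    (@En.n l18 (nat_lit 13740) (nat_lit 15) (nat_lit 2))))
  (@Cl.mk (nat_lit 0x200020006000d0007000c0003000d000d000400030003000a0009000e000e) (nat_lit 0x3040680008112) (nat_lit 16) Lb.e (@T16.mk En
    (@En.n l180 (nat_lit 13741) (nat_lit 1) (nat_lit 14))
    (@En.i (nat_lit 595) (nat_lit 1) (nat_lit 14))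
    (@En.n l2038 (nat_lit 12983) (nat_lit 2) (nat_lit 9))
    (@En.n l3348 (nat_lit 13739) (nat_lit 3) (nat_lit 10))
    (@En.n l5331 (nat_lit 13804) (nat_lit 4) (nat_lit 3))
    (@En.n l18 (nat_lit 13742) (nat_lit 5) (nat_lit 3))
    (@En.n l3348 (nat_lit 13806) (nat_lit 6) (nat_lit 4))
    (@En.n l61 (nat_lit 13742) (nat_lit 8) (nat_lit 13))
    (@En.i (nat_lit 13809) (nat_lit 9) (nat_lit 13))
    (@En.i (nat_lit 13732) (nat_lit 9) (nat_lit 3))
    (@En.n l3348 (nat_lit 13653) (nat_lit 11) (nat_lit 12))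
    (@En.n l810 (nat_lit 13005) (nat_lit 12) (nat_lit 7))
    (@En.n l1643 (nat_lit 13124) (nat_lit 13) (nat_lit 13))
    (@En.i (nat_lit 594) (nat_lit 14) (nat_lit 6))
    (@En.n l11 (nat_lit 13741) (nat_lit 14) (nat_lit 2))
    (@En.n l107 (nat_lit 13741) (nat_lit 15) (nat_lit 2))))
  (@Cl.mk (nat_lit 0x200020006000d0007000d0003000d0003000e00030002000a0009000e000e) (nat_lit 0x206070a008112) (nat_lit 16) Lb.e (@T16.mk En
    (@En.n l180 (nat_lit 13742) (nat_lit 1) (nat_lit 14))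
    (@En.i (nat_lit 597) (nat_lit 13) (nat_lit 14))
    (@En.n l2038 (nat_lit 12984) (nat_lit 2) (nat_lit 9))
    (@En.i (nat_lit 13734) (nat_lit 3) (nat_lit 10))
    (@En.n l17 (nat_lit 13742) (nat_lit 4) (nat_lit 2))
    (@En.i (nat_lit 13741) (nat_lit 5) (nat_lit 3))
    (@En.i (nat_lit 13944) (nat_lit 0) (nat_lit 14))
    (@En.i (nat_lit 13743) (nat_lit 7) (nat_lit 3))
    (@En.i (nat_lit 13812) (nat_lit 9) (nat_lit 13))
    (@En.i (nat_lit 13731) (nat_lit 9) (nat_lit 3))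
    (@En.i (nat_lit 13652) (nat_lit 11) (nat_lit 13))
    (@En.n l810 (nat_lit 13004) (nat_lit 12) (nat_lit 7))
    (@En.n l1643 (nat_lit 13125) (nat_lit 13) (nat_lit 13))
    (@En.i (nat_lit 596) (nat_lit 14) (nat_lit 6))
    (@En.n l11 (nat_lit 13742) (nat_lit 14) (nat_lit 2))
    (@En.n l107 (nat_lit 13742) (nat_lit 15) (nat_lit 2))))
  (@Cl.mk (nat_lit 0x200020006000c0007000d000c00040003000e00040002000a0009000e000e) (nat_lit 0x306500a008112) (nat_lit 16) Lb.e (@T16.mk En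
    (@En.n l180 (nat_lit 13743) (nat_lit 1) (nat_lit 14))
    (@En.i (nat_lit 591) (nat_lit 13) (nat_lit 14))
    (@En.n l2038 (nat_lit 12985) (nat_lit 2) (nat_lit 9))
    (@En.i (nat_lit 13735) (nat_lit 3) (nat_lit 10))
    (@En.n l17 (nat_lit 13743) (nat_lit 4) (nat_lit 2))
    (@En.n l50 (nat_lit 13807) (nat_lit 5) (nat_lit 4))
    (@En.n l998 (nat_lit 13118) (nat_lit 7) (nat_lit 14))
    (@En.n l50 (nat_lit 13742) (nat_lit 7) (nat_lit 3))
    (@En.i (nat_lit 676) (nat_lit 8) (nat_lit 4))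
    (@En.n l217 (nat_lit 13741) (nat_lit 10) (nat_lit 12))
    (@En.i (nat_lit 13650) (nat_lit 11) (nat_lit 13))
    (@En.n l810 (nat_lit 13006) (nat_lit 12) (nat_lit 7))
    (@En.n l1643 (nat_lit 13583) (nat_lit 13) (nat_lit 12))
    (@En.i (nat_lit 590) (nat_lit 14) (nat_lit 6))
    (@En.n l11 (nat_lit 13743) (nat_lit 14) (nat_lit 2))
    (@En.n l107 (nat_lit 13743) (nat_lit 15) (nat_lit 2))))
noncomputable def a859 : T16 Cl := @T16.mk Cl
  (@Cl.mk (nat_lit 0x2000200070007000b000e000c0002000b00050004000900090005000e000e) (nat_lit 0x357090071023) (nat_lit 16) Lb.e (@T16.mk En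
    (@En.n l601 (nat_lit 13744) (nat_lit 1) (nat_lit 14))
    (@En.i (nat_lit 4733) (nat_lit 1) (nat_lit 14))
    (@En.n l6899 (nat_lit 13721) (nat_lit 2) (nat_lit 5))
    (@En.n l11999 (nat_lit 12850) (nat_lit 3) (nat_lit 9))
    (@En.n l12000 (nat_lit 13483) (nat_lit 4) (nat_lit 9))
    (@En.n l1241 (nat_lit 13698) (nat_lit 5) (nat_lit 4))
    (@En.n l17 (nat_lit 13008) (nat_lit 6) (nat_lit 5))
    (@En.n l12001 (nat_lit 13783) (nat_lit 8) (nat_lit 11))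
    (@En.n l3 (nat_lit 13744) (nat_lit 8) (nat_lit 2))
    (@En.n l12002 (nat_lit 13007) (nat_lit 10) (nat_lit 12))
    (@En.n l12003 (nat_lit 13748) (nat_lit 11) (nat_lit 14))
    (@En.i (nat_lit 13327) (nat_lit 12) (nat_lit 11))
    (@En.n l1722 (nat_lit 13015) (nat_lit 13) (nat_lit 7))
    (@En.i (nat_lit 2657) (nat_lit 14) (nat_lit 7))
    (@En.n l50 (nat_lit 13744) (nat_lit 14) (nat_lit 2))
    (@En.n l7 (nat_lit 13744) (nat_lit 15) (nat_lit 2))))
  (@Cl.mk (nat_lit 0x2000200070007000c000b0009000e000400020005000900090007000e000e) (nat_lit 0x566700071023) (nat_lit 16) Lb.e (@T16.mk En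
    (@En.n l5 (nat_lit 13745) (nat_lit 1) (nat_lit 14))
    (@En.n l1643 (nat_lit 4673) (nat_lit 11) (nat_lit 14))
    (@En.n l12008 (nat_lit 13723) (nat_lit 2) (nat_lit 7))
    (@En.n l12009 (nat_lit 12854) (nat_lit 3) (nat_lit 9))
    (@En.i (nat_lit 13908) (nat_lit 4) (nat_lit 9))
    (@En.n l12010 (nat_lit 13746) (nat_lit 5) (nat_lit 5))
    (@En.n l28 (nat_lit 13745) (nat_lit 6) (nat_lit 2))
    (@En.n l12011 (nat_lit 13007) (nat_lit 7) (nat_lit 4))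
    (@En.n l4758 (nat_lit 13700) (nat_lit 9) (nat_lit 14))
    (@En.n l12012 (nat_lit 13690) (nat_lit 10) (nat_lit 9))
    (@En.n l12013 (nat_lit 13008) (nat_lit 11) (nat_lit 11))
    (@En.n l1643 (nat_lit 14034) (nat_lit 12) (nat_lit 12))
    (@En.n l12014 (nat_lit 13014) (nat_lit 13) (nat_lit 7))
    (@En.i (nat_lit 2656) (nat_lit 6) (nat_lit 7))
    (@En.n l17 (nat_lit 13745) (nat_lit 14) (nat_lit 2))
    (@En.n l18 (nat_lit 13745) (nat_lit 15) (nat_lit 2))))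
  (@Cl.mk (nat_lit 0x2000200070007000b000b000e000a000200050005000900090006000e000e) (nat_lit 0x455700034078) (nat_lit 16) Lb.e (@T16.mk En
    (@En.n l601 (nat_lit 13746) (nat_lit 1) (nat_lit 14))
    (@En.i (nat_lit 3369) (nat_lit 10) (nat_lit 14))
    (@En.n l5466 (nat_lit 13912) (nat_lit 2) (nat_lit 6))
    (@En.n l5467 (nat_lit 13750) (nat_lit 3) (nat_lit 9))
    (@En.n l5466 (nat_lit 14023) (nat_lit 4) (nat_lit 9))
    (@En.n l5468 (nat_lit 13748) (nat_lit 5) (nat_lit 5))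
    (@En.n l5469 (nat_lit 13744) (nat_lit 6) (nat_lit 5))
    (@En.n l17 (nat_lit 13746) (nat_lit 7) (nat_lit 2))
    (@En.n l5470 (nat_lit 13751) (nat_lit 9) (nat_lit 10))
    (@En.n l476 (nat_lit 13747) (nat_lit 10) (nat_lit 14))
    (@En.n l152 (nat_lit 13747) (nat_lit 11) (nat_lit 11))
    (@En.n l2032 (nat_lit 13267) (nat_lit 12) (nat_lit 11))
    (@En.n l575 (nat_lit 13749) (nat_lit 13) (nat_lit 7))
    (@En.n l5471 (nat_lit 2529) (nat_lit 5) (nat_lit 7))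
    (@En.n l50 (nat_lit 13746) (nat_lit 14) (nat_lit 2))
    (@En.n l7 (nat_lit 13746) (nat_lit 15) (nat_lit 2))))
  (@Cl.mk (nat_lit 0x2000200070007000b000e00090002000e00050002000900090007000e000e) (nat_lit 0x446080046089) (nat_lit 16) Lb.e (@T16.mk En
    (@En.n l601 (nat_lit 13747) (nat_lit 1) (nat_lit 14))
    (@En.i (nat_lit 3375) (nat_lit 12) (nat_lit 14))
    (@En.n l7683 (nat_lit 13913) (nat_lit 2) (nat_lit 7))
    (@En.n l13113 (nat_lit 13752) (nat_lit 3) (nat_lit 9))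
    (@En.n l10284 (nat_lit 14022) (nat_lit 4) (nat_lit 9))
    (@En.n l3 (nat_lit 13747) (nat_lit 5) (nat_lit 2))
    (@En.i (nat_lit 13746) (nat_lit 6) (nat_lit 5))
    (@En.n l13114 (nat_lit 13745) (nat_lit 8) (nat_lit 14))
    (@En.n l17 (nat_lit 13747) (nat_lit 8) (nat_lit 2))
    (@En.n l13115 (nat_lit 13756) (nat_lit 10) (nat_lit 9))
    (@En.n l10275 (nat_lit 14083) (nat_lit 11) (nat_lit 14))
    (@En.n l2032 (nat_lit 13265) (nat_lit 12) (nat_lit 11))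
    (@En.n l575 (nat_lit 13755) (nat_lit 13) (nat_lit 7))
    (@En.n l3339 (nat_lit 2528) (nat_lit 14) (nat_lit 7))
    (@En.n l50 (nat_lit 13747) (nat_lit 14) (nat_lit 2))
    (@En.n l7 (nat_lit 13747) (nat_lit 15) (nat_lit 2))))
  (@Cl.mk (nat_lit 0x2000200070007000e000b0002000e000b00020005000900090005000e000e) (nat_lit 0x4506800440bc) (nat_lit 16) Lb.e (@T16.mk En
    (@En.n l164 (nat_lit 13748) (nat_lit 1) (nat_lit 14))
    (@En.n l4011 (nat_lit 3368) (nat_lit 11) (nat_lit 14))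
    (@En.n l313 (nat_lit 13911) (nat_lit 2) (nat_lit 5))
    (@En.n l5215 (nat_lit 13753) (nat_lit 3) (nat_lit 9))
    (@En.n l387 (nat_lit 14028) (nat_lit 4) (nat_lit 9))
    (@En.n l170 (nat_lit 13700) (nat_lit 5) (nat_lit 5))
    (@En.n l3 (nat_lit 13748) (nat_lit 6) (nat_lit 2))
    (@En.n l4072 (nat_lit 13901) (nat_lit 8) (nat_lit 11))
    (@En.n l5216 (nat_lit 13746) (nat_lit 9) (nat_lit 14))
    (@En.n l18 (nat_lit 13748) (nat_lit 9) (nat_lit 2))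
    (@En.n l5217 (nat_lit 13746) (nat_lit 11) (nat_lit 11))
    (@En.n l170 (nat_lit 12963) (nat_lit 12) (nat_lit 14))
    (@En.n l804 (nat_lit 13754) (nat_lit 13) (nat_lit 7))
    (@En.i (nat_lit 3356) (nat_lit 6) (nat_lit 7))
    (@En.n l172 (nat_lit 13748) (nat_lit 14) (nat_lit 2))
    (@En.n l28 (nat_lit 13748) (nat_lit 15) (nat_lit 2))))
  (@Cl.mk (nat_lit 0x200020007000b000b000e0009000200050005000e000900020007000e000e) (nat_lit 0x4537000a40023) (nat_lit 16) Lb.e (@T16.mk En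
    (@En.n l601 (nat_lit 13749) (nat_lit 1) (nat_lit 14))
    (@En.i (nat_lit 3378) (nat_lit 9) (nat_lit 14))
    (@En.n l5276 (nat_lit 13608) (nat_lit 2) (nat_lit 7))
    (@En.n l11 (nat_lit 13749) (nat_lit 3) (nat_lit 2))
    (@En.i (nat_lit 13746) (nat_lit 4) (nat_lit 9))
    (@En.n l619 (nat_lit 12904) (nat_lit 6) (nat_lit 14))
    (@En.n l2870 (nat_lit 13754) (nat_lit 6) (nat_lit 5))
    (@En.n l899 (nat_lit 13015) (nat_lit 7) (nat_lit 5))
    (@En.n l17 (nat_lit 13749) (nat_lit 8) (nat_lit 2))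
    (@En.n l5277 (nat_lit 13757) (nat_lit 10) (nat_lit 9))
    (@En.n l476 (nat_lit 13755) (nat_lit 11) (nat_lit 14))
    (@En.n l152 (nat_lit 13755) (nat_lit 12) (nat_lit 11))
    (@En.n l4817 (nat_lit 13354) (nat_lit 13) (nat_lit 11))
    (@En.n l476 (nat_lit 2059) (nat_lit 4) (nat_lit 7))
    (@En.n l50 (nat_lit 13749) (nat_lit 14) (nat_lit 2))
    (@En.n l7 (nat_lit 13749) (nat_lit 15) (nat_lit 2))))
  (@Cl.mk (nat_lit 0x20002000e00070002000b000b000e000b00020005000500090005000e000e) (nat_lit 0xa0066790003067) (nat_lit 16) Lb.e (@T16.mk En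
    (@En.n l5 (nat_lit 13750) (nat_lit 1) (nat_lit 14))
    (@En.n l125 (nat_lit 3383) (nat_lit 11) (nat_lit 14))
    (@En.n l1824 (nat_lit 13000) (nat_lit 2) (nat_lit 5))
    (@En.n l1825 (nat_lit 14026) (nat_lit 3) (nat_lit 9))
    (@En.n l1826 (nat_lit 13753) (nat_lit 4) (nat_lit 5))
    (@En.i (nat_lit 12850) (nat_lit 5) (nat_lit 5))
    (@En.n l8 (nat_lit 13750) (nat_lit 6) (nat_lit 2))
    (@En.n l1827 (nat_lit 12829) (nat_lit 8) (nat_lit 11))
    (@En.n l1828 (nat_lit 13752) (nat_lit 9) (nat_lit 14))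
    (@En.n l1829 (nat_lit 13752) (nat_lit 10) (nat_lit 11))
    (@En.i (nat_lit 13219) (nat_lit 11) (nat_lit 11))
    (@En.n l3 (nat_lit 13750) (nat_lit 11) (nat_lit 2))
    (@En.n l1830 (nat_lit 13746) (nat_lit 13) (nat_lit 7))
    (@En.i (nat_lit 2632) (nat_lit 7) (nat_lit 14))
    (@En.n l17 (nat_lit 13750) (nat_lit 14) (nat_lit 2))
    (@En.n l18 (nat_lit 13750) (nat_lit 15) (nat_lit 2))))
  (@Cl.mk (nat_lit 0x2000200080008000c000c000a000a000400040008000800060006000e000e) (nat_lit 0x344667004100bc) (nat_lit 16) Lb.e (@T16.mk En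
    (@En.n l97 (nat_lit 13751) (nat_lit 1) (nat_lit 14))
    (@En.n l3348 (nat_lit 3995) (nat_lit 1) (nat_lit 14))
    (@En.n l13598 (nat_lit 13746) (nat_lit 2) (nat_lit 6))
    (@En.n l13599 (nat_lit 13905) (nat_lit 3) (nat_lit 6))
    (@En.n l252 (nat_lit 12829) (nat_lit 4) (nat_lit 8))
    (@En.n l245 (nat_lit 14005) (nat_lit 5) (nat_lit 8))
    (@En.n l50 (nat_lit 13901) (nat_lit 6) (nat_lit 4))
    (@En.n l13600 (nat_lit 13783) (nat_lit 7) (nat_lit 4))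
    (@En.n l61 (nat_lit 13762) (nat_lit 9) (nat_lit 10))
    (@En.n l12658 (nat_lit 13782) (nat_lit 10) (nat_lit 10))
    (@En.n l13601 (nat_lit 13756) (nat_lit 11) (nat_lit 12))
    (@En.n l13602 (nat_lit 13225) (nat_lit 12) (nat_lit 12))
    (@En.n l13603 (nat_lit 13757) (nat_lit 13) (nat_lit 8))
    (@En.n l1638 (nat_lit 2934) (nat_lit 14) (nat_lit 8))
    (@En.n l107 (nat_lit 13751) (nat_lit 14) (nat_lit 2))
    (@En.n l3 (nat_lit 13751) (nat_lit 15) (nat_lit 2))))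
  (@Cl.mk (nat_lit 0x20002000e00070002000b000e000a0002000e0005000200090006000e000e) (nat_lit 0x10056709005078) (nat_lit 16) Lb.e (@T16.mk En
    (@En.n l5 (nat_lit 13752) (nat_lit 1) (nat_lit 14))
    (@En.n l5027 (nat_lit 3393) (nat_lit 1) (nat_lit 14))
    (@En.i (nat_lit 13001) (nat_lit 2) (nat_lit 6))
    (@En.n l1170 (nat_lit 14009) (nat_lit 3) (nat_lit 9))
    (@En.n l7 (nat_lit 13752) (nat_lit 4) (nat_lit 2))
    (@En.n l5028 (nat_lit 13750) (nat_lit 5) (nat_lit 5))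
    (@En.n l5029 (nat_lit 12854) (nat_lit 7) (nat_lit 14))
    (@En.n l458 (nat_lit 13752) (nat_lit 7) (nat_lit 2))
    (@En.n l1823 (nat_lit 13758) (nat_lit 9) (nat_lit 10))
    (@En.i (nat_lit 14081) (nat_lit 4) (nat_lit 14))
    (@En.n l5030 (nat_lit 13220) (nat_lit 11) (nat_lit 11))
    (@En.n l3 (nat_lit 13752) (nat_lit 11) (nat_lit 2))
    (@En.n l5031 (nat_lit 13747) (nat_lit 13) (nat_lit 7))
    (@En.i (nat_lit 2635) (nat_lit 1) (nat_lit 14))
    (@En.n l17 (nat_lit 13752) (nat_lit 14) (nat_lit 2))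
    (@En.n l18 (nat_lit 13752) (nat_lit 15) (nat_lit 2))))
  (@Cl.mk (nat_lit 0x20002000e00070002000e000b0002000e000c0002000500090004000e000e) (nat_lit 0x9005708900309a) (nat_lit 16) Lb.e (@T16.mk En
    (@En.n l556 (nat_lit 13753) (nat_lit 1) (nat_lit 14))
    (@En.i (nat_lit 3444) (nat_lit 12) (nat_lit 14))
    (@En.n l1803 (nat_lit 14053) (nat_lit 2) (nat_lit 4))
    (@En.n l559 (nat_lit 13077) (nat_lit 3) (nat_lit 9))
    (@En.n l253 (nat_lit 12856) (nat_lit 4) (nat_lit 5))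
    (@En.n l3 (nat_lit 13753) (nat_lit 5) (nat_lit 2))
    (@En.n l1804 (nat_lit 14052) (nat_lit 7) (nat_lit 12))
    (@En.n l1805 (nat_lit 13750) (nat_lit 8) (nat_lit 14))
    (@En.n l18 (nat_lit 13753) (nat_lit 8) (nat_lit 2))
    (@En.n l1806 (nat_lit 13750) (nat_lit 10) (nat_lit 11))
    (@En.n l1805 (nat_lit 13089) (nat_lit 11) (nat_lit 14))
    (@En.n l7 (nat_lit 13753) (nat_lit 11) (nat_lit 2))
    (@En.n l558 (nat_lit 13748) (nat_lit 13) (nat_lit 7))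
    (@En.n l1805 (nat_lit 2631) (nat_lit 8) (nat_lit 14))
    (@En.n l11 (nat_lit 13753) (nat_lit 14) (nat_lit 2))
    (@En.n l207 (nat_lit 13753) (nat_lit 15) (nat_lit 2))))
  (@Cl.mk (nat_lit 0x200020007000e000b0002000e000a00020005000e000900020006000e000e) (nat_lit 0x3504600950023) (nat_lit 16) Lb.e (@T16.mk En
    (@En.n l396 (nat_lit 13754) (nat_lit 1) (nat_lit 14))
    (@En.i (nat_lit 3445) (nat_lit 10) (nat_lit 14))
    (@En.n l2555 (nat_lit 13611) (nat_lit 2) (nat_lit 6))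
    (@En.n l28 (nat_lit 13754) (nat_lit 3) (nat_lit 2))
    (@En.n l2556 (nat_lit 13748) (nat_lit 4) (nat_lit 9))
    (@En.n l862 (nat_lit 12906) (nat_lit 6) (nat_lit 14))
    (@En.n l1011 (nat_lit 13699) (nat_lit 6) (nat_lit 5))
    (@En.n l725 (nat_lit 13754) (nat_lit 7) (nat_lit 2))
    (@En.n l699 (nat_lit 13900) (nat_lit 9) (nat_lit 10))
    (@En.n l1003 (nat_lit 13749) (nat_lit 10) (nat_lit 14))
    (@En.n l3 (nat_lit 13754) (nat_lit 10) (nat_lit 2))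
    (@En.n l1004 (nat_lit 13749) (nat_lit 12) (nat_lit 11))
    (@En.n l699 (nat_lit 12991) (nat_lit 13) (nat_lit 14))
    (@En.n l2556 (nat_lit 2058) (nat_lit 5) (nat_lit 7))
    (@En.n l18 (nat_lit 13754) (nat_lit 14) (nat_lit 2))
    (@En.n l50 (nat_lit 13754) (nat_lit 15) (nat_lit 2))))
  (@Cl.mk (nat_lit 0x200020007000b000e00080002000e00050002000e000900020008000e000e) (nat_lit 0x4240600b503bc) (nat_lit 16) Lb.e (@T16.mk En
    (@En.n l601 (nat_lit 13755) (nat_lit 1) (nat_lit 14))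
    (@En.i (nat_lit 3396) (nat_lit 1) (nat_lit 14))
    (@En.n l2036 (nat_lit 13607) (nat_lit 2) (nat_lit 8))
    (@En.n l11 (nat_lit 13755) (nat_lit 3) (nat_lit 2))
    (@En.i (nat_lit 13747) (nat_lit 4) (nat_lit 9))
    (@En.i (nat_lit 12899) (nat_lit 6) (nat_lit 14))
    (@En.n l3 (nat_lit 13755) (nat_lit 6) (nat_lit 2))
    (@En.i (nat_lit 13749) (nat_lit 7) (nat_lit 5))
    (@En.i (nat_lit 13014) (nat_lit 9) (nat_lit 14))
    (@En.n l17 (nat_lit 13755) (nat_lit 9) (nat_lit 2))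
    (@En.n l5553 (nat_lit 13772) (nat_lit 11) (nat_lit 8))
    (@En.n l2036 (nat_lit 14082) (nat_lit 12) (nat_lit 14))
    (@En.i (nat_lit 13353) (nat_lit 13) (nat_lit 11))
    (@En.i (nat_lit 2062) (nat_lit 14) (nat_lit 7))
    (@En.n l50 (nat_lit 13755) (nat_lit 14) (nat_lit 2))
    (@En.n l7 (nat_lit 13755) (nat_lit 15) (nat_lit 2))))
  (@Cl.mk (nat_lit 0x2000200080008000c00090009000e000400020008000800070007000e000e) (nat_lit 0x32556700550045) (nat_lit 16) Lb.e (@T16.mk En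
    (@En.n l5 (nat_lit 13756) (nat_lit 1) (nat_lit 14))
    (@En.n l1643 (nat_lit 3988) (nat_lit 11) (nat_lit 14))
    (@En.n l25839 (nat_lit 13747) (nat_lit 2) (nat_lit 7))
    (@En.n l527 (nat_lit 13907) (nat_lit 3) (nat_lit 7))
    (@En.n l13819 (nat_lit 13758) (nat_lit 4) (nat_lit 8))
    (@En.n l4756 (nat_lit 14020) (nat_lit 5) (nat_lit 8))
    (@En.n l28 (nat_lit 13756) (nat_lit 6) (nat_lit 2))
    (@En.n l11942 (nat_lit 13751) (nat_lit 7) (nat_lit 4))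
    (@En.n l4758 (nat_lit 13690) (nat_lit 9) (nat_lit 14))
    (@En.n l18888 (nat_lit 13761) (nat_lit 10) (nat_lit 9))
    (@En.n l17207 (nat_lit 13387) (nat_lit 11) (nat_lit 9))
    (@En.n l25840 (nat_lit 13297) (nat_lit 12) (nat_lit 12))
    (@En.n l13244 (nat_lit 13772) (nat_lit 13) (nat_lit 8))
    (@En.i (nat_lit 2935) (nat_lit 14) (nat_lit 8))
    (@En.n l17 (nat_lit 13756) (nat_lit 14) (nat_lit 2))
    (@En.n l18 (nat_lit 13756) (nat_lit 15) (nat_lit 2))))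
  (@Cl.mk (nat_lit 0x200020008000c000c0009000900040004000e0008000200070007000e000e) (nat_lit 0x33366009500034) (nat_lit 16) Lb.e (@T16.mk En
    (@En.n l1578 (nat_lit 13757) (nat_lit 1) (nat_lit 14))
    (@En.i (nat_lit 3994) (nat_lit 13) (nat_lit 14))
    (@En.n l12156 (nat_lit 13749) (nat_lit 2) (nat_lit 7))
    (@En.i (nat_lit 13490) (nat_lit 3) (nat_lit 7))
    (@En.n l3 (nat_lit 13757) (nat_lit 4) (nat_lit 2))
    (@En.n l12157 (nat_lit 13751) (nat_lit 5) (nat_lit 8))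
    (@En.n l12158 (nat_lit 12902) (nat_lit 7) (nat_lit 14))
    (@En.n l12159 (nat_lit 13900) (nat_lit 7) (nat_lit 4))
    (@En.i (nat_lit 13773) (nat_lit 8) (nat_lit 4))
    (@En.n l2769 (nat_lit 13765) (nat_lit 10) (nat_lit 9))
    (@En.n l742 (nat_lit 13777) (nat_lit 11) (nat_lit 9))
    (@En.n l12160 (nat_lit 13772) (nat_lit 12) (nat_lit 12))
    (@En.n l2773 (nat_lit 13150) (nat_lit 13) (nat_lit 12))
    (@En.n l5911 (nat_lit 2055) (nat_lit 14) (nat_lit 8))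
    (@En.n l28 (nat_lit 13757) (nat_lit 14) (nat_lit 2))
    (@En.n l11 (nat_lit 13757) (nat_lit 15) (nat_lit 2))))
  (@Cl.mk (nat_lit 0x20002000e00080002000c000a000a000e00040002000800060006000e000e) (nat_lit 0x14066890040067) (nat_lit 16) Lb.e (@T16.mk En
    (@En.n l97 (nat_lit 13758) (nat_lit 1) (nat_lit 14))
    (@En.i (nat_lit 4826) (nat_lit 12) (nat_lit 14))
    (@En.n l12441 (nat_lit 13752) (nat_lit 2) (nat_lit 6))
    (@En.i (nat_lit 14097) (nat_lit 3) (nat_lit 6))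
    (@En.n l1935 (nat_lit 13407) (nat_lit 4) (nat_lit 8))
    (@En.n l18 (nat_lit 13758) (nat_lit 5) (nat_lit 2))
    (@En.n l663 (nat_lit 12829) (nat_lit 6) (nat_lit 4))
    (@En.n l12920 (nat_lit 12858) (nat_lit 8) (nat_lit 14))
    (@En.n l2588 (nat_lit 13760) (nat_lit 9) (nat_lit 10))
    (@En.n l12921 (nat_lit 12832) (nat_lit 10) (nat_lit 10))
    (@En.n l5910 (nat_lit 13223) (nat_lit 11) (nat_lit 12))
    (@En.n l28 (nat_lit 13758) (nat_lit 11) (nat_lit 2))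
    (@En.n l12922 (nat_lit 13756) (nat_lit 13) (nat_lit 8))
    (@En.n l12921 (nat_lit 2686) (nat_lit 1) (nat_lit 14))
    (@En.n l107 (nat_lit 13758) (nat_lit 14) (nat_lit 2))
    (@En.n l3 (nat_lit 13758) (nat_lit 15) (nat_lit 2))))
  (@Cl.mk (nat_lit 0x20002000e00090002000d000d000b000300030007000e00050002000e000e) (nat_lit 0x170568000500bc) (nat_lit 16) Lb.e (@T16.mk En
    (@En.n l97 (nat_lit 13759) (nat_lit 1) (nat_lit 14))
    (@En.i (nat_lit 4598) (nat_lit 1) (nat_lit 14))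
    (@En.n l17 (nat_lit 13759) (nat_lit 2) (nat_lit 2))
    (@En.i (nat_lit 12829) (nat_lit 3) (nat_lit 5))
    (@En.i (nat_lit 279) (nat_lit 5) (nat_lit 14))
    (@En.i (nat_lit 13397) (nat_lit 5) (nat_lit 7))
    (@En.n l2593 (nat_lit 13764) (nat_lit 6) (nat_lit 3))
    (@En.i (nat_lit 13760) (nat_lit 7) (nat_lit 3))
    (@En.n l2348 (nat_lit 14051) (nat_lit 9) (nat_lit 11))
    (@En.n l1363 (nat_lit 13760) (nat_lit 10) (nat_lit 13))
    (@En.n l5378 (nat_lit 13176) (nat_lit 11) (nat_lit 13))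
    (@En.n l28 (nat_lit 13759) (nat_lit 11) (nat_lit 2))
    (@En.n l780 (nat_lit 13762) (nat_lit 13) (nat_lit 9))
    (@En.i (nat_lit 2692) (nat_lit 1) (nat_lit 14))
    (@En.n l107 (nat_lit 13759) (nat_lit 14) (nat_lit 2))
    (@En.n l3 (nat_lit 13759) (nat_lit 15) (nat_lit 2))))
noncomputable def a860 : T16 Cl := @T16.mk Cl
  (@Cl.mk (nat_lit 0x20002000e00090002000d000a000e000300020007000e00060002000e000e) (nat_lit 0x27057700040089) (nat_lit 16) Lb.e (@T16.mk En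
    (@En.n l97 (nat_lit 13760) (nat_lit 1) (nat_lit 14))
    (@En.i (nat_lit 4812) (nat_lit 1) (nat_lit 14))
    (@En.n l17 (nat_lit 13760) (nat_lit 2) (nat_lit 2))
    (@En.n l775 (nat_lit 13758) (nat_lit 3) (nat_lit 6))
    (@En.i (nat_lit 278) (nat_lit 5) (nat_lit 14))
    (@En.i (nat_lit 13396) (nat_lit 5) (nat_lit 7))
    (@En.n l776 (nat_lit 13760) (nat_lit 6) (nat_lit 2))
    (@En.n l50 (nat_lit 13759) (nat_lit 7) (nat_lit 3))
    (@En.n l1567 (nat_lit 14055) (nat_lit 0) (nat_lit 14))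
    (@En.n l217 (nat_lit 13771) (nat_lit 10) (nat_lit 10))
    (@En.n l1567 (nat_lit 13180) (nat_lit 11) (nat_lit 13))
    (@En.n l28 (nat_lit 13760) (nat_lit 11) (nat_lit 2))
    (@En.n l1567 (nat_lit 13761) (nat_lit 13) (nat_lit 9))
    (@En.i (nat_lit 2694) (nat_lit 1) (nat_lit 14))
    (@En.n l107 (nat_lit 13760) (nat_lit 14) (nat_lit 2))
    (@En.n l3 (nat_lit 13760) (nat_lit 15) (nat_lit 2))))
  (@Cl.mk (nat_lit 0x2000200090009000d0009000e0003000200070007000e00070002000e000e) (nat_lit 0x634570000700bc) (nat_lit 16) Lb.e (@T16.mk En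
    (@En.n l5 (nat_lit 13761) (nat_lit 1) (nat_lit 14))
    (@En.n l7843 (nat_lit 4686) (nat_lit 1) (nat_lit 14))
    (@En.n l7 (nat_lit 13761) (nat_lit 2) (nat_lit 2))
    (@En.n l7844 (nat_lit 13756) (nat_lit 3) (nat_lit 7))
    (@En.n l10295 (nat_lit 13594) (nat_lit 5) (nat_lit 14))
    (@En.n l13624 (nat_lit 13760) (nat_lit 5) (nat_lit 7))
    (@En.n l1557 (nat_lit 13401) (nat_lit 6) (nat_lit 7))
    (@En.n l107 (nat_lit 13761) (nat_lit 7) (nat_lit 2))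
    (@En.n l13625 (nat_lit 13762) (nat_lit 8) (nat_lit 3))
    (@En.i (nat_lit 13951) (nat_lit 10) (nat_lit 14))
    (@En.n l1562 (nat_lit 13769) (nat_lit 11) (nat_lit 9))
    (@En.i (nat_lit 13299) (nat_lit 12) (nat_lit 13))
    (@En.n l182 (nat_lit 13767) (nat_lit 13) (nat_lit 9))
    (@En.n l4739 (nat_lit 2929) (nat_lit 5) (nat_lit 9))
    (@En.n l17 (nat_lit 13761) (nat_lit 14) (nat_lit 2))
    (@En.n l18 (nat_lit 13761) (nat_lit 15) (nat_lit 2))))
  (@Cl.mk (nat_lit 0x2000200090009000d000d000a0003000300070007000e00060002000e000e) (nat_lit 0x63456000040089) (nat_lit 16) Lb.e (@T16.mk En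
    (@En.n l97 (nat_lit 13762) (nat_lit 1) (nat_lit 14))
    (@En.i (nat_lit 4680) (nat_lit 1) (nat_lit 14))
    (@En.n l17 (nat_lit 13762) (nat_lit 2) (nat_lit 2))
    (@En.i (nat_lit 13751) (nat_lit 3) (nat_lit 6))
    (@En.i (nat_lit 13599) (nat_lit 5) (nat_lit 14))
    (@En.n l252 (nat_lit 13759) (nat_lit 5) (nat_lit 7))
    (@En.n l245 (nat_lit 13400) (nat_lit 6) (nat_lit 7))
    (@En.n l50 (nat_lit 13763) (nat_lit 7) (nat_lit 3))
    (@En.n l4799 (nat_lit 13761) (nat_lit 8) (nat_lit 3))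
    (@En.i (nat_lit 13768) (nat_lit 10) (nat_lit 10))
    (@En.n l12349 (nat_lit 13761) (nat_lit 11) (nat_lit 13))
    (@En.n l5378 (nat_lit 13181) (nat_lit 12) (nat_lit 13))
    (@En.n l1567 (nat_lit 13765) (nat_lit 13) (nat_lit 9))
    (@En.n l1638 (nat_lit 2927) (nat_lit 14) (nat_lit 9))
    (@En.n l107 (nat_lit 13762) (nat_lit 14) (nat_lit 2))
    (@En.n l3 (nat_lit 13762) (nat_lit 15) (nat_lit 2))))
  (@Cl.mk (nat_lit 0x2000200090009000e000d0002000b000300070007000e00050002000e000e) (nat_lit 0x643507000200bc) (nat_lit 16) Lb.e (@T16.mk En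
    (@En.n l97 (nat_lit 13763) (nat_lit 1) (nat_lit 14))
    (@En.i (nat_lit 4736) (nat_lit 1) (nat_lit 14))
    (@En.n l17 (nat_lit 13763) (nat_lit 2) (nat_lit 2))
    (@En.i (nat_lit 13901) (nat_lit 3) (nat_lit 5))
    (@En.i (nat_lit 13814) (nat_lit 5) (nat_lit 14))
    (@En.n l1722 (nat_lit 13764) (nat_lit 5) (nat_lit 7))
    (@En.i (nat_lit 13427) (nat_lit 6) (nat_lit 7))
    (@En.i (nat_lit 13762) (nat_lit 7) (nat_lit 3))
    (@En.i (nat_lit 13770) (nat_lit 9) (nat_lit 11))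
    (@En.n l7 (nat_lit 13763) (nat_lit 9) (nat_lit 2))
    (@En.n l601 (nat_lit 13762) (nat_lit 11) (nat_lit 13))
    (@En.n l5378 (nat_lit 13174) (nat_lit 12) (nat_lit 14))
    (@En.n l198 (nat_lit 13766) (nat_lit 13) (nat_lit 9))
    (@En.n l1638 (nat_lit 2931) (nat_lit 14) (nat_lit 9))
    (@En.n l107 (nat_lit 13763) (nat_lit 14) (nat_lit 2))
    (@En.n l3 (nat_lit 13763) (nat_lit 15) (nat_lit 2))))
  (@Cl.mk (nat_lit 0x20002000e00090002000e000d0002000c00030007000e00040002000e000e) (nat_lit 0x370460800400bc) (nat_lit 16) Lb.e (@T16.mk En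
    (@En.n l97 (nat_lit 13764) (nat_lit 1) (nat_lit 14))
    (@En.i (nat_lit 4730) (nat_lit 1) (nat_lit 14))
    (@En.n l725 (nat_lit 13764) (nat_lit 2) (nat_lit 2))
    (@En.n l9809 (nat_lit 14052) (nat_lit 3) (nat_lit 4))
    (@En.i (nat_lit 282) (nat_lit 5) (nat_lit 14))
    (@En.i (nat_lit 13075) (nat_lit 5) (nat_lit 7))
    (@En.n l1353 (nat_lit 13759) (nat_lit 6) (nat_lit 3))
    (@En.i (nat_lit 14048) (nat_lit 8) (nat_lit 12))
    (@En.n l50 (nat_lit 13764) (nat_lit 8) (nat_lit 2))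
    (@En.n l564 (nat_lit 13759) (nat_lit 10) (nat_lit 13))
    (@En.n l2031 (nat_lit 13172) (nat_lit 11) (nat_lit 14))
    (@En.n l28 (nat_lit 13764) (nat_lit 11) (nat_lit 2))
    (@En.n l287 (nat_lit 13763) (nat_lit 13) (nat_lit 9))
    (@En.n l2036 (nat_lit 2711) (nat_lit 1) (nat_lit 14))
    (@En.n l107 (nat_lit 13764) (nat_lit 14) (nat_lit 2))
    (@En.n l3 (nat_lit 13764) (nat_lit 15) (nat_lit 2))))
  (@Cl.mk (nat_lit 0x200020009000d000d000900030003000e00070002000e00070002000e000e) (nat_lit 0x23450080030045) (nat_lit 16) Lb.e (@T16.mk En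
    (@En.n l5 (nat_lit 13765) (nat_lit 1) (nat_lit 14))
    (@En.n l4579 (nat_lit 4687) (nat_lit 1) (nat_lit 14))
    (@En.n l7 (nat_lit 13765) (nat_lit 2) (nat_lit 2))
    (@En.n l8100 (nat_lit 13757) (nat_lit 3) (nat_lit 7))
    (@En.n l12344 (nat_lit 13602) (nat_lit 5) (nat_lit 14))
    (@En.n l11 (nat_lit 13765) (nat_lit 5) (nat_lit 2))
    (@En.n l12344 (nat_lit 13762) (nat_lit 6) (nat_lit 7))
    (@En.n l182 (nat_lit 12901) (nat_lit 8) (nat_lit 14))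
    (@En.n l12345 (nat_lit 13766) (nat_lit 8) (nat_lit 3))
    (@En.i (nat_lit 13767) (nat_lit 9) (nat_lit 3))
    (@En.n l3090 (nat_lit 13711) (nat_lit 11) (nat_lit 9))
    (@En.n l1492 (nat_lit 13767) (nat_lit 12) (nat_lit 13))
    (@En.i (nat_lit 13211) (nat_lit 13) (nat_lit 13))
    (@En.n l7217 (nat_lit 2047) (nat_lit 14) (nat_lit 9))
    (@En.n l17 (nat_lit 13765) (nat_lit 14) (nat_lit 2))
    (@En.n l18 (nat_lit 13765) (nat_lit 15) (nat_lit 2))))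
  (@Cl.mk (nat_lit 0x200020009000e000d0002000a0003000e00070002000e00060002000e000e) (nat_lit 0x32406070040089) (nat_lit 16) Lb.e (@T16.mk En
    (@En.n l97 (nat_lit 13766) (nat_lit 1) (nat_lit 14))
    (@En.n l1776 (nat_lit 4788) (nat_lit 1) (nat_lit 14))
    (@En.n l17 (nat_lit 13766) (nat_lit 2) (nat_lit 2))
    (@En.n l11774 (nat_lit 13900) (nat_lit 3) (nat_lit 6))
    (@En.i (nat_lit 13649) (nat_lit 5) (nat_lit 14))
    (@En.n l207 (nat_lit 13766) (nat_lit 5) (nat_lit 2))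
    (@En.i (nat_lit 13763) (nat_lit 6) (nat_lit 7))
    (@En.n l207 (nat_lit 14080) (nat_lit 8) (nat_lit 14))
    (@En.n l1810 (nat_lit 13765) (nat_lit 8) (nat_lit 3))
    (@En.n l17708 (nat_lit 14043) (nat_lit 10) (nat_lit 10))
    (@En.n l7 (nat_lit 13766) (nat_lit 10) (nat_lit 2))
    (@En.n l17709 (nat_lit 13765) (nat_lit 12) (nat_lit 13))
    (@En.n l532 (nat_lit 12844) (nat_lit 13) (nat_lit 14))
    (@En.n l17710 (nat_lit 2054) (nat_lit 2) (nat_lit 9))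
    (@En.n l107 (nat_lit 13766) (nat_lit 14) (nat_lit 2))
    (@En.n l3 (nat_lit 13766) (nat_lit 15) (nat_lit 2))))
  (@Cl.mk (nat_lit 0x200020009000d0008000e00030002000e00070002000e00080002000e000e) (nat_lit 0x234500800340bc) (nat_lit 16) Lb.e (@T16.mk En
    (@En.n l5 (nat_lit 13767) (nat_lit 1) (nat_lit 14))
    (@En.n l4697 (nat_lit 4689) (nat_lit 1) (nat_lit 14))
    (@En.n l7 (nat_lit 13767) (nat_lit 2) (nat_lit 2))
    (@En.i (nat_lit 13772) (nat_lit 3) (nat_lit 8))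
    (@En.n l4698 (nat_lit 13648) (nat_lit 5) (nat_lit 14))
    (@En.n l11 (nat_lit 13767) (nat_lit 5) (nat_lit 2))
    (@En.n l4691 (nat_lit 13761) (nat_lit 6) (nat_lit 7))
    (@En.i (nat_lit 12891) (nat_lit 8) (nat_lit 14))
    (@En.n l3 (nat_lit 13767) (nat_lit 8) (nat_lit 2))
    (@En.n l181 (nat_lit 13765) (nat_lit 9) (nat_lit 3))
    (@En.n l1847 (nat_lit 14105) (nat_lit 11) (nat_lit 14))
    (@En.i (nat_lit 13712) (nat_lit 12) (nat_lit 8))
    (@En.n l4697 (nat_lit 13209) (nat_lit 13) (nat_lit 13))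
    (@En.n l1529 (nat_lit 2045) (nat_lit 14) (nat_lit 9))
    (@En.n l17 (nat_lit 13767) (nat_lit 14) (nat_lit 2))
    (@En.n l18 (nat_lit 13767) (nat_lit 15) (nat_lit 2))))
  (@Cl.mk (nat_lit 0x20002000a000a000e000a0002000b00060006000d000600050003000e000e) (nat_lit 0x745506003000ab) (nat_lit 16) Lb.e (@T16.mk En
    (@En.n l97 (nat_lit 13768) (nat_lit 1) (nat_lit 14))
    (@En.i (nat_lit 4849) (nat_lit 1) (nat_lit 14))
    (@En.n l12657 (nat_lit 13710) (nat_lit 2) (nat_lit 3))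
    (@En.i (nat_lit 13763) (nat_lit 3) (nat_lit 5))
    (@En.n l12658 (nat_lit 13782) (nat_lit 4) (nat_lit 6))
    (@En.i (nat_lit 13585) (nat_lit 6) (nat_lit 13))
    (@En.n l2255 (nat_lit 14051) (nat_lit 6) (nat_lit 6))
    (@En.n l245 (nat_lit 13844) (nat_lit 7) (nat_lit 6))
    (@En.n l12659 (nat_lit 14044) (nat_lit 9) (nat_lit 11))
    (@En.n l7 (nat_lit 13768) (nat_lit 9) (nat_lit 2))
    (@En.n l6517 (nat_lit 13715) (nat_lit 11) (nat_lit 10))
    (@En.n l12657 (nat_lit 13642) (nat_lit 12) (nat_lit 14))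
    (@En.n l12660 (nat_lit 13711) (nat_lit 13) (nat_lit 10))
    (@En.n l1638 (nat_lit 1704) (nat_lit 3) (nat_lit 10))
    (@En.n l107 (nat_lit 13768) (nat_lit 14) (nat_lit 2))
    (@En.n l3 (nat_lit 13768) (nat_lit 15) (nat_lit 2))))
  (@Cl.mk (nat_lit 0x20002000a000a0009000e000a000200060006000d000700060003000e000e) (nat_lit 0x244660005000ab) (nat_lit 16) Lb.e (@T16.mk En
    (@En.n l97 (nat_lit 13769) (nat_lit 1) (nat_lit 14))
    (@En.i (nat_lit 4815) (nat_lit 1) (nat_lit 14))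
    (@En.n l797 (nat_lit 13770) (nat_lit 2) (nat_lit 3))
    (@En.n l2195 (nat_lit 13762) (nat_lit 3) (nat_lit 6))
    (@En.n l4884 (nat_lit 13387) (nat_lit 4) (nat_lit 7))
    (@En.n l2195 (nat_lit 13584) (nat_lit 6) (nat_lit 13))
    (@En.n l55 (nat_lit 13771) (nat_lit 6) (nat_lit 6))
    (@En.i (nat_lit 13879) (nat_lit 7) (nat_lit 6))
    (@En.n l2196 (nat_lit 13769) (nat_lit 8) (nat_lit 2))
    (@En.n l2197 (nat_lit 13715) (nat_lit 10) (nat_lit 10))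
    (@En.n l4885 (nat_lit 13710) (nat_lit 11) (nat_lit 14))
    (@En.n l4886 (nat_lit 13964) (nat_lit 12) (nat_lit 9))
    (@En.n l1526 (nat_lit 13712) (nat_lit 13) (nat_lit 10))
    (@En.n l4887 (nat_lit 1732) (nat_lit 4) (nat_lit 10))
    (@En.n l107 (nat_lit 13769) (nat_lit 14) (nat_lit 2))
    (@En.n l3 (nat_lit 13769) (nat_lit 15) (nat_lit 2))))
  (@Cl.mk (nat_lit 0x20002000a000a0008000e000b000200060006000d000500080003000e000e) (nat_lit 0x225660005020ab) (nat_lit 16) Lb.e (@T16.mk En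
    (@En.n l97 (nat_lit 13770) (nat_lit 1) (nat_lit 14))
    (@En.i (nat_lit 5932) (nat_lit 1) (nat_lit 14))
    (@En.n l992 (nat_lit 13769) (nat_lit 2) (nat_lit 3))
    (@En.n l5378 (nat_lit 14083) (nat_lit 10) (nat_lit 8))
    (@En.n l11774 (nat_lit 13787) (nat_lit 4) (nat_lit 5))
    (@En.i (nat_lit 13579) (nat_lit 6) (nat_lit 13))
    (@En.n l1722 (nat_lit 14048) (nat_lit 6) (nat_lit 6))
    (@En.n l1388 (nat_lit 13306) (nat_lit 7) (nat_lit 6))
    (@En.n l50 (nat_lit 13770) (nat_lit 8) (nat_lit 2))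
    (@En.n l11953 (nat_lit 14044) (nat_lit 10) (nat_lit 11))
    (@En.n l601 (nat_lit 13768) (nat_lit 11) (nat_lit 14))
    (@En.n l11954 (nat_lit 13091) (nat_lit 12) (nat_lit 8))
    (@En.n l4463 (nat_lit 14043) (nat_lit 13) (nat_lit 10))
    (@En.n l1638 (nat_lit 1707) (nat_lit 4) (nat_lit 10))
    (@En.n l107 (nat_lit 13770) (nat_lit 14) (nat_lit 2))
    (@En.n l3 (nat_lit 13770) (nat_lit 15) (nat_lit 2))))
  (@Cl.mk (nat_lit 0x20002000e000a0002000a000e000b00020006000d000600050003000e000e) (nat_lit 0x130657003000ab) (nat_lit 16) Lb.e (@T16.mk En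
    (@En.n l97 (nat_lit 13771) (nat_lit 1) (nat_lit 14))
    (@En.i (nat_lit 4813) (nat_lit 1) (nat_lit 14))
    (@En.n l6147 (nat_lit 14048) (nat_lit 2) (nat_lit 3))
    (@En.n l18 (nat_lit 13759) (nat_lit 3) (nat_lit 5))
    (@En.n l4884 (nat_lit 12832) (nat_lit 4) (nat_lit 6))
    (@En.i (nat_lit 258) (nat_lit 6) (nat_lit 13))
    (@En.i (nat_lit 13993) (nat_lit 6) (nat_lit 6))
    (@En.n l2196 (nat_lit 13771) (nat_lit 7) (nat_lit 2))
    (@En.n l2197 (nat_lit 14049) (nat_lit 9) (nat_lit 11))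
    (@En.i (nat_lit 14054) (nat_lit 10) (nat_lit 14))
    (@En.n l5205 (nat_lit 12866) (nat_lit 11) (nat_lit 10))
    (@En.n l28 (nat_lit 13771) (nat_lit 11) (nat_lit 2))
    (@En.i (nat_lit 13769) (nat_lit 13) (nat_lit 10))
    (@En.n l5395 (nat_lit 1244) (nat_lit 1) (nat_lit 14))
    (@En.n l107 (nat_lit 13771) (nat_lit 14) (nat_lit 2))
    (@En.n l3 (nat_lit 13771) (nat_lit 15) (nat_lit 2))))
  (@Cl.mk (nat_lit 0x200020008000c00080008000e00040002000e0008000200080008000e000e) (nat_lit 0x1235b008603456) (nat_lit 16) Lb.e (@T16.mk En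
    (@En.n l5 (nat_lit 13772) (nat_lit 1) (nat_lit 14))
    (@En.n l420 (nat_lit 3993) (nat_lit 13) (nat_lit 14))
    (@En.n l2110 (nat_lit 13755) (nat_lit 2) (nat_lit 8))
    (@En.n l7557 (nat_lit 13484) (nat_lit 3) (nat_lit 8))
    (@En.n l11 (nat_lit 13772) (nat_lit 4) (nat_lit 2))
    (@En.n l25834 (nat_lit 13756) (nat_lit 5) (nat_lit 8))
    (@En.i (nat_lit 12893) (nat_lit 7) (nat_lit 14))
    (@En.n l3 (nat_lit 13772) (nat_lit 7) (nat_lit 2))
    (@En.n l25835 (nat_lit 13757) (nat_lit 8) (nat_lit 4))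
    (@En.n l420 (nat_lit 13694) (nat_lit 10) (nat_lit 14))
    (@En.n l77 (nat_lit 13767) (nat_lit 11) (nat_lit 8))
    (@En.n l4869 (nat_lit 13386) (nat_lit 12) (nat_lit 8))
    (@En.n l1527 (nat_lit 13152) (nat_lit 13) (nat_lit 12))
    (@En.n l4674 (nat_lit 2051) (nat_lit 14) (nat_lit 8))
    (@En.n l17 (nat_lit 13772) (nat_lit 14) (nat_lit 2))
    (@En.n l18 (nat_lit 13772) (nat_lit 15) (nat_lit 2))))
  (@Cl.mk (nat_lit 0x200020008000c0007000d000a00040003000e0008000200060009000e000e) (nat_lit 0x21067009500145) (nat_lit 16) Lb.e (@T16.mk En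
    (@En.n l1578 (nat_lit 13773) (nat_lit 1) (nat_lit 14))
    (@En.i (nat_lit 5547) (nat_lit 13) (nat_lit 14))
    (@En.n l2773 (nat_lit 13013) (nat_lit 2) (nat_lit 9))
    (@En.i (nat_lit 14040) (nat_lit 3) (nat_lit 6))
    (@En.n l3 (nat_lit 13773) (nat_lit 4) (nat_lit 2))
    (@En.i (nat_lit 13783) (nat_lit 5) (nat_lit 8))
    (@En.i (nat_lit 12926) (nat_lit 7) (nat_lit 14))
    (@En.n l18 (nat_lit 13775) (nat_lit 7) (nat_lit 3))
    (@En.n l13709 (nat_lit 13772) (nat_lit 8) (nat_lit 4))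
    (@En.n l61 (nat_lit 13774) (nat_lit 10) (nat_lit 10))
    (@En.n l1353 (nat_lit 13693) (nat_lit 11) (nat_lit 13))
    (@En.n l2773 (nat_lit 13780) (nat_lit 12) (nat_lit 7))
    (@En.n l2544 (nat_lit 659) (nat_lit 13) (nat_lit 12))
    (@En.i (nat_lit 2579) (nat_lit 14) (nat_lit 8))
    (@En.n l28 (nat_lit 13773) (nat_lit 14) (nat_lit 2))
    (@En.n l11 (nat_lit 13773) (nat_lit 15) (nat_lit 2))))
  (@Cl.mk (nat_lit 0x200020009000d0007000a0003000b000e00070002000600050009000e000e) (nat_lit 0x21060880000267) (nat_lit 16) Lb.e (@T16.mk En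
    (@En.n l1578 (nat_lit 13774) (nat_lit 1) (nat_lit 14))
    (@En.i (nat_lit 5546) (nat_lit 12) (nat_lit 14))
    (@En.n l617 (nat_lit 13773) (nat_lit 2) (nat_lit 9))
    (@En.n l17 (nat_lit 13775) (nat_lit 3) (nat_lit 5))
    (@En.i (nat_lit 13979) (nat_lit 4) (nat_lit 6))
    (@En.n l3 (nat_lit 13774) (nat_lit 5) (nat_lit 2))
    (@En.n l5646 (nat_lit 13781) (nat_lit 6) (nat_lit 7))
    (@En.i (nat_lit 12928) (nat_lit 8) (nat_lit 14))
    (@En.i (nat_lit 13247) (nat_lit 9) (nat_lit 11))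
    (@En.i (nat_lit 13777) (nat_lit 9) (nat_lit 3))
    (@En.n l7507 (nat_lit 14080) (nat_lit 11) (nat_lit 10))
    (@En.n l7471 (nat_lit 13779) (nat_lit 12) (nat_lit 7))
    (@En.n l2544 (nat_lit 284) (nat_lit 13) (nat_lit 13))
    (@En.i (nat_lit 2581) (nat_lit 14) (nat_lit 9))
    (@En.n l28 (nat_lit 13774) (nat_lit 14) (nat_lit 2))
    (@En.n l11 (nat_lit 13774) (nat_lit 15) (nat_lit 2))))
  (@Cl.mk (nat_lit 0x200020008000d0007000d0003000b0003000e0008000200050009000e000e) (nat_lit 0x22050709500145) (nat_lit 16) Lb.e (@T16.mk En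
    (@En.n l1578 (nat_lit 13775) (nat_lit 1) (nat_lit 14))
    (@En.i (nat_lit 5542) (nat_lit 13) (nat_lit 14))
    (@En.n l617 (nat_lit 13009) (nat_lit 2) (nat_lit 9))
    (@En.i (nat_lit 13957) (nat_lit 3) (nat_lit 5))
    (@En.n l3 (nat_lit 13775) (nat_lit 4) (nat_lit 2))
    (@En.i (nat_lit 13784) (nat_lit 5) (nat_lit 8))
    (@En.i (nat_lit 13774) (nat_lit 7) (nat_lit 14))
    (@En.i (nat_lit 13773) (nat_lit 7) (nat_lit 3))
    (@En.i (nat_lit 13249) (nat_lit 9) (nat_lit 11))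
    (@En.i (nat_lit 13776) (nat_lit 9) (nat_lit 3))
    (@En.i (nat_lit 13695) (nat_lit 11) (nat_lit 13))
    (@En.n l7471 (nat_lit 13778) (nat_lit 12) (nat_lit 7))
    (@En.n l2544 (nat_lit 13564) (nat_lit 13) (nat_lit 13))
    (@En.i (nat_lit 2578) (nat_lit 14) (nat_lit 8))
    (@En.n l28 (nat_lit 13775) (nat_lit 14) (nat_lit 2))
    (@En.n l11 (nat_lit 13775) (nat_lit 15) (nat_lit 2))))
noncomputable def a861 : T16 Cl := @T16.mk Cl
  (@Cl.mk (nat_lit 0x200020008000d000c00080003000b0004000e0008000200050008000e000e) (nat_lit 0x3324070a400545) (nat_lit 16) Lb.e (@T16.mk En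
    (@En.n l1578 (nat_lit 13776) (nat_lit 1) (nat_lit 14))
    (@En.i (nat_lit 5541) (nat_lit 13) (nat_lit 14))
    (@En.n l2039 (nat_lit 13014) (nat_lit 2) (nat_lit 8))
    (@En.i (nat_lit 13839) (nat_lit 3) (nat_lit 5))
    (@En.n l3 (nat_lit 13776) (nat_lit 4) (nat_lit 2))
    (@En.i (nat_lit 13786) (nat_lit 5) (nat_lit 8))
    (@En.i (nat_lit 13777) (nat_lit 7) (nat_lit 14))
    (@En.n l50 (nat_lit 13757) (nat_lit 7) (nat_lit 4))
    (@En.n l250 (nat_lit 13778) (nat_lit 9) (nat_lit 11))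
    (@En.n l50 (nat_lit 13775) (nat_lit 9) (nat_lit 3))
    (@En.i (nat_lit 13707) (nat_lit 11) (nat_lit 8))
    (@En.n l217 (nat_lit 13773) (nat_lit 12) (nat_lit 12))
    (@En.n l2544 (nat_lit 13147) (nat_lit 13) (nat_lit 13))
    (@En.i (nat_lit 2580) (nat_lit 14) (nat_lit 8))
    (@En.n l28 (nat_lit 13776) (nat_lit 14) (nat_lit 2))
    (@En.n l11 (nat_lit 13776) (nat_lit 15) (nat_lit 2))))
  (@Cl.mk (nat_lit 0x200020009000d000900080003000b000e00070002000700050008000e000e) (nat_lit 0x34540890000545) (nat_lit 16) Lb.e (@T16.mk En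
    (@En.n l1578 (nat_lit 13777) (nat_lit 1) (nat_lit 14))
    (@En.i (nat_lit 5543) (nat_lit 12) (nat_lit 14))
    (@En.n l25441 (nat_lit 13772) (nat_lit 2) (nat_lit 8))
    (@En.n l17 (nat_lit 13776) (nat_lit 3) (nat_lit 5))
    (@En.i (nat_lit 13491) (nat_lit 4) (nat_lit 7))
    (@En.n l3 (nat_lit 13777) (nat_lit 5) (nat_lit 2))
    (@En.n l13076 (nat_lit 13782) (nat_lit 6) (nat_lit 7))
    (@En.n l11857 (nat_lit 12946) (nat_lit 8) (nat_lit 14))
    (@En.n l250 (nat_lit 13779) (nat_lit 9) (nat_lit 11))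
    (@En.n l50 (nat_lit 13774) (nat_lit 9) (nat_lit 3))
    (@En.n l5150 (nat_lit 13708) (nat_lit 11) (nat_lit 8))
    (@En.i (nat_lit 13383) (nat_lit 12) (nat_lit 9))
    (@En.n l5556 (nat_lit 13145) (nat_lit 13) (nat_lit 13))
    (@En.n l3327 (nat_lit 2583) (nat_lit 14) (nat_lit 9))
    (@En.n l28 (nat_lit 13777) (nat_lit 14) (nat_lit 2))
    (@En.n l11 (nat_lit 13777) (nat_lit 15) (nat_lit 2))))
  (@Cl.mk (nat_lit 0x2000200090007000d0008000b0003000e00070002000500090008000e000e) (nat_lit 0x30256090003645) (nat_lit 16) Lb.e (@T16.mk En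
    (@En.n l134 (nat_lit 13778) (nat_lit 1) (nat_lit 14))
    (@En.i (nat_lit 5667) (nat_lit 12) (nat_lit 14))
    (@En.n l3339 (nat_lit 13776) (nat_lit 2) (nat_lit 8))
    (@En.n l3337 (nat_lit 12787) (nat_lit 3) (nat_lit 9))
    (@En.i (nat_lit 13838) (nat_lit 4) (nat_lit 5))
    (@En.n l3 (nat_lit 13778) (nat_lit 5) (nat_lit 2))
    (@En.i (nat_lit 13785) (nat_lit 6) (nat_lit 7))
    (@En.i (nat_lit 13779) (nat_lit 8) (nat_lit 14))
    (@En.n l2199 (nat_lit 13780) (nat_lit 8) (nat_lit 3))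
    (@En.i (nat_lit 13246) (nat_lit 10) (nat_lit 11))
    (@En.n l5592 (nat_lit 12997) (nat_lit 11) (nat_lit 8))
    (@En.n l4021 (nat_lit 13774) (nat_lit 12) (nat_lit 13))
    (@En.i (nat_lit 13801) (nat_lit 13) (nat_lit 7))
    (@En.n l5577 (nat_lit 2582) (nat_lit 14) (nat_lit 9))
    (@En.n l7 (nat_lit 13778) (nat_lit 14) (nat_lit 2))
    (@En.n l28 (nat_lit 13778) (nat_lit 15) (nat_lit 2))))
  (@Cl.mk (nat_lit 0x20002000a0007000a0008000b000e000600020006000500090008000e000e) (nat_lit 0x30357800003656) (nat_lit 16) Lb.e (@T16.mk En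
    (@En.n l134 (nat_lit 13779) (nat_lit 1) (nat_lit 14))
    (@En.i (nat_lit 5669) (nat_lit 11) (nat_lit 14))
    (@En.n l3339 (nat_lit 13777) (nat_lit 2) (nat_lit 8))
    (@En.n l9501 (nat_lit 13780) (nat_lit 3) (nat_lit 9))
    (@En.n l17 (nat_lit 13778) (nat_lit 4) (nat_lit 5))
    (@En.i (nat_lit 13894) (nat_lit 5) (nat_lit 6))
    (@En.n l3 (nat_lit 13779) (nat_lit 6) (nat_lit 2))
    (@En.n l27409 (nat_lit 13788) (nat_lit 7) (nat_lit 6))
    (@En.n l2520 (nat_lit 12937) (nat_lit 9) (nat_lit 14))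
    (@En.n l18538 (nat_lit 13245) (nat_lit 10) (nat_lit 11))
    (@En.n l5595 (nat_lit 13709) (nat_lit 11) (nat_lit 8))
    (@En.n l2520 (nat_lit 13382) (nat_lit 12) (nat_lit 10))
    (@En.i (nat_lit 13596) (nat_lit 13) (nat_lit 7))
    (@En.n l5577 (nat_lit 2585) (nat_lit 14) (nat_lit 10))
    (@En.n l7 (nat_lit 13779) (nat_lit 14) (nat_lit 2))
    (@En.n l28 (nat_lit 13779) (nat_lit 15) (nat_lit 2))))
  (@Cl.mk (nat_lit 0x2000200090007000d000a00090003000e00070002000600090007000e000e) (nat_lit 0x30546080002056) (nat_lit 16) Lb.e (@T16.mk En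
    (@En.n l5 (nat_lit 13780) (nat_lit 1) (nat_lit 14))
    (@En.n l2571 (nat_lit 5668) (nat_lit 12) (nat_lit 14))
    (@En.n l8995 (nat_lit 13757) (nat_lit 2) (nat_lit 7))
    (@En.i (nat_lit 12791) (nat_lit 3) (nat_lit 9))
    (@En.n l253 (nat_lit 13883) (nat_lit 4) (nat_lit 6))
    (@En.n l28 (nat_lit 13780) (nat_lit 5) (nat_lit 2))
    (@En.i (nat_lit 13787) (nat_lit 6) (nat_lit 7))
    (@En.n l253 (nat_lit 12934) (nat_lit 8) (nat_lit 14))
    (@En.n l11610 (nat_lit 13778) (nat_lit 8) (nat_lit 3))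
    (@En.n l1504 (nat_lit 13712) (nat_lit 10) (nat_lit 9))
    (@En.n l5032 (nat_lit 13779) (nat_lit 11) (nat_lit 10))
    (@En.n l18531 (nat_lit 13777) (nat_lit 12) (nat_lit 13))
    (@En.i (nat_lit 13800) (nat_lit 13) (nat_lit 7))
    (@En.n l8995 (nat_lit 2584) (nat_lit 14) (nat_lit 9))
    (@En.n l17 (nat_lit 13780) (nat_lit 14) (nat_lit 2))
    (@En.n l18 (nat_lit 13780) (nat_lit 15) (nat_lit 2))))
  (@Cl.mk (nat_lit 0x2000200090009000d0008000b0003000c00070007000500040008000e000e) (nat_lit 0x13257080000456) (nat_lit 16) Lb.e (@T16.mk En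
    (@En.n l134 (nat_lit 13781) (nat_lit 1) (nat_lit 14))
    (@En.i (nat_lit 5653) (nat_lit 1) (nat_lit 14))
    (@En.n l16218 (nat_lit 13783) (nat_lit 2) (nat_lit 8))
    (@En.n l1003 (nat_lit 13784) (nat_lit 3) (nat_lit 4))
    (@En.n l25673 (nat_lit 13829) (nat_lit 4) (nat_lit 5))
    (@En.n l9878 (nat_lit 12823) (nat_lit 5) (nat_lit 7))
    (@En.n l97 (nat_lit 13894) (nat_lit 6) (nat_lit 7))
    (@En.n l11419 (nat_lit 13236) (nat_lit 8) (nat_lit 12))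
    (@En.n l3522 (nat_lit 13782) (nat_lit 8) (nat_lit 3))
    (@En.n l18041 (nat_lit 13103) (nat_lit 10) (nat_lit 11))
    (@En.n l25674 (nat_lit 13788) (nat_lit 11) (nat_lit 8))
    (@En.i (nat_lit 13630) (nat_lit 12) (nat_lit 13))
    (@En.n l11401 (nat_lit 13774) (nat_lit 13) (nat_lit 9))
    (@En.i (nat_lit 3303) (nat_lit 14) (nat_lit 9))
    (@En.n l7 (nat_lit 13781) (nat_lit 14) (nat_lit 2))
    (@En.n l28 (nat_lit 13781) (nat_lit 15) (nat_lit 2))))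
  (@Cl.mk (nat_lit 0x2000200090009000d000a00090003000c00070007000600040007000e000e) (nat_lit 0x145560800000ab) (nat_lit 16) Lb.e (@T16.mk En
    (@En.n l5 (nat_lit 13782) (nat_lit 1) (nat_lit 14))
    (@En.n l22486 (nat_lit 5640) (nat_lit 1) (nat_lit 14))
    (@En.n l5928 (nat_lit 13756) (nat_lit 2) (nat_lit 7))
    (@En.n l18645 (nat_lit 13786) (nat_lit 3) (nat_lit 4))
    (@En.n l5377 (nat_lit 13799) (nat_lit 4) (nat_lit 6))
    (@En.n l10295 (nat_lit 12825) (nat_lit 5) (nat_lit 7))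
    (@En.n l12905 (nat_lit 13893) (nat_lit 6) (nat_lit 7))
    (@En.n l26435 (nat_lit 13788) (nat_lit 8) (nat_lit 12))
    (@En.n l9956 (nat_lit 13781) (nat_lit 8) (nat_lit 3))
    (@En.n l4758 (nat_lit 13710) (nat_lit 10) (nat_lit 9))
    (@En.n l26436 (nat_lit 13385) (nat_lit 11) (nat_lit 10))
    (@En.n l476 (nat_lit 13635) (nat_lit 12) (nat_lit 13))
    (@En.n l26437 (nat_lit 13777) (nat_lit 13) (nat_lit 9))
    (@En.i (nat_lit 3301) (nat_lit 14) (nat_lit 9))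
    (@En.n l17 (nat_lit 13782) (nat_lit 14) (nat_lit 2))
    (@En.n l18 (nat_lit 13782) (nat_lit 15) (nat_lit 2))))
  (@Cl.mk (nat_lit 0x2000200080008000c0008000d000b000400030008000800050008000e000e) (nat_lit 0x132568004103bc) (nat_lit 16) Lb.e (@T16.mk En
    (@En.n l1578 (nat_lit 13783) (nat_lit 1) (nat_lit 14))
    (@En.i (nat_lit 3635) (nat_lit 1) (nat_lit 14))
    (@En.n l17133 (nat_lit 13008) (nat_lit 2) (nat_lit 8))
    (@En.n l4991 (nat_lit 13831) (nat_lit 3) (nat_lit 5))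
    (@En.n l3261 (nat_lit 12822) (nat_lit 4) (nat_lit 8))
    (@En.n l10794 (nat_lit 13491) (nat_lit 5) (nat_lit 8))
    (@En.n l18 (nat_lit 13784) (nat_lit 6) (nat_lit 3))
    (@En.n l11793 (nat_lit 13756) (nat_lit 7) (nat_lit 4))
    (@En.n l899 (nat_lit 13781) (nat_lit 9) (nat_lit 11))
    (@En.n l4991 (nat_lit 13691) (nat_lit 10) (nat_lit 13))
    (@En.n l2773 (nat_lit 13787) (nat_lit 11) (nat_lit 8))
    (@En.n l17133 (nat_lit 13631) (nat_lit 12) (nat_lit 12))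
    (@En.n l152 (nat_lit 13773) (nat_lit 13) (nat_lit 8))
    (@En.i (nat_lit 3305) (nat_lit 14) (nat_lit 8))
    (@En.n l28 (nat_lit 13783) (nat_lit 14) (nat_lit 2))
    (@En.n l11 (nat_lit 13783) (nat_lit 15) (nat_lit 2))))
  (@Cl.mk (nat_lit 0x2000200080008000d0008000d0003000c00030008000800040008000e000e) (nat_lit 0x232560704103bc) (nat_lit 16) Lb.e (@T16.mk En
    (@En.n l1578 (nat_lit 13784) (nat_lit 1) (nat_lit 14))
    (@En.i (nat_lit 3626) (nat_lit 1) (nat_lit 14))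
    (@En.n l617 (nat_lit 13005) (nat_lit 2) (nat_lit 8))
    (@En.n l2125 (nat_lit 13791) (nat_lit 3) (nat_lit 4))
    (@En.n l3261 (nat_lit 12821) (nat_lit 4) (nat_lit 8))
    (@En.n l7645 (nat_lit 13828) (nat_lit 5) (nat_lit 8))
    (@En.i (nat_lit 13783) (nat_lit 6) (nat_lit 3))
    (@En.i (nat_lit 13251) (nat_lit 8) (nat_lit 12))
    (@En.i (nat_lit 13786) (nat_lit 8) (nat_lit 3))
    (@En.n l7432 (nat_lit 13692) (nat_lit 10) (nat_lit 13))
    (@En.n l7471 (nat_lit 13785) (nat_lit 11) (nat_lit 8))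
    (@En.n l899 (nat_lit 13133) (nat_lit 12) (nat_lit 13))
    (@En.n l152 (nat_lit 13775) (nat_lit 13) (nat_lit 8))
    (@En.i (nat_lit 3309) (nat_lit 14) (nat_lit 8))
    (@En.n l28 (nat_lit 13784) (nat_lit 14) (nat_lit 2))
    (@En.n l11 (nat_lit 13784) (nat_lit 15) (nat_lit 2))))
  (@Cl.mk (nat_lit 0x20002000900090008000d0009000c000300070007000400080007000e000e) (nat_lit 0x244376000010bc) (nat_lit 16) Lb.e (@T16.mk En
    (@En.n l134 (nat_lit 13785) (nat_lit 1) (nat_lit 14))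
    (@En.i (nat_lit 5666) (nat_lit 1) (nat_lit 14))
    (@En.n l3339 (nat_lit 13786) (nat_lit 2) (nat_lit 7))
    (@En.n l3337 (nat_lit 12784) (nat_lit 3) (nat_lit 8))
    (@En.n l13104 (nat_lit 13789) (nat_lit 4) (nat_lit 4))
    (@En.n l13105 (nat_lit 12826) (nat_lit 5) (nat_lit 7))
    (@En.n l13106 (nat_lit 13797) (nat_lit 6) (nat_lit 7))
    (@En.n l2199 (nat_lit 13787) (nat_lit 7) (nat_lit 3))
    (@En.n l13107 (nat_lit 13250) (nat_lit 9) (nat_lit 12))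
    (@En.n l13108 (nat_lit 12999) (nat_lit 10) (nat_lit 9))
    (@En.n l13109 (nat_lit 13781) (nat_lit 11) (nat_lit 13))
    (@En.n l3536 (nat_lit 13137) (nat_lit 12) (nat_lit 8))
    (@En.n l152 (nat_lit 13778) (nat_lit 13) (nat_lit 9))
    (@En.n l5577 (nat_lit 3313) (nat_lit 14) (nat_lit 9))
    (@En.n l7 (nat_lit 13785) (nat_lit 14) (nat_lit 2))
    (@En.n l28 (nat_lit 13785) (nat_lit 15) (nat_lit 2))))
  (@Cl.mk (nat_lit 0x2000200080008000d000c00090003000c00040008000800040007000e000e) (nat_lit 0x143360703100bc) (nat_lit 16) Lb.e (@T16.mk En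
    (@En.n l1578 (nat_lit 13786) (nat_lit 1) (nat_lit 14))
    (@En.i (nat_lit 3634) (nat_lit 1) (nat_lit 14))
    (@En.n l13074 (nat_lit 13745) (nat_lit 2) (nat_lit 7))
    (@En.n l11821 (nat_lit 13790) (nat_lit 3) (nat_lit 4))
    (@En.n l13075 (nat_lit 12824) (nat_lit 4) (nat_lit 8))
    (@En.n l13076 (nat_lit 13796) (nat_lit 5) (nat_lit 8))
    (@En.n l3266 (nat_lit 13751) (nat_lit 6) (nat_lit 4))
    (@En.n l250 (nat_lit 13785) (nat_lit 8) (nat_lit 12))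
    (@En.n l50 (nat_lit 13784) (nat_lit 8) (nat_lit 3))
    (@En.n l2894 (nat_lit 13706) (nat_lit 10) (nat_lit 9))
    (@En.n l217 (nat_lit 13783) (nat_lit 11) (nat_lit 12))
    (@En.n l13076 (nat_lit 13132) (nat_lit 12) (nat_lit 13))
    (@En.n l152 (nat_lit 13776) (nat_lit 13) (nat_lit 8))
    (@En.i (nat_lit 3310) (nat_lit 14) (nat_lit 8))
    (@En.n l28 (nat_lit 13786) (nat_lit 14) (nat_lit 2))
    (@En.n l11 (nat_lit 13786) (nat_lit 15) (nat_lit 2))))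
  (@Cl.mk (nat_lit 0x20002000900090008000d000b000a000300070007000500080006000e000e) (nat_lit 0x244667000010bc) (nat_lit 16) Lb.e (@T16.mk En
    (@En.n l5 (nat_lit 13787) (nat_lit 1) (nat_lit 14))
    (@En.n l2571 (nat_lit 3253) (nat_lit 1) (nat_lit 14))
    (@En.n l13650 (nat_lit 13751) (nat_lit 2) (nat_lit 6))
    (@En.i (nat_lit 12785) (nat_lit 3) (nat_lit 8))
    (@En.n l13651 (nat_lit 13906) (nat_lit 4) (nat_lit 5))
    (@En.n l13062 (nat_lit 12828) (nat_lit 5) (nat_lit 7))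
    (@En.n l13652 (nat_lit 14016) (nat_lit 6) (nat_lit 7))
    (@En.n l11610 (nat_lit 13785) (nat_lit 7) (nat_lit 3))
    (@En.n l13653 (nat_lit 13769) (nat_lit 9) (nat_lit 10))
    (@En.n l13654 (nat_lit 13788) (nat_lit 10) (nat_lit 11))
    (@En.n l13655 (nat_lit 13782) (nat_lit 11) (nat_lit 13))
    (@En.n l134 (nat_lit 13138) (nat_lit 12) (nat_lit 8))
    (@En.n l55 (nat_lit 13780) (nat_lit 13) (nat_lit 9))
    (@En.n l13656 (nat_lit 3343) (nat_lit 14) (nat_lit 9))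
    (@En.n l17 (nat_lit 13787) (nat_lit 14) (nat_lit 2))
    (@En.n l18 (nat_lit 13787) (nat_lit 15) (nat_lit 2))))
  (@Cl.mk (nat_lit 0x20002000a000a0008000b0009000c000600060005000400080007000e000e) (nat_lit 0x244567000020bc) (nat_lit 16) Lb.e (@T16.mk En
    (@En.n l5 (nat_lit 13788) (nat_lit 1) (nat_lit 14))
    (@En.n l5366 (nat_lit 3247) (nat_lit 1) (nat_lit 14))
    (@En.n l26858 (nat_lit 13782) (nat_lit 2) (nat_lit 7))
    (@En.n l26859 (nat_lit 13787) (nat_lit 3) (nat_lit 8))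
    (@En.n l13789 (nat_lit 13785) (nat_lit 4) (nat_lit 4))
    (@En.n l26860 (nat_lit 13909) (nat_lit 5) (nat_lit 5))
    (@En.n l152 (nat_lit 12827) (nat_lit 6) (nat_lit 6))
    (@En.n l26861 (nat_lit 14013) (nat_lit 7) (nat_lit 6))
    (@En.i (nat_lit 13241) (nat_lit 9) (nat_lit 12))
    (@En.n l26862 (nat_lit 13714) (nat_lit 10) (nat_lit 9))
    (@En.n l5366 (nat_lit 13384) (nat_lit 11) (nat_lit 11))
    (@En.n l253 (nat_lit 13139) (nat_lit 12) (nat_lit 8))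
    (@En.n l11896 (nat_lit 13779) (nat_lit 13) (nat_lit 10))
    (@En.n l766 (nat_lit 3300) (nat_lit 14) (nat_lit 10))
    (@En.n l17 (nat_lit 13788) (nat_lit 14) (nat_lit 2))
    (@En.n l18 (nat_lit 13788) (nat_lit 15) (nat_lit 2))))
  (@Cl.mk (nat_lit 0x200020008000b0008000c0009000c000500040008000400080007000e000e) (nat_lit 0x23467800401089) (nat_lit 16) Lb.e (@T16.mk En
    (@En.n l134 (nat_lit 13789) (nat_lit 1) (nat_lit 14))
    (@En.n l26864 (nat_lit 5627) (nat_lit 1) (nat_lit 14))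
    (@En.n l12896 (nat_lit 13790) (nat_lit 2) (nat_lit 7))
    (@En.n l26865 (nat_lit 12870) (nat_lit 3) (nat_lit 8))
    (@En.n l26866 (nat_lit 13788) (nat_lit 4) (nat_lit 4))
    (@En.n l13631 (nat_lit 13793) (nat_lit 5) (nat_lit 8))
    (@En.n l26867 (nat_lit 13798) (nat_lit 6) (nat_lit 4))
    (@En.n l26868 (nat_lit 12867) (nat_lit 7) (nat_lit 5))
    (@En.n l26869 (nat_lit 13300) (nat_lit 9) (nat_lit 12))
    (@En.n l26870 (nat_lit 13542) (nat_lit 10) (nat_lit 9))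
    (@En.n l26871 (nat_lit 13829) (nat_lit 11) (nat_lit 12))
    (@En.n l5592 (nat_lit 13141) (nat_lit 12) (nat_lit 8))
    (@En.n l26871 (nat_lit 13840) (nat_lit 13) (nat_lit 11))
    (@En.i (nat_lit 5495) (nat_lit 14) (nat_lit 8))
    (@En.n l7 (nat_lit 13789) (nat_lit 14) (nat_lit 2))
    (@En.n l28 (nat_lit 13789) (nat_lit 15) (nat_lit 2))))
  (@Cl.mk (nat_lit 0x200020007000a000d000b00090003000c00060005000900040007000e000e) (nat_lit 0x24570900500bc) (nat_lit 16) Lb.e (@T16.mk En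
    (@En.n l5 (nat_lit 13790) (nat_lit 1) (nat_lit 14))
    (@En.n l13756 (nat_lit 5624) (nat_lit 1) (nat_lit 14))
    (@En.i (nat_lit 13925) (nat_lit 2) (nat_lit 7))
    (@En.n l253 (nat_lit 13782) (nat_lit 3) (nat_lit 4))
    (@En.i (nat_lit 13792) (nat_lit 4) (nat_lit 9))
    (@En.n l11813 (nat_lit 13795) (nat_lit 5) (nat_lit 5))
    (@En.n l13757 (nat_lit 12870) (nat_lit 6) (nat_lit 6))
    (@En.n l13346 (nat_lit 13789) (nat_lit 8) (nat_lit 12))
    (@En.n l11610 (nat_lit 13791) (nat_lit 8) (nat_lit 3))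
    (@En.n l1504 (nat_lit 13544) (nat_lit 10) (nat_lit 9))
    (@En.n l25480 (nat_lit 13831) (nat_lit 11) (nat_lit 11))
    (@En.i (nat_lit 13800) (nat_lit 12) (nat_lit 13))
    (@En.i (nat_lit 13841) (nat_lit 13) (nat_lit 10))
    (@En.n l1735 (nat_lit 5493) (nat_lit 14) (nat_lit 7))
    (@En.n l17 (nat_lit 13790) (nat_lit 14) (nat_lit 2))
    (@En.n l18 (nat_lit 13790) (nat_lit 15) (nat_lit 2))))
  (@Cl.mk (nat_lit 0x200020007000a000d0008000c0003000c00060004000900040008000e000e) (nat_lit 0x23560900606bc) (nat_lit 16) Lb.e (@T16.mk En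
    (@En.n l134 (nat_lit 13791) (nat_lit 1) (nat_lit 14))
    (@En.i (nat_lit 5564) (nat_lit 1) (nat_lit 14))
    (@En.n l3328 (nat_lit 13735) (nat_lit 2) (nat_lit 8))
    (@En.n l117 (nat_lit 13781) (nat_lit 3) (nat_lit 4))
    (@En.n l3337 (nat_lit 13794) (nat_lit 4) (nat_lit 9))
    (@En.n l1203 (nat_lit 13830) (nat_lit 5) (nat_lit 4))
    (@En.n l2642 (nat_lit 12873) (nat_lit 6) (nat_lit 6))
    (@En.n l9182 (nat_lit 13296) (nat_lit 8) (nat_lit 12))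
    (@En.n l2199 (nat_lit 13790) (nat_lit 8) (nat_lit 3))
    (@En.n l1203 (nat_lit 13671) (nat_lit 10) (nat_lit 12))
    (@En.i (nat_lit 13789) (nat_lit 11) (nat_lit 8))
    (@En.i (nat_lit 13801) (nat_lit 12) (nat_lit 13))
    (@En.n l1081 (nat_lit 13955) (nat_lit 13) (nat_lit 10))
    (@En.i (nat_lit 5492) (nat_lit 14) (nat_lit 7))
    (@En.n l7 (nat_lit 13791) (nat_lit 14) (nat_lit 2))
    (@En.n l28 (nat_lit 13791) (nat_lit 15) (nat_lit 2))))
noncomputable def a862 : T16 Cl := @T16.mk Cl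
  (@Cl.mk (nat_lit 0x200020007000d000a000d0003000a0003000d0006000900030006000e000e) (nat_lit 0x2340709040012) (nat_lit 16) Lb.e (@T16.mk En
    (@En.n l5 (nat_lit 13792) (nat_lit 1) (nat_lit 14))
    (@En.n l2031 (nat_lit 5410) (nat_lit 1) (nat_lit 14))
    (@En.i (nat_lit 13923) (nat_lit 2) (nat_lit 6))
    (@En.i (nat_lit 13796) (nat_lit 3) (nat_lit 3))
    (@En.n l2031 (nat_lit 13697) (nat_lit 4) (nat_lit 9))
    (@En.i (nat_lit 12871) (nat_lit 5) (nat_lit 6))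
    (@En.i (nat_lit 13793) (nat_lit 7) (nat_lit 13))
    (@En.n l117 (nat_lit 13794) (nat_lit 7) (nat_lit 3))
    (@En.i (nat_lit 13348) (nat_lit 9) (nat_lit 10))
    (@En.n l12597 (nat_lit 13795) (nat_lit 9) (nat_lit 3))
    (@En.i (nat_lit 13276) (nat_lit 11) (nat_lit 13))
    (@En.n l476 (nat_lit 13790) (nat_lit 12) (nat_lit 10))
    (@En.n l1823 (nat_lit 13896) (nat_lit 13) (nat_lit 13))
    (@En.n l2568 (nat_lit 5483) (nat_lit 14) (nat_lit 7))
    (@En.n l17 (nat_lit 13792) (nat_lit 14) (nat_lit 2))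
    (@En.n l18 (nat_lit 13792) (nat_lit 15) (nat_lit 2))))
  (@Cl.mk (nat_lit 0x200020008000d000b00090003000a000d00050008000300070006000e000e) (nat_lit 0x12450780300078) (nat_lit 16) Lb.e (@T16.mk En
    (@En.n l5 (nat_lit 13793) (nat_lit 1) (nat_lit 14))
    (@En.n l2031 (nat_lit 5630) (nat_lit 1) (nat_lit 14))
    (@En.n l11 (nat_lit 13792) (nat_lit 2) (nat_lit 6))
    (@En.n l55 (nat_lit 12871) (nat_lit 3) (nat_lit 7))
    (@En.i (nat_lit 13797) (nat_lit 4) (nat_lit 3))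
    (@En.n l2031 (nat_lit 13695) (nat_lit 5) (nat_lit 8))
    (@En.n l39987 (nat_lit 12868) (nat_lit 6) (nat_lit 5))
    (@En.n l6698 (nat_lit 13181) (nat_lit 8) (nat_lit 13))
    (@En.n l12596 (nat_lit 13339) (nat_lit 9) (nat_lit 10))
    (@En.n l26473 (nat_lit 13798) (nat_lit 9) (nat_lit 3))
    (@En.n l134 (nat_lit 13641) (nat_lit 11) (nat_lit 9))
    (@En.n l9921 (nat_lit 13789) (nat_lit 12) (nat_lit 11))
    (@En.n l12596 (nat_lit 13890) (nat_lit 13) (nat_lit 13))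
    (@En.n l2568 (nat_lit 5474) (nat_lit 14) (nat_lit 8))
    (@En.n l17 (nat_lit 13793) (nat_lit 14) (nat_lit 2))
    (@En.n l18 (nat_lit 13793) (nat_lit 15) (nat_lit 2))))
  (@Cl.mk (nat_lit 0x200020007000c000a000d000900040003000d0006000900030007000e000e) (nat_lit 0x234600a050023) (nat_lit 16) Lb.e (@T16.mk En
    (@En.n l5 (nat_lit 13794) (nat_lit 1) (nat_lit 14))
    (@En.n l649 (nat_lit 5560) (nat_lit 1) (nat_lit 14))
    (@En.i (nat_lit 13740) (nat_lit 2) (nat_lit 7))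
    (@En.n l4530 (nat_lit 13828) (nat_lit 3) (nat_lit 3))
    (@En.n l476 (nat_lit 13899) (nat_lit 4) (nat_lit 9))
    (@En.i (nat_lit 12872) (nat_lit 5) (nat_lit 6))
    (@En.i (nat_lit 13225) (nat_lit 7) (nat_lit 13))
    (@En.n l152 (nat_lit 13792) (nat_lit 7) (nat_lit 3))
    (@En.n l1865 (nat_lit 13833) (nat_lit 8) (nat_lit 4))
    (@En.n l619 (nat_lit 13793) (nat_lit 10) (nat_lit 9))
    (@En.i (nat_lit 13274) (nat_lit 11) (nat_lit 13))
    (@En.n l1867 (nat_lit 13791) (nat_lit 12) (nat_lit 10))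
    (@En.n l11989 (nat_lit 13970) (nat_lit 13) (nat_lit 12))
    (@En.i (nat_lit 5494) (nat_lit 14) (nat_lit 7))
    (@En.n l17 (nat_lit 13794) (nat_lit 14) (nat_lit 2))
    (@En.n l18 (nat_lit 13794) (nat_lit 15) (nat_lit 2))))
  (@Cl.mk (nat_lit 0x200020007000d000c000b0003000a0004000d0005000900030006000e000e) (nat_lit 0x435080a070012) (nat_lit 16) Lb.e (@T16.mk En
    (@En.n l5 (nat_lit 13795) (nat_lit 1) (nat_lit 14))
    (@En.n l420 (nat_lit 5411) (nat_lit 1) (nat_lit 14))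
    (@En.n l25606 (nat_lit 13922) (nat_lit 2) (nat_lit 6))
    (@En.i (nat_lit 13799) (nat_lit 3) (nat_lit 3))
    (@En.n l9004 (nat_lit 13696) (nat_lit 4) (nat_lit 9))
    (@En.n l25607 (nat_lit 13905) (nat_lit 5) (nat_lit 5))
    (@En.n l476 (nat_lit 13798) (nat_lit 7) (nat_lit 13))
    (@En.n l8 (nat_lit 13830) (nat_lit 7) (nat_lit 4))
    (@En.i (nat_lit 13522) (nat_lit 9) (nat_lit 10))
    (@En.n l7840 (nat_lit 13792) (nat_lit 9) (nat_lit 3))
    (@En.n l21744 (nat_lit 13836) (nat_lit 11) (nat_lit 11))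
    (@En.n l7840 (nat_lit 13794) (nat_lit 12) (nat_lit 12))
    (@En.i (nat_lit 13897) (nat_lit 13) (nat_lit 13))
    (@En.n l420 (nat_lit 5481) (nat_lit 14) (nat_lit 7))
    (@En.n l17 (nat_lit 13795) (nat_lit 14) (nat_lit 2))
    (@En.n l18 (nat_lit 13795) (nat_lit 15) (nat_lit 2))))
  (@Cl.mk (nat_lit 0x200020008000d0009000d0003000a0003000d0008000700030006000e000e) (nat_lit 0x28540708200034) (nat_lit 16) Lb.e (@T16.mk En
    (@En.n l5 (nat_lit 13796) (nat_lit 1) (nat_lit 14))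
    (@En.n l10295 (nat_lit 5403) (nat_lit 1) (nat_lit 14))
    (@En.n l5928 (nat_lit 13908) (nat_lit 2) (nat_lit 6))
    (@En.n l7 (nat_lit 13792) (nat_lit 3) (nat_lit 3))
    (@En.n l10295 (nat_lit 13936) (nat_lit 4) (nat_lit 7))
    (@En.i (nat_lit 13882) (nat_lit 5) (nat_lit 8))
    (@En.i (nat_lit 13797) (nat_lit 7) (nat_lit 13))
    (@En.n l4730 (nat_lit 13828) (nat_lit 7) (nat_lit 3))
    (@En.i (nat_lit 13350) (nat_lit 9) (nat_lit 10))
    (@En.n l12597 (nat_lit 13799) (nat_lit 9) (nat_lit 3))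
    (@En.i (nat_lit 13275) (nat_lit 11) (nat_lit 13))
    (@En.i (nat_lit 13782) (nat_lit 12) (nat_lit 9))
    (@En.n l4730 (nat_lit 13895) (nat_lit 13) (nat_lit 13))
    (@En.i (nat_lit 5182) (nat_lit 14) (nat_lit 8))
    (@En.n l17 (nat_lit 13796) (nat_lit 14) (nat_lit 2))
    (@En.n l18 (nat_lit 13796) (nat_lit 15) (nat_lit 2))))
  (@Cl.mk (nat_lit 0x200020009000d000a00090003000a000d00070006000300070006000e000e) (nat_lit 0x29540770000078) (nat_lit 16) Lb.e (@T16.mk En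
    (@En.n l5 (nat_lit 13797) (nat_lit 1) (nat_lit 14))
    (@En.n l26470 (nat_lit 5634) (nat_lit 1) (nat_lit 14))
    (@En.n l11 (nat_lit 13796) (nat_lit 2) (nat_lit 6))
    (@En.n l4698 (nat_lit 12869) (nat_lit 3) (nat_lit 7))
    (@En.n l7 (nat_lit 13793) (nat_lit 4) (nat_lit 3))
    (@En.n l26471 (nat_lit 13935) (nat_lit 5) (nat_lit 6))
    (@En.n l26472 (nat_lit 14014) (nat_lit 6) (nat_lit 7))
    (@En.n l6698 (nat_lit 13177) (nat_lit 8) (nat_lit 13))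
    (@En.n l12615 (nat_lit 13342) (nat_lit 9) (nat_lit 10))
    (@En.n l26473 (nat_lit 13909) (nat_lit 9) (nat_lit 3))
    (@En.n l12615 (nat_lit 13640) (nat_lit 11) (nat_lit 9))
    (@En.n l26435 (nat_lit 13788) (nat_lit 12) (nat_lit 10))
    (@En.n l26474 (nat_lit 13892) (nat_lit 13) (nat_lit 13))
    (@En.i (nat_lit 5185) (nat_lit 14) (nat_lit 9))
    (@En.n l17 (nat_lit 13797) (nat_lit 14) (nat_lit 2))
    (@En.n l18 (nat_lit 13797) (nat_lit 15) (nat_lit 2))))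
  (@Cl.mk (nat_lit 0x200020008000d0008000c0003000a000d00040008000300080006000e000e) (nat_lit 0x24450790605012) (nat_lit 16) Lb.e (@T16.mk En
    (@En.n l5 (nat_lit 13798) (nat_lit 1) (nat_lit 14))
    (@En.n l13398 (nat_lit 3985) (nat_lit 1) (nat_lit 14))
    (@En.i (nat_lit 13795) (nat_lit 2) (nat_lit 6))
    (@En.n l4424 (nat_lit 13904) (nat_lit 3) (nat_lit 8))
    (@En.i (nat_lit 13909) (nat_lit 4) (nat_lit 3))
    (@En.n l39432 (nat_lit 13693) (nat_lit 5) (nat_lit 8))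
    (@En.n l25607 (nat_lit 13906) (nat_lit 6) (nat_lit 4))
    (@En.n l26387 (nat_lit 13299) (nat_lit 8) (nat_lit 13))
    (@En.n l152 (nat_lit 13420) (nat_lit 9) (nat_lit 10))
    (@En.n l27085 (nat_lit 13793) (nat_lit 9) (nat_lit 3))
    (@En.n l39433 (nat_lit 13835) (nat_lit 11) (nat_lit 12))
    (@En.n l39434 (nat_lit 13223) (nat_lit 12) (nat_lit 8))
    (@En.i (nat_lit 13887) (nat_lit 13) (nat_lit 13))
    (@En.n l420 (nat_lit 5478) (nat_lit 14) (nat_lit 8))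
    (@En.n l17 (nat_lit 13798) (nat_lit 14) (nat_lit 2))
    (@En.n l18 (nat_lit 13798) (nat_lit 15) (nat_lit 2))))
  (@Cl.mk (nat_lit 0x200020008000d000c000a0003000a0004000d0008000600030006000e000e) (nat_lit 0x2746070a200078) (nat_lit 16) Lb.e (@T16.mk En
    (@En.n l5 (nat_lit 13799) (nat_lit 1) (nat_lit 14))
    (@En.n l420 (nat_lit 5408) (nat_lit 1) (nat_lit 14))
    (@En.n l24813 (nat_lit 13907) (nat_lit 2) (nat_lit 6))
    (@En.n l28 (nat_lit 13795) (nat_lit 3) (nat_lit 3))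
    (@En.n l15159 (nat_lit 13475) (nat_lit 4) (nat_lit 6))
    (@En.n l24814 (nat_lit 13337) (nat_lit 5) (nat_lit 8))
    (@En.n l476 (nat_lit 13909) (nat_lit 7) (nat_lit 13))
    (@En.n l4388 (nat_lit 13829) (nat_lit 7) (nat_lit 4))
    (@En.n l24815 (nat_lit 13524) (nat_lit 9) (nat_lit 10))
    (@En.n l7840 (nat_lit 13796) (nat_lit 9) (nat_lit 3))
    (@En.n l24816 (nat_lit 13389) (nat_lit 11) (nat_lit 10))
    (@En.n l12601 (nat_lit 13828) (nat_lit 12) (nat_lit 12))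
    (@En.n l4388 (nat_lit 13489) (nat_lit 13) (nat_lit 13))
    (@En.n l420 (nat_lit 5184) (nat_lit 14) (nat_lit 8))
    (@En.n l17 (nat_lit 13799) (nat_lit 14) (nat_lit 2))
    (@En.n l18 (nat_lit 13799) (nat_lit 15) (nat_lit 2))))
  (@Cl.mk (nat_lit 0x200020007000d000a00080003000e000c00020006000900040008000e000e) (nat_lit 0x345079003019a) (nat_lit 16) Lb.e (@T16.mk En
    (@En.n l5 (nat_lit 13800) (nat_lit 1) (nat_lit 14))
    (@En.n l2571 (nat_lit 5989) (nat_lit 11) (nat_lit 14))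
    (@En.i (nat_lit 660) (nat_lit 2) (nat_lit 8))
    (@En.i (nat_lit 13635) (nat_lit 3) (nat_lit 4))
    (@En.i (nat_lit 13276) (nat_lit 4) (nat_lit 9))
    (@En.n l253 (nat_lit 13794) (nat_lit 5) (nat_lit 6))
    (@En.n l28 (nat_lit 13800) (nat_lit 6) (nat_lit 2))
    (@En.n l134 (nat_lit 13132) (nat_lit 8) (nat_lit 12))
    (@En.n l253 (nat_lit 13558) (nat_lit 9) (nat_lit 14))
    (@En.n l11610 (nat_lit 13801) (nat_lit 9) (nat_lit 3))
    (@En.n l1504 (nat_lit 14066) (nat_lit 11) (nat_lit 8))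
    (@En.n l5032 (nat_lit 13596) (nat_lit 12) (nat_lit 10))
    (@En.i (nat_lit 13146) (nat_lit 13) (nat_lit 13))
    (@En.i (nat_lit 7788) (nat_lit 6) (nat_lit 7))
    (@En.n l17 (nat_lit 13800) (nat_lit 14) (nat_lit 2))
    (@En.n l18 (nat_lit 13800) (nat_lit 15) (nat_lit 2))))
  (@Cl.mk (nat_lit 0x200020007000d0007000b0003000e000c00020005000900040009000e000e) (nat_lit 0x20508900202ab) (nat_lit 16) Lb.e (@T16.mk En
    (@En.n l134 (nat_lit 13801) (nat_lit 1) (nat_lit 14))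
    (@En.i (nat_lit 5992) (nat_lit 11) (nat_lit 14))
    (@En.n l3337 (nat_lit 13806) (nat_lit 2) (nat_lit 9))
    (@En.n l117 (nat_lit 13630) (nat_lit 3) (nat_lit 4))
    (@En.n l3337 (nat_lit 13274) (nat_lit 4) (nat_lit 9))
    (@En.i (nat_lit 13833) (nat_lit 5) (nat_lit 5))
    (@En.n l3 (nat_lit 13801) (nat_lit 6) (nat_lit 2))
    (@En.i (nat_lit 13133) (nat_lit 8) (nat_lit 12))
    (@En.i (nat_lit 13596) (nat_lit 9) (nat_lit 14))
    (@En.n l2199 (nat_lit 13800) (nat_lit 9) (nat_lit 3))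
    (@En.i (nat_lit 13666) (nat_lit 11) (nat_lit 11))
    (@En.n l5592 (nat_lit 13324) (nat_lit 12) (nat_lit 7))
    (@En.i (nat_lit 13802) (nat_lit 13) (nat_lit 13))
    (@En.i (nat_lit 7787) (nat_lit 6) (nat_lit 7))
    (@En.n l7 (nat_lit 13801) (nat_lit 14) (nat_lit 2))
    (@En.n l28 (nat_lit 13801) (nat_lit 15) (nat_lit 2))))
  (@Cl.mk (nat_lit 0x20002000d0006000a0003000b000e000c0002000600050004000a000e000e) (nat_lit 0x104096100007bc) (nat_lit 16) Lb.e (@T16.mk En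
    (@En.n l134 (nat_lit 13802) (nat_lit 1) (nat_lit 14))
    (@En.i (nat_lit 4016) (nat_lit 11) (nat_lit 14))
    (@En.n l15197 (nat_lit 13588) (nat_lit 2) (nat_lit 10))
    (@En.n l2221 (nat_lit 283) (nat_lit 3) (nat_lit 4))
    (@En.n l5335 (nat_lit 13803) (nat_lit 4) (nat_lit 5))
    (@En.n l2571 (nat_lit 13164) (nat_lit 5) (nat_lit 6))
    (@En.n l3 (nat_lit 13802) (nat_lit 6) (nat_lit 2))
    (@En.n l2213 (nat_lit 287) (nat_lit 8) (nat_lit 12))
    (@En.n l862 (nat_lit 13569) (nat_lit 9) (nat_lit 14))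
    (@En.i (nat_lit 13530) (nat_lit 10) (nat_lit 11))
    (@En.n l2199 (nat_lit 13146) (nat_lit 10) (nat_lit 3))
    (@En.n l2571 (nat_lit 13771) (nat_lit 12) (nat_lit 10))
    (@En.n l5592 (nat_lit 13805) (nat_lit 13) (nat_lit 6))
    (@En.i (nat_lit 884) (nat_lit 7) (nat_lit 13))
    (@En.n l7 (nat_lit 13802) (nat_lit 14) (nat_lit 2))
    (@En.n l28 (nat_lit 13802) (nat_lit 15) (nat_lit 2))))
  (@Cl.mk (nat_lit 0x20002000d0006000d0003000b0003000e000d000200050003000a000e000e) (nat_lit 0x106050720008bc) (nat_lit 16) Lb.e (@T16.mk En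
    (@En.n l97 (nat_lit 13803) (nat_lit 1) (nat_lit 14))
    (@En.i (nat_lit 4018) (nat_lit 12) (nat_lit 14))
    (@En.n l6147 (nat_lit 13589) (nat_lit 2) (nat_lit 10))
    (@En.n l72 (nat_lit 13158) (nat_lit 3) (nat_lit 3))
    (@En.n l666 (nat_lit 13566) (nat_lit 4) (nat_lit 5))
    (@En.n l17 (nat_lit 13803) (nat_lit 5) (nat_lit 2))
    (@En.n l61 (nat_lit 13158) (nat_lit 7) (nat_lit 13))
    (@En.n l5331 (nat_lit 13802) (nat_lit 8) (nat_lit 14))
    (@En.i (nat_lit 13169) (nat_lit 8) (nat_lit 3))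
    (@En.n l5331 (nat_lit 13531) (nat_lit 10) (nat_lit 11))
    (@En.n l4830 (nat_lit 12987) (nat_lit 10) (nat_lit 3))
    (@En.i (nat_lit 13472) (nat_lit 12) (nat_lit 13))
    (@En.n l12840 (nat_lit 13804) (nat_lit 13) (nat_lit 6))
    (@En.n l5331 (nat_lit 2266) (nat_lit 8) (nat_lit 13))
    (@En.n l107 (nat_lit 13803) (nat_lit 14) (nat_lit 2))
    (@En.n l3 (nat_lit 13803) (nat_lit 15) (nat_lit 2))))
  (@Cl.mk (nat_lit 0x200020006000d0007000b0003000e000d000200050003000a0009000e000e) (nat_lit 0x2040670008112) (nat_lit 16) Lb.e (@T16.mk En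
    (@En.n l601 (nat_lit 13804) (nat_lit 1) (nat_lit 14))
    (@En.n l2573 (nat_lit 849) (nat_lit 11) (nat_lit 14))
    (@En.n l1913 (nat_lit 12987) (nat_lit 2) (nat_lit 9))
    (@En.n l2036 (nat_lit 13607) (nat_lit 3) (nat_lit 10))
    (@En.n l2221 (nat_lit 13741) (nat_lit 4) (nat_lit 3))
    (@En.n l1643 (nat_lit 13917) (nat_lit 5) (nat_lit 5))
    (@En.n l3 (nat_lit 13804) (nat_lit 6) (nat_lit 2))
    (@En.n l649 (nat_lit 13741) (nat_lit 8) (nat_lit 13))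
    (@En.i (nat_lit 13805) (nat_lit 9) (nat_lit 14))
    (@En.n l9807 (nat_lit 13810) (nat_lit 9) (nat_lit 3))
    (@En.i (nat_lit 13665) (nat_lit 11) (nat_lit 11))
    (@En.n l1353 (nat_lit 13008) (nat_lit 12) (nat_lit 7))
    (@En.n l2031 (nat_lit 13126) (nat_lit 13) (nat_lit 13))
    (@En.i (nat_lit 848) (nat_lit 6) (nat_lit 6))
    (@En.n l50 (nat_lit 13804) (nat_lit 14) (nat_lit 2))
    (@En.n l7 (nat_lit 13804) (nat_lit 15) (nat_lit 2))))
  (@Cl.mk (nat_lit 0x200020006000a0007000b000e000c0002000600050004000a0009000e000e) (nat_lit 0x2055700007112) (nat_lit 16) Lb.e (@T16.mk En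
    (@En.n l601 (nat_lit 13805) (nat_lit 1) (nat_lit 14))
    (@En.i (nat_lit 880) (nat_lit 10) (nat_lit 14))
    (@En.n l1915 (nat_lit 13146) (nat_lit 2) (nat_lit 9))
    (@En.i (nat_lit 13609) (nat_lit 3) (nat_lit 10))
    (@En.n l2221 (nat_lit 13809) (nat_lit 4) (nat_lit 4))
    (@En.n l725 (nat_lit 13804) (nat_lit 5) (nat_lit 5))
    (@En.n l3340 (nat_lit 13739) (nat_lit 6) (nat_lit 6))
    (@En.n l3 (nat_lit 13805) (nat_lit 7) (nat_lit 2))
    (@En.n l2213 (nat_lit 13807) (nat_lit 9) (nat_lit 12))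
    (@En.i (nat_lit 13927) (nat_lit 10) (nat_lit 14))
    (@En.n l3340 (nat_lit 13664) (nat_lit 11) (nat_lit 11))
    (@En.n l1353 (nat_lit 13744) (nat_lit 12) (nat_lit 7))
    (@En.n l248 (nat_lit 13584) (nat_lit 13) (nat_lit 10))
    (@En.i (nat_lit 879) (nat_lit 5) (nat_lit 6))
    (@En.n l50 (nat_lit 13805) (nat_lit 14) (nat_lit 2))
    (@En.n l7 (nat_lit 13805) (nat_lit 15) (nat_lit 2))))
  (@Cl.mk (nat_lit 0x200020006000c0007000c000b0004000e000400020005000a0009000e000e) (nat_lit 0x3055090007112) (nat_lit 16) Lb.e (@T16.mk En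
    (@En.n l5 (nat_lit 13806) (nat_lit 1) (nat_lit 14))
    (@En.n l3082 (nat_lit 768) (nat_lit 12) (nat_lit 14))
    (@En.n l12009 (nat_lit 13147) (nat_lit 2) (nat_lit 9))
    (@En.i (nat_lit 13916) (nat_lit 3) (nat_lit 10))
    (@En.n l27010 (nat_lit 13573) (nat_lit 4) (nat_lit 5))
    (@En.n l28 (nat_lit 13806) (nat_lit 5) (nat_lit 2))
    (@En.n l5760 (nat_lit 13807) (nat_lit 6) (nat_lit 4))
    (@En.n l1690 (nat_lit 13808) (nat_lit 8) (nat_lit 14))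
    (@En.n l152 (nat_lit 660) (nat_lit 8) (nat_lit 4))
    (@En.n l18655 (nat_lit 13804) (nat_lit 10) (nat_lit 11))
    (@En.i (nat_lit 13676) (nat_lit 11) (nat_lit 12))
    (@En.i (nat_lit 13745) (nat_lit 12) (nat_lit 7))
    (@En.n l12672 (nat_lit 13588) (nat_lit 13) (nat_lit 12))
    (@En.i (nat_lit 767) (nat_lit 7) (nat_lit 6))
    (@En.n l17 (nat_lit 13806) (nat_lit 14) (nat_lit 2))
    (@En.n l18 (nat_lit 13806) (nat_lit 15) (nat_lit 2))))
  (@Cl.mk (nat_lit 0x200020006000b0007000c000c000c0005000400040004000a0009000e000e) (nat_lit 0x2056600007112) (nat_lit 16) Lb.e (@T16.mk En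
    (@En.n l180 (nat_lit 13807) (nat_lit 1) (nat_lit 14))
    (@En.i (nat_lit 588) (nat_lit 1) (nat_lit 14))
    (@En.n l2038 (nat_lit 12986) (nat_lit 2) (nat_lit 9))
    (@En.n l5911 (nat_lit 13918) (nat_lit 3) (nat_lit 10))
    (@En.n l1778 (nat_lit 13805) (nat_lit 4) (nat_lit 4))
    (@En.n l2172 (nat_lit 13811) (nat_lit 5) (nat_lit 4))
    (@En.i (nat_lit 13741) (nat_lit 6) (nat_lit 4))
    (@En.n l5912 (nat_lit 661) (nat_lit 7) (nat_lit 5))
    (@En.n l742 (nat_lit 13743) (nat_lit 9) (nat_lit 12))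
    (@En.n l6840 (nat_lit 13806) (nat_lit 10) (nat_lit 12))
    (@En.n l5911 (nat_lit 13655) (nat_lit 11) (nat_lit 12))
    (@En.n l1347 (nat_lit 13007) (nat_lit 12) (nat_lit 7))
    (@En.n l13988 (nat_lit 13582) (nat_lit 13) (nat_lit 11))
    (@En.i (nat_lit 587) (nat_lit 14) (nat_lit 6))
    (@En.n l11 (nat_lit 13807) (nat_lit 14) (nat_lit 2))
    (@En.n l107 (nat_lit 13807) (nat_lit 15) (nat_lit 2))))
noncomputable def a863 : T16 Cl := @T16.mk Cl
  (@Cl.mk (nat_lit 0x20002000600090007000d000b000e0003000200070005000a0009000e000e) (nat_lit 0x7046800007112) (nat_lit 16) Lb.e (@T16.mk En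
    (@En.n l5 (nat_lit 13808) (nat_lit 1) (nat_lit 14))
    (@En.n l8824 (nat_lit 560) (nat_lit 11) (nat_lit 14))
    (@En.n l18522 (nat_lit 13145) (nat_lit 2) (nat_lit 9))
    (@En.n l3 (nat_lit 660) (nat_lit 3) (nat_lit 10))
    (@En.n l3 (nat_lit 13806) (nat_lit 4) (nat_lit 5))
    (@En.n l18523 (nat_lit 13735) (nat_lit 5) (nat_lit 7))
    (@En.n l28 (nat_lit 13808) (nat_lit 6) (nat_lit 2))
    (@En.n l3651 (nat_lit 13809) (nat_lit 7) (nat_lit 3))
    (@En.n l12671 (nat_lit 14058) (nat_lit 9) (nat_lit 14))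
    (@En.n l17488 (nat_lit 13805) (nat_lit 10) (nat_lit 11))
    (@En.i (nat_lit 13056) (nat_lit 11) (nat_lit 13))
    (@En.n l11034 (nat_lit 13700) (nat_lit 12) (nat_lit 7))
    (@En.n l17489 (nat_lit 13594) (nat_lit 13) (nat_lit 9))
    (@En.n l387 (nat_lit 559) (nat_lit 14) (nat_lit 6))
    (@En.n l17 (nat_lit 13808) (nat_lit 14) (nat_lit 2))
    (@En.n l18 (nat_lit 13808) (nat_lit 15) (nat_lit 2))))
  (@Cl.mk (nat_lit 0x20002000600090007000d000d000c0003000300070004000a0009000e000e) (nat_lit 0x7055700007612) (nat_lit 16) Lb.e (@T16.mk En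
    (@En.n l180 (nat_lit 13809) (nat_lit 1) (nat_lit 14))
    (@En.i (nat_lit 563) (nat_lit 1) (nat_lit 14))
    (@En.n l2038 (nat_lit 13144) (nat_lit 2) (nat_lit 9))
    (@En.n l3749 (nat_lit 661) (nat_lit 3) (nat_lit 10))
    (@En.n l403 (nat_lit 13807) (nat_lit 4) (nat_lit 4))
    (@En.n l1353 (nat_lit 13734) (nat_lit 5) (nat_lit 7))
    (@En.n l18 (nat_lit 13812) (nat_lit 6) (nat_lit 3))
    (@En.n l7638 (nat_lit 13808) (nat_lit 7) (nat_lit 3))
    (@En.n l6444 (nat_lit 13811) (nat_lit 9) (nat_lit 12))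
    (@En.n l20955 (nat_lit 13808) (nat_lit 10) (nat_lit 13))
    (@En.n l1998 (nat_lit 13658) (nat_lit 11) (nat_lit 13))
    (@En.n l8252 (nat_lit 13698) (nat_lit 12) (nat_lit 7))
    (@En.n l1643 (nat_lit 13599) (nat_lit 13) (nat_lit 9))
    (@En.i (nat_lit 562) (nat_lit 14) (nat_lit 6))
    (@En.n l11 (nat_lit 13809) (nat_lit 14) (nat_lit 2))
    (@En.n l107 (nat_lit 13809) (nat_lit 15) (nat_lit 2))))
  (@Cl.mk (nat_lit 0x200020006000d000a00080003000e000d000200060003000a0008000e000e) (nat_lit 0x3340780007112) (nat_lit 16) Lb.e (@T16.mk En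
    (@En.n l5 (nat_lit 13810) (nat_lit 1) (nat_lit 14))
    (@En.n l2227 (nat_lit 844) (nat_lit 11) (nat_lit 14))
    (@En.n l27250 (nat_lit 12981) (nat_lit 2) (nat_lit 8))
    (@En.n l1018 (nat_lit 13605) (nat_lit 3) (nat_lit 10))
    (@En.n l1393 (nat_lit 13732) (nat_lit 4) (nat_lit 3))
    (@En.n l13306 (nat_lit 13913) (nat_lit 5) (nat_lit 6))
    (@En.n l11 (nat_lit 13810) (nat_lit 6) (nat_lit 2))
    (@En.n l2224 (nat_lit 13732) (nat_lit 8) (nat_lit 13))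
    (@En.n l2056 (nat_lit 13926) (nat_lit 9) (nat_lit 14))
    (@En.n l13304 (nat_lit 13804) (nat_lit 9) (nat_lit 3))
    (@En.i (nat_lit 12863) (nat_lit 11) (nat_lit 8))
    (@En.n l2225 (nat_lit 13805) (nat_lit 12) (nat_lit 10))
    (@En.n l4484 (nat_lit 13123) (nat_lit 13) (nat_lit 13))
    (@En.i (nat_lit 843) (nat_lit 6) (nat_lit 6))
    (@En.n l17 (nat_lit 13810) (nat_lit 14) (nat_lit 2))
    (@En.n l18 (nat_lit 13810) (nat_lit 15) (nat_lit 2))))
  (@Cl.mk (nat_lit 0x200020006000a0007000e000c0002000d000600040003000a0009000e000e) (nat_lit 0x8066090007512) (nat_lit 16) Lb.e (@T16.mk En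
    (@En.n l180 (nat_lit 13811) (nat_lit 1) (nat_lit 14))
    (@En.i (nat_lit 584) (nat_lit 1) (nat_lit 14))
    (@En.n l2038 (nat_lit 13142) (nat_lit 2) (nat_lit 9))
    (@En.n l3311 (nat_lit 13926) (nat_lit 3) (nat_lit 10))
    (@En.n l763 (nat_lit 13812) (nat_lit 4) (nat_lit 3))
    (@En.i (nat_lit 13743) (nat_lit 5) (nat_lit 4))
    (@En.n l764 (nat_lit 13813) (nat_lit 6) (nat_lit 6))
    (@En.n l2026 (nat_lit 13119) (nat_lit 8) (nat_lit 13))
    (@En.n l50 (nat_lit 13811) (nat_lit 8) (nat_lit 2))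
    (@En.n l217 (nat_lit 13807) (nat_lit 10) (nat_lit 12))
    (@En.n l2567 (nat_lit 13614) (nat_lit 11) (nat_lit 14))
    (@En.n l2900 (nat_lit 13898) (nat_lit 12) (nat_lit 7))
    (@En.n l1982 (nat_lit 13585) (nat_lit 13) (nat_lit 10))
    (@En.i (nat_lit 585) (nat_lit 14) (nat_lit 6))
    (@En.n l11 (nat_lit 13811) (nat_lit 14) (nat_lit 2))
    (@En.n l107 (nat_lit 13811) (nat_lit 15) (nat_lit 2))))
  (@Cl.mk (nat_lit 0x20002000600090007000e000d0002000d000300070003000a0009000e000e) (nat_lit 0x4066090007512) (nat_lit 16) Lb.e (@T16.mk En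
    (@En.n l180 (nat_lit 13812) (nat_lit 1) (nat_lit 14))
    (@En.i (nat_lit 566) (nat_lit 1) (nat_lit 14))
    (@En.n l2038 (nat_lit 13143) (nat_lit 2) (nat_lit 9))
    (@En.i (nat_lit 13813) (nat_lit 3) (nat_lit 10))
    (@En.n l2364 (nat_lit 13811) (nat_lit 4) (nat_lit 3))
    (@En.i (nat_lit 13049) (nat_lit 5) (nat_lit 7))
    (@En.i (nat_lit 13809) (nat_lit 6) (nat_lit 3))
    (@En.i (nat_lit 13122) (nat_lit 8) (nat_lit 13))
    (@En.n l50 (nat_lit 13812) (nat_lit 8) (nat_lit 2))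
    (@En.n l396 (nat_lit 13809) (nat_lit 10) (nat_lit 13))
    (@En.n l1998 (nat_lit 13659) (nat_lit 11) (nat_lit 14))
    (@En.n l14576 (nat_lit 13701) (nat_lit 12) (nat_lit 7))
    (@En.n l1643 (nat_lit 13814) (nat_lit 13) (nat_lit 9))
    (@En.i (nat_lit 565) (nat_lit 14) (nat_lit 6))
    (@En.n l11 (nat_lit 13812) (nat_lit 14) (nat_lit 2))
    (@En.n l107 (nat_lit 13812) (nat_lit 15) (nat_lit 2))))
  (@Cl.mk (nat_lit 0x200020006000a00090008000e000d0002000600030007000a0008000e000e) (nat_lit 0x3547100006412) (nat_lit 16) Lb.e (@T16.mk En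
    (@En.n l180 (nat_lit 13813) (nat_lit 1) (nat_lit 14))
    (@En.i (nat_lit 640) (nat_lit 10) (nat_lit 14))
    (@En.n l12269 (nat_lit 13149) (nat_lit 2) (nat_lit 8))
    (@En.n l12270 (nat_lit 13921) (nat_lit 3) (nat_lit 10))
    (@En.i (nat_lit 13047) (nat_lit 4) (nat_lit 7))
    (@En.n l3749 (nat_lit 661) (nat_lit 5) (nat_lit 3))
    (@En.n l387 (nat_lit 13605) (nat_lit 6) (nat_lit 6))
    (@En.n l50 (nat_lit 13813) (nat_lit 7) (nat_lit 2))
    (@En.n l4270 (nat_lit 661) (nat_lit 9) (nat_lit 13))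
    (@En.n l1998 (nat_lit 13716) (nat_lit 10) (nat_lit 14))
    (@En.n l12271 (nat_lit 13673) (nat_lit 11) (nat_lit 8))
    (@En.n l725 (nat_lit 13812) (nat_lit 12) (nat_lit 9))
    (@En.n l10357 (nat_lit 13842) (nat_lit 13) (nat_lit 10))
    (@En.i (nat_lit 641) (nat_lit 5) (nat_lit 6))
    (@En.n l11 (nat_lit 13813) (nat_lit 14) (nat_lit 2))
    (@En.n l107 (nat_lit 13813) (nat_lit 15) (nat_lit 2))))
  (@Cl.mk (nat_lit 0x2000200090006000e000d0002000c00030007000e00040002000a000e000e) (nat_lit 0x307807001003bc) (nat_lit 16) Lb.e (@T16.mk En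
    (@En.n l97 (nat_lit 13814) (nat_lit 1) (nat_lit 14))
    (@En.i (nat_lit 1215) (nat_lit 8) (nat_lit 14))
    (@En.n l1722 (nat_lit 13516) (nat_lit 2) (nat_lit 10))
    (@En.n l17 (nat_lit 13814) (nat_lit 3) (nat_lit 2))
    (@En.i (nat_lit 13529) (nat_lit 4) (nat_lit 4))
    (@En.n l2031 (nat_lit 237) (nat_lit 6) (nat_lit 14))
    (@En.i (nat_lit 13269) (nat_lit 6) (nat_lit 7))
    (@En.i (nat_lit 13599) (nat_lit 7) (nat_lit 3))
    (@En.i (nat_lit 13579) (nat_lit 9) (nat_lit 12))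
    (@En.n l7 (nat_lit 13814) (nat_lit 9) (nat_lit 2))
    (@En.n l601 (nat_lit 13599) (nat_lit 11) (nat_lit 13))
    (@En.n l2031 (nat_lit 13560) (nat_lit 12) (nat_lit 14))
    (@En.n l159 (nat_lit 13652) (nat_lit 13) (nat_lit 6))
    (@En.i (nat_lit 1285) (nat_lit 14) (nat_lit 9))
    (@En.n l107 (nat_lit 13814) (nat_lit 14) (nat_lit 2))
    (@En.n l3 (nat_lit 13814) (nat_lit 15) (nat_lit 2))))
  (@Cl.mk (nat_lit 0x200020007000e00070002000a000e000e00020002000900060009000e000e) (nat_lit 0x2008bc0010489) (nat_lit 16) Lb.e (@T16.mk En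
    (@En.n l601 (nat_lit 13815) (nat_lit 1) (nat_lit 14))
    (@En.i (nat_lit 13814) (nat_lit 11) (nat_lit 14))
    (@En.n l2031 (nat_lit 14084) (nat_lit 2) (nat_lit 9))
    (@En.n l12534 (nat_lit 13819) (nat_lit 13) (nat_lit 6))
    (@En.i (nat_lit 12877) (nat_lit 4) (nat_lit 9))
    (@En.n l107 (nat_lit 13815) (nat_lit 5) (nat_lit 2))
    (@En.n l3 (nat_lit 13815) (nat_lit 6) (nat_lit 2))
    (@En.n l97 (nat_lit 13815) (nat_lit 8) (nat_lit 14))
    (@En.i (nat_lit 13288) (nat_lit 9) (nat_lit 14))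
    (@En.n l5552 (nat_lit 13816) (nat_lit 2) (nat_lit 10))
    (@En.n l17 (nat_lit 13815) (nat_lit 10) (nat_lit 2))
    (@En.n l5553 (nat_lit 13816) (nat_lit 4) (nat_lit 7))
    (@En.n l2031 (nat_lit 254) (nat_lit 6) (nat_lit 14))
    (@En.i (nat_lit 13554) (nat_lit 6) (nat_lit 7))
    (@En.n l50 (nat_lit 13815) (nat_lit 14) (nat_lit 2))
    (@En.n l7 (nat_lit 13815) (nat_lit 15) (nat_lit 2))))
  (@Cl.mk (nat_lit 0x200020008000600090009000e000e00020002000800070007000a000e000e) (nat_lit 0x105567004007bc) (nat_lit 16) Lb.e (@T16.mk En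
    (@En.n l97 (nat_lit 13816) (nat_lit 1) (nat_lit 14))
    (@En.i (nat_lit 13286) (nat_lit 10) (nat_lit 14))
    (@En.n l8 (nat_lit 13817) (nat_lit 2) (nat_lit 10))
    (@En.n l77 (nat_lit 13817) (nat_lit 3) (nat_lit 7))
    (@En.i (nat_lit 13946) (nat_lit 13) (nat_lit 7))
    (@En.n l2140 (nat_lit 13553) (nat_lit 5) (nat_lit 8))
    (@En.n l17 (nat_lit 13816) (nat_lit 6) (nat_lit 2))
    (@En.n l18 (nat_lit 13816) (nat_lit 7) (nat_lit 2))
    (@En.n l5 (nat_lit 13816) (nat_lit 9) (nat_lit 14))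
    (@En.n l420 (nat_lit 13516) (nat_lit 10) (nat_lit 14))
    (@En.n l2110 (nat_lit 13815) (nat_lit 2) (nat_lit 9))
    (@En.n l26996 (nat_lit 14083) (nat_lit 3) (nat_lit 9))
    (@En.n l13293 (nat_lit 13818) (nat_lit 13) (nat_lit 6))
    (@En.i (nat_lit 12879) (nat_lit 5) (nat_lit 8))
    (@En.n l107 (nat_lit 13816) (nat_lit 14) (nat_lit 2))
    (@En.n l3 (nat_lit 13816) (nat_lit 15) (nat_lit 2))))
  (@Cl.mk (nat_lit 0x2000200070006000e00090002000e000e0002000200090007000a000e000e) (nat_lit 0x7607800406bc) (nat_lit 16) Lb.e (@T16.mk En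
    (@En.n l97 (nat_lit 13817) (nat_lit 1) (nat_lit 14))
    (@En.i (nat_lit 13290) (nat_lit 11) (nat_lit 14))
    (@En.i (nat_lit 14086) (nat_lit 2) (nat_lit 10))
    (@En.i (nat_lit 13945) (nat_lit 13) (nat_lit 7))
    (@En.n l1529 (nat_lit 13557) (nat_lit 4) (nat_lit 9))
    (@En.n l17 (nat_lit 13817) (nat_lit 5) (nat_lit 2))
    (@En.n l18 (nat_lit 13817) (nat_lit 6) (nat_lit 2))
    (@En.n l5 (nat_lit 13817) (nat_lit 8) (nat_lit 14))
    (@En.n l564 (nat_lit 13515) (nat_lit 9) (nat_lit 14))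
    (@En.n l7 (nat_lit 13817) (nat_lit 9) (nat_lit 2))
    (@En.i (nat_lit 13816) (nat_lit 11) (nat_lit 9))
    (@En.i (nat_lit 14062) (nat_lit 12) (nat_lit 14))
    (@En.n l13293 (nat_lit 13822) (nat_lit 13) (nat_lit 6))
    (@En.i (nat_lit 12884) (nat_lit 6) (nat_lit 7))
    (@En.n l107 (nat_lit 13817) (nat_lit 14) (nat_lit 2))
    (@En.n l3 (nat_lit 13817) (nat_lit 15) (nat_lit 2))))
  (@Cl.mk (nat_lit 0x20002000600090009000e000e00020002000c00070007000a0004000e000e) (nat_lit 0x3256001007012) (nat_lit 16) Lb.e (@T16.mk En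
    (@En.n l5 (nat_lit 13818) (nat_lit 1) (nat_lit 14))
    (@En.n l1449 (nat_lit 714) (nat_lit 9) (nat_lit 14))
    (@En.n l12303 (nat_lit 13821) (nat_lit 2) (nat_lit 4))
    (@En.n l1098 (nat_lit 13822) (nat_lit 3) (nat_lit 10))
    (@En.n l1769 (nat_lit 13822) (nat_lit 4) (nat_lit 7))
    (@En.n l12304 (nat_lit 13948) (nat_lit 5) (nat_lit 7))
    (@En.n l3638 (nat_lit 12878) (nat_lit 7) (nat_lit 12))
    (@En.n l11 (nat_lit 13818) (nat_lit 7) (nat_lit 2))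
    (@En.n l67 (nat_lit 13818) (nat_lit 8) (nat_lit 2))
    (@En.n l68 (nat_lit 13818) (nat_lit 10) (nat_lit 14))
    (@En.i (nat_lit 13657) (nat_lit 11) (nat_lit 14))
    (@En.n l7159 (nat_lit 13819) (nat_lit 12) (nat_lit 9))
    (@En.n l11726 (nat_lit 13820) (nat_lit 13) (nat_lit 9))
    (@En.n l12305 (nat_lit 713) (nat_lit 4) (nat_lit 6))
    (@En.n l17 (nat_lit 13818) (nat_lit 14) (nat_lit 2))
    (@En.n l18 (nat_lit 13818) (nat_lit 15) (nat_lit 2))))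
  (@Cl.mk (nat_lit 0x2000200060009000e000e00020002000b000e00070002000a0005000e000e) (nat_lit 0x1890013008012) (nat_lit 16) Lb.e (@T16.mk En
    (@En.n l5 (nat_lit 13819) (nat_lit 1) (nat_lit 14))
    (@En.n l1998 (nat_lit 717) (nat_lit 8) (nat_lit 14))
    (@En.n l11680 (nat_lit 13820) (nat_lit 2) (nat_lit 5))
    (@En.n l11979 (nat_lit 13818) (nat_lit 3) (nat_lit 10))
    (@En.n l11 (nat_lit 13819) (nat_lit 4) (nat_lit 2))
    (@En.n l12478 (nat_lit 13818) (nat_lit 5) (nat_lit 7))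
    (@En.i (nat_lit 270) (nat_lit 7) (nat_lit 14))
    (@En.n l1889 (nat_lit 12877) (nat_lit 8) (nat_lit 11))
    (@En.n l3 (nat_lit 13819) (nat_lit 8) (nat_lit 2))
    (@En.n l476 (nat_lit 13819) (nat_lit 9) (nat_lit 2))
    (@En.n l624 (nat_lit 13819) (nat_lit 11) (nat_lit 14))
    (@En.n l1998 (nat_lit 13652) (nat_lit 12) (nat_lit 14))
    (@En.n l1997 (nat_lit 13279) (nat_lit 13) (nat_lit 9))
    (@En.n l2568 (nat_lit 718) (nat_lit 3) (nat_lit 6))
    (@En.n l17 (nat_lit 13819) (nat_lit 14) (nat_lit 2))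
    (@En.n l18 (nat_lit 13819) (nat_lit 15) (nat_lit 2))))
  (@Cl.mk (nat_lit 0x2000200090008000e000e00020002000b0007000e000800020005000e000e) (nat_lit 0x21450020450089) (nat_lit 16) Lb.e (@T16.mk En
    (@En.n l97 (nat_lit 13820) (nat_lit 1) (nat_lit 14))
    (@En.i (nat_lit 12959) (nat_lit 8) (nat_lit 14))
    (@En.n l1915 (nat_lit 13826) (nat_lit 2) (nat_lit 5))
    (@En.n l17 (nat_lit 13820) (nat_lit 3) (nat_lit 2))
    (@En.n l1916 (nat_lit 13821) (nat_lit 4) (nat_lit 8))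
    (@En.n l5609 (nat_lit 13819) (nat_lit 6) (nat_lit 14))
    (@En.i (nat_lit 13815) (nat_lit 13) (nat_lit 7))
    (@En.n l532 (nat_lit 12876) (nat_lit 8) (nat_lit 11))
    (@En.n l50 (nat_lit 13820) (nat_lit 8) (nat_lit 2))
    (@En.n l7 (nat_lit 13820) (nat_lit 9) (nat_lit 2))
    (@En.n l601 (nat_lit 13820) (nat_lit 11) (nat_lit 14))
    (@En.i (nat_lit 13649) (nat_lit 12) (nat_lit 14))
    (@En.n l1913 (nat_lit 13278) (nat_lit 13) (nat_lit 8))
    (@En.n l5610 (nat_lit 13551) (nat_lit 3) (nat_lit 9))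
    (@En.n l107 (nat_lit 13820) (nat_lit 14) (nat_lit 2))
    (@En.n l3 (nat_lit 13820) (nat_lit 15) (nat_lit 2))))
  (@Cl.mk (nat_lit 0x20002000800080008000e000e00020002000c0008000800080004000e000e) (nat_lit 0x23256002546078) (nat_lit 16) Lb.e (@T16.mk En
    (@En.n l134 (nat_lit 13821) (nat_lit 1) (nat_lit 14))
    (@En.i (nat_lit 12950) (nat_lit 9) (nat_lit 14))
    (@En.n l13727 (nat_lit 13825) (nat_lit 2) (nat_lit 4))
    (@En.n l13728 (nat_lit 13823) (nat_lit 3) (nat_lit 8))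
    (@En.n l5574 (nat_lit 13824) (nat_lit 12) (nat_lit 8))
    (@En.n l5521 (nat_lit 13816) (nat_lit 5) (nat_lit 8))
    (@En.n l2568 (nat_lit 12888) (nat_lit 7) (nat_lit 12))
    (@En.n l17 (nat_lit 13821) (nat_lit 7) (nat_lit 2))
    (@En.n l18 (nat_lit 13821) (nat_lit 8) (nat_lit 2))
    (@En.n l5 (nat_lit 13821) (nat_lit 10) (nat_lit 14))
    (@En.n l5514 (nat_lit 13692) (nat_lit 11) (nat_lit 14))
    (@En.n l5515 (nat_lit 13820) (nat_lit 12) (nat_lit 8))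
    (@En.n l152 (nat_lit 13826) (nat_lit 13) (nat_lit 8))
    (@En.n l4940 (nat_lit 13552) (nat_lit 4) (nat_lit 8))
    (@En.n l7 (nat_lit 13821) (nat_lit 14) (nat_lit 2))
    (@En.n l28 (nat_lit 13821) (nat_lit 15) (nat_lit 2))))
  (@Cl.mk (nat_lit 0x200020006000e00090002000e000e00020002000d0007000a0003000e000e) (nat_lit 0x6405600106012) (nat_lit 16) Lb.e (@T16.mk En
    (@En.n l5 (nat_lit 13822) (nat_lit 1) (nat_lit 14))
    (@En.n l1449 (nat_lit 720) (nat_lit 10) (nat_lit 14))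
    (@En.n l4775 (nat_lit 13823) (nat_lit 2) (nat_lit 3))
    (@En.n l891 (nat_lit 14088) (nat_lit 3) (nat_lit 10))
    (@En.n l1449 (nat_lit 13947) (nat_lit 4) (nat_lit 7))
    (@En.n l3018 (nat_lit 12881) (nat_lit 6) (nat_lit 13))
    (@En.n l11 (nat_lit 13822) (nat_lit 6) (nat_lit 2))
    (@En.n l67 (nat_lit 13822) (nat_lit 7) (nat_lit 2))
    (@En.n l68 (nat_lit 13822) (nat_lit 9) (nat_lit 14))
    (@En.i (nat_lit 13672) (nat_lit 10) (nat_lit 14))
    (@En.n l936 (nat_lit 13822) (nat_lit 10) (nat_lit 2))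
    (@En.i (nat_lit 13818) (nat_lit 12) (nat_lit 9))
    (@En.n l4776 (nat_lit 13824) (nat_lit 5) (nat_lit 14))
    (@En.n l3015 (nat_lit 719) (nat_lit 5) (nat_lit 6))
    (@En.n l17 (nat_lit 13822) (nat_lit 14) (nat_lit 2))
    (@En.n l18 (nat_lit 13822) (nat_lit 15) (nat_lit 2))))
  (@Cl.mk (nat_lit 0x200020007000e00080002000e000e00020002000d000900080003000e000e) (nat_lit 0x8405600a55056) (nat_lit 16) Lb.e (@T16.mk En
    (@En.n l180 (nat_lit 13823) (nat_lit 1) (nat_lit 14))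
    (@En.n l182 (nat_lit 13408) (nat_lit 10) (nat_lit 14))
    (@En.n l1527 (nat_lit 13822) (nat_lit 2) (nat_lit 3))
    (@En.n l182 (nat_lit 13953) (nat_lit 3) (nat_lit 8))
    (@En.n l182 (nat_lit 13817) (nat_lit 4) (nat_lit 9))
    (@En.n l1347 (nat_lit 13029) (nat_lit 6) (nat_lit 13))
    (@En.n l17 (nat_lit 13823) (nat_lit 6) (nat_lit 2))
    (@En.n l18 (nat_lit 13823) (nat_lit 7) (nat_lit 2))
    (@En.n l5 (nat_lit 13823) (nat_lit 9) (nat_lit 14))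
    (@En.n l4579 (nat_lit 13673) (nat_lit 10) (nat_lit 14))
    (@En.n l7 (nat_lit 13823) (nat_lit 10) (nat_lit 2))
    (@En.n l12450 (nat_lit 13821) (nat_lit 12) (nat_lit 8))
    (@En.n l12451 (nat_lit 14057) (nat_lit 5) (nat_lit 14))
    (@En.n l10295 (nat_lit 13404) (nat_lit 5) (nat_lit 7))
    (@En.n l11 (nat_lit 13823) (nat_lit 14) (nat_lit 2))
    (@En.n l107 (nat_lit 13823) (nat_lit 15) (nat_lit 2))))
noncomputable def a864 : T16 Cl := @T16.mk Cl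
  (@Cl.mk (nat_lit 0x20002000d000800070003000e000e00020002000e000800020009000e000e) (nat_lit 0xa3006700530367) (nat_lit 16) Lb.e (@T16.mk En
    (@En.n l5 (nat_lit 13824) (nat_lit 1) (nat_lit 14))
    (@En.n l803 (nat_lit 12861) (nat_lit 10) (nat_lit 14))
    (@En.n l5565 (nat_lit 13818) (nat_lit 11) (nat_lit 9))
    (@En.n l28 (nat_lit 13824) (nat_lit 3) (nat_lit 2))
    (@En.n l1893 (nat_lit 13821) (nat_lit 13) (nat_lit 8))
    (@En.n l584 (nat_lit 13572) (nat_lit 6) (nat_lit 14))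
    (@En.n l107 (nat_lit 13824) (nat_lit 6) (nat_lit 2))
    (@En.n l3 (nat_lit 13824) (nat_lit 7) (nat_lit 2))
    (@En.n l97 (nat_lit 13824) (nat_lit 9) (nat_lit 14))
    (@En.n l13 (nat_lit 12948) (nat_lit 10) (nat_lit 14))
    (@En.n l5566 (nat_lit 14057) (nat_lit 10) (nat_lit 3))
    (@En.n l1374 (nat_lit 14056) (nat_lit 12) (nat_lit 7))
    (@En.n l13 (nat_lit 13949) (nat_lit 13) (nat_lit 8))
    (@En.n l587 (nat_lit 13017) (nat_lit 6) (nat_lit 13))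
    (@En.n l17 (nat_lit 13824) (nat_lit 14) (nat_lit 2))
    (@En.n l18 (nat_lit 13824) (nat_lit 15) (nat_lit 2))))
  (@Cl.mk (nat_lit 0x2000200070007000a000e000e00020002000c0006000900090004000e000e) (nat_lit 0x2bc0030660bc) (nat_lit 16) Lb.e (@T16.mk En
    (@En.n l396 (nat_lit 13825) (nat_lit 1) (nat_lit 14))
    (@En.n l13697 (nat_lit 13411) (nat_lit 9) (nat_lit 14))
    (@En.n l404 (nat_lit 13818) (nat_lit 2) (nat_lit 4))
    (@En.n l2781 (nat_lit 14057) (nat_lit 11) (nat_lit 9))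
    (@En.n l12920 (nat_lit 13823) (nat_lit 4) (nat_lit 9))
    (@En.n l13698 (nat_lit 14059) (nat_lit 13) (nat_lit 6))
    (@En.n l13699 (nat_lit 12897) (nat_lit 7) (nat_lit 12))
    (@En.n l107 (nat_lit 13825) (nat_lit 7) (nat_lit 2))
    (@En.n l3 (nat_lit 13825) (nat_lit 8) (nat_lit 2))
    (@En.n l97 (nat_lit 13825) (nat_lit 10) (nat_lit 14))
    (@En.i (nat_lit 13701) (nat_lit 11) (nat_lit 14))
    (@En.n l13700 (nat_lit 13827) (nat_lit 12) (nat_lit 10))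
    (@En.n l13701 (nat_lit 13827) (nat_lit 13) (nat_lit 7))
    (@En.n l1353 (nat_lit 13563) (nat_lit 4) (nat_lit 7))
    (@En.n l18 (nat_lit 13825) (nat_lit 14) (nat_lit 2))
    (@En.n l50 (nat_lit 13825) (nat_lit 15) (nat_lit 2))))
  (@Cl.mk (nat_lit 0x2000200080007000e000e00020002000b000e0008000200090005000e000e) (nat_lit 0x20450029607067) (nat_lit 16) Lb.e (@T16.mk En
    (@En.n l134 (nat_lit 13826) (nat_lit 1) (nat_lit 14))
    (@En.i (nat_lit 12958) (nat_lit 8) (nat_lit 14))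
    (@En.n l13770 (nat_lit 13827) (nat_lit 2) (nat_lit 5))
    (@En.n l13771 (nat_lit 13825) (nat_lit 3) (nat_lit 9))
    (@En.n l3 (nat_lit 13826) (nat_lit 4) (nat_lit 2))
    (@En.i (nat_lit 13821) (nat_lit 5) (nat_lit 8))
    (@En.i (nat_lit 14081) (nat_lit 7) (nat_lit 14))
    (@En.n l2568 (nat_lit 723) (nat_lit 8) (nat_lit 11))
    (@En.n l17 (nat_lit 13826) (nat_lit 8) (nat_lit 2))
    (@En.n l18 (nat_lit 13826) (nat_lit 9) (nat_lit 2))
    (@En.n l5 (nat_lit 13826) (nat_lit 11) (nat_lit 14))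
    (@En.n l4021 (nat_lit 13695) (nat_lit 12) (nat_lit 14))
    (@En.i (nat_lit 13280) (nat_lit 13) (nat_lit 7))
    (@En.n l5577 (nat_lit 13539) (nat_lit 3) (nat_lit 8))
    (@En.n l7 (nat_lit 13826) (nat_lit 14) (nat_lit 2))
    (@En.n l28 (nat_lit 13826) (nat_lit 15) (nat_lit 2))))
  (@Cl.mk (nat_lit 0x200020007000a000e000e00020002000b0006000e000900020005000e000e) (nat_lit 0x1bc0030a70078) (nat_lit 16) Lb.e (@T16.mk En
    (@En.n l5 (nat_lit 13827) (nat_lit 1) (nat_lit 14))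
    (@En.n l2036 (nat_lit 13413) (nat_lit 8) (nat_lit 14))
    (@En.i (nat_lit 13819) (nat_lit 2) (nat_lit 5))
    (@En.n l7 (nat_lit 13827) (nat_lit 3) (nat_lit 2))
    (@En.n l5492 (nat_lit 13825) (nat_lit 4) (nat_lit 9))
    (@En.n l13815 (nat_lit 13826) (nat_lit 6) (nat_lit 14))
    (@En.n l27326 (nat_lit 14060) (nat_lit 13) (nat_lit 6))
    (@En.n l1889 (nat_lit 12899) (nat_lit 8) (nat_lit 11))
    (@En.n l3 (nat_lit 13827) (nat_lit 8) (nat_lit 2))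
    (@En.n l476 (nat_lit 13827) (nat_lit 9) (nat_lit 2))
    (@En.n l624 (nat_lit 13827) (nat_lit 11) (nat_lit 14))
    (@En.n l2031 (nat_lit 13697) (nat_lit 12) (nat_lit 14))
    (@En.n l2036 (nat_lit 13281) (nat_lit 8) (nat_lit 10))
    (@En.n l2568 (nat_lit 13347) (nat_lit 3) (nat_lit 7))
    (@En.n l17 (nat_lit 13827) (nat_lit 14) (nat_lit 2))
    (@En.n l18 (nat_lit 13827) (nat_lit 15) (nat_lit 2))))
  (@Cl.mk (nat_lit 0x200020008000c0009000d000900040003000d0008000700030007000e000e) (nat_lit 0x33445008300034) (nat_lit 16) Lb.e (@T16.mk En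
    (@En.n l97 (nat_lit 13828) (nat_lit 1) (nat_lit 14))
    (@En.n l26879 (nat_lit 5339) (nat_lit 1) (nat_lit 14))
    (@En.n l9580 (nat_lit 12874) (nat_lit 2) (nat_lit 7))
    (@En.n l11698 (nat_lit 13794) (nat_lit 3) (nat_lit 3))
    (@En.n l4295 (nat_lit 13938) (nat_lit 4) (nat_lit 7))
    (@En.n l9580 (nat_lit 13883) (nat_lit 5) (nat_lit 8))
    (@En.n l26880 (nat_lit 13224) (nat_lit 7) (nat_lit 13))
    (@En.n l26881 (nat_lit 13796) (nat_lit 7) (nat_lit 3))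
    (@En.i (nat_lit 13832) (nat_lit 8) (nat_lit 4))
    (@En.n l11719 (nat_lit 13797) (nat_lit 10) (nat_lit 9))
    (@En.n l26879 (nat_lit 13270) (nat_lit 11) (nat_lit 13))
    (@En.n l9397 (nat_lit 13781) (nat_lit 12) (nat_lit 9))
    (@En.i (nat_lit 13969) (nat_lit 13) (nat_lit 12))
    (@En.n l26879 (nat_lit 5183) (nat_lit 14) (nat_lit 8))
    (@En.n l107 (nat_lit 13828) (nat_lit 14) (nat_lit 2))
    (@En.n l3 (nat_lit 13828) (nat_lit 15) (nat_lit 2))))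
  (@Cl.mk (nat_lit 0x200020008000c000c0008000b00040004000d0008000500030008000e000e) (nat_lit 0x2355700a100489) (nat_lit 16) Lb.e (@T16.mk En
    (@En.n l97 (nat_lit 13829) (nat_lit 1) (nat_lit 14))
    (@En.n l3337 (nat_lit 6983) (nat_lit 1) (nat_lit 14))
    (@En.n l4714 (nat_lit 13831) (nat_lit 2) (nat_lit 8))
    (@En.n l1430 (nat_lit 13830) (nat_lit 3) (nat_lit 3))
    (@En.n l9963 (nat_lit 13384) (nat_lit 4) (nat_lit 5))
    (@En.n l1490 (nat_lit 13332) (nat_lit 5) (nat_lit 8))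
    (@En.n l1388 (nat_lit 13298) (nat_lit 7) (nat_lit 13))
    (@En.n l9965 (nat_lit 13835) (nat_lit 7) (nat_lit 4))
    (@En.n l28 (nat_lit 13828) (nat_lit 8) (nat_lit 4))
    (@En.n l1490 (nat_lit 13424) (nat_lit 10) (nat_lit 11))
    (@En.n l1891 (nat_lit 13909) (nat_lit 11) (nat_lit 8))
    (@En.n l77 (nat_lit 13832) (nat_lit 12) (nat_lit 12))
    (@En.i (nat_lit 13976) (nat_lit 13) (nat_lit 12))
    (@En.n l1490 (nat_lit 7598) (nat_lit 14) (nat_lit 8))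
    (@En.n l107 (nat_lit 13829) (nat_lit 14) (nat_lit 2))
    (@En.n l3 (nat_lit 13829) (nat_lit 15) (nat_lit 2))))
  (@Cl.mk (nat_lit 0x200020007000c000c0008000c00040004000d0004000900030008000e000e) (nat_lit 0x355500a020423) (nat_lit 16) Lb.e (@T16.mk En
    (@En.n l5 (nat_lit 13830) (nat_lit 1) (nat_lit 14))
    (@En.n l564 (nat_lit 5567) (nat_lit 1) (nat_lit 14))
    (@En.n l3506 (nat_lit 13918) (nat_lit 2) (nat_lit 8))
    (@En.n l1684 (nat_lit 13829) (nat_lit 3) (nat_lit 3))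
    (@En.n l5022 (nat_lit 13012) (nat_lit 4) (nat_lit 9))
    (@En.i (nat_lit 13831) (nat_lit 5) (nat_lit 4))
    (@En.n l476 (nat_lit 13297) (nat_lit 7) (nat_lit 13))
    (@En.n l3498 (nat_lit 13837) (nat_lit 7) (nat_lit 4))
    (@En.n l13355 (nat_lit 13794) (nat_lit 8) (nat_lit 4))
    (@En.i (nat_lit 13429) (nat_lit 10) (nat_lit 12))
    (@En.n l538 (nat_lit 13798) (nat_lit 11) (nat_lit 8))
    (@En.n l4003 (nat_lit 13833) (nat_lit 12) (nat_lit 12))
    (@En.n l1554 (nat_lit 13977) (nat_lit 13) (nat_lit 12))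
    (@En.i (nat_lit 7600) (nat_lit 14) (nat_lit 7))
    (@En.n l17 (nat_lit 13830) (nat_lit 14) (nat_lit 2))
    (@En.n l18 (nat_lit 13830) (nat_lit 15) (nat_lit 2))))
  (@Cl.mk (nat_lit 0x200020007000b000b0008000c000b000500050004000900050008000e000e) (nat_lit 0x3467800010367) (nat_lit 16) Lb.e (@T16.mk En
    (@En.n l5 (nat_lit 13831) (nat_lit 1) (nat_lit 14))
    (@En.n l564 (nat_lit 7250) (nat_lit 1) (nat_lit 14))
    (@En.n l3506 (nat_lit 13926) (nat_lit 2) (nat_lit 8))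
    (@En.n l18964 (nat_lit 13385) (nat_lit 3) (nat_lit 5))
    (@En.n l21530 (nat_lit 13330) (nat_lit 4) (nat_lit 9))
    (@En.n l17159 (nat_lit 13791) (nat_lit 5) (nat_lit 4))
    (@En.n l3498 (nat_lit 13836) (nat_lit 6) (nat_lit 5))
    (@En.n l936 (nat_lit 12874) (nat_lit 7) (nat_lit 5))
    (@En.n l1554 (nat_lit 13829) (nat_lit 9) (nat_lit 11))
    (@En.i (nat_lit 13433) (nat_lit 10) (nat_lit 12))
    (@En.n l21530 (nat_lit 13906) (nat_lit 11) (nat_lit 8))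
    (@En.n l4003 (nat_lit 13834) (nat_lit 12) (nat_lit 11))
    (@En.n l2823 (nat_lit 14039) (nat_lit 13) (nat_lit 11))
    (@En.i (nat_lit 7599) (nat_lit 14) (nat_lit 7))
    (@En.n l17 (nat_lit 13831) (nat_lit 14) (nat_lit 2))
    (@En.n l18 (nat_lit 13831) (nat_lit 15) (nat_lit 2))))
  (@Cl.mk (nat_lit 0x200020008000c0007000a000e00040002000d0008000600030009000e000e) (nat_lit 0x3405600a6005bc) (nat_lit 16) Lb.e (@T16.mk En
    (@En.n l97 (nat_lit 13832) (nat_lit 1) (nat_lit 14))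
    (@En.n l3337 (nat_lit 6967) (nat_lit 1) (nat_lit 14))
    (@En.n l9502 (nat_lit 13834) (nat_lit 2) (nat_lit 9))
    (@En.n l2199 (nat_lit 13833) (nat_lit 3) (nat_lit 3))
    (@En.n l1722 (nat_lit 13393) (nat_lit 4) (nat_lit 6))
    (@En.n l12896 (nat_lit 13838) (nat_lit 5) (nat_lit 8))
    (@En.i (nat_lit 13624) (nat_lit 7) (nat_lit 13))
    (@En.n l7 (nat_lit 13832) (nat_lit 7) (nat_lit 2))
    (@En.i (nat_lit 13829) (nat_lit 8) (nat_lit 4))
    (@En.n l3337 (nat_lit 13271) (nat_lit 10) (nat_lit 14))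
    (@En.i (nat_lit 13427) (nat_lit 11) (nat_lit 10))
    (@En.i (nat_lit 13218) (nat_lit 12) (nat_lit 7))
    (@En.i (nat_lit 13161) (nat_lit 13) (nat_lit 12))
    (@En.n l3337 (nat_lit 7509) (nat_lit 14) (nat_lit 8))
    (@En.n l107 (nat_lit 13832) (nat_lit 14) (nat_lit 2))
    (@En.n l3 (nat_lit 13832) (nat_lit 15) (nat_lit 2))))
  (@Cl.mk (nat_lit 0x200020007000c0007000b000e00040002000d0005000900030009000e000e) (nat_lit 0x404700a0306bc) (nat_lit 16) Lb.e (@T16.mk En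
    (@En.n l134 (nat_lit 13833) (nat_lit 1) (nat_lit 14))
    (@En.i (nat_lit 6966) (nat_lit 1) (nat_lit 14))
    (@En.n l253 (nat_lit 13573) (nat_lit 2) (nat_lit 9))
    (@En.n l11610 (nat_lit 13832) (nat_lit 3) (nat_lit 3))
    (@En.n l781 (nat_lit 13011) (nat_lit 4) (nat_lit 9))
    (@En.i (nat_lit 13834) (nat_lit 5) (nat_lit 5))
    (@En.n l2125 (nat_lit 13631) (nat_lit 7) (nat_lit 13))
    (@En.n l17 (nat_lit 13833) (nat_lit 7) (nat_lit 2))
    (@En.n l3187 (nat_lit 13830) (nat_lit 8) (nat_lit 4))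
    (@En.i (nat_lit 13273) (nat_lit 10) (nat_lit 14))
    (@En.n l1326 (nat_lit 13431) (nat_lit 11) (nat_lit 11))
    (@En.n l5592 (nat_lit 13220) (nat_lit 12) (nat_lit 7))
    (@En.n l2571 (nat_lit 13164) (nat_lit 13) (nat_lit 12))
    (@En.i (nat_lit 7508) (nat_lit 14) (nat_lit 7))
    (@En.n l7 (nat_lit 13833) (nat_lit 14) (nat_lit 2))
    (@En.n l28 (nat_lit 13833) (nat_lit 15) (nat_lit 2))))
  (@Cl.mk (nat_lit 0x200020007000b0007000b000a000e000500020005000900060009000e000e) (nat_lit 0x30568000704bc) (nat_lit 16) Lb.e (@T16.mk En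
    (@En.n l134 (nat_lit 13834) (nat_lit 1) (nat_lit 14))
    (@En.i (nat_lit 7251) (nat_lit 11) (nat_lit 14))
    (@En.n l5033 (nat_lit 13927) (nat_lit 2) (nat_lit 9))
    (@En.n l10028 (nat_lit 13388) (nat_lit 3) (nat_lit 6))
    (@En.n l3105 (nat_lit 13839) (nat_lit 4) (nat_lit 9))
    (@En.n l3106 (nat_lit 13596) (nat_lit 5) (nat_lit 5))
    (@En.n l17 (nat_lit 13834) (nat_lit 6) (nat_lit 2))
    (@En.n l3187 (nat_lit 13831) (nat_lit 7) (nat_lit 5))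
    (@En.n l3 (nat_lit 13833) (nat_lit 9) (nat_lit 14))
    (@En.n l2571 (nat_lit 13832) (nat_lit 10) (nat_lit 10))
    (@En.n l5032 (nat_lit 13669) (nat_lit 11) (nat_lit 11))
    (@En.n l27331 (nat_lit 13219) (nat_lit 12) (nat_lit 7))
    (@En.n l5032 (nat_lit 13165) (nat_lit 13) (nat_lit 11))
    (@En.i (nat_lit 7453) (nat_lit 6) (nat_lit 7))
    (@En.n l7 (nat_lit 13834) (nat_lit 14) (nat_lit 2))
    (@En.n l28 (nat_lit 13834) (nat_lit 15) (nat_lit 2))))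
  (@Cl.mk (nat_lit 0x200020008000e000c00020009000c0004000d0008000400030007000e000e) (nat_lit 0x3340670a100089) (nat_lit 16) Lb.e (@T16.mk En
    (@En.n l396 (nat_lit 13835) (nat_lit 1) (nat_lit 14))
    (@En.i (nat_lit 6978) (nat_lit 7) (nat_lit 14))
    (@En.n l343 (nat_lit 13836) (nat_lit 2) (nat_lit 7))
    (@En.n l28 (nat_lit 13837) (nat_lit 3) (nat_lit 3))
    (@En.n l1393 (nat_lit 13391) (nat_lit 4) (nat_lit 4))
    (@En.i (nat_lit 13294) (nat_lit 5) (nat_lit 8))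
    (@En.n l1253 (nat_lit 12955) (nat_lit 7) (nat_lit 13))
    (@En.n l6610 (nat_lit 13799) (nat_lit 7) (nat_lit 4))
    (@En.n l387 (nat_lit 13423) (nat_lit 9) (nat_lit 12))
    (@En.n l699 (nat_lit 13418) (nat_lit 10) (nat_lit 9))
    (@En.n l3 (nat_lit 13835) (nat_lit 10) (nat_lit 2))
    (@En.n l4037 (nat_lit 13829) (nat_lit 12) (nat_lit 12))
    (@En.n l699 (nat_lit 13113) (nat_lit 13) (nat_lit 14))
    (@En.i (nat_lit 7596) (nat_lit 2) (nat_lit 8))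
    (@En.n l18 (nat_lit 13835) (nat_lit 14) (nat_lit 2))
    (@En.n l50 (nat_lit 13835) (nat_lit 15) (nat_lit 2))))
  (@Cl.mk (nat_lit 0x200020007000e000b00020009000d000c00050003000900040007000e000e) (nat_lit 0x3407280010089) (nat_lit 16) Lb.e (@T16.mk En
    (@En.n l396 (nat_lit 13836) (nat_lit 1) (nat_lit 14))
    (@En.i (nat_lit 6979) (nat_lit 7) (nat_lit 14))
    (@En.n l766 (nat_lit 13921) (nat_lit 2) (nat_lit 7))
    (@En.n l11 (nat_lit 13389) (nat_lit 3) (nat_lit 4))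
    (@En.n l287 (nat_lit 13327) (nat_lit 4) (nat_lit 9))
    (@En.n l11 (nat_lit 13837) (nat_lit 5) (nat_lit 3))
    (@En.n l2238 (nat_lit 13907) (nat_lit 6) (nat_lit 5))
    (@En.n l55 (nat_lit 13835) (nat_lit 8) (nat_lit 12))
    (@En.n l387 (nat_lit 13432) (nat_lit 9) (nat_lit 13))
    (@En.n l699 (nat_lit 13525) (nat_lit 10) (nat_lit 9))
    (@En.n l3 (nat_lit 13836) (nat_lit 10) (nat_lit 2))
    (@En.n l387 (nat_lit 13831) (nat_lit 12) (nat_lit 11))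
    (@En.n l699 (nat_lit 13110) (nat_lit 13) (nat_lit 14))
    (@En.i (nat_lit 7594) (nat_lit 14) (nat_lit 7))
    (@En.n l18 (nat_lit 13836) (nat_lit 14) (nat_lit 2))
    (@En.n l50 (nat_lit 13836) (nat_lit 15) (nat_lit 2))))
  (@Cl.mk (nat_lit 0x200020007000e000c00020009000d0004000d0003000900030007000e000e) (nat_lit 0x340730a010089) (nat_lit 16) Lb.e (@T16.mk En
    (@En.n l396 (nat_lit 13837) (nat_lit 1) (nat_lit 14))
    (@En.i (nat_lit 6977) (nat_lit 7) (nat_lit 14))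
    (@En.n l766 (nat_lit 13920) (nat_lit 2) (nat_lit 7))
    (@En.i (nat_lit 13835) (nat_lit 3) (nat_lit 3))
    (@En.i (nat_lit 13015) (nat_lit 4) (nat_lit 9))
    (@En.i (nat_lit 13836) (nat_lit 5) (nat_lit 3))
    (@En.n l1253 (nat_lit 12958) (nat_lit 7) (nat_lit 13))
    (@En.n l6610 (nat_lit 13795) (nat_lit 7) (nat_lit 4))
    (@En.n l387 (nat_lit 13430) (nat_lit 9) (nat_lit 13))
    (@En.n l699 (nat_lit 13419) (nat_lit 10) (nat_lit 9))
    (@En.n l3 (nat_lit 13837) (nat_lit 10) (nat_lit 2))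
    (@En.n l387 (nat_lit 13830) (nat_lit 12) (nat_lit 12))
    (@En.n l699 (nat_lit 13111) (nat_lit 13) (nat_lit 14))
    (@En.i (nat_lit 7595) (nat_lit 14) (nat_lit 7))
    (@En.n l18 (nat_lit 13837) (nat_lit 14) (nat_lit 2))
    (@En.n l50 (nat_lit 13837) (nat_lit 15) (nat_lit 2))))
  (@Cl.mk (nat_lit 0x2000200080007000c0008000b000e000400020008000500090008000e000e) (nat_lit 0x105567005022bc) (nat_lit 16) Lb.e (@T16.mk En
    (@En.n l134 (nat_lit 13838) (nat_lit 1) (nat_lit 14))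
    (@En.i (nat_lit 7021) (nat_lit 11) (nat_lit 14))
    (@En.n l3339 (nat_lit 13839) (nat_lit 2) (nat_lit 8))
    (@En.n l20132 (nat_lit 13006) (nat_lit 3) (nat_lit 9))
    (@En.n l3550 (nat_lit 13840) (nat_lit 4) (nat_lit 5))
    (@En.n l13104 (nat_lit 13789) (nat_lit 5) (nat_lit 8))
    (@En.n l17 (nat_lit 13838) (nat_lit 6) (nat_lit 2))
    (@En.n l3187 (nat_lit 13332) (nat_lit 7) (nat_lit 4))
    (@En.i (nat_lit 12790) (nat_lit 9) (nat_lit 14))
    (@En.n l8176 (nat_lit 13202) (nat_lit 10) (nat_lit 11))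
    (@En.n l5592 (nat_lit 12913) (nat_lit 11) (nat_lit 8))
    (@En.n l4021 (nat_lit 13979) (nat_lit 12) (nat_lit 12))
    (@En.i (nat_lit 13833) (nat_lit 13) (nat_lit 7))
    (@En.n l5577 (nat_lit 7883) (nat_lit 14) (nat_lit 8))
    (@En.n l7 (nat_lit 13838) (nat_lit 14) (nat_lit 2))
    (@En.n l28 (nat_lit 13838) (nat_lit 15) (nat_lit 2))))
  (@Cl.mk (nat_lit 0x200020007000d000b00080003000b000e00050002000900050008000e000e) (nat_lit 0x95507200601bc) (nat_lit 16) Lb.e (@T16.mk En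
    (@En.n l1578 (nat_lit 13839) (nat_lit 1) (nat_lit 14))
    (@En.i (nat_lit 4809) (nat_lit 12) (nat_lit 14))
    (@En.n l781 (nat_lit 676) (nat_lit 2) (nat_lit 8))
    (@En.n l11820 (nat_lit 13841) (nat_lit 3) (nat_lit 5))
    (@En.n l11821 (nat_lit 13790) (nat_lit 4) (nat_lit 9))
    (@En.n l17 (nat_lit 13839) (nat_lit 5) (nat_lit 2))
    (@En.n l11822 (nat_lit 13330) (nat_lit 6) (nat_lit 5))
    (@En.i (nat_lit 13011) (nat_lit 8) (nat_lit 14))
    (@En.n l250 (nat_lit 13838) (nat_lit 9) (nat_lit 11))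
    (@En.n l50 (nat_lit 13957) (nat_lit 9) (nat_lit 3))
    (@En.n l1369 (nat_lit 12914) (nat_lit 11) (nat_lit 8))
    (@En.n l217 (nat_lit 14040) (nat_lit 12) (nat_lit 11))
    (@En.n l2544 (nat_lit 13570) (nat_lit 13) (nat_lit 13))
    (@En.i (nat_lit 7881) (nat_lit 14) (nat_lit 7))
    (@En.n l28 (nat_lit 13839) (nat_lit 14) (nat_lit 2))
    (@En.n l11 (nat_lit 13839) (nat_lit 15) (nat_lit 2))))
noncomputable def a865 : T16 Cl := @T16.mk Cl
  (@Cl.mk (nat_lit 0x20002000b0007000b0008000b0005000e00050002000500090008000e000e) (nat_lit 0x205560800054bc) (nat_lit 16) Lb.e (@T16.mk En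
    (@En.n l97 (nat_lit 13840) (nat_lit 1) (nat_lit 14))
    (@En.i (nat_lit 7014) (nat_lit 12) (nat_lit 14))
    (@En.n l25404 (nat_lit 13841) (nat_lit 2) (nat_lit 8))
    (@En.n l2289 (nat_lit 13954) (nat_lit 3) (nat_lit 9))
    (@En.n l8573 (nat_lit 13779) (nat_lit 4) (nat_lit 5))
    (@En.n l50 (nat_lit 13840) (nat_lit 5) (nat_lit 2))
    (@En.n l25405 (nat_lit 13331) (nat_lit 6) (nat_lit 5))
    (@En.n l20166 (nat_lit 13838) (nat_lit 8) (nat_lit 14))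
    (@En.n l617 (nat_lit 13958) (nat_lit 8) (nat_lit 5))
    (@En.i (nat_lit 13200) (nat_lit 10) (nat_lit 11))
    (@En.i (nat_lit 13098) (nat_lit 11) (nat_lit 8))
    (@En.i (nat_lit 13976) (nat_lit 12) (nat_lit 11))
    (@En.n l8572 (nat_lit 13834) (nat_lit 13) (nat_lit 7))
    (@En.i (nat_lit 5206) (nat_lit 8) (nat_lit 11))
    (@En.n l107 (nat_lit 13840) (nat_lit 14) (nat_lit 2))
    (@En.n l3 (nat_lit 13840) (nat_lit 15) (nat_lit 2))))
  (@Cl.mk (nat_lit 0x20002000a000d000a00080003000b0006000e0006000200050008000e000e) (nat_lit 0x1955070300039a) (nat_lit 16) Lb.e (@T16.mk En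
    (@En.n l5 (nat_lit 13841) (nat_lit 1) (nat_lit 14))
    (@En.n l11811 (nat_lit 7364) (nat_lit 13) (nat_lit 14))
    (@En.i (nat_lit 12972) (nat_lit 2) (nat_lit 8))
    (@En.n l11812 (nat_lit 13777) (nat_lit 3) (nat_lit 5))
    (@En.n l476 (nat_lit 13841) (nat_lit 4) (nat_lit 2))
    (@En.n l11813 (nat_lit 13329) (nat_lit 5) (nat_lit 6))
    (@En.n l11814 (nat_lit 13839) (nat_lit 7) (nat_lit 14))
    (@En.n l11815 (nat_lit 13954) (nat_lit 7) (nat_lit 6))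
    (@En.n l11816 (nat_lit 13840) (nat_lit 9) (nat_lit 11))
    (@En.n l11817 (nat_lit 13955) (nat_lit 9) (nat_lit 3))
    (@En.n l1504 (nat_lit 13099) (nat_lit 11) (nat_lit 8))
    (@En.n l11818 (nat_lit 14039) (nat_lit 12) (nat_lit 10))
    (@En.n l11819 (nat_lit 13572) (nat_lit 13) (nat_lit 13))
    (@En.n l11811 (nat_lit 5207) (nat_lit 9) (nat_lit 10))
    (@En.n l17 (nat_lit 13841) (nat_lit 14) (nat_lit 2))
    (@En.n l18 (nat_lit 13841) (nat_lit 15) (nat_lit 2))))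
  (@Cl.mk (nat_lit 0x20002000a00080007000e000c00020006000d0004000800030009000e000e) (nat_lit 0x2205700a010512) (nat_lit 16) Lb.e (@T16.mk En
    (@En.n l97 (nat_lit 13842) (nat_lit 1) (nat_lit 14))
    (@En.i (nat_lit 6165) (nat_lit 9) (nat_lit 14))
    (@En.n l4497 (nat_lit 13285) (nat_lit 2) (nat_lit 9))
    (@En.n l72 (nat_lit 13843) (nat_lit 3) (nat_lit 3))
    (@En.n l18 (nat_lit 12781) (nat_lit 4) (nat_lit 8))
    (@En.n l4497 (nat_lit 13629) (nat_lit 5) (nat_lit 4))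
    (@En.n l11911 (nat_lit 13812) (nat_lit 7) (nat_lit 13))
    (@En.n l1723 (nat_lit 13634) (nat_lit 7) (nat_lit 6))
    (@En.n l7 (nat_lit 13842) (nat_lit 8) (nat_lit 2))
    (@En.n l11912 (nat_lit 13621) (nat_lit 10) (nat_lit 12))
    (@En.n l11913 (nat_lit 12940) (nat_lit 11) (nat_lit 14))
    (@En.n l11914 (nat_lit 13871) (nat_lit 12) (nat_lit 7))
    (@En.i (nat_lit 13529) (nat_lit 13) (nat_lit 8))
    (@En.n l11911 (nat_lit 6903) (nat_lit 4) (nat_lit 10))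
    (@En.n l107 (nat_lit 13842) (nat_lit 14) (nat_lit 2))
    (@En.n l3 (nat_lit 13842) (nat_lit 15) (nat_lit 2))))
  (@Cl.mk (nat_lit 0x20002000a00090007000e000b00020006000d0007000500030009000e000e) (nat_lit 0x3305500a000512) (nat_lit 16) Lb.e (@T16.mk En
    (@En.n l97 (nat_lit 13843) (nat_lit 1) (nat_lit 14))
    (@En.i (nat_lit 6160) (nat_lit 9) (nat_lit 14))
    (@En.n l4832 (nat_lit 13846) (nat_lit 2) (nat_lit 9))
    (@En.i (nat_lit 13842) (nat_lit 3) (nat_lit 3))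
    (@En.n l3971 (nat_lit 13130) (nat_lit 4) (nat_lit 5))
    (@En.n l4833 (nat_lit 13251) (nat_lit 5) (nat_lit 7))
    (@En.n l4834 (nat_lit 13811) (nat_lit 7) (nat_lit 13))
    (@En.n l4835 (nat_lit 13136) (nat_lit 7) (nat_lit 6))
    (@En.n l7 (nat_lit 13843) (nat_lit 8) (nat_lit 2))
    (@En.n l4836 (nat_lit 13626) (nat_lit 10) (nat_lit 11))
    (@En.n l4837 (nat_lit 13647) (nat_lit 11) (nat_lit 14))
    (@En.n l4838 (nat_lit 13872) (nat_lit 12) (nat_lit 7))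
    (@En.i (nat_lit 13532) (nat_lit 13) (nat_lit 9))
    (@En.n l4834 (nat_lit 6904) (nat_lit 4) (nat_lit 10))
    (@En.n l107 (nat_lit 13843) (nat_lit 14) (nat_lit 2))
    (@En.n l3 (nat_lit 13843) (nat_lit 15) (nat_lit 2))))
  (@Cl.mk (nat_lit 0x20002000a0007000b000e000b000200060005000d000500090003000e000e) (nat_lit 0x70465000b04067) (nat_lit 16) Lb.e (@T16.mk En
    (@En.n l97 (nat_lit 13844) (nat_lit 1) (nat_lit 14))
    (@En.i (nat_lit 7055) (nat_lit 1) (nat_lit 14))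
    (@En.n l4463 (nat_lit 13845) (nat_lit 2) (nat_lit 3))
    (@En.i (nat_lit 13202) (nat_lit 3) (nat_lit 9))
    (@En.n l4464 (nat_lit 13893) (nat_lit 4) (nat_lit 5))
    (@En.n l4276 (nat_lit 13842) (nat_lit 6) (nat_lit 13))
    (@En.n l55 (nat_lit 13848) (nat_lit 6) (nat_lit 5))
    (@En.n l4465 (nat_lit 13303) (nat_lit 7) (nat_lit 6))
    (@En.n l50 (nat_lit 13844) (nat_lit 8) (nat_lit 2))
    (@En.n l396 (nat_lit 13884) (nat_lit 10) (nat_lit 11))
    (@En.n l4463 (nat_lit 14043) (nat_lit 11) (nat_lit 14))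
    (@En.n l1514 (nat_lit 13370) (nat_lit 12) (nat_lit 11))
    (@En.n l4276 (nat_lit 13903) (nat_lit 13) (nat_lit 7))
    (@En.n l4466 (nat_lit 6513) (nat_lit 4) (nat_lit 10))
    (@En.n l107 (nat_lit 13844) (nat_lit 14) (nat_lit 2))
    (@En.n l3 (nat_lit 13844) (nat_lit 15) (nat_lit 2))))
  (@Cl.mk (nat_lit 0x20002000a0008000b000e000a000200060005000d000800060003000e000e) (nat_lit 0x34567000b60012) (nat_lit 16) Lb.e (@T16.mk En
    (@En.n l5 (nat_lit 13845) (nat_lit 1) (nat_lit 14))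
    (@En.n l1555 (nat_lit 4614) (nat_lit 1) (nat_lit 14))
    (@En.n l1556 (nat_lit 13844) (nat_lit 2) (nat_lit 3))
    (@En.n l1557 (nat_lit 13401) (nat_lit 3) (nat_lit 6))
    (@En.n l1558 (nat_lit 13846) (nat_lit 4) (nat_lit 8))
    (@En.n l1559 (nat_lit 13843) (nat_lit 6) (nat_lit 13))
    (@En.n l1560 (nat_lit 13847) (nat_lit 6) (nat_lit 5))
    (@En.n l1561 (nat_lit 13855) (nat_lit 7) (nat_lit 6))
    (@En.n l3 (nat_lit 13845) (nat_lit 8) (nat_lit 2))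
    (@En.n l1562 (nat_lit 13854) (nat_lit 10) (nat_lit 10))
    (@En.i (nat_lit 13712) (nat_lit 11) (nat_lit 14))
    (@En.n l1563 (nat_lit 13373) (nat_lit 12) (nat_lit 11))
    (@En.i (nat_lit 13544) (nat_lit 13) (nat_lit 8))
    (@En.n l1564 (nat_lit 6512) (nat_lit 4) (nat_lit 10))
    (@En.n l17 (nat_lit 13845) (nat_lit 14) (nat_lit 2))
    (@En.n l18 (nat_lit 13845) (nat_lit 15) (nat_lit 2))))
  (@Cl.mk (nat_lit 0x20002000900080007000b000e000b000200070005000800050009000e000e) (nat_lit 0x14066600050412) (nat_lit 16) Lb.e (@T16.mk En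
    (@En.n l601 (nat_lit 13846) (nat_lit 1) (nat_lit 14))
    (@En.i (nat_lit 4613) (nat_lit 10) (nat_lit 14))
    (@En.n l255 (nat_lit 13283) (nat_lit 2) (nat_lit 9))
    (@En.i (nat_lit 13980) (nat_lit 3) (nat_lit 5))
    (@En.n l255 (nat_lit 13254) (nat_lit 4) (nat_lit 8))
    (@En.n l2316 (nat_lit 13849) (nat_lit 5) (nat_lit 5))
    (@En.n l4819 (nat_lit 13856) (nat_lit 6) (nat_lit 7))
    (@En.n l67 (nat_lit 13846) (nat_lit 7) (nat_lit 2))
    (@En.n l68 (nat_lit 13853) (nat_lit 9) (nat_lit 11))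
    (@En.n l4820 (nat_lit 13386) (nat_lit 10) (nat_lit 14))
    (@En.n l4821 (nat_lit 13845) (nat_lit 11) (nat_lit 11))
    (@En.n l2322 (nat_lit 13844) (nat_lit 12) (nat_lit 7))
    (@En.n l4820 (nat_lit 13348) (nat_lit 13) (nat_lit 8))
    (@En.i (nat_lit 5286) (nat_lit 5) (nat_lit 9))
    (@En.n l50 (nat_lit 13846) (nat_lit 14) (nat_lit 2))
    (@En.n l7 (nat_lit 13846) (nat_lit 15) (nat_lit 2))))
  (@Cl.mk (nat_lit 0x20002000d0008000b0003000e000b00020005000d000800050003000e000e) (nat_lit 0x25507800a500bc) (nat_lit 16) Lb.e (@T16.mk En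
    (@En.n l143 (nat_lit 13847) (nat_lit 1) (nat_lit 14))
    (@En.i (nat_lit 7402) (nat_lit 10) (nat_lit 14))
    (@En.n l447 (nat_lit 13848) (nat_lit 2) (nat_lit 3))
    (@En.n l79 (nat_lit 13399) (nat_lit 3) (nat_lit 5))
    (@En.i (nat_lit 13849) (nat_lit 4) (nat_lit 8))
    (@En.n l79 (nat_lit 13142) (nat_lit 6) (nat_lit 13))
    (@En.n l448 (nat_lit 13320) (nat_lit 6) (nat_lit 5))
    (@En.n l3 (nat_lit 13847) (nat_lit 7) (nat_lit 2))
    (@En.n l449 (nat_lit 13365) (nat_lit 9) (nat_lit 11))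
    (@En.n l450 (nat_lit 13845) (nat_lit 10) (nat_lit 14))
    (@En.n l451 (nat_lit 13850) (nat_lit 10) (nat_lit 3))
    (@En.n l318 (nat_lit 13375) (nat_lit 12) (nat_lit 11))
    (@En.n l452 (nat_lit 13543) (nat_lit 13) (nat_lit 8))
    (@En.n l453 (nat_lit 6758) (nat_lit 6) (nat_lit 13))
    (@En.n l142 (nat_lit 13847) (nat_lit 14) (nat_lit 2))
    (@En.n l28 (nat_lit 13847) (nat_lit 15) (nat_lit 2))))
  (@Cl.mk (nat_lit 0x20002000d0007000b0003000e000c00020005000d000400090003000e000e) (nat_lit 0x10507600a070bc) (nat_lit 16) Lb.e (@T16.mk En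
    (@En.n l97 (nat_lit 13848) (nat_lit 1) (nat_lit 14))
    (@En.i (nat_lit 7059) (nat_lit 10) (nat_lit 14))
    (@En.n l1386 (nat_lit 13847) (nat_lit 2) (nat_lit 3))
    (@En.i (nat_lit 13200) (nat_lit 3) (nat_lit 9))
    (@En.n l1387 (nat_lit 13888) (nat_lit 4) (nat_lit 4))
    (@En.i (nat_lit 13143) (nat_lit 6) (nat_lit 13))
    (@En.n l1388 (nat_lit 13439) (nat_lit 6) (nat_lit 5))
    (@En.n l50 (nat_lit 13848) (nat_lit 7) (nat_lit 2))
    (@En.n l1389 (nat_lit 13885) (nat_lit 9) (nat_lit 12))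
    (@En.n l343 (nat_lit 13844) (nat_lit 10) (nat_lit 14))
    (@En.n l28 (nat_lit 13851) (nat_lit 10) (nat_lit 3))
    (@En.n l170 (nat_lit 13367) (nat_lit 12) (nat_lit 11))
    (@En.i (nat_lit 13902) (nat_lit 13) (nat_lit 7))
    (@En.n l1359 (nat_lit 6743) (nat_lit 6) (nat_lit 13))
    (@En.n l107 (nat_lit 13848) (nat_lit 14) (nat_lit 2))
    (@En.n l3 (nat_lit 13848) (nat_lit 15) (nat_lit 2))))
  (@Cl.mk (nat_lit 0x20002000c00080007000b0004000e000c00020005000800040009000e000e) (nat_lit 0x240607800403bc) (nat_lit 16) Lb.e (@T16.mk En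
    (@En.n l143 (nat_lit 13849) (nat_lit 1) (nat_lit 14))
    (@En.i (nat_lit 7386) (nat_lit 11) (nat_lit 14))
    (@En.n l1542 (nat_lit 13282) (nat_lit 2) (nat_lit 9))
    (@En.n l290 (nat_lit 13978) (nat_lit 3) (nat_lit 4))
    (@En.n l1041 (nat_lit 13256) (nat_lit 4) (nat_lit 8))
    (@En.n l708 (nat_lit 13322) (nat_lit 5) (nat_lit 5))
    (@En.n l3 (nat_lit 13849) (nat_lit 6) (nat_lit 2))
    (@En.n l965 (nat_lit 13357) (nat_lit 8) (nat_lit 12))
    (@En.n l1246 (nat_lit 13846) (nat_lit 9) (nat_lit 14))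
    (@En.n l1543 (nat_lit 13852) (nat_lit 9) (nat_lit 4))
    (@En.n l12 (nat_lit 13847) (nat_lit 11) (nat_lit 11))
    (@En.n l1544 (nat_lit 13848) (nat_lit 12) (nat_lit 7))
    (@En.n l1041 (nat_lit 13349) (nat_lit 13) (nat_lit 8))
    (@En.n l453 (nat_lit 6759) (nat_lit 7) (nat_lit 12))
    (@En.n l142 (nat_lit 13849) (nat_lit 14) (nat_lit 2))
    (@En.n l28 (nat_lit 13849) (nat_lit 15) (nat_lit 2))))
  (@Cl.mk (nat_lit 0x20002000d000a00090003000e000b00020006000d000700050003000e000e) (nat_lit 0x2430780010009a) (nat_lit 16) Lb.e (@T16.mk En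
    (@En.n l97 (nat_lit 13850) (nat_lit 1) (nat_lit 14))
    (@En.i (nat_lit 7404) (nat_lit 1) (nat_lit 14))
    (@En.n l763 (nat_lit 13851) (nat_lit 2) (nat_lit 3))
    (@En.i (nat_lit 13396) (nat_lit 3) (nat_lit 5))
    (@En.n l1545 (nat_lit 13852) (nat_lit 4) (nat_lit 7))
    (@En.i (nat_lit 286) (nat_lit 6) (nat_lit 13))
    (@En.n l847 (nat_lit 14000) (nat_lit 6) (nat_lit 6))
    (@En.n l50 (nat_lit 13850) (nat_lit 7) (nat_lit 2))
    (@En.n l217 (nat_lit 14001) (nat_lit 9) (nat_lit 11))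
    (@En.n l875 (nat_lit 13769) (nat_lit 10) (nat_lit 14))
    (@En.n l1565 (nat_lit 13847) (nat_lit 10) (nat_lit 3))
    (@En.n l1566 (nat_lit 14053) (nat_lit 12) (nat_lit 9))
    (@En.n l1567 (nat_lit 13845) (nat_lit 13) (nat_lit 10))
    (@En.n l1568 (nat_lit 6756) (nat_lit 6) (nat_lit 13))
    (@En.n l107 (nat_lit 13850) (nat_lit 14) (nat_lit 2))
    (@En.n l3 (nat_lit 13850) (nat_lit 15) (nat_lit 2))))
  (@Cl.mk (nat_lit 0x20002000d000a00080003000e000c00020006000d000400080003000e000e) (nat_lit 0x3850770010209a) (nat_lit 16) Lb.e (@T16.mk En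
    (@En.n l97 (nat_lit 13851) (nat_lit 1) (nat_lit 14))
    (@En.i (nat_lit 7061) (nat_lit 1) (nat_lit 14))
    (@En.n l2364 (nat_lit 13850) (nat_lit 2) (nat_lit 3))
    (@En.i (nat_lit 13199) (nat_lit 3) (nat_lit 8))
    (@En.i (nat_lit 13891) (nat_lit 4) (nat_lit 4))
    (@En.i (nat_lit 285) (nat_lit 6) (nat_lit 13))
    (@En.n l1388 (nat_lit 13989) (nat_lit 6) (nat_lit 6))
    (@En.n l50 (nat_lit 13851) (nat_lit 7) (nat_lit 2))
    (@En.n l396 (nat_lit 13886) (nat_lit 9) (nat_lit 12))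
    (@En.i (nat_lit 13770) (nat_lit 10) (nat_lit 14))
    (@En.i (nat_lit 13848) (nat_lit 10) (nat_lit 3))
    (@En.n l4370 (nat_lit 14052) (nat_lit 12) (nat_lit 8))
    (@En.i (nat_lit 13844) (nat_lit 13) (nat_lit 10))
    (@En.n l4367 (nat_lit 6751) (nat_lit 6) (nat_lit 13))
    (@En.n l107 (nat_lit 13851) (nat_lit 14) (nat_lit 2))
    (@En.n l3 (nat_lit 13851) (nat_lit 15) (nat_lit 2))))
  (@Cl.mk (nat_lit 0x20002000c0009000900080004000e000c00020007000700040008000e000e) (nat_lit 0x22360790000178) (nat_lit 16) Lb.e (@T16.mk En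
    (@En.n l97 (nat_lit 13852) (nat_lit 1) (nat_lit 14))
    (@En.n l718 (nat_lit 3620) (nat_lit 11) (nat_lit 14))
    (@En.n l17 (nat_lit 12953) (nat_lit 2) (nat_lit 8))
    (@En.n l4822 (nat_lit 13972) (nat_lit 3) (nat_lit 4))
    (@En.n l698 (nat_lit 14098) (nat_lit 4) (nat_lit 7))
    (@En.n l1388 (nat_lit 13975) (nat_lit 5) (nat_lit 7))
    (@En.n l50 (nat_lit 13852) (nat_lit 6) (nat_lit 2))
    (@En.n l4470 (nat_lit 13574) (nat_lit 8) (nat_lit 12))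
    (@En.n l4823 (nat_lit 13387) (nat_lit 9) (nat_lit 14))
    (@En.n l4822 (nat_lit 13575) (nat_lit 9) (nat_lit 4))
    (@En.i (nat_lit 13851) (nat_lit 11) (nat_lit 8))
    (@En.n l2421 (nat_lit 13572) (nat_lit 12) (nat_lit 9))
    (@En.n l718 (nat_lit 13846) (nat_lit 13) (nat_lit 9))
    (@En.n l4367 (nat_lit 2163) (nat_lit 7) (nat_lit 12))
    (@En.n l107 (nat_lit 13852) (nat_lit 14) (nat_lit 2))
    (@En.n l3 (nat_lit 13852) (nat_lit 15) (nat_lit 2))))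
  (@Cl.mk (nat_lit 0x20002000a00090007000c000b000b000600040007000500050009000e000e) (nat_lit 0x140657000005ab) (nat_lit 16) Lb.e (@T16.mk En
    (@En.n l601 (nat_lit 13853) (nat_lit 1) (nat_lit 14))
    (@En.i (nat_lit 4607) (nat_lit 1) (nat_lit 14))
    (@En.n l12594 (nat_lit 13629) (nat_lit 2) (nat_lit 9))
    (@En.n l11 (nat_lit 13846) (nat_lit 3) (nat_lit 5))
    (@En.i (nat_lit 13333) (nat_lit 4) (nat_lit 5))
    (@En.i (nat_lit 13237) (nat_lit 5) (nat_lit 7))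
    (@En.n l936 (nat_lit 13357) (nat_lit 6) (nat_lit 4))
    (@En.i (nat_lit 13858) (nat_lit 7) (nat_lit 6))
    (@En.n l5581 (nat_lit 13356) (nat_lit 9) (nat_lit 11))
    (@En.n l12593 (nat_lit 14039) (nat_lit 10) (nat_lit 11))
    (@En.n l2711 (nat_lit 13854) (nat_lit 11) (nat_lit 12))
    (@En.n l2322 (nat_lit 13884) (nat_lit 12) (nat_lit 7))
    (@En.n l12594 (nat_lit 13339) (nat_lit 13) (nat_lit 9))
    (@En.i (nat_lit 5284) (nat_lit 14) (nat_lit 10))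
    (@En.n l50 (nat_lit 13853) (nat_lit 14) (nat_lit 2))
    (@En.n l7 (nat_lit 13853) (nat_lit 15) (nat_lit 2))))
  (@Cl.mk (nat_lit 0x20002000b0009000c000a000a00050004000c0007000600060004000e000e) (nat_lit 0x14567008000012) (nat_lit 16) Lb.e (@T16.mk En
    (@En.n l97 (nat_lit 13854) (nat_lit 1) (nat_lit 14))
    (@En.n l4861 (nat_lit 4608) (nat_lit 1) (nat_lit 14))
    (@En.n l4862 (nat_lit 14012) (nat_lit 2) (nat_lit 4))
    (@En.n l4863 (nat_lit 13845) (nat_lit 3) (nat_lit 6))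
    (@En.i (nat_lit 13879) (nat_lit 4) (nat_lit 6))
    (@En.n l4864 (nat_lit 13853) (nat_lit 5) (nat_lit 7))
    (@En.n l4865 (nat_lit 13626) (nat_lit 7) (nat_lit 12))
    (@En.n l4377 (nat_lit 13365) (nat_lit 7) (nat_lit 4))
    (@En.n l4866 (nat_lit 13860) (nat_lit 8) (nat_lit 5))
    (@En.n l4867 (nat_lit 13359) (nat_lit 10) (nat_lit 10))
    (@En.n l4865 (nat_lit 13488) (nat_lit 11) (nat_lit 10))
    (@En.n l1580 (nat_lit 13377) (nat_lit 12) (nat_lit 12))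
    (@En.n l4868 (nat_lit 13542) (nat_lit 13) (nat_lit 9))
    (@En.n l4861 (nat_lit 5287) (nat_lit 14) (nat_lit 11))
    (@En.n l107 (nat_lit 13854) (nat_lit 14) (nat_lit 2))
    (@En.n l3 (nat_lit 13854) (nat_lit 15) (nat_lit 2))))
  (@Cl.mk (nat_lit 0x20002000a000d0009000c0003000b00060004000d000700050003000e000e) (nat_lit 0x23560700900056) (nat_lit 16) Lb.e (@T16.mk En
    (@En.n l5 (nat_lit 13855) (nat_lit 1) (nat_lit 14))
    (@En.n l420 (nat_lit 7331) (nat_lit 1) (nat_lit 14))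
    (@En.n l4695 (nat_lit 13303) (nat_lit 2) (nat_lit 3))
    (@En.i (nat_lit 13402) (nat_lit 3) (nat_lit 5))
    (@En.n l420 (nat_lit 13856) (nat_lit 4) (nat_lit 7))
    (@En.n l4696 (nat_lit 13136) (nat_lit 6) (nat_lit 13))
    (@En.n l485 (nat_lit 13313) (nat_lit 6) (nat_lit 4))
    (@En.i (nat_lit 13859) (nat_lit 7) (nat_lit 6))
    (@En.i (nat_lit 13860) (nat_lit 9) (nat_lit 11))
    (@En.n l1451 (nat_lit 13879) (nat_lit 9) (nat_lit 3))
    (@En.n l158 (nat_lit 13032) (nat_lit 11) (nat_lit 12))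
    (@En.n l4591 (nat_lit 13854) (nat_lit 12) (nat_lit 9))
    (@En.n l1552 (nat_lit 13847) (nat_lit 13) (nat_lit 13))
    (@En.n l2738 (nat_lit 5282) (nat_lit 14) (nat_lit 10))
    (@En.n l17 (nat_lit 13855) (nat_lit 14) (nat_lit 2))
    (@En.n l18 (nat_lit 13855) (nat_lit 15) (nat_lit 2))))
noncomputable def a866 : T16 Cl := @T16.mk Cl
  (@Cl.mk (nat_lit 0x200020009000c00090008000c0004000c00070004000700040008000e000e) (nat_lit 0x33557080000645) (nat_lit 16) Lb.e (@T16.mk En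
    (@En.n l396 (nat_lit 13856) (nat_lit 1) (nat_lit 14))
    (@En.i (nat_lit 7287) (nat_lit 1) (nat_lit 14))
    (@En.n l12233 (nat_lit 13296) (nat_lit 2) (nat_lit 8))
    (@En.i (nat_lit 13981) (nat_lit 3) (nat_lit 4))
    (@En.n l1081 (nat_lit 13222) (nat_lit 4) (nat_lit 7))
    (@En.n l12234 (nat_lit 13314) (nat_lit 5) (nat_lit 4))
    (@En.i (nat_lit 13857) (nat_lit 6) (nat_lit 7))
    (@En.n l4426 (nat_lit 13858) (nat_lit 8) (nat_lit 12))
    (@En.n l12235 (nat_lit 13329) (nat_lit 8) (nat_lit 4))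
    (@En.n l387 (nat_lit 13855) (nat_lit 10) (nat_lit 12))
    (@En.n l12234 (nat_lit 13303) (nat_lit 11) (nat_lit 8))
    (@En.n l2642 (nat_lit 13853) (nat_lit 12) (nat_lit 9))
    (@En.n l3585 (nat_lit 13849) (nat_lit 13) (nat_lit 12))
    (@En.n l2642 (nat_lit 5279) (nat_lit 14) (nat_lit 9))
    (@En.n l18 (nat_lit 13856) (nat_lit 14) (nat_lit 2))
    (@En.n l50 (nat_lit 13856) (nat_lit 15) (nat_lit 2))))
  (@Cl.mk (nat_lit 0x2000200090007000c000a0009000d000400070003000600090007000e000e) (nat_lit 0x30456700003089) (nat_lit 16) Lb.e (@T16.mk En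
    (@En.n l396 (nat_lit 13857) (nat_lit 1) (nat_lit 14))
    (@En.i (nat_lit 7288) (nat_lit 1) (nat_lit 14))
    (@En.n l12004 (nat_lit 13225) (nat_lit 2) (nat_lit 7))
    (@En.i (nat_lit 13294) (nat_lit 3) (nat_lit 9))
    (@En.n l4582 (nat_lit 13219) (nat_lit 4) (nat_lit 6))
    (@En.n l12005 (nat_lit 13861) (nat_lit 5) (nat_lit 3))
    (@En.n l12006 (nat_lit 13707) (nat_lit 6) (nat_lit 7))
    (@En.n l12007 (nat_lit 13328) (nat_lit 7) (nat_lit 4))
    (@En.n l387 (nat_lit 13859) (nat_lit 9) (nat_lit 13))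
    (@En.n l699 (nat_lit 13302) (nat_lit 10) (nat_lit 9))
    (@En.n l2642 (nat_lit 13858) (nat_lit 11) (nat_lit 10))
    (@En.n l10882 (nat_lit 13856) (nat_lit 12) (nat_lit 12))
    (@En.i (nat_lit 14034) (nat_lit 13) (nat_lit 7))
    (@En.n l4316 (nat_lit 5281) (nat_lit 14) (nat_lit 9))
    (@En.n l18 (nat_lit 13857) (nat_lit 14) (nat_lit 2))
    (@En.n l50 (nat_lit 13857) (nat_lit 15) (nat_lit 2))))
  (@Cl.mk (nat_lit 0x20002000a0007000a0008000d000c000600030006000400090008000e000e) (nat_lit 0x30456700004656) (nat_lit 16) Lb.e (@T16.mk En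
    (@En.n l601 (nat_lit 13858) (nat_lit 1) (nat_lit 14))
    (@En.i (nat_lit 7289) (nat_lit 1) (nat_lit 14))
    (@En.n l11789 (nat_lit 13635) (nat_lit 2) (nat_lit 8))
    (@En.n l899 (nat_lit 13857) (nat_lit 3) (nat_lit 9))
    (@En.i (nat_lit 13140) (nat_lit 4) (nat_lit 4))
    (@En.n l5586 (nat_lit 13218) (nat_lit 5) (nat_lit 6))
    (@En.n l4804 (nat_lit 13862) (nat_lit 6) (nat_lit 3))
    (@En.n l97 (nat_lit 12997) (nat_lit 7) (nat_lit 6))
    (@En.n l8551 (nat_lit 13865) (nat_lit 9) (nat_lit 12))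
    (@En.n l25716 (nat_lit 13860) (nat_lit 10) (nat_lit 13))
    (@En.n l25627 (nat_lit 13869) (nat_lit 11) (nat_lit 8))
    (@En.n l25717 (nat_lit 13356) (nat_lit 12) (nat_lit 10))
    (@En.i (nat_lit 14036) (nat_lit 13) (nat_lit 7))
    (@En.n l532 (nat_lit 5283) (nat_lit 14) (nat_lit 10))
    (@En.n l50 (nat_lit 13858) (nat_lit 14) (nat_lit 2))
    (@En.n l7 (nat_lit 13858) (nat_lit 15) (nat_lit 2))))
  (@Cl.mk (nat_lit 0x20002000a0007000d000a000d000300060003000d000600090003000e000e) (nat_lit 0x20466000904056) (nat_lit 16) Lb.e (@T16.mk En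
    (@En.n l5 (nat_lit 13859) (nat_lit 1) (nat_lit 14))
    (@En.n l420 (nat_lit 7214) (nat_lit 1) (nat_lit 14))
    (@En.n l7 (nat_lit 13302) (nat_lit 2) (nat_lit 3))
    (@En.i (nat_lit 13290) (nat_lit 3) (nat_lit 9))
    (@En.n l420 (nat_lit 13857) (nat_lit 4) (nat_lit 6))
    (@En.i (nat_lit 13138) (nat_lit 6) (nat_lit 13))
    (@En.i (nat_lit 13863) (nat_lit 6) (nat_lit 3))
    (@En.n l12343 (nat_lit 13708) (nat_lit 7) (nat_lit 6))
    (@En.n l1425 (nat_lit 13866) (nat_lit 8) (nat_lit 3))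
    (@En.n l158 (nat_lit 13038) (nat_lit 10) (nat_lit 13))
    (@En.n l12343 (nat_lit 13860) (nat_lit 11) (nat_lit 10))
    (@En.n l181 (nat_lit 13855) (nat_lit 12) (nat_lit 13))
    (@En.i (nat_lit 14032) (nat_lit 13) (nat_lit 7))
    (@En.n l1529 (nat_lit 5415) (nat_lit 14) (nat_lit 10))
    (@En.n l17 (nat_lit 13859) (nat_lit 14) (nat_lit 2))
    (@En.n l18 (nat_lit 13859) (nat_lit 15) (nat_lit 2))))
  (@Cl.mk (nat_lit 0x20002000b0007000a000d000b00050003000c0006000500090004000e000e) (nat_lit 0x30556008005067) (nat_lit 16) Lb.e (@T16.mk En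
    (@En.n l5 (nat_lit 13860) (nat_lit 1) (nat_lit 14))
    (@En.n l12359 (nat_lit 7215) (nat_lit 1) (nat_lit 14))
    (@En.n l2738 (nat_lit 13643) (nat_lit 2) (nat_lit 4))
    (@En.n l4386 (nat_lit 13859) (nat_lit 3) (nat_lit 9))
    (@En.n l4375 (nat_lit 13866) (nat_lit 4) (nat_lit 5))
    (@En.n l12360 (nat_lit 13858) (nat_lit 5) (nat_lit 6))
    (@En.n l4504 (nat_lit 13139) (nat_lit 7) (nat_lit 12))
    (@En.n l485 (nat_lit 13864) (nat_lit 7) (nat_lit 3))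
    (@En.i (nat_lit 13709) (nat_lit 8) (nat_lit 5))
    (@En.n l4504 (nat_lit 13868) (nat_lit 10) (nat_lit 11))
    (@En.n l12361 (nat_lit 14025) (nat_lit 11) (nat_lit 13))
    (@En.n l4504 (nat_lit 13359) (nat_lit 12) (nat_lit 10))
    (@En.n l1492 (nat_lit 14033) (nat_lit 13) (nat_lit 7))
    (@En.n l2738 (nat_lit 5417) (nat_lit 14) (nat_lit 11))
    (@En.n l17 (nat_lit 13860) (nat_lit 14) (nat_lit 2))
    (@En.n l18 (nat_lit 13860) (nat_lit 15) (nat_lit 2))))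
  (@Cl.mk (nat_lit 0x20002000a0007000b000a0009000d000600050003000600090007000e000e) (nat_lit 0x30556700004056) (nat_lit 16) Lb.e (@T16.mk En
    (@En.n l5 (nat_lit 13861) (nat_lit 1) (nat_lit 14))
    (@En.n l12015 (nat_lit 7218) (nat_lit 1) (nat_lit 14))
    (@En.n l12016 (nat_lit 13224) (nat_lit 2) (nat_lit 7))
    (@En.n l12017 (nat_lit 13295) (nat_lit 3) (nat_lit 9))
    (@En.n l12018 (nat_lit 13549) (nat_lit 4) (nat_lit 6))
    (@En.n l12019 (nat_lit 13857) (nat_lit 5) (nat_lit 3))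
    (@En.n l152 (nat_lit 13482) (nat_lit 6) (nat_lit 5))
    (@En.n l12020 (nat_lit 13547) (nat_lit 7) (nat_lit 6))
    (@En.n l12021 (nat_lit 13863) (nat_lit 9) (nat_lit 13))
    (@En.i (nat_lit 13305) (nat_lit 10) (nat_lit 9))
    (@En.n l12022 (nat_lit 13862) (nat_lit 11) (nat_lit 10))
    (@En.i (nat_lit 13314) (nat_lit 12) (nat_lit 11))
    (@En.n l12015 (nat_lit 14035) (nat_lit 13) (nat_lit 7))
    (@En.i (nat_lit 5100) (nat_lit 14) (nat_lit 10))
    (@En.n l17 (nat_lit 13861) (nat_lit 14) (nat_lit 2))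
    (@En.n l18 (nat_lit 13861) (nat_lit 15) (nat_lit 2))))
  (@Cl.mk (nat_lit 0x20002000b0007000a0008000d0005000d00030006000300090008000e000e) (nat_lit 0x30455090005367) (nat_lit 16) Lb.e (@T16.mk En
    (@En.n l97 (nat_lit 13862) (nat_lit 1) (nat_lit 14))
    (@En.n l23054 (nat_lit 7217) (nat_lit 1) (nat_lit 14))
    (@En.n l55 (nat_lit 13634) (nat_lit 2) (nat_lit 8))
    (@En.n l12880 (nat_lit 13861) (nat_lit 3) (nat_lit 9))
    (@En.n l25500 (nat_lit 13865) (nat_lit 4) (nat_lit 3))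
    (@En.i (nat_lit 13551) (nat_lit 5) (nat_lit 6))
    (@En.n l5311 (nat_lit 13858) (nat_lit 6) (nat_lit 3))
    (@En.n l5931 (nat_lit 13008) (nat_lit 8) (nat_lit 13))
    (@En.n l25501 (nat_lit 13974) (nat_lit 8) (nat_lit 5))
    (@En.n l25502 (nat_lit 13864) (nat_lit 10) (nat_lit 13))
    (@En.n l12880 (nat_lit 13966) (nat_lit 11) (nat_lit 8))
    (@En.n l5931 (nat_lit 13355) (nat_lit 12) (nat_lit 10))
    (@En.n l12534 (nat_lit 14037) (nat_lit 13) (nat_lit 7))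
    (@En.n l5933 (nat_lit 5105) (nat_lit 14) (nat_lit 11))
    (@En.n l107 (nat_lit 13862) (nat_lit 14) (nat_lit 2))
    (@En.n l3 (nat_lit 13862) (nat_lit 15) (nat_lit 2))))
  (@Cl.mk (nat_lit 0x20002000b0007000c000a000d000500040003000d000600090003000e000e) (nat_lit 0x10556000b05067) (nat_lit 16) Lb.e (@T16.mk En
    (@En.n l5 (nat_lit 13863) (nat_lit 1) (nat_lit 14))
    (@En.n l4732 (nat_lit 7211) (nat_lit 1) (nat_lit 14))
    (@En.n l4733 (nat_lit 13305) (nat_lit 2) (nat_lit 3))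
    (@En.i (nat_lit 13291) (nat_lit 3) (nat_lit 9))
    (@En.n l4734 (nat_lit 13861) (nat_lit 4) (nat_lit 6))
    (@En.n l4735 (nat_lit 13973) (nat_lit 6) (nat_lit 13))
    (@En.n l11 (nat_lit 13859) (nat_lit 6) (nat_lit 3))
    (@En.n l4728 (nat_lit 13480) (nat_lit 7) (nat_lit 4))
    (@En.n l4735 (nat_lit 13998) (nat_lit 8) (nat_lit 5))
    (@En.n l129 (nat_lit 13039) (nat_lit 10) (nat_lit 13))
    (@En.n l4736 (nat_lit 13864) (nat_lit 11) (nat_lit 10))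
    (@En.n l4734 (nat_lit 13313) (nat_lit 12) (nat_lit 12))
    (@En.i (nat_lit 14030) (nat_lit 13) (nat_lit 7))
    (@En.n l4734 (nat_lit 5097) (nat_lit 14) (nat_lit 11))
    (@En.n l17 (nat_lit 13863) (nat_lit 14) (nat_lit 2))
    (@En.n l18 (nat_lit 13863) (nat_lit 15) (nat_lit 2))))
  (@Cl.mk (nat_lit 0x20002000c0007000a000d0004000c0003000c0006000400090004000e000e) (nat_lit 0x20440809006078) (nat_lit 16) Lb.e (@T16.mk En
    (@En.n l5 (nat_lit 13864) (nat_lit 1) (nat_lit 14))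
    (@En.n l12056 (nat_lit 7213) (nat_lit 1) (nat_lit 14))
    (@En.n l12057 (nat_lit 13982) (nat_lit 2) (nat_lit 4))
    (@En.n l11971 (nat_lit 13863) (nat_lit 3) (nat_lit 9))
    (@En.n l12058 (nat_lit 13867) (nat_lit 4) (nat_lit 4))
    (@En.n l4931 (nat_lit 13862) (nat_lit 5) (nat_lit 6))
    (@En.n l12059 (nat_lit 13972) (nat_lit 7) (nat_lit 12))
    (@En.n l8386 (nat_lit 13860) (nat_lit 7) (nat_lit 3))
    (@En.n l3258 (nat_lit 13744) (nat_lit 9) (nat_lit 12))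
    (@En.n l12059 (nat_lit 13997) (nat_lit 9) (nat_lit 4))
    (@En.n l4559 (nat_lit 14026) (nat_lit 11) (nat_lit 13))
    (@En.n l1452 (nat_lit 13358) (nat_lit 12) (nat_lit 10))
    (@En.n l12060 (nat_lit 14031) (nat_lit 13) (nat_lit 7))
    (@En.n l133 (nat_lit 5104) (nat_lit 14) (nat_lit 12))
    (@En.n l17 (nat_lit 13864) (nat_lit 14) (nat_lit 2))
    (@En.n l18 (nat_lit 13864) (nat_lit 15) (nat_lit 2))))
  (@Cl.mk (nat_lit 0x20002000b0007000b0008000c0005000d00050004000300090008000e000e) (nat_lit 0x30566090005167) (nat_lit 16) Lb.e (@T16.mk En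
    (@En.n l97 (nat_lit 13865) (nat_lit 1) (nat_lit 14))
    (@En.n l11802 (nat_lit 7219) (nat_lit 1) (nat_lit 14))
    (@En.n l11803 (nat_lit 13136) (nat_lit 2) (nat_lit 8))
    (@En.n l11804 (nat_lit 13331) (nat_lit 3) (nat_lit 9))
    (@En.n l11805 (nat_lit 13862) (nat_lit 4) (nat_lit 3))
    (@En.n l11806 (nat_lit 13956) (nat_lit 5) (nat_lit 4))
    (@En.n l11807 (nat_lit 13861) (nat_lit 6) (nat_lit 5))
    (@En.n l11802 (nat_lit 13005) (nat_lit 8) (nat_lit 13))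
    (@En.i (nat_lit 13971) (nat_lit 8) (nat_lit 5))
    (@En.i (nat_lit 13867) (nat_lit 10) (nat_lit 12))
    (@En.n l11808 (nat_lit 13962) (nat_lit 11) (nat_lit 8))
    (@En.n l6904 (nat_lit 13977) (nat_lit 12) (nat_lit 11))
    (@En.n l11809 (nat_lit 14040) (nat_lit 13) (nat_lit 7))
    (@En.n l11810 (nat_lit 5288) (nat_lit 14) (nat_lit 11))
    (@En.n l107 (nat_lit 13865) (nat_lit 14) (nat_lit 2))
    (@En.n l3 (nat_lit 13865) (nat_lit 15) (nat_lit 2))))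
  (@Cl.mk (nat_lit 0x20002000a0007000d000c000b000300060004000d000500090003000e000e) (nat_lit 0x20465000404056) (nat_lit 16) Lb.e (@T16.mk En
    (@En.n l97 (nat_lit 13866) (nat_lit 1) (nat_lit 14))
    (@En.n l11697 (nat_lit 7212) (nat_lit 1) (nat_lit 14))
    (@En.n l11698 (nat_lit 13304) (nat_lit 2) (nat_lit 3))
    (@En.n l11699 (nat_lit 13203) (nat_lit 3) (nat_lit 9))
    (@En.n l11700 (nat_lit 13328) (nat_lit 4) (nat_lit 5))
    (@En.n l159 (nat_lit 13137) (nat_lit 6) (nat_lit 13))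
    (@En.i (nat_lit 13867) (nat_lit 6) (nat_lit 4))
    (@En.n l11701 (nat_lit 13645) (nat_lit 7) (nat_lit 6))
    (@En.n l11702 (nat_lit 13859) (nat_lit 8) (nat_lit 3))
    (@En.n l1722 (nat_lit 13872) (nat_lit 10) (nat_lit 11))
    (@En.n l11703 (nat_lit 13863) (nat_lit 11) (nat_lit 12))
    (@En.n l617 (nat_lit 13879) (nat_lit 12) (nat_lit 13))
    (@En.n l11699 (nat_lit 13878) (nat_lit 13) (nat_lit 7))
    (@En.n l11704 (nat_lit 5416) (nat_lit 14) (nat_lit 10))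
    (@En.n l107 (nat_lit 13866) (nat_lit 14) (nat_lit 2))
    (@En.n l3 (nat_lit 13866) (nat_lit 15) (nat_lit 2))))
  (@Cl.mk (nat_lit 0x20002000c0007000c000c0004000c00040004000d000400090003000e000e) (nat_lit 0x30350700a060bc) (nat_lit 16) Lb.e (@T16.mk En
    (@En.n l97 (nat_lit 13867) (nat_lit 1) (nat_lit 14))
    (@En.n l11716 (nat_lit 7208) (nat_lit 1) (nat_lit 14))
    (@En.n l11698 (nat_lit 13870) (nat_lit 2) (nat_lit 3))
    (@En.n l11699 (nat_lit 13201) (nat_lit 3) (nat_lit 9))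
    (@En.n l9580 (nat_lit 13868) (nat_lit 4) (nat_lit 4))
    (@En.i (nat_lit 13969) (nat_lit 6) (nat_lit 13))
    (@En.n l11717 (nat_lit 13871) (nat_lit 6) (nat_lit 4))
    (@En.n l11702 (nat_lit 13863) (nat_lit 7) (nat_lit 4))
    (@En.n l11718 (nat_lit 13698) (nat_lit 9) (nat_lit 12))
    (@En.i (nat_lit 13999) (nat_lit 9) (nat_lit 4))
    (@En.n l11719 (nat_lit 13480) (nat_lit 11) (nat_lit 12))
    (@En.n l9580 (nat_lit 14002) (nat_lit 12) (nat_lit 12))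
    (@En.n l11699 (nat_lit 13877) (nat_lit 13) (nat_lit 7))
    (@En.n l9580 (nat_lit 6595) (nat_lit 14) (nat_lit 12))
    (@En.n l107 (nat_lit 13867) (nat_lit 14) (nat_lit 2))
    (@En.n l3 (nat_lit 13867) (nat_lit 15) (nat_lit 2))))
  (@Cl.mk (nat_lit 0x20002000c0007000b000b0004000c000b00050005000400090005000e000e) (nat_lit 0x20350880006089) (nat_lit 16) Lb.e (@T16.mk En
    (@En.n l5 (nat_lit 13868) (nat_lit 1) (nat_lit 14))
    (@En.n l420 (nat_lit 7114) (nat_lit 1) (nat_lit 14))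
    (@En.n l4525 (nat_lit 13095) (nat_lit 2) (nat_lit 5))
    (@En.n l4526 (nat_lit 13884) (nat_lit 3) (nat_lit 9))
    (@En.n l4527 (nat_lit 13864) (nat_lit 4) (nat_lit 4))
    (@En.n l4528 (nat_lit 13872) (nat_lit 5) (nat_lit 5))
    (@En.n l4529 (nat_lit 13865) (nat_lit 6) (nat_lit 5))
    (@En.i (nat_lit 13870) (nat_lit 8) (nat_lit 11))
    (@En.n l4525 (nat_lit 13007) (nat_lit 9) (nat_lit 12))
    (@En.n l4530 (nat_lit 13967) (nat_lit 9) (nat_lit 4))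
    (@En.n l619 (nat_lit 13482) (nat_lit 11) (nat_lit 11))
    (@En.i (nat_lit 13897) (nat_lit 12) (nat_lit 11))
    (@En.n l4531 (nat_lit 13490) (nat_lit 13) (nat_lit 7))
    (@En.i (nat_lit 6954) (nat_lit 14) (nat_lit 12))
    (@En.n l17 (nat_lit 13868) (nat_lit 14) (nat_lit 2))
    (@En.n l18 (nat_lit 13868) (nat_lit 15) (nat_lit 2))))
  (@Cl.mk (nat_lit 0x20002000b00080008000d000c00050003000c0004000800080004000e000e) (nat_lit 0x23465009044012) (nat_lit 16) Lb.e (@T16.mk En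
    (@En.n l5 (nat_lit 13869) (nat_lit 1) (nat_lit 14))
    (@En.n l9898 (nat_lit 2961) (nat_lit 1) (nat_lit 14))
    (@En.n l476 (nat_lit 13860) (nat_lit 2) (nat_lit 4))
    (@En.n l152 (nat_lit 13645) (nat_lit 3) (nat_lit 8))
    (@En.n l11967 (nat_lit 13302) (nat_lit 4) (nat_lit 8))
    (@En.n l2678 (nat_lit 13335) (nat_lit 5) (nat_lit 4))
    (@En.n l12650 (nat_lit 13637) (nat_lit 7) (nat_lit 12))
    (@En.n l551 (nat_lit 13966) (nat_lit 7) (nat_lit 3))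
    (@En.i (nat_lit 13713) (nat_lit 8) (nat_lit 5))
    (@En.n l4522 (nat_lit 13962) (nat_lit 10) (nat_lit 12))
    (@En.n l23752 (nat_lit 13406) (nat_lit 11) (nat_lit 13))
    (@En.n l12901 (nat_lit 13932) (nat_lit 12) (nat_lit 8))
    (@En.n l11967 (nat_lit 13337) (nat_lit 13) (nat_lit 8))
    (@En.i (nat_lit 5354) (nat_lit 14) (nat_lit 11))
    (@En.n l17 (nat_lit 13869) (nat_lit 14) (nat_lit 2))
    (@En.n l18 (nat_lit 13869) (nat_lit 15) (nat_lit 2))))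
  (@Cl.mk (nat_lit 0x20002000c0008000c000c0004000b00040004000d000800050003000e000e) (nat_lit 0x22460700a30034) (nat_lit 16) Lb.e (@T16.mk En
    (@En.n l5 (nat_lit 13870) (nat_lit 1) (nat_lit 14))
    (@En.i (nat_lit 6337) (nat_lit 1) (nat_lit 14))
    (@En.n l4530 (nat_lit 13867) (nat_lit 2) (nat_lit 3))
    (@En.n l3531 (nat_lit 13175) (nat_lit 3) (nat_lit 5))
    (@En.i (nat_lit 13621) (nat_lit 4) (nat_lit 8))
    (@En.n l11989 (nat_lit 13970) (nat_lit 6) (nat_lit 13))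
    (@En.i (nat_lit 13194) (nat_lit 6) (nat_lit 4))
    (@En.i (nat_lit 13305) (nat_lit 7) (nat_lit 4))
    (@En.n l3531 (nat_lit 13656) (nat_lit 9) (nat_lit 11))
    (@En.n l11989 (nat_lit 13984) (nat_lit 9) (nat_lit 4))
    (@En.n l619 (nat_lit 13486) (nat_lit 11) (nat_lit 12))
    (@En.i (nat_lit 13994) (nat_lit 12) (nat_lit 12))
    (@En.n l1769 (nat_lit 13651) (nat_lit 13) (nat_lit 8))
    (@En.i (nat_lit 6599) (nat_lit 14) (nat_lit 12))
    (@En.n l17 (nat_lit 13870) (nat_lit 14) (nat_lit 2))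
    (@En.n l18 (nat_lit 13870) (nat_lit 15) (nat_lit 2))))
  (@Cl.mk (nat_lit 0x20002000b0007000e000c00020005000d0004000d000300090003000e000e) (nat_lit 0x20940020b05078) (nat_lit 16) Lb.e (@T16.mk En
    (@En.n l396 (nat_lit 13871) (nat_lit 1) (nat_lit 14))
    (@En.n l4344 (nat_lit 7206) (nat_lit 8) (nat_lit 14))
    (@En.n l4351 (nat_lit 13194) (nat_lit 2) (nat_lit 3))
    (@En.n l4352 (nat_lit 13204) (nat_lit 3) (nat_lit 9))
    (@En.n l402 (nat_lit 13872) (nat_lit 4) (nat_lit 3))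
    (@En.n l4353 (nat_lit 13256) (nat_lit 6) (nat_lit 13))
    (@En.n l4354 (nat_lit 13866) (nat_lit 6) (nat_lit 4))
    (@En.n l2197 (nat_lit 13701) (nat_lit 8) (nat_lit 13))
    (@En.n l4349 (nat_lit 13963) (nat_lit 8) (nat_lit 5))
    (@En.n l3 (nat_lit 13871) (nat_lit 9) (nat_lit 2))
    (@En.n l4349 (nat_lit 13867) (nat_lit 11) (nat_lit 12))
    (@En.n l4355 (nat_lit 13873) (nat_lit 12) (nat_lit 14))
    (@En.n l4356 (nat_lit 13875) (nat_lit 13) (nat_lit 7))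
    (@En.n l1855 (nat_lit 6969) (nat_lit 3) (nat_lit 11))
    (@En.n l18 (nat_lit 13871) (nat_lit 14) (nat_lit 2))
    (@En.n l50 (nat_lit 13871) (nat_lit 15) (nat_lit 2))))
noncomputable def a867 : T16 Cl := @T16.mk Cl
  (@Cl.mk (nat_lit 0x20002000b0007000e000b00020005000d000c0005000300090004000e000e) (nat_lit 0x30b40036005078) (nat_lit 16) Lb.e (@T16.mk En
    (@En.n l97 (nat_lit 13872) (nat_lit 1) (nat_lit 14))
    (@En.i (nat_lit 7193) (nat_lit 8) (nat_lit 14))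
    (@En.n l1402 (nat_lit 13097) (nat_lit 2) (nat_lit 4))
    (@En.i (nat_lit 13844) (nat_lit 3) (nat_lit 9))
    (@En.n l1403 (nat_lit 13871) (nat_lit 4) (nat_lit 3))
    (@En.n l1404 (nat_lit 13954) (nat_lit 5) (nat_lit 5))
    (@En.n l1405 (nat_lit 13194) (nat_lit 7) (nat_lit 12))
    (@En.n l1402 (nat_lit 13898) (nat_lit 8) (nat_lit 13))
    (@En.n l437 (nat_lit 13961) (nat_lit 8) (nat_lit 5))
    (@En.n l50 (nat_lit 13872) (nat_lit 9) (nat_lit 2))
    (@En.n l1406 (nat_lit 13868) (nat_lit 11) (nat_lit 11))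
    (@En.n l1407 (nat_lit 13874) (nat_lit 12) (nat_lit 14))
    (@En.n l1408 (nat_lit 13876) (nat_lit 13) (nat_lit 7))
    (@En.n l1409 (nat_lit 6968) (nat_lit 3) (nat_lit 11))
    (@En.n l107 (nat_lit 13872) (nat_lit 14) (nat_lit 2))
    (@En.n l3 (nat_lit 13872) (nat_lit 15) (nat_lit 2))))
  (@Cl.mk (nat_lit 0x20002000b000e000b0002000a0005000d0005000d000300060003000e000e) (nat_lit 0x18305040b000bc) (nat_lit 16) Lb.e (@T16.mk En
    (@En.n l5 (nat_lit 13873) (nat_lit 1) (nat_lit 14))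
    (@En.n l1597 (nat_lit 4861) (nat_lit 1) (nat_lit 14))
    (@En.n l7 (nat_lit 13188) (nat_lit 2) (nat_lit 3))
    (@En.n l1362 (nat_lit 14080) (nat_lit 3) (nat_lit 6))
    (@En.i (nat_lit 13874) (nat_lit 4) (nat_lit 3))
    (@En.n l255 (nat_lit 13257) (nat_lit 6) (nat_lit 13))
    (@En.n l1455 (nat_lit 13879) (nat_lit 6) (nat_lit 5))
    (@En.n l4538 (nat_lit 13875) (nat_lit 8) (nat_lit 13))
    (@En.n l11696 (nat_lit 13871) (nat_lit 8) (nat_lit 5))
    (@En.n l11720 (nat_lit 13881) (nat_lit 10) (nat_lit 10))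
    (@En.n l67 (nat_lit 13873) (nat_lit 10) (nat_lit 2))
    (@En.n l11721 (nat_lit 13487) (nat_lit 12) (nat_lit 11))
    (@En.n l4449 (nat_lit 14054) (nat_lit 13) (nat_lit 14))
    (@En.i (nat_lit 6697) (nat_lit 2) (nat_lit 11))
    (@En.n l17 (nat_lit 13873) (nat_lit 14) (nat_lit 2))
    (@En.n l18 (nat_lit 13873) (nat_lit 15) (nat_lit 2))))
  (@Cl.mk (nat_lit 0x20002000b000e000a0002000a0005000d000c0006000300060004000e000e) (nat_lit 0x2a307038000012) (nat_lit 16) Lb.e (@T16.mk En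
    (@En.n l5 (nat_lit 13874) (nat_lit 1) (nat_lit 14))
    (@En.n l420 (nat_lit 4865) (nat_lit 1) (nat_lit 14))
    (@En.n l4532 (nat_lit 13189) (nat_lit 2) (nat_lit 4))
    (@En.n l4533 (nat_lit 13711) (nat_lit 3) (nat_lit 6))
    (@En.n l3431 (nat_lit 13873) (nat_lit 4) (nat_lit 3))
    (@En.n l4534 (nat_lit 13841) (nat_lit 5) (nat_lit 6))
    (@En.i (nat_lit 13188) (nat_lit 7) (nat_lit 12))
    (@En.n l3431 (nat_lit 13876) (nat_lit 8) (nat_lit 13))
    (@En.n l4535 (nat_lit 13872) (nat_lit 8) (nat_lit 5))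
    (@En.n l197 (nat_lit 13880) (nat_lit 10) (nat_lit 10))
    (@En.n l67 (nat_lit 13874) (nat_lit 10) (nat_lit 2))
    (@En.n l68 (nat_lit 13488) (nat_lit 12) (nat_lit 10))
    (@En.n l4532 (nat_lit 14053) (nat_lit 13) (nat_lit 14))
    (@En.i (nat_lit 6701) (nat_lit 2) (nat_lit 11))
    (@En.n l17 (nat_lit 13874) (nat_lit 14) (nat_lit 2))
    (@En.n l18 (nat_lit 13874) (nat_lit 15) (nat_lit 2))))
  (@Cl.mk (nat_lit 0x200020007000e000c0002000a000d0004000c0003000900060004000e000e) (nat_lit 0x930530a060012) (nat_lit 16) Lb.e (@T16.mk En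
    (@En.n l1578 (nat_lit 13875) (nat_lit 1) (nat_lit 14))
    (@En.i (nat_lit 4860) (nat_lit 1) (nat_lit 14))
    (@En.n l11722 (nat_lit 13653) (nat_lit 2) (nat_lit 4))
    (@En.n l11723 (nat_lit 13873) (nat_lit 3) (nat_lit 6))
    (@En.n l4991 (nat_lit 13671) (nat_lit 4) (nat_lit 9))
    (@En.n l11724 (nat_lit 13876) (nat_lit 5) (nat_lit 3))
    (@En.n l3340 (nat_lit 13255) (nat_lit 7) (nat_lit 12))
    (@En.n l4991 (nat_lit 13878) (nat_lit 7) (nat_lit 4))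
    (@En.i (nat_lit 13697) (nat_lit 9) (nat_lit 13))
    (@En.n l5366 (nat_lit 13882) (nat_lit 10) (nat_lit 10))
    (@En.n l50 (nat_lit 13875) (nat_lit 10) (nat_lit 2))
    (@En.n l11725 (nat_lit 13877) (nat_lit 12) (nat_lit 12))
    (@En.n l2544 (nat_lit 14050) (nat_lit 13) (nat_lit 14))
    (@En.i (nat_lit 7760) (nat_lit 14) (nat_lit 7))
    (@En.n l28 (nat_lit 13875) (nat_lit 14) (nat_lit 2))
    (@En.n l11 (nat_lit 13875) (nat_lit 15) (nat_lit 2))))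
  (@Cl.mk (nat_lit 0x200020007000e000b0002000a000d000b00050003000900060005000e000e) (nat_lit 0xb305280070012) (nat_lit 16) Lb.e (@T16.mk En
    (@En.n l5 (nat_lit 13876) (nat_lit 1) (nat_lit 14))
    (@En.n l4536 (nat_lit 4866) (nat_lit 1) (nat_lit 14))
    (@En.n l7 (nat_lit 13612) (nat_lit 2) (nat_lit 5))
    (@En.n l4537 (nat_lit 13874) (nat_lit 3) (nat_lit 6))
    (@En.n l1455 (nat_lit 13903) (nat_lit 4) (nat_lit 9))
    (@En.n l4538 (nat_lit 13875) (nat_lit 5) (nat_lit 3))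
    (@En.n l4536 (nat_lit 13839) (nat_lit 6) (nat_lit 5))
    (@En.n l1455 (nat_lit 13654) (nat_lit 8) (nat_lit 11))
    (@En.n l4539 (nat_lit 13899) (nat_lit 9) (nat_lit 13))
    (@En.n l4540 (nat_lit 13883) (nat_lit 10) (nat_lit 10))
    (@En.n l67 (nat_lit 13876) (nat_lit 10) (nat_lit 2))
    (@En.n l4541 (nat_lit 13490) (nat_lit 12) (nat_lit 11))
    (@En.n l4449 (nat_lit 13000) (nat_lit 13) (nat_lit 14))
    (@En.i (nat_lit 7765) (nat_lit 14) (nat_lit 7))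
    (@En.n l17 (nat_lit 13876) (nat_lit 14) (nat_lit 2))
    (@En.n l18 (nat_lit 13876) (nat_lit 15) (nat_lit 2))))
  (@Cl.mk (nat_lit 0x200020007000c000c0009000c00040004000c0004000900070004000e000e) (nat_lit 0x2446008060056) (nat_lit 16) Lb.e (@T16.mk En
    (@En.n l5 (nat_lit 13877) (nat_lit 1) (nat_lit 14))
    (@En.n l4538 (nat_lit 7220) (nat_lit 1) (nat_lit 14))
    (@En.n l7 (nat_lit 13655) (nat_lit 2) (nat_lit 4))
    (@En.n l12395 (nat_lit 13487) (nat_lit 3) (nat_lit 7))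
    (@En.i (nat_lit 13433) (nat_lit 4) (nat_lit 9))
    (@En.n l12026 (nat_lit 13490) (nat_lit 5) (nat_lit 4))
    (@En.n l12396 (nat_lit 13979) (nat_lit 7) (nat_lit 12))
    (@En.n l12397 (nat_lit 13875) (nat_lit 7) (nat_lit 4))
    (@En.n l152 (nat_lit 14030) (nat_lit 8) (nat_lit 4))
    (@En.n l12396 (nat_lit 13696) (nat_lit 10) (nat_lit 12))
    (@En.n l1800 (nat_lit 14005) (nat_lit 11) (nat_lit 9))
    (@En.n l619 (nat_lit 13483) (nat_lit 12) (nat_lit 12))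
    (@En.n l12398 (nat_lit 13997) (nat_lit 13) (nat_lit 12))
    (@En.i (nat_lit 7757) (nat_lit 14) (nat_lit 7))
    (@En.n l17 (nat_lit 13877) (nat_lit 14) (nat_lit 2))
    (@En.n l18 (nat_lit 13877) (nat_lit 15) (nat_lit 2))))
  (@Cl.mk (nat_lit 0x200020007000d000c000b0003000b0004000c0005000900050004000e000e) (nat_lit 0x434080a050012) (nat_lit 16) Lb.e (@T16.mk En
    (@En.n l5 (nat_lit 13878) (nat_lit 1) (nat_lit 14))
    (@En.n l420 (nat_lit 2947) (nat_lit 1) (nat_lit 14))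
    (@En.n l7 (nat_lit 13676) (nat_lit 2) (nat_lit 4))
    (@En.n l1800 (nat_lit 13879) (nat_lit 3) (nat_lit 5))
    (@En.i (nat_lit 13429) (nat_lit 4) (nat_lit 9))
    (@En.i (nat_lit 13330) (nat_lit 5) (nat_lit 5))
    (@En.n l12128 (nat_lit 13133) (nat_lit 7) (nat_lit 12))
    (@En.i (nat_lit 13877) (nat_lit 7) (nat_lit 4))
    (@En.n l476 (nat_lit 13337) (nat_lit 9) (nat_lit 11))
    (@En.n l152 (nat_lit 14032) (nat_lit 9) (nat_lit 3))
    (@En.i (nat_lit 13876) (nat_lit 11) (nat_lit 11))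
    (@En.n l619 (nat_lit 14030) (nat_lit 12) (nat_lit 12))
    (@En.n l4449 (nat_lit 14001) (nat_lit 13) (nat_lit 13))
    (@En.i (nat_lit 7762) (nat_lit 14) (nat_lit 7))
    (@En.n l17 (nat_lit 13878) (nat_lit 14) (nat_lit 2))
    (@En.n l18 (nat_lit 13878) (nat_lit 15) (nat_lit 2))))
  (@Cl.mk (nat_lit 0x20002000a000d000b000a0003000b00060005000d000600050003000e000e) (nat_lit 0x23540800a00056) (nat_lit 16) Lb.e (@T16.mk En
    (@En.n l97 (nat_lit 13879) (nat_lit 1) (nat_lit 14))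
    (@En.i (nat_lit 7360) (nat_lit 1) (nat_lit 14))
    (@En.n l4862 (nat_lit 13306) (nat_lit 2) (nat_lit 3))
    (@En.n l18 (nat_lit 13400) (nat_lit 3) (nat_lit 5))
    (@En.n l4377 (nat_lit 13329) (nat_lit 4) (nat_lit 6))
    (@En.n l159 (nat_lit 13135) (nat_lit 6) (nat_lit 13))
    (@En.n l4377 (nat_lit 14002) (nat_lit 6) (nat_lit 5))
    (@En.n l61 (nat_lit 13866) (nat_lit 7) (nat_lit 6))
    (@En.i (nat_lit 13884) (nat_lit 9) (nat_lit 11))
    (@En.n l4573 (nat_lit 13855) (nat_lit 9) (nat_lit 3))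
    (@En.n l4497 (nat_lit 13874) (nat_lit 11) (nat_lit 10))
    (@En.i (nat_lit 13315) (nat_lit 12) (nat_lit 11))
    (@En.n l2195 (nat_lit 13850) (nat_lit 13) (nat_lit 13))
    (@En.i (nat_lit 1736) (nat_lit 14) (nat_lit 10))
    (@En.n l107 (nat_lit 13879) (nat_lit 14) (nat_lit 2))
    (@En.n l3 (nat_lit 13879) (nat_lit 15) (nat_lit 2))))
  (@Cl.mk (nat_lit 0x20002000c0007000b000a0004000d000b00050003000600090005000e000e) (nat_lit 0x60360680006012) (nat_lit 16) Lb.e (@T16.mk En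
    (@En.n l5 (nat_lit 13880) (nat_lit 1) (nat_lit 14))
    (@En.n l12074 (nat_lit 5555) (nat_lit 1) (nat_lit 14))
    (@En.i (nat_lit 13488) (nat_lit 2) (nat_lit 5))
    (@En.n l12075 (nat_lit 13872) (nat_lit 3) (nat_lit 9))
    (@En.n l11917 (nat_lit 14041) (nat_lit 4) (nat_lit 6))
    (@En.n l12076 (nat_lit 13881) (nat_lit 5) (nat_lit 3))
    (@En.n l12074 (nat_lit 13840) (nat_lit 6) (nat_lit 5))
    (@En.i (nat_lit 13197) (nat_lit 8) (nat_lit 11))
    (@En.n l12077 (nat_lit 13883) (nat_lit 9) (nat_lit 13))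
    (@En.n l4728 (nat_lit 13962) (nat_lit 9) (nat_lit 4))
    (@En.n l11836 (nat_lit 13889) (nat_lit 11) (nat_lit 10))
    (@En.n l12074 (nat_lit 13489) (nat_lit 12) (nat_lit 11))
    (@En.n l12078 (nat_lit 12872) (nat_lit 13) (nat_lit 7))
    (@En.n l7971 (nat_lit 6728) (nat_lit 14) (nat_lit 12))
    (@En.n l17 (nat_lit 13880) (nat_lit 14) (nat_lit 2))
    (@En.n l18 (nat_lit 13880) (nat_lit 15) (nat_lit 2))))
  (@Cl.mk (nat_lit 0x20002000c0007000c000a0004000d0004000c0003000600090004000e000e) (nat_lit 0x30340709006056) (nat_lit 16) Lb.e (@T16.mk En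
    (@En.n l5 (nat_lit 13881) (nat_lit 1) (nat_lit 14))
    (@En.n l11752 (nat_lit 5524) (nat_lit 1) (nat_lit 14))
    (@En.n l11753 (nat_lit 14008) (nat_lit 2) (nat_lit 4))
    (@En.n l5492 (nat_lit 13871) (nat_lit 3) (nat_lit 9))
    (@En.n l11754 (nat_lit 13437) (nat_lit 4) (nat_lit 6))
    (@En.n l11753 (nat_lit 13880) (nat_lit 5) (nat_lit 3))
    (@En.n l11755 (nat_lit 13849) (nat_lit 7) (nat_lit 12))
    (@En.n l11756 (nat_lit 13884) (nat_lit 7) (nat_lit 4))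
    (@En.n l28 (nat_lit 13882) (nat_lit 9) (nat_lit 13))
    (@En.n l11757 (nat_lit 13966) (nat_lit 9) (nat_lit 4))
    (@En.n l11758 (nat_lit 13888) (nat_lit 11) (nat_lit 10))
    (@En.n l11759 (nat_lit 14004) (nat_lit 12) (nat_lit 12))
    (@En.i (nat_lit 12871) (nat_lit 13) (nat_lit 7))
    (@En.n l11760 (nat_lit 6739) (nat_lit 14) (nat_lit 12))
    (@En.n l17 (nat_lit 13881) (nat_lit 14) (nat_lit 2))
    (@En.n l18 (nat_lit 13881) (nat_lit 15) (nat_lit 2))))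
  (@Cl.mk (nat_lit 0x2000200080007000d000a000d0003000b00030008000600090005000e000e) (nat_lit 0x205460701020bc) (nat_lit 16) Lb.e (@T16.mk En
    (@En.n l5 (nat_lit 13882) (nat_lit 1) (nat_lit 14))
    (@En.n l12890 (nat_lit 5514) (nat_lit 1) (nat_lit 14))
    (@En.n l5928 (nat_lit 14031) (nat_lit 2) (nat_lit 5))
    (@En.n l18586 (nat_lit 13701) (nat_lit 3) (nat_lit 9))
    (@En.i (nat_lit 13881) (nat_lit 4) (nat_lit 6))
    (@En.n l25423 (nat_lit 13308) (nat_lit 5) (nat_lit 8))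
    (@En.n l117 (nat_lit 13883) (nat_lit 6) (nat_lit 3))
    (@En.n l12614 (nat_lit 13846) (nat_lit 8) (nat_lit 11))
    (@En.n l25424 (nat_lit 13337) (nat_lit 8) (nat_lit 3))
    (@En.i (nat_lit 12791) (nat_lit 10) (nat_lit 13))
    (@En.n l12905 (nat_lit 13893) (nat_lit 11) (nat_lit 10))
    (@En.n l25425 (nat_lit 14005) (nat_lit 12) (nat_lit 13))
    (@En.i (nat_lit 13792) (nat_lit 13) (nat_lit 7))
    (@En.n l25426 (nat_lit 7808) (nat_lit 14) (nat_lit 8))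
    (@En.n l17 (nat_lit 13882) (nat_lit 14) (nat_lit 2))
    (@En.n l18 (nat_lit 13882) (nat_lit 15) (nat_lit 2))))
  (@Cl.mk (nat_lit 0x2000200080007000c000a000d000a000400030008000600090006000e000e) (nat_lit 0x103457002020bc) (nat_lit 16) Lb.e (@T16.mk En
    (@En.n l5 (nat_lit 13883) (nat_lit 1) (nat_lit 14))
    (@En.n l649 (nat_lit 5513) (nat_lit 1) (nat_lit 14))
    (@En.n l5022 (nat_lit 13490) (nat_lit 2) (nat_lit 6))
    (@En.n l12090 (nat_lit 13898) (nat_lit 3) (nat_lit 9))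
    (@En.n l12091 (nat_lit 13880) (nat_lit 4) (nat_lit 6))
    (@En.n l12092 (nat_lit 13906) (nat_lit 5) (nat_lit 8))
    (@En.n l152 (nat_lit 13882) (nat_lit 6) (nat_lit 3))
    (@En.n l1865 (nat_lit 13838) (nat_lit 7) (nat_lit 4))
    (@En.n l12093 (nat_lit 14014) (nat_lit 9) (nat_lit 10))
    (@En.i (nat_lit 12787) (nat_lit 10) (nat_lit 13))
    (@En.n l1867 (nat_lit 13894) (nat_lit 11) (nat_lit 10))
    (@En.n l5021 (nat_lit 13491) (nat_lit 12) (nat_lit 12))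
    (@En.i (nat_lit 13794) (nat_lit 13) (nat_lit 7))
    (@En.n l5022 (nat_lit 4647) (nat_lit 14) (nat_lit 8))
    (@En.n l17 (nat_lit 13883) (nat_lit 14) (nat_lit 2))
    (@En.n l18 (nat_lit 13883) (nat_lit 15) (nat_lit 2))))
  (@Cl.mk (nat_lit 0x20002000b0007000c000b000b00050004000c0005000500090004000e000e) (nat_lit 0x80447009005045) (nat_lit 16) Lb.e (@T16.mk En
    (@En.n l97 (nat_lit 13884) (nat_lit 1) (nat_lit 14))
    (@En.n l2346 (nat_lit 7053) (nat_lit 1) (nat_lit 14))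
    (@En.n l403 (nat_lit 13854) (nat_lit 2) (nat_lit 4))
    (@En.n l1353 (nat_lit 13866) (nat_lit 3) (nat_lit 9))
    (@En.n l18 (nat_lit 13844) (nat_lit 4) (nat_lit 5))
    (@En.n l11944 (nat_lit 13331) (nat_lit 5) (nat_lit 5))
    (@En.n l1407 (nat_lit 13621) (nat_lit 7) (nat_lit 12))
    (@En.n l11944 (nat_lit 13885) (nat_lit 7) (nat_lit 4))
    (@En.n l4866 (nat_lit 13869) (nat_lit 8) (nat_lit 5))
    (@En.n l11945 (nat_lit 13361) (nat_lit 10) (nat_lit 11))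
    (@En.n l7042 (nat_lit 13880) (nat_lit 11) (nat_lit 11))
    (@En.n l1521 (nat_lit 13318) (nat_lit 12) (nat_lit 12))
    (@En.n l11946 (nat_lit 13905) (nat_lit 13) (nat_lit 7))
    (@En.n l718 (nat_lit 6519) (nat_lit 14) (nat_lit 11))
    (@En.n l107 (nat_lit 13884) (nat_lit 14) (nat_lit 2))
    (@En.n l3 (nat_lit 13884) (nat_lit 15) (nat_lit 2))))
  (@Cl.mk (nat_lit 0x20002000d0007000c0003000c000c0004000c0004000400090004000e000e) (nat_lit 0x2040570a007056) (nat_lit 16) Lb.e (@T16.mk En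
    (@En.n l5 (nat_lit 13885) (nat_lit 1) (nat_lit 14))
    (@En.n l4455 (nat_lit 7060) (nat_lit 1) (nat_lit 14))
    (@En.i (nat_lit 13365) (nat_lit 2) (nat_lit 4))
    (@En.n l4456 (nat_lit 13867) (nat_lit 3) (nat_lit 9))
    (@En.n l4457 (nat_lit 13848) (nat_lit 4) (nat_lit 4))
    (@En.i (nat_lit 13887) (nat_lit 5) (nat_lit 4))
    (@En.n l4458 (nat_lit 13144) (nat_lit 7) (nat_lit 12))
    (@En.n l4459 (nat_lit 13881) (nat_lit 7) (nat_lit 4))
    (@En.n l4460 (nat_lit 13360) (nat_lit 9) (nat_lit 12))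
    (@En.i (nat_lit 13337) (nat_lit 10) (nat_lit 12))
    (@En.n l4461 (nat_lit 13886) (nat_lit 10) (nat_lit 3))
    (@En.n l625 (nat_lit 13376) (nat_lit 12) (nat_lit 12))
    (@En.n l4462 (nat_lit 13904) (nat_lit 13) (nat_lit 7))
    (@En.n l253 (nat_lit 6742) (nat_lit 14) (nat_lit 13))
    (@En.n l17 (nat_lit 13885) (nat_lit 14) (nat_lit 2))
    (@En.n l18 (nat_lit 13885) (nat_lit 15) (nat_lit 2))))
  (@Cl.mk (nat_lit 0x20002000d000b00080003000c000c0005000c0004000400080004000e000e) (nat_lit 0x2950670100309a) (nat_lit 16) Lb.e (@T16.mk En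
    (@En.n l97 (nat_lit 13886) (nat_lit 1) (nat_lit 14))
    (@En.i (nat_lit 7063) (nat_lit 1) (nat_lit 14))
    (@En.n l403 (nat_lit 14001) (nat_lit 2) (nat_lit 4))
    (@En.n l1353 (nat_lit 13999) (nat_lit 3) (nat_lit 8))
    (@En.n l18 (nat_lit 13851) (nat_lit 4) (nat_lit 4))
    (@En.n l11935 (nat_lit 13890) (nat_lit 5) (nat_lit 4))
    (@En.i (nat_lit 283) (nat_lit 7) (nat_lit 12))
    (@En.n l11936 (nat_lit 13996) (nat_lit 7) (nat_lit 5))
    (@En.n l11937 (nat_lit 13363) (nat_lit 9) (nat_lit 12))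
    (@En.n l11935 (nat_lit 13906) (nat_lit 10) (nat_lit 12))
    (@En.n l11938 (nat_lit 13885) (nat_lit 10) (nat_lit 3))
    (@En.n l7244 (nat_lit 12829) (nat_lit 12) (nat_lit 8))
    (@En.i (nat_lit 13884) (nat_lit 13) (nat_lit 11))
    (@En.i (nat_lit 6757) (nat_lit 14) (nat_lit 13))
    (@En.n l107 (nat_lit 13886) (nat_lit 14) (nat_lit 2))
    (@En.n l3 (nat_lit 13886) (nat_lit 15) (nat_lit 2))))
  (@Cl.mk (nat_lit 0x20002000d0007000b0003000c000a000d00050004000300090006000e000e) (nat_lit 0x3050779000709a) (nat_lit 16) Lb.e (@T16.mk En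
    (@En.n l5 (nat_lit 13887) (nat_lit 1) (nat_lit 14))
    (@En.n l11763 (nat_lit 7108) (nat_lit 1) (nat_lit 14))
    (@En.i (nat_lit 13897) (nat_lit 2) (nat_lit 6))
    (@En.n l253 (nat_lit 13868) (nat_lit 3) (nat_lit 9))
    (@En.n l4388 (nat_lit 13889) (nat_lit 4) (nat_lit 3))
    (@En.n l11764 (nat_lit 13360) (nat_lit 5) (nat_lit 4))
    (@En.i (nat_lit 13880) (nat_lit 6) (nat_lit 5))
    (@En.n l11763 (nat_lit 13205) (nat_lit 8) (nat_lit 13))
    (@En.i (nat_lit 14010) (nat_lit 9) (nat_lit 10))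
    (@En.n l11765 (nat_lit 13332) (nat_lit 10) (nat_lit 12))
    (@En.n l117 (nat_lit 13890) (nat_lit 10) (nat_lit 3))
    (@En.n l513 (nat_lit 13113) (nat_lit 12) (nat_lit 11))
    (@En.n l11765 (nat_lit 12874) (nat_lit 13) (nat_lit 7))
    (@En.n l253 (nat_lit 6740) (nat_lit 14) (nat_lit 13))
    (@En.n l17 (nat_lit 13887) (nat_lit 14) (nat_lit 2))
    (@En.n l18 (nat_lit 13887) (nat_lit 15) (nat_lit 2))))
noncomputable def a868 : T16 Cl := @T16.mk Cl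
  (@Cl.mk (nat_lit 0x20002000d0007000a0003000d000c000b00030006000400090005000e000e) (nat_lit 0x20307890007067) (nat_lit 16) Lb.e (@T16.mk En
    (@En.n l5 (nat_lit 13888) (nat_lit 1) (nat_lit 14))
    (@En.n l4385 (nat_lit 5526) (nat_lit 1) (nat_lit 14))
    (@En.n l4386 (nat_lit 14006) (nat_lit 2) (nat_lit 5))
    (@En.n l4387 (nat_lit 13881) (nat_lit 3) (nat_lit 9))
    (@En.n l28 (nat_lit 13885) (nat_lit 4) (nat_lit 4))
    (@En.n l1666 (nat_lit 13438) (nat_lit 5) (nat_lit 6))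
    (@En.n l4388 (nat_lit 13889) (nat_lit 6) (nat_lit 3))
    (@En.n l4389 (nat_lit 13847) (nat_lit 8) (nat_lit 11))
    (@En.n l4386 (nat_lit 13887) (nat_lit 9) (nat_lit 12))
    (@En.i (nat_lit 13893) (nat_lit 10) (nat_lit 13))
    (@En.n l4390 (nat_lit 13891) (nat_lit 10) (nat_lit 3))
    (@En.n l513 (nat_lit 12930) (nat_lit 12) (nat_lit 10))
    (@En.n l1670 (nat_lit 12870) (nat_lit 13) (nat_lit 7))
    (@En.n l1671 (nat_lit 6737) (nat_lit 14) (nat_lit 13))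
    (@En.n l17 (nat_lit 13888) (nat_lit 14) (nat_lit 2))
    (@En.n l18 (nat_lit 13888) (nat_lit 15) (nat_lit 2))))
  (@Cl.mk (nat_lit 0x20002000d0007000a0003000d000a000d00030006000300090006000e000e) (nat_lit 0x70504780007012) (nat_lit 16) Lb.e (@T16.mk En
    (@En.n l97 (nat_lit 13889) (nat_lit 1) (nat_lit 14))
    (@En.i (nat_lit 3923) (nat_lit 1) (nat_lit 14))
    (@En.i (nat_lit 13489) (nat_lit 2) (nat_lit 6))
    (@En.n l11761 (nat_lit 13880) (nat_lit 3) (nat_lit 9))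
    (@En.n l1397 (nat_lit 13887) (nat_lit 4) (nat_lit 3))
    (@En.n l167 (nat_lit 14042) (nat_lit 5) (nat_lit 6))
    (@En.n l1372 (nat_lit 13888) (nat_lit 6) (nat_lit 3))
    (@En.n l11681 (nat_lit 13206) (nat_lit 8) (nat_lit 13))
    (@En.n l1891 (nat_lit 14011) (nat_lit 9) (nat_lit 10))
    (@En.n l11762 (nat_lit 13894) (nat_lit 10) (nat_lit 13))
    (@En.n l28 (nat_lit 13892) (nat_lit 10) (nat_lit 3))
    (@En.i (nat_lit 12923) (nat_lit 12) (nat_lit 10))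
    (@En.n l1373 (nat_lit 12873) (nat_lit 13) (nat_lit 7))
    (@En.n l590 (nat_lit 6738) (nat_lit 14) (nat_lit 13))
    (@En.n l107 (nat_lit 13889) (nat_lit 14) (nat_lit 2))
    (@En.n l3 (nat_lit 13889) (nat_lit 15) (nat_lit 2))))
  (@Cl.mk (nat_lit 0x20002000d000a00080003000c000a000d00060004000300080006000e000e) (nat_lit 0x13307680006089) (nat_lit 16) Lb.e (@T16.mk En
    (@En.n l5 (nat_lit 13890) (nat_lit 1) (nat_lit 14))
    (@En.n l25463 (nat_lit 7109) (nat_lit 1) (nat_lit 14))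
    (@En.n l4449 (nat_lit 13896) (nat_lit 2) (nat_lit 6))
    (@En.n l4983 (nat_lit 13967) (nat_lit 3) (nat_lit 8))
    (@En.n l12601 (nat_lit 13892) (nat_lit 4) (nat_lit 3))
    (@En.n l25464 (nat_lit 13363) (nat_lit 5) (nat_lit 4))
    (@En.n l25463 (nat_lit 12875) (nat_lit 6) (nat_lit 6))
    (@En.n l25465 (nat_lit 13207) (nat_lit 8) (nat_lit 13))
    (@En.i (nat_lit 13987) (nat_lit 9) (nat_lit 10))
    (@En.n l25466 (nat_lit 13789) (nat_lit 10) (nat_lit 12))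
    (@En.n l152 (nat_lit 13887) (nat_lit 10) (nat_lit 3))
    (@En.n l25467 (nat_lit 12822) (nat_lit 12) (nat_lit 8))
    (@En.n l97 (nat_lit 13331) (nat_lit 13) (nat_lit 10))
    (@En.n l25468 (nat_lit 4453) (nat_lit 14) (nat_lit 13))
    (@En.n l17 (nat_lit 13890) (nat_lit 14) (nat_lit 2))
    (@En.n l18 (nat_lit 13890) (nat_lit 15) (nat_lit 2))))
  (@Cl.mk (nat_lit 0x20002000d000900080003000d000c000b00030007000400080005000e000e) (nat_lit 0x3330789000609a) (nat_lit 16) Lb.e (@T16.mk En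
    (@En.n l97 (nat_lit 13891) (nat_lit 1) (nat_lit 14))
    (@En.i (nat_lit 5528) (nat_lit 1) (nat_lit 14))
    (@En.n l2364 (nat_lit 13407) (nat_lit 2) (nat_lit 5))
    (@En.n l9572 (nat_lit 13966) (nat_lit 3) (nat_lit 8))
    (@En.i (nat_lit 13886) (nat_lit 4) (nat_lit 4))
    (@En.n l1388 (nat_lit 13991) (nat_lit 5) (nat_lit 7))
    (@En.n l11772 (nat_lit 13892) (nat_lit 6) (nat_lit 3))
    (@En.n l6444 (nat_lit 13850) (nat_lit 8) (nat_lit 11))
    (@En.n l11773 (nat_lit 13890) (nat_lit 9) (nat_lit 12))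
    (@En.n l11774 (nat_lit 13787) (nat_lit 10) (nat_lit 13))
    (@En.n l1387 (nat_lit 13888) (nat_lit 10) (nat_lit 3))
    (@En.n l4370 (nat_lit 12824) (nat_lit 12) (nat_lit 8))
    (@En.n l4464 (nat_lit 13893) (nat_lit 13) (nat_lit 9))
    (@En.n l8245 (nat_lit 6736) (nat_lit 14) (nat_lit 13))
    (@En.n l107 (nat_lit 13891) (nat_lit 14) (nat_lit 2))
    (@En.n l3 (nat_lit 13891) (nat_lit 15) (nat_lit 2))))
  (@Cl.mk (nat_lit 0x20002000d000900080003000d000a000d00030007000300080006000e000e) (nat_lit 0x83404680006012) (nat_lit 16) Lb.e (@T16.mk En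
    (@En.n l97 (nat_lit 13892) (nat_lit 1) (nat_lit 14))
    (@En.n l7485 (nat_lit 3925) (nat_lit 1) (nat_lit 14))
    (@En.i (nat_lit 13895) (nat_lit 2) (nat_lit 6))
    (@En.n l11808 (nat_lit 13962) (nat_lit 3) (nat_lit 8))
    (@En.n l4811 (nat_lit 13890) (nat_lit 4) (nat_lit 3))
    (@En.n l13201 (nat_lit 13931) (nat_lit 5) (nat_lit 7))
    (@En.n l12571 (nat_lit 13891) (nat_lit 6) (nat_lit 3))
    (@En.n l13202 (nat_lit 13208) (nat_lit 8) (nat_lit 13))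
    (@En.n l11852 (nat_lit 13992) (nat_lit 9) (nat_lit 10))
    (@En.n l13203 (nat_lit 13785) (nat_lit 10) (nat_lit 13))
    (@En.i (nat_lit 13889) (nat_lit 10) (nat_lit 3))
    (@En.n l7485 (nat_lit 12821) (nat_lit 12) (nat_lit 8))
    (@En.n l13204 (nat_lit 13894) (nat_lit 13) (nat_lit 9))
    (@En.n l13205 (nat_lit 4450) (nat_lit 14) (nat_lit 13))
    (@En.n l107 (nat_lit 13892) (nat_lit 14) (nat_lit 2))
    (@En.n l3 (nat_lit 13892) (nat_lit 15) (nat_lit 2))))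
  (@Cl.mk (nat_lit 0x2000200090007000a000d000b000a000300070006000500090006000e000e) (nat_lit 0x203678000030bc) (nat_lit 16) Lb.e (@T16.mk En
    (@En.n l5 (nat_lit 13893) (nat_lit 1) (nat_lit 14))
    (@En.n l11766 (nat_lit 5519) (nat_lit 1) (nat_lit 14))
    (@En.n l11767 (nat_lit 14020) (nat_lit 2) (nat_lit 6))
    (@En.n l11768 (nat_lit 13882) (nat_lit 3) (nat_lit 9))
    (@En.n l28 (nat_lit 13337) (nat_lit 4) (nat_lit 5))
    (@En.n l1688 (nat_lit 13888) (nat_lit 5) (nat_lit 6))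
    (@En.i (nat_lit 14017) (nat_lit 6) (nat_lit 7))
    (@En.n l11769 (nat_lit 13894) (nat_lit 7) (nat_lit 3))
    (@En.n l11770 (nat_lit 13845) (nat_lit 9) (nat_lit 10))
    (@En.n l11771 (nat_lit 13331) (nat_lit 10) (nat_lit 11))
    (@En.n l11768 (nat_lit 13780) (nat_lit 11) (nat_lit 13))
    (@En.n l513 (nat_lit 12929) (nat_lit 12) (nat_lit 10))
    (@En.n l11768 (nat_lit 13790) (nat_lit 13) (nat_lit 7))
    (@En.n l5249 (nat_lit 4656) (nat_lit 14) (nat_lit 9))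
    (@En.n l17 (nat_lit 13893) (nat_lit 14) (nat_lit 2))
    (@En.n l18 (nat_lit 13893) (nat_lit 15) (nat_lit 2))))
  (@Cl.mk (nat_lit 0x2000200090007000a000d0009000c000300070006000400090007000e000e) (nat_lit 0x20336600003012) (nat_lit 16) Lb.e (@T16.mk En
    (@En.n l134 (nat_lit 13894) (nat_lit 1) (nat_lit 14))
    (@En.i (nat_lit 3924) (nat_lit 1) (nat_lit 14))
    (@En.n l3339 (nat_lit 13491) (nat_lit 2) (nat_lit 7))
    (@En.n l3337 (nat_lit 13883) (nat_lit 3) (nat_lit 9))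
    (@En.n l1203 (nat_lit 13332) (nat_lit 4) (nat_lit 4))
    (@En.n l25453 (nat_lit 13889) (nat_lit 5) (nat_lit 6))
    (@En.n l25454 (nat_lit 13909) (nat_lit 6) (nat_lit 7))
    (@En.n l25455 (nat_lit 13893) (nat_lit 7) (nat_lit 3))
    (@En.n l1203 (nat_lit 13204) (nat_lit 9) (nat_lit 12))
    (@En.n l25456 (nat_lit 14013) (nat_lit 10) (nat_lit 9))
    (@En.i (nat_lit 13778) (nat_lit 11) (nat_lit 13))
    (@En.n l25457 (nat_lit 12925) (nat_lit 12) (nat_lit 10))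
    (@En.i (nat_lit 13791) (nat_lit 13) (nat_lit 7))
    (@En.n l5577 (nat_lit 4646) (nat_lit 14) (nat_lit 9))
    (@En.n l7 (nat_lit 13894) (nat_lit 14) (nat_lit 2))
    (@En.n l28 (nat_lit 13894) (nat_lit 15) (nat_lit 2))))
  (@Cl.mk (nat_lit 0x20002000d0008000c0003000c000a0004000d0004000800030006000e000e) (nat_lit 0x72304609060012) (nat_lit 16) Lb.e (@T16.mk En
    (@En.n l97 (nat_lit 13895) (nat_lit 1) (nat_lit 14))
    (@En.i (nat_lit 4200) (nat_lit 1) (nat_lit 14))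
    (@En.n l11846 (nat_lit 13482) (nat_lit 2) (nat_lit 6))
    (@En.n l4217 (nat_lit 13896) (nat_lit 3) (nat_lit 3))
    (@En.n l11847 (nat_lit 13932) (nat_lit 4) (nat_lit 8))
    (@En.n l4217 (nat_lit 13407) (nat_lit 5) (nat_lit 4))
    (@En.n l754 (nat_lit 13892) (nat_lit 7) (nat_lit 13))
    (@En.i (nat_lit 13969) (nat_lit 7) (nat_lit 4))
    (@En.n l11848 (nat_lit 13990) (nat_lit 9) (nat_lit 10))
    (@En.n l11849 (nat_lit 13786) (nat_lit 10) (nat_lit 12))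
    (@En.i (nat_lit 13489) (nat_lit 10) (nat_lit 3))
    (@En.n l6904 (nat_lit 12980) (nat_lit 12) (nat_lit 12))
    (@En.n l5498 (nat_lit 13491) (nat_lit 13) (nat_lit 8))
    (@En.n l11850 (nat_lit 4452) (nat_lit 14) (nat_lit 13))
    (@En.n l107 (nat_lit 13895) (nat_lit 14) (nat_lit 2))
    (@En.n l3 (nat_lit 13895) (nat_lit 15) (nat_lit 2))))
  (@Cl.mk (nat_lit 0x20002000d0009000c0003000b000a0004000d0007000500030006000e000e) (nat_lit 0x13406609000089) (nat_lit 16) Lb.e (@T16.mk En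
    (@En.n l97 (nat_lit 13896) (nat_lit 1) (nat_lit 14))
    (@En.i (nat_lit 7110) (nat_lit 1) (nat_lit 14))
    (@En.n l4884 (nat_lit 13213) (nat_lit 2) (nat_lit 6))
    (@En.n l17263 (nat_lit 13895) (nat_lit 3) (nat_lit 3))
    (@En.i (nat_lit 13362) (nat_lit 4) (nat_lit 5))
    (@En.n l61 (nat_lit 13967) (nat_lit 5) (nat_lit 7))
    (@En.n l11935 (nat_lit 13890) (nat_lit 7) (nat_lit 13))
    (@En.n l429 (nat_lit 13970) (nat_lit 7) (nat_lit 4))
    (@En.n l4377 (nat_lit 13988) (nat_lit 9) (nat_lit 10))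
    (@En.n l4884 (nat_lit 13790) (nat_lit 10) (nat_lit 11))
    (@En.n l1430 (nat_lit 13897) (nat_lit 10) (nat_lit 3))
    (@En.n l4884 (nat_lit 12982) (nat_lit 12) (nat_lit 12))
    (@En.n l4377 (nat_lit 13329) (nat_lit 13) (nat_lit 9))
    (@En.n l4884 (nat_lit 4454) (nat_lit 14) (nat_lit 13))
    (@En.n l107 (nat_lit 13896) (nat_lit 14) (nat_lit 2))
    (@En.n l3 (nat_lit 13896) (nat_lit 15) (nat_lit 2))))
  (@Cl.mk (nat_lit 0x20002000d000b000a0003000b000a0005000d0006000500030006000e000e) (nat_lit 0x3250780a00009a) (nat_lit 16) Lb.e (@T16.mk En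
    (@En.n l5 (nat_lit 13897) (nat_lit 1) (nat_lit 14))
    (@En.n l420 (nat_lit 7112) (nat_lit 1) (nat_lit 14))
    (@En.n l7 (nat_lit 13214) (nat_lit 2) (nat_lit 6))
    (@En.n l4388 (nat_lit 13489) (nat_lit 3) (nat_lit 3))
    (@En.i (nat_lit 13358) (nat_lit 4) (nat_lit 5))
    (@En.i (nat_lit 13488) (nat_lit 5) (nat_lit 6))
    (@En.n l476 (nat_lit 13887) (nat_lit 7) (nat_lit 13))
    (@En.n l11836 (nat_lit 13977) (nat_lit 7) (nat_lit 5))
    (@En.i (nat_lit 13994) (nat_lit 9) (nat_lit 10))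
    (@En.i (nat_lit 13330) (nat_lit 10) (nat_lit 11))
    (@En.n l1455 (nat_lit 13896) (nat_lit 10) (nat_lit 3))
    (@En.n l619 (nat_lit 13110) (nat_lit 12) (nat_lit 10))
    (@En.i (nat_lit 13975) (nat_lit 13) (nat_lit 11))
    (@En.i (nat_lit 6773) (nat_lit 14) (nat_lit 13))
    (@En.n l17 (nat_lit 13897) (nat_lit 14) (nat_lit 2))
    (@En.n l18 (nat_lit 13897) (nat_lit 15) (nat_lit 2))))
  (@Cl.mk (nat_lit 0x2000200070007000e000c0002000d000b00040003000900090005000e000e) (nat_lit 0xc50290031023) (nat_lit 16) Lb.e (@T16.mk En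
    (@En.n l5 (nat_lit 13898) (nat_lit 1) (nat_lit 14))
    (@En.n l473 (nat_lit 4739) (nat_lit 1) (nat_lit 14))
    (@En.i (nat_lit 13717) (nat_lit 2) (nat_lit 5))
    (@En.n l1410 (nat_lit 12860) (nat_lit 3) (nat_lit 9))
    (@En.n l468 (nat_lit 13902) (nat_lit 4) (nat_lit 9))
    (@En.n l1411 (nat_lit 13701) (nat_lit 5) (nat_lit 3))
    (@En.n l473 (nat_lit 13006) (nat_lit 6) (nat_lit 4))
    (@En.n l468 (nat_lit 13692) (nat_lit 8) (nat_lit 11))
    (@En.n l1412 (nat_lit 940) (nat_lit 9) (nat_lit 13))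
    (@En.n l67 (nat_lit 13898) (nat_lit 9) (nat_lit 2))
    (@En.n l68 (nat_lit 13007) (nat_lit 11) (nat_lit 12))
    (@En.n l1413 (nat_lit 13876) (nat_lit 12) (nat_lit 14))
    (@En.n l1414 (nat_lit 13899) (nat_lit 13) (nat_lit 7))
    (@En.i (nat_lit 2217) (nat_lit 14) (nat_lit 7))
    (@En.n l17 (nat_lit 13898) (nat_lit 14) (nat_lit 2))
    (@En.n l18 (nat_lit 13898) (nat_lit 15) (nat_lit 2))))
  (@Cl.mk (nat_lit 0x200020007000e000c0002000d000a00040003000e000900020006000e000e) (nat_lit 0xc401700940023) (nat_lit 16) Lb.e (@T16.mk En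
    (@En.n l5 (nat_lit 13899) (nat_lit 1) (nat_lit 14))
    (@En.n l248 (nat_lit 4725) (nat_lit 1) (nat_lit 14))
    (@En.i (nat_lit 13613) (nat_lit 2) (nat_lit 6))
    (@En.n l7 (nat_lit 13899) (nat_lit 3) (nat_lit 2))
    (@En.n l4549 (nat_lit 13898) (nat_lit 4) (nat_lit 9))
    (@En.n l134 (nat_lit 13900) (nat_lit 6) (nat_lit 14))
    (@En.n l609 (nat_lit 13697) (nat_lit 6) (nat_lit 3))
    (@En.n l248 (nat_lit 13011) (nat_lit 7) (nat_lit 4))
    (@En.n l610 (nat_lit 13695) (nat_lit 9) (nat_lit 10))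
    (@En.n l253 (nat_lit 939) (nat_lit 10) (nat_lit 13))
    (@En.n l3 (nat_lit 13899) (nat_lit 10) (nat_lit 2))
    (@En.n l4550 (nat_lit 13012) (nat_lit 12) (nat_lit 12))
    (@En.i (nat_lit 13001) (nat_lit 13) (nat_lit 14))
    (@En.n l248 (nat_lit 2250) (nat_lit 14) (nat_lit 7))
    (@En.n l17 (nat_lit 13899) (nat_lit 14) (nat_lit 2))
    (@En.n l18 (nat_lit 13899) (nat_lit 15) (nat_lit 2))))
  (@Cl.mk (nat_lit 0x200020008000e000c0002000a000a0004000e0008000200060006000e000e) (nat_lit 0x33405708600045) (nat_lit 16) Lb.e (@T16.mk En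
    (@En.n l5 (nat_lit 13900) (nat_lit 1) (nat_lit 14))
    (@En.n l2511 (nat_lit 4886) (nat_lit 13) (nat_lit 14))
    (@En.n l564 (nat_lit 13754) (nat_lit 2) (nat_lit 6))
    (@En.n l7612 (nat_lit 13876) (nat_lit 3) (nat_lit 6))
    (@En.n l28 (nat_lit 13900) (nat_lit 4) (nat_lit 2))
    (@En.n l7613 (nat_lit 13901) (nat_lit 5) (nat_lit 8))
    (@En.n l7085 (nat_lit 12908) (nat_lit 7) (nat_lit 14))
    (@En.n l2511 (nat_lit 13776) (nat_lit 7) (nat_lit 4))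
    (@En.n l7614 (nat_lit 13766) (nat_lit 9) (nat_lit 10))
    (@En.i (nat_lit 13780) (nat_lit 10) (nat_lit 10))
    (@En.n l3 (nat_lit 13900) (nat_lit 10) (nat_lit 2))
    (@En.n l7615 (nat_lit 13757) (nat_lit 12) (nat_lit 12))
    (@En.i (nat_lit 12990) (nat_lit 13) (nat_lit 14))
    (@En.n l2511 (nat_lit 2056) (nat_lit 14) (nat_lit 8))
    (@En.n l17 (nat_lit 13900) (nat_lit 14) (nat_lit 2))
    (@En.n l18 (nat_lit 13900) (nat_lit 15) (nat_lit 2))))
  (@Cl.mk (nat_lit 0x2000200080008000e000c0002000b000b00040008000800050005000e000e) (nat_lit 0x34a50780530023) (nat_lit 16) Lb.e (@T16.mk En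
    (@En.n l97 (nat_lit 13901) (nat_lit 1) (nat_lit 14))
    (@En.i (nat_lit 4883) (nat_lit 1) (nat_lit 14))
    (@En.n l1697 (nat_lit 13748) (nat_lit 2) (nat_lit 5))
    (@En.i (nat_lit 13903) (nat_lit 3) (nat_lit 5))
    (@En.n l11955 (nat_lit 14052) (nat_lit 4) (nat_lit 8))
    (@En.i (nat_lit 13428) (nat_lit 5) (nat_lit 8))
    (@En.n l5965 (nat_lit 13786) (nat_lit 6) (nat_lit 4))
    (@En.n l61 (nat_lit 13763) (nat_lit 8) (nat_lit 11))
    (@En.n l11774 (nat_lit 13787) (nat_lit 9) (nat_lit 11))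
    (@En.n l7 (nat_lit 13901) (nat_lit 9) (nat_lit 2))
    (@En.n l601 (nat_lit 13751) (nat_lit 11) (nat_lit 12))
    (@En.n l5397 (nat_lit 12966) (nat_lit 12) (nat_lit 14))
    (@En.n l4574 (nat_lit 13900) (nat_lit 13) (nat_lit 8))
    (@En.n l1638 (nat_lit 3353) (nat_lit 14) (nat_lit 8))
    (@En.n l107 (nat_lit 13901) (nat_lit 14) (nat_lit 2))
    (@En.n l3 (nat_lit 13901) (nat_lit 15) (nat_lit 2))))
  (@Cl.mk (nat_lit 0x200020007000b0008000e000c00020005000c0004000900080004000e000e) (nat_lit 0x45550050230bc) (nat_lit 16) Lb.e (@T16.mk En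
    (@En.n l97 (nat_lit 13902) (nat_lit 1) (nat_lit 14))
    (@En.i (nat_lit 7170) (nat_lit 9) (nat_lit 14))
    (@En.n l4467 (nat_lit 13726) (nat_lit 2) (nat_lit 4))
    (@En.i (nat_lit 13851) (nat_lit 3) (nat_lit 8))
    (@En.n l2650 (nat_lit 13669) (nat_lit 4) (nat_lit 9))
    (@En.n l4468 (nat_lit 12870) (nat_lit 5) (nat_lit 4))
    (@En.i (nat_lit 13516) (nat_lit 7) (nat_lit 12))
    (@En.n l4469 (nat_lit 12865) (nat_lit 7) (nat_lit 5))
    (@En.n l50 (nat_lit 13902) (nat_lit 8) (nat_lit 2))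
    (@En.n l4470 (nat_lit 13904) (nat_lit 10) (nat_lit 12))
    (@En.n l4316 (nat_lit 13903) (nat_lit 11) (nat_lit 14))
    (@En.n l4471 (nat_lit 13901) (nat_lit 12) (nat_lit 8))
    (@En.i (nat_lit 13872) (nat_lit 13) (nat_lit 11))
    (@En.n l1357 (nat_lit 7609) (nat_lit 4) (nat_lit 7))
    (@En.n l107 (nat_lit 13902) (nat_lit 14) (nat_lit 2))
    (@En.n l3 (nat_lit 13902) (nat_lit 15) (nat_lit 2))))
  (@Cl.mk (nat_lit 0x200020007000b000e000b0002000b0005000c0005000900050004000e000e) (nat_lit 0x34408090600bc) (nat_lit 16) Lb.e (@T16.mk En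
    (@En.n l97 (nat_lit 13903) (nat_lit 1) (nat_lit 14))
    (@En.n l3348 (nat_lit 7169) (nat_lit 1) (nat_lit 14))
    (@En.n l5205 (nat_lit 13940) (nat_lit 2) (nat_lit 4))
    (@En.n l18 (nat_lit 13768) (nat_lit 3) (nat_lit 5))
    (@En.n l4377 (nat_lit 13431) (nat_lit 4) (nat_lit 9))
    (@En.n l4884 (nat_lit 13790) (nat_lit 5) (nat_lit 5))
    (@En.i (nat_lit 13529) (nat_lit 7) (nat_lit 12))
    (@En.n l11948 (nat_lit 13902) (nat_lit 7) (nat_lit 5))
    (@En.n l11935 (nat_lit 13906) (nat_lit 9) (nat_lit 11))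
    (@En.n l7 (nat_lit 13903) (nat_lit 9) (nat_lit 2))
    (@En.n l1430 (nat_lit 13905) (nat_lit 11) (nat_lit 11))
    (@En.n l5205 (nat_lit 14067) (nat_lit 12) (nat_lit 14))
    (@En.n l4497 (nat_lit 13874) (nat_lit 13) (nat_lit 11))
    (@En.n l11949 (nat_lit 7611) (nat_lit 14) (nat_lit 7))
    (@En.n l107 (nat_lit 13903) (nat_lit 14) (nat_lit 2))
    (@En.n l3 (nat_lit 13903) (nat_lit 15) (nat_lit 2))))
noncomputable def a869 : T16 Cl := @T16.mk Cl
  (@Cl.mk (nat_lit 0x200020007000c0008000c000c0004000b00040004000900080005000e000e) (nat_lit 0x3546080074067) (nat_lit 16) Lb.e (@T16.mk En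
    (@En.n l5 (nat_lit 13904) (nat_lit 1) (nat_lit 14))
    (@En.n l615 (nat_lit 7070) (nat_lit 1) (nat_lit 14))
    (@En.n l11939 (nat_lit 13725) (nat_lit 2) (nat_lit 5))
    (@En.n l8380 (nat_lit 13886) (nat_lit 3) (nat_lit 8))
    (@En.n l1866 (nat_lit 13877) (nat_lit 4) (nat_lit 9))
    (@En.n l7117 (nat_lit 13902) (nat_lit 5) (nat_lit 4))
    (@En.n l11940 (nat_lit 12874) (nat_lit 6) (nat_lit 4))
    (@En.n l8380 (nat_lit 13513) (nat_lit 8) (nat_lit 11))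
    (@En.n l11941 (nat_lit 12871) (nat_lit 8) (nat_lit 4))
    (@En.n l55 (nat_lit 13908) (nat_lit 10) (nat_lit 12))
    (@En.n l4893 (nat_lit 13795) (nat_lit 11) (nat_lit 12))
    (@En.n l11942 (nat_lit 13751) (nat_lit 12) (nat_lit 8))
    (@En.n l4893 (nat_lit 13868) (nat_lit 13) (nat_lit 12))
    (@En.i (nat_lit 7606) (nat_lit 14) (nat_lit 7))
    (@En.n l17 (nat_lit 13904) (nat_lit 14) (nat_lit 2))
    (@En.n l18 (nat_lit 13904) (nat_lit 15) (nat_lit 2))))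
  (@Cl.mk (nat_lit 0x200020007000c000b000b000a0004000b00050005000900060005000e000e) (nat_lit 0x4367080060023) (nat_lit 16) Lb.e (@T16.mk En
    (@En.n l5 (nat_lit 13905) (nat_lit 1) (nat_lit 14))
    (@En.n l12702 (nat_lit 7076) (nat_lit 1) (nat_lit 14))
    (@En.n l7 (nat_lit 13910) (nat_lit 2) (nat_lit 5))
    (@En.n l12703 (nat_lit 13715) (nat_lit 3) (nat_lit 6))
    (@En.i (nat_lit 13878) (nat_lit 4) (nat_lit 9))
    (@En.n l4449 (nat_lit 13903) (nat_lit 5) (nat_lit 5))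
    (@En.n l12029 (nat_lit 13831) (nat_lit 6) (nat_lit 5))
    (@En.n l1554 (nat_lit 13526) (nat_lit 8) (nat_lit 11))
    (@En.n l4763 (nat_lit 13904) (nat_lit 8) (nat_lit 4))
    (@En.n l12704 (nat_lit 13799) (nat_lit 10) (nat_lit 10))
    (@En.n l12705 (nat_lit 13907) (nat_lit 11) (nat_lit 11))
    (@En.n l12706 (nat_lit 12872) (nat_lit 12) (nat_lit 11))
    (@En.n l12707 (nat_lit 13488) (nat_lit 13) (nat_lit 12))
    (@En.i (nat_lit 905) (nat_lit 14) (nat_lit 7))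
    (@En.n l17 (nat_lit 13905) (nat_lit 14) (nat_lit 2))
    (@En.n l18 (nat_lit 13905) (nat_lit 15) (nat_lit 2))))
  (@Cl.mk (nat_lit 0x200020008000c0008000c000b0004000b00040008000500080005000e000e) (nat_lit 0x27557080104067) (nat_lit 16) Lb.e (@T16.mk En
    (@En.n l5 (nat_lit 13906) (nat_lit 1) (nat_lit 14))
    (@En.n l25616 (nat_lit 5430) (nat_lit 1) (nat_lit 14))
    (@En.i (nat_lit 13905) (nat_lit 2) (nat_lit 5))
    (@En.n l25617 (nat_lit 13902) (nat_lit 3) (nat_lit 8))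
    (@En.n l25618 (nat_lit 14044) (nat_lit 4) (nat_lit 5))
    (@En.i (nat_lit 13309) (nat_lit 5) (nat_lit 8))
    (@En.n l25466 (nat_lit 13789) (nat_lit 6) (nat_lit 4))
    (@En.n l12673 (nat_lit 13527) (nat_lit 8) (nat_lit 11))
    (@En.n l25618 (nat_lit 12869) (nat_lit 8) (nat_lit 4))
    (@En.n l12704 (nat_lit 13909) (nat_lit 10) (nat_lit 11))
    (@En.n l25619 (nat_lit 13799) (nat_lit 11) (nat_lit 12))
    (@En.n l25620 (nat_lit 13221) (nat_lit 12) (nat_lit 8))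
    (@En.n l12707 (nat_lit 13880) (nat_lit 13) (nat_lit 12))
    (@En.n l4985 (nat_lit 5471) (nat_lit 14) (nat_lit 8))
    (@En.n l17 (nat_lit 13906) (nat_lit 14) (nat_lit 2))
    (@En.n l18 (nat_lit 13906) (nat_lit 15) (nat_lit 2))))
  (@Cl.mk (nat_lit 0x200020007000d000b00090003000a000e00050002000900070006000e000e) (nat_lit 0x4560780060023) (nat_lit 16) Lb.e (@T16.mk En
    (@En.n l5 (nat_lit 13907) (nat_lit 1) (nat_lit 14))
    (@En.n l2381 (nat_lit 7071) (nat_lit 1) (nat_lit 14))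
    (@En.n l12479 (nat_lit 13914) (nat_lit 2) (nat_lit 6))
    (@En.n l25605 (nat_lit 13474) (nat_lit 3) (nat_lit 7))
    (@En.n l4755 (nat_lit 14033) (nat_lit 4) (nat_lit 9))
    (@En.n l28 (nat_lit 13907) (nat_lit 5) (nat_lit 2))
    (@En.n l25957 (nat_lit 13905) (nat_lit 6) (nat_lit 5))
    (@En.n l17213 (nat_lit 13689) (nat_lit 8) (nat_lit 14))
    (@En.n l25958 (nat_lit 13528) (nat_lit 9) (nat_lit 10))
    (@En.n l107 (nat_lit 13908) (nat_lit 9) (nat_lit 3))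
    (@En.n l2381 (nat_lit 13390) (nat_lit 11) (nat_lit 9))
    (@En.n l17884 (nat_lit 12874) (nat_lit 12) (nat_lit 11))
    (@En.n l5372 (nat_lit 13481) (nat_lit 13) (nat_lit 13))
    (@En.i (nat_lit 898) (nat_lit 14) (nat_lit 7))
    (@En.n l17 (nat_lit 13907) (nat_lit 14) (nat_lit 2))
    (@En.n l18 (nat_lit 13907) (nat_lit 15) (nat_lit 2))))
  (@Cl.mk (nat_lit 0x200020007000d0008000c0003000a000e00040002000900080006000e000e) (nat_lit 0x3350740065023) (nat_lit 16) Lb.e (@T16.mk En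
    (@En.n l5 (nat_lit 13908) (nat_lit 1) (nat_lit 14))
    (@En.n l1643 (nat_lit 7069) (nat_lit 1) (nat_lit 14))
    (@En.n l97 (nat_lit 13915) (nat_lit 2) (nat_lit 6))
    (@En.i (nat_lit 13363) (nat_lit 3) (nat_lit 8))
    (@En.i (nat_lit 14031) (nat_lit 4) (nat_lit 9))
    (@En.n l28 (nat_lit 13908) (nat_lit 5) (nat_lit 2))
    (@En.i (nat_lit 13904) (nat_lit 6) (nat_lit 4))
    (@En.n l4758 (nat_lit 13687) (nat_lit 8) (nat_lit 14))
    (@En.n l1504 (nat_lit 13512) (nat_lit 9) (nat_lit 10))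
    (@En.i (nat_lit 13907) (nat_lit 9) (nat_lit 3))
    (@En.n l1643 (nat_lit 13837) (nat_lit 11) (nat_lit 12))
    (@En.i (nat_lit 13756) (nat_lit 12) (nat_lit 8))
    (@En.n l1504 (nat_lit 13482) (nat_lit 13) (nat_lit 13))
    (@En.i (nat_lit 901) (nat_lit 14) (nat_lit 7))
    (@En.n l17 (nat_lit 13908) (nat_lit 14) (nat_lit 2))
    (@En.n l18 (nat_lit 13908) (nat_lit 15) (nat_lit 2))))
  (@Cl.mk (nat_lit 0x200020009000d0008000b0003000a000d00070005000300080006000e000e) (nat_lit 0x28460790005045) (nat_lit 16) Lb.e (@T16.mk En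
    (@En.n l5 (nat_lit 13909) (nat_lit 1) (nat_lit 14))
    (@En.n l1385 (nat_lit 5428) (nat_lit 1) (nat_lit 14))
    (@En.i (nat_lit 13799) (nat_lit 2) (nat_lit 6))
    (@En.n l24814 (nat_lit 13906) (nat_lit 3) (nat_lit 8))
    (@En.n l28 (nat_lit 13798) (nat_lit 4) (nat_lit 3))
    (@En.n l1385 (nat_lit 14045) (nat_lit 5) (nat_lit 5))
    (@En.n l27073 (nat_lit 14015) (nat_lit 6) (nat_lit 7))
    (@En.n l26387 (nat_lit 13301) (nat_lit 8) (nat_lit 13))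
    (@En.n l25518 (nat_lit 13421) (nat_lit 9) (nat_lit 10))
    (@En.n l27085 (nat_lit 13797) (nat_lit 9) (nat_lit 3))
    (@En.n l1385 (nat_lit 13391) (nat_lit 11) (nat_lit 11))
    (@En.n l27086 (nat_lit 13217) (nat_lit 12) (nat_lit 8))
    (@En.n l4388 (nat_lit 13889) (nat_lit 13) (nat_lit 13))
    (@En.n l420 (nat_lit 1309) (nat_lit 14) (nat_lit 9))
    (@En.n l17 (nat_lit 13909) (nat_lit 14) (nat_lit 2))
    (@En.n l18 (nat_lit 13909) (nat_lit 15) (nat_lit 2))))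
  (@Cl.mk (nat_lit 0x200020006000c000a000a000d0004000b000300060006000a0005000e000e) (nat_lit 0xa340070004056) (nat_lit 16) Lb.e (@T16.mk En
    (@En.n l5 (nat_lit 13910) (nat_lit 1) (nat_lit 14))
    (@En.i (nat_lit 803) (nat_lit 1) (nat_lit 14))
    (@En.i (nat_lit 13542) (nat_lit 2) (nat_lit 5))
    (@En.i (nat_lit 13676) (nat_lit 3) (nat_lit 10))
    (@En.n l1904 (nat_lit 13940) (nat_lit 4) (nat_lit 6))
    (@En.n l5321 (nat_lit 13726) (nat_lit 5) (nat_lit 6))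
    (@En.i (nat_lit 13912) (nat_lit 6) (nat_lit 3))
    (@En.n l1897 (nat_lit 13530) (nat_lit 8) (nat_lit 11))
    (@En.n l1898 (nat_lit 13725) (nat_lit 8) (nat_lit 4))
    (@En.n l1690 (nat_lit 13914) (nat_lit 10) (nat_lit 13))
    (@En.n l26456 (nat_lit 13914) (nat_lit 11) (nat_lit 10))
    (@En.n l7723 (nat_lit 13738) (nat_lit 12) (nat_lit 10))
    (@En.i (nat_lit 13190) (nat_lit 13) (nat_lit 12))
    (@En.i (nat_lit 583) (nat_lit 14) (nat_lit 6))
    (@En.n l17 (nat_lit 13910) (nat_lit 14) (nat_lit 2))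
    (@En.n l18 (nat_lit 13910) (nat_lit 15) (nat_lit 2))))
  (@Cl.mk (nat_lit 0x200020006000a000e000a0002000d000b000600030006000a0005000e000e) (nat_lit 0x7440790004012) (nat_lit 16) Lb.e (@T16.mk En
    (@En.n l5 (nat_lit 13911) (nat_lit 1) (nat_lit 14))
    (@En.n l1391 (nat_lit 578) (nat_lit 1) (nat_lit 14))
    (@En.n l2678 (nat_lit 13706) (nat_lit 2) (nat_lit 5))
    (@En.n l1638 (nat_lit 13677) (nat_lit 3) (nat_lit 10))
    (@En.n l1599 (nat_lit 13686) (nat_lit 4) (nat_lit 6))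
    (@En.n l28 (nat_lit 13940) (nat_lit 5) (nat_lit 3))
    (@En.n l590 (nat_lit 13927) (nat_lit 6) (nat_lit 6))
    (@En.n l5448 (nat_lit 13903) (nat_lit 8) (nat_lit 11))
    (@En.n l1758 (nat_lit 13912) (nat_lit 9) (nat_lit 13))
    (@En.n l3 (nat_lit 13911) (nat_lit 9) (nat_lit 2))
    (@En.n l4871 (nat_lit 13912) (nat_lit 11) (nat_lit 10))
    (@En.i (nat_lit 13048) (nat_lit 12) (nat_lit 14))
    (@En.i (nat_lit 13617) (nat_lit 13) (nat_lit 10))
    (@En.n l2568 (nat_lit 579) (nat_lit 14) (nat_lit 6))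
    (@En.n l17 (nat_lit 13911) (nat_lit 14) (nat_lit 2))
    (@En.n l18 (nat_lit 13911) (nat_lit 15) (nat_lit 2))))
  (@Cl.mk (nat_lit 0x200020006000b000a000a000d000a0005000300060006000a0006000e000e) (nat_lit 0x7346800005012) (nat_lit 16) Lb.e (@T16.mk En
    (@En.n l5 (nat_lit 13912) (nat_lit 1) (nat_lit 14))
    (@En.n l13678 (nat_lit 573) (nat_lit 1) (nat_lit 14))
    (@En.n l13679 (nat_lit 12999) (nat_lit 2) (nat_lit 6))
    (@En.i (nat_lit 13675) (nat_lit 3) (nat_lit 10))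
    (@En.n l1904 (nat_lit 13911) (nat_lit 4) (nat_lit 6))
    (@En.n l13680 (nat_lit 13721) (nat_lit 5) (nat_lit 6))
    (@En.n l28 (nat_lit 13910) (nat_lit 6) (nat_lit 3))
    (@En.n l1923 (nat_lit 13573) (nat_lit 7) (nat_lit 5))
    (@En.n l77 (nat_lit 13905) (nat_lit 9) (nat_lit 10))
    (@En.n l1412 (nat_lit 13913) (nat_lit 10) (nat_lit 13))
    (@En.n l13681 (nat_lit 13913) (nat_lit 11) (nat_lit 10))
    (@En.n l13678 (nat_lit 13737) (nat_lit 12) (nat_lit 10))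
    (@En.n l12999 (nat_lit 13615) (nat_lit 13) (nat_lit 11))
    (@En.i (nat_lit 574) (nat_lit 14) (nat_lit 6))
    (@En.n l17 (nat_lit 13912) (nat_lit 14) (nat_lit 2))
    (@En.n l18 (nat_lit 13912) (nat_lit 15) (nat_lit 2))))
  (@Cl.mk (nat_lit 0x200020006000c000a000d000900040003000e00060002000a0007000e000e) (nat_lit 0x735700a006012) (nat_lit 16) Lb.e (@T16.mk En
    (@En.n l5 (nat_lit 13913) (nat_lit 1) (nat_lit 14))
    (@En.n l3082 (nat_lit 892) (nat_lit 1) (nat_lit 14))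
    (@En.i (nat_lit 12998) (nat_lit 2) (nat_lit 7))
    (@En.n l12479 (nat_lit 13055) (nat_lit 3) (nat_lit 10))
    (@En.n l28 (nat_lit 13913) (nat_lit 4) (nat_lit 2))
    (@En.n l1863 (nat_lit 13912) (nat_lit 5) (nat_lit 6))
    (@En.n l7165 (nat_lit 13723) (nat_lit 7) (nat_lit 14))
    (@En.n l9300 (nat_lit 13914) (nat_lit 7) (nat_lit 3))
    (@En.n l1865 (nat_lit 13917) (nat_lit 8) (nat_lit 4))
    (@En.i (nat_lit 13907) (nat_lit 10) (nat_lit 9))
    (@En.n l5372 (nat_lit 14079) (nat_lit 11) (nat_lit 13))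
    (@En.i (nat_lit 13739) (nat_lit 12) (nat_lit 10))
    (@En.n l5372 (nat_lit 13616) (nat_lit 13) (nat_lit 12))
    (@En.i (nat_lit 893) (nat_lit 14) (nat_lit 6))
    (@En.n l17 (nat_lit 13913) (nat_lit 14) (nat_lit 2))
    (@En.n l18 (nat_lit 13913) (nat_lit 15) (nat_lit 2))))
  (@Cl.mk (nat_lit 0x200020006000d000a000d0003000a0003000e00060002000a0006000e000e) (nat_lit 0xa3b0603005012) (nat_lit 16) Lb.e (@T16.mk En
    (@En.n l5 (nat_lit 13914) (nat_lit 1) (nat_lit 14))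
    (@En.n l17473 (nat_lit 896) (nat_lit 1) (nat_lit 14))
    (@En.n l17469 (nat_lit 13545) (nat_lit 2) (nat_lit 6))
    (@En.i (nat_lit 13056) (nat_lit 3) (nat_lit 10))
    (@En.n l3 (nat_lit 13914) (nat_lit 4) (nat_lit 2))
    (@En.n l3 (nat_lit 13910) (nat_lit 5) (nat_lit 6))
    (@En.n l17623 (nat_lit 13922) (nat_lit 7) (nat_lit 14))
    (@En.n l4948 (nat_lit 13913) (nat_lit 7) (nat_lit 3))
    (@En.n l5032 (nat_lit 13593) (nat_lit 9) (nat_lit 10))
    (@En.n l4751 (nat_lit 13915) (nat_lit 9) (nat_lit 3))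
    (@En.n l17624 (nat_lit 14085) (nat_lit 11) (nat_lit 13))
    (@En.n l17625 (nat_lit 13736) (nat_lit 12) (nat_lit 10))
    (@En.n l5251 (nat_lit 13195) (nat_lit 13) (nat_lit 13))
    (@En.n l17474 (nat_lit 895) (nat_lit 14) (nat_lit 6))
    (@En.n l17 (nat_lit 13914) (nat_lit 14) (nat_lit 2))
    (@En.n l18 (nat_lit 13914) (nat_lit 15) (nat_lit 2))))
  (@Cl.mk (nat_lit 0x200020006000d000c000b0003000a0004000e00050002000a0006000e000e) (nat_lit 0xa850805004012) (nat_lit 16) Lb.e (@T16.mk En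
    (@En.n l5 (nat_lit 13915) (nat_lit 1) (nat_lit 14))
    (@En.i (nat_lit 790) (nat_lit 1) (nat_lit 14))
    (@En.i (nat_lit 13540) (nat_lit 2) (nat_lit 6))
    (@En.i (nat_lit 13658) (nat_lit 3) (nat_lit 10))
    (@En.n l28 (nat_lit 13915) (nat_lit 4) (nat_lit 2))
    (@En.n l5617 (nat_lit 13725) (nat_lit 5) (nat_lit 5))
    (@En.n l1578 (nat_lit 13923) (nat_lit 7) (nat_lit 14))
    (@En.n l117 (nat_lit 13916) (nat_lit 7) (nat_lit 4))
    (@En.n l12977 (nat_lit 13509) (nat_lit 9) (nat_lit 10))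
    (@En.n l2469 (nat_lit 13914) (nat_lit 9) (nat_lit 3))
    (@En.n l575 (nat_lit 13920) (nat_lit 11) (nat_lit 11))
    (@En.i (nat_lit 13913) (nat_lit 12) (nat_lit 12))
    (@En.i (nat_lit 13228) (nat_lit 13) (nat_lit 13))
    (@En.i (nat_lit 789) (nat_lit 14) (nat_lit 6))
    (@En.n l17 (nat_lit 13915) (nat_lit 14) (nat_lit 2))
    (@En.n l18 (nat_lit 13915) (nat_lit 15) (nat_lit 2))))
  (@Cl.mk (nat_lit 0x200020006000c000c0008000c00040004000e00040002000a0008000e000e) (nat_lit 0x2347001006412) (nat_lit 16) Lb.e (@T16.mk En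
    (@En.n l5 (nat_lit 13916) (nat_lit 1) (nat_lit 14))
    (@En.i (nat_lit 751) (nat_lit 13) (nat_lit 14))
    (@En.i (nat_lit 13364) (nat_lit 2) (nat_lit 8))
    (@En.i (nat_lit 12944) (nat_lit 3) (nat_lit 10))
    (@En.n l28 (nat_lit 13916) (nat_lit 4) (nat_lit 2))
    (@En.i (nat_lit 13918) (nat_lit 5) (nat_lit 4))
    (@En.n l476 (nat_lit 660) (nat_lit 7) (nat_lit 14))
    (@En.n l152 (nat_lit 13919) (nat_lit 7) (nat_lit 4))
    (@En.i (nat_lit 13913) (nat_lit 8) (nat_lit 4))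
    (@En.i (nat_lit 13435) (nat_lit 10) (nat_lit 12))
    (@En.i (nat_lit 13908) (nat_lit 11) (nat_lit 8))
    (@En.n l1867 (nat_lit 13917) (nat_lit 12) (nat_lit 12))
    (@En.i (nat_lit 13620) (nat_lit 13) (nat_lit 12))
    (@En.i (nat_lit 750) (nat_lit 14) (nat_lit 6))
    (@En.n l17 (nat_lit 13916) (nat_lit 14) (nat_lit 2))
    (@En.n l18 (nat_lit 13916) (nat_lit 15) (nat_lit 2))))
  (@Cl.mk (nat_lit 0x200020006000c0007000b000e00040002000e00050002000a0009000e000e) (nat_lit 0x205200a007512) (nat_lit 16) Lb.e (@T16.mk En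
    (@En.n l134 (nat_lit 13917) (nat_lit 1) (nat_lit 14))
    (@En.n l2036 (nat_lit 743) (nat_lit 13) (nat_lit 14))
    (@En.n l3339 (nat_lit 13571) (nat_lit 2) (nat_lit 9))
    (@En.i (nat_lit 13116) (nat_lit 3) (nat_lit 10))
    (@En.n l3 (nat_lit 13917) (nat_lit 4) (nat_lit 2))
    (@En.i (nat_lit 13573) (nat_lit 5) (nat_lit 5))
    (@En.n l3337 (nat_lit 13806) (nat_lit 7) (nat_lit 14))
    (@En.n l17 (nat_lit 13917) (nat_lit 7) (nat_lit 2))
    (@En.n l2869 (nat_lit 13916) (nat_lit 8) (nat_lit 4))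
    (@En.n l2036 (nat_lit 14084) (nat_lit 10) (nat_lit 14))
    (@En.n l2579 (nat_lit 13678) (nat_lit 11) (nat_lit 11))
    (@En.n l15191 (nat_lit 13747) (nat_lit 12) (nat_lit 7))
    (@En.n l2036 (nat_lit 13589) (nat_lit 13) (nat_lit 12))
    (@En.i (nat_lit 742) (nat_lit 14) (nat_lit 6))
    (@En.n l7 (nat_lit 13917) (nat_lit 14) (nat_lit 2))
    (@En.n l28 (nat_lit 13917) (nat_lit 15) (nat_lit 2))))
  (@Cl.mk (nat_lit 0x200020006000b000b0008000c000c0005000500040004000a0008000e000e) (nat_lit 0x3366800006312) (nat_lit 16) Lb.e (@T16.mk En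
    (@En.n l5 (nat_lit 13918) (nat_lit 1) (nat_lit 14))
    (@En.n l5760 (nat_lit 739) (nat_lit 1) (nat_lit 14))
    (@En.i (nat_lit 13574) (nat_lit 2) (nat_lit 8))
    (@En.i (nat_lit 13610) (nat_lit 3) (nat_lit 10))
    (@En.i (nat_lit 13926) (nat_lit 4) (nat_lit 4))
    (@En.n l11 (nat_lit 13739) (nat_lit 5) (nat_lit 4))
    (@En.n l152 (nat_lit 13920) (nat_lit 6) (nat_lit 5))
    (@En.n l936 (nat_lit 13740) (nat_lit 7) (nat_lit 5))
    (@En.n l55 (nat_lit 13916) (nat_lit 9) (nat_lit 12))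
    (@En.i (nat_lit 13679) (nat_lit 10) (nat_lit 12))
    (@En.i (nat_lit 13904) (nat_lit 11) (nat_lit 8))
    (@En.n l1867 (nat_lit 13573) (nat_lit 12) (nat_lit 11))
    (@En.i (nat_lit 13626) (nat_lit 13) (nat_lit 11))
    (@En.i (nat_lit 738) (nat_lit 14) (nat_lit 6))
    (@En.n l17 (nat_lit 13918) (nat_lit 14) (nat_lit 2))
    (@En.n l18 (nat_lit 13918) (nat_lit 15) (nat_lit 2))))
  (@Cl.mk (nat_lit 0x200020006000e000c00020009000d0004000e00030002000a0007000e000e) (nat_lit 0xc30620a005012) (nat_lit 16) Lb.e (@T16.mk En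
    (@En.n l5 (nat_lit 13919) (nat_lit 1) (nat_lit 14))
    (@En.i (nat_lit 780) (nat_lit 7) (nat_lit 14))
    (@En.i (nat_lit 14100) (nat_lit 2) (nat_lit 7))
    (@En.i (nat_lit 13659) (nat_lit 3) (nat_lit 10))
    (@En.n l28 (nat_lit 13919) (nat_lit 4) (nat_lit 2))
    (@En.i (nat_lit 13920) (nat_lit 5) (nat_lit 3))
    (@En.i (nat_lit 14060) (nat_lit 7) (nat_lit 14))
    (@En.i (nat_lit 13915) (nat_lit 7) (nat_lit 4))
    (@En.i (nat_lit 13681) (nat_lit 9) (nat_lit 13))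
    (@En.n l1504 (nat_lit 13510) (nat_lit 10) (nat_lit 9))
    (@En.n l3 (nat_lit 13919) (nat_lit 10) (nat_lit 2))
    (@En.i (nat_lit 13916) (nat_lit 12) (nat_lit 12))
    (@En.i (nat_lit 13232) (nat_lit 13) (nat_lit 14))
    (@En.i (nat_lit 781) (nat_lit 14) (nat_lit 6))
    (@En.n l17 (nat_lit 13919) (nat_lit 14) (nat_lit 2))
    (@En.n l18 (nat_lit 13919) (nat_lit 15) (nat_lit 2))))
noncomputable def a870 : T16 Cl := @T16.mk Cl
  (@Cl.mk (nat_lit 0x200020006000e000b00020009000d000d000500030003000a0007000e000e) (nat_lit 0x9406230005034) (nat_lit 16) Lb.e (@T16.mk En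
    (@En.n l5 (nat_lit 13920) (nat_lit 1) (nat_lit 14))
    (@En.n l287 (nat_lit 636) (nat_lit 7) (nat_lit 14))
    (@En.i (nat_lit 14099) (nat_lit 2) (nat_lit 7))
    (@En.i (nat_lit 13614) (nat_lit 3) (nat_lit 10))
    (@En.i (nat_lit 13921) (nat_lit 4) (nat_lit 3))
    (@En.n l11 (nat_lit 13919) (nat_lit 5) (nat_lit 3))
    (@En.i (nat_lit 13922) (nat_lit 6) (nat_lit 5))
    (@En.n l55 (nat_lit 13919) (nat_lit 8) (nat_lit 13))
    (@En.i (nat_lit 13683) (nat_lit 9) (nat_lit 13))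
    (@En.n l4893 (nat_lit 13511) (nat_lit 10) (nat_lit 9))
    (@En.n l3 (nat_lit 13920) (nat_lit 10) (nat_lit 2))
    (@En.i (nat_lit 13918) (nat_lit 12) (nat_lit 11))
    (@En.i (nat_lit 13231) (nat_lit 13) (nat_lit 14))
    (@En.i (nat_lit 635) (nat_lit 14) (nat_lit 6))
    (@En.n l17 (nat_lit 13920) (nat_lit 14) (nat_lit 2))
    (@En.n l18 (nat_lit 13920) (nat_lit 15) (nat_lit 2))))
  (@Cl.mk (nat_lit 0x200020006000e000a00020009000e000d000200060003000a0007000e000e) (nat_lit 0x7507630005012) (nat_lit 16) Lb.e (@T16.mk En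
    (@En.n l5 (nat_lit 13921) (nat_lit 1) (nat_lit 14))
    (@En.n l2390 (nat_lit 632) (nat_lit 11) (nat_lit 14))
    (@En.n l7117 (nat_lit 14098) (nat_lit 2) (nat_lit 7))
    (@En.n l974 (nat_lit 13597) (nat_lit 3) (nat_lit 10))
    (@En.n l218 (nat_lit 13920) (nat_lit 4) (nat_lit 3))
    (@En.n l974 (nat_lit 13914) (nat_lit 5) (nat_lit 6))
    (@En.n l28 (nat_lit 13921) (nat_lit 6) (nat_lit 2))
    (@En.n l55 (nat_lit 13920) (nat_lit 8) (nat_lit 13))
    (@En.n l218 (nat_lit 13724) (nat_lit 9) (nat_lit 14))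
    (@En.n l7117 (nat_lit 13515) (nat_lit 10) (nat_lit 9))
    (@En.n l3 (nat_lit 13921) (nat_lit 10) (nat_lit 2))
    (@En.i (nat_lit 13926) (nat_lit 12) (nat_lit 10))
    (@En.n l5578 (nat_lit 13233) (nat_lit 13) (nat_lit 14))
    (@En.i (nat_lit 631) (nat_lit 6) (nat_lit 6))
    (@En.n l17 (nat_lit 13921) (nat_lit 14) (nat_lit 2))
    (@En.n l18 (nat_lit 13921) (nat_lit 15) (nat_lit 2))))
  (@Cl.mk (nat_lit 0x200020006000d000b000a0003000a000e000500020006000a0006000e000e) (nat_lit 0x8360820004012) (nat_lit 16) Lb.e (@T16.mk En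
    (@En.n l5 (nat_lit 13922) (nat_lit 1) (nat_lit 14))
    (@En.n l2004 (nat_lit 793) (nat_lit 12) (nat_lit 14))
    (@En.n l13791 (nat_lit 13541) (nat_lit 2) (nat_lit 6))
    (@En.n l2004 (nat_lit 13650) (nat_lit 3) (nat_lit 10))
    (@En.n l5616 (nat_lit 13910) (nat_lit 4) (nat_lit 6))
    (@En.n l11 (nat_lit 13922) (nat_lit 5) (nat_lit 2))
    (@En.n l5617 (nat_lit 13725) (nat_lit 6) (nat_lit 5))
    (@En.i (nat_lit 13684) (nat_lit 8) (nat_lit 14))
    (@En.n l14307 (nat_lit 13518) (nat_lit 9) (nat_lit 10))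
    (@En.n l936 (nat_lit 13923) (nat_lit 9) (nat_lit 3))
    (@En.n l5621 (nat_lit 13921) (nat_lit 11) (nat_lit 10))
    (@En.n l936 (nat_lit 13740) (nat_lit 12) (nat_lit 11))
    (@En.n l4719 (nat_lit 13214) (nat_lit 13) (nat_lit 13))
    (@En.i (nat_lit 792) (nat_lit 7) (nat_lit 6))
    (@En.n l17 (nat_lit 13922) (nat_lit 14) (nat_lit 2))
    (@En.n l18 (nat_lit 13922) (nat_lit 15) (nat_lit 2))))
  (@Cl.mk (nat_lit 0x200020006000d0009000c0003000a000e000400020007000a0006000e000e) (nat_lit 0x8340640004012) (nat_lit 16) Lb.e (@T16.mk En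
    (@En.n l5 (nat_lit 13923) (nat_lit 1) (nat_lit 14))
    (@En.n l1998 (nat_lit 787) (nat_lit 12) (nat_lit 14))
    (@En.i (nat_lit 13539) (nat_lit 2) (nat_lit 6))
    (@En.n l1998 (nat_lit 13652) (nat_lit 3) (nat_lit 10))
    (@En.n l5154 (nat_lit 13924) (nat_lit 4) (nat_lit 7))
    (@En.n l11 (nat_lit 13923) (nat_lit 5) (nat_lit 2))
    (@En.n l5152 (nat_lit 13924) (nat_lit 6) (nat_lit 4))
    (@En.i (nat_lit 13685) (nat_lit 8) (nat_lit 14))
    (@En.n l1504 (nat_lit 13507) (nat_lit 9) (nat_lit 10))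
    (@En.n l2576 (nat_lit 13922) (nat_lit 9) (nat_lit 3))
    (@En.i (nat_lit 13919) (nat_lit 11) (nat_lit 12))
    (@En.n l476 (nat_lit 13925) (nat_lit 12) (nat_lit 9))
    (@En.i (nat_lit 13213) (nat_lit 13) (nat_lit 13))
    (@En.n l2568 (nat_lit 788) (nat_lit 14) (nat_lit 6))
    (@En.n l17 (nat_lit 13923) (nat_lit 14) (nat_lit 2))
    (@En.n l18 (nat_lit 13923) (nat_lit 15) (nat_lit 2))))
  (@Cl.mk (nat_lit 0x200020006000c0009000c000c0004000b000400040007000a0005000e000e) (nat_lit 0x7595070003012) (nat_lit 16) Lb.e (@T16.mk En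
    (@En.n l5 (nat_lit 13924) (nat_lit 1) (nat_lit 14))
    (@En.n l5313 (nat_lit 784) (nat_lit 1) (nat_lit 14))
    (@En.n l12512 (nat_lit 13535) (nat_lit 2) (nat_lit 5))
    (@En.n l1758 (nat_lit 13653) (nat_lit 3) (nat_lit 10))
    (@En.n l107 (nat_lit 13941) (nat_lit 4) (nat_lit 7))
    (@En.n l575 (nat_lit 13941) (nat_lit 5) (nat_lit 4))
    (@En.n l8351 (nat_lit 13740) (nat_lit 6) (nat_lit 4))
    (@En.n l1889 (nat_lit 13506) (nat_lit 8) (nat_lit 11))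
    (@En.n l1758 (nat_lit 13910) (nat_lit 8) (nat_lit 4))
    (@En.n l7771 (nat_lit 13923) (nat_lit 10) (nat_lit 12))
    (@En.n l3839 (nat_lit 13915) (nat_lit 11) (nat_lit 12))
    (@En.n l2038 (nat_lit 13728) (nat_lit 12) (nat_lit 9))
    (@En.n l513 (nat_lit 13093) (nat_lit 13) (nat_lit 12))
    (@En.n l2568 (nat_lit 783) (nat_lit 14) (nat_lit 6))
    (@En.n l17 (nat_lit 13924) (nat_lit 14) (nat_lit 2))
    (@En.n l18 (nat_lit 13924) (nat_lit 15) (nat_lit 2))))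
  (@Cl.mk (nat_lit 0x2000200060009000c000a0009000e0004000200070006000a0007000e000e) (nat_lit 0x2147800005012) (nat_lit 16) Lb.e (@T16.mk En
    (@En.n l5 (nat_lit 13925) (nat_lit 1) (nat_lit 14))
    (@En.n l12335 (nat_lit 825) (nat_lit 11) (nat_lit 14))
    (@En.i (nat_lit 13552) (nat_lit 2) (nat_lit 7))
    (@En.i (nat_lit 13923) (nat_lit 3) (nat_lit 10))
    (@En.n l3549 (nat_lit 13922) (nat_lit 4) (nat_lit 6))
    (@En.n l13757 (nat_lit 13728) (nat_lit 5) (nat_lit 7))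
    (@En.n l11 (nat_lit 13925) (nat_lit 6) (nat_lit 2))
    (@En.n l13758 (nat_lit 13728) (nat_lit 7) (nat_lit 4))
    (@En.i (nat_lit 13686) (nat_lit 9) (nat_lit 14))
    (@En.n l1504 (nat_lit 13508) (nat_lit 10) (nat_lit 9))
    (@En.n l27361 (nat_lit 13926) (nat_lit 11) (nat_lit 10))
    (@En.i (nat_lit 660) (nat_lit 12) (nat_lit 12))
    (@En.i (nat_lit 12972) (nat_lit 13) (nat_lit 9))
    (@En.n l387 (nat_lit 824) (nat_lit 14) (nat_lit 6))
    (@En.n l17 (nat_lit 13925) (nat_lit 14) (nat_lit 2))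
    (@En.n l18 (nat_lit 13925) (nat_lit 15) (nat_lit 2))))
  (@Cl.mk (nat_lit 0x200020006000a000a0008000e000c0002000600060004000a0008000e000e) (nat_lit 0x4366700006212) (nat_lit 16) Lb.e (@T16.mk En
    (@En.n l5 (nat_lit 13926) (nat_lit 1) (nat_lit 14))
    (@En.n l5759 (nat_lit 752) (nat_lit 10) (nat_lit 14))
    (@En.n l7117 (nat_lit 13852) (nat_lit 2) (nat_lit 8))
    (@En.n l2312 (nat_lit 13722) (nat_lit 3) (nat_lit 10))
    (@En.n l5759 (nat_lit 13735) (nat_lit 4) (nat_lit 4))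
    (@En.n l152 (nat_lit 13921) (nat_lit 5) (nat_lit 6))
    (@En.n l2313 (nat_lit 13736) (nat_lit 6) (nat_lit 6))
    (@En.n l28 (nat_lit 13926) (nat_lit 7) (nat_lit 2))
    (@En.n l55 (nat_lit 13918) (nat_lit 9) (nat_lit 12))
    (@En.n l218 (nat_lit 13721) (nat_lit 10) (nat_lit 14))
    (@En.n l7117 (nat_lit 13902) (nat_lit 11) (nat_lit 8))
    (@En.n l2309 (nat_lit 13927) (nat_lit 12) (nat_lit 10))
    (@En.n l12648 (nat_lit 13843) (nat_lit 13) (nat_lit 10))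
    (@En.i (nat_lit 639) (nat_lit 5) (nat_lit 6))
    (@En.n l17 (nat_lit 13926) (nat_lit 14) (nat_lit 2))
    (@En.n l18 (nat_lit 13926) (nat_lit 15) (nat_lit 2))))
  (@Cl.mk (nat_lit 0x200020006000a0007000e000b0002000e000600020005000a0009000e000e) (nat_lit 0x2046040007312) (nat_lit 16) Lb.e (@T16.mk En
    (@En.n l601 (nat_lit 13927) (nat_lit 1) (nat_lit 14))
    (@En.n l862 (nat_lit 749) (nat_lit 12) (nat_lit 14))
    (@En.n l1006 (nat_lit 13572) (nat_lit 2) (nat_lit 9))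
    (@En.n l862 (nat_lit 676) (nat_lit 3) (nat_lit 10))
    (@En.n l7597 (nat_lit 13808) (nat_lit 4) (nat_lit 5))
    (@En.n l725 (nat_lit 13927) (nat_lit 5) (nat_lit 2))
    (@En.n l2641 (nat_lit 13926) (nat_lit 6) (nat_lit 6))
    (@En.n l1003 (nat_lit 13573) (nat_lit 8) (nat_lit 14))
    (@En.n l3 (nat_lit 13927) (nat_lit 8) (nat_lit 2))
    (@En.n l1004 (nat_lit 13573) (nat_lit 10) (nat_lit 11))
    (@En.n l7597 (nat_lit 13597) (nat_lit 11) (nat_lit 14))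
    (@En.n l1005 (nat_lit 13748) (nat_lit 12) (nat_lit 7))
    (@En.n l5796 (nat_lit 13587) (nat_lit 13) (nat_lit 10))
    (@En.n l1005 (nat_lit 748) (nat_lit 7) (nat_lit 6))
    (@En.n l50 (nat_lit 13927) (nat_lit 14) (nat_lit 2))
    (@En.n l7 (nat_lit 13927) (nat_lit 15) (nat_lit 2))))
  (@Cl.mk (nat_lit 0x20002000c00090007000d0004000b0003000e0007000200050009000e000e) (nat_lit 0xa206070a000345) (nat_lit 16) Lb.e (@T16.mk En
    (@En.n l97 (nat_lit 13928) (nat_lit 1) (nat_lit 14))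
    (@En.i (nat_lit 6135) (nat_lit 13) (nat_lit 14))
    (@En.n l1722 (nat_lit 12949) (nat_lit 2) (nat_lit 9))
    (@En.n l13326 (nat_lit 13619) (nat_lit 3) (nat_lit 5))
    (@En.n l18 (nat_lit 13928) (nat_lit 4) (nat_lit 2))
    (@En.n l13327 (nat_lit 13637) (nat_lit 5) (nat_lit 7))
    (@En.n l396 (nat_lit 13929) (nat_lit 7) (nat_lit 14))
    (@En.i (nat_lit 13930) (nat_lit 7) (nat_lit 3))
    (@En.n l13328 (nat_lit 13927) (nat_lit 9) (nat_lit 11))
    (@En.i (nat_lit 12942) (nat_lit 9) (nat_lit 4))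
    (@En.n l10316 (nat_lit 13933) (nat_lit 11) (nat_lit 13))
    (@En.n l13329 (nat_lit 14026) (nat_lit 12) (nat_lit 7))
    (@En.n l7912 (nat_lit 13524) (nat_lit 13) (nat_lit 9))
    (@En.n l13326 (nat_lit 6931) (nat_lit 9) (nat_lit 12))
    (@En.n l107 (nat_lit 13928) (nat_lit 14) (nat_lit 2))
    (@En.n l3 (nat_lit 13928) (nat_lit 15) (nat_lit 2))))
  (@Cl.mk (nat_lit 0x20002000c000a0007000a0004000b000e00060002000600050009000e000e) (nat_lit 0x13060790000356) (nat_lit 16) Lb.e (@T16.mk En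
    (@En.n l97 (nat_lit 13929) (nat_lit 1) (nat_lit 14))
    (@En.i (nat_lit 6136) (nat_lit 12) (nat_lit 14))
    (@En.n l387 (nat_lit 13930) (nat_lit 2) (nat_lit 9))
    (@En.n l699 (nat_lit 13928) (nat_lit 3) (nat_lit 5))
    (@En.n l2179 (nat_lit 13623) (nat_lit 4) (nat_lit 6))
    (@En.n l50 (nat_lit 13929) (nat_lit 5) (nat_lit 2))
    (@En.n l6190 (nat_lit 13636) (nat_lit 6) (nat_lit 6))
    (@En.i (nat_lit 13393) (nat_lit 8) (nat_lit 14))
    (@En.n l10288 (nat_lit 13573) (nat_lit 9) (nat_lit 11))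
    (@En.i (nat_lit 12941) (nat_lit 9) (nat_lit 4))
    (@En.n l9025 (nat_lit 13212) (nat_lit 11) (nat_lit 10))
    (@En.n l5082 (nat_lit 14009) (nat_lit 12) (nat_lit 7))
    (@En.n l77 (nat_lit 13421) (nat_lit 13) (nat_lit 10))
    (@En.n l9025 (nat_lit 6929) (nat_lit 8) (nat_lit 12))
    (@En.n l107 (nat_lit 13929) (nat_lit 14) (nat_lit 2))
    (@En.n l3 (nat_lit 13929) (nat_lit 15) (nat_lit 2))))
  (@Cl.mk (nat_lit 0x20002000b00090007000d000a00050003000e0007000200060009000e000e) (nat_lit 0x22067009000245) (nat_lit 16) Lb.e (@T16.mk En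
    (@En.n l97 (nat_lit 13930) (nat_lit 1) (nat_lit 14))
    (@En.i (nat_lit 6137) (nat_lit 13) (nat_lit 14))
    (@En.n l1660 (nat_lit 12948) (nat_lit 2) (nat_lit 9))
    (@En.n l10314 (nat_lit 13622) (nat_lit 3) (nat_lit 6))
    (@En.n l18 (nat_lit 13930) (nat_lit 4) (nat_lit 2))
    (@En.n l10315 (nat_lit 13638) (nat_lit 5) (nat_lit 7))
    (@En.n l396 (nat_lit 13388) (nat_lit 7) (nat_lit 14))
    (@En.n l7 (nat_lit 13928) (nat_lit 7) (nat_lit 3))
    (@En.i (nat_lit 12937) (nat_lit 8) (nat_lit 5))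
    (@En.n l420 (nat_lit 13929) (nat_lit 10) (nat_lit 10))
    (@En.n l10316 (nat_lit 13931) (nat_lit 11) (nat_lit 13))
    (@En.n l1660 (nat_lit 14025) (nat_lit 12) (nat_lit 7))
    (@En.n l1660 (nat_lit 13418) (nat_lit 13) (nat_lit 9))
    (@En.i (nat_lit 6928) (nat_lit 9) (nat_lit 11))
    (@En.n l107 (nat_lit 13930) (nat_lit 14) (nat_lit 2))
    (@En.n l3 (nat_lit 13930) (nat_lit 15) (nat_lit 2))))
  (@Cl.mk (nat_lit 0x20002000c0009000d000900040003000b000e0007000200070005000e000e) (nat_lit 0x23550089000067) (nat_lit 16) Lb.e (@T16.mk En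
    (@En.n l5 (nat_lit 13931) (nat_lit 1) (nat_lit 14))
    (@En.n l12677 (nat_lit 6260) (nat_lit 13) (nat_lit 14))
    (@En.n l181 (nat_lit 13932) (nat_lit 2) (nat_lit 5))
    (@En.n l11 (nat_lit 14012) (nat_lit 3) (nat_lit 7))
    (@En.n l476 (nat_lit 13931) (nat_lit 4) (nat_lit 2))
    (@En.n l23634 (nat_lit 13643) (nat_lit 5) (nat_lit 7))
    (@En.n l23635 (nat_lit 13193) (nat_lit 7) (nat_lit 14))
    (@En.n l23636 (nat_lit 13929) (nat_lit 8) (nat_lit 11))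
    (@En.n l11 (nat_lit 13933) (nat_lit 8) (nat_lit 3))
    (@En.n l12677 (nat_lit 14042) (nat_lit 9) (nat_lit 4))
    (@En.n l23637 (nat_lit 13214) (nat_lit 11) (nat_lit 9))
    (@En.n l23638 (nat_lit 13445) (nat_lit 12) (nat_lit 13))
    (@En.n l23639 (nat_lit 13909) (nat_lit 13) (nat_lit 9))
    (@En.n l23640 (nat_lit 7182) (nat_lit 9) (nat_lit 12))
    (@En.n l17 (nat_lit 13931) (nat_lit 14) (nat_lit 2))
    (@En.n l18 (nat_lit 13931) (nat_lit 15) (nat_lit 2))))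
  (@Cl.mk (nat_lit 0x20002000c0008000d000c00040003000b0004000e000800020005000e000e) (nat_lit 0x93550080a50012) (nat_lit 16) Lb.e (@T16.mk En
    (@En.n l5 (nat_lit 13932) (nat_lit 1) (nat_lit 14))
    (@En.n l23425 (nat_lit 4515) (nat_lit 1) (nat_lit 14))
    (@En.n l23426 (nat_lit 13361) (nat_lit 2) (nat_lit 5))
    (@En.n l476 (nat_lit 13932) (nat_lit 3) (nat_lit 2))
    (@En.n l23427 (nat_lit 13869) (nat_lit 4) (nat_lit 8))
    (@En.i (nat_lit 13931) (nat_lit 6) (nat_lit 14))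
    (@En.n l23428 (nat_lit 13939) (nat_lit 6) (nat_lit 4))
    (@En.n l23429 (nat_lit 13928) (nat_lit 8) (nat_lit 11))
    (@En.n l11 (nat_lit 13934) (nat_lit 8) (nat_lit 3))
    (@En.n l23430 (nat_lit 13476) (nat_lit 9) (nat_lit 4))
    (@En.n l23431 (nat_lit 13937) (nat_lit 11) (nat_lit 12))
    (@En.n l23428 (nat_lit 13457) (nat_lit 12) (nat_lit 13))
    (@En.n l23432 (nat_lit 13799) (nat_lit 13) (nat_lit 8))
    (@En.n l253 (nat_lit 7183) (nat_lit 10) (nat_lit 12))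
    (@En.n l17 (nat_lit 13932) (nat_lit 14) (nat_lit 2))
    (@En.n l18 (nat_lit 13932) (nat_lit 15) (nat_lit 2))))
  (@Cl.mk (nat_lit 0x20002000d0009000d0003000a0003000b000e0007000200060005000e000e) (nat_lit 0x3350607a000089) (nat_lit 16) Lb.e (@T16.mk En
    (@En.n l5 (nat_lit 13933) (nat_lit 1) (nat_lit 14))
    (@En.n l12677 (nat_lit 6263) (nat_lit 13) (nat_lit 14))
    (@En.n l181 (nat_lit 13934) (nat_lit 2) (nat_lit 5))
    (@En.i (nat_lit 14010) (nat_lit 3) (nat_lit 6))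
    (@En.n l476 (nat_lit 13933) (nat_lit 4) (nat_lit 2))
    (@En.n l253 (nat_lit 13982) (nat_lit 5) (nat_lit 7))
    (@En.n l12257 (nat_lit 13191) (nat_lit 7) (nat_lit 14))
    (@En.n l12678 (nat_lit 13570) (nat_lit 8) (nat_lit 11))
    (@En.i (nat_lit 13931) (nat_lit 8) (nat_lit 3))
    (@En.n l152 (nat_lit 13597) (nat_lit 10) (nat_lit 10))
    (@En.n l12679 (nat_lit 13935) (nat_lit 10) (nat_lit 3))
    (@En.n l513 (nat_lit 13460) (nat_lit 12) (nat_lit 13))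
    (@En.n l12608 (nat_lit 13797) (nat_lit 13) (nat_lit 9))
    (@En.n l253 (nat_lit 6630) (nat_lit 9) (nat_lit 13))
    (@En.n l17 (nat_lit 13933) (nat_lit 14) (nat_lit 2))
    (@En.n l18 (nat_lit 13933) (nat_lit 15) (nat_lit 2))))
  (@Cl.mk (nat_lit 0x20002000d0008000d0003000d0003000b0003000e000800020005000e000e) (nat_lit 0x23506080b60089) (nat_lit 16) Lb.e (@T16.mk En
    (@En.n l5 (nat_lit 13934) (nat_lit 1) (nat_lit 14))
    (@En.n l12334 (nat_lit 5401) (nat_lit 1) (nat_lit 14))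
    (@En.n l4460 (nat_lit 13360) (nat_lit 2) (nat_lit 5))
    (@En.n l476 (nat_lit 13934) (nat_lit 3) (nat_lit 2))
    (@En.n l253 (nat_lit 13966) (nat_lit 4) (nat_lit 8))
    (@En.i (nat_lit 13933) (nat_lit 6) (nat_lit 14))
    (@En.n l1668 (nat_lit 13937) (nat_lit 6) (nat_lit 3))
    (@En.n l11819 (nat_lit 13572) (nat_lit 8) (nat_lit 11))
    (@En.i (nat_lit 13932) (nat_lit 8) (nat_lit 3))
    (@En.n l12608 (nat_lit 12783) (nat_lit 10) (nat_lit 13))
    (@En.n l12670 (nat_lit 13936) (nat_lit 10) (nat_lit 3))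
    (@En.n l513 (nat_lit 13459) (nat_lit 12) (nat_lit 13))
    (@En.n l12608 (nat_lit 13796) (nat_lit 13) (nat_lit 8))
    (@En.n l253 (nat_lit 6629) (nat_lit 10) (nat_lit 13))
    (@En.n l17 (nat_lit 13934) (nat_lit 14) (nat_lit 2))
    (@En.n l18 (nat_lit 13934) (nat_lit 15) (nat_lit 2))))
  (@Cl.mk (nat_lit 0x20002000d000c000a0003000a0004000b000e0006000200060005000e000e) (nat_lit 0x334070880000bc) (nat_lit 16) Lb.e (@T16.mk En
    (@En.n l97 (nat_lit 13935) (nat_lit 1) (nat_lit 14))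
    (@En.i (nat_lit 6266) (nat_lit 13) (nat_lit 14))
    (@En.n l2593 (nat_lit 13936) (nat_lit 2) (nat_lit 5))
    (@En.n l26467 (nat_lit 13987) (nat_lit 3) (nat_lit 6))
    (@En.n l18 (nat_lit 13935) (nat_lit 4) (nat_lit 2))
    (@En.n l13646 (nat_lit 13983) (nat_lit 5) (nat_lit 6))
    (@En.n l26468 (nat_lit 13183) (nat_lit 7) (nat_lit 14))
    (@En.n l6126 (nat_lit 13567) (nat_lit 8) (nat_lit 11))
    (@En.i (nat_lit 14045) (nat_lit 8) (nat_lit 4))
    (@En.n l26468 (nat_lit 13922) (nat_lit 10) (nat_lit 10))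
    (@En.n l10316 (nat_lit 13933) (nat_lit 10) (nat_lit 3))
    (@En.n l8122 (nat_lit 12827) (nat_lit 12) (nat_lit 10))
    (@En.n l26469 (nat_lit 13931) (nat_lit 13) (nat_lit 12))
    (@En.n l2036 (nat_lit 6622) (nat_lit 9) (nat_lit 13))
    (@En.n l107 (nat_lit 13935) (nat_lit 14) (nat_lit 2))
    (@En.n l3 (nat_lit 13935) (nat_lit 15) (nat_lit 2))))
noncomputable def a871 : T16 Cl := @T16.mk Cl
  (@Cl.mk (nat_lit 0x20002000d000c00090003000d0004000b0003000e000700020005000e000e) (nat_lit 0x2a307090900056) (nat_lit 16) Lb.e (@T16.mk En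
    (@En.n l97 (nat_lit 13936) (nat_lit 1) (nat_lit 14))
    (@En.i (nat_lit 5862) (nat_lit 1) (nat_lit 14))
    (@En.n l5555 (nat_lit 13363) (nat_lit 2) (nat_lit 5))
    (@En.n l17 (nat_lit 13936) (nat_lit 3) (nat_lit 2))
    (@En.n l13167 (nat_lit 13996) (nat_lit 4) (nat_lit 7))
    (@En.n l5 (nat_lit 13935) (nat_lit 6) (nat_lit 14))
    (@En.n l50 (nat_lit 13938) (nat_lit 6) (nat_lit 3))
    (@En.i (nat_lit 13569) (nat_lit 8) (nat_lit 11))
    (@En.n l3506 (nat_lit 13475) (nat_lit 8) (nat_lit 4))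
    (@En.n l20065 (nat_lit 13598) (nat_lit 10) (nat_lit 13))
    (@En.n l12331 (nat_lit 13934) (nat_lit 10) (nat_lit 3))
    (@En.i (nat_lit 12825) (nat_lit 12) (nat_lit 9))
    (@En.n l4401 (nat_lit 13932) (nat_lit 13) (nat_lit 12))
    (@En.n l790 (nat_lit 6625) (nat_lit 10) (nat_lit 13))
    (@En.n l107 (nat_lit 13936) (nat_lit 14) (nat_lit 2))
    (@En.n l3 (nat_lit 13936) (nat_lit 15) (nat_lit 2))))
  (@Cl.mk (nat_lit 0x20002000d0008000c0003000d000a00040003000e000800020006000e000e) (nat_lit 0x54406700b60089) (nat_lit 16) Lb.e (@T16.mk En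
    (@En.n l97 (nat_lit 13937) (nat_lit 1) (nat_lit 14))
    (@En.i (nat_lit 5331) (nat_lit 1) (nat_lit 14))
    (@En.n l5120 (nat_lit 13887) (nat_lit 2) (nat_lit 6))
    (@En.n l17 (nat_lit 13937) (nat_lit 3) (nat_lit 2))
    (@En.n l1625 (nat_lit 13962) (nat_lit 4) (nat_lit 8))
    (@En.n l4651 (nat_lit 13195) (nat_lit 6) (nat_lit 14))
    (@En.n l10305 (nat_lit 13934) (nat_lit 6) (nat_lit 3))
    (@En.i (nat_lit 13968) (nat_lit 7) (nat_lit 4))
    (@En.n l5120 (nat_lit 13933) (nat_lit 9) (nat_lit 10))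
    (@En.n l3424 (nat_lit 12782) (nat_lit 10) (nat_lit 13))
    (@En.n l10307 (nat_lit 13938) (nat_lit 10) (nat_lit 3))
    (@En.i (nat_lit 12979) (nat_lit 12) (nat_lit 12))
    (@En.n l2650 (nat_lit 13828) (nat_lit 13) (nat_lit 8))
    (@En.n l1395 (nat_lit 6631) (nat_lit 10) (nat_lit 13))
    (@En.n l107 (nat_lit 13937) (nat_lit 14) (nat_lit 2))
    (@En.n l3 (nat_lit 13937) (nat_lit 15) (nat_lit 2))))
  (@Cl.mk (nat_lit 0x20002000d000b00090003000d000a00050003000e000700020006000e000e) (nat_lit 0x53306800a00012) (nat_lit 16) Lb.e (@T16.mk En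
    (@En.n l97 (nat_lit 13938) (nat_lit 1) (nat_lit 14))
    (@En.i (nat_lit 5333) (nat_lit 1) (nat_lit 14))
    (@En.n l26705 (nat_lit 13890) (nat_lit 2) (nat_lit 6))
    (@En.n l17 (nat_lit 13938) (nat_lit 3) (nat_lit 2))
    (@En.i (nat_lit 12875) (nat_lit 4) (nat_lit 7))
    (@En.n l8122 (nat_lit 13228) (nat_lit 6) (nat_lit 14))
    (@En.i (nat_lit 13936) (nat_lit 6) (nat_lit 3))
    (@En.n l7081 (nat_lit 13393) (nat_lit 7) (nat_lit 5))
    (@En.n l564 (nat_lit 13935) (nat_lit 9) (nat_lit 10))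
    (@En.n l1415 (nat_lit 13601) (nat_lit 10) (nat_lit 13))
    (@En.n l7081 (nat_lit 13937) (nat_lit 10) (nat_lit 3))
    (@En.i (nat_lit 12823) (nat_lit 12) (nat_lit 9))
    (@En.n l11084 (nat_lit 13939) (nat_lit 13) (nat_lit 11))
    (@En.n l8122 (nat_lit 6627) (nat_lit 10) (nat_lit 13))
    (@En.n l107 (nat_lit 13938) (nat_lit 14) (nat_lit 2))
    (@En.n l3 (nat_lit 13938) (nat_lit 15) (nat_lit 2))))
  (@Cl.mk (nat_lit 0x20002000b0008000c000c0009000500040004000e000800020007000e000e) (nat_lit 0x23456000b40078) (nat_lit 16) Lb.e (@T16.mk En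
    (@En.n l97 (nat_lit 13939) (nat_lit 1) (nat_lit 14))
    (@En.i (nat_lit 5327) (nat_lit 1) (nat_lit 14))
    (@En.n l22694 (nat_lit 13331) (nat_lit 2) (nat_lit 7))
    (@En.n l17 (nat_lit 13939) (nat_lit 3) (nat_lit 2))
    (@En.n l22568 (nat_lit 13335) (nat_lit 4) (nat_lit 8))
    (@En.i (nat_lit 13196) (nat_lit 6) (nat_lit 14))
    (@En.n l1338 (nat_lit 14018) (nat_lit 6) (nat_lit 4))
    (@En.n l237 (nat_lit 13937) (nat_lit 7) (nat_lit 4))
    (@En.i (nat_lit 13412) (nat_lit 8) (nat_lit 5))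
    (@En.n l22695 (nat_lit 13931) (nat_lit 10) (nat_lit 9))
    (@En.n l4380 (nat_lit 13968) (nat_lit 11) (nat_lit 12))
    (@En.i (nat_lit 12977) (nat_lit 12) (nat_lit 12))
    (@En.n l287 (nat_lit 13829) (nat_lit 13) (nat_lit 8))
    (@En.n l11 (nat_lit 5223) (nat_lit 10) (nat_lit 11))
    (@En.n l107 (nat_lit 13939) (nat_lit 14) (nat_lit 2))
    (@En.n l3 (nat_lit 13939) (nat_lit 15) (nat_lit 2))))
  (@Cl.mk (nat_lit 0x200020006000b000e000a0002000d0005000c00030006000a0004000e000e) (nat_lit 0x9340108003045) (nat_lit 16) Lb.e (@T16.mk En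
    (@En.n l5 (nat_lit 13940) (nat_lit 1) (nat_lit 14))
    (@En.i (nat_lit 582) (nat_lit 1) (nat_lit 14))
    (@En.i (nat_lit 13544) (nat_lit 2) (nat_lit 4))
    (@En.n l1638 (nat_lit 13678) (nat_lit 3) (nat_lit 10))
    (@En.i (nat_lit 273) (nat_lit 4) (nat_lit 6))
    (@En.i (nat_lit 13911) (nat_lit 5) (nat_lit 3))
    (@En.n l2036 (nat_lit 13531) (nat_lit 7) (nat_lit 12))
    (@En.n l4870 (nat_lit 13726) (nat_lit 7) (nat_lit 5))
    (@En.n l1758 (nat_lit 13910) (nat_lit 9) (nat_lit 13))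
    (@En.n l3 (nat_lit 13940) (nat_lit 9) (nat_lit 2))
    (@En.n l4871 (nat_lit 13910) (nat_lit 11) (nat_lit 10))
    (@En.i (nat_lit 13053) (nat_lit 12) (nat_lit 14))
    (@En.i (nat_lit 13189) (nat_lit 13) (nat_lit 11))
    (@En.n l2568 (nat_lit 581) (nat_lit 14) (nat_lit 6))
    (@En.n l17 (nat_lit 13940) (nat_lit 14) (nat_lit 2))
    (@En.n l18 (nat_lit 13940) (nat_lit 15) (nat_lit 2))))
  (@Cl.mk (nat_lit 0x200020006000b0009000e000c00020005000c00040007000a0004000e000e) (nat_lit 0x756a008002012) (nat_lit 16) Lb.e (@T16.mk En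
    (@En.n l5 (nat_lit 13941) (nat_lit 1) (nat_lit 14))
    (@En.n l1997 (nat_lit 804) (nat_lit 9) (nat_lit 14))
    (@En.i (nat_lit 13536) (nat_lit 2) (nat_lit 4))
    (@En.n l1889 (nat_lit 13665) (nat_lit 3) (nat_lit 10))
    (@En.i (nat_lit 13944) (nat_lit 4) (nat_lit 7))
    (@En.i (nat_lit 13738) (nat_lit 5) (nat_lit 4))
    (@En.n l1504 (nat_lit 13505) (nat_lit 7) (nat_lit 12))
    (@En.i (nat_lit 13940) (nat_lit 7) (nat_lit 5))
    (@En.n l11 (nat_lit 13941) (nat_lit 8) (nat_lit 2))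
    (@En.i (nat_lit 13924) (nat_lit 10) (nat_lit 12))
    (@En.n l180 (nat_lit 13727) (nat_lit 11) (nat_lit 14))
    (@En.n l2038 (nat_lit 13729) (nat_lit 12) (nat_lit 9))
    (@En.n l513 (nat_lit 13091) (nat_lit 13) (nat_lit 11))
    (@En.n l2568 (nat_lit 805) (nat_lit 4) (nat_lit 6))
    (@En.n l17 (nat_lit 13941) (nat_lit 14) (nat_lit 2))
    (@En.n l18 (nat_lit 13941) (nat_lit 15) (nat_lit 2))))
  (@Cl.mk (nat_lit 0x200020006000a000e000e00020002000d0006000d0003000a0003000e000e) (nat_lit 0x7bc0020302023) (nat_lit 16) Lb.e (@T16.mk En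
    (@En.n l5 (nat_lit 13942) (nat_lit 1) (nat_lit 14))
    (@En.i (nat_lit 13126) (nat_lit 8) (nat_lit 14))
    (@En.i (nat_lit 13945) (nat_lit 2) (nat_lit 3))
    (@En.i (nat_lit 269) (nat_lit 10) (nat_lit 10))
    (@En.i (nat_lit 13943) (nat_lit 4) (nat_lit 3))
    (@En.i (nat_lit 14065) (nat_lit 6) (nat_lit 13))
    (@En.n l159 (nat_lit 13944) (nat_lit 6) (nat_lit 6))
    (@En.i (nat_lit 13940) (nat_lit 8) (nat_lit 13))
    (@En.n l107 (nat_lit 13942) (nat_lit 8) (nat_lit 2))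
    (@En.n l3 (nat_lit 13942) (nat_lit 9) (nat_lit 2))
    (@En.n l97 (nat_lit 13942) (nat_lit 11) (nat_lit 14))
    (@En.i (nat_lit 13681) (nat_lit 12) (nat_lit 14))
    (@En.i (nat_lit 14075) (nat_lit 13) (nat_lit 10))
    (@En.i (nat_lit 13125) (nat_lit 3) (nat_lit 6))
    (@En.n l17 (nat_lit 13942) (nat_lit 14) (nat_lit 2))
    (@En.n l18 (nat_lit 13942) (nat_lit 15) (nat_lit 2))))
  (@Cl.mk (nat_lit 0x2000200060009000e000e00020002000d000c00070003000a0004000e000e) (nat_lit 0x2560083002089) (nat_lit 16) Lb.e (@T16.mk En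
    (@En.n l5 (nat_lit 13943) (nat_lit 1) (nat_lit 14))
    (@En.i (nat_lit 13123) (nat_lit 8) (nat_lit 14))
    (@En.n l28 (nat_lit 13950) (nat_lit 2) (nat_lit 4))
    (@En.n l1599 (nat_lit 13944) (nat_lit 3) (nat_lit 10))
    (@En.n l28 (nat_lit 13942) (nat_lit 4) (nat_lit 3))
    (@En.i (nat_lit 14058) (nat_lit 5) (nat_lit 7))
    (@En.n l77 (nat_lit 13945) (nat_lit 7) (nat_lit 12))
    (@En.i (nat_lit 13911) (nat_lit 8) (nat_lit 13))
    (@En.n l107 (nat_lit 13943) (nat_lit 8) (nat_lit 2))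
    (@En.n l3 (nat_lit 13943) (nat_lit 9) (nat_lit 2))
    (@En.n l97 (nat_lit 13943) (nat_lit 11) (nat_lit 14))
    (@En.i (nat_lit 13682) (nat_lit 12) (nat_lit 14))
    (@En.i (nat_lit 14074) (nat_lit 13) (nat_lit 9))
    (@En.i (nat_lit 13120) (nat_lit 3) (nat_lit 6))
    (@En.n l17 (nat_lit 13943) (nat_lit 14) (nat_lit 2))
    (@En.n l18 (nat_lit 13943) (nat_lit 15) (nat_lit 2))))
  (@Cl.mk (nat_lit 0x200020006000a0009000e000e000200020006000d0007000a0003000e000e) (nat_lit 0x8312000301089) (nat_lit 16) Lb.e (@T16.mk En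
    (@En.n l5 (nat_lit 13944) (nat_lit 1) (nat_lit 14))
    (@En.i (nat_lit 13122) (nat_lit 9) (nat_lit 14))
    (@En.i (nat_lit 13947) (nat_lit 9) (nat_lit 3))
    (@En.n l1998 (nat_lit 27) (nat_lit 3) (nat_lit 10))
    (@En.n l810 (nat_lit 14059) (nat_lit 4) (nat_lit 7))
    (@En.n l1504 (nat_lit 13946) (nat_lit 6) (nat_lit 13))
    (@En.i (nat_lit 273) (nat_lit 6) (nat_lit 6))
    (@En.n l11 (nat_lit 13944) (nat_lit 7) (nat_lit 2))
    (@En.n l107 (nat_lit 13944) (nat_lit 8) (nat_lit 2))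
    (@En.n l180 (nat_lit 13944) (nat_lit 10) (nat_lit 14))
    (@En.i (nat_lit 271) (nat_lit 11) (nat_lit 14))
    (@En.n l2038 (nat_lit 13943) (nat_lit 12) (nat_lit 9))
    (@En.n l513 (nat_lit 14079) (nat_lit 3) (nat_lit 10))
    (@En.n l2568 (nat_lit 13118) (nat_lit 4) (nat_lit 6))
    (@En.n l17 (nat_lit 13944) (nat_lit 14) (nat_lit 2))
    (@En.n l18 (nat_lit 13944) (nat_lit 15) (nat_lit 2))))
  (@Cl.mk (nat_lit 0x200020007000a000e000e00020002000c0006000d000900040003000e000e) (nat_lit 0x7450020940012) (nat_lit 16) Lb.e (@T16.mk En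
    (@En.n l5 (nat_lit 13945) (nat_lit 1) (nat_lit 14))
    (@En.n l564 (nat_lit 289) (nat_lit 8) (nat_lit 14))
    (@En.n l7 (nat_lit 13942) (nat_lit 2) (nat_lit 3))
    (@En.i (nat_lit 13951) (nat_lit 3) (nat_lit 4))
    (@En.i (nat_lit 13946) (nat_lit 4) (nat_lit 9))
    (@En.i (nat_lit 14064) (nat_lit 6) (nat_lit 13))
    (@En.n l159 (nat_lit 13947) (nat_lit 13) (nat_lit 6))
    (@En.i (nat_lit 13544) (nat_lit 8) (nat_lit 12))
    (@En.n l107 (nat_lit 13945) (nat_lit 8) (nat_lit 2))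
    (@En.n l3 (nat_lit 13945) (nat_lit 9) (nat_lit 2))
    (@En.n l97 (nat_lit 13945) (nat_lit 11) (nat_lit 14))
    (@En.i (nat_lit 13430) (nat_lit 12) (nat_lit 14))
    (@En.i (nat_lit 14078) (nat_lit 13) (nat_lit 10))
    (@En.i (nat_lit 13581) (nat_lit 3) (nat_lit 7))
    (@En.n l17 (nat_lit 13945) (nat_lit 14) (nat_lit 2))
    (@En.n l18 (nat_lit 13945) (nat_lit 15) (nat_lit 2))))
  (@Cl.mk (nat_lit 0x2000200070006000a000e000e00020002000d000600090003000a000e000e) (nat_lit 0x856002030112) (nat_lit 16) Lb.e (@T16.mk En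
    (@En.n l5 (nat_lit 13946) (nat_lit 1) (nat_lit 14))
    (@En.n l420 (nat_lit 285) (nat_lit 9) (nat_lit 14))
    (@En.n l27102 (nat_lit 65) (nat_lit 2) (nat_lit 10))
    (@En.i (nat_lit 13949) (nat_lit 3) (nat_lit 3))
    (@En.n l25975 (nat_lit 14082) (nat_lit 4) (nat_lit 9))
    (@En.n l27103 (nat_lit 13948) (nat_lit 13) (nat_lit 6))
    (@En.n l4869 (nat_lit 13348) (nat_lit 7) (nat_lit 13))
    (@En.n l107 (nat_lit 13946) (nat_lit 7) (nat_lit 2))
    (@En.n l3 (nat_lit 13946) (nat_lit 8) (nat_lit 2))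
    (@En.n l97 (nat_lit 13946) (nat_lit 10) (nat_lit 14))
    (@En.i (nat_lit 13520) (nat_lit 11) (nat_lit 14))
    (@En.n l8 (nat_lit 13945) (nat_lit 12) (nat_lit 10))
    (@En.i (nat_lit 13942) (nat_lit 13) (nat_lit 6))
    (@En.n l420 (nat_lit 13127) (nat_lit 4) (nat_lit 7))
    (@En.n l17 (nat_lit 13946) (nat_lit 14) (nat_lit 2))
    (@En.n l18 (nat_lit 13946) (nat_lit 15) (nat_lit 2))))
  (@Cl.mk (nat_lit 0x200020006000d000900080003000e000e000200020007000a0008000e000e) (nat_lit 0x4350890007412) (nat_lit 16) Lb.e (@T16.mk En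
    (@En.n l180 (nat_lit 13947) (nat_lit 1) (nat_lit 14))
    (@En.i (nat_lit 275) (nat_lit 11) (nat_lit 14))
    (@En.n l619 (nat_lit 13950) (nat_lit 12) (nat_lit 8))
    (@En.n l1251 (nat_lit 14085) (nat_lit 3) (nat_lit 10))
    (@En.n l1501 (nat_lit 13115) (nat_lit 4) (nat_lit 7))
    (@En.n l17 (nat_lit 13947) (nat_lit 5) (nat_lit 2))
    (@En.n l18 (nat_lit 13947) (nat_lit 6) (nat_lit 2))
    (@En.n l5 (nat_lit 13947) (nat_lit 8) (nat_lit 14))
    (@En.n l564 (nat_lit 13813) (nat_lit 9) (nat_lit 14))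
    (@En.n l7 (nat_lit 13944) (nat_lit 2) (nat_lit 3))
    (@En.i (nat_lit 13823) (nat_lit 11) (nat_lit 8))
    (@En.n l11680 (nat_lit 13948) (nat_lit 12) (nat_lit 9))
    (@En.n l1504 (nat_lit 13949) (nat_lit 6) (nat_lit 13))
    (@En.i (nat_lit 13508) (nat_lit 6) (nat_lit 6))
    (@En.n l11 (nat_lit 13947) (nat_lit 14) (nat_lit 2))
    (@En.n l107 (nat_lit 13947) (nat_lit 15) (nat_lit 2))))
  (@Cl.mk (nat_lit 0x20002000600090007000a000e000e0002000200070006000a0009000e000e) (nat_lit 0x2017800008567) (nat_lit 16) Lb.e (@T16.mk En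
    (@En.n l5 (nat_lit 13948) (nat_lit 1) (nat_lit 14))
    (@En.n l12534 (nat_lit 13505) (nat_lit 10) (nat_lit 14))
    (@En.n l13627 (nat_lit 13949) (nat_lit 11) (nat_lit 9))
    (@En.n l12494 (nat_lit 13947) (nat_lit 3) (nat_lit 10))
    (@En.n l12534 (nat_lit 13944) (nat_lit 13) (nat_lit 6))
    (@En.n l2036 (nat_lit 13116) (nat_lit 5) (nat_lit 7))
    (@En.n l107 (nat_lit 13948) (nat_lit 6) (nat_lit 2))
    (@En.n l3 (nat_lit 13948) (nat_lit 7) (nat_lit 2))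
    (@En.n l97 (nat_lit 13948) (nat_lit 9) (nat_lit 14))
    (@En.n l1998 (nat_lit 13812) (nat_lit 10) (nat_lit 14))
    (@En.i (nat_lit 269) (nat_lit 2) (nat_lit 10))
    (@En.n l25403 (nat_lit 13825) (nat_lit 12) (nat_lit 7))
    (@En.n l1997 (nat_lit 13815) (nat_lit 4) (nat_lit 9))
    (@En.n l12534 (nat_lit 13507) (nat_lit 5) (nat_lit 6))
    (@En.n l17 (nat_lit 13948) (nat_lit 14) (nat_lit 2))
    (@En.n l18 (nat_lit 13948) (nat_lit 15) (nat_lit 2))))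
  (@Cl.mk (nat_lit 0x20002000800060009000e000e00020002000d000800070003000a000e000e) (nat_lit 0x20456003200278) (nat_lit 16) Lb.e (@T16.mk En
    (@En.n l5 (nat_lit 13949) (nat_lit 1) (nat_lit 14))
    (@En.n l420 (nat_lit 13143) (nat_lit 9) (nat_lit 14))
    (@En.n l11978 (nat_lit 13948) (nat_lit 10) (nat_lit 10))
    (@En.n l28 (nat_lit 13946) (nat_lit 3) (nat_lit 3))
    (@En.n l5566 (nat_lit 14057) (nat_lit 4) (nat_lit 7))
    (@En.i (nat_lit 13816) (nat_lit 13) (nat_lit 8))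
    (@En.n l4869 (nat_lit 13350) (nat_lit 7) (nat_lit 13))
    (@En.n l107 (nat_lit 13949) (nat_lit 7) (nat_lit 2))
    (@En.n l3 (nat_lit 13949) (nat_lit 8) (nat_lit 2))
    (@En.n l97 (nat_lit 13949) (nat_lit 10) (nat_lit 14))
    (@En.i (nat_lit 13500) (nat_lit 11) (nat_lit 14))
    (@En.n l8 (nat_lit 13951) (nat_lit 12) (nat_lit 9))
    (@En.i (nat_lit 13943) (nat_lit 13) (nat_lit 6))
    (@En.n l420 (nat_lit 12941) (nat_lit 4) (nat_lit 8))
    (@En.n l17 (nat_lit 13949) (nat_lit 14) (nat_lit 2))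
    (@En.n l18 (nat_lit 13949) (nat_lit 15) (nat_lit 2))))
  (@Cl.mk (nat_lit 0x2000200080008000e000e00020002000c000c0008000800040004000e000e) (nat_lit 0x33450039350089) (nat_lit 16) Lb.e (@T16.mk En
    (@En.n l5 (nat_lit 13950) (nat_lit 1) (nat_lit 14))
    (@En.n l414 (nat_lit 13149) (nat_lit 8) (nat_lit 14))
    (@En.n l237 (nat_lit 13952) (nat_lit 2) (nat_lit 4))
    (@En.i (nat_lit 13945) (nat_lit 3) (nat_lit 4))
    (@En.n l13 (nat_lit 13953) (nat_lit 11) (nat_lit 8))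
    (@En.n l55 (nat_lit 13949) (nat_lit 5) (nat_lit 8))
    (@En.n l134 (nat_lit 13951) (nat_lit 7) (nat_lit 12))
    (@En.n l11 (nat_lit 13706) (nat_lit 8) (nat_lit 12))
    (@En.n l107 (nat_lit 13950) (nat_lit 8) (nat_lit 2))
    (@En.n l3 (nat_lit 13950) (nat_lit 9) (nat_lit 2))
    (@En.n l97 (nat_lit 13950) (nat_lit 11) (nat_lit 14))
    (@En.i (nat_lit 13425) (nat_lit 12) (nat_lit 14))
    (@En.i (nat_lit 14104) (nat_lit 13) (nat_lit 8))
    (@En.i (nat_lit 12938) (nat_lit 3) (nat_lit 8))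
    (@En.n l17 (nat_lit 13950) (nat_lit 14) (nat_lit 2))
    (@En.n l18 (nat_lit 13950) (nat_lit 15) (nat_lit 2))))
  (@Cl.mk (nat_lit 0x2000200090009000e000e00020002000c00070007000e00040002000e000e) (nat_lit 0x33560080060078) (nat_lit 16) Lb.e (@T16.mk En
    (@En.n l5 (nat_lit 13951) (nat_lit 1) (nat_lit 14))
    (@En.n l564 (nat_lit 13153) (nat_lit 8) (nat_lit 14))
    (@En.n l7 (nat_lit 13951) (nat_lit 2) (nat_lit 2))
    (@En.n l28 (nat_lit 13950) (nat_lit 3) (nat_lit 4))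
    (@En.i (nat_lit 14063) (nat_lit 5) (nat_lit 14))
    (@En.n l13 (nat_lit 14055) (nat_lit 12) (nat_lit 7))
    (@En.i (nat_lit 13817) (nat_lit 13) (nat_lit 7))
    (@En.i (nat_lit 13710) (nat_lit 8) (nat_lit 12))
    (@En.n l107 (nat_lit 13951) (nat_lit 8) (nat_lit 2))
    (@En.n l3 (nat_lit 13951) (nat_lit 9) (nat_lit 2))
    (@En.n l97 (nat_lit 13951) (nat_lit 11) (nat_lit 14))
    (@En.i (nat_lit 13423) (nat_lit 12) (nat_lit 14))
    (@En.i (nat_lit 14105) (nat_lit 13) (nat_lit 9))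
    (@En.i (nat_lit 12937) (nat_lit 3) (nat_lit 9))
    (@En.n l17 (nat_lit 13951) (nat_lit 14) (nat_lit 2))
    (@En.n l18 (nat_lit 13951) (nat_lit 15) (nat_lit 2))))
noncomputable def a872 : T16 Cl := @T16.mk Cl
  (@Cl.mk (nat_lit 0x2000200070007000e000e00020002000e000c0002000900090004000e000e) (nat_lit 0x45007404609a) (nat_lit 16) Lb.e (@T16.mk En
    (@En.n l5 (nat_lit 13952) (nat_lit 1) (nat_lit 14))
    (@En.i (nat_lit 13233) (nat_lit 8) (nat_lit 14))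
    (@En.i (nat_lit 13943) (nat_lit 2) (nat_lit 4))
    (@En.n l1374 (nat_lit 14056) (nat_lit 3) (nat_lit 9))
    (@En.n l175 (nat_lit 13947) (nat_lit 11) (nat_lit 9))
    (@En.n l28 (nat_lit 13952) (nat_lit 5) (nat_lit 2))
    (@En.n l77 (nat_lit 13950) (nat_lit 7) (nat_lit 12))
    (@En.n l521 (nat_lit 13748) (nat_lit 8) (nat_lit 14))
    (@En.n l107 (nat_lit 13952) (nat_lit 8) (nat_lit 2))
    (@En.n l3 (nat_lit 13952) (nat_lit 9) (nat_lit 2))
    (@En.n l97 (nat_lit 13952) (nat_lit 11) (nat_lit 14))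
    (@En.i (nat_lit 14029) (nat_lit 12) (nat_lit 14))
    (@En.n l27 (nat_lit 14103) (nat_lit 13) (nat_lit 7))
    (@En.n l521 (nat_lit 13114) (nat_lit 3) (nat_lit 7))
    (@En.n l17 (nat_lit 13952) (nat_lit 14) (nat_lit 2))
    (@En.n l18 (nat_lit 13952) (nat_lit 15) (nat_lit 2))))
  (@Cl.mk (nat_lit 0x20002000d000d000800030003000e000e00020002000e00080002000e000e) (nat_lit 0x2a400670024067) (nat_lit 16) Lb.e (@T16.mk En
    (@En.n l97 (nat_lit 13953) (nat_lit 1) (nat_lit 14))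
    (@En.i (nat_lit 13037) (nat_lit 11) (nat_lit 14))
    (@En.n l12 (nat_lit 13953) (nat_lit 2) (nat_lit 2))
    (@En.i (nat_lit 13950) (nat_lit 13) (nat_lit 8))
    (@En.n l12 (nat_lit 13024) (nat_lit 5) (nat_lit 14))
    (@En.n l17 (nat_lit 13953) (nat_lit 5) (nat_lit 2))
    (@En.n l18 (nat_lit 13953) (nat_lit 6) (nat_lit 2))
    (@En.n l5 (nat_lit 13953) (nat_lit 8) (nat_lit 14))
    (@En.n l4613 (nat_lit 13208) (nat_lit 9) (nat_lit 14))
    (@En.n l911 (nat_lit 14056) (nat_lit 2) (nat_lit 3))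
    (@En.i (nat_lit 14055) (nat_lit 10) (nat_lit 3))
    (@En.n l4614 (nat_lit 13824) (nat_lit 4) (nat_lit 8))
    (@En.n l134 (nat_lit 14055) (nat_lit 13) (nat_lit 13))
    (@En.n l4615 (nat_lit 14053) (nat_lit 7) (nat_lit 13))
    (@En.n l107 (nat_lit 13953) (nat_lit 14) (nat_lit 2))
    (@En.n l3 (nat_lit 13953) (nat_lit 15) (nat_lit 2))))
  (@Cl.mk (nat_lit 0x20002000a0007000d000b000900030006000e0005000200090007000e000e) (nat_lit 0x10a66002004089) (nat_lit 16) Lb.e (@T16.mk En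
    (@En.n l97 (nat_lit 13954) (nat_lit 1) (nat_lit 14))
    (@En.n l4395 (nat_lit 7196) (nat_lit 13) (nat_lit 14))
    (@En.n l4396 (nat_lit 12969) (nat_lit 2) (nat_lit 7))
    (@En.n l4397 (nat_lit 13893) (nat_lit 3) (nat_lit 9))
    (@En.n l17 (nat_lit 13954) (nat_lit 4) (nat_lit 2))
    (@En.n l4398 (nat_lit 13328) (nat_lit 5) (nat_lit 5))
    (@En.n l4395 (nat_lit 13006) (nat_lit 7) (nat_lit 14))
    (@En.n l4399 (nat_lit 13959) (nat_lit 7) (nat_lit 6))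
    (@En.n l7 (nat_lit 13956) (nat_lit 8) (nat_lit 3))
    (@En.n l4396 (nat_lit 13096) (nat_lit 10) (nat_lit 9))
    (@En.n l4400 (nat_lit 13865) (nat_lit 11) (nat_lit 11))
    (@En.n l4401 (nat_lit 13841) (nat_lit 12) (nat_lit 13))
    (@En.n l4402 (nat_lit 13839) (nat_lit 13) (nat_lit 7))
    (@En.n l998 (nat_lit 5211) (nat_lit 14) (nat_lit 10))
    (@En.n l107 (nat_lit 13954) (nat_lit 14) (nat_lit 2))
    (@En.n l3 (nat_lit 13954) (nat_lit 15) (nat_lit 2))))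
  (@Cl.mk (nat_lit 0x20002000a000d0007000b0003000b0006000e0005000200050009000e000e) (nat_lit 0x18040805000156) (nat_lit 16) Lb.e (@T16.mk En
    (@En.n l1578 (nat_lit 13955) (nat_lit 1) (nat_lit 14))
    (@En.i (nat_lit 7367) (nat_lit 13) (nat_lit 14))
    (@En.n l6647 (nat_lit 13130) (nat_lit 2) (nat_lit 9))
    (@En.n l3106 (nat_lit 13774) (nat_lit 3) (nat_lit 5))
    (@En.n l17 (nat_lit 13955) (nat_lit 4) (nat_lit 2))
    (@En.n l3098 (nat_lit 13333) (nat_lit 5) (nat_lit 5))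
    (@En.n l3 (nat_lit 13957) (nat_lit 7) (nat_lit 14))
    (@En.n l19554 (nat_lit 13956) (nat_lit 7) (nat_lit 6))
    (@En.n l16483 (nat_lit 13282) (nat_lit 9) (nat_lit 11))
    (@En.n l11820 (nat_lit 13841) (nat_lit 9) (nat_lit 3))
    (@En.n l11723 (nat_lit 13873) (nat_lit 11) (nat_lit 11))
    (@En.n l6646 (nat_lit 13840) (nat_lit 12) (nat_lit 7))
    (@En.n l6647 (nat_lit 13569) (nat_lit 13) (nat_lit 13))
    (@En.i (nat_lit 5209) (nat_lit 9) (nat_lit 10))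
    (@En.n l28 (nat_lit 13955) (nat_lit 14) (nat_lit 2))
    (@En.n l11 (nat_lit 13955) (nat_lit 15) (nat_lit 2))))
  (@Cl.mk (nat_lit 0x20002000a0007000d0008000c00030006000e0004000200090008000e000e) (nat_lit 0x10965004004156) (nat_lit 16) Lb.e (@T16.mk En
    (@En.n l97 (nat_lit 13956) (nat_lit 1) (nat_lit 14))
    (@En.n l4395 (nat_lit 7199) (nat_lit 13) (nat_lit 14))
    (@En.n l55 (nat_lit 13129) (nat_lit 2) (nat_lit 8))
    (@En.n l11784 (nat_lit 13894) (nat_lit 3) (nat_lit 9))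
    (@En.n l17 (nat_lit 13956) (nat_lit 4) (nat_lit 2))
    (@En.n l11785 (nat_lit 13140) (nat_lit 5) (nat_lit 4))
    (@En.n l4395 (nat_lit 13004) (nat_lit 7) (nat_lit 14))
    (@En.n l4172 (nat_lit 12957) (nat_lit 7) (nat_lit 6))
    (@En.i (nat_lit 13954) (nat_lit 8) (nat_lit 3))
    (@En.n l11786 (nat_lit 13871) (nat_lit 10) (nat_lit 12))
    (@En.n l11787 (nat_lit 13958) (nat_lit 11) (nat_lit 8))
    (@En.n l11788 (nat_lit 13955) (nat_lit 12) (nat_lit 13))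
    (@En.n l4402 (nat_lit 13957) (nat_lit 13) (nat_lit 7))
    (@En.n l998 (nat_lit 5213) (nat_lit 14) (nat_lit 10))
    (@En.n l107 (nat_lit 13956) (nat_lit 14) (nat_lit 2))
    (@En.n l3 (nat_lit 13956) (nat_lit 15) (nat_lit 2))))
  (@Cl.mk (nat_lit 0x200020007000d0007000c0003000b000e00040002000900050009000e000e) (nat_lit 0xa04074007029a) (nat_lit 16) Lb.e (@T16.mk En
    (@En.n l1578 (nat_lit 13957) (nat_lit 1) (nat_lit 14))
    (@En.i (nat_lit 7500) (nat_lit 12) (nat_lit 14))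
    (@En.n l781 (nat_lit 13743) (nat_lit 2) (nat_lit 9))
    (@En.i (nat_lit 13955) (nat_lit 3) (nat_lit 5))
    (@En.n l2125 (nat_lit 13791) (nat_lit 4) (nat_lit 9))
    (@En.n l17 (nat_lit 13957) (nat_lit 5) (nat_lit 2))
    (@En.n l3098 (nat_lit 13334) (nat_lit 6) (nat_lit 4))
    (@En.i (nat_lit 13010) (nat_lit 8) (nat_lit 14))
    (@En.n l253 (nat_lit 13283) (nat_lit 9) (nat_lit 11))
    (@En.i (nat_lit 13839) (nat_lit 9) (nat_lit 3))
    (@En.i (nat_lit 13875) (nat_lit 11) (nat_lit 12))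
    (@En.n l7471 (nat_lit 13838) (nat_lit 12) (nat_lit 7))
    (@En.n l2544 (nat_lit 13567) (nat_lit 13) (nat_lit 13))
    (@En.i (nat_lit 7880) (nat_lit 14) (nat_lit 7))
    (@En.n l28 (nat_lit 13957) (nat_lit 14) (nat_lit 2))
    (@En.n l11 (nat_lit 13957) (nat_lit 15) (nat_lit 2))))
  (@Cl.mk (nat_lit 0x20002000b00080008000c00090005000e00040002000800080007000e000e) (nat_lit 0x32567080046078) (nat_lit 16) Lb.e (@T16.mk En
    (@En.n l97 (nat_lit 13958) (nat_lit 1) (nat_lit 14))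
    (@En.i (nat_lit 4486) (nat_lit 12) (nat_lit 14))
    (@En.n l2289 (nat_lit 13954) (nat_lit 2) (nat_lit 7))
    (@En.n l12623 (nat_lit 13959) (nat_lit 3) (nat_lit 8))
    (@En.n l12624 (nat_lit 14013) (nat_lit 4) (nat_lit 8))
    (@En.n l50 (nat_lit 13958) (nat_lit 5) (nat_lit 2))
    (@En.n l12625 (nat_lit 13335) (nat_lit 6) (nat_lit 4))
    (@En.n l8515 (nat_lit 12786) (nat_lit 8) (nat_lit 14))
    (@En.n l28 (nat_lit 13415) (nat_lit 8) (nat_lit 5))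
    (@En.i (nat_lit 13094) (nat_lit 10) (nat_lit 9))
    (@En.n l7406 (nat_lit 13969) (nat_lit 11) (nat_lit 12))
    (@En.n l61 (nat_lit 13968) (nat_lit 12) (nat_lit 8))
    (@En.n l8516 (nat_lit 13838) (nat_lit 13) (nat_lit 8))
    (@En.i (nat_lit 4839) (nat_lit 8) (nat_lit 11))
    (@En.n l107 (nat_lit 13958) (nat_lit 14) (nat_lit 2))
    (@En.n l3 (nat_lit 13958) (nat_lit 15) (nat_lit 2))))
  (@Cl.mk (nat_lit 0x20002000a000e00080002000c000a0006000e0004000200080006000e000e) (nat_lit 0x33305708005012) (nat_lit 16) Lb.e (@T16.mk En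
    (@En.n l5 (nat_lit 13959) (nat_lit 1) (nat_lit 14))
    (@En.n l11795 (nat_lit 4478) (nat_lit 13) (nat_lit 14))
    (@En.n l11796 (nat_lit 13128) (nat_lit 2) (nat_lit 6))
    (@En.n l11797 (nat_lit 14017) (nat_lit 3) (nat_lit 8))
    (@En.n l11 (nat_lit 13959) (nat_lit 4) (nat_lit 2))
    (@En.n l575 (nat_lit 13960) (nat_lit 5) (nat_lit 4))
    (@En.n l11796 (nat_lit 12862) (nat_lit 7) (nat_lit 14))
    (@En.n l11795 (nat_lit 13416) (nat_lit 7) (nat_lit 6))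
    (@En.n l11798 (nat_lit 13088) (nat_lit 9) (nat_lit 10))
    (@En.n l4898 (nat_lit 13971) (nat_lit 10) (nat_lit 12))
    (@En.n l3 (nat_lit 13959) (nat_lit 10) (nat_lit 2))
    (@En.n l11799 (nat_lit 13958) (nat_lit 12) (nat_lit 8))
    (@En.n l11800 (nat_lit 13002) (nat_lit 13) (nat_lit 14))
    (@En.n l11801 (nat_lit 4832) (nat_lit 9) (nat_lit 10))
    (@En.n l17 (nat_lit 13959) (nat_lit 14) (nat_lit 2))
    (@En.n l18 (nat_lit 13959) (nat_lit 15) (nat_lit 2))))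
  (@Cl.mk (nat_lit 0x200020009000e00080002000c000c000b00070004000400080005000e000e) (nat_lit 0x23405680004056) (nat_lit 16) Lb.e (@T16.mk En
    (@En.n l5 (nat_lit 13960) (nat_lit 1) (nat_lit 14))
    (@En.n l4516 (nat_lit 4479) (nat_lit 1) (nat_lit 14))
    (@En.n l7 (nat_lit 12966) (nat_lit 2) (nat_lit 5))
    (@En.n l2032 (nat_lit 13307) (nat_lit 3) (nat_lit 8))
    (@En.n l575 (nat_lit 14066) (nat_lit 4) (nat_lit 4))
    (@En.i (nat_lit 13961) (nat_lit 5) (nat_lit 4))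
    (@En.n l4896 (nat_lit 13414) (nat_lit 6) (nat_lit 7))
    (@En.n l1578 (nat_lit 13642) (nat_lit 8) (nat_lit 11))
    (@En.i (nat_lit 13959) (nat_lit 9) (nat_lit 12))
    (@En.i (nat_lit 13547) (nat_lit 10) (nat_lit 12))
    (@En.n l3 (nat_lit 13960) (nat_lit 10) (nat_lit 2))
    (@En.i (nat_lit 13335) (nat_lit 12) (nat_lit 8))
    (@En.n l4495 (nat_lit 12851) (nat_lit 13) (nat_lit 14))
    (@En.i (nat_lit 4838) (nat_lit 14) (nat_lit 9))
    (@En.n l17 (nat_lit 13960) (nat_lit 14) (nat_lit 2))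
    (@En.n l18 (nat_lit 13960) (nat_lit 15) (nat_lit 2))))
  (@Cl.mk (nat_lit 0x20002000b000e00080002000c0005000d000c0004000300080004000e000e) (nat_lit 0x523060760040bc) (nat_lit 16) Lb.e (@T16.mk En
    (@En.n l5 (nat_lit 13961) (nat_lit 1) (nat_lit 14))
    (@En.n l4516 (nat_lit 5582) (nat_lit 1) (nat_lit 14))
    (@En.n l4517 (nat_lit 13092) (nat_lit 2) (nat_lit 4))
    (@En.n l4518 (nat_lit 13303) (nat_lit 3) (nat_lit 8))
    (@En.n l4519 (nat_lit 13963) (nat_lit 4) (nat_lit 3))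
    (@En.n l2678 (nat_lit 13959) (nat_lit 5) (nat_lit 4))
    (@En.n l4520 (nat_lit 13644) (nat_lit 7) (nat_lit 12))
    (@En.n l4517 (nat_lit 12788) (nat_lit 8) (nat_lit 13))
    (@En.i (nat_lit 13964) (nat_lit 8) (nat_lit 5))
    (@En.n l4521 (nat_lit 13967) (nat_lit 10) (nat_lit 12))
    (@En.n l3 (nat_lit 13961) (nat_lit 10) (nat_lit 2))
    (@En.n l4522 (nat_lit 13962) (nat_lit 12) (nat_lit 8))
    (@En.n l4523 (nat_lit 12860) (nat_lit 13) (nat_lit 14))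
    (@En.n l4524 (nat_lit 5344) (nat_lit 2) (nat_lit 11))
    (@En.n l17 (nat_lit 13961) (nat_lit 14) (nat_lit 2))
    (@En.n l18 (nat_lit 13961) (nat_lit 15) (nat_lit 2))))
  (@Cl.mk (nat_lit 0x20002000c00080008000c0004000d000b00040003000800080005000e000e) (nat_lit 0x52540550055012) (nat_lit 16) Lb.e (@T16.mk En
    (@En.n l5 (nat_lit 13962) (nat_lit 1) (nat_lit 14))
    (@En.n l515 (nat_lit 2960) (nat_lit 1) (nat_lit 14))
    (@En.n l4386 (nat_lit 13868) (nat_lit 2) (nat_lit 5))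
    (@En.n l5091 (nat_lit 13961) (nat_lit 3) (nat_lit 8))
    (@En.n l1834 (nat_lit 14012) (nat_lit 4) (nat_lit 8))
    (@En.n l28 (nat_lit 13966) (nat_lit 5) (nat_lit 3))
    (@En.n l515 (nat_lit 13958) (nat_lit 6) (nat_lit 4))
    (@En.n l4386 (nat_lit 13982) (nat_lit 8) (nat_lit 11))
    (@En.n l1601 (nat_lit 12784) (nat_lit 9) (nat_lit 13))
    (@En.n l5092 (nat_lit 12875) (nat_lit 9) (nat_lit 4))
    (@En.n l5093 (nat_lit 13895) (nat_lit 11) (nat_lit 12))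
    (@En.n l1668 (nat_lit 13937) (nat_lit 12) (nat_lit 8))
    (@En.n l5094 (nat_lit 13883) (nat_lit 13) (nat_lit 8))
    (@En.n l517 (nat_lit 5115) (nat_lit 14) (nat_lit 12))
    (@En.n l17 (nat_lit 13962) (nat_lit 14) (nat_lit 2))
    (@En.n l18 (nat_lit 13962) (nat_lit 15) (nat_lit 2))))
  (@Cl.mk (nat_lit 0x20002000b000e00080002000d0005000d0003000d000300080003000e000e) (nat_lit 0x22407080504012) (nat_lit 16) Lb.e (@T16.mk En
    (@En.n l97 (nat_lit 13963) (nat_lit 1) (nat_lit 14))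
    (@En.n l2426 (nat_lit 5580) (nat_lit 1) (nat_lit 14))
    (@En.n l11711 (nat_lit 13644) (nat_lit 2) (nat_lit 3))
    (@En.n l11712 (nat_lit 13301) (nat_lit 3) (nat_lit 8))
    (@En.n l11713 (nat_lit 13961) (nat_lit 4) (nat_lit 3))
    (@En.i (nat_lit 14098) (nat_lit 6) (nat_lit 13))
    (@En.n l11714 (nat_lit 13645) (nat_lit 6) (nat_lit 3))
    (@En.n l11711 (nat_lit 12863) (nat_lit 8) (nat_lit 13))
    (@En.n l754 (nat_lit 13965) (nat_lit 8) (nat_lit 5))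
    (@En.i (nat_lit 13999) (nat_lit 10) (nat_lit 13))
    (@En.n l725 (nat_lit 13963) (nat_lit 10) (nat_lit 2))
    (@En.n l4823 (nat_lit 13966) (nat_lit 12) (nat_lit 8))
    (@En.n l11715 (nat_lit 12859) (nat_lit 13) (nat_lit 14))
    (@En.n l7243 (nat_lit 1927) (nat_lit 14) (nat_lit 11))
    (@En.n l107 (nat_lit 13963) (nat_lit 14) (nat_lit 2))
    (@En.n l3 (nat_lit 13963) (nat_lit 15) (nat_lit 2))))
  (@Cl.mk (nat_lit 0x20002000b0009000e000900020005000d000c0007000300070004000e000e) (nat_lit 0x13350078000067) (nat_lit 16) Lb.e (@T16.mk En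
    (@En.n l5 (nat_lit 13964) (nat_lit 1) (nat_lit 14))
    (@En.n l12038 (nat_lit 5578) (nat_lit 8) (nat_lit 14))
    (@En.n l12039 (nat_lit 13091) (nat_lit 2) (nat_lit 4))
    (@En.n l2032 (nat_lit 13302) (nat_lit 3) (nat_lit 7))
    (@En.n l12040 (nat_lit 13965) (nat_lit 4) (nat_lit 3))
    (@En.n l4896 (nat_lit 13392) (nat_lit 5) (nat_lit 7))
    (@En.n l11798 (nat_lit 13985) (nat_lit 7) (nat_lit 12))
    (@En.n l12039 (nat_lit 12864) (nat_lit 8) (nat_lit 13))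
    (@En.n l12041 (nat_lit 13874) (nat_lit 8) (nat_lit 5))
    (@En.n l3 (nat_lit 13964) (nat_lit 9) (nat_lit 2))
    (@En.n l12042 (nat_lit 12875) (nat_lit 11) (nat_lit 9))
    (@En.n l5117 (nat_lit 13961) (nat_lit 12) (nat_lit 14))
    (@En.i (nat_lit 13960) (nat_lit 13) (nat_lit 9))
    (@En.n l12043 (nat_lit 1919) (nat_lit 3) (nat_lit 11))
    (@En.n l17 (nat_lit 13964) (nat_lit 14) (nat_lit 2))
    (@En.n l18 (nat_lit 13964) (nat_lit 15) (nat_lit 2))))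
  (@Cl.mk (nat_lit 0x20002000b000a000e000900020005000d0006000d000300070003000e000e) (nat_lit 0x23350070a00067) (nat_lit 16) Lb.e (@T16.mk En
    (@En.n l97 (nat_lit 13965) (nat_lit 1) (nat_lit 14))
    (@En.n l2373 (nat_lit 5575) (nat_lit 8) (nat_lit 14))
    (@En.n l25419 (nat_lit 13985) (nat_lit 2) (nat_lit 3))
    (@En.n l11701 (nat_lit 13180) (nat_lit 3) (nat_lit 7))
    (@En.n l11700 (nat_lit 13964) (nat_lit 4) (nat_lit 3))
    (@En.i (nat_lit 13595) (nat_lit 6) (nat_lit 13))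
    (@En.n l25420 (nat_lit 13769) (nat_lit 6) (nat_lit 6))
    (@En.n l25419 (nat_lit 12865) (nat_lit 8) (nat_lit 13))
    (@En.n l4715 (nat_lit 13873) (nat_lit 8) (nat_lit 5))
    (@En.n l725 (nat_lit 13965) (nat_lit 9) (nat_lit 2))
    (@En.n l25421 (nat_lit 13996) (nat_lit 11) (nat_lit 9))
    (@En.i (nat_lit 13963) (nat_lit 12) (nat_lit 14))
    (@En.n l11701 (nat_lit 13645) (nat_lit 13) (nat_lit 10))
    (@En.n l25422 (nat_lit 1916) (nat_lit 3) (nat_lit 11))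
    (@En.n l107 (nat_lit 13965) (nat_lit 14) (nat_lit 2))
    (@En.n l3 (nat_lit 13965) (nat_lit 15) (nat_lit 2))))
  (@Cl.mk (nat_lit 0x20002000c00080008000d0004000d0003000c0003000800080004000e000e) (nat_lit 0x3346060a055012) (nat_lit 16) Lb.e (@T16.mk En
    (@En.n l5 (nat_lit 13966) (nat_lit 1) (nat_lit 14))
    (@En.n l4559 (nat_lit 2954) (nat_lit 1) (nat_lit 14))
    (@En.i (nat_lit 13864) (nat_lit 2) (nat_lit 4))
    (@En.n l13190 (nat_lit 13963) (nat_lit 3) (nat_lit 8))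
    (@En.i (nat_lit 13305) (nat_lit 4) (nat_lit 8))
    (@En.i (nat_lit 13962) (nat_lit 5) (nat_lit 3))
    (@En.n l12607 (nat_lit 13852) (nat_lit 7) (nat_lit 12))
    (@En.n l4935 (nat_lit 13869) (nat_lit 7) (nat_lit 3))
    (@En.n l5005 (nat_lit 12785) (nat_lit 9) (nat_lit 13))
    (@En.n l117 (nat_lit 13996) (nat_lit 9) (nat_lit 4))
    (@En.n l4559 (nat_lit 14003) (nat_lit 11) (nat_lit 13))
    (@En.i (nat_lit 13934) (nat_lit 12) (nat_lit 8))
    (@En.n l8929 (nat_lit 13882) (nat_lit 13) (nat_lit 8))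
    (@En.i (nat_lit 5110) (nat_lit 14) (nat_lit 12))
    (@En.n l17 (nat_lit 13966) (nat_lit 14) (nat_lit 2))
    (@En.n l18 (nat_lit 13966) (nat_lit 15) (nat_lit 2))))
  (@Cl.mk (nat_lit 0x20002000c00090008000c0004000c000b00040007000400080005000e000e) (nat_lit 0x13350870005067) (nat_lit 16) Lb.e (@T16.mk En
    (@En.n l97 (nat_lit 13967) (nat_lit 1) (nat_lit 14))
    (@En.i (nat_lit 7111) (nat_lit 1) (nat_lit 14))
    (@En.n l12044 (nat_lit 13093) (nat_lit 2) (nat_lit 5))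
    (@En.n l12045 (nat_lit 13869) (nat_lit 3) (nat_lit 8))
    (@En.i (nat_lit 13997) (nat_lit 4) (nat_lit 4))
    (@En.n l11700 (nat_lit 13964) (nat_lit 5) (nat_lit 7))
    (@En.n l12046 (nat_lit 13971) (nat_lit 6) (nat_lit 4))
    (@En.n l217 (nat_lit 13984) (nat_lit 8) (nat_lit 11))
    (@En.n l12044 (nat_lit 12870) (nat_lit 9) (nat_lit 12))
    (@En.n l4714 (nat_lit 13488) (nat_lit 9) (nat_lit 4))
    (@En.n l617 (nat_lit 13896) (nat_lit 11) (nat_lit 12))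
    (@En.n l12047 (nat_lit 13895) (nat_lit 12) (nat_lit 8))
    (@En.n l11700 (nat_lit 13328) (nat_lit 13) (nat_lit 9))
    (@En.n l12048 (nat_lit 4457) (nat_lit 14) (nat_lit 12))
    (@En.n l107 (nat_lit 13967) (nat_lit 14) (nat_lit 2))
    (@En.n l3 (nat_lit 13967) (nat_lit 15) (nat_lit 2))))
noncomputable def a873 : T16 Cl := @T16.mk Cl
  (@Cl.mk (nat_lit 0x20002000c0008000c00080004000e00040002000e000800020008000e000e) (nat_lit 0x24460700b505bc) (nat_lit 16) Lb.e (@T16.mk En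
    (@En.n l97 (nat_lit 13968) (nat_lit 1) (nat_lit 14))
    (@En.i (nat_lit 5330) (nat_lit 1) (nat_lit 14))
    (@En.i (nat_lit 13840) (nat_lit 2) (nat_lit 8))
    (@En.n l17 (nat_lit 13968) (nat_lit 3) (nat_lit 2))
    (@En.i (nat_lit 13958) (nat_lit 4) (nat_lit 8))
    (@En.i (nat_lit 13616) (nat_lit 6) (nat_lit 14))
    (@En.n l50 (nat_lit 13968) (nat_lit 6) (nat_lit 2))
    (@En.n l28 (nat_lit 13939) (nat_lit 7) (nat_lit 4))
    (@En.n l601 (nat_lit 12781) (nat_lit 9) (nat_lit 14))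
    (@En.n l28 (nat_lit 13417) (nat_lit 9) (nat_lit 4))
    (@En.i (nat_lit 13215) (nat_lit 11) (nat_lit 8))
    (@En.i (nat_lit 12984) (nat_lit 12) (nat_lit 12))
    (@En.n l2650 (nat_lit 13832) (nat_lit 13) (nat_lit 8))
    (@En.i (nat_lit 5220) (nat_lit 10) (nat_lit 12))
    (@En.n l107 (nat_lit 13968) (nat_lit 14) (nat_lit 2))
    (@En.n l3 (nat_lit 13968) (nat_lit 15) (nat_lit 2))))
  (@Cl.mk (nat_lit 0x20002000c0008000c00080004000d0004000d0003000800030008000e000e) (nat_lit 0x22550709050278) (nat_lit 16) Lb.e (@T16.mk En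
    (@En.n l97 (nat_lit 13969) (nat_lit 1) (nat_lit 14))
    (@En.i (nat_lit 4569) (nat_lit 1) (nat_lit 14))
    (@En.i (nat_lit 13865) (nat_lit 2) (nat_lit 8))
    (@En.i (nat_lit 13970) (nat_lit 3) (nat_lit 3))
    (@En.n l387 (nat_lit 13939) (nat_lit 4) (nat_lit 8))
    (@En.i (nat_lit 13972) (nat_lit 5) (nat_lit 3))
    (@En.n l3713 (nat_lit 13149) (nat_lit 7) (nat_lit 13))
    (@En.i (nat_lit 13973) (nat_lit 7) (nat_lit 4))
    (@En.n l1776 (nat_lit 13784) (nat_lit 9) (nat_lit 13))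
    (@En.i (nat_lit 13161) (nat_lit 9) (nat_lit 4))
    (@En.i (nat_lit 13892) (nat_lit 11) (nat_lit 8))
    (@En.n l6904 (nat_lit 12983) (nat_lit 12) (nat_lit 12))
    (@En.n l1316 (nat_lit 13979) (nat_lit 13) (nat_lit 8))
    (@En.i (nat_lit 4448) (nat_lit 14) (nat_lit 12))
    (@En.n l107 (nat_lit 13969) (nat_lit 14) (nat_lit 2))
    (@En.n l3 (nat_lit 13969) (nat_lit 15) (nat_lit 2))))
  (@Cl.mk (nat_lit 0x20002000c0009000c00080004000c0004000d0007000400030008000e000e) (nat_lit 0x14340709000178) (nat_lit 16) Lb.e (@T16.mk En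
    (@En.n l97 (nat_lit 13970) (nat_lit 1) (nat_lit 14))
    (@En.i (nat_lit 4573) (nat_lit 1) (nat_lit 14))
    (@En.n l11698 (nat_lit 13139) (nat_lit 2) (nat_lit 8))
    (@En.n l18 (nat_lit 13969) (nat_lit 3) (nat_lit 3))
    (@En.n l4497 (nat_lit 13364) (nat_lit 4) (nat_lit 4))
    (@En.n l61 (nat_lit 13971) (nat_lit 5) (nat_lit 7))
    (@En.n l1407 (nat_lit 13148) (nat_lit 7) (nat_lit 13))
    (@En.n l4811 (nat_lit 13975) (nat_lit 7) (nat_lit 4))
    (@En.n l14183 (nat_lit 13791) (nat_lit 9) (nat_lit 12))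
    (@En.i (nat_lit 13164) (nat_lit 9) (nat_lit 4))
    (@En.n l4811 (nat_lit 13890) (nat_lit 11) (nat_lit 8))
    (@En.n l11698 (nat_lit 12987) (nat_lit 12) (nat_lit 12))
    (@En.n l4861 (nat_lit 13333) (nat_lit 13) (nat_lit 9))
    (@En.n l11698 (nat_lit 2851) (nat_lit 14) (nat_lit 12))
    (@En.n l107 (nat_lit 13970) (nat_lit 14) (nat_lit 2))
    (@En.n l3 (nat_lit 13970) (nat_lit 15) (nat_lit 2))))
  (@Cl.mk (nat_lit 0x20002000b00090008000c00090005000d00040007000300080007000e000e) (nat_lit 0x13345090006067) (nat_lit 16) Lb.e (@T16.mk En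
    (@En.n l97 (nat_lit 13971) (nat_lit 1) (nat_lit 14))
    (@En.n l17 (nat_lit 4585) (nat_lit 1) (nat_lit 14))
    (@En.n l25496 (nat_lit 13138) (nat_lit 2) (nat_lit 7))
    (@En.n l25497 (nat_lit 13335) (nat_lit 3) (nat_lit 8))
    (@En.n l12715 (nat_lit 13974) (nat_lit 4) (nat_lit 3))
    (@En.n l25496 (nat_lit 13705) (nat_lit 5) (nat_lit 7))
    (@En.n l25498 (nat_lit 13547) (nat_lit 6) (nat_lit 4))
    (@En.n l16553 (nat_lit 12873) (nat_lit 8) (nat_lit 13))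
    (@En.i (nat_lit 13165) (nat_lit 8) (nat_lit 5))
    (@En.n l25499 (nat_lit 12875) (nat_lit 10) (nat_lit 9))
    (@En.n l617 (nat_lit 13970) (nat_lit 11) (nat_lit 12))
    (@En.n l17 (nat_lit 13969) (nat_lit 12) (nat_lit 8))
    (@En.n l12708 (nat_lit 13140) (nat_lit 13) (nat_lit 9))
    (@En.i (nat_lit 2847) (nat_lit 14) (nat_lit 11))
    (@En.n l107 (nat_lit 13971) (nat_lit 14) (nat_lit 2))
    (@En.n l3 (nat_lit 13971) (nat_lit 15) (nat_lit 2))))
  (@Cl.mk (nat_lit 0x20002000c0008000b00080004000d000c00050003000800040008000e000e) (nat_lit 0x12440780050478) (nat_lit 16) Lb.e (@T16.mk En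
    (@En.n l97 (nat_lit 13972) (nat_lit 1) (nat_lit 14))
    (@En.i (nat_lit 4571) (nat_lit 1) (nat_lit 14))
    (@En.n l11805 (nat_lit 13862) (nat_lit 2) (nat_lit 8))
    (@En.n l4497 (nat_lit 13574) (nat_lit 3) (nat_lit 4))
    (@En.n l612 (nat_lit 13973) (nat_lit 4) (nat_lit 8))
    (@En.n l50 (nat_lit 13969) (nat_lit 5) (nat_lit 3))
    (@En.n l5421 (nat_lit 13552) (nat_lit 6) (nat_lit 5))
    (@En.n l217 (nat_lit 13970) (nat_lit 8) (nat_lit 12))
    (@En.n l1776 (nat_lit 13783) (nat_lit 9) (nat_lit 13))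
    (@En.i (nat_lit 13163) (nat_lit 9) (nat_lit 4))
    (@En.n l12571 (nat_lit 13891) (nat_lit 11) (nat_lit 8))
    (@En.n l6904 (nat_lit 13147) (nat_lit 12) (nat_lit 11))
    (@En.n l4133 (nat_lit 13980) (nat_lit 13) (nat_lit 8))
    (@En.i (nat_lit 2849) (nat_lit 14) (nat_lit 12))
    (@En.n l107 (nat_lit 13972) (nat_lit 14) (nat_lit 2))
    (@En.n l3 (nat_lit 13972) (nat_lit 15) (nat_lit 2))))
  (@Cl.mk (nat_lit 0x20002000b0008000c000b000900050004000d0005000800030007000e000e) (nat_lit 0x1235600a040067) (nat_lit 16) Lb.e (@T16.mk En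
    (@En.n l97 (nat_lit 13973) (nat_lit 1) (nat_lit 14))
    (@En.i (nat_lit 4583) (nat_lit 1) (nat_lit 14))
    (@En.n l11807 (nat_lit 13861) (nat_lit 2) (nat_lit 7))
    (@En.n l4811 (nat_lit 13975) (nat_lit 3) (nat_lit 3))
    (@En.n l386 (nat_lit 14018) (nat_lit 4) (nat_lit 8))
    (@En.n l11851 (nat_lit 13546) (nat_lit 5) (nat_lit 5))
    (@En.n l564 (nat_lit 13971) (nat_lit 7) (nat_lit 13))
    (@En.n l7 (nat_lit 13895) (nat_lit 7) (nat_lit 4))
    (@En.i (nat_lit 13162) (nat_lit 8) (nat_lit 5))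
    (@En.n l11852 (nat_lit 13991) (nat_lit 10) (nat_lit 9))
    (@En.n l644 (nat_lit 13972) (nat_lit 11) (nat_lit 11))
    (@En.n l617 (nat_lit 12978) (nat_lit 12) (nat_lit 12))
    (@En.n l386 (nat_lit 13981) (nat_lit 13) (nat_lit 8))
    (@En.i (nat_lit 2845) (nat_lit 14) (nat_lit 11))
    (@En.n l107 (nat_lit 13973) (nat_lit 14) (nat_lit 2))
    (@En.n l3 (nat_lit 13973) (nat_lit 15) (nat_lit 2))))
  (@Cl.mk (nat_lit 0x20002000b000a0008000b00090005000d00060005000300080007000e000e) (nat_lit 0x14345080006067) (nat_lit 16) Lb.e (@T16.mk En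
    (@En.n l5 (nat_lit 13974) (nat_lit 1) (nat_lit 14))
    (@En.n l420 (nat_lit 4584) (nat_lit 1) (nat_lit 14))
    (@En.n l25761 (nat_lit 13633) (nat_lit 2) (nat_lit 7))
    (@En.n l7866 (nat_lit 13547) (nat_lit 3) (nat_lit 8))
    (@En.n l19888 (nat_lit 13971) (nat_lit 4) (nat_lit 3))
    (@En.n l152 (nat_lit 13539) (nat_lit 5) (nat_lit 5))
    (@En.n l25762 (nat_lit 12999) (nat_lit 6) (nat_lit 6))
    (@En.i (nat_lit 12874) (nat_lit 8) (nat_lit 13))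
    (@En.n l25762 (nat_lit 13168) (nat_lit 8) (nat_lit 5))
    (@En.n l25763 (nat_lit 13996) (nat_lit 10) (nat_lit 9))
    (@En.i (nat_lit 13364) (nat_lit 11) (nat_lit 11))
    (@En.n l19890 (nat_lit 13972) (nat_lit 12) (nat_lit 8))
    (@En.n l25764 (nat_lit 13858) (nat_lit 13) (nat_lit 10))
    (@En.i (nat_lit 2839) (nat_lit 14) (nat_lit 11))
    (@En.n l17 (nat_lit 13974) (nat_lit 14) (nat_lit 2))
    (@En.n l18 (nat_lit 13974) (nat_lit 15) (nat_lit 2))))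
  (@Cl.mk (nat_lit 0x20002000b0009000c000a000900050004000d0007000600030007000e000e) (nat_lit 0x14346009000067) (nat_lit 16) Lb.e (@T16.mk En
    (@En.n l5 (nat_lit 13975) (nat_lit 1) (nat_lit 14))
    (@En.n l420 (nat_lit 4581) (nat_lit 1) (nat_lit 14))
    (@En.n l7840 (nat_lit 13217) (nat_lit 2) (nat_lit 7))
    (@En.n l12601 (nat_lit 13973) (nat_lit 3) (nat_lit 3))
    (@En.n l4849 (nat_lit 13540) (nat_lit 4) (nat_lit 6))
    (@En.n l12082 (nat_lit 13547) (nat_lit 5) (nat_lit 7))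
    (@En.n l12027 (nat_lit 13974) (nat_lit 7) (nat_lit 13))
    (@En.n l1554 (nat_lit 13896) (nat_lit 7) (nat_lit 4))
    (@En.n l11862 (nat_lit 13166) (nat_lit 8) (nat_lit 5))
    (@En.i (nat_lit 13989) (nat_lit 10) (nat_lit 9))
    (@En.n l12029 (nat_lit 13574) (nat_lit 11) (nat_lit 10))
    (@En.n l7840 (nat_lit 12981) (nat_lit 12) (nat_lit 12))
    (@En.n l12602 (nat_lit 13856) (nat_lit 13) (nat_lit 9))
    (@En.n l3866 (nat_lit 2843) (nat_lit 14) (nat_lit 11))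
    (@En.n l17 (nat_lit 13975) (nat_lit 14) (nat_lit 2))
    (@En.n l18 (nat_lit 13975) (nat_lit 15) (nat_lit 2))))
  (@Cl.mk (nat_lit 0x20002000c000b0007000a0004000d0005000d0003000600030009000e000e) (nat_lit 0x2406070a00079a) (nat_lit 16) Lb.e (@T16.mk En
    (@En.n l97 (nat_lit 13976) (nat_lit 1) (nat_lit 14))
    (@En.i (nat_lit 6987) (nat_lit 1) (nat_lit 14))
    (@En.i (nat_lit 14039) (nat_lit 2) (nat_lit 9))
    (@En.i (nat_lit 13977) (nat_lit 3) (nat_lit 3))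
    (@En.n l387 (nat_lit 13382) (nat_lit 4) (nat_lit 6))
    (@En.i (nat_lit 13978) (nat_lit 5) (nat_lit 3))
    (@En.i (nat_lit 13153) (nat_lit 7) (nat_lit 13))
    (@En.n l28 (nat_lit 13316) (nat_lit 7) (nat_lit 5))
    (@En.n l11835 (nat_lit 13979) (nat_lit 9) (nat_lit 13))
    (@En.n l28 (nat_lit 13969) (nat_lit 9) (nat_lit 4))
    (@En.i (nat_lit 13398) (nat_lit 11) (nat_lit 10))
    (@En.i (nat_lit 13889) (nat_lit 12) (nat_lit 7))
    (@En.n l77 (nat_lit 13162) (nat_lit 13) (nat_lit 11))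
    (@En.i (nat_lit 6827) (nat_lit 14) (nat_lit 12))
    (@En.n l107 (nat_lit 13976) (nat_lit 14) (nat_lit 2))
    (@En.n l3 (nat_lit 13976) (nat_lit 15) (nat_lit 2))))
  (@Cl.mk (nat_lit 0x20002000c000b0007000b0004000c0005000d0005000400030009000e000e) (nat_lit 0x2405060900079a) (nat_lit 16) Lb.e (@T16.mk En
    (@En.n l97 (nat_lit 13977) (nat_lit 1) (nat_lit 14))
    (@En.n l9962 (nat_lit 7377) (nat_lit 1) (nat_lit 14))
    (@En.n l4712 (nat_lit 13626) (nat_lit 2) (nat_lit 9))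
    (@En.n l18 (nat_lit 13976) (nat_lit 3) (nat_lit 3))
    (@En.n l12570 (nat_lit 13355) (nat_lit 4) (nat_lit 4))
    (@En.n l61 (nat_lit 14039) (nat_lit 5) (nat_lit 5))
    (@En.n l4315 (nat_lit 13151) (nat_lit 7) (nat_lit 13))
    (@En.n l1397 (nat_lit 13314) (nat_lit 7) (nat_lit 5))
    (@En.n l3540 (nat_lit 13334) (nat_lit 9) (nat_lit 12))
    (@En.n l28 (nat_lit 13970) (nat_lit 9) (nat_lit 4))
    (@En.n l1430 (nat_lit 14002) (nat_lit 11) (nat_lit 11))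
    (@En.n l1397 (nat_lit 13887) (nat_lit 12) (nat_lit 7))
    (@En.n l77 (nat_lit 13166) (nat_lit 13) (nat_lit 11))
    (@En.n l1430 (nat_lit 6829) (nat_lit 14) (nat_lit 12))
    (@En.n l107 (nat_lit 13977) (nat_lit 14) (nat_lit 2))
    (@En.n l3 (nat_lit 13977) (nat_lit 15) (nat_lit 2))))
  (@Cl.mk (nat_lit 0x20002000c000a0007000a0004000d000c00060003000600040009000e000e) (nat_lit 0x2506087000079a) (nat_lit 16) Lb.e (@T16.mk En
    (@En.n l97 (nat_lit 13978) (nat_lit 1) (nat_lit 14))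
    (@En.i (nat_lit 6992) (nat_lit 1) (nat_lit 14))
    (@En.n l4803 (nat_lit 14038) (nat_lit 2) (nat_lit 9))
    (@En.n l3939 (nat_lit 13357) (nat_lit 3) (nat_lit 4))
    (@En.n l612 (nat_lit 13321) (nat_lit 4) (nat_lit 6))
    (@En.n l50 (nat_lit 13976) (nat_lit 5) (nat_lit 3))
    (@En.n l28 (nat_lit 721) (nat_lit 6) (nat_lit 6))
    (@En.n l217 (nat_lit 13977) (nat_lit 8) (nat_lit 12))
    (@En.n l3939 (nat_lit 13980) (nat_lit 9) (nat_lit 13))
    (@En.n l28 (nat_lit 13972) (nat_lit 9) (nat_lit 4))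
    (@En.i (nat_lit 13399) (nat_lit 11) (nat_lit 10))
    (@En.n l1372 (nat_lit 13888) (nat_lit 12) (nat_lit 7))
    (@En.i (nat_lit 13499) (nat_lit 13) (nat_lit 10))
    (@En.i (nat_lit 6821) (nat_lit 14) (nat_lit 12))
    (@En.n l107 (nat_lit 13978) (nat_lit 14) (nat_lit 2))
    (@En.n l3 (nat_lit 13978) (nat_lit 15) (nat_lit 2))))
  (@Cl.mk (nat_lit 0x200020008000c0007000a000d0004000c00030008000600040009000e000e) (nat_lit 0x140660702007ab) (nat_lit 16) Lb.e (@T16.mk En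
    (@En.n l1578 (nat_lit 13979) (nat_lit 1) (nat_lit 14))
    (@En.i (nat_lit 6986) (nat_lit 1) (nat_lit 14))
    (@En.n l617 (nat_lit 14040) (nat_lit 2) (nat_lit 9))
    (@En.n l3480 (nat_lit 13334) (nat_lit 3) (nat_lit 4))
    (@En.n l15957 (nat_lit 13976) (nat_lit 4) (nat_lit 6))
    (@En.n l25520 (nat_lit 13829) (nat_lit 5) (nat_lit 8))
    (@En.n l6081 (nat_lit 13980) (nat_lit 6) (nat_lit 3))
    (@En.n l12558 (nat_lit 13285) (nat_lit 8) (nat_lit 12))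
    (@En.n l13633 (nat_lit 13981) (nat_lit 8) (nat_lit 4))
    (@En.i (nat_lit 13775) (nat_lit 10) (nat_lit 13))
    (@En.n l7507 (nat_lit 13400) (nat_lit 11) (nat_lit 10))
    (@En.n l7471 (nat_lit 13894) (nat_lit 12) (nat_lit 7))
    (@En.n l3328 (nat_lit 13163) (nat_lit 13) (nat_lit 12))
    (@En.i (nat_lit 7842) (nat_lit 14) (nat_lit 8))
    (@En.n l28 (nat_lit 13979) (nat_lit 14) (nat_lit 2))
    (@En.n l11 (nat_lit 13979) (nat_lit 15) (nat_lit 2))))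
  (@Cl.mk (nat_lit 0x200020008000b0007000a000d000b000500030008000600050009000e000e) (nat_lit 0x120476003007bc) (nat_lit 16) Lb.e (@T16.mk En
    (@En.n l601 (nat_lit 13980) (nat_lit 1) (nat_lit 14))
    (@En.i (nat_lit 6993) (nat_lit 1) (nat_lit 14))
    (@En.n l11863 (nat_lit 14037) (nat_lit 2) (nat_lit 9))
    (@En.i (nat_lit 14036) (nat_lit 3) (nat_lit 5))
    (@En.n l11864 (nat_lit 13978) (nat_lit 4) (nat_lit 6))
    (@En.n l4819 (nat_lit 13981) (nat_lit 5) (nat_lit 8))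
    (@En.n l3536 (nat_lit 13979) (nat_lit 6) (nat_lit 3))
    (@En.n l11865 (nat_lit 12879) (nat_lit 7) (nat_lit 5))
    (@En.n l68 (nat_lit 13333) (nat_lit 9) (nat_lit 11))
    (@En.n l3866 (nat_lit 13773) (nat_lit 10) (nat_lit 13))
    (@En.n l264 (nat_lit 13401) (nat_lit 11) (nat_lit 10))
    (@En.n l11866 (nat_lit 13893) (nat_lit 12) (nat_lit 7))
    (@En.n l2299 (nat_lit 13563) (nat_lit 13) (nat_lit 11))
    (@En.i (nat_lit 7839) (nat_lit 14) (nat_lit 8))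
    (@En.n l50 (nat_lit 13980) (nat_lit 14) (nat_lit 2))
    (@En.n l7 (nat_lit 13980) (nat_lit 15) (nat_lit 2))))
  (@Cl.mk (nat_lit 0x200020008000c000b0008000b0004000c00050008000500040008000e000e) (nat_lit 0x13357070200667) (nat_lit 16) Lb.e (@T16.mk En
    (@En.n l396 (nat_lit 13981) (nat_lit 1) (nat_lit 14))
    (@En.i (nat_lit 7280) (nat_lit 1) (nat_lit 14))
    (@En.n l4425 (nat_lit 14035) (nat_lit 2) (nat_lit 8))
    (@En.n l28 (nat_lit 14034) (nat_lit 3) (nat_lit 4))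
    (@En.n l502 (nat_lit 13316) (nat_lit 4) (nat_lit 5))
    (@En.i (nat_lit 13835) (nat_lit 5) (nat_lit 8))
    (@En.n l699 (nat_lit 12880) (nat_lit 6) (nat_lit 5))
    (@En.n l4426 (nat_lit 13140) (nat_lit 8) (nat_lit 12))
    (@En.n l4427 (nat_lit 13491) (nat_lit 8) (nat_lit 4))
    (@En.n l387 (nat_lit 13402) (nat_lit 10) (nat_lit 11))
    (@En.n l699 (nat_lit 14017) (nat_lit 11) (nat_lit 8))
    (@En.n l4428 (nat_lit 13980) (nat_lit 12) (nat_lit 11))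
    (@En.n l4429 (nat_lit 13978) (nat_lit 13) (nat_lit 12))
    (@En.i (nat_lit 7838) (nat_lit 14) (nat_lit 8))
    (@En.n l18 (nat_lit 13981) (nat_lit 14) (nat_lit 2))
    (@En.n l50 (nat_lit 13981) (nat_lit 15) (nat_lit 2))))
  (@Cl.mk (nat_lit 0x20002000c00090009000d0004000b0003000c0007000700050004000e000e) (nat_lit 0x23450408000023) (nat_lit 16) Lb.e (@T16.mk En
    (@En.n l5 (nat_lit 13982) (nat_lit 1) (nat_lit 14))
    (@En.n l12971 (nat_lit 6268) (nat_lit 1) (nat_lit 14))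
    (@En.n l181 (nat_lit 13966) (nat_lit 2) (nat_lit 4))
    (@En.i (nat_lit 13870) (nat_lit 3) (nat_lit 5))
    (@En.n l187 (nat_lit 13644) (nat_lit 4) (nat_lit 7))
    (@En.n l12971 (nat_lit 13623) (nat_lit 5) (nat_lit 7))
    (@En.n l12972 (nat_lit 13574) (nat_lit 7) (nat_lit 12))
    (@En.n l12973 (nat_lit 13643) (nat_lit 7) (nat_lit 3))
    (@En.n l3531 (nat_lit 13721) (nat_lit 9) (nat_lit 11))
    (@En.n l1992 (nat_lit 13983) (nat_lit 9) (nat_lit 4))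
    (@En.n l12974 (nat_lit 13990) (nat_lit 11) (nat_lit 13))
    (@En.i (nat_lit 13933) (nat_lit 12) (nat_lit 9))
    (@En.n l12975 (nat_lit 14014) (nat_lit 13) (nat_lit 9))
    (@En.i (nat_lit 5961) (nat_lit 14) (nat_lit 12))
    (@En.n l17 (nat_lit 13982) (nat_lit 14) (nat_lit 2))
    (@En.n l18 (nat_lit 13982) (nat_lit 15) (nat_lit 2))))
  (@Cl.mk (nat_lit 0x20002000c000b000a000a0004000b0005000c0006000600050004000e000e) (nat_lit 0x1345070a000023) (nat_lit 16) Lb.e (@T16.mk En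
    (@En.n l5 (nat_lit 13983) (nat_lit 1) (nat_lit 14))
    (@En.n l26453 (nat_lit 5935) (nat_lit 1) (nat_lit 14))
    (@En.n l25592 (nat_lit 13996) (nat_lit 2) (nat_lit 4))
    (@En.n l11918 (nat_lit 13984) (nat_lit 3) (nat_lit 5))
    (@En.n l5721 (nat_lit 13985) (nat_lit 4) (nat_lit 6))
    (@En.n l13320 (nat_lit 13636) (nat_lit 5) (nat_lit 6))
    (@En.n l11918 (nat_lit 13568) (nat_lit 7) (nat_lit 12))
    (@En.n l4976 (nat_lit 14044) (nat_lit 7) (nat_lit 5))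
    (@En.n l1898 (nat_lit 13725) (nat_lit 9) (nat_lit 11))
    (@En.n l152 (nat_lit 13197) (nat_lit 9) (nat_lit 4))
    (@En.n l26454 (nat_lit 13935) (nat_lit 11) (nat_lit 10))
    (@En.n l55 (nat_lit 13992) (nat_lit 12) (nat_lit 10))
    (@En.n l26455 (nat_lit 13643) (nat_lit 13) (nat_lit 11))
    (@En.n l637 (nat_lit 5962) (nat_lit 14) (nat_lit 12))
    (@En.n l17 (nat_lit 13983) (nat_lit 14) (nat_lit 2))
    (@En.n l18 (nat_lit 13983) (nat_lit 15) (nat_lit 2))))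
noncomputable def a874 : T16 Cl := @T16.mk Cl
  (@Cl.mk (nat_lit 0x20002000c000a0009000d0004000b00030006000d000700050003000e000e) (nat_lit 0x13460600200034) (nat_lit 16) Lb.e (@T16.mk En
    (@En.n l97 (nat_lit 13984) (nat_lit 1) (nat_lit 14))
    (@En.n l12527 (nat_lit 6082) (nat_lit 1) (nat_lit 14))
    (@En.n l18 (nat_lit 13999) (nat_lit 2) (nat_lit 3))
    (@En.n l11711 (nat_lit 13173) (nat_lit 3) (nat_lit 5))
    (@En.i (nat_lit 13637) (nat_lit 4) (nat_lit 7))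
    (@En.i (nat_lit 13164) (nat_lit 6) (nat_lit 13))
    (@En.n l25419 (nat_lit 13985) (nat_lit 6) (nat_lit 6))
    (@En.n l11907 (nat_lit 13986) (nat_lit 7) (nat_lit 3))
    (@En.n l11711 (nat_lit 13726) (nat_lit 9) (nat_lit 11))
    (@En.n l4712 (nat_lit 13192) (nat_lit 9) (nat_lit 4))
    (@En.n l11698 (nat_lit 13988) (nat_lit 11) (nat_lit 13))
    (@En.i (nat_lit 13990) (nat_lit 12) (nat_lit 9))
    (@En.n l11698 (nat_lit 13304) (nat_lit 13) (nat_lit 10))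
    (@En.n l5929 (nat_lit 5963) (nat_lit 14) (nat_lit 12))
    (@En.n l107 (nat_lit 13984) (nat_lit 14) (nat_lit 2))
    (@En.n l3 (nat_lit 13984) (nat_lit 15) (nat_lit 2))))
  (@Cl.mk (nat_lit 0x20002000b000a000e000a00020005000c0006000d000600040003000e000e) (nat_lit 0x13350070b00067) (nat_lit 16) Lb.e (@T16.mk En
    (@En.n l5 (nat_lit 13985) (nat_lit 1) (nat_lit 14))
    (@En.n l25696 (nat_lit 5934) (nat_lit 8) (nat_lit 14))
    (@En.n l17610 (nat_lit 13965) (nat_lit 2) (nat_lit 3))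
    (@En.i (nat_lit 13172) (nat_lit 3) (nat_lit 4))
    (@En.n l1327 (nat_lit 13633) (nat_lit 4) (nat_lit 6))
    (@En.n l5599 (nat_lit 14101) (nat_lit 6) (nat_lit 13))
    (@En.n l5931 (nat_lit 13770) (nat_lit 6) (nat_lit 6))
    (@En.i (nat_lit 13727) (nat_lit 8) (nat_lit 12))
    (@En.n l6050 (nat_lit 13188) (nat_lit 8) (nat_lit 5))
    (@En.n l107 (nat_lit 13985) (nat_lit 9) (nat_lit 2))
    (@En.n l1910 (nat_lit 13983) (nat_lit 11) (nat_lit 10))
    (@En.n l619 (nat_lit 13644) (nat_lit 12) (nat_lit 14))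
    (@En.n l1620 (nat_lit 13642) (nat_lit 13) (nat_lit 10))
    (@En.n l2568 (nat_lit 1917) (nat_lit 3) (nat_lit 11))
    (@En.n l17 (nat_lit 13985) (nat_lit 14) (nat_lit 2))
    (@En.n l18 (nat_lit 13985) (nat_lit 15) (nat_lit 2))))
  (@Cl.mk (nat_lit 0x20002000b000a0009000d000a000500030006000d000700060003000e000e) (nat_lit 0x24466000b00067) (nat_lit 16) Lb.e (@T16.mk En
    (@En.n l5 (nat_lit 13986) (nat_lit 1) (nat_lit 14))
    (@En.n l11899 (nat_lit 6240) (nat_lit 1) (nat_lit 14))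
    (@En.n l12483 (nat_lit 13998) (nat_lit 2) (nat_lit 3))
    (@En.n l5721 (nat_lit 13176) (nat_lit 3) (nat_lit 6))
    (@En.n l11917 (nat_lit 13638) (nat_lit 4) (nat_lit 7))
    (@En.n l11918 (nat_lit 13166) (nat_lit 6) (nat_lit 13))
    (@En.n l25651 (nat_lit 13768) (nat_lit 6) (nat_lit 6))
    (@En.n l12394 (nat_lit 13984) (nat_lit 7) (nat_lit 3))
    (@En.i (nat_lit 13437) (nat_lit 8) (nat_lit 5))
    (@En.i (nat_lit 13983) (nat_lit 10) (nat_lit 10))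
    (@En.n l936 (nat_lit 13989) (nat_lit 11) (nat_lit 13))
    (@En.n l55 (nat_lit 13991) (nat_lit 12) (nat_lit 9))
    (@En.n l493 (nat_lit 13302) (nat_lit 13) (nat_lit 10))
    (@En.n l3866 (nat_lit 1716) (nat_lit 14) (nat_lit 11))
    (@En.n l17 (nat_lit 13986) (nat_lit 14) (nat_lit 2))
    (@En.n l18 (nat_lit 13986) (nat_lit 15) (nat_lit 2))))
  (@Cl.mk (nat_lit 0x20002000d000b00090003000a000d0005000c0003000700060004000e000e) (nat_lit 0x13405802000012) (nat_lit 16) Lb.e (@T16.mk En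
    (@En.n l5 (nat_lit 13987) (nat_lit 1) (nat_lit 14))
    (@En.n l12672 (nat_lit 6075) (nat_lit 1) (nat_lit 14))
    (@En.n l12673 (nat_lit 13886) (nat_lit 2) (nat_lit 4))
    (@En.n l97 (nat_lit 13988) (nat_lit 3) (nat_lit 6))
    (@En.n l12674 (nat_lit 13984) (nat_lit 4) (nat_lit 7))
    (@En.i (nat_lit 13992) (nat_lit 5) (nat_lit 3))
    (@En.n l1897 (nat_lit 13802) (nat_lit 7) (nat_lit 12))
    (@En.i (nat_lit 13983) (nat_lit 7) (nat_lit 5))
    (@En.n l12675 (nat_lit 13936) (nat_lit 9) (nat_lit 13))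
    (@En.i (nat_lit 13910) (nat_lit 10) (nat_lit 10))
    (@En.n l152 (nat_lit 14010) (nat_lit 10) (nat_lit 3))
    (@En.n l4660 (nat_lit 12828) (nat_lit 12) (nat_lit 9))
    (@En.n l97 (nat_lit 14012) (nat_lit 13) (nat_lit 11))
    (@En.n l2005 (nat_lit 5966) (nat_lit 14) (nat_lit 13))
    (@En.n l17 (nat_lit 13987) (nat_lit 14) (nat_lit 2))
    (@En.n l18 (nat_lit 13987) (nat_lit 15) (nat_lit 2))))
  (@Cl.mk (nat_lit 0x20002000d000a000d0003000a0003000d0006000d000300060003000e000e) (nat_lit 0x13505090300034) (nat_lit 16) Lb.e (@T16.mk En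
    (@En.n l5 (nat_lit 13988) (nat_lit 1) (nat_lit 14))
    (@En.n l5376 (nat_lit 6080) (nat_lit 1) (nat_lit 14))
    (@En.n l1455 (nat_lit 13993) (nat_lit 2) (nat_lit 3))
    (@En.n l4660 (nat_lit 13179) (nat_lit 3) (nat_lit 6))
    (@En.n l1686 (nat_lit 13990) (nat_lit 4) (nat_lit 3))
    (@En.n l1686 (nat_lit 13803) (nat_lit 6) (nat_lit 13))
    (@En.n l13315 (nat_lit 13984) (nat_lit 6) (nat_lit 6))
    (@En.n l7705 (nat_lit 13987) (nat_lit 8) (nat_lit 13))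
    (@En.n l117 (nat_lit 13989) (nat_lit 8) (nat_lit 3))
    (@En.n l4660 (nat_lit 13940) (nat_lit 10) (nat_lit 10))
    (@En.n l107 (nat_lit 13994) (nat_lit 10) (nat_lit 3))
    (@En.n l4660 (nat_lit 13449) (nat_lit 12) (nat_lit 13))
    (@En.i (nat_lit 13306) (nat_lit 13) (nat_lit 10))
    (@En.n l1106 (nat_lit 5968) (nat_lit 14) (nat_lit 13))
    (@En.n l17 (nat_lit 13988) (nat_lit 14) (nat_lit 2))
    (@En.n l18 (nat_lit 13988) (nat_lit 15) (nat_lit 2))))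
  (@Cl.mk (nat_lit 0x20002000c000a000d000900040003000d0006000d000300070003000e000e) (nat_lit 0x23550070b00089) (nat_lit 16) Lb.e (@T16.mk En
    (@En.n l5 (nat_lit 13989) (nat_lit 1) (nat_lit 14))
    (@En.n l1791 (nat_lit 6083) (nat_lit 1) (nat_lit 14))
    (@En.n l4449 (nat_lit 14000) (nat_lit 2) (nat_lit 3))
    (@En.n l1791 (nat_lit 13178) (nat_lit 3) (nat_lit 7))
    (@En.i (nat_lit 13991) (nat_lit 4) (nat_lit 3))
    (@En.n l5208 (nat_lit 13169) (nat_lit 6) (nat_lit 13))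
    (@En.i (nat_lit 13986) (nat_lit 6) (nat_lit 6))
    (@En.i (nat_lit 13996) (nat_lit 8) (nat_lit 13))
    (@En.n l527 (nat_lit 13988) (nat_lit 8) (nat_lit 3))
    (@En.i (nat_lit 13439) (nat_lit 9) (nat_lit 4))
    (@En.i (nat_lit 13987) (nat_lit 11) (nat_lit 9))
    (@En.n l3866 (nat_lit 13444) (nat_lit 12) (nat_lit 13))
    (@En.n l97 (nat_lit 13303) (nat_lit 13) (nat_lit 10))
    (@En.n l3866 (nat_lit 6799) (nat_lit 14) (nat_lit 12))
    (@En.n l17 (nat_lit 13989) (nat_lit 14) (nat_lit 2))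
    (@En.n l18 (nat_lit 13989) (nat_lit 15) (nat_lit 2))))
  (@Cl.mk (nat_lit 0x20002000d0009000d0003000a0003000d000c0007000300060004000e000e) (nat_lit 0x83405089000067) (nat_lit 16) Lb.e (@T16.mk En
    (@En.n l97 (nat_lit 13990) (nat_lit 1) (nat_lit 14))
    (@En.n l3508 (nat_lit 6078) (nat_lit 1) (nat_lit 14))
    (@En.n l5201 (nat_lit 14003) (nat_lit 2) (nat_lit 4))
    (@En.n l4884 (nat_lit 13486) (nat_lit 3) (nat_lit 6))
    (@En.n l5202 (nat_lit 13988) (nat_lit 4) (nat_lit 3))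
    (@En.n l5203 (nat_lit 13928) (nat_lit 5) (nat_lit 7))
    (@En.i (nat_lit 13993) (nat_lit 7) (nat_lit 12))
    (@En.n l5204 (nat_lit 13992) (nat_lit 8) (nat_lit 13))
    (@En.n l1548 (nat_lit 13991) (nat_lit 8) (nat_lit 3))
    (@En.n l5205 (nat_lit 13911) (nat_lit 10) (nat_lit 10))
    (@En.n l4830 (nat_lit 13995) (nat_lit 10) (nat_lit 3))
    (@En.n l4884 (nat_lit 13446) (nat_lit 12) (nat_lit 13))
    (@En.n l4862 (nat_lit 14016) (nat_lit 13) (nat_lit 9))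
    (@En.n l4884 (nat_lit 5970) (nat_lit 14) (nat_lit 13))
    (@En.n l107 (nat_lit 13990) (nat_lit 14) (nat_lit 2))
    (@En.n l3 (nat_lit 13990) (nat_lit 15) (nat_lit 2))))
  (@Cl.mk (nat_lit 0x20002000c0009000d000900040003000d000c0007000300070004000e000e) (nat_lit 0x33450079000089) (nat_lit 16) Lb.e (@T16.mk En
    (@En.n l5 (nat_lit 13991) (nat_lit 1) (nat_lit 14))
    (@En.n l5206 (nat_lit 6084) (nat_lit 1) (nat_lit 14))
    (@En.n l5207 (nat_lit 13406) (nat_lit 2) (nat_lit 4))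
    (@En.n l1798 (nat_lit 13305) (nat_lit 3) (nat_lit 7))
    (@En.n l28 (nat_lit 13989) (nat_lit 4) (nat_lit 3))
    (@En.n l5206 (nat_lit 13930) (nat_lit 5) (nat_lit 7))
    (@En.n l5208 (nat_lit 14000) (nat_lit 7) (nat_lit 12))
    (@En.n l5209 (nat_lit 12875) (nat_lit 8) (nat_lit 13))
    (@En.n l495 (nat_lit 13990) (nat_lit 8) (nat_lit 3))
    (@En.n l516 (nat_lit 13438) (nat_lit 9) (nat_lit 4))
    (@En.i (nat_lit 13992) (nat_lit 11) (nat_lit 9))
    (@En.n l1798 (nat_lit 13442) (nat_lit 12) (nat_lit 13))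
    (@En.n l493 (nat_lit 14017) (nat_lit 13) (nat_lit 9))
    (@En.n l1236 (nat_lit 6803) (nat_lit 14) (nat_lit 12))
    (@En.n l17 (nat_lit 13991) (nat_lit 14) (nat_lit 2))
    (@En.n l18 (nat_lit 13991) (nat_lit 15) (nat_lit 2))))
  (@Cl.mk (nat_lit 0x20002000d000a00090003000a000d000b00060003000700060005000e000e) (nat_lit 0x234057800000bc) (nat_lit 16) Lb.e (@T16.mk En
    (@En.n l5 (nat_lit 13992) (nat_lit 1) (nat_lit 14))
    (@En.n l13279 (nat_lit 6074) (nat_lit 1) (nat_lit 14))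
    (@En.n l13280 (nat_lit 13891) (nat_lit 2) (nat_lit 5))
    (@En.n l5208 (nat_lit 13990) (nat_lit 3) (nat_lit 6))
    (@En.n l1798 (nat_lit 13982) (nat_lit 4) (nat_lit 7))
    (@En.n l28 (nat_lit 13987) (nat_lit 5) (nat_lit 3))
    (@En.n l13281 (nat_lit 13929) (nat_lit 6) (nat_lit 6))
    (@En.n l5208 (nat_lit 14001) (nat_lit 8) (nat_lit 11))
    (@En.n l13279 (nat_lit 13938) (nat_lit 9) (nat_lit 13))
    (@En.i (nat_lit 13912) (nat_lit 10) (nat_lit 10))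
    (@En.n l152 (nat_lit 14011) (nat_lit 10) (nat_lit 3))
    (@En.n l4660 (nat_lit 12826) (nat_lit 12) (nat_lit 9))
    (@En.n l493 (nat_lit 14013) (nat_lit 13) (nat_lit 10))
    (@En.n l7604 (nat_lit 5972) (nat_lit 14) (nat_lit 13))
    (@En.n l17 (nat_lit 13992) (nat_lit 14) (nat_lit 2))
    (@En.n l18 (nat_lit 13992) (nat_lit 15) (nat_lit 2))))
  (@Cl.mk (nat_lit 0x20002000d000a000d0003000b0003000c0006000d000500040003000e000e) (nat_lit 0x33505080400045) (nat_lit 16) Lb.e (@T16.mk En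
    (@En.n l97 (nat_lit 13993) (nat_lit 1) (nat_lit 14))
    (@En.i (nat_lit 7329) (nat_lit 1) (nat_lit 14))
    (@En.n l4862 (nat_lit 13988) (nat_lit 2) (nat_lit 3))
    (@En.n l18 (nat_lit 13397) (nat_lit 3) (nat_lit 4))
    (@En.i (nat_lit 13896) (nat_lit 4) (nat_lit 5))
    (@En.i (nat_lit 13158) (nat_lit 6) (nat_lit 13))
    (@En.n l61 (nat_lit 13999) (nat_lit 6) (nat_lit 6))
    (@En.i (nat_lit 13886) (nat_lit 8) (nat_lit 12))
    (@En.i (nat_lit 14000) (nat_lit 8) (nat_lit 3))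
    (@En.i (nat_lit 13903) (nat_lit 10) (nat_lit 11))
    (@En.n l1430 (nat_lit 14002) (nat_lit 10) (nat_lit 3))
    (@En.i (nat_lit 13461) (nat_lit 12) (nat_lit 13))
    (@En.i (nat_lit 13879) (nat_lit 13) (nat_lit 10))
    (@En.i (nat_lit 6653) (nat_lit 14) (nat_lit 13))
    (@En.n l107 (nat_lit 13993) (nat_lit 14) (nat_lit 2))
    (@En.n l3 (nat_lit 13993) (nat_lit 15) (nat_lit 2))))
  (@Cl.mk (nat_lit 0x20002000d000c000b0003000a0004000d0005000d000300060003000e000e) (nat_lit 0x33407080a0009a) (nat_lit 16) Lb.e (@T16.mk En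
    (@En.n l5 (nat_lit 13994) (nat_lit 1) (nat_lit 14))
    (@En.i (nat_lit 6333) (nat_lit 1) (nat_lit 14))
    (@En.i (nat_lit 14002) (nat_lit 2) (nat_lit 3))
    (@En.i (nat_lit 13212) (nat_lit 3) (nat_lit 6))
    (@En.i (nat_lit 13995) (nat_lit 4) (nat_lit 3))
    (@En.i (nat_lit 12987) (nat_lit 6) (nat_lit 13))
    (@En.i (nat_lit 13192) (nat_lit 6) (nat_lit 5))
    (@En.n l476 (nat_lit 14010) (nat_lit 8) (nat_lit 13))
    (@En.i (nat_lit 13311) (nat_lit 8) (nat_lit 4))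
    (@En.i (nat_lit 13676) (nat_lit 10) (nat_lit 10))
    (@En.i (nat_lit 13988) (nat_lit 10) (nat_lit 3))
    (@En.n l619 (nat_lit 13106) (nat_lit 12) (nat_lit 11))
    (@En.i (nat_lit 13989) (nat_lit 13) (nat_lit 12))
    (@En.i (nat_lit 6688) (nat_lit 14) (nat_lit 13))
    (@En.n l17 (nat_lit 13994) (nat_lit 14) (nat_lit 2))
    (@En.n l18 (nat_lit 13994) (nat_lit 15) (nat_lit 2))))
  (@Cl.mk (nat_lit 0x20002000d000c000a0003000a0004000d000c0006000300060004000e000e) (nat_lit 0x8450708900009a) (nat_lit 16) Lb.e (@T16.mk En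
    (@En.n l5 (nat_lit 13995) (nat_lit 1) (nat_lit 14))
    (@En.n l1683 (nat_lit 6332) (nat_lit 1) (nat_lit 14))
    (@En.n l1684 (nat_lit 14004) (nat_lit 2) (nat_lit 4))
    (@En.n l1685 (nat_lit 13485) (nat_lit 3) (nat_lit 6))
    (@En.n l28 (nat_lit 13994) (nat_lit 4) (nat_lit 3))
    (@En.n l1683 (nat_lit 12942) (nat_lit 5) (nat_lit 6))
    (@En.n l77 (nat_lit 14002) (nat_lit 7) (nat_lit 12))
    (@En.n l476 (nat_lit 14011) (nat_lit 8) (nat_lit 13))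
    (@En.i (nat_lit 13312) (nat_lit 8) (nat_lit 4))
    (@En.i (nat_lit 13675) (nat_lit 10) (nat_lit 10))
    (@En.n l1686 (nat_lit 13990) (nat_lit 10) (nat_lit 3))
    (@En.n l97 (nat_lit 13105) (nat_lit 12) (nat_lit 10))
    (@En.i (nat_lit 13991) (nat_lit 13) (nat_lit 12))
    (@En.i (nat_lit 5397) (nat_lit 14) (nat_lit 13))
    (@En.n l17 (nat_lit 13995) (nat_lit 14) (nat_lit 2))
    (@En.n l18 (nat_lit 13995) (nat_lit 15) (nat_lit 2))))
  (@Cl.mk (nat_lit 0x20002000c000b000900090004000d0005000c0003000700070004000e000e) (nat_lit 0x23440609000045) (nat_lit 16) Lb.e (@T16.mk En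
    (@En.n l5 (nat_lit 13996) (nat_lit 1) (nat_lit 14))
    (@En.n l25610 (nat_lit 5572) (nat_lit 1) (nat_lit 14))
    (@En.n l25611 (nat_lit 13997) (nat_lit 2) (nat_lit 4))
    (@En.n l25612 (nat_lit 13965) (nat_lit 3) (nat_lit 7))
    (@En.n l1769 (nat_lit 13986) (nat_lit 4) (nat_lit 7))
    (@En.n l5209 (nat_lit 12875) (nat_lit 5) (nat_lit 3))
    (@En.n l25611 (nat_lit 13575) (nat_lit 7) (nat_lit 12))
    (@En.n l25613 (nat_lit 13715) (nat_lit 7) (nat_lit 5))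
    (@En.n l476 (nat_lit 12869) (nat_lit 9) (nat_lit 13))
    (@En.n l4451 (nat_lit 13881) (nat_lit 9) (nat_lit 4))
    (@En.n l12675 (nat_lit 13936) (nat_lit 11) (nat_lit 9))
    (@En.n l25614 (nat_lit 13891) (nat_lit 12) (nat_lit 9))
    (@En.n l25615 (nat_lit 13869) (nat_lit 13) (nat_lit 11))
    (@En.n l3866 (nat_lit 6810) (nat_lit 14) (nat_lit 12))
    (@En.n l17 (nat_lit 13996) (nat_lit 14) (nat_lit 2))
    (@En.n l18 (nat_lit 13996) (nat_lit 15) (nat_lit 2))))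
  (@Cl.mk (nat_lit 0x20002000c000b0008000b0004000c0005000c0005000400080004000e000e) (nat_lit 0x14450708003089) (nat_lit 16) Lb.e (@T16.mk En
    (@En.n l97 (nat_lit 13997) (nat_lit 1) (nat_lit 14))
    (@En.n l3327 (nat_lit 7424) (nat_lit 1) (nat_lit 14))
    (@En.n l12697 (nat_lit 13983) (nat_lit 2) (nat_lit 4))
    (@En.n l612 (nat_lit 13998) (nat_lit 3) (nat_lit 8))
    (@En.n l50 (nat_lit 13999) (nat_lit 4) (nat_lit 4))
    (@En.n l12698 (nat_lit 13974) (nat_lit 5) (nat_lit 5))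
    (@En.i (nat_lit 13163) (nat_lit 7) (nat_lit 12))
    (@En.n l217 (nat_lit 13714) (nat_lit 7) (nat_lit 5))
    (@En.n l12699 (nat_lit 13904) (nat_lit 9) (nat_lit 12))
    (@En.n l12700 (nat_lit 14008) (nat_lit 9) (nat_lit 4))
    (@En.n l617 (nat_lit 13362) (nat_lit 11) (nat_lit 11))
    (@En.n l17 (nat_lit 13407) (nat_lit 12) (nat_lit 8))
    (@En.n l12701 (nat_lit 13860) (nat_lit 13) (nat_lit 11))
    (@En.i (nat_lit 6789) (nat_lit 14) (nat_lit 12))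
    (@En.n l107 (nat_lit 13997) (nat_lit 14) (nat_lit 2))
    (@En.n l3 (nat_lit 13997) (nat_lit 15) (nat_lit 2))))
  (@Cl.mk (nat_lit 0x20002000b000a0008000d000b000500030006000d000500080003000e000e) (nat_lit 0x13466000902078) (nat_lit 16) Lb.e (@T16.mk En
    (@En.n l97 (nat_lit 13998) (nat_lit 1) (nat_lit 14))
    (@En.i (nat_lit 7423) (nat_lit 1) (nat_lit 14))
    (@En.n l11907 (nat_lit 13986) (nat_lit 2) (nat_lit 3))
    (@En.n l11702 (nat_lit 13408) (nat_lit 3) (nat_lit 8))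
    (@En.n l12399 (nat_lit 13547) (nat_lit 4) (nat_lit 5))
    (@En.i (nat_lit 13162) (nat_lit 6) (nat_lit 13))
    (@En.n l11714 (nat_lit 13710) (nat_lit 6) (nat_lit 6))
    (@En.n l7 (nat_lit 13999) (nat_lit 7) (nat_lit 3))
    (@En.n l11714 (nat_lit 13436) (nat_lit 8) (nat_lit 5))
    (@En.n l644 (nat_lit 13997) (nat_lit 10) (nat_lit 11))
    (@En.n l617 (nat_lit 14000) (nat_lit 11) (nat_lit 13))
    (@En.n l17 (nat_lit 13406) (nat_lit 12) (nat_lit 8))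
    (@En.n l11702 (nat_lit 13859) (nat_lit 13) (nat_lit 10))
    (@En.n l11714 (nat_lit 6791) (nat_lit 14) (nat_lit 11))
    (@En.n l107 (nat_lit 13998) (nat_lit 14) (nat_lit 2))
    (@En.n l3 (nat_lit 13998) (nat_lit 15) (nat_lit 2))))
  (@Cl.mk (nat_lit 0x20002000c000a0008000d0004000c00030006000d000400080003000e000e) (nat_lit 0x23460600302045) (nat_lit 16) Lb.e (@T16.mk En
    (@En.n l97 (nat_lit 13999) (nat_lit 1) (nat_lit 14))
    (@En.i (nat_lit 7425) (nat_lit 1) (nat_lit 14))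
    (@En.i (nat_lit 13984) (nat_lit 2) (nat_lit 3))
    (@En.n l387 (nat_lit 12954) (nat_lit 3) (nat_lit 8))
    (@En.i (nat_lit 13967) (nat_lit 4) (nat_lit 4))
    (@En.i (nat_lit 13161) (nat_lit 6) (nat_lit 13))
    (@En.i (nat_lit 13965) (nat_lit 6) (nat_lit 6))
    (@En.i (nat_lit 13998) (nat_lit 7) (nat_lit 3))
    (@En.n l1722 (nat_lit 13902) (nat_lit 9) (nat_lit 12))
    (@En.i (nat_lit 13487) (nat_lit 9) (nat_lit 4))
    (@En.n l617 (nat_lit 13993) (nat_lit 11) (nat_lit 13))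
    (@En.n l17 (nat_lit 14003) (nat_lit 12) (nat_lit 8))
    (@En.i (nat_lit 13866) (nat_lit 13) (nat_lit 10))
    (@En.i (nat_lit 6652) (nat_lit 14) (nat_lit 12))
    (@En.n l107 (nat_lit 13999) (nat_lit 14) (nat_lit 2))
    (@En.n l3 (nat_lit 13999) (nat_lit 15) (nat_lit 2))))
noncomputable def a875 : T16 Cl := @T16.mk Cl
  (@Cl.mk (nat_lit 0x20002000c000a000d000a00040003000c0006000d000600040003000e000e) (nat_lit 0x13540080900089) (nat_lit 16) Lb.e (@T16.mk En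
    (@En.n l97 (nat_lit 14000) (nat_lit 1) (nat_lit 14))
    (@En.i (nat_lit 7326) (nat_lit 1) (nat_lit 14))
    (@En.n l1548 (nat_lit 13989) (nat_lit 2) (nat_lit 3))
    (@En.n l18 (nat_lit 13395) (nat_lit 3) (nat_lit 4))
    (@En.n l4853 (nat_lit 13975) (nat_lit 4) (nat_lit 6))
    (@En.i (nat_lit 13160) (nat_lit 6) (nat_lit 13))
    (@En.n l61 (nat_lit 13998) (nat_lit 6) (nat_lit 6))
    (@En.n l564 (nat_lit 13997) (nat_lit 8) (nat_lit 12))
    (@En.n l7 (nat_lit 13993) (nat_lit 8) (nat_lit 3))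
    (@En.i (nat_lit 13320) (nat_lit 9) (nat_lit 4))
    (@En.i (nat_lit 14001) (nat_lit 11) (nat_lit 10))
    (@En.i (nat_lit 13448) (nat_lit 12) (nat_lit 13))
    (@En.n l4573 (nat_lit 13855) (nat_lit 13) (nat_lit 10))
    (@En.i (nat_lit 6792) (nat_lit 14) (nat_lit 12))
    (@En.n l107 (nat_lit 14000) (nat_lit 14) (nat_lit 2))
    (@En.n l3 (nat_lit 14000) (nat_lit 15) (nat_lit 2))))
  (@Cl.mk (nat_lit 0x20002000d000b000a0003000b000b0005000c0006000500050004000e000e) (nat_lit 0x3230770100009a) (nat_lit 16) Lb.e (@T16.mk En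
    (@En.n l97 (nat_lit 14001) (nat_lit 1) (nat_lit 14))
    (@En.i (nat_lit 7405) (nat_lit 1) (nat_lit 14))
    (@En.n l1548 (nat_lit 13987) (nat_lit 2) (nat_lit 4))
    (@En.n l2172 (nat_lit 13850) (nat_lit 3) (nat_lit 5))
    (@En.i (nat_lit 13993) (nat_lit 4) (nat_lit 5))
    (@En.n l4852 (nat_lit 13574) (nat_lit 5) (nat_lit 6))
    (@En.i (nat_lit 287) (nat_lit 7) (nat_lit 12))
    (@En.n l742 (nat_lit 13997) (nat_lit 7) (nat_lit 5))
    (@En.n l396 (nat_lit 13362) (nat_lit 9) (nat_lit 11))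
    (@En.n l4853 (nat_lit 13905) (nat_lit 10) (nat_lit 11))
    (@En.n l1430 (nat_lit 13365) (nat_lit 10) (nat_lit 3))
    (@En.i (nat_lit 13000) (nat_lit 12) (nat_lit 10))
    (@En.i (nat_lit 13854) (nat_lit 13) (nat_lit 11))
    (@En.i (nat_lit 6786) (nat_lit 14) (nat_lit 13))
    (@En.n l107 (nat_lit 14001) (nat_lit 14) (nat_lit 2))
    (@En.n l3 (nat_lit 14001) (nat_lit 15) (nat_lit 2))))
  (@Cl.mk (nat_lit 0x20002000d000c000b0003000b0004000c0005000d000500040003000e000e) (nat_lit 0x22405080b0009a) (nat_lit 16) Lb.e (@T16.mk En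
    (@En.n l5 (nat_lit 14002) (nat_lit 1) (nat_lit 14))
    (@En.n l420 (nat_lit 7325) (nat_lit 1) (nat_lit 14))
    (@En.n l7 (nat_lit 13994) (nat_lit 2) (nat_lit 3))
    (@En.n l1684 (nat_lit 13398) (nat_lit 3) (nat_lit 4))
    (@En.i (nat_lit 13897) (nat_lit 4) (nat_lit 5))
    (@En.n l1554 (nat_lit 12983) (nat_lit 6) (nat_lit 13))
    (@En.n l2823 (nat_lit 13487) (nat_lit 6) (nat_lit 5))
    (@En.n l476 (nat_lit 13885) (nat_lit 8) (nat_lit 12))
    (@En.i (nat_lit 13313) (nat_lit 8) (nat_lit 4))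
    (@En.i (nat_lit 13878) (nat_lit 10) (nat_lit 11))
    (@En.n l1455 (nat_lit 13993) (nat_lit 10) (nat_lit 3))
    (@En.n l619 (nat_lit 13108) (nat_lit 12) (nat_lit 11))
    (@En.n l4449 (nat_lit 14000) (nat_lit 13) (nat_lit 12))
    (@En.i (nat_lit 6689) (nat_lit 14) (nat_lit 13))
    (@En.n l17 (nat_lit 14002) (nat_lit 14) (nat_lit 2))
    (@En.n l18 (nat_lit 14002) (nat_lit 15) (nat_lit 2))))
  (@Cl.mk (nat_lit 0x20002000d0008000d0003000c0003000c000c0004000800040004000e000e) (nat_lit 0x23506099060023) (nat_lit 16) Lb.e (@T16.mk En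
    (@En.n l97 (nat_lit 14003) (nat_lit 1) (nat_lit 14))
    (@En.i (nat_lit 4197) (nat_lit 1) (nat_lit 14))
    (@En.i (nat_lit 14026) (nat_lit 2) (nat_lit 4))
    (@En.i (nat_lit 13993) (nat_lit 3) (nat_lit 4))
    (@En.i (nat_lit 13040) (nat_lit 4) (nat_lit 8))
    (@En.n l429 (nat_lit 13895) (nat_lit 5) (nat_lit 4))
    (@En.n l61 (nat_lit 13397) (nat_lit 7) (nat_lit 12))
    (@En.i (nat_lit 13891) (nat_lit 8) (nat_lit 12))
    (@En.i (nat_lit 13406) (nat_lit 8) (nat_lit 3))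
    (@En.i (nat_lit 13901) (nat_lit 10) (nat_lit 12))
    (@En.i (nat_lit 14004) (nat_lit 10) (nat_lit 3))
    (@En.n l4575 (nat_lit 13455) (nat_lit 12) (nat_lit 13))
    (@En.i (nat_lit 14005) (nat_lit 13) (nat_lit 8))
    (@En.i (nat_lit 6658) (nat_lit 14) (nat_lit 13))
    (@En.n l107 (nat_lit 14003) (nat_lit 14) (nat_lit 2))
    (@En.n l3 (nat_lit 14003) (nat_lit 15) (nat_lit 2))))
  (@Cl.mk (nat_lit 0x20002000d000c00090003000c0004000c000c0004000700040004000e000e) (nat_lit 0x22506098000023) (nat_lit 16) Lb.e (@T16.mk En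
    (@En.n l97 (nat_lit 14004) (nat_lit 1) (nat_lit 14))
    (@En.i (nat_lit 4198) (nat_lit 1) (nat_lit 14))
    (@En.n l1429 (nat_lit 14007) (nat_lit 2) (nat_lit 4))
    (@En.n l1430 (nat_lit 14002) (nat_lit 3) (nat_lit 4))
    (@En.n l1431 (nat_lit 13043) (nat_lit 4) (nat_lit 7))
    (@En.n l429 (nat_lit 13489) (nat_lit 5) (nat_lit 4))
    (@En.n l61 (nat_lit 13398) (nat_lit 7) (nat_lit 12))
    (@En.n l1387 (nat_lit 13888) (nat_lit 8) (nat_lit 12))
    (@En.n l1430 (nat_lit 13318) (nat_lit 8) (nat_lit 4))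
    (@En.n l343 (nat_lit 14005) (nat_lit 10) (nat_lit 12))
    (@En.n l28 (nat_lit 14003) (nat_lit 10) (nat_lit 3))
    (@En.n l435 (nat_lit 12919) (nat_lit 12) (nat_lit 9))
    (@En.n l77 (nat_lit 13406) (nat_lit 13) (nat_lit 12))
    (@En.n l1430 (nat_lit 6777) (nat_lit 14) (nat_lit 13))
    (@En.n l107 (nat_lit 14004) (nat_lit 14) (nat_lit 2))
    (@En.n l3 (nat_lit 14004) (nat_lit 15) (nat_lit 2))))
  (@Cl.mk (nat_lit 0x200020008000d0009000c0003000b000b00040008000700050005000e000e) (nat_lit 0x24350870300012) (nat_lit 16) Lb.e (@T16.mk En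
    (@En.n l97 (nat_lit 14005) (nat_lit 1) (nat_lit 14))
    (@En.i (nat_lit 1605) (nat_lit 1) (nat_lit 14))
    (@En.n l1693 (nat_lit 14023) (nat_lit 2) (nat_lit 5))
    (@En.n l4571 (nat_lit 13878) (nat_lit 3) (nat_lit 5))
    (@En.n l55 (nat_lit 14004) (nat_lit 4) (nat_lit 7))
    (@En.n l4571 (nat_lit 13426) (nat_lit 5) (nat_lit 8))
    (@En.n l4572 (nat_lit 13491) (nat_lit 6) (nat_lit 4))
    (@En.n l61 (nat_lit 13400) (nat_lit 8) (nat_lit 11))
    (@En.n l4464 (nat_lit 13893) (nat_lit 9) (nat_lit 11))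
    (@En.n l4573 (nat_lit 14019) (nat_lit 9) (nat_lit 3))
    (@En.n l4574 (nat_lit 13900) (nat_lit 11) (nat_lit 12))
    (@En.n l1431 (nat_lit 12903) (nat_lit 12) (nat_lit 9))
    (@En.n l780 (nat_lit 13407) (nat_lit 13) (nat_lit 13))
    (@En.n l4571 (nat_lit 7753) (nat_lit 14) (nat_lit 8))
    (@En.n l107 (nat_lit 14005) (nat_lit 14) (nat_lit 2))
    (@En.n l3 (nat_lit 14005) (nat_lit 15) (nat_lit 2))))
  (@Cl.mk (nat_lit 0x20002000d000a00090003000c000b000b00060004000700050005000e000e) (nat_lit 0x23505870000023) (nat_lit 16) Lb.e (@T16.mk En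
    (@En.n l5 (nat_lit 14006) (nat_lit 1) (nat_lit 14))
    (@En.n l420 (nat_lit 1599) (nat_lit 1) (nat_lit 14))
    (@En.n l4595 (nat_lit 14024) (nat_lit 2) (nat_lit 5))
    (@En.n l4527 (nat_lit 13365) (nat_lit 3) (nat_lit 5))
    (@En.n l4596 (nat_lit 13379) (nat_lit 4) (nat_lit 7))
    (@En.n l3863 (nat_lit 14004) (nat_lit 5) (nat_lit 4))
    (@En.n l4388 (nat_lit 13978) (nat_lit 6) (nat_lit 6))
    (@En.n l4597 (nat_lit 13399) (nat_lit 8) (nat_lit 11))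
    (@En.i (nat_lit 13897) (nat_lit 9) (nat_lit 11))
    (@En.n l4598 (nat_lit 14020) (nat_lit 10) (nat_lit 12))
    (@En.n l1362 (nat_lit 13407) (nat_lit 10) (nat_lit 3))
    (@En.n l619 (nat_lit 12896) (nat_lit 12) (nat_lit 9))
    (@En.n l4599 (nat_lit 13546) (nat_lit 13) (nat_lit 10))
    (@En.i (nat_lit 6774) (nat_lit 14) (nat_lit 13))
    (@En.n l17 (nat_lit 14006) (nat_lit 14) (nat_lit 2))
    (@En.n l18 (nat_lit 14006) (nat_lit 15) (nat_lit 2))))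
  (@Cl.mk (nat_lit 0x20002000d000c00080003000b0004000e000c0002000500080004000e000e) (nat_lit 0x3420709a003045) (nat_lit 16) Lb.e (@T16.mk En
    (@En.n l5 (nat_lit 14007) (nat_lit 1) (nat_lit 14))
    (@En.n l492 (nat_lit 3510) (nat_lit 12) (nat_lit 14))
    (@En.i (nat_lit 13995) (nat_lit 2) (nat_lit 4))
    (@En.n l493 (nat_lit 13058) (nat_lit 3) (nat_lit 8))
    (@En.n l494 (nat_lit 13479) (nat_lit 4) (nat_lit 5))
    (@En.n l28 (nat_lit 14007) (nat_lit 5) (nat_lit 2))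
    (@En.n l495 (nat_lit 14004) (nat_lit 7) (nat_lit 12))
    (@En.n l476 (nat_lit 14024) (nat_lit 8) (nat_lit 14))
    (@En.i (nat_lit 13377) (nat_lit 8) (nat_lit 4))
    (@En.i (nat_lit 14023) (nat_lit 10) (nat_lit 11))
    (@En.n l496 (nat_lit 14026) (nat_lit 10) (nat_lit 3))
    (@En.n l97 (nat_lit 12918) (nat_lit 12) (nat_lit 8))
    (@En.n l493 (nat_lit 14025) (nat_lit 13) (nat_lit 12))
    (@En.i (nat_lit 6778) (nat_lit 8) (nat_lit 13))
    (@En.n l17 (nat_lit 14007) (nat_lit 14) (nat_lit 2))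
    (@En.n l18 (nat_lit 14007) (nat_lit 15) (nat_lit 2))))
  (@Cl.mk (nat_lit 0x20002000c0009000c00090004000c0004000c0007000400070004000e000e) (nat_lit 0x14560808000067) (nat_lit 16) Lb.e (@T16.mk En
    (@En.n l5 (nat_lit 14008) (nat_lit 1) (nat_lit 14))
    (@En.n l4759 (nat_lit 7236) (nat_lit 1) (nat_lit 14))
    (@En.n l7 (nat_lit 13197) (nat_lit 2) (nat_lit 4))
    (@En.n l4760 (nat_lit 13436) (nat_lit 3) (nat_lit 7))
    (@En.n l2823 (nat_lit 13487) (nat_lit 4) (nat_lit 4))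
    (@En.n l4668 (nat_lit 14038) (nat_lit 5) (nat_lit 7))
    (@En.n l4761 (nat_lit 13978) (nat_lit 7) (nat_lit 12))
    (@En.n l4762 (nat_lit 13854) (nat_lit 7) (nat_lit 4))
    (@En.n l4763 (nat_lit 14031) (nat_lit 9) (nat_lit 12))
    (@En.n l4728 (nat_lit 13864) (nat_lit 9) (nat_lit 4))
    (@En.n l1452 (nat_lit 14006) (nat_lit 11) (nat_lit 9))
    (@En.n l129 (nat_lit 14007) (nat_lit 12) (nat_lit 12))
    (@En.n l4764 (nat_lit 13535) (nat_lit 13) (nat_lit 9))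
    (@En.i (nat_lit 6779) (nat_lit 14) (nat_lit 12))
    (@En.n l17 (nat_lit 14008) (nat_lit 14) (nat_lit 2))
    (@En.n l18 (nat_lit 14008) (nat_lit 15) (nat_lit 2))))
  (@Cl.mk (nat_lit 0x20002000d0007000a0003000b000e000b00020006000500090005000e000e) (nat_lit 0x30306880004045) (nat_lit 16) Lb.e (@T16.mk En
    (@En.n l5 (nat_lit 14009) (nat_lit 1) (nat_lit 14))
    (@En.n l5176 (nat_lit 3495) (nat_lit 11) (nat_lit 14))
    (@En.n l5177 (nat_lit 13992) (nat_lit 2) (nat_lit 5))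
    (@En.n l5178 (nat_lit 14025) (nat_lit 3) (nat_lit 9))
    (@En.n l5179 (nat_lit 14026) (nat_lit 4) (nat_lit 5))
    (@En.n l4578 (nat_lit 13864) (nat_lit 5) (nat_lit 6))
    (@En.n l8 (nat_lit 14009) (nat_lit 6) (nat_lit 2))
    (@En.n l1827 (nat_lit 13407) (nat_lit 8) (nat_lit 11))
    (@En.n l5180 (nat_lit 13216) (nat_lit 9) (nat_lit 14))
    (@En.n l5181 (nat_lit 13746) (nat_lit 10) (nat_lit 11))
    (@En.n l5182 (nat_lit 14024) (nat_lit 10) (nat_lit 3))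
    (@En.i (nat_lit 12991) (nat_lit 12) (nat_lit 10))
    (@En.n l5183 (nat_lit 14022) (nat_lit 13) (nat_lit 7))
    (@En.n l5184 (nat_lit 6780) (nat_lit 7) (nat_lit 13))
    (@En.n l17 (nat_lit 14009) (nat_lit 14) (nat_lit 2))
    (@En.n l18 (nat_lit 14009) (nat_lit 15) (nat_lit 2))))
  (@Cl.mk (nat_lit 0x20002000d0008000c0003000a000d0004000c0003000800060004000e000e) (nat_lit 0x2350670a04009a) (nat_lit 16) Lb.e (@T16.mk En
    (@En.n l5 (nat_lit 14010) (nat_lit 1) (nat_lit 14))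
    (@En.i (nat_lit 6327) (nat_lit 1) (nat_lit 14))
    (@En.i (nat_lit 13885) (nat_lit 2) (nat_lit 4))
    (@En.i (nat_lit 13994) (nat_lit 3) (nat_lit 6))
    (@En.n l253 (nat_lit 13870) (nat_lit 4) (nat_lit 8))
    (@En.i (nat_lit 14011) (nat_lit 5) (nat_lit 3))
    (@En.i (nat_lit 13146) (nat_lit 7) (nat_lit 12))
    (@En.i (nat_lit 13197) (nat_lit 7) (nat_lit 4))
    (@En.i (nat_lit 13934) (nat_lit 9) (nat_lit 13))
    (@En.n l152 (nat_lit 13056) (nat_lit 10) (nat_lit 10))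
    (@En.n l117 (nat_lit 13987) (nat_lit 10) (nat_lit 3))
    (@En.n l513 (nat_lit 13107) (nat_lit 12) (nat_lit 12))
    (@En.i (nat_lit 12869) (nat_lit 13) (nat_lit 8))
    (@En.n l253 (nat_lit 5398) (nat_lit 14) (nat_lit 13))
    (@En.n l17 (nat_lit 14010) (nat_lit 14) (nat_lit 2))
    (@En.n l18 (nat_lit 14010) (nat_lit 15) (nat_lit 2))))
  (@Cl.mk (nat_lit 0x20002000d0008000b0003000a000d000b00050003000800060005000e000e) (nat_lit 0x1330678004009a) (nat_lit 16) Lb.e (@T16.mk En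
    (@En.n l5 (nat_lit 14011) (nat_lit 1) (nat_lit 14))
    (@En.n l1668 (nat_lit 6328) (nat_lit 1) (nat_lit 14))
    (@En.i (nat_lit 13888) (nat_lit 2) (nat_lit 5))
    (@En.i (nat_lit 13995) (nat_lit 3) (nat_lit 6))
    (@En.n l343 (nat_lit 13197) (nat_lit 4) (nat_lit 8))
    (@En.n l28 (nat_lit 14010) (nat_lit 5) (nat_lit 3))
    (@En.n l1668 (nat_lit 12941) (nat_lit 6) (nat_lit 5))
    (@En.n l77 (nat_lit 13365) (nat_lit 8) (nat_lit 11))
    (@En.n l1668 (nat_lit 13937) (nat_lit 9) (nat_lit 13))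
    (@En.n l152 (nat_lit 13055) (nat_lit 10) (nat_lit 10))
    (@En.n l117 (nat_lit 13992) (nat_lit 10) (nat_lit 3))
    (@En.n l513 (nat_lit 13114) (nat_lit 12) (nat_lit 11))
    (@En.n l1670 (nat_lit 12867) (nat_lit 13) (nat_lit 8))
    (@En.n l253 (nat_lit 5390) (nat_lit 14) (nat_lit 13))
    (@En.n l17 (nat_lit 14011) (nat_lit 14) (nat_lit 2))
    (@En.n l18 (nat_lit 14011) (nat_lit 15) (nat_lit 2))))
  (@Cl.mk (nat_lit 0x20002000b0008000c0009000c00050004000c0004000800070004000e000e) (nat_lit 0x235460090400bc) (nat_lit 16) Lb.e (@T16.mk En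
    (@En.n l5 (nat_lit 14012) (nat_lit 1) (nat_lit 14))
    (@En.n l12720 (nat_lit 4495) (nat_lit 1) (nat_lit 14))
    (@En.n l4461 (nat_lit 13884) (nat_lit 2) (nat_lit 4))
    (@En.i (nat_lit 13306) (nat_lit 3) (nat_lit 7))
    (@En.n l253 (nat_lit 13304) (nat_lit 4) (nat_lit 8))
    (@En.n l31 (nat_lit 14013) (nat_lit 5) (nat_lit 4))
    (@En.n l12720 (nat_lit 13623) (nat_lit 7) (nat_lit 12))
    (@En.i (nat_lit 14010) (nat_lit 7) (nat_lit 4))
    (@En.n l12721 (nat_lit 13643) (nat_lit 8) (nat_lit 5))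
    (@En.n l575 (nat_lit 13932) (nat_lit 10) (nat_lit 12))
    (@En.n l117 (nat_lit 13190) (nat_lit 11) (nat_lit 9))
    (@En.n l4947 (nat_lit 13312) (nat_lit 12) (nat_lit 12))
    (@En.n l12722 (nat_lit 13906) (nat_lit 13) (nat_lit 8))
    (@En.i (nat_lit 5386) (nat_lit 14) (nat_lit 11))
    (@En.n l17 (nat_lit 14012) (nat_lit 14) (nat_lit 2))
    (@En.n l18 (nat_lit 14012) (nat_lit 15) (nat_lit 2))))
  (@Cl.mk (nat_lit 0x20002000a0008000b0009000c000a000600050004000800070006000e000e) (nat_lit 0x23356800030012) (nat_lit 16) Lb.e (@T16.mk En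
    (@En.n l5 (nat_lit 14013) (nat_lit 1) (nat_lit 14))
    (@En.n l13388 (nat_lit 1321) (nat_lit 1) (nat_lit 14))
    (@En.n l3 (nat_lit 13893) (nat_lit 2) (nat_lit 6))
    (@En.n l485 (nat_lit 14016) (nat_lit 3) (nat_lit 7))
    (@En.n l13401 (nat_lit 14014) (nat_lit 4) (nat_lit 8))
    (@En.n l28 (nat_lit 14015) (nat_lit 5) (nat_lit 4))
    (@En.n l485 (nat_lit 14011) (nat_lit 6) (nat_lit 5))
    (@En.n l13388 (nat_lit 13421) (nat_lit 7) (nat_lit 6))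
    (@En.n l1699 (nat_lit 13854) (nat_lit 9) (nat_lit 10))
    (@En.n l13388 (nat_lit 13939) (nat_lit 10) (nat_lit 12))
    (@En.n l13402 (nat_lit 13615) (nat_lit 11) (nat_lit 9))
    (@En.n l13388 (nat_lit 12938) (nat_lit 12) (nat_lit 11))
    (@En.n l13403 (nat_lit 13789) (nat_lit 13) (nat_lit 8))
    (@En.n l5249 (nat_lit 3190) (nat_lit 14) (nat_lit 10))
    (@En.n l17 (nat_lit 14013) (nat_lit 14) (nat_lit 2))
    (@En.n l18 (nat_lit 14013) (nat_lit 15) (nat_lit 2))))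
  (@Cl.mk (nat_lit 0x2000200090008000d000b000a0003000b00070005000800060005000e000e) (nat_lit 0x22546080020012) (nat_lit 16) Lb.e (@T16.mk En
    (@En.n l97 (nat_lit 14014) (nat_lit 1) (nat_lit 14))
    (@En.i (nat_lit 1317) (nat_lit 1) (nat_lit 14))
    (@En.n l25702 (nat_lit 13882) (nat_lit 2) (nat_lit 5))
    (@En.n l25703 (nat_lit 13651) (nat_lit 3) (nat_lit 6))
    (@En.n l1723 (nat_lit 13692) (nat_lit 4) (nat_lit 8))
    (@En.n l25703 (nat_lit 13197) (nat_lit 5) (nat_lit 5))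
    (@En.i (nat_lit 13527) (nat_lit 6) (nat_lit 7))
    (@En.n l5311 (nat_lit 13853) (nat_lit 8) (nat_lit 11))
    (@En.n l18540 (nat_lit 14015) (nat_lit 8) (nat_lit 3))
    (@En.n l25704 (nat_lit 13647) (nat_lit 10) (nat_lit 10))
    (@En.n l25705 (nat_lit 14013) (nat_lit 11) (nat_lit 11))
    (@En.n l25706 (nat_lit 14016) (nat_lit 12) (nat_lit 13))
    (@En.n l25707 (nat_lit 13793) (nat_lit 13) (nat_lit 8))
    (@En.n l25708 (nat_lit 3191) (nat_lit 14) (nat_lit 9))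
    (@En.n l107 (nat_lit 14014) (nat_lit 14) (nat_lit 2))
    (@En.n l3 (nat_lit 14014) (nat_lit 15) (nat_lit 2))))
  (@Cl.mk (nat_lit 0x2000200090008000d0009000c0003000b00070004000800070005000e000e) (nat_lit 0x33446080020012) (nat_lit 16) Lb.e (@T16.mk En
    (@En.n l5 (nat_lit 14015) (nat_lit 1) (nat_lit 14))
    (@En.n l13398 (nat_lit 1324) (nat_lit 1) (nat_lit 14))
    (@En.n l3 (nat_lit 13337) (nat_lit 2) (nat_lit 5))
    (@En.n l3 (nat_lit 13309) (nat_lit 3) (nat_lit 7))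
    (@En.n l3549 (nat_lit 13691) (nat_lit 4) (nat_lit 8))
    (@En.n l485 (nat_lit 14012) (nat_lit 5) (nat_lit 4))
    (@En.i (nat_lit 13420) (nat_lit 6) (nat_lit 7))
    (@En.n l23281 (nat_lit 13627) (nat_lit 8) (nat_lit 11))
    (@En.n l12276 (nat_lit 14014) (nat_lit 8) (nat_lit 3))
    (@En.n l23282 (nat_lit 14018) (nat_lit 10) (nat_lit 12))
    (@En.i (nat_lit 12915) (nat_lit 11) (nat_lit 9))
    (@En.n l5251 (nat_lit 14017) (nat_lit 12) (nat_lit 13))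
    (@En.n l26451 (nat_lit 13798) (nat_lit 13) (nat_lit 8))
    (@En.n l253 (nat_lit 3130) (nat_lit 14) (nat_lit 9))
    (@En.n l17 (nat_lit 14015) (nat_lit 14) (nat_lit 2))
    (@En.n l18 (nat_lit 14015) (nat_lit 15) (nat_lit 2))))
noncomputable def a876 : T16 Cl := @T16.mk Cl
  (@Cl.mk (nat_lit 0x200020009000d000a00090003000c000b00070006000400070005000e000e) (nat_lit 0x24460790000012) (nat_lit 16) Lb.e (@T16.mk En
    (@En.n l5 (nat_lit 14016) (nat_lit 1) (nat_lit 14))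
    (@En.n l4548 (nat_lit 1325) (nat_lit 1) (nat_lit 14))
    (@En.n l1362 (nat_lit 14005) (nat_lit 2) (nat_lit 5))
    (@En.n l1798 (nat_lit 13660) (nat_lit 3) (nat_lit 7))
    (@En.n l13324 (nat_lit 13309) (nat_lit 4) (nat_lit 4))
    (@En.i (nat_lit 13995) (nat_lit 5) (nat_lit 6))
    (@En.n l4548 (nat_lit 13524) (nat_lit 6) (nat_lit 7))
    (@En.n l1686 (nat_lit 13879) (nat_lit 8) (nat_lit 11))
    (@En.n l13325 (nat_lit 14013) (nat_lit 9) (nat_lit 12))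
    (@En.n l31 (nat_lit 14017) (nat_lit 9) (nat_lit 3))
    (@En.n l4660 (nat_lit 13617) (nat_lit 11) (nat_lit 9))
    (@En.n l477 (nat_lit 12936) (nat_lit 12) (nat_lit 10))
    (@En.n l1791 (nat_lit 13891) (nat_lit 13) (nat_lit 13))
    (@En.n l1236 (nat_lit 3189) (nat_lit 14) (nat_lit 9))
    (@En.n l17 (nat_lit 14016) (nat_lit 14) (nat_lit 2))
    (@En.n l18 (nat_lit 14016) (nat_lit 15) (nat_lit 2))))
  (@Cl.mk (nat_lit 0x200020009000d0008000b0003000c000b00070005000400080005000e000e) (nat_lit 0x23460880004045) (nat_lit 16) Lb.e (@T16.mk En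
    (@En.n l5 (nat_lit 14017) (nat_lit 1) (nat_lit 14))
    (@En.n l1385 (nat_lit 4490) (nat_lit 1) (nat_lit 14))
    (@En.n l28 (nat_lit 14019) (nat_lit 2) (nat_lit 5))
    (@En.n l343 (nat_lit 13308) (nat_lit 3) (nat_lit 8))
    (@En.n l28 (nat_lit 13307) (nat_lit 4) (nat_lit 4))
    (@En.n l485 (nat_lit 13312) (nat_lit 5) (nat_lit 5))
    (@En.i (nat_lit 13418) (nat_lit 6) (nat_lit 7))
    (@En.n l77 (nat_lit 13855) (nat_lit 8) (nat_lit 11))
    (@En.n l5247 (nat_lit 13335) (nat_lit 9) (nat_lit 12))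
    (@En.n l5248 (nat_lit 14016) (nat_lit 9) (nat_lit 3))
    (@En.n l513 (nat_lit 13031) (nat_lit 11) (nat_lit 11))
    (@En.i (nat_lit 14013) (nat_lit 12) (nat_lit 8))
    (@En.i (nat_lit 13888) (nat_lit 13) (nat_lit 13))
    (@En.n l5249 (nat_lit 3188) (nat_lit 14) (nat_lit 9))
    (@En.n l17 (nat_lit 14017) (nat_lit 14) (nat_lit 2))
    (@En.n l18 (nat_lit 14017) (nat_lit 15) (nat_lit 2))))
  (@Cl.mk (nat_lit 0x20002000a0008000e000c0002000a00060004000e000800020006000e000e) (nat_lit 0x24450800930067) (nat_lit 16) Lb.e (@T16.mk En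
    (@En.n l396 (nat_lit 14018) (nat_lit 1) (nat_lit 14))
    (@En.i (nat_lit 5324) (nat_lit 8) (nat_lit 14))
    (@En.n l343 (nat_lit 13295) (nat_lit 2) (nat_lit 6))
    (@En.n l28 (nat_lit 14018) (nat_lit 3) (nat_lit 2))
    (@En.n l1115 (nat_lit 13336) (nat_lit 4) (nat_lit 8))
    (@En.n l1253 (nat_lit 13705) (nat_lit 6) (nat_lit 14))
    (@En.n l10369 (nat_lit 13932) (nat_lit 6) (nat_lit 4))
    (@En.n l4318 (nat_lit 13409) (nat_lit 7) (nat_lit 6))
    (@En.n l170 (nat_lit 13930) (nat_lit 9) (nat_lit 10))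
    (@En.n l3 (nat_lit 14018) (nat_lit 9) (nat_lit 2))
    (@En.n l3707 (nat_lit 13939) (nat_lit 11) (nat_lit 12))
    (@En.n l968 (nat_lit 13031) (nat_lit 12) (nat_lit 14))
    (@En.i (nat_lit 13835) (nat_lit 13) (nat_lit 8))
    (@En.n l1118 (nat_lit 5226) (nat_lit 10) (nat_lit 10))
    (@En.n l18 (nat_lit 14018) (nat_lit 14) (nat_lit 2))
    (@En.n l50 (nat_lit 14018) (nat_lit 15) (nat_lit 2))))
  (@Cl.mk (nat_lit 0x200020008000d000b000a0003000b000b00050008000600050005000e000e) (nat_lit 0x23430870300012) (nat_lit 16) Lb.e (@T16.mk En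
    (@En.n l5 (nat_lit 14019) (nat_lit 1) (nat_lit 14))
    (@En.n l414 (nat_lit 1600) (nat_lit 1) (nat_lit 14))
    (@En.n l237 (nat_lit 14021) (nat_lit 2) (nat_lit 5))
    (@En.i (nat_lit 14032) (nat_lit 3) (nat_lit 5))
    (@En.n l485 (nat_lit 13318) (nat_lit 4) (nat_lit 6))
    (@En.i (nat_lit 13425) (nat_lit 5) (nat_lit 8))
    (@En.n l414 (nat_lit 13981) (nat_lit 6) (nat_lit 5))
    (@En.n l134 (nat_lit 13402) (nat_lit 8) (nat_lit 11))
    (@En.n l11 (nat_lit 13328) (nat_lit 9) (nat_lit 11))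
    (@En.n l1451 (nat_lit 14005) (nat_lit 9) (nat_lit 3))
    (@En.i (nat_lit 13028) (nat_lit 11) (nat_lit 10))
    (@En.i (nat_lit 14020) (nat_lit 12) (nat_lit 11))
    (@En.n l1452 (nat_lit 14006) (nat_lit 13) (nat_lit 13))
    (@En.i (nat_lit 7836) (nat_lit 14) (nat_lit 8))
    (@En.n l17 (nat_lit 14019) (nat_lit 14) (nat_lit 2))
    (@En.n l18 (nat_lit 14019) (nat_lit 15) (nat_lit 2))))
  (@Cl.mk (nat_lit 0x200020008000b0009000c000a000a000500040008000700060006000e000e) (nat_lit 0x23547600400012) (nat_lit 16) Lb.e (@T16.mk En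
    (@En.n l5 (nat_lit 14020) (nat_lit 1) (nat_lit 14))
    (@En.n l4589 (nat_lit 1601) (nat_lit 1) (nat_lit 14))
    (@En.n l237 (nat_lit 14022) (nat_lit 2) (nat_lit 6))
    (@En.i (nat_lit 14033) (nat_lit 3) (nat_lit 6))
    (@En.n l4590 (nat_lit 14006) (nat_lit 4) (nat_lit 7))
    (@En.n l3 (nat_lit 14019) (nat_lit 5) (nat_lit 8))
    (@En.n l4591 (nat_lit 14005) (nat_lit 6) (nat_lit 4))
    (@En.n l4592 (nat_lit 13980) (nat_lit 7) (nat_lit 5))
    (@En.n l1476 (nat_lit 13401) (nat_lit 9) (nat_lit 10))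
    (@En.n l4590 (nat_lit 13329) (nat_lit 10) (nat_lit 10))
    (@En.n l4593 (nat_lit 13757) (nat_lit 11) (nat_lit 12))
    (@En.i (nat_lit 12894) (nat_lit 12) (nat_lit 9))
    (@En.n l4594 (nat_lit 13552) (nat_lit 13) (nat_lit 11))
    (@En.i (nat_lit 7837) (nat_lit 14) (nat_lit 8))
    (@En.n l17 (nat_lit 14020) (nat_lit 14) (nat_lit 2))
    (@En.n l18 (nat_lit 14020) (nat_lit 15) (nat_lit 2))))
  (@Cl.mk (nat_lit 0x200020007000d000a00090003000e000b00020006000900070005000e000e) (nat_lit 0x4430790020056) (nat_lit 16) Lb.e (@T16.mk En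
    (@En.n l5 (nat_lit 14021) (nat_lit 1) (nat_lit 14))
    (@En.n l309 (nat_lit 3487) (nat_lit 11) (nat_lit 14))
    (@En.i (nat_lit 13054) (nat_lit 2) (nat_lit 5))
    (@En.n l485 (nat_lit 13377) (nat_lit 3) (nat_lit 7))
    (@En.i (nat_lit 14029) (nat_lit 4) (nat_lit 9))
    (@En.n l115 (nat_lit 14030) (nat_lit 5) (nat_lit 6))
    (@En.n l28 (nat_lit 14021) (nat_lit 6) (nat_lit 2))
    (@En.n l77 (nat_lit 14019) (nat_lit 8) (nat_lit 11))
    (@En.n l512 (nat_lit 12962) (nat_lit 9) (nat_lit 14))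
    (@En.n l117 (nat_lit 14023) (nat_lit 9) (nat_lit 3))
    (@En.n l513 (nat_lit 13029) (nat_lit 11) (nat_lit 9))
    (@En.i (nat_lit 14022) (nat_lit 12) (nat_lit 10))
    (@En.i (nat_lit 14024) (nat_lit 13) (nat_lit 13))
    (@En.i (nat_lit 7414) (nat_lit 6) (nat_lit 7))
    (@En.n l17 (nat_lit 14021) (nat_lit 14) (nat_lit 2))
    (@En.n l18 (nat_lit 14021) (nat_lit 15) (nat_lit 2))))
  (@Cl.mk (nat_lit 0x200020007000a0008000b000e000a000200060005000900080006000e000e) (nat_lit 0x3565800034067) (nat_lit 16) Lb.e (@T16.mk En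
    (@En.n l5 (nat_lit 14022) (nat_lit 1) (nat_lit 14))
    (@En.n l1730 (nat_lit 3488) (nat_lit 10) (nat_lit 14))
    (@En.i (nat_lit 13055) (nat_lit 2) (nat_lit 6))
    (@En.n l485 (nat_lit 14024) (nat_lit 3) (nat_lit 8))
    (@En.n l3 (nat_lit 14021) (nat_lit 4) (nat_lit 9))
    (@En.n l3 (nat_lit 14023) (nat_lit 5) (nat_lit 5))
    (@En.n l1731 (nat_lit 14031) (nat_lit 6) (nat_lit 6))
    (@En.n l28 (nat_lit 14022) (nat_lit 7) (nat_lit 2))
    (@En.n l77 (nat_lit 14020) (nat_lit 9) (nat_lit 10))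
    (@En.n l1732 (nat_lit 12961) (nat_lit 10) (nat_lit 14))
    (@En.n l1733 (nat_lit 13749) (nat_lit 11) (nat_lit 11))
    (@En.n l1730 (nat_lit 12897) (nat_lit 12) (nat_lit 8))
    (@En.n l1734 (nat_lit 13551) (nat_lit 13) (nat_lit 10))
    (@En.i (nat_lit 7739) (nat_lit 5) (nat_lit 7))
    (@En.n l17 (nat_lit 14022) (nat_lit 14) (nat_lit 2))
    (@En.n l18 (nat_lit 14022) (nat_lit 15) (nat_lit 2))))
  (@Cl.mk (nat_lit 0x200020007000d0008000b0003000e000b00020005000900080005000e000e) (nat_lit 0x4160690024056) (nat_lit 16) Lb.e (@T16.mk En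
    (@En.n l5 (nat_lit 14023) (nat_lit 1) (nat_lit 14))
    (@En.n l1687 (nat_lit 3492) (nat_lit 11) (nat_lit 14))
    (@En.i (nat_lit 13675) (nat_lit 2) (nat_lit 5))
    (@En.n l1688 (nat_lit 14007) (nat_lit 3) (nat_lit 8))
    (@En.i (nat_lit 14027) (nat_lit 4) (nat_lit 9))
    (@En.n l494 (nat_lit 13483) (nat_lit 5) (nat_lit 5))
    (@En.n l28 (nat_lit 14023) (nat_lit 6) (nat_lit 2))
    (@En.n l1689 (nat_lit 14005) (nat_lit 8) (nat_lit 11))
    (@En.n l1690 (nat_lit 14022) (nat_lit 9) (nat_lit 14))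
    (@En.n l152 (nat_lit 14021) (nat_lit 9) (nat_lit 3))
    (@En.n l1687 (nat_lit 13754) (nat_lit 11) (nat_lit 11))
    (@En.n l97 (nat_lit 946) (nat_lit 12) (nat_lit 8))
    (@En.n l1691 (nat_lit 14009) (nat_lit 13) (nat_lit 13))
    (@En.i (nat_lit 7415) (nat_lit 6) (nat_lit 7))
    (@En.n l17 (nat_lit 14023) (nat_lit 14) (nat_lit 2))
    (@En.n l18 (nat_lit 14023) (nat_lit 15) (nat_lit 2))))
  (@Cl.mk (nat_lit 0x20002000d000900080003000b000e000b00020007000500080005000e000e) (nat_lit 0x33507890003056) (nat_lit 16) Lb.e (@T16.mk En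
    (@En.n l5 (nat_lit 14024) (nat_lit 1) (nat_lit 14))
    (@En.n l1665 (nat_lit 3494) (nat_lit 11) (nat_lit 14))
    (@En.i (nat_lit 14011) (nat_lit 2) (nat_lit 5))
    (@En.n l1666 (nat_lit 13450) (nat_lit 3) (nat_lit 8))
    (@En.i (nat_lit 14007) (nat_lit 4) (nat_lit 5))
    (@En.n l115 (nat_lit 14008) (nat_lit 5) (nat_lit 7))
    (@En.n l28 (nat_lit 14024) (nat_lit 6) (nat_lit 2))
    (@En.n l1667 (nat_lit 14006) (nat_lit 8) (nat_lit 11))
    (@En.n l1668 (nat_lit 13215) (nat_lit 9) (nat_lit 14))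
    (@En.n l152 (nat_lit 14022) (nat_lit 10) (nat_lit 11))
    (@En.n l1669 (nat_lit 14009) (nat_lit 10) (nat_lit 3))
    (@En.n l1668 (nat_lit 12898) (nat_lit 12) (nat_lit 8))
    (@En.n l1670 (nat_lit 13549) (nat_lit 13) (nat_lit 9))
    (@En.n l1671 (nat_lit 6776) (nat_lit 7) (nat_lit 13))
    (@En.n l17 (nat_lit 14024) (nat_lit 14) (nat_lit 2))
    (@En.n l18 (nat_lit 14024) (nat_lit 15) (nat_lit 2))))
  (@Cl.mk (nat_lit 0x20002000c0007000d000a00040003000e000c0002000600090004000e000e) (nat_lit 0x3044008a003045) (nat_lit 16) Lb.e (@T16.mk En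
    (@En.n l5 (nat_lit 14025) (nat_lit 1) (nat_lit 14))
    (@En.n l1698 (nat_lit 3511) (nat_lit 12) (nat_lit 14))
    (@En.n l1428 (nat_lit 13991) (nat_lit 2) (nat_lit 4))
    (@En.i (nat_lit 13038) (nat_lit 3) (nat_lit 9))
    (@En.n l115 (nat_lit 13863) (nat_lit 4) (nat_lit 6))
    (@En.n l28 (nat_lit 14025) (nat_lit 5) (nat_lit 2))
    (@En.n l1699 (nat_lit 13406) (nat_lit 7) (nat_lit 12))
    (@En.n l1700 (nat_lit 13090) (nat_lit 8) (nat_lit 14))
    (@En.n l1701 (nat_lit 14026) (nat_lit 8) (nat_lit 3))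
    (@En.n l12 (nat_lit 13450) (nat_lit 9) (nat_lit 4))
    (@En.n l1702 (nat_lit 14009) (nat_lit 11) (nat_lit 10))
    (@En.n l1703 (nat_lit 13452) (nat_lit 12) (nat_lit 13))
    (@En.i (nat_lit 14021) (nat_lit 13) (nat_lit 7))
    (@En.n l1704 (nat_lit 6782) (nat_lit 8) (nat_lit 12))
    (@En.n l17 (nat_lit 14025) (nat_lit 14) (nat_lit 2))
    (@En.n l18 (nat_lit 14025) (nat_lit 15) (nat_lit 2))))
  (@Cl.mk (nat_lit 0x20002000d0007000d0003000b0003000e000c0002000500090004000e000e) (nat_lit 0x3030609a002045) (nat_lit 16) Lb.e (@T16.mk En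
    (@En.n l97 (nat_lit 14026) (nat_lit 1) (nat_lit 14))
    (@En.n l1692 (nat_lit 3509) (nat_lit 12) (nat_lit 14))
    (@En.n l61 (nat_lit 13990) (nat_lit 2) (nat_lit 4))
    (@En.n l1693 (nat_lit 13039) (nat_lit 3) (nat_lit 9))
    (@En.n l1694 (nat_lit 13480) (nat_lit 4) (nat_lit 5))
    (@En.n l17 (nat_lit 14026) (nat_lit 5) (nat_lit 2))
    (@En.n l61 (nat_lit 14003) (nat_lit 7) (nat_lit 12))
    (@En.n l1695 (nat_lit 14009) (nat_lit 8) (nat_lit 14))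
    (@En.n l1696 (nat_lit 14025) (nat_lit 8) (nat_lit 3))
    (@En.n l1697 (nat_lit 13748) (nat_lit 10) (nat_lit 11))
    (@En.n l1429 (nat_lit 14007) (nat_lit 10) (nat_lit 3))
    (@En.n l1694 (nat_lit 13456) (nat_lit 12) (nat_lit 13))
    (@En.n l1693 (nat_lit 14023) (nat_lit 13) (nat_lit 7))
    (@En.n l1697 (nat_lit 6781) (nat_lit 8) (nat_lit 13))
    (@En.n l107 (nat_lit 14026) (nat_lit 14) (nat_lit 2))
    (@En.n l3 (nat_lit 14026) (nat_lit 15) (nat_lit 2))))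
  (@Cl.mk (nat_lit 0x200020007000d000d000900030003000e000c0002000900070004000e000e) (nat_lit 0x454008a010023) (nat_lit 16) Lb.e (@T16.mk En
    (@En.n l5 (nat_lit 14027) (nat_lit 1) (nat_lit 14))
    (@En.i (nat_lit 3224) (nat_lit 1) (nat_lit 14))
    (@En.i (nat_lit 13434) (nat_lit 2) (nat_lit 4))
    (@En.i (nat_lit 13034) (nat_lit 3) (nat_lit 7))
    (@En.n l475 (nat_lit 274) (nat_lit 4) (nat_lit 9))
    (@En.n l28 (nat_lit 14027) (nat_lit 5) (nat_lit 2))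
    (@En.n l77 (nat_lit 13426) (nat_lit 7) (nat_lit 12))
    (@En.n l476 (nat_lit 14021) (nat_lit 8) (nat_lit 14))
    (@En.n l152 (nat_lit 14029) (nat_lit 8) (nat_lit 3))
    (@En.n l146 (nat_lit 14028) (nat_lit 9) (nat_lit 3))
    (@En.n l97 (nat_lit 13463) (nat_lit 11) (nat_lit 9))
    (@En.n l148 (nat_lit 14028) (nat_lit 12) (nat_lit 13))
    (@En.i (nat_lit 14007) (nat_lit 13) (nat_lit 13))
    (@En.i (nat_lit 866) (nat_lit 14) (nat_lit 7))
    (@En.n l17 (nat_lit 14027) (nat_lit 14) (nat_lit 2))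
    (@En.n l18 (nat_lit 14027) (nat_lit 15) (nat_lit 2))))
  (@Cl.mk (nat_lit 0x200020007000d0008000e00030002000e000c0002000900080004000e000e) (nat_lit 0x4650079033023) (nat_lit 16) Lb.e (@T16.mk En
    (@En.n l134 (nat_lit 14028) (nat_lit 1) (nat_lit 14))
    (@En.n l565 (nat_lit 3524) (nat_lit 1) (nat_lit 14))
    (@En.n l4112 (nat_lit 13677) (nat_lit 2) (nat_lit 4))
    (@En.i (nat_lit 13078) (nat_lit 3) (nat_lit 8))
    (@En.n l561 (nat_lit 13508) (nat_lit 4) (nat_lit 9))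
    (@En.n l3 (nat_lit 14028) (nat_lit 5) (nat_lit 2))
    (@En.n l5132 (nat_lit 13428) (nat_lit 7) (nat_lit 12))
    (@En.n l562 (nat_lit 14023) (nat_lit 8) (nat_lit 14))
    (@En.n l17 (nat_lit 14028) (nat_lit 8) (nat_lit 2))
    (@En.n l137 (nat_lit 14027) (nat_lit 9) (nat_lit 3))
    (@En.n l561 (nat_lit 14073) (nat_lit 11) (nat_lit 14))
    (@En.n l4112 (nat_lit 12907) (nat_lit 12) (nat_lit 8))
    (@En.n l5133 (nat_lit 14026) (nat_lit 13) (nat_lit 13))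
    (@En.n l564 (nat_lit 870) (nat_lit 14) (nat_lit 7))
    (@En.n l7 (nat_lit 14028) (nat_lit 14) (nat_lit 2))
    (@En.n l28 (nat_lit 14028) (nat_lit 15) (nat_lit 2))))
  (@Cl.mk (nat_lit 0x200020007000e000d0002000a0003000e000c0002000900060004000e000e) (nat_lit 0x3507098010023) (nat_lit 16) Lb.e (@T16.mk En
    (@En.n l5 (nat_lit 14029) (nat_lit 1) (nat_lit 14))
    (@En.i (nat_lit 3225) (nat_lit 1) (nat_lit 14))
    (@En.i (nat_lit 13682) (nat_lit 2) (nat_lit 4))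
    (@En.i (nat_lit 13032) (nat_lit 3) (nat_lit 6))
    (@En.n l175 (nat_lit 275) (nat_lit 4) (nat_lit 9))
    (@En.n l28 (nat_lit 14029) (nat_lit 5) (nat_lit 2))
    (@En.n l77 (nat_lit 13425) (nat_lit 7) (nat_lit 12))
    (@En.n l175 (nat_lit 12963) (nat_lit 8) (nat_lit 14))
    (@En.n l117 (nat_lit 14027) (nat_lit 8) (nat_lit 3))
    (@En.i (nat_lit 13550) (nat_lit 10) (nat_lit 10))
    (@En.n l3 (nat_lit 14029) (nat_lit 10) (nat_lit 2))
    (@En.i (nat_lit 14027) (nat_lit 12) (nat_lit 13))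
    (@En.i (nat_lit 13378) (nat_lit 13) (nat_lit 14))
    (@En.i (nat_lit 868) (nat_lit 14) (nat_lit 7))
    (@En.n l17 (nat_lit 14029) (nat_lit 14) (nat_lit 2))
    (@En.n l18 (nat_lit 14029) (nat_lit 15) (nat_lit 2))))
  (@Cl.mk (nat_lit 0x200020007000c000a000d000a00040003000c0006000900060004000e000e) (nat_lit 0x2464008040012) (nat_lit 16) Lb.e (@T16.mk En
    (@En.n l5 (nat_lit 14030) (nat_lit 1) (nat_lit 14))
    (@En.n l420 (nat_lit 2949) (nat_lit 1) (nat_lit 14))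
    (@En.n l7 (nat_lit 13674) (nat_lit 2) (nat_lit 4))
    (@En.n l1518 (nat_lit 13315) (nat_lit 3) (nat_lit 6))
    (@En.i (nat_lit 13432) (nat_lit 4) (nat_lit 9))
    (@En.n l591 (nat_lit 14035) (nat_lit 5) (nat_lit 6))
    (@En.n l287 (nat_lit 13981) (nat_lit 7) (nat_lit 12))
    (@En.n l11 (nat_lit 14032) (nat_lit 7) (nat_lit 3))
    (@En.i (nat_lit 13483) (nat_lit 8) (nat_lit 4))
    (@En.i (nat_lit 14019) (nat_lit 10) (nat_lit 10))
    (@En.n l129 (nat_lit 14027) (nat_lit 11) (nat_lit 13))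
    (@En.n l1519 (nat_lit 14031) (nat_lit 12) (nat_lit 10))
    (@En.i (nat_lit 14008) (nat_lit 13) (nat_lit 12))
    (@En.i (nat_lit 7857) (nat_lit 14) (nat_lit 7))
    (@En.n l17 (nat_lit 14030) (nat_lit 14) (nat_lit 2))
    (@En.n l18 (nat_lit 14030) (nat_lit 15) (nat_lit 2))))
  (@Cl.mk (nat_lit 0x200020007000a000d0009000c0003000b00060004000900070005000e000e) (nat_lit 0x35670700500bc) (nat_lit 16) Lb.e (@T16.mk En
    (@En.n l5 (nat_lit 14031) (nat_lit 1) (nat_lit 14))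
    (@En.n l1643 (nat_lit 7234) (nat_lit 1) (nat_lit 14))
    (@En.n l97 (nat_lit 13658) (nat_lit 2) (nat_lit 5))
    (@En.n l4753 (nat_lit 14008) (nat_lit 3) (nat_lit 7))
    (@En.n l1866 (nat_lit 14030) (nat_lit 4) (nat_lit 9))
    (@En.n l1866 (nat_lit 13877) (nat_lit 5) (nat_lit 4))
    (@En.n l476 (nat_lit 14037) (nat_lit 6) (nat_lit 6))
    (@En.n l4754 (nat_lit 13980) (nat_lit 8) (nat_lit 11))
    (@En.n l4755 (nat_lit 14033) (nat_lit 8) (nat_lit 3))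
    (@En.n l1643 (nat_lit 13015) (nat_lit 10) (nat_lit 12))
    (@En.n l4756 (nat_lit 14020) (nat_lit 11) (nat_lit 9))
    (@En.n l4757 (nat_lit 14023) (nat_lit 12) (nat_lit 13))
    (@En.n l4758 (nat_lit 13539) (nat_lit 13) (nat_lit 10))
    (@En.i (nat_lit 7850) (nat_lit 14) (nat_lit 7))
    (@En.n l17 (nat_lit 14031) (nat_lit 14) (nat_lit 2))
    (@En.n l18 (nat_lit 14031) (nat_lit 15) (nat_lit 2))))
noncomputable def a877 : T16 Cl := @T16.mk Cl
  (@Cl.mk (nat_lit 0x200020007000d000a000d0003000b0003000c0006000900050004000e000e) (nat_lit 0x4460809040012) (nat_lit 16) Lb.e (@T16.mk En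
    (@En.n l5 (nat_lit 14032) (nat_lit 1) (nat_lit 14))
    (@En.n l420 (nat_lit 2944) (nat_lit 1) (nat_lit 14))
    (@En.n l7 (nat_lit 13057) (nat_lit 2) (nat_lit 4))
    (@En.i (nat_lit 13855) (nat_lit 3) (nat_lit 5))
    (@En.i (nat_lit 13430) (nat_lit 4) (nat_lit 9))
    (@En.n l420 (nat_lit 14034) (nat_lit 5) (nat_lit 6))
    (@En.i (nat_lit 13132) (nat_lit 7) (nat_lit 12))
    (@En.i (nat_lit 14030) (nat_lit 7) (nat_lit 3))
    (@En.i (nat_lit 13325) (nat_lit 9) (nat_lit 11))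
    (@En.n l117 (nat_lit 13878) (nat_lit 9) (nat_lit 3))
    (@En.n l158 (nat_lit 14029) (nat_lit 11) (nat_lit 13))
    (@En.i (nat_lit 14033) (nat_lit 12) (nat_lit 10))
    (@En.i (nat_lit 13365) (nat_lit 13) (nat_lit 13))
    (@En.i (nat_lit 7854) (nat_lit 14) (nat_lit 7))
    (@En.n l17 (nat_lit 14032) (nat_lit 14) (nat_lit 2))
    (@En.n l18 (nat_lit 14032) (nat_lit 15) (nat_lit 2))))
  (@Cl.mk (nat_lit 0x200020007000a000d000b000a0003000b00060005000900060005000e000e) (nat_lit 0x3567080050067) (nat_lit 16) Lb.e (@T16.mk En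
    (@En.n l5 (nat_lit 14033) (nat_lit 1) (nat_lit 14))
    (@En.n l4589 (nat_lit 2948) (nat_lit 1) (nat_lit 14))
    (@En.n l7 (nat_lit 13056) (nat_lit 2) (nat_lit 5))
    (@En.n l4591 (nat_lit 13854) (nat_lit 3) (nat_lit 6))
    (@En.n l3 (nat_lit 14032) (nat_lit 4) (nat_lit 9))
    (@En.n l3 (nat_lit 13878) (nat_lit 5) (nat_lit 5))
    (@En.n l4592 (nat_lit 14036) (nat_lit 6) (nat_lit 6))
    (@En.n l4589 (nat_lit 13134) (nat_lit 8) (nat_lit 11))
    (@En.n l1519 (nat_lit 14031) (nat_lit 8) (nat_lit 3))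
    (@En.n l4851 (nat_lit 13326) (nat_lit 10) (nat_lit 10))
    (@En.n l4593 (nat_lit 13490) (nat_lit 11) (nat_lit 11))
    (@En.n l1472 (nat_lit 14021) (nat_lit 12) (nat_lit 13))
    (@En.i (nat_lit 13541) (nat_lit 13) (nat_lit 10))
    (@En.i (nat_lit 7852) (nat_lit 14) (nat_lit 7))
    (@En.n l17 (nat_lit 14033) (nat_lit 14) (nat_lit 2))
    (@En.n l18 (nat_lit 14033) (nat_lit 15) (nat_lit 2))))
  (@Cl.mk (nat_lit 0x200020007000c000a0008000d0004000c00030006000900040008000e000e) (nat_lit 0x435709002019a) (nat_lit 16) Lb.e (@T16.mk En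
    (@En.n l396 (nat_lit 14034) (nat_lit 1) (nat_lit 14))
    (@En.i (nat_lit 7264) (nat_lit 1) (nat_lit 14))
    (@En.n l11861 (nat_lit 661) (nat_lit 2) (nat_lit 8))
    (@En.i (nat_lit 13856) (nat_lit 3) (nat_lit 4))
    (@En.i (nat_lit 13837) (nat_lit 4) (nat_lit 9))
    (@En.n l1081 (nat_lit 13267) (nat_lit 5) (nat_lit 6))
    (@En.n l1080 (nat_lit 14035) (nat_lit 6) (nat_lit 3))
    (@En.n l7645 (nat_lit 13324) (nat_lit 8) (nat_lit 12))
    (@En.n l6610 (nat_lit 13330) (nat_lit 8) (nat_lit 4))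
    (@En.n l387 (nat_lit 14032) (nat_lit 10) (nat_lit 13))
    (@En.n l699 (nat_lit 13307) (nat_lit 11) (nat_lit 8))
    (@En.n l2642 (nat_lit 14036) (nat_lit 12) (nat_lit 10))
    (@En.n l1003 (nat_lit 13357) (nat_lit 13) (nat_lit 12))
    (@En.i (nat_lit 7859) (nat_lit 14) (nat_lit 7))
    (@En.n l18 (nat_lit 14034) (nat_lit 14) (nat_lit 2))
    (@En.n l50 (nat_lit 14034) (nat_lit 15) (nat_lit 2))))
  (@Cl.mk (nat_lit 0x200020007000b000a0008000d000b000500030006000900050008000e000e) (nat_lit 0x3547800020556) (nat_lit 16) Lb.e (@T16.mk En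
    (@En.n l601 (nat_lit 14035) (nat_lit 1) (nat_lit 14))
    (@En.i (nat_lit 7262) (nat_lit 1) (nat_lit 14))
    (@En.n l1897 (nat_lit 13813) (nat_lit 2) (nat_lit 8))
    (@En.n l4658 (nat_lit 13317) (nat_lit 3) (nat_lit 5))
    (@En.n l3530 (nat_lit 13836) (nat_lit 4) (nat_lit 9))
    (@En.i (nat_lit 12878) (nat_lit 5) (nat_lit 6))
    (@En.n l4659 (nat_lit 14034) (nat_lit 6) (nat_lit 3))
    (@En.n l4660 (nat_lit 13484) (nat_lit 7) (nat_lit 5))
    (@En.n l1767 (nat_lit 13981) (nat_lit 9) (nat_lit 11))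
    (@En.n l4661 (nat_lit 14030) (nat_lit 10) (nat_lit 13))
    (@En.n l3395 (nat_lit 13308) (nat_lit 11) (nat_lit 8))
    (@En.n l4662 (nat_lit 14037) (nat_lit 12) (nat_lit 10))
    (@En.n l4663 (nat_lit 14038) (nat_lit 13) (nat_lit 11))
    (@En.i (nat_lit 7847) (nat_lit 14) (nat_lit 7))
    (@En.n l50 (nat_lit 14035) (nat_lit 14) (nat_lit 2))
    (@En.n l7 (nat_lit 14035) (nat_lit 15) (nat_lit 2))))
  (@Cl.mk (nat_lit 0x200020007000a0007000d000c000b000300060004000900050009000e000e) (nat_lit 0x20668000307bc) (nat_lit 16) Lb.e (@T16.mk En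
    (@En.n l601 (nat_lit 14036) (nat_lit 1) (nat_lit 14))
    (@En.i (nat_lit 7265) (nat_lit 1) (nat_lit 14))
    (@En.n l649 (nat_lit 13809) (nat_lit 2) (nat_lit 9))
    (@En.i (nat_lit 13853) (nat_lit 3) (nat_lit 5))
    (@En.n l899 (nat_lit 14034) (nat_lit 4) (nat_lit 9))
    (@En.i (nat_lit 13334) (nat_lit 5) (nat_lit 4))
    (@En.i (nat_lit 13264) (nat_lit 6) (nat_lit 6))
    (@En.n l12587 (nat_lit 14037) (nat_lit 7) (nat_lit 3))
    (@En.n l619 (nat_lit 13293) (nat_lit 9) (nat_lit 11))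
    (@En.n l3866 (nat_lit 14040) (nat_lit 10) (nat_lit 12))
    (@En.n l12585 (nat_lit 14033) (nat_lit 11) (nat_lit 13))
    (@En.n l4818 (nat_lit 13337) (nat_lit 12) (nat_lit 7))
    (@En.n l226 (nat_lit 13345) (nat_lit 13) (nat_lit 10))
    (@En.i (nat_lit 7853) (nat_lit 14) (nat_lit 7))
    (@En.n l50 (nat_lit 14036) (nat_lit 14) (nat_lit 2))
    (@En.n l7 (nat_lit 14036) (nat_lit 15) (nat_lit 2))))
  (@Cl.mk (nat_lit 0x200020007000a0007000d000a000d000300060003000900060009000e000e) (nat_lit 0x40658000306bc) (nat_lit 16) Lb.e (@T16.mk En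
    (@En.n l5 (nat_lit 14037) (nat_lit 1) (nat_lit 14))
    (@En.n l1643 (nat_lit 7228) (nat_lit 1) (nat_lit 14))
    (@En.n l1998 (nat_lit 13812) (nat_lit 2) (nat_lit 9))
    (@En.n l12277 (nat_lit 14038) (nat_lit 3) (nat_lit 6))
    (@En.n l2903 (nat_lit 14035) (nat_lit 4) (nat_lit 9))
    (@En.n l678 (nat_lit 14040) (nat_lit 5) (nat_lit 3))
    (@En.n l1889 (nat_lit 12877) (nat_lit 6) (nat_lit 6))
    (@En.n l12278 (nat_lit 14036) (nat_lit 7) (nat_lit 3))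
    (@En.n l1504 (nat_lit 13013) (nat_lit 9) (nat_lit 13))
    (@En.n l12279 (nat_lit 13980) (nat_lit 10) (nat_lit 10))
    (@En.i (nat_lit 14031) (nat_lit 11) (nat_lit 13))
    (@En.n l1504 (nat_lit 13882) (nat_lit 12) (nat_lit 7))
    (@En.n l1997 (nat_lit 13347) (nat_lit 13) (nat_lit 10))
    (@En.n l1998 (nat_lit 7846) (nat_lit 14) (nat_lit 7))
    (@En.n l17 (nat_lit 14037) (nat_lit 14) (nat_lit 2))
    (@En.n l18 (nat_lit 14037) (nat_lit 15) (nat_lit 2))))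
  (@Cl.mk (nat_lit 0x20002000b00090007000c000a0005000d00040007000300060009000e000e) (nat_lit 0x24067090000656) (nat_lit 16) Lb.e (@T16.mk En
    (@En.n l97 (nat_lit 14038) (nat_lit 1) (nat_lit 14))
    (@En.n l12280 (nat_lit 7233) (nat_lit 1) (nat_lit 14))
    (@En.i (nat_lit 13842) (nat_lit 2) (nat_lit 9))
    (@En.n l12281 (nat_lit 13323) (nat_lit 3) (nat_lit 6))
    (@En.n l12282 (nat_lit 14039) (nat_lit 4) (nat_lit 3))
    (@En.n l18 (nat_lit 12876) (nat_lit 5) (nat_lit 7))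
    (@En.n l12283 (nat_lit 13853) (nat_lit 6) (nat_lit 4))
    (@En.n l12284 (nat_lit 14037) (nat_lit 8) (nat_lit 13))
    (@En.n l12285 (nat_lit 13862) (nat_lit 8) (nat_lit 5))
    (@En.n l12286 (nat_lit 13978) (nat_lit 10) (nat_lit 10))
    (@En.n l12287 (nat_lit 14008) (nat_lit 11) (nat_lit 12))
    (@En.n l12288 (nat_lit 13881) (nat_lit 12) (nat_lit 7))
    (@En.i (nat_lit 13346) (nat_lit 13) (nat_lit 9))
    (@En.n l11911 (nat_lit 6820) (nat_lit 14) (nat_lit 11))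
    (@En.n l107 (nat_lit 14038) (nat_lit 14) (nat_lit 2))
    (@En.n l3 (nat_lit 14038) (nat_lit 15) (nat_lit 2))))
  (@Cl.mk (nat_lit 0x20002000b000a0007000b000a0005000d00060005000300060009000e000e) (nat_lit 0x2404708000069a) (nat_lit 16) Lb.e (@T16.mk En
    (@En.n l97 (nat_lit 14039) (nat_lit 1) (nat_lit 14))
    (@En.n l17 (nat_lit 7374) (nat_lit 1) (nat_lit 14))
    (@En.n l4803 (nat_lit 13843) (nat_lit 2) (nat_lit 9))
    (@En.n l25509 (nat_lit 13383) (nat_lit 3) (nat_lit 6))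
    (@En.n l4803 (nat_lit 14038) (nat_lit 4) (nat_lit 3))
    (@En.n l2378 (nat_lit 13955) (nat_lit 5) (nat_lit 5))
    (@En.n l11761 (nat_lit 13317) (nat_lit 6) (nat_lit 6))
    (@En.n l25510 (nat_lit 14040) (nat_lit 8) (nat_lit 13))
    (@En.n l28 (nat_lit 13865) (nat_lit 8) (nat_lit 5))
    (@En.n l17 (nat_lit 13976) (nat_lit 10) (nat_lit 10))
    (@En.i (nat_lit 13487) (nat_lit 11) (nat_lit 11))
    (@En.n l11761 (nat_lit 13880) (nat_lit 12) (nat_lit 7))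
    (@En.n l77 (nat_lit 13167) (nat_lit 13) (nat_lit 10))
    (@En.n l18864 (nat_lit 6842) (nat_lit 14) (nat_lit 11))
    (@En.n l107 (nat_lit 14039) (nat_lit 14) (nat_lit 2))
    (@En.n l3 (nat_lit 14039) (nat_lit 15) (nat_lit 2))))
  (@Cl.mk (nat_lit 0x200020007000b0007000c000a000d000500040003000900060009000e000e) (nat_lit 0x40577000206bc) (nat_lit 16) Lb.e (@T16.mk En
    (@En.n l1578 (nat_lit 14040) (nat_lit 1) (nat_lit 14))
    (@En.i (nat_lit 7223) (nat_lit 1) (nat_lit 14))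
    (@En.n l2921 (nat_lit 13811) (nat_lit 2) (nat_lit 9))
    (@En.n l23501 (nat_lit 14039) (nat_lit 3) (nat_lit 6))
    (@En.n l4991 (nat_lit 13831) (nat_lit 4) (nat_lit 9))
    (@En.n l5685 (nat_lit 14037) (nat_lit 5) (nat_lit 3))
    (@En.n l18 (nat_lit 13957) (nat_lit 6) (nat_lit 4))
    (@En.n l6081 (nat_lit 14035) (nat_lit 7) (nat_lit 5))
    (@En.i (nat_lit 13009) (nat_lit 9) (nat_lit 13))
    (@En.n l61 (nat_lit 13979) (nat_lit 10) (nat_lit 10))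
    (@En.n l4991 (nat_lit 13877) (nat_lit 11) (nat_lit 12))
    (@En.n l892 (nat_lit 13883) (nat_lit 12) (nat_lit 7))
    (@En.n l25503 (nat_lit 13168) (nat_lit 13) (nat_lit 11))
    (@En.i (nat_lit 7849) (nat_lit 14) (nat_lit 7))
    (@En.n l28 (nat_lit 14040) (nat_lit 14) (nat_lit 2))
    (@En.n l11 (nat_lit 14040) (nat_lit 15) (nat_lit 2))))
  (@Cl.mk (nat_lit 0x20002000b0007000a000a000e00050002000c0006000600090004000e000e) (nat_lit 0x104560060000bc) (nat_lit 16) Lb.e (@T16.mk En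
    (@En.n l5 (nat_lit 14041) (nat_lit 1) (nat_lit 14))
    (@En.n l8874 (nat_lit 5919) (nat_lit 1) (nat_lit 14))
    (@En.i (nat_lit 13713) (nat_lit 2) (nat_lit 4))
    (@En.n l476 (nat_lit 14043) (nat_lit 3) (nat_lit 9))
    (@En.n l152 (nat_lit 14043) (nat_lit 4) (nat_lit 6))
    (@En.n l8874 (nat_lit 13779) (nat_lit 5) (nat_lit 6))
    (@En.n l3766 (nat_lit 12939) (nat_lit 7) (nat_lit 12))
    (@En.n l11 (nat_lit 14041) (nat_lit 7) (nat_lit 2))
    (@En.n l25633 (nat_lit 14044) (nat_lit 8) (nat_lit 5))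
    (@En.n l2038 (nat_lit 13438) (nat_lit 10) (nat_lit 14))
    (@En.n l25634 (nat_lit 14042) (nat_lit 11) (nat_lit 10))
    (@En.n l25635 (nat_lit 13476) (nat_lit 12) (nat_lit 10))
    (@En.i (nat_lit 12967) (nat_lit 13) (nat_lit 7))
    (@En.n l25636 (nat_lit 1290) (nat_lit 14) (nat_lit 11))
    (@En.n l17 (nat_lit 14041) (nat_lit 14) (nat_lit 2))
    (@En.n l18 (nat_lit 14041) (nat_lit 15) (nat_lit 2))))
  (@Cl.mk (nat_lit 0x20002000c0007000a000e00040002000b000e0006000200090005000e000e) (nat_lit 0x10460058001078) (nat_lit 16) Lb.e (@T16.mk En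
    (@En.n l97 (nat_lit 14042) (nat_lit 1) (nat_lit 14))
    (@En.i (nat_lit 5921) (nat_lit 1) (nat_lit 14))
    (@En.n l21009 (nat_lit 13476) (nat_lit 2) (nat_lit 5))
    (@En.n l25449 (nat_lit 14041) (nat_lit 3) (nat_lit 9))
    (@En.n l18 (nat_lit 14042) (nat_lit 4) (nat_lit 2))
    (@En.n l25450 (nat_lit 14041) (nat_lit 5) (nat_lit 6))
    (@En.n l25451 (nat_lit 13244) (nat_lit 7) (nat_lit 14))
    (@En.n l564 (nat_lit 12941) (nat_lit 8) (nat_lit 11))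
    (@En.n l7 (nat_lit 14042) (nat_lit 8) (nat_lit 2))
    (@En.n l28 (nat_lit 14045) (nat_lit 9) (nat_lit 4))
    (@En.n l7690 (nat_lit 13443) (nat_lit 11) (nat_lit 14))
    (@En.i (nat_lit 13465) (nat_lit 12) (nat_lit 10))
    (@En.n l25452 (nat_lit 12973) (nat_lit 13) (nat_lit 7))
    (@En.n l11854 (nat_lit 1289) (nat_lit 9) (nat_lit 12))
    (@En.n l107 (nat_lit 14042) (nat_lit 14) (nat_lit 2))
    (@En.n l3 (nat_lit 14042) (nat_lit 15) (nat_lit 2))))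
  (@Cl.mk (nat_lit 0x20002000a0007000e000a0002000e00060002000d000600090003000e000e) (nat_lit 0x105508007070bc) (nat_lit 16) Lb.e (@T16.mk En
    (@En.n l5 (nat_lit 14043) (nat_lit 1) (nat_lit 14))
    (@En.n l2669 (nat_lit 5926) (nat_lit 1) (nat_lit 14))
    (@En.i (nat_lit 13712) (nat_lit 2) (nat_lit 3))
    (@En.n l2680 (nat_lit 14081) (nat_lit 3) (nat_lit 9))
    (@En.n l1599 (nat_lit 13780) (nat_lit 4) (nat_lit 6))
    (@En.n l3766 (nat_lit 12940) (nat_lit 6) (nat_lit 13))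
    (@En.n l11 (nat_lit 14043) (nat_lit 6) (nat_lit 2))
    (@En.n l11947 (nat_lit 13770) (nat_lit 7) (nat_lit 6))
    (@En.n l4569 (nat_lit 13437) (nat_lit 9) (nat_lit 14))
    (@En.n l3 (nat_lit 14043) (nat_lit 9) (nat_lit 2))
    (@En.i (nat_lit 14041) (nat_lit 11) (nat_lit 10))
    (@En.i (nat_lit 13711) (nat_lit 12) (nat_lit 14))
    (@En.i (nat_lit 14067) (nat_lit 13) (nat_lit 7))
    (@En.i (nat_lit 1296) (nat_lit 14) (nat_lit 10))
    (@En.n l17 (nat_lit 14043) (nat_lit 14) (nat_lit 2))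
    (@En.n l18 (nat_lit 14043) (nat_lit 15) (nat_lit 2))))
  (@Cl.mk (nat_lit 0x20002000b000b0008000b000b00050005000c0005000500080004000e000e) (nat_lit 0x124550050030ab) (nat_lit 16) Lb.e (@T16.mk En
    (@En.n l5 (nat_lit 14044) (nat_lit 1) (nat_lit 14))
    (@En.n l12670 (nat_lit 5874) (nat_lit 1) (nat_lit 14))
    (@En.n l25652 (nat_lit 13715) (nat_lit 2) (nat_lit 4))
    (@En.n l1791 (nat_lit 13770) (nat_lit 3) (nat_lit 8))
    (@En.n l25653 (nat_lit 13770) (nat_lit 4) (nat_lit 5))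
    (@En.n l12259 (nat_lit 13788) (nat_lit 5) (nat_lit 5))
    (@En.n l12720 (nat_lit 13580) (nat_lit 7) (nat_lit 12))
    (@En.n l12334 (nat_lit 12833) (nat_lit 7) (nat_lit 5))
    (@En.i (nat_lit 14012) (nat_lit 8) (nat_lit 5))
    (@En.n l25654 (nat_lit 14045) (nat_lit 10) (nat_lit 11))
    (@En.n l12670 (nat_lit 13475) (nat_lit 11) (nat_lit 11))
    (@En.n l25655 (nat_lit 13093) (nat_lit 12) (nat_lit 8))
    (@En.n l25656 (nat_lit 14041) (nat_lit 13) (nat_lit 11))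
    (@En.n l25657 (nat_lit 1705) (nat_lit 14) (nat_lit 11))
    (@En.n l17 (nat_lit 14044) (nat_lit 14) (nat_lit 2))
    (@En.n l18 (nat_lit 14044) (nat_lit 15) (nat_lit 2))))
  (@Cl.mk (nat_lit 0x20002000c000c0008000b00040004000b000e0005000200080005000e000e) (nat_lit 0x123400480040ab) (nat_lit 16) Lb.e (@T16.mk En
    (@En.n l97 (nat_lit 14045) (nat_lit 1) (nat_lit 14))
    (@En.i (nat_lit 5918) (nat_lit 1) (nat_lit 14))
    (@En.n l18840 (nat_lit 13475) (nat_lit 2) (nat_lit 5))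
    (@En.n l20155 (nat_lit 14044) (nat_lit 3) (nat_lit 8))
    (@En.n l18 (nat_lit 14045) (nat_lit 4) (nat_lit 2))
    (@En.n l27104 (nat_lit 14044) (nat_lit 5) (nat_lit 5))
    (@En.n l8122 (nat_lit 13243) (nat_lit 7) (nat_lit 14))
    (@En.n l564 (nat_lit 13127) (nat_lit 8) (nat_lit 11))
    (@En.n l7 (nat_lit 14046) (nat_lit 8) (nat_lit 4))
    (@En.n l10316 (nat_lit 13931) (nat_lit 9) (nat_lit 4))
    (@En.i (nat_lit 13469) (nat_lit 11) (nat_lit 11))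
    (@En.n l8122 (nat_lit 13213) (nat_lit 12) (nat_lit 8))
    (@En.n l134 (nat_lit 14042) (nat_lit 13) (nat_lit 12))
    (@En.n l5951 (nat_lit 1709) (nat_lit 9) (nat_lit 12))
    (@En.n l107 (nat_lit 14045) (nat_lit 14) (nat_lit 2))
    (@En.n l3 (nat_lit 14045) (nat_lit 15) (nat_lit 2))))
  (@Cl.mk (nat_lit 0x20002000e000c00020009000c0004000b000e0004000200070005000e000e) (nat_lit 0x620460180000ab) (nat_lit 16) Lb.e (@T16.mk En
    (@En.n l97 (nat_lit 14046) (nat_lit 1) (nat_lit 14))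
    (@En.i (nat_lit 5864) (nat_lit 13) (nat_lit 14))
    (@En.n l2593 (nat_lit 14047) (nat_lit 2) (nat_lit 5))
    (@En.n l1738 (nat_lit 12833) (nat_lit 3) (nat_lit 7))
    (@En.n l18 (nat_lit 14046) (nat_lit 4) (nat_lit 2))
    (@En.i (nat_lit 12833) (nat_lit 5) (nat_lit 4))
    (@En.n l2031 (nat_lit 13242) (nat_lit 7) (nat_lit 14))
    (@En.i (nat_lit 252) (nat_lit 8) (nat_lit 11))
    (@En.i (nat_lit 13935) (nat_lit 8) (nat_lit 4))
    (@En.i (nat_lit 13473) (nat_lit 10) (nat_lit 12))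
    (@En.n l2031 (nat_lit 13923) (nat_lit 11) (nat_lit 9))
    (@En.n l28 (nat_lit 14046) (nat_lit 11) (nat_lit 2))
    (@En.n l134 (nat_lit 14045) (nat_lit 13) (nat_lit 12))
    (@En.n l2036 (nat_lit 995) (nat_lit 1) (nat_lit 14))
    (@En.n l107 (nat_lit 14046) (nat_lit 14) (nat_lit 2))
    (@En.n l3 (nat_lit 14046) (nat_lit 15) (nat_lit 2))))
  (@Cl.mk (nat_lit 0x20002000e000c0002000c000b0004000b0004000e000500020005000e000e) (nat_lit 0x230550109000bc) (nat_lit 16) Lb.e (@T16.mk En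
    (@En.n l97 (nat_lit 14047) (nat_lit 1) (nat_lit 14))
    (@En.i (nat_lit 5863) (nat_lit 1) (nat_lit 14))
    (@En.n l617 (nat_lit 14097) (nat_lit 2) (nat_lit 5))
    (@En.n l17 (nat_lit 14047) (nat_lit 3) (nat_lit 2))
    (@En.n l50 (nat_lit 14049) (nat_lit 4) (nat_lit 5))
    (@En.n l5 (nat_lit 14046) (nat_lit 6) (nat_lit 14))
    (@En.n l50 (nat_lit 12831) (nat_lit 6) (nat_lit 4))
    (@En.i (nat_lit 259) (nat_lit 8) (nat_lit 11))
    (@En.i (nat_lit 13936) (nat_lit 8) (nat_lit 4))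
    (@En.n l217 (nat_lit 13471) (nat_lit 10) (nat_lit 11))
    (@En.n l2031 (nat_lit 13600) (nat_lit 11) (nat_lit 12))
    (@En.n l28 (nat_lit 14047) (nat_lit 11) (nat_lit 2))
    (@En.i (nat_lit 13475) (nat_lit 13) (nat_lit 12))
    (@En.i (nat_lit 999) (nat_lit 1) (nat_lit 14))
    (@En.n l107 (nat_lit 14047) (nat_lit 14) (nat_lit 2))
    (@En.n l3 (nat_lit 14047) (nat_lit 15) (nat_lit 2))))
noncomputable def a878 : T16 Cl := @T16.mk Cl
  (@Cl.mk (nat_lit 0x20002000e000a00020009000e000c00020006000d000400070003000e000e) (nat_lit 0x130657001000ab) (nat_lit 16) Lb.e (@T16.mk En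
    (@En.n l97 (nat_lit 14048) (nat_lit 1) (nat_lit 14))
    (@En.i (nat_lit 5868) (nat_lit 1) (nat_lit 14))
    (@En.n l3178 (nat_lit 13771) (nat_lit 2) (nat_lit 3))
    (@En.n l2031 (nat_lit 14082) (nat_lit 11) (nat_lit 7))
    (@En.n l9809 (nat_lit 12828) (nat_lit 4) (nat_lit 4))
    (@En.n l1997 (nat_lit 253) (nat_lit 6) (nat_lit 13))
    (@En.n l12637 (nat_lit 13988) (nat_lit 6) (nat_lit 6))
    (@En.n l18 (nat_lit 14048) (nat_lit 7) (nat_lit 2))
    (@En.n l1708 (nat_lit 12833) (nat_lit 9) (nat_lit 12))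
    (@En.n l1063 (nat_lit 14051) (nat_lit 10) (nat_lit 14))
    (@En.n l2031 (nat_lit 13941) (nat_lit 11) (nat_lit 9))
    (@En.n l28 (nat_lit 14048) (nat_lit 11) (nat_lit 2))
    (@En.n l287 (nat_lit 13770) (nat_lit 13) (nat_lit 10))
    (@En.n l2036 (nat_lit 1003) (nat_lit 1) (nat_lit 14))
    (@En.n l107 (nat_lit 14048) (nat_lit 14) (nat_lit 2))
    (@En.n l3 (nat_lit 14048) (nat_lit 15) (nat_lit 2))))
  (@Cl.mk (nat_lit 0x20002000e000b0002000b000b000b0005000c0005000500050004000e000e) (nat_lit 0x290666010000bc) (nat_lit 16) Lb.e (@T16.mk En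
    (@En.n l97 (nat_lit 14049) (nat_lit 1) (nat_lit 14))
    (@En.i (nat_lit 4820) (nat_lit 1) (nat_lit 14))
    (@En.n l2176 (nat_lit 14050) (nat_lit 2) (nat_lit 4))
    (@En.n l1935 (nat_lit 13771) (nat_lit 3) (nat_lit 5))
    (@En.n l2172 (nat_lit 14051) (nat_lit 4) (nat_lit 5))
    (@En.i (nat_lit 12830) (nat_lit 5) (nat_lit 5))
    (@En.i (nat_lit 260) (nat_lit 7) (nat_lit 12))
    (@En.n l5802 (nat_lit 13886) (nat_lit 7) (nat_lit 5))
    (@En.n l742 (nat_lit 14047) (nat_lit 9) (nat_lit 11))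
    (@En.n l396 (nat_lit 14097) (nat_lit 10) (nat_lit 11))
    (@En.n l7 (nat_lit 12868) (nat_lit 11) (nat_lit 11))
    (@En.n l28 (nat_lit 14049) (nat_lit 11) (nat_lit 2))
    (@En.i (nat_lit 13715) (nat_lit 13) (nat_lit 11))
    (@En.i (nat_lit 1271) (nat_lit 1) (nat_lit 14))
    (@En.n l107 (nat_lit 14049) (nat_lit 14) (nat_lit 2))
    (@En.n l3 (nat_lit 14049) (nat_lit 15) (nat_lit 2))))
  (@Cl.mk (nat_lit 0x20002000e000b0002000a000a000d0005000c0003000600060004000e000e) (nat_lit 0x830457040000bc) (nat_lit 16) Lb.e (@T16.mk En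
    (@En.n l97 (nat_lit 14050) (nat_lit 1) (nat_lit 14))
    (@En.i (nat_lit 4825) (nat_lit 1) (nat_lit 14))
    (@En.n l12529 (nat_lit 12833) (nat_lit 2) (nat_lit 4))
    (@En.n l13665 (nat_lit 14054) (nat_lit 3) (nat_lit 6))
    (@En.n l663 (nat_lit 13771) (nat_lit 4) (nat_lit 6))
    (@En.n l13666 (nat_lit 13000) (nat_lit 5) (nat_lit 3))
    (@En.n l671 (nat_lit 261) (nat_lit 7) (nat_lit 12))
    (@En.n l663 (nat_lit 14001) (nat_lit 7) (nat_lit 5))
    (@En.n l5910 (nat_lit 14096) (nat_lit 9) (nat_lit 13))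
    (@En.n l4837 (nat_lit 14096) (nat_lit 10) (nat_lit 10))
    (@En.n l5205 (nat_lit 12871) (nat_lit 11) (nat_lit 10))
    (@En.n l28 (nat_lit 14050) (nat_lit 11) (nat_lit 2))
    (@En.n l13667 (nat_lit 13714) (nat_lit 13) (nat_lit 11))
    (@En.n l11949 (nat_lit 1250) (nat_lit 1) (nat_lit 14))
    (@En.n l107 (nat_lit 14050) (nat_lit 14) (nat_lit 2))
    (@En.n l3 (nat_lit 14050) (nat_lit 15) (nat_lit 2))))
  (@Cl.mk (nat_lit 0x20002000e000a0002000e000b0002000c0006000d000500040003000e000e) (nat_lit 0x280470804000ab) (nat_lit 16) Lb.e (@T16.mk En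
    (@En.n l97 (nat_lit 14051) (nat_lit 1) (nat_lit 14))
    (@En.i (nat_lit 4850) (nat_lit 1) (nat_lit 14))
    (@En.n l12656 (nat_lit 14054) (nat_lit 2) (nat_lit 3))
    (@En.n l763 (nat_lit 13764) (nat_lit 3) (nat_lit 4))
    (@En.i (nat_lit 12825) (nat_lit 4) (nat_lit 5))
    (@En.i (nat_lit 281) (nat_lit 6) (nat_lit 13))
    (@En.n l764 (nat_lit 13851) (nat_lit 6) (nat_lit 6))
    (@En.n l765 (nat_lit 12833) (nat_lit 8) (nat_lit 12))
    (@En.n l50 (nat_lit 14051) (nat_lit 8) (nat_lit 2))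
    (@En.n l217 (nat_lit 14049) (nat_lit 10) (nat_lit 11))
    (@En.n l12654 (nat_lit 13985) (nat_lit 11) (nat_lit 14))
    (@En.n l28 (nat_lit 14051) (nat_lit 11) (nat_lit 2))
    (@En.n l845 (nat_lit 13768) (nat_lit 13) (nat_lit 10))
    (@En.n l2028 (nat_lit 1331) (nat_lit 1) (nat_lit 14))
    (@En.n l107 (nat_lit 14051) (nat_lit 14) (nat_lit 2))
    (@En.n l3 (nat_lit 14051) (nat_lit 15) (nat_lit 2))))
  (@Cl.mk (nat_lit 0x20002000e00080002000e000c0002000c000c0004000800040004000e000e) (nat_lit 0x340570890200bc) (nat_lit 16) Lb.e (@T16.mk En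
    (@En.n l5 (nat_lit 14052) (nat_lit 1) (nat_lit 14))
    (@En.n l3495 (nat_lit 4888) (nat_lit 1) (nat_lit 14))
    (@En.n l125 (nat_lit 13753) (nat_lit 2) (nat_lit 4))
    (@En.n l5008 (nat_lit 14051) (nat_lit 3) (nat_lit 4))
    (@En.n l5381 (nat_lit 13076) (nat_lit 4) (nat_lit 8))
    (@En.i (nat_lit 12824) (nat_lit 5) (nat_lit 4))
    (@En.n l1783 (nat_lit 13764) (nat_lit 7) (nat_lit 12))
    (@En.i (nat_lit 12828) (nat_lit 8) (nat_lit 12))
    (@En.n l11 (nat_lit 14052) (nat_lit 8) (nat_lit 2))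
    (@En.n l1437 (nat_lit 12829) (nat_lit 10) (nat_lit 12))
    (@En.n l513 (nat_lit 13091) (nat_lit 11) (nat_lit 14))
    (@En.n l3 (nat_lit 14052) (nat_lit 11) (nat_lit 2))
    (@En.n l4559 (nat_lit 13901) (nat_lit 13) (nat_lit 8))
    (@En.i (nat_lit 2740) (nat_lit 1) (nat_lit 14))
    (@En.n l17 (nat_lit 14052) (nat_lit 14) (nat_lit 2))
    (@En.n l18 (nat_lit 14052) (nat_lit 15) (nat_lit 2))))
  (@Cl.mk (nat_lit 0x20002000e00090002000e000a0002000d000c0007000300060004000e000e) (nat_lit 0x920450190000ab) (nat_lit 16) Lb.e (@T16.mk En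
    (@En.n l5 (nat_lit 14053) (nat_lit 1) (nat_lit 14))
    (@En.n l3724 (nat_lit 4868) (nat_lit 1) (nat_lit 14))
    (@En.i (nat_lit 14052) (nat_lit 2) (nat_lit 4))
    (@En.n l4888 (nat_lit 12858) (nat_lit 3) (nat_lit 6))
    (@En.n l4889 (nat_lit 14054) (nat_lit 4) (nat_lit 3))
    (@En.n l3724 (nat_lit 13572) (nat_lit 5) (nat_lit 7))
    (@En.n l4890 (nat_lit 14051) (nat_lit 7) (nat_lit 12))
    (@En.n l4889 (nat_lit 13000) (nat_lit 8) (nat_lit 13))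
    (@En.n l11 (nat_lit 14053) (nat_lit 8) (nat_lit 2))
    (@En.n l4891 (nat_lit 13000) (nat_lit 10) (nat_lit 10))
    (@En.n l4892 (nat_lit 13964) (nat_lit 11) (nat_lit 14))
    (@En.n l3 (nat_lit 14053) (nat_lit 11) (nat_lit 2))
    (@En.n l4892 (nat_lit 13706) (nat_lit 13) (nat_lit 9))
    (@En.i (nat_lit 1382) (nat_lit 1) (nat_lit 14))
    (@En.n l17 (nat_lit 14053) (nat_lit 14) (nat_lit 2))
    (@En.n l18 (nat_lit 14053) (nat_lit 15) (nat_lit 2))))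
  (@Cl.mk (nat_lit 0x20002000e000a0002000e000a0002000d0006000d000300060003000e000e) (nat_lit 0x720450803000ab) (nat_lit 16) Lb.e (@T16.mk En
    (@En.n l97 (nat_lit 14054) (nat_lit 1) (nat_lit 14))
    (@En.i (nat_lit 4855) (nat_lit 1) (nat_lit 14))
    (@En.n l6134 (nat_lit 14051) (nat_lit 2) (nat_lit 3))
    (@En.n l5539 (nat_lit 13760) (nat_lit 3) (nat_lit 6))
    (@En.n l12764 (nat_lit 14053) (nat_lit 4) (nat_lit 3))
    (@En.n l6134 (nat_lit 280) (nat_lit 6) (nat_lit 13))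
    (@En.n l5539 (nat_lit 13850) (nat_lit 6) (nat_lit 6))
    (@En.n l5454 (nat_lit 14050) (nat_lit 8) (nat_lit 13))
    (@En.n l2196 (nat_lit 14054) (nat_lit 8) (nat_lit 2))
    (@En.n l7654 (nat_lit 14050) (nat_lit 10) (nat_lit 10))
    (@En.n l12765 (nat_lit 13965) (nat_lit 11) (nat_lit 14))
    (@En.n l28 (nat_lit 14054) (nat_lit 11) (nat_lit 2))
    (@En.n l4885 (nat_lit 13710) (nat_lit 13) (nat_lit 10))
    (@En.n l12766 (nat_lit 1255) (nat_lit 1) (nat_lit 14))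
    (@En.n l107 (nat_lit 14054) (nat_lit 14) (nat_lit 2))
    (@En.n l3 (nat_lit 14054) (nat_lit 15) (nat_lit 2))))
  (@Cl.mk (nat_lit 0x20002000d0007000e00030002000e000e00020002000e00090002000e000e) (nat_lit 0x90400780024056) (nat_lit 16) Lb.e (@T16.mk En
    (@En.n l97 (nat_lit 14055) (nat_lit 1) (nat_lit 14))
    (@En.i (nat_lit 13041) (nat_lit 11) (nat_lit 14))
    (@En.n l12 (nat_lit 14055) (nat_lit 2) (nat_lit 2))
    (@En.i (nat_lit 13951) (nat_lit 13) (nat_lit 9))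
    (@En.n l12 (nat_lit 13026) (nat_lit 5) (nat_lit 14))
    (@En.n l17 (nat_lit 14055) (nat_lit 5) (nat_lit 2))
    (@En.n l18 (nat_lit 14055) (nat_lit 6) (nat_lit 2))
    (@En.n l5 (nat_lit 14055) (nat_lit 8) (nat_lit 14))
    (@En.n l1557 (nat_lit 13206) (nat_lit 9) (nat_lit 14))
    (@En.n l7 (nat_lit 14055) (nat_lit 9) (nat_lit 2))
    (@En.n l28 (nat_lit 13953) (nat_lit 10) (nat_lit 3))
    (@En.n l542 (nat_lit 14087) (nat_lit 0) (nat_lit 14))
    (@En.n l1847 (nat_lit 13823) (nat_lit 13) (nat_lit 7))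
    (@En.n l11747 (nat_lit 14054) (nat_lit 7) (nat_lit 13))
    (@En.n l107 (nat_lit 14055) (nat_lit 14) (nat_lit 2))
    (@En.n l3 (nat_lit 14055) (nat_lit 15) (nat_lit 2))))
  (@Cl.mk (nat_lit 0x20002000e00070002000e000e00020002000e000d000200090003000e000e) (nat_lit 0x20056009305089) (nat_lit 16) Lb.e (@T16.mk En
    (@En.n l164 (nat_lit 14056) (nat_lit 1) (nat_lit 14))
    (@En.n l1750 (nat_lit 13240) (nat_lit 9) (nat_lit 14))
    (@En.n l1434 (nat_lit 13953) (nat_lit 9) (nat_lit 3))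
    (@En.n l1751 (nat_lit 13822) (nat_lit 11) (nat_lit 9))
    (@En.n l3 (nat_lit 14056) (nat_lit 4) (nat_lit 2))
    (@En.n l310 (nat_lit 13953) (nat_lit 13) (nat_lit 13))
    (@En.n l1750 (nat_lit 13753) (nat_lit 7) (nat_lit 14))
    (@En.n l17 (nat_lit 14056) (nat_lit 7) (nat_lit 2))
    (@En.n l18 (nat_lit 14056) (nat_lit 8) (nat_lit 2))
    (@En.n l5 (nat_lit 14056) (nat_lit 10) (nat_lit 14))
    (@En.n l313 (nat_lit 13038) (nat_lit 11) (nat_lit 14))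
    (@En.n l12 (nat_lit 14056) (nat_lit 11) (nat_lit 2))
    (@En.n l313 (nat_lit 13952) (nat_lit 13) (nat_lit 7))
    (@En.n l115 (nat_lit 13023) (nat_lit 5) (nat_lit 14))
    (@En.n l172 (nat_lit 14056) (nat_lit 14) (nat_lit 2))
    (@En.n l28 (nat_lit 14056) (nat_lit 15) (nat_lit 2))))
  (@Cl.mk (nat_lit 0x20002000d000600090003000e000e00020002000e00070002000a000e000e) (nat_lit 0x3050bc007003bc) (nat_lit 16) Lb.e (@T16.mk En
    (@En.n l97 (nat_lit 14057) (nat_lit 1) (nat_lit 14))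
    (@En.i (nat_lit 12859) (nat_lit 10) (nat_lit 14))
    (@En.n l2197 (nat_lit 13825) (nat_lit 11) (nat_lit 10))
    (@En.n l403 (nat_lit 14057) (nat_lit 3) (nat_lit 2))
    (@En.i (nat_lit 13825) (nat_lit 13) (nat_lit 7))
    (@En.n l1855 (nat_lit 13569) (nat_lit 6) (nat_lit 14))
    (@En.n l18 (nat_lit 14057) (nat_lit 6) (nat_lit 2))
    (@En.n l50 (nat_lit 14057) (nat_lit 7) (nat_lit 2))
    (@En.n l396 (nat_lit 14057) (nat_lit 9) (nat_lit 14))
    (@En.n l397 (nat_lit 13409) (nat_lit 10) (nat_lit 14))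
    (@En.n l5487 (nat_lit 13824) (nat_lit 10) (nat_lit 3))
    (@En.n l5488 (nat_lit 14055) (nat_lit 3) (nat_lit 9))
    (@En.n l5489 (nat_lit 14058) (nat_lit 13) (nat_lit 6))
    (@En.n l1352 (nat_lit 12898) (nat_lit 6) (nat_lit 13))
    (@En.n l107 (nat_lit 14057) (nat_lit 14) (nat_lit 2))
    (@En.n l3 (nat_lit 14057) (nat_lit 15) (nat_lit 2))))
  (@Cl.mk (nat_lit 0x20002000600090007000e000e00020002000e00070002000a0009000e000e) (nat_lit 0x3067005003412) (nat_lit 16) Lb.e (@T16.mk En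
    (@En.n l5 (nat_lit 14058) (nat_lit 1) (nat_lit 14))
    (@En.n l1856 (nat_lit 942) (nat_lit 9) (nat_lit 14))
    (@En.i (nat_lit 13824) (nat_lit 2) (nat_lit 9))
    (@En.n l4304 (nat_lit 14059) (nat_lit 3) (nat_lit 10))
    (@En.n l28 (nat_lit 14058) (nat_lit 4) (nat_lit 2))
    (@En.n l1373 (nat_lit 14059) (nat_lit 5) (nat_lit 7))
    (@En.n l590 (nat_lit 13927) (nat_lit 7) (nat_lit 14))
    (@En.n l107 (nat_lit 14058) (nat_lit 7) (nat_lit 2))
    (@En.n l3 (nat_lit 14058) (nat_lit 8) (nat_lit 2))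
    (@En.n l97 (nat_lit 14058) (nat_lit 10) (nat_lit 14))
    (@En.i (nat_lit 13052) (nat_lit 11) (nat_lit 14))
    (@En.i (nat_lit 13952) (nat_lit 12) (nat_lit 7))
    (@En.n l167 (nat_lit 14063) (nat_lit 13) (nat_lit 9))
    (@En.i (nat_lit 941) (nat_lit 4) (nat_lit 6))
    (@En.n l17 (nat_lit 14058) (nat_lit 14) (nat_lit 2))
    (@En.n l18 (nat_lit 14058) (nat_lit 15) (nat_lit 2))))
  (@Cl.mk (nat_lit 0x200020006000900090008000e000e0002000200070007000a0008000e000e) (nat_lit 0x345bc00002312) (nat_lit 16) Lb.e (@T16.mk En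
    (@En.n l5 (nat_lit 14059) (nat_lit 1) (nat_lit 14))
    (@En.n l1997 (nat_lit 938) (nat_lit 10) (nat_lit 14))
    (@En.n l7471 (nat_lit 13821) (nat_lit 11) (nat_lit 8))
    (@En.n l476 (nat_lit 14060) (nat_lit 3) (nat_lit 10))
    (@En.n l152 (nat_lit 14060) (nat_lit 4) (nat_lit 7))
    (@En.n l476 (nat_lit 13925) (nat_lit 5) (nat_lit 7))
    (@En.n l28 (nat_lit 14059) (nat_lit 6) (nat_lit 2))
    (@En.n l11 (nat_lit 14059) (nat_lit 7) (nat_lit 2))
    (@En.n l1578 (nat_lit 14059) (nat_lit 9) (nat_lit 14))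
    (@En.i (nat_lit 13051) (nat_lit 10) (nat_lit 14))
    (@En.n l4758 (nat_lit 13947) (nat_lit 2) (nat_lit 8))
    (@En.n l3062 (nat_lit 14058) (nat_lit 12) (nat_lit 9))
    (@En.n l8929 (nat_lit 14062) (nat_lit 4) (nat_lit 9))
    (@En.n l2568 (nat_lit 937) (nat_lit 5) (nat_lit 6))
    (@En.n l17 (nat_lit 14059) (nat_lit 14) (nat_lit 2))
    (@En.n l18 (nat_lit 14059) (nat_lit 15) (nat_lit 2))))
  (@Cl.mk (nat_lit 0x200020006000e000900020009000e000e000200020007000a0007000e000e) (nat_lit 0xb406890001012) (nat_lit 16) Lb.e (@T16.mk En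
    (@En.n l5 (nat_lit 14060) (nat_lit 1) (nat_lit 14))
    (@En.n l1997 (nat_lit 944) (nat_lit 11) (nat_lit 14))
    (@En.n l7471 (nat_lit 13826) (nat_lit 12) (nat_lit 7))
    (@En.n l1997 (nat_lit 13281) (nat_lit 3) (nat_lit 10))
    (@En.i (nat_lit 13923) (nat_lit 4) (nat_lit 7))
    (@En.n l28 (nat_lit 14060) (nat_lit 5) (nat_lit 2))
    (@En.n l11 (nat_lit 14060) (nat_lit 6) (nat_lit 2))
    (@En.n l1578 (nat_lit 14060) (nat_lit 8) (nat_lit 14))
    (@En.i (nat_lit 13053) (nat_lit 9) (nat_lit 14))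
    (@En.n l1997 (nat_lit 13948) (nat_lit 2) (nat_lit 9))
    (@En.n l3 (nat_lit 14060) (nat_lit 10) (nat_lit 2))
    (@En.i (nat_lit 14059) (nat_lit 12) (nat_lit 9))
    (@En.n l5366 (nat_lit 14061) (nat_lit 6) (nat_lit 14))
    (@En.n l2568 (nat_lit 943) (nat_lit 6) (nat_lit 6))
    (@En.n l17 (nat_lit 14060) (nat_lit 14) (nat_lit 2))
    (@En.n l18 (nat_lit 14060) (nat_lit 15) (nat_lit 2))))
  (@Cl.mk (nat_lit 0x20002000800070007000e000e00020002000e0008000200090009000e000e) (nat_lit 0x6005600a105578) (nat_lit 16) Lb.e (@T16.mk En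
    (@En.n l5 (nat_lit 14061) (nat_lit 1) (nat_lit 14))
    (@En.n l8122 (nat_lit 12848) (nat_lit 9) (nat_lit 14))
    (@En.n l14528 (nat_lit 14082) (nat_lit 2) (nat_lit 9))
    (@En.n l12890 (nat_lit 14059) (nat_lit 11) (nat_lit 9))
    (@En.n l28 (nat_lit 14061) (nat_lit 4) (nat_lit 2))
    (@En.i (nat_lit 46) (nat_lit 5) (nat_lit 8))
    (@En.n l8122 (nat_lit 13249) (nat_lit 7) (nat_lit 14))
    (@En.n l107 (nat_lit 14061) (nat_lit 7) (nat_lit 2))
    (@En.n l3 (nat_lit 14061) (nat_lit 8) (nat_lit 2))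
    (@En.n l97 (nat_lit 14061) (nat_lit 10) (nat_lit 14))
    (@En.i (nat_lit 12791) (nat_lit 11) (nat_lit 14))
    (@En.n l26318 (nat_lit 14081) (nat_lit 12) (nat_lit 7))
    (@En.i (nat_lit 14065) (nat_lit 13) (nat_lit 7))
    (@En.n l8122 (nat_lit 13213) (nat_lit 4) (nat_lit 8))
    (@En.n l17 (nat_lit 14061) (nat_lit 14) (nat_lit 2))
    (@En.n l18 (nat_lit 14061) (nat_lit 15) (nat_lit 2))))
  (@Cl.mk (nat_lit 0x200020007000e000800020009000e000e00020002000900080007000e000e) (nat_lit 0x6106780026056) (nat_lit 16) Lb.e (@T16.mk En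
    (@En.n l97 (nat_lit 14062) (nat_lit 1) (nat_lit 14))
    (@En.i (nat_lit 12783) (nat_lit 11) (nat_lit 14))
    (@En.n l1498 (nat_lit 14085) (nat_lit 2) (nat_lit 7))
    (@En.i (nat_lit 14064) (nat_lit 13) (nat_lit 8))
    (@En.n l25452 (nat_lit 12973) (nat_lit 4) (nat_lit 9))
    (@En.n l17 (nat_lit 14062) (nat_lit 5) (nat_lit 2))
    (@En.n l18 (nat_lit 14062) (nat_lit 6) (nat_lit 2))
    (@En.n l5 (nat_lit 14062) (nat_lit 8) (nat_lit 14))
    (@En.n l25528 (nat_lit 12863) (nat_lit 9) (nat_lit 14))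
    (@En.n l538 (nat_lit 13816) (nat_lit 10) (nat_lit 9))
    (@En.n l7 (nat_lit 14062) (nat_lit 10) (nat_lit 2))
    (@En.n l28 (nat_lit 46) (nat_lit 4) (nat_lit 8))
    (@En.n l95 (nat_lit 14058) (nat_lit 6) (nat_lit 14))
    (@En.n l4698 (nat_lit 12972) (nat_lit 6) (nat_lit 7))
    (@En.n l107 (nat_lit 14062) (nat_lit 14) (nat_lit 2))
    (@En.n l3 (nat_lit 14062) (nat_lit 15) (nat_lit 2))))
  (@Cl.mk (nat_lit 0x2000200090006000e000e00020002000d0007000e00030002000a000e000e) (nat_lit 0x20ab007050039a) (nat_lit 16) Lb.e (@T16.mk En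
    (@En.n l5 (nat_lit 14063) (nat_lit 1) (nat_lit 14))
    (@En.n l10295 (nat_lit 13441) (nat_lit 8) (nat_lit 14))
    (@En.n l538 (nat_lit 13949) (nat_lit 2) (nat_lit 10))
    (@En.n l7 (nat_lit 14063) (nat_lit 3) (nat_lit 2))
    (@En.n l28 (nat_lit 14064) (nat_lit 4) (nat_lit 3))
    (@En.n l561 (nat_lit 14086) (nat_lit 6) (nat_lit 14))
    (@En.i (nat_lit 14062) (nat_lit 13) (nat_lit 7))
    (@En.n l11854 (nat_lit 13587) (nat_lit 8) (nat_lit 13))
    (@En.n l107 (nat_lit 14063) (nat_lit 8) (nat_lit 2))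
    (@En.n l3 (nat_lit 14063) (nat_lit 9) (nat_lit 2))
    (@En.n l97 (nat_lit 14063) (nat_lit 11) (nat_lit 14))
    (@En.i (nat_lit 13277) (nat_lit 12) (nat_lit 14))
    (@En.n l538 (nat_lit 14072) (nat_lit 13) (nat_lit 6))
    (@En.i (nat_lit 14042) (nat_lit 3) (nat_lit 9))
    (@En.n l17 (nat_lit 14063) (nat_lit 14) (nat_lit 2))
    (@En.n l18 (nat_lit 14063) (nat_lit 15) (nat_lit 2))))
noncomputable def a879 : T16 Cl := @T16.mk Cl
  (@Cl.mk (nat_lit 0x2000200080006000e000e00020002000d000d000800030003000a000e000e) (nat_lit 0x5056001820029a) (nat_lit 16) Lb.e (@T16.mk En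
    (@En.n l5 (nat_lit 14064) (nat_lit 1) (nat_lit 14))
    (@En.n l1559 (nat_lit 13444) (nat_lit 8) (nat_lit 14))
    (@En.n l538 (nat_lit 13946) (nat_lit 2) (nat_lit 10))
    (@En.n l7 (nat_lit 14065) (nat_lit 3) (nat_lit 3))
    (@En.i (nat_lit 14063) (nat_lit 4) (nat_lit 3))
    (@En.i (nat_lit 14061) (nat_lit 5) (nat_lit 8))
    (@En.n l134 (nat_lit 14063) (nat_lit 7) (nat_lit 13))
    (@En.n l1559 (nat_lit 13532) (nat_lit 8) (nat_lit 13))
    (@En.n l107 (nat_lit 14064) (nat_lit 8) (nat_lit 2))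
    (@En.n l3 (nat_lit 14064) (nat_lit 9) (nat_lit 2))
    (@En.n l97 (nat_lit 14064) (nat_lit 11) (nat_lit 14))
    (@En.i (nat_lit 13275) (nat_lit 12) (nat_lit 14))
    (@En.n l538 (nat_lit 14070) (nat_lit 13) (nat_lit 6))
    (@En.i (nat_lit 14045) (nat_lit 3) (nat_lit 8))
    (@En.n l17 (nat_lit 14064) (nat_lit 14) (nat_lit 2))
    (@En.n l18 (nat_lit 14064) (nat_lit 15) (nat_lit 2))))
  (@Cl.mk (nat_lit 0x2000200070006000e000e00020002000e000d000200090003000a000e000e) (nat_lit 0x5600b2050278) (nat_lit 16) Lb.e (@T16.mk En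
    (@En.n l5 (nat_lit 14065) (nat_lit 1) (nat_lit 14))
    (@En.n l2031 (nat_lit 13449) (nat_lit 8) (nat_lit 14))
    (@En.i (nat_lit 254) (nat_lit 2) (nat_lit 10))
    (@En.i (nat_lit 14064) (nat_lit 3) (nat_lit 3))
    (@En.n l2031 (nat_lit 14060) (nat_lit 11) (nat_lit 9))
    (@En.n l28 (nat_lit 14065) (nat_lit 5) (nat_lit 2))
    (@En.n l134 (nat_lit 14064) (nat_lit 7) (nat_lit 13))
    (@En.n l2036 (nat_lit 13531) (nat_lit 8) (nat_lit 14))
    (@En.n l107 (nat_lit 14065) (nat_lit 8) (nat_lit 2))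
    (@En.n l3 (nat_lit 14065) (nat_lit 9) (nat_lit 2))
    (@En.n l97 (nat_lit 14065) (nat_lit 11) (nat_lit 14))
    (@En.i (nat_lit 13276) (nat_lit 12) (nat_lit 14))
    (@En.n l1504 (nat_lit 14069) (nat_lit 13) (nat_lit 6))
    (@En.i (nat_lit 14046) (nat_lit 3) (nat_lit 7))
    (@En.n l17 (nat_lit 14065) (nat_lit 14) (nat_lit 2))
    (@En.n l18 (nat_lit 14065) (nat_lit 15) (nat_lit 2))))
  (@Cl.mk (nat_lit 0x200020008000e00080002000e000c0002000c0008000400080004000e000e) (nat_lit 0x244046093030bc) (nat_lit 16) Lb.e (@T16.mk En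
    (@En.n l5 (nat_lit 14066) (nat_lit 1) (nat_lit 14))
    (@En.n l420 (nat_lit 5318) (nat_lit 1) (nat_lit 14))
    (@En.n l7 (nat_lit 14067) (nat_lit 2) (nat_lit 4))
    (@En.i (nat_lit 13687) (nat_lit 3) (nat_lit 8))
    (@En.i (nat_lit 13645) (nat_lit 4) (nat_lit 4))
    (@En.n l4869 (nat_lit 13413) (nat_lit 5) (nat_lit 8))
    (@En.i (nat_lit 13641) (nat_lit 7) (nat_lit 12))
    (@En.n l11 (nat_lit 14066) (nat_lit 7) (nat_lit 2))
    (@En.i (nat_lit 13960) (nat_lit 9) (nat_lit 12))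
    (@En.i (nat_lit 13536) (nat_lit 10) (nat_lit 14))
    (@En.n l3 (nat_lit 14066) (nat_lit 10) (nat_lit 2))
    (@En.i (nat_lit 13336) (nat_lit 12) (nat_lit 8))
    (@En.i (nat_lit 12850) (nat_lit 13) (nat_lit 14))
    (@En.i (nat_lit 5232) (nat_lit 14) (nat_lit 8))
    (@En.n l17 (nat_lit 14066) (nat_lit 14) (nat_lit 2))
    (@En.n l18 (nat_lit 14066) (nat_lit 15) (nat_lit 2))))
  (@Cl.mk (nat_lit 0x200020007000e000a0002000e000b0002000c0006000900050004000e000e) (nat_lit 0x340780a070023) (nat_lit 16) Lb.e (@T16.mk En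
    (@En.n l5 (nat_lit 14067) (nat_lit 1) (nat_lit 14))
    (@En.n l2669 (nat_lit 5988) (nat_lit 1) (nat_lit 14))
    (@En.i (nat_lit 13053) (nat_lit 2) (nat_lit 4))
    (@En.i (nat_lit 13642) (nat_lit 3) (nat_lit 5))
    (@En.n l2680 (nat_lit 14068) (nat_lit 4) (nat_lit 9))
    (@En.n l1599 (nat_lit 13800) (nat_lit 5) (nat_lit 6))
    (@En.n l5448 (nat_lit 13559) (nat_lit 7) (nat_lit 12))
    (@En.n l11 (nat_lit 14067) (nat_lit 7) (nat_lit 2))
    (@En.i (nat_lit 12966) (nat_lit 9) (nat_lit 11))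
    (@En.i (nat_lit 12866) (nat_lit 10) (nat_lit 14))
    (@En.n l3 (nat_lit 14067) (nat_lit 10) (nat_lit 2))
    (@En.i (nat_lit 12967) (nat_lit 12) (nat_lit 10))
    (@En.i (nat_lit 12849) (nat_lit 13) (nat_lit 14))
    (@En.n l2568 (nat_lit 5759) (nat_lit 14) (nat_lit 7))
    (@En.n l17 (nat_lit 14067) (nat_lit 14) (nat_lit 2))
    (@En.n l18 (nat_lit 14067) (nat_lit 15) (nat_lit 2))))
  (@Cl.mk (nat_lit 0x200020007000e000e00020002000e000c0002000d000900040003000e000e) (nat_lit 0x2300c30a60089) (nat_lit 16) Lb.e (@T16.mk En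
    (@En.n l134 (nat_lit 14068) (nat_lit 1) (nat_lit 14))
    (@En.i (nat_lit 12982) (nat_lit 7) (nat_lit 14))
    (@En.n l2042 (nat_lit 14069) (nat_lit 2) (nat_lit 3))
    (@En.n l2043 (nat_lit 14076) (nat_lit 3) (nat_lit 4))
    (@En.n l1783 (nat_lit 14065) (nat_lit 4) (nat_lit 9))
    (@En.n l253 (nat_lit 13278) (nat_lit 6) (nat_lit 13))
    (@En.n l3 (nat_lit 14068) (nat_lit 6) (nat_lit 2))
    (@En.n l5365 (nat_lit 14071) (nat_lit 8) (nat_lit 12))
    (@En.i (nat_lit 13666) (nat_lit 9) (nat_lit 14))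
    (@En.n l17 (nat_lit 14068) (nat_lit 9) (nat_lit 2))
    (@En.n l18 (nat_lit 14068) (nat_lit 10) (nat_lit 2))
    (@En.n l5 (nat_lit 14068) (nat_lit 12) (nat_lit 14))
    (@En.n l2571 (nat_lit 13461) (nat_lit 13) (nat_lit 14))
    (@En.n l5366 (nat_lit 12831) (nat_lit 2) (nat_lit 7))
    (@En.n l7 (nat_lit 14068) (nat_lit 14) (nat_lit 2))
    (@En.n l28 (nat_lit 14068) (nat_lit 15) (nat_lit 2))))
  (@Cl.mk (nat_lit 0x200020006000e000e00020002000e000d0002000d0003000a0003000e000e) (nat_lit 0x2300a90502089) (nat_lit 16) Lb.e (@T16.mk En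
    (@En.n l5 (nat_lit 14069) (nat_lit 1) (nat_lit 14))
    (@En.n l2100 (nat_lit 13472) (nat_lit 7) (nat_lit 14))
    (@En.n l5916 (nat_lit 14068) (nat_lit 2) (nat_lit 3))
    (@En.i (nat_lit 270) (nat_lit 3) (nat_lit 10))
    (@En.n l1599 (nat_lit 14070) (nat_lit 4) (nat_lit 3))
    (@En.n l2036 (nat_lit 13280) (nat_lit 6) (nat_lit 13))
    (@En.n l11 (nat_lit 14069) (nat_lit 6) (nat_lit 2))
    (@En.n l2032 (nat_lit 14070) (nat_lit 8) (nat_lit 13))
    (@En.n l1889 (nat_lit 13665) (nat_lit 9) (nat_lit 14))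
    (@En.n l3 (nat_lit 14069) (nat_lit 9) (nat_lit 2))
    (@En.n l476 (nat_lit 14069) (nat_lit 10) (nat_lit 2))
    (@En.n l624 (nat_lit 14069) (nat_lit 12) (nat_lit 14))
    (@En.i (nat_lit 13449) (nat_lit 13) (nat_lit 14))
    (@En.n l2568 (nat_lit 13473) (nat_lit 2) (nat_lit 6))
    (@En.n l17 (nat_lit 14069) (nat_lit 14) (nat_lit 2))
    (@En.n l18 (nat_lit 14069) (nat_lit 15) (nat_lit 2))))
  (@Cl.mk (nat_lit 0x200020006000e000e00020002000d000d000c00030003000a0004000e000e) (nat_lit 0x34008840030ab) (nat_lit 16) Lb.e (@T16.mk En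
    (@En.n l5 (nat_lit 14070) (nat_lit 1) (nat_lit 14))
    (@En.i (nat_lit 13470) (nat_lit 7) (nat_lit 14))
    (@En.n l12 (nat_lit 14071) (nat_lit 2) (nat_lit 4))
    (@En.i (nat_lit 13942) (nat_lit 3) (nat_lit 10))
    (@En.n l625 (nat_lit 14069) (nat_lit 4) (nat_lit 3))
    (@En.i (nat_lit 14072) (nat_lit 5) (nat_lit 3))
    (@En.n l4370 (nat_lit 14068) (nat_lit 7) (nat_lit 12))
    (@En.n l164 (nat_lit 14072) (nat_lit 8) (nat_lit 13))
    (@En.n l1638 (nat_lit 13612) (nat_lit 9) (nat_lit 13))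
    (@En.n l107 (nat_lit 14070) (nat_lit 9) (nat_lit 2))
    (@En.n l3 (nat_lit 14070) (nat_lit 10) (nat_lit 2))
    (@En.n l97 (nat_lit 14070) (nat_lit 12) (nat_lit 14))
    (@En.i (nat_lit 13446) (nat_lit 13) (nat_lit 14))
    (@En.n l387 (nat_lit 13469) (nat_lit 2) (nat_lit 6))
    (@En.n l17 (nat_lit 14070) (nat_lit 14) (nat_lit 2))
    (@En.n l18 (nat_lit 14070) (nat_lit 15) (nat_lit 2))))
  (@Cl.mk (nat_lit 0x200020008000e000e00020002000c000c000c0008000400040004000e000e) (nat_lit 0x4450028a30009a) (nat_lit 16) Lb.e (@T16.mk En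
    (@En.n l5 (nat_lit 14071) (nat_lit 1) (nat_lit 14))
    (@En.n l4465 (nat_lit 12981) (nat_lit 7) (nat_lit 14))
    (@En.n l13 (nat_lit 14073) (nat_lit 2) (nat_lit 4))
    (@En.n l11602 (nat_lit 14068) (nat_lit 3) (nat_lit 4))
    (@En.i (nat_lit 14075) (nat_lit 4) (nat_lit 4))
    (@En.n l167 (nat_lit 14064) (nat_lit 5) (nat_lit 8))
    (@En.n l11921 (nat_lit 14076) (nat_lit 7) (nat_lit 12))
    (@En.n l164 (nat_lit 14074) (nat_lit 8) (nat_lit 12))
    (@En.n l13573 (nat_lit 12916) (nat_lit 9) (nat_lit 12))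
    (@En.n l107 (nat_lit 14071) (nat_lit 9) (nat_lit 2))
    (@En.n l3 (nat_lit 14071) (nat_lit 10) (nat_lit 2))
    (@En.n l97 (nat_lit 14071) (nat_lit 12) (nat_lit 14))
    (@En.i (nat_lit 13455) (nat_lit 13) (nat_lit 14))
    (@En.n l4295 (nat_lit 13384) (nat_lit 2) (nat_lit 8))
    (@En.n l17 (nat_lit 14071) (nat_lit 14) (nat_lit 2))
    (@En.n l18 (nat_lit 14071) (nat_lit 15) (nat_lit 2))))
  (@Cl.mk (nat_lit 0x200020006000e000e00020002000d000b000e00030002000a0005000e000e) (nat_lit 0xab007360030ab) (nat_lit 16) Lb.e (@T16.mk En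
    (@En.n l5 (nat_lit 14072) (nat_lit 1) (nat_lit 14))
    (@En.i (nat_lit 13467) (nat_lit 7) (nat_lit 14))
    (@En.n l12 (nat_lit 14074) (nat_lit 2) (nat_lit 5))
    (@En.i (nat_lit 13943) (nat_lit 3) (nat_lit 10))
    (@En.n l172 (nat_lit 14072) (nat_lit 4) (nat_lit 2))
    (@En.n l28 (nat_lit 14070) (nat_lit 5) (nat_lit 3))
    (@En.n l1750 (nat_lit 14088) (nat_lit 7) (nat_lit 14))
    (@En.n l77 (nat_lit 14073) (nat_lit 8) (nat_lit 11))
    (@En.n l1638 (nat_lit 13611) (nat_lit 9) (nat_lit 13))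
    (@En.n l107 (nat_lit 14072) (nat_lit 9) (nat_lit 2))
    (@En.n l3 (nat_lit 14072) (nat_lit 10) (nat_lit 2))
    (@En.n l97 (nat_lit 14072) (nat_lit 12) (nat_lit 14))
    (@En.i (nat_lit 13460) (nat_lit 13) (nat_lit 14))
    (@En.n l387 (nat_lit 13465) (nat_lit 2) (nat_lit 6))
    (@En.n l17 (nat_lit 14072) (nat_lit 14) (nat_lit 2))
    (@En.n l18 (nat_lit 14072) (nat_lit 15) (nat_lit 2))))
  (@Cl.mk (nat_lit 0x200020007000e000e00020002000b000e000c0002000900050004000e000e) (nat_lit 0x34002690500ab) (nat_lit 16) Lb.e (@T16.mk En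
    (@En.n l5 (nat_lit 14073) (nat_lit 1) (nat_lit 14))
    (@En.n l564 (nat_lit 14098) (nat_lit 7) (nat_lit 14))
    (@En.n l7 (nat_lit 14070) (nat_lit 2) (nat_lit 4))
    (@En.n l12 (nat_lit 14078) (nat_lit 3) (nat_lit 5))
    (@En.i (nat_lit 13945) (nat_lit 4) (nat_lit 9))
    (@En.n l8 (nat_lit 14073) (nat_lit 5) (nat_lit 2))
    (@En.n l544 (nat_lit 14071) (nat_lit 7) (nat_lit 12))
    (@En.i (nat_lit 14103) (nat_lit 8) (nat_lit 14))
    (@En.i (nat_lit 12914) (nat_lit 9) (nat_lit 11))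
    (@En.n l107 (nat_lit 14073) (nat_lit 9) (nat_lit 2))
    (@En.n l3 (nat_lit 14073) (nat_lit 10) (nat_lit 2))
    (@En.n l97 (nat_lit 14073) (nat_lit 12) (nat_lit 14))
    (@En.i (nat_lit 13456) (nat_lit 13) (nat_lit 14))
    (@En.n l1208 (nat_lit 13391) (nat_lit 2) (nat_lit 7))
    (@En.n l17 (nat_lit 14073) (nat_lit 14) (nat_lit 2))
    (@En.n l18 (nat_lit 14073) (nat_lit 15) (nat_lit 2))))
  (@Cl.mk (nat_lit 0x200020009000e000e00020002000c000b0007000e000400020005000e000e) (nat_lit 0x1450079070009a) (nat_lit 16) Lb.e (@T16.mk En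
    (@En.n l5 (nat_lit 14074) (nat_lit 1) (nat_lit 14))
    (@En.n l313 (nat_lit 13494) (nat_lit 7) (nat_lit 14))
    (@En.n l28 (nat_lit 14104) (nat_lit 2) (nat_lit 5))
    (@En.n l172 (nat_lit 14074) (nat_lit 3) (nat_lit 2))
    (@En.n l28 (nat_lit 14071) (nat_lit 4) (nat_lit 4))
    (@En.i (nat_lit 14072) (nat_lit 6) (nat_lit 14))
    (@En.n l167 (nat_lit 14063) (nat_lit 6) (nat_lit 7))
    (@En.n l77 (nat_lit 14078) (nat_lit 8) (nat_lit 11))
    (@En.i (nat_lit 13617) (nat_lit 9) (nat_lit 12))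
    (@En.n l107 (nat_lit 14074) (nat_lit 9) (nat_lit 2))
    (@En.n l3 (nat_lit 14074) (nat_lit 10) (nat_lit 2))
    (@En.n l97 (nat_lit 14074) (nat_lit 12) (nat_lit 14))
    (@En.i (nat_lit 13459) (nat_lit 13) (nat_lit 14))
    (@En.n l387 (nat_lit 13382) (nat_lit 2) (nat_lit 9))
    (@En.n l17 (nat_lit 14074) (nat_lit 14) (nat_lit 2))
    (@En.n l18 (nat_lit 14074) (nat_lit 15) (nat_lit 2))))
  (@Cl.mk (nat_lit 0x20002000a000e000e00020002000c0006000d000d000400030003000e000e) (nat_lit 0x64500809b000ab) (nat_lit 16) Lb.e (@T16.mk En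
    (@En.n l5 (nat_lit 14075) (nat_lit 1) (nat_lit 14))
    (@En.n l1784 (nat_lit 13169) (nat_lit 7) (nat_lit 14))
    (@En.i (nat_lit 14078) (nat_lit 2) (nat_lit 3))
    (@En.n l625 (nat_lit 14077) (nat_lit 3) (nat_lit 3))
    (@En.i (nat_lit 14074) (nat_lit 4) (nat_lit 4))
    (@En.n l1504 (nat_lit 14077) (nat_lit 6) (nat_lit 13))
    (@En.i (nat_lit 14070) (nat_lit 7) (nat_lit 13))
    (@En.n l164 (nat_lit 14079) (nat_lit 13) (nat_lit 6))
    (@En.i (nat_lit 13189) (nat_lit 9) (nat_lit 12))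
    (@En.n l107 (nat_lit 14075) (nat_lit 9) (nat_lit 2))
    (@En.n l3 (nat_lit 14075) (nat_lit 10) (nat_lit 2))
    (@En.n l97 (nat_lit 14075) (nat_lit 12) (nat_lit 14))
    (@En.i (nat_lit 13064) (nat_lit 13) (nat_lit 14))
    (@En.n l387 (nat_lit 13412) (nat_lit 2) (nat_lit 10))
    (@En.n l17 (nat_lit 14075) (nat_lit 14) (nat_lit 2))
    (@En.n l18 (nat_lit 14075) (nat_lit 15) (nat_lit 2))))
  (@Cl.mk (nat_lit 0x200020009000e000e00020002000d000c00070003000e00040002000e000e) (nat_lit 0x2340029001009a) (nat_lit 16) Lb.e (@T16.mk En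
    (@En.n l5 (nat_lit 14076) (nat_lit 1) (nat_lit 14))
    (@En.n l5933 (nat_lit 12987) (nat_lit 7) (nat_lit 14))
    (@En.n l7 (nat_lit 14076) (nat_lit 2) (nat_lit 2))
    (@En.n l4411 (nat_lit 14071) (nat_lit 3) (nat_lit 4))
    (@En.n l5931 (nat_lit 13279) (nat_lit 5) (nat_lit 14))
    (@En.n l11 (nat_lit 14077) (nat_lit 5) (nat_lit 3))
    (@En.n l13572 (nat_lit 14081) (nat_lit 6) (nat_lit 7))
    (@En.n l524 (nat_lit 14075) (nat_lit 8) (nat_lit 12))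
    (@En.n l5931 (nat_lit 13187) (nat_lit 9) (nat_lit 13))
    (@En.n l3 (nat_lit 14076) (nat_lit 9) (nat_lit 2))
    (@En.n l476 (nat_lit 14076) (nat_lit 10) (nat_lit 2))
    (@En.n l624 (nat_lit 14076) (nat_lit 12) (nat_lit 14))
    (@En.n l5931 (nat_lit 13070) (nat_lit 13) (nat_lit 14))
    (@En.n l2568 (nat_lit 13393) (nat_lit 2) (nat_lit 9))
    (@En.n l17 (nat_lit 14076) (nat_lit 14) (nat_lit 2))
    (@En.n l18 (nat_lit 14076) (nat_lit 15) (nat_lit 2))))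
  (@Cl.mk (nat_lit 0x20002000a000e000e00020002000d0006000d0003000e00030002000e000e) (nat_lit 0x7450070a030089) (nat_lit 16) Lb.e (@T16.mk En
    (@En.n l5 (nat_lit 14077) (nat_lit 1) (nat_lit 14))
    (@En.n l2100 (nat_lit 13803) (nat_lit 7) (nat_lit 14))
    (@En.n l7 (nat_lit 14077) (nat_lit 2) (nat_lit 2))
    (@En.n l1599 (nat_lit 14075) (nat_lit 3) (nat_lit 3))
    (@En.n l2036 (nat_lit 13281) (nat_lit 0) (nat_lit 14))
    (@En.i (nat_lit 14076) (nat_lit 5) (nat_lit 3))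
    (@En.i (nat_lit 14069) (nat_lit 7) (nat_lit 13))
    (@En.n l2032 (nat_lit 14084) (nat_lit 13) (nat_lit 6))
    (@En.i (nat_lit 13185) (nat_lit 9) (nat_lit 13))
    (@En.n l3 (nat_lit 14077) (nat_lit 9) (nat_lit 2))
    (@En.n l476 (nat_lit 14077) (nat_lit 10) (nat_lit 2))
    (@En.n l624 (nat_lit 14077) (nat_lit 12) (nat_lit 14))
    (@En.n l2579 (nat_lit 13067) (nat_lit 13) (nat_lit 14))
    (@En.n l2568 (nat_lit 13417) (nat_lit 2) (nat_lit 10))
    (@En.n l17 (nat_lit 14077) (nat_lit 14) (nat_lit 2))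
    (@En.n l18 (nat_lit 14077) (nat_lit 15) (nat_lit 2))))
  (@Cl.mk (nat_lit 0x20002000a000e000e00020002000b0006000e000d000200050003000e000e) (nat_lit 0x64500807a000ab) (nat_lit 16) Lb.e (@T16.mk En
    (@En.n l5 (nat_lit 14078) (nat_lit 1) (nat_lit 14))
    (@En.n l564 (nat_lit 13595) (nat_lit 7) (nat_lit 14))
    (@En.n l7 (nat_lit 14075) (nat_lit 2) (nat_lit 3))
    (@En.i (nat_lit 14105) (nat_lit 3) (nat_lit 5))
    (@En.n l8 (nat_lit 14078) (nat_lit 4) (nat_lit 2))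
    (@En.n l538 (nat_lit 14075) (nat_lit 6) (nat_lit 13))
    (@En.i (nat_lit 14073) (nat_lit 7) (nat_lit 14))
    (@En.n l1497 (nat_lit 14085) (nat_lit 13) (nat_lit 6))
    (@En.i (nat_lit 13099) (nat_lit 9) (nat_lit 11))
    (@En.n l107 (nat_lit 14078) (nat_lit 9) (nat_lit 2))
    (@En.n l3 (nat_lit 14078) (nat_lit 10) (nat_lit 2))
    (@En.n l97 (nat_lit 14078) (nat_lit 12) (nat_lit 14))
    (@En.i (nat_lit 13066) (nat_lit 13) (nat_lit 14))
    (@En.n l387 (nat_lit 13409) (nat_lit 2) (nat_lit 10))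
    (@En.n l17 (nat_lit 14078) (nat_lit 14) (nat_lit 2))
    (@En.n l18 (nat_lit 14078) (nat_lit 15) (nat_lit 2))))
  (@Cl.mk (nat_lit 0x200020006000d000d000800030003000e000e00020002000a0008000e000e) (nat_lit 0x9420089007545) (nat_lit 16) Lb.e (@T16.mk En
    (@En.n l97 (nat_lit 14079) (nat_lit 1) (nat_lit 14))
    (@En.i (nat_lit 13085) (nat_lit 12) (nat_lit 14))
    (@En.n l343 (nat_lit 14071) (nat_lit 13) (nat_lit 8))
    (@En.n l2568 (nat_lit 13050) (nat_lit 3) (nat_lit 10))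
    (@En.n l17 (nat_lit 14079) (nat_lit 4) (nat_lit 2))
    (@En.n l18 (nat_lit 14079) (nat_lit 5) (nat_lit 2))
    (@En.n l5 (nat_lit 14079) (nat_lit 7) (nat_lit 14))
    (@En.n l1391 (nat_lit 13810) (nat_lit 8) (nat_lit 14))
    (@En.n l11251 (nat_lit 14085) (nat_lit 8) (nat_lit 3))
    (@En.n l28 (nat_lit 14084) (nat_lit 9) (nat_lit 3))
    (@En.n l1327 (nat_lit 14062) (nat_lit 11) (nat_lit 8))
    (@En.n l77 (nat_lit 14084) (nat_lit 12) (nat_lit 13))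
    (@En.i (nat_lit 13943) (nat_lit 7) (nat_lit 13))
    (@En.n l1599 (nat_lit 13079) (nat_lit 7) (nat_lit 6))
    (@En.n l107 (nat_lit 14079) (nat_lit 14) (nat_lit 2))
    (@En.n l3 (nat_lit 14079) (nat_lit 15) (nat_lit 2))))
noncomputable def a880 : T16 Cl := @T16.mk Cl
  (@Cl.mk (nat_lit 0x20002000a000e000a0002000a000e000600020006000e00060002000e000e) (nat_lit 0x235066000b0056) (nat_lit 16) Lb.e (@T16.mk En
    (@En.n l97 (nat_lit 14080) (nat_lit 1) (nat_lit 14))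
    (@En.n l1316 (nat_lit 3030) (nat_lit 1) (nat_lit 14))
    (@En.n l17 (nat_lit 14080) (nat_lit 2) (nat_lit 2))
    (@En.n l12898 (nat_lit 12908) (nat_lit 3) (nat_lit 6))
    (@En.n l1316 (nat_lit 13338) (nat_lit 5) (nat_lit 14))
    (@En.i (nat_lit 13400) (nat_lit 5) (nat_lit 6))
    (@En.n l207 (nat_lit 14080) (nat_lit 6) (nat_lit 2))
    (@En.n l198 (nat_lit 13103) (nat_lit 7) (nat_lit 6))
    (@En.n l445 (nat_lit 13371) (nat_lit 9) (nat_lit 14))
    (@En.n l4942 (nat_lit 13437) (nat_lit 10) (nat_lit 10))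
    (@En.n l7 (nat_lit 14080) (nat_lit 10) (nat_lit 2))
    (@En.n l1516 (nat_lit 13381) (nat_lit 12) (nat_lit 10))
    (@En.n l780 (nat_lit 13760) (nat_lit 13) (nat_lit 14))
    (@En.n l1316 (nat_lit 1700) (nat_lit 2) (nat_lit 10))
    (@En.n l107 (nat_lit 14080) (nat_lit 14) (nat_lit 2))
    (@En.n l3 (nat_lit 14080) (nat_lit 15) (nat_lit 2))))
  (@Cl.mk (nat_lit 0x2000200090007000e000e00020002000e00070002000e00090002000e000e) (nat_lit 0x30340080056089) (nat_lit 16) Lb.e (@T16.mk En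
    (@En.n l134 (nat_lit 14081) (nat_lit 1) (nat_lit 14))
    (@En.i (nat_lit 12852) (nat_lit 8) (nat_lit 14))
    (@En.n l458 (nat_lit 14081) (nat_lit 2) (nat_lit 2))
    (@En.n l1783 (nat_lit 14061) (nat_lit 3) (nat_lit 9))
    (@En.n l5030 (nat_lit 13820) (nat_lit 5) (nat_lit 14))
    (@En.n l3 (nat_lit 14081) (nat_lit 5) (nat_lit 2))
    (@En.n l12873 (nat_lit 14083) (nat_lit 13) (nat_lit 7))
    (@En.i (nat_lit 13246) (nat_lit 8) (nat_lit 14))
    (@En.n l17 (nat_lit 14081) (nat_lit 8) (nat_lit 2))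
    (@En.n l18 (nat_lit 14081) (nat_lit 9) (nat_lit 2))
    (@En.n l5 (nat_lit 14081) (nat_lit 11) (nat_lit 14))
    (@En.n l5030 (nat_lit 13766) (nat_lit 12) (nat_lit 14))
    (@En.i (nat_lit 14068) (nat_lit 13) (nat_lit 7))
    (@En.n l11587 (nat_lit 13216) (nat_lit 3) (nat_lit 9))
    (@En.n l7 (nat_lit 14081) (nat_lit 14) (nat_lit 2))
    (@En.n l28 (nat_lit 14081) (nat_lit 15) (nat_lit 2))))
  (@Cl.mk (nat_lit 0x200020007000e00070002000e000e00020002000e000900020009000e000e) (nat_lit 0x1006700c20456) (nat_lit 16) Lb.e (@T16.mk En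
    (@En.n l180 (nat_lit 14082) (nat_lit 1) (nat_lit 14))
    (@En.n l1997 (nat_lit 13764) (nat_lit 10) (nat_lit 14))
    (@En.i (nat_lit 13944) (nat_lit 11) (nat_lit 9))
    (@En.n l476 (nat_lit 14082) (nat_lit 3) (nat_lit 2))
    (@En.n l625 (nat_lit 14083) (nat_lit 4) (nat_lit 9))
    (@En.n l2568 (nat_lit 13253) (nat_lit 6) (nat_lit 14))
    (@En.n l17 (nat_lit 14082) (nat_lit 6) (nat_lit 2))
    (@En.n l18 (nat_lit 14082) (nat_lit 7) (nat_lit 2))
    (@En.n l5 (nat_lit 14082) (nat_lit 9) (nat_lit 14))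
    (@En.n l27097 (nat_lit 13013) (nat_lit 10) (nat_lit 14))
    (@En.n l7 (nat_lit 14082) (nat_lit 10) (nat_lit 2))
    (@En.n l27097 (nat_lit 14061) (nat_lit 12) (nat_lit 7))
    (@En.n l27097 (nat_lit 64) (nat_lit 5) (nat_lit 14))
    (@En.i (nat_lit 13179) (nat_lit 5) (nat_lit 7))
    (@En.n l11 (nat_lit 14082) (nat_lit 14) (nat_lit 2))
    (@En.n l107 (nat_lit 14082) (nat_lit 15) (nat_lit 2))))
  (@Cl.mk (nat_lit 0x2000200070007000e00080002000e000e00020002000900090008000e000e) (nat_lit 0x310780014645) (nat_lit 16) Lb.e (@T16.mk En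
    (@En.n l97 (nat_lit 14083) (nat_lit 1) (nat_lit 14))
    (@En.n l5931 (nat_lit 13763) (nat_lit 11) (nat_lit 14))
    (@En.n l55 (nat_lit 14079) (nat_lit 2) (nat_lit 8))
    (@En.n l4465 (nat_lit 14081) (nat_lit 13) (nat_lit 9))
    (@En.n l2568 (nat_lit 12961) (nat_lit 4) (nat_lit 9))
    (@En.n l17 (nat_lit 14083) (nat_lit 5) (nat_lit 2))
    (@En.n l18 (nat_lit 14083) (nat_lit 6) (nat_lit 2))
    (@En.n l5 (nat_lit 14083) (nat_lit 8) (nat_lit 14))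
    (@En.n l5931 (nat_lit 13008) (nat_lit 9) (nat_lit 14))
    (@En.n l7 (nat_lit 14083) (nat_lit 9) (nat_lit 2))
    (@En.n l11074 (nat_lit 46) (nat_lit 3) (nat_lit 8))
    (@En.n l5931 (nat_lit 13815) (nat_lit 12) (nat_lit 14))
    (@En.n l159 (nat_lit 14082) (nat_lit 13) (nat_lit 7))
    (@En.n l5931 (nat_lit 12971) (nat_lit 6) (nat_lit 7))
    (@En.n l107 (nat_lit 14083) (nat_lit 14) (nat_lit 2))
    (@En.n l3 (nat_lit 14083) (nat_lit 15) (nat_lit 2))))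
  (@Cl.mk (nat_lit 0x200020006000d0007000e00030002000e000e00020002000a0009000e000e) (nat_lit 0x3010078007334) (nat_lit 16) Lb.e (@T16.mk En
    (@En.n l97 (nat_lit 14084) (nat_lit 1) (nat_lit 14))
    (@En.i (nat_lit 13170) (nat_lit 12) (nat_lit 14))
    (@En.n l625 (nat_lit 14076) (nat_lit 13) (nat_lit 9))
    (@En.n l2568 (nat_lit 13049) (nat_lit 3) (nat_lit 10))
    (@En.n l17 (nat_lit 14084) (nat_lit 4) (nat_lit 2))
    (@En.n l18 (nat_lit 14084) (nat_lit 5) (nat_lit 2))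
    (@En.n l5 (nat_lit 14084) (nat_lit 7) (nat_lit 14))
    (@En.n l1997 (nat_lit 13804) (nat_lit 8) (nat_lit 14))
    (@En.n l7 (nat_lit 14084) (nat_lit 8) (nat_lit 2))
    (@En.i (nat_lit 14079) (nat_lit 9) (nat_lit 3))
    (@En.i (nat_lit 13281) (nat_lit 11) (nat_lit 14))
    (@En.i (nat_lit 14083) (nat_lit 12) (nat_lit 7))
    (@En.i (nat_lit 13942) (nat_lit 7) (nat_lit 13))
    (@En.n l1638 (nat_lit 13081) (nat_lit 7) (nat_lit 6))
    (@En.n l107 (nat_lit 14084) (nat_lit 14) (nat_lit 2))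
    (@En.n l3 (nat_lit 14084) (nat_lit 15) (nat_lit 2))))
  (@Cl.mk (nat_lit 0x200020006000e000d000200090003000e000e00020002000a0007000e000e) (nat_lit 0x8a07078006056) (nat_lit 16) Lb.e (@T16.mk En
    (@En.n l5 (nat_lit 14085) (nat_lit 1) (nat_lit 14))
    (@En.n l566 (nat_lit 13087) (nat_lit 12) (nat_lit 14))
    (@En.n l561 (nat_lit 14073) (nat_lit 13) (nat_lit 7))
    (@En.n l544 (nat_lit 13052) (nat_lit 3) (nat_lit 10))
    (@En.n l7 (nat_lit 14085) (nat_lit 4) (nat_lit 2))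
    (@En.n l28 (nat_lit 14085) (nat_lit 5) (nat_lit 2))
    (@En.n l134 (nat_lit 14085) (nat_lit 7) (nat_lit 14))
    (@En.n l565 (nat_lit 13921) (nat_lit 8) (nat_lit 14))
    (@En.n l427 (nat_lit 14079) (nat_lit 8) (nat_lit 3))
    (@En.n l561 (nat_lit 13817) (nat_lit 10) (nat_lit 9))
    (@En.n l3 (nat_lit 14085) (nat_lit 10) (nat_lit 2))
    (@En.n l1684 (nat_lit 14079) (nat_lit 12) (nat_lit 13))
    (@En.n l427 (nat_lit 13952) (nat_lit 7) (nat_lit 14))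
    (@En.n l566 (nat_lit 13083) (nat_lit 7) (nat_lit 6))
    (@En.n l17 (nat_lit 14085) (nat_lit 14) (nat_lit 2))
    (@En.n l18 (nat_lit 14085) (nat_lit 15) (nat_lit 2))))
  (@Cl.mk (nat_lit 0x2000200060006000e000e00020002000e000e00020002000a000a000e000e) (nat_lit 0x9a0034004589) (nat_lit 16) Lb.e (@T16.mk En
    (@En.n l97 (nat_lit 14086) (nat_lit 1) (nat_lit 14))
    (@En.n l1847 (nat_lit 14108) (nat_lit 12) (nat_lit 14))
    (@En.i (nat_lit 14087) (nat_lit 13) (nat_lit 10))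
    (@En.n l183 (nat_lit 14058) (nat_lit 3) (nat_lit 10))
    (@En.n l17 (nat_lit 14086) (nat_lit 4) (nat_lit 2))
    (@En.n l18 (nat_lit 14086) (nat_lit 5) (nat_lit 2))
    (@En.n l5 (nat_lit 14086) (nat_lit 7) (nat_lit 14))
    (@En.n l1848 (nat_lit 242) (nat_lit 8) (nat_lit 14))
    (@En.n l7 (nat_lit 14086) (nat_lit 8) (nat_lit 2))
    (@En.n l8 (nat_lit 14086) (nat_lit 9) (nat_lit 2))
    (@En.n l9 (nat_lit 14086) (nat_lit 11) (nat_lit 14))
    (@En.n l433 (nat_lit 14085) (nat_lit 12) (nat_lit 14))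
    (@En.n l1849 (nat_lit 14088) (nat_lit 13) (nat_lit 6))
    (@En.n l178 (nat_lit 14092) (nat_lit 7) (nat_lit 6))
    (@En.n l107 (nat_lit 14086) (nat_lit 14) (nat_lit 2))
    (@En.n l3 (nat_lit 14086) (nat_lit 15) (nat_lit 2))))
  (@Cl.mk (nat_lit 0x20002000a000e000e00020002000e00060002000e000e00020002000e000e) (nat_lit 0x47800400890023) (nat_lit 16) Lb.e (@T16.mk En
    (@En.n l5 (nat_lit 14087) (nat_lit 1) (nat_lit 14))
    (@En.n l131 (nat_lit 280) (nat_lit 7) (nat_lit 14))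
    (@En.n l7 (nat_lit 14087) (nat_lit 2) (nat_lit 2))
    (@En.n l8 (nat_lit 14087) (nat_lit 3) (nat_lit 2))
    (@En.n l9 (nat_lit 14087) (nat_lit 5) (nat_lit 14))
    (@En.i (nat_lit 14078) (nat_lit 6) (nat_lit 14))
    (@En.n l12 (nat_lit 14087) (nat_lit 6) (nat_lit 2))
    (@En.n l13 (nat_lit 14086) (nat_lit 13) (nat_lit 6))
    (@En.n l182 (nat_lit 14117) (nat_lit 9) (nat_lit 14))
    (@En.n l107 (nat_lit 14087) (nat_lit 9) (nat_lit 2))
    (@En.n l3 (nat_lit 14087) (nat_lit 10) (nat_lit 2))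
    (@En.n l97 (nat_lit 14087) (nat_lit 12) (nat_lit 14))
    (@En.i (nat_lit 14106) (nat_lit 13) (nat_lit 14))
    (@En.n l389 (nat_lit 14057) (nat_lit 2) (nat_lit 10))
    (@En.n l17 (nat_lit 14087) (nat_lit 14) (nat_lit 2))
    (@En.n l18 (nat_lit 14087) (nat_lit 15) (nat_lit 2))))
  (@Cl.mk (nat_lit 0x200020006000e000e00020002000e000e00020002000e000a0002000e000e) (nat_lit 0xab0045008509a) (nat_lit 16) Lb.e (@T16.mk En
    (@En.n l5 (nat_lit 14088) (nat_lit 1) (nat_lit 14))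
    (@En.n l553 (nat_lit 14090) (nat_lit 11) (nat_lit 14))
    (@En.n l7 (nat_lit 14088) (nat_lit 2) (nat_lit 2))
    (@En.n l554 (nat_lit 14086) (nat_lit 3) (nat_lit 10))
    (@En.n l555 (nat_lit 14103) (nat_lit 5) (nat_lit 14))
    (@En.n l11 (nat_lit 14088) (nat_lit 5) (nat_lit 2))
    (@En.n l207 (nat_lit 14088) (nat_lit 6) (nat_lit 2))
    (@En.n l556 (nat_lit 14088) (nat_lit 8) (nat_lit 14))
    (@En.i (nat_lit 232) (nat_lit 9) (nat_lit 14))
    (@En.n l557 (nat_lit 14088) (nat_lit 9) (nat_lit 2))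
    (@En.n l3 (nat_lit 14088) (nat_lit 10) (nat_lit 2))
    (@En.n l288 (nat_lit 14088) (nat_lit 12) (nat_lit 14))
    (@En.n l558 (nat_lit 14056) (nat_lit 6) (nat_lit 14))
    (@En.n l559 (nat_lit 14089) (nat_lit 6) (nat_lit 6))
    (@En.n l17 (nat_lit 14088) (nat_lit 14) (nat_lit 2))
    (@En.n l18 (nat_lit 14088) (nat_lit 15) (nat_lit 2))))
  (@Cl.mk (nat_lit 0x20002000d000a000d0003000e000300020006000e000e00020002000e000e) (nat_lit 0x7740a000bc0023) (nat_lit 16) Lb.e (@T16.mk En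
    (@En.n l134 (nat_lit 14089) (nat_lit 1) (nat_lit 14))
    (@En.n l565 (nat_lit 188) (nat_lit 1) (nat_lit 14))
    (@En.n l107 (nat_lit 14089) (nat_lit 2) (nat_lit 2))
    (@En.n l3 (nat_lit 14089) (nat_lit 3) (nat_lit 2))
    (@En.n l97 (nat_lit 14089) (nat_lit 5) (nat_lit 14))
    (@En.i (nat_lit 13077) (nat_lit 6) (nat_lit 14))
    (@En.n l562 (nat_lit 14091) (nat_lit 6) (nat_lit 6))
    (@En.n l17 (nat_lit 14089) (nat_lit 7) (nat_lit 2))
    (@En.n l137 (nat_lit 14091) (nat_lit 8) (nat_lit 3))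
    (@En.n l561 (nat_lit 14086) (nat_lit 0) (nat_lit 14))
    (@En.n l335 (nat_lit 14114) (nat_lit 10) (nat_lit 3))
    (@En.n l566 (nat_lit 14106) (nat_lit 12) (nat_lit 13))
    (@En.i (nat_lit 14092) (nat_lit 13) (nat_lit 10))
    (@En.n l544 (nat_lit 12923) (nat_lit 10) (nat_lit 13))
    (@En.n l7 (nat_lit 14089) (nat_lit 14) (nat_lit 2))
    (@En.n l28 (nat_lit 14089) (nat_lit 15) (nat_lit 2))))
  (@Cl.mk (nat_lit 0x20002000b000a000e000d0002000500030006000e000e00020002000e000e) (nat_lit 0x77880000bc0023) (nat_lit 16) Lb.e (@T16.mk En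
    (@En.n l5 (nat_lit 14090) (nat_lit 1) (nat_lit 14))
    (@En.n l177 (nat_lit 191) (nat_lit 8) (nat_lit 14))
    (@En.n l7 (nat_lit 14090) (nat_lit 2) (nat_lit 2))
    (@En.n l8 (nat_lit 14090) (nat_lit 3) (nat_lit 2))
    (@En.n l9 (nat_lit 14090) (nat_lit 5) (nat_lit 14))
    (@En.n l158 (nat_lit 13038) (nat_lit 6) (nat_lit 14))
    (@En.i (nat_lit 14086) (nat_lit 12) (nat_lit 6))
    (@En.n l129 (nat_lit 14091) (nat_lit 7) (nat_lit 3))
    (@En.i (nat_lit 14117) (nat_lit 8) (nat_lit 5))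
    (@En.n l107 (nat_lit 14090) (nat_lit 9) (nat_lit 2))
    (@En.n l158 (nat_lit 14091) (nat_lit 11) (nat_lit 13))
    (@En.n l579 (nat_lit 14109) (nat_lit 12) (nat_lit 14))
    (@En.i (nat_lit 14108) (nat_lit 13) (nat_lit 10))
    (@En.n l183 (nat_lit 12921) (nat_lit 10) (nat_lit 11))
    (@En.n l17 (nat_lit 14090) (nat_lit 14) (nat_lit 2))
    (@En.n l18 (nat_lit 14090) (nat_lit 15) (nat_lit 2))))
  (@Cl.mk (nat_lit 0x20002000c000a000d000d0004000300030006000e000e00020002000e000e) (nat_lit 0x76750000ab0023) (nat_lit 16) Lb.e (@T16.mk En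
    (@En.n l5 (nat_lit 14091) (nat_lit 1) (nat_lit 14))
    (@En.n l549 (nat_lit 189) (nat_lit 1) (nat_lit 14))
    (@En.n l142 (nat_lit 14091) (nat_lit 2) (nat_lit 2))
    (@En.n l28 (nat_lit 14091) (nat_lit 3) (nat_lit 2))
    (@En.n l143 (nat_lit 14091) (nat_lit 5) (nat_lit 14))
    (@En.i (nat_lit 13039) (nat_lit 6) (nat_lit 14))
    (@En.n l144 (nat_lit 14090) (nat_lit 6) (nat_lit 6))
    (@En.n l145 (nat_lit 14090) (nat_lit 7) (nat_lit 3))
    (@En.n l146 (nat_lit 14089) (nat_lit 8) (nat_lit 3))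
    (@En.n l475 (nat_lit 14115) (nat_lit 9) (nat_lit 4))
    (@En.n l148 (nat_lit 14089) (nat_lit 11) (nat_lit 13))
    (@En.n l567 (nat_lit 14107) (nat_lit 12) (nat_lit 13))
    (@En.i (nat_lit 14093) (nat_lit 13) (nat_lit 10))
    (@En.n l150 (nat_lit 12920) (nat_lit 10) (nat_lit 12))
    (@En.n l17 (nat_lit 14091) (nat_lit 14) (nat_lit 2))
    (@En.n l18 (nat_lit 14091) (nat_lit 15) (nat_lit 2))))
  (@Cl.mk (nat_lit 0x20002000a000d000b000e0003000200060005000e000e00020002000e000e) (nat_lit 0x687900009a0034) (nat_lit 16) Lb.e (@T16.mk En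
    (@En.n l134 (nat_lit 14092) (nat_lit 1) (nat_lit 14))
    (@En.n l560 (nat_lit 192) (nat_lit 1) (nat_lit 14))
    (@En.n l107 (nat_lit 14092) (nat_lit 2) (nat_lit 2))
    (@En.n l3 (nat_lit 14092) (nat_lit 3) (nat_lit 2))
    (@En.n l97 (nat_lit 14092) (nat_lit 5) (nat_lit 14))
    (@En.n l561 (nat_lit 13083) (nat_lit 6) (nat_lit 14))
    (@En.i (nat_lit 14114) (nat_lit 6) (nat_lit 5))
    (@En.n l562 (nat_lit 14093) (nat_lit 7) (nat_lit 6))
    (@En.n l17 (nat_lit 14092) (nat_lit 8) (nat_lit 2))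
    (@En.n l137 (nat_lit 14093) (nat_lit 9) (nat_lit 3))
    (@En.n l561 (nat_lit 14087) (nat_lit 11) (nat_lit 14))
    (@En.n l140 (nat_lit 14112) (nat_lit 12) (nat_lit 11))
    (@En.n l563 (nat_lit 14089) (nat_lit 13) (nat_lit 13))
    (@En.n l564 (nat_lit 941) (nat_lit 10) (nat_lit 10))
    (@En.n l7 (nat_lit 14092) (nat_lit 14) (nat_lit 2))
    (@En.n l28 (nat_lit 14092) (nat_lit 15) (nat_lit 2))))
  (@Cl.mk (nat_lit 0x20002000a000d000d000c0003000300060004000e000e00020002000e000e) (nat_lit 0x53980000ab0023) (nat_lit 16) Lb.e (@T16.mk En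
    (@En.n l5 (nat_lit 14093) (nat_lit 1) (nat_lit 14))
    (@En.n l141 (nat_lit 162) (nat_lit 1) (nat_lit 14))
    (@En.n l142 (nat_lit 14093) (nat_lit 2) (nat_lit 2))
    (@En.n l28 (nat_lit 14093) (nat_lit 3) (nat_lit 2))
    (@En.n l143 (nat_lit 14093) (nat_lit 5) (nat_lit 14))
    (@En.i (nat_lit 13084) (nat_lit 6) (nat_lit 14))
    (@En.i (nat_lit 14110) (nat_lit 6) (nat_lit 4))
    (@En.n l144 (nat_lit 14108) (nat_lit 7) (nat_lit 6))
    (@En.n l145 (nat_lit 14108) (nat_lit 8) (nat_lit 3))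
    (@En.n l146 (nat_lit 14092) (nat_lit 9) (nat_lit 3))
    (@En.n l147 (nat_lit 14109) (nat_lit 11) (nat_lit 12))
    (@En.n l148 (nat_lit 14092) (nat_lit 12) (nat_lit 13))
    (@En.n l149 (nat_lit 14114) (nat_lit 13) (nat_lit 13))
    (@En.n l150 (nat_lit 936) (nat_lit 10) (nat_lit 10))
    (@En.n l17 (nat_lit 14093) (nat_lit 14) (nat_lit 2))
    (@En.n l18 (nat_lit 14093) (nat_lit 15) (nat_lit 2))))
  (@Cl.mk (nat_lit 0x20002000c0008000b000e00040002000b0005000e000800020005000e000e) (nat_lit 0x13460040a50089) (nat_lit 16) Lb.e (@T16.mk En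
    (@En.n l97 (nat_lit 14094) (nat_lit 1) (nat_lit 14))
    (@En.n l3724 (nat_lit 2137) (nat_lit 1) (nat_lit 14))
    (@En.n l387 (nat_lit 14042) (nat_lit 2) (nat_lit 5))
    (@En.n l17 (nat_lit 14094) (nat_lit 3) (nat_lit 2))
    (@En.n l13271 (nat_lit 13709) (nat_lit 4) (nat_lit 8))
    (@En.n l13272 (nat_lit 13477) (nat_lit 6) (nat_lit 14))
    (@En.n l13273 (nat_lit 12996) (nat_lit 6) (nat_lit 5))
    (@En.i (nat_lit 13616) (nat_lit 8) (nat_lit 11))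
    (@En.n l172 (nat_lit 14094) (nat_lit 8) (nat_lit 2))
    (@En.n l28 (nat_lit 14095) (nat_lit 9) (nat_lit 4))
    (@En.n l13274 (nat_lit 13026) (nat_lit 11) (nat_lit 14))
    (@En.i (nat_lit 14072) (nat_lit 7) (nat_lit 11))
    (@En.n l3724 (nat_lit 13326) (nat_lit 13) (nat_lit 8))
    (@En.n l1359 (nat_lit 1402) (nat_lit 10) (nat_lit 12))
    (@En.n l107 (nat_lit 14094) (nat_lit 14) (nat_lit 2))
    (@En.n l3 (nat_lit 14094) (nat_lit 15) (nat_lit 2))))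
  (@Cl.mk (nat_lit 0x20002000c000c0009000c00040004000b0004000e000700020005000e000e) (nat_lit 0x22450020b000ab) (nat_lit 16) Lb.e (@T16.mk En
    (@En.n l97 (nat_lit 14095) (nat_lit 1) (nat_lit 14))
    (@En.i (nat_lit 2399) (nat_lit 1) (nat_lit 14))
    (@En.n l387 (nat_lit 14045) (nat_lit 2) (nat_lit 5))
    (@En.n l17 (nat_lit 14095) (nat_lit 3) (nat_lit 2))
    (@En.n l10916 (nat_lit 13714) (nat_lit 4) (nat_lit 7))
    (@En.n l622 (nat_lit 13474) (nat_lit 6) (nat_lit 14))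
    (@En.n l17840 (nat_lit 12998) (nat_lit 6) (nat_lit 4))
    (@En.i (nat_lit 13589) (nat_lit 8) (nat_lit 11))
    (@En.n l25589 (nat_lit 14096) (nat_lit 8) (nat_lit 4))
    (@En.n l9025 (nat_lit 13359) (nat_lit 9) (nat_lit 4))
    (@En.i (nat_lit 14070) (nat_lit 6) (nat_lit 12))
    (@En.n l3178 (nat_lit 13896) (nat_lit 12) (nat_lit 9))
    (@En.n l164 (nat_lit 14094) (nat_lit 13) (nat_lit 12))
    (@En.n l1638 (nat_lit 1586) (nat_lit 10) (nat_lit 12))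
    (@En.n l107 (nat_lit 14095) (nat_lit 14) (nat_lit 2))
    (@En.n l3 (nat_lit 14095) (nat_lit 15) (nat_lit 2))))
noncomputable def a881 : T16 Cl := @T16.mk Cl
  (@Cl.mk (nat_lit 0x20002000e000c0002000a000d0004000b0003000e000600020005000e000e) (nat_lit 0x93046030a000bc) (nat_lit 16) Lb.e (@T16.mk En
    (@En.n l5 (nat_lit 14096) (nat_lit 1) (nat_lit 14))
    (@En.n l2031 (nat_lit 5120) (nat_lit 1) (nat_lit 14))
    (@En.n l1997 (nat_lit 14046) (nat_lit 2) (nat_lit 5))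
    (@En.n l7 (nat_lit 14096) (nat_lit 3) (nat_lit 2))
    (@En.n l5448 (nat_lit 14050) (nat_lit 4) (nat_lit 6))
    (@En.n l9922 (nat_lit 14097) (nat_lit 6) (nat_lit 14))
    (@En.n l2032 (nat_lit 13001) (nat_lit 6) (nat_lit 3))
    (@En.n l2034 (nat_lit 276) (nat_lit 8) (nat_lit 11))
    (@En.n l25433 (nat_lit 13362) (nat_lit 8) (nat_lit 4))
    (@En.n l2034 (nat_lit 14069) (nat_lit 5) (nat_lit 13))
    (@En.i (nat_lit 13792) (nat_lit 11) (nat_lit 10))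
    (@En.n l476 (nat_lit 14096) (nat_lit 11) (nat_lit 2))
    (@En.n l1783 (nat_lit 14095) (nat_lit 13) (nat_lit 12))
    (@En.n l2568 (nat_lit 1273) (nat_lit 1) (nat_lit 14))
    (@En.n l17 (nat_lit 14096) (nat_lit 14) (nat_lit 2))
    (@En.n l18 (nat_lit 14096) (nat_lit 15) (nat_lit 2))))
  (@Cl.mk (nat_lit 0x20002000e000c0002000b000a0004000b000e0005000200060005000e000e) (nat_lit 0x230570390000bc) (nat_lit 16) Lb.e (@T16.mk En
    (@En.n l97 (nat_lit 14097) (nat_lit 1) (nat_lit 14))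
    (@En.i (nat_lit 5121) (nat_lit 13) (nat_lit 14))
    (@En.n l14040 (nat_lit 14096) (nat_lit 2) (nat_lit 5))
    (@En.i (nat_lit 14050) (nat_lit 3) (nat_lit 6))
    (@En.n l18 (nat_lit 14097) (nat_lit 4) (nat_lit 2))
    (@En.n l50 (nat_lit 14049) (nat_lit 5) (nat_lit 5))
    (@En.n l1353 (nat_lit 12844) (nat_lit 7) (nat_lit 14))
    (@En.i (nat_lit 277) (nat_lit 8) (nat_lit 11))
    (@En.n l25709 (nat_lit 13363) (nat_lit 8) (nat_lit 4))
    (@En.n l2863 (nat_lit 13472) (nat_lit 10) (nat_lit 10))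
    (@En.n l5910 (nat_lit 13793) (nat_lit 11) (nat_lit 11))
    (@En.n l28 (nat_lit 14097) (nat_lit 11) (nat_lit 2))
    (@En.i (nat_lit 13474) (nat_lit 13) (nat_lit 12))
    (@En.n l5395 (nat_lit 1272) (nat_lit 1) (nat_lit 14))
    (@En.n l107 (nat_lit 14097) (nat_lit 14) (nat_lit 2))
    (@En.n l3 (nat_lit 14097) (nat_lit 15) (nat_lit 2))))
  (@Cl.mk (nat_lit 0x20002000b000e0009000200090005000e000d0002000700030007000e000e) (nat_lit 0x19302094000067) (nat_lit 16) Lb.e (@T16.mk En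
    (@En.n l97 (nat_lit 14098) (nat_lit 1) (nat_lit 14))
    (@En.n l725 (nat_lit 3556) (nat_lit 7) (nat_lit 14))
    (@En.n l7241 (nat_lit 12957) (nat_lit 2) (nat_lit 7))
    (@En.n l7242 (nat_lit 14099) (nat_lit 3) (nat_lit 3))
    (@En.n l387 (nat_lit 13545) (nat_lit 4) (nat_lit 7))
    (@En.n l50 (nat_lit 14098) (nat_lit 5) (nat_lit 2))
    (@En.n l4470 (nat_lit 14099) (nat_lit 7) (nat_lit 13))
    (@En.n l2362 (nat_lit 13390) (nat_lit 8) (nat_lit 14))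
    (@En.n l754 (nat_lit 13595) (nat_lit 8) (nat_lit 5))
    (@En.i (nat_lit 289) (nat_lit 10) (nat_lit 9))
    (@En.n l725 (nat_lit 14098) (nat_lit 10) (nat_lit 2))
    (@En.i (nat_lit 13852) (nat_lit 12) (nat_lit 9))
    (@En.n l7241 (nat_lit 13234) (nat_lit 13) (nat_lit 14))
    (@En.n l7243 (nat_lit 2155) (nat_lit 8) (nat_lit 11))
    (@En.n l107 (nat_lit 14098) (nat_lit 14) (nat_lit 2))
    (@En.n l3 (nat_lit 14098) (nat_lit 15) (nat_lit 2))))
  (@Cl.mk (nat_lit 0x20002000b000e000a000200090005000d000d0006000300030007000e000e) (nat_lit 0x1a302035000067) (nat_lit 16) Lb.e (@T16.mk En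
    (@En.n l5 (nat_lit 14099) (nat_lit 1) (nat_lit 14))
    (@En.n l6357 (nat_lit 3549) (nat_lit 7) (nat_lit 14))
    (@En.n l12588 (nat_lit 13640) (nat_lit 2) (nat_lit 7))
    (@En.n l7117 (nat_lit 14098) (nat_lit 3) (nat_lit 3))
    (@En.n l11 (nat_lit 14100) (nat_lit 4) (nat_lit 3))
    (@En.n l13791 (nat_lit 13541) (nat_lit 5) (nat_lit 6))
    (@En.n l55 (nat_lit 14100) (nat_lit 7) (nat_lit 13))
    (@En.n l564 (nat_lit 13836) (nat_lit 8) (nat_lit 13))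
    (@En.n l6295 (nat_lit 14101) (nat_lit 8) (nat_lit 5))
    (@En.n l8380 (nat_lit 288) (nat_lit 10) (nat_lit 9))
    (@En.n l3 (nat_lit 14099) (nat_lit 10) (nat_lit 2))
    (@En.i (nat_lit 13574) (nat_lit 12) (nat_lit 10))
    (@En.n l538 (nat_lit 13229) (nat_lit 13) (nat_lit 14))
    (@En.i (nat_lit 1798) (nat_lit 2) (nat_lit 11))
    (@En.n l17 (nat_lit 14099) (nat_lit 14) (nat_lit 2))
    (@En.n l18 (nat_lit 14099) (nat_lit 15) (nat_lit 2))))
  (@Cl.mk (nat_lit 0x20002000b000e000b000200090005000d0005000e000300020007000e000e) (nat_lit 0x19402040800034) (nat_lit 16) Lb.e (@T16.mk En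
    (@En.n l5 (nat_lit 14100) (nat_lit 1) (nat_lit 14))
    (@En.n l564 (nat_lit 3546) (nat_lit 7) (nat_lit 14))
    (@En.n l3506 (nat_lit 13639) (nat_lit 2) (nat_lit 7))
    (@En.n l28 (nat_lit 14100) (nat_lit 3) (nat_lit 2))
    (@En.i (nat_lit 14099) (nat_lit 4) (nat_lit 3))
    (@En.n l7471 (nat_lit 13826) (nat_lit 0) (nat_lit 14))
    (@En.i (nat_lit 13540) (nat_lit 6) (nat_lit 5))
    (@En.n l564 (nat_lit 13837) (nat_lit 8) (nat_lit 13))
    (@En.i (nat_lit 14102) (nat_lit 8) (nat_lit 5))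
    (@En.n l13819 (nat_lit 659) (nat_lit 10) (nat_lit 9))
    (@En.n l3 (nat_lit 14100) (nat_lit 10) (nat_lit 2))
    (@En.i (nat_lit 13364) (nat_lit 12) (nat_lit 11))
    (@En.n l538 (nat_lit 13230) (nat_lit 13) (nat_lit 14))
    (@En.i (nat_lit 1795) (nat_lit 2) (nat_lit 11))
    (@En.n l17 (nat_lit 14100) (nat_lit 14) (nat_lit 2))
    (@En.n l18 (nat_lit 14100) (nat_lit 15) (nat_lit 2))))
  (@Cl.mk (nat_lit 0x20002000b0006000e000b00020005000d000d000500030003000a000e000e) (nat_lit 0x30b4008a0005bc) (nat_lit 16) Lb.e (@T16.mk En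
    (@En.n l601 (nat_lit 14101) (nat_lit 1) (nat_lit 14))
    (@En.i (nat_lit 3550) (nat_lit 8) (nat_lit 14))
    (@En.n l248 (nat_lit 13584) (nat_lit 2) (nat_lit 10))
    (@En.n l711 (nat_lit 13595) (nat_lit 3) (nat_lit 3))
    (@En.n l12586 (nat_lit 14102) (nat_lit 4) (nat_lit 3))
    (@En.n l248 (nat_lit 13345) (nat_lit 5) (nat_lit 5))
    (@En.n l5552 (nat_lit 14102) (nat_lit 7) (nat_lit 13))
    (@En.n l1724 (nat_lit 13504) (nat_lit 8) (nat_lit 13))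
    (@En.n l253 (nat_lit 13258) (nat_lit 8) (nat_lit 5))
    (@En.n l3 (nat_lit 14101) (nat_lit 9) (nat_lit 2))
    (@En.n l5777 (nat_lit 13568) (nat_lit 11) (nat_lit 11))
    (@En.n l626 (nat_lit 14099) (nat_lit 12) (nat_lit 14))
    (@En.n l1724 (nat_lit 13920) (nat_lit 13) (nat_lit 6))
    (@En.i (nat_lit 1793) (nat_lit 3) (nat_lit 11))
    (@En.n l50 (nat_lit 14101) (nat_lit 14) (nat_lit 2))
    (@En.n l7 (nat_lit 14101) (nat_lit 15) (nat_lit 2))))
  (@Cl.mk (nat_lit 0x20002000b0006000e000c00020005000d0004000e00030002000a000e000e) (nat_lit 0x30a50090900523) (nat_lit 16) Lb.e (@T16.mk En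
    (@En.n l5 (nat_lit 14102) (nat_lit 1) (nat_lit 14))
    (@En.n l420 (nat_lit 3548) (nat_lit 8) (nat_lit 14))
    (@En.n l11680 (nat_lit 13579) (nat_lit 2) (nat_lit 10))
    (@En.n l28 (nat_lit 14102) (nat_lit 3) (nat_lit 2))
    (@En.n l6295 (nat_lit 14101) (nat_lit 4) (nat_lit 3))
    (@En.n l28438 (nat_lit 13827) (nat_lit 0) (nat_lit 14))
    (@En.i (nat_lit 13343) (nat_lit 6) (nat_lit 4))
    (@En.i (nat_lit 13520) (nat_lit 8) (nat_lit 13))
    (@En.n l4670 (nat_lit 13353) (nat_lit 8) (nat_lit 5))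
    (@En.n l3 (nat_lit 14102) (nat_lit 9) (nat_lit 2))
    (@En.i (nat_lit 13565) (nat_lit 11) (nat_lit 12))
    (@En.n l8 (nat_lit 14100) (nat_lit 12) (nat_lit 14))
    (@En.i (nat_lit 13919) (nat_lit 13) (nat_lit 6))
    (@En.n l420 (nat_lit 1791) (nat_lit 3) (nat_lit 11))
    (@En.n l17 (nat_lit 14102) (nat_lit 14) (nat_lit 2))
    (@En.n l18 (nat_lit 14102) (nat_lit 15) (nat_lit 2))))
  (@Cl.mk (nat_lit 0x200020007000e000e00020002000e000b0002000e000900020005000e000e) (nat_lit 0x2300540750034) (nat_lit 16) Lb.e (@T16.mk En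
    (@En.n l5 (nat_lit 14103) (nat_lit 1) (nat_lit 14))
    (@En.n l1349 (nat_lit 13234) (nat_lit 7) (nat_lit 14))
    (@En.n l126 (nat_lit 14072) (nat_lit 2) (nat_lit 5))
    (@En.n l12 (nat_lit 14103) (nat_lit 3) (nat_lit 2))
    (@En.n l126 (nat_lit 13952) (nat_lit 4) (nat_lit 9))
    (@En.n l12 (nat_lit 14104) (nat_lit 6) (nat_lit 14))
    (@En.n l8 (nat_lit 14103) (nat_lit 6) (nat_lit 2))
    (@En.n l1350 (nat_lit 14104) (nat_lit 8) (nat_lit 11))
    (@En.n l1351 (nat_lit 13754) (nat_lit 9) (nat_lit 14))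
    (@En.n l107 (nat_lit 14103) (nat_lit 9) (nat_lit 2))
    (@En.n l3 (nat_lit 14103) (nat_lit 10) (nat_lit 2))
    (@En.n l97 (nat_lit 14103) (nat_lit 12) (nat_lit 14))
    (@En.i (nat_lit 13023) (nat_lit 13) (nat_lit 14))
    (@En.n l1349 (nat_lit 12923) (nat_lit 2) (nat_lit 7))
    (@En.n l17 (nat_lit 14103) (nat_lit 14) (nat_lit 2))
    (@En.n l18 (nat_lit 14103) (nat_lit 15) (nat_lit 2))))
  (@Cl.mk (nat_lit 0x200020008000e000e00020002000b000b000e0008000200050005000e000e) (nat_lit 0x28900386400045) (nat_lit 16) Lb.e (@T16.mk En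
    (@En.n l5 (nat_lit 14104) (nat_lit 1) (nat_lit 14))
    (@En.n l418 (nat_lit 13256) (nat_lit 7) (nat_lit 14))
    (@En.n l4333 (nat_lit 14103) (nat_lit 2) (nat_lit 5))
    (@En.n l13 (nat_lit 14073) (nat_lit 3) (nat_lit 5))
    (@En.n l12 (nat_lit 14104) (nat_lit 4) (nat_lit 2))
    (@En.n l13 (nat_lit 13950) (nat_lit 5) (nat_lit 8))
    (@En.n l4334 (nat_lit 14105) (nat_lit 7) (nat_lit 14))
    (@En.n l134 (nat_lit 14105) (nat_lit 8) (nat_lit 11))
    (@En.n l4335 (nat_lit 13707) (nat_lit 9) (nat_lit 11))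
    (@En.n l107 (nat_lit 14104) (nat_lit 9) (nat_lit 2))
    (@En.n l3 (nat_lit 14104) (nat_lit 10) (nat_lit 2))
    (@En.n l97 (nat_lit 14104) (nat_lit 12) (nat_lit 14))
    (@En.n l418 (nat_lit 13019) (nat_lit 13) (nat_lit 14))
    (@En.n l4336 (nat_lit 12925) (nat_lit 2) (nat_lit 8))
    (@En.n l17 (nat_lit 14104) (nat_lit 14) (nat_lit 2))
    (@En.n l18 (nat_lit 14104) (nat_lit 15) (nat_lit 2))))
  (@Cl.mk (nat_lit 0x200020009000e000e00020002000b000e00070002000e00050002000e000e) (nat_lit 0x23400750080089) (nat_lit 16) Lb.e (@T16.mk En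
    (@En.n l5 (nat_lit 14105) (nat_lit 1) (nat_lit 14))
    (@En.n l537 (nat_lit 13257) (nat_lit 7) (nat_lit 14))
    (@En.n l7 (nat_lit 14105) (nat_lit 2) (nat_lit 2))
    (@En.n l28 (nat_lit 14104) (nat_lit 3) (nat_lit 5))
    (@En.n l538 (nat_lit 14074) (nat_lit 5) (nat_lit 14))
    (@En.n l12 (nat_lit 14105) (nat_lit 5) (nat_lit 2))
    (@En.n l13 (nat_lit 13951) (nat_lit 6) (nat_lit 7))
    (@En.i (nat_lit 14087) (nat_lit 8) (nat_lit 14))
    (@En.n l1172 (nat_lit 13708) (nat_lit 9) (nat_lit 11))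
    (@En.n l107 (nat_lit 14105) (nat_lit 9) (nat_lit 2))
    (@En.n l3 (nat_lit 14105) (nat_lit 10) (nat_lit 2))
    (@En.n l97 (nat_lit 14105) (nat_lit 12) (nat_lit 14))
    (@En.n l537 (nat_lit 13021) (nat_lit 13) (nat_lit 14))
    (@En.n l1252 (nat_lit 12928) (nat_lit 2) (nat_lit 9))
    (@En.n l17 (nat_lit 14105) (nat_lit 14) (nat_lit 2))
    (@En.n l18 (nat_lit 14105) (nat_lit 15) (nat_lit 2))))
  (@Cl.mk (nat_lit 0x20002000e000d0002000d0003000e00030002000e000e00020002000e000e) (nat_lit 0x63050b00bc0012) (nat_lit 16) Lb.e (@T16.mk En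
    (@En.n l5 (nat_lit 14106) (nat_lit 1) (nat_lit 14))
    (@En.n l131 (nat_lit 208) (nat_lit 1) (nat_lit 14))
    (@En.n l7 (nat_lit 14106) (nat_lit 2) (nat_lit 2))
    (@En.n l8 (nat_lit 14106) (nat_lit 3) (nat_lit 2))
    (@En.n l9 (nat_lit 14106) (nat_lit 5) (nat_lit 14))
    (@En.i (nat_lit 13066) (nat_lit 6) (nat_lit 14))
    (@En.n l12 (nat_lit 14106) (nat_lit 6) (nat_lit 2))
    (@En.n l13 (nat_lit 14111) (nat_lit 7) (nat_lit 3))
    (@En.n l125 (nat_lit 14088) (nat_lit 0) (nat_lit 14))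
    (@En.n l132 (nat_lit 14107) (nat_lit 9) (nat_lit 3))
    (@En.i (nat_lit 14108) (nat_lit 11) (nat_lit 13))
    (@En.n l3 (nat_lit 14106) (nat_lit 11) (nat_lit 2))
    (@En.n l133 (nat_lit 14107) (nat_lit 13) (nat_lit 13))
    (@En.i (nat_lit 13369) (nat_lit 10) (nat_lit 14))
    (@En.n l17 (nat_lit 14106) (nat_lit 14) (nat_lit 2))
    (@En.n l18 (nat_lit 14106) (nat_lit 15) (nat_lit 2))))
  (@Cl.mk (nat_lit 0x20002000d000d000c00030003000e00040002000e000e00020002000e000e) (nat_lit 0x26800b00bc0023) (nat_lit 16) Lb.e (@T16.mk En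
    (@En.n l164 (nat_lit 14107) (nat_lit 1) (nat_lit 14))
    (@En.n l165 (nat_lit 207) (nat_lit 1) (nat_lit 14))
    (@En.n l107 (nat_lit 14107) (nat_lit 2) (nat_lit 2))
    (@En.n l3 (nat_lit 14107) (nat_lit 3) (nat_lit 2))
    (@En.n l97 (nat_lit 14107) (nat_lit 5) (nat_lit 14))
    (@En.i (nat_lit 13060) (nat_lit 6) (nat_lit 14))
    (@En.n l17 (nat_lit 14107) (nat_lit 6) (nat_lit 2))
    (@En.n l166 (nat_lit 14110) (nat_lit 7) (nat_lit 4))
    (@En.n l167 (nat_lit 14089) (nat_lit 9) (nat_lit 14))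
    (@En.n l168 (nat_lit 14106) (nat_lit 9) (nat_lit 3))
    (@En.n l169 (nat_lit 14116) (nat_lit 10) (nat_lit 3))
    (@En.n l170 (nat_lit 14111) (nat_lit 12) (nat_lit 12))
    (@En.n l171 (nat_lit 14116) (nat_lit 13) (nat_lit 13))
    (@En.i (nat_lit 12931) (nat_lit 10) (nat_lit 13))
    (@En.n l172 (nat_lit 14107) (nat_lit 14) (nat_lit 2))
    (@En.n l28 (nat_lit 14107) (nat_lit 15) (nat_lit 2))))
  (@Cl.mk (nat_lit 0x20002000a000e000d0002000d000300060003000e000e00020002000e000e) (nat_lit 0x67409000bc0034) (nat_lit 16) Lb.e (@T16.mk En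
    (@En.n l5 (nat_lit 14108) (nat_lit 1) (nat_lit 14))
    (@En.n l131 (nat_lit 163) (nat_lit 1) (nat_lit 14))
    (@En.n l7 (nat_lit 14108) (nat_lit 2) (nat_lit 2))
    (@En.n l8 (nat_lit 14108) (nat_lit 3) (nat_lit 2))
    (@En.n l9 (nat_lit 14108) (nat_lit 5) (nat_lit 14))
    (@En.i (nat_lit 13087) (nat_lit 6) (nat_lit 14))
    (@En.n l158 (nat_lit 14109) (nat_lit 6) (nat_lit 3))
    (@En.i (nat_lit 14087) (nat_lit 7) (nat_lit 6))
    (@En.n l129 (nat_lit 14093) (nat_lit 8) (nat_lit 3))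
    (@En.n l182 (nat_lit 14090) (nat_lit 10) (nat_lit 13))
    (@En.n l107 (nat_lit 14108) (nat_lit 10) (nat_lit 2))
    (@En.n l158 (nat_lit 14093) (nat_lit 12) (nat_lit 13))
    (@En.n l182 (nat_lit 14111) (nat_lit 13) (nat_lit 14))
    (@En.n l389 (nat_lit 942) (nat_lit 10) (nat_lit 10))
    (@En.n l17 (nat_lit 14108) (nat_lit 14) (nat_lit 2))
    (@En.n l18 (nat_lit 14108) (nat_lit 15) (nat_lit 2))))
  (@Cl.mk (nat_lit 0x20002000b000e000c0002000d000500040003000e000e00020002000e000e) (nat_lit 0x67706000bc0023) (nat_lit 16) Lb.e (@T16.mk En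
    (@En.n l5 (nat_lit 14109) (nat_lit 1) (nat_lit 14))
    (@En.n l173 (nat_lit 206) (nat_lit 1) (nat_lit 14))
    (@En.n l142 (nat_lit 14109) (nat_lit 2) (nat_lit 2))
    (@En.n l28 (nat_lit 14109) (nat_lit 3) (nat_lit 2))
    (@En.n l143 (nat_lit 14109) (nat_lit 5) (nat_lit 14))
    (@En.i (nat_lit 13032) (nat_lit 6) (nat_lit 14))
    (@En.n l174 (nat_lit 14108) (nat_lit 6) (nat_lit 3))
    (@En.n l114 (nat_lit 14107) (nat_lit 7) (nat_lit 4))
    (@En.n l175 (nat_lit 14090) (nat_lit 8) (nat_lit 5))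
    (@En.n l176 (nat_lit 14091) (nat_lit 10) (nat_lit 13))
    (@En.n l3 (nat_lit 14109) (nat_lit 10) (nat_lit 2))
    (@En.i (nat_lit 14110) (nat_lit 12) (nat_lit 12))
    (@En.n l27 (nat_lit 14113) (nat_lit 13) (nat_lit 14))
    (@En.n l156 (nat_lit 947) (nat_lit 10) (nat_lit 11))
    (@En.n l17 (nat_lit 14109) (nat_lit 14) (nat_lit 2))
    (@En.n l18 (nat_lit 14109) (nat_lit 15) (nat_lit 2))))
  (@Cl.mk (nat_lit 0x20002000c000c000c000c0004000400040004000e000e00020002000e000e) (nat_lit 0x66990000bc0023) (nat_lit 16) Lb.e (@T16.mk En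
    (@En.n l5 (nat_lit 14110) (nat_lit 1) (nat_lit 14))
    (@En.n l141 (nat_lit 195) (nat_lit 1) (nat_lit 14))
    (@En.n l142 (nat_lit 14110) (nat_lit 2) (nat_lit 2))
    (@En.n l28 (nat_lit 14110) (nat_lit 3) (nat_lit 2))
    (@En.n l143 (nat_lit 14110) (nat_lit 5) (nat_lit 14))
    (@En.i (nat_lit 13034) (nat_lit 6) (nat_lit 14))
    (@En.n l151 (nat_lit 14112) (nat_lit 6) (nat_lit 4))
    (@En.n l152 (nat_lit 14109) (nat_lit 7) (nat_lit 4))
    (@En.n l153 (nat_lit 14111) (nat_lit 8) (nat_lit 4))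
    (@En.i (nat_lit 14091) (nat_lit 9) (nat_lit 4))
    (@En.n l154 (nat_lit 14107) (nat_lit 11) (nat_lit 12))
    (@En.n l148 (nat_lit 14114) (nat_lit 12) (nat_lit 12))
    (@En.n l155 (nat_lit 14115) (nat_lit 13) (nat_lit 12))
    (@En.n l156 (nat_lit 12919) (nat_lit 10) (nat_lit 12))
    (@En.n l17 (nat_lit 14110) (nat_lit 14) (nat_lit 2))
    (@En.n l18 (nat_lit 14110) (nat_lit 15) (nat_lit 2))))
  (@Cl.mk (nat_lit 0x20002000e000c0002000d000d000400030003000e000e00020002000e000e) (nat_lit 0x670a6000bc0012) (nat_lit 16) Lb.e (@T16.mk En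
    (@En.n l5 (nat_lit 14111) (nat_lit 1) (nat_lit 14))
    (@En.n l32 (nat_lit 194) (nat_lit 1) (nat_lit 14))
    (@En.n l7 (nat_lit 14111) (nat_lit 2) (nat_lit 2))
    (@En.n l8 (nat_lit 14111) (nat_lit 3) (nat_lit 2))
    (@En.n l9 (nat_lit 14111) (nat_lit 5) (nat_lit 14))
    (@En.n l12 (nat_lit 13086) (nat_lit 6) (nat_lit 14))
    (@En.i (nat_lit 14113) (nat_lit 6) (nat_lit 3))
    (@En.n l33 (nat_lit 14106) (nat_lit 7) (nat_lit 3))
    (@En.n l34 (nat_lit 14114) (nat_lit 8) (nat_lit 4))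
    (@En.i (nat_lit 14106) (nat_lit 10) (nat_lit 13))
    (@En.n l35 (nat_lit 14093) (nat_lit 11) (nat_lit 13))
    (@En.n l3 (nat_lit 14111) (nat_lit 11) (nat_lit 2))
    (@En.n l36 (nat_lit 14110) (nat_lit 13) (nat_lit 12))
    (@En.i (nat_lit 13367) (nat_lit 10) (nat_lit 14))
    (@En.n l17 (nat_lit 14111) (nat_lit 14) (nat_lit 2))
    (@En.n l18 (nat_lit 14111) (nat_lit 15) (nat_lit 2))))
noncomputable def a882 : T16 Cl := @T16.mk Cl
  (@Cl.mk (nat_lit 0x20002000b000b000e000c0002000500050004000e000e00020002000e000e) (nat_lit 0x66aa0000bc0023) (nat_lit 16) Lb.e (@T16.mk En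
    (@En.n l31 (nat_lit 14112) (nat_lit 1) (nat_lit 14))
    (@En.n l41 (nat_lit 193) (nat_lit 1) (nat_lit 14))
    (@En.n l17 (nat_lit 14112) (nat_lit 2) (nat_lit 2))
    (@En.n l18 (nat_lit 14112) (nat_lit 3) (nat_lit 2))
    (@En.n l5 (nat_lit 14112) (nat_lit 5) (nat_lit 14))
    (@En.n l42 (nat_lit 13373) (nat_lit 6) (nat_lit 14))
    (@En.n l43 (nat_lit 14093) (nat_lit 6) (nat_lit 4))
    (@En.n l44 (nat_lit 14113) (nat_lit 7) (nat_lit 5))
    (@En.n l42 (nat_lit 14109) (nat_lit 8) (nat_lit 5))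
    (@En.n l28 (nat_lit 14112) (nat_lit 9) (nat_lit 2))
    (@En.n l45 (nat_lit 14110) (nat_lit 11) (nat_lit 12))
    (@En.n l46 (nat_lit 14117) (nat_lit 12) (nat_lit 14))
    (@En.n l47 (nat_lit 14117) (nat_lit 13) (nat_lit 11))
    (@En.i (nat_lit 12918) (nat_lit 10) (nat_lit 11))
    (@En.n l2 (nat_lit 14112) (nat_lit 14) (nat_lit 2))
    (@En.n l3 (nat_lit 14112) (nat_lit 15) (nat_lit 2))))
  (@Cl.mk (nat_lit 0x20002000e000b0002000e000d000200050003000e000e00020002000e000e) (nat_lit 0x670bb0009a0012) (nat_lit 16) Lb.e (@T16.mk En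
    (@En.n l5 (nat_lit 14113) (nat_lit 1) (nat_lit 14))
    (@En.n l6 (nat_lit 1) (nat_lit 1) (nat_lit 14))
    (@En.n l7 (nat_lit 14113) (nat_lit 2) (nat_lit 2))
    (@En.n l8 (nat_lit 14113) (nat_lit 3) (nat_lit 2))
    (@En.n l9 (nat_lit 14113) (nat_lit 5) (nat_lit 14))
    (@En.n l10 (nat_lit 13375) (nat_lit 6) (nat_lit 14))
    (@En.n l11 (nat_lit 14111) (nat_lit 6) (nat_lit 3))
    (@En.n l4 (nat_lit 14116) (nat_lit 7) (nat_lit 5))
    (@En.n l12 (nat_lit 14113) (nat_lit 8) (nat_lit 2))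
    (@En.n l13 (nat_lit 14111) (nat_lit 10) (nat_lit 13))
    (@En.n l14 (nat_lit 14112) (nat_lit 11) (nat_lit 14))
    (@En.n l3 (nat_lit 14113) (nat_lit 11) (nat_lit 2))
    (@En.n l15 (nat_lit 14112) (nat_lit 13) (nat_lit 11))
    (@En.n l16 (nat_lit 13375) (nat_lit 10) (nat_lit 14))
    (@En.n l17 (nat_lit 14113) (nat_lit 14) (nat_lit 2))
    (@En.n l18 (nat_lit 14113) (nat_lit 15) (nat_lit 2))))
  (@Cl.mk (nat_lit 0x20002000d000c000b0003000e000400020005000e000e00020002000e000e) (nat_lit 0x2880a000bc0034) (nat_lit 16) Lb.e (@T16.mk En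
    (@En.n l134 (nat_lit 14114) (nat_lit 1) (nat_lit 14))
    (@En.n l135 (nat_lit 183) (nat_lit 1) (nat_lit 14))
    (@En.n l107 (nat_lit 14114) (nat_lit 2) (nat_lit 2))
    (@En.n l3 (nat_lit 14114) (nat_lit 3) (nat_lit 2))
    (@En.n l97 (nat_lit 14114) (nat_lit 5) (nat_lit 14))
    (@En.i (nat_lit 13078) (nat_lit 6) (nat_lit 14))
    (@En.n l136 (nat_lit 14115) (nat_lit 6) (nat_lit 5))
    (@En.n l17 (nat_lit 14114) (nat_lit 7) (nat_lit 2))
    (@En.n l137 (nat_lit 14110) (nat_lit 8) (nat_lit 4))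
    (@En.n l12 (nat_lit 14092) (nat_lit 10) (nat_lit 14))
    (@En.i (nat_lit 14089) (nat_lit 10) (nat_lit 3))
    (@En.n l138 (nat_lit 14113) (nat_lit 12) (nat_lit 11))
    (@En.n l139 (nat_lit 14091) (nat_lit 13) (nat_lit 12))
    (@En.n l140 (nat_lit 12930) (nat_lit 10) (nat_lit 13))
    (@En.n l7 (nat_lit 14114) (nat_lit 14) (nat_lit 2))
    (@En.n l28 (nat_lit 14114) (nat_lit 15) (nat_lit 2))))
  (@Cl.mk (nat_lit 0x20002000c000b000b000e0004000200050005000e000e00020002000e000e) (nat_lit 0x58820000ab0012) (nat_lit 16) Lb.e (@T16.mk En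
    (@En.n l5 (nat_lit 14115) (nat_lit 1) (nat_lit 14))
    (@En.n l157 (nat_lit 198) (nat_lit 1) (nat_lit 14))
    (@En.n l7 (nat_lit 14115) (nat_lit 2) (nat_lit 2))
    (@En.n l8 (nat_lit 14115) (nat_lit 3) (nat_lit 2))
    (@En.n l9 (nat_lit 14115) (nat_lit 5) (nat_lit 14))
    (@En.n l158 (nat_lit 13058) (nat_lit 6) (nat_lit 14))
    (@En.n l159 (nat_lit 14117) (nat_lit 6) (nat_lit 5))
    (@En.n l160 (nat_lit 14112) (nat_lit 7) (nat_lit 5))
    (@En.n l107 (nat_lit 14115) (nat_lit 8) (nat_lit 2))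
    (@En.n l161 (nat_lit 14110) (nat_lit 9) (nat_lit 4))
    (@En.n l162 (nat_lit 14116) (nat_lit 11) (nat_lit 14))
    (@En.n l163 (nat_lit 14116) (nat_lit 12) (nat_lit 11))
    (@En.i (nat_lit 14090) (nat_lit 13) (nat_lit 11))
    (@En.n l157 (nat_lit 12896) (nat_lit 10) (nat_lit 12))
    (@En.n l17 (nat_lit 14115) (nat_lit 14) (nat_lit 2))
    (@En.n l18 (nat_lit 14115) (nat_lit 15) (nat_lit 2))))
  (@Cl.mk (nat_lit 0x20002000d000b000e00030002000e00050002000e000e00020002000e000e) (nat_lit 0x57100b00bc0023) (nat_lit 16) Lb.e (@T16.mk En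
    (@En.n l31 (nat_lit 14116) (nat_lit 1) (nat_lit 14))
    (@En.i (nat_lit 201) (nat_lit 1) (nat_lit 14))
    (@En.n l17 (nat_lit 14116) (nat_lit 2) (nat_lit 2))
    (@En.n l18 (nat_lit 14116) (nat_lit 3) (nat_lit 2))
    (@En.n l5 (nat_lit 14116) (nat_lit 5) (nat_lit 14))
    (@En.n l37 (nat_lit 13061) (nat_lit 6) (nat_lit 14))
    (@En.n l7 (nat_lit 14116) (nat_lit 6) (nat_lit 2))
    (@En.n l38 (nat_lit 14115) (nat_lit 7) (nat_lit 5))
    (@En.n l39 (nat_lit 14114) (nat_lit 9) (nat_lit 14))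
    (@En.n l11 (nat_lit 14116) (nat_lit 9) (nat_lit 2))
    (@En.n l40 (nat_lit 14107) (nat_lit 10) (nat_lit 3))
    (@En.i (nat_lit 0) (nat_lit 0) (nat_lit 14))
    (@En.n l37 (nat_lit 14109) (nat_lit 13) (nat_lit 11))
    (@En.i (nat_lit 12895) (nat_lit 10) (nat_lit 13))
    (@En.n l2 (nat_lit 14116) (nat_lit 14) (nat_lit 2))
    (@En.n l3 (nat_lit 14116) (nat_lit 15) (nat_lit 2))))
  (@Cl.mk (nat_lit 0x20002000b000e000b0002000e000500020005000e000e00020002000e000e) (nat_lit 0x599030009a0034) (nat_lit 16) Lb.e (@T16.mk En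
    (@En.n l5 (nat_lit 14117) (nat_lit 1) (nat_lit 14))
    (@En.n l177 (nat_lit 197) (nat_lit 1) (nat_lit 14))
    (@En.n l7 (nat_lit 14117) (nat_lit 2) (nat_lit 2))
    (@En.n l8 (nat_lit 14117) (nat_lit 3) (nat_lit 2))
    (@En.n l9 (nat_lit 14117) (nat_lit 5) (nat_lit 14))
    (@En.n l158 (nat_lit 13374) (nat_lit 6) (nat_lit 14))
    (@En.n l178 (nat_lit 14092) (nat_lit 6) (nat_lit 5))
    (@En.n l11 (nat_lit 14117) (nat_lit 7) (nat_lit 2))
    (@En.n l179 (nat_lit 14112) (nat_lit 8) (nat_lit 5))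
    (@En.n l180 (nat_lit 14115) (nat_lit 10) (nat_lit 14))
    (@En.n l181 (nat_lit 14117) (nat_lit 10) (nat_lit 2))
    (@En.n l182 (nat_lit 14115) (nat_lit 12) (nat_lit 11))
    (@En.n l177 (nat_lit 14088) (nat_lit 4) (nat_lit 14))
    (@En.n l183 (nat_lit 12898) (nat_lit 10) (nat_lit 11))
    (@En.n l17 (nat_lit 14117) (nat_lit 14) (nat_lit 2))
    (@En.n l18 (nat_lit 14117) (nat_lit 15) (nat_lit 2))))
  (@Cl.mk (nat_lit 0x20002000b000e000b0002000e000500020005000e000e00020002000e000e) (nat_lit 0x599030009a0034) (nat_lit 16) Lb.e (@T16.mk En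
    (@En.n l5 (nat_lit 14117) (nat_lit 1) (nat_lit 14))
    (@En.n l177 (nat_lit 197) (nat_lit 1) (nat_lit 14))
    (@En.n l7 (nat_lit 14117) (nat_lit 2) (nat_lit 2))
    (@En.n l8 (nat_lit 14117) (nat_lit 3) (nat_lit 2))
    (@En.n l9 (nat_lit 14117) (nat_lit 5) (nat_lit 14))
    (@En.n l158 (nat_lit 13374) (nat_lit 6) (nat_lit 14))
    (@En.n l178 (nat_lit 14092) (nat_lit 6) (nat_lit 5))
    (@En.n l11 (nat_lit 14117) (nat_lit 7) (nat_lit 2))
    (@En.n l179 (nat_lit 14112) (nat_lit 8) (nat_lit 5))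
    (@En.n l180 (nat_lit 14115) (nat_lit 10) (nat_lit 14))
    (@En.n l181 (nat_lit 14117) (nat_lit 10) (nat_lit 2))
    (@En.n l182 (nat_lit 14115) (nat_lit 12) (nat_lit 11))
    (@En.n l177 (nat_lit 14088) (nat_lit 4) (nat_lit 14))
    (@En.n l183 (nat_lit 12898) (nat_lit 10) (nat_lit 11))
    (@En.n l17 (nat_lit 14117) (nat_lit 14) (nat_lit 2))
    (@En.n l18 (nat_lit 14117) (nat_lit 15) (nat_lit 2))))
  (@Cl.mk (nat_lit 0x20002000b000e000b0002000e000500020005000e000e00020002000e000e) (nat_lit 0x599030009a0034) (nat_lit 16) Lb.e (@T16.mk En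
    (@En.n l5 (nat_lit 14117) (nat_lit 1) (nat_lit 14))
    (@En.n l177 (nat_lit 197) (nat_lit 1) (nat_lit 14))
    (@En.n l7 (nat_lit 14117) (nat_lit 2) (nat_lit 2))
    (@En.n l8 (nat_lit 14117) (nat_lit 3) (nat_lit 2))
    (@En.n l9 (nat_lit 14117) (nat_lit 5) (nat_lit 14))
    (@En.n l158 (nat_lit 13374) (nat_lit 6) (nat_lit 14))
    (@En.n l178 (nat_lit 14092) (nat_lit 6) (nat_lit 5))
    (@En.n l11 (nat_lit 14117) (nat_lit 7) (nat_lit 2))
    (@En.n l179 (nat_lit 14112) (nat_lit 8) (nat_lit 5))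
    (@En.n l180 (nat_lit 14115) (nat_lit 10) (nat_lit 14))
    (@En.n l181 (nat_lit 14117) (nat_lit 10) (nat_lit 2))
    (@En.n l182 (nat_lit 14115) (nat_lit 12) (nat_lit 11))
    (@En.n l177 (nat_lit 14088) (nat_lit 4) (nat_lit 14))
    (@En.n l183 (nat_lit 12898) (nat_lit 10) (nat_lit 11))
    (@En.n l17 (nat_lit 14117) (nat_lit 14) (nat_lit 2))
    (@En.n l18 (nat_lit 14117) (nat_lit 15) (nat_lit 2))))
  (@Cl.mk (nat_lit 0x20002000b000e000b0002000e000500020005000e000e00020002000e000e) (nat_lit 0x599030009a0034) (nat_lit 16) Lb.e (@T16.mk En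
    (@En.n l5 (nat_lit 14117) (nat_lit 1) (nat_lit 14))
    (@En.n l177 (nat_lit 197) (nat_lit 1) (nat_lit 14))
    (@En.n l7 (nat_lit 14117) (nat_lit 2) (nat_lit 2))
    (@En.n l8 (nat_lit 14117) (nat_lit 3) (nat_lit 2))
    (@En.n l9 (nat_lit 14117) (nat_lit 5) (nat_lit 14))
    (@En.n l158 (nat_lit 13374) (nat_lit 6) (nat_lit 14))
    (@En.n l178 (nat_lit 14092) (nat_lit 6) (nat_lit 5))
    (@En.n l11 (nat_lit 14117) (nat_lit 7) (nat_lit 2))
    (@En.n l179 (nat_lit 14112) (nat_lit 8) (nat_lit 5))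
    (@En.n l180 (nat_lit 14115) (nat_lit 10) (nat_lit 14))
    (@En.n l181 (nat_lit 14117) (nat_lit 10) (nat_lit 2))
    (@En.n l182 (nat_lit 14115) (nat_lit 12) (nat_lit 11))
    (@En.n l177 (nat_lit 14088) (nat_lit 4) (nat_lit 14))
    (@En.n l183 (nat_lit 12898) (nat_lit 10) (nat_lit 11))
    (@En.n l17 (nat_lit 14117) (nat_lit 14) (nat_lit 2))
    (@En.n l18 (nat_lit 14117) (nat_lit 15) (nat_lit 2))))
  (@Cl.mk (nat_lit 0x20002000b000e000b0002000e000500020005000e000e00020002000e000e) (nat_lit 0x599030009a0034) (nat_lit 16) Lb.e (@T16.mk En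
    (@En.n l5 (nat_lit 14117) (nat_lit 1) (nat_lit 14))
    (@En.n l177 (nat_lit 197) (nat_lit 1) (nat_lit 14))
    (@En.n l7 (nat_lit 14117) (nat_lit 2) (nat_lit 2))
    (@En.n l8 (nat_lit 14117) (nat_lit 3) (nat_lit 2))
    (@En.n l9 (nat_lit 14117) (nat_lit 5) (nat_lit 14))
    (@En.n l158 (nat_lit 13374) (nat_lit 6) (nat_lit 14))
    (@En.n l178 (nat_lit 14092) (nat_lit 6) (nat_lit 5))
    (@En.n l11 (nat_lit 14117) (nat_lit 7) (nat_lit 2))
    (@En.n l179 (nat_lit 14112) (nat_lit 8) (nat_lit 5))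
    (@En.n l180 (nat_lit 14115) (nat_lit 10) (nat_lit 14))
    (@En.n l181 (nat_lit 14117) (nat_lit 10) (nat_lit 2))
    (@En.n l182 (nat_lit 14115) (nat_lit 12) (nat_lit 11))
    (@En.n l177 (nat_lit 14088) (nat_lit 4) (nat_lit 14))
    (@En.n l183 (nat_lit 12898) (nat_lit 10) (nat_lit 11))
    (@En.n l17 (nat_lit 14117) (nat_lit 14) (nat_lit 2))
    (@En.n l18 (nat_lit 14117) (nat_lit 15) (nat_lit 2))))
  (@Cl.mk (nat_lit 0x20002000b000e000b0002000e000500020005000e000e00020002000e000e) (nat_lit 0x599030009a0034) (nat_lit 16) Lb.e (@T16.mk En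
    (@En.n l5 (nat_lit 14117) (nat_lit 1) (nat_lit 14))
    (@En.n l177 (nat_lit 197) (nat_lit 1) (nat_lit 14))
    (@En.n l7 (nat_lit 14117) (nat_lit 2) (nat_lit 2))
    (@En.n l8 (nat_lit 14117) (nat_lit 3) (nat_lit 2))
    (@En.n l9 (nat_lit 14117) (nat_lit 5) (nat_lit 14))
    (@En.n l158 (nat_lit 13374) (nat_lit 6) (nat_lit 14))
    (@En.n l178 (nat_lit 14092) (nat_lit 6) (nat_lit 5))
    (@En.n l11 (nat_lit 14117) (nat_lit 7) (nat_lit 2))
    (@En.n l179 (nat_lit 14112) (nat_lit 8) (nat_lit 5))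
    (@En.n l180 (nat_lit 14115) (nat_lit 10) (nat_lit 14))
    (@En.n l181 (nat_lit 14117) (nat_lit 10) (nat_lit 2))
    (@En.n l182 (nat_lit 14115) (nat_lit 12) (nat_lit 11))
    (@En.n l177 (nat_lit 14088) (nat_lit 4) (nat_lit 14))
    (@En.n l183 (nat_lit 12898) (nat_lit 10) (nat_lit 11))
    (@En.n l17 (nat_lit 14117) (nat_lit 14) (nat_lit 2))
    (@En.n l18 (nat_lit 14117) (nat_lit 15) (nat_lit 2))))
  (@Cl.mk (nat_lit 0x20002000b000e000b0002000e000500020005000e000e00020002000e000e) (nat_lit 0x599030009a0034) (nat_lit 16) Lb.e (@T16.mk En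
    (@En.n l5 (nat_lit 14117) (nat_lit 1) (nat_lit 14))
    (@En.n l177 (nat_lit 197) (nat_lit 1) (nat_lit 14))
    (@En.n l7 (nat_lit 14117) (nat_lit 2) (nat_lit 2))
    (@En.n l8 (nat_lit 14117) (nat_lit 3) (nat_lit 2))
    (@En.n l9 (nat_lit 14117) (nat_lit 5) (nat_lit 14))
    (@En.n l158 (nat_lit 13374) (nat_lit 6) (nat_lit 14))
    (@En.n l178 (nat_lit 14092) (nat_lit 6) (nat_lit 5))
    (@En.n l11 (nat_lit 14117) (nat_lit 7) (nat_lit 2))
    (@En.n l179 (nat_lit 14112) (nat_lit 8) (nat_lit 5))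
    (@En.n l180 (nat_lit 14115) (nat_lit 10) (nat_lit 14))
    (@En.n l181 (nat_lit 14117) (nat_lit 10) (nat_lit 2))
    (@En.n l182 (nat_lit 14115) (nat_lit 12) (nat_lit 11))
    (@En.n l177 (nat_lit 14088) (nat_lit 4) (nat_lit 14))
    (@En.n l183 (nat_lit 12898) (nat_lit 10) (nat_lit 11))
    (@En.n l17 (nat_lit 14117) (nat_lit 14) (nat_lit 2))
    (@En.n l18 (nat_lit 14117) (nat_lit 15) (nat_lit 2))))
  (@Cl.mk (nat_lit 0x20002000b000e000b0002000e000500020005000e000e00020002000e000e) (nat_lit 0x599030009a0034) (nat_lit 16) Lb.e (@T16.mk En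
    (@En.n l5 (nat_lit 14117) (nat_lit 1) (nat_lit 14))
    (@En.n l177 (nat_lit 197) (nat_lit 1) (nat_lit 14))
    (@En.n l7 (nat_lit 14117) (nat_lit 2) (nat_lit 2))
    (@En.n l8 (nat_lit 14117) (nat_lit 3) (nat_lit 2))
    (@En.n l9 (nat_lit 14117) (nat_lit 5) (nat_lit 14))
    (@En.n l158 (nat_lit 13374) (nat_lit 6) (nat_lit 14))
    (@En.n l178 (nat_lit 14092) (nat_lit 6) (nat_lit 5))
    (@En.n l11 (nat_lit 14117) (nat_lit 7) (nat_lit 2))
    (@En.n l179 (nat_lit 14112) (nat_lit 8) (nat_lit 5))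
    (@En.n l180 (nat_lit 14115) (nat_lit 10) (nat_lit 14))
    (@En.n l181 (nat_lit 14117) (nat_lit 10) (nat_lit 2))
    (@En.n l182 (nat_lit 14115) (nat_lit 12) (nat_lit 11))
    (@En.n l177 (nat_lit 14088) (nat_lit 4) (nat_lit 14))
    (@En.n l183 (nat_lit 12898) (nat_lit 10) (nat_lit 11))
    (@En.n l17 (nat_lit 14117) (nat_lit 14) (nat_lit 2))
    (@En.n l18 (nat_lit 14117) (nat_lit 15) (nat_lit 2))))
  (@Cl.mk (nat_lit 0x20002000b000e000b0002000e000500020005000e000e00020002000e000e) (nat_lit 0x599030009a0034) (nat_lit 16) Lb.e (@T16.mk En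
    (@En.n l5 (nat_lit 14117) (nat_lit 1) (nat_lit 14))
    (@En.n l177 (nat_lit 197) (nat_lit 1) (nat_lit 14))
    (@En.n l7 (nat_lit 14117) (nat_lit 2) (nat_lit 2))
    (@En.n l8 (nat_lit 14117) (nat_lit 3) (nat_lit 2))
    (@En.n l9 (nat_lit 14117) (nat_lit 5) (nat_lit 14))
    (@En.n l158 (nat_lit 13374) (nat_lit 6) (nat_lit 14))
    (@En.n l178 (nat_lit 14092) (nat_lit 6) (nat_lit 5))
    (@En.n l11 (nat_lit 14117) (nat_lit 7) (nat_lit 2))
    (@En.n l179 (nat_lit 14112) (nat_lit 8) (nat_lit 5))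
    (@En.n l180 (nat_lit 14115) (nat_lit 10) (nat_lit 14))
    (@En.n l181 (nat_lit 14117) (nat_lit 10) (nat_lit 2))
    (@En.n l182 (nat_lit 14115) (nat_lit 12) (nat_lit 11))
    (@En.n l177 (nat_lit 14088) (nat_lit 4) (nat_lit 14))
    (@En.n l183 (nat_lit 12898) (nat_lit 10) (nat_lit 11))
    (@En.n l17 (nat_lit 14117) (nat_lit 14) (nat_lit 2))
    (@En.n l18 (nat_lit 14117) (nat_lit 15) (nat_lit 2))))
  (@Cl.mk (nat_lit 0x20002000b000e000b0002000e000500020005000e000e00020002000e000e) (nat_lit 0x599030009a0034) (nat_lit 16) Lb.e (@T16.mk En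
    (@En.n l5 (nat_lit 14117) (nat_lit 1) (nat_lit 14))
    (@En.n l177 (nat_lit 197) (nat_lit 1) (nat_lit 14))
    (@En.n l7 (nat_lit 14117) (nat_lit 2) (nat_lit 2))
    (@En.n l8 (nat_lit 14117) (nat_lit 3) (nat_lit 2))
    (@En.n l9 (nat_lit 14117) (nat_lit 5) (nat_lit 14))
    (@En.n l158 (nat_lit 13374) (nat_lit 6) (nat_lit 14))
    (@En.n l178 (nat_lit 14092) (nat_lit 6) (nat_lit 5))
    (@En.n l11 (nat_lit 14117) (nat_lit 7) (nat_lit 2))
    (@En.n l179 (nat_lit 14112) (nat_lit 8) (nat_lit 5))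
    (@En.n l180 (nat_lit 14115) (nat_lit 10) (nat_lit 14))
    (@En.n l181 (nat_lit 14117) (nat_lit 10) (nat_lit 2))
    (@En.n l182 (nat_lit 14115) (nat_lit 12) (nat_lit 11))
    (@En.n l177 (nat_lit 14088) (nat_lit 4) (nat_lit 14))
    (@En.n l183 (nat_lit 12898) (nat_lit 10) (nat_lit 11))
    (@En.n l17 (nat_lit 14117) (nat_lit 14) (nat_lit 2))
    (@En.n l18 (nat_lit 14117) (nat_lit 15) (nat_lit 2))))
  (@Cl.mk (nat_lit 0x20002000b000e000b0002000e000500020005000e000e00020002000e000e) (nat_lit 0x599030009a0034) (nat_lit 16) Lb.e (@T16.mk En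
    (@En.n l5 (nat_lit 14117) (nat_lit 1) (nat_lit 14))
    (@En.n l177 (nat_lit 197) (nat_lit 1) (nat_lit 14))
    (@En.n l7 (nat_lit 14117) (nat_lit 2) (nat_lit 2))
    (@En.n l8 (nat_lit 14117) (nat_lit 3) (nat_lit 2))
    (@En.n l9 (nat_lit 14117) (nat_lit 5) (nat_lit 14))
    (@En.n l158 (nat_lit 13374) (nat_lit 6) (nat_lit 14))
    (@En.n l178 (nat_lit 14092) (nat_lit 6) (nat_lit 5))
    (@En.n l11 (nat_lit 14117) (nat_lit 7) (nat_lit 2))
    (@En.n l179 (nat_lit 14112) (nat_lit 8) (nat_lit 5))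
    (@En.n l180 (nat_lit 14115) (nat_lit 10) (nat_lit 14))
    (@En.n l181 (nat_lit 14117) (nat_lit 10) (nat_lit 2))
    (@En.n l182 (nat_lit 14115) (nat_lit 12) (nat_lit 11))
    (@En.n l177 (nat_lit 14088) (nat_lit 4) (nat_lit 14))
    (@En.n l183 (nat_lit 12898) (nat_lit 10) (nat_lit 11))
    (@En.n l17 (nat_lit 14117) (nat_lit 14) (nat_lit 2))
    (@En.n l18 (nat_lit 14117) (nat_lit 15) (nat_lit 2))))

end Pool.Agent.MP_61a8e3_al.G4.K
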