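import Pool.Agent.MP_61a8e3_al.G4.KR
import Pool.Agent.MP_61a8e3_al.G4.KT0
import Pool.Agent.MP_61a8e3_al.G4.KT1

/-! Part K: labels, part 0. -/

set_option autoImplicit false
set_option maxRecDepth 100000
set_option linter.all false

namespace Pool.Agent.MP_61a8e3_al.G4.K

noncomputable def l0 : Lb := Lb.e
noncomputable def l1 : Lb := (@Lb.r r275 (@Lb.d (nat_lit 0) (nat_lit 518) (nat_lit 1) (@Lb.g g9 (@Lb.g g10 (@Lb.r r1363 (@Lb.r r2209 (@Lb.r r162 (@Lb.d (nat_lit 0) (nat_lit 66) (nat_lit 32) (@Lb.fm (nat_lit 3) t0)))))))))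
noncomputable def l2 : Lb := (@Lb.r r82 (@Lb.r r275 (@Lb.d (nat_lit 0) (nat_lit 353) (nat_lit 0) (@Lb.g g9 (@Lb.r r291 (@Lb.r r98 (@Lb.d (nat_lit 0) (nat_lit 145) (nat_lit 0) (@Lb.t (@Lb.fp (nat_lit 3) t1)))))))))
noncomputable def l3 : Lb := (@Lb.g g11 (@Lb.t (@Lb.p (nat_lit 1) (@Lb.fp (nat_lit 3) t2))))
noncomputable def l4 : Lb := (@Lb.d (nat_lit 161) (nat_lit 2) (nat_lit 128) (@Lb.g g8 (@Lb.g g9 (@Lb.g g10 (@Lb.g g11 (@Lb.r r2667 (@Lb.r r2710 (@Lb.r r357 (@Lb.r r660 (@Lb.d (nat_lit 276) (nat_lit 42) (nat_lit 168) (@Lb.fm (nat_lit 9) t3)))))))))))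
noncomputable def l5 : Lb := (@Lb.g g4 (@Lb.d (nat_lit 1) (nat_lit 512) (nat_lit 0) (@Lb.t (@Lb.fm (nat_lit 3) t2))))
noncomputable def l6 : Lb := (@Lb.d (nat_lit 2) (nat_lit 21) (nat_lit 10) (@Lb.g g8 (@Lb.g g9 (@Lb.g g10 (@Lb.g g11 (@Lb.r r323 (@Lb.r r2453 (@Lb.r r2468 (@Lb.r r2438 (@Lb.d (nat_lit 577) (nat_lit 0) (nat_lit 578) (@Lb.fm (nat_lit 9) t4)))))))))))
noncomputable def l7 : Lb := (@Lb.g g9 (@Lb.t (@Lb.p (nat_lit 1) (@Lb.fp (nat_lit 3) t2))))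
noncomputable def l8 : Lb := (@Lb.r r82 (@Lb.r r275 (@Lb.d (nat_lit 0) (nat_lit 257) (nat_lit 0) (@Lb.g g9 (@Lb.r r291 (@Lb.r r98 (@Lb.d (nat_lit 0) (nat_lit 2) (nat_lit 0) (@Lb.t (@Lb.fp (nat_lit 3) t5)))))))))
noncomputable def l9 : Lb := (@Lb.r r323 (@Lb.d (nat_lit 0) (nat_lit 5) (nat_lit 2) (@Lb.g g9 (@Lb.g g10 (@Lb.r r339 (@Lb.r r162 (@Lb.r r161 (@Lb.d (nat_lit 0) (nat_lit 0) (nat_lit 2) (@Lb.fm (nat_lit 3) t6)))))))))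
noncomputable def l10 : Lb := (@Lb.d (nat_lit 0) (nat_lit 578) (nat_lit 16) (@Lb.r r1122 (@Lb.r r2145 (@Lb.r r2323 (@Lb.g g10 (@Lb.g g9 (@Lb.r r387 (@Lb.fp (nat_lit 3) t7))))))))
noncomputable def l11 : Lb := (@Lb.g g10 (@Lb.t (@Lb.p (nat_lit 1) (@Lb.fp (nat_lit 3) t2))))
noncomputable def l12 : Lb := (@Lb.r r82 (@Lb.r r275 (@Lb.d (nat_lit 0) (nat_lit 393) (nat_lit 0) (@Lb.g g9 (@Lb.r r291 (@Lb.r r98 (@Lb.d (nat_lit 0) (nat_lit 69) (nat_lit 0) (@Lb.t (@Lb.fp (nat_lit 3) t8)))))))))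
noncomputable def l13 : Lb := (@Lb.r r82 (@Lb.r r275 (@Lb.d (nat_lit 0) (nat_lit 137) (nat_lit 0) (@Lb.g g5 (@Lb.r r291 (@Lb.r r98 (@Lb.d (nat_lit 0) (nat_lit 69) (nat_lit 0) (@Lb.t (@Lb.fm (nat_lit 3) t9)))))))))
noncomputable def l14 : Lb := (@Lb.d (nat_lit 145) (nat_lit 2) (nat_lit 74) (@Lb.g g8 (@Lb.g g9 (@Lb.g g10 (@Lb.g g11 (@Lb.r r683 (@Lb.r r2197 (@Lb.r r1124 (@Lb.r r586 (@Lb.d (nat_lit 597) (nat_lit 66) (nat_lit 134) (@Lb.fm (nat_lit 9) t10)))))))))))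
noncomputable def l15 : Lb := (@Lb.d (nat_lit 146) (nat_lit 514) (nat_lit 128) (@Lb.g g8 (@Lb.g g9 (@Lb.g g10 (@Lb.g g11 (@Lb.r r1706 (@Lb.r r1411 (@Lb.r r36 (@Lb.r r1045 (@Lb.r r2084 (@Lb.d (nat_lit 353) (nat_lit 68) (nat_lit 344) (@Lb.fm (nat_lit 9) t11))))))))))))
noncomputable def l16 : Lb := (@Lb.d (nat_lit 145) (nat_lit 514) (nat_lit 128) (@Lb.g g8 (@Lb.g g9 (@Lb.g g10 (@Lb.g g11 (@Lb.r r683 (@Lb.r r2410 (@Lb.r r612 (@Lb.r r2069 (@Lb.r r1060 (@Lb.d (nat_lit 353) (nat_lit 144) (nat_lit 401) (@Lb.fm (nat_lit 9) t11))))))))))))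
noncomputable def l17 : Lb := (@Lb.d (nat_lit 2) (nat_lit 256) (nat_lit 0) (@Lb.fp (nat_lit 1) t2))
noncomputable def l18 : Lb := (@Lb.g g8 (@Lb.t (@Lb.p (nat_lit 1) (@Lb.fp (nat_lit 3) t2))))
noncomputable def l19 : Lb := (@Lb.r r82 (@Lb.d (nat_lit 2) (nat_lit 258) (nat_lit 128) (@Lb.g g8 (@Lb.g g9 (@Lb.g g11 (@Lb.r r299 (@Lb.r r418 (@Lb.r r289 (@Lb.r r24 (@Lb.d (nat_lit 74) (nat_lit 161) (nat_lit 330) (@Lb.t (@Lb.fp (nat_lit 9) t12))))))))))))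
noncomputable def l20 : Lb := (@Lb.d (nat_lit 8) (nat_lit 0) (nat_lit 130) (@Lb.g g9 (@Lb.g g10 (@Lb.g g11 (@Lb.r r2407 (@Lb.r r386 (@Lb.r r1368 (@Lb.r r661 (@Lb.d (nat_lit 660) (nat_lit 42) (nat_lit 148) (@Lb.t (@Lb.fm (nat_lit 9) t13)))))))))))
noncomputable def l21 : Lb := (@Lb.d (nat_lit 8) (nat_lit 264) (nat_lit 130) (@Lb.g g9 (@Lb.g g10 (@Lb.g g11 (@Lb.r r387 (@Lb.r r2214 (@Lb.r r1364 (@Lb.r r665 (@Lb.d (nat_lit 681) (nat_lit 42) (nat_lit 153) (@Lb.t (@Lb.fp (nat_lit 9) t14)))))))))))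
noncomputable def l22 : Lb := (@Lb.d (nat_lit 169) (nat_lit 592) (nat_lit 266) (@Lb.r r618 (@Lb.r r600 (@Lb.r r2651 (@Lb.g g6 (@Lb.g g5 (@Lb.d (nat_lit 20) (nat_lit 2) (nat_lit 4) (@Lb.r r291 (@Lb.fm (nat_lit 3) t15)))))))))
noncomputable def l23 : Lb := (@Lb.d (nat_lit 89) (nat_lit 36) (nat_lit 68) (@Lb.g g8 (@Lb.g g9 (@Lb.g g10 (@Lb.g g11 (@Lb.r r2691 (@Lb.r r609 (@Lb.r r1690 (@Lb.r r164 (@Lb.d (nat_lit 36) (nat_lit 164) (nat_lit 66) (@Lb.fm (nat_lit 9) t16)))))))))))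
noncomputable def l24 : Lb := (@Lb.d (nat_lit 36) (nat_lit 514) (nat_lit 130) (@Lb.g g8 (@Lb.g g9 (@Lb.g g10 (@Lb.g g11 (@Lb.r r164 (@Lb.r r405 (@Lb.r r1387 (@Lb.r r2630 (@Lb.r r2180 (@Lb.d (nat_lit 409) (nat_lit 138) (nat_lit 97) (@Lb.fp (nat_lit 9) t17))))))))))))
noncomputable def l25 : Lb := (@Lb.d (nat_lit 2) (nat_lit 296) (nat_lit 6) (@Lb.g g8 (@Lb.g g9 (@Lb.g g10 (@Lb.g g11 (@Lb.r r2403 (@Lb.r r418 (@Lb.r r36 (@Lb.r r149 (@Lb.r r2084 (@Lb.d (nat_lit 417) (nat_lit 0) (nat_lit 600) (@Lb.fm (nat_lit 9) t18))))))))))))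
noncomputable def l26 : Lb := (@Lb.r r283 (@Lb.d (nat_lit 132) (nat_lit 0) (nat_lit 2) (@Lb.g g8 (@Lb.g g9 (@Lb.g g10 (@Lb.r r98 (@Lb.r r1385 (@Lb.r r2647 (@Lb.r r2404 (@Lb.d (nat_lit 602) (nat_lit 106) (nat_lit 42) (@Lb.t (@Lb.fm (nat_lit 9) t19))))))))))))
noncomputable def l27 : Lb := (@Lb.r r323 (@Lb.g g5 (@Lb.g g6 (@Lb.r r1315 (@Lb.r r2145 (@Lb.r r2130 (@Lb.d (nat_lit 0) (nat_lit 385) (nat_lit 32) (@Lb.fp (nat_lit 3) t20))))))))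
noncomputable def l28 : Lb := (@Lb.d (nat_lit 0) (nat_lit 266) (nat_lit 2) (@Lb.fp (nat_lit 1) t21))
noncomputable def l29 : Lb := (@Lb.d (nat_lit 26) (nat_lit 289) (nat_lit 4) (@Lb.g g8 (@Lb.g g9 (@Lb.g g10 (@Lb.g g11 (@Lb.r r355 (@Lb.r r418 (@Lb.r r36 (@Lb.r r2197 (@Lb.r r2084 (@Lb.d (nat_lit 673) (nat_lit 138) (nat_lit 74) (@Lb.fm (nat_lit 9) t22))))))))))))
noncomputable def l30 : Lb := (@Lb.r r81 (@Lb.d (nat_lit 128) (nat_lit 40) (nat_lit 162) (@Lb.g g6 (@Lb.g g11 (@Lb.r r409 (@Lb.r r404 (@Lb.r r299 (@Lb.d (nat_lit 409) (nat_lit 32) (nat_lit 145) (@Lb.fp (nat_lit 3) t23)))))))))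
noncomputable def l31 : Lb := (@Lb.d (nat_lit 0) (nat_lit 0) (nat_lit 320) (@Lb.r r2321 (@Lb.r r2386 (@Lb.g g7 (@Lb.g g5 (@Lb.r r98 (@Lb.fm (nat_lit 3) t24)))))))
noncomputable def l32 : Lb := (@Lb.r r82 (@Lb.r r275 (@Lb.d (nat_lit 2) (nat_lit 0) (nat_lit 0) (@Lb.g g8 (@Lb.g g9 (@Lb.r r2315 (@Lb.r r2122 (@Lb.r r37 (@Lb.d (nat_lit 261) (nat_lit 10) (nat_lit 2) (@Lb.fp (nat_lit 3) t25))))))))))
noncomputable def l33 : Lb := (@Lb.r r275 (@Lb.g g9 (@Lb.g g10 (@Lb.r r2467 (@Lb.r r2193 (@Lb.d (nat_lit 0) (nat_lit 0) (nat_lit 18) (@Lb.fm (nat_lit 3) t26)))))))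
noncomputable def l34 : Lb := (@Lb.d (nat_lit 2) (nat_lit 258) (nat_lit 136) (@Lb.g g8 (@Lb.g g9 (@Lb.g g11 (@Lb.r r1193 (@Lb.r r2468 (@Lb.r r2438 (@Lb.r r2635 (@Lb.d (nat_lit 546) (nat_lit 10) (nat_lit 550) (@Lb.t (@Lb.fp (nat_lit 9) t27)))))))))))
noncomputable def l35 : Lb := (@Lb.d (nat_lit 0) (nat_lit 273) (nat_lit 656) (@Lb.r r2642 (@Lb.r r401 (@Lb.r r2323 (@Lb.g g6 (@Lb.g g9 (@Lb.r r387 (@Lb.fp (nat_lit 3) t28))))))))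
noncomputable def l36 : Lb := (@Lb.d (nat_lit 0) (nat_lit 512) (nat_lit 104) (@Lb.g g9 (@Lb.g g6 (@Lb.g g11 (@Lb.r r579 (@Lb.r r1425 (@Lb.d (nat_lit 0) (nat_lit 5) (nat_lit 680) (@Lb.t (@Lb.fm (nat_lit 9) t29)))))))))
noncomputable def l37 : Lb := (@Lb.d (nat_lit 2) (nat_lit 294) (nat_lit 128) (@Lb.g g8 (@Lb.g g9 (@Lb.g g10 (@Lb.g g11 (@Lb.r r387 (@Lb.r r386 (@Lb.r r612 (@Lb.r r533 (@Lb.r r1060 (@Lb.d (nat_lit 418) (nat_lit 0) (nat_lit 641) (@Lb.fm (nat_lit 9) t30))))))))))))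
noncomputable def l38 : Lb := (@Lb.r r283 (@Lb.d (nat_lit 132) (nat_lit 32) (nat_lit 2) (@Lb.g g8 (@Lb.g g9 (@Lb.g g10 (@Lb.r r2643 (@Lb.r r386 (@Lb.r r1109 (@Lb.r r548 (@Lb.d (nat_lit 345) (nat_lit 18) (nat_lit 656) (@Lb.t (@Lb.fm (nat_lit 9) t31))))))))))))
noncomputable def l39 : Lb := (@Lb.d (nat_lit 8) (nat_lit 2) (nat_lit 128) (@Lb.g g9 (@Lb.g g10 (@Lb.g g11 (@Lb.r r1671 (@Lb.r r24 (@Lb.r r1429 (@Lb.r r1106 (@Lb.d (nat_lit 329) (nat_lit 69) (nat_lit 138) (@Lb.t (@Lb.fm (nat_lit 9) t32)))))))))))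
noncomputable def l40 : Lb := (@Lb.d (nat_lit 136) (nat_lit 2) (nat_lit 162) (@Lb.g g9 (@Lb.g g6 (@Lb.g g11 (@Lb.r r24 (@Lb.r r405 (@Lb.r r291 (@Lb.d (nat_lit 329) (nat_lit 162) (nat_lit 88) (@Lb.t (@Lb.fm (nat_lit 9) t32))))))))))
noncomputable def l41 : Lb := (@Lb.d (nat_lit 32) (nat_lit 256) (nat_lit 130) (@Lb.g g10 (@Lb.g g11 (@Lb.r r423 (@Lb.r r600 (@Lb.r r1429 (@Lb.r r1426 (@Lb.d (nat_lit 400) (nat_lit 90) (nat_lit 297) (@Lb.fm (nat_lit 3) t33)))))))))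
noncomputable def l42 : Lb := (@Lb.d (nat_lit 2) (nat_lit 289) (nat_lit 4) (@Lb.g g8 (@Lb.g g9 (@Lb.g g10 (@Lb.g g11 (@Lb.r r387 (@Lb.r r425 (@Lb.r r2728 (@Lb.r r2698 (@Lb.d (nat_lit 529) (nat_lit 0) (nat_lit 101) (@Lb.fm (nat_lit 9) t34)))))))))))
noncomputable def l43 : Lb := (@Lb.d (nat_lit 2) (nat_lit 545) (nat_lit 130) (@Lb.g g8 (@Lb.g g9 (@Lb.g g10 (@Lb.g g11 (@Lb.r r387 (@Lb.r r386 (@Lb.r r612 (@Lb.r r533 (@Lb.r r1060 (@Lb.d (nat_lit 418) (nat_lit 0) (nat_lit 641) (@Lb.fm (nat_lit 9) t35))))))))))))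
noncomputable def l44 : Lb := (@Lb.d (nat_lit 26) (nat_lit 552) (nat_lit 6) (@Lb.g g8 (@Lb.g g9 (@Lb.g g10 (@Lb.g g11 (@Lb.r r355 (@Lb.r r418 (@Lb.r r36 (@Lb.r r2197 (@Lb.r r2084 (@Lb.d (nat_lit 673) (nat_lit 138) (nat_lit 74) (@Lb.fm (nat_lit 9) t36))))))))))))
noncomputable def l45 : Lb := (@Lb.d (nat_lit 2) (nat_lit 550) (nat_lit 5) (@Lb.g g8 (@Lb.g g9 (@Lb.g g10 (@Lb.g g11 (@Lb.r r387 (@Lb.r r425 (@Lb.r r2728 (@Lb.r r2698 (@Lb.d (nat_lit 529) (nat_lit 0) (nat_lit 165) (@Lb.fm (nat_lit 9) t30)))))))))))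
noncomputable def l46 : Lb := (@Lb.r r148 (@Lb.d (nat_lit 8) (nat_lit 385) (nat_lit 137) (@Lb.g g5 (@Lb.g g10 (@Lb.g g11 (@Lb.r r1384 (@Lb.r r1687 (@Lb.r r1174 (@Lb.d (nat_lit 342) (nat_lit 152) (nat_lit 388) (@Lb.t (@Lb.fm (nat_lit 9) t37)))))))))))
noncomputable def l47 : Lb := (@Lb.r r85 (@Lb.d (nat_lit 2) (nat_lit 4) (nat_lit 17) (@Lb.g g8 (@Lb.g g6 (@Lb.g g11 (@Lb.r r1045 (@Lb.r r2660 (@Lb.r r2631 (@Lb.d (nat_lit 0) (nat_lit 34) (nat_lit 8) (@Lb.t (@Lb.fm (nat_lit 9) t38)))))))))))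
noncomputable def l48 : Lb := (@Lb.r r323 (@Lb.d (nat_lit 0) (nat_lit 258) (nat_lit 1) (@Lb.g g9 (@Lb.g g6 (@Lb.r r387 (@Lb.r r2153 (@Lb.r r8 (@Lb.d (nat_lit 532) (nat_lit 74) (nat_lit 34) (@Lb.fp (nat_lit 3) t39)))))))))
noncomputable def l49 : Lb := (@Lb.d (nat_lit 9) (nat_lit 128) (nat_lit 0) (@Lb.r r289 (@Lb.r r535 (@Lb.r r328 (@Lb.r r134 (@Lb.g g11 (@Lb.t (@Lb.fp (nat_lit 3) t40))))))))
noncomputable def l50 : Lb := (@Lb.d (nat_lit 10) (nat_lit 258) (nat_lit 0) (@Lb.fp (nat_lit 1) t2))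
noncomputable def l51 : Lb := (@Lb.d (nat_lit 298) (nat_lit 73) (nat_lit 17) (@Lb.r r289 (@Lb.r r1626 (@Lb.r r1384 (@Lb.r r2711 (@Lb.g g7 (@Lb.g g6 (@Lb.d (nat_lit 16) (nat_lit 0) (nat_lit 133) (@Lb.fp (nat_lit 3) t41)))))))))
noncomputable def l52 : Lb := (@Lb.d (nat_lit 4) (nat_lit 129) (nat_lit 2) (@Lb.r r289 (@Lb.r r279 (@Lb.r r584 (@Lb.g g7 (@Lb.g g10 (@Lb.d (nat_lit 32) (nat_lit 0) (nat_lit 65) (@Lb.fp (nat_lit 3) t42))))))))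
noncomputable def l53 : Lb := (@Lb.r r273 (@Lb.g g10 (@Lb.g g11 (@Lb.r r665 (@Lb.r r2708 (@Lb.r r2726 (@Lb.r r1671 (@Lb.d (nat_lit 0) (nat_lit 552) (nat_lit 597) (@Lb.fm (nat_lit 3) t43)))))))))
noncomputable def l54 : Lb := (@Lb.d (nat_lit 0) (nat_lit 2) (nat_lit 130) (@Lb.g g9 (@Lb.g g10 (@Lb.g g11 (@Lb.r r582 (@Lb.r r388 (@Lb.r r2667 (@Lb.r r2657 (@Lb.d (nat_lit 2) (nat_lit 160) (nat_lit 422) (@Lb.t (@Lb.fm (nat_lit 9) t44)))))))))))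
noncomputable def l55 : Lb := (@Lb.d (nat_lit 0) (nat_lit 517) (nat_lit 1) (@Lb.fp (nat_lit 1) t45))
noncomputable def l56 : Lb := (@Lb.r r323 (@Lb.d (nat_lit 0) (nat_lit 258) (nat_lit 1) (@Lb.g g9 (@Lb.g g6 (@Lb.r r387 (@Lb.r r2153 (@Lb.r r8 (@Lb.d (nat_lit 534) (nat_lit 74) (nat_lit 98) (@Lb.fp (nat_lit 3) t39)))))))))
noncomputable def l57 : Lb := (@Lb.d (nat_lit 0) (nat_lit 260) (nat_lit 105) (@Lb.g g9 (@Lb.g g6 (@Lb.g g11 (@Lb.r r579 (@Lb.r r297 (@Lb.r r8 (@Lb.d (nat_lit 70) (nat_lit 34) (nat_lit 666) (@Lb.t (@Lb.fm (nat_lit 9) t46))))))))))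
noncomputable def l58 : Lb := (@Lb.d (nat_lit 129) (nat_lit 528) (nat_lit 2) (@Lb.g g8 (@Lb.g g9 (@Lb.g g10 (@Lb.g g11 (@Lb.r r683 (@Lb.r r1642 (@Lb.r r1561 (@Lb.r r516 (@Lb.d (nat_lit 649) (nat_lit 68) (nat_lit 144) (@Lb.fm (nat_lit 9) t47)))))))))))
noncomputable def l59 : Lb := (@Lb.r r323 (@Lb.d (nat_lit 9) (nat_lit 2) (nat_lit 1) (@Lb.g g8 (@Lb.g g9 (@Lb.g g6 (@Lb.r r387 (@Lb.r r2145 (@Lb.r r24 (@Lb.d (nat_lit 10) (nat_lit 73) (nat_lit 34) (@Lb.t (@Lb.fp (nat_lit 9) t40)))))))))))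
noncomputable def l60 : Lb := (@Lb.r r323 (@Lb.d (nat_lit 8) (nat_lit 514) (nat_lit 1) (@Lb.g g8 (@Lb.g g9 (@Lb.g g6 (@Lb.r r387 (@Lb.r r1109 (@Lb.r r2068 (@Lb.d (nat_lit 17) (nat_lit 137) (nat_lit 2) (@Lb.t (@Lb.fp (nat_lit 9) t48)))))))))))
noncomputable def l61 : Lb := (@Lb.d (nat_lit 1) (nat_lit 512) (nat_lit 0) (@Lb.fp (nat_lit 1) t2))
noncomputable def l62 : Lb := (@Lb.g g8 (@Lb.g g5 (@Lb.r r24 (@Lb.r r2069 (@Lb.r r36 (@Lb.d (nat_lit 0) (nat_lit 130) (nat_lit 0) (@Lb.fm (nat_lit 3) t2)))))))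
noncomputable def l63 : Lb := (@Lb.d (nat_lit 0) (nat_lit 2) (nat_lit 0) (@Lb.g g8 (@Lb.g g9 (@Lb.r r40 (@Lb.r r1065 (@Lb.r r1060 (@Lb.d (nat_lit 514) (nat_lit 130) (nat_lit 0) (@Lb.fm (nat_lit 3) t2))))))))
noncomputable def l64 : Lb := (@Lb.d (nat_lit 0) (nat_lit 514) (nat_lit 0) (@Lb.g g8 (@Lb.g g9 (@Lb.r r1122 (@Lb.r r25 (@Lb.r r24 (@Lb.d (nat_lit 360) (nat_lit 2) (nat_lit 528) (@Lb.fp (nat_lit 3) t49))))))))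
noncomputable def l65 : Lb := (@Lb.r r355 (@Lb.d (nat_lit 36) (nat_lit 161) (nat_lit 2) (@Lb.g g5 (@Lb.g g10 (@Lb.r r1611 (@Lb.r r1096 (@Lb.r r2198 (@Lb.d (nat_lit 676) (nat_lit 134) (nat_lit 145) (@Lb.fm (nat_lit 3) t50)))))))))
noncomputable def l66 : Lb := (@Lb.d (nat_lit 4) (nat_lit 514) (nat_lit 66) (@Lb.g g9 (@Lb.g g10 (@Lb.g g11 (@Lb.r r419 (@Lb.r r98 (@Lb.r r8 (@Lb.d (nat_lit 4) (nat_lit 66) (nat_lit 138) (@Lb.t (@Lb.fp (nat_lit 9) t51))))))))))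
noncomputable def l67 : Lb := (@Lb.d (nat_lit 0) (nat_lit 256) (nat_lit 136) (@Lb.g g11 (@Lb.d (nat_lit 0) (nat_lit 0) (nat_lit 68) (@Lb.t (@Lb.fp (nat_lit 3) t2)))))
noncomputable def l68 : Lb := (@Lb.d (nat_lit 0) (nat_lit 256) (nat_lit 137) (@Lb.g g10 (@Lb.g g7 (@Lb.r r386 (@Lb.d (nat_lit 0) (nat_lit 0) (nat_lit 9) (@Lb.fm (nat_lit 3) t2))))))
noncomputable def l69 : Lb := (@Lb.r r21 (@Lb.d (nat_lit 10) (nat_lit 40) (nat_lit 130) (@Lb.g g8 (@Lb.g g10 (@Lb.g g11 (@Lb.r r1121 (@Lb.r r2134 (@Lb.r r408 (@Lb.r r423 (@Lb.d (nat_lit 96) (nat_lit 130) (nat_lit 538) (@Lb.t (@Lb.fm (nat_lit 9) t2))))))))))))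
noncomputable def l70 : Lb := (@Lb.r r21 (@Lb.d (nat_lit 130) (nat_lit 264) (nat_lit 2) (@Lb.g g8 (@Lb.g g10 (@Lb.r r295 (@Lb.r r1121 (@Lb.r r2450 (@Lb.r r164 (@Lb.d (nat_lit 38) (nat_lit 144) (nat_lit 664) (@Lb.fm (nat_lit 3) t2))))))))))
noncomputable def l71 : Lb := (@Lb.d (nat_lit 608) (nat_lit 677) (nat_lit 534) (@Lb.r r1426 (@Lb.r r2649 (@Lb.r r600 (@Lb.r r347 (@Lb.g g7 (@Lb.g g6 (@Lb.d (nat_lit 16) (nat_lit 0) (nat_lit 65) (@Lb.fm (nat_lit 3) t50)))))))))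
noncomputable def l72 : Lb := (@Lb.d (nat_lit 1) (nat_lit 256) (nat_lit 0) (@Lb.g g8 (@Lb.d (nat_lit 2) (nat_lit 0) (nat_lit 0) (@Lb.t (@Lb.fp (nat_lit 3) t2)))))
noncomputable def l73 : Lb := (@Lb.g g8 (@Lb.r r2073 (@Lb.d (nat_lit 258) (nat_lit 0) (nat_lit 0) (@Lb.t (@Lb.fp (nat_lit 3) t2)))))
noncomputable def l74 : Lb := (@Lb.d (nat_lit 146) (nat_lit 265) (nat_lit 130) (@Lb.g g8 (@Lb.g g9 (@Lb.g g10 (@Lb.g g11 (@Lb.r r1706 (@Lb.r r1411 (@Lb.r r36 (@Lb.r r1045 (@Lb.r r2084 (@Lb.d (nat_lit 585) (nat_lit 4) (nat_lit 360) (@Lb.fm (nat_lit 9) t52))))))))))))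
noncomputable def l75 : Lb := (@Lb.d (nat_lit 145) (nat_lit 9) (nat_lit 73) (@Lb.g g8 (@Lb.g g9 (@Lb.g g10 (@Lb.g g11 (@Lb.r r683 (@Lb.r r2410 (@Lb.r r1561 (@Lb.r r1540 (@Lb.d (nat_lit 394) (nat_lit 153) (nat_lit 5) (@Lb.fm (nat_lit 9) t53)))))))))))
noncomputable def l76 : Lb := (@Lb.d (nat_lit 146) (nat_lit 9) (nat_lit 130) (@Lb.g g8 (@Lb.g g9 (@Lb.g g10 (@Lb.g g11 (@Lb.r r683 (@Lb.r r2406 (@Lb.r r1561 (@Lb.r r1540 (@Lb.d (nat_lit 529) (nat_lit 9) (nat_lit 273) (@Lb.fm (nat_lit 9) t53)))))))))))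
noncomputable def l77 : Lb := (@Lb.g g5 (@Lb.t (@Lb.fm (nat_lit 3) t2)))
noncomputable def l78 : Lb := (@Lb.d (nat_lit 2) (nat_lit 9) (nat_lit 130) (@Lb.g g8 (@Lb.g g9 (@Lb.g g10 (@Lb.g g11 (@Lb.r r1193 (@Lb.r r420 (@Lb.r r390 (@Lb.r r1611 (@Lb.r r516 (@Lb.d (nat_lit 274) (nat_lit 10) (nat_lit 586) (@Lb.fm (nat_lit 9) t54))))))))))))
noncomputable def l79 : Lb := (@Lb.d (nat_lit 2) (nat_lit 265) (nat_lit 129) (@Lb.g g8 (@Lb.g g9 (@Lb.g g10 (@Lb.g g11 (@Lb.r r2459 (@Lb.r r297 (@Lb.r r1384 (@Lb.r r2630 (@Lb.d (nat_lit 658) (nat_lit 130) (nat_lit 356) (@Lb.fp (nat_lit 9) t55)))))))))))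
noncomputable def l80 : Lb := (@Lb.d (nat_lit 129) (nat_lit 258) (nat_lit 130) (@Lb.g g8 (@Lb.g g9 (@Lb.g g10 (@Lb.g g11 (@Lb.r r1706 (@Lb.r r1411 (@Lb.r r548 (@Lb.r r21 (@Lb.r r36 (@Lb.d (nat_lit 9) (nat_lit 168) (nat_lit 266) (@Lb.fm (nat_lit 9) t56))))))))))))
noncomputable def l81 : Lb := (@Lb.d (nat_lit 600) (nat_lit 277) (nat_lit 82) (@Lb.r r360 (@Lb.r r150 (@Lb.r r1385 (@Lb.g g7 (@Lb.g g5 (@Lb.g g4 (@Lb.d (nat_lit 17) (nat_lit 1) (nat_lit 324) (@Lb.r r610 (@Lb.t (@Lb.fm (nat_lit 9) t57)))))))))))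
noncomputable def l82 : Lb := (@Lb.d (nat_lit 129) (nat_lit 2) (nat_lit 130) (@Lb.g g8 (@Lb.g g9 (@Lb.g g10 (@Lb.g g11 (@Lb.r r683 (@Lb.r r618 (@Lb.r r612 (@Lb.r r21 (@Lb.r r36 (@Lb.d (nat_lit 9) (nat_lit 84) (nat_lit 24) (@Lb.fm (nat_lit 9) t57))))))))))))
noncomputable def l83 : Lb := (@Lb.r r82 (@Lb.r r275 (@Lb.d (nat_lit 2) (nat_lit 520) (nat_lit 0) (@Lb.g g8 (@Lb.g g9 (@Lb.r r2315 (@Lb.r r1114 (@Lb.r r2193 (@Lb.d (nat_lit 529) (nat_lit 138) (nat_lit 18) (@Lb.fm (nat_lit 3) t58))))))))))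
noncomputable def l84 : Lb := (@Lb.d (nat_lit 8) (nat_lit 2) (nat_lit 128) (@Lb.g g9 (@Lb.g g10 (@Lb.g g11 (@Lb.r r1671 (@Lb.r r330 (@Lb.r r24 (@Lb.r r1317 (@Lb.d (nat_lit 614) (nat_lit 98) (nat_lit 400) (@Lb.t (@Lb.fp (nat_lit 9) t59)))))))))))
noncomputable def l85 : Lb := (@Lb.d (nat_lit 390) (nat_lit 577) (nat_lit 330) (@Lb.r r2068 (@Lb.r r537 (@Lb.r r659 (@Lb.g g6 (@Lb.g g5 (@Lb.g g4 (@Lb.d (nat_lit 65) (nat_lit 24) (nat_lit 32) (@Lb.r r403 (@Lb.t (@Lb.fm (nat_lit 9) t60)))))))))))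
noncomputable def l86 : Lb := (@Lb.d (nat_lit 2) (nat_lit 2) (nat_lit 130) (@Lb.g g8 (@Lb.g g9 (@Lb.g g10 (@Lb.g g11 (@Lb.r r427 (@Lb.r r386 (@Lb.r r97 (@Lb.r r24 (@Lb.d (nat_lit 74) (nat_lit 9) (nat_lit 68) (@Lb.fm (nat_lit 9) t61)))))))))))
noncomputable def l87 : Lb := (@Lb.d (nat_lit 600) (nat_lit 533) (nat_lit 82) (@Lb.r r360 (@Lb.r r150 (@Lb.r r1385 (@Lb.g g7 (@Lb.g g5 (@Lb.g g4 (@Lb.d (nat_lit 17) (nat_lit 1) (nat_lit 260) (@Lb.r r610 (@Lb.t (@Lb.fm (nat_lit 9) t62)))))))))))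
noncomputable def l88 : Lb := (@Lb.d (nat_lit 64) (nat_lit 2) (nat_lit 66) (@Lb.g g8 (@Lb.g g9 (@Lb.g g10 (@Lb.g g11 (@Lb.r r683 (@Lb.r r2406 (@Lb.r r664 (@Lb.r r1045 (@Lb.r r2084 (@Lb.d (nat_lit 9) (nat_lit 37) (nat_lit 646) (@Lb.fp (nat_lit 9) t56))))))))))))
noncomputable def l89 : Lb := (@Lb.r r70 (@Lb.d (nat_lit 128) (nat_lit 514) (nat_lit 128) (@Lb.g g8 (@Lb.g g9 (@Lb.g g11 (@Lb.r r555 (@Lb.r r1681 (@Lb.r r2454 (@Lb.r r2376 (@Lb.d (nat_lit 528) (nat_lit 5) (nat_lit 425) (@Lb.t (@Lb.fp (nat_lit 9) t11))))))))))))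
noncomputable def l90 : Lb := (@Lb.d (nat_lit 261) (nat_lit 513) (nat_lit 32) (@Lb.r r21 (@Lb.r r1124 (@Lb.r r323 (@Lb.g g10 (@Lb.g g5 (@Lb.d (nat_lit 4) (nat_lit 1) (nat_lit 18) (@Lb.r r387 (@Lb.r r132 (@Lb.fp (nat_lit 3) t63))))))))))
noncomputable def l91 : Lb := (@Lb.d (nat_lit 33) (nat_lit 514) (nat_lit 136) (@Lb.g g8 (@Lb.g g9 (@Lb.g g10 (@Lb.g g11 (@Lb.r r683 (@Lb.r r2406 (@Lb.r r1561 (@Lb.r r1560 (@Lb.d (nat_lit 613) (nat_lit 41) (nat_lit 656) (@Lb.fp (nat_lit 9) t3)))))))))))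
noncomputable def l92 : Lb := (@Lb.r r70 (@Lb.d (nat_lit 161) (nat_lit 2) (nat_lit 128) (@Lb.g g8 (@Lb.g g9 (@Lb.g g11 (@Lb.r r2390 (@Lb.r r1411 (@Lb.r r2597 (@Lb.r r1300 (@Lb.d (nat_lit 676) (nat_lit 82) (nat_lit 538) (@Lb.t (@Lb.fp (nat_lit 9) t3))))))))))))
noncomputable def l93 : Lb := (@Lb.r r70 (@Lb.d (nat_lit 128) (nat_lit 2) (nat_lit 128) (@Lb.g g8 (@Lb.g g9 (@Lb.g g11 (@Lb.r r555 (@Lb.r r1681 (@Lb.r r2454 (@Lb.r r2376 (@Lb.d (nat_lit 528) (nat_lit 0) (nat_lit 424) (@Lb.t (@Lb.fp (nat_lit 9) t3))))))))))))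
noncomputable def l94 : Lb := (@Lb.d (nat_lit 136) (nat_lit 514) (nat_lit 162) (@Lb.g g9 (@Lb.g g6 (@Lb.g g11 (@Lb.r r24 (@Lb.r r405 (@Lb.r r291 (@Lb.d (nat_lit 322) (nat_lit 160) (nat_lit 88) (@Lb.t (@Lb.fm (nat_lit 9) t64))))))))))
noncomputable def l95 : Lb := (@Lb.d (nat_lit 0) (nat_lit 258) (nat_lit 0) (@Lb.g g9 (@Lb.r r2339 (@Lb.r r2146 (@Lb.r r97 (@Lb.d (nat_lit 0) (nat_lit 5) (nat_lit 17) (@Lb.t (@Lb.fm (nat_lit 3) t65))))))))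
noncomputable def l96 : Lb := (@Lb.d (nat_lit 0) (nat_lit 2) (nat_lit 74) (@Lb.g g9 (@Lb.g g10 (@Lb.g g11 (@Lb.r r615 (@Lb.r r1685 (@Lb.r r2404 (@Lb.r r1178 (@Lb.d (nat_lit 522) (nat_lit 8) (nat_lit 16) (@Lb.t (@Lb.fm (nat_lit 9) t66)))))))))))
noncomputable def l97 : Lb := (@Lb.g g7 (@Lb.d (nat_lit 0) (nat_lit 512) (nat_lit 69) (@Lb.t (@Lb.fm (nat_lit 3) t2))))
noncomputable def l98 : Lb := (@Lb.d (nat_lit 1) (nat_lit 8) (nat_lit 130) (@Lb.g g8 (@Lb.g g9 (@Lb.g g10 (@Lb.g g11 (@Lb.r r616 (@Lb.r r619 (@Lb.r r2186 (@Lb.r r2645 (@Lb.r r2084 (@Lb.d (nat_lit 425) (nat_lit 10) (nat_lit 616) (@Lb.fm (nat_lit 9) t67))))))))))))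
noncomputable def l99 : Lb := (@Lb.d (nat_lit 293) (nat_lit 682) (nat_lit 617) (@Lb.r r1114 (@Lb.r r1620 (@Lb.r r2345 (@Lb.r r1351 (@Lb.g g7 (@Lb.g g6 (@Lb.g g4 (@Lb.d (nat_lit 1) (nat_lit 4) (nat_lit 65) (@Lb.t (@Lb.fm (nat_lit 9) t68)))))))))))
noncomputable def l100 : Lb := (@Lb.d (nat_lit 69) (nat_lit 293) (nat_lit 84) (@Lb.r r410 (@Lb.r r148 (@Lb.r r279 (@Lb.r r545 (@Lb.g g7 (@Lb.g g6 (@Lb.g g5 (@Lb.d (nat_lit 16) (nat_lit 0) (nat_lit 65) (@Lb.t (@Lb.fp (nat_lit 9) t69)))))))))))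
noncomputable def l101 : Lb := (@Lb.d (nat_lit 25) (nat_lit 4) (nat_lit 18) (@Lb.r r134 (@Lb.r r328 (@Lb.r r279 (@Lb.r r673 (@Lb.g g7 (@Lb.g g5 (@Lb.d (nat_lit 0) (nat_lit 1) (nat_lit 64) (@Lb.fp (nat_lit 3) t70)))))))))
noncomputable def l102 : Lb := (@Lb.g g5 (@Lb.r r134 (@Lb.r r328 (@Lb.r r407 (@Lb.r r609 (@Lb.d (nat_lit 0) (nat_lit 641) (nat_lit 68) (@Lb.t (@Lb.fp (nat_lit 3) t71))))))))
noncomputable def l103 : Lb := (@Lb.d (nat_lit 392) (nat_lit 165) (nat_lit 596) (@Lb.r r1430 (@Lb.r r2152 (@Lb.r r1633 (@Lb.r r2715 (@Lb.g g7 (@Lb.g g6 (@Lb.g g5 (@Lb.d (nat_lit 16) (nat_lit 5) (nat_lit 66) (@Lb.t (@Lb.fp (nat_lit 9) t72)))))))))))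
noncomputable def l104 : Lb := (@Lb.g g5 (@Lb.r r134 (@Lb.r r328 (@Lb.r r407 (@Lb.r r609 (@Lb.d (nat_lit 0) (nat_lit 385) (nat_lit 132) (@Lb.t (@Lb.fp (nat_lit 3) t71))))))))
noncomputable def l105 : Lb := (@Lb.r r323 (@Lb.d (nat_lit 40) (nat_lit 34) (nat_lit 2) (@Lb.g g9 (@Lb.g g10 (@Lb.r r603 (@Lb.r r600 (@Lb.r r293 (@Lb.d (nat_lit 74) (nat_lit 137) (nat_lit 1) (@Lb.fp (nat_lit 3) t51)))))))))
noncomputable def l106 : Lb := (@Lb.d (nat_lit 145) (nat_lit 522) (nat_lit 602) (@Lb.r r24 (@Lb.r r1114 (@Lb.r r2469 (@Lb.r r1363 (@Lb.g g7 (@Lb.g g5 (@Lb.d (nat_lit 0) (nat_lit 1) (nat_lit 64) (@Lb.fm (nat_lit 3) t73)))))))))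
noncomputable def l107 : Lb := (@Lb.d (nat_lit 0) (nat_lit 256) (nat_lit 138) (@Lb.fp (nat_lit 1) t2))
noncomputable def l108 : Lb := (@Lb.d (nat_lit 133) (nat_lit 321) (nat_lit 1) (@Lb.r r293 (@Lb.r r600 (@Lb.r r603 (@Lb.g g6 (@Lb.g g5 (@Lb.d (nat_lit 16) (nat_lit 16) (nat_lit 1) (@Lb.r r387 (@Lb.fp (nat_lit 3) t68)))))))))
noncomputable def l109 : Lb := (@Lb.d (nat_lit 0) (nat_lit 521) (nat_lit 73) (@Lb.g g9 (@Lb.g g10 (@Lb.g g11 (@Lb.r r1671 (@Lb.r r1685 (@Lb.r r2404 (@Lb.r r1178 (@Lb.d (nat_lit 288) (nat_lit 72) (nat_lit 34) (@Lb.t (@Lb.fm (nat_lit 9) t74)))))))))))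
noncomputable def l110 : Lb := (@Lb.r r82 (@Lb.g g9 (@Lb.r r2146 (@Lb.r r2065 (@Lb.t (@Lb.fp (nat_lit 3) t75))))))
noncomputable def l111 : Lb := (@Lb.d (nat_lit 0) (nat_lit 0) (nat_lit 613) (@Lb.r r2641 (@Lb.r r579 (@Lb.r r2370 (@Lb.g g7 (@Lb.d (nat_lit 0) (nat_lit 0) (nat_lit 64) (@Lb.t (@Lb.fp (nat_lit 3) t76))))))))
noncomputable def l112 : Lb := (@Lb.d (nat_lit 2) (nat_lit 521) (nat_lit 1) (@Lb.g g8 (@Lb.g g9 (@Lb.g g10 (@Lb.r r2583 (@Lb.r r297 (@Lb.r r1384 (@Lb.r r2630 (@Lb.d (nat_lit 145) (nat_lit 64) (nat_lit 356) (@Lb.t (@Lb.fp (nat_lit 9) t77)))))))))))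
noncomputable def l113 : Lb := (@Lb.d (nat_lit 26) (nat_lit 6) (nat_lit 129) (@Lb.g g8 (@Lb.g g9 (@Lb.g g10 (@Lb.g g11 (@Lb.r r355 (@Lb.r r1449 (@Lb.r r1124 (@Lb.r r74 (@Lb.d (nat_lit 672) (nat_lit 138) (nat_lit 337) (@Lb.fm (nat_lit 9) t78)))))))))))
noncomputable def l114 : Lb := (@Lb.d (nat_lit 2) (nat_lit 265) (nat_lit 1) (@Lb.g g8 (@Lb.g g9 (@Lb.g g10 (@Lb.r r2583 (@Lb.r r297 (@Lb.r r1384 (@Lb.r r2630 (@Lb.d (nat_lit 150) (nat_lit 65) (nat_lit 356) (@Lb.t (@Lb.fp (nat_lit 9) t79)))))))))))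
noncomputable def l115 : Lb := (@Lb.r r323 (@Lb.d (nat_lit 0) (nat_lit 266) (nat_lit 0) (@Lb.g g5 (@Lb.g g10 (@Lb.r r387 (@Lb.d (nat_lit 0) (nat_lit 0) (nat_lit 2) (@Lb.fp (nat_lit 3) t5)))))))
noncomputable def l116 : Lb := (@Lb.d (nat_lit 0) (nat_lit 522) (nat_lit 2) (@Lb.g g5 (@Lb.g g10 (@Lb.g g11 (@Lb.r r387 (@Lb.d (nat_lit 0) (nat_lit 0) (nat_lit 2) (@Lb.t (@Lb.fp (nat_lit 9) t5))))))))
noncomputable def l117 : Lb := (@Lb.d (nat_lit 0) (nat_lit 512) (nat_lit 138) (@Lb.g g11 (@Lb.t (@Lb.fp (nat_lit 3) t2))))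
noncomputable def l118 : Lb := (@Lb.d (nat_lit 0) (nat_lit 674) (nat_lit 597) (@Lb.r r101 (@Lb.r r24 (@Lb.g g10 (@Lb.t (@Lb.fp (nat_lit 3) t80))))))
noncomputable def l119 : Lb := (@Lb.d (nat_lit 0) (nat_lit 521) (nat_lit 73) (@Lb.g g9 (@Lb.g g10 (@Lb.g g11 (@Lb.r r615 (@Lb.r r1685 (@Lb.r r2404 (@Lb.r r1178 (@Lb.d (nat_lit 513) (nat_lit 72) (nat_lit 16) (@Lb.t (@Lb.fm (nat_lit 9) t81)))))))))))
noncomputable def l120 : Lb := (@Lb.r r82 (@Lb.g g9 (@Lb.r r2146 (@Lb.r r2065 (@Lb.d (nat_lit 0) (nat_lit 512) (nat_lit 64) (@Lb.t (@Lb.fp (nat_lit 3) t75)))))))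
noncomputable def l121 : Lb := (@Lb.d (nat_lit 0) (nat_lit 0) (nat_lit 88) (@Lb.r r2641 (@Lb.r r1667 (@Lb.r r2690 (@Lb.g g11 (@Lb.t (@Lb.fp (nat_lit 3) t82)))))))
noncomputable def l122 : Lb := (@Lb.r r82 (@Lb.d (nat_lit 0) (nat_lit 73) (nat_lit 0) (@Lb.g g5 (@Lb.g g11 (@Lb.r r98 (@Lb.d (nat_lit 0) (nat_lit 133) (nat_lit 0) (@Lb.fp (nat_lit 3) t83)))))))
noncomputable def l123 : Lb := (@Lb.r r82 (@Lb.d (nat_lit 0) (nat_lit 585) (nat_lit 0) (@Lb.g g5 (@Lb.r r98 (@Lb.d (nat_lit 0) (nat_lit 133) (nat_lit 69) (@Lb.t (@Lb.fm (nat_lit 3) t84)))))))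
noncomputable def l124 : Lb := (@Lb.r r323 (@Lb.d (nat_lit 130) (nat_lit 9) (nat_lit 2) (@Lb.g g8 (@Lb.g g9 (@Lb.g g10 (@Lb.r r674 (@Lb.r r391 (@Lb.r r1561 (@Lb.r r1540 (@Lb.d (nat_lit 138) (nat_lit 65) (nat_lit 585) (@Lb.t (@Lb.fp (nat_lit 9) t85))))))))))))
noncomputable def l125 : Lb := (@Lb.r r323 (@Lb.d (nat_lit 36) (nat_lit 260) (nat_lit 1) (@Lb.g g8 (@Lb.g g9 (@Lb.g g10 (@Lb.r r2705 (@Lb.r r339 (@Lb.r r2698 (@Lb.r r2180 (@Lb.d (nat_lit 98) (nat_lit 0) (nat_lit 338) (@Lb.t (@Lb.fp (nat_lit 9) t86))))))))))))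
noncomputable def l126 : Lb := (@Lb.r r323 (@Lb.d (nat_lit 0) (nat_lit 512) (nat_lit 1) (@Lb.g g9 (@Lb.g g6 (@Lb.r r387 (@Lb.d (nat_lit 0) (nat_lit 5) (nat_lit 0) (@Lb.fp (nat_lit 3) t45)))))))
noncomputable def l127 : Lb := (@Lb.d (nat_lit 0) (nat_lit 262) (nat_lit 1) (@Lb.r r82 (@Lb.r r339 (@Lb.g g6 (@Lb.g g5 (@Lb.r r387 (@Lb.fm (nat_lit 3) t87)))))))
noncomputable def l128 : Lb := (@Lb.d (nat_lit 2) (nat_lit 514) (nat_lit 130) (@Lb.g g8 (@Lb.g g9 (@Lb.g g10 (@Lb.g g11 (@Lb.r r1443 (@Lb.r r297 (@Lb.r r104 (@Lb.r r70 (@Lb.r r132 (@Lb.d (nat_lit 545) (nat_lit 10) (nat_lit 346) (@Lb.fp (nat_lit 9) t88))))))))))))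
noncomputable def l129 : Lb := (@Lb.r r323 (@Lb.d (nat_lit 0) (nat_lit 256) (nat_lit 1) (@Lb.g g9 (@Lb.g g6 (@Lb.r r387 (@Lb.d (nat_lit 0) (nat_lit 5) (nat_lit 64) (@Lb.fp (nat_lit 3) t45)))))))
noncomputable def l130 : Lb := (@Lb.d (nat_lit 0) (nat_lit 5) (nat_lit 74) (@Lb.g g9 (@Lb.g g10 (@Lb.g g11 (@Lb.r r2451 (@Lb.r r2706 (@Lb.r r2401 (@Lb.d (nat_lit 0) (nat_lit 89) (nat_lit 132) (@Lb.t (@Lb.fm (nat_lit 9) t89))))))))))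
noncomputable def l131 : Lb := (@Lb.r r82 (@Lb.r r275 (@Lb.d (nat_lit 2) (nat_lit 512) (nat_lit 0) (@Lb.g g8 (@Lb.g g9 (@Lb.r r2315 (@Lb.r r2122 (@Lb.r r37 (@Lb.d (nat_lit 261) (nat_lit 0) (nat_lit 0) (@Lb.fp (nat_lit 3) t90))))))))))
noncomputable def l132 : Lb := (@Lb.d (nat_lit 2) (nat_lit 258) (nat_lit 128) (@Lb.g g8 (@Lb.g g9 (@Lb.g g10 (@Lb.g g11 (@Lb.r r1639 (@Lb.r r297 (@Lb.r r1348 (@Lb.r r2666 (@Lb.d (nat_lit 660) (nat_lit 154) (nat_lit 68) (@Lb.fp (nat_lit 9) t91)))))))))))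
noncomputable def l133 : Lb := (@Lb.r r323 (@Lb.d (nat_lit 2) (nat_lit 2) (nat_lit 0) (@Lb.g g8 (@Lb.g g9 (@Lb.g g10 (@Lb.r r2459 (@Lb.r r297 (@Lb.r r1384 (@Lb.r r2630 (@Lb.d (nat_lit 0) (nat_lit 64) (nat_lit 68) (@Lb.t (@Lb.fm (nat_lit 9) t91))))))))))))
noncomputable def l134 : Lb := (@Lb.d (nat_lit 0) (nat_lit 517) (nat_lit 1) (@Lb.g g5 (@Lb.t (@Lb.fm (nat_lit 3) t87))))
noncomputable def l135 : Lb := (@Lb.r r97 (@Lb.r r2130 (@Lb.r r145 (@Lb.d (nat_lit 5) (nat_lit 8) (nat_lit 2) (@Lb.fm (nat_lit 1) t92)))))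
noncomputable def l136 : Lb := (@Lb.d (nat_lit 273) (nat_lit 517) (nat_lit 105) (@Lb.r r68 (@Lb.r r330 (@Lb.r r360 (@Lb.r r297 (@Lb.g g7 (@Lb.g g6 (@Lb.g g5 (@Lb.g g4 (@Lb.d (nat_lit 1) (nat_lit 1) (nat_lit 128) (@Lb.fp (nat_lit 9) t93)))))))))))
noncomputable def l137 : Lb := (@Lb.d (nat_lit 2) (nat_lit 2) (nat_lit 130) (@Lb.g g8 (@Lb.g g9 (@Lb.g g10 (@Lb.g g11 (@Lb.r r427 (@Lb.r r145 (@Lb.r r356 (@Lb.r r154 (@Lb.r r132 (@Lb.d (nat_lit 9) (nat_lit 2) (nat_lit 137) (@Lb.fm (nat_lit 9) t61))))))))))))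
noncomputable def l138 : Lb := (@Lb.d (nat_lit 66) (nat_lit 2) (nat_lit 128) (@Lb.g g8 (@Lb.g g9 (@Lb.g g10 (@Lb.g g11 (@Lb.r r648 (@Lb.r r1675 (@Lb.r r657 (@Lb.r r666 (@Lb.r r132 (@Lb.d (nat_lit 73) (nat_lit 169) (nat_lit 321) (@Lb.fm (nat_lit 9) t94))))))))))))
noncomputable def l139 : Lb := (@Lb.d (nat_lit 16) (nat_lit 2) (nat_lit 128) (@Lb.g g8 (@Lb.g g9 (@Lb.g g10 (@Lb.g g11 (@Lb.r r427 (@Lb.r r2193 (@Lb.r r356 (@Lb.r r1178 (@Lb.r r2180 (@Lb.d (nat_lit 265) (nat_lit 130) (nat_lit 290) (@Lb.fm (nat_lit 9) t95))))))))))))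
noncomputable def l140 : Lb := (@Lb.r r323 (@Lb.d (nat_lit 0) (nat_lit 298) (nat_lit 0) (@Lb.g g9 (@Lb.g g10 (@Lb.r r403 (@Lb.r r646 (@Lb.r r600 (@Lb.r r293 (@Lb.d (nat_lit 74) (nat_lit 128) (nat_lit 64) (@Lb.fp (nat_lit 3) t96))))))))))
noncomputable def l141 : Lb := (@Lb.d (nat_lit 1) (nat_lit 329) (nat_lit 0) (@Lb.g g4 (@Lb.g g9 (@Lb.d (nat_lit 0) (nat_lit 10) (nat_lit 18) (@Lb.fp (nat_lit 3) t97)))))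
noncomputable def l142 : Lb := (@Lb.d (nat_lit 0) (nat_lit 266) (nat_lit 0) (@Lb.g g9 (@Lb.d (nat_lit 0) (nat_lit 5) (nat_lit 0) (@Lb.t (@Lb.fp (nat_lit 3) t97)))))
noncomputable def l143 : Lb := (@Lb.g g5 (@Lb.d (nat_lit 0) (nat_lit 517) (nat_lit 1) (@Lb.t (@Lb.fm (nat_lit 3) t45))))
noncomputable def l144 : Lb := (@Lb.d (nat_lit 0) (nat_lit 522) (nat_lit 66) (@Lb.g g5 (@Lb.g g10 (@Lb.g g11 (@Lb.r r387 (@Lb.d (nat_lit 0) (nat_lit 0) (nat_lit 137) (@Lb.t (@Lb.fp (nat_lit 9) t5))))))))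
noncomputable def l145 : Lb := (@Lb.d (nat_lit 0) (nat_lit 10) (nat_lit 130) (@Lb.g g5 (@Lb.g g10 (@Lb.g g11 (@Lb.r r387 (@Lb.d (nat_lit 0) (nat_lit 0) (nat_lit 2) (@Lb.t (@Lb.fp (nat_lit 9) t5))))))))
noncomputable def l146 : Lb := (@Lb.d (nat_lit 2) (nat_lit 9) (nat_lit 73) (@Lb.g g8 (@Lb.g g9 (@Lb.g g10 (@Lb.g g11 (@Lb.r r643 (@Lb.r r297 (@Lb.r r360 (@Lb.r r582 (@Lb.r r132 (@Lb.d (nat_lit 129) (nat_lit 10) (nat_lit 73) (@Lb.fm (nat_lit 9) t98))))))))))))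
noncomputable def l147 : Lb := (@Lb.r r82 (@Lb.d (nat_lit 0) (nat_lit 514) (nat_lit 0) (@Lb.g g9 (@Lb.g g7 (@Lb.r r2465 (@Lb.r r98 (@Lb.d (nat_lit 0) (nat_lit 100) (nat_lit 528) (@Lb.fm (nat_lit 3) t99))))))))
noncomputable def l148 : Lb := (@Lb.d (nat_lit 2) (nat_lit 265) (nat_lit 130) (@Lb.g g8 (@Lb.g g9 (@Lb.g g10 (@Lb.g g11 (@Lb.r r643 (@Lb.r r297 (@Lb.r r360 (@Lb.r r582 (@Lb.r r132 (@Lb.d (nat_lit 130) (nat_lit 10) (nat_lit 73) (@Lb.fm (nat_lit 9) t98))))))))))))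
noncomputable def l149 : Lb := (@Lb.d (nat_lit 130) (nat_lit 545) (nat_lit 0) (@Lb.g g8 (@Lb.g g9 (@Lb.r r2579 (@Lb.r r2178 (@Lb.r r1429 (@Lb.r r104 (@Lb.d (nat_lit 404) (nat_lit 10) (nat_lit 646) (@Lb.fp (nat_lit 3) t100)))))))))
noncomputable def l150 : Lb := (@Lb.d (nat_lit 18) (nat_lit 521) (nat_lit 73) (@Lb.g g8 (@Lb.g g9 (@Lb.g g10 (@Lb.g g11 (@Lb.r r683 (@Lb.r r610 (@Lb.r r36 (@Lb.r r21 (@Lb.r r36 (@Lb.d (nat_lit 97) (nat_lit 154) (nat_lit 137) (@Lb.fm (nat_lit 9) t101))))))))))))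
noncomputable def l151 : Lb := (@Lb.d (nat_lit 145) (nat_lit 9) (nat_lit 9) (@Lb.g g8 (@Lb.g g9 (@Lb.g g10 (@Lb.g g11 (@Lb.r r683 (@Lb.r r2197 (@Lb.r r1124 (@Lb.r r586 (@Lb.d (nat_lit 97) (nat_lit 2) (nat_lit 150) (@Lb.fm (nat_lit 9) t102)))))))))))
noncomputable def l152 : Lb := (@Lb.g g7 (@Lb.t (@Lb.fm (nat_lit 3) t2)))
noncomputable def l153 : Lb := (@Lb.r r323 (@Lb.d (nat_lit 0) (nat_lit 602) (nat_lit 34) (@Lb.g g5 (@Lb.g g10 (@Lb.r r387 (@Lb.d (nat_lit 0) (nat_lit 164) (nat_lit 618) (@Lb.fp (nat_lit 3) t103)))))))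
noncomputable def l154 : Lb := (@Lb.d (nat_lit 2) (nat_lit 521) (nat_lit 66) (@Lb.g g8 (@Lb.g g9 (@Lb.g g10 (@Lb.g g11 (@Lb.r r1323 (@Lb.r r297 (@Lb.r r2376 (@Lb.r r1638 (@Lb.d (nat_lit 656) (nat_lit 90) (nat_lit 596) (@Lb.fp (nat_lit 9) t104)))))))))))
noncomputable def l155 : Lb := (@Lb.d (nat_lit 0) (nat_lit 20) (nat_lit 4) (@Lb.g g9 (@Lb.g g10 (@Lb.g g11 (@Lb.r r387 (@Lb.r r1442 (@Lb.r r609 (@Lb.d (nat_lit 0) (nat_lit 162) (nat_lit 277) (@Lb.t (@Lb.fm (nat_lit 9) t105))))))))))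
noncomputable def l156 : Lb := (@Lb.d (nat_lit 18) (nat_lit 9) (nat_lit 73) (@Lb.g g8 (@Lb.g g9 (@Lb.g g10 (@Lb.g g11 (@Lb.r r683 (@Lb.r r610 (@Lb.r r36 (@Lb.r r21 (@Lb.r r36 (@Lb.d (nat_lit 97) (nat_lit 149) (nat_lit 136) (@Lb.fm (nat_lit 9) t101))))))))))))
noncomputable def l157 : Lb := (@Lb.r r263 (@Lb.d (nat_lit 16) (nat_lit 2) (nat_lit 0) (@Lb.g g8 (@Lb.g g9 (@Lb.g g10 (@Lb.r r683 (@Lb.r r610 (@Lb.r r597 (@Lb.r r420 (@Lb.d (nat_lit 104) (nat_lit 130) (nat_lit 137) (@Lb.t (@Lb.fp (nat_lit 9) t106))))))))))))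
noncomputable def l158 : Lb := (@Lb.d (nat_lit 0) (nat_lit 512) (nat_lit 66) (@Lb.g g9 (@Lb.g g10 (@Lb.g g7 (@Lb.r r386 (@Lb.d (nat_lit 0) (nat_lit 5) (nat_lit 10) (@Lb.t (@Lb.fm (nat_lit 9) t45))))))))
noncomputable def l159 : Lb := (@Lb.d (nat_lit 0) (nat_lit 512) (nat_lit 128) (@Lb.g g10 (@Lb.g g11 (@Lb.r r387 (@Lb.d (nat_lit 0) (nat_lit 0) (nat_lit 9) (@Lb.fm (nat_lit 3) t2))))))
noncomputable def l160 : Lb := (@Lb.d (nat_lit 17) (nat_lit 2) (nat_lit 2) (@Lb.g g8 (@Lb.g g9 (@Lb.g g10 (@Lb.r r2571 (@Lb.r r2626 (@Lb.r r405 (@Lb.r r612 (@Lb.d (nat_lit 616) (nat_lit 168) (nat_lit 288) (@Lb.t (@Lb.fp (nat_lit 9) t107)))))))))))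
noncomputable def l161 : Lb := (@Lb.d (nat_lit 0) (nat_lit 548) (nat_lit 10) (@Lb.g g9 (@Lb.g g10 (@Lb.g g11 (@Lb.r r643 (@Lb.r r1634 (@Lb.r r401 (@Lb.d (nat_lit 0) (nat_lit 66) (nat_lit 390) (@Lb.t (@Lb.fp (nat_lit 9) t108))))))))))
noncomputable def l162 : Lb := (@Lb.r r263 (@Lb.d (nat_lit 18) (nat_lit 514) (nat_lit 0) (@Lb.g g8 (@Lb.g g9 (@Lb.g g10 (@Lb.r r2645 (@Lb.r r354 (@Lb.r r1691 (@Lb.r r1156 (@Lb.d (nat_lit 288) (nat_lit 10) (nat_lit 673) (@Lb.t (@Lb.fp (nat_lit 9) t109))))))))))))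
noncomputable def l163 : Lb := (@Lb.d (nat_lit 80) (nat_lit 514) (nat_lit 64) (@Lb.g g8 (@Lb.g g9 (@Lb.g g10 (@Lb.g g11 (@Lb.r r683 (@Lb.r r610 (@Lb.r r1305 (@Lb.r r1304 (@Lb.d (nat_lit 17) (nat_lit 148) (nat_lit 337) (@Lb.fp (nat_lit 9) t110)))))))))))
noncomputable def l164 : Lb := (@Lb.r r323 (@Lb.d (nat_lit 0) (nat_lit 512) (nat_lit 1) (@Lb.g g6 (@Lb.r r387 (@Lb.d (nat_lit 0) (nat_lit 5) (nat_lit 0) (@Lb.t (@Lb.fm (nat_lit 3) t45)))))))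
noncomputable def l165 : Lb := (@Lb.r r275 (@Lb.d (nat_lit 0) (nat_lit 262) (nat_lit 1) (@Lb.g g9 (@Lb.g g10 (@Lb.r r1411 (@Lb.r r2209 (@Lb.d (nat_lit 5) (nat_lit 70) (nat_lit 16) (@Lb.fp (nat_lit 3) t111))))))))
noncomputable def l166 : Lb := (@Lb.d (nat_lit 10) (nat_lit 264) (nat_lit 130) (@Lb.g g8 (@Lb.g g9 (@Lb.g g10 (@Lb.g g11 (@Lb.r r1707 (@Lb.r r2705 (@Lb.r r2148 (@Lb.r r154 (@Lb.d (nat_lit 681) (nat_lit 10) (nat_lit 42) (@Lb.fp (nat_lit 9) t112)))))))))))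
noncomputable def l167 : Lb := (@Lb.r r1379 (@Lb.r r2209 (@Lb.r r1186 (@Lb.d (nat_lit 0) (nat_lit 580) (nat_lit 18) (@Lb.fp (nat_lit 1) t20)))))
noncomputable def l168 : Lb := (@Lb.d (nat_lit 152) (nat_lit 8) (nat_lit 130) (@Lb.g g8 (@Lb.g g9 (@Lb.g g10 (@Lb.g g11 (@Lb.r r423 (@Lb.r r1681 (@Lb.r r1432 (@Lb.r r2202 (@Lb.d (nat_lit 169) (nat_lit 69) (nat_lit 24) (@Lb.fp (nat_lit 9) t113)))))))))))
noncomputable def l169 : Lb := (@Lb.d (nat_lit 641) (nat_lit 592) (nat_lit 164) (@Lb.r r275 (@Lb.r r601 (@Lb.r r24 (@Lb.g g7 (@Lb.g g10 (@Lb.g g5 (@Lb.d (nat_lit 68) (nat_lit 1) (nat_lit 81) (@Lb.t (@Lb.fp (nat_lit 9) t114))))))))))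
noncomputable def l170 : Lb := (@Lb.d (nat_lit 2) (nat_lit 289) (nat_lit 4) (@Lb.g g8 (@Lb.g g9 (@Lb.g g10 (@Lb.g g11 (@Lb.r r1706 (@Lb.r r676 (@Lb.r r551 (@Lb.r r533 (@Lb.r r1060 (@Lb.d (nat_lit 393) (nat_lit 1) (nat_lit 586) (@Lb.fp (nat_lit 9) t74))))))))))))
noncomputable def l171 : Lb := (@Lb.d (nat_lit 646) (nat_lit 81) (nat_lit 133) (@Lb.r r275 (@Lb.r r601 (@Lb.r r24 (@Lb.g g7 (@Lb.g g6 (@Lb.g g5 (@Lb.d (nat_lit 68) (nat_lit 1) (nat_lit 98) (@Lb.t (@Lb.fm (nat_lit 9) t115))))))))))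
noncomputable def l172 : Lb := (@Lb.r r323 (@Lb.g g10 (@Lb.r r419 (@Lb.r r98 (@Lb.d (nat_lit 0) (nat_lit 258) (nat_lit 0) (@Lb.t (@Lb.fp (nat_lit 3) t51)))))))
noncomputable def l173 : Lb := (@Lb.r r82 (@Lb.d (nat_lit 2) (nat_lit 514) (nat_lit 128) (@Lb.g g8 (@Lb.g g9 (@Lb.g g11 (@Lb.r r2475 (@Lb.r r2154 (@Lb.r r2145 (@Lb.d (nat_lit 548) (nat_lit 0) (nat_lit 169) (@Lb.t (@Lb.fp (nat_lit 9) t116)))))))))))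
noncomputable def l174 : Lb := (@Lb.d (nat_lit 0) (nat_lit 338) (nat_lit 256) (@Lb.r r1185 (@Lb.r r2658 (@Lb.g g11 (@Lb.g g6 (@Lb.g g5 (@Lb.d (nat_lit 0) (nat_lit 10) (nat_lit 128) (@Lb.t (@Lb.fp (nat_lit 9) t117)))))))))
noncomputable def l175 : Lb := (@Lb.d (nat_lit 0) (nat_lit 266) (nat_lit 130) (@Lb.g g5 (@Lb.g g10 (@Lb.g g11 (@Lb.r r387 (@Lb.d (nat_lit 0) (nat_lit 0) (nat_lit 137) (@Lb.t (@Lb.fp (nat_lit 9) t5))))))))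
noncomputable def l176 : Lb := (@Lb.r r82 (@Lb.r r275 (@Lb.d (nat_lit 0) (nat_lit 649) (nat_lit 0) (@Lb.g g5 (@Lb.r r291 (@Lb.r r98 (@Lb.d (nat_lit 0) (nat_lit 69) (nat_lit 64) (@Lb.t (@Lb.fm (nat_lit 3) t118)))))))))
noncomputable def l177 : Lb := (@Lb.d (nat_lit 9) (nat_lit 257) (nat_lit 130) (@Lb.g g8 (@Lb.g g9 (@Lb.g g10 (@Lb.g g11 (@Lb.r r614 (@Lb.r r404 (@Lb.r r1307 (@Lb.r r2577 (@Lb.d (nat_lit 9) (nat_lit 38) (nat_lit 406) (@Lb.fp (nat_lit 9) t119)))))))))))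
noncomputable def l178 : Lb := (@Lb.d (nat_lit 2) (nat_lit 258) (nat_lit 128) (@Lb.g g8 (@Lb.g g9 (@Lb.g g10 (@Lb.g g11 (@Lb.r r1186 (@Lb.r r660 (@Lb.r r425 (@Lb.r r279 (@Lb.r r548 (@Lb.d (nat_lit 354) (nat_lit 10) (nat_lit 86) (@Lb.fp (nat_lit 9) t120))))))))))))
noncomputable def l179 : Lb := (@Lb.d (nat_lit 18) (nat_lit 514) (nat_lit 2) (@Lb.g g8 (@Lb.g g9 (@Lb.g g10 (@Lb.r r2699 (@Lb.r r2626 (@Lb.r r2069 (@Lb.r r1060 (@Lb.d (nat_lit 152) (nat_lit 80) (nat_lit 138) (@Lb.t (@Lb.fp (nat_lit 9) t107)))))))))))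
noncomputable def l180 : Lb := (@Lb.d (nat_lit 0) (nat_lit 512) (nat_lit 69) (@Lb.g g6 (@Lb.t (@Lb.fm (nat_lit 3) t2))))
noncomputable def l181 : Lb := (@Lb.g g9 (@Lb.r r2577 (@Lb.d (nat_lit 0) (nat_lit 0) (nat_lit 384) (@Lb.t (@Lb.fp (nat_lit 3) t121)))))
noncomputable def l182 : Lb := (@Lb.d (nat_lit 0) (nat_lit 672) (nat_lit 66) (@Lb.g g5 (@Lb.g g10 (@Lb.g g11 (@Lb.r r531 (@Lb.r r386 (@Lb.d (nat_lit 0) (nat_lit 98) (nat_lit 73) (@Lb.t (@Lb.fp (nat_lit 9) t9)))))))))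
noncomputable def l183 : Lb := (@Lb.d (nat_lit 34) (nat_lit 649) (nat_lit 0) (@Lb.g g8 (@Lb.g g5 (@Lb.r r150 (@Lb.r r360 (@Lb.r r2663 (@Lb.d (nat_lit 0) (nat_lit 34) (nat_lit 337) (@Lb.fm (nat_lit 3) t122))))))))
noncomputable def l184 : Lb := (@Lb.d (nat_lit 0) (nat_lit 74) (nat_lit 132) (@Lb.r r101 (@Lb.r r24 (@Lb.r r322 (@Lb.g g7 (@Lb.g g6 (@Lb.d (nat_lit 0) (nat_lit 0) (nat_lit 136) (@Lb.fm (nat_lit 3) t123))))))))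
noncomputable def l185 : Lb := (@Lb.d (nat_lit 0) (nat_lit 256) (nat_lit 128) (@Lb.g g11 (@Lb.r r545 (@Lb.r r299 (@Lb.r r356 (@Lb.r r154 (@Lb.d (nat_lit 10) (nat_lit 10) (nat_lit 33) (@Lb.t (@Lb.fp (nat_lit 3) t39)))))))))
noncomputable def l186 : Lb := (@Lb.d (nat_lit 0) (nat_lit 1) (nat_lit 138) (@Lb.g g9 (@Lb.g g10 (@Lb.g g11 (@Lb.r r673 (@Lb.r r1634 (@Lb.r r611 (@Lb.r r529 (@Lb.d (nat_lit 0) (nat_lit 90) (nat_lit 392) (@Lb.t (@Lb.fm (nat_lit 9) t124)))))))))))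
noncomputable def l187 : Lb := (@Lb.d (nat_lit 0) (nat_lit 0) (nat_lit 104) (@Lb.g g6 (@Lb.g g11 (@Lb.r r579 (@Lb.d (nat_lit 0) (nat_lit 0) (nat_lit 154) (@Lb.fm (nat_lit 3) t2))))))
noncomputable def l188 : Lb := (@Lb.r r323 (@Lb.d (nat_lit 4) (nat_lit 514) (nat_lit 0) (@Lb.g g9 (@Lb.g g10 (@Lb.r r419 (@Lb.r r98 (@Lb.r r8 (@Lb.d (nat_lit 4) (nat_lit 73) (nat_lit 2) (@Lb.fp (nat_lit 3) t51)))))))))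
noncomputable def l189 : Lb := (@Lb.r r323 (@Lb.d (nat_lit 2) (nat_lit 258) (nat_lit 0) (@Lb.g g8 (@Lb.g g9 (@Lb.g g10 (@Lb.r r427 (@Lb.r r106 (@Lb.r r25 (@Lb.d (nat_lit 2) (nat_lit 73) (nat_lit 2) (@Lb.t (@Lb.fm (nat_lit 9) t51)))))))))))
noncomputable def l190 : Lb := (@Lb.r r21 (@Lb.r r323 (@Lb.d (nat_lit 130) (nat_lit 256) (nat_lit 0) (@Lb.g g8 (@Lb.g g10 (@Lb.r r295 (@Lb.r r357 (@Lb.r r154 (@Lb.r r152 (@Lb.d (nat_lit 25) (nat_lit 10) (nat_lit 65) (@Lb.fp (nat_lit 3) t2)))))))))))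
noncomputable def l191 : Lb := (@Lb.r r21 (@Lb.r r323 (@Lb.d (nat_lit 130) (nat_lit 512) (nat_lit 0) (@Lb.g g8 (@Lb.g g10 (@Lb.r r295 (@Lb.r r357 (@Lb.r r154 (@Lb.r r152 (@Lb.d (nat_lit 25) (nat_lit 10) (nat_lit 1) (@Lb.fp (nat_lit 3) t2)))))))))))
noncomputable def l192 : Lb := (@Lb.d (nat_lit 10) (nat_lit 257) (nat_lit 0) (@Lb.g g8 (@Lb.g g9 (@Lb.r r2084 (@Lb.r r37 (@Lb.d (nat_lit 262) (nat_lit 128) (nat_lit 0) (@Lb.fp (nat_lit 3) t2)))))))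
noncomputable def l193 : Lb := (@Lb.r r21 (@Lb.d (nat_lit 130) (nat_lit 264) (nat_lit 2) (@Lb.g g8 (@Lb.g g10 (@Lb.r r295 (@Lb.r r1121 (@Lb.r r2450 (@Lb.r r164 (@Lb.d (nat_lit 37) (nat_lit 144) (nat_lit 536) (@Lb.fm (nat_lit 3) t2))))))))))
noncomputable def l194 : Lb := (@Lb.d (nat_lit 10) (nat_lit 545) (nat_lit 2) (@Lb.g g8 (@Lb.g g9 (@Lb.g g10 (@Lb.r r1303 (@Lb.r r1700 (@Lb.r r2662 (@Lb.r r613 (@Lb.d (nat_lit 149) (nat_lit 152) (nat_lit 552) (@Lb.t (@Lb.fp (nat_lit 9) t2)))))))))))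
noncomputable def l195 : Lb := (@Lb.d (nat_lit 128) (nat_lit 0) (nat_lit 64) (@Lb.g g11 (@Lb.r r2698 (@Lb.r r260 (@Lb.r r603 (@Lb.r r289 (@Lb.d (nat_lit 549) (nat_lit 74) (nat_lit 2) (@Lb.t (@Lb.fm (nat_lit 3) t51)))))))))
noncomputable def l196 : Lb := (@Lb.d (nat_lit 32) (nat_lit 512) (nat_lit 74) (@Lb.g g10 (@Lb.g g11 (@Lb.r r2711 (@Lb.r r1384 (@Lb.r r2406 (@Lb.r r289 (@Lb.d (nat_lit 538) (nat_lit 132) (nat_lit 34) (@Lb.fp (nat_lit 3) t51)))))))))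
noncomputable def l197 : Lb := (@Lb.g g6 (@Lb.d (nat_lit 0) (nat_lit 256) (nat_lit 128) (@Lb.t (@Lb.fm (nat_lit 3) t2))))
noncomputable def l198 : Lb := (@Lb.r r323 (@Lb.d (nat_lit 0) (nat_lit 0) (nat_lit 1) (@Lb.g g6 (@Lb.r r387 (@Lb.d (nat_lit 0) (nat_lit 0) (nat_lit 2) (@Lb.t (@Lb.fm (nat_lit 3) t2)))))))
noncomputable def l199 : Lb := (@Lb.d (nat_lit 2) (nat_lit 514) (nat_lit 130) (@Lb.g g8 (@Lb.g g9 (@Lb.g g10 (@Lb.g g11 (@Lb.r r427 (@Lb.r r386 (@Lb.r r97 (@Lb.r r24 (@Lb.d (nat_lit 617) (nat_lit 2) (nat_lit 84) (@Lb.fm (nat_lit 9) t61)))))))))))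
noncomputable def l200 : Lb := (@Lb.r r21 (@Lb.d (nat_lit 146) (nat_lit 256) (nat_lit 128) (@Lb.g g8 (@Lb.g g10 (@Lb.g g11 (@Lb.r r1691 (@Lb.r r409 (@Lb.r r90 (@Lb.r r1176 (@Lb.d (nat_lit 538) (nat_lit 65) (nat_lit 2) (@Lb.t (@Lb.fm (nat_lit 9) t125))))))))))))
noncomputable def l201 : Lb := (@Lb.d (nat_lit 2) (nat_lit 2) (nat_lit 2) (@Lb.g g8 (@Lb.g g9 (@Lb.g g10 (@Lb.g g11 (@Lb.r r2411 (@Lb.r r386 (@Lb.r r97 (@Lb.r r24 (@Lb.d (nat_lit 266) (nat_lit 2) (nat_lit 84) (@Lb.fm (nat_lit 9) t61)))))))))))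
noncomputable def l202 : Lb := (@Lb.r r21 (@Lb.d (nat_lit 10) (nat_lit 264) (nat_lit 130) (@Lb.g g8 (@Lb.g g10 (@Lb.g g11 (@Lb.r r277 (@Lb.r r551 (@Lb.r r644 (@Lb.r r390 (@Lb.d (nat_lit 73) (nat_lit 138) (nat_lit 98) (@Lb.t (@Lb.fm (nat_lit 9) t126))))))))))))
noncomputable def l203 : Lb := (@Lb.r r21 (@Lb.d (nat_lit 2) (nat_lit 8) (nat_lit 130) (@Lb.g g8 (@Lb.g g10 (@Lb.g g11 (@Lb.r r353 (@Lb.r r407 (@Lb.r r612 (@Lb.r r410 (@Lb.d (nat_lit 393) (nat_lit 25) (nat_lit 24) (@Lb.t (@Lb.fm (nat_lit 9) t127))))))))))))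
noncomputable def l204 : Lb := (@Lb.r r21 (@Lb.r r323 (@Lb.d (nat_lit 6) (nat_lit 0) (nat_lit 0) (@Lb.g g8 (@Lb.g g10 (@Lb.r r427 (@Lb.r r106 (@Lb.r r25 (@Lb.d (nat_lit 9) (nat_lit 72) (nat_lit 2) (@Lb.fm (nat_lit 3) t51))))))))))
noncomputable def l205 : Lb := (@Lb.d (nat_lit 2) (nat_lit 516) (nat_lit 128) (@Lb.g g8 (@Lb.g g9 (@Lb.g g10 (@Lb.g g11 (@Lb.r r2403 (@Lb.r r1442 (@Lb.r r424 (@Lb.r r345 (@Lb.d (nat_lit 672) (nat_lit 80) (nat_lit 410) (@Lb.fp (nat_lit 9) t128)))))))))))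
noncomputable def l206 : Lb := (@Lb.d (nat_lit 2) (nat_lit 2) (nat_lit 2) (@Lb.g g8 (@Lb.g g9 (@Lb.g g10 (@Lb.g g11 (@Lb.r r2411 (@Lb.r r106 (@Lb.r r25 (@Lb.d (nat_lit 2) (nat_lit 4) (nat_lit 17) (@Lb.fp (nat_lit 9) t51))))))))))
noncomputable def l207 : Lb := (@Lb.r r323 (@Lb.d (nat_lit 0) (nat_lit 256) (nat_lit 1) (@Lb.g g10 (@Lb.r r387 (@Lb.d (nat_lit 0) (nat_lit 0) (nat_lit 2) (@Lb.t (@Lb.fp (nat_lit 3) t2)))))))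
noncomputable def l208 : Lb := (@Lb.d (nat_lit 5) (nat_lit 641) (nat_lit 2) (@Lb.r r289 (@Lb.r r279 (@Lb.r r584 (@Lb.g g7 (@Lb.g g10 (@Lb.d (nat_lit 32) (nat_lit 0) (nat_lit 65) (@Lb.fp (nat_lit 3) t42))))))))
noncomputable def l209 : Lb := (@Lb.d (nat_lit 4) (nat_lit 646) (nat_lit 0) (@Lb.r r289 (@Lb.r r279 (@Lb.r r584 (@Lb.g g7 (@Lb.g g10 (@Lb.g g5 (@Lb.d (nat_lit 36) (nat_lit 1) (nat_lit 65) (@Lb.t (@Lb.fm (nat_lit 9) t42))))))))))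
noncomputable def l210 : Lb := (@Lb.d (nat_lit 9) (nat_lit 256) (nat_lit 0) (@Lb.g g8 (@Lb.r r289 (@Lb.r r535 (@Lb.r r328 (@Lb.r r134 (@Lb.d (nat_lit 0) (nat_lit 0) (nat_lit 144) (@Lb.t (@Lb.fp (nat_lit 3) t40)))))))))
noncomputable def l211 : Lb := (@Lb.r r21 (@Lb.r r70 (@Lb.r r263 (@Lb.d (nat_lit 521) (nat_lit 512) (nat_lit 0) (@Lb.g g4 (@Lb.r r267 (@Lb.r r74 (@Lb.r r25 (@Lb.d (nat_lit 262) (nat_lit 0) (nat_lit 0) (@Lb.t (@Lb.fm (nat_lit 3) t129)))))))))))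
noncomputable def l212 : Lb := (@Lb.d (nat_lit 6) (nat_lit 554) (nat_lit 73) (@Lb.r r21 (@Lb.r r386 (@Lb.r r343 (@Lb.g g7 (@Lb.g g6 (@Lb.g g5 (@Lb.g g4 (@Lb.d (nat_lit 1) (nat_lit 1) (nat_lit 134) (@Lb.fm (nat_lit 9) t130))))))))))
noncomputable def l213 : Lb := (@Lb.r r1346 (@Lb.d (nat_lit 2) (nat_lit 16) (nat_lit 392) (@Lb.g g8 (@Lb.g g9 (@Lb.g g7 (@Lb.r r2401 (@Lb.r r24 (@Lb.d (nat_lit 10) (nat_lit 105) (nat_lit 340) (@Lb.t (@Lb.fp (nat_lit 9) t131))))))))))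
noncomputable def l214 : Lb := (@Lb.d (nat_lit 544) (nat_lit 74) (nat_lit 16) (@Lb.r r2089 (@Lb.r r1572 (@Lb.r r2146 (@Lb.r r1383 (@Lb.g g7 (@Lb.g g6 (@Lb.g g5 (@Lb.d (nat_lit 0) (nat_lit 6) (nat_lit 65) (@Lb.t (@Lb.fm (nat_lit 9) t132)))))))))))
noncomputable def l215 : Lb := (@Lb.d (nat_lit 293) (nat_lit 584) (nat_lit 17) (@Lb.r r289 (@Lb.r r1626 (@Lb.r r1384 (@Lb.r r2711 (@Lb.g g7 (@Lb.g g6 (@Lb.d (nat_lit 16) (nat_lit 0) (nat_lit 64) (@Lb.fp (nat_lit 3) t41)))))))))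
noncomputable def l216 : Lb := (@Lb.r r81 (@Lb.d (nat_lit 160) (nat_lit 260) (nat_lit 129) (@Lb.g g6 (@Lb.g g11 (@Lb.r r533 (@Lb.r r292 (@Lb.r r411 (@Lb.d (nat_lit 80) (nat_lit 90) (nat_lit 70) (@Lb.fp (nat_lit 3) t133)))))))))
noncomputable def l217 : Lb := (@Lb.g g4 (@Lb.t (@Lb.fm (nat_lit 3) t2)))
noncomputable def l218 : Lb := (@Lb.d (nat_lit 0) (nat_lit 260) (nat_lit 1) (@Lb.g g10 (@Lb.d (nat_lit 0) (nat_lit 8) (nat_lit 2) (@Lb.t (@Lb.fp (nat_lit 3) t134)))))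
noncomputable def l219 : Lb := (@Lb.g g10 (@Lb.r r2451 (@Lb.d (nat_lit 0) (nat_lit 280) (nat_lit 537) (@Lb.t (@Lb.fp (nat_lit 3) t135)))))
noncomputable def l220 : Lb := (@Lb.d (nat_lit 0) (nat_lit 258) (nat_lit 0) (@Lb.g g8 (@Lb.g g9 (@Lb.r r25 (@Lb.r r24 (@Lb.d (nat_lit 297) (nat_lit 2) (nat_lit 16) (@Lb.fp (nat_lit 3) t127)))))))
noncomputable def l221 : Lb := (@Lb.d (nat_lit 4) (nat_lit 2) (nat_lit 66) (@Lb.g g9 (@Lb.g g10 (@Lb.g g11 (@Lb.r r419 (@Lb.r r98 (@Lb.r r8 (@Lb.d (nat_lit 4) (nat_lit 73) (nat_lit 137) (@Lb.t (@Lb.fp (nat_lit 9) t51))))))))))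
noncomputable def l222 : Lb := (@Lb.d (nat_lit 4) (nat_lit 258) (nat_lit 130) (@Lb.g g9 (@Lb.g g10 (@Lb.g g11 (@Lb.r r419 (@Lb.r r98 (@Lb.r r8 (@Lb.d (nat_lit 4) (nat_lit 73) (nat_lit 2) (@Lb.t (@Lb.fp (nat_lit 9) t51))))))))))
noncomputable def l223 : Lb := (@Lb.d (nat_lit 4) (nat_lit 514) (nat_lit 73) (@Lb.g g9 (@Lb.g g10 (@Lb.g g11 (@Lb.r r2658 (@Lb.r r579 (@Lb.r r8 (@Lb.d (nat_lit 4) (nat_lit 161) (nat_lit 586) (@Lb.t (@Lb.fm (nat_lit 9) t51))))))))))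
noncomputable def l224 : Lb := (@Lb.r r323 (@Lb.d (nat_lit 4) (nat_lit 514) (nat_lit 2) (@Lb.g g9 (@Lb.g g10 (@Lb.r r354 (@Lb.r r387 (@Lb.r r8 (@Lb.d (nat_lit 4) (nat_lit 102) (nat_lit 72) (@Lb.fp (nat_lit 3) t51)))))))))
noncomputable def l225 : Lb := (@Lb.d (nat_lit 4) (nat_lit 2) (nat_lit 130) (@Lb.g g9 (@Lb.g g10 (@Lb.g g11 (@Lb.r r2658 (@Lb.r r579 (@Lb.r r8 (@Lb.d (nat_lit 4) (nat_lit 161) (nat_lit 640) (@Lb.t (@Lb.fm (nat_lit 9) t51))))))))))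
noncomputable def l226 : Lb := (@Lb.r r134 (@Lb.r r324 (@Lb.r r539 (@Lb.r r289 (@Lb.r r36 (@Lb.d (nat_lit 0) (nat_lit 64) (nat_lit 0) (@Lb.fm (nat_lit 1) t51)))))))
noncomputable def l227 : Lb := (@Lb.d (nat_lit 32) (nat_lit 512) (nat_lit 128) (@Lb.g g10 (@Lb.g g11 (@Lb.r r2711 (@Lb.r r1384 (@Lb.r r2406 (@Lb.r r289 (@Lb.d (nat_lit 533) (nat_lit 134) (nat_lit 34) (@Lb.fp (nat_lit 3) t51)))))))))
noncomputable def l228 : Lb := (@Lb.r r323 (@Lb.d (nat_lit 4) (nat_lit 2) (nat_lit 2) (@Lb.g g9 (@Lb.g g10 (@Lb.r r354 (@Lb.r r387 (@Lb.r r8 (@Lb.d (nat_lit 4) (nat_lit 16) (nat_lit 266) (@Lb.fp (nat_lit 3) t51)))))))))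
noncomputable def l229 : Lb := (@Lb.r r21 (@Lb.r r323 (@Lb.d (nat_lit 130) (nat_lit 264) (nat_lit 2) (@Lb.g g8 (@Lb.g g10 (@Lb.r r295 (@Lb.r r97 (@Lb.r r402 (@Lb.r r152 (@Lb.d (nat_lit 24) (nat_lit 84) (nat_lit 136) (@Lb.fp (nat_lit 3) t2)))))))))))
noncomputable def l230 : Lb := (@Lb.d (nat_lit 32) (nat_lit 0) (nat_lit 128) (@Lb.g g10 (@Lb.g g11 (@Lb.r r2711 (@Lb.r r1384 (@Lb.r r2406 (@Lb.r r289 (@Lb.d (nat_lit 536) (nat_lit 132) (nat_lit 34) (@Lb.fp (nat_lit 3) t51)))))))))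
noncomputable def l231 : Lb := (@Lb.d (nat_lit 152) (nat_lit 264) (nat_lit 2) (@Lb.g g8 (@Lb.g g10 (@Lb.g g11 (@Lb.r r599 (@Lb.r r1105 (@Lb.r r1638 (@Lb.r r388 (@Lb.d (nat_lit 361) (nat_lit 10) (nat_lit 137) (@Lb.t (@Lb.fp (nat_lit 9) t50)))))))))))
noncomputable def l232 : Lb := (@Lb.d (nat_lit 148) (nat_lit 169) (nat_lit 553) (@Lb.r r2662 (@Lb.r r2665 (@Lb.r r616 (@Lb.r r363 (@Lb.g g7 (@Lb.g g6 (@Lb.d (nat_lit 16) (nat_lit 4) (nat_lit 64) (@Lb.fm (nat_lit 3) t50)))))))))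
noncomputable def l233 : Lb := (@Lb.d (nat_lit 2) (nat_lit 516) (nat_lit 0) (@Lb.g g8 (@Lb.g g9 (@Lb.g g10 (@Lb.g g11 (@Lb.r r1371 (@Lb.r r386 (@Lb.r r97 (@Lb.r r24 (@Lb.d (nat_lit 256) (nat_lit 168) (nat_lit 329) (@Lb.fm (nat_lit 9) t136)))))))))))
noncomputable def l234 : Lb := (@Lb.d (nat_lit 1) (nat_lit 516) (nat_lit 128) (@Lb.g g4 (@Lb.g g9 (@Lb.g g10 (@Lb.g g11 (@Lb.r r1443 (@Lb.r r386 (@Lb.r r97 (@Lb.d (nat_lit 1) (nat_lit 9) (nat_lit 585) (@Lb.fm (nat_lit 9) t137))))))))))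
noncomputable def l235 : Lb := (@Lb.d (nat_lit 0) (nat_lit 4) (nat_lit 128) (@Lb.g g9 (@Lb.g g10 (@Lb.g g11 (@Lb.r r1443 (@Lb.r r386 (@Lb.r r97 (@Lb.r r8 (@Lb.d (nat_lit 2) (nat_lit 9) (nat_lit 585) (@Lb.t (@Lb.fp (nat_lit 9) t137)))))))))))
noncomputable def l236 : Lb := (@Lb.r r82 (@Lb.r r275 (@Lb.d (nat_lit 2) (nat_lit 393) (nat_lit 0) (@Lb.g g8 (@Lb.g g5 (@Lb.r r291 (@Lb.r r98 (@Lb.r r24 (@Lb.d (nat_lit 10) (nat_lit 74) (nat_lit 1) (@Lb.fm (nat_lit 3) t138))))))))))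
noncomputable def l237 : Lb := (@Lb.g g9 (@Lb.d (nat_lit 0) (nat_lit 5) (nat_lit 1) (@Lb.t (@Lb.fp (nat_lit 3) t45))))
noncomputable def l238 : Lb := (@Lb.d (nat_lit 2) (nat_lit 514) (nat_lit 130) (@Lb.g g8 (@Lb.g g9 (@Lb.g g10 (@Lb.g g11 (@Lb.r r427 (@Lb.r r386 (@Lb.r r97 (@Lb.r r24 (@Lb.d (nat_lit 74) (nat_lit 168) (nat_lit 329) (@Lb.fm (nat_lit 9) t139)))))))))))
noncomputable def l239 : Lb := (@Lb.d (nat_lit 2) (nat_lit 4) (nat_lit 128) (@Lb.g g8 (@Lb.g g9 (@Lb.g g10 (@Lb.g g11 (@Lb.r r427 (@Lb.r r386 (@Lb.r r97 (@Lb.r r24 (@Lb.d (nat_lit 74) (nat_lit 161) (nat_lit 330) (@Lb.fm (nat_lit 9) t140)))))))))))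
noncomputable def l240 : Lb := (@Lb.r r82 (@Lb.d (nat_lit 645) (nat_lit 8) (nat_lit 128) (@Lb.g g4 (@Lb.g g9 (@Lb.g g11 (@Lb.r r1370 (@Lb.r r1411 (@Lb.r r1553 (@Lb.d (nat_lit 580) (nat_lit 96) (nat_lit 328) (@Lb.t (@Lb.fp (nat_lit 9) t141)))))))))))
noncomputable def l241 : Lb := (@Lb.r r275 (@Lb.d (nat_lit 8) (nat_lit 5) (nat_lit 0) (@Lb.g g9 (@Lb.g g10 (@Lb.r r2392 (@Lb.r r2631 (@Lb.r r386 (@Lb.r r657 (@Lb.d (nat_lit 1) (nat_lit 42) (nat_lit 148) (@Lb.fp (nat_lit 3) t142))))))))))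
noncomputable def l242 : Lb := (@Lb.d (nat_lit 2) (nat_lit 260) (nat_lit 128) (@Lb.g g8 (@Lb.g g9 (@Lb.g g10 (@Lb.g g11 (@Lb.r r427 (@Lb.r r386 (@Lb.r r97 (@Lb.r r24 (@Lb.d (nat_lit 74) (nat_lit 168) (nat_lit 329) (@Lb.fm (nat_lit 9) t12)))))))))))
noncomputable def l243 : Lb := (@Lb.r r275 (@Lb.d (nat_lit 0) (nat_lit 517) (nat_lit 0) (@Lb.g g9 (@Lb.g g10 (@Lb.r r1689 (@Lb.r r2651 (@Lb.r r386 (@Lb.r r24 (@Lb.d (nat_lit 256) (nat_lit 0) (nat_lit 356) (@Lb.fp (nat_lit 3) t143))))))))))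
noncomputable def l244 : Lb := (@Lb.r r323 (@Lb.d (nat_lit 2) (nat_lit 514) (nat_lit 0) (@Lb.g g8 (@Lb.g g9 (@Lb.g g10 (@Lb.r r427 (@Lb.r r106 (@Lb.r r25 (@Lb.d (nat_lit 9) (nat_lit 72) (nat_lit 2) (@Lb.t (@Lb.fm (nat_lit 9) t51)))))))))))
noncomputable def l245 : Lb := (@Lb.r r323 (@Lb.d (nat_lit 8) (nat_lit 2) (nat_lit 0) (@Lb.g g9 (@Lb.g g10 (@Lb.r r419 (@Lb.r r98 (@Lb.d (nat_lit 2) (nat_lit 9) (nat_lit 2) (@Lb.fm (nat_lit 3) t51))))))))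
noncomputable def l246 : Lb := (@Lb.d (nat_lit 517) (nat_lit 2) (nat_lit 0) (@Lb.r r1114 (@Lb.r r1307 (@Lb.g g5 (@Lb.d (nat_lit 4) (nat_lit 1) (nat_lit 0) (@Lb.t (@Lb.fm (nat_lit 3) t144)))))))
noncomputable def l247 : Lb := (@Lb.r r323 (@Lb.d (nat_lit 137) (nat_lit 546) (nat_lit 0) (@Lb.g g8 (@Lb.g g9 (@Lb.g g10 (@Lb.r r1299 (@Lb.r r2705 (@Lb.r r410 (@Lb.r r408 (@Lb.d (nat_lit 276) (nat_lit 137) (nat_lit 330) (@Lb.t (@Lb.fm (nat_lit 9) t2))))))))))))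
noncomputable def l248 : Lb := (@Lb.d (nat_lit 0) (nat_lit 512) (nat_lit 128) (@Lb.g g11 (@Lb.r r134 (@Lb.r r584 (@Lb.r r299 (@Lb.r r289 (@Lb.d (nat_lit 8) (nat_lit 65) (nat_lit 0) (@Lb.t (@Lb.fm (nat_lit 3) t51)))))))))
noncomputable def l249 : Lb := (@Lb.d (nat_lit 2) (nat_lit 292) (nat_lit 68) (@Lb.g g8 (@Lb.g g9 (@Lb.g g10 (@Lb.g g11 (@Lb.r r2371 (@Lb.r r1442 (@Lb.r r36 (@Lb.r r149 (@Lb.r r1060 (@Lb.d (nat_lit 98) (nat_lit 10) (nat_lit 97) (@Lb.fm (nat_lit 9) t50))))))))))))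
noncomputable def l250 : Lb := (@Lb.d (nat_lit 8) (nat_lit 258) (nat_lit 2) (@Lb.g g9 (@Lb.g g10 (@Lb.g g11 (@Lb.r r419 (@Lb.r r98 (@Lb.d (nat_lit 2) (nat_lit 9) (nat_lit 2) (@Lb.t (@Lb.fm (nat_lit 9) t51)))))))))
noncomputable def l251 : Lb := (@Lb.d (nat_lit 0) (nat_lit 0) (nat_lit 128) (@Lb.g g11 (@Lb.r r134 (@Lb.r r584 (@Lb.r r299 (@Lb.r r289 (@Lb.d (nat_lit 8) (nat_lit 146) (nat_lit 522) (@Lb.t (@Lb.fm (nat_lit 3) t51)))))))))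
noncomputable def l252 : Lb := (@Lb.r r323 (@Lb.d (nat_lit 8) (nat_lit 514) (nat_lit 0) (@Lb.g g9 (@Lb.g g10 (@Lb.r r419 (@Lb.r r98 (@Lb.d (nat_lit 2) (nat_lit 2) (nat_lit 0) (@Lb.fm (nat_lit 3) t51))))))))
noncomputable def l253 : Lb := (@Lb.d (nat_lit 0) (nat_lit 512) (nat_lit 64) (@Lb.fp (nat_lit 1) t2))
noncomputable def l254 : Lb := (@Lb.d (nat_lit 138) (nat_lit 545) (nat_lit 10) (@Lb.g g8 (@Lb.g g9 (@Lb.g g10 (@Lb.r r531 (@Lb.r r1377 (@Lb.r r1110 (@Lb.r r1188 (@Lb.d (nat_lit 98) (nat_lit 164) (nat_lit 518) (@Lb.t (@Lb.fm (nat_lit 9) t2)))))))))))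
noncomputable def l255 : Lb := (@Lb.g g7 (@Lb.r r402 (@Lb.r r101 (@Lb.r r24 (@Lb.d (nat_lit 256) (nat_lit 512) (nat_lit 576) (@Lb.t (@Lb.fp (nat_lit 3) t145)))))))
noncomputable def l256 : Lb := (@Lb.d (nat_lit 282) (nat_lit 8) (nat_lit 33) (@Lb.r r2213 (@Lb.r r1190 (@Lb.r r2388 (@Lb.r r2347 (@Lb.g g6 (@Lb.g g5 (@Lb.g g4 (@Lb.d (nat_lit 10) (nat_lit 16) (nat_lit 1) (@Lb.t (@Lb.fp (nat_lit 9) t2)))))))))))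
noncomputable def l257 : Lb := (@Lb.r r21 (@Lb.d (nat_lit 138) (nat_lit 264) (nat_lit 2) (@Lb.g g8 (@Lb.g g10 (@Lb.r r1121 (@Lb.r r2646 (@Lb.r r327 (@Lb.r r676 (@Lb.d (nat_lit 165) (nat_lit 132) (nat_lit 410) (@Lb.fp (nat_lit 3) t2))))))))))
noncomputable def l258 : Lb := (@Lb.d (nat_lit 128) (nat_lit 512) (nat_lit 74) (@Lb.r r2579 (@Lb.r r2401 (@Lb.r r1174 (@Lb.g g4 (@Lb.d (nat_lit 1) (nat_lit 0) (nat_lit 0) (@Lb.t (@Lb.fp (nat_lit 3) t146))))))))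
noncomputable def l259 : Lb := (@Lb.d (nat_lit 144) (nat_lit 0) (nat_lit 130) (@Lb.g g8 (@Lb.g g9 (@Lb.g g10 (@Lb.g g11 (@Lb.r r273 (@Lb.r r1707 (@Lb.r r1610 (@Lb.r r2600 (@Lb.r r2201 (@Lb.d (nat_lit 256) (nat_lit 89) (nat_lit 137) (@Lb.fp (nat_lit 9) t147))))))))))))
noncomputable def l260 : Lb := (@Lb.d (nat_lit 144) (nat_lit 32) (nat_lit 2) (@Lb.g g8 (@Lb.g g9 (@Lb.g g10 (@Lb.r r2391 (@Lb.r r1610 (@Lb.r r664 (@Lb.r r165 (@Lb.d (nat_lit 294) (nat_lit 82) (nat_lit 137) (@Lb.t (@Lb.fm (nat_lit 9) t148)))))))))))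
noncomputable def l261 : Lb := (@Lb.r r70 (@Lb.d (nat_lit 136) (nat_lit 1) (nat_lit 64) (@Lb.g g8 (@Lb.g g9 (@Lb.g g11 (@Lb.r r555 (@Lb.r r2438 (@Lb.r r145 (@Lb.r r2660 (@Lb.d (nat_lit 664) (nat_lit 16) (nat_lit 424) (@Lb.t (@Lb.fm (nat_lit 9) t149))))))))))))
noncomputable def l262 : Lb := (@Lb.r r82 (@Lb.d (nat_lit 2) (nat_lit 289) (nat_lit 64) (@Lb.g g8 (@Lb.g g9 (@Lb.g g11 (@Lb.r r2601 (@Lb.r r2347 (@Lb.r r2404 (@Lb.r r1610 (@Lb.d (nat_lit 0) (nat_lit 10) (nat_lit 617) (@Lb.t (@Lb.fp (nat_lit 9) t150))))))))))))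
noncomputable def l263 : Lb := (@Lb.r r70 (@Lb.d (nat_lit 129) (nat_lit 258) (nat_lit 64) (@Lb.g g8 (@Lb.g g9 (@Lb.g g11 (@Lb.r r555 (@Lb.r r2438 (@Lb.r r145 (@Lb.r r2660 (@Lb.d (nat_lit 664) (nat_lit 21) (nat_lit 425) (@Lb.t (@Lb.fm (nat_lit 9) t149))))))))))))
noncomputable def l264 : Lb := (@Lb.r r21 (@Lb.d (nat_lit 16) (nat_lit 256) (nat_lit 74) (@Lb.g g8 (@Lb.g g10 (@Lb.g g11 (@Lb.r r603 (@Lb.r r2401 (@Lb.r r1170 (@Lb.r r1128 (@Lb.d (nat_lit 258) (nat_lit 68) (nat_lit 33) (@Lb.t (@Lb.fm (nat_lit 9) t151))))))))))))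
noncomputable def l265 : Lb := (@Lb.d (nat_lit 2) (nat_lit 2) (nat_lit 130) (@Lb.g g8 (@Lb.g g9 (@Lb.g g10 (@Lb.g g11 (@Lb.r r2411 (@Lb.r r386 (@Lb.r r97 (@Lb.r r24 (@Lb.d (nat_lit 266) (nat_lit 2) (nat_lit 153) (@Lb.fm (nat_lit 9) t61)))))))))))
noncomputable def l266 : Lb := (@Lb.d (nat_lit 356) (nat_lit 1) (nat_lit 42) (@Lb.r r2194 (@Lb.r r101 (@Lb.r r519 (@Lb.r r264 (@Lb.g g7 (@Lb.g g6 (@Lb.d (nat_lit 64) (nat_lit 0) (nat_lit 64) (@Lb.fm (nat_lit 3) t152)))))))))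
noncomputable def l267 : Lb := (@Lb.d (nat_lit 1) (nat_lit 514) (nat_lit 130) (@Lb.g g8 (@Lb.g g9 (@Lb.g g10 (@Lb.g g11 (@Lb.r r2411 (@Lb.r r386 (@Lb.r r97 (@Lb.r r24 (@Lb.d (nat_lit 265) (nat_lit 2) (nat_lit 153) (@Lb.fm (nat_lit 9) t61)))))))))))
noncomputable def l268 : Lb := (@Lb.g g6 (@Lb.r r24 (@Lb.r r101 (@Lb.d (nat_lit 0) (nat_lit 593) (nat_lit 426) (@Lb.t (@Lb.fm (nat_lit 3) t153))))))
noncomputable def l269 : Lb := (@Lb.d (nat_lit 0) (nat_lit 258) (nat_lit 66) (@Lb.g g9 (@Lb.g g10 (@Lb.g g7 (@Lb.r r386 (@Lb.r r2153 (@Lb.r r8 (@Lb.d (nat_lit 532) (nat_lit 74) (nat_lit 41) (@Lb.t (@Lb.fm (nat_lit 9) t39))))))))))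
noncomputable def l270 : Lb := (@Lb.d (nat_lit 1) (nat_lit 0) (nat_lit 66) (@Lb.g g8 (@Lb.g g9 (@Lb.g g10 (@Lb.g g7 (@Lb.r r386 (@Lb.r r105 (@Lb.r r36 (@Lb.d (nat_lit 41) (nat_lit 2) (nat_lit 9) (@Lb.fm (nat_lit 9) t40))))))))))
noncomputable def l271 : Lb := (@Lb.r r20 (@Lb.d (nat_lit 0) (nat_lit 514) (nat_lit 66) (@Lb.g g9 (@Lb.g g10 (@Lb.g g7 (@Lb.r r386 (@Lb.r r101 (@Lb.d (nat_lit 20) (nat_lit 10) (nat_lit 9) (@Lb.t (@Lb.fp (nat_lit 9) t39))))))))))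
noncomputable def l272 : Lb := (@Lb.r r21 (@Lb.d (nat_lit 2) (nat_lit 256) (nat_lit 66) (@Lb.g g8 (@Lb.g g10 (@Lb.g g7 (@Lb.r r386 (@Lb.r r97 (@Lb.r r2072 (@Lb.d (nat_lit 266) (nat_lit 128) (nat_lit 25) (@Lb.t (@Lb.fm (nat_lit 9) t154)))))))))))
noncomputable def l273 : Lb := (@Lb.d (nat_lit 4) (nat_lit 608) (nat_lit 260) (@Lb.r r289 (@Lb.r r279 (@Lb.r r584 (@Lb.g g7 (@Lb.g g10 (@Lb.d (nat_lit 32) (nat_lit 0) (nat_lit 65) (@Lb.fp (nat_lit 3) t155))))))))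
noncomputable def l274 : Lb := (@Lb.d (nat_lit 1) (nat_lit 258) (nat_lit 130) (@Lb.g g8 (@Lb.g g9 (@Lb.g g10 (@Lb.g g11 (@Lb.r r2666 (@Lb.r r2664 (@Lb.r r2667 (@Lb.r r2657 (@Lb.d (nat_lit 9) (nat_lit 90) (nat_lit 361) (@Lb.fm (nat_lit 9) t44)))))))))))
noncomputable def l275 : Lb := (@Lb.d (nat_lit 32) (nat_lit 521) (nat_lit 129) (@Lb.g g9 (@Lb.g g10 (@Lb.g g11 (@Lb.r r68 (@Lb.r r2442 (@Lb.r r2663 (@Lb.r r1637 (@Lb.d (nat_lit 420) (nat_lit 42) (nat_lit 661) (@Lb.t (@Lb.fp (nat_lit 9) t156)))))))))))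
noncomputable def l276 : Lb := (@Lb.d (nat_lit 0) (nat_lit 514) (nat_lit 66) (@Lb.g g9 (@Lb.g g10 (@Lb.g g7 (@Lb.r r386 (@Lb.r r2153 (@Lb.r r8 (@Lb.d (nat_lit 534) (nat_lit 74) (nat_lit 41) (@Lb.t (@Lb.fm (nat_lit 9) t39))))))))))
noncomputable def l277 : Lb := (@Lb.d (nat_lit 104) (nat_lit 33) (nat_lit 9) (@Lb.g g8 (@Lb.g g9 (@Lb.g g10 (@Lb.g g11 (@Lb.r r260 (@Lb.r r683 (@Lb.r r2730 (@Lb.r r665 (@Lb.r r516 (@Lb.d (nat_lit 425) (nat_lit 66) (nat_lit 648) (@Lb.fp (nat_lit 9) t157))))))))))))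
noncomputable def l278 : Lb := (@Lb.d (nat_lit 129) (nat_lit 514) (nat_lit 4) (@Lb.g g8 (@Lb.g g9 (@Lb.g g10 (@Lb.g g11 (@Lb.r r683 (@Lb.r r618 (@Lb.r r537 (@Lb.r r516 (@Lb.d (nat_lit 137) (nat_lit 9) (nat_lit 129) (@Lb.fm (nat_lit 9) t128)))))))))))
noncomputable def l279 : Lb := (@Lb.d (nat_lit 9) (nat_lit 514) (nat_lit 66) (@Lb.g g8 (@Lb.g g9 (@Lb.g g10 (@Lb.g g7 (@Lb.r r386 (@Lb.r r2145 (@Lb.r r24 (@Lb.d (nat_lit 10) (nat_lit 73) (nat_lit 41) (@Lb.fp (nat_lit 9) t40))))))))))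
noncomputable def l280 : Lb := (@Lb.d (nat_lit 8) (nat_lit 258) (nat_lit 66) (@Lb.g g8 (@Lb.g g9 (@Lb.g g10 (@Lb.g g7 (@Lb.r r386 (@Lb.r r1109 (@Lb.r r2068 (@Lb.d (nat_lit 17) (nat_lit 137) (nat_lit 9) (@Lb.fp (nat_lit 9) t48))))))))))
noncomputable def l281 : Lb := (@Lb.g g10 (@Lb.d (nat_lit 0) (nat_lit 0) (nat_lit 64) (@Lb.t (@Lb.fp (nat_lit 3) t2))))
noncomputable def l282 : Lb := (@Lb.r r1346 (@Lb.d (nat_lit 0) (nat_lit 0) (nat_lit 576) (@Lb.g g7 (@Lb.d (nat_lit 0) (nat_lit 0) (nat_lit 64) (@Lb.t (@Lb.fm (nat_lit 3) t2))))))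
noncomputable def l283 : Lb := (@Lb.d (nat_lit 16) (nat_lit 0) (nat_lit 130) (@Lb.g g6 (@Lb.g g11 (@Lb.r r584 (@Lb.r r299 (@Lb.r r289 (@Lb.d (nat_lit 8) (nat_lit 66) (nat_lit 1) (@Lb.fp (nat_lit 3) t51))))))))
noncomputable def l284 : Lb := (@Lb.d (nat_lit 26) (nat_lit 352) (nat_lit 356) (@Lb.r r84 (@Lb.r r2450 (@Lb.r r1121 (@Lb.r r283 (@Lb.g g6 (@Lb.g g4 (@Lb.d (nat_lit 65) (nat_lit 4) (nat_lit 1) (@Lb.r r25 (@Lb.fm (nat_lit 3) t2))))))))))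
noncomputable def l285 : Lb := (@Lb.r r355 (@Lb.d (nat_lit 2) (nat_lit 516) (nat_lit 0) (@Lb.g g8 (@Lb.g g9 (@Lb.g g10 (@Lb.r r70 (@Lb.r r2692 (@Lb.r r1319 (@Lb.r r2321 (@Lb.d (nat_lit 0) (nat_lit 106) (nat_lit 642) (@Lb.t (@Lb.fm (nat_lit 9) t50))))))))))))
noncomputable def l286 : Lb := (@Lb.d (nat_lit 144) (nat_lit 537) (nat_lit 2) (@Lb.g g8 (@Lb.g g9 (@Lb.g g10 (@Lb.g g11 (@Lb.r r2403 (@Lb.r r2474 (@Lb.r r153 (@Lb.r r2180 (@Lb.d (nat_lit 297) (nat_lit 18) (nat_lit 338) (@Lb.fm (nat_lit 9) t50)))))))))))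
noncomputable def l287 : Lb := (@Lb.r r323 (@Lb.d (nat_lit 2) (nat_lit 2) (nat_lit 1) (@Lb.g g8 (@Lb.g g9 (@Lb.g g6 (@Lb.r r387 (@Lb.r r97 (@Lb.r r24 (@Lb.d (nat_lit 10) (nat_lit 9) (nat_lit 2) (@Lb.t (@Lb.fp (nat_lit 9) t40)))))))))))
noncomputable def l288 : Lb := (@Lb.d (nat_lit 0) (nat_lit 0) (nat_lit 576) (@Lb.r r1346 (@Lb.g g7 (@Lb.g g6 (@Lb.fm (nat_lit 3) t2)))))
noncomputable def l289 : Lb := (@Lb.r r21 (@Lb.r r70 (@Lb.d (nat_lit 388) (nat_lit 32) (nat_lit 128) (@Lb.g g4 (@Lb.g g11 (@Lb.r r345 (@Lb.r r2731 (@Lb.r r2662 (@Lb.d (nat_lit 544) (nat_lit 10) (nat_lit 162) (@Lb.fm (nat_lit 3) t158))))))))))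
noncomputable def l290 : Lb := (@Lb.d (nat_lit 2) (nat_lit 257) (nat_lit 128) (@Lb.g g8 (@Lb.g g9 (@Lb.g g11 (@Lb.r r134 (@Lb.r r584 (@Lb.r r603 (@Lb.r r401 (@Lb.d (nat_lit 8) (nat_lit 36) (nat_lit 137) (@Lb.t (@Lb.fp (nat_lit 9) t71)))))))))))
noncomputable def l291 : Lb := (@Lb.d (nat_lit 2) (nat_lit 513) (nat_lit 128) (@Lb.g g8 (@Lb.g g9 (@Lb.g g11 (@Lb.r r276 (@Lb.r r2729 (@Lb.r r1707 (@Lb.r r2178 (@Lb.r r1572 (@Lb.d (nat_lit 274) (nat_lit 10) (nat_lit 676) (@Lb.t (@Lb.fp (nat_lit 9) t100))))))))))))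
noncomputable def l292 : Lb := (@Lb.d (nat_lit 8) (nat_lit 290) (nat_lit 130) (@Lb.g g9 (@Lb.g g10 (@Lb.g g11 (@Lb.r r387 (@Lb.r r386 (@Lb.r r2456 (@Lb.r r2645 (@Lb.d (nat_lit 644) (nat_lit 166) (nat_lit 409) (@Lb.t (@Lb.fm (nat_lit 9) t159)))))))))))
noncomputable def l293 : Lb := (@Lb.d (nat_lit 2) (nat_lit 521) (nat_lit 130) (@Lb.g g8 (@Lb.g g9 (@Lb.g g10 (@Lb.g g11 (@Lb.r r516 (@Lb.r r263 (@Lb.r r2453 (@Lb.r r666 (@Lb.r r516 (@Lb.d (nat_lit 2) (nat_lit 10) (nat_lit 33) (@Lb.fm (nat_lit 9) t160))))))))))))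
noncomputable def l294 : Lb := (@Lb.d (nat_lit 128) (nat_lit 265) (nat_lit 130) (@Lb.g g9 (@Lb.g g10 (@Lb.g g11 (@Lb.r r264 (@Lb.r r519 (@Lb.r r2197 (@Lb.r r154 (@Lb.d (nat_lit 130) (nat_lit 10) (nat_lit 161) (@Lb.t (@Lb.fp (nat_lit 9) t160)))))))))))
noncomputable def l295 : Lb := (@Lb.d (nat_lit 2) (nat_lit 33) (nat_lit 130) (@Lb.g g8 (@Lb.g g9 (@Lb.g g10 (@Lb.g g11 (@Lb.r r387 (@Lb.r r2438 (@Lb.r r1561 (@Lb.d (nat_lit 656) (nat_lit 42) (nat_lit 417) (@Lb.fm (nat_lit 9) t161))))))))))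
noncomputable def l296 : Lb := (@Lb.d (nat_lit 8) (nat_lit 545) (nat_lit 130) (@Lb.g g9 (@Lb.g g10 (@Lb.g g11 (@Lb.r r387 (@Lb.r r386 (@Lb.r r2328 (@Lb.r r2581 (@Lb.d (nat_lit 676) (nat_lit 162) (nat_lit 417) (@Lb.t (@Lb.fm (nat_lit 9) t159)))))))))))
noncomputable def l297 : Lb := (@Lb.d (nat_lit 9) (nat_lit 514) (nat_lit 130) (@Lb.g g8 (@Lb.g g9 (@Lb.g g10 (@Lb.g g11 (@Lb.r r660 (@Lb.r r1638 (@Lb.r r2661 (@Lb.r r359 (@Lb.r r644 (@Lb.d (nat_lit 0) (nat_lit 130) (nat_lit 330) (@Lb.fm (nat_lit 9) t2))))))))))))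
noncomputable def l298 : Lb := (@Lb.d (nat_lit 137) (nat_lit 290) (nat_lit 10) (@Lb.g g8 (@Lb.g g9 (@Lb.g g10 (@Lb.r r1299 (@Lb.r r609 (@Lb.r r2646 (@Lb.r r420 (@Lb.d (nat_lit 288) (nat_lit 68) (nat_lit 330) (@Lb.t (@Lb.fp (nat_lit 9) t2)))))))))))
noncomputable def l299 : Lb := (@Lb.d (nat_lit 2) (nat_lit 2) (nat_lit 66) (@Lb.g g8 (@Lb.g g9 (@Lb.g g10 (@Lb.g g11 (@Lb.r r427 (@Lb.r r386 (@Lb.r r97 (@Lb.r r24 (@Lb.d (nat_lit 617) (nat_lit 9) (nat_lit 152) (@Lb.fm (nat_lit 9) t61)))))))))))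
noncomputable def l300 : Lb := (@Lb.d (nat_lit 9) (nat_lit 2) (nat_lit 0) (@Lb.g g8 (@Lb.g g9 (@Lb.r r2073 (@Lb.d (nat_lit 265) (nat_lit 128) (nat_lit 0) (@Lb.fm (nat_lit 3) t2))))))
noncomputable def l301 : Lb := (@Lb.r r20 (@Lb.d (nat_lit 0) (nat_lit 645) (nat_lit 74) (@Lb.g g5 (@Lb.g g10 (@Lb.g g11 (@Lb.r r1687 (@Lb.r r1606 (@Lb.r r8 (@Lb.d (nat_lit 102) (nat_lit 153) (nat_lit 665) (@Lb.t (@Lb.fp (nat_lit 9) t50)))))))))))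
noncomputable def l302 : Lb := (@Lb.d (nat_lit 137) (nat_lit 546) (nat_lit 10) (@Lb.g g8 (@Lb.g g9 (@Lb.g g10 (@Lb.r r1299 (@Lb.r r609 (@Lb.r r2646 (@Lb.r r420 (@Lb.d (nat_lit 290) (nat_lit 68) (nat_lit 330) (@Lb.t (@Lb.fp (nat_lit 9) t2)))))))))))
noncomputable def l303 : Lb := (@Lb.d (nat_lit 82) (nat_lit 0) (nat_lit 25) (@Lb.r r264 (@Lb.r r281 (@Lb.r r1351 (@Lb.g g6 (@Lb.g g4 (@Lb.d (nat_lit 1) (nat_lit 0) (nat_lit 9) (@Lb.r r391 (@Lb.r r25 (@Lb.fp (nat_lit 3) t162))))))))))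
noncomputable def l304 : Lb := (@Lb.r r338 (@Lb.d (nat_lit 34) (nat_lit 258) (nat_lit 648) (@Lb.g g8 (@Lb.g g9 (@Lb.g g11 (@Lb.r r1385 (@Lb.r r150 (@Lb.r r360 (@Lb.d (nat_lit 422) (nat_lit 42) (nat_lit 161) (@Lb.t (@Lb.fp (nat_lit 9) t50)))))))))))
noncomputable def l305 : Lb := (@Lb.d (nat_lit 598) (nat_lit 550) (nat_lit 582) (@Lb.r r330 (@Lb.r r72 (@Lb.r r2707 (@Lb.g g6 (@Lb.g g9 (@Lb.d (nat_lit 16) (nat_lit 66) (nat_lit 1) (@Lb.r r36 (@Lb.fp (nat_lit 3) t163)))))))))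
noncomputable def l306 : Lb := (@Lb.r r275 (@Lb.d (nat_lit 2) (nat_lit 648) (nat_lit 2) (@Lb.g g8 (@Lb.g g5 (@Lb.g g10 (@Lb.r r1411 (@Lb.r r24 (@Lb.d (nat_lit 10) (nat_lit 0) (nat_lit 2) (@Lb.t (@Lb.fm (nat_lit 9) t164))))))))))
noncomputable def l307 : Lb := (@Lb.d (nat_lit 2) (nat_lit 265) (nat_lit 128) (@Lb.g g8 (@Lb.g g9 (@Lb.g g11 (@Lb.r r138 (@Lb.r r388 (@Lb.r r1323 (@Lb.r r1313 (@Lb.d (nat_lit 8) (nat_lit 134) (nat_lit 385) (@Lb.t (@Lb.fm (nat_lit 9) t71)))))))))))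
noncomputable def l308 : Lb := (@Lb.d (nat_lit 598) (nat_lit 545) (nat_lit 650) (@Lb.r r330 (@Lb.r r72 (@Lb.r r2707 (@Lb.g g6 (@Lb.g g9 (@Lb.d (nat_lit 24) (nat_lit 64) (nat_lit 1) (@Lb.r r36 (@Lb.fp (nat_lit 3) t165)))))))))
noncomputable def l309 : Lb := (@Lb.r r101 (@Lb.r r24 (@Lb.d (nat_lit 354) (nat_lit 256) (nat_lit 576) (@Lb.fp (nat_lit 1) t166))))
noncomputable def l310 : Lb := (@Lb.d (nat_lit 0) (nat_lit 66) (nat_lit 136) (@Lb.r r609 (@Lb.r r363 (@Lb.r r328 (@Lb.r r134 (@Lb.g g4 (@Lb.d (nat_lit 1) (nat_lit 0) (nat_lit 0) (@Lb.t (@Lb.fp (nat_lit 3) t167)))))))))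
noncomputable def l311 : Lb := (@Lb.d (nat_lit 1) (nat_lit 521) (nat_lit 128) (@Lb.g g8 (@Lb.g g9 (@Lb.g g11 (@Lb.r r138 (@Lb.r r388 (@Lb.r r1323 (@Lb.r r1313 (@Lb.d (nat_lit 8) (nat_lit 134) (nat_lit 385) (@Lb.t (@Lb.fm (nat_lit 9) t71)))))))))))
noncomputable def l312 : Lb := (@Lb.d (nat_lit 2) (nat_lit 9) (nat_lit 128) (@Lb.g g8 (@Lb.g g9 (@Lb.g g11 (@Lb.r r138 (@Lb.r r388 (@Lb.r r1323 (@Lb.r r1313 (@Lb.d (nat_lit 8) (nat_lit 136) (nat_lit 386) (@Lb.t (@Lb.fm (nat_lit 9) t71)))))))))))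
noncomputable def l313 : Lb := (@Lb.d (nat_lit 32) (nat_lit 512) (nat_lit 130) (@Lb.g g10 (@Lb.g g11 (@Lb.r r545 (@Lb.r r299 (@Lb.r r100 (@Lb.r r410 (@Lb.d (nat_lit 138) (nat_lit 26) (nat_lit 168) (@Lb.fm (nat_lit 3) t167)))))))))
noncomputable def l314 : Lb := (@Lb.r r323 (@Lb.d (nat_lit 2) (nat_lit 266) (nat_lit 0) (@Lb.g g8 (@Lb.g g5 (@Lb.g g10 (@Lb.r r387 (@Lb.r r24 (@Lb.d (nat_lit 10) (nat_lit 0) (nat_lit 2) (@Lb.t (@Lb.fm (nat_lit 9) t168))))))))))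
noncomputable def l315 : Lb := (@Lb.d (nat_lit 553) (nat_lit 648) (nat_lit 578) (@Lb.r r2645 (@Lb.r r2327 (@Lb.r r580 (@Lb.r r138 (@Lb.g g7 (@Lb.g g5 (@Lb.g g4 (@Lb.d (nat_lit 8) (nat_lit 5) (nat_lit 64) (@Lb.t (@Lb.fm (nat_lit 9) t17)))))))))))
noncomputable def l316 : Lb := (@Lb.d (nat_lit 96) (nat_lit 265) (nat_lit 73) (@Lb.g g8 (@Lb.g g9 (@Lb.g g10 (@Lb.g g11 (@Lb.r r343 (@Lb.r r2390 (@Lb.r r1369 (@Lb.r r276 (@Lb.d (nat_lit 609) (nat_lit 153) (nat_lit 661) (@Lb.fp (nat_lit 9) t169)))))))))))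
noncomputable def l317 : Lb := (@Lb.d (nat_lit 36) (nat_lit 2) (nat_lit 130) (@Lb.g g8 (@Lb.g g9 (@Lb.g g10 (@Lb.g g11 (@Lb.r r2705 (@Lb.r r1683 (@Lb.r r356 (@Lb.r r666 (@Lb.r r2180 (@Lb.d (nat_lit 425) (nat_lit 97) (nat_lit 658) (@Lb.fp (nat_lit 9) t170))))))))))))
noncomputable def l318 : Lb := (@Lb.d (nat_lit 145) (nat_lit 265) (nat_lit 130) (@Lb.g g8 (@Lb.g g9 (@Lb.g g10 (@Lb.g g11 (@Lb.r r683 (@Lb.r r2410 (@Lb.r r612 (@Lb.r r2069 (@Lb.r r1060 (@Lb.d (nat_lit 585) (nat_lit 80) (nat_lit 417) (@Lb.fm (nat_lit 9) t52))))))))))))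
noncomputable def l319 : Lb := (@Lb.d (nat_lit 4) (nat_lit 512) (nat_lit 130) (@Lb.g g8 (@Lb.g g9 (@Lb.g g10 (@Lb.g g11 (@Lb.r r1435 (@Lb.r r1432 (@Lb.r r106 (@Lb.r r97 (@Lb.d (nat_lit 9) (nat_lit 148) (nat_lit 296) (@Lb.fp (nat_lit 9) t51)))))))))))
noncomputable def l320 : Lb := (@Lb.d (nat_lit 8) (nat_lit 258) (nat_lit 130) (@Lb.g g8 (@Lb.g g9 (@Lb.g g10 (@Lb.g g11 (@Lb.r r1435 (@Lb.r r2581 (@Lb.r r596 (@Lb.r r2202 (@Lb.r r2180 (@Lb.d (nat_lit 9) (nat_lit 32) (nat_lit 106) (@Lb.fm (nat_lit 9) t51))))))))))))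
noncomputable def l321 : Lb := (@Lb.d (nat_lit 9) (nat_lit 257) (nat_lit 130) (@Lb.g g8 (@Lb.g g9 (@Lb.g g10 (@Lb.g g11 (@Lb.r r614 (@Lb.r r408 (@Lb.r r1303 (@Lb.r r2577 (@Lb.r r36 (@Lb.d (nat_lit 617) (nat_lit 37) (nat_lit 38) (@Lb.fm (nat_lit 9) t171))))))))))))
noncomputable def l322 : Lb := (@Lb.d (nat_lit 2) (nat_lit 514) (nat_lit 130) (@Lb.g g8 (@Lb.g g9 (@Lb.g g10 (@Lb.g g11 (@Lb.r r427 (@Lb.r r297 (@Lb.r r104 (@Lb.r r70 (@Lb.r r132 (@Lb.d (nat_lit 2) (nat_lit 26) (nat_lit 68) (@Lb.fp (nat_lit 9) t119))))))))))))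
noncomputable def l323 : Lb := (@Lb.r r323 (@Lb.d (nat_lit 2) (nat_lit 258) (nat_lit 0) (@Lb.g g8 (@Lb.g g9 (@Lb.g g10 (@Lb.r r1706 (@Lb.r r2713 (@Lb.r r2712 (@Lb.r r2587 (@Lb.d (nat_lit 262) (nat_lit 81) (nat_lit 10) (@Lb.t (@Lb.fp (nat_lit 9) t172))))))))))))
noncomputable def l324 : Lb := (@Lb.d (nat_lit 0) (nat_lit 522) (nat_lit 129) (@Lb.g g9 (@Lb.g g10 (@Lb.g g11 (@Lb.r r2455 (@Lb.r r1112 (@Lb.r r2630 (@Lb.r r289 (@Lb.d (nat_lit 658) (nat_lit 166) (nat_lit 328) (@Lb.t (@Lb.fm (nat_lit 9) t173)))))))))))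
noncomputable def l325 : Lb := (@Lb.d (nat_lit 6) (nat_lit 37) (nat_lit 6) (@Lb.r r410 (@Lb.r r388 (@Lb.r r409 (@Lb.r r331 (@Lb.g g7 (@Lb.g g6 (@Lb.d (nat_lit 16) (nat_lit 0) (nat_lit 64) (@Lb.fp (nat_lit 3) t174)))))))))
noncomputable def l326 : Lb := (@Lb.d (nat_lit 20) (nat_lit 513) (nat_lit 1) (@Lb.r r24 (@Lb.r r101 (@Lb.r r402 (@Lb.r r323 (@Lb.g g7 (@Lb.g g6 (@Lb.g g4 (@Lb.d (nat_lit 4) (nat_lit 0) (nat_lit 64) (@Lb.t (@Lb.fm (nat_lit 9) t175)))))))))))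
noncomputable def l327 : Lb := (@Lb.d (nat_lit 273) (nat_lit 384) (nat_lit 18) (@Lb.r r1096 (@Lb.r r2341 (@Lb.r r1371 (@Lb.g g7 (@Lb.g g6 (@Lb.g g5 (@Lb.d (nat_lit 16) (nat_lit 0) (nat_lit 97) (@Lb.t (@Lb.fp (nat_lit 9) t176))))))))))
noncomputable def l328 : Lb := (@Lb.d (nat_lit 0) (nat_lit 10) (nat_lit 129) (@Lb.g g9 (@Lb.g g10 (@Lb.g g11 (@Lb.r r2455 (@Lb.r r1112 (@Lb.r r2630 (@Lb.r r289 (@Lb.d (nat_lit 658) (nat_lit 161) (nat_lit 344) (@Lb.t (@Lb.fm (nat_lit 9) t177)))))))))))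
noncomputable def l329 : Lb := (@Lb.d (nat_lit 2) (nat_lit 258) (nat_lit 0) (@Lb.g g8 (@Lb.g g9 (@Lb.g g10 (@Lb.g g11 (@Lb.r r2723 (@Lb.r r657 (@Lb.r r612 (@Lb.r r666 (@Lb.r r132 (@Lb.d (nat_lit 73) (nat_lit 97) (nat_lit 586) (@Lb.fp (nat_lit 9) t178))))))))))))
noncomputable def l330 : Lb := (@Lb.d (nat_lit 146) (nat_lit 322) (nat_lit 5) (@Lb.g g8 (@Lb.g g9 (@Lb.g g10 (@Lb.g g11 (@Lb.r r2731 (@Lb.r r2666 (@Lb.r r1540 (@Lb.d (nat_lit 678) (nat_lit 137) (nat_lit 657) (@Lb.fm (nat_lit 9) t179))))))))))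
noncomputable def l331 : Lb := (@Lb.d (nat_lit 130) (nat_lit 290) (nat_lit 0) (@Lb.g g8 (@Lb.g g9 (@Lb.r r2695 (@Lb.r r2178 (@Lb.r r408 (@Lb.r r2085 (@Lb.d (nat_lit 26) (nat_lit 165) (nat_lit 641) (@Lb.fm (nat_lit 3) t180)))))))))
noncomputable def l332 : Lb := (@Lb.d (nat_lit 2) (nat_lit 514) (nat_lit 128) (@Lb.g g8 (@Lb.g g9 (@Lb.g g11 (@Lb.r r408 (@Lb.r r1447 (@Lb.r r2178 (@Lb.r r2325 (@Lb.r r1572 (@Lb.d (nat_lit 274) (nat_lit 136) (nat_lit 130) (@Lb.t (@Lb.fm (nat_lit 9) t180))))))))))))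
noncomputable def l333 : Lb := (@Lb.d (nat_lit 2) (nat_lit 258) (nat_lit 8) (@Lb.g g8 (@Lb.g g9 (@Lb.g g10 (@Lb.r r1543 (@Lb.r r1429 (@Lb.r r2660 (@Lb.r r1690 (@Lb.d (nat_lit 601) (nat_lit 34) (nat_lit 338) (@Lb.t (@Lb.fm (nat_lit 9) t181)))))))))))
noncomputable def l334 : Lb := (@Lb.d (nat_lit 274) (nat_lit 392) (nat_lit 18) (@Lb.r r1096 (@Lb.r r101 (@Lb.r r402 (@Lb.r r2407 (@Lb.g g7 (@Lb.g g6 (@Lb.d (nat_lit 0) (nat_lit 0) (nat_lit 64) (@Lb.fp (nat_lit 3) t182)))))))))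
noncomputable def l335 : Lb := (@Lb.d (nat_lit 546) (nat_lit 0) (nat_lit 18) (@Lb.fp (nat_lit 1) t183))
noncomputable def l336 : Lb := (@Lb.d (nat_lit 153) (nat_lit 8) (nat_lit 130) (@Lb.g g8 (@Lb.g g9 (@Lb.g g10 (@Lb.g g11 (@Lb.r r1706 (@Lb.r r1411 (@Lb.r r2201 (@Lb.r r2180 (@Lb.d (nat_lit 554) (nat_lit 153) (nat_lit 169) (@Lb.fm (nat_lit 9) t53)))))))))))
noncomputable def l337 : Lb := (@Lb.d (nat_lit 152) (nat_lit 264) (nat_lit 73) (@Lb.g g8 (@Lb.g g9 (@Lb.g g10 (@Lb.g g11 (@Lb.r r683 (@Lb.r r2410 (@Lb.r r1561 (@Lb.r r1540 (@Lb.d (nat_lit 394) (nat_lit 153) (nat_lit 5) (@Lb.fm (nat_lit 9) t53)))))))))))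
noncomputable def l338 : Lb := (@Lb.d (nat_lit 593) (nat_lit 580) (nat_lit 170) (@Lb.r r20 (@Lb.r r409 (@Lb.r r679 (@Lb.r r404 (@Lb.g g7 (@Lb.g g10 (@Lb.g g5 (@Lb.g g4 (@Lb.d (nat_lit 1) (nat_lit 2) (nat_lit 81) (@Lb.fp (nat_lit 9) t184)))))))))))
noncomputable def l339 : Lb := (@Lb.d (nat_lit 32) (nat_lit 520) (nat_lit 130) (@Lb.g g10 (@Lb.g g11 (@Lb.r r324 (@Lb.r r651 (@Lb.r r357 (@Lb.r r666 (@Lb.d (nat_lit 74) (nat_lit 42) (nat_lit 132) (@Lb.fp (nat_lit 3) t167)))))))))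
noncomputable def l340 : Lb := (@Lb.d (nat_lit 2) (nat_lit 257) (nat_lit 128) (@Lb.g g8 (@Lb.g g9 (@Lb.g g11 (@Lb.r r680 (@Lb.r r1561 (@Lb.r r539 (@Lb.r r2178 (@Lb.r r516 (@Lb.d (nat_lit 554) (nat_lit 66) (nat_lit 660) (@Lb.t (@Lb.fp (nat_lit 9) t185))))))))))))
noncomputable def l341 : Lb := (@Lb.r r1379 (@Lb.r r2209 (@Lb.r r1186 (@Lb.d (nat_lit 546) (nat_lit 580) (nat_lit 33) (@Lb.fp (nat_lit 1) t20)))))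
noncomputable def l342 : Lb := (@Lb.d (nat_lit 0) (nat_lit 516) (nat_lit 1) (@Lb.g g10 (@Lb.r r1427 (@Lb.r r101 (@Lb.d (nat_lit 277) (nat_lit 73) (nat_lit 1) (@Lb.t (@Lb.fm (nat_lit 3) t186)))))))
noncomputable def l343 : Lb := (@Lb.d (nat_lit 0) (nat_lit 522) (nat_lit 0) (@Lb.r r323 (@Lb.g g10 (@Lb.d (nat_lit 0) (nat_lit 0) (nat_lit 2) (@Lb.r r387 (@Lb.t (@Lb.fp (nat_lit 3) t51)))))))
noncomputable def l344 : Lb := (@Lb.d (nat_lit 256) (nat_lit 544) (nat_lit 640) (@Lb.r r21 (@Lb.r r104 (@Lb.r r2438 (@Lb.r r2451 (@Lb.g g7 (@Lb.g g6 (@Lb.g g5 (@Lb.d (nat_lit 0) (nat_lit 1) (nat_lit 65) (@Lb.t (@Lb.fp (nat_lit 9) t187)))))))))))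
noncomputable def l345 : Lb := (@Lb.d (nat_lit 32) (nat_lit 256) (nat_lit 130) (@Lb.g g10 (@Lb.g g11 (@Lb.r r423 (@Lb.r r600 (@Lb.r r1429 (@Lb.r r406 (@Lb.d (nat_lit 101) (nat_lit 26) (nat_lit 537) (@Lb.fm (nat_lit 3) t188)))))))))
noncomputable def l346 : Lb := (@Lb.r r355 (@Lb.d (nat_lit 8) (nat_lit 518) (nat_lit 33) (@Lb.g g9 (@Lb.g g10 (@Lb.r r1368 (@Lb.r r1607 (@Lb.r r2385 (@Lb.d (nat_lit 0) (nat_lit 150) (nat_lit 82) (@Lb.fm (nat_lit 3) t189)))))))))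
noncomputable def l347 : Lb := (@Lb.r r82 (@Lb.d (nat_lit 4) (nat_lit 512) (nat_lit 128) (@Lb.g g8 (@Lb.g g9 (@Lb.g g11 (@Lb.r r1691 (@Lb.r r610 (@Lb.r r1065 (@Lb.r r1416 (@Lb.d (nat_lit 665) (nat_lit 150) (nat_lit 136) (@Lb.t (@Lb.fp (nat_lit 9) t190))))))))))))
noncomputable def l348 : Lb := (@Lb.r r82 (@Lb.r r263 (@Lb.d (nat_lit 2) (nat_lit 2) (nat_lit 0) (@Lb.g g8 (@Lb.g g9 (@Lb.r r548 (@Lb.r r519 (@Lb.r r418 (@Lb.r r289 (@Lb.d (nat_lit 0) (nat_lit 168) (nat_lit 329) (@Lb.fp (nat_lit 3) t191)))))))))))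
noncomputable def l349 : Lb := (@Lb.d (nat_lit 8) (nat_lit 265) (nat_lit 161) (@Lb.g g9 (@Lb.g g6 (@Lb.g g11 (@Lb.r r404 (@Lb.r r619 (@Lb.r r609 (@Lb.d (nat_lit 8) (nat_lit 153) (nat_lit 136) (@Lb.t (@Lb.fp (nat_lit 9) t192))))))))))
noncomputable def l350 : Lb := (@Lb.d (nat_lit 2) (nat_lit 552) (nat_lit 72) (@Lb.g g8 (@Lb.g g9 (@Lb.g g10 (@Lb.g g11 (@Lb.r r387 (@Lb.r r1381 (@Lb.r r1366 (@Lb.d (nat_lit 166) (nat_lit 145) (nat_lit 610) (@Lb.fm (nat_lit 9) t193))))))))))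
noncomputable def l351 : Lb := (@Lb.d (nat_lit 2) (nat_lit 265) (nat_lit 129) (@Lb.g g8 (@Lb.g g9 (@Lb.g g10 (@Lb.g g11 (@Lb.r r2459 (@Lb.r r2466 (@Lb.r r97 (@Lb.r r24 (@Lb.d (nat_lit 610) (nat_lit 80) (nat_lit 576) (@Lb.fm (nat_lit 9) t194)))))))))))
noncomputable def l352 : Lb := (@Lb.d (nat_lit 16) (nat_lit 2) (nat_lit 128) (@Lb.g g8 (@Lb.g g9 (@Lb.g g10 (@Lb.g g11 (@Lb.r r648 (@Lb.r r2699 (@Lb.r r1681 (@Lb.r r2714 (@Lb.r r1156 (@Lb.d (nat_lit 585) (nat_lit 98) (nat_lit 610) (@Lb.fm (nat_lit 9) t195))))))))))))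
noncomputable def l353 : Lb := (@Lb.d (nat_lit 18) (nat_lit 258) (nat_lit 128) (@Lb.g g8 (@Lb.g g9 (@Lb.g g10 (@Lb.g g11 (@Lb.r r648 (@Lb.r r2699 (@Lb.r r1681 (@Lb.r r2714 (@Lb.r r1156 (@Lb.d (nat_lit 585) (nat_lit 98) (nat_lit 610) (@Lb.fm (nat_lit 9) t195))))))))))))
noncomputable def l354 : Lb := (@Lb.d (nat_lit 1) (nat_lit 512) (nat_lit 69) (@Lb.r r24 (@Lb.r r101 (@Lb.r r402 (@Lb.r r323 (@Lb.g g7 (@Lb.g g6 (@Lb.d (nat_lit 0) (nat_lit 0) (nat_lit 64) (@Lb.fp (nat_lit 3) t50)))))))))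
noncomputable def l355 : Lb := (@Lb.r r82 (@Lb.d (nat_lit 1) (nat_lit 512) (nat_lit 128) (@Lb.g g8 (@Lb.g g9 (@Lb.g g11 (@Lb.r r1383 (@Lb.r r618 (@Lb.r r2129 (@Lb.r r1556 (@Lb.d (nat_lit 674) (nat_lit 162) (nat_lit 672) (@Lb.t (@Lb.fm (nat_lit 9) t196))))))))))))
noncomputable def l356 : Lb := (@Lb.d (nat_lit 146) (nat_lit 265) (nat_lit 4) (@Lb.g g8 (@Lb.g g9 (@Lb.g g10 (@Lb.g g11 (@Lb.r r683 (@Lb.r r618 (@Lb.r r1561 (@Lb.r r1540 (@Lb.d (nat_lit 393) (nat_lit 73) (nat_lit 673) (@Lb.fm (nat_lit 9) t197)))))))))))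
noncomputable def l357 : Lb := (@Lb.r r323 (@Lb.d (nat_lit 32) (nat_lit 544) (nat_lit 2) (@Lb.g g9 (@Lb.g g10 (@Lb.r r603 (@Lb.r r600 (@Lb.r r293 (@Lb.d (nat_lit 74) (nat_lit 130) (nat_lit 2) (@Lb.fp (nat_lit 3) t51)))))))))
noncomputable def l358 : Lb := (@Lb.d (nat_lit 33) (nat_lit 86) (nat_lit 610) (@Lb.r r260 (@Lb.r r97 (@Lb.r r2635 (@Lb.r r532 (@Lb.g g7 (@Lb.g g10 (@Lb.g g5 (@Lb.g g4 (@Lb.d (nat_lit 97) (nat_lit 1) (nat_lit 161) (@Lb.fm (nat_lit 9) t198)))))))))))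
noncomputable def l359 : Lb := (@Lb.d (nat_lit 146) (nat_lit 258) (nat_lit 128) (@Lb.g g8 (@Lb.g g9 (@Lb.g g10 (@Lb.g g11 (@Lb.r r683 (@Lb.r r618 (@Lb.r r1561 (@Lb.r r1540 (@Lb.d (nat_lit 393) (nat_lit 73) (nat_lit 673) (@Lb.fm (nat_lit 9) t199)))))))))))
noncomputable def l360 : Lb := (@Lb.d (nat_lit 0) (nat_lit 256) (nat_lit 129) (@Lb.r r1426 (@Lb.r r2149 (@Lb.r r24 (@Lb.r r2371 (@Lb.g g10 (@Lb.r r387 (@Lb.t (@Lb.fm (nat_lit 3) t200)))))))))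
noncomputable def l361 : Lb := (@Lb.d (nat_lit 362) (nat_lit 530) (nat_lit 34) (@Lb.r r420 (@Lb.r r97 (@Lb.r r427 (@Lb.r r406 (@Lb.g g7 (@Lb.g g5 (@Lb.g g4 (@Lb.d (nat_lit 17) (nat_lit 1) (nat_lit 64) (@Lb.t (@Lb.fp (nat_lit 9) t199)))))))))))
noncomputable def l362 : Lb := (@Lb.r r21 (@Lb.r r70 (@Lb.r r263 (@Lb.d (nat_lit 289) (nat_lit 512) (nat_lit 0) (@Lb.g g4 (@Lb.r r267 (@Lb.r r74 (@Lb.r r25 (@Lb.d (nat_lit 530) (nat_lit 0) (nat_lit 0) (@Lb.t (@Lb.fm (nat_lit 3) t201)))))))))))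
noncomputable def l363 : Lb := (@Lb.r r82 (@Lb.d (nat_lit 0) (nat_lit 520) (nat_lit 128) (@Lb.g g9 (@Lb.g g11 (@Lb.r r1639 (@Lb.r r662 (@Lb.r r356 (@Lb.r r2133 (@Lb.d (nat_lit 534) (nat_lit 4) (nat_lit 17) (@Lb.fm (nat_lit 3) t202))))))))))
noncomputable def l364 : Lb := (@Lb.d (nat_lit 6) (nat_lit 292) (nat_lit 128) (@Lb.g g8 (@Lb.g g9 (@Lb.g g10 (@Lb.g g11 (@Lb.r r683 (@Lb.r r610 (@Lb.r r552 (@Lb.r r617 (@Lb.r r36 (@Lb.d (nat_lit 98) (nat_lit 34) (nat_lit 18) (@Lb.fm (nat_lit 9) t203))))))))))))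
noncomputable def l365 : Lb := (@Lb.r r21 (@Lb.d (nat_lit 146) (nat_lit 0) (nat_lit 128) (@Lb.g g8 (@Lb.g g10 (@Lb.g g11 (@Lb.r r651 (@Lb.r r586 (@Lb.r r97 (@Lb.r r536 (@Lb.d (nat_lit 74) (nat_lit 32) (nat_lit 17) (@Lb.t (@Lb.fp (nat_lit 9) t203))))))))))))
noncomputable def l366 : Lb := (@Lb.r r82 (@Lb.d (nat_lit 0) (nat_lit 8) (nat_lit 128) (@Lb.g g9 (@Lb.g g11 (@Lb.r r1639 (@Lb.r r662 (@Lb.r r356 (@Lb.r r2133 (@Lb.d (nat_lit 534) (nat_lit 2) (nat_lit 16) (@Lb.fm (nat_lit 3) t202))))))))))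
noncomputable def l367 : Lb := (@Lb.r r21 (@Lb.d (nat_lit 128) (nat_lit 0) (nat_lit 130) (@Lb.g g8 (@Lb.g g10 (@Lb.g g11 (@Lb.r r651 (@Lb.r r2378 (@Lb.r r2657 (@Lb.r r2376 (@Lb.d (nat_lit 528) (nat_lit 0) (nat_lit 408) (@Lb.t (@Lb.fp (nat_lit 9) t204))))))))))))
noncomputable def l368 : Lb := (@Lb.d (nat_lit 40) (nat_lit 2) (nat_lit 128) (@Lb.g g9 (@Lb.g g10 (@Lb.g g11 (@Lb.r r391 (@Lb.r r584 (@Lb.r r662 (@Lb.r r1617 (@Lb.d (nat_lit 612) (nat_lit 133) (nat_lit 170) (@Lb.t (@Lb.fm (nat_lit 9) t205)))))))))))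
noncomputable def l369 : Lb := (@Lb.d (nat_lit 8) (nat_lit 266) (nat_lit 130) (@Lb.g g9 (@Lb.g g10 (@Lb.g g11 (@Lb.r r387 (@Lb.r r1690 (@Lb.r r1432 (@Lb.r r597 (@Lb.d (nat_lit 516) (nat_lit 38) (nat_lit 90) (@Lb.t (@Lb.fm (nat_lit 9) t206)))))))))))
noncomputable def l370 : Lb := (@Lb.r r21 (@Lb.d (nat_lit 145) (nat_lit 256) (nat_lit 128) (@Lb.g g8 (@Lb.g g10 (@Lb.g g11 (@Lb.r r651 (@Lb.r r2378 (@Lb.r r2657 (@Lb.r r536 (@Lb.d (nat_lit 74) (nat_lit 32) (nat_lit 677) (@Lb.t (@Lb.fp (nat_lit 9) t207))))))))))))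
noncomputable def l371 : Lb := (@Lb.d (nat_lit 169) (nat_lit 90) (nat_lit 265) (@Lb.r r618 (@Lb.r r600 (@Lb.r r2651 (@Lb.g g6 (@Lb.g g5 (@Lb.d (nat_lit 16) (nat_lit 1) (nat_lit 4) (@Lb.r r291 (@Lb.fm (nat_lit 3) t208)))))))))
noncomputable def l372 : Lb := (@Lb.d (nat_lit 522) (nat_lit 97) (nat_lit 0) (@Lb.r r2585 (@Lb.r r2708 (@Lb.r r1414 (@Lb.r r2403 (@Lb.g g9 (@Lb.t (@Lb.fm (nat_lit 3) t209))))))))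
noncomputable def l373 : Lb := (@Lb.r r21 (@Lb.r r323 (@Lb.d (nat_lit 138) (nat_lit 256) (nat_lit 0) (@Lb.g g4 (@Lb.g g10 (@Lb.r r1323 (@Lb.r r1385 (@Lb.r r2198 (@Lb.r r1124 (@Lb.d (nat_lit 548) (nat_lit 69) (nat_lit 576) (@Lb.fp (nat_lit 3) t2)))))))))))
noncomputable def l374 : Lb := (@Lb.d (nat_lit 16) (nat_lit 256) (nat_lit 130) (@Lb.g g6 (@Lb.g g11 (@Lb.r r584 (@Lb.r r299 (@Lb.r r289 (@Lb.d (nat_lit 8) (nat_lit 66) (nat_lit 136) (@Lb.fp (nat_lit 3) t51))))))))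
noncomputable def l375 : Lb := (@Lb.d (nat_lit 1) (nat_lit 256) (nat_lit 128) (@Lb.g g8 (@Lb.g g10 (@Lb.g g11 (@Lb.r r138 (@Lb.r r388 (@Lb.r r299 (@Lb.r r289 (@Lb.d (nat_lit 8) (nat_lit 70) (nat_lit 1) (@Lb.t (@Lb.fm (nat_lit 9) t51)))))))))))
noncomputable def l376 : Lb := (@Lb.d (nat_lit 154) (nat_lit 536) (nat_lit 2) (@Lb.g g8 (@Lb.g g9 (@Lb.g g10 (@Lb.g g11 (@Lb.r r2403 (@Lb.r r1410 (@Lb.r r105 (@Lb.r r1060 (@Lb.d (nat_lit 553) (nat_lit 130) (nat_lit 598) (@Lb.fp (nat_lit 9) t50)))))))))))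
noncomputable def l377 : Lb := (@Lb.d (nat_lit 9) (nat_lit 550) (nat_lit 68) (@Lb.g g8 (@Lb.g g9 (@Lb.g g10 (@Lb.g g11 (@Lb.r r2371 (@Lb.r r1442 (@Lb.r r36 (@Lb.r r149 (@Lb.r r1060 (@Lb.d (nat_lit 98) (nat_lit 10) (nat_lit 97) (@Lb.fm (nat_lit 9) t50))))))))))))
noncomputable def l378 : Lb := (@Lb.d (nat_lit 32) (nat_lit 512) (nat_lit 74) (@Lb.g g10 (@Lb.g g11 (@Lb.r r2711 (@Lb.r r1384 (@Lb.r r2406 (@Lb.r r289 (@Lb.d (nat_lit 532) (nat_lit 20) (nat_lit 553) (@Lb.fp (nat_lit 3) t51)))))))))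
noncomputable def l379 : Lb := (@Lb.d (nat_lit 32) (nat_lit 256) (nat_lit 2) (@Lb.g g10 (@Lb.r r2579 (@Lb.r r72 (@Lb.r r598 (@Lb.r r289 (@Lb.d (nat_lit 274) (nat_lit 88) (nat_lit 521) (@Lb.t (@Lb.fm (nat_lit 3) t51)))))))))
noncomputable def l380 : Lb := (@Lb.d (nat_lit 9) (nat_lit 514) (nat_lit 66) (@Lb.g g8 (@Lb.g g9 (@Lb.g g10 (@Lb.g g11 (@Lb.r r593 (@Lb.r r2474 (@Lb.r r2472 (@Lb.r r1303 (@Lb.r r537 (@Lb.d (nat_lit 262) (nat_lit 130) (nat_lit 330) (@Lb.fp (nat_lit 9) t2))))))))))))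
noncomputable def l381 : Lb := (@Lb.d (nat_lit 2) (nat_lit 521) (nat_lit 129) (@Lb.g g8 (@Lb.g g9 (@Lb.g g10 (@Lb.g g11 (@Lb.r r2371 (@Lb.r r1442 (@Lb.r r404 (@Lb.r r681 (@Lb.r r36 (@Lb.d (nat_lit 146) (nat_lit 10) (nat_lit 133) (@Lb.fp (nat_lit 9) t50))))))))))))
noncomputable def l382 : Lb := (@Lb.d (nat_lit 32) (nat_lit 290) (nat_lit 2) (@Lb.g g9 (@Lb.g g10 (@Lb.r r72 (@Lb.r r422 (@Lb.r r595 (@Lb.r r2465 (@Lb.d (nat_lit 390) (nat_lit 132) (nat_lit 22) (@Lb.fm (nat_lit 3) t210)))))))))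
noncomputable def l383 : Lb := (@Lb.d (nat_lit 9) (nat_lit 2) (nat_lit 130) (@Lb.g g8 (@Lb.g g9 (@Lb.g g10 (@Lb.g g11 (@Lb.r r148 (@Lb.r r1126 (@Lb.r r1381 (@Lb.r r1691 (@Lb.r r1668 (@Lb.d (nat_lit 2) (nat_lit 66) (nat_lit 330) (@Lb.fp (nat_lit 9) t2))))))))))))
noncomputable def l384 : Lb := (@Lb.d (nat_lit 134) (nat_lit 0) (nat_lit 130) (@Lb.g g8 (@Lb.g g9 (@Lb.g g10 (@Lb.g g11 (@Lb.r r1706 (@Lb.r r1411 (@Lb.r r665 (@Lb.r r1176 (@Lb.d (nat_lit 538) (nat_lit 165) (nat_lit 353) (@Lb.fp (nat_lit 9) t211)))))))))))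
noncomputable def l385 : Lb := (@Lb.d (nat_lit 1) (nat_lit 514) (nat_lit 129) (@Lb.g g8 (@Lb.g g9 (@Lb.g g10 (@Lb.g g11 (@Lb.r r1703 (@Lb.r r297 (@Lb.r r1412 (@Lb.r r1430 (@Lb.d (nat_lit 353) (nat_lit 74) (nat_lit 664) (@Lb.fm (nat_lit 9) t91)))))))))))
noncomputable def l386 : Lb := (@Lb.d (nat_lit 2) (nat_lit 2) (nat_lit 129) (@Lb.g g8 (@Lb.g g9 (@Lb.g g10 (@Lb.g g11 (@Lb.r r1703 (@Lb.r r297 (@Lb.r r1412 (@Lb.r r1430 (@Lb.d (nat_lit 353) (nat_lit 64) (nat_lit 665) (@Lb.fm (nat_lit 9) t91)))))))))))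
noncomputable def l387 : Lb := (@Lb.r r82 (@Lb.r r275 (@Lb.d (nat_lit 2) (nat_lit 0) (nat_lit 0) (@Lb.g g8 (@Lb.g g9 (@Lb.r r299 (@Lb.r r106 (@Lb.r r25 (@Lb.d (nat_lit 9) (nat_lit 2) (nat_lit 0) (@Lb.fm (nat_lit 3) t5))))))))))
noncomputable def l388 : Lb := (@Lb.d (nat_lit 145) (nat_lit 514) (nat_lit 74) (@Lb.g g8 (@Lb.g g9 (@Lb.g g10 (@Lb.g g11 (@Lb.r r2459 (@Lb.r r1169 (@Lb.r r1618 (@Lb.r r72 (@Lb.d (nat_lit 85) (nat_lit 36) (nat_lit 358) (@Lb.fm (nat_lit 9) t212)))))))))))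
noncomputable def l389 : Lb := (@Lb.d (nat_lit 261) (nat_lit 257) (nat_lit 32) (@Lb.r r21 (@Lb.r r1124 (@Lb.r r323 (@Lb.g g10 (@Lb.g g5 (@Lb.d (nat_lit 4) (nat_lit 6) (nat_lit 16) (@Lb.r r387 (@Lb.r r132 (@Lb.fp (nat_lit 3) t213))))))))))
noncomputable def l390 : Lb := (@Lb.d (nat_lit 129) (nat_lit 258) (nat_lit 130) (@Lb.g g8 (@Lb.g g9 (@Lb.g g10 (@Lb.g g11 (@Lb.r r1706 (@Lb.r r1411 (@Lb.r r665 (@Lb.r r664 (@Lb.d (nat_lit 404) (nat_lit 84) (nat_lit 261) (@Lb.fp (nat_lit 9) t214)))))))))))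
noncomputable def l391 : Lb := (@Lb.d (nat_lit 262) (nat_lit 514) (nat_lit 0) (@Lb.r r2138 (@Lb.r r2331 (@Lb.g g5 (@Lb.d (nat_lit 8) (nat_lit 2) (nat_lit 0) (@Lb.t (@Lb.fm (nat_lit 3) t90)))))))
noncomputable def l392 : Lb := (@Lb.r r82 (@Lb.d (nat_lit 8) (nat_lit 520) (nat_lit 128) (@Lb.g g9 (@Lb.g g11 (@Lb.r r2394 (@Lb.r r2392 (@Lb.r r1383 (@Lb.r r1301 (@Lb.d (nat_lit 326) (nat_lit 81) (nat_lit 385) (@Lb.fp (nat_lit 3) t215))))))))))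
noncomputable def l393 : Lb := (@Lb.r r323 (@Lb.g g5 (@Lb.g g10 (@Lb.r r1315 (@Lb.r r1105 (@Lb.r r98 (@Lb.d (nat_lit 0) (nat_lit 578) (nat_lit 32) (@Lb.fp (nat_lit 3) t216))))))))
noncomputable def l394 : Lb := (@Lb.g g10 (@Lb.d (nat_lit 0) (nat_lit 522) (nat_lit 2) (@Lb.t (@Lb.fp (nat_lit 3) t21))))
noncomputable def l395 : Lb := (@Lb.r r81 (@Lb.d (nat_lit 128) (nat_lit 296) (nat_lit 162) (@Lb.g g6 (@Lb.g g11 (@Lb.r r409 (@Lb.r r404 (@Lb.r r299 (@Lb.d (nat_lit 404) (nat_lit 34) (nat_lit 145) (@Lb.fp (nat_lit 3) t217)))))))))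
noncomputable def l396 : Lb := (@Lb.d (nat_lit 5) (nat_lit 513) (nat_lit 0) (@Lb.g g4 (@Lb.t (@Lb.fm (nat_lit 3) t2))))
noncomputable def l397 : Lb := (@Lb.r r24 (@Lb.r r2069 (@Lb.r r36 (@Lb.d (nat_lit 10) (nat_lit 258) (nat_lit 0) (@Lb.fm (nat_lit 1) t2)))))
noncomputable def l398 : Lb := (@Lb.d (nat_lit 2) (nat_lit 33) (nat_lit 130) (@Lb.g g8 (@Lb.g g9 (@Lb.g g10 (@Lb.g g11 (@Lb.r r683 (@Lb.r r1642 (@Lb.r r1561 (@Lb.d (nat_lit 585) (nat_lit 105) (nat_lit 401) (@Lb.fm (nat_lit 9) t218))))))))))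
noncomputable def l399 : Lb := (@Lb.d (nat_lit 2) (nat_lit 0) (nat_lit 128) (@Lb.g g8 (@Lb.g g10 (@Lb.g g11 (@Lb.r r2443 (@Lb.r r2345 (@Lb.r r2468 (@Lb.r r2150 (@Lb.d (nat_lit 533) (nat_lit 154) (nat_lit 420) (@Lb.t (@Lb.fp (nat_lit 9) t219)))))))))))
noncomputable def l400 : Lb := (@Lb.d (nat_lit 2) (nat_lit 520) (nat_lit 130) (@Lb.g g8 (@Lb.g g10 (@Lb.g g11 (@Lb.r r2443 (@Lb.r r2345 (@Lb.r r2468 (@Lb.r r2150 (@Lb.d (nat_lit 538) (nat_lit 85) (nat_lit 406) (@Lb.t (@Lb.fp (nat_lit 9) t51)))))))))))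
noncomputable def l401 : Lb := (@Lb.r r323 (@Lb.d (nat_lit 130) (nat_lit 520) (nat_lit 34) (@Lb.g g8 (@Lb.g g10 (@Lb.r r583 (@Lb.r r2145 (@Lb.r r408 (@Lb.d (nat_lit 149) (nat_lit 36) (nat_lit 422) (@Lb.fp (nat_lit 3) t51)))))))))
noncomputable def l402 : Lb := (@Lb.d (nat_lit 2) (nat_lit 261) (nat_lit 128) (@Lb.g g8 (@Lb.g g9 (@Lb.g g10 (@Lb.g g11 (@Lb.r r1686 (@Lb.r r2404 (@Lb.r r1371 (@Lb.r r2705 (@Lb.d (nat_lit 9) (nat_lit 160) (nat_lit 353) (@Lb.fm (nat_lit 9) t220)))))))))))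
noncomputable def l403 : Lb := (@Lb.d (nat_lit 0) (nat_lit 66) (nat_lit 0) (@Lb.fp (nat_lit 1) t2))
noncomputable def l404 : Lb := (@Lb.d (nat_lit 2) (nat_lit 258) (nat_lit 2) (@Lb.g g8 (@Lb.g g9 (@Lb.g g10 (@Lb.r r515 (@Lb.r r106 (@Lb.r r25 (@Lb.d (nat_lit 9) (nat_lit 9) (nat_lit 70) (@Lb.t (@Lb.fp (nat_lit 9) t71))))))))))
noncomputable def l405 : Lb := (@Lb.d (nat_lit 10) (nat_lit 256) (nat_lit 130) (@Lb.g g8 (@Lb.g g9 (@Lb.g g10 (@Lb.g g11 (@Lb.r r618 (@Lb.r r612 (@Lb.r r679 (@Lb.r r597 (@Lb.r r36 (@Lb.d (nat_lit 153) (nat_lit 9) (nat_lit 84) (@Lb.fm (nat_lit 9) t221))))))))))))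
noncomputable def l406 : Lb := (@Lb.d (nat_lit 133) (nat_lit 70) (nat_lit 2) (@Lb.r r293 (@Lb.r r600 (@Lb.r r603 (@Lb.g g6 (@Lb.g g5 (@Lb.d (nat_lit 16) (nat_lit 16) (nat_lit 1) (@Lb.r r387 (@Lb.fp (nat_lit 3) t74)))))))))
noncomputable def l407 : Lb := (@Lb.d (nat_lit 32) (nat_lit 2) (nat_lit 2) (@Lb.g g9 (@Lb.g g10 (@Lb.r r1543 (@Lb.r r149 (@Lb.r r100 (@Lb.r r410 (@Lb.d (nat_lit 153) (nat_lit 146) (nat_lit 138) (@Lb.fm (nat_lit 3) t222)))))))))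
noncomputable def l408 : Lb := (@Lb.d (nat_lit 32) (nat_lit 260) (nat_lit 0) (@Lb.g g9 (@Lb.g g10 (@Lb.r r1543 (@Lb.r r149 (@Lb.r r100 (@Lb.r r410 (@Lb.d (nat_lit 154) (nat_lit 146) (nat_lit 138) (@Lb.fm (nat_lit 3) t223)))))))))
noncomputable def l409 : Lb := (@Lb.d (nat_lit 0) (nat_lit 5) (nat_lit 128) (@Lb.g g9 (@Lb.g g10 (@Lb.g g11 (@Lb.r r2403 (@Lb.r r386 (@Lb.r r2725 (@Lb.r r24 (@Lb.d (nat_lit 98) (nat_lit 0) (nat_lit 420) (@Lb.t (@Lb.fp (nat_lit 9) t200)))))))))))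
noncomputable def l410 : Lb := (@Lb.d (nat_lit 32) (nat_lit 516) (nat_lit 0) (@Lb.g g9 (@Lb.g g10 (@Lb.r r1543 (@Lb.r r149 (@Lb.r r100 (@Lb.r r410 (@Lb.d (nat_lit 153) (nat_lit 146) (nat_lit 138) (@Lb.fm (nat_lit 3) t224)))))))))
noncomputable def l411 : Lb := (@Lb.d (nat_lit 0) (nat_lit 22) (nat_lit 0) (@Lb.g g9 (@Lb.g g10 (@Lb.g g11 (@Lb.r r579 (@Lb.r r1361 (@Lb.r r98 (@Lb.d (nat_lit 0) (nat_lit 129) (nat_lit 282) (@Lb.t (@Lb.fp (nat_lit 9) t225))))))))))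
noncomputable def l412 : Lb := (@Lb.d (nat_lit 4) (nat_lit 5) (nat_lit 128) (@Lb.g g8 (@Lb.g g9 (@Lb.g g10 (@Lb.g g11 (@Lb.r r355 (@Lb.r r386 (@Lb.r r1129 (@Lb.r r1444 (@Lb.d (nat_lit 153) (nat_lit 166) (nat_lit 546) (@Lb.fp (nat_lit 9) t226)))))))))))
noncomputable def l413 : Lb := (@Lb.d (nat_lit 8) (nat_lit 517) (nat_lit 128) (@Lb.g g9 (@Lb.g g10 (@Lb.g g11 (@Lb.r r2407 (@Lb.r r386 (@Lb.r r1364 (@Lb.r r665 (@Lb.d (nat_lit 360) (nat_lit 42) (nat_lit 148) (@Lb.t (@Lb.fp (nat_lit 9) t227)))))))))))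
noncomputable def l414 : Lb := (@Lb.d (nat_lit 5) (nat_lit 0) (nat_lit 0) (@Lb.g g4 (@Lb.d (nat_lit 1) (nat_lit 6) (nat_lit 1) (@Lb.t (@Lb.fm (nat_lit 3) t45)))))
noncomputable def l415 : Lb := (@Lb.r r283 (@Lb.d (nat_lit 132) (nat_lit 517) (nat_lit 0) (@Lb.g g8 (@Lb.g g9 (@Lb.g g10 (@Lb.r r98 (@Lb.r r1385 (@Lb.r r2647 (@Lb.r r2404 (@Lb.d (nat_lit 602) (nat_lit 106) (nat_lit 42) (@Lb.t (@Lb.fm (nat_lit 9) t22))))))))))))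
noncomputable def l416 : Lb := (@Lb.d (nat_lit 32) (nat_lit 0) (nat_lit 130) (@Lb.g g9 (@Lb.g g10 (@Lb.g g11 (@Lb.r r2725 (@Lb.r r299 (@Lb.r r68 (@Lb.r r394 (@Lb.d (nat_lit 640) (nat_lit 10) (nat_lit 168) (@Lb.t (@Lb.fm (nat_lit 9) t228)))))))))))
noncomputable def l417 : Lb := (@Lb.d (nat_lit 136) (nat_lit 256) (nat_lit 128) (@Lb.g g9 (@Lb.g g11 (@Lb.r r152 (@Lb.r r1429 (@Lb.r r291 (@Lb.r r2178 (@Lb.d (nat_lit 98) (nat_lit 160) (nat_lit 582) (@Lb.fm (nat_lit 3) t229)))))))))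
noncomputable def l418 : Lb := (@Lb.r r90 (@Lb.r r283 (@Lb.d (nat_lit 4) (nat_lit 160) (nat_lit 0) (@Lb.g g8 (@Lb.g g9 (@Lb.r r1555 (@Lb.r r70 (@Lb.r r1668 (@Lb.d (nat_lit 32) (nat_lit 2) (nat_lit 102) (@Lb.fp (nat_lit 3) t230))))))))))
noncomputable def l419 : Lb := (@Lb.r r283 (@Lb.d (nat_lit 132) (nat_lit 5) (nat_lit 0) (@Lb.g g8 (@Lb.g g9 (@Lb.g g10 (@Lb.r r98 (@Lb.r r1385 (@Lb.r r2647 (@Lb.r r2404 (@Lb.d (nat_lit 601) (nat_lit 106) (nat_lit 42) (@Lb.t (@Lb.fm (nat_lit 9) t231))))))))))))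
noncomputable def l420 : Lb := (@Lb.d (nat_lit 5) (nat_lit 256) (nat_lit 0) (@Lb.g g4 (@Lb.d (nat_lit 1) (nat_lit 1) (nat_lit 0) (@Lb.t (@Lb.fm (nat_lit 3) t2)))))
noncomputable def l421 : Lb := (@Lb.d (nat_lit 0) (nat_lit 258) (nat_lit 128) (@Lb.g g9 (@Lb.g g10 (@Lb.g g11 (@Lb.r r673 (@Lb.r r299 (@Lb.r r356 (@Lb.r r154 (@Lb.d (nat_lit 22) (nat_lit 132) (nat_lit 33) (@Lb.t (@Lb.fm (nat_lit 9) t232)))))))))))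
noncomputable def l422 : Lb := (@Lb.d (nat_lit 0) (nat_lit 34) (nat_lit 132) (@Lb.g g9 (@Lb.g g10 (@Lb.g g11 (@Lb.r r657 (@Lb.r r1683 (@Lb.r r1618 (@Lb.r r145 (@Lb.d (nat_lit 0) (nat_lit 160) (nat_lit 358) (@Lb.t (@Lb.fp (nat_lit 9) t233)))))))))))
noncomputable def l423 : Lb := (@Lb.d (nat_lit 0) (nat_lit 9) (nat_lit 130) (@Lb.g g9 (@Lb.g g10 (@Lb.g g11 (@Lb.r r2459 (@Lb.r r1121 (@Lb.r r356 (@Lb.r r154 (@Lb.d (nat_lit 294) (nat_lit 9) (nat_lit 1) (@Lb.t (@Lb.fm (nat_lit 9) t234)))))))))))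
noncomputable def l424 : Lb := (@Lb.r r275 (@Lb.g g9 (@Lb.g g10 (@Lb.r r2467 (@Lb.r r2193 (@Lb.d (nat_lit 0) (nat_lit 266) (nat_lit 17) (@Lb.fm (nat_lit 3) t235)))))))
noncomputable def l425 : Lb := (@Lb.r r275 (@Lb.g g9 (@Lb.g g10 (@Lb.r r2467 (@Lb.r r2193 (@Lb.d (nat_lit 0) (nat_lit 522) (nat_lit 152) (@Lb.fm (nat_lit 3) t236)))))))
noncomputable def l426 : Lb := (@Lb.d (nat_lit 0) (nat_lit 290) (nat_lit 64) (@Lb.g g9 (@Lb.g g11 (@Lb.r r2130 (@Lb.r r2705 (@Lb.r r531 (@Lb.d (nat_lit 0) (nat_lit 81) (nat_lit 297) (@Lb.fp (nat_lit 3) t237))))))))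
noncomputable def l427 : Lb := (@Lb.d (nat_lit 136) (nat_lit 514) (nat_lit 128) (@Lb.g g9 (@Lb.g g11 (@Lb.r r24 (@Lb.r r1365 (@Lb.r r291 (@Lb.r r2178 (@Lb.d (nat_lit 322) (nat_lit 160) (nat_lit 105) (@Lb.fm (nat_lit 3) t64)))))))))
noncomputable def l428 : Lb := (@Lb.d (nat_lit 132) (nat_lit 272) (nat_lit 66) (@Lb.g g8 (@Lb.g g9 (@Lb.g g10 (@Lb.g g11 (@Lb.r r614 (@Lb.r r404 (@Lb.r r1307 (@Lb.r r2337 (@Lb.d (nat_lit 74) (nat_lit 26) (nat_lit 402) (@Lb.fm (nat_lit 9) t238)))))))))))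
noncomputable def l429 : Lb := (@Lb.r r21 (@Lb.r r70 (@Lb.r r263 (@Lb.d (nat_lit 289) (nat_lit 256) (nat_lit 0) (@Lb.g g8 (@Lb.r r267 (@Lb.r r74 (@Lb.r r25 (@Lb.d (nat_lit 529) (nat_lit 0) (nat_lit 0) (@Lb.t (@Lb.fp (nat_lit 3) t239)))))))))))
noncomputable def l430 : Lb := (@Lb.d (nat_lit 0) (nat_lit 264) (nat_lit 2) (@Lb.g g10 (@Lb.r r1427 (@Lb.r r101 (@Lb.d (nat_lit 266) (nat_lit 66) (nat_lit 2) (@Lb.t (@Lb.fm (nat_lit 3) t240)))))))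
noncomputable def l431 : Lb := (@Lb.d (nat_lit 646) (nat_lit 394) (nat_lit 69) (@Lb.r r2146 (@Lb.r r2649 (@Lb.r r24 (@Lb.r r1671 (@Lb.g g7 (@Lb.g g6 (@Lb.g g5 (@Lb.d (nat_lit 4) (nat_lit 1) (nat_lit 64) (@Lb.t (@Lb.fp (nat_lit 9) t241)))))))))))
noncomputable def l432 : Lb := (@Lb.d (nat_lit 132) (nat_lit 34) (nat_lit 0) (@Lb.g g8 (@Lb.g g9 (@Lb.r r2579 (@Lb.r r2178 (@Lb.r r1429 (@Lb.r r2084 (@Lb.d (nat_lit 617) (nat_lit 66) (nat_lit 400) (@Lb.fm (nat_lit 3) t100)))))))))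
noncomputable def l433 : Lb := (@Lb.d (nat_lit 34) (nat_lit 258) (nat_lit 0) (@Lb.g g8 (@Lb.g g9 (@Lb.r r1186 (@Lb.r r1065 (@Lb.r r360 (@Lb.r r1543 (@Lb.d (nat_lit 0) (nat_lit 154) (nat_lit 528) (@Lb.fm (nat_lit 3) t242)))))))))
noncomputable def l434 : Lb := (@Lb.r r81 (@Lb.d (nat_lit 128) (nat_lit 8) (nat_lit 162) (@Lb.g g6 (@Lb.g g11 (@Lb.r r420 (@Lb.r r283 (@Lb.r r37 (@Lb.d (nat_lit 101) (nat_lit 101) (nat_lit 657) (@Lb.fm (nat_lit 3) t243)))))))))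
noncomputable def l435 : Lb := (@Lb.d (nat_lit 130) (nat_lit 545) (nat_lit 0) (@Lb.g g8 (@Lb.g g9 (@Lb.r r2579 (@Lb.r r2178 (@Lb.r r1429 (@Lb.r r2084 (@Lb.d (nat_lit 617) (nat_lit 73) (nat_lit 402) (@Lb.fm (nat_lit 3) t100)))))))))
noncomputable def l436 : Lb := (@Lb.d (nat_lit 130) (nat_lit 289) (nat_lit 0) (@Lb.g g8 (@Lb.g g9 (@Lb.r r2579 (@Lb.r r2178 (@Lb.r r1429 (@Lb.r r2084 (@Lb.d (nat_lit 617) (nat_lit 66) (nat_lit 400) (@Lb.fm (nat_lit 3) t100)))))))))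
noncomputable def l437 : Lb := (@Lb.r r323 (@Lb.d (nat_lit 130) (nat_lit 546) (nat_lit 18) (@Lb.g g8 (@Lb.g g9 (@Lb.g g10 (@Lb.r r595 (@Lb.r r341 (@Lb.r r100 (@Lb.d (nat_lit 73) (nat_lit 10) (nat_lit 416) (@Lb.t (@Lb.fp (nat_lit 9) t88)))))))))))
noncomputable def l438 : Lb := (@Lb.d (nat_lit 646) (nat_lit 337) (nat_lit 164) (@Lb.r r275 (@Lb.r r601 (@Lb.r r24 (@Lb.g g7 (@Lb.g g10 (@Lb.g g5 (@Lb.d (nat_lit 68) (nat_lit 1) (nat_lit 81) (@Lb.t (@Lb.fp (nat_lit 9) t114))))))))))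
noncomputable def l439 : Lb := (@Lb.d (nat_lit 136) (nat_lit 256) (nat_lit 162) (@Lb.g g9 (@Lb.g g6 (@Lb.g g11 (@Lb.r r1112 (@Lb.r r2389 (@Lb.r r291 (@Lb.d (nat_lit 98) (nat_lit 160) (nat_lit 613) (@Lb.t (@Lb.fm (nat_lit 9) t229))))))))))
noncomputable def l440 : Lb := (@Lb.r r323 (@Lb.d (nat_lit 137) (nat_lit 545) (nat_lit 18) (@Lb.g g8 (@Lb.g g9 (@Lb.g g10 (@Lb.r r595 (@Lb.r r341 (@Lb.r r100 (@Lb.d (nat_lit 73) (nat_lit 5) (nat_lit 361) (@Lb.t (@Lb.fp (nat_lit 9) t88)))))))))))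
noncomputable def l441 : Lb := (@Lb.r r323 (@Lb.d (nat_lit 8) (nat_lit 548) (nat_lit 0) (@Lb.g g9 (@Lb.g g10 (@Lb.r r595 (@Lb.r r2634 (@Lb.r r2392 (@Lb.r r1573 (@Lb.d (nat_lit 394) (nat_lit 24) (nat_lit 642) (@Lb.fp (nat_lit 3) t244))))))))))
noncomputable def l442 : Lb := (@Lb.d (nat_lit 641) (nat_lit 341) (nat_lit 165) (@Lb.r r275 (@Lb.r r601 (@Lb.r r24 (@Lb.g g7 (@Lb.g g10 (@Lb.g g5 (@Lb.d (nat_lit 68) (nat_lit 1) (nat_lit 81) (@Lb.t (@Lb.fp (nat_lit 9) t245))))))))))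
noncomputable def l443 : Lb := (@Lb.r r323 (@Lb.d (nat_lit 129) (nat_lit 0) (nat_lit 18) (@Lb.g g8 (@Lb.g g10 (@Lb.r r361 (@Lb.r r2711 (@Lb.r r1380 (@Lb.d (nat_lit 346) (nat_lit 170) (nat_lit 664) (@Lb.fm (nat_lit 3) t100)))))))))
noncomputable def l444 : Lb := (@Lb.d (nat_lit 657) (nat_lit 664) (nat_lit 324) (@Lb.r r2469 (@Lb.r r603 (@Lb.r r536 (@Lb.g g10 (@Lb.g g5 (@Lb.d (nat_lit 4) (nat_lit 17) (nat_lit 17) (@Lb.fm (nat_lit 3) t246))))))))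
noncomputable def l445 : Lb := (@Lb.d (nat_lit 657) (nat_lit 338) (nat_lit 325) (@Lb.r r2469 (@Lb.r r603 (@Lb.r r536 (@Lb.g g10 (@Lb.g g5 (@Lb.d (nat_lit 4) (nat_lit 17) (nat_lit 22) (@Lb.fm (nat_lit 3) t247))))))))
noncomputable def l446 : Lb := (@Lb.r r81 (@Lb.d (nat_lit 33) (nat_lit 516) (nat_lit 129) (@Lb.g g8 (@Lb.g g6 (@Lb.g g11 (@Lb.r r529 (@Lb.r r407 (@Lb.r r612 (@Lb.d (nat_lit 165) (nat_lit 20) (nat_lit 136) (@Lb.t (@Lb.fp (nat_lit 9) t5)))))))))))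
noncomputable def l447 : Lb := (@Lb.d (nat_lit 2) (nat_lit 9) (nat_lit 129) (@Lb.g g8 (@Lb.g g9 (@Lb.g g10 (@Lb.g g11 (@Lb.r r2459 (@Lb.r r297 (@Lb.r r1384 (@Lb.r r2630 (@Lb.d (nat_lit 664) (nat_lit 66) (nat_lit 356) (@Lb.fp (nat_lit 9) t248)))))))))))
noncomputable def l448 : Lb := (@Lb.d (nat_lit 2) (nat_lit 265) (nat_lit 10) (@Lb.g g8 (@Lb.g g9 (@Lb.g g10 (@Lb.r r1555 (@Lb.r r297 (@Lb.r r1700 (@Lb.r r1670 (@Lb.d (nat_lit 130) (nat_lit 10) (nat_lit 577) (@Lb.t (@Lb.fp (nat_lit 9) t249)))))))))))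
noncomputable def l449 : Lb := (@Lb.d (nat_lit 2) (nat_lit 9) (nat_lit 72) (@Lb.g g8 (@Lb.g g9 (@Lb.g g10 (@Lb.g g11 (@Lb.r r1699 (@Lb.r r1193 (@Lb.r r1192 (@Lb.r r1642 (@Lb.d (nat_lit 613) (nat_lit 32) (nat_lit 358) (@Lb.fm (nat_lit 9) t250)))))))))))
noncomputable def l450 : Lb := (@Lb.d (nat_lit 553) (nat_lit 516) (nat_lit 33) (@Lb.r r168 (@Lb.r r89 (@Lb.r r2403 (@Lb.g g6 (@Lb.g g4 (@Lb.d (nat_lit 5) (nat_lit 4) (nat_lit 1) (@Lb.fp (nat_lit 3) t251))))))))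
noncomputable def l451 : Lb := (@Lb.d (nat_lit 2) (nat_lit 521) (nat_lit 129) (@Lb.g g8 (@Lb.g g9 (@Lb.g g10 (@Lb.g g11 (@Lb.r r2459 (@Lb.r r297 (@Lb.r r1384 (@Lb.r r2630 (@Lb.d (nat_lit 658) (nat_lit 137) (nat_lit 358) (@Lb.fp (nat_lit 9) t55)))))))))))
noncomputable def l452 : Lb := (@Lb.d (nat_lit 298) (nat_lit 516) (nat_lit 32) (@Lb.r r168 (@Lb.r r89 (@Lb.r r402 (@Lb.r r323 (@Lb.g g7 (@Lb.g g6 (@Lb.g g4 (@Lb.d (nat_lit 5) (nat_lit 0) (nat_lit 64) (@Lb.t (@Lb.fp (nat_lit 9) t101)))))))))))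
noncomputable def l453 : Lb := (@Lb.d (nat_lit 0) (nat_lit 585) (nat_lit 0) (@Lb.g g9 (@Lb.d (nat_lit 1) (nat_lit 10) (nat_lit 18) (@Lb.t (@Lb.fp (nat_lit 3) t97)))))
noncomputable def l454 : Lb := (@Lb.d (nat_lit 0) (nat_lit 578) (nat_lit 136) (@Lb.r r609 (@Lb.r r363 (@Lb.r r328 (@Lb.r r134 (@Lb.g g9 (@Lb.t (@Lb.fm (nat_lit 3) t40))))))))
noncomputable def l455 : Lb := (@Lb.d (nat_lit 0) (nat_lit 514) (nat_lit 128) (@Lb.g g9 (@Lb.g g11 (@Lb.r r673 (@Lb.r r299 (@Lb.r r328 (@Lb.r r134 (@Lb.d (nat_lit 36) (nat_lit 8) (nat_lit 33) (@Lb.fp (nat_lit 3) t252)))))))))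
noncomputable def l456 : Lb := (@Lb.d (nat_lit 0) (nat_lit 256) (nat_lit 128) (@Lb.g g11 (@Lb.r r545 (@Lb.r r299 (@Lb.r r328 (@Lb.r r134 (@Lb.d (nat_lit 2) (nat_lit 136) (nat_lit 33) (@Lb.t (@Lb.fm (nat_lit 3) t253)))))))))
noncomputable def l457 : Lb := (@Lb.g g5 (@Lb.g g6 (@Lb.p (nat_lit 2) (@Lb.fm (nat_lit 3) t2))))
noncomputable def l458 : Lb := (@Lb.g g11 (@Lb.r r387 (@Lb.d (nat_lit 0) (nat_lit 256) (nat_lit 2) (@Lb.t (@Lb.fp (nat_lit 3) t2)))))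
noncomputable def l459 : Lb := (@Lb.d (nat_lit 0) (nat_lit 322) (nat_lit 136) (@Lb.r r609 (@Lb.r r363 (@Lb.r r328 (@Lb.r r134 (@Lb.g g9 (@Lb.g g4 (@Lb.fm (nat_lit 3) t40))))))))
noncomputable def l460 : Lb := (@Lb.r r82 (@Lb.d (nat_lit 0) (nat_lit 352) (nat_lit 64) (@Lb.g g5 (@Lb.g g11 (@Lb.r r531 (@Lb.r r98 (@Lb.d (nat_lit 0) (nat_lit 169) (nat_lit 130) (@Lb.fm (nat_lit 3) t254))))))))
noncomputable def l461 : Lb := (@Lb.r r275 (@Lb.d (nat_lit 2) (nat_lit 641) (nat_lit 0) (@Lb.g g8 (@Lb.g g5 (@Lb.r r291 (@Lb.r r24 (@Lb.d (nat_lit 10) (nat_lit 66) (nat_lit 0) (@Lb.fm (nat_lit 3) t148))))))))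
noncomputable def l462 : Lb := (@Lb.d (nat_lit 0) (nat_lit 256) (nat_lit 9) (@Lb.g g9 (@Lb.g g10 (@Lb.g g7 (@Lb.r r386 (@Lb.d (nat_lit 0) (nat_lit 5) (nat_lit 138) (@Lb.t (@Lb.fm (nat_lit 9) t45))))))))
noncomputable def l463 : Lb := (@Lb.d (nat_lit 32) (nat_lit 10) (nat_lit 129) (@Lb.g g9 (@Lb.g g10 (@Lb.g g11 (@Lb.r r2715 (@Lb.r r1633 (@Lb.r r2152 (@Lb.r r1430 (@Lb.d (nat_lit 585) (nat_lit 88) (nat_lit 424) (@Lb.t (@Lb.fm (nat_lit 9) t255)))))))))))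
noncomputable def l464 : Lb := (@Lb.r r275 (@Lb.d (nat_lit 0) (nat_lit 129) (nat_lit 0) (@Lb.g g5 (@Lb.r r291 (@Lb.d (nat_lit 0) (nat_lit 66) (nat_lit 0) (@Lb.t (@Lb.fm (nat_lit 3) t256)))))))
noncomputable def l465 : Lb := (@Lb.r r275 (@Lb.d (nat_lit 0) (nat_lit 641) (nat_lit 0) (@Lb.g g5 (@Lb.r r291 (@Lb.d (nat_lit 0) (nat_lit 68) (nat_lit 1) (@Lb.t (@Lb.fm (nat_lit 3) t257)))))))
noncomputable def l466 : Lb := (@Lb.d (nat_lit 0) (nat_lit 529) (nat_lit 168) (@Lb.g g9 (@Lb.g g6 (@Lb.g g11 (@Lb.r r1427 (@Lb.r r417 (@Lb.d (nat_lit 0) (nat_lit 169) (nat_lit 152) (@Lb.t (@Lb.fm (nat_lit 9) t258)))))))))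
noncomputable def l467 : Lb := (@Lb.d (nat_lit 130) (nat_lit 9) (nat_lit 0) (@Lb.g g8 (@Lb.g g9 (@Lb.r r394 (@Lb.r r2647 (@Lb.r r1313 (@Lb.r r152 (@Lb.d (nat_lit 21) (nat_lit 132) (nat_lit 385) (@Lb.fm (nat_lit 3) t71)))))))))
noncomputable def l468 : Lb := (@Lb.d (nat_lit 0) (nat_lit 9) (nat_lit 73) (@Lb.g g9 (@Lb.g g10 (@Lb.g g11 (@Lb.r r1671 (@Lb.r r1685 (@Lb.r r2404 (@Lb.r r1178 (@Lb.d (nat_lit 290) (nat_lit 9) (nat_lit 34) (@Lb.t (@Lb.fm (nat_lit 9) t125)))))))))))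
noncomputable def l469 : Lb := (@Lb.g g5 (@Lb.g g10 (@Lb.r r2579 (@Lb.r r1617 (@Lb.r r354 (@Lb.d (nat_lit 0) (nat_lit 98) (nat_lit 80) (@Lb.fm (nat_lit 3) t20)))))))
noncomputable def l470 : Lb := (@Lb.r r2663 (@Lb.r r1304 (@Lb.r r101 (@Lb.r r2194 (@Lb.d (nat_lit 520) (nat_lit 5) (nat_lit 32) (@Lb.fp (nat_lit 1) t228))))))
noncomputable def l471 : Lb := (@Lb.d (nat_lit 0) (nat_lit 522) (nat_lit 130) (@Lb.g g5 (@Lb.g g10 (@Lb.g g11 (@Lb.r r2626 (@Lb.r r579 (@Lb.d (nat_lit 0) (nat_lit 0) (nat_lit 640) (@Lb.t (@Lb.fm (nat_lit 9) t5)))))))))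
noncomputable def l472 : Lb := (@Lb.r r82 (@Lb.d (nat_lit 2) (nat_lit 545) (nat_lit 64) (@Lb.g g8 (@Lb.g g9 (@Lb.g g11 (@Lb.r r555 (@Lb.r r612 (@Lb.r r90 (@Lb.r r37 (@Lb.d (nat_lit 33) (nat_lit 6) (nat_lit 68) (@Lb.t (@Lb.fm (nat_lit 9) t5))))))))))))
noncomputable def l473 : Lb := (@Lb.g g7 (@Lb.r r584 (@Lb.r r86 (@Lb.r r289 (@Lb.r r132 (@Lb.d (nat_lit 5) (nat_lit 384) (nat_lit 320) (@Lb.t (@Lb.fm (nat_lit 3) t259))))))))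
noncomputable def l474 : Lb := (@Lb.d (nat_lit 133) (nat_lit 582) (nat_lit 2) (@Lb.r r293 (@Lb.r r600 (@Lb.r r603 (@Lb.g g6 (@Lb.g g5 (@Lb.d (nat_lit 20) (nat_lit 22) (nat_lit 2) (@Lb.r r387 (@Lb.fp (nat_lit 3) t260)))))))))
noncomputable def l475 : Lb := (@Lb.r r323 (@Lb.d (nat_lit 0) (nat_lit 522) (nat_lit 6) (@Lb.g g5 (@Lb.g g10 (@Lb.r r387 (@Lb.d (nat_lit 0) (nat_lit 0) (nat_lit 137) (@Lb.fp (nat_lit 3) t5)))))))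
noncomputable def l476 : Lb := (@Lb.d (nat_lit 0) (nat_lit 256) (nat_lit 128) (@Lb.fp (nat_lit 1) t2))
noncomputable def l477 : Lb := (@Lb.d (nat_lit 0) (nat_lit 0) (nat_lit 136) (@Lb.g g7 (@Lb.d (nat_lit 0) (nat_lit 0) (nat_lit 68) (@Lb.t (@Lb.fm (nat_lit 3) t2)))))
noncomputable def l478 : Lb := (@Lb.r r82 (@Lb.d (nat_lit 0) (nat_lit 41) (nat_lit 64) (@Lb.g g9 (@Lb.g g11 (@Lb.r r1635 (@Lb.r r2454 (@Lb.r r1636 (@Lb.r r1557 (@Lb.d (nat_lit 392) (nat_lit 80) (nat_lit 576) (@Lb.fm (nat_lit 3) t261))))))))))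
noncomputable def l479 : Lb := (@Lb.d (nat_lit 2) (nat_lit 520) (nat_lit 130) (@Lb.g g8 (@Lb.g g9 (@Lb.g g10 (@Lb.g g11 (@Lb.r r387 (@Lb.r r418 (@Lb.r r36 (@Lb.r r149 (@Lb.r r36 (@Lb.d (nat_lit 528) (nat_lit 0) (nat_lit 145) (@Lb.fm (nat_lit 9) t262))))))))))))
noncomputable def l480 : Lb := (@Lb.d (nat_lit 0) (nat_lit 256) (nat_lit 130) (@Lb.g g10 (@Lb.g g11 (@Lb.r r419 (@Lb.r r386 (@Lb.r r101 (@Lb.r r24 (@Lb.d (nat_lit 98) (nat_lit 0) (nat_lit 9) (@Lb.fp (nat_lit 3) t263)))))))))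
noncomputable def l481 : Lb := (@Lb.d (nat_lit 32) (nat_lit 290) (nat_lit 130) (@Lb.g g9 (@Lb.g g10 (@Lb.g g11 (@Lb.r r1675 (@Lb.r r68 (@Lb.r r394 (@Lb.r r1173 (@Lb.d (nat_lit 384) (nat_lit 2) (nat_lit 169) (@Lb.t (@Lb.fm (nat_lit 9) t264)))))))))))
noncomputable def l482 : Lb := (@Lb.d (nat_lit 2) (nat_lit 1) (nat_lit 128) (@Lb.g g8 (@Lb.g g9 (@Lb.g g10 (@Lb.g g11 (@Lb.r r387 (@Lb.r r418 (@Lb.r r36 (@Lb.r r149 (@Lb.r r36 (@Lb.d (nat_lit 528) (nat_lit 0) (nat_lit 17) (@Lb.fm (nat_lit 9) t145))))))))))))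
noncomputable def l483 : Lb := (@Lb.d (nat_lit 8) (nat_lit 553) (nat_lit 65) (@Lb.g g9 (@Lb.g g10 (@Lb.g g11 (@Lb.r r1702 (@Lb.r r2392 (@Lb.r r1383 (@Lb.r r1365 (@Lb.d (nat_lit 341) (nat_lit 84) (nat_lit 406) (@Lb.t (@Lb.fm (nat_lit 9) t74)))))))))))
noncomputable def l484 : Lb := (@Lb.r r355 (@Lb.d (nat_lit 0) (nat_lit 74) (nat_lit 34) (@Lb.g g5 (@Lb.g g10 (@Lb.r r1555 (@Lb.d (nat_lit 0) (nat_lit 128) (nat_lit 18) (@Lb.fm (nat_lit 3) t265)))))))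
noncomputable def l485 : Lb := (@Lb.r r82 (@Lb.g g9 (@Lb.g g11 (@Lb.r r1634 (@Lb.r r1553 (@Lb.d (nat_lit 0) (nat_lit 0) (nat_lit 640) (@Lb.fm (nat_lit 3) t225)))))))
noncomputable def l486 : Lb := (@Lb.d (nat_lit 32) (nat_lit 256) (nat_lit 130) (@Lb.g g10 (@Lb.g g11 (@Lb.r r423 (@Lb.r r596 (@Lb.r r1433 (@Lb.r r1426 (@Lb.d (nat_lit 608) (nat_lit 90) (nat_lit 297) (@Lb.fp (nat_lit 3) t266)))))))))
noncomputable def l487 : Lb := (@Lb.d (nat_lit 2) (nat_lit 265) (nat_lit 73) (@Lb.g g8 (@Lb.g g9 (@Lb.g g10 (@Lb.g g11 (@Lb.r r1706 (@Lb.r r648 (@Lb.r r2587 (@Lb.r r1313 (@Lb.r r36 (@Lb.d (nat_lit 128) (nat_lit 164) (nat_lit 321) (@Lb.fp (nat_lit 9) t98))))))))))))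
noncomputable def l488 : Lb := (@Lb.r r82 (@Lb.d (nat_lit 0) (nat_lit 128) (nat_lit 128) (@Lb.g g9 (@Lb.g g11 (@Lb.r r419 (@Lb.r r98 (@Lb.d (nat_lit 0) (nat_lit 64) (nat_lit 137) (@Lb.fm (nat_lit 3) t8))))))))
noncomputable def l489 : Lb := (@Lb.d (nat_lit 0) (nat_lit 586) (nat_lit 138) (@Lb.r r82 (@Lb.g g9 (@Lb.d (nat_lit 0) (nat_lit 134) (nat_lit 0) (@Lb.r r98 (@Lb.t (@Lb.fp (nat_lit 3) t267)))))))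
noncomputable def l490 : Lb := (@Lb.r r82 (@Lb.d (nat_lit 0) (nat_lit 608) (nat_lit 136) (@Lb.g g9 (@Lb.g g11 (@Lb.r r98 (@Lb.d (nat_lit 0) (nat_lit 128) (nat_lit 2) (@Lb.fm (nat_lit 3) t267)))))))
noncomputable def l491 : Lb := (@Lb.r r82 (@Lb.d (nat_lit 5) (nat_lit 554) (nat_lit 64) (@Lb.g g4 (@Lb.g g9 (@Lb.g g11 (@Lb.r r615 (@Lb.r r402 (@Lb.r r601 (@Lb.d (nat_lit 133) (nat_lit 166) (nat_lit 136) (@Lb.t (@Lb.fp (nat_lit 9) t106)))))))))))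
noncomputable def l492 : Lb := (@Lb.d (nat_lit 130) (nat_lit 521) (nat_lit 0) (@Lb.g g8 (@Lb.g g9 (@Lb.r r394 (@Lb.r r2647 (@Lb.r r1313 (@Lb.r r152 (@Lb.d (nat_lit 26) (nat_lit 133) (nat_lit 385) (@Lb.fm (nat_lit 3) t71)))))))))
noncomputable def l493 : Lb := (@Lb.r r82 (@Lb.d (nat_lit 0) (nat_lit 585) (nat_lit 128) (@Lb.g g5 (@Lb.g g11 (@Lb.r r595 (@Lb.r r98 (@Lb.d (nat_lit 0) (nat_lit 133) (nat_lit 129) (@Lb.fm (nat_lit 3) t24))))))))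
noncomputable def l494 : Lb := (@Lb.d (nat_lit 0) (nat_lit 522) (nat_lit 74) (@Lb.g g5 (@Lb.g g10 (@Lb.g g11 (@Lb.r r578 (@Lb.r r579 (@Lb.d (nat_lit 0) (nat_lit 0) (nat_lit 74) (@Lb.t (@Lb.fm (nat_lit 9) t5)))))))))
noncomputable def l495 : Lb := (@Lb.r r280 (@Lb.r r1383 (@Lb.r r2178 (@Lb.r r1429 (@Lb.r r1572 (@Lb.d (nat_lit 2) (nat_lit 512) (nat_lit 16) (@Lb.fp (nat_lit 1) t229)))))))
noncomputable def l496 : Lb := (@Lb.r r280 (@Lb.r r1383 (@Lb.r r2178 (@Lb.r r1429 (@Lb.r r1572 (@Lb.d (nat_lit 1) (nat_lit 266) (nat_lit 18) (@Lb.fp (nat_lit 1) t268)))))))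
noncomputable def l497 : Lb := (@Lb.d (nat_lit 152) (nat_lit 8) (nat_lit 73) (@Lb.g g8 (@Lb.g g9 (@Lb.g g10 (@Lb.g g11 (@Lb.r r423 (@Lb.r r1681 (@Lb.r r1432 (@Lb.r r2202 (@Lb.d (nat_lit 169) (nat_lit 69) (nat_lit 81) (@Lb.fp (nat_lit 9) t269)))))))))))
noncomputable def l498 : Lb := (@Lb.d (nat_lit 153) (nat_lit 8) (nat_lit 130) (@Lb.g g8 (@Lb.g g9 (@Lb.g g10 (@Lb.g g11 (@Lb.r r603 (@Lb.r r1681 (@Lb.r r1364 (@Lb.r r2202 (@Lb.d (nat_lit 169) (nat_lit 161) (nat_lit 342) (@Lb.fp (nat_lit 9) t269)))))))))))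
noncomputable def l499 : Lb := (@Lb.r r21 (@Lb.d (nat_lit 128) (nat_lit 0) (nat_lit 130) (@Lb.g g8 (@Lb.g g10 (@Lb.g g11 (@Lb.r r1691 (@Lb.r r409 (@Lb.r r90 (@Lb.r r1348 (@Lb.d (nat_lit 521) (nat_lit 105) (nat_lit 274) (@Lb.t (@Lb.fp (nat_lit 9) t270))))))))))))
noncomputable def l500 : Lb := (@Lb.d (nat_lit 32) (nat_lit 520) (nat_lit 130) (@Lb.g g10 (@Lb.g g11 (@Lb.r r2711 (@Lb.r r1384 (@Lb.r r361 (@Lb.r r1622 (@Lb.d (nat_lit 404) (nat_lit 102) (nat_lit 130) (@Lb.fp (nat_lit 3) t271)))))))))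
noncomputable def l501 : Lb := (@Lb.d (nat_lit 2) (nat_lit 0) (nat_lit 130) (@Lb.g g8 (@Lb.g g10 (@Lb.g g11 (@Lb.r r2601 (@Lb.r r299 (@Lb.r r2148 (@Lb.r r1434 (@Lb.d (nat_lit 346) (nat_lit 90) (nat_lit 389) (@Lb.t (@Lb.fm (nat_lit 9) t272)))))))))))
noncomputable def l502 : Lb := (@Lb.d (nat_lit 2) (nat_lit 534) (nat_lit 73) (@Lb.g g8 (@Lb.g g9 (@Lb.g g10 (@Lb.g g11 (@Lb.r r423 (@Lb.r r1681 (@Lb.r r1432 (@Lb.r r1114 (@Lb.d (nat_lit 665) (nat_lit 137) (nat_lit 80) (@Lb.fm (nat_lit 9) t273)))))))))))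
noncomputable def l503 : Lb := (@Lb.d (nat_lit 0) (nat_lit 8) (nat_lit 130) (@Lb.g g8 (@Lb.g g9 (@Lb.g g10 (@Lb.g g11 (@Lb.r r419 (@Lb.r r1429 (@Lb.r r2148 (@Lb.r r154 (@Lb.d (nat_lit 89) (nat_lit 10) (nat_lit 353) (@Lb.fm (nat_lit 9) t274)))))))))))
noncomputable def l504 : Lb := (@Lb.r r90 (@Lb.r r283 (@Lb.d (nat_lit 6) (nat_lit 416) (nat_lit 0) (@Lb.g g8 (@Lb.g g9 (@Lb.r r1555 (@Lb.r r2630 (@Lb.r r2180 (@Lb.d (nat_lit 354) (nat_lit 2) (nat_lit 594) (@Lb.fp (nat_lit 3) t163))))))))))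
noncomputable def l505 : Lb := (@Lb.r r90 (@Lb.r r283 (@Lb.d (nat_lit 4) (nat_lit 416) (nat_lit 0) (@Lb.g g8 (@Lb.g g9 (@Lb.r r1555 (@Lb.r r70 (@Lb.r r1668 (@Lb.d (nat_lit 34) (nat_lit 2) (nat_lit 102) (@Lb.fp (nat_lit 3) t275))))))))))
noncomputable def l506 : Lb := (@Lb.r r322 (@Lb.d (nat_lit 105) (nat_lit 2) (nat_lit 264) (@Lb.g g8 (@Lb.g g9 (@Lb.g g11 (@Lb.r r170 (@Lb.r r2405 (@Lb.r r2452 (@Lb.d (nat_lit 41) (nat_lit 72) (nat_lit 26) (@Lb.t (@Lb.fm (nat_lit 9) t276)))))))))))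
noncomputable def l507 : Lb := (@Lb.r r275 (@Lb.d (nat_lit 0) (nat_lit 129) (nat_lit 0) (@Lb.g g5 (@Lb.g g10 (@Lb.r r291 (@Lb.d (nat_lit 0) (nat_lit 66) (nat_lit 0) (@Lb.fp (nat_lit 3) t256)))))))
noncomputable def l508 : Lb := (@Lb.d (nat_lit 0) (nat_lit 1) (nat_lit 128) (@Lb.g g9 (@Lb.g g10 (@Lb.g g11 (@Lb.r r2711 (@Lb.r r1637 (@Lb.r r356 (@Lb.r r154 (@Lb.d (nat_lit 24) (nat_lit 5) (nat_lit 17) (@Lb.t (@Lb.fp (nat_lit 9) t228)))))))))))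
noncomputable def l509 : Lb := (@Lb.d (nat_lit 0) (nat_lit 256) (nat_lit 130) (@Lb.g g9 (@Lb.g g10 (@Lb.g g11 (@Lb.r r1363 (@Lb.r r1362 (@Lb.r r101 (@Lb.r r24 (@Lb.d (nat_lit 593) (nat_lit 0) (nat_lit 601) (@Lb.t (@Lb.fm (nat_lit 9) t277)))))))))))
noncomputable def l510 : Lb := (@Lb.r r322 (@Lb.g g5 (@Lb.g g11 (@Lb.r r2727 (@Lb.r r1304 (@Lb.r r2149 (@Lb.r r146 (@Lb.d (nat_lit 546) (nat_lit 266) (nat_lit 33) (@Lb.fp (nat_lit 3) t228)))))))))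
noncomputable def l511 : Lb := (@Lb.d (nat_lit 150) (nat_lit 256) (nat_lit 128) (@Lb.g g8 (@Lb.g g9 (@Lb.g g10 (@Lb.g g11 (@Lb.r r1675 (@Lb.r r613 (@Lb.r r666 (@Lb.r r1540 (@Lb.d (nat_lit 522) (nat_lit 69) (nat_lit 400) (@Lb.fm (nat_lit 9) t278)))))))))))
noncomputable def l512 : Lb := (@Lb.d (nat_lit 0) (nat_lit 10) (nat_lit 2) (@Lb.g g5 (@Lb.g g10 (@Lb.g g11 (@Lb.r r387 (@Lb.d (nat_lit 0) (nat_lit 0) (nat_lit 137) (@Lb.t (@Lb.fp (nat_lit 9) t5))))))))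
noncomputable def l513 : Lb := (@Lb.d (nat_lit 0) (nat_lit 256) (nat_lit 66) (@Lb.g g10 (@Lb.g g7 (@Lb.r r386 (@Lb.d (nat_lit 0) (nat_lit 5) (nat_lit 10) (@Lb.fm (nat_lit 3) t45))))))
noncomputable def l514 : Lb := (@Lb.d (nat_lit 128) (nat_lit 552) (nat_lit 161) (@Lb.g g6 (@Lb.g g11 (@Lb.r r409 (@Lb.r r1304 (@Lb.r r2471 (@Lb.d (nat_lit 344) (nat_lit 102) (nat_lit 650) (@Lb.fm (nat_lit 3) t228))))))))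
noncomputable def l515 : Lb := (@Lb.r r609 (@Lb.r r363 (@Lb.r r356 (@Lb.r r154 (@Lb.d (nat_lit 34) (nat_lit 517) (nat_lit 32) (@Lb.fp (nat_lit 1) t39))))))
noncomputable def l516 : Lb := (@Lb.d (nat_lit 0) (nat_lit 256) (nat_lit 128) (@Lb.g g11 (@Lb.r r1602 (@Lb.r r579 (@Lb.r r1425 (@Lb.d (nat_lit 0) (nat_lit 0) (nat_lit 410) (@Lb.t (@Lb.fm (nat_lit 3) t279))))))))
noncomputable def l517 : Lb := (@Lb.d (nat_lit 32) (nat_lit 0) (nat_lit 130) (@Lb.g g10 (@Lb.g g11 (@Lb.r r423 (@Lb.r r600 (@Lb.r r1429 (@Lb.r r406 (@Lb.d (nat_lit 102) (nat_lit 26) (nat_lit 537) (@Lb.fm (nat_lit 3) t188)))))))))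
noncomputable def l518 : Lb := (@Lb.d (nat_lit 4) (nat_lit 10) (nat_lit 0) (@Lb.g g8 (@Lb.g g9 (@Lb.r r138 (@Lb.r r644 (@Lb.r r2583 (@Lb.r r1313 (@Lb.d (nat_lit 0) (nat_lit 74) (nat_lit 386) (@Lb.fp (nat_lit 3) t71)))))))))
noncomputable def l519 : Lb := (@Lb.d (nat_lit 0) (nat_lit 8) (nat_lit 9) (@Lb.g g10 (@Lb.r r579 (@Lb.r r2577 (@Lb.d (nat_lit 0) (nat_lit 162) (nat_lit 578) (@Lb.t (@Lb.fm (nat_lit 3) t280)))))))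
noncomputable def l520 : Lb := (@Lb.r r82 (@Lb.d (nat_lit 0) (nat_lit 329) (nat_lit 0) (@Lb.g g9 (@Lb.r r98 (@Lb.d (nat_lit 0) (nat_lit 133) (nat_lit 0) (@Lb.t (@Lb.fp (nat_lit 3) t267)))))))
noncomputable def l521 : Lb := (@Lb.d (nat_lit 2) (nat_lit 513) (nat_lit 0) (@Lb.g g8 (@Lb.g g9 (@Lb.r r134 (@Lb.r r328 (@Lb.r r423 (@Lb.r r401 (@Lb.d (nat_lit 0) (nat_lit 166) (nat_lit 137) (@Lb.fm (nat_lit 3) t71)))))))))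
noncomputable def l522 : Lb := (@Lb.d (nat_lit 0) (nat_lit 265) (nat_lit 66) (@Lb.g g8 (@Lb.g g9 (@Lb.g g10 (@Lb.g g7 (@Lb.r r84 (@Lb.r r426 (@Lb.r r1177 (@Lb.r r1156 (@Lb.d (nat_lit 266) (nat_lit 97) (nat_lit 256) (@Lb.fp (nat_lit 9) t281)))))))))))
noncomputable def l523 : Lb := (@Lb.d (nat_lit 2) (nat_lit 288) (nat_lit 4) (@Lb.g g8 (@Lb.g g10 (@Lb.g g11 (@Lb.r r2337 (@Lb.r r531 (@Lb.r r2154 (@Lb.r r2120 (@Lb.d (nat_lit 41) (nat_lit 33) (nat_lit 6) (@Lb.t (@Lb.fp (nat_lit 9) t282)))))))))))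
noncomputable def l524 : Lb := (@Lb.d (nat_lit 0) (nat_lit 0) (nat_lit 128) (@Lb.g g10 (@Lb.g g11 (@Lb.r r387 (@Lb.d (nat_lit 0) (nat_lit 0) (nat_lit 137) (@Lb.fm (nat_lit 3) t2))))))
noncomputable def l525 : Lb := (@Lb.g g6 (@Lb.r r579 (@Lb.r r2370 (@Lb.d (nat_lit 0) (nat_lit 256) (nat_lit 144) (@Lb.t (@Lb.fp (nat_lit 3) t2))))))
noncomputable def l526 : Lb := (@Lb.d (nat_lit 0) (nat_lit 256) (nat_lit 68) (@Lb.g g11 (@Lb.d (nat_lit 0) (nat_lit 0) (nat_lit 136) (@Lb.t (@Lb.fp (nat_lit 3) t2)))))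
noncomputable def l527 : Lb := (@Lb.d (nat_lit 0) (nat_lit 512) (nat_lit 69) (@Lb.fp (nat_lit 1) t2))
noncomputable def l528 : Lb := (@Lb.d (nat_lit 16) (nat_lit 2) (nat_lit 5) (@Lb.g g8 (@Lb.g g9 (@Lb.g g10 (@Lb.g g11 (@Lb.r r427 (@Lb.r r420 (@Lb.r r1126 (@Lb.r r21 (@Lb.r r36 (@Lb.d (nat_lit 521) (nat_lit 137) (nat_lit 530) (@Lb.fp (nat_lit 9) t283))))))))))))
noncomputable def l529 : Lb := (@Lb.r r323 (@Lb.d (nat_lit 137) (nat_lit 257) (nat_lit 0) (@Lb.g g8 (@Lb.g g9 (@Lb.g g10 (@Lb.r r674 (@Lb.r r391 (@Lb.r r145 (@Lb.r r612 (@Lb.d (nat_lit 149) (nat_lit 17) (nat_lit 136) (@Lb.t (@Lb.fp (nat_lit 9) t51))))))))))))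
noncomputable def l530 : Lb := (@Lb.d (nat_lit 6) (nat_lit 385) (nat_lit 1) (@Lb.r r603 (@Lb.r r2469 (@Lb.r r2154 (@Lb.r r72 (@Lb.g g7 (@Lb.g g6 (@Lb.g g5 (@Lb.d (nat_lit 80) (nat_lit 0) (nat_lit 65) (@Lb.t (@Lb.fm (nat_lit 9) t284)))))))))))
noncomputable def l531 : Lb := (@Lb.r r323 (@Lb.d (nat_lit 130) (nat_lit 514) (nat_lit 0) (@Lb.g g8 (@Lb.g g9 (@Lb.g g10 (@Lb.r r674 (@Lb.r r391 (@Lb.r r145 (@Lb.r r612 (@Lb.d (nat_lit 149) (nat_lit 22) (nat_lit 137) (@Lb.t (@Lb.fp (nat_lit 9) t51))))))))))))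
noncomputable def l532 : Lb := (@Lb.d (nat_lit 0) (nat_lit 261) (nat_lit 0) (@Lb.g g5 (@Lb.d (nat_lit 5) (nat_lit 1) (nat_lit 1) (@Lb.t (@Lb.fm (nat_lit 3) t285)))))
noncomputable def l533 : Lb := (@Lb.d (nat_lit 0) (nat_lit 0) (nat_lit 68) (@Lb.g g10 (@Lb.g g11 (@Lb.r r578 (@Lb.r r24 (@Lb.r r101 (@Lb.d (nat_lit 0) (nat_lit 133) (nat_lit 72) (@Lb.fm (nat_lit 3) t126))))))))
noncomputable def l534 : Lb := (@Lb.r r70 (@Lb.d (nat_lit 64) (nat_lit 514) (nat_lit 0) (@Lb.g g8 (@Lb.g g9 (@Lb.g g11 (@Lb.r r299 (@Lb.r r1602 (@Lb.r r97 (@Lb.r r2648 (@Lb.d (nat_lit 361) (nat_lit 166) (nat_lit 546) (@Lb.t (@Lb.fm (nat_lit 9) t50))))))))))))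
noncomputable def l535 : Lb := (@Lb.r r323 (@Lb.d (nat_lit 1) (nat_lit 322) (nat_lit 0) (@Lb.g g4 (@Lb.g g9 (@Lb.g g10 (@Lb.r r419 (@Lb.r r98 (@Lb.d (nat_lit 0) (nat_lit 9) (nat_lit 2) (@Lb.t (@Lb.fp (nat_lit 9) t51))))))))))
noncomputable def l536 : Lb := (@Lb.d (nat_lit 0) (nat_lit 520) (nat_lit 2) (@Lb.g g10 (@Lb.g g11 (@Lb.r r387 (@Lb.d (nat_lit 0) (nat_lit 2) (nat_lit 2) (@Lb.fm (nat_lit 3) t51))))))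
noncomputable def l537 : Lb := (@Lb.r r323 (@Lb.d (nat_lit 36) (nat_lit 4) (nat_lit 1) (@Lb.g g8 (@Lb.g g9 (@Lb.g g10 (@Lb.r r2705 (@Lb.r r339 (@Lb.r r2698 (@Lb.r r2180 (@Lb.d (nat_lit 98) (nat_lit 0) (nat_lit 402) (@Lb.t (@Lb.fp (nat_lit 9) t168))))))))))))
noncomputable def l538 : Lb := (@Lb.r r82 (@Lb.r r275 (@Lb.d (nat_lit 0) (nat_lit 1) (nat_lit 0) (@Lb.g g5 (@Lb.r r291 (@Lb.r r98 (@Lb.d (nat_lit 0) (nat_lit 2) (nat_lit 0) (@Lb.t (@Lb.fm (nat_lit 3) t286)))))))))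
noncomputable def l539 : Lb := (@Lb.d (nat_lit 136) (nat_lit 258) (nat_lit 128) (@Lb.g g9 (@Lb.g g11 (@Lb.r r24 (@Lb.r r1365 (@Lb.r r2723 (@Lb.r r2178 (@Lb.d (nat_lit 402) (nat_lit 152) (nat_lit 130) (@Lb.fp (nat_lit 3) t287)))))))))
noncomputable def l540 : Lb := (@Lb.d (nat_lit 0) (nat_lit 258) (nat_lit 0) (@Lb.g g9 (@Lb.r r2339 (@Lb.r r2469 (@Lb.r r2150 (@Lb.r r24 (@Lb.d (nat_lit 577) (nat_lit 0) (nat_lit 420) (@Lb.t (@Lb.fp (nat_lit 3) t288)))))))))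
noncomputable def l541 : Lb := (@Lb.d (nat_lit 8) (nat_lit 546) (nat_lit 0) (@Lb.g g9 (@Lb.r r536 (@Lb.r r283 (@Lb.r r2178 (@Lb.r r2597 (@Lb.d (nat_lit 154) (nat_lit 82) (nat_lit 293) (@Lb.t (@Lb.fm (nat_lit 3) t287)))))))))
noncomputable def l542 : Lb := (@Lb.d (nat_lit 0) (nat_lit 514) (nat_lit 0) (@Lb.g g9 (@Lb.g g10 (@Lb.g g11 (@Lb.r r679 (@Lb.r r1685 (@Lb.r r2404 (@Lb.r r1178 (@Lb.d (nat_lit 537) (nat_lit 137) (nat_lit 18) (@Lb.t (@Lb.fm (nat_lit 9) t66)))))))))))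
noncomputable def l543 : Lb := (@Lb.d (nat_lit 0) (nat_lit 258) (nat_lit 128) (@Lb.g g9 (@Lb.g g11 (@Lb.r r2467 (@Lb.r r2469 (@Lb.r r2150 (@Lb.r r24 (@Lb.d (nat_lit 98) (nat_lit 5) (nat_lit 421) (@Lb.fm (nat_lit 3) t289)))))))))
noncomputable def l544 : Lb := (@Lb.r r2451 (@Lb.r r1186 (@Lb.r r2209 (@Lb.d (nat_lit 0) (nat_lit 70) (nat_lit 0) (@Lb.fp (nat_lit 1) t290)))))
noncomputable def l545 : Lb := (@Lb.r r101 (@Lb.r r24 (@Lb.d (nat_lit 34) (nat_lit 0) (nat_lit 0) (@Lb.fp (nat_lit 1) t40))))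
noncomputable def l546 : Lb := (@Lb.r r323 (@Lb.g g5 (@Lb.g g10 (@Lb.r r1315 (@Lb.r r593 (@Lb.r r1378 (@Lb.d (nat_lit 0) (nat_lit 546) (nat_lit 352) (@Lb.fp (nat_lit 3) t20))))))))
noncomputable def l547 : Lb := (@Lb.d (nat_lit 0) (nat_lit 266) (nat_lit 73) (@Lb.g g5 (@Lb.g g10 (@Lb.g g11 (@Lb.r r2626 (@Lb.r r579 (@Lb.d (nat_lit 0) (nat_lit 0) (nat_lit 586) (@Lb.t (@Lb.fm (nat_lit 9) t5)))))))))
noncomputable def l548 : Lb := (@Lb.d (nat_lit 0) (nat_lit 10) (nat_lit 0) (@Lb.g g5 (@Lb.d (nat_lit 0) (nat_lit 5) (nat_lit 0) (@Lb.t (@Lb.fm (nat_lit 3) t291)))))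
noncomputable def l549 : Lb := (@Lb.d (nat_lit 2) (nat_lit 521) (nat_lit 130) (@Lb.g g8 (@Lb.g g9 (@Lb.g g10 (@Lb.g g11 (@Lb.r r1706 (@Lb.r r648 (@Lb.r r2587 (@Lb.r r1313 (@Lb.r r36 (@Lb.d (nat_lit 129) (nat_lit 164) (nat_lit 321) (@Lb.fp (nat_lit 9) t98))))))))))))
noncomputable def l550 : Lb := (@Lb.d (nat_lit 0) (nat_lit 598) (nat_lit 73) (@Lb.g g5 (@Lb.g g10 (@Lb.g g11 (@Lb.r r2339 (@Lb.r r594 (@Lb.d (nat_lit 0) (nat_lit 21) (nat_lit 656) (@Lb.t (@Lb.fp (nat_lit 9) t292)))))))))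
noncomputable def l551 : Lb := (@Lb.r r82 (@Lb.d (nat_lit 0) (nat_lit 256) (nat_lit 128) (@Lb.g g9 (@Lb.g g11 (@Lb.r r1634 (@Lb.r r1553 (@Lb.d (nat_lit 0) (nat_lit 0) (nat_lit 640) (@Lb.fm (nat_lit 3) t225))))))))
noncomputable def l552 : Lb := (@Lb.r r2209 (@Lb.r r323 (@Lb.r r1698 (@Lb.g g10 (@Lb.g g5 (@Lb.d (nat_lit 0) (nat_lit 554) (nat_lit 9) (@Lb.r r387 (@Lb.fp (nat_lit 3) t293))))))))
noncomputable def l553 : Lb := (@Lb.d (nat_lit 2) (nat_lit 272) (nat_lit 66) (@Lb.g g8 (@Lb.g g9 (@Lb.g g10 (@Lb.g g11 (@Lb.r r1706 (@Lb.r r1704 (@Lb.r r1579 (@Lb.r r549 (@Lb.d (nat_lit 645) (nat_lit 146) (nat_lit 74) (@Lb.fp (nat_lit 9) t144)))))))))))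
noncomputable def l554 : Lb := (@Lb.d (nat_lit 32) (nat_lit 288) (nat_lit 2) (@Lb.g g9 (@Lb.g g10 (@Lb.g g11 (@Lb.r r1675 (@Lb.r r72 (@Lb.r r390 (@Lb.r r89 (@Lb.d (nat_lit 88) (nat_lit 74) (nat_lit 170) (@Lb.t (@Lb.fp (nat_lit 9) t144)))))))))))
noncomputable def l555 : Lb := (@Lb.d (nat_lit 0) (nat_lit 586) (nat_lit 578) (@Lb.r r2451 (@Lb.r r402 (@Lb.g g7 (@Lb.g g6 (@Lb.g g5 (@Lb.d (nat_lit 0) (nat_lit 0) (nat_lit 5) (@Lb.t (@Lb.fm (nat_lit 9) t294)))))))))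
noncomputable def l556 : Lb := (@Lb.d (nat_lit 0) (nat_lit 0) (nat_lit 133) (@Lb.g g10 (@Lb.g g11 (@Lb.r r643 (@Lb.r r642 (@Lb.d (nat_lit 0) (nat_lit 0) (nat_lit 128) (@Lb.fm (nat_lit 3) t2)))))))
noncomputable def l557 : Lb := (@Lb.r r323 (@Lb.d (nat_lit 0) (nat_lit 256) (nat_lit 41) (@Lb.g g10 (@Lb.r r387 (@Lb.d (nat_lit 0) (nat_lit 0) (nat_lit 21) (@Lb.t (@Lb.fp (nat_lit 3) t2)))))))
noncomputable def l558 : Lb := (@Lb.d (nat_lit 0) (nat_lit 582) (nat_lit 2) (@Lb.r r2403 (@Lb.g g6 (@Lb.d (nat_lit 0) (nat_lit 8) (nat_lit 2) (@Lb.t (@Lb.fm (nat_lit 3) t295))))))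
noncomputable def l559 : Lb := (@Lb.r r323 (@Lb.d (nat_lit 2) (nat_lit 2) (nat_lit 0) (@Lb.g g8 (@Lb.g g9 (@Lb.g g10 (@Lb.r r427 (@Lb.r r1177 (@Lb.r r146 (@Lb.d (nat_lit 545) (nat_lit 0) (nat_lit 18) (@Lb.t (@Lb.fp (nat_lit 9) t296)))))))))))
noncomputable def l560 : Lb := (@Lb.r r81 (@Lb.d (nat_lit 128) (nat_lit 264) (nat_lit 162) (@Lb.g g6 (@Lb.g g11 (@Lb.r r297 (@Lb.r r292 (@Lb.r r411 (@Lb.d (nat_lit 401) (nat_lit 80) (nat_lit 169) (@Lb.fm (nat_lit 3) t297)))))))))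
noncomputable def l561 : Lb := (@Lb.d (nat_lit 0) (nat_lit 514) (nat_lit 0) (@Lb.g g9 (@Lb.g g10 (@Lb.r r1543 (@Lb.r r1685 (@Lb.r r2404 (@Lb.r r1178 (@Lb.d (nat_lit 537) (nat_lit 2) (nat_lit 0) (@Lb.fm (nat_lit 3) t222)))))))))
noncomputable def l562 : Lb := (@Lb.d (nat_lit 136) (nat_lit 2) (nat_lit 130) (@Lb.g g9 (@Lb.g g10 (@Lb.g g11 (@Lb.r r618 (@Lb.r r24 (@Lb.r r405 (@Lb.r r611 (@Lb.d (nat_lit 137) (nat_lit 18) (nat_lit 130) (@Lb.t (@Lb.fm (nat_lit 9) t298)))))))))))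
noncomputable def l563 : Lb := (@Lb.r r82 (@Lb.r r275 (@Lb.d (nat_lit 2) (nat_lit 649) (nat_lit 0) (@Lb.g g8 (@Lb.g g5 (@Lb.r r291 (@Lb.r r98 (@Lb.r r1096 (@Lb.d (nat_lit 546) (nat_lit 69) (nat_lit 0) (@Lb.fm (nat_lit 3) t299))))))))))
noncomputable def l564 : Lb := (@Lb.r r82 (@Lb.r r275 (@Lb.d (nat_lit 2) (nat_lit 513) (nat_lit 0) (@Lb.g g8 (@Lb.g g5 (@Lb.r r291 (@Lb.r r98 (@Lb.r r24 (@Lb.d (nat_lit 10) (nat_lit 2) (nat_lit 0) (@Lb.fm (nat_lit 3) t68))))))))))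
noncomputable def l565 : Lb := (@Lb.r r97 (@Lb.r r2130 (@Lb.r r145 (@Lb.d (nat_lit 0) (nat_lit 266) (nat_lit 2) (@Lb.fm (nat_lit 1) t300)))))
noncomputable def l566 : Lb := (@Lb.d (nat_lit 2) (nat_lit 2) (nat_lit 2) (@Lb.g g8 (@Lb.g g9 (@Lb.g g10 (@Lb.g g11 (@Lb.r r1699 (@Lb.r r2705 (@Lb.r r612 (@Lb.r r666 (@Lb.r r1156 (@Lb.d (nat_lit 329) (nat_lit 33) (nat_lit 74) (@Lb.fp (nat_lit 9) t178))))))))))))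
noncomputable def l567 : Lb := (@Lb.d (nat_lit 2) (nat_lit 9) (nat_lit 2) (@Lb.g g8 (@Lb.g g9 (@Lb.g g10 (@Lb.r r1671 (@Lb.r r297 (@Lb.r r2376 (@Lb.r r1638 (@Lb.d (nat_lit 409) (nat_lit 24) (nat_lit 596) (@Lb.t (@Lb.fp (nat_lit 9) t301)))))))))))
noncomputable def l568 : Lb := (@Lb.d (nat_lit 0) (nat_lit 289) (nat_lit 130) (@Lb.g g8 (@Lb.g g9 (@Lb.g g10 (@Lb.g g11 (@Lb.r r387 (@Lb.r r386 (@Lb.r r612 (@Lb.r r533 (@Lb.r r1060 (@Lb.d (nat_lit 418) (nat_lit 0) (nat_lit 641) (@Lb.fm (nat_lit 9) t35))))))))))))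
noncomputable def l569 : Lb := (@Lb.d (nat_lit 0) (nat_lit 289) (nat_lit 130) (@Lb.g g9 (@Lb.g g10 (@Lb.g g11 (@Lb.r r387 (@Lb.r r386 (@Lb.r r1561 (@Lb.r r24 (@Lb.d (nat_lit 674) (nat_lit 0) (nat_lit 673) (@Lb.t (@Lb.fm (nat_lit 9) t302)))))))))))
noncomputable def l570 : Lb := (@Lb.d (nat_lit 2) (nat_lit 261) (nat_lit 128) (@Lb.g g8 (@Lb.g g9 (@Lb.g g11 (@Lb.r r2450 (@Lb.r r2387 (@Lb.r r2705 (@Lb.r r24 (@Lb.d (nat_lit 10) (nat_lit 8) (nat_lit 662) (@Lb.t (@Lb.fm (nat_lit 9) t303)))))))))))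
noncomputable def l571 : Lb := (@Lb.d (nat_lit 390) (nat_lit 401) (nat_lit 609) (@Lb.r r2325 (@Lb.r r2390 (@Lb.r r683 (@Lb.g g7 (@Lb.g g6 (@Lb.g g5 (@Lb.g g4 (@Lb.d (nat_lit 1) (nat_lit 18) (nat_lit 65) (@Lb.fm (nat_lit 9) t304))))))))))
noncomputable def l572 : Lb := (@Lb.d (nat_lit 32) (nat_lit 256) (nat_lit 130) (@Lb.g g10 (@Lb.g g11 (@Lb.r r545 (@Lb.r r299 (@Lb.r r100 (@Lb.r r410 (@Lb.d (nat_lit 128) (nat_lit 24) (nat_lit 168) (@Lb.fm (nat_lit 3) t167)))))))))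
noncomputable def l573 : Lb := (@Lb.d (nat_lit 0) (nat_lit 256) (nat_lit 130) (@Lb.g g10 (@Lb.g g11 (@Lb.r r419 (@Lb.r r386 (@Lb.d (nat_lit 0) (nat_lit 98) (nat_lit 18) (@Lb.fp (nat_lit 3) t305)))))))
noncomputable def l574 : Lb := (@Lb.d (nat_lit 0) (nat_lit 26) (nat_lit 598) (@Lb.r r1362 (@Lb.r r2691 (@Lb.g g7 (@Lb.g g6 (@Lb.g g5 (@Lb.d (nat_lit 0) (nat_lit 5) (nat_lit 132) (@Lb.t (@Lb.fm (nat_lit 9) t306)))))))))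
noncomputable def l575 : Lb := (@Lb.g g6 (@Lb.t (@Lb.fm (nat_lit 3) t2)))
noncomputable def l576 : Lb := (@Lb.d (nat_lit 136) (nat_lit 0) (nat_lit 128) (@Lb.g g9 (@Lb.g g11 (@Lb.r r152 (@Lb.r r1429 (@Lb.r r291 (@Lb.r r2178 (@Lb.d (nat_lit 96) (nat_lit 160) (nat_lit 582) (@Lb.fm (nat_lit 3) t307)))))))))
noncomputable def l577 : Lb := (@Lb.d (nat_lit 0) (nat_lit 260) (nat_lit 1) (@Lb.g g6 (@Lb.d (nat_lit 0) (nat_lit 6) (nat_lit 1) (@Lb.t (@Lb.fm (nat_lit 3) t44)))))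
noncomputable def l578 : Lb := (@Lb.d (nat_lit 0) (nat_lit 517) (nat_lit 34) (@Lb.r r1105 (@Lb.r r1363 (@Lb.g g6 (@Lb.g g5 (@Lb.r r291 (@Lb.fm (nat_lit 3) t308)))))))
noncomputable def l579 : Lb := (@Lb.d (nat_lit 0) (nat_lit 80) (nat_lit 2) (@Lb.g g5 (@Lb.g g10 (@Lb.g g11 (@Lb.r r2595 (@Lb.r r386 (@Lb.d (nat_lit 0) (nat_lit 20) (nat_lit 330) (@Lb.t (@Lb.fp (nat_lit 9) t7)))))))))
noncomputable def l580 : Lb := (@Lb.d (nat_lit 390) (nat_lit 662) (nat_lit 610) (@Lb.r r2325 (@Lb.r r2390 (@Lb.r r683 (@Lb.g g7 (@Lb.g g6 (@Lb.g g5 (@Lb.g g4 (@Lb.d (nat_lit 1) (nat_lit 25) (nat_lit 10) (@Lb.fm (nat_lit 9) t309))))))))))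
noncomputable def l581 : Lb := (@Lb.d (nat_lit 32) (nat_lit 256) (nat_lit 130) (@Lb.g g9 (@Lb.g g10 (@Lb.g g11 (@Lb.r r545 (@Lb.r r299 (@Lb.r r72 (@Lb.r r390 (@Lb.d (nat_lit 73) (nat_lit 138) (nat_lit 168) (@Lb.t (@Lb.fp (nat_lit 9) t126)))))))))))
noncomputable def l582 : Lb := (@Lb.d (nat_lit 32) (nat_lit 0) (nat_lit 130) (@Lb.g g9 (@Lb.g g10 (@Lb.g g11 (@Lb.r r545 (@Lb.r r299 (@Lb.r r100 (@Lb.r r410 (@Lb.d (nat_lit 138) (nat_lit 26) (nat_lit 168) (@Lb.t (@Lb.fm (nat_lit 9) t167)))))))))))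
noncomputable def l583 : Lb := (@Lb.d (nat_lit 24) (nat_lit 9) (nat_lit 0) (@Lb.r r24 (@Lb.r r146 (@Lb.r r357 (@Lb.r r659 (@Lb.g g6 (@Lb.d (nat_lit 0) (nat_lit 0) (nat_lit 1) (@Lb.t (@Lb.fm (nat_lit 3) t310)))))))))
noncomputable def l584 : Lb := (@Lb.d (nat_lit 134) (nat_lit 69) (nat_lit 84) (@Lb.r r390 (@Lb.r r72 (@Lb.r r279 (@Lb.r r545 (@Lb.g g7 (@Lb.g g6 (@Lb.g g5 (@Lb.d (nat_lit 16) (nat_lit 0) (nat_lit 65) (@Lb.t (@Lb.fm (nat_lit 9) t69)))))))))))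
noncomputable def l585 : Lb := (@Lb.d (nat_lit 4) (nat_lit 261) (nat_lit 18) (@Lb.r r154 (@Lb.r r660 (@Lb.r r279 (@Lb.r r545 (@Lb.g g7 (@Lb.d (nat_lit 0) (nat_lit 0) (nat_lit 64) (@Lb.t (@Lb.fm (nat_lit 3) t71)))))))))
noncomputable def l586 : Lb := (@Lb.d (nat_lit 138) (nat_lit 593) (nat_lit 82) (@Lb.r r283 (@Lb.r r408 (@Lb.r r597 (@Lb.g g7 (@Lb.g g10 (@Lb.d (nat_lit 64) (nat_lit 16) (nat_lit 65) (@Lb.r r145 (@Lb.fm (nat_lit 3) t311)))))))))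
noncomputable def l587 : Lb := (@Lb.d (nat_lit 34) (nat_lit 585) (nat_lit 18) (@Lb.r r154 (@Lb.r r660 (@Lb.r r279 (@Lb.r r673 (@Lb.g g7 (@Lb.g g6 (@Lb.g g5 (@Lb.d (nat_lit 0) (nat_lit 1) (nat_lit 64) (@Lb.t (@Lb.fp (nat_lit 9) t311)))))))))))
noncomputable def l588 : Lb := (@Lb.r r154 (@Lb.r r664 (@Lb.r r411 (@Lb.r r533 (@Lb.r r36 (@Lb.d (nat_lit 144) (nat_lit 0) (nat_lit 129) (@Lb.fp (nat_lit 1) t145)))))))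
noncomputable def l589 : Lb := (@Lb.d (nat_lit 24) (nat_lit 514) (nat_lit 1) (@Lb.r r24 (@Lb.r r146 (@Lb.r r357 (@Lb.r r659 (@Lb.g g6 (@Lb.d (nat_lit 0) (nat_lit 0) (nat_lit 1) (@Lb.t (@Lb.fm (nat_lit 3) t312)))))))))
noncomputable def l590 : Lb := (@Lb.d (nat_lit 0) (nat_lit 264) (nat_lit 2) (@Lb.g g10 (@Lb.r r1427 (@Lb.r r101 (@Lb.r r24 (@Lb.d (nat_lit 289) (nat_lit 0) (nat_lit 34) (@Lb.t (@Lb.fp (nat_lit 3) t313))))))))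
noncomputable def l591 : Lb := (@Lb.r r323 (@Lb.d (nat_lit 0) (nat_lit 256) (nat_lit 1) (@Lb.g g9 (@Lb.g g6 (@Lb.r r2339 (@Lb.r r101 (@Lb.r r24 (@Lb.d (nat_lit 290) (nat_lit 0) (nat_lit 66) (@Lb.fp (nat_lit 3) t314)))))))))
noncomputable def l592 : Lb := (@Lb.d (nat_lit 0) (nat_lit 514) (nat_lit 128) (@Lb.g g9 (@Lb.g g10 (@Lb.g g11 (@Lb.r r673 (@Lb.r r299 (@Lb.r r356 (@Lb.r r154 (@Lb.d (nat_lit 17) (nat_lit 134) (nat_lit 33) (@Lb.t (@Lb.fm (nat_lit 9) t232)))))))))))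
noncomputable def l593 : Lb := (@Lb.r r81 (@Lb.d (nat_lit 128) (nat_lit 32) (nat_lit 130) (@Lb.g g6 (@Lb.g g11 (@Lb.r r409 (@Lb.r r408 (@Lb.r r295 (@Lb.d (nat_lit 70) (nat_lit 162) (nat_lit 161) (@Lb.fm (nat_lit 3) t315)))))))))
noncomputable def l594 : Lb := (@Lb.r r275 (@Lb.d (nat_lit 0) (nat_lit 385) (nat_lit 0) (@Lb.g g9 (@Lb.r r291 (@Lb.d (nat_lit 0) (nat_lit 66) (nat_lit 0) (@Lb.t (@Lb.fp (nat_lit 3) t316)))))))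
noncomputable def l595 : Lb := (@Lb.d (nat_lit 0) (nat_lit 0) (nat_lit 130) (@Lb.g g9 (@Lb.g g10 (@Lb.g g11 (@Lb.r r642 (@Lb.r r387 (@Lb.d (nat_lit 0) (nat_lit 80) (nat_lit 361) (@Lb.t (@Lb.fp (nat_lit 9) t210)))))))))
noncomputable def l596 : Lb := (@Lb.d (nat_lit 0) (nat_lit 0) (nat_lit 161) (@Lb.g g9 (@Lb.g g6 (@Lb.g g11 (@Lb.r r579 (@Lb.r r1317 (@Lb.r r24 (@Lb.d (nat_lit 34) (nat_lit 0) (nat_lit 618) (@Lb.t (@Lb.fm (nat_lit 9) t317))))))))))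
noncomputable def l597 : Lb := (@Lb.d (nat_lit 0) (nat_lit 330) (nat_lit 0) (@Lb.r r101 (@Lb.r r24 (@Lb.g g6 (@Lb.t (@Lb.fm (nat_lit 3) t318))))))
noncomputable def l598 : Lb := (@Lb.d (nat_lit 0) (nat_lit 256) (nat_lit 136) (@Lb.g g11 (@Lb.r r101 (@Lb.r r24 (@Lb.d (nat_lit 514) (nat_lit 0) (nat_lit 144) (@Lb.t (@Lb.fp (nat_lit 3) t319)))))))
noncomputable def l599 : Lb := (@Lb.d (nat_lit 0) (nat_lit 330) (nat_lit 0) (@Lb.r r101 (@Lb.r r24 (@Lb.g g11 (@Lb.g g6 (@Lb.fp (nat_lit 3) t318))))))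
noncomputable def l600 : Lb := (@Lb.d (nat_lit 0) (nat_lit 74) (nat_lit 64) (@Lb.r r101 (@Lb.r r24 (@Lb.g g6 (@Lb.d (nat_lit 0) (nat_lit 0) (nat_lit 5) (@Lb.t (@Lb.fm (nat_lit 3) t320)))))))
noncomputable def l601 : Lb := (@Lb.g g5 (@Lb.d (nat_lit 5) (nat_lit 513) (nat_lit 0) (@Lb.t (@Lb.fm (nat_lit 3) t2))))
noncomputable def l602 : Lb := (@Lb.r r21 (@Lb.r r323 (@Lb.d (nat_lit 130) (nat_lit 8) (nat_lit 2) (@Lb.g g8 (@Lb.g g10 (@Lb.r r295 (@Lb.r r97 (@Lb.r r402 (@Lb.r r152 (@Lb.d (nat_lit 21) (nat_lit 86) (nat_lit 136) (@Lb.fp (nat_lit 3) t2)))))))))))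
noncomputable def l603 : Lb := (@Lb.r r323 (@Lb.d (nat_lit 16) (nat_lit 0) (nat_lit 34) (@Lb.g g6 (@Lb.r r584 (@Lb.r r299 (@Lb.r r289 (@Lb.d (nat_lit 2) (nat_lit 1) (nat_lit 1) (@Lb.t (@Lb.fm (nat_lit 3) t51)))))))))
noncomputable def l604 : Lb := (@Lb.r r21 (@Lb.r r323 (@Lb.d (nat_lit 130) (nat_lit 264) (nat_lit 2) (@Lb.g g8 (@Lb.g g10 (@Lb.r r295 (@Lb.r r97 (@Lb.r r402 (@Lb.r r152 (@Lb.d (nat_lit 26) (nat_lit 84) (nat_lit 8) (@Lb.fp (nat_lit 3) t2)))))))))))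
noncomputable def l605 : Lb := (@Lb.r r21 (@Lb.r r323 (@Lb.d (nat_lit 6) (nat_lit 256) (nat_lit 0) (@Lb.g g8 (@Lb.g g10 (@Lb.r r427 (@Lb.r r106 (@Lb.r r25 (@Lb.d (nat_lit 0) (nat_lit 73) (nat_lit 2) (@Lb.fm (nat_lit 3) t51))))))))))
noncomputable def l606 : Lb := (@Lb.d (nat_lit 2) (nat_lit 258) (nat_lit 2) (@Lb.g g8 (@Lb.g g9 (@Lb.g g10 (@Lb.g g11 (@Lb.r r427 (@Lb.r r106 (@Lb.r r25 (@Lb.d (nat_lit 2) (nat_lit 73) (nat_lit 2) (@Lb.fp (nat_lit 9) t51))))))))))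
noncomputable def l607 : Lb := (@Lb.r r323 (@Lb.d (nat_lit 2) (nat_lit 2) (nat_lit 0) (@Lb.g g8 (@Lb.g g9 (@Lb.g g10 (@Lb.r r427 (@Lb.r r106 (@Lb.r r25 (@Lb.d (nat_lit 2) (nat_lit 66) (nat_lit 0) (@Lb.t (@Lb.fm (nat_lit 9) t51)))))))))))
noncomputable def l608 : Lb := (@Lb.g g8 (@Lb.d (nat_lit 0) (nat_lit 0) (nat_lit 64) (@Lb.t (@Lb.fp (nat_lit 3) t2))))
noncomputable def l609 : Lb := (@Lb.d (nat_lit 0) (nat_lit 512) (nat_lit 64) (@Lb.g g7 (@Lb.r r134 (@Lb.r r328 (@Lb.r r535 (@Lb.r r289 (@Lb.t (@Lb.fm (nat_lit 3) t51))))))))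
noncomputable def l610 : Lb := (@Lb.d (nat_lit 0) (nat_lit 256) (nat_lit 130) (@Lb.g g10 (@Lb.g g11 (@Lb.r r586 (@Lb.r r584 (@Lb.r r299 (@Lb.r r289 (@Lb.d (nat_lit 9) (nat_lit 1) (nat_lit 0) (@Lb.fm (nat_lit 3) t51)))))))))
noncomputable def l611 : Lb := (@Lb.r r323 (@Lb.d (nat_lit 130) (nat_lit 546) (nat_lit 0) (@Lb.g g8 (@Lb.g g9 (@Lb.g g10 (@Lb.r r275 (@Lb.r r657 (@Lb.r r410 (@Lb.r r408 (@Lb.d (nat_lit 20) (nat_lit 9) (nat_lit 74) (@Lb.t (@Lb.fm (nat_lit 9) t2))))))))))))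
noncomputable def l612 : Lb := (@Lb.d (nat_lit 10) (nat_lit 512) (nat_lit 0) (@Lb.r r82 (@Lb.r r275 (@Lb.g g9 (@Lb.d (nat_lit 0) (nat_lit 2) (nat_lit 0) (@Lb.r r291 (@Lb.r r98 (@Lb.t (@Lb.fp (nat_lit 3) t5)))))))))
noncomputable def l613 : Lb := (@Lb.r r289 (@Lb.r r420 (@Lb.r r603 (@Lb.r r390 (@Lb.r r516 (@Lb.d (nat_lit 0) (nat_lit 0) (nat_lit 16) (@Lb.fm (nat_lit 1) t40)))))))
noncomputable def l614 : Lb := (@Lb.d (nat_lit 6) (nat_lit 274) (nat_lit 133) (@Lb.r r21 (@Lb.r r579 (@Lb.r r342 (@Lb.g g7 (@Lb.g g6 (@Lb.g g5 (@Lb.g g4 (@Lb.d (nat_lit 1) (nat_lit 1) (nat_lit 133) (@Lb.fm (nat_lit 9) t40))))))))))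
noncomputable def l615 : Lb := (@Lb.r r323 (@Lb.d (nat_lit 2) (nat_lit 514) (nat_lit 1) (@Lb.g g8 (@Lb.g g9 (@Lb.g g6 (@Lb.r r387 (@Lb.r r97 (@Lb.r r24 (@Lb.d (nat_lit 10) (nat_lit 9) (nat_lit 66) (@Lb.t (@Lb.fp (nat_lit 9) t40)))))))))))
noncomputable def l616 : Lb := (@Lb.d (nat_lit 2) (nat_lit 516) (nat_lit 105) (@Lb.g g8 (@Lb.g g9 (@Lb.g g6 (@Lb.g g11 (@Lb.r r579 (@Lb.r r1313 (@Lb.r r24 (@Lb.d (nat_lit 10) (nat_lit 161) (nat_lit 154) (@Lb.fp (nat_lit 9) t41))))))))))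
noncomputable def l617 : Lb := (@Lb.r r21 (@Lb.r r70 (@Lb.r r263 (@Lb.g g8 (@Lb.r r267 (@Lb.r r74 (@Lb.r r25 (@Lb.d (nat_lit 2) (nat_lit 512) (nat_lit 0) (@Lb.t (@Lb.fp (nat_lit 3) t321))))))))))
noncomputable def l618 : Lb := (@Lb.d (nat_lit 32) (nat_lit 0) (nat_lit 74) (@Lb.g g10 (@Lb.g g11 (@Lb.r r2711 (@Lb.r r1384 (@Lb.r r2406 (@Lb.r r289 (@Lb.d (nat_lit 533) (nat_lit 134) (nat_lit 34) (@Lb.fp (nat_lit 3) t51)))))))))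
noncomputable def l619 : Lb := (@Lb.d (nat_lit 0) (nat_lit 0) (nat_lit 2) (@Lb.g g10 (@Lb.g g7 (@Lb.r r386 (@Lb.d (nat_lit 0) (nat_lit 0) (nat_lit 9) (@Lb.fm (nat_lit 3) t2))))))
noncomputable def l620 : Lb := (@Lb.d (nat_lit 32) (nat_lit 256) (nat_lit 128) (@Lb.g g10 (@Lb.g g11 (@Lb.r r2711 (@Lb.r r1384 (@Lb.r r2406 (@Lb.r r289 (@Lb.d (nat_lit 534) (nat_lit 134) (nat_lit 34) (@Lb.fp (nat_lit 3) t51)))))))))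
noncomputable def l621 : Lb := (@Lb.r r21 (@Lb.d (nat_lit 6) (nat_lit 0) (nat_lit 0) (@Lb.g g8 (@Lb.r r25 (@Lb.d (nat_lit 0) (nat_lit 64) (nat_lit 0) (@Lb.t (@Lb.fp (nat_lit 3) t2)))))))
noncomputable def l622 : Lb := (@Lb.r r323 (@Lb.d (nat_lit 1) (nat_lit 66) (nat_lit 0) (@Lb.g g4 (@Lb.g g9 (@Lb.g g10 (@Lb.r r419 (@Lb.r r98 (@Lb.d (nat_lit 1) (nat_lit 9) (nat_lit 2) (@Lb.t (@Lb.fp (nat_lit 9) t51))))))))))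
noncomputable def l623 : Lb := (@Lb.r r1045 (@Lb.r r323 (@Lb.d (nat_lit 261) (nat_lit 8) (nat_lit 0) (@Lb.g g4 (@Lb.g g10 (@Lb.r r387 (@Lb.d (nat_lit 1) (nat_lit 66) (nat_lit 2) (@Lb.fp (nat_lit 3) t51))))))))
noncomputable def l624 : Lb := (@Lb.d (nat_lit 0) (nat_lit 512) (nat_lit 64) (@Lb.g g7 (@Lb.t (@Lb.fm (nat_lit 3) t2))))
noncomputable def l625 : Lb := (@Lb.d (nat_lit 0) (nat_lit 512) (nat_lit 66) (@Lb.g g10 (@Lb.g g7 (@Lb.r r386 (@Lb.d (nat_lit 0) (nat_lit 0) (nat_lit 9) (@Lb.fm (nat_lit 3) t2))))))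
noncomputable def l626 : Lb := (@Lb.d (nat_lit 16) (nat_lit 256) (nat_lit 1) (@Lb.r r24 (@Lb.r r101 (@Lb.r r323 (@Lb.g g10 (@Lb.g g5 (@Lb.d (nat_lit 0) (nat_lit 0) (nat_lit 2) (@Lb.r r387 (@Lb.fp (nat_lit 3) t51)))))))))
noncomputable def l627 : Lb := (@Lb.d (nat_lit 2) (nat_lit 2) (nat_lit 130) (@Lb.g g8 (@Lb.g g9 (@Lb.g g10 (@Lb.g g11 (@Lb.r r2666 (@Lb.r r579 (@Lb.r r25 (@Lb.d (nat_lit 0) (nat_lit 161) (nat_lit 640) (@Lb.fm (nat_lit 9) t51))))))))))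
noncomputable def l628 : Lb := (@Lb.d (nat_lit 2) (nat_lit 514) (nat_lit 2) (@Lb.g g8 (@Lb.g g9 (@Lb.g g10 (@Lb.r r2666 (@Lb.r r579 (@Lb.r r25 (@Lb.d (nat_lit 0) (nat_lit 166) (nat_lit 584) (@Lb.t (@Lb.fp (nat_lit 9) t51))))))))))
noncomputable def l629 : Lb := (@Lb.r r323 (@Lb.d (nat_lit 2) (nat_lit 258) (nat_lit 2) (@Lb.g g8 (@Lb.g g9 (@Lb.g g10 (@Lb.r r362 (@Lb.r r387 (@Lb.r r25 (@Lb.d (nat_lit 0) (nat_lit 97) (nat_lit 74) (@Lb.t (@Lb.fm (nat_lit 9) t51)))))))))))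
noncomputable def l630 : Lb := (@Lb.d (nat_lit 128) (nat_lit 256) (nat_lit 64) (@Lb.g g11 (@Lb.r r1622 (@Lb.r r20 (@Lb.r r409 (@Lb.r r2663 (@Lb.d (nat_lit 665) (nat_lit 26) (nat_lit 682) (@Lb.t (@Lb.fm (nat_lit 3) t242)))))))))
noncomputable def l631 : Lb := (@Lb.d (nat_lit 2) (nat_lit 258) (nat_lit 66) (@Lb.g g8 (@Lb.g g9 (@Lb.g g10 (@Lb.g g11 (@Lb.r r427 (@Lb.r r386 (@Lb.r r97 (@Lb.r r24 (@Lb.d (nat_lit 610) (nat_lit 0) (nat_lit 153) (@Lb.fm (nat_lit 9) t61)))))))))))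
noncomputable def l632 : Lb := (@Lb.g g4 (@Lb.g g7 (@Lb.r r402 (@Lb.r r101 (@Lb.r r24 (@Lb.d (nat_lit 256) (nat_lit 256) (nat_lit 576) (@Lb.fp (nat_lit 3) t145)))))))
noncomputable def l633 : Lb := (@Lb.d (nat_lit 2) (nat_lit 2) (nat_lit 66) (@Lb.g g8 (@Lb.g g9 (@Lb.g g10 (@Lb.g g11 (@Lb.r r427 (@Lb.r r106 (@Lb.r r25 (@Lb.d (nat_lit 0) (nat_lit 73) (nat_lit 137) (@Lb.fp (nat_lit 9) t51))))))))))
noncomputable def l634 : Lb := (@Lb.d (nat_lit 2) (nat_lit 514) (nat_lit 130) (@Lb.g g8 (@Lb.g g9 (@Lb.g g10 (@Lb.g g11 (@Lb.r r660 (@Lb.r r614 (@Lb.r r1637 (@Lb.r r1383 (@Lb.r r2692 (@Lb.d (nat_lit 0) (nat_lit 130) (nat_lit 74) (@Lb.fm (nat_lit 9) t2))))))))))))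
noncomputable def l635 : Lb := (@Lb.d (nat_lit 130) (nat_lit 290) (nat_lit 10) (@Lb.g g8 (@Lb.g g9 (@Lb.g g10 (@Lb.r r275 (@Lb.r r1633 (@Lb.r r2646 (@Lb.r r420 (@Lb.d (nat_lit 544) (nat_lit 4) (nat_lit 74) (@Lb.t (@Lb.fp (nat_lit 9) t2)))))))))))
noncomputable def l636 : Lb := (@Lb.d (nat_lit 130) (nat_lit 546) (nat_lit 10) (@Lb.g g8 (@Lb.g g9 (@Lb.g g10 (@Lb.r r275 (@Lb.r r1633 (@Lb.r r2646 (@Lb.r r420 (@Lb.d (nat_lit 546) (nat_lit 4) (nat_lit 74) (@Lb.t (@Lb.fp (nat_lit 9) t2)))))))))))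
noncomputable def l637 : Lb := (@Lb.d (nat_lit 2) (nat_lit 514) (nat_lit 130) (@Lb.g g8 (@Lb.g g9 (@Lb.g g10 (@Lb.g g11 (@Lb.r r2666 (@Lb.r r579 (@Lb.r r25 (@Lb.d (nat_lit 9) (nat_lit 97) (nat_lit 640) (@Lb.fm (nat_lit 9) t51))))))))))
noncomputable def l638 : Lb := (@Lb.d (nat_lit 2) (nat_lit 258) (nat_lit 2) (@Lb.g g8 (@Lb.g g9 (@Lb.g g10 (@Lb.r r2666 (@Lb.r r579 (@Lb.r r25 (@Lb.d (nat_lit 9) (nat_lit 102) (nat_lit 584) (@Lb.t (@Lb.fp (nat_lit 9) t51))))))))))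
noncomputable def l639 : Lb := (@Lb.r r323 (@Lb.d (nat_lit 2) (nat_lit 2) (nat_lit 2) (@Lb.g g8 (@Lb.g g9 (@Lb.g g10 (@Lb.r r362 (@Lb.r r387 (@Lb.r r25 (@Lb.d (nat_lit 9) (nat_lit 33) (nat_lit 74) (@Lb.t (@Lb.fm (nat_lit 9) t51)))))))))))
noncomputable def l640 : Lb := (@Lb.r r24 (@Lb.d (nat_lit 8) (nat_lit 130) (nat_lit 0) (@Lb.fm (nat_lit 1) t2)))
noncomputable def l641 : Lb := (@Lb.d (nat_lit 32) (nat_lit 544) (nat_lit 2) (@Lb.g g9 (@Lb.g g10 (@Lb.r r1352 (@Lb.r r2695 (@Lb.r r2726 (@Lb.r r165 (@Lb.d (nat_lit 37) (nat_lit 164) (nat_lit 402) (@Lb.fm (nat_lit 3) t2)))))))))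
noncomputable def l642 : Lb := (@Lb.d (nat_lit 0) (nat_lit 258) (nat_lit 0) (@Lb.r r20 (@Lb.g g9 (@Lb.g g8 (@Lb.fm (nat_lit 3) t2)))))
noncomputable def l643 : Lb := (@Lb.d (nat_lit 1) (nat_lit 256) (nat_lit 0) (@Lb.g g4 (@Lb.r r1049 (@Lb.d (nat_lit 256) (nat_lit 0) (nat_lit 0) (@Lb.t (@Lb.fm (nat_lit 3) t2))))))
noncomputable def l644 : Lb := (@Lb.d (nat_lit 5) (nat_lit 513) (nat_lit 0) (@Lb.fp (nat_lit 1) t2))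
noncomputable def l645 : Lb := (@Lb.g g7 (@Lb.r r402 (@Lb.r r101 (@Lb.r r24 (@Lb.d (nat_lit 256) (nat_lit 0) (nat_lit 512) (@Lb.t (@Lb.fp (nat_lit 3) t145)))))))
noncomputable def l646 : Lb := (@Lb.d (nat_lit 2) (nat_lit 258) (nat_lit 73) (@Lb.g g8 (@Lb.g g9 (@Lb.g g10 (@Lb.g g11 (@Lb.r r427 (@Lb.r r386 (@Lb.r r25 (@Lb.d (nat_lit 9) (nat_lit 132) (nat_lit 326) (@Lb.fm (nat_lit 9) t51))))))))))
noncomputable def l647 : Lb := (@Lb.d (nat_lit 2) (nat_lit 258) (nat_lit 66) (@Lb.g g8 (@Lb.g g9 (@Lb.g g10 (@Lb.g g11 (@Lb.r r427 (@Lb.r r106 (@Lb.r r25 (@Lb.d (nat_lit 9) (nat_lit 2) (nat_lit 138) (@Lb.fp (nat_lit 9) t51))))))))))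
noncomputable def l648 : Lb := (@Lb.d (nat_lit 0) (nat_lit 514) (nat_lit 0) (@Lb.g g8 (@Lb.g g9 (@Lb.r r40 (@Lb.r r2089 (@Lb.r r2084 (@Lb.d (nat_lit 260) (nat_lit 64) (nat_lit 0) (@Lb.fm (nat_lit 3) t2))))))))
noncomputable def l649 : Lb := (@Lb.d (nat_lit 2) (nat_lit 2) (nat_lit 130) (@Lb.g g8 (@Lb.g g9 (@Lb.g g10 (@Lb.g g11 (@Lb.r r2691 (@Lb.r r297 (@Lb.r r360 (@Lb.r r582 (@Lb.r r2180 (@Lb.d (nat_lit 641) (nat_lit 10) (nat_lit 329) (@Lb.fm (nat_lit 9) t242))))))))))))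
noncomputable def l650 : Lb := (@Lb.d (nat_lit 5) (nat_lit 86) (nat_lit 533) (@Lb.r r2706 (@Lb.r r1377 (@Lb.r r2711 (@Lb.r r1384 (@Lb.g g6 (@Lb.d (nat_lit 16) (nat_lit 4) (nat_lit 1) (@Lb.t (@Lb.fm (nat_lit 3) t2)))))))))
noncomputable def l651 : Lb := (@Lb.d (nat_lit 74) (nat_lit 356) (nat_lit 18) (@Lb.r r276 (@Lb.r r2194 (@Lb.r r1121 (@Lb.r r267 (@Lb.g g6 (@Lb.g g4 (@Lb.d (nat_lit 64) (nat_lit 4) (nat_lit 1) (@Lb.fm (nat_lit 3) t2)))))))))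
noncomputable def l652 : Lb := (@Lb.d (nat_lit 16) (nat_lit 585) (nat_lit 165) (@Lb.r r421 (@Lb.r r2470 (@Lb.r r1348 (@Lb.r r267 (@Lb.g g6 (@Lb.g g5 (@Lb.g g4 (@Lb.d (nat_lit 65) (nat_lit 17) (nat_lit 1) (@Lb.t (@Lb.fp (nat_lit 9) t2)))))))))))
noncomputable def l653 : Lb := (@Lb.d (nat_lit 5) (nat_lit 598) (nat_lit 602) (@Lb.r r2706 (@Lb.r r1377 (@Lb.r r2711 (@Lb.r r1384 (@Lb.g g6 (@Lb.d (nat_lit 16) (nat_lit 4) (nat_lit 1) (@Lb.t (@Lb.fm (nat_lit 3) t2)))))))))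
noncomputable def l654 : Lb := (@Lb.d (nat_lit 0) (nat_lit 258) (nat_lit 0) (@Lb.g g8 (@Lb.g g9 (@Lb.r r40 (@Lb.r r2089 (@Lb.r r2084 (@Lb.d (nat_lit 257) (nat_lit 66) (nat_lit 0) (@Lb.fm (nat_lit 3) t2))))))))
noncomputable def l655 : Lb := (@Lb.d (nat_lit 10) (nat_lit 257) (nat_lit 0) (@Lb.g g8 (@Lb.g g9 (@Lb.r r1060 (@Lb.r r37 (@Lb.d (nat_lit 518) (nat_lit 64) (nat_lit 0) (@Lb.fp (nat_lit 3) t2)))))))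
noncomputable def l656 : Lb := (@Lb.d (nat_lit 2) (nat_lit 256) (nat_lit 74) (@Lb.g g8 (@Lb.g g10 (@Lb.g g11 (@Lb.r r1687 (@Lb.r r2401 (@Lb.r r2194 (@Lb.d (nat_lit 538) (nat_lit 137) (nat_lit 18) (@Lb.t (@Lb.fp (nat_lit 9) t61))))))))))
noncomputable def l657 : Lb := (@Lb.d (nat_lit 330) (nat_lit 20) (nat_lit 273) (@Lb.r r1300 (@Lb.r r2450 (@Lb.r r1121 (@Lb.r r2315 (@Lb.g g6 (@Lb.g g4 (@Lb.d (nat_lit 64) (nat_lit 4) (nat_lit 1) (@Lb.r r25 (@Lb.fm (nat_lit 3) t2))))))))))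
noncomputable def l658 : Lb := (@Lb.d (nat_lit 330) (nat_lit 276) (nat_lit 342) (@Lb.r r1300 (@Lb.r r2450 (@Lb.r r1121 (@Lb.r r2315 (@Lb.g g6 (@Lb.g g4 (@Lb.d (nat_lit 65) (nat_lit 4) (nat_lit 1) (@Lb.r r25 (@Lb.fm (nat_lit 3) t2))))))))))
noncomputable def l659 : Lb := (@Lb.d (nat_lit 80) (nat_lit 361) (nat_lit 33) (@Lb.r r165 (@Lb.r r2214 (@Lb.r r1348 (@Lb.r r267 (@Lb.g g6 (@Lb.g g5 (@Lb.g g4 (@Lb.d (nat_lit 64) (nat_lit 16) (nat_lit 1) (@Lb.t (@Lb.fp (nat_lit 9) t2)))))))))))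
noncomputable def l660 : Lb := (@Lb.d (nat_lit 656) (nat_lit 153) (nat_lit 65) (@Lb.r r1189 (@Lb.r r166 (@Lb.r r1604 (@Lb.r r519 (@Lb.g g6 (@Lb.g g5 (@Lb.g g4 (@Lb.d (nat_lit 73) (nat_lit 16) (nat_lit 1) (@Lb.t (@Lb.fm (nat_lit 9) t2)))))))))))
noncomputable def l661 : Lb := (@Lb.d (nat_lit 330) (nat_lit 532) (nat_lit 342) (@Lb.r r1300 (@Lb.r r2450 (@Lb.r r1121 (@Lb.r r2315 (@Lb.g g6 (@Lb.g g4 (@Lb.d (nat_lit 64) (nat_lit 4) (nat_lit 1) (@Lb.r r25 (@Lb.fm (nat_lit 3) t2))))))))))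
noncomputable def l662 : Lb := (@Lb.d (nat_lit 2) (nat_lit 256) (nat_lit 128) (@Lb.g g8 (@Lb.g g10 (@Lb.g g11 (@Lb.r r1687 (@Lb.r r2408 (@Lb.r r1174 (@Lb.r r1121 (@Lb.d (nat_lit 521) (nat_lit 80) (nat_lit 661) (@Lb.t (@Lb.fm (nat_lit 9) t51)))))))))))
noncomputable def l663 : Lb := (@Lb.r r20 (@Lb.r r82 (@Lb.r r275 (@Lb.d (nat_lit 8) (nat_lit 130) (nat_lit 0) (@Lb.g g5 (@Lb.r r291 (@Lb.r r98 (@Lb.r r36 (@Lb.t (@Lb.fm (nat_lit 3) t68))))))))))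
noncomputable def l664 : Lb := (@Lb.r r323 (@Lb.d (nat_lit 2) (nat_lit 2) (nat_lit 1) (@Lb.g g8 (@Lb.g g9 (@Lb.g g6 (@Lb.r r387 (@Lb.r r97 (@Lb.d (nat_lit 2) (nat_lit 138) (nat_lit 2) (@Lb.t (@Lb.fm (nat_lit 9) t126))))))))))
noncomputable def l665 : Lb := (@Lb.r r323 (@Lb.d (nat_lit 0) (nat_lit 258) (nat_lit 1) (@Lb.g g8 (@Lb.g g9 (@Lb.g g6 (@Lb.r r387 (@Lb.r r97 (@Lb.d (nat_lit 0) (nat_lit 138) (nat_lit 2) (@Lb.t (@Lb.fm (nat_lit 9) t126))))))))))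
noncomputable def l666 : Lb := (@Lb.r r664 (@Lb.r r667 (@Lb.r r1690 (@Lb.r r1365 (@Lb.r r1700 (@Lb.d (nat_lit 0) (nat_lit 512) (nat_lit 64) (@Lb.fm (nat_lit 1) t322)))))))
noncomputable def l667 : Lb := (@Lb.r r21 (@Lb.d (nat_lit 17) (nat_lit 0) (nat_lit 128) (@Lb.g g8 (@Lb.g g10 (@Lb.g g11 (@Lb.r r395 (@Lb.r r1450 (@Lb.r r297 (@Lb.r r2408 (@Lb.d (nat_lit 33) (nat_lit 105) (nat_lit 278) (@Lb.t (@Lb.fp (nat_lit 9) t323))))))))))))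
noncomputable def l668 : Lb := (@Lb.d (nat_lit 128) (nat_lit 288) (nat_lit 90) (@Lb.g g10 (@Lb.g g11 (@Lb.r r361 (@Lb.r r1384 (@Lb.r r2455 (@Lb.d (nat_lit 614) (nat_lit 86) (nat_lit 664) (@Lb.fm (nat_lit 3) t322))))))))
noncomputable def l669 : Lb := (@Lb.r r323 (@Lb.d (nat_lit 0) (nat_lit 258) (nat_lit 1) (@Lb.g g8 (@Lb.g g9 (@Lb.g g6 (@Lb.r r387 (@Lb.r r97 (@Lb.d (nat_lit 2) (nat_lit 138) (nat_lit 66) (@Lb.t (@Lb.fm (nat_lit 9) t126))))))))))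
noncomputable def l670 : Lb := (@Lb.d (nat_lit 2) (nat_lit 258) (nat_lit 2) (@Lb.g g8 (@Lb.g g9 (@Lb.g g10 (@Lb.r r2723 (@Lb.r r1634 (@Lb.r r1553 (@Lb.d (nat_lit 2) (nat_lit 100) (nat_lit 416) (@Lb.t (@Lb.fp (nat_lit 9) t324))))))))))
noncomputable def l671 : Lb := (@Lb.r r2069 (@Lb.r r2118 (@Lb.r r2311 (@Lb.d (nat_lit 2) (nat_lit 0) (nat_lit 0) (@Lb.g g4 (@Lb.d (nat_lit 9) (nat_lit 2) (nat_lit 0) (@Lb.t (@Lb.fm (nat_lit 3) t325))))))))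
noncomputable def l672 : Lb := (@Lb.d (nat_lit 2) (nat_lit 514) (nat_lit 2) (@Lb.g g8 (@Lb.g g9 (@Lb.g g10 (@Lb.g g11 (@Lb.r r2723 (@Lb.r r1634 (@Lb.r r1553 (@Lb.d (nat_lit 1) (nat_lit 100) (nat_lit 416) (@Lb.fm (nat_lit 9) t324))))))))))
noncomputable def l673 : Lb := (@Lb.d (nat_lit 2) (nat_lit 258) (nat_lit 130) (@Lb.g g8 (@Lb.g g9 (@Lb.g g10 (@Lb.g g11 (@Lb.r r427 (@Lb.r r106 (@Lb.r r25 (@Lb.d (nat_lit 2) (nat_lit 68) (nat_lit 136) (@Lb.fp (nat_lit 9) t51))))))))))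
noncomputable def l674 : Lb := (@Lb.d (nat_lit 4) (nat_lit 514) (nat_lit 130) (@Lb.g g9 (@Lb.g g10 (@Lb.g g11 (@Lb.r r419 (@Lb.r r98 (@Lb.r r8 (@Lb.d (nat_lit 4) (nat_lit 73) (nat_lit 137) (@Lb.t (@Lb.fp (nat_lit 9) t51))))))))))
noncomputable def l675 : Lb := (@Lb.d (nat_lit 2) (nat_lit 2) (nat_lit 130) (@Lb.g g8 (@Lb.g g9 (@Lb.g g10 (@Lb.g g11 (@Lb.r r427 (@Lb.r r106 (@Lb.r r25 (@Lb.d (nat_lit 2) (nat_lit 73) (nat_lit 137) (@Lb.fp (nat_lit 9) t51))))))))))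
noncomputable def l676 : Lb := (@Lb.d (nat_lit 42) (nat_lit 4) (nat_lit 1) (@Lb.r r85 (@Lb.r r106 (@Lb.r r612 (@Lb.r r295 (@Lb.g g6 (@Lb.g g5 (@Lb.d (nat_lit 0) (nat_lit 16) (nat_lit 1) (@Lb.r r387 (@Lb.fm (nat_lit 3) t2))))))))))
noncomputable def l677 : Lb := (@Lb.r r21 (@Lb.d (nat_lit 6) (nat_lit 0) (nat_lit 130) (@Lb.g g8 (@Lb.g g10 (@Lb.g g11 (@Lb.r r427 (@Lb.r r106 (@Lb.r r25 (@Lb.d (nat_lit 9) (nat_lit 72) (nat_lit 137) (@Lb.t (@Lb.fm (nat_lit 9) t51)))))))))))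
noncomputable def l678 : Lb := (@Lb.d (nat_lit 32) (nat_lit 512) (nat_lit 2) (@Lb.g g6 (@Lb.r r2579 (@Lb.r r1448 (@Lb.r r1690 (@Lb.r r289 (@Lb.d (nat_lit 545) (nat_lit 10) (nat_lit 17) (@Lb.t (@Lb.fm (nat_lit 3) t51)))))))))
noncomputable def l679 : Lb := (@Lb.r r21 (@Lb.d (nat_lit 2) (nat_lit 264) (nat_lit 130) (@Lb.g g8 (@Lb.g g10 (@Lb.g g11 (@Lb.r r353 (@Lb.r r407 (@Lb.r r584 (@Lb.r r390 (@Lb.d (nat_lit 98) (nat_lit 66) (nat_lit 136) (@Lb.t (@Lb.fp (nat_lit 9) t2))))))))))))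
noncomputable def l680 : Lb := (@Lb.r r21 (@Lb.d (nat_lit 170) (nat_lit 256) (nat_lit 0) (@Lb.g g8 (@Lb.r r614 (@Lb.r r597 (@Lb.r r663 (@Lb.r r340 (@Lb.d (nat_lit 86) (nat_lit 20) (nat_lit 133) (@Lb.t (@Lb.fm (nat_lit 3) t2))))))))))
noncomputable def l681 : Lb := (@Lb.d (nat_lit 2) (nat_lit 521) (nat_lit 130) (@Lb.g g8 (@Lb.g g9 (@Lb.g g10 (@Lb.g g11 (@Lb.r r643 (@Lb.r r297 (@Lb.r r360 (@Lb.r r582 (@Lb.r r132 (@Lb.d (nat_lit 129) (nat_lit 10) (nat_lit 73) (@Lb.fm (nat_lit 9) t98))))))))))))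
noncomputable def l682 : Lb := (@Lb.d (nat_lit 153) (nat_lit 520) (nat_lit 130) (@Lb.g g8 (@Lb.g g9 (@Lb.g g10 (@Lb.g g11 (@Lb.r r683 (@Lb.r r618 (@Lb.r r1561 (@Lb.r r1540 (@Lb.d (nat_lit 393) (nat_lit 73) (nat_lit 545) (@Lb.fm (nat_lit 9) t326)))))))))))
noncomputable def l683 : Lb := (@Lb.d (nat_lit 0) (nat_lit 266) (nat_lit 16) (@Lb.r r21 (@Lb.r r70 (@Lb.r r263 (@Lb.g g4 (@Lb.r r267 (@Lb.r r74 (@Lb.r r25 (@Lb.t (@Lb.fm (nat_lit 3) t151))))))))))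
noncomputable def l684 : Lb := (@Lb.d (nat_lit 281) (nat_lit 521) (nat_lit 32) (@Lb.r r24 (@Lb.r r101 (@Lb.r r402 (@Lb.r r323 (@Lb.g g7 (@Lb.g g6 (@Lb.d (nat_lit 0) (nat_lit 0) (nat_lit 64) (@Lb.fp (nat_lit 3) t106)))))))))
noncomputable def l685 : Lb := (@Lb.d (nat_lit 1) (nat_lit 0) (nat_lit 0) (@Lb.r r24 (@Lb.r r101 (@Lb.r r402 (@Lb.r r323 (@Lb.g g7 (@Lb.g g6 (@Lb.d (nat_lit 0) (nat_lit 0) (nat_lit 64) (@Lb.fp (nat_lit 3) t50)))))))))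
noncomputable def l686 : Lb := (@Lb.d (nat_lit 274) (nat_lit 266) (nat_lit 32) (@Lb.r r24 (@Lb.r r101 (@Lb.r r402 (@Lb.r r323 (@Lb.g g7 (@Lb.g g6 (@Lb.d (nat_lit 0) (nat_lit 0) (nat_lit 64) (@Lb.fp (nat_lit 3) t106)))))))))
noncomputable def l687 : Lb := (@Lb.d (nat_lit 18) (nat_lit 256) (nat_lit 1) (@Lb.r r24 (@Lb.r r101 (@Lb.r r402 (@Lb.r r323 (@Lb.g g7 (@Lb.g g6 (@Lb.g g4 (@Lb.d (nat_lit 6) (nat_lit 0) (nat_lit 64) (@Lb.t (@Lb.fm (nat_lit 9) t175)))))))))))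
noncomputable def l688 : Lb := (@Lb.d (nat_lit 1) (nat_lit 0) (nat_lit 0) (@Lb.r r24 (@Lb.r r101 (@Lb.r r402 (@Lb.r r323 (@Lb.g g7 (@Lb.g g6 (@Lb.g g4 (@Lb.d (nat_lit 0) (nat_lit 0) (nat_lit 64) (@Lb.t (@Lb.fm (nat_lit 9) t50)))))))))))
noncomputable def l689 : Lb := (@Lb.d (nat_lit 2) (nat_lit 9) (nat_lit 130) (@Lb.g g8 (@Lb.g g9 (@Lb.g g10 (@Lb.g g11 (@Lb.r r643 (@Lb.r r297 (@Lb.r r360 (@Lb.r r582 (@Lb.r r132 (@Lb.d (nat_lit 128) (nat_lit 10) (nat_lit 73) (@Lb.fm (nat_lit 9) t98))))))))))))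
noncomputable def l690 : Lb := (@Lb.d (nat_lit 153) (nat_lit 520) (nat_lit 4) (@Lb.g g8 (@Lb.g g9 (@Lb.g g10 (@Lb.g g11 (@Lb.r r683 (@Lb.r r618 (@Lb.r r1561 (@Lb.r r1540 (@Lb.d (nat_lit 393) (nat_lit 73) (nat_lit 673) (@Lb.fm (nat_lit 9) t197)))))))))))
noncomputable def l691 : Lb := (@Lb.d (nat_lit 134) (nat_lit 272) (nat_lit 2) (@Lb.g g8 (@Lb.g g9 (@Lb.g g10 (@Lb.g g11 (@Lb.r r610 (@Lb.r r552 (@Lb.r r2635 (@Lb.r r2337 (@Lb.r r1060 (@Lb.d (nat_lit 610) (nat_lit 41) (nat_lit 136) (@Lb.fm (nat_lit 9) t238))))))))))))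
noncomputable def l692 : Lb := (@Lb.r r263 (@Lb.d (nat_lit 5) (nat_lit 514) (nat_lit 2) (@Lb.g g8 (@Lb.g g9 (@Lb.g g10 (@Lb.r r2713 (@Lb.r r343 (@Lb.r r2698 (@Lb.r r2696 (@Lb.d (nat_lit 610) (nat_lit 0) (nat_lit 660) (@Lb.t (@Lb.fm (nat_lit 9) t238))))))))))))
noncomputable def l693 : Lb := (@Lb.d (nat_lit 2) (nat_lit 513) (nat_lit 128) (@Lb.g g8 (@Lb.g g9 (@Lb.g g11 (@Lb.r r676 (@Lb.r r2663 (@Lb.r r2178 (@Lb.r r1621 (@Lb.r r2084 (@Lb.d (nat_lit 418) (nat_lit 136) (nat_lit 102) (@Lb.t (@Lb.fm (nat_lit 9) t64))))))))))))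
noncomputable def l694 : Lb := (@Lb.d (nat_lit 2) (nat_lit 257) (nat_lit 162) (@Lb.g g8 (@Lb.g g9 (@Lb.g g6 (@Lb.g g11 (@Lb.r r612 (@Lb.r r679 (@Lb.r r597 (@Lb.r r36 (@Lb.d (nat_lit 418) (nat_lit 136) (nat_lit 85) (@Lb.fp (nat_lit 9) t64)))))))))))
noncomputable def l695 : Lb := (@Lb.d (nat_lit 129) (nat_lit 530) (nat_lit 2) (@Lb.g g8 (@Lb.g g9 (@Lb.g g10 (@Lb.g g11 (@Lb.r r610 (@Lb.r r552 (@Lb.r r2635 (@Lb.r r2337 (@Lb.r r1060 (@Lb.d (nat_lit 610) (nat_lit 41) (nat_lit 136) (@Lb.fm (nat_lit 9) t238))))))))))))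
noncomputable def l696 : Lb := (@Lb.d (nat_lit 298) (nat_lit 322) (nat_lit 18) (@Lb.r r24 (@Lb.r r2138 (@Lb.r r2331 (@Lb.g g5 (@Lb.d (nat_lit 8) (nat_lit 9) (nat_lit 0) (@Lb.t (@Lb.fp (nat_lit 3) t25))))))))
noncomputable def l697 : Lb := (@Lb.d (nat_lit 2) (nat_lit 513) (nat_lit 138) (@Lb.g g8 (@Lb.g g9 (@Lb.g g10 (@Lb.g g11 (@Lb.r r675 (@Lb.r r1681 (@Lb.r r2404 (@Lb.r r1178 (@Lb.d (nat_lit 681) (nat_lit 137) (nat_lit 84) (@Lb.fp (nat_lit 9) t66)))))))))))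
noncomputable def l698 : Lb := (@Lb.r r21 (@Lb.r r70 (@Lb.r r263 (@Lb.g g4 (@Lb.r r267 (@Lb.r r74 (@Lb.r r25 (@Lb.t (@Lb.fm (nat_lit 3) t68)))))))))
noncomputable def l699 : Lb := (@Lb.d (nat_lit 2) (nat_lit 0) (nat_lit 0) (@Lb.g g8 (@Lb.d (nat_lit 10) (nat_lit 2) (nat_lit 0) (@Lb.t (@Lb.fp (nat_lit 3) t2)))))
noncomputable def l700 : Lb := (@Lb.d (nat_lit 0) (nat_lit 256) (nat_lit 128) (@Lb.g g11 (@Lb.r r326 (@Lb.r r1419 (@Lb.r r24 (@Lb.r r1317 (@Lb.d (nat_lit 0) (nat_lit 105) (nat_lit 86) (@Lb.t (@Lb.fp (nat_lit 3) t327)))))))))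
noncomputable def l701 : Lb := (@Lb.d (nat_lit 2) (nat_lit 522) (nat_lit 16) (@Lb.fp (nat_lit 1) t21))
noncomputable def l702 : Lb := (@Lb.d (nat_lit 146) (nat_lit 265) (nat_lit 130) (@Lb.g g8 (@Lb.g g9 (@Lb.g g10 (@Lb.g g11 (@Lb.r r683 (@Lb.r r2406 (@Lb.r r1561 (@Lb.r r1540 (@Lb.d (nat_lit 528) (nat_lit 9) (nat_lit 273) (@Lb.fm (nat_lit 9) t328)))))))))))
noncomputable def l703 : Lb := (@Lb.d (nat_lit 9) (nat_lit 512) (nat_lit 128) (@Lb.g g8 (@Lb.g g9 (@Lb.g g11 (@Lb.r r134 (@Lb.r r584 (@Lb.r r603 (@Lb.r r401 (@Lb.d (nat_lit 8) (nat_lit 36) (nat_lit 137) (@Lb.t (@Lb.fp (nat_lit 9) t71)))))))))))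
noncomputable def l704 : Lb := (@Lb.d (nat_lit 290) (nat_lit 256) (nat_lit 69) (@Lb.r r24 (@Lb.r r101 (@Lb.r r402 (@Lb.r r1379 (@Lb.g g6 (@Lb.t (@Lb.fp (nat_lit 3) t327))))))))
noncomputable def l705 : Lb := (@Lb.d (nat_lit 10) (nat_lit 516) (nat_lit 22) (@Lb.r r134 (@Lb.r r328 (@Lb.r r279 (@Lb.r r553 (@Lb.g g7 (@Lb.g g5 (@Lb.g g4 (@Lb.d (nat_lit 6) (nat_lit 2) (nat_lit 128) (@Lb.t (@Lb.fm (nat_lit 9) t329)))))))))))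
noncomputable def l706 : Lb := (@Lb.d (nat_lit 2) (nat_lit 1) (nat_lit 128) (@Lb.g g8 (@Lb.g g9 (@Lb.g g11 (@Lb.r r134 (@Lb.r r584 (@Lb.r r603 (@Lb.r r401 (@Lb.d (nat_lit 5) (nat_lit 164) (nat_lit 137) (@Lb.t (@Lb.fp (nat_lit 9) t71)))))))))))
noncomputable def l707 : Lb := (@Lb.d (nat_lit 96) (nat_lit 265) (nat_lit 73) (@Lb.g g8 (@Lb.g g9 (@Lb.g g10 (@Lb.g g11 (@Lb.r r2475 (@Lb.r r618 (@Lb.r r281 (@Lb.r r260 (@Lb.d (nat_lit 73) (nat_lit 41) (nat_lit 89) (@Lb.fp (nat_lit 9) t330)))))))))))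
noncomputable def l708 : Lb := (@Lb.d (nat_lit 2) (nat_lit 265) (nat_lit 2) (@Lb.g g8 (@Lb.g g9 (@Lb.g g10 (@Lb.g g11 (@Lb.r r643 (@Lb.r r297 (@Lb.r r360 (@Lb.r r582 (@Lb.r r132 (@Lb.d (nat_lit 129) (nat_lit 10) (nat_lit 73) (@Lb.fm (nat_lit 9) t98))))))))))))
noncomputable def l709 : Lb := (@Lb.r r21 (@Lb.d (nat_lit 657) (nat_lit 8) (nat_lit 128) (@Lb.g g4 (@Lb.g g10 (@Lb.g g11 (@Lb.r r345 (@Lb.r r2667 (@Lb.r r2374 (@Lb.d (nat_lit 102) (nat_lit 136) (nat_lit 661) (@Lb.t (@Lb.fm (nat_lit 9) t68)))))))))))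
noncomputable def l710 : Lb := (@Lb.r r21 (@Lb.d (nat_lit 145) (nat_lit 512) (nat_lit 128) (@Lb.g g8 (@Lb.g g10 (@Lb.g g11 (@Lb.r r1691 (@Lb.r r409 (@Lb.r r90 (@Lb.r r1176 (@Lb.d (nat_lit 538) (nat_lit 65) (nat_lit 2) (@Lb.t (@Lb.fm (nat_lit 9) t125))))))))))))
noncomputable def l711 : Lb := (@Lb.r r21 (@Lb.d (nat_lit 657) (nat_lit 264) (nat_lit 128) (@Lb.g g4 (@Lb.g g10 (@Lb.g g11 (@Lb.r r345 (@Lb.r r2667 (@Lb.r r2374 (@Lb.d (nat_lit 97) (nat_lit 72) (nat_lit 661) (@Lb.t (@Lb.fm (nat_lit 9) t125)))))))))))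
noncomputable def l712 : Lb := (@Lb.d (nat_lit 2) (nat_lit 258) (nat_lit 2) (@Lb.g g8 (@Lb.g g9 (@Lb.g g10 (@Lb.g g11 (@Lb.r r2411 (@Lb.r r106 (@Lb.r r25 (@Lb.d (nat_lit 9) (nat_lit 132) (nat_lit 17) (@Lb.fp (nat_lit 9) t51))))))))))
noncomputable def l713 : Lb := (@Lb.d (nat_lit 2) (nat_lit 514) (nat_lit 68) (@Lb.g g8 (@Lb.g g9 (@Lb.g g10 (@Lb.g g11 (@Lb.r r427 (@Lb.r r578 (@Lb.r r25 (@Lb.d (nat_lit 9) (nat_lit 33) (nat_lit 5) (@Lb.fp (nat_lit 9) t51))))))))))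
noncomputable def l714 : Lb := (@Lb.r r82 (@Lb.d (nat_lit 129) (nat_lit 16) (nat_lit 0) (@Lb.g g8 (@Lb.g g9 (@Lb.g g11 (@Lb.r r555 (@Lb.r r1689 (@Lb.r r146 (@Lb.r r516 (@Lb.d (nat_lit 673) (nat_lit 10) (nat_lit 160) (@Lb.t (@Lb.fm (nat_lit 9) t157))))))))))))
noncomputable def l715 : Lb := (@Lb.d (nat_lit 0) (nat_lit 257) (nat_lit 128) (@Lb.g g9 (@Lb.g g10 (@Lb.g g11 (@Lb.r r1379 (@Lb.r r1414 (@Lb.r r2660 (@Lb.r r2581 (@Lb.d (nat_lit 385) (nat_lit 16) (nat_lit 576) (@Lb.t (@Lb.fp (nat_lit 9) t331)))))))))))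
noncomputable def l716 : Lb := (@Lb.g g10 (@Lb.r r2451 (@Lb.d (nat_lit 0) (nat_lit 138) (nat_lit 18) (@Lb.t (@Lb.fp (nat_lit 3) t332)))))
noncomputable def l717 : Lb := (@Lb.r r323 (@Lb.d (nat_lit 38) (nat_lit 516) (nat_lit 0) (@Lb.g g8 (@Lb.g g9 (@Lb.g g10 (@Lb.r r2713 (@Lb.r r1563 (@Lb.r r1540 (@Lb.d (nat_lit 417) (nat_lit 0) (nat_lit 145) (@Lb.t (@Lb.fp (nat_lit 9) t275)))))))))))
noncomputable def l718 : Lb := (@Lb.r r323 (@Lb.d (nat_lit 38) (nat_lit 514) (nat_lit 2) (@Lb.g g8 (@Lb.g g9 (@Lb.g g10 (@Lb.r r2713 (@Lb.r r1563 (@Lb.r r2634 (@Lb.r r1540 (@Lb.d (nat_lit 513) (nat_lit 0) (nat_lit 641) (@Lb.t (@Lb.fp (nat_lit 9) t163))))))))))))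
noncomputable def l719 : Lb := (@Lb.r r323 (@Lb.d (nat_lit 33) (nat_lit 518) (nat_lit 0) (@Lb.g g8 (@Lb.g g9 (@Lb.g g10 (@Lb.r r2713 (@Lb.r r343 (@Lb.r r2694 (@Lb.r r2180 (@Lb.d (nat_lit 161) (nat_lit 0) (nat_lit 72) (@Lb.t (@Lb.fp (nat_lit 9) t86))))))))))))
noncomputable def l720 : Lb := (@Lb.r r70 (@Lb.r r263 (@Lb.d (nat_lit 5) (nat_lit 258) (nat_lit 0) (@Lb.g g8 (@Lb.g g9 (@Lb.r r2585 (@Lb.r r279 (@Lb.r r584 (@Lb.r r2182 (@Lb.d (nat_lit 0) (nat_lit 0) (nat_lit 596) (@Lb.fm (nat_lit 3) t86)))))))))))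
noncomputable def l721 : Lb := (@Lb.d (nat_lit 2) (nat_lit 257) (nat_lit 130) (@Lb.g g8 (@Lb.g g9 (@Lb.g g10 (@Lb.g g11 (@Lb.r r586 (@Lb.r r584 (@Lb.r r667 (@Lb.r r337 (@Lb.d (nat_lit 9) (nat_lit 42) (nat_lit 80) (@Lb.fp (nat_lit 9) t333)))))))))))
noncomputable def l722 : Lb := (@Lb.r r323 (@Lb.d (nat_lit 38) (nat_lit 260) (nat_lit 0) (@Lb.g g8 (@Lb.g g9 (@Lb.g g10 (@Lb.r r2713 (@Lb.r r343 (@Lb.r r2694 (@Lb.r r2180 (@Lb.d (nat_lit 161) (nat_lit 0) (nat_lit 72) (@Lb.t (@Lb.fp (nat_lit 9) t86))))))))))))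
noncomputable def l723 : Lb := (@Lb.d (nat_lit 4) (nat_lit 2) (nat_lit 130) (@Lb.g g8 (@Lb.g g9 (@Lb.g g10 (@Lb.g g11 (@Lb.r r1451 (@Lb.r r1321 (@Lb.r r104 (@Lb.r r70 (@Lb.r r132 (@Lb.d (nat_lit 9) (nat_lit 73) (nat_lit 617) (@Lb.fp (nat_lit 9) t119))))))))))))
noncomputable def l724 : Lb := (@Lb.r r323 (@Lb.d (nat_lit 33) (nat_lit 6) (nat_lit 0) (@Lb.g g8 (@Lb.g g9 (@Lb.g g10 (@Lb.r r2713 (@Lb.r r343 (@Lb.r r2694 (@Lb.r r2180 (@Lb.d (nat_lit 160) (nat_lit 0) (nat_lit 72) (@Lb.t (@Lb.fp (nat_lit 9) t123))))))))))))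
noncomputable def l725 : Lb := (@Lb.r r21 (@Lb.r r70 (@Lb.r r263 (@Lb.g g8 (@Lb.r r267 (@Lb.r r74 (@Lb.r r25 (@Lb.t (@Lb.p (nat_lit 1) (@Lb.fp (nat_lit 3) t168))))))))))
noncomputable def l726 : Lb := (@Lb.d (nat_lit 130) (nat_lit 258) (nat_lit 0) (@Lb.g g8 (@Lb.g g9 (@Lb.r r1303 (@Lb.r r162 (@Lb.r r145 (@Lb.r r2664 (@Lb.d (nat_lit 358) (nat_lit 21) (nat_lit 425) (@Lb.fm (nat_lit 3) t334)))))))))
noncomputable def l727 : Lb := (@Lb.d (nat_lit 137) (nat_lit 1) (nat_lit 0) (@Lb.g g8 (@Lb.g g9 (@Lb.r r1303 (@Lb.r r162 (@Lb.r r145 (@Lb.r r2664 (@Lb.d (nat_lit 358) (nat_lit 16) (nat_lit 424) (@Lb.fm (nat_lit 3) t334)))))))))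
noncomputable def l728 : Lb := (@Lb.r r21 (@Lb.d (nat_lit 17) (nat_lit 512) (nat_lit 74) (@Lb.g g4 (@Lb.g g10 (@Lb.g g11 (@Lb.r r1687 (@Lb.r r2401 (@Lb.r r1170 (@Lb.d (nat_lit 537) (nat_lit 73) (nat_lit 34) (@Lb.t (@Lb.fm (nat_lit 9) t68)))))))))))
noncomputable def l729 : Lb := (@Lb.r r24 (@Lb.r r101 (@Lb.d (nat_lit 0) (nat_lit 1) (nat_lit 2) (@Lb.fp (nat_lit 1) t97))))
noncomputable def l730 : Lb := (@Lb.d (nat_lit 2) (nat_lit 514) (nat_lit 66) (@Lb.g g8 (@Lb.g g9 (@Lb.g g10 (@Lb.g g11 (@Lb.r r427 (@Lb.r r106 (@Lb.r r25 (@Lb.d (nat_lit 9) (nat_lit 9) (nat_lit 137) (@Lb.fp (nat_lit 9) t51))))))))))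
noncomputable def l731 : Lb := (@Lb.d (nat_lit 2) (nat_lit 2) (nat_lit 130) (@Lb.g g8 (@Lb.g g9 (@Lb.g g10 (@Lb.g g11 (@Lb.r r427 (@Lb.r r106 (@Lb.r r25 (@Lb.d (nat_lit 9) (nat_lit 9) (nat_lit 2) (@Lb.fp (nat_lit 9) t51))))))))))
noncomputable def l732 : Lb := (@Lb.d (nat_lit 130) (nat_lit 2) (nat_lit 0) (@Lb.g g8 (@Lb.g g9 (@Lb.r r1303 (@Lb.r r162 (@Lb.r r145 (@Lb.r r2664 (@Lb.d (nat_lit 353) (nat_lit 18) (nat_lit 424) (@Lb.fm (nat_lit 3) t334)))))))))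
noncomputable def l733 : Lb := (@Lb.d (nat_lit 518) (nat_lit 513) (nat_lit 25) (@Lb.r r154 (@Lb.r r404 (@Lb.r r363 (@Lb.r r353 (@Lb.g g7 (@Lb.g g6 (@Lb.g g4 (@Lb.d (nat_lit 4) (nat_lit 0) (nat_lit 64) (@Lb.t (@Lb.fp (nat_lit 9) t334)))))))))))
noncomputable def l734 : Lb := (@Lb.d (nat_lit 130) (nat_lit 514) (nat_lit 0) (@Lb.g g8 (@Lb.g g9 (@Lb.r r1303 (@Lb.r r162 (@Lb.r r145 (@Lb.r r2664 (@Lb.d (nat_lit 358) (nat_lit 16) (nat_lit 424) (@Lb.fm (nat_lit 3) t334)))))))))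
noncomputable def l735 : Lb := (@Lb.d (nat_lit 164) (nat_lit 512) (nat_lit 0) (@Lb.g g8 (@Lb.g g9 (@Lb.r r598 (@Lb.r r425 (@Lb.r r599 (@Lb.r r424 (@Lb.d (nat_lit 150) (nat_lit 38) (nat_lit 74) (@Lb.fp (nat_lit 3) t2)))))))))
noncomputable def l736 : Lb := (@Lb.d (nat_lit 580) (nat_lit 576) (nat_lit 80) (@Lb.r r154 (@Lb.r r101 (@Lb.r r519 (@Lb.r r264 (@Lb.g g7 (@Lb.d (nat_lit 64) (nat_lit 0) (nat_lit 64) (@Lb.t (@Lb.fm (nat_lit 3) t334)))))))))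
noncomputable def l737 : Lb := (@Lb.g g8 (@Lb.g g10 (@Lb.r r2451 (@Lb.r r402 (@Lb.r r101 (@Lb.r r24 (@Lb.d (nat_lit 529) (nat_lit 0) (nat_lit 138) (@Lb.fp (nat_lit 3) t335))))))))
noncomputable def l738 : Lb := (@Lb.d (nat_lit 2) (nat_lit 297) (nat_lit 68) (@Lb.r r613 (@Lb.r r338 (@Lb.r r551 (@Lb.g g7 (@Lb.g g5 (@Lb.g g8 (@Lb.d (nat_lit 10) (nat_lit 0) (nat_lit 64) (@Lb.r r98 (@Lb.t (@Lb.fm (nat_lit 9) t336)))))))))))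
noncomputable def l739 : Lb := (@Lb.d (nat_lit 0) (nat_lit 260) (nat_lit 128) (@Lb.g g8 (@Lb.g g9 (@Lb.g g10 (@Lb.g g11 (@Lb.r r427 (@Lb.r r388 (@Lb.r r70 (@Lb.r r153 (@Lb.r r132 (@Lb.d (nat_lit 9) (nat_lit 130) (nat_lit 137) (@Lb.fp (nat_lit 9) t337))))))))))))
noncomputable def l740 : Lb := (@Lb.r r323 (@Lb.d (nat_lit 2) (nat_lit 0) (nat_lit 1) (@Lb.g g8 (@Lb.g g9 (@Lb.g g6 (@Lb.r r387 (@Lb.r r2145 (@Lb.r r24 (@Lb.d (nat_lit 5) (nat_lit 72) (nat_lit 34) (@Lb.t (@Lb.fp (nat_lit 9) t40)))))))))))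
noncomputable def l741 : Lb := (@Lb.d (nat_lit 5) (nat_lit 390) (nat_lit 1) (@Lb.r r81 (@Lb.r r1627 (@Lb.r r2580 (@Lb.r r2182 (@Lb.g g8 (@Lb.r r25 (@Lb.t (@Lb.fp (nat_lit 3) t338)))))))))
noncomputable def l742 : Lb := (@Lb.d (nat_lit 6) (nat_lit 257) (nat_lit 0) (@Lb.fp (nat_lit 1) t2))
noncomputable def l743 : Lb := (@Lb.d (nat_lit 8) (nat_lit 2) (nat_lit 128) (@Lb.g g9 (@Lb.g g10 (@Lb.g g11 (@Lb.r r1387 (@Lb.r r1414 (@Lb.r r1432 (@Lb.r r2725 (@Lb.d (nat_lit 421) (nat_lit 137) (nat_lit 596) (@Lb.t (@Lb.fp (nat_lit 9) t331)))))))))))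
noncomputable def l744 : Lb := (@Lb.r r21 (@Lb.d (nat_lit 1) (nat_lit 256) (nat_lit 128) (@Lb.g g8 (@Lb.g g11 (@Lb.r r529 (@Lb.r r2707 (@Lb.r r2710 (@Lb.r r72 (@Lb.d (nat_lit 33) (nat_lit 128) (nat_lit 86) (@Lb.fp (nat_lit 3) t339))))))))))
noncomputable def l745 : Lb := (@Lb.d (nat_lit 578) (nat_lit 513) (nat_lit 512) (@Lb.r r2329 (@Lb.r r2452 (@Lb.r r1702 (@Lb.r r595 (@Lb.g g7 (@Lb.g g6 (@Lb.g g5 (@Lb.d (nat_lit 0) (nat_lit 18) (nat_lit 129) (@Lb.t (@Lb.fp (nat_lit 9) t340)))))))))))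
noncomputable def l746 : Lb := (@Lb.r r597 (@Lb.d (nat_lit 149) (nat_lit 256) (nat_lit 74) (@Lb.g g8 (@Lb.g g10 (@Lb.g g11 (@Lb.r r1706 (@Lb.r r1451 (@Lb.r r2081 (@Lb.d (nat_lit 149) (nat_lit 164) (nat_lit 106) (@Lb.t (@Lb.fm (nat_lit 9) t341)))))))))))
noncomputable def l747 : Lb := (@Lb.d (nat_lit 262) (nat_lit 576) (nat_lit 1) (@Lb.r r24 (@Lb.r r101 (@Lb.r r2403 (@Lb.g g6 (@Lb.d (nat_lit 0) (nat_lit 4) (nat_lit 1) (@Lb.t (@Lb.fm (nat_lit 3) t58))))))))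
noncomputable def l748 : Lb := (@Lb.r r90 (@Lb.d (nat_lit 261) (nat_lit 8) (nat_lit 128) (@Lb.g g4 (@Lb.g g9 (@Lb.g g11 (@Lb.r r402 (@Lb.r r1639 (@Lb.r r1641 (@Lb.d (nat_lit 593) (nat_lit 82) (nat_lit 544) (@Lb.t (@Lb.fm (nat_lit 9) t342)))))))))))
noncomputable def l749 : Lb := (@Lb.r r90 (@Lb.d (nat_lit 1) (nat_lit 514) (nat_lit 128) (@Lb.g g8 (@Lb.g g9 (@Lb.g g11 (@Lb.r r2577 (@Lb.r r1683 (@Lb.r r618 (@Lb.r r2152 (@Lb.d (nat_lit 17) (nat_lit 137) (nat_lit 86) (@Lb.t (@Lb.fm (nat_lit 9) t343))))))))))))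
noncomputable def l750 : Lb := (@Lb.d (nat_lit 4) (nat_lit 586) (nat_lit 660) (@Lb.r r2371 (@Lb.r r658 (@Lb.r r101 (@Lb.g g7 (@Lb.g g8 (@Lb.d (nat_lit 584) (nat_lit 0) (nat_lit 64) (@Lb.r r74 (@Lb.r r25 (@Lb.fp (nat_lit 3) t344))))))))))
noncomputable def l751 : Lb := (@Lb.r r90 (@Lb.d (nat_lit 0) (nat_lit 258) (nat_lit 128) (@Lb.g g8 (@Lb.g g9 (@Lb.g g11 (@Lb.r r602 (@Lb.r r1355 (@Lb.r r1685 (@Lb.r r1380 (@Lb.d (nat_lit 261) (nat_lit 41) (nat_lit 138) (@Lb.t (@Lb.fm (nat_lit 9) t345))))))))))))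
noncomputable def l752 : Lb := (@Lb.d (nat_lit 266) (nat_lit 385) (nat_lit 536) (@Lb.r r1284 (@Lb.r r101 (@Lb.r r2659 (@Lb.r r2370 (@Lb.g g7 (@Lb.g g6 (@Lb.d (nat_lit 0) (nat_lit 0) (nat_lit 65) (@Lb.fm (nat_lit 3) t346)))))))))
noncomputable def l753 : Lb := (@Lb.d (nat_lit 358) (nat_lit 409) (nat_lit 644) (@Lb.r r289 (@Lb.r r1354 (@Lb.r r1112 (@Lb.r r1387 (@Lb.g g7 (@Lb.g g6 (@Lb.g g5 (@Lb.d (nat_lit 0) (nat_lit 5) (nat_lit 66) (@Lb.t (@Lb.fp (nat_lit 9) t347)))))))))))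
noncomputable def l754 : Lb := (@Lb.r r21 (@Lb.r r70 (@Lb.r r263 (@Lb.g g8 (@Lb.r r2459 (@Lb.r r1190 (@Lb.r r2217 (@Lb.r r2196 (@Lb.d (nat_lit 0) (nat_lit 138) (nat_lit 18) (@Lb.t (@Lb.fp (nat_lit 3) t348)))))))))))
noncomputable def l755 : Lb := (@Lb.d (nat_lit 0) (nat_lit 645) (nat_lit 97) (@Lb.r r402 (@Lb.g g7 (@Lb.d (nat_lit 0) (nat_lit 0) (nat_lit 132) (@Lb.t (@Lb.fp (nat_lit 3) t51))))))
noncomputable def l756 : Lb := (@Lb.d (nat_lit 0) (nat_lit 85) (nat_lit 649) (@Lb.r r402 (@Lb.g g11 (@Lb.d (nat_lit 0) (nat_lit 0) (nat_lit 136) (@Lb.t (@Lb.fm (nat_lit 3) t349))))))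
noncomputable def l757 : Lb := (@Lb.d (nat_lit 37) (nat_lit 616) (nat_lit 328) (@Lb.r r169 (@Lb.r r1642 (@Lb.r r1623 (@Lb.g g6 (@Lb.g g5 (@Lb.g g4 (@Lb.d (nat_lit 1) (nat_lit 17) (nat_lit 1) (@Lb.t (@Lb.fp (nat_lit 9) t41))))))))))
noncomputable def l758 : Lb := (@Lb.r r322 (@Lb.d (nat_lit 41) (nat_lit 2) (nat_lit 576) (@Lb.g g8 (@Lb.g g9 (@Lb.g g7 (@Lb.r r2409 (@Lb.r r150 (@Lb.r r104 (@Lb.d (nat_lit 358) (nat_lit 10) (nat_lit 537) (@Lb.t (@Lb.fm (nat_lit 9) t242)))))))))))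
noncomputable def l759 : Lb := (@Lb.d (nat_lit 320) (nat_lit 164) (nat_lit 102) (@Lb.r r1362 (@Lb.r r2471 (@Lb.r r532 (@Lb.g g7 (@Lb.g g9 (@Lb.d (nat_lit 64) (nat_lit 70) (nat_lit 64) (@Lb.fp (nat_lit 3) t299))))))))
noncomputable def l760 : Lb := (@Lb.d (nat_lit 1) (nat_lit 132) (nat_lit 165) (@Lb.r r289 (@Lb.r r279 (@Lb.r r584 (@Lb.r r326 (@Lb.g g7 (@Lb.g g6 (@Lb.g g5 (@Lb.d (nat_lit 4) (nat_lit 1) (nat_lit 65) (@Lb.t (@Lb.fp (nat_lit 9) t68)))))))))))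
noncomputable def l761 : Lb := (@Lb.d (nat_lit 9) (nat_lit 514) (nat_lit 2) (@Lb.g g8 (@Lb.g g9 (@Lb.g g10 (@Lb.g g11 (@Lb.r r682 (@Lb.r r676 (@Lb.r r551 (@Lb.r r1557 (@Lb.r r36 (@Lb.d (nat_lit 393) (nat_lit 65) (nat_lit 586) (@Lb.fp (nat_lit 9) t284))))))))))))
noncomputable def l762 : Lb := (@Lb.d (nat_lit 9) (nat_lit 512) (nat_lit 128) (@Lb.g g8 (@Lb.g g11 (@Lb.r r545 (@Lb.r r299 (@Lb.r r328 (@Lb.r r134 (@Lb.d (nat_lit 548) (nat_lit 8) (nat_lit 161) (@Lb.fp (nat_lit 3) t40)))))))))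
noncomputable def l763 : Lb := (@Lb.d (nat_lit 9) (nat_lit 640) (nat_lit 0) (@Lb.fp (nat_lit 1) t2))
noncomputable def l764 : Lb := (@Lb.d (nat_lit 10) (nat_lit 384) (nat_lit 0) (@Lb.r r21 (@Lb.r r70 (@Lb.r r263 (@Lb.g g4 (@Lb.r r267 (@Lb.r r74 (@Lb.r r25 (@Lb.t (@Lb.fm (nat_lit 3) t68))))))))))
noncomputable def l765 : Lb := (@Lb.g g4 (@Lb.d (nat_lit 6) (nat_lit 257) (nat_lit 0) (@Lb.t (@Lb.fm (nat_lit 3) t2))))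
noncomputable def l766 : Lb := (@Lb.r r323 (@Lb.d (nat_lit 2) (nat_lit 514) (nat_lit 0) (@Lb.g g8 (@Lb.g g9 (@Lb.g g10 (@Lb.r r427 (@Lb.r r106 (@Lb.r r25 (@Lb.d (nat_lit 9) (nat_lit 9) (nat_lit 2) (@Lb.t (@Lb.fm (nat_lit 9) t51)))))))))))
noncomputable def l767 : Lb := (@Lb.d (nat_lit 8) (nat_lit 514) (nat_lit 0) (@Lb.g g9 (@Lb.r r1319 (@Lb.r r1126 (@Lb.r r24 (@Lb.d (nat_lit 265) (nat_lit 130) (nat_lit 0) (@Lb.t (@Lb.fm (nat_lit 3) t284))))))))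
noncomputable def l768 : Lb := (@Lb.r r1307 (@Lb.r r1114 (@Lb.r r20 (@Lb.r r1049 (@Lb.d (nat_lit 260) (nat_lit 512) (nat_lit 0) (@Lb.fp (nat_lit 1) t284))))))
noncomputable def l769 : Lb := (@Lb.d (nat_lit 2) (nat_lit 257) (nat_lit 0) (@Lb.r r20 (@Lb.r r1049 (@Lb.r r1098 (@Lb.r r1291 (@Lb.g g4 (@Lb.t (@Lb.fm (nat_lit 3) t350))))))))
noncomputable def l770 : Lb := (@Lb.d (nat_lit 2) (nat_lit 2) (nat_lit 130) (@Lb.g g8 (@Lb.g g9 (@Lb.g g10 (@Lb.g g11 (@Lb.r r2666 (@Lb.r r612 (@Lb.r r615 (@Lb.r r533 (@Lb.r r2084 (@Lb.d (nat_lit 649) (nat_lit 9) (nat_lit 322) (@Lb.fm (nat_lit 9) t145))))))))))))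
noncomputable def l771 : Lb := (@Lb.d (nat_lit 129) (nat_lit 528) (nat_lit 137) (@Lb.g g8 (@Lb.g g9 (@Lb.g g10 (@Lb.g g11 (@Lb.r r683 (@Lb.r r1642 (@Lb.r r1561 (@Lb.r r516 (@Lb.d (nat_lit 649) (nat_lit 73) (nat_lit 145) (@Lb.fm (nat_lit 9) t47)))))))))))
noncomputable def l772 : Lb := (@Lb.d (nat_lit 8) (nat_lit 514) (nat_lit 66) (@Lb.g g8 (@Lb.g g9 (@Lb.g g10 (@Lb.g g7 (@Lb.r r386 (@Lb.r r2145 (@Lb.r r24 (@Lb.d (nat_lit 8) (nat_lit 73) (nat_lit 41) (@Lb.fp (nat_lit 9) t167))))))))))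
noncomputable def l773 : Lb := (@Lb.d (nat_lit 357) (nat_lit 296) (nat_lit 553) (@Lb.r r1300 (@Lb.r r97 (@Lb.r r2459 (@Lb.r r406 (@Lb.g g7 (@Lb.g g5 (@Lb.g g4 (@Lb.d (nat_lit 17) (nat_lit 1) (nat_lit 64) (@Lb.t (@Lb.fp (nat_lit 9) t47)))))))))))
noncomputable def l774 : Lb := (@Lb.d (nat_lit 34) (nat_lit 0) (nat_lit 64) (@Lb.g g8 (@Lb.g g11 (@Lb.r r545 (@Lb.r r1315 (@Lb.r r582 (@Lb.r r2180 (@Lb.d (nat_lit 548) (nat_lit 82) (nat_lit 594) (@Lb.fp (nat_lit 3) t351)))))))))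
noncomputable def l775 : Lb := (@Lb.r r21 (@Lb.r r70 (@Lb.r r263 (@Lb.g g8 (@Lb.r r267 (@Lb.r r74 (@Lb.r r25 (@Lb.d (nat_lit 2) (nat_lit 578) (nat_lit 0) (@Lb.t (@Lb.fp (nat_lit 3) t352))))))))))
noncomputable def l776 : Lb := (@Lb.r r82 (@Lb.r r275 (@Lb.g g9 (@Lb.r r299 (@Lb.r r106 (@Lb.r r25 (@Lb.d (nat_lit 2) (nat_lit 256) (nat_lit 0) (@Lb.t (@Lb.fp (nat_lit 3) t238)))))))))
noncomputable def l777 : Lb := (@Lb.d (nat_lit 4) (nat_lit 513) (nat_lit 0) (@Lb.g g9 (@Lb.r r1319 (@Lb.r r1126 (@Lb.d (nat_lit 521) (nat_lit 1) (nat_lit 0) (@Lb.t (@Lb.fp (nat_lit 3) t353)))))))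
noncomputable def l778 : Lb := (@Lb.d (nat_lit 34) (nat_lit 512) (nat_lit 0) (@Lb.g g8 (@Lb.r r289 (@Lb.r r2579 (@Lb.r r582 (@Lb.r r2180 (@Lb.d (nat_lit 546) (nat_lit 0) (nat_lit 18) (@Lb.t (@Lb.fp (nat_lit 3) t351)))))))))
noncomputable def l779 : Lb := (@Lb.d (nat_lit 8) (nat_lit 258) (nat_lit 130) (@Lb.g g9 (@Lb.g g10 (@Lb.g g11 (@Lb.r r586 (@Lb.r r584 (@Lb.r r619 (@Lb.r r609 (@Lb.d (nat_lit 9) (nat_lit 8) (nat_lit 128) (@Lb.t (@Lb.fp (nat_lit 9) t354)))))))))))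
noncomputable def l780 : Lb := (@Lb.r r323 (@Lb.d (nat_lit 0) (nat_lit 514) (nat_lit 1) (@Lb.g g9 (@Lb.g g6 (@Lb.r r387 (@Lb.r r97 (@Lb.d (nat_lit 5) (nat_lit 10) (nat_lit 2) (@Lb.fm (nat_lit 3) t285))))))))
noncomputable def l781 : Lb := (@Lb.d (nat_lit 0) (nat_lit 514) (nat_lit 66) (@Lb.g g9 (@Lb.g g10 (@Lb.g g7 (@Lb.r r386 (@Lb.r r97 (@Lb.d (nat_lit 5) (nat_lit 10) (nat_lit 9) (@Lb.t (@Lb.fp (nat_lit 9) t285)))))))))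
noncomputable def l782 : Lb := (@Lb.r r323 (@Lb.d (nat_lit 16) (nat_lit 297) (nat_lit 1) (@Lb.g g9 (@Lb.g g10 (@Lb.r r1303 (@Lb.r r2596 (@Lb.r r2661 (@Lb.d (nat_lit 666) (nat_lit 101) (nat_lit 422) (@Lb.fp (nat_lit 3) t355)))))))))
noncomputable def l783 : Lb := (@Lb.d (nat_lit 9) (nat_lit 8) (nat_lit 130) (@Lb.g g8 (@Lb.g g10 (@Lb.g g11 (@Lb.r r353 (@Lb.r r663 (@Lb.r r328 (@Lb.r r134 (@Lb.d (nat_lit 41) (nat_lit 4) (nat_lit 18) (@Lb.t (@Lb.fm (nat_lit 9) t45)))))))))))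
noncomputable def l784 : Lb := (@Lb.d (nat_lit 2) (nat_lit 2) (nat_lit 130) (@Lb.g g8 (@Lb.g g9 (@Lb.g g10 (@Lb.g g11 (@Lb.r r427 (@Lb.r r420 (@Lb.r r102 (@Lb.r r97 (@Lb.r r36 (@Lb.d (nat_lit 9) (nat_lit 10) (nat_lit 17) (@Lb.fm (nat_lit 9) t356))))))))))))
noncomputable def l785 : Lb := (@Lb.d (nat_lit 0) (nat_lit 258) (nat_lit 130) (@Lb.g g9 (@Lb.g g10 (@Lb.g g11 (@Lb.r r582 (@Lb.r r388 (@Lb.r r2667 (@Lb.r r2657 (@Lb.d (nat_lit 9) (nat_lit 96) (nat_lit 422) (@Lb.t (@Lb.fm (nat_lit 9) t44)))))))))))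
noncomputable def l786 : Lb := (@Lb.r r323 (@Lb.d (nat_lit 16) (nat_lit 297) (nat_lit 1) (@Lb.g g9 (@Lb.g g10 (@Lb.r r1303 (@Lb.r r2596 (@Lb.r r2661 (@Lb.d (nat_lit 656) (nat_lit 97) (nat_lit 421) (@Lb.fp (nat_lit 3) t357)))))))))
noncomputable def l787 : Lb := (@Lb.d (nat_lit 8) (nat_lit 338) (nat_lit 389) (@Lb.r r8 (@Lb.r r579 (@Lb.r r1362 (@Lb.g g6 (@Lb.g g5 (@Lb.d (nat_lit 8) (nat_lit 1) (nat_lit 1) (@Lb.fm (nat_lit 3) t39))))))))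
noncomputable def l788 : Lb := (@Lb.d (nat_lit 8) (nat_lit 82) (nat_lit 389) (@Lb.r r8 (@Lb.r r579 (@Lb.r r1362 (@Lb.g g7 (@Lb.g g6 (@Lb.g g5 (@Lb.d (nat_lit 8) (nat_lit 1) (nat_lit 65) (@Lb.t (@Lb.fp (nat_lit 9) t39))))))))))
noncomputable def l789 : Lb := (@Lb.d (nat_lit 8) (nat_lit 594) (nat_lit 389) (@Lb.r r8 (@Lb.r r579 (@Lb.r r1362 (@Lb.g g7 (@Lb.g g6 (@Lb.g g5 (@Lb.d (nat_lit 8) (nat_lit 1) (nat_lit 134) (@Lb.t (@Lb.fp (nat_lit 9) t39))))))))))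
noncomputable def l790 : Lb := (@Lb.r r323 (@Lb.d (nat_lit 33) (nat_lit 258) (nat_lit 5) (@Lb.g g8 (@Lb.g g9 (@Lb.g g6 (@Lb.r r1643 (@Lb.r r1561 (@Lb.r r1540 (@Lb.d (nat_lit 393) (nat_lit 66) (nat_lit 641) (@Lb.t (@Lb.fm (nat_lit 9) t128)))))))))))
noncomputable def l791 : Lb := (@Lb.d (nat_lit 1) (nat_lit 416) (nat_lit 6) (@Lb.r r359 (@Lb.r r421 (@Lb.r r106 (@Lb.r r72 (@Lb.g g7 (@Lb.g g6 (@Lb.g g5 (@Lb.d (nat_lit 84) (nat_lit 0) (nat_lit 65) (@Lb.t (@Lb.fp (nat_lit 9) t5)))))))))))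
noncomputable def l792 : Lb := (@Lb.d (nat_lit 6) (nat_lit 144) (nat_lit 601) (@Lb.r r2657 (@Lb.r r2667 (@Lb.r r580 (@Lb.r r330 (@Lb.g g7 (@Lb.g g6 (@Lb.g g5 (@Lb.d (nat_lit 0) (nat_lit 1) (nat_lit 65) (@Lb.t (@Lb.fp (nat_lit 9) t133)))))))))))
noncomputable def l793 : Lb := (@Lb.r r81 (@Lb.d (nat_lit 128) (nat_lit 512) (nat_lit 130) (@Lb.g g6 (@Lb.g g11 (@Lb.r r533 (@Lb.r r292 (@Lb.r r411 (@Lb.d (nat_lit 129) (nat_lit 80) (nat_lit 137) (@Lb.fp (nat_lit 3) t358)))))))))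
noncomputable def l794 : Lb := (@Lb.r r275 (@Lb.d (nat_lit 0) (nat_lit 289) (nat_lit 0) (@Lb.g g9 (@Lb.g g10 (@Lb.r r2707 (@Lb.r r1414 (@Lb.r r2392 (@Lb.r r1573 (@Lb.d (nat_lit 394) (nat_lit 128) (nat_lit 64) (@Lb.fm (nat_lit 3) t43))))))))))
noncomputable def l795 : Lb := (@Lb.d (nat_lit 2) (nat_lit 4) (nat_lit 105) (@Lb.g g8 (@Lb.g g9 (@Lb.g g6 (@Lb.g g11 (@Lb.r r579 (@Lb.r r1313 (@Lb.r r24 (@Lb.d (nat_lit 10) (nat_lit 161) (nat_lit 90) (@Lb.fp (nat_lit 9) t359))))))))))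
noncomputable def l796 : Lb := (@Lb.r r323 (@Lb.d (nat_lit 2) (nat_lit 258) (nat_lit 1) (@Lb.g g8 (@Lb.g g9 (@Lb.g g6 (@Lb.r r387 (@Lb.r r97 (@Lb.d (nat_lit 9) (nat_lit 137) (nat_lit 2) (@Lb.t (@Lb.fm (nat_lit 9) t360))))))))))
noncomputable def l797 : Lb := (@Lb.r r323 (@Lb.d (nat_lit 0) (nat_lit 514) (nat_lit 1) (@Lb.g g8 (@Lb.g g9 (@Lb.g g6 (@Lb.r r387 (@Lb.r r97 (@Lb.d (nat_lit 2) (nat_lit 138) (nat_lit 2) (@Lb.t (@Lb.fm (nat_lit 9) t126))))))))))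
noncomputable def l798 : Lb := (@Lb.d (nat_lit 298) (nat_lit 329) (nat_lit 17) (@Lb.r r289 (@Lb.r r1626 (@Lb.r r1384 (@Lb.r r2711 (@Lb.g g7 (@Lb.g g6 (@Lb.d (nat_lit 16) (nat_lit 0) (nat_lit 64) (@Lb.fp (nat_lit 3) t41)))))))))
noncomputable def l799 : Lb := (@Lb.d (nat_lit 296) (nat_lit 513) (nat_lit 32) (@Lb.r r1177 (@Lb.r r660 (@Lb.r r598 (@Lb.r r1703 (@Lb.g g7 (@Lb.g g6 (@Lb.g g5 (@Lb.d (nat_lit 0) (nat_lit 5) (nat_lit 66) (@Lb.t (@Lb.fm (nat_lit 9) t43)))))))))))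
noncomputable def l800 : Lb := (@Lb.d (nat_lit 0) (nat_lit 520) (nat_lit 601) (@Lb.r r1441 (@Lb.r r1687 (@Lb.r r1288 (@Lb.g g6 (@Lb.g g5 (@Lb.d (nat_lit 4) (nat_lit 9) (nat_lit 18) (@Lb.r r403 (@Lb.fp (nat_lit 3) t361)))))))))
noncomputable def l801 : Lb := (@Lb.d (nat_lit 2) (nat_lit 8) (nat_lit 130) (@Lb.g g8 (@Lb.g g9 (@Lb.g g10 (@Lb.g g11 (@Lb.r r516 (@Lb.r r263 (@Lb.r r2666 (@Lb.r r2649 (@Lb.r r516 (@Lb.d (nat_lit 41) (nat_lit 133) (nat_lit 161) (@Lb.fp (nat_lit 9) t362))))))))))))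
noncomputable def l802 : Lb := (@Lb.d (nat_lit 128) (nat_lit 520) (nat_lit 130) (@Lb.g g9 (@Lb.g g10 (@Lb.g g11 (@Lb.r r264 (@Lb.r r519 (@Lb.r r2154 (@Lb.r r2137 (@Lb.d (nat_lit 169) (nat_lit 133) (nat_lit 97) (@Lb.t (@Lb.fm (nat_lit 9) t362)))))))))))
noncomputable def l803 : Lb := (@Lb.r r82 (@Lb.r r275 (@Lb.d (nat_lit 2) (nat_lit 649) (nat_lit 0) (@Lb.g g8 (@Lb.g g5 (@Lb.r r291 (@Lb.r r98 (@Lb.r r24 (@Lb.d (nat_lit 10) (nat_lit 69) (nat_lit 0) (@Lb.fm (nat_lit 3) t363))))))))))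
noncomputable def l804 : Lb := (@Lb.r r82 (@Lb.d (nat_lit 645) (nat_lit 8) (nat_lit 128) (@Lb.g g4 (@Lb.g g9 (@Lb.g g11 (@Lb.r r1370 (@Lb.r r1411 (@Lb.r r1553 (@Lb.d (nat_lit 353) (nat_lit 100) (nat_lit 344) (@Lb.t (@Lb.fp (nat_lit 9) t364)))))))))))
noncomputable def l805 : Lb := (@Lb.r r82 (@Lb.r r275 (@Lb.d (nat_lit 34) (nat_lit 386) (nat_lit 0) (@Lb.g g8 (@Lb.g g5 (@Lb.r r2579 (@Lb.r r582 (@Lb.r r388 (@Lb.d (nat_lit 100) (nat_lit 80) (nat_lit 10) (@Lb.fm (nat_lit 3) t365))))))))))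
noncomputable def l806 : Lb := (@Lb.d (nat_lit 293) (nat_lit 298) (nat_lit 278) (@Lb.r r289 (@Lb.r r1626 (@Lb.r r1384 (@Lb.r r2711 (@Lb.g g7 (@Lb.g g6 (@Lb.d (nat_lit 16) (nat_lit 0) (nat_lit 64) (@Lb.fp (nat_lit 3) t366)))))))))
noncomputable def l807 : Lb := (@Lb.r r81 (@Lb.d (nat_lit 160) (nat_lit 32) (nat_lit 161) (@Lb.g g6 (@Lb.g g11 (@Lb.r r2345 (@Lb.r r2340 (@Lb.r r1435 (@Lb.d (nat_lit 26) (nat_lit 90) (nat_lit 358) (@Lb.fm (nat_lit 3) t367)))))))))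
noncomputable def l808 : Lb := (@Lb.d (nat_lit 9) (nat_lit 1) (nat_lit 66) (@Lb.g g8 (@Lb.g g9 (@Lb.g g10 (@Lb.g g7 (@Lb.r r386 (@Lb.r r97 (@Lb.r r24 (@Lb.d (nat_lit 10) (nat_lit 9) (nat_lit 9) (@Lb.fp (nat_lit 9) t40))))))))))
noncomputable def l809 : Lb := (@Lb.d (nat_lit 0) (nat_lit 256) (nat_lit 136) (@Lb.g g11 (@Lb.r r2370 (@Lb.r r1683 (@Lb.d (nat_lit 0) (nat_lit 64) (nat_lit 162) (@Lb.t (@Lb.fm (nat_lit 3) t368)))))))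
noncomputable def l810 : Lb := (@Lb.d (nat_lit 0) (nat_lit 8) (nat_lit 130) (@Lb.g g10 (@Lb.g g11 (@Lb.r r387 (@Lb.d (nat_lit 0) (nat_lit 2) (nat_lit 9) (@Lb.fm (nat_lit 3) t369))))))
noncomputable def l811 : Lb := (@Lb.d (nat_lit 42) (nat_lit 90) (nat_lit 577) (@Lb.r r169 (@Lb.r r1642 (@Lb.r r1623 (@Lb.g g6 (@Lb.g g5 (@Lb.g g4 (@Lb.d (nat_lit 1) (nat_lit 17) (nat_lit 1) (@Lb.t (@Lb.fp (nat_lit 9) t370))))))))))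
noncomputable def l812 : Lb := (@Lb.d (nat_lit 0) (nat_lit 162) (nat_lit 261) (@Lb.g g11 (@Lb.t (@Lb.fp (nat_lit 3) t371))))
noncomputable def l813 : Lb := (@Lb.d (nat_lit 10) (nat_lit 105) (nat_lit 278) (@Lb.r r97 (@Lb.r r1106 (@Lb.r r1299 (@Lb.g g5 (@Lb.d (nat_lit 0) (nat_lit 1) (nat_lit 0) (@Lb.t (@Lb.fp (nat_lit 3) t372))))))))
noncomputable def l814 : Lb := (@Lb.d (nat_lit 0) (nat_lit 674) (nat_lit 261) (@Lb.fp (nat_lit 1) t373))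
noncomputable def l815 : Lb := (@Lb.d (nat_lit 2) (nat_lit 0) (nat_lit 0) (@Lb.g g4 (@Lb.d (nat_lit 1) (nat_lit 0) (nat_lit 0) (@Lb.t (@Lb.fm (nat_lit 3) t2)))))
noncomputable def l816 : Lb := (@Lb.d (nat_lit 8) (nat_lit 257) (nat_lit 0) (@Lb.g g9 (@Lb.r r2068 (@Lb.r r25 (@Lb.d (nat_lit 521) (nat_lit 129) (nat_lit 0) (@Lb.t (@Lb.fp (nat_lit 3) t2)))))))
noncomputable def l817 : Lb := (@Lb.d (nat_lit 8) (nat_lit 514) (nat_lit 0) (@Lb.g g9 (@Lb.r r20 (@Lb.r r2073 (@Lb.d (nat_lit 10) (nat_lit 65) (nat_lit 0) (@Lb.t (@Lb.fp (nat_lit 3) t2)))))))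
noncomputable def l818 : Lb := (@Lb.d (nat_lit 130) (nat_lit 256) (nat_lit 0) (@Lb.g g8 (@Lb.r r263 (@Lb.r r1170 (@Lb.r r2145 (@Lb.r r520 (@Lb.d (nat_lit 66) (nat_lit 128) (nat_lit 128) (@Lb.t (@Lb.fm (nat_lit 3) t334)))))))))
noncomputable def l819 : Lb := (@Lb.d (nat_lit 25) (nat_lit 512) (nat_lit 74) (@Lb.g g8 (@Lb.g g10 (@Lb.g g11 (@Lb.r r1691 (@Lb.r r1602 (@Lb.r r21 (@Lb.r r2084 (@Lb.d (nat_lit 522) (nat_lit 26) (nat_lit 665) (@Lb.t (@Lb.fp (nat_lit 9) t50)))))))))))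
noncomputable def l820 : Lb := (@Lb.d (nat_lit 1) (nat_lit 258) (nat_lit 66) (@Lb.g g8 (@Lb.g g9 (@Lb.g g10 (@Lb.g g11 (@Lb.r r427 (@Lb.r r106 (@Lb.r r25 (@Lb.d (nat_lit 0) (nat_lit 73) (nat_lit 137) (@Lb.fp (nat_lit 9) t51))))))))))
noncomputable def l821 : Lb := (@Lb.d (nat_lit 1) (nat_lit 514) (nat_lit 130) (@Lb.g g8 (@Lb.g g9 (@Lb.g g10 (@Lb.g g11 (@Lb.r r427 (@Lb.r r106 (@Lb.r r25 (@Lb.d (nat_lit 0) (nat_lit 73) (nat_lit 2) (@Lb.fp (nat_lit 9) t51))))))))))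
noncomputable def l822 : Lb := (@Lb.r r263 (@Lb.d (nat_lit 25) (nat_lit 0) (nat_lit 0) (@Lb.g g8 (@Lb.g g10 (@Lb.r r597 (@Lb.r r1555 (@Lb.r r1602 (@Lb.r r2180 (@Lb.d (nat_lit 546) (nat_lit 10) (nat_lit 657) (@Lb.fp (nat_lit 3) t50))))))))))
noncomputable def l823 : Lb := (@Lb.d (nat_lit 25) (nat_lit 0) (nat_lit 128) (@Lb.g g8 (@Lb.g g10 (@Lb.g g11 (@Lb.r r1691 (@Lb.r r1602 (@Lb.r r21 (@Lb.r r2084 (@Lb.d (nat_lit 522) (nat_lit 16) (nat_lit 666) (@Lb.t (@Lb.fp (nat_lit 9) t50)))))))))))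
noncomputable def l824 : Lb := (@Lb.d (nat_lit 9) (nat_lit 549) (nat_lit 0) (@Lb.g g8 (@Lb.g g5 (@Lb.r r363 (@Lb.r r328 (@Lb.r r134 (@Lb.d (nat_lit 512) (nat_lit 1) (nat_lit 145) (@Lb.fp (nat_lit 3) t40))))))))
noncomputable def l825 : Lb := (@Lb.r r323 (@Lb.d (nat_lit 1) (nat_lit 514) (nat_lit 2) (@Lb.g g8 (@Lb.g g9 (@Lb.g g10 (@Lb.r r362 (@Lb.r r387 (@Lb.r r25 (@Lb.d (nat_lit 0) (nat_lit 97) (nat_lit 74) (@Lb.t (@Lb.fm (nat_lit 9) t51)))))))))))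
noncomputable def l826 : Lb := (@Lb.r r2073 (@Lb.d (nat_lit 258) (nat_lit 512) (nat_lit 0) (@Lb.fp (nat_lit 1) t2)))
noncomputable def l827 : Lb := (@Lb.d (nat_lit 2) (nat_lit 256) (nat_lit 0) (@Lb.g g8 (@Lb.d (nat_lit 1) (nat_lit 0) (nat_lit 0) (@Lb.t (@Lb.fp (nat_lit 3) t2)))))
noncomputable def l828 : Lb := (@Lb.d (nat_lit 0) (nat_lit 5) (nat_lit 0) (@Lb.g g5 (@Lb.d (nat_lit 548) (nat_lit 6) (nat_lit 17) (@Lb.t (@Lb.fm (nat_lit 3) t126)))))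
noncomputable def l829 : Lb := (@Lb.d (nat_lit 9) (nat_lit 256) (nat_lit 0) (@Lb.g g8 (@Lb.d (nat_lit 10) (nat_lit 130) (nat_lit 0) (@Lb.t (@Lb.fp (nat_lit 3) t2)))))
noncomputable def l830 : Lb := (@Lb.d (nat_lit 8) (nat_lit 2) (nat_lit 73) (@Lb.g g9 (@Lb.g g10 (@Lb.g g11 (@Lb.r r2658 (@Lb.r r579 (@Lb.d (nat_lit 2) (nat_lit 97) (nat_lit 586) (@Lb.t (@Lb.fp (nat_lit 9) t51)))))))))
noncomputable def l831 : Lb := (@Lb.d (nat_lit 8) (nat_lit 258) (nat_lit 130) (@Lb.g g9 (@Lb.g g10 (@Lb.g g11 (@Lb.r r2658 (@Lb.r r579 (@Lb.d (nat_lit 2) (nat_lit 97) (nat_lit 640) (@Lb.t (@Lb.fp (nat_lit 9) t51)))))))))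
noncomputable def l832 : Lb := (@Lb.r r134 (@Lb.r r324 (@Lb.r r539 (@Lb.r r289 (@Lb.r r36 (@Lb.d (nat_lit 0) (nat_lit 401) (nat_lit 522) (@Lb.fm (nat_lit 1) t51)))))))
noncomputable def l833 : Lb := (@Lb.d (nat_lit 32) (nat_lit 520) (nat_lit 128) (@Lb.g g10 (@Lb.g g11 (@Lb.r r407 (@Lb.r r616 (@Lb.r r2665 (@Lb.r r2390 (@Lb.d (nat_lit 598) (nat_lit 150) (nat_lit 294) (@Lb.fm (nat_lit 3) t322)))))))))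
noncomputable def l834 : Lb := (@Lb.d (nat_lit 0) (nat_lit 296) (nat_lit 68) (@Lb.r r322 (@Lb.r r659 (@Lb.g g7 (@Lb.g g6 (@Lb.g g9 (@Lb.g g4 (@Lb.d (nat_lit 0) (nat_lit 10) (nat_lit 133) (@Lb.fp (nat_lit 9) t374)))))))))
noncomputable def l835 : Lb := (@Lb.d (nat_lit 1) (nat_lit 552) (nat_lit 68) (@Lb.r r322 (@Lb.r r659 (@Lb.g g7 (@Lb.g g6 (@Lb.g g9 (@Lb.g g4 (@Lb.d (nat_lit 1) (nat_lit 10) (nat_lit 133) (@Lb.fp (nat_lit 9) t374)))))))))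
noncomputable def l836 : Lb := (@Lb.d (nat_lit 550) (nat_lit 5) (nat_lit 34) (@Lb.r r1109 (@Lb.r r1367 (@Lb.g g6 (@Lb.g g5 (@Lb.g g4 (@Lb.d (nat_lit 1) (nat_lit 1) (nat_lit 0) (@Lb.r r291 (@Lb.t (@Lb.fp (nat_lit 9) t375))))))))))
noncomputable def l837 : Lb := (@Lb.d (nat_lit 8) (nat_lit 294) (nat_lit 128) (@Lb.g g9 (@Lb.g g10 (@Lb.g g11 (@Lb.r r387 (@Lb.r r386 (@Lb.r r2328 (@Lb.r r2581 (@Lb.d (nat_lit 676) (nat_lit 162) (nat_lit 417) (@Lb.t (@Lb.fm (nat_lit 9) t376)))))))))))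
noncomputable def l838 : Lb := (@Lb.d (nat_lit 32) (nat_lit 0) (nat_lit 128) (@Lb.g g10 (@Lb.g g11 (@Lb.r r2711 (@Lb.r r1384 (@Lb.r r2406 (@Lb.r r289 (@Lb.d (nat_lit 533) (nat_lit 20) (nat_lit 553) (@Lb.fp (nat_lit 3) t51)))))))))
noncomputable def l839 : Lb := (@Lb.d (nat_lit 0) (nat_lit 512) (nat_lit 170) (@Lb.r r323 (@Lb.g g10 (@Lb.d (nat_lit 0) (nat_lit 0) (nat_lit 22) (@Lb.r r387 (@Lb.t (@Lb.fp (nat_lit 3) t2)))))))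
noncomputable def l840 : Lb := (@Lb.r r323 (@Lb.d (nat_lit 137) (nat_lit 290) (nat_lit 10) (@Lb.g g8 (@Lb.g g9 (@Lb.g g10 (@Lb.r r1299 (@Lb.r r2657 (@Lb.r r598 (@Lb.r r408 (@Lb.d (nat_lit 281) (nat_lit 10) (nat_lit 330) (@Lb.t (@Lb.fm (nat_lit 9) t2))))))))))))
noncomputable def l841 : Lb := (@Lb.d (nat_lit 32) (nat_lit 256) (nat_lit 128) (@Lb.g g10 (@Lb.g g11 (@Lb.r r2711 (@Lb.r r1384 (@Lb.r r2406 (@Lb.r r289 (@Lb.d (nat_lit 536) (nat_lit 21) (nat_lit 553) (@Lb.fp (nat_lit 3) t51)))))))))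
noncomputable def l842 : Lb := (@Lb.r r323 (@Lb.d (nat_lit 16) (nat_lit 256) (nat_lit 34) (@Lb.g g6 (@Lb.r r584 (@Lb.r r299 (@Lb.r r289 (@Lb.d (nat_lit 2) (nat_lit 82) (nat_lit 520) (@Lb.t (@Lb.fm (nat_lit 3) t51)))))))))
noncomputable def l843 : Lb := (@Lb.r r20 (@Lb.d (nat_lit 0) (nat_lit 133) (nat_lit 74) (@Lb.g g5 (@Lb.g g10 (@Lb.g g11 (@Lb.r r1687 (@Lb.r r1606 (@Lb.r r8 (@Lb.d (nat_lit 102) (nat_lit 148) (nat_lit 664) (@Lb.t (@Lb.fp (nat_lit 9) t50)))))))))))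
noncomputable def l844 : Lb := (@Lb.d (nat_lit 9) (nat_lit 516) (nat_lit 74) (@Lb.g g8 (@Lb.g g9 (@Lb.g g10 (@Lb.g g11 (@Lb.r r2691 (@Lb.r r1450 (@Lb.r r289 (@Lb.r r24 (@Lb.d (nat_lit 138) (nat_lit 33) (nat_lit 168) (@Lb.fp (nat_lit 9) t377)))))))))))
noncomputable def l845 : Lb := (@Lb.r r323 (@Lb.d (nat_lit 8) (nat_lit 258) (nat_lit 1) (@Lb.g g8 (@Lb.g g9 (@Lb.g g6 (@Lb.r r387 (@Lb.r r2145 (@Lb.r r24 (@Lb.d (nat_lit 10) (nat_lit 73) (nat_lit 34) (@Lb.t (@Lb.fp (nat_lit 9) t40)))))))))))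
noncomputable def l846 : Lb := (@Lb.r r322 (@Lb.d (nat_lit 9) (nat_lit 16) (nat_lit 648) (@Lb.g g8 (@Lb.g g9 (@Lb.g g7 (@Lb.r r2730 (@Lb.r r1109 (@Lb.r r24 (@Lb.d (nat_lit 512) (nat_lit 137) (nat_lit 132) (@Lb.t (@Lb.fp (nat_lit 9) t378)))))))))))
noncomputable def l847 : Lb := (@Lb.r r82 (@Lb.r r275 (@Lb.d (nat_lit 10) (nat_lit 256) (nat_lit 0) (@Lb.g g4 (@Lb.g g9 (@Lb.r r291 (@Lb.r r98 (@Lb.d (nat_lit 0) (nat_lit 2) (nat_lit 0) (@Lb.fp (nat_lit 3) t5)))))))))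
noncomputable def l848 : Lb := (@Lb.d (nat_lit 9) (nat_lit 256) (nat_lit 128) (@Lb.g g8 (@Lb.g g11 (@Lb.r r545 (@Lb.r r299 (@Lb.r r328 (@Lb.r r134 (@Lb.d (nat_lit 0) (nat_lit 5) (nat_lit 145) (@Lb.fp (nat_lit 3) t40)))))))))
noncomputable def l849 : Lb := (@Lb.d (nat_lit 9) (nat_lit 512) (nat_lit 128) (@Lb.g g8 (@Lb.g g10 (@Lb.g g11 (@Lb.r r545 (@Lb.r r299 (@Lb.r r328 (@Lb.r r134 (@Lb.d (nat_lit 2) (nat_lit 136) (nat_lit 129) (@Lb.t (@Lb.fp (nat_lit 9) t253)))))))))))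
noncomputable def l850 : Lb := (@Lb.d (nat_lit 9) (nat_lit 2) (nat_lit 130) (@Lb.g g8 (@Lb.g g9 (@Lb.g g10 (@Lb.g g11 (@Lb.r r2601 (@Lb.r r299 (@Lb.r r388 (@Lb.r r70 (@Lb.r r132 (@Lb.d (nat_lit 25) (nat_lit 138) (nat_lit 361) (@Lb.fm (nat_lit 9) t126))))))))))))
noncomputable def l851 : Lb := (@Lb.d (nat_lit 70) (nat_lit 545) (nat_lit 66) (@Lb.g g8 (@Lb.g g9 (@Lb.g g10 (@Lb.g g11 (@Lb.r r1451 (@Lb.r r1642 (@Lb.r r1561 (@Lb.r r1284 (@Lb.d (nat_lit 265) (nat_lit 20) (nat_lit 580) (@Lb.fp (nat_lit 9) t43)))))))))))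
noncomputable def l852 : Lb := (@Lb.d (nat_lit 9) (nat_lit 2) (nat_lit 2) (@Lb.g g8 (@Lb.g g9 (@Lb.g g10 (@Lb.g g11 (@Lb.r r682 (@Lb.r r676 (@Lb.r r551 (@Lb.r r1557 (@Lb.r r36 (@Lb.d (nat_lit 388) (nat_lit 64) (nat_lit 586) (@Lb.fp (nat_lit 9) t284))))))))))))
noncomputable def l853 : Lb := (@Lb.d (nat_lit 0) (nat_lit 517) (nat_lit 32) (@Lb.fp (nat_lit 1) t45))
noncomputable def l854 : Lb := (@Lb.d (nat_lit 2) (nat_lit 2) (nat_lit 130) (@Lb.g g8 (@Lb.g g9 (@Lb.g g10 (@Lb.g g11 (@Lb.r r2691 (@Lb.r r297 (@Lb.r r360 (@Lb.r r582 (@Lb.r r2180 (@Lb.d (nat_lit 645) (nat_lit 74) (nat_lit 329) (@Lb.fm (nat_lit 9) t379))))))))))))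
noncomputable def l855 : Lb := (@Lb.r r322 (@Lb.d (nat_lit 34) (nat_lit 258) (nat_lit 576) (@Lb.g g8 (@Lb.g g9 (@Lb.g g7 (@Lb.r r361 (@Lb.r r150 (@Lb.r r84 (@Lb.d (nat_lit 661) (nat_lit 150) (nat_lit 9) (@Lb.t (@Lb.fp (nat_lit 9) t380)))))))))))
noncomputable def l856 : Lb := (@Lb.r r260 (@Lb.r r273 (@Lb.g g6 (@Lb.g g11 (@Lb.r r402 (@Lb.r r1635 (@Lb.r r101 (@Lb.r r1048 (@Lb.p (nat_lit 2) (@Lb.fp (nat_lit 3) t4))))))))))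
noncomputable def l857 : Lb := (@Lb.d (nat_lit 10) (nat_lit 9) (nat_lit 66) (@Lb.r r134 (@Lb.r r328 (@Lb.r r279 (@Lb.r r545 (@Lb.g g7 (@Lb.g g5 (@Lb.g g4 (@Lb.d (nat_lit 6) (nat_lit 1) (nat_lit 64) (@Lb.t (@Lb.fm (nat_lit 9) t381)))))))))))
noncomputable def l858 : Lb := (@Lb.d (nat_lit 546) (nat_lit 517) (nat_lit 16) (@Lb.fp (nat_lit 1) t382))
noncomputable def l859 : Lb := (@Lb.r r82 (@Lb.r r275 (@Lb.d (nat_lit 9) (nat_lit 0) (nat_lit 0) (@Lb.g g8 (@Lb.g g5 (@Lb.r r291 (@Lb.r r98 (@Lb.r r24 (@Lb.d (nat_lit 10) (nat_lit 2) (nat_lit 0) (@Lb.fm (nat_lit 3) t68))))))))))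
noncomputable def l860 : Lb := (@Lb.d (nat_lit 10) (nat_lit 521) (nat_lit 66) (@Lb.r r134 (@Lb.r r328 (@Lb.r r279 (@Lb.r r545 (@Lb.g g7 (@Lb.g g5 (@Lb.g g4 (@Lb.d (nat_lit 6) (nat_lit 1) (nat_lit 128) (@Lb.t (@Lb.fm (nat_lit 9) t238)))))))))))
noncomputable def l861 : Lb := (@Lb.d (nat_lit 390) (nat_lit 404) (nat_lit 645) (@Lb.r r2321 (@Lb.r r2371 (@Lb.r r2726 (@Lb.g g7 (@Lb.g g6 (@Lb.g g5 (@Lb.g g8 (@Lb.d (nat_lit 330) (nat_lit 5) (nat_lit 66) (@Lb.fp (nat_lit 9) t383))))))))))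
noncomputable def l862 : Lb := (@Lb.d (nat_lit 2) (nat_lit 258) (nat_lit 130) (@Lb.g g8 (@Lb.g g9 (@Lb.g g10 (@Lb.g g11 (@Lb.r r162 (@Lb.r r552 (@Lb.r r665 (@Lb.r r539 (@Lb.r r516 (@Lb.d (nat_lit 10) (nat_lit 73) (nat_lit 73) (@Lb.fm (nat_lit 9) t384))))))))))))
noncomputable def l863 : Lb := (@Lb.d (nat_lit 2) (nat_lit 2) (nat_lit 130) (@Lb.g g8 (@Lb.g g9 (@Lb.g g10 (@Lb.g g11 (@Lb.r r2691 (@Lb.r r297 (@Lb.r r328 (@Lb.r r614 (@Lb.r r2180 (@Lb.d (nat_lit 649) (nat_lit 90) (nat_lit 329) (@Lb.fm (nat_lit 9) t385))))))))))))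
noncomputable def l864 : Lb := (@Lb.d (nat_lit 9) (nat_lit 544) (nat_lit 64) (@Lb.g g8 (@Lb.g g11 (@Lb.r r1109 (@Lb.r r2340 (@Lb.r r267 (@Lb.r r2178 (@Lb.d (nat_lit 674) (nat_lit 98) (nat_lit 577) (@Lb.fp (nat_lit 3) t296)))))))))
noncomputable def l865 : Lb := (@Lb.d (nat_lit 1) (nat_lit 258) (nat_lit 130) (@Lb.g g8 (@Lb.g g9 (@Lb.g g10 (@Lb.g g11 (@Lb.r r2411 (@Lb.r r386 (@Lb.r r97 (@Lb.r r24 (@Lb.d (nat_lit 256) (nat_lit 0) (nat_lit 84) (@Lb.fm (nat_lit 9) t61)))))))))))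
noncomputable def l866 : Lb := (@Lb.d (nat_lit 9) (nat_lit 256) (nat_lit 72) (@Lb.g g8 (@Lb.g g10 (@Lb.g g11 (@Lb.r r1347 (@Lb.r r2453 (@Lb.r r2706 (@Lb.r r2436 (@Lb.d (nat_lit 610) (nat_lit 10) (nat_lit 641) (@Lb.t (@Lb.fp (nat_lit 9) t311)))))))))))
noncomputable def l867 : Lb := (@Lb.d (nat_lit 9) (nat_lit 0) (nat_lit 73) (@Lb.g g8 (@Lb.g g10 (@Lb.g g11 (@Lb.r r2691 (@Lb.r r1109 (@Lb.r r2658 (@Lb.r r2436 (@Lb.d (nat_lit 610) (nat_lit 160) (nat_lit 662) (@Lb.t (@Lb.fp (nat_lit 9) t311)))))))))))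
noncomputable def l868 : Lb := (@Lb.d (nat_lit 42) (nat_lit 256) (nat_lit 0) (@Lb.g g8 (@Lb.r r2395 (@Lb.r r614 (@Lb.r r1637 (@Lb.r r1428 (@Lb.d (nat_lit 358) (nat_lit 90) (nat_lit 290) (@Lb.t (@Lb.fm (nat_lit 3) t386)))))))))
noncomputable def l869 : Lb := (@Lb.r r82 (@Lb.d (nat_lit 41) (nat_lit 32) (nat_lit 64) (@Lb.g g8 (@Lb.g g9 (@Lb.g g11 (@Lb.r r1571 (@Lb.r r582 (@Lb.r r273 (@Lb.r r2180 (@Lb.d (nat_lit 546) (nat_lit 96) (nat_lit 402) (@Lb.t (@Lb.fp (nat_lit 9) t68))))))))))))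
noncomputable def l870 : Lb := (@Lb.d (nat_lit 32) (nat_lit 8) (nat_lit 128) (@Lb.g g10 (@Lb.g g11 (@Lb.r r407 (@Lb.r r616 (@Lb.r r2665 (@Lb.r r2390 (@Lb.d (nat_lit 597) (nat_lit 150) (nat_lit 294) (@Lb.fm (nat_lit 3) t322)))))))))
noncomputable def l871 : Lb := (@Lb.r r323 (@Lb.d (nat_lit 9) (nat_lit 514) (nat_lit 1) (@Lb.g g8 (@Lb.g g9 (@Lb.g g6 (@Lb.r r387 (@Lb.r r2145 (@Lb.r r24 (@Lb.d (nat_lit 8) (nat_lit 73) (nat_lit 34) (@Lb.t (@Lb.fp (nat_lit 9) t167)))))))))))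
noncomputable def l872 : Lb := (@Lb.d (nat_lit 129) (nat_lit 272) (nat_lit 2) (@Lb.g g8 (@Lb.g g9 (@Lb.g g10 (@Lb.g g11 (@Lb.r r683 (@Lb.r r1642 (@Lb.r r1561 (@Lb.r r516 (@Lb.d (nat_lit 649) (nat_lit 73) (nat_lit 145) (@Lb.fm (nat_lit 9) t47)))))))))))
noncomputable def l873 : Lb := (@Lb.r r20 (@Lb.r r82 (@Lb.d (nat_lit 0) (nat_lit 100) (nat_lit 128) (@Lb.g g5 (@Lb.g g11 (@Lb.r r658 (@Lb.r r1419 (@Lb.r r8 (@Lb.d (nat_lit 417) (nat_lit 1) (nat_lit 106) (@Lb.fp (nat_lit 3) t50))))))))))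
noncomputable def l874 : Lb := (@Lb.r r323 (@Lb.d (nat_lit 1) (nat_lit 2) (nat_lit 0) (@Lb.g g8 (@Lb.g g9 (@Lb.g g10 (@Lb.r r427 (@Lb.r r106 (@Lb.r r25 (@Lb.d (nat_lit 9) (nat_lit 72) (nat_lit 2) (@Lb.t (@Lb.fm (nat_lit 9) t51)))))))))))
noncomputable def l875 : Lb := (@Lb.r r323 (@Lb.d (nat_lit 10) (nat_lit 2) (nat_lit 0) (@Lb.g g4 (@Lb.g g9 (@Lb.g g10 (@Lb.r r419 (@Lb.r r98 (@Lb.d (nat_lit 0) (nat_lit 9) (nat_lit 2) (@Lb.t (@Lb.fp (nat_lit 9) t51))))))))))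
noncomputable def l876 : Lb := (@Lb.d (nat_lit 514) (nat_lit 256) (nat_lit 80) (@Lb.r r154 (@Lb.r r660 (@Lb.r r663 (@Lb.r r353 (@Lb.g g7 (@Lb.g g4 (@Lb.d (nat_lit 6) (nat_lit 0) (nat_lit 128) (@Lb.fp (nat_lit 3) t334)))))))))
noncomputable def l877 : Lb := (@Lb.d (nat_lit 2) (nat_lit 2) (nat_lit 130) (@Lb.g g8 (@Lb.g g9 (@Lb.g g10 (@Lb.g g11 (@Lb.r r427 (@Lb.r r386 (@Lb.r r97 (@Lb.r r24 (@Lb.d (nat_lit 617) (nat_lit 9) (nat_lit 86) (@Lb.fm (nat_lit 9) t61)))))))))))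
noncomputable def l878 : Lb := (@Lb.d (nat_lit 0) (nat_lit 266) (nat_lit 128) (@Lb.g g9 (@Lb.g g11 (@Lb.r r86 (@Lb.r r680 (@Lb.r r427 (@Lb.r r417 (@Lb.d (nat_lit 8) (nat_lit 133) (nat_lit 326) (@Lb.fm (nat_lit 3) t210)))))))))
noncomputable def l879 : Lb := (@Lb.r r323 (@Lb.d (nat_lit 2) (nat_lit 256) (nat_lit 1) (@Lb.g g8 (@Lb.g g9 (@Lb.g g6 (@Lb.r r387 (@Lb.r r2145 (@Lb.r r24 (@Lb.d (nat_lit 8) (nat_lit 73) (nat_lit 34) (@Lb.t (@Lb.fp (nat_lit 9) t167)))))))))))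
noncomputable def l880 : Lb := (@Lb.d (nat_lit 2) (nat_lit 520) (nat_lit 130) (@Lb.g g8 (@Lb.g g10 (@Lb.g g11 (@Lb.r r2443 (@Lb.r r2345 (@Lb.r r2468 (@Lb.r r2438 (@Lb.d (nat_lit 610) (nat_lit 137) (nat_lit 536) (@Lb.t (@Lb.fm (nat_lit 9) t349)))))))))))
noncomputable def l881 : Lb := (@Lb.d (nat_lit 0) (nat_lit 258) (nat_lit 130) (@Lb.g g8 (@Lb.g g9 (@Lb.g g10 (@Lb.g g11 (@Lb.r r586 (@Lb.r r600 (@Lb.r r293 (@Lb.r r539 (@Lb.r r516 (@Lb.d (nat_lit 2) (nat_lit 130) (nat_lit 640) (@Lb.fm (nat_lit 9) t387))))))))))))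
noncomputable def l882 : Lb := (@Lb.r r323 (@Lb.d (nat_lit 0) (nat_lit 2) (nat_lit 1) (@Lb.g g8 (@Lb.g g9 (@Lb.g g6 (@Lb.r r387 (@Lb.r r97 (@Lb.d (nat_lit 0) (nat_lit 138) (nat_lit 66) (@Lb.t (@Lb.fm (nat_lit 9) t126))))))))))
noncomputable def l883 : Lb := (@Lb.d (nat_lit 0) (nat_lit 4) (nat_lit 105) (@Lb.g g8 (@Lb.g g9 (@Lb.g g6 (@Lb.g g11 (@Lb.r r579 (@Lb.r r1313 (@Lb.d (nat_lit 0) (nat_lit 98) (nat_lit 154) (@Lb.fm (nat_lit 9) t388)))))))))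
noncomputable def l884 : Lb := (@Lb.d (nat_lit 282) (nat_lit 389) (nat_lit 1) (@Lb.r r289 (@Lb.r r603 (@Lb.r r516 (@Lb.r r2698 (@Lb.g g7 (@Lb.d (nat_lit 64) (nat_lit 0) (nat_lit 128) (@Lb.t (@Lb.fp (nat_lit 3) t389)))))))))
noncomputable def l885 : Lb := (@Lb.r r323 (@Lb.d (nat_lit 137) (nat_lit 289) (nat_lit 0) (@Lb.g g8 (@Lb.g g9 (@Lb.g g10 (@Lb.r r275 (@Lb.r r657 (@Lb.r r410 (@Lb.r r408 (@Lb.d (nat_lit 20) (nat_lit 9) (nat_lit 10) (@Lb.t (@Lb.fm (nat_lit 9) t2))))))))))))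
noncomputable def l886 : Lb := (@Lb.d (nat_lit 2) (nat_lit 514) (nat_lit 130) (@Lb.g g8 (@Lb.g g9 (@Lb.g g10 (@Lb.g g11 (@Lb.r r2705 (@Lb.r r356 (@Lb.r r667 (@Lb.r r586 (@Lb.r r1540 (@Lb.d (nat_lit 289) (nat_lit 0) (nat_lit 162) (@Lb.fm (nat_lit 9) t145))))))))))))
noncomputable def l887 : Lb := (@Lb.d (nat_lit 130) (nat_lit 258) (nat_lit 2) (@Lb.g g8 (@Lb.g g9 (@Lb.g g10 (@Lb.r r263 (@Lb.r r2713 (@Lb.r r2712 (@Lb.r r2122 (@Lb.d (nat_lit 294) (nat_lit 38) (nat_lit 164) (@Lb.t (@Lb.fp (nat_lit 9) t145)))))))))))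
noncomputable def l888 : Lb := (@Lb.d (nat_lit 130) (nat_lit 514) (nat_lit 2) (@Lb.g g8 (@Lb.g g9 (@Lb.g g10 (@Lb.r r263 (@Lb.r r2713 (@Lb.r r2712 (@Lb.r r2122 (@Lb.d (nat_lit 289) (nat_lit 37) (nat_lit 164) (@Lb.t (@Lb.fp (nat_lit 9) t145)))))))))))
noncomputable def l889 : Lb := (@Lb.d (nat_lit 2) (nat_lit 2) (nat_lit 0) (@Lb.g g8 (@Lb.g g9 (@Lb.r r25 (@Lb.d (nat_lit 9) (nat_lit 0) (nat_lit 0) (@Lb.fm (nat_lit 3) t2))))))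
noncomputable def l890 : Lb := (@Lb.d (nat_lit 2) (nat_lit 512) (nat_lit 0) (@Lb.g g8 (@Lb.g g5 (@Lb.r r24 (@Lb.d (nat_lit 10) (nat_lit 0) (nat_lit 0) (@Lb.fm (nat_lit 3) t2))))))
noncomputable def l891 : Lb := (@Lb.d (nat_lit 0) (nat_lit 512) (nat_lit 137) (@Lb.g g10 (@Lb.g g11 (@Lb.r r2435 (@Lb.r r386 (@Lb.d (nat_lit 0) (nat_lit 0) (nat_lit 356) (@Lb.fp (nat_lit 3) t2)))))))
noncomputable def l892 : Lb := (@Lb.r r82 (@Lb.d (nat_lit 34) (nat_lit 514) (nat_lit 128) (@Lb.g g8 (@Lb.g g9 (@Lb.g g11 (@Lb.r r363 (@Lb.r r582 (@Lb.r r388 (@Lb.d (nat_lit 98) (nat_lit 8) (nat_lit 153) (@Lb.t (@Lb.fm (nat_lit 9) t390)))))))))))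
noncomputable def l893 : Lb := (@Lb.r r81 (@Lb.d (nat_lit 10) (nat_lit 544) (nat_lit 129) (@Lb.g g8 (@Lb.g g6 (@Lb.g g11 (@Lb.r r149 (@Lb.r r360 (@Lb.r r263 (@Lb.d (nat_lit 66) (nat_lit 42) (nat_lit 148) (@Lb.t (@Lb.fm (nat_lit 9) t150)))))))))))
noncomputable def l894 : Lb := (@Lb.d (nat_lit 8) (nat_lit 258) (nat_lit 66) (@Lb.g g8 (@Lb.g g9 (@Lb.g g10 (@Lb.g g11 (@Lb.r r660 (@Lb.r r2311 (@Lb.r r161 (@Lb.r r98 (@Lb.r r1540 (@Lb.d (nat_lit 2) (nat_lit 166) (nat_lit 664) (@Lb.fm (nat_lit 9) t391))))))))))))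
noncomputable def l895 : Lb := (@Lb.d (nat_lit 8) (nat_lit 34) (nat_lit 0) (@Lb.g g9 (@Lb.r r1627 (@Lb.r r1624 (@Lb.r r405 (@Lb.r r2114 (@Lb.d (nat_lit 357) (nat_lit 90) (nat_lit 660) (@Lb.t (@Lb.fp (nat_lit 3) t392)))))))))
noncomputable def l896 : Lb := (@Lb.d (nat_lit 4) (nat_lit 10) (nat_lit 129) (@Lb.g g8 (@Lb.g g9 (@Lb.g g10 (@Lb.g g11 (@Lb.r r169 (@Lb.r r2154 (@Lb.r r612 (@Lb.r r1287 (@Lb.r r2564 (@Lb.d (nat_lit 2) (nat_lit 90) (nat_lit 161) (@Lb.fm (nat_lit 9) t393))))))))))))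
noncomputable def l897 : Lb := (@Lb.d (nat_lit 0) (nat_lit 2) (nat_lit 2) (@Lb.g g9 (@Lb.g g10 (@Lb.g g7 (@Lb.r r386 (@Lb.r r97 (@Lb.d (nat_lit 5) (nat_lit 10) (nat_lit 9) (@Lb.t (@Lb.fp (nat_lit 9) t285)))))))))
noncomputable def l898 : Lb := (@Lb.d (nat_lit 8) (nat_lit 514) (nat_lit 66) (@Lb.g g8 (@Lb.g g9 (@Lb.g g10 (@Lb.g g11 (@Lb.r r660 (@Lb.r r2311 (@Lb.r r161 (@Lb.r r98 (@Lb.r r1540 (@Lb.d (nat_lit 1) (nat_lit 166) (nat_lit 664) (@Lb.fm (nat_lit 9) t391))))))))))))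
noncomputable def l899 : Lb := (@Lb.d (nat_lit 642) (nat_lit 514) (nat_lit 66) (@Lb.g g8 (@Lb.g g9 (@Lb.g g10 (@Lb.g g11 (@Lb.r r1451 (@Lb.r r106 (@Lb.r r25 (@Lb.d (nat_lit 9) (nat_lit 9) (nat_lit 425) (@Lb.fp (nat_lit 9) t394))))))))))
noncomputable def l900 : Lb := (@Lb.r r1045 (@Lb.d (nat_lit 261) (nat_lit 264) (nat_lit 130) (@Lb.g g4 (@Lb.g g10 (@Lb.g g11 (@Lb.r r387 (@Lb.d (nat_lit 8) (nat_lit 65) (nat_lit 137) (@Lb.t (@Lb.fp (nat_lit 9) t51)))))))))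
noncomputable def l901 : Lb := (@Lb.d (nat_lit 529) (nat_lit 648) (nat_lit 645) (@Lb.r r596 (@Lb.r r1386 (@Lb.r r609 (@Lb.r r2339 (@Lb.g g6 (@Lb.g g5 (@Lb.g g4 (@Lb.d (nat_lit 70) (nat_lit 17) (nat_lit 5) (@Lb.t (@Lb.fm (nat_lit 9) t2)))))))))))
noncomputable def l902 : Lb := (@Lb.d (nat_lit 5) (nat_lit 614) (nat_lit 358) (@Lb.r r2450 (@Lb.r r1633 (@Lb.r r1387 (@Lb.r r1352 (@Lb.g g6 (@Lb.d (nat_lit 16) (nat_lit 0) (nat_lit 1) (@Lb.t (@Lb.fp (nat_lit 3) t2)))))))))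
noncomputable def l903 : Lb := (@Lb.d (nat_lit 1) (nat_lit 322) (nat_lit 130) (@Lb.g g4 (@Lb.g g9 (@Lb.g g10 (@Lb.g g11 (@Lb.r r419 (@Lb.r r98 (@Lb.d (nat_lit 0) (nat_lit 4) (nat_lit 136) (@Lb.fm (nat_lit 9) t51)))))))))
noncomputable def l904 : Lb := (@Lb.d (nat_lit 26) (nat_lit 328) (nat_lit 1) (@Lb.r r165 (@Lb.r r2214 (@Lb.r r1368 (@Lb.r r295 (@Lb.g g6 (@Lb.g g5 (@Lb.d (nat_lit 0) (nat_lit 16) (nat_lit 1) (@Lb.fp (nat_lit 3) t2)))))))))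
noncomputable def l905 : Lb := (@Lb.d (nat_lit 4) (nat_lit 514) (nat_lit 130) (@Lb.g g9 (@Lb.g g10 (@Lb.g g11 (@Lb.r r419 (@Lb.r r98 (@Lb.r r36 (@Lb.d (nat_lit 8) (nat_lit 10) (nat_lit 137) (@Lb.t (@Lb.fm (nat_lit 9) t51))))))))))
noncomputable def l906 : Lb := (@Lb.r r82 (@Lb.d (nat_lit 5) (nat_lit 512) (nat_lit 128) (@Lb.g g4 (@Lb.g g9 (@Lb.g g11 (@Lb.r r551 (@Lb.r r610 (@Lb.r r613 (@Lb.d (nat_lit 1) (nat_lit 24) (nat_lit 137) (@Lb.t (@Lb.fp (nat_lit 9) t50)))))))))))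
noncomputable def l907 : Lb := (@Lb.r r82 (@Lb.r r275 (@Lb.d (nat_lit 2) (nat_lit 546) (nat_lit 0) (@Lb.g g8 (@Lb.g g9 (@Lb.r r535 (@Lb.r r1158 (@Lb.r r1433 (@Lb.d (nat_lit 170) (nat_lit 90) (nat_lit 168) (@Lb.fm (nat_lit 3) t395))))))))))
noncomputable def l908 : Lb := (@Lb.g g9 (@Lb.r r1307 (@Lb.r r1114 (@Lb.r r20 (@Lb.r r1049 (@Lb.d (nat_lit 536) (nat_lit 578) (nat_lit 32) (@Lb.t (@Lb.fp (nat_lit 3) t396))))))))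
noncomputable def l909 : Lb := (@Lb.r r323 (@Lb.d (nat_lit 2) (nat_lit 546) (nat_lit 2) (@Lb.g g8 (@Lb.g g9 (@Lb.g g10 (@Lb.r r599 (@Lb.r r74 (@Lb.r r409 (@Lb.d (nat_lit 682) (nat_lit 26) (nat_lit 680) (@Lb.t (@Lb.fp (nat_lit 9) t221)))))))))))
noncomputable def l910 : Lb := (@Lb.r r323 (@Lb.d (nat_lit 2) (nat_lit 256) (nat_lit 10) (@Lb.g g8 (@Lb.g g10 (@Lb.r r595 (@Lb.r r409 (@Lb.r r86 (@Lb.d (nat_lit 4) (nat_lit 6) (nat_lit 17) (@Lb.fp (nat_lit 3) t221)))))))))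
noncomputable def l911 : Lb := (@Lb.d (nat_lit 2) (nat_lit 522) (nat_lit 0) (@Lb.g g8 (@Lb.g g9 (@Lb.r r134 (@Lb.r r328 (@Lb.r r599 (@Lb.r r417 (@Lb.d (nat_lit 0) (nat_lit 128) (nat_lit 68) (@Lb.fm (nat_lit 3) t119)))))))))
noncomputable def l912 : Lb := (@Lb.r r82 (@Lb.d (nat_lit 5) (nat_lit 0) (nat_lit 128) (@Lb.g g4 (@Lb.g g9 (@Lb.g g11 (@Lb.r r551 (@Lb.r r610 (@Lb.r r613 (@Lb.d (nat_lit 1) (nat_lit 22) (nat_lit 136) (@Lb.t (@Lb.fp (nat_lit 9) t50)))))))))))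
noncomputable def l913 : Lb := (@Lb.r r323 (@Lb.d (nat_lit 2) (nat_lit 548) (nat_lit 0) (@Lb.g g8 (@Lb.g g9 (@Lb.g g10 (@Lb.r r599 (@Lb.r r1382 (@Lb.r r1109 (@Lb.d (nat_lit 148) (nat_lit 101) (nat_lit 338) (@Lb.t (@Lb.fp (nat_lit 9) t397)))))))))))
noncomputable def l914 : Lb := (@Lb.r r322 (@Lb.d (nat_lit 2) (nat_lit 32) (nat_lit 136) (@Lb.g g8 (@Lb.g g11 (@Lb.r r422 (@Lb.r r401 (@Lb.r r615 (@Lb.d (nat_lit 146) (nat_lit 22) (nat_lit 2) (@Lb.fm (nat_lit 3) t312)))))))))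
noncomputable def l915 : Lb := (@Lb.g g10 (@Lb.r r1427 (@Lb.r r104 (@Lb.r r2153 (@Lb.r r2084 (@Lb.d (nat_lit 273) (nat_lit 256) (nat_lit 0) (@Lb.t (@Lb.fp (nat_lit 3) t398))))))))
noncomputable def l916 : Lb := (@Lb.r r82 (@Lb.d (nat_lit 5) (nat_lit 298) (nat_lit 64) (@Lb.g g4 (@Lb.g g9 (@Lb.g g11 (@Lb.r r615 (@Lb.r r402 (@Lb.r r601 (@Lb.d (nat_lit 138) (nat_lit 38) (nat_lit 136) (@Lb.t (@Lb.fp (nat_lit 9) t50)))))))))))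
noncomputable def l917 : Lb := (@Lb.r r82 (@Lb.r r275 (@Lb.d (nat_lit 5) (nat_lit 512) (nat_lit 0) (@Lb.g g4 (@Lb.g g9 (@Lb.r r2395 (@Lb.r r1634 (@Lb.r r1637 (@Lb.d (nat_lit 1) (nat_lit 90) (nat_lit 682) (@Lb.fm (nat_lit 3) t399))))))))))
noncomputable def l918 : Lb := (@Lb.d (nat_lit 2) (nat_lit 514) (nat_lit 68) (@Lb.g g8 (@Lb.g g9 (@Lb.g g10 (@Lb.g g11 (@Lb.r r593 (@Lb.r r420 (@Lb.r r603 (@Lb.r r146 (@Lb.r r516 (@Lb.d (nat_lit 33) (nat_lit 5) (nat_lit 128) (@Lb.fp (nat_lit 9) t145))))))))))))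
noncomputable def l919 : Lb := (@Lb.d (nat_lit 0) (nat_lit 0) (nat_lit 4) (@Lb.g g10 (@Lb.g g11 (@Lb.r r2691 (@Lb.r r578 (@Lb.d (nat_lit 0) (nat_lit 0) (nat_lit 402) (@Lb.fp (nat_lit 3) t2)))))))
noncomputable def l920 : Lb := (@Lb.d (nat_lit 1) (nat_lit 165) (nat_lit 644) (@Lb.r r1284 (@Lb.r r2315 (@Lb.r r404 (@Lb.r r2153 (@Lb.g g7 (@Lb.g g10 (@Lb.g g5 (@Lb.g g4 (@Lb.d (nat_lit 1) (nat_lit 8) (nat_lit 97) (@Lb.fp (nat_lit 9) t145)))))))))))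
noncomputable def l921 : Lb := (@Lb.d (nat_lit 538) (nat_lit 161) (nat_lit 70) (@Lb.r r165 (@Lb.r r664 (@Lb.r r2374 (@Lb.r r1451 (@Lb.g g6 (@Lb.g g5 (@Lb.g g4 (@Lb.d (nat_lit 96) (nat_lit 16) (nat_lit 1) (@Lb.t (@Lb.fp (nat_lit 9) t49)))))))))))
noncomputable def l922 : Lb := (@Lb.d (nat_lit 73) (nat_lit 33) (nat_lit 130) (@Lb.g g8 (@Lb.g g9 (@Lb.g g10 (@Lb.g g11 (@Lb.r r1411 (@Lb.r r386 (@Lb.r r1129 (@Lb.r r1384 (@Lb.d (nat_lit 341) (nat_lit 170) (nat_lit 674) (@Lb.fm (nat_lit 9) t31)))))))))))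
noncomputable def l923 : Lb := (@Lb.d (nat_lit 2) (nat_lit 258) (nat_lit 2) (@Lb.g g8 (@Lb.g g9 (@Lb.g g10 (@Lb.g g11 (@Lb.r r2705 (@Lb.r r356 (@Lb.r r667 (@Lb.r r98 (@Lb.r r1540 (@Lb.d (nat_lit 258) (nat_lit 133) (nat_lit 129) (@Lb.fm (nat_lit 9) t145))))))))))))
noncomputable def l924 : Lb := (@Lb.r r81 (@Lb.r r323 (@Lb.d (nat_lit 138) (nat_lit 0) (nat_lit 33) (@Lb.g g8 (@Lb.g g6 (@Lb.r r661 (@Lb.r r535 (@Lb.r r1444 (@Lb.d (nat_lit 602) (nat_lit 166) (nat_lit 393) (@Lb.fm (nat_lit 3) t400))))))))))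
noncomputable def l925 : Lb := (@Lb.d (nat_lit 150) (nat_lit 612) (nat_lit 272) (@Lb.r r1128 (@Lb.r r549 (@Lb.r r2475 (@Lb.r r2438 (@Lb.g g7 (@Lb.g g5 (@Lb.d (nat_lit 0) (nat_lit 4) (nat_lit 64) (@Lb.fp (nat_lit 3) t401)))))))))
noncomputable def l926 : Lb := (@Lb.d (nat_lit 0) (nat_lit 8) (nat_lit 138) (@Lb.g g10 (@Lb.g g11 (@Lb.r r2145 (@Lb.r r2130 (@Lb.d (nat_lit 10) (nat_lit 70) (nat_lit 34) (@Lb.fp (nat_lit 3) t402)))))))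
noncomputable def l927 : Lb := (@Lb.d (nat_lit 0) (nat_lit 1) (nat_lit 2) (@Lb.g g9 (@Lb.g g10 (@Lb.r r677 (@Lb.r r1638 (@Lb.r r24 (@Lb.d (nat_lit 576) (nat_lit 0) (nat_lit 658) (@Lb.fm (nat_lit 3) t403))))))))
noncomputable def l928 : Lb := (@Lb.r r82 (@Lb.d (nat_lit 2) (nat_lit 289) (nat_lit 64) (@Lb.g g8 (@Lb.g g9 (@Lb.g g11 (@Lb.r r673 (@Lb.r r2150 (@Lb.r r1688 (@Lb.r r1563 (@Lb.d (nat_lit 320) (nat_lit 96) (nat_lit 74) (@Lb.t (@Lb.fp (nat_lit 9) t404))))))))))))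
noncomputable def l929 : Lb := (@Lb.d (nat_lit 146) (nat_lit 258) (nat_lit 2) (@Lb.g g8 (@Lb.g g9 (@Lb.g g10 (@Lb.r r1681 (@Lb.r r2583 (@Lb.r r2440 (@Lb.r r1098 (@Lb.d (nat_lit 545) (nat_lit 74) (nat_lit 328) (@Lb.t (@Lb.fm (nat_lit 9) t405)))))))))))
noncomputable def l930 : Lb := (@Lb.d (nat_lit 0) (nat_lit 258) (nat_lit 66) (@Lb.g g9 (@Lb.g g10 (@Lb.g g11 (@Lb.r r1443 (@Lb.r r386 (@Lb.r r97 (@Lb.r r36 (@Lb.d (nat_lit 0) (nat_lit 26) (nat_lit 393) (@Lb.t (@Lb.fm (nat_lit 9) t309)))))))))))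
noncomputable def l931 : Lb := (@Lb.d (nat_lit 168) (nat_lit 274) (nat_lit 24) (@Lb.r r539 (@Lb.r r532 (@Lb.r r1369 (@Lb.g g7 (@Lb.g g6 (@Lb.d (nat_lit 64) (nat_lit 8) (nat_lit 97) (@Lb.fp (nat_lit 3) t406))))))))
noncomputable def l932 : Lb := (@Lb.d (nat_lit 9) (nat_lit 581) (nat_lit 74) (@Lb.g g8 (@Lb.g g5 (@Lb.g g10 (@Lb.g g11 (@Lb.r r659 (@Lb.r r578 (@Lb.r r1432 (@Lb.d (nat_lit 666) (nat_lit 36) (nat_lit 68) (@Lb.fm (nat_lit 9) t407))))))))))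
noncomputable def l933 : Lb := (@Lb.r r21 (@Lb.r r331 (@Lb.d (nat_lit 641) (nat_lit 256) (nat_lit 2) (@Lb.g g4 (@Lb.g g10 (@Lb.r r299 (@Lb.r r2465 (@Lb.r r2146 (@Lb.d (nat_lit 288) (nat_lit 9) (nat_lit 1) (@Lb.fm (nat_lit 3) t408))))))))))
noncomputable def l934 : Lb := (@Lb.r r323 (@Lb.d (nat_lit 0) (nat_lit 8) (nat_lit 34) (@Lb.g g10 (@Lb.r r2659 (@Lb.d (nat_lit 0) (nat_lit 26) (nat_lit 425) (@Lb.t (@Lb.fm (nat_lit 3) t334)))))))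
noncomputable def l935 : Lb := (@Lb.d (nat_lit 0) (nat_lit 0) (nat_lit 73) (@Lb.g g10 (@Lb.g g11 (@Lb.r r2658 (@Lb.d (nat_lit 0) (nat_lit 42) (nat_lit 550) (@Lb.fm (nat_lit 3) t334))))))
noncomputable def l936 : Lb := (@Lb.r r323 (@Lb.g g10 (@Lb.r r2435 (@Lb.r r2114 (@Lb.t (@Lb.fp (nat_lit 3) t2))))))
noncomputable def l937 : Lb := (@Lb.d (nat_lit 0) (nat_lit 512) (nat_lit 133) (@Lb.g g10 (@Lb.g g11 (@Lb.r r387 (@Lb.r r1682 (@Lb.d (nat_lit 0) (nat_lit 42) (nat_lit 550) (@Lb.fp (nat_lit 3) t334)))))))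
noncomputable def l938 : Lb := (@Lb.r r338 (@Lb.d (nat_lit 8) (nat_lit 610) (nat_lit 136) (@Lb.g g9 (@Lb.g g11 (@Lb.r r1410 (@Lb.d (nat_lit 528) (nat_lit 10) (nat_lit 96) (@Lb.fp (nat_lit 3) t409)))))))
noncomputable def l939 : Lb := (@Lb.d (nat_lit 9) (nat_lit 265) (nat_lit 72) (@Lb.g g8 (@Lb.g g9 (@Lb.g g10 (@Lb.g g11 (@Lb.r r1707 (@Lb.r r1700 (@Lb.r r1190 (@Lb.r r2201 (@Lb.d (nat_lit 282) (nat_lit 8) (nat_lit 153) (@Lb.fp (nat_lit 9) t144)))))))))))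
noncomputable def l940 : Lb := (@Lb.d (nat_lit 0) (nat_lit 548) (nat_lit 641) (@Lb.g g6 (@Lb.g g11 (@Lb.r r24 (@Lb.d (nat_lit 5) (nat_lit 82) (nat_lit 256) (@Lb.fm (nat_lit 3) t295))))))
noncomputable def l941 : Lb := (@Lb.r r323 (@Lb.d (nat_lit 32) (nat_lit 512) (nat_lit 2) (@Lb.g g9 (@Lb.g g10 (@Lb.r r584 (@Lb.r r299 (@Lb.r r1425 (@Lb.d (nat_lit 294) (nat_lit 138) (nat_lit 1) (@Lb.fp (nat_lit 3) t410)))))))))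
noncomputable def l942 : Lb := (@Lb.d (nat_lit 97) (nat_lit 514) (nat_lit 73) (@Lb.g g8 (@Lb.g g9 (@Lb.g g10 (@Lb.g g11 (@Lb.r r1642 (@Lb.r r2627 (@Lb.r r97 (@Lb.r r2072 (@Lb.d (nat_lit 665) (nat_lit 130) (nat_lit 84) (@Lb.fm (nat_lit 9) t50)))))))))))
noncomputable def l943 : Lb := (@Lb.d (nat_lit 2) (nat_lit 10) (nat_lit 72) (@Lb.g g8 (@Lb.g g9 (@Lb.g g10 (@Lb.g g11 (@Lb.r r1707 (@Lb.r r1700 (@Lb.r r1190 (@Lb.r r2201 (@Lb.d (nat_lit 282) (nat_lit 8) (nat_lit 153) (@Lb.fp (nat_lit 9) t144)))))))))))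
noncomputable def l944 : Lb := (@Lb.d (nat_lit 18) (nat_lit 0) (nat_lit 545) (@Lb.r r2403 (@Lb.r r1377 (@Lb.r r2198 (@Lb.g g5 (@Lb.g g4 (@Lb.d (nat_lit 1) (nat_lit 5) (nat_lit 0) (@Lb.fm (nat_lit 3) t411))))))))
noncomputable def l945 : Lb := (@Lb.d (nat_lit 2) (nat_lit 266) (nat_lit 72) (@Lb.g g8 (@Lb.g g9 (@Lb.g g10 (@Lb.g g11 (@Lb.r r1707 (@Lb.r r1700 (@Lb.r r1190 (@Lb.r r2201 (@Lb.d (nat_lit 281) (nat_lit 8) (nat_lit 153) (@Lb.fp (nat_lit 9) t144)))))))))))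
noncomputable def l946 : Lb := (@Lb.d (nat_lit 0) (nat_lit 514) (nat_lit 130) (@Lb.g g8 (@Lb.g g9 (@Lb.g g10 (@Lb.g g11 (@Lb.r r427 (@Lb.r r297 (@Lb.r r104 (@Lb.r r70 (@Lb.r r132 (@Lb.d (nat_lit 2) (nat_lit 137) (nat_lit 393) (@Lb.fp (nat_lit 9) t51))))))))))))
noncomputable def l947 : Lb := (@Lb.r r664 (@Lb.r r667 (@Lb.r r1690 (@Lb.r r1365 (@Lb.r r1700 (@Lb.fm (nat_lit 1) t322))))))
noncomputable def l948 : Lb := (@Lb.d (nat_lit 170) (nat_lit 256) (nat_lit 0) (@Lb.g g8 (@Lb.r r423 (@Lb.r r1446 (@Lb.r r2469 (@Lb.r r596 (@Lb.d (nat_lit 150) (nat_lit 38) (nat_lit 74) (@Lb.t (@Lb.fp (nat_lit 3) t322)))))))))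
noncomputable def l949 : Lb := (@Lb.d (nat_lit 152) (nat_lit 0) (nat_lit 0) (@Lb.g g8 (@Lb.g g10 (@Lb.r r1383 (@Lb.r r1626 (@Lb.r r1173 (@Lb.r r1124 (@Lb.d (nat_lit 282) (nat_lit 138) (nat_lit 402) (@Lb.fm (nat_lit 3) t412)))))))))
noncomputable def l950 : Lb := (@Lb.g g8 (@Lb.g g10 (@Lb.r r1431 (@Lb.r r402 (@Lb.r r1172 (@Lb.r r2073 (@Lb.d (nat_lit 514) (nat_lit 129) (nat_lit 2) (@Lb.fp (nat_lit 3) t413))))))))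
noncomputable def l951 : Lb := (@Lb.d (nat_lit 0) (nat_lit 530) (nat_lit 10) (@Lb.r r322 (@Lb.r r339 (@Lb.g g7 (@Lb.g g6 (@Lb.g g5 (@Lb.g g8 (@Lb.d (nat_lit 2) (nat_lit 129) (nat_lit 136) (@Lb.fm (nat_lit 9) t267)))))))))
noncomputable def l952 : Lb := (@Lb.d (nat_lit 128) (nat_lit 32) (nat_lit 80) (@Lb.g g10 (@Lb.g g11 (@Lb.r r1305 (@Lb.r r2328 (@Lb.r r1319 (@Lb.d (nat_lit 330) (nat_lit 33) (nat_lit 288) (@Lb.fp (nat_lit 3) t322))))))))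
noncomputable def l953 : Lb := (@Lb.d (nat_lit 8) (nat_lit 544) (nat_lit 90) (@Lb.g g8 (@Lb.g g10 (@Lb.g g11 (@Lb.r r353 (@Lb.r r535 (@Lb.r r2436 (@Lb.d (nat_lit 341) (nat_lit 70) (nat_lit 681) (@Lb.t (@Lb.fm (nat_lit 9) t386))))))))))
noncomputable def l954 : Lb := (@Lb.d (nat_lit 98) (nat_lit 0) (nat_lit 101) (@Lb.r r388 (@Lb.r r331 (@Lb.g g10 (@Lb.g g4 (@Lb.d (nat_lit 82) (nat_lit 0) (nat_lit 16) (@Lb.r r2073 (@Lb.fp (nat_lit 3) t414))))))))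
noncomputable def l955 : Lb := (@Lb.d (nat_lit 8) (nat_lit 256) (nat_lit 128) (@Lb.g g8 (@Lb.g g10 (@Lb.g g11 (@Lb.r r387 (@Lb.r r402 (@Lb.r r101 (@Lb.r r24 (@Lb.d (nat_lit 40) (nat_lit 4) (nat_lit 0) (@Lb.t (@Lb.fp (nat_lit 9) t145)))))))))))
noncomputable def l956 : Lb := (@Lb.d (nat_lit 8) (nat_lit 512) (nat_lit 128) (@Lb.g g8 (@Lb.g g10 (@Lb.g g11 (@Lb.r r387 (@Lb.r r402 (@Lb.r r101 (@Lb.r r24 (@Lb.d (nat_lit 40) (nat_lit 2) (nat_lit 2) (@Lb.t (@Lb.fp (nat_lit 9) t145)))))))))))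
noncomputable def l957 : Lb := (@Lb.d (nat_lit 609) (nat_lit 10) (nat_lit 666) (@Lb.r r21 (@Lb.r r100 (@Lb.r r579 (@Lb.r r1370 (@Lb.g g7 (@Lb.g g6 (@Lb.g g5 (@Lb.d (nat_lit 0) (nat_lit 1) (nat_lit 134) (@Lb.t (@Lb.fm (nat_lit 9) t415)))))))))))
noncomputable def l958 : Lb := (@Lb.d (nat_lit 256) (nat_lit 266) (nat_lit 69) (@Lb.r r21 (@Lb.r r100 (@Lb.r r386 (@Lb.r r1435 (@Lb.g g7 (@Lb.g g6 (@Lb.g g5 (@Lb.d (nat_lit 0) (nat_lit 1) (nat_lit 65) (@Lb.t (@Lb.fm (nat_lit 9) t415)))))))))))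
noncomputable def l959 : Lb := (@Lb.d (nat_lit 609) (nat_lit 101) (nat_lit 681) (@Lb.r r2661 (@Lb.r r359 (@Lb.r r532 (@Lb.g g10 (@Lb.g g5 (@Lb.g g4 (@Lb.d (nat_lit 1) (nat_lit 18) (nat_lit 22) (@Lb.t (@Lb.fp (nat_lit 9) t416))))))))))
noncomputable def l960 : Lb := (@Lb.d (nat_lit 512) (nat_lit 258) (nat_lit 1) (@Lb.r r89 (@Lb.r r1126 (@Lb.r r1319 (@Lb.g g5 (@Lb.t (@Lb.fm (nat_lit 3) t417)))))))
noncomputable def l961 : Lb := (@Lb.d (nat_lit 0) (nat_lit 514) (nat_lit 130) (@Lb.g g9 (@Lb.g g10 (@Lb.g g11 (@Lb.r r427 (@Lb.r r420 (@Lb.r r2469 (@Lb.r r2150 (@Lb.d (nat_lit 536) (nat_lit 41) (nat_lit 513) (@Lb.t (@Lb.fp (nat_lit 9) t410)))))))))))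
noncomputable def l962 : Lb := (@Lb.d (nat_lit 153) (nat_lit 1) (nat_lit 74) (@Lb.g g8 (@Lb.g g9 (@Lb.g g10 (@Lb.g g11 (@Lb.r r683 (@Lb.r r2410 (@Lb.r r548 (@Lb.r r37 (@Lb.d (nat_lit 362) (nat_lit 33) (nat_lit 21) (@Lb.fp (nat_lit 9) t283)))))))))))
noncomputable def l963 : Lb := (@Lb.d (nat_lit 257) (nat_lit 512) (nat_lit 70) (@Lb.r r21 (@Lb.r r100 (@Lb.r r386 (@Lb.r r1435 (@Lb.g g7 (@Lb.g g6 (@Lb.g g5 (@Lb.d (nat_lit 0) (nat_lit 1) (nat_lit 65) (@Lb.t (@Lb.fm (nat_lit 9) t418)))))))))))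
noncomputable def l964 : Lb := (@Lb.r r81 (@Lb.d (nat_lit 34) (nat_lit 516) (nat_lit 129) (@Lb.g g8 (@Lb.g g6 (@Lb.g g11 (@Lb.r r1643 (@Lb.r r1640 (@Lb.r r25 (@Lb.d (nat_lit 282) (nat_lit 148) (nat_lit 664) (@Lb.t (@Lb.fp (nat_lit 9) t419)))))))))))
noncomputable def l965 : Lb := (@Lb.d (nat_lit 146) (nat_lit 9) (nat_lit 130) (@Lb.g g8 (@Lb.g g9 (@Lb.g g10 (@Lb.g g11 (@Lb.r r1706 (@Lb.r r1411 (@Lb.r r2201 (@Lb.r r2180 (@Lb.d (nat_lit 553) (nat_lit 153) (nat_lit 169) (@Lb.fm (nat_lit 9) t328)))))))))))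
noncomputable def l966 : Lb := (@Lb.d (nat_lit 2) (nat_lit 9) (nat_lit 130) (@Lb.g g8 (@Lb.g g9 (@Lb.g g10 (@Lb.g g11 (@Lb.r r516 (@Lb.r r263 (@Lb.r r2453 (@Lb.r r666 (@Lb.r r516 (@Lb.d (nat_lit 2) (nat_lit 10) (nat_lit 161) (@Lb.fm (nat_lit 9) t160))))))))))))
noncomputable def l967 : Lb := (@Lb.d (nat_lit 128) (nat_lit 521) (nat_lit 130) (@Lb.g g9 (@Lb.g g10 (@Lb.g g11 (@Lb.r r264 (@Lb.r r519 (@Lb.r r2197 (@Lb.r r154 (@Lb.d (nat_lit 130) (nat_lit 10) (nat_lit 97) (@Lb.t (@Lb.fp (nat_lit 9) t160)))))))))))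
noncomputable def l968 : Lb := (@Lb.r r82 (@Lb.r r275 (@Lb.d (nat_lit 2) (nat_lit 512) (nat_lit 0) (@Lb.g g8 (@Lb.g g9 (@Lb.r r2475 (@Lb.r r1174 (@Lb.r r2217 (@Lb.d (nat_lit 277) (nat_lit 137) (nat_lit 18) (@Lb.fm (nat_lit 3) t8))))))))))
noncomputable def l969 : Lb := (@Lb.d (nat_lit 1) (nat_lit 512) (nat_lit 130) (@Lb.g g8 (@Lb.g g10 (@Lb.g g11 (@Lb.r r548 (@Lb.r r263 (@Lb.r r161 (@Lb.r r98 (@Lb.r r516 (@Lb.d (nat_lit 530) (nat_lit 6) (nat_lit 85) (@Lb.t (@Lb.fp (nat_lit 9) t420))))))))))))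
noncomputable def l970 : Lb := (@Lb.d (nat_lit 2) (nat_lit 513) (nat_lit 128) (@Lb.g g8 (@Lb.g g9 (@Lb.g g11 (@Lb.r r681 (@Lb.r r2731 (@Lb.r r2178 (@Lb.r r2577 (@Lb.r r36 (@Lb.d (nat_lit 298) (nat_lit 2) (nat_lit 678) (@Lb.t (@Lb.fp (nat_lit 9) t421))))))))))))
noncomputable def l971 : Lb := (@Lb.r r21 (@Lb.d (nat_lit 18) (nat_lit 256) (nat_lit 128) (@Lb.g g8 (@Lb.g g10 (@Lb.g g11 (@Lb.r r2459 (@Lb.r r2456 (@Lb.r r101 (@Lb.r r602 (@Lb.d (nat_lit 105) (nat_lit 97) (nat_lit 162) (@Lb.t (@Lb.fm (nat_lit 9) t422))))))))))))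
noncomputable def l972 : Lb := (@Lb.r r323 (@Lb.d (nat_lit 4) (nat_lit 256) (nat_lit 1) (@Lb.g g8 (@Lb.g g9 (@Lb.g g6 (@Lb.r r387 (@Lb.r r97 (@Lb.r r24 (@Lb.d (nat_lit 0) (nat_lit 10) (nat_lit 2) (@Lb.t (@Lb.fp (nat_lit 9) t40)))))))))))
noncomputable def l973 : Lb := (@Lb.d (nat_lit 2) (nat_lit 260) (nat_lit 128) (@Lb.g g8 (@Lb.g g9 (@Lb.g g10 (@Lb.g g11 (@Lb.r r427 (@Lb.r r417 (@Lb.r r98 (@Lb.r r24 (@Lb.d (nat_lit 74) (nat_lit 40) (nat_lit 73) (@Lb.fp (nat_lit 9) t423)))))))))))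
noncomputable def l974 : Lb := (@Lb.d (nat_lit 0) (nat_lit 256) (nat_lit 10) (@Lb.g g10 (@Lb.r r323 (@Lb.r r2626 (@Lb.d (nat_lit 0) (nat_lit 80) (nat_lit 362) (@Lb.t (@Lb.fp (nat_lit 3) t210)))))))
noncomputable def l975 : Lb := (@Lb.d (nat_lit 10) (nat_lit 0) (nat_lit 128) (@Lb.g g8 (@Lb.g g10 (@Lb.g g11 (@Lb.r r293 (@Lb.r r279 (@Lb.r r362 (@Lb.r r548 (@Lb.d (nat_lit 130) (nat_lit 42) (nat_lit 2) (@Lb.t (@Lb.fp (nat_lit 9) t424)))))))))))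
noncomputable def l976 : Lb := (@Lb.d (nat_lit 128) (nat_lit 0) (nat_lit 128) (@Lb.g g10 (@Lb.g g11 (@Lb.r r264 (@Lb.r r519 (@Lb.r r101 (@Lb.r r154 (@Lb.d (nat_lit 393) (nat_lit 2) (nat_lit 37) (@Lb.fm (nat_lit 3) t425)))))))))
noncomputable def l977 : Lb := (@Lb.d (nat_lit 128) (nat_lit 0) (nat_lit 128) (@Lb.g g10 (@Lb.g g11 (@Lb.r r264 (@Lb.r r519 (@Lb.r r101 (@Lb.r r2194 (@Lb.d (nat_lit 664) (nat_lit 2) (nat_lit 21) (@Lb.fm (nat_lit 3) t426)))))))))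
noncomputable def l978 : Lb := (@Lb.d (nat_lit 32) (nat_lit 264) (nat_lit 74) (@Lb.g g10 (@Lb.g g11 (@Lb.r r661 (@Lb.r r2664 (@Lb.r r2411 (@Lb.r r2714 (@Lb.d (nat_lit 105) (nat_lit 162) (nat_lit 282) (@Lb.fm (nat_lit 3) t427)))))))))
noncomputable def l979 : Lb := (@Lb.r r81 (@Lb.d (nat_lit 146) (nat_lit 264) (nat_lit 10) (@Lb.g g8 (@Lb.g g6 (@Lb.r r423 (@Lb.r r1429 (@Lb.r r2632 (@Lb.d (nat_lit 69) (nat_lit 72) (nat_lit 424) (@Lb.fm (nat_lit 3) t428)))))))))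
noncomputable def l980 : Lb := (@Lb.d (nat_lit 1) (nat_lit 320) (nat_lit 262) (@Lb.r r2659 (@Lb.r r406 (@Lb.r r2664 (@Lb.r r2585 (@Lb.g g7 (@Lb.g g6 (@Lb.g g4 (@Lb.d (nat_lit 5) (nat_lit 20) (nat_lit 65) (@Lb.t (@Lb.fm (nat_lit 9) t429)))))))))))
noncomputable def l981 : Lb := (@Lb.d (nat_lit 0) (nat_lit 265) (nat_lit 9) (@Lb.g g9 (@Lb.g g10 (@Lb.g g11 (@Lb.r r615 (@Lb.r r1685 (@Lb.r r2404 (@Lb.r r1178 (@Lb.d (nat_lit 520) (nat_lit 74) (nat_lit 16) (@Lb.t (@Lb.fm (nat_lit 9) t273)))))))))))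
noncomputable def l982 : Lb := (@Lb.d (nat_lit 0) (nat_lit 676) (nat_lit 598) (@Lb.r r2196 (@Lb.r r2403 (@Lb.r r594 (@Lb.r r2449 (@Lb.g g7 (@Lb.d (nat_lit 0) (nat_lit 0) (nat_lit 68) (@Lb.t (@Lb.fm (nat_lit 3) t430)))))))))
noncomputable def l983 : Lb := (@Lb.d (nat_lit 298) (nat_lit 84) (nat_lit 257) (@Lb.r r1193 (@Lb.r r2666 (@Lb.g g11 (@Lb.g g6 (@Lb.g g5 (@Lb.g g4 (@Lb.d (nat_lit 1) (nat_lit 8) (nat_lit 128) (@Lb.fp (nat_lit 9) t348)))))))))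
noncomputable def l984 : Lb := (@Lb.d (nat_lit 36) (nat_lit 514) (nat_lit 130) (@Lb.g g8 (@Lb.g g9 (@Lb.g g10 (@Lb.g g11 (@Lb.r r2705 (@Lb.r r1683 (@Lb.r r644 (@Lb.r r582 (@Lb.r r1156 (@Lb.d (nat_lit 386) (nat_lit 66) (nat_lit 66) (@Lb.fm (nat_lit 9) t431))))))))))))
noncomputable def l985 : Lb := (@Lb.d (nat_lit 1) (nat_lit 265) (nat_lit 130) (@Lb.g g8 (@Lb.g g9 (@Lb.g g10 (@Lb.g g11 (@Lb.r r1706 (@Lb.r r648 (@Lb.r r2587 (@Lb.r r1313 (@Lb.r r36 (@Lb.d (nat_lit 128) (nat_lit 164) (nat_lit 321) (@Lb.fp (nat_lit 9) t98))))))))))))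
noncomputable def l986 : Lb := (@Lb.d (nat_lit 1) (nat_lit 320) (nat_lit 646) (@Lb.r r2659 (@Lb.r r406 (@Lb.r r2664 (@Lb.r r2585 (@Lb.g g7 (@Lb.g g6 (@Lb.g g4 (@Lb.d (nat_lit 5) (nat_lit 16) (nat_lit 64) (@Lb.t (@Lb.fm (nat_lit 9) t429)))))))))))
noncomputable def l987 : Lb := (@Lb.d (nat_lit 0) (nat_lit 576) (nat_lit 646) (@Lb.r r2659 (@Lb.r r406 (@Lb.r r2664 (@Lb.r r2585 (@Lb.g g7 (@Lb.g g6 (@Lb.g g4 (@Lb.d (nat_lit 5) (nat_lit 16) (nat_lit 64) (@Lb.t (@Lb.fm (nat_lit 9) t429)))))))))))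
noncomputable def l988 : Lb := (@Lb.d (nat_lit 2) (nat_lit 512) (nat_lit 128) (@Lb.g g8 (@Lb.g g10 (@Lb.g g11 (@Lb.r r154 (@Lb.r r404 (@Lb.r r299 (@Lb.r r289 (@Lb.d (nat_lit 8) (nat_lit 82) (nat_lit 10) (@Lb.t (@Lb.fm (nat_lit 9) t51)))))))))))
noncomputable def l989 : Lb := (@Lb.d (nat_lit 2) (nat_lit 1) (nat_lit 128) (@Lb.g g8 (@Lb.g g9 (@Lb.g g10 (@Lb.g g11 (@Lb.r r170 (@Lb.r r420 (@Lb.r r283 (@Lb.r r529 (@Lb.d (nat_lit 8) (nat_lit 96) (nat_lit 74) (@Lb.fm (nat_lit 9) t51)))))))))))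
noncomputable def l990 : Lb := (@Lb.r r355 (@Lb.d (nat_lit 1) (nat_lit 260) (nat_lit 0) (@Lb.g g8 (@Lb.g g9 (@Lb.g g10 (@Lb.r r70 (@Lb.r r2692 (@Lb.r r1319 (@Lb.r r2321 (@Lb.d (nat_lit 0) (nat_lit 101) (nat_lit 641) (@Lb.t (@Lb.fm (nat_lit 9) t50))))))))))))
noncomputable def l991 : Lb := (@Lb.d (nat_lit 1) (nat_lit 322) (nat_lit 68) (@Lb.g g4 (@Lb.g g9 (@Lb.g g10 (@Lb.g g11 (@Lb.r r419 (@Lb.r r578 (@Lb.d (nat_lit 0) (nat_lit 33) (nat_lit 5) (@Lb.fm (nat_lit 9) t51)))))))))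
noncomputable def l992 : Lb := (@Lb.r r323 (@Lb.d (nat_lit 0) (nat_lit 578) (nat_lit 0) (@Lb.g g4 (@Lb.g g9 (@Lb.g g10 (@Lb.r r419 (@Lb.r r98 (@Lb.d (nat_lit 0) (nat_lit 9) (nat_lit 2) (@Lb.t (@Lb.fp (nat_lit 9) t51))))))))))
noncomputable def l993 : Lb := (@Lb.d (nat_lit 2) (nat_lit 514) (nat_lit 2) (@Lb.g g8 (@Lb.g g9 (@Lb.g g10 (@Lb.g g11 (@Lb.r r1371 (@Lb.r r386 (@Lb.r r97 (@Lb.r r24 (@Lb.d (nat_lit 256) (nat_lit 4) (nat_lit 70) (@Lb.fm (nat_lit 9) t432)))))))))))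
noncomputable def l994 : Lb := (@Lb.d (nat_lit 1) (nat_lit 514) (nat_lit 130) (@Lb.g g4 (@Lb.g g9 (@Lb.g g10 (@Lb.g g11 (@Lb.r r1443 (@Lb.r r386 (@Lb.r r97 (@Lb.d (nat_lit 1) (nat_lit 85) (nat_lit 326) (@Lb.fm (nat_lit 9) t433))))))))))
noncomputable def l995 : Lb := (@Lb.d (nat_lit 0) (nat_lit 2) (nat_lit 130) (@Lb.g g9 (@Lb.g g10 (@Lb.g g11 (@Lb.r r1443 (@Lb.r r386 (@Lb.r r97 (@Lb.r r8 (@Lb.d (nat_lit 2) (nat_lit 85) (nat_lit 326) (@Lb.t (@Lb.fp (nat_lit 9) t433)))))))))))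
noncomputable def l996 : Lb := (@Lb.d (nat_lit 2) (nat_lit 258) (nat_lit 130) (@Lb.g g8 (@Lb.g g9 (@Lb.g g10 (@Lb.g g11 (@Lb.r r427 (@Lb.r r386 (@Lb.r r97 (@Lb.r r24 (@Lb.d (nat_lit 74) (nat_lit 4) (nat_lit 70) (@Lb.fm (nat_lit 9) t61)))))))))))
noncomputable def l997 : Lb := (@Lb.d (nat_lit 2) (nat_lit 258) (nat_lit 130) (@Lb.g g8 (@Lb.g g9 (@Lb.g g10 (@Lb.g g11 (@Lb.r r427 (@Lb.r r106 (@Lb.r r25 (@Lb.d (nat_lit 9) (nat_lit 72) (nat_lit 137) (@Lb.fp (nat_lit 9) t51))))))))))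
noncomputable def l998 : Lb := (@Lb.d (nat_lit 8) (nat_lit 2) (nat_lit 130) (@Lb.g g9 (@Lb.g g10 (@Lb.g g11 (@Lb.r r419 (@Lb.r r98 (@Lb.d (nat_lit 2) (nat_lit 9) (nat_lit 137) (@Lb.t (@Lb.fm (nat_lit 9) t51)))))))))
noncomputable def l999 : Lb := (@Lb.d (nat_lit 32) (nat_lit 0) (nat_lit 2) (@Lb.g g6 (@Lb.r r2579 (@Lb.r r1448 (@Lb.r r1690 (@Lb.r r289 (@Lb.d (nat_lit 545) (nat_lit 88) (nat_lit 536) (@Lb.t (@Lb.fm (nat_lit 3) t51)))))))))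
noncomputable def l1000 : Lb := (@Lb.d (nat_lit 169) (nat_lit 2) (nat_lit 0) (@Lb.g g8 (@Lb.g g9 (@Lb.r r1622 (@Lb.r r2473 (@Lb.r r599 (@Lb.r r404 (@Lb.d (nat_lit 102) (nat_lit 24) (nat_lit 330) (@Lb.fm (nat_lit 3) t2)))))))))
noncomputable def l1001 : Lb := (@Lb.d (nat_lit 2) (nat_lit 514) (nat_lit 130) (@Lb.g g8 (@Lb.g g9 (@Lb.g g10 (@Lb.g g11 (@Lb.r r427 (@Lb.r r106 (@Lb.r r25 (@Lb.d (nat_lit 9) (nat_lit 4) (nat_lit 136) (@Lb.fp (nat_lit 9) t51))))))))))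
noncomputable def l1002 : Lb := (@Lb.d (nat_lit 2) (nat_lit 10) (nat_lit 128) (@Lb.g g8 (@Lb.g g9 (@Lb.g g11 (@Lb.r r134 (@Lb.r r584 (@Lb.r r427 (@Lb.r r417 (@Lb.d (nat_lit 8) (nat_lit 64) (nat_lit 137) (@Lb.t (@Lb.fp (nat_lit 9) t119)))))))))))
noncomputable def l1003 : Lb := (@Lb.d (nat_lit 2) (nat_lit 2) (nat_lit 66) (@Lb.g g8 (@Lb.g g9 (@Lb.g g10 (@Lb.g g7 (@Lb.r r386 (@Lb.r r97 (@Lb.r r24 (@Lb.d (nat_lit 330) (nat_lit 9) (nat_lit 585) (@Lb.fp (nat_lit 9) t166))))))))))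
noncomputable def l1004 : Lb := (@Lb.r r323 (@Lb.d (nat_lit 2) (nat_lit 514) (nat_lit 1) (@Lb.g g8 (@Lb.g g9 (@Lb.g g6 (@Lb.r r2667 (@Lb.r r97 (@Lb.r r24 (@Lb.d (nat_lit 266) (nat_lit 9) (nat_lit 0) (@Lb.t (@Lb.fm (nat_lit 9) t434)))))))))))
noncomputable def l1005 : Lb := (@Lb.r r263 (@Lb.d (nat_lit 128) (nat_lit 514) (nat_lit 1) (@Lb.g g8 (@Lb.g g9 (@Lb.g g10 (@Lb.r r346 (@Lb.r r1431 (@Lb.r r97 (@Lb.r r1540 (@Lb.d (nat_lit 386) (nat_lit 38) (nat_lit 105) (@Lb.t (@Lb.fp (nat_lit 9) t435))))))))))))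
noncomputable def l1006 : Lb := (@Lb.d (nat_lit 4) (nat_lit 548) (nat_lit 130) (@Lb.g g8 (@Lb.g g9 (@Lb.g g10 (@Lb.g g11 (@Lb.r r586 (@Lb.r r1611 (@Lb.r r36 (@Lb.r r149 (@Lb.r r2084 (@Lb.d (nat_lit 362) (nat_lit 168) (nat_lit 81) (@Lb.fm (nat_lit 9) t436))))))))))))
noncomputable def l1007 : Lb := (@Lb.d (nat_lit 0) (nat_lit 0) (nat_lit 128) (@Lb.g g11 (@Lb.r r609 (@Lb.r r363 (@Lb.r r1170 (@Lb.r r1432 (@Lb.d (nat_lit 17) (nat_lit 10) (nat_lit 0) (@Lb.t (@Lb.fm (nat_lit 3) t437)))))))))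
noncomputable def l1008 : Lb := (@Lb.d (nat_lit 282) (nat_lit 260) (nat_lit 81) (@Lb.r r1370 (@Lb.r r2731 (@Lb.r r661 (@Lb.g g7 (@Lb.g g8 (@Lb.d (nat_lit 584) (nat_lit 16) (nat_lit 64) (@Lb.r r74 (@Lb.r r25 (@Lb.fm (nat_lit 3) t438))))))))))
noncomputable def l1009 : Lb := (@Lb.d (nat_lit 2) (nat_lit 517) (nat_lit 645) (@Lb.r r1297 (@Lb.r r2371 (@Lb.r r678 (@Lb.g g7 (@Lb.g g5 (@Lb.g g8 (@Lb.d (nat_lit 618) (nat_lit 0) (nat_lit 64) (@Lb.r r98 (@Lb.t (@Lb.fp (nat_lit 9) t436)))))))))))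
noncomputable def l1010 : Lb := (@Lb.d (nat_lit 2) (nat_lit 162) (nat_lit 665) (@Lb.r r81 (@Lb.r r2371 (@Lb.r r678 (@Lb.g g7 (@Lb.g g6 (@Lb.g g5 (@Lb.g g8 (@Lb.d (nat_lit 610) (nat_lit 1) (nat_lit 64) (@Lb.fp (nat_lit 9) t439))))))))))
noncomputable def l1011 : Lb := (@Lb.d (nat_lit 2) (nat_lit 258) (nat_lit 130) (@Lb.g g8 (@Lb.g g9 (@Lb.g g10 (@Lb.g g11 (@Lb.r r1367 (@Lb.r r1366 (@Lb.r r97 (@Lb.r r24 (@Lb.d (nat_lit 154) (nat_lit 9) (nat_lit 361) (@Lb.fp (nat_lit 9) t335)))))))))))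
noncomputable def l1012 : Lb := (@Lb.d (nat_lit 1) (nat_lit 578) (nat_lit 130) (@Lb.g g4 (@Lb.g g9 (@Lb.g g10 (@Lb.g g11 (@Lb.r r419 (@Lb.r r98 (@Lb.d (nat_lit 1) (nat_lit 9) (nat_lit 137) (@Lb.fm (nat_lit 9) t51)))))))))
noncomputable def l1013 : Lb := (@Lb.r r1045 (@Lb.d (nat_lit 261) (nat_lit 8) (nat_lit 130) (@Lb.g g4 (@Lb.g g10 (@Lb.g g11 (@Lb.r r387 (@Lb.d (nat_lit 1) (nat_lit 66) (nat_lit 137) (@Lb.t (@Lb.fp (nat_lit 9) t51)))))))))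
noncomputable def l1014 : Lb := (@Lb.d (nat_lit 0) (nat_lit 512) (nat_lit 10) (@Lb.g g10 (@Lb.g g7 (@Lb.r r402 (@Lb.r r101 (@Lb.r r24 (@Lb.d (nat_lit 128) (nat_lit 0) (nat_lit 128) (@Lb.fm (nat_lit 3) t145))))))))
noncomputable def l1015 : Lb := (@Lb.d (nat_lit 0) (nat_lit 0) (nat_lit 10) (@Lb.g g10 (@Lb.g g7 (@Lb.r r402 (@Lb.r r101 (@Lb.r r24 (@Lb.d (nat_lit 130) (nat_lit 0) (nat_lit 128) (@Lb.fm (nat_lit 3) t145))))))))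
noncomputable def l1016 : Lb := (@Lb.d (nat_lit 32) (nat_lit 0) (nat_lit 2) (@Lb.g g10 (@Lb.r r2579 (@Lb.r r72 (@Lb.r r598 (@Lb.r r289 (@Lb.d (nat_lit 274) (nat_lit 10) (nat_lit 2) (@Lb.t (@Lb.fm (nat_lit 3) t51)))))))))
noncomputable def l1017 : Lb := (@Lb.d (nat_lit 32) (nat_lit 256) (nat_lit 2) (@Lb.g g10 (@Lb.r r2579 (@Lb.r r72 (@Lb.r r598 (@Lb.r r289 (@Lb.d (nat_lit 281) (nat_lit 9) (nat_lit 2) (@Lb.t (@Lb.fm (nat_lit 3) t51)))))))))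
noncomputable def l1018 : Lb := (@Lb.d (nat_lit 2) (nat_lit 545) (nat_lit 66) (@Lb.g g8 (@Lb.g g9 (@Lb.g g10 (@Lb.g g11 (@Lb.r r2595 (@Lb.r r388 (@Lb.r r70 (@Lb.r r1689 (@Lb.r r132 (@Lb.d (nat_lit 321) (nat_lit 160) (nat_lit 586) (@Lb.fm (nat_lit 9) t144))))))))))))
noncomputable def l1019 : Lb := (@Lb.d (nat_lit 1) (nat_lit 17) (nat_lit 132) (@Lb.r r260 (@Lb.r r267 (@Lb.r r296 (@Lb.r r105 (@Lb.g g7 (@Lb.g g10 (@Lb.g g5 (@Lb.g g4 (@Lb.d (nat_lit 37) (nat_lit 2) (nat_lit 65) (@Lb.fm (nat_lit 9) t145)))))))))))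
noncomputable def l1020 : Lb := (@Lb.d (nat_lit 148) (nat_lit 0) (nat_lit 128) (@Lb.g g8 (@Lb.g g9 (@Lb.g g10 (@Lb.g g11 (@Lb.r r1706 (@Lb.r r1411 (@Lb.r r2201 (@Lb.r r408 (@Lb.d (nat_lit 385) (nat_lit 22) (nat_lit 260) (@Lb.fp (nat_lit 9) t440)))))))))))
noncomputable def l1021 : Lb := (@Lb.d (nat_lit 10) (nat_lit 0) (nat_lit 128) (@Lb.g g8 (@Lb.g g10 (@Lb.g g11 (@Lb.r r353 (@Lb.r r407 (@Lb.r r612 (@Lb.r r154 (@Lb.d (nat_lit 18) (nat_lit 0) (nat_lit 4) (@Lb.t (@Lb.fm (nat_lit 9) t285)))))))))))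
noncomputable def l1022 : Lb := (@Lb.d (nat_lit 128) (nat_lit 256) (nat_lit 128) (@Lb.g g10 (@Lb.g g11 (@Lb.r r264 (@Lb.r r519 (@Lb.r r101 (@Lb.r r154 (@Lb.d (nat_lit 146) (nat_lit 0) (nat_lit 129) (@Lb.fm (nat_lit 3) t285)))))))))
noncomputable def l1023 : Lb := (@Lb.d (nat_lit 0) (nat_lit 0) (nat_lit 130) (@Lb.g g9 (@Lb.g g10 (@Lb.g g11 (@Lb.r r1307 (@Lb.r r2709 (@Lb.r r2646 (@Lb.r r1416 (@Lb.d (nat_lit 521) (nat_lit 1) (nat_lit 2) (@Lb.t (@Lb.fp (nat_lit 9) t441)))))))))))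
noncomputable def l1024 : Lb := (@Lb.r r82 (@Lb.d (nat_lit 405) (nat_lit 256) (nat_lit 128) (@Lb.g g4 (@Lb.g g9 (@Lb.g g11 (@Lb.r r678 (@Lb.r r1411 (@Lb.r r2577 (@Lb.d (nat_lit 6) (nat_lit 8) (nat_lit 330) (@Lb.t (@Lb.fm (nat_lit 9) t442)))))))))))
noncomputable def l1025 : Lb := (@Lb.d (nat_lit 150) (nat_lit 256) (nat_lit 128) (@Lb.g g8 (@Lb.g g9 (@Lb.g g10 (@Lb.g g11 (@Lb.r r1675 (@Lb.r r613 (@Lb.r r666 (@Lb.r r1540 (@Lb.d (nat_lit 522) (nat_lit 164) (nat_lit 80) (@Lb.fm (nat_lit 9) t443)))))))))))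
noncomputable def l1026 : Lb := (@Lb.r r322 (@Lb.d (nat_lit 8) (nat_lit 2) (nat_lit 8) (@Lb.g g9 (@Lb.g g11 (@Lb.r r2456 (@Lb.r r2122 (@Lb.r r1617 (@Lb.d (nat_lit 658) (nat_lit 102) (nat_lit 384) (@Lb.fp (nat_lit 3) t444)))))))))
noncomputable def l1027 : Lb := (@Lb.r r323 (@Lb.d (nat_lit 6) (nat_lit 256) (nat_lit 0) (@Lb.g g8 (@Lb.g g9 (@Lb.g g10 (@Lb.r r1706 (@Lb.r r1681 (@Lb.r r1555 (@Lb.r r36 (@Lb.d (nat_lit 106) (nat_lit 68) (nat_lit 138) (@Lb.t (@Lb.fm (nat_lit 9) t445))))))))))))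
noncomputable def l1028 : Lb := (@Lb.d (nat_lit 4) (nat_lit 257) (nat_lit 136) (@Lb.r r609 (@Lb.r r619 (@Lb.r r584 (@Lb.r r134 (@Lb.g g7 (@Lb.g g4 (@Lb.d (nat_lit 1) (nat_lit 0) (nat_lit 64) (@Lb.fm (nat_lit 3) t167)))))))))
noncomputable def l1029 : Lb := (@Lb.d (nat_lit 256) (nat_lit 256) (nat_lit 1) (@Lb.r r24 (@Lb.r r101 (@Lb.r r2403 (@Lb.g g6 (@Lb.d (nat_lit 0) (nat_lit 4) (nat_lit 1) (@Lb.t (@Lb.fm (nat_lit 3) t58))))))))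
noncomputable def l1030 : Lb := (@Lb.d (nat_lit 9) (nat_lit 8) (nat_lit 130) (@Lb.g g8 (@Lb.g g10 (@Lb.g g11 (@Lb.r r545 (@Lb.r r299 (@Lb.r r356 (@Lb.r r154 (@Lb.d (nat_lit 10) (nat_lit 10) (nat_lit 128) (@Lb.t (@Lb.fm (nat_lit 9) t167)))))))))))
noncomputable def l1031 : Lb := (@Lb.d (nat_lit 0) (nat_lit 520) (nat_lit 130) (@Lb.g g10 (@Lb.g g11 (@Lb.r r387 (@Lb.r r24 (@Lb.r r101 (@Lb.d (nat_lit 26) (nat_lit 154) (nat_lit 388) (@Lb.fm (nat_lit 3) t446))))))))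
noncomputable def l1032 : Lb := (@Lb.d (nat_lit 2) (nat_lit 548) (nat_lit 70) (@Lb.r r613 (@Lb.r r338 (@Lb.r r551 (@Lb.g g7 (@Lb.g g5 (@Lb.g g8 (@Lb.d (nat_lit 10) (nat_lit 0) (nat_lit 64) (@Lb.r r98 (@Lb.t (@Lb.fm (nat_lit 9) t35)))))))))))
noncomputable def l1033 : Lb := (@Lb.d (nat_lit 585) (nat_lit 129) (nat_lit 512) (@Lb.r r2329 (@Lb.r r2452 (@Lb.r r1702 (@Lb.r r595 (@Lb.g g7 (@Lb.g g6 (@Lb.g g5 (@Lb.d (nat_lit 0) (nat_lit 18) (nat_lit 129) (@Lb.t (@Lb.fp (nat_lit 9) t340)))))))))))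
noncomputable def l1034 : Lb := (@Lb.r r24 (@Lb.r r101 (@Lb.r r402 (@Lb.d (nat_lit 0) (nat_lit 512) (nat_lit 66) (@Lb.fm (nat_lit 1) t311)))))
noncomputable def l1035 : Lb := (@Lb.d (nat_lit 130) (nat_lit 546) (nat_lit 0) (@Lb.g g8 (@Lb.g g9 (@Lb.r r2695 (@Lb.r r2178 (@Lb.r r408 (@Lb.r r2085 (@Lb.d (nat_lit 26) (nat_lit 160) (nat_lit 640) (@Lb.fm (nat_lit 3) t180)))))))))
noncomputable def l1036 : Lb := (@Lb.d (nat_lit 17) (nat_lit 257) (nat_lit 33) (@Lb.r r1096 (@Lb.r r1414 (@Lb.r r1619 (@Lb.g g5 (@Lb.d (nat_lit 0) (nat_lit 17) (nat_lit 0) (@Lb.t (@Lb.fp (nat_lit 3) t447))))))))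
noncomputable def l1037 : Lb := (@Lb.d (nat_lit 546) (nat_lit 406) (nat_lit 322) (@Lb.r r260 (@Lb.r r97 (@Lb.r r1611 (@Lb.r r532 (@Lb.g g7 (@Lb.g g10 (@Lb.g g5 (@Lb.g g4 (@Lb.d (nat_lit 1) (nat_lit 1) (nat_lit 145) (@Lb.fm (nat_lit 9) t448)))))))))))
noncomputable def l1038 : Lb := (@Lb.d (nat_lit 34) (nat_lit 2) (nat_lit 128) (@Lb.g g8 (@Lb.g g9 (@Lb.g g11 (@Lb.r r406 (@Lb.r r1383 (@Lb.r r97 (@Lb.r r2596 (@Lb.d (nat_lit 666) (nat_lit 20) (nat_lit 278) (@Lb.t (@Lb.fm (nat_lit 9) t339)))))))))))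
noncomputable def l1039 : Lb := (@Lb.d (nat_lit 402) (nat_lit 406) (nat_lit 354) (@Lb.r r2321 (@Lb.r r2386 (@Lb.r r679 (@Lb.g g6 (@Lb.g g5 (@Lb.g g8 (@Lb.d (nat_lit 10) (nat_lit 0) (nat_lit 1) (@Lb.t (@Lb.fp (nat_lit 9) t449))))))))))
noncomputable def l1040 : Lb := (@Lb.r r82 (@Lb.d (nat_lit 1) (nat_lit 34) (nat_lit 64) (@Lb.g g8 (@Lb.g g9 (@Lb.g g11 (@Lb.r r2466 (@Lb.r r2593 (@Lb.r r2471 (@Lb.r r1556 (@Lb.d (nat_lit 130) (nat_lit 106) (nat_lit 672) (@Lb.t (@Lb.fm (nat_lit 9) t196))))))))))))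
noncomputable def l1041 : Lb := (@Lb.d (nat_lit 146) (nat_lit 265) (nat_lit 130) (@Lb.g g8 (@Lb.g g9 (@Lb.g g10 (@Lb.g g11 (@Lb.r r683 (@Lb.r r618 (@Lb.r r1561 (@Lb.r r1540 (@Lb.d (nat_lit 393) (nat_lit 73) (nat_lit 545) (@Lb.fm (nat_lit 9) t326)))))))))))
noncomputable def l1042 : Lb := (@Lb.d (nat_lit 0) (nat_lit 256) (nat_lit 128) (@Lb.g g9 (@Lb.g g10 (@Lb.g g11 (@Lb.r r2471 (@Lb.r r1096 (@Lb.r r2646 (@Lb.r r409 (@Lb.d (nat_lit 272) (nat_lit 5) (nat_lit 34) (@Lb.t (@Lb.fp (nat_lit 9) t450)))))))))))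
noncomputable def l1043 : Lb := (@Lb.d (nat_lit 146) (nat_lit 2) (nat_lit 128) (@Lb.g g8 (@Lb.g g9 (@Lb.g g10 (@Lb.g g11 (@Lb.r r683 (@Lb.r r618 (@Lb.r r1561 (@Lb.r r1540 (@Lb.d (nat_lit 393) (nat_lit 73) (nat_lit 545) (@Lb.fm (nat_lit 9) t451)))))))))))
noncomputable def l1044 : Lb := (@Lb.r r24 (@Lb.r r101 (@Lb.r r402 (@Lb.d (nat_lit 0) (nat_lit 641) (nat_lit 66) (@Lb.fm (nat_lit 1) t452)))))
noncomputable def l1045 : Lb := (@Lb.d (nat_lit 0) (nat_lit 512) (nat_lit 137) (@Lb.g g4 (@Lb.g g10 (@Lb.g g7 (@Lb.r r2438 (@Lb.d (nat_lit 146) (nat_lit 0) (nat_lit 297) (@Lb.t (@Lb.fp (nat_lit 9) t282))))))))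
noncomputable def l1046 : Lb := (@Lb.d (nat_lit 9) (nat_lit 545) (nat_lit 1) (@Lb.g g8 (@Lb.g g9 (@Lb.g g10 (@Lb.r r275 (@Lb.r r2216 (@Lb.r r2666 (@Lb.r r2593 (@Lb.d (nat_lit 25) (nat_lit 148) (nat_lit 280) (@Lb.t (@Lb.fm (nat_lit 9) t453)))))))))))
noncomputable def l1047 : Lb := (@Lb.d (nat_lit 1) (nat_lit 2) (nat_lit 66) (@Lb.g g8 (@Lb.g g9 (@Lb.g g10 (@Lb.g g11 (@Lb.r r427 (@Lb.r r386 (@Lb.r r97 (@Lb.r r24 (@Lb.d (nat_lit 617) (nat_lit 2) (nat_lit 153) (@Lb.fm (nat_lit 9) t61)))))))))))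
noncomputable def l1048 : Lb := (@Lb.d (nat_lit 0) (nat_lit 546) (nat_lit 0) (@Lb.g g9 (@Lb.r r1303 (@Lb.r r1414 (@Lb.r r2600 (@Lb.r r153 (@Lb.d (nat_lit 21) (nat_lit 18) (nat_lit 424) (@Lb.t (@Lb.fp (nat_lit 3) t334)))))))))
noncomputable def l1049 : Lb := (@Lb.d (nat_lit 137) (nat_lit 521) (nat_lit 0) (@Lb.g g8 (@Lb.g g9 (@Lb.r r646 (@Lb.r r679 (@Lb.r r545 (@Lb.r r104 (@Lb.d (nat_lit 33) (nat_lit 153) (nat_lit 657) (@Lb.fm (nat_lit 3) t44)))))))))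
noncomputable def l1050 : Lb := (@Lb.d (nat_lit 130) (nat_lit 514) (nat_lit 0) (@Lb.g g8 (@Lb.g g9 (@Lb.r r1303 (@Lb.r r162 (@Lb.r r145 (@Lb.r r2664 (@Lb.d (nat_lit 353) (nat_lit 137) (nat_lit 2) (@Lb.fm (nat_lit 3) t334)))))))))
noncomputable def l1051 : Lb := (@Lb.d (nat_lit 0) (nat_lit 514) (nat_lit 2) (@Lb.g g9 (@Lb.g g10 (@Lb.r r2393 (@Lb.r r2658 (@Lb.r r1124 (@Lb.d (nat_lit 277) (nat_lit 89) (nat_lit 384) (@Lb.fm (nat_lit 3) t454))))))))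
noncomputable def l1052 : Lb := (@Lb.g g4 (@Lb.r r1098 (@Lb.d (nat_lit 577) (nat_lit 0) (nat_lit 512) (@Lb.t (@Lb.fm (nat_lit 3) t282)))))
noncomputable def l1053 : Lb := (@Lb.d (nat_lit 9) (nat_lit 517) (nat_lit 74) (@Lb.g g8 (@Lb.g g9 (@Lb.g g10 (@Lb.g g11 (@Lb.r r1707 (@Lb.r r680 (@Lb.r r362 (@Lb.r r2665 (@Lb.r r2084 (@Lb.d (nat_lit 682) (nat_lit 97) (nat_lit 640) (@Lb.fm (nat_lit 9) t68))))))))))))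
noncomputable def l1054 : Lb := (@Lb.d (nat_lit 0) (nat_lit 2) (nat_lit 0) (@Lb.g g9 (@Lb.g g7 (@Lb.r r1414 (@Lb.r r2153 (@Lb.r r2120 (@Lb.d (nat_lit 36) (nat_lit 129) (nat_lit 546) (@Lb.fm (nat_lit 3) t145))))))))
noncomputable def l1055 : Lb := (@Lb.d (nat_lit 9) (nat_lit 262) (nat_lit 74) (@Lb.g g8 (@Lb.g g9 (@Lb.g g10 (@Lb.g g11 (@Lb.r r1699 (@Lb.r r596 (@Lb.r r682 (@Lb.r r2217 (@Lb.r r2212 (@Lb.d (nat_lit 586) (nat_lit 97) (nat_lit 586) (@Lb.fm (nat_lit 9) t68))))))))))))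
noncomputable def l1056 : Lb := (@Lb.d (nat_lit 8) (nat_lit 514) (nat_lit 0) (@Lb.g g9 (@Lb.r r1126 (@Lb.r r24 (@Lb.d (nat_lit 361) (nat_lit 1) (nat_lit 528) (@Lb.t (@Lb.fm (nat_lit 3) t49)))))))
noncomputable def l1057 : Lb := (@Lb.d (nat_lit 1) (nat_lit 258) (nat_lit 130) (@Lb.g g8 (@Lb.g g9 (@Lb.g g10 (@Lb.g g11 (@Lb.r r2411 (@Lb.r r386 (@Lb.r r97 (@Lb.r r24 (@Lb.d (nat_lit 258) (nat_lit 0) (nat_lit 153) (@Lb.fm (nat_lit 9) t61)))))))))))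
noncomputable def l1058 : Lb := (@Lb.d (nat_lit 1) (nat_lit 258) (nat_lit 130) (@Lb.g g8 (@Lb.g g9 (@Lb.g g10 (@Lb.g g11 (@Lb.r r2705 (@Lb.r r356 (@Lb.r r667 (@Lb.r r586 (@Lb.r r1540 (@Lb.d (nat_lit 289) (nat_lit 0) (nat_lit 98) (@Lb.fm (nat_lit 9) t145))))))))))))
noncomputable def l1059 : Lb := (@Lb.d (nat_lit 129) (nat_lit 2) (nat_lit 2) (@Lb.g g8 (@Lb.g g9 (@Lb.g g10 (@Lb.r r263 (@Lb.r r2713 (@Lb.r r2712 (@Lb.r r2122 (@Lb.d (nat_lit 294) (nat_lit 38) (nat_lit 100) (@Lb.t (@Lb.fp (nat_lit 9) t145)))))))))))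
noncomputable def l1060 : Lb := (@Lb.d (nat_lit 130) (nat_lit 266) (nat_lit 0) (@Lb.g g8 (@Lb.g g9 (@Lb.r r646 (@Lb.r r679 (@Lb.r r545 (@Lb.r r104 (@Lb.d (nat_lit 33) (nat_lit 65) (nat_lit 20) (@Lb.fm (nat_lit 3) t334)))))))))
noncomputable def l1061 : Lb := (@Lb.r r21 (@Lb.d (nat_lit 137) (nat_lit 520) (nat_lit 2) (@Lb.g g8 (@Lb.g g10 (@Lb.r r1121 (@Lb.r r2646 (@Lb.r r327 (@Lb.r r676 (@Lb.d (nat_lit 165) (nat_lit 132) (nat_lit 410) (@Lb.fp (nat_lit 3) t2))))))))))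
noncomputable def l1062 : Lb := (@Lb.d (nat_lit 134) (nat_lit 33) (nat_lit 2) (@Lb.g g8 (@Lb.g g9 (@Lb.g g10 (@Lb.r r519 (@Lb.r r2436 (@Lb.r r678 (@Lb.r r1701 (@Lb.d (nat_lit 288) (nat_lit 70) (nat_lit 646) (@Lb.t (@Lb.fp (nat_lit 9) t2)))))))))))
noncomputable def l1063 : Lb := (@Lb.d (nat_lit 5) (nat_lit 0) (nat_lit 0) (@Lb.g g4 (@Lb.d (nat_lit 6) (nat_lit 65) (nat_lit 0) (@Lb.t (@Lb.fm (nat_lit 3) t2)))))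
noncomputable def l1064 : Lb := (@Lb.d (nat_lit 2) (nat_lit 0) (nat_lit 0) (@Lb.g g8 (@Lb.g g5 (@Lb.r r24 (@Lb.d (nat_lit 1) (nat_lit 64) (nat_lit 0) (@Lb.fm (nat_lit 3) t2))))))
noncomputable def l1065 : Lb := (@Lb.d (nat_lit 2) (nat_lit 0) (nat_lit 0) (@Lb.g g8 (@Lb.g g7 (@Lb.r r402 (@Lb.r r101 (@Lb.r r24 (@Lb.d (nat_lit 256) (nat_lit 0) (nat_lit 576) (@Lb.fm (nat_lit 3) t145))))))))
noncomputable def l1066 : Lb := (@Lb.d (nat_lit 1) (nat_lit 281) (nat_lit 73) (@Lb.g g8 (@Lb.g g9 (@Lb.g g10 (@Lb.g g11 (@Lb.r r2467 (@Lb.r r2474 (@Lb.r r424 (@Lb.r r297 (@Lb.r r36 (@Lb.d (nat_lit 644) (nat_lit 86) (nat_lit 129) (@Lb.fm (nat_lit 9) t50))))))))))))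
noncomputable def l1067 : Lb := (@Lb.d (nat_lit 0) (nat_lit 322) (nat_lit 66) (@Lb.g g4 (@Lb.g g9 (@Lb.g g10 (@Lb.g g11 (@Lb.r r419 (@Lb.r r98 (@Lb.d (nat_lit 0) (nat_lit 2) (nat_lit 138) (@Lb.fm (nat_lit 9) t51)))))))))
noncomputable def l1068 : Lb := (@Lb.d (nat_lit 8) (nat_lit 514) (nat_lit 2) (@Lb.g g9 (@Lb.g g10 (@Lb.r r2658 (@Lb.r r579 (@Lb.d (nat_lit 2) (nat_lit 102) (nat_lit 584) (@Lb.fp (nat_lit 3) t51)))))))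
noncomputable def l1069 : Lb := (@Lb.r r21 (@Lb.d (nat_lit 128) (nat_lit 264) (nat_lit 2) (@Lb.g g8 (@Lb.g g10 (@Lb.r r1287 (@Lb.r r1121 (@Lb.r r2450 (@Lb.r r2596 (@Lb.d (nat_lit 645) (nat_lit 40) (nat_lit 681) (@Lb.fm (nat_lit 3) t2))))))))))
noncomputable def l1070 : Lb := (@Lb.r r20 (@Lb.d (nat_lit 32) (nat_lit 385) (nat_lit 2) (@Lb.g g5 (@Lb.g g10 (@Lb.r r2707 (@Lb.r r72 (@Lb.r r582 (@Lb.d (nat_lit 425) (nat_lit 25) (nat_lit 393) (@Lb.fp (nat_lit 3) t455)))))))))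
noncomputable def l1071 : Lb := (@Lb.d (nat_lit 40) (nat_lit 512) (nat_lit 64) (@Lb.g g8 (@Lb.g g11 (@Lb.r r1703 (@Lb.r r614 (@Lb.r r1637 (@Lb.r r1428 (@Lb.d (nat_lit 358) (nat_lit 80) (nat_lit 409) (@Lb.fm (nat_lit 3) t386)))))))))
noncomputable def l1072 : Lb := (@Lb.r r21 (@Lb.d (nat_lit 33) (nat_lit 0) (nat_lit 1) (@Lb.g g8 (@Lb.g g10 (@Lb.r r2439 (@Lb.r r1608 (@Lb.r r2662 (@Lb.r r97 (@Lb.d (nat_lit 645) (nat_lit 162) (nat_lit 256) (@Lb.fm (nat_lit 3) t50))))))))))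
noncomputable def l1073 : Lb := (@Lb.d (nat_lit 2) (nat_lit 514) (nat_lit 74) (@Lb.g g8 (@Lb.g g9 (@Lb.g g10 (@Lb.g g11 (@Lb.r r657 (@Lb.r r535 (@Lb.r r392 (@Lb.r r74 (@Lb.d (nat_lit 33) (nat_lit 10) (nat_lit 152) (@Lb.fp (nat_lit 9) t221)))))))))))
noncomputable def l1074 : Lb := (@Lb.d (nat_lit 2) (nat_lit 514) (nat_lit 2) (@Lb.g g8 (@Lb.g g9 (@Lb.g g10 (@Lb.r r2411 (@Lb.r r386 (@Lb.r r97 (@Lb.r r24 (@Lb.d (nat_lit 153) (nat_lit 2) (nat_lit 324) (@Lb.t (@Lb.fp (nat_lit 9) t61)))))))))))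
noncomputable def l1075 : Lb := (@Lb.r r21 (@Lb.d (nat_lit 2) (nat_lit 0) (nat_lit 2) (@Lb.g g8 (@Lb.g g10 (@Lb.r r1691 (@Lb.r r1381 (@Lb.r r2202 (@Lb.r r2180 (@Lb.d (nat_lit 601) (nat_lit 65) (nat_lit 609) (@Lb.fp (nat_lit 3) t284))))))))))
noncomputable def l1076 : Lb := (@Lb.d (nat_lit 10) (nat_lit 513) (nat_lit 2) (@Lb.g g8 (@Lb.g g9 (@Lb.g g10 (@Lb.r r683 (@Lb.r r1689 (@Lb.r r1178 (@Lb.r r1156 (@Lb.d (nat_lit 345) (nat_lit 65) (nat_lit 280) (@Lb.t (@Lb.fm (nat_lit 9) t284)))))))))))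
noncomputable def l1077 : Lb := (@Lb.r r20 (@Lb.d (nat_lit 32) (nat_lit 129) (nat_lit 2) (@Lb.g g5 (@Lb.g g10 (@Lb.r r2707 (@Lb.r r72 (@Lb.r r582 (@Lb.d (nat_lit 425) (nat_lit 18) (nat_lit 394) (@Lb.fp (nat_lit 3) t455)))))))))
noncomputable def l1078 : Lb := (@Lb.d (nat_lit 10) (nat_lit 8) (nat_lit 1) (@Lb.g g8 (@Lb.g g10 (@Lb.g g11 (@Lb.r r1575 (@Lb.r r2129 (@Lb.r r1638 (@Lb.r r2436 (@Lb.d (nat_lit 617) (nat_lit 129) (nat_lit 648) (@Lb.t (@Lb.fp (nat_lit 9) t386)))))))))))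
noncomputable def l1079 : Lb := (@Lb.d (nat_lit 2) (nat_lit 514) (nat_lit 128) (@Lb.g g8 (@Lb.g g9 (@Lb.g g11 (@Lb.r r548 (@Lb.r r2727 (@Lb.r r2178 (@Lb.r r533 (@Lb.r r2084 (@Lb.d (nat_lit 153) (nat_lit 138) (nat_lit 345) (@Lb.t (@Lb.fm (nat_lit 9) t456))))))))))))
noncomputable def l1080 : Lb := (@Lb.r r323 (@Lb.d (nat_lit 2) (nat_lit 258) (nat_lit 1) (@Lb.g g8 (@Lb.g g9 (@Lb.g g6 (@Lb.r r2347 (@Lb.r r97 (@Lb.r r24 (@Lb.d (nat_lit 266) (nat_lit 9) (nat_lit 66) (@Lb.t (@Lb.fp (nat_lit 9) t314)))))))))))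
noncomputable def l1081 : Lb := (@Lb.d (nat_lit 2) (nat_lit 258) (nat_lit 4) (@Lb.g g8 (@Lb.g g9 (@Lb.g g10 (@Lb.g g11 (@Lb.r r1367 (@Lb.r r1366 (@Lb.r r97 (@Lb.r r24 (@Lb.d (nat_lit 153) (nat_lit 9) (nat_lit 361) (@Lb.fp (nat_lit 9) t457)))))))))))
noncomputable def l1082 : Lb := (@Lb.r r275 (@Lb.d (nat_lit 2) (nat_lit 516) (nat_lit 34) (@Lb.g g8 (@Lb.g g9 (@Lb.g g6 (@Lb.r r2667 (@Lb.r r1121 (@Lb.r r24 (@Lb.d (nat_lit 266) (nat_lit 137) (nat_lit 16) (@Lb.t (@Lb.fm (nat_lit 9) t458)))))))))))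
noncomputable def l1083 : Lb := (@Lb.r r263 (@Lb.d (nat_lit 0) (nat_lit 294) (nat_lit 0) (@Lb.g g8 (@Lb.g g9 (@Lb.g g10 (@Lb.r r362 (@Lb.r r360 (@Lb.r r1559 (@Lb.r r1433 (@Lb.d (nat_lit 666) (nat_lit 90) (nat_lit 106) (@Lb.t (@Lb.fm (nat_lit 9) t459))))))))))))
noncomputable def l1084 : Lb := (@Lb.r r82 (@Lb.r r275 (@Lb.d (nat_lit 2) (nat_lit 513) (nat_lit 0) (@Lb.g g8 (@Lb.g g5 (@Lb.r r1563 (@Lb.r r146 (@Lb.d (nat_lit 516) (nat_lit 4) (nat_lit 85) (@Lb.fp (nat_lit 3) t460)))))))))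
noncomputable def l1085 : Lb := (@Lb.d (nat_lit 134) (nat_lit 260) (nat_lit 128) (@Lb.g g8 (@Lb.g g9 (@Lb.g g10 (@Lb.g g11 (@Lb.r r610 (@Lb.r r1603 (@Lb.r r424 (@Lb.r r1321 (@Lb.r r2084 (@Lb.d (nat_lit 386) (nat_lit 86) (nat_lit 72) (@Lb.fm (nat_lit 9) t459))))))))))))
noncomputable def l1086 : Lb := (@Lb.d (nat_lit 0) (nat_lit 0) (nat_lit 130) (@Lb.g g8 (@Lb.g g10 (@Lb.g g11 (@Lb.r r602 (@Lb.r r1611 (@Lb.r r149 (@Lb.r r1636 (@Lb.d (nat_lit 516) (nat_lit 25) (nat_lit 2) (@Lb.t (@Lb.fp (nat_lit 9) t461)))))))))))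
noncomputable def l1087 : Lb := (@Lb.r r21 (@Lb.d (nat_lit 162) (nat_lit 0) (nat_lit 72) (@Lb.g g8 (@Lb.g g10 (@Lb.g g11 (@Lb.r r403 (@Lb.r r1702 (@Lb.r r97 (@Lb.r r1540 (@Lb.d (nat_lit 282) (nat_lit 170) (nat_lit 322) (@Lb.t (@Lb.fm (nat_lit 9) t462))))))))))))
noncomputable def l1088 : Lb := (@Lb.r r21 (@Lb.r r263 (@Lb.g g8 (@Lb.r r2315 (@Lb.r r2073 (@Lb.r r2052 (@Lb.t (@Lb.fp (nat_lit 3) t463))))))))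
noncomputable def l1089 : Lb := (@Lb.r r21 (@Lb.d (nat_lit 0) (nat_lit 256) (nat_lit 136) (@Lb.g g8 (@Lb.g g11 (@Lb.r r2649 (@Lb.r r2628 (@Lb.d (nat_lit 0) (nat_lit 0) (nat_lit 425) (@Lb.fm (nat_lit 3) t464))))))))
noncomputable def l1090 : Lb := (@Lb.d (nat_lit 160) (nat_lit 264) (nat_lit 128) (@Lb.g g10 (@Lb.g g11 (@Lb.r r260 (@Lb.r r2667 (@Lb.r r1633 (@Lb.r r338 (@Lb.d (nat_lit 538) (nat_lit 85) (nat_lit 673) (@Lb.fm (nat_lit 3) t465)))))))))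
noncomputable def l1091 : Lb := (@Lb.d (nat_lit 128) (nat_lit 518) (nat_lit 128) (@Lb.g g9 (@Lb.g g10 (@Lb.g g11 (@Lb.r r264 (@Lb.r r519 (@Lb.r r362 (@Lb.r r353 (@Lb.d (nat_lit 137) (nat_lit 41) (nat_lit 10) (@Lb.t (@Lb.fp (nat_lit 9) t69)))))))))))
noncomputable def l1092 : Lb := (@Lb.d (nat_lit 9) (nat_lit 552) (nat_lit 68) (@Lb.r r613 (@Lb.r r338 (@Lb.r r551 (@Lb.g g7 (@Lb.g g5 (@Lb.g g8 (@Lb.d (nat_lit 10) (nat_lit 0) (nat_lit 64) (@Lb.r r98 (@Lb.t (@Lb.fm (nat_lit 9) t336)))))))))))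
noncomputable def l1093 : Lb := (@Lb.r r82 (@Lb.d (nat_lit 400) (nat_lit 514) (nat_lit 128) (@Lb.g g4 (@Lb.g g9 (@Lb.g g11 (@Lb.r r678 (@Lb.r r1411 (@Lb.r r2577 (@Lb.d (nat_lit 6) (nat_lit 8) (nat_lit 330) (@Lb.t (@Lb.fm (nat_lit 9) t442)))))))))))
noncomputable def l1094 : Lb := (@Lb.r r21 (@Lb.d (nat_lit 16) (nat_lit 256) (nat_lit 128) (@Lb.g g8 (@Lb.g g10 (@Lb.g g11 (@Lb.r r395 (@Lb.r r297 (@Lb.r r392 (@Lb.r r602 (@Lb.d (nat_lit 105) (nat_lit 21) (nat_lit 64) (@Lb.t (@Lb.fm (nat_lit 9) t422))))))))))))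
noncomputable def l1095 : Lb := (@Lb.d (nat_lit 98) (nat_lit 593) (nat_lit 85) (@Lb.r r420 (@Lb.r r617 (@Lb.r r1387 (@Lb.g g10 (@Lb.g g5 (@Lb.g g4 (@Lb.d (nat_lit 65) (nat_lit 1) (nat_lit 22) (@Lb.t (@Lb.fp (nat_lit 9) t466))))))))))
noncomputable def l1096 : Lb := (@Lb.r r326 (@Lb.d (nat_lit 386) (nat_lit 258) (nat_lit 128) (@Lb.g g8 (@Lb.g g9 (@Lb.g g11 (@Lb.r r1323 (@Lb.r r2626 (@Lb.r r25 (@Lb.d (nat_lit 9) (nat_lit 104) (nat_lit 642) (@Lb.t (@Lb.fm (nat_lit 9) t394)))))))))))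
noncomputable def l1097 : Lb := (@Lb.g g6 (@Lb.r r1346 (@Lb.d (nat_lit 0) (nat_lit 256) (nat_lit 576) (@Lb.t (@Lb.fm (nat_lit 3) t2)))))
noncomputable def l1098 : Lb := (@Lb.g g10 (@Lb.r r2626 (@Lb.d (nat_lit 0) (nat_lit 0) (nat_lit 384) (@Lb.t (@Lb.fp (nat_lit 3) t2)))))
noncomputable def l1099 : Lb := (@Lb.d (nat_lit 8) (nat_lit 260) (nat_lit 74) (@Lb.g g9 (@Lb.g g10 (@Lb.g g11 (@Lb.r r611 (@Lb.r r1610 (@Lb.r r2644 (@Lb.r r1321 (@Lb.d (nat_lit 265) (nat_lit 26) (nat_lit 644) (@Lb.t (@Lb.fm (nat_lit 9) t467)))))))))))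
noncomputable def l1100 : Lb := (@Lb.d (nat_lit 9) (nat_lit 257) (nat_lit 2) (@Lb.g g8 (@Lb.g g9 (@Lb.g g10 (@Lb.r r683 (@Lb.r r2666 (@Lb.r r1572 (@Lb.r r37 (@Lb.d (nat_lit 549) (nat_lit 96) (nat_lit 641) (@Lb.t (@Lb.fm (nat_lit 9) t468)))))))))))
noncomputable def l1101 : Lb := (@Lb.d (nat_lit 2) (nat_lit 34) (nat_lit 2) (@Lb.g g8 (@Lb.g g9 (@Lb.g g10 (@Lb.r r1194 (@Lb.r r2468 (@Lb.r r1307 (@Lb.r r1573 (@Lb.d (nat_lit 390) (nat_lit 16) (nat_lit 586) (@Lb.t (@Lb.fm (nat_lit 9) t284)))))))))))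
noncomputable def l1102 : Lb := (@Lb.d (nat_lit 2) (nat_lit 514) (nat_lit 2) (@Lb.g g8 (@Lb.g g9 (@Lb.g g10 (@Lb.r r683 (@Lb.r r2666 (@Lb.r r1572 (@Lb.r r37 (@Lb.d (nat_lit 554) (nat_lit 97) (nat_lit 641) (@Lb.t (@Lb.fm (nat_lit 9) t468)))))))))))
noncomputable def l1103 : Lb := (@Lb.d (nat_lit 2) (nat_lit 2) (nat_lit 2) (@Lb.g g8 (@Lb.g g9 (@Lb.g g10 (@Lb.r r683 (@Lb.r r2666 (@Lb.r r1572 (@Lb.r r37 (@Lb.d (nat_lit 549) (nat_lit 96) (nat_lit 641) (@Lb.t (@Lb.fm (nat_lit 9) t468)))))))))))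
noncomputable def l1104 : Lb := (@Lb.d (nat_lit 0) (nat_lit 512) (nat_lit 512) (@Lb.r r1346 (@Lb.g g7 (@Lb.g g10 (@Lb.fp (nat_lit 3) t2)))))
noncomputable def l1105 : Lb := (@Lb.d (nat_lit 128) (nat_lit 0) (nat_lit 324) (@Lb.g g7 (@Lb.d (nat_lit 272) (nat_lit 0) (nat_lit 102) (@Lb.t (@Lb.fm (nat_lit 3) t469)))))
noncomputable def l1106 : Lb := (@Lb.d (nat_lit 2) (nat_lit 258) (nat_lit 73) (@Lb.g g8 (@Lb.g g9 (@Lb.g g10 (@Lb.g g11 (@Lb.r r2666 (@Lb.r r579 (@Lb.r r25 (@Lb.d (nat_lit 9) (nat_lit 97) (nat_lit 586) (@Lb.fm (nat_lit 9) t51))))))))))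
noncomputable def l1107 : Lb := (@Lb.d (nat_lit 400) (nat_lit 256) (nat_lit 401) (@Lb.g g11 (@Lb.t (@Lb.fp (nat_lit 3) t470))))
noncomputable def l1108 : Lb := (@Lb.d (nat_lit 400) (nat_lit 0) (nat_lit 408) (@Lb.g g6 (@Lb.d (nat_lit 0) (nat_lit 0) (nat_lit 5) (@Lb.t (@Lb.fm (nat_lit 3) t471)))))
noncomputable def l1109 : Lb := (@Lb.d (nat_lit 153) (nat_lit 513) (nat_lit 128) (@Lb.g g8 (@Lb.g g9 (@Lb.g g10 (@Lb.g g11 (@Lb.r r683 (@Lb.r r2724 (@Lb.r r1190 (@Lb.r r145 (@Lb.d (nat_lit 9) (nat_lit 132) (nat_lit 664) (@Lb.fp (nat_lit 9) t472)))))))))))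
noncomputable def l1110 : Lb := (@Lb.r r24 (@Lb.r r101 (@Lb.d (nat_lit 0) (nat_lit 593) (nat_lit 426) (@Lb.fp (nat_lit 1) t153))))
noncomputable def l1111 : Lb := (@Lb.d (nat_lit 146) (nat_lit 2) (nat_lit 128) (@Lb.g g8 (@Lb.g g9 (@Lb.g g10 (@Lb.g g11 (@Lb.r r683 (@Lb.r r2724 (@Lb.r r1190 (@Lb.r r145 (@Lb.d (nat_lit 9) (nat_lit 137) (nat_lit 665) (@Lb.fp (nat_lit 9) t472)))))))))))
noncomputable def l1112 : Lb := (@Lb.d (nat_lit 262) (nat_lit 518) (nat_lit 342) (@Lb.r r81 (@Lb.r r102 (@Lb.r r597 (@Lb.r r343 (@Lb.g g7 (@Lb.g g6 (@Lb.g g5 (@Lb.g g4 (@Lb.d (nat_lit 1) (nat_lit 1) (nat_lit 65) (@Lb.fp (nat_lit 9) t473)))))))))))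
noncomputable def l1113 : Lb := (@Lb.d (nat_lit 341) (nat_lit 549) (nat_lit 340) (@Lb.r r597 (@Lb.r r70 (@Lb.r r599 (@Lb.g g6 (@Lb.g g5 (@Lb.g g4 (@Lb.d (nat_lit 1) (nat_lit 17) (nat_lit 1) (@Lb.r r387 (@Lb.t (@Lb.fm (nat_lit 9) t146)))))))))))
noncomputable def l1114 : Lb := (@Lb.r r323 (@Lb.d (nat_lit 673) (nat_lit 258) (nat_lit 2) (@Lb.g g8 (@Lb.g g9 (@Lb.g g10 (@Lb.r r1386 (@Lb.r r387 (@Lb.r r25 (@Lb.d (nat_lit 9) (nat_lit 161) (nat_lit 618) (@Lb.t (@Lb.fm (nat_lit 9) t474)))))))))))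
noncomputable def l1115 : Lb := (@Lb.r r322 (@Lb.d (nat_lit 2) (nat_lit 33) (nat_lit 128) (@Lb.g g8 (@Lb.g g9 (@Lb.g g11 (@Lb.r r2713 (@Lb.r r146 (@Lb.d (nat_lit 353) (nat_lit 80) (nat_lit 358) (@Lb.t (@Lb.fp (nat_lit 9) t475))))))))))
noncomputable def l1116 : Lb := (@Lb.g g7 (@Lb.r r1114 (@Lb.r r289 (@Lb.r r407 (@Lb.r r1096 (@Lb.d (nat_lit 258) (nat_lit 512) (nat_lit 320) (@Lb.t (@Lb.fm (nat_lit 3) t476))))))))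
noncomputable def l1117 : Lb := (@Lb.d (nat_lit 0) (nat_lit 138) (nat_lit 69) (@Lb.r r289 (@Lb.r r1386 (@Lb.r r1096 (@Lb.r r1307 (@Lb.g g7 (@Lb.g g5 (@Lb.fm (nat_lit 3) t477))))))))
noncomputable def l1118 : Lb := (@Lb.r r322 (@Lb.d (nat_lit 2) (nat_lit 272) (nat_lit 68) (@Lb.g g8 (@Lb.g g9 (@Lb.g g11 (@Lb.r r2666 (@Lb.r r2729 (@Lb.d (nat_lit 341) (nat_lit 161) (nat_lit 337) (@Lb.t (@Lb.fp (nat_lit 9) t478))))))))))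
noncomputable def l1119 : Lb := (@Lb.d (nat_lit 0) (nat_lit 288) (nat_lit 128) (@Lb.g g11 (@Lb.r r1114 (@Lb.r r2453 (@Lb.r r1315 (@Lb.r r1096 (@Lb.d (nat_lit 130) (nat_lit 2) (nat_lit 512) (@Lb.t (@Lb.fm (nat_lit 3) t476)))))))))
noncomputable def l1120 : Lb := (@Lb.r r323 (@Lb.d (nat_lit 2) (nat_lit 0) (nat_lit 1) (@Lb.g g8 (@Lb.g g5 (@Lb.g g10 (@Lb.r r387 (@Lb.r r24 (@Lb.d (nat_lit 10) (nat_lit 0) (nat_lit 2) (@Lb.t (@Lb.fm (nat_lit 9) t2))))))))))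
noncomputable def l1121 : Lb := (@Lb.d (nat_lit 0) (nat_lit 545) (nat_lit 0) (@Lb.g g9 (@Lb.r r535 (@Lb.r r134 (@Lb.r r296 (@Lb.r r409 (@Lb.d (nat_lit 149) (nat_lit 100) (nat_lit 154) (@Lb.t (@Lb.fm (nat_lit 3) t479)))))))))
noncomputable def l1122 : Lb := (@Lb.d (nat_lit 26) (nat_lit 552) (nat_lit 129) (@Lb.g g8 (@Lb.g g9 (@Lb.g g10 (@Lb.g g11 (@Lb.r r578 (@Lb.r r2627 (@Lb.r r36 (@Lb.r r2197 (@Lb.r r2084 (@Lb.d (nat_lit 594) (nat_lit 138) (nat_lit 346) (@Lb.fm (nat_lit 9) t480))))))))))))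
noncomputable def l1123 : Lb := (@Lb.d (nat_lit 10) (nat_lit 649) (nat_lit 0) (@Lb.r r82 (@Lb.r r275 (@Lb.g g9 (@Lb.d (nat_lit 0) (nat_lit 70) (nat_lit 0) (@Lb.r r291 (@Lb.r r98 (@Lb.t (@Lb.fp (nat_lit 3) t8)))))))))
noncomputable def l1124 : Lb := (@Lb.d (nat_lit 0) (nat_lit 0) (nat_lit 128) (@Lb.g g9 (@Lb.g g11 (@Lb.r r134 (@Lb.r r584 (@Lb.r r427 (@Lb.r r417 (@Lb.d (nat_lit 8) (nat_lit 65) (nat_lit 154) (@Lb.fp (nat_lit 3) t481)))))))))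
noncomputable def l1125 : Lb := (@Lb.d (nat_lit 394) (nat_lit 18) (nat_lit 577) (@Lb.r r101 (@Lb.r r2659 (@Lb.g g6 (@Lb.d (nat_lit 0) (nat_lit 4) (nat_lit 17) (@Lb.r r387 (@Lb.t (@Lb.fm (nat_lit 3) t482))))))))
noncomputable def l1126 : Lb := (@Lb.d (nat_lit 0) (nat_lit 513) (nat_lit 128) (@Lb.g g9 (@Lb.g g11 (@Lb.r r134 (@Lb.r r584 (@Lb.r r603 (@Lb.r r401 (@Lb.d (nat_lit 8) (nat_lit 102) (nat_lit 154) (@Lb.fp (nat_lit 3) t479)))))))))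
noncomputable def l1127 : Lb := (@Lb.r r322 (@Lb.d (nat_lit 74) (nat_lit 272) (nat_lit 324) (@Lb.g g8 (@Lb.g g9 (@Lb.g g11 (@Lb.r r2630 (@Lb.r r2201 (@Lb.r r1444 (@Lb.d (nat_lit 553) (nat_lit 36) (nat_lit 426) (@Lb.t (@Lb.fm (nat_lit 9) t483)))))))))))
noncomputable def l1128 : Lb := (@Lb.r r82 (@Lb.d (nat_lit 5) (nat_lit 42) (nat_lit 64) (@Lb.g g4 (@Lb.g g9 (@Lb.g g11 (@Lb.r r615 (@Lb.r r402 (@Lb.r r601 (@Lb.d (nat_lit 132) (nat_lit 166) (nat_lit 136) (@Lb.t (@Lb.fp (nat_lit 9) t106)))))))))))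
noncomputable def l1129 : Lb := (@Lb.r r359 (@Lb.d (nat_lit 4) (nat_lit 521) (nat_lit 2) (@Lb.g g8 (@Lb.g g9 (@Lb.g g10 (@Lb.r r683 (@Lb.r r610 (@Lb.r r1617 (@Lb.r r2440 (@Lb.d (nat_lit 0) (nat_lit 165) (nat_lit 665) (@Lb.t (@Lb.fm (nat_lit 9) t197))))))))))))
noncomputable def l1130 : Lb := (@Lb.g g4 (@Lb.g g5 (@Lb.r r138 (@Lb.r r644 (@Lb.r r407 (@Lb.r r609 (@Lb.d (nat_lit 0) (nat_lit 134) (nat_lit 69) (@Lb.fm (nat_lit 3) t71))))))))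
noncomputable def l1131 : Lb := (@Lb.d (nat_lit 5) (nat_lit 576) (nat_lit 0) (@Lb.g g4 (@Lb.t (@Lb.fm (nat_lit 3) t2))))
noncomputable def l1132 : Lb := (@Lb.r r21 (@Lb.d (nat_lit 1) (nat_lit 520) (nat_lit 130) (@Lb.g g8 (@Lb.g g10 (@Lb.g g11 (@Lb.r r1451 (@Lb.r r2581 (@Lb.r r1384 (@Lb.r r150 (@Lb.d (nat_lit 38) (nat_lit 21) (nat_lit 598) (@Lb.t (@Lb.fm (nat_lit 9) t119))))))))))))
noncomputable def l1133 : Lb := (@Lb.d (nat_lit 2) (nat_lit 2) (nat_lit 162) (@Lb.g g8 (@Lb.g g9 (@Lb.g g6 (@Lb.g g11 (@Lb.r r548 (@Lb.r r615 (@Lb.r r533 (@Lb.r r2084 (@Lb.d (nat_lit 146) (nat_lit 136) (nat_lit 328) (@Lb.fp (nat_lit 9) t229)))))))))))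
noncomputable def l1134 : Lb := (@Lb.d (nat_lit 129) (nat_lit 258) (nat_lit 66) (@Lb.g g8 (@Lb.g g9 (@Lb.g g10 (@Lb.g g11 (@Lb.r r2631 (@Lb.r r666 (@Lb.r r421 (@Lb.r r616 (@Lb.d (nat_lit 400) (nat_lit 66) (nat_lit 274) (@Lb.fp (nat_lit 9) t375)))))))))))
noncomputable def l1135 : Lb := (@Lb.d (nat_lit 128) (nat_lit 514) (nat_lit 66) (@Lb.g g8 (@Lb.g g9 (@Lb.g g10 (@Lb.g g11 (@Lb.r r2631 (@Lb.r r666 (@Lb.r r421 (@Lb.r r616 (@Lb.d (nat_lit 400) (nat_lit 66) (nat_lit 274) (@Lb.fp (nat_lit 9) t375)))))))))))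
noncomputable def l1136 : Lb := (@Lb.d (nat_lit 0) (nat_lit 546) (nat_lit 64) (@Lb.g g9 (@Lb.g g11 (@Lb.r r2577 (@Lb.r r531 (@Lb.d (nat_lit 0) (nat_lit 82) (nat_lit 640) (@Lb.fp (nat_lit 3) t484)))))))
noncomputable def l1137 : Lb := (@Lb.d (nat_lit 288) (nat_lit 513) (nat_lit 169) (@Lb.r r2696 (@Lb.r r2634 (@Lb.r r1683 (@Lb.g g6 (@Lb.g g5 (@Lb.g g4 (@Lb.d (nat_lit 6) (nat_lit 18) (nat_lit 1) (@Lb.r r279 (@Lb.t (@Lb.fp (nat_lit 9) t264)))))))))))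
noncomputable def l1138 : Lb := (@Lb.d (nat_lit 129) (nat_lit 2) (nat_lit 66) (@Lb.g g8 (@Lb.g g9 (@Lb.g g10 (@Lb.g g11 (@Lb.r r2631 (@Lb.r r666 (@Lb.r r421 (@Lb.r r616 (@Lb.d (nat_lit 401) (nat_lit 66) (nat_lit 274) (@Lb.fp (nat_lit 9) t485)))))))))))
noncomputable def l1139 : Lb := (@Lb.d (nat_lit 89) (nat_lit 354) (nat_lit 401) (@Lb.r r2666 (@Lb.r r1381 (@Lb.r r323 (@Lb.g g7 (@Lb.g g6 (@Lb.g g5 (@Lb.g g4 (@Lb.d (nat_lit 1) (nat_lit 20) (nat_lit 132) (@Lb.fm (nat_lit 9) t375))))))))))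
noncomputable def l1140 : Lb := (@Lb.r r82 (@Lb.d (nat_lit 34) (nat_lit 514) (nat_lit 136) (@Lb.g g8 (@Lb.g g9 (@Lb.g g11 (@Lb.r r1362 (@Lb.r r2645 (@Lb.r r356 (@Lb.r r395 (@Lb.d (nat_lit 546) (nat_lit 34) (nat_lit 680) (@Lb.t (@Lb.fm (nat_lit 9) t98))))))))))))
noncomputable def l1141 : Lb := (@Lb.d (nat_lit 2) (nat_lit 256) (nat_lit 130) (@Lb.g g8 (@Lb.g g9 (@Lb.g g10 (@Lb.g g11 (@Lb.r r1707 (@Lb.r r680 (@Lb.r r170 (@Lb.r r41 (@Lb.r r2084 (@Lb.d (nat_lit 256) (nat_lit 10) (nat_lit 169) (@Lb.fp (nat_lit 9) t221))))))))))))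
noncomputable def l1142 : Lb := (@Lb.d (nat_lit 0) (nat_lit 256) (nat_lit 68) (@Lb.g g10 (@Lb.g g7 (@Lb.r r386 (@Lb.d (nat_lit 0) (nat_lit 0) (nat_lit 66) (@Lb.fm (nat_lit 3) t2))))))
noncomputable def l1143 : Lb := (@Lb.d (nat_lit 32) (nat_lit 0) (nat_lit 146) (@Lb.g g9 (@Lb.g g10 (@Lb.g g11 (@Lb.r r2471 (@Lb.r r2341 (@Lb.r r1096 (@Lb.d (nat_lit 546) (nat_lit 64) (nat_lit 33) (@Lb.t (@Lb.fm (nat_lit 9) t486))))))))))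
noncomputable def l1144 : Lb := (@Lb.r r323 (@Lb.g g6 (@Lb.r r579 (@Lb.r r642 (@Lb.d (nat_lit 0) (nat_lit 0) (nat_lit 69) (@Lb.t (@Lb.fm (nat_lit 3) t2)))))))
noncomputable def l1145 : Lb := (@Lb.d (nat_lit 146) (nat_lit 548) (nat_lit 133) (@Lb.g g8 (@Lb.g g9 (@Lb.g g10 (@Lb.g g11 (@Lb.r r2731 (@Lb.r r2724 (@Lb.r r1190 (@Lb.r r1177 (@Lb.d (nat_lit 278) (nat_lit 74) (nat_lit 649) (@Lb.fp (nat_lit 9) t487)))))))))))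
noncomputable def l1146 : Lb := (@Lb.d (nat_lit 2) (nat_lit 550) (nat_lit 133) (@Lb.g g8 (@Lb.g g9 (@Lb.g g10 (@Lb.g g11 (@Lb.r r1706 (@Lb.r r1188 (@Lb.r r1317 (@Lb.r r531 (@Lb.d (nat_lit 321) (nat_lit 161) (nat_lit 266) (@Lb.fm (nat_lit 9) t404)))))))))))
noncomputable def l1147 : Lb := (@Lb.r r593 (@Lb.d (nat_lit 1) (nat_lit 256) (nat_lit 9) (@Lb.g g8 (@Lb.g g6 (@Lb.g g11 (@Lb.r r2657 (@Lb.r r1319 (@Lb.r r2628 (@Lb.d (nat_lit 393) (nat_lit 136) (nat_lit 394) (@Lb.t (@Lb.fm (nat_lit 9) t488)))))))))))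
noncomputable def l1148 : Lb := (@Lb.d (nat_lit 150) (nat_lit 614) (nat_lit 20) (@Lb.r r1044 (@Lb.r r2073 (@Lb.r r404 (@Lb.r r2667 (@Lb.g g7 (@Lb.g g10 (@Lb.g g5 (@Lb.g g4 (@Lb.d (nat_lit 6) (nat_lit 2) (nat_lit 81) (@Lb.fp (nat_lit 9) t489)))))))))))
noncomputable def l1149 : Lb := (@Lb.d (nat_lit 0) (nat_lit 2) (nat_lit 130) (@Lb.g g9 (@Lb.g g10 (@Lb.g g11 (@Lb.r r1379 (@Lb.r r2438 (@Lb.r r104 (@Lb.r r25 (@Lb.d (nat_lit 522) (nat_lit 18) (nat_lit 320) (@Lb.t (@Lb.fm (nat_lit 9) t490)))))))))))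
noncomputable def l1150 : Lb := (@Lb.d (nat_lit 1) (nat_lit 514) (nat_lit 130) (@Lb.g g8 (@Lb.g g9 (@Lb.g g10 (@Lb.g g11 (@Lb.r r2411 (@Lb.r r386 (@Lb.r r97 (@Lb.r r24 (@Lb.d (nat_lit 266) (nat_lit 2) (nat_lit 84) (@Lb.fm (nat_lit 9) t61)))))))))))
noncomputable def l1151 : Lb := (@Lb.r r593 (@Lb.d (nat_lit 154) (nat_lit 296) (nat_lit 66) (@Lb.g g8 (@Lb.g g6 (@Lb.g g11 (@Lb.r r1425 (@Lb.r r1319 (@Lb.r r584 (@Lb.d (nat_lit 102) (nat_lit 72) (nat_lit 170) (@Lb.t (@Lb.fm (nat_lit 9) t488)))))))))))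
noncomputable def l1152 : Lb := (@Lb.r r21 (@Lb.d (nat_lit 146) (nat_lit 512) (nat_lit 133) (@Lb.g g8 (@Lb.g g10 (@Lb.g g11 (@Lb.r r323 (@Lb.r r2374 (@Lb.r r1177 (@Lb.r r1156 (@Lb.d (nat_lit 98) (nat_lit 0) (nat_lit 610) (@Lb.t (@Lb.fm (nat_lit 9) t491))))))))))))
noncomputable def l1153 : Lb := (@Lb.r r323 (@Lb.d (nat_lit 2) (nat_lit 2) (nat_lit 2) (@Lb.g g8 (@Lb.g g9 (@Lb.g g10 (@Lb.r r2347 (@Lb.r r2154 (@Lb.r r104 (@Lb.r r25 (@Lb.d (nat_lit 97) (nat_lit 90) (nat_lit 66) (@Lb.t (@Lb.fp (nat_lit 9) t492))))))))))))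
noncomputable def l1154 : Lb := (@Lb.d (nat_lit 2) (nat_lit 258) (nat_lit 130) (@Lb.g g8 (@Lb.g g9 (@Lb.g g10 (@Lb.g g11 (@Lb.r r2411 (@Lb.r r386 (@Lb.r r97 (@Lb.r r24 (@Lb.d (nat_lit 266) (nat_lit 2) (nat_lit 84) (@Lb.fm (nat_lit 9) t61)))))))))))
noncomputable def l1155 : Lb := (@Lb.d (nat_lit 146) (nat_lit 2) (nat_lit 82) (@Lb.g g8 (@Lb.g g9 (@Lb.g g6 (@Lb.g g11 (@Lb.r r292 (@Lb.r r2635 (@Lb.r r97 (@Lb.r r516 (@Lb.d (nat_lit 18) (nat_lit 169) (nat_lit 401) (@Lb.fm (nat_lit 9) t493)))))))))))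
noncomputable def l1156 : Lb := (@Lb.r r21 (@Lb.d (nat_lit 146) (nat_lit 256) (nat_lit 64) (@Lb.g g8 (@Lb.g g10 (@Lb.g g11 (@Lb.r r323 (@Lb.r r2374 (@Lb.r r1177 (@Lb.r r1156 (@Lb.d (nat_lit 101) (nat_lit 1) (nat_lit 610) (@Lb.t (@Lb.fm (nat_lit 9) t491))))))))))))
noncomputable def l1157 : Lb := (@Lb.r r323 (@Lb.g g10 (@Lb.r r322 (@Lb.r r387 (@Lb.d (nat_lit 0) (nat_lit 256) (nat_lit 138) (@Lb.t (@Lb.fp (nat_lit 3) t2)))))))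
noncomputable def l1158 : Lb := (@Lb.d (nat_lit 10) (nat_lit 520) (nat_lit 130) (@Lb.g g8 (@Lb.g g10 (@Lb.g g11 (@Lb.r r353 (@Lb.r r407 (@Lb.r r612 (@Lb.r r154 (@Lb.d (nat_lit 25) (nat_lit 2) (nat_lit 6) (@Lb.t (@Lb.fm (nat_lit 9) t45)))))))))))
noncomputable def l1159 : Lb := (@Lb.d (nat_lit 128) (nat_lit 8) (nat_lit 130) (@Lb.g g10 (@Lb.g g11 (@Lb.r r264 (@Lb.r r519 (@Lb.r r101 (@Lb.r r154 (@Lb.d (nat_lit 153) (nat_lit 2) (nat_lit 128) (@Lb.fm (nat_lit 3) t45)))))))))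
noncomputable def l1160 : Lb := (@Lb.d (nat_lit 401) (nat_lit 514) (nat_lit 128) (@Lb.g g4 (@Lb.g g9 (@Lb.g g10 (@Lb.g g11 (@Lb.r r678 (@Lb.r r1411 (@Lb.r r145 (@Lb.d (nat_lit 1) (nat_lit 86) (nat_lit 356) (@Lb.fp (nat_lit 9) t394))))))))))
noncomputable def l1161 : Lb := (@Lb.d (nat_lit 10) (nat_lit 256) (nat_lit 130) (@Lb.g g8 (@Lb.g g10 (@Lb.g g11 (@Lb.r r293 (@Lb.r r279 (@Lb.r r98 (@Lb.r r548 (@Lb.d (nat_lit 154) (nat_lit 20) (nat_lit 6) (@Lb.t (@Lb.fp (nat_lit 9) t494)))))))))))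
noncomputable def l1162 : Lb := (@Lb.r r275 (@Lb.d (nat_lit 2) (nat_lit 256) (nat_lit 2) (@Lb.g g8 (@Lb.g g9 (@Lb.g g10 (@Lb.r r2666 (@Lb.r r1603 (@Lb.r r1313 (@Lb.d (nat_lit 521) (nat_lit 66) (nat_lit 0) (@Lb.t (@Lb.fm (nat_lit 9) t495)))))))))))
noncomputable def l1163 : Lb := (@Lb.d (nat_lit 9) (nat_lit 520) (nat_lit 161) (@Lb.g g8 (@Lb.g g9 (@Lb.g g6 (@Lb.g g11 (@Lb.r r612 (@Lb.r r2311 (@Lb.r r97 (@Lb.r r1540 (@Lb.d (nat_lit 4) (nat_lit 106) (nat_lit 640) (@Lb.fp (nat_lit 9) t496)))))))))))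
noncomputable def l1164 : Lb := (@Lb.r r323 (@Lb.d (nat_lit 9) (nat_lit 8) (nat_lit 2) (@Lb.g g8 (@Lb.g g9 (@Lb.g g10 (@Lb.r r683 (@Lb.r r170 (@Lb.r r1177 (@Lb.r r1156 (@Lb.d (nat_lit 298) (nat_lit 65) (nat_lit 68) (@Lb.t (@Lb.fm (nat_lit 9) t497))))))))))))
noncomputable def l1165 : Lb := (@Lb.d (nat_lit 154) (nat_lit 154) (nat_lit 354) (@Lb.r r37 (@Lb.r r295 (@Lb.r r596 (@Lb.g g7 (@Lb.g g10 (@Lb.d (nat_lit 64) (nat_lit 4) (nat_lit 81) (@Lb.r r145 (@Lb.fm (nat_lit 3) t498)))))))))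
noncomputable def l1166 : Lb := (@Lb.d (nat_lit 9) (nat_lit 33) (nat_lit 4) (@Lb.g g8 (@Lb.g g9 (@Lb.g g10 (@Lb.g g11 (@Lb.r r682 (@Lb.r r676 (@Lb.r r551 (@Lb.r r533 (@Lb.r r36 (@Lb.d (nat_lit 137) (nat_lit 1) (nat_lit 74) (@Lb.fp (nat_lit 9) t74))))))))))))
noncomputable def l1167 : Lb := (@Lb.d (nat_lit 2) (nat_lit 514) (nat_lit 2) (@Lb.g g8 (@Lb.g g9 (@Lb.g g10 (@Lb.g g11 (@Lb.r r1371 (@Lb.r r386 (@Lb.r r97 (@Lb.r r24 (@Lb.d (nat_lit 256) (nat_lit 168) (nat_lit 386) (@Lb.fm (nat_lit 9) t499)))))))))))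
noncomputable def l1168 : Lb := (@Lb.d (nat_lit 1) (nat_lit 514) (nat_lit 130) (@Lb.g g4 (@Lb.g g9 (@Lb.g g10 (@Lb.g g11 (@Lb.r r1443 (@Lb.r r386 (@Lb.r r97 (@Lb.d (nat_lit 1) (nat_lit 9) (nat_lit 642) (@Lb.fm (nat_lit 9) t500))))))))))
noncomputable def l1169 : Lb := (@Lb.d (nat_lit 0) (nat_lit 2) (nat_lit 130) (@Lb.g g9 (@Lb.g g10 (@Lb.g g11 (@Lb.r r1443 (@Lb.r r386 (@Lb.r r97 (@Lb.r r8 (@Lb.d (nat_lit 2) (nat_lit 9) (nat_lit 642) (@Lb.t (@Lb.fp (nat_lit 9) t500)))))))))))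
noncomputable def l1170 : Lb := (@Lb.d (nat_lit 0) (nat_lit 514) (nat_lit 9) (@Lb.g g9 (@Lb.g g10 (@Lb.g g7 (@Lb.r r386 (@Lb.r r97 (@Lb.d (nat_lit 0) (nat_lit 9) (nat_lit 137) (@Lb.t (@Lb.fp (nat_lit 9) t87)))))))))
noncomputable def l1171 : Lb := (@Lb.r r82 (@Lb.d (nat_lit 8) (nat_lit 33) (nat_lit 136) (@Lb.g g9 (@Lb.g g11 (@Lb.r r386 (@Lb.r r2136 (@Lb.r r2197 (@Lb.d (nat_lit 532) (nat_lit 138) (nat_lit 129) (@Lb.fm (nat_lit 3) t376)))))))))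
noncomputable def l1172 : Lb := (@Lb.d (nat_lit 0) (nat_lit 0) (nat_lit 33) (@Lb.r r1105 (@Lb.r r1363 (@Lb.g g6 (@Lb.g g5 (@Lb.r r291 (@Lb.fm (nat_lit 3) t9)))))))
noncomputable def l1173 : Lb := (@Lb.d (nat_lit 2) (nat_lit 258) (nat_lit 130) (@Lb.g g8 (@Lb.g g9 (@Lb.g g10 (@Lb.g g11 (@Lb.r r427 (@Lb.r r386 (@Lb.r r97 (@Lb.r r24 (@Lb.d (nat_lit 74) (nat_lit 168) (nat_lit 386) (@Lb.fm (nat_lit 9) t139)))))))))))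
noncomputable def l1174 : Lb := (@Lb.d (nat_lit 2) (nat_lit 2) (nat_lit 137) (@Lb.g g8 (@Lb.g g9 (@Lb.g g10 (@Lb.g g11 (@Lb.r r1699 (@Lb.r r2705 (@Lb.r r612 (@Lb.r r666 (@Lb.r r1156 (@Lb.d (nat_lit 329) (nat_lit 33) (nat_lit 138) (@Lb.fp (nat_lit 9) t172))))))))))))
noncomputable def l1175 : Lb := (@Lb.r r82 (@Lb.d (nat_lit 8) (nat_lit 258) (nat_lit 128) (@Lb.g g9 (@Lb.g g11 (@Lb.r r291 (@Lb.r r602 (@Lb.r r600 (@Lb.r r293 (@Lb.d (nat_lit 68) (nat_lit 137) (nat_lit 2) (@Lb.fm (nat_lit 3) t501))))))))))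
noncomputable def l1176 : Lb := (@Lb.d (nat_lit 1) (nat_lit 394) (nat_lit 34) (@Lb.r r597 (@Lb.r r279 (@Lb.r r584 (@Lb.r r326 (@Lb.g g7 (@Lb.g g6 (@Lb.d (nat_lit 0) (nat_lit 0) (nat_lit 65) (@Lb.fp (nat_lit 3) t502)))))))))
noncomputable def l1177 : Lb := (@Lb.d (nat_lit 0) (nat_lit 320) (nat_lit 512) (@Lb.r r402 (@Lb.g g11 (@Lb.t (@Lb.fm (nat_lit 3) t387)))))
noncomputable def l1178 : Lb := (@Lb.r r82 (@Lb.d (nat_lit 129) (nat_lit 272) (nat_lit 0) (@Lb.g g8 (@Lb.g g9 (@Lb.g g11 (@Lb.r r1643 (@Lb.r r1625 (@Lb.r r98 (@Lb.r r1636 (@Lb.d (nat_lit 405) (nat_lit 25) (nat_lit 665) (@Lb.t (@Lb.fp (nat_lit 9) t503))))))))))))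
noncomputable def l1179 : Lb := (@Lb.d (nat_lit 293) (nat_lit 136) (nat_lit 17) (@Lb.r r597 (@Lb.r r279 (@Lb.r r584 (@Lb.r r326 (@Lb.g g7 (@Lb.g g6 (@Lb.d (nat_lit 0) (nat_lit 0) (nat_lit 65) (@Lb.fp (nat_lit 3) t504)))))))))
noncomputable def l1180 : Lb := (@Lb.d (nat_lit 0) (nat_lit 512) (nat_lit 136) (@Lb.g g11 (@Lb.r r402 (@Lb.r r101 (@Lb.r r24 (@Lb.d (nat_lit 656) (nat_lit 0) (nat_lit 656) (@Lb.t (@Lb.fm (nat_lit 3) t505))))))))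
noncomputable def l1181 : Lb := (@Lb.d (nat_lit 549) (nat_lit 649) (nat_lit 17) (@Lb.r r24 (@Lb.r r1414 (@Lb.r r2395 (@Lb.g g7 (@Lb.g g5 (@Lb.d (nat_lit 4) (nat_lit 1) (nat_lit 64) (@Lb.fm (nat_lit 3) t506))))))))
noncomputable def l1182 : Lb := (@Lb.g g5 (@Lb.r r2707 (@Lb.r r134 (@Lb.r r2644 (@Lb.r r1321 (@Lb.d (nat_lit 584) (nat_lit 66) (nat_lit 581) (@Lb.t (@Lb.fp (nat_lit 3) t507))))))))
noncomputable def l1183 : Lb := (@Lb.r r283 (@Lb.d (nat_lit 9) (nat_lit 257) (nat_lit 2) (@Lb.g g8 (@Lb.g g9 (@Lb.g g10 (@Lb.r r2643 (@Lb.r r98 (@Lb.r r297 (@Lb.r r420 (@Lb.d (nat_lit 392) (nat_lit 38) (nat_lit 326) (@Lb.t (@Lb.fm (nat_lit 9) t245))))))))))))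
noncomputable def l1184 : Lb := (@Lb.d (nat_lit 0) (nat_lit 256) (nat_lit 136) (@Lb.g g11 (@Lb.r r402 (@Lb.r r1379 (@Lb.r r101 (@Lb.d (nat_lit 138) (nat_lit 146) (nat_lit 384) (@Lb.t (@Lb.fp (nat_lit 3) t240))))))))
noncomputable def l1185 : Lb := (@Lb.r r89 (@Lb.r r166 (@Lb.r r340 (@Lb.r r683 (@Lb.r r657 (@Lb.r r36 (@Lb.d (nat_lit 292) (nat_lit 81) (nat_lit 282) (@Lb.fp (nat_lit 1) t508))))))))
noncomputable def l1186 : Lb := (@Lb.d (nat_lit 2) (nat_lit 514) (nat_lit 66) (@Lb.g g8 (@Lb.g g9 (@Lb.g g10 (@Lb.g g11 (@Lb.r r1443 (@Lb.r r297 (@Lb.r r104 (@Lb.r r70 (@Lb.r r132 (@Lb.d (nat_lit 545) (nat_lit 10) (nat_lit 417) (@Lb.fp (nat_lit 9) t88))))))))))))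
noncomputable def l1187 : Lb := (@Lb.r r323 (@Lb.d (nat_lit 0) (nat_lit 521) (nat_lit 1) (@Lb.g g9 (@Lb.g g10 (@Lb.r r1194 (@Lb.r r2600 (@Lb.r r2667 (@Lb.r r2585 (@Lb.d (nat_lit 385) (nat_lit 96) (nat_lit 90) (@Lb.fp (nat_lit 3) t509))))))))))
noncomputable def l1188 : Lb := (@Lb.r r323 (@Lb.d (nat_lit 24) (nat_lit 265) (nat_lit 36) (@Lb.g g9 (@Lb.g g6 (@Lb.r r2659 (@Lb.r r1304 (@Lb.r r2661 (@Lb.d (nat_lit 153) (nat_lit 73) (nat_lit 417) (@Lb.fm (nat_lit 3) t510)))))))))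
noncomputable def l1189 : Lb := (@Lb.g g5 (@Lb.r r2707 (@Lb.r r134 (@Lb.r r2644 (@Lb.r r1321 (@Lb.d (nat_lit 577) (nat_lit 576) (nat_lit 581) (@Lb.t (@Lb.fp (nat_lit 3) t507))))))))
noncomputable def l1190 : Lb := (@Lb.d (nat_lit 73) (nat_lit 288) (nat_lit 128) (@Lb.r r289 (@Lb.r r279 (@Lb.r r584 (@Lb.r r342 (@Lb.g g7 (@Lb.g g6 (@Lb.g g5 (@Lb.d (nat_lit 0) (nat_lit 5) (nat_lit 64) (@Lb.t (@Lb.fp (nat_lit 9) t215)))))))))))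
noncomputable def l1191 : Lb := (@Lb.d (nat_lit 328) (nat_lit 274) (nat_lit 320) (@Lb.r r2345 (@Lb.r r2468 (@Lb.r r1686 (@Lb.r r579 (@Lb.g g7 (@Lb.g g6 (@Lb.g g5 (@Lb.d (nat_lit 0) (nat_lit 32) (nat_lit 1) (@Lb.t (@Lb.fm (nat_lit 9) t511)))))))))))
noncomputable def l1192 : Lb := (@Lb.d (nat_lit 9) (nat_lit 256) (nat_lit 73) (@Lb.g g8 (@Lb.g g10 (@Lb.g g11 (@Lb.r r2691 (@Lb.r r1109 (@Lb.r r2658 (@Lb.r r2436 (@Lb.d (nat_lit 610) (nat_lit 160) (nat_lit 598) (@Lb.t (@Lb.fp (nat_lit 9) t311)))))))))))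
noncomputable def l1193 : Lb := (@Lb.d (nat_lit 152) (nat_lit 256) (nat_lit 128) (@Lb.g g8 (@Lb.g g10 (@Lb.g g11 (@Lb.r r1691 (@Lb.r r346 (@Lb.r r2453 (@Lb.r r612 (@Lb.d (nat_lit 154) (nat_lit 16) (nat_lit 401) (@Lb.t (@Lb.fp (nat_lit 9) t50)))))))))))
noncomputable def l1194 : Lb := (@Lb.d (nat_lit 548) (nat_lit 86) (nat_lit 338) (@Lb.r r2329 (@Lb.r r338 (@Lb.r r679 (@Lb.g g7 (@Lb.g g6 (@Lb.g g5 (@Lb.g g8 (@Lb.d (nat_lit 10) (nat_lit 17) (nat_lit 8) (@Lb.fp (nat_lit 9) t31))))))))))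
noncomputable def l1195 : Lb := (@Lb.d (nat_lit 0) (nat_lit 517) (nat_lit 0) (@Lb.g g5 (@Lb.d (nat_lit 2) (nat_lit 134) (nat_lit 33) (@Lb.t (@Lb.fm (nat_lit 3) t126)))))
noncomputable def l1196 : Lb := (@Lb.d (nat_lit 1) (nat_lit 8) (nat_lit 130) (@Lb.g g8 (@Lb.g g10 (@Lb.g g11 (@Lb.r r2443 (@Lb.r r2345 (@Lb.r r2468 (@Lb.r r2438 (@Lb.d (nat_lit 610) (nat_lit 130) (nat_lit 665) (@Lb.t (@Lb.fm (nat_lit 9) t295)))))))))))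
noncomputable def l1197 : Lb := (@Lb.r r21 (@Lb.r r70 (@Lb.d (nat_lit 388) (nat_lit 256) (nat_lit 128) (@Lb.g g4 (@Lb.g g11 (@Lb.r r101 (@Lb.r r658 (@Lb.r r1411 (@Lb.d (nat_lit 8) (nat_lit 4) (nat_lit 360) (@Lb.fp (nat_lit 3) t512))))))))))
noncomputable def l1198 : Lb := (@Lb.d (nat_lit 1) (nat_lit 265) (nat_lit 129) (@Lb.g g4 (@Lb.g g9 (@Lb.g g10 (@Lb.g g11 (@Lb.r r1443 (@Lb.r r386 (@Lb.r r97 (@Lb.d (nat_lit 1) (nat_lit 90) (nat_lit 393) (@Lb.fm (nat_lit 9) t513))))))))))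
noncomputable def l1199 : Lb := (@Lb.d (nat_lit 0) (nat_lit 521) (nat_lit 129) (@Lb.g g9 (@Lb.g g10 (@Lb.g g11 (@Lb.r r1443 (@Lb.r r386 (@Lb.r r97 (@Lb.r r8 (@Lb.d (nat_lit 2) (nat_lit 90) (nat_lit 393) (@Lb.t (@Lb.fp (nat_lit 9) t513)))))))))))
noncomputable def l1200 : Lb := (@Lb.d (nat_lit 2) (nat_lit 1) (nat_lit 128) (@Lb.g g8 (@Lb.g g9 (@Lb.g g11 (@Lb.r r276 (@Lb.r r2729 (@Lb.r r1707 (@Lb.r r2178 (@Lb.r r1572 (@Lb.d (nat_lit 274) (nat_lit 10) (nat_lit 610) (@Lb.t (@Lb.fp (nat_lit 9) t124))))))))))))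
noncomputable def l1201 : Lb := (@Lb.d (nat_lit 128) (nat_lit 16) (nat_lit 384) (@Lb.g g11 (@Lb.r r1304 (@Lb.r r101 (@Lb.r r154 (@Lb.d (nat_lit 538) (nat_lit 2) (nat_lit 128) (@Lb.t (@Lb.fm (nat_lit 3) t514))))))))
noncomputable def l1202 : Lb := (@Lb.d (nat_lit 0) (nat_lit 256) (nat_lit 137) (@Lb.g g10 (@Lb.g g11 (@Lb.r r1297 (@Lb.r r419 (@Lb.r r386 (@Lb.d (nat_lit 0) (nat_lit 90) (nat_lit 164) (@Lb.fp (nat_lit 3) t216))))))))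
noncomputable def l1203 : Lb := (@Lb.r r323 (@Lb.d (nat_lit 129) (nat_lit 34) (nat_lit 0) (@Lb.g g8 (@Lb.g g9 (@Lb.g g10 (@Lb.r r599 (@Lb.r r98 (@Lb.r r408 (@Lb.r r101 (@Lb.d (nat_lit 21) (nat_lit 40) (nat_lit 146) (@Lb.t (@Lb.fp (nat_lit 9) t221))))))))))))
noncomputable def l1204 : Lb := (@Lb.d (nat_lit 134) (nat_lit 266) (nat_lit 129) (@Lb.g g8 (@Lb.g g9 (@Lb.g g10 (@Lb.g g11 (@Lb.r r1706 (@Lb.r r1411 (@Lb.r r1553 (@Lb.r r1176 (@Lb.d (nat_lit 610) (nat_lit 82) (nat_lit 577) (@Lb.fp (nat_lit 9) t515)))))))))))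
noncomputable def l1205 : Lb := (@Lb.d (nat_lit 549) (nat_lit 582) (nat_lit 342) (@Lb.r r2202 (@Lb.r r664 (@Lb.r r667 (@Lb.r r1377 (@Lb.g g7 (@Lb.g g6 (@Lb.g g4 (@Lb.d (nat_lit 18) (nat_lit 0) (nat_lit 8) (@Lb.t (@Lb.fp (nat_lit 9) t516)))))))))))
noncomputable def l1206 : Lb := (@Lb.d (nat_lit 550) (nat_lit 70) (nat_lit 342) (@Lb.r r2202 (@Lb.r r664 (@Lb.r r667 (@Lb.r r1377 (@Lb.g g7 (@Lb.g g6 (@Lb.g g4 (@Lb.d (nat_lit 18) (nat_lit 0) (nat_lit 65) (@Lb.t (@Lb.fp (nat_lit 9) t516)))))))))))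
noncomputable def l1207 : Lb := (@Lb.d (nat_lit 2) (nat_lit 2) (nat_lit 136) (@Lb.g g8 (@Lb.g g9 (@Lb.g g11 (@Lb.r r1193 (@Lb.r r2468 (@Lb.r r2438 (@Lb.r r2635 (@Lb.d (nat_lit 544) (nat_lit 10) (nat_lit 550) (@Lb.t (@Lb.fp (nat_lit 9) t517)))))))))))
noncomputable def l1208 : Lb := (@Lb.r r323 (@Lb.d (nat_lit 2) (nat_lit 260) (nat_lit 1) (@Lb.g g8 (@Lb.g g9 (@Lb.g g10 (@Lb.r r427 (@Lb.r r106 (@Lb.r r145 (@Lb.d (nat_lit 33) (nat_lit 5) (nat_lit 0) (@Lb.t (@Lb.fm (nat_lit 9) t5)))))))))))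
noncomputable def l1209 : Lb := (@Lb.g g10 (@Lb.r r2451 (@Lb.r r402 (@Lb.r r101 (@Lb.r r24 (@Lb.d (nat_lit 538) (nat_lit 384) (nat_lit 0) (@Lb.t (@Lb.fm (nat_lit 3) t518))))))))
noncomputable def l1210 : Lb := (@Lb.d (nat_lit 69) (nat_lit 516) (nat_lit 64) (@Lb.r r260 (@Lb.r r97 (@Lb.r r363 (@Lb.g g10 (@Lb.g g5 (@Lb.g g4 (@Lb.d (nat_lit 82) (nat_lit 8) (nat_lit 5) (@Lb.r r387 (@Lb.t (@Lb.fp (nat_lit 9) t519)))))))))))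
noncomputable def l1211 : Lb := (@Lb.d (nat_lit 41) (nat_lit 518) (nat_lit 128) (@Lb.g g8 (@Lb.g g9 (@Lb.g g10 (@Lb.g g11 (@Lb.r r578 (@Lb.r r537 (@Lb.r r603 (@Lb.r r600 (@Lb.d (nat_lit 98) (nat_lit 36) (nat_lit 69) (@Lb.fp (nat_lit 9) t520)))))))))))
noncomputable def l1212 : Lb := (@Lb.d (nat_lit 128) (nat_lit 0) (nat_lit 128) (@Lb.g g10 (@Lb.g g11 (@Lb.r r264 (@Lb.r r279 (@Lb.r r586 (@Lb.r r537 (@Lb.d (nat_lit 0) (nat_lit 18) (nat_lit 64) (@Lb.fp (nat_lit 3) t521)))))))))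
noncomputable def l1213 : Lb := (@Lb.d (nat_lit 0) (nat_lit 260) (nat_lit 128) (@Lb.g g9 (@Lb.g g10 (@Lb.g g11 (@Lb.r r427 (@Lb.r r417 (@Lb.r r98 (@Lb.r r24 (@Lb.d (nat_lit 74) (nat_lit 33) (nat_lit 138) (@Lb.t (@Lb.fm (nat_lit 9) t520)))))))))))
noncomputable def l1214 : Lb := (@Lb.d (nat_lit 0) (nat_lit 522) (nat_lit 0) (@Lb.g g9 (@Lb.r r2198 (@Lb.r r2137 (@Lb.d (nat_lit 24) (nat_lit 134) (nat_lit 34) (@Lb.t (@Lb.fm (nat_lit 3) t246)))))))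
noncomputable def l1215 : Lb := (@Lb.d (nat_lit 20) (nat_lit 1) (nat_lit 1) (@Lb.r r24 (@Lb.r r105 (@Lb.r r410 (@Lb.r r323 (@Lb.g g7 (@Lb.g g6 (@Lb.g g5 (@Lb.d (nat_lit 0) (nat_lit 2) (nat_lit 64) (@Lb.t (@Lb.fm (nat_lit 9) t522)))))))))))
noncomputable def l1216 : Lb := (@Lb.d (nat_lit 0) (nat_lit 146) (nat_lit 10) (@Lb.r r21 (@Lb.r r322 (@Lb.r r343 (@Lb.g g7 (@Lb.g g6 (@Lb.g g5 (@Lb.g g4 (@Lb.d (nat_lit 1) (nat_lit 1) (nat_lit 136) (@Lb.fp (nat_lit 9) t42))))))))))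
noncomputable def l1217 : Lb := (@Lb.d (nat_lit 1) (nat_lit 517) (nat_lit 1) (@Lb.r r24 (@Lb.r r101 (@Lb.r r402 (@Lb.r r323 (@Lb.g g7 (@Lb.g g6 (@Lb.g g5 (@Lb.d (nat_lit 0) (nat_lit 0) (nat_lit 64) (@Lb.t (@Lb.fm (nat_lit 9) t522)))))))))))
noncomputable def l1218 : Lb := (@Lb.d (nat_lit 274) (nat_lit 0) (nat_lit 33) (@Lb.r r24 (@Lb.r r101 (@Lb.r r402 (@Lb.r r323 (@Lb.g g7 (@Lb.g g6 (@Lb.d (nat_lit 0) (nat_lit 0) (nat_lit 64) (@Lb.fp (nat_lit 3) t218)))))))))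
noncomputable def l1219 : Lb := (@Lb.d (nat_lit 146) (nat_lit 2) (nat_lit 5) (@Lb.g g8 (@Lb.g g9 (@Lb.g g10 (@Lb.g g11 (@Lb.r r683 (@Lb.r r618 (@Lb.r r1561 (@Lb.r r1540 (@Lb.d (nat_lit 393) (nat_lit 73) (nat_lit 673) (@Lb.fm (nat_lit 9) t199)))))))))))
noncomputable def l1220 : Lb := (@Lb.d (nat_lit 2) (nat_lit 516) (nat_lit 129) (@Lb.g g8 (@Lb.g g9 (@Lb.g g10 (@Lb.g g11 (@Lb.r r659 (@Lb.r r533 (@Lb.r r616 (@Lb.r r326 (@Lb.d (nat_lit 81) (nat_lit 10) (nat_lit 133) (@Lb.fp (nat_lit 9) t355)))))))))))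
noncomputable def l1221 : Lb := (@Lb.d (nat_lit 2) (nat_lit 2) (nat_lit 0) (@Lb.g g8 (@Lb.g g9 (@Lb.g g11 (@Lb.r r344 (@Lb.r r1319 (@Lb.r r2178 (@Lb.r r2325 (@Lb.r r1572 (@Lb.d (nat_lit 274) (nat_lit 0) (nat_lit 33) (@Lb.t (@Lb.fm (nat_lit 9) t64))))))))))))
noncomputable def l1222 : Lb := (@Lb.r r322 (@Lb.d (nat_lit 2) (nat_lit 544) (nat_lit 128) (@Lb.g g8 (@Lb.g g9 (@Lb.g g11 (@Lb.r r2410 (@Lb.r r1572 (@Lb.r r1685 (@Lb.d (nat_lit 358) (nat_lit 96) (nat_lit 152) (@Lb.t (@Lb.fm (nat_lit 9) t523)))))))))))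
noncomputable def l1223 : Lb := (@Lb.r r263 (@Lb.d (nat_lit 0) (nat_lit 1) (nat_lit 2) (@Lb.g g8 (@Lb.g g9 (@Lb.g g10 (@Lb.r r2713 (@Lb.r r1691 (@Lb.r r2634 (@Lb.r r2632 (@Lb.d (nat_lit 578) (nat_lit 0) (nat_lit 640) (@Lb.t (@Lb.fm (nat_lit 9) t524))))))))))))
noncomputable def l1224 : Lb := (@Lb.d (nat_lit 2) (nat_lit 2) (nat_lit 161) (@Lb.g g8 (@Lb.g g9 (@Lb.g g6 (@Lb.g g11 (@Lb.r r579 (@Lb.r r1313 (@Lb.r r24 (@Lb.d (nat_lit 362) (nat_lit 161) (nat_lit 549) (@Lb.fp (nat_lit 9) t317))))))))))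
noncomputable def l1225 : Lb := (@Lb.d (nat_lit 2) (nat_lit 520) (nat_lit 130) (@Lb.g g8 (@Lb.g g9 (@Lb.g g10 (@Lb.g g11 (@Lb.r r2451 (@Lb.r r1129 (@Lb.r r356 (@Lb.r r154 (@Lb.d (nat_lit 342) (nat_lit 9) (nat_lit 601) (@Lb.fp (nat_lit 9) t234)))))))))))
noncomputable def l1226 : Lb := (@Lb.r r21 (@Lb.d (nat_lit 128) (nat_lit 512) (nat_lit 73) (@Lb.g g8 (@Lb.g g10 (@Lb.g g11 (@Lb.r r419 (@Lb.r r1686 (@Lb.r r97 (@Lb.r r1684 (@Lb.d (nat_lit 282) (nat_lit 68) (nat_lit 346) (@Lb.t (@Lb.fm (nat_lit 9) t523))))))))))))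
noncomputable def l1227 : Lb := (@Lb.d (nat_lit 2) (nat_lit 520) (nat_lit 130) (@Lb.g g8 (@Lb.g g9 (@Lb.g g10 (@Lb.g g11 (@Lb.r r1366 (@Lb.r r2472 (@Lb.r r1303 (@Lb.r r2665 (@Lb.d (nat_lit 344) (nat_lit 80) (nat_lit 326) (@Lb.fp (nat_lit 9) t525)))))))))))
noncomputable def l1228 : Lb := (@Lb.d (nat_lit 134) (nat_lit 2) (nat_lit 130) (@Lb.g g8 (@Lb.g g9 (@Lb.g g10 (@Lb.g g11 (@Lb.r r1443 (@Lb.r r344 (@Lb.r r1429 (@Lb.r r86 (@Lb.r r164 (@Lb.d (nat_lit 38) (nat_lit 106) (nat_lit 145) (@Lb.fm (nat_lit 9) t238))))))))))))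
noncomputable def l1229 : Lb := (@Lb.d (nat_lit 0) (nat_lit 256) (nat_lit 128) (@Lb.g g10 (@Lb.g g11 (@Lb.r r387 (@Lb.r r1617 (@Lb.r r1604 (@Lb.d (nat_lit 0) (nat_lit 100) (nat_lit 101) (@Lb.fm (nat_lit 3) t526))))))))
noncomputable def l1230 : Lb := (@Lb.r r21 (@Lb.d (nat_lit 145) (nat_lit 512) (nat_lit 128) (@Lb.g g8 (@Lb.g g10 (@Lb.g g11 (@Lb.r r387 (@Lb.r r1617 (@Lb.r r1382 (@Lb.r r1176 (@Lb.d (nat_lit 166) (nat_lit 74) (nat_lit 258) (@Lb.t (@Lb.fp (nat_lit 9) t527))))))))))))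
noncomputable def l1231 : Lb := (@Lb.r r21 (@Lb.r r322 (@Lb.d (nat_lit 128) (nat_lit 288) (nat_lit 128) (@Lb.g g8 (@Lb.g g11 (@Lb.r r2410 (@Lb.r r97 (@Lb.r r1684 (@Lb.d (nat_lit 322) (nat_lit 0) (nat_lit 164) (@Lb.fp (nat_lit 3) t523))))))))))
noncomputable def l1232 : Lb := (@Lb.d (nat_lit 128) (nat_lit 272) (nat_lit 386) (@Lb.g g10 (@Lb.g g11 (@Lb.r r2709 (@Lb.r r2646 (@Lb.r r1416 (@Lb.d (nat_lit 522) (nat_lit 6) (nat_lit 128) (@Lb.fp (nat_lit 3) t528))))))))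
noncomputable def l1233 : Lb := (@Lb.d (nat_lit 8) (nat_lit 290) (nat_lit 66) (@Lb.g g9 (@Lb.g g10 (@Lb.g g11 (@Lb.r r387 (@Lb.r r2136 (@Lb.r r2438 (@Lb.r r593 (@Lb.d (nat_lit 338) (nat_lit 38) (nat_lit 649) (@Lb.t (@Lb.fm (nat_lit 9) t529)))))))))))
noncomputable def l1234 : Lb := (@Lb.d (nat_lit 130) (nat_lit 513) (nat_lit 0) (@Lb.g g8 (@Lb.g g9 (@Lb.r r535 (@Lb.r r418 (@Lb.r r401 (@Lb.r r104 (@Lb.d (nat_lit 38) (nat_lit 38) (nat_lit 137) (@Lb.fp (nat_lit 3) t71)))))))))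
noncomputable def l1235 : Lb := (@Lb.d (nat_lit 130) (nat_lit 1) (nat_lit 0) (@Lb.g g8 (@Lb.g g9 (@Lb.r r535 (@Lb.r r418 (@Lb.r r401 (@Lb.r r104 (@Lb.d (nat_lit 33) (nat_lit 37) (nat_lit 137) (@Lb.fp (nat_lit 3) t71)))))))))
noncomputable def l1236 : Lb := (@Lb.d (nat_lit 329) (nat_lit 88) (nat_lit 522) (@Lb.r r2583 (@Lb.r r1384 (@Lb.r r361 (@Lb.r r1622 (@Lb.g g7 (@Lb.d (nat_lit 64) (nat_lit 16) (nat_lit 132) (@Lb.t (@Lb.fp (nat_lit 3) t188)))))))))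
noncomputable def l1237 : Lb := (@Lb.d (nat_lit 2) (nat_lit 545) (nat_lit 0) (@Lb.g g8 (@Lb.g g9 (@Lb.r r2579 (@Lb.r r2178 (@Lb.r r1321 (@Lb.r r36 (@Lb.d (nat_lit 393) (nat_lit 2) (nat_lit 645) (@Lb.fp (nat_lit 3) t421)))))))))
noncomputable def l1238 : Lb := (@Lb.d (nat_lit 0) (nat_lit 289) (nat_lit 0) (@Lb.g g9 (@Lb.r r2579 (@Lb.r r2178 (@Lb.r r1321 (@Lb.r r36 (@Lb.d (nat_lit 393) (nat_lit 2) (nat_lit 645) (@Lb.t (@Lb.fm (nat_lit 3) t421)))))))))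
noncomputable def l1239 : Lb := (@Lb.r r277 (@Lb.r r326 (@Lb.d (nat_lit 293) (nat_lit 512) (nat_lit 0) (@Lb.g g4 (@Lb.g g11 (@Lb.r r551 (@Lb.r r2626 (@Lb.r r2661 (@Lb.d (nat_lit 8) (nat_lit 24) (nat_lit 514) (@Lb.fp (nat_lit 3) t530))))))))))
noncomputable def l1240 : Lb := (@Lb.d (nat_lit 146) (nat_lit 514) (nat_lit 128) (@Lb.g g8 (@Lb.g g9 (@Lb.g g10 (@Lb.g g11 (@Lb.r r1706 (@Lb.r r1411 (@Lb.r r2201 (@Lb.r r2180 (@Lb.d (nat_lit 553) (nat_lit 153) (nat_lit 169) (@Lb.fm (nat_lit 9) t531)))))))))))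
noncomputable def l1241 : Lb := (@Lb.d (nat_lit 145) (nat_lit 2) (nat_lit 74) (@Lb.g g8 (@Lb.g g9 (@Lb.g g10 (@Lb.g g11 (@Lb.r r683 (@Lb.r r2410 (@Lb.r r1561 (@Lb.r r1540 (@Lb.d (nat_lit 393) (nat_lit 153) (nat_lit 5) (@Lb.fm (nat_lit 9) t531)))))))))))
noncomputable def l1242 : Lb := (@Lb.r r82 (@Lb.d (nat_lit 0) (nat_lit 256) (nat_lit 128) (@Lb.g g9 (@Lb.g g11 (@Lb.r r1575 (@Lb.r r1416 (@Lb.r r1178 (@Lb.r r2129 (@Lb.d (nat_lit 612) (nat_lit 128) (nat_lit 544) (@Lb.fp (nat_lit 3) t532))))))))))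
noncomputable def l1243 : Lb := (@Lb.d (nat_lit 145) (nat_lit 9) (nat_lit 130) (@Lb.g g8 (@Lb.g g9 (@Lb.g g10 (@Lb.g g11 (@Lb.r r683 (@Lb.r r2410 (@Lb.r r1561 (@Lb.r r1540 (@Lb.d (nat_lit 393) (nat_lit 153) (nat_lit 5) (@Lb.fm (nat_lit 9) t328)))))))))))
noncomputable def l1244 : Lb := (@Lb.d (nat_lit 32) (nat_lit 10) (nat_lit 136) (@Lb.g g8 (@Lb.g g9 (@Lb.g g11 (@Lb.r r1094 (@Lb.r r2200 (@Lb.r r405 (@Lb.r r1635 (@Lb.d (nat_lit 2) (nat_lit 0) (nat_lit 86) (@Lb.t (@Lb.fm (nat_lit 9) t533)))))))))))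
noncomputable def l1245 : Lb := (@Lb.r r70 (@Lb.r r263 (@Lb.d (nat_lit 0) (nat_lit 2) (nat_lit 0) (@Lb.g g8 (@Lb.g g9 (@Lb.r r2149 (@Lb.r r598 (@Lb.r r2627 (@Lb.r r292 (@Lb.d (nat_lit 581) (nat_lit 130) (nat_lit 512) (@Lb.fm (nat_lit 3) t534)))))))))))
noncomputable def l1246 : Lb := (@Lb.d (nat_lit 145) (nat_lit 265) (nat_lit 73) (@Lb.g g8 (@Lb.g g9 (@Lb.g g10 (@Lb.g g11 (@Lb.r r683 (@Lb.r r2410 (@Lb.r r1561 (@Lb.r r1540 (@Lb.d (nat_lit 393) (nat_lit 153) (nat_lit 5) (@Lb.fm (nat_lit 9) t328)))))))))))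
noncomputable def l1247 : Lb := (@Lb.d (nat_lit 598) (nat_lit 325) (nat_lit 170) (@Lb.r r20 (@Lb.r r409 (@Lb.r r679 (@Lb.r r404 (@Lb.g g7 (@Lb.g g10 (@Lb.g g5 (@Lb.g g4 (@Lb.d (nat_lit 1) (nat_lit 2) (nat_lit 81) (@Lb.fp (nat_lit 9) t184)))))))))))
noncomputable def l1248 : Lb := (@Lb.r r327 (@Lb.d (nat_lit 2) (nat_lit 514) (nat_lit 0) (@Lb.g g8 (@Lb.g g9 (@Lb.g g10 (@Lb.r r2459 (@Lb.r r1321 (@Lb.r r2408 (@Lb.r r2630 (@Lb.d (nat_lit 0) (nat_lit 10) (nat_lit 86) (@Lb.t (@Lb.fm (nat_lit 9) t212))))))))))))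
noncomputable def l1249 : Lb := (@Lb.d (nat_lit 145) (nat_lit 514) (nat_lit 128) (@Lb.g g8 (@Lb.g g9 (@Lb.g g10 (@Lb.g g11 (@Lb.r r1639 (@Lb.r r612 (@Lb.r r149 (@Lb.r r598 (@Lb.r r1156 (@Lb.d (nat_lit 266) (nat_lit 101) (nat_lit 328) (@Lb.fm (nat_lit 9) t212))))))))))))
noncomputable def l1250 : Lb := (@Lb.r r90 (@Lb.d (nat_lit 4) (nat_lit 256) (nat_lit 128) (@Lb.g g8 (@Lb.g g9 (@Lb.g g11 (@Lb.r r1307 (@Lb.r r2408 (@Lb.r r2182 (@Lb.d (nat_lit 0) (nat_lit 106) (nat_lit 402) (@Lb.t (@Lb.fm (nat_lit 9) t535)))))))))))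
noncomputable def l1251 : Lb := (@Lb.d (nat_lit 2) (nat_lit 514) (nat_lit 130) (@Lb.g g8 (@Lb.g g9 (@Lb.g g10 (@Lb.g g11 (@Lb.r r1443 (@Lb.r r297 (@Lb.r r104 (@Lb.r r70 (@Lb.r r132 (@Lb.d (nat_lit 545) (nat_lit 10) (nat_lit 360) (@Lb.fp (nat_lit 9) t88))))))))))))
noncomputable def l1252 : Lb := (@Lb.r r82 (@Lb.r r275 (@Lb.d (nat_lit 2) (nat_lit 512) (nat_lit 0) (@Lb.g g8 (@Lb.g g9 (@Lb.r r2201 (@Lb.r r402 (@Lb.r r1603 (@Lb.d (nat_lit 2) (nat_lit 0) (nat_lit 0) (@Lb.fm (nat_lit 3) t536))))))))))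
noncomputable def l1253 : Lb := (@Lb.d (nat_lit 2) (nat_lit 514) (nat_lit 2) (@Lb.g g8 (@Lb.g g9 (@Lb.g g10 (@Lb.g g11 (@Lb.r r427 (@Lb.r r106 (@Lb.r r25 (@Lb.d (nat_lit 9) (nat_lit 9) (nat_lit 2) (@Lb.fp (nat_lit 9) t51))))))))))
noncomputable def l1254 : Lb := (@Lb.d (nat_lit 2) (nat_lit 265) (nat_lit 130) (@Lb.g g8 (@Lb.g g9 (@Lb.g g10 (@Lb.g g11 (@Lb.r r1193 (@Lb.r r420 (@Lb.r r390 (@Lb.r r1611 (@Lb.r r516 (@Lb.d (nat_lit 273) (nat_lit 10) (nat_lit 586) (@Lb.fm (nat_lit 9) t537))))))))))))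
noncomputable def l1255 : Lb := (@Lb.d (nat_lit 0) (nat_lit 674) (nat_lit 600) (@Lb.r r101 (@Lb.r r24 (@Lb.r r323 (@Lb.g g7 (@Lb.g g6 (@Lb.d (nat_lit 0) (nat_lit 0) (nat_lit 64) (@Lb.fm (nat_lit 3) t538))))))))
noncomputable def l1256 : Lb := (@Lb.r r323 (@Lb.d (nat_lit 2) (nat_lit 9) (nat_lit 2) (@Lb.g g8 (@Lb.g g9 (@Lb.g g10 (@Lb.r r2459 (@Lb.r r297 (@Lb.r r1384 (@Lb.r r2630 (@Lb.d (nat_lit 658) (nat_lit 64) (nat_lit 356) (@Lb.t (@Lb.fm (nat_lit 9) t539))))))))))))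
noncomputable def l1257 : Lb := (@Lb.r r82 (@Lb.r r275 (@Lb.d (nat_lit 34) (nat_lit 264) (nat_lit 0) (@Lb.g g8 (@Lb.g g9 (@Lb.r r427 (@Lb.r r582 (@Lb.r r392 (@Lb.d (nat_lit 153) (nat_lit 2) (nat_lit 154) (@Lb.fp (nat_lit 3) t540))))))))))
noncomputable def l1258 : Lb := (@Lb.d (nat_lit 9) (nat_lit 32) (nat_lit 130) (@Lb.g g8 (@Lb.g g9 (@Lb.g g10 (@Lb.g g11 (@Lb.r r1706 (@Lb.r r1188 (@Lb.r r2597 (@Lb.r r1315 (@Lb.d (nat_lit 521) (nat_lit 81) (nat_lit 586) (@Lb.fp (nat_lit 9) t270)))))))))))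
noncomputable def l1259 : Lb := (@Lb.r r82 (@Lb.d (nat_lit 34) (nat_lit 289) (nat_lit 64) (@Lb.g g8 (@Lb.g g9 (@Lb.g g11 (@Lb.r r1571 (@Lb.r r582 (@Lb.r r1445 (@Lb.r r408 (@Lb.d (nat_lit 341) (nat_lit 154) (nat_lit 358) (@Lb.t (@Lb.fp (nat_lit 9) t541))))))))))))
noncomputable def l1260 : Lb := (@Lb.d (nat_lit 146) (nat_lit 9) (nat_lit 130) (@Lb.g g8 (@Lb.g g9 (@Lb.g g10 (@Lb.g g11 (@Lb.r r683 (@Lb.r r618 (@Lb.r r1561 (@Lb.r r1540 (@Lb.d (nat_lit 394) (nat_lit 73) (nat_lit 545) (@Lb.fm (nat_lit 9) t542)))))))))))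
noncomputable def l1261 : Lb := (@Lb.d (nat_lit 133) (nat_lit 276) (nat_lit 70) (@Lb.r r24 (@Lb.r r82 (@Lb.r r417 (@Lb.r r343 (@Lb.g g7 (@Lb.g g6 (@Lb.g g5 (@Lb.d (nat_lit 0) (nat_lit 1) (nat_lit 65) (@Lb.t (@Lb.fp (nat_lit 9) t61)))))))))))
noncomputable def l1262 : Lb := (@Lb.d (nat_lit 10) (nat_lit 64) (nat_lit 640) (@Lb.r r68 (@Lb.r r289 (@Lb.r r106 (@Lb.r r584 (@Lb.g g11 (@Lb.t (@Lb.fp (nat_lit 3) t501))))))))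
noncomputable def l1263 : Lb := (@Lb.d (nat_lit 4) (nat_lit 582) (nat_lit 0) (@Lb.r r260 (@Lb.r r97 (@Lb.r r619 (@Lb.r r612 (@Lb.g g7 (@Lb.g g10 (@Lb.g g5 (@Lb.g g4 (@Lb.d (nat_lit 0) (nat_lit 6) (nat_lit 82) (@Lb.fm (nat_lit 9) t543)))))))))))
noncomputable def l1264 : Lb := (@Lb.d (nat_lit 128) (nat_lit 64) (nat_lit 640) (@Lb.r r101 (@Lb.r r402 (@Lb.g g11 (@Lb.t (@Lb.fp (nat_lit 3) t544))))))
noncomputable def l1265 : Lb := (@Lb.r r21 (@Lb.r r70 (@Lb.d (nat_lit 265) (nat_lit 0) (nat_lit 128) (@Lb.g g4 (@Lb.g g11 (@Lb.r r583 (@Lb.r r402 (@Lb.r r25 (@Lb.d (nat_lit 518) (nat_lit 1) (nat_lit 2) (@Lb.fp (nat_lit 3) t545))))))))))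
noncomputable def l1266 : Lb := (@Lb.d (nat_lit 130) (nat_lit 273) (nat_lit 0) (@Lb.r r101 (@Lb.r r402 (@Lb.g g11 (@Lb.g g6 (@Lb.d (nat_lit 0) (nat_lit 0) (nat_lit 128) (@Lb.fp (nat_lit 3) t546)))))))
noncomputable def l1267 : Lb := (@Lb.d (nat_lit 2) (nat_lit 1) (nat_lit 2) (@Lb.r r101 (@Lb.g g10 (@Lb.d (nat_lit 0) (nat_lit 8) (nat_lit 2) (@Lb.t (@Lb.fm (nat_lit 3) t374))))))
noncomputable def l1268 : Lb := (@Lb.d (nat_lit 133) (nat_lit 18) (nat_lit 69) (@Lb.r r24 (@Lb.r r82 (@Lb.r r417 (@Lb.r r343 (@Lb.g g7 (@Lb.g g6 (@Lb.g g5 (@Lb.d (nat_lit 0) (nat_lit 8) (nat_lit 64) (@Lb.t (@Lb.fp (nat_lit 9) t522)))))))))))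
noncomputable def l1269 : Lb := (@Lb.d (nat_lit 401) (nat_lit 416) (nat_lit 80) (@Lb.r r24 (@Lb.r r289 (@Lb.r r354 (@Lb.r r279 (@Lb.g g7 (@Lb.g g5 (@Lb.d (nat_lit 0) (nat_lit 1) (nat_lit 64) (@Lb.r r98 (@Lb.fm (nat_lit 3) t547))))))))))
noncomputable def l1270 : Lb := (@Lb.r r82 (@Lb.d (nat_lit 2) (nat_lit 289) (nat_lit 0) (@Lb.g g8 (@Lb.g g5 (@Lb.r r515 (@Lb.r r146 (@Lb.r r24 (@Lb.d (nat_lit 10) (nat_lit 128) (nat_lit 394) (@Lb.fm (nat_lit 3) t548)))))))))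
noncomputable def l1271 : Lb := (@Lb.d (nat_lit 0) (nat_lit 4) (nat_lit 1) (@Lb.g g9 (@Lb.g g10 (@Lb.r r2146 (@Lb.r r97 (@Lb.d (nat_lit 0) (nat_lit 137) (nat_lit 80) (@Lb.fp (nat_lit 3) t549)))))))
noncomputable def l1272 : Lb := (@Lb.d (nat_lit 2) (nat_lit 265) (nat_lit 73) (@Lb.g g8 (@Lb.g g9 (@Lb.g g10 (@Lb.g g11 (@Lb.r r2659 (@Lb.r r297 (@Lb.r r360 (@Lb.r r582 (@Lb.r r132 (@Lb.d (nat_lit 128) (nat_lit 10) (nat_lit 90) (@Lb.fm (nat_lit 9) t550))))))))))))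
noncomputable def l1273 : Lb := (@Lb.d (nat_lit 0) (nat_lit 521) (nat_lit 66) (@Lb.g g9 (@Lb.g g10 (@Lb.g g7 (@Lb.r r2438 (@Lb.r r97 (@Lb.r r24 (@Lb.d (nat_lit 280) (nat_lit 21) (nat_lit 281) (@Lb.t (@Lb.fm (nat_lit 9) t551))))))))))
noncomputable def l1274 : Lb := (@Lb.r r323 (@Lb.d (nat_lit 0) (nat_lit 9) (nat_lit 2) (@Lb.g g8 (@Lb.g g9 (@Lb.g g10 (@Lb.r r1706 (@Lb.r r2692 (@Lb.r r2567 (@Lb.r r25 (@Lb.d (nat_lit 520) (nat_lit 65) (nat_lit 640) (@Lb.t (@Lb.fm (nat_lit 9) t552))))))))))))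
noncomputable def l1275 : Lb := (@Lb.d (nat_lit 42) (nat_lit 0) (nat_lit 0) (@Lb.g g8 (@Lb.r r2395 (@Lb.r r614 (@Lb.r r1637 (@Lb.r r1428 (@Lb.d (nat_lit 353) (nat_lit 26) (nat_lit 394) (@Lb.t (@Lb.fm (nat_lit 3) t553)))))))))
noncomputable def l1276 : Lb := (@Lb.d (nat_lit 146) (nat_lit 265) (nat_lit 130) (@Lb.g g8 (@Lb.g g9 (@Lb.g g10 (@Lb.g g11 (@Lb.r r683 (@Lb.r r618 (@Lb.r r612 (@Lb.r r2069 (@Lb.r r1060 (@Lb.d (nat_lit 265) (nat_lit 80) (nat_lit 665) (@Lb.fm (nat_lit 9) t102))))))))))))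
noncomputable def l1277 : Lb := (@Lb.d (nat_lit 2) (nat_lit 2) (nat_lit 9) (@Lb.g g8 (@Lb.g g9 (@Lb.g g6 (@Lb.r r515 (@Lb.r r97 (@Lb.r r24 (@Lb.d (nat_lit 10) (nat_lit 168) (nat_lit 384) (@Lb.t (@Lb.fm (nat_lit 9) t554))))))))))
noncomputable def l1278 : Lb := (@Lb.r r323 (@Lb.d (nat_lit 2) (nat_lit 265) (nat_lit 2) (@Lb.g g8 (@Lb.g g9 (@Lb.g g10 (@Lb.r r1706 (@Lb.r r2713 (@Lb.r r2712 (@Lb.r r2587 (@Lb.d (nat_lit 265) (nat_lit 145) (nat_lit 138) (@Lb.t (@Lb.fp (nat_lit 9) t555))))))))))))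
noncomputable def l1279 : Lb := (@Lb.d (nat_lit 0) (nat_lit 256) (nat_lit 128) (@Lb.g g10 (@Lb.g g11 (@Lb.r r387 (@Lb.r r402 (@Lb.r r101 (@Lb.r r24 (@Lb.d (nat_lit 545) (nat_lit 0) (nat_lit 153) (@Lb.fp (nat_lit 3) t556)))))))))
noncomputable def l1280 : Lb := (@Lb.r r82 (@Lb.d (nat_lit 2) (nat_lit 512) (nat_lit 0) (@Lb.g g8 (@Lb.g g9 (@Lb.r r515 (@Lb.r r1689 (@Lb.r r146 (@Lb.d (nat_lit 609) (nat_lit 10) (nat_lit 17) (@Lb.fm (nat_lit 3) t557)))))))))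
noncomputable def l1281 : Lb := (@Lb.d (nat_lit 1) (nat_lit 4) (nat_lit 1) (@Lb.g g4 (@Lb.g g10 (@Lb.d (nat_lit 2) (nat_lit 8) (nat_lit 2) (@Lb.fp (nat_lit 3) t134)))))
noncomputable def l1282 : Lb := (@Lb.g g10 (@Lb.r r2451 (@Lb.r r402 (@Lb.r r101 (@Lb.r r24 (@Lb.d (nat_lit 529) (nat_lit 0) (nat_lit 138) (@Lb.t (@Lb.fm (nat_lit 3) t335))))))))
noncomputable def l1283 : Lb := (@Lb.d (nat_lit 32) (nat_lit 2) (nat_lit 128) (@Lb.g g9 (@Lb.g g10 (@Lb.g g11 (@Lb.r r328 (@Lb.r r2471 (@Lb.r r405 (@Lb.r r86 (@Lb.d (nat_lit 530) (nat_lit 5) (nat_lit 296) (@Lb.t (@Lb.fp (nat_lit 9) t2)))))))))))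
noncomputable def l1284 : Lb := (@Lb.d (nat_lit 145) (nat_lit 2) (nat_lit 128) (@Lb.g g8 (@Lb.g g9 (@Lb.g g10 (@Lb.g g11 (@Lb.r r1675 (@Lb.r r613 (@Lb.r r666 (@Lb.r r1560 (@Lb.d (nat_lit 586) (nat_lit 101) (nat_lit 656) (@Lb.fp (nat_lit 9) t125)))))))))))
noncomputable def l1285 : Lb := (@Lb.r r21 (@Lb.d (nat_lit 2) (nat_lit 512) (nat_lit 130) (@Lb.g g8 (@Lb.g g10 (@Lb.g g11 (@Lb.r r395 (@Lb.r r386 (@Lb.r r97 (@Lb.r r72 (@Lb.d (nat_lit 593) (nat_lit 10) (nat_lit 85) (@Lb.t (@Lb.fp (nat_lit 9) t61))))))))))))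
noncomputable def l1286 : Lb := (@Lb.r r323 (@Lb.d (nat_lit 8) (nat_lit 514) (nat_lit 0) (@Lb.g g9 (@Lb.g g10 (@Lb.r r2339 (@Lb.r r146 (@Lb.d (nat_lit 2) (nat_lit 69) (nat_lit 0) (@Lb.fp (nat_lit 3) t295))))))))
noncomputable def l1287 : Lb := (@Lb.d (nat_lit 8) (nat_lit 2) (nat_lit 2) (@Lb.g g9 (@Lb.g g10 (@Lb.g g11 (@Lb.r r2403 (@Lb.r r98 (@Lb.d (nat_lit 2) (nat_lit 132) (nat_lit 17) (@Lb.t (@Lb.fm (nat_lit 9) t51)))))))))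
noncomputable def l1288 : Lb := (@Lb.d (nat_lit 296) (nat_lit 362) (nat_lit 278) (@Lb.r r289 (@Lb.r r1626 (@Lb.r r1384 (@Lb.r r2711 (@Lb.g g7 (@Lb.g g6 (@Lb.d (nat_lit 16) (nat_lit 0) (nat_lit 133) (@Lb.fp (nat_lit 3) t366)))))))))
noncomputable def l1289 : Lb := (@Lb.d (nat_lit 261) (nat_lit 674) (nat_lit 261) (@Lb.r r289 (@Lb.r r2331 (@Lb.r r2436 (@Lb.r r2630 (@Lb.g g7 (@Lb.g g6 (@Lb.d (nat_lit 0) (nat_lit 0) (nat_lit 5) (@Lb.fp (nat_lit 3) t558)))))))))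
noncomputable def l1290 : Lb := (@Lb.d (nat_lit 0) (nat_lit 2) (nat_lit 66) (@Lb.g g8 (@Lb.g g9 (@Lb.g g10 (@Lb.g g7 (@Lb.r r386 (@Lb.r r97 (@Lb.d (nat_lit 0) (nat_lit 138) (nat_lit 9) (@Lb.fm (nat_lit 9) t126)))))))))
noncomputable def l1291 : Lb := (@Lb.g g5 (@Lb.r r1427 (@Lb.r r1414 (@Lb.r r1380 (@Lb.r r1301 (@Lb.d (nat_lit 261) (nat_lit 402) (nat_lit 0) (@Lb.t (@Lb.fp (nat_lit 3) t559))))))))
noncomputable def l1292 : Lb := (@Lb.d (nat_lit 0) (nat_lit 545) (nat_lit 132) (@Lb.g g8 (@Lb.g g9 (@Lb.g g10 (@Lb.g g11 (@Lb.r r24 (@Lb.r r661 (@Lb.r r598 (@Lb.r r599 (@Lb.r r164 (@Lb.d (nat_lit 385) (nat_lit 0) (nat_lit 98) (@Lb.fp (nat_lit 9) t560))))))))))))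
noncomputable def l1293 : Lb := (@Lb.d (nat_lit 320) (nat_lit 552) (nat_lit 86) (@Lb.r r2661 (@Lb.r r615 (@Lb.r r2374 (@Lb.r r132 (@Lb.g g7 (@Lb.g g6 (@Lb.g g5 (@Lb.d (nat_lit 20) (nat_lit 6) (nat_lit 66) (@Lb.t (@Lb.fp (nat_lit 9) t561)))))))))))
noncomputable def l1294 : Lb := (@Lb.d (nat_lit 1) (nat_lit 545) (nat_lit 362) (@Lb.r r2394 (@Lb.r r2376 (@Lb.r r1543 (@Lb.g g6 (@Lb.g g9 (@Lb.d (nat_lit 0) (nat_lit 146) (nat_lit 0) (@Lb.fp (nat_lit 3) t562))))))))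
noncomputable def l1295 : Lb := (@Lb.d (nat_lit 2) (nat_lit 2) (nat_lit 66) (@Lb.g g8 (@Lb.g g9 (@Lb.g g10 (@Lb.g g7 (@Lb.r r386 (@Lb.r r97 (@Lb.d (nat_lit 9) (nat_lit 137) (nat_lit 9) (@Lb.fm (nat_lit 9) t360)))))))))
noncomputable def l1296 : Lb := (@Lb.d (nat_lit 282) (nat_lit 100) (nat_lit 262) (@Lb.r r289 (@Lb.r r603 (@Lb.r r516 (@Lb.r r2698 (@Lb.g g7 (@Lb.d (nat_lit 64) (nat_lit 0) (nat_lit 128) (@Lb.t (@Lb.fp (nat_lit 3) t563)))))))))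
noncomputable def l1297 : Lb := (@Lb.r r21 (@Lb.d (nat_lit 8) (nat_lit 8) (nat_lit 130) (@Lb.g g8 (@Lb.g g10 (@Lb.g g11 (@Lb.r r353 (@Lb.r r1431 (@Lb.r r2632 (@Lb.r r390 (@Lb.d (nat_lit 98) (nat_lit 66) (nat_lit 552) (@Lb.t (@Lb.fp (nat_lit 9) t2))))))))))))
noncomputable def l1298 : Lb := (@Lb.d (nat_lit 32) (nat_lit 256) (nat_lit 2) (@Lb.g g10 (@Lb.r r2579 (@Lb.r r72 (@Lb.r r598 (@Lb.r r289 (@Lb.d (nat_lit 274) (nat_lit 10) (nat_lit 137) (@Lb.t (@Lb.fm (nat_lit 3) t51)))))))))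
noncomputable def l1299 : Lb := (@Lb.d (nat_lit 9) (nat_lit 513) (nat_lit 130) (@Lb.g g8 (@Lb.g g9 (@Lb.g g10 (@Lb.g g11 (@Lb.r r148 (@Lb.r r102 (@Lb.r r357 (@Lb.r r667 (@Lb.r r644 (@Lb.d (nat_lit 2) (nat_lit 66) (nat_lit 10) (@Lb.fp (nat_lit 9) t2))))))))))))
noncomputable def l1300 : Lb := (@Lb.d (nat_lit 2) (nat_lit 288) (nat_lit 130) (@Lb.g g8 (@Lb.g g10 (@Lb.g g11 (@Lb.r r353 (@Lb.r r2714 (@Lb.r r2712 (@Lb.r r2587 (@Lb.d (nat_lit 322) (nat_lit 34) (nat_lit 522) (@Lb.t (@Lb.fm (nat_lit 9) t2)))))))))))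
noncomputable def l1301 : Lb := (@Lb.d (nat_lit 8) (nat_lit 258) (nat_lit 10) (@Lb.g g9 (@Lb.g g10 (@Lb.r r323 (@Lb.r r2626 (@Lb.d (nat_lit 2) (nat_lit 80) (nat_lit 426) (@Lb.fm (nat_lit 3) t210)))))))
noncomputable def l1302 : Lb := (@Lb.d (nat_lit 32) (nat_lit 256) (nat_lit 74) (@Lb.g g10 (@Lb.g g11 (@Lb.r r2711 (@Lb.r r1384 (@Lb.r r2406 (@Lb.r r289 (@Lb.d (nat_lit 532) (nat_lit 134) (nat_lit 34) (@Lb.fp (nat_lit 3) t51)))))))))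
noncomputable def l1303 : Lb := (@Lb.d (nat_lit 8) (nat_lit 258) (nat_lit 128) (@Lb.g g9 (@Lb.g g10 (@Lb.g g11 (@Lb.r r658 (@Lb.r r387 (@Lb.d (nat_lit 2) (nat_lit 69) (nat_lit 426) (@Lb.t (@Lb.fp (nat_lit 9) t295)))))))))
noncomputable def l1304 : Lb := (@Lb.d (nat_lit 8) (nat_lit 514) (nat_lit 130) (@Lb.g g9 (@Lb.g g10 (@Lb.g g11 (@Lb.r r419 (@Lb.r r98 (@Lb.d (nat_lit 2) (nat_lit 168) (nat_lit 386) (@Lb.t (@Lb.fm (nat_lit 9) t51)))))))))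
noncomputable def l1305 : Lb := (@Lb.r r323 (@Lb.d (nat_lit 40) (nat_lit 517) (nat_lit 0) (@Lb.g g8 (@Lb.g g9 (@Lb.g g10 (@Lb.r r2713 (@Lb.r r1563 (@Lb.r r70 (@Lb.r r1540 (@Lb.d (nat_lit 272) (nat_lit 0) (nat_lit 645) (@Lb.t (@Lb.fp (nat_lit 9) t321))))))))))))
noncomputable def l1306 : Lb := (@Lb.d (nat_lit 2) (nat_lit 144) (nat_lit 593) (@Lb.r r2182 (@Lb.r r2323 (@Lb.r r661 (@Lb.g g7 (@Lb.g g8 (@Lb.d (nat_lit 354) (nat_lit 16) (nat_lit 128) (@Lb.r r74 (@Lb.r r25 (@Lb.fm (nat_lit 3) t320))))))))))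
noncomputable def l1307 : Lb := (@Lb.d (nat_lit 129) (nat_lit 18) (nat_lit 2) (@Lb.g g8 (@Lb.g g9 (@Lb.g g10 (@Lb.g g11 (@Lb.r r347 (@Lb.r r386 (@Lb.r r1129 (@Lb.r r2084 (@Lb.d (nat_lit 41) (nat_lit 160) (nat_lit 617) (@Lb.fp (nat_lit 9) t19)))))))))))
noncomputable def l1308 : Lb := (@Lb.r r323 (@Lb.d (nat_lit 38) (nat_lit 2) (nat_lit 2) (@Lb.g g8 (@Lb.g g9 (@Lb.g g10 (@Lb.r r2713 (@Lb.r r1563 (@Lb.r r1540 (@Lb.d (nat_lit 417) (nat_lit 0) (nat_lit 145) (@Lb.t (@Lb.fp (nat_lit 9) t321)))))))))))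
noncomputable def l1309 : Lb := (@Lb.r r21 (@Lb.d (nat_lit 33) (nat_lit 256) (nat_lit 128) (@Lb.g g8 (@Lb.g g11 (@Lb.r r2470 (@Lb.r r2651 (@Lb.r r2648 (@Lb.r r37 (@Lb.d (nat_lit 538) (nat_lit 20) (nat_lit 274) (@Lb.fm (nat_lit 3) t564))))))))))
noncomputable def l1310 : Lb := (@Lb.r r323 (@Lb.d (nat_lit 38) (nat_lit 514) (nat_lit 2) (@Lb.g g8 (@Lb.g g9 (@Lb.g g10 (@Lb.r r2713 (@Lb.r r1563 (@Lb.r r1540 (@Lb.d (nat_lit 418) (nat_lit 0) (nat_lit 145) (@Lb.t (@Lb.fp (nat_lit 9) t168)))))))))))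
noncomputable def l1311 : Lb := (@Lb.r r323 (@Lb.d (nat_lit 2) (nat_lit 297) (nat_lit 2) (@Lb.g g8 (@Lb.g g9 (@Lb.g g10 (@Lb.r r2474 (@Lb.r r2468 (@Lb.r r1307 (@Lb.r r2661 (@Lb.d (nat_lit 665) (nat_lit 85) (nat_lit 324) (@Lb.t (@Lb.fm (nat_lit 9) t525))))))))))))
noncomputable def l1312 : Lb := (@Lb.d (nat_lit 134) (nat_lit 528) (nat_lit 137) (@Lb.g g8 (@Lb.g g9 (@Lb.g g10 (@Lb.g g11 (@Lb.r r610 (@Lb.r r2667 (@Lb.r r1129 (@Lb.r r1156 (@Lb.d (nat_lit 672) (nat_lit 41) (nat_lit 105) (@Lb.fp (nat_lit 9) t344)))))))))))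
noncomputable def l1313 : Lb := (@Lb.r r323 (@Lb.d (nat_lit 42) (nat_lit 0) (nat_lit 2) (@Lb.g g8 (@Lb.g g10 (@Lb.r r2331 (@Lb.r r2149 (@Lb.r r2194 (@Lb.r r1092 (@Lb.d (nat_lit 281) (nat_lit 5) (nat_lit 2) (@Lb.fm (nat_lit 3) t565))))))))))
noncomputable def l1314 : Lb := (@Lb.d (nat_lit 354) (nat_lit 68) (nat_lit 136) (@Lb.r r20 (@Lb.r r409 (@Lb.r r679 (@Lb.r r404 (@Lb.g g7 (@Lb.g g10 (@Lb.g g5 (@Lb.g g4 (@Lb.d (nat_lit 1) (nat_lit 4) (nat_lit 148) (@Lb.fp (nat_lit 9) t566)))))))))))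
noncomputable def l1315 : Lb := (@Lb.d (nat_lit 330) (nat_lit 336) (nat_lit 133) (@Lb.r r281 (@Lb.r r359 (@Lb.r r532 (@Lb.g g10 (@Lb.g g5 (@Lb.g g4 (@Lb.d (nat_lit 1) (nat_lit 20) (nat_lit 22) (@Lb.r r387 (@Lb.t (@Lb.fm (nat_lit 9) t567)))))))))))
noncomputable def l1316 : Lb := (@Lb.r r323 (@Lb.d (nat_lit 33) (nat_lit 2) (nat_lit 2) (@Lb.g g8 (@Lb.g g9 (@Lb.g g10 (@Lb.r r2666 (@Lb.r r2391 (@Lb.r r1577 (@Lb.r r1556 (@Lb.d (nat_lit 385) (nat_lit 130) (nat_lit 256) (@Lb.t (@Lb.fp (nat_lit 9) t394))))))))))))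
noncomputable def l1317 : Lb := (@Lb.r r82 (@Lb.d (nat_lit 34) (nat_lit 33) (nat_lit 64) (@Lb.g g8 (@Lb.g g9 (@Lb.g g11 (@Lb.r r1698 (@Lb.r r1577 (@Lb.r r616 (@Lb.r r587 (@Lb.d (nat_lit 384) (nat_lit 97) (nat_lit 73) (@Lb.t (@Lb.fm (nat_lit 9) t399))))))))))))
noncomputable def l1318 : Lb := (@Lb.d (nat_lit 2) (nat_lit 550) (nat_lit 5) (@Lb.g g8 (@Lb.g g9 (@Lb.g g10 (@Lb.g g11 (@Lb.r r1706 (@Lb.r r676 (@Lb.r r551 (@Lb.r r533 (@Lb.r r1060 (@Lb.d (nat_lit 394) (nat_lit 1) (nat_lit 586) (@Lb.fp (nat_lit 9) t264))))))))))))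
noncomputable def l1319 : Lb := (@Lb.r r82 (@Lb.d (nat_lit 34) (nat_lit 258) (nat_lit 136) (@Lb.g g8 (@Lb.g g9 (@Lb.g g11 (@Lb.r r1641 (@Lb.r r150 (@Lb.r r356 (@Lb.r r395 (@Lb.d (nat_lit 385) (nat_lit 97) (nat_lit 592) (@Lb.t (@Lb.fm (nat_lit 9) t399))))))))))))
noncomputable def l1320 : Lb := (@Lb.d (nat_lit 2) (nat_lit 514) (nat_lit 128) (@Lb.g g8 (@Lb.g g9 (@Lb.g g10 (@Lb.g g11 (@Lb.r r2723 (@Lb.r r2453 (@Lb.r r356 (@Lb.r r154 (@Lb.d (nat_lit 666) (nat_lit 10) (nat_lit 345) (@Lb.fp (nat_lit 9) t228)))))))))))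
noncomputable def l1321 : Lb := (@Lb.d (nat_lit 646) (nat_lit 528) (nat_lit 322) (@Lb.r r1556 (@Lb.r r281 (@Lb.r r615 (@Lb.g g6 (@Lb.g g4 (@Lb.d (nat_lit 68) (nat_lit 4) (nat_lit 37) (@Lb.r r387 (@Lb.fp (nat_lit 3) t568)))))))))
noncomputable def l1322 : Lb := (@Lb.r r21 (@Lb.r r323 (@Lb.d (nat_lit 33) (nat_lit 512) (nat_lit 2) (@Lb.g g8 (@Lb.g g10 (@Lb.r r395 (@Lb.r r2196 (@Lb.r r153 (@Lb.r r2194 (@Lb.d (nat_lit 1) (nat_lit 8) (nat_lit 2) (@Lb.fp (nat_lit 3) t569)))))))))))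
noncomputable def l1323 : Lb := (@Lb.d (nat_lit 2) (nat_lit 280) (nat_lit 74) (@Lb.g g8 (@Lb.g g9 (@Lb.g g10 (@Lb.g g11 (@Lb.r r423 (@Lb.r r1681 (@Lb.r r1432 (@Lb.r r1114 (@Lb.d (nat_lit 665) (nat_lit 137) (nat_lit 80) (@Lb.fm (nat_lit 9) t570)))))))))))
noncomputable def l1324 : Lb := (@Lb.d (nat_lit 36) (nat_lit 4) (nat_lit 128) (@Lb.g g8 (@Lb.g g9 (@Lb.g g10 (@Lb.g g11 (@Lb.r r1443 (@Lb.r r297 (@Lb.r r2120 (@Lb.r r2662 (@Lb.d (nat_lit 661) (nat_lit 42) (nat_lit 65) (@Lb.fp (nat_lit 9) t571)))))))))))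
noncomputable def l1325 : Lb := (@Lb.d (nat_lit 682) (nat_lit 644) (nat_lit 341) (@Lb.r r1604 (@Lb.r r535 (@Lb.r r353 (@Lb.g g7 (@Lb.g g6 (@Lb.g g4 (@Lb.d (nat_lit 5) (nat_lit 16) (nat_lit 165) (@Lb.t (@Lb.fp (nat_lit 9) t572))))))))))
noncomputable def l1326 : Lb := (@Lb.r r323 (@Lb.d (nat_lit 130) (nat_lit 290) (nat_lit 0) (@Lb.g g8 (@Lb.g g9 (@Lb.g g10 (@Lb.r r599 (@Lb.r r98 (@Lb.r r408 (@Lb.r r101 (@Lb.d (nat_lit 21) (nat_lit 40) (nat_lit 20) (@Lb.t (@Lb.fp (nat_lit 9) t221))))))))))))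
noncomputable def l1327 : Lb := (@Lb.d (nat_lit 0) (nat_lit 10) (nat_lit 34) (@Lb.r r97 (@Lb.r r1106 (@Lb.r r1299 (@Lb.g g5 (@Lb.d (nat_lit 0) (nat_lit 1) (nat_lit 0) (@Lb.t (@Lb.fp (nat_lit 3) t216))))))))
noncomputable def l1328 : Lb := (@Lb.d (nat_lit 10) (nat_lit 32) (nat_lit 128) (@Lb.g g8 (@Lb.g g11 (@Lb.r r1109 (@Lb.r r2340 (@Lb.r r2699 (@Lb.r r2178 (@Lb.d (nat_lit 594) (nat_lit 90) (nat_lit 326) (@Lb.fm (nat_lit 3) t124)))))))))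
noncomputable def l1329 : Lb := (@Lb.r r82 (@Lb.r r275 (@Lb.d (nat_lit 33) (nat_lit 264) (nat_lit 0) (@Lb.g g8 (@Lb.g g9 (@Lb.r r427 (@Lb.r r582 (@Lb.r r408 (@Lb.d (nat_lit 154) (nat_lit 25) (nat_lit 154) (@Lb.fp (nat_lit 3) t573))))))))))
noncomputable def l1330 : Lb := (@Lb.r r82 (@Lb.r r275 (@Lb.d (nat_lit 34) (nat_lit 520) (nat_lit 0) (@Lb.g g8 (@Lb.g g9 (@Lb.r r427 (@Lb.r r582 (@Lb.r r408 (@Lb.d (nat_lit 154) (nat_lit 25) (nat_lit 16) (@Lb.fp (nat_lit 3) t573))))))))))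
noncomputable def l1331 : Lb := (@Lb.r r2451 (@Lb.r r1186 (@Lb.r r2209 (@Lb.d (nat_lit 5) (nat_lit 580) (nat_lit 0) (@Lb.fp (nat_lit 1) t574)))))
noncomputable def l1332 : Lb := (@Lb.d (nat_lit 0) (nat_lit 10) (nat_lit 129) (@Lb.g g9 (@Lb.g g10 (@Lb.g g11 (@Lb.r r2455 (@Lb.r r1112 (@Lb.r r2630 (@Lb.r r289 (@Lb.d (nat_lit 665) (nat_lit 102) (nat_lit 328) (@Lb.t (@Lb.fm (nat_lit 9) t575)))))))))))
noncomputable def l1333 : Lb := (@Lb.r r89 (@Lb.d (nat_lit 17) (nat_lit 0) (nat_lit 1) (@Lb.fp (nat_lit 1) t576)))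
noncomputable def l1334 : Lb := (@Lb.d (nat_lit 4) (nat_lit 513) (nat_lit 0) (@Lb.g g5 (@Lb.d (nat_lit 8) (nat_lit 4) (nat_lit 1) (@Lb.t (@Lb.fm (nat_lit 3) t45)))))
noncomputable def l1335 : Lb := (@Lb.d (nat_lit 136) (nat_lit 264) (nat_lit 128) (@Lb.g g9 (@Lb.g g11 (@Lb.r r2202 (@Lb.r r260 (@Lb.r r1691 (@Lb.r r337 (@Lb.d (nat_lit 74) (nat_lit 85) (nat_lit 548) (@Lb.fm (nat_lit 3) t322)))))))))
noncomputable def l1336 : Lb := (@Lb.d (nat_lit 8) (nat_lit 520) (nat_lit 64) (@Lb.g g9 (@Lb.g g11 (@Lb.r r2202 (@Lb.r r2452 (@Lb.r r2571 (@Lb.r r337 (@Lb.d (nat_lit 641) (nat_lit 22) (nat_lit 356) (@Lb.fm (nat_lit 3) t322)))))))))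
noncomputable def l1337 : Lb := (@Lb.d (nat_lit 4) (nat_lit 257) (nat_lit 0) (@Lb.g g9 (@Lb.d (nat_lit 8) (nat_lit 2) (nat_lit 0) (@Lb.t (@Lb.fp (nat_lit 3) t2)))))
noncomputable def l1338 : Lb := (@Lb.d (nat_lit 0) (nat_lit 512) (nat_lit 128) (@Lb.g g9 (@Lb.g g10 (@Lb.g g11 (@Lb.r r2471 (@Lb.r r1096 (@Lb.r r2646 (@Lb.r r289 (@Lb.d (nat_lit 533) (nat_lit 130) (nat_lit 138) (@Lb.t (@Lb.fm (nat_lit 9) t219)))))))))))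
noncomputable def l1339 : Lb := (@Lb.d (nat_lit 0) (nat_lit 512) (nat_lit 130) (@Lb.g g9 (@Lb.g g10 (@Lb.g g11 (@Lb.r r586 (@Lb.r r584 (@Lb.r r299 (@Lb.r r289 (@Lb.d (nat_lit 2) (nat_lit 2) (nat_lit 138) (@Lb.t (@Lb.fm (nat_lit 9) t51)))))))))))
noncomputable def l1340 : Lb := (@Lb.d (nat_lit 22) (nat_lit 512) (nat_lit 128) (@Lb.g g8 (@Lb.g g9 (@Lb.g g10 (@Lb.g g11 (@Lb.r r1703 (@Lb.r r2597 (@Lb.r r660 (@Lb.r r2118 (@Lb.r r132 (@Lb.d (nat_lit 521) (nat_lit 32) (nat_lit 609) (@Lb.fp (nat_lit 9) t220))))))))))))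
noncomputable def l1341 : Lb := (@Lb.d (nat_lit 4) (nat_lit 512) (nat_lit 130) (@Lb.g g8 (@Lb.g g9 (@Lb.g g10 (@Lb.g g11 (@Lb.r r427 (@Lb.r r420 (@Lb.r r102 (@Lb.r r97 (@Lb.r r36 (@Lb.d (nat_lit 2) (nat_lit 9) (nat_lit 137) (@Lb.fm (nat_lit 9) t51))))))))))))
noncomputable def l1342 : Lb := (@Lb.d (nat_lit 1) (nat_lit 256) (nat_lit 130) (@Lb.g g8 (@Lb.g g9 (@Lb.g g10 (@Lb.g g11 (@Lb.r r1435 (@Lb.r r153 (@Lb.r r2650 (@Lb.r r2628 (@Lb.d (nat_lit 409) (nat_lit 9) (nat_lit 612) (@Lb.fp (nat_lit 9) t221)))))))))))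
noncomputable def l1343 : Lb := (@Lb.d (nat_lit 0) (nat_lit 264) (nat_lit 10) (@Lb.g g6 (@Lb.r r1697 (@Lb.r r675 (@Lb.r r1698 (@Lb.d (nat_lit 321) (nat_lit 170) (nat_lit 153) (@Lb.t (@Lb.fp (nat_lit 3) t322))))))))
noncomputable def l1344 : Lb := (@Lb.d (nat_lit 1) (nat_lit 260) (nat_lit 129) (@Lb.g g8 (@Lb.g g9 (@Lb.g g10 (@Lb.g g11 (@Lb.r r659 (@Lb.r r533 (@Lb.r r616 (@Lb.r r326 (@Lb.d (nat_lit 80) (nat_lit 10) (nat_lit 133) (@Lb.fp (nat_lit 9) t355)))))))))))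
noncomputable def l1345 : Lb := (@Lb.r r82 (@Lb.r r275 (@Lb.d (nat_lit 2) (nat_lit 586) (nat_lit 0) (@Lb.g g8 (@Lb.g g5 (@Lb.r r291 (@Lb.r r98 (@Lb.r r24 (@Lb.d (nat_lit 10) (nat_lit 132) (nat_lit 17) (@Lb.fm (nat_lit 3) t68))))))))))
noncomputable def l1346 : Lb := (@Lb.r r82 (@Lb.d (nat_lit 34) (nat_lit 0) (nat_lit 136) (@Lb.g g8 (@Lb.g g9 (@Lb.g g11 (@Lb.r r617 (@Lb.r r150 (@Lb.r r356 (@Lb.r r395 (@Lb.d (nat_lit 128) (nat_lit 34) (nat_lit 73) (@Lb.t (@Lb.fm (nat_lit 9) t355))))))))))))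
noncomputable def l1347 : Lb := (@Lb.d (nat_lit 0) (nat_lit 512) (nat_lit 130) (@Lb.g g9 (@Lb.g g10 (@Lb.g g11 (@Lb.r r586 (@Lb.r r584 (@Lb.r r299 (@Lb.r r289 (@Lb.d (nat_lit 9) (nat_lit 130) (nat_lit 0) (@Lb.t (@Lb.fm (nat_lit 9) t51)))))))))))
noncomputable def l1348 : Lb := (@Lb.d (nat_lit 2) (nat_lit 260) (nat_lit 72) (@Lb.g g8 (@Lb.g g9 (@Lb.g g10 (@Lb.g g11 (@Lb.r r659 (@Lb.r r533 (@Lb.r r616 (@Lb.r r326 (@Lb.d (nat_lit 80) (nat_lit 10) (nat_lit 133) (@Lb.fp (nat_lit 9) t355)))))))))))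
noncomputable def l1349 : Lb := (@Lb.r r82 (@Lb.r r275 (@Lb.d (nat_lit 2) (nat_lit 512) (nat_lit 0) (@Lb.g g8 (@Lb.g g9 (@Lb.r r2315 (@Lb.r r2122 (@Lb.r r145 (@Lb.d (nat_lit 26) (nat_lit 0) (nat_lit 16) (@Lb.fm (nat_lit 3) t7))))))))))
noncomputable def l1350 : Lb := (@Lb.d (nat_lit 0) (nat_lit 514) (nat_lit 0) (@Lb.g g9 (@Lb.r r2339 (@Lb.r r2146 (@Lb.r r97 (@Lb.d (nat_lit 0) (nat_lit 0) (nat_lit 16) (@Lb.t (@Lb.fm (nat_lit 3) t65))))))))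
noncomputable def l1351 : Lb := (@Lb.r r275 (@Lb.d (nat_lit 2) (nat_lit 129) (nat_lit 0) (@Lb.g g8 (@Lb.g g5 (@Lb.g g10 (@Lb.r r291 (@Lb.r r24 (@Lb.d (nat_lit 10) (nat_lit 66) (nat_lit 0) (@Lb.t (@Lb.fm (nat_lit 9) t148))))))))))
noncomputable def l1352 : Lb := (@Lb.d (nat_lit 2) (nat_lit 8) (nat_lit 130) (@Lb.g g8 (@Lb.g g10 (@Lb.g g11 (@Lb.r r2443 (@Lb.r r2345 (@Lb.r r2468 (@Lb.r r2150 (@Lb.d (nat_lit 533) (nat_lit 21) (nat_lit 406) (@Lb.t (@Lb.fp (nat_lit 9) t51)))))))))))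
noncomputable def l1353 : Lb := (@Lb.r r21 (@Lb.r r70 (@Lb.r r263 (@Lb.d (nat_lit 1) (nat_lit 512) (nat_lit 0) (@Lb.g g4 (@Lb.r r267 (@Lb.r r74 (@Lb.r r25 (@Lb.t (@Lb.fm (nat_lit 3) t68))))))))))
noncomputable def l1354 : Lb := (@Lb.d (nat_lit 32) (nat_lit 256) (nat_lit 128) (@Lb.g g10 (@Lb.g g11 (@Lb.r r1447 (@Lb.r r2648 (@Lb.r r2453 (@Lb.r r1430 (@Lb.d (nat_lit 356) (nat_lit 90) (nat_lit 9) (@Lb.fm (nat_lit 3) t188)))))))))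
noncomputable def l1355 : Lb := (@Lb.d (nat_lit 34) (nat_lit 258) (nat_lit 0) (@Lb.g g8 (@Lb.g g9 (@Lb.r r1186 (@Lb.r r1065 (@Lb.r r360 (@Lb.r r1543 (@Lb.d (nat_lit 0) (nat_lit 149) (nat_lit 596) (@Lb.fm (nat_lit 3) t242)))))))))
noncomputable def l1356 : Lb := (@Lb.d (nat_lit 41) (nat_lit 257) (nat_lit 0) (@Lb.g g8 (@Lb.g g9 (@Lb.r r1186 (@Lb.r r1065 (@Lb.r r360 (@Lb.r r1543 (@Lb.d (nat_lit 0) (nat_lit 154) (nat_lit 597) (@Lb.fm (nat_lit 3) t242)))))))))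
noncomputable def l1357 : Lb := (@Lb.r r323 (@Lb.d (nat_lit 130) (nat_lit 9) (nat_lit 2) (@Lb.g g8 (@Lb.g g9 (@Lb.g g10 (@Lb.r r2474 (@Lb.r r583 (@Lb.r r2201 (@Lb.r r408 (@Lb.d (nat_lit 88) (nat_lit 26) (nat_lit 330) (@Lb.t (@Lb.fp (nat_lit 9) t74))))))))))))
noncomputable def l1358 : Lb := (@Lb.d (nat_lit 34) (nat_lit 2) (nat_lit 0) (@Lb.g g8 (@Lb.g g9 (@Lb.r r1186 (@Lb.r r1065 (@Lb.r r360 (@Lb.r r1543 (@Lb.d (nat_lit 0) (nat_lit 154) (nat_lit 597) (@Lb.fm (nat_lit 3) t242)))))))))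
noncomputable def l1359 : Lb := (@Lb.d (nat_lit 406) (nat_lit 129) (nat_lit 358) (@Lb.r r2438 (@Lb.r r1620 (@Lb.r r2345 (@Lb.r r1351 (@Lb.g g7 (@Lb.g g6 (@Lb.g g4 (@Lb.d (nat_lit 2) (nat_lit 4) (nat_lit 65) (@Lb.t (@Lb.fp (nat_lit 9) t577)))))))))))
noncomputable def l1360 : Lb := (@Lb.d (nat_lit 132) (nat_lit 16) (nat_lit 66) (@Lb.g g8 (@Lb.g g9 (@Lb.g g10 (@Lb.g g11 (@Lb.r r339 (@Lb.r r386 (@Lb.r r1129 (@Lb.r r2084 (@Lb.d (nat_lit 682) (nat_lit 66) (nat_lit 105) (@Lb.fp (nat_lit 9) t19)))))))))))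
noncomputable def l1361 : Lb := (@Lb.d (nat_lit 646) (nat_lit 342) (nat_lit 82) (@Lb.r r1301 (@Lb.r r1366 (@Lb.r r683 (@Lb.g g6 (@Lb.g g5 (@Lb.g g4 (@Lb.d (nat_lit 1) (nat_lit 1) (nat_lit 1) (@Lb.t (@Lb.fm (nat_lit 9) t578))))))))))
noncomputable def l1362 : Lb := (@Lb.d (nat_lit 8) (nat_lit 290) (nat_lit 0) (@Lb.g g9 (@Lb.r r536 (@Lb.r r2715 (@Lb.r r2178 (@Lb.r r2469 (@Lb.d (nat_lit 74) (nat_lit 97) (nat_lit 681) (@Lb.t (@Lb.fp (nat_lit 3) t64)))))))))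
noncomputable def l1363 : Lb := (@Lb.r r82 (@Lb.r r275 (@Lb.d (nat_lit 0) (nat_lit 513) (nat_lit 0) (@Lb.g g5 (@Lb.r r291 (@Lb.r r98 (@Lb.d (nat_lit 5) (nat_lit 0) (nat_lit 0) (@Lb.t (@Lb.fm (nat_lit 3) t579)))))))))
noncomputable def l1364 : Lb := (@Lb.d (nat_lit 516) (nat_lit 386) (nat_lit 256) (@Lb.r r20 (@Lb.r r2145 (@Lb.r r402 (@Lb.r r1291 (@Lb.g g11 (@Lb.t (@Lb.fp (nat_lit 3) t580))))))))
noncomputable def l1365 : Lb := (@Lb.d (nat_lit 65) (nat_lit 18) (nat_lit 640) (@Lb.r r1321 (@Lb.r r1444 (@Lb.r r166 (@Lb.r r2659 (@Lb.g g7 (@Lb.g g6 (@Lb.g g5 (@Lb.d (nat_lit 0) (nat_lit 10) (nat_lit 64) (@Lb.t (@Lb.fm (nat_lit 9) t581)))))))))))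
noncomputable def l1366 : Lb := (@Lb.d (nat_lit 73) (nat_lit 352) (nat_lit 585) (@Lb.r r1305 (@Lb.r r1428 (@Lb.r r2727 (@Lb.g g7 (@Lb.g g10 (@Lb.g g5 (@Lb.d (nat_lit 32) (nat_lit 4) (nat_lit 66) (@Lb.t (@Lb.fp (nat_lit 9) t582))))))))))
noncomputable def l1367 : Lb := (@Lb.r r1307 (@Lb.r r1114 (@Lb.r r2088 (@Lb.r r1065 (@Lb.d (nat_lit 260) (nat_lit 578) (nat_lit 0) (@Lb.fp (nat_lit 1) t583))))))
noncomputable def l1368 : Lb := (@Lb.d (nat_lit 522) (nat_lit 512) (nat_lit 0) (@Lb.r r37 (@Lb.r r1094 (@Lb.r r1287 (@Lb.g g5 (@Lb.g g4 (@Lb.r r291 (@Lb.r r98 (@Lb.fp (nat_lit 3) t584)))))))))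
noncomputable def l1369 : Lb := (@Lb.d (nat_lit 644) (nat_lit 402) (nat_lit 384) (@Lb.r r289 (@Lb.r r279 (@Lb.r r584 (@Lb.r r166 (@Lb.g g7 (@Lb.g g6 (@Lb.g g5 (@Lb.d (nat_lit 0) (nat_lit 0) (nat_lit 65) (@Lb.t (@Lb.fm (nat_lit 9) t581)))))))))))
noncomputable def l1370 : Lb := (@Lb.d (nat_lit 132) (nat_lit 328) (nat_lit 409) (@Lb.r r24 (@Lb.r r97 (@Lb.r r2386 (@Lb.r r1415 (@Lb.g g7 (@Lb.g g5 (@Lb.g g4 (@Lb.d (nat_lit 1) (nat_lit 1) (nat_lit 64) (@Lb.t (@Lb.fp (nat_lit 9) t585)))))))))))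
noncomputable def l1371 : Lb := (@Lb.d (nat_lit 329) (nat_lit 426) (nat_lit 89) (@Lb.r r24 (@Lb.r r97 (@Lb.r r2386 (@Lb.r r1287 (@Lb.g g7 (@Lb.g g5 (@Lb.g g4 (@Lb.d (nat_lit 1) (nat_lit 1) (nat_lit 128) (@Lb.t (@Lb.fp (nat_lit 9) t586)))))))))))
noncomputable def l1372 : Lb := (@Lb.r r82 (@Lb.r r275 (@Lb.d (nat_lit 41) (nat_lit 385) (nat_lit 0) (@Lb.g g8 (@Lb.g g9 (@Lb.r r150 (@Lb.r r360 (@Lb.r r391 (@Lb.d (nat_lit 0) (nat_lit 65) (nat_lit 656) (@Lb.fm (nat_lit 3) t308))))))))))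
noncomputable def l1373 : Lb := (@Lb.d (nat_lit 0) (nat_lit 265) (nat_lit 128) (@Lb.r r402 (@Lb.g g11 (@Lb.d (nat_lit 0) (nat_lit 0) (nat_lit 136) (@Lb.t (@Lb.fm (nat_lit 3) t369))))))
noncomputable def l1374 : Lb := (@Lb.d (nat_lit 262) (nat_lit 517) (nat_lit 18) (@Lb.r r154 (@Lb.r r660 (@Lb.r r1621 (@Lb.r r2727 (@Lb.g g7 (@Lb.g g6 (@Lb.g g5 (@Lb.d (nat_lit 0) (nat_lit 5) (nat_lit 65) (@Lb.t (@Lb.fp (nat_lit 9) t587)))))))))))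
noncomputable def l1375 : Lb := (@Lb.d (nat_lit 320) (nat_lit 5) (nat_lit 84) (@Lb.r r394 (@Lb.r r132 (@Lb.r r279 (@Lb.r r2725 (@Lb.g g7 (@Lb.g g6 (@Lb.g g5 (@Lb.d (nat_lit 16) (nat_lit 5) (nat_lit 66) (@Lb.t (@Lb.fp (nat_lit 9) t588)))))))))))
noncomputable def l1376 : Lb := (@Lb.d (nat_lit 614) (nat_lit 16) (nat_lit 98) (@Lb.r r279 (@Lb.r r612 (@Lb.r r597 (@Lb.g g7 (@Lb.g g10 (@Lb.d (nat_lit 64) (nat_lit 20) (nat_lit 81) (@Lb.r r145 (@Lb.fp (nat_lit 3) t588)))))))))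
noncomputable def l1377 : Lb := (@Lb.d (nat_lit 616) (nat_lit 529) (nat_lit 98) (@Lb.r r279 (@Lb.r r612 (@Lb.r r597 (@Lb.g g7 (@Lb.g g10 (@Lb.d (nat_lit 64) (nat_lit 20) (nat_lit 81) (@Lb.r r145 (@Lb.fp (nat_lit 3) t588)))))))))
noncomputable def l1378 : Lb := (@Lb.d (nat_lit 32) (nat_lit 266) (nat_lit 129) (@Lb.g g9 (@Lb.g g10 (@Lb.g g11 (@Lb.r r2725 (@Lb.r r299 (@Lb.r r68 (@Lb.r r394 (@Lb.d (nat_lit 640) (nat_lit 10) (nat_lit 168) (@Lb.t (@Lb.fm (nat_lit 9) t217)))))))))))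
noncomputable def l1379 : Lb := (@Lb.d (nat_lit 0) (nat_lit 522) (nat_lit 130) (@Lb.g g9 (@Lb.g g10 (@Lb.g g11 (@Lb.r r2727 (@Lb.r r2457 (@Lb.r r356 (@Lb.r r154 (@Lb.d (nat_lit 521) (nat_lit 10) (nat_lit 33) (@Lb.t (@Lb.fm (nat_lit 9) t525)))))))))))
noncomputable def l1380 : Lb := (@Lb.r r323 (@Lb.d (nat_lit 8) (nat_lit 298) (nat_lit 2) (@Lb.g g9 (@Lb.g g10 (@Lb.r r2470 (@Lb.r r1624 (@Lb.r r1691 (@Lb.r r2469 (@Lb.d (nat_lit 617) (nat_lit 97) (nat_lit 681) (@Lb.fm (nat_lit 3) t525))))))))))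
noncomputable def l1381 : Lb := (@Lb.d (nat_lit 133) (nat_lit 577) (nat_lit 70) (@Lb.r r293 (@Lb.r r600 (@Lb.r r603 (@Lb.g g6 (@Lb.g g5 (@Lb.d (nat_lit 16) (nat_lit 21) (nat_lit 2) (@Lb.r r387 (@Lb.fp (nat_lit 3) t260)))))))))
noncomputable def l1382 : Lb := (@Lb.d (nat_lit 0) (nat_lit 264) (nat_lit 2) (@Lb.g g10 (@Lb.g g11 (@Lb.r r387 (@Lb.d (nat_lit 0) (nat_lit 9) (nat_lit 136) (@Lb.fm (nat_lit 3) t51))))))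
noncomputable def l1383 : Lb := (@Lb.r r81 (@Lb.g g10 (@Lb.r r545 (@Lb.r r1387 (@Lb.r r1352 (@Lb.r r2182 (@Lb.d (nat_lit 22) (nat_lit 8) (nat_lit 34) (@Lb.t (@Lb.fm (nat_lit 3) t589)))))))))
noncomputable def l1384 : Lb := (@Lb.r r81 (@Lb.d (nat_lit 128) (nat_lit 552) (nat_lit 34) (@Lb.g g6 (@Lb.g g11 (@Lb.r r409 (@Lb.r r404 (@Lb.r r299 (@Lb.d (nat_lit 409) (nat_lit 32) (nat_lit 145) (@Lb.fp (nat_lit 3) t23)))))))))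
noncomputable def l1385 : Lb := (@Lb.d (nat_lit 32) (nat_lit 546) (nat_lit 4) (@Lb.g g9 (@Lb.g g10 (@Lb.g g11 (@Lb.r r1707 (@Lb.r r1689 (@Lb.r r100 (@Lb.r r410 (@Lb.d (nat_lit 393) (nat_lit 25) (nat_lit 169) (@Lb.t (@Lb.fm (nat_lit 9) t74)))))))))))
noncomputable def l1386 : Lb := (@Lb.d (nat_lit 2) (nat_lit 265) (nat_lit 130) (@Lb.g g8 (@Lb.g g9 (@Lb.g g10 (@Lb.g g11 (@Lb.r r2723 (@Lb.r r2453 (@Lb.r r356 (@Lb.r r154 (@Lb.d (nat_lit 665) (nat_lit 10) (nat_lit 345) (@Lb.fp (nat_lit 9) t525)))))))))))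
noncomputable def l1387 : Lb := (@Lb.d (nat_lit 138) (nat_lit 0) (nat_lit 0) (@Lb.g g8 (@Lb.r r1621 (@Lb.r r2391 (@Lb.r r2178 (@Lb.r r1572 (@Lb.d (nat_lit 394) (nat_lit 146) (nat_lit 592) (@Lb.t (@Lb.fm (nat_lit 3) t124)))))))))
noncomputable def l1388 : Lb := (@Lb.d (nat_lit 530) (nat_lit 517) (nat_lit 16) (@Lb.r r1094 (@Lb.r r2440 (@Lb.r r535 (@Lb.r r1361 (@Lb.g g7 (@Lb.g g6 (@Lb.g g5 (@Lb.d (nat_lit 0) (nat_lit 1) (nat_lit 134) (@Lb.t (@Lb.fp (nat_lit 9) t590)))))))))))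
noncomputable def l1389 : Lb := (@Lb.d (nat_lit 130) (nat_lit 0) (nat_lit 0) (@Lb.g g4 (@Lb.r r1625 (@Lb.r r2395 (@Lb.r r2178 (@Lb.r r2328 (@Lb.d (nat_lit 581) (nat_lit 97) (nat_lit 80) (@Lb.t (@Lb.fm (nat_lit 3) t124)))))))))
noncomputable def l1390 : Lb := (@Lb.d (nat_lit 298) (nat_lit 357) (nat_lit 600) (@Lb.r r1114 (@Lb.r r1620 (@Lb.r r2345 (@Lb.r r1351 (@Lb.g g7 (@Lb.g g6 (@Lb.g g4 (@Lb.d (nat_lit 1) (nat_lit 0) (nat_lit 64) (@Lb.t (@Lb.fm (nat_lit 9) t151)))))))))))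
noncomputable def l1391 : Lb := (@Lb.d (nat_lit 1) (nat_lit 9) (nat_lit 0) (@Lb.g g8 (@Lb.g g9 (@Lb.r r138 (@Lb.r r644 (@Lb.r r2583 (@Lb.r r1313 (@Lb.d (nat_lit 0) (nat_lit 69) (nat_lit 385) (@Lb.fp (nat_lit 3) t71)))))))))
noncomputable def l1392 : Lb := (@Lb.d (nat_lit 5) (nat_lit 65) (nat_lit 1) (@Lb.r r289 (@Lb.r r279 (@Lb.r r584 (@Lb.g g6 (@Lb.g g5 (@Lb.d (nat_lit 16) (nat_lit 0) (nat_lit 1) (@Lb.r r387 (@Lb.fm (nat_lit 3) t68)))))))))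
noncomputable def l1393 : Lb := (@Lb.d (nat_lit 6) (nat_lit 577) (nat_lit 0) (@Lb.r r289 (@Lb.r r279 (@Lb.r r584 (@Lb.r r326 (@Lb.g g7 (@Lb.g g6 (@Lb.g g5 (@Lb.d (nat_lit 0) (nat_lit 0) (nat_lit 65) (@Lb.t (@Lb.fp (nat_lit 9) t68)))))))))))
noncomputable def l1394 : Lb := (@Lb.d (nat_lit 4) (nat_lit 266) (nat_lit 0) (@Lb.g g5 (@Lb.r r170 (@Lb.r r676 (@Lb.r r2711 (@Lb.r r1377 (@Lb.d (nat_lit 0) (nat_lit 37) (nat_lit 105) (@Lb.t (@Lb.fp (nat_lit 3) t591)))))))))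
noncomputable def l1395 : Lb := (@Lb.r r1427 (@Lb.r r101 (@Lb.r r24 (@Lb.d (nat_lit 258) (nat_lit 512) (nat_lit 32) (@Lb.fp (nat_lit 1) t592)))))
noncomputable def l1396 : Lb := (@Lb.d (nat_lit 5) (nat_lit 514) (nat_lit 70) (@Lb.r r289 (@Lb.r r279 (@Lb.r r584 (@Lb.g g6 (@Lb.g g5 (@Lb.d (nat_lit 16) (nat_lit 0) (nat_lit 1) (@Lb.r r387 (@Lb.fm (nat_lit 3) t68)))))))))
noncomputable def l1397 : Lb := (@Lb.d (nat_lit 274) (nat_lit 256) (nat_lit 17) (@Lb.r r146 (@Lb.r r2149 (@Lb.r r1304 (@Lb.r r2727 (@Lb.g g7 (@Lb.g g5 (@Lb.r r578 (@Lb.fm (nat_lit 3) t308)))))))))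
noncomputable def l1398 : Lb := (@Lb.d (nat_lit 320) (nat_lit 261) (nat_lit 84) (@Lb.r r394 (@Lb.r r132 (@Lb.r r279 (@Lb.r r2725 (@Lb.g g7 (@Lb.g g6 (@Lb.g g5 (@Lb.d (nat_lit 16) (nat_lit 0) (nat_lit 65) (@Lb.t (@Lb.fp (nat_lit 9) t588)))))))))))
noncomputable def l1399 : Lb := (@Lb.d (nat_lit 298) (nat_lit 680) (nat_lit 617) (@Lb.r r1114 (@Lb.r r1620 (@Lb.r r2345 (@Lb.r r1351 (@Lb.g g7 (@Lb.g g6 (@Lb.g g4 (@Lb.d (nat_lit 1) (nat_lit 4) (nat_lit 8) (@Lb.t (@Lb.fm (nat_lit 9) t68)))))))))))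
noncomputable def l1400 : Lb := (@Lb.d (nat_lit 5) (nat_lit 132) (nat_lit 18) (@Lb.r r289 (@Lb.r r279 (@Lb.r r584 (@Lb.g g6 (@Lb.g g5 (@Lb.d (nat_lit 32) (nat_lit 0) (nat_lit 34) (@Lb.r r387 (@Lb.fm (nat_lit 3) t593)))))))))
noncomputable def l1401 : Lb := (@Lb.d (nat_lit 322) (nat_lit 517) (nat_lit 84) (@Lb.r r394 (@Lb.r r132 (@Lb.r r279 (@Lb.r r2725 (@Lb.g g7 (@Lb.g g6 (@Lb.g g5 (@Lb.d (nat_lit 16) (nat_lit 0) (nat_lit 65) (@Lb.t (@Lb.fp (nat_lit 9) t588)))))))))))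
noncomputable def l1402 : Lb := (@Lb.r r323 (@Lb.d (nat_lit 164) (nat_lit 258) (nat_lit 2) (@Lb.g g8 (@Lb.g g9 (@Lb.g g10 (@Lb.r r2345 (@Lb.r r2455 (@Lb.r r1636 (@Lb.d (nat_lit 410) (nat_lit 144) (nat_lit 169) (@Lb.t (@Lb.fp (nat_lit 9) t594)))))))))))
noncomputable def l1403 : Lb := (@Lb.d (nat_lit 0) (nat_lit 264) (nat_lit 130) (@Lb.g g9 (@Lb.g g10 (@Lb.g g11 (@Lb.r r2694 (@Lb.r r584 (@Lb.r r555 (@Lb.r r545 (@Lb.d (nat_lit 513) (nat_lit 1) (nat_lit 133) (@Lb.t (@Lb.fm (nat_lit 9) t467)))))))))))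
noncomputable def l1404 : Lb := (@Lb.r r323 (@Lb.d (nat_lit 36) (nat_lit 514) (nat_lit 2) (@Lb.g g8 (@Lb.g g9 (@Lb.g g10 (@Lb.r r2347 (@Lb.r r2212 (@Lb.r r134 (@Lb.r r1121 (@Lb.d (nat_lit 544) (nat_lit 9) (nat_lit 16) (@Lb.t (@Lb.fm (nat_lit 9) t595))))))))))))
noncomputable def l1405 : Lb := (@Lb.d (nat_lit 616) (nat_lit 80) (nat_lit 98) (@Lb.r r279 (@Lb.r r612 (@Lb.r r1621 (@Lb.g g7 (@Lb.g g10 (@Lb.d (nat_lit 64) (nat_lit 20) (nat_lit 161) (@Lb.r r401 (@Lb.fp (nat_lit 3) t71)))))))))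
noncomputable def l1406 : Lb := (@Lb.d (nat_lit 609) (nat_lit 593) (nat_lit 98) (@Lb.r r279 (@Lb.r r612 (@Lb.r r1621 (@Lb.g g7 (@Lb.g g10 (@Lb.d (nat_lit 64) (nat_lit 20) (nat_lit 161) (@Lb.r r401 (@Lb.fp (nat_lit 3) t71)))))))))
noncomputable def l1407 : Lb := (@Lb.d (nat_lit 677) (nat_lit 88) (nat_lit 102) (@Lb.r r347 (@Lb.r r280 (@Lb.r r1621 (@Lb.r r1186 (@Lb.g g7 (@Lb.g g6 (@Lb.g g5 (@Lb.d (nat_lit 64) (nat_lit 5) (nat_lit 134) (@Lb.t (@Lb.fp (nat_lit 9) t71)))))))))))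
noncomputable def l1408 : Lb := (@Lb.r r323 (@Lb.d (nat_lit 128) (nat_lit 258) (nat_lit 18) (@Lb.g g8 (@Lb.g g9 (@Lb.g g10 (@Lb.r r2345 (@Lb.r r1431 (@Lb.r r2660 (@Lb.d (nat_lit 666) (nat_lit 90) (nat_lit 408) (@Lb.t (@Lb.fp (nat_lit 9) t596)))))))))))
noncomputable def l1409 : Lb := (@Lb.d (nat_lit 2) (nat_lit 8) (nat_lit 130) (@Lb.g g8 (@Lb.g g9 (@Lb.g g10 (@Lb.g g11 (@Lb.r r1366 (@Lb.r r2472 (@Lb.r r1303 (@Lb.r r2581 (@Lb.d (nat_lit 134) (nat_lit 170) (nat_lit 329) (@Lb.fm (nat_lit 9) t597)))))))))))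
noncomputable def l1410 : Lb := (@Lb.d (nat_lit 2) (nat_lit 258) (nat_lit 9) (@Lb.g g8 (@Lb.g g9 (@Lb.g g6 (@Lb.r r515 (@Lb.r r97 (@Lb.r r24 (@Lb.d (nat_lit 10) (nat_lit 138) (nat_lit 128) (@Lb.t (@Lb.fm (nat_lit 9) t154))))))))))
noncomputable def l1411 : Lb := (@Lb.d (nat_lit 2) (nat_lit 521) (nat_lit 8) (@Lb.g g8 (@Lb.g g9 (@Lb.g g6 (@Lb.r r515 (@Lb.r r97 (@Lb.r r24 (@Lb.d (nat_lit 10) (nat_lit 9) (nat_lit 128) (@Lb.t (@Lb.fm (nat_lit 9) t130))))))))))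
noncomputable def l1412 : Lb := (@Lb.d (nat_lit 0) (nat_lit 512) (nat_lit 66) (@Lb.g g10 (@Lb.g g11 (@Lb.r r419 (@Lb.r r386 (@Lb.d (nat_lit 0) (nat_lit 98) (nat_lit 18) (@Lb.fp (nat_lit 3) t305)))))))
noncomputable def l1413 : Lb := (@Lb.d (nat_lit 0) (nat_lit 266) (nat_lit 130) (@Lb.g g5 (@Lb.g g10 (@Lb.g g11 (@Lb.r r2626 (@Lb.d (nat_lit 0) (nat_lit 0) (nat_lit 256) (@Lb.t (@Lb.fp (nat_lit 9) t598))))))))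
noncomputable def l1414 : Lb := (@Lb.d (nat_lit 0) (nat_lit 26) (nat_lit 534) (@Lb.r r1362 (@Lb.r r2691 (@Lb.g g7 (@Lb.g g6 (@Lb.g g5 (@Lb.d (nat_lit 0) (nat_lit 0) (nat_lit 70) (@Lb.t (@Lb.fm (nat_lit 9) t599)))))))))
noncomputable def l1415 : Lb := (@Lb.d (nat_lit 4) (nat_lit 518) (nat_lit 0) (@Lb.g g5 (@Lb.d (nat_lit 549) (nat_lit 6) (nat_lit 17) (@Lb.t (@Lb.fm (nat_lit 3) t126)))))
noncomputable def l1416 : Lb := (@Lb.d (nat_lit 16) (nat_lit 256) (nat_lit 537) (@Lb.r r24 (@Lb.r r1435 (@Lb.r r2458 (@Lb.r r597 (@Lb.g g7 (@Lb.d (nat_lit 0) (nat_lit 16) (nat_lit 68) (@Lb.t (@Lb.fm (nat_lit 3) t386)))))))))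
noncomputable def l1417 : Lb := (@Lb.d (nat_lit 529) (nat_lit 1) (nat_lit 18) (@Lb.r r70 (@Lb.r r392 (@Lb.r r599 (@Lb.g g6 (@Lb.g g5 (@Lb.g g4 (@Lb.d (nat_lit 1) (nat_lit 17) (nat_lit 1) (@Lb.r r387 (@Lb.t (@Lb.fp (nat_lit 9) t296)))))))))))
noncomputable def l1418 : Lb := (@Lb.d (nat_lit 0) (nat_lit 514) (nat_lit 2) (@Lb.g g9 (@Lb.g g10 (@Lb.g g7 (@Lb.r r386 (@Lb.r r97 (@Lb.d (nat_lit 548) (nat_lit 0) (nat_lit 25) (@Lb.t (@Lb.fp (nat_lit 9) t126)))))))))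
noncomputable def l1419 : Lb := (@Lb.d (nat_lit 529) (nat_lit 257) (nat_lit 84) (@Lb.r r70 (@Lb.r r392 (@Lb.r r599 (@Lb.g g6 (@Lb.g g5 (@Lb.g g4 (@Lb.d (nat_lit 2) (nat_lit 17) (nat_lit 1) (@Lb.r r387 (@Lb.t (@Lb.fp (nat_lit 9) t296)))))))))))
noncomputable def l1420 : Lb := (@Lb.d (nat_lit 418) (nat_lit 0) (nat_lit 86) (@Lb.r r24 (@Lb.r r2458 (@Lb.r r2133 (@Lb.r r323 (@Lb.g g7 (@Lb.g g6 (@Lb.g g5 (@Lb.d (nat_lit 0) (nat_lit 17) (nat_lit 65) (@Lb.t (@Lb.fp (nat_lit 9) t311)))))))))))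
noncomputable def l1421 : Lb := (@Lb.d (nat_lit 17) (nat_lit 0) (nat_lit 537) (@Lb.r r24 (@Lb.r r1435 (@Lb.r r2458 (@Lb.r r597 (@Lb.g g7 (@Lb.d (nat_lit 0) (nat_lit 16) (nat_lit 68) (@Lb.t (@Lb.fm (nat_lit 3) t386)))))))))
noncomputable def l1422 : Lb := (@Lb.d (nat_lit 145) (nat_lit 512) (nat_lit 6) (@Lb.r r24 (@Lb.r r101 (@Lb.r r386 (@Lb.r r339 (@Lb.g g7 (@Lb.g g6 (@Lb.d (nat_lit 0) (nat_lit 0) (nat_lit 65) (@Lb.fp (nat_lit 3) t50)))))))))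
noncomputable def l1423 : Lb := (@Lb.r r1045 (@Lb.d (nat_lit 513) (nat_lit 256) (nat_lit 0) (@Lb.fp (nat_lit 1) t2)))
noncomputable def l1424 : Lb := (@Lb.d (nat_lit 0) (nat_lit 2) (nat_lit 138) (@Lb.g g9 (@Lb.g g10 (@Lb.g g11 (@Lb.r r679 (@Lb.r r1685 (@Lb.r r2404 (@Lb.r r1178 (@Lb.d (nat_lit 537) (nat_lit 137) (nat_lit 18) (@Lb.t (@Lb.fm (nat_lit 9) t66)))))))))))
noncomputable def l1425 : Lb := (@Lb.d (nat_lit 0) (nat_lit 260) (nat_lit 136) (@Lb.g g9 (@Lb.g g10 (@Lb.g g11 (@Lb.r r679 (@Lb.r r1685 (@Lb.r r2404 (@Lb.r r1178 (@Lb.d (nat_lit 538) (nat_lit 137) (nat_lit 18) (@Lb.t (@Lb.fm (nat_lit 9) t600)))))))))))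
noncomputable def l1426 : Lb := (@Lb.r r82 (@Lb.d (nat_lit 0) (nat_lit 640) (nat_lit 128) (@Lb.g g9 (@Lb.g g11 (@Lb.r r419 (@Lb.r r98 (@Lb.d (nat_lit 0) (nat_lit 69) (nat_lit 138) (@Lb.fm (nat_lit 3) t7))))))))
noncomputable def l1427 : Lb := (@Lb.d (nat_lit 10) (nat_lit 512) (nat_lit 128) (@Lb.g g8 (@Lb.g g10 (@Lb.g g11 (@Lb.r r387 (@Lb.r r402 (@Lb.r r149 (@Lb.r r168 (@Lb.d (nat_lit 533) (nat_lit 8) (nat_lit 16) (@Lb.t (@Lb.fm (nat_lit 9) t145)))))))))))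
noncomputable def l1428 : Lb := (@Lb.r r82 (@Lb.d (nat_lit 0) (nat_lit 546) (nat_lit 136) (@Lb.g g9 (@Lb.g g11 (@Lb.r r1617 (@Lb.r r98 (@Lb.d (nat_lit 0) (nat_lit 152) (nat_lit 596) (@Lb.fm (nat_lit 3) t267))))))))
noncomputable def l1429 : Lb := (@Lb.r r280 (@Lb.r r1621 (@Lb.r r2391 (@Lb.r r2178 (@Lb.r r1572 (@Lb.d (nat_lit 0) (nat_lit 266) (nat_lit 18) (@Lb.fp (nat_lit 1) t124)))))))
noncomputable def l1430 : Lb := (@Lb.d (nat_lit 138) (nat_lit 0) (nat_lit 0) (@Lb.g g8 (@Lb.r r1621 (@Lb.r r2391 (@Lb.r r2178 (@Lb.r r1572 (@Lb.d (nat_lit 394) (nat_lit 153) (nat_lit 658) (@Lb.t (@Lb.fm (nat_lit 3) t124)))))))))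
noncomputable def l1431 : Lb := (@Lb.r r323 (@Lb.d (nat_lit 130) (nat_lit 34) (nat_lit 18) (@Lb.g g8 (@Lb.g g9 (@Lb.g g10 (@Lb.r r595 (@Lb.r r341 (@Lb.r r100 (@Lb.d (nat_lit 73) (nat_lit 5) (nat_lit 418) (@Lb.t (@Lb.fp (nat_lit 9) t88)))))))))))
noncomputable def l1432 : Lb := (@Lb.r r82 (@Lb.d (nat_lit 1) (nat_lit 0) (nat_lit 128) (@Lb.g g4 (@Lb.g g9 (@Lb.g g11 (@Lb.r r2643 (@Lb.r r1698 (@Lb.r r1617 (@Lb.d (nat_lit 0) (nat_lit 66) (nat_lit 660) (@Lb.t (@Lb.fp (nat_lit 9) t5)))))))))))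
noncomputable def l1433 : Lb := (@Lb.d (nat_lit 0) (nat_lit 2) (nat_lit 128) (@Lb.g g9 (@Lb.g g10 (@Lb.g g11 (@Lb.r r599 (@Lb.r r677 (@Lb.r r340 (@Lb.r r170 (@Lb.d (nat_lit 26) (nat_lit 4) (nat_lit 1) (@Lb.t (@Lb.fp (nat_lit 9) t61)))))))))))
noncomputable def l1434 : Lb := (@Lb.d (nat_lit 32) (nat_lit 0) (nat_lit 130) (@Lb.g g10 (@Lb.g g11 (@Lb.r r545 (@Lb.r r299 (@Lb.r r100 (@Lb.r r410 (@Lb.d (nat_lit 138) (nat_lit 21) (nat_lit 170) (@Lb.fm (nat_lit 3) t167)))))))))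
noncomputable def l1435 : Lb := (@Lb.r r82 (@Lb.d (nat_lit 0) (nat_lit 256) (nat_lit 128) (@Lb.g g9 (@Lb.g g11 (@Lb.r r599 (@Lb.r r404 (@Lb.r r86 (@Lb.r r149 (@Lb.d (nat_lit 0) (nat_lit 4) (nat_lit 1) (@Lb.fp (nat_lit 3) t31))))))))))
noncomputable def l1436 : Lb := (@Lb.r r323 (@Lb.d (nat_lit 0) (nat_lit 520) (nat_lit 2) (@Lb.g g9 (@Lb.g g10 (@Lb.r r2386 (@Lb.r r387 (@Lb.r r1681 (@Lb.d (nat_lit 0) (nat_lit 10) (nat_lit 673) (@Lb.fm (nat_lit 3) t144)))))))))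
noncomputable def l1437 : Lb := (@Lb.r r82 (@Lb.d (nat_lit 0) (nat_lit 512) (nat_lit 128) (@Lb.g g9 (@Lb.g g11 (@Lb.r r599 (@Lb.r r404 (@Lb.r r86 (@Lb.r r149 (@Lb.d (nat_lit 2) (nat_lit 4) (nat_lit 1) (@Lb.fp (nat_lit 3) t601))))))))))
noncomputable def l1438 : Lb := (@Lb.d (nat_lit 0) (nat_lit 32) (nat_lit 73) (@Lb.g g9 (@Lb.g g10 (@Lb.g g11 (@Lb.r r2387 (@Lb.r r386 (@Lb.r r1105 (@Lb.d (nat_lit 0) (nat_lit 34) (nat_lit 88) (@Lb.t (@Lb.fp (nat_lit 9) t144))))))))))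
noncomputable def l1439 : Lb := (@Lb.d (nat_lit 0) (nat_lit 0) (nat_lit 9) (@Lb.g g10 (@Lb.g g7 (@Lb.r r386 (@Lb.d (nat_lit 0) (nat_lit 5) (nat_lit 138) (@Lb.fm (nat_lit 3) t45))))))
noncomputable def l1440 : Lb := (@Lb.d (nat_lit 0) (nat_lit 289) (nat_lit 130) (@Lb.g g9 (@Lb.g g10 (@Lb.g g11 (@Lb.r r1699 (@Lb.r r386 (@Lb.r r1633 (@Lb.d (nat_lit 0) (nat_lit 84) (nat_lit 596) (@Lb.t (@Lb.fp (nat_lit 9) t144))))))))))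
noncomputable def l1441 : Lb := (@Lb.d (nat_lit 0) (nat_lit 517) (nat_lit 128) (@Lb.g g9 (@Lb.g g10 (@Lb.g g11 (@Lb.r r2707 (@Lb.r r2386 (@Lb.r r1569 (@Lb.d (nat_lit 0) (nat_lit 104) (nat_lit 642) (@Lb.t (@Lb.fm (nat_lit 9) t1))))))))))
noncomputable def l1442 : Lb := (@Lb.d (nat_lit 0) (nat_lit 260) (nat_lit 1) (@Lb.g g9 (@Lb.g g10 (@Lb.r r1543 (@Lb.r r1685 (@Lb.r r2404 (@Lb.r r1178 (@Lb.d (nat_lit 537) (nat_lit 2) (nat_lit 0) (@Lb.fm (nat_lit 3) t224)))))))))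
noncomputable def l1443 : Lb := (@Lb.r r21 (@Lb.d (nat_lit 65) (nat_lit 0) (nat_lit 130) (@Lb.g g8 (@Lb.g g10 (@Lb.g g11 (@Lb.r r2407 (@Lb.r r2393 (@Lb.r r1190 (@Lb.r r2132 (@Lb.d (nat_lit 533) (nat_lit 6) (nat_lit 33) (@Lb.t (@Lb.fp (nat_lit 9) t254))))))))))))
noncomputable def l1444 : Lb := (@Lb.r r20 (@Lb.r r275 (@Lb.d (nat_lit 8) (nat_lit 17) (nat_lit 2) (@Lb.g g5 (@Lb.g g10 (@Lb.r r1686 (@Lb.r r2404 (@Lb.r r1563 (@Lb.d (nat_lit 585) (nat_lit 136) (nat_lit 516) (@Lb.fp (nat_lit 3) t254))))))))))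
noncomputable def l1445 : Lb := (@Lb.d (nat_lit 0) (nat_lit 0) (nat_lit 128) (@Lb.g g11 (@Lb.r r2626 (@Lb.d (nat_lit 0) (nat_lit 0) (nat_lit 256) (@Lb.t (@Lb.fp (nat_lit 3) t2))))))
noncomputable def l1446 : Lb := (@Lb.d (nat_lit 2) (nat_lit 2) (nat_lit 2) (@Lb.g g8 (@Lb.g g9 (@Lb.g g10 (@Lb.r r1555 (@Lb.r r386 (@Lb.r r97 (@Lb.r r24 (@Lb.d (nat_lit 10) (nat_lit 154) (nat_lit 612) (@Lb.t (@Lb.fm (nat_lit 9) t309)))))))))))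
noncomputable def l1447 : Lb := (@Lb.r r275 (@Lb.d (nat_lit 9) (nat_lit 272) (nat_lit 2) (@Lb.g g8 (@Lb.g g5 (@Lb.g g10 (@Lb.r r1690 (@Lb.r r1688 (@Lb.r r1563 (@Lb.d (nat_lit 585) (nat_lit 129) (nat_lit 586) (@Lb.t (@Lb.fm (nat_lit 9) t144)))))))))))
noncomputable def l1448 : Lb := (@Lb.d (nat_lit 6) (nat_lit 129) (nat_lit 512) (@Lb.r r1313 (@Lb.r r2327 (@Lb.r r584 (@Lb.r r326 (@Lb.g g7 (@Lb.g g6 (@Lb.g g5 (@Lb.d (nat_lit 0) (nat_lit 1) (nat_lit 65) (@Lb.t (@Lb.fp (nat_lit 9) t125)))))))))))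
noncomputable def l1449 : Lb := (@Lb.d (nat_lit 2) (nat_lit 33) (nat_lit 66) (@Lb.g g8 (@Lb.g g9 (@Lb.g g10 (@Lb.g g11 (@Lb.r r1706 (@Lb.r r1704 (@Lb.r r1579 (@Lb.r r1561 (@Lb.d (nat_lit 581) (nat_lit 32) (nat_lit 586) (@Lb.fm (nat_lit 9) t144)))))))))))
noncomputable def l1450 : Lb := (@Lb.r r20 (@Lb.r r275 (@Lb.d (nat_lit 0) (nat_lit 272) (nat_lit 2) (@Lb.g g5 (@Lb.g g10 (@Lb.r r1686 (@Lb.r r2404 (@Lb.r r1563 (@Lb.d (nat_lit 585) (nat_lit 136) (nat_lit 642) (@Lb.fp (nat_lit 3) t254))))))))))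
noncomputable def l1451 : Lb := (@Lb.d (nat_lit 0) (nat_lit 516) (nat_lit 136) (@Lb.g g9 (@Lb.g g10 (@Lb.g g11 (@Lb.r r679 (@Lb.r r1685 (@Lb.r r2404 (@Lb.r r1178 (@Lb.d (nat_lit 537) (nat_lit 137) (nat_lit 18) (@Lb.t (@Lb.fm (nat_lit 9) t602)))))))))))
noncomputable def l1452 : Lb := (@Lb.d (nat_lit 0) (nat_lit 677) (nat_lit 0) (@Lb.g g5 (@Lb.d (nat_lit 0) (nat_lit 80) (nat_lit 1) (@Lb.t (@Lb.fm (nat_lit 3) t603)))))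
noncomputable def l1453 : Lb := (@Lb.r r322 (@Lb.g g9 (@Lb.g g11 (@Lb.r r2727 (@Lb.r r1304 (@Lb.r r2149 (@Lb.r r146 (@Lb.d (nat_lit 545) (nat_lit 10) (nat_lit 33) (@Lb.fm (nat_lit 3) t228)))))))))
noncomputable def l1454 : Lb := (@Lb.d (nat_lit 8) (nat_lit 34) (nat_lit 0) (@Lb.g g5 (@Lb.r r680 (@Lb.r r2667 (@Lb.r r2178 (@Lb.r r2713 (@Lb.d (nat_lit 134) (nat_lit 80) (nat_lit 617) (@Lb.t (@Lb.fp (nat_lit 3) t307)))))))))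
noncomputable def l1455 : Lb := (@Lb.d (nat_lit 8) (nat_lit 290) (nat_lit 0) (@Lb.g g5 (@Lb.r r680 (@Lb.r r2667 (@Lb.r r2178 (@Lb.r r2713 (@Lb.d (nat_lit 133) (nat_lit 80) (nat_lit 617) (@Lb.t (@Lb.fp (nat_lit 3) t229)))))))))
noncomputable def l1456 : Lb := (@Lb.d (nat_lit 0) (nat_lit 421) (nat_lit 64) (@Lb.g g5 (@Lb.g g10 (@Lb.g g11 (@Lb.r r531 (@Lb.r r386 (@Lb.d (nat_lit 0) (nat_lit 98) (nat_lit 73) (@Lb.t (@Lb.fp (nat_lit 9) t308)))))))))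
noncomputable def l1457 : Lb := (@Lb.g g10 (@Lb.r r594 (@Lb.r r2449 (@Lb.d (nat_lit 0) (nat_lit 292) (nat_lit 85) (@Lb.t (@Lb.fp (nat_lit 3) t604))))))
noncomputable def l1458 : Lb := (@Lb.d (nat_lit 129) (nat_lit 514) (nat_lit 130) (@Lb.g g8 (@Lb.g g9 (@Lb.g g10 (@Lb.g g11 (@Lb.r r1706 (@Lb.r r1411 (@Lb.r r665 (@Lb.r r1156 (@Lb.d (nat_lit 617) (nat_lit 164) (nat_lit 96) (@Lb.fm (nat_lit 9) t605)))))))))))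
noncomputable def l1459 : Lb := (@Lb.d (nat_lit 128) (nat_lit 4) (nat_lit 74) (@Lb.g g8 (@Lb.g g9 (@Lb.g g10 (@Lb.g g11 (@Lb.r r683 (@Lb.r r2410 (@Lb.r r537 (@Lb.r r516 (@Lb.d (nat_lit 137) (nat_lit 89) (nat_lit 21) (@Lb.fm (nat_lit 9) t606)))))))))))
noncomputable def l1460 : Lb := (@Lb.d (nat_lit 2) (nat_lit 4) (nat_lit 128) (@Lb.g g8 (@Lb.g g9 (@Lb.g g10 (@Lb.g g11 (@Lb.r r2666 (@Lb.r r612 (@Lb.r r615 (@Lb.r r2657 (@Lb.r r2084 (@Lb.d (nat_lit 2) (nat_lit 90) (nat_lit 425) (@Lb.fp (nat_lit 9) t607))))))))))))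
noncomputable def l1461 : Lb := (@Lb.d (nat_lit 530) (nat_lit 1) (nat_lit 165) (@Lb.r r81 (@Lb.r r102 (@Lb.r r2407 (@Lb.r r337 (@Lb.g g7 (@Lb.g g6 (@Lb.g g5 (@Lb.g g8 (@Lb.d (nat_lit 330) (nat_lit 0) (nat_lit 65) (@Lb.fm (nat_lit 9) t608)))))))))))
noncomputable def l1462 : Lb := (@Lb.d (nat_lit 0) (nat_lit 648) (nat_lit 2) (@Lb.r r275 (@Lb.g g9 (@Lb.d (nat_lit 0) (nat_lit 66) (nat_lit 0) (@Lb.r r291 (@Lb.t (@Lb.fp (nat_lit 3) t235)))))))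
noncomputable def l1463 : Lb := (@Lb.d (nat_lit 390) (nat_lit 66) (nat_lit 389) (@Lb.r r1563 (@Lb.r r1688 (@Lb.r r1690 (@Lb.g g6 (@Lb.g g9 (@Lb.g g4 (@Lb.d (nat_lit 6) (nat_lit 32) (nat_lit 1) (@Lb.r r291 (@Lb.t (@Lb.fp (nat_lit 9) t238)))))))))))
noncomputable def l1464 : Lb := (@Lb.r r82 (@Lb.r r275 (@Lb.d (nat_lit 4) (nat_lit 329) (nat_lit 0) (@Lb.g g9 (@Lb.r r291 (@Lb.r r98 (@Lb.d (nat_lit 8) (nat_lit 133) (nat_lit 0) (@Lb.t (@Lb.fp (nat_lit 3) t609)))))))))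
noncomputable def l1465 : Lb := (@Lb.r r323 (@Lb.d (nat_lit 166) (nat_lit 585) (nat_lit 1) (@Lb.g g8 (@Lb.g g5 (@Lb.g g10 (@Lb.r r330 (@Lb.r r2455 (@Lb.r r1636 (@Lb.d (nat_lit 410) (nat_lit 0) (nat_lit 88) (@Lb.t (@Lb.fp (nat_lit 9) t610)))))))))))
noncomputable def l1466 : Lb := (@Lb.d (nat_lit 582) (nat_lit 38) (nat_lit 86) (@Lb.r r410 (@Lb.r r148 (@Lb.r r2389 (@Lb.r r1707 (@Lb.g g7 (@Lb.g g6 (@Lb.g g5 (@Lb.d (nat_lit 16) (nat_lit 24) (nat_lit 10) (@Lb.t (@Lb.fp (nat_lit 9) t119)))))))))))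
noncomputable def l1467 : Lb := (@Lb.r r82 (@Lb.r r275 (@Lb.d (nat_lit 2) (nat_lit 0) (nat_lit 0) (@Lb.g g8 (@Lb.g g9 (@Lb.r r2315 (@Lb.r r2122 (@Lb.r r84 (@Lb.r r2201 (@Lb.d (nat_lit 516) (nat_lit 5) (nat_lit 0) (@Lb.fm (nat_lit 3) t611)))))))))))
noncomputable def l1468 : Lb := (@Lb.d (nat_lit 264) (nat_lit 262) (nat_lit 18) (@Lb.r r154 (@Lb.r r660 (@Lb.r r1621 (@Lb.r r2727 (@Lb.g g7 (@Lb.g g6 (@Lb.g g5 (@Lb.d (nat_lit 0) (nat_lit 5) (nat_lit 65) (@Lb.t (@Lb.fp (nat_lit 9) t587)))))))))))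
noncomputable def l1469 : Lb := (@Lb.d (nat_lit 529) (nat_lit 5) (nat_lit 146) (@Lb.r r1158 (@Lb.r r2132 (@Lb.r r2345 (@Lb.g g11 (@Lb.g g4 (@Lb.d (nat_lit 2) (nat_lit 32) (nat_lit 388) (@Lb.fp (nat_lit 3) t612))))))))
noncomputable def l1470 : Lb := (@Lb.d (nat_lit 2) (nat_lit 577) (nat_lit 0) (@Lb.g g8 (@Lb.g g5 (@Lb.g g11 (@Lb.r r24 (@Lb.d (nat_lit 10) (nat_lit 132) (nat_lit 1) (@Lb.t (@Lb.fm (nat_lit 9) t45))))))))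
noncomputable def l1471 : Lb := (@Lb.d (nat_lit 4) (nat_lit 518) (nat_lit 0) (@Lb.g g5 (@Lb.g g11 (@Lb.r r24 (@Lb.d (nat_lit 529) (nat_lit 1) (nat_lit 18) (@Lb.fm (nat_lit 3) t40))))))
noncomputable def l1472 : Lb := (@Lb.d (nat_lit 0) (nat_lit 0) (nat_lit 66) (@Lb.g g9 (@Lb.g g10 (@Lb.g g7 (@Lb.r r386 (@Lb.d (nat_lit 0) (nat_lit 5) (nat_lit 138) (@Lb.t (@Lb.fm (nat_lit 9) t45))))))))
noncomputable def l1473 : Lb := (@Lb.r r275 (@Lb.d (nat_lit 0) (nat_lit 422) (nat_lit 0) (@Lb.g g5 (@Lb.r r291 (@Lb.d (nat_lit 0) (nat_lit 81) (nat_lit 70) (@Lb.t (@Lb.fm (nat_lit 3) t257)))))))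
noncomputable def l1474 : Lb := (@Lb.g g10 (@Lb.r r2451 (@Lb.r r402 (@Lb.r r2641 (@Lb.d (nat_lit 0) (nat_lit 280) (nat_lit 256) (@Lb.t (@Lb.fm (nat_lit 3) t613)))))))
noncomputable def l1475 : Lb := (@Lb.d (nat_lit 0) (nat_lit 281) (nat_lit 74) (@Lb.g g9 (@Lb.g g10 (@Lb.g g11 (@Lb.r r427 (@Lb.r r1685 (@Lb.r r1432 (@Lb.r r1114 (@Lb.d (nat_lit 514) (nat_lit 138) (nat_lit 17) (@Lb.t (@Lb.fp (nat_lit 9) t614)))))))))))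
noncomputable def l1476 : Lb := (@Lb.d (nat_lit 0) (nat_lit 516) (nat_lit 1) (@Lb.g g9 (@Lb.g g10 (@Lb.g g11 (@Lb.r r679 (@Lb.r r1685 (@Lb.r r2404 (@Lb.r r1178 (@Lb.d (nat_lit 528) (nat_lit 138) (nat_lit 18) (@Lb.t (@Lb.fm (nat_lit 9) t615)))))))))))
noncomputable def l1477 : Lb := (@Lb.d (nat_lit 0) (nat_lit 2) (nat_lit 8) (@Lb.g g5 (@Lb.g g10 (@Lb.r r1315 (@Lb.r r401 (@Lb.r r1106 (@Lb.d (nat_lit 0) (nat_lit 18) (nat_lit 169) (@Lb.fp (nat_lit 3) t616))))))))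
noncomputable def l1478 : Lb := (@Lb.d (nat_lit 0) (nat_lit 65) (nat_lit 0) (@Lb.g g5 (@Lb.g g11 (@Lb.d (nat_lit 0) (nat_lit 132) (nat_lit 136) (@Lb.fp (nat_lit 3) t45)))))
noncomputable def l1479 : Lb := (@Lb.d (nat_lit 0) (nat_lit 5) (nat_lit 18) (@Lb.r r2129 (@Lb.g g11 (@Lb.g g6 (@Lb.g g5 (@Lb.t (@Lb.fm (nat_lit 9) t44)))))))
noncomputable def l1480 : Lb := (@Lb.r r82 (@Lb.d (nat_lit 2) (nat_lit 512) (nat_lit 128) (@Lb.g g8 (@Lb.g g9 (@Lb.g g11 (@Lb.r r291 (@Lb.r r1610 (@Lb.r r401 (@Lb.d (nat_lit 154) (nat_lit 68) (nat_lit 326) (@Lb.t (@Lb.fm (nat_lit 9) t150)))))))))))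
noncomputable def l1481 : Lb := (@Lb.d (nat_lit 9) (nat_lit 0) (nat_lit 0) (@Lb.g g8 (@Lb.g g9 (@Lb.r r134 (@Lb.r r328 (@Lb.r r423 (@Lb.r r401 (@Lb.d (nat_lit 0) (nat_lit 166) (nat_lit 137) (@Lb.fm (nat_lit 3) t71)))))))))
noncomputable def l1482 : Lb := (@Lb.d (nat_lit 0) (nat_lit 0) (nat_lit 69) (@Lb.g g10 (@Lb.g g11 (@Lb.r r643 (@Lb.r r642 (@Lb.fm (nat_lit 3) t2))))))
noncomputable def l1483 : Lb := (@Lb.d (nat_lit 0) (nat_lit 256) (nat_lit 132) (@Lb.g g10 (@Lb.g g11 (@Lb.r r2691 (@Lb.r r578 (@Lb.d (nat_lit 0) (nat_lit 0) (nat_lit 402) (@Lb.fp (nat_lit 3) t2)))))))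
noncomputable def l1484 : Lb := (@Lb.r r21 (@Lb.d (nat_lit 137) (nat_lit 0) (nat_lit 66) (@Lb.g g8 (@Lb.g g10 (@Lb.g g11 (@Lb.r r1365 (@Lb.r r615 (@Lb.r r1354 (@Lb.r r1352 (@Lb.d (nat_lit 136) (nat_lit 74) (nat_lit 404) (@Lb.t (@Lb.fm (nat_lit 9) t144))))))))))))
noncomputable def l1485 : Lb := (@Lb.r r21 (@Lb.d (nat_lit 129) (nat_lit 0) (nat_lit 66) (@Lb.g g8 (@Lb.g g10 (@Lb.g g11 (@Lb.r r1691 (@Lb.r r409 (@Lb.r r90 (@Lb.r r88 (@Lb.d (nat_lit 260) (nat_lit 8) (nat_lit 18) (@Lb.t (@Lb.fm (nat_lit 9) t144))))))))))))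
noncomputable def l1486 : Lb := (@Lb.r r21 (@Lb.d (nat_lit 128) (nat_lit 256) (nat_lit 66) (@Lb.g g8 (@Lb.g g10 (@Lb.g g11 (@Lb.r r1691 (@Lb.r r409 (@Lb.r r90 (@Lb.r r88 (@Lb.d (nat_lit 260) (nat_lit 8) (nat_lit 18) (@Lb.t (@Lb.fm (nat_lit 9) t144))))))))))))
noncomputable def l1487 : Lb := (@Lb.d (nat_lit 9) (nat_lit 288) (nat_lit 66) (@Lb.g g8 (@Lb.g g9 (@Lb.g g10 (@Lb.g g11 (@Lb.r r1706 (@Lb.r r1704 (@Lb.r r1579 (@Lb.r r281 (@Lb.d (nat_lit 260) (nat_lit 32) (nat_lit 330) (@Lb.fm (nat_lit 9) t144)))))))))))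
noncomputable def l1488 : Lb := (@Lb.d (nat_lit 2) (nat_lit 528) (nat_lit 2) (@Lb.g g8 (@Lb.g g9 (@Lb.g g10 (@Lb.g g11 (@Lb.r r1706 (@Lb.r r1704 (@Lb.r r1579 (@Lb.r r549 (@Lb.d (nat_lit 645) (nat_lit 146) (nat_lit 74) (@Lb.fp (nat_lit 9) t144)))))))))))
noncomputable def l1489 : Lb := (@Lb.g g10 (@Lb.g g7 (@Lb.r r2691 (@Lb.r r1378 (@Lb.r r101 (@Lb.r r24 (@Lb.d (nat_lit 256) (nat_lit 0) (nat_lit 512) (@Lb.fm (nat_lit 3) t145))))))))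
noncomputable def l1490 : Lb := (@Lb.d (nat_lit 138) (nat_lit 512) (nat_lit 0) (@Lb.g g8 (@Lb.r r1621 (@Lb.r r2391 (@Lb.r r2178 (@Lb.r r1572 (@Lb.d (nat_lit 394) (nat_lit 146) (nat_lit 656) (@Lb.t (@Lb.fm (nat_lit 3) t124)))))))))
noncomputable def l1491 : Lb := (@Lb.d (nat_lit 0) (nat_lit 2) (nat_lit 0) (@Lb.g g9 (@Lb.r r2339 (@Lb.r r2146 (@Lb.r r97 (@Lb.d (nat_lit 0) (nat_lit 5) (nat_lit 81) (@Lb.t (@Lb.fm (nat_lit 3) t617))))))))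
noncomputable def l1492 : Lb := (@Lb.d (nat_lit 0) (nat_lit 0) (nat_lit 576) (@Lb.r r1297 (@Lb.g g7 (@Lb.g g5 (@Lb.fm (nat_lit 3) t618)))))
noncomputable def l1493 : Lb := (@Lb.d (nat_lit 0) (nat_lit 0) (nat_lit 136) (@Lb.g g11 (@Lb.r r1617 (@Lb.d (nat_lit 0) (nat_lit 0) (nat_lit 346) (@Lb.t (@Lb.fp (nat_lit 3) t619))))))
noncomputable def l1494 : Lb := (@Lb.d (nat_lit 8) (nat_lit 34) (nat_lit 0) (@Lb.g g9 (@Lb.r r536 (@Lb.r r2715 (@Lb.r r2178 (@Lb.r r2469 (@Lb.d (nat_lit 64) (nat_lit 98) (nat_lit 681) (@Lb.t (@Lb.fp (nat_lit 3) t620)))))))))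
noncomputable def l1495 : Lb := (@Lb.d (nat_lit 0) (nat_lit 546) (nat_lit 64) (@Lb.g g9 (@Lb.g g11 (@Lb.r r2130 (@Lb.r r2705 (@Lb.r r531 (@Lb.d (nat_lit 0) (nat_lit 86) (nat_lit 352) (@Lb.fp (nat_lit 3) t621))))))))
noncomputable def l1496 : Lb := (@Lb.d (nat_lit 34) (nat_lit 514) (nat_lit 0) (@Lb.g g8 (@Lb.g g9 (@Lb.r r1186 (@Lb.r r1065 (@Lb.r r360 (@Lb.r r1543 (@Lb.d (nat_lit 0) (nat_lit 149) (nat_lit 530) (@Lb.fm (nat_lit 3) t242)))))))))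
noncomputable def l1497 : Lb := (@Lb.r r323 (@Lb.d (nat_lit 130) (nat_lit 34) (nat_lit 18) (@Lb.g g8 (@Lb.g g9 (@Lb.g g10 (@Lb.r r595 (@Lb.r r341 (@Lb.r r100 (@Lb.d (nat_lit 73) (nat_lit 10) (nat_lit 362) (@Lb.t (@Lb.fp (nat_lit 9) t88)))))))))))
noncomputable def l1498 : Lb := (@Lb.d (nat_lit 294) (nat_lit 257) (nat_lit 162) (@Lb.r r1178 (@Lb.r r1684 (@Lb.r r2393 (@Lb.g g11 (@Lb.g g6 (@Lb.g g5 (@Lb.d (nat_lit 128) (nat_lit 1) (nat_lit 645) (@Lb.t (@Lb.fp (nat_lit 9) t622))))))))))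
noncomputable def l1499 : Lb := (@Lb.d (nat_lit 2) (nat_lit 258) (nat_lit 130) (@Lb.g g8 (@Lb.g g9 (@Lb.g g10 (@Lb.g g11 (@Lb.r r582 (@Lb.r r388 (@Lb.r r1323 (@Lb.r r1313 (@Lb.d (nat_lit 2) (nat_lit 102) (nat_lit 577) (@Lb.fm (nat_lit 9) t119)))))))))))
noncomputable def l1500 : Lb := (@Lb.d (nat_lit 136) (nat_lit 258) (nat_lit 128) (@Lb.g g9 (@Lb.g g11 (@Lb.r r24 (@Lb.r r1365 (@Lb.r r291 (@Lb.r r2178 (@Lb.d (nat_lit 329) (nat_lit 169) (nat_lit 104) (@Lb.fm (nat_lit 3) t32)))))))))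
noncomputable def l1501 : Lb := (@Lb.d (nat_lit 2) (nat_lit 2) (nat_lit 130) (@Lb.g g8 (@Lb.g g9 (@Lb.g g10 (@Lb.g g11 (@Lb.r r427 (@Lb.r r297 (@Lb.r r104 (@Lb.r r70 (@Lb.r r132 (@Lb.d (nat_lit 9) (nat_lit 154) (nat_lit 68) (@Lb.fp (nat_lit 9) t119))))))))))))
noncomputable def l1502 : Lb := (@Lb.d (nat_lit 132) (nat_lit 528) (nat_lit 66) (@Lb.g g8 (@Lb.g g9 (@Lb.g g10 (@Lb.g g11 (@Lb.r r614 (@Lb.r r404 (@Lb.r r1307 (@Lb.r r2337 (@Lb.d (nat_lit 69) (nat_lit 25) (nat_lit 402) (@Lb.fm (nat_lit 9) t5)))))))))))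
noncomputable def l1503 : Lb := (@Lb.d (nat_lit 128) (nat_lit 514) (nat_lit 0) (@Lb.g g9 (@Lb.g g11 (@Lb.r r1701 (@Lb.r r2388 (@Lb.r r2347 (@Lb.r r2178 (@Lb.d (nat_lit 401) (nat_lit 34) (nat_lit 674) (@Lb.fm (nat_lit 3) t623)))))))))
noncomputable def l1504 : Lb := (@Lb.d (nat_lit 0) (nat_lit 2) (nat_lit 66) (@Lb.g g9 (@Lb.g g10 (@Lb.g g7 (@Lb.r r386 (@Lb.r r97 (@Lb.d (nat_lit 0) (nat_lit 9) (nat_lit 9) (@Lb.t (@Lb.fp (nat_lit 9) t87)))))))))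
noncomputable def l1505 : Lb := (@Lb.d (nat_lit 0) (nat_lit 160) (nat_lit 64) (@Lb.g g5 (@Lb.g g11 (@Lb.r r531 (@Lb.d (nat_lit 0) (nat_lit 98) (nat_lit 133) (@Lb.fm (nat_lit 3) t624))))))
noncomputable def l1506 : Lb := (@Lb.d (nat_lit 0) (nat_lit 512) (nat_lit 2) (@Lb.g g10 (@Lb.r r2435 (@Lb.r r386 (@Lb.r r2641 (@Lb.d (nat_lit 0) (nat_lit 0) (nat_lit 613) (@Lb.t (@Lb.fm (nat_lit 3) t625))))))))
noncomputable def l1507 : Lb := (@Lb.d (nat_lit 0) (nat_lit 266) (nat_lit 10) (@Lb.g g9 (@Lb.g g10 (@Lb.r r1299 (@Lb.r r609 (@Lb.r r1106 (@Lb.d (nat_lit 0) (nat_lit 18) (nat_lit 274) (@Lb.fp (nat_lit 3) t82))))))))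
noncomputable def l1508 : Lb := (@Lb.d (nat_lit 10) (nat_lit 256) (nat_lit 136) (@Lb.g g8 (@Lb.g g11 (@Lb.r r402 (@Lb.r r149 (@Lb.r r168 (@Lb.d (nat_lit 534) (nat_lit 8) (nat_lit 144) (@Lb.fm (nat_lit 3) t145))))))))
noncomputable def l1509 : Lb := (@Lb.d (nat_lit 10) (nat_lit 0) (nat_lit 130) (@Lb.g g8 (@Lb.g g10 (@Lb.g g11 (@Lb.r r419 (@Lb.r r386 (@Lb.r r149 (@Lb.r r168 (@Lb.d (nat_lit 581) (nat_lit 8) (nat_lit 25) (@Lb.t (@Lb.fm (nat_lit 9) t263)))))))))))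
noncomputable def l1510 : Lb := (@Lb.d (nat_lit 64) (nat_lit 2) (nat_lit 330) (@Lb.g g9 (@Lb.g g10 (@Lb.g g7 (@Lb.r r1685 (@Lb.r r2404 (@Lb.r r1178 (@Lb.d (nat_lit 537) (nat_lit 2) (nat_lit 81) (@Lb.t (@Lb.fm (nat_lit 9) t222))))))))))
noncomputable def l1511 : Lb := (@Lb.d (nat_lit 32) (nat_lit 514) (nat_lit 2) (@Lb.g g9 (@Lb.g g10 (@Lb.r r1543 (@Lb.r r149 (@Lb.r r100 (@Lb.r r410 (@Lb.d (nat_lit 146) (nat_lit 144) (nat_lit 138) (@Lb.fm (nat_lit 3) t222)))))))))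
noncomputable def l1512 : Lb := (@Lb.d (nat_lit 32) (nat_lit 2) (nat_lit 2) (@Lb.g g9 (@Lb.g g10 (@Lb.r r1543 (@Lb.r r149 (@Lb.r r100 (@Lb.r r410 (@Lb.d (nat_lit 146) (nat_lit 154) (nat_lit 137) (@Lb.fm (nat_lit 3) t626)))))))))
noncomputable def l1513 : Lb := (@Lb.d (nat_lit 0) (nat_lit 256) (nat_lit 136) (@Lb.g g11 (@Lb.r r402 (@Lb.r r104 (@Lb.r r2153 (@Lb.r r2084 (@Lb.d (nat_lit 513) (nat_lit 0) (nat_lit 128) (@Lb.t (@Lb.fm (nat_lit 3) t627)))))))))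
noncomputable def l1514 : Lb := (@Lb.d (nat_lit 261) (nat_lit 260) (nat_lit 32) (@Lb.r r1178 (@Lb.r r1684 (@Lb.r r2393 (@Lb.r r615 (@Lb.g g7 (@Lb.g g6 (@Lb.g g5 (@Lb.d (nat_lit 0) (nat_lit 1) (nat_lit 133) (@Lb.t (@Lb.fp (nat_lit 9) t245)))))))))))
noncomputable def l1515 : Lb := (@Lb.d (nat_lit 402) (nat_lit 336) (nat_lit 133) (@Lb.r r275 (@Lb.r r601 (@Lb.r r24 (@Lb.g g7 (@Lb.g g10 (@Lb.g g5 (@Lb.d (nat_lit 68) (nat_lit 1) (nat_lit 150) (@Lb.t (@Lb.fp (nat_lit 9) t247))))))))))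
noncomputable def l1516 : Lb := (@Lb.d (nat_lit 426) (nat_lit 360) (nat_lit 73) (@Lb.r r665 (@Lb.r r603 (@Lb.r r536 (@Lb.g g10 (@Lb.g g5 (@Lb.d (nat_lit 4) (nat_lit 17) (nat_lit 21) (@Lb.r r387 (@Lb.fp (nat_lit 3) t628)))))))))
noncomputable def l1517 : Lb := (@Lb.d (nat_lit 16) (nat_lit 8) (nat_lit 129) (@Lb.g g9 (@Lb.g g6 (@Lb.g g11 (@Lb.r r2727 (@Lb.r r2660 (@Lb.r r2581 (@Lb.d (nat_lit 134) (nat_lit 144) (nat_lit 390) (@Lb.t (@Lb.fm (nat_lit 9) t629))))))))))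
noncomputable def l1518 : Lb := (@Lb.d (nat_lit 0) (nat_lit 281) (nat_lit 5) (@Lb.g g9 (@Lb.g g10 (@Lb.g g11 (@Lb.r r615 (@Lb.r r1685 (@Lb.r r2468 (@Lb.r r2150 (@Lb.d (nat_lit 261) (nat_lit 74) (nat_lit 17) (@Lb.t (@Lb.fp (nat_lit 9) t602)))))))))))
noncomputable def l1519 : Lb := (@Lb.d (nat_lit 0) (nat_lit 256) (nat_lit 130) (@Lb.g g9 (@Lb.g g10 (@Lb.g g11 (@Lb.r r419 (@Lb.r r386 (@Lb.d (nat_lit 0) (nat_lit 105) (nat_lit 152) (@Lb.t (@Lb.fp (nat_lit 9) t305)))))))))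
noncomputable def l1520 : Lb := (@Lb.d (nat_lit 406) (nat_lit 280) (nat_lit 340) (@Lb.r r1371 (@Lb.r r1304 (@Lb.r r597 (@Lb.g g7 (@Lb.g g10 (@Lb.d (nat_lit 64) (nat_lit 16) (nat_lit 81) (@Lb.fm (nat_lit 3) t114))))))))
noncomputable def l1521 : Lb := (@Lb.d (nat_lit 145) (nat_lit 80) (nat_lit 410) (@Lb.r r275 (@Lb.r r1689 (@Lb.r r1112 (@Lb.g g7 (@Lb.g g10 (@Lb.g g5 (@Lb.d (nat_lit 68) (nat_lit 0) (nat_lit 81) (@Lb.t (@Lb.fp (nat_lit 9) t114))))))))))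
noncomputable def l1522 : Lb := (@Lb.r r70 (@Lb.r r263 (@Lb.g g8 (@Lb.g g5 (@Lb.r r1383 (@Lb.r r2200 (@Lb.r r74 (@Lb.d (nat_lit 280) (nat_lit 650) (nat_lit 18) (@Lb.fm (nat_lit 3) t630)))))))))
noncomputable def l1523 : Lb := (@Lb.d (nat_lit 145) (nat_lit 597) (nat_lit 408) (@Lb.r r275 (@Lb.r r1689 (@Lb.r r1112 (@Lb.g g7 (@Lb.g g10 (@Lb.g g5 (@Lb.d (nat_lit 68) (nat_lit 0) (nat_lit 81) (@Lb.t (@Lb.fp (nat_lit 9) t245))))))))))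
noncomputable def l1524 : Lb := (@Lb.d (nat_lit 522) (nat_lit 133) (nat_lit 34) (@Lb.r r1114 (@Lb.r r1620 (@Lb.r r2393 (@Lb.r r615 (@Lb.g g7 (@Lb.g g6 (@Lb.g g5 (@Lb.d (nat_lit 0) (nat_lit 38) (nat_lit 10) (@Lb.t (@Lb.fm (nat_lit 9) t245)))))))))))
noncomputable def l1525 : Lb := (@Lb.d (nat_lit 404) (nat_lit 40) (nat_lit 585) (@Lb.r r2713 (@Lb.r r407 (@Lb.r r676 (@Lb.r r614 (@Lb.g g7 (@Lb.g g6 (@Lb.g g5 (@Lb.d (nat_lit 4) (nat_lit 17) (nat_lit 129) (@Lb.t (@Lb.fp (nat_lit 9) t631)))))))))))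
noncomputable def l1526 : Lb := (@Lb.d (nat_lit 145) (nat_lit 401) (nat_lit 613) (@Lb.r r1445 (@Lb.r r1627 (@Lb.r r1560 (@Lb.g g10 (@Lb.g g5 (@Lb.d (nat_lit 4) (nat_lit 0) (nat_lit 22) (@Lb.fm (nat_lit 3) t247))))))))
noncomputable def l1527 : Lb := (@Lb.d (nat_lit 6) (nat_lit 0) (nat_lit 130) (@Lb.g g8 (@Lb.g g9 (@Lb.g g10 (@Lb.g g11 (@Lb.r r582 (@Lb.r r388 (@Lb.r r1323 (@Lb.r r1313 (@Lb.d (nat_lit 9) (nat_lit 73) (nat_lit 258) (@Lb.fm (nat_lit 9) t51)))))))))))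
noncomputable def l1528 : Lb := (@Lb.d (nat_lit 8) (nat_lit 290) (nat_lit 41) (@Lb.g g9 (@Lb.g g6 (@Lb.r r536 (@Lb.r r603 (@Lb.r r2469 (@Lb.d (nat_lit 354) (nat_lit 166) (nat_lit 648) (@Lb.fm (nat_lit 3) t632))))))))
noncomputable def l1529 : Lb := (@Lb.d (nat_lit 2) (nat_lit 512) (nat_lit 130) (@Lb.g g8 (@Lb.g g9 (@Lb.g g10 (@Lb.g g11 (@Lb.r r1451 (@Lb.r r409 (@Lb.r r2138 (@Lb.r r1169 (@Lb.d (nat_lit 521) (nat_lit 9) (nat_lit 18) (@Lb.fp (nat_lit 9) t221)))))))))))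
noncomputable def l1530 : Lb := (@Lb.d (nat_lit 160) (nat_lit 512) (nat_lit 130) (@Lb.g g9 (@Lb.g g10 (@Lb.g g11 (@Lb.r r72 (@Lb.r r1110 (@Lb.r r2469 (@Lb.r r603 (@Lb.d (nat_lit 9) (nat_lit 66) (nat_lit 68) (@Lb.t (@Lb.fp (nat_lit 9) t633)))))))))))
noncomputable def l1531 : Lb := (@Lb.g g7 (@Lb.r r2311 (@Lb.d (nat_lit 256) (nat_lit 512) (nat_lit 0) (@Lb.t (@Lb.fm (nat_lit 3) t469)))))
noncomputable def l1532 : Lb := (@Lb.r r2311 (@Lb.d (nat_lit 256) (nat_lit 512) (nat_lit 0) (@Lb.fp (nat_lit 1) t469)))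
noncomputable def l1533 : Lb := (@Lb.d (nat_lit 80) (nat_lit 0) (nat_lit 662) (@Lb.r r322 (@Lb.r r659 (@Lb.r r2389 (@Lb.g g6 (@Lb.g g5 (@Lb.g g4 (@Lb.d (nat_lit 1) (nat_lit 1) (nat_lit 1) (@Lb.t (@Lb.fm (nat_lit 9) t634))))))))))
noncomputable def l1534 : Lb := (@Lb.d (nat_lit 2) (nat_lit 16) (nat_lit 585) (@Lb.g g8 (@Lb.g g9 (@Lb.g g10 (@Lb.g g7 (@Lb.r r418 (@Lb.r r289 (@Lb.r r1096 (@Lb.d (nat_lit 546) (nat_lit 73) (nat_lit 97) (@Lb.fp (nat_lit 9) t635))))))))))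
noncomputable def l1535 : Lb := (@Lb.d (nat_lit 8) (nat_lit 514) (nat_lit 130) (@Lb.g g8 (@Lb.g g9 (@Lb.g g10 (@Lb.g g11 (@Lb.r r2715 (@Lb.r r161 (@Lb.r r98 (@Lb.r r2648 (@Lb.d (nat_lit 617) (nat_lit 38) (nat_lit 424) (@Lb.fm (nat_lit 9) t636)))))))))))
noncomputable def l1536 : Lb := (@Lb.d (nat_lit 160) (nat_lit 0) (nat_lit 130) (@Lb.g g9 (@Lb.g g10 (@Lb.g g11 (@Lb.r r264 (@Lb.r r279 (@Lb.r r613 (@Lb.r r410 (@Lb.d (nat_lit 2) (nat_lit 16) (nat_lit 69) (@Lb.t (@Lb.fp (nat_lit 9) t45)))))))))))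
noncomputable def l1537 : Lb := (@Lb.r r322 (@Lb.d (nat_lit 2) (nat_lit 258) (nat_lit 576) (@Lb.g g8 (@Lb.g g9 (@Lb.g g7 (@Lb.r r417 (@Lb.r r98 (@Lb.r r1096 (@Lb.d (nat_lit 546) (nat_lit 80) (nat_lit 36) (@Lb.t (@Lb.fp (nat_lit 9) t637)))))))))))
noncomputable def l1538 : Lb := (@Lb.d (nat_lit 8) (nat_lit 514) (nat_lit 128) (@Lb.g g9 (@Lb.g g10 (@Lb.g g11 (@Lb.r r1447 (@Lb.r r1414 (@Lb.r r24 (@Lb.d (nat_lit 282) (nat_lit 70) (nat_lit 34) (@Lb.t (@Lb.fm (nat_lit 9) t638))))))))))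
noncomputable def l1539 : Lb := (@Lb.d (nat_lit 276) (nat_lit 582) (nat_lit 18) (@Lb.r r1621 (@Lb.r r1094 (@Lb.r r2391 (@Lb.g g7 (@Lb.g g6 (@Lb.g g5 (@Lb.g g4 (@Lb.d (nat_lit 1) (nat_lit 0) (nat_lit 65) (@Lb.fp (nat_lit 9) t639))))))))))
noncomputable def l1540 : Lb := (@Lb.d (nat_lit 2) (nat_lit 0) (nat_lit 130) (@Lb.g g8 (@Lb.g g9 (@Lb.g g10 (@Lb.g g11 (@Lb.r r2731 (@Lb.r r2601 (@Lb.r r616 (@Lb.r r2118 (@Lb.r r1156 (@Lb.d (nat_lit 9) (nat_lit 153) (nat_lit 297) (@Lb.fm (nat_lit 9) t591))))))))))))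
noncomputable def l1541 : Lb := (@Lb.d (nat_lit 5) (nat_lit 512) (nat_lit 130) (@Lb.g g8 (@Lb.g g9 (@Lb.g g10 (@Lb.g g11 (@Lb.r r2715 (@Lb.r r1301 (@Lb.r r676 (@Lb.r r2118 (@Lb.r r1156 (@Lb.d (nat_lit 9) (nat_lit 21) (nat_lit 677) (@Lb.fm (nat_lit 9) t640))))))))))))
noncomputable def l1542 : Lb := (@Lb.d (nat_lit 2) (nat_lit 265) (nat_lit 130) (@Lb.g g8 (@Lb.g g9 (@Lb.g g10 (@Lb.g g11 (@Lb.r r1186 (@Lb.r r552 (@Lb.r r665 (@Lb.r r539 (@Lb.r r516 (@Lb.d (nat_lit 10) (nat_lit 73) (nat_lit 585) (@Lb.fm (nat_lit 9) t641))))))))))))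
noncomputable def l1543 : Lb := (@Lb.d (nat_lit 2) (nat_lit 9) (nat_lit 129) (@Lb.g g8 (@Lb.g g9 (@Lb.g g10 (@Lb.g g11 (@Lb.r r2459 (@Lb.r r297 (@Lb.r r1384 (@Lb.r r2630 (@Lb.d (nat_lit 665) (nat_lit 73) (nat_lit 358) (@Lb.fp (nat_lit 9) t539)))))))))))
noncomputable def l1544 : Lb := (@Lb.d (nat_lit 2) (nat_lit 521) (nat_lit 129) (@Lb.g g8 (@Lb.g g9 (@Lb.g g10 (@Lb.g g11 (@Lb.r r2459 (@Lb.r r297 (@Lb.r r1384 (@Lb.r r2630 (@Lb.d (nat_lit 665) (nat_lit 66) (nat_lit 356) (@Lb.fp (nat_lit 9) t539)))))))))))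
noncomputable def l1545 : Lb := (@Lb.d (nat_lit 10) (nat_lit 384) (nat_lit 0) (@Lb.fp (nat_lit 1) t2))
noncomputable def l1546 : Lb := (@Lb.d (nat_lit 8) (nat_lit 640) (nat_lit 0) (@Lb.g g8 (@Lb.g g5 (@Lb.r r24 (@Lb.d (nat_lit 9) (nat_lit 0) (nat_lit 0) (@Lb.fm (nat_lit 3) t2))))))
noncomputable def l1547 : Lb := (@Lb.d (nat_lit 2) (nat_lit 266) (nat_lit 136) (@Lb.g g8 (@Lb.g g9 (@Lb.g g11 (@Lb.r r1162 (@Lb.r r1188 (@Lb.r r405 (@Lb.r r1635 (@Lb.d (nat_lit 2) (nat_lit 0) (nat_lit 405) (@Lb.t (@Lb.fm (nat_lit 9) t642)))))))))))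
noncomputable def l1548 : Lb := (@Lb.d (nat_lit 8) (nat_lit 34) (nat_lit 0) (@Lb.g g5 (@Lb.r r1323 (@Lb.r r2178 (@Lb.r r2408 (@Lb.r r2473 (@Lb.d (nat_lit 617) (nat_lit 146) (nat_lit 134) (@Lb.t (@Lb.fp (nat_lit 3) t124)))))))))
noncomputable def l1549 : Lb := (@Lb.d (nat_lit 298) (nat_lit 388) (nat_lit 81) (@Lb.r r2129 (@Lb.r r1190 (@Lb.r r2392 (@Lb.g g7 (@Lb.g g6 (@Lb.g g5 (@Lb.d (nat_lit 64) (nat_lit 5) (nat_lit 386) (@Lb.t (@Lb.fp (nat_lit 9) t98))))))))))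
noncomputable def l1550 : Lb := (@Lb.d (nat_lit 596) (nat_lit 148) (nat_lit 578) (@Lb.r r1321 (@Lb.r r2647 (@Lb.r r1316 (@Lb.g g10 (@Lb.g g5 (@Lb.d (nat_lit 4) (nat_lit 2) (nat_lit 33) (@Lb.r r387 (@Lb.fp (nat_lit 3) t204)))))))))
noncomputable def l1551 : Lb := (@Lb.d (nat_lit 1) (nat_lit 10) (nat_lit 2) (@Lb.r r1158 (@Lb.r r2136 (@Lb.r r2341 (@Lb.r r2579 (@Lb.g g6 (@Lb.g g8 (@Lb.fp (nat_lit 3) t643))))))))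
noncomputable def l1552 : Lb := (@Lb.r r82 (@Lb.d (nat_lit 2) (nat_lit 546) (nat_lit 128) (@Lb.g g8 (@Lb.g g9 (@Lb.g g11 (@Lb.r r2581 (@Lb.r r2340 (@Lb.r r1419 (@Lb.r r386 (@Lb.d (nat_lit 81) (nat_lit 0) (nat_lit 530) (@Lb.t (@Lb.fp (nat_lit 9) t644))))))))))))
noncomputable def l1553 : Lb := (@Lb.d (nat_lit 0) (nat_lit 256) (nat_lit 66) (@Lb.g g9 (@Lb.g g10 (@Lb.g g7 (@Lb.r r386 (@Lb.r r101 (@Lb.r r24 (@Lb.d (nat_lit 354) (nat_lit 0) (nat_lit 585) (@Lb.t (@Lb.fm (nat_lit 9) t166))))))))))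
noncomputable def l1554 : Lb := (@Lb.d (nat_lit 8) (nat_lit 34) (nat_lit 0) (@Lb.g g5 (@Lb.r r680 (@Lb.r r2667 (@Lb.r r2178 (@Lb.r r2713 (@Lb.d (nat_lit 133) (nat_lit 85) (nat_lit 618) (@Lb.t (@Lb.fp (nat_lit 3) t229)))))))))
noncomputable def l1555 : Lb := (@Lb.r r323 (@Lb.d (nat_lit 0) (nat_lit 522) (nat_lit 0) (@Lb.g g9 (@Lb.g g6 (@Lb.r r515 (@Lb.r r101 (@Lb.r r24 (@Lb.d (nat_lit 32) (nat_lit 0) (nat_lit 84) (@Lb.fm (nat_lit 3) t645)))))))))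
noncomputable def l1556 : Lb := (@Lb.d (nat_lit 128) (nat_lit 514) (nat_lit 162) (@Lb.g g9 (@Lb.g g6 (@Lb.g g11 (@Lb.r r533 (@Lb.r r292 (@Lb.r r411 (@Lb.d (nat_lit 408) (nat_lit 26) (nat_lit 168) (@Lb.t (@Lb.fp (nat_lit 9) t646))))))))))
noncomputable def l1557 : Lb := (@Lb.d (nat_lit 128) (nat_lit 2) (nat_lit 162) (@Lb.g g9 (@Lb.g g6 (@Lb.g g11 (@Lb.r r533 (@Lb.r r292 (@Lb.r r411 (@Lb.d (nat_lit 402) (nat_lit 90) (nat_lit 168) (@Lb.t (@Lb.fp (nat_lit 9) t626))))))))))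
noncomputable def l1558 : Lb := (@Lb.r r323 (@Lb.d (nat_lit 0) (nat_lit 10) (nat_lit 0) (@Lb.g g9 (@Lb.g g6 (@Lb.r r515 (@Lb.r r101 (@Lb.r r24 (@Lb.d (nat_lit 34) (nat_lit 0) (nat_lit 84) (@Lb.fm (nat_lit 3) t647)))))))))
noncomputable def l1559 : Lb := (@Lb.d (nat_lit 8) (nat_lit 546) (nat_lit 0) (@Lb.g g5 (@Lb.r r680 (@Lb.r r2667 (@Lb.r r2178 (@Lb.r r1577 (@Lb.d (nat_lit 665) (nat_lit 97) (nat_lit 353) (@Lb.t (@Lb.fm (nat_lit 3) t229)))))))))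
noncomputable def l1560 : Lb := (@Lb.d (nat_lit 10) (nat_lit 520) (nat_lit 2) (@Lb.g g8 (@Lb.g g10 (@Lb.r r1427 (@Lb.r r149 (@Lb.r r168 (@Lb.d (nat_lit 277) (nat_lit 8) (nat_lit 18) (@Lb.fp (nat_lit 3) t145))))))))
noncomputable def l1561 : Lb := (@Lb.d (nat_lit 0) (nat_lit 512) (nat_lit 608) (@Lb.r r2449 (@Lb.g g7 (@Lb.d (nat_lit 0) (nat_lit 0) (nat_lit 68) (@Lb.t (@Lb.fm (nat_lit 3) t76))))))
noncomputable def l1562 : Lb := (@Lb.r r275 (@Lb.d (nat_lit 0) (nat_lit 258) (nat_lit 8) (@Lb.g g9 (@Lb.g g10 (@Lb.r r1355 (@Lb.r r356 (@Lb.r r154 (@Lb.d (nat_lit 21) (nat_lit 138) (nat_lit 34) (@Lb.fp (nat_lit 3) t648)))))))))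
noncomputable def l1563 : Lb := (@Lb.d (nat_lit 0) (nat_lit 408) (nat_lit 80) (@Lb.r r579 (@Lb.g g6 (@Lb.g g9 (@Lb.d (nat_lit 0) (nat_lit 85) (nat_lit 1) (@Lb.fm (nat_lit 3) t649))))))
noncomputable def l1564 : Lb := (@Lb.d (nat_lit 0) (nat_lit 408) (nat_lit 0) (@Lb.g g9 (@Lb.g g11 (@Lb.r r611 (@Lb.d (nat_lit 0) (nat_lit 82) (nat_lit 16) (@Lb.fp (nat_lit 3) t650))))))
noncomputable def l1565 : Lb := (@Lb.d (nat_lit 9) (nat_lit 521) (nat_lit 130) (@Lb.g g8 (@Lb.g g9 (@Lb.g g10 (@Lb.g g11 (@Lb.r r1699 (@Lb.r r1429 (@Lb.r r356 (@Lb.r r154 (@Lb.d (nat_lit 409) (nat_lit 10) (nat_lit 601) (@Lb.fp (nat_lit 9) t525)))))))))))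
noncomputable def l1566 : Lb := (@Lb.r r322 (@Lb.d (nat_lit 40) (nat_lit 258) (nat_lit 136) (@Lb.g g8 (@Lb.g g9 (@Lb.g g7 (@Lb.r r2409 (@Lb.r r150 (@Lb.r r104 (@Lb.d (nat_lit 100) (nat_lit 10) (nat_lit 537) (@Lb.t (@Lb.fm (nat_lit 9) t242)))))))))))
noncomputable def l1567 : Lb := (@Lb.d (nat_lit 609) (nat_lit 421) (nat_lit 84) (@Lb.r r359 (@Lb.r r532 (@Lb.r r281 (@Lb.g g7 (@Lb.g g10 (@Lb.g g5 (@Lb.d (nat_lit 64) (nat_lit 1) (nat_lit 81) (@Lb.t (@Lb.fm (nat_lit 9) t246))))))))))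
noncomputable def l1568 : Lb := (@Lb.d (nat_lit 401) (nat_lit 326) (nat_lit 356) (@Lb.r r2438 (@Lb.r r1620 (@Lb.r r2345 (@Lb.r r1351 (@Lb.g g7 (@Lb.g g6 (@Lb.g g4 (@Lb.d (nat_lit 1) (nat_lit 4) (nat_lit 65) (@Lb.t (@Lb.fp (nat_lit 9) t284)))))))))))
noncomputable def l1569 : Lb := (@Lb.r r323 (@Lb.d (nat_lit 0) (nat_lit 256) (nat_lit 1) (@Lb.g g9 (@Lb.g g6 (@Lb.r r387 (@Lb.r r101 (@Lb.r r24 (@Lb.d (nat_lit 32) (nat_lit 0) (nat_lit 66) (@Lb.fp (nat_lit 3) t167)))))))))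
noncomputable def l1570 : Lb := (@Lb.d (nat_lit 32) (nat_lit 514) (nat_lit 2) (@Lb.g g9 (@Lb.g g10 (@Lb.r r1543 (@Lb.r r149 (@Lb.r r100 (@Lb.r r410 (@Lb.d (nat_lit 150) (nat_lit 82) (nat_lit 138) (@Lb.fm (nat_lit 3) t651)))))))))
noncomputable def l1571 : Lb := (@Lb.r r323 (@Lb.d (nat_lit 0) (nat_lit 512) (nat_lit 1) (@Lb.g g9 (@Lb.g g6 (@Lb.r r387 (@Lb.r r101 (@Lb.r r24 (@Lb.d (nat_lit 34) (nat_lit 0) (nat_lit 66) (@Lb.fp (nat_lit 3) t40)))))))))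
noncomputable def l1572 : Lb := (@Lb.g g10 (@Lb.r r386 (@Lb.r r2371 (@Lb.r r578 (@Lb.t (@Lb.p (nat_lit 1) (@Lb.fm (nat_lit 3) t2)))))))
noncomputable def l1573 : Lb := (@Lb.d (nat_lit 1) (nat_lit 1) (nat_lit 0) (@Lb.r r289 (@Lb.r r279 (@Lb.r r584 (@Lb.r r326 (@Lb.g g7 (@Lb.g g6 (@Lb.g g5 (@Lb.d (nat_lit 0) (nat_lit 0) (nat_lit 65) (@Lb.t (@Lb.fp (nat_lit 9) t68)))))))))))
noncomputable def l1574 : Lb := (@Lb.d (nat_lit 2) (nat_lit 265) (nat_lit 73) (@Lb.g g8 (@Lb.g g9 (@Lb.g g10 (@Lb.g g11 (@Lb.r r643 (@Lb.r r297 (@Lb.r r360 (@Lb.r r582 (@Lb.r r132 (@Lb.d (nat_lit 128) (nat_lit 10) (nat_lit 73) (@Lb.fm (nat_lit 9) t98))))))))))))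
noncomputable def l1575 : Lb := (@Lb.r r24 (@Lb.r r101 (@Lb.r r402 (@Lb.d (nat_lit 0) (nat_lit 164) (nat_lit 325) (@Lb.fm (nat_lit 1) t652)))))
noncomputable def l1576 : Lb := (@Lb.r r323 (@Lb.d (nat_lit 32) (nat_lit 2) (nat_lit 2) (@Lb.g g9 (@Lb.g g10 (@Lb.r r2347 (@Lb.r r2197 (@Lb.r r1124 (@Lb.r r2458 (@Lb.d (nat_lit 660) (nat_lit 89) (nat_lit 665) (@Lb.fp (nat_lit 3) t61))))))))))
noncomputable def l1577 : Lb := (@Lb.d (nat_lit 0) (nat_lit 266) (nat_lit 2) (@Lb.g g6 (@Lb.t (@Lb.fm (nat_lit 3) t134))))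
noncomputable def l1578 : Lb := (@Lb.g g6 (@Lb.d (nat_lit 0) (nat_lit 517) (nat_lit 1) (@Lb.t (@Lb.fm (nat_lit 3) t45))))
noncomputable def l1579 : Lb := (@Lb.d (nat_lit 262) (nat_lit 5) (nat_lit 18) (@Lb.r r154 (@Lb.r r660 (@Lb.r r1621 (@Lb.r r2727 (@Lb.g g7 (@Lb.g g6 (@Lb.g g5 (@Lb.d (nat_lit 0) (nat_lit 0) (nat_lit 64) (@Lb.t (@Lb.fp (nat_lit 9) t587)))))))))))
noncomputable def l1580 : Lb := (@Lb.d (nat_lit 676) (nat_lit 409) (nat_lit 325) (@Lb.r r1371 (@Lb.r r1304 (@Lb.r r597 (@Lb.g g7 (@Lb.g g10 (@Lb.d (nat_lit 64) (nat_lit 20) (nat_lit 82) (@Lb.fm (nat_lit 3) t653))))))))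
noncomputable def l1581 : Lb := (@Lb.d (nat_lit 0) (nat_lit 10) (nat_lit 0) (@Lb.g g8 (@Lb.g g9 (@Lb.r r134 (@Lb.r r328 (@Lb.r r535 (@Lb.r r289 (@Lb.d (nat_lit 0) (nat_lit 128) (nat_lit 128) (@Lb.fm (nat_lit 3) t71)))))))))
noncomputable def l1582 : Lb := (@Lb.d (nat_lit 2) (nat_lit 1) (nat_lit 0) (@Lb.g g8 (@Lb.g g9 (@Lb.r r134 (@Lb.r r328 (@Lb.r r423 (@Lb.r r401 (@Lb.d (nat_lit 0) (nat_lit 161) (nat_lit 136) (@Lb.fm (nat_lit 3) t71)))))))))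
noncomputable def l1583 : Lb := (@Lb.d (nat_lit 0) (nat_lit 5) (nat_lit 18) (@Lb.r r134 (@Lb.r r328 (@Lb.r r279 (@Lb.r r545 (@Lb.g g7 (@Lb.g g5 (@Lb.d (nat_lit 0) (nat_lit 0) (nat_lit 64) (@Lb.fp (nat_lit 3) t69)))))))))
noncomputable def l1584 : Lb := (@Lb.d (nat_lit 0) (nat_lit 522) (nat_lit 16) (@Lb.r r134 (@Lb.r r328 (@Lb.r r535 (@Lb.r r289 (@Lb.g g11 (@Lb.t (@Lb.fp (nat_lit 3) t71))))))))
noncomputable def l1585 : Lb := (@Lb.d (nat_lit 132) (nat_lit 290) (nat_lit 0) (@Lb.g g8 (@Lb.g g9 (@Lb.r r2579 (@Lb.r r2178 (@Lb.r r1429 (@Lb.r r2084 (@Lb.d (nat_lit 617) (nat_lit 73) (nat_lit 402) (@Lb.fm (nat_lit 3) t100)))))))))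
noncomputable def l1586 : Lb := (@Lb.d (nat_lit 1) (nat_lit 258) (nat_lit 66) (@Lb.g g8 (@Lb.g g9 (@Lb.g g10 (@Lb.g g11 (@Lb.r r1443 (@Lb.r r386 (@Lb.r r1129 (@Lb.r r36 (@Lb.d (nat_lit 612) (nat_lit 1) (nat_lit 153) (@Lb.fp (nat_lit 9) t61)))))))))))
noncomputable def l1587 : Lb := (@Lb.d (nat_lit 0) (nat_lit 0) (nat_lit 128) (@Lb.g g11 (@Lb.r r2626 (@Lb.d (nat_lit 0) (nat_lit 90) (nat_lit 682) (@Lb.t (@Lb.fp (nat_lit 3) t654))))))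
noncomputable def l1588 : Lb := (@Lb.d (nat_lit 16) (nat_lit 256) (nat_lit 1) (@Lb.g g10 (@Lb.r r2728 (@Lb.r r2715 (@Lb.r r357 (@Lb.r r666 (@Lb.d (nat_lit 73) (nat_lit 105) (nat_lit 148) (@Lb.t (@Lb.fp (nat_lit 3) t453)))))))))
noncomputable def l1589 : Lb := (@Lb.d (nat_lit 0) (nat_lit 512) (nat_lit 130) (@Lb.g g10 (@Lb.g g11 (@Lb.r r2658 (@Lb.r r579 (@Lb.d (nat_lit 0) (nat_lit 97) (nat_lit 640) (@Lb.fp (nat_lit 3) t51)))))))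
noncomputable def l1590 : Lb := (@Lb.d (nat_lit 0) (nat_lit 257) (nat_lit 2) (@Lb.g g9 (@Lb.g g10 (@Lb.r r1697 (@Lb.r r2658 (@Lb.d (nat_lit 0) (nat_lit 146) (nat_lit 402) (@Lb.fp (nat_lit 3) t655)))))))
noncomputable def l1591 : Lb := (@Lb.d (nat_lit 133) (nat_lit 584) (nat_lit 0) (@Lb.r r293 (@Lb.r r600 (@Lb.r r603 (@Lb.g g6 (@Lb.g g5 (@Lb.d (nat_lit 20) (nat_lit 17) (nat_lit 1) (@Lb.r r387 (@Lb.fp (nat_lit 3) t74)))))))))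
noncomputable def l1592 : Lb := (@Lb.d (nat_lit 645) (nat_lit 641) (nat_lit 513) (@Lb.r r1317 (@Lb.r r2648 (@Lb.r r2651 (@Lb.g g6 (@Lb.g g5 (@Lb.d (nat_lit 16) (nat_lit 17) (nat_lit 1) (@Lb.r r387 (@Lb.fp (nat_lit 3) t125)))))))))
noncomputable def l1593 : Lb := (@Lb.d (nat_lit 0) (nat_lit 356) (nat_lit 129) (@Lb.r r82 (@Lb.r r275 (@Lb.g g9 (@Lb.d (nat_lit 0) (nat_lit 146) (nat_lit 0) (@Lb.r r291 (@Lb.r r98 (@Lb.t (@Lb.fp (nat_lit 3) t656)))))))))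
noncomputable def l1594 : Lb := (@Lb.r r82 (@Lb.d (nat_lit 0) (nat_lit 0) (nat_lit 128) (@Lb.g g9 (@Lb.g g11 (@Lb.r r1634 (@Lb.r r1553 (@Lb.d (nat_lit 0) (nat_lit 5) (nat_lit 641) (@Lb.fm (nat_lit 3) t657))))))))
noncomputable def l1595 : Lb := (@Lb.d (nat_lit 0) (nat_lit 0) (nat_lit 138) (@Lb.g g10 (@Lb.g g7 (@Lb.r r402 (@Lb.d (nat_lit 0) (nat_lit 24) (nat_lit 9) (@Lb.fm (nat_lit 3) t44))))))
noncomputable def l1596 : Lb := (@Lb.d (nat_lit 0) (nat_lit 0) (nat_lit 128) (@Lb.g g10 (@Lb.g g11 (@Lb.r r2626 (@Lb.d (nat_lit 0) (nat_lit 0) (nat_lit 256) (@Lb.fm (nat_lit 3) t2))))))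
noncomputable def l1597 : Lb := (@Lb.d (nat_lit 0) (nat_lit 261) (nat_lit 74) (@Lb.g g9 (@Lb.g g10 (@Lb.g g11 (@Lb.r r611 (@Lb.r r1610 (@Lb.r r2644 (@Lb.r r1321 (@Lb.d (nat_lit 265) (nat_lit 16) (nat_lit 576) (@Lb.t (@Lb.fm (nat_lit 9) t658)))))))))))
noncomputable def l1598 : Lb := (@Lb.d (nat_lit 1) (nat_lit 322) (nat_lit 2) (@Lb.g g4 (@Lb.g g9 (@Lb.g g10 (@Lb.g g11 (@Lb.r r419 (@Lb.r r98 (@Lb.d (nat_lit 0) (nat_lit 9) (nat_lit 2) (@Lb.fm (nat_lit 9) t51)))))))))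
noncomputable def l1599 : Lb := (@Lb.d (nat_lit 0) (nat_lit 264) (nat_lit 130) (@Lb.g g10 (@Lb.g g11 (@Lb.r r387 (@Lb.d (nat_lit 0) (nat_lit 2) (nat_lit 137) (@Lb.fm (nat_lit 3) t51))))))
noncomputable def l1600 : Lb := (@Lb.d (nat_lit 32) (nat_lit 10) (nat_lit 129) (@Lb.g g9 (@Lb.g g10 (@Lb.g g11 (@Lb.r r2725 (@Lb.r r299 (@Lb.r r68 (@Lb.r r394 (@Lb.d (nat_lit 641) (nat_lit 10) (nat_lit 168) (@Lb.t (@Lb.fm (nat_lit 9) t525)))))))))))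
noncomputable def l1601 : Lb := (@Lb.d (nat_lit 0) (nat_lit 0) (nat_lit 130) (@Lb.g g10 (@Lb.g g11 (@Lb.r r1553 (@Lb.r r595 (@Lb.r r386 (@Lb.d (nat_lit 0) (nat_lit 5) (nat_lit 522) (@Lb.fm (nat_lit 3) t659))))))))
noncomputable def l1602 : Lb := (@Lb.r r323 (@Lb.d (nat_lit 0) (nat_lit 256) (nat_lit 1) (@Lb.g g9 (@Lb.g g6 (@Lb.r r2339 (@Lb.d (nat_lit 0) (nat_lit 68) (nat_lit 1) (@Lb.fp (nat_lit 3) t660)))))))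
noncomputable def l1603 : Lb := (@Lb.d (nat_lit 0) (nat_lit 0) (nat_lit 2) (@Lb.g g9 (@Lb.g g10 (@Lb.g g11 (@Lb.r r419 (@Lb.r r98 (@Lb.d (nat_lit 0) (nat_lit 9) (nat_lit 2) (@Lb.t (@Lb.fm (nat_lit 9) t51)))))))))
noncomputable def l1604 : Lb := (@Lb.d (nat_lit 0) (nat_lit 512) (nat_lit 4) (@Lb.g g9 (@Lb.g g10 (@Lb.g g11 (@Lb.r r1363 (@Lb.r r1362 (@Lb.r r101 (@Lb.r r24 (@Lb.d (nat_lit 129) (nat_lit 0) (nat_lit 361) (@Lb.t (@Lb.fm (nat_lit 9) t457)))))))))))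
noncomputable def l1605 : Lb := (@Lb.r r323 (@Lb.d (nat_lit 0) (nat_lit 0) (nat_lit 1) (@Lb.g g9 (@Lb.g g6 (@Lb.r r579 (@Lb.r r101 (@Lb.r r24 (@Lb.d (nat_lit 512) (nat_lit 0) (nat_lit 38) (@Lb.fm (nat_lit 3) t40)))))))))
noncomputable def l1606 : Lb := (@Lb.r r323 (@Lb.d (nat_lit 0) (nat_lit 10) (nat_lit 1) (@Lb.g g9 (@Lb.g g10 (@Lb.r r1687 (@Lb.r r2408 (@Lb.r r1174 (@Lb.r r1169 (@Lb.d (nat_lit 534) (nat_lit 65) (nat_lit 1) (@Lb.fp (nat_lit 3) t610))))))))))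
noncomputable def l1607 : Lb := (@Lb.d (nat_lit 0) (nat_lit 8) (nat_lit 64) (@Lb.g g9 (@Lb.g g7 (@Lb.r r1170 (@Lb.r r1105 (@Lb.d (nat_lit 0) (nat_lit 146) (nat_lit 610) (@Lb.fm (nat_lit 3) t300)))))))
noncomputable def l1608 : Lb := (@Lb.d (nat_lit 0) (nat_lit 0) (nat_lit 66) (@Lb.g g9 (@Lb.g g10 (@Lb.g g7 (@Lb.r r386 (@Lb.r r101 (@Lb.r r24 (@Lb.d (nat_lit 512) (nat_lit 0) (nat_lit 41) (@Lb.t (@Lb.fm (nat_lit 9) t40))))))))))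
noncomputable def l1609 : Lb := (@Lb.d (nat_lit 0) (nat_lit 536) (nat_lit 1) (@Lb.g g9 (@Lb.g g10 (@Lb.g g11 (@Lb.r r643 (@Lb.r r1362 (@Lb.r r293 (@Lb.r r24 (@Lb.d (nat_lit 81) (nat_lit 0) (nat_lit 292) (@Lb.t (@Lb.fp (nat_lit 9) t42)))))))))))
noncomputable def l1610 : Lb := (@Lb.r r82 (@Lb.r r275 (@Lb.d (nat_lit 2) (nat_lit 294) (nat_lit 0) (@Lb.g g8 (@Lb.g g5 (@Lb.r r1178 (@Lb.r r1688 (@Lb.r r1563 (@Lb.d (nat_lit 389) (nat_lit 144) (nat_lit 138) (@Lb.fm (nat_lit 3) t594))))))))))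
noncomputable def l1611 : Lb := (@Lb.d (nat_lit 128) (nat_lit 264) (nat_lit 128) (@Lb.g g9 (@Lb.g g11 (@Lb.r r264 (@Lb.r r407 (@Lb.r r82 (@Lb.r r161 (@Lb.d (nat_lit 102) (nat_lit 2) (nat_lit 169) (@Lb.fm (nat_lit 3) t21)))))))))
noncomputable def l1612 : Lb := (@Lb.d (nat_lit 0) (nat_lit 586) (nat_lit 0) (@Lb.r r101 (@Lb.r r24 (@Lb.g g7 (@Lb.g g6 (@Lb.d (nat_lit 0) (nat_lit 0) (nat_lit 69) (@Lb.fm (nat_lit 3) t320)))))))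
noncomputable def l1613 : Lb := (@Lb.d (nat_lit 0) (nat_lit 128) (nat_lit 598) (@Lb.r r1378 (@Lb.r r2723 (@Lb.g g7 (@Lb.g g6 (@Lb.g g5 (@Lb.d (nat_lit 0) (nat_lit 0) (nat_lit 132) (@Lb.t (@Lb.fm (nat_lit 9) t661)))))))))
noncomputable def l1614 : Lb := (@Lb.d (nat_lit 0) (nat_lit 345) (nat_lit 130) (@Lb.r r2658 (@Lb.r r419 (@Lb.g g7 (@Lb.g g6 (@Lb.g g5 (@Lb.d (nat_lit 0) (nat_lit 164) (nat_lit 68) (@Lb.t (@Lb.fp (nat_lit 9) t103)))))))))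
noncomputable def l1615 : Lb := (@Lb.d (nat_lit 0) (nat_lit 0) (nat_lit 2) (@Lb.g g5 (@Lb.g g10 (@Lb.r r146 (@Lb.d (nat_lit 0) (nat_lit 8) (nat_lit 1) (@Lb.fm (nat_lit 3) t44))))))
noncomputable def l1616 : Lb := (@Lb.d (nat_lit 0) (nat_lit 586) (nat_lit 130) (@Lb.r r101 (@Lb.r r24 (@Lb.r r387 (@Lb.g g11 (@Lb.g g6 (@Lb.fp (nat_lit 3) t318)))))))
noncomputable def l1617 : Lb := (@Lb.d (nat_lit 0) (nat_lit 512) (nat_lit 73) (@Lb.g g10 (@Lb.g g11 (@Lb.r r1411 (@Lb.r r2193 (@Lb.r r1426 (@Lb.d (nat_lit 0) (nat_lit 160) (nat_lit 324) (@Lb.fp (nat_lit 3) t590))))))))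
noncomputable def l1618 : Lb := (@Lb.d (nat_lit 64) (nat_lit 288) (nat_lit 578) (@Lb.g g10 (@Lb.g g7 (@Lb.r r1304 (@Lb.r r2213 (@Lb.r r98 (@Lb.d (nat_lit 293) (nat_lit 134) (nat_lit 64) (@Lb.fp (nat_lit 3) t662))))))))
noncomputable def l1619 : Lb := (@Lb.d (nat_lit 0) (nat_lit 330) (nat_lit 132) (@Lb.r r101 (@Lb.r r24 (@Lb.r r322 (@Lb.g g7 (@Lb.g g6 (@Lb.d (nat_lit 0) (nat_lit 0) (nat_lit 70) (@Lb.fm (nat_lit 3) t123))))))))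
noncomputable def l1620 : Lb := (@Lb.d (nat_lit 0) (nat_lit 516) (nat_lit 64) (@Lb.g g9 (@Lb.g g10 (@Lb.g g7 (@Lb.r r2466 (@Lb.r r145 (@Lb.d (nat_lit 0) (nat_lit 98) (nat_lit 530) (@Lb.t (@Lb.fm (nat_lit 9) t99)))))))))
noncomputable def l1621 : Lb := (@Lb.d (nat_lit 32) (nat_lit 0) (nat_lit 130) (@Lb.g g9 (@Lb.g g10 (@Lb.g g11 (@Lb.r r617 (@Lb.r r1443 (@Lb.r r68 (@Lb.r r394 (@Lb.d (nat_lit 656) (nat_lit 136) (nat_lit 136) (@Lb.t (@Lb.fm (nat_lit 9) t662)))))))))))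
noncomputable def l1622 : Lb := (@Lb.r r323 (@Lb.d (nat_lit 0) (nat_lit 0) (nat_lit 2) (@Lb.g g9 (@Lb.g g10 (@Lb.r r2599 (@Lb.r r1304 (@Lb.r r165 (@Lb.r r1122 (@Lb.d (nat_lit 292) (nat_lit 72) (nat_lit 17) (@Lb.fp (nat_lit 3) t662))))))))))
noncomputable def l1623 : Lb := (@Lb.r r323 (@Lb.d (nat_lit 0) (nat_lit 290) (nat_lit 2) (@Lb.g g5 (@Lb.g g10 (@Lb.r r299 (@Lb.r r392 (@Lb.r r74 (@Lb.d (nat_lit 20) (nat_lit 2) (nat_lit 33) (@Lb.fm (nat_lit 3) t167)))))))))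
noncomputable def l1624 : Lb := (@Lb.r r323 (@Lb.g g6 (@Lb.r r533 (@Lb.r r343 (@Lb.r r648 (@Lb.r r330 (@Lb.d (nat_lit 17) (nat_lit 0) (nat_lit 22) (@Lb.t (@Lb.fp (nat_lit 3) t663)))))))))
noncomputable def l1625 : Lb := (@Lb.r r154 (@Lb.r r660 (@Lb.r r407 (@Lb.r r609 (@Lb.d (nat_lit 0) (nat_lit 401) (nat_lit 10) (@Lb.fp (nat_lit 1) t44))))))
noncomputable def l1626 : Lb := (@Lb.d (nat_lit 529) (nat_lit 522) (nat_lit 144) (@Lb.r r2194 (@Lb.r r101 (@Lb.r r1304 (@Lb.g g11 (@Lb.d (nat_lit 128) (nat_lit 16) (nat_lit 384) (@Lb.t (@Lb.fm (nat_lit 3) t664))))))))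
noncomputable def l1627 : Lb := (@Lb.r r323 (@Lb.d (nat_lit 8) (nat_lit 545) (nat_lit 2) (@Lb.g g9 (@Lb.g g10 (@Lb.r r2587 (@Lb.r r2584 (@Lb.r r2197 (@Lb.r r1170 (@Lb.d (nat_lit 274) (nat_lit 149) (nat_lit 513) (@Lb.fp (nat_lit 3) t665))))))))))
noncomputable def l1628 : Lb := (@Lb.d (nat_lit 128) (nat_lit 513) (nat_lit 0) (@Lb.g g8 (@Lb.g g9 (@Lb.r r1363 (@Lb.r r1701 (@Lb.r r2662 (@Lb.r r2328 (@Lb.d (nat_lit 138) (nat_lit 146) (nat_lit 657) (@Lb.fm (nat_lit 3) t307)))))))))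
noncomputable def l1629 : Lb := (@Lb.r r323 (@Lb.d (nat_lit 130) (nat_lit 521) (nat_lit 33) (@Lb.g g8 (@Lb.g g9 (@Lb.g g10 (@Lb.r r2647 (@Lb.r r145 (@Lb.r r1316 (@Lb.d (nat_lit 330) (nat_lit 169) (nat_lit 400) (@Lb.t (@Lb.fp (nat_lit 9) t666)))))))))))
noncomputable def l1630 : Lb := (@Lb.d (nat_lit 134) (nat_lit 581) (nat_lit 84) (@Lb.r r390 (@Lb.r r72 (@Lb.r r279 (@Lb.r r545 (@Lb.g g7 (@Lb.g g6 (@Lb.g g5 (@Lb.d (nat_lit 16) (nat_lit 5) (nat_lit 66) (@Lb.t (@Lb.fm (nat_lit 9) t70)))))))))))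
noncomputable def l1631 : Lb := (@Lb.d (nat_lit 513) (nat_lit 66) (nat_lit 33) (@Lb.r r597 (@Lb.r r2583 (@Lb.r r1352 (@Lb.r r2694 (@Lb.g g7 (@Lb.r r578 (@Lb.t (@Lb.fp (nat_lit 3) t221)))))))))
noncomputable def l1632 : Lb := (@Lb.r r323 (@Lb.d (nat_lit 137) (nat_lit 8) (nat_lit 33) (@Lb.g g8 (@Lb.g g9 (@Lb.g g10 (@Lb.r r2647 (@Lb.r r145 (@Lb.r r1316 (@Lb.d (nat_lit 330) (nat_lit 169) (nat_lit 400) (@Lb.t (@Lb.fp (nat_lit 9) t666)))))))))))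
noncomputable def l1633 : Lb := (@Lb.d (nat_lit 0) (nat_lit 145) (nat_lit 400) (@Lb.r r82 (@Lb.r r595 (@Lb.r r1425 (@Lb.g g5 (@Lb.r r98 (@Lb.t (@Lb.fp (nat_lit 3) t667))))))))
noncomputable def l1634 : Lb := (@Lb.d (nat_lit 0) (nat_lit 256) (nat_lit 70) (@Lb.r r579 (@Lb.g g6 (@Lb.g g9 (@Lb.d (nat_lit 0) (nat_lit 5) (nat_lit 21) (@Lb.fm (nat_lit 3) t45))))))
noncomputable def l1635 : Lb := (@Lb.r r323 (@Lb.d (nat_lit 0) (nat_lit 0) (nat_lit 2) (@Lb.g g9 (@Lb.g g10 (@Lb.r r1307 (@Lb.r r1304 (@Lb.r r165 (@Lb.r r1122 (@Lb.d (nat_lit 514) (nat_lit 136) (nat_lit 1) (@Lb.fm (nat_lit 3) t662))))))))))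
noncomputable def l1636 : Lb := (@Lb.d (nat_lit 0) (nat_lit 256) (nat_lit 73) (@Lb.g g9 (@Lb.g g10 (@Lb.g g11 (@Lb.r r2599 (@Lb.r r1369 (@Lb.r r1444 (@Lb.r r1126 (@Lb.d (nat_lit 24) (nat_lit 136) (nat_lit 1) (@Lb.t (@Lb.fp (nat_lit 9) t662)))))))))))
noncomputable def l1637 : Lb := (@Lb.d (nat_lit 0) (nat_lit 0) (nat_lit 130) (@Lb.g g9 (@Lb.g g10 (@Lb.g g11 (@Lb.r r166 (@Lb.r r584 (@Lb.r r299 (@Lb.r r289 (@Lb.d (nat_lit 328) (nat_lit 97) (nat_lit 576) (@Lb.t (@Lb.fp (nat_lit 9) t668)))))))))))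
noncomputable def l1638 : Lb := (@Lb.r r579 (@Lb.d (nat_lit 0) (nat_lit 512) (nat_lit 85) (@Lb.fm (nat_lit 1) t2)))
noncomputable def l1639 : Lb := (@Lb.r r275 (@Lb.d (nat_lit 0) (nat_lit 522) (nat_lit 1) (@Lb.g g9 (@Lb.g g10 (@Lb.r r643 (@Lb.r r165 (@Lb.r r1638 (@Lb.r r24 (@Lb.d (nat_lit 146) (nat_lit 0) (nat_lit 68) (@Lb.fp (nat_lit 3) t329))))))))))
noncomputable def l1640 : Lb := (@Lb.d (nat_lit 40) (nat_lit 34) (nat_lit 66) (@Lb.g g9 (@Lb.g g10 (@Lb.g g11 (@Lb.r r680 (@Lb.r r619 (@Lb.r r1362 (@Lb.r r2457 (@Lb.d (nat_lit 356) (nat_lit 137) (nat_lit 328) (@Lb.t (@Lb.fm (nat_lit 9) t329)))))))))))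
noncomputable def l1641 : Lb := (@Lb.r r21 (@Lb.d (nat_lit 34) (nat_lit 512) (nat_lit 6) (@Lb.g g8 (@Lb.g g10 (@Lb.g g11 (@Lb.r r395 (@Lb.r r533 (@Lb.r r392 (@Lb.r r410 (@Lb.d (nat_lit 153) (nat_lit 33) (nat_lit 134) (@Lb.t (@Lb.fm (nat_lit 9) t594))))))))))))
noncomputable def l1642 : Lb := (@Lb.g g4 (@Lb.r r1543 (@Lb.r r2376 (@Lb.r r1158 (@Lb.r r1169 (@Lb.d (nat_lit 8) (nat_lit 514) (nat_lit 69) (@Lb.t (@Lb.fp (nat_lit 3) t669))))))))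
noncomputable def l1643 : Lb := (@Lb.d (nat_lit 2) (nat_lit 514) (nat_lit 66) (@Lb.g g8 (@Lb.g g9 (@Lb.g g10 (@Lb.g g7 (@Lb.r r386 (@Lb.r r97 (@Lb.r r24 (@Lb.d (nat_lit 10) (nat_lit 9) (nat_lit 9) (@Lb.fp (nat_lit 9) t40))))))))))
noncomputable def l1644 : Lb := (@Lb.d (nat_lit 2) (nat_lit 2) (nat_lit 66) (@Lb.g g8 (@Lb.g g9 (@Lb.g g10 (@Lb.g g7 (@Lb.r r386 (@Lb.r r97 (@Lb.r r24 (@Lb.d (nat_lit 10) (nat_lit 9) (nat_lit 137) (@Lb.fp (nat_lit 9) t40))))))))))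
noncomputable def l1645 : Lb := (@Lb.r r323 (@Lb.d (nat_lit 161) (nat_lit 516) (nat_lit 10) (@Lb.g g8 (@Lb.g g9 (@Lb.g g6 (@Lb.r r407 (@Lb.r r97 (@Lb.r r516 (@Lb.d (nat_lit 138) (nat_lit 8) (nat_lit 128) (@Lb.t (@Lb.fm (nat_lit 9) t597)))))))))))
noncomputable def l1646 : Lb := (@Lb.d (nat_lit 2) (nat_lit 9) (nat_lit 6) (@Lb.g g8 (@Lb.g g9 (@Lb.g g10 (@Lb.g g11 (@Lb.r r427 (@Lb.r r424 (@Lb.r r106 (@Lb.r r97 (@Lb.d (nat_lit 9) (nat_lit 9) (nat_lit 2) (@Lb.fp (nat_lit 9) t594)))))))))))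
noncomputable def l1647 : Lb := (@Lb.d (nat_lit 8) (nat_lit 514) (nat_lit 4) (@Lb.g g8 (@Lb.g g9 (@Lb.g g10 (@Lb.g g11 (@Lb.r r1689 (@Lb.r r2459 (@Lb.r r2456 (@Lb.r r1098 (@Lb.d (nat_lit 545) (nat_lit 170) (nat_lit 169) (@Lb.fm (nat_lit 9) t100)))))))))))
noncomputable def l1648 : Lb := (@Lb.d (nat_lit 2) (nat_lit 514) (nat_lit 4) (@Lb.g g8 (@Lb.g g9 (@Lb.g g10 (@Lb.g g11 (@Lb.r r427 (@Lb.r r424 (@Lb.r r106 (@Lb.r r97 (@Lb.d (nat_lit 9) (nat_lit 9) (nat_lit 2) (@Lb.fp (nat_lit 9) t51)))))))))))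
noncomputable def l1649 : Lb := (@Lb.r r322 (@Lb.d (nat_lit 2) (nat_lit 258) (nat_lit 68) (@Lb.g g8 (@Lb.g g9 (@Lb.g g7 (@Lb.r r417 (@Lb.r r98 (@Lb.r r24 (@Lb.d (nat_lit 10) (nat_lit 16) (nat_lit 5) (@Lb.t (@Lb.fp (nat_lit 9) t670)))))))))))
noncomputable def l1650 : Lb := (@Lb.d (nat_lit 9) (nat_lit 9) (nat_lit 6) (@Lb.g g8 (@Lb.g g9 (@Lb.g g10 (@Lb.g g11 (@Lb.r r582 (@Lb.r r392 (@Lb.r r615 (@Lb.r r609 (@Lb.r r36 (@Lb.d (nat_lit 9) (nat_lit 34) (nat_lit 8) (@Lb.fm (nat_lit 9) t98))))))))))))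
noncomputable def l1651 : Lb := (@Lb.d (nat_lit 137) (nat_lit 256) (nat_lit 0) (@Lb.g g8 (@Lb.g g9 (@Lb.r r535 (@Lb.r r418 (@Lb.r r401 (@Lb.r r104 (@Lb.d (nat_lit 33) (nat_lit 37) (nat_lit 137) (@Lb.fp (nat_lit 3) t71)))))))))
noncomputable def l1652 : Lb := (@Lb.r r82 (@Lb.d (nat_lit 5) (nat_lit 42) (nat_lit 64) (@Lb.g g4 (@Lb.g g9 (@Lb.g g11 (@Lb.r r615 (@Lb.r r402 (@Lb.r r601 (@Lb.d (nat_lit 138) (nat_lit 40) (nat_lit 137) (@Lb.t (@Lb.fp (nat_lit 9) t50)))))))))))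
noncomputable def l1653 : Lb := (@Lb.d (nat_lit 2) (nat_lit 257) (nat_lit 72) (@Lb.g g8 (@Lb.g g9 (@Lb.g g11 (@Lb.r r134 (@Lb.r r328 (@Lb.r r423 (@Lb.r r401 (@Lb.d (nat_lit 9) (nat_lit 37) (nat_lit 137) (@Lb.t (@Lb.fm (nat_lit 9) t71)))))))))))
noncomputable def l1654 : Lb := (@Lb.d (nat_lit 4) (nat_lit 549) (nat_lit 1) (@Lb.r r154 (@Lb.r r101 (@Lb.r r651 (@Lb.r r644 (@Lb.g g7 (@Lb.d (nat_lit 64) (nat_lit 0) (nat_lit 64) (@Lb.t (@Lb.fp (nat_lit 3) t71)))))))))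
noncomputable def l1655 : Lb := (@Lb.d (nat_lit 146) (nat_lit 521) (nat_lit 66) (@Lb.g g8 (@Lb.g g9 (@Lb.g g10 (@Lb.g g11 (@Lb.r r683 (@Lb.r r618 (@Lb.r r612 (@Lb.r r2069 (@Lb.r r1060 (@Lb.d (nat_lit 265) (nat_lit 80) (nat_lit 665) (@Lb.fm (nat_lit 9) t102))))))))))))
noncomputable def l1656 : Lb := (@Lb.d (nat_lit 129) (nat_lit 9) (nat_lit 65) (@Lb.g g8 (@Lb.g g9 (@Lb.g g10 (@Lb.g g11 (@Lb.r r683 (@Lb.r r618 (@Lb.r r536 (@Lb.r r1045 (@Lb.r r2084 (@Lb.d (nat_lit 293) (nat_lit 168) (nat_lit 673) (@Lb.fp (nat_lit 9) t671))))))))))))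
noncomputable def l1657 : Lb := (@Lb.d (nat_lit 2) (nat_lit 265) (nat_lit 129) (@Lb.g g8 (@Lb.g g9 (@Lb.g g10 (@Lb.g g11 (@Lb.r r1699 (@Lb.r r1193 (@Lb.r r1192 (@Lb.r r1642 (@Lb.d (nat_lit 613) (nat_lit 37) (nat_lit 356) (@Lb.fm (nat_lit 9) t250)))))))))))
noncomputable def l1658 : Lb := (@Lb.d (nat_lit 2) (nat_lit 9) (nat_lit 130) (@Lb.g g8 (@Lb.g g9 (@Lb.g g10 (@Lb.g g11 (@Lb.r r643 (@Lb.r r297 (@Lb.r r360 (@Lb.r r582 (@Lb.r r132 (@Lb.d (nat_lit 129) (nat_lit 5) (nat_lit 72) (@Lb.fm (nat_lit 9) t98))))))))))))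
noncomputable def l1659 : Lb := (@Lb.r r323 (@Lb.d (nat_lit 2) (nat_lit 530) (nat_lit 2) (@Lb.g g8 (@Lb.g g9 (@Lb.g g10 (@Lb.r r427 (@Lb.r r342 (@Lb.r r169 (@Lb.d (nat_lit 404) (nat_lit 101) (nat_lit 322) (@Lb.t (@Lb.fp (nat_lit 9) t672)))))))))))
noncomputable def l1660 : Lb := (@Lb.d (nat_lit 582) (nat_lit 550) (nat_lit 86) (@Lb.r r410 (@Lb.r r148 (@Lb.r r2389 (@Lb.r r1707 (@Lb.g g7 (@Lb.g g6 (@Lb.g g5 (@Lb.d (nat_lit 16) (nat_lit 17) (nat_lit 8) (@Lb.t (@Lb.fp (nat_lit 9) t119)))))))))))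
noncomputable def l1661 : Lb := (@Lb.r r82 (@Lb.r r275 (@Lb.d (nat_lit 4) (nat_lit 329) (nat_lit 0) (@Lb.g g5 (@Lb.r r291 (@Lb.r r98 (@Lb.d (nat_lit 10) (nat_lit 133) (nat_lit 0) (@Lb.t (@Lb.fm (nat_lit 3) t673)))))))))
noncomputable def l1662 : Lb := (@Lb.r r82 (@Lb.r r275 (@Lb.d (nat_lit 0) (nat_lit 2) (nat_lit 0) (@Lb.g g4 (@Lb.g g9 (@Lb.r r2395 (@Lb.r r1189 (@Lb.r r98 (@Lb.d (nat_lit 298) (nat_lit 132) (nat_lit 34) (@Lb.fm (nat_lit 3) t673))))))))))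
noncomputable def l1663 : Lb := (@Lb.d (nat_lit 146) (nat_lit 2) (nat_lit 133) (@Lb.g g8 (@Lb.g g9 (@Lb.g g10 (@Lb.g g11 (@Lb.r r1634 (@Lb.r r612 (@Lb.r r1383 (@Lb.r r2325 (@Lb.r r1572 (@Lb.d (nat_lit 265) (nat_lit 9) (nat_lit 401) (@Lb.fp (nat_lit 9) t674))))))))))))
noncomputable def l1664 : Lb := (@Lb.d (nat_lit 2) (nat_lit 514) (nat_lit 130) (@Lb.g g8 (@Lb.g g9 (@Lb.g g10 (@Lb.g g11 (@Lb.r r427 (@Lb.r r405 (@Lb.r r1434 (@Lb.d (nat_lit 576) (nat_lit 88) (nat_lit 601) (@Lb.fm (nat_lit 9) t675))))))))))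
noncomputable def l1665 : Lb := (@Lb.d (nat_lit 0) (nat_lit 330) (nat_lit 10) (@Lb.r r101 (@Lb.r r24 (@Lb.g g6 (@Lb.d (nat_lit 0) (nat_lit 0) (nat_lit 5) (@Lb.t (@Lb.fm (nat_lit 3) t320)))))))
noncomputable def l1666 : Lb := (@Lb.d (nat_lit 0) (nat_lit 512) (nat_lit 608) (@Lb.r r2321 (@Lb.r r2386 (@Lb.r r2467 (@Lb.g g11 (@Lb.g g5 (@Lb.r r98 (@Lb.fp (nat_lit 3) t676))))))))
noncomputable def l1667 : Lb := (@Lb.d (nat_lit 0) (nat_lit 677) (nat_lit 0) (@Lb.g g5 (@Lb.d (nat_lit 0) (nat_lit 5) (nat_lit 598) (@Lb.t (@Lb.fm (nat_lit 3) t603)))))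
noncomputable def l1668 : Lb := (@Lb.r r609 (@Lb.r r363 (@Lb.r r356 (@Lb.r r154 (@Lb.d (nat_lit 32) (nat_lit 261) (nat_lit 32) (@Lb.fp (nat_lit 1) t39))))))
noncomputable def l1669 : Lb := (@Lb.d (nat_lit 0) (nat_lit 416) (nat_lit 130) (@Lb.g g5 (@Lb.g g10 (@Lb.g g11 (@Lb.r r2626 (@Lb.r r2627 (@Lb.d (nat_lit 0) (nat_lit 0) (nat_lit 362) (@Lb.t (@Lb.fm (nat_lit 9) t406)))))))))
noncomputable def l1670 : Lb := (@Lb.d (nat_lit 0) (nat_lit 512) (nat_lit 128) (@Lb.g g11 (@Lb.r r1602 (@Lb.r r579 (@Lb.r r1425 (@Lb.d (nat_lit 0) (nat_lit 0) (nat_lit 341) (@Lb.t (@Lb.fm (nat_lit 3) t279))))))))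
noncomputable def l1671 : Lb := (@Lb.d (nat_lit 8) (nat_lit 34) (nat_lit 130) (@Lb.g g9 (@Lb.g g10 (@Lb.g g11 (@Lb.r r387 (@Lb.r r2136 (@Lb.r r2438 (@Lb.r r593 (@Lb.d (nat_lit 338) (nat_lit 38) (nat_lit 649) (@Lb.t (@Lb.fm (nat_lit 9) t529)))))))))))
noncomputable def l1672 : Lb := (@Lb.r r323 (@Lb.d (nat_lit 2) (nat_lit 258) (nat_lit 0) (@Lb.g g8 (@Lb.g g9 (@Lb.g g10 (@Lb.r r2459 (@Lb.r r297 (@Lb.r r1384 (@Lb.r r2630 (@Lb.d (nat_lit 2) (nat_lit 64) (nat_lit 68) (@Lb.t (@Lb.fm (nat_lit 9) t677))))))))))))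
noncomputable def l1673 : Lb := (@Lb.d (nat_lit 0) (nat_lit 677) (nat_lit 64) (@Lb.g g5 (@Lb.g g11 (@Lb.r r531 (@Lb.d (nat_lit 0) (nat_lit 98) (nat_lit 134) (@Lb.fm (nat_lit 3) t257))))))
noncomputable def l1674 : Lb := (@Lb.r r275 (@Lb.d (nat_lit 0) (nat_lit 90) (nat_lit 40) (@Lb.g g9 (@Lb.g g6 (@Lb.r r1635 (@Lb.d (nat_lit 0) (nat_lit 80) (nat_lit 680) (@Lb.fm (nat_lit 3) t258)))))))
noncomputable def l1675 : Lb := (@Lb.d (nat_lit 0) (nat_lit 546) (nat_lit 97) (@Lb.g g9 (@Lb.g g6 (@Lb.g g11 (@Lb.r r1553 (@Lb.r r2451 (@Lb.d (nat_lit 0) (nat_lit 40) (nat_lit 545) (@Lb.t (@Lb.fp (nat_lit 9) t258)))))))))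
noncomputable def l1676 : Lb := (@Lb.r r355 (@Lb.d (nat_lit 0) (nat_lit 586) (nat_lit 34) (@Lb.g g5 (@Lb.g g10 (@Lb.r r1555 (@Lb.d (nat_lit 0) (nat_lit 128) (nat_lit 84) (@Lb.fm (nat_lit 3) t292)))))))
noncomputable def l1677 : Lb := (@Lb.d (nat_lit 8) (nat_lit 546) (nat_lit 41) (@Lb.g g9 (@Lb.g g6 (@Lb.r r536 (@Lb.r r603 (@Lb.r r2469 (@Lb.d (nat_lit 354) (nat_lit 161) (nat_lit 650) (@Lb.fm (nat_lit 3) t632))))))))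
noncomputable def l1678 : Lb := (@Lb.d (nat_lit 0) (nat_lit 512) (nat_lit 682) (@Lb.r r2641 (@Lb.r r579 (@Lb.r r2370 (@Lb.g g7 (@Lb.d (nat_lit 0) (nat_lit 0) (nat_lit 64) (@Lb.t (@Lb.fp (nat_lit 3) t76))))))))
noncomputable def l1679 : Lb := (@Lb.r r323 (@Lb.d (nat_lit 2) (nat_lit 544) (nat_lit 2) (@Lb.g g8 (@Lb.g g9 (@Lb.g g10 (@Lb.r r2647 (@Lb.r r74 (@Lb.r r1433 (@Lb.d (nat_lit 426) (nat_lit 80) (nat_lit 18) (@Lb.t (@Lb.fp (nat_lit 9) t221)))))))))))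
noncomputable def l1680 : Lb := (@Lb.r r1362 (@Lb.d (nat_lit 128) (nat_lit 36) (nat_lit 128) (@Lb.g g9 (@Lb.g g11 (@Lb.r r260 (@Lb.r r395 (@Lb.d (nat_lit 642) (nat_lit 70) (nat_lit 168) (@Lb.fm (nat_lit 3) t678))))))))
noncomputable def l1681 : Lb := (@Lb.r r82 (@Lb.d (nat_lit 128) (nat_lit 8) (nat_lit 328) (@Lb.g g9 (@Lb.g g11 (@Lb.r r2456 (@Lb.r r2138 (@Lb.r r1169 (@Lb.d (nat_lit 282) (nat_lit 74) (nat_lit 162) (@Lb.fp (nat_lit 3) t679)))))))))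
noncomputable def l1682 : Lb := (@Lb.d (nat_lit 0) (nat_lit 266) (nat_lit 533) (@Lb.r r1044 (@Lb.r r25 (@Lb.r r410 (@Lb.r r148 (@Lb.g g11 (@Lb.t (@Lb.fm (nat_lit 3) t266))))))))
noncomputable def l1683 : Lb := (@Lb.d (nat_lit 0) (nat_lit 578) (nat_lit 1) (@Lb.r r609 (@Lb.r r363 (@Lb.r r328 (@Lb.r r134 (@Lb.g g4 (@Lb.d (nat_lit 1) (nat_lit 0) (nat_lit 0) (@Lb.t (@Lb.fp (nat_lit 3) t167)))))))))
noncomputable def l1684 : Lb := (@Lb.d (nat_lit 8) (nat_lit 34) (nat_lit 0) (@Lb.g g9 (@Lb.r r536 (@Lb.r r2715 (@Lb.r r2178 (@Lb.r r2469 (@Lb.d (nat_lit 74) (nat_lit 102) (nat_lit 682) (@Lb.t (@Lb.fp (nat_lit 3) t64)))))))))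
noncomputable def l1685 : Lb := (@Lb.d (nat_lit 0) (nat_lit 512) (nat_lit 74) (@Lb.g g10 (@Lb.g g11 (@Lb.r r610 (@Lb.r r579 (@Lb.d (nat_lit 0) (nat_lit 33) (nat_lit 74) (@Lb.fp (nat_lit 3) t51)))))))
noncomputable def l1686 : Lb := (@Lb.r r280 (@Lb.r r1383 (@Lb.r r2178 (@Lb.r r1429 (@Lb.r r1572 (@Lb.d (nat_lit 2) (nat_lit 10) (nat_lit 18) (@Lb.fp (nat_lit 1) t229)))))))
noncomputable def l1687 : Lb := (@Lb.r r355 (@Lb.d (nat_lit 2) (nat_lit 682) (nat_lit 34) (@Lb.g g8 (@Lb.g g5 (@Lb.g g10 (@Lb.r r2627 (@Lb.r r24 (@Lb.d (nat_lit 10) (nat_lit 0) (nat_lit 425) (@Lb.t (@Lb.fp (nat_lit 9) t164))))))))))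
noncomputable def l1688 : Lb := (@Lb.r r82 (@Lb.g g9 (@Lb.r r1634 (@Lb.r r1553 (@Lb.d (nat_lit 0) (nat_lit 0) (nat_lit 640) (@Lb.t (@Lb.fp (nat_lit 3) t225)))))))
noncomputable def l1689 : Lb := (@Lb.r r82 (@Lb.d (nat_lit 8) (nat_lit 2) (nat_lit 0) (@Lb.g g5 (@Lb.r r662 (@Lb.r r360 (@Lb.r r343 (@Lb.r r2729 (@Lb.d (nat_lit 389) (nat_lit 40) (nat_lit 601) (@Lb.t (@Lb.fp (nat_lit 3) t602))))))))))
noncomputable def l1690 : Lb := (@Lb.d (nat_lit 0) (nat_lit 256) (nat_lit 128) (@Lb.g g7 (@Lb.t (@Lb.fm (nat_lit 3) t2))))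
noncomputable def l1691 : Lb := (@Lb.r r355 (@Lb.d (nat_lit 0) (nat_lit 682) (nat_lit 34) (@Lb.g g5 (@Lb.g g10 (@Lb.r r2627 (@Lb.d (nat_lit 0) (nat_lit 0) (nat_lit 425) (@Lb.fm (nat_lit 3) t406)))))))
noncomputable def l1692 : Lb := (@Lb.d (nat_lit 8) (nat_lit 256) (nat_lit 128) (@Lb.g g8 (@Lb.g g11 (@Lb.r r2370 (@Lb.r r1435 (@Lb.r r2581 (@Lb.r r292 (@Lb.d (nat_lit 74) (nat_lit 170) (nat_lit 161) (@Lb.fm (nat_lit 3) t680)))))))))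
noncomputable def l1693 : Lb := (@Lb.r r323 (@Lb.d (nat_lit 0) (nat_lit 0) (nat_lit 18) (@Lb.g g10 (@Lb.r r408 (@Lb.r r533 (@Lb.r r1303 (@Lb.r r2596 (@Lb.d (nat_lit 0) (nat_lit 10) (nat_lit 68) (@Lb.t (@Lb.fm (nat_lit 3) t100))))))))))
noncomputable def l1694 : Lb := (@Lb.d (nat_lit 1) (nat_lit 170) (nat_lit 580) (@Lb.r r1426 (@Lb.r r1637 (@Lb.r r1304 (@Lb.r r2371 (@Lb.g g7 (@Lb.g g6 (@Lb.g g5 (@Lb.d (nat_lit 16) (nat_lit 0) (nat_lit 65) (@Lb.t (@Lb.fm (nat_lit 9) t681)))))))))))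
noncomputable def l1695 : Lb := (@Lb.d (nat_lit 6) (nat_lit 554) (nat_lit 580) (@Lb.r r1426 (@Lb.r r1637 (@Lb.r r1304 (@Lb.r r2371 (@Lb.g g7 (@Lb.g g6 (@Lb.g g5 (@Lb.d (nat_lit 16) (nat_lit 0) (nat_lit 65) (@Lb.t (@Lb.fm (nat_lit 9) t681)))))))))))
noncomputable def l1696 : Lb := (@Lb.r r323 (@Lb.d (nat_lit 8) (nat_lit 290) (nat_lit 18) (@Lb.g g9 (@Lb.g g10 (@Lb.r r603 (@Lb.r r600 (@Lb.r r341 (@Lb.d (nat_lit 86) (nat_lit 17) (nat_lit 358) (@Lb.fm (nat_lit 3) t88)))))))))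
noncomputable def l1697 : Lb := (@Lb.d (nat_lit 40) (nat_lit 512) (nat_lit 128) (@Lb.g g8 (@Lb.g g11 (@Lb.r r2331 (@Lb.r r614 (@Lb.r r1637 (@Lb.r r1428 (@Lb.d (nat_lit 358) (nat_lit 149) (nat_lit 393) (@Lb.fp (nat_lit 3) t386)))))))))
noncomputable def l1698 : Lb := (@Lb.d (nat_lit 2) (nat_lit 265) (nat_lit 2) (@Lb.g g8 (@Lb.g g9 (@Lb.g g10 (@Lb.g g11 (@Lb.r r1706 (@Lb.r r648 (@Lb.r r2587 (@Lb.r r1313 (@Lb.r r36 (@Lb.d (nat_lit 129) (nat_lit 164) (nat_lit 321) (@Lb.fp (nat_lit 9) t98))))))))))))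
noncomputable def l1699 : Lb := (@Lb.d (nat_lit 169) (nat_lit 292) (nat_lit 666) (@Lb.r r665 (@Lb.r r600 (@Lb.r r603 (@Lb.g g6 (@Lb.g g5 (@Lb.d (nat_lit 4) (nat_lit 17) (nat_lit 33) (@Lb.r r387 (@Lb.fm (nat_lit 3) t602)))))))))
noncomputable def l1700 : Lb := (@Lb.r r81 (@Lb.g g10 (@Lb.g g11 (@Lb.r r1703 (@Lb.r r2392 (@Lb.r r1190 (@Lb.r r37 (@Lb.d (nat_lit 289) (nat_lit 0) (nat_lit 34) (@Lb.fm (nat_lit 3) t264)))))))))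
noncomputable def l1701 : Lb := (@Lb.d (nat_lit 169) (nat_lit 34) (nat_lit 596) (@Lb.r r665 (@Lb.r r600 (@Lb.r r603 (@Lb.g g6 (@Lb.g g5 (@Lb.d (nat_lit 4) (nat_lit 17) (nat_lit 33) (@Lb.r r387 (@Lb.fm (nat_lit 3) t682)))))))))
noncomputable def l1702 : Lb := (@Lb.d (nat_lit 0) (nat_lit 0) (nat_lit 130) (@Lb.g g10 (@Lb.g g11 (@Lb.r r2658 (@Lb.r r2659 (@Lb.r r2577 (@Lb.d (nat_lit 0) (nat_lit 133) (nat_lit 577) (@Lb.fp (nat_lit 3) t683))))))))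
noncomputable def l1703 : Lb := (@Lb.r r355 (@Lb.d (nat_lit 0) (nat_lit 553) (nat_lit 34) (@Lb.g g9 (@Lb.g g10 (@Lb.r r1299 (@Lb.r r1681 (@Lb.d (nat_lit 0) (nat_lit 138) (nat_lit 293) (@Lb.fm (nat_lit 3) t684))))))))
noncomputable def l1704 : Lb := (@Lb.d (nat_lit 2) (nat_lit 9) (nat_lit 2) (@Lb.g g8 (@Lb.g g9 (@Lb.g g10 (@Lb.g g11 (@Lb.r r1671 (@Lb.r r297 (@Lb.r r2376 (@Lb.r r1638 (@Lb.d (nat_lit 409) (nat_lit 24) (nat_lit 596) (@Lb.fm (nat_lit 9) t301)))))))))))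
noncomputable def l1705 : Lb := (@Lb.d (nat_lit 2) (nat_lit 265) (nat_lit 2) (@Lb.g g8 (@Lb.g g9 (@Lb.g g10 (@Lb.r r2583 (@Lb.r r297 (@Lb.r r2376 (@Lb.r r1638 (@Lb.d (nat_lit 658) (nat_lit 153) (nat_lit 596) (@Lb.t (@Lb.fp (nat_lit 9) t79)))))))))))
noncomputable def l1706 : Lb := (@Lb.r r82 (@Lb.r r275 (@Lb.d (nat_lit 33) (nat_lit 577) (nat_lit 0) (@Lb.g g8 (@Lb.g g5 (@Lb.r r2403 (@Lb.r r102 (@Lb.r r168 (@Lb.d (nat_lit 533) (nat_lit 130) (nat_lit 1) (@Lb.fm (nat_lit 3) t685))))))))))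
noncomputable def l1707 : Lb := (@Lb.r r82 (@Lb.r r275 (@Lb.d (nat_lit 34) (nat_lit 65) (nat_lit 0) (@Lb.g g8 (@Lb.g g5 (@Lb.r r2403 (@Lb.r r102 (@Lb.r r168 (@Lb.d (nat_lit 533) (nat_lit 132) (nat_lit 2) (@Lb.fm (nat_lit 3) t685))))))))))
noncomputable def l1708 : Lb := (@Lb.r r24 (@Lb.d (nat_lit 0) (nat_lit 64) (nat_lit 0) (@Lb.fm (nat_lit 1) t2)))
noncomputable def l1709 : Lb := (@Lb.r r90 (@Lb.r r283 (@Lb.d (nat_lit 38) (nat_lit 160) (nat_lit 0) (@Lb.g g8 (@Lb.g g9 (@Lb.r r1555 (@Lb.r r70 (@Lb.r r1668 (@Lb.d (nat_lit 418) (nat_lit 2) (nat_lit 550) (@Lb.fp (nat_lit 3) t168))))))))))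
noncomputable def l1710 : Lb := (@Lb.d (nat_lit 0) (nat_lit 10) (nat_lit 130) (@Lb.g g9 (@Lb.g g10 (@Lb.g g11 (@Lb.r r2727 (@Lb.r r2457 (@Lb.r r356 (@Lb.r r154 (@Lb.d (nat_lit 521) (nat_lit 5) (nat_lit 32) (@Lb.t (@Lb.fm (nat_lit 9) t525)))))))))))
noncomputable def l1711 : Lb := (@Lb.r r82 (@Lb.r r275 (@Lb.d (nat_lit 34) (nat_lit 642) (nat_lit 0) (@Lb.g g8 (@Lb.g g9 (@Lb.r r150 (@Lb.r r360 (@Lb.r r391 (@Lb.d (nat_lit 0) (nat_lit 65) (nat_lit 533) (@Lb.fm (nat_lit 3) t587))))))))))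
noncomputable def l1712 : Lb := (@Lb.d (nat_lit 34) (nat_lit 66) (nat_lit 16) (@Lb.r r154 (@Lb.r r660 (@Lb.r r279 (@Lb.r r673 (@Lb.g g7 (@Lb.g g6 (@Lb.g g5 (@Lb.d (nat_lit 0) (nat_lit 6) (nat_lit 65) (@Lb.t (@Lb.fp (nat_lit 9) t686)))))))))))
noncomputable def l1713 : Lb := (@Lb.d (nat_lit 0) (nat_lit 598) (nat_lit 80) (@Lb.r r21 (@Lb.r r279 (@Lb.r r612 (@Lb.g g7 (@Lb.g g10 (@Lb.d (nat_lit 64) (nat_lit 0) (nat_lit 65) (@Lb.r r145 (@Lb.fp (nat_lit 3) t686)))))))))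
noncomputable def l1714 : Lb := (@Lb.d (nat_lit 34) (nat_lit 322) (nat_lit 16) (@Lb.r r154 (@Lb.r r660 (@Lb.r r279 (@Lb.r r673 (@Lb.g g7 (@Lb.g g5 (@Lb.d (nat_lit 0) (nat_lit 1) (nat_lit 64) (@Lb.fm (nat_lit 3) t687)))))))))
noncomputable def l1715 : Lb := (@Lb.d (nat_lit 36) (nat_lit 522) (nat_lit 34) (@Lb.r r154 (@Lb.r r660 (@Lb.r r1637 (@Lb.r r2711 (@Lb.g g7 (@Lb.g g6 (@Lb.g g5 (@Lb.d (nat_lit 0) (nat_lit 2) (nat_lit 10) (@Lb.t (@Lb.fm (nat_lit 9) t688)))))))))))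
noncomputable def l1716 : Lb := (@Lb.d (nat_lit 34) (nat_lit 322) (nat_lit 16) (@Lb.r r154 (@Lb.r r660 (@Lb.r r279 (@Lb.r r673 (@Lb.g g7 (@Lb.g g6 (@Lb.g g5 (@Lb.d (nat_lit 0) (nat_lit 1) (nat_lit 64) (@Lb.t (@Lb.fp (nat_lit 9) t686)))))))))))
noncomputable def l1717 : Lb := (@Lb.d (nat_lit 0) (nat_lit 528) (nat_lit 74) (@Lb.g g9 (@Lb.g g10 (@Lb.g g11 (@Lb.r r2403 (@Lb.r r2193 (@Lb.d (nat_lit 0) (nat_lit 38) (nat_lit 86) (@Lb.t (@Lb.fm (nat_lit 9) t484)))))))))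
noncomputable def l1718 : Lb := (@Lb.d (nat_lit 530) (nat_lit 0) (nat_lit 17) (@Lb.r r24 (@Lb.r r101 (@Lb.r r2403 (@Lb.g g6 (@Lb.d (nat_lit 0) (nat_lit 4) (nat_lit 1) (@Lb.t (@Lb.fm (nat_lit 3) t233))))))))
noncomputable def l1719 : Lb := (@Lb.d (nat_lit 64) (nat_lit 256) (nat_lit 70) (@Lb.r r24 (@Lb.r r421 (@Lb.r r418 (@Lb.r r2371 (@Lb.g g6 (@Lb.g g5 (@Lb.d (nat_lit 0) (nat_lit 18) (nat_lit 1) (@Lb.fp (nat_lit 3) t233)))))))))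
noncomputable def l1720 : Lb := (@Lb.d (nat_lit 418) (nat_lit 0) (nat_lit 422) (@Lb.r r24 (@Lb.r r101 (@Lb.r r2658 (@Lb.r r2467 (@Lb.g g7 (@Lb.g g6 (@Lb.g g5 (@Lb.d (nat_lit 0) (nat_lit 0) (nat_lit 65) (@Lb.t (@Lb.fp (nat_lit 9) t689)))))))))))
noncomputable def l1721 : Lb := (@Lb.d (nat_lit 0) (nat_lit 256) (nat_lit 136) (@Lb.g g11 (@Lb.r r24 (@Lb.r r101 (@Lb.d (nat_lit 0) (nat_lit 81) (nat_lit 425) (@Lb.t (@Lb.fp (nat_lit 3) t153)))))))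
noncomputable def l1722 : Lb := (@Lb.r r323 (@Lb.d (nat_lit 2) (nat_lit 258) (nat_lit 0) (@Lb.g g8 (@Lb.g g9 (@Lb.g g10 (@Lb.r r427 (@Lb.r r106 (@Lb.r r25 (@Lb.d (nat_lit 9) (nat_lit 2) (nat_lit 0) (@Lb.t (@Lb.fm (nat_lit 9) t51)))))))))))
noncomputable def l1723 : Lb := (@Lb.d (nat_lit 0) (nat_lit 514) (nat_lit 0) (@Lb.g g8 (@Lb.g g9 (@Lb.r r25 (@Lb.d (nat_lit 9) (nat_lit 0) (nat_lit 0) (@Lb.fm (nat_lit 3) t2))))))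
noncomputable def l1724 : Lb := (@Lb.d (nat_lit 17) (nat_lit 0) (nat_lit 1) (@Lb.r r24 (@Lb.r r101 (@Lb.r r323 (@Lb.g g10 (@Lb.g g5 (@Lb.d (nat_lit 0) (nat_lit 0) (nat_lit 2) (@Lb.r r387 (@Lb.fp (nat_lit 3) t51)))))))))
noncomputable def l1725 : Lb := (@Lb.d (nat_lit 0) (nat_lit 545) (nat_lit 2) (@Lb.g g9 (@Lb.g g10 (@Lb.r r1411 (@Lb.r r418 (@Lb.r r421 (@Lb.r r24 (@Lb.d (nat_lit 128) (nat_lit 0) (nat_lit 137) (@Lb.fp (nat_lit 3) t690)))))))))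
noncomputable def l1726 : Lb := (@Lb.d (nat_lit 0) (nat_lit 297) (nat_lit 4) (@Lb.r r402 (@Lb.g g11 (@Lb.g g6 (@Lb.g g5 (@Lb.d (nat_lit 0) (nat_lit 0) (nat_lit 128) (@Lb.t (@Lb.fp (nat_lit 9) t691))))))))
noncomputable def l1727 : Lb := (@Lb.d (nat_lit 40) (nat_lit 1) (nat_lit 2) (@Lb.g g9 (@Lb.g g10 (@Lb.g g7 (@Lb.r r72 (@Lb.r r1110 (@Lb.r r2201 (@Lb.d (nat_lit 521) (nat_lit 137) (nat_lit 17) (@Lb.t (@Lb.fm (nat_lit 9) t690))))))))))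
noncomputable def l1728 : Lb := (@Lb.d (nat_lit 0) (nat_lit 546) (nat_lit 130) (@Lb.g g9 (@Lb.g g10 (@Lb.g g11 (@Lb.r r387 (@Lb.r r1442 (@Lb.r r1445 (@Lb.r r24 (@Lb.d (nat_lit 640) (nat_lit 0) (nat_lit 425) (@Lb.t (@Lb.fp (nat_lit 9) t692)))))))))))
noncomputable def l1729 : Lb := (@Lb.d (nat_lit 582) (nat_lit 129) (nat_lit 322) (@Lb.r r2308 (@Lb.r r2325 (@Lb.r r1643 (@Lb.g g10 (@Lb.g g5 (@Lb.g g4 (@Lb.d (nat_lit 18) (nat_lit 1) (nat_lit 10) (@Lb.r r387 (@Lb.t (@Lb.fp (nat_lit 9) t693)))))))))))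
noncomputable def l1730 : Lb := (@Lb.g g11 (@Lb.r r101 (@Lb.r r24 (@Lb.d (nat_lit 514) (nat_lit 512) (nat_lit 17) (@Lb.t (@Lb.fp (nat_lit 3) t319))))))
noncomputable def l1731 : Lb := (@Lb.d (nat_lit 0) (nat_lit 612) (nat_lit 598) (@Lb.r r1346 (@Lb.r r2707 (@Lb.g g6 (@Lb.t (@Lb.fp (nat_lit 3) t356))))))
noncomputable def l1732 : Lb := (@Lb.r r82 (@Lb.d (nat_lit 34) (nat_lit 514) (nat_lit 0) (@Lb.g g8 (@Lb.g g9 (@Lb.g g11 (@Lb.r r1571 (@Lb.r r582 (@Lb.r r1177 (@Lb.r r408 (@Lb.d (nat_lit 345) (nat_lit 26) (nat_lit 586) (@Lb.t (@Lb.fm (nat_lit 9) t264))))))))))))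
noncomputable def l1733 : Lb := (@Lb.d (nat_lit 0) (nat_lit 256) (nat_lit 136) (@Lb.g g11 (@Lb.r r101 (@Lb.r r24 (@Lb.d (nat_lit 514) (nat_lit 0) (nat_lit 154) (@Lb.t (@Lb.fp (nat_lit 3) t319)))))))
noncomputable def l1734 : Lb := (@Lb.d (nat_lit 128) (nat_lit 0) (nat_lit 130) (@Lb.g g10 (@Lb.g g11 (@Lb.r r264 (@Lb.r r279 (@Lb.r r161 (@Lb.r r98 (@Lb.d (nat_lit 97) (nat_lit 6) (nat_lit 170) (@Lb.fm (nat_lit 3) t97)))))))))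
noncomputable def l1735 : Lb := (@Lb.d (nat_lit 2) (nat_lit 2) (nat_lit 2) (@Lb.g g8 (@Lb.g g9 (@Lb.g g10 (@Lb.g g11 (@Lb.r r427 (@Lb.r r106 (@Lb.r r25 (@Lb.d (nat_lit 9) (nat_lit 9) (nat_lit 137) (@Lb.fp (nat_lit 9) t51))))))))))
noncomputable def l1736 : Lb := (@Lb.d (nat_lit 5) (nat_lit 165) (nat_lit 666) (@Lb.r r597 (@Lb.r r279 (@Lb.r r612 (@Lb.g g7 (@Lb.g g10 (@Lb.g g5 (@Lb.d (nat_lit 20) (nat_lit 1) (nat_lit 66) (@Lb.t (@Lb.fm (nat_lit 9) t694))))))))))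
noncomputable def l1737 : Lb := (@Lb.d (nat_lit 130) (nat_lit 257) (nat_lit 0) (@Lb.g g8 (@Lb.g g9 (@Lb.r r535 (@Lb.r r418 (@Lb.r r401 (@Lb.r r104 (@Lb.d (nat_lit 36) (nat_lit 38) (nat_lit 137) (@Lb.fp (nat_lit 3) t71)))))))))
noncomputable def l1738 : Lb := (@Lb.d (nat_lit 2) (nat_lit 512) (nat_lit 0) (@Lb.g g8 (@Lb.t (@Lb.fp (nat_lit 3) t2))))
noncomputable def l1739 : Lb := (@Lb.d (nat_lit 9) (nat_lit 0) (nat_lit 66) (@Lb.g g8 (@Lb.g g10 (@Lb.g g11 (@Lb.r r1575 (@Lb.r r597 (@Lb.r r98 (@Lb.r r2436 (@Lb.d (nat_lit 610) (nat_lit 137) (nat_lit 664) (@Lb.t (@Lb.fp (nat_lit 9) t386)))))))))))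
noncomputable def l1740 : Lb := (@Lb.d (nat_lit 152) (nat_lit 0) (nat_lit 130) (@Lb.g g8 (@Lb.g g10 (@Lb.g g11 (@Lb.r r2691 (@Lb.r r154 (@Lb.r r1701 (@Lb.r r1364 (@Lb.d (nat_lit 342) (nat_lit 33) (nat_lit 405) (@Lb.t (@Lb.fp (nat_lit 9) t695)))))))))))
noncomputable def l1741 : Lb := (@Lb.d (nat_lit 10) (nat_lit 256) (nat_lit 73) (@Lb.g g8 (@Lb.g g10 (@Lb.g g11 (@Lb.r r2691 (@Lb.r r1109 (@Lb.r r2658 (@Lb.r r2436 (@Lb.d (nat_lit 610) (nat_lit 165) (nat_lit 660) (@Lb.t (@Lb.fp (nat_lit 9) t311)))))))))))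
noncomputable def l1742 : Lb := (@Lb.d (nat_lit 389) (nat_lit 150) (nat_lit 546) (@Lb.r r2325 (@Lb.r r2390 (@Lb.r r683 (@Lb.g g7 (@Lb.g g6 (@Lb.g g5 (@Lb.g g4 (@Lb.d (nat_lit 8) (nat_lit 17) (nat_lit 65) (@Lb.fm (nat_lit 9) t309))))))))))
noncomputable def l1743 : Lb := (@Lb.r r21 (@Lb.d (nat_lit 32) (nat_lit 256) (nat_lit 1) (@Lb.g g8 (@Lb.g g10 (@Lb.r r2439 (@Lb.r r1608 (@Lb.r r2662 (@Lb.r r97 (@Lb.d (nat_lit 645) (nat_lit 162) (nat_lit 256) (@Lb.fm (nat_lit 3) t50))))))))))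
noncomputable def l1744 : Lb := (@Lb.r r70 (@Lb.d (nat_lit 386) (nat_lit 256) (nat_lit 0) (@Lb.g g8 (@Lb.r r74 (@Lb.d (nat_lit 577) (nat_lit 0) (nat_lit 0) (@Lb.t (@Lb.fp (nat_lit 3) t696)))))))
noncomputable def l1745 : Lb := (@Lb.d (nat_lit 2) (nat_lit 513) (nat_lit 2) (@Lb.g g8 (@Lb.g g9 (@Lb.g g10 (@Lb.r r1707 (@Lb.r r2713 (@Lb.r r1178 (@Lb.r r1156 (@Lb.d (nat_lit 553) (nat_lit 65) (nat_lit 324) (@Lb.t (@Lb.fm (nat_lit 9) t284)))))))))))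
noncomputable def l1746 : Lb := (@Lb.d (nat_lit 2) (nat_lit 514) (nat_lit 2) (@Lb.g g8 (@Lb.g g9 (@Lb.g g10 (@Lb.r r683 (@Lb.r r1689 (@Lb.r r1178 (@Lb.r r1156 (@Lb.d (nat_lit 553) (nat_lit 65) (nat_lit 681) (@Lb.t (@Lb.fm (nat_lit 9) t284)))))))))))
noncomputable def l1747 : Lb := (@Lb.r r82 (@Lb.d (nat_lit 41) (nat_lit 513) (nat_lit 0) (@Lb.g g8 (@Lb.g g9 (@Lb.r r1571 (@Lb.r r582 (@Lb.r r2577 (@Lb.r r2180 (@Lb.d (nat_lit 548) (nat_lit 145) (nat_lit 594) (@Lb.fp (nat_lit 3) t428))))))))))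
noncomputable def l1748 : Lb := (@Lb.d (nat_lit 2) (nat_lit 514) (nat_lit 2) (@Lb.g g8 (@Lb.g g9 (@Lb.g g10 (@Lb.r r683 (@Lb.r r1689 (@Lb.r r1178 (@Lb.r r1156 (@Lb.d (nat_lit 554) (nat_lit 65) (nat_lit 612) (@Lb.t (@Lb.fm (nat_lit 9) t284)))))))))))
noncomputable def l1749 : Lb := (@Lb.d (nat_lit 9) (nat_lit 264) (nat_lit 1) (@Lb.g g8 (@Lb.g g10 (@Lb.g g11 (@Lb.r r1575 (@Lb.r r2129 (@Lb.r r1638 (@Lb.r r2436 (@Lb.d (nat_lit 617) (nat_lit 129) (nat_lit 648) (@Lb.t (@Lb.fp (nat_lit 9) t386)))))))))))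
noncomputable def l1750 : Lb := (@Lb.d (nat_lit 0) (nat_lit 516) (nat_lit 1) (@Lb.g g10 (@Lb.r r1427 (@Lb.d (nat_lit 0) (nat_lit 137) (nat_lit 1) (@Lb.t (@Lb.fp (nat_lit 3) t697))))))
noncomputable def l1751 : Lb := (@Lb.d (nat_lit 0) (nat_lit 512) (nat_lit 2) (@Lb.g g10 (@Lb.g g11 (@Lb.r r642 (@Lb.r r2707 (@Lb.r r2626 (@Lb.d (nat_lit 0) (nat_lit 17) (nat_lit 276) (@Lb.fm (nat_lit 3) t305))))))))
noncomputable def l1752 : Lb := (@Lb.d (nat_lit 64) (nat_lit 33) (nat_lit 73) (@Lb.g g8 (@Lb.g g9 (@Lb.g g10 (@Lb.g g11 (@Lb.r r427 (@Lb.r r388 (@Lb.r r2118 (@Lb.r r1156 (@Lb.d (nat_lit 292) (nat_lit 72) (nat_lit 290) (@Lb.fp (nat_lit 9) t482)))))))))))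
noncomputable def l1753 : Lb := (@Lb.d (nat_lit 2) (nat_lit 514) (nat_lit 130) (@Lb.g g8 (@Lb.g g9 (@Lb.g g10 (@Lb.g g11 (@Lb.r r292 (@Lb.r r1675 (@Lb.r r2698 (@Lb.r r1381 (@Lb.r r2692 (@Lb.d (nat_lit 5) (nat_lit 96) (nat_lit 674) (@Lb.fm (nat_lit 9) t468))))))))))))
noncomputable def l1754 : Lb := (@Lb.d (nat_lit 0) (nat_lit 512) (nat_lit 138) (@Lb.g g10 (@Lb.g g11 (@Lb.r r579 (@Lb.d (nat_lit 0) (nat_lit 0) (nat_lit 16) (@Lb.fp (nat_lit 3) t2))))))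
noncomputable def l1755 : Lb := (@Lb.d (nat_lit 0) (nat_lit 520) (nat_lit 9) (@Lb.g g10 (@Lb.r r101 (@Lb.d (nat_lit 330) (nat_lit 98) (nat_lit 386) (@Lb.t (@Lb.fm (nat_lit 3) t240))))))
noncomputable def l1756 : Lb := (@Lb.d (nat_lit 33) (nat_lit 2) (nat_lit 1) (@Lb.g g8 (@Lb.g g9 (@Lb.g g10 (@Lb.r r1387 (@Lb.r r2434 (@Lb.r r601 (@Lb.r r580 (@Lb.d (nat_lit 153) (nat_lit 130) (nat_lit 256) (@Lb.t (@Lb.fp (nat_lit 9) t394)))))))))))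
noncomputable def l1757 : Lb := (@Lb.d (nat_lit 10) (nat_lit 0) (nat_lit 73) (@Lb.g g8 (@Lb.g g10 (@Lb.g g11 (@Lb.r r602 (@Lb.r r1429 (@Lb.r r1643 (@Lb.r r1608 (@Lb.d (nat_lit 106) (nat_lit 128) (nat_lit 546) (@Lb.t (@Lb.fm (nat_lit 9) t282)))))))))))
noncomputable def l1758 : Lb := (@Lb.d (nat_lit 0) (nat_lit 0) (nat_lit 64) (@Lb.g g7 (@Lb.d (nat_lit 0) (nat_lit 0) (nat_lit 148) (@Lb.t (@Lb.fm (nat_lit 3) t2)))))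
noncomputable def l1759 : Lb := (@Lb.d (nat_lit 0) (nat_lit 256) (nat_lit 10) (@Lb.g g10 (@Lb.d (nat_lit 0) (nat_lit 0) (nat_lit 5) (@Lb.t (@Lb.fp (nat_lit 3) t2)))))
noncomputable def l1760 : Lb := (@Lb.d (nat_lit 8) (nat_lit 4) (nat_lit 2) (@Lb.g g9 (@Lb.g g10 (@Lb.r r2659 (@Lb.r r2634 (@Lb.r r2644 (@Lb.r r1321 (@Lb.d (nat_lit 258) (nat_lit 88) (nat_lit 388) (@Lb.fm (nat_lit 3) t467)))))))))
noncomputable def l1761 : Lb := (@Lb.d (nat_lit 518) (nat_lit 16) (nat_lit 256) (@Lb.r r279 (@Lb.r r612 (@Lb.r r101 (@Lb.r r2714 (@Lb.g g7 (@Lb.g g6 (@Lb.g g4 (@Lb.d (nat_lit 0) (nat_lit 16) (nat_lit 134) (@Lb.t (@Lb.fp (nat_lit 9) t482)))))))))))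
noncomputable def l1762 : Lb := (@Lb.d (nat_lit 2) (nat_lit 258) (nat_lit 130) (@Lb.g g8 (@Lb.g g9 (@Lb.g g10 (@Lb.g g11 (@Lb.r r2218 (@Lb.r r420 (@Lb.r r283 (@Lb.r r1557 (@Lb.r r1060 (@Lb.d (nat_lit 642) (nat_lit 66) (nat_lit 330) (@Lb.fm (nat_lit 9) t284))))))))))))
noncomputable def l1763 : Lb := (@Lb.d (nat_lit 96) (nat_lit 549) (nat_lit 32) (@Lb.r r593 (@Lb.r r134 (@Lb.r r531 (@Lb.g g5 (@Lb.g g4 (@Lb.d (nat_lit 1) (nat_lit 17) (nat_lit 0) (@Lb.fm (nat_lit 3) t31))))))))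
noncomputable def l1764 : Lb := (@Lb.d (nat_lit 0) (nat_lit 512) (nat_lit 160) (@Lb.r r1346 (@Lb.r r387 (@Lb.g g11 (@Lb.g g10 (@Lb.fm (nat_lit 3) t2))))))
noncomputable def l1765 : Lb := (@Lb.d (nat_lit 9) (nat_lit 256) (nat_lit 130) (@Lb.g g8 (@Lb.g g10 (@Lb.g g11 (@Lb.r r2138 (@Lb.r r1685 (@Lb.r r2455 (@Lb.r r1608 (@Lb.d (nat_lit 97) (nat_lit 0) (nat_lit 546) (@Lb.t (@Lb.fp (nat_lit 9) t282)))))))))))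
noncomputable def l1766 : Lb := (@Lb.d (nat_lit 0) (nat_lit 256) (nat_lit 72) (@Lb.g g10 (@Lb.g g11 (@Lb.r r2690 (@Lb.d (nat_lit 0) (nat_lit 0) (nat_lit 346) (@Lb.fp (nat_lit 3) t2))))))
noncomputable def l1767 : Lb := (@Lb.r r331 (@Lb.d (nat_lit 673) (nat_lit 258) (nat_lit 2) (@Lb.g g8 (@Lb.g g9 (@Lb.g g10 (@Lb.r r362 (@Lb.r r1411 (@Lb.r r25 (@Lb.d (nat_lit 9) (nat_lit 166) (nat_lit 616) (@Lb.t (@Lb.fm (nat_lit 9) t394)))))))))))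
noncomputable def l1768 : Lb := (@Lb.d (nat_lit 10) (nat_lit 0) (nat_lit 130) (@Lb.g g8 (@Lb.g g10 (@Lb.g g11 (@Lb.r r2138 (@Lb.r r1685 (@Lb.r r2455 (@Lb.r r1608 (@Lb.d (nat_lit 97) (nat_lit 0) (nat_lit 546) (@Lb.t (@Lb.fp (nat_lit 9) t282)))))))))))
noncomputable def l1769 : Lb := (@Lb.r r323 (@Lb.g g6 (@Lb.r r1411 (@Lb.r r1090 (@Lb.t (@Lb.p (nat_lit 1) (@Lb.fm (nat_lit 3) t2)))))))
noncomputable def l1770 : Lb := (@Lb.d (nat_lit 0) (nat_lit 256) (nat_lit 128) (@Lb.g g11 (@Lb.d (nat_lit 0) (nat_lit 0) (nat_lit 64) (@Lb.t (@Lb.fp (nat_lit 3) t2)))))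
noncomputable def l1771 : Lb := (@Lb.g g7 (@Lb.r r1346 (@Lb.r r387 (@Lb.d (nat_lit 0) (nat_lit 512) (nat_lit 512) (@Lb.t (@Lb.fm (nat_lit 3) t2))))))
noncomputable def l1772 : Lb := (@Lb.r r323 (@Lb.d (nat_lit 137) (nat_lit 513) (nat_lit 0) (@Lb.g g8 (@Lb.g g9 (@Lb.g g10 (@Lb.r r674 (@Lb.r r391 (@Lb.r r145 (@Lb.r r612 (@Lb.d (nat_lit 144) (nat_lit 16) (nat_lit 136) (@Lb.t (@Lb.fp (nat_lit 9) t51))))))))))))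
noncomputable def l1773 : Lb := (@Lb.r r323 (@Lb.d (nat_lit 130) (nat_lit 2) (nat_lit 0) (@Lb.g g8 (@Lb.g g9 (@Lb.g g10 (@Lb.r r674 (@Lb.r r391 (@Lb.r r145 (@Lb.r r612 (@Lb.d (nat_lit 144) (nat_lit 21) (nat_lit 137) (@Lb.t (@Lb.fp (nat_lit 9) t51))))))))))))
noncomputable def l1774 : Lb := (@Lb.g g10 (@Lb.d (nat_lit 608) (nat_lit 256) (nat_lit 610) (@Lb.t (@Lb.fp (nat_lit 3) t698))))
noncomputable def l1775 : Lb := (@Lb.g g10 (@Lb.r r24 (@Lb.r r101 (@Lb.d (nat_lit 0) (nat_lit 133) (nat_lit 0) (@Lb.t (@Lb.fp (nat_lit 3) t126))))))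
noncomputable def l1776 : Lb := (@Lb.r r70 (@Lb.r r263 (@Lb.d (nat_lit 544) (nat_lit 514) (nat_lit 0) (@Lb.g g8 (@Lb.g g9 (@Lb.r r406 (@Lb.r r2627 (@Lb.r r25 (@Lb.d (nat_lit 9) (nat_lit 80) (nat_lit 576) (@Lb.fm (nat_lit 3) t394))))))))))
noncomputable def l1777 : Lb := (@Lb.d (nat_lit 0) (nat_lit 514) (nat_lit 130) (@Lb.g g8 (@Lb.g g9 (@Lb.g g10 (@Lb.g g11 (@Lb.r r427 (@Lb.r r145 (@Lb.r r356 (@Lb.r r154 (@Lb.r r132 (@Lb.d (nat_lit 9) (nat_lit 2) (nat_lit 137) (@Lb.fm (nat_lit 9) t61))))))))))))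
noncomputable def l1778 : Lb := (@Lb.d (nat_lit 0) (nat_lit 512) (nat_lit 130) (@Lb.g g8 (@Lb.g g9 (@Lb.g g10 (@Lb.g g11 (@Lb.r r2475 (@Lb.r r2193 (@Lb.r r356 (@Lb.r r154 (@Lb.r r132 (@Lb.d (nat_lit 521) (nat_lit 9) (nat_lit 153) (@Lb.fm (nat_lit 9) t221))))))))))))
noncomputable def l1779 : Lb := (@Lb.d (nat_lit 0) (nat_lit 2) (nat_lit 130) (@Lb.g g8 (@Lb.g g9 (@Lb.g g10 (@Lb.g g11 (@Lb.r r427 (@Lb.r r145 (@Lb.r r356 (@Lb.r r154 (@Lb.r r132 (@Lb.d (nat_lit 9) (nat_lit 9) (nat_lit 136) (@Lb.fm (nat_lit 9) t61))))))))))))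
noncomputable def l1780 : Lb := (@Lb.d (nat_lit 8) (nat_lit 8) (nat_lit 128) (@Lb.g g8 (@Lb.g g10 (@Lb.g g11 (@Lb.r r2475 (@Lb.r r1121 (@Lb.r r2646 (@Lb.r r2436 (@Lb.d (nat_lit 101) (nat_lit 73) (nat_lit 681) (@Lb.t (@Lb.fp (nat_lit 9) t386)))))))))))
noncomputable def l1781 : Lb := (@Lb.d (nat_lit 8) (nat_lit 554) (nat_lit 0) (@Lb.g g5 (@Lb.r r1704 (@Lb.r r1707 (@Lb.r r2730 (@Lb.r r681 (@Lb.d (nat_lit 426) (nat_lit 41) (nat_lit 137) (@Lb.t (@Lb.fm (nat_lit 3) t322)))))))))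
noncomputable def l1782 : Lb := (@Lb.d (nat_lit 2) (nat_lit 258) (nat_lit 2) (@Lb.g g8 (@Lb.g g9 (@Lb.g g10 (@Lb.g g11 (@Lb.r r427 (@Lb.r r145 (@Lb.r r356 (@Lb.r r154 (@Lb.r r132 (@Lb.d (nat_lit 9) (nat_lit 2) (nat_lit 16) (@Lb.fm (nat_lit 9) t221))))))))))))
noncomputable def l1783 : Lb := (@Lb.d (nat_lit 32) (nat_lit 514) (nat_lit 130) (@Lb.g g9 (@Lb.g g10 (@Lb.g g11 (@Lb.r r419 (@Lb.r r149 (@Lb.r r100 (@Lb.r r410 (@Lb.d (nat_lit 153) (nat_lit 21) (nat_lit 136) (@Lb.t (@Lb.fp (nat_lit 9) t61)))))))))))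
noncomputable def l1784 : Lb := (@Lb.r r82 (@Lb.r r275 (@Lb.d (nat_lit 1) (nat_lit 576) (nat_lit 0) (@Lb.g g4 (@Lb.g g9 (@Lb.r r291 (@Lb.r r98 (@Lb.d (nat_lit 0) (nat_lit 2) (nat_lit 0) (@Lb.fp (nat_lit 3) t5)))))))))
noncomputable def l1785 : Lb := (@Lb.r r323 (@Lb.d (nat_lit 130) (nat_lit 34) (nat_lit 0) (@Lb.g g8 (@Lb.g g9 (@Lb.g g10 (@Lb.r r599 (@Lb.r r98 (@Lb.r r408 (@Lb.r r101 (@Lb.d (nat_lit 26) (nat_lit 41) (nat_lit 20) (@Lb.t (@Lb.fp (nat_lit 9) t221))))))))))))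
noncomputable def l1786 : Lb := (@Lb.r r82 (@Lb.r r275 (@Lb.d (nat_lit 34) (nat_lit 264) (nat_lit 0) (@Lb.g g8 (@Lb.g g9 (@Lb.r r427 (@Lb.r r582 (@Lb.r r408 (@Lb.d (nat_lit 152) (nat_lit 25) (nat_lit 16) (@Lb.fp (nat_lit 3) t699))))))))))
noncomputable def l1787 : Lb := (@Lb.r r609 (@Lb.r r363 (@Lb.r r328 (@Lb.r r134 (@Lb.d (nat_lit 17) (nat_lit 266) (nat_lit 34) (@Lb.fm (nat_lit 1) t40))))))
noncomputable def l1788 : Lb := (@Lb.d (nat_lit 130) (nat_lit 33) (nat_lit 0) (@Lb.g g8 (@Lb.g g9 (@Lb.r r2579 (@Lb.r r2178 (@Lb.r r1429 (@Lb.r r104 (@Lb.d (nat_lit 404) (nat_lit 10) (nat_lit 577) (@Lb.fp (nat_lit 3) t124)))))))))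
noncomputable def l1789 : Lb := (@Lb.d (nat_lit 0) (nat_lit 8) (nat_lit 42) (@Lb.g g10 (@Lb.r r579 (@Lb.d (nat_lit 0) (nat_lit 2) (nat_lit 137) (@Lb.t (@Lb.fm (nat_lit 3) t51))))))
noncomputable def l1790 : Lb := (@Lb.r r134 (@Lb.r r324 (@Lb.r r411 (@Lb.r r609 (@Lb.r r36 (@Lb.d (nat_lit 10) (nat_lit 322) (nat_lit 16) (@Lb.fp (nat_lit 1) t334)))))))
noncomputable def l1791 : Lb := (@Lb.d (nat_lit 0) (nat_lit 514) (nat_lit 73) (@Lb.g g9 (@Lb.g g10 (@Lb.g g11 (@Lb.r r2705 (@Lb.r r535 (@Lb.r r2440 (@Lb.r r2122 (@Lb.d (nat_lit 289) (nat_lit 10) (nat_lit 32) (@Lb.t (@Lb.fm (nat_lit 9) t61)))))))))))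
noncomputable def l1792 : Lb := (@Lb.d (nat_lit 138) (nat_lit 0) (nat_lit 0) (@Lb.g g8 (@Lb.r r1621 (@Lb.r r2391 (@Lb.r r2178 (@Lb.r r2664 (@Lb.d (nat_lit 85) (nat_lit 90) (nat_lit 425) (@Lb.t (@Lb.fp (nat_lit 3) t124)))))))))
noncomputable def l1793 : Lb := (@Lb.d (nat_lit 32) (nat_lit 5) (nat_lit 128) (@Lb.g g9 (@Lb.g g10 (@Lb.g g11 (@Lb.r r667 (@Lb.r r609 (@Lb.r r100 (@Lb.r r410 (@Lb.d (nat_lit 138) (nat_lit 21) (nat_lit 136) (@Lb.t (@Lb.fp (nat_lit 9) t601)))))))))))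
noncomputable def l1794 : Lb := (@Lb.d (nat_lit 0) (nat_lit 256) (nat_lit 128) (@Lb.g g10 (@Lb.g g11 (@Lb.r r545 (@Lb.r r299 (@Lb.r r356 (@Lb.r r154 (@Lb.d (nat_lit 10) (nat_lit 10) (nat_lit 33) (@Lb.fm (nat_lit 3) t39)))))))))
noncomputable def l1795 : Lb := (@Lb.d (nat_lit 32) (nat_lit 517) (nat_lit 128) (@Lb.g g9 (@Lb.g g10 (@Lb.g g11 (@Lb.r r667 (@Lb.r r609 (@Lb.r r100 (@Lb.r r410 (@Lb.d (nat_lit 136) (nat_lit 21) (nat_lit 136) (@Lb.t (@Lb.fp (nat_lit 9) t31)))))))))))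
noncomputable def l1796 : Lb := (@Lb.d (nat_lit 0) (nat_lit 512) (nat_lit 128) (@Lb.g g10 (@Lb.g g11 (@Lb.r r545 (@Lb.r r299 (@Lb.r r356 (@Lb.r r154 (@Lb.d (nat_lit 10) (nat_lit 5) (nat_lit 32) (@Lb.fm (nat_lit 3) t39)))))))))
noncomputable def l1797 : Lb := (@Lb.d (nat_lit 0) (nat_lit 580) (nat_lit 137) (@Lb.r r609 (@Lb.r r363 (@Lb.r r328 (@Lb.r r134 (@Lb.g g4 (@Lb.d (nat_lit 1) (nat_lit 0) (nat_lit 0) (@Lb.t (@Lb.fp (nat_lit 3) t39)))))))))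
noncomputable def l1798 : Lb := (@Lb.d (nat_lit 0) (nat_lit 256) (nat_lit 73) (@Lb.g g10 (@Lb.g g11 (@Lb.r r2658 (@Lb.r r579 (@Lb.d (nat_lit 0) (nat_lit 97) (nat_lit 586) (@Lb.fp (nat_lit 3) t51)))))))
noncomputable def l1799 : Lb := (@Lb.d (nat_lit 0) (nat_lit 514) (nat_lit 128) (@Lb.g g9 (@Lb.g g10 (@Lb.g g11 (@Lb.r r1634 (@Lb.r r97 (@Lb.d (nat_lit 0) (nat_lit 100) (nat_lit 678) (@Lb.t (@Lb.fp (nat_lit 9) t700)))))))))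
noncomputable def l1800 : Lb := (@Lb.d (nat_lit 0) (nat_lit 4) (nat_lit 1) (@Lb.g g9 (@Lb.g g10 (@Lb.r r679 (@Lb.r r1685 (@Lb.r r2404 (@Lb.r r1178 (@Lb.d (nat_lit 537) (nat_lit 137) (nat_lit 18) (@Lb.fm (nat_lit 3) t602)))))))))
noncomputable def l1801 : Lb := (@Lb.d (nat_lit 32) (nat_lit 36) (nat_lit 133) (@Lb.g g9 (@Lb.g g10 (@Lb.g g11 (@Lb.r r1707 (@Lb.r r1689 (@Lb.r r100 (@Lb.r r410 (@Lb.d (nat_lit 392) (nat_lit 25) (nat_lit 169) (@Lb.t (@Lb.fm (nat_lit 9) t264)))))))))))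
noncomputable def l1802 : Lb := (@Lb.r r82 (@Lb.d (nat_lit 0) (nat_lit 512) (nat_lit 128) (@Lb.g g9 (@Lb.g g11 (@Lb.r r1634 (@Lb.r r1553 (@Lb.d (nat_lit 0) (nat_lit 5) (nat_lit 513) (@Lb.fm (nat_lit 3) t657))))))))
noncomputable def l1803 : Lb := (@Lb.r r20 (@Lb.r r275 (@Lb.d (nat_lit 0) (nat_lit 257) (nat_lit 2) (@Lb.g g5 (@Lb.g g10 (@Lb.r r1686 (@Lb.r r2404 (@Lb.r r1563 (@Lb.d (nat_lit 1) (nat_lit 82) (nat_lit 0) (@Lb.fp (nat_lit 3) t144))))))))))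
noncomputable def l1804 : Lb := (@Lb.r r21 (@Lb.d (nat_lit 137) (nat_lit 512) (nat_lit 130) (@Lb.g g8 (@Lb.g g10 (@Lb.g g11 (@Lb.r r1365 (@Lb.r r615 (@Lb.r r1354 (@Lb.r r1352 (@Lb.d (nat_lit 136) (nat_lit 74) (nat_lit 404) (@Lb.t (@Lb.fm (nat_lit 9) t144))))))))))))
noncomputable def l1805 : Lb := (@Lb.r r21 (@Lb.d (nat_lit 128) (nat_lit 0) (nat_lit 130) (@Lb.g g8 (@Lb.g g10 (@Lb.g g11 (@Lb.r r1691 (@Lb.r r409 (@Lb.r r90 (@Lb.r r88 (@Lb.d (nat_lit 260) (nat_lit 8) (nat_lit 18) (@Lb.t (@Lb.fm (nat_lit 9) t144))))))))))))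
noncomputable def l1806 : Lb := (@Lb.d (nat_lit 9) (nat_lit 32) (nat_lit 130) (@Lb.g g8 (@Lb.g g9 (@Lb.g g10 (@Lb.g g11 (@Lb.r r1706 (@Lb.r r1704 (@Lb.r r1579 (@Lb.r r281 (@Lb.d (nat_lit 260) (nat_lit 32) (nat_lit 330) (@Lb.fm (nat_lit 9) t144)))))))))))
noncomputable def l1807 : Lb := (@Lb.d (nat_lit 128) (nat_lit 516) (nat_lit 128) (@Lb.g g8 (@Lb.g g9 (@Lb.g g10 (@Lb.g g11 (@Lb.r r683 (@Lb.r r2410 (@Lb.r r537 (@Lb.r r516 (@Lb.d (nat_lit 137) (nat_lit 89) (nat_lit 21) (@Lb.fm (nat_lit 9) t606)))))))))))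
noncomputable def l1808 : Lb := (@Lb.d (nat_lit 289) (nat_lit 261) (nat_lit 82) (@Lb.r r1178 (@Lb.r r1684 (@Lb.r r2393 (@Lb.g g7 (@Lb.g g6 (@Lb.g g5 (@Lb.d (nat_lit 64) (nat_lit 1) (nat_lit 384) (@Lb.t (@Lb.fm (nat_lit 9) t701))))))))))
noncomputable def l1809 : Lb := (@Lb.d (nat_lit 138) (nat_lit 256) (nat_lit 0) (@Lb.g g8 (@Lb.r r1621 (@Lb.r r2391 (@Lb.r r2178 (@Lb.r r1572 (@Lb.d (nat_lit 394) (nat_lit 146) (nat_lit 533) (@Lb.t (@Lb.fm (nat_lit 3) t100)))))))))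
noncomputable def l1810 : Lb := (@Lb.d (nat_lit 137) (nat_lit 2) (nat_lit 0) (@Lb.g g8 (@Lb.g g9 (@Lb.r r1321 (@Lb.r r1559 (@Lb.r r2178 (@Lb.r r1444 (@Lb.d (nat_lit 362) (nat_lit 166) (nat_lit 600) (@Lb.fp (nat_lit 3) t246)))))))))
noncomputable def l1811 : Lb := (@Lb.d (nat_lit 128) (nat_lit 512) (nat_lit 128) (@Lb.g g11 (@Lb.r r1094 (@Lb.r r24 (@Lb.r r405 (@Lb.r r291 (@Lb.d (nat_lit 0) (nat_lit 66) (nat_lit 42) (@Lb.t (@Lb.fm (nat_lit 3) t311)))))))))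
noncomputable def l1812 : Lb := (@Lb.d (nat_lit 9) (nat_lit 258) (nat_lit 128) (@Lb.g g8 (@Lb.g g9 (@Lb.g g10 (@Lb.g g11 (@Lb.r r1699 (@Lb.r r1429 (@Lb.r r356 (@Lb.r r154 (@Lb.d (nat_lit 409) (nat_lit 10) (nat_lit 601) (@Lb.fp (nat_lit 9) t228)))))))))))
noncomputable def l1813 : Lb := (@Lb.d (nat_lit 34) (nat_lit 512) (nat_lit 0) (@Lb.g g8 (@Lb.g g9 (@Lb.r r1129 (@Lb.r r150 (@Lb.r r360 (@Lb.r r1543 (@Lb.d (nat_lit 0) (nat_lit 154) (nat_lit 9) (@Lb.fm (nat_lit 3) t702)))))))))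
noncomputable def l1814 : Lb := (@Lb.d (nat_lit 2) (nat_lit 514) (nat_lit 130) (@Lb.g g8 (@Lb.g g9 (@Lb.g g10 (@Lb.g g11 (@Lb.r r582 (@Lb.r r388 (@Lb.r r1323 (@Lb.r r1313 (@Lb.d (nat_lit 9) (nat_lit 38) (nat_lit 577) (@Lb.fm (nat_lit 9) t119)))))))))))
noncomputable def l1815 : Lb := (@Lb.d (nat_lit 0) (nat_lit 256) (nat_lit 130) (@Lb.g g9 (@Lb.g g10 (@Lb.g g11 (@Lb.r r642 (@Lb.r r387 (@Lb.d (nat_lit 0) (nat_lit 5) (nat_lit 90) (@Lb.t (@Lb.fp (nat_lit 9) t45)))))))))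
noncomputable def l1816 : Lb := (@Lb.d (nat_lit 0) (nat_lit 0) (nat_lit 130) (@Lb.g g9 (@Lb.g g10 (@Lb.g g11 (@Lb.r r642 (@Lb.r r387 (@Lb.d (nat_lit 0) (nat_lit 5) (nat_lit 144) (@Lb.t (@Lb.fp (nat_lit 9) t45)))))))))
noncomputable def l1817 : Lb := (@Lb.d (nat_lit 0) (nat_lit 657) (nat_lit 10) (@Lb.r r594 (@Lb.r r2449 (@Lb.g g11 (@Lb.g g6 (@Lb.d (nat_lit 0) (nat_lit 36) (nat_lit 262) (@Lb.fp (nat_lit 3) t703)))))))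
noncomputable def l1818 : Lb := (@Lb.r r273 (@Lb.d (nat_lit 2) (nat_lit 520) (nat_lit 521) (@Lb.g g8 (@Lb.g g10 (@Lb.g g7 (@Lb.r r2641 (@Lb.r r98 (@Lb.r r24 (@Lb.d (nat_lit 10) (nat_lit 137) (nat_lit 322) (@Lb.t (@Lb.fm (nat_lit 9) t704)))))))))))
noncomputable def l1819 : Lb := (@Lb.d (nat_lit 0) (nat_lit 258) (nat_lit 0) (@Lb.g g9 (@Lb.r r2339 (@Lb.r r2146 (@Lb.r r97 (@Lb.d (nat_lit 0) (nat_lit 68) (nat_lit 34) (@Lb.t (@Lb.fm (nat_lit 3) t703))))))))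
noncomputable def l1820 : Lb := (@Lb.d (nat_lit 136) (nat_lit 258) (nat_lit 128) (@Lb.g g9 (@Lb.g g11 (@Lb.r r260 (@Lb.r r603 (@Lb.r r1425 (@Lb.d (nat_lit 537) (nat_lit 153) (nat_lit 404) (@Lb.fp (nat_lit 3) t705))))))))
noncomputable def l1821 : Lb := (@Lb.d (nat_lit 0) (nat_lit 258) (nat_lit 0) (@Lb.g g9 (@Lb.g g10 (@Lb.r r679 (@Lb.r r1685 (@Lb.r r2404 (@Lb.r r1178 (@Lb.d (nat_lit 537) (nat_lit 137) (nat_lit 18) (@Lb.fm (nat_lit 3) t66)))))))))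
noncomputable def l1822 : Lb := (@Lb.r r82 (@Lb.d (nat_lit 5) (nat_lit 298) (nat_lit 64) (@Lb.g g4 (@Lb.g g9 (@Lb.g g11 (@Lb.r r615 (@Lb.r r402 (@Lb.r r601 (@Lb.d (nat_lit 133) (nat_lit 168) (nat_lit 137) (@Lb.t (@Lb.fp (nat_lit 9) t106)))))))))))
noncomputable def l1823 : Lb := (@Lb.d (nat_lit 32) (nat_lit 512) (nat_lit 130) (@Lb.g g10 (@Lb.g g11 (@Lb.r r1411 (@Lb.r r1304 (@Lb.r r1637 (@Lb.r r1426 (@Lb.d (nat_lit 0) (nat_lit 85) (nat_lit 392) (@Lb.fp (nat_lit 3) t307)))))))))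
noncomputable def l1824 : Lb := (@Lb.d (nat_lit 136) (nat_lit 512) (nat_lit 128) (@Lb.g g9 (@Lb.g g11 (@Lb.r r152 (@Lb.r r1429 (@Lb.r r291 (@Lb.r r2178 (@Lb.d (nat_lit 98) (nat_lit 41) (nat_lit 598) (@Lb.fm (nat_lit 3) t229)))))))))
noncomputable def l1825 : Lb := (@Lb.d (nat_lit 32) (nat_lit 256) (nat_lit 130) (@Lb.g g9 (@Lb.g g10 (@Lb.g g11 (@Lb.r r1411 (@Lb.r r1304 (@Lb.r r1637 (@Lb.r r1426 (@Lb.d (nat_lit 2) (nat_lit 85) (nat_lit 392) (@Lb.t (@Lb.fp (nat_lit 9) t229)))))))))))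
noncomputable def l1826 : Lb := (@Lb.r r323 (@Lb.d (nat_lit 36) (nat_lit 516) (nat_lit 1) (@Lb.g g8 (@Lb.g g9 (@Lb.g g10 (@Lb.r r2705 (@Lb.r r339 (@Lb.r r2698 (@Lb.r r2180 (@Lb.d (nat_lit 97) (nat_lit 0) (nat_lit 338) (@Lb.t (@Lb.fp (nat_lit 9) t123))))))))))))
noncomputable def l1827 : Lb := (@Lb.d (nat_lit 32) (nat_lit 0) (nat_lit 130) (@Lb.g g9 (@Lb.g g10 (@Lb.g g11 (@Lb.r r1411 (@Lb.r r1304 (@Lb.r r1637 (@Lb.r r1426 (@Lb.d (nat_lit 0) (nat_lit 85) (nat_lit 392) (@Lb.t (@Lb.fp (nat_lit 9) t307)))))))))))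
noncomputable def l1828 : Lb := (@Lb.d (nat_lit 0) (nat_lit 256) (nat_lit 2) (@Lb.g g9 (@Lb.g g10 (@Lb.r r1411 (@Lb.r r98 (@Lb.d (nat_lit 0) (nat_lit 133) (nat_lit 1) (@Lb.fm (nat_lit 3) t334)))))))
noncomputable def l1829 : Lb := (@Lb.d (nat_lit 0) (nat_lit 16) (nat_lit 138) (@Lb.g g9 (@Lb.g g10 (@Lb.g g11 (@Lb.r r98 (@Lb.r r337 (@Lb.r r2595 (@Lb.r r529 (@Lb.d (nat_lit 0) (nat_lit 153) (nat_lit 90) (@Lb.t (@Lb.fp (nat_lit 9) t406)))))))))))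
noncomputable def l1830 : Lb := (@Lb.r r275 (@Lb.d (nat_lit 0) (nat_lit 0) (nat_lit 2) (@Lb.g g9 (@Lb.g g10 (@Lb.r r2722 (@Lb.r r2467 (@Lb.r r293 (@Lb.r r24 (@Lb.d (nat_lit 512) (nat_lit 0) (nat_lit 640) (@Lb.fp (nat_lit 3) t329))))))))))
noncomputable def l1831 : Lb := (@Lb.d (nat_lit 0) (nat_lit 0) (nat_lit 65) (@Lb.g g9 (@Lb.g g10 (@Lb.g g7 (@Lb.r r418 (@Lb.d (nat_lit 0) (nat_lit 42) (nat_lit 10) (@Lb.t (@Lb.fm (nat_lit 9) t706))))))))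
noncomputable def l1832 : Lb := (@Lb.d (nat_lit 130) (nat_lit 1) (nat_lit 0) (@Lb.g g8 (@Lb.g g9 (@Lb.r r535 (@Lb.r r418 (@Lb.r r401 (@Lb.r r104 (@Lb.d (nat_lit 38) (nat_lit 38) (nat_lit 68) (@Lb.fp (nat_lit 3) t44)))))))))
noncomputable def l1833 : Lb := (@Lb.d (nat_lit 0) (nat_lit 520) (nat_lit 66) (@Lb.g g10 (@Lb.g g11 (@Lb.r r387 (@Lb.d (nat_lit 0) (nat_lit 2) (nat_lit 137) (@Lb.fm (nat_lit 3) t51))))))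
noncomputable def l1834 : Lb := (@Lb.d (nat_lit 0) (nat_lit 8) (nat_lit 130) (@Lb.g g10 (@Lb.g g11 (@Lb.r r387 (@Lb.d (nat_lit 0) (nat_lit 2) (nat_lit 2) (@Lb.fm (nat_lit 3) t51))))))
noncomputable def l1835 : Lb := (@Lb.d (nat_lit 130) (nat_lit 257) (nat_lit 0) (@Lb.g g8 (@Lb.g g9 (@Lb.r r535 (@Lb.r r418 (@Lb.r r401 (@Lb.r r104 (@Lb.d (nat_lit 33) (nat_lit 37) (nat_lit 68) (@Lb.fp (nat_lit 3) t44)))))))))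
noncomputable def l1836 : Lb := (@Lb.r r323 (@Lb.d (nat_lit 0) (nat_lit 8) (nat_lit 6) (@Lb.g g10 (@Lb.r r387 (@Lb.d (nat_lit 0) (nat_lit 2) (nat_lit 137) (@Lb.t (@Lb.fp (nat_lit 3) t51)))))))
noncomputable def l1837 : Lb := (@Lb.d (nat_lit 2) (nat_lit 513) (nat_lit 72) (@Lb.g g8 (@Lb.g g9 (@Lb.g g11 (@Lb.r r134 (@Lb.r r328 (@Lb.r r423 (@Lb.r r401 (@Lb.d (nat_lit 9) (nat_lit 37) (nat_lit 68) (@Lb.t (@Lb.fm (nat_lit 9) t44)))))))))))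
noncomputable def l1838 : Lb := (@Lb.d (nat_lit 1) (nat_lit 514) (nat_lit 130) (@Lb.g g8 (@Lb.g g9 (@Lb.g g10 (@Lb.g g11 (@Lb.r r683 (@Lb.r r676 (@Lb.r r166 (@Lb.r r145 (@Lb.d (nat_lit 9) (nat_lit 2) (nat_lit 69) (@Lb.fp (nat_lit 9) t51)))))))))))
noncomputable def l1839 : Lb := (@Lb.d (nat_lit 2) (nat_lit 2) (nat_lit 130) (@Lb.g g8 (@Lb.g g9 (@Lb.g g10 (@Lb.g g11 (@Lb.r r683 (@Lb.r r676 (@Lb.r r166 (@Lb.r r145 (@Lb.d (nat_lit 9) (nat_lit 2) (nat_lit 138) (@Lb.fp (nat_lit 9) t51)))))))))))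
noncomputable def l1840 : Lb := (@Lb.d (nat_lit 128) (nat_lit 9) (nat_lit 0) (@Lb.g g8 (@Lb.g g9 (@Lb.r r263 (@Lb.r r146 (@Lb.r r97 (@Lb.r r520 (@Lb.d (nat_lit 66) (nat_lit 10) (nat_lit 129) (@Lb.fp (nat_lit 3) t2)))))))))
noncomputable def l1841 : Lb := (@Lb.r r323 (@Lb.d (nat_lit 0) (nat_lit 1) (nat_lit 2) (@Lb.g g9 (@Lb.g g10 (@Lb.r r2465 (@Lb.r r354 (@Lb.r r387 (@Lb.d (nat_lit 0) (nat_lit 102) (nat_lit 89) (@Lb.fp (nat_lit 3) t216)))))))))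
noncomputable def l1842 : Lb := (@Lb.d (nat_lit 8) (nat_lit 546) (nat_lit 66) (@Lb.g g9 (@Lb.g g10 (@Lb.g g11 (@Lb.r r387 (@Lb.r r2136 (@Lb.r r2438 (@Lb.r r593 (@Lb.d (nat_lit 337) (nat_lit 38) (nat_lit 649) (@Lb.t (@Lb.fm (nat_lit 9) t707)))))))))))
noncomputable def l1843 : Lb := (@Lb.d (nat_lit 610) (nat_lit 522) (nat_lit 293) (@Lb.r r1608 (@Lb.r r402 (@Lb.r r85 (@Lb.g g11 (@Lb.g g8 (@Lb.d (nat_lit 5) (nat_lit 0) (nat_lit 0) (@Lb.fm (nat_lit 3) t708))))))))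
noncomputable def l1844 : Lb := (@Lb.r r82 (@Lb.d (nat_lit 4) (nat_lit 256) (nat_lit 128) (@Lb.g g8 (@Lb.g g9 (@Lb.g g11 (@Lb.r r1691 (@Lb.r r610 (@Lb.r r1065 (@Lb.r r1416 (@Lb.d (nat_lit 665) (nat_lit 152) (nat_lit 137) (@Lb.t (@Lb.fp (nat_lit 9) t190))))))))))))
noncomputable def l1845 : Lb := (@Lb.d (nat_lit 1) (nat_lit 521) (nat_lit 66) (@Lb.g g8 (@Lb.g g9 (@Lb.g g10 (@Lb.g g11 (@Lb.r r1323 (@Lb.r r297 (@Lb.r r2376 (@Lb.r r1638 (@Lb.d (nat_lit 658) (nat_lit 85) (nat_lit 598) (@Lb.fp (nat_lit 9) t79)))))))))))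
noncomputable def l1846 : Lb := (@Lb.d (nat_lit 2) (nat_lit 9) (nat_lit 66) (@Lb.g g8 (@Lb.g g9 (@Lb.g g10 (@Lb.g g11 (@Lb.r r1323 (@Lb.r r297 (@Lb.r r2376 (@Lb.r r1638 (@Lb.d (nat_lit 658) (nat_lit 90) (nat_lit 596) (@Lb.fp (nat_lit 9) t79)))))))))))
noncomputable def l1847 : Lb := (@Lb.d (nat_lit 0) (nat_lit 512) (nat_lit 128) (@Lb.g g9 (@Lb.g g10 (@Lb.g g11 (@Lb.r r387 (@Lb.r r2577 (@Lb.d (nat_lit 0) (nat_lit 0) (nat_lit 393) (@Lb.t (@Lb.fm (nat_lit 9) t121)))))))))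
noncomputable def l1848 : Lb := (@Lb.r r323 (@Lb.d (nat_lit 146) (nat_lit 649) (nat_lit 0) (@Lb.g g8 (@Lb.g g5 (@Lb.g g10 (@Lb.r r1622 (@Lb.r r1639 (@Lb.r r2452 (@Lb.d (nat_lit 614) (nat_lit 153) (nat_lit 282) (@Lb.t (@Lb.fm (nat_lit 9) t709)))))))))))
noncomputable def l1849 : Lb := (@Lb.d (nat_lit 426) (nat_lit 597) (nat_lit 73) (@Lb.r r357 (@Lb.r r2455 (@Lb.r r1700 (@Lb.r r1702 (@Lb.g g7 (@Lb.g g6 (@Lb.g g5 (@Lb.d (nat_lit 4) (nat_lit 34) (nat_lit 129) (@Lb.t (@Lb.fp (nat_lit 9) t119)))))))))))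
noncomputable def l1850 : Lb := (@Lb.r r68 (@Lb.r r323 (@Lb.d (nat_lit 8) (nat_lit 521) (nat_lit 32) (@Lb.g g9 (@Lb.g g6 (@Lb.r r387 (@Lb.r r2196 (@Lb.r r25 (@Lb.d (nat_lit 522) (nat_lit 2) (nat_lit 16) (@Lb.fp (nat_lit 3) t68))))))))))
noncomputable def l1851 : Lb := (@Lb.d (nat_lit 2) (nat_lit 545) (nat_lit 4) (@Lb.g g8 (@Lb.g g9 (@Lb.g g10 (@Lb.g g11 (@Lb.r r683 (@Lb.r r1642 (@Lb.r r1561 (@Lb.d (nat_lit 585) (nat_lit 105) (nat_lit 401) (@Lb.fm (nat_lit 9) t218))))))))))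
noncomputable def l1852 : Lb := (@Lb.d (nat_lit 2) (nat_lit 289) (nat_lit 4) (@Lb.g g8 (@Lb.g g9 (@Lb.g g10 (@Lb.g g11 (@Lb.r r683 (@Lb.r r1642 (@Lb.r r1561 (@Lb.d (nat_lit 585) (nat_lit 98) (nat_lit 402) (@Lb.fm (nat_lit 9) t218))))))))))
noncomputable def l1853 : Lb := (@Lb.d (nat_lit 2) (nat_lit 512) (nat_lit 66) (@Lb.g g8 (@Lb.g g10 (@Lb.g g7 (@Lb.r r386 (@Lb.r r2145 (@Lb.d (nat_lit 294) (nat_lit 1) (nat_lit 25) (@Lb.t (@Lb.fp (nat_lit 9) t97)))))))))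
noncomputable def l1854 : Lb := (@Lb.d (nat_lit 2) (nat_lit 514) (nat_lit 66) (@Lb.g g8 (@Lb.g g9 (@Lb.g g10 (@Lb.g g7 (@Lb.r r386 (@Lb.r r25 (@Lb.d (nat_lit 9) (nat_lit 66) (nat_lit 26) (@Lb.fp (nat_lit 9) t2)))))))))
noncomputable def l1855 : Lb := (@Lb.r r2343 (@Lb.r r2150 (@Lb.r r1065 (@Lb.r r2088 (@Lb.d (nat_lit 262) (nat_lit 0) (nat_lit 0) (@Lb.fp (nat_lit 1) t710))))))
noncomputable def l1856 : Lb := (@Lb.d (nat_lit 298) (nat_lit 298) (nat_lit 617) (@Lb.r r1114 (@Lb.r r1620 (@Lb.r r2345 (@Lb.r r1351 (@Lb.g g7 (@Lb.g g6 (@Lb.g g4 (@Lb.d (nat_lit 1) (nat_lit 4) (nat_lit 65) (@Lb.t (@Lb.fm (nat_lit 9) t68)))))))))))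
noncomputable def l1857 : Lb := (@Lb.d (nat_lit 2) (nat_lit 257) (nat_lit 128) (@Lb.g g8 (@Lb.g g9 (@Lb.g g10 (@Lb.g g11 (@Lb.r r425 (@Lb.r r339 (@Lb.r r658 (@Lb.r r81 (@Lb.d (nat_lit 129) (nat_lit 41) (nat_lit 66) (@Lb.fp (nat_lit 9) t242)))))))))))
noncomputable def l1858 : Lb := (@Lb.r r82 (@Lb.d (nat_lit 2) (nat_lit 2) (nat_lit 128) (@Lb.g g8 (@Lb.g g9 (@Lb.g g11 (@Lb.r r299 (@Lb.r r578 (@Lb.r r409 (@Lb.d (nat_lit 153) (nat_lit 9) (nat_lit 128) (@Lb.t (@Lb.fm (nat_lit 9) t711)))))))))))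
noncomputable def l1859 : Lb := (@Lb.d (nat_lit 0) (nat_lit 2) (nat_lit 128) (@Lb.g g9 (@Lb.g g11 (@Lb.r r673 (@Lb.r r299 (@Lb.r r356 (@Lb.r r154 (@Lb.d (nat_lit 22) (nat_lit 132) (nat_lit 33) (@Lb.fm (nat_lit 3) t232)))))))))
noncomputable def l1860 : Lb := (@Lb.d (nat_lit 32) (nat_lit 266) (nat_lit 129) (@Lb.g g9 (@Lb.g g10 (@Lb.g g11 (@Lb.r r545 (@Lb.r r299 (@Lb.r r72 (@Lb.r r390 (@Lb.d (nat_lit 74) (nat_lit 138) (nat_lit 168) (@Lb.t (@Lb.fp (nat_lit 9) t315)))))))))))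
noncomputable def l1861 : Lb := (@Lb.d (nat_lit 8) (nat_lit 266) (nat_lit 129) (@Lb.g g9 (@Lb.g g10 (@Lb.g g11 (@Lb.r r1702 (@Lb.r r2392 (@Lb.r r1383 (@Lb.r r1301 (@Lb.d (nat_lit 324) (nat_lit 81) (nat_lit 385) (@Lb.t (@Lb.fm (nat_lit 9) t215)))))))))))
noncomputable def l1862 : Lb := (@Lb.d (nat_lit 0) (nat_lit 276) (nat_lit 4) (@Lb.g g9 (@Lb.g g10 (@Lb.g g11 (@Lb.r r427 (@Lb.r r1685 (@Lb.r r1432 (@Lb.r r1114 (@Lb.d (nat_lit 521) (nat_lit 137) (nat_lit 17) (@Lb.t (@Lb.fp (nat_lit 9) t273)))))))))))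
noncomputable def l1863 : Lb := (@Lb.d (nat_lit 0) (nat_lit 512) (nat_lit 73) (@Lb.g g10 (@Lb.g g11 (@Lb.r r2691 (@Lb.r r2658 (@Lb.d (nat_lit 0) (nat_lit 37) (nat_lit 425) (@Lb.fp (nat_lit 3) t71)))))))
noncomputable def l1864 : Lb := (@Lb.d (nat_lit 0) (nat_lit 10) (nat_lit 73) (@Lb.g g9 (@Lb.g g10 (@Lb.g g11 (@Lb.r r2707 (@Lb.r r2626 (@Lb.d (nat_lit 0) (nat_lit 152) (nat_lit 425) (@Lb.t (@Lb.fp (nat_lit 9) t218)))))))))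
noncomputable def l1865 : Lb := (@Lb.d (nat_lit 2) (nat_lit 258) (nat_lit 73) (@Lb.g g8 (@Lb.g g9 (@Lb.g g10 (@Lb.g g11 (@Lb.r r2691 (@Lb.r r297 (@Lb.r r360 (@Lb.r r582 (@Lb.r r2180 (@Lb.d (nat_lit 641) (nat_lit 10) (nat_lit 329) (@Lb.fm (nat_lit 9) t242))))))))))))
noncomputable def l1866 : Lb := (@Lb.d (nat_lit 0) (nat_lit 401) (nat_lit 102) (@Lb.r r386 (@Lb.r r339 (@Lb.g g7 (@Lb.g g6 (@Lb.g g5 (@Lb.d (nat_lit 0) (nat_lit 0) (nat_lit 65) (@Lb.t (@Lb.fm (nat_lit 9) t69)))))))))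
noncomputable def l1867 : Lb := (@Lb.d (nat_lit 2) (nat_lit 514) (nat_lit 130) (@Lb.g g8 (@Lb.g g9 (@Lb.g g10 (@Lb.g g11 (@Lb.r r2691 (@Lb.r r297 (@Lb.r r360 (@Lb.r r582 (@Lb.r r2180 (@Lb.d (nat_lit 642) (nat_lit 10) (nat_lit 329) (@Lb.fm (nat_lit 9) t242))))))))))))
noncomputable def l1868 : Lb := (@Lb.d (nat_lit 0) (nat_lit 25) (nat_lit 5) (@Lb.g g9 (@Lb.g g10 (@Lb.g g11 (@Lb.r r427 (@Lb.r r1685 (@Lb.r r1432 (@Lb.r r1114 (@Lb.d (nat_lit 521) (nat_lit 137) (nat_lit 17) (@Lb.t (@Lb.fp (nat_lit 9) t570)))))))))))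
noncomputable def l1869 : Lb := (@Lb.d (nat_lit 0) (nat_lit 256) (nat_lit 2) (@Lb.g g9 (@Lb.g g10 (@Lb.r r1299 (@Lb.r r1681 (@Lb.r r146 (@Lb.d (nat_lit 0) (nat_lit 150) (nat_lit 289) (@Lb.fp (nat_lit 3) t616))))))))
noncomputable def l1870 : Lb := (@Lb.d (nat_lit 0) (nat_lit 512) (nat_lit 128) (@Lb.g g9 (@Lb.g g10 (@Lb.g g11 (@Lb.r r387 (@Lb.r r402 (@Lb.d (nat_lit 0) (nat_lit 69) (nat_lit 17) (@Lb.t (@Lb.fp (nat_lit 9) t334)))))))))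
noncomputable def l1871 : Lb := (@Lb.d (nat_lit 0) (nat_lit 550) (nat_lit 74) (@Lb.g g9 (@Lb.g g10 (@Lb.g g11 (@Lb.r r387 (@Lb.r r402 (@Lb.r r1633 (@Lb.d (nat_lit 0) (nat_lit 133) (nat_lit 74) (@Lb.t (@Lb.fm (nat_lit 9) t406))))))))))
noncomputable def l1872 : Lb := (@Lb.d (nat_lit 36) (nat_lit 2) (nat_lit 130) (@Lb.g g8 (@Lb.g g9 (@Lb.g g10 (@Lb.g g11 (@Lb.r r2705 (@Lb.r r1683 (@Lb.r r644 (@Lb.r r582 (@Lb.r r1156 (@Lb.d (nat_lit 393) (nat_lit 2) (nat_lit 66) (@Lb.fm (nat_lit 9) t329))))))))))))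
noncomputable def l1873 : Lb := (@Lb.d (nat_lit 129) (nat_lit 324) (nat_lit 84) (@Lb.r r390 (@Lb.r r72 (@Lb.r r279 (@Lb.r r545 (@Lb.g g7 (@Lb.g g6 (@Lb.g g5 (@Lb.d (nat_lit 16) (nat_lit 0) (nat_lit 65) (@Lb.t (@Lb.fm (nat_lit 9) t69)))))))))))
noncomputable def l1874 : Lb := (@Lb.r r273 (@Lb.r r551 (@Lb.r r340 (@Lb.r r170 (@Lb.r r153 (@Lb.d (nat_lit 0) (nat_lit 1) (nat_lit 2) (@Lb.fp (nat_lit 1) t2)))))))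
noncomputable def l1875 : Lb := (@Lb.d (nat_lit 0) (nat_lit 553) (nat_lit 73) (@Lb.r r657 (@Lb.r r411 (@Lb.r r344 (@Lb.r r166 (@Lb.g g5 (@Lb.d (nat_lit 4) (nat_lit 1) (nat_lit 0) (@Lb.t (@Lb.fm (nat_lit 3) t45)))))))))
noncomputable def l1876 : Lb := (@Lb.d (nat_lit 8) (nat_lit 9) (nat_lit 2) (@Lb.g g9 (@Lb.g g10 (@Lb.r r2150 (@Lb.d (nat_lit 26) (nat_lit 73) (nat_lit 32) (@Lb.fm (nat_lit 3) t712))))))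
noncomputable def l1877 : Lb := (@Lb.d (nat_lit 297) (nat_lit 516) (nat_lit 96) (@Lb.r r168 (@Lb.r r89 (@Lb.r r402 (@Lb.g g7 (@Lb.g g4 (@Lb.d (nat_lit 5) (nat_lit 0) (nat_lit 68) (@Lb.fm (nat_lit 3) t101))))))))
noncomputable def l1878 : Lb := (@Lb.d (nat_lit 2) (nat_lit 521) (nat_lit 10) (@Lb.g g8 (@Lb.g g9 (@Lb.g g10 (@Lb.r r1555 (@Lb.r r297 (@Lb.r r1700 (@Lb.r r1670 (@Lb.d (nat_lit 130) (nat_lit 5) (nat_lit 576) (@Lb.t (@Lb.fp (nat_lit 9) t249)))))))))))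
noncomputable def l1879 : Lb := (@Lb.d (nat_lit 18) (nat_lit 42) (nat_lit 100) (@Lb.r r355 (@Lb.r r2642 (@Lb.r r1429 (@Lb.g g7 (@Lb.g g5 (@Lb.g g4 (@Lb.d (nat_lit 1) (nat_lit 17) (nat_lit 132) (@Lb.t (@Lb.fp (nat_lit 9) t148))))))))))
noncomputable def l1880 : Lb := (@Lb.d (nat_lit 0) (nat_lit 256) (nat_lit 128) (@Lb.g g9 (@Lb.g g10 (@Lb.g g11 (@Lb.r r387 (@Lb.r r402 (@Lb.d (nat_lit 0) (nat_lit 74) (nat_lit 18) (@Lb.t (@Lb.fp (nat_lit 9) t334)))))))))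
noncomputable def l1881 : Lb := (@Lb.d (nat_lit 0) (nat_lit 256) (nat_lit 130) (@Lb.g g9 (@Lb.g g10 (@Lb.g g11 (@Lb.r r419 (@Lb.r r386 (@Lb.d (nat_lit 0) (nat_lit 98) (nat_lit 89) (@Lb.t (@Lb.fp (nat_lit 9) t356)))))))))
noncomputable def l1882 : Lb := (@Lb.d (nat_lit 25) (nat_lit 73) (nat_lit 32) (@Lb.r r24 (@Lb.r r2194 (@Lb.r r1381 (@Lb.r r2707 (@Lb.g g7 (@Lb.g g6 (@Lb.d (nat_lit 0) (nat_lit 0) (nat_lit 133) (@Lb.fm (nat_lit 3) t713)))))))))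
noncomputable def l1883 : Lb := (@Lb.d (nat_lit 25) (nat_lit 578) (nat_lit 33) (@Lb.r r24 (@Lb.r r2194 (@Lb.r r1381 (@Lb.r r2707 (@Lb.g g7 (@Lb.g g6 (@Lb.d (nat_lit 0) (nat_lit 0) (nat_lit 133) (@Lb.fm (nat_lit 3) t221)))))))))
noncomputable def l1884 : Lb := (@Lb.d (nat_lit 0) (nat_lit 256) (nat_lit 2) (@Lb.g g10 (@Lb.r r659 (@Lb.r r357 (@Lb.r r146 (@Lb.r r24 (@Lb.d (nat_lit 36) (nat_lit 6) (nat_lit 0) (@Lb.t (@Lb.fp (nat_lit 3) t714)))))))))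
noncomputable def l1885 : Lb := (@Lb.d (nat_lit 274) (nat_lit 256) (nat_lit 102) (@Lb.r r24 (@Lb.r r101 (@Lb.r r323 (@Lb.g g7 (@Lb.g g6 (@Lb.d (nat_lit 0) (nat_lit 4) (nat_lit 65) (@Lb.fm (nat_lit 3) t108))))))))
noncomputable def l1886 : Lb := (@Lb.g g7 (@Lb.r r24 (@Lb.r r101 (@Lb.d (nat_lit 0) (nat_lit 389) (nat_lit 69) (@Lb.t (@Lb.fm (nat_lit 3) t126))))))
noncomputable def l1887 : Lb := (@Lb.r r20 (@Lb.d (nat_lit 4) (nat_lit 73) (nat_lit 73) (@Lb.g g9 (@Lb.g g10 (@Lb.g g11 (@Lb.r r2666 (@Lb.r r579 (@Lb.r r8 (@Lb.d (nat_lit 325) (nat_lit 96) (nat_lit 517) (@Lb.t (@Lb.fm (nat_lit 9) t144)))))))))))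
noncomputable def l1888 : Lb := (@Lb.d (nat_lit 288) (nat_lit 2) (nat_lit 33) (@Lb.r r24 (@Lb.g g7 (@Lb.g g9 (@Lb.d (nat_lit 8) (nat_lit 9) (nat_lit 0) (@Lb.fm (nat_lit 3) t126))))))
noncomputable def l1889 : Lb := (@Lb.r r579 (@Lb.r r402 (@Lb.r r101 (@Lb.r r24 (@Lb.fp (nat_lit 1) t145)))))
noncomputable def l1890 : Lb := (@Lb.d (nat_lit 513) (nat_lit 553) (nat_lit 682) (@Lb.r r97 (@Lb.r r331 (@Lb.r r264 (@Lb.g g7 (@Lb.g g10 (@Lb.g g5 (@Lb.d (nat_lit 80) (nat_lit 1) (nat_lit 66) (@Lb.t (@Lb.fm (nat_lit 9) t715))))))))))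
noncomputable def l1891 : Lb := (@Lb.r r82 (@Lb.r r275 (@Lb.d (nat_lit 34) (nat_lit 130) (nat_lit 0) (@Lb.g g8 (@Lb.g g9 (@Lb.r r150 (@Lb.r r360 (@Lb.r r391 (@Lb.d (nat_lit 0) (nat_lit 65) (nat_lit 656) (@Lb.fm (nat_lit 3) t308))))))))))
noncomputable def l1892 : Lb := (@Lb.d (nat_lit 4) (nat_lit 1) (nat_lit 128) (@Lb.g g5 (@Lb.g g10 (@Lb.g g11 (@Lb.r r387 (@Lb.r r24 (@Lb.d (nat_lit 321) (nat_lit 1) (nat_lit 521) (@Lb.t (@Lb.fm (nat_lit 9) t716)))))))))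
noncomputable def l1893 : Lb := (@Lb.d (nat_lit 0) (nat_lit 9) (nat_lit 130) (@Lb.g g9 (@Lb.g g10 (@Lb.g g11 (@Lb.r r387 (@Lb.r r145 (@Lb.r r402 (@Lb.d (nat_lit 0) (nat_lit 21) (nat_lit 69) (@Lb.t (@Lb.fp (nat_lit 9) t717))))))))))
noncomputable def l1894 : Lb := (@Lb.r r81 (@Lb.r r323 (@Lb.d (nat_lit 10) (nat_lit 256) (nat_lit 33) (@Lb.g g8 (@Lb.g g6 (@Lb.r r1427 (@Lb.r r149 (@Lb.r r104 (@Lb.d (nat_lit 262) (nat_lit 10) (nat_lit 2) (@Lb.fm (nat_lit 3) t718))))))))))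
noncomputable def l1895 : Lb := (@Lb.r r322 (@Lb.d (nat_lit 0) (nat_lit 17) (nat_lit 648) (@Lb.g g9 (@Lb.g g7 (@Lb.r r674 (@Lb.r r2137 (@Lb.r r24 (@Lb.d (nat_lit 544) (nat_lit 0) (nat_lit 148) (@Lb.fp (nat_lit 3) t377)))))))))
noncomputable def l1896 : Lb := (@Lb.d (nat_lit 0) (nat_lit 261) (nat_lit 74) (@Lb.g g9 (@Lb.g g10 (@Lb.g g11 (@Lb.r r2691 (@Lb.r r2466 (@Lb.r r1317 (@Lb.r r24 (@Lb.d (nat_lit 578) (nat_lit 0) (nat_lit 424) (@Lb.t (@Lb.fm (nat_lit 9) t377)))))))))))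
noncomputable def l1897 : Lb := (@Lb.d (nat_lit 130) (nat_lit 514) (nat_lit 2) (@Lb.g g8 (@Lb.g g9 (@Lb.g g10 (@Lb.r r2691 (@Lb.r r2217 (@Lb.r r2666 (@Lb.r r104 (@Lb.d (nat_lit 676) (nat_lit 10) (nat_lit 329) (@Lb.t (@Lb.fp (nat_lit 9) t242)))))))))))
noncomputable def l1898 : Lb := (@Lb.d (nat_lit 0) (nat_lit 256) (nat_lit 74) (@Lb.g g10 (@Lb.g g11 (@Lb.r r387 (@Lb.r r2434 (@Lb.d (nat_lit 0) (nat_lit 0) (nat_lit 390) (@Lb.fp (nat_lit 3) t2)))))))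
noncomputable def l1899 : Lb := (@Lb.r r1291 (@Lb.d (nat_lit 386) (nat_lit 256) (nat_lit 384) (@Lb.fp (nat_lit 1) t441)))
noncomputable def l1900 : Lb := (@Lb.g g7 (@Lb.r r1291 (@Lb.d (nat_lit 512) (nat_lit 256) (nat_lit 0) (@Lb.t (@Lb.fm (nat_lit 3) t441)))))
noncomputable def l1901 : Lb := (@Lb.d (nat_lit 0) (nat_lit 512) (nat_lit 136) (@Lb.g g11 (@Lb.r r24 (@Lb.r r101 (@Lb.d (nat_lit 0) (nat_lit 133) (nat_lit 160) (@Lb.t (@Lb.fp (nat_lit 3) t126)))))))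
noncomputable def l1902 : Lb := (@Lb.d (nat_lit 529) (nat_lit 256) (nat_lit 129) (@Lb.r r24 (@Lb.r r101 (@Lb.r r1299 (@Lb.g g10 (@Lb.g g5 (@Lb.d (nat_lit 0) (nat_lit 5) (nat_lit 0) (@Lb.r r387 (@Lb.fp (nat_lit 3) t719)))))))))
noncomputable def l1903 : Lb := (@Lb.d (nat_lit 513) (nat_lit 514) (nat_lit 128) (@Lb.r r24 (@Lb.r r1319 (@Lb.g g9 (@Lb.d (nat_lit 8) (nat_lit 2) (nat_lit 0) (@Lb.t (@Lb.fm (nat_lit 3) t76)))))))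
noncomputable def l1904 : Lb := (@Lb.d (nat_lit 0) (nat_lit 512) (nat_lit 72) (@Lb.g g11 (@Lb.d (nat_lit 0) (nat_lit 0) (nat_lit 106) (@Lb.t (@Lb.fp (nat_lit 3) t2)))))
noncomputable def l1905 : Lb := (@Lb.r r21 (@Lb.d (nat_lit 24) (nat_lit 264) (nat_lit 64) (@Lb.g g8 (@Lb.g g10 (@Lb.g g7 (@Lb.r r97 (@Lb.r r598 (@Lb.r r388 (@Lb.d (nat_lit 101) (nat_lit 144) (nat_lit 10) (@Lb.t (@Lb.fm (nat_lit 9) t108)))))))))))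
noncomputable def l1906 : Lb := (@Lb.d (nat_lit 17) (nat_lit 0) (nat_lit 282) (@Lb.r r24 (@Lb.r r1317 (@Lb.r r579 (@Lb.g g7 (@Lb.g g10 (@Lb.g g5 (@Lb.d (nat_lit 0) (nat_lit 0) (nat_lit 82) (@Lb.t (@Lb.fp (nat_lit 9) t719))))))))))
noncomputable def l1907 : Lb := (@Lb.g g10 (@Lb.r r24 (@Lb.r r101 (@Lb.d (nat_lit 0) (nat_lit 389) (nat_lit 138) (@Lb.t (@Lb.fp (nat_lit 3) t126))))))
noncomputable def l1908 : Lb := (@Lb.d (nat_lit 17) (nat_lit 0) (nat_lit 405) (@Lb.r r24 (@Lb.r r1317 (@Lb.r r579 (@Lb.g g7 (@Lb.g g10 (@Lb.g g5 (@Lb.d (nat_lit 0) (nat_lit 5) (nat_lit 80) (@Lb.t (@Lb.fp (nat_lit 9) t719))))))))))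
noncomputable def l1909 : Lb := (@Lb.d (nat_lit 657) (nat_lit 258) (nat_lit 682) (@Lb.r r24 (@Lb.r r579 (@Lb.r r2370 (@Lb.g g7 (@Lb.g g9 (@Lb.d (nat_lit 8) (nat_lit 2) (nat_lit 64) (@Lb.fp (nat_lit 3) t76))))))))
noncomputable def l1910 : Lb := (@Lb.d (nat_lit 0) (nat_lit 512) (nat_lit 133) (@Lb.g g10 (@Lb.g g11 (@Lb.r r643 (@Lb.r r2626 (@Lb.d (nat_lit 0) (nat_lit 0) (nat_lit 33) (@Lb.fp (nat_lit 3) t2)))))))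
noncomputable def l1911 : Lb := (@Lb.g g10 (@Lb.r r2579 (@Lb.r r72 (@Lb.r r598 (@Lb.r r289 (@Lb.r r2180 (@Lb.t (@Lb.p (nat_lit 1) (@Lb.fm (nat_lit 3) t51)))))))))
noncomputable def l1912 : Lb := (@Lb.r r21 (@Lb.d (nat_lit 16) (nat_lit 0) (nat_lit 64) (@Lb.g g8 (@Lb.g g10 (@Lb.g g7 (@Lb.r r402 (@Lb.r r97 (@Lb.r r24 (@Lb.d (nat_lit 10) (nat_lit 33) (nat_lit 0) (@Lb.t (@Lb.fm (nat_lit 9) t720)))))))))))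
noncomputable def l1913 : Lb := (@Lb.d (nat_lit 68) (nat_lit 582) (nat_lit 646) (@Lb.r r597 (@Lb.r r1642 (@Lb.r r1352 (@Lb.r r2695 (@Lb.g g7 (@Lb.g g6 (@Lb.g g5 (@Lb.d (nat_lit 20) (nat_lit 1) (nat_lit 134) (@Lb.t (@Lb.fp (nat_lit 9) t150)))))))))))
noncomputable def l1914 : Lb := (@Lb.g g10 (@Lb.g g7 (@Lb.r r24 (@Lb.r r101 (@Lb.d (nat_lit 0) (nat_lit 645) (nat_lit 0) (@Lb.fp (nat_lit 3) t126))))))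
noncomputable def l1915 : Lb := (@Lb.d (nat_lit 68) (nat_lit 70) (nat_lit 646) (@Lb.r r597 (@Lb.r r1642 (@Lb.r r1352 (@Lb.r r2695 (@Lb.g g7 (@Lb.g g6 (@Lb.g g5 (@Lb.d (nat_lit 20) (nat_lit 1) (nat_lit 70) (@Lb.t (@Lb.fp (nat_lit 9) t721)))))))))))
noncomputable def l1916 : Lb := (@Lb.d (nat_lit 69) (nat_lit 326) (nat_lit 646) (@Lb.r r597 (@Lb.r r1642 (@Lb.r r1352 (@Lb.r r2695 (@Lb.g g7 (@Lb.g g6 (@Lb.g g5 (@Lb.d (nat_lit 20) (nat_lit 1) (nat_lit 134) (@Lb.t (@Lb.fp (nat_lit 9) t150)))))))))))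
noncomputable def l1917 : Lb := (@Lb.d (nat_lit 582) (nat_lit 385) (nat_lit 322) (@Lb.r r2308 (@Lb.r r2325 (@Lb.r r1643 (@Lb.g g7 (@Lb.g g10 (@Lb.g g5 (@Lb.g g4 (@Lb.d (nat_lit 18) (nat_lit 1) (nat_lit 66) (@Lb.fp (nat_lit 9) t694))))))))))
noncomputable def l1918 : Lb := (@Lb.d (nat_lit 32) (nat_lit 0) (nat_lit 66) (@Lb.g g10 (@Lb.g g7 (@Lb.r r596 (@Lb.r r74 (@Lb.r r289 (@Lb.d (nat_lit 106) (nat_lit 161) (nat_lit 322) (@Lb.fm (nat_lit 3) t668))))))))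
noncomputable def l1919 : Lb := (@Lb.r r81 (@Lb.d (nat_lit 10) (nat_lit 256) (nat_lit 17) (@Lb.g g8 (@Lb.g g6 (@Lb.g g11 (@Lb.r r149 (@Lb.r r104 (@Lb.d (nat_lit 518) (nat_lit 10) (nat_lit 0) (@Lb.t (@Lb.fm (nat_lit 9) t722))))))))))
noncomputable def l1920 : Lb := (@Lb.r r21 (@Lb.d (nat_lit 129) (nat_lit 256) (nat_lit 130) (@Lb.g g8 (@Lb.g g10 (@Lb.g g11 (@Lb.r r651 (@Lb.r r357 (@Lb.r r154 (@Lb.r r132 (@Lb.d (nat_lit 89) (nat_lit 136) (nat_lit 392) (@Lb.t (@Lb.fp (nat_lit 9) t723))))))))))))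
noncomputable def l1921 : Lb := (@Lb.d (nat_lit 1) (nat_lit 545) (nat_lit 130) (@Lb.g g8 (@Lb.g g9 (@Lb.g g10 (@Lb.g g11 (@Lb.r r683 (@Lb.r r616 (@Lb.r r86 (@Lb.r r165 (@Lb.r r20 (@Lb.d (nat_lit 41) (nat_lit 1) (nat_lit 68) (@Lb.fm (nat_lit 9) t74))))))))))))
noncomputable def l1922 : Lb := (@Lb.d (nat_lit 2) (nat_lit 33) (nat_lit 130) (@Lb.g g8 (@Lb.g g9 (@Lb.g g10 (@Lb.g g11 (@Lb.r r683 (@Lb.r r616 (@Lb.r r86 (@Lb.r r165 (@Lb.r r20 (@Lb.d (nat_lit 41) (nat_lit 1) (nat_lit 137) (@Lb.fm (nat_lit 9) t74))))))))))))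
noncomputable def l1923 : Lb := (@Lb.r r81 (@Lb.d (nat_lit 10) (nat_lit 0) (nat_lit 17) (@Lb.g g8 (@Lb.g g6 (@Lb.r r149 (@Lb.r r104 (@Lb.d (nat_lit 518) (nat_lit 10) (nat_lit 0) (@Lb.fm (nat_lit 3) t722))))))))
noncomputable def l1924 : Lb := (@Lb.d (nat_lit 8) (nat_lit 33) (nat_lit 130) (@Lb.g g9 (@Lb.g g10 (@Lb.g g11 (@Lb.r r387 (@Lb.r r386 (@Lb.r r2328 (@Lb.r r2581 (@Lb.d (nat_lit 678) (nat_lit 162) (nat_lit 417) (@Lb.t (@Lb.fm (nat_lit 9) t724)))))))))))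
noncomputable def l1925 : Lb := (@Lb.r r584 (@Lb.r r86 (@Lb.r r289 (@Lb.r r132 (@Lb.d (nat_lit 0) (nat_lit 642) (nat_lit 320) (@Lb.fp (nat_lit 1) t259))))))
noncomputable def l1926 : Lb := (@Lb.d (nat_lit 18) (nat_lit 1) (nat_lit 128) (@Lb.g g8 (@Lb.g g9 (@Lb.g g11 (@Lb.r r406 (@Lb.r r343 (@Lb.r r676 (@Lb.r r293 (@Lb.d (nat_lit 137) (nat_lit 9) (nat_lit 74) (@Lb.t (@Lb.fm (nat_lit 9) t521)))))))))))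
noncomputable def l1927 : Lb := (@Lb.d (nat_lit 10) (nat_lit 2) (nat_lit 0) (@Lb.g g8 (@Lb.g g9 (@Lb.r r24 (@Lb.r r2069 (@Lb.r r36 (@Lb.d (nat_lit 10) (nat_lit 2) (nat_lit 0) (@Lb.fp (nat_lit 3) t2))))))))
noncomputable def l1928 : Lb := (@Lb.d (nat_lit 2) (nat_lit 512) (nat_lit 0) (@Lb.g g8 (@Lb.r r2073 (@Lb.d (nat_lit 265) (nat_lit 128) (nat_lit 0) (@Lb.t (@Lb.fp (nat_lit 3) t2))))))
noncomputable def l1929 : Lb := (@Lb.d (nat_lit 2) (nat_lit 32) (nat_lit 128) (@Lb.g g8 (@Lb.g g10 (@Lb.g g11 (@Lb.r r2726 (@Lb.r r105 (@Lb.r r616 (@Lb.r r299 (@Lb.d (nat_lit 641) (nat_lit 161) (nat_lit 517) (@Lb.t (@Lb.fp (nat_lit 9) t51)))))))))))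
noncomputable def l1930 : Lb := (@Lb.r r21 (@Lb.d (nat_lit 128) (nat_lit 264) (nat_lit 2) (@Lb.g g8 (@Lb.g g10 (@Lb.r r1287 (@Lb.r r1121 (@Lb.r r2450 (@Lb.r r2596 (@Lb.d (nat_lit 645) (nat_lit 170) (nat_lit 681) (@Lb.fm (nat_lit 3) t2))))))))))
noncomputable def l1931 : Lb := (@Lb.d (nat_lit 2) (nat_lit 2) (nat_lit 130) (@Lb.g g8 (@Lb.g g9 (@Lb.g g10 (@Lb.g g11 (@Lb.r r427 (@Lb.r r106 (@Lb.r r25 (@Lb.d (nat_lit 9) (nat_lit 72) (nat_lit 2) (@Lb.fp (nat_lit 9) t51))))))))))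
noncomputable def l1932 : Lb := (@Lb.r r21 (@Lb.r r323 (@Lb.d (nat_lit 128) (nat_lit 520) (nat_lit 2) (@Lb.g g8 (@Lb.g g10 (@Lb.r r1287 (@Lb.r r97 (@Lb.r r402 (@Lb.r r2584 (@Lb.d (nat_lit 325) (nat_lit 10) (nat_lit 153) (@Lb.fp (nat_lit 3) t2)))))))))))
noncomputable def l1933 : Lb := (@Lb.r r21 (@Lb.d (nat_lit 162) (nat_lit 0) (nat_lit 0) (@Lb.g g4 (@Lb.r r1626 (@Lb.r r2469 (@Lb.r r1307 (@Lb.r r1300 (@Lb.d (nat_lit 649) (nat_lit 34) (nat_lit 402) (@Lb.t (@Lb.fp (nat_lit 3) t2))))))))))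
noncomputable def l1934 : Lb := (@Lb.r r21 (@Lb.r r323 (@Lb.d (nat_lit 128) (nat_lit 264) (nat_lit 2) (@Lb.g g8 (@Lb.g g10 (@Lb.r r1287 (@Lb.r r97 (@Lb.r r402 (@Lb.r r2584 (@Lb.d (nat_lit 330) (nat_lit 8) (nat_lit 153) (@Lb.fp (nat_lit 3) t2)))))))))))
noncomputable def l1935 : Lb := (@Lb.d (nat_lit 1) (nat_lit 641) (nat_lit 0) (@Lb.r r21 (@Lb.r r70 (@Lb.r r263 (@Lb.g g4 (@Lb.r r267 (@Lb.r r74 (@Lb.r r25 (@Lb.t (@Lb.fm (nat_lit 3) t68))))))))))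
noncomputable def l1936 : Lb := (@Lb.r r323 (@Lb.d (nat_lit 5) (nat_lit 256) (nat_lit 1) (@Lb.g g8 (@Lb.g g9 (@Lb.g g6 (@Lb.r r387 (@Lb.r r2153 (@Lb.r r36 (@Lb.d (nat_lit 290) (nat_lit 0) (nat_lit 98) (@Lb.t (@Lb.fm (nat_lit 9) t40)))))))))))
noncomputable def l1937 : Lb := (@Lb.d (nat_lit 529) (nat_lit 0) (nat_lit 22) (@Lb.r r20 (@Lb.r r2153 (@Lb.r r386 (@Lb.g g11 (@Lb.g g6 (@Lb.g g5 (@Lb.g g4 (@Lb.d (nat_lit 10) (nat_lit 10) (nat_lit 128) (@Lb.fm (nat_lit 9) t51))))))))))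
noncomputable def l1938 : Lb := (@Lb.d (nat_lit 17) (nat_lit 6) (nat_lit 100) (@Lb.r r68 (@Lb.r r90 (@Lb.r r596 (@Lb.r r343 (@Lb.g g7 (@Lb.g g6 (@Lb.g g5 (@Lb.g g4 (@Lb.d (nat_lit 1) (nat_lit 18) (nat_lit 72) (@Lb.fp (nat_lit 9) t594)))))))))))
noncomputable def l1939 : Lb := (@Lb.d (nat_lit 2) (nat_lit 514) (nat_lit 130) (@Lb.g g8 (@Lb.g g9 (@Lb.g g10 (@Lb.g g11 (@Lb.r r427 (@Lb.r r106 (@Lb.r r25 (@Lb.d (nat_lit 0) (nat_lit 68) (nat_lit 1) (@Lb.fp (nat_lit 9) t51))))))))))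
noncomputable def l1940 : Lb := (@Lb.d (nat_lit 2) (nat_lit 514) (nat_lit 64) (@Lb.g g8 (@Lb.g g9 (@Lb.g g10 (@Lb.g g11 (@Lb.r r1323 (@Lb.r r2626 (@Lb.r r25 (@Lb.d (nat_lit 0) (nat_lit 168) (nat_lit 642) (@Lb.fp (nat_lit 9) t51))))))))))
noncomputable def l1941 : Lb := (@Lb.d (nat_lit 9) (nat_lit 288) (nat_lit 128) (@Lb.g g8 (@Lb.g g10 (@Lb.g g11 (@Lb.r r2730 (@Lb.r r101 (@Lb.r r404 (@Lb.r r299 (@Lb.d (nat_lit 641) (nat_lit 104) (nat_lit 73) (@Lb.t (@Lb.fm (nat_lit 9) t51)))))))))))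
noncomputable def l1942 : Lb := (@Lb.r r323 (@Lb.d (nat_lit 2) (nat_lit 514) (nat_lit 2) (@Lb.g g8 (@Lb.g g9 (@Lb.g g10 (@Lb.r r362 (@Lb.r r387 (@Lb.r r25 (@Lb.d (nat_lit 0) (nat_lit 21) (nat_lit 321) (@Lb.t (@Lb.fm (nat_lit 9) t51)))))))))))
noncomputable def l1943 : Lb := (@Lb.d (nat_lit 0) (nat_lit 0) (nat_lit 128) (@Lb.g g4 (@Lb.g g10 (@Lb.g g11 (@Lb.r r2626 (@Lb.d (nat_lit 0) (nat_lit 0) (nat_lit 256) (@Lb.t (@Lb.fp (nat_lit 9) t2))))))))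
noncomputable def l1944 : Lb := (@Lb.d (nat_lit 9) (nat_lit 6) (nat_lit 128) (@Lb.g g8 (@Lb.g g9 (@Lb.g g10 (@Lb.g g11 (@Lb.r r619 (@Lb.r r2216 (@Lb.r r2666 (@Lb.r r1129 (@Lb.d (nat_lit 354) (nat_lit 73) (nat_lit 340) (@Lb.fm (nat_lit 9) t68)))))))))))
noncomputable def l1945 : Lb := (@Lb.d (nat_lit 2) (nat_lit 2) (nat_lit 130) (@Lb.g g8 (@Lb.g g9 (@Lb.g g10 (@Lb.g g11 (@Lb.r r427 (@Lb.r r106 (@Lb.r r25 (@Lb.d (nat_lit 0) (nat_lit 68) (nat_lit 136) (@Lb.fp (nat_lit 9) t51))))))))))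
noncomputable def l1946 : Lb := (@Lb.d (nat_lit 529) (nat_lit 256) (nat_lit 22) (@Lb.r r20 (@Lb.r r2153 (@Lb.r r386 (@Lb.g g11 (@Lb.g g6 (@Lb.g g5 (@Lb.g g4 (@Lb.d (nat_lit 1) (nat_lit 8) (nat_lit 128) (@Lb.fm (nat_lit 9) t51))))))))))
noncomputable def l1947 : Lb := (@Lb.d (nat_lit 32) (nat_lit 288) (nat_lit 320) (@Lb.g g10 (@Lb.g g11 (@Lb.r r1384 (@Lb.r r2406 (@Lb.r r289 (@Lb.d (nat_lit 24) (nat_lit 134) (nat_lit 162) (@Lb.fm (nat_lit 3) t51))))))))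
noncomputable def l1948 : Lb := (@Lb.r r323 (@Lb.d (nat_lit 32) (nat_lit 544) (nat_lit 2) (@Lb.g g9 (@Lb.g g10 (@Lb.r r584 (@Lb.r r331 (@Lb.r r598 (@Lb.r r153 (@Lb.d (nat_lit 26) (nat_lit 104) (nat_lit 146) (@Lb.fp (nat_lit 3) t2))))))))))
noncomputable def l1949 : Lb := (@Lb.d (nat_lit 6) (nat_lit 0) (nat_lit 128) (@Lb.g g8 (@Lb.g g9 (@Lb.g g10 (@Lb.g g11 (@Lb.r r1675 (@Lb.r r164 (@Lb.r r1445 (@Lb.r r1126 (@Lb.r r1156 (@Lb.d (nat_lit 521) (nat_lit 168) (nat_lit 402) (@Lb.fp (nat_lit 9) t51))))))))))))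
noncomputable def l1950 : Lb := (@Lb.r r323 (@Lb.d (nat_lit 2) (nat_lit 2) (nat_lit 2) (@Lb.g g8 (@Lb.g g9 (@Lb.g g10 (@Lb.r r362 (@Lb.r r387 (@Lb.r r25 (@Lb.d (nat_lit 9) (nat_lit 144) (nat_lit 266) (@Lb.t (@Lb.fm (nat_lit 9) t51)))))))))))
noncomputable def l1951 : Lb := (@Lb.d (nat_lit 162) (nat_lit 2) (nat_lit 0) (@Lb.g g8 (@Lb.g g9 (@Lb.r r598 (@Lb.r r425 (@Lb.r r279 (@Lb.r r552 (@Lb.d (nat_lit 70) (nat_lit 80) (nat_lit 90) (@Lb.fm (nat_lit 3) t2)))))))))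
noncomputable def l1952 : Lb := (@Lb.r r323 (@Lb.d (nat_lit 2) (nat_lit 258) (nat_lit 2) (@Lb.g g8 (@Lb.g g9 (@Lb.g g10 (@Lb.r r362 (@Lb.r r387 (@Lb.r r25 (@Lb.d (nat_lit 9) (nat_lit 149) (nat_lit 321) (@Lb.t (@Lb.fm (nat_lit 9) t51)))))))))))
noncomputable def l1953 : Lb := (@Lb.d (nat_lit 2) (nat_lit 2) (nat_lit 130) (@Lb.g g8 (@Lb.g g9 (@Lb.g g10 (@Lb.g g11 (@Lb.r r642 (@Lb.r r1687 (@Lb.r r1602 (@Lb.r r25 (@Lb.d (nat_lit 9) (nat_lit 161) (nat_lit 330) (@Lb.fp (nat_lit 9) t51)))))))))))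
noncomputable def l1954 : Lb := (@Lb.r r323 (@Lb.d (nat_lit 2) (nat_lit 514) (nat_lit 2) (@Lb.g g8 (@Lb.g g9 (@Lb.g g10 (@Lb.r r362 (@Lb.r r387 (@Lb.r r25 (@Lb.d (nat_lit 9) (nat_lit 101) (nat_lit 72) (@Lb.t (@Lb.fm (nat_lit 9) t51)))))))))))
noncomputable def l1955 : Lb := (@Lb.r r21 (@Lb.d (nat_lit 0) (nat_lit 552) (nat_lit 130) (@Lb.g g8 (@Lb.g g10 (@Lb.g g11 (@Lb.r r1121 (@Lb.r r1178 (@Lb.r r2724 (@Lb.r r423 (@Lb.d (nat_lit 96) (nat_lit 130) (nat_lit 612) (@Lb.t (@Lb.fm (nat_lit 9) t2))))))))))))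
noncomputable def l1956 : Lb := (@Lb.r r21 (@Lb.d (nat_lit 0) (nat_lit 40) (nat_lit 130) (@Lb.g g8 (@Lb.g g10 (@Lb.g g11 (@Lb.r r1121 (@Lb.r r1178 (@Lb.r r2724 (@Lb.r r423 (@Lb.d (nat_lit 106) (nat_lit 129) (nat_lit 612) (@Lb.t (@Lb.fm (nat_lit 9) t2))))))))))))
noncomputable def l1957 : Lb := (@Lb.r r323 (@Lb.d (nat_lit 2) (nat_lit 2) (nat_lit 2) (@Lb.g g8 (@Lb.g g9 (@Lb.g g10 (@Lb.r r362 (@Lb.r r387 (@Lb.r r25 (@Lb.d (nat_lit 9) (nat_lit 96) (nat_lit 74) (@Lb.t (@Lb.fm (nat_lit 9) t51)))))))))))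
noncomputable def l1958 : Lb := (@Lb.d (nat_lit 10) (nat_lit 513) (nat_lit 0) (@Lb.g g8 (@Lb.g g9 (@Lb.r r40 (@Lb.r r1065 (@Lb.r r1060 (@Lb.d (nat_lit 513) (nat_lit 130) (nat_lit 0) (@Lb.fm (nat_lit 3) t2))))))))
noncomputable def l1959 : Lb := (@Lb.d (nat_lit 9) (nat_lit 512) (nat_lit 0) (@Lb.g g8 (@Lb.d (nat_lit 9) (nat_lit 130) (nat_lit 0) (@Lb.t (@Lb.fp (nat_lit 3) t2)))))
noncomputable def l1960 : Lb := (@Lb.r r21 (@Lb.g g8 (@Lb.r r2073 (@Lb.r r2052 (@Lb.t (@Lb.fp (nat_lit 3) t2))))))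
noncomputable def l1961 : Lb := (@Lb.d (nat_lit 130) (nat_lit 256) (nat_lit 0) (@Lb.g g8 (@Lb.r r662 (@Lb.r r391 (@Lb.r r289 (@Lb.r r584 (@Lb.d (nat_lit 98) (nat_lit 128) (nat_lit 581) (@Lb.t (@Lb.fm (nat_lit 3) t51)))))))))
noncomputable def l1962 : Lb := (@Lb.d (nat_lit 2) (nat_lit 514) (nat_lit 66) (@Lb.g g8 (@Lb.g g9 (@Lb.g g10 (@Lb.g g11 (@Lb.r r427 (@Lb.r r106 (@Lb.r r25 (@Lb.d (nat_lit 9) (nat_lit 72) (nat_lit 137) (@Lb.fp (nat_lit 9) t51))))))))))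
noncomputable def l1963 : Lb := (@Lb.r r21 (@Lb.d (nat_lit 0) (nat_lit 296) (nat_lit 73) (@Lb.g g8 (@Lb.g g10 (@Lb.g g11 (@Lb.r r1121 (@Lb.r r1178 (@Lb.r r2724 (@Lb.r r423 (@Lb.d (nat_lit 106) (nat_lit 129) (nat_lit 612) (@Lb.t (@Lb.fm (nat_lit 9) t2))))))))))))
noncomputable def l1964 : Lb := (@Lb.d (nat_lit 9) (nat_lit 290) (nat_lit 2) (@Lb.g g8 (@Lb.g g9 (@Lb.g g10 (@Lb.r r170 (@Lb.r r1444 (@Lb.r r2331 (@Lb.r r549 (@Lb.d (nat_lit 128) (nat_lit 82) (nat_lit 74) (@Lb.t (@Lb.fm (nat_lit 9) t284)))))))))))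
noncomputable def l1965 : Lb := (@Lb.d (nat_lit 1) (nat_lit 682) (nat_lit 73) (@Lb.r r21 (@Lb.r r682 (@Lb.r r599 (@Lb.g g7 (@Lb.g g6 (@Lb.g g5 (@Lb.g g4 (@Lb.d (nat_lit 1) (nat_lit 1) (nat_lit 10) (@Lb.fp (nat_lit 9) t40))))))))))
noncomputable def l1966 : Lb := (@Lb.r r323 (@Lb.d (nat_lit 8) (nat_lit 2) (nat_lit 1) (@Lb.g g8 (@Lb.g g9 (@Lb.g g6 (@Lb.r r387 (@Lb.r r2145 (@Lb.r r24 (@Lb.d (nat_lit 10) (nat_lit 73) (nat_lit 98) (@Lb.t (@Lb.fp (nat_lit 9) t40)))))))))))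
noncomputable def l1967 : Lb := (@Lb.d (nat_lit 9) (nat_lit 258) (nat_lit 130) (@Lb.g g8 (@Lb.g g9 (@Lb.g g10 (@Lb.g g11 (@Lb.r r682 (@Lb.r r676 (@Lb.r r551 (@Lb.r r1557 (@Lb.r r36 (@Lb.d (nat_lit 392) (nat_lit 2) (nat_lit 586) (@Lb.fp (nat_lit 9) t284))))))))))))
noncomputable def l1968 : Lb := (@Lb.d (nat_lit 9) (nat_lit 260) (nat_lit 74) (@Lb.g g8 (@Lb.g g9 (@Lb.g g10 (@Lb.g g11 (@Lb.r r2691 (@Lb.r r1450 (@Lb.r r289 (@Lb.r r24 (@Lb.d (nat_lit 136) (nat_lit 33) (nat_lit 168) (@Lb.fp (nat_lit 9) t378)))))))))))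
noncomputable def l1969 : Lb := (@Lb.r r323 (@Lb.d (nat_lit 1) (nat_lit 2) (nat_lit 0) (@Lb.g g8 (@Lb.g g9 (@Lb.g g10 (@Lb.r r427 (@Lb.r r106 (@Lb.r r25 (@Lb.d (nat_lit 9) (nat_lit 9) (nat_lit 2) (@Lb.t (@Lb.fm (nat_lit 9) t51)))))))))))
noncomputable def l1970 : Lb := (@Lb.r r323 (@Lb.d (nat_lit 16) (nat_lit 256) (nat_lit 25) (@Lb.g g6 (@Lb.r r2439 (@Lb.d (nat_lit 256) (nat_lit 0) (nat_lit 85) (@Lb.t (@Lb.fm (nat_lit 3) t282)))))))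
noncomputable def l1971 : Lb := (@Lb.r r21 (@Lb.r r70 (@Lb.d (nat_lit 128) (nat_lit 512) (nat_lit 128) (@Lb.g g8 (@Lb.g g11 (@Lb.r r1563 (@Lb.r r281 (@Lb.r r2196 (@Lb.r r2182 (@Lb.d (nat_lit 0) (nat_lit 72) (nat_lit 18) (@Lb.fm (nat_lit 3) t68)))))))))))
noncomputable def l1972 : Lb := (@Lb.r r323 (@Lb.d (nat_lit 1) (nat_lit 2) (nat_lit 1) (@Lb.g g8 (@Lb.g g9 (@Lb.g g6 (@Lb.r r387 (@Lb.r r2153 (@Lb.r r36 (@Lb.d (nat_lit 297) (nat_lit 2) (nat_lit 34) (@Lb.t (@Lb.fm (nat_lit 9) t40)))))))))))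
noncomputable def l1973 : Lb := (@Lb.r r323 (@Lb.d (nat_lit 2) (nat_lit 258) (nat_lit 1) (@Lb.g g8 (@Lb.g g9 (@Lb.g g6 (@Lb.r r387 (@Lb.r r2153 (@Lb.r r36 (@Lb.d (nat_lit 290) (nat_lit 0) (nat_lit 34) (@Lb.t (@Lb.fm (nat_lit 9) t40)))))))))))
noncomputable def l1974 : Lb := (@Lb.r r323 (@Lb.d (nat_lit 2) (nat_lit 514) (nat_lit 1) (@Lb.g g8 (@Lb.g g9 (@Lb.g g6 (@Lb.r r387 (@Lb.r r2153 (@Lb.r r36 (@Lb.d (nat_lit 297) (nat_lit 2) (nat_lit 34) (@Lb.t (@Lb.fm (nat_lit 9) t40)))))))))))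
noncomputable def l1975 : Lb := (@Lb.d (nat_lit 32) (nat_lit 512) (nat_lit 2) (@Lb.g g6 (@Lb.r r289 (@Lb.r r664 (@Lb.r r411 (@Lb.r r330 (@Lb.d (nat_lit 98) (nat_lit 0) (nat_lit 90) (@Lb.t (@Lb.fm (nat_lit 3) t40)))))))))
noncomputable def l1976 : Lb := (@Lb.d (nat_lit 128) (nat_lit 256) (nat_lit 128) (@Lb.g g10 (@Lb.g g11 (@Lb.r r264 (@Lb.r r519 (@Lb.r r101 (@Lb.r r154 (@Lb.d (nat_lit 393) (nat_lit 2) (nat_lit 160) (@Lb.fm (nat_lit 3) t425)))))))))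
noncomputable def l1977 : Lb := (@Lb.d (nat_lit 32) (nat_lit 256) (nat_lit 74) (@Lb.g g10 (@Lb.g g11 (@Lb.r r1384 (@Lb.r r2711 (@Lb.r r1377 (@Lb.r r2706 (@Lb.d (nat_lit 278) (nat_lit 168) (nat_lit 404) (@Lb.fm (nat_lit 3) t40)))))))))
noncomputable def l1978 : Lb := (@Lb.r r323 (@Lb.d (nat_lit 2) (nat_lit 258) (nat_lit 1) (@Lb.g g8 (@Lb.g g9 (@Lb.g g6 (@Lb.r r387 (@Lb.r r2153 (@Lb.r r36 (@Lb.d (nat_lit 297) (nat_lit 2) (nat_lit 98) (@Lb.t (@Lb.fm (nat_lit 9) t40)))))))))))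
noncomputable def l1979 : Lb := (@Lb.r r323 (@Lb.d (nat_lit 2) (nat_lit 73) (nat_lit 2) (@Lb.g g8 (@Lb.g g9 (@Lb.g g10 (@Lb.r r2475 (@Lb.r r2154 (@Lb.d (nat_lit 553) (nat_lit 137) (nat_lit 34) (@Lb.t (@Lb.fm (nat_lit 9) t594))))))))))
noncomputable def l1980 : Lb := (@Lb.r r21 (@Lb.d (nat_lit 2) (nat_lit 8) (nat_lit 2) (@Lb.g g8 (@Lb.g g10 (@Lb.g g11 (@Lb.r r353 (@Lb.r r407 (@Lb.r r584 (@Lb.r r390 (@Lb.d (nat_lit 98) (nat_lit 0) (nat_lit 136) (@Lb.t (@Lb.fp (nat_lit 9) t2))))))))))))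
noncomputable def l1981 : Lb := (@Lb.r r21 (@Lb.r r323 (@Lb.d (nat_lit 130) (nat_lit 256) (nat_lit 0) (@Lb.g g8 (@Lb.g g10 (@Lb.r r295 (@Lb.r r357 (@Lb.r r154 (@Lb.r r152 (@Lb.d (nat_lit 26) (nat_lit 10) (nat_lit 1) (@Lb.fp (nat_lit 3) t2)))))))))))
noncomputable def l1982 : Lb := (@Lb.d (nat_lit 8) (nat_lit 2) (nat_lit 66) (@Lb.g g8 (@Lb.g g9 (@Lb.g g10 (@Lb.g g7 (@Lb.r r386 (@Lb.r r2145 (@Lb.r r24 (@Lb.d (nat_lit 10) (nat_lit 73) (nat_lit 41) (@Lb.fp (nat_lit 9) t40))))))))))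
noncomputable def l1983 : Lb := (@Lb.d (nat_lit 0) (nat_lit 256) (nat_lit 104) (@Lb.g g8 (@Lb.g g6 (@Lb.g g11 (@Lb.r r579 (@Lb.d (nat_lit 0) (nat_lit 0) (nat_lit 154) (@Lb.t (@Lb.fm (nat_lit 9) t2))))))))
noncomputable def l1984 : Lb := (@Lb.d (nat_lit 2) (nat_lit 258) (nat_lit 74) (@Lb.g g8 (@Lb.g g9 (@Lb.g g10 (@Lb.g g11 (@Lb.r r618 (@Lb.r r579 (@Lb.r r25 (@Lb.d (nat_lit 2) (nat_lit 97) (nat_lit 74) (@Lb.fm (nat_lit 9) t51))))))))))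
noncomputable def l1985 : Lb := (@Lb.d (nat_lit 0) (nat_lit 512) (nat_lit 40) (@Lb.g g8 (@Lb.g g6 (@Lb.g g11 (@Lb.r r579 (@Lb.d (nat_lit 0) (nat_lit 0) (nat_lit 154) (@Lb.t (@Lb.fm (nat_lit 9) t2))))))))
noncomputable def l1986 : Lb := (@Lb.d (nat_lit 2) (nat_lit 2) (nat_lit 73) (@Lb.g g8 (@Lb.g g9 (@Lb.g g10 (@Lb.g g11 (@Lb.r r2666 (@Lb.r r579 (@Lb.r r25 (@Lb.d (nat_lit 2) (nat_lit 161) (nat_lit 586) (@Lb.fm (nat_lit 9) t51))))))))))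
noncomputable def l1987 : Lb := (@Lb.r r134 (@Lb.r r516 (@Lb.r r423 (@Lb.r r425 (@Lb.r r20 (@Lb.d (nat_lit 0) (nat_lit 128) (nat_lit 32) (@Lb.fp (nat_lit 1) t232)))))))
noncomputable def l1988 : Lb := (@Lb.r r21 (@Lb.d (nat_lit 10) (nat_lit 40) (nat_lit 130) (@Lb.g g8 (@Lb.g g10 (@Lb.g g11 (@Lb.r r1121 (@Lb.r r2134 (@Lb.r r408 (@Lb.r r423 (@Lb.d (nat_lit 106) (nat_lit 129) (nat_lit 602) (@Lb.t (@Lb.fm (nat_lit 9) t2))))))))))))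
noncomputable def l1989 : Lb := (@Lb.r r21 (@Lb.d (nat_lit 6) (nat_lit 256) (nat_lit 74) (@Lb.g g8 (@Lb.g g10 (@Lb.g g11 (@Lb.r r618 (@Lb.r r579 (@Lb.r r25 (@Lb.d (nat_lit 9) (nat_lit 96) (nat_lit 74) (@Lb.t (@Lb.fp (nat_lit 9) t51)))))))))))
noncomputable def l1990 : Lb := (@Lb.d (nat_lit 5) (nat_lit 614) (nat_lit 592) (@Lb.r r24 (@Lb.r r1633 (@Lb.g g7 (@Lb.g g10 (@Lb.g g5 (@Lb.g g4 (@Lb.d (nat_lit 6) (nat_lit 1) (nat_lit 164) (@Lb.fm (nat_lit 9) t51)))))))))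
noncomputable def l1991 : Lb := (@Lb.d (nat_lit 9) (nat_lit 37) (nat_lit 64) (@Lb.g g8 (@Lb.g g9 (@Lb.g g10 (@Lb.g g11 (@Lb.r r1706 (@Lb.r r168 (@Lb.r r1577 (@Lb.r r1315 (@Lb.r r2084 (@Lb.d (nat_lit 586) (nat_lit 65) (nat_lit 74) (@Lb.fm (nat_lit 9) t125))))))))))))
noncomputable def l1992 : Lb := (@Lb.d (nat_lit 0) (nat_lit 512) (nat_lit 129) (@Lb.g g10 (@Lb.g g11 (@Lb.r r2690 (@Lb.r r387 (@Lb.d (nat_lit 0) (nat_lit 0) (nat_lit 402) (@Lb.fp (nat_lit 3) t2)))))))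
noncomputable def l1993 : Lb := (@Lb.r r323 (@Lb.d (nat_lit 2) (nat_lit 289) (nat_lit 2) (@Lb.g g8 (@Lb.g g9 (@Lb.g g10 (@Lb.r r2647 (@Lb.r r74 (@Lb.r r1320 (@Lb.r r1433 (@Lb.d (nat_lit 661) (nat_lit 152) (nat_lit 682) (@Lb.t (@Lb.fm (nat_lit 9) t51))))))))))))
noncomputable def l1994 : Lb := (@Lb.g g4 (@Lb.d (nat_lit 0) (nat_lit 256) (nat_lit 128) (@Lb.t (@Lb.fm (nat_lit 3) t2))))
noncomputable def l1995 : Lb := (@Lb.d (nat_lit 6) (nat_lit 2) (nat_lit 128) (@Lb.r r289 (@Lb.r r279 (@Lb.r r584 (@Lb.r r326 (@Lb.g g7 (@Lb.g g6 (@Lb.d (nat_lit 0) (nat_lit 0) (nat_lit 65) (@Lb.fm (nat_lit 3) t68)))))))))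
noncomputable def l1996 : Lb := (@Lb.d (nat_lit 2) (nat_lit 0) (nat_lit 0) (@Lb.g g8 (@Lb.r r289 (@Lb.r r535 (@Lb.r r328 (@Lb.r r134 (@Lb.d (nat_lit 0) (nat_lit 0) (nat_lit 128) (@Lb.t (@Lb.fp (nat_lit 3) t40)))))))))
noncomputable def l1997 : Lb := (@Lb.r r289 (@Lb.r r535 (@Lb.r r328 (@Lb.r r134 (@Lb.fp (nat_lit 1) t40)))))
noncomputable def l1998 : Lb := (@Lb.d (nat_lit 2) (nat_lit 258) (nat_lit 130) (@Lb.g g8 (@Lb.g g9 (@Lb.g g10 (@Lb.g g11 (@Lb.r r148 (@Lb.r r102 (@Lb.r r357 (@Lb.r r667 (@Lb.r r644 (@Lb.d (nat_lit 9) (nat_lit 2) (nat_lit 74) (@Lb.fp (nat_lit 9) t2))))))))))))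
noncomputable def l1999 : Lb := (@Lb.r r21 (@Lb.d (nat_lit 2) (nat_lit 264) (nat_lit 130) (@Lb.g g8 (@Lb.g g10 (@Lb.g g11 (@Lb.r r353 (@Lb.r r407 (@Lb.r r584 (@Lb.r r390 (@Lb.d (nat_lit 105) (nat_lit 2) (nat_lit 8) (@Lb.t (@Lb.fp (nat_lit 9) t2))))))))))))
noncomputable def l2000 : Lb := (@Lb.r r21 (@Lb.d (nat_lit 2) (nat_lit 520) (nat_lit 130) (@Lb.g g8 (@Lb.g g10 (@Lb.g g11 (@Lb.r r353 (@Lb.r r407 (@Lb.r r584 (@Lb.r r390 (@Lb.d (nat_lit 105) (nat_lit 2) (nat_lit 136) (@Lb.t (@Lb.fp (nat_lit 9) t2))))))))))))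
noncomputable def l2001 : Lb := (@Lb.d (nat_lit 168) (nat_lit 0) (nat_lit 130) (@Lb.g g9 (@Lb.g g10 (@Lb.g g11 (@Lb.r r72 (@Lb.r r86 (@Lb.r r421 (@Lb.r r411 (@Lb.d (nat_lit 2) (nat_lit 80) (nat_lit 9) (@Lb.t (@Lb.fm (nat_lit 9) t45)))))))))))
noncomputable def l2002 : Lb := (@Lb.d (nat_lit 0) (nat_lit 517) (nat_lit 105) (@Lb.g g9 (@Lb.g g6 (@Lb.g g11 (@Lb.r r579 (@Lb.r r1317 (@Lb.r r24 (@Lb.d (nat_lit 640) (nat_lit 0) (nat_lit 154) (@Lb.t (@Lb.fm (nat_lit 9) t725))))))))))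
noncomputable def l2003 : Lb := (@Lb.d (nat_lit 532) (nat_lit 134) (nat_lit 34) (@Lb.r r289 (@Lb.r r1690 (@Lb.r r1448 (@Lb.r r2647 (@Lb.g g10 (@Lb.d (nat_lit 16) (nat_lit 0) (nat_lit 1) (@Lb.t (@Lb.fp (nat_lit 3) t726)))))))))
noncomputable def l2004 : Lb := (@Lb.d (nat_lit 2) (nat_lit 2) (nat_lit 130) (@Lb.g g8 (@Lb.g g9 (@Lb.g g10 (@Lb.g g11 (@Lb.r r148 (@Lb.r r102 (@Lb.r r357 (@Lb.r r667 (@Lb.r r644 (@Lb.d (nat_lit 2) (nat_lit 66) (nat_lit 74) (@Lb.fp (nat_lit 9) t2))))))))))))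
noncomputable def l2005 : Lb := (@Lb.d (nat_lit 2) (nat_lit 514) (nat_lit 2) (@Lb.g g8 (@Lb.g g9 (@Lb.g g10 (@Lb.r r2666 (@Lb.r r579 (@Lb.r r25 (@Lb.d (nat_lit 9) (nat_lit 97) (nat_lit 586) (@Lb.t (@Lb.fp (nat_lit 9) t51))))))))))
noncomputable def l2006 : Lb := (@Lb.d (nat_lit 2) (nat_lit 258) (nat_lit 73) (@Lb.g g8 (@Lb.g g9 (@Lb.g g10 (@Lb.g g11 (@Lb.r r644 (@Lb.r r598 (@Lb.r r2457 (@Lb.r r1319 (@Lb.r r2564 (@Lb.d (nat_lit 10) (nat_lit 129) (nat_lit 90) (@Lb.fp (nat_lit 9) t2))))))))))))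
noncomputable def l2007 : Lb := (@Lb.d (nat_lit 2) (nat_lit 514) (nat_lit 2) (@Lb.g g8 (@Lb.g g9 (@Lb.g g10 (@Lb.r r427 (@Lb.r r386 (@Lb.r r25 (@Lb.d (nat_lit 9) (nat_lit 21) (nat_lit 134) (@Lb.t (@Lb.fp (nat_lit 9) t51))))))))))
noncomputable def l2008 : Lb := (@Lb.d (nat_lit 2) (nat_lit 514) (nat_lit 130) (@Lb.g g8 (@Lb.g g9 (@Lb.g g10 (@Lb.g g11 (@Lb.r r644 (@Lb.r r598 (@Lb.r r2457 (@Lb.r r1319 (@Lb.r r2564 (@Lb.d (nat_lit 0) (nat_lit 130) (nat_lit 90) (@Lb.fp (nat_lit 9) t2))))))))))))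
noncomputable def l2009 : Lb := (@Lb.d (nat_lit 2) (nat_lit 514) (nat_lit 74) (@Lb.g g8 (@Lb.g g9 (@Lb.g g10 (@Lb.g g11 (@Lb.r r618 (@Lb.r r579 (@Lb.r r25 (@Lb.d (nat_lit 9) (nat_lit 33) (nat_lit 74) (@Lb.fm (nat_lit 9) t51))))))))))
noncomputable def l2010 : Lb := (@Lb.r r154 (@Lb.r r664 (@Lb.r r539 (@Lb.r r289 (@Lb.r r36 (@Lb.d (nat_lit 0) (nat_lit 133) (nat_lit 648) (@Lb.fp (nat_lit 1) t51)))))))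
noncomputable def l2011 : Lb := (@Lb.d (nat_lit 2) (nat_lit 2) (nat_lit 130) (@Lb.g g8 (@Lb.g g9 (@Lb.g g10 (@Lb.g g11 (@Lb.r r644 (@Lb.r r598 (@Lb.r r2457 (@Lb.r r1319 (@Lb.r r2564 (@Lb.d (nat_lit 10) (nat_lit 129) (nat_lit 90) (@Lb.fp (nat_lit 9) t2))))))))))))
noncomputable def l2012 : Lb := (@Lb.d (nat_lit 6) (nat_lit 256) (nat_lit 0) (@Lb.g g8 (@Lb.g g9 (@Lb.r r2088 (@Lb.r r25 (@Lb.d (nat_lit 258) (nat_lit 66) (nat_lit 0) (@Lb.fp (nat_lit 3) t2)))))))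
noncomputable def l2013 : Lb := (@Lb.r r323 (@Lb.d (nat_lit 2) (nat_lit 514) (nat_lit 2) (@Lb.g g8 (@Lb.g g9 (@Lb.g g10 (@Lb.r r362 (@Lb.r r387 (@Lb.r r25 (@Lb.d (nat_lit 9) (nat_lit 38) (nat_lit 72) (@Lb.t (@Lb.fm (nat_lit 9) t51)))))))))))
noncomputable def l2014 : Lb := (@Lb.d (nat_lit 529) (nat_lit 0) (nat_lit 145) (@Lb.r r20 (@Lb.r r2153 (@Lb.r r323 (@Lb.g g10 (@Lb.g g5 (@Lb.g g4 (@Lb.d (nat_lit 10) (nat_lit 0) (nat_lit 2) (@Lb.r r387 (@Lb.t (@Lb.fp (nat_lit 9) t51)))))))))))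
noncomputable def l2015 : Lb := (@Lb.d (nat_lit 2) (nat_lit 258) (nat_lit 130) (@Lb.g g8 (@Lb.g g9 (@Lb.g g10 (@Lb.g g11 (@Lb.r r427 (@Lb.r r106 (@Lb.r r25 (@Lb.d (nat_lit 0) (nat_lit 73) (nat_lit 2) (@Lb.fp (nat_lit 9) t51))))))))))
noncomputable def l2016 : Lb := (@Lb.d (nat_lit 2) (nat_lit 514) (nat_lit 73) (@Lb.g g8 (@Lb.g g9 (@Lb.g g10 (@Lb.g g11 (@Lb.r r2666 (@Lb.r r579 (@Lb.r r25 (@Lb.d (nat_lit 0) (nat_lit 161) (nat_lit 586) (@Lb.fm (nat_lit 9) t51))))))))))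
noncomputable def l2017 : Lb := (@Lb.d (nat_lit 2) (nat_lit 2) (nat_lit 74) (@Lb.g g8 (@Lb.g g9 (@Lb.g g10 (@Lb.g g11 (@Lb.r r618 (@Lb.r r579 (@Lb.r r25 (@Lb.d (nat_lit 0) (nat_lit 97) (nat_lit 74) (@Lb.fm (nat_lit 9) t51))))))))))
noncomputable def l2018 : Lb := (@Lb.d (nat_lit 529) (nat_lit 256) (nat_lit 145) (@Lb.r r20 (@Lb.r r2153 (@Lb.r r323 (@Lb.g g10 (@Lb.g g5 (@Lb.g g4 (@Lb.d (nat_lit 1) (nat_lit 1) (nat_lit 2) (@Lb.r r387 (@Lb.t (@Lb.fp (nat_lit 9) t51)))))))))))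
noncomputable def l2019 : Lb := (@Lb.d (nat_lit 2) (nat_lit 1) (nat_lit 0) (@Lb.g g8 (@Lb.g g9 (@Lb.r r2089 (@Lb.r r36 (@Lb.d (nat_lit 265) (nat_lit 2) (nat_lit 0) (@Lb.fp (nat_lit 3) t2)))))))
noncomputable def l2020 : Lb := (@Lb.r r21 (@Lb.d (nat_lit 137) (nat_lit 512) (nat_lit 0) (@Lb.g g8 (@Lb.r r2458 (@Lb.r r1637 (@Lb.r r1703 (@Lb.r r2392 (@Lb.d (nat_lit 426) (nat_lit 34) (nat_lit 384) (@Lb.t (@Lb.fp (nat_lit 3) t51))))))))))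
noncomputable def l2021 : Lb := (@Lb.r r323 (@Lb.d (nat_lit 32) (nat_lit 520) (nat_lit 2) (@Lb.g g10 (@Lb.r r616 (@Lb.r r363 (@Lb.r r353 (@Lb.r r658 (@Lb.d (nat_lit 0) (nat_lit 105) (nat_lit 149) (@Lb.t (@Lb.fm (nat_lit 3) t2))))))))))
noncomputable def l2022 : Lb := (@Lb.d (nat_lit 128) (nat_lit 520) (nat_lit 66) (@Lb.g g10 (@Lb.g g11 (@Lb.r r361 (@Lb.r r292 (@Lb.r r539 (@Lb.r r134 (@Lb.d (nat_lit 105) (nat_lit 34) (nat_lit 145) (@Lb.fp (nat_lit 3) t2)))))))))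
noncomputable def l2023 : Lb := (@Lb.d (nat_lit 128) (nat_lit 8) (nat_lit 130) (@Lb.g g10 (@Lb.g g11 (@Lb.r r361 (@Lb.r r292 (@Lb.r r539 (@Lb.r r134 (@Lb.d (nat_lit 98) (nat_lit 32) (nat_lit 145) (@Lb.fp (nat_lit 3) t2)))))))))
noncomputable def l2024 : Lb := (@Lb.r r89 (@Lb.r r166 (@Lb.r r340 (@Lb.r r683 (@Lb.r r657 (@Lb.r r36 (@Lb.d (nat_lit 10) (nat_lit 320) (nat_lit 18) (@Lb.fp (nat_lit 1) t2))))))))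
noncomputable def l2025 : Lb := (@Lb.r r89 (@Lb.r r166 (@Lb.r r340 (@Lb.r r683 (@Lb.r r657 (@Lb.r r36 (@Lb.d (nat_lit 0) (nat_lit 65) (nat_lit 18) (@Lb.fp (nat_lit 1) t2))))))))
noncomputable def l2026 : Lb := (@Lb.d (nat_lit 10) (nat_lit 514) (nat_lit 130) (@Lb.g g4 (@Lb.g g9 (@Lb.g g10 (@Lb.g g11 (@Lb.r r419 (@Lb.r r98 (@Lb.d (nat_lit 0) (nat_lit 9) (nat_lit 137) (@Lb.fm (nat_lit 9) t51)))))))))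
noncomputable def l2027 : Lb := (@Lb.d (nat_lit 9) (nat_lit 258) (nat_lit 130) (@Lb.g g8 (@Lb.g g9 (@Lb.g g10 (@Lb.g g11 (@Lb.r r2210 (@Lb.r r660 (@Lb.r r425 (@Lb.r r2327 (@Lb.r r1572 (@Lb.d (nat_lit 2) (nat_lit 10) (nat_lit 601) (@Lb.fp (nat_lit 9) t242))))))))))))
noncomputable def l2028 : Lb := (@Lb.d (nat_lit 149) (nat_lit 144) (nat_lit 65) (@Lb.r r536 (@Lb.r r411 (@Lb.r r402 (@Lb.g g7 (@Lb.g g5 (@Lb.g g4 (@Lb.d (nat_lit 17) (nat_lit 1) (nat_lit 68) (@Lb.r r98 (@Lb.t (@Lb.fp (nat_lit 9) t242)))))))))))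
noncomputable def l2029 : Lb := (@Lb.d (nat_lit 0) (nat_lit 338) (nat_lit 389) (@Lb.r r21 (@Lb.r r579 (@Lb.r r1366 (@Lb.g g6 (@Lb.g g5 (@Lb.g g4 (@Lb.d (nat_lit 1) (nat_lit 1) (nat_lit 1) (@Lb.t (@Lb.fm (nat_lit 9) t40))))))))))
noncomputable def l2030 : Lb := (@Lb.d (nat_lit 273) (nat_lit 520) (nat_lit 133) (@Lb.r r596 (@Lb.r r1386 (@Lb.r r1633 (@Lb.r r291 (@Lb.g g6 (@Lb.g g5 (@Lb.g g4 (@Lb.d (nat_lit 65) (nat_lit 17) (nat_lit 5) (@Lb.t (@Lb.fm (nat_lit 9) t2)))))))))))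
noncomputable def l2031 : Lb := (@Lb.r r134 (@Lb.r r328 (@Lb.r r535 (@Lb.r r289 (@Lb.fp (nat_lit 1) t51)))))
noncomputable def l2032 : Lb := (@Lb.d (nat_lit 0) (nat_lit 0) (nat_lit 136) (@Lb.g g11 (@Lb.d (nat_lit 0) (nat_lit 0) (nat_lit 130) (@Lb.t (@Lb.fp (nat_lit 3) t2)))))
noncomputable def l2033 : Lb := (@Lb.d (nat_lit 32) (nat_lit 256) (nat_lit 6) (@Lb.g g10 (@Lb.r r328 (@Lb.r r535 (@Lb.r r289 (@Lb.d (nat_lit 5) (nat_lit 0) (nat_lit 2) (@Lb.t (@Lb.fm (nat_lit 3) t51))))))))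
noncomputable def l2034 : Lb := (@Lb.d (nat_lit 2) (nat_lit 258) (nat_lit 130) (@Lb.g g8 (@Lb.g g9 (@Lb.g g10 (@Lb.g g11 (@Lb.r r610 (@Lb.r r612 (@Lb.r r359 (@Lb.r r277 (@Lb.r r548 (@Lb.d (nat_lit 9) (nat_lit 9) (nat_lit 130) (@Lb.fp (nat_lit 9) t145))))))))))))
noncomputable def l2035 : Lb := (@Lb.d (nat_lit 16) (nat_lit 512) (nat_lit 6) (@Lb.r r24 (@Lb.r r101 (@Lb.r r386 (@Lb.g g11 (@Lb.g g6 (@Lb.g g5 (@Lb.d (nat_lit 0) (nat_lit 0) (nat_lit 129) (@Lb.t (@Lb.fp (nat_lit 9) t51))))))))))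
noncomputable def l2036 : Lb := (@Lb.d (nat_lit 2) (nat_lit 258) (nat_lit 130) (@Lb.g g8 (@Lb.g g9 (@Lb.g g10 (@Lb.g g11 (@Lb.r r162 (@Lb.r r660 (@Lb.r r425 (@Lb.r r279 (@Lb.r r548 (@Lb.d (nat_lit 2) (nat_lit 10) (nat_lit 73) (@Lb.fp (nat_lit 9) t242))))))))))))
noncomputable def l2037 : Lb := (@Lb.d (nat_lit 6) (nat_lit 658) (nat_lit 389) (@Lb.r r21 (@Lb.r r579 (@Lb.r r1366 (@Lb.g g6 (@Lb.g g5 (@Lb.g g4 (@Lb.d (nat_lit 1) (nat_lit 1) (nat_lit 1) (@Lb.t (@Lb.fm (nat_lit 9) t40))))))))))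
noncomputable def l2038 : Lb := (@Lb.d (nat_lit 0) (nat_lit 512) (nat_lit 2) (@Lb.g g10 (@Lb.g g7 (@Lb.r r386 (@Lb.d (nat_lit 0) (nat_lit 5) (nat_lit 10) (@Lb.fm (nat_lit 3) t45))))))
noncomputable def l2039 : Lb := (@Lb.d (nat_lit 521) (nat_lit 512) (nat_lit 0) (@Lb.r r97 (@Lb.r r402 (@Lb.r r2631 (@Lb.g g8 (@Lb.d (nat_lit 2) (nat_lit 0) (nat_lit 0) (@Lb.r r267 (@Lb.r r74 (@Lb.r r25 (@Lb.t (@Lb.fm (nat_lit 3) t644)))))))))))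
noncomputable def l2040 : Lb := (@Lb.r r323 (@Lb.d (nat_lit 0) (nat_lit 260) (nat_lit 2) (@Lb.g g6 (@Lb.r r2659 (@Lb.r r101 (@Lb.r r24 (@Lb.d (nat_lit 257) (nat_lit 0) (nat_lit 129) (@Lb.t (@Lb.fp (nat_lit 3) t145)))))))))
noncomputable def l2041 : Lb := (@Lb.d (nat_lit 97) (nat_lit 297) (nat_lit 136) (@Lb.r r583 (@Lb.r r360 (@Lb.r r89 (@Lb.g g7 (@Lb.g g10 (@Lb.g g4 (@Lb.d (nat_lit 5) (nat_lit 16) (nat_lit 66) (@Lb.r r145 (@Lb.t (@Lb.fm (nat_lit 9) t145)))))))))))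
noncomputable def l2042 : Lb := (@Lb.d (nat_lit 2) (nat_lit 514) (nat_lit 2) (@Lb.g g8 (@Lb.g g9 (@Lb.g g10 (@Lb.g g11 (@Lb.r r610 (@Lb.r r612 (@Lb.r r359 (@Lb.r r277 (@Lb.r r548 (@Lb.d (nat_lit 9) (nat_lit 2) (nat_lit 128) (@Lb.fp (nat_lit 9) t145))))))))))))
noncomputable def l2043 : Lb := (@Lb.d (nat_lit 2) (nat_lit 514) (nat_lit 73) (@Lb.g g8 (@Lb.g g9 (@Lb.g g10 (@Lb.g g11 (@Lb.r r2705 (@Lb.r r356 (@Lb.r r667 (@Lb.r r586 (@Lb.r r1540 (@Lb.d (nat_lit 289) (nat_lit 5) (nat_lit 160) (@Lb.fm (nat_lit 9) t145))))))))))))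
noncomputable def l2044 : Lb := (@Lb.d (nat_lit 97) (nat_lit 17) (nat_lit 4) (@Lb.r r583 (@Lb.r r404 (@Lb.r r105 (@Lb.g g7 (@Lb.g g10 (@Lb.g g4 (@Lb.d (nat_lit 18) (nat_lit 24) (nat_lit 64) (@Lb.r r145 (@Lb.t (@Lb.fm (nat_lit 9) t145)))))))))))
noncomputable def l2045 : Lb := (@Lb.d (nat_lit 9) (nat_lit 545) (nat_lit 0) (@Lb.g g8 (@Lb.g g9 (@Lb.r r2340 (@Lb.r r2395 (@Lb.r r2178 (@Lb.r r2581 (@Lb.d (nat_lit 150) (nat_lit 162) (nat_lit 330) (@Lb.fp (nat_lit 3) t64)))))))))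
noncomputable def l2046 : Lb := (@Lb.d (nat_lit 0) (nat_lit 520) (nat_lit 2) (@Lb.g g10 (@Lb.r r1427 (@Lb.r r101 (@Lb.r r24 (@Lb.d (nat_lit 514) (nat_lit 10) (nat_lit 18) (@Lb.t (@Lb.fp (nat_lit 3) t313))))))))
noncomputable def l2047 : Lb := (@Lb.d (nat_lit 0) (nat_lit 601) (nat_lit 388) (@Lb.r r21 (@Lb.r r579 (@Lb.r r1366 (@Lb.g g6 (@Lb.g g5 (@Lb.g g4 (@Lb.d (nat_lit 1) (nat_lit 1) (nat_lit 1) (@Lb.t (@Lb.fm (nat_lit 9) t647))))))))))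
noncomputable def l2048 : Lb := (@Lb.d (nat_lit 137) (nat_lit 521) (nat_lit 1) (@Lb.g g8 (@Lb.g g9 (@Lb.g g10 (@Lb.r r675 (@Lb.r r170 (@Lb.r r529 (@Lb.r r392 (@Lb.d (nat_lit 152) (nat_lit 33) (nat_lit 74) (@Lb.t (@Lb.fp (nat_lit 9) t594)))))))))))
noncomputable def l2049 : Lb := (@Lb.d (nat_lit 9) (nat_lit 521) (nat_lit 66) (@Lb.g g8 (@Lb.g g9 (@Lb.g g10 (@Lb.g g11 (@Lb.r r170 (@Lb.r r424 (@Lb.r r279 (@Lb.r r529 (@Lb.r r36 (@Lb.d (nat_lit 1) (nat_lit 33) (nat_lit 74) (@Lb.fp (nat_lit 9) t594))))))))))))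
noncomputable def l2050 : Lb := (@Lb.d (nat_lit 612) (nat_lit 677) (nat_lit 358) (@Lb.r r1383 (@Lb.r r293 (@Lb.r r600 (@Lb.r r134 (@Lb.g g7 (@Lb.g g4 (@Lb.d (nat_lit 2) (nat_lit 16) (nat_lit 64) (@Lb.fp (nat_lit 3) t727)))))))))
noncomputable def l2051 : Lb := (@Lb.g g10 (@Lb.g g7 (@Lb.r r386 (@Lb.r r2371 (@Lb.r r578 (@Lb.d (nat_lit 0) (nat_lit 517) (nat_lit 1) (@Lb.fm (nat_lit 3) t45)))))))
noncomputable def l2052 : Lb := (@Lb.d (nat_lit 10) (nat_lit 512) (nat_lit 128) (@Lb.g g8 (@Lb.g g10 (@Lb.g g11 (@Lb.r r387 (@Lb.r r402 (@Lb.r r101 (@Lb.r r24 (@Lb.d (nat_lit 33) (nat_lit 0) (nat_lit 2) (@Lb.t (@Lb.fp (nat_lit 9) t145)))))))))))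
noncomputable def l2053 : Lb := (@Lb.d (nat_lit 8) (nat_lit 2) (nat_lit 130) (@Lb.g g9 (@Lb.g g10 (@Lb.g g11 (@Lb.r r419 (@Lb.r r386 (@Lb.d (nat_lit 2) (nat_lit 130) (nat_lit 325) (@Lb.t (@Lb.fp (nat_lit 9) t51)))))))))
noncomputable def l2054 : Lb := (@Lb.d (nat_lit 0) (nat_lit 0) (nat_lit 128) (@Lb.g g10 (@Lb.g g11 (@Lb.r r387 (@Lb.r r402 (@Lb.r r101 (@Lb.r r24 (@Lb.d (nat_lit 2) (nat_lit 0) (nat_lit 0) (@Lb.fp (nat_lit 3) t145)))))))))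
noncomputable def l2055 : Lb := (@Lb.g g6 (@Lb.g g7 (@Lb.r r323 (@Lb.r r2626 (@Lb.d (nat_lit 0) (nat_lit 512) (nat_lit 16) (@Lb.fm (nat_lit 3) t2))))))
noncomputable def l2056 : Lb := (@Lb.d (nat_lit 0) (nat_lit 36) (nat_lit 385) (@Lb.g g6 (@Lb.g g11 (@Lb.d (nat_lit 0) (nat_lit 138) (nat_lit 2) (@Lb.fp (nat_lit 3) t305)))))
noncomputable def l2057 : Lb := (@Lb.d (nat_lit 1) (nat_lit 514) (nat_lit 2) (@Lb.g g8 (@Lb.g g9 (@Lb.g g10 (@Lb.r r2666 (@Lb.r r579 (@Lb.r r25 (@Lb.d (nat_lit 9) (nat_lit 102) (nat_lit 584) (@Lb.t (@Lb.fp (nat_lit 9) t51))))))))))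
noncomputable def l2058 : Lb := (@Lb.d (nat_lit 137) (nat_lit 266) (nat_lit 0) (@Lb.g g8 (@Lb.g g9 (@Lb.r r1367 (@Lb.r r82 (@Lb.r r161 (@Lb.r r2664 (@Lb.d (nat_lit 353) (nat_lit 17) (nat_lit 297) (@Lb.fm (nat_lit 3) t591)))))))))
noncomputable def l2059 : Lb := (@Lb.d (nat_lit 2) (nat_lit 0) (nat_lit 0) (@Lb.g g8 (@Lb.r r593 (@Lb.r r1303 (@Lb.r r1414 (@Lb.r r2600 (@Lb.r r153 (@Lb.d (nat_lit 10) (nat_lit 26) (nat_lit 297) (@Lb.t (@Lb.fp (nat_lit 3) t591))))))))))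
noncomputable def l2060 : Lb := (@Lb.r r21 (@Lb.d (nat_lit 17) (nat_lit 256) (nat_lit 74) (@Lb.g g4 (@Lb.g g10 (@Lb.g g11 (@Lb.r r1687 (@Lb.r r2401 (@Lb.r r1170 (@Lb.d (nat_lit 534) (nat_lit 9) (nat_lit 34) (@Lb.t (@Lb.fm (nat_lit 9) t728)))))))))))
noncomputable def l2061 : Lb := (@Lb.d (nat_lit 6) (nat_lit 65) (nat_lit 650) (@Lb.r r21 (@Lb.r r386 (@Lb.r r343 (@Lb.g g7 (@Lb.g g6 (@Lb.g g5 (@Lb.g g4 (@Lb.d (nat_lit 1) (nat_lit 1) (nat_lit 8) (@Lb.fm (nat_lit 9) t729))))))))))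
noncomputable def l2062 : Lb := (@Lb.d (nat_lit 0) (nat_lit 512) (nat_lit 130) (@Lb.g g8 (@Lb.g g10 (@Lb.g g11 (@Lb.r r586 (@Lb.r r584 (@Lb.r r299 (@Lb.r r289 (@Lb.d (nat_lit 9) (nat_lit 130) (nat_lit 0) (@Lb.t (@Lb.fm (nat_lit 9) t51)))))))))))
noncomputable def l2063 : Lb := (@Lb.d (nat_lit 26) (nat_lit 618) (nat_lit 521) (@Lb.r r85 (@Lb.r r40 (@Lb.r r323 (@Lb.g g7 (@Lb.g g6 (@Lb.g g5 (@Lb.d (nat_lit 0) (nat_lit 2) (nat_lit 64) (@Lb.t (@Lb.fm (nat_lit 9) t538))))))))))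
noncomputable def l2064 : Lb := (@Lb.d (nat_lit 357) (nat_lit 38) (nat_lit 149) (@Lb.r r2663 (@Lb.r r1450 (@Lb.r r1172 (@Lb.g g7 (@Lb.g g5 (@Lb.d (nat_lit 64) (nat_lit 134) (nat_lit 128) (@Lb.fm (nat_lit 3) t730))))))))
noncomputable def l2065 : Lb := (@Lb.d (nat_lit 32) (nat_lit 256) (nat_lit 2) (@Lb.g g10 (@Lb.r r1284 (@Lb.r r2379 (@Lb.r r1686 (@Lb.r r2145 (@Lb.d (nat_lit 128) (nat_lit 0) (nat_lit 532) (@Lb.t (@Lb.fp (nat_lit 3) t578)))))))))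
noncomputable def l2066 : Lb := (@Lb.d (nat_lit 641) (nat_lit 512) (nat_lit 10) (@Lb.g g4 (@Lb.g g10 (@Lb.r r323 (@Lb.r r658 (@Lb.r r2145 (@Lb.d (nat_lit 8) (nat_lit 65) (nat_lit 20) (@Lb.fp (nat_lit 3) t578))))))))
noncomputable def l2067 : Lb := (@Lb.d (nat_lit 6) (nat_lit 577) (nat_lit 650) (@Lb.r r21 (@Lb.r r386 (@Lb.r r343 (@Lb.g g7 (@Lb.g g6 (@Lb.g g5 (@Lb.g g4 (@Lb.d (nat_lit 1) (nat_lit 1) (nat_lit 65) (@Lb.fm (nat_lit 9) t731))))))))))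
noncomputable def l2068 : Lb := (@Lb.d (nat_lit 6) (nat_lit 402) (nat_lit 320) (@Lb.r r21 (@Lb.r r579 (@Lb.r r1366 (@Lb.g g7 (@Lb.g g6 (@Lb.g g5 (@Lb.g g4 (@Lb.d (nat_lit 1) (nat_lit 1) (nat_lit 65) (@Lb.fm (nat_lit 9) t40))))))))))
noncomputable def l2069 : Lb := (@Lb.d (nat_lit 2) (nat_lit 33) (nat_lit 66) (@Lb.g g8 (@Lb.g g9 (@Lb.g g10 (@Lb.g g11 (@Lb.r r427 (@Lb.r r424 (@Lb.r r106 (@Lb.r r2153 (@Lb.r r2084 (@Lb.d (nat_lit 537) (nat_lit 129) (nat_lit 168) (@Lb.fp (nat_lit 9) t732))))))))))))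
noncomputable def l2070 : Lb := (@Lb.d (nat_lit 32) (nat_lit 512) (nat_lit 2) (@Lb.g g10 (@Lb.r r1284 (@Lb.r r2379 (@Lb.r r1686 (@Lb.r r2145 (@Lb.d (nat_lit 138) (nat_lit 2) (nat_lit 532) (@Lb.t (@Lb.fp (nat_lit 3) t578)))))))))
noncomputable def l2071 : Lb := (@Lb.r r82 (@Lb.d (nat_lit 2) (nat_lit 514) (nat_lit 580) (@Lb.g g8 (@Lb.g g9 (@Lb.g g7 (@Lb.r r386 (@Lb.r r1121 (@Lb.r r24 (@Lb.d (nat_lit 10) (nat_lit 137) (nat_lit 82) (@Lb.t (@Lb.fm (nat_lit 9) t729)))))))))))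
noncomputable def l2072 : Lb := (@Lb.d (nat_lit 1) (nat_lit 256) (nat_lit 0) (@Lb.r r24 (@Lb.r r101 (@Lb.r r402 (@Lb.r r323 (@Lb.g g7 (@Lb.g g6 (@Lb.g g4 (@Lb.d (nat_lit 0) (nat_lit 0) (nat_lit 10) (@Lb.t (@Lb.fm (nat_lit 9) t686)))))))))))
noncomputable def l2073 : Lb := (@Lb.d (nat_lit 256) (nat_lit 0) (nat_lit 1) (@Lb.r r24 (@Lb.r r101 (@Lb.r r2403 (@Lb.g g6 (@Lb.g g4 (@Lb.d (nat_lit 0) (nat_lit 4) (nat_lit 1) (@Lb.fm (nat_lit 3) t58))))))))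
noncomputable def l2074 : Lb := (@Lb.d (nat_lit 274) (nat_lit 256) (nat_lit 2) (@Lb.r r24 (@Lb.r r101 (@Lb.r r2403 (@Lb.g g6 (@Lb.g g4 (@Lb.d (nat_lit 0) (nat_lit 8) (nat_lit 2) (@Lb.fm (nat_lit 3) t733))))))))
noncomputable def l2075 : Lb := (@Lb.d (nat_lit 402) (nat_lit 266) (nat_lit 341) (@Lb.r r146 (@Lb.r r2385 (@Lb.r r551 (@Lb.g g5 (@Lb.g g8 (@Lb.d (nat_lit 10) (nat_lit 0) (nat_lit 0) (@Lb.r r98 (@Lb.fp (nat_lit 3) t734)))))))))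
noncomputable def l2076 : Lb := (@Lb.d (nat_lit 0) (nat_lit 256) (nat_lit 128) (@Lb.g g10 (@Lb.g g11 (@Lb.r r2471 (@Lb.r r1096 (@Lb.r r2646 (@Lb.r r409 (@Lb.d (nat_lit 272) (nat_lit 5) (nat_lit 169) (@Lb.fp (nat_lit 3) t450)))))))))
noncomputable def l2077 : Lb := (@Lb.d (nat_lit 153) (nat_lit 257) (nat_lit 128) (@Lb.g g8 (@Lb.g g9 (@Lb.g g10 (@Lb.g g11 (@Lb.r r683 (@Lb.r r618 (@Lb.r r1561 (@Lb.r r1540 (@Lb.d (nat_lit 393) (nat_lit 73) (nat_lit 545) (@Lb.fm (nat_lit 9) t451)))))))))))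
noncomputable def l2078 : Lb := (@Lb.d (nat_lit 545) (nat_lit 361) (nat_lit 70) (@Lb.r r613 (@Lb.r r2666 (@Lb.r r679 (@Lb.g g7 (@Lb.g g6 (@Lb.g g5 (@Lb.g g8 (@Lb.d (nat_lit 10) (nat_lit 24) (nat_lit 74) (@Lb.fm (nat_lit 9) t735))))))))))
noncomputable def l2079 : Lb := (@Lb.d (nat_lit 402) (nat_lit 0) (nat_lit 342) (@Lb.r r146 (@Lb.r r2385 (@Lb.r r551 (@Lb.g g5 (@Lb.g g8 (@Lb.d (nat_lit 10) (nat_lit 0) (nat_lit 0) (@Lb.r r98 (@Lb.fp (nat_lit 3) t736)))))))))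
noncomputable def l2080 : Lb := (@Lb.d (nat_lit 338) (nat_lit 0) (nat_lit 513) (@Lb.r r24 (@Lb.r r101 (@Lb.r r1682 (@Lb.r r579 (@Lb.g g7 (@Lb.g g6 (@Lb.g g4 (@Lb.d (nat_lit 5) (nat_lit 0) (nat_lit 134) (@Lb.t (@Lb.fp (nat_lit 9) t737)))))))))))
noncomputable def l2081 : Lb := (@Lb.g g5 (@Lb.r r24 (@Lb.r r101 (@Lb.r r402 (@Lb.d (nat_lit 0) (nat_lit 512) (nat_lit 66) (@Lb.t (@Lb.fp (nat_lit 3) t311)))))))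
noncomputable def l2082 : Lb := (@Lb.d (nat_lit 4) (nat_lit 0) (nat_lit 130) (@Lb.g g8 (@Lb.g g9 (@Lb.g g10 (@Lb.g g11 (@Lb.r r427 (@Lb.r r1122 (@Lb.r r297 (@Lb.r r2468 (@Lb.d (nat_lit 100) (nat_lit 165) (nat_lit 666) (@Lb.fm (nat_lit 9) t738)))))))))))
noncomputable def l2083 : Lb := (@Lb.r r81 (@Lb.r r323 (@Lb.d (nat_lit 10) (nat_lit 256) (nat_lit 33) (@Lb.g g8 (@Lb.g g6 (@Lb.r r149 (@Lb.r r1448 (@Lb.r r2567 (@Lb.d (nat_lit 0) (nat_lit 22) (nat_lit 393) (@Lb.fp (nat_lit 3) t739))))))))))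
noncomputable def l2084 : Lb := (@Lb.d (nat_lit 4) (nat_lit 256) (nat_lit 130) (@Lb.g g8 (@Lb.g g9 (@Lb.g g10 (@Lb.g g11 (@Lb.r r427 (@Lb.r r1122 (@Lb.r r420 (@Lb.r r1125 (@Lb.d (nat_lit 277) (nat_lit 144) (nat_lit 522) (@Lb.fm (nat_lit 9) t740)))))))))))
noncomputable def l2085 : Lb := (@Lb.d (nat_lit 1) (nat_lit 258) (nat_lit 130) (@Lb.g g8 (@Lb.g g9 (@Lb.g g10 (@Lb.g g11 (@Lb.r r427 (@Lb.r r145 (@Lb.r r356 (@Lb.r r154 (@Lb.r r132 (@Lb.d (nat_lit 2) (nat_lit 73) (nat_lit 153) (@Lb.fm (nat_lit 9) t741))))))))))))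
noncomputable def l2086 : Lb := (@Lb.r r82 (@Lb.d (nat_lit 4) (nat_lit 530) (nat_lit 128) (@Lb.g g5 (@Lb.g g11 (@Lb.r r2651 (@Lb.r r386 (@Lb.r r24 (@Lb.d (nat_lit 34) (nat_lit 6) (nat_lit 18) (@Lb.fm (nat_lit 3) t742)))))))))
noncomputable def l2087 : Lb := (@Lb.r r82 (@Lb.d (nat_lit 33) (nat_lit 258) (nat_lit 128) (@Lb.g g8 (@Lb.g g9 (@Lb.g g11 (@Lb.r r363 (@Lb.r r582 (@Lb.r r408 (@Lb.d (nat_lit 149) (nat_lit 85) (nat_lit 153) (@Lb.t (@Lb.fp (nat_lit 9) t408)))))))))))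
noncomputable def l2088 : Lb := (@Lb.d (nat_lit 128) (nat_lit 256) (nat_lit 128) (@Lb.r r579 (@Lb.r r402 (@Lb.r r101 (@Lb.g g4 (@Lb.d (nat_lit 1) (nat_lit 0) (nat_lit 0) (@Lb.t (@Lb.fp (nat_lit 3) t720))))))))
noncomputable def l2089 : Lb := (@Lb.r r82 (@Lb.d (nat_lit 0) (nat_lit 17) (nat_lit 128) (@Lb.g g5 (@Lb.g g11 (@Lb.r r2651 (@Lb.r r386 (@Lb.r r24 (@Lb.d (nat_lit 41) (nat_lit 5) (nat_lit 18) (@Lb.fm (nat_lit 3) t742)))))))))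
noncomputable def l2090 : Lb := (@Lb.g g9 (@Lb.d (nat_lit 0) (nat_lit 512) (nat_lit 128) (@Lb.t (@Lb.fp (nat_lit 3) t2))))
noncomputable def l2091 : Lb := (@Lb.d (nat_lit 0) (nat_lit 258) (nat_lit 0) (@Lb.g g9 (@Lb.g g7 (@Lb.r r406 (@Lb.r r97 (@Lb.r r24 (@Lb.d (nat_lit 280) (nat_lit 9) (nat_lit 512) (@Lb.fm (nat_lit 3) t145))))))))
noncomputable def l2092 : Lb := (@Lb.d (nat_lit 9) (nat_lit 518) (nat_lit 74) (@Lb.g g8 (@Lb.g g9 (@Lb.g g10 (@Lb.g g11 (@Lb.r r1699 (@Lb.r r596 (@Lb.r r682 (@Lb.r r2217 (@Lb.r r2212 (@Lb.d (nat_lit 581) (nat_lit 33) (nat_lit 586) (@Lb.fm (nat_lit 9) t125))))))))))))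
noncomputable def l2093 : Lb := (@Lb.d (nat_lit 8) (nat_lit 516) (nat_lit 64) (@Lb.g g8 (@Lb.g g9 (@Lb.g g10 (@Lb.g g7 (@Lb.r r386 (@Lb.r r2145 (@Lb.r r24 (@Lb.d (nat_lit 10) (nat_lit 73) (nat_lit 41) (@Lb.fp (nat_lit 9) t42))))))))))
noncomputable def l2094 : Lb := (@Lb.r r402 (@Lb.r r101 (@Lb.r r24 (@Lb.d (nat_lit 65) (nat_lit 256) (nat_lit 0) (@Lb.fm (nat_lit 1) t145)))))
noncomputable def l2095 : Lb := (@Lb.g g10 (@Lb.r r579 (@Lb.r r402 (@Lb.r r101 (@Lb.r r24 (@Lb.d (nat_lit 273) (nat_lit 10) (nat_lit 160) (@Lb.t (@Lb.fp (nat_lit 3) t145))))))))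
noncomputable def l2096 : Lb := (@Lb.d (nat_lit 9) (nat_lit 550) (nat_lit 5) (@Lb.g g8 (@Lb.g g9 (@Lb.g g10 (@Lb.g g11 (@Lb.r r682 (@Lb.r r676 (@Lb.r r551 (@Lb.r r533 (@Lb.r r36 (@Lb.d (nat_lit 137) (nat_lit 1) (nat_lit 74) (@Lb.fp (nat_lit 9) t264))))))))))))
noncomputable def l2097 : Lb := (@Lb.d (nat_lit 9) (nat_lit 258) (nat_lit 130) (@Lb.g g8 (@Lb.g g9 (@Lb.g g10 (@Lb.g g11 (@Lb.r r1194 (@Lb.r r420 (@Lb.r r283 (@Lb.r r1557 (@Lb.r r36 (@Lb.d (nat_lit 384) (nat_lit 66) (nat_lit 586) (@Lb.fm (nat_lit 9) t284))))))))))))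
noncomputable def l2098 : Lb := (@Lb.d (nat_lit 0) (nat_lit 0) (nat_lit 104) (@Lb.g g6 (@Lb.g g11 (@Lb.d (nat_lit 0) (nat_lit 0) (nat_lit 128) (@Lb.fp (nat_lit 3) t2)))))
noncomputable def l2099 : Lb := (@Lb.d (nat_lit 17) (nat_lit 256) (nat_lit 6) (@Lb.r r24 (@Lb.r r101 (@Lb.r r386 (@Lb.g g11 (@Lb.g g6 (@Lb.g g5 (@Lb.d (nat_lit 0) (nat_lit 0) (nat_lit 129) (@Lb.t (@Lb.fp (nat_lit 9) t51))))))))))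
noncomputable def l2100 : Lb := (@Lb.d (nat_lit 1) (nat_lit 66) (nat_lit 130) (@Lb.g g4 (@Lb.g g9 (@Lb.g g10 (@Lb.g g11 (@Lb.r r419 (@Lb.r r98 (@Lb.d (nat_lit 0) (nat_lit 9) (nat_lit 137) (@Lb.fm (nat_lit 9) t51)))))))))
noncomputable def l2101 : Lb := (@Lb.d (nat_lit 0) (nat_lit 258) (nat_lit 66) (@Lb.g g8 (@Lb.g g9 (@Lb.g g10 (@Lb.g g7 (@Lb.r r386 (@Lb.r r97 (@Lb.d (nat_lit 2) (nat_lit 138) (nat_lit 9) (@Lb.fm (nat_lit 9) t126)))))))))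
noncomputable def l2102 : Lb := (@Lb.g g8 (@Lb.r r2311 (@Lb.r r2118 (@Lb.r r2069 (@Lb.r r36 (@Lb.d (nat_lit 6) (nat_lit 512) (nat_lit 0) (@Lb.t (@Lb.fp (nat_lit 3) t710))))))))
noncomputable def l2103 : Lb := (@Lb.d (nat_lit 2) (nat_lit 0) (nat_lit 137) (@Lb.g g8 (@Lb.g g5 (@Lb.g g10 (@Lb.g g7 (@Lb.r r386 (@Lb.r r24 (@Lb.d (nat_lit 10) (nat_lit 0) (nat_lit 9) (@Lb.fp (nat_lit 9) t2)))))))))
noncomputable def l2104 : Lb := (@Lb.d (nat_lit 2) (nat_lit 5) (nat_lit 64) (@Lb.g g8 (@Lb.g g9 (@Lb.g g11 (@Lb.r r406 (@Lb.r r343 (@Lb.r r553 (@Lb.d (nat_lit 69) (nat_lit 148) (nat_lit 385) (@Lb.t (@Lb.fm (nat_lit 9) t242))))))))))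
noncomputable def l2105 : Lb := (@Lb.d (nat_lit 2) (nat_lit 513) (nat_lit 73) (@Lb.g g8 (@Lb.g g9 (@Lb.g g10 (@Lb.g g11 (@Lb.r r1113 (@Lb.r r2658 (@Lb.r r579 (@Lb.d (nat_lit 129) (nat_lit 81) (nat_lit 650) (@Lb.fm (nat_lit 9) t242))))))))))
noncomputable def l2106 : Lb := (@Lb.d (nat_lit 2) (nat_lit 517) (nat_lit 64) (@Lb.g g8 (@Lb.g g9 (@Lb.g g11 (@Lb.r r406 (@Lb.r r343 (@Lb.r r553 (@Lb.d (nat_lit 69) (nat_lit 153) (nat_lit 386) (@Lb.t (@Lb.fm (nat_lit 9) t242))))))))))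
noncomputable def l2107 : Lb := (@Lb.d (nat_lit 130) (nat_lit 8) (nat_lit 2) (@Lb.g g8 (@Lb.g g10 (@Lb.r r263 (@Lb.r r1121 (@Lb.r r2194 (@Lb.r r548 (@Lb.d (nat_lit 133) (nat_lit 152) (nat_lit 33) (@Lb.fm (nat_lit 3) t2)))))))))
noncomputable def l2108 : Lb := (@Lb.d (nat_lit 32) (nat_lit 520) (nat_lit 2) (@Lb.g g10 (@Lb.r r1384 (@Lb.r r2711 (@Lb.r r1377 (@Lb.r r2706 (@Lb.d (nat_lit 10) (nat_lit 169) (nat_lit 421) (@Lb.t (@Lb.fp (nat_lit 3) t2)))))))))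
noncomputable def l2109 : Lb := (@Lb.d (nat_lit 130) (nat_lit 513) (nat_lit 0) (@Lb.g g8 (@Lb.g g9 (@Lb.r r426 (@Lb.r r583 (@Lb.r r529 (@Lb.r r392 (@Lb.d (nat_lit 153) (nat_lit 97) (nat_lit 74) (@Lb.fp (nat_lit 3) t51)))))))))
noncomputable def l2110 : Lb := (@Lb.d (nat_lit 4) (nat_lit 1) (nat_lit 0) (@Lb.g g5 (@Lb.r r24 (@Lb.d (nat_lit 0) (nat_lit 1) (nat_lit 0) (@Lb.t (@Lb.fp (nat_lit 3) t2))))))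
noncomputable def l2111 : Lb := (@Lb.d (nat_lit 34) (nat_lit 257) (nat_lit 0) (@Lb.g g8 (@Lb.g g9 (@Lb.g g7 (@Lb.r r418 (@Lb.r r297 (@Lb.r r360 (@Lb.d (nat_lit 405) (nat_lit 42) (nat_lit 645) (@Lb.t (@Lb.fm (nat_lit 9) t145))))))))))
noncomputable def l2112 : Lb := (@Lb.d (nat_lit 2) (nat_lit 1) (nat_lit 74) (@Lb.g g8 (@Lb.g g9 (@Lb.g g10 (@Lb.g g11 (@Lb.r r2730 (@Lb.r r680 (@Lb.r r555 (@Lb.r r529 (@Lb.r r36 (@Lb.d (nat_lit 514) (nat_lit 98) (nat_lit 74) (@Lb.fm (nat_lit 9) t51))))))))))))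
noncomputable def l2113 : Lb := (@Lb.d (nat_lit 2) (nat_lit 0) (nat_lit 0) (@Lb.g g8 (@Lb.g g5 (@Lb.g g6 (@Lb.r r24 (@Lb.d (nat_lit 10) (nat_lit 0) (nat_lit 128) (@Lb.t (@Lb.fp (nat_lit 9) t2))))))))
noncomputable def l2114 : Lb := (@Lb.r r24 (@Lb.d (nat_lit 10) (nat_lit 386) (nat_lit 0) (@Lb.fm (nat_lit 1) t2)))
noncomputable def l2115 : Lb := (@Lb.g g7 (@Lb.r r402 (@Lb.r r20 (@Lb.r r105 (@Lb.r r36 (@Lb.d (nat_lit 512) (nat_lit 512) (nat_lit 608) (@Lb.t (@Lb.fm (nat_lit 3) t145))))))))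
noncomputable def l2116 : Lb := (@Lb.d (nat_lit 2) (nat_lit 2) (nat_lit 2) (@Lb.g g8 (@Lb.g g9 (@Lb.g g10 (@Lb.g g11 (@Lb.r r427 (@Lb.r r145 (@Lb.r r356 (@Lb.r r154 (@Lb.r r132 (@Lb.d (nat_lit 9) (nat_lit 9) (nat_lit 153) (@Lb.fm (nat_lit 9) t221))))))))))))
noncomputable def l2117 : Lb := (@Lb.d (nat_lit 1) (nat_lit 258) (nat_lit 2) (@Lb.g g8 (@Lb.g g9 (@Lb.g g10 (@Lb.g g11 (@Lb.r r427 (@Lb.r r145 (@Lb.r r356 (@Lb.r r154 (@Lb.r r132 (@Lb.d (nat_lit 9) (nat_lit 9) (nat_lit 153) (@Lb.fm (nat_lit 9) t221))))))))))))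
noncomputable def l2118 : Lb := (@Lb.d (nat_lit 0) (nat_lit 517) (nat_lit 0) (@Lb.g g5 (@Lb.d (nat_lit 292) (nat_lit 6) (nat_lit 97) (@Lb.t (@Lb.fm (nat_lit 3) t743)))))
noncomputable def l2119 : Lb := (@Lb.d (nat_lit 612) (nat_lit 546) (nat_lit 146) (@Lb.r r276 (@Lb.r r1366 (@Lb.r r267 (@Lb.g g6 (@Lb.g g5 (@Lb.g g4 (@Lb.d (nat_lit 65) (nat_lit 33) (nat_lit 1) (@Lb.t (@Lb.fp (nat_lit 9) t744))))))))))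
noncomputable def l2120 : Lb := (@Lb.d (nat_lit 0) (nat_lit 38) (nat_lit 0) (@Lb.g g9 (@Lb.r r535 (@Lb.r r328 (@Lb.r r134 (@Lb.d (nat_lit 17) (nat_lit 4) (nat_lit 1) (@Lb.t (@Lb.fm (nat_lit 3) t61))))))))
noncomputable def l2121 : Lb := (@Lb.r r1045 (@Lb.r r263 (@Lb.d (nat_lit 128) (nat_lit 512) (nat_lit 26) (@Lb.g g8 (@Lb.g g10 (@Lb.r r1607 (@Lb.r r264 (@Lb.d (nat_lit 130) (nat_lit 0) (nat_lit 20) (@Lb.fm (nat_lit 3) t745)))))))))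
noncomputable def l2122 : Lb := (@Lb.d (nat_lit 2) (nat_lit 2) (nat_lit 128) (@Lb.g g8 (@Lb.g g9 (@Lb.g g11 (@Lb.r r644 (@Lb.r r2311 (@Lb.r r146 (@Lb.r r97 (@Lb.r r1540 (@Lb.d (nat_lit 2) (nat_lit 162) (nat_lit 642) (@Lb.t (@Lb.fm (nat_lit 9) t295))))))))))))
noncomputable def l2123 : Lb := (@Lb.d (nat_lit 128) (nat_lit 681) (nat_lit 20) (@Lb.r r1346 (@Lb.r r2707 (@Lb.r r1381 (@Lb.g g7 (@Lb.g g6 (@Lb.g g4 (@Lb.d (nat_lit 1) (nat_lit 0) (nat_lit 133) (@Lb.t (@Lb.fp (nat_lit 9) t746))))))))))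
noncomputable def l2124 : Lb := (@Lb.d (nat_lit 2) (nat_lit 258) (nat_lit 128) (@Lb.g g8 (@Lb.g g9 (@Lb.g g10 (@Lb.g g11 (@Lb.r r644 (@Lb.r r2311 (@Lb.r r146 (@Lb.r r97 (@Lb.r r1540 (@Lb.d (nat_lit 1) (nat_lit 162) (nat_lit 642) (@Lb.fp (nat_lit 9) t295))))))))))))
noncomputable def l2125 : Lb := (@Lb.d (nat_lit 642) (nat_lit 258) (nat_lit 130) (@Lb.g g8 (@Lb.g g9 (@Lb.g g10 (@Lb.g g11 (@Lb.r r1451 (@Lb.r r106 (@Lb.r r25 (@Lb.d (nat_lit 9) (nat_lit 9) (nat_lit 425) (@Lb.fp (nat_lit 9) t394))))))))))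
noncomputable def l2126 : Lb := (@Lb.d (nat_lit 0) (nat_lit 258) (nat_lit 66) (@Lb.g g9 (@Lb.g g10 (@Lb.g g7 (@Lb.r r386 (@Lb.r r97 (@Lb.r r24 (@Lb.d (nat_lit 10) (nat_lit 9) (nat_lit 9) (@Lb.t (@Lb.fm (nat_lit 9) t40))))))))))
noncomputable def l2127 : Lb := (@Lb.d (nat_lit 0) (nat_lit 0) (nat_lit 2) (@Lb.g g10 (@Lb.r r595 (@Lb.r r386 (@Lb.r r101 (@Lb.r r24 (@Lb.d (nat_lit 96) (nat_lit 0) (nat_lit 137) (@Lb.t (@Lb.fp (nat_lit 3) t61)))))))))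
noncomputable def l2128 : Lb := (@Lb.d (nat_lit 32) (nat_lit 520) (nat_lit 2) (@Lb.g g10 (@Lb.r r580 (@Lb.r r327 (@Lb.r r357 (@Lb.r r666 (@Lb.d (nat_lit 64) (nat_lit 96) (nat_lit 150) (@Lb.t (@Lb.fp (nat_lit 3) t427)))))))))
noncomputable def l2129 : Lb := (@Lb.r r134 (@Lb.r r324 (@Lb.r r411 (@Lb.r r609 (@Lb.r r36 (@Lb.d (nat_lit 0) (nat_lit 64) (nat_lit 16) (@Lb.fp (nat_lit 1) t334)))))))
noncomputable def l2130 : Lb := (@Lb.d (nat_lit 0) (nat_lit 546) (nat_lit 0) (@Lb.g g5 (@Lb.r r299 (@Lb.r r134 (@Lb.r r292 (@Lb.r r405 (@Lb.d (nat_lit 153) (nat_lit 90) (nat_lit 154) (@Lb.t (@Lb.fp (nat_lit 3) t334)))))))))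
noncomputable def l2131 : Lb := (@Lb.d (nat_lit 0) (nat_lit 261) (nat_lit 74) (@Lb.g g8 (@Lb.g g5 (@Lb.g g10 (@Lb.g g11 (@Lb.r r659 (@Lb.r r578 (@Lb.d (nat_lit 0) (nat_lit 25) (nat_lit 137) (@Lb.fp (nat_lit 9) t50)))))))))
noncomputable def l2132 : Lb := (@Lb.d (nat_lit 1) (nat_lit 322) (nat_lit 66) (@Lb.g g4 (@Lb.g g9 (@Lb.g g10 (@Lb.g g11 (@Lb.r r419 (@Lb.r r98 (@Lb.d (nat_lit 0) (nat_lit 9) (nat_lit 137) (@Lb.fm (nat_lit 9) t51)))))))))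
noncomputable def l2133 : Lb := (@Lb.d (nat_lit 1) (nat_lit 578) (nat_lit 130) (@Lb.g g4 (@Lb.g g9 (@Lb.g g10 (@Lb.g g11 (@Lb.r r419 (@Lb.r r98 (@Lb.d (nat_lit 0) (nat_lit 9) (nat_lit 2) (@Lb.fm (nat_lit 9) t51)))))))))
noncomputable def l2134 : Lb := (@Lb.d (nat_lit 2) (nat_lit 514) (nat_lit 73) (@Lb.g g8 (@Lb.g g9 (@Lb.g g10 (@Lb.g g11 (@Lb.r r2705 (@Lb.r r356 (@Lb.r r667 (@Lb.r r586 (@Lb.r r1540 (@Lb.d (nat_lit 289) (nat_lit 10) (nat_lit 97) (@Lb.fm (nat_lit 9) t145))))))))))))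
noncomputable def l2135 : Lb := (@Lb.r r323 (@Lb.d (nat_lit 1) (nat_lit 578) (nat_lit 2) (@Lb.g g4 (@Lb.g g9 (@Lb.g g10 (@Lb.r r354 (@Lb.r r387 (@Lb.d (nat_lit 0) (nat_lit 33) (nat_lit 74) (@Lb.t (@Lb.fp (nat_lit 9) t51))))))))))
noncomputable def l2136 : Lb := (@Lb.d (nat_lit 2) (nat_lit 2) (nat_lit 130) (@Lb.g g8 (@Lb.g g9 (@Lb.g g10 (@Lb.g g11 (@Lb.r r2705 (@Lb.r r356 (@Lb.r r667 (@Lb.r r586 (@Lb.r r1540 (@Lb.d (nat_lit 289) (nat_lit 0) (nat_lit 98) (@Lb.fm (nat_lit 9) t145))))))))))))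
noncomputable def l2137 : Lb := (@Lb.d (nat_lit 2) (nat_lit 258) (nat_lit 130) (@Lb.g g8 (@Lb.g g9 (@Lb.g g10 (@Lb.g g11 (@Lb.r r2705 (@Lb.r r356 (@Lb.r r667 (@Lb.r r586 (@Lb.r r1540 (@Lb.d (nat_lit 289) (nat_lit 10) (nat_lit 97) (@Lb.fm (nat_lit 9) t145))))))))))))
noncomputable def l2138 : Lb := (@Lb.d (nat_lit 17) (nat_lit 256) (nat_lit 129) (@Lb.r r24 (@Lb.r r101 (@Lb.r r323 (@Lb.g g10 (@Lb.g g5 (@Lb.d (nat_lit 0) (nat_lit 0) (nat_lit 2) (@Lb.r r387 (@Lb.fp (nat_lit 3) t51)))))))))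
noncomputable def l2139 : Lb := (@Lb.d (nat_lit 10) (nat_lit 0) (nat_lit 0) (@Lb.g g4 (@Lb.r r2089 (@Lb.r r1064 (@Lb.d (nat_lit 266) (nat_lit 65) (nat_lit 0) (@Lb.t (@Lb.fm (nat_lit 3) t2)))))))
noncomputable def l2140 : Lb := (@Lb.d (nat_lit 4) (nat_lit 257) (nat_lit 0) (@Lb.g g5 (@Lb.r r24 (@Lb.d (nat_lit 2) (nat_lit 1) (nat_lit 0) (@Lb.t (@Lb.fp (nat_lit 3) t2))))))
noncomputable def l2141 : Lb := (@Lb.d (nat_lit 130) (nat_lit 256) (nat_lit 0) (@Lb.g g8 (@Lb.r r410 (@Lb.r r583 (@Lb.r r289 (@Lb.r r392 (@Lb.d (nat_lit 146) (nat_lit 88) (nat_lit 9) (@Lb.t (@Lb.fp (nat_lit 3) t51)))))))))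
noncomputable def l2142 : Lb := (@Lb.d (nat_lit 2) (nat_lit 544) (nat_lit 128) (@Lb.g g8 (@Lb.g g10 (@Lb.g g11 (@Lb.r r2730 (@Lb.r r101 (@Lb.r r404 (@Lb.r r299 (@Lb.d (nat_lit 641) (nat_lit 66) (nat_lit 138) (@Lb.t (@Lb.fm (nat_lit 9) t51)))))))))))
noncomputable def l2143 : Lb := (@Lb.d (nat_lit 6) (nat_lit 576) (nat_lit 66) (@Lb.g g4 (@Lb.g g9 (@Lb.g g10 (@Lb.g g11 (@Lb.r r419 (@Lb.r r98 (@Lb.d (nat_lit 1) (nat_lit 9) (nat_lit 137) (@Lb.fm (nat_lit 9) t51)))))))))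
noncomputable def l2144 : Lb := (@Lb.d (nat_lit 6) (nat_lit 64) (nat_lit 130) (@Lb.g g4 (@Lb.g g9 (@Lb.g g10 (@Lb.g g11 (@Lb.r r419 (@Lb.r r98 (@Lb.d (nat_lit 1) (nat_lit 9) (nat_lit 2) (@Lb.fm (nat_lit 9) t51)))))))))
noncomputable def l2145 : Lb := (@Lb.d (nat_lit 32) (nat_lit 512) (nat_lit 73) (@Lb.g g9 (@Lb.g g10 (@Lb.g g11 (@Lb.r r1352 (@Lb.r r2455 (@Lb.r r1633 (@Lb.r r2450 (@Lb.d (nat_lit 10) (nat_lit 153) (nat_lit 665) (@Lb.t (@Lb.fp (nat_lit 9) t2)))))))))))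
noncomputable def l2146 : Lb := (@Lb.r r323 (@Lb.d (nat_lit 6) (nat_lit 576) (nat_lit 2) (@Lb.g g4 (@Lb.g g9 (@Lb.g g10 (@Lb.r r354 (@Lb.r r387 (@Lb.d (nat_lit 1) (nat_lit 38) (nat_lit 72) (@Lb.t (@Lb.fp (nat_lit 9) t51))))))))))
noncomputable def l2147 : Lb := (@Lb.d (nat_lit 32) (nat_lit 0) (nat_lit 130) (@Lb.g g9 (@Lb.g g10 (@Lb.g g11 (@Lb.r r1352 (@Lb.r r2455 (@Lb.r r1633 (@Lb.r r2450 (@Lb.d (nat_lit 0) (nat_lit 154) (nat_lit 665) (@Lb.t (@Lb.fp (nat_lit 9) t2)))))))))))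
noncomputable def l2148 : Lb := (@Lb.d (nat_lit 130) (nat_lit 0) (nat_lit 0) (@Lb.g g8 (@Lb.r r410 (@Lb.r r583 (@Lb.r r289 (@Lb.r r392 (@Lb.d (nat_lit 146) (nat_lit 81) (nat_lit 10) (@Lb.t (@Lb.fp (nat_lit 3) t51)))))))))
noncomputable def l2149 : Lb := (@Lb.r r24 (@Lb.d (nat_lit 1) (nat_lit 576) (nat_lit 0) (@Lb.fm (nat_lit 1) t2)))
noncomputable def l2150 : Lb := (@Lb.d (nat_lit 16) (nat_lit 0) (nat_lit 130) (@Lb.g g6 (@Lb.g g11 (@Lb.r r584 (@Lb.r r619 (@Lb.r r609 (@Lb.d (nat_lit 8) (nat_lit 66) (nat_lit 17) (@Lb.fm (nat_lit 3) t334))))))))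
noncomputable def l2151 : Lb := (@Lb.d (nat_lit 128) (nat_lit 512) (nat_lit 128) (@Lb.g g9 (@Lb.g g10 (@Lb.g g11 (@Lb.r r260 (@Lb.r r283 (@Lb.r r2454 (@Lb.r r609 (@Lb.d (nat_lit 550) (nat_lit 74) (nat_lit 18) (@Lb.t (@Lb.fm (nat_lit 9) t334)))))))))))
noncomputable def l2152 : Lb := (@Lb.d (nat_lit 130) (nat_lit 514) (nat_lit 2) (@Lb.g g8 (@Lb.g g9 (@Lb.g g10 (@Lb.r r263 (@Lb.r r2713 (@Lb.r r2712 (@Lb.r r2122 (@Lb.d (nat_lit 528) (nat_lit 37) (nat_lit 150) (@Lb.t (@Lb.fp (nat_lit 9) t145)))))))))))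
noncomputable def l2153 : Lb := (@Lb.d (nat_lit 1) (nat_lit 66) (nat_lit 130) (@Lb.g g4 (@Lb.g g9 (@Lb.g g10 (@Lb.g g11 (@Lb.r r419 (@Lb.r r98 (@Lb.d (nat_lit 0) (nat_lit 4) (nat_lit 1) (@Lb.fm (nat_lit 9) t51)))))))))
noncomputable def l2154 : Lb := (@Lb.d (nat_lit 0) (nat_lit 517) (nat_lit 74) (@Lb.g g8 (@Lb.g g5 (@Lb.g g10 (@Lb.g g11 (@Lb.r r659 (@Lb.r r578 (@Lb.d (nat_lit 0) (nat_lit 20) (nat_lit 136) (@Lb.fp (nat_lit 9) t50)))))))))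
noncomputable def l2155 : Lb := (@Lb.d (nat_lit 130) (nat_lit 38) (nat_lit 0) (@Lb.g g8 (@Lb.g g9 (@Lb.r r263 (@Lb.r r600 (@Lb.r r134 (@Lb.d (nat_lit 17) (nat_lit 41) (nat_lit 132) (@Lb.fm (nat_lit 3) t145))))))))
noncomputable def l2156 : Lb := (@Lb.r r323 (@Lb.d (nat_lit 1) (nat_lit 66) (nat_lit 2) (@Lb.g g4 (@Lb.g g9 (@Lb.g g10 (@Lb.r r354 (@Lb.r r387 (@Lb.d (nat_lit 0) (nat_lit 149) (nat_lit 321) (@Lb.t (@Lb.fp (nat_lit 9) t51))))))))))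
noncomputable def l2157 : Lb := (@Lb.d (nat_lit 1) (nat_lit 277) (nat_lit 104) (@Lb.r r260 (@Lb.r r267 (@Lb.r r360 (@Lb.r r105 (@Lb.g g7 (@Lb.g g10 (@Lb.g g5 (@Lb.g g4 (@Lb.d (nat_lit 42) (nat_lit 0) (nat_lit 1) (@Lb.fm (nat_lit 9) t145)))))))))))
noncomputable def l2158 : Lb := (@Lb.d (nat_lit 0) (nat_lit 260) (nat_lit 128) (@Lb.g g8 (@Lb.g g9 (@Lb.g g10 (@Lb.g g11 (@Lb.r r2659 (@Lb.r r578 (@Lb.r r2465 (@Lb.d (nat_lit 0) (nat_lit 66) (nat_lit 137) (@Lb.fp (nat_lit 9) t50))))))))))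
noncomputable def l2159 : Lb := (@Lb.d (nat_lit 17) (nat_lit 512) (nat_lit 6) (@Lb.r r24 (@Lb.r r101 (@Lb.r r386 (@Lb.g g11 (@Lb.g g6 (@Lb.g g5 (@Lb.d (nat_lit 0) (nat_lit 10) (nat_lit 128) (@Lb.t (@Lb.fp (nat_lit 9) t51))))))))))
noncomputable def l2160 : Lb := (@Lb.d (nat_lit 0) (nat_lit 5) (nat_lit 74) (@Lb.g g8 (@Lb.g g5 (@Lb.g g10 (@Lb.g g11 (@Lb.r r659 (@Lb.r r578 (@Lb.d (nat_lit 2) (nat_lit 20) (nat_lit 136) (@Lb.fp (nat_lit 9) t50)))))))))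
noncomputable def l2161 : Lb := (@Lb.d (nat_lit 322) (nat_lit 601) (nat_lit 265) (@Lb.r r279 (@Lb.r r616 (@Lb.r r105 (@Lb.r r2726 (@Lb.g g7 (@Lb.g g6 (@Lb.g g4 (@Lb.d (nat_lit 1) (nat_lit 16) (nat_lit 64) (@Lb.t (@Lb.fm (nat_lit 9) t366)))))))))))
noncomputable def l2162 : Lb := (@Lb.d (nat_lit 2) (nat_lit 33) (nat_lit 66) (@Lb.g g8 (@Lb.g g9 (@Lb.g g10 (@Lb.g g11 (@Lb.r r427 (@Lb.r r360 (@Lb.r r150 (@Lb.r r101 (@Lb.r r20 (@Lb.d (nat_lit 24) (nat_lit 1) (nat_lit 152) (@Lb.fm (nat_lit 9) t41))))))))))))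
noncomputable def l2163 : Lb := (@Lb.d (nat_lit 4) (nat_lit 512) (nat_lit 66) (@Lb.g g8 (@Lb.g g9 (@Lb.g g10 (@Lb.g g7 (@Lb.r r386 (@Lb.r r97 (@Lb.d (nat_lit 9) (nat_lit 137) (nat_lit 9) (@Lb.fm (nat_lit 9) t360)))))))))
noncomputable def l2164 : Lb := (@Lb.d (nat_lit 2) (nat_lit 512) (nat_lit 66) (@Lb.g g8 (@Lb.g g9 (@Lb.g g10 (@Lb.g g7 (@Lb.r r386 (@Lb.r r2145 (@Lb.r r24 (@Lb.d (nat_lit 5) (nat_lit 72) (nat_lit 41) (@Lb.fp (nat_lit 9) t40))))))))))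
noncomputable def l2165 : Lb := (@Lb.d (nat_lit 2) (nat_lit 0) (nat_lit 66) (@Lb.g g8 (@Lb.g g9 (@Lb.g g10 (@Lb.g g7 (@Lb.r r386 (@Lb.r r2145 (@Lb.r r24 (@Lb.d (nat_lit 8) (nat_lit 73) (nat_lit 41) (@Lb.fp (nat_lit 9) t167))))))))))
noncomputable def l2166 : Lb := (@Lb.d (nat_lit 322) (nat_lit 641) (nat_lit 69) (@Lb.r r279 (@Lb.r r612 (@Lb.r r101 (@Lb.r r2730 (@Lb.g g7 (@Lb.g g6 (@Lb.g g4 (@Lb.d (nat_lit 1) (nat_lit 16) (nat_lit 64) (@Lb.t (@Lb.fp (nat_lit 9) t599)))))))))))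
noncomputable def l2167 : Lb := (@Lb.d (nat_lit 298) (nat_lit 40) (nat_lit 278) (@Lb.r r289 (@Lb.r r1626 (@Lb.r r1384 (@Lb.r r2711 (@Lb.g g7 (@Lb.g g6 (@Lb.d (nat_lit 16) (nat_lit 0) (nat_lit 64) (@Lb.fp (nat_lit 3) t366)))))))))
noncomputable def l2168 : Lb := (@Lb.d (nat_lit 2) (nat_lit 258) (nat_lit 130) (@Lb.g g8 (@Lb.g g9 (@Lb.g g10 (@Lb.g g11 (@Lb.r r427 (@Lb.r r420 (@Lb.r r102 (@Lb.r r97 (@Lb.r r36 (@Lb.d (nat_lit 9) (nat_lit 10) (nat_lit 152) (@Lb.fm (nat_lit 9) t356))))))))))))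
noncomputable def l2169 : Lb := (@Lb.d (nat_lit 322) (nat_lit 345) (nat_lit 265) (@Lb.r r279 (@Lb.r r616 (@Lb.r r105 (@Lb.r r2726 (@Lb.g g7 (@Lb.g g6 (@Lb.g g4 (@Lb.d (nat_lit 2) (nat_lit 16) (nat_lit 64) (@Lb.t (@Lb.fm (nat_lit 9) t747)))))))))))
noncomputable def l2170 : Lb := (@Lb.d (nat_lit 2) (nat_lit 261) (nat_lit 74) (@Lb.g g8 (@Lb.g g9 (@Lb.g g10 (@Lb.g g11 (@Lb.r r2691 (@Lb.r r1450 (@Lb.r r289 (@Lb.r r24 (@Lb.d (nat_lit 138) (nat_lit 33) (nat_lit 168) (@Lb.fp (nat_lit 9) t377)))))))))))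
noncomputable def l2171 : Lb := (@Lb.r r2311 (@Lb.r r2118 (@Lb.r r2069 (@Lb.r r36 (@Lb.d (nat_lit 1) (nat_lit 576) (nat_lit 0) (@Lb.fp (nat_lit 1) t710))))))
noncomputable def l2172 : Lb := (@Lb.g g8 (@Lb.d (nat_lit 5) (nat_lit 1) (nat_lit 0) (@Lb.t (@Lb.fp (nat_lit 3) t2))))
noncomputable def l2173 : Lb := (@Lb.d (nat_lit 4) (nat_lit 5) (nat_lit 128) (@Lb.g g8 (@Lb.g g9 (@Lb.g g10 (@Lb.g g11 (@Lb.r r427 (@Lb.r r417 (@Lb.r r1126 (@Lb.r r24 (@Lb.d (nat_lit 356) (nat_lit 101) (nat_lit 90) (@Lb.fp (nat_lit 9) t502)))))))))))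
noncomputable def l2174 : Lb := (@Lb.d (nat_lit 356) (nat_lit 658) (nat_lit 613) (@Lb.r r1444 (@Lb.r r2665 (@Lb.r r363 (@Lb.g g10 (@Lb.g g5 (@Lb.g g4 (@Lb.d (nat_lit 82) (nat_lit 1) (nat_lit 4) (@Lb.t (@Lb.fp (nat_lit 9) t521))))))))))
noncomputable def l2175 : Lb := (@Lb.d (nat_lit 0) (nat_lit 288) (nat_lit 130) (@Lb.g g8 (@Lb.g g10 (@Lb.g g11 (@Lb.r r618 (@Lb.r r149 (@Lb.r r340 (@Lb.r r2587 (@Lb.d (nat_lit 322) (nat_lit 137) (nat_lit 258) (@Lb.t (@Lb.fp (nat_lit 9) t71)))))))))))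
noncomputable def l2176 : Lb := (@Lb.r r21 (@Lb.r r70 (@Lb.r r263 (@Lb.g g8 (@Lb.r r267 (@Lb.r r74 (@Lb.r r25 (@Lb.d (nat_lit 4) (nat_lit 257) (nat_lit 0) (@Lb.t (@Lb.fp (nat_lit 3) t321))))))))))
noncomputable def l2177 : Lb := (@Lb.d (nat_lit 10) (nat_lit 257) (nat_lit 130) (@Lb.g g8 (@Lb.g g9 (@Lb.g g10 (@Lb.g g11 (@Lb.r r2666 (@Lb.r r612 (@Lb.r r679 (@Lb.r r597 (@Lb.r r2084 (@Lb.d (nat_lit 665) (nat_lit 9) (nat_lit 258) (@Lb.fm (nat_lit 9) t221))))))))))))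
noncomputable def l2178 : Lb := (@Lb.d (nat_lit 10) (nat_lit 2) (nat_lit 130) (@Lb.g g8 (@Lb.g g9 (@Lb.g g10 (@Lb.g g11 (@Lb.r r2475 (@Lb.r r2193 (@Lb.r r356 (@Lb.r r154 (@Lb.r r132 (@Lb.d (nat_lit 521) (nat_lit 9) (nat_lit 153) (@Lb.fm (nat_lit 9) t221))))))))))))
noncomputable def l2179 : Lb := (@Lb.d (nat_lit 10) (nat_lit 512) (nat_lit 0) (@Lb.g g4 (@Lb.r r2089 (@Lb.r r1064 (@Lb.d (nat_lit 260) (nat_lit 1) (nat_lit 0) (@Lb.t (@Lb.fm (nat_lit 3) t2)))))))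
noncomputable def l2180 : Lb := (@Lb.d (nat_lit 2) (nat_lit 256) (nat_lit 0) (@Lb.g g8 (@Lb.r r1049 (@Lb.r r24 (@Lb.d (nat_lit 266) (nat_lit 2) (nat_lit 0) (@Lb.t (@Lb.fm (nat_lit 3) t2)))))))
noncomputable def l2181 : Lb := (@Lb.r r323 (@Lb.d (nat_lit 8) (nat_lit 0) (nat_lit 2) (@Lb.g g9 (@Lb.g g10 (@Lb.r r1126 (@Lb.r r2452 (@Lb.r r1707 (@Lb.r r1697 (@Lb.d (nat_lit 10) (nat_lit 89) (nat_lit 553) (@Lb.fm (nat_lit 3) t51))))))))))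
noncomputable def l2182 : Lb := (@Lb.d (nat_lit 26) (nat_lit 608) (nat_lit 292) (@Lb.r r84 (@Lb.r r2450 (@Lb.r r1121 (@Lb.r r283 (@Lb.g g6 (@Lb.g g4 (@Lb.d (nat_lit 65) (nat_lit 4) (nat_lit 1) (@Lb.r r25 (@Lb.fm (nat_lit 3) t2))))))))))
noncomputable def l2183 : Lb := (@Lb.r r1045 (@Lb.r r323 (@Lb.d (nat_lit 261) (nat_lit 520) (nat_lit 6) (@Lb.g g4 (@Lb.g g10 (@Lb.r r387 (@Lb.d (nat_lit 8) (nat_lit 65) (nat_lit 137) (@Lb.fp (nat_lit 3) t51))))))))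
noncomputable def l2184 : Lb := (@Lb.d (nat_lit 0) (nat_lit 258) (nat_lit 130) (@Lb.g g9 (@Lb.g g10 (@Lb.g g11 (@Lb.r r2407 (@Lb.r r386 (@Lb.r r148 (@Lb.r r25 (@Lb.d (nat_lit 512) (nat_lit 5) (nat_lit 69) (@Lb.t (@Lb.fp (nat_lit 9) t61)))))))))))
noncomputable def l2185 : Lb := (@Lb.d (nat_lit 32) (nat_lit 520) (nat_lit 128) (@Lb.g g10 (@Lb.g g11 (@Lb.r r407 (@Lb.r r616 (@Lb.r r2665 (@Lb.r r2390 (@Lb.d (nat_lit 602) (nat_lit 22) (nat_lit 294) (@Lb.fm (nat_lit 3) t748)))))))))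
noncomputable def l2186 : Lb := (@Lb.d (nat_lit 0) (nat_lit 258) (nat_lit 421) (@Lb.r r1347 (@Lb.r r658 (@Lb.g g7 (@Lb.g g9 (@Lb.d (nat_lit 0) (nat_lit 88) (nat_lit 64) (@Lb.r r98 (@Lb.fm (nat_lit 3) t749))))))))
noncomputable def l2187 : Lb := (@Lb.d (nat_lit 0) (nat_lit 2) (nat_lit 421) (@Lb.r r1347 (@Lb.r r658 (@Lb.g g7 (@Lb.g g9 (@Lb.g g4 (@Lb.d (nat_lit 1) (nat_lit 88) (nat_lit 64) (@Lb.r r98 (@Lb.t (@Lb.fp (nat_lit 9) t749))))))))))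
noncomputable def l2188 : Lb := (@Lb.d (nat_lit 1) (nat_lit 529) (nat_lit 2) (@Lb.g g8 (@Lb.g g9 (@Lb.g g10 (@Lb.g g11 (@Lb.r r343 (@Lb.r r1386 (@Lb.r r1380 (@Lb.r r1445 (@Lb.d (nat_lit 360) (nat_lit 168) (nat_lit 392) (@Lb.fm (nat_lit 9) t750)))))))))))
noncomputable def l2189 : Lb := (@Lb.d (nat_lit 1) (nat_lit 0) (nat_lit 128) (@Lb.g g4 (@Lb.g g9 (@Lb.g g11 (@Lb.r r2450 (@Lb.r r2659 (@Lb.r r1633 (@Lb.d (nat_lit 1) (nat_lit 146) (nat_lit 64) (@Lb.t (@Lb.fm (nat_lit 9) t751))))))))))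
noncomputable def l2190 : Lb := (@Lb.d (nat_lit 1) (nat_lit 256) (nat_lit 128) (@Lb.g g4 (@Lb.g g9 (@Lb.g g11 (@Lb.r r2450 (@Lb.r r2659 (@Lb.r r1633 (@Lb.d (nat_lit 1) (nat_lit 153) (nat_lit 66) (@Lb.t (@Lb.fm (nat_lit 9) t752))))))))))
noncomputable def l2191 : Lb := (@Lb.d (nat_lit 0) (nat_lit 2) (nat_lit 421) (@Lb.r r1347 (@Lb.r r658 (@Lb.g g7 (@Lb.g g9 (@Lb.g g4 (@Lb.d (nat_lit 0) (nat_lit 88) (nat_lit 128) (@Lb.r r98 (@Lb.t (@Lb.fp (nat_lit 9) t749))))))))))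
noncomputable def l2192 : Lb := (@Lb.r r82 (@Lb.r r275 (@Lb.d (nat_lit 33) (nat_lit 8) (nat_lit 0) (@Lb.g g8 (@Lb.g g9 (@Lb.r r427 (@Lb.r r582 (@Lb.r r408 (@Lb.d (nat_lit 144) (nat_lit 26) (nat_lit 154) (@Lb.fp (nat_lit 3) t753))))))))))
noncomputable def l2193 : Lb := (@Lb.r r323 (@Lb.d (nat_lit 1) (nat_lit 258) (nat_lit 1) (@Lb.g g8 (@Lb.g g9 (@Lb.g g6 (@Lb.r r387 (@Lb.r r2153 (@Lb.r r36 (@Lb.d (nat_lit 292) (nat_lit 1) (nat_lit 34) (@Lb.t (@Lb.fm (nat_lit 9) t40)))))))))))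
noncomputable def l2194 : Lb := (@Lb.d (nat_lit 134) (nat_lit 546) (nat_lit 66) (@Lb.g g8 (@Lb.g g9 (@Lb.g g10 (@Lb.g g11 (@Lb.r r1706 (@Lb.r r1419 (@Lb.r r657 (@Lb.r r1156 (@Lb.d (nat_lit 657) (nat_lit 32) (nat_lit 362) (@Lb.fm (nat_lit 9) t754)))))))))))
noncomputable def l2195 : Lb := (@Lb.r r323 (@Lb.d (nat_lit 0) (nat_lit 2) (nat_lit 1) (@Lb.g g8 (@Lb.g g9 (@Lb.g g6 (@Lb.r r387 (@Lb.r r97 (@Lb.d (nat_lit 5) (nat_lit 10) (nat_lit 2) (@Lb.t (@Lb.fm (nat_lit 9) t285))))))))))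
noncomputable def l2196 : Lb := (@Lb.r r21 (@Lb.r r70 (@Lb.r r263 (@Lb.d (nat_lit 1) (nat_lit 256) (nat_lit 0) (@Lb.g g8 (@Lb.r r267 (@Lb.r r74 (@Lb.r r25 (@Lb.d (nat_lit 2) (nat_lit 0) (nat_lit 0) (@Lb.t (@Lb.fp (nat_lit 3) t321)))))))))))
noncomputable def l2197 : Lb := (@Lb.r r21 (@Lb.r r70 (@Lb.r r263 (@Lb.g g8 (@Lb.r r267 (@Lb.r r74 (@Lb.r r25 (@Lb.d (nat_lit 0) (nat_lit 322) (nat_lit 0) (@Lb.t (@Lb.fp (nat_lit 3) t755))))))))))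
noncomputable def l2198 : Lb := (@Lb.r r279 (@Lb.d (nat_lit 0) (nat_lit 256) (nat_lit 2) (@Lb.g g8 (@Lb.g g9 (@Lb.g g10 (@Lb.r r1706 (@Lb.r r1668 (@Lb.r r519 (@Lb.r r153 (@Lb.d (nat_lit 328) (nat_lit 0) (nat_lit 546) (@Lb.t (@Lb.fm (nat_lit 9) t754))))))))))))
noncomputable def l2199 : Lb := (@Lb.d (nat_lit 2) (nat_lit 514) (nat_lit 130) (@Lb.g g8 (@Lb.g g9 (@Lb.g g10 (@Lb.g g11 (@Lb.r r427 (@Lb.r r145 (@Lb.r r356 (@Lb.r r154 (@Lb.r r132 (@Lb.d (nat_lit 9) (nat_lit 9) (nat_lit 89) (@Lb.fm (nat_lit 9) t756))))))))))))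
noncomputable def l2200 : Lb := (@Lb.d (nat_lit 10) (nat_lit 32) (nat_lit 128) (@Lb.g g8 (@Lb.g g10 (@Lb.g g11 (@Lb.r r1301 (@Lb.r r2664 (@Lb.r r406 (@Lb.r r2659 (@Lb.d (nat_lit 2) (nat_lit 128) (nat_lit 329) (@Lb.t (@Lb.fp (nat_lit 9) t757)))))))))))
noncomputable def l2201 : Lb := (@Lb.d (nat_lit 2) (nat_lit 258) (nat_lit 130) (@Lb.g g8 (@Lb.g g9 (@Lb.g g10 (@Lb.g g11 (@Lb.r r427 (@Lb.r r145 (@Lb.r r356 (@Lb.r r154 (@Lb.r r132 (@Lb.d (nat_lit 552) (nat_lit 2) (nat_lit 105) (@Lb.fm (nat_lit 9) t756))))))))))))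
noncomputable def l2202 : Lb := (@Lb.r r323 (@Lb.d (nat_lit 0) (nat_lit 514) (nat_lit 1) (@Lb.g g8 (@Lb.g g9 (@Lb.g g6 (@Lb.r r387 (@Lb.r r97 (@Lb.d (nat_lit 5) (nat_lit 10) (nat_lit 66) (@Lb.t (@Lb.fm (nat_lit 9) t285))))))))))
noncomputable def l2203 : Lb := (@Lb.r r323 (@Lb.d (nat_lit 32) (nat_lit 34) (nat_lit 0) (@Lb.g g5 (@Lb.g g10 (@Lb.r r299 (@Lb.r r72 (@Lb.r r390 (@Lb.r r101 (@Lb.d (nat_lit 84) (nat_lit 5) (nat_lit 136) (@Lb.fm (nat_lit 3) t2))))))))))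
noncomputable def l2204 : Lb := (@Lb.r r323 (@Lb.d (nat_lit 0) (nat_lit 8) (nat_lit 2) (@Lb.g g6 (@Lb.r r417 (@Lb.r r599 (@Lb.r r392 (@Lb.r r74 (@Lb.d (nat_lit 17) (nat_lit 0) (nat_lit 0) (@Lb.t (@Lb.fp (nat_lit 3) t2))))))))))
noncomputable def l2205 : Lb := (@Lb.d (nat_lit 2) (nat_lit 514) (nat_lit 2) (@Lb.g g8 (@Lb.g g9 (@Lb.g g10 (@Lb.g g11 (@Lb.r r148 (@Lb.r r102 (@Lb.r r357 (@Lb.r r667 (@Lb.r r644 (@Lb.d (nat_lit 2) (nat_lit 0) (nat_lit 74) (@Lb.fp (nat_lit 9) t2))))))))))))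
noncomputable def l2206 : Lb := (@Lb.r r323 (@Lb.d (nat_lit 130) (nat_lit 290) (nat_lit 0) (@Lb.g g8 (@Lb.g g9 (@Lb.g g10 (@Lb.r r275 (@Lb.r r657 (@Lb.r r410 (@Lb.r r408 (@Lb.d (nat_lit 21) (nat_lit 9) (nat_lit 74) (@Lb.t (@Lb.fm (nat_lit 9) t2))))))))))))
noncomputable def l2207 : Lb := (@Lb.d (nat_lit 2) (nat_lit 260) (nat_lit 128) (@Lb.g g8 (@Lb.g g9 (@Lb.g g10 (@Lb.g g11 (@Lb.r r427 (@Lb.r r145 (@Lb.r r356 (@Lb.r r154 (@Lb.r r132 (@Lb.d (nat_lit 10) (nat_lit 2) (nat_lit 137) (@Lb.fm (nat_lit 9) t31))))))))))))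
noncomputable def l2208 : Lb := (@Lb.d (nat_lit 0) (nat_lit 256) (nat_lit 130) (@Lb.g g8 (@Lb.g g9 (@Lb.g g10 (@Lb.g g11 (@Lb.r r586 (@Lb.r r584 (@Lb.r r299 (@Lb.r r289 (@Lb.d (nat_lit 2) (nat_lit 2) (nat_lit 0) (@Lb.fp (nat_lit 9) t51)))))))))))
noncomputable def l2209 : Lb := (@Lb.r r323 (@Lb.d (nat_lit 0) (nat_lit 512) (nat_lit 2) (@Lb.g g8 (@Lb.g g9 (@Lb.g g10 (@Lb.r r74 (@Lb.r r584 (@Lb.r r299 (@Lb.r r289 (@Lb.d (nat_lit 1) (nat_lit 1) (nat_lit 0) (@Lb.t (@Lb.fm (nat_lit 9) t51))))))))))))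
noncomputable def l2210 : Lb := (@Lb.r r323 (@Lb.d (nat_lit 0) (nat_lit 256) (nat_lit 2) (@Lb.g g8 (@Lb.g g9 (@Lb.g g10 (@Lb.r r74 (@Lb.r r584 (@Lb.r r299 (@Lb.r r289 (@Lb.d (nat_lit 10) (nat_lit 0) (nat_lit 0) (@Lb.t (@Lb.fm (nat_lit 9) t51))))))))))))
noncomputable def l2211 : Lb := (@Lb.d (nat_lit 0) (nat_lit 256) (nat_lit 130) (@Lb.g g9 (@Lb.g g10 (@Lb.g g11 (@Lb.r r586 (@Lb.r r584 (@Lb.r r299 (@Lb.r r289 (@Lb.d (nat_lit 2) (nat_lit 2) (nat_lit 0) (@Lb.t (@Lb.fm (nat_lit 9) t51)))))))))))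
noncomputable def l2212 : Lb := (@Lb.d (nat_lit 132) (nat_lit 32) (nat_lit 8) (@Lb.g g8 (@Lb.g g9 (@Lb.g g10 (@Lb.r r263 (@Lb.r r2632 (@Lb.r r1622 (@Lb.r r1425 (@Lb.d (nat_lit 260) (nat_lit 72) (nat_lit 34) (@Lb.t (@Lb.fp (nat_lit 9) t2)))))))))))
noncomputable def l2213 : Lb := (@Lb.d (nat_lit 2) (nat_lit 2) (nat_lit 130) (@Lb.g g8 (@Lb.g g9 (@Lb.g g10 (@Lb.g g11 (@Lb.r r2691 (@Lb.r r297 (@Lb.r r360 (@Lb.r r582 (@Lb.r r2180 (@Lb.d (nat_lit 641) (nat_lit 73) (nat_lit 329) (@Lb.fm (nat_lit 9) t758))))))))))))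
noncomputable def l2214 : Lb := (@Lb.d (nat_lit 257) (nat_lit 517) (nat_lit 33) (@Lb.r r24 (@Lb.r r101 (@Lb.r r2403 (@Lb.g g6 (@Lb.d (nat_lit 0) (nat_lit 4) (nat_lit 1) (@Lb.t (@Lb.fm (nat_lit 3) t759))))))))
noncomputable def l2215 : Lb := (@Lb.d (nat_lit 8) (nat_lit 258) (nat_lit 128) (@Lb.g g9 (@Lb.g g11 (@Lb.r r134 (@Lb.r r584 (@Lb.r r299 (@Lb.r r289 (@Lb.d (nat_lit 8) (nat_lit 72) (nat_lit 130) (@Lb.fp (nat_lit 3) t119)))))))))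
noncomputable def l2216 : Lb := (@Lb.g g7 (@Lb.r r24 (@Lb.r r101 (@Lb.r r402 (@Lb.r r1379 (@Lb.d (nat_lit 5) (nat_lit 273) (nat_lit 576) (@Lb.t (@Lb.fp (nat_lit 3) t760))))))))
noncomputable def l2217 : Lb := (@Lb.r r82 (@Lb.r r275 (@Lb.d (nat_lit 10) (nat_lit 0) (nat_lit 0) (@Lb.g g8 (@Lb.g g9 (@Lb.r r2315 (@Lb.r r86 (@Lb.r r149 (@Lb.d (nat_lit 2) (nat_lit 74) (nat_lit 2) (@Lb.fm (nat_lit 3) t233))))))))))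
noncomputable def l2218 : Lb := (@Lb.d (nat_lit 10) (nat_lit 1) (nat_lit 130) (@Lb.g g8 (@Lb.g g9 (@Lb.g g10 (@Lb.g g11 (@Lb.r r2435 (@Lb.r r2665 (@Lb.r r2450 (@Lb.r r1156 (@Lb.d (nat_lit 288) (nat_lit 73) (nat_lit 658) (@Lb.fp (nat_lit 9) t761)))))))))))
noncomputable def l2219 : Lb := (@Lb.d (nat_lit 288) (nat_lit 517) (nat_lit 32) (@Lb.r r24 (@Lb.r r101 (@Lb.r r402 (@Lb.r r1379 (@Lb.g g6 (@Lb.g g4 (@Lb.fp (nat_lit 3) t762))))))))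
noncomputable def l2220 : Lb := (@Lb.d (nat_lit 8) (nat_lit 2) (nat_lit 0) (@Lb.g g9 (@Lb.r r134 (@Lb.r r328 (@Lb.r r535 (@Lb.r r289 (@Lb.d (nat_lit 0) (nat_lit 10) (nat_lit 130) (@Lb.t (@Lb.fp (nat_lit 3) t119)))))))))
noncomputable def l2221 : Lb := (@Lb.d (nat_lit 2) (nat_lit 514) (nat_lit 73) (@Lb.g g8 (@Lb.g g9 (@Lb.g g10 (@Lb.g g11 (@Lb.r r2691 (@Lb.r r297 (@Lb.r r360 (@Lb.r r582 (@Lb.r r2180 (@Lb.d (nat_lit 640) (nat_lit 10) (nat_lit 329) (@Lb.fm (nat_lit 9) t242))))))))))))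
noncomputable def l2222 : Lb := (@Lb.r r21 (@Lb.r r70 (@Lb.r r263 (@Lb.g g8 (@Lb.r r267 (@Lb.r r74 (@Lb.r r25 (@Lb.d (nat_lit 1) (nat_lit 517) (nat_lit 32) (@Lb.t (@Lb.fp (nat_lit 3) t763))))))))))
noncomputable def l2223 : Lb := (@Lb.d (nat_lit 153) (nat_lit 257) (nat_lit 130) (@Lb.g g8 (@Lb.g g9 (@Lb.g g10 (@Lb.g g11 (@Lb.r r2731 (@Lb.r r1386 (@Lb.r r1561 (@Lb.r r1540 (@Lb.d (nat_lit 393) (nat_lit 25) (nat_lit 421) (@Lb.fm (nat_lit 9) t764)))))))))))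
noncomputable def l2224 : Lb := (@Lb.d (nat_lit 2) (nat_lit 289) (nat_lit 66) (@Lb.g g8 (@Lb.g g9 (@Lb.g g10 (@Lb.g g11 (@Lb.r r1706 (@Lb.r r1700 (@Lb.r r1575 (@Lb.r r1557 (@Lb.d (nat_lit 388) (nat_lit 96) (nat_lit 586) (@Lb.fp (nat_lit 9) t264)))))))))))
noncomputable def l2225 : Lb := (@Lb.g g10 (@Lb.r r2451 (@Lb.r r402 (@Lb.r r101 (@Lb.r r24 (@Lb.d (nat_lit 258) (nat_lit 0) (nat_lit 32) (@Lb.t (@Lb.fm (nat_lit 3) t592))))))))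
noncomputable def l2226 : Lb := (@Lb.d (nat_lit 0) (nat_lit 512) (nat_lit 128) (@Lb.g g10 (@Lb.g g11 (@Lb.r r387 (@Lb.r r402 (@Lb.r r101 (@Lb.r r24 (@Lb.d (nat_lit 545) (nat_lit 5) (nat_lit 16) (@Lb.fp (nat_lit 3) t145)))))))))
noncomputable def l2227 : Lb := (@Lb.d (nat_lit 2) (nat_lit 545) (nat_lit 66) (@Lb.g g8 (@Lb.g g9 (@Lb.g g10 (@Lb.g g11 (@Lb.r r1706 (@Lb.r r1700 (@Lb.r r1575 (@Lb.r r1557 (@Lb.d (nat_lit 390) (nat_lit 96) (nat_lit 586) (@Lb.fp (nat_lit 9) t264)))))))))))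
noncomputable def l2228 : Lb := (@Lb.d (nat_lit 6) (nat_lit 274) (nat_lit 10) (@Lb.r r21 (@Lb.r r322 (@Lb.r r343 (@Lb.g g7 (@Lb.g g6 (@Lb.g g5 (@Lb.g g4 (@Lb.d (nat_lit 1) (nat_lit 1) (nat_lit 136) (@Lb.fp (nat_lit 9) t42))))))))))
noncomputable def l2229 : Lb := (@Lb.d (nat_lit 0) (nat_lit 256) (nat_lit 128) (@Lb.g g10 (@Lb.g g11 (@Lb.r r387 (@Lb.r r402 (@Lb.r r101 (@Lb.r r24 (@Lb.d (nat_lit 2) (nat_lit 10) (nat_lit 2) (@Lb.fp (nat_lit 3) t145)))))))))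
noncomputable def l2230 : Lb := (@Lb.d (nat_lit 10) (nat_lit 256) (nat_lit 128) (@Lb.g g8 (@Lb.g g10 (@Lb.g g11 (@Lb.r r387 (@Lb.r r402 (@Lb.r r149 (@Lb.r r168 (@Lb.d (nat_lit 528) (nat_lit 5) (nat_lit 18) (@Lb.t (@Lb.fm (nat_lit 9) t145)))))))))))
noncomputable def l2231 : Lb := (@Lb.d (nat_lit 74) (nat_lit 89) (nat_lit 68) (@Lb.r r405 (@Lb.r r402 (@Lb.r r615 (@Lb.g g7 (@Lb.g g5 (@Lb.g g8 (@Lb.d (nat_lit 9) (nat_lit 21) (nat_lit 128) (@Lb.r r98 (@Lb.t (@Lb.fm (nat_lit 9) t765)))))))))))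
noncomputable def l2232 : Lb := (@Lb.d (nat_lit 2) (nat_lit 24) (nat_lit 5) (@Lb.g g8 (@Lb.g g9 (@Lb.g g10 (@Lb.g g11 (@Lb.r r1671 (@Lb.r r100 (@Lb.r r410 (@Lb.r r2729 (@Lb.d (nat_lit 577) (nat_lit 145) (nat_lit 354) (@Lb.fm (nat_lit 9) t224)))))))))))
noncomputable def l2233 : Lb := (@Lb.r r323 (@Lb.d (nat_lit 2) (nat_lit 258) (nat_lit 1) (@Lb.g g8 (@Lb.g g9 (@Lb.g g6 (@Lb.r r387 (@Lb.r r97 (@Lb.r r24 (@Lb.d (nat_lit 8) (nat_lit 9) (nat_lit 66) (@Lb.t (@Lb.fp (nat_lit 9) t167)))))))))))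
noncomputable def l2234 : Lb := (@Lb.r r21 (@Lb.d (nat_lit 26) (nat_lit 288) (nat_lit 64) (@Lb.g g8 (@Lb.g g10 (@Lb.g g11 (@Lb.r r2217 (@Lb.r r682 (@Lb.r r1415 (@Lb.r r536 (@Lb.d (nat_lit 84) (nat_lit 98) (nat_lit 146) (@Lb.t (@Lb.fp (nat_lit 9) t766))))))))))))
noncomputable def l2235 : Lb := (@Lb.d (nat_lit 74) (nat_lit 601) (nat_lit 68) (@Lb.r r405 (@Lb.r r402 (@Lb.r r615 (@Lb.g g7 (@Lb.g g5 (@Lb.g g8 (@Lb.d (nat_lit 10) (nat_lit 21) (nat_lit 128) (@Lb.r r98 (@Lb.t (@Lb.fm (nat_lit 9) t30)))))))))))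
noncomputable def l2236 : Lb := (@Lb.d (nat_lit 0) (nat_lit 0) (nat_lit 128) (@Lb.g g10 (@Lb.g g11 (@Lb.r r387 (@Lb.r r402 (@Lb.r r101 (@Lb.r r24 (@Lb.d (nat_lit 545) (nat_lit 0) (nat_lit 18) (@Lb.fp (nat_lit 3) t145)))))))))
noncomputable def l2237 : Lb := (@Lb.d (nat_lit 2) (nat_lit 258) (nat_lit 130) (@Lb.g g8 (@Lb.g g9 (@Lb.g g10 (@Lb.g g11 (@Lb.r r427 (@Lb.r r386 (@Lb.r r25 (@Lb.d (nat_lit 9) (nat_lit 130) (nat_lit 325) (@Lb.fm (nat_lit 9) t51))))))))))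
noncomputable def l2238 : Lb := (@Lb.d (nat_lit 2) (nat_lit 2) (nat_lit 130) (@Lb.g g8 (@Lb.g g9 (@Lb.g g10 (@Lb.g g11 (@Lb.r r427 (@Lb.r r106 (@Lb.r r25 (@Lb.d (nat_lit 9) (nat_lit 168) (nat_lit 386) (@Lb.fp (nat_lit 9) t51))))))))))
noncomputable def l2239 : Lb := (@Lb.d (nat_lit 9) (nat_lit 257) (nat_lit 130) (@Lb.g g8 (@Lb.g g9 (@Lb.g g10 (@Lb.g g11 (@Lb.r r427 (@Lb.r r386 (@Lb.r r97 (@Lb.r r24 (@Lb.d (nat_lit 74) (nat_lit 9) (nat_lit 68) (@Lb.fm (nat_lit 9) t61)))))))))))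
noncomputable def l2240 : Lb := (@Lb.d (nat_lit 32) (nat_lit 0) (nat_lit 128) (@Lb.g g10 (@Lb.g g11 (@Lb.r r545 (@Lb.r r344 (@Lb.r r679 (@Lb.r r646 (@Lb.d (nat_lit 128) (nat_lit 136) (nat_lit 133) (@Lb.fm (nat_lit 3) t154)))))))))
noncomputable def l2241 : Lb := (@Lb.d (nat_lit 2) (nat_lit 550) (nat_lit 10) (@Lb.g g8 (@Lb.g g9 (@Lb.g g10 (@Lb.g g11 (@Lb.r r643 (@Lb.r r386 (@Lb.r r2345 (@Lb.r r36 (@Lb.d (nat_lit 393) (nat_lit 2) (nat_lit 584) (@Lb.fm (nat_lit 9) t42)))))))))))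
noncomputable def l2242 : Lb := (@Lb.d (nat_lit 0) (nat_lit 256) (nat_lit 128) (@Lb.g g8 (@Lb.g g10 (@Lb.g g11 (@Lb.r r387 (@Lb.r r402 (@Lb.r r101 (@Lb.r r24 (@Lb.d (nat_lit 2) (nat_lit 0) (nat_lit 0) (@Lb.t (@Lb.fp (nat_lit 9) t145)))))))))))
noncomputable def l2243 : Lb := (@Lb.d (nat_lit 69) (nat_lit 25) (nat_lit 68) (@Lb.r r405 (@Lb.r r402 (@Lb.r r615 (@Lb.g g7 (@Lb.g g5 (@Lb.g g8 (@Lb.d (nat_lit 10) (nat_lit 21) (nat_lit 128) (@Lb.r r98 (@Lb.t (@Lb.fm (nat_lit 9) t30)))))))))))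
noncomputable def l2244 : Lb := (@Lb.d (nat_lit 1) (nat_lit 256) (nat_lit 128) (@Lb.g g8 (@Lb.g g10 (@Lb.g g11 (@Lb.r r387 (@Lb.r r402 (@Lb.r r101 (@Lb.r r24 (@Lb.d (nat_lit 9) (nat_lit 2) (nat_lit 0) (@Lb.t (@Lb.fp (nat_lit 9) t145)))))))))))
noncomputable def l2245 : Lb := (@Lb.d (nat_lit 0) (nat_lit 0) (nat_lit 128) (@Lb.g g8 (@Lb.g g10 (@Lb.g g11 (@Lb.r r387 (@Lb.r r402 (@Lb.r r101 (@Lb.r r24 (@Lb.d (nat_lit 2) (nat_lit 5) (nat_lit 1) (@Lb.t (@Lb.fp (nat_lit 9) t145)))))))))))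
noncomputable def l2246 : Lb := (@Lb.d (nat_lit 5) (nat_lit 548) (nat_lit 10) (@Lb.g g8 (@Lb.g g9 (@Lb.g g10 (@Lb.g g11 (@Lb.r r643 (@Lb.r r386 (@Lb.r r2345 (@Lb.r r36 (@Lb.d (nat_lit 386) (nat_lit 0) (nat_lit 584) (@Lb.fm (nat_lit 9) t42)))))))))))
noncomputable def l2247 : Lb := (@Lb.d (nat_lit 280) (nat_lit 388) (nat_lit 16) (@Lb.r r1096 (@Lb.r r2341 (@Lb.r r1371 (@Lb.g g7 (@Lb.g g6 (@Lb.g g5 (@Lb.d (nat_lit 16) (nat_lit 0) (nat_lit 97) (@Lb.t (@Lb.fp (nat_lit 9) t767))))))))))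
noncomputable def l2248 : Lb := (@Lb.d (nat_lit 281) (nat_lit 265) (nat_lit 96) (@Lb.r r277 (@Lb.r r326 (@Lb.r r519 (@Lb.r r264 (@Lb.g g7 (@Lb.d (nat_lit 64) (nat_lit 0) (nat_lit 64) (@Lb.t (@Lb.fm (nat_lit 3) t768)))))))))
noncomputable def l2249 : Lb := (@Lb.d (nat_lit 537) (nat_lit 282) (nat_lit 608) (@Lb.r r24 (@Lb.r r1317 (@Lb.r r1382 (@Lb.r r2323 (@Lb.g g7 (@Lb.g g5 (@Lb.d (nat_lit 0) (nat_lit 1) (nat_lit 64) (@Lb.r r98 (@Lb.fm (nat_lit 3) t769))))))))))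
noncomputable def l2250 : Lb := (@Lb.d (nat_lit 128) (nat_lit 9) (nat_lit 161) (@Lb.g g9 (@Lb.g g6 (@Lb.g g11 (@Lb.r r264 (@Lb.r r519 (@Lb.r r97 (@Lb.d (nat_lit 258) (nat_lit 42) (nat_lit 384) (@Lb.t (@Lb.fm (nat_lit 9) t770))))))))))
noncomputable def l2251 : Lb := (@Lb.d (nat_lit 10) (nat_lit 260) (nat_lit 18) (@Lb.r r134 (@Lb.r r328 (@Lb.r r279 (@Lb.r r545 (@Lb.g g7 (@Lb.g g5 (@Lb.d (nat_lit 0) (nat_lit 0) (nat_lit 64) (@Lb.fp (nat_lit 3) t69)))))))))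
noncomputable def l2252 : Lb := (@Lb.d (nat_lit 274) (nat_lit 10) (nat_lit 96) (@Lb.r r277 (@Lb.r r326 (@Lb.r r519 (@Lb.r r264 (@Lb.g g7 (@Lb.d (nat_lit 64) (nat_lit 0) (nat_lit 64) (@Lb.t (@Lb.fm (nat_lit 3) t768)))))))))
noncomputable def l2253 : Lb := (@Lb.d (nat_lit 2) (nat_lit 288) (nat_lit 130) (@Lb.g g8 (@Lb.g g10 (@Lb.g g11 (@Lb.r r602 (@Lb.r r600 (@Lb.r r293 (@Lb.r r2587 (@Lb.d (nat_lit 322) (nat_lit 98) (nat_lit 276) (@Lb.t (@Lb.fp (nat_lit 9) t71)))))))))))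
noncomputable def l2254 : Lb := (@Lb.d (nat_lit 9) (nat_lit 518) (nat_lit 74) (@Lb.g g8 (@Lb.g g9 (@Lb.g g10 (@Lb.g g11 (@Lb.r r1699 (@Lb.r r596 (@Lb.r r682 (@Lb.r r2217 (@Lb.r r2212 (@Lb.d (nat_lit 581) (nat_lit 96) (nat_lit 586) (@Lb.fm (nat_lit 9) t68))))))))))))
noncomputable def l2255 : Lb := (@Lb.r r323 (@Lb.d (nat_lit 2) (nat_lit 514) (nat_lit 0) (@Lb.g g8 (@Lb.g g9 (@Lb.g g10 (@Lb.r r427 (@Lb.r r106 (@Lb.r r25 (@Lb.d (nat_lit 0) (nat_lit 66) (nat_lit 0) (@Lb.t (@Lb.fm (nat_lit 9) t51)))))))))))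
noncomputable def l2256 : Lb := (@Lb.d (nat_lit 136) (nat_lit 529) (nat_lit 2) (@Lb.g g8 (@Lb.g g9 (@Lb.g g10 (@Lb.g g11 (@Lb.r r582 (@Lb.r r388 (@Lb.r r1323 (@Lb.r r673 (@Lb.d (nat_lit 610) (nat_lit 69) (nat_lit 645) (@Lb.fm (nat_lit 9) t238)))))))))))
noncomputable def l2257 : Lb := (@Lb.r r323 (@Lb.d (nat_lit 2) (nat_lit 521) (nat_lit 0) (@Lb.g g8 (@Lb.g g9 (@Lb.g g6 (@Lb.r r2347 (@Lb.r r97 (@Lb.r r24 (@Lb.d (nat_lit 266) (nat_lit 9) (nat_lit 66) (@Lb.t (@Lb.fp (nat_lit 9) t771)))))))))))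
noncomputable def l2258 : Lb := (@Lb.d (nat_lit 153) (nat_lit 264) (nat_lit 130) (@Lb.g g8 (@Lb.g g9 (@Lb.g g10 (@Lb.g g11 (@Lb.r r1706 (@Lb.r r1411 (@Lb.r r2201 (@Lb.r r2180 (@Lb.d (nat_lit 553) (nat_lit 153) (nat_lit 169) (@Lb.fm (nat_lit 9) t328)))))))))))
noncomputable def l2259 : Lb := (@Lb.d (nat_lit 152) (nat_lit 520) (nat_lit 73) (@Lb.g g8 (@Lb.g g9 (@Lb.g g10 (@Lb.g g11 (@Lb.r r683 (@Lb.r r2410 (@Lb.r r1561 (@Lb.r r1540 (@Lb.d (nat_lit 393) (nat_lit 153) (nat_lit 5) (@Lb.fm (nat_lit 9) t328)))))))))))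
noncomputable def l2260 : Lb := (@Lb.d (nat_lit 16) (nat_lit 256) (nat_lit 66) (@Lb.g g6 (@Lb.g g11 (@Lb.r r584 (@Lb.r r299 (@Lb.r r289 (@Lb.d (nat_lit 8) (nat_lit 66) (nat_lit 1) (@Lb.fp (nat_lit 3) t51))))))))
noncomputable def l2261 : Lb := (@Lb.d (nat_lit 2) (nat_lit 550) (nat_lit 133) (@Lb.g g8 (@Lb.g g9 (@Lb.g g10 (@Lb.g g11 (@Lb.r r1706 (@Lb.r r676 (@Lb.r r551 (@Lb.r r1577 (@Lb.r r20 (@Lb.d (nat_lit 326) (nat_lit 34) (nat_lit 586) (@Lb.fm (nat_lit 9) t125))))))))))))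
noncomputable def l2262 : Lb := (@Lb.d (nat_lit 0) (nat_lit 0) (nat_lit 133) (@Lb.g g10 (@Lb.g g11 (@Lb.r r1347 (@Lb.r r1378 (@Lb.r r101 (@Lb.r r24 (@Lb.d (nat_lit 576) (nat_lit 0) (nat_lit 320) (@Lb.fm (nat_lit 3) t145)))))))))
noncomputable def l2263 : Lb := (@Lb.d (nat_lit 0) (nat_lit 256) (nat_lit 512) (@Lb.r r1346 (@Lb.g g7 (@Lb.g g6 (@Lb.fm (nat_lit 3) t2)))))
noncomputable def l2264 : Lb := (@Lb.d (nat_lit 32) (nat_lit 0) (nat_lit 128) (@Lb.g g10 (@Lb.g g11 (@Lb.r r1447 (@Lb.r r2648 (@Lb.r r2453 (@Lb.r r1430 (@Lb.d (nat_lit 357) (nat_lit 90) (nat_lit 9) (@Lb.fm (nat_lit 3) t188)))))))))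
noncomputable def l2265 : Lb := (@Lb.d (nat_lit 2) (nat_lit 288) (nat_lit 128) (@Lb.g g8 (@Lb.g g11 (@Lb.r r2712 (@Lb.r r293 (@Lb.r r2587 (@Lb.r r2178 (@Lb.d (nat_lit 106) (nat_lit 34) (nat_lit 402) (@Lb.fm (nat_lit 3) t772)))))))))
noncomputable def l2266 : Lb := (@Lb.d (nat_lit 128) (nat_lit 2) (nat_lit 130) (@Lb.g g8 (@Lb.g g9 (@Lb.g g10 (@Lb.g g11 (@Lb.r r683 (@Lb.r r2410 (@Lb.r r537 (@Lb.r r516 (@Lb.d (nat_lit 137) (nat_lit 89) (nat_lit 21) (@Lb.fm (nat_lit 9) t773)))))))))))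
noncomputable def l2267 : Lb := (@Lb.d (nat_lit 32) (nat_lit 512) (nat_lit 74) (@Lb.g g10 (@Lb.g g11 (@Lb.r r1447 (@Lb.r r2648 (@Lb.r r2453 (@Lb.r r1430 (@Lb.d (nat_lit 356) (nat_lit 90) (nat_lit 9) (@Lb.fm (nat_lit 3) t188)))))))))
noncomputable def l2268 : Lb := (@Lb.d (nat_lit 2) (nat_lit 258) (nat_lit 128) (@Lb.g g8 (@Lb.g g9 (@Lb.g g11 (@Lb.r r548 (@Lb.r r2727 (@Lb.r r2178 (@Lb.r r533 (@Lb.r r2084 (@Lb.d (nat_lit 146) (nat_lit 136) (nat_lit 345) (@Lb.t (@Lb.fm (nat_lit 9) t229))))))))))))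
noncomputable def l2269 : Lb := (@Lb.d (nat_lit 153) (nat_lit 257) (nat_lit 128) (@Lb.g g8 (@Lb.g g9 (@Lb.g g10 (@Lb.g g11 (@Lb.r r1706 (@Lb.r r1411 (@Lb.r r2201 (@Lb.r r2180 (@Lb.d (nat_lit 548) (nat_lit 89) (nat_lit 169) (@Lb.fm (nat_lit 9) t531)))))))))))
noncomputable def l2270 : Lb := (@Lb.d (nat_lit 152) (nat_lit 513) (nat_lit 74) (@Lb.g g8 (@Lb.g g9 (@Lb.g g10 (@Lb.g g11 (@Lb.r r683 (@Lb.r r2410 (@Lb.r r1561 (@Lb.r r1540 (@Lb.d (nat_lit 388) (nat_lit 89) (nat_lit 5) (@Lb.fm (nat_lit 9) t531)))))))))))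
noncomputable def l2271 : Lb := (@Lb.r r323 (@Lb.d (nat_lit 33) (nat_lit 2) (nat_lit 2) (@Lb.g g8 (@Lb.g g9 (@Lb.g g10 (@Lb.r r1689 (@Lb.r r1563 (@Lb.r r2634 (@Lb.r r1540 (@Lb.d (nat_lit 658) (nat_lit 0) (nat_lit 641) (@Lb.t (@Lb.fp (nat_lit 9) t774))))))))))))
noncomputable def l2272 : Lb := (@Lb.d (nat_lit 2) (nat_lit 2) (nat_lit 130) (@Lb.g g8 (@Lb.g g9 (@Lb.g g10 (@Lb.g g11 (@Lb.r r1443 (@Lb.r r297 (@Lb.r r2120 (@Lb.r r1126 (@Lb.d (nat_lit 277) (nat_lit 133) (nat_lit 384) (@Lb.fp (nat_lit 9) t775)))))))))))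
noncomputable def l2273 : Lb := (@Lb.r r20 (@Lb.d (nat_lit 8) (nat_lit 386) (nat_lit 130) (@Lb.g g5 (@Lb.g g10 (@Lb.g g11 (@Lb.r r1415 (@Lb.r r2648 (@Lb.r r1126 (@Lb.d (nat_lit 277) (nat_lit 148) (nat_lit 289) (@Lb.t (@Lb.fm (nat_lit 9) t776)))))))))))
noncomputable def l2274 : Lb := (@Lb.d (nat_lit 152) (nat_lit 1) (nat_lit 128) (@Lb.g g8 (@Lb.g g9 (@Lb.g g10 (@Lb.g g11 (@Lb.r r683 (@Lb.r r2410 (@Lb.r r548 (@Lb.r r37 (@Lb.d (nat_lit 362) (nat_lit 33) (nat_lit 21) (@Lb.fp (nat_lit 9) t283)))))))))))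
noncomputable def l2275 : Lb := (@Lb.d (nat_lit 152) (nat_lit 257) (nat_lit 128) (@Lb.g g8 (@Lb.g g9 (@Lb.g g10 (@Lb.g g11 (@Lb.r r683 (@Lb.r r2410 (@Lb.r r548 (@Lb.r r37 (@Lb.d (nat_lit 357) (nat_lit 32) (nat_lit 21) (@Lb.fp (nat_lit 9) t283)))))))))))
noncomputable def l2276 : Lb := (@Lb.d (nat_lit 10) (nat_lit 257) (nat_lit 162) (@Lb.g g8 (@Lb.g g9 (@Lb.g g6 (@Lb.g g11 (@Lb.r r2667 (@Lb.r r97 (@Lb.r r2584 (@Lb.d (nat_lit 90) (nat_lit 164) (nat_lit 416) (@Lb.fp (nat_lit 9) t777))))))))))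
noncomputable def l2277 : Lb := (@Lb.r r82 (@Lb.r r275 (@Lb.g g9 (@Lb.r r2475 (@Lb.r r1174 (@Lb.r r2217 (@Lb.d (nat_lit 282) (nat_lit 138) (nat_lit 18) (@Lb.t (@Lb.fp (nat_lit 3) t778)))))))))
noncomputable def l2278 : Lb := (@Lb.r r323 (@Lb.d (nat_lit 0) (nat_lit 520) (nat_lit 0) (@Lb.g g9 (@Lb.g g10 (@Lb.r r2475 (@Lb.r r2154 (@Lb.r r105 (@Lb.d (nat_lit 37) (nat_lit 132) (nat_lit 17) (@Lb.fp (nat_lit 3) t8)))))))))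
noncomputable def l2279 : Lb := (@Lb.d (nat_lit 2) (nat_lit 514) (nat_lit 128) (@Lb.g g8 (@Lb.g g9 (@Lb.g g11 (@Lb.r r552 (@Lb.r r1625 (@Lb.r r539 (@Lb.r r2178 (@Lb.r r516 (@Lb.d (nat_lit 554) (nat_lit 66) (nat_lit 384) (@Lb.t (@Lb.fp (nat_lit 9) t775))))))))))))
noncomputable def l2280 : Lb := (@Lb.d (nat_lit 152) (nat_lit 8) (nat_lit 130) (@Lb.g g8 (@Lb.g g9 (@Lb.g g10 (@Lb.g g11 (@Lb.r r683 (@Lb.r r2410 (@Lb.r r548 (@Lb.r r37 (@Lb.d (nat_lit 356) (nat_lit 32) (nat_lit 21) (@Lb.fp (nat_lit 9) t606)))))))))))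
noncomputable def l2281 : Lb := (@Lb.d (nat_lit 0) (nat_lit 261) (nat_lit 0) (@Lb.g g5 (@Lb.d (nat_lit 0) (nat_lit 5) (nat_lit 2) (@Lb.t (@Lb.fm (nat_lit 3) t87)))))
noncomputable def l2282 : Lb := (@Lb.r r263 (@Lb.d (nat_lit 264) (nat_lit 513) (nat_lit 0) (@Lb.g g4 (@Lb.g g9 (@Lb.g g10 (@Lb.r r1443 (@Lb.r r145 (@Lb.d (nat_lit 1) (nat_lit 74) (nat_lit 1) (@Lb.t (@Lb.fp (nat_lit 9) t779))))))))))
noncomputable def l2283 : Lb := (@Lb.d (nat_lit 8) (nat_lit 258) (nat_lit 130) (@Lb.g g9 (@Lb.g g10 (@Lb.g g11 (@Lb.r r614 (@Lb.r r404 (@Lb.r r1371 (@Lb.r r2597 (@Lb.d (nat_lit 154) (nat_lit 20) (nat_lit 422) (@Lb.t (@Lb.fp (nat_lit 9) t494)))))))))))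
noncomputable def l2284 : Lb := (@Lb.d (nat_lit 290) (nat_lit 10) (nat_lit 161) (@Lb.r r24 (@Lb.r r1109 (@Lb.r r418 (@Lb.g g11 (@Lb.g g5 (@Lb.d (nat_lit 0) (nat_lit 18) (nat_lit 392) (@Lb.r r578 (@Lb.fp (nat_lit 3) t780)))))))))
noncomputable def l2285 : Lb := (@Lb.d (nat_lit 128) (nat_lit 257) (nat_lit 130) (@Lb.g g9 (@Lb.g g10 (@Lb.g g11 (@Lb.r r610 (@Lb.r r105 (@Lb.r r264 (@Lb.r r2663 (@Lb.d (nat_lit 261) (nat_lit 40) (nat_lit 586) (@Lb.t (@Lb.fp (nat_lit 9) t781)))))))))))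
noncomputable def l2286 : Lb := (@Lb.d (nat_lit 336) (nat_lit 266) (nat_lit 645) (@Lb.r r24 (@Lb.r r2587 (@Lb.r r1365 (@Lb.r r2466 (@Lb.g g7 (@Lb.g g6 (@Lb.g g5 (@Lb.d (nat_lit 0) (nat_lit 6) (nat_lit 8) (@Lb.t (@Lb.fm (nat_lit 9) t782)))))))))))
noncomputable def l2287 : Lb := (@Lb.r r327 (@Lb.d (nat_lit 2) (nat_lit 265) (nat_lit 2) (@Lb.g g8 (@Lb.g g9 (@Lb.g g10 (@Lb.r r1706 (@Lb.r r1700 (@Lb.r r551 (@Lb.r r1553 (@Lb.d (nat_lit 548) (nat_lit 98) (nat_lit 73) (@Lb.t (@Lb.fm (nat_lit 9) t783))))))))))))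
noncomputable def l2288 : Lb := (@Lb.d (nat_lit 145) (nat_lit 9) (nat_lit 73) (@Lb.g g8 (@Lb.g g9 (@Lb.g g10 (@Lb.g g11 (@Lb.r r1706 (@Lb.r r1419 (@Lb.r r1553 (@Lb.r r420 (@Lb.d (nat_lit 85) (nat_lit 85) (nat_lit 601) (@Lb.fm (nat_lit 9) t783)))))))))))
noncomputable def l2289 : Lb := (@Lb.d (nat_lit 293) (nat_lit 64) (nat_lit 0) (@Lb.r r24 (@Lb.r r2138 (@Lb.r r149 (@Lb.r r2451 (@Lb.g g5 (@Lb.t (@Lb.fp (nat_lit 3) t784))))))))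
noncomputable def l2290 : Lb := (@Lb.d (nat_lit 538) (nat_lit 320) (nat_lit 145) (@Lb.r r24 (@Lb.r r2129 (@Lb.r r418 (@Lb.g g11 (@Lb.g g5 (@Lb.d (nat_lit 128) (nat_lit 18) (nat_lit 648) (@Lb.r r578 (@Lb.fp (nat_lit 3) t785)))))))))
noncomputable def l2291 : Lb := (@Lb.r r275 (@Lb.d (nat_lit 8) (nat_lit 32) (nat_lit 2) (@Lb.g g9 (@Lb.g g10 (@Lb.r r1382 (@Lb.r r2708 (@Lb.r r2391 (@Lb.r r2649 (@Lb.d (nat_lit 74) (nat_lit 166) (nat_lit 289) (@Lb.fm (nat_lit 3) t238))))))))))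
noncomputable def l2292 : Lb := (@Lb.d (nat_lit 72) (nat_lit 33) (nat_lit 130) (@Lb.g g8 (@Lb.g g9 (@Lb.g g10 (@Lb.g g11 (@Lb.r r1451 (@Lb.r r388 (@Lb.r r2134 (@Lb.r r2193 (@Lb.r r2084 (@Lb.d (nat_lit 38) (nat_lit 37) (nat_lit 640) (@Lb.fp (nat_lit 9) t238))))))))))))
noncomputable def l2293 : Lb := (@Lb.d (nat_lit 41) (nat_lit 6) (nat_lit 145) (@Lb.r r1176 (@Lb.r r1178 (@Lb.r r2401 (@Lb.g g11 (@Lb.g g6 (@Lb.g g4 (@Lb.d (nat_lit 66) (nat_lit 32) (nat_lit 257) (@Lb.r r529 (@Lb.t (@Lb.fp (nat_lit 9) t786)))))))))))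
noncomputable def l2294 : Lb := (@Lb.d (nat_lit 8) (nat_lit 258) (nat_lit 0) (@Lb.g g9 (@Lb.r r2343 (@Lb.r r2150 (@Lb.d (nat_lit 266) (nat_lit 1) (nat_lit 0) (@Lb.t (@Lb.fp (nat_lit 3) t710)))))))
noncomputable def l2295 : Lb := (@Lb.r r21 (@Lb.r r70 (@Lb.d (nat_lit 656) (nat_lit 288) (nat_lit 64) (@Lb.g g4 (@Lb.g g11 (@Lb.r r345 (@Lb.r r1315 (@Lb.r r2182 (@Lb.d (nat_lit 6) (nat_lit 170) (nat_lit 417) (@Lb.fm (nat_lit 3) t151))))))))))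
noncomputable def l2296 : Lb := (@Lb.r r21 (@Lb.d (nat_lit 32) (nat_lit 0) (nat_lit 1) (@Lb.g g8 (@Lb.g g10 (@Lb.r r1691 (@Lb.r r1381 (@Lb.r r2202 (@Lb.r r1092 (@Lb.d (nat_lit 552) (nat_lit 133) (nat_lit 18) (@Lb.fp (nat_lit 3) t367))))))))))
noncomputable def l2297 : Lb := (@Lb.d (nat_lit 32) (nat_lit 514) (nat_lit 1) (@Lb.g g8 (@Lb.g g9 (@Lb.g g10 (@Lb.r r1675 (@Lb.r r1300 (@Lb.r r1433 (@Lb.r r1114 (@Lb.d (nat_lit 648) (nat_lit 133) (nat_lit 678) (@Lb.t (@Lb.fp (nat_lit 9) t367)))))))))))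
noncomputable def l2298 : Lb := (@Lb.d (nat_lit 2) (nat_lit 2) (nat_lit 2) (@Lb.g g8 (@Lb.g g9 (@Lb.g g10 (@Lb.r r2666 (@Lb.r r25 (@Lb.d (nat_lit 9) (nat_lit 82) (nat_lit 385) (@Lb.t (@Lb.fm (nat_lit 9) t479)))))))))
noncomputable def l2299 : Lb := (@Lb.r r21 (@Lb.r r70 (@Lb.g g4 (@Lb.r r1559 (@Lb.r r405 (@Lb.r r86 (@Lb.r r2148 (@Lb.d (nat_lit 518) (nat_lit 320) (nat_lit 0) (@Lb.t (@Lb.fp (nat_lit 3) t68))))))))))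
noncomputable def l2300 : Lb := (@Lb.r r21 (@Lb.d (nat_lit 81) (nat_lit 0) (nat_lit 74) (@Lb.g g8 (@Lb.g g10 (@Lb.g g11 (@Lb.r r603 (@Lb.r r2401 (@Lb.r r1170 (@Lb.r r152 (@Lb.d (nat_lit 21) (nat_lit 73) (nat_lit 17) (@Lb.t (@Lb.fm (nat_lit 9) t151))))))))))))
noncomputable def l2301 : Lb := (@Lb.d (nat_lit 32) (nat_lit 264) (nat_lit 130) (@Lb.g g10 (@Lb.g g11 (@Lb.r r361 (@Lb.r r2711 (@Lb.r r1352 (@Lb.r r1382 (@Lb.d (nat_lit 341) (nat_lit 68) (nat_lit 277) (@Lb.fp (nat_lit 3) t71)))))))))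
noncomputable def l2302 : Lb := (@Lb.d (nat_lit 9) (nat_lit 520) (nat_lit 130) (@Lb.g g8 (@Lb.g g10 (@Lb.g g11 (@Lb.r r545 (@Lb.r r299 (@Lb.r r356 (@Lb.r r154 (@Lb.d (nat_lit 9) (nat_lit 5) (nat_lit 144) (@Lb.t (@Lb.fm (nat_lit 9) t40)))))))))))
noncomputable def l2303 : Lb := (@Lb.d (nat_lit 9) (nat_lit 257) (nat_lit 130) (@Lb.g g8 (@Lb.g g9 (@Lb.g g10 (@Lb.g g11 (@Lb.r r2666 (@Lb.r r612 (@Lb.r r679 (@Lb.r r597 (@Lb.r r2084 (@Lb.d (nat_lit 665) (nat_lit 9) (nat_lit 358) (@Lb.fm (nat_lit 9) t61))))))))))))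
noncomputable def l2304 : Lb := (@Lb.d (nat_lit 9) (nat_lit 264) (nat_lit 130) (@Lb.g g8 (@Lb.g g10 (@Lb.g g11 (@Lb.r r545 (@Lb.r r299 (@Lb.r r356 (@Lb.r r154 (@Lb.d (nat_lit 10) (nat_lit 5) (nat_lit 144) (@Lb.t (@Lb.fm (nat_lit 9) t167)))))))))))
noncomputable def l2305 : Lb := (@Lb.r r20 (@Lb.r r82 (@Lb.d (nat_lit 0) (nat_lit 256) (nat_lit 128) (@Lb.g g9 (@Lb.g g11 (@Lb.r r595 (@Lb.r r674 (@Lb.r r593 (@Lb.d (nat_lit 1) (nat_lit 2) (nat_lit 132) (@Lb.fm (nat_lit 3) t5))))))))))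
noncomputable def l2306 : Lb := (@Lb.r r20 (@Lb.r r82 (@Lb.r r275 (@Lb.g g9 (@Lb.r r291 (@Lb.r r98 (@Lb.d (nat_lit 1) (nat_lit 2) (nat_lit 0) (@Lb.t (@Lb.fp (nat_lit 3) t5)))))))))
noncomputable def l2307 : Lb := (@Lb.r r323 (@Lb.d (nat_lit 40) (nat_lit 6) (nat_lit 0) (@Lb.g g8 (@Lb.g g9 (@Lb.g g10 (@Lb.r r1689 (@Lb.r r343 (@Lb.r r2694 (@Lb.r r2180 (@Lb.d (nat_lit 417) (nat_lit 0) (nat_lit 584) (@Lb.t (@Lb.fp (nat_lit 9) t86))))))))))))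
noncomputable def l2308 : Lb := (@Lb.g g10 (@Lb.r r2451 (@Lb.r r402 (@Lb.r r101 (@Lb.r r24 (@Lb.d (nat_lit 529) (nat_lit 266) (nat_lit 137) (@Lb.t (@Lb.fm (nat_lit 3) t335))))))))
noncomputable def l2309 : Lb := (@Lb.g g10 (@Lb.g g7 (@Lb.r r2451 (@Lb.r r402 (@Lb.r r101 (@Lb.r r24 (@Lb.d (nat_lit 256) (nat_lit 512) (nat_lit 170) (@Lb.fm (nat_lit 3) t335))))))))
noncomputable def l2310 : Lb := (@Lb.d (nat_lit 32) (nat_lit 8) (nat_lit 74) (@Lb.g g10 (@Lb.g g11 (@Lb.r r661 (@Lb.r r2664 (@Lb.r r2411 (@Lb.r r2714 (@Lb.d (nat_lit 104) (nat_lit 162) (nat_lit 405) (@Lb.fm (nat_lit 3) t787)))))))))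
noncomputable def l2311 : Lb := (@Lb.d (nat_lit 10) (nat_lit 256) (nat_lit 0) (@Lb.g g8 (@Lb.g g10 (@Lb.r r2451 (@Lb.r r402 (@Lb.r r101 (@Lb.r r24 (@Lb.d (nat_lit 512) (nat_lit 0) (nat_lit 137) (@Lb.fp (nat_lit 3) t335)))))))))
noncomputable def l2312 : Lb := (@Lb.d (nat_lit 0) (nat_lit 256) (nat_lit 130) (@Lb.g g10 (@Lb.g g11 (@Lb.r r2691 (@Lb.r r2658 (@Lb.d (nat_lit 0) (nat_lit 37) (nat_lit 425) (@Lb.fp (nat_lit 3) t71)))))))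
noncomputable def l2313 : Lb := (@Lb.g g10 (@Lb.r r2451 (@Lb.d (nat_lit 0) (nat_lit 534) (nat_lit 536) (@Lb.t (@Lb.fp (nat_lit 3) t788)))))
noncomputable def l2314 : Lb := (@Lb.r r70 (@Lb.d (nat_lit 385) (nat_lit 2) (nat_lit 64) (@Lb.g g8 (@Lb.g g9 (@Lb.g g11 (@Lb.r r2347 (@Lb.r r1602 (@Lb.r r25 (@Lb.d (nat_lit 9) (nat_lit 33) (nat_lit 128) (@Lb.t (@Lb.fm (nat_lit 9) t394)))))))))))
noncomputable def l2315 : Lb := (@Lb.d (nat_lit 2) (nat_lit 258) (nat_lit 2) (@Lb.g g8 (@Lb.g g9 (@Lb.g g10 (@Lb.g g11 (@Lb.r r2454 (@Lb.r r343 (@Lb.r r25 (@Lb.d (nat_lit 9) (nat_lit 85) (nat_lit 520) (@Lb.fm (nat_lit 9) t51))))))))))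
noncomputable def l2316 : Lb := (@Lb.d (nat_lit 2) (nat_lit 258) (nat_lit 130) (@Lb.g g8 (@Lb.g g9 (@Lb.g g10 (@Lb.g g11 (@Lb.r r2411 (@Lb.r r386 (@Lb.r r97 (@Lb.r r24 (@Lb.d (nat_lit 265) (nat_lit 2) (nat_lit 153) (@Lb.fm (nat_lit 9) t61)))))))))))
noncomputable def l2317 : Lb := (@Lb.d (nat_lit 2) (nat_lit 514) (nat_lit 2) (@Lb.g g8 (@Lb.g g9 (@Lb.g g10 (@Lb.r r2411 (@Lb.r r386 (@Lb.r r97 (@Lb.r r24 (@Lb.d (nat_lit 154) (nat_lit 9) (nat_lit 340) (@Lb.t (@Lb.fp (nat_lit 9) t221)))))))))))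
noncomputable def l2318 : Lb := (@Lb.d (nat_lit 2) (nat_lit 2) (nat_lit 2) (@Lb.g g8 (@Lb.g g9 (@Lb.g g10 (@Lb.r r2411 (@Lb.r r386 (@Lb.r r97 (@Lb.r r24 (@Lb.d (nat_lit 153) (nat_lit 9) (nat_lit 340) (@Lb.t (@Lb.fp (nat_lit 9) t221)))))))))))
noncomputable def l2319 : Lb := (@Lb.d (nat_lit 2) (nat_lit 514) (nat_lit 130) (@Lb.g g8 (@Lb.g g9 (@Lb.g g10 (@Lb.g g11 (@Lb.r r2411 (@Lb.r r386 (@Lb.r r97 (@Lb.r r24 (@Lb.d (nat_lit 265) (nat_lit 9) (nat_lit 152) (@Lb.fm (nat_lit 9) t61)))))))))))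
noncomputable def l2320 : Lb := (@Lb.r r81 (@Lb.d (nat_lit 144) (nat_lit 520) (nat_lit 42) (@Lb.g g8 (@Lb.g g6 (@Lb.r r1415 (@Lb.r r2577 (@Lb.r r2632 (@Lb.d (nat_lit 353) (nat_lit 153) (nat_lit 0) (@Lb.fm (nat_lit 3) t218)))))))))
noncomputable def l2321 : Lb := (@Lb.r r21 (@Lb.d (nat_lit 2) (nat_lit 256) (nat_lit 130) (@Lb.g g8 (@Lb.g g10 (@Lb.g g11 (@Lb.r r2379 (@Lb.r r386 (@Lb.r r97 (@Lb.r r72 (@Lb.d (nat_lit 289) (nat_lit 10) (nat_lit 154) (@Lb.t (@Lb.fp (nat_lit 9) t61))))))))))))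
noncomputable def l2322 : Lb := (@Lb.r r21 (@Lb.d (nat_lit 17) (nat_lit 256) (nat_lit 74) (@Lb.g g8 (@Lb.g g10 (@Lb.g g11 (@Lb.r r603 (@Lb.r r2401 (@Lb.r r1170 (@Lb.r r1128 (@Lb.d (nat_lit 265) (nat_lit 4) (nat_lit 33) (@Lb.t (@Lb.fm (nat_lit 9) t789))))))))))))
noncomputable def l2323 : Lb := (@Lb.d (nat_lit 2) (nat_lit 258) (nat_lit 130) (@Lb.g g8 (@Lb.g g9 (@Lb.g g10 (@Lb.g g11 (@Lb.r r2454 (@Lb.r r343 (@Lb.r r2457 (@Lb.r r2436 (@Lb.d (nat_lit 617) (nat_lit 137) (nat_lit 393) (@Lb.fm (nat_lit 9) t790)))))))))))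
noncomputable def l2324 : Lb := (@Lb.d (nat_lit 130) (nat_lit 258) (nat_lit 0) (@Lb.g g8 (@Lb.g g9 (@Lb.r r1303 (@Lb.r r162 (@Lb.r r145 (@Lb.r r2664 (@Lb.d (nat_lit 358) (nat_lit 138) (nat_lit 2) (@Lb.fm (nat_lit 3) t334)))))))))
noncomputable def l2325 : Lb := (@Lb.d (nat_lit 537) (nat_lit 134) (nat_lit 102) (@Lb.r r1110 (@Lb.r r2472 (@Lb.r r1367 (@Lb.g g7 (@Lb.g g6 (@Lb.g g5 (@Lb.g g4 (@Lb.d (nat_lit 1) (nat_lit 129) (nat_lit 8) (@Lb.fm (nat_lit 9) t791))))))))))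
noncomputable def l2326 : Lb := (@Lb.d (nat_lit 9) (nat_lit 1) (nat_lit 0) (@Lb.g g8 (@Lb.g g9 (@Lb.r r617 (@Lb.r r363 (@Lb.r r328 (@Lb.r r134 (@Lb.d (nat_lit 17) (nat_lit 10) (nat_lit 42) (@Lb.fp (nat_lit 3) t40)))))))))
noncomputable def l2327 : Lb := (@Lb.d (nat_lit 130) (nat_lit 2) (nat_lit 0) (@Lb.g g8 (@Lb.g g9 (@Lb.r r1303 (@Lb.r r162 (@Lb.r r145 (@Lb.r r2664 (@Lb.d (nat_lit 353) (nat_lit 132) (nat_lit 1) (@Lb.fm (nat_lit 3) t334)))))))))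
noncomputable def l2328 : Lb := (@Lb.d (nat_lit 22) (nat_lit 321) (nat_lit 40) (@Lb.r r2202 (@Lb.r r2452 (@Lb.r r667 (@Lb.r r337 (@Lb.g g7 (@Lb.g g6 (@Lb.g g4 (@Lb.d (nat_lit 4) (nat_lit 4) (nat_lit 133) (@Lb.t (@Lb.fp (nat_lit 9) t334)))))))))))
noncomputable def l2329 : Lb := (@Lb.d (nat_lit 130) (nat_lit 514) (nat_lit 0) (@Lb.g g8 (@Lb.g g9 (@Lb.r r1303 (@Lb.r r162 (@Lb.r r145 (@Lb.r r2664 (@Lb.d (nat_lit 358) (nat_lit 133) (nat_lit 1) (@Lb.fm (nat_lit 3) t334)))))))))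
noncomputable def l2330 : Lb := (@Lb.r r20 (@Lb.r r323 (@Lb.d (nat_lit 0) (nat_lit 321) (nat_lit 2) (@Lb.g g9 (@Lb.g g10 (@Lb.r r354 (@Lb.r r387 (@Lb.d (nat_lit 2) (nat_lit 96) (nat_lit 74) (@Lb.fm (nat_lit 3) t51)))))))))
noncomputable def l2331 : Lb := (@Lb.d (nat_lit 0) (nat_lit 1) (nat_lit 128) (@Lb.g g9 (@Lb.g g11 (@Lb.r r326 (@Lb.r r1419 (@Lb.r r40 (@Lb.r r2585 (@Lb.d (nat_lit 645) (nat_lit 138) (nat_lit 662) (@Lb.fp (nat_lit 3) t327)))))))))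
noncomputable def l2332 : Lb := (@Lb.g g5 (@Lb.g g7 (@Lb.r r24 (@Lb.r r101 (@Lb.r r402 (@Lb.r r1379 (@Lb.d (nat_lit 0) (nat_lit 130) (nat_lit 64) (@Lb.fp (nat_lit 3) t327))))))))
noncomputable def l2333 : Lb := (@Lb.d (nat_lit 129) (nat_lit 2) (nat_lit 4) (@Lb.g g8 (@Lb.g g9 (@Lb.g g10 (@Lb.g g11 (@Lb.r r1387 (@Lb.r r2442 (@Lb.r r97 (@Lb.r r1156 (@Lb.d (nat_lit 161) (nat_lit 33) (nat_lit 610) (@Lb.fp (nat_lit 9) t644)))))))))))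
noncomputable def l2334 : Lb := (@Lb.d (nat_lit 146) (nat_lit 514) (nat_lit 128) (@Lb.g g8 (@Lb.g g9 (@Lb.g g10 (@Lb.g g11 (@Lb.r r683 (@Lb.r r2406 (@Lb.r r1561 (@Lb.r r1540 (@Lb.d (nat_lit 533) (nat_lit 10) (nat_lit 273) (@Lb.fm (nat_lit 9) t531)))))))))))
noncomputable def l2335 : Lb := (@Lb.d (nat_lit 392) (nat_lit 400) (nat_lit 661) (@Lb.r r2321 (@Lb.r r2371 (@Lb.r r2662 (@Lb.g g7 (@Lb.g g5 (@Lb.g g8 (@Lb.d (nat_lit 330) (nat_lit 4) (nat_lit 64) (@Lb.r r98 (@Lb.t (@Lb.fm (nat_lit 9) t4)))))))))))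
noncomputable def l2336 : Lb := (@Lb.d (nat_lit 290) (nat_lit 0) (nat_lit 69) (@Lb.r r24 (@Lb.r r101 (@Lb.r r402 (@Lb.r r1379 (@Lb.g g6 (@Lb.g g4 (@Lb.fp (nat_lit 3) t327))))))))
noncomputable def l2337 : Lb := (@Lb.g g4 (@Lb.g g5 (@Lb.p (nat_lit 2) (@Lb.fm (nat_lit 3) t2))))
noncomputable def l2338 : Lb := (@Lb.d (nat_lit 0) (nat_lit 513) (nat_lit 128) (@Lb.g g9 (@Lb.g g11 (@Lb.r r326 (@Lb.r r1419 (@Lb.r r40 (@Lb.r r2585 (@Lb.d (nat_lit 648) (nat_lit 134) (nat_lit 661) (@Lb.fp (nat_lit 3) t760)))))))))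
noncomputable def l2339 : Lb := (@Lb.d (nat_lit 129) (nat_lit 2) (nat_lit 130) (@Lb.g g8 (@Lb.g g9 (@Lb.g g10 (@Lb.g g11 (@Lb.r r419 (@Lb.r r344 (@Lb.r r1429 (@Lb.r r1110 (@Lb.r r2212 (@Lb.d (nat_lit 37) (nat_lit 106) (nat_lit 673) (@Lb.fm (nat_lit 9) t238))))))))))))
noncomputable def l2340 : Lb := (@Lb.d (nat_lit 2) (nat_lit 521) (nat_lit 130) (@Lb.g g8 (@Lb.g g9 (@Lb.g g10 (@Lb.g g11 (@Lb.r r643 (@Lb.r r297 (@Lb.r r328 (@Lb.r r614 (@Lb.r r132 (@Lb.d (nat_lit 137) (nat_lit 26) (nat_lit 73) (@Lb.fm (nat_lit 9) t792))))))))))))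
noncomputable def l2341 : Lb := (@Lb.d (nat_lit 290) (nat_lit 0) (nat_lit 69) (@Lb.r r24 (@Lb.r r101 (@Lb.r r402 (@Lb.r r1379 (@Lb.g g7 (@Lb.g g6 (@Lb.g g4 (@Lb.t (@Lb.fm (nat_lit 9) t793))))))))))
noncomputable def l2342 : Lb := (@Lb.d (nat_lit 25) (nat_lit 9) (nat_lit 129) (@Lb.g g8 (@Lb.g g9 (@Lb.g g10 (@Lb.g g11 (@Lb.r r662 (@Lb.r r1561 (@Lb.r r2391 (@Lb.r r1700 (@Lb.d (nat_lit 22) (nat_lit 134) (nat_lit 586) (@Lb.fm (nat_lit 9) t794)))))))))))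
noncomputable def l2343 : Lb := (@Lb.r r323 (@Lb.d (nat_lit 0) (nat_lit 256) (nat_lit 1) (@Lb.g g8 (@Lb.g g6 (@Lb.r r387 (@Lb.d (nat_lit 10) (nat_lit 2) (nat_lit 2) (@Lb.fp (nat_lit 3) t2)))))))
noncomputable def l2344 : Lb := (@Lb.r r21 (@Lb.r r70 (@Lb.r r263 (@Lb.d (nat_lit 549) (nat_lit 512) (nat_lit 0) (@Lb.g g4 (@Lb.r r267 (@Lb.r r74 (@Lb.r r25 (@Lb.d (nat_lit 280) (nat_lit 0) (nat_lit 0) (@Lb.t (@Lb.fm (nat_lit 3) t363)))))))))))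
noncomputable def l2345 : Lb := (@Lb.r r21 (@Lb.r r70 (@Lb.r r263 (@Lb.g g8 (@Lb.r r267 (@Lb.r r74 (@Lb.r r25 (@Lb.d (nat_lit 6) (nat_lit 576) (nat_lit 0) (@Lb.t (@Lb.fp (nat_lit 3) t133))))))))))
noncomputable def l2346 : Lb := (@Lb.d (nat_lit 0) (nat_lit 516) (nat_lit 128) (@Lb.g g8 (@Lb.g g9 (@Lb.g g10 (@Lb.g g11 (@Lb.r r662 (@Lb.r r356 (@Lb.r r1323 (@Lb.r r1313 (@Lb.d (nat_lit 9) (nat_lit 66) (nat_lit 640) (@Lb.fp (nat_lit 9) t795)))))))))))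
noncomputable def l2347 : Lb := (@Lb.d (nat_lit 10) (nat_lit 257) (nat_lit 130) (@Lb.g g8 (@Lb.g g9 (@Lb.g g10 (@Lb.g g11 (@Lb.r r662 (@Lb.r r356 (@Lb.r r1323 (@Lb.r r1313 (@Lb.d (nat_lit 2) (nat_lit 130) (nat_lit 586) (@Lb.fp (nat_lit 9) t697)))))))))))
noncomputable def l2348 : Lb := (@Lb.r r21 (@Lb.r r70 (@Lb.r r263 (@Lb.g g8 (@Lb.r r267 (@Lb.r r74 (@Lb.r r25 (@Lb.d (nat_lit 5) (nat_lit 64) (nat_lit 0) (@Lb.t (@Lb.fp (nat_lit 3) t755))))))))))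
noncomputable def l2349 : Lb := (@Lb.r r273 (@Lb.r r322 (@Lb.d (nat_lit 65) (nat_lit 0) (nat_lit 0) (@Lb.g g8 (@Lb.g g11 (@Lb.r r357 (@Lb.r r146 (@Lb.r r516 (@Lb.d (nat_lit 33) (nat_lit 0) (nat_lit 144) (@Lb.fm (nat_lit 3) t573))))))))))
noncomputable def l2350 : Lb := (@Lb.r r263 (@Lb.d (nat_lit 128) (nat_lit 514) (nat_lit 2) (@Lb.g g8 (@Lb.g g9 (@Lb.g g10 (@Lb.r r675 (@Lb.r r1194 (@Lb.r r1113 (@Lb.r r2392 (@Lb.d (nat_lit 74) (nat_lit 89) (nat_lit 84) (@Lb.t (@Lb.fp (nat_lit 9) t211))))))))))))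
noncomputable def l2351 : Lb := (@Lb.d (nat_lit 2) (nat_lit 544) (nat_lit 130) (@Lb.g g8 (@Lb.g g10 (@Lb.g g11 (@Lb.r r602 (@Lb.r r600 (@Lb.r r293 (@Lb.r r2587 (@Lb.d (nat_lit 322) (nat_lit 105) (nat_lit 278) (@Lb.t (@Lb.fp (nat_lit 9) t71)))))))))))
noncomputable def l2352 : Lb := (@Lb.d (nat_lit 129) (nat_lit 514) (nat_lit 130) (@Lb.g g8 (@Lb.g g9 (@Lb.g g10 (@Lb.g g11 (@Lb.r r683 (@Lb.r r618 (@Lb.r r537 (@Lb.r r516 (@Lb.d (nat_lit 137) (nat_lit 9) (nat_lit 1) (@Lb.fm (nat_lit 9) t796)))))))))))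
noncomputable def l2353 : Lb := (@Lb.r r323 (@Lb.d (nat_lit 2) (nat_lit 34) (nat_lit 2) (@Lb.g g8 (@Lb.g g9 (@Lb.g g10 (@Lb.r r599 (@Lb.r r74 (@Lb.r r296 (@Lb.r r409 (@Lb.d (nat_lit 149) (nat_lit 33) (nat_lit 70) (@Lb.t (@Lb.fm (nat_lit 9) t119))))))))))))
noncomputable def l2354 : Lb := (@Lb.d (nat_lit 2) (nat_lit 258) (nat_lit 130) (@Lb.g g8 (@Lb.g g9 (@Lb.g g10 (@Lb.g g11 (@Lb.r r427 (@Lb.r r297 (@Lb.r r104 (@Lb.r r70 (@Lb.r r132 (@Lb.d (nat_lit 2) (nat_lit 137) (nat_lit 329) (@Lb.fp (nat_lit 9) t119))))))))))))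
noncomputable def l2355 : Lb := (@Lb.d (nat_lit 0) (nat_lit 32) (nat_lit 130) (@Lb.g g8 (@Lb.g g10 (@Lb.g g11 (@Lb.r r618 (@Lb.r r149 (@Lb.r r340 (@Lb.r r2587 (@Lb.d (nat_lit 322) (nat_lit 130) (nat_lit 256) (@Lb.t (@Lb.fp (nat_lit 9) t71)))))))))))
noncomputable def l2356 : Lb := (@Lb.d (nat_lit 2) (nat_lit 258) (nat_lit 130) (@Lb.g g8 (@Lb.g g9 (@Lb.g g10 (@Lb.g g11 (@Lb.r r427 (@Lb.r r145 (@Lb.r r356 (@Lb.r r154 (@Lb.r r132 (@Lb.d (nat_lit 9) (nat_lit 2) (nat_lit 73) (@Lb.fm (nat_lit 9) t797))))))))))))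
noncomputable def l2357 : Lb := (@Lb.d (nat_lit 2) (nat_lit 2) (nat_lit 130) (@Lb.g g8 (@Lb.g g9 (@Lb.g g10 (@Lb.g g11 (@Lb.r r427 (@Lb.r r297 (@Lb.r r104 (@Lb.r r70 (@Lb.r r132 (@Lb.d (nat_lit 2) (nat_lit 21) (nat_lit 70) (@Lb.fp (nat_lit 9) t119))))))))))))
noncomputable def l2358 : Lb := (@Lb.d (nat_lit 2) (nat_lit 4) (nat_lit 128) (@Lb.g g8 (@Lb.g g9 (@Lb.g g10 (@Lb.g g11 (@Lb.r r2443 (@Lb.r r533 (@Lb.r r2468 (@Lb.r r2438 (@Lb.d (nat_lit 617) (nat_lit 73) (nat_lit 664) (@Lb.fm (nat_lit 9) t375)))))))))))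
noncomputable def l2359 : Lb := (@Lb.d (nat_lit 2) (nat_lit 258) (nat_lit 2) (@Lb.g g8 (@Lb.g g9 (@Lb.g g10 (@Lb.g g11 (@Lb.r r2411 (@Lb.r r386 (@Lb.r r97 (@Lb.r r24 (@Lb.d (nat_lit 266) (nat_lit 9) (nat_lit 100) (@Lb.fm (nat_lit 9) t221)))))))))))
noncomputable def l2360 : Lb := (@Lb.d (nat_lit 128) (nat_lit 528) (nat_lit 386) (@Lb.g g10 (@Lb.g g11 (@Lb.r r2709 (@Lb.r r2646 (@Lb.r r1416 (@Lb.d (nat_lit 522) (nat_lit 1) (nat_lit 130) (@Lb.fp (nat_lit 3) t441))))))))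
noncomputable def l2361 : Lb := (@Lb.d (nat_lit 148) (nat_lit 645) (nat_lit 362) (@Lb.r r1610 (@Lb.r r2667 (@Lb.r r661 (@Lb.g g7 (@Lb.g g6 (@Lb.g g8 (@Lb.d (nat_lit 354) (nat_lit 4) (nat_lit 64) (@Lb.r r25 (@Lb.t (@Lb.fp (nat_lit 9) t329)))))))))))
noncomputable def l2362 : Lb := (@Lb.d (nat_lit 0) (nat_lit 32) (nat_lit 130) (@Lb.g g8 (@Lb.g g10 (@Lb.g g11 (@Lb.r r618 (@Lb.r r149 (@Lb.r r340 (@Lb.r r2587 (@Lb.d (nat_lit 329) (nat_lit 73) (nat_lit 386) (@Lb.t (@Lb.fp (nat_lit 9) t71)))))))))))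
noncomputable def l2363 : Lb := (@Lb.d (nat_lit 0) (nat_lit 256) (nat_lit 66) (@Lb.g g10 (@Lb.g g11 (@Lb.r r2401 (@Lb.r r2387 (@Lb.r r386 (@Lb.r r1124 (@Lb.d (nat_lit 0) (nat_lit 166) (nat_lit 353) (@Lb.fm (nat_lit 3) t798)))))))))
noncomputable def l2364 : Lb := (@Lb.d (nat_lit 5) (nat_lit 576) (nat_lit 0) (@Lb.fp (nat_lit 1) t2))
noncomputable def l2365 : Lb := (@Lb.d (nat_lit 2) (nat_lit 514) (nat_lit 66) (@Lb.g g8 (@Lb.g g9 (@Lb.g g10 (@Lb.g g7 (@Lb.r r386 (@Lb.r r25 (@Lb.d (nat_lit 9) (nat_lit 0) (nat_lit 9) (@Lb.fp (nat_lit 9) t2)))))))))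
noncomputable def l2366 : Lb := (@Lb.d (nat_lit 146) (nat_lit 132) (nat_lit 362) (@Lb.r r1610 (@Lb.r r2667 (@Lb.r r661 (@Lb.g g7 (@Lb.g g6 (@Lb.g g8 (@Lb.d (nat_lit 354) (nat_lit 4) (nat_lit 64) (@Lb.r r25 (@Lb.t (@Lb.fp (nat_lit 9) t329)))))))))))
noncomputable def l2367 : Lb := (@Lb.d (nat_lit 130) (nat_lit 513) (nat_lit 130) (@Lb.g g8 (@Lb.g g9 (@Lb.g g10 (@Lb.g g11 (@Lb.r r610 (@Lb.r r2084 (@Lb.r r613 (@Lb.r r2663 (@Lb.d (nat_lit 388) (nat_lit 89) (nat_lit 594) (@Lb.fp (nat_lit 9) t329)))))))))))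
noncomputable def l2368 : Lb := (@Lb.r r70 (@Lb.r r263 (@Lb.g g8 (@Lb.g g5 (@Lb.r r1317 (@Lb.r r1563 (@Lb.r r1668 (@Lb.r r2182 (@Lb.p (nat_lit 2) (@Lb.fm (nat_lit 3) t329))))))))))
noncomputable def l2369 : Lb := (@Lb.d (nat_lit 0) (nat_lit 64) (nat_lit 0) (@Lb.r r82 (@Lb.r r275 (@Lb.g g9 (@Lb.g g4 (@Lb.d (nat_lit 0) (nat_lit 2) (nat_lit 0) (@Lb.r r291 (@Lb.r r98 (@Lb.fp (nat_lit 3) t5)))))))))
noncomputable def l2370 : Lb := (@Lb.r r263 (@Lb.d (nat_lit 130) (nat_lit 258) (nat_lit 2) (@Lb.g g8 (@Lb.g g9 (@Lb.g g10 (@Lb.r r675 (@Lb.r r1194 (@Lb.r r1113 (@Lb.r r2392 (@Lb.d (nat_lit 69) (nat_lit 88) (nat_lit 84) (@Lb.t (@Lb.fp (nat_lit 9) t799))))))))))))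
noncomputable def l2371 : Lb := (@Lb.d (nat_lit 100) (nat_lit 133) (nat_lit 662) (@Lb.r r1297 (@Lb.r r611 (@Lb.r r545 (@Lb.r r2214 (@Lb.g g7 (@Lb.g g6 (@Lb.g g5 (@Lb.g g8 (@Lb.d (nat_lit 330) (nat_lit 0) (nat_lit 65) (@Lb.fp (nat_lit 9) t800)))))))))))
noncomputable def l2372 : Lb := (@Lb.r r21 (@Lb.d (nat_lit 32) (nat_lit 512) (nat_lit 130) (@Lb.g g8 (@Lb.g g10 (@Lb.g g11 (@Lb.r r2331 (@Lb.r r1366 (@Lb.r r97 (@Lb.r r2388 (@Lb.d (nat_lit 593) (nat_lit 69) (nat_lit 362) (@Lb.t (@Lb.fp (nat_lit 9) t539))))))))))))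
noncomputable def l2373 : Lb := (@Lb.d (nat_lit 136) (nat_lit 258) (nat_lit 130) (@Lb.g g9 (@Lb.g g10 (@Lb.g g11 (@Lb.r r618 (@Lb.r r24 (@Lb.r r405 (@Lb.r r2663 (@Lb.d (nat_lit 516) (nat_lit 89) (nat_lit 594) (@Lb.t (@Lb.fm (nat_lit 9) t312)))))))))))
noncomputable def l2374 : Lb := (@Lb.r r273 (@Lb.r r322 (@Lb.d (nat_lit 64) (nat_lit 512) (nat_lit 0) (@Lb.g g8 (@Lb.g g11 (@Lb.r r357 (@Lb.r r146 (@Lb.r r516 (@Lb.d (nat_lit 32) (nat_lit 0) (nat_lit 144) (@Lb.fm (nat_lit 3) t540))))))))))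
noncomputable def l2375 : Lb := (@Lb.d (nat_lit 129) (nat_lit 514) (nat_lit 66) (@Lb.g g8 (@Lb.g g9 (@Lb.g g10 (@Lb.g g11 (@Lb.r r2323 (@Lb.r r2217 (@Lb.r r98 (@Lb.r r392 (@Lb.d (nat_lit 362) (nat_lit 10) (nat_lit 345) (@Lb.fp (nat_lit 9) t799)))))))))))
noncomputable def l2376 : Lb := (@Lb.d (nat_lit 518) (nat_lit 577) (nat_lit 0) (@Lb.r r24 (@Lb.r r2138 (@Lb.r r2331 (@Lb.g g5 (@Lb.d (nat_lit 4) (nat_lit 1) (nat_lit 0) (@Lb.t (@Lb.fp (nat_lit 3) t116))))))))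
noncomputable def l2377 : Lb := (@Lb.d (nat_lit 1) (nat_lit 264) (nat_lit 130) (@Lb.g g8 (@Lb.g g10 (@Lb.g g11 (@Lb.r r353 (@Lb.r r667 (@Lb.r r644 (@Lb.r r134 (@Lb.d (nat_lit 41) (nat_lit 134) (nat_lit 132) (@Lb.t (@Lb.fp (nat_lit 9) t45)))))))))))
noncomputable def l2378 : Lb := (@Lb.d (nat_lit 17) (nat_lit 321) (nat_lit 33) (@Lb.r r24 (@Lb.r r2201 (@Lb.r r386 (@Lb.r r2411 (@Lb.g g7 (@Lb.g g5 (@Lb.d (nat_lit 0) (nat_lit 32) (nat_lit 0) (@Lb.r r98 (@Lb.fm (nat_lit 3) t801))))))))))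
noncomputable def l2379 : Lb := (@Lb.d (nat_lit 42) (nat_lit 424) (nat_lit 328) (@Lb.r r169 (@Lb.r r1642 (@Lb.r r1623 (@Lb.g g6 (@Lb.g g5 (@Lb.g g4 (@Lb.d (nat_lit 1) (nat_lit 17) (nat_lit 1) (@Lb.t (@Lb.fp (nat_lit 9) t41))))))))))
noncomputable def l2380 : Lb := (@Lb.r r322 (@Lb.d (nat_lit 34) (nat_lit 2) (nat_lit 576) (@Lb.g g8 (@Lb.g g9 (@Lb.g g7 (@Lb.r r361 (@Lb.r r150 (@Lb.r r104 (@Lb.d (nat_lit 358) (nat_lit 10) (nat_lit 9) (@Lb.t (@Lb.fm (nat_lit 9) t242)))))))))))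
noncomputable def l2381 : Lb := (@Lb.d (nat_lit 2) (nat_lit 528) (nat_lit 585) (@Lb.g g8 (@Lb.g g9 (@Lb.g g10 (@Lb.g g7 (@Lb.r r386 (@Lb.r r1121 (@Lb.r r24 (@Lb.d (nat_lit 10) (nat_lit 137) (nat_lit 25) (@Lb.fp (nat_lit 9) t41))))))))))
noncomputable def l2382 : Lb := (@Lb.d (nat_lit 6) (nat_lit 516) (nat_lit 165) (@Lb.r r289 (@Lb.r r279 (@Lb.r r584 (@Lb.r r326 (@Lb.g g7 (@Lb.g g6 (@Lb.g g5 (@Lb.d (nat_lit 4) (nat_lit 1) (nat_lit 65) (@Lb.t (@Lb.fp (nat_lit 9) t68)))))))))))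
noncomputable def l2383 : Lb := (@Lb.d (nat_lit 2) (nat_lit 258) (nat_lit 2) (@Lb.g g8 (@Lb.g g9 (@Lb.g g10 (@Lb.g g11 (@Lb.r r1706 (@Lb.r r676 (@Lb.r r551 (@Lb.r r1557 (@Lb.r r1060 (@Lb.d (nat_lit 649) (nat_lit 65) (nat_lit 330) (@Lb.fp (nat_lit 9) t284))))))))))))
noncomputable def l2384 : Lb := (@Lb.d (nat_lit 128) (nat_lit 264) (nat_lit 66) (@Lb.g g10 (@Lb.g g11 (@Lb.r r264 (@Lb.r r519 (@Lb.r r101 (@Lb.r r154 (@Lb.d (nat_lit 392) (nat_lit 9) (nat_lit 38) (@Lb.fm (nat_lit 3) t127)))))))))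
noncomputable def l2385 : Lb := (@Lb.d (nat_lit 2) (nat_lit 2) (nat_lit 130) (@Lb.g g8 (@Lb.g g9 (@Lb.g g10 (@Lb.g g11 (@Lb.r r2411 (@Lb.r r386 (@Lb.r r97 (@Lb.r r24 (@Lb.d (nat_lit 536) (nat_lit 4) (nat_lit 70) (@Lb.fm (nat_lit 9) t61)))))))))))
noncomputable def l2386 : Lb := (@Lb.d (nat_lit 1) (nat_lit 258) (nat_lit 130) (@Lb.g g8 (@Lb.g g9 (@Lb.g g10 (@Lb.g g11 (@Lb.r r2411 (@Lb.r r386 (@Lb.r r97 (@Lb.r r24 (@Lb.d (nat_lit 534) (nat_lit 8) (nat_lit 68) (@Lb.fm (nat_lit 9) t61)))))))))))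
noncomputable def l2387 : Lb := (@Lb.r r21 (@Lb.d (nat_lit 2) (nat_lit 512) (nat_lit 130) (@Lb.g g8 (@Lb.g g10 (@Lb.g g11 (@Lb.r r2379 (@Lb.r r386 (@Lb.r r145 (@Lb.r r72 (@Lb.d (nat_lit 512) (nat_lit 5) (nat_lit 69) (@Lb.t (@Lb.fm (nat_lit 9) t61))))))))))))
noncomputable def l2388 : Lb := (@Lb.d (nat_lit 5) (nat_lit 292) (nat_lit 133) (@Lb.g g4 (@Lb.g g9 (@Lb.g g10 (@Lb.g g11 (@Lb.r r679 (@Lb.r r1366 (@Lb.r r613 (@Lb.d (nat_lit 274) (nat_lit 152) (nat_lit 138) (@Lb.fm (nat_lit 9) t50))))))))))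
noncomputable def l2389 : Lb := (@Lb.d (nat_lit 10) (nat_lit 0) (nat_lit 128) (@Lb.g g8 (@Lb.g g10 (@Lb.g g11 (@Lb.r r353 (@Lb.r r407 (@Lb.r r612 (@Lb.r r154 (@Lb.d (nat_lit 265) (nat_lit 2) (nat_lit 38) (@Lb.t (@Lb.fm (nat_lit 9) t425)))))))))))
noncomputable def l2390 : Lb := (@Lb.d (nat_lit 682) (nat_lit 392) (nat_lit 618) (@Lb.r r2650 (@Lb.r r1352 (@Lb.r r2711 (@Lb.r r361 (@Lb.g g7 (@Lb.g g6 (@Lb.d (nat_lit 16) (nat_lit 4) (nat_lit 65) (@Lb.fp (nat_lit 3) t428)))))))))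
noncomputable def l2391 : Lb := (@Lb.d (nat_lit 2) (nat_lit 516) (nat_lit 128) (@Lb.g g8 (@Lb.g g9 (@Lb.g g10 (@Lb.g g11 (@Lb.r r427 (@Lb.r r388 (@Lb.r r70 (@Lb.r r153 (@Lb.r r132 (@Lb.d (nat_lit 9) (nat_lit 130) (nat_lit 137) (@Lb.fp (nat_lit 9) t337))))))))))))
noncomputable def l2392 : Lb := (@Lb.d (nat_lit 0) (nat_lit 257) (nat_lit 128) (@Lb.g g8 (@Lb.g g9 (@Lb.g g10 (@Lb.g g11 (@Lb.r r1379 (@Lb.r r1414 (@Lb.r r2660 (@Lb.r r2581 (@Lb.d (nat_lit 385) (nat_lit 16) (nat_lit 576) (@Lb.fm (nat_lit 9) t331)))))))))))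
noncomputable def l2393 : Lb := (@Lb.d (nat_lit 100) (nat_lit 660) (nat_lit 577) (@Lb.r r2709 (@Lb.r r1448 (@Lb.r r418 (@Lb.r r1427 (@Lb.g g7 (@Lb.g g6 (@Lb.g g5 (@Lb.d (nat_lit 0) (nat_lit 4) (nat_lit 65) (@Lb.t (@Lb.fp (nat_lit 9) t802)))))))))))
noncomputable def l2394 : Lb := (@Lb.d (nat_lit 298) (nat_lit 582) (nat_lit 1) (@Lb.r r101 (@Lb.r r24 (@Lb.r r1414 (@Lb.r r2395 (@Lb.g g7 (@Lb.g g6 (@Lb.g g5 (@Lb.d (nat_lit 4) (nat_lit 1) (nat_lit 64) (@Lb.t (@Lb.fm (nat_lit 9) t208)))))))))))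
noncomputable def l2395 : Lb := (@Lb.d (nat_lit 520) (nat_lit 593) (nat_lit 512) (@Lb.r r281 (@Lb.r r404 (@Lb.r r614 (@Lb.r r2643 (@Lb.g g7 (@Lb.g g5 (@Lb.d (nat_lit 0) (nat_lit 18) (nat_lit 128) (@Lb.r r98 (@Lb.fp (nat_lit 3) t803))))))))))
noncomputable def l2396 : Lb := (@Lb.d (nat_lit 24) (nat_lit 66) (nat_lit 161) (@Lb.r r24 (@Lb.r r1105 (@Lb.r r422 (@Lb.g g11 (@Lb.g g5 (@Lb.d (nat_lit 0) (nat_lit 17) (nat_lit 264) (@Lb.r r578 (@Lb.fp (nat_lit 3) t495)))))))))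
noncomputable def l2397 : Lb := (@Lb.d (nat_lit 602) (nat_lit 326) (nat_lit 424) (@Lb.r r2725 (@Lb.r r1432 (@Lb.r r1414 (@Lb.r r2455 (@Lb.g g7 (@Lb.g g6 (@Lb.g g5 (@Lb.d (nat_lit 4) (nat_lit 1) (nat_lit 64) (@Lb.t (@Lb.fm (nat_lit 9) t804)))))))))))
noncomputable def l2398 : Lb := (@Lb.d (nat_lit 105) (nat_lit 546) (nat_lit 4) (@Lb.g g8 (@Lb.g g9 (@Lb.g g10 (@Lb.g g11 (@Lb.r r343 (@Lb.r r2390 (@Lb.r r1365 (@Lb.r r276 (@Lb.d (nat_lit 672) (nat_lit 169) (nat_lit 533) (@Lb.fp (nat_lit 9) t805)))))))))))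
noncomputable def l2399 : Lb := (@Lb.d (nat_lit 548) (nat_lit 512) (nat_lit 0) (@Lb.r r21 (@Lb.r r70 (@Lb.r r263 (@Lb.g g8 (@Lb.d (nat_lit 282) (nat_lit 0) (nat_lit 0) (@Lb.r r267 (@Lb.r r74 (@Lb.r r25 (@Lb.t (@Lb.fp (nat_lit 3) t806)))))))))))
noncomputable def l2400 : Lb := (@Lb.d (nat_lit 0) (nat_lit 70) (nat_lit 33) (@Lb.r r1379 (@Lb.g g6 (@Lb.d (nat_lit 0) (nat_lit 4) (nat_lit 1) (@Lb.t (@Lb.fm (nat_lit 3) t356))))))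
noncomputable def l2401 : Lb := (@Lb.r r402 (@Lb.r r101 (@Lb.r r24 (@Lb.d (nat_lit 529) (nat_lit 266) (nat_lit 530) (@Lb.fm (nat_lit 1) t505)))))
noncomputable def l2402 : Lb := (@Lb.d (nat_lit 10) (nat_lit 394) (nat_lit 17) (@Lb.r r97 (@Lb.r r1106 (@Lb.r r1299 (@Lb.g g5 (@Lb.d (nat_lit 0) (nat_lit 1) (nat_lit 0) (@Lb.t (@Lb.fp (nat_lit 3) t216))))))))
noncomputable def l2403 : Lb := (@Lb.d (nat_lit 0) (nat_lit 600) (nat_lit 521) (@Lb.fp (nat_lit 1) t633))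
noncomputable def l2404 : Lb := (@Lb.d (nat_lit 2) (nat_lit 514) (nat_lit 130) (@Lb.g g8 (@Lb.g g9 (@Lb.g g10 (@Lb.g g11 (@Lb.r r520 (@Lb.r r2651 (@Lb.r r386 (@Lb.r r97 (@Lb.r r2084 (@Lb.d (nat_lit 657) (nat_lit 73) (nat_lit 100) (@Lb.fp (nat_lit 9) t386))))))))))))
noncomputable def l2405 : Lb := (@Lb.d (nat_lit 2) (nat_lit 256) (nat_lit 130) (@Lb.g g8 (@Lb.g g9 (@Lb.g g10 (@Lb.g g11 (@Lb.r r548 (@Lb.r r295 (@Lb.r r357 (@Lb.r r666 (@Lb.r r644 (@Lb.d (nat_lit 9) (nat_lit 1) (nat_lit 128) (@Lb.fp (nat_lit 9) t2))))))))))))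
noncomputable def l2406 : Lb := (@Lb.d (nat_lit 149) (nat_lit 2) (nat_lit 70) (@Lb.r r584 (@Lb.r r406 (@Lb.r r617 (@Lb.r r299 (@Lb.g g6 (@Lb.g g5 (@Lb.g g4 (@Lb.d (nat_lit 65) (nat_lit 0) (nat_lit 6) (@Lb.t (@Lb.fm (nat_lit 9) t2)))))))))))
noncomputable def l2407 : Lb := (@Lb.d (nat_lit 1) (nat_lit 8) (nat_lit 130) (@Lb.g g8 (@Lb.g g10 (@Lb.g g11 (@Lb.r r353 (@Lb.r r667 (@Lb.r r664 (@Lb.r r154 (@Lb.d (nat_lit 25) (nat_lit 9) (nat_lit 70) (@Lb.t (@Lb.fm (nat_lit 9) t2)))))))))))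
noncomputable def l2408 : Lb := (@Lb.d (nat_lit 10) (nat_lit 8) (nat_lit 130) (@Lb.g g8 (@Lb.g g10 (@Lb.g g11 (@Lb.r r353 (@Lb.r r407 (@Lb.r r612 (@Lb.r r154 (@Lb.d (nat_lit 25) (nat_lit 9) (nat_lit 5) (@Lb.t (@Lb.fm (nat_lit 9) t2)))))))))))
noncomputable def l2409 : Lb := (@Lb.d (nat_lit 1) (nat_lit 2) (nat_lit 68) (@Lb.g g8 (@Lb.g g9 (@Lb.g g10 (@Lb.g g11 (@Lb.r r427 (@Lb.r r356 (@Lb.r r154 (@Lb.r r21 (@Lb.r r36 (@Lb.d (nat_lit 33) (nat_lit 5) (nat_lit 154) (@Lb.fm (nat_lit 9) t221))))))))))))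
noncomputable def l2410 : Lb := (@Lb.d (nat_lit 38) (nat_lit 260) (nat_lit 74) (@Lb.g g8 (@Lb.g g9 (@Lb.g g10 (@Lb.g g11 (@Lb.r r1435 (@Lb.r r2201 (@Lb.r r1618 (@Lb.r r2180 (@Lb.d (nat_lit 537) (nat_lit 101) (nat_lit 72) (@Lb.fp (nat_lit 9) t86)))))))))))
noncomputable def l2411 : Lb := (@Lb.r r323 (@Lb.d (nat_lit 4) (nat_lit 546) (nat_lit 2) (@Lb.g g8 (@Lb.g g9 (@Lb.g g10 (@Lb.r r2647 (@Lb.r r74 (@Lb.r r1320 (@Lb.r r1433 (@Lb.d (nat_lit 661) (nat_lit 150) (nat_lit 617) (@Lb.t (@Lb.fm (nat_lit 9) t119))))))))))))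
noncomputable def l2412 : Lb := (@Lb.d (nat_lit 33) (nat_lit 6) (nat_lit 74) (@Lb.g g8 (@Lb.g g9 (@Lb.g g10 (@Lb.g g11 (@Lb.r r1435 (@Lb.r r2201 (@Lb.r r1618 (@Lb.r r2180 (@Lb.d (nat_lit 536) (nat_lit 101) (nat_lit 72) (@Lb.fp (nat_lit 9) t123)))))))))))
noncomputable def l2413 : Lb := (@Lb.d (nat_lit 2) (nat_lit 34) (nat_lit 0) (@Lb.g g8 (@Lb.g g9 (@Lb.r r356 (@Lb.r r1307 (@Lb.r r2178 (@Lb.r r1573 (@Lb.d (nat_lit 666) (nat_lit 153) (nat_lit 586) (@Lb.fm (nat_lit 3) t229)))))))))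
noncomputable def l2414 : Lb := (@Lb.d (nat_lit 2) (nat_lit 514) (nat_lit 130) (@Lb.g g8 (@Lb.g g9 (@Lb.g g10 (@Lb.g g11 (@Lb.r r2691 (@Lb.r r2665 (@Lb.r r1686 (@Lb.r r1096 (@Lb.d (nat_lit 677) (nat_lit 161) (nat_lit 89) (@Lb.fp (nat_lit 9) t807)))))))))))
noncomputable def l2415 : Lb := (@Lb.r r21 (@Lb.r r323 (@Lb.g g4 (@Lb.g g10 (@Lb.r r427 (@Lb.r r1128 (@Lb.r r1622 (@Lb.r r145 (@Lb.d (nat_lit 0) (nat_lit 521) (nat_lit 2) (@Lb.fm (nat_lit 3) t808))))))))))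
noncomputable def l2416 : Lb := (@Lb.d (nat_lit 128) (nat_lit 32) (nat_lit 64) (@Lb.g g11 (@Lb.r r356 (@Lb.r r2405 (@Lb.r r2650 (@Lb.r r1627 (@Lb.d (nat_lit 170) (nat_lit 104) (nat_lit 586) (@Lb.t (@Lb.fp (nat_lit 3) t322)))))))))
noncomputable def l2417 : Lb := (@Lb.r r21 (@Lb.d (nat_lit 656) (nat_lit 0) (nat_lit 64) (@Lb.g g4 (@Lb.g g11 (@Lb.r r519 (@Lb.r r25 (@Lb.d (nat_lit 418) (nat_lit 0) (nat_lit 133) (@Lb.fm (nat_lit 3) t148))))))))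
noncomputable def l2418 : Lb := (@Lb.d (nat_lit 128) (nat_lit 32) (nat_lit 136) (@Lb.g g11 (@Lb.r r420 (@Lb.r r2469 (@Lb.r r1446 (@Lb.r r347 (@Lb.d (nat_lit 296) (nat_lit 24) (nat_lit 678) (@Lb.t (@Lb.fp (nat_lit 3) t322)))))))))
noncomputable def l2419 : Lb := (@Lb.r r70 (@Lb.d (nat_lit 132) (nat_lit 2) (nat_lit 64) (@Lb.g g8 (@Lb.g g9 (@Lb.g g11 (@Lb.r r1307 (@Lb.r r2073 (@Lb.r r660 (@Lb.r r2182 (@Lb.d (nat_lit 5) (nat_lit 169) (nat_lit 73) (@Lb.t (@Lb.fp (nat_lit 9) t86))))))))))))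
noncomputable def l2420 : Lb := (@Lb.d (nat_lit 2) (nat_lit 33) (nat_lit 66) (@Lb.g g8 (@Lb.g g9 (@Lb.g g10 (@Lb.g g11 (@Lb.r r2714 (@Lb.r r1443 (@Lb.r r2201 (@Lb.d (nat_lit 613) (nat_lit 2) (nat_lit 161) (@Lb.fm (nat_lit 9) t809))))))))))
noncomputable def l2421 : Lb := (@Lb.d (nat_lit 145) (nat_lit 258) (nat_lit 130) (@Lb.g g8 (@Lb.g g9 (@Lb.g g10 (@Lb.g g11 (@Lb.r r2731 (@Lb.r r1386 (@Lb.r r1561 (@Lb.r r1540 (@Lb.d (nat_lit 393) (nat_lit 25) (nat_lit 421) (@Lb.fm (nat_lit 9) t764)))))))))))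
noncomputable def l2422 : Lb := (@Lb.d (nat_lit 2) (nat_lit 2) (nat_lit 130) (@Lb.g g8 (@Lb.g g9 (@Lb.g g10 (@Lb.g g11 (@Lb.r r1367 (@Lb.r r1366 (@Lb.r r97 (@Lb.r r24 (@Lb.d (nat_lit 617) (nat_lit 9) (nat_lit 601) (@Lb.fp (nat_lit 9) t277)))))))))))
noncomputable def l2423 : Lb := (@Lb.d (nat_lit 6) (nat_lit 672) (nat_lit 384) (@Lb.r r21 (@Lb.r r579 (@Lb.r r2454 (@Lb.g g7 (@Lb.g g5 (@Lb.g g4 (@Lb.d (nat_lit 529) (nat_lit 1) (nat_lit 0) (@Lb.r r74 (@Lb.t (@Lb.fp (nat_lit 9) t42)))))))))))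
noncomputable def l2424 : Lb := (@Lb.r r323 (@Lb.d (nat_lit 2) (nat_lit 2) (nat_lit 1) (@Lb.g g8 (@Lb.g g9 (@Lb.g g6 (@Lb.r r579 (@Lb.r r97 (@Lb.r r24 (@Lb.d (nat_lit 536) (nat_lit 9) (nat_lit 38) (@Lb.t (@Lb.fm (nat_lit 9) t40)))))))))))
noncomputable def l2425 : Lb := (@Lb.r r2451 (@Lb.r r1186 (@Lb.r r2209 (@Lb.r r2196 (@Lb.d (nat_lit 0) (nat_lit 650) (nat_lit 18) (@Lb.fp (nat_lit 1) t810))))))
noncomputable def l2426 : Lb := (@Lb.d (nat_lit 2) (nat_lit 258) (nat_lit 130) (@Lb.g g8 (@Lb.g g9 (@Lb.g g10 (@Lb.g g11 (@Lb.r r2691 (@Lb.r r2665 (@Lb.r r1686 (@Lb.r r1096 (@Lb.d (nat_lit 674) (nat_lit 160) (nat_lit 89) (@Lb.fp (nat_lit 9) t476)))))))))))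
noncomputable def l2427 : Lb := (@Lb.d (nat_lit 2) (nat_lit 514) (nat_lit 73) (@Lb.g g8 (@Lb.g g9 (@Lb.g g10 (@Lb.g g11 (@Lb.r r2691 (@Lb.r r2665 (@Lb.r r1686 (@Lb.r r1096 (@Lb.d (nat_lit 674) (nat_lit 160) (nat_lit 89) (@Lb.fp (nat_lit 9) t476)))))))))))
noncomputable def l2428 : Lb := (@Lb.d (nat_lit 2) (nat_lit 258) (nat_lit 130) (@Lb.g g8 (@Lb.g g9 (@Lb.g g10 (@Lb.g g11 (@Lb.r r1367 (@Lb.r r1366 (@Lb.r r97 (@Lb.r r24 (@Lb.d (nat_lit 616) (nat_lit 9) (nat_lit 601) (@Lb.fp (nat_lit 9) t592)))))))))))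
noncomputable def l2429 : Lb := (@Lb.d (nat_lit 2) (nat_lit 2) (nat_lit 130) (@Lb.g g8 (@Lb.g g9 (@Lb.g g10 (@Lb.g g11 (@Lb.r r2691 (@Lb.r r2665 (@Lb.r r1686 (@Lb.r r1096 (@Lb.d (nat_lit 676) (nat_lit 161) (nat_lit 89) (@Lb.fp (nat_lit 9) t476)))))))))))
noncomputable def l2430 : Lb := (@Lb.d (nat_lit 582) (nat_lit 256) (nat_lit 73) (@Lb.r r549 (@Lb.r r344 (@Lb.r r2727 (@Lb.g g10 (@Lb.g g5 (@Lb.d (nat_lit 32) (nat_lit 5) (nat_lit 18) (@Lb.r r403 (@Lb.fm (nat_lit 3) t795)))))))))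
noncomputable def l2431 : Lb := (@Lb.d (nat_lit 6) (nat_lit 4) (nat_lit 96) (@Lb.r r289 (@Lb.r r279 (@Lb.r r584 (@Lb.r r326 (@Lb.g g7 (@Lb.g g6 (@Lb.g g5 (@Lb.d (nat_lit 4) (nat_lit 1) (nat_lit 65) (@Lb.t (@Lb.fp (nat_lit 9) t68)))))))))))
noncomputable def l2432 : Lb := (@Lb.r r21 (@Lb.r r70 (@Lb.d (nat_lit 129) (nat_lit 512) (nat_lit 136) (@Lb.g g8 (@Lb.g g11 (@Lb.r r1414 (@Lb.r r1365 (@Lb.r r2696 (@Lb.d (nat_lit 673) (nat_lit 0) (nat_lit 336) (@Lb.fm (nat_lit 3) t164))))))))))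
noncomputable def l2433 : Lb := (@Lb.d (nat_lit 2) (nat_lit 272) (nat_lit 2) (@Lb.g g8 (@Lb.g g9 (@Lb.g g10 (@Lb.g g11 (@Lb.r r2391 (@Lb.r r386 (@Lb.r r2133 (@Lb.r r24 (@Lb.d (nat_lit 545) (nat_lit 73) (nat_lit 361) (@Lb.fp (nat_lit 9) t811)))))))))))
noncomputable def l2434 : Lb := (@Lb.d (nat_lit 577) (nat_lit 160) (nat_lit 586) (@Lb.r r1305 (@Lb.r r1428 (@Lb.r r2390 (@Lb.r r611 (@Lb.g g7 (@Lb.g g6 (@Lb.g g5 (@Lb.d (nat_lit 0) (nat_lit 4) (nat_lit 134) (@Lb.t (@Lb.fm (nat_lit 9) t795)))))))))))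
noncomputable def l2435 : Lb := (@Lb.r r21 (@Lb.d (nat_lit 144) (nat_lit 512) (nat_lit 128) (@Lb.g g8 (@Lb.g g10 (@Lb.g g11 (@Lb.r r387 (@Lb.r r2122 (@Lb.r r601 (@Lb.r r580 (@Lb.d (nat_lit 641) (nat_lit 5) (nat_lit 168) (@Lb.t (@Lb.fm (nat_lit 9) t812))))))))))))
noncomputable def l2436 : Lb := (@Lb.d (nat_lit 2) (nat_lit 38) (nat_lit 128) (@Lb.g g8 (@Lb.g g9 (@Lb.g g10 (@Lb.g g11 (@Lb.r r1706 (@Lb.r r1704 (@Lb.r r1579 (@Lb.r r1561 (@Lb.d (nat_lit 586) (nat_lit 33) (nat_lit 586) (@Lb.fm (nat_lit 9) t125)))))))))))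
noncomputable def l2437 : Lb := (@Lb.d (nat_lit 2) (nat_lit 265) (nat_lit 130) (@Lb.g g8 (@Lb.g g9 (@Lb.g g10 (@Lb.g g11 (@Lb.r r1706 (@Lb.r r648 (@Lb.r r2587 (@Lb.r r1313 (@Lb.r r36 (@Lb.d (nat_lit 129) (nat_lit 169) (nat_lit 322) (@Lb.fp (nat_lit 9) t98))))))))))))
noncomputable def l2438 : Lb := (@Lb.d (nat_lit 6) (nat_lit 326) (nat_lit 1) (@Lb.r r289 (@Lb.r r279 (@Lb.r r584 (@Lb.r r326 (@Lb.g g7 (@Lb.g g6 (@Lb.g g5 (@Lb.d (nat_lit 4) (nat_lit 1) (nat_lit 65) (@Lb.t (@Lb.fp (nat_lit 9) t68)))))))))))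
noncomputable def l2439 : Lb := (@Lb.r r101 (@Lb.r r24 (@Lb.d (nat_lit 33) (nat_lit 256) (nat_lit 0) (@Lb.fp (nat_lit 1) t319))))
noncomputable def l2440 : Lb := (@Lb.r r101 (@Lb.r r24 (@Lb.d (nat_lit 354) (nat_lit 512) (nat_lit 512) (@Lb.fp (nat_lit 1) t166))))
noncomputable def l2441 : Lb := (@Lb.d (nat_lit 2) (nat_lit 9) (nat_lit 73) (@Lb.g g8 (@Lb.g g9 (@Lb.g g10 (@Lb.g g11 (@Lb.r r1706 (@Lb.r r648 (@Lb.r r2587 (@Lb.r r1313 (@Lb.r r36 (@Lb.d (nat_lit 129) (nat_lit 164) (nat_lit 321) (@Lb.fp (nat_lit 9) t98))))))))))))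
noncomputable def l2442 : Lb := (@Lb.d (nat_lit 2) (nat_lit 265) (nat_lit 130) (@Lb.g g8 (@Lb.g g9 (@Lb.g g10 (@Lb.g g11 (@Lb.r r1706 (@Lb.r r648 (@Lb.r r2587 (@Lb.r r1313 (@Lb.r r36 (@Lb.d (nat_lit 130) (nat_lit 164) (nat_lit 321) (@Lb.fp (nat_lit 9) t98))))))))))))
noncomputable def l2443 : Lb := (@Lb.d (nat_lit 1) (nat_lit 9) (nat_lit 130) (@Lb.g g8 (@Lb.g g9 (@Lb.g g10 (@Lb.g g11 (@Lb.r r1706 (@Lb.r r648 (@Lb.r r2587 (@Lb.r r1313 (@Lb.r r36 (@Lb.d (nat_lit 129) (nat_lit 164) (nat_lit 321) (@Lb.fp (nat_lit 9) t98))))))))))))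
noncomputable def l2444 : Lb := (@Lb.d (nat_lit 134) (nat_lit 514) (nat_lit 4) (@Lb.g g8 (@Lb.g g9 (@Lb.g g10 (@Lb.g g11 (@Lb.r r610 (@Lb.r r2388 (@Lb.r r601 (@Lb.r r2651 (@Lb.d (nat_lit 357) (nat_lit 136) (nat_lit 344) (@Lb.fm (nat_lit 9) t329)))))))))))
noncomputable def l2445 : Lb := (@Lb.d (nat_lit 2) (nat_lit 38) (nat_lit 133) (@Lb.g g8 (@Lb.g g9 (@Lb.g g10 (@Lb.g g11 (@Lb.r r648 (@Lb.r r1626 (@Lb.r r1429 (@Lb.r r1643 (@Lb.r r2564 (@Lb.d (nat_lit 21) (nat_lit 9) (nat_lit 344) (@Lb.fp (nat_lit 9) t299))))))))))))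
noncomputable def l2446 : Lb := (@Lb.r r1379 (@Lb.r r2209 (@Lb.r r1186 (@Lb.r r1124 (@Lb.d (nat_lit 0) (nat_lit 325) (nat_lit 33) (@Lb.fp (nat_lit 1) t798))))))
noncomputable def l2447 : Lb := (@Lb.d (nat_lit 32) (nat_lit 257) (nat_lit 130) (@Lb.g g8 (@Lb.g g9 (@Lb.g g10 (@Lb.g g11 (@Lb.r r2393 (@Lb.r r2471 (@Lb.r r1640 (@Lb.r r2662 (@Lb.d (nat_lit 661) (nat_lit 136) (nat_lit 682) (@Lb.fm (nat_lit 9) t329)))))))))))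
noncomputable def l2448 : Lb := (@Lb.r r275 (@Lb.d (nat_lit 2) (nat_lit 2) (nat_lit 2) (@Lb.g g8 (@Lb.g g9 (@Lb.g g10 (@Lb.r r2667 (@Lb.r r578 (@Lb.r r417 (@Lb.r r24 (@Lb.d (nat_lit 618) (nat_lit 37) (nat_lit 530) (@Lb.t (@Lb.fp (nat_lit 9) t123))))))))))))
noncomputable def l2449 : Lb := (@Lb.r r323 (@Lb.d (nat_lit 2) (nat_lit 260) (nat_lit 0) (@Lb.g g8 (@Lb.g g9 (@Lb.g g10 (@Lb.r r2667 (@Lb.r r1110 (@Lb.r r1109 (@Lb.r r24 (@Lb.d (nat_lit 289) (nat_lit 137) (nat_lit 20) (@Lb.t (@Lb.fm (nat_lit 9) t123))))))))))))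
noncomputable def l2450 : Lb := (@Lb.r r21 (@Lb.r r70 (@Lb.d (nat_lit 389) (nat_lit 0) (nat_lit 128) (@Lb.g g8 (@Lb.g g11 (@Lb.r r2347 (@Lb.r r402 (@Lb.r r97 (@Lb.d (nat_lit 277) (nat_lit 90) (nat_lit 98) (@Lb.fm (nat_lit 3) t34))))))))))
noncomputable def l2451 : Lb := (@Lb.r r263 (@Lb.d (nat_lit 17) (nat_lit 513) (nat_lit 0) (@Lb.g g8 (@Lb.g g9 (@Lb.g g10 (@Lb.r r2713 (@Lb.r r1691 (@Lb.r r2634 (@Lb.r r648 (@Lb.d (nat_lit 89) (nat_lit 2) (nat_lit 344) (@Lb.t (@Lb.fm (nat_lit 9) t329))))))))))))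
noncomputable def l2452 : Lb := (@Lb.d (nat_lit 2) (nat_lit 2) (nat_lit 2) (@Lb.g g8 (@Lb.g g9 (@Lb.g g10 (@Lb.g g11 (@Lb.r r2585 (@Lb.r r595 (@Lb.r r386 (@Lb.d (nat_lit 289) (nat_lit 0) (nat_lit 649) (@Lb.fp (nat_lit 9) t791))))))))))
noncomputable def l2453 : Lb := (@Lb.d (nat_lit 2) (nat_lit 516) (nat_lit 0) (@Lb.g g8 (@Lb.g g9 (@Lb.g g10 (@Lb.g g11 (@Lb.r r1706 (@Lb.r r1451 (@Lb.r r1444 (@Lb.r r1317 (@Lb.d (nat_lit 586) (nat_lit 169) (nat_lit 322) (@Lb.fp (nat_lit 9) t813)))))))))))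
noncomputable def l2454 : Lb := (@Lb.r r323 (@Lb.d (nat_lit 32) (nat_lit 264) (nat_lit 2) (@Lb.g g10 (@Lb.r r360 (@Lb.r r663 (@Lb.r r353 (@Lb.r r658 (@Lb.d (nat_lit 5) (nat_lit 40) (nat_lit 134) (@Lb.t (@Lb.fp (nat_lit 3) t2))))))))))
noncomputable def l2455 : Lb := (@Lb.d (nat_lit 128) (nat_lit 264) (nat_lit 4) (@Lb.g g10 (@Lb.g g11 (@Lb.r r264 (@Lb.r r519 (@Lb.r r101 (@Lb.r r154 (@Lb.d (nat_lit 144) (nat_lit 10) (nat_lit 130) (@Lb.fm (nat_lit 3) t2)))))))))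
noncomputable def l2456 : Lb := (@Lb.d (nat_lit 128) (nat_lit 512) (nat_lit 128) (@Lb.g g11 (@Lb.r r264 (@Lb.r r519 (@Lb.r r2145 (@Lb.r r1170 (@Lb.d (nat_lit 130) (nat_lit 0) (nat_lit 160) (@Lb.t (@Lb.fp (nat_lit 3) t743)))))))))
noncomputable def l2457 : Lb := (@Lb.d (nat_lit 37) (nat_lit 1) (nat_lit 136) (@Lb.r r154 (@Lb.r r664 (@Lb.r r667 (@Lb.r r353 (@Lb.g g7 (@Lb.g g6 (@Lb.g g4 (@Lb.d (nat_lit 2) (nat_lit 4) (nat_lit 65) (@Lb.t (@Lb.fp (nat_lit 9) t51)))))))))))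
noncomputable def l2458 : Lb := (@Lb.d (nat_lit 38) (nat_lit 257) (nat_lit 136) (@Lb.r r154 (@Lb.r r664 (@Lb.r r667 (@Lb.r r353 (@Lb.g g7 (@Lb.g g6 (@Lb.g g4 (@Lb.d (nat_lit 2) (nat_lit 4) (nat_lit 134) (@Lb.t (@Lb.fp (nat_lit 9) t51)))))))))))
noncomputable def l2459 : Lb := (@Lb.r r21 (@Lb.d (nat_lit 2) (nat_lit 32) (nat_lit 0) (@Lb.g g8 (@Lb.g g11 (@Lb.r r170 (@Lb.r r153 (@Lb.r r644 (@Lb.r r423 (@Lb.d (nat_lit 96) (nat_lit 34) (nat_lit 137) (@Lb.fp (nat_lit 3) t51))))))))))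
noncomputable def l2460 : Lb := (@Lb.d (nat_lit 2) (nat_lit 258) (nat_lit 66) (@Lb.g g8 (@Lb.g g9 (@Lb.g g10 (@Lb.g g11 (@Lb.r r599 (@Lb.r r106 (@Lb.r r25 (@Lb.d (nat_lit 9) (nat_lit 9) (nat_lit 2) (@Lb.fm (nat_lit 9) t51))))))))))
noncomputable def l2461 : Lb := (@Lb.d (nat_lit 0) (nat_lit 256) (nat_lit 64) (@Lb.g g11 (@Lb.d (nat_lit 0) (nat_lit 0) (nat_lit 128) (@Lb.t (@Lb.fp (nat_lit 3) t2)))))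
noncomputable def l2462 : Lb := (@Lb.d (nat_lit 0) (nat_lit 384) (nat_lit 96) (@Lb.r r402 (@Lb.g g7 (@Lb.d (nat_lit 0) (nat_lit 0) (nat_lit 68) (@Lb.t (@Lb.fp (nat_lit 3) t71))))))
noncomputable def l2463 : Lb := (@Lb.d (nat_lit 32) (nat_lit 256) (nat_lit 1) (@Lb.g g10 (@Lb.r r289 (@Lb.r r356 (@Lb.r r667 (@Lb.r r586 (@Lb.d (nat_lit 82) (nat_lit 0) (nat_lit 153) (@Lb.t (@Lb.fp (nat_lit 3) t167)))))))))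
noncomputable def l2464 : Lb := (@Lb.d (nat_lit 128) (nat_lit 512) (nat_lit 128) (@Lb.g g11 (@Lb.r r549 (@Lb.r r344 (@Lb.r r679 (@Lb.r r134 (@Lb.d (nat_lit 548) (nat_lit 24) (nat_lit 169) (@Lb.t (@Lb.fp (nat_lit 3) t40)))))))))
noncomputable def l2465 : Lb := (@Lb.d (nat_lit 0) (nat_lit 613) (nat_lit 649) (@Lb.r r597 (@Lb.r r279 (@Lb.r r612 (@Lb.g g10 (@Lb.g g5 (@Lb.d (nat_lit 20) (nat_lit 1) (nat_lit 10) (@Lb.r r387 (@Lb.fp (nat_lit 3) t693)))))))))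
noncomputable def l2466 : Lb := (@Lb.r r21 (@Lb.d (nat_lit 10) (nat_lit 0) (nat_lit 2) (@Lb.g g8 (@Lb.g g10 (@Lb.g g11 (@Lb.r r667 (@Lb.r r2405 (@Lb.r r1178 (@Lb.r r1156 (@Lb.d (nat_lit 345) (nat_lit 65) (nat_lit 337) (@Lb.t (@Lb.fp (nat_lit 9) t284))))))))))))
noncomputable def l2467 : Lb := (@Lb.d (nat_lit 1) (nat_lit 514) (nat_lit 2) (@Lb.g g8 (@Lb.g g9 (@Lb.g g10 (@Lb.g g11 (@Lb.r r683 (@Lb.r r616 (@Lb.r r86 (@Lb.r r2213 (@Lb.r r2068 (@Lb.d (nat_lit 297) (nat_lit 65) (nat_lit 169) (@Lb.fm (nat_lit 9) t284))))))))))))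
noncomputable def l2468 : Lb := (@Lb.d (nat_lit 2) (nat_lit 2) (nat_lit 2) (@Lb.g g8 (@Lb.g g9 (@Lb.g g10 (@Lb.g g11 (@Lb.r r683 (@Lb.r r616 (@Lb.r r86 (@Lb.r r2213 (@Lb.r r2068 (@Lb.d (nat_lit 297) (nat_lit 65) (nat_lit 34) (@Lb.fm (nat_lit 9) t284))))))))))))
noncomputable def l2469 : Lb := (@Lb.d (nat_lit 0) (nat_lit 133) (nat_lit 97) (@Lb.r r402 (@Lb.g g7 (@Lb.d (nat_lit 0) (nat_lit 0) (nat_lit 68) (@Lb.t (@Lb.fp (nat_lit 3) t119))))))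
noncomputable def l2470 : Lb := (@Lb.d (nat_lit 298) (nat_lit 65) (nat_lit 0) (@Lb.r r101 (@Lb.r r24 (@Lb.r r1414 (@Lb.r r2395 (@Lb.g g7 (@Lb.g g6 (@Lb.g g5 (@Lb.d (nat_lit 0) (nat_lit 0) (nat_lit 64) (@Lb.t (@Lb.fm (nat_lit 9) t814)))))))))))
noncomputable def l2471 : Lb := (@Lb.d (nat_lit 145) (nat_lit 9) (nat_lit 73) (@Lb.g g8 (@Lb.g g9 (@Lb.g g10 (@Lb.g g11 (@Lb.r r387 (@Lb.r r1686 (@Lb.r r1561 (@Lb.r r2072 (@Lb.d (nat_lit 137) (nat_lit 146) (nat_lit 104) (@Lb.fp (nat_lit 9) t815)))))))))))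
noncomputable def l2472 : Lb := (@Lb.r r21 (@Lb.d (nat_lit 145) (nat_lit 256) (nat_lit 74) (@Lb.g g8 (@Lb.g g10 (@Lb.g g11 (@Lb.r r387 (@Lb.r r1670 (@Lb.r r97 (@Lb.r r1636 (@Lb.d (nat_lit 282) (nat_lit 24) (nat_lit 357) (@Lb.t (@Lb.fm (nat_lit 9) t816))))))))))))
noncomputable def l2473 : Lb := (@Lb.r r21 (@Lb.r r263 (@Lb.d (nat_lit 2) (nat_lit 0) (nat_lit 0) (@Lb.g g8 (@Lb.g g10 (@Lb.r r2459 (@Lb.r r2196 (@Lb.r r25 (@Lb.d (nat_lit 280) (nat_lit 138) (nat_lit 18) (@Lb.fm (nat_lit 3) t817))))))))))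
noncomputable def l2474 : Lb := (@Lb.d (nat_lit 65) (nat_lit 290) (nat_lit 645) (@Lb.r r24 (@Lb.r r2587 (@Lb.r r1361 (@Lb.r r2726 (@Lb.g g7 (@Lb.g g6 (@Lb.g g5 (@Lb.d (nat_lit 0) (nat_lit 5) (nat_lit 9) (@Lb.t (@Lb.fm (nat_lit 9) t495)))))))))))
noncomputable def l2475 : Lb := (@Lb.r r21 (@Lb.r r263 (@Lb.d (nat_lit 2) (nat_lit 256) (nat_lit 0) (@Lb.g g8 (@Lb.g g10 (@Lb.r r2459 (@Lb.r r2196 (@Lb.r r25 (@Lb.d (nat_lit 282) (nat_lit 138) (nat_lit 18) (@Lb.fm (nat_lit 3) t818))))))))))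
noncomputable def l2476 : Lb := (@Lb.g g8 (@Lb.r r402 (@Lb.r r101 (@Lb.r r24 (@Lb.d (nat_lit 529) (nat_lit 256) (nat_lit 528) (@Lb.t (@Lb.fm (nat_lit 3) t505)))))))
noncomputable def l2477 : Lb := (@Lb.r r82 (@Lb.d (nat_lit 34) (nat_lit 2) (nat_lit 128) (@Lb.g g8 (@Lb.g g9 (@Lb.g g11 (@Lb.r r363 (@Lb.r r582 (@Lb.r r388 (@Lb.d (nat_lit 598) (nat_lit 2) (nat_lit 169) (@Lb.t (@Lb.fm (nat_lit 9) t819)))))))))))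
noncomputable def l2478 : Lb := (@Lb.r r82 (@Lb.d (nat_lit 32) (nat_lit 514) (nat_lit 128) (@Lb.g g8 (@Lb.g g9 (@Lb.g g11 (@Lb.r r363 (@Lb.r r582 (@Lb.r r388 (@Lb.d (nat_lit 598) (nat_lit 2) (nat_lit 169) (@Lb.t (@Lb.fm (nat_lit 9) t819)))))))))))
noncomputable def l2479 : Lb := (@Lb.r r82 (@Lb.d (nat_lit 0) (nat_lit 0) (nat_lit 128) (@Lb.g g9 (@Lb.g g11 (@Lb.r r291 (@Lb.r r602 (@Lb.r r600 (@Lb.r r293 (@Lb.d (nat_lit 68) (nat_lit 130) (nat_lit 0) (@Lb.fm (nat_lit 3) t501))))))))))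
noncomputable def l2480 : Lb := (@Lb.d (nat_lit 132) (nat_lit 64) (nat_lit 136) (@Lb.g g9 (@Lb.g g11 (@Lb.r r420 (@Lb.r r390 (@Lb.r r1387 (@Lb.d (nat_lit 34) (nat_lit 16) (nat_lit 148) (@Lb.fp (nat_lit 3) t820))))))))
noncomputable def l2481 : Lb := (@Lb.d (nat_lit 2) (nat_lit 9) (nat_lit 129) (@Lb.g g8 (@Lb.g g9 (@Lb.g g10 (@Lb.g g11 (@Lb.r r2691 (@Lb.r r2665 (@Lb.r r1686 (@Lb.r r1096 (@Lb.d (nat_lit 677) (nat_lit 161) (nat_lit 89) (@Lb.fp (nat_lit 9) t821)))))))))))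
noncomputable def l2482 : Lb := (@Lb.d (nat_lit 2) (nat_lit 521) (nat_lit 72) (@Lb.g g8 (@Lb.g g9 (@Lb.g g10 (@Lb.g g11 (@Lb.r r2691 (@Lb.r r2665 (@Lb.r r1686 (@Lb.r r1096 (@Lb.d (nat_lit 672) (nat_lit 160) (nat_lit 89) (@Lb.fp (nat_lit 9) t821)))))))))))
noncomputable def l2483 : Lb := (@Lb.d (nat_lit 2) (nat_lit 256) (nat_lit 0) (@Lb.g g8 (@Lb.d (nat_lit 10) (nat_lit 9) (nat_lit 2) (@Lb.t (@Lb.fp (nat_lit 3) t21)))))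
noncomputable def l2484 : Lb := (@Lb.r r20 (@Lb.d (nat_lit 0) (nat_lit 9) (nat_lit 128) (@Lb.g g9 (@Lb.g g11 (@Lb.r r2450 (@Lb.r r2659 (@Lb.r r2661 (@Lb.d (nat_lit 405) (nat_lit 25) (nat_lit 274) (@Lb.fp (nat_lit 3) t822)))))))))
noncomputable def l2485 : Lb := (@Lb.d (nat_lit 16) (nat_lit 265) (nat_lit 33) (@Lb.r r24 (@Lb.r r386 (@Lb.r r2651 (@Lb.g g9 (@Lb.d (nat_lit 8) (nat_lit 34) (nat_lit 0) (@Lb.r r291 (@Lb.r r98 (@Lb.t (@Lb.fm (nat_lit 3) t823))))))))))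
noncomputable def l2486 : Lb := (@Lb.r r21 (@Lb.r r70 (@Lb.r r263 (@Lb.g g4 (@Lb.r r267 (@Lb.r r74 (@Lb.r r25 (@Lb.d (nat_lit 0) (nat_lit 266) (nat_lit 2) (@Lb.t (@Lb.fm (nat_lit 3) t151))))))))))
noncomputable def l2487 : Lb := (@Lb.r r21 (@Lb.r r70 (@Lb.r r263 (@Lb.g g4 (@Lb.r r1387 (@Lb.r r2213 (@Lb.r r1194 (@Lb.r r1124 (@Lb.d (nat_lit 0) (nat_lit 325) (nat_lit 33) (@Lb.t (@Lb.fm (nat_lit 3) t363)))))))))))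
noncomputable def l2488 : Lb := (@Lb.d (nat_lit 16) (nat_lit 9) (nat_lit 33) (@Lb.r r24 (@Lb.r r386 (@Lb.r r2651 (@Lb.g g7 (@Lb.g g9 (@Lb.d (nat_lit 8) (nat_lit 33) (nat_lit 0) (@Lb.r r98 (@Lb.fm (nat_lit 3) t823)))))))))
noncomputable def l2489 : Lb := (@Lb.r r20 (@Lb.d (nat_lit 0) (nat_lit 521) (nat_lit 128) (@Lb.g g9 (@Lb.g g11 (@Lb.r r2450 (@Lb.r r2659 (@Lb.r r2661 (@Lb.d (nat_lit 402) (nat_lit 153) (nat_lit 274) (@Lb.fp (nat_lit 3) t824)))))))))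
noncomputable def l2490 : Lb := (@Lb.d (nat_lit 512) (nat_lit 578) (nat_lit 0) (@Lb.r r24 (@Lb.r r386 (@Lb.r r2651 (@Lb.r r273 (@Lb.g g9 (@Lb.r r291 (@Lb.r r98 (@Lb.t (@Lb.fm (nat_lit 3) t536))))))))))
noncomputable def l2491 : Lb := (@Lb.g g9 (@Lb.r r97 (@Lb.r r1106 (@Lb.r r145 (@Lb.t (@Lb.p (nat_lit 1) (@Lb.fm (nat_lit 3) t246)))))))
noncomputable def l2492 : Lb := (@Lb.d (nat_lit 1) (nat_lit 645) (nat_lit 33) (@Lb.r r597 (@Lb.r r279 (@Lb.r r584 (@Lb.r r326 (@Lb.g g7 (@Lb.g g6 (@Lb.g g5 (@Lb.d (nat_lit 0) (nat_lit 0) (nat_lit 65) (@Lb.t (@Lb.fm (nat_lit 9) t521)))))))))))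
noncomputable def l2493 : Lb := (@Lb.r r21 (@Lb.d (nat_lit 2) (nat_lit 0) (nat_lit 2) (@Lb.g g8 (@Lb.g g10 (@Lb.g g11 (@Lb.r r651 (@Lb.r r1642 (@Lb.r r1561 (@Lb.r r1540 (@Lb.d (nat_lit 409) (nat_lit 5) (nat_lit 657) (@Lb.t (@Lb.fp (nat_lit 9) t825))))))))))))
noncomputable def l2494 : Lb := (@Lb.d (nat_lit 1) (nat_lit 394) (nat_lit 34) (@Lb.r r597 (@Lb.r r279 (@Lb.r r584 (@Lb.r r326 (@Lb.g g7 (@Lb.g g6 (@Lb.g g5 (@Lb.d (nat_lit 0) (nat_lit 0) (nat_lit 65) (@Lb.t (@Lb.fm (nat_lit 9) t502)))))))))))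
noncomputable def l2495 : Lb := (@Lb.d (nat_lit 24) (nat_lit 586) (nat_lit 646) (@Lb.r r277 (@Lb.r r519 (@Lb.r r264 (@Lb.g g7 (@Lb.g g10 (@Lb.d (nat_lit 80) (nat_lit 8) (nat_lit 65) (@Lb.fp (nat_lit 3) t825))))))))
noncomputable def l2496 : Lb := (@Lb.r r21 (@Lb.d (nat_lit 2) (nat_lit 512) (nat_lit 2) (@Lb.g g8 (@Lb.g g10 (@Lb.r r651 (@Lb.r r1642 (@Lb.r r1561 (@Lb.r r1540 (@Lb.d (nat_lit 409) (nat_lit 5) (nat_lit 657) (@Lb.fp (nat_lit 3) t825))))))))))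
noncomputable def l2497 : Lb := (@Lb.d (nat_lit 0) (nat_lit 258) (nat_lit 130) (@Lb.g g9 (@Lb.g g10 (@Lb.g g11 (@Lb.r r2327 (@Lb.r r1634 (@Lb.r r1572 (@Lb.r r1637 (@Lb.d (nat_lit 160) (nat_lit 36) (nat_lit 644) (@Lb.t (@Lb.fp (nat_lit 9) t826)))))))))))
noncomputable def l2498 : Lb := (@Lb.d (nat_lit 0) (nat_lit 545) (nat_lit 66) (@Lb.g g9 (@Lb.g g10 (@Lb.g g11 (@Lb.r r595 (@Lb.r r1702 (@Lb.r r1636 (@Lb.r r1557 (@Lb.d (nat_lit 385) (nat_lit 2) (nat_lit 256) (@Lb.t (@Lb.fm (nat_lit 9) t827)))))))))))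
noncomputable def l2499 : Lb := (@Lb.d (nat_lit 130) (nat_lit 256) (nat_lit 384) (@Lb.g g8 (@Lb.g g11 (@Lb.r r292 (@Lb.d (nat_lit 70) (nat_lit 161) (nat_lit 640) (@Lb.fm (nat_lit 3) t828))))))
noncomputable def l2500 : Lb := (@Lb.d (nat_lit 9) (nat_lit 2) (nat_lit 130) (@Lb.g g8 (@Lb.g g9 (@Lb.g g10 (@Lb.g g11 (@Lb.r r2691 (@Lb.r r2345 (@Lb.r r360 (@Lb.r r582 (@Lb.r r2180 (@Lb.d (nat_lit 641) (nat_lit 10) (nat_lit 89) (@Lb.fm (nat_lit 9) t242))))))))))))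
noncomputable def l2501 : Lb := (@Lb.d (nat_lit 9) (nat_lit 258) (nat_lit 66) (@Lb.g g8 (@Lb.g g9 (@Lb.g g10 (@Lb.g g11 (@Lb.r r2323 (@Lb.r r1681 (@Lb.r r356 (@Lb.r r154 (@Lb.r r132 (@Lb.d (nat_lit 640) (nat_lit 2) (nat_lit 586) (@Lb.fm (nat_lit 9) t284))))))))))))
noncomputable def l2502 : Lb := (@Lb.d (nat_lit 1) (nat_lit 256) (nat_lit 66) (@Lb.g g8 (@Lb.g g10 (@Lb.g g11 (@Lb.r r264 (@Lb.r r263 (@Lb.r r161 (@Lb.r r98 (@Lb.r r516 (@Lb.d (nat_lit 1) (nat_lit 8) (nat_lit 134) (@Lb.t (@Lb.fm (nat_lit 9) t97))))))))))))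
noncomputable def l2503 : Lb := (@Lb.d (nat_lit 8) (nat_lit 2) (nat_lit 130) (@Lb.g g8 (@Lb.g g9 (@Lb.g g10 (@Lb.g g11 (@Lb.r r2691 (@Lb.r r2345 (@Lb.r r360 (@Lb.r r582 (@Lb.r r2180 (@Lb.d (nat_lit 642) (nat_lit 10) (nat_lit 89) (@Lb.fm (nat_lit 9) t242))))))))))))
noncomputable def l2504 : Lb := (@Lb.d (nat_lit 9) (nat_lit 0) (nat_lit 64) (@Lb.g g8 (@Lb.g g10 (@Lb.g g11 (@Lb.r r353 (@Lb.r r663 (@Lb.r r356 (@Lb.r r154 (@Lb.d (nat_lit 257) (nat_lit 0) (nat_lit 160) (@Lb.t (@Lb.fp (nat_lit 9) t743)))))))))))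
noncomputable def l2505 : Lb := (@Lb.d (nat_lit 9) (nat_lit 258) (nat_lit 64) (@Lb.g g8 (@Lb.g g9 (@Lb.g g10 (@Lb.g g11 (@Lb.r r170 (@Lb.r r424 (@Lb.r r279 (@Lb.r r529 (@Lb.r r36 (@Lb.d (nat_lit 1) (nat_lit 33) (nat_lit 74) (@Lb.fp (nat_lit 9) t51))))))))))))
noncomputable def l2506 : Lb := (@Lb.d (nat_lit 1) (nat_lit 274) (nat_lit 33) (@Lb.r r289 (@Lb.r r279 (@Lb.r r612 (@Lb.r r346 (@Lb.g g7 (@Lb.g g6 (@Lb.g g5 (@Lb.d (nat_lit 4) (nat_lit 1) (nat_lit 65) (@Lb.t (@Lb.fm (nat_lit 9) t51)))))))))))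
noncomputable def l2507 : Lb := (@Lb.d (nat_lit 272) (nat_lit 0) (nat_lit 1) (@Lb.r r260 (@Lb.r r2178 (@Lb.r r539 (@Lb.r r532 (@Lb.g g7 (@Lb.g g9 (@Lb.g g4 (@Lb.d (nat_lit 0) (nat_lit 70) (nat_lit 64) (@Lb.t (@Lb.fm (nat_lit 9) t216)))))))))))
noncomputable def l2508 : Lb := (@Lb.d (nat_lit 0) (nat_lit 512) (nat_lit 136) (@Lb.g g11 (@Lb.r r1617 (@Lb.r r354 (@Lb.r r1427 (@Lb.d (nat_lit 546) (nat_lit 80) (nat_lit 426) (@Lb.t (@Lb.fp (nat_lit 3) t124))))))))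
noncomputable def l2509 : Lb := (@Lb.r r323 (@Lb.d (nat_lit 550) (nat_lit 512) (nat_lit 2) (@Lb.g g8 (@Lb.g g9 (@Lb.g g10 (@Lb.r r618 (@Lb.r r1635 (@Lb.r r1553 (@Lb.d (nat_lit 128) (nat_lit 162) (nat_lit 320) (@Lb.t (@Lb.fp (nat_lit 9) t829)))))))))))
noncomputable def l2510 : Lb := (@Lb.d (nat_lit 17) (nat_lit 74) (nat_lit 32) (@Lb.r r169 (@Lb.r r100 (@Lb.r r1355 (@Lb.g g10 (@Lb.g g5 (@Lb.d (nat_lit 4) (nat_lit 0) (nat_lit 2) (@Lb.r r387 (@Lb.fm (nat_lit 3) t830)))))))))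
noncomputable def l2511 : Lb := (@Lb.d (nat_lit 0) (nat_lit 0) (nat_lit 128) (@Lb.g g9 (@Lb.g g11 (@Lb.r r134 (@Lb.r r584 (@Lb.r r299 (@Lb.r r289 (@Lb.d (nat_lit 8) (nat_lit 65) (nat_lit 128) (@Lb.fp (nat_lit 3) t119)))))))))
noncomputable def l2512 : Lb := (@Lb.r r82 (@Lb.r r275 (@Lb.d (nat_lit 2) (nat_lit 512) (nat_lit 0) (@Lb.g g8 (@Lb.g g9 (@Lb.r r299 (@Lb.r r106 (@Lb.r r25 (@Lb.d (nat_lit 1) (nat_lit 134) (nat_lit 32) (@Lb.fm (nat_lit 3) t831))))))))))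
noncomputable def l2513 : Lb := (@Lb.r r82 (@Lb.r r275 (@Lb.d (nat_lit 2) (nat_lit 0) (nat_lit 0) (@Lb.g g8 (@Lb.g g9 (@Lb.r r299 (@Lb.r r106 (@Lb.r r25 (@Lb.d (nat_lit 8) (nat_lit 133) (nat_lit 32) (@Lb.fm (nat_lit 3) t7))))))))))
noncomputable def l2514 : Lb := (@Lb.g g8 (@Lb.g g7 (@Lb.r r1114 (@Lb.r r289 (@Lb.r r407 (@Lb.r r1096 (@Lb.d (nat_lit 70) (nat_lit 257) (nat_lit 576) (@Lb.fp (nat_lit 3) t807))))))))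
noncomputable def l2515 : Lb := (@Lb.d (nat_lit 2) (nat_lit 512) (nat_lit 0) (@Lb.g g8 (@Lb.d (nat_lit 2) (nat_lit 134) (nat_lit 32) (@Lb.t (@Lb.fp (nat_lit 3) t45)))))
noncomputable def l2516 : Lb := (@Lb.d (nat_lit 2) (nat_lit 258) (nat_lit 130) (@Lb.g g8 (@Lb.g g9 (@Lb.g g10 (@Lb.g g11 (@Lb.r r2403 (@Lb.r r1442 (@Lb.r r424 (@Lb.r r345 (@Lb.d (nat_lit 602) (nat_lit 102) (nat_lit 337) (@Lb.fp (nat_lit 9) t832)))))))))))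
noncomputable def l2517 : Lb := (@Lb.r r323 (@Lb.d (nat_lit 2) (nat_lit 516) (nat_lit 1) (@Lb.g g8 (@Lb.g g9 (@Lb.g g10 (@Lb.r r427 (@Lb.r r1177 (@Lb.r r90 (@Lb.d (nat_lit 521) (nat_lit 6) (nat_lit 18) (@Lb.t (@Lb.fm (nat_lit 9) t58)))))))))))
noncomputable def l2518 : Lb := (@Lb.d (nat_lit 9) (nat_lit 513) (nat_lit 4) (@Lb.g g8 (@Lb.g g9 (@Lb.g g10 (@Lb.g g11 (@Lb.r r1367 (@Lb.r r1366 (@Lb.r r97 (@Lb.r r24 (@Lb.d (nat_lit 153) (nat_lit 9) (nat_lit 361) (@Lb.fp (nat_lit 9) t457)))))))))))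
noncomputable def l2519 : Lb := (@Lb.d (nat_lit 2) (nat_lit 514) (nat_lit 130) (@Lb.g g8 (@Lb.g g9 (@Lb.g g10 (@Lb.g g11 (@Lb.r r2691 (@Lb.r r2665 (@Lb.r r1686 (@Lb.r r1124 (@Lb.d (nat_lit 658) (nat_lit 10) (nat_lit 345) (@Lb.fm (nat_lit 9) t833)))))))))))
noncomputable def l2520 : Lb := (@Lb.d (nat_lit 262) (nat_lit 262) (nat_lit 33) (@Lb.r r2129 (@Lb.r r1126 (@Lb.r r597 (@Lb.r r2391 (@Lb.g g7 (@Lb.g g6 (@Lb.g g5 (@Lb.g g4 (@Lb.d (nat_lit 1) (nat_lit 0) (nat_lit 65) (@Lb.fp (nat_lit 9) t473)))))))))))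
noncomputable def l2521 : Lb := (@Lb.r r81 (@Lb.r r323 (@Lb.d (nat_lit 41) (nat_lit 256) (nat_lit 0) (@Lb.g g8 (@Lb.g g6 (@Lb.r r2331 (@Lb.r r37 (@Lb.d (nat_lit 2) (nat_lit 69) (nat_lit 1) (@Lb.fm (nat_lit 3) t233)))))))))
noncomputable def l2522 : Lb := (@Lb.d (nat_lit 608) (nat_lit 517) (nat_lit 609) (@Lb.r r24 (@Lb.r r101 (@Lb.r r2658 (@Lb.r r2467 (@Lb.g g7 (@Lb.g g6 (@Lb.d (nat_lit 0) (nat_lit 0) (nat_lit 72) (@Lb.fm (nat_lit 3) t834)))))))))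
noncomputable def l2523 : Lb := (@Lb.d (nat_lit 584) (nat_lit 265) (nat_lit 608) (@Lb.r r1418 (@Lb.r r1444 (@Lb.r r2661 (@Lb.r r2467 (@Lb.g g7 (@Lb.g g6 (@Lb.g g4 (@Lb.d (nat_lit 2) (nat_lit 0) (nat_lit 8) (@Lb.t (@Lb.fp (nat_lit 9) t835)))))))))))
noncomputable def l2524 : Lb := (@Lb.d (nat_lit 2) (nat_lit 258) (nat_lit 130) (@Lb.g g8 (@Lb.g g9 (@Lb.g g10 (@Lb.g g11 (@Lb.r r2691 (@Lb.r r2665 (@Lb.r r1686 (@Lb.r r1124 (@Lb.d (nat_lit 664) (nat_lit 138) (nat_lit 345) (@Lb.fm (nat_lit 9) t836)))))))))))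
noncomputable def l2525 : Lb := (@Lb.d (nat_lit 33) (nat_lit 404) (nat_lit 345) (@Lb.r r2308 (@Lb.r r2178 (@Lb.r r2699 (@Lb.r r612 (@Lb.g g7 (@Lb.g g9 (@Lb.g g4 (@Lb.d (nat_lit 65) (nat_lit 70) (nat_lit 128) (@Lb.t (@Lb.fm (nat_lit 9) t837)))))))))))
noncomputable def l2526 : Lb := (@Lb.r r70 (@Lb.d (nat_lit 2) (nat_lit 2) (nat_lit 644) (@Lb.g g8 (@Lb.g g9 (@Lb.g g11 (@Lb.r r618 (@Lb.r r2152 (@Lb.r r25 (@Lb.d (nat_lit 22) (nat_lit 25) (nat_lit 409) (@Lb.t (@Lb.fp (nat_lit 9) t838)))))))))))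
noncomputable def l2527 : Lb := (@Lb.d (nat_lit 130) (nat_lit 34) (nat_lit 0) (@Lb.g g8 (@Lb.g g9 (@Lb.r r2695 (@Lb.r r2178 (@Lb.r r408 (@Lb.r r149 (@Lb.d (nat_lit 260) (nat_lit 17) (nat_lit 24) (@Lb.fp (nat_lit 3) t64)))))))))
noncomputable def l2528 : Lb := (@Lb.d (nat_lit 130) (nat_lit 290) (nat_lit 0) (@Lb.g g8 (@Lb.g g9 (@Lb.r r2695 (@Lb.r r2178 (@Lb.r r408 (@Lb.r r149 (@Lb.d (nat_lit 262) (nat_lit 17) (nat_lit 24) (@Lb.fp (nat_lit 3) t64)))))))))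
noncomputable def l2529 : Lb := (@Lb.r r273 (@Lb.d (nat_lit 2) (nat_lit 520) (nat_lit 522) (@Lb.g g8 (@Lb.g g10 (@Lb.g g7 (@Lb.r r1617 (@Lb.r r1122 (@Lb.r r24 (@Lb.d (nat_lit 10) (nat_lit 73) (nat_lit 274) (@Lb.t (@Lb.fm (nat_lit 9) t839)))))))))))
noncomputable def l2530 : Lb := (@Lb.r r82 (@Lb.d (nat_lit 0) (nat_lit 512) (nat_lit 128) (@Lb.g g9 (@Lb.g g11 (@Lb.r r2467 (@Lb.r r386 (@Lb.r r2149 (@Lb.r r24 (@Lb.d (nat_lit 2) (nat_lit 0) (nat_lit 0) (@Lb.fp (nat_lit 3) t200))))))))))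
noncomputable def l2531 : Lb := (@Lb.d (nat_lit 618) (nat_lit 340) (nat_lit 280) (@Lb.r r2710 (@Lb.r r1352 (@Lb.r r659 (@Lb.g g7 (@Lb.g g6 (@Lb.g g9 (@Lb.d (nat_lit 24) (nat_lit 132) (nat_lit 65) (@Lb.r r36 (@Lb.t (@Lb.fp (nat_lit 9) t840)))))))))))
noncomputable def l2532 : Lb := (@Lb.r r322 (@Lb.d (nat_lit 41) (nat_lit 258) (nat_lit 72) (@Lb.g g8 (@Lb.g g9 (@Lb.g g7 (@Lb.r r2409 (@Lb.r r150 (@Lb.r r104 (@Lb.d (nat_lit 100) (nat_lit 10) (nat_lit 537) (@Lb.t (@Lb.fm (nat_lit 9) t242)))))))))))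
noncomputable def l2533 : Lb := (@Lb.d (nat_lit 0) (nat_lit 338) (nat_lit 389) (@Lb.r r21 (@Lb.r r579 (@Lb.r r1366 (@Lb.g g7 (@Lb.g g6 (@Lb.g g5 (@Lb.g g4 (@Lb.d (nat_lit 1) (nat_lit 1) (nat_lit 134) (@Lb.fm (nat_lit 9) t40))))))))))
noncomputable def l2534 : Lb := (@Lb.d (nat_lit 8) (nat_lit 260) (nat_lit 89) (@Lb.g g8 (@Lb.g g9 (@Lb.g g6 (@Lb.g g11 (@Lb.r r1633 (@Lb.r r24 (@Lb.d (nat_lit 10) (nat_lit 153) (nat_lit 416) (@Lb.fm (nat_lit 9) t42)))))))))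
noncomputable def l2535 : Lb := (@Lb.g g7 (@Lb.r r402 (@Lb.d (nat_lit 0) (nat_lit 645) (nat_lit 257) (@Lb.t (@Lb.fp (nat_lit 3) t334)))))
noncomputable def l2536 : Lb := (@Lb.d (nat_lit 0) (nat_lit 0) (nat_lit 68) (@Lb.g g7 (@Lb.r r402 (@Lb.d (nat_lit 0) (nat_lit 160) (nat_lit 324) (@Lb.t (@Lb.fp (nat_lit 3) t334))))))
noncomputable def l2537 : Lb := (@Lb.r r331 (@Lb.d (nat_lit 32) (nat_lit 2) (nat_lit 2) (@Lb.g g8 (@Lb.g g9 (@Lb.g g10 (@Lb.r r2729 (@Lb.r r2339 (@Lb.r r2434 (@Lb.r r516 (@Lb.d (nat_lit 545) (nat_lit 0) (nat_lit 165) (@Lb.t (@Lb.fm (nat_lit 9) t344))))))))))))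
noncomputable def l2538 : Lb := (@Lb.g g7 (@Lb.d (nat_lit 9) (nat_lit 384) (nat_lit 69) (@Lb.t (@Lb.fm (nat_lit 3) t2))))
noncomputable def l2539 : Lb := (@Lb.r r21 (@Lb.r r70 (@Lb.d (nat_lit 129) (nat_lit 512) (nat_lit 64) (@Lb.g g8 (@Lb.g g11 (@Lb.r r1303 (@Lb.r r2410 (@Lb.r r1573 (@Lb.r r2344 (@Lb.d (nat_lit 518) (nat_lit 34) (nat_lit 581) (@Lb.fm (nat_lit 3) t68)))))))))))
noncomputable def l2540 : Lb := (@Lb.g g4 (@Lb.r r579 (@Lb.d (nat_lit 6) (nat_lit 257) (nat_lit 16) (@Lb.t (@Lb.fp (nat_lit 3) t2)))))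
noncomputable def l2541 : Lb := (@Lb.r r82 (@Lb.d (nat_lit 34) (nat_lit 514) (nat_lit 128) (@Lb.g g8 (@Lb.g g9 (@Lb.g g11 (@Lb.r r363 (@Lb.r r582 (@Lb.r r408 (@Lb.d (nat_lit 149) (nat_lit 85) (nat_lit 18) (@Lb.t (@Lb.fp (nat_lit 9) t408)))))))))))
noncomputable def l2542 : Lb := (@Lb.r r81 (@Lb.d (nat_lit 10) (nat_lit 544) (nat_lit 129) (@Lb.g g8 (@Lb.g g6 (@Lb.g g11 (@Lb.r r149 (@Lb.r r360 (@Lb.r r583 (@Lb.d (nat_lit 146) (nat_lit 24) (nat_lit 69) (@Lb.t (@Lb.fp (nat_lit 9) t50)))))))))))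
noncomputable def l2543 : Lb := (@Lb.r r81 (@Lb.r r323 (@Lb.d (nat_lit 33) (nat_lit 516) (nat_lit 32) (@Lb.g g8 (@Lb.g g6 (@Lb.r r105 (@Lb.r r2596 (@Lb.r r2567 (@Lb.d (nat_lit 0) (nat_lit 34) (nat_lit 321) (@Lb.fp (nat_lit 3) t739))))))))))
noncomputable def l2544 : Lb := (@Lb.r r424 (@Lb.r r2473 (@Lb.r r1450 (@Lb.r r343 (@Lb.r r676 (@Lb.fm (nat_lit 1) t322))))))
noncomputable def l2545 : Lb := (@Lb.d (nat_lit 32) (nat_lit 514) (nat_lit 130) (@Lb.g g9 (@Lb.g g10 (@Lb.g g11 (@Lb.r r419 (@Lb.r r149 (@Lb.r r100 (@Lb.r r410 (@Lb.d (nat_lit 146) (nat_lit 85) (nat_lit 84) (@Lb.t (@Lb.fp (nat_lit 9) t741)))))))))))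
noncomputable def l2546 : Lb := (@Lb.d (nat_lit 34) (nat_lit 514) (nat_lit 128) (@Lb.g g8 (@Lb.g g9 (@Lb.g g11 (@Lb.r r406 (@Lb.r r1643 (@Lb.r r97 (@Lb.r r1560 (@Lb.d (nat_lit 66) (nat_lit 106) (nat_lit 550) (@Lb.t (@Lb.fm (nat_lit 9) t564)))))))))))
noncomputable def l2547 : Lb := (@Lb.d (nat_lit 2) (nat_lit 514) (nat_lit 130) (@Lb.g g8 (@Lb.g g9 (@Lb.g g10 (@Lb.g g11 (@Lb.r r427 (@Lb.r r145 (@Lb.r r356 (@Lb.r r154 (@Lb.r r132 (@Lb.d (nat_lit 2) (nat_lit 73) (nat_lit 18) (@Lb.fm (nat_lit 9) t741))))))))))))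
noncomputable def l2548 : Lb := (@Lb.r r81 (@Lb.d (nat_lit 10) (nat_lit 288) (nat_lit 129) (@Lb.g g8 (@Lb.g g6 (@Lb.g g11 (@Lb.r r149 (@Lb.r r360 (@Lb.r r583 (@Lb.d (nat_lit 146) (nat_lit 24) (nat_lit 133) (@Lb.t (@Lb.fp (nat_lit 9) t98)))))))))))
noncomputable def l2549 : Lb := (@Lb.r r323 (@Lb.d (nat_lit 8) (nat_lit 516) (nat_lit 42) (@Lb.g g8 (@Lb.g g9 (@Lb.g g6 (@Lb.r r387 (@Lb.r r289 (@Lb.r r24 (@Lb.d (nat_lit 10) (nat_lit 33) (nat_lit 528) (@Lb.t (@Lb.fp (nat_lit 9) t41)))))))))))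
noncomputable def l2550 : Lb := (@Lb.d (nat_lit 8) (nat_lit 528) (nat_lit 585) (@Lb.g g8 (@Lb.g g9 (@Lb.g g10 (@Lb.g g7 (@Lb.r r386 (@Lb.r r97 (@Lb.r r24 (@Lb.d (nat_lit 10) (nat_lit 9) (nat_lit 9) (@Lb.fp (nat_lit 9) t41))))))))))
noncomputable def l2551 : Lb := (@Lb.d (nat_lit 9) (nat_lit 258) (nat_lit 9) (@Lb.g g8 (@Lb.g g9 (@Lb.g g10 (@Lb.g g7 (@Lb.r r386 (@Lb.r r2145 (@Lb.r r24 (@Lb.d (nat_lit 10) (nat_lit 73) (nat_lit 169) (@Lb.fp (nat_lit 9) t40))))))))))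
noncomputable def l2552 : Lb := (@Lb.d (nat_lit 9) (nat_lit 258) (nat_lit 73) (@Lb.g g8 (@Lb.g g9 (@Lb.g g10 (@Lb.g g11 (@Lb.r r2691 (@Lb.r r2345 (@Lb.r r360 (@Lb.r r582 (@Lb.r r2180 (@Lb.d (nat_lit 641) (nat_lit 10) (nat_lit 89) (@Lb.fm (nat_lit 9) t242))))))))))))
noncomputable def l2553 : Lb := (@Lb.d (nat_lit 8) (nat_lit 2) (nat_lit 128) (@Lb.g g9 (@Lb.g g10 (@Lb.g g11 (@Lb.r r166 (@Lb.r r600 (@Lb.r r667 (@Lb.r r337 (@Lb.d (nat_lit 8) (nat_lit 89) (nat_lit 132) (@Lb.t (@Lb.fp (nat_lit 9) t51)))))))))))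
noncomputable def l2554 : Lb := (@Lb.r r323 (@Lb.d (nat_lit 0) (nat_lit 0) (nat_lit 1) (@Lb.g g6 (@Lb.r r387 (@Lb.r r101 (@Lb.r r24 (@Lb.d (nat_lit 34) (nat_lit 0) (nat_lit 2) (@Lb.t (@Lb.fm (nat_lit 3) t40)))))))))
noncomputable def l2555 : Lb := (@Lb.r r323 (@Lb.d (nat_lit 2) (nat_lit 2) (nat_lit 1) (@Lb.g g8 (@Lb.g g9 (@Lb.g g6 (@Lb.r r2667 (@Lb.r r25 (@Lb.d (nat_lit 9) (nat_lit 68) (nat_lit 86) (@Lb.t (@Lb.fm (nat_lit 9) t591))))))))))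
noncomputable def l2556 : Lb := (@Lb.d (nat_lit 658) (nat_lit 145) (nat_lit 677) (@Lb.r r2321 (@Lb.r r2371 (@Lb.r r2662 (@Lb.g g7 (@Lb.g g5 (@Lb.g g8 (@Lb.d (nat_lit 330) (nat_lit 4) (nat_lit 64) (@Lb.r r98 (@Lb.t (@Lb.fm (nat_lit 9) t436)))))))))))
noncomputable def l2557 : Lb := (@Lb.d (nat_lit 0) (nat_lit 512) (nat_lit 10) (@Lb.g g10 (@Lb.r r323 (@Lb.r r2626 (@Lb.d (nat_lit 0) (nat_lit 0) (nat_lit 130) (@Lb.t (@Lb.fp (nat_lit 3) t2)))))))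
noncomputable def l2558 : Lb := (@Lb.g g10 (@Lb.g g11 (@Lb.r r2626 (@Lb.d (nat_lit 0) (nat_lit 0) (nat_lit 384) (@Lb.fm (nat_lit 3) t2)))))
noncomputable def l2559 : Lb := (@Lb.d (nat_lit 32) (nat_lit 0) (nat_lit 130) (@Lb.g g10 (@Lb.g g11 (@Lb.r r545 (@Lb.r r299 (@Lb.r r72 (@Lb.r r390 (@Lb.d (nat_lit 73) (nat_lit 138) (nat_lit 168) (@Lb.fp (nat_lit 3) t126)))))))))
noncomputable def l2560 : Lb := (@Lb.d (nat_lit 0) (nat_lit 0) (nat_lit 130) (@Lb.g g10 (@Lb.g g11 (@Lb.r r642 (@Lb.r r387 (@Lb.d (nat_lit 0) (nat_lit 0) (nat_lit 129) (@Lb.fp (nat_lit 3) t2)))))))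
noncomputable def l2561 : Lb := (@Lb.d (nat_lit 4) (nat_lit 168) (nat_lit 73) (@Lb.r r657 (@Lb.r r667 (@Lb.r r600 (@Lb.r r166 (@Lb.g g7 (@Lb.g g6 (@Lb.g g5 (@Lb.d (nat_lit 4) (nat_lit 1) (nat_lit 64) (@Lb.t (@Lb.fm (nat_lit 9) t44)))))))))))
noncomputable def l2562 : Lb := (@Lb.r r323 (@Lb.d (nat_lit 8) (nat_lit 514) (nat_lit 1) (@Lb.g g8 (@Lb.g g9 (@Lb.g g6 (@Lb.r r387 (@Lb.r r2145 (@Lb.r r24 (@Lb.d (nat_lit 8) (nat_lit 73) (nat_lit 98) (@Lb.t (@Lb.fp (nat_lit 9) t167)))))))))))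
noncomputable def l2563 : Lb := (@Lb.r r283 (@Lb.d (nat_lit 136) (nat_lit 9) (nat_lit 8) (@Lb.g g8 (@Lb.g g9 (@Lb.g g6 (@Lb.r r407 (@Lb.r r617 (@Lb.r r516 (@Lb.d (nat_lit 165) (nat_lit 4) (nat_lit 130) (@Lb.t (@Lb.fm (nat_lit 9) t841)))))))))))
noncomputable def l2564 : Lb := (@Lb.d (nat_lit 149) (nat_lit 426) (nat_lit 132) (@Lb.r r603 (@Lb.r r584 (@Lb.r r105 (@Lb.g g7 (@Lb.g g10 (@Lb.g g4 (@Lb.d (nat_lit 18) (nat_lit 24) (nat_lit 64) (@Lb.r r145 (@Lb.t (@Lb.fp (nat_lit 9) t145)))))))))))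
noncomputable def l2565 : Lb := (@Lb.d (nat_lit 36) (nat_lit 6) (nat_lit 144) (@Lb.g g5 (@Lb.g g10 (@Lb.g g11 (@Lb.r r387 (@Lb.d (nat_lit 517) (nat_lit 1) (nat_lit 137) (@Lb.t (@Lb.fp (nat_lit 9) t144))))))))
noncomputable def l2566 : Lb := (@Lb.d (nat_lit 2) (nat_lit 390) (nat_lit 160) (@Lb.g g8 (@Lb.g g5 (@Lb.g g10 (@Lb.g g11 (@Lb.r r387 (@Lb.r r24 (@Lb.d (nat_lit 10) (nat_lit 0) (nat_lit 137) (@Lb.fp (nat_lit 9) t68)))))))))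
noncomputable def l2567 : Lb := (@Lb.d (nat_lit 9) (nat_lit 258) (nat_lit 130) (@Lb.g g8 (@Lb.g g9 (@Lb.g g10 (@Lb.g g11 (@Lb.r r148 (@Lb.r r1126 (@Lb.r r1381 (@Lb.r r1691 (@Lb.r r1668 (@Lb.d (nat_lit 9) (nat_lit 2) (nat_lit 330) (@Lb.fp (nat_lit 9) t2))))))))))))
noncomputable def l2568 : Lb := (@Lb.d (nat_lit 2) (nat_lit 258) (nat_lit 130) (@Lb.g g8 (@Lb.g g9 (@Lb.g g10 (@Lb.g g11 (@Lb.r r427 (@Lb.r r106 (@Lb.r r25 (@Lb.d (nat_lit 9) (nat_lit 9) (nat_lit 137) (@Lb.fp (nat_lit 9) t51))))))))))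
noncomputable def l2569 : Lb := (@Lb.d (nat_lit 129) (nat_lit 258) (nat_lit 130) (@Lb.g g8 (@Lb.g g9 (@Lb.g g10 (@Lb.g g11 (@Lb.r r1706 (@Lb.r r1411 (@Lb.r r665 (@Lb.r r1156 (@Lb.d (nat_lit 617) (nat_lit 169) (nat_lit 97) (@Lb.fm (nat_lit 9) t605)))))))))))
noncomputable def l2570 : Lb := (@Lb.r r21 (@Lb.r r70 (@Lb.r r263 (@Lb.g g8 (@Lb.r r2347 (@Lb.r r2154 (@Lb.r r1061 (@Lb.r r2088 (@Lb.d (nat_lit 522) (nat_lit 66) (nat_lit 0) (@Lb.t (@Lb.fp (nat_lit 3) t133)))))))))))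
noncomputable def l2571 : Lb := (@Lb.d (nat_lit 2) (nat_lit 514) (nat_lit 2) (@Lb.g g8 (@Lb.g g9 (@Lb.g g10 (@Lb.g g11 (@Lb.r r2691 (@Lb.r r297 (@Lb.r r360 (@Lb.r r582 (@Lb.r r2180 (@Lb.d (nat_lit 641) (nat_lit 10) (nat_lit 329) (@Lb.fm (nat_lit 9) t242))))))))))))
noncomputable def l2572 : Lb := (@Lb.r r82 (@Lb.d (nat_lit 34) (nat_lit 258) (nat_lit 136) (@Lb.g g8 (@Lb.g g9 (@Lb.g g11 (@Lb.r r1362 (@Lb.r r2645 (@Lb.r r356 (@Lb.r r395 (@Lb.d (nat_lit 544) (nat_lit 34) (nat_lit 680) (@Lb.t (@Lb.fm (nat_lit 9) t98))))))))))))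
noncomputable def l2573 : Lb := (@Lb.d (nat_lit 2) (nat_lit 258) (nat_lit 130) (@Lb.g g8 (@Lb.g g9 (@Lb.g g10 (@Lb.g g11 (@Lb.r r2691 (@Lb.r r297 (@Lb.r r360 (@Lb.r r582 (@Lb.r r2180 (@Lb.d (nat_lit 640) (nat_lit 10) (nat_lit 329) (@Lb.fm (nat_lit 9) t242))))))))))))
noncomputable def l2574 : Lb := (@Lb.d (nat_lit 0) (nat_lit 258) (nat_lit 130) (@Lb.g g8 (@Lb.g g9 (@Lb.g g10 (@Lb.g g11 (@Lb.r r1419 (@Lb.r r340 (@Lb.r r170 (@Lb.r r2217 (@Lb.r r2212 (@Lb.d (nat_lit 513) (nat_lit 73) (nat_lit 153) (@Lb.fp (nat_lit 9) t386))))))))))))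
noncomputable def l2575 : Lb := (@Lb.d (nat_lit 1) (nat_lit 32) (nat_lit 130) (@Lb.g g8 (@Lb.g g10 (@Lb.g g11 (@Lb.r r602 (@Lb.r r600 (@Lb.r r293 (@Lb.r r2587 (@Lb.d (nat_lit 329) (nat_lit 34) (nat_lit 276) (@Lb.t (@Lb.fp (nat_lit 9) t71)))))))))))
noncomputable def l2576 : Lb := (@Lb.d (nat_lit 0) (nat_lit 256) (nat_lit 6) (@Lb.g g10 (@Lb.g g11 (@Lb.r r2690 (@Lb.r r387 (@Lb.d (nat_lit 0) (nat_lit 0) (nat_lit 402) (@Lb.fp (nat_lit 3) t2)))))))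
noncomputable def l2577 : Lb := (@Lb.d (nat_lit 641) (nat_lit 258) (nat_lit 66) (@Lb.g g8 (@Lb.g g9 (@Lb.g g10 (@Lb.g g11 (@Lb.r r1451 (@Lb.r r106 (@Lb.r r25 (@Lb.d (nat_lit 0) (nat_lit 73) (nat_lit 425) (@Lb.fp (nat_lit 9) t842))))))))))
noncomputable def l2578 : Lb := (@Lb.d (nat_lit 1) (nat_lit 264) (nat_lit 130) (@Lb.g g8 (@Lb.g g10 (@Lb.g g11 (@Lb.r r2443 (@Lb.r r2345 (@Lb.r r2468 (@Lb.r r2438 (@Lb.d (nat_lit 617) (nat_lit 66) (nat_lit 665) (@Lb.t (@Lb.fm (nat_lit 9) t295)))))))))))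
noncomputable def l2579 : Lb := (@Lb.d (nat_lit 2) (nat_lit 2) (nat_lit 130) (@Lb.g g8 (@Lb.g g9 (@Lb.g g10 (@Lb.g g11 (@Lb.r r427 (@Lb.r r145 (@Lb.r r356 (@Lb.r r154 (@Lb.r r132 (@Lb.d (nat_lit 9) (nat_lit 9) (nat_lit 18) (@Lb.fm (nat_lit 9) t221))))))))))))
noncomputable def l2580 : Lb := (@Lb.d (nat_lit 1) (nat_lit 2) (nat_lit 130) (@Lb.g g8 (@Lb.g g9 (@Lb.g g10 (@Lb.g g11 (@Lb.r r427 (@Lb.r r106 (@Lb.r r25 (@Lb.d (nat_lit 0) (nat_lit 73) (nat_lit 137) (@Lb.fp (nat_lit 9) t51))))))))))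
noncomputable def l2581 : Lb := (@Lb.d (nat_lit 8) (nat_lit 514) (nat_lit 130) (@Lb.g g9 (@Lb.g g10 (@Lb.g g11 (@Lb.r r419 (@Lb.r r98 (@Lb.d (nat_lit 4) (nat_lit 73) (nat_lit 137) (@Lb.t (@Lb.fm (nat_lit 9) t51)))))))))
noncomputable def l2582 : Lb := (@Lb.d (nat_lit 1) (nat_lit 266) (nat_lit 128) (@Lb.g g4 (@Lb.g g9 (@Lb.g g11 (@Lb.r r2450 (@Lb.r r2659 (@Lb.r r1633 (@Lb.d (nat_lit 1) (nat_lit 153) (nat_lit 514) (@Lb.t (@Lb.fm (nat_lit 9) t843))))))))))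
noncomputable def l2583 : Lb := (@Lb.d (nat_lit 0) (nat_lit 266) (nat_lit 128) (@Lb.g g9 (@Lb.g g11 (@Lb.r r2450 (@Lb.r r2659 (@Lb.r r1633 (@Lb.r r8 (@Lb.d (nat_lit 2) (nat_lit 153) (nat_lit 514) (@Lb.fm (nat_lit 3) t843)))))))))
noncomputable def l2584 : Lb := (@Lb.d (nat_lit 1) (nat_lit 522) (nat_lit 128) (@Lb.g g4 (@Lb.g g9 (@Lb.g g11 (@Lb.r r2450 (@Lb.r r2659 (@Lb.r r1633 (@Lb.d (nat_lit 8) (nat_lit 89) (nat_lit 514) (@Lb.t (@Lb.fm (nat_lit 9) t844))))))))))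
noncomputable def l2585 : Lb := (@Lb.r r21 (@Lb.r r70 (@Lb.r r263 (@Lb.d (nat_lit 2) (nat_lit 0) (nat_lit 0) (@Lb.g g8 (@Lb.r r267 (@Lb.r r74 (@Lb.r r25 (@Lb.d (nat_lit 2) (nat_lit 66) (nat_lit 0) (@Lb.t (@Lb.fp (nat_lit 3) t352)))))))))))
noncomputable def l2586 : Lb := (@Lb.d (nat_lit 10) (nat_lit 2) (nat_lit 130) (@Lb.g g8 (@Lb.g g9 (@Lb.g g10 (@Lb.g g11 (@Lb.r r2731 (@Lb.r r2601 (@Lb.r r616 (@Lb.r r2118 (@Lb.r r1156 (@Lb.d (nat_lit 9) (nat_lit 153) (nat_lit 297) (@Lb.fm (nat_lit 9) t591))))))))))))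
noncomputable def l2587 : Lb := (@Lb.d (nat_lit 386) (nat_lit 640) (nat_lit 394) (@Lb.r r1321 (@Lb.r r1444 (@Lb.r r134 (@Lb.r r2707 (@Lb.g g9 (@Lb.t (@Lb.fm (nat_lit 3) t845))))))))
noncomputable def l2588 : Lb := (@Lb.r r21 (@Lb.r r70 (@Lb.r r263 (@Lb.d (nat_lit 522) (nat_lit 256) (nat_lit 0) (@Lb.g g4 (@Lb.r r267 (@Lb.r r74 (@Lb.r r25 (@Lb.d (nat_lit 262) (nat_lit 129) (nat_lit 0) (@Lb.t (@Lb.fm (nat_lit 3) t74)))))))))))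
noncomputable def l2589 : Lb := (@Lb.d (nat_lit 34) (nat_lit 0) (nat_lit 0) (@Lb.g g8 (@Lb.r r289 (@Lb.r r2579 (@Lb.r r582 (@Lb.r r2180 (@Lb.d (nat_lit 546) (nat_lit 0) (nat_lit 153) (@Lb.t (@Lb.fp (nat_lit 3) t351)))))))))
noncomputable def l2590 : Lb := (@Lb.d (nat_lit 2) (nat_lit 258) (nat_lit 130) (@Lb.g g8 (@Lb.g g9 (@Lb.g g10 (@Lb.g g11 (@Lb.r r586 (@Lb.r r600 (@Lb.r r293 (@Lb.r r539 (@Lb.r r516 (@Lb.d (nat_lit 9) (nat_lit 73) (nat_lit 642) (@Lb.fm (nat_lit 9) t387))))))))))))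
noncomputable def l2591 : Lb := (@Lb.d (nat_lit 138) (nat_lit 514) (nat_lit 128) (@Lb.r r289 (@Lb.r r279 (@Lb.r r584 (@Lb.r r358 (@Lb.g g7 (@Lb.d (nat_lit 0) (nat_lit 0) (nat_lit 64) (@Lb.t (@Lb.fm (nat_lit 3) t510)))))))))
noncomputable def l2592 : Lb := (@Lb.d (nat_lit 37) (nat_lit 329) (nat_lit 81) (@Lb.r r289 (@Lb.r r1626 (@Lb.r r1384 (@Lb.g g7 (@Lb.g g6 (@Lb.d (nat_lit 16) (nat_lit 16) (nat_lit 640) (@Lb.fm (nat_lit 3) t731))))))))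
noncomputable def l2593 : Lb := (@Lb.r r82 (@Lb.r r275 (@Lb.d (nat_lit 2) (nat_lit 512) (nat_lit 0) (@Lb.g g8 (@Lb.g g9 (@Lb.r r299 (@Lb.r r106 (@Lb.r r25 (@Lb.d (nat_lit 2) (nat_lit 0) (nat_lit 0) (@Lb.fm (nat_lit 3) t238))))))))))
noncomputable def l2594 : Lb := (@Lb.d (nat_lit 6) (nat_lit 514) (nat_lit 0) (@Lb.r r289 (@Lb.r r279 (@Lb.r r584 (@Lb.r r326 (@Lb.g g7 (@Lb.g g6 (@Lb.d (nat_lit 0) (nat_lit 0) (nat_lit 65) (@Lb.fm (nat_lit 3) t68)))))))))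
noncomputable def l2595 : Lb := (@Lb.r r82 (@Lb.d (nat_lit 8) (nat_lit 514) (nat_lit 128) (@Lb.g g9 (@Lb.g g11 (@Lb.r r586 (@Lb.r r611 (@Lb.r r280 (@Lb.r r613 (@Lb.d (nat_lit 148) (nat_lit 8) (nat_lit 128) (@Lb.fp (nat_lit 3) t510))))))))))
noncomputable def l2596 : Lb := (@Lb.d (nat_lit 2) (nat_lit 545) (nat_lit 130) (@Lb.g g8 (@Lb.g g9 (@Lb.g g10 (@Lb.g g11 (@Lb.r r683 (@Lb.r r610 (@Lb.r r548 (@Lb.r r613 (@Lb.d (nat_lit 149) (nat_lit 70) (nat_lit 152) (@Lb.fp (nat_lit 9) t846)))))))))))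
noncomputable def l2597 : Lb := (@Lb.r r82 (@Lb.d (nat_lit 34) (nat_lit 258) (nat_lit 128) (@Lb.g g8 (@Lb.g g9 (@Lb.g g11 (@Lb.r r2658 (@Lb.r r2667 (@Lb.r r2664 (@Lb.r r2073 (@Lb.d (nat_lit 2) (nat_lit 153) (nat_lit 138) (@Lb.t (@Lb.fm (nat_lit 9) t847))))))))))))
noncomputable def l2598 : Lb := (@Lb.d (nat_lit 388) (nat_lit 592) (nat_lit 320) (@Lb.r r1560 (@Lb.r r82 (@Lb.r r1307 (@Lb.g g9 (@Lb.g g4 (@Lb.d (nat_lit 70) (nat_lit 2) (nat_lit 0) (@Lb.r r98 (@Lb.fm (nat_lit 3) t847)))))))))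
noncomputable def l2599 : Lb := (@Lb.d (nat_lit 0) (nat_lit 288) (nat_lit 130) (@Lb.g g9 (@Lb.g g10 (@Lb.g g11 (@Lb.r r2387 (@Lb.r r1702 (@Lb.r r1636 (@Lb.r r1557 (@Lb.d (nat_lit 385) (nat_lit 81) (nat_lit 576) (@Lb.t (@Lb.fp (nat_lit 9) t848)))))))))))
noncomputable def l2600 : Lb := (@Lb.d (nat_lit 261) (nat_lit 293) (nat_lit 358) (@Lb.r r1044 (@Lb.r r25 (@Lb.r r2370 (@Lb.r r1691 (@Lb.g g6 (@Lb.g g4 (@Lb.d (nat_lit 38) (nat_lit 0) (nat_lit 0) (@Lb.fp (nat_lit 3) t732)))))))))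
noncomputable def l2601 : Lb := (@Lb.d (nat_lit 8) (nat_lit 33) (nat_lit 130) (@Lb.g g9 (@Lb.g g10 (@Lb.g g11 (@Lb.r r387 (@Lb.r r386 (@Lb.r r2328 (@Lb.r r2581 (@Lb.d (nat_lit 676) (nat_lit 162) (nat_lit 360) (@Lb.t (@Lb.fm (nat_lit 9) t159)))))))))))
noncomputable def l2602 : Lb := (@Lb.r r21 (@Lb.d (nat_lit 129) (nat_lit 0) (nat_lit 130) (@Lb.g g8 (@Lb.g g10 (@Lb.g g11 (@Lb.r r1176 (@Lb.r r677 (@Lb.r r1443 (@Lb.r r98 (@Lb.d (nat_lit 548) (nat_lit 149) (nat_lit 293) (@Lb.t (@Lb.fm (nat_lit 9) t849))))))))))))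
noncomputable def l2603 : Lb := (@Lb.d (nat_lit 0) (nat_lit 610) (nat_lit 0) (@Lb.r r68 (@Lb.r r289 (@Lb.r r106 (@Lb.r r584 (@Lb.g g7 (@Lb.t (@Lb.fm (nat_lit 3) t261))))))))
noncomputable def l2604 : Lb := (@Lb.d (nat_lit 1) (nat_lit 658) (nat_lit 389) (@Lb.r r579 (@Lb.r r1362 (@Lb.g g7 (@Lb.g g6 (@Lb.g g5 (@Lb.d (nat_lit 4) (nat_lit 1) (nat_lit 65) (@Lb.t (@Lb.fm (nat_lit 9) t285)))))))))
noncomputable def l2605 : Lb := (@Lb.d (nat_lit 1) (nat_lit 402) (nat_lit 389) (@Lb.r r579 (@Lb.r r1362 (@Lb.g g7 (@Lb.g g6 (@Lb.g g5 (@Lb.d (nat_lit 4) (nat_lit 1) (nat_lit 134) (@Lb.t (@Lb.fm (nat_lit 9) t285)))))))))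
noncomputable def l2606 : Lb := (@Lb.d (nat_lit 614) (nat_lit 416) (nat_lit 69) (@Lb.r r410 (@Lb.r r148 (@Lb.r r1365 (@Lb.r r2343 (@Lb.g g7 (@Lb.g g6 (@Lb.g g5 (@Lb.d (nat_lit 16) (nat_lit 0) (nat_lit 65) (@Lb.t (@Lb.fm (nat_lit 9) t850)))))))))))
noncomputable def l2607 : Lb := (@Lb.d (nat_lit 9) (nat_lit 514) (nat_lit 130) (@Lb.g g8 (@Lb.g g9 (@Lb.g g10 (@Lb.g g11 (@Lb.r r2731 (@Lb.r r2601 (@Lb.r r616 (@Lb.r r2118 (@Lb.r r1156 (@Lb.d (nat_lit 9) (nat_lit 153) (nat_lit 425) (@Lb.fm (nat_lit 9) t851))))))))))))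
noncomputable def l2608 : Lb := (@Lb.r r323 (@Lb.d (nat_lit 32) (nat_lit 40) (nat_lit 1) (@Lb.g g9 (@Lb.g g10 (@Lb.r r279 (@Lb.r r548 (@Lb.r r661 (@Lb.d (nat_lit 166) (nat_lit 22) (nat_lit 137) (@Lb.fm (nat_lit 3) t852)))))))))
noncomputable def l2609 : Lb := (@Lb.d (nat_lit 609) (nat_lit 672) (nat_lit 86) (@Lb.r r359 (@Lb.r r532 (@Lb.r r281 (@Lb.g g7 (@Lb.g g10 (@Lb.g g5 (@Lb.d (nat_lit 64) (nat_lit 1) (nat_lit 81) (@Lb.t (@Lb.fm (nat_lit 9) t853))))))))))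
noncomputable def l2610 : Lb := (@Lb.r r323 (@Lb.d (nat_lit 40) (nat_lit 553) (nat_lit 1) (@Lb.g g9 (@Lb.g g10 (@Lb.r r283 (@Lb.r r280 (@Lb.r r613 (@Lb.d (nat_lit 144) (nat_lit 90) (nat_lit 649) (@Lb.fm (nat_lit 3) t854)))))))))
noncomputable def l2611 : Lb := (@Lb.d (nat_lit 1) (nat_lit 146) (nat_lit 389) (@Lb.r r579 (@Lb.r r1362 (@Lb.g g6 (@Lb.g g5 (@Lb.d (nat_lit 4) (nat_lit 1) (nat_lit 1) (@Lb.fp (nat_lit 3) t285)))))))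
noncomputable def l2612 : Lb := (@Lb.d (nat_lit 2) (nat_lit 33) (nat_lit 130) (@Lb.g g8 (@Lb.g g9 (@Lb.g g10 (@Lb.g g11 (@Lb.r r1689 (@Lb.r r531 (@Lb.r r386 (@Lb.r r24 (@Lb.d (nat_lit 598) (nat_lit 40) (nat_lit 601) (@Lb.fm (nat_lit 9) t855)))))))))))
noncomputable def l2613 : Lb := (@Lb.d (nat_lit 2) (nat_lit 0) (nat_lit 130) (@Lb.g g8 (@Lb.g g10 (@Lb.g g11 (@Lb.r r516 (@Lb.r r263 (@Lb.r r161 (@Lb.r r98 (@Lb.r r516 (@Lb.d (nat_lit 530) (nat_lit 6) (nat_lit 145) (@Lb.t (@Lb.fp (nat_lit 9) t420))))))))))))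
noncomputable def l2614 : Lb := (@Lb.d (nat_lit 128) (nat_lit 256) (nat_lit 130) (@Lb.g g10 (@Lb.g g11 (@Lb.r r264 (@Lb.r r519 (@Lb.r r161 (@Lb.r r98 (@Lb.d (nat_lit 658) (nat_lit 6) (nat_lit 81) (@Lb.fp (nat_lit 3) t420)))))))))
noncomputable def l2615 : Lb := (@Lb.r r82 (@Lb.d (nat_lit 645) (nat_lit 264) (nat_lit 128) (@Lb.g g4 (@Lb.g g9 (@Lb.g g11 (@Lb.r r1370 (@Lb.r r1411 (@Lb.r r1553 (@Lb.d (nat_lit 353) (nat_lit 98) (nat_lit 346) (@Lb.t (@Lb.fp (nat_lit 9) t856)))))))))))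
noncomputable def l2616 : Lb := (@Lb.d (nat_lit 32) (nat_lit 264) (nat_lit 130) (@Lb.g g10 (@Lb.g g11 (@Lb.r r324 (@Lb.r r651 (@Lb.r r357 (@Lb.r r666 (@Lb.d (nat_lit 74) (nat_lit 42) (nat_lit 9) (@Lb.fp (nat_lit 3) t167)))))))))
noncomputable def l2617 : Lb := (@Lb.d (nat_lit 10) (nat_lit 256) (nat_lit 130) (@Lb.g g8 (@Lb.g g10 (@Lb.g g11 (@Lb.r r293 (@Lb.r r279 (@Lb.r r386 (@Lb.r r548 (@Lb.d (nat_lit 34) (nat_lit 148) (nat_lit 262) (@Lb.t (@Lb.fm (nat_lit 9) t857)))))))))))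
noncomputable def l2618 : Lb := (@Lb.r r82 (@Lb.r r275 (@Lb.d (nat_lit 34) (nat_lit 642) (nat_lit 0) (@Lb.g g8 (@Lb.g g5 (@Lb.r r2579 (@Lb.r r582 (@Lb.r r388 (@Lb.d (nat_lit 98) (nat_lit 82) (nat_lit 10) (@Lb.fm (nat_lit 3) t858))))))))))
noncomputable def l2619 : Lb := (@Lb.d (nat_lit 646) (nat_lit 512) (nat_lit 645) (@Lb.r r2587 (@Lb.r r2712 (@Lb.r r2714 (@Lb.r r353 (@Lb.g g7 (@Lb.g g6 (@Lb.g g4 (@Lb.d (nat_lit 1) (nat_lit 16) (nat_lit 65) (@Lb.t (@Lb.fp (nat_lit 9) t51)))))))))))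
noncomputable def l2620 : Lb := (@Lb.d (nat_lit 2) (nat_lit 2) (nat_lit 10) (@Lb.g g8 (@Lb.g g9 (@Lb.g g10 (@Lb.r r323 (@Lb.r r2626 (@Lb.r r25 (@Lb.d (nat_lit 9) (nat_lit 80) (nat_lit 426) (@Lb.t (@Lb.fm (nat_lit 9) t210))))))))))
noncomputable def l2621 : Lb := (@Lb.d (nat_lit 2) (nat_lit 2) (nat_lit 0) (@Lb.g g8 (@Lb.g g9 (@Lb.r r406 (@Lb.r r579 (@Lb.r r25 (@Lb.d (nat_lit 9) (nat_lit 16) (nat_lit 64) (@Lb.fm (nat_lit 3) t51))))))))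
noncomputable def l2622 : Lb := (@Lb.d (nat_lit 5) (nat_lit 150) (nat_lit 664) (@Lb.r r24 (@Lb.r r2401 (@Lb.g g11 (@Lb.g g10 (@Lb.g g5 (@Lb.g g4 (@Lb.d (nat_lit 1) (nat_lit 42) (nat_lit 406) (@Lb.fp (nat_lit 9) t51)))))))))
noncomputable def l2623 : Lb := (@Lb.d (nat_lit 2) (nat_lit 258) (nat_lit 128) (@Lb.g g8 (@Lb.g g9 (@Lb.g g10 (@Lb.g g11 (@Lb.r r1689 (@Lb.r r658 (@Lb.r r387 (@Lb.d (nat_lit 545) (nat_lit 0) (nat_lit 393) (@Lb.fm (nat_lit 9) t296))))))))))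
noncomputable def l2624 : Lb := (@Lb.d (nat_lit 1) (nat_lit 2) (nat_lit 130) (@Lb.g g8 (@Lb.g g9 (@Lb.g g10 (@Lb.g g11 (@Lb.r r427 (@Lb.r r106 (@Lb.r r25 (@Lb.d (nat_lit 8) (nat_lit 9) (nat_lit 137) (@Lb.fp (nat_lit 9) t51))))))))))
noncomputable def l2625 : Lb := (@Lb.d (nat_lit 10) (nat_lit 264) (nat_lit 130) (@Lb.g g8 (@Lb.g g10 (@Lb.g g11 (@Lb.r r353 (@Lb.r r407 (@Lb.r r612 (@Lb.r r154 (@Lb.d (nat_lit 18) (nat_lit 0) (nat_lit 6) (@Lb.t (@Lb.fm (nat_lit 9) t45)))))))))))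
noncomputable def l2626 : Lb := (@Lb.d (nat_lit 128) (nat_lit 520) (nat_lit 130) (@Lb.g g10 (@Lb.g g11 (@Lb.r r264 (@Lb.r r519 (@Lb.r r101 (@Lb.r r154 (@Lb.d (nat_lit 146) (nat_lit 0) (nat_lit 128) (@Lb.fm (nat_lit 3) t45)))))))))
noncomputable def l2627 : Lb := (@Lb.r r275 (@Lb.d (nat_lit 8) (nat_lit 256) (nat_lit 2) (@Lb.g g9 (@Lb.g g10 (@Lb.r r2392 (@Lb.r r1543 (@Lb.r r386 (@Lb.r r1105 (@Lb.d (nat_lit 1) (nat_lit 70) (nat_lit 153) (@Lb.fp (nat_lit 3) t732))))))))))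
noncomputable def l2628 : Lb := (@Lb.d (nat_lit 10) (nat_lit 0) (nat_lit 130) (@Lb.g g8 (@Lb.g g10 (@Lb.g g11 (@Lb.r r293 (@Lb.r r279 (@Lb.r r98 (@Lb.r r548 (@Lb.d (nat_lit 154) (nat_lit 25) (nat_lit 4) (@Lb.t (@Lb.fp (nat_lit 9) t494)))))))))))
noncomputable def l2629 : Lb := (@Lb.r r82 (@Lb.d (nat_lit 34) (nat_lit 394) (nat_lit 128) (@Lb.g g8 (@Lb.g g9 (@Lb.g g11 (@Lb.r r1451 (@Lb.r r582 (@Lb.r r388 (@Lb.d (nat_lit 98) (nat_lit 130) (nat_lit 137) (@Lb.t (@Lb.fm (nat_lit 9) t859)))))))))))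
noncomputable def l2630 : Lb := (@Lb.d (nat_lit 2) (nat_lit 2) (nat_lit 66) (@Lb.g g8 (@Lb.g g9 (@Lb.g g10 (@Lb.g g7 (@Lb.r r386 (@Lb.r r97 (@Lb.r r24 (@Lb.d (nat_lit 5) (nat_lit 8) (nat_lit 9) (@Lb.fp (nat_lit 9) t40))))))))))
noncomputable def l2631 : Lb := (@Lb.d (nat_lit 0) (nat_lit 258) (nat_lit 66) (@Lb.g g8 (@Lb.g g9 (@Lb.g g10 (@Lb.g g7 (@Lb.r r386 (@Lb.r r97 (@Lb.r r24 (@Lb.d (nat_lit 10) (nat_lit 9) (nat_lit 9) (@Lb.fp (nat_lit 9) t40))))))))))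
noncomputable def l2632 : Lb := (@Lb.d (nat_lit 32) (nat_lit 289) (nat_lit 0) (@Lb.g g8 (@Lb.g g9 (@Lb.r r150 (@Lb.r r360 (@Lb.r r1319 (@Lb.d (nat_lit 584) (nat_lit 72) (nat_lit 596) (@Lb.fm (nat_lit 3) t559))))))))
noncomputable def l2633 : Lb := (@Lb.d (nat_lit 517) (nat_lit 66) (nat_lit 16) (@Lb.r r24 (@Lb.r r1174 (@Lb.r r2401 (@Lb.r r2707 (@Lb.g g7 (@Lb.g g6 (@Lb.d (nat_lit 0) (nat_lit 0) (nat_lit 64) (@Lb.fm (nat_lit 3) t860)))))))))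
noncomputable def l2634 : Lb := (@Lb.r r355 (@Lb.d (nat_lit 0) (nat_lit 4) (nat_lit 33) (@Lb.g g9 (@Lb.g g10 (@Lb.r r1288 (@Lb.r r1687 (@Lb.r r1441 (@Lb.d (nat_lit 0) (nat_lit 9) (nat_lit 420) (@Lb.fp (nat_lit 3) t861)))))))))
noncomputable def l2635 : Lb := (@Lb.g g5 (@Lb.r r1379 (@Lb.r r89 (@Lb.r r1126 (@Lb.r r24 (@Lb.d (nat_lit 262) (nat_lit 576) (nat_lit 32) (@Lb.t (@Lb.fp (nat_lit 3) t862))))))))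
noncomputable def l2636 : Lb := (@Lb.d (nat_lit 2) (nat_lit 521) (nat_lit 129) (@Lb.g g8 (@Lb.g g9 (@Lb.g g10 (@Lb.g g11 (@Lb.r r2705 (@Lb.r r2707 (@Lb.r r644 (@Lb.r r2630 (@Lb.r r132 (@Lb.d (nat_lit 642) (nat_lit 66) (nat_lit 354) (@Lb.fm (nat_lit 9) t863))))))))))))
noncomputable def l2637 : Lb := (@Lb.d (nat_lit 324) (nat_lit 648) (nat_lit 132) (@Lb.r r21 (@Lb.r r2659 (@Lb.r r2406 (@Lb.g g6 (@Lb.g g5 (@Lb.g g4 (@Lb.d (nat_lit 1) (nat_lit 8) (nat_lit 0) (@Lb.t (@Lb.fm (nat_lit 9) t864))))))))))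
noncomputable def l2638 : Lb := (@Lb.r r81 (@Lb.r r323 (@Lb.d (nat_lit 10) (nat_lit 0) (nat_lit 33) (@Lb.g g8 (@Lb.g g6 (@Lb.r r387 (@Lb.r r149 (@Lb.r r104 (@Lb.d (nat_lit 358) (nat_lit 10) (nat_lit 594) (@Lb.fm (nat_lit 3) t865))))))))))
noncomputable def l2639 : Lb := (@Lb.d (nat_lit 101) (nat_lit 357) (nat_lit 72) (@Lb.r r101 (@Lb.r r386 (@Lb.r r339 (@Lb.g g7 (@Lb.g g6 (@Lb.d (nat_lit 0) (nat_lit 0) (nat_lit 65) (@Lb.fm (nat_lit 3) t50))))))))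
noncomputable def l2640 : Lb := (@Lb.d (nat_lit 293) (nat_lit 385) (nat_lit 17) (@Lb.r r1432 (@Lb.r r361 (@Lb.r r2146 (@Lb.r r1383 (@Lb.g g7 (@Lb.g g6 (@Lb.g g5 (@Lb.d (nat_lit 0) (nat_lit 6) (nat_lit 65) (@Lb.t (@Lb.fp (nat_lit 9) t866)))))))))))
noncomputable def l2641 : Lb := (@Lb.d (nat_lit 512) (nat_lit 256) (nat_lit 85) (@Lb.r r24 (@Lb.r r101 (@Lb.r r402 (@Lb.r r1379 (@Lb.g g6 (@Lb.t (@Lb.fp (nat_lit 3) t867))))))))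
noncomputable def l2642 : Lb := (@Lb.d (nat_lit 2) (nat_lit 258) (nat_lit 66) (@Lb.g g8 (@Lb.g g9 (@Lb.g g10 (@Lb.g g7 (@Lb.r r386 (@Lb.r r97 (@Lb.r r24 (@Lb.d (nat_lit 330) (nat_lit 9) (nat_lit 521) (@Lb.fp (nat_lit 9) t166))))))))))
noncomputable def l2643 : Lb := (@Lb.r r323 (@Lb.d (nat_lit 2) (nat_lit 2) (nat_lit 1) (@Lb.g g8 (@Lb.g g9 (@Lb.g g6 (@Lb.r r2667 (@Lb.r r97 (@Lb.r r24 (@Lb.d (nat_lit 266) (nat_lit 9) (nat_lit 128) (@Lb.t (@Lb.fm (nat_lit 9) t457)))))))))))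
noncomputable def l2644 : Lb := (@Lb.d (nat_lit 65) (nat_lit 0) (nat_lit 593) (@Lb.r r24 (@Lb.r r101 (@Lb.r r2658 (@Lb.r r2467 (@Lb.g g7 (@Lb.g g6 (@Lb.d (nat_lit 0) (nat_lit 0) (nat_lit 72) (@Lb.fm (nat_lit 3) t868)))))))))
noncomputable def l2645 : Lb := (@Lb.r r263 (@Lb.d (nat_lit 128) (nat_lit 2) (nat_lit 1) (@Lb.g g8 (@Lb.g g9 (@Lb.g g10 (@Lb.r r1386 (@Lb.r r1431 (@Lb.r r97 (@Lb.r r660 (@Lb.d (nat_lit 166) (nat_lit 37) (nat_lit 90) (@Lb.t (@Lb.fp (nat_lit 9) t4))))))))))))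
noncomputable def l2646 : Lb := (@Lb.d (nat_lit 256) (nat_lit 258) (nat_lit 98) (@Lb.r r134 (@Lb.r r328 (@Lb.r r407 (@Lb.g g9 (@Lb.g g4 (@Lb.d (nat_lit 6) (nat_lit 26) (nat_lit 0) (@Lb.fp (nat_lit 3) t869))))))))
noncomputable def l2647 : Lb := (@Lb.d (nat_lit 660) (nat_lit 409) (nat_lit 676) (@Lb.r r2321 (@Lb.r r2371 (@Lb.r r2726 (@Lb.g g7 (@Lb.g g6 (@Lb.g g5 (@Lb.g g8 (@Lb.d (nat_lit 330) (nat_lit 0) (nat_lit 65) (@Lb.fp (nat_lit 9) t870))))))))))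
noncomputable def l2648 : Lb := (@Lb.d (nat_lit 272) (nat_lit 10) (nat_lit 676) (@Lb.r r2371 (@Lb.r r658 (@Lb.r r101 (@Lb.g g7 (@Lb.g g8 (@Lb.d (nat_lit 584) (nat_lit 0) (nat_lit 64) (@Lb.r r74 (@Lb.r r25 (@Lb.fp (nat_lit 3) t435))))))))))
noncomputable def l2649 : Lb := (@Lb.d (nat_lit 578) (nat_lit 601) (nat_lit 660) (@Lb.r r289 (@Lb.r r1354 (@Lb.r r1112 (@Lb.r r1387 (@Lb.g g7 (@Lb.g g6 (@Lb.g g5 (@Lb.d (nat_lit 0) (nat_lit 5) (nat_lit 66) (@Lb.t (@Lb.fp (nat_lit 9) t871)))))))))))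
noncomputable def l2650 : Lb := (@Lb.r r323 (@Lb.d (nat_lit 2) (nat_lit 265) (nat_lit 0) (@Lb.g g8 (@Lb.g g9 (@Lb.g g6 (@Lb.r r387 (@Lb.r r97 (@Lb.r r24 (@Lb.d (nat_lit 10) (nat_lit 9) (nat_lit 2) (@Lb.t (@Lb.fp (nat_lit 9) t68)))))))))))
noncomputable def l2651 : Lb := (@Lb.d (nat_lit 16) (nat_lit 9) (nat_lit 130) (@Lb.g g8 (@Lb.g g9 (@Lb.g g10 (@Lb.g g11 (@Lb.r r2210 (@Lb.r r552 (@Lb.r r2713 (@Lb.r r2587 (@Lb.r r2564 (@Lb.d (nat_lit 10) (nat_lit 9) (nat_lit 345) (@Lb.fm (nat_lit 9) t872))))))))))))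
noncomputable def l2652 : Lb := (@Lb.d (nat_lit 0) (nat_lit 0) (nat_lit 136) (@Lb.g g11 (@Lb.r r24 (@Lb.r r101 (@Lb.d (nat_lit 0) (nat_lit 81) (nat_lit 297) (@Lb.t (@Lb.fp (nat_lit 3) t153)))))))
noncomputable def l2653 : Lb := (@Lb.d (nat_lit 530) (nat_lit 261) (nat_lit 18) (@Lb.r r1158 (@Lb.r r2132 (@Lb.r r2345 (@Lb.r r2707 (@Lb.g g7 (@Lb.g g6 (@Lb.g g4 (@Lb.d (nat_lit 2) (nat_lit 0) (nat_lit 64) (@Lb.t (@Lb.fm (nat_lit 9) t873)))))))))))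
noncomputable def l2654 : Lb := (@Lb.r r81 (@Lb.d (nat_lit 1) (nat_lit 8) (nat_lit 162) (@Lb.g g8 (@Lb.g g6 (@Lb.g g11 (@Lb.r r2715 (@Lb.r r1445 (@Lb.r r2628 (@Lb.d (nat_lit 660) (nat_lit 65) (nat_lit 426) (@Lb.t (@Lb.fp (nat_lit 9) t874)))))))))))
noncomputable def l2655 : Lb := (@Lb.d (nat_lit 261) (nat_lit 1) (nat_lit 1) (@Lb.r r1158 (@Lb.r r2376 (@Lb.r r279 (@Lb.r r1697 (@Lb.g g6 (@Lb.r r387 (@Lb.r r145 (@Lb.t (@Lb.fp (nat_lit 3) t719))))))))))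
noncomputable def l2656 : Lb := (@Lb.d (nat_lit 529) (nat_lit 5) (nat_lit 18) (@Lb.r r1158 (@Lb.r r2132 (@Lb.r r2345 (@Lb.r r2707 (@Lb.g g7 (@Lb.g g6 (@Lb.g g4 (@Lb.d (nat_lit 1) (nat_lit 0) (nat_lit 64) (@Lb.t (@Lb.fm (nat_lit 9) t873)))))))))))
noncomputable def l2657 : Lb := (@Lb.d (nat_lit 0) (nat_lit 264) (nat_lit 2) (@Lb.g g10 (@Lb.r r1427 (@Lb.r r101 (@Lb.r r24 (@Lb.d (nat_lit 514) (nat_lit 0) (nat_lit 2) (@Lb.t (@Lb.fp (nat_lit 3) t145))))))))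
noncomputable def l2658 : Lb := (@Lb.r r82 (@Lb.d (nat_lit 0) (nat_lit 640) (nat_lit 128) (@Lb.g g9 (@Lb.g g11 (@Lb.r r419 (@Lb.r r386 (@Lb.d (nat_lit 0) (nat_lit 26) (nat_lit 394) (@Lb.fp (nat_lit 3) t875))))))))
noncomputable def l2659 : Lb := (@Lb.d (nat_lit 0) (nat_lit 330) (nat_lit 261) (@Lb.r r386 (@Lb.r r275 (@Lb.g g9 (@Lb.d (nat_lit 0) (nat_lit 90) (nat_lit 0) (@Lb.r r291 (@Lb.r r98 (@Lb.t (@Lb.fm (nat_lit 3) t875)))))))))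
noncomputable def l2660 : Lb := (@Lb.d (nat_lit 0) (nat_lit 266) (nat_lit 130) (@Lb.g g9 (@Lb.g g10 (@Lb.g g11 (@Lb.r r2722 (@Lb.r r1419 (@Lb.r r1557 (@Lb.r r1416 (@Lb.d (nat_lit 537) (nat_lit 137) (nat_lit 18) (@Lb.t (@Lb.fm (nat_lit 9) t876)))))))))))
noncomputable def l2661 : Lb := (@Lb.d (nat_lit 133) (nat_lit 168) (nat_lit 614) (@Lb.r r532 (@Lb.r r1305 (@Lb.r r602 (@Lb.r r1667 (@Lb.g g6 (@Lb.g g4 (@Lb.d (nat_lit 36) (nat_lit 0) (nat_lit 1) (@Lb.fp (nat_lit 3) t877)))))))))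
noncomputable def l2662 : Lb := (@Lb.d (nat_lit 18) (nat_lit 512) (nat_lit 136) (@Lb.r r104 (@Lb.r r609 (@Lb.r r402 (@Lb.r r551 (@Lb.g g4 (@Lb.d (nat_lit 65) (nat_lit 0) (nat_lit 0) (@Lb.t (@Lb.fm (nat_lit 3) t167)))))))))
noncomputable def l2663 : Lb := (@Lb.r r263 (@Lb.d (nat_lit 2) (nat_lit 258) (nat_lit 2) (@Lb.g g8 (@Lb.g g9 (@Lb.g g10 (@Lb.r r676 (@Lb.r r519 (@Lb.r r386 (@Lb.r r97 (@Lb.d (nat_lit 0) (nat_lit 168) (nat_lit 329) (@Lb.t (@Lb.fp (nat_lit 9) t878))))))))))))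
noncomputable def l2664 : Lb := (@Lb.d (nat_lit 326) (nat_lit 101) (nat_lit 357) (@Lb.r r2452 (@Lb.r r681 (@Lb.r r363 (@Lb.g g10 (@Lb.g g5 (@Lb.g g4 (@Lb.d (nat_lit 82) (nat_lit 8) (nat_lit 33) (@Lb.r r387 (@Lb.t (@Lb.fp (nat_lit 9) t879)))))))))))
noncomputable def l2665 : Lb := (@Lb.r r275 (@Lb.d (nat_lit 10) (nat_lit 257) (nat_lit 2) (@Lb.g g8 (@Lb.g g9 (@Lb.g g10 (@Lb.r r595 (@Lb.r r2154 (@Lb.r r2152 (@Lb.r r2073 (@Lb.d (nat_lit 581) (nat_lit 170) (nat_lit 386) (@Lb.t (@Lb.fm (nat_lit 9) t244))))))))))))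
noncomputable def l2666 : Lb := (@Lb.d (nat_lit 0) (nat_lit 256) (nat_lit 66) (@Lb.g g10 (@Lb.g g11 (@Lb.r r2401 (@Lb.r r2387 (@Lb.r r386 (@Lb.d (nat_lit 546) (nat_lit 170) (nat_lit 354) (@Lb.fm (nat_lit 3) t880))))))))
noncomputable def l2667 : Lb := (@Lb.r r21 (@Lb.r r323 (@Lb.d (nat_lit 41) (nat_lit 256) (nat_lit 36) (@Lb.g g8 (@Lb.g g6 (@Lb.r r1627 (@Lb.r r2341 (@Lb.r r1556 (@Lb.d (nat_lit 390) (nat_lit 161) (nat_lit 641) (@Lb.fp (nat_lit 3) t50))))))))))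
noncomputable def l2668 : Lb := (@Lb.r r275 (@Lb.d (nat_lit 0) (nat_lit 258) (nat_lit 2) (@Lb.g g9 (@Lb.g g10 (@Lb.r r595 (@Lb.r r2154 (@Lb.r r2152 (@Lb.r r2073 (@Lb.d (nat_lit 581) (nat_lit 160) (nat_lit 384) (@Lb.fm (nat_lit 3) t244))))))))))
noncomputable def l2669 : Lb := (@Lb.r r322 (@Lb.d (nat_lit 34) (nat_lit 545) (nat_lit 516) (@Lb.g g8 (@Lb.g g9 (@Lb.g g7 (@Lb.r r418 (@Lb.r r297 (@Lb.r r1384 (@Lb.d (nat_lit 404) (nat_lit 170) (nat_lit 293) (@Lb.t (@Lb.fm (nat_lit 9) t739)))))))))))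
noncomputable def l2670 : Lb := (@Lb.d (nat_lit 41) (nat_lit 1) (nat_lit 0) (@Lb.g g8 (@Lb.g g9 (@Lb.r r1699 (@Lb.r r582 (@Lb.r r1188 (@Lb.r r1557 (@Lb.d (nat_lit 650) (nat_lit 85) (nat_lit 586) (@Lb.fp (nat_lit 3) t881)))))))))
noncomputable def l2671 : Lb := (@Lb.d (nat_lit 32) (nat_lit 256) (nat_lit 1) (@Lb.g g10 (@Lb.r r292 (@Lb.r r405 (@Lb.r r342 (@Lb.r r651 (@Lb.r r644 (@Lb.d (nat_lit 292) (nat_lit 34) (nat_lit 162) (@Lb.t (@Lb.fm (nat_lit 3) t127))))))))))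
noncomputable def l2672 : Lb := (@Lb.r r275 (@Lb.d (nat_lit 0) (nat_lit 513) (nat_lit 2) (@Lb.g g9 (@Lb.g g10 (@Lb.r r599 (@Lb.r r2150 (@Lb.r r1172 (@Lb.r r2217 (@Lb.d (nat_lit 593) (nat_lit 98) (nat_lit 401) (@Lb.fm (nat_lit 3) t244))))))))))
noncomputable def l2673 : Lb := (@Lb.d (nat_lit 0) (nat_lit 0) (nat_lit 133) (@Lb.g g6 (@Lb.g g11 (@Lb.r r2659 (@Lb.r r101 (@Lb.r r24 (@Lb.d (nat_lit 161) (nat_lit 0) (nat_lit 389) (@Lb.fm (nat_lit 3) t592))))))))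
noncomputable def l2674 : Lb := (@Lb.r r283 (@Lb.d (nat_lit 2) (nat_lit 514) (nat_lit 2) (@Lb.g g8 (@Lb.g g9 (@Lb.g g10 (@Lb.r r1626 (@Lb.r r2627 (@Lb.r r297 (@Lb.r r1300 (@Lb.d (nat_lit 160) (nat_lit 86) (nat_lit 618) (@Lb.t (@Lb.fm (nat_lit 9) t882))))))))))))
noncomputable def l2675 : Lb := (@Lb.d (nat_lit 6) (nat_lit 618) (nat_lit 585) (@Lb.r r21 (@Lb.r r323 (@Lb.r r1622 (@Lb.g g7 (@Lb.g g6 (@Lb.g g5 (@Lb.g g4 (@Lb.d (nat_lit 1) (nat_lit 1) (nat_lit 129) (@Lb.fp (nat_lit 9) t883))))))))))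
noncomputable def l2676 : Lb := (@Lb.d (nat_lit 0) (nat_lit 256) (nat_lit 5) (@Lb.g g6 (@Lb.d (nat_lit 0) (nat_lit 5) (nat_lit 65) (@Lb.t (@Lb.fm (nat_lit 3) t45)))))
noncomputable def l2677 : Lb := (@Lb.d (nat_lit 0) (nat_lit 256) (nat_lit 2) (@Lb.g g10 (@Lb.g g7 (@Lb.r r386 (@Lb.d (nat_lit 0) (nat_lit 10) (nat_lit 8) (@Lb.fm (nat_lit 3) t21))))))
noncomputable def l2678 : Lb := (@Lb.d (nat_lit 0) (nat_lit 522) (nat_lit 2) (@Lb.g g10 (@Lb.t (@Lb.fp (nat_lit 3) t354))))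
noncomputable def l2679 : Lb := (@Lb.d (nat_lit 0) (nat_lit 8) (nat_lit 66) (@Lb.g g4 (@Lb.g g10 (@Lb.g g7 (@Lb.d (nat_lit 1) (nat_lit 2) (nat_lit 148) (@Lb.t (@Lb.fm (nat_lit 9) t479)))))))
noncomputable def l2680 : Lb := (@Lb.d (nat_lit 2) (nat_lit 9) (nat_lit 129) (@Lb.g g8 (@Lb.g g9 (@Lb.g g10 (@Lb.g g11 (@Lb.r r162 (@Lb.r r660 (@Lb.r r425 (@Lb.r r279 (@Lb.r r548 (@Lb.d (nat_lit 2) (nat_lit 10) (nat_lit 9) (@Lb.fp (nat_lit 9) t50))))))))))))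
noncomputable def l2681 : Lb := (@Lb.d (nat_lit 0) (nat_lit 8) (nat_lit 2) (@Lb.g g10 (@Lb.d (nat_lit 0) (nat_lit 2) (nat_lit 138) (@Lb.t (@Lb.fp (nat_lit 3) t884)))))
noncomputable def l2682 : Lb := (@Lb.d (nat_lit 6) (nat_lit 153) (nat_lit 388) (@Lb.r r21 (@Lb.r r579 (@Lb.r r1366 (@Lb.g g6 (@Lb.g g5 (@Lb.g g4 (@Lb.d (nat_lit 1) (nat_lit 1) (nat_lit 1) (@Lb.t (@Lb.fm (nat_lit 9) t647))))))))))
noncomputable def l2683 : Lb := (@Lb.r r323 (@Lb.d (nat_lit 2) (nat_lit 516) (nat_lit 42) (@Lb.g g8 (@Lb.g g9 (@Lb.g g6 (@Lb.r r387 (@Lb.r r1313 (@Lb.r r24 (@Lb.d (nat_lit 10) (nat_lit 161) (nat_lit 16) (@Lb.t (@Lb.fp (nat_lit 9) t41)))))))))))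
noncomputable def l2684 : Lb := (@Lb.d (nat_lit 0) (nat_lit 337) (nat_lit 522) (@Lb.fp (nat_lit 1) t885))
noncomputable def l2685 : Lb := (@Lb.g g7 (@Lb.d (nat_lit 0) (nat_lit 81) (nat_lit 576) (@Lb.t (@Lb.fm (nat_lit 3) t885))))
noncomputable def l2686 : Lb := (@Lb.g g6 (@Lb.r r1379 (@Lb.r r2209 (@Lb.r r1186 (@Lb.d (nat_lit 0) (nat_lit 580) (nat_lit 18) (@Lb.t (@Lb.fm (nat_lit 3) t20)))))))
noncomputable def l2687 : Lb := (@Lb.d (nat_lit 2) (nat_lit 256) (nat_lit 0) (@Lb.g g4 (@Lb.t (@Lb.fm (nat_lit 3) t2))))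
noncomputable def l2688 : Lb := (@Lb.r r323 (@Lb.d (nat_lit 9) (nat_lit 258) (nat_lit 1) (@Lb.g g8 (@Lb.g g9 (@Lb.g g6 (@Lb.r r387 (@Lb.r r2145 (@Lb.r r24 (@Lb.d (nat_lit 8) (nat_lit 73) (nat_lit 98) (@Lb.t (@Lb.fp (nat_lit 9) t167)))))))))))
noncomputable def l2689 : Lb := (@Lb.d (nat_lit 280) (nat_lit 85) (nat_lit 546) (@Lb.r r1380 (@Lb.r r2149 (@Lb.r r346 (@Lb.g g7 (@Lb.g g4 (@Lb.d (nat_lit 21) (nat_lit 32) (nat_lit 320) (@Lb.fp (nat_lit 3) t152))))))))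
noncomputable def l2690 : Lb := (@Lb.d (nat_lit 129) (nat_lit 2) (nat_lit 130) (@Lb.g g8 (@Lb.g g9 (@Lb.g g10 (@Lb.g g11 (@Lb.r r683 (@Lb.r r618 (@Lb.r r537 (@Lb.r r516 (@Lb.d (nat_lit 137) (nat_lit 9) (nat_lit 129) (@Lb.fm (nat_lit 9) t128)))))))))))
noncomputable def l2691 : Lb := (@Lb.d (nat_lit 0) (nat_lit 0) (nat_lit 2) (@Lb.g g10 (@Lb.r r2435 (@Lb.r r386 (@Lb.d (nat_lit 0) (nat_lit 0) (nat_lit 420) (@Lb.t (@Lb.fm (nat_lit 3) t2)))))))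
noncomputable def l2692 : Lb := (@Lb.r r323 (@Lb.d (nat_lit 0) (nat_lit 258) (nat_lit 1) (@Lb.g g9 (@Lb.g g6 (@Lb.r r387 (@Lb.r r104 (@Lb.r r25 (@Lb.d (nat_lit 22) (nat_lit 73) (nat_lit 82) (@Lb.fm (nat_lit 3) t886)))))))))
noncomputable def l2693 : Lb := (@Lb.d (nat_lit 578) (nat_lit 0) (nat_lit 80) (@Lb.r r154 (@Lb.r r101 (@Lb.r r519 (@Lb.r r264 (@Lb.g g7 (@Lb.d (nat_lit 64) (nat_lit 0) (nat_lit 64) (@Lb.t (@Lb.fm (nat_lit 3) t334)))))))))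
noncomputable def l2694 : Lb := (@Lb.r r21 (@Lb.d (nat_lit 16) (nat_lit 256) (nat_lit 74) (@Lb.g g8 (@Lb.g g10 (@Lb.g g11 (@Lb.r r651 (@Lb.r r644 (@Lb.r r1174 (@Lb.r r97 (@Lb.d (nat_lit 265) (nat_lit 97) (nat_lit 384) (@Lb.t (@Lb.fp (nat_lit 9) t152))))))))))))
noncomputable def l2695 : Lb := (@Lb.r r21 (@Lb.d (nat_lit 16) (nat_lit 512) (nat_lit 128) (@Lb.g g8 (@Lb.g g10 (@Lb.g g11 (@Lb.r r651 (@Lb.r r644 (@Lb.r r1174 (@Lb.r r97 (@Lb.d (nat_lit 266) (nat_lit 97) (nat_lit 384) (@Lb.t (@Lb.fp (nat_lit 9) t152))))))))))))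
noncomputable def l2696 : Lb := (@Lb.d (nat_lit 0) (nat_lit 2) (nat_lit 0) (@Lb.g g9 (@Lb.r r388 (@Lb.r r342 (@Lb.r r681 (@Lb.r r555 (@Lb.r r548 (@Lb.d (nat_lit 0) (nat_lit 145) (nat_lit 326) (@Lb.t (@Lb.fp (nat_lit 3) t210))))))))))
noncomputable def l2697 : Lb := (@Lb.r r21 (@Lb.d (nat_lit 18) (nat_lit 256) (nat_lit 128) (@Lb.g g8 (@Lb.g g10 (@Lb.g g11 (@Lb.r r651 (@Lb.r r644 (@Lb.r r1174 (@Lb.r r97 (@Lb.d (nat_lit 265) (nat_lit 97) (nat_lit 384) (@Lb.t (@Lb.fp (nat_lit 9) t152))))))))))))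
noncomputable def l2698 : Lb := (@Lb.r r323 (@Lb.d (nat_lit 8) (nat_lit 258) (nat_lit 2) (@Lb.g g9 (@Lb.g g10 (@Lb.r r354 (@Lb.r r387 (@Lb.d (nat_lit 2) (nat_lit 33) (nat_lit 74) (@Lb.fm (nat_lit 3) t51))))))))
noncomputable def l2699 : Lb := (@Lb.d (nat_lit 9) (nat_lit 256) (nat_lit 0) (@Lb.g g8 (@Lb.g g9 (@Lb.r r40 (@Lb.r r2089 (@Lb.d (nat_lit 522) (nat_lit 1) (nat_lit 0) (@Lb.fm (nat_lit 3) t2)))))))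
noncomputable def l2700 : Lb := (@Lb.d (nat_lit 130) (nat_lit 10) (nat_lit 0) (@Lb.g g8 (@Lb.g g9 (@Lb.r r646 (@Lb.r r679 (@Lb.r r545 (@Lb.r r104 (@Lb.d (nat_lit 38) (nat_lit 66) (nat_lit 20) (@Lb.fm (nat_lit 3) t334)))))))))
noncomputable def l2701 : Lb := (@Lb.d (nat_lit 0) (nat_lit 578) (nat_lit 66) (@Lb.g g4 (@Lb.g g9 (@Lb.g g10 (@Lb.g g11 (@Lb.r r419 (@Lb.r r98 (@Lb.d (nat_lit 0) (nat_lit 9) (nat_lit 137) (@Lb.fm (nat_lit 9) t51)))))))))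
noncomputable def l2702 : Lb := (@Lb.d (nat_lit 0) (nat_lit 66) (nat_lit 130) (@Lb.g g4 (@Lb.g g9 (@Lb.g g10 (@Lb.g g11 (@Lb.r r419 (@Lb.r r98 (@Lb.d (nat_lit 0) (nat_lit 9) (nat_lit 2) (@Lb.fm (nat_lit 9) t51)))))))))
noncomputable def l2703 : Lb := (@Lb.r r323 (@Lb.d (nat_lit 0) (nat_lit 578) (nat_lit 2) (@Lb.g g4 (@Lb.g g9 (@Lb.g g10 (@Lb.r r354 (@Lb.r r387 (@Lb.d (nat_lit 0) (nat_lit 38) (nat_lit 72) (@Lb.t (@Lb.fp (nat_lit 9) t51))))))))))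
noncomputable def l2704 : Lb := (@Lb.d (nat_lit 2) (nat_lit 522) (nat_lit 72) (@Lb.g g8 (@Lb.g g9 (@Lb.g g11 (@Lb.r r134 (@Lb.r r328 (@Lb.r r279 (@Lb.r r545 (@Lb.d (nat_lit 9) (nat_lit 65) (nat_lit 20) (@Lb.t (@Lb.fp (nat_lit 9) t334)))))))))))
noncomputable def l2705 : Lb := (@Lb.r r323 (@Lb.d (nat_lit 0) (nat_lit 66) (nat_lit 2) (@Lb.g g4 (@Lb.g g9 (@Lb.g g10 (@Lb.r r354 (@Lb.r r387 (@Lb.d (nat_lit 0) (nat_lit 33) (nat_lit 74) (@Lb.t (@Lb.fp (nat_lit 9) t51))))))))))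
noncomputable def l2706 : Lb := (@Lb.d (nat_lit 146) (nat_lit 514) (nat_lit 128) (@Lb.g g8 (@Lb.g g9 (@Lb.g g10 (@Lb.g g11 (@Lb.r r292 (@Lb.r r651 (@Lb.r r2210 (@Lb.r r145 (@Lb.r r516 (@Lb.d (nat_lit 520) (nat_lit 8) (nat_lit 665) (@Lb.fp (nat_lit 9) t152))))))))))))
noncomputable def l2707 : Lb := (@Lb.d (nat_lit 0) (nat_lit 0) (nat_lit 128) (@Lb.g g10 (@Lb.g g11 (@Lb.r r2707 (@Lb.r r2401 (@Lb.r r1174 (@Lb.r r24 (@Lb.d (nat_lit 266) (nat_lit 129) (nat_lit 32) (@Lb.fm (nat_lit 3) t887)))))))))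
noncomputable def l2708 : Lb := (@Lb.d (nat_lit 386) (nat_lit 256) (nat_lit 256) (@Lb.r r2118 (@Lb.g g10 (@Lb.g g8 (@Lb.fm (nat_lit 3) t696)))))
noncomputable def l2709 : Lb := (@Lb.d (nat_lit 610) (nat_lit 262) (nat_lit 550) (@Lb.r r24 (@Lb.r r153 (@Lb.r r1642 (@Lb.g g11 (@Lb.g g6 (@Lb.g g5 (@Lb.g g4 (@Lb.d (nat_lit 6) (nat_lit 8) (nat_lit 5) (@Lb.fp (nat_lit 9) t888))))))))))
noncomputable def l2710 : Lb := (@Lb.d (nat_lit 42) (nat_lit 256) (nat_lit 64) (@Lb.g g8 (@Lb.g g11 (@Lb.r r1703 (@Lb.r r614 (@Lb.r r1637 (@Lb.r r1428 (@Lb.d (nat_lit 358) (nat_lit 90) (nat_lit 408) (@Lb.fm (nat_lit 3) t386)))))))))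
noncomputable def l2711 : Lb := (@Lb.r r21 (@Lb.d (nat_lit 16) (nat_lit 512) (nat_lit 74) (@Lb.g g8 (@Lb.g g10 (@Lb.g g11 (@Lb.r r603 (@Lb.r r2401 (@Lb.r r1170 (@Lb.r r1128 (@Lb.d (nat_lit 265) (nat_lit 70) (nat_lit 33) (@Lb.t (@Lb.fm (nat_lit 9) t151))))))))))))
noncomputable def l2712 : Lb := (@Lb.r r326 (@Lb.d (nat_lit 385) (nat_lit 514) (nat_lit 128) (@Lb.g g8 (@Lb.g g9 (@Lb.g g11 (@Lb.r r1323 (@Lb.r r2626 (@Lb.r r25 (@Lb.d (nat_lit 2) (nat_lit 161) (nat_lit 517) (@Lb.t (@Lb.fm (nat_lit 9) t173)))))))))))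
noncomputable def l2713 : Lb := (@Lb.d (nat_lit 0) (nat_lit 512) (nat_lit 128) (@Lb.g g10 (@Lb.g g11 (@Lb.r r2707 (@Lb.r r2401 (@Lb.r r1174 (@Lb.r r24 (@Lb.d (nat_lit 264) (nat_lit 129) (nat_lit 32) (@Lb.fm (nat_lit 3) t889)))))))))
noncomputable def l2714 : Lb := (@Lb.d (nat_lit 154) (nat_lit 264) (nat_lit 130) (@Lb.g g8 (@Lb.g g10 (@Lb.g g11 (@Lb.r r2695 (@Lb.r r1105 (@Lb.r r1638 (@Lb.r r388 (@Lb.d (nat_lit 361) (nat_lit 1) (nat_lit 169) (@Lb.t (@Lb.fp (nat_lit 9) t412)))))))))))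
noncomputable def l2715 : Lb := (@Lb.d (nat_lit 386) (nat_lit 256) (nat_lit 256) (@Lb.r r2118 (@Lb.g g8 (@Lb.t (@Lb.fp (nat_lit 3) t696)))))
noncomputable def l2716 : Lb := (@Lb.r r326 (@Lb.d (nat_lit 385) (nat_lit 2) (nat_lit 128) (@Lb.g g8 (@Lb.g g9 (@Lb.g g11 (@Lb.r r1323 (@Lb.r r2626 (@Lb.r r25 (@Lb.d (nat_lit 2) (nat_lit 168) (nat_lit 516) (@Lb.t (@Lb.fm (nat_lit 9) t173)))))))))))
noncomputable def l2717 : Lb := (@Lb.d (nat_lit 128) (nat_lit 512) (nat_lit 324) (@Lb.g g7 (@Lb.d (nat_lit 273) (nat_lit 0) (nat_lit 102) (@Lb.t (@Lb.fm (nat_lit 3) t469)))))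
noncomputable def l2718 : Lb := (@Lb.r r326 (@Lb.d (nat_lit 390) (nat_lit 514) (nat_lit 128) (@Lb.g g8 (@Lb.g g9 (@Lb.g g11 (@Lb.r r2347 (@Lb.r r2626 (@Lb.r r1049 (@Lb.d (nat_lit 521) (nat_lit 42) (nat_lit 516) (@Lb.t (@Lb.fm (nat_lit 9) t173)))))))))))
noncomputable def l2719 : Lb := (@Lb.d (nat_lit 1) (nat_lit 512) (nat_lit 128) (@Lb.g g8 (@Lb.g g10 (@Lb.g g11 (@Lb.r r2707 (@Lb.r r2345 (@Lb.r r1188 (@Lb.r r1158 (@Lb.d (nat_lit 290) (nat_lit 10) (nat_lit 33) (@Lb.t (@Lb.fp (nat_lit 9) t296)))))))))))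
noncomputable def l2720 : Lb := (@Lb.d (nat_lit 9) (nat_lit 512) (nat_lit 130) (@Lb.g g8 (@Lb.g g10 (@Lb.g g11 (@Lb.r r2691 (@Lb.r r1109 (@Lb.r r2658 (@Lb.r r2436 (@Lb.d (nat_lit 610) (nat_lit 165) (nat_lit 596) (@Lb.t (@Lb.fp (nat_lit 9) t311)))))))))))
noncomputable def l2721 : Lb := (@Lb.d (nat_lit 8) (nat_lit 36) (nat_lit 128) (@Lb.g g9 (@Lb.g g10 (@Lb.g g11 (@Lb.r r387 (@Lb.r r386 (@Lb.r r2456 (@Lb.r r2645 (@Lb.d (nat_lit 644) (nat_lit 166) (nat_lit 409) (@Lb.t (@Lb.fm (nat_lit 9) t376)))))))))))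
noncomputable def l2722 : Lb := (@Lb.r r263 (@Lb.d (nat_lit 2) (nat_lit 2) (nat_lit 2) (@Lb.g g8 (@Lb.g g9 (@Lb.g g10 (@Lb.r r676 (@Lb.r r519 (@Lb.r r386 (@Lb.r r97 (@Lb.d (nat_lit 0) (nat_lit 4) (nat_lit 70) (@Lb.t (@Lb.fp (nat_lit 9) t31))))))))))))
noncomputable def l2723 : Lb := (@Lb.r r21 (@Lb.d (nat_lit 2) (nat_lit 0) (nat_lit 130) (@Lb.g g8 (@Lb.g g10 (@Lb.g g11 (@Lb.r r395 (@Lb.r r386 (@Lb.r r145 (@Lb.r r72 (@Lb.d (nat_lit 98) (nat_lit 5) (nat_lit 69) (@Lb.t (@Lb.fm (nat_lit 9) t61))))))))))))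
noncomputable def l2724 : Lb := (@Lb.d (nat_lit 5) (nat_lit 262) (nat_lit 1) (@Lb.g g4 (@Lb.t (@Lb.fm (nat_lit 3) t45))))
noncomputable def l2725 : Lb := (@Lb.d (nat_lit 2) (nat_lit 266) (nat_lit 128) (@Lb.g g8 (@Lb.g g9 (@Lb.g g11 (@Lb.r r134 (@Lb.r r584 (@Lb.r r427 (@Lb.r r417 (@Lb.d (nat_lit 8) (nat_lit 1) (nat_lit 68) (@Lb.t (@Lb.fp (nat_lit 9) t119)))))))))))
noncomputable def l2726 : Lb := (@Lb.d (nat_lit 2) (nat_lit 2) (nat_lit 130) (@Lb.g g8 (@Lb.g g9 (@Lb.g g10 (@Lb.g g11 (@Lb.r r427 (@Lb.r r386 (@Lb.r r97 (@Lb.r r24 (@Lb.d (nat_lit 74) (nat_lit 4) (nat_lit 136) (@Lb.fm (nat_lit 9) t61)))))))))))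
noncomputable def l2727 : Lb := (@Lb.d (nat_lit 8) (nat_lit 550) (nat_lit 128) (@Lb.g g9 (@Lb.g g10 (@Lb.g g11 (@Lb.r r387 (@Lb.r r386 (@Lb.r r2328 (@Lb.r r2581 (@Lb.d (nat_lit 678) (nat_lit 162) (nat_lit 417) (@Lb.t (@Lb.fm (nat_lit 9) t890)))))))))))
noncomputable def l2728 : Lb := (@Lb.d (nat_lit 10) (nat_lit 512) (nat_lit 128) (@Lb.g g8 (@Lb.g g10 (@Lb.g g11 (@Lb.r r293 (@Lb.r r279 (@Lb.r r362 (@Lb.r r548 (@Lb.d (nat_lit 130) (nat_lit 32) (nat_lit 0) (@Lb.t (@Lb.fp (nat_lit 9) t521)))))))))))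
noncomputable def l2729 : Lb := (@Lb.d (nat_lit 2) (nat_lit 516) (nat_lit 128) (@Lb.g g8 (@Lb.g g9 (@Lb.g g10 (@Lb.g g11 (@Lb.r r427 (@Lb.r r386 (@Lb.r r97 (@Lb.r r24 (@Lb.d (nat_lit 74) (nat_lit 161) (nat_lit 384) (@Lb.fm (nat_lit 9) t891)))))))))))
noncomputable def l2730 : Lb := (@Lb.r r82 (@Lb.r r275 (@Lb.d (nat_lit 2) (nat_lit 512) (nat_lit 0) (@Lb.g g8 (@Lb.g g9 (@Lb.r r299 (@Lb.r r106 (@Lb.r r25 (@Lb.d (nat_lit 9) (nat_lit 4) (nat_lit 1) (@Lb.fm (nat_lit 3) t892))))))))))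
noncomputable def l2731 : Lb := (@Lb.d (nat_lit 0) (nat_lit 38) (nat_lit 128) (@Lb.g g8 (@Lb.g g9 (@Lb.g g10 (@Lb.g g11 (@Lb.r r387 (@Lb.r r386 (@Lb.r r1561 (@Lb.r r24 (@Lb.d (nat_lit 674) (nat_lit 0) (nat_lit 673) (@Lb.fp (nat_lit 9) t893)))))))))))
noncomputable def l2732 : Lb := (@Lb.d (nat_lit 153) (nat_lit 616) (nat_lit 356) (@Lb.r r2374 (@Lb.r r1691 (@Lb.g g7 (@Lb.g g6 (@Lb.g g9 (@Lb.g g4 (@Lb.d (nat_lit 1) (nat_lit 10) (nat_lit 133) (@Lb.fp (nat_lit 9) t894)))))))))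
noncomputable def l2733 : Lb := (@Lb.d (nat_lit 2) (nat_lit 258) (nat_lit 128) (@Lb.g g8 (@Lb.g g9 (@Lb.g g11 (@Lb.r r404 (@Lb.r r2601 (@Lb.r r1707 (@Lb.r r2178 (@Lb.r r1572 (@Lb.d (nat_lit 274) (nat_lit 10) (nat_lit 346) (@Lb.t (@Lb.fp (nat_lit 9) t88))))))))))))
noncomputable def l2734 : Lb := (@Lb.d (nat_lit 390) (nat_lit 406) (nat_lit 610) (@Lb.r r2325 (@Lb.r r2390 (@Lb.r r683 (@Lb.g g7 (@Lb.g g6 (@Lb.g g5 (@Lb.g g4 (@Lb.d (nat_lit 1) (nat_lit 25) (nat_lit 64) (@Lb.fm (nat_lit 9) t309))))))))))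
noncomputable def l2735 : Lb := (@Lb.d (nat_lit 0) (nat_lit 38) (nat_lit 128) (@Lb.g g9 (@Lb.g g10 (@Lb.g g11 (@Lb.r r387 (@Lb.r r386 (@Lb.r r1561 (@Lb.r r24 (@Lb.d (nat_lit 674) (nat_lit 0) (nat_lit 673) (@Lb.t (@Lb.fm (nat_lit 9) t893)))))))))))
noncomputable def l2736 : Lb := (@Lb.d (nat_lit 2) (nat_lit 260) (nat_lit 138) (@Lb.g g8 (@Lb.g g9 (@Lb.g g10 (@Lb.g g11 (@Lb.r r1699 (@Lb.r r2705 (@Lb.r r612 (@Lb.r r666 (@Lb.r r1156 (@Lb.d (nat_lit 330) (nat_lit 33) (nat_lit 138) (@Lb.fp (nat_lit 9) t895))))))))))))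
noncomputable def l2737 : Lb := (@Lb.r r275 (@Lb.d (nat_lit 2) (nat_lit 512) (nat_lit 2) (@Lb.g g8 (@Lb.g g9 (@Lb.g g10 (@Lb.r r1706 (@Lb.r r1700 (@Lb.r r1575 (@Lb.r r2085 (@Lb.d (nat_lit 514) (nat_lit 145) (nat_lit 10) (@Lb.t (@Lb.fp (nat_lit 9) t896))))))))))))
noncomputable def l2738 : Lb := (@Lb.g g9 (@Lb.d (nat_lit 0) (nat_lit 0) (nat_lit 64) (@Lb.t (@Lb.fp (nat_lit 3) t2))))
noncomputable def l2739 : Lb := (@Lb.d (nat_lit 134) (nat_lit 278) (nat_lit 354) (@Lb.r r277 (@Lb.r r342 (@Lb.r r2731 (@Lb.g g7 (@Lb.g g6 (@Lb.g g5 (@Lb.g g4 (@Lb.d (nat_lit 1) (nat_lit 24) (nat_lit 10) (@Lb.fm (nat_lit 9) t309))))))))))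
noncomputable def l2740 : Lb := (@Lb.d (nat_lit 2) (nat_lit 260) (nat_lit 0) (@Lb.g g8 (@Lb.g g9 (@Lb.g g10 (@Lb.g g11 (@Lb.r r1371 (@Lb.r r386 (@Lb.r r97 (@Lb.r r24 (@Lb.d (nat_lit 256) (nat_lit 168) (nat_lit 386) (@Lb.fm (nat_lit 9) t897)))))))))))
noncomputable def l2741 : Lb := (@Lb.r r323 (@Lb.d (nat_lit 134) (nat_lit 33) (nat_lit 2) (@Lb.g g8 (@Lb.g g9 (@Lb.g g10 (@Lb.r r519 (@Lb.r r328 (@Lb.r r2390 (@Lb.r r1689 (@Lb.d (nat_lit 533) (nat_lit 138) (nat_lit 646) (@Lb.t (@Lb.fm (nat_lit 9) t2))))))))))))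
noncomputable def l2742 : Lb := (@Lb.d (nat_lit 2) (nat_lit 514) (nat_lit 128) (@Lb.g g8 (@Lb.g g9 (@Lb.g g10 (@Lb.g g11 (@Lb.r r2711 (@Lb.r r297 (@Lb.r r72 (@Lb.r r102 (@Lb.r r2180 (@Lb.d (nat_lit 521) (nat_lit 90) (nat_lit 9) (@Lb.fm (nat_lit 9) t51))))))))))))
noncomputable def l2743 : Lb := (@Lb.r r323 (@Lb.d (nat_lit 0) (nat_lit 66) (nat_lit 2) (@Lb.g g4 (@Lb.g g9 (@Lb.g g10 (@Lb.r r354 (@Lb.r r387 (@Lb.d (nat_lit 0) (nat_lit 144) (nat_lit 266) (@Lb.t (@Lb.fp (nat_lit 9) t51))))))))))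
noncomputable def l2744 : Lb := (@Lb.r r323 (@Lb.d (nat_lit 0) (nat_lit 322) (nat_lit 2) (@Lb.g g4 (@Lb.g g9 (@Lb.g g10 (@Lb.r r354 (@Lb.r r387 (@Lb.d (nat_lit 0) (nat_lit 149) (nat_lit 321) (@Lb.t (@Lb.fp (nat_lit 9) t51))))))))))
noncomputable def l2745 : Lb := (@Lb.d (nat_lit 0) (nat_lit 421) (nat_lit 644) (@Lb.r r1284 (@Lb.r r2315 (@Lb.r r404 (@Lb.r r2153 (@Lb.g g7 (@Lb.g g10 (@Lb.g g5 (@Lb.g g4 (@Lb.d (nat_lit 6) (nat_lit 9) (nat_lit 33) (@Lb.fp (nat_lit 9) t145)))))))))))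
noncomputable def l2746 : Lb := (@Lb.d (nat_lit 0) (nat_lit 578) (nat_lit 130) (@Lb.g g4 (@Lb.g g9 (@Lb.g g10 (@Lb.g g11 (@Lb.r r419 (@Lb.r r98 (@Lb.d (nat_lit 0) (nat_lit 4) (nat_lit 136) (@Lb.fm (nat_lit 9) t51)))))))))
noncomputable def l2747 : Lb := (@Lb.d (nat_lit 0) (nat_lit 256) (nat_lit 64) (@Lb.g g10 (@Lb.g g7 (@Lb.r r402 (@Lb.r r101 (@Lb.r r24 (@Lb.d (nat_lit 256) (nat_lit 0) (nat_lit 576) (@Lb.fm (nat_lit 3) t145))))))))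
noncomputable def l2748 : Lb := (@Lb.r r326 (@Lb.d (nat_lit 386) (nat_lit 2) (nat_lit 128) (@Lb.g g8 (@Lb.g g9 (@Lb.g g11 (@Lb.r r1323 (@Lb.r r2626 (@Lb.r r25 (@Lb.d (nat_lit 2) (nat_lit 168) (nat_lit 642) (@Lb.t (@Lb.fm (nat_lit 9) t898)))))))))))
noncomputable def l2749 : Lb := (@Lb.d (nat_lit 10) (nat_lit 512) (nat_lit 66) (@Lb.g g8 (@Lb.g g10 (@Lb.g g11 (@Lb.r r1575 (@Lb.r r597 (@Lb.r r98 (@Lb.r r2436 (@Lb.d (nat_lit 610) (nat_lit 137) (nat_lit 664) (@Lb.t (@Lb.fp (nat_lit 9) t386)))))))))))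
noncomputable def l2750 : Lb := (@Lb.d (nat_lit 144) (nat_lit 514) (nat_lit 64) (@Lb.g g8 (@Lb.g g9 (@Lb.g g10 (@Lb.g g11 (@Lb.r r427 (@Lb.r r1602 (@Lb.r r409 (@Lb.r r388 (@Lb.d (nat_lit 98) (nat_lit 104) (nat_lit 73) (@Lb.fp (nat_lit 9) t898)))))))))))
noncomputable def l2751 : Lb := (@Lb.d (nat_lit 40) (nat_lit 0) (nat_lit 64) (@Lb.g g8 (@Lb.g g11 (@Lb.r r1703 (@Lb.r r614 (@Lb.r r1637 (@Lb.r r1428 (@Lb.d (nat_lit 358) (nat_lit 90) (nat_lit 408) (@Lb.fm (nat_lit 3) t386)))))))))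
noncomputable def l2752 : Lb := (@Lb.d (nat_lit 2) (nat_lit 258) (nat_lit 10) (@Lb.g g8 (@Lb.g g9 (@Lb.g g10 (@Lb.g g11 (@Lb.r r593 (@Lb.r r663 (@Lb.r r392 (@Lb.r r74 (@Lb.d (nat_lit 38) (nat_lit 1) (nat_lit 153) (@Lb.fp (nat_lit 9) t221)))))))))))
noncomputable def l2753 : Lb := (@Lb.r r21 (@Lb.d (nat_lit 10) (nat_lit 512) (nat_lit 74) (@Lb.g g8 (@Lb.g g10 (@Lb.g g11 (@Lb.r r1178 (@Lb.r r1637 (@Lb.r r1703 (@Lb.r r2372 (@Lb.d (nat_lit 394) (nat_lit 128) (nat_lit 261) (@Lb.t (@Lb.fp (nat_lit 9) t284))))))))))))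
noncomputable def l2754 : Lb := (@Lb.r r323 (@Lb.d (nat_lit 1) (nat_lit 514) (nat_lit 0) (@Lb.g g8 (@Lb.g g9 (@Lb.g g10 (@Lb.r r427 (@Lb.r r106 (@Lb.r r25 (@Lb.d (nat_lit 2) (nat_lit 73) (nat_lit 2) (@Lb.t (@Lb.fm (nat_lit 9) t51)))))))))))
noncomputable def l2755 : Lb := (@Lb.d (nat_lit 9) (nat_lit 257) (nat_lit 130) (@Lb.g g8 (@Lb.g g9 (@Lb.g g10 (@Lb.g g11 (@Lb.r r84 (@Lb.r r154 (@Lb.r r597 (@Lb.r r343 (@Lb.r r676 (@Lb.d (nat_lit 2) (nat_lit 2) (nat_lit 74) (@Lb.fm (nat_lit 9) t2))))))))))))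
noncomputable def l2756 : Lb := (@Lb.r r322 (@Lb.d (nat_lit 0) (nat_lit 256) (nat_lit 576) (@Lb.g g4 (@Lb.g g7 (@Lb.r r1610 (@Lb.d (nat_lit 577) (nat_lit 0) (nat_lit 0) (@Lb.fm (nat_lit 3) t282)))))))
noncomputable def l2757 : Lb := (@Lb.r r21 (@Lb.d (nat_lit 2) (nat_lit 520) (nat_lit 130) (@Lb.g g8 (@Lb.g g10 (@Lb.g g11 (@Lb.r r353 (@Lb.r r667 (@Lb.r r664 (@Lb.r r602 (@Lb.d (nat_lit 98) (nat_lit 38) (nat_lit 74) (@Lb.t (@Lb.fp (nat_lit 9) t2))))))))))))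
noncomputable def l2758 : Lb := (@Lb.d (nat_lit 32) (nat_lit 520) (nat_lit 130) (@Lb.g g10 (@Lb.g g11 (@Lb.r r361 (@Lb.r r2711 (@Lb.r r1380 (@Lb.r r1690 (@Lb.d (nat_lit 594) (nat_lit 106) (nat_lit 645) (@Lb.fp (nat_lit 3) t2)))))))))
noncomputable def l2759 : Lb := (@Lb.d (nat_lit 1) (nat_lit 544) (nat_lit 388) (@Lb.g g8 (@Lb.g g11 (@Lb.r r138 (@Lb.r r1448 (@Lb.r r1321 (@Lb.d (nat_lit 516) (nat_lit 5) (nat_lit 129) (@Lb.fp (nat_lit 3) t899))))))))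
noncomputable def l2760 : Lb := (@Lb.d (nat_lit 1) (nat_lit 38) (nat_lit 128) (@Lb.g g8 (@Lb.g g9 (@Lb.g g10 (@Lb.g g11 (@Lb.r r1706 (@Lb.r r1419 (@Lb.r r168 (@Lb.r r41 (@Lb.r r2084 (@Lb.d (nat_lit 514) (nat_lit 37) (nat_lit 321) (@Lb.fm (nat_lit 9) t394))))))))))))
noncomputable def l2761 : Lb := (@Lb.d (nat_lit 153) (nat_lit 256) (nat_lit 73) (@Lb.g g8 (@Lb.g g10 (@Lb.g g11 (@Lb.r r2650 (@Lb.r r2453 (@Lb.r r619 (@Lb.r r2632 (@Lb.d (nat_lit 100) (nat_lit 0) (nat_lit 258) (@Lb.t (@Lb.fm (nat_lit 9) t69)))))))))))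
noncomputable def l2762 : Lb := (@Lb.r r323 (@Lb.d (nat_lit 1) (nat_lit 258) (nat_lit 0) (@Lb.g g8 (@Lb.g g9 (@Lb.g g10 (@Lb.r r427 (@Lb.r r106 (@Lb.r r25 (@Lb.d (nat_lit 0) (nat_lit 73) (nat_lit 2) (@Lb.t (@Lb.fm (nat_lit 9) t51)))))))))))
noncomputable def l2763 : Lb := (@Lb.r r322 (@Lb.d (nat_lit 0) (nat_lit 512) (nat_lit 576) (@Lb.g g4 (@Lb.g g7 (@Lb.r r1610 (@Lb.d (nat_lit 576) (nat_lit 0) (nat_lit 0) (@Lb.fm (nat_lit 3) t282)))))))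
noncomputable def l2764 : Lb := (@Lb.d (nat_lit 0) (nat_lit 0) (nat_lit 74) (@Lb.g g10 (@Lb.g g11 (@Lb.r r2707 (@Lb.r r1381 (@Lb.r r2194 (@Lb.r r24 (@Lb.d (nat_lit 38) (nat_lit 134) (nat_lit 16) (@Lb.fm (nat_lit 3) t714)))))))))
noncomputable def l2765 : Lb := (@Lb.d (nat_lit 352) (nat_lit 390) (nat_lit 518) (@Lb.r r24 (@Lb.r r1177 (@Lb.r r618 (@Lb.g g11 (@Lb.g g6 (@Lb.g g5 (@Lb.g g4 (@Lb.d (nat_lit 1) (nat_lit 32) (nat_lit 390) (@Lb.fp (nat_lit 9) t394))))))))))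
noncomputable def l2766 : Lb := (@Lb.r r326 (@Lb.d (nat_lit 386) (nat_lit 2) (nat_lit 128) (@Lb.g g8 (@Lb.g g9 (@Lb.g g11 (@Lb.r r1323 (@Lb.r r2626 (@Lb.r r25 (@Lb.d (nat_lit 9) (nat_lit 97) (nat_lit 640) (@Lb.t (@Lb.fm (nat_lit 9) t394)))))))))))
noncomputable def l2767 : Lb := (@Lb.d (nat_lit 2) (nat_lit 514) (nat_lit 130) (@Lb.g g8 (@Lb.g g9 (@Lb.g g10 (@Lb.g g11 (@Lb.r r427 (@Lb.r r424 (@Lb.r r106 (@Lb.r r97 (@Lb.d (nat_lit 617) (nat_lit 9) (nat_lit 680) (@Lb.fp (nat_lit 9) t900)))))))))))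
noncomputable def l2768 : Lb := (@Lb.d (nat_lit 0) (nat_lit 4) (nat_lit 128) (@Lb.g g9 (@Lb.g g10 (@Lb.g g11 (@Lb.r r427 (@Lb.r r424 (@Lb.r r106 (@Lb.r r97 (@Lb.d (nat_lit 2) (nat_lit 10) (nat_lit 17) (@Lb.t (@Lb.fm (nat_lit 9) t901)))))))))))
noncomputable def l2769 : Lb := (@Lb.d (nat_lit 0) (nat_lit 336) (nat_lit 64) (@Lb.r r289 (@Lb.r r2567 (@Lb.r r1368 (@Lb.r r2198 (@Lb.g g6 (@Lb.g g5 (@Lb.d (nat_lit 0) (nat_lit 5) (nat_lit 0) (@Lb.r r387 (@Lb.fm (nat_lit 3) t902))))))))))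
noncomputable def l2770 : Lb := (@Lb.d (nat_lit 2) (nat_lit 0) (nat_lit 130) (@Lb.g g8 (@Lb.g g9 (@Lb.g g10 (@Lb.g g11 (@Lb.r r2601 (@Lb.r r299 (@Lb.r r388 (@Lb.r r70 (@Lb.r r132 (@Lb.d (nat_lit 322) (nat_lit 96) (nat_lit 73) (@Lb.fm (nat_lit 9) t903))))))))))))
noncomputable def l2771 : Lb := (@Lb.d (nat_lit 2) (nat_lit 260) (nat_lit 128) (@Lb.g g8 (@Lb.g g9 (@Lb.g g10 (@Lb.g g11 (@Lb.r r427 (@Lb.r r424 (@Lb.r r106 (@Lb.r r97 (@Lb.d (nat_lit 617) (nat_lit 9) (nat_lit 680) (@Lb.fp (nat_lit 9) t904)))))))))))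
noncomputable def l2772 : Lb := (@Lb.d (nat_lit 2) (nat_lit 4) (nat_lit 128) (@Lb.g g8 (@Lb.g g9 (@Lb.g g10 (@Lb.g g11 (@Lb.r r427 (@Lb.r r424 (@Lb.r r106 (@Lb.r r97 (@Lb.d (nat_lit 610) (nat_lit 10) (nat_lit 680) (@Lb.fp (nat_lit 9) t905)))))))))))
noncomputable def l2773 : Lb := (@Lb.r r82 (@Lb.d (nat_lit 34) (nat_lit 2) (nat_lit 128) (@Lb.g g8 (@Lb.g g9 (@Lb.g g11 (@Lb.r r363 (@Lb.r r582 (@Lb.r r388 (@Lb.d (nat_lit 98) (nat_lit 8) (nat_lit 89) (@Lb.t (@Lb.fm (nat_lit 9) t906)))))))))))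
noncomputable def l2774 : Lb := (@Lb.d (nat_lit 2) (nat_lit 256) (nat_lit 2) (@Lb.g g8 (@Lb.g g9 (@Lb.g g10 (@Lb.r r515 (@Lb.r r1681 (@Lb.r r356 (@Lb.r r154 (@Lb.r r132 (@Lb.d (nat_lit 388) (nat_lit 146) (nat_lit 69) (@Lb.t (@Lb.fm (nat_lit 9) t907))))))))))))
noncomputable def l2775 : Lb := (@Lb.r r323 (@Lb.d (nat_lit 4) (nat_lit 32) (nat_lit 2) (@Lb.g g8 (@Lb.g g9 (@Lb.g g10 (@Lb.r r599 (@Lb.r r74 (@Lb.r r296 (@Lb.r r409 (@Lb.d (nat_lit 149) (nat_lit 149) (nat_lit 329) (@Lb.t (@Lb.fm (nat_lit 9) t119))))))))))))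
noncomputable def l2776 : Lb := (@Lb.d (nat_lit 261) (nat_lit 1) (nat_lit 1) (@Lb.r r24 (@Lb.r r101 (@Lb.r r2403 (@Lb.g g6 (@Lb.d (nat_lit 0) (nat_lit 4) (nat_lit 1) (@Lb.t (@Lb.fm (nat_lit 3) t58))))))))
noncomputable def l2777 : Lb := (@Lb.g g8 (@Lb.d (nat_lit 0) (nat_lit 385) (nat_lit 0) (@Lb.t (@Lb.fp (nat_lit 3) t2))))
noncomputable def l2778 : Lb := (@Lb.d (nat_lit 4) (nat_lit 512) (nat_lit 130) (@Lb.g g8 (@Lb.g g9 (@Lb.g g10 (@Lb.g g11 (@Lb.r r427 (@Lb.r r297 (@Lb.r r104 (@Lb.r r70 (@Lb.r r132 (@Lb.d (nat_lit 2) (nat_lit 130) (nat_lit 330) (@Lb.fp (nat_lit 9) t119))))))))))))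
noncomputable def l2779 : Lb := (@Lb.d (nat_lit 4) (nat_lit 0) (nat_lit 130) (@Lb.g g8 (@Lb.g g9 (@Lb.g g10 (@Lb.g g11 (@Lb.r r427 (@Lb.r r297 (@Lb.r r104 (@Lb.r r70 (@Lb.r r132 (@Lb.d (nat_lit 2) (nat_lit 137) (nat_lit 329) (@Lb.fp (nat_lit 9) t119))))))))))))
noncomputable def l2780 : Lb := (@Lb.r r263 (@Lb.d (nat_lit 5) (nat_lit 256) (nat_lit 2) (@Lb.g g8 (@Lb.g g9 (@Lb.g g10 (@Lb.r r676 (@Lb.r r2647 (@Lb.r r386 (@Lb.r r97 (@Lb.d (nat_lit 0) (nat_lit 104) (nat_lit 585) (@Lb.t (@Lb.fp (nat_lit 9) t19))))))))))))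
noncomputable def l2781 : Lb := (@Lb.d (nat_lit 0) (nat_lit 129) (nat_lit 0) (@Lb.fp (nat_lit 1) t2))
noncomputable def l2782 : Lb := (@Lb.r r323 (@Lb.d (nat_lit 38) (nat_lit 5) (nat_lit 0) (@Lb.g g8 (@Lb.g g9 (@Lb.g g10 (@Lb.r r1689 (@Lb.r r1563 (@Lb.r r1540 (@Lb.d (nat_lit 417) (nat_lit 0) (nat_lit 673) (@Lb.t (@Lb.fp (nat_lit 9) t275)))))))))))
noncomputable def l2783 : Lb := (@Lb.r r70 (@Lb.r r263 (@Lb.d (nat_lit 5) (nat_lit 512) (nat_lit 0) (@Lb.g g8 (@Lb.g g9 (@Lb.r r1561 (@Lb.r r279 (@Lb.r r584 (@Lb.r r2182 (@Lb.d (nat_lit 0) (nat_lit 0) (nat_lit 356) (@Lb.fm (nat_lit 3) t86)))))))))))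
noncomputable def l2784 : Lb := (@Lb.r r70 (@Lb.d (nat_lit 138) (nat_lit 0) (nat_lit 128) (@Lb.g g8 (@Lb.g g11 (@Lb.r r1429 (@Lb.r r658 (@Lb.r r1411 (@Lb.r r2372 (@Lb.d (nat_lit 594) (nat_lit 0) (nat_lit 136) (@Lb.fp (nat_lit 3) t50))))))))))
noncomputable def l2785 : Lb := (@Lb.d (nat_lit 10) (nat_lit 384) (nat_lit 0) (@Lb.r r2182 (@Lb.r r84 (@Lb.r r1321 (@Lb.r r1559 (@Lb.g g8 (@Lb.r r74 (@Lb.r r25 (@Lb.t (@Lb.fm (nat_lit 3) t329))))))))))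
noncomputable def l2786 : Lb := (@Lb.d (nat_lit 102) (nat_lit 262) (nat_lit 680) (@Lb.r r24 (@Lb.r r97 (@Lb.r r386 (@Lb.r r1431 (@Lb.g g6 (@Lb.g g5 (@Lb.g g4 (@Lb.d (nat_lit 1) (nat_lit 1) (nat_lit 1) (@Lb.t (@Lb.fm (nat_lit 9) t908)))))))))))
noncomputable def l2787 : Lb := (@Lb.d (nat_lit 40) (nat_lit 514) (nat_lit 130) (@Lb.g g9 (@Lb.g g10 (@Lb.g g11 (@Lb.r r2695 (@Lb.r r1352 (@Lb.r r2390 (@Lb.r r1425 (@Lb.d (nat_lit 137) (nat_lit 130) (nat_lit 330) (@Lb.t (@Lb.fm (nat_lit 9) t909)))))))))))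
noncomputable def l2788 : Lb := (@Lb.r r322 (@Lb.d (nat_lit 8) (nat_lit 258) (nat_lit 576) (@Lb.g g9 (@Lb.g g7 (@Lb.r r1156 (@Lb.r r1446 (@Lb.r r1425 (@Lb.d (nat_lit 642) (nat_lit 32) (nat_lit 266) (@Lb.fm (nat_lit 3) t910)))))))))
noncomputable def l2789 : Lb := (@Lb.r r2311 (@Lb.r r24 (@Lb.r r101 (@Lb.d (nat_lit 0) (nat_lit 325) (nat_lit 1) (@Lb.fp (nat_lit 1) t391)))))
noncomputable def l2790 : Lb := (@Lb.d (nat_lit 288) (nat_lit 256) (nat_lit 64) (@Lb.r r154 (@Lb.r r101 (@Lb.r r1304 (@Lb.g g7 (@Lb.g g6 (@Lb.d (nat_lit 64) (nat_lit 32) (nat_lit 576) (@Lb.fp (nat_lit 3) t472))))))))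
noncomputable def l2791 : Lb := (@Lb.d (nat_lit 294) (nat_lit 1) (nat_lit 17) (@Lb.r r1416 (@Lb.r r2329 (@Lb.r r2375 (@Lb.g g7 (@Lb.g g10 (@Lb.g g5 (@Lb.d (nat_lit 0) (nat_lit 5) (nat_lit 82) (@Lb.t (@Lb.fp (nat_lit 9) t911))))))))))
noncomputable def l2792 : Lb := (@Lb.r r327 (@Lb.d (nat_lit 130) (nat_lit 642) (nat_lit 18) (@Lb.g g8 (@Lb.g g5 (@Lb.g g10 (@Lb.r r1319 (@Lb.r r1556 (@Lb.d (nat_lit 390) (nat_lit 101) (nat_lit 658) (@Lb.t (@Lb.fp (nat_lit 9) t912))))))))))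
noncomputable def l2793 : Lb := (@Lb.d (nat_lit 0) (nat_lit 258) (nat_lit 130) (@Lb.g g9 (@Lb.g g10 (@Lb.g g11 (@Lb.r r162 (@Lb.r r421 (@Lb.r r283 (@Lb.r r529 (@Lb.d (nat_lit 21) (nat_lit 66) (nat_lit 74) (@Lb.t (@Lb.fm (nat_lit 9) t913)))))))))))
noncomputable def l2794 : Lb := (@Lb.d (nat_lit 8) (nat_lit 258) (nat_lit 130) (@Lb.g g9 (@Lb.g g10 (@Lb.g g11 (@Lb.r r2691 (@Lb.r r644 (@Lb.r r166 (@Lb.r r1425 (@Lb.d (nat_lit 649) (nat_lit 160) (nat_lit 586) (@Lb.t (@Lb.fm (nat_lit 9) t910)))))))))))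
noncomputable def l2795 : Lb := (@Lb.d (nat_lit 645) (nat_lit 266) (nat_lit 129) (@Lb.g g4 (@Lb.g g9 (@Lb.g g10 (@Lb.g g11 (@Lb.r r2726 (@Lb.r r1411 (@Lb.r r1553 (@Lb.d (nat_lit 585) (nat_lit 97) (nat_lit 362) (@Lb.fp (nat_lit 9) t515))))))))))
noncomputable def l2796 : Lb := (@Lb.d (nat_lit 1) (nat_lit 0) (nat_lit 129) (@Lb.g g4 (@Lb.g g9 (@Lb.g g10 (@Lb.g g11 (@Lb.r r1634 (@Lb.r r2659 (@Lb.r r1633 (@Lb.d (nat_lit 1) (nat_lit 153) (nat_lit 386) (@Lb.fm (nat_lit 9) t752))))))))))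
noncomputable def l2797 : Lb := (@Lb.d (nat_lit 0) (nat_lit 256) (nat_lit 129) (@Lb.g g9 (@Lb.g g10 (@Lb.g g11 (@Lb.r r1634 (@Lb.r r2659 (@Lb.r r1633 (@Lb.r r8 (@Lb.d (nat_lit 2) (nat_lit 153) (nat_lit 386) (@Lb.t (@Lb.fp (nat_lit 9) t752)))))))))))
noncomputable def l2798 : Lb := (@Lb.d (nat_lit 1) (nat_lit 512) (nat_lit 129) (@Lb.g g4 (@Lb.g g9 (@Lb.g g10 (@Lb.g g11 (@Lb.r r1634 (@Lb.r r2659 (@Lb.r r2661 (@Lb.d (nat_lit 400) (nat_lit 153) (nat_lit 146) (@Lb.fm (nat_lit 9) t914))))))))))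
noncomputable def l2799 : Lb := (@Lb.d (nat_lit 0) (nat_lit 272) (nat_lit 10) (@Lb.g g9 (@Lb.g g10 (@Lb.g g11 (@Lb.r r98 (@Lb.r r2657 (@Lb.r r291 (@Lb.d (nat_lit 0) (nat_lit 73) (nat_lit 602) (@Lb.t (@Lb.fp (nat_lit 9) t406))))))))))
noncomputable def l2800 : Lb := (@Lb.d (nat_lit 645) (nat_lit 266) (nat_lit 129) (@Lb.g g4 (@Lb.g g9 (@Lb.g g10 (@Lb.g g11 (@Lb.r r2726 (@Lb.r r1411 (@Lb.r r1553 (@Lb.d (nat_lit 585) (nat_lit 97) (nat_lit 328) (@Lb.fp (nat_lit 9) t141))))))))))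
noncomputable def l2801 : Lb := (@Lb.d (nat_lit 0) (nat_lit 512) (nat_lit 128) (@Lb.g g9 (@Lb.g g11 (@Lb.r r2722 (@Lb.r r1419 (@Lb.r r1557 (@Lb.r r1416 (@Lb.d (nat_lit 537) (nat_lit 137) (nat_lit 18) (@Lb.fm (nat_lit 3) t915)))))))))
noncomputable def l2802 : Lb := (@Lb.d (nat_lit 645) (nat_lit 256) (nat_lit 130) (@Lb.g g4 (@Lb.g g9 (@Lb.g g10 (@Lb.g g11 (@Lb.r r2726 (@Lb.r r1411 (@Lb.r r1553 (@Lb.d (nat_lit 353) (nat_lit 100) (nat_lit 344) (@Lb.fp (nat_lit 9) t916))))))))))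
noncomputable def l2803 : Lb := (@Lb.d (nat_lit 0) (nat_lit 16) (nat_lit 10) (@Lb.g g9 (@Lb.g g10 (@Lb.g g11 (@Lb.r r98 (@Lb.r r2657 (@Lb.r r291 (@Lb.d (nat_lit 0) (nat_lit 66) (nat_lit 600) (@Lb.t (@Lb.fp (nat_lit 9) t917))))))))))
noncomputable def l2804 : Lb := (@Lb.d (nat_lit 646) (nat_lit 533) (nat_lit 96) (@Lb.r r1301 (@Lb.r r2411 (@Lb.r r1666 (@Lb.g g7 (@Lb.g g6 (@Lb.g g5 (@Lb.g g4 (@Lb.d (nat_lit 1) (nat_lit 1) (nat_lit 133) (@Lb.fm (nat_lit 9) t918))))))))))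
noncomputable def l2805 : Lb := (@Lb.d (nat_lit 0) (nat_lit 514) (nat_lit 130) (@Lb.g g8 (@Lb.g g9 (@Lb.g g10 (@Lb.g g11 (@Lb.r r427 (@Lb.r r145 (@Lb.r r356 (@Lb.r r154 (@Lb.r r132 (@Lb.d (nat_lit 9) (nat_lit 9) (nat_lit 18) (@Lb.fm (nat_lit 9) t221))))))))))))
noncomputable def l2806 : Lb := (@Lb.d (nat_lit 2) (nat_lit 513) (nat_lit 130) (@Lb.g g8 (@Lb.g g9 (@Lb.g g10 (@Lb.g g11 (@Lb.r r1451 (@Lb.r r1321 (@Lb.r r104 (@Lb.r r70 (@Lb.r r132 (@Lb.d (nat_lit 2) (nat_lit 137) (nat_lit 681) (@Lb.fp (nat_lit 9) t51))))))))))))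
noncomputable def l2807 : Lb := (@Lb.d (nat_lit 4) (nat_lit 64) (nat_lit 0) (@Lb.r r289 (@Lb.r r535 (@Lb.r r328 (@Lb.r r326 (@Lb.g g7 (@Lb.g g6 (@Lb.g g5 (@Lb.d (nat_lit 0) (nat_lit 0) (nat_lit 134) (@Lb.t (@Lb.fm (nat_lit 9) t68)))))))))))
noncomputable def l2808 : Lb := (@Lb.r r21 (@Lb.d (nat_lit 10) (nat_lit 264) (nat_lit 130) (@Lb.g g8 (@Lb.g g10 (@Lb.g g11 (@Lb.r r427 (@Lb.r r533 (@Lb.r r360 (@Lb.r r390 (@Lb.d (nat_lit 98) (nat_lit 154) (nat_lit 265) (@Lb.t (@Lb.fm (nat_lit 9) t51))))))))))))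
noncomputable def l2809 : Lb := (@Lb.d (nat_lit 2) (nat_lit 545) (nat_lit 130) (@Lb.g g8 (@Lb.g g9 (@Lb.g g10 (@Lb.g g11 (@Lb.r r683 (@Lb.r r1642 (@Lb.r r1561 (@Lb.d (nat_lit 585) (nat_lit 105) (nat_lit 273) (@Lb.fm (nat_lit 9) t919))))))))))
noncomputable def l2810 : Lb := (@Lb.d (nat_lit 1) (nat_lit 514) (nat_lit 72) (@Lb.r r402 (@Lb.g g11 (@Lb.g g9 (@Lb.g g4 (@Lb.d (nat_lit 1) (nat_lit 10) (nat_lit 0) (@Lb.t (@Lb.fm (nat_lit 9) t374))))))))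
noncomputable def l2811 : Lb := (@Lb.r r81 (@Lb.r r323 (@Lb.g g10 (@Lb.r r1697 (@Lb.r r299 (@Lb.r r2376 (@Lb.r r1158 (@Lb.d (nat_lit 25) (nat_lit 2) (nat_lit 32) (@Lb.t (@Lb.fm (nat_lit 3) t920))))))))))
noncomputable def l2812 : Lb := (@Lb.r r326 (@Lb.d (nat_lit 422) (nat_lit 528) (nat_lit 64) (@Lb.g g4 (@Lb.g g9 (@Lb.g g11 (@Lb.r r535 (@Lb.r r2626 (@Lb.r r2661 (@Lb.d (nat_lit 420) (nat_lit 9) (nat_lit 390) (@Lb.t (@Lb.fp (nat_lit 9) t921)))))))))))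
noncomputable def l2813 : Lb := (@Lb.d (nat_lit 2) (nat_lit 2) (nat_lit 2) (@Lb.g g8 (@Lb.g g9 (@Lb.g g10 (@Lb.g g11 (@Lb.r r1371 (@Lb.r r386 (@Lb.r r97 (@Lb.r r24 (@Lb.d (nat_lit 256) (nat_lit 168) (nat_lit 329) (@Lb.fm (nat_lit 9) t499)))))))))))
noncomputable def l2814 : Lb := (@Lb.d (nat_lit 2) (nat_lit 260) (nat_lit 0) (@Lb.g g8 (@Lb.g g9 (@Lb.g g10 (@Lb.g g11 (@Lb.r r1371 (@Lb.r r386 (@Lb.r r97 (@Lb.r r24 (@Lb.d (nat_lit 256) (nat_lit 161) (nat_lit 330) (@Lb.fm (nat_lit 9) t922)))))))))))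
noncomputable def l2815 : Lb := (@Lb.d (nat_lit 8) (nat_lit 36) (nat_lit 64) (@Lb.g g9 (@Lb.g g10 (@Lb.g g11 (@Lb.r r387 (@Lb.r r2136 (@Lb.r r2438 (@Lb.r r593 (@Lb.d (nat_lit 338) (nat_lit 38) (nat_lit 649) (@Lb.t (@Lb.fm (nat_lit 9) t923)))))))))))
noncomputable def l2816 : Lb := (@Lb.d (nat_lit 401) (nat_lit 0) (nat_lit 129) (@Lb.r r1604 (@Lb.r r402 (@Lb.r r89 (@Lb.g g11 (@Lb.g g4 (@Lb.d (nat_lit 5) (nat_lit 0) (nat_lit 0) (@Lb.fm (nat_lit 3) t890))))))))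
noncomputable def l2817 : Lb := (@Lb.d (nat_lit 130) (nat_lit 548) (nat_lit 0) (@Lb.g g8 (@Lb.g g9 (@Lb.g g10 (@Lb.r r1450 (@Lb.r r583 (@Lb.r r408 (@Lb.r r2085 (@Lb.d (nat_lit 69) (nat_lit 150) (nat_lit 666) (@Lb.t (@Lb.fm (nat_lit 9) t924)))))))))))
noncomputable def l2818 : Lb := (@Lb.r r82 (@Lb.g g5 (@Lb.r r2402 (@Lb.r r2321 (@Lb.d (nat_lit 0) (nat_lit 256) (nat_lit 320) (@Lb.t (@Lb.fm (nat_lit 3) t84)))))))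
noncomputable def l2819 : Lb := (@Lb.d (nat_lit 401) (nat_lit 512) (nat_lit 129) (@Lb.r r1604 (@Lb.r r402 (@Lb.r r89 (@Lb.g g11 (@Lb.g g4 (@Lb.d (nat_lit 6) (nat_lit 0) (nat_lit 0) (@Lb.fm (nat_lit 3) t376))))))))
noncomputable def l2820 : Lb := (@Lb.r r277 (@Lb.r r326 (@Lb.d (nat_lit 293) (nat_lit 256) (nat_lit 0) (@Lb.g g4 (@Lb.g g11 (@Lb.r r551 (@Lb.r r2626 (@Lb.r r2661 (@Lb.d (nat_lit 1) (nat_lit 25) (nat_lit 514) (@Lb.fp (nat_lit 3) t921))))))))))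
noncomputable def l2821 : Lb := (@Lb.d (nat_lit 0) (nat_lit 258) (nat_lit 72) (@Lb.r r402 (@Lb.g g11 (@Lb.g g9 (@Lb.g g4 (@Lb.d (nat_lit 0) (nat_lit 10) (nat_lit 0) (@Lb.t (@Lb.fm (nat_lit 9) t374))))))))
noncomputable def l2822 : Lb := (@Lb.d (nat_lit 1) (nat_lit 36) (nat_lit 64) (@Lb.g g4 (@Lb.g g9 (@Lb.g g10 (@Lb.g g11 (@Lb.r r387 (@Lb.r r145 (@Lb.r r1426 (@Lb.d (nat_lit 1) (nat_lit 149) (nat_lit 665) (@Lb.fp (nat_lit 9) t749))))))))))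
noncomputable def l2823 : Lb := (@Lb.d (nat_lit 8) (nat_lit 546) (nat_lit 0) (@Lb.g g5 (@Lb.r r680 (@Lb.r r2667 (@Lb.r r2178 (@Lb.r r2713 (@Lb.d (nat_lit 134) (nat_lit 85) (nat_lit 618) (@Lb.t (@Lb.fp (nat_lit 3) t307)))))))))
noncomputable def l2824 : Lb := (@Lb.d (nat_lit 329) (nat_lit 593) (nat_lit 520) (@Lb.r r2583 (@Lb.r r1384 (@Lb.r r361 (@Lb.r r1622 (@Lb.g g7 (@Lb.d (nat_lit 64) (nat_lit 16) (nat_lit 132) (@Lb.t (@Lb.fp (nat_lit 3) t322)))))))))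
noncomputable def l2825 : Lb := (@Lb.d (nat_lit 0) (nat_lit 548) (nat_lit 64) (@Lb.g g4 (@Lb.g g9 (@Lb.g g10 (@Lb.g g11 (@Lb.r r387 (@Lb.r r145 (@Lb.r r1426 (@Lb.d (nat_lit 0) (nat_lit 149) (nat_lit 665) (@Lb.fp (nat_lit 9) t749))))))))))
noncomputable def l2826 : Lb := (@Lb.d (nat_lit 145) (nat_lit 256) (nat_lit 600) (@Lb.r r24 (@Lb.r r2725 (@Lb.r r386 (@Lb.r r1427 (@Lb.g g7 (@Lb.g g6 (@Lb.g g5 (@Lb.d (nat_lit 0) (nat_lit 10) (nat_lit 64) (@Lb.t (@Lb.fm (nat_lit 9) t50)))))))))))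
noncomputable def l2827 : Lb := (@Lb.d (nat_lit 69) (nat_lit 618) (nat_lit 262) (@Lb.r r2392 (@Lb.r r2178 (@Lb.r r2695 (@Lb.g g5 (@Lb.g g4 (@Lb.d (nat_lit 65) (nat_lit 25) (nat_lit 0) (@Lb.fp (nat_lit 3) t296))))))))
noncomputable def l2828 : Lb := (@Lb.d (nat_lit 2) (nat_lit 514) (nat_lit 130) (@Lb.g g8 (@Lb.g g9 (@Lb.g g10 (@Lb.g g11 (@Lb.r r2411 (@Lb.r r386 (@Lb.r r97 (@Lb.r r24 (@Lb.d (nat_lit 266) (nat_lit 9) (nat_lit 86) (@Lb.fm (nat_lit 9) t61)))))))))))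
noncomputable def l2829 : Lb := (@Lb.d (nat_lit 128) (nat_lit 2) (nat_lit 133) (@Lb.g g9 (@Lb.g g10 (@Lb.g g11 (@Lb.r r328 (@Lb.r r678 (@Lb.r r665 (@Lb.r r539 (@Lb.d (nat_lit 70) (nat_lit 66) (nat_lit 262) (@Lb.t (@Lb.fp (nat_lit 9) t210)))))))))))
noncomputable def l2830 : Lb := (@Lb.r r323 (@Lb.d (nat_lit 32) (nat_lit 546) (nat_lit 2) (@Lb.g g9 (@Lb.g g10 (@Lb.r r584 (@Lb.r r331 (@Lb.r r342 (@Lb.r r409 (@Lb.d (nat_lit 149) (nat_lit 88) (nat_lit 262) (@Lb.fp (nat_lit 3) t210))))))))))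
noncomputable def l2831 : Lb := (@Lb.r r323 (@Lb.d (nat_lit 138) (nat_lit 1) (nat_lit 2) (@Lb.g g8 (@Lb.g g9 (@Lb.g g10 (@Lb.r r2410 (@Lb.r r2409 (@Lb.r r1367 (@Lb.r r2696 (@Lb.d (nat_lit 345) (nat_lit 70) (nat_lit 354) (@Lb.t (@Lb.fm (nat_lit 9) t51))))))))))))
noncomputable def l2832 : Lb := (@Lb.d (nat_lit 128) (nat_lit 288) (nat_lit 64) (@Lb.g g11 (@Lb.r r356 (@Lb.r r2405 (@Lb.r r2650 (@Lb.r r1627 (@Lb.d (nat_lit 169) (nat_lit 102) (nat_lit 666) (@Lb.t (@Lb.fp (nat_lit 3) t322)))))))))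
noncomputable def l2833 : Lb := (@Lb.r r424 (@Lb.r r2473 (@Lb.r r1450 (@Lb.r r343 (@Lb.r r1188 (@Lb.d (nat_lit 1) (nat_lit 0) (nat_lit 576) (@Lb.fm (nat_lit 1) t322)))))))
noncomputable def l2834 : Lb := (@Lb.d (nat_lit 128) (nat_lit 32) (nat_lit 64) (@Lb.g g11 (@Lb.r r356 (@Lb.r r2405 (@Lb.r r2650 (@Lb.r r1627 (@Lb.d (nat_lit 170) (nat_lit 102) (nat_lit 666) (@Lb.t (@Lb.fp (nat_lit 3) t322)))))))))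
noncomputable def l2835 : Lb := (@Lb.r r82 (@Lb.r r275 (@Lb.d (nat_lit 2) (nat_lit 512) (nat_lit 0) (@Lb.g g8 (@Lb.g g9 (@Lb.r r2201 (@Lb.r r402 (@Lb.r r1603 (@Lb.d (nat_lit 641) (nat_lit 145) (nat_lit 512) (@Lb.fm (nat_lit 3) t925))))))))))
noncomputable def l2836 : Lb := (@Lb.r r323 (@Lb.d (nat_lit 2) (nat_lit 258) (nat_lit 0) (@Lb.g g8 (@Lb.g g9 (@Lb.g g10 (@Lb.r r2666 (@Lb.r r1635 (@Lb.r r1553 (@Lb.d (nat_lit 390) (nat_lit 18) (nat_lit 512) (@Lb.t (@Lb.fp (nat_lit 9) t926)))))))))))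
noncomputable def l2837 : Lb := (@Lb.d (nat_lit 0) (nat_lit 528) (nat_lit 138) (@Lb.g g9 (@Lb.g g10 (@Lb.g g11 (@Lb.r r98 (@Lb.r r337 (@Lb.r r2595 (@Lb.r r529 (@Lb.d (nat_lit 0) (nat_lit 146) (nat_lit 88) (@Lb.t (@Lb.fp (nat_lit 9) t917)))))))))))
noncomputable def l2838 : Lb := (@Lb.d (nat_lit 8) (nat_lit 4) (nat_lit 128) (@Lb.g g9 (@Lb.g g10 (@Lb.g g11 (@Lb.r r1703 (@Lb.r r2392 (@Lb.r r1158 (@Lb.r r1617 (@Lb.d (nat_lit 289) (nat_lit 102) (nat_lit 386) (@Lb.t (@Lb.fp (nat_lit 9) t927)))))))))))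
noncomputable def l2839 : Lb := (@Lb.r r82 (@Lb.r r275 (@Lb.d (nat_lit 34) (nat_lit 264) (nat_lit 0) (@Lb.g g8 (@Lb.g g9 (@Lb.r r427 (@Lb.r r582 (@Lb.r r408 (@Lb.d (nat_lit 144) (nat_lit 26) (nat_lit 16) (@Lb.fp (nat_lit 3) t753))))))))))
noncomputable def l2840 : Lb := (@Lb.r r273 (@Lb.r r322 (@Lb.d (nat_lit 2) (nat_lit 544) (nat_lit 0) (@Lb.g g8 (@Lb.g g11 (@Lb.r r1381 (@Lb.r r146 (@Lb.d (nat_lit 661) (nat_lit 81) (nat_lit 529) (@Lb.fm (nat_lit 3) t928)))))))))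
noncomputable def l2841 : Lb := (@Lb.r r21 (@Lb.d (nat_lit 145) (nat_lit 0) (nat_lit 128) (@Lb.g g8 (@Lb.g g10 (@Lb.g g11 (@Lb.r r423 (@Lb.r r2401 (@Lb.r r90 (@Lb.r r1156 (@Lb.d (nat_lit 106) (nat_lit 69) (nat_lit 514) (@Lb.t (@Lb.fp (nat_lit 9) t929))))))))))))
noncomputable def l2842 : Lb := (@Lb.d (nat_lit 2) (nat_lit 0) (nat_lit 128) (@Lb.g g8 (@Lb.g g9 (@Lb.g g11 (@Lb.r r406 (@Lb.r r2659 (@Lb.r r2661 (@Lb.r r24 (@Lb.d (nat_lit 2) (nat_lit 26) (nat_lit 66) (@Lb.t (@Lb.fm (nat_lit 9) t930)))))))))))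
noncomputable def l2843 : Lb := (@Lb.r r82 (@Lb.r r275 (@Lb.d (nat_lit 34) (nat_lit 8) (nat_lit 0) (@Lb.g g8 (@Lb.g g9 (@Lb.r r427 (@Lb.r r582 (@Lb.r r408 (@Lb.d (nat_lit 154) (nat_lit 25) (nat_lit 154) (@Lb.fp (nat_lit 3) t573))))))))))
noncomputable def l2844 : Lb := (@Lb.d (nat_lit 646) (nat_lit 88) (nat_lit 80) (@Lb.r r1301 (@Lb.r r1366 (@Lb.r r683 (@Lb.g g6 (@Lb.g g5 (@Lb.g g4 (@Lb.d (nat_lit 1) (nat_lit 1) (nat_lit 1) (@Lb.t (@Lb.fm (nat_lit 9) t918))))))))))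
noncomputable def l2845 : Lb := (@Lb.d (nat_lit 2) (nat_lit 516) (nat_lit 138) (@Lb.g g8 (@Lb.g g9 (@Lb.g g10 (@Lb.g g11 (@Lb.r r1699 (@Lb.r r2705 (@Lb.r r612 (@Lb.r r666 (@Lb.r r1156 (@Lb.d (nat_lit 329) (nat_lit 33) (nat_lit 138) (@Lb.fp (nat_lit 9) t924))))))))))))
noncomputable def l2846 : Lb := (@Lb.d (nat_lit 390) (nat_lit 152) (nat_lit 592) (@Lb.r r2325 (@Lb.r r2390 (@Lb.r r2731 (@Lb.g g6 (@Lb.g g5 (@Lb.g g4 (@Lb.d (nat_lit 1) (nat_lit 0) (nat_lit 1) (@Lb.t (@Lb.fm (nat_lit 9) t918))))))))))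
noncomputable def l2847 : Lb := (@Lb.d (nat_lit 2) (nat_lit 260) (nat_lit 138) (@Lb.g g8 (@Lb.g g9 (@Lb.g g10 (@Lb.g g11 (@Lb.r r1626 (@Lb.r r2659 (@Lb.r r97 (@Lb.r r24 (@Lb.d (nat_lit 426) (nat_lit 40) (nat_lit 601) (@Lb.fm (nat_lit 9) t931)))))))))))
noncomputable def l2848 : Lb := (@Lb.d (nat_lit 1) (nat_lit 293) (nat_lit 129) (@Lb.r r24 (@Lb.r r2661 (@Lb.r r2659 (@Lb.r r406 (@Lb.g g7 (@Lb.g g5 (@Lb.g g4 (@Lb.d (nat_lit 1) (nat_lit 0) (nat_lit 64) (@Lb.t (@Lb.fp (nat_lit 9) t47)))))))))))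
noncomputable def l2849 : Lb := (@Lb.d (nat_lit 9) (nat_lit 4) (nat_lit 128) (@Lb.g g8 (@Lb.g g9 (@Lb.g g10 (@Lb.g g11 (@Lb.r r618 (@Lb.r r612 (@Lb.r r295 (@Lb.r r289 (@Lb.r r36 (@Lb.d (nat_lit 2) (nat_lit 34) (nat_lit 74) (@Lb.fm (nat_lit 9) t238))))))))))))
noncomputable def l2850 : Lb := (@Lb.d (nat_lit 0) (nat_lit 256) (nat_lit 2) (@Lb.g g9 (@Lb.g g10 (@Lb.r r1169 (@Lb.r r146 (@Lb.d (nat_lit 0) (nat_lit 129) (nat_lit 18) (@Lb.fp (nat_lit 3) t932)))))))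
noncomputable def l2851 : Lb := (@Lb.d (nat_lit 0) (nat_lit 516) (nat_lit 128) (@Lb.g g9 (@Lb.g g10 (@Lb.g g11 (@Lb.r r427 (@Lb.r r417 (@Lb.r r98 (@Lb.r r24 (@Lb.d (nat_lit 74) (nat_lit 40) (nat_lit 137) (@Lb.t (@Lb.fm (nat_lit 9) t933)))))))))))
noncomputable def l2852 : Lb := (@Lb.d (nat_lit 0) (nat_lit 517) (nat_lit 128) (@Lb.g g9 (@Lb.g g10 (@Lb.g g11 (@Lb.r r2403 (@Lb.r r386 (@Lb.r r2725 (@Lb.d (nat_lit 148) (nat_lit 26) (nat_lit 420) (@Lb.t (@Lb.fm (nat_lit 9) t934))))))))))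
noncomputable def l2853 : Lb := (@Lb.d (nat_lit 2) (nat_lit 516) (nat_lit 128) (@Lb.g g8 (@Lb.g g9 (@Lb.g g10 (@Lb.g g11 (@Lb.r r427 (@Lb.r r145 (@Lb.r r356 (@Lb.r r154 (@Lb.r r132 (@Lb.d (nat_lit 9) (nat_lit 2) (nat_lit 137) (@Lb.fm (nat_lit 9) t601))))))))))))
noncomputable def l2854 : Lb := (@Lb.d (nat_lit 672) (nat_lit 150) (nat_lit 336) (@Lb.r r2321 (@Lb.r r2666 (@Lb.r r679 (@Lb.g g7 (@Lb.g g6 (@Lb.g g5 (@Lb.g g8 (@Lb.d (nat_lit 10) (nat_lit 5) (nat_lit 132) (@Lb.fp (nat_lit 9) t735))))))))))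
noncomputable def l2855 : Lb := (@Lb.d (nat_lit 1) (nat_lit 4) (nat_lit 128) (@Lb.g g8 (@Lb.g g9 (@Lb.g g10 (@Lb.g g11 (@Lb.r r427 (@Lb.r r145 (@Lb.r r356 (@Lb.r r154 (@Lb.r r132 (@Lb.d (nat_lit 9) (nat_lit 2) (nat_lit 137) (@Lb.fm (nat_lit 9) t601))))))))))))
noncomputable def l2856 : Lb := (@Lb.d (nat_lit 136) (nat_lit 516) (nat_lit 128) (@Lb.g g9 (@Lb.g g10 (@Lb.g g11 (@Lb.r r618 (@Lb.r r24 (@Lb.r r405 (@Lb.r r611 (@Lb.d (nat_lit 137) (nat_lit 18) (nat_lit 130) (@Lb.t (@Lb.fm (nat_lit 9) t935)))))))))))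
noncomputable def l2857 : Lb := (@Lb.r r82 (@Lb.d (nat_lit 2) (nat_lit 256) (nat_lit 64) (@Lb.g g8 (@Lb.g g9 (@Lb.g g11 (@Lb.r r1689 (@Lb.r r146 (@Lb.d (nat_lit 609) (nat_lit 5) (nat_lit 144) (@Lb.t (@Lb.fp (nat_lit 9) t653))))))))))
noncomputable def l2858 : Lb := (@Lb.d (nat_lit 2) (nat_lit 4) (nat_lit 128) (@Lb.g g8 (@Lb.g g9 (@Lb.g g10 (@Lb.g g11 (@Lb.r r427 (@Lb.r r417 (@Lb.r r98 (@Lb.r r24 (@Lb.d (nat_lit 265) (nat_lit 66) (nat_lit 330) (@Lb.fp (nat_lit 9) t936)))))))))))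
noncomputable def l2859 : Lb := (@Lb.d (nat_lit 2) (nat_lit 512) (nat_lit 2) (@Lb.g g8 (@Lb.g g9 (@Lb.g g10 (@Lb.r r515 (@Lb.r r1642 (@Lb.r r1561 (@Lb.d (nat_lit 585) (nat_lit 100) (nat_lit 5) (@Lb.t (@Lb.fp (nat_lit 9) t588))))))))))
noncomputable def l2860 : Lb := (@Lb.d (nat_lit 2) (nat_lit 548) (nat_lit 4) (@Lb.g g8 (@Lb.g g9 (@Lb.g g10 (@Lb.g g11 (@Lb.r r1387 (@Lb.r r1442 (@Lb.r r36 (@Lb.r r149 (@Lb.r r1060 (@Lb.d (nat_lit 417) (nat_lit 104) (nat_lit 609) (@Lb.fm (nat_lit 9) t937))))))))))))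
noncomputable def l2861 : Lb := (@Lb.r r21 (@Lb.d (nat_lit 0) (nat_lit 8) (nat_lit 130) (@Lb.g g8 (@Lb.g g10 (@Lb.g g11 (@Lb.r r2443 (@Lb.r r2345 (@Lb.r r2468 (@Lb.r r390 (@Lb.d (nat_lit 98) (nat_lit 2) (nat_lit 138) (@Lb.t (@Lb.fm (nat_lit 9) t51))))))))))))
noncomputable def l2862 : Lb := (@Lb.r r323 (@Lb.d (nat_lit 2) (nat_lit 512) (nat_lit 1) (@Lb.g g8 (@Lb.g g9 (@Lb.g g6 (@Lb.r r387 (@Lb.r r2145 (@Lb.r r24 (@Lb.d (nat_lit 10) (nat_lit 73) (nat_lit 34) (@Lb.t (@Lb.fp (nat_lit 9) t40)))))))))))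
noncomputable def l2863 : Lb := (@Lb.d (nat_lit 1) (nat_lit 0) (nat_lit 0) (@Lb.g g4 (@Lb.d (nat_lit 2) (nat_lit 0) (nat_lit 0) (@Lb.t (@Lb.fm (nat_lit 3) t2)))))
noncomputable def l2864 : Lb := (@Lb.d (nat_lit 0) (nat_lit 258) (nat_lit 128) (@Lb.g g9 (@Lb.g g11 (@Lb.r r328 (@Lb.r r2471 (@Lb.r r405 (@Lb.r r86 (@Lb.r r1188 (@Lb.d (nat_lit 2) (nat_lit 66) (nat_lit 297) (@Lb.fp (nat_lit 3) t2))))))))))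
noncomputable def l2865 : Lb := (@Lb.d (nat_lit 6) (nat_lit 4) (nat_lit 64) (@Lb.r r609 (@Lb.r r619 (@Lb.r r584 (@Lb.r r326 (@Lb.g g7 (@Lb.g g6 (@Lb.g g5 (@Lb.d (nat_lit 4) (nat_lit 1) (nat_lit 65) (@Lb.t (@Lb.fm (nat_lit 9) t68)))))))))))
noncomputable def l2866 : Lb := (@Lb.r r24 (@Lb.r r101 (@Lb.r r402 (@Lb.r r579 (@Lb.fp (nat_lit 1) t242)))))
noncomputable def l2867 : Lb := (@Lb.r r82 (@Lb.d (nat_lit 128) (nat_lit 258) (nat_lit 136) (@Lb.g g9 (@Lb.g g11 (@Lb.r r410 (@Lb.r r408 (@Lb.r r615 (@Lb.d (nat_lit 154) (nat_lit 24) (nat_lit 18) (@Lb.fp (nat_lit 3) t938)))))))))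
noncomputable def l2868 : Lb := (@Lb.r r81 (@Lb.d (nat_lit 24) (nat_lit 544) (nat_lit 146) (@Lb.g g8 (@Lb.g g6 (@Lb.g g11 (@Lb.r r1173 (@Lb.r r2408 (@Lb.r r263 (@Lb.d (nat_lit 66) (nat_lit 106) (nat_lit 580) (@Lb.t (@Lb.fm (nat_lit 9) t204)))))))))))
noncomputable def l2869 : Lb := (@Lb.d (nat_lit 2) (nat_lit 258) (nat_lit 130) (@Lb.g g8 (@Lb.g g9 (@Lb.g g10 (@Lb.g g11 (@Lb.r r427 (@Lb.r r145 (@Lb.r r356 (@Lb.r r154 (@Lb.r r132 (@Lb.d (nat_lit 9) (nat_lit 9) (nat_lit 153) (@Lb.fm (nat_lit 9) t221))))))))))))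
noncomputable def l2870 : Lb := (@Lb.d (nat_lit 129) (nat_lit 258) (nat_lit 66) (@Lb.g g8 (@Lb.g g9 (@Lb.g g10 (@Lb.g g11 (@Lb.r r599 (@Lb.r r1706 (@Lb.r r1625 (@Lb.r r1604 (@Lb.d (nat_lit 409) (nat_lit 9) (nat_lit 290) (@Lb.fp (nat_lit 9) t394)))))))))))
noncomputable def l2871 : Lb := (@Lb.d (nat_lit 0) (nat_lit 512) (nat_lit 130) (@Lb.g g9 (@Lb.g g10 (@Lb.g g11 (@Lb.r r2691 (@Lb.r r2658 (@Lb.d (nat_lit 0) (nat_lit 37) (nat_lit 425) (@Lb.t (@Lb.fp (nat_lit 9) t71)))))))))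
noncomputable def l2872 : Lb := (@Lb.d (nat_lit 128) (nat_lit 512) (nat_lit 128) (@Lb.g g10 (@Lb.g g11 (@Lb.r r264 (@Lb.r r519 (@Lb.r r101 (@Lb.r r2194 (@Lb.d (nat_lit 657) (nat_lit 0) (nat_lit 21) (@Lb.fm (nat_lit 3) t939)))))))))
noncomputable def l2873 : Lb := (@Lb.d (nat_lit 32) (nat_lit 0) (nat_lit 130) (@Lb.g g9 (@Lb.g g10 (@Lb.g g11 (@Lb.r r2695 (@Lb.r r1352 (@Lb.r r2390 (@Lb.r r289 (@Lb.d (nat_lit 666) (nat_lit 73) (nat_lit 362) (@Lb.t (@Lb.fp (nat_lit 9) t242)))))))))))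
noncomputable def l2874 : Lb := (@Lb.r r609 (@Lb.r r548 (@Lb.r r295 (@Lb.r r390 (@Lb.r r516 (@Lb.d (nat_lit 512) (nat_lit 512) (nat_lit 101) (@Lb.fp (nat_lit 1) t40)))))))
noncomputable def l2875 : Lb := (@Lb.d (nat_lit 134) (nat_lit 544) (nat_lit 2) (@Lb.g g8 (@Lb.g g9 (@Lb.g g10 (@Lb.r r343 (@Lb.r r162 (@Lb.r r2712 (@Lb.r r165 (@Lb.d (nat_lit 32) (nat_lit 145) (nat_lit 425) (@Lb.t (@Lb.fp (nat_lit 9) t284)))))))))))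
noncomputable def l2876 : Lb := (@Lb.d (nat_lit 2) (nat_lit 514) (nat_lit 66) (@Lb.g g8 (@Lb.g g9 (@Lb.g g10 (@Lb.g g11 (@Lb.r r148 (@Lb.r r102 (@Lb.r r357 (@Lb.r r667 (@Lb.r r644 (@Lb.d (nat_lit 9) (nat_lit 2) (nat_lit 74) (@Lb.fp (nat_lit 9) t2))))))))))))
noncomputable def l2877 : Lb := (@Lb.d (nat_lit 8) (nat_lit 522) (nat_lit 128) (@Lb.g g9 (@Lb.g g11 (@Lb.r r402 (@Lb.r r584 (@Lb.r r2411 (@Lb.r r2401 (@Lb.d (nat_lit 2) (nat_lit 170) (nat_lit 678) (@Lb.fp (nat_lit 3) t825)))))))))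
noncomputable def l2878 : Lb := (@Lb.r r82 (@Lb.d (nat_lit 33) (nat_lit 2) (nat_lit 128) (@Lb.g g8 (@Lb.g g9 (@Lb.g g11 (@Lb.r r363 (@Lb.r r582 (@Lb.r r388 (@Lb.d (nat_lit 98) (nat_lit 8) (nat_lit 153) (@Lb.t (@Lb.fm (nat_lit 9) t390)))))))))))
noncomputable def l2879 : Lb := (@Lb.d (nat_lit 145) (nat_lit 600) (nat_lit 646) (@Lb.r r277 (@Lb.r r519 (@Lb.r r264 (@Lb.g g7 (@Lb.g g10 (@Lb.d (nat_lit 80) (nat_lit 0) (nat_lit 66) (@Lb.fp (nat_lit 3) t825))))))))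
noncomputable def l2880 : Lb := (@Lb.d (nat_lit 2) (nat_lit 514) (nat_lit 130) (@Lb.g g8 (@Lb.g g9 (@Lb.g g10 (@Lb.g g11 (@Lb.r r148 (@Lb.r r102 (@Lb.r r357 (@Lb.r r667 (@Lb.r r644 (@Lb.d (nat_lit 9) (nat_lit 2) (nat_lit 10) (@Lb.fp (nat_lit 9) t2))))))))))))
noncomputable def l2881 : Lb := (@Lb.d (nat_lit 32) (nat_lit 73) (nat_lit 9) (@Lb.g g5 (@Lb.g g10 (@Lb.r r587 (@Lb.r r600 (@Lb.r r342 (@Lb.d (nat_lit 86) (nat_lit 101) (nat_lit 646) (@Lb.fp (nat_lit 3) t394))))))))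
noncomputable def l2882 : Lb := (@Lb.d (nat_lit 0) (nat_lit 258) (nat_lit 130) (@Lb.g g9 (@Lb.g g10 (@Lb.g g11 (@Lb.r r2407 (@Lb.r r386 (@Lb.r r148 (@Lb.r r25 (@Lb.d (nat_lit 522) (nat_lit 4) (nat_lit 138) (@Lb.t (@Lb.fp (nat_lit 9) t61)))))))))))
noncomputable def l2883 : Lb := (@Lb.d (nat_lit 0) (nat_lit 258) (nat_lit 130) (@Lb.g g9 (@Lb.g g10 (@Lb.g g11 (@Lb.r r2407 (@Lb.r r386 (@Lb.r r148 (@Lb.r r25 (@Lb.d (nat_lit 514) (nat_lit 5) (nat_lit 138) (@Lb.t (@Lb.fp (nat_lit 9) t61)))))))))))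
noncomputable def l2884 : Lb := (@Lb.d (nat_lit 2) (nat_lit 260) (nat_lit 64) (@Lb.g g8 (@Lb.g g9 (@Lb.g g10 (@Lb.g g7 (@Lb.r r386 (@Lb.r r97 (@Lb.d (nat_lit 2) (nat_lit 138) (nat_lit 9) (@Lb.fm (nat_lit 9) t267)))))))))
noncomputable def l2885 : Lb := (@Lb.d (nat_lit 0) (nat_lit 516) (nat_lit 64) (@Lb.g g8 (@Lb.g g9 (@Lb.g g10 (@Lb.g g7 (@Lb.r r386 (@Lb.r r97 (@Lb.d (nat_lit 0) (nat_lit 138) (nat_lit 9) (@Lb.fm (nat_lit 9) t267)))))))))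
noncomputable def l2886 : Lb := (@Lb.g g10 (@Lb.r r579 (@Lb.r r402 (@Lb.r r2145 (@Lb.r r36 (@Lb.d (nat_lit 5) (nat_lit 257) (nat_lit 128) (@Lb.t (@Lb.fm (nat_lit 3) t940))))))))
noncomputable def l2887 : Lb := (@Lb.d (nat_lit 2) (nat_lit 550) (nat_lit 5) (@Lb.g g8 (@Lb.g g9 (@Lb.g g10 (@Lb.g g11 (@Lb.r r2723 (@Lb.r r610 (@Lb.r r529 (@Lb.d (nat_lit 2) (nat_lit 41) (nat_lit 657) (@Lb.fm (nat_lit 9) t941))))))))))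
noncomputable def l2888 : Lb := (@Lb.d (nat_lit 0) (nat_lit 4) (nat_lit 64) (@Lb.g g8 (@Lb.g g9 (@Lb.g g10 (@Lb.g g7 (@Lb.r r386 (@Lb.r r97 (@Lb.d (nat_lit 2) (nat_lit 138) (nat_lit 9) (@Lb.fm (nat_lit 9) t267)))))))))
noncomputable def l2889 : Lb := (@Lb.d (nat_lit 160) (nat_lit 264) (nat_lit 128) (@Lb.g g10 (@Lb.g g11 (@Lb.r r1129 (@Lb.r r2152 (@Lb.r r1446 (@Lb.r r355 (@Lb.d (nat_lit 326) (nat_lit 73) (nat_lit 404) (@Lb.fp (nat_lit 3) t322)))))))))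
noncomputable def l2890 : Lb := (@Lb.d (nat_lit 32) (nat_lit 520) (nat_lit 10) (@Lb.g g6 (@Lb.r r1705 (@Lb.r r2728 (@Lb.r r2731 (@Lb.r r682 (@Lb.d (nat_lit 169) (nat_lit 106) (nat_lit 137) (@Lb.t (@Lb.fm (nat_lit 3) t322)))))))))
noncomputable def l2891 : Lb := (@Lb.d (nat_lit 2) (nat_lit 38) (nat_lit 5) (@Lb.g g8 (@Lb.g g9 (@Lb.g g10 (@Lb.g g11 (@Lb.r r2723 (@Lb.r r610 (@Lb.r r529 (@Lb.d (nat_lit 1) (nat_lit 41) (nat_lit 657) (@Lb.fm (nat_lit 9) t941))))))))))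
noncomputable def l2892 : Lb := (@Lb.r r323 (@Lb.d (nat_lit 10) (nat_lit 418) (nat_lit 2) (@Lb.g g8 (@Lb.g g9 (@Lb.g g10 (@Lb.r r599 (@Lb.r r392 (@Lb.r r74 (@Lb.d (nat_lit 17) (nat_lit 4) (nat_lit 153) (@Lb.t (@Lb.fm (nat_lit 9) t221)))))))))))
noncomputable def l2893 : Lb := (@Lb.r r82 (@Lb.d (nat_lit 41) (nat_lit 1) (nat_lit 128) (@Lb.g g8 (@Lb.g g9 (@Lb.g g11 (@Lb.r r363 (@Lb.r r582 (@Lb.r r388 (@Lb.d (nat_lit 98) (nat_lit 8) (nat_lit 153) (@Lb.t (@Lb.fm (nat_lit 9) t390)))))))))))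
noncomputable def l2894 : Lb := (@Lb.d (nat_lit 644) (nat_lit 658) (nat_lit 320) (@Lb.r r289 (@Lb.r r279 (@Lb.r r584 (@Lb.r r166 (@Lb.g g7 (@Lb.g g6 (@Lb.g g5 (@Lb.d (nat_lit 0) (nat_lit 0) (nat_lit 65) (@Lb.t (@Lb.fm (nat_lit 9) t581)))))))))))
noncomputable def l2895 : Lb := (@Lb.d (nat_lit 33) (nat_lit 0) (nat_lit 9) (@Lb.r r154 (@Lb.r r404 (@Lb.r r363 (@Lb.r r353 (@Lb.g g7 (@Lb.g g6 (@Lb.g g4 (@Lb.d (nat_lit 5) (nat_lit 4) (nat_lit 65) (@Lb.t (@Lb.fp (nat_lit 9) t51)))))))))))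
noncomputable def l2896 : Lb := (@Lb.d (nat_lit 9) (nat_lit 2) (nat_lit 65) (@Lb.g g8 (@Lb.g g9 (@Lb.g g10 (@Lb.g g11 (@Lb.r r401 (@Lb.r r619 (@Lb.r r616 (@Lb.r r86 (@Lb.r r153 (@Lb.d (nat_lit 2) (nat_lit 1) (nat_lit 137) (@Lb.fp (nat_lit 9) t2))))))))))))
noncomputable def l2897 : Lb := (@Lb.d (nat_lit 644) (nat_lit 402) (nat_lit 258) (@Lb.r r289 (@Lb.r r279 (@Lb.r r584 (@Lb.g g7 (@Lb.g g10 (@Lb.d (nat_lit 32) (nat_lit 4) (nat_lit 66) (@Lb.fp (nat_lit 3) t582))))))))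
noncomputable def l2898 : Lb := (@Lb.d (nat_lit 33) (nat_lit 512) (nat_lit 8) (@Lb.r r154 (@Lb.r r404 (@Lb.r r363 (@Lb.r r353 (@Lb.g g7 (@Lb.g g6 (@Lb.g g4 (@Lb.d (nat_lit 4) (nat_lit 0) (nat_lit 64) (@Lb.t (@Lb.fp (nat_lit 9) t51)))))))))))
noncomputable def l2899 : Lb := (@Lb.r r289 (@Lb.r r420 (@Lb.r r603 (@Lb.r r390 (@Lb.r r516 (@Lb.d (nat_lit 0) (nat_lit 602) (nat_lit 266) (@Lb.fm (nat_lit 1) t845)))))))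
noncomputable def l2900 : Lb := (@Lb.d (nat_lit 8) (nat_lit 2) (nat_lit 130) (@Lb.g g9 (@Lb.g g10 (@Lb.g g11 (@Lb.r r586 (@Lb.r r584 (@Lb.r r299 (@Lb.r r289 (@Lb.d (nat_lit 9) (nat_lit 137) (nat_lit 2) (@Lb.t (@Lb.fm (nat_lit 9) t51)))))))))))
noncomputable def l2901 : Lb := (@Lb.d (nat_lit 9) (nat_lit 520) (nat_lit 2) (@Lb.g g8 (@Lb.g g10 (@Lb.r r277 (@Lb.r r363 (@Lb.r r356 (@Lb.r r586 (@Lb.d (nat_lit 34) (nat_lit 10) (nat_lit 17) (@Lb.fm (nat_lit 3) t564)))))))))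
noncomputable def l2902 : Lb := (@Lb.d (nat_lit 1) (nat_lit 586) (nat_lit 644) (@Lb.r r277 (@Lb.r r402 (@Lb.r r519 (@Lb.r r264 (@Lb.g g7 (@Lb.d (nat_lit 64) (nat_lit 0) (nat_lit 64) (@Lb.t (@Lb.fp (nat_lit 3) t942)))))))))
noncomputable def l2903 : Lb := (@Lb.d (nat_lit 0) (nat_lit 512) (nat_lit 10) (@Lb.g g10 (@Lb.r r323 (@Lb.r r658 (@Lb.r r101 (@Lb.r r24 (@Lb.d (nat_lit 2) (nat_lit 0) (nat_lit 20) (@Lb.t (@Lb.fm (nat_lit 3) t564)))))))))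
noncomputable def l2904 : Lb := (@Lb.d (nat_lit 80) (nat_lit 88) (nat_lit 649) (@Lb.r r340 (@Lb.r r289 (@Lb.r r330 (@Lb.g g11 (@Lb.g g4 (@Lb.d (nat_lit 17) (nat_lit 0) (nat_lit 0) (@Lb.fm (nat_lit 3) t943))))))))
noncomputable def l2905 : Lb := (@Lb.d (nat_lit 0) (nat_lit 577) (nat_lit 389) (@Lb.r r1284 (@Lb.r r579 (@Lb.r r402 (@Lb.g g7 (@Lb.g g5 (@Lb.g g4 (@Lb.d (nat_lit 0) (nat_lit 134) (nat_lit 132) (@Lb.t (@Lb.fp (nat_lit 9) t730))))))))))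
noncomputable def l2906 : Lb := (@Lb.d (nat_lit 266) (nat_lit 4) (nat_lit 33) (@Lb.r r134 (@Lb.r r328 (@Lb.r r407 (@Lb.r r609 (@Lb.g g11 (@Lb.g g6 (@Lb.fm (nat_lit 3) t944))))))))
noncomputable def l2907 : Lb := (@Lb.d (nat_lit 266) (nat_lit 2) (nat_lit 96) (@Lb.r r134 (@Lb.r r328 (@Lb.r r407 (@Lb.r r609 (@Lb.g g11 (@Lb.g g4 (@Lb.fm (nat_lit 3) t334))))))))
noncomputable def l2908 : Lb := (@Lb.d (nat_lit 8) (nat_lit 2) (nat_lit 128) (@Lb.g g9 (@Lb.g g11 (@Lb.r r134 (@Lb.r r584 (@Lb.r r619 (@Lb.r r609 (@Lb.d (nat_lit 8) (nat_lit 72) (nat_lit 18) (@Lb.fm (nat_lit 3) t334)))))))))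
noncomputable def l2909 : Lb := (@Lb.d (nat_lit 536) (nat_lit 265) (nat_lit 256) (@Lb.r r168 (@Lb.r r89 (@Lb.r r402 (@Lb.g g11 (@Lb.g g4 (@Lb.d (nat_lit 5) (nat_lit 0) (nat_lit 0) (@Lb.fp (nat_lit 3) t945))))))))
noncomputable def l2910 : Lb := (@Lb.d (nat_lit 549) (nat_lit 520) (nat_lit 17) (@Lb.r r597 (@Lb.r r1386 (@Lb.r r1096 (@Lb.r r1371 (@Lb.g g7 (@Lb.g g6 (@Lb.g g5 (@Lb.d (nat_lit 4) (nat_lit 1) (nat_lit 64) (@Lb.t (@Lb.fm (nat_lit 9) t946)))))))))))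
noncomputable def l2911 : Lb := (@Lb.d (nat_lit 266) (nat_lit 514) (nat_lit 32) (@Lb.r r134 (@Lb.r r328 (@Lb.r r407 (@Lb.r r609 (@Lb.g g11 (@Lb.t (@Lb.fm (nat_lit 3) t334))))))))
noncomputable def l2912 : Lb := (@Lb.d (nat_lit 0) (nat_lit 553) (nat_lit 582) (@Lb.r r2567 (@Lb.r r1448 (@Lb.r r89 (@Lb.g g10 (@Lb.g g4 (@Lb.d (nat_lit 5) (nat_lit 0) (nat_lit 18) (@Lb.r r387 (@Lb.r r145 (@Lb.fp (nat_lit 3) t823))))))))))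
noncomputable def l2913 : Lb := (@Lb.d (nat_lit 290) (nat_lit 517) (nat_lit 32) (@Lb.fp (nat_lit 1) t947))
noncomputable def l2914 : Lb := (@Lb.d (nat_lit 0) (nat_lit 544) (nat_lit 2) (@Lb.g g9 (@Lb.g g10 (@Lb.r r283 (@Lb.r r1368 (@Lb.r r2214 (@Lb.r r165 (@Lb.d (nat_lit 37) (nat_lit 132) (nat_lit 2) (@Lb.fp (nat_lit 3) t2)))))))))
noncomputable def l2915 : Lb := (@Lb.d (nat_lit 32) (nat_lit 512) (nat_lit 2) (@Lb.g g10 (@Lb.r r1352 (@Lb.r r2455 (@Lb.r r1633 (@Lb.r r2450 (@Lb.d (nat_lit 10) (nat_lit 153) (nat_lit 665) (@Lb.t (@Lb.fm (nat_lit 3) t2)))))))))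
noncomputable def l2916 : Lb := (@Lb.g g7 (@Lb.r r609 (@Lb.r r363 (@Lb.r r328 (@Lb.r r134 (@Lb.d (nat_lit 517) (nat_lit 513) (nat_lit 16) (@Lb.t (@Lb.fp (nat_lit 3) t40))))))))
noncomputable def l2917 : Lb := (@Lb.d (nat_lit 576) (nat_lit 584) (nat_lit 101) (@Lb.r r1619 (@Lb.r r421 (@Lb.r r2136 (@Lb.r r1190 (@Lb.g g7 (@Lb.g g6 (@Lb.g g5 (@Lb.d (nat_lit 64) (nat_lit 5) (nat_lit 66) (@Lb.t (@Lb.fp (nat_lit 9) t948)))))))))))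
noncomputable def l2918 : Lb := (@Lb.r r323 (@Lb.d (nat_lit 0) (nat_lit 41) (nat_lit 1) (@Lb.g g8 (@Lb.g g9 (@Lb.g g10 (@Lb.r r275 (@Lb.r r74 (@Lb.r r616 (@Lb.r r537 (@Lb.d (nat_lit 72) (nat_lit 160) (nat_lit 640) (@Lb.t (@Lb.fp (nat_lit 9) t949))))))))))))
noncomputable def l2919 : Lb := (@Lb.r r323 (@Lb.d (nat_lit 2) (nat_lit 41) (nat_lit 1) (@Lb.g g8 (@Lb.g g9 (@Lb.g g10 (@Lb.r r599 (@Lb.r r392 (@Lb.r r74 (@Lb.d (nat_lit 17) (nat_lit 4) (nat_lit 89) (@Lb.t (@Lb.fm (nat_lit 9) t950)))))))))))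
noncomputable def l2920 : Lb := (@Lb.d (nat_lit 0) (nat_lit 9) (nat_lit 129) (@Lb.g g8 (@Lb.g g9 (@Lb.g g10 (@Lb.g g11 (@Lb.r r392 (@Lb.r r2698 (@Lb.r r411 (@Lb.r r1621 (@Lb.r r1188 (@Lb.d (nat_lit 640) (nat_lit 137) (nat_lit 130) (@Lb.fp (nat_lit 9) t561))))))))))))
noncomputable def l2921 : Lb := (@Lb.d (nat_lit 0) (nat_lit 514) (nat_lit 66) (@Lb.g g8 (@Lb.g g9 (@Lb.g g10 (@Lb.g g7 (@Lb.r r386 (@Lb.r r97 (@Lb.d (nat_lit 5) (nat_lit 10) (nat_lit 9) (@Lb.fm (nat_lit 9) t285)))))))))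
noncomputable def l2922 : Lb := (@Lb.d (nat_lit 2) (nat_lit 512) (nat_lit 66) (@Lb.g g8 (@Lb.g g10 (@Lb.g g7 (@Lb.r r386 (@Lb.r r2073 (@Lb.d (nat_lit 33) (nat_lit 5) (nat_lit 42) (@Lb.t (@Lb.fm (nat_lit 9) t382)))))))))
noncomputable def l2923 : Lb := (@Lb.d (nat_lit 0) (nat_lit 521) (nat_lit 129) (@Lb.g g8 (@Lb.g g9 (@Lb.g g10 (@Lb.g g11 (@Lb.r r392 (@Lb.r r2698 (@Lb.r r411 (@Lb.r r1621 (@Lb.r r1188 (@Lb.d (nat_lit 640) (nat_lit 130) (nat_lit 128) (@Lb.fp (nat_lit 9) t561))))))))))))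
noncomputable def l2924 : Lb := (@Lb.d (nat_lit 0) (nat_lit 258) (nat_lit 130) (@Lb.g g8 (@Lb.g g9 (@Lb.g g10 (@Lb.g g11 (@Lb.r r2729 (@Lb.r r2724 (@Lb.r r1671 (@Lb.r r1638 (@Lb.d (nat_lit 404) (nat_lit 84) (nat_lit 601) (@Lb.fp (nat_lit 9) t951)))))))))))
noncomputable def l2925 : Lb := (@Lb.d (nat_lit 0) (nat_lit 2) (nat_lit 73) (@Lb.g g8 (@Lb.g g9 (@Lb.g g10 (@Lb.g g11 (@Lb.r r2729 (@Lb.r r2724 (@Lb.r r1671 (@Lb.r r1638 (@Lb.d (nat_lit 404) (nat_lit 82) (nat_lit 600) (@Lb.fp (nat_lit 9) t951)))))))))))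
noncomputable def l2926 : Lb := (@Lb.r r323 (@Lb.d (nat_lit 166) (nat_lit 0) (nat_lit 2) (@Lb.g g8 (@Lb.g g9 (@Lb.g g10 (@Lb.r r1287 (@Lb.r r658 (@Lb.r r2725 (@Lb.r r2584 (@Lb.d (nat_lit 136) (nat_lit 162) (nat_lit 145) (@Lb.t (@Lb.fp (nat_lit 9) t952))))))))))))
noncomputable def l2927 : Lb := (@Lb.d (nat_lit 2) (nat_lit 258) (nat_lit 130) (@Lb.g g8 (@Lb.g g9 (@Lb.g g10 (@Lb.g g11 (@Lb.r r1443 (@Lb.r r297 (@Lb.r r2120 (@Lb.r r1126 (@Lb.d (nat_lit 277) (nat_lit 128) (nat_lit 386) (@Lb.fp (nat_lit 9) t775)))))))))))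
noncomputable def l2928 : Lb := (@Lb.d (nat_lit 97) (nat_lit 585) (nat_lit 645) (@Lb.r r1044 (@Lb.r r281 (@Lb.r r615 (@Lb.r r276 (@Lb.g g7 (@Lb.g g10 (@Lb.g g5 (@Lb.g g4 (@Lb.d (nat_lit 1) (nat_lit 1) (nat_lit 81) (@Lb.fp (nat_lit 9) t953)))))))))))
noncomputable def l2929 : Lb := (@Lb.d (nat_lit 0) (nat_lit 514) (nat_lit 130) (@Lb.g g8 (@Lb.g g9 (@Lb.g g10 (@Lb.g g11 (@Lb.r r2729 (@Lb.r r2724 (@Lb.r r1671 (@Lb.r r1638 (@Lb.d (nat_lit 404) (nat_lit 82) (nat_lit 600) (@Lb.fp (nat_lit 9) t951)))))))))))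
noncomputable def l2930 : Lb := (@Lb.d (nat_lit 288) (nat_lit 644) (nat_lit 16) (@Lb.r r1065 (@Lb.r r2088 (@Lb.r r2150 (@Lb.r r2343 (@Lb.g g5 (@Lb.t (@Lb.fm (nat_lit 3) t565))))))))
noncomputable def l2931 : Lb := (@Lb.d (nat_lit 2) (nat_lit 257) (nat_lit 128) (@Lb.g g8 (@Lb.g g9 (@Lb.g g10 (@Lb.g g11 (@Lb.r r2475 (@Lb.r r420 (@Lb.r r1173 (@Lb.r r1174 (@Lb.r r2084 (@Lb.d (nat_lit 41) (nat_lit 166) (nat_lit 578) (@Lb.fm (nat_lit 9) t954))))))))))))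
noncomputable def l2932 : Lb := (@Lb.d (nat_lit 2) (nat_lit 513) (nat_lit 128) (@Lb.g g8 (@Lb.g g9 (@Lb.g g10 (@Lb.g g11 (@Lb.r r1686 (@Lb.r r2388 (@Lb.r r603 (@Lb.r r401 (@Lb.d (nat_lit 149) (nat_lit 22) (nat_lit 389) (@Lb.fp (nat_lit 9) t955)))))))))))
noncomputable def l2933 : Lb := (@Lb.r r323 (@Lb.d (nat_lit 166) (nat_lit 512) (nat_lit 2) (@Lb.g g8 (@Lb.g g9 (@Lb.g g10 (@Lb.r r1287 (@Lb.r r658 (@Lb.r r2725 (@Lb.r r2584 (@Lb.d (nat_lit 137) (nat_lit 162) (nat_lit 145) (@Lb.t (@Lb.fp (nat_lit 9) t956))))))))))))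
noncomputable def l2934 : Lb := (@Lb.r r323 (@Lb.d (nat_lit 128) (nat_lit 1) (nat_lit 2) (@Lb.g g8 (@Lb.g g9 (@Lb.g g10 (@Lb.r r362 (@Lb.r r361 (@Lb.r r1431 (@Lb.r r2632 (@Lb.d (nat_lit 354) (nat_lit 129) (nat_lit 642) (@Lb.t (@Lb.fm (nat_lit 9) t71))))))))))))
noncomputable def l2935 : Lb := (@Lb.r r21 (@Lb.d (nat_lit 17) (nat_lit 0) (nat_lit 128) (@Lb.g g8 (@Lb.g g10 (@Lb.g g11 (@Lb.r r2471 (@Lb.r r2401 (@Lb.r r1170 (@Lb.r r2116 (@Lb.d (nat_lit 552) (nat_lit 73) (nat_lit 1) (@Lb.t (@Lb.fm (nat_lit 9) t957))))))))))))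
noncomputable def l2936 : Lb := (@Lb.d (nat_lit 152) (nat_lit 256) (nat_lit 128) (@Lb.g g8 (@Lb.g g10 (@Lb.g g11 (@Lb.r r1435 (@Lb.r r1434 (@Lb.r r533 (@Lb.r r2340 (@Lb.d (nat_lit 586) (nat_lit 98) (nat_lit 674) (@Lb.t (@Lb.fp (nat_lit 9) t958)))))))))))
noncomputable def l2937 : Lb := (@Lb.d (nat_lit 0) (nat_lit 544) (nat_lit 320) (@Lb.g g10 (@Lb.g g11 (@Lb.r r2341 (@Lb.r r2136 (@Lb.r r1158 (@Lb.d (nat_lit 2) (nat_lit 0) (nat_lit 162) (@Lb.fp (nat_lit 3) t296))))))))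
noncomputable def l2938 : Lb := (@Lb.r r323 (@Lb.d (nat_lit 138) (nat_lit 256) (nat_lit 2) (@Lb.g g8 (@Lb.g g10 (@Lb.r r346 (@Lb.r r661 (@Lb.r r1431 (@Lb.r r2632 (@Lb.d (nat_lit 361) (nat_lit 128) (nat_lit 258) (@Lb.fp (nat_lit 3) t71))))))))))
noncomputable def l2939 : Lb := (@Lb.d (nat_lit 0) (nat_lit 0) (nat_lit 128) (@Lb.g g10 (@Lb.g g11 (@Lb.r r1691 (@Lb.r r2401 (@Lb.r r1174 (@Lb.r r8 (@Lb.d (nat_lit 21) (nat_lit 73) (nat_lit 18) (@Lb.fm (nat_lit 3) t646)))))))))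
noncomputable def l2940 : Lb := (@Lb.r r323 (@Lb.d (nat_lit 138) (nat_lit 512) (nat_lit 2) (@Lb.g g8 (@Lb.g g10 (@Lb.r r346 (@Lb.r r661 (@Lb.r r1431 (@Lb.r r2632 (@Lb.d (nat_lit 352) (nat_lit 129) (nat_lit 258) (@Lb.fp (nat_lit 3) t71))))))))))
noncomputable def l2941 : Lb := (@Lb.d (nat_lit 128) (nat_lit 0) (nat_lit 384) (@Lb.g g10 (@Lb.g g11 (@Lb.r r1606 (@Lb.d (nat_lit 258) (nat_lit 0) (nat_lit 256) (@Lb.fm (nat_lit 3) t959))))))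
noncomputable def l2942 : Lb := (@Lb.r r263 (@Lb.d (nat_lit 0) (nat_lit 258) (nat_lit 2) (@Lb.g g8 (@Lb.g g9 (@Lb.g g10 (@Lb.r r2666 (@Lb.r r2627 (@Lb.r r97 (@Lb.r r1048 (@Lb.d (nat_lit 665) (nat_lit 66) (nat_lit 388) (@Lb.t (@Lb.fp (nat_lit 9) t523))))))))))))
noncomputable def l2943 : Lb := (@Lb.d (nat_lit 2) (nat_lit 514) (nat_lit 130) (@Lb.g g8 (@Lb.g g9 (@Lb.g g10 (@Lb.g g11 (@Lb.r r427 (@Lb.r r145 (@Lb.r r356 (@Lb.r r154 (@Lb.r r132 (@Lb.d (nat_lit 4) (nat_lit 8) (nat_lit 153) (@Lb.fm (nat_lit 9) t221))))))))))))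
noncomputable def l2944 : Lb := (@Lb.r r323 (@Lb.d (nat_lit 138) (nat_lit 0) (nat_lit 2) (@Lb.g g8 (@Lb.g g10 (@Lb.r r346 (@Lb.r r661 (@Lb.r r1431 (@Lb.r r2632 (@Lb.d (nat_lit 354) (nat_lit 129) (nat_lit 258) (@Lb.fp (nat_lit 3) t71))))))))))
noncomputable def l2945 : Lb := (@Lb.d (nat_lit 342) (nat_lit 293) (nat_lit 340) (@Lb.r r597 (@Lb.r r70 (@Lb.r r599 (@Lb.g g6 (@Lb.g g5 (@Lb.g g4 (@Lb.d (nat_lit 1) (nat_lit 17) (nat_lit 1) (@Lb.r r387 (@Lb.t (@Lb.fm (nat_lit 9) t146)))))))))))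
noncomputable def l2946 : Lb := (@Lb.r r70 (@Lb.d (nat_lit 166) (nat_lit 2) (nat_lit 64) (@Lb.g g8 (@Lb.g g9 (@Lb.g g11 (@Lb.r r406 (@Lb.r r343 (@Lb.r r1121 (@Lb.r r596 (@Lb.d (nat_lit 149) (nat_lit 161) (nat_lit 33) (@Lb.t (@Lb.fm (nat_lit 9) t960))))))))))))
noncomputable def l2947 : Lb := (@Lb.d (nat_lit 0) (nat_lit 256) (nat_lit 136) (@Lb.g g11 (@Lb.d (nat_lit 608) (nat_lit 0) (nat_lit 665) (@Lb.t (@Lb.fp (nat_lit 3) t698)))))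
noncomputable def l2948 : Lb := (@Lb.g g6 (@Lb.g g11 (@Lb.r r1346 (@Lb.d (nat_lit 0) (nat_lit 256) (nat_lit 576) (@Lb.fp (nat_lit 3) t2)))))
noncomputable def l2949 : Lb := (@Lb.d (nat_lit 129) (nat_lit 2) (nat_lit 130) (@Lb.g g8 (@Lb.g g9 (@Lb.g g10 (@Lb.g g11 (@Lb.r r1687 (@Lb.r r342 (@Lb.r r553 (@Lb.r r532 (@Lb.d (nat_lit 129) (nat_lit 80) (nat_lit 42) (@Lb.fp (nat_lit 9) t394)))))))))))
noncomputable def l2950 : Lb := (@Lb.r r322 (@Lb.g g11 (@Lb.r r2694 (@Lb.r r1352 (@Lb.r r2583 (@Lb.r r409 (@Lb.d (nat_lit 256) (nat_lit 646) (nat_lit 16) (@Lb.t (@Lb.fm (nat_lit 3) t714)))))))))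
noncomputable def l2951 : Lb := (@Lb.r r323 (@Lb.d (nat_lit 0) (nat_lit 0) (nat_lit 41) (@Lb.g g6 (@Lb.r r387 (@Lb.d (nat_lit 0) (nat_lit 0) (nat_lit 21) (@Lb.t (@Lb.fm (nat_lit 3) t2)))))))
noncomputable def l2952 : Lb := (@Lb.r r323 (@Lb.d (nat_lit 8) (nat_lit 260) (nat_lit 0) (@Lb.g g9 (@Lb.g g10 (@Lb.r r611 (@Lb.r r2214 (@Lb.r r2644 (@Lb.r r1321 (@Lb.d (nat_lit 644) (nat_lit 41) (nat_lit 644) (@Lb.fp (nat_lit 3) t629))))))))))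
noncomputable def l2953 : Lb := (@Lb.r r323 (@Lb.d (nat_lit 137) (nat_lit 1) (nat_lit 0) (@Lb.g g8 (@Lb.g g9 (@Lb.g g10 (@Lb.r r674 (@Lb.r r391 (@Lb.r r145 (@Lb.r r612 (@Lb.d (nat_lit 154) (nat_lit 80) (nat_lit 136) (@Lb.t (@Lb.fp (nat_lit 9) t51))))))))))))
noncomputable def l2954 : Lb := (@Lb.d (nat_lit 2) (nat_lit 258) (nat_lit 137) (@Lb.g g8 (@Lb.g g9 (@Lb.g g10 (@Lb.g g11 (@Lb.r r1706 (@Lb.r r676 (@Lb.r r551 (@Lb.r r1557 (@Lb.r r1060 (@Lb.d (nat_lit 650) (nat_lit 65) (nat_lit 330) (@Lb.fp (nat_lit 9) t284))))))))))))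
noncomputable def l2955 : Lb := (@Lb.r r323 (@Lb.d (nat_lit 130) (nat_lit 258) (nat_lit 0) (@Lb.g g8 (@Lb.g g9 (@Lb.g g10 (@Lb.r r674 (@Lb.r r391 (@Lb.r r145 (@Lb.r r612 (@Lb.d (nat_lit 154) (nat_lit 85) (nat_lit 137) (@Lb.t (@Lb.fp (nat_lit 9) t51))))))))))))
noncomputable def l2956 : Lb := (@Lb.r r322 (@Lb.g g11 (@Lb.r r2694 (@Lb.r r1352 (@Lb.r r2583 (@Lb.r r409 (@Lb.d (nat_lit 258) (nat_lit 134) (nat_lit 16) (@Lb.t (@Lb.fm (nat_lit 3) t714)))))))))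
noncomputable def l2957 : Lb := (@Lb.d (nat_lit 2) (nat_lit 2) (nat_lit 137) (@Lb.g g8 (@Lb.g g9 (@Lb.g g10 (@Lb.g g11 (@Lb.r r683 (@Lb.r r676 (@Lb.r r166 (@Lb.r r145 (@Lb.d (nat_lit 4) (nat_lit 68) (nat_lit 136) (@Lb.fp (nat_lit 9) t51)))))))))))
noncomputable def l2958 : Lb := (@Lb.r r323 (@Lb.d (nat_lit 33) (nat_lit 514) (nat_lit 2) (@Lb.g g8 (@Lb.g g9 (@Lb.g g10 (@Lb.r r2411 (@Lb.r r1366 (@Lb.r r169 (@Lb.r r148 (@Lb.d (nat_lit 33) (nat_lit 102) (nat_lit 278) (@Lb.t (@Lb.fp (nat_lit 9) t125))))))))))))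
noncomputable def l2959 : Lb := (@Lb.d (nat_lit 0) (nat_lit 260) (nat_lit 128) (@Lb.g g9 (@Lb.g g10 (@Lb.g g11 (@Lb.r r427 (@Lb.r r424 (@Lb.r r106 (@Lb.r r97 (@Lb.d (nat_lit 9) (nat_lit 9) (nat_lit 17) (@Lb.t (@Lb.fm (nat_lit 9) t599)))))))))))
noncomputable def l2960 : Lb := (@Lb.d (nat_lit 362) (nat_lit 538) (nat_lit 425) (@Lb.r r1432 (@Lb.r r81 (@Lb.r r2631 (@Lb.g g6 (@Lb.g g4 (@Lb.d (nat_lit 66) (nat_lit 8) (nat_lit 1) (@Lb.r r387 (@Lb.r r25 (@Lb.fm (nat_lit 3) t428))))))))))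
noncomputable def l2961 : Lb := (@Lb.r r21 (@Lb.r r263 (@Lb.d (nat_lit 34) (nat_lit 512) (nat_lit 1) (@Lb.g g8 (@Lb.g g10 (@Lb.r r395 (@Lb.r r166 (@Lb.r r168 (@Lb.r r25 (@Lb.d (nat_lit 41) (nat_lit 5) (nat_lit 1) (@Lb.fm (nat_lit 3) t961)))))))))))
noncomputable def l2962 : Lb := (@Lb.g g6 (@Lb.d (nat_lit 273) (nat_lit 0) (nat_lit 33) (@Lb.t (@Lb.fm (nat_lit 3) t962))))
noncomputable def l2963 : Lb := (@Lb.d (nat_lit 133) (nat_lit 513) (nat_lit 128) (@Lb.r r1297 (@Lb.r r579 (@Lb.r r2438 (@Lb.g g5 (@Lb.g g4 (@Lb.d (nat_lit 1) (nat_lit 0) (nat_lit 0) (@Lb.fm (nat_lit 3) t963))))))))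
noncomputable def l2964 : Lb := (@Lb.d (nat_lit 36) (nat_lit 256) (nat_lit 128) (@Lb.g g8 (@Lb.g g9 (@Lb.g g11 (@Lb.r r406 (@Lb.r r1643 (@Lb.r r1640 (@Lb.r r25 (@Lb.d (nat_lit 514) (nat_lit 154) (nat_lit 546) (@Lb.t (@Lb.fp (nat_lit 9) t564)))))))))))
noncomputable def l2965 : Lb := (@Lb.d (nat_lit 38) (nat_lit 0) (nat_lit 128) (@Lb.g g8 (@Lb.g g9 (@Lb.g g11 (@Lb.r r406 (@Lb.r r1643 (@Lb.r r1640 (@Lb.r r25 (@Lb.d (nat_lit 521) (nat_lit 153) (nat_lit 546) (@Lb.t (@Lb.fp (nat_lit 9) t564)))))))))))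
noncomputable def l2966 : Lb := (@Lb.g g9 (@Lb.r r2150 (@Lb.d (nat_lit 512) (nat_lit 576) (nat_lit 0) (@Lb.t (@Lb.fp (nat_lit 3) t964)))))
noncomputable def l2967 : Lb := (@Lb.r r613 (@Lb.r r611 (@Lb.r r2386 (@Lb.r r657 (@Lb.d (nat_lit 256) (nat_lit 256) (nat_lit 64) (@Lb.fp (nat_lit 1) t322))))))
noncomputable def l2968 : Lb := (@Lb.r r2150 (@Lb.d (nat_lit 517) (nat_lit 65) (nat_lit 0) (@Lb.fp (nat_lit 1) t964)))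
noncomputable def l2969 : Lb := (@Lb.r r273 (@Lb.r r70 (@Lb.d (nat_lit 2) (nat_lit 32) (nat_lit 576) (@Lb.g g8 (@Lb.g g7 (@Lb.r r1685 (@Lb.r r2198 (@Lb.r r72 (@Lb.d (nat_lit 546) (nat_lit 0) (nat_lit 84) (@Lb.fp (nat_lit 3) t965))))))))))
noncomputable def l2970 : Lb := (@Lb.d (nat_lit 0) (nat_lit 256) (nat_lit 10) (@Lb.g g10 (@Lb.d (nat_lit 608) (nat_lit 0) (nat_lit 612) (@Lb.t (@Lb.fp (nat_lit 3) t698)))))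
noncomputable def l2971 : Lb := (@Lb.d (nat_lit 2) (nat_lit 2) (nat_lit 2) (@Lb.g g8 (@Lb.g g9 (@Lb.g g10 (@Lb.r r683 (@Lb.r r676 (@Lb.r r166 (@Lb.r r145 (@Lb.d (nat_lit 10) (nat_lit 4) (nat_lit 136) (@Lb.t (@Lb.fm (nat_lit 9) t51)))))))))))
noncomputable def l2972 : Lb := (@Lb.d (nat_lit 0) (nat_lit 512) (nat_lit 64) (@Lb.g g6 (@Lb.g g7 (@Lb.d (nat_lit 0) (nat_lit 0) (nat_lit 148) (@Lb.fm (nat_lit 3) t2)))))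
noncomputable def l2973 : Lb := (@Lb.d (nat_lit 9) (nat_lit 1) (nat_lit 2) (@Lb.g g8 (@Lb.g g9 (@Lb.g g10 (@Lb.r r683 (@Lb.r r676 (@Lb.r r166 (@Lb.r r145 (@Lb.d (nat_lit 0) (nat_lit 5) (nat_lit 136) (@Lb.t (@Lb.fm (nat_lit 9) t51)))))))))))
noncomputable def l2974 : Lb := (@Lb.d (nat_lit 2) (nat_lit 258) (nat_lit 2) (@Lb.g g8 (@Lb.g g9 (@Lb.g g10 (@Lb.r r683 (@Lb.r r676 (@Lb.r r166 (@Lb.r r145 (@Lb.d (nat_lit 0) (nat_lit 10) (nat_lit 137) (@Lb.t (@Lb.fm (nat_lit 9) t51)))))))))))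
noncomputable def l2975 : Lb := (@Lb.d (nat_lit 133) (nat_lit 293) (nat_lit 134) (@Lb.r r597 (@Lb.r r70 (@Lb.r r599 (@Lb.g g6 (@Lb.g g5 (@Lb.g g4 (@Lb.d (nat_lit 1) (nat_lit 22) (nat_lit 2) (@Lb.r r387 (@Lb.t (@Lb.fm (nat_lit 9) t31)))))))))))
noncomputable def l2976 : Lb := (@Lb.d (nat_lit 2) (nat_lit 2) (nat_lit 2) (@Lb.g g8 (@Lb.g g9 (@Lb.g g10 (@Lb.r r683 (@Lb.r r676 (@Lb.r r166 (@Lb.r r145 (@Lb.d (nat_lit 2) (nat_lit 5) (nat_lit 136) (@Lb.t (@Lb.fm (nat_lit 9) t51)))))))))))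
noncomputable def l2977 : Lb := (@Lb.r r263 (@Lb.d (nat_lit 546) (nat_lit 514) (nat_lit 1) (@Lb.g g8 (@Lb.g g9 (@Lb.g g10 (@Lb.r r618 (@Lb.r r2627 (@Lb.r r25 (@Lb.d (nat_lit 9) (nat_lit 161) (nat_lit 384) (@Lb.t (@Lb.fp (nat_lit 9) t394)))))))))))
noncomputable def l2978 : Lb := (@Lb.d (nat_lit 1) (nat_lit 512) (nat_lit 130) (@Lb.g g8 (@Lb.g g9 (@Lb.g g10 (@Lb.g g11 (@Lb.r r392 (@Lb.r r327 (@Lb.r r662 (@Lb.r r1121 (@Lb.r r1044 (@Lb.d (nat_lit 649) (nat_lit 66) (nat_lit 0) (@Lb.fm (nat_lit 9) t966))))))))))))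
noncomputable def l2979 : Lb := (@Lb.d (nat_lit 1) (nat_lit 514) (nat_lit 130) (@Lb.g g8 (@Lb.g g9 (@Lb.g g10 (@Lb.g g11 (@Lb.r r648 (@Lb.r r651 (@Lb.r r2705 (@Lb.r r666 (@Lb.r r1156 (@Lb.d (nat_lit 329) (nat_lit 162) (nat_lit 98) (@Lb.fm (nat_lit 9) t967))))))))))))
noncomputable def l2980 : Lb := (@Lb.d (nat_lit 128) (nat_lit 514) (nat_lit 130) (@Lb.g g9 (@Lb.g g10 (@Lb.g g11 (@Lb.r r2197 (@Lb.r r1124 (@Lb.r r2474 (@Lb.r r611 (@Lb.d (nat_lit 329) (nat_lit 130) (nat_lit 106) (@Lb.t (@Lb.fm (nat_lit 9) t967)))))))))))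
noncomputable def l2981 : Lb := (@Lb.r r323 (@Lb.d (nat_lit 2) (nat_lit 32) (nat_lit 2) (@Lb.g g8 (@Lb.g g9 (@Lb.g g10 (@Lb.r r2647 (@Lb.r r74 (@Lb.r r1433 (@Lb.d (nat_lit 426) (nat_lit 90) (nat_lit 17) (@Lb.t (@Lb.fp (nat_lit 9) t221)))))))))))
noncomputable def l2982 : Lb := (@Lb.d (nat_lit 0) (nat_lit 520) (nat_lit 2) (@Lb.g g10 (@Lb.r r1427 (@Lb.r r104 (@Lb.r r2153 (@Lb.r r2084 (@Lb.d (nat_lit 256) (nat_lit 0) (nat_lit 2) (@Lb.t (@Lb.fp (nat_lit 3) t627)))))))))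
noncomputable def l2983 : Lb := (@Lb.d (nat_lit 2) (nat_lit 514) (nat_lit 0) (@Lb.g g8 (@Lb.g g9 (@Lb.r r406 (@Lb.r r2659 (@Lb.r r97 (@Lb.r r24 (@Lb.d (nat_lit 657) (nat_lit 132) (nat_lit 86) (@Lb.fm (nat_lit 3) t339)))))))))
noncomputable def l2984 : Lb := (@Lb.d (nat_lit 2) (nat_lit 514) (nat_lit 130) (@Lb.g g8 (@Lb.g g9 (@Lb.g g10 (@Lb.g g11 (@Lb.r r427 (@Lb.r r2146 (@Lb.r r1433 (@Lb.r r1432 (@Lb.d (nat_lit 40) (nat_lit 137) (nat_lit 33) (@Lb.fm (nat_lit 9) t968)))))))))))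
noncomputable def l2985 : Lb := (@Lb.r r2311 (@Lb.r r100 (@Lb.r r21 (@Lb.r r2084 (@Lb.d (nat_lit 0) (nat_lit 66) (nat_lit 33) (@Lb.fp (nat_lit 1) t969))))))
noncomputable def l2986 : Lb := (@Lb.r r323 (@Lb.d (nat_lit 160) (nat_lit 34) (nat_lit 2) (@Lb.g g8 (@Lb.g g9 (@Lb.g g10 (@Lb.r r595 (@Lb.r r2726 (@Lb.r r1624 (@Lb.r r149 (@Lb.d (nat_lit 165) (nat_lit 105) (nat_lit 354) (@Lb.t (@Lb.fp (nat_lit 9) t580))))))))))))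
noncomputable def l2987 : Lb := (@Lb.d (nat_lit 128) (nat_lit 258) (nat_lit 73) (@Lb.g g8 (@Lb.g g9 (@Lb.g g10 (@Lb.g g11 (@Lb.r r2435 (@Lb.r r2710 (@Lb.r r2585 (@Lb.r r2584 (@Lb.d (nat_lit 330) (nat_lit 66) (nat_lit 328) (@Lb.fp (nat_lit 9) t393)))))))))))
noncomputable def l2988 : Lb := (@Lb.d (nat_lit 128) (nat_lit 544) (nat_lit 128) (@Lb.g g11 (@Lb.r r296 (@Lb.r r2329 (@Lb.r r551 (@Lb.r r2178 (@Lb.d (nat_lit 410) (nat_lit 152) (nat_lit 160) (@Lb.t (@Lb.fm (nat_lit 3) t970)))))))))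
noncomputable def l2989 : Lb := (@Lb.d (nat_lit 618) (nat_lit 341) (nat_lit 538) (@Lb.r r1384 (@Lb.r r297 (@Lb.r r418 (@Lb.g g11 (@Lb.g g5 (@Lb.g g4 (@Lb.d (nat_lit 24) (nat_lit 17) (nat_lit 264) (@Lb.r r578 (@Lb.t (@Lb.fp (nat_lit 9) t495)))))))))))
noncomputable def l2990 : Lb := (@Lb.d (nat_lit 128) (nat_lit 514) (nat_lit 73) (@Lb.g g8 (@Lb.g g9 (@Lb.g g10 (@Lb.g g11 (@Lb.r r1689 (@Lb.r r1688 (@Lb.r r395 (@Lb.r r2458 (@Lb.d (nat_lit 409) (nat_lit 66) (nat_lit 104) (@Lb.fp (nat_lit 9) t971)))))))))))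
noncomputable def l2991 : Lb := (@Lb.d (nat_lit 2) (nat_lit 297) (nat_lit 648) (@Lb.r r2567 (@Lb.r r1448 (@Lb.r r105 (@Lb.g g10 (@Lb.g g5 (@Lb.g g4 (@Lb.d (nat_lit 42) (nat_lit 5) (nat_lit 18) (@Lb.r r387 (@Lb.t (@Lb.fp (nat_lit 9) t972)))))))))))
noncomputable def l2992 : Lb := (@Lb.d (nat_lit 128) (nat_lit 2) (nat_lit 130) (@Lb.g g8 (@Lb.g g9 (@Lb.g g10 (@Lb.g g11 (@Lb.r r2666 (@Lb.r r612 (@Lb.r r1319 (@Lb.r r1045 (@Lb.r r2084 (@Lb.d (nat_lit 4) (nat_lit 37) (nat_lit 550) (@Lb.fp (nat_lit 9) t495))))))))))))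
noncomputable def l2993 : Lb := (@Lb.d (nat_lit 22) (nat_lit 577) (nat_lit 16) (@Lb.r r2068 (@Lb.r r2345 (@Lb.r r2387 (@Lb.g g10 (@Lb.g g4 (@Lb.d (nat_lit 1) (nat_lit 0) (nat_lit 38) (@Lb.r r267 (@Lb.r r145 (@Lb.fm (nat_lit 3) t971))))))))))
noncomputable def l2994 : Lb := (@Lb.g g4 (@Lb.g g10 (@Lb.g g11 (@Lb.r r2439 (@Lb.d (nat_lit 96) (nat_lit 0) (nat_lit 594) (@Lb.t (@Lb.fp (nat_lit 9) t973)))))))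
noncomputable def l2995 : Lb := (@Lb.d (nat_lit 32) (nat_lit 288) (nat_lit 128) (@Lb.g g8 (@Lb.g g11 (@Lb.r r1313 (@Lb.r r1555 (@Lb.r r1430 (@Lb.r r1364 (@Lb.d (nat_lit 338) (nat_lit 6) (nat_lit 298) (@Lb.fp (nat_lit 3) t974)))))))))
noncomputable def l2996 : Lb := (@Lb.d (nat_lit 32) (nat_lit 256) (nat_lit 128) (@Lb.g g8 (@Lb.g g11 (@Lb.r r353 (@Lb.r r2707 (@Lb.r r1430 (@Lb.r r1380 (@Lb.d (nat_lit 20) (nat_lit 41) (nat_lit 106) (@Lb.fp (nat_lit 3) t975)))))))))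
noncomputable def l2997 : Lb := (@Lb.d (nat_lit 128) (nat_lit 256) (nat_lit 128) (@Lb.g g11 (@Lb.r r549 (@Lb.r r344 (@Lb.r r679 (@Lb.r r134 (@Lb.d (nat_lit 548) (nat_lit 24) (nat_lit 34) (@Lb.t (@Lb.fp (nat_lit 3) t40)))))))))
noncomputable def l2998 : Lb := (@Lb.r r260 (@Lb.r r322 (@Lb.d (nat_lit 136) (nat_lit 512) (nat_lit 324) (@Lb.g g9 (@Lb.g g7 (@Lb.r r1444 (@Lb.r r2390 (@Lb.r r1697 (@Lb.d (nat_lit 136) (nat_lit 90) (nat_lit 104) (@Lb.fm (nat_lit 3) t976))))))))))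
noncomputable def l2999 : Lb := (@Lb.r r82 (@Lb.d (nat_lit 4) (nat_lit 546) (nat_lit 128) (@Lb.g g8 (@Lb.g g9 (@Lb.g g11 (@Lb.r r2649 (@Lb.r r1560 (@Lb.r r1419 (@Lb.r r386 (@Lb.d (nat_lit 128) (nat_lit 10) (nat_lit 645) (@Lb.t (@Lb.fm (nat_lit 9) t977))))))))))))
noncomputable def l3000 : Lb := (@Lb.d (nat_lit 65) (nat_lit 2) (nat_lit 2) (@Lb.g g8 (@Lb.g g9 (@Lb.g g10 (@Lb.g g11 (@Lb.r r675 (@Lb.r r2406 (@Lb.r r2325 (@Lb.r r264 (@Lb.d (nat_lit 617) (nat_lit 169) (nat_lit 97) (@Lb.fp (nat_lit 9) t605)))))))))))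
noncomputable def l3001 : Lb := (@Lb.d (nat_lit 553) (nat_lit 650) (nat_lit 17) (@Lb.r r24 (@Lb.r r1414 (@Lb.r r2395 (@Lb.g g7 (@Lb.g g5 (@Lb.d (nat_lit 4) (nat_lit 1) (nat_lit 64) (@Lb.fm (nat_lit 3) t506))))))))
noncomputable def l3002 : Lb := (@Lb.d (nat_lit 2) (nat_lit 512) (nat_lit 128) (@Lb.g g8 (@Lb.g g11 (@Lb.r r545 (@Lb.r r299 (@Lb.r r328 (@Lb.r r134 (@Lb.d (nat_lit 548) (nat_lit 8) (nat_lit 105) (@Lb.fp (nat_lit 3) t40)))))))))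
noncomputable def l3003 : Lb := (@Lb.r r82 (@Lb.r r263 (@Lb.d (nat_lit 37) (nat_lit 512) (nat_lit 0) (@Lb.g g8 (@Lb.g g9 (@Lb.r r1625 (@Lb.r r1431 (@Lb.r r2374 (@Lb.r r1688 (@Lb.d (nat_lit 602) (nat_lit 42) (nat_lit 68) (@Lb.fp (nat_lit 3) t978)))))))))))
noncomputable def l3004 : Lb := (@Lb.d (nat_lit 554) (nat_lit 394) (nat_lit 17) (@Lb.r r24 (@Lb.r r1414 (@Lb.r r2395 (@Lb.g g7 (@Lb.g g5 (@Lb.d (nat_lit 4) (nat_lit 1) (nat_lit 64) (@Lb.fm (nat_lit 3) t506))))))))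
noncomputable def l3005 : Lb := (@Lb.d (nat_lit 32) (nat_lit 0) (nat_lit 128) (@Lb.g g8 (@Lb.g g11 (@Lb.r r353 (@Lb.r r2707 (@Lb.r r1430 (@Lb.r r1380 (@Lb.d (nat_lit 20) (nat_lit 34) (nat_lit 104) (@Lb.fp (nat_lit 3) t975)))))))))
noncomputable def l3006 : Lb := (@Lb.r r323 (@Lb.d (nat_lit 16) (nat_lit 522) (nat_lit 2) (@Lb.g g8 (@Lb.g g9 (@Lb.g g10 (@Lb.r r2713 (@Lb.r r667 (@Lb.r r644 (@Lb.r r1158 (@Lb.d (nat_lit 290) (nat_lit 0) (nat_lit 162) (@Lb.t (@Lb.fm (nat_lit 9) t979))))))))))))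
noncomputable def l3007 : Lb := (@Lb.g g9 (@Lb.g g6 (@Lb.r r97 (@Lb.r r2130 (@Lb.r r145 (@Lb.fm (nat_lit 3) t980))))))
noncomputable def l3008 : Lb := (@Lb.d (nat_lit 0) (nat_lit 657) (nat_lit 41) (@Lb.r r594 (@Lb.r r2465 (@Lb.g g11 (@Lb.g g6 (@Lb.g g5 (@Lb.d (nat_lit 0) (nat_lit 9) (nat_lit 130) (@Lb.t (@Lb.fp (nat_lit 9) t8)))))))))
noncomputable def l3009 : Lb := (@Lb.d (nat_lit 38) (nat_lit 10) (nat_lit 128) (@Lb.g g8 (@Lb.g g9 (@Lb.g g10 (@Lb.g g11 (@Lb.r r169 (@Lb.r r612 (@Lb.r r583 (@Lb.r r322 (@Lb.r r132 (@Lb.d (nat_lit 2) (nat_lit 34) (nat_lit 72) (@Lb.fp (nat_lit 9) t50))))))))))))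
noncomputable def l3010 : Lb := (@Lb.r r424 (@Lb.r r2473 (@Lb.r r1450 (@Lb.r r343 (@Lb.r r676 (@Lb.d (nat_lit 2) (nat_lit 256) (nat_lit 0) (@Lb.fm (nat_lit 1) t322)))))))
noncomputable def l3011 : Lb := (@Lb.d (nat_lit 2) (nat_lit 2) (nat_lit 130) (@Lb.g g8 (@Lb.g g9 (@Lb.g g10 (@Lb.g g11 (@Lb.r r427 (@Lb.r r145 (@Lb.r r356 (@Lb.r r154 (@Lb.r r132 (@Lb.d (nat_lit 2) (nat_lit 73) (nat_lit 153) (@Lb.fm (nat_lit 9) t741))))))))))))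
noncomputable def l3012 : Lb := (@Lb.d (nat_lit 2) (nat_lit 258) (nat_lit 130) (@Lb.g g8 (@Lb.g g9 (@Lb.g g10 (@Lb.g g11 (@Lb.r r427 (@Lb.r r106 (@Lb.r r25 (@Lb.d (nat_lit 4) (nat_lit 130) (nat_lit 169) (@Lb.fp (nat_lit 9) t295))))))))))
noncomputable def l3013 : Lb := (@Lb.g g6 (@Lb.r r1667 (@Lb.r r2690 (@Lb.d (nat_lit 0) (nat_lit 512) (nat_lit 69) (@Lb.t (@Lb.fm (nat_lit 3) t2))))))
noncomputable def l3014 : Lb := (@Lb.d (nat_lit 2) (nat_lit 258) (nat_lit 130) (@Lb.g g8 (@Lb.g g9 (@Lb.g g10 (@Lb.g g11 (@Lb.r r355 (@Lb.r r386 (@Lb.r r1129 (@Lb.r r36 (@Lb.d (nat_lit 265) (nat_lit 2) (nat_lit 153) (@Lb.fp (nat_lit 9) t61)))))))))))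
noncomputable def l3015 : Lb := (@Lb.d (nat_lit 0) (nat_lit 256) (nat_lit 137) (@Lb.g g10 (@Lb.g g11 (@Lb.r r2435 (@Lb.r r386 (@Lb.d (nat_lit 0) (nat_lit 0) (nat_lit 420) (@Lb.fp (nat_lit 3) t2)))))))
noncomputable def l3016 : Lb := (@Lb.d (nat_lit 2) (nat_lit 514) (nat_lit 2) (@Lb.g g8 (@Lb.g g9 (@Lb.g g10 (@Lb.r r683 (@Lb.r r2666 (@Lb.r r2585 (@Lb.r r2564 (@Lb.d (nat_lit 644) (nat_lit 137) (nat_lit 417) (@Lb.t (@Lb.fp (nat_lit 9) t820)))))))))))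
noncomputable def l3017 : Lb := (@Lb.d (nat_lit 2) (nat_lit 264) (nat_lit 73) (@Lb.g g8 (@Lb.g g9 (@Lb.g g10 (@Lb.g g11 (@Lb.r r342 (@Lb.r r2728 (@Lb.r r2603 (@Lb.r r2581 (@Lb.d (nat_lit 386) (nat_lit 97) (nat_lit 330) (@Lb.fp (nat_lit 9) t125)))))))))))
noncomputable def l3018 : Lb := (@Lb.d (nat_lit 0) (nat_lit 256) (nat_lit 74) (@Lb.g g10 (@Lb.g g11 (@Lb.r r579 (@Lb.r r402 (@Lb.r r101 (@Lb.r r24 (@Lb.d (nat_lit 321) (nat_lit 0) (nat_lit 512) (@Lb.fm (nat_lit 3) t145)))))))))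
noncomputable def l3019 : Lb := (@Lb.d (nat_lit 518) (nat_lit 153) (nat_lit 345) (@Lb.r r2137 (@Lb.r r536 (@Lb.r r2411 (@Lb.r r1618 (@Lb.g g7 (@Lb.g g5 (@Lb.g g4 (@Lb.d (nat_lit 17) (nat_lit 5) (nat_lit 64) (@Lb.t (@Lb.fm (nat_lit 9) t204)))))))))))
noncomputable def l3020 : Lb := (@Lb.d (nat_lit 0) (nat_lit 290) (nat_lit 0) (@Lb.g g9 (@Lb.r r1619 (@Lb.r r1414 (@Lb.r r1096 (@Lb.d (nat_lit 258) (nat_lit 2) (nat_lit 0) (@Lb.t (@Lb.fm (nat_lit 3) t468))))))))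
noncomputable def l3021 : Lb := (@Lb.d (nat_lit 2) (nat_lit 0) (nat_lit 0) (@Lb.g g8 (@Lb.r r289 (@Lb.r r535 (@Lb.r r328 (@Lb.r r134 (@Lb.d (nat_lit 0) (nat_lit 0) (nat_lit 145) (@Lb.t (@Lb.fp (nat_lit 3) t40)))))))))
noncomputable def l3022 : Lb := (@Lb.d (nat_lit 68) (nat_lit 274) (nat_lit 128) (@Lb.r r24 (@Lb.r r2145 (@Lb.r r2390 (@Lb.r r2691 (@Lb.g g7 (@Lb.g g6 (@Lb.g g4 (@Lb.d (nat_lit 2) (nat_lit 0) (nat_lit 134) (@Lb.t (@Lb.fm (nat_lit 9) t981)))))))))))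
noncomputable def l3023 : Lb := (@Lb.d (nat_lit 82) (nat_lit 322) (nat_lit 592) (@Lb.r r1284 (@Lb.r r1297 (@Lb.r r1315 (@Lb.r r405 (@Lb.g g7 (@Lb.g g10 (@Lb.g g5 (@Lb.g g4 (@Lb.d (nat_lit 1) (nat_lit 6) (nat_lit 20) (@Lb.fm (nat_lit 9) t982)))))))))))
noncomputable def l3024 : Lb := (@Lb.d (nat_lit 8) (nat_lit 2) (nat_lit 130) (@Lb.g g8 (@Lb.g g9 (@Lb.g g10 (@Lb.g g11 (@Lb.r r660 (@Lb.r r2311 (@Lb.r r161 (@Lb.r r98 (@Lb.r r1540 (@Lb.d (nat_lit 2) (nat_lit 166) (nat_lit 664) (@Lb.fm (nat_lit 9) t391))))))))))))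
noncomputable def l3025 : Lb := (@Lb.d (nat_lit 4) (nat_lit 517) (nat_lit 146) (@Lb.g g8 (@Lb.g g9 (@Lb.g g6 (@Lb.g g11 (@Lb.r r2153 (@Lb.r r612 (@Lb.r r1287 (@Lb.r r2564 (@Lb.d (nat_lit 2) (nat_lit 90) (nat_lit 328) (@Lb.fp (nat_lit 9) t204)))))))))))
noncomputable def l3026 : Lb := (@Lb.d (nat_lit 1) (nat_lit 534) (nat_lit 64) (@Lb.r r260 (@Lb.r r97 (@Lb.r r267 (@Lb.r r404 (@Lb.g g7 (@Lb.g g10 (@Lb.g g5 (@Lb.g g4 (@Lb.d (nat_lit 18) (nat_lit 8) (nat_lit 65) (@Lb.fp (nat_lit 9) t983)))))))))))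
noncomputable def l3027 : Lb := (@Lb.d (nat_lit 2) (nat_lit 264) (nat_lit 130) (@Lb.g g8 (@Lb.g g10 (@Lb.g g11 (@Lb.r r353 (@Lb.r r667 (@Lb.r r664 (@Lb.r r154 (@Lb.d (nat_lit 25) (nat_lit 9) (nat_lit 136) (@Lb.t (@Lb.fm (nat_lit 9) t2)))))))))))
noncomputable def l3028 : Lb := (@Lb.d (nat_lit 0) (nat_lit 257) (nat_lit 130) (@Lb.g g8 (@Lb.g g9 (@Lb.g g10 (@Lb.g g11 (@Lb.r r532 (@Lb.r r279 (@Lb.r r665 (@Lb.r r666 (@Lb.r r644 (@Lb.d (nat_lit 9) (nat_lit 1) (nat_lit 129) (@Lb.fm (nat_lit 9) t2))))))))))))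
noncomputable def l3029 : Lb := (@Lb.d (nat_lit 0) (nat_lit 1) (nat_lit 0) (@Lb.r r145 (@Lb.r r386 (@Lb.r r347 (@Lb.r r292 (@Lb.g g5 (@Lb.d (nat_lit 8) (nat_lit 1) (nat_lit 0) (@Lb.r r98 (@Lb.t (@Lb.fp (nat_lit 3) t984))))))))))
noncomputable def l3030 : Lb := (@Lb.d (nat_lit 0) (nat_lit 514) (nat_lit 66) (@Lb.r r289 (@Lb.r r535 (@Lb.r r328 (@Lb.g g10 (@Lb.g g5 (@Lb.d (nat_lit 32) (nat_lit 5) (nat_lit 2) (@Lb.fm (nat_lit 3) t985))))))))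
noncomputable def l3031 : Lb := (@Lb.d (nat_lit 0) (nat_lit 280) (nat_lit 289) (@Lb.r r1633 (@Lb.r r659 (@Lb.r r1626 (@Lb.r r2148 (@Lb.g g7 (@Lb.g g5 (@Lb.d (nat_lit 8) (nat_lit 18) (nat_lit 128) (@Lb.r r98 (@Lb.fm (nat_lit 3) t986))))))))))
noncomputable def l3032 : Lb := (@Lb.d (nat_lit 0) (nat_lit 260) (nat_lit 64) (@Lb.r r289 (@Lb.r r535 (@Lb.r r328 (@Lb.g g10 (@Lb.g g5 (@Lb.d (nat_lit 36) (nat_lit 6) (nat_lit 2) (@Lb.fm (nat_lit 3) t985))))))))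
noncomputable def l3033 : Lb := (@Lb.d (nat_lit 0) (nat_lit 522) (nat_lit 128) (@Lb.g g9 (@Lb.g g11 (@Lb.r r2438 (@Lb.r r1371 (@Lb.r r545 (@Lb.r r1128 (@Lb.d (nat_lit 37) (nat_lit 2) (nat_lit 36) (@Lb.fp (nat_lit 3) t987)))))))))
noncomputable def l3034 : Lb := (@Lb.d (nat_lit 0) (nat_lit 0) (nat_lit 130) (@Lb.g g10 (@Lb.g g11 (@Lb.r r602 (@Lb.r r1611 (@Lb.r r149 (@Lb.r r1636 (@Lb.d (nat_lit 517) (nat_lit 18) (nat_lit 0) (@Lb.fp (nat_lit 3) t461)))))))))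
noncomputable def l3035 : Lb := (@Lb.d (nat_lit 129) (nat_lit 518) (nat_lit 128) (@Lb.g g8 (@Lb.g g9 (@Lb.g g10 (@Lb.g g11 (@Lb.r r610 (@Lb.r r1603 (@Lb.r r424 (@Lb.r r1321 (@Lb.r r2084 (@Lb.d (nat_lit 386) (nat_lit 86) (nat_lit 72) (@Lb.fm (nat_lit 9) t459))))))))))))
noncomputable def l3036 : Lb := (@Lb.d (nat_lit 2) (nat_lit 2) (nat_lit 130) (@Lb.g g8 (@Lb.g g9 (@Lb.g g10 (@Lb.g g11 (@Lb.r r169 (@Lb.r r520 (@Lb.r r603 (@Lb.r r386 (@Lb.r r132 (@Lb.d (nat_lit 10) (nat_lit 73) (nat_lit 146) (@Lb.fp (nat_lit 9) t988))))))))))))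
noncomputable def l3037 : Lb := (@Lb.d (nat_lit 518) (nat_lit 37) (nat_lit 328) (@Lb.r r1321 (@Lb.r r1444 (@Lb.r r2374 (@Lb.r r611 (@Lb.g g7 (@Lb.g g6 (@Lb.g g5 (@Lb.d (nat_lit 4) (nat_lit 8) (nat_lit 133) (@Lb.t (@Lb.fp (nat_lit 9) t986)))))))))))
noncomputable def l3038 : Lb := (@Lb.d (nat_lit 8) (nat_lit 265) (nat_lit 0) (@Lb.g g9 (@Lb.d (nat_lit 528) (nat_lit 10) (nat_lit 18) (@Lb.t (@Lb.fp (nat_lit 3) t420)))))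
noncomputable def l3039 : Lb := (@Lb.r r101 (@Lb.d (nat_lit 512) (nat_lit 0) (nat_lit 16) (@Lb.fm (nat_lit 1) t126)))
noncomputable def l3040 : Lb := (@Lb.d (nat_lit 512) (nat_lit 256) (nat_lit 16) (@Lb.r r101 (@Lb.g g10 (@Lb.t (@Lb.fm (nat_lit 3) t989)))))
noncomputable def l3041 : Lb := (@Lb.d (nat_lit 517) (nat_lit 18) (nat_lit 256) (@Lb.r r21 (@Lb.r r104 (@Lb.r r2438 (@Lb.g g11 (@Lb.g g6 (@Lb.g g5 (@Lb.d (nat_lit 0) (nat_lit 6) (nat_lit 129) (@Lb.t (@Lb.fm (nat_lit 9) t990))))))))))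
noncomputable def l3042 : Lb := (@Lb.d (nat_lit 26) (nat_lit 1) (nat_lit 130) (@Lb.g g8 (@Lb.g g9 (@Lb.g g6 (@Lb.g g11 (@Lb.r r105 (@Lb.r r296 (@Lb.r r263 (@Lb.r r516 (@Lb.d (nat_lit 2) (nat_lit 34) (nat_lit 72) (@Lb.fm (nat_lit 9) t546)))))))))))
noncomputable def l3043 : Lb := (@Lb.r r579 (@Lb.r r388 (@Lb.r r678 (@Lb.r r425 (@Lb.r r20 (@Lb.d (nat_lit 0) (nat_lit 128) (nat_lit 256) (@Lb.fm (nat_lit 1) t991)))))))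
noncomputable def l3044 : Lb := (@Lb.d (nat_lit 0) (nat_lit 549) (nat_lit 534) (@Lb.r r2659 (@Lb.g g6 (@Lb.d (nat_lit 0) (nat_lit 4) (nat_lit 17) (@Lb.r r387 (@Lb.t (@Lb.fp (nat_lit 3) t591)))))))
noncomputable def l3045 : Lb := (@Lb.r r1114 (@Lb.r r264 (@Lb.r r599 (@Lb.r r1425 (@Lb.r r2084 (@Lb.d (nat_lit 0) (nat_lit 128) (nat_lit 256) (@Lb.fp (nat_lit 1) t992)))))))
noncomputable def l3046 : Lb := (@Lb.r r82 (@Lb.d (nat_lit 2) (nat_lit 586) (nat_lit 128) (@Lb.g g8 (@Lb.g g9 (@Lb.g g11 (@Lb.r r2411 (@Lb.r r1606 (@Lb.r r2436 (@Lb.d (nat_lit 100) (nat_lit 9) (nat_lit 681) (@Lb.t (@Lb.fm (nat_lit 9) t803)))))))))))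
noncomputable def l3047 : Lb := (@Lb.r r81 (@Lb.d (nat_lit 2) (nat_lit 36) (nat_lit 145) (@Lb.g g8 (@Lb.g g6 (@Lb.g g11 (@Lb.r r2153 (@Lb.r r2660 (@Lb.r r263 (@Lb.d (nat_lit 66) (nat_lit 90) (nat_lit 264) (@Lb.t (@Lb.fm (nat_lit 9) t204)))))))))))
noncomputable def l3048 : Lb := (@Lb.d (nat_lit 0) (nat_lit 516) (nat_lit 6) (@Lb.g g6 (@Lb.g g11 (@Lb.r r2659 (@Lb.d (nat_lit 0) (nat_lit 144) (nat_lit 257) (@Lb.fm (nat_lit 3) t71))))))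
noncomputable def l3049 : Lb := (@Lb.d (nat_lit 2) (nat_lit 546) (nat_lit 2) (@Lb.g g8 (@Lb.g g9 (@Lb.g g10 (@Lb.r r1623 (@Lb.r r98 (@Lb.r r2436 (@Lb.d (nat_lit 97) (nat_lit 9) (nat_lit 530) (@Lb.t (@Lb.fp (nat_lit 9) t993))))))))))
noncomputable def l3050 : Lb := (@Lb.r r421 (@Lb.r r2470 (@Lb.r r2395 (@Lb.r r1681 (@Lb.d (nat_lit 522) (nat_lit 514) (nat_lit 0) (@Lb.fp (nat_lit 1) t414))))))
noncomputable def l3051 : Lb := (@Lb.d (nat_lit 4) (nat_lit 0) (nat_lit 66) (@Lb.g g8 (@Lb.g g9 (@Lb.g g10 (@Lb.g g11 (@Lb.r r340 (@Lb.r r2202 (@Lb.r r1621 (@Lb.r r1367 (@Lb.r r2724 (@Lb.d (nat_lit 353) (nat_lit 2) (nat_lit 602) (@Lb.fm (nat_lit 9) t994))))))))))))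
noncomputable def l3052 : Lb := (@Lb.r r331 (@Lb.d (nat_lit 2) (nat_lit 297) (nat_lit 1) (@Lb.g g8 (@Lb.g g9 (@Lb.g g10 (@Lb.r r1623 (@Lb.r r678 (@Lb.r r1444 (@Lb.r r1173 (@Lb.d (nat_lit 545) (nat_lit 102) (nat_lit 38) (@Lb.t (@Lb.fm (nat_lit 9) t995))))))))))))
noncomputable def l3053 : Lb := (@Lb.d (nat_lit 2) (nat_lit 2) (nat_lit 2) (@Lb.g g8 (@Lb.g g9 (@Lb.g g10 (@Lb.g g7 (@Lb.r r386 (@Lb.r r97 (@Lb.r r2584 (@Lb.d (nat_lit 330) (nat_lit 9) (nat_lit 9) (@Lb.fp (nat_lit 9) t996))))))))))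
noncomputable def l3054 : Lb := (@Lb.d (nat_lit 0) (nat_lit 38) (nat_lit 64) (@Lb.g g9 (@Lb.g g10 (@Lb.g g11 (@Lb.r r2722 (@Lb.r r1415 (@Lb.r r2088 (@Lb.r r2201 (@Lb.d (nat_lit 282) (nat_lit 20) (nat_lit 86) (@Lb.t (@Lb.fm (nat_lit 9) t467)))))))))))
noncomputable def l3055 : Lb := (@Lb.d (nat_lit 0) (nat_lit 32) (nat_lit 72) (@Lb.g g11 (@Lb.r r409 (@Lb.r r2458 (@Lb.r r2407 (@Lb.d (nat_lit 336) (nat_lit 104) (nat_lit 678) (@Lb.t (@Lb.fm (nat_lit 3) t414))))))))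
noncomputable def l3056 : Lb := (@Lb.d (nat_lit 0) (nat_lit 256) (nat_lit 72) (@Lb.g g11 (@Lb.d (nat_lit 608) (nat_lit 0) (nat_lit 530) (@Lb.t (@Lb.fp (nat_lit 3) t698)))))
noncomputable def l3057 : Lb := (@Lb.d (nat_lit 512) (nat_lit 0) (nat_lit 128) (@Lb.r r1291 (@Lb.g g8 (@Lb.t (@Lb.fp (nat_lit 3) t997)))))
noncomputable def l3058 : Lb := (@Lb.d (nat_lit 0) (nat_lit 546) (nat_lit 66) (@Lb.g g9 (@Lb.g g10 (@Lb.g g11 (@Lb.r r2658 (@Lb.r r2661 (@Lb.r r615 (@Lb.r r24 (@Lb.d (nat_lit 673) (nat_lit 0) (nat_lit 600) (@Lb.t (@Lb.fp (nat_lit 9) t998)))))))))))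
noncomputable def l3059 : Lb := (@Lb.d (nat_lit 0) (nat_lit 256) (nat_lit 68) (@Lb.g g7 (@Lb.r r402 (@Lb.d (nat_lit 5) (nat_lit 9) (nat_lit 65) (@Lb.t (@Lb.fp (nat_lit 3) t44))))))
noncomputable def l3060 : Lb := (@Lb.d (nat_lit 0) (nat_lit 0) (nat_lit 129) (@Lb.g g9 (@Lb.g g10 (@Lb.g g11 (@Lb.r r2723 (@Lb.r r1610 (@Lb.r r2136 (@Lb.r r1061 (@Lb.d (nat_lit 512) (nat_lit 17) (nat_lit 320) (@Lb.t (@Lb.fp (nat_lit 9) t999)))))))))))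
noncomputable def l3061 : Lb := (@Lb.r r347 (@Lb.d (nat_lit 32) (nat_lit 514) (nat_lit 1) (@Lb.g g8 (@Lb.g g9 (@Lb.g g10 (@Lb.r r595 (@Lb.r r2154 (@Lb.r r105 (@Lb.r r1128 (@Lb.d (nat_lit 41) (nat_lit 9) (nat_lit 18) (@Lb.t (@Lb.fp (nat_lit 9) t1000))))))))))))
noncomputable def l3062 : Lb := (@Lb.d (nat_lit 0) (nat_lit 512) (nat_lit 68) (@Lb.g g7 (@Lb.r r402 (@Lb.d (nat_lit 0) (nat_lit 8) (nat_lit 65) (@Lb.t (@Lb.fp (nat_lit 3) t44))))))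
noncomputable def l3063 : Lb := (@Lb.d (nat_lit 2) (nat_lit 514) (nat_lit 130) (@Lb.g g8 (@Lb.g g9 (@Lb.g g10 (@Lb.g g11 (@Lb.r r2666 (@Lb.r r579 (@Lb.r r2337 (@Lb.r r24 (@Lb.d (nat_lit 586) (nat_lit 97) (nat_lit 640) (@Lb.fm (nat_lit 9) t504)))))))))))
noncomputable def l3064 : Lb := (@Lb.d (nat_lit 2) (nat_lit 33) (nat_lit 66) (@Lb.g g8 (@Lb.g g9 (@Lb.g g10 (@Lb.g g11 (@Lb.r r595 (@Lb.r r1702 (@Lb.r r1636 (@Lb.r r1557 (@Lb.d (nat_lit 390) (nat_lit 73) (nat_lit 258) (@Lb.fp (nat_lit 9) t1001)))))))))))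
noncomputable def l3065 : Lb := (@Lb.d (nat_lit 33) (nat_lit 514) (nat_lit 129) (@Lb.g g8 (@Lb.g g9 (@Lb.g g10 (@Lb.g g11 (@Lb.r r2595 (@Lb.r r2442 (@Lb.r r153 (@Lb.r r1432 (@Lb.d (nat_lit 82) (nat_lit 152) (nat_lit 618) (@Lb.fm (nat_lit 9) t1002)))))))))))
noncomputable def l3066 : Lb := (@Lb.d (nat_lit 682) (nat_lit 82) (nat_lit 674) (@Lb.r r2729 (@Lb.r r1366 (@Lb.g g7 (@Lb.g g5 (@Lb.g g4 (@Lb.d (nat_lit 1) (nat_lit 32) (nat_lit 136) (@Lb.r r578 (@Lb.t (@Lb.fm (nat_lit 9) t375))))))))))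
noncomputable def l3067 : Lb := (@Lb.r r82 (@Lb.d (nat_lit 0) (nat_lit 273) (nat_lit 128) (@Lb.g g9 (@Lb.g g11 (@Lb.r r1427 (@Lb.r r386 (@Lb.r r1113 (@Lb.r r24 (@Lb.d (nat_lit 530) (nat_lit 0) (nat_lit 17) (@Lb.fm (nat_lit 3) t538))))))))))
noncomputable def l3068 : Lb := (@Lb.d (nat_lit 0) (nat_lit 512) (nat_lit 128) (@Lb.g g10 (@Lb.g g11 (@Lb.r r387 (@Lb.d (nat_lit 608) (nat_lit 0) (nat_lit 594) (@Lb.fm (nat_lit 3) t698))))))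
noncomputable def l3069 : Lb := (@Lb.d (nat_lit 0) (nat_lit 512) (nat_lit 138) (@Lb.r r2690 (@Lb.r r1667 (@Lb.g g10 (@Lb.t (@Lb.fp (nat_lit 3) t2))))))
noncomputable def l3070 : Lb := (@Lb.r r21 (@Lb.d (nat_lit 16) (nat_lit 512) (nat_lit 0) (@Lb.g g8 (@Lb.g g10 (@Lb.g g7 (@Lb.r r402 (@Lb.r r97 (@Lb.r r2584 (@Lb.d (nat_lit 330) (nat_lit 33) (nat_lit 128) (@Lb.t (@Lb.fm (nat_lit 9) t720)))))))))))
noncomputable def l3071 : Lb := (@Lb.d (nat_lit 1) (nat_lit 514) (nat_lit 130) (@Lb.g g8 (@Lb.g g9 (@Lb.g g10 (@Lb.g g11 (@Lb.r r1426 (@Lb.r r1371 (@Lb.r r2457 (@Lb.r r2436 (@Lb.d (nat_lit 98) (nat_lit 4) (nat_lit 680) (@Lb.fm (nat_lit 9) t1003)))))))))))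
noncomputable def l3072 : Lb := (@Lb.d (nat_lit 2) (nat_lit 2) (nat_lit 66) (@Lb.g g8 (@Lb.g g9 (@Lb.g g10 (@Lb.g g11 (@Lb.r r1299 (@Lb.r r2705 (@Lb.r r356 (@Lb.r r154 (@Lb.r r132 (@Lb.d (nat_lit 136) (nat_lit 1) (nat_lit 330) (@Lb.fm (nat_lit 9) t284))))))))))))
noncomputable def l3073 : Lb := (@Lb.r r322 (@Lb.d (nat_lit 0) (nat_lit 256) (nat_lit 136) (@Lb.g g9 (@Lb.g g11 (@Lb.r r1426 (@Lb.r r101 (@Lb.d (nat_lit 5) (nat_lit 129) (nat_lit 128) (@Lb.fm (nat_lit 3) t240))))))))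
noncomputable def l3074 : Lb := (@Lb.g g7 (@Lb.r r1346 (@Lb.r r387 (@Lb.d (nat_lit 0) (nat_lit 0) (nat_lit 650) (@Lb.t (@Lb.fm (nat_lit 3) t2))))))
noncomputable def l3075 : Lb := (@Lb.d (nat_lit 65) (nat_lit 405) (nat_lit 645) (@Lb.r r2385 (@Lb.r r1638 (@Lb.r r659 (@Lb.g g7 (@Lb.g g5 (@Lb.g g4 (@Lb.d (nat_lit 1) (nat_lit 22) (nat_lit 64) (@Lb.r r98 (@Lb.t (@Lb.fm (nat_lit 9) t720)))))))))))
noncomputable def l3076 : Lb := (@Lb.r r323 (@Lb.d (nat_lit 0) (nat_lit 8) (nat_lit 34) (@Lb.g g10 (@Lb.r r2659 (@Lb.r r101 (@Lb.d (nat_lit 586) (nat_lit 34) (nat_lit 386) (@Lb.t (@Lb.fp (nat_lit 3) t240))))))))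
noncomputable def l3077 : Lb := (@Lb.d (nat_lit 37) (nat_lit 576) (nat_lit 138) (@Lb.r r24 (@Lb.r r2138 (@Lb.r r149 (@Lb.g g5 (@Lb.t (@Lb.fp (nat_lit 3) t1004)))))))
noncomputable def l3078 : Lb := (@Lb.d (nat_lit 2) (nat_lit 521) (nat_lit 72) (@Lb.g g8 (@Lb.g g9 (@Lb.g g10 (@Lb.g g11 (@Lb.r r1559 (@Lb.r r1434 (@Lb.r r2344 (@Lb.r r2457 (@Lb.d (nat_lit 538) (nat_lit 102) (nat_lit 537) (@Lb.fm (nat_lit 9) t1005)))))))))))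
noncomputable def l3079 : Lb := (@Lb.d (nat_lit 513) (nat_lit 612) (nat_lit 278) (@Lb.r r2129 (@Lb.r r1190 (@Lb.r r673 (@Lb.r r683 (@Lb.g g7 (@Lb.g g6 (@Lb.g g5 (@Lb.g g4 (@Lb.d (nat_lit 1) (nat_lit 18) (nat_lit 65) (@Lb.fm (nat_lit 9) t582)))))))))))
noncomputable def l3080 : Lb := (@Lb.r r21 (@Lb.r r70 (@Lb.d (nat_lit 390) (nat_lit 256) (nat_lit 136) (@Lb.g g8 (@Lb.g g11 (@Lb.r r74 (@Lb.r r25 (@Lb.d (nat_lit 512) (nat_lit 64) (nat_lit 2) (@Lb.fm (nat_lit 3) t42)))))))))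
noncomputable def l3081 : Lb := (@Lb.d (nat_lit 2) (nat_lit 521) (nat_lit 72) (@Lb.g g8 (@Lb.g g9 (@Lb.g g10 (@Lb.g g11 (@Lb.r r1559 (@Lb.r r1434 (@Lb.r r292 (@Lb.r r405 (@Lb.r r2084 (@Lb.d (nat_lit 608) (nat_lit 104) (nat_lit 345) (@Lb.fp (nat_lit 9) t1006))))))))))))
noncomputable def l3082 : Lb := (@Lb.d (nat_lit 2) (nat_lit 290) (nat_lit 2) (@Lb.g g8 (@Lb.g g9 (@Lb.g g10 (@Lb.r r1194 (@Lb.r r2468 (@Lb.r r1307 (@Lb.r r1573 (@Lb.d (nat_lit 389) (nat_lit 16) (nat_lit 586) (@Lb.t (@Lb.fm (nat_lit 9) t284)))))))))))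
noncomputable def l3083 : Lb := (@Lb.d (nat_lit 161) (nat_lit 257) (nat_lit 1) (@Lb.g g8 (@Lb.g g9 (@Lb.g g10 (@Lb.r r1433 (@Lb.r r359 (@Lb.r r2726 (@Lb.r r2216 (@Lb.d (nat_lit 426) (nat_lit 168) (nat_lit 584) (@Lb.t (@Lb.fm (nat_lit 9) t320)))))))))))
noncomputable def l3084 : Lb := (@Lb.d (nat_lit 1) (nat_lit 420) (nat_lit 6) (@Lb.r r37 (@Lb.r r2406 (@Lb.r r2715 (@Lb.g g7 (@Lb.g g6 (@Lb.g g4 (@Lb.d (nat_lit 548) (nat_lit 0) (nat_lit 69) (@Lb.r r25 (@Lb.t (@Lb.fp (nat_lit 9) t40)))))))))))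
noncomputable def l3085 : Lb := (@Lb.d (nat_lit 8) (nat_lit 166) (nat_lit 6) (@Lb.r r21 (@Lb.r r2390 (@Lb.r r2731 (@Lb.g g7 (@Lb.g g6 (@Lb.g g5 (@Lb.g g4 (@Lb.d (nat_lit 544) (nat_lit 1) (nat_lit 69) (@Lb.fm (nat_lit 9) t40))))))))))
noncomputable def l3086 : Lb := (@Lb.d (nat_lit 384) (nat_lit 0) (nat_lit 338) (@Lb.r r24 (@Lb.r r2394 (@Lb.r r661 (@Lb.g g6 (@Lb.d (nat_lit 0) (nat_lit 0) (nat_lit 1) (@Lb.t (@Lb.fp (nat_lit 3) t700))))))))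
noncomputable def l3087 : Lb := (@Lb.d (nat_lit 2) (nat_lit 520) (nat_lit 73) (@Lb.g g8 (@Lb.g g9 (@Lb.g g10 (@Lb.g g11 (@Lb.r r342 (@Lb.r r2728 (@Lb.r r2603 (@Lb.r r2581 (@Lb.d (nat_lit 386) (nat_lit 104) (nat_lit 329) (@Lb.fp (nat_lit 9) t789)))))))))))
noncomputable def l3088 : Lb := (@Lb.d (nat_lit 8) (nat_lit 521) (nat_lit 0) (@Lb.g g9 (@Lb.r r2315 (@Lb.r r2196 (@Lb.r r2646 (@Lb.r r409 (@Lb.d (nat_lit 10) (nat_lit 26) (nat_lit 665) (@Lb.t (@Lb.fp (nat_lit 3) t386)))))))))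
noncomputable def l3089 : Lb := (@Lb.d (nat_lit 2) (nat_lit 514) (nat_lit 130) (@Lb.g g8 (@Lb.g g9 (@Lb.g g10 (@Lb.g g11 (@Lb.r r427 (@Lb.r r145 (@Lb.r r356 (@Lb.r r154 (@Lb.r r132 (@Lb.d (nat_lit 282) (nat_lit 4) (nat_lit 168) (@Lb.fm (nat_lit 9) t61))))))))))))
noncomputable def l3090 : Lb := (@Lb.d (nat_lit 0) (nat_lit 674) (nat_lit 128) (@Lb.r r275 (@Lb.g g9 (@Lb.d (nat_lit 0) (nat_lit 82) (nat_lit 0) (@Lb.r r291 (@Lb.t (@Lb.fp (nat_lit 3) t484)))))))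
noncomputable def l3091 : Lb := (@Lb.d (nat_lit 0) (nat_lit 0) (nat_lit 130) (@Lb.g g9 (@Lb.g g10 (@Lb.g g11 (@Lb.r r586 (@Lb.r r584 (@Lb.r r299 (@Lb.r r289 (@Lb.d (nat_lit 4) (nat_lit 129) (nat_lit 0) (@Lb.t (@Lb.fm (nat_lit 9) t51)))))))))))
noncomputable def l3092 : Lb := (@Lb.d (nat_lit 608) (nat_lit 133) (nat_lit 17) (@Lb.r r2129 (@Lb.r r354 (@Lb.g g11 (@Lb.g g5 (@Lb.g g4 (@Lb.d (nat_lit 1) (nat_lit 5) (nat_lit 384) (@Lb.r r578 (@Lb.t (@Lb.fm (nat_lit 9) t1007))))))))))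
noncomputable def l3093 : Lb := (@Lb.d (nat_lit 0) (nat_lit 10) (nat_lit 6) (@Lb.g g9 (@Lb.g g10 (@Lb.g g11 (@Lb.r r2726 (@Lb.r r1368 (@Lb.r r2567 (@Lb.r r289 (@Lb.d (nat_lit 2) (nat_lit 160) (nat_lit 320) (@Lb.t (@Lb.fm (nat_lit 9) t211)))))))))))
noncomputable def l3094 : Lb := (@Lb.d (nat_lit 4) (nat_lit 266) (nat_lit 6) (@Lb.g g8 (@Lb.g g9 (@Lb.g g10 (@Lb.g g11 (@Lb.r r2722 (@Lb.r r548 (@Lb.r r661 (@Lb.r r535 (@Lb.r r2084 (@Lb.d (nat_lit 2) (nat_lit 10) (nat_lit 329) (@Lb.fp (nat_lit 9) t739))))))))))))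
noncomputable def l3095 : Lb := (@Lb.d (nat_lit 2) (nat_lit 2) (nat_lit 130) (@Lb.g g8 (@Lb.g g9 (@Lb.g g10 (@Lb.g g11 (@Lb.r r138 (@Lb.r r529 (@Lb.r r664 (@Lb.r r539 (@Lb.r r516 (@Lb.d (nat_lit 265) (nat_lit 65) (nat_lit 650) (@Lb.fm (nat_lit 9) t1008))))))))))))
noncomputable def l3096 : Lb := (@Lb.d (nat_lit 0) (nat_lit 266) (nat_lit 129) (@Lb.g g9 (@Lb.g g10 (@Lb.g g11 (@Lb.r r1681 (@Lb.r r2706 (@Lb.r r387 (@Lb.d (nat_lit 0) (nat_lit 42) (nat_lit 264) (@Lb.t (@Lb.fp (nat_lit 9) t1))))))))))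
noncomputable def l3097 : Lb := (@Lb.d (nat_lit 645) (nat_lit 294) (nat_lit 520) (@Lb.r r536 (@Lb.r r353 (@Lb.r r1643 (@Lb.g g10 (@Lb.g g5 (@Lb.g g4 (@Lb.d (nat_lit 1) (nat_lit 1) (nat_lit 2) (@Lb.r r411 (@Lb.t (@Lb.fp (nat_lit 9) t1009)))))))))))
noncomputable def l3098 : Lb := (@Lb.d (nat_lit 42) (nat_lit 512) (nat_lit 0) (@Lb.g g8 (@Lb.r r2395 (@Lb.r r614 (@Lb.r r1637 (@Lb.r r1428 (@Lb.d (nat_lit 358) (nat_lit 90) (nat_lit 394) (@Lb.t (@Lb.fm (nat_lit 3) t386)))))))))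
noncomputable def l3099 : Lb := (@Lb.d (nat_lit 274) (nat_lit 133) (nat_lit 644) (@Lb.r r2118 (@Lb.r r2440 (@Lb.r r2583 (@Lb.r r2385 (@Lb.g g6 (@Lb.g g5 (@Lb.g g4 (@Lb.d (nat_lit 97) (nat_lit 1) (nat_lit 1) (@Lb.t (@Lb.fp (nat_lit 9) t580)))))))))))
noncomputable def l3100 : Lb := (@Lb.d (nat_lit 0) (nat_lit 522) (nat_lit 0) (@Lb.g g5 (@Lb.r r2210 (@Lb.r r1185 (@Lb.d (nat_lit 0) (nat_lit 68) (nat_lit 1) (@Lb.t (@Lb.fm (nat_lit 3) t970)))))))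
noncomputable def l3101 : Lb := (@Lb.d (nat_lit 8) (nat_lit 258) (nat_lit 130) (@Lb.g g8 (@Lb.g g9 (@Lb.g g10 (@Lb.g g11 (@Lb.r r660 (@Lb.r r2311 (@Lb.r r161 (@Lb.r r98 (@Lb.r r1540 (@Lb.d (nat_lit 1) (nat_lit 166) (nat_lit 664) (@Lb.fm (nat_lit 9) t391))))))))))))
noncomputable def l3102 : Lb := (@Lb.d (nat_lit 0) (nat_lit 2) (nat_lit 5) (@Lb.g g9 (@Lb.g g10 (@Lb.g g11 (@Lb.r r1347 (@Lb.r r613 (@Lb.r r666 (@Lb.r r24 (@Lb.d (nat_lit 672) (nat_lit 5) (nat_lit 65) (@Lb.t (@Lb.fp (nat_lit 9) t1010)))))))))))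
noncomputable def l3103 : Lb := (@Lb.d (nat_lit 129) (nat_lit 5) (nat_lit 356) (@Lb.r r1608 (@Lb.r r1625 (@Lb.r r1611 (@Lb.g g7 (@Lb.g g10 (@Lb.g g4 (@Lb.d (nat_lit 0) (nat_lit 0) (nat_lit 65) (@Lb.r r145 (@Lb.t (@Lb.fm (nat_lit 9) t826)))))))))))
noncomputable def l3104 : Lb := (@Lb.d (nat_lit 4) (nat_lit 10) (nat_lit 1) (@Lb.g g8 (@Lb.g g9 (@Lb.g g10 (@Lb.g g11 (@Lb.r r2435 (@Lb.r r553 (@Lb.r r360 (@Lb.r r2374 (@Lb.r r132 (@Lb.d (nat_lit 578) (nat_lit 90) (nat_lit 673) (@Lb.fp (nat_lit 9) t393))))))))))))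
noncomputable def l3105 : Lb := (@Lb.d (nat_lit 0) (nat_lit 2) (nat_lit 66) (@Lb.g g9 (@Lb.g g10 (@Lb.g g7 (@Lb.r r386 (@Lb.r r97 (@Lb.d (nat_lit 5) (nat_lit 10) (nat_lit 137) (@Lb.t (@Lb.fp (nat_lit 9) t285)))))))))
noncomputable def l3106 : Lb := (@Lb.g g11 (@Lb.r r1291 (@Lb.d (nat_lit 512) (nat_lit 512) (nat_lit 0) (@Lb.t (@Lb.fp (nat_lit 3) t441)))))
noncomputable def l3107 : Lb := (@Lb.d (nat_lit 6) (nat_lit 65) (nat_lit 0) (@Lb.r r289 (@Lb.r r279 (@Lb.r r584 (@Lb.r r326 (@Lb.g g7 (@Lb.g g6 (@Lb.g g5 (@Lb.d (nat_lit 0) (nat_lit 10) (nat_lit 64) (@Lb.t (@Lb.fp (nat_lit 9) t151)))))))))))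
noncomputable def l3108 : Lb := (@Lb.d (nat_lit 4) (nat_lit 34) (nat_lit 130) (@Lb.g g8 (@Lb.g g9 (@Lb.g g10 (@Lb.g g11 (@Lb.r r683 (@Lb.r r1642 (@Lb.r r1561 (@Lb.d (nat_lit 586) (nat_lit 105) (nat_lit 273) (@Lb.fm (nat_lit 9) t919))))))))))
noncomputable def l3109 : Lb := (@Lb.d (nat_lit 0) (nat_lit 520) (nat_lit 130) (@Lb.g g8 (@Lb.g g9 (@Lb.g g10 (@Lb.g g11 (@Lb.r r516 (@Lb.r r263 (@Lb.r r2666 (@Lb.r r2649 (@Lb.r r516 (@Lb.d (nat_lit 41) (nat_lit 133) (nat_lit 161) (@Lb.fp (nat_lit 9) t362))))))))))))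
noncomputable def l3110 : Lb := (@Lb.r r20 (@Lb.d (nat_lit 0) (nat_lit 545) (nat_lit 130) (@Lb.g g9 (@Lb.g g10 (@Lb.g g11 (@Lb.r r675 (@Lb.r r1634 (@Lb.r r1553 (@Lb.d (nat_lit 1) (nat_lit 105) (nat_lit 273) (@Lb.t (@Lb.fp (nat_lit 9) t919)))))))))))
noncomputable def l3111 : Lb := (@Lb.d (nat_lit 2) (nat_lit 258) (nat_lit 130) (@Lb.g g8 (@Lb.g g9 (@Lb.g g10 (@Lb.g g11 (@Lb.r r2705 (@Lb.r r1687 (@Lb.r r2404 (@Lb.r r1610 (@Lb.d (nat_lit 609) (nat_lit 85) (nat_lit 134) (@Lb.fm (nat_lit 9) t311)))))))))))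
noncomputable def l3112 : Lb := (@Lb.r r20 (@Lb.d (nat_lit 0) (nat_lit 33) (nat_lit 130) (@Lb.g g9 (@Lb.g g10 (@Lb.g g11 (@Lb.r r675 (@Lb.r r1634 (@Lb.r r1553 (@Lb.d (nat_lit 0) (nat_lit 105) (nat_lit 273) (@Lb.t (@Lb.fp (nat_lit 9) t919)))))))))))
noncomputable def l3113 : Lb := (@Lb.d (nat_lit 553) (nat_lit 392) (nat_lit 578) (@Lb.r r2645 (@Lb.r r2327 (@Lb.r r580 (@Lb.r r138 (@Lb.g g7 (@Lb.g g5 (@Lb.g g4 (@Lb.d (nat_lit 1) (nat_lit 6) (nat_lit 64) (@Lb.t (@Lb.fm (nat_lit 9) t1011)))))))))))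
noncomputable def l3114 : Lb := (@Lb.r r21 (@Lb.d (nat_lit 129) (nat_lit 512) (nat_lit 130) (@Lb.g g8 (@Lb.g g10 (@Lb.g g11 (@Lb.r r2647 (@Lb.r r666 (@Lb.r r421 (@Lb.r r580 (@Lb.d (nat_lit 265) (nat_lit 161) (nat_lit 290) (@Lb.t (@Lb.fp (nat_lit 9) t842))))))))))))
noncomputable def l3115 : Lb := (@Lb.d (nat_lit 2) (nat_lit 0) (nat_lit 4) (@Lb.g g8 (@Lb.g g10 (@Lb.g g11 (@Lb.r r1363 (@Lb.r r2665 (@Lb.r r1448 (@Lb.r r1418 (@Lb.d (nat_lit 154) (nat_lit 9) (nat_lit 418) (@Lb.t (@Lb.fp (nat_lit 9) t277)))))))))))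
noncomputable def l3116 : Lb := (@Lb.g g9 (@Lb.g g11 (@Lb.r r2577 (@Lb.d (nat_lit 0) (nat_lit 512) (nat_lit 256) (@Lb.fm (nat_lit 3) t121)))))
noncomputable def l3117 : Lb := (@Lb.d (nat_lit 5) (nat_lit 522) (nat_lit 136) (@Lb.g g4 (@Lb.g g9 (@Lb.g g10 (@Lb.g g11 (@Lb.r r679 (@Lb.r r1366 (@Lb.r r1553 (@Lb.d (nat_lit 336) (nat_lit 105) (nat_lit 672) (@Lb.fp (nat_lit 9) t50))))))))))
noncomputable def l3118 : Lb := (@Lb.d (nat_lit 2) (nat_lit 289) (nat_lit 130) (@Lb.g g8 (@Lb.g g9 (@Lb.g g10 (@Lb.g g11 (@Lb.r r427 (@Lb.r r386 (@Lb.r r361 (@Lb.d (nat_lit 660) (nat_lit 8) (nat_lit 144) (@Lb.fp (nat_lit 9) t1012))))))))))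
noncomputable def l3119 : Lb := (@Lb.d (nat_lit 128) (nat_lit 516) (nat_lit 146) (@Lb.g g10 (@Lb.g g11 (@Lb.r r2709 (@Lb.r r292 (@Lb.r r539 (@Lb.d (nat_lit 84) (nat_lit 33) (nat_lit 36) (@Lb.fp (nat_lit 3) t282))))))))
noncomputable def l3120 : Lb := (@Lb.d (nat_lit 5) (nat_lit 256) (nat_lit 2) (@Lb.g g4 (@Lb.g g9 (@Lb.g g10 (@Lb.g g11 (@Lb.r r679 (@Lb.r r677 (@Lb.r r166 (@Lb.r r145 (@Lb.d (nat_lit 585) (nat_lit 2) (nat_lit 154) (@Lb.fp (nat_lit 9) t61)))))))))))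
noncomputable def l3121 : Lb := (@Lb.d (nat_lit 2) (nat_lit 514) (nat_lit 2) (@Lb.g g8 (@Lb.g g9 (@Lb.g g10 (@Lb.g g11 (@Lb.r r427 (@Lb.r r386 (@Lb.r r25 (@Lb.d (nat_lit 9) (nat_lit 21) (nat_lit 134) (@Lb.fm (nat_lit 9) t51))))))))))
noncomputable def l3122 : Lb := (@Lb.d (nat_lit 42) (nat_lit 514) (nat_lit 136) (@Lb.r r154 (@Lb.r r664 (@Lb.r r667 (@Lb.r r353 (@Lb.g g7 (@Lb.g g6 (@Lb.g g4 (@Lb.d (nat_lit 2) (nat_lit 4) (nat_lit 65) (@Lb.t (@Lb.fp (nat_lit 9) t51)))))))))))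
noncomputable def l3123 : Lb := (@Lb.r r21 (@Lb.r r70 (@Lb.d (nat_lit 137) (nat_lit 256) (nat_lit 256) (@Lb.g g8 (@Lb.g g7 (@Lb.r r1617 (@Lb.r r2150 (@Lb.r r408 (@Lb.d (nat_lit 656) (nat_lit 24) (nat_lit 394) (@Lb.fm (nat_lit 3) t491))))))))))
noncomputable def l3124 : Lb := (@Lb.d (nat_lit 2) (nat_lit 2) (nat_lit 73) (@Lb.g g8 (@Lb.g g9 (@Lb.g g10 (@Lb.g g11 (@Lb.r r2691 (@Lb.r r297 (@Lb.r r360 (@Lb.r r582 (@Lb.r r2180 (@Lb.d (nat_lit 160) (nat_lit 10) (nat_lit 417) (@Lb.fm (nat_lit 9) t1013))))))))))))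
noncomputable def l3125 : Lb := (@Lb.r r21 (@Lb.r r70 (@Lb.d (nat_lit 137) (nat_lit 512) (nat_lit 256) (@Lb.g g8 (@Lb.g g7 (@Lb.r r1617 (@Lb.r r2150 (@Lb.r r408 (@Lb.d (nat_lit 666) (nat_lit 26) (nat_lit 394) (@Lb.fm (nat_lit 3) t491))))))))))
noncomputable def l3126 : Lb := (@Lb.r r21 (@Lb.r r70 (@Lb.d (nat_lit 129) (nat_lit 512) (nat_lit 256) (@Lb.g g8 (@Lb.g g7 (@Lb.r r1617 (@Lb.r r1126 (@Lb.r r1432 (@Lb.d (nat_lit 154) (nat_lit 154) (nat_lit 682) (@Lb.fm (nat_lit 3) t491))))))))))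
noncomputable def l3127 : Lb := (@Lb.d (nat_lit 394) (nat_lit 73) (nat_lit 2) (@Lb.r r1128 (@Lb.r r1313 (@Lb.r r1686 (@Lb.r r2387 (@Lb.g g7 (@Lb.g g6 (@Lb.g g5 (@Lb.d (nat_lit 0) (nat_lit 1) (nat_lit 65) (@Lb.t (@Lb.fm (nat_lit 9) t1014)))))))))))
noncomputable def l3128 : Lb := (@Lb.d (nat_lit 153) (nat_lit 262) (nat_lit 1) (@Lb.g g8 (@Lb.g g9 (@Lb.g g10 (@Lb.r r2391 (@Lb.r r618 (@Lb.r r1636 (@Lb.r r2581 (@Lb.d (nat_lit 133) (nat_lit 41) (nat_lit 610) (@Lb.t (@Lb.fm (nat_lit 9) t1015)))))))))))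
noncomputable def l3129 : Lb := (@Lb.r r82 (@Lb.r r275 (@Lb.d (nat_lit 2) (nat_lit 137) (nat_lit 0) (@Lb.g g8 (@Lb.g g5 (@Lb.r r291 (@Lb.r r98 (@Lb.r r24 (@Lb.d (nat_lit 10) (nat_lit 130) (nat_lit 16) (@Lb.fm (nat_lit 3) t151))))))))))
noncomputable def l3130 : Lb := (@Lb.d (nat_lit 2) (nat_lit 512) (nat_lit 128) (@Lb.g g8 (@Lb.g g5 (@Lb.g g10 (@Lb.g g11 (@Lb.r r387 (@Lb.r r24 (@Lb.d (nat_lit 10) (nat_lit 0) (nat_lit 137) (@Lb.fp (nat_lit 9) t2)))))))))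
noncomputable def l3131 : Lb := (@Lb.r r82 (@Lb.d (nat_lit 4) (nat_lit 34) (nat_lit 64) (@Lb.g g8 (@Lb.g g9 (@Lb.g g11 (@Lb.r r2474 (@Lb.r r2601 (@Lb.r r2475 (@Lb.r r2344 (@Lb.d (nat_lit 272) (nat_lit 128) (nat_lit 136) (@Lb.t (@Lb.fp (nat_lit 9) t1016))))))))))))
noncomputable def l3132 : Lb := (@Lb.r r1114 (@Lb.r r289 (@Lb.r r1096 (@Lb.d (nat_lit 644) (nat_lit 145) (nat_lit 576) (@Lb.fp (nat_lit 1) t1017)))))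
noncomputable def l3133 : Lb := (@Lb.d (nat_lit 2) (nat_lit 9) (nat_lit 129) (@Lb.g g8 (@Lb.g g9 (@Lb.g g10 (@Lb.g g11 (@Lb.r r427 (@Lb.r r145 (@Lb.r r356 (@Lb.r r154 (@Lb.r r132 (@Lb.d (nat_lit 4) (nat_lit 8) (nat_lit 153) (@Lb.fm (nat_lit 9) t390))))))))))))
noncomputable def l3134 : Lb := (@Lb.d (nat_lit 37) (nat_lit 101) (nat_lit 517) (@Lb.r r615 (@Lb.r r593 (@Lb.r r342 (@Lb.g g7 (@Lb.g g4 (@Lb.d (nat_lit 1) (nat_lit 16) (nat_lit 128) (@Lb.fp (nat_lit 3) t938))))))))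
noncomputable def l3135 : Lb := (@Lb.d (nat_lit 0) (nat_lit 394) (nat_lit 34) (@Lb.r r402 (@Lb.r r579 (@Lb.g g11 (@Lb.g g6 (@Lb.fp (nat_lit 3) t71))))))
noncomputable def l3136 : Lb := (@Lb.d (nat_lit 38) (nat_lit 513) (nat_lit 9) (@Lb.r r154 (@Lb.r r404 (@Lb.r r363 (@Lb.r r353 (@Lb.g g7 (@Lb.g g6 (@Lb.g g4 (@Lb.d (nat_lit 5) (nat_lit 4) (nat_lit 65) (@Lb.t (@Lb.fp (nat_lit 9) t51)))))))))))
noncomputable def l3137 : Lb := (@Lb.d (nat_lit 38) (nat_lit 1) (nat_lit 9) (@Lb.r r154 (@Lb.r r404 (@Lb.r r363 (@Lb.r r353 (@Lb.g g7 (@Lb.g g6 (@Lb.g g4 (@Lb.d (nat_lit 4) (nat_lit 4) (nat_lit 65) (@Lb.t (@Lb.fp (nat_lit 9) t51)))))))))))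
noncomputable def l3138 : Lb := (@Lb.d (nat_lit 1) (nat_lit 406) (nat_lit 320) (@Lb.r r2308 (@Lb.r r97 (@Lb.r r1291 (@Lb.r r404 (@Lb.g g7 (@Lb.g g10 (@Lb.g g5 (@Lb.g g4 (@Lb.d (nat_lit 1) (nat_lit 6) (nat_lit 82) (@Lb.fp (nat_lit 9) t1018)))))))))))
noncomputable def l3139 : Lb := (@Lb.d (nat_lit 388) (nat_lit 662) (nat_lit 320) (@Lb.r r1560 (@Lb.r r97 (@Lb.r r1387 (@Lb.g g10 (@Lb.g g5 (@Lb.g g4 (@Lb.d (nat_lit 65) (nat_lit 6) (nat_lit 18) (@Lb.t (@Lb.fm (nat_lit 9) t1018))))))))))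
noncomputable def l3140 : Lb := (@Lb.d (nat_lit 4) (nat_lit 256) (nat_lit 130) (@Lb.g g8 (@Lb.g g9 (@Lb.g g10 (@Lb.g g11 (@Lb.r r1435 (@Lb.r r1432 (@Lb.r r106 (@Lb.r r97 (@Lb.d (nat_lit 2) (nat_lit 149) (nat_lit 296) (@Lb.fp (nat_lit 9) t51)))))))))))
noncomputable def l3141 : Lb := (@Lb.d (nat_lit 0) (nat_lit 656) (nat_lit 320) (@Lb.r r2308 (@Lb.r r2178 (@Lb.r r1419 (@Lb.r r420 (@Lb.g g7 (@Lb.g g9 (@Lb.g g4 (@Lb.d (nat_lit 1) (nat_lit 70) (nat_lit 0) (@Lb.t (@Lb.fp (nat_lit 9) t1019)))))))))))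
noncomputable def l3142 : Lb := (@Lb.r r275 (@Lb.d (nat_lit 1) (nat_lit 0) (nat_lit 2) (@Lb.g g8 (@Lb.g g9 (@Lb.g g10 (@Lb.r r2666 (@Lb.r r1603 (@Lb.r r1313 (@Lb.d (nat_lit 520) (nat_lit 66) (nat_lit 0) (@Lb.t (@Lb.fm (nat_lit 9) t495)))))))))))
noncomputable def l3143 : Lb := (@Lb.d (nat_lit 1) (nat_lit 514) (nat_lit 137) (@Lb.g g8 (@Lb.g g9 (@Lb.g g10 (@Lb.g g11 (@Lb.r r683 (@Lb.r r1689 (@Lb.r r1688 (@Lb.r r1610 (@Lb.d (nat_lit 609) (nat_lit 105) (nat_lit 257) (@Lb.fp (nat_lit 9) t1020)))))))))))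
noncomputable def l3144 : Lb := (@Lb.d (nat_lit 1) (nat_lit 514) (nat_lit 130) (@Lb.g g8 (@Lb.g g9 (@Lb.g g10 (@Lb.g g11 (@Lb.r r427 (@Lb.r r297 (@Lb.r r104 (@Lb.r r70 (@Lb.r r132 (@Lb.d (nat_lit 9) (nat_lit 149) (nat_lit 70) (@Lb.fp (nat_lit 9) t119))))))))))))
noncomputable def l3145 : Lb := (@Lb.r r81 (@Lb.d (nat_lit 33) (nat_lit 4) (nat_lit 129) (@Lb.g g8 (@Lb.g g6 (@Lb.g g11 (@Lb.r r529 (@Lb.r r407 (@Lb.r r612 (@Lb.d (nat_lit 164) (nat_lit 20) (nat_lit 136) (@Lb.t (@Lb.fp (nat_lit 9) t5)))))))))))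
noncomputable def l3146 : Lb := (@Lb.d (nat_lit 384) (nat_lit 517) (nat_lit 289) (@Lb.r r85 (@Lb.r r170 (@Lb.r r676 (@Lb.r r423 (@Lb.g g5 (@Lb.d (nat_lit 0) (nat_lit 17) (nat_lit 0) (@Lb.t (@Lb.fp (nat_lit 3) t1021)))))))))
noncomputable def l3147 : Lb := (@Lb.d (nat_lit 33) (nat_lit 0) (nat_lit 0) (@Lb.g g8 (@Lb.r r2411 (@Lb.r r598 (@Lb.r r2457 (@Lb.r r408 (@Lb.d (nat_lit 665) (nat_lit 26) (nat_lit 154) (@Lb.t (@Lb.fm (nat_lit 3) t386)))))))))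
noncomputable def l3148 : Lb := (@Lb.r r323 (@Lb.d (nat_lit 32) (nat_lit 34) (nat_lit 2) (@Lb.g g9 (@Lb.g g10 (@Lb.r r595 (@Lb.r r409 (@Lb.r r24 (@Lb.d (nat_lit 169) (nat_lit 98) (nat_lit 17) (@Lb.fm (nat_lit 3) t1022)))))))))
noncomputable def l3149 : Lb := (@Lb.d (nat_lit 9) (nat_lit 257) (nat_lit 128) (@Lb.g g8 (@Lb.g g9 (@Lb.g g10 (@Lb.g g11 (@Lb.r r676 (@Lb.r r263 (@Lb.r r162 (@Lb.r r145 (@Lb.r r516 (@Lb.d (nat_lit 4) (nat_lit 10) (nat_lit 137) (@Lb.fm (nat_lit 9) t51))))))))))))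
noncomputable def l3150 : Lb := (@Lb.r r81 (@Lb.d (nat_lit 33) (nat_lit 260) (nat_lit 129) (@Lb.g g8 (@Lb.g g6 (@Lb.g g11 (@Lb.r r529 (@Lb.r r407 (@Lb.r r612 (@Lb.d (nat_lit 170) (nat_lit 21) (nat_lit 136) (@Lb.t (@Lb.fp (nat_lit 9) t238)))))))))))
noncomputable def l3151 : Lb := (@Lb.r r323 (@Lb.d (nat_lit 0) (nat_lit 260) (nat_lit 42) (@Lb.g g8 (@Lb.g g9 (@Lb.g g6 (@Lb.r r387 (@Lb.r r1313 (@Lb.d (nat_lit 2) (nat_lit 98) (nat_lit 16) (@Lb.t (@Lb.fm (nat_lit 9) t388))))))))))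
noncomputable def l3152 : Lb := (@Lb.d (nat_lit 32) (nat_lit 520) (nat_lit 9) (@Lb.g g10 (@Lb.r r2649 (@Lb.r r600 (@Lb.r r603 (@Lb.r r2406 (@Lb.d (nat_lit 592) (nat_lit 42) (nat_lit 678) (@Lb.t (@Lb.fp (nat_lit 3) t748)))))))))
noncomputable def l3153 : Lb := (@Lb.d (nat_lit 0) (nat_lit 272) (nat_lit 585) (@Lb.g g8 (@Lb.g g9 (@Lb.g g10 (@Lb.g g7 (@Lb.r r386 (@Lb.r r1121 (@Lb.d (nat_lit 2) (nat_lit 74) (nat_lit 25) (@Lb.fm (nat_lit 9) t388)))))))))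
noncomputable def l3154 : Lb := (@Lb.d (nat_lit 537) (nat_lit 581) (nat_lit 2) (@Lb.r r2641 (@Lb.r r279 (@Lb.r r584 (@Lb.g g6 (@Lb.d (nat_lit 16) (nat_lit 0) (nat_lit 1) (@Lb.r r387 (@Lb.t (@Lb.fp (nat_lit 3) t1023)))))))))
noncomputable def l3155 : Lb := (@Lb.d (nat_lit 2) (nat_lit 2) (nat_lit 2) (@Lb.g g8 (@Lb.g g9 (@Lb.g g10 (@Lb.r r2723 (@Lb.r r1634 (@Lb.r r1553 (@Lb.d (nat_lit 2) (nat_lit 105) (nat_lit 417) (@Lb.t (@Lb.fp (nat_lit 9) t324))))))))))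
noncomputable def l3156 : Lb := (@Lb.d (nat_lit 2) (nat_lit 514) (nat_lit 137) (@Lb.g g8 (@Lb.g g9 (@Lb.g g10 (@Lb.g g11 (@Lb.r r2723 (@Lb.r r1634 (@Lb.r r1553 (@Lb.d (nat_lit 1) (nat_lit 105) (nat_lit 417) (@Lb.fm (nat_lit 9) t324))))))))))
noncomputable def l3157 : Lb := (@Lb.d (nat_lit 0) (nat_lit 552) (nat_lit 68) (@Lb.r r322 (@Lb.r r659 (@Lb.g g7 (@Lb.g g6 (@Lb.g g9 (@Lb.d (nat_lit 0) (nat_lit 10) (nat_lit 133) (@Lb.t (@Lb.fp (nat_lit 9) t374)))))))))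
noncomputable def l3158 : Lb := (@Lb.d (nat_lit 0) (nat_lit 40) (nat_lit 68) (@Lb.r r322 (@Lb.r r659 (@Lb.g g7 (@Lb.g g6 (@Lb.g g9 (@Lb.g g4 (@Lb.d (nat_lit 1) (nat_lit 10) (nat_lit 133) (@Lb.fp (nat_lit 9) t374)))))))))
noncomputable def l3159 : Lb := (@Lb.d (nat_lit 1) (nat_lit 2) (nat_lit 130) (@Lb.g g4 (@Lb.g g9 (@Lb.g g10 (@Lb.g g11 (@Lb.r r1443 (@Lb.r r386 (@Lb.r r97 (@Lb.d (nat_lit 1) (nat_lit 9) (nat_lit 585) (@Lb.fm (nat_lit 9) t500))))))))))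
noncomputable def l3160 : Lb := (@Lb.d (nat_lit 2) (nat_lit 514) (nat_lit 130) (@Lb.g g8 (@Lb.g g9 (@Lb.g g10 (@Lb.g g11 (@Lb.r r1443 (@Lb.r r405 (@Lb.r r86 (@Lb.r r145 (@Lb.r r36 (@Lb.d (nat_lit 521) (nat_lit 2) (nat_lit 345) (@Lb.fp (nat_lit 9) t1024))))))))))))
noncomputable def l3161 : Lb := (@Lb.d (nat_lit 516) (nat_lit 325) (nat_lit 64) (@Lb.r r37 (@Lb.r r1044 (@Lb.r r1414 (@Lb.g g7 (@Lb.g g5 (@Lb.d (nat_lit 0) (nat_lit 1) (nat_lit 68) (@Lb.fm (nat_lit 3) t1025))))))))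
noncomputable def l3162 : Lb := (@Lb.d (nat_lit 261) (nat_lit 294) (nat_lit 274) (@Lb.r r2645 (@Lb.r r2327 (@Lb.r r1636 (@Lb.g g10 (@Lb.g g5 (@Lb.d (nat_lit 16) (nat_lit 1) (nat_lit 10) (@Lb.r r387 (@Lb.fp (nat_lit 3) t1026)))))))))
noncomputable def l3163 : Lb := (@Lb.d (nat_lit 5) (nat_lit 358) (nat_lit 649) (@Lb.r r597 (@Lb.r r279 (@Lb.r r612 (@Lb.g g10 (@Lb.g g5 (@Lb.d (nat_lit 20) (nat_lit 1) (nat_lit 10) (@Lb.r r387 (@Lb.fp (nat_lit 3) t693)))))))))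
noncomputable def l3164 : Lb := (@Lb.d (nat_lit 6) (nat_lit 256) (nat_lit 2) (@Lb.g g8 (@Lb.g g9 (@Lb.g g10 (@Lb.g g11 (@Lb.r r683 (@Lb.r r616 (@Lb.r r86 (@Lb.r r2213 (@Lb.r r2068 (@Lb.d (nat_lit 297) (nat_lit 65) (nat_lit 169) (@Lb.fm (nat_lit 9) t284))))))))))))
noncomputable def l3165 : Lb := (@Lb.d (nat_lit 0) (nat_lit 9) (nat_lit 130) (@Lb.g g9 (@Lb.g g10 (@Lb.g g11 (@Lb.r r1671 (@Lb.r r297 (@Lb.r r2376 (@Lb.r r1638 (@Lb.d (nat_lit 409) (nat_lit 90) (nat_lit 613) (@Lb.t (@Lb.fp (nat_lit 9) t1027)))))))))))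
noncomputable def l3166 : Lb := (@Lb.r r81 (@Lb.r r323 (@Lb.d (nat_lit 10) (nat_lit 0) (nat_lit 33) (@Lb.g g8 (@Lb.g g6 (@Lb.r r387 (@Lb.r r149 (@Lb.r r1060 (@Lb.d (nat_lit 553) (nat_lit 137) (nat_lit 33) (@Lb.fp (nat_lit 3) t601))))))))))
noncomputable def l3167 : Lb := (@Lb.r r82 (@Lb.r r275 (@Lb.d (nat_lit 0) (nat_lit 137) (nat_lit 0) (@Lb.g g5 (@Lb.r r291 (@Lb.r r98 (@Lb.r r24 (@Lb.d (nat_lit 546) (nat_lit 133) (nat_lit 32) (@Lb.t (@Lb.fp (nat_lit 3) t1028))))))))))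
noncomputable def l3168 : Lb := (@Lb.d (nat_lit 0) (nat_lit 4) (nat_lit 1) (@Lb.g g9 (@Lb.g g10 (@Lb.r r2583 (@Lb.r r297 (@Lb.r r2376 (@Lb.r r1638 (@Lb.d (nat_lit 658) (nat_lit 24) (nat_lit 613) (@Lb.fp (nat_lit 3) t1029)))))))))
noncomputable def l3169 : Lb := (@Lb.d (nat_lit 262) (nat_lit 402) (nat_lit 256) (@Lb.r r169 (@Lb.r r1642 (@Lb.g g11 (@Lb.g g6 (@Lb.g g5 (@Lb.g g4 (@Lb.d (nat_lit 1) (nat_lit 10) (nat_lit 128) (@Lb.fp (nat_lit 9) t1030)))))))))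
noncomputable def l3170 : Lb := (@Lb.d (nat_lit 0) (nat_lit 521) (nat_lit 1) (@Lb.g g9 (@Lb.g g10 (@Lb.r r2583 (@Lb.r r297 (@Lb.r r1384 (@Lb.r r2630 (@Lb.d (nat_lit 150) (nat_lit 128) (nat_lit 325) (@Lb.fp (nat_lit 3) t1031)))))))))
noncomputable def l3171 : Lb := (@Lb.d (nat_lit 0) (nat_lit 265) (nat_lit 130) (@Lb.g g9 (@Lb.g g10 (@Lb.g g11 (@Lb.r r1671 (@Lb.r r297 (@Lb.r r2376 (@Lb.r r1638 (@Lb.d (nat_lit 408) (nat_lit 90) (nat_lit 613) (@Lb.t (@Lb.fp (nat_lit 9) t1027)))))))))))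
noncomputable def l3172 : Lb := (@Lb.d (nat_lit 0) (nat_lit 521) (nat_lit 2) (@Lb.g g9 (@Lb.g g10 (@Lb.r r2583 (@Lb.r r297 (@Lb.r r2376 (@Lb.r r1638 (@Lb.d (nat_lit 658) (nat_lit 24) (nat_lit 613) (@Lb.fp (nat_lit 3) t1031)))))))))
noncomputable def l3173 : Lb := (@Lb.d (nat_lit 0) (nat_lit 258) (nat_lit 73) (@Lb.g g8 (@Lb.g g9 (@Lb.g g10 (@Lb.g g11 (@Lb.r r2691 (@Lb.r r2209 (@Lb.r r2658 (@Lb.d (nat_lit 0) (nat_lit 160) (nat_lit 598) (@Lb.fp (nat_lit 9) t311))))))))))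
noncomputable def l3174 : Lb := (@Lb.r r283 (@Lb.d (nat_lit 146) (nat_lit 256) (nat_lit 2) (@Lb.g g8 (@Lb.g g9 (@Lb.g g10 (@Lb.r r98 (@Lb.r r1385 (@Lb.r r1559 (@Lb.r r420 (@Lb.d (nat_lit 106) (nat_lit 38) (nat_lit 10) (@Lb.t (@Lb.fm (nat_lit 9) t1032))))))))))))
noncomputable def l3175 : Lb := (@Lb.d (nat_lit 73) (nat_lit 289) (nat_lit 130) (@Lb.g g8 (@Lb.g g9 (@Lb.g g10 (@Lb.g g11 (@Lb.r r1411 (@Lb.r r386 (@Lb.r r1129 (@Lb.r r1384 (@Lb.d (nat_lit 341) (nat_lit 165) (nat_lit 673) (@Lb.fm (nat_lit 9) t31)))))))))))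
noncomputable def l3176 : Lb := (@Lb.d (nat_lit 0) (nat_lit 512) (nat_lit 130) (@Lb.g g10 (@Lb.g g11 (@Lb.r r586 (@Lb.r r584 (@Lb.r r619 (@Lb.r r609 (@Lb.d (nat_lit 2) (nat_lit 65) (nat_lit 85) (@Lb.fp (nat_lit 3) t479)))))))))
noncomputable def l3177 : Lb := (@Lb.r r90 (@Lb.r r283 (@Lb.d (nat_lit 5) (nat_lit 160) (nat_lit 0) (@Lb.g g8 (@Lb.g g9 (@Lb.r r1555 (@Lb.r r70 (@Lb.r r1668 (@Lb.d (nat_lit 32) (nat_lit 2) (nat_lit 38) (@Lb.fp (nat_lit 3) t1033))))))))))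
noncomputable def l3178 : Lb := (@Lb.r r1045 (@Lb.r r1094 (@Lb.r r1287 (@Lb.d (nat_lit 2) (nat_lit 0) (nat_lit 0) (@Lb.g g4 (@Lb.d (nat_lit 1) (nat_lit 0) (nat_lit 0) (@Lb.t (@Lb.fm (nat_lit 3) t367))))))))
noncomputable def l3179 : Lb := (@Lb.d (nat_lit 0) (nat_lit 9) (nat_lit 129) (@Lb.g g8 (@Lb.g g9 (@Lb.g g10 (@Lb.g g11 (@Lb.r r427 (@Lb.r r297 (@Lb.r r104 (@Lb.r r70 (@Lb.r r132 (@Lb.d (nat_lit 2) (nat_lit 137) (nat_lit 393) (@Lb.fp (nat_lit 9) t898))))))))))))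
noncomputable def l3180 : Lb := (@Lb.d (nat_lit 8) (nat_lit 256) (nat_lit 130) (@Lb.g g8 (@Lb.g g10 (@Lb.g g11 (@Lb.r r2443 (@Lb.r r2193 (@Lb.r r2458 (@Lb.r r2436 (@Lb.d (nat_lit 360) (nat_lit 9) (nat_lit 681) (@Lb.t (@Lb.fp (nat_lit 9) t221)))))))))))
noncomputable def l3181 : Lb := (@Lb.d (nat_lit 0) (nat_lit 296) (nat_lit 65) (@Lb.g g8 (@Lb.g g9 (@Lb.g g10 (@Lb.g g11 (@Lb.r r683 (@Lb.r r616 (@Lb.r r86 (@Lb.r r165 (@Lb.r r36 (@Lb.d (nat_lit 36) (nat_lit 8) (nat_lit 2) (@Lb.fm (nat_lit 9) t68))))))))))))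
noncomputable def l3182 : Lb := (@Lb.d (nat_lit 293) (nat_lit 649) (nat_lit 33) (@Lb.r r2216 (@Lb.r r1174 (@Lb.r r1367 (@Lb.g g6 (@Lb.g g5 (@Lb.g g4 (@Lb.d (nat_lit 34) (nat_lit 129) (nat_lit 0) (@Lb.r r267 (@Lb.t (@Lb.fp (nat_lit 9) t68)))))))))))
noncomputable def l3183 : Lb := (@Lb.d (nat_lit 0) (nat_lit 40) (nat_lit 65) (@Lb.g g8 (@Lb.g g9 (@Lb.g g10 (@Lb.g g11 (@Lb.r r683 (@Lb.r r616 (@Lb.r r86 (@Lb.r r165 (@Lb.r r36 (@Lb.d (nat_lit 37) (nat_lit 8) (nat_lit 2) (@Lb.fm (nat_lit 9) t74))))))))))))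
noncomputable def l3184 : Lb := (@Lb.d (nat_lit 2) (nat_lit 33) (nat_lit 130) (@Lb.g g8 (@Lb.g g9 (@Lb.g g10 (@Lb.g g11 (@Lb.r r2723 (@Lb.r r610 (@Lb.r r529 (@Lb.d (nat_lit 2) (nat_lit 34) (nat_lit 658) (@Lb.fm (nat_lit 9) t218))))))))))
noncomputable def l3185 : Lb := (@Lb.d (nat_lit 0) (nat_lit 296) (nat_lit 65) (@Lb.g g9 (@Lb.g g10 (@Lb.g g11 (@Lb.r r683 (@Lb.r r610 (@Lb.r r597 (@Lb.r r8 (@Lb.d (nat_lit 321) (nat_lit 36) (nat_lit 648) (@Lb.t (@Lb.fm (nat_lit 9) t109)))))))))))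
noncomputable def l3186 : Lb := (@Lb.d (nat_lit 2) (nat_lit 289) (nat_lit 130) (@Lb.g g8 (@Lb.g g9 (@Lb.g g10 (@Lb.g g11 (@Lb.r r2723 (@Lb.r r610 (@Lb.r r529 (@Lb.d (nat_lit 1) (nat_lit 34) (nat_lit 658) (@Lb.fm (nat_lit 9) t218))))))))))
noncomputable def l3187 : Lb := (@Lb.r r323 (@Lb.d (nat_lit 130) (nat_lit 546) (nat_lit 0) (@Lb.g g8 (@Lb.g g9 (@Lb.g g10 (@Lb.r r599 (@Lb.r r98 (@Lb.r r408 (@Lb.r r101 (@Lb.d (nat_lit 21) (nat_lit 40) (nat_lit 146) (@Lb.t (@Lb.fp (nat_lit 9) t221))))))))))))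
noncomputable def l3188 : Lb := (@Lb.d (nat_lit 2) (nat_lit 258) (nat_lit 0) (@Lb.g g8 (@Lb.g g9 (@Lb.g g11 (@Lb.r r516 (@Lb.r r2375 (@Lb.r r146 (@Lb.r r97 (@Lb.r r1540 (@Lb.d (nat_lit 0) (nat_lit 160) (nat_lit 642) (@Lb.t (@Lb.fm (nat_lit 9) t295))))))))))))
noncomputable def l3189 : Lb := (@Lb.d (nat_lit 586) (nat_lit 673) (nat_lit 642) (@Lb.r r1560 (@Lb.r r277 (@Lb.r r619 (@Lb.g g6 (@Lb.g g8 (@Lb.d (nat_lit 69) (nat_lit 0) (nat_lit 36) (@Lb.r r387 (@Lb.fp (nat_lit 3) t927)))))))))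
noncomputable def l3190 : Lb := (@Lb.d (nat_lit 33) (nat_lit 512) (nat_lit 4) (@Lb.g g8 (@Lb.g g10 (@Lb.g g11 (@Lb.r r1377 (@Lb.r r667 (@Lb.r r664 (@Lb.r r2202 (@Lb.d (nat_lit 282) (nat_lit 137) (nat_lit 681) (@Lb.t (@Lb.fm (nat_lit 9) t1034)))))))))))
noncomputable def l3191 : Lb := (@Lb.d (nat_lit 32) (nat_lit 512) (nat_lit 4) (@Lb.g g10 (@Lb.g g11 (@Lb.r r1377 (@Lb.r r2711 (@Lb.r r1380 (@Lb.r r2202 (@Lb.d (nat_lit 282) (nat_lit 137) (nat_lit 258) (@Lb.fp (nat_lit 3) t1035)))))))))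
noncomputable def l3192 : Lb := (@Lb.d (nat_lit 136) (nat_lit 258) (nat_lit 128) (@Lb.g g9 (@Lb.g g11 (@Lb.r r260 (@Lb.r r2459 (@Lb.r r354 (@Lb.r r1185 (@Lb.d (nat_lit 353) (nat_lit 161) (nat_lit 324) (@Lb.fp (nat_lit 3) t1036)))))))))
noncomputable def l3193 : Lb := (@Lb.d (nat_lit 0) (nat_lit 4) (nat_lit 64) (@Lb.g g9 (@Lb.g g10 (@Lb.g g7 (@Lb.r r386 (@Lb.r r97 (@Lb.d (nat_lit 5) (nat_lit 0) (nat_lit 10) (@Lb.t (@Lb.fp (nat_lit 9) t1037)))))))))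
noncomputable def l3194 : Lb := (@Lb.d (nat_lit 2) (nat_lit 0) (nat_lit 5) (@Lb.g g8 (@Lb.g g10 (@Lb.g g11 (@Lb.r r353 (@Lb.r r667 (@Lb.r r664 (@Lb.r r154 (@Lb.d (nat_lit 26) (nat_lit 2) (nat_lit 138) (@Lb.t (@Lb.fm (nat_lit 9) t87)))))))))))
noncomputable def l3195 : Lb := (@Lb.r r82 (@Lb.d (nat_lit 9) (nat_lit 137) (nat_lit 128) (@Lb.g g8 (@Lb.g g5 (@Lb.g g11 (@Lb.r r532 (@Lb.r r2311 (@Lb.r r98 (@Lb.r r1540 (@Lb.d (nat_lit 1) (nat_lit 164) (nat_lit 674) (@Lb.t (@Lb.fp (nat_lit 9) t1038))))))))))))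
noncomputable def l3196 : Lb := (@Lb.d (nat_lit 33) (nat_lit 0) (nat_lit 4) (@Lb.g g8 (@Lb.g g10 (@Lb.g g11 (@Lb.r r1377 (@Lb.r r667 (@Lb.r r664 (@Lb.r r2202 (@Lb.d (nat_lit 281) (nat_lit 137) (nat_lit 681) (@Lb.t (@Lb.fm (nat_lit 9) t1034)))))))))))
noncomputable def l3197 : Lb := (@Lb.r r82 (@Lb.r r275 (@Lb.d (nat_lit 4) (nat_lit 273) (nat_lit 0) (@Lb.g g5 (@Lb.r r2651 (@Lb.r r386 (@Lb.r r24 (@Lb.d (nat_lit 34) (nat_lit 6) (nat_lit 18) (@Lb.t (@Lb.fp (nat_lit 3) t742))))))))))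
noncomputable def l3198 : Lb := (@Lb.d (nat_lit 33) (nat_lit 516) (nat_lit 66) (@Lb.g g8 (@Lb.g g9 (@Lb.g g6 (@Lb.g g11 (@Lb.r r612 (@Lb.r r263 (@Lb.r r97 (@Lb.r r516 (@Lb.d (nat_lit 2) (nat_lit 41) (nat_lit 128) (@Lb.fp (nat_lit 9) t546)))))))))))
noncomputable def l3199 : Lb := (@Lb.r r323 (@Lb.g g6 (@Lb.r r1411 (@Lb.r r24 (@Lb.r r2149 (@Lb.r r1426 (@Lb.d (nat_lit 0) (nat_lit 0) (nat_lit 66) (@Lb.t (@Lb.fp (nat_lit 3) t311)))))))))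
noncomputable def l3200 : Lb := (@Lb.r r21 (@Lb.r r70 (@Lb.d (nat_lit 265) (nat_lit 512) (nat_lit 128) (@Lb.g g4 (@Lb.g g11 (@Lb.r r583 (@Lb.r r402 (@Lb.r r25 (@Lb.d (nat_lit 512) (nat_lit 129) (nat_lit 2) (@Lb.fp (nat_lit 3) t375))))))))))
noncomputable def l3201 : Lb := (@Lb.d (nat_lit 33) (nat_lit 260) (nat_lit 130) (@Lb.g g8 (@Lb.g g9 (@Lb.g g6 (@Lb.g g11 (@Lb.r r612 (@Lb.r r263 (@Lb.r r97 (@Lb.r r516 (@Lb.d (nat_lit 2) (nat_lit 41) (nat_lit 128) (@Lb.fp (nat_lit 9) t546)))))))))))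
noncomputable def l3202 : Lb := (@Lb.d (nat_lit 137) (nat_lit 258) (nat_lit 2) (@Lb.g g8 (@Lb.g g9 (@Lb.g g10 (@Lb.r r675 (@Lb.r r170 (@Lb.r r529 (@Lb.r r392 (@Lb.d (nat_lit 152) (nat_lit 33) (nat_lit 74) (@Lb.t (@Lb.fp (nat_lit 9) t51)))))))))))
noncomputable def l3203 : Lb := (@Lb.d (nat_lit 128) (nat_lit 514) (nat_lit 130) (@Lb.g g8 (@Lb.g g9 (@Lb.g g10 (@Lb.g g11 (@Lb.r r419 (@Lb.r r2154 (@Lb.r r100 (@Lb.r r405 (@Lb.r r2084 (@Lb.d (nat_lit 617) (nat_lit 21) (nat_lit 678) (@Lb.fp (nat_lit 9) t1039))))))))))))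
noncomputable def l3204 : Lb := (@Lb.d (nat_lit 0) (nat_lit 0) (nat_lit 136) (@Lb.g g11 (@Lb.r r1617 (@Lb.r r354 (@Lb.r r1427 (@Lb.d (nat_lit 546) (nat_lit 90) (nat_lit 425) (@Lb.t (@Lb.fp (nat_lit 3) t124))))))))
noncomputable def l3205 : Lb := (@Lb.d (nat_lit 6) (nat_lit 513) (nat_lit 0) (@Lb.r r24 (@Lb.r r101 (@Lb.r r402 (@Lb.r r323 (@Lb.g g7 (@Lb.g g6 (@Lb.g g4 (@Lb.d (nat_lit 0) (nat_lit 0) (nat_lit 64) (@Lb.t (@Lb.fm (nat_lit 9) t50)))))))))))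
noncomputable def l3206 : Lb := (@Lb.d (nat_lit 0) (nat_lit 512) (nat_lit 128) (@Lb.g g9 (@Lb.g g10 (@Lb.g g11 (@Lb.r r2471 (@Lb.r r1096 (@Lb.r r2646 (@Lb.r r289 (@Lb.d (nat_lit 533) (nat_lit 8) (nat_lit 16) (@Lb.t (@Lb.fm (nat_lit 9) t1040)))))))))))
noncomputable def l3207 : Lb := (@Lb.d (nat_lit 0) (nat_lit 256) (nat_lit 128) (@Lb.g g9 (@Lb.g g10 (@Lb.g g11 (@Lb.r r2471 (@Lb.r r1096 (@Lb.r r2646 (@Lb.r r289 (@Lb.d (nat_lit 538) (nat_lit 9) (nat_lit 16) (@Lb.t (@Lb.fm (nat_lit 9) t1040)))))))))))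
noncomputable def l3208 : Lb := (@Lb.r r82 (@Lb.d (nat_lit 34) (nat_lit 256) (nat_lit 136) (@Lb.g g8 (@Lb.g g9 (@Lb.g g11 (@Lb.r r617 (@Lb.r r150 (@Lb.r r356 (@Lb.r r395 (@Lb.d (nat_lit 129) (nat_lit 34) (nat_lit 130) (@Lb.t (@Lb.fm (nat_lit 9) t98))))))))))))
noncomputable def l3209 : Lb := (@Lb.d (nat_lit 104) (nat_lit 352) (nat_lit 88) (@Lb.r r614 (@Lb.r r1623 (@Lb.r r280 (@Lb.r r105 (@Lb.g g7 (@Lb.g g6 (@Lb.d (nat_lit 80) (nat_lit 4) (nat_lit 133) (@Lb.fp (nat_lit 3) t1041)))))))))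
noncomputable def l3210 : Lb := (@Lb.d (nat_lit 6) (nat_lit 1) (nat_lit 0) (@Lb.r r24 (@Lb.r r101 (@Lb.r r402 (@Lb.r r323 (@Lb.g g7 (@Lb.g g6 (@Lb.g g4 (@Lb.d (nat_lit 2) (nat_lit 0) (nat_lit 64) (@Lb.t (@Lb.fm (nat_lit 9) t50)))))))))))
noncomputable def l3211 : Lb := (@Lb.d (nat_lit 0) (nat_lit 256) (nat_lit 130) (@Lb.g g9 (@Lb.g g10 (@Lb.g g11 (@Lb.r r419 (@Lb.r r386 (@Lb.r r101 (@Lb.r r24 (@Lb.d (nat_lit 98) (nat_lit 164) (nat_lit 394) (@Lb.t (@Lb.fp (nat_lit 9) t1042)))))))))))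
noncomputable def l3212 : Lb := (@Lb.d (nat_lit 6) (nat_lit 256) (nat_lit 130) (@Lb.g g8 (@Lb.g g9 (@Lb.g g10 (@Lb.g g11 (@Lb.r r582 (@Lb.r r388 (@Lb.r r1323 (@Lb.r r1313 (@Lb.d (nat_lit 9) (nat_lit 68) (nat_lit 257) (@Lb.fm (nat_lit 9) t51)))))))))))
noncomputable def l3213 : Lb := (@Lb.d (nat_lit 68) (nat_lit 65) (nat_lit 645) (@Lb.r r597 (@Lb.r r1642 (@Lb.r r1352 (@Lb.r r2695 (@Lb.g g7 (@Lb.g g6 (@Lb.g g5 (@Lb.d (nat_lit 20) (nat_lit 1) (nat_lit 134) (@Lb.t (@Lb.fp (nat_lit 9) t221)))))))))))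
noncomputable def l3214 : Lb := (@Lb.d (nat_lit 2) (nat_lit 521) (nat_lit 65) (@Lb.g g8 (@Lb.g g9 (@Lb.g g10 (@Lb.g g7 (@Lb.r r386 (@Lb.r r97 (@Lb.r r24 (@Lb.d (nat_lit 10) (nat_lit 9) (nat_lit 88) (@Lb.fp (nat_lit 9) t1043))))))))))
noncomputable def l3215 : Lb := (@Lb.r r21 (@Lb.d (nat_lit 34) (nat_lit 0) (nat_lit 66) (@Lb.g g8 (@Lb.g g10 (@Lb.g g11 (@Lb.r r2651 (@Lb.r r2470 (@Lb.r r596 (@Lb.r r25 (@Lb.d (nat_lit 618) (nat_lit 38) (nat_lit 648) (@Lb.t (@Lb.fm (nat_lit 9) t1044))))))))))))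
noncomputable def l3216 : Lb := (@Lb.r r2436 (@Lb.r r2449 (@Lb.d (nat_lit 0) (nat_lit 528) (nat_lit 264) (@Lb.g g10 (@Lb.g g7 (@Lb.r r418 (@Lb.d (nat_lit 0) (nat_lit 166) (nat_lit 9) (@Lb.fm (nat_lit 3) t1044))))))))
noncomputable def l3217 : Lb := (@Lb.d (nat_lit 2) (nat_lit 545) (nat_lit 41) (@Lb.g g8 (@Lb.g g9 (@Lb.g g6 (@Lb.r r292 (@Lb.r r411 (@Lb.r r2661 (@Lb.d (nat_lit 409) (nat_lit 153) (nat_lit 342) (@Lb.t (@Lb.fm (nat_lit 9) t386))))))))))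
noncomputable def l3218 : Lb := (@Lb.d (nat_lit 2) (nat_lit 33) (nat_lit 130) (@Lb.g g8 (@Lb.g g9 (@Lb.g g10 (@Lb.g g11 (@Lb.r r1366 (@Lb.r r2472 (@Lb.r r1303 (@Lb.r r2661 (@Lb.d (nat_lit 129) (nat_lit 86) (nat_lit 358) (@Lb.fp (nat_lit 9) t1045)))))))))))
noncomputable def l3219 : Lb := (@Lb.d (nat_lit 0) (nat_lit 258) (nat_lit 130) (@Lb.g g9 (@Lb.g g10 (@Lb.g g11 (@Lb.r r586 (@Lb.r r584 (@Lb.r r1323 (@Lb.r r1313 (@Lb.d (nat_lit 9) (nat_lit 66) (nat_lit 256) (@Lb.t (@Lb.fm (nat_lit 9) t51)))))))))))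
noncomputable def l3220 : Lb := (@Lb.d (nat_lit 128) (nat_lit 40) (nat_lit 161) (@Lb.g g6 (@Lb.g g11 (@Lb.r r2345 (@Lb.r r360 (@Lb.r r343 (@Lb.d (nat_lit 581) (nat_lit 24) (nat_lit 148) (@Lb.fp (nat_lit 3) t1046))))))))
noncomputable def l3221 : Lb := (@Lb.d (nat_lit 134) (nat_lit 256) (nat_lit 130) (@Lb.g g8 (@Lb.g g9 (@Lb.g g10 (@Lb.g g11 (@Lb.r r1706 (@Lb.r r1411 (@Lb.r r1177 (@Lb.r r1176 (@Lb.d (nat_lit 537) (nat_lit 85) (nat_lit 665) (@Lb.fp (nat_lit 9) t1047)))))))))))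
noncomputable def l3222 : Lb := (@Lb.d (nat_lit 517) (nat_lit 2) (nat_lit 0) (@Lb.r r1096 (@Lb.r r1414 (@Lb.r r1619 (@Lb.g g5 (@Lb.d (nat_lit 0) (nat_lit 17) (nat_lit 0) (@Lb.t (@Lb.fp (nat_lit 3) t1048))))))))
noncomputable def l3223 : Lb := (@Lb.r r323 (@Lb.d (nat_lit 38) (nat_lit 512) (nat_lit 2) (@Lb.g g8 (@Lb.g g9 (@Lb.g g10 (@Lb.r r1689 (@Lb.r r1563 (@Lb.r r1540 (@Lb.d (nat_lit 417) (nat_lit 0) (nat_lit 616) (@Lb.t (@Lb.fp (nat_lit 9) t321)))))))))))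
noncomputable def l3224 : Lb := (@Lb.d (nat_lit 529) (nat_lit 649) (nat_lit 18) (@Lb.r r2138 (@Lb.r r2331 (@Lb.g g5 (@Lb.d (nat_lit 8) (nat_lit 9) (nat_lit 0) (@Lb.t (@Lb.fm (nat_lit 3) t25)))))))
noncomputable def l3225 : Lb := (@Lb.d (nat_lit 136) (nat_lit 258) (nat_lit 128) (@Lb.g g9 (@Lb.g g11 (@Lb.r r24 (@Lb.r r1365 (@Lb.r r2723 (@Lb.r r2178 (@Lb.d (nat_lit 1) (nat_lit 152) (nat_lit 601) (@Lb.fp (nat_lit 3) t322)))))))))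
noncomputable def l3226 : Lb := (@Lb.d (nat_lit 4) (nat_lit 520) (nat_lit 2) (@Lb.g g9 (@Lb.d (nat_lit 8) (nat_lit 2) (nat_lit 0) (@Lb.t (@Lb.fp (nat_lit 3) t39)))))
noncomputable def l3227 : Lb := (@Lb.d (nat_lit 256) (nat_lit 649) (nat_lit 33) (@Lb.r r2138 (@Lb.r r2331 (@Lb.g g5 (@Lb.d (nat_lit 8) (nat_lit 9) (nat_lit 0) (@Lb.t (@Lb.fm (nat_lit 3) t1049)))))))
noncomputable def l3228 : Lb := (@Lb.d (nat_lit 518) (nat_lit 514) (nat_lit 0) (@Lb.r r1096 (@Lb.r r1414 (@Lb.r r1619 (@Lb.g g5 (@Lb.d (nat_lit 0) (nat_lit 17) (nat_lit 0) (@Lb.t (@Lb.fp (nat_lit 3) t1048))))))))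
noncomputable def l3229 : Lb := (@Lb.r r82 (@Lb.r r275 (@Lb.d (nat_lit 2) (nat_lit 1) (nat_lit 0) (@Lb.g g8 (@Lb.g g5 (@Lb.r r291 (@Lb.r r98 (@Lb.r r24 (@Lb.d (nat_lit 10) (nat_lit 9) (nat_lit 2) (@Lb.fm (nat_lit 3) t151))))))))))
noncomputable def l3230 : Lb := (@Lb.d (nat_lit 5) (nat_lit 513) (nat_lit 0) (@Lb.g g5 (@Lb.t (@Lb.fm (nat_lit 3) t2))))
noncomputable def l3231 : Lb := (@Lb.r r273 (@Lb.r r322 (@Lb.d (nat_lit 2) (nat_lit 544) (nat_lit 0) (@Lb.g g8 (@Lb.g g11 (@Lb.r r1684 (@Lb.r r1174 (@Lb.r r2145 (@Lb.d (nat_lit 610) (nat_lit 165) (nat_lit 384) (@Lb.fm (nat_lit 3) t1050))))))))))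
noncomputable def l3232 : Lb := (@Lb.d (nat_lit 136) (nat_lit 2) (nat_lit 128) (@Lb.g g9 (@Lb.g g11 (@Lb.r r24 (@Lb.r r1365 (@Lb.r r2723 (@Lb.r r2178 (@Lb.d (nat_lit 2) (nat_lit 152) (nat_lit 601) (@Lb.fp (nat_lit 3) t322)))))))))
noncomputable def l3233 : Lb := (@Lb.r r21 (@Lb.d (nat_lit 10) (nat_lit 520) (nat_lit 130) (@Lb.g g8 (@Lb.g g10 (@Lb.g g11 (@Lb.r r427 (@Lb.r r533 (@Lb.r r360 (@Lb.r r582 (@Lb.d (nat_lit 153) (nat_lit 154) (nat_lit 2) (@Lb.t (@Lb.fp (nat_lit 9) t119))))))))))))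
noncomputable def l3234 : Lb := (@Lb.d (nat_lit 146) (nat_lit 258) (nat_lit 128) (@Lb.g g8 (@Lb.g g9 (@Lb.g g10 (@Lb.g g11 (@Lb.r r1706 (@Lb.r r1411 (@Lb.r r2201 (@Lb.r r2180 (@Lb.d (nat_lit 554) (nat_lit 153) (nat_lit 169) (@Lb.fm (nat_lit 9) t1051)))))))))))
noncomputable def l3235 : Lb := (@Lb.d (nat_lit 145) (nat_lit 514) (nat_lit 74) (@Lb.g g8 (@Lb.g g9 (@Lb.g g10 (@Lb.g g11 (@Lb.r r683 (@Lb.r r2410 (@Lb.r r1561 (@Lb.r r1540 (@Lb.d (nat_lit 394) (nat_lit 153) (nat_lit 5) (@Lb.fm (nat_lit 9) t1051)))))))))))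
noncomputable def l3236 : Lb := (@Lb.d (nat_lit 42) (nat_lit 261) (nat_lit 128) (@Lb.g g8 (@Lb.g g9 (@Lb.g g10 (@Lb.g g11 (@Lb.r r1443 (@Lb.r r2089 (@Lb.r r1608 (@Lb.r r2662 (@Lb.d (nat_lit 661) (nat_lit 69) (nat_lit 168) (@Lb.fp (nat_lit 9) t1052)))))))))))
noncomputable def l3237 : Lb := (@Lb.d (nat_lit 5) (nat_lit 256) (nat_lit 130) (@Lb.g g8 (@Lb.g g9 (@Lb.g g10 (@Lb.g g11 (@Lb.r r1443 (@Lb.r r2089 (@Lb.r r1608 (@Lb.r r1126 (@Lb.d (nat_lit 277) (nat_lit 21) (nat_lit 424) (@Lb.fp (nat_lit 9) t776)))))))))))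
noncomputable def l3238 : Lb := (@Lb.d (nat_lit 145) (nat_lit 258) (nat_lit 128) (@Lb.g g8 (@Lb.g g9 (@Lb.g g10 (@Lb.g g11 (@Lb.r r683 (@Lb.r r2410 (@Lb.r r1561 (@Lb.r r1540 (@Lb.d (nat_lit 394) (nat_lit 153) (nat_lit 5) (@Lb.fm (nat_lit 9) t1051)))))))))))
noncomputable def l3239 : Lb := (@Lb.d (nat_lit 2) (nat_lit 514) (nat_lit 128) (@Lb.g g8 (@Lb.g g9 (@Lb.g g10 (@Lb.g g11 (@Lb.r r2347 (@Lb.r r617 (@Lb.r r662 (@Lb.r r2120 (@Lb.d (nat_lit 98) (nat_lit 5) (nat_lit 101) (@Lb.fm (nat_lit 9) t1053)))))))))))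
noncomputable def l3240 : Lb := (@Lb.d (nat_lit 0) (nat_lit 256) (nat_lit 130) (@Lb.g g9 (@Lb.g g10 (@Lb.g g11 (@Lb.r r1703 (@Lb.r r362 (@Lb.r r20 (@Lb.r r1321 (@Lb.d (nat_lit 88) (nat_lit 16) (nat_lit 600) (@Lb.t (@Lb.fm (nat_lit 9) t1054)))))))))))
noncomputable def l3241 : Lb := (@Lb.r r82 (@Lb.r r275 (@Lb.d (nat_lit 0) (nat_lit 649) (nat_lit 0) (@Lb.g g5 (@Lb.r r291 (@Lb.r r98 (@Lb.d (nat_lit 5) (nat_lit 70) (nat_lit 0) (@Lb.t (@Lb.fm (nat_lit 3) t1055)))))))))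
noncomputable def l3242 : Lb := (@Lb.d (nat_lit 646) (nat_lit 272) (nat_lit 322) (@Lb.r r1556 (@Lb.r r281 (@Lb.r r615 (@Lb.g g6 (@Lb.g g4 (@Lb.d (nat_lit 69) (nat_lit 4) (nat_lit 37) (@Lb.r r387 (@Lb.fp (nat_lit 3) t568)))))))))
noncomputable def l3243 : Lb := (@Lb.d (nat_lit 36) (nat_lit 260) (nat_lit 128) (@Lb.g g8 (@Lb.g g9 (@Lb.g g10 (@Lb.g g11 (@Lb.r r1443 (@Lb.r r297 (@Lb.r r2120 (@Lb.r r2662 (@Lb.d (nat_lit 661) (nat_lit 37) (nat_lit 64) (@Lb.fp (nat_lit 9) t953)))))))))))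
noncomputable def l3244 : Lb := (@Lb.r r21 (@Lb.r r323 (@Lb.d (nat_lit 33) (nat_lit 256) (nat_lit 2) (@Lb.g g8 (@Lb.g g10 (@Lb.r r2634 (@Lb.r r2375 (@Lb.r r1576 (@Lb.r r25 (@Lb.d (nat_lit 10) (nat_lit 34) (nat_lit 256) (@Lb.fp (nat_lit 3) t394)))))))))))
noncomputable def l3245 : Lb := (@Lb.r r21 (@Lb.r r323 (@Lb.d (nat_lit 2) (nat_lit 0) (nat_lit 0) (@Lb.g g8 (@Lb.g g10 (@Lb.r r2634 (@Lb.r r2391 (@Lb.r r1577 (@Lb.r r1556 (@Lb.d (nat_lit 390) (nat_lit 17) (nat_lit 64) (@Lb.fp (nat_lit 3) t1056)))))))))))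
noncomputable def l3246 : Lb := (@Lb.d (nat_lit 646) (nat_lit 16) (nat_lit 265) (@Lb.r r1556 (@Lb.r r281 (@Lb.r r615 (@Lb.g g6 (@Lb.g g4 (@Lb.d (nat_lit 68) (nat_lit 4) (nat_lit 37) (@Lb.r r387 (@Lb.fp (nat_lit 3) t568)))))))))
noncomputable def l3247 : Lb := (@Lb.d (nat_lit 32) (nat_lit 0) (nat_lit 130) (@Lb.g g10 (@Lb.g g11 (@Lb.r r423 (@Lb.r r600 (@Lb.r r1429 (@Lb.r r406 (@Lb.d (nat_lit 106) (nat_lit 90) (nat_lit 537) (@Lb.fm (nat_lit 3) t1057)))))))))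
noncomputable def l3248 : Lb := (@Lb.d (nat_lit 0) (nat_lit 648) (nat_lit 33) (@Lb.r r1186 (@Lb.r r2209 (@Lb.r r2451 (@Lb.g g10 (@Lb.t (@Lb.fp (nat_lit 3) t1058)))))))
noncomputable def l3249 : Lb := (@Lb.d (nat_lit 0) (nat_lit 0) (nat_lit 2) (@Lb.g g9 (@Lb.g g10 (@Lb.r r1411 (@Lb.r r98 (@Lb.d (nat_lit 0) (nat_lit 138) (nat_lit 2) (@Lb.fm (nat_lit 3) t334)))))))
noncomputable def l3250 : Lb := (@Lb.d (nat_lit 261) (nat_lit 641) (nat_lit 69) (@Lb.r r260 (@Lb.r r277 (@Lb.r r619 (@Lb.r r552 (@Lb.g g7 (@Lb.g g10 (@Lb.g g5 (@Lb.g g4 (@Lb.d (nat_lit 1) (nat_lit 1) (nat_lit 98) (@Lb.fm (nat_lit 9) t1059)))))))))))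
noncomputable def l3251 : Lb := (@Lb.d (nat_lit 100) (nat_lit 545) (nat_lit 130) (@Lb.g g8 (@Lb.g g9 (@Lb.g g10 (@Lb.g g11 (@Lb.r r675 (@Lb.r r2406 (@Lb.r r1553 (@Lb.r r2312 (@Lb.d (nat_lit 533) (nat_lit 105) (nat_lit 145) (@Lb.fp (nat_lit 9) t328)))))))))))
noncomputable def l3252 : Lb := (@Lb.d (nat_lit 32) (nat_lit 8) (nat_lit 130) (@Lb.g g10 (@Lb.g g11 (@Lb.r r324 (@Lb.r r651 (@Lb.r r357 (@Lb.r r666 (@Lb.d (nat_lit 74) (nat_lit 42) (nat_lit 68) (@Lb.fp (nat_lit 3) t167)))))))))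
noncomputable def l3253 : Lb := (@Lb.r r359 (@Lb.d (nat_lit 2) (nat_lit 8) (nat_lit 2) (@Lb.g g8 (@Lb.g g9 (@Lb.g g10 (@Lb.r r683 (@Lb.r r2216 (@Lb.r r2154 (@Lb.r r89 (@Lb.d (nat_lit 26) (nat_lit 69) (nat_lit 101) (@Lb.t (@Lb.fm (nat_lit 9) t326))))))))))))
noncomputable def l3254 : Lb := (@Lb.d (nat_lit 18) (nat_lit 265) (nat_lit 137) (@Lb.g g8 (@Lb.g g9 (@Lb.g g10 (@Lb.g g11 (@Lb.r r356 (@Lb.r r602 (@Lb.r r681 (@Lb.r r555 (@Lb.r r548 (@Lb.d (nat_lit 5) (nat_lit 34) (nat_lit 73) (@Lb.fp (nat_lit 9) t524))))))))))))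
noncomputable def l3255 : Lb := (@Lb.d (nat_lit 2) (nat_lit 9) (nat_lit 130) (@Lb.g g8 (@Lb.g g9 (@Lb.g g10 (@Lb.g g11 (@Lb.r r548 (@Lb.r r295 (@Lb.r r2186 (@Lb.r r405 (@Lb.r r2084 (@Lb.d (nat_lit 585) (nat_lit 10) (nat_lit 642) (@Lb.fm (nat_lit 9) t1060))))))))))))
noncomputable def l3256 : Lb := (@Lb.d (nat_lit 10) (nat_lit 264) (nat_lit 130) (@Lb.g g8 (@Lb.g g10 (@Lb.g g11 (@Lb.r r545 (@Lb.r r555 (@Lb.r r612 (@Lb.r r154 (@Lb.d (nat_lit 10) (nat_lit 10) (nat_lit 6) (@Lb.t (@Lb.fp (nat_lit 9) t167)))))))))))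
noncomputable def l3257 : Lb := (@Lb.d (nat_lit 146) (nat_lit 2) (nat_lit 128) (@Lb.g g8 (@Lb.g g9 (@Lb.g g10 (@Lb.g g11 (@Lb.r r2459 (@Lb.r r1177 (@Lb.r r1626 (@Lb.r r72 (@Lb.d (nat_lit 34) (nat_lit 40) (nat_lit 360) (@Lb.fm (nat_lit 9) t212)))))))))))
noncomputable def l3258 : Lb := (@Lb.r r82 (@Lb.r r275 (@Lb.d (nat_lit 4) (nat_lit 258) (nat_lit 0) (@Lb.g g5 (@Lb.r r2651 (@Lb.r r386 (@Lb.r r24 (@Lb.d (nat_lit 257) (nat_lit 1) (nat_lit 2) (@Lb.t (@Lb.fp (nat_lit 3) t1061))))))))))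
noncomputable def l3259 : Lb := (@Lb.d (nat_lit 645) (nat_lit 522) (nat_lit 129) (@Lb.g g4 (@Lb.g g9 (@Lb.g g10 (@Lb.g g11 (@Lb.r r2726 (@Lb.r r1411 (@Lb.r r1553 (@Lb.d (nat_lit 580) (nat_lit 96) (nat_lit 362) (@Lb.fp (nat_lit 9) t1062))))))))))
noncomputable def l3260 : Lb := (@Lb.d (nat_lit 128) (nat_lit 0) (nat_lit 644) (@Lb.g g9 (@Lb.g g11 (@Lb.r r2178 (@Lb.r r1557 (@Lb.r r1416 (@Lb.d (nat_lit 538) (nat_lit 2) (nat_lit 128) (@Lb.fm (nat_lit 3) t1063))))))))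
noncomputable def l3261 : Lb := (@Lb.d (nat_lit 0) (nat_lit 256) (nat_lit 136) (@Lb.g g11 (@Lb.r r1617 (@Lb.r r354 (@Lb.r r1427 (@Lb.r r1124 (@Lb.d (nat_lit 0) (nat_lit 81) (nat_lit 426) (@Lb.t (@Lb.fp (nat_lit 3) t772)))))))))
noncomputable def l3262 : Lb := (@Lb.d (nat_lit 129) (nat_lit 16) (nat_lit 2) (@Lb.g g8 (@Lb.g g9 (@Lb.g g10 (@Lb.g g11 (@Lb.r r683 (@Lb.r r665 (@Lb.r r146 (@Lb.r r516 (@Lb.d (nat_lit 161) (nat_lit 9) (nat_lit 129) (@Lb.fp (nat_lit 9) t31)))))))))))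
noncomputable def l3263 : Lb := (@Lb.d (nat_lit 129) (nat_lit 272) (nat_lit 2) (@Lb.g g8 (@Lb.g g9 (@Lb.g g10 (@Lb.g g11 (@Lb.r r683 (@Lb.r r665 (@Lb.r r146 (@Lb.r r516 (@Lb.d (nat_lit 161) (nat_lit 4) (nat_lit 128) (@Lb.fp (nat_lit 9) t31)))))))))))
noncomputable def l3264 : Lb := (@Lb.d (nat_lit 33) (nat_lit 516) (nat_lit 130) (@Lb.g g8 (@Lb.g g9 (@Lb.g g6 (@Lb.g g11 (@Lb.r r612 (@Lb.r r263 (@Lb.r r97 (@Lb.r r516 (@Lb.d (nat_lit 1) (nat_lit 41) (nat_lit 128) (@Lb.fp (nat_lit 9) t546)))))))))))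
noncomputable def l3265 : Lb := (@Lb.d (nat_lit 130) (nat_lit 514) (nat_lit 130) (@Lb.g g8 (@Lb.g g9 (@Lb.g g10 (@Lb.g g11 (@Lb.r r2666 (@Lb.r r612 (@Lb.r r1639 (@Lb.r r533 (@Lb.r r2084 (@Lb.d (nat_lit 649) (nat_lit 137) (nat_lit 82) (@Lb.fm (nat_lit 9) t1064))))))))))))
noncomputable def l3266 : Lb := (@Lb.r r82 (@Lb.r r275 (@Lb.d (nat_lit 9) (nat_lit 641) (nat_lit 0) (@Lb.g g8 (@Lb.g g5 (@Lb.r r2651 (@Lb.r r386 (@Lb.r r24 (@Lb.d (nat_lit 266) (nat_lit 0) (nat_lit 2) (@Lb.fm (nat_lit 3) t538))))))))))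
noncomputable def l3267 : Lb := (@Lb.d (nat_lit 130) (nat_lit 529) (nat_lit 64) (@Lb.r r101 (@Lb.r r402 (@Lb.g g11 (@Lb.g g6 (@Lb.d (nat_lit 0) (nat_lit 0) (nat_lit 5) (@Lb.fp (nat_lit 3) t546)))))))
noncomputable def l3268 : Lb := (@Lb.d (nat_lit 129) (nat_lit 538) (nat_lit 1) (@Lb.g g8 (@Lb.g g9 (@Lb.g g10 (@Lb.g g11 (@Lb.r r683 (@Lb.r r665 (@Lb.r r146 (@Lb.r r516 (@Lb.d (nat_lit 161) (nat_lit 4) (nat_lit 128) (@Lb.fp (nat_lit 9) t841)))))))))))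
noncomputable def l3269 : Lb := (@Lb.r r82 (@Lb.d (nat_lit 129) (nat_lit 272) (nat_lit 0) (@Lb.g g8 (@Lb.g g9 (@Lb.g g11 (@Lb.r r1643 (@Lb.r r1625 (@Lb.r r98 (@Lb.r r1636 (@Lb.d (nat_lit 405) (nat_lit 88) (nat_lit 682) (@Lb.t (@Lb.fp (nat_lit 9) t1065))))))))))))
noncomputable def l3270 : Lb := (@Lb.d (nat_lit 146) (nat_lit 137) (nat_lit 336) (@Lb.r r2469 (@Lb.r r1368 (@Lb.r r2471 (@Lb.r r2474 (@Lb.g g7 (@Lb.g g5 (@Lb.g g4 (@Lb.d (nat_lit 17) (nat_lit 5) (nat_lit 128) (@Lb.t (@Lb.fm (nat_lit 9) t591)))))))))))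
noncomputable def l3271 : Lb := (@Lb.r r21 (@Lb.d (nat_lit 16) (nat_lit 0) (nat_lit 74) (@Lb.g g8 (@Lb.g g10 (@Lb.g g11 (@Lb.r r603 (@Lb.r r2401 (@Lb.r r1170 (@Lb.r r1128 (@Lb.d (nat_lit 264) (nat_lit 4) (nat_lit 33) (@Lb.t (@Lb.fm (nat_lit 9) t1066))))))))))))
noncomputable def l3272 : Lb := (@Lb.d (nat_lit 641) (nat_lit 514) (nat_lit 66) (@Lb.g g8 (@Lb.g g9 (@Lb.g g10 (@Lb.g g11 (@Lb.r r1451 (@Lb.r r106 (@Lb.r r25 (@Lb.d (nat_lit 9) (nat_lit 2) (nat_lit 426) (@Lb.fp (nat_lit 9) t394))))))))))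
noncomputable def l3273 : Lb := (@Lb.d (nat_lit 9) (nat_lit 258) (nat_lit 73) (@Lb.g g8 (@Lb.g g9 (@Lb.g g10 (@Lb.g g11 (@Lb.r r273 (@Lb.r r1707 (@Lb.r r1610 (@Lb.r r2600 (@Lb.r r153 (@Lb.d (nat_lit 10) (nat_lit 88) (nat_lit 297) (@Lb.fp (nat_lit 9) t591))))))))))))
noncomputable def l3274 : Lb := (@Lb.d (nat_lit 0) (nat_lit 516) (nat_lit 1) (@Lb.g g6 (@Lb.d (nat_lit 1) (nat_lit 8) (nat_lit 2) (@Lb.t (@Lb.fm (nat_lit 3) t44)))))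
noncomputable def l3275 : Lb := (@Lb.d (nat_lit 0) (nat_lit 518) (nat_lit 128) (@Lb.g g8 (@Lb.g g9 (@Lb.g g10 (@Lb.g g11 (@Lb.r r1451 (@Lb.r r388 (@Lb.r r70 (@Lb.r r1177 (@Lb.r r132 (@Lb.d (nat_lit 522) (nat_lit 2) (nat_lit 137) (@Lb.fp (nat_lit 9) t1067))))))))))))
noncomputable def l3276 : Lb := (@Lb.d (nat_lit 0) (nat_lit 4) (nat_lit 128) (@Lb.g g8 (@Lb.g g9 (@Lb.g g10 (@Lb.g g11 (@Lb.r r427 (@Lb.r r388 (@Lb.r r70 (@Lb.r r153 (@Lb.r r132 (@Lb.d (nat_lit 10) (nat_lit 130) (nat_lit 137) (@Lb.fp (nat_lit 9) t1067))))))))))))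
noncomputable def l3277 : Lb := (@Lb.d (nat_lit 1) (nat_lit 514) (nat_lit 128) (@Lb.g g8 (@Lb.g g9 (@Lb.g g10 (@Lb.g g11 (@Lb.r r1443 (@Lb.r r1414 (@Lb.r r100 (@Lb.r r21 (@Lb.r r36 (@Lb.d (nat_lit 521) (nat_lit 137) (nat_lit 2) (@Lb.fm (nat_lit 9) t825))))))))))))
noncomputable def l3278 : Lb := (@Lb.g g10 (@Lb.r r2451 (@Lb.d (nat_lit 0) (nat_lit 640) (nat_lit 16) (@Lb.t (@Lb.fp (nat_lit 3) t1068)))))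
noncomputable def l3279 : Lb := (@Lb.d (nat_lit 0) (nat_lit 517) (nat_lit 1) (@Lb.g g6 (@Lb.t (@Lb.fm (nat_lit 3) t44))))
noncomputable def l3280 : Lb := (@Lb.d (nat_lit 32) (nat_lit 256) (nat_lit 66) (@Lb.g g9 (@Lb.g g10 (@Lb.g g11 (@Lb.r r1685 (@Lb.r r100 (@Lb.r r602 (@Lb.d (nat_lit 292) (nat_lit 134) (nat_lit 64) (@Lb.t (@Lb.fm (nat_lit 9) t907))))))))))
noncomputable def l3281 : Lb := (@Lb.d (nat_lit 0) (nat_lit 272) (nat_lit 128) (@Lb.g g9 (@Lb.g g10 (@Lb.g g11 (@Lb.r r2339 (@Lb.r r1317 (@Lb.r r2136 (@Lb.r r1158 (@Lb.d (nat_lit 0) (nat_lit 5) (nat_lit 672) (@Lb.t (@Lb.fp (nat_lit 9) t635)))))))))))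
noncomputable def l3282 : Lb := (@Lb.d (nat_lit 1) (nat_lit 4) (nat_lit 1) (@Lb.g g8 (@Lb.g g6 (@Lb.d (nat_lit 2) (nat_lit 8) (nat_lit 2) (@Lb.fp (nat_lit 3) t44)))))
noncomputable def l3283 : Lb := (@Lb.d (nat_lit 2) (nat_lit 256) (nat_lit 128) (@Lb.g g8 (@Lb.g g10 (@Lb.g g11 (@Lb.r r1287 (@Lb.r r1381 (@Lb.r r2714 (@Lb.r r2564 (@Lb.d (nat_lit 401) (nat_lit 0) (nat_lit 385) (@Lb.t (@Lb.fm (nat_lit 9) t1069)))))))))))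
noncomputable def l3284 : Lb := (@Lb.d (nat_lit 2) (nat_lit 294) (nat_lit 128) (@Lb.g g8 (@Lb.g g9 (@Lb.g g10 (@Lb.g g11 (@Lb.r r2454 (@Lb.r r2391 (@Lb.r r1433 (@Lb.r r24 (@Lb.d (nat_lit 682) (nat_lit 161) (nat_lit 618) (@Lb.fp (nat_lit 9) t1070)))))))))))
noncomputable def l3285 : Lb := (@Lb.d (nat_lit 134) (nat_lit 0) (nat_lit 130) (@Lb.g g8 (@Lb.g g9 (@Lb.g g10 (@Lb.g g11 (@Lb.r r1706 (@Lb.r r1411 (@Lb.r r548 (@Lb.r r2581 (@Lb.r r36 (@Lb.d (nat_lit 644) (nat_lit 24) (nat_lit 330) (@Lb.fm (nat_lit 9) t1071))))))))))))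
noncomputable def l3286 : Lb := (@Lb.r r275 (@Lb.d (nat_lit 8) (nat_lit 512) (nat_lit 2) (@Lb.g g9 (@Lb.g g10 (@Lb.r r2392 (@Lb.r r1543 (@Lb.r r386 (@Lb.r r1105 (@Lb.d (nat_lit 1) (nat_lit 70) (nat_lit 84) (@Lb.fp (nat_lit 3) t732))))))))))
noncomputable def l3287 : Lb := (@Lb.d (nat_lit 168) (nat_lit 256) (nat_lit 130) (@Lb.g g9 (@Lb.g g10 (@Lb.g g11 (@Lb.r r72 (@Lb.r r86 (@Lb.r r421 (@Lb.r r411 (@Lb.d (nat_lit 2) (nat_lit 90) (nat_lit 8) (@Lb.t (@Lb.fm (nat_lit 9) t2)))))))))))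
noncomputable def l3288 : Lb := (@Lb.d (nat_lit 0) (nat_lit 8) (nat_lit 130) (@Lb.g g10 (@Lb.g g11 (@Lb.r r353 (@Lb.r r663 (@Lb.r r328 (@Lb.r r134 (@Lb.d (nat_lit 34) (nat_lit 66) (nat_lit 1) (@Lb.fm (nat_lit 3) t2)))))))))
noncomputable def l3289 : Lb := (@Lb.d (nat_lit 2) (nat_lit 514) (nat_lit 66) (@Lb.g g8 (@Lb.g g9 (@Lb.g g10 (@Lb.g g11 (@Lb.r r593 (@Lb.r r426 (@Lb.r r424 (@Lb.r r279 (@Lb.r r1561 (@Lb.d (nat_lit 262) (nat_lit 130) (nat_lit 74) (@Lb.fp (nat_lit 9) t2))))))))))))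
noncomputable def l3290 : Lb := (@Lb.d (nat_lit 1) (nat_lit 578) (nat_lit 130) (@Lb.g g4 (@Lb.g g9 (@Lb.g g10 (@Lb.g g11 (@Lb.r r419 (@Lb.r r98 (@Lb.d (nat_lit 0) (nat_lit 168) (nat_lit 386) (@Lb.fm (nat_lit 9) t51)))))))))
noncomputable def l3291 : Lb := (@Lb.d (nat_lit 0) (nat_lit 322) (nat_lit 130) (@Lb.g g4 (@Lb.g g9 (@Lb.g g10 (@Lb.g g11 (@Lb.r r419 (@Lb.r r98 (@Lb.d (nat_lit 0) (nat_lit 9) (nat_lit 137) (@Lb.fm (nat_lit 9) t51)))))))))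
noncomputable def l3292 : Lb := (@Lb.r r70 (@Lb.d (nat_lit 9) (nat_lit 257) (nat_lit 128) (@Lb.g g8 (@Lb.g g9 (@Lb.g g11 (@Lb.r r1707 (@Lb.r r618 (@Lb.r r1129 (@Lb.r r1124 (@Lb.d (nat_lit 281) (nat_lit 144) (nat_lit 297) (@Lb.t (@Lb.fm (nat_lit 9) t412))))))))))))
noncomputable def l3293 : Lb := (@Lb.d (nat_lit 70) (nat_lit 21) (nat_lit 69) (@Lb.g g8 (@Lb.g g9 (@Lb.g g10 (@Lb.g g11 (@Lb.r r1451 (@Lb.r r618 (@Lb.r r537 (@Lb.r r1284 (@Lb.d (nat_lit 521) (nat_lit 153) (nat_lit 101) (@Lb.fp (nat_lit 9) t1072)))))))))))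
noncomputable def l3294 : Lb := (@Lb.d (nat_lit 1) (nat_lit 416) (nat_lit 602) (@Lb.r r21 (@Lb.r r2371 (@Lb.r r662 (@Lb.g g7 (@Lb.g g5 (@Lb.g g4 (@Lb.d (nat_lit 578) (nat_lit 1) (nat_lit 128) (@Lb.r r74 (@Lb.t (@Lb.fm (nat_lit 9) t1073)))))))))))
noncomputable def l3295 : Lb := (@Lb.d (nat_lit 9) (nat_lit 260) (nat_lit 64) (@Lb.g g8 (@Lb.g g9 (@Lb.g g10 (@Lb.g g7 (@Lb.r r2390 (@Lb.r r85 (@Lb.r r24 (@Lb.d (nat_lit 401) (nat_lit 9) (nat_lit 281) (@Lb.fp (nat_lit 9) t1073))))))))))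
noncomputable def l3296 : Lb := (@Lb.d (nat_lit 4) (nat_lit 545) (nat_lit 133) (@Lb.r r609 (@Lb.r r619 (@Lb.r r616 (@Lb.r r150 (@Lb.g g7 (@Lb.g g4 (@Lb.d (nat_lit 2) (nat_lit 0) (nat_lit 64) (@Lb.fm (nat_lit 3) t167)))))))))
noncomputable def l3297 : Lb := (@Lb.d (nat_lit 521) (nat_lit 512) (nat_lit 0) (@Lb.r r21 (@Lb.r r70 (@Lb.r r263 (@Lb.g g8 (@Lb.d (nat_lit 262) (nat_lit 0) (nat_lit 0) (@Lb.r r267 (@Lb.r r74 (@Lb.r r25 (@Lb.t (@Lb.fp (nat_lit 3) t755)))))))))))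
noncomputable def l3298 : Lb := (@Lb.d (nat_lit 129) (nat_lit 260) (nat_lit 5) (@Lb.g g8 (@Lb.g g9 (@Lb.g g10 (@Lb.g g11 (@Lb.r r683 (@Lb.r r618 (@Lb.r r537 (@Lb.r r516 (@Lb.d (nat_lit 137) (nat_lit 9) (nat_lit 129) (@Lb.fm (nat_lit 9) t841)))))))))))
noncomputable def l3299 : Lb := (@Lb.r r21 (@Lb.d (nat_lit 146) (nat_lit 0) (nat_lit 5) (@Lb.g g8 (@Lb.g g10 (@Lb.g g11 (@Lb.r r651 (@Lb.r r586 (@Lb.r r537 (@Lb.r r516 (@Lb.d (nat_lit 161) (nat_lit 0) (nat_lit 129) (@Lb.t (@Lb.fp (nat_lit 9) t1074))))))))))))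
noncomputable def l3300 : Lb := (@Lb.d (nat_lit 2) (nat_lit 294) (nat_lit 5) (@Lb.g g8 (@Lb.g g9 (@Lb.g g10 (@Lb.g g11 (@Lb.r r683 (@Lb.r r1642 (@Lb.r r1561 (@Lb.d (nat_lit 585) (nat_lit 105) (nat_lit 401) (@Lb.fm (nat_lit 9) t941))))))))))
noncomputable def l3301 : Lb := (@Lb.r r323 (@Lb.d (nat_lit 0) (nat_lit 546) (nat_lit 2) (@Lb.g g8 (@Lb.g g9 (@Lb.g g10 (@Lb.r r599 (@Lb.r r392 (@Lb.r r74 (@Lb.d (nat_lit 17) (nat_lit 4) (nat_lit 18) (@Lb.t (@Lb.fm (nat_lit 9) t221)))))))))))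
noncomputable def l3302 : Lb := (@Lb.r r21 (@Lb.d (nat_lit 16) (nat_lit 256) (nat_lit 64) (@Lb.g g8 (@Lb.g g10 (@Lb.g g7 (@Lb.r r402 (@Lb.r r97 (@Lb.r r24 (@Lb.d (nat_lit 546) (nat_lit 36) (nat_lit 16) (@Lb.t (@Lb.fm (nat_lit 9) t963)))))))))))
noncomputable def l3303 : Lb := (@Lb.d (nat_lit 2) (nat_lit 260) (nat_lit 64) (@Lb.g g8 (@Lb.g g9 (@Lb.g g10 (@Lb.g g7 (@Lb.r r386 (@Lb.r r97 (@Lb.r r24 (@Lb.d (nat_lit 10) (nat_lit 9) (nat_lit 9) (@Lb.fp (nat_lit 9) t42))))))))))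
noncomputable def l3304 : Lb := (@Lb.d (nat_lit 160) (nat_lit 520) (nat_lit 128) (@Lb.g g10 (@Lb.g g11 (@Lb.r r1129 (@Lb.r r2152 (@Lb.r r1446 (@Lb.r r355 (@Lb.d (nat_lit 326) (nat_lit 73) (nat_lit 340) (@Lb.fp (nat_lit 3) t322)))))))))
noncomputable def l3305 : Lb := (@Lb.r r82 (@Lb.d (nat_lit 2) (nat_lit 514) (nat_lit 0) (@Lb.g g8 (@Lb.g g9 (@Lb.r r555 (@Lb.r r1642 (@Lb.r r1561 (@Lb.d (nat_lit 585) (nat_lit 166) (nat_lit 385) (@Lb.fp (nat_lit 3) t958)))))))))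
noncomputable def l3306 : Lb := (@Lb.r r402 (@Lb.r r101 (@Lb.r r24 (@Lb.d (nat_lit 608) (nat_lit 256) (nat_lit 18) (@Lb.fm (nat_lit 1) t145)))))
noncomputable def l3307 : Lb := (@Lb.r r355 (@Lb.d (nat_lit 2) (nat_lit 520) (nat_lit 2) (@Lb.g g8 (@Lb.g g9 (@Lb.g g10 (@Lb.r r683 (@Lb.r r1642 (@Lb.r r2649 (@Lb.d (nat_lit 361) (nat_lit 42) (nat_lit 10) (@Lb.t (@Lb.fp (nat_lit 9) t919)))))))))))
noncomputable def l3308 : Lb := (@Lb.d (nat_lit 0) (nat_lit 0) (nat_lit 2) (@Lb.g g10 (@Lb.r r595 (@Lb.r r386 (@Lb.r r2145 (@Lb.r r36 (@Lb.d (nat_lit 0) (nat_lit 24) (nat_lit 425) (@Lb.t (@Lb.fm (nat_lit 3) t309)))))))))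
noncomputable def l3309 : Lb := (@Lb.d (nat_lit 160) (nat_lit 0) (nat_lit 130) (@Lb.g g10 (@Lb.g g11 (@Lb.r r2197 (@Lb.r r100 (@Lb.r r426 (@Lb.r r355 (@Lb.d (nat_lit 649) (nat_lit 9) (nat_lit 84) (@Lb.fp (nat_lit 3) t313)))))))))
noncomputable def l3310 : Lb := (@Lb.d (nat_lit 128) (nat_lit 289) (nat_lit 72) (@Lb.g g9 (@Lb.g g11 (@Lb.r r2436 (@Lb.r r2454 (@Lb.r r2395 (@Lb.d (nat_lit 550) (nat_lit 84) (nat_lit 422) (@Lb.fp (nat_lit 3) t43))))))))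
noncomputable def l3311 : Lb := (@Lb.d (nat_lit 32) (nat_lit 520) (nat_lit 130) (@Lb.g g10 (@Lb.g g11 (@Lb.r r361 (@Lb.r r2711 (@Lb.r r1352 (@Lb.r r1382 (@Lb.d (nat_lit 341) (nat_lit 66) (nat_lit 276) (@Lb.fp (nat_lit 3) t71)))))))))
noncomputable def l3312 : Lb := (@Lb.d (nat_lit 129) (nat_lit 258) (nat_lit 130) (@Lb.g g8 (@Lb.g g9 (@Lb.g g10 (@Lb.g g11 (@Lb.r r1366 (@Lb.r r2711 (@Lb.r r617 (@Lb.r r2084 (@Lb.d (nat_lit 361) (nat_lit 73) (nat_lit 345) (@Lb.fp (nat_lit 9) t344)))))))))))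
noncomputable def l3313 : Lb := (@Lb.d (nat_lit 24) (nat_lit 322) (nat_lit 401) (@Lb.r r2120 (@Lb.r r2153 (@Lb.r r1414 (@Lb.g g11 (@Lb.g g5 (@Lb.d (nat_lit 0) (nat_lit 1) (nat_lit 0) (@Lb.fm (nat_lit 3) t1075))))))))
noncomputable def l3314 : Lb := (@Lb.d (nat_lit 24) (nat_lit 66) (nat_lit 273) (@Lb.r r2120 (@Lb.r r2153 (@Lb.r r1414 (@Lb.g g11 (@Lb.g g5 (@Lb.d (nat_lit 0) (nat_lit 1) (nat_lit 0) (@Lb.fm (nat_lit 3) t1075))))))))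
noncomputable def l3315 : Lb := (@Lb.d (nat_lit 20) (nat_lit 320) (nat_lit 273) (@Lb.r r2120 (@Lb.r r1414 (@Lb.g g9 (@Lb.d (nat_lit 0) (nat_lit 38) (nat_lit 0) (@Lb.t (@Lb.fp (nat_lit 3) t444)))))))
noncomputable def l3316 : Lb := (@Lb.d (nat_lit 34) (nat_lit 261) (nat_lit 0) (@Lb.r r1432 (@Lb.r r1170 (@Lb.r r407 (@Lb.r r609 (@Lb.g g7 (@Lb.d (nat_lit 0) (nat_lit 0) (nat_lit 64) (@Lb.t (@Lb.fp (nat_lit 3) t394)))))))))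
noncomputable def l3317 : Lb := (@Lb.r r1114 (@Lb.r r149 (@Lb.d (nat_lit 24) (nat_lit 324) (nat_lit 34) (@Lb.fp (nat_lit 1) t1076))))
noncomputable def l3318 : Lb := (@Lb.d (nat_lit 276) (nat_lit 258) (nat_lit 80) (@Lb.r r2120 (@Lb.r r1362 (@Lb.r r423 (@Lb.r r293 (@Lb.g g7 (@Lb.g g6 (@Lb.d (nat_lit 0) (nat_lit 4) (nat_lit 65) (@Lb.fm (nat_lit 3) t1001)))))))))
noncomputable def l3319 : Lb := (@Lb.r r322 (@Lb.d (nat_lit 129) (nat_lit 536) (nat_lit 328) (@Lb.g g8 (@Lb.g g9 (@Lb.g g7 (@Lb.r r2450 (@Lb.r r2385 (@Lb.r r2456 (@Lb.d (nat_lit 410) (nat_lit 66) (nat_lit 385) (@Lb.t (@Lb.fp (nat_lit 9) t582)))))))))))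
noncomputable def l3320 : Lb := (@Lb.d (nat_lit 146) (nat_lit 272) (nat_lit 74) (@Lb.g g8 (@Lb.g g9 (@Lb.g g10 (@Lb.g g11 (@Lb.r r2579 (@Lb.r r1442 (@Lb.r r2153 (@Lb.r r612 (@Lb.d (nat_lit 329) (nat_lit 26) (nat_lit 617) (@Lb.fm (nat_lit 9) t1077)))))))))))
noncomputable def l3321 : Lb := (@Lb.d (nat_lit 0) (nat_lit 10) (nat_lit 0) (@Lb.g g5 (@Lb.r r2210 (@Lb.r r1185 (@Lb.d (nat_lit 548) (nat_lit 74) (nat_lit 17) (@Lb.t (@Lb.fm (nat_lit 3) t1078)))))))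
noncomputable def l3322 : Lb := (@Lb.d (nat_lit 33) (nat_lit 10) (nat_lit 0) (@Lb.g g8 (@Lb.g g9 (@Lb.r r1158 (@Lb.r r2376 (@Lb.r r599 (@Lb.r r417 (@Lb.d (nat_lit 0) (nat_lit 130) (nat_lit 169) (@Lb.fm (nat_lit 3) t210)))))))))
noncomputable def l3323 : Lb := (@Lb.r r424 (@Lb.r r2473 (@Lb.r r1450 (@Lb.r r343 (@Lb.r r676 (@Lb.d (nat_lit 10) (nat_lit 258) (nat_lit 0) (@Lb.fm (nat_lit 1) t1079)))))))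
noncomputable def l3324 : Lb := (@Lb.d (nat_lit 8) (nat_lit 258) (nat_lit 130) (@Lb.g g9 (@Lb.g g10 (@Lb.g g11 (@Lb.r r419 (@Lb.r r98 (@Lb.r r24 (@Lb.r r101 (@Lb.d (nat_lit 21) (nat_lit 85) (nat_lit 422) (@Lb.t (@Lb.fm (nat_lit 9) t1080)))))))))))
noncomputable def l3325 : Lb := (@Lb.d (nat_lit 1) (nat_lit 288) (nat_lit 130) (@Lb.g g8 (@Lb.g g10 (@Lb.g g11 (@Lb.r r602 (@Lb.r r600 (@Lb.r r293 (@Lb.r r2587 (@Lb.d (nat_lit 329) (nat_lit 41) (nat_lit 278) (@Lb.t (@Lb.fp (nat_lit 9) t71)))))))))))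
noncomputable def l3326 : Lb := (@Lb.d (nat_lit 33) (nat_lit 256) (nat_lit 128) (@Lb.g g8 (@Lb.g g11 (@Lb.r r2665 (@Lb.r r363 (@Lb.r r582 (@Lb.r r2180 (@Lb.d (nat_lit 546) (nat_lit 169) (nat_lit 161) (@Lb.fp (nat_lit 3) t1081)))))))))
noncomputable def l3327 : Lb := (@Lb.d (nat_lit 9) (nat_lit 258) (nat_lit 130) (@Lb.g g8 (@Lb.g g9 (@Lb.g g10 (@Lb.g g11 (@Lb.r r2731 (@Lb.r r2601 (@Lb.r r616 (@Lb.r r2118 (@Lb.r r1156 (@Lb.d (nat_lit 9) (nat_lit 153) (nat_lit 297) (@Lb.fm (nat_lit 9) t591))))))))))))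
noncomputable def l3328 : Lb := (@Lb.r r21 (@Lb.r r70 (@Lb.r r263 (@Lb.d (nat_lit 1) (nat_lit 512) (nat_lit 0) (@Lb.g g4 (@Lb.r r2631 (@Lb.r r402 (@Lb.r r97 (@Lb.d (nat_lit 262) (nat_lit 0) (nat_lit 0) (@Lb.t (@Lb.fp (nat_lit 3) t739)))))))))))
noncomputable def l3329 : Lb := (@Lb.d (nat_lit 0) (nat_lit 290) (nat_lit 0) (@Lb.g g9 (@Lb.r r1619 (@Lb.r r1414 (@Lb.r r1096 (@Lb.d (nat_lit 33) (nat_lit 2) (nat_lit 18) (@Lb.t (@Lb.fm (nat_lit 3) t468))))))))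
noncomputable def l3330 : Lb := (@Lb.d (nat_lit 2) (nat_lit 514) (nat_lit 128) (@Lb.g g8 (@Lb.g g9 (@Lb.g g11 (@Lb.r r1707 (@Lb.r r162 (@Lb.r r145 (@Lb.r r1608 (@Lb.d (nat_lit 97) (nat_lit 9) (nat_lit 665) (@Lb.t (@Lb.fp (nat_lit 9) t1082)))))))))))
noncomputable def l3331 : Lb := (@Lb.d (nat_lit 2) (nat_lit 512) (nat_lit 129) (@Lb.g g8 (@Lb.g g9 (@Lb.g g10 (@Lb.g g11 (@Lb.r r1579 (@Lb.r r145 (@Lb.r r82 (@Lb.r r145 (@Lb.r r1608 (@Lb.d (nat_lit 97) (nat_lit 1) (nat_lit 665) (@Lb.fp (nat_lit 9) t469))))))))))))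
noncomputable def l3332 : Lb := (@Lb.d (nat_lit 72) (nat_lit 682) (nat_lit 649) (@Lb.r r657 (@Lb.r r1683 (@Lb.r r2650 (@Lb.r r344 (@Lb.g g7 (@Lb.g g6 (@Lb.g g5 (@Lb.d (nat_lit 4) (nat_lit 0) (nat_lit 129) (@Lb.t (@Lb.fp (nat_lit 9) t1083)))))))))))
noncomputable def l3333 : Lb := (@Lb.d (nat_lit 512) (nat_lit 512) (nat_lit 384) (@Lb.r r24 (@Lb.r r101 (@Lb.r r402 (@Lb.g g11 (@Lb.g g6 (@Lb.d (nat_lit 0) (nat_lit 0) (nat_lit 128) (@Lb.fm (nat_lit 3) t204))))))))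
noncomputable def l3334 : Lb := (@Lb.d (nat_lit 64) (nat_lit 256) (nat_lit 64) (@Lb.r r24 (@Lb.r r101 (@Lb.r r402 (@Lb.g g11 (@Lb.g g6 (@Lb.d (nat_lit 0) (nat_lit 0) (nat_lit 5) (@Lb.fm (nat_lit 3) t546))))))))
noncomputable def l3335 : Lb := (@Lb.d (nat_lit 64) (nat_lit 0) (nat_lit 64) (@Lb.r r24 (@Lb.r r101 (@Lb.r r402 (@Lb.r r643 (@Lb.g g7 (@Lb.g g6 (@Lb.d (nat_lit 0) (nat_lit 0) (nat_lit 5) (@Lb.fm (nat_lit 3) t1084)))))))))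
noncomputable def l3336 : Lb := (@Lb.d (nat_lit 0) (nat_lit 512) (nat_lit 64) (@Lb.g g7 (@Lb.r r24 (@Lb.r r101 (@Lb.r r402 (@Lb.r r579 (@Lb.t (@Lb.fm (nat_lit 3) t242))))))))
noncomputable def l3337 : Lb := (@Lb.d (nat_lit 136) (nat_lit 258) (nat_lit 130) (@Lb.g g9 (@Lb.g g10 (@Lb.g g11 (@Lb.r r618 (@Lb.r r24 (@Lb.r r405 (@Lb.r r611 (@Lb.d (nat_lit 137) (nat_lit 25) (nat_lit 146) (@Lb.t (@Lb.fm (nat_lit 9) t564)))))))))))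
noncomputable def l3338 : Lb := (@Lb.r r81 (@Lb.d (nat_lit 10) (nat_lit 32) (nat_lit 1) (@Lb.g g8 (@Lb.g g6 (@Lb.g g11 (@Lb.r r149 (@Lb.r r360 (@Lb.r r263 (@Lb.d (nat_lit 64) (nat_lit 42) (nat_lit 148) (@Lb.t (@Lb.fm (nat_lit 9) t150)))))))))))
noncomputable def l3339 : Lb := (@Lb.d (nat_lit 0) (nat_lit 514) (nat_lit 0) (@Lb.g g9 (@Lb.g g6 (@Lb.r r97 (@Lb.d (nat_lit 5) (nat_lit 10) (nat_lit 0) (@Lb.fm (nat_lit 3) t285))))))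
noncomputable def l3340 : Lb := (@Lb.d (nat_lit 512) (nat_lit 256) (nat_lit 256) (@Lb.r r24 (@Lb.r r101 (@Lb.r r402 (@Lb.g g11 (@Lb.t (@Lb.fm (nat_lit 3) t150)))))))
noncomputable def l3341 : Lb := (@Lb.d (nat_lit 40) (nat_lit 514) (nat_lit 130) (@Lb.g g9 (@Lb.g g10 (@Lb.g g11 (@Lb.r r68 (@Lb.r r1610 (@Lb.r r615 (@Lb.r r2661 (@Lb.d (nat_lit 641) (nat_lit 134) (nat_lit 418) (@Lb.t (@Lb.fm (nat_lit 9) t638)))))))))))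
noncomputable def l3342 : Lb := (@Lb.d (nat_lit 406) (nat_lit 390) (nat_lit 130) (@Lb.r r2438 (@Lb.r r1620 (@Lb.r r2345 (@Lb.r r1351 (@Lb.g g7 (@Lb.g g4 (@Lb.d (nat_lit 1) (nat_lit 0) (nat_lit 64) (@Lb.fm (nat_lit 3) t638)))))))))
noncomputable def l3343 : Lb := (@Lb.d (nat_lit 6) (nat_lit 258) (nat_lit 0) (@Lb.r r289 (@Lb.r r279 (@Lb.r r584 (@Lb.r r326 (@Lb.g g7 (@Lb.g g6 (@Lb.d (nat_lit 0) (nat_lit 0) (nat_lit 129) (@Lb.fm (nat_lit 3) t1085)))))))))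
noncomputable def l3344 : Lb := (@Lb.d (nat_lit 550) (nat_lit 69) (nat_lit 129) (@Lb.r r289 (@Lb.r r362 (@Lb.r r72 (@Lb.g g11 (@Lb.g g6 (@Lb.d (nat_lit 16) (nat_lit 32) (nat_lit 321) (@Lb.fp (nat_lit 3) t1086))))))))
noncomputable def l3345 : Lb := (@Lb.d (nat_lit 136) (nat_lit 258) (nat_lit 130) (@Lb.g g9 (@Lb.g g10 (@Lb.g g11 (@Lb.r r166 (@Lb.r r264 (@Lb.r r599 (@Lb.r r409 (@Lb.d (nat_lit 137) (nat_lit 18) (nat_lit 74) (@Lb.t (@Lb.fp (nat_lit 9) t1087)))))))))))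
noncomputable def l3346 : Lb := (@Lb.r r323 (@Lb.d (nat_lit 40) (nat_lit 553) (nat_lit 1) (@Lb.g g9 (@Lb.g g10 (@Lb.r r283 (@Lb.r r280 (@Lb.r r613 (@Lb.d (nat_lit 154) (nat_lit 8) (nat_lit 130) (@Lb.fm (nat_lit 3) t852)))))))))
noncomputable def l3347 : Lb := (@Lb.d (nat_lit 8) (nat_lit 256) (nat_lit 128) (@Lb.g g8 (@Lb.g g11 (@Lb.r r358 (@Lb.r r1435 (@Lb.r r2581 (@Lb.r r292 (@Lb.d (nat_lit 74) (nat_lit 105) (nat_lit 86) (@Lb.fm (nat_lit 3) t327)))))))))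
noncomputable def l3348 : Lb := (@Lb.d (nat_lit 2) (nat_lit 32) (nat_lit 130) (@Lb.g g8 (@Lb.g g10 (@Lb.g g11 (@Lb.r r602 (@Lb.r r600 (@Lb.r r293 (@Lb.r r2587 (@Lb.d (nat_lit 329) (nat_lit 41) (nat_lit 278) (@Lb.t (@Lb.fp (nat_lit 9) t71)))))))))))
noncomputable def l3349 : Lb := (@Lb.d (nat_lit 8) (nat_lit 512) (nat_lit 128) (@Lb.g g8 (@Lb.g g11 (@Lb.r r358 (@Lb.r r1435 (@Lb.r r2581 (@Lb.r r292 (@Lb.d (nat_lit 74) (nat_lit 100) (nat_lit 85) (@Lb.fm (nat_lit 3) t327)))))))))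
noncomputable def l3350 : Lb := (@Lb.d (nat_lit 2) (nat_lit 288) (nat_lit 128) (@Lb.g g8 (@Lb.g g11 (@Lb.r r134 (@Lb.r r600 (@Lb.r r293 (@Lb.r r2459 (@Lb.d (nat_lit 408) (nat_lit 85) (nat_lit 664) (@Lb.fp (nat_lit 3) t295)))))))))
noncomputable def l3351 : Lb := (@Lb.d (nat_lit 154) (nat_lit 273) (nat_lit 128) (@Lb.g g8 (@Lb.g g9 (@Lb.g g10 (@Lb.g g11 (@Lb.r r1387 (@Lb.r r1410 (@Lb.r r105 (@Lb.r r1060 (@Lb.d (nat_lit 85) (nat_lit 164) (nat_lit 358) (@Lb.fp (nat_lit 9) t1088)))))))))))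
noncomputable def l3352 : Lb := (@Lb.d (nat_lit 154) (nat_lit 529) (nat_lit 74) (@Lb.g g8 (@Lb.g g9 (@Lb.g g10 (@Lb.g g11 (@Lb.r r618 (@Lb.r r1611 (@Lb.r r105 (@Lb.r r1060 (@Lb.d (nat_lit 545) (nat_lit 41) (nat_lit 596) (@Lb.fp (nat_lit 9) t1032)))))))))))
noncomputable def l3353 : Lb := (@Lb.d (nat_lit 24) (nat_lit 274) (nat_lit 138) (@Lb.g g8 (@Lb.g g9 (@Lb.g g10 (@Lb.g g11 (@Lb.r r657 (@Lb.r r2579 (@Lb.r r2468 (@Lb.r r390 (@Lb.d (nat_lit 153) (nat_lit 97) (nat_lit 89) (@Lb.fp (nat_lit 9) t1032)))))))))))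
noncomputable def l3354 : Lb := (@Lb.r r70 (@Lb.r r263 (@Lb.d (nat_lit 546) (nat_lit 514) (nat_lit 0) (@Lb.g g4 (@Lb.g g9 (@Lb.r r267 (@Lb.r r74 (@Lb.r r97 (@Lb.d (nat_lit 273) (nat_lit 138) (nat_lit 0) (@Lb.fm (nat_lit 3) t217))))))))))
noncomputable def l3355 : Lb := (@Lb.d (nat_lit 2) (nat_lit 520) (nat_lit 130) (@Lb.g g8 (@Lb.g g10 (@Lb.g g11 (@Lb.r r2443 (@Lb.r r2345 (@Lb.r r2468 (@Lb.r r2438 (@Lb.d (nat_lit 616) (nat_lit 73) (nat_lit 664) (@Lb.t (@Lb.fm (nat_lit 9) t295)))))))))))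
noncomputable def l3356 : Lb := (@Lb.r r70 (@Lb.r r263 (@Lb.d (nat_lit 544) (nat_lit 2) (nat_lit 0) (@Lb.g g8 (@Lb.g g9 (@Lb.r r406 (@Lb.r r2627 (@Lb.r r25 (@Lb.d (nat_lit 0) (nat_lit 144) (nat_lit 576) (@Lb.fm (nat_lit 3) t842))))))))))
noncomputable def l3357 : Lb := (@Lb.d (nat_lit 2) (nat_lit 2) (nat_lit 128) (@Lb.g g8 (@Lb.g g9 (@Lb.g g10 (@Lb.g g11 (@Lb.r r1451 (@Lb.r r98 (@Lb.r r292 (@Lb.r r2069 (@Lb.r r1060 (@Lb.d (nat_lit 33) (nat_lit 36) (nat_lit 384) (@Lb.fp (nat_lit 9) t1089))))))))))))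
noncomputable def l3358 : Lb := (@Lb.d (nat_lit 0) (nat_lit 0) (nat_lit 68) (@Lb.g g7 (@Lb.d (nat_lit 352) (nat_lit 0) (nat_lit 598) (@Lb.t (@Lb.fm (nat_lit 3) t1090)))))
noncomputable def l3359 : Lb := (@Lb.d (nat_lit 33) (nat_lit 514) (nat_lit 130) (@Lb.g g8 (@Lb.g g9 (@Lb.g g10 (@Lb.g g11 (@Lb.r r599 (@Lb.r r682 (@Lb.r r2649 (@Lb.r r2628 (@Lb.d (nat_lit 664) (nat_lit 137) (nat_lit 612) (@Lb.fp (nat_lit 9) t1091)))))))))))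
noncomputable def l3360 : Lb := (@Lb.d (nat_lit 554) (nat_lit 516) (nat_lit 97) (@Lb.r r1416 (@Lb.r r81 (@Lb.r r162 (@Lb.r r145 (@Lb.g g7 (@Lb.d (nat_lit 64) (nat_lit 32) (nat_lit 576) (@Lb.t (@Lb.fm (nat_lit 3) t1092)))))))))
noncomputable def l3361 : Lb := (@Lb.r r1416 (@Lb.r r2391 (@Lb.r r81 (@Lb.r r162 (@Lb.r r145 (@Lb.d (nat_lit 0) (nat_lit 593) (nat_lit 592) (@Lb.fp (nat_lit 1) t1093)))))))
noncomputable def l3362 : Lb := (@Lb.d (nat_lit 544) (nat_lit 4) (nat_lit 98) (@Lb.r r1416 (@Lb.r r82 (@Lb.r r161 (@Lb.g g7 (@Lb.g g6 (@Lb.d (nat_lit 64) (nat_lit 32) (nat_lit 577) (@Lb.fm (nat_lit 3) t1092))))))))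
noncomputable def l3363 : Lb := (@Lb.r r388 (@Lb.d (nat_lit 64) (nat_lit 32) (nat_lit 518) (@Lb.g g10 (@Lb.g g7 (@Lb.r r405 (@Lb.r r342 (@Lb.r r1032 (@Lb.d (nat_lit 537) (nat_lit 85) (nat_lit 38) (@Lb.fm (nat_lit 3) t1094)))))))))
noncomputable def l3364 : Lb := (@Lb.r r82 (@Lb.d (nat_lit 9) (nat_lit 393) (nat_lit 128) (@Lb.g g8 (@Lb.g g5 (@Lb.g g11 (@Lb.r r2587 (@Lb.r r98 (@Lb.r r2584 (@Lb.d (nat_lit 585) (nat_lit 36) (nat_lit 418) (@Lb.t (@Lb.fp (nat_lit 9) t1095)))))))))))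
noncomputable def l3365 : Lb := (@Lb.r r322 (@Lb.d (nat_lit 9) (nat_lit 0) (nat_lit 576) (@Lb.g g8 (@Lb.g g7 (@Lb.r r597 (@Lb.r r98 (@Lb.r r2436 (@Lb.d (nat_lit 610) (nat_lit 90) (nat_lit 105) (@Lb.fp (nat_lit 3) t311)))))))))
noncomputable def l3366 : Lb := (@Lb.d (nat_lit 9) (nat_lit 514) (nat_lit 73) (@Lb.g g8 (@Lb.g g9 (@Lb.g g10 (@Lb.g g11 (@Lb.r r289 (@Lb.r r535 (@Lb.r r2440 (@Lb.r r2122 (@Lb.d (nat_lit 273) (nat_lit 10) (nat_lit 160) (@Lb.fm (nat_lit 9) t40)))))))))))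
noncomputable def l3367 : Lb := (@Lb.d (nat_lit 1) (nat_lit 2) (nat_lit 130) (@Lb.g g8 (@Lb.g g9 (@Lb.g g10 (@Lb.g g11 (@Lb.r r2411 (@Lb.r r386 (@Lb.r r97 (@Lb.r r24 (@Lb.d (nat_lit 256) (nat_lit 0) (nat_lit 153) (@Lb.fm (nat_lit 9) t61)))))))))))
noncomputable def l3368 : Lb := (@Lb.d (nat_lit 25) (nat_lit 294) (nat_lit 538) (@Lb.r r2308 (@Lb.r r2646 (@Lb.r r2731 (@Lb.g g7 (@Lb.g g6 (@Lb.g g5 (@Lb.g g4 (@Lb.d (nat_lit 98) (nat_lit 129) (nat_lit 133) (@Lb.fm (nat_lit 9) t61))))))))))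
noncomputable def l3369 : Lb := (@Lb.d (nat_lit 1) (nat_lit 258) (nat_lit 130) (@Lb.g g8 (@Lb.g g9 (@Lb.g g10 (@Lb.g g11 (@Lb.r r2411 (@Lb.r r386 (@Lb.r r97 (@Lb.r r24 (@Lb.d (nat_lit 266) (nat_lit 2) (nat_lit 153) (@Lb.fm (nat_lit 9) t61)))))))))))
noncomputable def l3370 : Lb := (@Lb.d (nat_lit 137) (nat_lit 2) (nat_lit 1) (@Lb.g g8 (@Lb.g g9 (@Lb.g g10 (@Lb.r r551 (@Lb.r r1557 (@Lb.r r2440 (@Lb.r r90 (@Lb.d (nat_lit 26) (nat_lit 168) (nat_lit 672) (@Lb.t (@Lb.fm (nat_lit 9) t1096)))))))))))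
noncomputable def l3371 : Lb := (@Lb.d (nat_lit 1) (nat_lit 290) (nat_lit 2) (@Lb.g g8 (@Lb.g g9 (@Lb.g g10 (@Lb.r r275 (@Lb.r r2122 (@Lb.r r657 (@Lb.d (nat_lit 550) (nat_lit 38) (nat_lit 548) (@Lb.t (@Lb.fm (nat_lit 9) t145))))))))))
noncomputable def l3372 : Lb := (@Lb.d (nat_lit 1) (nat_lit 520) (nat_lit 2) (@Lb.g g8 (@Lb.g g10 (@Lb.r r1381 (@Lb.r r1691 (@Lb.r r1610 (@Lb.d (nat_lit 102) (nat_lit 8) (nat_lit 665) (@Lb.fm (nat_lit 3) t145))))))))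
noncomputable def l3373 : Lb := (@Lb.d (nat_lit 9) (nat_lit 256) (nat_lit 73) (@Lb.g g8 (@Lb.g g10 (@Lb.g g11 (@Lb.r r2691 (@Lb.r r1681 (@Lb.r r1178 (@Lb.r r2456 (@Lb.d (nat_lit 74) (nat_lit 154) (nat_lit 386) (@Lb.t (@Lb.fp (nat_lit 9) t1097)))))))))))
noncomputable def l3374 : Lb := (@Lb.d (nat_lit 9) (nat_lit 512) (nat_lit 73) (@Lb.g g8 (@Lb.g g10 (@Lb.g g11 (@Lb.r r2691 (@Lb.r r1109 (@Lb.r r2658 (@Lb.r r2436 (@Lb.d (nat_lit 610) (nat_lit 165) (nat_lit 660) (@Lb.t (@Lb.fp (nat_lit 9) t311)))))))))))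
noncomputable def l3375 : Lb := (@Lb.d (nat_lit 9) (nat_lit 0) (nat_lit 73) (@Lb.g g8 (@Lb.g g10 (@Lb.g g11 (@Lb.r r2691 (@Lb.r r1109 (@Lb.r r2658 (@Lb.r r2436 (@Lb.d (nat_lit 610) (nat_lit 165) (nat_lit 596) (@Lb.t (@Lb.fp (nat_lit 9) t311)))))))))))
noncomputable def l3376 : Lb := (@Lb.d (nat_lit 9) (nat_lit 512) (nat_lit 132) (@Lb.g g8 (@Lb.g g10 (@Lb.g g11 (@Lb.r r2691 (@Lb.r r1173 (@Lb.r r1426 (@Lb.r r2436 (@Lb.d (nat_lit 610) (nat_lit 170) (nat_lit 405) (@Lb.t (@Lb.fm (nat_lit 9) t311)))))))))))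
noncomputable def l3377 : Lb := (@Lb.d (nat_lit 0) (nat_lit 2) (nat_lit 66) (@Lb.g g9 (@Lb.g g10 (@Lb.g g7 (@Lb.r r386 (@Lb.r r97 (@Lb.d (nat_lit 325) (nat_lit 10) (nat_lit 585) (@Lb.t (@Lb.fp (nat_lit 9) t1098)))))))))
noncomputable def l3378 : Lb := (@Lb.d (nat_lit 257) (nat_lit 518) (nat_lit 1) (@Lb.r r82 (@Lb.r r2647 (@Lb.g g6 (@Lb.g g5 (@Lb.d (nat_lit 4) (nat_lit 1) (nat_lit 1) (@Lb.fp (nat_lit 3) t1099)))))))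
noncomputable def l3379 : Lb := (@Lb.d (nat_lit 298) (nat_lit 257) (nat_lit 16) (@Lb.r r1321 (@Lb.r r1444 (@Lb.r r2406 (@Lb.r r595 (@Lb.g g7 (@Lb.g g6 (@Lb.d (nat_lit 0) (nat_lit 0) (nat_lit 133) (@Lb.fm (nat_lit 3) t1100)))))))))
noncomputable def l3380 : Lb := (@Lb.d (nat_lit 257) (nat_lit 513) (nat_lit 1) (@Lb.r r1416 (@Lb.r r1386 (@Lb.r r1369 (@Lb.r r2343 (@Lb.g g7 (@Lb.g g6 (@Lb.g g5 (@Lb.d (nat_lit 0) (nat_lit 0) (nat_lit 65) (@Lb.t (@Lb.fm (nat_lit 9) t1101)))))))))))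
noncomputable def l3381 : Lb := (@Lb.d (nat_lit 262) (nat_lit 2) (nat_lit 1) (@Lb.r r1416 (@Lb.r r1386 (@Lb.r r1369 (@Lb.r r2343 (@Lb.g g7 (@Lb.g g6 (@Lb.g g5 (@Lb.d (nat_lit 0) (nat_lit 5) (nat_lit 66) (@Lb.t (@Lb.fm (nat_lit 9) t1102)))))))))))
noncomputable def l3382 : Lb := (@Lb.d (nat_lit 262) (nat_lit 258) (nat_lit 1) (@Lb.r r1416 (@Lb.r r1386 (@Lb.r r1369 (@Lb.r r2343 (@Lb.g g7 (@Lb.g g6 (@Lb.g g5 (@Lb.d (nat_lit 0) (nat_lit 0) (nat_lit 65) (@Lb.t (@Lb.fm (nat_lit 9) t1101)))))))))))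
noncomputable def l3383 : Lb := (@Lb.r r388 (@Lb.d (nat_lit 0) (nat_lit 32) (nat_lit 322) (@Lb.g g10 (@Lb.g g7 (@Lb.r r1633 (@Lb.r r2450 (@Lb.r r1032 (@Lb.d (nat_lit 608) (nat_lit 146) (nat_lit 298) (@Lb.fm (nat_lit 3) t1102)))))))))
noncomputable def l3384 : Lb := (@Lb.d (nat_lit 262) (nat_lit 521) (nat_lit 0) (@Lb.r r1416 (@Lb.r r1386 (@Lb.r r1369 (@Lb.r r2343 (@Lb.g g7 (@Lb.g g6 (@Lb.g g5 (@Lb.d (nat_lit 0) (nat_lit 0) (nat_lit 65) (@Lb.t (@Lb.fm (nat_lit 9) t1103)))))))))))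
noncomputable def l3385 : Lb := (@Lb.d (nat_lit 32) (nat_lit 256) (nat_lit 130) (@Lb.g g9 (@Lb.g g10 (@Lb.g g11 (@Lb.r r667 (@Lb.r r609 (@Lb.r r100 (@Lb.r r410 (@Lb.d (nat_lit 138) (nat_lit 21) (nat_lit 136) (@Lb.t (@Lb.fp (nat_lit 9) t1104)))))))))))
noncomputable def l3386 : Lb := (@Lb.d (nat_lit 32) (nat_lit 256) (nat_lit 73) (@Lb.g g10 (@Lb.g g11 (@Lb.r r545 (@Lb.r r299 (@Lb.r r100 (@Lb.r r410 (@Lb.d (nat_lit 408) (nat_lit 21) (nat_lit 152) (@Lb.fm (nat_lit 3) t167)))))))))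
noncomputable def l3387 : Lb := (@Lb.d (nat_lit 2) (nat_lit 258) (nat_lit 130) (@Lb.g g8 (@Lb.g g9 (@Lb.g g10 (@Lb.g g11 (@Lb.r r1443 (@Lb.r r297 (@Lb.r r104 (@Lb.r r70 (@Lb.r r132 (@Lb.d (nat_lit 545) (nat_lit 10) (nat_lit 417) (@Lb.fp (nat_lit 9) t88))))))))))))
noncomputable def l3388 : Lb := (@Lb.d (nat_lit 293) (nat_lit 66) (nat_lit 86) (@Lb.r r1172 (@Lb.r r417 (@Lb.r r418 (@Lb.r r1623 (@Lb.g g6 (@Lb.g g5 (@Lb.g g4 (@Lb.d (nat_lit 66) (nat_lit 0) (nat_lit 2) (@Lb.t (@Lb.fm (nat_lit 9) t1105)))))))))))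
noncomputable def l3389 : Lb := (@Lb.r r21 (@Lb.d (nat_lit 644) (nat_lit 0) (nat_lit 130) (@Lb.g g4 (@Lb.g g10 (@Lb.g g11 (@Lb.r r677 (@Lb.r r1443 (@Lb.r r98 (@Lb.d (nat_lit 4) (nat_lit 72) (nat_lit 105) (@Lb.t (@Lb.fm (nat_lit 9) t1106)))))))))))
noncomputable def l3390 : Lb := (@Lb.r r275 (@Lb.d (nat_lit 25) (nat_lit 9) (nat_lit 2) (@Lb.g g8 (@Lb.g g9 (@Lb.g g10 (@Lb.r r2666 (@Lb.r r1603 (@Lb.r r1321 (@Lb.r r2312 (@Lb.d (nat_lit 133) (nat_lit 17) (nat_lit 640) (@Lb.t (@Lb.fp (nat_lit 9) t1107))))))))))))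
noncomputable def l3391 : Lb := (@Lb.r r275 (@Lb.d (nat_lit 26) (nat_lit 258) (nat_lit 0) (@Lb.g g8 (@Lb.g g9 (@Lb.g g10 (@Lb.r r2666 (@Lb.r r1603 (@Lb.r r1313 (@Lb.r r2312 (@Lb.d (nat_lit 386) (nat_lit 161) (nat_lit 64) (@Lb.t (@Lb.fp (nat_lit 9) t1107))))))))))))
noncomputable def l3392 : Lb := (@Lb.d (nat_lit 32) (nat_lit 0) (nat_lit 130) (@Lb.g g10 (@Lb.g g11 (@Lb.r r545 (@Lb.r r299 (@Lb.r r100 (@Lb.r r410 (@Lb.d (nat_lit 408) (nat_lit 21) (nat_lit 152) (@Lb.fm (nat_lit 3) t167)))))))))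
noncomputable def l3393 : Lb := (@Lb.r r273 (@Lb.r r322 (@Lb.d (nat_lit 2) (nat_lit 544) (nat_lit 0) (@Lb.g g8 (@Lb.g g11 (@Lb.r r1381 (@Lb.r r146 (@Lb.d (nat_lit 16) (nat_lit 0) (nat_lit 145) (@Lb.fm (nat_lit 3) t536)))))))))
noncomputable def l3394 : Lb := (@Lb.d (nat_lit 518) (nat_lit 678) (nat_lit 20) (@Lb.r r24 (@Lb.r r2657 (@Lb.r r2667 (@Lb.g g7 (@Lb.g g10 (@Lb.g g5 (@Lb.g g4 (@Lb.d (nat_lit 8) (nat_lit 5) (nat_lit 82) (@Lb.fp (nat_lit 9) t820))))))))))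
noncomputable def l3395 : Lb := (@Lb.d (nat_lit 529) (nat_lit 512) (nat_lit 129) (@Lb.r r24 (@Lb.r r101 (@Lb.r r1299 (@Lb.g g10 (@Lb.g g5 (@Lb.d (nat_lit 0) (nat_lit 0) (nat_lit 2) (@Lb.r r387 (@Lb.fp (nat_lit 3) t719)))))))))
noncomputable def l3396 : Lb := (@Lb.r r21 (@Lb.d (nat_lit 2) (nat_lit 512) (nat_lit 2) (@Lb.g g8 (@Lb.g g10 (@Lb.g g7 (@Lb.r r386 (@Lb.r r97 (@Lb.r r2632 (@Lb.d (nat_lit 354) (nat_lit 90) (nat_lit 36) (@Lb.t (@Lb.fm (nat_lit 9) t996)))))))))))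
noncomputable def l3397 : Lb := (@Lb.d (nat_lit 2) (nat_lit 137) (nat_lit 64) (@Lb.g g8 (@Lb.g g5 (@Lb.g g11 (@Lb.r r340 (@Lb.r r1675 (@Lb.r r2178 (@Lb.r r1540 (@Lb.d (nat_lit 274) (nat_lit 96) (nat_lit 656) (@Lb.t (@Lb.fp (nat_lit 9) t296)))))))))))
noncomputable def l3398 : Lb := (@Lb.r r21 (@Lb.d (nat_lit 2) (nat_lit 0) (nat_lit 2) (@Lb.g g8 (@Lb.g g10 (@Lb.g g7 (@Lb.r r386 (@Lb.r r97 (@Lb.r r2632 (@Lb.d (nat_lit 354) (nat_lit 90) (nat_lit 164) (@Lb.t (@Lb.fm (nat_lit 9) t996)))))))))))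
noncomputable def l3399 : Lb := (@Lb.d (nat_lit 2) (nat_lit 258) (nat_lit 130) (@Lb.g g8 (@Lb.g g9 (@Lb.g g10 (@Lb.g g11 (@Lb.r r391 (@Lb.r r2666 (@Lb.r r2585 (@Lb.r r2564 (@Lb.d (nat_lit 130) (nat_lit 4) (nat_lit 385) (@Lb.fp (nat_lit 9) t715)))))))))))
noncomputable def l3400 : Lb := (@Lb.d (nat_lit 0) (nat_lit 257) (nat_lit 73) (@Lb.g g9 (@Lb.g g10 (@Lb.g g11 (@Lb.r r586 (@Lb.r r584 (@Lb.r r667 (@Lb.r r337 (@Lb.d (nat_lit 4) (nat_lit 170) (nat_lit 130) (@Lb.t (@Lb.fm (nat_lit 9) t51)))))))))))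
noncomputable def l3401 : Lb := (@Lb.d (nat_lit 32) (nat_lit 256) (nat_lit 1) (@Lb.g g10 (@Lb.r r328 (@Lb.r r407 (@Lb.r r609 (@Lb.d (nat_lit 0) (nat_lit 128) (nat_lit 70) (@Lb.t (@Lb.fp (nat_lit 3) t71))))))))
noncomputable def l3402 : Lb := (@Lb.d (nat_lit 8) (nat_lit 2) (nat_lit 73) (@Lb.g g9 (@Lb.g g10 (@Lb.g g11 (@Lb.r r586 (@Lb.r r584 (@Lb.r r299 (@Lb.r r289 (@Lb.d (nat_lit 4) (nat_lit 136) (nat_lit 137) (@Lb.t (@Lb.fm (nat_lit 9) t51)))))))))))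
noncomputable def l3403 : Lb := (@Lb.d (nat_lit 293) (nat_lit 406) (nat_lit 408) (@Lb.r r24 (@Lb.r r2401 (@Lb.r r1431 (@Lb.r r1366 (@Lb.g g7 (@Lb.g g6 (@Lb.g g5 (@Lb.d (nat_lit 0) (nat_lit 1) (nat_lit 65) (@Lb.t (@Lb.fp (nat_lit 9) t175)))))))))))
noncomputable def l3404 : Lb := (@Lb.r r21 (@Lb.d (nat_lit 41) (nat_lit 0) (nat_lit 160) (@Lb.g g8 (@Lb.g g6 (@Lb.g g11 (@Lb.r r1627 (@Lb.r r2341 (@Lb.r r1556 (@Lb.d (nat_lit 390) (nat_lit 161) (nat_lit 641) (@Lb.t (@Lb.fp (nat_lit 9) t50)))))))))))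
noncomputable def l3405 : Lb := (@Lb.r r1427 (@Lb.r r101 (@Lb.r r24 (@Lb.d (nat_lit 529) (nat_lit 256) (nat_lit 0) (@Lb.fp (nat_lit 1) t277)))))
noncomputable def l3406 : Lb := (@Lb.r r21 (@Lb.d (nat_lit 33) (nat_lit 0) (nat_lit 160) (@Lb.g g8 (@Lb.g g6 (@Lb.g g11 (@Lb.r r1611 (@Lb.r r1625 (@Lb.r r1624 (@Lb.d (nat_lit 358) (nat_lit 169) (nat_lit 680) (@Lb.t (@Lb.fp (nat_lit 9) t1108)))))))))))
noncomputable def l3407 : Lb := (@Lb.d (nat_lit 0) (nat_lit 86) (nat_lit 344) (@Lb.r r24 (@Lb.r r2149 (@Lb.r r410 (@Lb.g g7 (@Lb.g g5 (@Lb.d (nat_lit 64) (nat_lit 0) (nat_lit 324) (@Lb.r r98 (@Lb.fp (nat_lit 3) t1108)))))))))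
noncomputable def l3408 : Lb := (@Lb.r r90 (@Lb.d (nat_lit 8) (nat_lit 257) (nat_lit 128) (@Lb.g g8 (@Lb.g g5 (@Lb.g g11 (@Lb.r r1691 (@Lb.r r130 (@Lb.r r1624 (@Lb.d (nat_lit 105) (nat_lit 100) (nat_lit 537) (@Lb.t (@Lb.fm (nat_lit 9) t1109)))))))))))
noncomputable def l3409 : Lb := (@Lb.d (nat_lit 362) (nat_lit 281) (nat_lit 33) (@Lb.r r420 (@Lb.r r97 (@Lb.r r427 (@Lb.r r406 (@Lb.g g7 (@Lb.g g5 (@Lb.g g4 (@Lb.d (nat_lit 18) (nat_lit 1) (nat_lit 128) (@Lb.t (@Lb.fp (nat_lit 9) t542)))))))))))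
noncomputable def l3410 : Lb := (@Lb.d (nat_lit 2) (nat_lit 34) (nat_lit 69) (@Lb.r r613 (@Lb.r r338 (@Lb.r r551 (@Lb.g g7 (@Lb.g g5 (@Lb.g g8 (@Lb.d (nat_lit 10) (nat_lit 0) (nat_lit 64) (@Lb.r r98 (@Lb.t (@Lb.fm (nat_lit 9) t1110)))))))))))
noncomputable def l3411 : Lb := (@Lb.d (nat_lit 402) (nat_lit 150) (nat_lit 354) (@Lb.r r2321 (@Lb.r r2386 (@Lb.r r679 (@Lb.g g7 (@Lb.g g6 (@Lb.g g5 (@Lb.g g8 (@Lb.d (nat_lit 10) (nat_lit 0) (nat_lit 1) (@Lb.fp (nat_lit 9) t878))))))))))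
noncomputable def l3412 : Lb := (@Lb.d (nat_lit 392) (nat_lit 258) (nat_lit 101) (@Lb.r r81 (@Lb.r r166 (@Lb.r r677 (@Lb.r r679 (@Lb.g g7 (@Lb.g g6 (@Lb.g g5 (@Lb.g g8 (@Lb.d (nat_lit 10) (nat_lit 0) (nat_lit 1) (@Lb.fp (nat_lit 9) t1111)))))))))))
noncomputable def l3413 : Lb := (@Lb.d (nat_lit 390) (nat_lit 513) (nat_lit 101) (@Lb.r r81 (@Lb.r r166 (@Lb.r r677 (@Lb.r r679 (@Lb.g g7 (@Lb.g g6 (@Lb.g g5 (@Lb.g g8 (@Lb.d (nat_lit 10) (nat_lit 0) (nat_lit 1) (@Lb.fp (nat_lit 9) t1111)))))))))))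
noncomputable def l3414 : Lb := (@Lb.d (nat_lit 0) (nat_lit 260) (nat_lit 1) (@Lb.g g9 (@Lb.g g10 (@Lb.r r145 (@Lb.d (nat_lit 0) (nat_lit 8) (nat_lit 1) (@Lb.fm (nat_lit 3) t1112))))))
noncomputable def l3415 : Lb := (@Lb.d (nat_lit 2) (nat_lit 262) (nat_lit 2) (@Lb.r r289 (@Lb.r r279 (@Lb.r r584 (@Lb.g g6 (@Lb.g g5 (@Lb.d (nat_lit 20) (nat_lit 1) (nat_lit 1) (@Lb.r r387 (@Lb.fm (nat_lit 3) t68)))))))))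
noncomputable def l3416 : Lb := (@Lb.d (nat_lit 8) (nat_lit 580) (nat_lit 1) (@Lb.r r289 (@Lb.r r279 (@Lb.r r584 (@Lb.r r326 (@Lb.g g7 (@Lb.g g6 (@Lb.g g5 (@Lb.d (nat_lit 4) (nat_lit 1) (nat_lit 134) (@Lb.t (@Lb.fp (nat_lit 9) t68)))))))))))
noncomputable def l3417 : Lb := (@Lb.r r21 (@Lb.d (nat_lit 129) (nat_lit 256) (nat_lit 132) (@Lb.g g8 (@Lb.g g10 (@Lb.g g11 (@Lb.r r651 (@Lb.r r357 (@Lb.r r154 (@Lb.r r132 (@Lb.d (nat_lit 89) (nat_lit 25) (nat_lit 8) (@Lb.t (@Lb.fp (nat_lit 9) t74))))))))))))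
noncomputable def l3418 : Lb := (@Lb.d (nat_lit 4) (nat_lit 4) (nat_lit 2) (@Lb.r r289 (@Lb.r r279 (@Lb.r r584 (@Lb.g g6 (@Lb.g g5 (@Lb.d (nat_lit 20) (nat_lit 1) (nat_lit 1) (@Lb.r r387 (@Lb.fm (nat_lit 3) t68)))))))))
noncomputable def l3419 : Lb := (@Lb.r r82 (@Lb.d (nat_lit 5) (nat_lit 256) (nat_lit 128) (@Lb.g g4 (@Lb.g g9 (@Lb.g g11 (@Lb.r r551 (@Lb.r r610 (@Lb.r r613 (@Lb.d (nat_lit 1) (nat_lit 17) (nat_lit 138) (@Lb.t (@Lb.fp (nat_lit 9) t50)))))))))))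
noncomputable def l3420 : Lb := (@Lb.d (nat_lit 18) (nat_lit 256) (nat_lit 1) (@Lb.r r104 (@Lb.r r609 (@Lb.r r402 (@Lb.r r551 (@Lb.g g4 (@Lb.d (nat_lit 65) (nat_lit 0) (nat_lit 0) (@Lb.t (@Lb.fm (nat_lit 3) t167)))))))))
noncomputable def l3421 : Lb := (@Lb.d (nat_lit 10) (nat_lit 272) (nat_lit 10) (@Lb.r r657 (@Lb.r r666 (@Lb.r r420 (@Lb.r r347 (@Lb.g g7 (@Lb.g g6 (@Lb.g g5 (@Lb.d (nat_lit 8) (nat_lit 1) (nat_lit 65) (@Lb.t (@Lb.fm (nat_lit 9) t68)))))))))))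
noncomputable def l3422 : Lb := (@Lb.d (nat_lit 0) (nat_lit 0) (nat_lit 130) (@Lb.g g10 (@Lb.g g11 (@Lb.r r419 (@Lb.r r386 (@Lb.r r101 (@Lb.d (nat_lit 148) (nat_lit 26) (nat_lit 9) (@Lb.fm (nat_lit 3) t1113))))))))
noncomputable def l3423 : Lb := (@Lb.d (nat_lit 69) (nat_lit 276) (nat_lit 70) (@Lb.r r405 (@Lb.r r402 (@Lb.r r615 (@Lb.g g7 (@Lb.g g5 (@Lb.g g8 (@Lb.d (nat_lit 10) (nat_lit 21) (nat_lit 128) (@Lb.r r98 (@Lb.t (@Lb.fm (nat_lit 9) t35)))))))))))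
noncomputable def l3424 : Lb := (@Lb.g g5 (@Lb.d (nat_lit 5) (nat_lit 262) (nat_lit 1) (@Lb.t (@Lb.fm (nat_lit 3) t45))))
noncomputable def l3425 : Lb := (@Lb.d (nat_lit 2) (nat_lit 9) (nat_lit 129) (@Lb.g g8 (@Lb.g g9 (@Lb.g g10 (@Lb.g g11 (@Lb.r r2459 (@Lb.r r297 (@Lb.r r1384 (@Lb.r r2630 (@Lb.d (nat_lit 656) (nat_lit 130) (nat_lit 356) (@Lb.fp (nat_lit 9) t1114)))))))))))
noncomputable def l3426 : Lb := (@Lb.r r584 (@Lb.r r86 (@Lb.r r289 (@Lb.r r132 (@Lb.d (nat_lit 0) (nat_lit 145) (nat_lit 64) (@Lb.fp (nat_lit 1) t1115))))))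
noncomputable def l3427 : Lb := (@Lb.r r82 (@Lb.r r275 (@Lb.d (nat_lit 2) (nat_lit 257) (nat_lit 0) (@Lb.g g8 (@Lb.g g5 (@Lb.r r291 (@Lb.r r98 (@Lb.r r24 (@Lb.d (nat_lit 10) (nat_lit 2) (nat_lit 64) (@Lb.fm (nat_lit 3) t1085))))))))))
noncomputable def l3428 : Lb := (@Lb.r r584 (@Lb.r r86 (@Lb.r r289 (@Lb.r r132 (@Lb.d (nat_lit 0) (nat_lit 401) (nat_lit 0) (@Lb.fp (nat_lit 1) t1115))))))
noncomputable def l3429 : Lb := (@Lb.r r21 (@Lb.d (nat_lit 10) (nat_lit 512) (nat_lit 2) (@Lb.g g8 (@Lb.g g10 (@Lb.r r667 (@Lb.r r2405 (@Lb.r r1178 (@Lb.r r1156 (@Lb.d (nat_lit 345) (nat_lit 65) (nat_lit 337) (@Lb.fp (nat_lit 3) t284))))))))))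
noncomputable def l3430 : Lb := (@Lb.d (nat_lit 132) (nat_lit 0) (nat_lit 2) (@Lb.g g8 (@Lb.g g9 (@Lb.g g10 (@Lb.r r2691 (@Lb.r r2217 (@Lb.r r2666 (@Lb.r r104 (@Lb.d (nat_lit 676) (nat_lit 0) (nat_lit 330) (@Lb.t (@Lb.fp (nat_lit 9) t242)))))))))))
noncomputable def l3431 : Lb := (@Lb.r r82 (@Lb.g g9 (@Lb.r r2641 (@Lb.r r98 (@Lb.d (nat_lit 0) (nat_lit 90) (nat_lit 426) (@Lb.t (@Lb.fp (nat_lit 3) t598)))))))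
noncomputable def l3432 : Lb := (@Lb.d (nat_lit 0) (nat_lit 288) (nat_lit 2) (@Lb.g g9 (@Lb.g g10 (@Lb.r r2691 (@Lb.r r2214 (@Lb.r r596 (@Lb.r r297 (@Lb.d (nat_lit 580) (nat_lit 34) (nat_lit 384) (@Lb.fp (nat_lit 3) t242)))))))))
noncomputable def l3433 : Lb := (@Lb.r r82 (@Lb.d (nat_lit 5) (nat_lit 512) (nat_lit 0) (@Lb.g g4 (@Lb.g g9 (@Lb.r r551 (@Lb.r r1681 (@Lb.r r146 (@Lb.d (nat_lit 609) (nat_lit 5) (nat_lit 682) (@Lb.fp (nat_lit 3) t1116)))))))))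
noncomputable def l3434 : Lb := (@Lb.d (nat_lit 5) (nat_lit 0) (nat_lit 2) (@Lb.g g4 (@Lb.g g9 (@Lb.g g10 (@Lb.r r679 (@Lb.r r1634 (@Lb.r r1553 (@Lb.d (nat_lit 336) (nat_lit 105) (nat_lit 672) (@Lb.t (@Lb.fm (nat_lit 9) t490))))))))))
noncomputable def l3435 : Lb := (@Lb.r r82 (@Lb.d (nat_lit 2) (nat_lit 546) (nat_lit 64) (@Lb.g g8 (@Lb.g g9 (@Lb.g g11 (@Lb.r r537 (@Lb.r r531 (@Lb.r r98 (@Lb.d (nat_lit 129) (nat_lit 17) (nat_lit 0) (@Lb.t (@Lb.fp (nat_lit 9) t5)))))))))))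
noncomputable def l3436 : Lb := (@Lb.d (nat_lit 10) (nat_lit 0) (nat_lit 73) (@Lb.g g8 (@Lb.g g10 (@Lb.g g11 (@Lb.r r2691 (@Lb.r r2658 (@Lb.r r149 (@Lb.r r168 (@Lb.d (nat_lit 612) (nat_lit 6) (nat_lit 389) (@Lb.t (@Lb.fm (nat_lit 9) t312)))))))))))
noncomputable def l3437 : Lb := (@Lb.r r21 (@Lb.d (nat_lit 10) (nat_lit 256) (nat_lit 2) (@Lb.g g8 (@Lb.g g10 (@Lb.r r667 (@Lb.r r2405 (@Lb.r r1178 (@Lb.r r1156 (@Lb.d (nat_lit 345) (nat_lit 65) (nat_lit 406) (@Lb.fp (nat_lit 3) t284))))))))))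
noncomputable def l3438 : Lb := (@Lb.d (nat_lit 5) (nat_lit 0) (nat_lit 2) (@Lb.g g4 (@Lb.g g9 (@Lb.g g10 (@Lb.r r679 (@Lb.r r1634 (@Lb.r r1553 (@Lb.d (nat_lit 609) (nat_lit 105) (nat_lit 657) (@Lb.t (@Lb.fm (nat_lit 9) t490))))))))))
noncomputable def l3439 : Lb := (@Lb.d (nat_lit 32) (nat_lit 512) (nat_lit 73) (@Lb.g g10 (@Lb.g g11 (@Lb.r r289 (@Lb.r r1380 (@Lb.r r2715 (@Lb.r r2634 (@Lb.d (nat_lit 338) (nat_lit 10) (nat_lit 257) (@Lb.fm (nat_lit 3) t167)))))))))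
noncomputable def l3440 : Lb := (@Lb.d (nat_lit 134) (nat_lit 288) (nat_lit 2) (@Lb.g g8 (@Lb.g g9 (@Lb.g g10 (@Lb.r r343 (@Lb.r r162 (@Lb.r r2712 (@Lb.r r165 (@Lb.d (nat_lit 37) (nat_lit 146) (nat_lit 425) (@Lb.t (@Lb.fp (nat_lit 9) t284)))))))))))
noncomputable def l3441 : Lb := (@Lb.d (nat_lit 0) (nat_lit 260) (nat_lit 1) (@Lb.g g6 (@Lb.d (nat_lit 0) (nat_lit 160) (nat_lit 261) (@Lb.t (@Lb.fm (nat_lit 3) t334)))))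
noncomputable def l3442 : Lb := (@Lb.g g10 (@Lb.g g7 (@Lb.r r386 (@Lb.r r2371 (@Lb.r r578 (@Lb.fm (nat_lit 3) t2))))))
noncomputable def l3443 : Lb := (@Lb.r r323 (@Lb.d (nat_lit 9) (nat_lit 546) (nat_lit 2) (@Lb.g g8 (@Lb.g g9 (@Lb.g g10 (@Lb.r r1367 (@Lb.r r2634 (@Lb.r r2600 (@Lb.r r153 (@Lb.d (nat_lit 22) (nat_lit 21) (nat_lit 297) (@Lb.t (@Lb.fp (nat_lit 9) t591))))))))))))
noncomputable def l3444 : Lb := (@Lb.r r323 (@Lb.d (nat_lit 138) (nat_lit 0) (nat_lit 2) (@Lb.g g8 (@Lb.g g10 (@Lb.r r346 (@Lb.r r661 (@Lb.r r1431 (@Lb.r r2632 (@Lb.d (nat_lit 362) (nat_lit 128) (nat_lit 258) (@Lb.fp (nat_lit 3) t71))))))))))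
noncomputable def l3445 : Lb := (@Lb.r r323 (@Lb.d (nat_lit 138) (nat_lit 512) (nat_lit 2) (@Lb.g g8 (@Lb.g g10 (@Lb.r r346 (@Lb.r r661 (@Lb.r r1431 (@Lb.r r2632 (@Lb.d (nat_lit 362) (nat_lit 133) (nat_lit 256) (@Lb.fp (nat_lit 3) t71))))))))))
noncomputable def l3446 : Lb := (@Lb.d (nat_lit 128) (nat_lit 8) (nat_lit 10) (@Lb.g g10 (@Lb.g g11 (@Lb.r r2409 (@Lb.r r1320 (@Lb.r r2583 (@Lb.r r2186 (@Lb.d (nat_lit 392) (nat_lit 34) (nat_lit 385) (@Lb.fm (nat_lit 3) t127)))))))))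
noncomputable def l3447 : Lb := (@Lb.r r323 (@Lb.d (nat_lit 0) (nat_lit 258) (nat_lit 1) (@Lb.g g9 (@Lb.g g6 (@Lb.r r387 (@Lb.r r97 (@Lb.d (nat_lit 5) (nat_lit 10) (nat_lit 66) (@Lb.fm (nat_lit 3) t285))))))))
noncomputable def l3448 : Lb := (@Lb.d (nat_lit 9) (nat_lit 257) (nat_lit 66) (@Lb.g g8 (@Lb.g g9 (@Lb.g g10 (@Lb.g g11 (@Lb.r r427 (@Lb.r r386 (@Lb.r r97 (@Lb.r r24 (@Lb.d (nat_lit 617) (nat_lit 9) (nat_lit 152) (@Lb.fm (nat_lit 9) t61)))))))))))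
noncomputable def l3449 : Lb := (@Lb.r r21 (@Lb.d (nat_lit 2) (nat_lit 512) (nat_lit 66) (@Lb.g g8 (@Lb.g g10 (@Lb.g g11 (@Lb.r r395 (@Lb.r r386 (@Lb.r r97 (@Lb.r r72 (@Lb.d (nat_lit 593) (nat_lit 10) (nat_lit 154) (@Lb.t (@Lb.fp (nat_lit 9) t61))))))))))))
noncomputable def l3450 : Lb := (@Lb.d (nat_lit 160) (nat_lit 514) (nat_lit 74) (@Lb.g g9 (@Lb.g g10 (@Lb.g g11 (@Lb.r r264 (@Lb.r r2343 (@Lb.r r2449 (@Lb.r r2130 (@Lb.d (nat_lit 537) (nat_lit 134) (nat_lit 266) (@Lb.t (@Lb.fp (nat_lit 9) t2)))))))))))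
noncomputable def l3451 : Lb := (@Lb.d (nat_lit 2) (nat_lit 258) (nat_lit 130) (@Lb.g g8 (@Lb.g g9 (@Lb.g g10 (@Lb.g g11 (@Lb.r r2411 (@Lb.r r386 (@Lb.r r97 (@Lb.r r24 (@Lb.d (nat_lit 266) (nat_lit 9) (nat_lit 152) (@Lb.fm (nat_lit 9) t61)))))))))))
noncomputable def l3452 : Lb := (@Lb.d (nat_lit 2) (nat_lit 294) (nat_lit 5) (@Lb.g g8 (@Lb.g g9 (@Lb.g g10 (@Lb.g g11 (@Lb.r r683 (@Lb.r r610 (@Lb.r r548 (@Lb.r r613 (@Lb.d (nat_lit 149) (nat_lit 150) (nat_lit 393) (@Lb.fp (nat_lit 9) t1117)))))))))))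
noncomputable def l3453 : Lb := (@Lb.d (nat_lit 4) (nat_lit 292) (nat_lit 5) (@Lb.g g8 (@Lb.g g9 (@Lb.g g10 (@Lb.g g11 (@Lb.r r1706 (@Lb.r r676 (@Lb.r r551 (@Lb.r r533 (@Lb.r r1060 (@Lb.d (nat_lit 393) (nat_lit 1) (nat_lit 640) (@Lb.fp (nat_lit 9) t264))))))))))))
noncomputable def l3454 : Lb := (@Lb.d (nat_lit 610) (nat_lit 256) (nat_lit 294) (@Lb.r r1608 (@Lb.r r402 (@Lb.r r85 (@Lb.g g8 (@Lb.d (nat_lit 5) (nat_lit 0) (nat_lit 0) (@Lb.t (@Lb.fp (nat_lit 3) t1118))))))))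
noncomputable def l3455 : Lb := (@Lb.d (nat_lit 0) (nat_lit 361) (nat_lit 356) (@Lb.r r402 (@Lb.g g7 (@Lb.d (nat_lit 0) (nat_lit 0) (nat_lit 68) (@Lb.t (@Lb.fp (nat_lit 3) t333))))))
noncomputable def l3456 : Lb := (@Lb.r r21 (@Lb.d (nat_lit 129) (nat_lit 0) (nat_lit 4) (@Lb.g g8 (@Lb.g g10 (@Lb.g g11 (@Lb.r r651 (@Lb.r r357 (@Lb.r r154 (@Lb.r r132 (@Lb.d (nat_lit 89) (nat_lit 25) (nat_lit 8) (@Lb.t (@Lb.fp (nat_lit 9) t74))))))))))))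
noncomputable def l3457 : Lb := (@Lb.d (nat_lit 0) (nat_lit 420) (nat_lit 262) (@Lb.fp (nat_lit 1) t1119))
noncomputable def l3458 : Lb := (@Lb.d (nat_lit 2) (nat_lit 38) (nat_lit 133) (@Lb.g g8 (@Lb.g g9 (@Lb.g g10 (@Lb.g g11 (@Lb.r r427 (@Lb.r r153 (@Lb.r r146 (@Lb.d (nat_lit 33) (nat_lit 41) (nat_lit 72) (@Lb.fm (nat_lit 9) t546))))))))))
noncomputable def l3459 : Lb := (@Lb.d (nat_lit 0) (nat_lit 36) (nat_lit 262) (@Lb.g g6 (@Lb.g g11 (@Lb.d (nat_lit 0) (nat_lit 133) (nat_lit 1) (@Lb.fp (nat_lit 3) t305)))))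
noncomputable def l3460 : Lb := (@Lb.r r263 (@Lb.d (nat_lit 2) (nat_lit 516) (nat_lit 0) (@Lb.g g8 (@Lb.g g9 (@Lb.g g10 (@Lb.r r683 (@Lb.r r168 (@Lb.r r106 (@Lb.r r25 (@Lb.d (nat_lit 42) (nat_lit 9) (nat_lit 5) (@Lb.t (@Lb.fm (nat_lit 9) t841))))))))))))
noncomputable def l3461 : Lb := (@Lb.r r21 (@Lb.d (nat_lit 146) (nat_lit 512) (nat_lit 5) (@Lb.g g8 (@Lb.g g10 (@Lb.g g11 (@Lb.r r651 (@Lb.r r357 (@Lb.r r154 (@Lb.r r516 (@Lb.d (nat_lit 137) (nat_lit 37) (nat_lit 137) (@Lb.t (@Lb.fp (nat_lit 9) t264))))))))))))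
noncomputable def l3462 : Lb := (@Lb.d (nat_lit 0) (nat_lit 420) (nat_lit 262) (@Lb.g g11 (@Lb.g g6 (@Lb.fp (nat_lit 3) t305))))
noncomputable def l3463 : Lb := (@Lb.d (nat_lit 5) (nat_lit 34) (nat_lit 132) (@Lb.g g4 (@Lb.g g9 (@Lb.g g10 (@Lb.g g11 (@Lb.r r679 (@Lb.r r610 (@Lb.r r529 (@Lb.d (nat_lit 104) (nat_lit 40) (nat_lit 129) (@Lb.fp (nat_lit 9) t50))))))))))
noncomputable def l3464 : Lb := (@Lb.d (nat_lit 5) (nat_lit 538) (nat_lit 128) (@Lb.r r597 (@Lb.r r279 (@Lb.r r612 (@Lb.g g10 (@Lb.g g5 (@Lb.d (nat_lit 20) (nat_lit 1) (nat_lit 10) (@Lb.r r387 (@Lb.fp (nat_lit 3) t1120)))))))))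
noncomputable def l3465 : Lb := (@Lb.d (nat_lit 6) (nat_lit 292) (nat_lit 5) (@Lb.g g8 (@Lb.g g9 (@Lb.g g10 (@Lb.g g11 (@Lb.r r683 (@Lb.r r616 (@Lb.r r86 (@Lb.r r165 (@Lb.r r20 (@Lb.d (nat_lit 41) (nat_lit 1) (nat_lit 137) (@Lb.fm (nat_lit 9) t264))))))))))))
noncomputable def l3466 : Lb := (@Lb.d (nat_lit 4) (nat_lit 2) (nat_lit 130) (@Lb.g g9 (@Lb.g g10 (@Lb.g g11 (@Lb.r r423 (@Lb.r r600 (@Lb.r r662 (@Lb.r r2393 (@Lb.d (nat_lit 580) (nat_lit 160) (nat_lit 261) (@Lb.t (@Lb.fm (nat_lit 9) t1121)))))))))))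
noncomputable def l3467 : Lb := (@Lb.d (nat_lit 129) (nat_lit 514) (nat_lit 4) (@Lb.g g8 (@Lb.g g9 (@Lb.g g10 (@Lb.g g11 (@Lb.r r419 (@Lb.r r164 (@Lb.r r2469 (@Lb.r r2150 (@Lb.r r1156 (@Lb.d (nat_lit 41) (nat_lit 97) (nat_lit 673) (@Lb.fm (nat_lit 9) t321))))))))))))
noncomputable def l3468 : Lb := (@Lb.d (nat_lit 129) (nat_lit 272) (nat_lit 2) (@Lb.g g8 (@Lb.g g9 (@Lb.g g10 (@Lb.g g11 (@Lb.r r419 (@Lb.r r386 (@Lb.r r105 (@Lb.r r516 (@Lb.d (nat_lit 101) (nat_lit 41) (nat_lit 136) (@Lb.fp (nat_lit 9) t31)))))))))))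
noncomputable def l3469 : Lb := (@Lb.d (nat_lit 129) (nat_lit 514) (nat_lit 130) (@Lb.g g8 (@Lb.g g9 (@Lb.g g10 (@Lb.g g11 (@Lb.r r578 (@Lb.r r345 (@Lb.r r359 (@Lb.r r536 (@Lb.d (nat_lit 66) (nat_lit 42) (nat_lit 129) (@Lb.fm (nat_lit 9) t238)))))))))))
noncomputable def l3470 : Lb := (@Lb.d (nat_lit 129) (nat_lit 258) (nat_lit 4) (@Lb.g g8 (@Lb.g g9 (@Lb.g g10 (@Lb.g g11 (@Lb.r r419 (@Lb.r r164 (@Lb.r r2469 (@Lb.r r2150 (@Lb.r r1156 (@Lb.d (nat_lit 42) (nat_lit 97) (nat_lit 673) (@Lb.fm (nat_lit 9) t168))))))))))))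
noncomputable def l3471 : Lb := (@Lb.d (nat_lit 101) (nat_lit 550) (nat_lit 101) (@Lb.r r408 (@Lb.r r330 (@Lb.r r343 (@Lb.g g5 (@Lb.g g4 (@Lb.d (nat_lit 18) (nat_lit 4) (nat_lit 0) (@Lb.r r291 (@Lb.r r98 (@Lb.fp (nat_lit 3) t50))))))))))
noncomputable def l3472 : Lb := (@Lb.d (nat_lit 24) (nat_lit 0) (nat_lit 74) (@Lb.g g8 (@Lb.g g10 (@Lb.g g11 (@Lb.r r1691 (@Lb.r r1602 (@Lb.r r21 (@Lb.r r2084 (@Lb.d (nat_lit 522) (nat_lit 26) (nat_lit 665) (@Lb.t (@Lb.fp (nat_lit 9) t50)))))))))))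
noncomputable def l3473 : Lb := (@Lb.g g8 (@Lb.d (nat_lit 1) (nat_lit 0) (nat_lit 0) (@Lb.t (@Lb.fp (nat_lit 3) t2))))
noncomputable def l3474 : Lb := (@Lb.d (nat_lit 8) (nat_lit 8) (nat_lit 1) (@Lb.g g8 (@Lb.g g10 (@Lb.r r2331 (@Lb.r r2129 (@Lb.r r1638 (@Lb.r r2436 (@Lb.d (nat_lit 617) (nat_lit 129) (nat_lit 530) (@Lb.fm (nat_lit 3) t386)))))))))
noncomputable def l3475 : Lb := (@Lb.d (nat_lit 2) (nat_lit 1) (nat_lit 130) (@Lb.g g8 (@Lb.g g9 (@Lb.g g10 (@Lb.g g11 (@Lb.r r363 (@Lb.r r386 (@Lb.r r1121 (@Lb.r r24 (@Lb.d (nat_lit 266) (nat_lit 137) (nat_lit 168) (@Lb.fm (nat_lit 9) t61)))))))))))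
noncomputable def l3476 : Lb := (@Lb.d (nat_lit 10) (nat_lit 520) (nat_lit 1) (@Lb.g g8 (@Lb.g g10 (@Lb.r r2331 (@Lb.r r2129 (@Lb.r r1638 (@Lb.r r2436 (@Lb.d (nat_lit 617) (nat_lit 129) (nat_lit 665) (@Lb.fm (nat_lit 3) t386)))))))))
noncomputable def l3477 : Lb := (@Lb.d (nat_lit 1) (nat_lit 520) (nat_lit 2) (@Lb.g g8 (@Lb.g g10 (@Lb.r r2579 (@Lb.r r2345 (@Lb.r r2468 (@Lb.r r2438 (@Lb.d (nat_lit 322) (nat_lit 10) (nat_lit 665) (@Lb.fp (nat_lit 3) t296)))))))))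
noncomputable def l3478 : Lb := (@Lb.r r323 (@Lb.d (nat_lit 0) (nat_lit 512) (nat_lit 1) (@Lb.g g6 (@Lb.r r387 (@Lb.d (nat_lit 0) (nat_lit 0) (nat_lit 66) (@Lb.t (@Lb.fm (nat_lit 3) t2)))))))
noncomputable def l3479 : Lb := (@Lb.d (nat_lit 8) (nat_lit 258) (nat_lit 128) (@Lb.g g9 (@Lb.g g10 (@Lb.g g11 (@Lb.r r1447 (@Lb.r r1414 (@Lb.r r24 (@Lb.d (nat_lit 522) (nat_lit 70) (nat_lit 17) (@Lb.t (@Lb.fm (nat_lit 9) t1122))))))))))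
noncomputable def l3480 : Lb := (@Lb.d (nat_lit 41) (nat_lit 0) (nat_lit 0) (@Lb.g g8 (@Lb.r r2395 (@Lb.r r614 (@Lb.r r1637 (@Lb.r r1428 (@Lb.d (nat_lit 358) (nat_lit 90) (nat_lit 394) (@Lb.t (@Lb.fm (nat_lit 3) t386)))))))))
noncomputable def l3481 : Lb := (@Lb.d (nat_lit 1) (nat_lit 2) (nat_lit 2) (@Lb.g g8 (@Lb.g g9 (@Lb.g g10 (@Lb.g g11 (@Lb.r r2411 (@Lb.r r386 (@Lb.r r97 (@Lb.r r24 (@Lb.d (nat_lit 256) (nat_lit 0) (nat_lit 84) (@Lb.fm (nat_lit 9) t61)))))))))))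
noncomputable def l3482 : Lb := (@Lb.r r100 (@Lb.r r410 (@Lb.r r21 (@Lb.r r2084 (@Lb.d (nat_lit 0) (nat_lit 256) (nat_lit 297) (@Lb.fm (nat_lit 1) t311))))))
noncomputable def l3483 : Lb := (@Lb.d (nat_lit 128) (nat_lit 512) (nat_lit 128) (@Lb.g g11 (@Lb.r r1300 (@Lb.r r2315 (@Lb.r r2178 (@Lb.r r2081 (@Lb.d (nat_lit 162) (nat_lit 132) (nat_lit 673) (@Lb.t (@Lb.fp (nat_lit 3) t1123)))))))))
noncomputable def l3484 : Lb := (@Lb.d (nat_lit 128) (nat_lit 512) (nat_lit 162) (@Lb.g g6 (@Lb.g g11 (@Lb.r r1300 (@Lb.r r2315 (@Lb.r r2081 (@Lb.d (nat_lit 384) (nat_lit 130) (nat_lit 674) (@Lb.fm (nat_lit 3) t1124))))))))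
noncomputable def l3485 : Lb := (@Lb.r r82 (@Lb.d (nat_lit 0) (nat_lit 514) (nat_lit 128) (@Lb.g g9 (@Lb.g g11 (@Lb.r r2475 (@Lb.r r2442 (@Lb.r r2456 (@Lb.r r101 (@Lb.d (nat_lit 9) (nat_lit 66) (nat_lit 2) (@Lb.fp (nat_lit 3) t1125))))))))))
noncomputable def l3486 : Lb := (@Lb.d (nat_lit 1) (nat_lit 2) (nat_lit 130) (@Lb.g g8 (@Lb.g g9 (@Lb.g g10 (@Lb.g g11 (@Lb.r r582 (@Lb.r r388 (@Lb.r r1323 (@Lb.r r1313 (@Lb.d (nat_lit 9) (nat_lit 68) (nat_lit 385) (@Lb.fm (nat_lit 9) t119)))))))))))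
noncomputable def l3487 : Lb := (@Lb.r r85 (@Lb.r r323 (@Lb.d (nat_lit 10) (nat_lit 8) (nat_lit 0) (@Lb.g g8 (@Lb.g g10 (@Lb.r r2197 (@Lb.r r424 (@Lb.r r2439 (@Lb.d (nat_lit 0) (nat_lit 106) (nat_lit 338) (@Lb.fp (nat_lit 3) t344))))))))))
noncomputable def l3488 : Lb := (@Lb.r r21 (@Lb.r r70 (@Lb.d (nat_lit 657) (nat_lit 288) (nat_lit 64) (@Lb.g g4 (@Lb.g g11 (@Lb.r r345 (@Lb.r r1315 (@Lb.r r2182 (@Lb.d (nat_lit 1) (nat_lit 106) (nat_lit 417) (@Lb.fm (nat_lit 3) t789))))))))))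
noncomputable def l3489 : Lb := (@Lb.d (nat_lit 0) (nat_lit 2) (nat_lit 66) (@Lb.g g9 (@Lb.g g10 (@Lb.g g11 (@Lb.r r1443 (@Lb.r r386 (@Lb.r r97 (@Lb.r r36 (@Lb.d (nat_lit 5) (nat_lit 24) (nat_lit 393) (@Lb.t (@Lb.fm (nat_lit 9) t309)))))))))))
noncomputable def l3490 : Lb := (@Lb.d (nat_lit 390) (nat_lit 662) (nat_lit 546) (@Lb.r r2325 (@Lb.r r2390 (@Lb.r r683 (@Lb.g g7 (@Lb.g g6 (@Lb.g g5 (@Lb.g g4 (@Lb.d (nat_lit 8) (nat_lit 17) (nat_lit 65) (@Lb.fm (nat_lit 9) t309))))))))))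
noncomputable def l3491 : Lb := (@Lb.d (nat_lit 356) (nat_lit 520) (nat_lit 518) (@Lb.r r1048 (@Lb.r r667 (@Lb.r r2405 (@Lb.g g7 (@Lb.g g6 (@Lb.d (nat_lit 32) (nat_lit 16) (nat_lit 150) (@Lb.r r388 (@Lb.fp (nat_lit 3) t994)))))))))
noncomputable def l3492 : Lb := (@Lb.r r21 (@Lb.d (nat_lit 2) (nat_lit 0) (nat_lit 130) (@Lb.g g8 (@Lb.g g10 (@Lb.g g11 (@Lb.r r2379 (@Lb.r r386 (@Lb.r r97 (@Lb.r r72 (@Lb.d (nat_lit 290) (nat_lit 10) (nat_lit 154) (@Lb.t (@Lb.fp (nat_lit 9) t61))))))))))))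
noncomputable def l3493 : Lb := (@Lb.g g8 (@Lb.g g7 (@Lb.r r402 (@Lb.r r101 (@Lb.r r24 (@Lb.d (nat_lit 256) (nat_lit 512) (nat_lit 576) (@Lb.fm (nat_lit 3) t145)))))))
noncomputable def l3494 : Lb := (@Lb.r r82 (@Lb.r r275 (@Lb.d (nat_lit 8) (nat_lit 298) (nat_lit 0) (@Lb.g g5 (@Lb.r r680 (@Lb.r r427 (@Lb.r r418 (@Lb.r r421 (@Lb.d (nat_lit 149) (nat_lit 25) (nat_lit 153) (@Lb.t (@Lb.fp (nat_lit 3) t1126)))))))))))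
noncomputable def l3495 : Lb := (@Lb.d (nat_lit 32) (nat_lit 0) (nat_lit 130) (@Lb.g g10 (@Lb.g g11 (@Lb.r r545 (@Lb.r r299 (@Lb.r r100 (@Lb.r r410 (@Lb.d (nat_lit 138) (nat_lit 21) (nat_lit 136) (@Lb.fm (nat_lit 3) t167)))))))))
noncomputable def l3496 : Lb := (@Lb.d (nat_lit 128) (nat_lit 16) (nat_lit 386) (@Lb.g g10 (@Lb.g g11 (@Lb.r r161 (@Lb.r r98 (@Lb.r r1416 (@Lb.d (nat_lit 272) (nat_lit 8) (nat_lit 145) (@Lb.fm (nat_lit 3) t1127))))))))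
noncomputable def l3497 : Lb := (@Lb.d (nat_lit 0) (nat_lit 129) (nat_lit 596) (@Lb.r r275 (@Lb.r r601 (@Lb.r r24 (@Lb.g g7 (@Lb.g g10 (@Lb.d (nat_lit 80) (nat_lit 0) (nat_lit 80) (@Lb.fm (nat_lit 3) t998))))))))
noncomputable def l3498 : Lb := (@Lb.d (nat_lit 138) (nat_lit 33) (nat_lit 64) (@Lb.r r553 (@Lb.r r618 (@Lb.r r535 (@Lb.g g7 (@Lb.g g5 (@Lb.g g4 (@Lb.d (nat_lit 1) (nat_lit 34) (nat_lit 0) (@Lb.r r98 (@Lb.t (@Lb.fp (nat_lit 9) t68)))))))))))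
noncomputable def l3499 : Lb := (@Lb.r r323 (@Lb.d (nat_lit 0) (nat_lit 522) (nat_lit 0) (@Lb.g g9 (@Lb.g g10 (@Lb.r r106 (@Lb.r r584 (@Lb.r r299 (@Lb.r r289 (@Lb.d (nat_lit 10) (nat_lit 2) (nat_lit 64) (@Lb.fm (nat_lit 3) t888))))))))))
noncomputable def l3500 : Lb := (@Lb.r r323 (@Lb.d (nat_lit 0) (nat_lit 10) (nat_lit 0) (@Lb.g g9 (@Lb.g g10 (@Lb.r r106 (@Lb.r r584 (@Lb.r r299 (@Lb.r r289 (@Lb.d (nat_lit 1) (nat_lit 0) (nat_lit 64) (@Lb.fm (nat_lit 3) t1128))))))))))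
noncomputable def l3501 : Lb := (@Lb.d (nat_lit 2) (nat_lit 258) (nat_lit 130) (@Lb.g g8 (@Lb.g g9 (@Lb.g g10 (@Lb.g g11 (@Lb.r r2729 (@Lb.r r2475 (@Lb.r r2468 (@Lb.r r2438 (@Lb.d (nat_lit 610) (nat_lit 10) (nat_lit 657) (@Lb.fp (nat_lit 9) t311)))))))))))
noncomputable def l3502 : Lb := (@Lb.r r1092 (@Lb.d (nat_lit 0) (nat_lit 66) (nat_lit 2) (@Lb.g g9 (@Lb.g g10 (@Lb.r r2723 (@Lb.r r1634 (@Lb.d (nat_lit 0) (nat_lit 153) (nat_lit 9) (@Lb.fp (nat_lit 3) t1129))))))))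
noncomputable def l3503 : Lb := (@Lb.r r323 (@Lb.d (nat_lit 2) (nat_lit 2) (nat_lit 2) (@Lb.g g8 (@Lb.g g9 (@Lb.g g10 (@Lb.r r401 (@Lb.r r299 (@Lb.r r392 (@Lb.r r74 (@Lb.d (nat_lit 33) (nat_lit 10) (nat_lit 138) (@Lb.t (@Lb.fp (nat_lit 9) t61))))))))))))
noncomputable def l3504 : Lb := (@Lb.d (nat_lit 262) (nat_lit 165) (nat_lit 104) (@Lb.r r90 (@Lb.r r72 (@Lb.r r297 (@Lb.r r2395 (@Lb.g g7 (@Lb.g g6 (@Lb.g g5 (@Lb.d (nat_lit 16) (nat_lit 1) (nat_lit 65) (@Lb.t (@Lb.fp (nat_lit 9) t1130)))))))))))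
noncomputable def l3505 : Lb := (@Lb.d (nat_lit 2) (nat_lit 514) (nat_lit 130) (@Lb.g g8 (@Lb.g g9 (@Lb.g g10 (@Lb.g g11 (@Lb.r r2729 (@Lb.r r2475 (@Lb.r r2468 (@Lb.r r2438 (@Lb.d (nat_lit 609) (nat_lit 10) (nat_lit 657) (@Lb.fp (nat_lit 9) t311)))))))))))
noncomputable def l3506 : Lb := (@Lb.g g9 (@Lb.d (nat_lit 0) (nat_lit 522) (nat_lit 2) (@Lb.t (@Lb.fp (nat_lit 3) t21))))
noncomputable def l3507 : Lb := (@Lb.d (nat_lit 10) (nat_lit 256) (nat_lit 128) (@Lb.g g8 (@Lb.g g11 (@Lb.r r2370 (@Lb.r r1435 (@Lb.r r2581 (@Lb.r r292 (@Lb.d (nat_lit 74) (nat_lit 160) (nat_lit 162) (@Lb.fm (nat_lit 3) t680)))))))))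
noncomputable def l3508 : Lb := (@Lb.d (nat_lit 10) (nat_lit 512) (nat_lit 72) (@Lb.g g8 (@Lb.g g11 (@Lb.r r2370 (@Lb.r r1435 (@Lb.r r2581 (@Lb.r r292 (@Lb.d (nat_lit 74) (nat_lit 105) (nat_lit 161) (@Lb.fm (nat_lit 3) t680)))))))))
noncomputable def l3509 : Lb := (@Lb.r r82 (@Lb.r r275 (@Lb.d (nat_lit 2) (nat_lit 0) (nat_lit 0) (@Lb.g g8 (@Lb.g g9 (@Lb.r r299 (@Lb.r r106 (@Lb.r r25 (@Lb.d (nat_lit 282) (nat_lit 2) (nat_lit 16) (@Lb.fm (nat_lit 3) t1131))))))))))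
noncomputable def l3510 : Lb := (@Lb.r r21 (@Lb.d (nat_lit 33) (nat_lit 256) (nat_lit 130) (@Lb.g g8 (@Lb.g g10 (@Lb.g g11 (@Lb.r r2715 (@Lb.r r2457 (@Lb.r r2138 (@Lb.r r2372 (@Lb.d (nat_lit 521) (nat_lit 34) (nat_lit 336) (@Lb.t (@Lb.fp (nat_lit 9) t525))))))))))))
noncomputable def l3511 : Lb := (@Lb.r r323 (@Lb.d (nat_lit 0) (nat_lit 297) (nat_lit 17) (@Lb.g g9 (@Lb.g g10 (@Lb.r r595 (@Lb.r r405 (@Lb.r r8 (@Lb.d (nat_lit 266) (nat_lit 26) (nat_lit 168) (@Lb.fm (nat_lit 3) t1132)))))))))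
noncomputable def l3512 : Lb := (@Lb.d (nat_lit 102) (nat_lit 257) (nat_lit 648) (@Lb.r r24 (@Lb.r r97 (@Lb.r r386 (@Lb.r r1431 (@Lb.g g6 (@Lb.g g5 (@Lb.g g4 (@Lb.d (nat_lit 2) (nat_lit 1) (nat_lit 1) (@Lb.t (@Lb.fm (nat_lit 9) t1133)))))))))))
noncomputable def l3513 : Lb := (@Lb.d (nat_lit 2) (nat_lit 265) (nat_lit 161) (@Lb.g g8 (@Lb.g g9 (@Lb.g g6 (@Lb.g g11 (@Lb.r r2667 (@Lb.r r97 (@Lb.r r2584 (@Lb.d (nat_lit 585) (nat_lit 169) (nat_lit 384) (@Lb.fp (nat_lit 9) t1095))))))))))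
noncomputable def l3514 : Lb := (@Lb.r r21 (@Lb.d (nat_lit 33) (nat_lit 512) (nat_lit 130) (@Lb.g g8 (@Lb.g g10 (@Lb.g g11 (@Lb.r r2715 (@Lb.r r2457 (@Lb.r r2138 (@Lb.r r2372 (@Lb.d (nat_lit 521) (nat_lit 34) (nat_lit 272) (@Lb.t (@Lb.fp (nat_lit 9) t1134))))))))))))
noncomputable def l3515 : Lb := (@Lb.d (nat_lit 0) (nat_lit 256) (nat_lit 73) (@Lb.g g10 (@Lb.g g11 (@Lb.r r2691 (@Lb.r r2658 (@Lb.r r101 (@Lb.r r24 (@Lb.d (nat_lit 576) (nat_lit 0) (nat_lit 320) (@Lb.fp (nat_lit 3) t145)))))))))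
noncomputable def l3516 : Lb := (@Lb.d (nat_lit 0) (nat_lit 0) (nat_lit 128) (@Lb.g g6 (@Lb.g g7 (@Lb.fm (nat_lit 3) t2))))
noncomputable def l3517 : Lb := (@Lb.d (nat_lit 42) (nat_lit 512) (nat_lit 0) (@Lb.g g8 (@Lb.r r2395 (@Lb.r r614 (@Lb.r r1637 (@Lb.r r1428 (@Lb.d (nat_lit 358) (nat_lit 90) (nat_lit 425) (@Lb.t (@Lb.fm (nat_lit 3) t386)))))))))
noncomputable def l3518 : Lb := (@Lb.r r2311 (@Lb.d (nat_lit 257) (nat_lit 256) (nat_lit 0) (@Lb.fp (nat_lit 1) t469)))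
noncomputable def l3519 : Lb := (@Lb.d (nat_lit 42) (nat_lit 256) (nat_lit 0) (@Lb.g g4 (@Lb.r r2391 (@Lb.r r618 (@Lb.r r1641 (@Lb.r r2664 (@Lb.d (nat_lit 665) (nat_lit 165) (nat_lit 596) (@Lb.t (@Lb.fm (nat_lit 3) t386)))))))))
noncomputable def l3520 : Lb := (@Lb.d (nat_lit 0) (nat_lit 256) (nat_lit 74) (@Lb.g g10 (@Lb.g g11 (@Lb.r r1691 (@Lb.r r2401 (@Lb.r r1174 (@Lb.r r8 (@Lb.d (nat_lit 21) (nat_lit 73) (nat_lit 18) (@Lb.fm (nat_lit 3) t646)))))))))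
noncomputable def l3521 : Lb := (@Lb.r r323 (@Lb.d (nat_lit 2) (nat_lit 34) (nat_lit 2) (@Lb.g g8 (@Lb.g g9 (@Lb.g g10 (@Lb.r r599 (@Lb.r r1702 (@Lb.r r1444 (@Lb.r r149 (@Lb.d (nat_lit 289) (nat_lit 166) (nat_lit 385) (@Lb.t (@Lb.fm (nat_lit 9) t1089))))))))))))
noncomputable def l3522 : Lb := (@Lb.r r323 (@Lb.d (nat_lit 2) (nat_lit 2) (nat_lit 2) (@Lb.g g8 (@Lb.g g9 (@Lb.g g10 (@Lb.r r401 (@Lb.r r299 (@Lb.r r392 (@Lb.r r74 (@Lb.d (nat_lit 33) (nat_lit 10) (nat_lit 152) (@Lb.t (@Lb.fp (nat_lit 9) t221))))))))))))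
noncomputable def l3523 : Lb := (@Lb.r r323 (@Lb.d (nat_lit 138) (nat_lit 256) (nat_lit 2) (@Lb.g g8 (@Lb.g g10 (@Lb.r r346 (@Lb.r r661 (@Lb.r r1431 (@Lb.r r2632 (@Lb.d (nat_lit 361) (nat_lit 65) (nat_lit 258) (@Lb.fp (nat_lit 3) t71))))))))))
noncomputable def l3524 : Lb := (@Lb.d (nat_lit 642) (nat_lit 514) (nat_lit 0) (@Lb.g g8 (@Lb.g g9 (@Lb.r r25 (@Lb.d (nat_lit 9) (nat_lit 0) (nat_lit 384) (@Lb.fm (nat_lit 3) t1135))))))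
noncomputable def l3525 : Lb := (@Lb.d (nat_lit 2) (nat_lit 258) (nat_lit 130) (@Lb.g g8 (@Lb.g g9 (@Lb.g g10 (@Lb.g g11 (@Lb.r r427 (@Lb.r r420 (@Lb.r r102 (@Lb.r r97 (@Lb.r r36 (@Lb.d (nat_lit 9) (nat_lit 137) (nat_lit 137) (@Lb.fm (nat_lit 9) t51))))))))))))
noncomputable def l3526 : Lb := (@Lb.d (nat_lit 658) (nat_lit 416) (nat_lit 665) (@Lb.r r146 (@Lb.r r1365 (@Lb.g g7 (@Lb.g g5 (@Lb.g g4 (@Lb.d (nat_lit 1) (nat_lit 18) (nat_lit 64) (@Lb.r r578 (@Lb.t (@Lb.fm (nat_lit 9) t375))))))))))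
noncomputable def l3527 : Lb := (@Lb.g g9 (@Lb.r r2343 (@Lb.r r1096 (@Lb.r r2646 (@Lb.r r289 (@Lb.d (nat_lit 0) (nat_lit 69) (nat_lit 138) (@Lb.t (@Lb.fp (nat_lit 3) t219))))))))
noncomputable def l3528 : Lb := (@Lb.r r82 (@Lb.d (nat_lit 34) (nat_lit 2) (nat_lit 136) (@Lb.g g8 (@Lb.g g9 (@Lb.g g11 (@Lb.r r1362 (@Lb.r r2645 (@Lb.r r356 (@Lb.r r395 (@Lb.d (nat_lit 545) (nat_lit 34) (nat_lit 680) (@Lb.t (@Lb.fm (nat_lit 9) t98))))))))))))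
noncomputable def l3529 : Lb := (@Lb.d (nat_lit 42) (nat_lit 512) (nat_lit 0) (@Lb.g g8 (@Lb.g g11 (@Lb.r r1703 (@Lb.r r614 (@Lb.r r1637 (@Lb.r r1428 (@Lb.d (nat_lit 358) (nat_lit 90) (nat_lit 408) (@Lb.fm (nat_lit 3) t386)))))))))
noncomputable def l3530 : Lb := (@Lb.r r331 (@Lb.d (nat_lit 673) (nat_lit 514) (nat_lit 2) (@Lb.g g8 (@Lb.g g9 (@Lb.g g10 (@Lb.r r362 (@Lb.r r1411 (@Lb.r r25 (@Lb.d (nat_lit 9) (nat_lit 161) (nat_lit 618) (@Lb.t (@Lb.fm (nat_lit 9) t394)))))))))))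
noncomputable def l3531 : Lb := (@Lb.d (nat_lit 0) (nat_lit 256) (nat_lit 40) (@Lb.g g6 (@Lb.g g11 (@Lb.r r579 (@Lb.d (nat_lit 0) (nat_lit 0) (nat_lit 154) (@Lb.fm (nat_lit 3) t2))))))
noncomputable def l3532 : Lb := (@Lb.d (nat_lit 42) (nat_lit 0) (nat_lit 64) (@Lb.g g8 (@Lb.g g11 (@Lb.r r1703 (@Lb.r r614 (@Lb.r r1637 (@Lb.r r1428 (@Lb.d (nat_lit 358) (nat_lit 80) (nat_lit 409) (@Lb.fm (nat_lit 3) t386)))))))))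
noncomputable def l3533 : Lb := (@Lb.d (nat_lit 0) (nat_lit 0) (nat_lit 130) (@Lb.g g9 (@Lb.g g10 (@Lb.g g11 (@Lb.r r2691 (@Lb.r r2657 (@Lb.r r1686 (@Lb.r r1096 (@Lb.d (nat_lit 581) (nat_lit 161) (nat_lit 320) (@Lb.t (@Lb.fm (nat_lit 9) t807)))))))))))
noncomputable def l3534 : Lb := (@Lb.d (nat_lit 682) (nat_lit 74) (nat_lit 325) (@Lb.r r1604 (@Lb.r r535 (@Lb.r r353 (@Lb.g g7 (@Lb.g g6 (@Lb.g g4 (@Lb.d (nat_lit 5) (nat_lit 16) (nat_lit 20) (@Lb.t (@Lb.fp (nat_lit 9) t1136))))))))))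
noncomputable def l3535 : Lb := (@Lb.d (nat_lit 160) (nat_lit 264) (nat_lit 128) (@Lb.g g10 (@Lb.g g11 (@Lb.r r260 (@Lb.r r2667 (@Lb.r r1633 (@Lb.r r338 (@Lb.d (nat_lit 72) (nat_lit 85) (nat_lit 262) (@Lb.fm (nat_lit 3) t322)))))))))
noncomputable def l3536 : Lb := (@Lb.d (nat_lit 128) (nat_lit 288) (nat_lit 136) (@Lb.g g11 (@Lb.r r420 (@Lb.r r2469 (@Lb.r r1446 (@Lb.r r347 (@Lb.d (nat_lit 296) (nat_lit 22) (nat_lit 646) (@Lb.t (@Lb.fp (nat_lit 3) t322)))))))))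
noncomputable def l3537 : Lb := (@Lb.d (nat_lit 6) (nat_lit 0) (nat_lit 128) (@Lb.g g4 (@Lb.g g11 (@Lb.r r346 (@Lb.r r1447 (@Lb.r r1317 (@Lb.d (nat_lit 1) (nat_lit 138) (nat_lit 662) (@Lb.fm (nat_lit 3) t327))))))))
noncomputable def l3538 : Lb := (@Lb.d (nat_lit 146) (nat_lit 9) (nat_lit 73) (@Lb.g g8 (@Lb.g g9 (@Lb.g g10 (@Lb.g g11 (@Lb.r r683 (@Lb.r r2410 (@Lb.r r1561 (@Lb.r r1540 (@Lb.d (nat_lit 393) (nat_lit 153) (nat_lit 5) (@Lb.fm (nat_lit 9) t328)))))))))))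
noncomputable def l3539 : Lb := (@Lb.r r21 (@Lb.r r263 (@Lb.d (nat_lit 0) (nat_lit 512) (nat_lit 2) (@Lb.g g8 (@Lb.g g10 (@Lb.r r644 (@Lb.r r2647 (@Lb.r r386 (@Lb.r r97 (@Lb.d (nat_lit 0) (nat_lit 5) (nat_lit 597) (@Lb.fp (nat_lit 3) t19)))))))))))
noncomputable def l3540 : Lb := (@Lb.d (nat_lit 2) (nat_lit 593) (nat_lit 593) (@Lb.r r2182 (@Lb.r r2323 (@Lb.r r661 (@Lb.g g7 (@Lb.g g8 (@Lb.d (nat_lit 352) (nat_lit 16) (nat_lit 128) (@Lb.r r74 (@Lb.r r25 (@Lb.fm (nat_lit 3) t329))))))))))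
noncomputable def l3541 : Lb := (@Lb.d (nat_lit 36) (nat_lit 512) (nat_lit 128) (@Lb.g g8 (@Lb.g g9 (@Lb.g g11 (@Lb.r r406 (@Lb.r r1643 (@Lb.r r97 (@Lb.r r1560 (@Lb.d (nat_lit 73) (nat_lit 105) (nat_lit 550) (@Lb.t (@Lb.fm (nat_lit 9) t564)))))))))))
noncomputable def l3542 : Lb := (@Lb.d (nat_lit 2) (nat_lit 513) (nat_lit 128) (@Lb.g g8 (@Lb.g g9 (@Lb.g g11 (@Lb.r r134 (@Lb.r r584 (@Lb.r r603 (@Lb.r r401 (@Lb.d (nat_lit 8) (nat_lit 34) (nat_lit 136) (@Lb.t (@Lb.fp (nat_lit 9) t71)))))))))))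
noncomputable def l3543 : Lb := (@Lb.d (nat_lit 4) (nat_lit 522) (nat_lit 129) (@Lb.g g8 (@Lb.g g9 (@Lb.g g10 (@Lb.g g11 (@Lb.r r2459 (@Lb.r r297 (@Lb.r r1384 (@Lb.r r2630 (@Lb.d (nat_lit 665) (nat_lit 73) (nat_lit 358) (@Lb.fp (nat_lit 9) t539)))))))))))
noncomputable def l3544 : Lb := (@Lb.d (nat_lit 418) (nat_lit 554) (nat_lit 329) (@Lb.r r85 (@Lb.r r40 (@Lb.r r2374 (@Lb.r r1707 (@Lb.g g7 (@Lb.g g6 (@Lb.g g5 (@Lb.d (nat_lit 0) (nat_lit 9) (nat_lit 133) (@Lb.t (@Lb.fp (nat_lit 9) t1137)))))))))))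
noncomputable def l3545 : Lb := (@Lb.d (nat_lit 360) (nat_lit 24) (nat_lit 425) (@Lb.r r1109 (@Lb.r r2088 (@Lb.r r2374 (@Lb.r r619 (@Lb.g g7 (@Lb.g g6 (@Lb.g g5 (@Lb.d (nat_lit 0) (nat_lit 25) (nat_lit 5) (@Lb.t (@Lb.fp (nat_lit 9) t986)))))))))))
noncomputable def l3546 : Lb := (@Lb.d (nat_lit 0) (nat_lit 512) (nat_lit 130) (@Lb.g g8 (@Lb.g g10 (@Lb.g g11 (@Lb.r r602 (@Lb.r r1611 (@Lb.r r149 (@Lb.r r1636 (@Lb.d (nat_lit 517) (nat_lit 25) (nat_lit 2) (@Lb.t (@Lb.fp (nat_lit 9) t461)))))))))))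
noncomputable def l3547 : Lb := (@Lb.d (nat_lit 2) (nat_lit 528) (nat_lit 2) (@Lb.g g8 (@Lb.g g9 (@Lb.g g10 (@Lb.g g11 (@Lb.r r2474 (@Lb.r r1623 (@Lb.r r1365 (@Lb.r r24 (@Lb.d (nat_lit 161) (nat_lit 169) (nat_lit 342) (@Lb.fm (nat_lit 9) t1138)))))))))))
noncomputable def l3548 : Lb := (@Lb.d (nat_lit 0) (nat_lit 0) (nat_lit 136) (@Lb.g g11 (@Lb.d (nat_lit 0) (nat_lit 0) (nat_lit 137) (@Lb.t (@Lb.fp (nat_lit 3) t2)))))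
noncomputable def l3549 : Lb := (@Lb.r r323 (@Lb.d (nat_lit 0) (nat_lit 512) (nat_lit 41) (@Lb.g g6 (@Lb.r r387 (@Lb.d (nat_lit 0) (nat_lit 0) (nat_lit 85) (@Lb.t (@Lb.fm (nat_lit 3) t2)))))))
noncomputable def l3550 : Lb := (@Lb.d (nat_lit 40) (nat_lit 258) (nat_lit 136) (@Lb.g g9 (@Lb.g g10 (@Lb.g g11 (@Lb.r r1355 (@Lb.r r1348 (@Lb.r r2394 (@Lb.r r409 (@Lb.d (nat_lit 577) (nat_lit 130) (nat_lit 330) (@Lb.t (@Lb.fm (nat_lit 9) t1087)))))))))))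
noncomputable def l3551 : Lb := (@Lb.d (nat_lit 289) (nat_lit 258) (nat_lit 1) (@Lb.g g8 (@Lb.g g9 (@Lb.g g10 (@Lb.g g11 (@Lb.r r1642 (@Lb.r r579 (@Lb.r r25 (@Lb.d (nat_lit 9) (nat_lit 161) (nat_lit 384) (@Lb.fm (nat_lit 9) t125))))))))))
noncomputable def l3552 : Lb := (@Lb.r r323 (@Lb.d (nat_lit 289) (nat_lit 2) (nat_lit 2) (@Lb.g g8 (@Lb.g g9 (@Lb.g g10 (@Lb.r r1642 (@Lb.r r579 (@Lb.r r25 (@Lb.d (nat_lit 9) (nat_lit 161) (nat_lit 261) (@Lb.t (@Lb.fp (nat_lit 9) t125)))))))))))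
noncomputable def l3553 : Lb := (@Lb.r r21 (@Lb.d (nat_lit 18) (nat_lit 520) (nat_lit 128) (@Lb.g g4 (@Lb.g g10 (@Lb.g g11 (@Lb.r r1703 (@Lb.r r2137 (@Lb.r r1446 (@Lb.d (nat_lit 104) (nat_lit 166) (nat_lit 425) (@Lb.t (@Lb.fp (nat_lit 9) t601)))))))))))
noncomputable def l3554 : Lb := (@Lb.d (nat_lit 0) (nat_lit 4) (nat_lit 1) (@Lb.g g6 (@Lb.r r101 (@Lb.d (nat_lit 6) (nat_lit 0) (nat_lit 1) (@Lb.t (@Lb.fp (nat_lit 3) t983))))))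
noncomputable def l3555 : Lb := (@Lb.d (nat_lit 0) (nat_lit 256) (nat_lit 10) (@Lb.g g10 (@Lb.r r24 (@Lb.r r101 (@Lb.d (nat_lit 0) (nat_lit 133) (nat_lit 128) (@Lb.t (@Lb.fp (nat_lit 3) t126)))))))
noncomputable def l3556 : Lb := (@Lb.d (nat_lit 594) (nat_lit 22) (nat_lit 72) (@Lb.r r24 (@Lb.r r665 (@Lb.r r2411 (@Lb.g g7 (@Lb.g g10 (@Lb.g g5 (@Lb.g g4 (@Lb.d (nat_lit 1) (nat_lit 42) (nat_lit 17) (@Lb.fp (nat_lit 9) t394))))))))))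
noncomputable def l3557 : Lb := (@Lb.d (nat_lit 16) (nat_lit 256) (nat_lit 152) (@Lb.g g10 (@Lb.g g11 (@Lb.d (nat_lit 33) (nat_lit 0) (nat_lit 34) (@Lb.fm (nat_lit 3) t1139)))))
noncomputable def l3558 : Lb := (@Lb.d (nat_lit 149) (nat_lit 129) (nat_lit 408) (@Lb.r r2452 (@Lb.r r146 (@Lb.r r1691 (@Lb.r r337 (@Lb.g g7 (@Lb.g g5 (@Lb.d (nat_lit 0) (nat_lit 1) (nat_lit 64) (@Lb.r r98 (@Lb.fm (nat_lit 3) t1140))))))))))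
noncomputable def l3559 : Lb := (@Lb.r r322 (@Lb.d (nat_lit 2) (nat_lit 266) (nat_lit 576) (@Lb.g g8 (@Lb.g g9 (@Lb.g g7 (@Lb.r r594 (@Lb.r r2721 (@Lb.r r1096 (@Lb.d (nat_lit 546) (nat_lit 166) (nat_lit 613) (@Lb.t (@Lb.fp (nat_lit 9) t473)))))))))))
noncomputable def l3560 : Lb := (@Lb.d (nat_lit 1) (nat_lit 2) (nat_lit 130) (@Lb.g g8 (@Lb.g g9 (@Lb.g g10 (@Lb.g g11 (@Lb.r r1443 (@Lb.r r168 (@Lb.r r2473 (@Lb.r r2154 (@Lb.r r1060 (@Lb.d (nat_lit 545) (nat_lit 33) (nat_lit 601) (@Lb.fp (nat_lit 9) t216))))))))))))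
noncomputable def l3561 : Lb := (@Lb.r r21 (@Lb.r r263 (@Lb.d (nat_lit 658) (nat_lit 8) (nat_lit 0) (@Lb.g g4 (@Lb.g g10 (@Lb.r r2645 (@Lb.r r403 (@Lb.r r2374 (@Lb.d (nat_lit 594) (nat_lit 69) (nat_lit 660) (@Lb.fp (nat_lit 3) t1141))))))))))
noncomputable def l3562 : Lb := (@Lb.d (nat_lit 8) (nat_lit 6) (nat_lit 128) (@Lb.g g8 (@Lb.g g9 (@Lb.g g10 (@Lb.g g11 (@Lb.r r1443 (@Lb.r r168 (@Lb.r r2473 (@Lb.r r2154 (@Lb.r r1060 (@Lb.d (nat_lit 545) (nat_lit 33) (nat_lit 601) (@Lb.fp (nat_lit 9) t1142))))))))))))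
noncomputable def l3563 : Lb := (@Lb.r r21 (@Lb.r r263 (@Lb.d (nat_lit 16) (nat_lit 0) (nat_lit 2) (@Lb.g g8 (@Lb.g g10 (@Lb.r r2371 (@Lb.r r138 (@Lb.r r2201 (@Lb.r r2180 (@Lb.d (nat_lit 514) (nat_lit 0) (nat_lit 2) (@Lb.fp (nat_lit 3) t1143)))))))))))
noncomputable def l3564 : Lb := (@Lb.g g7 (@Lb.r r24 (@Lb.r r101 (@Lb.r r402 (@Lb.r r1379 (@Lb.d (nat_lit 0) (nat_lit 576) (nat_lit 0) (@Lb.t (@Lb.fp (nat_lit 3) t867))))))))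
noncomputable def l3565 : Lb := (@Lb.d (nat_lit 0) (nat_lit 256) (nat_lit 10) (@Lb.g g10 (@Lb.r r24 (@Lb.d (nat_lit 2) (nat_lit 8) (nat_lit 130) (@Lb.t (@Lb.fm (nat_lit 3) t21))))))
noncomputable def l3566 : Lb := (@Lb.r r82 (@Lb.r r283 (@Lb.d (nat_lit 410) (nat_lit 138) (nat_lit 0) (@Lb.g g4 (@Lb.g g9 (@Lb.r r1555 (@Lb.r r146 (@Lb.d (nat_lit 1) (nat_lit 130) (nat_lit 682) (@Lb.fp (nat_lit 3) t1144)))))))))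
noncomputable def l3567 : Lb := (@Lb.r r82 (@Lb.d (nat_lit 42) (nat_lit 288) (nat_lit 64) (@Lb.g g8 (@Lb.g g9 (@Lb.g g11 (@Lb.r r1571 (@Lb.r r582 (@Lb.r r1445 (@Lb.r r408 (@Lb.d (nat_lit 344) (nat_lit 16) (nat_lit 356) (@Lb.t (@Lb.fp (nat_lit 9) t509))))))))))))
noncomputable def l3568 : Lb := (@Lb.d (nat_lit 33) (nat_lit 256) (nat_lit 1) (@Lb.g g8 (@Lb.g g5 (@Lb.g g10 (@Lb.r r1682 (@Lb.r r72 (@Lb.d (nat_lit 34) (nat_lit 102) (nat_lit 664) (@Lb.t (@Lb.fp (nat_lit 9) t1145)))))))))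
noncomputable def l3569 : Lb := (@Lb.r r323 (@Lb.d (nat_lit 0) (nat_lit 264) (nat_lit 34) (@Lb.g g10 (@Lb.r r2659 (@Lb.r r101 (@Lb.d (nat_lit 581) (nat_lit 33) (nat_lit 386) (@Lb.t (@Lb.fp (nat_lit 3) t240))))))))
noncomputable def l3570 : Lb := (@Lb.r r82 (@Lb.d (nat_lit 0) (nat_lit 297) (nat_lit 64) (@Lb.g g9 (@Lb.g g11 (@Lb.r r1635 (@Lb.r r2454 (@Lb.r r1636 (@Lb.r r1557 (@Lb.d (nat_lit 393) (nat_lit 80) (nat_lit 645) (@Lb.fm (nat_lit 3) t629))))))))))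
noncomputable def l3571 : Lb := (@Lb.d (nat_lit 0) (nat_lit 264) (nat_lit 73) (@Lb.g g9 (@Lb.g g10 (@Lb.g g11 (@Lb.r r611 (@Lb.r r1642 (@Lb.r r2660 (@Lb.r r2581 (@Lb.d (nat_lit 386) (nat_lit 80) (nat_lit 389) (@Lb.t (@Lb.fp (nat_lit 9) t467)))))))))))
noncomputable def l3572 : Lb := (@Lb.d (nat_lit 0) (nat_lit 258) (nat_lit 73) (@Lb.g g9 (@Lb.g g10 (@Lb.g g11 (@Lb.r r1699 (@Lb.r r1193 (@Lb.r r1188 (@Lb.r r1638 (@Lb.d (nat_lit 404) (nat_lit 101) (nat_lit 356) (@Lb.t (@Lb.fm (nat_lit 9) t1146)))))))))))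
noncomputable def l3573 : Lb := (@Lb.r r275 (@Lb.d (nat_lit 0) (nat_lit 514) (nat_lit 2) (@Lb.g g9 (@Lb.g g10 (@Lb.r r597 (@Lb.r r1563 (@Lb.r r386 (@Lb.d (nat_lit 392) (nat_lit 166) (nat_lit 2) (@Lb.fm (nat_lit 3) t1147)))))))))
noncomputable def l3574 : Lb := (@Lb.r r323 (@Lb.d (nat_lit 0) (nat_lit 264) (nat_lit 34) (@Lb.g g10 (@Lb.r r2659 (@Lb.r r24 (@Lb.d (nat_lit 2) (nat_lit 149) (nat_lit 296) (@Lb.t (@Lb.fp (nat_lit 3) t334))))))))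
noncomputable def l3575 : Lb := (@Lb.r r82 (@Lb.r r283 (@Lb.d (nat_lit 410) (nat_lit 650) (nat_lit 0) (@Lb.g g4 (@Lb.g g9 (@Lb.r r1555 (@Lb.r r146 (@Lb.d (nat_lit 1) (nat_lit 132) (nat_lit 680) (@Lb.fp (nat_lit 3) t1148)))))))))
noncomputable def l3576 : Lb := (@Lb.d (nat_lit 0) (nat_lit 544) (nat_lit 642) (@Lb.g g10 (@Lb.g g11 (@Lb.r r578 (@Lb.r r24 (@Lb.d (nat_lit 2) (nat_lit 24) (nat_lit 330) (@Lb.fp (nat_lit 3) t333)))))))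
noncomputable def l3577 : Lb := (@Lb.r r21 (@Lb.d (nat_lit 144) (nat_lit 0) (nat_lit 128) (@Lb.g g8 (@Lb.g g10 (@Lb.g g11 (@Lb.r r387 (@Lb.r r2122 (@Lb.r r601 (@Lb.r r580 (@Lb.d (nat_lit 644) (nat_lit 69) (nat_lit 168) (@Lb.t (@Lb.fm (nat_lit 9) t192))))))))))))
noncomputable def l3578 : Lb := (@Lb.d (nat_lit 72) (nat_lit 345) (nat_lit 68) (@Lb.r r405 (@Lb.r r402 (@Lb.r r615 (@Lb.g g7 (@Lb.g g5 (@Lb.g g8 (@Lb.d (nat_lit 10) (nat_lit 21) (nat_lit 128) (@Lb.r r98 (@Lb.t (@Lb.fm (nat_lit 9) t30)))))))))))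
noncomputable def l3579 : Lb := (@Lb.d (nat_lit 6) (nat_lit 256) (nat_lit 130) (@Lb.g g4 (@Lb.g g9 (@Lb.g g10 (@Lb.g g11 (@Lb.r r1443 (@Lb.r r386 (@Lb.r r1125 (@Lb.d (nat_lit 405) (nat_lit 154) (nat_lit 84) (@Lb.fm (nat_lit 9) t714))))))))))
noncomputable def l3580 : Lb := (@Lb.d (nat_lit 2) (nat_lit 258) (nat_lit 130) (@Lb.g g8 (@Lb.g g9 (@Lb.g g10 (@Lb.g g11 (@Lb.r r1443 (@Lb.r r40 (@Lb.r r425 (@Lb.r r98 (@Lb.r r2084 (@Lb.d (nat_lit 682) (nat_lit 80) (nat_lit 326) (@Lb.fp (nat_lit 9) t1149))))))))))))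
noncomputable def l3581 : Lb := (@Lb.d (nat_lit 1) (nat_lit 2) (nat_lit 130) (@Lb.g g4 (@Lb.g g9 (@Lb.g g10 (@Lb.g g11 (@Lb.r r1443 (@Lb.r r386 (@Lb.r r1125 (@Lb.d (nat_lit 404) (nat_lit 154) (nat_lit 84) (@Lb.fm (nat_lit 9) t714))))))))))
noncomputable def l3582 : Lb := (@Lb.d (nat_lit 20) (nat_lit 264) (nat_lit 129) (@Lb.g g8 (@Lb.g g9 (@Lb.g g10 (@Lb.g g11 (@Lb.r r662 (@Lb.r r1561 (@Lb.r r2391 (@Lb.r r1700 (@Lb.d (nat_lit 22) (nat_lit 134) (nat_lit 586) (@Lb.fm (nat_lit 9) t794)))))))))))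
noncomputable def l3583 : Lb := (@Lb.r r21 (@Lb.d (nat_lit 146) (nat_lit 0) (nat_lit 128) (@Lb.g g8 (@Lb.g g10 (@Lb.g g11 (@Lb.r r1691 (@Lb.r r1689 (@Lb.r r1370 (@Lb.r r1176 (@Lb.d (nat_lit 538) (nat_lit 33) (nat_lit 406) (@Lb.t (@Lb.fm (nat_lit 9) t125))))))))))))
noncomputable def l3584 : Lb := (@Lb.r r277 (@Lb.d (nat_lit 517) (nat_lit 8) (nat_lit 2) (@Lb.g g8 (@Lb.g g10 (@Lb.g g11 (@Lb.r r1411 (@Lb.r r101 (@Lb.r r1434 (@Lb.d (nat_lit 22) (nat_lit 85) (nat_lit 393) (@Lb.t (@Lb.fm (nat_lit 9) t163)))))))))))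
noncomputable def l3585 : Lb := (@Lb.r r21 (@Lb.r r70 (@Lb.d (nat_lit 389) (nat_lit 0) (nat_lit 128) (@Lb.g g8 (@Lb.g g11 (@Lb.r r1419 (@Lb.r r402 (@Lb.r r97 (@Lb.d (nat_lit 581) (nat_lit 2) (nat_lit 528) (@Lb.fm (nat_lit 3) t644))))))))))
noncomputable def l3586 : Lb := (@Lb.d (nat_lit 2) (nat_lit 546) (nat_lit 0) (@Lb.g g8 (@Lb.g g9 (@Lb.r r356 (@Lb.r r1307 (@Lb.r r2178 (@Lb.r r1573 (@Lb.d (nat_lit 666) (nat_lit 146) (nat_lit 584) (@Lb.fm (nat_lit 3) t229)))))))))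
noncomputable def l3587 : Lb := (@Lb.r r21 (@Lb.d (nat_lit 154) (nat_lit 0) (nat_lit 0) (@Lb.g g8 (@Lb.g g10 (@Lb.r r295 (@Lb.r r1617 (@Lb.r r678 (@Lb.r r2648 (@Lb.d (nat_lit 617) (nat_lit 168) (nat_lit 424) (@Lb.fm (nat_lit 3) t766))))))))))
noncomputable def l3588 : Lb := (@Lb.d (nat_lit 132) (nat_lit 258) (nat_lit 130) (@Lb.g g8 (@Lb.g g9 (@Lb.g g10 (@Lb.g g11 (@Lb.r r618 (@Lb.r r612 (@Lb.r r1319 (@Lb.r r405 (@Lb.r r36 (@Lb.d (nat_lit 105) (nat_lit 137) (nat_lit 409) (@Lb.fp (nat_lit 9) t1039))))))))))))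
noncomputable def l3589 : Lb := (@Lb.d (nat_lit 2) (nat_lit 514) (nat_lit 66) (@Lb.g g8 (@Lb.g g9 (@Lb.g g10 (@Lb.g g7 (@Lb.r r386 (@Lb.r r97 (@Lb.r r24 (@Lb.d (nat_lit 328) (nat_lit 9) (nat_lit 585) (@Lb.fp (nat_lit 9) t1150))))))))))
noncomputable def l3590 : Lb := (@Lb.d (nat_lit 2) (nat_lit 258) (nat_lit 66) (@Lb.g g8 (@Lb.g g9 (@Lb.g g10 (@Lb.g g7 (@Lb.r r386 (@Lb.r r25 (@Lb.d (nat_lit 9) (nat_lit 5) (nat_lit 10) (@Lb.fp (nat_lit 9) t45)))))))))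
noncomputable def l3591 : Lb := (@Lb.r r275 (@Lb.d (nat_lit 2) (nat_lit 260) (nat_lit 34) (@Lb.g g8 (@Lb.g g9 (@Lb.g g6 (@Lb.r r2667 (@Lb.r r1121 (@Lb.r r24 (@Lb.d (nat_lit 264) (nat_lit 137) (nat_lit 16) (@Lb.t (@Lb.fm (nat_lit 9) t1151)))))))))))
noncomputable def l3592 : Lb := (@Lb.d (nat_lit 656) (nat_lit 512) (nat_lit 262) (@Lb.r r24 (@Lb.r r101 (@Lb.r r386 (@Lb.g g11 (@Lb.g g6 (@Lb.g g5 (@Lb.d (nat_lit 0) (nat_lit 0) (nat_lit 1) (@Lb.t (@Lb.fp (nat_lit 9) t475))))))))))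
noncomputable def l3593 : Lb := (@Lb.d (nat_lit 132) (nat_lit 514) (nat_lit 130) (@Lb.g g8 (@Lb.g g9 (@Lb.g g10 (@Lb.g g11 (@Lb.r r618 (@Lb.r r612 (@Lb.r r1319 (@Lb.r r405 (@Lb.r r36 (@Lb.d (nat_lit 104) (nat_lit 137) (nat_lit 409) (@Lb.fp (nat_lit 9) t163))))))))))))
noncomputable def l3594 : Lb := (@Lb.r r323 (@Lb.d (nat_lit 130) (nat_lit 521) (nat_lit 17) (@Lb.g g8 (@Lb.g g9 (@Lb.g g10 (@Lb.r r583 (@Lb.r r2201 (@Lb.r r408 (@Lb.d (nat_lit 89) (nat_lit 26) (nat_lit 328) (@Lb.t (@Lb.fm (nat_lit 9) t1152)))))))))))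
noncomputable def l3595 : Lb := (@Lb.r r323 (@Lb.d (nat_lit 2) (nat_lit 514) (nat_lit 1) (@Lb.g g8 (@Lb.g g9 (@Lb.g g6 (@Lb.r r2667 (@Lb.r r97 (@Lb.r r24 (@Lb.d (nat_lit 266) (nat_lit 9) (nat_lit 5) (@Lb.t (@Lb.fm (nat_lit 9) t592)))))))))))
noncomputable def l3596 : Lb := (@Lb.d (nat_lit 6) (nat_lit 146) (nat_lit 389) (@Lb.r r21 (@Lb.r r579 (@Lb.r r1366 (@Lb.g g7 (@Lb.g g6 (@Lb.g g5 (@Lb.g g4 (@Lb.d (nat_lit 1) (nat_lit 1) (nat_lit 65) (@Lb.fm (nat_lit 9) t40))))))))))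
noncomputable def l3597 : Lb := (@Lb.d (nat_lit 2) (nat_lit 545) (nat_lit 66) (@Lb.g g8 (@Lb.g g9 (@Lb.g g10 (@Lb.g g11 (@Lb.r r2218 (@Lb.r r580 (@Lb.r r1687 (@Lb.r r1429 (@Lb.r r1044 (@Lb.d (nat_lit 326) (nat_lit 101) (nat_lit 518) (@Lb.fp (nat_lit 9) t1153))))))))))))
noncomputable def l3598 : Lb := (@Lb.d (nat_lit 0) (nat_lit 256) (nat_lit 130) (@Lb.g g10 (@Lb.g g11 (@Lb.r r602 (@Lb.r r1611 (@Lb.r r149 (@Lb.r r1636 (@Lb.d (nat_lit 517) (nat_lit 25) (nat_lit 2) (@Lb.fp (nat_lit 3) t461)))))))))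
noncomputable def l3599 : Lb := (@Lb.d (nat_lit 4) (nat_lit 34) (nat_lit 129) (@Lb.g g8 (@Lb.g g9 (@Lb.g g10 (@Lb.g g11 (@Lb.r r586 (@Lb.r r1611 (@Lb.r r36 (@Lb.r r149 (@Lb.r r2084 (@Lb.d (nat_lit 362) (nat_lit 168) (nat_lit 81) (@Lb.fm (nat_lit 9) t4))))))))))))
noncomputable def l3600 : Lb := (@Lb.d (nat_lit 2) (nat_lit 33) (nat_lit 129) (@Lb.g g8 (@Lb.g g9 (@Lb.g g10 (@Lb.g g11 (@Lb.r r2724 (@Lb.r r1575 (@Lb.r r1637 (@Lb.r r1426 (@Lb.d (nat_lit 82) (nat_lit 20) (nat_lit 342) (@Lb.fm (nat_lit 9) t1154)))))))))))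
noncomputable def l3601 : Lb := (@Lb.d (nat_lit 2) (nat_lit 0) (nat_lit 644) (@Lb.r r1297 (@Lb.r r2371 (@Lb.r r678 (@Lb.g g7 (@Lb.g g5 (@Lb.g g8 (@Lb.d (nat_lit 618) (nat_lit 0) (nat_lit 64) (@Lb.r r98 (@Lb.t (@Lb.fp (nat_lit 9) t4)))))))))))
noncomputable def l3602 : Lb := (@Lb.r r134 (@Lb.r r580 (@Lb.r r295 (@Lb.r r2329 (@Lb.r r1044 (@Lb.fm (nat_lit 1) t1155))))))
noncomputable def l3603 : Lb := (@Lb.d (nat_lit 9) (nat_lit 2) (nat_lit 644) (@Lb.r r1297 (@Lb.r r2371 (@Lb.r r678 (@Lb.g g7 (@Lb.g g5 (@Lb.g g8 (@Lb.d (nat_lit 608) (nat_lit 1) (nat_lit 64) (@Lb.r r98 (@Lb.t (@Lb.fp (nat_lit 9) t1156)))))))))))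
noncomputable def l3604 : Lb := (@Lb.d (nat_lit 128) (nat_lit 16) (nat_lit 384) (@Lb.g g10 (@Lb.g g11 (@Lb.r r1304 (@Lb.r r101 (@Lb.r r154 (@Lb.d (nat_lit 538) (nat_lit 2) (nat_lit 128) (@Lb.fp (nat_lit 3) t514))))))))
noncomputable def l3605 : Lb := (@Lb.r r82 (@Lb.d (nat_lit 34) (nat_lit 258) (nat_lit 0) (@Lb.g g8 (@Lb.g g9 (@Lb.g g11 (@Lb.r r1571 (@Lb.r r582 (@Lb.r r2577 (@Lb.r r420 (@Lb.d (nat_lit 96) (nat_lit 150) (nat_lit 330) (@Lb.t (@Lb.fp (nat_lit 9) t428))))))))))))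
noncomputable def l3606 : Lb := (@Lb.r r82 (@Lb.d (nat_lit 405) (nat_lit 0) (nat_lit 128) (@Lb.g g4 (@Lb.g g9 (@Lb.g g11 (@Lb.r r678 (@Lb.r r1411 (@Lb.r r2577 (@Lb.d (nat_lit 6) (nat_lit 1) (nat_lit 328) (@Lb.t (@Lb.fm (nat_lit 9) t1157)))))))))))
noncomputable def l3607 : Lb := (@Lb.r r2403 (@Lb.r r162 (@Lb.d (nat_lit 0) (nat_lit 584) (nat_lit 1) (@Lb.fm (nat_lit 1) t1158))))
noncomputable def l3608 : Lb := (@Lb.d (nat_lit 4) (nat_lit 512) (nat_lit 130) (@Lb.g g8 (@Lb.g g9 (@Lb.g g10 (@Lb.g g11 (@Lb.r r427 (@Lb.r r420 (@Lb.r r102 (@Lb.r r97 (@Lb.r r36 (@Lb.d (nat_lit 9) (nat_lit 130) (nat_lit 138) (@Lb.fm (nat_lit 9) t51))))))))))))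
noncomputable def l3609 : Lb := (@Lb.d (nat_lit 0) (nat_lit 522) (nat_lit 0) (@Lb.g g9 (@Lb.r r2403 (@Lb.r r594 (@Lb.r r2449 (@Lb.d (nat_lit 0) (nat_lit 154) (nat_lit 425) (@Lb.t (@Lb.fp (nat_lit 3) t386))))))))
noncomputable def l3610 : Lb := (@Lb.r r322 (@Lb.d (nat_lit 36) (nat_lit 34) (nat_lit 516) (@Lb.g g8 (@Lb.g g9 (@Lb.g g7 (@Lb.r r418 (@Lb.r r297 (@Lb.r r1384 (@Lb.d (nat_lit 405) (nat_lit 170) (nat_lit 293) (@Lb.t (@Lb.fm (nat_lit 9) t1159)))))))))))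
noncomputable def l3611 : Lb := (@Lb.d (nat_lit 2) (nat_lit 514) (nat_lit 22) (@Lb.g g8 (@Lb.g g9 (@Lb.g g10 (@Lb.r r1579 (@Lb.r r2585 (@Lb.r r2564 (@Lb.d (nat_lit 649) (nat_lit 68) (nat_lit 402) (@Lb.t (@Lb.fp (nat_lit 9) t820))))))))))
noncomputable def l3612 : Lb := (@Lb.d (nat_lit 2) (nat_lit 258) (nat_lit 2) (@Lb.g g8 (@Lb.g g9 (@Lb.g g10 (@Lb.r r683 (@Lb.r r2666 (@Lb.r r2585 (@Lb.r r1684 (@Lb.d (nat_lit 644) (nat_lit 37) (nat_lit 661) (@Lb.t (@Lb.fp (nat_lit 9) t1160)))))))))))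
noncomputable def l3613 : Lb := (@Lb.d (nat_lit 2) (nat_lit 2) (nat_lit 22) (@Lb.g g8 (@Lb.g g9 (@Lb.g g10 (@Lb.r r1579 (@Lb.r r2585 (@Lb.r r2564 (@Lb.d (nat_lit 644) (nat_lit 70) (nat_lit 402) (@Lb.t (@Lb.fp (nat_lit 9) t820))))))))))
noncomputable def l3614 : Lb := (@Lb.d (nat_lit 4) (nat_lit 546) (nat_lit 66) (@Lb.g g8 (@Lb.g g9 (@Lb.g g10 (@Lb.g g11 (@Lb.r r427 (@Lb.r r98 (@Lb.r r404 (@Lb.r r1129 (@Lb.r r1060 (@Lb.d (nat_lit 533) (nat_lit 101) (nat_lit 276) (@Lb.fm (nat_lit 9) t1161))))))))))))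
noncomputable def l3615 : Lb := (@Lb.d (nat_lit 130) (nat_lit 258) (nat_lit 41) (@Lb.g g8 (@Lb.g g9 (@Lb.g g6 (@Lb.r r2455 (@Lb.r r97 (@Lb.r r680 (@Lb.d (nat_lit 353) (nat_lit 88) (nat_lit 165) (@Lb.t (@Lb.fp (nat_lit 9) t219))))))))))
noncomputable def l3616 : Lb := (@Lb.d (nat_lit 161) (nat_lit 258) (nat_lit 8) (@Lb.g g8 (@Lb.g g9 (@Lb.g g6 (@Lb.r r407 (@Lb.r r2665 (@Lb.r r2644 (@Lb.d (nat_lit 657) (nat_lit 98) (nat_lit 410) (@Lb.t (@Lb.fm (nat_lit 9) t199))))))))))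
noncomputable def l3617 : Lb := (@Lb.d (nat_lit 0) (nat_lit 266) (nat_lit 132) (@Lb.g g9 (@Lb.g g10 (@Lb.g g11 (@Lb.r r2470 (@Lb.r r2705 (@Lb.r r2587 (@Lb.r r24 (@Lb.d (nat_lit 576) (nat_lit 24) (nat_lit 329) (@Lb.t (@Lb.fp (nat_lit 9) t1061)))))))))))
noncomputable def l3618 : Lb := (@Lb.r r322 (@Lb.d (nat_lit 0) (nat_lit 34) (nat_lit 516) (@Lb.g g9 (@Lb.g g7 (@Lb.r r422 (@Lb.r r2193 (@Lb.r r24 (@Lb.d (nat_lit 36) (nat_lit 129) (nat_lit 82) (@Lb.fp (nat_lit 3) t1162)))))))))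
noncomputable def l3619 : Lb := (@Lb.d (nat_lit 548) (nat_lit 137) (nat_lit 17) (@Lb.r r24 (@Lb.r r1414 (@Lb.r r2395 (@Lb.g g7 (@Lb.g g5 (@Lb.d (nat_lit 4) (nat_lit 1) (nat_lit 64) (@Lb.fm (nat_lit 3) t506))))))))
noncomputable def l3620 : Lb := (@Lb.r r323 (@Lb.d (nat_lit 26) (nat_lit 9) (nat_lit 2) (@Lb.g g8 (@Lb.g g9 (@Lb.g g10 (@Lb.r r2713 (@Lb.r r667 (@Lb.r r644 (@Lb.r r1158 (@Lb.d (nat_lit 290) (nat_lit 0) (nat_lit 162) (@Lb.t (@Lb.fm (nat_lit 9) t979))))))))))))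
noncomputable def l3621 : Lb := (@Lb.d (nat_lit 0) (nat_lit 512) (nat_lit 128) (@Lb.g g10 (@Lb.g g11 (@Lb.r r387 (@Lb.r r402 (@Lb.r r101 (@Lb.d (nat_lit 4) (nat_lit 2) (nat_lit 0) (@Lb.fm (nat_lit 3) t1163))))))))
noncomputable def l3622 : Lb := (@Lb.d (nat_lit 64) (nat_lit 280) (nat_lit 68) (@Lb.r r405 (@Lb.r r402 (@Lb.r r615 (@Lb.g g7 (@Lb.g g5 (@Lb.g g8 (@Lb.d (nat_lit 10) (nat_lit 21) (nat_lit 128) (@Lb.r r98 (@Lb.t (@Lb.fm (nat_lit 9) t30)))))))))))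
noncomputable def l3623 : Lb := (@Lb.d (nat_lit 146) (nat_lit 534) (nat_lit 66) (@Lb.r r273 (@Lb.r r338 (@Lb.r r679 (@Lb.g g7 (@Lb.g g6 (@Lb.g g5 (@Lb.g g8 (@Lb.d (nat_lit 10) (nat_lit 17) (nat_lit 8) (@Lb.fp (nat_lit 9) t31))))))))))
noncomputable def l3624 : Lb := (@Lb.r r82 (@Lb.d (nat_lit 41) (nat_lit 514) (nat_lit 0) (@Lb.g g8 (@Lb.g g9 (@Lb.g g11 (@Lb.r r547 (@Lb.r r582 (@Lb.r r1553 (@Lb.r r420 (@Lb.d (nat_lit 96) (nat_lit 86) (nat_lit 586) (@Lb.t (@Lb.fp (nat_lit 9) t428))))))))))))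
noncomputable def l3625 : Lb := (@Lb.r r21 (@Lb.d (nat_lit 144) (nat_lit 256) (nat_lit 128) (@Lb.g g8 (@Lb.g g10 (@Lb.g g11 (@Lb.r r1355 (@Lb.r r402 (@Lb.r r97 (@Lb.r r532 (@Lb.d (nat_lit 409) (nat_lit 97) (nat_lit 106) (@Lb.t (@Lb.fm (nat_lit 9) t1164))))))))))))
noncomputable def l3626 : Lb := (@Lb.d (nat_lit 357) (nat_lit 154) (nat_lit 425) (@Lb.r r1432 (@Lb.r r81 (@Lb.r r2631 (@Lb.g g6 (@Lb.g g4 (@Lb.d (nat_lit 66) (nat_lit 8) (nat_lit 1) (@Lb.r r387 (@Lb.r r25 (@Lb.fm (nat_lit 3) t428))))))))))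
noncomputable def l3627 : Lb := (@Lb.d (nat_lit 1) (nat_lit 0) (nat_lit 128) (@Lb.g g8 (@Lb.g g10 (@Lb.g g11 (@Lb.r r353 (@Lb.r r658 (@Lb.r r1415 (@Lb.r r2628 (@Lb.d (nat_lit 424) (nat_lit 2) (nat_lit 426) (@Lb.t (@Lb.fm (nat_lit 9) t514)))))))))))
noncomputable def l3628 : Lb := (@Lb.r r82 (@Lb.d (nat_lit 41) (nat_lit 513) (nat_lit 0) (@Lb.g g8 (@Lb.g g9 (@Lb.g g11 (@Lb.r r1571 (@Lb.r r582 (@Lb.r r2577 (@Lb.r r420 (@Lb.d (nat_lit 96) (nat_lit 150) (nat_lit 330) (@Lb.t (@Lb.fp (nat_lit 9) t428))))))))))))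
noncomputable def l3629 : Lb := (@Lb.r r21 (@Lb.d (nat_lit 80) (nat_lit 256) (nat_lit 64) (@Lb.g g8 (@Lb.g g10 (@Lb.g g11 (@Lb.r r647 (@Lb.r r402 (@Lb.r r97 (@Lb.r r2712 (@Lb.d (nat_lit 68) (nat_lit 106) (nat_lit 404) (@Lb.t (@Lb.fm (nat_lit 9) t34))))))))))))
noncomputable def l3630 : Lb := (@Lb.r r21 (@Lb.d (nat_lit 154) (nat_lit 512) (nat_lit 128) (@Lb.g g8 (@Lb.g g10 (@Lb.g g11 (@Lb.r r387 (@Lb.r r1617 (@Lb.r r678 (@Lb.r r2648 (@Lb.d (nat_lit 344) (nat_lit 166) (nat_lit 410) (@Lb.t (@Lb.fm (nat_lit 9) t164))))))))))))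
noncomputable def l3631 : Lb := (@Lb.d (nat_lit 0) (nat_lit 512) (nat_lit 128) (@Lb.g g10 (@Lb.g g11 (@Lb.r r387 (@Lb.r r1617 (@Lb.r r354 (@Lb.r r1124 (@Lb.d (nat_lit 0) (nat_lit 70) (nat_lit 32) (@Lb.fm (nat_lit 3) t772)))))))))
noncomputable def l3632 : Lb := (@Lb.d (nat_lit 69) (nat_lit 88) (nat_lit 68) (@Lb.r r405 (@Lb.r r402 (@Lb.r r615 (@Lb.g g7 (@Lb.g g5 (@Lb.g g8 (@Lb.d (nat_lit 10) (nat_lit 21) (nat_lit 128) (@Lb.r r98 (@Lb.t (@Lb.fm (nat_lit 9) t30)))))))))))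
noncomputable def l3633 : Lb := (@Lb.d (nat_lit 128) (nat_lit 528) (nat_lit 384) (@Lb.g g10 (@Lb.g g11 (@Lb.r r1304 (@Lb.r r101 (@Lb.r r154 (@Lb.d (nat_lit 528) (nat_lit 0) (nat_lit 128) (@Lb.fp (nat_lit 3) t1069))))))))
noncomputable def l3634 : Lb := (@Lb.d (nat_lit 2) (nat_lit 37) (nat_lit 128) (@Lb.g g8 (@Lb.g g9 (@Lb.g g10 (@Lb.g g11 (@Lb.r r387 (@Lb.r r386 (@Lb.r r1572 (@Lb.r r1685 (@Lb.d (nat_lit 406) (nat_lit 96) (nat_lit 677) (@Lb.fm (nat_lit 9) t30)))))))))))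
noncomputable def l3635 : Lb := (@Lb.d (nat_lit 2) (nat_lit 2) (nat_lit 130) (@Lb.g g8 (@Lb.g g9 (@Lb.g g10 (@Lb.g g11 (@Lb.r r553 (@Lb.r r299 (@Lb.r r388 (@Lb.r r70 (@Lb.r r132 (@Lb.d (nat_lit 25) (nat_lit 138) (nat_lit 105) (@Lb.fm (nat_lit 9) t126))))))))))))
noncomputable def l3636 : Lb := (@Lb.d (nat_lit 2) (nat_lit 272) (nat_lit 2) (@Lb.g g8 (@Lb.g g9 (@Lb.g g10 (@Lb.g g11 (@Lb.r r2646 (@Lb.r r2391 (@Lb.r r2133 (@Lb.r r24 (@Lb.d (nat_lit 545) (nat_lit 73) (nat_lit 610) (@Lb.fm (nat_lit 9) t1138)))))))))))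
noncomputable def l3637 : Lb := (@Lb.r r21 (@Lb.d (nat_lit 18) (nat_lit 512) (nat_lit 74) (@Lb.g g4 (@Lb.g g10 (@Lb.g g11 (@Lb.r r1687 (@Lb.r r2401 (@Lb.r r1170 (@Lb.d (nat_lit 532) (nat_lit 9) (nat_lit 34) (@Lb.t (@Lb.fm (nat_lit 9) t125)))))))))))
noncomputable def l3638 : Lb := (@Lb.d (nat_lit 160) (nat_lit 264) (nat_lit 74) (@Lb.g g10 (@Lb.g g11 (@Lb.r r260 (@Lb.r r1643 (@Lb.r r1637 (@Lb.r r2390 (@Lb.d (nat_lit 665) (nat_lit 149) (nat_lit 550) (@Lb.fm (nat_lit 3) t145)))))))))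
noncomputable def l3639 : Lb := (@Lb.r r21 (@Lb.d (nat_lit 18) (nat_lit 0) (nat_lit 74) (@Lb.g g4 (@Lb.g g10 (@Lb.g g11 (@Lb.r r1687 (@Lb.r r2401 (@Lb.r r1170 (@Lb.d (nat_lit 532) (nat_lit 4) (nat_lit 33) (@Lb.t (@Lb.fm (nat_lit 9) t789)))))))))))
noncomputable def l3640 : Lb := (@Lb.r r2311 (@Lb.d (nat_lit 256) (nat_lit 256) (nat_lit 64) (@Lb.fp (nat_lit 1) t1165)))
noncomputable def l3641 : Lb := (@Lb.d (nat_lit 0) (nat_lit 256) (nat_lit 128) (@Lb.g g9 (@Lb.g g11 (@Lb.r r2471 (@Lb.r r1096 (@Lb.r r2646 (@Lb.r r289 (@Lb.d (nat_lit 533) (nat_lit 130) (nat_lit 138) (@Lb.fm (nat_lit 3) t219)))))))))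
noncomputable def l3642 : Lb := (@Lb.d (nat_lit 0) (nat_lit 0) (nat_lit 130) (@Lb.g g9 (@Lb.g g10 (@Lb.g g11 (@Lb.r r586 (@Lb.r r584 (@Lb.r r299 (@Lb.r r289 (@Lb.d (nat_lit 9) (nat_lit 130) (nat_lit 138) (@Lb.t (@Lb.fm (nat_lit 9) t51)))))))))))
noncomputable def l3643 : Lb := (@Lb.d (nat_lit 0) (nat_lit 0) (nat_lit 130) (@Lb.g g9 (@Lb.g g10 (@Lb.g g11 (@Lb.r r614 (@Lb.r r404 (@Lb.r r619 (@Lb.r r609 (@Lb.d (nat_lit 9) (nat_lit 153) (nat_lit 66) (@Lb.t (@Lb.fm (nat_lit 9) t71)))))))))))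
noncomputable def l3644 : Lb := (@Lb.d (nat_lit 4) (nat_lit 0) (nat_lit 130) (@Lb.g g8 (@Lb.g g9 (@Lb.g g10 (@Lb.g g11 (@Lb.r r427 (@Lb.r r420 (@Lb.r r102 (@Lb.r r97 (@Lb.r r36 (@Lb.d (nat_lit 9) (nat_lit 137) (nat_lit 137) (@Lb.fm (nat_lit 9) t51))))))))))))
noncomputable def l3645 : Lb := (@Lb.r r609 (@Lb.r r2659 (@Lb.r r338 (@Lb.r r2705 (@Lb.d (nat_lit 321) (nat_lit 0) (nat_lit 576) (@Lb.fp (nat_lit 1) t322))))))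
noncomputable def l3646 : Lb := (@Lb.r r20 (@Lb.d (nat_lit 32) (nat_lit 129) (nat_lit 2) (@Lb.g g5 (@Lb.g g10 (@Lb.g g11 (@Lb.r r2707 (@Lb.r r72 (@Lb.r r582 (@Lb.d (nat_lit 145) (nat_lit 82) (nat_lit 426) (@Lb.t (@Lb.fp (nat_lit 9) t455)))))))))))
noncomputable def l3647 : Lb := (@Lb.r r263 (@Lb.d (nat_lit 0) (nat_lit 514) (nat_lit 2) (@Lb.g g8 (@Lb.g g9 (@Lb.g g10 (@Lb.r r2454 (@Lb.r r1367 (@Lb.r r409 (@Lb.r r388 (@Lb.d (nat_lit 105) (nat_lit 132) (nat_lit 545) (@Lb.t (@Lb.fp (nat_lit 9) t394))))))))))))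
noncomputable def l3648 : Lb := (@Lb.r r21 (@Lb.d (nat_lit 65) (nat_lit 0) (nat_lit 2) (@Lb.g g8 (@Lb.g g10 (@Lb.g g11 (@Lb.r r2407 (@Lb.r r2393 (@Lb.r r1190 (@Lb.r r2132 (@Lb.d (nat_lit 532) (nat_lit 6) (nat_lit 33) (@Lb.t (@Lb.fp (nat_lit 9) t254))))))))))))
noncomputable def l3649 : Lb := (@Lb.r r339 (@Lb.d (nat_lit 40) (nat_lit 513) (nat_lit 0) (@Lb.g g5 (@Lb.g g10 (@Lb.r r1687 (@Lb.r r88 (@Lb.r r86 (@Lb.d (nat_lit 24) (nat_lit 65) (nat_lit 6) (@Lb.fp (nat_lit 3) t467)))))))))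
noncomputable def l3650 : Lb := (@Lb.d (nat_lit 9) (nat_lit 514) (nat_lit 130) (@Lb.g g8 (@Lb.g g9 (@Lb.g g10 (@Lb.g g11 (@Lb.r r532 (@Lb.r r295 (@Lb.r r357 (@Lb.r r666 (@Lb.r r644 (@Lb.d (nat_lit 9) (nat_lit 1) (nat_lit 137) (@Lb.fp (nat_lit 9) t2))))))))))))
noncomputable def l3651 : Lb := (@Lb.d (nat_lit 2) (nat_lit 514) (nat_lit 2) (@Lb.g g8 (@Lb.g g9 (@Lb.g g10 (@Lb.g g11 (@Lb.r r1706 (@Lb.r r676 (@Lb.r r551 (@Lb.r r1557 (@Lb.r r1060 (@Lb.d (nat_lit 644) (nat_lit 1) (nat_lit 330) (@Lb.fp (nat_lit 9) t284))))))))))))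
noncomputable def l3652 : Lb := (@Lb.d (nat_lit 2) (nat_lit 265) (nat_lit 129) (@Lb.g g8 (@Lb.g g9 (@Lb.g g10 (@Lb.g g11 (@Lb.r r2455 (@Lb.r r2666 (@Lb.r r680 (@Lb.r r2217 (@Lb.d (nat_lit 37) (nat_lit 165) (nat_lit 658) (@Lb.fp (nat_lit 9) t58)))))))))))
noncomputable def l3653 : Lb := (@Lb.d (nat_lit 32) (nat_lit 16) (nat_lit 642) (@Lb.g g10 (@Lb.g g7 (@Lb.r r72 (@Lb.r r598 (@Lb.r r409 (@Lb.d (nat_lit 38) (nat_lit 74) (nat_lit 97) (@Lb.fm (nat_lit 3) t714))))))))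
noncomputable def l3654 : Lb := (@Lb.d (nat_lit 261) (nat_lit 257) (nat_lit 1) (@Lb.r r24 (@Lb.r r101 (@Lb.r r2403 (@Lb.g g6 (@Lb.g g4 (@Lb.d (nat_lit 1) (nat_lit 4) (nat_lit 1) (@Lb.fm (nat_lit 3) t58))))))))
noncomputable def l3655 : Lb := (@Lb.d (nat_lit 597) (nat_lit 421) (nat_lit 34) (@Lb.r r2645 (@Lb.r r70 (@Lb.r r2647 (@Lb.g g6 (@Lb.g g5 (@Lb.g g4 (@Lb.d (nat_lit 1) (nat_lit 16) (nat_lit 1) (@Lb.r r387 (@Lb.t (@Lb.fm (nat_lit 9) t146)))))))))))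
noncomputable def l3656 : Lb := (@Lb.r r323 (@Lb.d (nat_lit 0) (nat_lit 8) (nat_lit 2) (@Lb.g g6 (@Lb.r r2465 (@Lb.r r1555 (@Lb.r r2690 (@Lb.d (nat_lit 10) (nat_lit 2) (nat_lit 681) (@Lb.t (@Lb.fp (nat_lit 3) t402)))))))))
noncomputable def l3657 : Lb := (@Lb.d (nat_lit 0) (nat_lit 0) (nat_lit 74) (@Lb.g g10 (@Lb.g g11 (@Lb.r r387 (@Lb.r r1414 (@Lb.d (nat_lit 320) (nat_lit 0) (nat_lit 134) (@Lb.fp (nat_lit 3) t1166)))))))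
noncomputable def l3658 : Lb := (@Lb.d (nat_lit 256) (nat_lit 0) (nat_lit 32) (@Lb.r r2378 (@Lb.r r2439 (@Lb.g g11 (@Lb.g g10 (@Lb.fm (nat_lit 3) t471))))))
noncomputable def l3659 : Lb := (@Lb.d (nat_lit 2) (nat_lit 258) (nat_lit 130) (@Lb.g g8 (@Lb.g g9 (@Lb.g g10 (@Lb.g g11 (@Lb.r r427 (@Lb.r r424 (@Lb.r r106 (@Lb.r r25 (@Lb.d (nat_lit 26) (nat_lit 4) (nat_lit 17) (@Lb.fm (nat_lit 9) t1149)))))))))))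
noncomputable def l3660 : Lb := (@Lb.d (nat_lit 2) (nat_lit 2) (nat_lit 73) (@Lb.g g8 (@Lb.g g9 (@Lb.g g10 (@Lb.g g11 (@Lb.r r427 (@Lb.r r145 (@Lb.r r356 (@Lb.r r154 (@Lb.r r132 (@Lb.d (nat_lit 9) (nat_lit 4) (nat_lit 152) (@Lb.fm (nat_lit 9) t221))))))))))))
noncomputable def l3661 : Lb := (@Lb.d (nat_lit 9) (nat_lit 257) (nat_lit 2) (@Lb.g g8 (@Lb.g g9 (@Lb.g g10 (@Lb.r r683 (@Lb.r r676 (@Lb.r r166 (@Lb.r r145 (@Lb.d (nat_lit 10) (nat_lit 4) (nat_lit 136) (@Lb.t (@Lb.fm (nat_lit 9) t51)))))))))))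
noncomputable def l3662 : Lb := (@Lb.d (nat_lit 2) (nat_lit 514) (nat_lit 2) (@Lb.g g8 (@Lb.g g9 (@Lb.g g10 (@Lb.r r683 (@Lb.r r676 (@Lb.r r166 (@Lb.r r145 (@Lb.d (nat_lit 10) (nat_lit 9) (nat_lit 137) (@Lb.t (@Lb.fm (nat_lit 9) t51)))))))))))
noncomputable def l3663 : Lb := (@Lb.d (nat_lit 0) (nat_lit 290) (nat_lit 1) (@Lb.g g9 (@Lb.g g10 (@Lb.r r643 (@Lb.r r162 (@Lb.r r421 (@Lb.r r24 (@Lb.d (nat_lit 64) (nat_lit 5) (nat_lit 74) (@Lb.fm (nat_lit 3) t1087)))))))))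
noncomputable def l3664 : Lb := (@Lb.d (nat_lit 608) (nat_lit 0) (nat_lit 610) (@Lb.fp (nat_lit 1) t698))
noncomputable def l3665 : Lb := (@Lb.r r263 (@Lb.d (nat_lit 609) (nat_lit 514) (nat_lit 1) (@Lb.g g8 (@Lb.g g9 (@Lb.g g10 (@Lb.r r618 (@Lb.r r2627 (@Lb.r r25 (@Lb.d (nat_lit 9) (nat_lit 161) (nat_lit 618) (@Lb.t (@Lb.fp (nat_lit 9) t394)))))))))))
noncomputable def l3666 : Lb := (@Lb.r r82 (@Lb.d (nat_lit 129) (nat_lit 33) (nat_lit 64) (@Lb.g g8 (@Lb.g g9 (@Lb.g g11 (@Lb.r r555 (@Lb.r r2660 (@Lb.r r90 (@Lb.r r37 (@Lb.d (nat_lit 545) (nat_lit 72) (nat_lit 410) (@Lb.t (@Lb.fm (nat_lit 9) t1167))))))))))))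
noncomputable def l3667 : Lb := (@Lb.r r323 (@Lb.d (nat_lit 2) (nat_lit 546) (nat_lit 2) (@Lb.g g8 (@Lb.g g9 (@Lb.g g10 (@Lb.r r599 (@Lb.r r420 (@Lb.r r102 (@Lb.d (nat_lit 42) (nat_lit 9) (nat_lit 18) (@Lb.t (@Lb.fp (nat_lit 9) t1149)))))))))))
noncomputable def l3668 : Lb := (@Lb.d (nat_lit 128) (nat_lit 256) (nat_lit 328) (@Lb.g g11 (@Lb.d (nat_lit 272) (nat_lit 0) (nat_lit 90) (@Lb.t (@Lb.fp (nat_lit 3) t1168)))))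
noncomputable def l3669 : Lb := (@Lb.d (nat_lit 0) (nat_lit 288) (nat_lit 72) (@Lb.g g11 (@Lb.r r2449 (@Lb.r r1426 (@Lb.r r355 (@Lb.d (nat_lit 0) (nat_lit 74) (nat_lit 262) (@Lb.t (@Lb.fm (nat_lit 3) t246))))))))
noncomputable def l3670 : Lb := (@Lb.r r323 (@Lb.d (nat_lit 0) (nat_lit 514) (nat_lit 2) (@Lb.g g9 (@Lb.g g10 (@Lb.r r401 (@Lb.r r299 (@Lb.r r392 (@Lb.r r410 (@Lb.d (nat_lit 153) (nat_lit 102) (nat_lit 354) (@Lb.fm (nat_lit 3) t1080))))))))))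
noncomputable def l3671 : Lb := (@Lb.r r82 (@Lb.d (nat_lit 129) (nat_lit 2) (nat_lit 128) (@Lb.g g8 (@Lb.g g9 (@Lb.g g11 (@Lb.r r555 (@Lb.r r2596 (@Lb.r r165 (@Lb.r r98 (@Lb.d (nat_lit 521) (nat_lit 2) (nat_lit 426) (@Lb.t (@Lb.fm (nat_lit 9) t1169))))))))))))
noncomputable def l3672 : Lb := (@Lb.r r323 (@Lb.d (nat_lit 673) (nat_lit 514) (nat_lit 2) (@Lb.g g8 (@Lb.g g9 (@Lb.g g10 (@Lb.r r1386 (@Lb.r r387 (@Lb.r r25 (@Lb.d (nat_lit 8) (nat_lit 161) (nat_lit 618) (@Lb.t (@Lb.fm (nat_lit 9) t1091)))))))))))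
noncomputable def l3673 : Lb := (@Lb.d (nat_lit 550) (nat_lit 321) (nat_lit 134) (@Lb.r r2138 (@Lb.r r2644 (@Lb.r r2391 (@Lb.g g7 (@Lb.g g6 (@Lb.g g5 (@Lb.g g4 (@Lb.d (nat_lit 1) (nat_lit 65) (nat_lit 65) (@Lb.fp (nat_lit 9) t892))))))))))
noncomputable def l3674 : Lb := (@Lb.g g4 (@Lb.r r101 (@Lb.r r24 (@Lb.d (nat_lit 356) (nat_lit 1) (nat_lit 576) (@Lb.t (@Lb.fm (nat_lit 3) t166))))))
noncomputable def l3675 : Lb := (@Lb.d (nat_lit 0) (nat_lit 521) (nat_lit 2) (@Lb.g g9 (@Lb.g g10 (@Lb.g g11 (@Lb.r r1671 (@Lb.r r297 (@Lb.r r2376 (@Lb.r r1638 (@Lb.d (nat_lit 409) (nat_lit 90) (nat_lit 613) (@Lb.t (@Lb.fp (nat_lit 9) t1027)))))))))))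
noncomputable def l3676 : Lb := (@Lb.d (nat_lit 0) (nat_lit 4) (nat_lit 1) (@Lb.g g9 (@Lb.g g10 (@Lb.g g11 (@Lb.r r1671 (@Lb.r r297 (@Lb.r r2376 (@Lb.r r1638 (@Lb.d (nat_lit 409) (nat_lit 90) (nat_lit 613) (@Lb.t (@Lb.fp (nat_lit 9) t1170)))))))))))
noncomputable def l3677 : Lb := (@Lb.d (nat_lit 2) (nat_lit 256) (nat_lit 0) (@Lb.g g8 (@Lb.g g5 (@Lb.r r24 (@Lb.d (nat_lit 10) (nat_lit 5) (nat_lit 1) (@Lb.fm (nat_lit 3) t45))))))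
noncomputable def l3678 : Lb := (@Lb.d (nat_lit 0) (nat_lit 256) (nat_lit 132) (@Lb.g g7 (@Lb.r r101 (@Lb.r r24 (@Lb.d (nat_lit 514) (nat_lit 0) (nat_lit 102) (@Lb.t (@Lb.fm (nat_lit 3) t319)))))))
noncomputable def l3679 : Lb := (@Lb.d (nat_lit 0) (nat_lit 9) (nat_lit 137) (@Lb.g g9 (@Lb.g g10 (@Lb.g g11 (@Lb.r r1671 (@Lb.r r297 (@Lb.r r2376 (@Lb.r r1638 (@Lb.d (nat_lit 409) (nat_lit 90) (nat_lit 613) (@Lb.t (@Lb.fp (nat_lit 9) t1027)))))))))))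
noncomputable def l3680 : Lb := (@Lb.d (nat_lit 513) (nat_lit 420) (nat_lit 296) (@Lb.r r82 (@Lb.r r347 (@Lb.r r264 (@Lb.r r169 (@Lb.g g7 (@Lb.g g6 (@Lb.g g5 (@Lb.d (nat_lit 64) (nat_lit 1) (nat_lit 65) (@Lb.t (@Lb.fp (nat_lit 9) t1171)))))))))))
noncomputable def l3681 : Lb := (@Lb.r r263 (@Lb.d (nat_lit 16) (nat_lit 514) (nat_lit 0) (@Lb.g g8 (@Lb.g g9 (@Lb.g g10 (@Lb.r r683 (@Lb.r r610 (@Lb.r r597 (@Lb.r r392 (@Lb.d (nat_lit 149) (nat_lit 25) (nat_lit 137) (@Lb.t (@Lb.fm (nat_lit 9) t128))))))))))))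
noncomputable def l3682 : Lb := (@Lb.d (nat_lit 2) (nat_lit 2) (nat_lit 130) (@Lb.g g8 (@Lb.g g9 (@Lb.g g10 (@Lb.g g11 (@Lb.r r427 (@Lb.r r297 (@Lb.r r136 (@Lb.r r154 (@Lb.r r132 (@Lb.d (nat_lit 9) (nat_lit 26) (nat_lit 68) (@Lb.fm (nat_lit 9) t119))))))))))))
noncomputable def l3683 : Lb := (@Lb.d (nat_lit 1) (nat_lit 512) (nat_lit 0) (@Lb.g g4 (@Lb.d (nat_lit 1) (nat_lit 73) (nat_lit 16) (@Lb.t (@Lb.fm (nat_lit 3) t21)))))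
noncomputable def l3684 : Lb := (@Lb.d (nat_lit 2) (nat_lit 10) (nat_lit 130) (@Lb.g g8 (@Lb.g g5 (@Lb.g g10 (@Lb.g g11 (@Lb.r r387 (@Lb.r r24 (@Lb.d (nat_lit 10) (nat_lit 0) (nat_lit 137) (@Lb.fp (nat_lit 9) t168)))))))))
noncomputable def l3685 : Lb := (@Lb.g g4 (@Lb.d (nat_lit 0) (nat_lit 329) (nat_lit 16) (@Lb.t (@Lb.fm (nat_lit 3) t21))))
noncomputable def l3686 : Lb := (@Lb.d (nat_lit 2) (nat_lit 24) (nat_lit 5) (@Lb.g g8 (@Lb.g g9 (@Lb.g g10 (@Lb.g g11 (@Lb.r r611 (@Lb.r r100 (@Lb.r r410 (@Lb.r r2729 (@Lb.d (nat_lit 357) (nat_lit 86) (nat_lit 320) (@Lb.fm (nat_lit 9) t602)))))))))))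
noncomputable def l3687 : Lb := (@Lb.r r323 (@Lb.d (nat_lit 2) (nat_lit 2) (nat_lit 1) (@Lb.g g8 (@Lb.g g9 (@Lb.g g6 (@Lb.r r2347 (@Lb.r r97 (@Lb.r r24 (@Lb.d (nat_lit 264) (nat_lit 9) (nat_lit 66) (@Lb.t (@Lb.fp (nat_lit 9) t1172)))))))))))
noncomputable def l3688 : Lb := (@Lb.r r323 (@Lb.d (nat_lit 2) (nat_lit 258) (nat_lit 1) (@Lb.g g8 (@Lb.g g9 (@Lb.g g6 (@Lb.r r2667 (@Lb.r r97 (@Lb.r r24 (@Lb.d (nat_lit 264) (nat_lit 9) (nat_lit 36) (@Lb.t (@Lb.fm (nat_lit 9) t277)))))))))))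
noncomputable def l3689 : Lb := (@Lb.r r323 (@Lb.d (nat_lit 2) (nat_lit 258) (nat_lit 1) (@Lb.g g8 (@Lb.g g9 (@Lb.g g6 (@Lb.r r387 (@Lb.r r25 (@Lb.d (nat_lit 9) (nat_lit 5) (nat_lit 64) (@Lb.t (@Lb.fp (nat_lit 9) t45))))))))))
noncomputable def l3690 : Lb := (@Lb.r r21 (@Lb.d (nat_lit 26) (nat_lit 32) (nat_lit 0) (@Lb.g g8 (@Lb.g g10 (@Lb.g g11 (@Lb.r r2217 (@Lb.r r1642 (@Lb.r r2375 (@Lb.r r536 (@Lb.d (nat_lit 612) (nat_lit 165) (nat_lit 128) (@Lb.t (@Lb.fm (nat_lit 9) t148))))))))))))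
noncomputable def l3691 : Lb := (@Lb.d (nat_lit 0) (nat_lit 289) (nat_lit 66) (@Lb.g g9 (@Lb.g g10 (@Lb.g g11 (@Lb.r r595 (@Lb.r r1702 (@Lb.r r1636 (@Lb.r r1557 (@Lb.d (nat_lit 390) (nat_lit 66) (nat_lit 256) (@Lb.t (@Lb.fm (nat_lit 9) t1001)))))))))))
noncomputable def l3692 : Lb := (@Lb.d (nat_lit 2) (nat_lit 514) (nat_lit 130) (@Lb.g g8 (@Lb.g g9 (@Lb.g g10 (@Lb.g g11 (@Lb.r r1706 (@Lb.r r680 (@Lb.r r555 (@Lb.r r1553 (@Lb.r r2084 (@Lb.d (nat_lit 10) (nat_lit 97) (nat_lit 586) (@Lb.fm (nat_lit 9) t51))))))))))))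
noncomputable def l3693 : Lb := (@Lb.d (nat_lit 0) (nat_lit 289) (nat_lit 66) (@Lb.g g8 (@Lb.g g9 (@Lb.g g10 (@Lb.g g11 (@Lb.r r595 (@Lb.r r1702 (@Lb.r r1636 (@Lb.r r1557 (@Lb.d (nat_lit 390) (nat_lit 66) (nat_lit 256) (@Lb.fp (nat_lit 9) t1001)))))))))))
noncomputable def l3694 : Lb := (@Lb.d (nat_lit 130) (nat_lit 137) (nat_lit 64) (@Lb.g g8 (@Lb.g g5 (@Lb.g g11 (@Lb.r r404 (@Lb.r r2699 (@Lb.r r2178 (@Lb.r r1540 (@Lb.d (nat_lit 18) (nat_lit 104) (nat_lit 678) (@Lb.t (@Lb.fp (nat_lit 9) t1173)))))))))))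
noncomputable def l3695 : Lb := (@Lb.r r24 (@Lb.r r101 (@Lb.d (nat_lit 0) (nat_lit 154) (nat_lit 394) (@Lb.fp (nat_lit 1) t1174))))
noncomputable def l3696 : Lb := (@Lb.g g9 (@Lb.r r2343 (@Lb.r r1096 (@Lb.r r2646 (@Lb.r r409 (@Lb.d (nat_lit 282) (nat_lit 74) (nat_lit 18) (@Lb.t (@Lb.fm (nat_lit 3) t450))))))))
noncomputable def l3697 : Lb := (@Lb.d (nat_lit 0) (nat_lit 0) (nat_lit 130) (@Lb.g g8 (@Lb.g g9 (@Lb.g g10 (@Lb.g g11 (@Lb.r r586 (@Lb.r r584 (@Lb.r r299 (@Lb.r r289 (@Lb.d (nat_lit 9) (nat_lit 137) (nat_lit 2) (@Lb.fp (nat_lit 9) t51)))))))))))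
noncomputable def l3698 : Lb := (@Lb.g g9 (@Lb.g g6 (@Lb.r r2343 (@Lb.r r1096 (@Lb.r r2646 (@Lb.r r289 (@Lb.d (nat_lit 0) (nat_lit 642) (nat_lit 16) (@Lb.fp (nat_lit 3) t1040))))))))
noncomputable def l3699 : Lb := (@Lb.d (nat_lit 18) (nat_lit 10) (nat_lit 0) (@Lb.r r81 (@Lb.r r86 (@Lb.r r343 (@Lb.g g6 (@Lb.g g5 (@Lb.g g4 (@Lb.d (nat_lit 1) (nat_lit 8) (nat_lit 2) (@Lb.r r387 (@Lb.t (@Lb.fp (nat_lit 9) t68)))))))))))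
noncomputable def l3700 : Lb := (@Lb.d (nat_lit 132) (nat_lit 256) (nat_lit 130) (@Lb.g g8 (@Lb.g g9 (@Lb.g g10 (@Lb.g g11 (@Lb.r r419 (@Lb.r r2154 (@Lb.r r2337 (@Lb.r r600 (@Lb.d (nat_lit 325) (nat_lit 165) (nat_lit 168) (@Lb.fp (nat_lit 9) t1175)))))))))))
noncomputable def l3701 : Lb := (@Lb.d (nat_lit 145) (nat_lit 521) (nat_lit 130) (@Lb.g g8 (@Lb.g g9 (@Lb.g g10 (@Lb.g g11 (@Lb.r r683 (@Lb.r r2410 (@Lb.r r1561 (@Lb.r r1540 (@Lb.d (nat_lit 394) (nat_lit 153) (nat_lit 5) (@Lb.fm (nat_lit 9) t53)))))))))))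
noncomputable def l3702 : Lb := (@Lb.d (nat_lit 2) (nat_lit 521) (nat_lit 128) (@Lb.g g8 (@Lb.g g9 (@Lb.g g11 (@Lb.r r138 (@Lb.r r388 (@Lb.r r1323 (@Lb.r r1433 (@Lb.d (nat_lit 280) (nat_lit 69) (nat_lit 385) (@Lb.t (@Lb.fp (nat_lit 9) t982)))))))))))
noncomputable def l3703 : Lb := (@Lb.d (nat_lit 2) (nat_lit 9) (nat_lit 128) (@Lb.g g8 (@Lb.g g9 (@Lb.g g11 (@Lb.r r138 (@Lb.r r388 (@Lb.r r1323 (@Lb.r r1433 (@Lb.d (nat_lit 278) (nat_lit 68) (nat_lit 385) (@Lb.t (@Lb.fp (nat_lit 9) t982)))))))))))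
noncomputable def l3704 : Lb := (@Lb.d (nat_lit 132) (nat_lit 406) (nat_lit 354) (@Lb.r r1560 (@Lb.r r2438 (@Lb.r r347 (@Lb.r r1569 (@Lb.g g7 (@Lb.g g4 (@Lb.d (nat_lit 65) (nat_lit 0) (nat_lit 128) (@Lb.fp (nat_lit 3) t781)))))))))
noncomputable def l3705 : Lb := (@Lb.r r21 (@Lb.d (nat_lit 9) (nat_lit 256) (nat_lit 128) (@Lb.g g8 (@Lb.g g11 (@Lb.r r337 (@Lb.r r2727 (@Lb.r r2694 (@Lb.r r1304 (@Lb.d (nat_lit 136) (nat_lit 153) (nat_lit 406) (@Lb.fp (nat_lit 3) t982))))))))))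
noncomputable def l3706 : Lb := (@Lb.r r82 (@Lb.d (nat_lit 34) (nat_lit 2) (nat_lit 0) (@Lb.g g8 (@Lb.g g9 (@Lb.g g11 (@Lb.r r1571 (@Lb.r r582 (@Lb.r r1177 (@Lb.r r408 (@Lb.d (nat_lit 344) (nat_lit 26) (nat_lit 586) (@Lb.t (@Lb.fm (nat_lit 9) t264))))))))))))
noncomputable def l3707 : Lb := (@Lb.d (nat_lit 298) (nat_lit 357) (nat_lit 72) (@Lb.r r1114 (@Lb.r r1096 (@Lb.r r297 (@Lb.r r1363 (@Lb.g g7 (@Lb.g g6 (@Lb.g g5 (@Lb.d (nat_lit 0) (nat_lit 1) (nat_lit 64) (@Lb.t (@Lb.fp (nat_lit 9) t1028)))))))))))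
noncomputable def l3708 : Lb := (@Lb.d (nat_lit 298) (nat_lit 65) (nat_lit 0) (@Lb.r r289 (@Lb.r r1386 (@Lb.r r1096 (@Lb.r r1371 (@Lb.g g7 (@Lb.g g6 (@Lb.g g5 (@Lb.d (nat_lit 0) (nat_lit 0) (nat_lit 64) (@Lb.t (@Lb.fp (nat_lit 9) t1028)))))))))))
noncomputable def l3709 : Lb := (@Lb.d (nat_lit 0) (nat_lit 102) (nat_lit 70) (@Lb.r r24 (@Lb.r r322 (@Lb.r r659 (@Lb.g g7 (@Lb.g g6 (@Lb.g g9 (@Lb.d (nat_lit 0) (nat_lit 10) (nat_lit 133) (@Lb.t (@Lb.fm (nat_lit 9) t1176))))))))))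
noncomputable def l3710 : Lb := (@Lb.r r2311 (@Lb.r r24 (@Lb.r r101 (@Lb.r r1114 (@Lb.d (nat_lit 529) (nat_lit 256) (nat_lit 33) (@Lb.fp (nat_lit 1) t1177))))))
noncomputable def l3711 : Lb := (@Lb.d (nat_lit 128) (nat_lit 514) (nat_lit 130) (@Lb.g g9 (@Lb.g g10 (@Lb.g g11 (@Lb.r r264 (@Lb.r r2583 (@Lb.r r106 (@Lb.r r97 (@Lb.d (nat_lit 261) (nat_lit 152) (nat_lit 18) (@Lb.t (@Lb.fp (nat_lit 9) t781)))))))))))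
noncomputable def l3712 : Lb := (@Lb.d (nat_lit 336) (nat_lit 512) (nat_lit 646) (@Lb.r r24 (@Lb.r r2587 (@Lb.r r1365 (@Lb.r r2466 (@Lb.g g7 (@Lb.g g6 (@Lb.g g5 (@Lb.d (nat_lit 0) (nat_lit 6) (nat_lit 72) (@Lb.t (@Lb.fm (nat_lit 9) t868)))))))))))
noncomputable def l3713 : Lb := (@Lb.r r21 (@Lb.r r70 (@Lb.r r263 (@Lb.g g8 (@Lb.r r267 (@Lb.r r74 (@Lb.r r25 (@Lb.d (nat_lit 0) (nat_lit 5) (nat_lit 1) (@Lb.t (@Lb.fp (nat_lit 3) t1178))))))))))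
noncomputable def l3714 : Lb := (@Lb.r r323 (@Lb.d (nat_lit 2) (nat_lit 514) (nat_lit 0) (@Lb.g g8 (@Lb.g g9 (@Lb.g g10 (@Lb.r r683 (@Lb.r r170 (@Lb.r r164 (@Lb.r r37 (@Lb.d (nat_lit 5) (nat_lit 8) (nat_lit 18) (@Lb.t (@Lb.fp (nat_lit 9) t221))))))))))))
noncomputable def l3715 : Lb := (@Lb.d (nat_lit 6) (nat_lit 512) (nat_lit 130) (@Lb.g g8 (@Lb.g g9 (@Lb.g g10 (@Lb.g g11 (@Lb.r r1443 (@Lb.r r1690 (@Lb.r r1313 (@Lb.r r2196 (@Lb.d (nat_lit 82) (nat_lit 8) (nat_lit 34) (@Lb.fp (nat_lit 9) t1179)))))))))))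
noncomputable def l3716 : Lb := (@Lb.d (nat_lit 2) (nat_lit 289) (nat_lit 130) (@Lb.g g8 (@Lb.g g9 (@Lb.g g10 (@Lb.g g11 (@Lb.r r2454 (@Lb.r r2391 (@Lb.r r1433 (@Lb.r r24 (@Lb.d (nat_lit 682) (nat_lit 168) (nat_lit 548) (@Lb.fp (nat_lit 9) t1001)))))))))))
noncomputable def l3717 : Lb := (@Lb.d (nat_lit 8) (nat_lit 258) (nat_lit 74) (@Lb.g g9 (@Lb.g g10 (@Lb.g g11 (@Lb.r r387 (@Lb.r r2136 (@Lb.r r1414 (@Lb.r r1617 (@Lb.d (nat_lit 65) (nat_lit 102) (nat_lit 166) (@Lb.t (@Lb.fm (nat_lit 9) t444)))))))))))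
noncomputable def l3718 : Lb := (@Lb.d (nat_lit 40) (nat_lit 522) (nat_lit 130) (@Lb.g g9 (@Lb.g g10 (@Lb.g g11 (@Lb.r r391 (@Lb.r r584 (@Lb.r r662 (@Lb.r r1617 (@Lb.d (nat_lit 165) (nat_lit 133) (nat_lit 618) (@Lb.t (@Lb.fm (nat_lit 9) t206)))))))))))
noncomputable def l3719 : Lb := (@Lb.d (nat_lit 146) (nat_lit 265) (nat_lit 130) (@Lb.g g8 (@Lb.g g9 (@Lb.g g10 (@Lb.g g11 (@Lb.r r1706 (@Lb.r r1411 (@Lb.r r1188 (@Lb.r r2197 (@Lb.d (nat_lit 585) (nat_lit 90) (nat_lit 100) (@Lb.fm (nat_lit 9) t1180)))))))))))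
noncomputable def l3720 : Lb := (@Lb.d (nat_lit 146) (nat_lit 258) (nat_lit 128) (@Lb.g g8 (@Lb.g g9 (@Lb.g g10 (@Lb.g g11 (@Lb.r r1706 (@Lb.r r1411 (@Lb.r r36 (@Lb.r r1045 (@Lb.r r2084 (@Lb.d (nat_lit 354) (nat_lit 68) (nat_lit 344) (@Lb.fm (nat_lit 9) t11))))))))))))
noncomputable def l3721 : Lb := (@Lb.d (nat_lit 2) (nat_lit 512) (nat_lit 128) (@Lb.g g8 (@Lb.g g11 (@Lb.r r406 (@Lb.r r2659 (@Lb.r r1304 (@Lb.r r2661 (@Lb.d (nat_lit 520) (nat_lit 2) (nat_lit 596) (@Lb.fm (nat_lit 3) t1181)))))))))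
noncomputable def l3722 : Lb := (@Lb.d (nat_lit 2) (nat_lit 33) (nat_lit 130) (@Lb.g g8 (@Lb.g g9 (@Lb.g g10 (@Lb.g g11 (@Lb.r r2454 (@Lb.r r2391 (@Lb.r r1433 (@Lb.r r24 (@Lb.d (nat_lit 682) (nat_lit 168) (nat_lit 617) (@Lb.fp (nat_lit 9) t1182)))))))))))
noncomputable def l3723 : Lb := (@Lb.d (nat_lit 133) (nat_lit 290) (nat_lit 66) (@Lb.g g8 (@Lb.g g9 (@Lb.g g10 (@Lb.g g11 (@Lb.r r2454 (@Lb.r r2407 (@Lb.r r1304 (@Lb.r r149 (@Lb.d (nat_lit 388) (nat_lit 106) (nat_lit 352) (@Lb.fp (nat_lit 9) t512)))))))))))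
noncomputable def l3724 : Lb := (@Lb.r r90 (@Lb.r r283 (@Lb.d (nat_lit 36) (nat_lit 160) (nat_lit 0) (@Lb.g g8 (@Lb.g g9 (@Lb.r r1555 (@Lb.r r70 (@Lb.r r1668 (@Lb.d (nat_lit 418) (nat_lit 2) (nat_lit 678) (@Lb.fp (nat_lit 3) t86))))))))))
noncomputable def l3725 : Lb := (@Lb.r r24 (@Lb.d (nat_lit 0) (nat_lit 330) (nat_lit 2) (@Lb.fm (nat_lit 1) t21)))
noncomputable def l3726 : Lb := (@Lb.r r283 (@Lb.d (nat_lit 146) (nat_lit 522) (nat_lit 1) (@Lb.g g8 (@Lb.g g9 (@Lb.g g10 (@Lb.r r98 (@Lb.r r1385 (@Lb.r r1559 (@Lb.r r420 (@Lb.d (nat_lit 106) (nat_lit 38) (nat_lit 10) (@Lb.t (@Lb.fm (nat_lit 9) t344))))))))))))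
noncomputable def l3727 : Lb := (@Lb.r r21 (@Lb.d (nat_lit 129) (nat_lit 256) (nat_lit 4) (@Lb.g g8 (@Lb.g g10 (@Lb.g g11 (@Lb.r r1691 (@Lb.r r1689 (@Lb.r r1370 (@Lb.r r1348 (@Lb.d (nat_lit 393) (nat_lit 25) (nat_lit 586) (@Lb.t (@Lb.fp (nat_lit 9) t74))))))))))))
noncomputable def l3728 : Lb := (@Lb.r r323 (@Lb.d (nat_lit 673) (nat_lit 33) (nat_lit 1) (@Lb.g g4 (@Lb.g g9 (@Lb.g g10 (@Lb.r r2579 (@Lb.r r2390 (@Lb.r r1305 (@Lb.d (nat_lit 648) (nat_lit 4) (nat_lit 345) (@Lb.t (@Lb.fm (nat_lit 9) t1183)))))))))))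
noncomputable def l3729 : Lb := (@Lb.r r273 (@Lb.r r322 (@Lb.d (nat_lit 0) (nat_lit 512) (nat_lit 584) (@Lb.g g8 (@Lb.g g7 (@Lb.r r280 (@Lb.r r101 (@Lb.r r146 (@Lb.d (nat_lit 1) (nat_lit 132) (nat_lit 513) (@Lb.fm (nat_lit 3) t1184))))))))))
noncomputable def l3730 : Lb := (@Lb.r r322 (@Lb.d (nat_lit 9) (nat_lit 16) (nat_lit 648) (@Lb.g g8 (@Lb.g g9 (@Lb.g g7 (@Lb.r r2730 (@Lb.r r1109 (@Lb.r r24 (@Lb.d (nat_lit 354) (nat_lit 137) (nat_lit 594) (@Lb.t (@Lb.fp (nat_lit 9) t378)))))))))))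
noncomputable def l3731 : Lb := (@Lb.d (nat_lit 70) (nat_lit 545) (nat_lit 9) (@Lb.g g8 (@Lb.g g9 (@Lb.g g10 (@Lb.g g11 (@Lb.r r1451 (@Lb.r r1642 (@Lb.r r1561 (@Lb.r r1284 (@Lb.d (nat_lit 265) (nat_lit 25) (nat_lit 581) (@Lb.fp (nat_lit 9) t43)))))))))))
noncomputable def l3732 : Lb := (@Lb.d (nat_lit 9) (nat_lit 2) (nat_lit 137) (@Lb.g g8 (@Lb.g g9 (@Lb.g g10 (@Lb.g g11 (@Lb.r r682 (@Lb.r r676 (@Lb.r r551 (@Lb.r r1557 (@Lb.r r36 (@Lb.d (nat_lit 393) (nat_lit 65) (nat_lit 586) (@Lb.fp (nat_lit 9) t284))))))))))))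
noncomputable def l3733 : Lb := (@Lb.d (nat_lit 586) (nat_lit 608) (nat_lit 586) (@Lb.r r1305 (@Lb.r r1428 (@Lb.r r2390 (@Lb.r r611 (@Lb.g g7 (@Lb.g g6 (@Lb.g g5 (@Lb.d (nat_lit 0) (nat_lit 4) (nat_lit 134) (@Lb.t (@Lb.fm (nat_lit 9) t795)))))))))))
noncomputable def l3734 : Lb := (@Lb.r r263 (@Lb.d (nat_lit 2) (nat_lit 2) (nat_lit 2) (@Lb.g g8 (@Lb.g g9 (@Lb.g g10 (@Lb.r r1668 (@Lb.r r1559 (@Lb.r r386 (@Lb.r r97 (@Lb.d (nat_lit 0) (nat_lit 0) (nat_lit 84) (@Lb.t (@Lb.fp (nat_lit 9) t31))))))))))))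
noncomputable def l3735 : Lb := (@Lb.d (nat_lit 9) (nat_lit 513) (nat_lit 130) (@Lb.g g8 (@Lb.g g9 (@Lb.g g10 (@Lb.g g11 (@Lb.r r553 (@Lb.r r299 (@Lb.r r388 (@Lb.r r70 (@Lb.r r132 (@Lb.d (nat_lit 25) (nat_lit 138) (nat_lit 41) (@Lb.fm (nat_lit 9) t126))))))))))))
noncomputable def l3736 : Lb := (@Lb.d (nat_lit 9) (nat_lit 6) (nat_lit 128) (@Lb.g g8 (@Lb.g g9 (@Lb.g g10 (@Lb.g g11 (@Lb.r r2729 (@Lb.r r299 (@Lb.r r132 (@Lb.r r582 (@Lb.r r2180 (@Lb.d (nat_lit 2) (nat_lit 10) (nat_lit 345) (@Lb.fm (nat_lit 9) t217))))))))))))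
noncomputable def l3737 : Lb := (@Lb.d (nat_lit 682) (nat_lit 69) (nat_lit 580) (@Lb.r r2657 (@Lb.r r1158 (@Lb.r r1447 (@Lb.g g6 (@Lb.g g5 (@Lb.g g8 (@Lb.d (nat_lit 330) (nat_lit 21) (nat_lit 2) (@Lb.t (@Lb.fm (nat_lit 9) t1185))))))))))
noncomputable def l3738 : Lb := (@Lb.d (nat_lit 9) (nat_lit 18) (nat_lit 2) (@Lb.g g8 (@Lb.g g9 (@Lb.g g10 (@Lb.g g11 (@Lb.r r529 (@Lb.r r1668 (@Lb.r r1559 (@Lb.r r386 (@Lb.d (nat_lit 386) (nat_lit 4) (nat_lit 534) (@Lb.fp (nat_lit 9) t31)))))))))))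
noncomputable def l3739 : Lb := (@Lb.d (nat_lit 145) (nat_lit 256) (nat_lit 74) (@Lb.g g8 (@Lb.g g10 (@Lb.g g11 (@Lb.r r1675 (@Lb.r r330 (@Lb.r r537 (@Lb.r r1540 (@Lb.d (nat_lit 546) (nat_lit 0) (nat_lit 533) (@Lb.t (@Lb.fp (nat_lit 9) t283)))))))))))
noncomputable def l3740 : Lb := (@Lb.r r82 (@Lb.d (nat_lit 5) (nat_lit 554) (nat_lit 64) (@Lb.g g4 (@Lb.g g9 (@Lb.g g11 (@Lb.r r615 (@Lb.r r402 (@Lb.r r601 (@Lb.d (nat_lit 132) (nat_lit 168) (nat_lit 137) (@Lb.t (@Lb.fp (nat_lit 9) t106)))))))))))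
noncomputable def l3741 : Lb := (@Lb.d (nat_lit 129) (nat_lit 257) (nat_lit 0) (@Lb.g g8 (@Lb.g g9 (@Lb.r r535 (@Lb.r r418 (@Lb.r r401 (@Lb.r r104 (@Lb.d (nat_lit 38) (nat_lit 33) (nat_lit 136) (@Lb.fp (nat_lit 3) t71)))))))))
noncomputable def l3742 : Lb := (@Lb.d (nat_lit 1) (nat_lit 514) (nat_lit 130) (@Lb.g g8 (@Lb.g g9 (@Lb.g g10 (@Lb.g g11 (@Lb.r r582 (@Lb.r r388 (@Lb.r r1323 (@Lb.r r1313 (@Lb.d (nat_lit 2) (nat_lit 132) (nat_lit 385) (@Lb.fm (nat_lit 9) t119)))))))))))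
noncomputable def l3743 : Lb := (@Lb.r r323 (@Lb.d (nat_lit 1) (nat_lit 514) (nat_lit 2) (@Lb.g g8 (@Lb.g g9 (@Lb.g g10 (@Lb.r r70 (@Lb.r r388 (@Lb.r r1323 (@Lb.r r1313 (@Lb.d (nat_lit 10) (nat_lit 133) (nat_lit 385) (@Lb.t (@Lb.fp (nat_lit 9) t119))))))))))))
noncomputable def l3744 : Lb := (@Lb.r r283 (@Lb.d (nat_lit 41) (nat_lit 261) (nat_lit 0) (@Lb.g g8 (@Lb.g g9 (@Lb.g g10 (@Lb.r r2705 (@Lb.r r1555 (@Lb.r r70 (@Lb.r r1668 (@Lb.d (nat_lit 289) (nat_lit 0) (nat_lit 614) (@Lb.t (@Lb.fp (nat_lit 9) t86))))))))))))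
noncomputable def l3745 : Lb := (@Lb.d (nat_lit 2) (nat_lit 4) (nat_lit 74) (@Lb.g g8 (@Lb.g g9 (@Lb.g g10 (@Lb.g g11 (@Lb.r r2691 (@Lb.r r2474 (@Lb.r r1313 (@Lb.r r24 (@Lb.d (nat_lit 138) (nat_lit 161) (nat_lit 424) (@Lb.fp (nat_lit 9) t377)))))))))))
noncomputable def l3746 : Lb := (@Lb.d (nat_lit 106) (nat_lit 34) (nat_lit 4) (@Lb.g g8 (@Lb.g g9 (@Lb.g g10 (@Lb.g g11 (@Lb.r r343 (@Lb.r r2390 (@Lb.r r1365 (@Lb.r r276 (@Lb.d (nat_lit 673) (nat_lit 169) (nat_lit 533) (@Lb.fp (nat_lit 9) t169)))))))))))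
noncomputable def l3747 : Lb := (@Lb.d (nat_lit 6) (nat_lit 290) (nat_lit 130) (@Lb.g g4 (@Lb.g g9 (@Lb.g g10 (@Lb.g g11 (@Lb.r r387 (@Lb.r r386 (@Lb.r r1557 (@Lb.d (nat_lit 389) (nat_lit 106) (nat_lit 641) (@Lb.fp (nat_lit 9) t1176))))))))))
noncomputable def l3748 : Lb := (@Lb.r r82 (@Lb.d (nat_lit 0) (nat_lit 258) (nat_lit 128) (@Lb.g g8 (@Lb.g g9 (@Lb.g g11 (@Lb.r r1315 (@Lb.r r1441 (@Lb.r r1642 (@Lb.r r1608 (@Lb.d (nat_lit 265) (nat_lit 2) (nat_lit 74) (@Lb.t (@Lb.fm (nat_lit 9) t1186))))))))))))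
noncomputable def l3749 : Lb := (@Lb.d (nat_lit 0) (nat_lit 257) (nat_lit 130) (@Lb.g g8 (@Lb.g g9 (@Lb.g g10 (@Lb.g g11 (@Lb.r r618 (@Lb.r r105 (@Lb.r r340 (@Lb.r r2587 (@Lb.r r2564 (@Lb.d (nat_lit 9) (nat_lit 146) (nat_lit 640) (@Lb.fp (nat_lit 9) t71))))))))))))
noncomputable def l3750 : Lb := (@Lb.d (nat_lit 322) (nat_lit 594) (nat_lit 320) (@Lb.r r2345 (@Lb.r r2468 (@Lb.r r1686 (@Lb.r r579 (@Lb.g g7 (@Lb.g g6 (@Lb.g g5 (@Lb.d (nat_lit 0) (nat_lit 32) (nat_lit 1) (@Lb.t (@Lb.fm (nat_lit 9) t511)))))))))))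
noncomputable def l3751 : Lb := (@Lb.d (nat_lit 138) (nat_lit 65) (nat_lit 0) (@Lb.r r289 (@Lb.r r279 (@Lb.r r584 (@Lb.r r358 (@Lb.g g7 (@Lb.g g6 (@Lb.d (nat_lit 0) (nat_lit 0) (nat_lit 64) (@Lb.fm (nat_lit 3) t151)))))))))
noncomputable def l3752 : Lb := (@Lb.d (nat_lit 293) (nat_lit 576) (nat_lit 0) (@Lb.r r24 (@Lb.r r101 (@Lb.r r402 (@Lb.r r1379 (@Lb.g g7 (@Lb.g g6 (@Lb.fp (nat_lit 3) t793))))))))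
noncomputable def l3753 : Lb := (@Lb.r r21 (@Lb.r r70 (@Lb.r r263 (@Lb.d (nat_lit 549) (nat_lit 0) (nat_lit 0) (@Lb.g g4 (@Lb.r r267 (@Lb.r r74 (@Lb.r r25 (@Lb.d (nat_lit 282) (nat_lit 0) (nat_lit 0) (@Lb.t (@Lb.fm (nat_lit 3) t1187)))))))))))
noncomputable def l3754 : Lb := (@Lb.r r359 (@Lb.d (nat_lit 0) (nat_lit 264) (nat_lit 17) (@Lb.g g8 (@Lb.g g9 (@Lb.g g6 (@Lb.r r2667 (@Lb.r r1377 (@Lb.r r536 (@Lb.d (nat_lit 328) (nat_lit 153) (nat_lit 532) (@Lb.t (@Lb.fm (nat_lit 9) t1188)))))))))))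
noncomputable def l3755 : Lb := (@Lb.d (nat_lit 298) (nat_lit 65) (nat_lit 0) (@Lb.r r289 (@Lb.r r1386 (@Lb.r r1096 (@Lb.r r1371 (@Lb.g g7 (@Lb.g g5 (@Lb.d (nat_lit 0) (nat_lit 0) (nat_lit 64) (@Lb.fm (nat_lit 3) t1189)))))))))
noncomputable def l3756 : Lb := (@Lb.r r21 (@Lb.d (nat_lit 2) (nat_lit 512) (nat_lit 130) (@Lb.g g8 (@Lb.g g10 (@Lb.g g11 (@Lb.r r395 (@Lb.r r386 (@Lb.r r149 (@Lb.r r72 (@Lb.d (nat_lit 81) (nat_lit 164) (nat_lit 329) (@Lb.t (@Lb.fm (nat_lit 9) t139))))))))))))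
noncomputable def l3757 : Lb := (@Lb.d (nat_lit 36) (nat_lit 258) (nat_lit 130) (@Lb.g g8 (@Lb.g g9 (@Lb.g g10 (@Lb.g g11 (@Lb.r r164 (@Lb.r r405 (@Lb.r r1387 (@Lb.r r2630 (@Lb.r r2180 (@Lb.d (nat_lit 402) (nat_lit 136) (nat_lit 97) (@Lb.fp (nat_lit 9) t1011))))))))))))
noncomputable def l3758 : Lb := (@Lb.d (nat_lit 34) (nat_lit 513) (nat_lit 130) (@Lb.g g8 (@Lb.g g9 (@Lb.g g10 (@Lb.g g11 (@Lb.r r164 (@Lb.r r405 (@Lb.r r1387 (@Lb.r r2630 (@Lb.r r2180 (@Lb.d (nat_lit 402) (nat_lit 136) (nat_lit 97) (@Lb.fp (nat_lit 9) t1011))))))))))))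
noncomputable def l3759 : Lb := (@Lb.d (nat_lit 32) (nat_lit 514) (nat_lit 64) (@Lb.g g8 (@Lb.g g9 (@Lb.g g7 (@Lb.r r361 (@Lb.r r150 (@Lb.r r1124 (@Lb.d (nat_lit 282) (nat_lit 26) (nat_lit 537) (@Lb.t (@Lb.fp (nat_lit 9) t1190))))))))))
noncomputable def l3760 : Lb := (@Lb.r r275 (@Lb.d (nat_lit 0) (nat_lit 673) (nat_lit 0) (@Lb.g g5 (@Lb.r r291 (@Lb.d (nat_lit 0) (nat_lit 81) (nat_lit 64) (@Lb.t (@Lb.fm (nat_lit 3) t1191)))))))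
noncomputable def l3761 : Lb := (@Lb.d (nat_lit 0) (nat_lit 264) (nat_lit 2) (@Lb.g g10 (@Lb.r r101 (@Lb.r r24 (@Lb.d (nat_lit 0) (nat_lit 0) (nat_lit 66) (@Lb.t (@Lb.fp (nat_lit 3) t145)))))))
noncomputable def l3762 : Lb := (@Lb.d (nat_lit 4) (nat_lit 10) (nat_lit 4) (@Lb.g g8 (@Lb.g g9 (@Lb.g g10 (@Lb.g g11 (@Lb.r r2466 (@Lb.r r548 (@Lb.r r661 (@Lb.r r535 (@Lb.r r2084 (@Lb.d (nat_lit 648) (nat_lit 9) (nat_lit 329) (@Lb.fp (nat_lit 9) t1192))))))))))))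
noncomputable def l3763 : Lb := (@Lb.d (nat_lit 390) (nat_lit 406) (nat_lit 594) (@Lb.r r2325 (@Lb.r r2390 (@Lb.r r2731 (@Lb.g g6 (@Lb.g g5 (@Lb.g g4 (@Lb.d (nat_lit 1) (nat_lit 0) (nat_lit 1) (@Lb.t (@Lb.fm (nat_lit 9) t578))))))))))
noncomputable def l3764 : Lb := (@Lb.d (nat_lit 32) (nat_lit 544) (nat_lit 18) (@Lb.g g10 (@Lb.g g11 (@Lb.r r353 (@Lb.r r343 (@Lb.r r1096 (@Lb.d (nat_lit 393) (nat_lit 80) (nat_lit 425) (@Lb.fm (nat_lit 3) t1193))))))))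
noncomputable def l3765 : Lb := (@Lb.d (nat_lit 0) (nat_lit 266) (nat_lit 6) (@Lb.g g9 (@Lb.g g10 (@Lb.g g11 (@Lb.r r2726 (@Lb.r r2705 (@Lb.r r2587 (@Lb.r r24 (@Lb.d (nat_lit 129) (nat_lit 17) (nat_lit 330) (@Lb.t (@Lb.fp (nat_lit 9) t742)))))))))))
noncomputable def l3766 : Lb := (@Lb.g g6 (@Lb.r r97 (@Lb.r r2130 (@Lb.r r145 (@Lb.t (@Lb.fp (nat_lit 3) t980))))))
noncomputable def l3767 : Lb := (@Lb.d (nat_lit 2) (nat_lit 8) (nat_lit 33) (@Lb.g g8 (@Lb.g g6 (@Lb.g g11 (@Lb.r r596 (@Lb.r r279 (@Lb.r r2081 (@Lb.r r1540 (@Lb.d (nat_lit 0) (nat_lit 64) (nat_lit 168) (@Lb.t (@Lb.fm (nat_lit 9) t1194)))))))))))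
noncomputable def l3768 : Lb := (@Lb.d (nat_lit 0) (nat_lit 512) (nat_lit 128) (@Lb.g g9 (@Lb.g g11 (@Lb.r r2471 (@Lb.r r1096 (@Lb.r r2646 (@Lb.r r289 (@Lb.d (nat_lit 536) (nat_lit 9) (nat_lit 16) (@Lb.fm (nat_lit 3) t1195)))))))))
noncomputable def l3769 : Lb := (@Lb.r r299 (@Lb.d (nat_lit 9) (nat_lit 545) (nat_lit 2) (@Lb.g g8 (@Lb.g g9 (@Lb.g g10 (@Lb.r r1683 (@Lb.r r1350 (@Lb.r r2696 (@Lb.d (nat_lit 528) (nat_lit 2) (nat_lit 86) (@Lb.t (@Lb.fm (nat_lit 9) t264)))))))))))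
noncomputable def l3770 : Lb := (@Lb.d (nat_lit 4) (nat_lit 257) (nat_lit 2) (@Lb.g g5 (@Lb.g g10 (@Lb.r r146 (@Lb.d (nat_lit 1) (nat_lit 1) (nat_lit 2) (@Lb.fm (nat_lit 3) t44))))))
noncomputable def l3771 : Lb := (@Lb.d (nat_lit 0) (nat_lit 520) (nat_lit 2) (@Lb.g g10 (@Lb.r r89 (@Lb.r r2150 (@Lb.d (nat_lit 17) (nat_lit 10) (nat_lit 34) (@Lb.t (@Lb.fp (nat_lit 3) t1196)))))))
noncomputable def l3772 : Lb := (@Lb.d (nat_lit 2) (nat_lit 258) (nat_lit 137) (@Lb.g g8 (@Lb.g g9 (@Lb.g g10 (@Lb.g g11 (@Lb.r r2699 (@Lb.r r664 (@Lb.r r154 (@Lb.r r21 (@Lb.r r36 (@Lb.d (nat_lit 513) (nat_lit 68) (nat_lit 168) (@Lb.fm (nat_lit 9) t386))))))))))))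
noncomputable def l3773 : Lb := (@Lb.r r299 (@Lb.d (nat_lit 9) (nat_lit 289) (nat_lit 2) (@Lb.g g8 (@Lb.g g9 (@Lb.g g10 (@Lb.r r1683 (@Lb.r r1350 (@Lb.r r2696 (@Lb.d (nat_lit 533) (nat_lit 0) (nat_lit 86) (@Lb.t (@Lb.fm (nat_lit 9) t594)))))))))))
noncomputable def l3774 : Lb := (@Lb.d (nat_lit 660) (nat_lit 89) (nat_lit 352) (@Lb.r r2321 (@Lb.r r2182 (@Lb.r r679 (@Lb.g g6 (@Lb.g g5 (@Lb.g g8 (@Lb.d (nat_lit 10) (nat_lit 5) (nat_lit 1) (@Lb.r r387 (@Lb.t (@Lb.fm (nat_lit 9) t1197)))))))))))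
noncomputable def l3775 : Lb := (@Lb.d (nat_lit 584) (nat_lit 338) (nat_lit 322) (@Lb.r r2340 (@Lb.r r2325 (@Lb.r r1643 (@Lb.g g10 (@Lb.g g5 (@Lb.g g4 (@Lb.d (nat_lit 20) (nat_lit 2) (nat_lit 24) (@Lb.r r387 (@Lb.t (@Lb.fp (nat_lit 9) t200)))))))))))
noncomputable def l3776 : Lb := (@Lb.r r295 (@Lb.d (nat_lit 2) (nat_lit 289) (nat_lit 2) (@Lb.g g8 (@Lb.g g9 (@Lb.g g10 (@Lb.r r1682 (@Lb.r r407 (@Lb.r r1540 (@Lb.d (nat_lit 672) (nat_lit 2) (nat_lit 674) (@Lb.t (@Lb.fp (nat_lit 9) t264)))))))))))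
noncomputable def l3777 : Lb := (@Lb.d (nat_lit 554) (nat_lit 582) (nat_lit 33) (@Lb.r r2217 (@Lb.r r1174 (@Lb.r r1367 (@Lb.g g5 (@Lb.g g4 (@Lb.r r291 (@Lb.r r98 (@Lb.fm (nat_lit 3) t1187)))))))))
noncomputable def l3778 : Lb := (@Lb.r r70 (@Lb.r r263 (@Lb.d (nat_lit 6) (nat_lit 513) (nat_lit 0) (@Lb.g g8 (@Lb.g g5 (@Lb.r r1315 (@Lb.r r1122 (@Lb.r r1160 (@Lb.d (nat_lit 530) (nat_lit 132) (nat_lit 18) (@Lb.fm (nat_lit 3) t630))))))))))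
noncomputable def l3779 : Lb := (@Lb.d (nat_lit 22) (nat_lit 516) (nat_lit 128) (@Lb.g g8 (@Lb.g g9 (@Lb.g g10 (@Lb.g g11 (@Lb.r r1346 (@Lb.r r1441 (@Lb.r r2715 (@Lb.r r2728 (@Lb.d (nat_lit 585) (nat_lit 81) (nat_lit 389) (@Lb.fm (nat_lit 9) t1198)))))))))))
noncomputable def l3780 : Lb := (@Lb.d (nat_lit 0) (nat_lit 16) (nat_lit 2) (@Lb.g g9 (@Lb.g g10 (@Lb.g g11 (@Lb.r r579 (@Lb.r r1686 (@Lb.r r1620 (@Lb.r r2345 (@Lb.d (nat_lit 644) (nat_lit 33) (nat_lit 640) (@Lb.t (@Lb.fp (nat_lit 9) t1001)))))))))))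
noncomputable def l3781 : Lb := (@Lb.d (nat_lit 40) (nat_lit 513) (nat_lit 129) (@Lb.g g8 (@Lb.g g9 (@Lb.g g10 (@Lb.g g11 (@Lb.r r642 (@Lb.r r545 (@Lb.r r423 (@Lb.r r580 (@Lb.d (nat_lit 137) (nat_lit 5) (nat_lit 136) (@Lb.fp (nat_lit 9) t522)))))))))))
noncomputable def l3782 : Lb := (@Lb.d (nat_lit 8) (nat_lit 9) (nat_lit 0) (@Lb.g g9 (@Lb.g g7 (@Lb.r r24 (@Lb.d (nat_lit 0) (nat_lit 2) (nat_lit 68) (@Lb.fm (nat_lit 3) t40))))))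
noncomputable def l3783 : Lb := (@Lb.d (nat_lit 10) (nat_lit 2) (nat_lit 130) (@Lb.g g8 (@Lb.g g9 (@Lb.g g10 (@Lb.g g11 (@Lb.r r650 (@Lb.r r648 (@Lb.r r555 (@Lb.r r529 (@Lb.r r36 (@Lb.d (nat_lit 10) (nat_lit 9) (nat_lit 2) (@Lb.fm (nat_lit 9) t51))))))))))))
noncomputable def l3784 : Lb := (@Lb.d (nat_lit 0) (nat_lit 256) (nat_lit 68) (@Lb.g g5 (@Lb.g g7 (@Lb.r r402 (@Lb.d (nat_lit 0) (nat_lit 8) (nat_lit 65) (@Lb.fp (nat_lit 3) t44))))))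
noncomputable def l3785 : Lb := (@Lb.d (nat_lit 2) (nat_lit 2) (nat_lit 130) (@Lb.g g8 (@Lb.g g9 (@Lb.g g10 (@Lb.g g11 (@Lb.r r2666 (@Lb.r r579 (@Lb.r r292 (@Lb.r r405 (@Lb.r r2084 (@Lb.d (nat_lit 0) (nat_lit 154) (nat_lit 594) (@Lb.fm (nat_lit 9) t1199))))))))))))
noncomputable def l3786 : Lb := (@Lb.g g4 (@Lb.g g5 (@Lb.d (nat_lit 1) (nat_lit 256) (nat_lit 0) (@Lb.fm (nat_lit 3) t2))))
noncomputable def l3787 : Lb := (@Lb.d (nat_lit 10) (nat_lit 258) (nat_lit 0) (@Lb.g g5 (@Lb.t (@Lb.fm (nat_lit 3) t2))))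
noncomputable def l3788 : Lb := (@Lb.d (nat_lit 0) (nat_lit 9) (nat_lit 132) (@Lb.g g9 (@Lb.g g10 (@Lb.g g11 (@Lb.r r2466 (@Lb.r r2713 (@Lb.r r2587 (@Lb.r r24 (@Lb.d (nat_lit 674) (nat_lit 0) (nat_lit 329) (@Lb.t (@Lb.fp (nat_lit 9) t538)))))))))))
noncomputable def l3789 : Lb := (@Lb.d (nat_lit 2) (nat_lit 2) (nat_lit 130) (@Lb.g g8 (@Lb.g g9 (@Lb.g g10 (@Lb.g g11 (@Lb.r r2467 (@Lb.r r168 (@Lb.r r426 (@Lb.r r1177 (@Lb.r r1156 (@Lb.d (nat_lit 521) (nat_lit 97) (nat_lit 10) (@Lb.fp (nat_lit 9) t445))))))))))))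
noncomputable def l3790 : Lb := (@Lb.d (nat_lit 2) (nat_lit 258) (nat_lit 128) (@Lb.g g8 (@Lb.g g9 (@Lb.g g11 (@Lb.r r1410 (@Lb.r r1607 (@Lb.r r2457 (@Lb.r r2436 (@Lb.d (nat_lit 69) (nat_lit 134) (nat_lit 529) (@Lb.t (@Lb.fm (nat_lit 9) t1200)))))))))))
noncomputable def l3791 : Lb := (@Lb.d (nat_lit 256) (nat_lit 256) (nat_lit 1) (@Lb.r r2084 (@Lb.r r1557 (@Lb.r r283 (@Lb.r r388 (@Lb.g g6 (@Lb.d (nat_lit 16) (nat_lit 0) (nat_lit 33) (@Lb.t (@Lb.fm (nat_lit 3) t1201)))))))))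
noncomputable def l3792 : Lb := (@Lb.d (nat_lit 0) (nat_lit 10) (nat_lit 2) (@Lb.g g9 (@Lb.g g10 (@Lb.r r2150 (@Lb.d (nat_lit 24) (nat_lit 68) (nat_lit 34) (@Lb.fm (nat_lit 3) t1202))))))
noncomputable def l3793 : Lb := (@Lb.d (nat_lit 0) (nat_lit 266) (nat_lit 0) (@Lb.g g5 (@Lb.r r1186 (@Lb.r r2209 (@Lb.d (nat_lit 5) (nat_lit 133) (nat_lit 1) (@Lb.t (@Lb.fm (nat_lit 3) t92)))))))
noncomputable def l3794 : Lb := (@Lb.d (nat_lit 529) (nat_lit 256) (nat_lit 34) (@Lb.r r2084 (@Lb.r r1557 (@Lb.r r283 (@Lb.r r388 (@Lb.g g6 (@Lb.d (nat_lit 16) (nat_lit 0) (nat_lit 33) (@Lb.t (@Lb.fm (nat_lit 3) t1203)))))))))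
noncomputable def l3795 : Lb := (@Lb.r r82 (@Lb.d (nat_lit 134) (nat_lit 17) (nat_lit 0) (@Lb.g g8 (@Lb.g g9 (@Lb.g g11 (@Lb.r r555 (@Lb.r r618 (@Lb.r r537 (@Lb.r r1636 (@Lb.d (nat_lit 405) (nat_lit 88) (nat_lit 682) (@Lb.t (@Lb.fp (nat_lit 9) t1204))))))))))))
noncomputable def l3796 : Lb := (@Lb.d (nat_lit 0) (nat_lit 2) (nat_lit 130) (@Lb.g g9 (@Lb.g g10 (@Lb.g g11 (@Lb.r r427 (@Lb.r r386 (@Lb.r r97 (@Lb.r r24 (@Lb.d (nat_lit 74) (nat_lit 168) (nat_lit 393) (@Lb.t (@Lb.fp (nat_lit 9) t1042)))))))))))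
noncomputable def l3797 : Lb := (@Lb.d (nat_lit 0) (nat_lit 258) (nat_lit 130) (@Lb.g g9 (@Lb.g g10 (@Lb.g g11 (@Lb.r r1443 (@Lb.r r1686 (@Lb.r r1313 (@Lb.r r1128 (@Lb.d (nat_lit 360) (nat_lit 65) (nat_lit 16) (@Lb.t (@Lb.fp (nat_lit 9) t1179)))))))))))
noncomputable def l3798 : Lb := (@Lb.d (nat_lit 262) (nat_lit 641) (nat_lit 0) (@Lb.r r2337 (@Lb.r r1619 (@Lb.r r326 (@Lb.g g6 (@Lb.g g4 (@Lb.d (nat_lit 1) (nat_lit 0) (nat_lit 1) (@Lb.fm (nat_lit 3) t1205))))))))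
noncomputable def l3799 : Lb := (@Lb.d (nat_lit 1) (nat_lit 520) (nat_lit 130) (@Lb.g g8 (@Lb.g g10 (@Lb.g g11 (@Lb.r r353 (@Lb.r r667 (@Lb.r r664 (@Lb.r r154 (@Lb.d (nat_lit 25) (nat_lit 2) (nat_lit 68) (@Lb.t (@Lb.fm (nat_lit 9) t45)))))))))))
noncomputable def l3800 : Lb := (@Lb.d (nat_lit 6) (nat_lit 512) (nat_lit 130) (@Lb.g g8 (@Lb.g g9 (@Lb.g g10 (@Lb.g g11 (@Lb.r r582 (@Lb.r r392 (@Lb.r r1319 (@Lb.r r1313 (@Lb.r r36 (@Lb.d (nat_lit 617) (nat_lit 70) (nat_lit 17) (@Lb.fp (nat_lit 9) t171))))))))))))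
noncomputable def l3801 : Lb := (@Lb.d (nat_lit 160) (nat_lit 514) (nat_lit 258) (@Lb.r r24 (@Lb.r r322 (@Lb.r r1691 (@Lb.g g7 (@Lb.g g9 (@Lb.d (nat_lit 8) (nat_lit 130) (nat_lit 128) (@Lb.r r98 (@Lb.fp (nat_lit 3) t590)))))))))
noncomputable def l3802 : Lb := (@Lb.d (nat_lit 262) (nat_lit 594) (nat_lit 320) (@Lb.r r2337 (@Lb.r r1619 (@Lb.r r326 (@Lb.g g6 (@Lb.g g4 (@Lb.d (nat_lit 6) (nat_lit 0) (nat_lit 1) (@Lb.fm (nat_lit 3) t1206))))))))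
noncomputable def l3803 : Lb := (@Lb.d (nat_lit 9) (nat_lit 648) (nat_lit 128) (@Lb.g g8 (@Lb.g g5 (@Lb.g g11 (@Lb.r r2587 (@Lb.r r2178 (@Lb.r r2584 (@Lb.d (nat_lit 585) (nat_lit 165) (nat_lit 400) (@Lb.t (@Lb.fm (nat_lit 9) t777))))))))))
noncomputable def l3804 : Lb := (@Lb.d (nat_lit 0) (nat_lit 0) (nat_lit 130) (@Lb.g g10 (@Lb.g g11 (@Lb.r r614 (@Lb.r r404 (@Lb.r r619 (@Lb.r r609 (@Lb.d (nat_lit 9) (nat_lit 153) (nat_lit 2) (@Lb.fm (nat_lit 3) t71)))))))))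
noncomputable def l3805 : Lb := (@Lb.r r70 (@Lb.r r263 (@Lb.d (nat_lit 9) (nat_lit 257) (nat_lit 0) (@Lb.g g8 (@Lb.g g9 (@Lb.r r2667 (@Lb.r r2434 (@Lb.r r97 (@Lb.r r152 (@Lb.d (nat_lit 282) (nat_lit 5) (nat_lit 16) (@Lb.fm (nat_lit 3) t1207)))))))))))
noncomputable def l3806 : Lb := (@Lb.r r322 (@Lb.d (nat_lit 2) (nat_lit 289) (nat_lit 516) (@Lb.g g8 (@Lb.g g9 (@Lb.g g7 (@Lb.r r418 (@Lb.r r1169 (@Lb.r r1096 (@Lb.d (nat_lit 546) (nat_lit 9) (nat_lit 65) (@Lb.t (@Lb.fp (nat_lit 9) t1205)))))))))))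
noncomputable def l3807 : Lb := (@Lb.d (nat_lit 24) (nat_lit 265) (nat_lit 129) (@Lb.g g9 (@Lb.g g6 (@Lb.g g11 (@Lb.r r584 (@Lb.r r299 (@Lb.r r409 (@Lb.d (nat_lit 8) (nat_lit 137) (nat_lit 160) (@Lb.t (@Lb.fm (nat_lit 9) t1208))))))))))
noncomputable def l3808 : Lb := (@Lb.d (nat_lit 256) (nat_lit 325) (nat_lit 145) (@Lb.r r24 (@Lb.r r2137 (@Lb.r r2474 (@Lb.g g11 (@Lb.g g5 (@Lb.d (nat_lit 0) (nat_lit 18) (nat_lit 264) (@Lb.r r578 (@Lb.fp (nat_lit 3) t1209)))))))))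
noncomputable def l3809 : Lb := (@Lb.d (nat_lit 8) (nat_lit 661) (nat_lit 320) (@Lb.r r2308 (@Lb.r r97 (@Lb.r r1291 (@Lb.r r404 (@Lb.g g7 (@Lb.g g10 (@Lb.g g5 (@Lb.g g4 (@Lb.d (nat_lit 1) (nat_lit 6) (nat_lit 82) (@Lb.fp (nat_lit 9) t1018)))))))))))
noncomputable def l3810 : Lb := (@Lb.d (nat_lit 32) (nat_lit 256) (nat_lit 18) (@Lb.g g10 (@Lb.r r580 (@Lb.r r295 (@Lb.r r2329 (@Lb.r r1044 (@Lb.d (nat_lit 290) (nat_lit 0) (nat_lit 152) (@Lb.t (@Lb.fp (nat_lit 3) t1155)))))))))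
noncomputable def l3811 : Lb := (@Lb.d (nat_lit 357) (nat_lit 278) (nat_lit 106) (@Lb.r r356 (@Lb.r r2178 (@Lb.r r1307 (@Lb.g g9 (@Lb.g g4 (@Lb.d (nat_lit 70) (nat_lit 68) (nat_lit 0) (@Lb.fm (nat_lit 3) t1210))))))))
noncomputable def l3812 : Lb := (@Lb.r r82 (@Lb.d (nat_lit 129) (nat_lit 2) (nat_lit 128) (@Lb.g g8 (@Lb.g g9 (@Lb.g g11 (@Lb.r r667 (@Lb.r r1681 (@Lb.r r598 (@Lb.r r392 (@Lb.d (nat_lit 616) (nat_lit 138) (nat_lit 601) (@Lb.t (@Lb.fm (nat_lit 9) t1211))))))))))))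
noncomputable def l3813 : Lb := (@Lb.d (nat_lit 598) (nat_lit 69) (nat_lit 170) (@Lb.r r20 (@Lb.r r409 (@Lb.r r679 (@Lb.r r404 (@Lb.g g7 (@Lb.g g10 (@Lb.g g5 (@Lb.g g4 (@Lb.d (nat_lit 1) (nat_lit 4) (nat_lit 82) (@Lb.fp (nat_lit 9) t1212)))))))))))
noncomputable def l3814 : Lb := (@Lb.d (nat_lit 41) (nat_lit 0) (nat_lit 130) (@Lb.g g8 (@Lb.g g9 (@Lb.g g10 (@Lb.g g11 (@Lb.r r2726 (@Lb.r r324 (@Lb.r r603 (@Lb.r r401 (@Lb.d (nat_lit 661) (nat_lit 161) (nat_lit 356) (@Lb.fp (nat_lit 9) t1213)))))))))))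
noncomputable def l3815 : Lb := (@Lb.d (nat_lit 32) (nat_lit 256) (nat_lit 10) (@Lb.g g10 (@Lb.r r2651 (@Lb.r r2648 (@Lb.r r2453 (@Lb.r r1430 (@Lb.d (nat_lit 358) (nat_lit 90) (nat_lit 9) (@Lb.t (@Lb.fm (nat_lit 3) t188)))))))))
noncomputable def l3816 : Lb := (@Lb.d (nat_lit 410) (nat_lit 336) (nat_lit 152) (@Lb.r r2452 (@Lb.r r82 (@Lb.r r2449 (@Lb.g g11 (@Lb.g g6 (@Lb.d (nat_lit 64) (nat_lit 0) (nat_lit 641) (@Lb.r r529 (@Lb.r r516 (@Lb.fp (nat_lit 3) t1214))))))))))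
noncomputable def l3817 : Lb := (@Lb.d (nat_lit 137) (nat_lit 513) (nat_lit 0) (@Lb.g g8 (@Lb.g g9 (@Lb.r r1671 (@Lb.r r2198 (@Lb.r r1129 (@Lb.r r2344 (@Lb.d (nat_lit 345) (nat_lit 165) (nat_lit 106) (@Lb.fm (nat_lit 3) t1215)))))))))
noncomputable def l3818 : Lb := (@Lb.r r277 (@Lb.d (nat_lit 386) (nat_lit 520) (nat_lit 130) (@Lb.g g8 (@Lb.g g10 (@Lb.g g11 (@Lb.r r2439 (@Lb.r r101 (@Lb.r r402 (@Lb.d (nat_lit 584) (nat_lit 85) (nat_lit 665) (@Lb.t (@Lb.fm (nat_lit 9) t956)))))))))))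
noncomputable def l3819 : Lb := (@Lb.d (nat_lit 130) (nat_lit 514) (nat_lit 66) (@Lb.g g8 (@Lb.g g9 (@Lb.g g10 (@Lb.g g11 (@Lb.r r2666 (@Lb.r r612 (@Lb.r r1319 (@Lb.r r405 (@Lb.r r2084 (@Lb.d (nat_lit 617) (nat_lit 137) (nat_lit 169) (@Lb.fp (nat_lit 9) t1039))))))))))))
noncomputable def l3820 : Lb := (@Lb.r r331 (@Lb.d (nat_lit 32) (nat_lit 521) (nat_lit 1) (@Lb.g g8 (@Lb.g g9 (@Lb.g g10 (@Lb.r r1579 (@Lb.r r386 (@Lb.r r2657 (@Lb.r r2584 (@Lb.d (nat_lit 586) (nat_lit 9) (nat_lit 517) (@Lb.t (@Lb.fm (nat_lit 9) t1216))))))))))))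
noncomputable def l3821 : Lb := (@Lb.d (nat_lit 153) (nat_lit 33) (nat_lit 132) (@Lb.g g8 (@Lb.g g9 (@Lb.g g10 (@Lb.g g11 (@Lb.r r682 (@Lb.r r387 (@Lb.r r164 (@Lb.r r2085 (@Lb.d (nat_lit 617) (nat_lit 137) (nat_lit 137) (@Lb.fp (nat_lit 9) t1217)))))))))))
noncomputable def l3822 : Lb := (@Lb.r r21 (@Lb.d (nat_lit 144) (nat_lit 256) (nat_lit 132) (@Lb.g g8 (@Lb.g g10 (@Lb.g g11 (@Lb.r r2667 (@Lb.r r2626 (@Lb.r r2472 (@Lb.r r25 (@Lb.d (nat_lit 41) (nat_lit 132) (nat_lit 681) (@Lb.t (@Lb.fm (nat_lit 9) t1218))))))))))))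
noncomputable def l3823 : Lb := (@Lb.r r89 (@Lb.r r166 (@Lb.r r340 (@Lb.r r683 (@Lb.r r657 (@Lb.r r36 (@Lb.d (nat_lit 290) (nat_lit 336) (nat_lit 282) (@Lb.fp (nat_lit 1) t508))))))))
noncomputable def l3824 : Lb := (@Lb.d (nat_lit 0) (nat_lit 256) (nat_lit 128) (@Lb.g g6 (@Lb.g g11 (@Lb.fp (nat_lit 3) t2))))
noncomputable def l3825 : Lb := (@Lb.d (nat_lit 1) (nat_lit 258) (nat_lit 130) (@Lb.g g8 (@Lb.g g9 (@Lb.g g10 (@Lb.g g11 (@Lb.r r2666 (@Lb.r r579 (@Lb.r r97 (@Lb.r r24 (@Lb.d (nat_lit 354) (nat_lit 0) (nat_lit 681) (@Lb.fm (nat_lit 9) t61)))))))))))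
noncomputable def l3826 : Lb := (@Lb.r r323 (@Lb.d (nat_lit 1) (nat_lit 2) (nat_lit 2) (@Lb.g g8 (@Lb.g g9 (@Lb.g g10 (@Lb.r r1623 (@Lb.r r2154 (@Lb.r r97 (@Lb.r r24 (@Lb.d (nat_lit 258) (nat_lit 0) (nat_lit 18) (@Lb.t (@Lb.fp (nat_lit 9) t61))))))))))))
noncomputable def l3827 : Lb := (@Lb.d (nat_lit 353) (nat_lit 153) (nat_lit 576) (@Lb.r r2449 (@Lb.r r1094 (@Lb.r r2456 (@Lb.g g7 (@Lb.g g5 (@Lb.d (nat_lit 4) (nat_lit 1) (nat_lit 4) (@Lb.r r578 (@Lb.fp (nat_lit 3) t50)))))))))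
noncomputable def l3828 : Lb := (@Lb.d (nat_lit 2) (nat_lit 409) (nat_lit 341) (@Lb.r r2449 (@Lb.r r1355 (@Lb.r r1304 (@Lb.r r2138 (@Lb.g g5 (@Lb.d (nat_lit 4) (nat_lit 1) (nat_lit 0) (@Lb.t (@Lb.fp (nat_lit 3) t412)))))))))
noncomputable def l3829 : Lb := (@Lb.g g5 (@Lb.g g7 (@Lb.r r1414 (@Lb.r r149 (@Lb.r r2120 (@Lb.d (nat_lit 546) (nat_lit 512) (nat_lit 546) (@Lb.fm (nat_lit 3) t145)))))))
noncomputable def l3830 : Lb := (@Lb.d (nat_lit 0) (nat_lit 514) (nat_lit 0) (@Lb.g g9 (@Lb.g g7 (@Lb.r r1414 (@Lb.r r2153 (@Lb.r r2120 (@Lb.d (nat_lit 41) (nat_lit 130) (nat_lit 546) (@Lb.fm (nat_lit 3) t145))))))))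
noncomputable def l3831 : Lb := (@Lb.d (nat_lit 0) (nat_lit 537) (nat_lit 0) (@Lb.g g5 (@Lb.r r1414 (@Lb.r r2120 (@Lb.d (nat_lit 41) (nat_lit 128) (nat_lit 546) (@Lb.t (@Lb.fm (nat_lit 3) t145)))))))
noncomputable def l3832 : Lb := (@Lb.d (nat_lit 0) (nat_lit 8) (nat_lit 2) (@Lb.g g10 (@Lb.r r1427 (@Lb.r r101 (@Lb.r r24 (@Lb.d (nat_lit 512) (nat_lit 0) (nat_lit 2) (@Lb.t (@Lb.fp (nat_lit 3) t145))))))))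
noncomputable def l3833 : Lb := (@Lb.d (nat_lit 0) (nat_lit 256) (nat_lit 64) (@Lb.g g4 (@Lb.g g7 (@Lb.d (nat_lit 1) (nat_lit 0) (nat_lit 148) (@Lb.fm (nat_lit 3) t2)))))
noncomputable def l3834 : Lb := (@Lb.d (nat_lit 0) (nat_lit 512) (nat_lit 138) (@Lb.g g11 (@Lb.g g9 (@Lb.fm (nat_lit 3) t2))))
noncomputable def l3835 : Lb := (@Lb.d (nat_lit 0) (nat_lit 256) (nat_lit 86) (@Lb.r r24 (@Lb.r r101 (@Lb.r r323 (@Lb.g g7 (@Lb.g g6 (@Lb.d (nat_lit 0) (nat_lit 4) (nat_lit 129) (@Lb.fm (nat_lit 3) t1219))))))))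
noncomputable def l3836 : Lb := (@Lb.r r283 (@Lb.d (nat_lit 136) (nat_lit 521) (nat_lit 8) (@Lb.g g8 (@Lb.g g9 (@Lb.g g6 (@Lb.r r407 (@Lb.r r617 (@Lb.r r516 (@Lb.d (nat_lit 165) (nat_lit 9) (nat_lit 128) (@Lb.t (@Lb.fm (nat_lit 9) t1220)))))))))))
noncomputable def l3837 : Lb := (@Lb.r r323 (@Lb.d (nat_lit 161) (nat_lit 260) (nat_lit 18) (@Lb.g g8 (@Lb.g g9 (@Lb.g g6 (@Lb.r r407 (@Lb.r r681 (@Lb.r r1636 (@Lb.d (nat_lit 649) (nat_lit 154) (nat_lit 666) (@Lb.t (@Lb.fm (nat_lit 9) t31)))))))))))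
noncomputable def l3838 : Lb := (@Lb.d (nat_lit 32) (nat_lit 16) (nat_lit 136) (@Lb.g g8 (@Lb.g g9 (@Lb.g g6 (@Lb.g g11 (@Lb.r r1707 (@Lb.r r601 (@Lb.r r1604 (@Lb.d (nat_lit 665) (nat_lit 137) (nat_lit 681) (@Lb.fp (nat_lit 9) t841))))))))))
noncomputable def l3839 : Lb := (@Lb.r r402 (@Lb.d (nat_lit 0) (nat_lit 128) (nat_lit 256) (@Lb.fm (nat_lit 1) t334)))
noncomputable def l3840 : Lb := (@Lb.d (nat_lit 257) (nat_lit 1) (nat_lit 85) (@Lb.r r24 (@Lb.r r2138 (@Lb.r r2395 (@Lb.g g7 (@Lb.g g5 (@Lb.d (nat_lit 4) (nat_lit 1) (nat_lit 128) (@Lb.fp (nat_lit 3) t1221))))))))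
noncomputable def l3841 : Lb := (@Lb.d (nat_lit 402) (nat_lit 322) (nat_lit 612) (@Lb.r r1297 (@Lb.r r1315 (@Lb.r r405 (@Lb.g g7 (@Lb.g g10 (@Lb.g g5 (@Lb.g g4 (@Lb.d (nat_lit 8) (nat_lit 0) (nat_lit 145) (@Lb.fm (nat_lit 9) t1222))))))))))
noncomputable def l3842 : Lb := (@Lb.d (nat_lit 513) (nat_lit 352) (nat_lit 0) (@Lb.r r1608 (@Lb.r r89 (@Lb.r r1611 (@Lb.r r358 (@Lb.g g7 (@Lb.g g6 (@Lb.d (nat_lit 0) (nat_lit 0) (nat_lit 65) (@Lb.fm (nat_lit 3) t1169)))))))))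
noncomputable def l3843 : Lb := (@Lb.d (nat_lit 10) (nat_lit 256) (nat_lit 130) (@Lb.g g8 (@Lb.g g10 (@Lb.g g11 (@Lb.r r1319 (@Lb.r r1381 (@Lb.r r2714 (@Lb.r r2692 (@Lb.d (nat_lit 424) (nat_lit 1) (nat_lit 406) (@Lb.t (@Lb.fm (nat_lit 9) t441)))))))))))
noncomputable def l3844 : Lb := (@Lb.d (nat_lit 10) (nat_lit 256) (nat_lit 128) (@Lb.g g8 (@Lb.g g11 (@Lb.r r2450 (@Lb.r r2659 (@Lb.r r149 (@Lb.r r1636 (@Lb.d (nat_lit 425) (nat_lit 154) (nat_lit 272) (@Lb.fm (nat_lit 3) t1223)))))))))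
noncomputable def l3845 : Lb := (@Lb.r r322 (@Lb.d (nat_lit 0) (nat_lit 2) (nat_lit 8) (@Lb.g g9 (@Lb.g g11 (@Lb.r r1625 (@Lb.r r2150 (@Lb.r r24 (@Lb.d (nat_lit 145) (nat_lit 0) (nat_lit 672) (@Lb.fp (nat_lit 3) t1224)))))))))
noncomputable def l3846 : Lb := (@Lb.r r323 (@Lb.d (nat_lit 2) (nat_lit 265) (nat_lit 2) (@Lb.g g8 (@Lb.g g9 (@Lb.g g10 (@Lb.r r1706 (@Lb.r r1700 (@Lb.r r1575 (@Lb.r r2089 (@Lb.d (nat_lit 260) (nat_lit 144) (nat_lit 10) (@Lb.t (@Lb.fp (nat_lit 9) t1225))))))))))))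
noncomputable def l3847 : Lb := (@Lb.r r323 (@Lb.d (nat_lit 2) (nat_lit 2) (nat_lit 0) (@Lb.g g8 (@Lb.g g9 (@Lb.g g10 (@Lb.r r1706 (@Lb.r r2713 (@Lb.r r2712 (@Lb.r r2587 (@Lb.d (nat_lit 260) (nat_lit 81) (nat_lit 10) (@Lb.t (@Lb.fp (nat_lit 9) t172))))))))))))
noncomputable def l3848 : Lb := (@Lb.d (nat_lit 16) (nat_lit 290) (nat_lit 150) (@Lb.g g9 (@Lb.g g6 (@Lb.g g11 (@Lb.r r2664 (@Lb.r r2585 (@Lb.r r539 (@Lb.d (nat_lit 650) (nat_lit 162) (nat_lit 65) (@Lb.t (@Lb.fp (nat_lit 9) t1226))))))))))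
noncomputable def l3849 : Lb := (@Lb.d (nat_lit 10) (nat_lit 256) (nat_lit 130) (@Lb.g g8 (@Lb.g g10 (@Lb.g g11 (@Lb.r r1319 (@Lb.r r1381 (@Lb.r r2714 (@Lb.r r2692 (@Lb.d (nat_lit 426) (nat_lit 6) (nat_lit 404) (@Lb.t (@Lb.fm (nat_lit 9) t528)))))))))))
noncomputable def l3850 : Lb := (@Lb.d (nat_lit 389) (nat_lit 150) (nat_lit 354) (@Lb.r r1556 (@Lb.r r281 (@Lb.r r615 (@Lb.g g6 (@Lb.g g4 (@Lb.d (nat_lit 69) (nat_lit 0) (nat_lit 16) (@Lb.r r387 (@Lb.fp (nat_lit 3) t1136)))))))))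
noncomputable def l3851 : Lb := (@Lb.d (nat_lit 128) (nat_lit 544) (nat_lit 136) (@Lb.g g11 (@Lb.r r420 (@Lb.r r2469 (@Lb.r r1446 (@Lb.r r347 (@Lb.d (nat_lit 298) (nat_lit 22) (nat_lit 646) (@Lb.t (@Lb.fp (nat_lit 3) t322)))))))))
noncomputable def l3852 : Lb := (@Lb.d (nat_lit 2) (nat_lit 514) (nat_lit 137) (@Lb.g g8 (@Lb.g g9 (@Lb.g g10 (@Lb.g g11 (@Lb.r r1626 (@Lb.r r2659 (@Lb.r r97 (@Lb.r r24 (@Lb.d (nat_lit 426) (nat_lit 40) (nat_lit 601) (@Lb.fm (nat_lit 9) t1227)))))))))))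
noncomputable def l3853 : Lb := (@Lb.d (nat_lit 545) (nat_lit 144) (nat_lit 320) (@Lb.r r2308 (@Lb.r r2178 (@Lb.r r1291 (@Lb.r r292 (@Lb.g g7 (@Lb.g g9 (@Lb.g g4 (@Lb.d (nat_lit 1) (nat_lit 70) (nat_lit 64) (@Lb.t (@Lb.fp (nat_lit 9) t1019)))))))))))
noncomputable def l3854 : Lb := (@Lb.d (nat_lit 0) (nat_lit 650) (nat_lit 0) (@Lb.r r1186 (@Lb.r r1379 (@Lb.g g9 (@Lb.d (nat_lit 0) (nat_lit 69) (nat_lit 0) (@Lb.t (@Lb.fm (nat_lit 3) t1228)))))))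
noncomputable def l3855 : Lb := (@Lb.r r275 (@Lb.d (nat_lit 2) (nat_lit 256) (nat_lit 2) (@Lb.g g8 (@Lb.g g9 (@Lb.g g10 (@Lb.r r427 (@Lb.r r1098 (@Lb.r r2193 (@Lb.d (nat_lit 289) (nat_lit 0) (nat_lit 34) (@Lb.t (@Lb.fm (nat_lit 9) t1229)))))))))))
noncomputable def l3856 : Lb := (@Lb.r r82 (@Lb.r r275 (@Lb.d (nat_lit 9) (nat_lit 592) (nat_lit 0) (@Lb.g g8 (@Lb.g g5 (@Lb.r r1619 (@Lb.r r386 (@Lb.r r1096 (@Lb.d (nat_lit 546) (nat_lit 8) (nat_lit 32) (@Lb.fm (nat_lit 3) t1230))))))))))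
noncomputable def l3857 : Lb := (@Lb.r r82 (@Lb.r r275 (@Lb.d (nat_lit 2) (nat_lit 513) (nat_lit 0) (@Lb.g g8 (@Lb.g g5 (@Lb.r r1619 (@Lb.r r386 (@Lb.r r24 (@Lb.d (nat_lit 10) (nat_lit 69) (nat_lit 0) (@Lb.fm (nat_lit 3) t582))))))))))
noncomputable def l3858 : Lb := (@Lb.r r82 (@Lb.r r275 (@Lb.d (nat_lit 2) (nat_lit 81) (nat_lit 0) (@Lb.g g8 (@Lb.g g5 (@Lb.r r1619 (@Lb.r r386 (@Lb.r r1096 (@Lb.d (nat_lit 546) (nat_lit 1) (nat_lit 33) (@Lb.fm (nat_lit 3) t1205))))))))))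
noncomputable def l3859 : Lb := (@Lb.r r82 (@Lb.r r275 (@Lb.d (nat_lit 9) (nat_lit 336) (nat_lit 0) (@Lb.g g8 (@Lb.g g5 (@Lb.r r1619 (@Lb.r r386 (@Lb.r r1096 (@Lb.d (nat_lit 546) (nat_lit 1) (nat_lit 33) (@Lb.fm (nat_lit 3) t1205))))))))))
noncomputable def l3860 : Lb := (@Lb.d (nat_lit 0) (nat_lit 520) (nat_lit 130) (@Lb.g g10 (@Lb.g g11 (@Lb.r r387 (@Lb.r r24 (@Lb.r r101 (@Lb.d (nat_lit 26) (nat_lit 88) (nat_lit 422) (@Lb.fm (nat_lit 3) t1080))))))))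
noncomputable def l3861 : Lb := (@Lb.d (nat_lit 2) (nat_lit 514) (nat_lit 2) (@Lb.g g8 (@Lb.g g9 (@Lb.g g10 (@Lb.r r683 (@Lb.r r1689 (@Lb.r r1688 (@Lb.r r1610 (@Lb.d (nat_lit 609) (nat_lit 98) (nat_lit 258) (@Lb.t (@Lb.fm (nat_lit 9) t1020)))))))))))
noncomputable def l3862 : Lb := (@Lb.r r323 (@Lb.d (nat_lit 8) (nat_lit 34) (nat_lit 18) (@Lb.g g9 (@Lb.g g6 (@Lb.r r536 (@Lb.r r603 (@Lb.r r293 (@Lb.d (nat_lit 341) (nat_lit 33) (nat_lit 162) (@Lb.fm (nat_lit 3) t32)))))))))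
noncomputable def l3863 : Lb := (@Lb.d (nat_lit 8) (nat_lit 290) (nat_lit 0) (@Lb.g g9 (@Lb.r r536 (@Lb.r r2715 (@Lb.r r2178 (@Lb.r r2469 (@Lb.d (nat_lit 69) (nat_lit 101) (nat_lit 682) (@Lb.t (@Lb.fp (nat_lit 3) t32)))))))))
noncomputable def l3864 : Lb := (@Lb.d (nat_lit 2) (nat_lit 2) (nat_lit 0) (@Lb.g g8 (@Lb.g g9 (@Lb.r r1193 (@Lb.r r2468 (@Lb.r r2438 (@Lb.r r2635 (@Lb.d (nat_lit 546) (nat_lit 10) (nat_lit 102) (@Lb.fp (nat_lit 3) t27)))))))))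
noncomputable def l3865 : Lb := (@Lb.d (nat_lit 130) (nat_lit 34) (nat_lit 2) (@Lb.g g8 (@Lb.g g9 (@Lb.g g10 (@Lb.r r1450 (@Lb.r r583 (@Lb.r r408 (@Lb.r r2085 (@Lb.d (nat_lit 69) (nat_lit 150) (nat_lit 666) (@Lb.t (@Lb.fm (nat_lit 9) t172)))))))))))
noncomputable def l3866 : Lb := (@Lb.r r616 (@Lb.r r2665 (@Lb.r r2390 (@Lb.r r2475 (@Lb.r r1188 (@Lb.d (nat_lit 2) (nat_lit 0) (nat_lit 512) (@Lb.fp (nat_lit 1) t322)))))))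
noncomputable def l3867 : Lb := (@Lb.d (nat_lit 1) (nat_lit 258) (nat_lit 2) (@Lb.g g8 (@Lb.g g9 (@Lb.g g10 (@Lb.r r683 (@Lb.r r1689 (@Lb.r r1688 (@Lb.r r1610 (@Lb.d (nat_lit 609) (nat_lit 105) (nat_lit 257) (@Lb.t (@Lb.fm (nat_lit 9) t1020)))))))))))
noncomputable def l3868 : Lb := (@Lb.d (nat_lit 2) (nat_lit 258) (nat_lit 130) (@Lb.g g8 (@Lb.g g9 (@Lb.g g10 (@Lb.g g11 (@Lb.r r427 (@Lb.r r424 (@Lb.r r106 (@Lb.r r25 (@Lb.d (nat_lit 514) (nat_lit 0) (nat_lit 34) (@Lb.fm (nat_lit 9) t1231)))))))))))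
noncomputable def l3869 : Lb := (@Lb.d (nat_lit 514) (nat_lit 266) (nat_lit 417) (@Lb.r r24 (@Lb.r r2213 (@Lb.r r418 (@Lb.r r2435 (@Lb.g g7 (@Lb.g g6 (@Lb.g g5 (@Lb.d (nat_lit 0) (nat_lit 4) (nat_lit 65) (@Lb.t (@Lb.fm (nat_lit 9) t1232)))))))))))
noncomputable def l3870 : Lb := (@Lb.r r417 (@Lb.r r2466 (@Lb.r r2387 (@Lb.r r657 (@Lb.fp (nat_lit 1) t246)))))
noncomputable def l3871 : Lb := (@Lb.d (nat_lit 8) (nat_lit 514) (nat_lit 130) (@Lb.g g9 (@Lb.g g10 (@Lb.g g11 (@Lb.r r586 (@Lb.r r584 (@Lb.r r299 (@Lb.r r409 (@Lb.d (nat_lit 533) (nat_lit 70) (nat_lit 34) (@Lb.t (@Lb.fp (nat_lit 9) t1233)))))))))))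
noncomputable def l3872 : Lb := (@Lb.g g5 (@Lb.r r424 (@Lb.r r2473 (@Lb.r r1450 (@Lb.r r343 (@Lb.r r676 (@Lb.t (@Lb.fp (nat_lit 3) t322))))))))
noncomputable def l3873 : Lb := (@Lb.r r275 (@Lb.d (nat_lit 0) (nat_lit 256) (nat_lit 2) (@Lb.g g8 (@Lb.g g9 (@Lb.g g10 (@Lb.r r2666 (@Lb.r r2664 (@Lb.r r2585 (@Lb.r r2579 (@Lb.d (nat_lit 258) (nat_lit 64) (nat_lit 0) (@Lb.t (@Lb.fm (nat_lit 9) t854))))))))))))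
noncomputable def l3874 : Lb := (@Lb.r r275 (@Lb.d (nat_lit 0) (nat_lit 0) (nat_lit 2) (@Lb.g g9 (@Lb.g g10 (@Lb.r r2666 (@Lb.r r2664 (@Lb.r r2585 (@Lb.r r2579 (@Lb.d (nat_lit 258) (nat_lit 64) (nat_lit 0) (@Lb.fm (nat_lit 3) t854))))))))))
noncomputable def l3875 : Lb := (@Lb.d (nat_lit 0) (nat_lit 266) (nat_lit 129) (@Lb.g g9 (@Lb.g g10 (@Lb.g g11 (@Lb.r r166 (@Lb.r r584 (@Lb.r r299 (@Lb.r r289 (@Lb.d (nat_lit 328) (nat_lit 97) (nat_lit 576) (@Lb.t (@Lb.fp (nat_lit 9) t1234)))))))))))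
noncomputable def l3876 : Lb := (@Lb.d (nat_lit 1) (nat_lit 261) (nat_lit 82) (@Lb.r r1158 (@Lb.r r2132 (@Lb.r r2345 (@Lb.g g7 (@Lb.g g6 (@Lb.g g4 (@Lb.d (nat_lit 2) (nat_lit 16) (nat_lit 640) (@Lb.t (@Lb.fp (nat_lit 9) t1235))))))))))
noncomputable def l3877 : Lb := (@Lb.d (nat_lit 0) (nat_lit 256) (nat_lit 130) (@Lb.g g9 (@Lb.g g10 (@Lb.g g11 (@Lb.r r2659 (@Lb.r r166 (@Lb.r r2644 (@Lb.r r1321 (@Lb.d (nat_lit 128) (nat_lit 33) (nat_lit 320) (@Lb.t (@Lb.fp (nat_lit 9) t1236)))))))))))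
noncomputable def l3878 : Lb := (@Lb.d (nat_lit 33) (nat_lit 514) (nat_lit 129) (@Lb.g g8 (@Lb.g g9 (@Lb.g g6 (@Lb.g g11 (@Lb.r r529 (@Lb.r r407 (@Lb.r r612 (@Lb.d (nat_lit 404) (nat_lit 25) (nat_lit 168) (@Lb.fm (nat_lit 9) t1237))))))))))
noncomputable def l3879 : Lb := (@Lb.d (nat_lit 682) (nat_lit 18) (nat_lit 81) (@Lb.r r293 (@Lb.r r603 (@Lb.r r536 (@Lb.g g10 (@Lb.g g5 (@Lb.d (nat_lit 4) (nat_lit 17) (nat_lit 33) (@Lb.r r387 (@Lb.fm (nat_lit 3) t204)))))))))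
noncomputable def l3880 : Lb := (@Lb.d (nat_lit 0) (nat_lit 256) (nat_lit 2) (@Lb.g g9 (@Lb.g g10 (@Lb.r r1411 (@Lb.r r98 (@Lb.r r101 (@Lb.d (nat_lit 261) (nat_lit 65) (nat_lit 0) (@Lb.fp (nat_lit 3) t240))))))))
noncomputable def l3881 : Lb := (@Lb.d (nat_lit 0) (nat_lit 258) (nat_lit 130) (@Lb.g g9 (@Lb.g g10 (@Lb.g g11 (@Lb.r r673 (@Lb.r r419 (@Lb.r r98 (@Lb.d (nat_lit 5) (nat_lit 26) (nat_lit 137) (@Lb.t (@Lb.fp (nat_lit 9) t1238))))))))))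
noncomputable def l3882 : Lb := (@Lb.d (nat_lit 2) (nat_lit 10) (nat_lit 0) (@Lb.g g8 (@Lb.g g9 (@Lb.r r1162 (@Lb.r r1188 (@Lb.r r2341 (@Lb.r r2579 (@Lb.d (nat_lit 0) (nat_lit 0) (nat_lit 586) (@Lb.fp (nat_lit 3) t643)))))))))
noncomputable def l3883 : Lb := (@Lb.r r81 (@Lb.d (nat_lit 128) (nat_lit 520) (nat_lit 162) (@Lb.g g6 (@Lb.g g11 (@Lb.r r420 (@Lb.r r283 (@Lb.r r37 (@Lb.d (nat_lit 102) (nat_lit 101) (nat_lit 657) (@Lb.fm (nat_lit 3) t1239)))))))))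
noncomputable def l3884 : Lb := (@Lb.d (nat_lit 0) (nat_lit 10) (nat_lit 72) (@Lb.g g9 (@Lb.g g10 (@Lb.g g11 (@Lb.r r166 (@Lb.r r584 (@Lb.r r299 (@Lb.r r289 (@Lb.d (nat_lit 326) (nat_lit 96) (nat_lit 576) (@Lb.t (@Lb.fp (nat_lit 9) t1234)))))))))))
noncomputable def l3885 : Lb := (@Lb.d (nat_lit 40) (nat_lit 258) (nat_lit 130) (@Lb.g g9 (@Lb.g g10 (@Lb.g g11 (@Lb.r r1451 (@Lb.r r72 (@Lb.r r598 (@Lb.r r421 (@Lb.d (nat_lit 616) (nat_lit 36) (nat_lit 345) (@Lb.t (@Lb.fm (nat_lit 9) t1024)))))))))))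
noncomputable def l3886 : Lb := (@Lb.d (nat_lit 0) (nat_lit 274) (nat_lit 133) (@Lb.r r579 (@Lb.r r338 (@Lb.g g7 (@Lb.g g6 (@Lb.g g5 (@Lb.d (nat_lit 0) (nat_lit 0) (nat_lit 133) (@Lb.t (@Lb.fm (nat_lit 9) t87)))))))))
noncomputable def l3887 : Lb := (@Lb.d (nat_lit 645) (nat_lit 586) (nat_lit 256) (@Lb.r r2193 (@Lb.r r2118 (@Lb.r r1416 (@Lb.r r1575 (@Lb.g g7 (@Lb.g g5 (@Lb.d (nat_lit 0) (nat_lit 0) (nat_lit 64) (@Lb.r r98 (@Lb.fm (nat_lit 3) t1240))))))))))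
noncomputable def l3888 : Lb := (@Lb.r r82 (@Lb.r r275 (@Lb.d (nat_lit 2) (nat_lit 130) (nat_lit 0) (@Lb.g g8 (@Lb.g g5 (@Lb.r r579 (@Lb.r r2458 (@Lb.r r2436 (@Lb.d (nat_lit 102) (nat_lit 16) (nat_lit 538) (@Lb.fp (nat_lit 3) t1241))))))))))
noncomputable def l3889 : Lb := (@Lb.r r323 (@Lb.d (nat_lit 2) (nat_lit 514) (nat_lit 0) (@Lb.g g8 (@Lb.g g9 (@Lb.g g10 (@Lb.r r683 (@Lb.r r170 (@Lb.r r1177 (@Lb.r r1156 (@Lb.d (nat_lit 297) (nat_lit 65) (nat_lit 68) (@Lb.t (@Lb.fm (nat_lit 9) t1242))))))))))))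
noncomputable def l3890 : Lb := (@Lb.r r81 (@Lb.r r323 (@Lb.d (nat_lit 2) (nat_lit 264) (nat_lit 32) (@Lb.g g4 (@Lb.g g10 (@Lb.r r1385 (@Lb.r r2583 (@Lb.r r1316 (@Lb.d (nat_lit 138) (nat_lit 162) (nat_lit 130) (@Lb.fp (nat_lit 3) t1243))))))))))
noncomputable def l3891 : Lb := (@Lb.r r323 (@Lb.d (nat_lit 32) (nat_lit 544) (nat_lit 2) (@Lb.g g9 (@Lb.g g10 (@Lb.r r603 (@Lb.r r401 (@Lb.r r24 (@Lb.d (nat_lit 64) (nat_lit 74) (nat_lit 17) (@Lb.fm (nat_lit 3) t1022)))))))))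
noncomputable def l3892 : Lb := (@Lb.r r273 (@Lb.r r322 (@Lb.d (nat_lit 64) (nat_lit 544) (nat_lit 648) (@Lb.g g7 (@Lb.r r280 (@Lb.r r101 (@Lb.r r146 (@Lb.d (nat_lit 65) (nat_lit 69) (nat_lit 577) (@Lb.t (@Lb.fp (nat_lit 3) t1244))))))))))
noncomputable def l3893 : Lb := (@Lb.d (nat_lit 0) (nat_lit 264) (nat_lit 66) (@Lb.g g9 (@Lb.g g10 (@Lb.g g7 (@Lb.r r1362 (@Lb.r r2129 (@Lb.d (nat_lit 5) (nat_lit 17) (nat_lit 41) (@Lb.t (@Lb.fp (nat_lit 9) t1245)))))))))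
noncomputable def l3894 : Lb := (@Lb.r r323 (@Lb.d (nat_lit 137) (nat_lit 0) (nat_lit 2) (@Lb.g g8 (@Lb.g g10 (@Lb.r r346 (@Lb.r r661 (@Lb.r r1431 (@Lb.r r2632 (@Lb.d (nat_lit 362) (nat_lit 133) (nat_lit 256) (@Lb.fp (nat_lit 3) t71))))))))))
noncomputable def l3895 : Lb := (@Lb.d (nat_lit 2) (nat_lit 514) (nat_lit 130) (@Lb.g g8 (@Lb.g g9 (@Lb.g g10 (@Lb.g g11 (@Lb.r r427 (@Lb.r r145 (@Lb.r r356 (@Lb.r r154 (@Lb.r r132 (@Lb.d (nat_lit 552) (nat_lit 2) (nat_lit 34) (@Lb.fm (nat_lit 9) t221))))))))))))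
noncomputable def l3896 : Lb := (@Lb.r r323 (@Lb.d (nat_lit 137) (nat_lit 533) (nat_lit 0) (@Lb.g g8 (@Lb.g g5 (@Lb.g g10 (@Lb.r r1683 (@Lb.r r1178 (@Lb.r r408 (@Lb.d (nat_lit 154) (nat_lit 24) (nat_lit 586) (@Lb.t (@Lb.fm (nat_lit 9) t68)))))))))))
noncomputable def l3897 : Lb := (@Lb.d (nat_lit 68) (nat_lit 18) (nat_lit 74) (@Lb.r r24 (@Lb.r r2145 (@Lb.r r2390 (@Lb.r r2691 (@Lb.g g7 (@Lb.g g6 (@Lb.g g4 (@Lb.d (nat_lit 1) (nat_lit 0) (nat_lit 134) (@Lb.t (@Lb.fm (nat_lit 9) t1246)))))))))))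
noncomputable def l3898 : Lb := (@Lb.d (nat_lit 129) (nat_lit 16) (nat_lit 137) (@Lb.g g8 (@Lb.g g9 (@Lb.g g10 (@Lb.g g11 (@Lb.r r683 (@Lb.r r1642 (@Lb.r r1561 (@Lb.r r516 (@Lb.d (nat_lit 649) (nat_lit 68) (nat_lit 144) (@Lb.fm (nat_lit 9) t47)))))))))))
noncomputable def l3899 : Lb := (@Lb.d (nat_lit 0) (nat_lit 545) (nat_lit 64) (@Lb.g g9 (@Lb.g g11 (@Lb.r r134 (@Lb.r r1352 (@Lb.r r1575 (@Lb.r r2577 (@Lb.d (nat_lit 521) (nat_lit 16) (nat_lit 389) (@Lb.fp (nat_lit 3) t1247)))))))))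
noncomputable def l3900 : Lb := (@Lb.d (nat_lit 2) (nat_lit 2) (nat_lit 66) (@Lb.g g8 (@Lb.g g9 (@Lb.g g10 (@Lb.g g11 (@Lb.r r1443 (@Lb.r r297 (@Lb.r r104 (@Lb.r r70 (@Lb.r r132 (@Lb.d (nat_lit 545) (nat_lit 5) (nat_lit 416) (@Lb.fp (nat_lit 9) t88))))))))))))
noncomputable def l3901 : Lb := (@Lb.d (nat_lit 130) (nat_lit 264) (nat_lit 2) (@Lb.g g8 (@Lb.g g10 (@Lb.r r609 (@Lb.r r1379 (@Lb.r r2390 (@Lb.r r392 (@Lb.d (nat_lit 402) (nat_lit 162) (nat_lit 10) (@Lb.fm (nat_lit 3) t1248)))))))))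
noncomputable def l3902 : Lb := (@Lb.d (nat_lit 130) (nat_lit 514) (nat_lit 2) (@Lb.g g8 (@Lb.g g9 (@Lb.g g10 (@Lb.r r2595 (@Lb.r r2705 (@Lb.r r598 (@Lb.r r392 (@Lb.d (nat_lit 81) (nat_lit 2) (nat_lit 330) (@Lb.t (@Lb.fm (nat_lit 9) t284)))))))))))
noncomputable def l3903 : Lb := (@Lb.r r283 (@Lb.d (nat_lit 2) (nat_lit 2) (nat_lit 2) (@Lb.g g8 (@Lb.g g9 (@Lb.g g10 (@Lb.r r2643 (@Lb.r r98 (@Lb.r r297 (@Lb.r r420 (@Lb.d (nat_lit 392) (nat_lit 38) (nat_lit 326) (@Lb.t (@Lb.fm (nat_lit 9) t245))))))))))))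
noncomputable def l3904 : Lb := (@Lb.r r323 (@Lb.d (nat_lit 0) (nat_lit 0) (nat_lit 1) (@Lb.g g9 (@Lb.g g6 (@Lb.r r2339 (@Lb.r r101 (@Lb.r r24 (@Lb.d (nat_lit 288) (nat_lit 0) (nat_lit 66) (@Lb.fp (nat_lit 3) t1172)))))))))
noncomputable def l3905 : Lb := (@Lb.d (nat_lit 0) (nat_lit 85) (nat_lit 649) (@Lb.r r402 (@Lb.g g11 (@Lb.g g9 (@Lb.d (nat_lit 0) (nat_lit 0) (nat_lit 136) (@Lb.fp (nat_lit 3) t1249))))))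
noncomputable def l3906 : Lb := (@Lb.r r82 (@Lb.d (nat_lit 34) (nat_lit 514) (nat_lit 128) (@Lb.g g8 (@Lb.g g9 (@Lb.g g11 (@Lb.r r363 (@Lb.r r582 (@Lb.r r388 (@Lb.d (nat_lit 598) (nat_lit 2) (nat_lit 34) (@Lb.t (@Lb.fm (nat_lit 9) t819)))))))))))
noncomputable def l3907 : Lb := (@Lb.r r402 (@Lb.r r101 (@Lb.r r24 (@Lb.d (nat_lit 529) (nat_lit 0) (nat_lit 528) (@Lb.fm (nat_lit 1) t505)))))
noncomputable def l3908 : Lb := (@Lb.d (nat_lit 610) (nat_lit 677) (nat_lit 340) (@Lb.r r2452 (@Lb.r r97 (@Lb.r r1355 (@Lb.g g10 (@Lb.g g4 (@Lb.d (nat_lit 65) (nat_lit 8) (nat_lit 5) (@Lb.r r387 (@Lb.r r25 (@Lb.fm (nat_lit 3) t1))))))))))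
noncomputable def l3909 : Lb := (@Lb.r r82 (@Lb.d (nat_lit 41) (nat_lit 514) (nat_lit 128) (@Lb.g g8 (@Lb.g g9 (@Lb.g g11 (@Lb.r r291 (@Lb.r r390 (@Lb.r r677 (@Lb.r r600 (@Lb.d (nat_lit 37) (nat_lit 166) (nat_lit 74) (@Lb.t (@Lb.fp (nat_lit 9) t1250))))))))))))
noncomputable def l3910 : Lb := (@Lb.r r82 (@Lb.d (nat_lit 0) (nat_lit 256) (nat_lit 128) (@Lb.g g9 (@Lb.g g11 (@Lb.r r291 (@Lb.r r602 (@Lb.r r293 (@Lb.r r24 (@Lb.d (nat_lit 550) (nat_lit 98) (nat_lit 160) (@Lb.fm (nat_lit 3) t1251))))))))))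
noncomputable def l3911 : Lb := (@Lb.d (nat_lit 530) (nat_lit 88) (nat_lit 64) (@Lb.r r386 (@Lb.r r595 (@Lb.r r1301 (@Lb.g g6 (@Lb.g g5 (@Lb.g g4 (@Lb.d (nat_lit 1) (nat_lit 1) (nat_lit 1) (@Lb.t (@Lb.fp (nat_lit 9) t1252))))))))))
noncomputable def l3912 : Lb := (@Lb.r r323 (@Lb.d (nat_lit 2) (nat_lit 546) (nat_lit 2) (@Lb.g g8 (@Lb.g g9 (@Lb.g g10 (@Lb.r r599 (@Lb.r r74 (@Lb.r r296 (@Lb.r r409 (@Lb.d (nat_lit 149) (nat_lit 38) (nat_lit 68) (@Lb.t (@Lb.fm (nat_lit 9) t119))))))))))))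
noncomputable def l3913 : Lb := (@Lb.d (nat_lit 1) (nat_lit 258) (nat_lit 130) (@Lb.g g8 (@Lb.g g9 (@Lb.g g10 (@Lb.g g11 (@Lb.r r427 (@Lb.r r297 (@Lb.r r104 (@Lb.r r70 (@Lb.r r132 (@Lb.d (nat_lit 2) (nat_lit 21) (nat_lit 70) (@Lb.fp (nat_lit 9) t119))))))))))))
noncomputable def l3914 : Lb := (@Lb.d (nat_lit 0) (nat_lit 385) (nat_lit 16) (@Lb.r r82 (@Lb.r r2193 (@Lb.r r2323 (@Lb.g g6 (@Lb.g g9 (@Lb.r r387 (@Lb.fp (nat_lit 3) t7))))))))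
noncomputable def l3915 : Lb := (@Lb.d (nat_lit 134) (nat_lit 546) (nat_lit 66) (@Lb.g g8 (@Lb.g g9 (@Lb.g g10 (@Lb.g g11 (@Lb.r r2658 (@Lb.r r2659 (@Lb.r r101 (@Lb.r r1156 (@Lb.d (nat_lit 130) (nat_lit 169) (nat_lit 361) (@Lb.fp (nat_lit 9) t4)))))))))))
noncomputable def l3916 : Lb := (@Lb.d (nat_lit 2) (nat_lit 258) (nat_lit 0) (@Lb.g g8 (@Lb.g g9 (@Lb.g g10 (@Lb.r r515 (@Lb.r r297 (@Lb.r r360 (@Lb.r r582 (@Lb.r r132 (@Lb.d (nat_lit 2) (nat_lit 10) (nat_lit 68) (@Lb.t (@Lb.fp (nat_lit 9) t242))))))))))))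
noncomputable def l3917 : Lb := (@Lb.d (nat_lit 18) (nat_lit 4) (nat_lit 72) (@Lb.g g8 (@Lb.g g9 (@Lb.g g10 (@Lb.g g11 (@Lb.r r683 (@Lb.r r610 (@Lb.r r24 (@Lb.r r37 (@Lb.d (nat_lit 106) (nat_lit 8) (nat_lit 136) (@Lb.fm (nat_lit 9) t50)))))))))))
noncomputable def l3918 : Lb := (@Lb.d (nat_lit 2) (nat_lit 512) (nat_lit 128) (@Lb.g g8 (@Lb.g g9 (@Lb.g g11 (@Lb.r r406 (@Lb.r r2659 (@Lb.r r2661 (@Lb.r r24 (@Lb.d (nat_lit 2) (nat_lit 16) (nat_lit 64) (@Lb.t (@Lb.fm (nat_lit 9) t1253)))))))))))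
noncomputable def l3919 : Lb := (@Lb.r r21 (@Lb.r r323 (@Lb.d (nat_lit 0) (nat_lit 512) (nat_lit 2) (@Lb.g g8 (@Lb.g g10 (@Lb.r r2411 (@Lb.r r2434 (@Lb.r r1625 (@Lb.r r1604 (@Lb.d (nat_lit 2) (nat_lit 164) (nat_lit 341) (@Lb.fp (nat_lit 3) t1254)))))))))))
noncomputable def l3920 : Lb := (@Lb.d (nat_lit 1) (nat_lit 530) (nat_lit 352) (@Lb.r r2434 (@Lb.r r1619 (@Lb.g g6 (@Lb.g g5 (@Lb.d (nat_lit 4) (nat_lit 1) (nat_lit 5) (@Lb.fm (nat_lit 3) t901)))))))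
noncomputable def l3921 : Lb := (@Lb.r r322 (@Lb.d (nat_lit 8) (nat_lit 10) (nat_lit 576) (@Lb.g g9 (@Lb.g g7 (@Lb.r r602 (@Lb.r r596 (@Lb.r r1433 (@Lb.d (nat_lit 26) (nat_lit 80) (nat_lit 266) (@Lb.fp (nat_lit 3) t1255)))))))))
noncomputable def l3922 : Lb := (@Lb.d (nat_lit 0) (nat_lit 528) (nat_lit 585) (@Lb.g g9 (@Lb.g g10 (@Lb.g g7 (@Lb.r r386 (@Lb.r r1121 (@Lb.d (nat_lit 5) (nat_lit 138) (nat_lit 25) (@Lb.t (@Lb.fp (nat_lit 9) t901)))))))))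
noncomputable def l3923 : Lb := (@Lb.r r323 (@Lb.d (nat_lit 0) (nat_lit 520) (nat_lit 34) (@Lb.g g10 (@Lb.r r387 (@Lb.d (nat_lit 0) (nat_lit 128) (nat_lit 2) (@Lb.t (@Lb.fp (nat_lit 3) t51)))))))
noncomputable def l3924 : Lb := (@Lb.d (nat_lit 160) (nat_lit 520) (nat_lit 130) (@Lb.g g10 (@Lb.g g11 (@Lb.r r2712 (@Lb.r r2645 (@Lb.r r599 (@Lb.r r1370 (@Lb.d (nat_lit 297) (nat_lit 17) (nat_lit 37) (@Lb.fm (nat_lit 3) t716)))))))))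
noncomputable def l3925 : Lb := (@Lb.d (nat_lit 576) (nat_lit 672) (nat_lit 586) (@Lb.r r1305 (@Lb.r r1428 (@Lb.r r2390 (@Lb.r r611 (@Lb.g g7 (@Lb.g g6 (@Lb.g g5 (@Lb.d (nat_lit 0) (nat_lit 2) (nat_lit 133) (@Lb.t (@Lb.fm (nat_lit 9) t1256)))))))))))
noncomputable def l3926 : Lb := (@Lb.d (nat_lit 74) (nat_lit 610) (nat_lit 585) (@Lb.r r1305 (@Lb.r r1428 (@Lb.r r2667 (@Lb.g g10 (@Lb.g g5 (@Lb.d (nat_lit 32) (nat_lit 2) (nat_lit 1) (@Lb.fm (nat_lit 3) t1257))))))))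
noncomputable def l3927 : Lb := (@Lb.d (nat_lit 0) (nat_lit 0) (nat_lit 128) (@Lb.g g11 (@Lb.r r658 (@Lb.r r387 (@Lb.d (nat_lit 0) (nat_lit 69) (nat_lit 326) (@Lb.t (@Lb.fm (nat_lit 3) t51)))))))
noncomputable def l3928 : Lb := (@Lb.d (nat_lit 130) (nat_lit 258) (nat_lit 130) (@Lb.g g8 (@Lb.g g9 (@Lb.g g10 (@Lb.g g11 (@Lb.r r2666 (@Lb.r r612 (@Lb.r r1319 (@Lb.r r405 (@Lb.r r2084 (@Lb.d (nat_lit 617) (nat_lit 137) (nat_lit 169) (@Lb.fp (nat_lit 9) t1039))))))))))))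
noncomputable def l3929 : Lb := (@Lb.d (nat_lit 164) (nat_lit 581) (nat_lit 278) (@Lb.r r2149 (@Lb.r r386 (@Lb.g g11 (@Lb.g g6 (@Lb.g g5 (@Lb.g g8 (@Lb.d (nat_lit 2) (nat_lit 1) (nat_lit 129) (@Lb.fp (nat_lit 9) t1258)))))))))
noncomputable def l3930 : Lb := (@Lb.r r323 (@Lb.d (nat_lit 8) (nat_lit 34) (nat_lit 2) (@Lb.g g9 (@Lb.g g10 (@Lb.r r1442 (@Lb.r r532 (@Lb.r r599 (@Lb.r r297 (@Lb.d (nat_lit 641) (nat_lit 130) (nat_lit 90) (@Lb.fp (nat_lit 3) t1146))))))))))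
noncomputable def l3931 : Lb := (@Lb.r r283 (@Lb.d (nat_lit 1) (nat_lit 512) (nat_lit 2) (@Lb.g g8 (@Lb.g g9 (@Lb.g g10 (@Lb.r r2658 (@Lb.r r2627 (@Lb.r r2345 (@Lb.r r2084 (@Lb.d (nat_lit 40) (nat_lit 68) (nat_lit 16) (@Lb.t (@Lb.fm (nat_lit 9) t631))))))))))))
noncomputable def l3932 : Lb := (@Lb.r r2069 (@Lb.d (nat_lit 389) (nat_lit 8) (nat_lit 130) (@Lb.g g4 (@Lb.g g10 (@Lb.g g11 (@Lb.r r1411 (@Lb.d (nat_lit 1) (nat_lit 130) (nat_lit 425) (@Lb.t (@Lb.fp (nat_lit 9) t1259)))))))))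
noncomputable def l3933 : Lb := (@Lb.d (nat_lit 1) (nat_lit 32) (nat_lit 0) (@Lb.r r410 (@Lb.r r613 (@Lb.r r299 (@Lb.r r264 (@Lb.g g7 (@Lb.g g6 (@Lb.g g5 (@Lb.d (nat_lit 84) (nat_lit 1) (nat_lit 65) (@Lb.t (@Lb.fm (nat_lit 9) t238)))))))))))
noncomputable def l3934 : Lb := (@Lb.d (nat_lit 102) (nat_lit 517) (nat_lit 594) (@Lb.r r2661 (@Lb.r r1304 (@Lb.r r2659 (@Lb.g g10 (@Lb.g g5 (@Lb.d (nat_lit 36) (nat_lit 6) (nat_lit 24) (@Lb.r r387 (@Lb.fm (nat_lit 3) t1260)))))))))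
noncomputable def l3935 : Lb := (@Lb.d (nat_lit 102) (nat_lit 646) (nat_lit 594) (@Lb.r r2661 (@Lb.r r1304 (@Lb.r r2659 (@Lb.g g10 (@Lb.g g5 (@Lb.d (nat_lit 36) (nat_lit 6) (nat_lit 24) (@Lb.r r387 (@Lb.fm (nat_lit 3) t1260)))))))))
noncomputable def l3936 : Lb := (@Lb.d (nat_lit 73) (nat_lit 81) (nat_lit 384) (@Lb.r r2641 (@Lb.r r1642 (@Lb.r r1352 (@Lb.r r2439 (@Lb.g g6 (@Lb.d (nat_lit 16) (nat_lit 0) (nat_lit 6) (@Lb.t (@Lb.fp (nat_lit 3) t1261)))))))))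
noncomputable def l3937 : Lb := (@Lb.r r82 (@Lb.d (nat_lit 32) (nat_lit 258) (nat_lit 128) (@Lb.g g8 (@Lb.g g9 (@Lb.g g11 (@Lb.r r363 (@Lb.r r582 (@Lb.r r388 (@Lb.d (nat_lit 598) (nat_lit 2) (nat_lit 34) (@Lb.t (@Lb.fm (nat_lit 9) t819)))))))))))
noncomputable def l3938 : Lb := (@Lb.d (nat_lit 34) (nat_lit 256) (nat_lit 128) (@Lb.g g8 (@Lb.g g11 (@Lb.r r353 (@Lb.r r2707 (@Lb.r r150 (@Lb.r r2660 (@Lb.d (nat_lit 340) (nat_lit 153) (nat_lit 258) (@Lb.fp (nat_lit 3) t975)))))))))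
noncomputable def l3939 : Lb := (@Lb.d (nat_lit 9) (nat_lit 80) (nat_lit 593) (@Lb.r r2182 (@Lb.r r2323 (@Lb.r r661 (@Lb.g g7 (@Lb.g g8 (@Lb.d (nat_lit 352) (nat_lit 16) (nat_lit 128) (@Lb.r r74 (@Lb.r r25 (@Lb.fm (nat_lit 3) t329))))))))))
noncomputable def l3940 : Lb := (@Lb.d (nat_lit 146) (nat_lit 521) (nat_lit 4) (@Lb.g g8 (@Lb.g g9 (@Lb.g g10 (@Lb.g g11 (@Lb.r r1706 (@Lb.r r676 (@Lb.r r1447 (@Lb.r r405 (@Lb.r r2084 (@Lb.d (nat_lit 105) (nat_lit 65) (nat_lit 106) (@Lb.fm (nat_lit 9) t1262))))))))))))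
noncomputable def l3941 : Lb := (@Lb.r r322 (@Lb.d (nat_lit 34) (nat_lit 545) (nat_lit 128) (@Lb.g g8 (@Lb.g g9 (@Lb.g g11 (@Lb.r r1430 (@Lb.r r2645 (@Lb.r r20 (@Lb.d (nat_lit 354) (nat_lit 89) (nat_lit 384) (@Lb.t (@Lb.fp (nat_lit 9) t1263)))))))))))
noncomputable def l3942 : Lb := (@Lb.d (nat_lit 5) (nat_lit 290) (nat_lit 4) (@Lb.g g4 (@Lb.g g9 (@Lb.g g10 (@Lb.g g11 (@Lb.r r679 (@Lb.r r610 (@Lb.r r529 (@Lb.d (nat_lit 97) (nat_lit 41) (nat_lit 129) (@Lb.fp (nat_lit 9) t175))))))))))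
noncomputable def l3943 : Lb := (@Lb.d (nat_lit 8) (nat_lit 290) (nat_lit 130) (@Lb.g g9 (@Lb.g g10 (@Lb.g g11 (@Lb.r r387 (@Lb.r r2136 (@Lb.r r2438 (@Lb.r r593 (@Lb.d (nat_lit 337) (nat_lit 38) (nat_lit 649) (@Lb.t (@Lb.fm (nat_lit 9) t707)))))))))))
noncomputable def l3944 : Lb := (@Lb.d (nat_lit 0) (nat_lit 256) (nat_lit 2) (@Lb.g g10 (@Lb.r r260 (@Lb.r r523 (@Lb.r r161 (@Lb.r r98 (@Lb.r r516 (@Lb.d (nat_lit 1) (nat_lit 6) (nat_lit 69) (@Lb.t (@Lb.fp (nat_lit 3) t97))))))))))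
noncomputable def l3945 : Lb := (@Lb.r r359 (@Lb.d (nat_lit 4) (nat_lit 9) (nat_lit 2) (@Lb.g g8 (@Lb.g g9 (@Lb.g g10 (@Lb.r r683 (@Lb.r r610 (@Lb.r r1617 (@Lb.r r2440 (@Lb.d (nat_lit 2) (nat_lit 165) (nat_lit 665) (@Lb.t (@Lb.fm (nat_lit 9) t1264))))))))))))
noncomputable def l3946 : Lb := (@Lb.d (nat_lit 8) (nat_lit 33) (nat_lit 130) (@Lb.g g9 (@Lb.g g10 (@Lb.g g11 (@Lb.r r387 (@Lb.r r1690 (@Lb.r r2328 (@Lb.r r2581 (@Lb.d (nat_lit 518) (nat_lit 162) (nat_lit 145) (@Lb.t (@Lb.fm (nat_lit 9) t707)))))))))))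
noncomputable def l3947 : Lb := (@Lb.d (nat_lit 6) (nat_lit 546) (nat_lit 4) (@Lb.g g8 (@Lb.g g9 (@Lb.g g10 (@Lb.g g11 (@Lb.r r683 (@Lb.r r616 (@Lb.r r86 (@Lb.r r165 (@Lb.r r20 (@Lb.d (nat_lit 41) (nat_lit 1) (nat_lit 137) (@Lb.fm (nat_lit 9) t74))))))))))))
noncomputable def l3948 : Lb := (@Lb.r r323 (@Lb.d (nat_lit 33) (nat_lit 514) (nat_lit 2) (@Lb.g g8 (@Lb.g g9 (@Lb.g g10 (@Lb.r r1689 (@Lb.r r1563 (@Lb.r r1540 (@Lb.d (nat_lit 417) (nat_lit 0) (nat_lit 673) (@Lb.t (@Lb.fp (nat_lit 9) t321)))))))))))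
noncomputable def l3949 : Lb := (@Lb.d (nat_lit 129) (nat_lit 272) (nat_lit 2) (@Lb.g g8 (@Lb.g g9 (@Lb.g g10 (@Lb.g g11 (@Lb.r r2403 (@Lb.r r386 (@Lb.r r105 (@Lb.r r1156 (@Lb.d (nat_lit 517) (nat_lit 41) (nat_lit 617) (@Lb.fp (nat_lit 9) t19)))))))))))
noncomputable def l3950 : Lb := (@Lb.r r323 (@Lb.d (nat_lit 33) (nat_lit 516) (nat_lit 0) (@Lb.g g8 (@Lb.g g9 (@Lb.g g10 (@Lb.r r676 (@Lb.r r1447 (@Lb.r r2146 (@Lb.r r1377 (@Lb.d (nat_lit 0) (nat_lit 105) (nat_lit 614) (@Lb.t (@Lb.fp (nat_lit 9) t1265))))))))))))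
noncomputable def l3951 : Lb := (@Lb.d (nat_lit 514) (nat_lit 0) (nat_lit 677) (@Lb.r r2661 (@Lb.r r2371 (@Lb.r r678 (@Lb.g g7 (@Lb.g g5 (@Lb.g g8 (@Lb.d (nat_lit 618) (nat_lit 0) (nat_lit 64) (@Lb.r r98 (@Lb.t (@Lb.fm (nat_lit 9) t1032)))))))))))
noncomputable def l3952 : Lb := (@Lb.r r21 (@Lb.r r322 (@Lb.d (nat_lit 129) (nat_lit 32) (nat_lit 128) (@Lb.g g8 (@Lb.g g11 (@Lb.r r1684 (@Lb.r r150 (@Lb.r r25 (@Lb.d (nat_lit 609) (nat_lit 4) (nat_lit 598) (@Lb.fp (nat_lit 3) t1266))))))))))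
noncomputable def l3953 : Lb := (@Lb.d (nat_lit 9) (nat_lit 1) (nat_lit 129) (@Lb.g g8 (@Lb.g g9 (@Lb.g g10 (@Lb.g g11 (@Lb.r r663 (@Lb.r r682 (@Lb.r r97 (@Lb.r r24 (@Lb.d (nat_lit 72) (nat_lit 4) (nat_lit 70) (@Lb.fp (nat_lit 9) t61)))))))))))
noncomputable def l3954 : Lb := (@Lb.d (nat_lit 1) (nat_lit 18) (nat_lit 10) (@Lb.r r322 (@Lb.r r339 (@Lb.g g7 (@Lb.g g6 (@Lb.g g5 (@Lb.d (nat_lit 4) (nat_lit 1) (nat_lit 136) (@Lb.t (@Lb.fp (nat_lit 9) t607)))))))))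
noncomputable def l3955 : Lb := (@Lb.d (nat_lit 2) (nat_lit 34) (nat_lit 130) (@Lb.g g8 (@Lb.g g9 (@Lb.g g10 (@Lb.g g11 (@Lb.r r419 (@Lb.r r2154 (@Lb.r r2073 (@Lb.d (nat_lit 102) (nat_lit 136) (nat_lit 297) (@Lb.fp (nat_lit 9) t475))))))))))
noncomputable def l3956 : Lb := (@Lb.d (nat_lit 401) (nat_lit 512) (nat_lit 513) (@Lb.r r1604 (@Lb.r r146 (@Lb.r r345 (@Lb.g g11 (@Lb.g g4 (@Lb.d (nat_lit 6) (nat_lit 0) (nat_lit 384) (@Lb.r r578 (@Lb.fm (nat_lit 3) t1267)))))))))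
noncomputable def l3957 : Lb := (@Lb.d (nat_lit 2) (nat_lit 546) (nat_lit 130) (@Lb.g g8 (@Lb.g g9 (@Lb.g g10 (@Lb.g g11 (@Lb.r r419 (@Lb.r r2154 (@Lb.r r2073 (@Lb.d (nat_lit 104) (nat_lit 137) (nat_lit 297) (@Lb.fp (nat_lit 9) t928))))))))))
noncomputable def l3958 : Lb := (@Lb.d (nat_lit 10) (nat_lit 0) (nat_lit 73) (@Lb.g g8 (@Lb.g g10 (@Lb.g g11 (@Lb.r r2691 (@Lb.r r1109 (@Lb.r r2658 (@Lb.r r2436 (@Lb.d (nat_lit 610) (nat_lit 160) (nat_lit 598) (@Lb.t (@Lb.fp (nat_lit 9) t311)))))))))))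
noncomputable def l3959 : Lb := (@Lb.d (nat_lit 10) (nat_lit 256) (nat_lit 4) (@Lb.g g8 (@Lb.g g10 (@Lb.g g11 (@Lb.r r2691 (@Lb.r r661 (@Lb.r r146 (@Lb.r r2436 (@Lb.d (nat_lit 610) (nat_lit 90) (nat_lit 681) (@Lb.t (@Lb.fm (nat_lit 9) t311)))))))))))
noncomputable def l3960 : Lb := (@Lb.d (nat_lit 153) (nat_lit 0) (nat_lit 128) (@Lb.g g8 (@Lb.g g10 (@Lb.g g11 (@Lb.r r1691 (@Lb.r r346 (@Lb.r r2453 (@Lb.r r612 (@Lb.d (nat_lit 154) (nat_lit 16) (nat_lit 401) (@Lb.t (@Lb.fp (nat_lit 9) t50)))))))))))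
noncomputable def l3961 : Lb := (@Lb.g g5 (@Lb.r r24 (@Lb.r r2069 (@Lb.r r36 (@Lb.t (@Lb.fp (nat_lit 3) t2))))))
noncomputable def l3962 : Lb := (@Lb.d (nat_lit 598) (nat_lit 33) (nat_lit 80) (@Lb.r r276 (@Lb.r r2665 (@Lb.r r363 (@Lb.g g10 (@Lb.g g5 (@Lb.g g4 (@Lb.d (nat_lit 82) (nat_lit 8) (nat_lit 1) (@Lb.t (@Lb.fp (nat_lit 9) t983))))))))))
noncomputable def l3963 : Lb := (@Lb.d (nat_lit 0) (nat_lit 514) (nat_lit 64) (@Lb.g g9 (@Lb.g g11 (@Lb.r r337 (@Lb.r r1642 (@Lb.r r619 (@Lb.r r1096 (@Lb.d (nat_lit 68) (nat_lit 161) (nat_lit 384) (@Lb.fm (nat_lit 3) t414)))))))))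
noncomputable def l3964 : Lb := (@Lb.r r70 (@Lb.r r263 (@Lb.d (nat_lit 545) (nat_lit 0) (nat_lit 0) (@Lb.g g4 (@Lb.r r267 (@Lb.r r74 (@Lb.d (nat_lit 273) (nat_lit 0) (nat_lit 0) (@Lb.t (@Lb.fm (nat_lit 3) t1268)))))))))
noncomputable def l3965 : Lb := (@Lb.d (nat_lit 418) (nat_lit 256) (nat_lit 86) (@Lb.r r24 (@Lb.r r2458 (@Lb.r r2133 (@Lb.r r323 (@Lb.g g7 (@Lb.g g6 (@Lb.g g5 (@Lb.d (nat_lit 0) (nat_lit 24) (nat_lit 64) (@Lb.t (@Lb.fp (nat_lit 9) t311)))))))))))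
noncomputable def l3966 : Lb := (@Lb.r r21 (@Lb.d (nat_lit 145) (nat_lit 256) (nat_lit 74) (@Lb.g g8 (@Lb.g g10 (@Lb.g g11 (@Lb.r r651 (@Lb.r r2378 (@Lb.r r537 (@Lb.r r516 (@Lb.d (nat_lit 290) (nat_lit 0) (nat_lit 21) (@Lb.t (@Lb.fp (nat_lit 9) t283))))))))))))
noncomputable def l3967 : Lb := (@Lb.r r21 (@Lb.d (nat_lit 145) (nat_lit 0) (nat_lit 128) (@Lb.g g8 (@Lb.g g10 (@Lb.g g11 (@Lb.r r651 (@Lb.r r2378 (@Lb.r r537 (@Lb.r r516 (@Lb.d (nat_lit 290) (nat_lit 0) (nat_lit 21) (@Lb.t (@Lb.fp (nat_lit 9) t283))))))))))))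
noncomputable def l3968 : Lb := (@Lb.d (nat_lit 160) (nat_lit 2) (nat_lit 130) (@Lb.g g9 (@Lb.g g10 (@Lb.g g11 (@Lb.r r72 (@Lb.r r166 (@Lb.r r665 (@Lb.r r539 (@Lb.d (nat_lit 2) (nat_lit 130) (nat_lit 390) (@Lb.t (@Lb.fp (nat_lit 9) t210)))))))))))
noncomputable def l3969 : Lb := (@Lb.r r21 (@Lb.d (nat_lit 145) (nat_lit 256) (nat_lit 128) (@Lb.g g8 (@Lb.g g10 (@Lb.g g11 (@Lb.r r651 (@Lb.r r2378 (@Lb.r r537 (@Lb.r r516 (@Lb.d (nat_lit 289) (nat_lit 0) (nat_lit 21) (@Lb.t (@Lb.fp (nat_lit 9) t283))))))))))))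
noncomputable def l3970 : Lb := (@Lb.r r323 (@Lb.d (nat_lit 138) (nat_lit 512) (nat_lit 2) (@Lb.g g8 (@Lb.g g10 (@Lb.r r346 (@Lb.r r661 (@Lb.r r1559 (@Lb.r r2312 (@Lb.d (nat_lit 393) (nat_lit 128) (nat_lit 642) (@Lb.fm (nat_lit 3) t295))))))))))
noncomputable def l3971 : Lb := (@Lb.g g8 (@Lb.r r2073 (@Lb.d (nat_lit 256) (nat_lit 512) (nat_lit 0) (@Lb.t (@Lb.fp (nat_lit 3) t2)))))
noncomputable def l3972 : Lb := (@Lb.g g10 (@Lb.r r664 (@Lb.r r667 (@Lb.r r1690 (@Lb.r r1365 (@Lb.r r1700 (@Lb.t (@Lb.p (nat_lit 1) (@Lb.fm (nat_lit 3) t322)))))))))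
noncomputable def l3973 : Lb := (@Lb.d (nat_lit 2) (nat_lit 8) (nat_lit 130) (@Lb.g g8 (@Lb.g g10 (@Lb.g g11 (@Lb.r r2443 (@Lb.r r2345 (@Lb.r r2468 (@Lb.r r2438 (@Lb.d (nat_lit 610) (nat_lit 137) (nat_lit 664) (@Lb.t (@Lb.fm (nat_lit 9) t295)))))))))))
noncomputable def l3974 : Lb := (@Lb.d (nat_lit 2) (nat_lit 512) (nat_lit 0) (@Lb.g g8 (@Lb.g g10 (@Lb.r r2579 (@Lb.r r2345 (@Lb.r r1188 (@Lb.r r1158 (@Lb.d (nat_lit 2) (nat_lit 5) (nat_lit 1) (@Lb.fp (nat_lit 3) t296)))))))))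
noncomputable def l3975 : Lb := (@Lb.d (nat_lit 145) (nat_lit 512) (nat_lit 128) (@Lb.g g8 (@Lb.g g10 (@Lb.g g11 (@Lb.r r2698 (@Lb.r r1411 (@Lb.r r1177 (@Lb.r r2180 (@Lb.d (nat_lit 81) (nat_lit 0) (nat_lit 649) (@Lb.t (@Lb.fp (nat_lit 9) t283)))))))))))
noncomputable def l3976 : Lb := (@Lb.r r70 (@Lb.r r263 (@Lb.d (nat_lit 546) (nat_lit 258) (nat_lit 0) (@Lb.g g8 (@Lb.g g9 (@Lb.r r406 (@Lb.r r2627 (@Lb.r r25 (@Lb.d (nat_lit 0) (nat_lit 144) (nat_lit 576) (@Lb.fm (nat_lit 3) t842))))))))))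
noncomputable def l3977 : Lb := (@Lb.d (nat_lit 144) (nat_lit 512) (nat_lit 128) (@Lb.g g8 (@Lb.g g10 (@Lb.g g11 (@Lb.r r1675 (@Lb.r r330 (@Lb.r r537 (@Lb.r r1540 (@Lb.d (nat_lit 545) (nat_lit 0) (nat_lit 533) (@Lb.t (@Lb.fp (nat_lit 9) t283)))))))))))
noncomputable def l3978 : Lb := (@Lb.d (nat_lit 26) (nat_lit 512) (nat_lit 0) (@Lb.g g8 (@Lb.g g10 (@Lb.g g11 (@Lb.r r1381 (@Lb.r r1691 (@Lb.r r1668 (@Lb.r r2182 (@Lb.d (nat_lit 546) (nat_lit 0) (nat_lit 274) (@Lb.t (@Lb.fp (nat_lit 9) t329)))))))))))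
noncomputable def l3979 : Lb := (@Lb.r r323 (@Lb.d (nat_lit 73) (nat_lit 5) (nat_lit 16) (@Lb.g g8 (@Lb.g g9 (@Lb.g g10 (@Lb.r r427 (@Lb.r r1365 (@Lb.r r1192 (@Lb.d (nat_lit 133) (nat_lit 134) (nat_lit 133) (@Lb.t (@Lb.fp (nat_lit 9) t1033)))))))))))
noncomputable def l3980 : Lb := (@Lb.r r323 (@Lb.d (nat_lit 154) (nat_lit 6) (nat_lit 1) (@Lb.g g8 (@Lb.g g9 (@Lb.g g10 (@Lb.r r599 (@Lb.r r1122 (@Lb.r r2149 (@Lb.r r2456 (@Lb.d (nat_lit 345) (nat_lit 154) (nat_lit 105) (@Lb.t (@Lb.fp (nat_lit 9) t1033))))))))))))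
noncomputable def l3981 : Lb := (@Lb.d (nat_lit 2) (nat_lit 516) (nat_lit 146) (@Lb.g g8 (@Lb.g g6 (@Lb.g g11 (@Lb.r r1643 (@Lb.r r2145 (@Lb.r r2584 (@Lb.d (nat_lit 585) (nat_lit 162) (nat_lit 385) (@Lb.t (@Lb.fm (nat_lit 9) t1082))))))))))
noncomputable def l3982 : Lb := (@Lb.d (nat_lit 1) (nat_lit 288) (nat_lit 128) (@Lb.g g8 (@Lb.g g11 (@Lb.r r134 (@Lb.r r600 (@Lb.r r293 (@Lb.r r2459 (@Lb.d (nat_lit 408) (nat_lit 90) (nat_lit 665) (@Lb.fp (nat_lit 3) t295)))))))))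
noncomputable def l3983 : Lb := (@Lb.r r1427 (@Lb.r r101 (@Lb.r r24 (@Lb.d (nat_lit 538) (nat_lit 265) (nat_lit 16) (@Lb.fp (nat_lit 1) t592)))))
noncomputable def l3984 : Lb := (@Lb.r r82 (@Lb.d (nat_lit 40) (nat_lit 16) (nat_lit 132) (@Lb.g g8 (@Lb.g g9 (@Lb.g g7 (@Lb.r r1442 (@Lb.r r1321 (@Lb.r r100 (@Lb.d (nat_lit 42) (nat_lit 10) (nat_lit 297) (@Lb.t (@Lb.fp (nat_lit 9) t722)))))))))))
noncomputable def l3985 : Lb := (@Lb.r r82 (@Lb.d (nat_lit 41) (nat_lit 2) (nat_lit 128) (@Lb.g g8 (@Lb.g g9 (@Lb.g g11 (@Lb.r r547 (@Lb.r r582 (@Lb.r r153 (@Lb.r r408 (@Lb.d (nat_lit 88) (nat_lit 26) (nat_lit 74) (@Lb.t (@Lb.fm (nat_lit 9) t264))))))))))))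
noncomputable def l3986 : Lb := (@Lb.d (nat_lit 2) (nat_lit 265) (nat_lit 130) (@Lb.g g8 (@Lb.g g9 (@Lb.g g10 (@Lb.g g11 (@Lb.r r1186 (@Lb.r r660 (@Lb.r r425 (@Lb.r r279 (@Lb.r r548 (@Lb.d (nat_lit 2) (nat_lit 10) (nat_lit 585) (@Lb.fp (nat_lit 9) t98))))))))))))
noncomputable def l3987 : Lb := (@Lb.r r323 (@Lb.d (nat_lit 8) (nat_lit 290) (nat_lit 10) (@Lb.g g9 (@Lb.g g10 (@Lb.r r536 (@Lb.r r283 (@Lb.r r1641 (@Lb.r r1110 (@Lb.d (nat_lit 529) (nat_lit 5) (nat_lit 273) (@Lb.fm (nat_lit 3) t564))))))))))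
noncomputable def l3988 : Lb := (@Lb.d (nat_lit 2) (nat_lit 258) (nat_lit 68) (@Lb.g g8 (@Lb.g g9 (@Lb.g g10 (@Lb.g g11 (@Lb.r r427 (@Lb.r r356 (@Lb.r r154 (@Lb.r r21 (@Lb.r r36 (@Lb.d (nat_lit 33) (nat_lit 5) (nat_lit 16) (@Lb.fm (nat_lit 9) t221))))))))))))
noncomputable def l3989 : Lb := (@Lb.r r21 (@Lb.r r70 (@Lb.d (nat_lit 656) (nat_lit 0) (nat_lit 128) (@Lb.g g4 (@Lb.g g11 (@Lb.r r2694 (@Lb.r r1411 (@Lb.r r1637 (@Lb.d (nat_lit 257) (nat_lit 5) (nat_lit 344) (@Lb.fp (nat_lit 3) t1269))))))))))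
noncomputable def l3990 : Lb := (@Lb.d (nat_lit 1) (nat_lit 0) (nat_lit 130) (@Lb.g g4 (@Lb.g g9 (@Lb.g g10 (@Lb.g g11 (@Lb.r r2435 (@Lb.r r658 (@Lb.r r1633 (@Lb.d (nat_lit 1) (nat_lit 2) (nat_lit 74) (@Lb.fm (nat_lit 9) t1270))))))))))
noncomputable def l3991 : Lb := (@Lb.d (nat_lit 0) (nat_lit 256) (nat_lit 130) (@Lb.g g9 (@Lb.g g10 (@Lb.g g11 (@Lb.r r2435 (@Lb.r r658 (@Lb.r r1633 (@Lb.r r8 (@Lb.d (nat_lit 2) (nat_lit 2) (nat_lit 74) (@Lb.t (@Lb.fp (nat_lit 9) t1270)))))))))))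
noncomputable def l3992 : Lb := (@Lb.d (nat_lit 136) (nat_lit 512) (nat_lit 128) (@Lb.g g9 (@Lb.g g11 (@Lb.r r152 (@Lb.r r1429 (@Lb.r r291 (@Lb.r r2178 (@Lb.d (nat_lit 105) (nat_lit 162) (nat_lit 582) (@Lb.fm (nat_lit 3) t456)))))))))
noncomputable def l3993 : Lb := (@Lb.r r275 (@Lb.d (nat_lit 0) (nat_lit 5) (nat_lit 2) (@Lb.g g9 (@Lb.g g10 (@Lb.r r2371 (@Lb.r r162 (@Lb.r r2193 (@Lb.d (nat_lit 0) (nat_lit 129) (nat_lit 2) (@Lb.fp (nat_lit 3) t1271)))))))))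
noncomputable def l3994 : Lb := (@Lb.d (nat_lit 0) (nat_lit 288) (nat_lit 128) (@Lb.g g9 (@Lb.g g11 (@Lb.r r322 (@Lb.r r1683 (@Lb.r r1297 (@Lb.d (nat_lit 0) (nat_lit 0) (nat_lit 644) (@Lb.fp (nat_lit 3) t1272))))))))
noncomputable def l3995 : Lb := (@Lb.d (nat_lit 0) (nat_lit 0) (nat_lit 16) (@Lb.r r146 (@Lb.r r2129 (@Lb.r r2371 (@Lb.g g6 (@Lb.d (nat_lit 0) (nat_lit 0) (nat_lit 1) (@Lb.t (@Lb.fp (nat_lit 3) t1273))))))))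
noncomputable def l3996 : Lb := (@Lb.r r323 (@Lb.g g9 (@Lb.g g6 (@Lb.r r2339 (@Lb.r r1121 (@Lb.r r1106 (@Lb.d (nat_lit 0) (nat_lit 72) (nat_lit 18) (@Lb.fm (nat_lit 3) t1274))))))))
noncomputable def l3997 : Lb := (@Lb.d (nat_lit 2) (nat_lit 4) (nat_lit 0) (@Lb.g g8 (@Lb.g g9 (@Lb.g g10 (@Lb.g g11 (@Lb.r r427 (@Lb.r r1098 (@Lb.r r145 (@Lb.d (nat_lit 521) (nat_lit 68) (nat_lit 1) (@Lb.fp (nat_lit 9) t1275))))))))))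
noncomputable def l3998 : Lb := (@Lb.r r275 (@Lb.d (nat_lit 129) (nat_lit 517) (nat_lit 0) (@Lb.g g8 (@Lb.g g9 (@Lb.g g10 (@Lb.r r610 (@Lb.r r583 (@Lb.r r2345 (@Lb.r r264 (@Lb.d (nat_lit 137) (nat_lit 129) (nat_lit 144) (@Lb.t (@Lb.fp (nat_lit 9) t1276))))))))))))
noncomputable def l3999 : Lb := (@Lb.d (nat_lit 2) (nat_lit 2) (nat_lit 130) (@Lb.g g8 (@Lb.g g9 (@Lb.g g10 (@Lb.g g11 (@Lb.r r427 (@Lb.r r420 (@Lb.r r102 (@Lb.r r97 (@Lb.r r36 (@Lb.d (nat_lit 2) (nat_lit 9) (nat_lit 137) (@Lb.fm (nat_lit 9) t51))))))))))))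
noncomputable def l4000 : Lb := (@Lb.d (nat_lit 0) (nat_lit 257) (nat_lit 128) (@Lb.g g9 (@Lb.g g10 (@Lb.g g11 (@Lb.r r387 (@Lb.r r410 (@Lb.r r105 (@Lb.r r24 (@Lb.d (nat_lit 40) (nat_lit 2) (nat_lit 2) (@Lb.t (@Lb.fp (nat_lit 9) t145)))))))))))
noncomputable def l4001 : Lb := (@Lb.d (nat_lit 0) (nat_lit 256) (nat_lit 128) (@Lb.g g9 (@Lb.g g10 (@Lb.g g11 (@Lb.r r387 (@Lb.r r402 (@Lb.r r101 (@Lb.r r24 (@Lb.d (nat_lit 2) (nat_lit 0) (nat_lit 0) (@Lb.t (@Lb.fp (nat_lit 9) t145)))))))))))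
noncomputable def l4002 : Lb := (@Lb.d (nat_lit 2) (nat_lit 550) (nat_lit 64) (@Lb.g g8 (@Lb.g g9 (@Lb.g g10 (@Lb.g g11 (@Lb.r r2595 (@Lb.r r386 (@Lb.r r612 (@Lb.r r533 (@Lb.r r1060 (@Lb.d (nat_lit 640) (nat_lit 10) (nat_lit 641) (@Lb.fp (nat_lit 9) t718))))))))))))
noncomputable def l4003 : Lb := (@Lb.r r82 (@Lb.d (nat_lit 34) (nat_lit 2) (nat_lit 136) (@Lb.g g8 (@Lb.g g9 (@Lb.g g11 (@Lb.r r1362 (@Lb.r r2645 (@Lb.r r356 (@Lb.r r395 (@Lb.d (nat_lit 546) (nat_lit 34) (nat_lit 616) (@Lb.t (@Lb.fm (nat_lit 9) t50))))))))))))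
noncomputable def l4004 : Lb := (@Lb.d (nat_lit 2) (nat_lit 514) (nat_lit 72) (@Lb.g g8 (@Lb.g g9 (@Lb.g g11 (@Lb.r r1410 (@Lb.r r579 (@Lb.r r25 (@Lb.d (nat_lit 9) (nat_lit 146) (nat_lit 297) (@Lb.t (@Lb.fm (nat_lit 9) t210))))))))))
noncomputable def l4005 : Lb := (@Lb.d (nat_lit 0) (nat_lit 514) (nat_lit 73) (@Lb.g g8 (@Lb.g g9 (@Lb.g g10 (@Lb.g g11 (@Lb.r r427 (@Lb.r r677 (@Lb.r r340 (@Lb.r r170 (@Lb.d (nat_lit 21) (nat_lit 8) (nat_lit 137) (@Lb.fp (nat_lit 9) t61)))))))))))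
noncomputable def l4006 : Lb := (@Lb.d (nat_lit 0) (nat_lit 256) (nat_lit 73) (@Lb.g g8 (@Lb.g g9 (@Lb.g g10 (@Lb.g g11 (@Lb.r r586 (@Lb.r r328 (@Lb.r r535 (@Lb.r r289 (@Lb.d (nat_lit 8) (nat_lit 128) (nat_lit 0) (@Lb.fm (nat_lit 9) t51)))))))))))
noncomputable def l4007 : Lb := (@Lb.g g7 (@Lb.d (nat_lit 1) (nat_lit 256) (nat_lit 69) (@Lb.t (@Lb.fm (nat_lit 3) t2))))
noncomputable def l4008 : Lb := (@Lb.d (nat_lit 0) (nat_lit 256) (nat_lit 73) (@Lb.g g8 (@Lb.g g9 (@Lb.g g10 (@Lb.g g11 (@Lb.r r586 (@Lb.r r328 (@Lb.r r535 (@Lb.r r289 (@Lb.d (nat_lit 8) (nat_lit 2) (nat_lit 0) (@Lb.fm (nat_lit 9) t51)))))))))))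
noncomputable def l4009 : Lb := (@Lb.d (nat_lit 32) (nat_lit 256) (nat_lit 64) (@Lb.g g8 (@Lb.g g9 (@Lb.g g11 (@Lb.r r2579 (@Lb.r r422 (@Lb.r r289 (@Lb.r r1124 (@Lb.d (nat_lit 272) (nat_lit 72) (nat_lit 18) (@Lb.t (@Lb.fp (nat_lit 9) t51)))))))))))
noncomputable def l4010 : Lb := (@Lb.d (nat_lit 160) (nat_lit 0) (nat_lit 130) (@Lb.g g10 (@Lb.g g11 (@Lb.r r260 (@Lb.r r2651 (@Lb.r r2449 (@Lb.r r1426 (@Lb.d (nat_lit 521) (nat_lit 153) (nat_lit 9) (@Lb.fm (nat_lit 3) t188)))))))))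
noncomputable def l4011 : Lb := (@Lb.d (nat_lit 128) (nat_lit 272) (nat_lit 386) (@Lb.g g10 (@Lb.g g11 (@Lb.r r161 (@Lb.r r98 (@Lb.r r1416 (@Lb.d (nat_lit 272) (nat_lit 6) (nat_lit 144) (@Lb.fm (nat_lit 3) t1127))))))))
noncomputable def l4012 : Lb := (@Lb.d (nat_lit 128) (nat_lit 16) (nat_lit 384) (@Lb.g g11 (@Lb.r r81 (@Lb.r r162 (@Lb.r r145 (@Lb.r r1416 (@Lb.d (nat_lit 272) (nat_lit 10) (nat_lit 146) (@Lb.t (@Lb.fp (nat_lit 3) t1277)))))))))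
noncomputable def l4013 : Lb := (@Lb.d (nat_lit 0) (nat_lit 2) (nat_lit 128) (@Lb.g g9 (@Lb.g g11 (@Lb.r r1371 (@Lb.r r162 (@Lb.r r145 (@Lb.r r1416 (@Lb.d (nat_lit 518) (nat_lit 5) (nat_lit 1) (@Lb.fm (nat_lit 3) t899)))))))))
noncomputable def l4014 : Lb := (@Lb.r r82 (@Lb.d (nat_lit 2) (nat_lit 16) (nat_lit 64) (@Lb.g g8 (@Lb.g g9 (@Lb.g g11 (@Lb.r r595 (@Lb.r r2394 (@Lb.r r1681 (@Lb.d (nat_lit 289) (nat_lit 21) (nat_lit 328) (@Lb.t (@Lb.fp (nat_lit 9) t868)))))))))))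
noncomputable def l4015 : Lb := (@Lb.r r82 (@Lb.r r275 (@Lb.d (nat_lit 2) (nat_lit 512) (nat_lit 0) (@Lb.g g8 (@Lb.g g9 (@Lb.r r299 (@Lb.r r106 (@Lb.r r97 (@Lb.d (nat_lit 38) (nat_lit 8) (nat_lit 1) (@Lb.fp (nat_lit 3) t546))))))))))
noncomputable def l4016 : Lb := (@Lb.d (nat_lit 2) (nat_lit 516) (nat_lit 138) (@Lb.g g8 (@Lb.g g9 (@Lb.g g10 (@Lb.g g11 (@Lb.r r1699 (@Lb.r r2705 (@Lb.r r612 (@Lb.r r666 (@Lb.r r1156 (@Lb.d (nat_lit 330) (nat_lit 33) (nat_lit 74) (@Lb.fp (nat_lit 9) t1278))))))))))))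
noncomputable def l4017 : Lb := (@Lb.d (nat_lit 0) (nat_lit 0) (nat_lit 128) (@Lb.g g9 (@Lb.g g11 (@Lb.r r2471 (@Lb.r r1096 (@Lb.r r2646 (@Lb.r r289 (@Lb.d (nat_lit 533) (nat_lit 130) (nat_lit 0) (@Lb.fm (nat_lit 3) t219)))))))))
noncomputable def l4018 : Lb := (@Lb.r r82 (@Lb.d (nat_lit 34) (nat_lit 545) (nat_lit 64) (@Lb.g g8 (@Lb.g g9 (@Lb.g g11 (@Lb.r r2665 (@Lb.r r150 (@Lb.r r616 (@Lb.r r587 (@Lb.d (nat_lit 544) (nat_lit 34) (nat_lit 266) (@Lb.t (@Lb.fm (nat_lit 9) t98))))))))))))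
noncomputable def l4019 : Lb := (@Lb.d (nat_lit 0) (nat_lit 512) (nat_lit 130) (@Lb.g g8 (@Lb.g g9 (@Lb.g g10 (@Lb.g g11 (@Lb.r r586 (@Lb.r r584 (@Lb.r r299 (@Lb.r r289 (@Lb.d (nat_lit 9) (nat_lit 130) (nat_lit 0) (@Lb.fp (nat_lit 9) t51)))))))))))
noncomputable def l4020 : Lb := (@Lb.d (nat_lit 0) (nat_lit 289) (nat_lit 1) (@Lb.g g9 (@Lb.g g10 (@Lb.r r659 (@Lb.r r1682 (@Lb.r r353 (@Lb.d (nat_lit 0) (nat_lit 90) (nat_lit 326) (@Lb.fp (nat_lit 3) t324))))))))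
noncomputable def l4021 : Lb := (@Lb.d (nat_lit 2) (nat_lit 258) (nat_lit 9) (@Lb.g g8 (@Lb.g g9 (@Lb.g g10 (@Lb.g g7 (@Lb.r r386 (@Lb.r r97 (@Lb.r r24 (@Lb.d (nat_lit 10) (nat_lit 9) (nat_lit 137) (@Lb.fp (nat_lit 9) t40))))))))))
noncomputable def l4022 : Lb := (@Lb.d (nat_lit 66) (nat_lit 534) (nat_lit 129) (@Lb.r r81 (@Lb.r r579 (@Lb.r r342 (@Lb.g g7 (@Lb.g g6 (@Lb.g g5 (@Lb.g g4 (@Lb.d (nat_lit 1) (nat_lit 8) (nat_lit 132) (@Lb.fm (nat_lit 9) t68))))))))))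
noncomputable def l4023 : Lb := (@Lb.d (nat_lit 0) (nat_lit 514) (nat_lit 130) (@Lb.g g8 (@Lb.g g9 (@Lb.g g10 (@Lb.g g11 (@Lb.r r2467 (@Lb.r r168 (@Lb.r r426 (@Lb.r r1177 (@Lb.r r1156 (@Lb.d (nat_lit 521) (nat_lit 97) (nat_lit 10) (@Lb.fp (nat_lit 9) t445))))))))))))
noncomputable def l4024 : Lb := (@Lb.d (nat_lit 16) (nat_lit 514) (nat_lit 128) (@Lb.g g8 (@Lb.g g9 (@Lb.g g10 (@Lb.g g11 (@Lb.r r648 (@Lb.r r2699 (@Lb.r r1681 (@Lb.r r2714 (@Lb.r r1156 (@Lb.d (nat_lit 585) (nat_lit 98) (nat_lit 674) (@Lb.fm (nat_lit 9) t1279))))))))))))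
noncomputable def l4025 : Lb := (@Lb.d (nat_lit 602) (nat_lit 352) (nat_lit 106) (@Lb.r r614 (@Lb.r r1623 (@Lb.r r280 (@Lb.r r105 (@Lb.g g7 (@Lb.g g6 (@Lb.d (nat_lit 80) (nat_lit 4) (nat_lit 133) (@Lb.fp (nat_lit 3) t1268)))))))))
noncomputable def l4026 : Lb := (@Lb.r r82 (@Lb.d (nat_lit 0) (nat_lit 256) (nat_lit 128) (@Lb.g g9 (@Lb.g g11 (@Lb.r r2467 (@Lb.r r386 (@Lb.r r1048 (@Lb.r r2149 (@Lb.d (nat_lit 586) (nat_lit 2) (nat_lit 528) (@Lb.fp (nat_lit 3) t898))))))))))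
noncomputable def l4027 : Lb := (@Lb.r r82 (@Lb.d (nat_lit 34) (nat_lit 0) (nat_lit 136) (@Lb.g g8 (@Lb.g g9 (@Lb.g g11 (@Lb.r r617 (@Lb.r r150 (@Lb.r r356 (@Lb.r r395 (@Lb.d (nat_lit 128) (nat_lit 160) (nat_lit 73) (@Lb.t (@Lb.fm (nat_lit 9) t1280))))))))))))
noncomputable def l4028 : Lb := (@Lb.d (nat_lit 273) (nat_lit 5) (nat_lit 153) (@Lb.r r2635 (@Lb.r r2438 (@Lb.r r1620 (@Lb.r r1193 (@Lb.g g5 (@Lb.g g4 (@Lb.d (nat_lit 1) (nat_lit 1) (nat_lit 0) (@Lb.fp (nat_lit 3) t1281)))))))))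
noncomputable def l4029 : Lb := (@Lb.d (nat_lit 80) (nat_lit 553) (nat_lit 69) (@Lb.r r24 (@Lb.r r82 (@Lb.r r425 (@Lb.r r347 (@Lb.g g7 (@Lb.g g6 (@Lb.g g5 (@Lb.d (nat_lit 0) (nat_lit 9) (nat_lit 64) (@Lb.t (@Lb.fp (nat_lit 9) t522)))))))))))
noncomputable def l4030 : Lb := (@Lb.d (nat_lit 0) (nat_lit 512) (nat_lit 128) (@Lb.g g9 (@Lb.g g10 (@Lb.g g11 (@Lb.r r387 (@Lb.r r402 (@Lb.r r101 (@Lb.r r24 (@Lb.d (nat_lit 2) (nat_lit 10) (nat_lit 2) (@Lb.t (@Lb.fp (nat_lit 9) t145)))))))))))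
noncomputable def l4031 : Lb := (@Lb.r r427 (@Lb.d (nat_lit 22) (nat_lit 9) (nat_lit 4) (@Lb.g g8 (@Lb.g g9 (@Lb.g g6 (@Lb.r r343 (@Lb.r r537 (@Lb.r r548 (@Lb.d (nat_lit 129) (nat_lit 18) (nat_lit 129) (@Lb.t (@Lb.fp (nat_lit 9) t841)))))))))))
noncomputable def l4032 : Lb := (@Lb.d (nat_lit 0) (nat_lit 544) (nat_lit 128) (@Lb.g g8 (@Lb.g g11 (@Lb.r r1109 (@Lb.r r2452 (@Lb.r r2587 (@Lb.r r2178 (@Lb.d (nat_lit 96) (nat_lit 130) (nat_lit 394) (@Lb.fm (nat_lit 3) t1282)))))))))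
noncomputable def l4033 : Lb := (@Lb.r r20 (@Lb.r r82 (@Lb.r r275 (@Lb.g g9 (@Lb.r r291 (@Lb.r r98 (@Lb.r r2180 (@Lb.d (nat_lit 0) (nat_lit 514) (nat_lit 16) (@Lb.t (@Lb.fp (nat_lit 3) t1283))))))))))
noncomputable def l4034 : Lb := (@Lb.d (nat_lit 0) (nat_lit 265) (nat_lit 130) (@Lb.g g8 (@Lb.g g9 (@Lb.g g10 (@Lb.g g11 (@Lb.r r2730 (@Lb.r r1419 (@Lb.r r1553 (@Lb.r r1416 (@Lb.d (nat_lit 145) (nat_lit 97) (nat_lit 106) (@Lb.fp (nat_lit 9) t876)))))))))))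
noncomputable def l4035 : Lb := (@Lb.d (nat_lit 134) (nat_lit 258) (nat_lit 73) (@Lb.g g8 (@Lb.g g9 (@Lb.g g10 (@Lb.g g11 (@Lb.r r1707 (@Lb.r r362 (@Lb.r r1561 (@Lb.r r516 (@Lb.d (nat_lit 649) (nat_lit 153) (nat_lit 21) (@Lb.fm (nat_lit 9) t773)))))))))))
noncomputable def l4036 : Lb := (@Lb.r r21 (@Lb.d (nat_lit 129) (nat_lit 512) (nat_lit 73) (@Lb.g g8 (@Lb.g g10 (@Lb.g g11 (@Lb.r r1691 (@Lb.r r409 (@Lb.r r90 (@Lb.r r1348 (@Lb.d (nat_lit 521) (nat_lit 105) (nat_lit 338) (@Lb.t (@Lb.fp (nat_lit 9) t1225))))))))))))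
noncomputable def l4037 : Lb := (@Lb.r r323 (@Lb.d (nat_lit 2) (nat_lit 41) (nat_lit 2) (@Lb.g g8 (@Lb.g g9 (@Lb.g g10 (@Lb.r r2474 (@Lb.r r2468 (@Lb.r r1307 (@Lb.r r2661 (@Lb.d (nat_lit 665) (nat_lit 90) (nat_lit 325) (@Lb.t (@Lb.fm (nat_lit 9) t525))))))))))))
noncomputable def l4038 : Lb := (@Lb.r r21 (@Lb.r r70 (@Lb.r r263 (@Lb.d (nat_lit 549) (nat_lit 256) (nat_lit 0) (@Lb.g g8 (@Lb.r r267 (@Lb.r r74 (@Lb.r r25 (@Lb.d (nat_lit 282) (nat_lit 0) (nat_lit 0) (@Lb.t (@Lb.fp (nat_lit 3) t806)))))))))))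
noncomputable def l4039 : Lb := (@Lb.r r21 (@Lb.d (nat_lit 129) (nat_lit 256) (nat_lit 66) (@Lb.g g8 (@Lb.g g10 (@Lb.g g11 (@Lb.r r1691 (@Lb.r r1689 (@Lb.r r1370 (@Lb.r r1364 (@Lb.d (nat_lit 388) (nat_lit 72) (nat_lit 586) (@Lb.t (@Lb.fp (nat_lit 9) t264))))))))))))
noncomputable def l4040 : Lb := (@Lb.r r21 (@Lb.d (nat_lit 129) (nat_lit 512) (nat_lit 66) (@Lb.g g8 (@Lb.g g10 (@Lb.g g11 (@Lb.r r1691 (@Lb.r r1689 (@Lb.r r1370 (@Lb.r r1364 (@Lb.d (nat_lit 390) (nat_lit 9) (nat_lit 586) (@Lb.t (@Lb.fp (nat_lit 9) t1284))))))))))))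
noncomputable def l4041 : Lb := (@Lb.d (nat_lit 0) (nat_lit 256) (nat_lit 128) (@Lb.g g10 (@Lb.g g11 (@Lb.r r387 (@Lb.r r402 (@Lb.r r101 (@Lb.r r24 (@Lb.d (nat_lit 550) (nat_lit 6) (nat_lit 16) (@Lb.fp (nat_lit 3) t145)))))))))
noncomputable def l4042 : Lb := (@Lb.r r21 (@Lb.d (nat_lit 129) (nat_lit 512) (nat_lit 66) (@Lb.g g8 (@Lb.g g10 (@Lb.g g11 (@Lb.r r1691 (@Lb.r r1689 (@Lb.r r1370 (@Lb.r r1364 (@Lb.d (nat_lit 390) (nat_lit 72) (nat_lit 586) (@Lb.t (@Lb.fp (nat_lit 9) t264))))))))))))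
noncomputable def l4043 : Lb := (@Lb.d (nat_lit 2) (nat_lit 257) (nat_lit 64) (@Lb.g g8 (@Lb.g g9 (@Lb.g g11 (@Lb.r r276 (@Lb.r r2729 (@Lb.r r1707 (@Lb.r r2178 (@Lb.r r1572 (@Lb.d (nat_lit 274) (nat_lit 10) (nat_lit 610) (@Lb.t (@Lb.fp (nat_lit 9) t124))))))))))))
noncomputable def l4044 : Lb := (@Lb.d (nat_lit 2) (nat_lit 257) (nat_lit 128) (@Lb.g g8 (@Lb.g g9 (@Lb.g g11 (@Lb.r r404 (@Lb.r r2601 (@Lb.r r1579 (@Lb.r r2178 (@Lb.r r1572 (@Lb.d (nat_lit 544) (nat_lit 10) (nat_lit 577) (@Lb.t (@Lb.fp (nat_lit 9) t124))))))))))))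
noncomputable def l4045 : Lb := (@Lb.d (nat_lit 2) (nat_lit 265) (nat_lit 72) (@Lb.g g8 (@Lb.g g9 (@Lb.g g10 (@Lb.g g11 (@Lb.r r264 (@Lb.r r1431 (@Lb.r r1169 (@Lb.r r1618 (@Lb.r r132 (@Lb.d (nat_lit 10) (nat_lit 165) (nat_lit 530) (@Lb.fm (nat_lit 9) t375))))))))))))
noncomputable def l4046 : Lb := (@Lb.d (nat_lit 426) (nat_lit 100) (nat_lit 521) (@Lb.r r1705 (@Lb.r r2390 (@Lb.r r683 (@Lb.g g7 (@Lb.g g6 (@Lb.g g5 (@Lb.g g4 (@Lb.d (nat_lit 8) (nat_lit 22) (nat_lit 66) (@Lb.fp (nat_lit 9) t1285))))))))))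
noncomputable def l4047 : Lb := (@Lb.d (nat_lit 2) (nat_lit 258) (nat_lit 73) (@Lb.g g8 (@Lb.g g9 (@Lb.g g10 (@Lb.g g11 (@Lb.r r683 (@Lb.r r676 (@Lb.r r166 (@Lb.r r145 (@Lb.d (nat_lit 9) (nat_lit 2) (nat_lit 138) (@Lb.fp (nat_lit 9) t51)))))))))))
noncomputable def l4048 : Lb := (@Lb.d (nat_lit 4) (nat_lit 513) (nat_lit 0) (@Lb.g g5 (@Lb.r r1126 (@Lb.r r24 (@Lb.d (nat_lit 578) (nat_lit 1) (nat_lit 512) (@Lb.t (@Lb.fp (nat_lit 3) t282)))))))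
noncomputable def l4049 : Lb := (@Lb.d (nat_lit 8) (nat_lit 288) (nat_lit 90) (@Lb.g g8 (@Lb.g g10 (@Lb.g g11 (@Lb.r r353 (@Lb.r r535 (@Lb.r r2436 (@Lb.d (nat_lit 341) (nat_lit 70) (nat_lit 546) (@Lb.t (@Lb.fm (nat_lit 9) t386))))))))))
noncomputable def l4050 : Lb := (@Lb.d (nat_lit 9) (nat_lit 514) (nat_lit 64) (@Lb.g g8 (@Lb.g g9 (@Lb.g g11 (@Lb.r r353 (@Lb.r r663 (@Lb.r r328 (@Lb.r r134 (@Lb.d (nat_lit 522) (nat_lit 2) (nat_lit 144) (@Lb.t (@Lb.fm (nat_lit 9) t40)))))))))))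
noncomputable def l4051 : Lb := (@Lb.g g7 (@Lb.r r100 (@Lb.r r410 (@Lb.r r21 (@Lb.r r2084 (@Lb.d (nat_lit 0) (nat_lit 5) (nat_lit 298) (@Lb.t (@Lb.fp (nat_lit 3) t311))))))))
noncomputable def l4052 : Lb := (@Lb.d (nat_lit 0) (nat_lit 514) (nat_lit 73) (@Lb.g g9 (@Lb.g g10 (@Lb.g g11 (@Lb.r r2691 (@Lb.r r1610 (@Lb.r r2153 (@Lb.r r2120 (@Lb.d (nat_lit 356) (nat_lit 129) (nat_lit 354) (@Lb.t (@Lb.fp (nat_lit 9) t145)))))))))))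
noncomputable def l4053 : Lb := (@Lb.g g5 (@Lb.g g7 (@Lb.r r1414 (@Lb.r r149 (@Lb.r r2120 (@Lb.d (nat_lit 546) (nat_lit 256) (nat_lit 610) (@Lb.fm (nat_lit 3) t145)))))))
noncomputable def l4054 : Lb := (@Lb.d (nat_lit 0) (nat_lit 258) (nat_lit 0) (@Lb.g g9 (@Lb.g g7 (@Lb.r r1414 (@Lb.r r2153 (@Lb.r r2120 (@Lb.d (nat_lit 41) (nat_lit 130) (nat_lit 610) (@Lb.fm (nat_lit 3) t145))))))))
noncomputable def l4055 : Lb := (@Lb.d (nat_lit 1) (nat_lit 288) (nat_lit 2) (@Lb.g g8 (@Lb.g g9 (@Lb.g g10 (@Lb.r r1675 (@Lb.r r170 (@Lb.r r1441 (@Lb.r r2564 (@Lb.d (nat_lit 138) (nat_lit 36) (nat_lit 656) (@Lb.t (@Lb.fp (nat_lit 9) t284)))))))))))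
noncomputable def l4056 : Lb := (@Lb.d (nat_lit 8) (nat_lit 2) (nat_lit 64) (@Lb.g g9 (@Lb.g g11 (@Lb.r r1447 (@Lb.r r1414 (@Lb.r r24 (@Lb.d (nat_lit 522) (nat_lit 72) (nat_lit 18) (@Lb.fm (nat_lit 3) t1122))))))))
noncomputable def l4057 : Lb := (@Lb.d (nat_lit 5) (nat_lit 10) (nat_lit 129) (@Lb.g g8 (@Lb.g g9 (@Lb.g g10 (@Lb.g g11 (@Lb.r r1671 (@Lb.r r1305 (@Lb.r r2392 (@Lb.r r2630 (@Lb.d (nat_lit 665) (nat_lit 8) (nat_lit 324) (@Lb.fp (nat_lit 9) t1286)))))))))))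
noncomputable def l4058 : Lb := (@Lb.d (nat_lit 16) (nat_lit 258) (nat_lit 128) (@Lb.g g8 (@Lb.g g9 (@Lb.g g10 (@Lb.g g11 (@Lb.r r427 (@Lb.r r2193 (@Lb.r r356 (@Lb.r r1178 (@Lb.r r2180 (@Lb.d (nat_lit 265) (nat_lit 130) (nat_lit 418) (@Lb.fm (nat_lit 9) t1287))))))))))))
noncomputable def l4059 : Lb := (@Lb.d (nat_lit 22) (nat_lit 256) (nat_lit 128) (@Lb.g g8 (@Lb.g g9 (@Lb.g g10 (@Lb.g g11 (@Lb.r r1703 (@Lb.r r2597 (@Lb.r r660 (@Lb.r r2118 (@Lb.r r132 (@Lb.d (nat_lit 521) (nat_lit 32) (nat_lit 678) (@Lb.fp (nat_lit 9) t220))))))))))))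
noncomputable def l4060 : Lb := (@Lb.d (nat_lit 586) (nat_lit 96) (nat_lit 617) (@Lb.r r1560 (@Lb.r r277 (@Lb.r r619 (@Lb.g g10 (@Lb.g g8 (@Lb.d (nat_lit 69) (nat_lit 0) (nat_lit 8) (@Lb.r r387 (@Lb.fm (nat_lit 3) t1288)))))))))
noncomputable def l4061 : Lb := (@Lb.d (nat_lit 389) (nat_lit 402) (nat_lit 354) (@Lb.r r1556 (@Lb.r r281 (@Lb.r r615 (@Lb.g g10 (@Lb.g g4 (@Lb.d (nat_lit 69) (nat_lit 0) (nat_lit 8) (@Lb.r r387 (@Lb.fm (nat_lit 3) t1288)))))))))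
noncomputable def l4062 : Lb := (@Lb.d (nat_lit 2) (nat_lit 514) (nat_lit 128) (@Lb.g g8 (@Lb.g g9 (@Lb.g g10 (@Lb.g g11 (@Lb.r r1707 (@Lb.r r2705 (@Lb.r r356 (@Lb.r r2714 (@Lb.r r132 (@Lb.d (nat_lit 329) (nat_lit 162) (nat_lit 529) (@Lb.fp (nat_lit 9) t1289))))))))))))
noncomputable def l4063 : Lb := (@Lb.d (nat_lit 274) (nat_lit 600) (nat_lit 24) (@Lb.r r2579 (@Lb.r r421 (@Lb.r r106 (@Lb.r r72 (@Lb.g g7 (@Lb.g g6 (@Lb.g g5 (@Lb.d (nat_lit 84) (nat_lit 0) (nat_lit 65) (@Lb.t (@Lb.fm (nat_lit 9) t1290)))))))))))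
noncomputable def l4064 : Lb := (@Lb.d (nat_lit 616) (nat_lit 294) (nat_lit 84) (@Lb.r r404 (@Lb.r r363 (@Lb.r r273 (@Lb.g g7 (@Lb.g g10 (@Lb.g g5 (@Lb.g g4 (@Lb.d (nat_lit 18) (nat_lit 1) (nat_lit 66) (@Lb.fm (nat_lit 9) t414))))))))))
noncomputable def l4065 : Lb := (@Lb.d (nat_lit 256) (nat_lit 8) (nat_lit 64) (@Lb.r r1416 (@Lb.r r1386 (@Lb.r r1369 (@Lb.g g7 (@Lb.g g6 (@Lb.d (nat_lit 64) (nat_lit 32) (nat_lit 577) (@Lb.fp (nat_lit 3) t472))))))))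
noncomputable def l4066 : Lb := (@Lb.d (nat_lit 280) (nat_lit 90) (nat_lit 16) (@Lb.r r297 (@Lb.r r420 (@Lb.r r422 (@Lb.g g11 (@Lb.g g5 (@Lb.d (nat_lit 0) (nat_lit 0) (nat_lit 392) (@Lb.r r98 (@Lb.fp (nat_lit 3) t1291)))))))))
noncomputable def l4067 : Lb := (@Lb.d (nat_lit 276) (nat_lit 65) (nat_lit 17) (@Lb.r r1621 (@Lb.r r1094 (@Lb.r r2391 (@Lb.g g7 (@Lb.g g6 (@Lb.g g5 (@Lb.g g4 (@Lb.d (nat_lit 1) (nat_lit 0) (nat_lit 65) (@Lb.fp (nat_lit 9) t1292))))))))))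
noncomputable def l4068 : Lb := (@Lb.d (nat_lit 261) (nat_lit 388) (nat_lit 33) (@Lb.r r24 (@Lb.r r1414 (@Lb.r r2395 (@Lb.g g7 (@Lb.g g6 (@Lb.g g5 (@Lb.d (nat_lit 4) (nat_lit 1) (nat_lit 64) (@Lb.t (@Lb.fp (nat_lit 9) t1293))))))))))
noncomputable def l4069 : Lb := (@Lb.d (nat_lit 261) (nat_lit 521) (nat_lit 64) (@Lb.r r1416 (@Lb.r r1386 (@Lb.r r1369 (@Lb.g g7 (@Lb.g g6 (@Lb.d (nat_lit 64) (nat_lit 32) (nat_lit 577) (@Lb.fp (nat_lit 3) t472))))))))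
noncomputable def l4070 : Lb := (@Lb.d (nat_lit 25) (nat_lit 2) (nat_lit 136) (@Lb.r r104 (@Lb.r r609 (@Lb.r r402 (@Lb.r r551 (@Lb.g g4 (@Lb.d (nat_lit 65) (nat_lit 0) (nat_lit 0) (@Lb.t (@Lb.fm (nat_lit 3) t167)))))))))
noncomputable def l4071 : Lb := (@Lb.d (nat_lit 0) (nat_lit 512) (nat_lit 128) (@Lb.r r289 (@Lb.r r279 (@Lb.r r584 (@Lb.r r86 (@Lb.g g6 (@Lb.g g5 (@Lb.d (nat_lit 0) (nat_lit 5) (nat_lit 0) (@Lb.r r387 (@Lb.fm (nat_lit 3) t215))))))))))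
noncomputable def l4072 : Lb := (@Lb.d (nat_lit 32) (nat_lit 264) (nat_lit 130) (@Lb.g g10 (@Lb.g g11 (@Lb.r r2711 (@Lb.r r1384 (@Lb.r r361 (@Lb.r r1622 (@Lb.d (nat_lit 405) (nat_lit 102) (nat_lit 130) (@Lb.fp (nat_lit 3) t271)))))))))
noncomputable def l4073 : Lb := (@Lb.d (nat_lit 2) (nat_lit 545) (nat_lit 130) (@Lb.g g8 (@Lb.g g9 (@Lb.g g10 (@Lb.g g11 (@Lb.r r1706 (@Lb.r r676 (@Lb.r r551 (@Lb.r r533 (@Lb.r r1060 (@Lb.d (nat_lit 393) (nat_lit 1) (nat_lit 586) (@Lb.fp (nat_lit 9) t74))))))))))))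
noncomputable def l4074 : Lb := (@Lb.d (nat_lit 8) (nat_lit 516) (nat_lit 128) (@Lb.g g9 (@Lb.g g10 (@Lb.g g11 (@Lb.r r2715 (@Lb.r r2708 (@Lb.r r2374 (@Lb.r r1617 (@Lb.d (nat_lit 593) (nat_lit 104) (nat_lit 406) (@Lb.t (@Lb.fp (nat_lit 9) t1294)))))))))))
noncomputable def l4075 : Lb := (@Lb.d (nat_lit 34) (nat_lit 514) (nat_lit 130) (@Lb.g g8 (@Lb.g g9 (@Lb.g g10 (@Lb.g g11 (@Lb.r r1707 (@Lb.r r657 (@Lb.r r356 (@Lb.r r1690 (@Lb.r r1156 (@Lb.d (nat_lit 73) (nat_lit 34) (nat_lit 289) (@Lb.fp (nat_lit 9) t1295))))))))))))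
noncomputable def l4076 : Lb := (@Lb.d (nat_lit 586) (nat_lit 298) (nat_lit 144) (@Lb.r r677 (@Lb.r r359 (@Lb.r r532 (@Lb.g g10 (@Lb.g g5 (@Lb.g g4 (@Lb.d (nat_lit 1) (nat_lit 18) (nat_lit 33) (@Lb.r r387 (@Lb.t (@Lb.fp (nat_lit 9) t207)))))))))))
noncomputable def l4077 : Lb := (@Lb.d (nat_lit 2) (nat_lit 10) (nat_lit 136) (@Lb.g g8 (@Lb.g g9 (@Lb.g g11 (@Lb.r r1162 (@Lb.r r1188 (@Lb.r r405 (@Lb.r r1635 (@Lb.d (nat_lit 2) (nat_lit 0) (nat_lit 282) (@Lb.t (@Lb.fm (nat_lit 9) t642)))))))))))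
noncomputable def l4078 : Lb := (@Lb.d (nat_lit 8) (nat_lit 260) (nat_lit 74) (@Lb.g g9 (@Lb.g g10 (@Lb.g g11 (@Lb.r r2715 (@Lb.r r2708 (@Lb.r r2374 (@Lb.r r1617 (@Lb.d (nat_lit 592) (nat_lit 104) (nat_lit 406) (@Lb.t (@Lb.fp (nat_lit 9) t1294)))))))))))
noncomputable def l4079 : Lb := (@Lb.r r21 (@Lb.d (nat_lit 2) (nat_lit 256) (nat_lit 130) (@Lb.g g8 (@Lb.g g10 (@Lb.g g11 (@Lb.r r2379 (@Lb.r r386 (@Lb.r r97 (@Lb.r r72 (@Lb.d (nat_lit 290) (nat_lit 10) (nat_lit 85) (@Lb.t (@Lb.fp (nat_lit 9) t61))))))))))))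
noncomputable def l4080 : Lb := (@Lb.r r323 (@Lb.d (nat_lit 8) (nat_lit 258) (nat_lit 2) (@Lb.g g9 (@Lb.g g10 (@Lb.r r2339 (@Lb.r r2434 (@Lb.d (nat_lit 2) (nat_lit 169) (nat_lit 344) (@Lb.fp (nat_lit 3) t295))))))))
noncomputable def l4081 : Lb := (@Lb.d (nat_lit 0) (nat_lit 394) (nat_lit 69) (@Lb.r r289 (@Lb.r r1386 (@Lb.r r1096 (@Lb.r r1307 (@Lb.g g5 (@Lb.t (@Lb.fm (nat_lit 3) t476))))))))
noncomputable def l4082 : Lb := (@Lb.r r82 (@Lb.d (nat_lit 33) (nat_lit 2) (nat_lit 128) (@Lb.g g8 (@Lb.g g9 (@Lb.g g11 (@Lb.r r363 (@Lb.r r582 (@Lb.r r392 (@Lb.d (nat_lit 153) (nat_lit 2) (nat_lit 137) (@Lb.t (@Lb.fp (nat_lit 9) t601)))))))))))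
noncomputable def l4083 : Lb := (@Lb.d (nat_lit 2) (nat_lit 265) (nat_lit 1) (@Lb.g g8 (@Lb.g g9 (@Lb.g g10 (@Lb.r r1555 (@Lb.r r297 (@Lb.r r1384 (@Lb.r r2630 (@Lb.d (nat_lit 418) (nat_lit 10) (nat_lit 356) (@Lb.t (@Lb.fp (nat_lit 9) t249)))))))))))
noncomputable def l4084 : Lb := (@Lb.r r82 (@Lb.d (nat_lit 33) (nat_lit 514) (nat_lit 128) (@Lb.g g8 (@Lb.g g9 (@Lb.g g11 (@Lb.r r363 (@Lb.r r582 (@Lb.r r392 (@Lb.d (nat_lit 152) (nat_lit 9) (nat_lit 136) (@Lb.t (@Lb.fp (nat_lit 9) t1296)))))))))))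
noncomputable def l4085 : Lb := (@Lb.r r82 (@Lb.d (nat_lit 34) (nat_lit 2) (nat_lit 128) (@Lb.g g8 (@Lb.g g9 (@Lb.g g11 (@Lb.r r363 (@Lb.r r582 (@Lb.r r392 (@Lb.d (nat_lit 152) (nat_lit 2) (nat_lit 137) (@Lb.t (@Lb.fp (nat_lit 9) t1296)))))))))))
noncomputable def l4086 : Lb := (@Lb.d (nat_lit 1) (nat_lit 258) (nat_lit 130) (@Lb.g g8 (@Lb.g g9 (@Lb.g g10 (@Lb.g g11 (@Lb.r r427 (@Lb.r r145 (@Lb.r r356 (@Lb.r r154 (@Lb.r r132 (@Lb.d (nat_lit 9) (nat_lit 2) (nat_lit 137) (@Lb.fm (nat_lit 9) t61))))))))))))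
noncomputable def l4087 : Lb := (@Lb.r r82 (@Lb.d (nat_lit 8) (nat_lit 10) (nat_lit 128) (@Lb.g g9 (@Lb.g g11 (@Lb.r r1426 (@Lb.r r2659 (@Lb.r r1304 (@Lb.r r2661 (@Lb.d (nat_lit 602) (nat_lit 25) (nat_lit 618) (@Lb.fm (nat_lit 3) t1297))))))))))
noncomputable def l4088 : Lb := (@Lb.d (nat_lit 2) (nat_lit 9) (nat_lit 4) (@Lb.g g8 (@Lb.g g9 (@Lb.g g10 (@Lb.g g11 (@Lb.r r2723 (@Lb.r r2453 (@Lb.r r356 (@Lb.r r154 (@Lb.d (nat_lit 665) (nat_lit 10) (nat_lit 345) (@Lb.fp (nat_lit 9) t525)))))))))))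
noncomputable def l4089 : Lb := (@Lb.d (nat_lit 640) (nat_lit 256) (nat_lit 256) (@Lb.r r1048 (@Lb.r r97 (@Lb.r r402 (@Lb.r r2631 (@Lb.g g8 (@Lb.r r74 (@Lb.r r25 (@Lb.t (@Lb.fp (nat_lit 3) t1298))))))))))
noncomputable def l4090 : Lb := (@Lb.d (nat_lit 25) (nat_lit 265) (nat_lit 130) (@Lb.g g8 (@Lb.g g9 (@Lb.g g10 (@Lb.g g11 (@Lb.r r1451 (@Lb.r r392 (@Lb.r r2138 (@Lb.r r1173 (@Lb.r r1060 (@Lb.d (nat_lit 169) (nat_lit 8) (nat_lit 646) (@Lb.fm (nat_lit 9) t535))))))))))))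
noncomputable def l4091 : Lb := (@Lb.d (nat_lit 2) (nat_lit 2) (nat_lit 2) (@Lb.g g8 (@Lb.g g9 (@Lb.g g10 (@Lb.g g11 (@Lb.r r427 (@Lb.r r161 (@Lb.r r1190 (@Lb.r r1169 (@Lb.d (nat_lit 260) (nat_lit 8) (nat_lit 34) (@Lb.fp (nat_lit 9) t1299)))))))))))
noncomputable def l4092 : Lb := (@Lb.r r275 (@Lb.d (nat_lit 25) (nat_lit 265) (nat_lit 2) (@Lb.g g8 (@Lb.g g9 (@Lb.g g10 (@Lb.r r2666 (@Lb.r r1603 (@Lb.r r1321 (@Lb.r r2312 (@Lb.d (nat_lit 133) (nat_lit 24) (nat_lit 642) (@Lb.t (@Lb.fp (nat_lit 9) t1300))))))))))))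
noncomputable def l4093 : Lb := (@Lb.r r275 (@Lb.d (nat_lit 2) (nat_lit 256) (nat_lit 2) (@Lb.g g8 (@Lb.g g9 (@Lb.g g10 (@Lb.r r427 (@Lb.r r150 (@Lb.r r169 (@Lb.d (nat_lit 26) (nat_lit 4) (nat_lit 2) (@Lb.t (@Lb.fm (nat_lit 9) t1301)))))))))))
noncomputable def l4094 : Lb := (@Lb.d (nat_lit 0) (nat_lit 8) (nat_lit 2) (@Lb.g g10 (@Lb.r r1427 (@Lb.d (nat_lit 0) (nat_lit 128) (nat_lit 2) (@Lb.t (@Lb.fp (nat_lit 3) t334))))))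
noncomputable def l4095 : Lb := (@Lb.r r275 (@Lb.d (nat_lit 0) (nat_lit 392) (nat_lit 2) (@Lb.g g5 (@Lb.g g10 (@Lb.r r1411 (@Lb.d (nat_lit 0) (nat_lit 5) (nat_lit 0) (@Lb.fp (nat_lit 3) t917)))))))
noncomputable def l4096 : Lb := (@Lb.d (nat_lit 130) (nat_lit 290) (nat_lit 2) (@Lb.g g8 (@Lb.g g9 (@Lb.g g10 (@Lb.r r1450 (@Lb.r r583 (@Lb.r r408 (@Lb.r r2085 (@Lb.d (nat_lit 69) (nat_lit 150) (nat_lit 602) (@Lb.t (@Lb.fm (nat_lit 9) t178)))))))))))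
noncomputable def l4097 : Lb := (@Lb.d (nat_lit 0) (nat_lit 266) (nat_lit 128) (@Lb.g g8 (@Lb.g g9 (@Lb.g g10 (@Lb.g g11 (@Lb.r r618 (@Lb.r r584 (@Lb.r r299 (@Lb.r r289 (@Lb.d (nat_lit 129) (nat_lit 144) (nat_lit 64) (@Lb.fp (nat_lit 9) t1302)))))))))))
noncomputable def l4098 : Lb := (@Lb.r r89 (@Lb.d (nat_lit 512) (nat_lit 0) (nat_lit 16) (@Lb.fp (nat_lit 1) t1303)))
noncomputable def l4099 : Lb := (@Lb.d (nat_lit 4) (nat_lit 513) (nat_lit 0) (@Lb.g g5 (@Lb.d (nat_lit 554) (nat_lit 4) (nat_lit 16) (@Lb.t (@Lb.fm (nat_lit 3) t382)))))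
noncomputable def l4100 : Lb := (@Lb.d (nat_lit 2) (nat_lit 258) (nat_lit 137) (@Lb.g g8 (@Lb.g g9 (@Lb.g g10 (@Lb.g g11 (@Lb.r r1699 (@Lb.r r2705 (@Lb.r r612 (@Lb.r r666 (@Lb.r r1156 (@Lb.d (nat_lit 329) (nat_lit 33) (nat_lit 74) (@Lb.fp (nat_lit 9) t178))))))))))))
noncomputable def l4101 : Lb := (@Lb.r r82 (@Lb.d (nat_lit 34) (nat_lit 2) (nat_lit 580) (@Lb.g g8 (@Lb.g g9 (@Lb.g g7 (@Lb.r r1385 (@Lb.r r150 (@Lb.r r100 (@Lb.d (nat_lit 586) (nat_lit 10) (nat_lit 281) (@Lb.t (@Lb.fp (nat_lit 9) t1304)))))))))))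
noncomputable def l4102 : Lb := (@Lb.d (nat_lit 0) (nat_lit 257) (nat_lit 130) (@Lb.g g9 (@Lb.g g10 (@Lb.g g11 (@Lb.r r1451 (@Lb.r r136 (@Lb.r r602 (@Lb.r r1429 (@Lb.r r2084 (@Lb.d (nat_lit 417) (nat_lit 73) (nat_lit 169) (@Lb.t (@Lb.fp (nat_lit 9) t64))))))))))))
noncomputable def l4103 : Lb := (@Lb.d (nat_lit 514) (nat_lit 145) (nat_lit 405) (@Lb.r r2129 (@Lb.r r354 (@Lb.r r81 (@Lb.r r1671 (@Lb.g g7 (@Lb.g g6 (@Lb.g g5 (@Lb.g g8 (@Lb.d (nat_lit 1) (nat_lit 1) (nat_lit 65) (@Lb.fp (nat_lit 9) t229)))))))))))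
noncomputable def l4104 : Lb := (@Lb.d (nat_lit 262) (nat_lit 89) (nat_lit 265) (@Lb.r r2323 (@Lb.r r2657 (@Lb.r r1366 (@Lb.g g7 (@Lb.g g6 (@Lb.g g5 (@Lb.g g4 (@Lb.d (nat_lit 1) (nat_lit 18) (nat_lit 65) (@Lb.fm (nat_lit 9) t1205))))))))))
noncomputable def l4105 : Lb := (@Lb.r r21 (@Lb.d (nat_lit 160) (nat_lit 0) (nat_lit 149) (@Lb.g g8 (@Lb.g g6 (@Lb.g g11 (@Lb.r r2659 (@Lb.r r97 (@Lb.r r360 (@Lb.d (nat_lit 166) (nat_lit 84) (nat_lit 72) (@Lb.t (@Lb.fm (nat_lit 9) t1305)))))))))))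
noncomputable def l4106 : Lb := (@Lb.d (nat_lit 2) (nat_lit 2) (nat_lit 130) (@Lb.g g8 (@Lb.g g9 (@Lb.g g10 (@Lb.g g11 (@Lb.r r610 (@Lb.r r2667 (@Lb.r r97 (@Lb.r r2564 (@Lb.d (nat_lit 392) (nat_lit 130) (nat_lit 386) (@Lb.fp (nat_lit 9) t826)))))))))))
noncomputable def l4107 : Lb := (@Lb.d (nat_lit 0) (nat_lit 258) (nat_lit 130) (@Lb.g g9 (@Lb.g g10 (@Lb.g g11 (@Lb.r r1443 (@Lb.r r401 (@Lb.r r82 (@Lb.r r1169 (@Lb.r r8 (@Lb.d (nat_lit 330) (nat_lit 9) (nat_lit 169) (@Lb.t (@Lb.fp (nat_lit 9) t32))))))))))))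
noncomputable def l4108 : Lb := (@Lb.d (nat_lit 2) (nat_lit 545) (nat_lit 132) (@Lb.g g8 (@Lb.g g9 (@Lb.g g10 (@Lb.g g11 (@Lb.r r1706 (@Lb.r r676 (@Lb.r r551 (@Lb.r r533 (@Lb.r r1060 (@Lb.d (nat_lit 393) (nat_lit 1) (nat_lit 586) (@Lb.fp (nat_lit 9) t74))))))))))))
noncomputable def l4109 : Lb := (@Lb.d (nat_lit 32) (nat_lit 512) (nat_lit 2) (@Lb.g g10 (@Lb.g g7 (@Lb.r r596 (@Lb.r r74 (@Lb.r r289 (@Lb.d (nat_lit 106) (nat_lit 161) (nat_lit 258) (@Lb.fm (nat_lit 3) t668))))))))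
noncomputable def l4110 : Lb := (@Lb.d (nat_lit 0) (nat_lit 522) (nat_lit 2) (@Lb.g g9 (@Lb.t (@Lb.fp (nat_lit 3) t97))))
noncomputable def l4111 : Lb := (@Lb.d (nat_lit 1) (nat_lit 2) (nat_lit 128) (@Lb.g g8 (@Lb.g g9 (@Lb.g g11 (@Lb.r r344 (@Lb.r r423 (@Lb.r r2178 (@Lb.r r1301 (@Lb.r r2596 (@Lb.d (nat_lit 274) (nat_lit 136) (nat_lit 134) (@Lb.t (@Lb.fm (nat_lit 9) t287))))))))))))
noncomputable def l4112 : Lb := (@Lb.d (nat_lit 2) (nat_lit 514) (nat_lit 130) (@Lb.g g8 (@Lb.g g9 (@Lb.g g10 (@Lb.g g11 (@Lb.r r427 (@Lb.r r145 (@Lb.r r356 (@Lb.r r154 (@Lb.r r132 (@Lb.d (nat_lit 9) (nat_lit 2) (nat_lit 2) (@Lb.fm (nat_lit 9) t61))))))))))))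
noncomputable def l4113 : Lb := (@Lb.r r263 (@Lb.d (nat_lit 162) (nat_lit 2) (nat_lit 1) (@Lb.g g8 (@Lb.g g9 (@Lb.g g10 (@Lb.r r2410 (@Lb.r r2455 (@Lb.r r97 (@Lb.r r2708 (@Lb.d (nat_lit 678) (nat_lit 160) (nat_lit 105) (@Lb.t (@Lb.fp (nat_lit 9) t344))))))))))))
noncomputable def l4114 : Lb := (@Lb.d (nat_lit 2) (nat_lit 258) (nat_lit 130) (@Lb.g g8 (@Lb.g g9 (@Lb.g g10 (@Lb.g g11 (@Lb.r r427 (@Lb.r r424 (@Lb.r r106 (@Lb.r r25 (@Lb.d (nat_lit 361) (nat_lit 9) (nat_lit 513) (@Lb.fm (nat_lit 9) t1306)))))))))))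
noncomputable def l4115 : Lb := (@Lb.d (nat_lit 290) (nat_lit 0) (nat_lit 69) (@Lb.r r24 (@Lb.r r101 (@Lb.r r402 (@Lb.r r1379 (@Lb.g g7 (@Lb.g g6 (@Lb.fp (nat_lit 3) t793))))))))
noncomputable def l4116 : Lb := (@Lb.d (nat_lit 402) (nat_lit 88) (nat_lit 338) (@Lb.r r1382 (@Lb.r r2389 (@Lb.r r40 (@Lb.r r1699 (@Lb.g g7 (@Lb.g g6 (@Lb.g g5 (@Lb.d (nat_lit 16) (nat_lit 9) (nat_lit 133) (@Lb.t (@Lb.fp (nat_lit 9) t1307)))))))))))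
noncomputable def l4117 : Lb := (@Lb.r r263 (@Lb.d (nat_lit 0) (nat_lit 258) (nat_lit 2) (@Lb.g g8 (@Lb.g g9 (@Lb.g g10 (@Lb.r r676 (@Lb.r r1607 (@Lb.r r386 (@Lb.r r97 (@Lb.d (nat_lit 0) (nat_lit 168) (nat_lit 617) (@Lb.t (@Lb.fp (nat_lit 9) t19))))))))))))
noncomputable def l4118 : Lb := (@Lb.d (nat_lit 1) (nat_lit 514) (nat_lit 128) (@Lb.g g8 (@Lb.g g9 (@Lb.g g11 (@Lb.r r344 (@Lb.r r423 (@Lb.r r2178 (@Lb.r r1301 (@Lb.r r2596 (@Lb.d (nat_lit 274) (nat_lit 136) (nat_lit 6) (@Lb.t (@Lb.fm (nat_lit 9) t287))))))))))))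
noncomputable def l4119 : Lb := (@Lb.d (nat_lit 1) (nat_lit 2) (nat_lit 128) (@Lb.g g8 (@Lb.g g9 (@Lb.g g11 (@Lb.r r328 (@Lb.r r1447 (@Lb.r r2178 (@Lb.r r2325 (@Lb.r r1572 (@Lb.d (nat_lit 641) (nat_lit 136) (nat_lit 406) (@Lb.t (@Lb.fm (nat_lit 9) t271))))))))))))
noncomputable def l4120 : Lb := (@Lb.d (nat_lit 6) (nat_lit 512) (nat_lit 0) (@Lb.g g4 (@Lb.d (nat_lit 10) (nat_lit 0) (nat_lit 0) (@Lb.t (@Lb.fm (nat_lit 3) t2)))))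
noncomputable def l4121 : Lb := (@Lb.r r323 (@Lb.d (nat_lit 0) (nat_lit 514) (nat_lit 2) (@Lb.g g8 (@Lb.g g9 (@Lb.g g10 (@Lb.r r401 (@Lb.r r299 (@Lb.r r392 (@Lb.r r74 (@Lb.d (nat_lit 33) (nat_lit 10) (nat_lit 138) (@Lb.t (@Lb.fp (nat_lit 9) t61))))))))))))
noncomputable def l4122 : Lb := (@Lb.r r82 (@Lb.d (nat_lit 8) (nat_lit 258) (nat_lit 128) (@Lb.g g9 (@Lb.g g11 (@Lb.r r2663 (@Lb.r r386 (@Lb.r r1112 (@Lb.r r2133 (@Lb.d (nat_lit 581) (nat_lit 129) (nat_lit 576) (@Lb.fp (nat_lit 3) t98))))))))))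
noncomputable def l4123 : Lb := (@Lb.r r82 (@Lb.d (nat_lit 0) (nat_lit 289) (nat_lit 64) (@Lb.g g9 (@Lb.g g11 (@Lb.r r275 (@Lb.r r354 (@Lb.r r273 (@Lb.r r36 (@Lb.d (nat_lit 10) (nat_lit 33) (nat_lit 0) (@Lb.fm (nat_lit 3) t68))))))))))
noncomputable def l4124 : Lb := (@Lb.r r82 (@Lb.d (nat_lit 8) (nat_lit 33) (nat_lit 64) (@Lb.g g9 (@Lb.g g11 (@Lb.r r2663 (@Lb.r r386 (@Lb.r r1688 (@Lb.r r2325 (@Lb.d (nat_lit 533) (nat_lit 153) (nat_lit 278) (@Lb.fp (nat_lit 3) t50))))))))))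
noncomputable def l4125 : Lb := (@Lb.r r323 (@Lb.d (nat_lit 0) (nat_lit 2) (nat_lit 2) (@Lb.g g8 (@Lb.g g9 (@Lb.g g10 (@Lb.r r401 (@Lb.r r299 (@Lb.r r392 (@Lb.r r74 (@Lb.d (nat_lit 38) (nat_lit 1) (nat_lit 136) (@Lb.t (@Lb.fp (nat_lit 9) t61))))))))))))
noncomputable def l4126 : Lb := (@Lb.r r82 (@Lb.d (nat_lit 8) (nat_lit 258) (nat_lit 128) (@Lb.g g9 (@Lb.g g11 (@Lb.r r2663 (@Lb.r r386 (@Lb.r r1112 (@Lb.r r2133 (@Lb.d (nat_lit 582) (nat_lit 129) (nat_lit 512) (@Lb.fp (nat_lit 3) t50))))))))))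
noncomputable def l4127 : Lb := (@Lb.r r82 (@Lb.d (nat_lit 0) (nat_lit 545) (nat_lit 64) (@Lb.g g9 (@Lb.g g11 (@Lb.r r275 (@Lb.r r354 (@Lb.r r273 (@Lb.r r36 (@Lb.d (nat_lit 4) (nat_lit 161) (nat_lit 69) (@Lb.fm (nat_lit 3) t728))))))))))
noncomputable def l4128 : Lb := (@Lb.r r36 (@Lb.d (nat_lit 9) (nat_lit 512) (nat_lit 0) (@Lb.fp (nat_lit 1) t2)))
noncomputable def l4129 : Lb := (@Lb.d (nat_lit 289) (nat_lit 392) (nat_lit 532) (@Lb.r r106 (@Lb.r r601 (@Lb.r r1371 (@Lb.r r328 (@Lb.g g7 (@Lb.g g6 (@Lb.g g5 (@Lb.d (nat_lit 16) (nat_lit 1) (nat_lit 64) (@Lb.t (@Lb.fm (nat_lit 9) t2)))))))))))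
noncomputable def l4130 : Lb := (@Lb.d (nat_lit 128) (nat_lit 288) (nat_lit 136) (@Lb.g g11 (@Lb.r r420 (@Lb.r r2469 (@Lb.r r1446 (@Lb.r r347 (@Lb.d (nat_lit 298) (nat_lit 22) (nat_lit 518) (@Lb.t (@Lb.fp (nat_lit 3) t322)))))))))
noncomputable def l4131 : Lb := (@Lb.r r323 (@Lb.d (nat_lit 33) (nat_lit 514) (nat_lit 2) (@Lb.g g8 (@Lb.g g9 (@Lb.g g10 (@Lb.r r1689 (@Lb.r r1563 (@Lb.r r2634 (@Lb.r r1540 (@Lb.d (nat_lit 257) (nat_lit 0) (nat_lit 401) (@Lb.t (@Lb.fp (nat_lit 9) t163))))))))))))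
noncomputable def l4132 : Lb := (@Lb.d (nat_lit 152) (nat_lit 258) (nat_lit 130) (@Lb.g g8 (@Lb.g g9 (@Lb.g g10 (@Lb.g g11 (@Lb.r r1707 (@Lb.r r362 (@Lb.r r537 (@Lb.r r1540 (@Lb.d (nat_lit 649) (nat_lit 153) (nat_lit 421) (@Lb.fm (nat_lit 9) t764)))))))))))
noncomputable def l4133 : Lb := (@Lb.r r323 (@Lb.d (nat_lit 33) (nat_lit 258) (nat_lit 2) (@Lb.g g8 (@Lb.g g9 (@Lb.g g10 (@Lb.r r1689 (@Lb.r r1563 (@Lb.r r2634 (@Lb.r r1540 (@Lb.d (nat_lit 258) (nat_lit 0) (nat_lit 401) (@Lb.t (@Lb.fp (nat_lit 9) t1039))))))))))))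
noncomputable def l4134 : Lb := (@Lb.r r24 (@Lb.r r101 (@Lb.r r402 (@Lb.d (nat_lit 10) (nat_lit 128) (nat_lit 66) (@Lb.fm (nat_lit 1) t1308)))))
noncomputable def l4135 : Lb := (@Lb.r r82 (@Lb.d (nat_lit 129) (nat_lit 528) (nat_lit 0) (@Lb.g g8 (@Lb.g g9 (@Lb.g g11 (@Lb.r r2714 (@Lb.r r427 (@Lb.r r164 (@Lb.r r2597 (@Lb.d (nat_lit 137) (nat_lit 105) (nat_lit 618) (@Lb.t (@Lb.fm (nat_lit 9) t1309))))))))))))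
noncomputable def l4136 : Lb := (@Lb.r r81 (@Lb.r r323 (@Lb.d (nat_lit 0) (nat_lit 512) (nat_lit 33) (@Lb.g g6 (@Lb.r r387 (@Lb.r r88 (@Lb.r r37 (@Lb.d (nat_lit 10) (nat_lit 80) (nat_lit 282) (@Lb.t (@Lb.fm (nat_lit 3) t1291))))))))))
noncomputable def l4137 : Lb := (@Lb.r r273 (@Lb.r r322 (@Lb.d (nat_lit 0) (nat_lit 0) (nat_lit 584) (@Lb.g g7 (@Lb.r r280 (@Lb.r r101 (@Lb.r r146 (@Lb.d (nat_lit 10) (nat_lit 144) (nat_lit 266) (@Lb.t (@Lb.fp (nat_lit 3) t1310))))))))))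
noncomputable def l4138 : Lb := (@Lb.r r90 (@Lb.d (nat_lit 40) (nat_lit 642) (nat_lit 128) (@Lb.g g8 (@Lb.g g9 (@Lb.g g11 (@Lb.r r1371 (@Lb.r r2646 (@Lb.r r420 (@Lb.d (nat_lit 106) (nat_lit 162) (nat_lit 153) (@Lb.t (@Lb.fm (nat_lit 9) t390)))))))))))
noncomputable def l4139 : Lb := (@Lb.d (nat_lit 4) (nat_lit 514) (nat_lit 2) (@Lb.r r101 (@Lb.g g10 (@Lb.d (nat_lit 0) (nat_lit 8) (nat_lit 2) (@Lb.t (@Lb.fm (nat_lit 3) t374))))))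
noncomputable def l4140 : Lb := (@Lb.d (nat_lit 130) (nat_lit 576) (nat_lit 640) (@Lb.r r101 (@Lb.r r402 (@Lb.g g11 (@Lb.g g8 (@Lb.d (nat_lit 2) (nat_lit 0) (nat_lit 0) (@Lb.fm (nat_lit 3) t1311)))))))
noncomputable def l4141 : Lb := (@Lb.d (nat_lit 133) (nat_lit 582) (nat_lit 518) (@Lb.r r24 (@Lb.r r82 (@Lb.r r417 (@Lb.r r343 (@Lb.g g7 (@Lb.g g6 (@Lb.g g5 (@Lb.d (nat_lit 0) (nat_lit 8) (nat_lit 64) (@Lb.t (@Lb.fp (nat_lit 9) t1312)))))))))))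
noncomputable def l4142 : Lb := (@Lb.d (nat_lit 26) (nat_lit 362) (nat_lit 516) (@Lb.r r277 (@Lb.r r363 (@Lb.r r328 (@Lb.r r134 (@Lb.g g4 (@Lb.d (nat_lit 1) (nat_lit 0) (nat_lit 0) (@Lb.t (@Lb.fm (nat_lit 3) t1313)))))))))
noncomputable def l4143 : Lb := (@Lb.d (nat_lit 133) (nat_lit 326) (nat_lit 518) (@Lb.r r24 (@Lb.r r82 (@Lb.r r417 (@Lb.r r343 (@Lb.g g7 (@Lb.g g6 (@Lb.g g5 (@Lb.d (nat_lit 0) (nat_lit 1) (nat_lit 65) (@Lb.t (@Lb.fp (nat_lit 9) t1312)))))))))))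
noncomputable def l4144 : Lb := (@Lb.d (nat_lit 0) (nat_lit 256) (nat_lit 133) (@Lb.g g6 (@Lb.g g11 (@Lb.r r2659 (@Lb.r r101 (@Lb.r r24 (@Lb.d (nat_lit 393) (nat_lit 128) (nat_lit 405) (@Lb.fm (nat_lit 3) t518))))))))
noncomputable def l4145 : Lb := (@Lb.d (nat_lit 130) (nat_lit 320) (nat_lit 640) (@Lb.r r101 (@Lb.r r402 (@Lb.g g11 (@Lb.g g8 (@Lb.fm (nat_lit 3) t1314))))))
noncomputable def l4146 : Lb := (@Lb.g g6 (@Lb.r r1185 (@Lb.r r2210 (@Lb.d (nat_lit 0) (nat_lit 517) (nat_lit 1) (@Lb.t (@Lb.fm (nat_lit 3) t1315))))))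
noncomputable def l4147 : Lb := (@Lb.d (nat_lit 0) (nat_lit 610) (nat_lit 128) (@Lb.r r82 (@Lb.r r275 (@Lb.g g9 (@Lb.d (nat_lit 0) (nat_lit 146) (nat_lit 0) (@Lb.r r291 (@Lb.r r98 (@Lb.t (@Lb.fp (nat_lit 3) t1)))))))))
noncomputable def l4148 : Lb := (@Lb.d (nat_lit 153) (nat_lit 8) (nat_lit 66) (@Lb.g g8 (@Lb.g g9 (@Lb.g g10 (@Lb.g g11 (@Lb.r r1706 (@Lb.r r676 (@Lb.r r1575 (@Lb.r r533 (@Lb.r r2084 (@Lb.d (nat_lit 137) (nat_lit 65) (nat_lit 26) (@Lb.fp (nat_lit 9) t1316))))))))))))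
noncomputable def l4149 : Lb := (@Lb.r r323 (@Lb.d (nat_lit 2) (nat_lit 521) (nat_lit 1) (@Lb.g g8 (@Lb.g g9 (@Lb.g g10 (@Lb.r r1194 (@Lb.r r2692 (@Lb.r r2567 (@Lb.r r25 (@Lb.d (nat_lit 420) (nat_lit 145) (nat_lit 354) (@Lb.t (@Lb.fm (nat_lit 9) t1317))))))))))))
noncomputable def l4150 : Lb := (@Lb.d (nat_lit 520) (nat_lit 97) (nat_lit 128) (@Lb.r r21 (@Lb.r r2659 (@Lb.r r406 (@Lb.g g5 (@Lb.g g4 (@Lb.d (nat_lit 1) (nat_lit 1) (nat_lit 0) (@Lb.fm (nat_lit 3) t1318))))))))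
noncomputable def l4151 : Lb := (@Lb.r r82 (@Lb.r r263 (@Lb.d (nat_lit 2) (nat_lit 2) (nat_lit 0) (@Lb.g g8 (@Lb.g g9 (@Lb.r r1643 (@Lb.r r386 (@Lb.r r2145 (@Lb.r r1176 (@Lb.d (nat_lit 26) (nat_lit 133) (nat_lit 32) (@Lb.fm (nat_lit 3) t1319)))))))))))
noncomputable def l4152 : Lb := (@Lb.d (nat_lit 101) (nat_lit 42) (nat_lit 294) (@Lb.r r24 (@Lb.r r97 (@Lb.r r2438 (@Lb.g g11 (@Lb.g g6 (@Lb.g g5 (@Lb.d (nat_lit 0) (nat_lit 6) (nat_lit 129) (@Lb.t (@Lb.fp (nat_lit 9) t1320))))))))))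
noncomputable def l4153 : Lb := (@Lb.d (nat_lit 10) (nat_lit 578) (nat_lit 0) (@Lb.r r101 (@Lb.r r402 (@Lb.r r323 (@Lb.g g7 (@Lb.g g6 (@Lb.d (nat_lit 0) (nat_lit 0) (nat_lit 64) (@Lb.fm (nat_lit 3) t50))))))))
noncomputable def l4154 : Lb := (@Lb.r r1114 (@Lb.d (nat_lit 256) (nat_lit 640) (nat_lit 0) (@Lb.fp (nat_lit 1) t1321)))
noncomputable def l4155 : Lb := (@Lb.d (nat_lit 8) (nat_lit 257) (nat_lit 0) (@Lb.r r101 (@Lb.r r402 (@Lb.r r323 (@Lb.g g7 (@Lb.g g6 (@Lb.d (nat_lit 0) (nat_lit 0) (nat_lit 64) (@Lb.fm (nat_lit 3) t50))))))))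
noncomputable def l4156 : Lb := (@Lb.r r1114 (@Lb.d (nat_lit 261) (nat_lit 385) (nat_lit 0) (@Lb.fp (nat_lit 1) t1321)))
noncomputable def l4157 : Lb := (@Lb.d (nat_lit 0) (nat_lit 264) (nat_lit 2) (@Lb.g g10 (@Lb.r r2148 (@Lb.r r101 (@Lb.r r2138 (@Lb.d (nat_lit 10) (nat_lit 66) (nat_lit 18) (@Lb.t (@Lb.fm (nat_lit 3) t1322))))))))
noncomputable def l4158 : Lb := (@Lb.d (nat_lit 2) (nat_lit 9) (nat_lit 73) (@Lb.g g8 (@Lb.g g9 (@Lb.g g10 (@Lb.g g11 (@Lb.r r1706 (@Lb.r r648 (@Lb.r r2587 (@Lb.r r1313 (@Lb.r r36 (@Lb.d (nat_lit 128) (nat_lit 169) (nat_lit 322) (@Lb.fp (nat_lit 9) t98))))))))))))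
noncomputable def l4159 : Lb := (@Lb.r r355 (@Lb.d (nat_lit 2) (nat_lit 586) (nat_lit 34) (@Lb.g g8 (@Lb.g g5 (@Lb.g g10 (@Lb.r r1555 (@Lb.r r24 (@Lb.d (nat_lit 10) (nat_lit 128) (nat_lit 84) (@Lb.t (@Lb.fp (nat_lit 9) t1323))))))))))
noncomputable def l4160 : Lb := (@Lb.d (nat_lit 0) (nat_lit 650) (nat_lit 2) (@Lb.r r101 (@Lb.r r24 (@Lb.r r1291 (@Lb.g g6 (@Lb.t (@Lb.fm (nat_lit 3) t538)))))))
noncomputable def l4161 : Lb := (@Lb.d (nat_lit 0) (nat_lit 586) (nat_lit 16) (@Lb.r r101 (@Lb.r r24 (@Lb.r r323 (@Lb.g g7 (@Lb.g g6 (@Lb.d (nat_lit 0) (nat_lit 0) (nat_lit 64) (@Lb.fm (nat_lit 3) t318))))))))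
noncomputable def l4162 : Lb := (@Lb.d (nat_lit 1) (nat_lit 521) (nat_lit 73) (@Lb.g g8 (@Lb.g g9 (@Lb.g g10 (@Lb.g g11 (@Lb.r r1706 (@Lb.r r648 (@Lb.r r2587 (@Lb.r r1313 (@Lb.r r36 (@Lb.d (nat_lit 128) (nat_lit 164) (nat_lit 321) (@Lb.fp (nat_lit 9) t98))))))))))))
noncomputable def l4163 : Lb := (@Lb.d (nat_lit 134) (nat_lit 0) (nat_lit 130) (@Lb.g g8 (@Lb.g g9 (@Lb.g g10 (@Lb.g g11 (@Lb.r r1706 (@Lb.r r1411 (@Lb.r r1177 (@Lb.r r1176 (@Lb.d (nat_lit 538) (nat_lit 85) (nat_lit 665) (@Lb.fp (nat_lit 9) t1047)))))))))))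
noncomputable def l4164 : Lb := (@Lb.d (nat_lit 133) (nat_lit 512) (nat_lit 73) (@Lb.g g8 (@Lb.g g9 (@Lb.g g10 (@Lb.g g11 (@Lb.r r683 (@Lb.r r2410 (@Lb.r r537 (@Lb.r r536 (@Lb.d (nat_lit 74) (nat_lit 9) (nat_lit 21) (@Lb.fp (nat_lit 9) t1047)))))))))))
noncomputable def l4165 : Lb := (@Lb.d (nat_lit 2) (nat_lit 258) (nat_lit 136) (@Lb.g g8 (@Lb.g g9 (@Lb.g g11 (@Lb.r r1186 (@Lb.r r1576 (@Lb.r r1689 (@Lb.r r1563 (@Lb.d (nat_lit 10) (nat_lit 10) (nat_lit 516) (@Lb.t (@Lb.fp (nat_lit 9) t1324)))))))))))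
noncomputable def l4166 : Lb := (@Lb.d (nat_lit 129) (nat_lit 258) (nat_lit 73) (@Lb.g g8 (@Lb.g g9 (@Lb.g g10 (@Lb.g g11 (@Lb.r r683 (@Lb.r r2410 (@Lb.r r537 (@Lb.r r536 (@Lb.d (nat_lit 68) (nat_lit 8) (nat_lit 21) (@Lb.fp (nat_lit 9) t1325)))))))))))
noncomputable def l4167 : Lb := (@Lb.g g9 (@Lb.r r2331 (@Lb.r r2138 (@Lb.r r149 (@Lb.d (nat_lit 256) (nat_lit 1) (nat_lit 2) (@Lb.t (@Lb.fp (nat_lit 3) t433)))))))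
noncomputable def l4168 : Lb := (@Lb.d (nat_lit 34) (nat_lit 514) (nat_lit 129) (@Lb.g g8 (@Lb.g g9 (@Lb.g g6 (@Lb.g g11 (@Lb.r r1643 (@Lb.r r1640 (@Lb.r r25 (@Lb.d (nat_lit 521) (nat_lit 153) (nat_lit 648) (@Lb.fm (nat_lit 9) t1326))))))))))
noncomputable def l4169 : Lb := (@Lb.d (nat_lit 26) (nat_lit 518) (nat_lit 1) (@Lb.g g8 (@Lb.g g9 (@Lb.g g10 (@Lb.g g11 (@Lb.r r169 (@Lb.r r296 (@Lb.r r647 (@Lb.r r1666 (@Lb.r r1156 (@Lb.d (nat_lit 0) (nat_lit 74) (nat_lit 677) (@Lb.fp (nat_lit 9) t204))))))))))))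
noncomputable def l4170 : Lb := (@Lb.d (nat_lit 8) (nat_lit 546) (nat_lit 0) (@Lb.g g9 (@Lb.r r1626 (@Lb.r r603 (@Lb.r r600 (@Lb.r r1429 (@Lb.d (nat_lit 358) (nat_lit 80) (nat_lit 10) (@Lb.t (@Lb.fp (nat_lit 3) t1255)))))))))
noncomputable def l4171 : Lb := (@Lb.d (nat_lit 8) (nat_lit 34) (nat_lit 1) (@Lb.g g9 (@Lb.g g10 (@Lb.r r2470 (@Lb.r r603 (@Lb.r r600 (@Lb.r r1429 (@Lb.d (nat_lit 358) (nat_lit 85) (nat_lit 584) (@Lb.fp (nat_lit 3) t1327)))))))))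
noncomputable def l4172 : Lb := (@Lb.d (nat_lit 10) (nat_lit 514) (nat_lit 0) (@Lb.g g9 (@Lb.t (@Lb.fp (nat_lit 3) t2))))
noncomputable def l4173 : Lb := (@Lb.d (nat_lit 9) (nat_lit 257) (nat_lit 130) (@Lb.g g8 (@Lb.g g9 (@Lb.g g10 (@Lb.g g11 (@Lb.r r148 (@Lb.r r102 (@Lb.r r357 (@Lb.r r667 (@Lb.r r644 (@Lb.d (nat_lit 9) (nat_lit 9) (nat_lit 9) (@Lb.fp (nat_lit 9) t21))))))))))))
noncomputable def l4174 : Lb := (@Lb.d (nat_lit 9) (nat_lit 257) (nat_lit 2) (@Lb.g g8 (@Lb.g g9 (@Lb.g g10 (@Lb.g g11 (@Lb.r r148 (@Lb.r r102 (@Lb.r r357 (@Lb.r r667 (@Lb.r r644 (@Lb.d (nat_lit 2) (nat_lit 0) (nat_lit 10) (@Lb.fp (nat_lit 9) t2))))))))))))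
noncomputable def l4175 : Lb := (@Lb.d (nat_lit 296) (nat_lit 648) (nat_lit 17) (@Lb.r r289 (@Lb.r r1626 (@Lb.r r1384 (@Lb.r r2711 (@Lb.g g7 (@Lb.g g6 (@Lb.d (nat_lit 16) (nat_lit 0) (nat_lit 133) (@Lb.fp (nat_lit 3) t41)))))))))
noncomputable def l4176 : Lb := (@Lb.d (nat_lit 261) (nat_lit 0) (nat_lit 0) (@Lb.r r289 (@Lb.r r2331 (@Lb.r r2436 (@Lb.r r2630 (@Lb.g g7 (@Lb.g g6 (@Lb.d (nat_lit 0) (nat_lit 0) (nat_lit 5) (@Lb.fp (nat_lit 3) t1328)))))))))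
noncomputable def l4177 : Lb := (@Lb.d (nat_lit 2) (nat_lit 8) (nat_lit 130) (@Lb.g g8 (@Lb.g g10 (@Lb.g g11 (@Lb.r r2443 (@Lb.r r2345 (@Lb.r r2468 (@Lb.r r2438 (@Lb.d (nat_lit 617) (nat_lit 73) (nat_lit 536) (@Lb.t (@Lb.fm (nat_lit 9) t349)))))))))))
noncomputable def l4178 : Lb := (@Lb.r r323 (@Lb.d (nat_lit 0) (nat_lit 4) (nat_lit 42) (@Lb.g g8 (@Lb.g g9 (@Lb.g g6 (@Lb.r r387 (@Lb.r r1313 (@Lb.d (nat_lit 0) (nat_lit 98) (nat_lit 16) (@Lb.t (@Lb.fm (nat_lit 9) t388))))))))))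
noncomputable def l4179 : Lb := (@Lb.d (nat_lit 320) (nat_lit 73) (nat_lit 593) (@Lb.r r2661 (@Lb.r r615 (@Lb.r r2374 (@Lb.r r132 (@Lb.g g7 (@Lb.g g6 (@Lb.g g5 (@Lb.d (nat_lit 20) (nat_lit 6) (nat_lit 66) (@Lb.t (@Lb.fp (nat_lit 9) t1329)))))))))))
noncomputable def l4180 : Lb := (@Lb.d (nat_lit 322) (nat_lit 73) (nat_lit 593) (@Lb.r r2661 (@Lb.r r615 (@Lb.r r2374 (@Lb.r r132 (@Lb.g g7 (@Lb.g g6 (@Lb.g g5 (@Lb.d (nat_lit 20) (nat_lit 1) (nat_lit 8) (@Lb.t (@Lb.fp (nat_lit 9) t1330)))))))))))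
noncomputable def l4181 : Lb := (@Lb.r r82 (@Lb.d (nat_lit 8) (nat_lit 2) (nat_lit 128) (@Lb.g g9 (@Lb.g g11 (@Lb.r r586 (@Lb.r r611 (@Lb.r r280 (@Lb.r r613 (@Lb.d (nat_lit 148) (nat_lit 8) (nat_lit 74) (@Lb.fp (nat_lit 3) t261))))))))))
noncomputable def l4182 : Lb := (@Lb.r r323 (@Lb.d (nat_lit 133) (nat_lit 2) (nat_lit 2) (@Lb.g g8 (@Lb.g g9 (@Lb.g g10 (@Lb.r r362 (@Lb.r r361 (@Lb.r r1367 (@Lb.r r2696 (@Lb.d (nat_lit 345) (nat_lit 128) (nat_lit 662) (@Lb.t (@Lb.fm (nat_lit 9) t51))))))))))))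
noncomputable def l4183 : Lb := (@Lb.r r21 (@Lb.d (nat_lit 25) (nat_lit 288) (nat_lit 74) (@Lb.g g8 (@Lb.g g10 (@Lb.g g11 (@Lb.r r1706 (@Lb.r r101 (@Lb.r r404 (@Lb.r r2347 (@Lb.d (nat_lit 641) (nat_lit 38) (nat_lit 344) (@Lb.t (@Lb.fm (nat_lit 9) t1038))))))))))))
noncomputable def l4184 : Lb := (@Lb.r r21 (@Lb.d (nat_lit 146) (nat_lit 512) (nat_lit 10) (@Lb.g g8 (@Lb.g g10 (@Lb.g g11 (@Lb.r r1691 (@Lb.r r2401 (@Lb.r r1170 (@Lb.r r1176 (@Lb.d (nat_lit 9) (nat_lit 70) (nat_lit 34) (@Lb.t (@Lb.fm (nat_lit 9) t125))))))))))))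
noncomputable def l4185 : Lb := (@Lb.d (nat_lit 2) (nat_lit 2) (nat_lit 130) (@Lb.g g8 (@Lb.g g9 (@Lb.g g10 (@Lb.g g11 (@Lb.r r427 (@Lb.r r145 (@Lb.r r356 (@Lb.r r154 (@Lb.r r132 (@Lb.d (nat_lit 552) (nat_lit 2) (nat_lit 169) (@Lb.fm (nat_lit 9) t221))))))))))))
noncomputable def l4186 : Lb := (@Lb.r r323 (@Lb.d (nat_lit 2) (nat_lit 514) (nat_lit 2) (@Lb.g g8 (@Lb.g g9 (@Lb.g g10 (@Lb.r r401 (@Lb.r r299 (@Lb.r r392 (@Lb.r r74 (@Lb.d (nat_lit 533) (nat_lit 8) (nat_lit 170) (@Lb.t (@Lb.fp (nat_lit 9) t221))))))))))))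
noncomputable def l4187 : Lb := (@Lb.r r21 (@Lb.d (nat_lit 18) (nat_lit 0) (nat_lit 74) (@Lb.g g4 (@Lb.g g10 (@Lb.g g11 (@Lb.r r1687 (@Lb.r r2401 (@Lb.r r1170 (@Lb.d (nat_lit 532) (nat_lit 70) (nat_lit 33) (@Lb.t (@Lb.fm (nat_lit 9) t151)))))))))))
noncomputable def l4188 : Lb := (@Lb.d (nat_lit 8) (nat_lit 288) (nat_lit 90) (@Lb.g g8 (@Lb.g g10 (@Lb.g g11 (@Lb.r r353 (@Lb.r r535 (@Lb.r r2436 (@Lb.d (nat_lit 341) (nat_lit 72) (nat_lit 682) (@Lb.t (@Lb.fm (nat_lit 9) t386))))))))))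
noncomputable def l4189 : Lb := (@Lb.r r323 (@Lb.d (nat_lit 2) (nat_lit 2) (nat_lit 2) (@Lb.g g8 (@Lb.g g9 (@Lb.g g10 (@Lb.r r401 (@Lb.r r299 (@Lb.r r392 (@Lb.r r74 (@Lb.d (nat_lit 528) (nat_lit 10) (nat_lit 170) (@Lb.t (@Lb.fp (nat_lit 9) t221))))))))))))
noncomputable def l4190 : Lb := (@Lb.r r323 (@Lb.d (nat_lit 2) (nat_lit 545) (nat_lit 2) (@Lb.g g8 (@Lb.g g9 (@Lb.g g10 (@Lb.r r2647 (@Lb.r r74 (@Lb.r r1320 (@Lb.r r1433 (@Lb.d (nat_lit 661) (nat_lit 21) (nat_lit 681) (@Lb.t (@Lb.fm (nat_lit 9) t51))))))))))))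
noncomputable def l4191 : Lb := (@Lb.d (nat_lit 148) (nat_lit 645) (nat_lit 362) (@Lb.r r1610 (@Lb.r r2667 (@Lb.r r661 (@Lb.g g7 (@Lb.g g6 (@Lb.g g8 (@Lb.d (nat_lit 353) (nat_lit 4) (nat_lit 128) (@Lb.r r25 (@Lb.t (@Lb.fp (nat_lit 9) t320)))))))))))
noncomputable def l4192 : Lb := (@Lb.d (nat_lit 66) (nat_lit 96) (nat_lit 128) (@Lb.r r289 (@Lb.r r279 (@Lb.r r584 (@Lb.r r342 (@Lb.g g7 (@Lb.g g6 (@Lb.g g5 (@Lb.d (nat_lit 0) (nat_lit 5) (nat_lit 64) (@Lb.t (@Lb.fp (nat_lit 9) t215)))))))))))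
noncomputable def l4193 : Lb := (@Lb.d (nat_lit 2) (nat_lit 9) (nat_lit 129) (@Lb.g g8 (@Lb.g g9 (@Lb.g g10 (@Lb.g g11 (@Lb.r r2218 (@Lb.r r548 (@Lb.r r615 (@Lb.r r533 (@Lb.r r2084 (@Lb.d (nat_lit 640) (nat_lit 10) (nat_lit 345) (@Lb.fp (nat_lit 9) t217))))))))))))
noncomputable def l4194 : Lb := (@Lb.d (nat_lit 8) (nat_lit 264) (nat_lit 1) (@Lb.g g8 (@Lb.g g10 (@Lb.r r2331 (@Lb.r r2129 (@Lb.r r1638 (@Lb.r r2436 (@Lb.d (nat_lit 617) (nat_lit 129) (nat_lit 665) (@Lb.fm (nat_lit 3) t386)))))))))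
noncomputable def l4195 : Lb := (@Lb.d (nat_lit 4) (nat_lit 517) (nat_lit 128) (@Lb.g g8 (@Lb.g g9 (@Lb.g g10 (@Lb.g g11 (@Lb.r r1699 (@Lb.r r164 (@Lb.r r2709 (@Lb.r r2198 (@Lb.r r2084 (@Lb.d (nat_lit 289) (nat_lit 162) (nat_lit 418) (@Lb.fp (nat_lit 9) t1161))))))))))))
noncomputable def l4196 : Lb := (@Lb.r r21 (@Lb.d (nat_lit 2) (nat_lit 256) (nat_lit 2) (@Lb.g g8 (@Lb.g g10 (@Lb.r r651 (@Lb.r r2634 (@Lb.r r2596 (@Lb.r r37 (@Lb.d (nat_lit 5) (nat_lit 102) (nat_lit 416) (@Lb.fm (nat_lit 3) t820))))))))))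
noncomputable def l4197 : Lb := (@Lb.r r323 (@Lb.d (nat_lit 32) (nat_lit 256) (nat_lit 2) (@Lb.g g9 (@Lb.g g10 (@Lb.r r584 (@Lb.r r299 (@Lb.r r289 (@Lb.d (nat_lit 10) (nat_lit 1) (nat_lit 137) (@Lb.fm (nat_lit 3) t51)))))))))
noncomputable def l4198 : Lb := (@Lb.r r323 (@Lb.d (nat_lit 32) (nat_lit 512) (nat_lit 2) (@Lb.g g9 (@Lb.g g10 (@Lb.r r584 (@Lb.r r299 (@Lb.r r289 (@Lb.d (nat_lit 1) (nat_lit 2) (nat_lit 137) (@Lb.fm (nat_lit 3) t51)))))))))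
noncomputable def l4199 : Lb := (@Lb.d (nat_lit 4) (nat_lit 261) (nat_lit 128) (@Lb.g g8 (@Lb.g g9 (@Lb.g g10 (@Lb.g g11 (@Lb.r r1699 (@Lb.r r164 (@Lb.r r2709 (@Lb.r r2198 (@Lb.r r2084 (@Lb.d (nat_lit 290) (nat_lit 162) (nat_lit 418) (@Lb.fp (nat_lit 9) t1161))))))))))))
noncomputable def l4200 : Lb := (@Lb.r r21 (@Lb.d (nat_lit 280) (nat_lit 0) (nat_lit 0) (@Lb.g g8 (@Lb.g g10 (@Lb.r r2715 (@Lb.r r1626 (@Lb.r r37 (@Lb.d (nat_lit 4) (nat_lit 89) (nat_lit 9) (@Lb.fm (nat_lit 3) t979)))))))))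
noncomputable def l4201 : Lb := (@Lb.r r323 (@Lb.d (nat_lit 132) (nat_lit 512) (nat_lit 2) (@Lb.g g8 (@Lb.g g9 (@Lb.g g10 (@Lb.r r599 (@Lb.r r98 (@Lb.r r97 (@Lb.r r408 (@Lb.d (nat_lit 149) (nat_lit 21) (nat_lit 137) (@Lb.t (@Lb.fp (nat_lit 9) t51))))))))))))
noncomputable def l4202 : Lb := (@Lb.r r24 (@Lb.d (nat_lit 10) (nat_lit 256) (nat_lit 0) (@Lb.fm (nat_lit 1) t2)))
noncomputable def l4203 : Lb := (@Lb.d (nat_lit 4) (nat_lit 256) (nat_lit 130) (@Lb.g g8 (@Lb.g g9 (@Lb.g g10 (@Lb.g g11 (@Lb.r r427 (@Lb.r r145 (@Lb.r r356 (@Lb.r r154 (@Lb.r r132 (@Lb.d (nat_lit 9) (nat_lit 2) (nat_lit 2) (@Lb.fm (nat_lit 9) t61))))))))))))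
noncomputable def l4204 : Lb := (@Lb.d (nat_lit 2) (nat_lit 544) (nat_lit 128) (@Lb.g g8 (@Lb.g g11 (@Lb.r r2712 (@Lb.r r293 (@Lb.r r2587 (@Lb.r r2178 (@Lb.d (nat_lit 106) (nat_lit 41) (nat_lit 401) (@Lb.fm (nat_lit 3) t772)))))))))
noncomputable def l4205 : Lb := (@Lb.r r21 (@Lb.r r70 (@Lb.r r263 (@Lb.d (nat_lit 289) (nat_lit 512) (nat_lit 0) (@Lb.g g8 (@Lb.r r267 (@Lb.r r74 (@Lb.r r25 (@Lb.d (nat_lit 529) (nat_lit 10) (nat_lit 2) (@Lb.t (@Lb.fp (nat_lit 3) t1331)))))))))))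
noncomputable def l4206 : Lb := (@Lb.d (nat_lit 2) (nat_lit 0) (nat_lit 0) (@Lb.g g8 (@Lb.g g5 (@Lb.r r24 (@Lb.d (nat_lit 330) (nat_lit 0) (nat_lit 576) (@Lb.fm (nat_lit 3) t716))))))
noncomputable def l4207 : Lb := (@Lb.r r21 (@Lb.d (nat_lit 646) (nat_lit 0) (nat_lit 0) (@Lb.g g4 (@Lb.r r25 (@Lb.d (nat_lit 330) (nat_lit 0) (nat_lit 0) (@Lb.t (@Lb.fm (nat_lit 3) t1332)))))))
noncomputable def l4208 : Lb := (@Lb.r r21 (@Lb.d (nat_lit 646) (nat_lit 512) (nat_lit 66) (@Lb.g g4 (@Lb.g g10 (@Lb.g g11 (@Lb.r r519 (@Lb.r r386 (@Lb.r r25 (@Lb.d (nat_lit 393) (nat_lit 0) (nat_lit 73) (@Lb.t (@Lb.fp (nat_lit 9) t363)))))))))))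
noncomputable def l4209 : Lb := (@Lb.d (nat_lit 2) (nat_lit 265) (nat_lit 65) (@Lb.g g8 (@Lb.g g9 (@Lb.g g10 (@Lb.g g7 (@Lb.r r386 (@Lb.r r97 (@Lb.r r24 (@Lb.d (nat_lit 328) (nat_lit 9) (nat_lit 521) (@Lb.fp (nat_lit 9) t1333))))))))))
noncomputable def l4210 : Lb := (@Lb.d (nat_lit 166) (nat_lit 17) (nat_lit 70) (@Lb.r r596 (@Lb.r r535 (@Lb.r r353 (@Lb.g g7 (@Lb.g g6 (@Lb.g g4 (@Lb.d (nat_lit 5) (nat_lit 16) (nat_lit 133) (@Lb.r r145 (@Lb.t (@Lb.fp (nat_lit 9) t50)))))))))))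
noncomputable def l4211 : Lb := (@Lb.r r323 (@Lb.d (nat_lit 32) (nat_lit 258) (nat_lit 2) (@Lb.g g8 (@Lb.g g9 (@Lb.g g10 (@Lb.r r1689 (@Lb.r r279 (@Lb.r r1350 (@Lb.r r520 (@Lb.d (nat_lit 82) (nat_lit 0) (nat_lit 72) (@Lb.t (@Lb.fp (nat_lit 9) t1152))))))))))))
noncomputable def l4212 : Lb := (@Lb.r r82 (@Lb.d (nat_lit 34) (nat_lit 514) (nat_lit 136) (@Lb.g g8 (@Lb.g g9 (@Lb.g g11 (@Lb.r r2666 (@Lb.r r2725 (@Lb.r r340 (@Lb.r r411 (@Lb.d (nat_lit 521) (nat_lit 73) (nat_lit 658) (@Lb.t (@Lb.fp (nat_lit 9) t539))))))))))))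
noncomputable def l4213 : Lb := (@Lb.r r323 (@Lb.d (nat_lit 0) (nat_lit 260) (nat_lit 1) (@Lb.g g9 (@Lb.g g10 (@Lb.r r1307 (@Lb.r r2132 (@Lb.r r2122 (@Lb.r r145 (@Lb.d (nat_lit 516) (nat_lit 137) (nat_lit 1) (@Lb.fm (nat_lit 3) t1334))))))))))
noncomputable def l4214 : Lb := (@Lb.r r82 (@Lb.d (nat_lit 134) (nat_lit 0) (nat_lit 128) (@Lb.g g8 (@Lb.g g9 (@Lb.g g11 (@Lb.r r555 (@Lb.r r1604 (@Lb.r r2154 (@Lb.r r2145 (@Lb.d (nat_lit 292) (nat_lit 96) (nat_lit 545) (@Lb.t (@Lb.fm (nat_lit 9) t326))))))))))))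
noncomputable def l4215 : Lb := (@Lb.r r82 (@Lb.d (nat_lit 36) (nat_lit 0) (nat_lit 136) (@Lb.g g8 (@Lb.g g9 (@Lb.g g11 (@Lb.r r2666 (@Lb.r r2725 (@Lb.r r340 (@Lb.r r411 (@Lb.d (nat_lit 521) (nat_lit 66) (nat_lit 656) (@Lb.t (@Lb.fp (nat_lit 9) t539))))))))))))
noncomputable def l4216 : Lb := (@Lb.d (nat_lit 2) (nat_lit 514) (nat_lit 130) (@Lb.g g8 (@Lb.g g9 (@Lb.g g10 (@Lb.g g11 (@Lb.r r2459 (@Lb.r r297 (@Lb.r r1384 (@Lb.r r2630 (@Lb.d (nat_lit 665) (nat_lit 66) (nat_lit 290) (@Lb.fp (nat_lit 9) t91)))))))))))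
noncomputable def l4217 : Lb := (@Lb.r r21 (@Lb.r r70 (@Lb.r r263 (@Lb.d (nat_lit 289) (nat_lit 0) (nat_lit 0) (@Lb.g g4 (@Lb.r r267 (@Lb.r r74 (@Lb.r r25 (@Lb.d (nat_lit 529) (nat_lit 0) (nat_lit 0) (@Lb.t (@Lb.fm (nat_lit 3) t1335)))))))))))
noncomputable def l4218 : Lb := (@Lb.d (nat_lit 146) (nat_lit 514) (nat_lit 128) (@Lb.g g8 (@Lb.g g9 (@Lb.g g10 (@Lb.g g11 (@Lb.r r683 (@Lb.r r618 (@Lb.r r1561 (@Lb.r r1540 (@Lb.d (nat_lit 394) (nat_lit 73) (nat_lit 545) (@Lb.fm (nat_lit 9) t1336)))))))))))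
noncomputable def l4219 : Lb := (@Lb.d (nat_lit 136) (nat_lit 260) (nat_lit 128) (@Lb.g g9 (@Lb.g g10 (@Lb.g g11 (@Lb.r r618 (@Lb.r r24 (@Lb.r r405 (@Lb.r r611 (@Lb.d (nat_lit 138) (nat_lit 18) (nat_lit 130) (@Lb.t (@Lb.fm (nat_lit 9) t1337)))))))))))
noncomputable def l4220 : Lb := (@Lb.d (nat_lit 166) (nat_lit 529) (nat_lit 1) (@Lb.r r596 (@Lb.r r535 (@Lb.r r353 (@Lb.g g7 (@Lb.g g6 (@Lb.g g4 (@Lb.d (nat_lit 4) (nat_lit 16) (nat_lit 133) (@Lb.r r145 (@Lb.t (@Lb.fp (nat_lit 9) t50)))))))))))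
noncomputable def l4221 : Lb := (@Lb.d (nat_lit 134) (nat_lit 256) (nat_lit 4) (@Lb.g g8 (@Lb.g g9 (@Lb.g g10 (@Lb.g g11 (@Lb.r r1675 (@Lb.r r1556 (@Lb.r r2201 (@Lb.r r2650 (@Lb.d (nat_lit 649) (nat_lit 101) (nat_lit 68) (@Lb.fm (nat_lit 9) t1338)))))))))))
noncomputable def l4222 : Lb := (@Lb.d (nat_lit 4) (nat_lit 521) (nat_lit 66) (@Lb.g g8 (@Lb.g g9 (@Lb.g g10 (@Lb.g g7 (@Lb.r r1410 (@Lb.r r1121 (@Lb.r r24 (@Lb.d (nat_lit 0) (nat_lit 138) (nat_lit 265) (@Lb.fp (nat_lit 9) t130))))))))))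
noncomputable def l4223 : Lb := (@Lb.d (nat_lit 2) (nat_lit 513) (nat_lit 64) (@Lb.g g8 (@Lb.g g9 (@Lb.g g10 (@Lb.g g7 (@Lb.r r418 (@Lb.r r1169 (@Lb.r r2120 (@Lb.d (nat_lit 290) (nat_lit 169) (nat_lit 529) (@Lb.fm (nat_lit 9) t940))))))))))
noncomputable def l4224 : Lb := (@Lb.r r82 (@Lb.d (nat_lit 34) (nat_lit 2) (nat_lit 580) (@Lb.g g8 (@Lb.g g9 (@Lb.g g7 (@Lb.r r418 (@Lb.r r297 (@Lb.r r100 (@Lb.d (nat_lit 293) (nat_lit 138) (nat_lit 9) (@Lb.t (@Lb.fp (nat_lit 9) t1339)))))))))))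
noncomputable def l4225 : Lb := (@Lb.d (nat_lit 549) (nat_lit 320) (nat_lit 32) (@Lb.r r21 (@Lb.r r70 (@Lb.r r263 (@Lb.g g4 (@Lb.r r267 (@Lb.r r74 (@Lb.r r25 (@Lb.t (@Lb.fm (nat_lit 3) t1028))))))))))
noncomputable def l4226 : Lb := (@Lb.d (nat_lit 0) (nat_lit 256) (nat_lit 10) (@Lb.g g10 (@Lb.r r2449 (@Lb.r r2436 (@Lb.d (nat_lit 0) (nat_lit 152) (nat_lit 393) (@Lb.t (@Lb.fp (nat_lit 3) t1340)))))))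
noncomputable def l4227 : Lb := (@Lb.r r323 (@Lb.d (nat_lit 2) (nat_lit 552) (nat_lit 41) (@Lb.g g8 (@Lb.g g9 (@Lb.g g6 (@Lb.r r292 (@Lb.r r411 (@Lb.r r533 (@Lb.d (nat_lit 645) (nat_lit 165) (nat_lit 72) (@Lb.t (@Lb.fp (nat_lit 9) t1341)))))))))))
noncomputable def l4228 : Lb := (@Lb.d (nat_lit 6) (nat_lit 70) (nat_lit 70) (@Lb.r r289 (@Lb.r r279 (@Lb.r r584 (@Lb.r r326 (@Lb.g g7 (@Lb.g g6 (@Lb.g g5 (@Lb.d (nat_lit 4) (nat_lit 1) (nat_lit 65) (@Lb.t (@Lb.fp (nat_lit 9) t68)))))))))))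
noncomputable def l4229 : Lb := (@Lb.d (nat_lit 5) (nat_lit 586) (nat_lit 128) (@Lb.r r402 (@Lb.r r101 (@Lb.r r24 (@Lb.g g11 (@Lb.t (@Lb.fm (nat_lit 3) t263)))))))
noncomputable def l4230 : Lb := (@Lb.d (nat_lit 2) (nat_lit 264) (nat_lit 66) (@Lb.g g8 (@Lb.g g9 (@Lb.g g10 (@Lb.g g7 (@Lb.r r1410 (@Lb.r r1121 (@Lb.r r24 (@Lb.d (nat_lit 10) (nat_lit 137) (nat_lit 265) (@Lb.fp (nat_lit 9) t130))))))))))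
noncomputable def l4231 : Lb := (@Lb.d (nat_lit 2) (nat_lit 8) (nat_lit 66) (@Lb.g g8 (@Lb.g g9 (@Lb.g g10 (@Lb.g g7 (@Lb.r r2438 (@Lb.r r105 (@Lb.r r24 (@Lb.d (nat_lit 168) (nat_lit 16) (nat_lit 537) (@Lb.fp (nat_lit 9) t1342))))))))))
noncomputable def l4232 : Lb := (@Lb.r r21 (@Lb.r r263 (@Lb.d (nat_lit 646) (nat_lit 0) (nat_lit 2) (@Lb.g g8 (@Lb.g g10 (@Lb.r r1639 (@Lb.r r106 (@Lb.r r97 (@Lb.d (nat_lit 21) (nat_lit 2) (nat_lit 613) (@Lb.fm (nat_lit 3) t1343))))))))))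
noncomputable def l4233 : Lb := (@Lb.r r81 (@Lb.r r323 (@Lb.d (nat_lit 2) (nat_lit 512) (nat_lit 33) (@Lb.g g8 (@Lb.g g6 (@Lb.r r2331 (@Lb.r r37 (@Lb.d (nat_lit 256) (nat_lit 68) (nat_lit 1) (@Lb.fm (nat_lit 3) t58)))))))))
noncomputable def l4234 : Lb := (@Lb.d (nat_lit 5) (nat_lit 512) (nat_lit 8) (@Lb.g g4 (@Lb.g g11 (@Lb.r r1434 (@Lb.r r359 (@Lb.r r101 (@Lb.d (nat_lit 1) (nat_lit 85) (nat_lit 145) (@Lb.fp (nat_lit 3) t1344))))))))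
noncomputable def l4235 : Lb := (@Lb.d (nat_lit 5) (nat_lit 0) (nat_lit 8) (@Lb.g g4 (@Lb.g g11 (@Lb.r r1434 (@Lb.r r359 (@Lb.r r101 (@Lb.d (nat_lit 8) (nat_lit 84) (nat_lit 145) (@Lb.fp (nat_lit 3) t1345))))))))
noncomputable def l4236 : Lb := (@Lb.r r323 (@Lb.d (nat_lit 2) (nat_lit 514) (nat_lit 1) (@Lb.g g8 (@Lb.g g9 (@Lb.g g6 (@Lb.r r1611 (@Lb.r r97 (@Lb.d (nat_lit 516) (nat_lit 10) (nat_lit 85) (@Lb.t (@Lb.fp (nat_lit 9) t1346))))))))))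
noncomputable def l4237 : Lb := (@Lb.r r21 (@Lb.d (nat_lit 128) (nat_lit 0) (nat_lit 130) (@Lb.g g8 (@Lb.g g10 (@Lb.g g11 (@Lb.r r1351 (@Lb.r r330 (@Lb.r r1125 (@Lb.r r344 (@Lb.d (nat_lit 129) (nat_lit 97) (nat_lit 346) (@Lb.t (@Lb.fm (nat_lit 9) t488))))))))))))
noncomputable def l4238 : Lb := (@Lb.d (nat_lit 645) (nat_lit 0) (nat_lit 130) (@Lb.g g4 (@Lb.g g9 (@Lb.g g10 (@Lb.g g11 (@Lb.r r677 (@Lb.r r1443 (@Lb.r r98 (@Lb.d (nat_lit 8) (nat_lit 10) (nat_lit 105) (@Lb.fp (nat_lit 9) t799))))))))))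
noncomputable def l4239 : Lb := (@Lb.d (nat_lit 645) (nat_lit 0) (nat_lit 66) (@Lb.g g4 (@Lb.g g9 (@Lb.g g10 (@Lb.g g11 (@Lb.r r661 (@Lb.r r1427 (@Lb.r r2138 (@Lb.r r1169 (@Lb.d (nat_lit 338) (nat_lit 2) (nat_lit 330) (@Lb.fm (nat_lit 9) t1347)))))))))))
noncomputable def l4240 : Lb := (@Lb.d (nat_lit 5) (nat_lit 512) (nat_lit 0) (@Lb.g g4 (@Lb.r r417 (@Lb.r r2466 (@Lb.r r2387 (@Lb.r r657 (@Lb.d (nat_lit 274) (nat_lit 0) (nat_lit 1) (@Lb.t (@Lb.fm (nat_lit 3) t246)))))))))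
noncomputable def l4241 : Lb := (@Lb.d (nat_lit 645) (nat_lit 512) (nat_lit 130) (@Lb.g g4 (@Lb.g g9 (@Lb.g g10 (@Lb.g g11 (@Lb.r r677 (@Lb.r r1443 (@Lb.r r98 (@Lb.d (nat_lit 1) (nat_lit 8) (nat_lit 105) (@Lb.fp (nat_lit 9) t211))))))))))
noncomputable def l4242 : Lb := (@Lb.d (nat_lit 5) (nat_lit 256) (nat_lit 0) (@Lb.g g4 (@Lb.r r2311 (@Lb.d (nat_lit 262) (nat_lit 65) (nat_lit 64) (@Lb.t (@Lb.fm (nat_lit 3) t1165))))))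
noncomputable def l4243 : Lb := (@Lb.d (nat_lit 2) (nat_lit 522) (nat_lit 6) (@Lb.g g8 (@Lb.g g9 (@Lb.g g10 (@Lb.g g11 (@Lb.r r1158 (@Lb.r r2664 (@Lb.r r2585 (@Lb.r r1555 (@Lb.d (nat_lit 666) (nat_lit 8) (nat_lit 608) (@Lb.fm (nat_lit 9) t1348)))))))))))
noncomputable def l4244 : Lb := (@Lb.d (nat_lit 98) (nat_lit 89) (nat_lit 262) (@Lb.r r597 (@Lb.r r296 (@Lb.r r418 (@Lb.g g11 (@Lb.g g6 (@Lb.g g5 (@Lb.g g4 (@Lb.d (nat_lit 1) (nat_lit 18) (nat_lit 392) (@Lb.fm (nat_lit 9) t1349))))))))))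
noncomputable def l4245 : Lb := (@Lb.g g6 (@Lb.g g11 (@Lb.fp (nat_lit 3) t2)))
noncomputable def l4246 : Lb := (@Lb.d (nat_lit 0) (nat_lit 0) (nat_lit 73) (@Lb.g g8 (@Lb.g g9 (@Lb.g g10 (@Lb.g g11 (@Lb.r r2658 (@Lb.r r101 (@Lb.r r24 (@Lb.d (nat_lit 642) (nat_lit 0) (nat_lit 256) (@Lb.fp (nat_lit 9) t145))))))))))
noncomputable def l4247 : Lb := (@Lb.d (nat_lit 0) (nat_lit 256) (nat_lit 130) (@Lb.g g8 (@Lb.g g9 (@Lb.g g10 (@Lb.g g11 (@Lb.r r2658 (@Lb.r r101 (@Lb.r r24 (@Lb.d (nat_lit 642) (nat_lit 0) (nat_lit 320) (@Lb.fp (nat_lit 9) t145))))))))))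
noncomputable def l4248 : Lb := (@Lb.r r323 (@Lb.d (nat_lit 2) (nat_lit 258) (nat_lit 2) (@Lb.g g8 (@Lb.g g9 (@Lb.g g10 (@Lb.r r1623 (@Lb.r r2154 (@Lb.r r97 (@Lb.r r24 (@Lb.d (nat_lit 533) (nat_lit 6) (nat_lit 136) (@Lb.t (@Lb.fp (nat_lit 9) t61))))))))))))
noncomputable def l4249 : Lb := (@Lb.r r323 (@Lb.d (nat_lit 128) (nat_lit 544) (nat_lit 2) (@Lb.g g8 (@Lb.g g9 (@Lb.g g10 (@Lb.r r2647 (@Lb.r r1122 (@Lb.r r1432 (@Lb.r r2149 (@Lb.d (nat_lit 21) (nat_lit 169) (nat_lit 161) (@Lb.t (@Lb.fp (nat_lit 9) t1350))))))))))))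
noncomputable def l4250 : Lb := (@Lb.r r323 (@Lb.d (nat_lit 2) (nat_lit 514) (nat_lit 2) (@Lb.g g8 (@Lb.g g9 (@Lb.g g10 (@Lb.r r1623 (@Lb.r r2154 (@Lb.r r97 (@Lb.r r24 (@Lb.d (nat_lit 265) (nat_lit 9) (nat_lit 152) (@Lb.t (@Lb.fp (nat_lit 9) t61))))))))))))
noncomputable def l4251 : Lb := (@Lb.d (nat_lit 2) (nat_lit 2) (nat_lit 73) (@Lb.g g8 (@Lb.g g9 (@Lb.g g10 (@Lb.g g11 (@Lb.r r427 (@Lb.r r420 (@Lb.r r102 (@Lb.r r21 (@Lb.r r36 (@Lb.d (nat_lit 21) (nat_lit 8) (nat_lit 137) (@Lb.fp (nat_lit 9) t61))))))))))))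
noncomputable def l4252 : Lb := (@Lb.r r82 (@Lb.d (nat_lit 34) (nat_lit 258) (nat_lit 136) (@Lb.g g8 (@Lb.g g9 (@Lb.g g11 (@Lb.r r1362 (@Lb.r r2645 (@Lb.r r356 (@Lb.r r395 (@Lb.d (nat_lit 545) (nat_lit 34) (nat_lit 616) (@Lb.t (@Lb.fm (nat_lit 9) t50))))))))))))
noncomputable def l4253 : Lb := (@Lb.d (nat_lit 8) (nat_lit 512) (nat_lit 137) (@Lb.g g8 (@Lb.g g10 (@Lb.g g11 (@Lb.r r1435 (@Lb.r r597 (@Lb.r r98 (@Lb.r r2436 (@Lb.d (nat_lit 610) (nat_lit 68) (nat_lit 648) (@Lb.t (@Lb.fm (nat_lit 9) t386)))))))))))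
noncomputable def l4254 : Lb := (@Lb.r r323 (@Lb.d (nat_lit 136) (nat_lit 264) (nat_lit 26) (@Lb.g g8 (@Lb.g g10 (@Lb.r r615 (@Lb.r r533 (@Lb.r r2340 (@Lb.d (nat_lit 329) (nat_lit 32) (nat_lit 641) (@Lb.fp (nat_lit 3) t1350)))))))))
noncomputable def l4255 : Lb := (@Lb.g g4 (@Lb.g g7 (@Lb.r r402 (@Lb.r r105 (@Lb.r r36 (@Lb.d (nat_lit 261) (nat_lit 257) (nat_lit 512) (@Lb.fm (nat_lit 3) t145)))))))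
noncomputable def l4256 : Lb := (@Lb.d (nat_lit 101) (nat_lit 38) (nat_lit 101) (@Lb.r r408 (@Lb.r r330 (@Lb.r r343 (@Lb.g g5 (@Lb.g g4 (@Lb.d (nat_lit 17) (nat_lit 4) (nat_lit 0) (@Lb.r r291 (@Lb.r r98 (@Lb.fp (nat_lit 3) t50))))))))))
noncomputable def l4257 : Lb := (@Lb.d (nat_lit 0) (nat_lit 2) (nat_lit 73) (@Lb.g g8 (@Lb.g g9 (@Lb.g g10 (@Lb.g g11 (@Lb.r r1315 (@Lb.r r1610 (@Lb.r r100 (@Lb.r r21 (@Lb.r r36 (@Lb.d (nat_lit 64) (nat_lit 41) (nat_lit 258) (@Lb.fp (nat_lit 9) t825))))))))))))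
noncomputable def l4258 : Lb := (@Lb.d (nat_lit 0) (nat_lit 514) (nat_lit 130) (@Lb.g g8 (@Lb.g g9 (@Lb.g g10 (@Lb.g g11 (@Lb.r r1315 (@Lb.r r1610 (@Lb.r r100 (@Lb.r r21 (@Lb.r r36 (@Lb.d (nat_lit 385) (nat_lit 41) (nat_lit 66) (@Lb.fp (nat_lit 9) t825))))))))))))
noncomputable def l4259 : Lb := (@Lb.g g7 (@Lb.r r2311 (@Lb.r r402 (@Lb.r r2145 (@Lb.r r36 (@Lb.d (nat_lit 264) (nat_lit 65) (nat_lit 512) (@Lb.t (@Lb.fm (nat_lit 3) t1351))))))))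
noncomputable def l4260 : Lb := (@Lb.r r1355 (@Lb.r r1606 (@Lb.r r1557 (@Lb.r r1288 (@Lb.d (nat_lit 576) (nat_lit 512) (nat_lit 608) (@Lb.fm (nat_lit 1) t468))))))
noncomputable def l4261 : Lb := (@Lb.r r70 (@Lb.r r263 (@Lb.d (nat_lit 5) (nat_lit 0) (nat_lit 0) (@Lb.g g8 (@Lb.g g9 (@Lb.r r1383 (@Lb.r r1192 (@Lb.r r2138 (@Lb.r r145 (@Lb.d (nat_lit 514) (nat_lit 68) (nat_lit 33) (@Lb.fp (nat_lit 3) t601)))))))))))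
noncomputable def l4262 : Lb := (@Lb.g g9 (@Lb.r r149 (@Lb.d (nat_lit 34) (nat_lit 256) (nat_lit 2) (@Lb.t (@Lb.fp (nat_lit 3) t39)))))
noncomputable def l4263 : Lb := (@Lb.d (nat_lit 8) (nat_lit 258) (nat_lit 130) (@Lb.g g9 (@Lb.g g10 (@Lb.g g11 (@Lb.r r586 (@Lb.r r584 (@Lb.r r299 (@Lb.r r289 (@Lb.d (nat_lit 9) (nat_lit 137) (nat_lit 137) (@Lb.t (@Lb.fm (nat_lit 9) t51)))))))))))
noncomputable def l4264 : Lb := (@Lb.d (nat_lit 34) (nat_lit 520) (nat_lit 136) (@Lb.g g8 (@Lb.g g9 (@Lb.g g11 (@Lb.r r2194 (@Lb.r r101 (@Lb.r r1300 (@Lb.r r1291 (@Lb.d (nat_lit 2) (nat_lit 80) (nat_lit 340) (@Lb.t (@Lb.fm (nat_lit 9) t322)))))))))))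
noncomputable def l4265 : Lb := (@Lb.d (nat_lit 0) (nat_lit 522) (nat_lit 129) (@Lb.g g9 (@Lb.g g10 (@Lb.g g11 (@Lb.r r2711 (@Lb.r r1380 (@Lb.r r2202 (@Lb.r r2201 (@Lb.d (nat_lit 522) (nat_lit 136) (nat_lit 0) (@Lb.t (@Lb.fm (nat_lit 9) t1352)))))))))))
noncomputable def l4266 : Lb := (@Lb.d (nat_lit 1) (nat_lit 522) (nat_lit 129) (@Lb.g g8 (@Lb.g g9 (@Lb.g g10 (@Lb.g g11 (@Lb.r r2715 (@Lb.r r2712 (@Lb.r r2202 (@Lb.r r2201 (@Lb.d (nat_lit 522) (nat_lit 136) (nat_lit 138) (@Lb.fm (nat_lit 9) t1352)))))))))))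
noncomputable def l4267 : Lb := (@Lb.r r82 (@Lb.r r275 (@Lb.d (nat_lit 33) (nat_lit 264) (nat_lit 0) (@Lb.g g8 (@Lb.g g9 (@Lb.r r427 (@Lb.r r582 (@Lb.r r408 (@Lb.d (nat_lit 154) (nat_lit 88) (nat_lit 154) (@Lb.fp (nat_lit 3) t408))))))))))
noncomputable def l4268 : Lb := (@Lb.r r82 (@Lb.r r275 (@Lb.d (nat_lit 33) (nat_lit 8) (nat_lit 0) (@Lb.g g8 (@Lb.g g9 (@Lb.r r427 (@Lb.r r582 (@Lb.r r408 (@Lb.d (nat_lit 152) (nat_lit 88) (nat_lit 154) (@Lb.fp (nat_lit 3) t411))))))))))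
noncomputable def l4269 : Lb := (@Lb.d (nat_lit 1) (nat_lit 2) (nat_lit 128) (@Lb.g g8 (@Lb.g g9 (@Lb.g g10 (@Lb.g g11 (@Lb.r r1639 (@Lb.r r297 (@Lb.r r1348 (@Lb.r r2666 (@Lb.d (nat_lit 660) (nat_lit 149) (nat_lit 70) (@Lb.fp (nat_lit 9) t91)))))))))))
noncomputable def l4270 : Lb := (@Lb.d (nat_lit 8) (nat_lit 258) (nat_lit 130) (@Lb.g g9 (@Lb.g g10 (@Lb.g g11 (@Lb.r r614 (@Lb.r r404 (@Lb.r r1371 (@Lb.r r2705 (@Lb.d (nat_lit 9) (nat_lit 34) (nat_lit 296) (@Lb.t (@Lb.fm (nat_lit 9) t71)))))))))))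
noncomputable def l4271 : Lb := (@Lb.r r21 (@Lb.r r322 (@Lb.d (nat_lit 2) (nat_lit 256) (nat_lit 8) (@Lb.g g8 (@Lb.g g11 (@Lb.r r1414 (@Lb.r r2580 (@Lb.r r25 (@Lb.d (nat_lit 321) (nat_lit 38) (nat_lit 329) (@Lb.fp (nat_lit 3) t1353))))))))))
noncomputable def l4272 : Lb := (@Lb.r r21 (@Lb.r r322 (@Lb.d (nat_lit 129) (nat_lit 544) (nat_lit 128) (@Lb.g g8 (@Lb.g g11 (@Lb.r r1381 (@Lb.r r146 (@Lb.r r2648 (@Lb.d (nat_lit 666) (nat_lit 42) (nat_lit 358) (@Lb.fp (nat_lit 3) t1354))))))))))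
noncomputable def l4273 : Lb := (@Lb.d (nat_lit 2) (nat_lit 264) (nat_lit 73) (@Lb.g g8 (@Lb.g g9 (@Lb.g g10 (@Lb.g g11 (@Lb.r r2646 (@Lb.r r420 (@Lb.r r283 (@Lb.r r2585 (@Lb.r r1044 (@Lb.d (nat_lit 360) (nat_lit 0) (nat_lit 601) (@Lb.fp (nat_lit 9) t957))))))))))))
noncomputable def l4274 : Lb := (@Lb.d (nat_lit 2) (nat_lit 520) (nat_lit 130) (@Lb.g g8 (@Lb.g g9 (@Lb.g g10 (@Lb.g g11 (@Lb.r r2646 (@Lb.r r420 (@Lb.r r283 (@Lb.r r2585 (@Lb.r r1044 (@Lb.d (nat_lit 353) (nat_lit 1) (nat_lit 601) (@Lb.fp (nat_lit 9) t957))))))))))))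
noncomputable def l4275 : Lb := (@Lb.d (nat_lit 0) (nat_lit 8) (nat_lit 73) (@Lb.g g9 (@Lb.g g10 (@Lb.g g11 (@Lb.r r2451 (@Lb.r r1681 (@Lb.r r1114 (@Lb.r r1096 (@Lb.d (nat_lit 264) (nat_lit 0) (nat_lit 133) (@Lb.t (@Lb.fp (nat_lit 9) t1355)))))))))))
noncomputable def l4276 : Lb := (@Lb.r r323 (@Lb.d (nat_lit 2) (nat_lit 258) (nat_lit 1) (@Lb.g g8 (@Lb.g g9 (@Lb.g g6 (@Lb.r r387 (@Lb.r r97 (@Lb.r r24 (@Lb.d (nat_lit 9) (nat_lit 9) (nat_lit 2) (@Lb.t (@Lb.fp (nat_lit 9) t319)))))))))))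
noncomputable def l4277 : Lb := (@Lb.r r20 (@Lb.d (nat_lit 0) (nat_lit 321) (nat_lit 2) (@Lb.g g9 (@Lb.g g10 (@Lb.r r515 (@Lb.r r98 (@Lb.d (nat_lit 0) (nat_lit 9) (nat_lit 70) (@Lb.fp (nat_lit 3) t71))))))))
noncomputable def l4278 : Lb := (@Lb.d (nat_lit 8) (nat_lit 297) (nat_lit 0) (@Lb.g g9 (@Lb.r r2708 (@Lb.r r2711 (@Lb.r r662 (@Lb.r r2393 (@Lb.d (nat_lit 298) (nat_lit 150) (nat_lit 422) (@Lb.t (@Lb.fp (nat_lit 3) t322)))))))))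
noncomputable def l4279 : Lb := (@Lb.r r20 (@Lb.d (nat_lit 0) (nat_lit 72) (nat_lit 1) (@Lb.g g9 (@Lb.g g10 (@Lb.r r515 (@Lb.r r98 (@Lb.d (nat_lit 2) (nat_lit 9) (nat_lit 70) (@Lb.fp (nat_lit 3) t1356))))))))
noncomputable def l4280 : Lb := (@Lb.r r20 (@Lb.d (nat_lit 0) (nat_lit 577) (nat_lit 2) (@Lb.g g9 (@Lb.g g10 (@Lb.r r515 (@Lb.r r98 (@Lb.d (nat_lit 2) (nat_lit 138) (nat_lit 70) (@Lb.fp (nat_lit 3) t71))))))))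
noncomputable def l4281 : Lb := (@Lb.r r20 (@Lb.d (nat_lit 0) (nat_lit 577) (nat_lit 2) (@Lb.g g9 (@Lb.g g10 (@Lb.r r515 (@Lb.r r98 (@Lb.d (nat_lit 2) (nat_lit 9) (nat_lit 70) (@Lb.fp (nat_lit 3) t71))))))))
noncomputable def l4282 : Lb := (@Lb.d (nat_lit 2) (nat_lit 513) (nat_lit 0) (@Lb.g g8 (@Lb.g g9 (@Lb.g g10 (@Lb.r r1543 (@Lb.r r1681 (@Lb.r r2404 (@Lb.r r1178 (@Lb.d (nat_lit 681) (nat_lit 2) (nat_lit 69) (@Lb.t (@Lb.fm (nat_lit 9) t222)))))))))))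
noncomputable def l4283 : Lb := (@Lb.d (nat_lit 4) (nat_lit 514) (nat_lit 2) (@Lb.g g8 (@Lb.g g9 (@Lb.g g10 (@Lb.r r515 (@Lb.r r1130 (@Lb.r r1049 (@Lb.d (nat_lit 521) (nat_lit 73) (nat_lit 70) (@Lb.t (@Lb.fp (nat_lit 9) t71))))))))))
noncomputable def l4284 : Lb := (@Lb.d (nat_lit 134) (nat_lit 272) (nat_lit 2) (@Lb.g g8 (@Lb.g g9 (@Lb.g g10 (@Lb.g g11 (@Lb.r r355 (@Lb.r r386 (@Lb.r r1129 (@Lb.r r1156 (@Lb.d (nat_lit 261) (nat_lit 169) (nat_lit 601) (@Lb.fp (nat_lit 9) t19)))))))))))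
noncomputable def l4285 : Lb := (@Lb.d (nat_lit 0) (nat_lit 346) (nat_lit 68) (@Lb.r r593 (@Lb.r r347 (@Lb.r r328 (@Lb.g g6 (@Lb.g g5 (@Lb.d (nat_lit 16) (nat_lit 2) (nat_lit 2) (@Lb.fp (nat_lit 3) t130))))))))
noncomputable def l4286 : Lb := (@Lb.r r323 (@Lb.d (nat_lit 5) (nat_lit 8) (nat_lit 0) (@Lb.g g4 (@Lb.g g10 (@Lb.r r387 (@Lb.d (nat_lit 0) (nat_lit 0) (nat_lit 2) (@Lb.fp (nat_lit 3) t51)))))))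
noncomputable def l4287 : Lb := (@Lb.d (nat_lit 0) (nat_lit 581) (nat_lit 66) (@Lb.r r289 (@Lb.r r535 (@Lb.r r328 (@Lb.g g6 (@Lb.g g5 (@Lb.d (nat_lit 20) (nat_lit 1) (nat_lit 2) (@Lb.fp (nat_lit 3) t130))))))))
noncomputable def l4288 : Lb := (@Lb.d (nat_lit 8) (nat_lit 34) (nat_lit 0) (@Lb.g g9 (@Lb.r r536 (@Lb.r r283 (@Lb.r r2178 (@Lb.r r2597 (@Lb.d (nat_lit 154) (nat_lit 89) (nat_lit 292) (@Lb.t (@Lb.fm (nat_lit 3) t287)))))))))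
noncomputable def l4289 : Lb := (@Lb.d (nat_lit 136) (nat_lit 514) (nat_lit 64) (@Lb.g g9 (@Lb.g g11 (@Lb.r r24 (@Lb.r r2341 (@Lb.r r1555 (@Lb.r r2178 (@Lb.d (nat_lit 402) (nat_lit 161) (nat_lit 677) (@Lb.fm (nat_lit 3) t287)))))))))
noncomputable def l4290 : Lb := (@Lb.d (nat_lit 262) (nat_lit 165) (nat_lit 73) (@Lb.r r90 (@Lb.r r72 (@Lb.r r297 (@Lb.r r2395 (@Lb.g g7 (@Lb.g g6 (@Lb.g g5 (@Lb.d (nat_lit 16) (nat_lit 1) (nat_lit 65) (@Lb.t (@Lb.fp (nat_lit 9) t1130)))))))))))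
noncomputable def l4291 : Lb := (@Lb.d (nat_lit 389) (nat_lit 272) (nat_lit 322) (@Lb.r r1556 (@Lb.r r281 (@Lb.r r615 (@Lb.g g6 (@Lb.g g4 (@Lb.d (nat_lit 69) (nat_lit 0) (nat_lit 36) (@Lb.r r387 (@Lb.fp (nat_lit 3) t927)))))))))
noncomputable def l4292 : Lb := (@Lb.r r323 (@Lb.d (nat_lit 2) (nat_lit 258) (nat_lit 0) (@Lb.g g8 (@Lb.g g9 (@Lb.g g10 (@Lb.r r427 (@Lb.r r106 (@Lb.r r25 (@Lb.d (nat_lit 282) (nat_lit 2) (nat_lit 33) (@Lb.t (@Lb.fm (nat_lit 9) t1357)))))))))))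
noncomputable def l4293 : Lb := (@Lb.r r82 (@Lb.r r275 (@Lb.d (nat_lit 2) (nat_lit 256) (nat_lit 0) (@Lb.g g8 (@Lb.g g9 (@Lb.r r299 (@Lb.r r106 (@Lb.r r25 (@Lb.d (nat_lit 2) (nat_lit 5) (nat_lit 1) (@Lb.fm (nat_lit 3) t1358))))))))))
noncomputable def l4294 : Lb := (@Lb.d (nat_lit 586) (nat_lit 161) (nat_lit 585) (@Lb.r r1560 (@Lb.r r277 (@Lb.r r619 (@Lb.g g6 (@Lb.g g8 (@Lb.d (nat_lit 69) (nat_lit 0) (nat_lit 36) (@Lb.r r387 (@Lb.fp (nat_lit 3) t927)))))))))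
noncomputable def l4295 : Lb := (@Lb.r r323 (@Lb.d (nat_lit 2) (nat_lit 2) (nat_lit 0) (@Lb.g g8 (@Lb.g g9 (@Lb.g g10 (@Lb.r r427 (@Lb.r r106 (@Lb.r r25 (@Lb.d (nat_lit 277) (nat_lit 8) (nat_lit 32) (@Lb.t (@Lb.fm (nat_lit 9) t1357)))))))))))
noncomputable def l4296 : Lb := (@Lb.g g8 (@Lb.g g7 (@Lb.d (nat_lit 0) (nat_lit 512) (nat_lit 69) (@Lb.fp (nat_lit 3) t2))))
noncomputable def l4297 : Lb := (@Lb.d (nat_lit 2) (nat_lit 2) (nat_lit 73) (@Lb.g g8 (@Lb.g g9 (@Lb.g g10 (@Lb.g g11 (@Lb.r r427 (@Lb.r r677 (@Lb.r r340 (@Lb.r r170 (@Lb.d (nat_lit 21) (nat_lit 8) (nat_lit 137) (@Lb.fp (nat_lit 9) t61)))))))))))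
noncomputable def l4298 : Lb := (@Lb.d (nat_lit 40) (nat_lit 512) (nat_lit 64) (@Lb.g g8 (@Lb.g g11 (@Lb.r r1703 (@Lb.r r614 (@Lb.r r1637 (@Lb.r r1428 (@Lb.d (nat_lit 358) (nat_lit 80) (nat_lit 392) (@Lb.fm (nat_lit 3) t386)))))))))
noncomputable def l4299 : Lb := (@Lb.d (nat_lit 32) (nat_lit 9) (nat_lit 130) (@Lb.g g9 (@Lb.g g10 (@Lb.g g11 (@Lb.r r647 (@Lb.r r293 (@Lb.r r328 (@Lb.r r662 (@Lb.d (nat_lit 166) (nat_lit 37) (nat_lit 64) (@Lb.t (@Lb.fm (nat_lit 9) t98)))))))))))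
noncomputable def l4300 : Lb := (@Lb.d (nat_lit 32) (nat_lit 258) (nat_lit 130) (@Lb.g g9 (@Lb.g g10 (@Lb.g g11 (@Lb.r r2695 (@Lb.r r293 (@Lb.r r1352 (@Lb.r r2710 (@Lb.d (nat_lit 678) (nat_lit 165) (nat_lit 336) (@Lb.t (@Lb.fm (nat_lit 9) t242)))))))))))
noncomputable def l4301 : Lb := (@Lb.d (nat_lit 128) (nat_lit 32) (nat_lit 128) (@Lb.g g11 (@Lb.r r2410 (@Lb.r r361 (@Lb.r r1384 (@Lb.r r2455 (@Lb.d (nat_lit 614) (nat_lit 22) (nat_lit 520) (@Lb.t (@Lb.fp (nat_lit 3) t322)))))))))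
noncomputable def l4302 : Lb := (@Lb.d (nat_lit 1) (nat_lit 262) (nat_lit 70) (@Lb.r r289 (@Lb.r r279 (@Lb.r r584 (@Lb.r r326 (@Lb.g g7 (@Lb.g g6 (@Lb.g g5 (@Lb.d (nat_lit 4) (nat_lit 1) (nat_lit 65) (@Lb.t (@Lb.fp (nat_lit 9) t68)))))))))))
noncomputable def l4303 : Lb := (@Lb.d (nat_lit 0) (nat_lit 1) (nat_lit 70) (@Lb.r r289 (@Lb.r r279 (@Lb.r r584 (@Lb.g g6 (@Lb.g g5 (@Lb.d (nat_lit 16) (nat_lit 0) (nat_lit 1) (@Lb.r r387 (@Lb.fm (nat_lit 3) t68)))))))))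
noncomputable def l4304 : Lb := (@Lb.r r402 (@Lb.r r579 (@Lb.d (nat_lit 0) (nat_lit 16) (nat_lit 64) (@Lb.fp (nat_lit 1) t51))))
noncomputable def l4305 : Lb := (@Lb.d (nat_lit 0) (nat_lit 516) (nat_lit 130) (@Lb.r r402 (@Lb.g g11 (@Lb.d (nat_lit 0) (nat_lit 0) (nat_lit 136) (@Lb.t (@Lb.fm (nat_lit 3) t1359))))))
noncomputable def l4306 : Lb := (@Lb.r r82 (@Lb.d (nat_lit 34) (nat_lit 258) (nat_lit 580) (@Lb.g g8 (@Lb.g g9 (@Lb.g g7 (@Lb.r r418 (@Lb.r r297 (@Lb.r r100 (@Lb.d (nat_lit 296) (nat_lit 10) (nat_lit 9) (@Lb.t (@Lb.fp (nat_lit 9) t739)))))))))))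
noncomputable def l4307 : Lb := (@Lb.r r82 (@Lb.d (nat_lit 4) (nat_lit 0) (nat_lit 580) (@Lb.g g8 (@Lb.g g9 (@Lb.g g7 (@Lb.r r418 (@Lb.r r1321 (@Lb.r r1124 (@Lb.d (nat_lit 538) (nat_lit 138) (nat_lit 9) (@Lb.t (@Lb.fp (nat_lit 9) t1360)))))))))))
noncomputable def l4308 : Lb := (@Lb.r r82 (@Lb.d (nat_lit 4) (nat_lit 17) (nat_lit 132) (@Lb.g g8 (@Lb.g g9 (@Lb.g g7 (@Lb.r r2466 (@Lb.r r297 (@Lb.r r1124 (@Lb.d (nat_lit 25) (nat_lit 138) (nat_lit 537) (@Lb.t (@Lb.fp (nat_lit 9) t1361)))))))))))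
noncomputable def l4309 : Lb := (@Lb.r r82 (@Lb.d (nat_lit 4) (nat_lit 256) (nat_lit 64) (@Lb.g g8 (@Lb.g g9 (@Lb.g g7 (@Lb.r r361 (@Lb.r r2198 (@Lb.r r1124 (@Lb.d (nat_lit 585) (nat_lit 138) (nat_lit 537) (@Lb.t (@Lb.fp (nat_lit 9) t1361)))))))))))
noncomputable def l4310 : Lb := (@Lb.r r82 (@Lb.d (nat_lit 0) (nat_lit 0) (nat_lit 580) (@Lb.g g9 (@Lb.g g7 (@Lb.r r422 (@Lb.r r596 (@Lb.r r297 (@Lb.d (nat_lit 548) (nat_lit 165) (nat_lit 32) (@Lb.fp (nat_lit 3) t1362)))))))))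
noncomputable def l4311 : Lb := (@Lb.r r323 (@Lb.d (nat_lit 0) (nat_lit 266) (nat_lit 0) (@Lb.g g9 (@Lb.g g10 (@Lb.r r339 (@Lb.r r162 (@Lb.r r101 (@Lb.r r24 (@Lb.d (nat_lit 32) (nat_lit 0) (nat_lit 2) (@Lb.fp (nat_lit 3) t68))))))))))
noncomputable def l4312 : Lb := (@Lb.d (nat_lit 0) (nat_lit 88) (nat_lit 136) (@Lb.g g9 (@Lb.g g10 (@Lb.g g11 (@Lb.r r339 (@Lb.r r1362 (@Lb.d (nat_lit 0) (nat_lit 166) (nat_lit 65) (@Lb.t (@Lb.fm (nat_lit 9) t258)))))))))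
noncomputable def l4313 : Lb := (@Lb.d (nat_lit 2) (nat_lit 2) (nat_lit 5) (@Lb.g g8 (@Lb.g g9 (@Lb.g g10 (@Lb.g g11 (@Lb.r r1639 (@Lb.r r297 (@Lb.r r1348 (@Lb.r r2666 (@Lb.d (nat_lit 660) (nat_lit 154) (nat_lit 68) (@Lb.fp (nat_lit 9) t91)))))))))))
noncomputable def l4314 : Lb := (@Lb.r r323 (@Lb.d (nat_lit 32) (nat_lit 256) (nat_lit 2) (@Lb.g g9 (@Lb.g g10 (@Lb.r r584 (@Lb.r r299 (@Lb.r r289 (@Lb.d (nat_lit 1) (nat_lit 2) (nat_lit 2) (@Lb.fm (nat_lit 3) t51)))))))))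
noncomputable def l4315 : Lb := (@Lb.d (nat_lit 4) (nat_lit 290) (nat_lit 130) (@Lb.g g8 (@Lb.g g9 (@Lb.g g10 (@Lb.g g11 (@Lb.r r683 (@Lb.r r1642 (@Lb.r r1561 (@Lb.d (nat_lit 585) (nat_lit 105) (nat_lit 273) (@Lb.fm (nat_lit 9) t919))))))))))
noncomputable def l4316 : Lb := (@Lb.d (nat_lit 2) (nat_lit 0) (nat_lit 0) (@Lb.g g8 (@Lb.g g5 (@Lb.r r24 (@Lb.d (nat_lit 9) (nat_lit 0) (nat_lit 0) (@Lb.fm (nat_lit 3) t2))))))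
noncomputable def l4317 : Lb := (@Lb.r r21 (@Lb.r r263 (@Lb.d (nat_lit 548) (nat_lit 520) (nat_lit 2) (@Lb.g g4 (@Lb.g g10 (@Lb.r r1427 (@Lb.r r97 (@Lb.d (nat_lit 6) (nat_lit 74) (nat_lit 34) (@Lb.fm (nat_lit 3) t1363)))))))))
noncomputable def l4318 : Lb := (@Lb.d (nat_lit 298) (nat_lit 577) (nat_lit 69) (@Lb.r r289 (@Lb.r r1386 (@Lb.r r1096 (@Lb.r r1371 (@Lb.g g7 (@Lb.g g6 (@Lb.g g5 (@Lb.d (nat_lit 0) (nat_lit 0) (nat_lit 64) (@Lb.t (@Lb.fp (nat_lit 9) t1028)))))))))))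
noncomputable def l4319 : Lb := (@Lb.d (nat_lit 9) (nat_lit 514) (nat_lit 130) (@Lb.g g8 (@Lb.g g9 (@Lb.g g10 (@Lb.g g11 (@Lb.r r682 (@Lb.r r680 (@Lb.r r555 (@Lb.r r529 (@Lb.r r36 (@Lb.d (nat_lit 9) (nat_lit 33) (nat_lit 74) (@Lb.fm (nat_lit 9) t51))))))))))))
noncomputable def l4320 : Lb := (@Lb.d (nat_lit 9) (nat_lit 514) (nat_lit 130) (@Lb.g g8 (@Lb.g g9 (@Lb.g g10 (@Lb.g g11 (@Lb.r r682 (@Lb.r r680 (@Lb.r r555 (@Lb.r r529 (@Lb.r r36 (@Lb.d (nat_lit 5) (nat_lit 32) (nat_lit 74) (@Lb.fm (nat_lit 9) t51))))))))))))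
noncomputable def l4321 : Lb := (@Lb.d (nat_lit 9) (nat_lit 265) (nat_lit 129) (@Lb.g g8 (@Lb.g g9 (@Lb.g g10 (@Lb.g g11 (@Lb.r r682 (@Lb.r r680 (@Lb.r r555 (@Lb.r r529 (@Lb.r r36 (@Lb.d (nat_lit 4) (nat_lit 32) (nat_lit 74) (@Lb.fm (nat_lit 9) t264))))))))))))
noncomputable def l4322 : Lb := (@Lb.d (nat_lit 8) (nat_lit 258) (nat_lit 130) (@Lb.g g8 (@Lb.g g9 (@Lb.g g10 (@Lb.g g11 (@Lb.r r2691 (@Lb.r r2345 (@Lb.r r360 (@Lb.r r582 (@Lb.r r2180 (@Lb.d (nat_lit 641) (nat_lit 10) (nat_lit 89) (@Lb.fm (nat_lit 9) t242))))))))))))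
noncomputable def l4323 : Lb := (@Lb.d (nat_lit 0) (nat_lit 522) (nat_lit 0) (@Lb.g g9 (@Lb.d (nat_lit 0) (nat_lit 5) (nat_lit 128) (@Lb.t (@Lb.fp (nat_lit 3) t97)))))
noncomputable def l4324 : Lb := (@Lb.d (nat_lit 0) (nat_lit 10) (nat_lit 0) (@Lb.g g9 (@Lb.g g7 (@Lb.d (nat_lit 0) (nat_lit 5) (nat_lit 0) (@Lb.fp (nat_lit 3) t97)))))
noncomputable def l4325 : Lb := (@Lb.d (nat_lit 2) (nat_lit 265) (nat_lit 73) (@Lb.g g8 (@Lb.g g9 (@Lb.g g10 (@Lb.g g11 (@Lb.r r643 (@Lb.r r297 (@Lb.r r360 (@Lb.r r582 (@Lb.r r132 (@Lb.d (nat_lit 129) (nat_lit 10) (nat_lit 4) (@Lb.fm (nat_lit 9) t355))))))))))))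
noncomputable def l4326 : Lb := (@Lb.d (nat_lit 0) (nat_lit 2) (nat_lit 2) (@Lb.g g9 (@Lb.g g10 (@Lb.g g7 (@Lb.r r2466 (@Lb.r r145 (@Lb.d (nat_lit 0) (nat_lit 100) (nat_lit 528) (@Lb.t (@Lb.fm (nat_lit 9) t543)))))))))
noncomputable def l4327 : Lb := (@Lb.d (nat_lit 2) (nat_lit 521) (nat_lit 130) (@Lb.g g8 (@Lb.g g9 (@Lb.g g10 (@Lb.g g11 (@Lb.r r643 (@Lb.r r297 (@Lb.r r360 (@Lb.r r582 (@Lb.r r132 (@Lb.d (nat_lit 130) (nat_lit 10) (nat_lit 4) (@Lb.fm (nat_lit 9) t355))))))))))))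
noncomputable def l4328 : Lb := (@Lb.d (nat_lit 0) (nat_lit 585) (nat_lit 0) (@Lb.g g9 (@Lb.d (nat_lit 1) (nat_lit 73) (nat_lit 18) (@Lb.t (@Lb.fp (nat_lit 3) t743)))))
noncomputable def l4329 : Lb := (@Lb.r r82 (@Lb.r r275 (@Lb.d (nat_lit 8) (nat_lit 641) (nat_lit 0) (@Lb.g g8 (@Lb.g g5 (@Lb.r r291 (@Lb.r r98 (@Lb.r r2216 (@Lb.d (nat_lit 278) (nat_lit 134) (nat_lit 2) (@Lb.fm (nat_lit 3) t1364))))))))))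
noncomputable def l4330 : Lb := (@Lb.r r82 (@Lb.r r275 (@Lb.d (nat_lit 9) (nat_lit 129) (nat_lit 0) (@Lb.g g8 (@Lb.g g5 (@Lb.r r291 (@Lb.r r98 (@Lb.r r2216 (@Lb.d (nat_lit 276) (nat_lit 134) (nat_lit 2) (@Lb.fm (nat_lit 3) t273))))))))))
noncomputable def l4331 : Lb := (@Lb.r r70 (@Lb.r r263 (@Lb.d (nat_lit 4) (nat_lit 256) (nat_lit 0) (@Lb.g g8 (@Lb.g g9 (@Lb.r r1383 (@Lb.r r1192 (@Lb.r r2138 (@Lb.r r145 (@Lb.d (nat_lit 514) (nat_lit 68) (nat_lit 33) (@Lb.fp (nat_lit 3) t601)))))))))))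
noncomputable def l4332 : Lb := (@Lb.d (nat_lit 136) (nat_lit 264) (nat_lit 64) (@Lb.g g9 (@Lb.g g11 (@Lb.r r1176 (@Lb.r r2714 (@Lb.r r1411 (@Lb.r r1301 (@Lb.d (nat_lit 580) (nat_lit 84) (nat_lit 666) (@Lb.fm (nat_lit 3) t322)))))))))
noncomputable def l4333 : Lb := (@Lb.r r323 (@Lb.d (nat_lit 0) (nat_lit 262) (nat_lit 1) (@Lb.g g9 (@Lb.g g10 (@Lb.r r1299 (@Lb.r r2209 (@Lb.r r98 (@Lb.d (nat_lit 0) (nat_lit 66) (nat_lit 17) (@Lb.fp (nat_lit 3) t9)))))))))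
noncomputable def l4334 : Lb := (@Lb.r r82 (@Lb.r r275 (@Lb.d (nat_lit 0) (nat_lit 1) (nat_lit 0) (@Lb.g g9 (@Lb.r r291 (@Lb.r r98 (@Lb.d (nat_lit 0) (nat_lit 4) (nat_lit 1) (@Lb.t (@Lb.fp (nat_lit 3) t892)))))))))
noncomputable def l4335 : Lb := (@Lb.d (nat_lit 0) (nat_lit 261) (nat_lit 128) (@Lb.g g9 (@Lb.g g10 (@Lb.g g11 (@Lb.r r2659 (@Lb.r r166 (@Lb.r r2644 (@Lb.r r1321 (@Lb.d (nat_lit 130) (nat_lit 33) (nat_lit 320) (@Lb.t (@Lb.fp (nat_lit 9) t848)))))))))))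
noncomputable def l4336 : Lb := (@Lb.r r82 (@Lb.r r275 (@Lb.d (nat_lit 2) (nat_lit 1) (nat_lit 0) (@Lb.g g8 (@Lb.g g5 (@Lb.r r2315 (@Lb.r r2122 (@Lb.d (nat_lit 21) (nat_lit 8) (nat_lit 16) (@Lb.fp (nat_lit 3) t1365)))))))))
noncomputable def l4337 : Lb := (@Lb.d (nat_lit 9) (nat_lit 4) (nat_lit 128) (@Lb.g g8 (@Lb.g g9 (@Lb.g g10 (@Lb.g g11 (@Lb.r r1686 (@Lb.r r2404 (@Lb.r r619 (@Lb.r r609 (@Lb.d (nat_lit 9) (nat_lit 130) (nat_lit 586) (@Lb.fm (nat_lit 9) t582)))))))))))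
noncomputable def l4338 : Lb := (@Lb.d (nat_lit 9) (nat_lit 258) (nat_lit 130) (@Lb.g g8 (@Lb.g g9 (@Lb.g g10 (@Lb.g g11 (@Lb.r r1686 (@Lb.r r2404 (@Lb.r r619 (@Lb.r r609 (@Lb.d (nat_lit 9) (nat_lit 130) (nat_lit 586) (@Lb.fm (nat_lit 9) t1366)))))))))))
noncomputable def l4339 : Lb := (@Lb.d (nat_lit 674) (nat_lit 641) (nat_lit 274) (@Lb.r r1604 (@Lb.r r1639 (@Lb.r r1553 (@Lb.g g7 (@Lb.g g6 (@Lb.g g4 (@Lb.d (nat_lit 4) (nat_lit 4) (nat_lit 166) (@Lb.t (@Lb.fm (nat_lit 9) t843))))))))))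
noncomputable def l4340 : Lb := (@Lb.d (nat_lit 0) (nat_lit 514) (nat_lit 130) (@Lb.g g9 (@Lb.g g10 (@Lb.g g11 (@Lb.r r680 (@Lb.r r683 (@Lb.r r2666 (@Lb.r r2585 (@Lb.d (nat_lit 394) (nat_lit 169) (nat_lit 33) (@Lb.t (@Lb.fm (nat_lit 9) t430)))))))))))
noncomputable def l4341 : Lb := (@Lb.d (nat_lit 674) (nat_lit 129) (nat_lit 340) (@Lb.r r1604 (@Lb.r r1639 (@Lb.r r1553 (@Lb.g g7 (@Lb.g g6 (@Lb.g g4 (@Lb.d (nat_lit 5) (nat_lit 4) (nat_lit 166) (@Lb.t (@Lb.fm (nat_lit 9) t843))))))))))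
noncomputable def l4342 : Lb := (@Lb.d (nat_lit 512) (nat_lit 390) (nat_lit 152) (@Lb.r r24 (@Lb.r r97 (@Lb.r r386 (@Lb.r r1431 (@Lb.g g6 (@Lb.g g5 (@Lb.g g4 (@Lb.d (nat_lit 1) (nat_lit 1) (nat_lit 1) (@Lb.t (@Lb.fm (nat_lit 9) t1367)))))))))))
noncomputable def l4343 : Lb := (@Lb.d (nat_lit 129) (nat_lit 516) (nat_lit 74) (@Lb.g g8 (@Lb.g g9 (@Lb.g g10 (@Lb.g g11 (@Lb.r r683 (@Lb.r r2410 (@Lb.r r537 (@Lb.r r516 (@Lb.d (nat_lit 137) (nat_lit 89) (nat_lit 21) (@Lb.fm (nat_lit 9) t606)))))))))))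
noncomputable def l4344 : Lb := (@Lb.d (nat_lit 10) (nat_lit 512) (nat_lit 0) (@Lb.g g4 (@Lb.r r1065 (@Lb.r r2088 (@Lb.d (nat_lit 516) (nat_lit 1) (nat_lit 0) (@Lb.t (@Lb.fm (nat_lit 3) t2)))))))
noncomputable def l4345 : Lb := (@Lb.d (nat_lit 292) (nat_lit 66) (nat_lit 68) (@Lb.r r1094 (@Lb.r r2440 (@Lb.r r1367 (@Lb.g g7 (@Lb.g g6 (@Lb.g g5 (@Lb.g g4 (@Lb.d (nat_lit 1) (nat_lit 129) (nat_lit 134) (@Lb.fm (nat_lit 9) t1161))))))))))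
noncomputable def l4346 : Lb := (@Lb.d (nat_lit 2) (nat_lit 256) (nat_lit 0) (@Lb.g g8 (@Lb.r r2315 (@Lb.r r2345 (@Lb.r r2468 (@Lb.r r2150 (@Lb.d (nat_lit 0) (nat_lit 81) (nat_lit 420) (@Lb.t (@Lb.fm (nat_lit 3) t219)))))))))
noncomputable def l4347 : Lb := (@Lb.d (nat_lit 345) (nat_lit 133) (nat_lit 281) (@Lb.r r2312 (@Lb.r r1106 (@Lb.r r1623 (@Lb.g g6 (@Lb.g g5 (@Lb.g g4 (@Lb.d (nat_lit 65) (nat_lit 129) (nat_lit 1) (@Lb.r r387 (@Lb.t (@Lb.fp (nat_lit 9) t98)))))))))))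
noncomputable def l4348 : Lb := (@Lb.d (nat_lit 345) (nat_lit 389) (nat_lit 338) (@Lb.r r2312 (@Lb.r r1106 (@Lb.r r1623 (@Lb.g g6 (@Lb.g g5 (@Lb.g g4 (@Lb.d (nat_lit 66) (nat_lit 129) (nat_lit 1) (@Lb.r r387 (@Lb.t (@Lb.fp (nat_lit 9) t98)))))))))))
noncomputable def l4349 : Lb := (@Lb.d (nat_lit 2) (nat_lit 34) (nat_lit 130) (@Lb.g g8 (@Lb.g g9 (@Lb.g g10 (@Lb.g g11 (@Lb.r r1642 (@Lb.r r612 (@Lb.r r679 (@Lb.r r597 (@Lb.r r1060 (@Lb.d (nat_lit 409) (nat_lit 9) (nat_lit 612) (@Lb.fm (nat_lit 9) t1368))))))))))))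
noncomputable def l4350 : Lb := (@Lb.r r20 (@Lb.d (nat_lit 10) (nat_lit 256) (nat_lit 0) (@Lb.fp (nat_lit 1) t2)))
noncomputable def l4351 : Lb := (@Lb.d (nat_lit 2) (nat_lit 288) (nat_lit 130) (@Lb.g g8 (@Lb.g g9 (@Lb.g g10 (@Lb.g g11 (@Lb.r r1707 (@Lb.r r1386 (@Lb.r r2585 (@Lb.d (nat_lit 329) (nat_lit 9) (nat_lit 549) (@Lb.fm (nat_lit 9) t1047))))))))))
noncomputable def l4352 : Lb := (@Lb.d (nat_lit 2) (nat_lit 260) (nat_lit 138) (@Lb.g g8 (@Lb.g g9 (@Lb.g g10 (@Lb.g g11 (@Lb.r r683 (@Lb.r r2666 (@Lb.r r25 (@Lb.d (nat_lit 9) (nat_lit 89) (nat_lit 537) (@Lb.fm (nat_lit 9) t1369))))))))))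
noncomputable def l4353 : Lb := (@Lb.d (nat_lit 34) (nat_lit 2) (nat_lit 128) (@Lb.g g8 (@Lb.g g9 (@Lb.g g11 (@Lb.r r406 (@Lb.r r1643 (@Lb.r r97 (@Lb.r r1560 (@Lb.d (nat_lit 73) (nat_lit 105) (nat_lit 550) (@Lb.t (@Lb.fm (nat_lit 9) t564)))))))))))
noncomputable def l4354 : Lb := (@Lb.d (nat_lit 2) (nat_lit 545) (nat_lit 73) (@Lb.g g8 (@Lb.g g9 (@Lb.g g10 (@Lb.g g11 (@Lb.r r1386 (@Lb.r r1572 (@Lb.r r1639 (@Lb.r r1557 (@Lb.d (nat_lit 385) (nat_lit 102) (nat_lit 600) (@Lb.fm (nat_lit 9) t1368)))))))))))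
noncomputable def l4355 : Lb := (@Lb.d (nat_lit 2) (nat_lit 293) (nat_lit 74) (@Lb.g g8 (@Lb.g g9 (@Lb.g g10 (@Lb.g g11 (@Lb.r r1707 (@Lb.r r1386 (@Lb.r r2585 (@Lb.d (nat_lit 329) (nat_lit 9) (nat_lit 549) (@Lb.fm (nat_lit 9) t1370))))))))))
noncomputable def l4356 : Lb := (@Lb.d (nat_lit 2) (nat_lit 514) (nat_lit 130) (@Lb.g g8 (@Lb.g g9 (@Lb.g g10 (@Lb.g g11 (@Lb.r r427 (@Lb.r r297 (@Lb.r r104 (@Lb.r r70 (@Lb.r r132 (@Lb.d (nat_lit 9) (nat_lit 73) (nat_lit 329) (@Lb.fp (nat_lit 9) t119))))))))))))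
noncomputable def l4357 : Lb := (@Lb.d (nat_lit 2) (nat_lit 258) (nat_lit 130) (@Lb.g g8 (@Lb.g g9 (@Lb.g g10 (@Lb.g g11 (@Lb.r r427 (@Lb.r r297 (@Lb.r r104 (@Lb.r r70 (@Lb.r r132 (@Lb.d (nat_lit 9) (nat_lit 73) (nat_lit 393) (@Lb.fp (nat_lit 9) t51))))))))))))
noncomputable def l4358 : Lb := (@Lb.d (nat_lit 2) (nat_lit 516) (nat_lit 2) (@Lb.g g8 (@Lb.g g9 (@Lb.g g10 (@Lb.r r515 (@Lb.r r2154 (@Lb.r r25 (@Lb.d (nat_lit 9) (nat_lit 73) (nat_lit 102) (@Lb.t (@Lb.fp (nat_lit 9) t69))))))))))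
noncomputable def l4359 : Lb := (@Lb.d (nat_lit 2) (nat_lit 0) (nat_lit 130) (@Lb.g g8 (@Lb.g g9 (@Lb.g g10 (@Lb.g g11 (@Lb.r r2475 (@Lb.r r2345 (@Lb.r r104 (@Lb.r r70 (@Lb.r r132 (@Lb.d (nat_lit 9) (nat_lit 73) (nat_lit 153) (@Lb.fp (nat_lit 9) t51))))))))))))
noncomputable def l4360 : Lb := (@Lb.r r664 (@Lb.r r667 (@Lb.r r1690 (@Lb.r r1365 (@Lb.r r2212 (@Lb.d (nat_lit 0) (nat_lit 0) (nat_lit 640) (@Lb.fm (nat_lit 1) t322)))))))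
noncomputable def l4361 : Lb := (@Lb.r r21 (@Lb.d (nat_lit 2) (nat_lit 520) (nat_lit 130) (@Lb.g g8 (@Lb.g g10 (@Lb.g g11 (@Lb.r r2443 (@Lb.r r2345 (@Lb.r r2468 (@Lb.r r390 (@Lb.d (nat_lit 105) (nat_lit 130) (nat_lit 169) (@Lb.t (@Lb.fm (nat_lit 9) t295))))))))))))
noncomputable def l4362 : Lb := (@Lb.r r1045 (@Lb.d (nat_lit 512) (nat_lit 512) (nat_lit 0) (@Lb.fp (nat_lit 1) t2)))
noncomputable def l4363 : Lb := (@Lb.d (nat_lit 0) (nat_lit 512) (nat_lit 130) (@Lb.g g9 (@Lb.g g10 (@Lb.g g11 (@Lb.r r2659 (@Lb.r r166 (@Lb.r r2644 (@Lb.r r1321 (@Lb.d (nat_lit 130) (nat_lit 33) (nat_lit 320) (@Lb.t (@Lb.fp (nat_lit 9) t1371)))))))))))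
noncomputable def l4364 : Lb := (@Lb.r r81 (@Lb.r r323 (@Lb.d (nat_lit 138) (nat_lit 256) (nat_lit 2) (@Lb.g g8 (@Lb.g g6 (@Lb.r r661 (@Lb.r r343 (@Lb.r r676 (@Lb.d (nat_lit 170) (nat_lit 22) (nat_lit 85) (@Lb.fp (nat_lit 3) t875))))))))))
noncomputable def l4365 : Lb := (@Lb.d (nat_lit 128) (nat_lit 544) (nat_lit 136) (@Lb.g g11 (@Lb.r r420 (@Lb.r r2469 (@Lb.r r1446 (@Lb.r r347 (@Lb.d (nat_lit 297) (nat_lit 22) (nat_lit 518) (@Lb.t (@Lb.fp (nat_lit 3) t322)))))))))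
noncomputable def l4366 : Lb := (@Lb.d (nat_lit 1) (nat_lit 264) (nat_lit 2) (@Lb.r r89 (@Lb.r r106 (@Lb.r r612 (@Lb.r r599 (@Lb.g g7 (@Lb.g g5 (@Lb.d (nat_lit 0) (nat_lit 0) (nat_lit 64) (@Lb.r r98 (@Lb.fp (nat_lit 3) t1372))))))))))
noncomputable def l4367 : Lb := (@Lb.d (nat_lit 406) (nat_lit 134) (nat_lit 356) (@Lb.r r2438 (@Lb.r r1620 (@Lb.r r2345 (@Lb.r r1351 (@Lb.g g7 (@Lb.g g6 (@Lb.g g4 (@Lb.d (nat_lit 1) (nat_lit 4) (nat_lit 65) (@Lb.t (@Lb.fp (nat_lit 9) t284)))))))))))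
noncomputable def l4368 : Lb := (@Lb.r r81 (@Lb.r r323 (@Lb.d (nat_lit 138) (nat_lit 0) (nat_lit 2) (@Lb.g g8 (@Lb.g g6 (@Lb.r r661 (@Lb.r r343 (@Lb.r r676 (@Lb.d (nat_lit 170) (nat_lit 22) (nat_lit 137) (@Lb.fp (nat_lit 3) t50))))))))))
noncomputable def l4369 : Lb := (@Lb.d (nat_lit 0) (nat_lit 0) (nat_lit 130) (@Lb.g g10 (@Lb.g g11 (@Lb.r r642 (@Lb.r r387 (@Lb.d (nat_lit 0) (nat_lit 0) (nat_lit 146) (@Lb.fp (nat_lit 3) t2)))))))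
noncomputable def l4370 : Lb := (@Lb.r r322 (@Lb.d (nat_lit 34) (nat_lit 2) (nat_lit 136) (@Lb.g g8 (@Lb.g g9 (@Lb.g g7 (@Lb.r r361 (@Lb.r r150 (@Lb.r r104 (@Lb.d (nat_lit 100) (nat_lit 10) (nat_lit 9) (@Lb.t (@Lb.fm (nat_lit 9) t242)))))))))))
noncomputable def l4371 : Lb := (@Lb.d (nat_lit 160) (nat_lit 8) (nat_lit 130) (@Lb.g g10 (@Lb.g g11 (@Lb.r r264 (@Lb.r r359 (@Lb.r r357 (@Lb.r r598 (@Lb.d (nat_lit 85) (nat_lit 37) (nat_lit 128) (@Lb.fm (nat_lit 3) t312)))))))))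
noncomputable def l4372 : Lb := (@Lb.d (nat_lit 1) (nat_lit 66) (nat_lit 2) (@Lb.g g4 (@Lb.g g9 (@Lb.g g10 (@Lb.r r515 (@Lb.r r98 (@Lb.d (nat_lit 0) (nat_lit 9) (nat_lit 70) (@Lb.t (@Lb.fm (nat_lit 9) t71)))))))))
noncomputable def l4373 : Lb := (@Lb.r r81 (@Lb.g g10 (@Lb.g g7 (@Lb.r r1543 (@Lb.r r2392 (@Lb.r r1190 (@Lb.r r37 (@Lb.p (nat_lit 2) (@Lb.fp (nat_lit 3) t223)))))))))
noncomputable def l4374 : Lb := (@Lb.d (nat_lit 8) (nat_lit 546) (nat_lit 0) (@Lb.g g9 (@Lb.r r536 (@Lb.r r2715 (@Lb.r r2178 (@Lb.r r2469 (@Lb.d (nat_lit 64) (nat_lit 100) (nat_lit 682) (@Lb.t (@Lb.fp (nat_lit 3) t620)))))))))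
noncomputable def l4375 : Lb := (@Lb.r r81 (@Lb.g g10 (@Lb.r r647 (@Lb.r r2392 (@Lb.r r1190 (@Lb.r r37 (@Lb.d (nat_lit 0) (nat_lit 650) (nat_lit 18) (@Lb.t (@Lb.fp (nat_lit 3) t1373)))))))))
noncomputable def l4376 : Lb := (@Lb.d (nat_lit 0) (nat_lit 258) (nat_lit 0) (@Lb.g g9 (@Lb.g g10 (@Lb.g g11 (@Lb.r r679 (@Lb.r r1685 (@Lb.r r2404 (@Lb.r r1178 (@Lb.d (nat_lit 530) (nat_lit 138) (nat_lit 18) (@Lb.t (@Lb.fm (nat_lit 9) t1374)))))))))))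
noncomputable def l4377 : Lb := (@Lb.d (nat_lit 138) (nat_lit 512) (nat_lit 0) (@Lb.g g8 (@Lb.r r1621 (@Lb.r r2391 (@Lb.r r2178 (@Lb.r r1572 (@Lb.d (nat_lit 394) (nat_lit 153) (nat_lit 532) (@Lb.t (@Lb.fm (nat_lit 3) t100)))))))))
noncomputable def l4378 : Lb := (@Lb.d (nat_lit 130) (nat_lit 290) (nat_lit 0) (@Lb.g g8 (@Lb.g g9 (@Lb.r r2707 (@Lb.r r2178 (@Lb.r r341 (@Lb.r r2084 (@Lb.d (nat_lit 345) (nat_lit 66) (nat_lit 100) (@Lb.fm (nat_lit 3) t88)))))))))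
noncomputable def l4379 : Lb := (@Lb.d (nat_lit 646) (nat_lit 86) (nat_lit 165) (@Lb.r r275 (@Lb.r r601 (@Lb.r r24 (@Lb.g g7 (@Lb.g g10 (@Lb.g g5 (@Lb.d (nat_lit 68) (nat_lit 1) (nat_lit 81) (@Lb.t (@Lb.fp (nat_lit 9) t245))))))))))
noncomputable def l4380 : Lb := (@Lb.d (nat_lit 5) (nat_lit 262) (nat_lit 1) (@Lb.fp (nat_lit 1) t45))
noncomputable def l4381 : Lb := (@Lb.r r82 (@Lb.d (nat_lit 0) (nat_lit 512) (nat_lit 580) (@Lb.g g9 (@Lb.g g7 (@Lb.r r422 (@Lb.r r596 (@Lb.r r297 (@Lb.d (nat_lit 256) (nat_lit 162) (nat_lit 0) (@Lb.fp (nat_lit 3) t799)))))))))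
noncomputable def l4382 : Lb := (@Lb.d (nat_lit 0) (nat_lit 512) (nat_lit 10) (@Lb.g g10 (@Lb.r r2449 (@Lb.d (nat_lit 0) (nat_lit 0) (nat_lit 546) (@Lb.t (@Lb.fp (nat_lit 3) t1375))))))
noncomputable def l4383 : Lb := (@Lb.d (nat_lit 2) (nat_lit 258) (nat_lit 128) (@Lb.g g8 (@Lb.g g9 (@Lb.g g11 (@Lb.r r2379 (@Lb.r r1634 (@Lb.r r97 (@Lb.r r24 (@Lb.d (nat_lit 74) (nat_lit 132) (nat_lit 614) (@Lb.t (@Lb.fm (nat_lit 9) t1376)))))))))))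
noncomputable def l4384 : Lb := (@Lb.d (nat_lit 2) (nat_lit 2) (nat_lit 128) (@Lb.g g8 (@Lb.g g9 (@Lb.g g11 (@Lb.r r2379 (@Lb.r r1634 (@Lb.r r97 (@Lb.r r24 (@Lb.d (nat_lit 72) (nat_lit 132) (nat_lit 614) (@Lb.t (@Lb.fm (nat_lit 9) t1376)))))))))))
noncomputable def l4385 : Lb := (@Lb.d (nat_lit 2) (nat_lit 546) (nat_lit 130) (@Lb.g g8 (@Lb.g g9 (@Lb.g g10 (@Lb.g g11 (@Lb.r r387 (@Lb.r r2581 (@Lb.r r2468 (@Lb.r r2438 (@Lb.d (nat_lit 337) (nat_lit 0) (nat_lit 137) (@Lb.fm (nat_lit 9) t1377)))))))))))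
noncomputable def l4386 : Lb := (@Lb.g g5 (@Lb.r r1297 (@Lb.d (nat_lit 0) (nat_lit 256) (nat_lit 576) (@Lb.t (@Lb.fm (nat_lit 3) t1378)))))
noncomputable def l4387 : Lb := (@Lb.d (nat_lit 0) (nat_lit 34) (nat_lit 130) (@Lb.g g9 (@Lb.g g10 (@Lb.g g11 (@Lb.r r387 (@Lb.r r161 (@Lb.r r1442 (@Lb.r r2193 (@Lb.d (nat_lit 0) (nat_lit 1) (nat_lit 344) (@Lb.t (@Lb.fm (nat_lit 9) t1379)))))))))))
noncomputable def l4388 : Lb := (@Lb.r r323 (@Lb.d (nat_lit 8) (nat_lit 42) (nat_lit 2) (@Lb.g g9 (@Lb.g g10 (@Lb.r r2470 (@Lb.r r1624 (@Lb.r r1691 (@Lb.r r2469 (@Lb.d (nat_lit 617) (nat_lit 102) (nat_lit 682) (@Lb.fm (nat_lit 3) t525))))))))))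
noncomputable def l4389 : Lb := (@Lb.d (nat_lit 2) (nat_lit 9) (nat_lit 137) (@Lb.g g8 (@Lb.g g9 (@Lb.g g10 (@Lb.g g11 (@Lb.r r2467 (@Lb.r r297 (@Lb.r r2408 (@Lb.r r1606 (@Lb.d (nat_lit 81) (nat_lit 0) (nat_lit 416) (@Lb.fp (nat_lit 9) t644)))))))))))
noncomputable def l4390 : Lb := (@Lb.d (nat_lit 8) (nat_lit 290) (nat_lit 0) (@Lb.g g9 (@Lb.r r536 (@Lb.r r2715 (@Lb.r r2178 (@Lb.r r2469 (@Lb.d (nat_lit 74) (nat_lit 34) (nat_lit 681) (@Lb.t (@Lb.fp (nat_lit 3) t64)))))))))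
noncomputable def l4391 : Lb := (@Lb.d (nat_lit 8) (nat_lit 545) (nat_lit 0) (@Lb.g g9 (@Lb.r r2587 (@Lb.r r2178 (@Lb.r r600 (@Lb.r r341 (@Lb.d (nat_lit 86) (nat_lit 24) (nat_lit 409) (@Lb.t (@Lb.fm (nat_lit 3) t100)))))))))
noncomputable def l4392 : Lb := (@Lb.d (nat_lit 106) (nat_lit 346) (nat_lit 601) (@Lb.r r408 (@Lb.r r2145 (@Lb.r r583 (@Lb.g g6 (@Lb.g g4 (@Lb.d (nat_lit 65) (nat_lit 4) (nat_lit 17) (@Lb.r r387 (@Lb.fp (nat_lit 3) t68)))))))))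
noncomputable def l4393 : Lb := (@Lb.r r323 (@Lb.d (nat_lit 10) (nat_lit 520) (nat_lit 34) (@Lb.g g8 (@Lb.g g10 (@Lb.r r2577 (@Lb.r r2459 (@Lb.r r2436 (@Lb.d (nat_lit 336) (nat_lit 0) (nat_lit 680) (@Lb.fm (nat_lit 3) t221)))))))))
noncomputable def l4394 : Lb := (@Lb.d (nat_lit 1) (nat_lit 384) (nat_lit 0) (@Lb.r r37 (@Lb.r r88 (@Lb.r r70 (@Lb.r r1347 (@Lb.g g6 (@Lb.r r387 (@Lb.r r145 (@Lb.t (@Lb.fm (nat_lit 3) t718))))))))))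
noncomputable def l4395 : Lb := (@Lb.d (nat_lit 8) (nat_lit 514) (nat_lit 0) (@Lb.g g9 (@Lb.r r402 (@Lb.r r579 (@Lb.d (nat_lit 2) (nat_lit 16) (nat_lit 64) (@Lb.t (@Lb.fp (nat_lit 3) t51)))))))
noncomputable def l4396 : Lb := (@Lb.r r134 (@Lb.r r328 (@Lb.r r407 (@Lb.r r609 (@Lb.d (nat_lit 0) (nat_lit 641) (nat_lit 68) (@Lb.fm (nat_lit 1) t71))))))
noncomputable def l4397 : Lb := (@Lb.d (nat_lit 256) (nat_lit 274) (nat_lit 86) (@Lb.r r418 (@Lb.r r1433 (@Lb.r r1304 (@Lb.r r2731 (@Lb.g g7 (@Lb.g g6 (@Lb.g g5 (@Lb.d (nat_lit 16) (nat_lit 5) (nat_lit 65) (@Lb.t (@Lb.fm (nat_lit 9) t308)))))))))))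
noncomputable def l4398 : Lb := (@Lb.d (nat_lit 580) (nat_lit 409) (nat_lit 329) (@Lb.r r2409 (@Lb.r r1691 (@Lb.r r1624 (@Lb.r r2470 (@Lb.g g6 (@Lb.g g5 (@Lb.d (nat_lit 4) (nat_lit 16) (nat_lit 1) (@Lb.fm (nat_lit 3) t588)))))))))
noncomputable def l4399 : Lb := (@Lb.d (nat_lit 582) (nat_lit 665) (nat_lit 329) (@Lb.r r2409 (@Lb.r r1691 (@Lb.r r1624 (@Lb.r r2470 (@Lb.g g6 (@Lb.g g5 (@Lb.d (nat_lit 4) (nat_lit 16) (nat_lit 1) (@Lb.fm (nat_lit 3) t588)))))))))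
noncomputable def l4400 : Lb := (@Lb.r r1319 (@Lb.r r1126 (@Lb.r r24 (@Lb.d (nat_lit 536) (nat_lit 256) (nat_lit 32) (@Lb.fm (nat_lit 1) t396)))))
noncomputable def l4401 : Lb := (@Lb.d (nat_lit 514) (nat_lit 5) (nat_lit 33) (@Lb.r r154 (@Lb.r r660 (@Lb.r r407 (@Lb.r r609 (@Lb.g g6 (@Lb.t (@Lb.fm (nat_lit 3) t654))))))))
noncomputable def l4402 : Lb := (@Lb.r r323 (@Lb.d (nat_lit 8) (nat_lit 2) (nat_lit 10) (@Lb.g g9 (@Lb.g g10 (@Lb.r r595 (@Lb.r r338 (@Lb.d (nat_lit 2) (nat_lit 4) (nat_lit 70) (@Lb.fp (nat_lit 3) t51))))))))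
noncomputable def l4403 : Lb := (@Lb.d (nat_lit 144) (nat_lit 593) (nat_lit 641) (@Lb.r r289 (@Lb.r r70 (@Lb.r r420 (@Lb.g g11 (@Lb.g g6 (@Lb.d (nat_lit 16) (nat_lit 0) (nat_lit 72) (@Lb.fm (nat_lit 3) t1380))))))))
noncomputable def l4404 : Lb := (@Lb.r r323 (@Lb.d (nat_lit 2) (nat_lit 546) (nat_lit 2) (@Lb.g g8 (@Lb.g g9 (@Lb.g g10 (@Lb.r r599 (@Lb.r r392 (@Lb.r r74 (@Lb.d (nat_lit 290) (nat_lit 2) (nat_lit 168) (@Lb.t (@Lb.fm (nat_lit 9) t61)))))))))))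
noncomputable def l4405 : Lb := (@Lb.d (nat_lit 530) (nat_lit 5) (nat_lit 18) (@Lb.r r1158 (@Lb.r r2132 (@Lb.r r2345 (@Lb.r r2707 (@Lb.g g7 (@Lb.g g6 (@Lb.g g4 (@Lb.d (nat_lit 2) (nat_lit 0) (nat_lit 133) (@Lb.t (@Lb.fm (nat_lit 9) t873)))))))))))
noncomputable def l4406 : Lb := (@Lb.r r2069 (@Lb.r r2118 (@Lb.r r2311 (@Lb.d (nat_lit 549) (nat_lit 512) (nat_lit 0) (@Lb.g g4 (@Lb.d (nat_lit 1) (nat_lit 128) (nat_lit 16) (@Lb.t (@Lb.fm (nat_lit 3) t1381))))))))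
noncomputable def l4407 : Lb := (@Lb.r r323 (@Lb.d (nat_lit 2) (nat_lit 265) (nat_lit 2) (@Lb.g g8 (@Lb.g g9 (@Lb.g g10 (@Lb.r r427 (@Lb.r r106 (@Lb.r r25 (@Lb.d (nat_lit 282) (nat_lit 4) (nat_lit 34) (@Lb.t (@Lb.fm (nat_lit 9) t1382)))))))))))
noncomputable def l4408 : Lb := (@Lb.r r70 (@Lb.r r263 (@Lb.d (nat_lit 522) (nat_lit 1) (nat_lit 0) (@Lb.g g8 (@Lb.g g9 (@Lb.r r153 (@Lb.r r402 (@Lb.r r2627 (@Lb.d (nat_lit 646) (nat_lit 1) (nat_lit 384) (@Lb.fm (nat_lit 3) t1383))))))))))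
noncomputable def l4409 : Lb := (@Lb.d (nat_lit 264) (nat_lit 8) (nat_lit 16) (@Lb.r r154 (@Lb.r r660 (@Lb.r r1621 (@Lb.r r2727 (@Lb.g g7 (@Lb.g g6 (@Lb.g g5 (@Lb.d (nat_lit 0) (nat_lit 5) (nat_lit 65) (@Lb.t (@Lb.fp (nat_lit 9) t1384)))))))))))
noncomputable def l4410 : Lb := (@Lb.d (nat_lit 2) (nat_lit 266) (nat_lit 0) (@Lb.g g8 (@Lb.g g9 (@Lb.r r134 (@Lb.r r328 (@Lb.r r599 (@Lb.r r417 (@Lb.d (nat_lit 0) (nat_lit 128) (nat_lit 137) (@Lb.fm (nat_lit 3) t119)))))))))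
noncomputable def l4411 : Lb := (@Lb.d (nat_lit 0) (nat_lit 520) (nat_lit 130) (@Lb.g g10 (@Lb.g g11 (@Lb.r r387 (@Lb.d (nat_lit 0) (nat_lit 9) (nat_lit 136) (@Lb.fm (nat_lit 3) t51))))))
noncomputable def l4412 : Lb := (@Lb.d (nat_lit 0) (nat_lit 260) (nat_lit 1) (@Lb.g g10 (@Lb.d (nat_lit 0) (nat_lit 8) (nat_lit 2) (@Lb.t (@Lb.fp (nat_lit 3) t134)))))
noncomputable def l4413 : Lb := (@Lb.d (nat_lit 133) (nat_lit 70) (nat_lit 2) (@Lb.r r293 (@Lb.r r600 (@Lb.r r603 (@Lb.g g6 (@Lb.g g5 (@Lb.d (nat_lit 20) (nat_lit 17) (nat_lit 1) (@Lb.r r387 (@Lb.fp (nat_lit 3) t68)))))))))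
noncomputable def l4414 : Lb := (@Lb.d (nat_lit 0) (nat_lit 266) (nat_lit 0) (@Lb.g g9 (@Lb.d (nat_lit 0) (nat_lit 5) (nat_lit 0) (@Lb.t (@Lb.fp (nat_lit 3) t97)))))
noncomputable def l4415 : Lb := (@Lb.d (nat_lit 578) (nat_lit 145) (nat_lit 400) (@Lb.r r82 (@Lb.r r595 (@Lb.r r1429 (@Lb.g g5 (@Lb.g g4 (@Lb.d (nat_lit 1) (nat_lit 1) (nat_lit 0) (@Lb.r r98 (@Lb.fp (nat_lit 3) t647)))))))))
noncomputable def l4416 : Lb := (@Lb.d (nat_lit 4) (nat_lit 518) (nat_lit 0) (@Lb.g g9 (@Lb.r r1319 (@Lb.r r1126 (@Lb.d (nat_lit 290) (nat_lit 70) (nat_lit 33) (@Lb.t (@Lb.fp (nat_lit 3) t1385)))))))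
noncomputable def l4417 : Lb := (@Lb.r r323 (@Lb.d (nat_lit 1) (nat_lit 2) (nat_lit 0) (@Lb.g g8 (@Lb.g g9 (@Lb.g g10 (@Lb.r r1319 (@Lb.r r1109 (@Lb.r r98 (@Lb.r r2200 (@Lb.d (nat_lit 544) (nat_lit 132) (nat_lit 17) (@Lb.t (@Lb.fp (nat_lit 9) t219))))))))))))
noncomputable def l4418 : Lb := (@Lb.r r323 (@Lb.d (nat_lit 0) (nat_lit 258) (nat_lit 0) (@Lb.g g9 (@Lb.g g10 (@Lb.r r1323 (@Lb.r r1113 (@Lb.r r98 (@Lb.d (nat_lit 545) (nat_lit 66) (nat_lit 32) (@Lb.fm (nat_lit 3) t216)))))))))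
noncomputable def l4419 : Lb := (@Lb.d (nat_lit 41) (nat_lit 260) (nat_lit 17) (@Lb.r r2182 (@Lb.r r1352 (@Lb.r r2455 (@Lb.r r545 (@Lb.g g6 (@Lb.r r145 (@Lb.t (@Lb.fp (nat_lit 3) t588)))))))))
noncomputable def l4420 : Lb := (@Lb.d (nat_lit 9) (nat_lit 6) (nat_lit 128) (@Lb.g g8 (@Lb.g g9 (@Lb.g g10 (@Lb.g g11 (@Lb.r r289 (@Lb.r r2707 (@Lb.r r132 (@Lb.r r582 (@Lb.r r2180 (@Lb.d (nat_lit 265) (nat_lit 2) (nat_lit 330) (@Lb.fp (nat_lit 9) t68))))))))))))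
noncomputable def l4421 : Lb := (@Lb.d (nat_lit 34) (nat_lit 2) (nat_lit 32) (@Lb.r r89 (@Lb.r r1126 (@Lb.r r1319 (@Lb.g g4 (@Lb.d (nat_lit 1) (nat_lit 0) (nat_lit 0) (@Lb.t (@Lb.fm (nat_lit 3) t1386))))))))
noncomputable def l4422 : Lb := (@Lb.d (nat_lit 8) (nat_lit 258) (nat_lit 0) (@Lb.g g9 (@Lb.r r402 (@Lb.r r2631 (@Lb.d (nat_lit 522) (nat_lit 80) (nat_lit 0) (@Lb.t (@Lb.fp (nat_lit 3) t1387)))))))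
noncomputable def l4423 : Lb := (@Lb.r r323 (@Lb.d (nat_lit 8) (nat_lit 514) (nat_lit 10) (@Lb.g g9 (@Lb.g g10 (@Lb.r r2647 (@Lb.r r1370 (@Lb.d (nat_lit 96) (nat_lit 4) (nat_lit 598) (@Lb.fp (nat_lit 3) t899))))))))
noncomputable def l4424 : Lb := (@Lb.r r323 (@Lb.g g9 (@Lb.g g10 (@Lb.r r419 (@Lb.r r98 (@Lb.d (nat_lit 0) (nat_lit 521) (nat_lit 2) (@Lb.fm (nat_lit 3) t51)))))))
noncomputable def l4425 : Lb := (@Lb.d (nat_lit 2) (nat_lit 0) (nat_lit 0) (@Lb.g g8 (@Lb.g g5 (@Lb.r r2331 (@Lb.r r24 (@Lb.d (nat_lit 266) (nat_lit 0) (nat_lit 64) (@Lb.fm (nat_lit 3) t1165)))))))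
noncomputable def l4426 : Lb := (@Lb.r r275 (@Lb.d (nat_lit 2) (nat_lit 514) (nat_lit 2) (@Lb.g g8 (@Lb.g g9 (@Lb.g g10 (@Lb.r r2603 (@Lb.r r386 (@Lb.r r609 (@Lb.r r24 (@Lb.d (nat_lit 266) (nat_lit 25) (nat_lit 137) (@Lb.t (@Lb.fm (nat_lit 9) t1388))))))))))))
noncomputable def l4427 : Lb := (@Lb.r r322 (@Lb.d (nat_lit 2) (nat_lit 545) (nat_lit 516) (@Lb.g g8 (@Lb.g g9 (@Lb.g g7 (@Lb.r r418 (@Lb.r r296 (@Lb.r r409 (@Lb.d (nat_lit 150) (nat_lit 164) (nat_lit 521) (@Lb.t (@Lb.fp (nat_lit 9) t1234)))))))))))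
noncomputable def l4428 : Lb := (@Lb.d (nat_lit 2) (nat_lit 521) (nat_lit 65) (@Lb.g g8 (@Lb.g g9 (@Lb.g g10 (@Lb.g g7 (@Lb.r r386 (@Lb.r r97 (@Lb.r r24 (@Lb.d (nat_lit 330) (nat_lit 9) (nat_lit 521) (@Lb.fp (nat_lit 9) t80))))))))))
noncomputable def l4429 : Lb := (@Lb.r r323 (@Lb.d (nat_lit 2) (nat_lit 553) (nat_lit 2) (@Lb.g g8 (@Lb.g g9 (@Lb.g g10 (@Lb.r r2474 (@Lb.r r2468 (@Lb.r r1307 (@Lb.r r2661 (@Lb.d (nat_lit 658) (nat_lit 88) (nat_lit 325) (@Lb.t (@Lb.fm (nat_lit 9) t255))))))))))))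
noncomputable def l4430 : Lb := (@Lb.d (nat_lit 273) (nat_lit 261) (nat_lit 18) (@Lb.r r146 (@Lb.r r2149 (@Lb.r r1304 (@Lb.r r2727 (@Lb.g g7 (@Lb.g g5 (@Lb.r r578 (@Lb.fm (nat_lit 3) t587)))))))))
noncomputable def l4431 : Lb := (@Lb.d (nat_lit 274) (nat_lit 5) (nat_lit 18) (@Lb.r r146 (@Lb.r r2149 (@Lb.r r1304 (@Lb.r r2727 (@Lb.g g7 (@Lb.g g5 (@Lb.r r578 (@Lb.fm (nat_lit 3) t587)))))))))
noncomputable def l4432 : Lb := (@Lb.d (nat_lit 262) (nat_lit 522) (nat_lit 16) (@Lb.r r154 (@Lb.r r660 (@Lb.r r1621 (@Lb.r r2727 (@Lb.g g7 (@Lb.g g6 (@Lb.g g5 (@Lb.d (nat_lit 0) (nat_lit 5) (nat_lit 8) (@Lb.t (@Lb.fp (nat_lit 9) t1384)))))))))))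
noncomputable def l4433 : Lb := (@Lb.d (nat_lit 0) (nat_lit 9) (nat_lit 130) (@Lb.g g9 (@Lb.g g10 (@Lb.g g11 (@Lb.r r387 (@Lb.r r145 (@Lb.r r402 (@Lb.d (nat_lit 0) (nat_lit 21) (nat_lit 84) (@Lb.t (@Lb.fp (nat_lit 9) t150))))))))))
noncomputable def l4434 : Lb := (@Lb.r r82 (@Lb.d (nat_lit 0) (nat_lit 384) (nat_lit 136) (@Lb.g g9 (@Lb.g g11 (@Lb.r r402 (@Lb.r r611 (@Lb.d (nat_lit 0) (nat_lit 89) (nat_lit 74) (@Lb.fm (nat_lit 3) t1389))))))))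
noncomputable def l4435 : Lb := (@Lb.d (nat_lit 133) (nat_lit 582) (nat_lit 68) (@Lb.r r293 (@Lb.r r600 (@Lb.r r603 (@Lb.g g6 (@Lb.g g5 (@Lb.d (nat_lit 20) (nat_lit 17) (nat_lit 1) (@Lb.r r387 (@Lb.fp (nat_lit 3) t68)))))))))
noncomputable def l4436 : Lb := (@Lb.r r82 (@Lb.d (nat_lit 0) (nat_lit 512) (nat_lit 580) (@Lb.g g9 (@Lb.g g7 (@Lb.r r422 (@Lb.r r596 (@Lb.r r297 (@Lb.d (nat_lit 256) (nat_lit 33) (nat_lit 0) (@Lb.fp (nat_lit 3) t512)))))))))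
noncomputable def l4437 : Lb := (@Lb.d (nat_lit 2) (nat_lit 256) (nat_lit 0) (@Lb.g g8 (@Lb.r r101 (@Lb.r r402 (@Lb.d (nat_lit 256) (nat_lit 164) (nat_lit 682) (@Lb.t (@Lb.fp (nat_lit 3) t652)))))))
noncomputable def l4438 : Lb := (@Lb.r r82 (@Lb.r r275 (@Lb.d (nat_lit 34) (nat_lit 642) (nat_lit 0) (@Lb.g g8 (@Lb.g g5 (@Lb.r r2579 (@Lb.r r582 (@Lb.r r388 (@Lb.d (nat_lit 100) (nat_lit 80) (nat_lit 138) (@Lb.fm (nat_lit 3) t1390))))))))))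
noncomputable def l4439 : Lb := (@Lb.r r82 (@Lb.d (nat_lit 0) (nat_lit 618) (nat_lit 64) (@Lb.g g9 (@Lb.g g11 (@Lb.r r615 (@Lb.r r1434 (@Lb.r r1432 (@Lb.d (nat_lit 512) (nat_lit 4) (nat_lit 34) (@Lb.fp (nat_lit 3) t1391)))))))))
noncomputable def l4440 : Lb := (@Lb.d (nat_lit 4) (nat_lit 546) (nat_lit 4) (@Lb.g g8 (@Lb.g g9 (@Lb.g g10 (@Lb.g g11 (@Lb.r r1706 (@Lb.r r676 (@Lb.r r551 (@Lb.r r533 (@Lb.r r1060 (@Lb.d (nat_lit 393) (nat_lit 1) (nat_lit 640) (@Lb.fp (nat_lit 9) t74))))))))))))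
noncomputable def l4441 : Lb := (@Lb.r r82 (@Lb.d (nat_lit 2) (nat_lit 514) (nat_lit 0) (@Lb.g g8 (@Lb.g g9 (@Lb.g g11 (@Lb.r r1642 (@Lb.r r1633 (@Lb.d (nat_lit 100) (nat_lit 90) (nat_lit 154) (@Lb.t (@Lb.fp (nat_lit 9) t1392))))))))))
noncomputable def l4442 : Lb := (@Lb.r r82 (@Lb.d (nat_lit 0) (nat_lit 362) (nat_lit 64) (@Lb.g g9 (@Lb.g g11 (@Lb.r r615 (@Lb.r r1434 (@Lb.r r1432 (@Lb.d (nat_lit 517) (nat_lit 5) (nat_lit 34) (@Lb.fp (nat_lit 3) t1393)))))))))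
noncomputable def l4443 : Lb := (@Lb.r r323 (@Lb.d (nat_lit 129) (nat_lit 265) (nat_lit 2) (@Lb.g g8 (@Lb.g g9 (@Lb.g g10 (@Lb.r r674 (@Lb.r r391 (@Lb.r r1561 (@Lb.r r1540 (@Lb.d (nat_lit 138) (nat_lit 65) (nat_lit 585) (@Lb.t (@Lb.fp (nat_lit 9) t85))))))))))))
noncomputable def l4444 : Lb := (@Lb.r r323 (@Lb.d (nat_lit 130) (nat_lit 521) (nat_lit 2) (@Lb.g g8 (@Lb.g g9 (@Lb.g g10 (@Lb.r r674 (@Lb.r r391 (@Lb.r r1561 (@Lb.r r1540 (@Lb.d (nat_lit 138) (nat_lit 65) (nat_lit 642) (@Lb.t (@Lb.fp (nat_lit 9) t85))))))))))))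
noncomputable def l4445 : Lb := (@Lb.d (nat_lit 2) (nat_lit 514) (nat_lit 2) (@Lb.g g8 (@Lb.g g9 (@Lb.g g10 (@Lb.r r1689 (@Lb.r r1691 (@Lb.r r1610 (@Lb.d (nat_lit 336) (nat_lit 0) (nat_lit 649) (@Lb.t (@Lb.fp (nat_lit 9) t1394))))))))))
noncomputable def l4446 : Lb := (@Lb.r r21 (@Lb.r r70 (@Lb.r r263 (@Lb.g g8 (@Lb.r r267 (@Lb.r r74 (@Lb.r r25 (@Lb.d (nat_lit 272) (nat_lit 10) (nat_lit 18) (@Lb.t (@Lb.fp (nat_lit 3) t1395))))))))))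
noncomputable def l4447 : Lb := (@Lb.r r323 (@Lb.d (nat_lit 128) (nat_lit 9) (nat_lit 17) (@Lb.g g8 (@Lb.g g9 (@Lb.g g10 (@Lb.r r2345 (@Lb.r r1431 (@Lb.r r2660 (@Lb.d (nat_lit 666) (nat_lit 90) (nat_lit 342) (@Lb.t (@Lb.fp (nat_lit 9) t204)))))))))))
noncomputable def l4448 : Lb := (@Lb.d (nat_lit 34) (nat_lit 256) (nat_lit 136) (@Lb.g g8 (@Lb.g g11 (@Lb.r r1173 (@Lb.r r150 (@Lb.r r356 (@Lb.r r1291 (@Lb.d (nat_lit 0) (nat_lit 160) (nat_lit 356) (@Lb.fp (nat_lit 3) t322)))))))))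
noncomputable def l4449 : Lb := (@Lb.d (nat_lit 136) (nat_lit 512) (nat_lit 64) (@Lb.g g9 (@Lb.g g11 (@Lb.r r152 (@Lb.r r2405 (@Lb.r r2387 (@Lb.r r2178 (@Lb.d (nat_lit 98) (nat_lit 153) (nat_lit 82) (@Lb.fp (nat_lit 3) t229)))))))))
noncomputable def l4450 : Lb := (@Lb.d (nat_lit 2) (nat_lit 258) (nat_lit 130) (@Lb.g g8 (@Lb.g g9 (@Lb.g g10 (@Lb.g g11 (@Lb.r r2691 (@Lb.r r297 (@Lb.r r360 (@Lb.r r582 (@Lb.r r2180 (@Lb.d (nat_lit 642) (nat_lit 0) (nat_lit 361) (@Lb.fm (nat_lit 9) t1396))))))))))))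
noncomputable def l4451 : Lb := (@Lb.d (nat_lit 0) (nat_lit 512) (nat_lit 136) (@Lb.g g11 (@Lb.r r1617 (@Lb.r r354 (@Lb.r r1427 (@Lb.d (nat_lit 0) (nat_lit 80) (nat_lit 408) (@Lb.t (@Lb.fp (nat_lit 3) t124))))))))
noncomputable def l4452 : Lb := (@Lb.d (nat_lit 0) (nat_lit 288) (nat_lit 136) (@Lb.g g11 (@Lb.r r409 (@Lb.r r2458 (@Lb.r r2407 (@Lb.r r24 (@Lb.d (nat_lit 32) (nat_lit 0) (nat_lit 422) (@Lb.t (@Lb.fp (nat_lit 3) t1261)))))))))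
noncomputable def l4453 : Lb := (@Lb.r r338 (@Lb.d (nat_lit 0) (nat_lit 361) (nat_lit 136) (@Lb.g g5 (@Lb.g g11 (@Lb.r r354 (@Lb.r r387 (@Lb.d (nat_lit 0) (nat_lit 145) (nat_lit 133) (@Lb.fp (nat_lit 3) t144))))))))
noncomputable def l4454 : Lb := (@Lb.d (nat_lit 128) (nat_lit 32) (nat_lit 136) (@Lb.g g11 (@Lb.r r420 (@Lb.r r2469 (@Lb.r r1446 (@Lb.r r347 (@Lb.d (nat_lit 297) (nat_lit 22) (nat_lit 646) (@Lb.t (@Lb.fp (nat_lit 3) t322)))))))))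
noncomputable def l4455 : Lb := (@Lb.d (nat_lit 65) (nat_lit 677) (nat_lit 518) (@Lb.r r68 (@Lb.r r74 (@Lb.r r104 (@Lb.r r297 (@Lb.g g11 (@Lb.g g6 (@Lb.g g5 (@Lb.g g4 (@Lb.d (nat_lit 0) (nat_lit 1) (nat_lit 1) (@Lb.fm (nat_lit 9) t275)))))))))))
noncomputable def l4456 : Lb := (@Lb.r r323 (@Lb.d (nat_lit 8) (nat_lit 288) (nat_lit 10) (@Lb.g g9 (@Lb.g g10 (@Lb.r r1624 (@Lb.r r1691 (@Lb.r r2469 (@Lb.d (nat_lit 72) (nat_lit 102) (nat_lit 665) (@Lb.fp (nat_lit 3) t307)))))))))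
noncomputable def l4457 : Lb := (@Lb.d (nat_lit 8) (nat_lit 34) (nat_lit 0) (@Lb.g g9 (@Lb.r r536 (@Lb.r r2715 (@Lb.r r2178 (@Lb.r r2469 (@Lb.d (nat_lit 74) (nat_lit 36) (nat_lit 682) (@Lb.t (@Lb.fp (nat_lit 3) t64)))))))))
noncomputable def l4458 : Lb := (@Lb.d (nat_lit 8) (nat_lit 34) (nat_lit 0) (@Lb.g g5 (@Lb.r r680 (@Lb.r r2667 (@Lb.r r2178 (@Lb.r r2713 (@Lb.d (nat_lit 133) (nat_lit 22) (nat_lit 618) (@Lb.t (@Lb.fp (nat_lit 3) t229)))))))))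
noncomputable def l4459 : Lb := (@Lb.d (nat_lit 0) (nat_lit 292) (nat_lit 128) (@Lb.g g9 (@Lb.g g10 (@Lb.g g11 (@Lb.r r387 (@Lb.r r161 (@Lb.r r1442 (@Lb.r r2193 (@Lb.d (nat_lit 0) (nat_lit 1) (nat_lit 408) (@Lb.t (@Lb.fm (nat_lit 9) t917)))))))))))
noncomputable def l4460 : Lb := (@Lb.d (nat_lit 0) (nat_lit 34) (nat_lit 130) (@Lb.g g9 (@Lb.g g10 (@Lb.g g11 (@Lb.r r419 (@Lb.r r386 (@Lb.r r2145 (@Lb.d (nat_lit 0) (nat_lit 8) (nat_lit 553) (@Lb.t (@Lb.fm (nat_lit 9) t306))))))))))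
noncomputable def l4461 : Lb := (@Lb.d (nat_lit 8) (nat_lit 290) (nat_lit 0) (@Lb.g g5 (@Lb.r r680 (@Lb.r r2667 (@Lb.r r2178 (@Lb.r r2713 (@Lb.d (nat_lit 133) (nat_lit 17) (nat_lit 617) (@Lb.t (@Lb.fp (nat_lit 3) t229)))))))))
noncomputable def l4462 : Lb := (@Lb.d (nat_lit 0) (nat_lit 290) (nat_lit 130) (@Lb.g g9 (@Lb.g g10 (@Lb.g g11 (@Lb.r r419 (@Lb.r r386 (@Lb.r r2145 (@Lb.d (nat_lit 0) (nat_lit 6) (nat_lit 552) (@Lb.t (@Lb.fm (nat_lit 9) t661))))))))))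
noncomputable def l4463 : Lb := (@Lb.d (nat_lit 614) (nat_lit 37) (nat_lit 84) (@Lb.r r359 (@Lb.r r532 (@Lb.r r281 (@Lb.g g7 (@Lb.g g10 (@Lb.g g5 (@Lb.d (nat_lit 64) (nat_lit 1) (nat_lit 81) (@Lb.t (@Lb.fm (nat_lit 9) t246))))))))))
noncomputable def l4464 : Lb := (@Lb.r r323 (@Lb.d (nat_lit 138) (nat_lit 256) (nat_lit 18) (@Lb.g g8 (@Lb.g g10 (@Lb.r r661 (@Lb.r r1431 (@Lb.r r2660 (@Lb.d (nat_lit 666) (nat_lit 90) (nat_lit 416) (@Lb.fm (nat_lit 3) t100)))))))))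
noncomputable def l4465 : Lb := (@Lb.r r81 (@Lb.r r323 (@Lb.d (nat_lit 138) (nat_lit 0) (nat_lit 2) (@Lb.g g8 (@Lb.g g6 (@Lb.r r661 (@Lb.r r343 (@Lb.r r676 (@Lb.d (nat_lit 170) (nat_lit 22) (nat_lit 154) (@Lb.fp (nat_lit 3) t1397))))))))))
noncomputable def l4466 : Lb := (@Lb.d (nat_lit 406) (nat_lit 646) (nat_lit 356) (@Lb.r r2438 (@Lb.r r1620 (@Lb.r r2345 (@Lb.r r1351 (@Lb.g g7 (@Lb.g g6 (@Lb.g g4 (@Lb.d (nat_lit 2) (nat_lit 4) (nat_lit 65) (@Lb.t (@Lb.fp (nat_lit 9) t284)))))))))))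
noncomputable def l4467 : Lb := (@Lb.d (nat_lit 36) (nat_lit 258) (nat_lit 0) (@Lb.g g8 (@Lb.g g9 (@Lb.r r2210 (@Lb.r r2089 (@Lb.r r360 (@Lb.r r1543 (@Lb.d (nat_lit 0) (nat_lit 154) (nat_lit 69) (@Lb.fm (nat_lit 3) t242)))))))))
noncomputable def l4468 : Lb := (@Lb.d (nat_lit 34) (nat_lit 1) (nat_lit 0) (@Lb.g g8 (@Lb.g g9 (@Lb.r r2210 (@Lb.r r2089 (@Lb.r r360 (@Lb.r r1543 (@Lb.d (nat_lit 0) (nat_lit 154) (nat_lit 0) (@Lb.fm (nat_lit 3) t242)))))))))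
noncomputable def l4469 : Lb := (@Lb.d (nat_lit 294) (nat_lit 320) (nat_lit 81) (@Lb.r r1178 (@Lb.r r1684 (@Lb.r r2393 (@Lb.g g7 (@Lb.g g6 (@Lb.g g5 (@Lb.d (nat_lit 64) (nat_lit 1) (nat_lit 384) (@Lb.t (@Lb.fm (nat_lit 9) t98))))))))))
noncomputable def l4470 : Lb := (@Lb.r r1105 (@Lb.r r2214 (@Lb.r r1368 (@Lb.r r1543 (@Lb.g g11 (@Lb.g g5 (@Lb.r r98 (@Lb.p (nat_lit 1) (@Lb.fm (nat_lit 3) t98)))))))))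
noncomputable def l4471 : Lb := (@Lb.r r323 (@Lb.d (nat_lit 2) (nat_lit 521) (nat_lit 0) (@Lb.g g8 (@Lb.g g9 (@Lb.g g6 (@Lb.r r387 (@Lb.r r97 (@Lb.r r24 (@Lb.d (nat_lit 9) (nat_lit 9) (nat_lit 2) (@Lb.t (@Lb.fp (nat_lit 9) t1398)))))))))))
noncomputable def l4472 : Lb := (@Lb.d (nat_lit 4) (nat_lit 265) (nat_lit 130) (@Lb.g g8 (@Lb.g g9 (@Lb.g g10 (@Lb.g g11 (@Lb.r r643 (@Lb.r r1321 (@Lb.r r360 (@Lb.r r582 (@Lb.r r132 (@Lb.d (nat_lit 128) (nat_lit 10) (nat_lit 361) (@Lb.fm (nat_lit 9) t98))))))))))))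
noncomputable def l4473 : Lb := (@Lb.d (nat_lit 6) (nat_lit 577) (nat_lit 0) (@Lb.r r289 (@Lb.r r279 (@Lb.r r584 (@Lb.r r326 (@Lb.g g7 (@Lb.g g6 (@Lb.d (nat_lit 0) (nat_lit 0) (nat_lit 65) (@Lb.fm (nat_lit 3) t68)))))))))
noncomputable def l4474 : Lb := (@Lb.d (nat_lit 0) (nat_lit 514) (nat_lit 0) (@Lb.g g9 (@Lb.r r1044 (@Lb.r r25 (@Lb.d (nat_lit 265) (nat_lit 138) (nat_lit 2) (@Lb.t (@Lb.fp (nat_lit 3) t21)))))))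
noncomputable def l4475 : Lb := (@Lb.d (nat_lit 584) (nat_lit 258) (nat_lit 276) (@Lb.r r20 (@Lb.r r2393 (@Lb.r r1443 (@Lb.r r2450 (@Lb.g g7 (@Lb.g g5 (@Lb.g g4 (@Lb.d (nat_lit 2) (nat_lit 5) (nat_lit 64) (@Lb.t (@Lb.fm (nat_lit 9) t218)))))))))))
noncomputable def l4476 : Lb := (@Lb.r r323 (@Lb.d (nat_lit 32) (nat_lit 0) (nat_lit 2) (@Lb.g g9 (@Lb.g g10 (@Lb.r r584 (@Lb.r r299 (@Lb.r r289 (@Lb.d (nat_lit 10) (nat_lit 130) (nat_lit 2) (@Lb.fm (nat_lit 3) t51)))))))))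
noncomputable def l4477 : Lb := (@Lb.g g9 (@Lb.r r2343 (@Lb.r r1096 (@Lb.r r2646 (@Lb.r r289 (@Lb.d (nat_lit 0) (nat_lit 130) (nat_lit 16) (@Lb.t (@Lb.fp (nat_lit 3) t1040))))))))
noncomputable def l4478 : Lb := (@Lb.d (nat_lit 0) (nat_lit 256) (nat_lit 130) (@Lb.g g9 (@Lb.g g10 (@Lb.g g11 (@Lb.r r586 (@Lb.r r584 (@Lb.r r299 (@Lb.r r289 (@Lb.d (nat_lit 2) (nat_lit 128) (nat_lit 0) (@Lb.t (@Lb.fm (nat_lit 9) t51)))))))))))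
noncomputable def l4479 : Lb := (@Lb.d (nat_lit 6) (nat_lit 256) (nat_lit 0) (@Lb.g g8 (@Lb.g g9 (@Lb.r r322 (@Lb.r r1667 (@Lb.r r578 (@Lb.r r25 (@Lb.r r24 (@Lb.d (nat_lit 10) (nat_lit 82) (nat_lit 266) (@Lb.fm (nat_lit 3) t210))))))))))
noncomputable def l4480 : Lb := (@Lb.d (nat_lit 32) (nat_lit 26) (nat_lit 645) (@Lb.r r424 (@Lb.r r343 (@Lb.r r2713 (@Lb.r r2386 (@Lb.g g7 (@Lb.g g5 (@Lb.g g4 (@Lb.d (nat_lit 34) (nat_lit 2) (nat_lit 64) (@Lb.t (@Lb.fm (nat_lit 9) t218)))))))))))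
noncomputable def l4481 : Lb := (@Lb.d (nat_lit 6) (nat_lit 256) (nat_lit 72) (@Lb.g g8 (@Lb.g g9 (@Lb.g g11 (@Lb.r r1410 (@Lb.r r579 (@Lb.r r25 (@Lb.r r24 (@Lb.d (nat_lit 10) (nat_lit 82) (nat_lit 297) (@Lb.t (@Lb.fp (nat_lit 9) t210)))))))))))
noncomputable def l4482 : Lb := (@Lb.d (nat_lit 4) (nat_lit 512) (nat_lit 64) (@Lb.g g8 (@Lb.g g9 (@Lb.g g10 (@Lb.g g11 (@Lb.r r618 (@Lb.r r25 (@Lb.r r24 (@Lb.d (nat_lit 10) (nat_lit 153) (nat_lit 130) (@Lb.fm (nat_lit 9) t71))))))))))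
noncomputable def l4483 : Lb := (@Lb.d (nat_lit 38) (nat_lit 256) (nat_lit 1) (@Lb.g g8 (@Lb.g g9 (@Lb.g g10 (@Lb.r r683 (@Lb.r r2666 (@Lb.r r1561 (@Lb.r r1560 (@Lb.d (nat_lit 586) (nat_lit 169) (nat_lit 641) (@Lb.t (@Lb.fm (nat_lit 9) t1399)))))))))))
noncomputable def l4484 : Lb := (@Lb.d (nat_lit 0) (nat_lit 0) (nat_lit 128) (@Lb.g g10 (@Lb.g g11 (@Lb.r r545 (@Lb.r r299 (@Lb.r r328 (@Lb.r r134 (@Lb.d (nat_lit 0) (nat_lit 136) (nat_lit 33) (@Lb.fp (nat_lit 3) t154)))))))))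
noncomputable def l4485 : Lb := (@Lb.d (nat_lit 0) (nat_lit 274) (nat_lit 10) (@Lb.r r322 (@Lb.r r339 (@Lb.g g7 (@Lb.g g6 (@Lb.g g5 (@Lb.d (nat_lit 0) (nat_lit 0) (nat_lit 136) (@Lb.t (@Lb.fp (nat_lit 9) t1400)))))))))
noncomputable def l4486 : Lb := (@Lb.d (nat_lit 0) (nat_lit 0) (nat_lit 128) (@Lb.g g10 (@Lb.g g11 (@Lb.r r387 (@Lb.r r402 (@Lb.d (nat_lit 0) (nat_lit 74) (nat_lit 18) (@Lb.fp (nat_lit 3) t334)))))))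
noncomputable def l4487 : Lb := (@Lb.d (nat_lit 1) (nat_lit 2) (nat_lit 130) (@Lb.g g8 (@Lb.g g9 (@Lb.g g10 (@Lb.g g11 (@Lb.r r355 (@Lb.r r386 (@Lb.r r1129 (@Lb.r r36 (@Lb.d (nat_lit 261) (nat_lit 1) (nat_lit 84) (@Lb.fp (nat_lit 9) t61)))))))))))
noncomputable def l4488 : Lb := (@Lb.d (nat_lit 646) (nat_lit 6) (nat_lit 282) (@Lb.r r1301 (@Lb.r r2646 (@Lb.r r1707 (@Lb.g g7 (@Lb.g g6 (@Lb.g g5 (@Lb.g g4 (@Lb.d (nat_lit 1) (nat_lit 26) (nat_lit 64) (@Lb.fm (nat_lit 9) t309))))))))))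
noncomputable def l4489 : Lb := (@Lb.d (nat_lit 0) (nat_lit 256) (nat_lit 512) (@Lb.r r1346 (@Lb.g g7 (@Lb.d (nat_lit 0) (nat_lit 0) (nat_lit 64) (@Lb.t (@Lb.fm (nat_lit 3) t2))))))
noncomputable def l4490 : Lb := (@Lb.d (nat_lit 0) (nat_lit 520) (nat_lit 66) (@Lb.g g10 (@Lb.g g11 (@Lb.r r353 (@Lb.r r663 (@Lb.r r356 (@Lb.r r154 (@Lb.d (nat_lit 264) (nat_lit 9) (nat_lit 17) (@Lb.fp (nat_lit 3) t127)))))))))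
noncomputable def l4491 : Lb := (@Lb.d (nat_lit 0) (nat_lit 38) (nat_lit 133) (@Lb.g g9 (@Lb.g g10 (@Lb.g g11 (@Lb.r r1699 (@Lb.r r2210 (@Lb.r r1561 (@Lb.r r24 (@Lb.d (nat_lit 65) (nat_lit 0) (nat_lit 73) (@Lb.t (@Lb.fp (nat_lit 9) t860)))))))))))
noncomputable def l4492 : Lb := (@Lb.r r323 (@Lb.d (nat_lit 32) (nat_lit 290) (nat_lit 2) (@Lb.g g9 (@Lb.g g10 (@Lb.r r2651 (@Lb.r r2648 (@Lb.r r1317 (@Lb.d (nat_lit 330) (nat_lit 66) (nat_lit 258) (@Lb.fp (nat_lit 3) t51)))))))))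
noncomputable def l4493 : Lb := (@Lb.d (nat_lit 346) (nat_lit 296) (nat_lit 617) (@Lb.r r2709 (@Lb.r r2455 (@Lb.r r1700 (@Lb.r r1702 (@Lb.g g7 (@Lb.g g6 (@Lb.g g5 (@Lb.d (nat_lit 4) (nat_lit 24) (nat_lit 128) (@Lb.t (@Lb.fm (nat_lit 9) t51)))))))))))
noncomputable def l4494 : Lb := (@Lb.d (nat_lit 0) (nat_lit 425) (nat_lit 596) (@Lb.r r2196 (@Lb.r r2403 (@Lb.r r594 (@Lb.r r2449 (@Lb.g g7 (@Lb.d (nat_lit 0) (nat_lit 0) (nat_lit 68) (@Lb.t (@Lb.fm (nat_lit 3) t1401)))))))))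
noncomputable def l4495 : Lb := (@Lb.d (nat_lit 32) (nat_lit 512) (nat_lit 130) (@Lb.g g9 (@Lb.g g10 (@Lb.g g11 (@Lb.r r2725 (@Lb.r r299 (@Lb.r r68 (@Lb.r r394 (@Lb.d (nat_lit 641) (nat_lit 10) (nat_lit 168) (@Lb.t (@Lb.fm (nat_lit 9) t228)))))))))))
noncomputable def l4496 : Lb := (@Lb.r r355 (@Lb.d (nat_lit 2) (nat_lit 520) (nat_lit 2) (@Lb.g g8 (@Lb.g g9 (@Lb.g g10 (@Lb.r r1539 (@Lb.r r2154 (@Lb.r r89 (@Lb.d (nat_lit 41) (nat_lit 69) (nat_lit 102) (@Lb.t (@Lb.fp (nat_lit 9) t1402)))))))))))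
noncomputable def l4497 : Lb := (@Lb.d (nat_lit 682) (nat_lit 532) (nat_lit 617) (@Lb.r r1381 (@Lb.r r1691 (@Lb.r r1624 (@Lb.r r1190 (@Lb.g g6 (@Lb.g g5 (@Lb.d (nat_lit 4) (nat_lit 16) (nat_lit 1) (@Lb.fm (nat_lit 3) t71)))))))))
noncomputable def l4498 : Lb := (@Lb.d (nat_lit 330) (nat_lit 516) (nat_lit 84) (@Lb.r r394 (@Lb.r r132 (@Lb.r r279 (@Lb.r r2725 (@Lb.g g7 (@Lb.g g6 (@Lb.g g5 (@Lb.d (nat_lit 16) (nat_lit 0) (nat_lit 65) (@Lb.t (@Lb.fp (nat_lit 9) t588)))))))))))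
noncomputable def l4499 : Lb := (@Lb.d (nat_lit 2) (nat_lit 289) (nat_lit 4) (@Lb.g g8 (@Lb.g g9 (@Lb.g g10 (@Lb.g g11 (@Lb.r r683 (@Lb.r r1642 (@Lb.r r1561 (@Lb.d (nat_lit 585) (nat_lit 105) (nat_lit 273) (@Lb.fm (nat_lit 9) t919))))))))))
noncomputable def l4500 : Lb := (@Lb.d (nat_lit 273) (nat_lit 10) (nat_lit 18) (@Lb.r r74 (@Lb.r r580 (@Lb.r r359 (@Lb.r r2465 (@Lb.g g6 (@Lb.g g5 (@Lb.d (nat_lit 0) (nat_lit 5) (nat_lit 0) (@Lb.r r387 (@Lb.fp (nat_lit 3) t280))))))))))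
noncomputable def l4501 : Lb := (@Lb.r r21 (@Lb.d (nat_lit 17) (nat_lit 512) (nat_lit 128) (@Lb.g g8 (@Lb.g g10 (@Lb.g g11 (@Lb.r r2475 (@Lb.r r277 (@Lb.r r1128 (@Lb.r r2182 (@Lb.d (nat_lit 553) (nat_lit 74) (nat_lit 144) (@Lb.t (@Lb.fm (nat_lit 9) t86))))))))))))
noncomputable def l4502 : Lb := (@Lb.d (nat_lit 2) (nat_lit 514) (nat_lit 0) (@Lb.g g8 (@Lb.g g9 (@Lb.g g6 (@Lb.r r2657 (@Lb.r r24 (@Lb.d (nat_lit 10) (nat_lit 169) (nat_lit 424) (@Lb.t (@Lb.fp (nat_lit 9) t1403)))))))))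
noncomputable def l4503 : Lb := (@Lb.d (nat_lit 0) (nat_lit 256) (nat_lit 2) (@Lb.g g9 (@Lb.g g10 (@Lb.r r2193 (@Lb.r r146 (@Lb.d (nat_lit 0) (nat_lit 72) (nat_lit 97) (@Lb.fp (nat_lit 3) t1404)))))))
noncomputable def l4504 : Lb := (@Lb.d (nat_lit 0) (nat_lit 514) (nat_lit 0) (@Lb.g g9 (@Lb.g g11 (@Lb.r r1634 (@Lb.r r2657 (@Lb.d (nat_lit 0) (nat_lit 100) (nat_lit 394) (@Lb.fp (nat_lit 3) t1405)))))))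
noncomputable def l4505 : Lb := (@Lb.r r82 (@Lb.r r275 (@Lb.d (nat_lit 4) (nat_lit 514) (nat_lit 0) (@Lb.g g5 (@Lb.r r2651 (@Lb.r r386 (@Lb.r r24 (@Lb.d (nat_lit 256) (nat_lit 1) (nat_lit 2) (@Lb.t (@Lb.fp (nat_lit 3) t538))))))))))
noncomputable def l4506 : Lb := (@Lb.d (nat_lit 8) (nat_lit 288) (nat_lit 2) (@Lb.g g9 (@Lb.g g10 (@Lb.r r2470 (@Lb.r r1624 (@Lb.r r1691 (@Lb.r r2409 (@Lb.d (nat_lit 393) (nat_lit 102) (nat_lit 646) (@Lb.fm (nat_lit 3) t1406)))))))))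
noncomputable def l4507 : Lb := (@Lb.d (nat_lit 0) (nat_lit 584) (nat_lit 289) (@Lb.r r2451 (@Lb.r r402 (@Lb.r r2641 (@Lb.g g11 (@Lb.t (@Lb.fm (nat_lit 3) t616)))))))
noncomputable def l4508 : Lb := (@Lb.d (nat_lit 0) (nat_lit 514) (nat_lit 0) (@Lb.g g9 (@Lb.g g6 (@Lb.r r2657 (@Lb.d (nat_lit 0) (nat_lit 169) (nat_lit 424) (@Lb.fm (nat_lit 3) t603))))))
noncomputable def l4509 : Lb := (@Lb.g g7 (@Lb.r r584 (@Lb.r r86 (@Lb.r r289 (@Lb.r r132 (@Lb.d (nat_lit 0) (nat_lit 642) (nat_lit 320) (@Lb.t (@Lb.fm (nat_lit 3) t259))))))))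
noncomputable def l4510 : Lb := (@Lb.d (nat_lit 133) (nat_lit 65) (nat_lit 1) (@Lb.r r293 (@Lb.r r600 (@Lb.r r603 (@Lb.g g6 (@Lb.g g5 (@Lb.d (nat_lit 16) (nat_lit 21) (nat_lit 2) (@Lb.r r387 (@Lb.fp (nat_lit 3) t260)))))))))
noncomputable def l4511 : Lb := (@Lb.d (nat_lit 0) (nat_lit 544) (nat_lit 320) (@Lb.g g10 (@Lb.g g11 (@Lb.r r2626 (@Lb.d (nat_lit 0) (nat_lit 137) (nat_lit 386) (@Lb.fm (nat_lit 3) t51))))))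
noncomputable def l4512 : Lb := (@Lb.g g7 (@Lb.r r584 (@Lb.r r86 (@Lb.r r289 (@Lb.r r132 (@Lb.d (nat_lit 6) (nat_lit 128) (nat_lit 320) (@Lb.t (@Lb.fm (nat_lit 3) t668))))))))
noncomputable def l4513 : Lb := (@Lb.d (nat_lit 0) (nat_lit 288) (nat_lit 320) (@Lb.g g10 (@Lb.g g11 (@Lb.r r2626 (@Lb.d (nat_lit 0) (nat_lit 130) (nat_lit 384) (@Lb.fm (nat_lit 3) t51))))))
noncomputable def l4514 : Lb := (@Lb.d (nat_lit 0) (nat_lit 0) (nat_lit 128) (@Lb.g g5 (@Lb.g g10 (@Lb.g g11 (@Lb.r r2626 (@Lb.d (nat_lit 0) (nat_lit 0) (nat_lit 256) (@Lb.t (@Lb.fp (nat_lit 9) t2))))))))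
noncomputable def l4515 : Lb := (@Lb.r r82 (@Lb.d (nat_lit 0) (nat_lit 297) (nat_lit 64) (@Lb.g g9 (@Lb.g g11 (@Lb.r r1635 (@Lb.r r2454 (@Lb.r r1636 (@Lb.r r1557 (@Lb.d (nat_lit 390) (nat_lit 82) (nat_lit 576) (@Lb.fm (nat_lit 3) t261))))))))))
noncomputable def l4516 : Lb := (@Lb.d (nat_lit 5) (nat_lit 512) (nat_lit 0) (@Lb.g g4 (@Lb.g g6 (@Lb.d (nat_lit 1) (nat_lit 6) (nat_lit 1) (@Lb.fm (nat_lit 3) t45)))))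
noncomputable def l4517 : Lb := (@Lb.d (nat_lit 0) (nat_lit 10) (nat_lit 1) (@Lb.g g9 (@Lb.g g10 (@Lb.r r2193 (@Lb.r r146 (@Lb.d (nat_lit 0) (nat_lit 72) (nat_lit 33) (@Lb.fp (nat_lit 3) t1407)))))))
noncomputable def l4518 : Lb := (@Lb.r r82 (@Lb.d (nat_lit 0) (nat_lit 34) (nat_lit 72) (@Lb.g g9 (@Lb.g g11 (@Lb.r r1617 (@Lb.r r98 (@Lb.d (nat_lit 0) (nat_lit 152) (nat_lit 601) (@Lb.fm (nat_lit 3) t225))))))))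
noncomputable def l4519 : Lb := (@Lb.d (nat_lit 128) (nat_lit 522) (nat_lit 577) (@Lb.g g9 (@Lb.g g10 (@Lb.g g11 (@Lb.r r2392 (@Lb.r r1190 (@Lb.r r1169 (@Lb.d (nat_lit 534) (nat_lit 72) (nat_lit 162) (@Lb.t (@Lb.fm (nat_lit 9) t223))))))))))
noncomputable def l4520 : Lb := (@Lb.d (nat_lit 0) (nat_lit 522) (nat_lit 0) (@Lb.g g5 (@Lb.r r1186 (@Lb.r r2209 (@Lb.d (nat_lit 0) (nat_lit 132) (nat_lit 1) (@Lb.t (@Lb.fm (nat_lit 3) t300)))))))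
noncomputable def l4521 : Lb := (@Lb.d (nat_lit 128) (nat_lit 266) (nat_lit 577) (@Lb.g g9 (@Lb.g g10 (@Lb.g g11 (@Lb.r r2392 (@Lb.r r1190 (@Lb.r r1169 (@Lb.d (nat_lit 536) (nat_lit 73) (nat_lit 162) (@Lb.t (@Lb.fm (nat_lit 9) t1408))))))))))
noncomputable def l4522 : Lb := (@Lb.d (nat_lit 0) (nat_lit 522) (nat_lit 129) (@Lb.g g9 (@Lb.g g10 (@Lb.g g11 (@Lb.r r1681 (@Lb.r r146 (@Lb.d (nat_lit 0) (nat_lit 152) (nat_lit 665) (@Lb.t (@Lb.fp (nat_lit 9) t657)))))))))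
noncomputable def l4523 : Lb := (@Lb.d (nat_lit 646) (nat_lit 665) (nat_lit 96) (@Lb.r r1301 (@Lb.r r2667 (@Lb.g g10 (@Lb.g g5 (@Lb.g g4 (@Lb.d (nat_lit 1) (nat_lit 1) (nat_lit 33) (@Lb.r r387 (@Lb.t (@Lb.fp (nat_lit 9) t1409))))))))))
noncomputable def l4524 : Lb := (@Lb.d (nat_lit 362) (nat_lit 401) (nat_lit 74) (@Lb.r r356 (@Lb.r r2325 (@Lb.r r1643 (@Lb.g g10 (@Lb.g g5 (@Lb.g g4 (@Lb.d (nat_lit 18) (nat_lit 8) (nat_lit 17) (@Lb.r r387 (@Lb.t (@Lb.fp (nat_lit 9) t12)))))))))))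
noncomputable def l4525 : Lb := (@Lb.d (nat_lit 0) (nat_lit 512) (nat_lit 40) (@Lb.g g9 (@Lb.g g6 (@Lb.g g11 (@Lb.r r579 (@Lb.d (nat_lit 0) (nat_lit 0) (nat_lit 154) (@Lb.t (@Lb.fm (nat_lit 9) t2))))))))
noncomputable def l4526 : Lb := (@Lb.d (nat_lit 128) (nat_lit 266) (nat_lit 73) (@Lb.g g9 (@Lb.g g10 (@Lb.g g11 (@Lb.r r1186 (@Lb.r r2457 (@Lb.r r280 (@Lb.r r423 (@Lb.d (nat_lit 346) (nat_lit 164) (nat_lit 153) (@Lb.t (@Lb.fm (nat_lit 9) t125)))))))))))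
noncomputable def l4527 : Lb := (@Lb.d (nat_lit 0) (nat_lit 672) (nat_lit 2) (@Lb.g g9 (@Lb.d (nat_lit 0) (nat_lit 90) (nat_lit 0) (@Lb.t (@Lb.fp (nat_lit 3) t1410)))))
noncomputable def l4528 : Lb := (@Lb.r r593 (@Lb.d (nat_lit 128) (nat_lit 40) (nat_lit 82) (@Lb.g g6 (@Lb.g g11 (@Lb.r r2457 (@Lb.r r404 (@Lb.r r299 (@Lb.d (nat_lit 404) (nat_lit 160) (nat_lit 145) (@Lb.fp (nat_lit 3) t125)))))))))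
noncomputable def l4529 : Lb := (@Lb.d (nat_lit 0) (nat_lit 546) (nat_lit 0) (@Lb.g g5 (@Lb.r r363 (@Lb.r r324 (@Lb.r r138 (@Lb.r r2180 (@Lb.d (nat_lit 0) (nat_lit 8) (nat_lit 18) (@Lb.t (@Lb.fp (nat_lit 3) t228)))))))))
noncomputable def l4530 : Lb := (@Lb.r r323 (@Lb.d (nat_lit 8) (nat_lit 544) (nat_lit 1) (@Lb.g g9 (@Lb.g g10 (@Lb.r r1624 (@Lb.r r1691 (@Lb.r r2469 (@Lb.d (nat_lit 72) (nat_lit 97) (nat_lit 664) (@Lb.fp (nat_lit 3) t307)))))))))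
noncomputable def l4531 : Lb := (@Lb.r r82 (@Lb.d (nat_lit 8) (nat_lit 546) (nat_lit 64) (@Lb.g g9 (@Lb.g g11 (@Lb.r r1172 (@Lb.r r2406 (@Lb.r r659 (@Lb.r r1633 (@Lb.d (nat_lit 0) (nat_lit 104) (nat_lit 666) (@Lb.fm (nat_lit 3) t261))))))))))
noncomputable def l4532 : Lb := (@Lb.d (nat_lit 0) (nat_lit 256) (nat_lit 2) (@Lb.g g9 (@Lb.g g10 (@Lb.r r2658 (@Lb.r r579 (@Lb.d (nat_lit 0) (nat_lit 102) (nat_lit 584) (@Lb.fp (nat_lit 3) t51)))))))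
noncomputable def l4533 : Lb := (@Lb.d (nat_lit 0) (nat_lit 264) (nat_lit 66) (@Lb.g g10 (@Lb.g g11 (@Lb.r r387 (@Lb.r r1617 (@Lb.r r354 (@Lb.d (nat_lit 0) (nat_lit 74) (nat_lit 161) (@Lb.fm (nat_lit 3) t216))))))))
noncomputable def l4534 : Lb := (@Lb.d (nat_lit 0) (nat_lit 0) (nat_lit 73) (@Lb.g g9 (@Lb.g g10 (@Lb.g g11 (@Lb.r r2658 (@Lb.r r579 (@Lb.d (nat_lit 0) (nat_lit 97) (nat_lit 522) (@Lb.t (@Lb.fp (nat_lit 9) t119)))))))))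
noncomputable def l4535 : Lb := (@Lb.d (nat_lit 8) (nat_lit 521) (nat_lit 73) (@Lb.g g9 (@Lb.g g10 (@Lb.g g11 (@Lb.r r346 (@Lb.r r1364 (@Lb.r r2411 (@Lb.r r2389 (@Lb.d (nat_lit 338) (nat_lit 85) (nat_lit 678) (@Lb.t (@Lb.fm (nat_lit 9) t125)))))))))))
noncomputable def l4536 : Lb := (@Lb.d (nat_lit 0) (nat_lit 0) (nat_lit 73) (@Lb.g g9 (@Lb.g g10 (@Lb.g g11 (@Lb.r r2726 (@Lb.r r328 (@Lb.r r535 (@Lb.r r289 (@Lb.d (nat_lit 646) (nat_lit 16) (nat_lit 64) (@Lb.t (@Lb.fm (nat_lit 9) t668)))))))))))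
noncomputable def l4537 : Lb := (@Lb.r r1186 (@Lb.r r2209 (@Lb.d (nat_lit 0) (nat_lit 165) (nat_lit 277) (@Lb.fp (nat_lit 1) t1411))))
noncomputable def l4538 : Lb := (@Lb.d (nat_lit 0) (nat_lit 512) (nat_lit 73) (@Lb.g g9 (@Lb.g g10 (@Lb.g g11 (@Lb.r r2726 (@Lb.r r328 (@Lb.r r535 (@Lb.r r289 (@Lb.d (nat_lit 640) (nat_lit 144) (nat_lit 64) (@Lb.t (@Lb.fm (nat_lit 9) t1115)))))))))))
noncomputable def l4539 : Lb := (@Lb.r r322 (@Lb.d (nat_lit 0) (nat_lit 0) (nat_lit 136) (@Lb.g g9 (@Lb.g g11 (@Lb.r r1426 (@Lb.d (nat_lit 0) (nat_lit 64) (nat_lit 80) (@Lb.fp (nat_lit 3) t334)))))))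
noncomputable def l4540 : Lb := (@Lb.d (nat_lit 0) (nat_lit 36) (nat_lit 64) (@Lb.g g9 (@Lb.g g10 (@Lb.g g11 (@Lb.r r387 (@Lb.r r161 (@Lb.r r1442 (@Lb.r r2193 (@Lb.d (nat_lit 0) (nat_lit 8) (nat_lit 410) (@Lb.t (@Lb.fm (nat_lit 9) t406)))))))))))
noncomputable def l4541 : Lb := (@Lb.r r322 (@Lb.d (nat_lit 0) (nat_lit 264) (nat_lit 576) (@Lb.g g9 (@Lb.g g7 (@Lb.r r602 (@Lb.r r2388 (@Lb.r r1577 (@Lb.d (nat_lit 576) (nat_lit 98) (nat_lit 64) (@Lb.fm (nat_lit 3) t1412)))))))))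
noncomputable def l4542 : Lb := (@Lb.d (nat_lit 129) (nat_lit 260) (nat_lit 128) (@Lb.g g8 (@Lb.g g9 (@Lb.g g10 (@Lb.g g11 (@Lb.r r1706 (@Lb.r r1411 (@Lb.r r1177 (@Lb.r r1156 (@Lb.d (nat_lit 297) (nat_lit 89) (nat_lit 665) (@Lb.fm (nat_lit 9) t606)))))))))))
noncomputable def l4543 : Lb := (@Lb.r r323 (@Lb.d (nat_lit 33) (nat_lit 260) (nat_lit 0) (@Lb.g g8 (@Lb.g g9 (@Lb.g g10 (@Lb.r r1689 (@Lb.r r1563 (@Lb.r r1540 (@Lb.d (nat_lit 417) (nat_lit 0) (nat_lit 673) (@Lb.t (@Lb.fp (nat_lit 9) t275)))))))))))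
noncomputable def l4544 : Lb := (@Lb.d (nat_lit 4) (nat_lit 21) (nat_lit 64) (@Lb.r r260 (@Lb.r r97 (@Lb.r r619 (@Lb.r r516 (@Lb.g g7 (@Lb.g g10 (@Lb.g g5 (@Lb.g g4 (@Lb.d (nat_lit 18) (nat_lit 8) (nat_lit 65) (@Lb.fm (nat_lit 9) t983)))))))))))
noncomputable def l4545 : Lb := (@Lb.d (nat_lit 74) (nat_lit 261) (nat_lit 64) (@Lb.r r260 (@Lb.r r97 (@Lb.r r363 (@Lb.g g10 (@Lb.g g5 (@Lb.g g4 (@Lb.d (nat_lit 82) (nat_lit 8) (nat_lit 5) (@Lb.r r387 (@Lb.t (@Lb.fp (nat_lit 9) t519)))))))))))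
noncomputable def l4546 : Lb := (@Lb.r r21 (@Lb.d (nat_lit 2) (nat_lit 264) (nat_lit 130) (@Lb.g g8 (@Lb.g g10 (@Lb.g g11 (@Lb.r r2443 (@Lb.r r2345 (@Lb.r r2468 (@Lb.r r390 (@Lb.d (nat_lit 98) (nat_lit 2) (nat_lit 169) (@Lb.t (@Lb.fm (nat_lit 9) t295))))))))))))
noncomputable def l4547 : Lb := (@Lb.d (nat_lit 0) (nat_lit 256) (nat_lit 130) (@Lb.g g10 (@Lb.g g11 (@Lb.r r2658 (@Lb.d (nat_lit 0) (nat_lit 89) (nat_lit 256) (@Lb.fm (nat_lit 3) t479))))))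
noncomputable def l4548 : Lb := (@Lb.d (nat_lit 16) (nat_lit 0) (nat_lit 1) (@Lb.g g10 (@Lb.r r2728 (@Lb.r r2715 (@Lb.r r357 (@Lb.r r666 (@Lb.d (nat_lit 74) (nat_lit 105) (nat_lit 148) (@Lb.t (@Lb.fp (nat_lit 3) t1096)))))))))
noncomputable def l4549 : Lb := (@Lb.d (nat_lit 0) (nat_lit 0) (nat_lit 137) (@Lb.g g10 (@Lb.g g11 (@Lb.r r2691 (@Lb.r r2658 (@Lb.d (nat_lit 0) (nat_lit 37) (nat_lit 297) (@Lb.fp (nat_lit 3) t71)))))))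
noncomputable def l4550 : Lb := (@Lb.r r134 (@Lb.r r324 (@Lb.r r539 (@Lb.r r289 (@Lb.r r36 (@Lb.d (nat_lit 10) (nat_lit 322) (nat_lit 0) (@Lb.fm (nat_lit 1) t51)))))))
noncomputable def l4551 : Lb := (@Lb.d (nat_lit 32) (nat_lit 0) (nat_lit 1) (@Lb.g g10 (@Lb.r r1364 (@Lb.r r2731 (@Lb.r r665 (@Lb.r r602 (@Lb.d (nat_lit 90) (nat_lit 101) (nat_lit 168) (@Lb.t (@Lb.fm (nat_lit 3) t1096)))))))))
noncomputable def l4552 : Lb := (@Lb.d (nat_lit 0) (nat_lit 0) (nat_lit 66) (@Lb.g g10 (@Lb.g g11 (@Lb.r r419 (@Lb.r r386 (@Lb.r r101 (@Lb.r r24 (@Lb.d (nat_lit 98) (nat_lit 0) (nat_lit 137) (@Lb.fp (nat_lit 3) t61)))))))))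
noncomputable def l4553 : Lb := (@Lb.d (nat_lit 2) (nat_lit 265) (nat_lit 65) (@Lb.g g8 (@Lb.g g9 (@Lb.g g10 (@Lb.g g11 (@Lb.r r427 (@Lb.r r386 (@Lb.r r97 (@Lb.r r24 (@Lb.d (nat_lit 74) (nat_lit 9) (nat_lit 137) (@Lb.fm (nat_lit 9) t1108)))))))))))
noncomputable def l4554 : Lb := (@Lb.d (nat_lit 2) (nat_lit 34) (nat_lit 2) (@Lb.g g8 (@Lb.g g9 (@Lb.g g10 (@Lb.r r1194 (@Lb.r r2468 (@Lb.r r1627 (@Lb.r r1445 (@Lb.d (nat_lit 357) (nat_lit 36) (nat_lit 384) (@Lb.t (@Lb.fp (nat_lit 9) t49)))))))))))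
noncomputable def l4555 : Lb := (@Lb.d (nat_lit 130) (nat_lit 0) (nat_lit 1) (@Lb.g g8 (@Lb.g g10 (@Lb.r r263 (@Lb.r r2728 (@Lb.r r153 (@Lb.r r90 (@Lb.d (nat_lit 26) (nat_lit 148) (nat_lit 288) (@Lb.fp (nat_lit 3) t1096)))))))))
noncomputable def l4556 : Lb := (@Lb.d (nat_lit 32) (nat_lit 520) (nat_lit 130) (@Lb.g g10 (@Lb.g g11 (@Lb.r r2711 (@Lb.r r1384 (@Lb.r r361 (@Lb.r r1622 (@Lb.d (nat_lit 405) (nat_lit 102) (nat_lit 90) (@Lb.fp (nat_lit 3) t322)))))))))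
noncomputable def l4557 : Lb := (@Lb.r r322 (@Lb.d (nat_lit 128) (nat_lit 512) (nat_lit 384) (@Lb.g g11 (@Lb.r r1304 (@Lb.r r2149 (@Lb.r r146 (@Lb.d (nat_lit 0) (nat_lit 66) (nat_lit 128) (@Lb.t (@Lb.fm (nat_lit 3) t307)))))))))
noncomputable def l4558 : Lb := (@Lb.r r322 (@Lb.g g9 (@Lb.g g11 (@Lb.r r2727 (@Lb.r r1304 (@Lb.r r2149 (@Lb.r r146 (@Lb.d (nat_lit 546) (nat_lit 522) (nat_lit 33) (@Lb.fm (nat_lit 3) t228)))))))))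
noncomputable def l4559 : Lb := (@Lb.r r273 (@Lb.r r322 (@Lb.g g11 (@Lb.r r267 (@Lb.r r280 (@Lb.r r101 (@Lb.r r146 (@Lb.d (nat_lit 2) (nat_lit 256) (nat_lit 2) (@Lb.t (@Lb.fm (nat_lit 3) t601))))))))))
noncomputable def l4560 : Lb := (@Lb.d (nat_lit 0) (nat_lit 544) (nat_lit 64) (@Lb.g g11 (@Lb.r r345 (@Lb.r r1638 (@Lb.r r615 (@Lb.r r24 (@Lb.d (nat_lit 674) (nat_lit 0) (nat_lit 138) (@Lb.t (@Lb.fp (nat_lit 3) t1261)))))))))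
noncomputable def l4561 : Lb := (@Lb.d (nat_lit 0) (nat_lit 32) (nat_lit 136) (@Lb.g g11 (@Lb.r r409 (@Lb.r r2458 (@Lb.r r2407 (@Lb.r r24 (@Lb.d (nat_lit 32) (nat_lit 0) (nat_lit 294) (@Lb.t (@Lb.fp (nat_lit 3) t1261)))))))))
noncomputable def l4562 : Lb := (@Lb.d (nat_lit 8) (nat_lit 512) (nat_lit 130) (@Lb.g g8 (@Lb.g g10 (@Lb.g g11 (@Lb.r r419 (@Lb.r r386 (@Lb.r r149 (@Lb.r r168 (@Lb.d (nat_lit 581) (nat_lit 8) (nat_lit 25) (@Lb.t (@Lb.fm (nat_lit 9) t263)))))))))))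
noncomputable def l4563 : Lb := (@Lb.d (nat_lit 0) (nat_lit 342) (nat_lit 100) (@Lb.r r1633 (@Lb.r r2659 (@Lb.g g7 (@Lb.g g10 (@Lb.g g5 (@Lb.d (nat_lit 0) (nat_lit 18) (nat_lit 148) (@Lb.t (@Lb.fm (nat_lit 9) t1413)))))))))
noncomputable def l4564 : Lb := (@Lb.d (nat_lit 261) (nat_lit 513) (nat_lit 160) (@Lb.r r2129 (@Lb.r r1158 (@Lb.r r2376 (@Lb.g g11 (@Lb.g g5 (@Lb.d (nat_lit 128) (nat_lit 0) (nat_lit 644) (@Lb.fp (nat_lit 3) t721))))))))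
noncomputable def l4565 : Lb := (@Lb.r r323 (@Lb.d (nat_lit 32) (nat_lit 298) (nat_lit 1) (@Lb.g g9 (@Lb.g g10 (@Lb.r r603 (@Lb.r r600 (@Lb.r r293 (@Lb.d (nat_lit 74) (nat_lit 130) (nat_lit 137) (@Lb.fp (nat_lit 3) t1414)))))))))
noncomputable def l4566 : Lb := (@Lb.r r2641 (@Lb.d (nat_lit 0) (nat_lit 32) (nat_lit 586) (@Lb.g g10 (@Lb.g g11 (@Lb.r r1602 (@Lb.d (nat_lit 0) (nat_lit 130) (nat_lit 618) (@Lb.fm (nat_lit 3) t719)))))))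
noncomputable def l4567 : Lb := (@Lb.d (nat_lit 0) (nat_lit 266) (nat_lit 612) (@Lb.r r2641 (@Lb.r r579 (@Lb.r r2370 (@Lb.g g7 (@Lb.d (nat_lit 0) (nat_lit 0) (nat_lit 64) (@Lb.t (@Lb.fp (nat_lit 3) t1415))))))))
noncomputable def l4568 : Lb := (@Lb.d (nat_lit 0) (nat_lit 548) (nat_lit 129) (@Lb.r r657 (@Lb.r r1543 (@Lb.r r2392 (@Lb.r r1190 (@Lb.g g5 (@Lb.d (nat_lit 4) (nat_lit 1) (nat_lit 0) (@Lb.t (@Lb.fp (nat_lit 3) t224)))))))))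
noncomputable def l4569 : Lb := (@Lb.d (nat_lit 0) (nat_lit 521) (nat_lit 66) (@Lb.g g9 (@Lb.g g10 (@Lb.g g11 (@Lb.r r2723 (@Lb.r r1634 (@Lb.r r2657 (@Lb.d (nat_lit 0) (nat_lit 100) (nat_lit 168) (@Lb.t (@Lb.fm (nat_lit 9) t76))))))))))
noncomputable def l4570 : Lb := (@Lb.d (nat_lit 0) (nat_lit 10) (nat_lit 128) (@Lb.r r402 (@Lb.r r101 (@Lb.r r24 (@Lb.g g11 (@Lb.t (@Lb.fm (nat_lit 3) t263)))))))
noncomputable def l4571 : Lb := (@Lb.r r323 (@Lb.d (nat_lit 138) (nat_lit 256) (nat_lit 18) (@Lb.g g8 (@Lb.g g10 (@Lb.r r661 (@Lb.r r1431 (@Lb.r r2660 (@Lb.d (nat_lit 666) (nat_lit 85) (nat_lit 290) (@Lb.fm (nat_lit 3) t100)))))))))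
noncomputable def l4572 : Lb := (@Lb.r r323 (@Lb.d (nat_lit 33) (nat_lit 514) (nat_lit 2) (@Lb.g g8 (@Lb.g g9 (@Lb.g g10 (@Lb.r r2666 (@Lb.r r2391 (@Lb.r r1577 (@Lb.r r1556 (@Lb.d (nat_lit 390) (nat_lit 2) (nat_lit 256) (@Lb.t (@Lb.fp (nat_lit 9) t898))))))))))))
noncomputable def l4573 : Lb := (@Lb.r r323 (@Lb.d (nat_lit 130) (nat_lit 290) (nat_lit 18) (@Lb.g g8 (@Lb.g g9 (@Lb.g g10 (@Lb.r r595 (@Lb.r r341 (@Lb.r r100 (@Lb.d (nat_lit 73) (nat_lit 5) (nat_lit 361) (@Lb.t (@Lb.fp (nat_lit 9) t88)))))))))))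
noncomputable def l4574 : Lb := (@Lb.d (nat_lit 512) (nat_lit 361) (nat_lit 344) (@Lb.r r1681 (@Lb.r r1691 (@Lb.r r1624 (@Lb.g g6 (@Lb.g g5 (@Lb.d (nat_lit 4) (nat_lit 21) (nat_lit 34) (@Lb.r r387 (@Lb.fm (nat_lit 3) t1416)))))))))
noncomputable def l4575 : Lb := (@Lb.d (nat_lit 69) (nat_lit 298) (nat_lit 68) (@Lb.r r410 (@Lb.r r148 (@Lb.r r609 (@Lb.r r667 (@Lb.g g7 (@Lb.g g6 (@Lb.g g5 (@Lb.d (nat_lit 16) (nat_lit 10) (nat_lit 64) (@Lb.t (@Lb.fm (nat_lit 9) t1417)))))))))))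
noncomputable def l4576 : Lb := (@Lb.r r21 (@Lb.r r70 (@Lb.r r263 (@Lb.g g8 (@Lb.r r267 (@Lb.r r74 (@Lb.r r25 (@Lb.d (nat_lit 2) (nat_lit 512) (nat_lit 34) (@Lb.t (@Lb.fp (nat_lit 3) t1418))))))))))
noncomputable def l4577 : Lb := (@Lb.d (nat_lit 0) (nat_lit 521) (nat_lit 130) (@Lb.g g9 (@Lb.g g10 (@Lb.g g11 (@Lb.r r673 (@Lb.r r299 (@Lb.r r356 (@Lb.r r154 (@Lb.d (nat_lit 16) (nat_lit 129) (nat_lit 32) (@Lb.t (@Lb.fm (nat_lit 9) t1419)))))))))))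
noncomputable def l4578 : Lb := (@Lb.d (nat_lit 0) (nat_lit 512) (nat_lit 136) (@Lb.g g9 (@Lb.g g11 (@Lb.r r2577 (@Lb.d (nat_lit 0) (nat_lit 10) (nat_lit 385) (@Lb.fm (nat_lit 3) t1410))))))
noncomputable def l4579 : Lb := (@Lb.d (nat_lit 390) (nat_lit 322) (nat_lit 389) (@Lb.r r1563 (@Lb.r r1688 (@Lb.r r1690 (@Lb.g g6 (@Lb.g g9 (@Lb.g g4 (@Lb.d (nat_lit 1) (nat_lit 34) (nat_lit 1) (@Lb.r r291 (@Lb.t (@Lb.fp (nat_lit 9) t5)))))))))))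
noncomputable def l4580 : Lb := (@Lb.d (nat_lit 0) (nat_lit 266) (nat_lit 130) (@Lb.g g9 (@Lb.g g10 (@Lb.g g11 (@Lb.r r2727 (@Lb.r r2457 (@Lb.r r356 (@Lb.r r154 (@Lb.d (nat_lit 516) (nat_lit 4) (nat_lit 32) (@Lb.t (@Lb.fm (nat_lit 9) t234)))))))))))
noncomputable def l4581 : Lb := (@Lb.d (nat_lit 0) (nat_lit 522) (nat_lit 4) (@Lb.g g9 (@Lb.g g10 (@Lb.g g11 (@Lb.r r2727 (@Lb.r r1304 (@Lb.r r2197 (@Lb.r r82 (@Lb.d (nat_lit 529) (nat_lit 1) (nat_lit 34) (@Lb.t (@Lb.fm (nat_lit 9) t1420)))))))))))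
noncomputable def l4582 : Lb := (@Lb.d (nat_lit 2) (nat_lit 514) (nat_lit 136) (@Lb.g g8 (@Lb.g g9 (@Lb.g g11 (@Lb.r r2585 (@Lb.d (nat_lit 329) (nat_lit 10) (nat_lit 385) (@Lb.t (@Lb.fm (nat_lit 9) t1410))))))))
noncomputable def l4583 : Lb := (@Lb.d (nat_lit 2) (nat_lit 514) (nat_lit 128) (@Lb.g g8 (@Lb.g g9 (@Lb.g g10 (@Lb.g g11 (@Lb.r r387 (@Lb.r r2585 (@Lb.d (nat_lit 329) (nat_lit 10) (nat_lit 392) (@Lb.fp (nat_lit 9) t1410)))))))))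
noncomputable def l4584 : Lb := (@Lb.d (nat_lit 2) (nat_lit 256) (nat_lit 0) (@Lb.g g8 (@Lb.g g9 (@Lb.r r41 (@Lb.d (nat_lit 5) (nat_lit 1) (nat_lit 0) (@Lb.fp (nat_lit 3) t2))))))
noncomputable def l4585 : Lb := (@Lb.d (nat_lit 2) (nat_lit 514) (nat_lit 0) (@Lb.g g8 (@Lb.g g9 (@Lb.r r2585 (@Lb.d (nat_lit 329) (nat_lit 0) (nat_lit 384) (@Lb.fm (nat_lit 3) t121))))))
noncomputable def l4586 : Lb := (@Lb.d (nat_lit 646) (nat_lit 261) (nat_lit 580) (@Lb.r r1301 (@Lb.r r323 (@Lb.g g7 (@Lb.g g6 (@Lb.g g5 (@Lb.g g4 (@Lb.d (nat_lit 1) (nat_lit 1) (nat_lit 64) (@Lb.fp (nat_lit 9) t375)))))))))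
noncomputable def l4587 : Lb := (@Lb.d (nat_lit 0) (nat_lit 256) (nat_lit 64) (@Lb.g g9 (@Lb.g g10 (@Lb.g g7 (@Lb.r r402 (@Lb.d (nat_lit 0) (nat_lit 17) (nat_lit 10) (@Lb.t (@Lb.fm (nat_lit 9) t44))))))))
noncomputable def l4588 : Lb := (@Lb.d (nat_lit 646) (nat_lit 517) (nat_lit 578) (@Lb.r r1301 (@Lb.g g7 (@Lb.g g5 (@Lb.g g4 (@Lb.d (nat_lit 1) (nat_lit 1) (nat_lit 68) (@Lb.t (@Lb.fp (nat_lit 9) t766))))))))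
noncomputable def l4589 : Lb := (@Lb.d (nat_lit 0) (nat_lit 256) (nat_lit 66) (@Lb.g g9 (@Lb.g g10 (@Lb.g g7 (@Lb.r r386 (@Lb.r r101 (@Lb.r r24 (@Lb.d (nat_lit 352) (nat_lit 0) (nat_lit 521) (@Lb.t (@Lb.fm (nat_lit 9) t1150))))))))))
noncomputable def l4590 : Lb := (@Lb.d (nat_lit 0) (nat_lit 2) (nat_lit 0) (@Lb.g g9 (@Lb.g g10 (@Lb.g g11 (@Lb.r r1634 (@Lb.r r2657 (@Lb.d (nat_lit 0) (nat_lit 100) (nat_lit 394) (@Lb.t (@Lb.fp (nat_lit 9) t1405)))))))))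
noncomputable def l4591 : Lb := (@Lb.d (nat_lit 0) (nat_lit 260) (nat_lit 1) (@Lb.g g9 (@Lb.g g10 (@Lb.g g11 (@Lb.r r679 (@Lb.r r1685 (@Lb.r r2404 (@Lb.r r1178 (@Lb.d (nat_lit 537) (nat_lit 137) (nat_lit 18) (@Lb.t (@Lb.fm (nat_lit 9) t602)))))))))))
noncomputable def l4592 : Lb := (@Lb.d (nat_lit 0) (nat_lit 512) (nat_lit 66) (@Lb.g g9 (@Lb.g g10 (@Lb.g g7 (@Lb.r r386 (@Lb.r r101 (@Lb.r r24 (@Lb.d (nat_lit 354) (nat_lit 0) (nat_lit 521) (@Lb.t (@Lb.fm (nat_lit 9) t166))))))))))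
noncomputable def l4593 : Lb := (@Lb.d (nat_lit 0) (nat_lit 256) (nat_lit 130) (@Lb.g g9 (@Lb.g g10 (@Lb.g g11 (@Lb.r r2726 (@Lb.r r1368 (@Lb.r r2567 (@Lb.r r289 (@Lb.d (nat_lit 648) (nat_lit 130) (nat_lit 64) (@Lb.t (@Lb.fm (nat_lit 9) t1412)))))))))))
noncomputable def l4594 : Lb := (@Lb.d (nat_lit 0) (nat_lit 38) (nat_lit 128) (@Lb.g g9 (@Lb.g g10 (@Lb.g g11 (@Lb.r r387 (@Lb.r r1682 (@Lb.r r1633 (@Lb.d (nat_lit 0) (nat_lit 21) (nat_lit 586) (@Lb.t (@Lb.fm (nat_lit 9) t406))))))))))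
noncomputable def l4595 : Lb := (@Lb.d (nat_lit 0) (nat_lit 266) (nat_lit 0) (@Lb.g g9 (@Lb.d (nat_lit 0) (nat_lit 80) (nat_lit 426) (@Lb.t (@Lb.fp (nat_lit 3) t153)))))
noncomputable def l4596 : Lb := (@Lb.d (nat_lit 0) (nat_lit 36) (nat_lit 128) (@Lb.g g9 (@Lb.g g10 (@Lb.g g11 (@Lb.r r387 (@Lb.r r1442 (@Lb.r r2193 (@Lb.d (nat_lit 0) (nat_lit 168) (nat_lit 289) (@Lb.t (@Lb.fp (nat_lit 9) t237))))))))))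
noncomputable def l4597 : Lb := (@Lb.d (nat_lit 8) (nat_lit 546) (nat_lit 0) (@Lb.g g9 (@Lb.r r536 (@Lb.r r2715 (@Lb.r r2178 (@Lb.r r2469 (@Lb.d (nat_lit 72) (nat_lit 102) (nat_lit 682) (@Lb.t (@Lb.fp (nat_lit 3) t64)))))))))
noncomputable def l4598 : Lb := (@Lb.d (nat_lit 0) (nat_lit 160) (nat_lit 64) (@Lb.g g9 (@Lb.g g11 (@Lb.r r531 (@Lb.d (nat_lit 0) (nat_lit 105) (nat_lit 66) (@Lb.fp (nat_lit 3) t236))))))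
noncomputable def l4599 : Lb := (@Lb.d (nat_lit 0) (nat_lit 288) (nat_lit 128) (@Lb.g g9 (@Lb.g g11 (@Lb.r r2642 (@Lb.r r1619 (@Lb.r r401 (@Lb.d (nat_lit 0) (nat_lit 73) (nat_lit 409) (@Lb.fp (nat_lit 3) t237))))))))
noncomputable def l4600 : Lb := (@Lb.d (nat_lit 2) (nat_lit 512) (nat_lit 0) (@Lb.g g8 (@Lb.g g9 (@Lb.fm (nat_lit 3) t2))))
noncomputable def l4601 : Lb := (@Lb.d (nat_lit 105) (nat_lit 358) (nat_lit 6) (@Lb.r r37 (@Lb.r r422 (@Lb.r r88 (@Lb.g g11 (@Lb.g g5 (@Lb.d (nat_lit 4) (nat_lit 2) (nat_lit 0) (@Lb.fm (nat_lit 3) t145))))))))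
noncomputable def l4602 : Lb := (@Lb.d (nat_lit 32) (nat_lit 292) (nat_lit 5) (@Lb.g g9 (@Lb.g g10 (@Lb.g g11 (@Lb.r r1707 (@Lb.r r1689 (@Lb.r r100 (@Lb.r r410 (@Lb.d (nat_lit 393) (nat_lit 25) (nat_lit 169) (@Lb.t (@Lb.fm (nat_lit 9) t264)))))))))))
noncomputable def l4603 : Lb := (@Lb.d (nat_lit 0) (nat_lit 4) (nat_lit 1) (@Lb.g g9 (@Lb.g g10 (@Lb.r r1543 (@Lb.r r1685 (@Lb.r r2404 (@Lb.r r1178 (@Lb.d (nat_lit 538) (nat_lit 2) (nat_lit 0) (@Lb.fm (nat_lit 3) t223)))))))))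
noncomputable def l4604 : Lb := (@Lb.d (nat_lit 0) (nat_lit 258) (nat_lit 64) (@Lb.g g9 (@Lb.g g10 (@Lb.g g11 (@Lb.r r2723 (@Lb.r r1634 (@Lb.r r2657 (@Lb.d (nat_lit 0) (nat_lit 100) (nat_lit 168) (@Lb.t (@Lb.fm (nat_lit 9) t1421))))))))))
noncomputable def l4605 : Lb := (@Lb.r r1362 (@Lb.d (nat_lit 128) (nat_lit 548) (nat_lit 0) (@Lb.g g9 (@Lb.g g11 (@Lb.r r1348 (@Lb.r r2379 (@Lb.d (nat_lit 146) (nat_lit 70) (nat_lit 645) (@Lb.fm (nat_lit 3) t1422))))))))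
noncomputable def l4606 : Lb := (@Lb.d (nat_lit 0) (nat_lit 0) (nat_lit 534) (@Lb.r r1044 (@Lb.r r25 (@Lb.r r410 (@Lb.r r148 (@Lb.g g11 (@Lb.t (@Lb.fm (nat_lit 3) t627))))))))
noncomputable def l4607 : Lb := (@Lb.d (nat_lit 2) (nat_lit 421) (nat_lit 0) (@Lb.g g8 (@Lb.g g5 (@Lb.r r24 (@Lb.d (nat_lit 10) (nat_lit 80) (nat_lit 1) (@Lb.fm (nat_lit 3) t1403))))))
noncomputable def l4608 : Lb := (@Lb.d (nat_lit 40) (nat_lit 0) (nat_lit 128) (@Lb.g g9 (@Lb.g g10 (@Lb.g g11 (@Lb.r r391 (@Lb.r r584 (@Lb.r r2454 (@Lb.r r2129 (@Lb.d (nat_lit 326) (nat_lit 21) (nat_lit 16) (@Lb.t (@Lb.fm (nat_lit 9) t322)))))))))))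
noncomputable def l4609 : Lb := (@Lb.r r331 (@Lb.d (nat_lit 6) (nat_lit 0) (nat_lit 0) (@Lb.g g8 (@Lb.g g9 (@Lb.g g10 (@Lb.r r1706 (@Lb.r r1700 (@Lb.r r2597 (@Lb.r r291 (@Lb.d (nat_lit 641) (nat_lit 169) (nat_lit 660) (@Lb.t (@Lb.fm (nat_lit 9) t1423))))))))))))
noncomputable def l4610 : Lb := (@Lb.d (nat_lit 2) (nat_lit 4) (nat_lit 138) (@Lb.g g8 (@Lb.g g9 (@Lb.g g10 (@Lb.g g11 (@Lb.r r1626 (@Lb.r r2659 (@Lb.r r97 (@Lb.r r24 (@Lb.d (nat_lit 426) (nat_lit 33) (nat_lit 602) (@Lb.fm (nat_lit 9) t1424)))))))))))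
noncomputable def l4611 : Lb := (@Lb.d (nat_lit 0) (nat_lit 408) (nat_lit 345) (@Lb.r r97 (@Lb.r r2386 (@Lb.g g7 (@Lb.g g6 (@Lb.g g5 (@Lb.d (nat_lit 0) (nat_lit 6) (nat_lit 65) (@Lb.t (@Lb.fm (nat_lit 9) t144)))))))))
noncomputable def l4612 : Lb := (@Lb.d (nat_lit 1) (nat_lit 4) (nat_lit 138) (@Lb.g g8 (@Lb.g g9 (@Lb.g g10 (@Lb.g g11 (@Lb.r r1626 (@Lb.r r2659 (@Lb.r r97 (@Lb.r r24 (@Lb.d (nat_lit 421) (nat_lit 42) (nat_lit 601) (@Lb.fm (nat_lit 9) t931)))))))))))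
noncomputable def l4613 : Lb := (@Lb.d (nat_lit 4) (nat_lit 512) (nat_lit 0) (@Lb.g g8 (@Lb.g g9 (@Lb.r r138 (@Lb.r r644 (@Lb.r r2583 (@Lb.r r1313 (@Lb.d (nat_lit 0) (nat_lit 72) (nat_lit 386) (@Lb.fp (nat_lit 3) t119)))))))))
noncomputable def l4614 : Lb := (@Lb.r r82 (@Lb.r r275 (@Lb.d (nat_lit 0) (nat_lit 137) (nat_lit 0) (@Lb.g g9 (@Lb.r r291 (@Lb.r r98 (@Lb.d (nat_lit 0) (nat_lit 74) (nat_lit 1) (@Lb.t (@Lb.fp (nat_lit 3) t7)))))))))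
noncomputable def l4615 : Lb := (@Lb.d (nat_lit 0) (nat_lit 0) (nat_lit 10) (@Lb.g g9 (@Lb.g g10 (@Lb.r r579 (@Lb.r r2577 (@Lb.d (nat_lit 0) (nat_lit 0) (nat_lit 386) (@Lb.fp (nat_lit 3) t121)))))))
noncomputable def l4616 : Lb := (@Lb.d (nat_lit 32) (nat_lit 0) (nat_lit 73) (@Lb.g g10 (@Lb.g g11 (@Lb.r r2695 (@Lb.r r1352 (@Lb.r r2182 (@Lb.r r289 (@Lb.d (nat_lit 421) (nat_lit 1) (nat_lit 402) (@Lb.fm (nat_lit 3) t1425)))))))))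
noncomputable def l4617 : Lb := (@Lb.d (nat_lit 0) (nat_lit 8) (nat_lit 73) (@Lb.g g10 (@Lb.g g11 (@Lb.r r2707 (@Lb.r r1381 (@Lb.r r1178 (@Lb.r r24 (@Lb.d (nat_lit 129) (nat_lit 0) (nat_lit 656) (@Lb.fm (nat_lit 3) t1426)))))))))
noncomputable def l4618 : Lb := (@Lb.d (nat_lit 0) (nat_lit 544) (nat_lit 73) (@Lb.g g8 (@Lb.g g10 (@Lb.g g11 (@Lb.r r2714 (@Lb.r r101 (@Lb.r r404 (@Lb.r r299 (@Lb.d (nat_lit 260) (nat_lit 34) (nat_lit 512) (@Lb.t (@Lb.fm (nat_lit 9) t242)))))))))))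
noncomputable def l4619 : Lb := (@Lb.d (nat_lit 2) (nat_lit 281) (nat_lit 73) (@Lb.g g8 (@Lb.g g9 (@Lb.g g10 (@Lb.g g11 (@Lb.r r2411 (@Lb.r r1618 (@Lb.r r1361 (@Lb.r r24 (@Lb.d (nat_lit 84) (nat_lit 132) (nat_lit 392) (@Lb.fm (nat_lit 9) t1108)))))))))))
noncomputable def l4620 : Lb := (@Lb.r r82 (@Lb.d (nat_lit 2) (nat_lit 514) (nat_lit 0) (@Lb.g g8 (@Lb.g g9 (@Lb.r r2122 (@Lb.r r1633 (@Lb.d (nat_lit 100) (nat_lit 154) (nat_lit 138) (@Lb.fp (nat_lit 3) t1427))))))))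
noncomputable def l4621 : Lb := (@Lb.d (nat_lit 2) (nat_lit 258) (nat_lit 130) (@Lb.g g8 (@Lb.g g9 (@Lb.g g10 (@Lb.g g11 (@Lb.r r2411 (@Lb.r r386 (@Lb.r r97 (@Lb.r r24 (@Lb.d (nat_lit 536) (nat_lit 9) (nat_lit 137) (@Lb.fm (nat_lit 9) t61)))))))))))
noncomputable def l4622 : Lb := (@Lb.d (nat_lit 6) (nat_lit 522) (nat_lit 73) (@Lb.g g8 (@Lb.g g9 (@Lb.g g10 (@Lb.g g11 (@Lb.r r2698 (@Lb.r r2451 (@Lb.r r552 (@Lb.r r617 (@Lb.r r2084 (@Lb.d (nat_lit 104) (nat_lit 162) (nat_lit 546) (@Lb.fm (nat_lit 9) t1428))))))))))))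
noncomputable def l4623 : Lb := (@Lb.d (nat_lit 32) (nat_lit 0) (nat_lit 73) (@Lb.g g10 (@Lb.g g11 (@Lb.r r2695 (@Lb.r r1352 (@Lb.r r2390 (@Lb.r r409 (@Lb.d (nat_lit 129) (nat_lit 36) (nat_lit 65) (@Lb.fm (nat_lit 3) t1429)))))))))
noncomputable def l4624 : Lb := (@Lb.d (nat_lit 2) (nat_lit 2) (nat_lit 130) (@Lb.g g8 (@Lb.g g9 (@Lb.g g10 (@Lb.g g11 (@Lb.r r2411 (@Lb.r r386 (@Lb.r r97 (@Lb.r r24 (@Lb.d (nat_lit 538) (nat_lit 4) (nat_lit 136) (@Lb.fm (nat_lit 9) t61)))))))))))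
noncomputable def l4625 : Lb := (@Lb.d (nat_lit 0) (nat_lit 416) (nat_lit 0) (@Lb.g g6 (@Lb.g g9 (@Lb.d (nat_lit 0) (nat_lit 90) (nat_lit 2) (@Lb.fp (nat_lit 3) t1410)))))
noncomputable def l4626 : Lb := (@Lb.r r338 (@Lb.d (nat_lit 8) (nat_lit 546) (nat_lit 128) (@Lb.g g9 (@Lb.g g11 (@Lb.r r1178 (@Lb.r r2072 (@Lb.r r2069 (@Lb.d (nat_lit 294) (nat_lit 130) (nat_lit 34) (@Lb.fm (nat_lit 3) t1430)))))))))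
noncomputable def l4627 : Lb := (@Lb.d (nat_lit 2) (nat_lit 514) (nat_lit 2) (@Lb.g g8 (@Lb.g g9 (@Lb.g g10 (@Lb.r r2666 (@Lb.r r579 (@Lb.r r25 (@Lb.d (nat_lit 4) (nat_lit 101) (nat_lit 584) (@Lb.t (@Lb.fp (nat_lit 9) t51))))))))))
noncomputable def l4628 : Lb := (@Lb.d (nat_lit 2) (nat_lit 544) (nat_lit 73) (@Lb.g g8 (@Lb.g g10 (@Lb.g g11 (@Lb.r r2714 (@Lb.r r101 (@Lb.r r404 (@Lb.r r299 (@Lb.d (nat_lit 265) (nat_lit 32) (nat_lit 512) (@Lb.t (@Lb.fm (nat_lit 9) t1425)))))))))))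
noncomputable def l4629 : Lb := (@Lb.d (nat_lit 8) (nat_lit 258) (nat_lit 130) (@Lb.g g9 (@Lb.g g10 (@Lb.g g11 (@Lb.r r419 (@Lb.r r98 (@Lb.r r24 (@Lb.r r101 (@Lb.d (nat_lit 21) (nat_lit 137) (nat_lit 34) (@Lb.t (@Lb.fm (nat_lit 9) t232)))))))))))
noncomputable def l4630 : Lb := (@Lb.d (nat_lit 33) (nat_lit 0) (nat_lit 32) (@Lb.r r154 (@Lb.r r660 (@Lb.r r663 (@Lb.r r353 (@Lb.g g7 (@Lb.g g4 (@Lb.d (nat_lit 6) (nat_lit 0) (nat_lit 64) (@Lb.fp (nat_lit 3) t51)))))))))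
noncomputable def l4631 : Lb := (@Lb.d (nat_lit 33) (nat_lit 512) (nat_lit 33) (@Lb.r r154 (@Lb.r r660 (@Lb.r r663 (@Lb.r r353 (@Lb.g g7 (@Lb.g g6 (@Lb.g g4 (@Lb.d (nat_lit 6) (nat_lit 4) (nat_lit 65) (@Lb.t (@Lb.fm (nat_lit 9) t51)))))))))))
noncomputable def l4632 : Lb := (@Lb.d (nat_lit 33) (nat_lit 0) (nat_lit 32) (@Lb.r r154 (@Lb.r r660 (@Lb.r r663 (@Lb.r r353 (@Lb.g g7 (@Lb.g g6 (@Lb.g g4 (@Lb.d (nat_lit 6) (nat_lit 0) (nat_lit 64) (@Lb.t (@Lb.fm (nat_lit 9) t51)))))))))))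
noncomputable def l4633 : Lb := (@Lb.r r355 (@Lb.d (nat_lit 2) (nat_lit 514) (nat_lit 2) (@Lb.g g8 (@Lb.g g9 (@Lb.g g10 (@Lb.r r2706 (@Lb.r r679 (@Lb.r r296 (@Lb.r r2153 (@Lb.d (nat_lit 544) (nat_lit 90) (nat_lit 290) (@Lb.t (@Lb.fm (nat_lit 9) t482))))))))))))
noncomputable def l4634 : Lb := (@Lb.d (nat_lit 257) (nat_lit 101) (nat_lit 260) (@Lb.r r21 (@Lb.r r1640 (@Lb.r r1643 (@Lb.g g7 (@Lb.g g10 (@Lb.g g5 (@Lb.g g4 (@Lb.d (nat_lit 25) (nat_lit 0) (nat_lit 66) (@Lb.fm (nat_lit 9) t468))))))))))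
noncomputable def l4635 : Lb := (@Lb.d (nat_lit 128) (nat_lit 4) (nat_lit 128) (@Lb.g g9 (@Lb.g g10 (@Lb.g g11 (@Lb.r r264 (@Lb.r r519 (@Lb.r r106 (@Lb.r r97 (@Lb.d (nat_lit 130) (nat_lit 10) (nat_lit 134) (@Lb.t (@Lb.fp (nat_lit 9) t524)))))))))))
noncomputable def l4636 : Lb := (@Lb.r r21 (@Lb.d (nat_lit 16) (nat_lit 512) (nat_lit 128) (@Lb.g g8 (@Lb.g g10 (@Lb.g g11 (@Lb.r r395 (@Lb.r r297 (@Lb.r r392 (@Lb.r r602 (@Lb.d (nat_lit 98) (nat_lit 22) (nat_lit 133) (@Lb.t (@Lb.fm (nat_lit 9) t381))))))))))))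
noncomputable def l4637 : Lb := (@Lb.d (nat_lit 1) (nat_lit 517) (nat_lit 128) (@Lb.g g8 (@Lb.g g9 (@Lb.g g10 (@Lb.g g11 (@Lb.r r618 (@Lb.r r612 (@Lb.r r615 (@Lb.r r609 (@Lb.r r36 (@Lb.d (nat_lit 2) (nat_lit 26) (nat_lit 130) (@Lb.fp (nat_lit 9) t524))))))))))))
noncomputable def l4638 : Lb := (@Lb.r r21 (@Lb.d (nat_lit 16) (nat_lit 256) (nat_lit 128) (@Lb.g g8 (@Lb.g g10 (@Lb.g g11 (@Lb.r r395 (@Lb.r r297 (@Lb.r r392 (@Lb.r r602 (@Lb.d (nat_lit 98) (nat_lit 22) (nat_lit 10) (@Lb.t (@Lb.fm (nat_lit 9) t381))))))))))))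
noncomputable def l4639 : Lb := (@Lb.d (nat_lit 134) (nat_lit 530) (nat_lit 68) (@Lb.r r600 (@Lb.r r603 (@Lb.r r273 (@Lb.g g7 (@Lb.g g10 (@Lb.g g4 (@Lb.d (nat_lit 5) (nat_lit 0) (nat_lit 65) (@Lb.r r145 (@Lb.t (@Lb.fm (nat_lit 9) t44)))))))))))
noncomputable def l4640 : Lb := (@Lb.r r21 (@Lb.d (nat_lit 16) (nat_lit 0) (nat_lit 128) (@Lb.g g8 (@Lb.g g10 (@Lb.g g11 (@Lb.r r395 (@Lb.r r297 (@Lb.r r392 (@Lb.r r602 (@Lb.d (nat_lit 105) (nat_lit 21) (nat_lit 133) (@Lb.t (@Lb.fm (nat_lit 9) t422))))))))))))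
noncomputable def l4641 : Lb := (@Lb.r r323 (@Lb.d (nat_lit 0) (nat_lit 522) (nat_lit 0) (@Lb.g g9 (@Lb.g g6 (@Lb.r r2339 (@Lb.r r101 (@Lb.r r24 (@Lb.d (nat_lit 290) (nat_lit 0) (nat_lit 66) (@Lb.fp (nat_lit 3) t771)))))))))
noncomputable def l4642 : Lb := (@Lb.d (nat_lit 4) (nat_lit 257) (nat_lit 0) (@Lb.g g5 (@Lb.r r2331 (@Lb.r r24 (@Lb.d (nat_lit 256) (nat_lit 1) (nat_lit 64) (@Lb.t (@Lb.fp (nat_lit 3) t1165)))))))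
noncomputable def l4643 : Lb := (@Lb.d (nat_lit 0) (nat_lit 162) (nat_lit 137) (@Lb.r r275 (@Lb.g g9 (@Lb.d (nat_lit 0) (nat_lit 89) (nat_lit 0) (@Lb.r r291 (@Lb.t (@Lb.fp (nat_lit 3) t236)))))))
noncomputable def l4644 : Lb := (@Lb.d (nat_lit 646) (nat_lit 256) (nat_lit 576) (@Lb.r r1301 (@Lb.g g7 (@Lb.g g5 (@Lb.g g4 (@Lb.d (nat_lit 1) (nat_lit 1) (nat_lit 0) (@Lb.t (@Lb.fp (nat_lit 9) t1431))))))))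
noncomputable def l4645 : Lb := (@Lb.r r323 (@Lb.d (nat_lit 8) (nat_lit 42) (nat_lit 2) (@Lb.g g9 (@Lb.g g10 (@Lb.r r2470 (@Lb.r r1624 (@Lb.r r1691 (@Lb.r r2469 (@Lb.d (nat_lit 610) (nat_lit 98) (nat_lit 681) (@Lb.fm (nat_lit 3) t255))))))))))
noncomputable def l4646 : Lb := (@Lb.r r323 (@Lb.d (nat_lit 0) (nat_lit 522) (nat_lit 2) (@Lb.g g9 (@Lb.g g10 (@Lb.r r2339 (@Lb.r r2193 (@Lb.r r146 (@Lb.d (nat_lit 0) (nat_lit 72) (nat_lit 96) (@Lb.fp (nat_lit 3) t28)))))))))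
noncomputable def l4647 : Lb := (@Lb.d (nat_lit 4) (nat_lit 257) (nat_lit 128) (@Lb.g g5 (@Lb.g g11 (@Lb.r r1602 (@Lb.r r579 (@Lb.r r24 (@Lb.d (nat_lit 352) (nat_lit 1) (nat_lit 341) (@Lb.fp (nat_lit 3) t1432))))))))
noncomputable def l4648 : Lb := (@Lb.r r322 (@Lb.d (nat_lit 0) (nat_lit 0) (nat_lit 576) (@Lb.g g9 (@Lb.g g7 (@Lb.r r1618 (@Lb.r r1425 (@Lb.d (nat_lit 0) (nat_lit 64) (nat_lit 576) (@Lb.fp (nat_lit 3) t1433))))))))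
noncomputable def l4649 : Lb := (@Lb.d (nat_lit 0) (nat_lit 34) (nat_lit 64) (@Lb.g g9 (@Lb.g g11 (@Lb.r r2130 (@Lb.r r2705 (@Lb.r r531 (@Lb.d (nat_lit 0) (nat_lit 81) (nat_lit 354) (@Lb.fp (nat_lit 3) t1434))))))))
noncomputable def l4650 : Lb := (@Lb.d (nat_lit 0) (nat_lit 256) (nat_lit 104) (@Lb.g g6 (@Lb.g g11 (@Lb.r r579 (@Lb.r r1425 (@Lb.d (nat_lit 0) (nat_lit 5) (nat_lit 680) (@Lb.fm (nat_lit 3) t29)))))))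
noncomputable def l4651 : Lb := (@Lb.r r154 (@Lb.r r660 (@Lb.r r407 (@Lb.r r609 (@Lb.d (nat_lit 0) (nat_lit 657) (nat_lit 138) (@Lb.fp (nat_lit 1) t44))))))
noncomputable def l4652 : Lb := (@Lb.d (nat_lit 41) (nat_lit 517) (nat_lit 128) (@Lb.g g8 (@Lb.g g9 (@Lb.g g10 (@Lb.g g11 (@Lb.r r582 (@Lb.r r1688 (@Lb.r r555 (@Lb.r r545 (@Lb.d (nat_lit 393) (nat_lit 25) (nat_lit 614) (@Lb.fm (nat_lit 9) t86)))))))))))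
noncomputable def l4653 : Lb := (@Lb.d (nat_lit 26) (nat_lit 73) (nat_lit 18) (@Lb.r r90 (@Lb.r r596 (@Lb.r r279 (@Lb.g g6 (@Lb.g g9 (@Lb.d (nat_lit 0) (nat_lit 17) (nat_lit 1) (@Lb.r r387 (@Lb.fp (nat_lit 3) t1400)))))))))
noncomputable def l4654 : Lb := (@Lb.d (nat_lit 1) (nat_lit 266) (nat_lit 0) (@Lb.r r597 (@Lb.r r599 (@Lb.r r264 (@Lb.r r134 (@Lb.g g7 (@Lb.d (nat_lit 64) (nat_lit 0) (nat_lit 64) (@Lb.t (@Lb.fp (nat_lit 3) t61)))))))))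
noncomputable def l4655 : Lb := (@Lb.d (nat_lit 401) (nat_lit 0) (nat_lit 102) (@Lb.r r390 (@Lb.r r72 (@Lb.r r279 (@Lb.r r545 (@Lb.g g7 (@Lb.g g6 (@Lb.g g5 (@Lb.d (nat_lit 16) (nat_lit 0) (nat_lit 65) (@Lb.t (@Lb.fm (nat_lit 9) t1369)))))))))))
noncomputable def l4656 : Lb := (@Lb.r r82 (@Lb.r r275 (@Lb.d (nat_lit 2) (nat_lit 256) (nat_lit 0) (@Lb.g g8 (@Lb.g g9 (@Lb.r r2475 (@Lb.r r1174 (@Lb.r r2217 (@Lb.d (nat_lit 282) (nat_lit 138) (nat_lit 18) (@Lb.fm (nat_lit 3) t778))))))))))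
noncomputable def l4657 : Lb := (@Lb.d (nat_lit 2) (nat_lit 265) (nat_lit 0) (@Lb.g g8 (@Lb.g g9 (@Lb.r r138 (@Lb.r r644 (@Lb.r r2583 (@Lb.r r1313 (@Lb.d (nat_lit 0) (nat_lit 74) (nat_lit 386) (@Lb.fp (nat_lit 3) t71)))))))))
noncomputable def l4658 : Lb := (@Lb.d (nat_lit 385) (nat_lit 0) (nat_lit 596) (@Lb.r r24 (@Lb.r r1317 (@Lb.r r2466 (@Lb.r r2691 (@Lb.g g7 (@Lb.g g6 (@Lb.g g5 (@Lb.d (nat_lit 0) (nat_lit 10) (nat_lit 133) (@Lb.t (@Lb.fp (nat_lit 9) t719)))))))))))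
noncomputable def l4659 : Lb := (@Lb.d (nat_lit 128) (nat_lit 258) (nat_lit 130) (@Lb.g g8 (@Lb.g g9 (@Lb.g g10 (@Lb.g g11 (@Lb.r r2410 (@Lb.r r1411 (@Lb.r r409 (@Lb.r r388 (@Lb.d (nat_lit 105) (nat_lit 9) (nat_lit 137) (@Lb.fp (nat_lit 9) t394)))))))))))
noncomputable def l4660 : Lb := (@Lb.r r579 (@Lb.d (nat_lit 0) (nat_lit 256) (nat_lit 160) (@Lb.fm (nat_lit 1) t2)))
noncomputable def l4661 : Lb := (@Lb.d (nat_lit 528) (nat_lit 0) (nat_lit 129) (@Lb.r r24 (@Lb.r r101 (@Lb.r r1299 (@Lb.g g10 (@Lb.g g5 (@Lb.d (nat_lit 0) (nat_lit 0) (nat_lit 2) (@Lb.r r387 (@Lb.fp (nat_lit 3) t719)))))))))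
noncomputable def l4662 : Lb := (@Lb.d (nat_lit 128) (nat_lit 512) (nat_lit 64) (@Lb.g g11 (@Lb.r r586 (@Lb.r r24 (@Lb.r r405 (@Lb.r r611 (@Lb.d (nat_lit 0) (nat_lit 149) (nat_lit 393) (@Lb.t (@Lb.fp (nat_lit 3) t242)))))))))
noncomputable def l4663 : Lb := (@Lb.d (nat_lit 128) (nat_lit 512) (nat_lit 64) (@Lb.g g11 (@Lb.r r134 (@Lb.r r264 (@Lb.r r599 (@Lb.r r289 (@Lb.d (nat_lit 25) (nat_lit 74) (nat_lit 2) (@Lb.t (@Lb.fp (nat_lit 3) t51)))))))))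
noncomputable def l4664 : Lb := (@Lb.r r323 (@Lb.d (nat_lit 32) (nat_lit 578) (nat_lit 2) (@Lb.g g5 (@Lb.g g10 (@Lb.r r1555 (@Lb.r r1096 (@Lb.r r2150 (@Lb.d (nat_lit 281) (nat_lit 136) (nat_lit 34) (@Lb.fp (nat_lit 3) t324)))))))))
noncomputable def l4665 : Lb := (@Lb.d (nat_lit 0) (nat_lit 9) (nat_lit 130) (@Lb.g g9 (@Lb.g g10 (@Lb.g g11 (@Lb.r r2663 (@Lb.r r1368 (@Lb.r r2214 (@Lb.r r2089 (@Lb.d (nat_lit 296) (nat_lit 68) (nat_lit 17) (@Lb.t (@Lb.fm (nat_lit 9) t525)))))))))))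
noncomputable def l4666 : Lb := (@Lb.d (nat_lit 402) (nat_lit 617) (nat_lit 356) (@Lb.r r146 (@Lb.r r2389 (@Lb.g g7 (@Lb.g g6 (@Lb.g g5 (@Lb.g g4 (@Lb.d (nat_lit 1) (nat_lit 6) (nat_lit 2) (@Lb.fm (nat_lit 9) t1435)))))))))
noncomputable def l4667 : Lb := (@Lb.d (nat_lit 0) (nat_lit 512) (nat_lit 129) (@Lb.g g9 (@Lb.g g10 (@Lb.g g11 (@Lb.r r2663 (@Lb.r r2393 (@Lb.r r420 (@Lb.r r102 (@Lb.d (nat_lit 546) (nat_lit 0) (nat_lit 34) (@Lb.t (@Lb.fp (nat_lit 9) t228)))))))))))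
noncomputable def l4668 : Lb := (@Lb.d (nat_lit 160) (nat_lit 512) (nat_lit 130) (@Lb.g g9 (@Lb.g g10 (@Lb.g g11 (@Lb.r r264 (@Lb.r r279 (@Lb.r r613 (@Lb.r r410 (@Lb.d (nat_lit 296) (nat_lit 25) (nat_lit 84) (@Lb.t (@Lb.fp (nat_lit 9) t127)))))))))))
noncomputable def l4669 : Lb := (@Lb.d (nat_lit 32) (nat_lit 66) (nat_lit 73) (@Lb.g g5 (@Lb.g g10 (@Lb.g g11 (@Lb.r r2339 (@Lb.r r360 (@Lb.r r582 (@Lb.d (nat_lit 657) (nat_lit 18) (nat_lit 266) (@Lb.t (@Lb.fm (nat_lit 9) t324))))))))))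
noncomputable def l4670 : Lb := (@Lb.d (nat_lit 0) (nat_lit 0) (nat_lit 66) (@Lb.g g9 (@Lb.g g10 (@Lb.g g7 (@Lb.r r386 (@Lb.r r101 (@Lb.r r24 (@Lb.d (nat_lit 34) (nat_lit 0) (nat_lit 9) (@Lb.t (@Lb.fm (nat_lit 9) t40))))))))))
noncomputable def l4671 : Lb := (@Lb.d (nat_lit 0) (nat_lit 328) (nat_lit 2) (@Lb.g g7 (@Lb.g g9 (@Lb.d (nat_lit 0) (nat_lit 130) (nat_lit 0) (@Lb.fp (nat_lit 3) t126)))))
noncomputable def l4672 : Lb := (@Lb.r r322 (@Lb.d (nat_lit 0) (nat_lit 42) (nat_lit 128) (@Lb.g g9 (@Lb.g g11 (@Lb.r r146 (@Lb.d (nat_lit 0) (nat_lit 2) (nat_lit 16) (@Lb.fp (nat_lit 3) t150)))))))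
noncomputable def l4673 : Lb := (@Lb.d (nat_lit 128) (nat_lit 266) (nat_lit 129) (@Lb.g g9 (@Lb.g g10 (@Lb.g g11 (@Lb.r r166 (@Lb.r r264 (@Lb.r r599 (@Lb.r r289 (@Lb.d (nat_lit 26) (nat_lit 41) (nat_lit 2) (@Lb.t (@Lb.fm (nat_lit 9) t50)))))))))))
noncomputable def l4674 : Lb := (@Lb.d (nat_lit 2) (nat_lit 256) (nat_lit 130) (@Lb.g g8 (@Lb.g g9 (@Lb.g g10 (@Lb.g g11 (@Lb.r r419 (@Lb.r r401 (@Lb.r r90 (@Lb.r r145 (@Lb.d (nat_lit 9) (nat_lit 9) (nat_lit 18) (@Lb.fp (nat_lit 9) t221)))))))))))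
noncomputable def l4675 : Lb := (@Lb.d (nat_lit 0) (nat_lit 2) (nat_lit 0) (@Lb.g g8 (@Lb.g g9 (@Lb.r r2643 (@Lb.r r1122 (@Lb.r r25 (@Lb.r r24 (@Lb.d (nat_lit 513) (nat_lit 0) (nat_lit 32) (@Lb.fm (nat_lit 3) t284)))))))))
noncomputable def l4676 : Lb := (@Lb.d (nat_lit 8) (nat_lit 258) (nat_lit 64) (@Lb.g g9 (@Lb.g g11 (@Lb.r r1447 (@Lb.r r1126 (@Lb.r r24 (@Lb.d (nat_lit 514) (nat_lit 2) (nat_lit 101) (@Lb.fp (nat_lit 3) t284))))))))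
noncomputable def l4677 : Lb := (@Lb.d (nat_lit 390) (nat_lit 657) (nat_lit 352) (@Lb.r r2325 (@Lb.r r1387 (@Lb.r r2710 (@Lb.g g5 (@Lb.g g4 (@Lb.d (nat_lit 1) (nat_lit 21) (nat_lit 0) (@Lb.r r98 (@Lb.fp (nat_lit 3) t1436)))))))))
noncomputable def l4678 : Lb := (@Lb.d (nat_lit 146) (nat_lit 261) (nat_lit 358) (@Lb.r r2374 (@Lb.r r1691 (@Lb.r r2389 (@Lb.g g6 (@Lb.g g5 (@Lb.g g4 (@Lb.d (nat_lit 1) (nat_lit 1) (nat_lit 1) (@Lb.t (@Lb.fm (nat_lit 9) t1437))))))))))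
noncomputable def l4679 : Lb := (@Lb.d (nat_lit 20) (nat_lit 70) (nat_lit 18) (@Lb.r r2641 (@Lb.r r1094 (@Lb.r r339 (@Lb.g g7 (@Lb.g g6 (@Lb.g g5 (@Lb.g g4 (@Lb.d (nat_lit 1) (nat_lit 0) (nat_lit 65) (@Lb.fp (nat_lit 9) t1265))))))))))
noncomputable def l4680 : Lb := (@Lb.d (nat_lit 65) (nat_lit 533) (nat_lit 104) (@Lb.r r662 (@Lb.r r391 (@Lb.r r584 (@Lb.g g6 (@Lb.g g9 (@Lb.d (nat_lit 16) (nat_lit 33) (nat_lit 5) (@Lb.fp (nat_lit 3) t5))))))))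
noncomputable def l4681 : Lb := (@Lb.r r326 (@Lb.d (nat_lit 2) (nat_lit 258) (nat_lit 576) (@Lb.g g8 (@Lb.g g9 (@Lb.g g7 (@Lb.r r2465 (@Lb.r r2146 (@Lb.r r2632 (@Lb.d (nat_lit 354) (nat_lit 90) (nat_lit 642) (@Lb.t (@Lb.fp (nat_lit 9) t1438)))))))))))
noncomputable def l4682 : Lb := (@Lb.r r326 (@Lb.d (nat_lit 132) (nat_lit 16) (nat_lit 648) (@Lb.g g8 (@Lb.g g9 (@Lb.g g7 (@Lb.r r594 (@Lb.r r2337 (@Lb.r r536 (@Lb.d (nat_lit 74) (nat_lit 97) (nat_lit 32) (@Lb.t (@Lb.fp (nat_lit 9) t1439)))))))))))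
noncomputable def l4683 : Lb := (@Lb.d (nat_lit 2) (nat_lit 258) (nat_lit 0) (@Lb.g g8 (@Lb.g g9 (@Lb.g g10 (@Lb.r r615 (@Lb.r r90 (@Lb.r r25 (@Lb.r r24 (@Lb.d (nat_lit 513) (nat_lit 66) (nat_lit 32) (@Lb.t (@Lb.fm (nat_lit 9) t881)))))))))))
noncomputable def l4684 : Lb := (@Lb.d (nat_lit 2) (nat_lit 33) (nat_lit 132) (@Lb.g g8 (@Lb.g g9 (@Lb.g g10 (@Lb.g g11 (@Lb.r r1706 (@Lb.r r676 (@Lb.r r551 (@Lb.r r533 (@Lb.r r1060 (@Lb.d (nat_lit 392) (nat_lit 1) (nat_lit 586) (@Lb.fp (nat_lit 9) t68))))))))))))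
noncomputable def l4685 : Lb := (@Lb.d (nat_lit 0) (nat_lit 0) (nat_lit 72) (@Lb.g g11 (@Lb.r r402 (@Lb.r r579 (@Lb.d (nat_lit 0) (nat_lit 154) (nat_lit 393) (@Lb.t (@Lb.fp (nat_lit 3) t119)))))))
noncomputable def l4686 : Lb := (@Lb.r r323 (@Lb.d (nat_lit 32) (nat_lit 0) (nat_lit 2) (@Lb.g g10 (@Lb.r r580 (@Lb.r r295 (@Lb.r r289 (@Lb.r r36 (@Lb.d (nat_lit 0) (nat_lit 130) (nat_lit 137) (@Lb.t (@Lb.fm (nat_lit 3) t51))))))))))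
noncomputable def l4687 : Lb := (@Lb.r r275 (@Lb.d (nat_lit 2) (nat_lit 17) (nat_lit 2) (@Lb.g g8 (@Lb.g g5 (@Lb.g g10 (@Lb.r r1690 (@Lb.r r1688 (@Lb.r r1563 (@Lb.d (nat_lit 584) (nat_lit 129) (nat_lit 650) (@Lb.t (@Lb.fm (nat_lit 9) t1440)))))))))))
noncomputable def l4688 : Lb := (@Lb.d (nat_lit 134) (nat_lit 278) (nat_lit 290) (@Lb.r r277 (@Lb.r r342 (@Lb.r r2731 (@Lb.g g7 (@Lb.g g6 (@Lb.g g5 (@Lb.g g4 (@Lb.d (nat_lit 1) (nat_lit 17) (nat_lit 8) (@Lb.fm (nat_lit 9) t309))))))))))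
noncomputable def l4689 : Lb := (@Lb.r r323 (@Lb.d (nat_lit 130) (nat_lit 578) (nat_lit 2) (@Lb.g g8 (@Lb.g g9 (@Lb.g g10 (@Lb.r r1623 (@Lb.r r2146 (@Lb.r r2312 (@Lb.d (nat_lit 678) (nat_lit 74) (nat_lit 673) (@Lb.t (@Lb.fm (nat_lit 9) t1242)))))))))))
noncomputable def l4690 : Lb := (@Lb.d (nat_lit 0) (nat_lit 70) (nat_lit 130) (@Lb.r r2403 (@Lb.g g6 (@Lb.d (nat_lit 0) (nat_lit 8) (nat_lit 2) (@Lb.t (@Lb.fm (nat_lit 3) t295))))))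
noncomputable def l4691 : Lb := (@Lb.d (nat_lit 0) (nat_lit 256) (nat_lit 136) (@Lb.g g9 (@Lb.g g11 (@Lb.r r2577 (@Lb.d (nat_lit 0) (nat_lit 0) (nat_lit 386) (@Lb.fm (nat_lit 3) t121))))))
noncomputable def l4692 : Lb := (@Lb.d (nat_lit 41) (nat_lit 1) (nat_lit 0) (@Lb.g g8 (@Lb.g g9 (@Lb.r r1186 (@Lb.r r1065 (@Lb.r r360 (@Lb.r r1543 (@Lb.d (nat_lit 0) (nat_lit 149) (nat_lit 530) (@Lb.fm (nat_lit 3) t242)))))))))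
noncomputable def l4693 : Lb := (@Lb.d (nat_lit 289) (nat_lit 512) (nat_lit 81) (@Lb.r r1178 (@Lb.r r1684 (@Lb.r r2393 (@Lb.g g7 (@Lb.g g6 (@Lb.g g5 (@Lb.d (nat_lit 64) (nat_lit 1) (nat_lit 384) (@Lb.t (@Lb.fm (nat_lit 9) t98))))))))))
noncomputable def l4694 : Lb := (@Lb.d (nat_lit 533) (nat_lit 134) (nat_lit 0) (@Lb.r r1178 (@Lb.r r1684 (@Lb.r r1415 (@Lb.g g6 (@Lb.g g5 (@Lb.d (nat_lit 0) (nat_lit 17) (nat_lit 4) (@Lb.r r387 (@Lb.fp (nat_lit 3) t546)))))))))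
noncomputable def l4695 : Lb := (@Lb.d (nat_lit 0) (nat_lit 260) (nat_lit 1) (@Lb.g g9 (@Lb.g g10 (@Lb.g g11 (@Lb.r r1634 (@Lb.r r145 (@Lb.d (nat_lit 0) (nat_lit 150) (nat_lit 664) (@Lb.t (@Lb.fm (nat_lit 9) t225)))))))))
noncomputable def l4696 : Lb := (@Lb.d (nat_lit 2) (nat_lit 516) (nat_lit 0) (@Lb.g g8 (@Lb.g g9 (@Lb.g g10 (@Lb.g g11 (@Lb.r r1699 (@Lb.r r2705 (@Lb.r r612 (@Lb.r r666 (@Lb.r r1156 (@Lb.d (nat_lit 329) (nat_lit 33) (nat_lit 74) (@Lb.fp (nat_lit 9) t1441))))))))))))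
noncomputable def l4697 : Lb := (@Lb.d (nat_lit 9) (nat_lit 1) (nat_lit 130) (@Lb.g g8 (@Lb.g g9 (@Lb.g g10 (@Lb.g g11 (@Lb.r r614 (@Lb.r r404 (@Lb.r r1307 (@Lb.r r2577 (@Lb.d (nat_lit 9) (nat_lit 38) (nat_lit 278) (@Lb.fp (nat_lit 9) t51)))))))))))
noncomputable def l4698 : Lb := (@Lb.d (nat_lit 0) (nat_lit 298) (nat_lit 0) (@Lb.g g9 (@Lb.r r403 (@Lb.r r1426 (@Lb.r r1617 (@Lb.d (nat_lit 0) (nat_lit 134) (nat_lit 346) (@Lb.t (@Lb.fm (nat_lit 3) t1442))))))))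
noncomputable def l4699 : Lb := (@Lb.d (nat_lit 0) (nat_lit 290) (nat_lit 64) (@Lb.g g9 (@Lb.g g11 (@Lb.r r529 (@Lb.r r1427 (@Lb.r r1553 (@Lb.d (nat_lit 0) (nat_lit 22) (nat_lit 168) (@Lb.fm (nat_lit 3) t76))))))))
noncomputable def l4700 : Lb := (@Lb.r r273 (@Lb.d (nat_lit 2) (nat_lit 512) (nat_lit 2) (@Lb.g g8 (@Lb.g g10 (@Lb.g g11 (@Lb.r r651 (@Lb.r r1668 (@Lb.r r1158 (@Lb.d (nat_lit 545) (nat_lit 0) (nat_lit 153) (@Lb.t (@Lb.fm (nat_lit 9) t1443)))))))))))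
noncomputable def l4701 : Lb := (@Lb.d (nat_lit 2) (nat_lit 289) (nat_lit 130) (@Lb.g g8 (@Lb.g g9 (@Lb.g g10 (@Lb.g g11 (@Lb.r r2666 (@Lb.r r2657 (@Lb.r r295 (@Lb.d (nat_lit 533) (nat_lit 33) (nat_lit 549) (@Lb.fm (nat_lit 9) t1444))))))))))
noncomputable def l4702 : Lb := (@Lb.d (nat_lit 18) (nat_lit 514) (nat_lit 138) (@Lb.g g8 (@Lb.g g9 (@Lb.g g10 (@Lb.g g11 (@Lb.r r683 (@Lb.r r610 (@Lb.r r2069 (@Lb.r r1060 (@Lb.d (nat_lit 264) (nat_lit 90) (nat_lit 665) (@Lb.fm (nat_lit 9) t10)))))))))))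
noncomputable def l4703 : Lb := (@Lb.r r275 (@Lb.d (nat_lit 2) (nat_lit 512) (nat_lit 2) (@Lb.g g8 (@Lb.g g9 (@Lb.g g10 (@Lb.r r1689 (@Lb.r r531 (@Lb.r r2122 (@Lb.d (nat_lit 33) (nat_lit 0) (nat_lit 2) (@Lb.t (@Lb.fp (nat_lit 9) t1445)))))))))))
noncomputable def l4704 : Lb := (@Lb.r r275 (@Lb.d (nat_lit 2) (nat_lit 0) (nat_lit 2) (@Lb.g g8 (@Lb.g g9 (@Lb.g g10 (@Lb.r r1689 (@Lb.r r531 (@Lb.r r2122 (@Lb.d (nat_lit 33) (nat_lit 10) (nat_lit 1) (@Lb.t (@Lb.fp (nat_lit 9) t1446)))))))))))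
noncomputable def l4705 : Lb := (@Lb.r r273 (@Lb.d (nat_lit 1) (nat_lit 256) (nat_lit 2) (@Lb.g g8 (@Lb.g g10 (@Lb.g g11 (@Lb.r r651 (@Lb.r r1668 (@Lb.r r1158 (@Lb.d (nat_lit 545) (nat_lit 0) (nat_lit 84) (@Lb.t (@Lb.fm (nat_lit 9) t1443)))))))))))
noncomputable def l4706 : Lb := (@Lb.r r331 (@Lb.d (nat_lit 37) (nat_lit 522) (nat_lit 1) (@Lb.g g8 (@Lb.g g9 (@Lb.g g10 (@Lb.r r1706 (@Lb.r r1411 (@Lb.r r1553 (@Lb.r r536 (@Lb.d (nat_lit 265) (nat_lit 18) (nat_lit 384) (@Lb.t (@Lb.fm (nat_lit 9) t1447))))))))))))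
noncomputable def l4707 : Lb := (@Lb.d (nat_lit 0) (nat_lit 166) (nat_lit 576) (@Lb.r r1362 (@Lb.g g7 (@Lb.g g6 (@Lb.g g5 (@Lb.d (nat_lit 0) (nat_lit 88) (nat_lit 586) (@Lb.t (@Lb.fp (nat_lit 9) t665))))))))
noncomputable def l4708 : Lb := (@Lb.d (nat_lit 2) (nat_lit 256) (nat_lit 130) (@Lb.g g8 (@Lb.g g9 (@Lb.g g10 (@Lb.g g11 (@Lb.r r1451 (@Lb.r r2122 (@Lb.r r2457 (@Lb.d (nat_lit 552) (nat_lit 137) (nat_lit 33) (@Lb.fp (nat_lit 9) t968))))))))))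
noncomputable def l4709 : Lb := (@Lb.d (nat_lit 2) (nat_lit 514) (nat_lit 0) (@Lb.g g8 (@Lb.g g9 (@Lb.r r1193 (@Lb.r r2468 (@Lb.r r2438 (@Lb.r r2635 (@Lb.d (nat_lit 544) (nat_lit 10) (nat_lit 102) (@Lb.fp (nat_lit 3) t517)))))))))
noncomputable def l4710 : Lb := (@Lb.d (nat_lit 1) (nat_lit 258) (nat_lit 137) (@Lb.g g8 (@Lb.g g9 (@Lb.g g10 (@Lb.g g11 (@Lb.r r1626 (@Lb.r r2659 (@Lb.r r97 (@Lb.r r24 (@Lb.d (nat_lit 421) (nat_lit 42) (nat_lit 601) (@Lb.fm (nat_lit 9) t1227)))))))))))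
noncomputable def l4711 : Lb := (@Lb.d (nat_lit 1) (nat_lit 32) (nat_lit 128) (@Lb.g g8 (@Lb.g g11 (@Lb.r r2712 (@Lb.r r293 (@Lb.r r2587 (@Lb.r r2178 (@Lb.d (nat_lit 106) (nat_lit 41) (nat_lit 401) (@Lb.fm (nat_lit 3) t772)))))))))
noncomputable def l4712 : Lb := (@Lb.r r280 (@Lb.r r1621 (@Lb.r r2391 (@Lb.r r2178 (@Lb.r r1572 (@Lb.d (nat_lit 0) (nat_lit 0) (nat_lit 16) (@Lb.fp (nat_lit 1) t124)))))))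
noncomputable def l4713 : Lb := (@Lb.r r323 (@Lb.d (nat_lit 129) (nat_lit 290) (nat_lit 18) (@Lb.g g8 (@Lb.g g9 (@Lb.g g10 (@Lb.r r595 (@Lb.r r341 (@Lb.r r100 (@Lb.d (nat_lit 73) (nat_lit 5) (nat_lit 418) (@Lb.t (@Lb.fp (nat_lit 9) t88)))))))))))
noncomputable def l4714 : Lb := (@Lb.d (nat_lit 137) (nat_lit 256) (nat_lit 0) (@Lb.g g8 (@Lb.r r1621 (@Lb.r r2391 (@Lb.r r2178 (@Lb.r r1572 (@Lb.d (nat_lit 394) (nat_lit 153) (nat_lit 658) (@Lb.t (@Lb.fm (nat_lit 3) t124)))))))))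
noncomputable def l4715 : Lb := (@Lb.d (nat_lit 404) (nat_lit 341) (nat_lit 602) (@Lb.r r1381 (@Lb.r r1691 (@Lb.r r1624 (@Lb.g g6 (@Lb.g g5 (@Lb.d (nat_lit 4) (nat_lit 16) (nat_lit 34) (@Lb.fp (nat_lit 3) t917))))))))
noncomputable def l4716 : Lb := (@Lb.d (nat_lit 548) (nat_lit 576) (nat_lit 32) (@Lb.r r70 (@Lb.r r2200 (@Lb.r r2459 (@Lb.g g9 (@Lb.g g4 (@Lb.r r267 (@Lb.r r74 (@Lb.fm (nat_lit 3) t1448)))))))))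
noncomputable def l4717 : Lb := (@Lb.d (nat_lit 144) (nat_lit 336) (nat_lit 410) (@Lb.r r275 (@Lb.r r1689 (@Lb.r r1112 (@Lb.g g7 (@Lb.g g10 (@Lb.g g5 (@Lb.d (nat_lit 68) (nat_lit 0) (nat_lit 81) (@Lb.t (@Lb.fp (nat_lit 9) t114))))))))))
noncomputable def l4718 : Lb := (@Lb.d (nat_lit 0) (nat_lit 258) (nat_lit 0) (@Lb.g g9 (@Lb.g g10 (@Lb.r r1543 (@Lb.r r1685 (@Lb.r r2404 (@Lb.r r1178 (@Lb.d (nat_lit 530) (nat_lit 0) (nat_lit 0) (@Lb.fm (nat_lit 3) t222)))))))))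
noncomputable def l4719 : Lb := (@Lb.d (nat_lit 0) (nat_lit 512) (nat_lit 130) (@Lb.g g10 (@Lb.g g11 (@Lb.r r642 (@Lb.r r387 (@Lb.d (nat_lit 0) (nat_lit 5) (nat_lit 130) (@Lb.fp (nat_lit 3) t45)))))))
noncomputable def l4720 : Lb := (@Lb.d (nat_lit 40) (nat_lit 2) (nat_lit 128) (@Lb.g g9 (@Lb.g g10 (@Lb.g g11 (@Lb.r r1675 (@Lb.r r24 (@Lb.r r2133 (@Lb.r r1442 (@Lb.d (nat_lit 614) (nat_lit 169) (nat_lit 326) (@Lb.t (@Lb.fp (nat_lit 9) t632)))))))))))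
noncomputable def l4721 : Lb := (@Lb.d (nat_lit 32) (nat_lit 258) (nat_lit 2) (@Lb.g g9 (@Lb.g g10 (@Lb.r r1543 (@Lb.r r149 (@Lb.r r100 (@Lb.r r410 (@Lb.d (nat_lit 153) (nat_lit 153) (nat_lit 137) (@Lb.fm (nat_lit 3) t626)))))))))
noncomputable def l4722 : Lb := (@Lb.d (nat_lit 0) (nat_lit 514) (nat_lit 74) (@Lb.g g9 (@Lb.g g10 (@Lb.g g11 (@Lb.r r1671 (@Lb.r r1685 (@Lb.r r2404 (@Lb.r r1178 (@Lb.d (nat_lit 17) (nat_lit 72) (nat_lit 18) (@Lb.t (@Lb.fm (nat_lit 9) t646)))))))))))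
noncomputable def l4723 : Lb := (@Lb.d (nat_lit 32) (nat_lit 8) (nat_lit 128) (@Lb.g g10 (@Lb.g g11 (@Lb.r r407 (@Lb.r r612 (@Lb.r r2661 (@Lb.r r1366 (@Lb.d (nat_lit 148) (nat_lit 86) (nat_lit 278) (@Lb.fp (nat_lit 3) t627)))))))))
noncomputable def l4724 : Lb := (@Lb.r r323 (@Lb.d (nat_lit 0) (nat_lit 256) (nat_lit 1) (@Lb.g g9 (@Lb.g g6 (@Lb.r r2659 (@Lb.r r101 (@Lb.r r24 (@Lb.d (nat_lit 288) (nat_lit 0) (nat_lit 36) (@Lb.fm (nat_lit 3) t277)))))))))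
noncomputable def l4725 : Lb := (@Lb.r r323 (@Lb.d (nat_lit 0) (nat_lit 512) (nat_lit 1) (@Lb.g g9 (@Lb.g g6 (@Lb.r r2659 (@Lb.r r101 (@Lb.r r24 (@Lb.d (nat_lit 290) (nat_lit 0) (nat_lit 36) (@Lb.fm (nat_lit 3) t592)))))))))
noncomputable def l4726 : Lb := (@Lb.r r323 (@Lb.d (nat_lit 16) (nat_lit 0) (nat_lit 34) (@Lb.g g9 (@Lb.g g6 (@Lb.r r584 (@Lb.r r299 (@Lb.r r289 (@Lb.d (nat_lit 321) (nat_lit 1) (nat_lit 513) (@Lb.fp (nat_lit 3) t1449)))))))))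
noncomputable def l4727 : Lb := (@Lb.d (nat_lit 2) (nat_lit 514) (nat_lit 2) (@Lb.g g8 (@Lb.g g9 (@Lb.g g10 (@Lb.r r515 (@Lb.r r297 (@Lb.r r104 (@Lb.r r70 (@Lb.r r132 (@Lb.d (nat_lit 66) (nat_lit 10) (nat_lit 68) (@Lb.t (@Lb.fp (nat_lit 9) t242))))))))))))
noncomputable def l4728 : Lb := (@Lb.r r323 (@Lb.d (nat_lit 0) (nat_lit 2) (nat_lit 32) (@Lb.g g5 (@Lb.g g10 (@Lb.r r387 (@Lb.r r1313 (@Lb.d (nat_lit 0) (nat_lit 162) (nat_lit 592) (@Lb.fm (nat_lit 3) t121))))))))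
noncomputable def l4729 : Lb := (@Lb.r r323 (@Lb.d (nat_lit 2) (nat_lit 290) (nat_lit 2) (@Lb.g g8 (@Lb.g g9 (@Lb.g g10 (@Lb.r r599 (@Lb.r r74 (@Lb.r r296 (@Lb.r r409 (@Lb.d (nat_lit 150) (nat_lit 38) (nat_lit 68) (@Lb.t (@Lb.fm (nat_lit 9) t119))))))))))))
noncomputable def l4730 : Lb := (@Lb.d (nat_lit 32) (nat_lit 256) (nat_lit 129) (@Lb.g g9 (@Lb.g g10 (@Lb.g g11 (@Lb.r r387 (@Lb.r r1304 (@Lb.r r2661 (@Lb.r r402 (@Lb.d (nat_lit 0) (nat_lit 21) (nat_lit 152) (@Lb.t (@Lb.fp (nat_lit 9) t307)))))))))))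
noncomputable def l4731 : Lb := (@Lb.r r323 (@Lb.d (nat_lit 0) (nat_lit 168) (nat_lit 1) (@Lb.g g5 (@Lb.g g10 (@Lb.r r1379 (@Lb.r r2194 (@Lb.d (nat_lit 0) (nat_lit 22) (nat_lit 33) (@Lb.fm (nat_lit 3) t24))))))))
noncomputable def l4732 : Lb := (@Lb.d (nat_lit 2) (nat_lit 609) (nat_lit 0) (@Lb.g g8 (@Lb.g g5 (@Lb.g g10 (@Lb.r r515 (@Lb.r r660 (@Lb.r r582 (@Lb.r r132 (@Lb.d (nat_lit 2) (nat_lit 165) (nat_lit 385) (@Lb.t (@Lb.fm (nat_lit 9) t242)))))))))))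
noncomputable def l4733 : Lb := (@Lb.d (nat_lit 0) (nat_lit 537) (nat_lit 74) (@Lb.g g9 (@Lb.g g10 (@Lb.g g11 (@Lb.r r1299 (@Lb.r r1634 (@Lb.r r1121 (@Lb.d (nat_lit 0) (nat_lit 146) (nat_lit 649) (@Lb.t (@Lb.fp (nat_lit 9) t650))))))))))
noncomputable def l4734 : Lb := (@Lb.d (nat_lit 0) (nat_lit 36) (nat_lit 5) (@Lb.g g9 (@Lb.g g10 (@Lb.g g11 (@Lb.r r1299 (@Lb.r r1634 (@Lb.r r2193 (@Lb.d (nat_lit 0) (nat_lit 97) (nat_lit 390) (@Lb.t (@Lb.fm (nat_lit 9) t650))))))))))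
noncomputable def l4735 : Lb := (@Lb.d (nat_lit 0) (nat_lit 4) (nat_lit 1) (@Lb.g g9 (@Lb.g g10 (@Lb.g g11 (@Lb.r r679 (@Lb.r r1685 (@Lb.r r2404 (@Lb.r r1178 (@Lb.d (nat_lit 538) (nat_lit 137) (nat_lit 18) (@Lb.t (@Lb.fm (nat_lit 9) t600)))))))))))
noncomputable def l4736 : Lb := (@Lb.d (nat_lit 0) (nat_lit 281) (nat_lit 74) (@Lb.g g9 (@Lb.g g10 (@Lb.g g11 (@Lb.r r1299 (@Lb.r r1634 (@Lb.r r2401 (@Lb.d (nat_lit 0) (nat_lit 66) (nat_lit 393) (@Lb.t (@Lb.fp (nat_lit 9) t650))))))))))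
noncomputable def l4737 : Lb := (@Lb.d (nat_lit 85) (nat_lit 102) (nat_lit 416) (@Lb.r r277 (@Lb.r r2134 (@Lb.r r1448 (@Lb.g g11 (@Lb.g g6 (@Lb.g g5 (@Lb.d (nat_lit 0) (nat_lit 37) (nat_lit 388) (@Lb.t (@Lb.fp (nat_lit 9) t1450))))))))))
noncomputable def l4738 : Lb := (@Lb.r r82 (@Lb.r r275 (@Lb.d (nat_lit 1) (nat_lit 512) (nat_lit 0) (@Lb.g g8 (@Lb.g g9 (@Lb.r r2201 (@Lb.r r402 (@Lb.r r1603 (@Lb.d (nat_lit 8) (nat_lit 2) (nat_lit 0) (@Lb.fm (nat_lit 3) t823))))))))))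
noncomputable def l4739 : Lb := (@Lb.r r82 (@Lb.r r275 (@Lb.d (nat_lit 2) (nat_lit 0) (nat_lit 0) (@Lb.g g8 (@Lb.g g9 (@Lb.r r2201 (@Lb.r r402 (@Lb.r r1603 (@Lb.d (nat_lit 9) (nat_lit 2) (nat_lit 0) (@Lb.fm (nat_lit 3) t823))))))))))
noncomputable def l4740 : Lb := (@Lb.d (nat_lit 2) (nat_lit 514) (nat_lit 128) (@Lb.g g8 (@Lb.g g9 (@Lb.g g11 (@Lb.r r1323 (@Lb.r r297 (@Lb.r r2376 (@Lb.r r1638 (@Lb.d (nat_lit 0) (nat_lit 90) (nat_lit 356) (@Lb.t (@Lb.fm (nat_lit 9) t1451)))))))))))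
noncomputable def l4741 : Lb := (@Lb.r r82 (@Lb.r r275 (@Lb.d (nat_lit 2) (nat_lit 0) (nat_lit 0) (@Lb.g g8 (@Lb.g g9 (@Lb.r r299 (@Lb.r r106 (@Lb.r r25 (@Lb.d (nat_lit 9) (nat_lit 2) (nat_lit 34) (@Lb.fm (nat_lit 3) t294))))))))))
noncomputable def l4742 : Lb := (@Lb.d (nat_lit 37) (nat_lit 264) (nat_lit 2) (@Lb.r r170 (@Lb.r r676 (@Lb.r r677 (@Lb.r r599 (@Lb.g g7 (@Lb.g g6 (@Lb.g g5 (@Lb.d (nat_lit 0) (nat_lit 1) (nat_lit 64) (@Lb.t (@Lb.fm (nat_lit 9) t1372)))))))))))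
noncomputable def l4743 : Lb := (@Lb.d (nat_lit 97) (nat_lit 357) (nat_lit 37) (@Lb.r r410 (@Lb.r r148 (@Lb.r r89 (@Lb.g g11 (@Lb.g g6 (@Lb.g g5 (@Lb.d (nat_lit 144) (nat_lit 1) (nat_lit 577) (@Lb.t (@Lb.fp (nat_lit 9) t702))))))))))
noncomputable def l4744 : Lb := (@Lb.d (nat_lit 5) (nat_lit 0) (nat_lit 0) (@Lb.g g4 (@Lb.g g6 (@Lb.d (nat_lit 1) (nat_lit 1) (nat_lit 0) (@Lb.fm (nat_lit 3) t2)))))
noncomputable def l4745 : Lb := (@Lb.d (nat_lit 8) (nat_lit 258) (nat_lit 128) (@Lb.g g9 (@Lb.g g10 (@Lb.g g11 (@Lb.r r2587 (@Lb.r r426 (@Lb.r r24 (@Lb.r r101 (@Lb.d (nat_lit 82) (nat_lit 169) (nat_lit 322) (@Lb.t (@Lb.fm (nat_lit 9) t1452)))))))))))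
noncomputable def l4746 : Lb := (@Lb.r r323 (@Lb.d (nat_lit 8) (nat_lit 290) (nat_lit 42) (@Lb.g g9 (@Lb.g g6 (@Lb.r r536 (@Lb.r r603 (@Lb.r r341 (@Lb.d (nat_lit 597) (nat_lit 153) (nat_lit 132) (@Lb.fp (nat_lit 3) t386)))))))))
noncomputable def l4747 : Lb := (@Lb.d (nat_lit 101) (nat_lit 134) (nat_lit 594) (@Lb.r r2661 (@Lb.r r1304 (@Lb.r r2659 (@Lb.g g10 (@Lb.g g5 (@Lb.d (nat_lit 36) (nat_lit 6) (nat_lit 10) (@Lb.r r387 (@Lb.fm (nat_lit 3) t1453)))))))))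
noncomputable def l4748 : Lb := (@Lb.d (nat_lit 548) (nat_lit 137) (nat_lit 17) (@Lb.r r24 (@Lb.r r1414 (@Lb.r r2395 (@Lb.g g7 (@Lb.g g6 (@Lb.g g5 (@Lb.d (nat_lit 4) (nat_lit 1) (nat_lit 64) (@Lb.t (@Lb.fp (nat_lit 9) t506))))))))))
noncomputable def l4749 : Lb := (@Lb.d (nat_lit 425) (nat_lit 170) (nat_lit 329) (@Lb.r r85 (@Lb.r r40 (@Lb.r r2374 (@Lb.r r1707 (@Lb.g g7 (@Lb.g g6 (@Lb.g g5 (@Lb.d (nat_lit 0) (nat_lit 9) (nat_lit 133) (@Lb.t (@Lb.fp (nat_lit 9) t1137)))))))))))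
noncomputable def l4750 : Lb := (@Lb.r r323 (@Lb.d (nat_lit 0) (nat_lit 256) (nat_lit 1) (@Lb.g g6 (@Lb.r r387 (@Lb.d (nat_lit 0) (nat_lit 5) (nat_lit 64) (@Lb.t (@Lb.fm (nat_lit 3) t45)))))))
noncomputable def l4751 : Lb := (@Lb.d (nat_lit 0) (nat_lit 256) (nat_lit 128) (@Lb.g g10 (@Lb.g g11 (@Lb.r r387 (@Lb.r r402 (@Lb.d (nat_lit 0) (nat_lit 69) (nat_lit 17) (@Lb.fp (nat_lit 3) t334)))))))
noncomputable def l4752 : Lb := (@Lb.d (nat_lit 0) (nat_lit 8) (nat_lit 73) (@Lb.g g9 (@Lb.g g10 (@Lb.g g11 (@Lb.r r2451 (@Lb.r r2706 (@Lb.r r1681 (@Lb.d (nat_lit 0) (nat_lit 22) (nat_lit 544) (@Lb.t (@Lb.fp (nat_lit 9) t144))))))))))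
noncomputable def l4753 : Lb := (@Lb.r r338 (@Lb.d (nat_lit 0) (nat_lit 8) (nat_lit 576) (@Lb.g g9 (@Lb.g g7 (@Lb.r r1426 (@Lb.r r1121 (@Lb.d (nat_lit 0) (nat_lit 21) (nat_lit 6) (@Lb.fp (nat_lit 3) t69))))))))
noncomputable def l4754 : Lb := (@Lb.d (nat_lit 0) (nat_lit 288) (nat_lit 64) (@Lb.g g11 (@Lb.r r293 (@Lb.r r347 (@Lb.r r614 (@Lb.r r24 (@Lb.d (nat_lit 2) (nat_lit 0) (nat_lit 84) (@Lb.t (@Lb.fp (nat_lit 3) t221)))))))))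
noncomputable def l4755 : Lb := (@Lb.d (nat_lit 0) (nat_lit 406) (nat_lit 34) (@Lb.r r386 (@Lb.r r339 (@Lb.g g7 (@Lb.g g6 (@Lb.g g5 (@Lb.d (nat_lit 0) (nat_lit 0) (nat_lit 65) (@Lb.t (@Lb.fm (nat_lit 9) t422)))))))))
noncomputable def l4756 : Lb := (@Lb.d (nat_lit 0) (nat_lit 150) (nat_lit 100) (@Lb.r r386 (@Lb.r r339 (@Lb.g g7 (@Lb.g g6 (@Lb.g g5 (@Lb.d (nat_lit 0) (nat_lit 0) (nat_lit 65) (@Lb.t (@Lb.fm (nat_lit 9) t422)))))))))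
noncomputable def l4757 : Lb := (@Lb.d (nat_lit 0) (nat_lit 512) (nat_lit 2) (@Lb.g g10 (@Lb.r r2691 (@Lb.r r2658 (@Lb.d (nat_lit 0) (nat_lit 37) (nat_lit 297) (@Lb.t (@Lb.fm (nat_lit 3) t71)))))))
noncomputable def l4758 : Lb := (@Lb.d (nat_lit 0) (nat_lit 258) (nat_lit 2) (@Lb.g g9 (@Lb.g g10 (@Lb.g g7 (@Lb.r r386 (@Lb.r r97 (@Lb.d (nat_lit 0) (nat_lit 9) (nat_lit 9) (@Lb.t (@Lb.fp (nat_lit 9) t87)))))))))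
noncomputable def l4759 : Lb := (@Lb.d (nat_lit 658) (nat_lit 298) (nat_lit 264) (@Lb.r r355 (@Lb.r r1301 (@Lb.r r86 (@Lb.g g7 (@Lb.g g5 (@Lb.g g4 (@Lb.d (nat_lit 1) (nat_lit 18) (nat_lit 132) (@Lb.t (@Lb.fp (nat_lit 9) t766))))))))))
noncomputable def l4760 : Lb := (@Lb.d (nat_lit 0) (nat_lit 38) (nat_lit 128) (@Lb.g g9 (@Lb.g g10 (@Lb.g g11 (@Lb.r r387 (@Lb.r r593 (@Lb.r r1442 (@Lb.r r2193 (@Lb.d (nat_lit 0) (nat_lit 101) (nat_lit 393) (@Lb.t (@Lb.fp (nat_lit 9) t1454)))))))))))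
noncomputable def l4761 : Lb := (@Lb.d (nat_lit 8) (nat_lit 290) (nat_lit 0) (@Lb.g g5 (@Lb.r r680 (@Lb.r r2667 (@Lb.r r2178 (@Lb.r r2713 (@Lb.d (nat_lit 136) (nat_lit 86) (nat_lit 618) (@Lb.t (@Lb.fp (nat_lit 3) t1455)))))))))
noncomputable def l4762 : Lb := (@Lb.d (nat_lit 8) (nat_lit 32) (nat_lit 34) (@Lb.g g9 (@Lb.g g6 (@Lb.r r1624 (@Lb.r r1691 (@Lb.r r1381 (@Lb.d (nat_lit 618) (nat_lit 165) (nat_lit 389) (@Lb.fm (nat_lit 3) t229))))))))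
noncomputable def l4763 : Lb := (@Lb.d (nat_lit 0) (nat_lit 0) (nat_lit 130) (@Lb.g g9 (@Lb.g g10 (@Lb.g g11 (@Lb.r r419 (@Lb.r r386 (@Lb.d (nat_lit 0) (nat_lit 98) (nat_lit 153) (@Lb.t (@Lb.fp (nat_lit 9) t305)))))))))
noncomputable def l4764 : Lb := (@Lb.d (nat_lit 160) (nat_lit 256) (nat_lit 130) (@Lb.g g9 (@Lb.g g10 (@Lb.g g11 (@Lb.r r264 (@Lb.r r279 (@Lb.r r613 (@Lb.r r410 (@Lb.d (nat_lit 296) (nat_lit 18) (nat_lit 85) (@Lb.t (@Lb.fp (nat_lit 9) t947)))))))))))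
noncomputable def l4765 : Lb := (@Lb.d (nat_lit 2) (nat_lit 514) (nat_lit 2) (@Lb.g g8 (@Lb.g g9 (@Lb.g g10 (@Lb.g g11 (@Lb.r r2411 (@Lb.r r386 (@Lb.r r97 (@Lb.r r24 (@Lb.d (nat_lit 536) (nat_lit 4) (nat_lit 70) (@Lb.fm (nat_lit 9) t61)))))))))))
noncomputable def l4766 : Lb := (@Lb.r r82 (@Lb.d (nat_lit 0) (nat_lit 128) (nat_lit 64) (@Lb.g g9 (@Lb.g g11 (@Lb.r r675 (@Lb.r r2658 (@Lb.d (nat_lit 0) (nat_lit 64) (nat_lit 33) (@Lb.fp (nat_lit 3) t76))))))))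
noncomputable def l4767 : Lb := (@Lb.d (nat_lit 8) (nat_lit 256) (nat_lit 41) (@Lb.g g9 (@Lb.g g6 (@Lb.r r1560 (@Lb.r r1627 (@Lb.r r1445 (@Lb.d (nat_lit 98) (nat_lit 100) (nat_lit 408) (@Lb.fm (nat_lit 3) t1456))))))))
noncomputable def l4768 : Lb := (@Lb.d (nat_lit 32) (nat_lit 26) (nat_lit 1) (@Lb.g g9 (@Lb.g g10 (@Lb.r r1543 (@Lb.r r88 (@Lb.r r422 (@Lb.d (nat_lit 581) (nat_lit 36) (nat_lit 152) (@Lb.fp (nat_lit 3) t224))))))))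
noncomputable def l4769 : Lb := (@Lb.d (nat_lit 0) (nat_lit 337) (nat_lit 385) (@Lb.r r1297 (@Lb.r r579 (@Lb.g g6 (@Lb.d (nat_lit 0) (nat_lit 4) (nat_lit 6) (@Lb.t (@Lb.fp (nat_lit 3) t1457)))))))
noncomputable def l4770 : Lb := (@Lb.d (nat_lit 0) (nat_lit 5) (nat_lit 74) (@Lb.g g9 (@Lb.g g10 (@Lb.g g11 (@Lb.r r2691 (@Lb.r r2466 (@Lb.r r1317 (@Lb.r r24 (@Lb.d (nat_lit 576) (nat_lit 0) (nat_lit 424) (@Lb.t (@Lb.fm (nat_lit 9) t378)))))))))))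
noncomputable def l4771 : Lb := (@Lb.d (nat_lit 581) (nat_lit 102) (nat_lit 282) (@Lb.r r2324 (@Lb.r r2411 (@Lb.r r345 (@Lb.g g6 (@Lb.g g4 (@Lb.d (nat_lit 70) (nat_lit 0) (nat_lit 34) (@Lb.fm (nat_lit 3) t1458))))))))
noncomputable def l4772 : Lb := (@Lb.d (nat_lit 0) (nat_lit 517) (nat_lit 321) (@Lb.r r81 (@Lb.r r2402 (@Lb.r r97 (@Lb.g g7 (@Lb.g g6 (@Lb.g g5 (@Lb.d (nat_lit 0) (nat_lit 5) (nat_lit 65) (@Lb.t (@Lb.fm (nat_lit 9) t144))))))))))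
noncomputable def l4773 : Lb := (@Lb.r r326 (@Lb.d (nat_lit 422) (nat_lit 512) (nat_lit 128) (@Lb.g g4 (@Lb.g g9 (@Lb.g g11 (@Lb.r r549 (@Lb.r r1315 (@Lb.r r2626 (@Lb.d (nat_lit 1) (nat_lit 106) (nat_lit 148) (@Lb.t (@Lb.fm (nat_lit 9) t211)))))))))))
noncomputable def l4774 : Lb := (@Lb.r r323 (@Lb.d (nat_lit 1) (nat_lit 514) (nat_lit 0) (@Lb.g g8 (@Lb.g g9 (@Lb.g g10 (@Lb.r r2459 (@Lb.r r297 (@Lb.r r1384 (@Lb.r r2630 (@Lb.d (nat_lit 0) (nat_lit 74) (nat_lit 70) (@Lb.t (@Lb.fm (nat_lit 9) t91))))))))))))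
noncomputable def l4775 : Lb := (@Lb.r r275 (@Lb.d (nat_lit 2) (nat_lit 17) (nat_lit 2) (@Lb.g g8 (@Lb.g g5 (@Lb.g g10 (@Lb.r r1690 (@Lb.r r1688 (@Lb.r r1563 (@Lb.d (nat_lit 585) (nat_lit 129) (nat_lit 586) (@Lb.t (@Lb.fm (nat_lit 9) t144)))))))))))
noncomputable def l4776 : Lb := (@Lb.d (nat_lit 32) (nat_lit 0) (nat_lit 130) (@Lb.g g9 (@Lb.g g10 (@Lb.g g11 (@Lb.r r2725 (@Lb.r r2467 (@Lb.r r72 (@Lb.r r390 (@Lb.d (nat_lit 98) (nat_lit 10) (nat_lit 152) (@Lb.t (@Lb.fp (nat_lit 9) t126)))))))))))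
noncomputable def l4777 : Lb := (@Lb.d (nat_lit 0) (nat_lit 32) (nat_lit 128) (@Lb.g g11 (@Lb.r r293 (@Lb.r r347 (@Lb.r r614 (@Lb.d (nat_lit 10) (nat_lit 66) (nat_lit 84) (@Lb.t (@Lb.fm (nat_lit 3) t1022))))))))
noncomputable def l4778 : Lb := (@Lb.r r263 (@Lb.d (nat_lit 130) (nat_lit 546) (nat_lit 10) (@Lb.g g8 (@Lb.g g9 (@Lb.g g10 (@Lb.r r275 (@Lb.r r1633 (@Lb.r r1622 (@Lb.r r420 (@Lb.d (nat_lit 36) (nat_lit 69) (nat_lit 330) (@Lb.t (@Lb.fp (nat_lit 9) t1459))))))))))))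
noncomputable def l4779 : Lb := (@Lb.d (nat_lit 146) (nat_lit 258) (nat_lit 5) (@Lb.g g8 (@Lb.g g9 (@Lb.g g10 (@Lb.g g11 (@Lb.r r1675 (@Lb.r r36 (@Lb.r r1381 (@Lb.r r2202 (@Lb.r r1156 (@Lb.d (nat_lit 386) (nat_lit 130) (nat_lit 618) (@Lb.fm (nat_lit 9) t594))))))))))))
noncomputable def l4780 : Lb := (@Lb.d (nat_lit 2) (nat_lit 517) (nat_lit 0) (@Lb.g g8 (@Lb.g g5 (@Lb.r r24 (@Lb.d (nat_lit 9) (nat_lit 0) (nat_lit 1) (@Lb.fm (nat_lit 3) t319))))))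
noncomputable def l4781 : Lb := (@Lb.d (nat_lit 278) (nat_lit 129) (nat_lit 388) (@Lb.r r603 (@Lb.r r532 (@Lb.r r2389 (@Lb.g g7 (@Lb.g g6 (@Lb.g g5 (@Lb.d (nat_lit 80) (nat_lit 0) (nat_lit 82) (@Lb.t (@Lb.fm (nat_lit 9) t1460))))))))))
noncomputable def l4782 : Lb := (@Lb.r r21 (@Lb.r r323 (@Lb.d (nat_lit 129) (nat_lit 516) (nat_lit 10) (@Lb.g g8 (@Lb.g g6 (@Lb.r r2439 (@Lb.r r97 (@Lb.r r1636 (@Lb.d (nat_lit 401) (nat_lit 90) (nat_lit 680) (@Lb.fm (nat_lit 3) t51))))))))))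
noncomputable def l4783 : Lb := (@Lb.r r322 (@Lb.d (nat_lit 128) (nat_lit 528) (nat_lit 640) (@Lb.g g7 (@Lb.r r421 (@Lb.r r98 (@Lb.r r8 (@Lb.d (nat_lit 512) (nat_lit 5) (nat_lit 97) (@Lb.t (@Lb.fm (nat_lit 3) t386)))))))))
noncomputable def l4784 : Lb := (@Lb.d (nat_lit 34) (nat_lit 514) (nat_lit 0) (@Lb.g g8 (@Lb.g g9 (@Lb.r r2659 (@Lb.r r582 (@Lb.r r341 (@Lb.r r2468 (@Lb.d (nat_lit 546) (nat_lit 36) (nat_lit 90) (@Lb.fp (nat_lit 3) t284)))))))))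
noncomputable def l4785 : Lb := (@Lb.r r323 (@Lb.d (nat_lit 2) (nat_lit 258) (nat_lit 2) (@Lb.g g8 (@Lb.g g9 (@Lb.g g10 (@Lb.r r553 (@Lb.r r299 (@Lb.r r420 (@Lb.r r390 (@Lb.d (nat_lit 145) (nat_lit 10) (nat_lit 89) (@Lb.t (@Lb.fm (nat_lit 9) t590))))))))))))
noncomputable def l4786 : Lb := (@Lb.d (nat_lit 2) (nat_lit 258) (nat_lit 66) (@Lb.g g8 (@Lb.g g9 (@Lb.g g10 (@Lb.g g11 (@Lb.r r340 (@Lb.r r2202 (@Lb.r r1621 (@Lb.r r1367 (@Lb.r r2724 (@Lb.d (nat_lit 353) (nat_lit 2) (nat_lit 602) (@Lb.fm (nat_lit 9) t994))))))))))))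
noncomputable def l4787 : Lb := (@Lb.d (nat_lit 0) (nat_lit 520) (nat_lit 130) (@Lb.g g10 (@Lb.g g11 (@Lb.r r387 (@Lb.r r24 (@Lb.r r101 (@Lb.d (nat_lit 26) (nat_lit 128) (nat_lit 34) (@Lb.fm (nat_lit 3) t232))))))))
noncomputable def l4788 : Lb := (@Lb.d (nat_lit 6) (nat_lit 662) (nat_lit 329) (@Lb.r r21 (@Lb.r r1622 (@Lb.g g11 (@Lb.g g6 (@Lb.g g5 (@Lb.g g4 (@Lb.d (nat_lit 1) (nat_lit 1) (nat_lit 72) (@Lb.fm (nat_lit 9) t40)))))))))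
noncomputable def l4789 : Lb := (@Lb.d (nat_lit 4) (nat_lit 514) (nat_lit 130) (@Lb.g g8 (@Lb.g g9 (@Lb.g g10 (@Lb.g g11 (@Lb.r r648 (@Lb.r r539 (@Lb.r r405 (@Lb.r r2134 (@Lb.r r1188 (@Lb.d (nat_lit 545) (nat_lit 0) (nat_lit 601) (@Lb.fp (nat_lit 9) t1025))))))))))))
noncomputable def l4790 : Lb := (@Lb.d (nat_lit 2) (nat_lit 514) (nat_lit 66) (@Lb.g g8 (@Lb.g g9 (@Lb.g g10 (@Lb.g g11 (@Lb.r r1299 (@Lb.r r2705 (@Lb.r r356 (@Lb.r r154 (@Lb.r r132 (@Lb.d (nat_lit 129) (nat_lit 2) (nat_lit 330) (@Lb.fm (nat_lit 9) t284))))))))))))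
noncomputable def l4791 : Lb := (@Lb.d (nat_lit 5) (nat_lit 1) (nat_lit 96) (@Lb.r r24 (@Lb.r r1426 (@Lb.g g7 (@Lb.g g5 (@Lb.d (nat_lit 4) (nat_lit 1) (nat_lit 68) (@Lb.r r578 (@Lb.fm (nat_lit 3) t524))))))))
noncomputable def l4792 : Lb := (@Lb.r r1291 (@Lb.d (nat_lit 386) (nat_lit 2) (nat_lit 0) (@Lb.g g8 (@Lb.g g9 (@Lb.r r25 (@Lb.d (nat_lit 9) (nat_lit 0) (nat_lit 384) (@Lb.fm (nat_lit 3) t1044)))))))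
noncomputable def l4793 : Lb := (@Lb.d (nat_lit 518) (nat_lit 514) (nat_lit 0) (@Lb.r r24 (@Lb.r r2138 (@Lb.r r2331 (@Lb.g g5 (@Lb.d (nat_lit 8) (nat_lit 2) (nat_lit 0) (@Lb.t (@Lb.fp (nat_lit 3) t90))))))))
noncomputable def l4794 : Lb := (@Lb.d (nat_lit 293) (nat_lit 514) (nat_lit 18) (@Lb.r r24 (@Lb.r r2138 (@Lb.r r2331 (@Lb.g g5 (@Lb.d (nat_lit 8) (nat_lit 9) (nat_lit 0) (@Lb.t (@Lb.fp (nat_lit 3) t25))))))))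
noncomputable def l4795 : Lb := (@Lb.r r609 (@Lb.r r2659 (@Lb.r r338 (@Lb.r r2705 (@Lb.r r1288 (@Lb.d (nat_lit 0) (nat_lit 512) (nat_lit 512) (@Lb.fm (nat_lit 1) t322)))))))
noncomputable def l4796 : Lb := (@Lb.r r323 (@Lb.d (nat_lit 40) (nat_lit 290) (nat_lit 2) (@Lb.g g9 (@Lb.g g10 (@Lb.r r603 (@Lb.r r600 (@Lb.r r293 (@Lb.d (nat_lit 74) (nat_lit 137) (nat_lit 136) (@Lb.fp (nat_lit 3) t51)))))))))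
noncomputable def l4797 : Lb := (@Lb.r r664 (@Lb.r r667 (@Lb.r r1690 (@Lb.r r1365 (@Lb.r r2212 (@Lb.d (nat_lit 0) (nat_lit 256) (nat_lit 576) (@Lb.fm (nat_lit 1) t322)))))))
noncomputable def l4798 : Lb := (@Lb.d (nat_lit 544) (nat_lit 512) (nat_lit 32) (@Lb.r r21 (@Lb.r r70 (@Lb.r r263 (@Lb.g g4 (@Lb.r r267 (@Lb.r r74 (@Lb.r r25 (@Lb.t (@Lb.fm (nat_lit 3) t1028))))))))))
noncomputable def l4799 : Lb := (@Lb.d (nat_lit 288) (nat_lit 361) (nat_lit 345) (@Lb.r r1681 (@Lb.r r2178 (@Lb.r r2715 (@Lb.r r536 (@Lb.g g5 (@Lb.d (nat_lit 4) (nat_lit 17) (nat_lit 0) (@Lb.t (@Lb.fp (nat_lit 3) t296)))))))))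
noncomputable def l4800 : Lb := (@Lb.r r21 (@Lb.r r70 (@Lb.r r263 (@Lb.d (nat_lit 290) (nat_lit 0) (nat_lit 0) (@Lb.g g4 (@Lb.r r267 (@Lb.r r74 (@Lb.r r25 (@Lb.d (nat_lit 257) (nat_lit 5) (nat_lit 33) (@Lb.t (@Lb.fm (nat_lit 3) t1461)))))))))))
noncomputable def l4801 : Lb := (@Lb.d (nat_lit 161) (nat_lit 256) (nat_lit 345) (@Lb.r r24 (@Lb.r r1447 (@Lb.r r2470 (@Lb.r r421 (@Lb.g g7 (@Lb.d (nat_lit 0) (nat_lit 16) (nat_lit 68) (@Lb.t (@Lb.fp (nat_lit 3) t322)))))))))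
noncomputable def l4802 : Lb := (@Lb.d (nat_lit 337) (nat_lit 0) (nat_lit 678) (@Lb.r r24 (@Lb.r r1703 (@Lb.r r2726 (@Lb.r r677 (@Lb.g g11 (@Lb.d (nat_lit 0) (nat_lit 16) (nat_lit 68) (@Lb.t (@Lb.fp (nat_lit 3) t322)))))))))
noncomputable def l4803 : Lb := (@Lb.r r2118 (@Lb.r r2311 (@Lb.d (nat_lit 9) (nat_lit 1) (nat_lit 0) (@Lb.g g8 (@Lb.g g9 (@Lb.r r2089 (@Lb.r r2084 (@Lb.d (nat_lit 520) (nat_lit 66) (nat_lit 0) (@Lb.fp (nat_lit 3) t116)))))))))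
noncomputable def l4804 : Lb := (@Lb.d (nat_lit 34) (nat_lit 1) (nat_lit 34) (@Lb.r r70 (@Lb.r r392 (@Lb.r r599 (@Lb.g g6 (@Lb.g g5 (@Lb.g g4 (@Lb.d (nat_lit 1) (nat_lit 17) (nat_lit 1) (@Lb.r r387 (@Lb.t (@Lb.fp (nat_lit 9) t546)))))))))))
noncomputable def l4805 : Lb := (@Lb.d (nat_lit 2) (nat_lit 258) (nat_lit 2) (@Lb.g g8 (@Lb.g g9 (@Lb.g g10 (@Lb.r r1675 (@Lb.r r2666 (@Lb.r r2585 (@Lb.r r2564 (@Lb.d (nat_lit 410) (nat_lit 132) (nat_lit 401) (@Lb.t (@Lb.fp (nat_lit 9) t715)))))))))))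
noncomputable def l4806 : Lb := (@Lb.d (nat_lit 2) (nat_lit 258) (nat_lit 130) (@Lb.g g8 (@Lb.g g9 (@Lb.g g10 (@Lb.g g11 (@Lb.r r427 (@Lb.r r297 (@Lb.r r104 (@Lb.r r70 (@Lb.r r132 (@Lb.d (nat_lit 9) (nat_lit 149) (nat_lit 70) (@Lb.fp (nat_lit 9) t119))))))))))))
noncomputable def l4807 : Lb := (@Lb.r r36 (@Lb.r r1173 (@Lb.r r402 (@Lb.r r1355 (@Lb.r r260 (@Lb.g g8 (@Lb.t (@Lb.p (nat_lit 1) (@Lb.fm (nat_lit 3) t984)))))))))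
noncomputable def l4808 : Lb := (@Lb.r r323 (@Lb.d (nat_lit 38) (nat_lit 0) (nat_lit 2) (@Lb.g g8 (@Lb.g g9 (@Lb.g g10 (@Lb.r r1689 (@Lb.r r1563 (@Lb.r r1540 (@Lb.d (nat_lit 418) (nat_lit 0) (nat_lit 673) (@Lb.t (@Lb.fp (nat_lit 9) t168)))))))))))
noncomputable def l4809 : Lb := (@Lb.d (nat_lit 2) (nat_lit 0) (nat_lit 0) (@Lb.r r1361 (@Lb.r r2471 (@Lb.r r1442 (@Lb.r r425 (@Lb.g g4 (@Lb.d (nat_lit 1) (nat_lit 0) (nat_lit 0) (@Lb.t (@Lb.fm (nat_lit 3) t722)))))))))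
noncomputable def l4810 : Lb := (@Lb.r r323 (@Lb.d (nat_lit 38) (nat_lit 10) (nat_lit 1) (@Lb.g g8 (@Lb.g g9 (@Lb.g g10 (@Lb.r r2315 (@Lb.r r2209 (@Lb.r r2212 (@Lb.r r166 (@Lb.d (nat_lit 520) (nat_lit 72) (nat_lit 18) (@Lb.t (@Lb.fm (nat_lit 9) t594))))))))))))
noncomputable def l4811 : Lb := (@Lb.d (nat_lit 298) (nat_lit 0) (nat_lit 17) (@Lb.r r86 (@Lb.r r424 (@Lb.r r2209 (@Lb.r r2727 (@Lb.g g7 (@Lb.g g6 (@Lb.g g5 (@Lb.d (nat_lit 0) (nat_lit 0) (nat_lit 133) (@Lb.t (@Lb.fm (nat_lit 9) t308)))))))))))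
noncomputable def l4812 : Lb := (@Lb.d (nat_lit 530) (nat_lit 266) (nat_lit 16) (@Lb.r r1158 (@Lb.r r2136 (@Lb.r r2341 (@Lb.r r2707 (@Lb.g g7 (@Lb.g g6 (@Lb.g g8 (@Lb.t (@Lb.fm (nat_lit 9) t1462))))))))))
noncomputable def l4813 : Lb := (@Lb.d (nat_lit 657) (nat_lit 512) (nat_lit 390) (@Lb.r r24 (@Lb.r r101 (@Lb.r r386 (@Lb.g g11 (@Lb.g g6 (@Lb.d (nat_lit 0) (nat_lit 0) (nat_lit 1) (@Lb.fm (nat_lit 3) t868))))))))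
noncomputable def l4814 : Lb := (@Lb.r r21 (@Lb.r r70 (@Lb.d (nat_lit 656) (nat_lit 288) (nat_lit 64) (@Lb.g g4 (@Lb.g g11 (@Lb.r r345 (@Lb.r r1315 (@Lb.r r2182 (@Lb.d (nat_lit 1) (nat_lit 162) (nat_lit 418) (@Lb.fm (nat_lit 3) t68))))))))))
noncomputable def l4815 : Lb := (@Lb.r r134 (@Lb.r r324 (@Lb.r r539 (@Lb.r r289 (@Lb.r r36 (@Lb.d (nat_lit 9) (nat_lit 578) (nat_lit 0) (@Lb.fm (nat_lit 1) t51)))))))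
noncomputable def l4816 : Lb := (@Lb.d (nat_lit 544) (nat_lit 0) (nat_lit 166) (@Lb.r r24 (@Lb.r r101 (@Lb.r r2466 (@Lb.r r1555 (@Lb.g g7 (@Lb.g g6 (@Lb.g g5 (@Lb.d (nat_lit 0) (nat_lit 0) (nat_lit 134) (@Lb.t (@Lb.fp (nat_lit 9) t719)))))))))))
noncomputable def l4817 : Lb := (@Lb.d (nat_lit 656) (nat_lit 256) (nat_lit 390) (@Lb.r r24 (@Lb.r r101 (@Lb.r r386 (@Lb.g g11 (@Lb.g g6 (@Lb.g g5 (@Lb.d (nat_lit 0) (nat_lit 0) (nat_lit 129) (@Lb.t (@Lb.fp (nat_lit 9) t719))))))))))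
noncomputable def l4818 : Lb := (@Lb.d (nat_lit 657) (nat_lit 0) (nat_lit 390) (@Lb.r r24 (@Lb.r r101 (@Lb.r r386 (@Lb.g g11 (@Lb.g g6 (@Lb.g g5 (@Lb.d (nat_lit 0) (nat_lit 0) (nat_lit 129) (@Lb.t (@Lb.fp (nat_lit 9) t719))))))))))
noncomputable def l4819 : Lb := (@Lb.d (nat_lit 642) (nat_lit 258) (nat_lit 66) (@Lb.g g8 (@Lb.g g9 (@Lb.g g10 (@Lb.g g11 (@Lb.r r1451 (@Lb.r r106 (@Lb.r r25 (@Lb.d (nat_lit 9) (nat_lit 2) (nat_lit 426) (@Lb.fp (nat_lit 9) t394))))))))))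
noncomputable def l4820 : Lb := (@Lb.d (nat_lit 0) (nat_lit 256) (nat_lit 73) (@Lb.g g10 (@Lb.g g11 (@Lb.r r24 (@Lb.r r2213 (@Lb.r r2658 (@Lb.r r579 (@Lb.d (nat_lit 0) (nat_lit 81) (nat_lit 522) (@Lb.fp (nat_lit 3) t242)))))))))
noncomputable def l4821 : Lb := (@Lb.r r20 (@Lb.d (nat_lit 4) (nat_lit 513) (nat_lit 2) (@Lb.g g9 (@Lb.g g10 (@Lb.r r2658 (@Lb.r r579 (@Lb.r r8 (@Lb.d (nat_lit 10) (nat_lit 101) (nat_lit 584) (@Lb.fm (nat_lit 3) t51)))))))))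
noncomputable def l4822 : Lb := (@Lb.d (nat_lit 292) (nat_lit 64) (nat_lit 0) (@Lb.r r21 (@Lb.r r70 (@Lb.r r263 (@Lb.g g8 (@Lb.d (nat_lit 530) (nat_lit 0) (nat_lit 0) (@Lb.r r267 (@Lb.r r74 (@Lb.r r25 (@Lb.t (@Lb.fp (nat_lit 3) t239)))))))))))
noncomputable def l4823 : Lb := (@Lb.d (nat_lit 0) (nat_lit 256) (nat_lit 1) (@Lb.r r146 (@Lb.r r101 (@Lb.r r280 (@Lb.r r263 (@Lb.g g7 (@Lb.r r578 (@Lb.r r529 (@Lb.t (@Lb.fp (nat_lit 3) t50))))))))))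
noncomputable def l4824 : Lb := (@Lb.d (nat_lit 17) (nat_lit 512) (nat_lit 134) (@Lb.r r24 (@Lb.r r101 (@Lb.r r386 (@Lb.g g11 (@Lb.g g6 (@Lb.g g5 (@Lb.d (nat_lit 0) (nat_lit 0) (nat_lit 129) (@Lb.t (@Lb.fp (nat_lit 9) t51))))))))))
noncomputable def l4825 : Lb := (@Lb.d (nat_lit 16) (nat_lit 512) (nat_lit 129) (@Lb.r r24 (@Lb.r r101 (@Lb.r r323 (@Lb.g g10 (@Lb.g g5 (@Lb.d (nat_lit 0) (nat_lit 0) (nat_lit 2) (@Lb.r r387 (@Lb.fp (nat_lit 3) t51)))))))))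
noncomputable def l4826 : Lb := (@Lb.d (nat_lit 422) (nat_lit 161) (nat_lit 341) (@Lb.r r2454 (@Lb.r r1128 (@Lb.r r609 (@Lb.r r1707 (@Lb.g g7 (@Lb.g g6 (@Lb.g g5 (@Lb.d (nat_lit 16) (nat_lit 5) (nat_lit 132) (@Lb.t (@Lb.fp (nat_lit 9) t1463)))))))))))
noncomputable def l4827 : Lb := (@Lb.d (nat_lit 546) (nat_lit 257) (nat_lit 16) (@Lb.r r2133 (@Lb.r r2214 (@Lb.r r1368 (@Lb.r r1703 (@Lb.g g7 (@Lb.g g6 (@Lb.g g5 (@Lb.d (nat_lit 0) (nat_lit 24) (nat_lit 74) (@Lb.t (@Lb.fm (nat_lit 9) t1463)))))))))))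
noncomputable def l4828 : Lb := (@Lb.d (nat_lit 0) (nat_lit 68) (nat_lit 18) (@Lb.r r134 (@Lb.r r328 (@Lb.r r279 (@Lb.r r545 (@Lb.g g7 (@Lb.g g6 (@Lb.g g5 (@Lb.d (nat_lit 0) (nat_lit 0) (nat_lit 64) (@Lb.t (@Lb.fm (nat_lit 9) t69)))))))))))
noncomputable def l4829 : Lb := (@Lb.d (nat_lit 2) (nat_lit 257) (nat_lit 0) (@Lb.g g8 (@Lb.g g9 (@Lb.r r153 (@Lb.r r402 (@Lb.r r579 (@Lb.d (nat_lit 129) (nat_lit 0) (nat_lit 128) (@Lb.fm (nat_lit 3) t242))))))))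
noncomputable def l4830 : Lb := (@Lb.r r280 (@Lb.r r1621 (@Lb.r r2391 (@Lb.r r2178 (@Lb.r r1572 (@Lb.d (nat_lit 0) (nat_lit 517) (nat_lit 17) (@Lb.fp (nat_lit 1) t124)))))))
noncomputable def l4831 : Lb := (@Lb.d (nat_lit 422) (nat_lit 98) (nat_lit 341) (@Lb.r r2454 (@Lb.r r1128 (@Lb.r r609 (@Lb.r r1707 (@Lb.g g7 (@Lb.g g6 (@Lb.g g5 (@Lb.d (nat_lit 16) (nat_lit 5) (nat_lit 132) (@Lb.t (@Lb.fp (nat_lit 9) t1463)))))))))))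
noncomputable def l4832 : Lb := (@Lb.r r323 (@Lb.d (nat_lit 24) (nat_lit 0) (nat_lit 1) (@Lb.g g8 (@Lb.g g10 (@Lb.r r1381 (@Lb.r r1691 (@Lb.r r1350 (@Lb.r r584 (@Lb.d (nat_lit 336) (nat_lit 0) (nat_lit 34) (@Lb.fp (nat_lit 3) t329))))))))))
noncomputable def l4833 : Lb := (@Lb.g g8 (@Lb.r r664 (@Lb.r r667 (@Lb.r r1690 (@Lb.r r1365 (@Lb.r r1700 (@Lb.t (@Lb.p (nat_lit 1) (@Lb.fm (nat_lit 3) t322)))))))))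
noncomputable def l4834 : Lb := (@Lb.d (nat_lit 0) (nat_lit 258) (nat_lit 130) (@Lb.g g8 (@Lb.g g9 (@Lb.g g10 (@Lb.g g11 (@Lb.r r427 (@Lb.r r106 (@Lb.r r25 (@Lb.d (nat_lit 0) (nat_lit 73) (nat_lit 137) (@Lb.fp (nat_lit 9) t51))))))))))
noncomputable def l4835 : Lb := (@Lb.r r20 (@Lb.d (nat_lit 8) (nat_lit 578) (nat_lit 130) (@Lb.g g9 (@Lb.g g10 (@Lb.g g11 (@Lb.r r419 (@Lb.r r98 (@Lb.d (nat_lit 0) (nat_lit 72) (nat_lit 137) (@Lb.t (@Lb.fm (nat_lit 9) t51))))))))))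
noncomputable def l4836 : Lb := (@Lb.d (nat_lit 128) (nat_lit 2) (nat_lit 0) (@Lb.g g8 (@Lb.g g9 (@Lb.r r1303 (@Lb.r r162 (@Lb.r r145 (@Lb.r r2644 (@Lb.d (nat_lit 662) (nat_lit 150) (nat_lit 2) (@Lb.fp (nat_lit 3) t334)))))))))
noncomputable def l4837 : Lb := (@Lb.d (nat_lit 138) (nat_lit 0) (nat_lit 0) (@Lb.g g8 (@Lb.r r1621 (@Lb.r r1559 (@Lb.r r2178 (@Lb.r r1444 (@Lb.d (nat_lit 362) (nat_lit 161) (nat_lit 425) (@Lb.t (@Lb.fp (nat_lit 3) t296)))))))))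
noncomputable def l4838 : Lb := (@Lb.r r323 (@Lb.d (nat_lit 0) (nat_lit 2) (nat_lit 0) (@Lb.g g9 (@Lb.g g10 (@Lb.r r1323 (@Lb.r r1113 (@Lb.r r98 (@Lb.r r1124 (@Lb.d (nat_lit 10) (nat_lit 66) (nat_lit 32) (@Lb.fm (nat_lit 3) t219))))))))))
noncomputable def l4839 : Lb := (@Lb.r r323 (@Lb.d (nat_lit 33) (nat_lit 258) (nat_lit 2) (@Lb.g g8 (@Lb.g g9 (@Lb.g g10 (@Lb.r r1689 (@Lb.r r1563 (@Lb.r r1540 (@Lb.d (nat_lit 418) (nat_lit 0) (nat_lit 673) (@Lb.t (@Lb.fp (nat_lit 9) t168)))))))))))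
noncomputable def l4840 : Lb := (@Lb.r r323 (@Lb.d (nat_lit 8) (nat_lit 521) (nat_lit 0) (@Lb.g g8 (@Lb.g g9 (@Lb.g g6 (@Lb.r r387 (@Lb.r r2145 (@Lb.r r24 (@Lb.d (nat_lit 10) (nat_lit 73) (nat_lit 34) (@Lb.t (@Lb.fp (nat_lit 9) t68)))))))))))
noncomputable def l4841 : Lb := (@Lb.d (nat_lit 136) (nat_lit 0) (nat_lit 130) (@Lb.g g9 (@Lb.g g10 (@Lb.g g11 (@Lb.r r2214 (@Lb.r r1112 (@Lb.r r1445 (@Lb.r r1427 (@Lb.d (nat_lit 592) (nat_lit 80) (nat_lit 82) (@Lb.t (@Lb.fp (nat_lit 9) t1046)))))))))))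
noncomputable def l4842 : Lb := (@Lb.r r82 (@Lb.d (nat_lit 97) (nat_lit 162) (nat_lit 64) (@Lb.g g8 (@Lb.g g9 (@Lb.g g11 (@Lb.r r2339 (@Lb.r r2630 (@Lb.r r1412 (@Lb.d (nat_lit 356) (nat_lit 97) (nat_lit 362) (@Lb.t (@Lb.fm (nat_lit 9) t986)))))))))))
noncomputable def l4843 : Lb := (@Lb.g g9 (@Lb.d (nat_lit 0) (nat_lit 346) (nat_lit 426) (@Lb.t (@Lb.fp (nat_lit 3) t654))))
noncomputable def l4844 : Lb := (@Lb.d (nat_lit 0) (nat_lit 421) (nat_lit 0) (@Lb.g g9 (@Lb.d (nat_lit 0) (nat_lit 90) (nat_lit 0) (@Lb.t (@Lb.fp (nat_lit 3) t1464)))))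
noncomputable def l4845 : Lb := (@Lb.d (nat_lit 0) (nat_lit 165) (nat_lit 5) (@Lb.r r82 (@Lb.r r1425 (@Lb.r r291 (@Lb.g g11 (@Lb.g g5 (@Lb.r r98 (@Lb.fp (nat_lit 3) t1465))))))))
noncomputable def l4846 : Lb := (@Lb.r r323 (@Lb.d (nat_lit 0) (nat_lit 0) (nat_lit 1) (@Lb.g g9 (@Lb.g g6 (@Lb.r r2659 (@Lb.r r101 (@Lb.r r24 (@Lb.d (nat_lit 290) (nat_lit 0) (nat_lit 128) (@Lb.fm (nat_lit 3) t457)))))))))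
noncomputable def l4847 : Lb := (@Lb.r r323 (@Lb.d (nat_lit 0) (nat_lit 512) (nat_lit 1) (@Lb.g g9 (@Lb.g g6 (@Lb.r r2659 (@Lb.r r101 (@Lb.r r24 (@Lb.d (nat_lit 288) (nat_lit 0) (nat_lit 128) (@Lb.fm (nat_lit 3) t335)))))))))
noncomputable def l4848 : Lb := (@Lb.d (nat_lit 0) (nat_lit 165) (nat_lit 66) (@Lb.g g9 (@Lb.g g10 (@Lb.g g11 (@Lb.r r531 (@Lb.r r418 (@Lb.d (nat_lit 0) (nat_lit 84) (nat_lit 73) (@Lb.t (@Lb.fm (nat_lit 9) t316)))))))))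
noncomputable def l4849 : Lb := (@Lb.d (nat_lit 0) (nat_lit 512) (nat_lit 128) (@Lb.g g11 (@Lb.r r1602 (@Lb.r r579 (@Lb.r r1425 (@Lb.d (nat_lit 0) (nat_lit 164) (nat_lit 657) (@Lb.t (@Lb.fm (nat_lit 3) t1466))))))))
noncomputable def l4850 : Lb := (@Lb.r r82 (@Lb.d (nat_lit 2) (nat_lit 554) (nat_lit 128) (@Lb.g g8 (@Lb.g g9 (@Lb.g g11 (@Lb.r r355 (@Lb.r r1174 (@Lb.r r2133 (@Lb.d (nat_lit 358) (nat_lit 136) (nat_lit 281) (@Lb.t (@Lb.fp (nat_lit 9) t868)))))))))))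
noncomputable def l4851 : Lb := (@Lb.r r82 (@Lb.d (nat_lit 0) (nat_lit 529) (nat_lit 0) (@Lb.g g9 (@Lb.g g11 (@Lb.r r1427 (@Lb.r r386 (@Lb.r r1113 (@Lb.r r24 (@Lb.d (nat_lit 528) (nat_lit 0) (nat_lit 17) (@Lb.fm (nat_lit 3) t1061))))))))))
noncomputable def l4852 : Lb := (@Lb.d (nat_lit 328) (nat_lit 98) (nat_lit 150) (@Lb.r r410 (@Lb.r r148 (@Lb.r r1365 (@Lb.g g7 (@Lb.g g6 (@Lb.g g5 (@Lb.d (nat_lit 80) (nat_lit 0) (nat_lit 385) (@Lb.t (@Lb.fm (nat_lit 9) t98))))))))))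
noncomputable def l4853 : Lb := (@Lb.d (nat_lit 130) (nat_lit 32) (nat_lit 0) (@Lb.g g8 (@Lb.g g9 (@Lb.r r1299 (@Lb.r r2178 (@Lb.r r2709 (@Lb.r r2084 (@Lb.d (nat_lit 169) (nat_lit 73) (nat_lit 261) (@Lb.fp (nat_lit 3) t124)))))))))
noncomputable def l4854 : Lb := (@Lb.d (nat_lit 9) (nat_lit 257) (nat_lit 0) (@Lb.g g8 (@Lb.g g9 (@Lb.r r1190 (@Lb.r r2392 (@Lb.r r1543 (@Lb.r r337 (@Lb.d (nat_lit 0) (nat_lit 22) (nat_lit 134) (@Lb.fp (nat_lit 3) t242)))))))))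
noncomputable def l4855 : Lb := (@Lb.r r323 (@Lb.d (nat_lit 38) (nat_lit 256) (nat_lit 2) (@Lb.g g8 (@Lb.g g9 (@Lb.g g10 (@Lb.r r1689 (@Lb.r r1563 (@Lb.r r1540 (@Lb.d (nat_lit 417) (nat_lit 0) (nat_lit 673) (@Lb.t (@Lb.fp (nat_lit 9) t321)))))))))))
noncomputable def l4856 : Lb := (@Lb.r r2118 (@Lb.r r2311 (@Lb.d (nat_lit 0) (nat_lit 258) (nat_lit 0) (@Lb.g g8 (@Lb.g g9 (@Lb.r r2089 (@Lb.r r2084 (@Lb.d (nat_lit 520) (nat_lit 66) (nat_lit 0) (@Lb.fp (nat_lit 3) t116)))))))))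
noncomputable def l4857 : Lb := (@Lb.d (nat_lit 36) (nat_lit 0) (nat_lit 0) (@Lb.g g8 (@Lb.g g9 (@Lb.r r1186 (@Lb.r r1065 (@Lb.r r360 (@Lb.r r1543 (@Lb.d (nat_lit 0) (nat_lit 66) (nat_lit 88) (@Lb.fm (nat_lit 3) t242)))))))))
noncomputable def l4858 : Lb := (@Lb.d (nat_lit 130) (nat_lit 33) (nat_lit 0) (@Lb.g g8 (@Lb.g g9 (@Lb.r r2579 (@Lb.r r2178 (@Lb.r r1429 (@Lb.r r2084 (@Lb.d (nat_lit 617) (nat_lit 73) (nat_lit 345) (@Lb.fm (nat_lit 3) t124)))))))))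
noncomputable def l4859 : Lb := (@Lb.d (nat_lit 0) (nat_lit 258) (nat_lit 0) (@Lb.g g9 (@Lb.r r2471 (@Lb.r r1178 (@Lb.r r1109 (@Lb.r r2196 (@Lb.d (nat_lit 277) (nat_lit 129) (nat_lit 16) (@Lb.t (@Lb.fm (nat_lit 3) t1467)))))))))
noncomputable def l4860 : Lb := (@Lb.d (nat_lit 69) (nat_lit 353) (nat_lit 354) (@Lb.r r2328 (@Lb.r r1370 (@Lb.r r1701 (@Lb.r r2467 (@Lb.g g5 (@Lb.g g4 (@Lb.d (nat_lit 64) (nat_lit 2) (nat_lit 0) (@Lb.fm (nat_lit 3) t7)))))))))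
noncomputable def l4861 : Lb := (@Lb.r r323 (@Lb.d (nat_lit 38) (nat_lit 0) (nat_lit 2) (@Lb.g g8 (@Lb.g g9 (@Lb.g g10 (@Lb.r r1689 (@Lb.r r1563 (@Lb.r r2634 (@Lb.r r1540 (@Lb.d (nat_lit 258) (nat_lit 0) (nat_lit 401) (@Lb.t (@Lb.fp (nat_lit 9) t1039))))))))))))
noncomputable def l4862 : Lb := (@Lb.r r280 (@Lb.r r1621 (@Lb.r r2391 (@Lb.r r2178 (@Lb.r r1572 (@Lb.d (nat_lit 0) (nat_lit 261) (nat_lit 86) (@Lb.fp (nat_lit 1) t100)))))))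
noncomputable def l4863 : Lb := (@Lb.d (nat_lit 358) (nat_lit 614) (nat_lit 612) (@Lb.r r2407 (@Lb.r r1556 (@Lb.r r281 (@Lb.g g7 (@Lb.g g10 (@Lb.g g5 (@Lb.d (nat_lit 64) (nat_lit 32) (nat_lit 17) (@Lb.t (@Lb.fm (nat_lit 9) t246))))))))))
noncomputable def l4864 : Lb := (@Lb.r r323 (@Lb.d (nat_lit 38) (nat_lit 256) (nat_lit 2) (@Lb.g g8 (@Lb.g g9 (@Lb.g g10 (@Lb.r r1689 (@Lb.r r1563 (@Lb.r r2634 (@Lb.r r1540 (@Lb.d (nat_lit 257) (nat_lit 0) (nat_lit 401) (@Lb.t (@Lb.fp (nat_lit 9) t163))))))))))))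
noncomputable def l4865 : Lb := (@Lb.d (nat_lit 672) (nat_lit 277) (nat_lit 617) (@Lb.r r1381 (@Lb.r r1691 (@Lb.r r1624 (@Lb.r r1190 (@Lb.g g6 (@Lb.g g5 (@Lb.d (nat_lit 4) (nat_lit 16) (nat_lit 1) (@Lb.fm (nat_lit 3) t71)))))))))
noncomputable def l4866 : Lb := (@Lb.d (nat_lit 1) (nat_lit 325) (nat_lit 33) (@Lb.r r37 (@Lb.r r1190 (@Lb.r r2392 (@Lb.r r647 (@Lb.g g6 (@Lb.r r145 (@Lb.t (@Lb.fm (nat_lit 3) t100)))))))))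
noncomputable def l4867 : Lb := (@Lb.d (nat_lit 672) (nat_lit 21) (nat_lit 617) (@Lb.r r1381 (@Lb.r r1691 (@Lb.r r1624 (@Lb.r r1190 (@Lb.g g6 (@Lb.g g5 (@Lb.d (nat_lit 4) (nat_lit 21) (nat_lit 2) (@Lb.fm (nat_lit 3) t71)))))))))
noncomputable def l4868 : Lb := (@Lb.d (nat_lit 26) (nat_lit 585) (nat_lit 17) (@Lb.r r166 (@Lb.r r344 (@Lb.r r1415 (@Lb.g g6 (@Lb.g g5 (@Lb.d (nat_lit 0) (nat_lit 1) (nat_lit 4) (@Lb.r r403 (@Lb.fm (nat_lit 3) t596)))))))))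
noncomputable def l4869 : Lb := (@Lb.d (nat_lit 0) (nat_lit 512) (nat_lit 130) (@Lb.g g9 (@Lb.g g10 (@Lb.g g11 (@Lb.r r419 (@Lb.r r98 (@Lb.d (nat_lit 0) (nat_lit 9) (nat_lit 137) (@Lb.t (@Lb.fm (nat_lit 9) t51)))))))))
noncomputable def l4870 : Lb := (@Lb.g g10 (@Lb.g g7 (@Lb.r r386 (@Lb.r r1347 (@Lb.r r578 (@Lb.fm (nat_lit 3) t2))))))
noncomputable def l4871 : Lb := (@Lb.r r579 (@Lb.d (nat_lit 0) (nat_lit 0) (nat_lit 16) (@Lb.fm (nat_lit 1) t2)))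
noncomputable def l4872 : Lb := (@Lb.d (nat_lit 0) (nat_lit 33) (nat_lit 66) (@Lb.g g9 (@Lb.g g10 (@Lb.g g11 (@Lb.r r2595 (@Lb.r r386 (@Lb.r r2201 (@Lb.r r24 (@Lb.d (nat_lit 672) (nat_lit 0) (nat_lit 677) (@Lb.t (@Lb.fp (nat_lit 9) t1468)))))))))))
noncomputable def l4873 : Lb := (@Lb.d (nat_lit 273) (nat_lit 340) (nat_lit 422) (@Lb.r r1096 (@Lb.r r1426 (@Lb.g g11 (@Lb.g g6 (@Lb.g g9 (@Lb.g g4 (@Lb.d (nat_lit 1) (nat_lit 102) (nat_lit 388) (@Lb.fp (nat_lit 9) t1445)))))))))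
noncomputable def l4874 : Lb := (@Lb.d (nat_lit 2) (nat_lit 2) (nat_lit 2) (@Lb.g g8 (@Lb.g g9 (@Lb.g g10 (@Lb.r r683 (@Lb.r r1668 (@Lb.r r1158 (@Lb.r r25 (@Lb.d (nat_lit 290) (nat_lit 137) (nat_lit 86) (@Lb.t (@Lb.fm (nat_lit 9) t1469)))))))))))
noncomputable def l4875 : Lb := (@Lb.d (nat_lit 0) (nat_lit 513) (nat_lit 72) (@Lb.g g9 (@Lb.g g11 (@Lb.r r2465 (@Lb.d (nat_lit 0) (nat_lit 153) (nat_lit 517) (@Lb.fp (nat_lit 3) t619))))))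
noncomputable def l4876 : Lb := (@Lb.d (nat_lit 1) (nat_lit 290) (nat_lit 66) (@Lb.g g8 (@Lb.g g9 (@Lb.g g10 (@Lb.g g11 (@Lb.r r289 (@Lb.r r667 (@Lb.r r1668 (@Lb.r r1158 (@Lb.d (nat_lit 546) (nat_lit 2) (nat_lit 84) (@Lb.fm (nat_lit 9) t1470)))))))))))
noncomputable def l4877 : Lb := (@Lb.d (nat_lit 2) (nat_lit 546) (nat_lit 66) (@Lb.g g8 (@Lb.g g9 (@Lb.g g10 (@Lb.g g11 (@Lb.r r289 (@Lb.r r667 (@Lb.r r1668 (@Lb.r r1158 (@Lb.d (nat_lit 546) (nat_lit 2) (nat_lit 153) (@Lb.fm (nat_lit 9) t1470)))))))))))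
noncomputable def l4878 : Lb := (@Lb.d (nat_lit 0) (nat_lit 266) (nat_lit 2) (@Lb.g g9 (@Lb.g g10 (@Lb.g g7 (@Lb.r r402 (@Lb.r r101 (@Lb.r r24 (@Lb.d (nat_lit 256) (nat_lit 0) (nat_lit 576) (@Lb.t (@Lb.fm (nat_lit 9) t1333))))))))))
noncomputable def l4879 : Lb := (@Lb.d (nat_lit 401) (nat_lit 256) (nat_lit 641) (@Lb.r r1604 (@Lb.r r146 (@Lb.r r345 (@Lb.g g11 (@Lb.g g4 (@Lb.d (nat_lit 5) (nat_lit 0) (nat_lit 384) (@Lb.r r578 (@Lb.fm (nat_lit 3) t1471)))))))))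
noncomputable def l4880 : Lb := (@Lb.d (nat_lit 0) (nat_lit 514) (nat_lit 0) (@Lb.g g9 (@Lb.g g10 (@Lb.r r679 (@Lb.r r1685 (@Lb.r r2404 (@Lb.r r1178 (@Lb.d (nat_lit 528) (nat_lit 9) (nat_lit 18) (@Lb.fm (nat_lit 3) t1374)))))))))
noncomputable def l4881 : Lb := (@Lb.d (nat_lit 0) (nat_lit 522) (nat_lit 2) (@Lb.g g9 (@Lb.g g10 (@Lb.g g7 (@Lb.r r402 (@Lb.r r101 (@Lb.r r24 (@Lb.d (nat_lit 258) (nat_lit 0) (nat_lit 576) (@Lb.t (@Lb.fm (nat_lit 9) t80))))))))))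
noncomputable def l4882 : Lb := (@Lb.d (nat_lit 130) (nat_lit 546) (nat_lit 2) (@Lb.g g8 (@Lb.g g9 (@Lb.g g10 (@Lb.r r1450 (@Lb.r r583 (@Lb.r r408 (@Lb.r r2085 (@Lb.d (nat_lit 72) (nat_lit 22) (nat_lit 602) (@Lb.t (@Lb.fm (nat_lit 9) t1472)))))))))))
noncomputable def l4883 : Lb := (@Lb.d (nat_lit 8) (nat_lit 265) (nat_lit 73) (@Lb.g g9 (@Lb.g g10 (@Lb.g g11 (@Lb.r r2471 (@Lb.r r2136 (@Lb.r r1606 (@Lb.r r1425 (@Lb.d (nat_lit 81) (nat_lit 90) (nat_lit 640) (@Lb.t (@Lb.fp (nat_lit 9) t1471)))))))))))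
noncomputable def l4884 : Lb := (@Lb.d (nat_lit 0) (nat_lit 426) (nat_lit 580) (@Lb.r r1426 (@Lb.r r1637 (@Lb.r r1304 (@Lb.r r2371 (@Lb.g g7 (@Lb.g g6 (@Lb.d (nat_lit 16) (nat_lit 0) (nat_lit 65) (@Lb.fp (nat_lit 3) t681)))))))))
noncomputable def l4885 : Lb := (@Lb.d (nat_lit 358) (nat_lit 358) (nat_lit 612) (@Lb.r r2407 (@Lb.r r1556 (@Lb.r r281 (@Lb.g g7 (@Lb.g g10 (@Lb.g g5 (@Lb.d (nat_lit 64) (nat_lit 32) (nat_lit 86) (@Lb.t (@Lb.fm (nat_lit 9) t1473))))))))))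
noncomputable def l4886 : Lb := (@Lb.d (nat_lit 145) (nat_lit 664) (nat_lit 612) (@Lb.r r1445 (@Lb.r r1627 (@Lb.r r1560 (@Lb.g g10 (@Lb.g g5 (@Lb.d (nat_lit 4) (nat_lit 0) (nat_lit 22) (@Lb.fm (nat_lit 3) t1473))))))))
noncomputable def l4887 : Lb := (@Lb.d (nat_lit 0) (nat_lit 402) (nat_lit 389) (@Lb.r r579 (@Lb.r r1362 (@Lb.g g6 (@Lb.g g5 (@Lb.g g8 (@Lb.d (nat_lit 5) (nat_lit 1) (nat_lit 1) (@Lb.t (@Lb.fp (nat_lit 9) t285)))))))))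
noncomputable def l4888 : Lb := (@Lb.r r275 (@Lb.d (nat_lit 0) (nat_lit 673) (nat_lit 2) (@Lb.g g5 (@Lb.g g10 (@Lb.r r291 (@Lb.r r386 (@Lb.d (nat_lit 0) (nat_lit 81) (nat_lit 73) (@Lb.fm (nat_lit 3) t118))))))))
noncomputable def l4889 : Lb := (@Lb.d (nat_lit 128) (nat_lit 288) (nat_lit 128) (@Lb.g g11 (@Lb.r r1369 (@Lb.r r1304 (@Lb.r r359 (@Lb.r r2178 (@Lb.d (nat_lit 617) (nat_lit 97) (nat_lit 665) (@Lb.t (@Lb.fp (nat_lit 3) t229)))))))))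
noncomputable def l4890 : Lb := (@Lb.d (nat_lit 32) (nat_lit 2) (nat_lit 130) (@Lb.g g9 (@Lb.g g10 (@Lb.g g11 (@Lb.r r419 (@Lb.r r149 (@Lb.r r100 (@Lb.r r410 (@Lb.d (nat_lit 144) (nat_lit 85) (nat_lit 136) (@Lb.t (@Lb.fp (nat_lit 9) t1474)))))))))))
noncomputable def l4891 : Lb := (@Lb.d (nat_lit 8) (nat_lit 521) (nat_lit 129) (@Lb.g g9 (@Lb.g g10 (@Lb.g g11 (@Lb.r r614 (@Lb.r r404 (@Lb.r r299 (@Lb.r r409 (@Lb.d (nat_lit 150) (nat_lit 84) (nat_lit 136) (@Lb.t (@Lb.fm (nat_lit 9) t1475)))))))))))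
noncomputable def l4892 : Lb := (@Lb.d (nat_lit 0) (nat_lit 256) (nat_lit 513) (@Lb.r r1297 (@Lb.r r579 (@Lb.g g6 (@Lb.g g5 (@Lb.d (nat_lit 0) (nat_lit 0) (nat_lit 5) (@Lb.fp (nat_lit 3) t99)))))))
noncomputable def l4893 : Lb := (@Lb.r r323 (@Lb.d (nat_lit 0) (nat_lit 514) (nat_lit 1) (@Lb.g g9 (@Lb.g g6 (@Lb.r r387 (@Lb.r r97 (@Lb.d (nat_lit 0) (nat_lit 9) (nat_lit 66) (@Lb.fm (nat_lit 3) t87))))))))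
noncomputable def l4894 : Lb := (@Lb.d (nat_lit 8) (nat_lit 544) (nat_lit 17) (@Lb.g g9 (@Lb.g g10 (@Lb.r r1624 (@Lb.r r1691 (@Lb.r r2325 (@Lb.d (nat_lit 86) (nat_lit 146) (nat_lit 642) (@Lb.fm (nat_lit 3) t229))))))))
noncomputable def l4895 : Lb := (@Lb.d (nat_lit 0) (nat_lit 272) (nat_lit 138) (@Lb.g g9 (@Lb.g g10 (@Lb.g g11 (@Lb.r r2467 (@Lb.r r2193 (@Lb.d (nat_lit 0) (nat_lit 34) (nat_lit 89) (@Lb.t (@Lb.fm (nat_lit 9) t484)))))))))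
noncomputable def l4896 : Lb := (@Lb.r r82 (@Lb.d (nat_lit 0) (nat_lit 4) (nat_lit 128) (@Lb.g g9 (@Lb.g g11 (@Lb.r r419 (@Lb.r r98 (@Lb.d (nat_lit 0) (nat_lit 9) (nat_lit 137) (@Lb.fm (nat_lit 3) t5))))))))
noncomputable def l4897 : Lb := (@Lb.d (nat_lit 8) (nat_lit 288) (nat_lit 17) (@Lb.g g9 (@Lb.g g10 (@Lb.r r1624 (@Lb.r r1691 (@Lb.r r2325 (@Lb.d (nat_lit 84) (nat_lit 146) (nat_lit 642) (@Lb.fm (nat_lit 3) t307))))))))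
noncomputable def l4898 : Lb := (@Lb.d (nat_lit 0) (nat_lit 0) (nat_lit 2) (@Lb.g g9 (@Lb.g g10 (@Lb.r r1703 (@Lb.r r2392 (@Lb.r r1190 (@Lb.r r1169 (@Lb.d (nat_lit 0) (nat_lit 74) (nat_lit 34) (@Lb.fp (nat_lit 3) t51)))))))))
noncomputable def l4899 : Lb := (@Lb.d (nat_lit 128) (nat_lit 256) (nat_lit 64) (@Lb.g g9 (@Lb.g g11 (@Lb.r r264 (@Lb.r r2391 (@Lb.r r1186 (@Lb.r r1169 (@Lb.d (nat_lit 98) (nat_lit 73) (nat_lit 169) (@Lb.fm (nat_lit 3) t51)))))))))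
noncomputable def l4900 : Lb := (@Lb.r r82 (@Lb.d (nat_lit 128) (nat_lit 258) (nat_lit 136) (@Lb.g g5 (@Lb.g g11 (@Lb.r r420 (@Lb.r r390 (@Lb.r r2627 (@Lb.d (nat_lit 257) (nat_lit 65) (nat_lit 362) (@Lb.fp (nat_lit 3) t848)))))))))
noncomputable def l4901 : Lb := (@Lb.r r323 (@Lb.d (nat_lit 134) (nat_lit 256) (nat_lit 2) (@Lb.g g8 (@Lb.g g9 (@Lb.g g10 (@Lb.r r599 (@Lb.r r98 (@Lb.r r97 (@Lb.r r408 (@Lb.d (nat_lit 150) (nat_lit 26) (nat_lit 128) (@Lb.t (@Lb.fp (nat_lit 9) t119))))))))))))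
noncomputable def l4902 : Lb := (@Lb.r r21 (@Lb.r r323 (@Lb.d (nat_lit 130) (nat_lit 512) (nat_lit 2) (@Lb.g g8 (@Lb.g g10 (@Lb.r r362 (@Lb.r r361 (@Lb.r r535 (@Lb.r r264 (@Lb.d (nat_lit 138) (nat_lit 17) (nat_lit 5) (@Lb.fp (nat_lit 3) t119)))))))))))
noncomputable def l4903 : Lb := (@Lb.r r323 (@Lb.d (nat_lit 4) (nat_lit 0) (nat_lit 1) (@Lb.g g8 (@Lb.g g9 (@Lb.g g6 (@Lb.r r387 (@Lb.r r97 (@Lb.r r24 (@Lb.d (nat_lit 0) (nat_lit 10) (nat_lit 66) (@Lb.t (@Lb.fp (nat_lit 9) t40)))))))))))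
noncomputable def l4904 : Lb := (@Lb.d (nat_lit 0) (nat_lit 256) (nat_lit 128) (@Lb.g g8 (@Lb.g g9 (@Lb.g g10 (@Lb.g g11 (@Lb.r r387 (@Lb.r r402 (@Lb.r r101 (@Lb.r r24 (@Lb.d (nat_lit 2) (nat_lit 0) (nat_lit 0) (@Lb.fm (nat_lit 9) t145)))))))))))
noncomputable def l4905 : Lb := (@Lb.d (nat_lit 2) (nat_lit 4) (nat_lit 128) (@Lb.g g8 (@Lb.g g9 (@Lb.g g10 (@Lb.g g11 (@Lb.r r427 (@Lb.r r145 (@Lb.r r356 (@Lb.r r154 (@Lb.r r132 (@Lb.d (nat_lit 0) (nat_lit 0) (nat_lit 137) (@Lb.fm (nat_lit 9) t1045))))))))))))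
noncomputable def l4906 : Lb := (@Lb.d (nat_lit 9) (nat_lit 538) (nat_lit 9) (@Lb.r r657 (@Lb.r r666 (@Lb.r r420 (@Lb.r r347 (@Lb.g g7 (@Lb.g g6 (@Lb.g g5 (@Lb.d (nat_lit 4) (nat_lit 0) (nat_lit 134) (@Lb.t (@Lb.fm (nat_lit 9) t68)))))))))))
noncomputable def l4907 : Lb := (@Lb.d (nat_lit 1) (nat_lit 10) (nat_lit 16) (@Lb.r r21 (@Lb.r r70 (@Lb.r r263 (@Lb.g g4 (@Lb.r r267 (@Lb.r r74 (@Lb.r r25 (@Lb.t (@Lb.fm (nat_lit 3) t151))))))))))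
noncomputable def l4908 : Lb := (@Lb.d (nat_lit 4) (nat_lit 0) (nat_lit 2) (@Lb.g g8 (@Lb.g g9 (@Lb.g g10 (@Lb.r r515 (@Lb.r r106 (@Lb.r r25 (@Lb.d (nat_lit 9) (nat_lit 9) (nat_lit 70) (@Lb.t (@Lb.fp (nat_lit 9) t71))))))))))
noncomputable def l4909 : Lb := (@Lb.d (nat_lit 10) (nat_lit 512) (nat_lit 130) (@Lb.g g8 (@Lb.g g10 (@Lb.g g11 (@Lb.r r2443 (@Lb.r r2193 (@Lb.r r2458 (@Lb.r r2436 (@Lb.d (nat_lit 360) (nat_lit 9) (nat_lit 681) (@Lb.t (@Lb.fp (nat_lit 9) t221)))))))))))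
noncomputable def l4910 : Lb := (@Lb.d (nat_lit 2) (nat_lit 521) (nat_lit 73) (@Lb.g g8 (@Lb.g g9 (@Lb.g g10 (@Lb.g g11 (@Lb.r r643 (@Lb.r r297 (@Lb.r r360 (@Lb.r r582 (@Lb.r r132 (@Lb.d (nat_lit 128) (nat_lit 5) (nat_lit 72) (@Lb.fm (nat_lit 9) t98))))))))))))
noncomputable def l4911 : Lb := (@Lb.d (nat_lit 0) (nat_lit 0) (nat_lit 130) (@Lb.g g9 (@Lb.g g10 (@Lb.g g11 (@Lb.r r586 (@Lb.r r584 (@Lb.r r299 (@Lb.r r409 (@Lb.d (nat_lit 532) (nat_lit 4) (nat_lit 34) (@Lb.t (@Lb.fp (nat_lit 9) t1476)))))))))))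
noncomputable def l4912 : Lb := (@Lb.d (nat_lit 134) (nat_lit 256) (nat_lit 4) (@Lb.g g8 (@Lb.g g9 (@Lb.g g10 (@Lb.g g11 (@Lb.r r419 (@Lb.r r164 (@Lb.r r2469 (@Lb.r r2150 (@Lb.r r1156 (@Lb.d (nat_lit 41) (nat_lit 97) (nat_lit 673) (@Lb.fm (nat_lit 9) t321))))))))))))
noncomputable def l4913 : Lb := (@Lb.d (nat_lit 404) (nat_lit 148) (nat_lit 354) (@Lb.r r2321 (@Lb.r r2386 (@Lb.r r679 (@Lb.g g7 (@Lb.g g6 (@Lb.g g5 (@Lb.g g8 (@Lb.d (nat_lit 10) (nat_lit 5) (nat_lit 66) (@Lb.fp (nat_lit 9) t1477))))))))))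
noncomputable def l4914 : Lb := (@Lb.d (nat_lit 146) (nat_lit 68) (nat_lit 129) (@Lb.g g8 (@Lb.g g9 (@Lb.g g10 (@Lb.g g11 (@Lb.r r2731 (@Lb.r r2666 (@Lb.r r1540 (@Lb.d (nat_lit 678) (nat_lit 74) (nat_lit 529) (@Lb.fm (nat_lit 9) t1478))))))))))
noncomputable def l4915 : Lb := (@Lb.d (nat_lit 134) (nat_lit 0) (nat_lit 130) (@Lb.g g8 (@Lb.g g9 (@Lb.g g10 (@Lb.g g11 (@Lb.r r683 (@Lb.r r618 (@Lb.r r537 (@Lb.r r536 (@Lb.d (nat_lit 74) (nat_lit 169) (nat_lit 1) (@Lb.fp (nat_lit 9) t919)))))))))))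
noncomputable def l4916 : Lb := (@Lb.d (nat_lit 137) (nat_lit 258) (nat_lit 0) (@Lb.r r20 (@Lb.r r105 (@Lb.r r402 (@Lb.g g8 (@Lb.t (@Lb.fp (nat_lit 3) t311)))))))
noncomputable def l4917 : Lb := (@Lb.r r323 (@Lb.d (nat_lit 33) (nat_lit 258) (nat_lit 33) (@Lb.g g8 (@Lb.g g9 (@Lb.g g6 (@Lb.r r387 (@Lb.r r97 (@Lb.r r2072 (@Lb.d (nat_lit 264) (nat_lit 137) (nat_lit 2) (@Lb.t (@Lb.fp (nat_lit 9) t525)))))))))))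
noncomputable def l4918 : Lb := (@Lb.d (nat_lit 9) (nat_lit 105) (nat_lit 596) (@Lb.r r2196 (@Lb.r r2403 (@Lb.r r594 (@Lb.r r2449 (@Lb.g g7 (@Lb.d (nat_lit 0) (nat_lit 0) (nat_lit 68) (@Lb.t (@Lb.fm (nat_lit 3) t1401)))))))))
noncomputable def l4919 : Lb := (@Lb.d (nat_lit 8) (nat_lit 258) (nat_lit 130) (@Lb.g g9 (@Lb.g g10 (@Lb.g g11 (@Lb.r r586 (@Lb.r r584 (@Lb.r r299 (@Lb.r r289 (@Lb.d (nat_lit 8) (nat_lit 137) (nat_lit 2) (@Lb.t (@Lb.fm (nat_lit 9) t51)))))))))))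
noncomputable def l4920 : Lb := (@Lb.d (nat_lit 2) (nat_lit 600) (nat_lit 581) (@Lb.r r402 (@Lb.r r101 (@Lb.g g8 (@Lb.d (nat_lit 9) (nat_lit 0) (nat_lit 0) (@Lb.t (@Lb.fp (nat_lit 3) t1479)))))))
noncomputable def l4921 : Lb := (@Lb.d (nat_lit 6) (nat_lit 136) (nat_lit 34) (@Lb.r r597 (@Lb.r r279 (@Lb.r r584 (@Lb.r r326 (@Lb.g g7 (@Lb.g g6 (@Lb.g g5 (@Lb.d (nat_lit 4) (nat_lit 1) (nat_lit 65) (@Lb.t (@Lb.fm (nat_lit 9) t502)))))))))))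
noncomputable def l4922 : Lb := (@Lb.d (nat_lit 145) (nat_lit 81) (nat_lit 513) (@Lb.r r24 (@Lb.r r101 (@Lb.r r386 (@Lb.r r339 (@Lb.g g7 (@Lb.g g6 (@Lb.g g5 (@Lb.d (nat_lit 0) (nat_lit 0) (nat_lit 65) (@Lb.t (@Lb.fm (nat_lit 9) t490)))))))))))
noncomputable def l4923 : Lb := (@Lb.d (nat_lit 133) (nat_lit 596) (nat_lit 513) (@Lb.r r24 (@Lb.r r97 (@Lb.r r386 (@Lb.r r343 (@Lb.g g7 (@Lb.g g6 (@Lb.g g5 (@Lb.d (nat_lit 0) (nat_lit 1) (nat_lit 65) (@Lb.t (@Lb.fm (nat_lit 9) t490)))))))))))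
noncomputable def l4924 : Lb := (@Lb.r r402 (@Lb.r r101 (@Lb.r r24 (@Lb.d (nat_lit 538) (nat_lit 640) (nat_lit 528) (@Lb.fm (nat_lit 1) t1480)))))
noncomputable def l4925 : Lb := (@Lb.d (nat_lit 9) (nat_lit 256) (nat_lit 0) (@Lb.g g8 (@Lb.r r609 (@Lb.r r363 (@Lb.r r328 (@Lb.r r134 (@Lb.d (nat_lit 512) (nat_lit 0) (nat_lit 160) (@Lb.t (@Lb.fm (nat_lit 3) t40)))))))))
noncomputable def l4926 : Lb := (@Lb.d (nat_lit 1) (nat_lit 256) (nat_lit 128) (@Lb.g g8 (@Lb.g g10 (@Lb.g g11 (@Lb.r r387 (@Lb.r r402 (@Lb.r r101 (@Lb.r r24 (@Lb.d (nat_lit 552) (nat_lit 2) (nat_lit 18) (@Lb.t (@Lb.fp (nat_lit 9) t145)))))))))))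
noncomputable def l4927 : Lb := (@Lb.d (nat_lit 0) (nat_lit 258) (nat_lit 130) (@Lb.g g8 (@Lb.g g9 (@Lb.g g10 (@Lb.g g11 (@Lb.r r427 (@Lb.r r145 (@Lb.r r356 (@Lb.r r154 (@Lb.r r132 (@Lb.d (nat_lit 4) (nat_lit 8) (nat_lit 153) (@Lb.fm (nat_lit 9) t221))))))))))))
noncomputable def l4928 : Lb := (@Lb.d (nat_lit 0) (nat_lit 2) (nat_lit 130) (@Lb.g g8 (@Lb.g g9 (@Lb.g g10 (@Lb.g g11 (@Lb.r r427 (@Lb.r r145 (@Lb.r r356 (@Lb.r r154 (@Lb.r r132 (@Lb.d (nat_lit 4) (nat_lit 130) (nat_lit 137) (@Lb.fm (nat_lit 9) t1350))))))))))))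
noncomputable def l4929 : Lb := (@Lb.d (nat_lit 0) (nat_lit 2) (nat_lit 130) (@Lb.g g8 (@Lb.g g9 (@Lb.g g10 (@Lb.g g11 (@Lb.r r427 (@Lb.r r420 (@Lb.r r102 (@Lb.r r21 (@Lb.r r36 (@Lb.d (nat_lit 514) (nat_lit 5) (nat_lit 168) (@Lb.fp (nat_lit 9) t221))))))))))))
noncomputable def l4930 : Lb := (@Lb.d (nat_lit 32) (nat_lit 256) (nat_lit 130) (@Lb.g g9 (@Lb.g g10 (@Lb.g g11 (@Lb.r r545 (@Lb.r r299 (@Lb.r r72 (@Lb.r r390 (@Lb.d (nat_lit 74) (nat_lit 4) (nat_lit 136) (@Lb.t (@Lb.fp (nat_lit 9) t87)))))))))))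
noncomputable def l4931 : Lb := (@Lb.r r2331 (@Lb.r r404 (@Lb.r r86 (@Lb.r r1057 (@Lb.r r132 (@Lb.d (nat_lit 0) (nat_lit 321) (nat_lit 2) (@Lb.fm (nat_lit 1) t309)))))))
noncomputable def l4932 : Lb := (@Lb.d (nat_lit 0) (nat_lit 18) (nat_lit 132) (@Lb.g g9 (@Lb.g g10 (@Lb.g g11 (@Lb.r r1697 (@Lb.r r2467 (@Lb.r r578 (@Lb.d (nat_lit 0) (nat_lit 166) (nat_lit 150) (@Lb.t (@Lb.fp (nat_lit 9) t144))))))))))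
noncomputable def l4933 : Lb := (@Lb.r r82 (@Lb.r r275 (@Lb.d (nat_lit 0) (nat_lit 609) (nat_lit 0) (@Lb.g g5 (@Lb.r r1683 (@Lb.r r2722 (@Lb.d (nat_lit 0) (nat_lit 69) (nat_lit 86) (@Lb.t (@Lb.fm (nat_lit 3) t144)))))))))
noncomputable def l4934 : Lb := (@Lb.d (nat_lit 2) (nat_lit 2) (nat_lit 2) (@Lb.g g8 (@Lb.g g9 (@Lb.g g10 (@Lb.g g11 (@Lb.r r2411 (@Lb.r r386 (@Lb.r r97 (@Lb.r r24 (@Lb.d (nat_lit 256) (nat_lit 73) (nat_lit 100) (@Lb.fm (nat_lit 9) t741)))))))))))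
noncomputable def l4935 : Lb := (@Lb.d (nat_lit 0) (nat_lit 361) (nat_lit 356) (@Lb.r r146 (@Lb.r r2385 (@Lb.g g7 (@Lb.g g6 (@Lb.g g5 (@Lb.d (nat_lit 0) (nat_lit 5) (nat_lit 66) (@Lb.t (@Lb.fm (nat_lit 9) t144)))))))))
noncomputable def l4936 : Lb := (@Lb.d (nat_lit 0) (nat_lit 258) (nat_lit 128) (@Lb.g g9 (@Lb.g g11 (@Lb.r r337 (@Lb.r r299 (@Lb.r r328 (@Lb.r r134 (@Lb.d (nat_lit 16) (nat_lit 5) (nat_lit 1) (@Lb.fm (nat_lit 3) t61)))))))))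
noncomputable def l4937 : Lb := (@Lb.d (nat_lit 0) (nat_lit 0) (nat_lit 128) (@Lb.g g11 (@Lb.r r545 (@Lb.r r299 (@Lb.r r328 (@Lb.r r134 (@Lb.d (nat_lit 0) (nat_lit 10) (nat_lit 33) (@Lb.t (@Lb.fm (nat_lit 3) t40)))))))))
noncomputable def l4938 : Lb := (@Lb.r r323 (@Lb.d (nat_lit 0) (nat_lit 518) (nat_lit 1) (@Lb.g g9 (@Lb.g g10 (@Lb.r r1299 (@Lb.r r337 (@Lb.r r2722 (@Lb.d (nat_lit 0) (nat_lit 154) (nat_lit 264) (@Lb.fp (nat_lit 3) t144)))))))))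
noncomputable def l4939 : Lb := (@Lb.r r82 (@Lb.d (nat_lit 0) (nat_lit 96) (nat_lit 64) (@Lb.g g5 (@Lb.g g11 (@Lb.r r531 (@Lb.r r98 (@Lb.d (nat_lit 0) (nat_lit 162) (nat_lit 128) (@Lb.fm (nat_lit 3) t144))))))))
noncomputable def l4940 : Lb := (@Lb.d (nat_lit 0) (nat_lit 258) (nat_lit 0) (@Lb.g g9 (@Lb.g g6 (@Lb.r r97 (@Lb.d (nat_lit 0) (nat_lit 9) (nat_lit 128) (@Lb.fm (nat_lit 3) t87))))))
noncomputable def l4941 : Lb := (@Lb.d (nat_lit 662) (nat_lit 582) (nat_lit 68) (@Lb.r r146 (@Lb.r r357 (@Lb.r r24 (@Lb.r r1299 (@Lb.g g7 (@Lb.g g6 (@Lb.g g5 (@Lb.d (nat_lit 4) (nat_lit 1) (nat_lit 8) (@Lb.t (@Lb.fm (nat_lit 9) t1481)))))))))))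
noncomputable def l4942 : Lb := (@Lb.d (nat_lit 360) (nat_lit 166) (nat_lit 358) (@Lb.r r2458 (@Lb.r r2196 (@Lb.r r1113 (@Lb.r r1303 (@Lb.g g6 (@Lb.g g5 (@Lb.d (nat_lit 16) (nat_lit 1) (nat_lit 1) (@Lb.r r387 (@Lb.fp (nat_lit 3) t1481))))))))))
noncomputable def l4943 : Lb := (@Lb.d (nat_lit 2) (nat_lit 289) (nat_lit 130) (@Lb.g g8 (@Lb.g g9 (@Lb.g g10 (@Lb.g g11 (@Lb.r r1706 (@Lb.r r676 (@Lb.r r551 (@Lb.r r533 (@Lb.r r1060 (@Lb.d (nat_lit 386) (nat_lit 2) (nat_lit 586) (@Lb.fp (nat_lit 9) t74))))))))))))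
noncomputable def l4944 : Lb := (@Lb.d (nat_lit 0) (nat_lit 512) (nat_lit 130) (@Lb.g g10 (@Lb.g g11 (@Lb.r r419 (@Lb.r r386 (@Lb.d (nat_lit 0) (nat_lit 98) (nat_lit 146) (@Lb.fp (nat_lit 3) t356)))))))
noncomputable def l4945 : Lb := (@Lb.d (nat_lit 0) (nat_lit 256) (nat_lit 136) (@Lb.g g11 (@Lb.r r402 (@Lb.d (nat_lit 0) (nat_lit 64) (nat_lit 90) (@Lb.t (@Lb.fm (nat_lit 3) t1482))))))
noncomputable def l4946 : Lb := (@Lb.d (nat_lit 32) (nat_lit 256) (nat_lit 1) (@Lb.g g10 (@Lb.r r84 (@Lb.r r586 (@Lb.r r289 (@Lb.d (nat_lit 169) (nat_lit 161) (nat_lit 394) (@Lb.t (@Lb.fm (nat_lit 3) t259))))))))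
noncomputable def l4947 : Lb := (@Lb.d (nat_lit 0) (nat_lit 512) (nat_lit 9) (@Lb.g g10 (@Lb.g g7 (@Lb.r r386 (@Lb.d (nat_lit 0) (nat_lit 5) (nat_lit 10) (@Lb.fm (nat_lit 3) t45))))))
noncomputable def l4948 : Lb := (@Lb.d (nat_lit 0) (nat_lit 512) (nat_lit 130) (@Lb.g g10 (@Lb.g g11 (@Lb.r r419 (@Lb.r r386 (@Lb.d (nat_lit 0) (nat_lit 105) (nat_lit 17) (@Lb.fp (nat_lit 3) t305)))))))
noncomputable def l4949 : Lb := (@Lb.d (nat_lit 0) (nat_lit 282) (nat_lit 598) (@Lb.r r1362 (@Lb.r r2691 (@Lb.g g7 (@Lb.g g6 (@Lb.g g5 (@Lb.d (nat_lit 0) (nat_lit 0) (nat_lit 134) (@Lb.t (@Lb.fm (nat_lit 9) t661)))))))))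
noncomputable def l4950 : Lb := (@Lb.d (nat_lit 0) (nat_lit 266) (nat_lit 322) (@Lb.r r2321 (@Lb.r r2386 (@Lb.g g7 (@Lb.g g5 (@Lb.r r98 (@Lb.fm (nat_lit 3) t1483)))))))
noncomputable def l4951 : Lb := (@Lb.d (nat_lit 32) (nat_lit 512) (nat_lit 130) (@Lb.g g10 (@Lb.g g11 (@Lb.r r545 (@Lb.r r299 (@Lb.r r72 (@Lb.r r390 (@Lb.d (nat_lit 74) (nat_lit 138) (nat_lit 168) (@Lb.fp (nat_lit 3) t126)))))))))
noncomputable def l4952 : Lb := (@Lb.d (nat_lit 128) (nat_lit 32) (nat_lit 128) (@Lb.g g11 (@Lb.r r1369 (@Lb.r r1304 (@Lb.r r359 (@Lb.r r2178 (@Lb.d (nat_lit 617) (nat_lit 36) (nat_lit 649) (@Lb.t (@Lb.fp (nat_lit 3) t229)))))))))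
noncomputable def l4953 : Lb := (@Lb.d (nat_lit 128) (nat_lit 512) (nat_lit 137) (@Lb.g g10 (@Lb.g g11 (@Lb.r r260 (@Lb.r r283 (@Lb.r r161 (@Lb.r r98 (@Lb.d (nat_lit 154) (nat_lit 5) (nat_lit 170) (@Lb.fp (nat_lit 3) t39)))))))))
noncomputable def l4954 : Lb := (@Lb.d (nat_lit 0) (nat_lit 520) (nat_lit 130) (@Lb.g g10 (@Lb.g g11 (@Lb.r r387 (@Lb.r r1617 (@Lb.r r354 (@Lb.d (nat_lit 0) (nat_lit 74) (nat_lit 33) (@Lb.fm (nat_lit 3) t1484))))))))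
noncomputable def l4955 : Lb := (@Lb.d (nat_lit 1) (nat_lit 522) (nat_lit 128) (@Lb.g g8 (@Lb.g g9 (@Lb.g g11 (@Lb.r r2450 (@Lb.r r2659 (@Lb.r r2665 (@Lb.r r36 (@Lb.d (nat_lit 68) (nat_lit 1) (nat_lit 256) (@Lb.t (@Lb.fp (nat_lit 9) t564)))))))))))
noncomputable def l4956 : Lb := (@Lb.d (nat_lit 128) (nat_lit 296) (nat_lit 161) (@Lb.g g6 (@Lb.g g11 (@Lb.r r409 (@Lb.r r1304 (@Lb.r r2471 (@Lb.d (nat_lit 345) (nat_lit 102) (nat_lit 650) (@Lb.fm (nat_lit 3) t228))))))))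
noncomputable def l4957 : Lb := (@Lb.d (nat_lit 0) (nat_lit 416) (nat_lit 40) (@Lb.g g5 (@Lb.g g6 (@Lb.g g11 (@Lb.r r595 (@Lb.d (nat_lit 0) (nat_lit 102) (nat_lit 154) (@Lb.t (@Lb.fp (nat_lit 9) t1485))))))))
noncomputable def l4958 : Lb := (@Lb.d (nat_lit 32) (nat_lit 256) (nat_lit 130) (@Lb.g g9 (@Lb.g g10 (@Lb.g g11 (@Lb.r r1411 (@Lb.r r1304 (@Lb.r r1637 (@Lb.r r1426 (@Lb.d (nat_lit 10) (nat_lit 84) (nat_lit 392) (@Lb.t (@Lb.fp (nat_lit 9) t1486)))))))))))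
noncomputable def l4959 : Lb := (@Lb.d (nat_lit 32) (nat_lit 512) (nat_lit 130) (@Lb.g g9 (@Lb.g g10 (@Lb.g g11 (@Lb.r r1411 (@Lb.r r1304 (@Lb.r r1637 (@Lb.r r1426 (@Lb.d (nat_lit 1) (nat_lit 85) (nat_lit 392) (@Lb.t (@Lb.fp (nat_lit 9) t268)))))))))))
noncomputable def l4960 : Lb := (@Lb.g g9 (@Lb.d (nat_lit 0) (nat_lit 266) (nat_lit 66) (@Lb.t (@Lb.fp (nat_lit 3) t21))))
noncomputable def l4961 : Lb := (@Lb.d (nat_lit 2) (nat_lit 289) (nat_lit 66) (@Lb.g g8 (@Lb.g g9 (@Lb.g g10 (@Lb.g g11 (@Lb.r r2595 (@Lb.r r386 (@Lb.r r612 (@Lb.r r533 (@Lb.r r1060 (@Lb.d (nat_lit 640) (nat_lit 10) (nat_lit 601) (@Lb.fp (nat_lit 9) t1244))))))))))))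
noncomputable def l4962 : Lb := (@Lb.d (nat_lit 0) (nat_lit 420) (nat_lit 22) (@Lb.r r402 (@Lb.r r1617 (@Lb.g g11 (@Lb.g g6 (@Lb.g g5 (@Lb.d (nat_lit 0) (nat_lit 0) (nat_lit 128) (@Lb.t (@Lb.fp (nat_lit 9) t216)))))))))
noncomputable def l4963 : Lb := (@Lb.d (nat_lit 0) (nat_lit 2) (nat_lit 0) (@Lb.g g9 (@Lb.r r1106 (@Lb.r r145 (@Lb.d (nat_lit 0) (nat_lit 129) (nat_lit 18) (@Lb.t (@Lb.fp (nat_lit 3) t543)))))))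
noncomputable def l4964 : Lb := (@Lb.d (nat_lit 0) (nat_lit 265) (nat_lit 0) (@Lb.g g9 (@Lb.r r1106 (@Lb.r r145 (@Lb.d (nat_lit 0) (nat_lit 0) (nat_lit 146) (@Lb.t (@Lb.fp (nat_lit 3) t1487)))))))
noncomputable def l4965 : Lb := (@Lb.d (nat_lit 0) (nat_lit 521) (nat_lit 0) (@Lb.g g9 (@Lb.g g7 (@Lb.r r1106 (@Lb.r r145 (@Lb.d (nat_lit 0) (nat_lit 0) (nat_lit 18) (@Lb.fp (nat_lit 3) t1487)))))))
noncomputable def l4966 : Lb := (@Lb.d (nat_lit 4) (nat_lit 1) (nat_lit 0) (@Lb.g g5 (@Lb.r r1126 (@Lb.r r24 (@Lb.d (nat_lit 577) (nat_lit 1) (nat_lit 512) (@Lb.t (@Lb.fp (nat_lit 3) t282)))))))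
noncomputable def l4967 : Lb := (@Lb.d (nat_lit 0) (nat_lit 512) (nat_lit 72) (@Lb.g g11 (@Lb.r r402 (@Lb.r r579 (@Lb.d (nat_lit 0) (nat_lit 154) (nat_lit 265) (@Lb.t (@Lb.fp (nat_lit 3) t51)))))))
noncomputable def l4968 : Lb := (@Lb.d (nat_lit 0) (nat_lit 258) (nat_lit 0) (@Lb.g g9 (@Lb.g g10 (@Lb.r r145 (@Lb.d (nat_lit 0) (nat_lit 1) (nat_lit 2) (@Lb.fm (nat_lit 3) t97))))))
noncomputable def l4969 : Lb := (@Lb.g g10 (@Lb.g g7 (@Lb.d (nat_lit 0) (nat_lit 266) (nat_lit 2) (@Lb.fp (nat_lit 3) t21))))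
noncomputable def l4970 : Lb := (@Lb.d (nat_lit 32) (nat_lit 546) (nat_lit 66) (@Lb.g g9 (@Lb.g g10 (@Lb.g g11 (@Lb.r r1707 (@Lb.r r1689 (@Lb.r r100 (@Lb.r r410 (@Lb.d (nat_lit 392) (nat_lit 25) (nat_lit 169) (@Lb.t (@Lb.fm (nat_lit 9) t68)))))))))))
noncomputable def l4971 : Lb := (@Lb.d (nat_lit 169) (nat_lit 340) (nat_lit 66) (@Lb.r r665 (@Lb.r r596 (@Lb.r r599 (@Lb.g g6 (@Lb.g g5 (@Lb.d (nat_lit 16) (nat_lit 18) (nat_lit 1) (@Lb.r r387 (@Lb.fp (nat_lit 3) t68)))))))))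
noncomputable def l4972 : Lb := (@Lb.d (nat_lit 0) (nat_lit 9) (nat_lit 73) (@Lb.g g9 (@Lb.g g10 (@Lb.g g11 (@Lb.r r387 (@Lb.r r161 (@Lb.r r418 (@Lb.r r2193 (@Lb.d (nat_lit 0) (nat_lit 32) (nat_lit 360) (@Lb.t (@Lb.fm (nat_lit 9) t1488)))))))))))
noncomputable def l4973 : Lb := (@Lb.d (nat_lit 2) (nat_lit 552) (nat_lit 65) (@Lb.g g8 (@Lb.g g9 (@Lb.g g10 (@Lb.g g11 (@Lb.r r1706 (@Lb.r r1700 (@Lb.r r1575 (@Lb.r r1557 (@Lb.d (nat_lit 388) (nat_lit 96) (nat_lit 586) (@Lb.fp (nat_lit 9) t68)))))))))))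
noncomputable def l4974 : Lb := (@Lb.d (nat_lit 0) (nat_lit 514) (nat_lit 128) (@Lb.g g9 (@Lb.g g10 (@Lb.g g11 (@Lb.r r2727 (@Lb.r r1368 (@Lb.r r2214 (@Lb.r r37 (@Lb.d (nat_lit 514) (nat_lit 128) (nat_lit 32) (@Lb.t (@Lb.fm (nat_lit 9) t232)))))))))))
noncomputable def l4975 : Lb := (@Lb.d (nat_lit 0) (nat_lit 0) (nat_lit 128) (@Lb.g g10 (@Lb.g g11 (@Lb.r r2626 (@Lb.d (nat_lit 0) (nat_lit 90) (nat_lit 682) (@Lb.fm (nat_lit 3) t654))))))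
noncomputable def l4976 : Lb := (@Lb.g g10 (@Lb.g g7 (@Lb.fp (nat_lit 3) t2)))
noncomputable def l4977 : Lb := (@Lb.r r323 (@Lb.d (nat_lit 0) (nat_lit 264) (nat_lit 6) (@Lb.g g10 (@Lb.r r387 (@Lb.d (nat_lit 0) (nat_lit 166) (nat_lit 384) (@Lb.t (@Lb.fp (nat_lit 3) t51)))))))
noncomputable def l4978 : Lb := (@Lb.d (nat_lit 0) (nat_lit 132) (nat_lit 530) (@Lb.r r146 (@Lb.r r2385 (@Lb.g g7 (@Lb.g g6 (@Lb.g g5 (@Lb.d (nat_lit 0) (nat_lit 0) (nat_lit 1) (@Lb.t (@Lb.fm (nat_lit 9) t1489)))))))))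
noncomputable def l4979 : Lb := (@Lb.d (nat_lit 0) (nat_lit 257) (nat_lit 70) (@Lb.r r579 (@Lb.g g6 (@Lb.d (nat_lit 0) (nat_lit 4) (nat_lit 21) (@Lb.t (@Lb.fp (nat_lit 3) t45))))))
noncomputable def l4980 : Lb := (@Lb.d (nat_lit 8) (nat_lit 288) (nat_lit 2) (@Lb.g g9 (@Lb.g g10 (@Lb.r r1190 (@Lb.r r1624 (@Lb.r r1691 (@Lb.r r1381 (@Lb.d (nat_lit 341) (nat_lit 40) (nat_lit 406) (@Lb.fm (nat_lit 3) t284)))))))))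
noncomputable def l4981 : Lb := (@Lb.d (nat_lit 136) (nat_lit 0) (nat_lit 73) (@Lb.g g9 (@Lb.g g10 (@Lb.g g11 (@Lb.r r1112 (@Lb.r r2341 (@Lb.r r339 (@Lb.d (nat_lit 98) (nat_lit 22) (nat_lit 616) (@Lb.t (@Lb.fm (nat_lit 9) t229))))))))))
noncomputable def l4982 : Lb := (@Lb.r r82 (@Lb.g g9 (@Lb.r r1634 (@Lb.r r579 (@Lb.r r1425 (@Lb.d (nat_lit 0) (nat_lit 256) (nat_lit 346) (@Lb.t (@Lb.fm (nat_lit 3) t8))))))))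
noncomputable def l4983 : Lb := (@Lb.d (nat_lit 136) (nat_lit 512) (nat_lit 73) (@Lb.g g9 (@Lb.g g10 (@Lb.g g11 (@Lb.r r1112 (@Lb.r r2341 (@Lb.r r339 (@Lb.d (nat_lit 96) (nat_lit 22) (nat_lit 616) (@Lb.t (@Lb.fm (nat_lit 9) t307))))))))))
noncomputable def l4984 : Lb := (@Lb.d (nat_lit 8) (nat_lit 32) (nat_lit 2) (@Lb.g g9 (@Lb.g g10 (@Lb.r r1190 (@Lb.r r1624 (@Lb.r r1691 (@Lb.r r1381 (@Lb.d (nat_lit 342) (nat_lit 40) (nat_lit 406) (@Lb.fm (nat_lit 3) t284)))))))))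
noncomputable def l4985 : Lb := (@Lb.d (nat_lit 2) (nat_lit 2) (nat_lit 2) (@Lb.g g8 (@Lb.g g9 (@Lb.g g10 (@Lb.r r2666 (@Lb.r r579 (@Lb.r r25 (@Lb.d (nat_lit 4) (nat_lit 96) (nat_lit 586) (@Lb.t (@Lb.fp (nat_lit 9) t51))))))))))
noncomputable def l4986 : Lb := (@Lb.d (nat_lit 1) (nat_lit 258) (nat_lit 73) (@Lb.g g8 (@Lb.g g9 (@Lb.g g10 (@Lb.g g11 (@Lb.r r683 (@Lb.r r676 (@Lb.r r166 (@Lb.r r145 (@Lb.d (nat_lit 9) (nat_lit 9) (nat_lit 68) (@Lb.fp (nat_lit 9) t51)))))))))))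
noncomputable def l4987 : Lb := (@Lb.d (nat_lit 2) (nat_lit 514) (nat_lit 73) (@Lb.g g8 (@Lb.g g9 (@Lb.g g10 (@Lb.g g11 (@Lb.r r683 (@Lb.r r676 (@Lb.r r166 (@Lb.r r145 (@Lb.d (nat_lit 9) (nat_lit 9) (nat_lit 137) (@Lb.fp (nat_lit 9) t51)))))))))))
noncomputable def l4988 : Lb := (@Lb.d (nat_lit 2) (nat_lit 514) (nat_lit 73) (@Lb.g g8 (@Lb.g g9 (@Lb.g g10 (@Lb.g g11 (@Lb.r r683 (@Lb.r r676 (@Lb.r r166 (@Lb.r r145 (@Lb.d (nat_lit 9) (nat_lit 2) (nat_lit 69) (@Lb.fp (nat_lit 9) t51)))))))))))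
noncomputable def l4989 : Lb := (@Lb.d (nat_lit 0) (nat_lit 5) (nat_lit 129) (@Lb.fp (nat_lit 1) t45))
noncomputable def l4990 : Lb := (@Lb.r r82 (@Lb.d (nat_lit 0) (nat_lit 528) (nat_lit 0) (@Lb.g g8 (@Lb.g g9 (@Lb.g g11 (@Lb.r r1431 (@Lb.r r386 (@Lb.r r1109 (@Lb.r r24 (@Lb.d (nat_lit 33) (nat_lit 137) (nat_lit 17) (@Lb.t (@Lb.fm (nat_lit 9) t538))))))))))))
noncomputable def l4991 : Lb := (@Lb.d (nat_lit 320) (nat_lit 608) (nat_lit 128) (@Lb.r r289 (@Lb.r r535 (@Lb.r r328 (@Lb.r r2726 (@Lb.g g7 (@Lb.g g6 (@Lb.g g5 (@Lb.d (nat_lit 0) (nat_lit 0) (nat_lit 134) (@Lb.t (@Lb.fp (nat_lit 9) t1490)))))))))))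
noncomputable def l4992 : Lb := (@Lb.d (nat_lit 10) (nat_lit 513) (nat_lit 66) (@Lb.r r289 (@Lb.r r279 (@Lb.r r584 (@Lb.g g7 (@Lb.g g10 (@Lb.g g5 (@Lb.d (nat_lit 32) (nat_lit 5) (nat_lit 66) (@Lb.t (@Lb.fm (nat_lit 9) t985))))))))))
noncomputable def l4993 : Lb := (@Lb.r r82 (@Lb.d (nat_lit 0) (nat_lit 272) (nat_lit 0) (@Lb.g g8 (@Lb.g g9 (@Lb.g g11 (@Lb.r r1431 (@Lb.r r386 (@Lb.r r1109 (@Lb.r r24 (@Lb.d (nat_lit 34) (nat_lit 137) (nat_lit 17) (@Lb.t (@Lb.fm (nat_lit 9) t1061))))))))))))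
noncomputable def l4994 : Lb := (@Lb.d (nat_lit 0) (nat_lit 512) (nat_lit 64) (@Lb.g g8 (@Lb.g g7 (@Lb.r r289 (@Lb.r r535 (@Lb.r r328 (@Lb.r r134 (@Lb.fp (nat_lit 3) t40))))))))
noncomputable def l4995 : Lb := (@Lb.d (nat_lit 66) (nat_lit 361) (nat_lit 649) (@Lb.r r657 (@Lb.r r1427 (@Lb.r r2394 (@Lb.r r600 (@Lb.g g7 (@Lb.g g6 (@Lb.g g5 (@Lb.d (nat_lit 4) (nat_lit 0) (nat_lit 70) (@Lb.t (@Lb.fm (nat_lit 9) t1491)))))))))))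
noncomputable def l4996 : Lb := (@Lb.d (nat_lit 2) (nat_lit 258) (nat_lit 130) (@Lb.g g8 (@Lb.g g9 (@Lb.g g10 (@Lb.g g11 (@Lb.r r2666 (@Lb.r r579 (@Lb.r r25 (@Lb.d (nat_lit 4) (nat_lit 106) (nat_lit 642) (@Lb.fm (nat_lit 9) t51))))))))))
noncomputable def l4997 : Lb := (@Lb.d (nat_lit 0) (nat_lit 2) (nat_lit 9) (@Lb.g g9 (@Lb.g g10 (@Lb.g g7 (@Lb.r r386 (@Lb.r r97 (@Lb.r r36 (@Lb.d (nat_lit 10) (nat_lit 9) (nat_lit 137) (@Lb.t (@Lb.fp (nat_lit 9) t40))))))))))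
noncomputable def l4998 : Lb := (@Lb.r r82 (@Lb.d (nat_lit 0) (nat_lit 514) (nat_lit 128) (@Lb.g g8 (@Lb.g g9 (@Lb.g g11 (@Lb.r r338 (@Lb.r r387 (@Lb.r r609 (@Lb.d (nat_lit 2) (nat_lit 165) (nat_lit 132) (@Lb.t (@Lb.fp (nat_lit 9) t144)))))))))))
noncomputable def l4999 : Lb := (@Lb.r r82 (@Lb.d (nat_lit 32) (nat_lit 2) (nat_lit 128) (@Lb.g g8 (@Lb.g g9 (@Lb.g g11 (@Lb.r r363 (@Lb.r r582 (@Lb.r r408 (@Lb.d (nat_lit 150) (nat_lit 24) (nat_lit 137) (@Lb.t (@Lb.fp (nat_lit 9) t31)))))))))))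
noncomputable def l5000 : Lb := (@Lb.d (nat_lit 0) (nat_lit 2) (nat_lit 130) (@Lb.g g8 (@Lb.g g9 (@Lb.g g10 (@Lb.g g11 (@Lb.r r427 (@Lb.r r388 (@Lb.r r70 (@Lb.r r153 (@Lb.r r132 (@Lb.d (nat_lit 4) (nat_lit 2) (nat_lit 137) (@Lb.fp (nat_lit 9) t714))))))))))))
noncomputable def l5001 : Lb := (@Lb.r r82 (@Lb.d (nat_lit 32) (nat_lit 514) (nat_lit 128) (@Lb.g g8 (@Lb.g g9 (@Lb.g g11 (@Lb.r r363 (@Lb.r r582 (@Lb.r r408 (@Lb.d (nat_lit 153) (nat_lit 86) (nat_lit 153) (@Lb.t (@Lb.fp (nat_lit 9) t1492)))))))))))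
noncomputable def l5002 : Lb := (@Lb.d (nat_lit 0) (nat_lit 512) (nat_lit 64) (@Lb.g g9 (@Lb.g g11 (@Lb.r r72 (@Lb.r r582 (@Lb.r r529 (@Lb.r r132 (@Lb.d (nat_lit 10) (nat_lit 2) (nat_lit 133) (@Lb.fp (nat_lit 3) t1412)))))))))
noncomputable def l5003 : Lb := (@Lb.d (nat_lit 8) (nat_lit 514) (nat_lit 0) (@Lb.g g5 (@Lb.r r515 (@Lb.r r130 (@Lb.r r104 (@Lb.r r169 (@Lb.d (nat_lit 9) (nat_lit 2) (nat_lit 16) (@Lb.t (@Lb.fm (nat_lit 3) t319)))))))))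
noncomputable def l5004 : Lb := (@Lb.d (nat_lit 0) (nat_lit 2) (nat_lit 9) (@Lb.g g8 (@Lb.g g9 (@Lb.g g10 (@Lb.g g7 (@Lb.r r386 (@Lb.r r97 (@Lb.d (nat_lit 2) (nat_lit 138) (nat_lit 137) (@Lb.fm (nat_lit 9) t126)))))))))
noncomputable def l5005 : Lb := (@Lb.d (nat_lit 0) (nat_lit 256) (nat_lit 136) (@Lb.g g11 (@Lb.r r1617 (@Lb.r r354 (@Lb.r r1427 (@Lb.d (nat_lit 0) (nat_lit 85) (nat_lit 409) (@Lb.t (@Lb.fp (nat_lit 3) t124))))))))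
noncomputable def l5006 : Lb := (@Lb.d (nat_lit 32) (nat_lit 256) (nat_lit 130) (@Lb.g g10 (@Lb.g g11 (@Lb.r r545 (@Lb.r r299 (@Lb.r r100 (@Lb.r r410 (@Lb.d (nat_lit 129) (nat_lit 85) (nat_lit 136) (@Lb.fm (nat_lit 3) t1493)))))))))
noncomputable def l5007 : Lb := (@Lb.d (nat_lit 8) (nat_lit 512) (nat_lit 130) (@Lb.g g9 (@Lb.g g10 (@Lb.g g11 (@Lb.r r1428 (@Lb.r r1563 (@Lb.r r2402 (@Lb.r r2405 (@Lb.d (nat_lit 601) (nat_lit 102) (nat_lit 645) (@Lb.t (@Lb.fm (nat_lit 9) t1494)))))))))))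
noncomputable def l5008 : Lb := (@Lb.d (nat_lit 32) (nat_lit 512) (nat_lit 130) (@Lb.g g10 (@Lb.g g11 (@Lb.r r545 (@Lb.r r299 (@Lb.r r100 (@Lb.r r410 (@Lb.d (nat_lit 128) (nat_lit 85) (nat_lit 136) (@Lb.fm (nat_lit 3) t427)))))))))
noncomputable def l5009 : Lb := (@Lb.d (nat_lit 0) (nat_lit 512) (nat_lit 66) (@Lb.g g10 (@Lb.g g11 (@Lb.r r2401 (@Lb.r r2387 (@Lb.r r386 (@Lb.d (nat_lit 0) (nat_lit 165) (nat_lit 338) (@Lb.fm (nat_lit 3) t20))))))))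
noncomputable def l5010 : Lb := (@Lb.d (nat_lit 32) (nat_lit 0) (nat_lit 2) (@Lb.g g10 (@Lb.r r515 (@Lb.r r2132 (@Lb.r r74 (@Lb.r r1057 (@Lb.d (nat_lit 288) (nat_lit 66) (nat_lit 2) (@Lb.t (@Lb.fp (nat_lit 3) t1495)))))))))
noncomputable def l5011 : Lb := (@Lb.d (nat_lit 130) (nat_lit 265) (nat_lit 1) (@Lb.g g8 (@Lb.g g9 (@Lb.g g10 (@Lb.r r1699 (@Lb.r r1194 (@Lb.r r1553 (@Lb.r r392 (@Lb.d (nat_lit 150) (nat_lit 96) (nat_lit 586) (@Lb.t (@Lb.fp (nat_lit 9) t264)))))))))))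
noncomputable def l5012 : Lb := (@Lb.d (nat_lit 6) (nat_lit 609) (nat_lit 128) (@Lb.r r609 (@Lb.r r619 (@Lb.r r612 (@Lb.r r346 (@Lb.g g7 (@Lb.g g6 (@Lb.d (nat_lit 0) (nat_lit 0) (nat_lit 65) (@Lb.fm (nat_lit 3) t264)))))))))
noncomputable def l5013 : Lb := (@Lb.d (nat_lit 130) (nat_lit 9) (nat_lit 1) (@Lb.g g8 (@Lb.g g9 (@Lb.g g10 (@Lb.r r1699 (@Lb.r r1194 (@Lb.r r1553 (@Lb.r r392 (@Lb.d (nat_lit 152) (nat_lit 97) (nat_lit 586) (@Lb.t (@Lb.fp (nat_lit 9) t594)))))))))))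
noncomputable def l5014 : Lb := (@Lb.d (nat_lit 2) (nat_lit 265) (nat_lit 129) (@Lb.g g8 (@Lb.g g9 (@Lb.g g10 (@Lb.g g11 (@Lb.r r1706 (@Lb.r r680 (@Lb.r r555 (@Lb.r r1553 (@Lb.r r2084 (@Lb.d (nat_lit 5) (nat_lit 96) (nat_lit 586) (@Lb.fm (nat_lit 9) t264))))))))))))
noncomputable def l5015 : Lb := (@Lb.d (nat_lit 0) (nat_lit 512) (nat_lit 10) (@Lb.g g10 (@Lb.r r417 (@Lb.r r599 (@Lb.r r424 (@Lb.r r106 (@Lb.d (nat_lit 38) (nat_lit 8) (nat_lit 33) (@Lb.t (@Lb.fm (nat_lit 3) t97)))))))))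
noncomputable def l5016 : Lb := (@Lb.d (nat_lit 0) (nat_lit 0) (nat_lit 129) (@Lb.g g9 (@Lb.g g10 (@Lb.g g11 (@Lb.r r2723 (@Lb.r r2642 (@Lb.d (nat_lit 0) (nat_lit 64) (nat_lit 425) (@Lb.t (@Lb.fp (nat_lit 9) t1496)))))))))
noncomputable def l5017 : Lb := (@Lb.d (nat_lit 0) (nat_lit 0) (nat_lit 73) (@Lb.g g9 (@Lb.g g10 (@Lb.g g11 (@Lb.r r2691 (@Lb.r r2658 (@Lb.d (nat_lit 0) (nat_lit 37) (nat_lit 425) (@Lb.t (@Lb.fp (nat_lit 9) t71)))))))))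
noncomputable def l5018 : Lb := (@Lb.d (nat_lit 0) (nat_lit 513) (nat_lit 72) (@Lb.g g9 (@Lb.g g11 (@Lb.r r2370 (@Lb.r r1699 (@Lb.r r1569 (@Lb.d (nat_lit 0) (nat_lit 161) (nat_lit 418) (@Lb.fm (nat_lit 3) t1497))))))))
noncomputable def l5019 : Lb := (@Lb.r r2403 (@Lb.r r594 (@Lb.r r2449 (@Lb.d (nat_lit 0) (nat_lit 64) (nat_lit 68) (@Lb.fp (nat_lit 1) t1421)))))
noncomputable def l5020 : Lb := (@Lb.d (nat_lit 0) (nat_lit 553) (nat_lit 10) (@Lb.g g9 (@Lb.g g10 (@Lb.g g11 (@Lb.r r2723 (@Lb.r r2642 (@Lb.r r1553 (@Lb.d (nat_lit 0) (nat_lit 64) (nat_lit 617) (@Lb.t (@Lb.fp (nat_lit 9) t1498))))))))))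
noncomputable def l5021 : Lb := (@Lb.d (nat_lit 0) (nat_lit 34) (nat_lit 0) (@Lb.g g5 (@Lb.r r675 (@Lb.r r134 (@Lb.r r612 (@Lb.r r533 (@Lb.d (nat_lit 73) (nat_lit 98) (nat_lit 64) (@Lb.t (@Lb.fm (nat_lit 3) t119)))))))))
noncomputable def l5022 : Lb := (@Lb.d (nat_lit 32) (nat_lit 256) (nat_lit 130) (@Lb.g g9 (@Lb.g g10 (@Lb.g g11 (@Lb.r r2695 (@Lb.r r1352 (@Lb.r r2390 (@Lb.r r289 (@Lb.d (nat_lit 665) (nat_lit 73) (nat_lit 362) (@Lb.t (@Lb.fp (nat_lit 9) t242)))))))))))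
noncomputable def l5023 : Lb := (@Lb.d (nat_lit 0) (nat_lit 256) (nat_lit 128) (@Lb.g g11 (@Lb.r r545 (@Lb.r r299 (@Lb.r r356 (@Lb.r r154 (@Lb.d (nat_lit 8) (nat_lit 68) (nat_lit 1) (@Lb.t (@Lb.fp (nat_lit 3) t425)))))))))
noncomputable def l5024 : Lb := (@Lb.d (nat_lit 0) (nat_lit 256) (nat_lit 137) (@Lb.g g10 (@Lb.g g11 (@Lb.r r642 (@Lb.r r2707 (@Lb.r r2626 (@Lb.d (nat_lit 0) (nat_lit 17) (nat_lit 404) (@Lb.fm (nat_lit 3) t356))))))))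
noncomputable def l5025 : Lb := (@Lb.d (nat_lit 2) (nat_lit 265) (nat_lit 130) (@Lb.g g8 (@Lb.g g9 (@Lb.g g10 (@Lb.g g11 (@Lb.r r1194 (@Lb.r r424 (@Lb.r r279 (@Lb.r r1553 (@Lb.r r2084 (@Lb.d (nat_lit 2) (nat_lit 97) (nat_lit 586) (@Lb.fp (nat_lit 9) t594))))))))))))
noncomputable def l5026 : Lb := (@Lb.d (nat_lit 646) (nat_lit 657) (nat_lit 529) (@Lb.r r20 (@Lb.r r25 (@Lb.r r148 (@Lb.r r1366 (@Lb.g g7 (@Lb.g g6 (@Lb.g g5 (@Lb.g g4 (@Lb.d (nat_lit 1) (nat_lit 1) (nat_lit 134) (@Lb.fp (nat_lit 9) t1499)))))))))))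
noncomputable def l5027 : Lb := (@Lb.d (nat_lit 137) (nat_lit 545) (nat_lit 106) (@Lb.r r548 (@Lb.r r549 (@Lb.r r679 (@Lb.g g6 (@Lb.g g4 (@Lb.d (nat_lit 102) (nat_lit 0) (nat_lit 1) (@Lb.r r25 (@Lb.fm (nat_lit 3) t1074)))))))))
noncomputable def l5028 : Lb := (@Lb.r r2403 (@Lb.d (nat_lit 0) (nat_lit 257) (nat_lit 1) (@Lb.g g9 (@Lb.g g6 (@Lb.r r1121 (@Lb.d (nat_lit 0) (nat_lit 137) (nat_lit 16) (@Lb.fm (nat_lit 3) t1034)))))))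
noncomputable def l5029 : Lb := (@Lb.d (nat_lit 128) (nat_lit 544) (nat_lit 128) (@Lb.g g11 (@Lb.r r1369 (@Lb.r r1304 (@Lb.r r359 (@Lb.r r2178 (@Lb.d (nat_lit 618) (nat_lit 36) (nat_lit 649) (@Lb.t (@Lb.fp (nat_lit 3) t307)))))))))
noncomputable def l5030 : Lb := (@Lb.d (nat_lit 40) (nat_lit 258) (nat_lit 137) (@Lb.g g9 (@Lb.g g10 (@Lb.g g11 (@Lb.r r2695 (@Lb.r r1352 (@Lb.r r2390 (@Lb.r r409 (@Lb.d (nat_lit 136) (nat_lit 137) (nat_lit 329) (@Lb.t (@Lb.fm (nat_lit 9) t1097)))))))))))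
noncomputable def l5031 : Lb := (@Lb.d (nat_lit 169) (nat_lit 297) (nat_lit 101) (@Lb.r r676 (@Lb.r r677 (@Lb.r r615 (@Lb.g g6 (@Lb.g g4 (@Lb.d (nat_lit 100) (nat_lit 0) (nat_lit 1) (@Lb.r r25 (@Lb.fm (nat_lit 3) t1074)))))))))
noncomputable def l5032 : Lb := (@Lb.d (nat_lit 2) (nat_lit 258) (nat_lit 2) (@Lb.g g8 (@Lb.g g9 (@Lb.g g10 (@Lb.g g11 (@Lb.r r2691 (@Lb.r r297 (@Lb.r r360 (@Lb.r r582 (@Lb.r r2180 (@Lb.d (nat_lit 642) (nat_lit 10) (nat_lit 329) (@Lb.fm (nat_lit 9) t242))))))))))))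
noncomputable def l5033 : Lb := (@Lb.d (nat_lit 129) (nat_lit 2) (nat_lit 130) (@Lb.g g8 (@Lb.g g9 (@Lb.g g10 (@Lb.g g11 (@Lb.r r599 (@Lb.r r1706 (@Lb.r r1625 (@Lb.r r1604 (@Lb.d (nat_lit 409) (nat_lit 9) (nat_lit 290) (@Lb.fp (nat_lit 9) t394)))))))))))
noncomputable def l5034 : Lb := (@Lb.d (nat_lit 256) (nat_lit 0) (nat_lit 25) (@Lb.r r24 (@Lb.r r101 (@Lb.r r579 (@Lb.g g10 (@Lb.g g5 (@Lb.d (nat_lit 0) (nat_lit 0) (nat_lit 2) (@Lb.r r387 (@Lb.fm (nat_lit 3) t144)))))))))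
noncomputable def l5035 : Lb := (@Lb.d (nat_lit 0) (nat_lit 256) (nat_lit 70) (@Lb.r r323 (@Lb.g g7 (@Lb.g g6 (@Lb.fm (nat_lit 3) t2)))))
noncomputable def l5036 : Lb := (@Lb.d (nat_lit 385) (nat_lit 512) (nat_lit 640) (@Lb.r r24 (@Lb.r r101 (@Lb.r r2642 (@Lb.r r2435 (@Lb.g g7 (@Lb.g g6 (@Lb.d (nat_lit 0) (nat_lit 0) (nat_lit 74) (@Lb.fm (nat_lit 3) t393)))))))))
noncomputable def l5037 : Lb := (@Lb.r r275 (@Lb.d (nat_lit 0) (nat_lit 517) (nat_lit 34) (@Lb.g g9 (@Lb.g g6 (@Lb.r r2659 (@Lb.r r1125 (@Lb.r r24 (@Lb.d (nat_lit 34) (nat_lit 0) (nat_lit 16) (@Lb.fm (nat_lit 3) t458)))))))))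
noncomputable def l5038 : Lb := (@Lb.d (nat_lit 34) (nat_lit 554) (nat_lit 128) (@Lb.g g8 (@Lb.g g9 (@Lb.g g11 (@Lb.r r386 (@Lb.r r1363 (@Lb.r r2709 (@Lb.r r1128 (@Lb.d (nat_lit 293) (nat_lit 138) (nat_lit 390) (@Lb.t (@Lb.fm (nat_lit 9) t1500)))))))))))
noncomputable def l5039 : Lb := (@Lb.r r322 (@Lb.d (nat_lit 0) (nat_lit 273) (nat_lit 648) (@Lb.g g9 (@Lb.g g7 (@Lb.r r2466 (@Lb.r r417 (@Lb.d (nat_lit 0) (nat_lit 89) (nat_lit 336) (@Lb.fp (nat_lit 3) t1501))))))))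
noncomputable def l5040 : Lb := (@Lb.g g7 (@Lb.r r2690 (@Lb.r r1667 (@Lb.r r1425 (@Lb.d (nat_lit 0) (nat_lit 676) (nat_lit 426) (@Lb.t (@Lb.fm (nat_lit 3) t1466)))))))
noncomputable def l5041 : Lb := (@Lb.d (nat_lit 0) (nat_lit 548) (nat_lit 98) (@Lb.g g9 (@Lb.g g6 (@Lb.g g11 (@Lb.r r1637 (@Lb.r r2343 (@Lb.r r24 (@Lb.d (nat_lit 65) (nat_lit 0) (nat_lit 552) (@Lb.t (@Lb.fp (nat_lit 9) t458))))))))))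
noncomputable def l5042 : Lb := (@Lb.d (nat_lit 0) (nat_lit 512) (nat_lit 64) (@Lb.g g10 (@Lb.g g7 (@Lb.r r402 (@Lb.r r101 (@Lb.r r24 (@Lb.d (nat_lit 256) (nat_lit 0) (nat_lit 512) (@Lb.fm (nat_lit 3) t145))))))))
noncomputable def l5043 : Lb := (@Lb.d (nat_lit 33) (nat_lit 512) (nat_lit 662) (@Lb.r r24 (@Lb.r r1173 (@Lb.r r386 (@Lb.r r1443 (@Lb.g g7 (@Lb.g g6 (@Lb.g g5 (@Lb.d (nat_lit 0) (nat_lit 34) (nat_lit 1) (@Lb.t (@Lb.fp (nat_lit 9) t719)))))))))))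
noncomputable def l5044 : Lb := (@Lb.r r20 (@Lb.r r82 (@Lb.d (nat_lit 4) (nat_lit 586) (nat_lit 0) (@Lb.g g9 (@Lb.g g11 (@Lb.r r2454 (@Lb.r r579 (@Lb.r r8 (@Lb.d (nat_lit 384) (nat_lit 82) (nat_lit 576) (@Lb.fp (nat_lit 3) t144))))))))))
noncomputable def l5045 : Lb := (@Lb.d (nat_lit 144) (nat_lit 513) (nat_lit 102) (@Lb.r r1092 (@Lb.r r330 (@Lb.r r2579 (@Lb.g g5 (@Lb.g g4 (@Lb.d (nat_lit 18) (nat_lit 25) (nat_lit 0) (@Lb.fp (nat_lit 3) t546))))))))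
noncomputable def l5046 : Lb := (@Lb.d (nat_lit 577) (nat_lit 514) (nat_lit 640) (@Lb.r r24 (@Lb.r r2138 (@Lb.r r2587 (@Lb.g g7 (@Lb.g g9 (@Lb.d (nat_lit 8) (nat_lit 2) (nat_lit 128) (@Lb.fp (nat_lit 3) t225))))))))
noncomputable def l5047 : Lb := (@Lb.d (nat_lit 134) (nat_lit 662) (nat_lit 320) (@Lb.r r1560 (@Lb.r r97 (@Lb.r r1643 (@Lb.g g7 (@Lb.g g10 (@Lb.g g5 (@Lb.g g4 (@Lb.d (nat_lit 17) (nat_lit 8) (nat_lit 65) (@Lb.fp (nat_lit 9) t715))))))))))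
noncomputable def l5048 : Lb := (@Lb.d (nat_lit 586) (nat_lit 513) (nat_lit 389) (@Lb.r r1559 (@Lb.r r2404 (@Lb.r r1178 (@Lb.g g7 (@Lb.g g9 (@Lb.g g4 (@Lb.d (nat_lit 1) (nat_lit 1) (nat_lit 68) (@Lb.r r98 (@Lb.t (@Lb.fm (nat_lit 9) t1400)))))))))))
noncomputable def l5049 : Lb := (@Lb.r r275 (@Lb.d (nat_lit 8) (nat_lit 546) (nat_lit 2) (@Lb.g g9 (@Lb.g g10 (@Lb.r r358 (@Lb.r r660 (@Lb.r r343 (@Lb.r r1625 (@Lb.d (nat_lit 325) (nat_lit 101) (nat_lit 657) (@Lb.fm (nat_lit 3) t422))))))))))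
noncomputable def l5050 : Lb := (@Lb.d (nat_lit 70) (nat_lit 33) (nat_lit 133) (@Lb.r r597 (@Lb.r r599 (@Lb.r r264 (@Lb.r r166 (@Lb.g g7 (@Lb.g g6 (@Lb.g g5 (@Lb.d (nat_lit 68) (nat_lit 1) (nat_lit 65) (@Lb.t (@Lb.fm (nat_lit 9) t145)))))))))))
noncomputable def l5051 : Lb := (@Lb.d (nat_lit 2) (nat_lit 2) (nat_lit 130) (@Lb.g g8 (@Lb.g g9 (@Lb.g g10 (@Lb.g g11 (@Lb.r r2705 (@Lb.r r2707 (@Lb.r r132 (@Lb.r r2118 (@Lb.r r1156 (@Lb.d (nat_lit 329) (nat_lit 2) (nat_lit 162) (@Lb.fm (nat_lit 9) t1035))))))))))))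
noncomputable def l5052 : Lb := (@Lb.r r323 (@Lb.d (nat_lit 2) (nat_lit 290) (nat_lit 2) (@Lb.g g8 (@Lb.g g9 (@Lb.g g10 (@Lb.r r599 (@Lb.r r392 (@Lb.r r74 (@Lb.d (nat_lit 17) (nat_lit 2) (nat_lit 17) (@Lb.t (@Lb.fm (nat_lit 9) t221)))))))))))
noncomputable def l5053 : Lb := (@Lb.r r323 (@Lb.d (nat_lit 2) (nat_lit 546) (nat_lit 2) (@Lb.g g8 (@Lb.g g9 (@Lb.g g10 (@Lb.r r599 (@Lb.r r392 (@Lb.r r74 (@Lb.d (nat_lit 17) (nat_lit 2) (nat_lit 145) (@Lb.t (@Lb.fm (nat_lit 9) t756)))))))))))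
noncomputable def l5054 : Lb := (@Lb.d (nat_lit 536) (nat_lit 329) (nat_lit 128) (@Lb.r r82 (@Lb.r r2213 (@Lb.r r1304 (@Lb.g g11 (@Lb.g g6 (@Lb.d (nat_lit 128) (nat_lit 16) (nat_lit 385) (@Lb.fp (nat_lit 3) t664))))))))
noncomputable def l5055 : Lb := (@Lb.d (nat_lit 153) (nat_lit 513) (nat_lit 86) (@Lb.r r161 (@Lb.r r98 (@Lb.r r363 (@Lb.r r264 (@Lb.g g7 (@Lb.g g5 (@Lb.d (nat_lit 64) (nat_lit 4) (nat_lit 64) (@Lb.fm (nat_lit 3) t87)))))))))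
noncomputable def l5056 : Lb := (@Lb.r r1379 (@Lb.r r89 (@Lb.r r1126 (@Lb.r r24 (@Lb.d (nat_lit 529) (nat_lit 522) (nat_lit 2) (@Lb.fm (nat_lit 1) t862))))))
noncomputable def l5057 : Lb := (@Lb.r r82 (@Lb.d (nat_lit 2) (nat_lit 258) (nat_lit 64) (@Lb.g g8 (@Lb.g g9 (@Lb.g g7 (@Lb.r r1377 (@Lb.r r146 (@Lb.r r2120 (@Lb.d (nat_lit 290) (nat_lit 88) (nat_lit 262) (@Lb.t (@Lb.fm (nat_lit 9) t1502)))))))))))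
noncomputable def l5058 : Lb := (@Lb.d (nat_lit 2) (nat_lit 2) (nat_lit 66) (@Lb.g g8 (@Lb.g g9 (@Lb.g g10 (@Lb.g g7 (@Lb.r r386 (@Lb.r r100 (@Lb.r r21 (@Lb.r r36 (@Lb.d (nat_lit 513) (nat_lit 10) (nat_lit 41) (@Lb.fp (nat_lit 9) t126)))))))))))
noncomputable def l5059 : Lb := (@Lb.d (nat_lit 0) (nat_lit 544) (nat_lit 2) (@Lb.g g9 (@Lb.g g10 (@Lb.r r1619 (@Lb.r r1378 (@Lb.r r1381 (@Lb.r r24 (@Lb.d (nat_lit 290) (nat_lit 0) (nat_lit 534) (@Lb.fp (nat_lit 3) t468)))))))))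
noncomputable def l5060 : Lb := (@Lb.d (nat_lit 0) (nat_lit 538) (nat_lit 0) (@Lb.g g9 (@Lb.r r1543 (@Lb.r r2376 (@Lb.r r1158 (@Lb.d (nat_lit 298) (nat_lit 134) (nat_lit 0) (@Lb.t (@Lb.fm (nat_lit 3) t1503))))))))
noncomputable def l5061 : Lb := (@Lb.r r82 (@Lb.d (nat_lit 2) (nat_lit 258) (nat_lit 128) (@Lb.g g8 (@Lb.g g9 (@Lb.g g11 (@Lb.r r299 (@Lb.r r296 (@Lb.r r89 (@Lb.r r98 (@Lb.d (nat_lit 21) (nat_lit 8) (nat_lit 0) (@Lb.t (@Lb.fp (nat_lit 9) t546))))))))))))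
noncomputable def l5062 : Lb := (@Lb.d (nat_lit 134) (nat_lit 522) (nat_lit 70) (@Lb.r r584 (@Lb.r r82 (@Lb.r r347 (@Lb.g g9 (@Lb.g g4 (@Lb.d (nat_lit 65) (nat_lit 22) (nat_lit 0) (@Lb.r r98 (@Lb.fm (nat_lit 3) t1504)))))))))
noncomputable def l5063 : Lb := (@Lb.r r82 (@Lb.d (nat_lit 2) (nat_lit 514) (nat_lit 128) (@Lb.g g8 (@Lb.g g9 (@Lb.g g11 (@Lb.r r299 (@Lb.r r296 (@Lb.r r89 (@Lb.r r98 (@Lb.d (nat_lit 21) (nat_lit 8) (nat_lit 138) (@Lb.t (@Lb.fp (nat_lit 9) t546))))))))))))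
noncomputable def l5064 : Lb := (@Lb.r r323 (@Lb.d (nat_lit 2) (nat_lit 258) (nat_lit 1) (@Lb.g g8 (@Lb.g g9 (@Lb.g g6 (@Lb.r r579 (@Lb.r r100 (@Lb.r r21 (@Lb.r r36 (@Lb.d (nat_lit 513) (nat_lit 10) (nat_lit 38) (@Lb.t (@Lb.fm (nat_lit 9) t126))))))))))))
noncomputable def l5065 : Lb := (@Lb.d (nat_lit 0) (nat_lit 256) (nat_lit 138) (@Lb.g g10 (@Lb.g g11 (@Lb.r r24 (@Lb.r r101 (@Lb.d (nat_lit 0) (nat_lit 133) (nat_lit 0) (@Lb.fm (nat_lit 3) t126)))))))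
noncomputable def l5066 : Lb := (@Lb.d (nat_lit 0) (nat_lit 260) (nat_lit 1) (@Lb.g g6 (@Lb.r r101 (@Lb.d (nat_lit 1) (nat_lit 2) (nat_lit 1) (@Lb.t (@Lb.fp (nat_lit 3) t983))))))
noncomputable def l5067 : Lb := (@Lb.d (nat_lit 32) (nat_lit 512) (nat_lit 1) (@Lb.g g10 (@Lb.g g7 (@Lb.r r84 (@Lb.r r586 (@Lb.r r289 (@Lb.d (nat_lit 170) (nat_lit 161) (nat_lit 394) (@Lb.fm (nat_lit 3) t668))))))))
noncomputable def l5068 : Lb := (@Lb.d (nat_lit 0) (nat_lit 522) (nat_lit 73) (@Lb.g g5 (@Lb.g g10 (@Lb.g g11 (@Lb.r r387 (@Lb.r r402 (@Lb.d (nat_lit 0) (nat_lit 149) (nat_lit 393) (@Lb.t (@Lb.fm (nat_lit 9) t152)))))))))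
noncomputable def l5069 : Lb := (@Lb.r r82 (@Lb.d (nat_lit 34) (nat_lit 258) (nat_lit 128) (@Lb.g g8 (@Lb.g g9 (@Lb.g g11 (@Lb.r r1571 (@Lb.r r582 (@Lb.r r1177 (@Lb.r r408 (@Lb.d (nat_lit 666) (nat_lit 26) (nat_lit 330) (@Lb.t (@Lb.fm (nat_lit 9) t278))))))))))))
noncomputable def l5070 : Lb := (@Lb.d (nat_lit 88) (nat_lit 645) (nat_lit 554) (@Lb.r r1385 (@Lb.r r1316 (@Lb.r r2647 (@Lb.g g6 (@Lb.g g5 (@Lb.d (nat_lit 20) (nat_lit 10) (nat_lit 20) (@Lb.r r387 (@Lb.fm (nat_lit 3) t1505)))))))))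
noncomputable def l5071 : Lb := (@Lb.r r82 (@Lb.d (nat_lit 33) (nat_lit 257) (nat_lit 128) (@Lb.g g8 (@Lb.g g5 (@Lb.g g11 (@Lb.r r603 (@Lb.r r390 (@Lb.r r580 (@Lb.d (nat_lit 146) (nat_lit 2) (nat_lit 68) (@Lb.t (@Lb.fp (nat_lit 9) t1506)))))))))))
noncomputable def l5072 : Lb := (@Lb.r r82 (@Lb.d (nat_lit 34) (nat_lit 513) (nat_lit 128) (@Lb.g g8 (@Lb.g g5 (@Lb.g g11 (@Lb.r r603 (@Lb.r r390 (@Lb.r r580 (@Lb.d (nat_lit 146) (nat_lit 2) (nat_lit 137) (@Lb.t (@Lb.fp (nat_lit 9) t1506)))))))))))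
noncomputable def l5073 : Lb := (@Lb.d (nat_lit 32) (nat_lit 0) (nat_lit 1) (@Lb.g g10 (@Lb.g g7 (@Lb.r r84 (@Lb.r r586 (@Lb.r r289 (@Lb.d (nat_lit 169) (nat_lit 161) (nat_lit 394) (@Lb.fm (nat_lit 3) t259))))))))
noncomputable def l5074 : Lb := (@Lb.d (nat_lit 0) (nat_lit 512) (nat_lit 513) (@Lb.r r1297 (@Lb.r r579 (@Lb.g g6 (@Lb.d (nat_lit 0) (nat_lit 0) (nat_lit 5) (@Lb.t (@Lb.fp (nat_lit 3) t99)))))))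
noncomputable def l5075 : Lb := (@Lb.d (nat_lit 32) (nat_lit 512) (nat_lit 130) (@Lb.g g9 (@Lb.g g10 (@Lb.g g11 (@Lb.r r617 (@Lb.r r1443 (@Lb.r r68 (@Lb.r r394 (@Lb.d (nat_lit 657) (nat_lit 136) (nat_lit 136) (@Lb.t (@Lb.fm (nat_lit 9) t662)))))))))))
noncomputable def l5076 : Lb := (@Lb.d (nat_lit 280) (nat_lit 521) (nat_lit 32) (@Lb.fp (nat_lit 1) t1507))
noncomputable def l5077 : Lb := (@Lb.d (nat_lit 354) (nat_lit 68) (nat_lit 68) (@Lb.r r394 (@Lb.r r132 (@Lb.r r2387 (@Lb.r r617 (@Lb.g g7 (@Lb.g g6 (@Lb.g g5 (@Lb.d (nat_lit 16) (nat_lit 0) (nat_lit 8) (@Lb.t (@Lb.fp (nat_lit 9) t1508)))))))))))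
noncomputable def l5078 : Lb := (@Lb.d (nat_lit 352) (nat_lit 324) (nat_lit 68) (@Lb.r r394 (@Lb.r r132 (@Lb.r r2387 (@Lb.r r617 (@Lb.g g7 (@Lb.g g6 (@Lb.g g5 (@Lb.d (nat_lit 16) (nat_lit 0) (nat_lit 65) (@Lb.t (@Lb.fp (nat_lit 9) t588)))))))))))
noncomputable def l5079 : Lb := (@Lb.d (nat_lit 550) (nat_lit 672) (nat_lit 586) (@Lb.r r2705 (@Lb.r r1618 (@Lb.r r1687 (@Lb.r r1304 (@Lb.g g7 (@Lb.g g6 (@Lb.g g5 (@Lb.d (nat_lit 4) (nat_lit 5) (nat_lit 66) (@Lb.t (@Lb.fp (nat_lit 9) t588)))))))))))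
noncomputable def l5080 : Lb := (@Lb.d (nat_lit 261) (nat_lit 513) (nat_lit 32) (@Lb.r r37 (@Lb.r r2214 (@Lb.r r1368 (@Lb.r r2599 (@Lb.g g5 (@Lb.d (nat_lit 0) (nat_lit 1) (nat_lit 0) (@Lb.t (@Lb.fm (nat_lit 3) t1509)))))))))
noncomputable def l5081 : Lb := (@Lb.r r2194 (@Lb.r r101 (@Lb.r r1304 (@Lb.r r2663 (@Lb.d (nat_lit 0) (nat_lit 321) (nat_lit 2) (@Lb.fp (nat_lit 1) t122))))))
noncomputable def l5082 : Lb := (@Lb.d (nat_lit 401) (nat_lit 517) (nat_lit 100) (@Lb.r r390 (@Lb.r r72 (@Lb.r r279 (@Lb.r r545 (@Lb.g g7 (@Lb.g g6 (@Lb.g g5 (@Lb.d (nat_lit 16) (nat_lit 0) (nat_lit 65) (@Lb.t (@Lb.fm (nat_lit 9) t1035)))))))))))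
noncomputable def l5083 : Lb := (@Lb.r r323 (@Lb.d (nat_lit 0) (nat_lit 548) (nat_lit 0) (@Lb.g g9 (@Lb.g g10 (@Lb.r r603 (@Lb.r r600 (@Lb.r r102 (@Lb.r r2213 (@Lb.d (nat_lit 554) (nat_lit 69) (nat_lit 21) (@Lb.fp (nat_lit 3) t422))))))))))
noncomputable def l5084 : Lb := (@Lb.d (nat_lit 0) (nat_lit 5) (nat_lit 64) (@Lb.g g9 (@Lb.g g10 (@Lb.g g7 (@Lb.r r1362 (@Lb.r r1185 (@Lb.d (nat_lit 0) (nat_lit 161) (nat_lit 512) (@Lb.t (@Lb.fm (nat_lit 9) t1457)))))))))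
noncomputable def l5085 : Lb := (@Lb.r r275 (@Lb.d (nat_lit 0) (nat_lit 516) (nat_lit 0) (@Lb.g g9 (@Lb.g g10 (@Lb.r r339 (@Lb.r r386 (@Lb.r r609 (@Lb.d (nat_lit 0) (nat_lit 152) (nat_lit 394) (@Lb.fm (nat_lit 3) t1510)))))))))
noncomputable def l5086 : Lb := (@Lb.d (nat_lit 0) (nat_lit 0) (nat_lit 64) (@Lb.g g10 (@Lb.g g7 (@Lb.r r402 (@Lb.d (nat_lit 0) (nat_lit 17) (nat_lit 10) (@Lb.fm (nat_lit 3) t44))))))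
noncomputable def l5087 : Lb := (@Lb.d (nat_lit 161) (nat_lit 528) (nat_lit 128) (@Lb.r r82 (@Lb.r r149 (@Lb.r r296 (@Lb.r r643 (@Lb.g g7 (@Lb.g g6 (@Lb.g g5 (@Lb.d (nat_lit 0) (nat_lit 25) (nat_lit 5) (@Lb.t (@Lb.fp (nat_lit 9) t1120)))))))))))
noncomputable def l5088 : Lb := (@Lb.d (nat_lit 137) (nat_lit 17) (nat_lit 138) (@Lb.r r535 (@Lb.r r356 (@Lb.r r85 (@Lb.r r362 (@Lb.g g7 (@Lb.g g6 (@Lb.g g4 (@Lb.d (nat_lit 1) (nat_lit 16) (nat_lit 9) (@Lb.t (@Lb.fm (nat_lit 9) t892)))))))))))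
noncomputable def l5089 : Lb := (@Lb.d (nat_lit 138) (nat_lit 273) (nat_lit 138) (@Lb.r r535 (@Lb.r r356 (@Lb.r r85 (@Lb.r r362 (@Lb.g g7 (@Lb.g g6 (@Lb.g g4 (@Lb.d (nat_lit 1) (nat_lit 16) (nat_lit 66) (@Lb.t (@Lb.fm (nat_lit 9) t892)))))))))))
noncomputable def l5090 : Lb := (@Lb.r r323 (@Lb.d (nat_lit 0) (nat_lit 4) (nat_lit 0) (@Lb.g g9 (@Lb.g g10 (@Lb.r r1363 (@Lb.r r2210 (@Lb.r r145 (@Lb.d (nat_lit 0) (nat_lit 66) (nat_lit 81) (@Lb.fp (nat_lit 3) t118)))))))))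
noncomputable def l5091 : Lb := (@Lb.d (nat_lit 0) (nat_lit 356) (nat_lit 422) (@Lb.r r146 (@Lb.r r2385 (@Lb.g g7 (@Lb.g g6 (@Lb.g g5 (@Lb.d (nat_lit 0) (nat_lit 5) (nat_lit 66) (@Lb.t (@Lb.fm (nat_lit 9) t1511)))))))))
noncomputable def l5092 : Lb := (@Lb.r r609 (@Lb.r r363 (@Lb.r r356 (@Lb.r r154 (@Lb.d (nat_lit 266) (nat_lit 521) (nat_lit 18) (@Lb.fp (nat_lit 1) t425))))))
noncomputable def l5093 : Lb := (@Lb.r r273 (@Lb.r r322 (@Lb.d (nat_lit 128) (nat_lit 272) (nat_lit 384) (@Lb.g g11 (@Lb.r r280 (@Lb.r r101 (@Lb.r r146 (@Lb.d (nat_lit 289) (nat_lit 0) (nat_lit 162) (@Lb.t (@Lb.fm (nat_lit 3) t601))))))))))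
noncomputable def l5094 : Lb := (@Lb.d (nat_lit 0) (nat_lit 512) (nat_lit 130) (@Lb.g g10 (@Lb.g g11 (@Lb.r r1553 (@Lb.r r595 (@Lb.r r386 (@Lb.d (nat_lit 0) (nat_lit 10) (nat_lit 520) (@Lb.fm (nat_lit 3) t659))))))))
noncomputable def l5095 : Lb := (@Lb.d (nat_lit 0) (nat_lit 578) (nat_lit 130) (@Lb.g g5 (@Lb.g g10 (@Lb.g g11 (@Lb.r r299 (@Lb.r r1384 (@Lb.r r2198 (@Lb.d (nat_lit 514) (nat_lit 134) (nat_lit 33) (@Lb.t (@Lb.fp (nat_lit 9) t65))))))))))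
noncomputable def l5096 : Lb := (@Lb.r r81 (@Lb.d (nat_lit 128) (nat_lit 292) (nat_lit 130) (@Lb.g g6 (@Lb.g g11 (@Lb.r r409 (@Lb.r r404 (@Lb.r r299 (@Lb.d (nat_lit 661) (nat_lit 34) (nat_lit 145) (@Lb.fp (nat_lit 3) t217)))))))))
noncomputable def l5097 : Lb := (@Lb.r r82 (@Lb.g g9 (@Lb.g g11 (@Lb.r r2641 (@Lb.r r98 (@Lb.d (nat_lit 0) (nat_lit 90) (nat_lit 426) (@Lb.fm (nat_lit 3) t598)))))))
noncomputable def l5098 : Lb := (@Lb.r r275 (@Lb.d (nat_lit 0) (nat_lit 512) (nat_lit 2) (@Lb.g g9 (@Lb.g g10 (@Lb.r r1699 (@Lb.r r386 (@Lb.r r613 (@Lb.r r24 (@Lb.d (nat_lit 354) (nat_lit 0) (nat_lit 261) (@Lb.fm (nat_lit 3) t811))))))))))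
noncomputable def l5099 : Lb := (@Lb.d (nat_lit 0) (nat_lit 322) (nat_lit 16) (@Lb.r r154 (@Lb.r r660 (@Lb.r r407 (@Lb.g g9 (@Lb.d (nat_lit 0) (nat_lit 18) (nat_lit 0) (@Lb.t (@Lb.fm (nat_lit 3) t1219))))))))
noncomputable def l5100 : Lb := (@Lb.r r20 (@Lb.r r82 (@Lb.d (nat_lit 4) (nat_lit 97) (nat_lit 136) (@Lb.g g9 (@Lb.g g11 (@Lb.r r2454 (@Lb.r r579 (@Lb.r r8 (@Lb.d (nat_lit 522) (nat_lit 1) (nat_lit 138) (@Lb.fp (nat_lit 3) t144))))))))))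
noncomputable def l5101 : Lb := (@Lb.d (nat_lit 0) (nat_lit 0) (nat_lit 10) (@Lb.g g10 (@Lb.r r24 (@Lb.r r101 (@Lb.d (nat_lit 0) (nat_lit 133) (nat_lit 0) (@Lb.t (@Lb.fp (nat_lit 3) t126)))))))
noncomputable def l5102 : Lb := (@Lb.d (nat_lit 0) (nat_lit 256) (nat_lit 137) (@Lb.g g10 (@Lb.g g11 (@Lb.r r1379 (@Lb.r r1369 (@Lb.r r2218 (@Lb.r r24 (@Lb.d (nat_lit 536) (nat_lit 129) (nat_lit 18) (@Lb.fm (nat_lit 3) t714)))))))))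
noncomputable def l5103 : Lb := (@Lb.d (nat_lit 66) (nat_lit 256) (nat_lit 649) (@Lb.r r24 (@Lb.r r346 (@Lb.r r2213 (@Lb.r r2691 (@Lb.g g7 (@Lb.g g6 (@Lb.g g5 (@Lb.d (nat_lit 0) (nat_lit 37) (nat_lit 134) (@Lb.t (@Lb.fm (nat_lit 9) t1512)))))))))))
noncomputable def l5104 : Lb := (@Lb.d (nat_lit 352) (nat_lit 512) (nat_lit 650) (@Lb.r r24 (@Lb.r r293 (@Lb.r r1186 (@Lb.r r2691 (@Lb.g g7 (@Lb.g g6 (@Lb.g g5 (@Lb.d (nat_lit 0) (nat_lit 24) (nat_lit 8) (@Lb.t (@Lb.fp (nat_lit 9) t1513)))))))))))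
noncomputable def l5105 : Lb := (@Lb.d (nat_lit 2) (nat_lit 9) (nat_lit 129) (@Lb.g g8 (@Lb.g g9 (@Lb.g g10 (@Lb.g g11 (@Lb.r r427 (@Lb.r r106 (@Lb.r r145 (@Lb.d (nat_lit 4) (nat_lit 8) (nat_lit 137) (@Lb.fp (nat_lit 9) t264))))))))))
noncomputable def l5106 : Lb := (@Lb.g g5 (@Lb.r r322 (@Lb.r r659 (@Lb.r r578 (@Lb.d (nat_lit 0) (nat_lit 144) (nat_lit 320) (@Lb.t (@Lb.fp (nat_lit 3) t51)))))))
noncomputable def l5107 : Lb := (@Lb.r r323 (@Lb.d (nat_lit 0) (nat_lit 0) (nat_lit 2) (@Lb.g g5 (@Lb.g g10 (@Lb.r r354 (@Lb.r r387 (@Lb.d (nat_lit 0) (nat_lit 149) (nat_lit 321) (@Lb.fp (nat_lit 3) t51))))))))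
noncomputable def l5108 : Lb := (@Lb.d (nat_lit 16) (nat_lit 2) (nat_lit 128) (@Lb.g g8 (@Lb.g g9 (@Lb.g g10 (@Lb.g g11 (@Lb.r r2667 (@Lb.r r1602 (@Lb.r r145 (@Lb.r r392 (@Lb.d (nat_lit 514) (nat_lit 128) (nat_lit 666) (@Lb.fp (nat_lit 9) t394)))))))))))
noncomputable def l5109 : Lb := (@Lb.d (nat_lit 0) (nat_lit 129) (nat_lit 0) (@Lb.g g9 (@Lb.r r260 (@Lb.r r523 (@Lb.r r1154 (@Lb.r r516 (@Lb.d (nat_lit 0) (nat_lit 129) (nat_lit 69) (@Lb.t (@Lb.fp (nat_lit 3) t1514)))))))))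
noncomputable def l5110 : Lb := (@Lb.r r322 (@Lb.d (nat_lit 0) (nat_lit 2) (nat_lit 72) (@Lb.g g4 (@Lb.g g9 (@Lb.g g7 (@Lb.r r411 (@Lb.r r408 (@Lb.r r90 (@Lb.r r145 (@Lb.t (@Lb.fp (nat_lit 9) t51)))))))))))
noncomputable def l5111 : Lb := (@Lb.r r323 (@Lb.d (nat_lit 130) (nat_lit 514) (nat_lit 2) (@Lb.g g8 (@Lb.g g9 (@Lb.g g10 (@Lb.r r343 (@Lb.r r162 (@Lb.r r145 (@Lb.r r612 (@Lb.d (nat_lit 149) (nat_lit 26) (nat_lit 138) (@Lb.t (@Lb.fp (nat_lit 9) t51))))))))))))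
noncomputable def l5112 : Lb := (@Lb.d (nat_lit 16) (nat_lit 514) (nat_lit 128) (@Lb.g g8 (@Lb.g g9 (@Lb.g g10 (@Lb.g g11 (@Lb.r r2667 (@Lb.r r1602 (@Lb.r r145 (@Lb.r r392 (@Lb.d (nat_lit 512) (nat_lit 2) (nat_lit 666) (@Lb.fp (nat_lit 9) t842)))))))))))
noncomputable def l5113 : Lb := (@Lb.d (nat_lit 8) (nat_lit 521) (nat_lit 73) (@Lb.g g9 (@Lb.g g10 (@Lb.g g11 (@Lb.r r1307 (@Lb.r r2650 (@Lb.r r2452 (@Lb.r r2649 (@Lb.d (nat_lit 90) (nat_lit 166) (nat_lit 68) (@Lb.t (@Lb.fm (nat_lit 9) t1075)))))))))))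
noncomputable def l5114 : Lb := (@Lb.r r323 (@Lb.d (nat_lit 130) (nat_lit 258) (nat_lit 2) (@Lb.g g8 (@Lb.g g9 (@Lb.g g10 (@Lb.r r343 (@Lb.r r162 (@Lb.r r145 (@Lb.r r612 (@Lb.d (nat_lit 152) (nat_lit 24) (nat_lit 69) (@Lb.t (@Lb.fp (nat_lit 9) t51))))))))))))
noncomputable def l5115 : Lb := (@Lb.d (nat_lit 0) (nat_lit 264) (nat_lit 130) (@Lb.g g10 (@Lb.g g11 (@Lb.r r387 (@Lb.d (nat_lit 0) (nat_lit 9) (nat_lit 1) (@Lb.fm (nat_lit 3) t51))))))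
noncomputable def l5116 : Lb := (@Lb.d (nat_lit 0) (nat_lit 266) (nat_lit 129) (@Lb.g g9 (@Lb.g g10 (@Lb.g g11 (@Lb.r r166 (@Lb.r r584 (@Lb.r r299 (@Lb.r r289 (@Lb.d (nat_lit 10) (nat_lit 97) (nat_lit 0) (@Lb.t (@Lb.fp (nat_lit 9) t1515)))))))))))
noncomputable def l5117 : Lb := (@Lb.r r275 (@Lb.g g9 (@Lb.r r2467 (@Lb.r r2193 (@Lb.d (nat_lit 0) (nat_lit 0) (nat_lit 18) (@Lb.t (@Lb.fp (nat_lit 3) t26)))))))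
noncomputable def l5118 : Lb := (@Lb.r r1297 (@Lb.d (nat_lit 0) (nat_lit 256) (nat_lit 642) (@Lb.g g10 (@Lb.g g7 (@Lb.r r386 (@Lb.d (nat_lit 0) (nat_lit 5) (nat_lit 74) (@Lb.fm (nat_lit 3) t1516)))))))
noncomputable def l5119 : Lb := (@Lb.d (nat_lit 292) (nat_lit 578) (nat_lit 33) (@Lb.r r24 (@Lb.r r2218 (@Lb.r r2709 (@Lb.r r2451 (@Lb.g g7 (@Lb.g g6 (@Lb.d (nat_lit 0) (nat_lit 0) (nat_lit 70) (@Lb.fm (nat_lit 3) t1517)))))))))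
noncomputable def l5120 : Lb := (@Lb.d (nat_lit 0) (nat_lit 265) (nat_lit 34) (@Lb.r r154 (@Lb.r r660 (@Lb.r r407 (@Lb.g g9 (@Lb.d (nat_lit 0) (nat_lit 105) (nat_lit 0) (@Lb.t (@Lb.fm (nat_lit 3) t1518))))))))
noncomputable def l5121 : Lb := (@Lb.r r323 (@Lb.d (nat_lit 32) (nat_lit 545) (nat_lit 2) (@Lb.g g9 (@Lb.g g10 (@Lb.r r535 (@Lb.r r292 (@Lb.r r2197 (@Lb.r r2194 (@Lb.d (nat_lit 18) (nat_lit 33) (nat_lit 136) (@Lb.fm (nat_lit 3) t1519))))))))))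
noncomputable def l5122 : Lb := (@Lb.d (nat_lit 549) (nat_lit 416) (nat_lit 586) (@Lb.r r2705 (@Lb.r r1618 (@Lb.r r1687 (@Lb.r r1304 (@Lb.g g7 (@Lb.g g6 (@Lb.g g5 (@Lb.d (nat_lit 4) (nat_lit 5) (nat_lit 9) (@Lb.t (@Lb.fp (nat_lit 9) t1508)))))))))))
noncomputable def l5123 : Lb := (@Lb.d (nat_lit 260) (nat_lit 261) (nat_lit 18) (@Lb.r r82 (@Lb.r r2213 (@Lb.r r1304 (@Lb.r r2343 (@Lb.g g7 (@Lb.g g6 (@Lb.g g5 (@Lb.d (nat_lit 0) (nat_lit 0) (nat_lit 129) (@Lb.t (@Lb.fp (nat_lit 9) t1520)))))))))))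
noncomputable def l5124 : Lb := (@Lb.d (nat_lit 25) (nat_lit 66) (nat_lit 33) (@Lb.r r24 (@Lb.r r2194 (@Lb.r r1381 (@Lb.r r2707 (@Lb.g g7 (@Lb.g g6 (@Lb.d (nat_lit 0) (nat_lit 0) (nat_lit 69) (@Lb.fm (nat_lit 3) t756)))))))))
noncomputable def l5125 : Lb := (@Lb.r r323 (@Lb.d (nat_lit 0) (nat_lit 32) (nat_lit 18) (@Lb.g g9 (@Lb.g g10 (@Lb.r r603 (@Lb.r r600 (@Lb.r r293 (@Lb.d (nat_lit 74) (nat_lit 68) (nat_lit 154) (@Lb.fp (nat_lit 3) t216)))))))))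
noncomputable def l5126 : Lb := (@Lb.d (nat_lit 144) (nat_lit 256) (nat_lit 146) (@Lb.g g6 (@Lb.g g11 (@Lb.r r264 (@Lb.r r583 (@Lb.r r529 (@Lb.d (nat_lit 528) (nat_lit 5) (nat_lit 388) (@Lb.fp (nat_lit 3) t242))))))))
noncomputable def l5127 : Lb := (@Lb.d (nat_lit 609) (nat_lit 352) (nat_lit 346) (@Lb.r r2580 (@Lb.r r2178 (@Lb.r r2583 (@Lb.r r401 (@Lb.g g7 (@Lb.g g4 (@Lb.d (nat_lit 2) (nat_lit 0) (nat_lit 64) (@Lb.fm (nat_lit 3) t219)))))))))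
noncomputable def l5128 : Lb := (@Lb.d (nat_lit 294) (nat_lit 129) (nat_lit 16) (@Lb.r r2584 (@Lb.r r2178 (@Lb.r r2587 (@Lb.r r401 (@Lb.g g7 (@Lb.d (nat_lit 0) (nat_lit 0) (nat_lit 64) (@Lb.t (@Lb.fp (nat_lit 3) t219)))))))))
noncomputable def l5129 : Lb := (@Lb.d (nat_lit 292) (nat_lit 513) (nat_lit 64) (@Lb.r r2129 (@Lb.r r1158 (@Lb.r r2376 (@Lb.g g7 (@Lb.d (nat_lit 64) (nat_lit 0) (nat_lit 328) (@Lb.t (@Lb.fm (nat_lit 3) t355))))))))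
noncomputable def l5130 : Lb := (@Lb.r r1158 (@Lb.r r2376 (@Lb.r r1543 (@Lb.r r529 (@Lb.d (nat_lit 0) (nat_lit 517) (nat_lit 1) (@Lb.fm (nat_lit 1) t242))))))
noncomputable def l5131 : Lb := (@Lb.d (nat_lit 580) (nat_lit 658) (nat_lit 400) (@Lb.r r82 (@Lb.r r595 (@Lb.r r1429 (@Lb.g g5 (@Lb.g g4 (@Lb.d (nat_lit 1) (nat_lit 1) (nat_lit 0) (@Lb.r r98 (@Lb.fp (nat_lit 3) t647)))))))))
noncomputable def l5132 : Lb := (@Lb.d (nat_lit 2) (nat_lit 2) (nat_lit 130) (@Lb.g g8 (@Lb.g g9 (@Lb.g g10 (@Lb.g g11 (@Lb.r r2691 (@Lb.r r297 (@Lb.r r360 (@Lb.r r582 (@Lb.r r2180 (@Lb.d (nat_lit 641) (nat_lit 10) (nat_lit 360) (@Lb.fm (nat_lit 9) t1396))))))))))))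
noncomputable def l5133 : Lb := (@Lb.d (nat_lit 2) (nat_lit 258) (nat_lit 130) (@Lb.g g8 (@Lb.g g9 (@Lb.g g10 (@Lb.g g11 (@Lb.r r2691 (@Lb.r r297 (@Lb.r r360 (@Lb.r r582 (@Lb.r r2180 (@Lb.d (nat_lit 640) (nat_lit 10) (nat_lit 360) (@Lb.fm (nat_lit 9) t1396))))))))))))
noncomputable def l5134 : Lb := (@Lb.d (nat_lit 160) (nat_lit 512) (nat_lit 129) (@Lb.g g6 (@Lb.g g11 (@Lb.r r264 (@Lb.r r519 (@Lb.r r537 (@Lb.d (nat_lit 98) (nat_lit 164) (nat_lit 265) (@Lb.fp (nat_lit 3) t857))))))))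
noncomputable def l5135 : Lb := (@Lb.d (nat_lit 8) (nat_lit 0) (nat_lit 130) (@Lb.g g8 (@Lb.g g10 (@Lb.g g11 (@Lb.r r297 (@Lb.r r283 (@Lb.r r386 (@Lb.r r280 (@Lb.d (nat_lit 100) (nat_lit 133) (nat_lit 262) (@Lb.t (@Lb.fp (nat_lit 9) t857)))))))))))
noncomputable def l5136 : Lb := (@Lb.d (nat_lit 2) (nat_lit 33) (nat_lit 4) (@Lb.g g8 (@Lb.g g9 (@Lb.g g10 (@Lb.g g11 (@Lb.r r1706 (@Lb.r r676 (@Lb.r r423 (@Lb.r r405 (@Lb.r r1060 (@Lb.d (nat_lit 361) (nat_lit 1) (nat_lit 384) (@Lb.fm (nat_lit 9) t645))))))))))))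
noncomputable def l5137 : Lb := (@Lb.d (nat_lit 0) (nat_lit 0) (nat_lit 128) (@Lb.g g9 (@Lb.g g11 (@Lb.r r2577 (@Lb.d (nat_lit 0) (nat_lit 0) (nat_lit 256) (@Lb.fm (nat_lit 3) t121))))))
noncomputable def l5138 : Lb := (@Lb.d (nat_lit 8) (nat_lit 258) (nat_lit 0) (@Lb.g g9 (@Lb.g g7 (@Lb.r r2136 (@Lb.r r2197 (@Lb.d (nat_lit 533) (nat_lit 138) (nat_lit 69) (@Lb.fm (nat_lit 3) t453)))))))
noncomputable def l5139 : Lb := (@Lb.d (nat_lit 0) (nat_lit 256) (nat_lit 130) (@Lb.g g9 (@Lb.g g10 (@Lb.g g11 (@Lb.r r1703 (@Lb.r r2392 (@Lb.r r1190 (@Lb.r r1169 (@Lb.d (nat_lit 5) (nat_lit 72) (nat_lit 34) (@Lb.t (@Lb.fp (nat_lit 9) t51)))))))))))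
noncomputable def l5140 : Lb := (@Lb.d (nat_lit 128) (nat_lit 388) (nat_lit 64) (@Lb.g g9 (@Lb.g g11 (@Lb.r r264 (@Lb.r r1351 (@Lb.r r2178 (@Lb.d (nat_lit 97) (nat_lit 70) (nat_lit 168) (@Lb.fm (nat_lit 3) t216))))))))
noncomputable def l5141 : Lb := (@Lb.d (nat_lit 4) (nat_lit 0) (nat_lit 130) (@Lb.g g8 (@Lb.g g9 (@Lb.g g10 (@Lb.g g11 (@Lb.r r1706 (@Lb.r r680 (@Lb.r r555 (@Lb.r r1553 (@Lb.r r2084 (@Lb.d (nat_lit 10) (nat_lit 97) (nat_lit 640) (@Lb.fm (nat_lit 9) t51))))))))))))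
noncomputable def l5142 : Lb := (@Lb.d (nat_lit 0) (nat_lit 522) (nat_lit 0) (@Lb.g g9 (@Lb.g g7 (@Lb.r r2138 (@Lb.r r149 (@Lb.d (nat_lit 38) (nat_lit 10) (nat_lit 102) (@Lb.fp (nat_lit 3) t1514)))))))
noncomputable def l5143 : Lb := (@Lb.d (nat_lit 0) (nat_lit 266) (nat_lit 0) (@Lb.g g4 (@Lb.g g9 (@Lb.g g7 (@Lb.r r2138 (@Lb.r r149 (@Lb.d (nat_lit 36) (nat_lit 10) (nat_lit 102) (@Lb.t (@Lb.fm (nat_lit 9) t1514)))))))))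
noncomputable def l5144 : Lb := (@Lb.r r82 (@Lb.d (nat_lit 2) (nat_lit 528) (nat_lit 132) (@Lb.g g8 (@Lb.g g9 (@Lb.g g7 (@Lb.r r386 (@Lb.r r97 (@Lb.r r24 (@Lb.d (nat_lit 10) (nat_lit 2) (nat_lit 64) (@Lb.t (@Lb.fm (nat_lit 9) t985)))))))))))
noncomputable def l5145 : Lb := (@Lb.d (nat_lit 2) (nat_lit 513) (nat_lit 1) (@Lb.r r289 (@Lb.r r279 (@Lb.r r584 (@Lb.g g6 (@Lb.g g5 (@Lb.d (nat_lit 16) (nat_lit 0) (nat_lit 1) (@Lb.r r387 (@Lb.fm (nat_lit 3) t68)))))))))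
noncomputable def l5146 : Lb := (@Lb.d (nat_lit 8) (nat_lit 66) (nat_lit 0) (@Lb.r r289 (@Lb.r r279 (@Lb.r r584 (@Lb.r r326 (@Lb.g g7 (@Lb.g g6 (@Lb.g g5 (@Lb.d (nat_lit 0) (nat_lit 0) (nat_lit 134) (@Lb.t (@Lb.fp (nat_lit 9) t68)))))))))))
noncomputable def l5147 : Lb := (@Lb.r r82 (@Lb.d (nat_lit 2) (nat_lit 2) (nat_lit 128) (@Lb.g g8 (@Lb.g g9 (@Lb.g g11 (@Lb.r r299 (@Lb.r r153 (@Lb.r r146 (@Lb.d (nat_lit 33) (nat_lit 10) (nat_lit 136) (@Lb.t (@Lb.fp (nat_lit 9) t610)))))))))))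
noncomputable def l5148 : Lb := (@Lb.d (nat_lit 10) (nat_lit 538) (nat_lit 9) (@Lb.r r657 (@Lb.r r666 (@Lb.r r420 (@Lb.r r347 (@Lb.g g7 (@Lb.g g6 (@Lb.g g5 (@Lb.d (nat_lit 4) (nat_lit 0) (nat_lit 65) (@Lb.t (@Lb.fm (nat_lit 9) t68)))))))))))
noncomputable def l5149 : Lb := (@Lb.r r263 (@Lb.d (nat_lit 133) (nat_lit 0) (nat_lit 10) (@Lb.g g8 (@Lb.g g9 (@Lb.g g10 (@Lb.r r427 (@Lb.r r1189 (@Lb.r r1620 (@Lb.r r2650 (@Lb.d (nat_lit 41) (nat_lit 34) (nat_lit 353) (@Lb.t (@Lb.fp (nat_lit 9) t1521))))))))))))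
noncomputable def l5150 : Lb := (@Lb.d (nat_lit 4) (nat_lit 402) (nat_lit 0) (@Lb.r r289 (@Lb.r r279 (@Lb.r r584 (@Lb.r r166 (@Lb.g g7 (@Lb.g g6 (@Lb.g g5 (@Lb.d (nat_lit 0) (nat_lit 5) (nat_lit 66) (@Lb.t (@Lb.fm (nat_lit 9) t720)))))))))))
noncomputable def l5151 : Lb := (@Lb.d (nat_lit 5) (nat_lit 146) (nat_lit 0) (@Lb.r r289 (@Lb.r r279 (@Lb.r r584 (@Lb.r r166 (@Lb.g g7 (@Lb.g g6 (@Lb.g g5 (@Lb.d (nat_lit 0) (nat_lit 5) (nat_lit 66) (@Lb.t (@Lb.fm (nat_lit 9) t720)))))))))))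
noncomputable def l5152 : Lb := (@Lb.r r402 (@Lb.d (nat_lit 0) (nat_lit 64) (nat_lit 512) (@Lb.fm (nat_lit 1) t387)))
noncomputable def l5153 : Lb := (@Lb.d (nat_lit 129) (nat_lit 528) (nat_lit 2) (@Lb.g g8 (@Lb.g g9 (@Lb.g g10 (@Lb.g g11 (@Lb.r r1579 (@Lb.r r1642 (@Lb.r r1561 (@Lb.r r1636 (@Lb.d (nat_lit 417) (nat_lit 17) (nat_lit 664) (@Lb.fm (nat_lit 9) t47)))))))))))
noncomputable def l5154 : Lb := (@Lb.d (nat_lit 0) (nat_lit 0) (nat_lit 5) (@Lb.g g6 (@Lb.d (nat_lit 0) (nat_lit 100) (nat_lit 582) (@Lb.t (@Lb.fm (nat_lit 3) t1522)))))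
noncomputable def l5155 : Lb := (@Lb.d (nat_lit 32) (nat_lit 8) (nat_lit 130) (@Lb.g g10 (@Lb.g g11 (@Lb.r r324 (@Lb.r r651 (@Lb.r r357 (@Lb.r r666 (@Lb.d (nat_lit 64) (nat_lit 40) (nat_lit 9) (@Lb.fp (nat_lit 3) t167)))))))))
noncomputable def l5156 : Lb := (@Lb.r r263 (@Lb.d (nat_lit 2) (nat_lit 9) (nat_lit 1) (@Lb.g g8 (@Lb.g g9 (@Lb.g g10 (@Lb.r r676 (@Lb.r r519 (@Lb.r r386 (@Lb.r r97 (@Lb.d (nat_lit 0) (nat_lit 9) (nat_lit 68) (@Lb.t (@Lb.fp (nat_lit 9) t1107))))))))))))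
noncomputable def l5157 : Lb := (@Lb.r r21 (@Lb.d (nat_lit 33) (nat_lit 256) (nat_lit 129) (@Lb.g g8 (@Lb.g g10 (@Lb.g g11 (@Lb.r r395 (@Lb.r r418 (@Lb.r r145 (@Lb.r r24 (@Lb.d (nat_lit 74) (nat_lit 33) (nat_lit 74) (@Lb.t (@Lb.fm (nat_lit 9) t1523))))))))))))
noncomputable def l5158 : Lb := (@Lb.d (nat_lit 18) (nat_lit 257) (nat_lit 128) (@Lb.g g8 (@Lb.g g9 (@Lb.g g11 (@Lb.r r406 (@Lb.r r343 (@Lb.r r676 (@Lb.r r293 (@Lb.d (nat_lit 137) (nat_lit 4) (nat_lit 73) (@Lb.t (@Lb.fm (nat_lit 9) t424)))))))))))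
noncomputable def l5159 : Lb := (@Lb.d (nat_lit 2) (nat_lit 265) (nat_lit 129) (@Lb.g g8 (@Lb.g g9 (@Lb.g g10 (@Lb.g g11 (@Lb.r r427 (@Lb.r r386 (@Lb.r r97 (@Lb.r r24 (@Lb.d (nat_lit 74) (nat_lit 4) (nat_lit 136) (@Lb.fm (nat_lit 9) t522)))))))))))
noncomputable def l5160 : Lb := (@Lb.d (nat_lit 128) (nat_lit 0) (nat_lit 128) (@Lb.g g11 (@Lb.r r324 (@Lb.r r651 (@Lb.r r101 (@Lb.r r154 (@Lb.d (nat_lit 10) (nat_lit 26) (nat_lit 2) (@Lb.t (@Lb.fm (nat_lit 3) t39)))))))))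
noncomputable def l5161 : Lb := (@Lb.d (nat_lit 2) (nat_lit 265) (nat_lit 73) (@Lb.g g8 (@Lb.g g9 (@Lb.g g10 (@Lb.g g11 (@Lb.r r643 (@Lb.r r297 (@Lb.r r360 (@Lb.r r582 (@Lb.r r132 (@Lb.d (nat_lit 129) (nat_lit 5) (nat_lit 72) (@Lb.fm (nat_lit 9) t98))))))))))))
noncomputable def l5162 : Lb := (@Lb.d (nat_lit 9) (nat_lit 264) (nat_lit 73) (@Lb.g g8 (@Lb.g g9 (@Lb.g g10 (@Lb.g g11 (@Lb.r r643 (@Lb.r r297 (@Lb.r r360 (@Lb.r r582 (@Lb.r r132 (@Lb.d (nat_lit 129) (nat_lit 10) (nat_lit 73) (@Lb.fm (nat_lit 9) t98))))))))))))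
noncomputable def l5163 : Lb := (@Lb.r r584 (@Lb.r r86 (@Lb.r r289 (@Lb.r r132 (@Lb.d (nat_lit 0) (nat_lit 130) (nat_lit 256) (@Lb.fp (nat_lit 1) t259))))))
noncomputable def l5164 : Lb := (@Lb.g g7 (@Lb.r r584 (@Lb.r r86 (@Lb.r r289 (@Lb.r r132 (@Lb.d (nat_lit 5) (nat_lit 640) (nat_lit 256) (@Lb.t (@Lb.fm (nat_lit 3) t259))))))))
noncomputable def l5165 : Lb := (@Lb.r r82 (@Lb.d (nat_lit 2) (nat_lit 514) (nat_lit 128) (@Lb.g g8 (@Lb.g g9 (@Lb.g g11 (@Lb.r r1571 (@Lb.r r1192 (@Lb.r r1642 (@Lb.r r1633 (@Lb.d (nat_lit 610) (nat_lit 88) (nat_lit 356) (@Lb.t (@Lb.fp (nat_lit 9) t541))))))))))))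
noncomputable def l5166 : Lb := (@Lb.d (nat_lit 1) (nat_lit 512) (nat_lit 17) (@Lb.r r21 (@Lb.r r70 (@Lb.r r263 (@Lb.g g4 (@Lb.r r267 (@Lb.r r74 (@Lb.r r25 (@Lb.t (@Lb.fm (nat_lit 3) t68))))))))))
noncomputable def l5167 : Lb := (@Lb.d (nat_lit 2) (nat_lit 522) (nat_lit 0) (@Lb.g g8 (@Lb.g g9 (@Lb.r r134 (@Lb.r r328 (@Lb.r r599 (@Lb.r r417 (@Lb.d (nat_lit 0) (nat_lit 138) (nat_lit 136) (@Lb.fm (nat_lit 3) t119)))))))))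
noncomputable def l5168 : Lb := (@Lb.r r82 (@Lb.r r275 (@Lb.d (nat_lit 2) (nat_lit 330) (nat_lit 0) (@Lb.g g8 (@Lb.g g5 (@Lb.r r291 (@Lb.r r98 (@Lb.r r24 (@Lb.d (nat_lit 8) (nat_lit 132) (nat_lit 17) (@Lb.fm (nat_lit 3) t74))))))))))
noncomputable def l5169 : Lb := (@Lb.d (nat_lit 2) (nat_lit 10) (nat_lit 0) (@Lb.g g8 (@Lb.g g9 (@Lb.r r134 (@Lb.r r328 (@Lb.r r599 (@Lb.r r417 (@Lb.d (nat_lit 0) (nat_lit 138) (nat_lit 70) (@Lb.fm (nat_lit 3) t119)))))))))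
noncomputable def l5170 : Lb := (@Lb.d (nat_lit 530) (nat_lit 266) (nat_lit 16) (@Lb.r r1158 (@Lb.r r2132 (@Lb.r r2345 (@Lb.r r2707 (@Lb.g g7 (@Lb.g g6 (@Lb.g g4 (@Lb.d (nat_lit 1) (nat_lit 0) (nat_lit 64) (@Lb.t (@Lb.fm (nat_lit 9) t1524)))))))))))
noncomputable def l5171 : Lb := (@Lb.d (nat_lit 8) (nat_lit 546) (nat_lit 66) (@Lb.g g9 (@Lb.g g10 (@Lb.g g11 (@Lb.r r1702 (@Lb.r r2392 (@Lb.r r1383 (@Lb.r r1365 (@Lb.d (nat_lit 340) (nat_lit 84) (nat_lit 406) (@Lb.t (@Lb.fm (nat_lit 9) t264)))))))))))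
noncomputable def l5172 : Lb := (@Lb.d (nat_lit 512) (nat_lit 9) (nat_lit 0) (@Lb.r r597 (@Lb.r r2587 (@Lb.r r2692 (@Lb.r r2630 (@Lb.g g6 (@Lb.r r387 (@Lb.t (@Lb.fp (nat_lit 3) t1525)))))))))
noncomputable def l5173 : Lb := (@Lb.d (nat_lit 293) (nat_lit 265) (nat_lit 0) (@Lb.r r24 (@Lb.r r2194 (@Lb.r r1381 (@Lb.r r2643 (@Lb.g g7 (@Lb.g g6 (@Lb.d (nat_lit 0) (nat_lit 0) (nat_lit 133) (@Lb.fm (nat_lit 3) t1526)))))))))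
noncomputable def l5174 : Lb := (@Lb.d (nat_lit 257) (nat_lit 68) (nat_lit 17) (@Lb.r r2198 (@Lb.r r1384 (@Lb.r r279 (@Lb.g g7 (@Lb.g g6 (@Lb.g g9 (@Lb.d (nat_lit 0) (nat_lit 129) (nat_lit 65) (@Lb.t (@Lb.fm (nat_lit 9) t1527))))))))))
noncomputable def l5175 : Lb := (@Lb.r r70 (@Lb.r r263 (@Lb.d (nat_lit 2) (nat_lit 8) (nat_lit 0) (@Lb.g g4 (@Lb.g g5 (@Lb.r r1315 (@Lb.r r1122 (@Lb.r r1060 (@Lb.d (nat_lit 517) (nat_lit 130) (nat_lit 2) (@Lb.fm (nat_lit 3) t1386))))))))))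
noncomputable def l5176 : Lb := (@Lb.d (nat_lit 10) (nat_lit 256) (nat_lit 130) (@Lb.g g8 (@Lb.g g10 (@Lb.g g11 (@Lb.r r614 (@Lb.r r1623 (@Lb.r r101 (@Lb.r r1684 (@Lb.d (nat_lit 553) (nat_lit 68) (nat_lit 37) (@Lb.t (@Lb.fm (nat_lit 9) t461)))))))))))
noncomputable def l5177 : Lb := (@Lb.r r323 (@Lb.d (nat_lit 0) (nat_lit 0) (nat_lit 1) (@Lb.g g9 (@Lb.g g6 (@Lb.r r2659 (@Lb.d (nat_lit 0) (nat_lit 68) (nat_lit 86) (@Lb.fm (nat_lit 3) t591)))))))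
noncomputable def l5178 : Lb := (@Lb.r r1297 (@Lb.d (nat_lit 0) (nat_lit 512) (nat_lit 2) (@Lb.g g10 (@Lb.g g11 (@Lb.r r2690 (@Lb.r r2435 (@Lb.d (nat_lit 0) (nat_lit 80) (nat_lit 90) (@Lb.fp (nat_lit 3) t1528))))))))
noncomputable def l5179 : Lb := (@Lb.d (nat_lit 32) (nat_lit 512) (nat_lit 130) (@Lb.g g9 (@Lb.g g10 (@Lb.g g11 (@Lb.r r1411 (@Lb.r r1304 (@Lb.r r1637 (@Lb.r r1426 (@Lb.d (nat_lit 9) (nat_lit 84) (nat_lit 392) (@Lb.t (@Lb.fp (nat_lit 9) t456)))))))))))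
noncomputable def l5180 : Lb := (@Lb.d (nat_lit 32) (nat_lit 512) (nat_lit 130) (@Lb.g g9 (@Lb.g g10 (@Lb.g g11 (@Lb.r r545 (@Lb.r r299 (@Lb.r r72 (@Lb.r r390 (@Lb.d (nat_lit 610) (nat_lit 10) (nat_lit 152) (@Lb.t (@Lb.fp (nat_lit 9) t126)))))))))))
noncomputable def l5181 : Lb := (@Lb.r r323 (@Lb.d (nat_lit 0) (nat_lit 256) (nat_lit 1) (@Lb.g g9 (@Lb.g g6 (@Lb.r r2659 (@Lb.r r101 (@Lb.r r24 (@Lb.d (nat_lit 290) (nat_lit 0) (nat_lit 69) (@Lb.fm (nat_lit 3) t1529)))))))))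
noncomputable def l5182 : Lb := (@Lb.d (nat_lit 0) (nat_lit 256) (nat_lit 130) (@Lb.g g9 (@Lb.g g10 (@Lb.g g11 (@Lb.r r642 (@Lb.r r387 (@Lb.d (nat_lit 0) (nat_lit 80) (nat_lit 261) (@Lb.t (@Lb.fp (nat_lit 9) t210)))))))))
noncomputable def l5183 : Lb := (@Lb.r r1297 (@Lb.d (nat_lit 0) (nat_lit 256) (nat_lit 68) (@Lb.g g10 (@Lb.g g11 (@Lb.r r2690 (@Lb.r r1443 (@Lb.d (nat_lit 0) (nat_lit 38) (nat_lit 362) (@Lb.fp (nat_lit 3) t1530))))))))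
noncomputable def l5184 : Lb := (@Lb.d (nat_lit 2) (nat_lit 256) (nat_lit 130) (@Lb.g g8 (@Lb.g g10 (@Lb.g g11 (@Lb.r r586 (@Lb.r r2659 (@Lb.r r1304 (@Lb.r r2661 (@Lb.d (nat_lit 106) (nat_lit 130) (nat_lit 596) (@Lb.t (@Lb.fp (nat_lit 9) t461)))))))))))
noncomputable def l5185 : Lb := (@Lb.d (nat_lit 0) (nat_lit 330) (nat_lit 85) (@Lb.r r101 (@Lb.r r24 (@Lb.r r323 (@Lb.g g7 (@Lb.g g6 (@Lb.d (nat_lit 0) (nat_lit 0) (nat_lit 64) (@Lb.fm (nat_lit 3) t318))))))))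
noncomputable def l5186 : Lb := (@Lb.d (nat_lit 0) (nat_lit 8) (nat_lit 130) (@Lb.g g9 (@Lb.g g10 (@Lb.g g11 (@Lb.r r2403 (@Lb.r r418 (@Lb.r r1441 (@Lb.d (nat_lit 0) (nat_lit 34) (nat_lit 84) (@Lb.t (@Lb.fm (nat_lit 9) t875))))))))))
noncomputable def l5187 : Lb := (@Lb.r r2663 (@Lb.r r340 (@Lb.r r170 (@Lb.r r165 (@Lb.r r2068 (@Lb.d (nat_lit 36) (nat_lit 129) (nat_lit 18) (@Lb.fm (nat_lit 1) t284)))))))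
noncomputable def l5188 : Lb := (@Lb.d (nat_lit 128) (nat_lit 272) (nat_lit 386) (@Lb.g g10 (@Lb.g g11 (@Lb.r r161 (@Lb.r r1448 (@Lb.r r1130 (@Lb.d (nat_lit 25) (nat_lit 70) (nat_lit 144) (@Lb.fm (nat_lit 3) t662))))))))
noncomputable def l5189 : Lb := (@Lb.d (nat_lit 0) (nat_lit 154) (nat_lit 64) (@Lb.r r97 (@Lb.r r2583 (@Lb.r r1384 (@Lb.r r2198 (@Lb.g g5 (@Lb.d (nat_lit 0) (nat_lit 1) (nat_lit 0) (@Lb.t (@Lb.fm (nat_lit 3) t662)))))))))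
noncomputable def l5190 : Lb := (@Lb.d (nat_lit 0) (nat_lit 256) (nat_lit 130) (@Lb.g g10 (@Lb.g g11 (@Lb.r r1411 (@Lb.r r2193 (@Lb.r r1426 (@Lb.d (nat_lit 0) (nat_lit 160) (nat_lit 324) (@Lb.fp (nat_lit 3) t590))))))))
noncomputable def l5191 : Lb := (@Lb.g g9 (@Lb.g g10 (@Lb.g g7 (@Lb.r r1169 (@Lb.d (nat_lit 0) (nat_lit 266) (nat_lit 33) (@Lb.t (@Lb.fp (nat_lit 9) t126)))))))
noncomputable def l5192 : Lb := (@Lb.d (nat_lit 32) (nat_lit 290) (nat_lit 132) (@Lb.g g9 (@Lb.g g10 (@Lb.g g11 (@Lb.r r1707 (@Lb.r r1689 (@Lb.r r100 (@Lb.r r410 (@Lb.d (nat_lit 392) (nat_lit 25) (nat_lit 169) (@Lb.t (@Lb.fm (nat_lit 9) t68)))))))))))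
noncomputable def l5193 : Lb := (@Lb.r r82 (@Lb.d (nat_lit 8) (nat_lit 0) (nat_lit 64) (@Lb.g g9 (@Lb.g g7 (@Lb.r r426 (@Lb.r r532 (@Lb.r r361 (@Lb.d (nat_lit 36) (nat_lit 25) (nat_lit 6) (@Lb.fp (nat_lit 3) t720)))))))))
noncomputable def l5194 : Lb := (@Lb.d (nat_lit 130) (nat_lit 512) (nat_lit 0) (@Lb.g g8 (@Lb.r r551 (@Lb.r r402 (@Lb.r r609 (@Lb.r r104 (@Lb.d (nat_lit 38) (nat_lit 1) (nat_lit 2) (@Lb.t (@Lb.fp (nat_lit 3) t44)))))))))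
noncomputable def l5195 : Lb := (@Lb.d (nat_lit 2) (nat_lit 0) (nat_lit 128) (@Lb.g g8 (@Lb.g g11 (@Lb.r r134 (@Lb.r r584 (@Lb.r r619 (@Lb.r r609 (@Lb.d (nat_lit 8) (nat_lit 2) (nat_lit 2) (@Lb.fm (nat_lit 3) t44)))))))))
noncomputable def l5196 : Lb := (@Lb.d (nat_lit 2) (nat_lit 0) (nat_lit 0) (@Lb.g g8 (@Lb.r r134 (@Lb.r r328 (@Lb.r r407 (@Lb.r r609 (@Lb.d (nat_lit 0) (nat_lit 136) (nat_lit 1) (@Lb.t (@Lb.fm (nat_lit 3) t44)))))))))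
noncomputable def l5197 : Lb := (@Lb.d (nat_lit 2) (nat_lit 512) (nat_lit 0) (@Lb.g g8 (@Lb.r r134 (@Lb.r r328 (@Lb.r r407 (@Lb.r r609 (@Lb.d (nat_lit 0) (nat_lit 129) (nat_lit 2) (@Lb.t (@Lb.fm (nat_lit 3) t44)))))))))
noncomputable def l5198 : Lb := (@Lb.d (nat_lit 6) (nat_lit 265) (nat_lit 130) (@Lb.g g8 (@Lb.g g9 (@Lb.g g10 (@Lb.g g11 (@Lb.r r387 (@Lb.r r20 (@Lb.r r2089 (@Lb.r r36 (@Lb.d (nat_lit 518) (nat_lit 130) (nat_lit 137) (@Lb.fm (nat_lit 9) t213)))))))))))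
noncomputable def l5199 : Lb := (@Lb.r r82 (@Lb.d (nat_lit 5) (nat_lit 554) (nat_lit 64) (@Lb.g g4 (@Lb.g g9 (@Lb.g g11 (@Lb.r r615 (@Lb.r r402 (@Lb.r r601 (@Lb.d (nat_lit 133) (nat_lit 37) (nat_lit 136) (@Lb.t (@Lb.fp (nat_lit 9) t1531)))))))))))
noncomputable def l5200 : Lb := (@Lb.d (nat_lit 2) (nat_lit 553) (nat_lit 1) (@Lb.g g8 (@Lb.g g9 (@Lb.g g10 (@Lb.r r1194 (@Lb.r r2468 (@Lb.r r1307 (@Lb.r r1573 (@Lb.d (nat_lit 389) (nat_lit 16) (nat_lit 586) (@Lb.t (@Lb.fm (nat_lit 9) t428)))))))))))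
noncomputable def l5201 : Lb := (@Lb.g g8 (@Lb.d (nat_lit 2) (nat_lit 512) (nat_lit 0) (@Lb.t (@Lb.fp (nat_lit 3) t2))))
noncomputable def l5202 : Lb := (@Lb.r r280 (@Lb.r r1621 (@Lb.r r2391 (@Lb.r r2178 (@Lb.r r1572 (@Lb.d (nat_lit 0) (nat_lit 512) (nat_lit 85) (@Lb.fp (nat_lit 1) t100)))))))
noncomputable def l5203 : Lb := (@Lb.d (nat_lit 33) (nat_lit 256) (nat_lit 16) (@Lb.r r2069 (@Lb.r r2118 (@Lb.r r2311 (@Lb.g g8 (@Lb.d (nat_lit 2) (nat_lit 0) (nat_lit 0) (@Lb.t (@Lb.fp (nat_lit 3) t1532))))))))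
noncomputable def l5204 : Lb := (@Lb.d (nat_lit 8) (nat_lit 34) (nat_lit 0) (@Lb.g g9 (@Lb.r r283 (@Lb.r r2178 (@Lb.r r1368 (@Lb.r r2645 (@Lb.d (nat_lit 662) (nat_lit 168) (nat_lit 8) (@Lb.t (@Lb.fp (nat_lit 3) t124)))))))))
noncomputable def l5205 : Lb := (@Lb.r r360 (@Lb.r r2345 (@Lb.r r1367 (@Lb.r r2178 (@Lb.r r2596 (@Lb.d (nat_lit 0) (nat_lit 517) (nat_lit 1) (@Lb.fm (nat_lit 1) t296)))))))
noncomputable def l5206 : Lb := (@Lb.d (nat_lit 0) (nat_lit 512) (nat_lit 73) (@Lb.g g10 (@Lb.g g11 (@Lb.r r289 (@Lb.r r535 (@Lb.r r340 (@Lb.r r170 (@Lb.d (nat_lit 6) (nat_lit 8) (nat_lit 33) (@Lb.fp (nat_lit 3) t167)))))))))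
noncomputable def l5207 : Lb := (@Lb.d (nat_lit 136) (nat_lit 2) (nat_lit 64) (@Lb.g g9 (@Lb.g g11 (@Lb.r r24 (@Lb.r r2341 (@Lb.r r2387 (@Lb.r r2178 (@Lb.d (nat_lit 322) (nat_lit 153) (nat_lit 325) (@Lb.fp (nat_lit 3) t64)))))))))
noncomputable def l5208 : Lb := (@Lb.d (nat_lit 128) (nat_lit 32) (nat_lit 64) (@Lb.g g11 (@Lb.r r2345 (@Lb.r r2472 (@Lb.r r2455 (@Lb.r r2178 (@Lb.d (nat_lit 85) (nat_lit 85) (nat_lit 150) (@Lb.t (@Lb.fm (nat_lit 3) t229)))))))))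
noncomputable def l5209 : Lb := (@Lb.g g7 (@Lb.r r609 (@Lb.r r363 (@Lb.r r356 (@Lb.r r154 (@Lb.d (nat_lit 266) (nat_lit 258) (nat_lit 16) (@Lb.t (@Lb.fm (nat_lit 3) t425))))))))
noncomputable def l5210 : Lb := (@Lb.d (nat_lit 2) (nat_lit 1) (nat_lit 72) (@Lb.g g8 (@Lb.g g9 (@Lb.g g11 (@Lb.r r134 (@Lb.r r328 (@Lb.r r423 (@Lb.r r401 (@Lb.d (nat_lit 10) (nat_lit 37) (nat_lit 137) (@Lb.t (@Lb.fm (nat_lit 9) t71)))))))))))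
noncomputable def l5211 : Lb := (@Lb.d (nat_lit 4) (nat_lit 517) (nat_lit 8) (@Lb.r r154 (@Lb.r r404 (@Lb.r r555 (@Lb.r r545 (@Lb.g g7 (@Lb.g g4 (@Lb.d (nat_lit 5) (nat_lit 0) (nat_lit 64) (@Lb.fp (nat_lit 3) t71)))))))))
noncomputable def l5212 : Lb := (@Lb.d (nat_lit 9) (nat_lit 256) (nat_lit 72) (@Lb.g g8 (@Lb.g g9 (@Lb.g g11 (@Lb.r r134 (@Lb.r r328 (@Lb.r r423 (@Lb.r r401 (@Lb.d (nat_lit 10) (nat_lit 37) (nat_lit 137) (@Lb.t (@Lb.fm (nat_lit 9) t71)))))))))))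
noncomputable def l5213 : Lb := (@Lb.d (nat_lit 149) (nat_lit 9) (nat_lit 1) (@Lb.r r587 (@Lb.r r580 (@Lb.r r410 (@Lb.g g7 (@Lb.g g5 (@Lb.d (nat_lit 64) (nat_lit 1) (nat_lit 68) (@Lb.r r98 (@Lb.fm (nat_lit 3) t98)))))))))
noncomputable def l5214 : Lb := (@Lb.d (nat_lit 130) (nat_lit 265) (nat_lit 2) (@Lb.g g8 (@Lb.g g9 (@Lb.g g10 (@Lb.r r643 (@Lb.r r169 (@Lb.r r618 (@Lb.r r104 (@Lb.d (nat_lit 164) (nat_lit 10) (nat_lit 73) (@Lb.t (@Lb.fp (nat_lit 9) t98)))))))))))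
noncomputable def l5215 : Lb := (@Lb.d (nat_lit 0) (nat_lit 650) (nat_lit 0) (@Lb.r r146 (@Lb.r r1299 (@Lb.g g6 (@Lb.g g5 (@Lb.r r387 (@Lb.fp (nat_lit 3) t1533)))))))
noncomputable def l5216 : Lb := (@Lb.d (nat_lit 2) (nat_lit 512) (nat_lit 130) (@Lb.g g8 (@Lb.g g10 (@Lb.g g11 (@Lb.r r516 (@Lb.r r263 (@Lb.r r161 (@Lb.r r98 (@Lb.r r516 (@Lb.d (nat_lit 530) (nat_lit 6) (nat_lit 17) (@Lb.t (@Lb.fp (nat_lit 9) t420))))))))))))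
noncomputable def l5217 : Lb := (@Lb.d (nat_lit 128) (nat_lit 0) (nat_lit 130) (@Lb.g g10 (@Lb.g g11 (@Lb.r r264 (@Lb.r r519 (@Lb.r r161 (@Lb.r r98 (@Lb.d (nat_lit 658) (nat_lit 6) (nat_lit 145) (@Lb.fp (nat_lit 3) t420)))))))))
noncomputable def l5218 : Lb := (@Lb.d (nat_lit 149) (nat_lit 65) (nat_lit 424) (@Lb.r r2661 (@Lb.r r1304 (@Lb.r r2659 (@Lb.r r326 (@Lb.g g7 (@Lb.g g6 (@Lb.g g4 (@Lb.d (nat_lit 1) (nat_lit 0) (nat_lit 65) (@Lb.t (@Lb.fm (nat_lit 9) t1534)))))))))))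
noncomputable def l5219 : Lb := (@Lb.d (nat_lit 2) (nat_lit 256) (nat_lit 130) (@Lb.g g8 (@Lb.g g10 (@Lb.g g11 (@Lb.r r2601 (@Lb.r r299 (@Lb.r r2148 (@Lb.r r1434 (@Lb.d (nat_lit 346) (nat_lit 90) (nat_lit 320) (@Lb.t (@Lb.fm (nat_lit 9) t272)))))))))))
noncomputable def l5220 : Lb := (@Lb.d (nat_lit 2) (nat_lit 289) (nat_lit 130) (@Lb.g g8 (@Lb.g g9 (@Lb.g g10 (@Lb.g g11 (@Lb.r r683 (@Lb.r r1642 (@Lb.r r1561 (@Lb.d (nat_lit 586) (nat_lit 105) (nat_lit 273) (@Lb.fm (nat_lit 9) t919))))))))))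
noncomputable def l5221 : Lb := (@Lb.d (nat_lit 2) (nat_lit 8) (nat_lit 130) (@Lb.g g8 (@Lb.g g9 (@Lb.g g10 (@Lb.g g11 (@Lb.r r2475 (@Lb.r r2193 (@Lb.r r356 (@Lb.r r154 (@Lb.d (nat_lit 553) (nat_lit 10) (nat_lit 90) (@Lb.fm (nat_lit 9) t1535)))))))))))
noncomputable def l5222 : Lb := (@Lb.d (nat_lit 2) (nat_lit 513) (nat_lit 128) (@Lb.g g8 (@Lb.g g9 (@Lb.g g10 (@Lb.g g11 (@Lb.r r2475 (@Lb.r r420 (@Lb.r r1173 (@Lb.r r1174 (@Lb.r r2084 (@Lb.d (nat_lit 41) (nat_lit 161) (nat_lit 577) (@Lb.fm (nat_lit 9) t954))))))))))))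
noncomputable def l5223 : Lb := (@Lb.r r82 (@Lb.d (nat_lit 2) (nat_lit 258) (nat_lit 128) (@Lb.g g8 (@Lb.g g9 (@Lb.g g11 (@Lb.r r2475 (@Lb.r r2442 (@Lb.r r2456 (@Lb.r r101 (@Lb.d (nat_lit 9) (nat_lit 162) (nat_lit 578) (@Lb.t (@Lb.fp (nat_lit 9) t1536))))))))))))
noncomputable def l5224 : Lb := (@Lb.d (nat_lit 10) (nat_lit 264) (nat_lit 161) (@Lb.g g8 (@Lb.g g6 (@Lb.g g11 (@Lb.r r293 (@Lb.r r2587 (@Lb.r r2584 (@Lb.d (nat_lit 585) (nat_lit 2) (nat_lit 105) (@Lb.t (@Lb.fm (nat_lit 9) t1537))))))))))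
noncomputable def l5225 : Lb := (@Lb.d (nat_lit 25) (nat_lit 516) (nat_lit 128) (@Lb.g g8 (@Lb.g g9 (@Lb.g g10 (@Lb.g g11 (@Lb.r r2459 (@Lb.r r297 (@Lb.r r1384 (@Lb.r r2694 (@Lb.d (nat_lit 681) (nat_lit 69) (nat_lit 345) (@Lb.fm (nat_lit 9) t1213)))))))))))
noncomputable def l5226 : Lb := (@Lb.r r275 (@Lb.d (nat_lit 2) (nat_lit 0) (nat_lit 2) (@Lb.g g8 (@Lb.g g9 (@Lb.g g10 (@Lb.r r427 (@Lb.r r2154 (@Lb.r r2152 (@Lb.r r2073 (@Lb.d (nat_lit 265) (nat_lit 132) (nat_lit 33) (@Lb.t (@Lb.fp (nat_lit 9) t1538))))))))))))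
noncomputable def l5227 : Lb := (@Lb.r r21 (@Lb.d (nat_lit 170) (nat_lit 512) (nat_lit 64) (@Lb.g g8 (@Lb.g g11 (@Lb.r r166 (@Lb.r r2705 (@Lb.r r283 (@Lb.r r1368 (@Lb.d (nat_lit 393) (nat_lit 86) (nat_lit 388) (@Lb.fm (nat_lit 3) t164))))))))))
noncomputable def l5228 : Lb := (@Lb.d (nat_lit 298) (nat_lit 577) (nat_lit 2) (@Lb.r r168 (@Lb.r r90 (@Lb.r r1427 (@Lb.g g9 (@Lb.g g4 (@Lb.d (nat_lit 17) (nat_lit 130) (nat_lit 0) (@Lb.r r291 (@Lb.r r98 (@Lb.fm (nat_lit 3) t1539))))))))))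
noncomputable def l5229 : Lb := (@Lb.r r82 (@Lb.d (nat_lit 34) (nat_lit 2) (nat_lit 0) (@Lb.g g8 (@Lb.g g9 (@Lb.r r2723 (@Lb.r r582 (@Lb.r r2212 (@Lb.r r2661 (@Lb.d (nat_lit 153) (nat_lit 100) (nat_lit 353) (@Lb.fm (nat_lit 3) t614))))))))))
noncomputable def l5230 : Lb := (@Lb.d (nat_lit 293) (nat_lit 330) (nat_lit 1) (@Lb.r r168 (@Lb.r r90 (@Lb.r r1427 (@Lb.g g9 (@Lb.g g4 (@Lb.d (nat_lit 17) (nat_lit 130) (nat_lit 0) (@Lb.r r291 (@Lb.r r98 (@Lb.fm (nat_lit 3) t1538))))))))))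
noncomputable def l5231 : Lb := (@Lb.d (nat_lit 128) (nat_lit 32) (nat_lit 128) (@Lb.g g11 (@Lb.r r1369 (@Lb.r r1304 (@Lb.r r359 (@Lb.r r2178 (@Lb.d (nat_lit 618) (nat_lit 97) (nat_lit 665) (@Lb.t (@Lb.fp (nat_lit 3) t307)))))))))
noncomputable def l5232 : Lb := (@Lb.r r323 (@Lb.d (nat_lit 1) (nat_lit 514) (nat_lit 2) (@Lb.g g8 (@Lb.g g9 (@Lb.g g10 (@Lb.r r70 (@Lb.r r388 (@Lb.r r1323 (@Lb.r r1313 (@Lb.d (nat_lit 10) (nat_lit 70) (nat_lit 385) (@Lb.t (@Lb.fp (nat_lit 9) t119))))))))))))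
noncomputable def l5233 : Lb := (@Lb.d (nat_lit 6) (nat_lit 586) (nat_lit 16) (@Lb.fp (nat_lit 1) t21))
noncomputable def l5234 : Lb := (@Lb.d (nat_lit 130) (nat_lit 9) (nat_lit 1) (@Lb.g g8 (@Lb.g g9 (@Lb.g g10 (@Lb.r r1699 (@Lb.r r1194 (@Lb.r r1553 (@Lb.r r392 (@Lb.d (nat_lit 148) (nat_lit 96) (nat_lit 586) (@Lb.t (@Lb.fp (nat_lit 9) t264)))))))))))
noncomputable def l5235 : Lb := (@Lb.d (nat_lit 2) (nat_lit 9) (nat_lit 136) (@Lb.g g8 (@Lb.g g9 (@Lb.g g10 (@Lb.g g11 (@Lb.r r1706 (@Lb.r r676 (@Lb.r r551 (@Lb.r r1557 (@Lb.r r1060 (@Lb.d (nat_lit 649) (nat_lit 65) (nat_lit 330) (@Lb.fp (nat_lit 9) t428))))))))))))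
noncomputable def l5236 : Lb := (@Lb.d (nat_lit 2) (nat_lit 9) (nat_lit 1) (@Lb.g g8 (@Lb.g g9 (@Lb.g g10 (@Lb.g g11 (@Lb.r r1706 (@Lb.r r680 (@Lb.r r555 (@Lb.r r1553 (@Lb.r r2084 (@Lb.d (nat_lit 5) (nat_lit 96) (nat_lit 586) (@Lb.fm (nat_lit 9) t264))))))))))))
noncomputable def l5237 : Lb := (@Lb.d (nat_lit 136) (nat_lit 0) (nat_lit 128) (@Lb.g g9 (@Lb.g g11 (@Lb.r r152 (@Lb.r r1429 (@Lb.r r2723 (@Lb.r r2178 (@Lb.d (nat_lit 130) (nat_lit 152) (nat_lit 390) (@Lb.fp (nat_lit 3) t1540)))))))))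
noncomputable def l5238 : Lb := (@Lb.r r81 (@Lb.r r323 (@Lb.d (nat_lit 18) (nat_lit 8) (nat_lit 34) (@Lb.g g8 (@Lb.g g6 (@Lb.r r387 (@Lb.r r149 (@Lb.r r1060 (@Lb.d (nat_lit 24) (nat_lit 130) (nat_lit 17) (@Lb.fp (nat_lit 3) t217))))))))))
noncomputable def l5239 : Lb := (@Lb.d (nat_lit 2) (nat_lit 512) (nat_lit 0) (@Lb.g g8 (@Lb.r r134 (@Lb.r r328 (@Lb.r r407 (@Lb.r r609 (@Lb.d (nat_lit 0) (nat_lit 136) (nat_lit 70) (@Lb.t (@Lb.fm (nat_lit 3) t71)))))))))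
noncomputable def l5240 : Lb := (@Lb.r r82 (@Lb.d (nat_lit 34) (nat_lit 34) (nat_lit 64) (@Lb.g g8 (@Lb.g g9 (@Lb.g g11 (@Lb.r r674 (@Lb.r r553 (@Lb.r r616 (@Lb.r r587 (@Lb.d (nat_lit 128) (nat_lit 34) (nat_lit 136) (@Lb.t (@Lb.fm (nat_lit 9) t98))))))))))))
noncomputable def l5241 : Lb := (@Lb.d (nat_lit 2) (nat_lit 256) (nat_lit 0) (@Lb.g g8 (@Lb.r r134 (@Lb.r r328 (@Lb.r r407 (@Lb.r r609 (@Lb.d (nat_lit 0) (nat_lit 129) (nat_lit 68) (@Lb.t (@Lb.fm (nat_lit 3) t71)))))))))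
noncomputable def l5242 : Lb := (@Lb.d (nat_lit 6) (nat_lit 353) (nat_lit 0) (@Lb.r r609 (@Lb.r r619 (@Lb.r r612 (@Lb.r r346 (@Lb.g g7 (@Lb.g g6 (@Lb.d (nat_lit 0) (nat_lit 0) (nat_lit 65) (@Lb.fm (nat_lit 3) t264)))))))))
noncomputable def l5243 : Lb := (@Lb.d (nat_lit 133) (nat_lit 0) (nat_lit 0) (@Lb.g g8 (@Lb.g g9 (@Lb.r r519 (@Lb.r r146 (@Lb.r r97 (@Lb.r r292 (@Lb.d (nat_lit 74) (nat_lit 160) (nat_lit 132) (@Lb.fp (nat_lit 3) t71)))))))))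
noncomputable def l5244 : Lb := (@Lb.d (nat_lit 6) (nat_lit 257) (nat_lit 0) (@Lb.g g8 (@Lb.g g9 (@Lb.r r150 (@Lb.r r360 (@Lb.r r407 (@Lb.r r609 (@Lb.d (nat_lit 0) (nat_lit 145) (nat_lit 128) (@Lb.fp (nat_lit 3) t71)))))))))
noncomputable def l5245 : Lb := (@Lb.d (nat_lit 530) (nat_lit 388) (nat_lit 16) (@Lb.r r146 (@Lb.r r1109 (@Lb.r r1303 (@Lb.g g6 (@Lb.g g5 (@Lb.g g4 (@Lb.d (nat_lit 1) (nat_lit 6) (nat_lit 1) (@Lb.r r387 (@Lb.t (@Lb.fm (nat_lit 9) t219)))))))))))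
noncomputable def l5246 : Lb := (@Lb.d (nat_lit 0) (nat_lit 9) (nat_lit 0) (@Lb.g g9 (@Lb.r r1106 (@Lb.r r145 (@Lb.d (nat_lit 0) (nat_lit 0) (nat_lit 18) (@Lb.t (@Lb.fp (nat_lit 3) t1487)))))))
noncomputable def l5247 : Lb := (@Lb.d (nat_lit 0) (nat_lit 266) (nat_lit 66) (@Lb.g g10 (@Lb.t (@Lb.fp (nat_lit 3) t354))))
noncomputable def l5248 : Lb := (@Lb.r r82 (@Lb.d (nat_lit 0) (nat_lit 290) (nat_lit 136) (@Lb.g g9 (@Lb.g g11 (@Lb.r r1617 (@Lb.r r98 (@Lb.d (nat_lit 0) (nat_lit 152) (nat_lit 665) (@Lb.fm (nat_lit 3) t225))))))))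
noncomputable def l5249 : Lb := (@Lb.d (nat_lit 0) (nat_lit 10) (nat_lit 66) (@Lb.fp (nat_lit 1) t21))
noncomputable def l5250 : Lb := (@Lb.d (nat_lit 0) (nat_lit 0) (nat_lit 130) (@Lb.g g10 (@Lb.g g11 (@Lb.r r419 (@Lb.r r386 (@Lb.d (nat_lit 0) (nat_lit 105) (nat_lit 145) (@Lb.fp (nat_lit 3) t356)))))))
noncomputable def l5251 : Lb := (@Lb.d (nat_lit 0) (nat_lit 512) (nat_lit 66) (@Lb.g g10 (@Lb.g g7 (@Lb.r r386 (@Lb.d (nat_lit 0) (nat_lit 5) (nat_lit 138) (@Lb.fm (nat_lit 3) t45))))))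
noncomputable def l5252 : Lb := (@Lb.d (nat_lit 128) (nat_lit 512) (nat_lit 130) (@Lb.g g10 (@Lb.g g11 (@Lb.r r264 (@Lb.r r279 (@Lb.r r161 (@Lb.r r98 (@Lb.d (nat_lit 97) (nat_lit 8) (nat_lit 168) (@Lb.fm (nat_lit 3) t97)))))))))
noncomputable def l5253 : Lb := (@Lb.d (nat_lit 88) (nat_lit 89) (nat_lit 513) (@Lb.r r1433 (@Lb.r r2471 (@Lb.r r1624 (@Lb.g g6 (@Lb.g g5 (@Lb.d (nat_lit 4) (nat_lit 16) (nat_lit 34) (@Lb.fp (nat_lit 3) t1038))))))))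
noncomputable def l5254 : Lb := (@Lb.d (nat_lit 41) (nat_lit 512) (nat_lit 64) (@Lb.g g8 (@Lb.g g11 (@Lb.r r1703 (@Lb.r r614 (@Lb.r r1637 (@Lb.r r1428 (@Lb.d (nat_lit 358) (nat_lit 90) (nat_lit 408) (@Lb.fm (nat_lit 3) t386)))))))))
noncomputable def l5255 : Lb := (@Lb.d (nat_lit 41) (nat_lit 0) (nat_lit 0) (@Lb.g g8 (@Lb.g g11 (@Lb.r r1703 (@Lb.r r614 (@Lb.r r1637 (@Lb.r r1428 (@Lb.d (nat_lit 358) (nat_lit 90) (nat_lit 408) (@Lb.fm (nat_lit 3) t386)))))))))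
noncomputable def l5256 : Lb := (@Lb.d (nat_lit 42) (nat_lit 512) (nat_lit 64) (@Lb.g g8 (@Lb.g g11 (@Lb.r r1703 (@Lb.r r614 (@Lb.r r1637 (@Lb.r r1428 (@Lb.d (nat_lit 358) (nat_lit 80) (nat_lit 274) (@Lb.fm (nat_lit 3) t386)))))))))
noncomputable def l5257 : Lb := (@Lb.d (nat_lit 41) (nat_lit 0) (nat_lit 64) (@Lb.g g8 (@Lb.g g11 (@Lb.r r1703 (@Lb.r r614 (@Lb.r r1637 (@Lb.r r1428 (@Lb.d (nat_lit 358) (nat_lit 80) (nat_lit 281) (@Lb.fm (nat_lit 3) t188)))))))))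
noncomputable def l5258 : Lb := (@Lb.d (nat_lit 2) (nat_lit 265) (nat_lit 130) (@Lb.g g8 (@Lb.g g9 (@Lb.g g10 (@Lb.g g11 (@Lb.r r643 (@Lb.r r297 (@Lb.r r360 (@Lb.r r582 (@Lb.r r132 (@Lb.d (nat_lit 128) (nat_lit 5) (nat_lit 89) (@Lb.fm (nat_lit 9) t1541))))))))))))
noncomputable def l5259 : Lb := (@Lb.r r82 (@Lb.d (nat_lit 8) (nat_lit 545) (nat_lit 64) (@Lb.g g8 (@Lb.g g9 (@Lb.g g11 (@Lb.r r2466 (@Lb.r r2593 (@Lb.r r2471 (@Lb.r r1556 (@Lb.d (nat_lit 137) (nat_lit 105) (nat_lit 672) (@Lb.t (@Lb.fm (nat_lit 9) t1016))))))))))))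
noncomputable def l5260 : Lb := (@Lb.d (nat_lit 0) (nat_lit 10) (nat_lit 130) (@Lb.g g9 (@Lb.g g10 (@Lb.g g11 (@Lb.r r387 (@Lb.r r1297 (@Lb.d (nat_lit 0) (nat_lit 0) (nat_lit 521) (@Lb.t (@Lb.fm (nat_lit 9) t1542)))))))))
noncomputable def l5261 : Lb := (@Lb.d (nat_lit 0) (nat_lit 408) (nat_lit 288) (@Lb.r r81 (@Lb.r r2466 (@Lb.g g11 (@Lb.g g6 (@Lb.g g5 (@Lb.d (nat_lit 0) (nat_lit 1) (nat_lit 1) (@Lb.t (@Lb.fp (nat_lit 9) t1543)))))))))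
noncomputable def l5262 : Lb := (@Lb.d (nat_lit 2) (nat_lit 265) (nat_lit 73) (@Lb.g g8 (@Lb.g g9 (@Lb.g g10 (@Lb.g g11 (@Lb.r r643 (@Lb.r r297 (@Lb.r r360 (@Lb.r r582 (@Lb.r r132 (@Lb.d (nat_lit 128) (nat_lit 10) (nat_lit 90) (@Lb.fm (nat_lit 9) t1541))))))))))))
noncomputable def l5263 : Lb := (@Lb.d (nat_lit 146) (nat_lit 9) (nat_lit 4) (@Lb.g g8 (@Lb.g g9 (@Lb.g g10 (@Lb.g g11 (@Lb.r r683 (@Lb.r r618 (@Lb.r r1561 (@Lb.r r1540 (@Lb.d (nat_lit 394) (nat_lit 73) (nat_lit 673) (@Lb.fm (nat_lit 9) t1544)))))))))))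
noncomputable def l5264 : Lb := (@Lb.d (nat_lit 2) (nat_lit 521) (nat_lit 130) (@Lb.g g8 (@Lb.g g9 (@Lb.g g10 (@Lb.g g11 (@Lb.r r643 (@Lb.r r297 (@Lb.r r360 (@Lb.r r582 (@Lb.r r132 (@Lb.d (nat_lit 129) (nat_lit 10) (nat_lit 90) (@Lb.fm (nat_lit 9) t1541))))))))))))
noncomputable def l5265 : Lb := (@Lb.d (nat_lit 272) (nat_lit 5) (nat_lit 33) (@Lb.r r2122 (@Lb.r r2628 (@Lb.r r279 (@Lb.r r2705 (@Lb.g g6 (@Lb.g g5 (@Lb.d (nat_lit 0) (nat_lit 5) (nat_lit 2) (@Lb.r r387 (@Lb.fm (nat_lit 3) t72))))))))))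
noncomputable def l5266 : Lb := (@Lb.d (nat_lit 529) (nat_lit 522) (nat_lit 16) (@Lb.r r1158 (@Lb.r r2132 (@Lb.r r2345 (@Lb.r r2707 (@Lb.g g7 (@Lb.g g6 (@Lb.g g4 (@Lb.d (nat_lit 1) (nat_lit 0) (nat_lit 64) (@Lb.t (@Lb.fm (nat_lit 9) t1524)))))))))))
noncomputable def l5267 : Lb := (@Lb.d (nat_lit 0) (nat_lit 549) (nat_lit 294) (@Lb.r r1379 (@Lb.g g6 (@Lb.d (nat_lit 0) (nat_lit 4) (nat_lit 1) (@Lb.t (@Lb.fm (nat_lit 3) t1545))))))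
noncomputable def l5268 : Lb := (@Lb.d (nat_lit 0) (nat_lit 2) (nat_lit 130) (@Lb.g g9 (@Lb.g g10 (@Lb.g g11 (@Lb.r r1443 (@Lb.r r1173 (@Lb.r r2148 (@Lb.r r1098 (@Lb.d (nat_lit 545) (nat_lit 80) (nat_lit 421) (@Lb.t (@Lb.fm (nat_lit 9) t1546)))))))))))
noncomputable def l5269 : Lb := (@Lb.d (nat_lit 0) (nat_lit 2) (nat_lit 130) (@Lb.g g9 (@Lb.g g10 (@Lb.g g11 (@Lb.r r1443 (@Lb.r r1173 (@Lb.r r2148 (@Lb.r r1098 (@Lb.d (nat_lit 272) (nat_lit 80) (nat_lit 388) (@Lb.t (@Lb.fm (nat_lit 9) t1546)))))))))))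
noncomputable def l5270 : Lb := (@Lb.r r81 (@Lb.d (nat_lit 10) (nat_lit 512) (nat_lit 17) (@Lb.g g8 (@Lb.g g6 (@Lb.g g7 (@Lb.r r149 (@Lb.r r104 (@Lb.d (nat_lit 518) (nat_lit 10) (nat_lit 69) (@Lb.t (@Lb.fp (nat_lit 9) t1547))))))))))
noncomputable def l5271 : Lb := (@Lb.d (nat_lit 33) (nat_lit 514) (nat_lit 129) (@Lb.g g8 (@Lb.g g9 (@Lb.g g6 (@Lb.g g11 (@Lb.r r612 (@Lb.r r263 (@Lb.r r97 (@Lb.r r516 (@Lb.d (nat_lit 2) (nat_lit 41) (nat_lit 128) (@Lb.fp (nat_lit 9) t622)))))))))))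
noncomputable def l5272 : Lb := (@Lb.d (nat_lit 40) (nat_lit 258) (nat_lit 129) (@Lb.g g9 (@Lb.g g6 (@Lb.g g11 (@Lb.r r404 (@Lb.r r299 (@Lb.r r409 (@Lb.d (nat_lit 10) (nat_lit 90) (nat_lit 357) (@Lb.t (@Lb.fp (nat_lit 9) t670))))))))))
noncomputable def l5273 : Lb := (@Lb.d (nat_lit 40) (nat_lit 272) (nat_lit 136) (@Lb.g g9 (@Lb.g g6 (@Lb.g g11 (@Lb.r r404 (@Lb.r r299 (@Lb.r r2457 (@Lb.d (nat_lit 266) (nat_lit 149) (nat_lit 84) (@Lb.t (@Lb.fp (nat_lit 9) t1548))))))))))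
noncomputable def l5274 : Lb := (@Lb.r r275 (@Lb.d (nat_lit 40) (nat_lit 546) (nat_lit 1) (@Lb.g g9 (@Lb.g g6 (@Lb.r r660 (@Lb.r r535 (@Lb.r r1385 (@Lb.d (nat_lit 534) (nat_lit 165) (nat_lit 592) (@Lb.fp (nat_lit 3) t1548)))))))))
noncomputable def l5275 : Lb := (@Lb.d (nat_lit 344) (nat_lit 362) (nat_lit 84) (@Lb.r r410 (@Lb.r r148 (@Lb.r r1365 (@Lb.r r2371 (@Lb.g g7 (@Lb.g g6 (@Lb.g g5 (@Lb.d (nat_lit 16) (nat_lit 0) (nat_lit 129) (@Lb.t (@Lb.fm (nat_lit 9) t1549)))))))))))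
noncomputable def l5276 : Lb := (@Lb.d (nat_lit 512) (nat_lit 512) (nat_lit 384) (@Lb.r r24 (@Lb.r r101 (@Lb.r r402 (@Lb.g g11 (@Lb.t (@Lb.fm (nat_lit 3) t150)))))))
noncomputable def l5277 : Lb := (@Lb.r r21 (@Lb.r r70 (@Lb.r r263 (@Lb.d (nat_lit 65) (nat_lit 512) (nat_lit 0) (@Lb.g g4 (@Lb.r r2631 (@Lb.r r402 (@Lb.r r97 (@Lb.d (nat_lit 8) (nat_lit 65) (nat_lit 0) (@Lb.t (@Lb.fp (nat_lit 3) t512)))))))))))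
noncomputable def l5278 : Lb := (@Lb.d (nat_lit 38) (nat_lit 649) (nat_lit 96) (@Lb.r r2134 (@Lb.r r1448 (@Lb.r r161 (@Lb.g g7 (@Lb.g g6 (@Lb.d (nat_lit 64) (nat_lit 32) (nat_lit 577) (@Lb.fm (nat_lit 3) t1550))))))))
noncomputable def l5279 : Lb := (@Lb.d (nat_lit 0) (nat_lit 2) (nat_lit 0) (@Lb.g g9 (@Lb.r r2198 (@Lb.r r1384 (@Lb.r r2583 (@Lb.r r97 (@Lb.d (nat_lit 0) (nat_lit 101) (nat_lit 5) (@Lb.t (@Lb.fp (nat_lit 3) t122)))))))))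
noncomputable def l5280 : Lb := (@Lb.d (nat_lit 400) (nat_lit 257) (nat_lit 102) (@Lb.r r165 (@Lb.r r390 (@Lb.r r72 (@Lb.r r295 (@Lb.g g6 (@Lb.g g5 (@Lb.d (nat_lit 16) (nat_lit 16) (nat_lit 1) (@Lb.fp (nat_lit 3) t1035)))))))))
noncomputable def l5281 : Lb := (@Lb.d (nat_lit 408) (nat_lit 260) (nat_lit 100) (@Lb.r r390 (@Lb.r r72 (@Lb.r r279 (@Lb.r r545 (@Lb.g g7 (@Lb.g g6 (@Lb.g g5 (@Lb.d (nat_lit 16) (nat_lit 0) (nat_lit 1) (@Lb.t (@Lb.fm (nat_lit 9) t1035)))))))))))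
noncomputable def l5282 : Lb := (@Lb.r r323 (@Lb.d (nat_lit 130) (nat_lit 546) (nat_lit 2) (@Lb.g g8 (@Lb.g g9 (@Lb.g g10 (@Lb.r r263 (@Lb.r r358 (@Lb.r r536 (@Lb.d (nat_lit 88) (nat_lit 33) (nat_lit 129) (@Lb.t (@Lb.fp (nat_lit 9) t145)))))))))))
noncomputable def l5283 : Lb := (@Lb.d (nat_lit 0) (nat_lit 512) (nat_lit 136) (@Lb.g g11 (@Lb.r r101 (@Lb.r r24 (@Lb.d (nat_lit 514) (nat_lit 0) (nat_lit 90) (@Lb.t (@Lb.fp (nat_lit 3) t319)))))))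
noncomputable def l5284 : Lb := (@Lb.d (nat_lit 614) (nat_lit 641) (nat_lit 426) (@Lb.r r2436 (@Lb.r r2453 (@Lb.r r1707 (@Lb.g g7 (@Lb.g g10 (@Lb.g g5 (@Lb.g g4 (@Lb.d (nat_lit 16) (nat_lit 1) (nat_lit 66) (@Lb.fp (nat_lit 9) t694))))))))))
noncomputable def l5285 : Lb := (@Lb.r r82 (@Lb.d (nat_lit 2) (nat_lit 514) (nat_lit 0) (@Lb.g g8 (@Lb.g g9 (@Lb.g g11 (@Lb.r r1561 (@Lb.r r595 (@Lb.r r386 (@Lb.d (nat_lit 545) (nat_lit 0) (nat_lit 18) (@Lb.t (@Lb.fm (nat_lit 9) t355)))))))))))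
noncomputable def l5286 : Lb := (@Lb.d (nat_lit 2) (nat_lit 512) (nat_lit 130) (@Lb.g g8 (@Lb.g g10 (@Lb.g g11 (@Lb.r r516 (@Lb.r r263 (@Lb.r r161 (@Lb.r r98 (@Lb.r r516 (@Lb.d (nat_lit 1) (nat_lit 6) (nat_lit 0) (@Lb.t (@Lb.fp (nat_lit 9) t97))))))))))))
noncomputable def l5287 : Lb := (@Lb.d (nat_lit 128) (nat_lit 0) (nat_lit 130) (@Lb.g g10 (@Lb.g g11 (@Lb.r r264 (@Lb.r r519 (@Lb.r r161 (@Lb.r r98 (@Lb.d (nat_lit 129) (nat_lit 6) (nat_lit 128) (@Lb.fp (nat_lit 3) t97)))))))))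
noncomputable def l5288 : Lb := (@Lb.d (nat_lit 32) (nat_lit 256) (nat_lit 66) (@Lb.g g10 (@Lb.g g7 (@Lb.r r596 (@Lb.r r74 (@Lb.r r289 (@Lb.d (nat_lit 106) (nat_lit 161) (nat_lit 258) (@Lb.fm (nat_lit 3) t668))))))))
noncomputable def l5289 : Lb := (@Lb.d (nat_lit 24) (nat_lit 258) (nat_lit 136) (@Lb.r r104 (@Lb.r r609 (@Lb.r r402 (@Lb.r r551 (@Lb.g g4 (@Lb.d (nat_lit 65) (nat_lit 0) (nat_lit 0) (@Lb.t (@Lb.fm (nat_lit 3) t167)))))))))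
noncomputable def l5290 : Lb := (@Lb.d (nat_lit 8) (nat_lit 520) (nat_lit 130) (@Lb.g g8 (@Lb.g g10 (@Lb.g g11 (@Lb.r r545 (@Lb.r r299 (@Lb.r r356 (@Lb.r r154 (@Lb.d (nat_lit 10) (nat_lit 10) (nat_lit 74) (@Lb.t (@Lb.fm (nat_lit 9) t167)))))))))))
noncomputable def l5291 : Lb := (@Lb.d (nat_lit 0) (nat_lit 8) (nat_lit 130) (@Lb.g g10 (@Lb.g g11 (@Lb.r r387 (@Lb.r r24 (@Lb.r r101 (@Lb.d (nat_lit 26) (nat_lit 149) (nat_lit 390) (@Lb.fm (nat_lit 3) t446))))))))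
noncomputable def l5292 : Lb := (@Lb.d (nat_lit 0) (nat_lit 256) (nat_lit 130) (@Lb.g g10 (@Lb.g g11 (@Lb.r r419 (@Lb.r r386 (@Lb.r r101 (@Lb.d (nat_lit 148) (nat_lit 26) (nat_lit 132) (@Lb.fm (nat_lit 3) t1113))))))))
noncomputable def l5293 : Lb := (@Lb.d (nat_lit 9) (nat_lit 520) (nat_lit 161) (@Lb.g g8 (@Lb.g g6 (@Lb.g g11 (@Lb.r r293 (@Lb.r r2587 (@Lb.r r2584 (@Lb.d (nat_lit 585) (nat_lit 2) (nat_lit 105) (@Lb.t (@Lb.fm (nat_lit 9) t1537))))))))))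
noncomputable def l5294 : Lb := (@Lb.r r273 (@Lb.r r322 (@Lb.d (nat_lit 129) (nat_lit 16) (nat_lit 256) (@Lb.g g8 (@Lb.g g7 (@Lb.r r361 (@Lb.r r146 (@Lb.r r264 (@Lb.d (nat_lit 162) (nat_lit 0) (nat_lit 518) (@Lb.fm (nat_lit 3) t509))))))))))
noncomputable def l5295 : Lb := (@Lb.d (nat_lit 0) (nat_lit 512) (nat_lit 2) (@Lb.g g10 (@Lb.r r260 (@Lb.r r523 (@Lb.r r161 (@Lb.r r98 (@Lb.r r516 (@Lb.d (nat_lit 1) (nat_lit 6) (nat_lit 0) (@Lb.t (@Lb.fp (nat_lit 3) t97))))))))))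
noncomputable def l5296 : Lb := (@Lb.d (nat_lit 137) (nat_lit 0) (nat_lit 0) (@Lb.g g8 (@Lb.g g9 (@Lb.r r535 (@Lb.r r418 (@Lb.r r401 (@Lb.r r104 (@Lb.d (nat_lit 34) (nat_lit 37) (nat_lit 137) (@Lb.fp (nat_lit 3) t71)))))))))
noncomputable def l5297 : Lb := (@Lb.d (nat_lit 0) (nat_lit 420) (nat_lit 666) (@Lb.r r597 (@Lb.r r279 (@Lb.r r612 (@Lb.g g7 (@Lb.g g10 (@Lb.g g5 (@Lb.d (nat_lit 20) (nat_lit 1) (nat_lit 66) (@Lb.t (@Lb.fm (nat_lit 9) t694))))))))))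
noncomputable def l5298 : Lb := (@Lb.r r260 (@Lb.r r523 (@Lb.r r357 (@Lb.r r666 (@Lb.r r516 (@Lb.d (nat_lit 32) (nat_lit 261) (nat_lit 0) (@Lb.fm (nat_lit 1) t39)))))))
noncomputable def l5299 : Lb := (@Lb.d (nat_lit 1) (nat_lit 33) (nat_lit 4) (@Lb.g g8 (@Lb.g g9 (@Lb.g g10 (@Lb.g g11 (@Lb.r r683 (@Lb.r r616 (@Lb.r r86 (@Lb.r r165 (@Lb.r r20 (@Lb.d (nat_lit 41) (nat_lit 1) (nat_lit 137) (@Lb.fm (nat_lit 9) t74))))))))))))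
noncomputable def l5300 : Lb := (@Lb.d (nat_lit 2) (nat_lit 289) (nat_lit 4) (@Lb.g g8 (@Lb.g g9 (@Lb.g g10 (@Lb.g g11 (@Lb.r r683 (@Lb.r r616 (@Lb.r r86 (@Lb.r r165 (@Lb.r r20 (@Lb.d (nat_lit 41) (nat_lit 1) (nat_lit 2) (@Lb.fm (nat_lit 9) t74))))))))))))
noncomputable def l5301 : Lb := (@Lb.d (nat_lit 137) (nat_lit 512) (nat_lit 0) (@Lb.g g8 (@Lb.g g9 (@Lb.r r535 (@Lb.r r418 (@Lb.r r401 (@Lb.r r104 (@Lb.d (nat_lit 36) (nat_lit 38) (nat_lit 137) (@Lb.fp (nat_lit 3) t71)))))))))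
noncomputable def l5302 : Lb := (@Lb.r r21 (@Lb.d (nat_lit 129) (nat_lit 256) (nat_lit 4) (@Lb.g g8 (@Lb.g g10 (@Lb.g g11 (@Lb.r r651 (@Lb.r r357 (@Lb.r r154 (@Lb.r r132 (@Lb.d (nat_lit 89) (nat_lit 25) (nat_lit 134) (@Lb.t (@Lb.fp (nat_lit 9) t74))))))))))))
noncomputable def l5303 : Lb := (@Lb.d (nat_lit 2) (nat_lit 2) (nat_lit 2) (@Lb.g g8 (@Lb.g g9 (@Lb.g g10 (@Lb.r r2666 (@Lb.r r579 (@Lb.r r25 (@Lb.d (nat_lit 0) (nat_lit 161) (nat_lit 586) (@Lb.t (@Lb.fp (nat_lit 9) t51))))))))))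
noncomputable def l5304 : Lb := (@Lb.d (nat_lit 2) (nat_lit 290) (nat_lit 2) (@Lb.g g8 (@Lb.g g9 (@Lb.g g10 (@Lb.r r1675 (@Lb.r r1194 (@Lb.r r2465 (@Lb.r r2564 (@Lb.d (nat_lit 553) (nat_lit 164) (nat_lit 546) (@Lb.t (@Lb.fp (nat_lit 9) t284)))))))))))
noncomputable def l5305 : Lb := (@Lb.d (nat_lit 0) (nat_lit 2) (nat_lit 73) (@Lb.g g9 (@Lb.g g10 (@Lb.g g11 (@Lb.r r2691 (@Lb.r r2666 (@Lb.r r97 (@Lb.r r24 (@Lb.d (nat_lit 600) (nat_lit 9) (nat_lit 320) (@Lb.t (@Lb.fp (nat_lit 9) t145)))))))))))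
noncomputable def l5306 : Lb := (@Lb.d (nat_lit 9) (nat_lit 33) (nat_lit 2) (@Lb.g g8 (@Lb.g g9 (@Lb.g g10 (@Lb.r r275 (@Lb.r r1194 (@Lb.r r2593 (@Lb.r r2436 (@Lb.d (nat_lit 105) (nat_lit 144) (nat_lit 90) (@Lb.t (@Lb.fm (nat_lit 9) t994)))))))))))
noncomputable def l5307 : Lb := (@Lb.d (nat_lit 9) (nat_lit 545) (nat_lit 2) (@Lb.g g8 (@Lb.g g9 (@Lb.g g10 (@Lb.r r275 (@Lb.r r1194 (@Lb.r r2593 (@Lb.r r2436 (@Lb.d (nat_lit 106) (nat_lit 144) (nat_lit 90) (@Lb.t (@Lb.fm (nat_lit 9) t994)))))))))))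
noncomputable def l5308 : Lb := (@Lb.r r82 (@Lb.d (nat_lit 41) (nat_lit 545) (nat_lit 64) (@Lb.g g8 (@Lb.g g9 (@Lb.g g11 (@Lb.r r2593 (@Lb.r r1315 (@Lb.r r582 (@Lb.r r2180 (@Lb.d (nat_lit 546) (nat_lit 96) (nat_lit 530) (@Lb.t (@Lb.fp (nat_lit 9) t125))))))))))))
noncomputable def l5309 : Lb := (@Lb.r r21 (@Lb.r r323 (@Lb.d (nat_lit 18) (nat_lit 8) (nat_lit 0) (@Lb.g g4 (@Lb.g g10 (@Lb.r r2649 (@Lb.r r1431 (@Lb.r r1350 (@Lb.d (nat_lit 80) (nat_lit 0) (nat_lit 405) (@Lb.fp (nat_lit 3) t601))))))))))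
noncomputable def l5310 : Lb := (@Lb.d (nat_lit 0) (nat_lit 512) (nat_lit 64) (@Lb.g g10 (@Lb.g g7 (@Lb.r r402 (@Lb.r r2145 (@Lb.r r36 (@Lb.d (nat_lit 5) (nat_lit 96) (nat_lit 512) (@Lb.fp (nat_lit 3) t940))))))))
noncomputable def l5311 : Lb := (@Lb.r r323 (@Lb.d (nat_lit 2) (nat_lit 546) (nat_lit 2) (@Lb.g g8 (@Lb.g g9 (@Lb.g g10 (@Lb.r r599 (@Lb.r r392 (@Lb.r r74 (@Lb.d (nat_lit 17) (nat_lit 2) (nat_lit 152) (@Lb.t (@Lb.fm (nat_lit 9) t221)))))))))))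
noncomputable def l5312 : Lb := (@Lb.d (nat_lit 64) (nat_lit 512) (nat_lit 577) (@Lb.g g10 (@Lb.g g7 (@Lb.r r2442 (@Lb.d (nat_lit 146) (nat_lit 0) (nat_lit 537) (@Lb.fm (nat_lit 3) t441))))))
noncomputable def l5313 : Lb := (@Lb.d (nat_lit 2) (nat_lit 514) (nat_lit 130) (@Lb.g g8 (@Lb.g g9 (@Lb.g g10 (@Lb.g g11 (@Lb.r r2218 (@Lb.r r420 (@Lb.r r283 (@Lb.r r1557 (@Lb.r r1060 (@Lb.d (nat_lit 641) (nat_lit 66) (nat_lit 330) (@Lb.fm (nat_lit 9) t284))))))))))))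
noncomputable def l5314 : Lb := (@Lb.r r322 (@Lb.d (nat_lit 0) (nat_lit 273) (nat_lit 68) (@Lb.g g9 (@Lb.g g11 (@Lb.r r2658 (@Lb.r r2721 (@Lb.d (nat_lit 0) (nat_lit 161) (nat_lit 337) (@Lb.fp (nat_lit 3) t478))))))))
noncomputable def l5315 : Lb := (@Lb.d (nat_lit 9) (nat_lit 256) (nat_lit 0) (@Lb.g g8 (@Lb.r r1126 (@Lb.r r101 (@Lb.r r1172 (@Lb.d (nat_lit 292) (nat_lit 5) (nat_lit 33) (@Lb.t (@Lb.fm (nat_lit 3) t1551))))))))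
noncomputable def l5316 : Lb := (@Lb.d (nat_lit 10) (nat_lit 512) (nat_lit 0) (@Lb.g g8 (@Lb.r r1126 (@Lb.r r101 (@Lb.r r1172 (@Lb.d (nat_lit 292) (nat_lit 10) (nat_lit 34) (@Lb.t (@Lb.fm (nat_lit 3) t1551))))))))
noncomputable def l5317 : Lb := (@Lb.d (nat_lit 4) (nat_lit 1) (nat_lit 128) (@Lb.g g5 (@Lb.g g10 (@Lb.g g11 (@Lb.r r387 (@Lb.r r24 (@Lb.d (nat_lit 0) (nat_lit 1) (nat_lit 137) (@Lb.t (@Lb.fm (nat_lit 9) t2)))))))))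
noncomputable def l5318 : Lb := (@Lb.r r82 (@Lb.d (nat_lit 0) (nat_lit 128) (nat_lit 136) (@Lb.g g9 (@Lb.g g11 (@Lb.r r402 (@Lb.r r611 (@Lb.d (nat_lit 0) (nat_lit 89) (nat_lit 138) (@Lb.fm (nat_lit 3) t719))))))))
noncomputable def l5319 : Lb := (@Lb.r r82 (@Lb.d (nat_lit 5) (nat_lit 42) (nat_lit 64) (@Lb.g g4 (@Lb.g g9 (@Lb.g g11 (@Lb.r r615 (@Lb.r r402 (@Lb.r r601 (@Lb.d (nat_lit 136) (nat_lit 38) (nat_lit 136) (@Lb.t (@Lb.fp (nat_lit 9) t50)))))))))))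
noncomputable def l5320 : Lb := (@Lb.d (nat_lit 0) (nat_lit 256) (nat_lit 72) (@Lb.g g11 (@Lb.d (nat_lit 0) (nat_lit 0) (nat_lit 160) (@Lb.t (@Lb.fp (nat_lit 3) t2)))))
noncomputable def l5321 : Lb := (@Lb.d (nat_lit 0) (nat_lit 512) (nat_lit 128) (@Lb.g g11 (@Lb.r r1602 (@Lb.r r579 (@Lb.d (nat_lit 0) (nat_lit 0) (nat_lit 650) (@Lb.t (@Lb.fm (nat_lit 3) t2)))))))
noncomputable def l5322 : Lb := (@Lb.d (nat_lit 64) (nat_lit 0) (nat_lit 576) (@Lb.g g7 (@Lb.r r1606 (@Lb.d (nat_lit 353) (nat_lit 0) (nat_lit 420) (@Lb.t (@Lb.fm (nat_lit 3) t441))))))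
noncomputable def l5323 : Lb := (@Lb.r r20 (@Lb.r r82 (@Lb.r r275 (@Lb.d (nat_lit 4) (nat_lit 73) (nat_lit 0) (@Lb.g g5 (@Lb.r r603 (@Lb.r r2136 (@Lb.r r1638 (@Lb.d (nat_lit 613) (nat_lit 4) (nat_lit 0) (@Lb.t (@Lb.fm (nat_lit 3) t1506)))))))))))
noncomputable def l5324 : Lb := (@Lb.d (nat_lit 8) (nat_lit 514) (nat_lit 132) (@Lb.g g9 (@Lb.g g10 (@Lb.g g11 (@Lb.r r675 (@Lb.r r2658 (@Lb.d (nat_lit 2) (nat_lit 89) (nat_lit 33) (@Lb.t (@Lb.fp (nat_lit 9) t944)))))))))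
noncomputable def l5325 : Lb := (@Lb.r r82 (@Lb.d (nat_lit 129) (nat_lit 16) (nat_lit 0) (@Lb.g g8 (@Lb.g g9 (@Lb.g g11 (@Lb.r r555 (@Lb.r r1689 (@Lb.r r146 (@Lb.r r516 (@Lb.d (nat_lit 130) (nat_lit 10) (nat_lit 145) (@Lb.t (@Lb.fm (nat_lit 9) t1552))))))))))))
noncomputable def l5326 : Lb := (@Lb.d (nat_lit 8) (nat_lit 81) (nat_lit 645) (@Lb.r r281 (@Lb.r r359 (@Lb.r r664 (@Lb.r r586 (@Lb.g g5 (@Lb.g g4 (@Lb.d (nat_lit 0) (nat_lit 5) (nat_lit 0) (@Lb.fp (nat_lit 3) t573)))))))))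
noncomputable def l5327 : Lb := (@Lb.r r82 (@Lb.d (nat_lit 129) (nat_lit 528) (nat_lit 0) (@Lb.g g8 (@Lb.g g9 (@Lb.g g11 (@Lb.r r555 (@Lb.r r1689 (@Lb.r r146 (@Lb.r r516 (@Lb.d (nat_lit 130) (nat_lit 0) (nat_lit 146) (@Lb.t (@Lb.fm (nat_lit 9) t1553))))))))))))
noncomputable def l5328 : Lb := (@Lb.d (nat_lit 8) (nat_lit 2) (nat_lit 2) (@Lb.g g9 (@Lb.g g10 (@Lb.r r98 (@Lb.d (nat_lit 610) (nat_lit 9) (nat_lit 610) (@Lb.fm (nat_lit 3) t1554))))))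
noncomputable def l5329 : Lb := (@Lb.r r82 (@Lb.d (nat_lit 9) (nat_lit 277) (nat_lit 0) (@Lb.g g8 (@Lb.g g5 (@Lb.g g11 (@Lb.r r411 (@Lb.r r2458 (@Lb.r r2436 (@Lb.d (nat_lit 104) (nat_lit 129) (nat_lit 514) (@Lb.t (@Lb.fm (nat_lit 9) t1555)))))))))))
noncomputable def l5330 : Lb := (@Lb.d (nat_lit 8) (nat_lit 514) (nat_lit 2) (@Lb.g g9 (@Lb.g g10 (@Lb.r r98 (@Lb.r r24 (@Lb.r r101 (@Lb.d (nat_lit 21) (nat_lit 137) (nat_lit 2) (@Lb.fm (nat_lit 3) t240))))))))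
noncomputable def l5331 : Lb := (@Lb.d (nat_lit 0) (nat_lit 2) (nat_lit 130) (@Lb.g g8 (@Lb.g g9 (@Lb.g g10 (@Lb.g g11 (@Lb.r r427 (@Lb.r r145 (@Lb.r r356 (@Lb.r r154 (@Lb.r r132 (@Lb.d (nat_lit 9) (nat_lit 9) (nat_lit 153) (@Lb.fm (nat_lit 9) t221))))))))))))
noncomputable def l5332 : Lb := (@Lb.d (nat_lit 8) (nat_lit 512) (nat_lit 130) (@Lb.g g8 (@Lb.g g10 (@Lb.g g11 (@Lb.r r2443 (@Lb.r r2193 (@Lb.r r2458 (@Lb.r r2436 (@Lb.d (nat_lit 358) (nat_lit 8) (nat_lit 681) (@Lb.t (@Lb.fp (nat_lit 9) t221)))))))))))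
noncomputable def l5333 : Lb := (@Lb.d (nat_lit 0) (nat_lit 514) (nat_lit 130) (@Lb.g g8 (@Lb.g g9 (@Lb.g g10 (@Lb.g g11 (@Lb.r r427 (@Lb.r r145 (@Lb.r r356 (@Lb.r r154 (@Lb.r r132 (@Lb.d (nat_lit 552) (nat_lit 2) (nat_lit 169) (@Lb.fm (nat_lit 9) t221))))))))))))
noncomputable def l5334 : Lb := (@Lb.d (nat_lit 10) (nat_lit 514) (nat_lit 0) (@Lb.r r134 (@Lb.r r328 (@Lb.r r535 (@Lb.r r289 (@Lb.g g11 (@Lb.t (@Lb.fp (nat_lit 3) t51))))))))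
noncomputable def l5335 : Lb := (@Lb.d (nat_lit 2) (nat_lit 258) (nat_lit 130) (@Lb.g g8 (@Lb.g g9 (@Lb.g g10 (@Lb.g g11 (@Lb.r r2691 (@Lb.r r297 (@Lb.r r360 (@Lb.r r582 (@Lb.r r2180 (@Lb.d (nat_lit 640) (nat_lit 73) (nat_lit 329) (@Lb.fm (nat_lit 9) t758))))))))))))
noncomputable def l5336 : Lb := (@Lb.d (nat_lit 2) (nat_lit 257) (nat_lit 0) (@Lb.r r82 (@Lb.r r275 (@Lb.g g5 (@Lb.r r291 (@Lb.r r98 (@Lb.r r36 (@Lb.t (@Lb.fm (nat_lit 3) t68)))))))))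
noncomputable def l5337 : Lb := (@Lb.r r82 (@Lb.r r275 (@Lb.d (nat_lit 0) (nat_lit 257) (nat_lit 0) (@Lb.g g8 (@Lb.g g5 (@Lb.r r291 (@Lb.r r98 (@Lb.d (nat_lit 2) (nat_lit 128) (nat_lit 0) (@Lb.fp (nat_lit 3) t144)))))))))
noncomputable def l5338 : Lb := (@Lb.d (nat_lit 2) (nat_lit 258) (nat_lit 128) (@Lb.g g8 (@Lb.g g9 (@Lb.g g10 (@Lb.g g11 (@Lb.r r643 (@Lb.r r297 (@Lb.r r360 (@Lb.r r582 (@Lb.r r132 (@Lb.d (nat_lit 129) (nat_lit 10) (nat_lit 73) (@Lb.fm (nat_lit 9) t242))))))))))))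
noncomputable def l5339 : Lb := (@Lb.d (nat_lit 290) (nat_lit 5) (nat_lit 70) (@Lb.r r24 (@Lb.r r101 (@Lb.r r402 (@Lb.r r1379 (@Lb.g g6 (@Lb.t (@Lb.fp (nat_lit 3) t760))))))))
noncomputable def l5340 : Lb := (@Lb.d (nat_lit 545) (nat_lit 5) (nat_lit 33) (@Lb.fp (nat_lit 1) t382))
noncomputable def l5341 : Lb := (@Lb.d (nat_lit 546) (nat_lit 517) (nat_lit 33) (@Lb.r r21 (@Lb.r r70 (@Lb.r r263 (@Lb.g g4 (@Lb.r r267 (@Lb.r r74 (@Lb.r r25 (@Lb.t (@Lb.fm (nat_lit 3) t1556))))))))))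
noncomputable def l5342 : Lb := (@Lb.g g4 (@Lb.d (nat_lit 1) (nat_lit 261) (nat_lit 1) (@Lb.t (@Lb.fm (nat_lit 3) t45))))
noncomputable def l5343 : Lb := (@Lb.d (nat_lit 1) (nat_lit 261) (nat_lit 1) (@Lb.r r24 (@Lb.r r101 (@Lb.r r402 (@Lb.r r323 (@Lb.g g7 (@Lb.g g6 (@Lb.g g4 (@Lb.d (nat_lit 1) (nat_lit 0) (nat_lit 64) (@Lb.t (@Lb.fm (nat_lit 9) t128)))))))))))
noncomputable def l5344 : Lb := (@Lb.r r323 (@Lb.d (nat_lit 33) (nat_lit 514) (nat_lit 33) (@Lb.g g8 (@Lb.g g9 (@Lb.g g6 (@Lb.r r387 (@Lb.r r97 (@Lb.r r2072 (@Lb.d (nat_lit 266) (nat_lit 137) (nat_lit 2) (@Lb.t (@Lb.fp (nat_lit 9) t217)))))))))))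
noncomputable def l5345 : Lb := (@Lb.d (nat_lit 2) (nat_lit 2) (nat_lit 74) (@Lb.g g8 (@Lb.g g9 (@Lb.g g10 (@Lb.g g11 (@Lb.r r643 (@Lb.r r297 (@Lb.r r360 (@Lb.r r582 (@Lb.r r132 (@Lb.d (nat_lit 128) (nat_lit 10) (nat_lit 73) (@Lb.fm (nat_lit 9) t242))))))))))))
noncomputable def l5346 : Lb := (@Lb.r r24 (@Lb.r r101 (@Lb.r r402 (@Lb.d (nat_lit 5) (nat_lit 677) (nat_lit 325) (@Lb.fm (nat_lit 1) t1557)))))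
noncomputable def l5347 : Lb := (@Lb.d (nat_lit 40) (nat_lit 2) (nat_lit 130) (@Lb.g g9 (@Lb.g g10 (@Lb.g g11 (@Lb.r r2695 (@Lb.r r1352 (@Lb.r r2390 (@Lb.r r1425 (@Lb.d (nat_lit 133) (nat_lit 73) (nat_lit 329) (@Lb.t (@Lb.fm (nat_lit 9) t1558)))))))))))
noncomputable def l5348 : Lb := (@Lb.d (nat_lit 40) (nat_lit 258) (nat_lit 130) (@Lb.g g9 (@Lb.g g10 (@Lb.g g11 (@Lb.r r2695 (@Lb.r r1352 (@Lb.r r2390 (@Lb.r r1425 (@Lb.d (nat_lit 132) (nat_lit 73) (nat_lit 329) (@Lb.t (@Lb.fm (nat_lit 9) t1558)))))))))))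
noncomputable def l5349 : Lb := (@Lb.r r21 (@Lb.r r70 (@Lb.r r263 (@Lb.g g8 (@Lb.r r267 (@Lb.r r74 (@Lb.r r25 (@Lb.d (nat_lit 2) (nat_lit 261) (nat_lit 32) (@Lb.t (@Lb.fp (nat_lit 3) t1559))))))))))
noncomputable def l5350 : Lb := (@Lb.r r21 (@Lb.r r70 (@Lb.r r263 (@Lb.g g8 (@Lb.r r267 (@Lb.r r74 (@Lb.r r25 (@Lb.d (nat_lit 0) (nat_lit 5) (nat_lit 32) (@Lb.t (@Lb.fp (nat_lit 3) t1560))))))))))
noncomputable def l5351 : Lb := (@Lb.d (nat_lit 584) (nat_lit 513) (nat_lit 661) (@Lb.r r1297 (@Lb.r r291 (@Lb.r r417 (@Lb.r r2214 (@Lb.g g7 (@Lb.g g6 (@Lb.g g5 (@Lb.g g8 (@Lb.d (nat_lit 322) (nat_lit 1) (nat_lit 129) (@Lb.fm (nat_lit 9) t1561)))))))))))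
noncomputable def l5352 : Lb := (@Lb.r r70 (@Lb.r r263 (@Lb.d (nat_lit 0) (nat_lit 514) (nat_lit 0) (@Lb.g g8 (@Lb.g g9 (@Lb.r r299 (@Lb.r r106 (@Lb.r r97 (@Lb.r r148 (@Lb.d (nat_lit 2) (nat_lit 4) (nat_lit 33) (@Lb.fp (nat_lit 3) t1562)))))))))))
noncomputable def l5353 : Lb := (@Lb.d (nat_lit 40) (nat_lit 514) (nat_lit 73) (@Lb.g g9 (@Lb.g g10 (@Lb.g g11 (@Lb.r r2695 (@Lb.r r1352 (@Lb.r r2390 (@Lb.r r1425 (@Lb.d (nat_lit 132) (nat_lit 73) (nat_lit 329) (@Lb.t (@Lb.fm (nat_lit 9) t1558)))))))))))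
noncomputable def l5354 : Lb := (@Lb.d (nat_lit 0) (nat_lit 2) (nat_lit 66) (@Lb.g g8 (@Lb.g g9 (@Lb.g g10 (@Lb.g g7 (@Lb.r r386 (@Lb.r r97 (@Lb.d (nat_lit 0) (nat_lit 9) (nat_lit 9) (@Lb.fm (nat_lit 9) t87)))))))))
noncomputable def l5355 : Lb := (@Lb.r r323 (@Lb.d (nat_lit 1) (nat_lit 322) (nat_lit 2) (@Lb.g g4 (@Lb.g g9 (@Lb.g g10 (@Lb.r r354 (@Lb.r r387 (@Lb.d (nat_lit 1) (nat_lit 33) (nat_lit 74) (@Lb.t (@Lb.fp (nat_lit 9) t51))))))))))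
noncomputable def l5356 : Lb := (@Lb.d (nat_lit 4) (nat_lit 1) (nat_lit 0) (@Lb.g g8 (@Lb.g g5 (@Lb.r r24 (@Lb.d (nat_lit 0) (nat_lit 1) (nat_lit 0) (@Lb.fm (nat_lit 3) t2))))))
noncomputable def l5357 : Lb := (@Lb.d (nat_lit 129) (nat_lit 265) (nat_lit 0) (@Lb.g g8 (@Lb.g g9 (@Lb.r r394 (@Lb.r r2647 (@Lb.r r1313 (@Lb.r r152 (@Lb.d (nat_lit 21) (nat_lit 132) (nat_lit 385) (@Lb.fm (nat_lit 3) t71)))))))))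
noncomputable def l5358 : Lb := (@Lb.d (nat_lit 1) (nat_lit 521) (nat_lit 72) (@Lb.g g8 (@Lb.g g9 (@Lb.g g11 (@Lb.r r138 (@Lb.r r644 (@Lb.r r2583 (@Lb.r r1313 (@Lb.d (nat_lit 9) (nat_lit 132) (nat_lit 385) (@Lb.t (@Lb.fp (nat_lit 9) t71)))))))))))
noncomputable def l5359 : Lb := (@Lb.d (nat_lit 1) (nat_lit 265) (nat_lit 130) (@Lb.g g8 (@Lb.g g9 (@Lb.g g10 (@Lb.g g11 (@Lb.r r643 (@Lb.r r297 (@Lb.r r360 (@Lb.r r582 (@Lb.r r132 (@Lb.d (nat_lit 128) (nat_lit 10) (nat_lit 73) (@Lb.fm (nat_lit 9) t98))))))))))))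
noncomputable def l5360 : Lb := (@Lb.d (nat_lit 2) (nat_lit 9) (nat_lit 130) (@Lb.g g8 (@Lb.g g9 (@Lb.g g10 (@Lb.g g11 (@Lb.r r643 (@Lb.r r297 (@Lb.r r360 (@Lb.r r582 (@Lb.r r132 (@Lb.d (nat_lit 128) (nat_lit 136) (nat_lit 73) (@Lb.fm (nat_lit 9) t919))))))))))))
noncomputable def l5361 : Lb := (@Lb.d (nat_lit 0) (nat_lit 512) (nat_lit 130) (@Lb.g g10 (@Lb.g g11 (@Lb.r r586 (@Lb.r r584 (@Lb.r r299 (@Lb.r r289 (@Lb.d (nat_lit 9) (nat_lit 130) (nat_lit 138) (@Lb.fm (nat_lit 3) t51)))))))))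
noncomputable def l5362 : Lb := (@Lb.d (nat_lit 2) (nat_lit 514) (nat_lit 128) (@Lb.g g8 (@Lb.g g9 (@Lb.g g10 (@Lb.g g11 (@Lb.r r643 (@Lb.r r297 (@Lb.r r360 (@Lb.r r582 (@Lb.r r132 (@Lb.d (nat_lit 128) (nat_lit 10) (nat_lit 73) (@Lb.fm (nat_lit 9) t242))))))))))))
noncomputable def l5363 : Lb := (@Lb.r r323 (@Lb.d (nat_lit 33) (nat_lit 9) (nat_lit 32) (@Lb.g g8 (@Lb.g g9 (@Lb.g g6 (@Lb.r r387 (@Lb.r r97 (@Lb.r r2072 (@Lb.d (nat_lit 266) (nat_lit 137) (nat_lit 2) (@Lb.t (@Lb.fp (nat_lit 9) t1364)))))))))))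
noncomputable def l5364 : Lb := (@Lb.g g5 (@Lb.r r24 (@Lb.r r101 (@Lb.r r402 (@Lb.d (nat_lit 0) (nat_lit 164) (nat_lit 325) (@Lb.t (@Lb.fp (nat_lit 3) t652)))))))
noncomputable def l5365 : Lb := (@Lb.r r323 (@Lb.d (nat_lit 8) (nat_lit 290) (nat_lit 2) (@Lb.g g9 (@Lb.g g10 (@Lb.r r2150 (@Lb.r r536 (@Lb.r r603 (@Lb.r r293 (@Lb.d (nat_lit 325) (nat_lit 161) (nat_lit 130) (@Lb.fp (nat_lit 3) t61))))))))))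
noncomputable def l5366 : Lb := (@Lb.d (nat_lit 0) (nat_lit 512) (nat_lit 64) (@Lb.g g7 (@Lb.r r289 (@Lb.r r535 (@Lb.r r328 (@Lb.r r134 (@Lb.t (@Lb.fm (nat_lit 3) t40))))))))
noncomputable def l5367 : Lb := (@Lb.r r616 (@Lb.r r2665 (@Lb.r r2390 (@Lb.r r2475 (@Lb.r r1188 (@Lb.d (nat_lit 1) (nat_lit 256) (nat_lit 512) (@Lb.fp (nat_lit 1) t322)))))))
noncomputable def l5368 : Lb := (@Lb.d (nat_lit 101) (nat_lit 294) (nat_lit 32) (@Lb.r r408 (@Lb.r r330 (@Lb.r r343 (@Lb.g g5 (@Lb.g g4 (@Lb.d (nat_lit 17) (nat_lit 4) (nat_lit 0) (@Lb.r r291 (@Lb.r r98 (@Lb.fp (nat_lit 3) t50))))))))))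
noncomputable def l5369 : Lb := (@Lb.r r82 (@Lb.d (nat_lit 34) (nat_lit 545) (nat_lit 64) (@Lb.g g8 (@Lb.g g9 (@Lb.g g11 (@Lb.r r2665 (@Lb.r r150 (@Lb.r r616 (@Lb.r r587 (@Lb.d (nat_lit 545) (nat_lit 34) (nat_lit 394) (@Lb.t (@Lb.fm (nat_lit 9) t50))))))))))))
noncomputable def l5370 : Lb := (@Lb.g g7 (@Lb.d (nat_lit 0) (nat_lit 512) (nat_lit 100) (@Lb.t (@Lb.fm (nat_lit 3) t2))))
noncomputable def l5371 : Lb := (@Lb.r r402 (@Lb.r r101 (@Lb.r r24 (@Lb.d (nat_lit 258) (nat_lit 256) (nat_lit 512) (@Lb.fm (nat_lit 1) t145)))))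
noncomputable def l5372 : Lb := (@Lb.r r609 (@Lb.r r363 (@Lb.r r328 (@Lb.r r134 (@Lb.d (nat_lit 512) (nat_lit 0) (nat_lit 16) (@Lb.fm (nat_lit 1) t40))))))
noncomputable def l5373 : Lb := (@Lb.d (nat_lit 2) (nat_lit 2) (nat_lit 130) (@Lb.g g8 (@Lb.g g9 (@Lb.g g10 (@Lb.g g11 (@Lb.r r2705 (@Lb.r r356 (@Lb.r r667 (@Lb.r r586 (@Lb.r r1540 (@Lb.d (nat_lit 289) (nat_lit 10) (nat_lit 161) (@Lb.fm (nat_lit 9) t145))))))))))))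
noncomputable def l5374 : Lb := (@Lb.d (nat_lit 0) (nat_lit 274) (nat_lit 0) (@Lb.g g9 (@Lb.r r363 (@Lb.r r328 (@Lb.r r134 (@Lb.d (nat_lit 529) (nat_lit 2) (nat_lit 16) (@Lb.t (@Lb.fp (nat_lit 3) t61))))))))
noncomputable def l5375 : Lb := (@Lb.g g7 (@Lb.d (nat_lit 0) (nat_lit 256) (nat_lit 133) (@Lb.t (@Lb.fm (nat_lit 3) t2))))
noncomputable def l5376 : Lb := (@Lb.r r609 (@Lb.r r363 (@Lb.r r328 (@Lb.r r134 (@Lb.d (nat_lit 512) (nat_lit 266) (nat_lit 18) (@Lb.fm (nat_lit 1) t40))))))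
noncomputable def l5377 : Lb := (@Lb.d (nat_lit 0) (nat_lit 658) (nat_lit 389) (@Lb.r r579 (@Lb.r r1362 (@Lb.g g7 (@Lb.g g6 (@Lb.g g5 (@Lb.d (nat_lit 0) (nat_lit 0) (nat_lit 134) (@Lb.t (@Lb.fm (nat_lit 9) t87)))))))))
noncomputable def l5378 : Lb := (@Lb.d (nat_lit 34) (nat_lit 1) (nat_lit 0) (@Lb.r r134 (@Lb.r r328 (@Lb.r r535 (@Lb.g g5 (@Lb.d (nat_lit 0) (nat_lit 25) (nat_lit 0) (@Lb.t (@Lb.fp (nat_lit 3) t546))))))))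
noncomputable def l5379 : Lb := (@Lb.r r82 (@Lb.d (nat_lit 0) (nat_lit 608) (nat_lit 128) (@Lb.g g5 (@Lb.g g11 (@Lb.r r531 (@Lb.r r98 (@Lb.d (nat_lit 0) (nat_lit 162) (nat_lit 128) (@Lb.fm (nat_lit 3) t144))))))))
noncomputable def l5380 : Lb := (@Lb.r r323 (@Lb.d (nat_lit 8) (nat_lit 290) (nat_lit 0) (@Lb.g g9 (@Lb.g g10 (@Lb.r r102 (@Lb.r r536 (@Lb.r r603 (@Lb.r r293 (@Lb.d (nat_lit 74) (nat_lit 34) (nat_lit 130) (@Lb.fp (nat_lit 3) t61))))))))))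
noncomputable def l5381 : Lb := (@Lb.d (nat_lit 0) (nat_lit 0) (nat_lit 130) (@Lb.g g10 (@Lb.g g11 (@Lb.r r586 (@Lb.r r584 (@Lb.r r619 (@Lb.r r609 (@Lb.d (nat_lit 9) (nat_lit 1) (nat_lit 85) (@Lb.fp (nat_lit 3) t479)))))))))
noncomputable def l5382 : Lb := (@Lb.d (nat_lit 0) (nat_lit 266) (nat_lit 0) (@Lb.g g9 (@Lb.r r86 (@Lb.r r424 (@Lb.r r599 (@Lb.r r417 (@Lb.d (nat_lit 0) (nat_lit 68) (nat_lit 262) (@Lb.t (@Lb.fm (nat_lit 3) t210)))))))))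
noncomputable def l5383 : Lb := (@Lb.d (nat_lit 145) (nat_lit 256) (nat_lit 600) (@Lb.r r24 (@Lb.r r1114 (@Lb.r r2469 (@Lb.r r1363 (@Lb.g g7 (@Lb.g g5 (@Lb.d (nat_lit 0) (nat_lit 1) (nat_lit 64) (@Lb.fm (nat_lit 3) t50)))))))))
noncomputable def l5384 : Lb := (@Lb.d (nat_lit 0) (nat_lit 512) (nat_lit 130) (@Lb.g g10 (@Lb.g g11 (@Lb.r r642 (@Lb.r r387 (@Lb.d (nat_lit 0) (nat_lit 5) (nat_lit 144) (@Lb.fp (nat_lit 3) t45)))))))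
noncomputable def l5385 : Lb := (@Lb.d (nat_lit 0) (nat_lit 0) (nat_lit 130) (@Lb.g g10 (@Lb.g g11 (@Lb.r r642 (@Lb.r r387 (@Lb.d (nat_lit 0) (nat_lit 5) (nat_lit 90) (@Lb.fp (nat_lit 3) t45)))))))
noncomputable def l5386 : Lb := (@Lb.d (nat_lit 0) (nat_lit 513) (nat_lit 32) (@Lb.r r323 (@Lb.g g6 (@Lb.d (nat_lit 0) (nat_lit 4) (nat_lit 17) (@Lb.r r387 (@Lb.t (@Lb.fm (nat_lit 3) t45)))))))
noncomputable def l5387 : Lb := (@Lb.d (nat_lit 0) (nat_lit 528) (nat_lit 520) (@Lb.g g10 (@Lb.g g7 (@Lb.r r418 (@Lb.d (nat_lit 0) (nat_lit 102) (nat_lit 9) (@Lb.fm (nat_lit 3) t1563))))))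
noncomputable def l5388 : Lb := (@Lb.d (nat_lit 0) (nat_lit 536) (nat_lit 521) (@Lb.g g10 (@Lb.g g7 (@Lb.r r1617 (@Lb.r r354 (@Lb.d (nat_lit 0) (nat_lit 98) (nat_lit 128) (@Lb.fp (nat_lit 3) t216)))))))
noncomputable def l5389 : Lb := (@Lb.r r609 (@Lb.r r548 (@Lb.r r295 (@Lb.r r390 (@Lb.r r516 (@Lb.d (nat_lit 512) (nat_lit 0) (nat_lit 32) (@Lb.fp (nat_lit 1) t40)))))))
noncomputable def l5390 : Lb := (@Lb.d (nat_lit 6) (nat_lit 2) (nat_lit 170) (@Lb.r r609 (@Lb.r r619 (@Lb.r r584 (@Lb.r r326 (@Lb.g g7 (@Lb.g g6 (@Lb.d (nat_lit 0) (nat_lit 0) (nat_lit 65) (@Lb.fp (nat_lit 3) t68)))))))))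
noncomputable def l5391 : Lb := (@Lb.r r323 (@Lb.d (nat_lit 2) (nat_lit 258) (nat_lit 0) (@Lb.g g8 (@Lb.g g9 (@Lb.g g10 (@Lb.r r427 (@Lb.r r106 (@Lb.r r25 (@Lb.d (nat_lit 282) (nat_lit 2) (nat_lit 16) (@Lb.t (@Lb.fm (nat_lit 9) t1564)))))))))))
noncomputable def l5392 : Lb := (@Lb.r r323 (@Lb.d (nat_lit 130) (nat_lit 290) (nat_lit 0) (@Lb.g g8 (@Lb.g g9 (@Lb.g g10 (@Lb.r r599 (@Lb.r r98 (@Lb.r r408 (@Lb.r r101 (@Lb.d (nat_lit 26) (nat_lit 41) (nat_lit 146) (@Lb.t (@Lb.fp (nat_lit 9) t221))))))))))))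
noncomputable def l5393 : Lb := (@Lb.r r82 (@Lb.r r275 (@Lb.d (nat_lit 34) (nat_lit 520) (nat_lit 0) (@Lb.g g8 (@Lb.g g9 (@Lb.r r427 (@Lb.r r582 (@Lb.r r408 (@Lb.d (nat_lit 152) (nat_lit 25) (nat_lit 154) (@Lb.fp (nat_lit 3) t699))))))))))
noncomputable def l5394 : Lb := (@Lb.r r322 (@Lb.d (nat_lit 34) (nat_lit 258) (nat_lit 136) (@Lb.g g8 (@Lb.g g9 (@Lb.g g7 (@Lb.r r361 (@Lb.r r150 (@Lb.r r104 (@Lb.d (nat_lit 100) (nat_lit 5) (nat_lit 8) (@Lb.t (@Lb.fm (nat_lit 9) t242)))))))))))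
noncomputable def l5395 : Lb := (@Lb.d (nat_lit 0) (nat_lit 514) (nat_lit 130) (@Lb.g g8 (@Lb.g g9 (@Lb.g g10 (@Lb.g g11 (@Lb.r r162 (@Lb.r r168 (@Lb.r r425 (@Lb.r r279 (@Lb.r r548 (@Lb.d (nat_lit 258) (nat_lit 0) (nat_lit 106) (@Lb.fm (nat_lit 9) t991))))))))))))
noncomputable def l5396 : Lb := (@Lb.r r82 (@Lb.r r275 (@Lb.d (nat_lit 9) (nat_lit 514) (nat_lit 0) (@Lb.g g8 (@Lb.g g9 (@Lb.r r299 (@Lb.r r106 (@Lb.r r25 (@Lb.r r40 (@Lb.d (nat_lit 8) (nat_lit 66) (nat_lit 0) (@Lb.fp (nat_lit 3) t1565)))))))))))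
noncomputable def l5397 : Lb := (@Lb.d (nat_lit 1) (nat_lit 512) (nat_lit 34) (@Lb.r r1300 (@Lb.r r601 (@Lb.r r539 (@Lb.r r664 (@Lb.g g6 (@Lb.d (nat_lit 0) (nat_lit 0) (nat_lit 34) (@Lb.t (@Lb.fm (nat_lit 3) t1038)))))))))
noncomputable def l5398 : Lb := (@Lb.d (nat_lit 0) (nat_lit 512) (nat_lit 136) (@Lb.g g5 (@Lb.g g11 (@Lb.d (nat_lit 0) (nat_lit 0) (nat_lit 130) (@Lb.fp (nat_lit 3) t2)))))
noncomputable def l5399 : Lb := (@Lb.d (nat_lit 0) (nat_lit 522) (nat_lit 2) (@Lb.g g9 (@Lb.g g10 (@Lb.r r97 (@Lb.r r2130 (@Lb.r r145 (@Lb.fp (nat_lit 3) t1407)))))))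
noncomputable def l5400 : Lb := (@Lb.d (nat_lit 0) (nat_lit 657) (nat_lit 289) (@Lb.r r81 (@Lb.r r2466 (@Lb.g g11 (@Lb.g g6 (@Lb.g g5 (@Lb.d (nat_lit 0) (nat_lit 8) (nat_lit 128) (@Lb.t (@Lb.fp (nat_lit 9) t8)))))))))
noncomputable def l5401 : Lb := (@Lb.d (nat_lit 0) (nat_lit 277) (nat_lit 5) (@Lb.r r418 (@Lb.g g11 (@Lb.g g6 (@Lb.g g5 (@Lb.d (nat_lit 0) (nat_lit 0) (nat_lit 130) (@Lb.t (@Lb.fp (nat_lit 9) t5))))))))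
noncomputable def l5402 : Lb := (@Lb.d (nat_lit 0) (nat_lit 517) (nat_lit 1) (@Lb.r r1185 (@Lb.r r2210 (@Lb.g g5 (@Lb.t (@Lb.fm (nat_lit 3) t1404))))))
noncomputable def l5403 : Lb := (@Lb.d (nat_lit 0) (nat_lit 512) (nat_lit 2) (@Lb.g g10 (@Lb.r r2193 (@Lb.r r146 (@Lb.d (nat_lit 0) (nat_lit 72) (nat_lit 33) (@Lb.t (@Lb.fm (nat_lit 3) t1404)))))))
noncomputable def l5404 : Lb := (@Lb.d (nat_lit 2) (nat_lit 516) (nat_lit 65) (@Lb.g g8 (@Lb.g g9 (@Lb.g g10 (@Lb.g g11 (@Lb.r r2315 (@Lb.r r1685 (@Lb.r r2404 (@Lb.r r1178 (@Lb.d (nat_lit 537) (nat_lit 2) (nat_lit 34) (@Lb.fm (nat_lit 9) t224)))))))))))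
noncomputable def l5405 : Lb := (@Lb.d (nat_lit 8) (nat_lit 329) (nat_lit 2) (@Lb.r r289 (@Lb.r r279 (@Lb.r r584 (@Lb.r r326 (@Lb.g g7 (@Lb.g g6 (@Lb.g g5 (@Lb.d (nat_lit 4) (nat_lit 1) (nat_lit 134) (@Lb.t (@Lb.fp (nat_lit 9) t74)))))))))))
noncomputable def l5406 : Lb := (@Lb.r r323 (@Lb.d (nat_lit 2) (nat_lit 514) (nat_lit 2) (@Lb.g g8 (@Lb.g g9 (@Lb.g g10 (@Lb.r r362 (@Lb.r r387 (@Lb.r r25 (@Lb.d (nat_lit 392) (nat_lit 33) (nat_lit 576) (@Lb.t (@Lb.fm (nat_lit 9) t672)))))))))))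
noncomputable def l5407 : Lb := (@Lb.r r323 (@Lb.d (nat_lit 2) (nat_lit 4) (nat_lit 0) (@Lb.g g8 (@Lb.g g9 (@Lb.g g10 (@Lb.r r362 (@Lb.r r387 (@Lb.r r25 (@Lb.d (nat_lit 385) (nat_lit 34) (nat_lit 576) (@Lb.t (@Lb.fm (nat_lit 9) t1566)))))))))))
noncomputable def l5408 : Lb := (@Lb.d (nat_lit 8) (nat_lit 292) (nat_lit 64) (@Lb.g g9 (@Lb.g g10 (@Lb.g g11 (@Lb.r r387 (@Lb.r r2136 (@Lb.r r2438 (@Lb.r r593 (@Lb.d (nat_lit 337) (nat_lit 38) (nat_lit 649) (@Lb.t (@Lb.fm (nat_lit 9) t1567)))))))))))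
noncomputable def l5409 : Lb := (@Lb.d (nat_lit 610) (nat_lit 256) (nat_lit 294) (@Lb.r r1608 (@Lb.r r402 (@Lb.r r85 (@Lb.g g11 (@Lb.g g8 (@Lb.d (nat_lit 5) (nat_lit 0) (nat_lit 0) (@Lb.fm (nat_lit 3) t1118))))))))
noncomputable def l5410 : Lb := (@Lb.r r323 (@Lb.d (nat_lit 0) (nat_lit 0) (nat_lit 38) (@Lb.g g9 (@Lb.g g10 (@Lb.r r387 (@Lb.r r2577 (@Lb.d (nat_lit 0) (nat_lit 0) (nat_lit 386) (@Lb.fm (nat_lit 3) t121))))))))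
noncomputable def l5411 : Lb := (@Lb.r r82 (@Lb.d (nat_lit 34) (nat_lit 0) (nat_lit 136) (@Lb.g g8 (@Lb.g g9 (@Lb.g g11 (@Lb.r r617 (@Lb.r r150 (@Lb.r r356 (@Lb.r r395 (@Lb.d (nat_lit 130) (nat_lit 34) (nat_lit 130) (@Lb.t (@Lb.fm (nat_lit 9) t98))))))))))))
noncomputable def l5412 : Lb := (@Lb.d (nat_lit 1) (nat_lit 260) (nat_lit 65) (@Lb.g g8 (@Lb.g g9 (@Lb.g g10 (@Lb.g g11 (@Lb.r r2315 (@Lb.r r1685 (@Lb.r r2404 (@Lb.r r1178 (@Lb.d (nat_lit 537) (nat_lit 2) (nat_lit 169) (@Lb.fm (nat_lit 9) t224)))))))))))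
noncomputable def l5413 : Lb := (@Lb.d (nat_lit 2) (nat_lit 546) (nat_lit 66) (@Lb.g g8 (@Lb.g g9 (@Lb.g g10 (@Lb.g g11 (@Lb.r r665 (@Lb.r r531 (@Lb.r r386 (@Lb.d (nat_lit 33) (nat_lit 41) (nat_lit 72) (@Lb.fp (nat_lit 9) t5))))))))))
noncomputable def l5414 : Lb := (@Lb.d (nat_lit 2) (nat_lit 2) (nat_lit 130) (@Lb.g g8 (@Lb.g g9 (@Lb.g g10 (@Lb.g g11 (@Lb.r r610 (@Lb.r r404 (@Lb.r r619 (@Lb.r r97 (@Lb.r r516 (@Lb.d (nat_lit 9) (nat_lit 137) (nat_lit 1) (@Lb.fp (nat_lit 9) t44))))))))))))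
noncomputable def l5415 : Lb := (@Lb.d (nat_lit 8) (nat_lit 514) (nat_lit 130) (@Lb.g g9 (@Lb.g g10 (@Lb.g g11 (@Lb.r r614 (@Lb.r r404 (@Lb.r r619 (@Lb.r r609 (@Lb.d (nat_lit 9) (nat_lit 153) (nat_lit 137) (@Lb.t (@Lb.fm (nat_lit 9) t44)))))))))))
noncomputable def l5416 : Lb := (@Lb.r r323 (@Lb.d (nat_lit 33) (nat_lit 4) (nat_lit 0) (@Lb.g g8 (@Lb.g g9 (@Lb.g g10 (@Lb.r r1689 (@Lb.r r1563 (@Lb.r r1540 (@Lb.d (nat_lit 418) (nat_lit 0) (nat_lit 673) (@Lb.t (@Lb.fp (nat_lit 9) t230)))))))))))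
noncomputable def l5417 : Lb := (@Lb.d (nat_lit 512) (nat_lit 6) (nat_lit 1) (@Lb.r r24 (@Lb.r r2138 (@Lb.r r2331 (@Lb.g g5 (@Lb.d (nat_lit 4) (nat_lit 1) (nat_lit 0) (@Lb.t (@Lb.fp (nat_lit 3) t1568))))))))
noncomputable def l5418 : Lb := (@Lb.d (nat_lit 290) (nat_lit 261) (nat_lit 1) (@Lb.r r24 (@Lb.r r2138 (@Lb.r r149 (@Lb.r r2451 (@Lb.g g5 (@Lb.t (@Lb.fp (nat_lit 3) t1365))))))))
noncomputable def l5419 : Lb := (@Lb.d (nat_lit 576) (nat_lit 320) (nat_lit 320) (@Lb.r r33 (@Lb.r r1287 (@Lb.r r2628 (@Lb.g g7 (@Lb.g g10 (@Lb.d (nat_lit 64) (nat_lit 4) (nat_lit 161) (@Lb.r r401 (@Lb.fm (nat_lit 3) t1569)))))))))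
noncomputable def l5420 : Lb := (@Lb.d (nat_lit 17) (nat_lit 274) (nat_lit 100) (@Lb.r r418 (@Lb.r r1433 (@Lb.r r1304 (@Lb.r r2731 (@Lb.g g7 (@Lb.g g6 (@Lb.g g5 (@Lb.d (nat_lit 16) (nat_lit 5) (nat_lit 65) (@Lb.t (@Lb.fm (nat_lit 9) t1570)))))))))))
noncomputable def l5421 : Lb := (@Lb.d (nat_lit 64) (nat_lit 549) (nat_lit 102) (@Lb.r r410 (@Lb.r r148 (@Lb.r r1365 (@Lb.r r2599 (@Lb.g g6 (@Lb.g g5 (@Lb.d (nat_lit 16) (nat_lit 0) (nat_lit 1) (@Lb.fm (nat_lit 3) t210)))))))))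
noncomputable def l5422 : Lb := (@Lb.d (nat_lit 9) (nat_lit 512) (nat_lit 128) (@Lb.g g8 (@Lb.g g10 (@Lb.g g11 (@Lb.r r545 (@Lb.r r299 (@Lb.r r356 (@Lb.r r154 (@Lb.d (nat_lit 10) (nat_lit 10) (nat_lit 129) (@Lb.t (@Lb.fm (nat_lit 9) t39)))))))))))
noncomputable def l5423 : Lb := (@Lb.d (nat_lit 33) (nat_lit 260) (nat_lit 130) (@Lb.g g8 (@Lb.g g9 (@Lb.g g6 (@Lb.g g11 (@Lb.r r1643 (@Lb.r r97 (@Lb.r r1560 (@Lb.d (nat_lit 73) (nat_lit 105) (nat_lit 512) (@Lb.fp (nat_lit 9) t1109))))))))))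
noncomputable def l5424 : Lb := (@Lb.d (nat_lit 344) (nat_lit 618) (nat_lit 84) (@Lb.r r410 (@Lb.r r148 (@Lb.r r1365 (@Lb.r r2371 (@Lb.g g7 (@Lb.g g6 (@Lb.g g5 (@Lb.d (nat_lit 16) (nat_lit 0) (nat_lit 65) (@Lb.t (@Lb.fm (nat_lit 9) t681)))))))))))
noncomputable def l5425 : Lb := (@Lb.r r323 (@Lb.d (nat_lit 9) (nat_lit 1) (nat_lit 2) (@Lb.g g8 (@Lb.g g9 (@Lb.g g10 (@Lb.r r102 (@Lb.r r404 (@Lb.r r1307 (@Lb.r r2577 (@Lb.d (nat_lit 1) (nat_lit 101) (nat_lit 278) (@Lb.t (@Lb.fm (nat_lit 9) t51))))))))))))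
noncomputable def l5426 : Lb := (@Lb.r r323 (@Lb.d (nat_lit 9) (nat_lit 257) (nat_lit 2) (@Lb.g g8 (@Lb.g g9 (@Lb.g g10 (@Lb.r r102 (@Lb.r r404 (@Lb.r r1307 (@Lb.r r2577 (@Lb.d (nat_lit 8) (nat_lit 100) (nat_lit 278) (@Lb.t (@Lb.fm (nat_lit 9) t51))))))))))))
noncomputable def l5427 : Lb := (@Lb.d (nat_lit 9) (nat_lit 257) (nat_lit 130) (@Lb.g g8 (@Lb.g g9 (@Lb.g g10 (@Lb.g g11 (@Lb.r r614 (@Lb.r r408 (@Lb.r r1303 (@Lb.r r2577 (@Lb.r r36 (@Lb.d (nat_lit 4) (nat_lit 101) (nat_lit 278) (@Lb.fm (nat_lit 9) t51))))))))))))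
noncomputable def l5428 : Lb := (@Lb.d (nat_lit 2) (nat_lit 514) (nat_lit 64) (@Lb.g g8 (@Lb.g g9 (@Lb.g g10 (@Lb.g g11 (@Lb.r r2315 (@Lb.r r297 (@Lb.r r2376 (@Lb.r r1638 (@Lb.d (nat_lit 0) (nat_lit 166) (nat_lit 425) (@Lb.fp (nat_lit 9) t122)))))))))))
noncomputable def l5429 : Lb := (@Lb.d (nat_lit 32) (nat_lit 264) (nat_lit 4) (@Lb.g g10 (@Lb.g g11 (@Lb.r r324 (@Lb.r r651 (@Lb.r r357 (@Lb.r r666 (@Lb.d (nat_lit 74) (nat_lit 42) (nat_lit 132) (@Lb.fp (nat_lit 3) t167)))))))))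
noncomputable def l5430 : Lb := (@Lb.d (nat_lit 6) (nat_lit 321) (nat_lit 69) (@Lb.r r289 (@Lb.r r279 (@Lb.r r584 (@Lb.r r326 (@Lb.g g7 (@Lb.g g6 (@Lb.g g5 (@Lb.d (nat_lit 0) (nat_lit 0) (nat_lit 65) (@Lb.t (@Lb.fp (nat_lit 9) t68)))))))))))
noncomputable def l5431 : Lb := (@Lb.r r82 (@Lb.d (nat_lit 2) (nat_lit 258) (nat_lit 128) (@Lb.g g8 (@Lb.g g9 (@Lb.g g11 (@Lb.r r299 (@Lb.r r578 (@Lb.r r409 (@Lb.d (nat_lit 153) (nat_lit 9) (nat_lit 74) (@Lb.t (@Lb.fm (nat_lit 9) t1571)))))))))))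
noncomputable def l5432 : Lb := (@Lb.d (nat_lit 0) (nat_lit 4) (nat_lit 130) (@Lb.r r402 (@Lb.g g11 (@Lb.d (nat_lit 0) (nat_lit 0) (nat_lit 72) (@Lb.t (@Lb.fm (nat_lit 3) t1496))))))
noncomputable def l5433 : Lb := (@Lb.d (nat_lit 10) (nat_lit 8) (nat_lit 4) (@Lb.g g8 (@Lb.g g10 (@Lb.g g11 (@Lb.r r545 (@Lb.r r555 (@Lb.r r612 (@Lb.r r154 (@Lb.d (nat_lit 10) (nat_lit 10) (nat_lit 6) (@Lb.t (@Lb.fp (nat_lit 9) t167)))))))))))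
noncomputable def l5434 : Lb := (@Lb.d (nat_lit 2) (nat_lit 258) (nat_lit 66) (@Lb.g g8 (@Lb.g g9 (@Lb.g g10 (@Lb.g g11 (@Lb.r r2329 (@Lb.r r419 (@Lb.r r386 (@Lb.d (nat_lit 289) (nat_lit 164) (nat_lit 74) (@Lb.fm (nat_lit 9) t791))))))))))
noncomputable def l5435 : Lb := (@Lb.d (nat_lit 2) (nat_lit 514) (nat_lit 130) (@Lb.g g8 (@Lb.g g9 (@Lb.g g10 (@Lb.g g11 (@Lb.r r2411 (@Lb.r r386 (@Lb.r r97 (@Lb.r r24 (@Lb.d (nat_lit 536) (nat_lit 9) (nat_lit 68) (@Lb.fm (nat_lit 9) t61)))))))))))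
noncomputable def l5436 : Lb := (@Lb.d (nat_lit 6) (nat_lit 273) (nat_lit 2) (@Lb.g g8 (@Lb.g g9 (@Lb.g g10 (@Lb.g g11 (@Lb.r r683 (@Lb.r r680 (@Lb.r r170 (@Lb.r r1173 (@Lb.r r1044 (@Lb.d (nat_lit 293) (nat_lit 6) (nat_lit 153) (@Lb.fm (nat_lit 9) t144))))))))))))
noncomputable def l5437 : Lb := (@Lb.r r21 (@Lb.d (nat_lit 64) (nat_lit 0) (nat_lit 2) (@Lb.g g8 (@Lb.g g10 (@Lb.g g11 (@Lb.r r651 (@Lb.r r2665 (@Lb.r r1686 (@Lb.r r2404 (@Lb.d (nat_lit 293) (nat_lit 42) (nat_lit 549) (@Lb.t (@Lb.fp (nat_lit 9) t144))))))))))))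
noncomputable def l5438 : Lb := (@Lb.r r323 (@Lb.d (nat_lit 2) (nat_lit 514) (nat_lit 2) (@Lb.g g8 (@Lb.g g9 (@Lb.g g10 (@Lb.r r1433 (@Lb.r r2339 (@Lb.r r2434 (@Lb.d (nat_lit 545) (nat_lit 100) (nat_lit 362) (@Lb.t (@Lb.fp (nat_lit 9) t296)))))))))))
noncomputable def l5439 : Lb := (@Lb.d (nat_lit 4) (nat_lit 517) (nat_lit 150) (@Lb.r r82 (@Lb.r r2387 (@Lb.r r677 (@Lb.g g7 (@Lb.g g6 (@Lb.g g5 (@Lb.g g8 (@Lb.d (nat_lit 330) (nat_lit 0) (nat_lit 134) (@Lb.fp (nat_lit 9) t1572))))))))))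
noncomputable def l5440 : Lb := (@Lb.d (nat_lit 2) (nat_lit 9) (nat_lit 129) (@Lb.g g8 (@Lb.g g9 (@Lb.g g10 (@Lb.g g11 (@Lb.r r1706 (@Lb.r r1700 (@Lb.r r1575 (@Lb.r r1685 (@Lb.d (nat_lit 420) (nat_lit 105) (nat_lit 610) (@Lb.fp (nat_lit 9) t215)))))))))))
noncomputable def l5441 : Lb := (@Lb.d (nat_lit 2) (nat_lit 521) (nat_lit 129) (@Lb.g g8 (@Lb.g g9 (@Lb.g g10 (@Lb.g g11 (@Lb.r r1706 (@Lb.r r1700 (@Lb.r r1575 (@Lb.r r1685 (@Lb.d (nat_lit 421) (nat_lit 105) (nat_lit 610) (@Lb.fp (nat_lit 9) t920)))))))))))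
noncomputable def l5442 : Lb := (@Lb.d (nat_lit 74) (nat_lit 84) (nat_lit 70) (@Lb.r r405 (@Lb.r r402 (@Lb.r r615 (@Lb.g g7 (@Lb.g g5 (@Lb.g g8 (@Lb.d (nat_lit 10) (nat_lit 21) (nat_lit 128) (@Lb.r r98 (@Lb.t (@Lb.fm (nat_lit 9) t35)))))))))))
noncomputable def l5443 : Lb := (@Lb.d (nat_lit 2) (nat_lit 2) (nat_lit 73) (@Lb.g g8 (@Lb.g g9 (@Lb.g g10 (@Lb.g g11 (@Lb.r r619 (@Lb.r r1610 (@Lb.r r660 (@Lb.r r425 (@Lb.r r2084 (@Lb.d (nat_lit 278) (nat_lit 170) (nat_lit 617) (@Lb.fp (nat_lit 9) t1371))))))))))))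
noncomputable def l5444 : Lb := (@Lb.d (nat_lit 2) (nat_lit 260) (nat_lit 150) (@Lb.r r82 (@Lb.r r2387 (@Lb.r r677 (@Lb.g g7 (@Lb.g g6 (@Lb.g g8 (@Lb.d (nat_lit 328) (nat_lit 0) (nat_lit 134) (@Lb.r r25 (@Lb.t (@Lb.fp (nat_lit 9) t1572)))))))))))
noncomputable def l5445 : Lb := (@Lb.d (nat_lit 0) (nat_lit 4) (nat_lit 130) (@Lb.g g8 (@Lb.g g9 (@Lb.g g10 (@Lb.g g11 (@Lb.r r2475 (@Lb.r r2193 (@Lb.r r356 (@Lb.r r154 (@Lb.r r1156 (@Lb.d (nat_lit 265) (nat_lit 130) (nat_lit 137) (@Lb.fm (nat_lit 9) t601))))))))))))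
noncomputable def l5446 : Lb := (@Lb.d (nat_lit 0) (nat_lit 258) (nat_lit 129) (@Lb.g g8 (@Lb.g g9 (@Lb.g g10 (@Lb.g g11 (@Lb.r r2475 (@Lb.r r2193 (@Lb.r r356 (@Lb.r r154 (@Lb.r r1156 (@Lb.d (nat_lit 265) (nat_lit 130) (nat_lit 137) (@Lb.fm (nat_lit 9) t61))))))))))))
noncomputable def l5447 : Lb := (@Lb.d (nat_lit 0) (nat_lit 516) (nat_lit 130) (@Lb.g g8 (@Lb.g g9 (@Lb.g g10 (@Lb.g g11 (@Lb.r r2475 (@Lb.r r2193 (@Lb.r r356 (@Lb.r r154 (@Lb.r r1156 (@Lb.d (nat_lit 266) (nat_lit 130) (nat_lit 137) (@Lb.fm (nat_lit 9) t31))))))))))))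
noncomputable def l5448 : Lb := (@Lb.r r600 (@Lb.r r2587 (@Lb.r r2178 (@Lb.r r1429 (@Lb.r r1572 (@Lb.d (nat_lit 2) (nat_lit 256) (nat_lit 0) (@Lb.fm (nat_lit 1) t229)))))))
noncomputable def l5449 : Lb := (@Lb.d (nat_lit 128) (nat_lit 32) (nat_lit 136) (@Lb.g g7 (@Lb.r r680 (@Lb.r r2729 (@Lb.r r1706 (@Lb.r r683 (@Lb.d (nat_lit 169) (nat_lit 41) (nat_lit 73) (@Lb.t (@Lb.fm (nat_lit 3) t322)))))))))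
noncomputable def l5450 : Lb := (@Lb.d (nat_lit 0) (nat_lit 0) (nat_lit 128) (@Lb.g g11 (@Lb.r r545 (@Lb.r r299 (@Lb.r r356 (@Lb.r r154 (@Lb.d (nat_lit 1) (nat_lit 69) (nat_lit 1) (@Lb.t (@Lb.fp (nat_lit 3) t743)))))))))
noncomputable def l5451 : Lb := (@Lb.d (nat_lit 0) (nat_lit 264) (nat_lit 2) (@Lb.g g10 (@Lb.r r1427 (@Lb.d (nat_lit 0) (nat_lit 138) (nat_lit 1) (@Lb.t (@Lb.fp (nat_lit 3) t334))))))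
noncomputable def l5452 : Lb := (@Lb.d (nat_lit 8) (nat_lit 290) (nat_lit 0) (@Lb.g g5 (@Lb.r r683 (@Lb.r r2178 (@Lb.r r2728 (@Lb.r r2601 (@Lb.d (nat_lit 649) (nat_lit 166) (nat_lit 102) (@Lb.t (@Lb.fm (nat_lit 3) t88)))))))))
noncomputable def l5453 : Lb := (@Lb.r r322 (@Lb.d (nat_lit 8) (nat_lit 264) (nat_lit 136) (@Lb.g g9 (@Lb.g g7 (@Lb.r r1626 (@Lb.r r1620 (@Lb.r r2393 (@Lb.d (nat_lit 296) (nat_lit 152) (nat_lit 548) (@Lb.fp (nat_lit 3) t242)))))))))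
noncomputable def l5454 : Lb := (@Lb.r r21 (@Lb.r r70 (@Lb.r r263 (@Lb.g g8 (@Lb.r r267 (@Lb.r r74 (@Lb.r r25 (@Lb.d (nat_lit 4) (nat_lit 320) (nat_lit 0) (@Lb.t (@Lb.fp (nat_lit 3) t352))))))))))
noncomputable def l5455 : Lb := (@Lb.r r21 (@Lb.r r70 (@Lb.r r263 (@Lb.g g8 (@Lb.r r267 (@Lb.r r74 (@Lb.r r25 (@Lb.d (nat_lit 4) (nat_lit 6) (nat_lit 32) (@Lb.t (@Lb.fp (nat_lit 3) t1559))))))))))
noncomputable def l5456 : Lb := (@Lb.d (nat_lit 513) (nat_lit 520) (nat_lit 2) (@Lb.r r150 (@Lb.r r360 (@Lb.r r2145 (@Lb.r r2407 (@Lb.g g7 (@Lb.g g6 (@Lb.d (nat_lit 0) (nat_lit 0) (nat_lit 64) (@Lb.fp (nat_lit 3) t1573)))))))))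
noncomputable def l5457 : Lb := (@Lb.d (nat_lit 5) (nat_lit 168) (nat_lit 580) (@Lb.r r1426 (@Lb.r r1637 (@Lb.r r1304 (@Lb.r r2371 (@Lb.g g7 (@Lb.g g6 (@Lb.g g5 (@Lb.d (nat_lit 16) (nat_lit 0) (nat_lit 65) (@Lb.t (@Lb.fm (nat_lit 9) t681)))))))))))
noncomputable def l5458 : Lb := (@Lb.d (nat_lit 5) (nat_lit 680) (nat_lit 580) (@Lb.r r1426 (@Lb.r r1637 (@Lb.r r1304 (@Lb.r r2371 (@Lb.g g7 (@Lb.g g6 (@Lb.d (nat_lit 16) (nat_lit 0) (nat_lit 129) (@Lb.fp (nat_lit 3) t1549)))))))))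
noncomputable def l5459 : Lb := (@Lb.g g9 (@Lb.r r2343 (@Lb.r r2150 (@Lb.r r101 (@Lb.r r2196 (@Lb.d (nat_lit 25) (nat_lit 0) (nat_lit 16) (@Lb.t (@Lb.fm (nat_lit 3) t65))))))))
noncomputable def l5460 : Lb := (@Lb.d (nat_lit 5) (nat_lit 168) (nat_lit 580) (@Lb.r r1426 (@Lb.r r1637 (@Lb.r r1304 (@Lb.r r2371 (@Lb.g g7 (@Lb.g g6 (@Lb.d (nat_lit 16) (nat_lit 0) (nat_lit 65) (@Lb.fp (nat_lit 3) t681)))))))))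
noncomputable def l5461 : Lb := (@Lb.r r275 (@Lb.d (nat_lit 0) (nat_lit 10) (nat_lit 1) (@Lb.g g9 (@Lb.g g10 (@Lb.r r643 (@Lb.r r165 (@Lb.r r1638 (@Lb.r r24 (@Lb.d (nat_lit 146) (nat_lit 0) (nat_lit 2) (@Lb.fp (nat_lit 3) t42))))))))))
noncomputable def l5462 : Lb := (@Lb.d (nat_lit 0) (nat_lit 512) (nat_lit 2) (@Lb.g g9 (@Lb.g g10 (@Lb.r r1411 (@Lb.r r98 (@Lb.d (nat_lit 0) (nat_lit 138) (nat_lit 66) (@Lb.fm (nat_lit 3) t334)))))))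
noncomputable def l5463 : Lb := (@Lb.d (nat_lit 8) (nat_lit 522) (nat_lit 129) (@Lb.g g9 (@Lb.g g10 (@Lb.g g11 (@Lb.r r1304 (@Lb.r r1687 (@Lb.r r2402 (@Lb.r r1361 (@Lb.d (nat_lit 281) (nat_lit 80) (nat_lit 389) (@Lb.t (@Lb.fm (nat_lit 9) t1574)))))))))))
noncomputable def l5464 : Lb := (@Lb.r r82 (@Lb.r r275 (@Lb.d (nat_lit 4) (nat_lit 2) (nat_lit 0) (@Lb.g g5 (@Lb.r r579 (@Lb.r r2458 (@Lb.r r24 (@Lb.d (nat_lit 513) (nat_lit 1) (nat_lit 2) (@Lb.t (@Lb.fp (nat_lit 3) t42))))))))))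
noncomputable def l5465 : Lb := (@Lb.d (nat_lit 0) (nat_lit 10) (nat_lit 0) (@Lb.g g5 (@Lb.r r1323 (@Lb.r r1448 (@Lb.r r1130 (@Lb.r r1113 (@Lb.d (nat_lit 298) (nat_lit 69) (nat_lit 1) (@Lb.t (@Lb.fp (nat_lit 3) t1406)))))))))
noncomputable def l5466 : Lb := (@Lb.r r24 (@Lb.r r101 (@Lb.d (nat_lit 0) (nat_lit 645) (nat_lit 0) (@Lb.fp (nat_lit 1) t126))))
noncomputable def l5467 : Lb := (@Lb.d (nat_lit 96) (nat_lit 256) (nat_lit 105) (@Lb.r r24 (@Lb.r r2709 (@Lb.r r1619 (@Lb.r r2466 (@Lb.g g7 (@Lb.g g6 (@Lb.g g5 (@Lb.d (nat_lit 0) (nat_lit 34) (nat_lit 1) (@Lb.t (@Lb.fm (nat_lit 9) t144)))))))))))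
noncomputable def l5468 : Lb := (@Lb.d (nat_lit 2) (nat_lit 514) (nat_lit 64) (@Lb.g g8 (@Lb.g g9 (@Lb.g g11 (@Lb.r r644 (@Lb.r r2311 (@Lb.r r146 (@Lb.r r97 (@Lb.r r1540 (@Lb.d (nat_lit 1) (nat_lit 162) (nat_lit 642) (@Lb.t (@Lb.fm (nat_lit 9) t295))))))))))))
noncomputable def l5469 : Lb := (@Lb.d (nat_lit 128) (nat_lit 512) (nat_lit 328) (@Lb.g g11 (@Lb.d (nat_lit 512) (nat_lit 0) (nat_lit 130) (@Lb.t (@Lb.fp (nat_lit 3) t441)))))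
noncomputable def l5470 : Lb := (@Lb.d (nat_lit 0) (nat_lit 32) (nat_lit 64) (@Lb.g g11 (@Lb.r r2337 (@Lb.r r2391 (@Lb.r r2178 (@Lb.r r8 (@Lb.d (nat_lit 400) (nat_lit 154) (nat_lit 425) (@Lb.t (@Lb.fm (nat_lit 3) t632)))))))))
noncomputable def l5471 : Lb := (@Lb.d (nat_lit 2) (nat_lit 258) (nat_lit 64) (@Lb.g g8 (@Lb.g g9 (@Lb.g g11 (@Lb.r r644 (@Lb.r r2311 (@Lb.r r146 (@Lb.r r97 (@Lb.r r1540 (@Lb.d (nat_lit 2) (nat_lit 162) (nat_lit 642) (@Lb.t (@Lb.fm (nat_lit 9) t295))))))))))))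
noncomputable def l5472 : Lb := (@Lb.d (nat_lit 2) (nat_lit 258) (nat_lit 130) (@Lb.g g8 (@Lb.g g9 (@Lb.g g10 (@Lb.g g11 (@Lb.r r2579 (@Lb.r r1449 (@Lb.r r1448 (@Lb.r r1418 (@Lb.d (nat_lit 594) (nat_lit 10) (nat_lit 601) (@Lb.fp (nat_lit 9) t1575)))))))))))
noncomputable def l5473 : Lb := (@Lb.d (nat_lit 2) (nat_lit 257) (nat_lit 130) (@Lb.g g8 (@Lb.g g9 (@Lb.g g10 (@Lb.g g11 (@Lb.r r586 (@Lb.r r584 (@Lb.r r411 (@Lb.r r593 (@Lb.d (nat_lit 9) (nat_lit 152) (nat_lit 68) (@Lb.fm (nat_lit 9) t1576)))))))))))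
noncomputable def l5474 : Lb := (@Lb.d (nat_lit 5) (nat_lit 25) (nat_lit 9) (@Lb.r r657 (@Lb.r r666 (@Lb.r r420 (@Lb.r r347 (@Lb.g g7 (@Lb.g g6 (@Lb.g g5 (@Lb.d (nat_lit 4) (nat_lit 0) (nat_lit 65) (@Lb.t (@Lb.fm (nat_lit 9) t68)))))))))))
noncomputable def l5475 : Lb := (@Lb.d (nat_lit 6) (nat_lit 281) (nat_lit 9) (@Lb.r r657 (@Lb.r r666 (@Lb.r r420 (@Lb.r r347 (@Lb.g g7 (@Lb.g g6 (@Lb.g g5 (@Lb.d (nat_lit 4) (nat_lit 0) (nat_lit 134) (@Lb.t (@Lb.fm (nat_lit 9) t68)))))))))))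
noncomputable def l5476 : Lb := (@Lb.d (nat_lit 2) (nat_lit 258) (nat_lit 130) (@Lb.g g8 (@Lb.g g9 (@Lb.g g10 (@Lb.g g11 (@Lb.r r427 (@Lb.r r424 (@Lb.r r106 (@Lb.r r97 (@Lb.d (nat_lit 9) (nat_lit 9) (nat_lit 137) (@Lb.fp (nat_lit 9) t51)))))))))))
noncomputable def l5477 : Lb := (@Lb.d (nat_lit 2) (nat_lit 265) (nat_lit 6) (@Lb.g g8 (@Lb.g g9 (@Lb.g g10 (@Lb.g g11 (@Lb.r r427 (@Lb.r r424 (@Lb.r r106 (@Lb.r r97 (@Lb.d (nat_lit 9) (nat_lit 9) (nat_lit 137) (@Lb.fp (nat_lit 9) t594)))))))))))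
noncomputable def l5478 : Lb := (@Lb.d (nat_lit 2) (nat_lit 521) (nat_lit 129) (@Lb.g g8 (@Lb.g g9 (@Lb.g g10 (@Lb.g g11 (@Lb.r r427 (@Lb.r r424 (@Lb.r r106 (@Lb.r r97 (@Lb.d (nat_lit 9) (nat_lit 9) (nat_lit 137) (@Lb.fp (nat_lit 9) t594)))))))))))
noncomputable def l5479 : Lb := (@Lb.r r82 (@Lb.d (nat_lit 2) (nat_lit 258) (nat_lit 128) (@Lb.g g8 (@Lb.g g9 (@Lb.g g11 (@Lb.r r299 (@Lb.r r296 (@Lb.r r89 (@Lb.r r98 (@Lb.d (nat_lit 21) (nat_lit 1) (nat_lit 136) (@Lb.t (@Lb.fp (nat_lit 9) t594))))))))))))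
noncomputable def l5480 : Lb := (@Lb.d (nat_lit 256) (nat_lit 522) (nat_lit 146) (@Lb.r r8 (@Lb.r r82 (@Lb.r r421 (@Lb.g g11 (@Lb.d (nat_lit 64) (nat_lit 32) (nat_lit 320) (@Lb.r r578 (@Lb.t (@Lb.fp (nat_lit 3) t1577)))))))))
noncomputable def l5481 : Lb := (@Lb.d (nat_lit 10) (nat_lit 1) (nat_lit 128) (@Lb.g g8 (@Lb.g g9 (@Lb.g g10 (@Lb.g g11 (@Lb.r r1707 (@Lb.r r2705 (@Lb.r r2148 (@Lb.r r154 (@Lb.d (nat_lit 681) (nat_lit 10) (nat_lit 42) (@Lb.fp (nat_lit 9) t1578)))))))))))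
noncomputable def l5482 : Lb := (@Lb.r r20 (@Lb.r r82 (@Lb.r r275 (@Lb.g g9 (@Lb.r r291 (@Lb.r r98 (@Lb.r r2180 (@Lb.d (nat_lit 2) (nat_lit 2) (nat_lit 16) (@Lb.t (@Lb.fp (nat_lit 3) t1579))))))))))
noncomputable def l5483 : Lb := (@Lb.d (nat_lit 293) (nat_lit 645) (nat_lit 33) (@Lb.r r2217 (@Lb.r r168 (@Lb.r r2118 (@Lb.r r2311 (@Lb.g g5 (@Lb.g g8 (@Lb.r r291 (@Lb.r r98 (@Lb.fp (nat_lit 3) t1580))))))))))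
noncomputable def l5484 : Lb := (@Lb.d (nat_lit 354) (nat_lit 324) (nat_lit 136) (@Lb.r r20 (@Lb.r r409 (@Lb.r r679 (@Lb.r r404 (@Lb.g g7 (@Lb.g g10 (@Lb.g g5 (@Lb.g g4 (@Lb.d (nat_lit 1) (nat_lit 2) (nat_lit 150) (@Lb.fp (nat_lit 9) t1581)))))))))))
noncomputable def l5485 : Lb := (@Lb.d (nat_lit 330) (nat_lit 592) (nat_lit 133) (@Lb.r r281 (@Lb.r r359 (@Lb.r r532 (@Lb.g g10 (@Lb.g g5 (@Lb.g g4 (@Lb.d (nat_lit 1) (nat_lit 18) (nat_lit 21) (@Lb.r r387 (@Lb.t (@Lb.fm (nat_lit 9) t1582)))))))))))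
noncomputable def l5486 : Lb := (@Lb.d (nat_lit 2) (nat_lit 258) (nat_lit 130) (@Lb.g g8 (@Lb.g g9 (@Lb.g g10 (@Lb.g g11 (@Lb.r r1443 (@Lb.r r297 (@Lb.r r2120 (@Lb.r r1126 (@Lb.d (nat_lit 276) (nat_lit 133) (nat_lit 384) (@Lb.fp (nat_lit 9) t1583)))))))))))

end Pool.Agent.MP_61a8e3_al.G4.K
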