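/-! Part K: the types of the data. -/

set_option autoImplicit false

namespace Pool.Agent.MP_61a8e3_al.G4.K

/-- the data of a gate that changes one coordinate -/
structure RG where
  (c A B u1 u2 s1 s2 : Nat)

/-- the data of a dense gate -/
structure GG where
  (c gu s2 gz ps pm pq : Nat)

/-- labels: lists of gates with a final normalisation -/
inductive Lb
  | e
  | fp (dv t : Nat)
  | fm (dv t : Nat)
  | r (x : RG) (k : Lb)
  | d (c0 c1 c2 : Nat) (k : Lb)
  | g (x : GG) (k : Lb)
  | p (s : Nat) (k : Lb)
  | t (k : Lb)

/-- entries: label (none for the identity), target class, target rotation, position of the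
inverse of the root -/
inductive En
  | i (c j k : Nat)
  | n (l : Lb) (c j k : Nat)

/-- sixteen values -/
inductive T16 (α : Type)
  | mk (f0 f1 f2 f3 f4 f5 f6 f7 f8 f9 f10 f11 f12 f13 f14 f15 : α)

/-- classes: shape, depths, period, isotropy label, entries -/
structure Cl where
  sh : Nat
  dp : Nat
  per : Nat
  iso : Lb
  en : T16 En

end Pool.Agent.MP_61a8e3_al.G4.K
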